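import Pool.Agent.Lib.MP_6947cd_al.L.BoxDataB
import Pool.Agent.Lib.MP_6947cd_al.L.TeD4
import Pool.Agent.Lib.MP_6947cd_al.L.TeD5

/-!
Problem MP_6947cd_al (Chollet).  CASE B, rows `j`: boxes (generated).
-/

set_option autoImplicit false
set_option linter.defProp false
set_option maxRecDepth 20000

namespace Pool.Agent.Lib.MP_6947cd_al
namespace CB

open Ent Ent.Pk Fr Fr.WT CA

/-! box `yB14_13` -/

def P14_13 : BQ := ⟨(nat_lit 8), (nat_lit 8), (nat_lit 0), (nat_lit 4), (nat_lit 4), (nat_lit 800), (nat_lit 820), (nat_lit 120), [(nat_lit 200), (nat_lit 300), (nat_lit 450), (nat_lit 800)], (nat_lit 112816000), (nat_lit 16000000), (nat_lit 16000000000)⟩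
def q14_13 : PC := ⟨(nat_lit 1000), [(nat_lit 120000), (nat_lit 200000), (nat_lit 300000), (nat_lit 450000), (nat_lit 800000)], (nat_lit 340282367000166625996085689103316680705000000), (nat_lit 15887184000000), (nat_lit 15887184000000), (nat_lit 10000000)⟩
def r14_13 : List PC := [⟨(nat_lit 1318), [(nat_lit 120638), (nat_lit 201058), (nat_lit 301356), (nat_lit 451524), (nat_lit 801098)], (nat_lit 342307047083798206520922958379043751250054254), (nat_lit 16317123644160), (nat_lit 16328367971520), (nat_lit 10053167)⟩, ⟨(nat_lit 2205), [(nat_lit 123402), (nat_lit 203921), (nat_lit 305392), (nat_lit 457333), (nat_lit 811838)], (nat_lit 348019707460889570449706450494468283052288198), (nat_lit 17375321129600), (nat_lit 17417929351200), (nat_lit 10283500)⟩]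
def s14_13 : List PB := [⟨(nat_lit 26360), (nat_lit 1930208000000), [(nat_lit 201058), (nat_lit 301356), (nat_lit 451524), (nat_lit 801098)], (nat_lit 342307047083798206520922958379043751250054254), (nat_lit 1142217030486784), (nat_lit 1142228274814144), (nat_lit 50880)⟩, ⟨(nat_lit 44100), (nat_lit 1974432000000), [(nat_lit 203921), (nat_lit 305392), (nat_lit 457333), (nat_lit 811838)], (nat_lit 348019707460889570449706450494468283052288198), (nat_lit 1143275227972224), (nat_lit 1143317836193824), (nat_lit 192800)⟩]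
def n14_13 : List KN := [⟨(nat_lit 800), (nat_lit 450), (nat_lit 12765436), (nat_lit 5447273)⟩, ⟨(nat_lit 450), (nat_lit 300), (nat_lit 18971201), (nat_lit 12765436)⟩, ⟨(nat_lit 300), (nat_lit 200), (nat_lit 25510466), (nat_lit 18971201)⟩, ⟨(nat_lit 200), (nat_lit 120), (nat_lit 39120232), (nat_lit 25510466)⟩]
def w14_13 : List ℕ := [(nat_lit 50880), (nat_lit 192800)]
def par14_13 : parC yB14_13 P14_13 s14_13 r14_13 q14_13 n14_13 w14_13 = true := by decide +kernel

def p14_13_0 : PF := (PF.cons (PF.cons (PF.cons (PF.cons (PF.leaf (nat_lit 713697) (nat_lit 2169492) (nat_lit 64939320) (nat_lit 2169492) [(nat_lit 0), (nat_lit 0), (nat_lit 0), (nat_lit 0)]) (PF.cons (PF.leaf (nat_lit 855129) (nat_lit 222021) (nat_lit 64659666) (nat_lit 2227124) [(nat_lit 222021), (nat_lit 0), (nat_lit 0), (nat_lit 0)]) (PF.cons (PF.leaf (nat_lit 1027518) (nat_lit 245832) (nat_lit 64326445) (nat_lit 2290701) [(nat_lit 245832), (nat_lit 0), (nat_lit 0), (nat_lit 0)]) (PF.cons (PF.leaf (nat_lit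 1225305) (nat_lit 268216) (nat_lit 63946652) (nat_lit 2357509) [(nat_lit 268216), (nat_lit 0), (nat_lit 0), (nat_lit 0)]) (PF.cons (PF.leaf (nat_lit 1446404) (nat_lit 289463) (nat_lit 63525253) (nat_lit 2425704) [(nat_lit 289463), (nat_lit 0), (nat_lit 0), (nat_lit 0)]) (PF.cons (PF.leaf (nat_lit 1688836) (nat_lit 309723) (nat_lit 63066218) (nat_lit 2493975) [(nat_lit 309723), (nat_lit 0), (nat_lit 0), (nat_lit 0)]) (PF.cons (PF.leaf (nat_lit 1951117) (nat_lit 329077) (nat_lit 62572974) (nat_lit 2561371) [(nat_lit 329077), (nat_lit 0), (nat_lit 0), (nat_lit 0)]) (PF.cons (PF.leaf (nat_lit 2231670) (nat_lit 347571) (nat_lit 62048626) (nat_lit 2627188) [(nat_lit 347571), (nat_lit 0), (nat_lit 0),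
 (nat_lit 0)]) (PF.cons (PF.leaf (nat_lit 2529104) (nat_lit 365230) (nat_lit 61496067) (nat_lit 2690905) [(nat_lit 365230), (nat_lit 0), (nat_lit 0), (nat_lit 0)]) (PF.cons (PF.leaf (nat_lit 2842056) (nat_lit 382070) (nat_lit 60918039) (nat_lit 2752138) [(nat_lit 382070), (nat_lit 0), (nat_lit 0), (nat_lit 0)]) (PF.cons PF.nil (PF.cons PF.nil PF.nil)))))))))))) (PF.cons (PF.cons (PF.leaf (nat_lit 1232793) (nat_lit 1084499) (nat_lit 63630153) (nat_lit 2394159) [(nat_lit 0), (nat_lit 1084499), (nat_lit 0), (nat_lit 0)]) (PF.cons (PF.leaf (nat_lit 1429375) (nat_lit 284850) (nat_lit 63242255) (nat_lit 2454026) [(nat_lit 284850), (nat_lit 1127680), (nat_lit 0), (nat_lit 0)]) (PF.cons (PF.leaf (nat_lit 1651513) (nat_lit 305442) (nat_lit 62810759) (nat_lit 2515781) [(nat_lit 305442), (nat_lit 1171386), (nat_lit 0), (nat_lit 0)]) (PF.cons (PF.leaf (nat_lit 1895328) (nat_lit 324979) (nat_lit 62341124) (nat_lit 2577963) [(nat_lit 324979), (nat_lit 1214787), (nat_lit 0), (nat_lit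 0)]) (PF.cons (PF.leaf (nat_lit 2158886) (nat_lit 343576) (nat_lit 61837604) (nat_lit 2639551) [(nat_lit 343576), (nat_lit 1257352), (nat_lit 0), (nat_lit 0)]) (PF.cons (PF.leaf (nat_lit 2440531) (nat_lit 361298)
 (nat_lit 61303792) (nat_lit 2699806) [(nat_lit 361298), (nat_lit 1298722), (nat_lit 0), (nat_lit 0)]) (PF.cons (PF.leaf (nat_lit 2738639) (nat_lit 378182) (nat_lit 60742876) (nat_lit 2758188) [(nat_lit 378182), (nat_lit 1338650), (nat_lit 0), (nat_lit 0)]) (PF.cons (PF.leaf (nat_lit 3051804) (nat_lit 394253) (nat_lit 60157772) (nat_lit 2814300) [(nat_lit 394253), (nat_lit 1376965), (nat_lit 0), (nat_lit 0)]) (PF.cons PF.nil (PF.cons PF.nil PF.nil)))))))))) (PF.cons (PF.cons (PF.leaf (nat_lit 1863068) (nat_lit 1223282) (nat_lit 62062710) (nat_lit 2599538) [(nat_lit 0), (nat_lit 1223282), (nat_lit 0), (nat_lit 0)]) (PF.cons (PF.leaf (nat_lit 2105181) (nat_lit 338787) (nat_lit 61588548) (nat_lit 2655735) [(nat_lit 338787), (nat_lit 1262870), (nat_lit 0), (nat_lit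 0)]) (PF.cons (PF.leaf (nat_lit 2368373) (nat_lit 356766) (nat_lit 61079656) (nat_lit 2711705) [(nat_lit 356766), (nat_lit 1301958), (nat_lit 0), (nat_lit 0)]) (PF.cons (PF.leaf (nat_lit 2649699) (nat_lit 373825) (nat_lit 60540504) (nat_lit 2766631) [(nat_lit 373825), (nat_lit 1340100), (nat_lit 0), (nat_lit 0)]) (PF.cons (PF.leaf (nat_lit 2947379) (nat_lit 390022) (nat_lit 59974793) (nat_lit 2819929) [(nat_lit 390022),
 (nat_lit 1376998), (nat_lit 0), (nat_lit 0)]) (PF.cons (PF.leaf (nat_lit 3259843) (nat_lit 405397) (nat_lit 59385745) (nat_lit 2871180) [(nat_lit 405397), (nat_lit 1412449), (nat_lit 0), (nat_lit 0)]) (PF.cons (PF.leaf (nat_lit 3585635) (nat_lit 419974) (nat_lit 58776256) (nat_lit 2920083) [(nat_lit 419974), (nat_lit 1446312), (nat_lit 0), (nat_lit 0)]) (PF.cons PF.nil (PF.cons PF.nil PF.nil))))))))) (PF.cons (PF.cons (PF.leaf (nat_lit 2580957) (nat_lit 1343424) (nat_lit 60300211) (nat_lit 2778326) [(nat_lit 0), (nat_lit 1343424), (nat_lit 0), (nat_lit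 0)]) (PF.cons (PF.leaf (nat_lit 2859773) (nat_lit 385184) (nat_lit 59760182) (nat_lit 2828095) [(nat_lit 385184), (nat_lit 1378450), (nat_lit 0), (nat_lit 0)]) (PF.cons (PF.leaf (nat_lit 3155751) (nat_lit 400786) (nat_lit 59193383) (nat_lit 2876519) [(nat_lit 400786), (nat_lit 1412445), (nat_lit 0), (nat_lit 0)]) (PF.cons (PF.leaf (nat_lit 3466506) (nat_lit 415541) (nat_lit 58603558) (nat_lit 2923136) [(nat_lit 415541), (nat_lit 1445165), (nat_lit 0), (nat_lit 0)]) (PF.cons (PF.leaf (nat_lit 3790417) (nat_lit 429487) (nat_lit 57993909) (nat_lit 2967620) [(nat_lit 429487), (nat_lit 1476444), (nat_lit 0), (nat_lit 0)]) (PF.cons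
 (PF.leaf (nat_lit 4126046) (nat_lit 442655) (nat_lit 57367267) (nat_lit 3009745) [(nat_lit 442655), (nat_lit 1506173), (nat_lit 0), (nat_lit 0)]) (PF.cons PF.nil PF.nil))))))) (PF.cons (PF.cons (PF.leaf (nat_lit 3364905) (nat_lit 1445206) (nat_lit 58399672) (nat_lit 2928313) [(nat_lit 0), (nat_lit 1445206), (nat_lit 0), (nat_lit 0)]) (PF.cons (PF.leaf (nat_lit 3672267) (nat_lit 424710) (nat_lit 57812398) (nat_lit 2970492) [(nat_lit 424710), (nat_lit 1475303), (nat_lit 0), (nat_lit 0)]) (PF.cons (PF.leaf (nat_lit 3993385) (nat_lit 438095) (nat_lit 57205397) (nat_lit 3010769) [(nat_lit 438095), (nat_lit 1504113), (nat_lit 0), (nat_lit 0)]) (PF.cons (PF.leaf (nat_lit 4326140) (nat_lit 450691) (nat_lit 56581807) (nat_lit 3048896) [(nat_lit 450691), (nat_lit 1531508), (nat_lit 0), (nat_lit 0)]) (PF.cons PF.nil PF.nil))))) (PF.cons (PF.cons (PF.leaf (nat_lit 4195470) (nat_lit 1529482) (nat_lit 56411589) (nat_lit 3049811) [(nat_lit 0), (nat_lit 1529482), (nat_lit 0), (nat_lit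 0)]) (PF.cons (PF.leaf (nat_lit 4524084) (nat_lit 457906) (nat_lit 55793529) (nat_lit 3084137) [(nat_lit 457906), (nat_lit 1554647), (nat_lit 0), (nat_lit 0)]) (PF.cons (PF.leaf (nat_lit 4863408) (nat_lit 469231)
 (nat_lit 55161818) (nat_lit 3116341) [(nat_lit 469231), (nat_lit 1578437), (nat_lit 0), (nat_lit 0)]) (PF.cons PF.nil PF.nil)))) (PF.cons (PF.cons (PF.leaf (nat_lit 5055688) (nat_lit 1597513) (nat_lit 54379227) (nat_lit 3144504) [(nat_lit 0), (nat_lit 1597513), (nat_lit 0), (nat_lit 0)]) (PF.cons PF.nil PF.nil)) (PF.cons PF.nil (PF.cons PF.nil PF.nil))))))))) (PF.cons (PF.cons (PF.cons (PF.leaf (nat_lit 1846548) (nat_lit 2618199) (nat_lit 61384545) (nat_lit 2618199) [(nat_lit 0), (nat_lit 0), (nat_lit 3106068), (nat_lit 0)]) (PF.cons (PF.leaf (nat_lit 2062167) (nat_lit 324041) (nat_lit 60959169) (nat_lit 2667591) [(nat_lit 324041), (nat_lit 0), (nat_lit 3158011), (nat_lit 0)]) (PF.cons (PF.leaf (nat_lit 2302164) (nat_lit 343681) (nat_lit 60492022) (nat_lit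 2718142) [(nat_lit 343681), (nat_lit 0), (nat_lit 3211284), (nat_lit 0)]) (PF.cons (PF.leaf (nat_lit 2562569) (nat_lit 361952) (nat_lit 59989680) (nat_lit 2768669) [(nat_lit 361952), (nat_lit 0), (nat_lit 3264606), (nat_lit 0)]) (PF.cons (PF.leaf (nat_lit 2840998) (nat_lit 379068) (nat_lit 59457106) (nat_lit 2818354) [(nat_lit 379068), (nat_lit 0), (nat_lit 3317079), (nat_lit 0)]) (PF.cons (PF.leaf (nat_lit 3135587) (nat_lit
 395161) (nat_lit 58898333) (nat_lit 2866617) [(nat_lit 395161), (nat_lit 0), (nat_lit 3368055), (nat_lit 0)]) (PF.cons (PF.leaf (nat_lit 3444678) (nat_lit 410317) (nat_lit 58316805) (nat_lit 2913039) [(nat_lit 410317), (nat_lit 0), (nat_lit 3417064), (nat_lit 0)]) (PF.cons (PF.leaf (nat_lit 3766775) (nat_lit 424595) (nat_lit 57715555) (nat_lit 2957321) [(nat_lit 424595), (nat_lit 0), (nat_lit 3463763), (nat_lit 0)]) (PF.cons PF.nil (PF.cons PF.nil PF.nil)))))))))) (PF.cons (PF.cons (PF.leaf (nat_lit 2514219) (nat_lit 1334704) (nat_lit 59709736)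 (nat_lit 2783154) [(nat_lit 0), (nat_lit 1334704), (nat_lit 3281218), (nat_lit 0)]) (PF.cons (PF.leaf (nat_lit 2770686) (nat_lit 372830) (nat_lit 59209787) (nat_lit 2828625) [(nat_lit 372830), (nat_lit 1368472), (nat_lit 3329097), (nat_lit 0)]) (PF.cons (PF.leaf (nat_lit 3046638) (nat_lit 389455) (nat_lit 58678338) (nat_lit 2873579) [(nat_lit 389455), (nat_lit 1401541), (nat_lit 3376441), (nat_lit 0)]) (PF.cons (PF.leaf (nat_lit 3339049) (nat_lit 405003) (nat_lit 58120336) (nat_lit 2917364) [(nat_lit 405003), (nat_lit 1433563), (nat_lit 3422537), (nat_lit 0)]) (PF.cons (PF.leaf (nat_lit 3646011) (nat_lit 419585) (nat_lit 57539747) (nat_lit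
 2959526) [(nat_lit 419585), (nat_lit 1464316), (nat_lit 3466880), (nat_lit 0)]) (PF.cons (PF.leaf (nat_lit 3965868) (nat_lit 433278) (nat_lit 56939915) (nat_lit 2999741) [(nat_lit 433278), (nat_lit 1493651), (nat_lit 3509111), (nat_lit 0)]) (PF.cons (PF.leaf (nat_lit 4297217) (nat_lit 446136) (nat_lit 56323753) (nat_lit 3037788) [(nat_lit 446136), (nat_lit 1521474), (nat_lit 3548977), (nat_lit 0)]) (PF.cons PF.nil (PF.cons PF.nil PF.nil))))))))) (PF.cons (PF.cons (PF.leaf (nat_lit 3254595) (nat_lit 1434222) (nat_lit 57885367) (nat_lit 2924261) [(nat_lit 0), (nat_lit 1434222), (nat_lit 3430738), (nat_lit 0)]) (PF.cons (PF.leaf (nat_lit 3542819) (nat_lit 413814) (nat_lit 57332027) (nat_lit 2963714) [(nat_lit 413814), (nat_lit 1463574), (nat_lit 3472107), (nat_lit 0)]) (PF.cons (PF.leaf (nat_lit 3846536) (nat_lit 427914) (nat_lit 56755528) (nat_lit 3001788) [(nat_lit 427914), (nat_lit 1491846), (nat_lit 3511974), (nat_lit 0)]) (PF.cons (PF.leaf (nat_lit 4163285) (nat_lit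 441094) (nat_lit 56159745) (nat_lit 3038128) [(nat_lit 441094), (nat_lit 1518854), (nat_lit 3549947), (nat_lit 0)]) (PF.cons (PF.leaf (nat_lit 4491497) (nat_lit 453425) (nat_lit 55547904) (nat_lit 3072489) [(nat_lit
 453425), (nat_lit 1544482), (nat_lit 3585752), (nat_lit 0)]) (PF.cons PF.nil (PF.cons PF.nil PF.nil))))))) (PF.cons (PF.cons (PF.leaf (nat_lit 4047366) (nat_lit 1517138) (nat_lit 55964655) (nat_lit 3040099) [(nat_lit 0), (nat_lit 1517138), (nat_lit 3552643), (nat_lit 0)]) (PF.cons (PF.leaf (nat_lit 4359528) (nat_lit 448056) (nat_lit 55375736) (nat_lit 3072734) [(nat_lit 448056), (nat_lit 1541913), (nat_lit 3586546), (nat_lit 0)]) (PF.cons (PF.leaf (nat_lit 4683810) (nat_lit 459929) (nat_lit 54770532) (nat_lit 3103590) [(nat_lit 459929), (nat_lit 1565445), (nat_lit 3618494), (nat_lit 0)]) (PF.cons (PF.leaf (nat_lit 5018167) (nat_lit 470992) (nat_lit 54152132) (nat_lit 3132484) [(nat_lit 470992), (nat_lit 1587644), (nat_lit 3648284), (nat_lit 0)]) (PF.cons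 PF.nil PF.nil))))) (PF.cons (PF.cons (PF.leaf (nat_lit 4875083) (nat_lit 1584493) (nat_lit 53992077) (nat_lit 3131314) [(nat_lit 0), (nat_lit 1584493), (nat_lit 3647448), (nat_lit 0)]) (PF.cons (PF.leaf (nat_lit 5204460) (nat_lit 476312) (nat_lit 53382435) (nat_lit 3157059) [(nat_lit 476312), (nat_lit 1604808), (nat_lit 3673770), (nat_lit 0)]) (PF.cons (PF.leaf (nat_lit 5543081) (nat_lit 486196) (nat_lit 52762144) (nat_lit
 3180895) [(nat_lit 486196), (nat_lit 1623848), (nat_lit 3697987), (nat_lit 0)]) (PF.cons PF.nil PF.nil)))) (PF.cons (PF.cons (PF.leaf (nat_lit 5723005) (nat_lit 1637616) (nat_lit 52004081) (nat_lit 3199647) [(nat_lit 0), (nat_lit 1637616), (nat_lit 3717001), (nat_lit 0)]) (PF.cons PF.nil PF.nil)) (PF.cons PF.nil (PF.cons PF.nil PF.nil)))))))) (PF.cons (PF.cons (PF.cons (PF.leaf (nat_lit 3163064) (nat_lit 2920998) (nat_lit 57328192) (nat_lit 2920998) [(nat_lit 0), (nat_lit 0), (nat_lit 3429811), (nat_lit 0)]) (PF.cons (PF.leaf (nat_lit 3429395) (nat_lit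 400407) (nat_lit 56815916) (nat_lit 2957378) [(nat_lit 400407), (nat_lit 0), (nat_lit 3467555), (nat_lit 0)]) (PF.cons (PF.leaf (nat_lit 3713783) (nat_lit 415731) (nat_lit 56275285) (nat_lit 2993026) [(nat_lit 415731), (nat_lit 0), (nat_lit 3504518), (nat_lit 0)]) (PF.cons (PF.leaf (nat_lit 4013103) (nat_lit 429867) (nat_lit 55711485) (nat_lit 3027432) [(nat_lit 429867), (nat_lit 0), (nat_lit 3540145), (nat_lit 0)]) (PF.cons (PF.leaf (nat_lit 4325370) (nat_lit 442970) (nat_lit 55128582) (nat_lit 3060247) [(nat_lit 442970), (nat_lit 0), (nat_lit 3574051), (nat_lit 0)]) (PF.cons (PF.leaf (nat_lit 4648931) (nat_lit 455144) (nat_lit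
 54529920) (nat_lit 3091231) [(nat_lit 455144), (nat_lit 0), (nat_lit 3605970), (nat_lit 0)]) (PF.cons PF.nil (PF.cons PF.nil (PF.cons PF.nil PF.nil))))))))) (PF.cons (PF.cons (PF.leaf (nat_lit 3914862) (nat_lit 1503793) (nat_lit 55485826) (nat_lit 3030701) [(nat_lit 0), (nat_lit 1503793), (nat_lit 3544245), (nat_lit 0)]) (PF.cons (PF.leaf (nat_lit 4208732) (nat_lit 436521) (nat_lit 54930771) (nat_lit 3061464) [(nat_lit 436521), (nat_lit 1528234), (nat_lit 3575910), (nat_lit 0)]) (PF.cons (PF.leaf (nat_lit 4516572) (nat_lit 449243) (nat_lit 54355744) (nat_lit 3090852) [(nat_lit 449243), (nat_lit 1551578), (nat_lit 3606076), (nat_lit 0)]) (PF.cons (PF.leaf (nat_lit 4836002) (nat_lit 461001) (nat_lit 53764625) (nat_lit 3118595) [(nat_lit 461001), (nat_lit 1573692), (nat_lit 3634447), (nat_lit 0)]) (PF.cons (PF.leaf (nat_lit 5165386) (nat_lit 471891) (nat_lit 53160576) (nat_lit 3144515) [(nat_lit 471891), (nat_lit 1594500), (nat_lit 3660826), (nat_lit 0)]) (PF.cons PF.nil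 (PF.cons PF.nil PF.nil))))))) (PF.cons (PF.cons (PF.leaf (nat_lit 4707868) (nat_lit 1570685) (nat_lit 53580391) (nat_lit 3118180) [(nat_lit 0), (nat_lit 1570685), (nat_lit 3634434), (nat_lit 0)]) (PF.cons (PF.leaf
 (nat_lit 5021796) (nat_lit 466109) (nat_lit 52999194) (nat_lit 3142837) [(nat_lit 466109), (nat_lit 1590904), (nat_lit 3659431), (nat_lit 0)]) (PF.cons (PF.leaf (nat_lit 5346464) (nat_lit 476633) (nat_lit 52404582) (nat_lit 3165846) [(nat_lit 476633), (nat_lit 1609938), (nat_lit 3682620), (nat_lit 0)]) (PF.cons (PF.leaf (nat_lit 5679879) (nat_lit 486342) (nat_lit 51799534) (nat_lit 3187076) [(nat_lit 486342), (nat_lit 1627728), (nat_lit 3703859), (nat_lit 0)]) (PF.cons PF.nil PF.nil))))) (PF.cons (PF.cons (PF.leaf (nat_lit 5526489) (nat_lit 1623779) (nat_lit 51650475) (nat_lit 3184396) [(nat_lit 0), (nat_lit 1623779), (nat_lit 3701301), (nat_lit 0)]) (PF.cons (PF.leaf (nat_lit 5854330) (nat_lit 490082) (nat_lit 51056365) (nat_lit 3203026) [(nat_lit 490082),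 (nat_lit 1639985), (nat_lit 3719691), (nat_lit 0)]) (PF.cons PF.nil (PF.cons PF.nil PF.nil)))) (PF.cons (PF.cons (PF.leaf (nat_lit 6357969) (nat_lit 1664440) (nat_lit 49726439) (nat_lit 3231120) [(nat_lit 0), (nat_lit 1664440), (nat_lit 3746746), (nat_lit 0)]) (PF.cons PF.nil PF.nil)) (PF.cons PF.nil PF.nil)))))) (PF.cons (PF.cons (PF.cons (PF.leaf (nat_lit 4556481) (nat_lit 3105142) (nat_lit 53138595) (nat_lit 3105142)
 [(nat_lit 0), (nat_lit 0), (nat_lit 3621691), (nat_lit 0)]) (PF.cons (PF.leaf (nat_lit 4853031) (nat_lit 454234) (nat_lit 52590382) (nat_lit 3128578) [(nat_lit 454234), (nat_lit 0), (nat_lit 3645205), (nat_lit 0)]) (PF.cons (PF.leaf (nat_lit 5162266) (nat_lit 465702) (nat_lit 52024957) (nat_lit 3150673) [(nat_lit 465702), (nat_lit 0), (nat_lit 3667258), (nat_lit 0)]) (PF.cons (PF.leaf (nat_lit 5481808) (nat_lit 476185) (nat_lit 51446119) (nat_lit 3171230) [(nat_lit 476185), (nat_lit 0), (nat_lit 3687635), (nat_lit 0)]) (PF.cons (PF.leaf (nat_lit 5810057)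 (nat_lit 485796) (nat_lit 50856910) (nat_lit 3190121) [(nat_lit 485796), (nat_lit 0), (nat_lit 3706198), (nat_lit 0)]) (PF.cons PF.nil (PF.cons PF.nil PF.nil))))))) (PF.cons (PF.cons (PF.leaf (nat_lit 5343376) (nat_lit 1609135) (nat_lit 51273771) (nat_lit 3169050) [(nat_lit 0), (nat_lit 1609135), (nat_lit 3685618), (nat_lit 0)]) (PF.cons (PF.leaf (nat_lit 5656799) (nat_lit 479738) (nat_lit 50706916) (nat_lit 3187050) [(nat_lit 479738), (nat_lit 1625462), (nat_lit 3703214), (nat_lit 0)]) (PF.cons (PF.leaf (nat_lit 5979762) (nat_lit 489065) (nat_lit 50129008) (nat_lit 3203536) [(nat_lit 489065), (nat_lit 1640671), (nat_lit 3719155),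
 (nat_lit 0)]) (PF.cons PF.nil (PF.cons PF.nil PF.nil))))) (PF.cons (PF.cons (PF.leaf (nat_lit 6148533) (nat_lit 1650232) (nat_lit 49405011) (nat_lit 3214664) [(nat_lit 0), (nat_lit 1650232), (nat_lit 3729557), (nat_lit 0)]) (PF.cons (PF.leaf (nat_lit 6473191) (nat_lit 500010) (nat_lit 48831192) (nat_lit 3227414) [(nat_lit 500010), (nat_lit 1662964), (nat_lit 3741422), (nat_lit 0)]) (PF.cons PF.nil (PF.cons PF.nil PF.nil)))) (PF.cons (PF.cons (PF.leaf (nat_lit 6960889) (nat_lit 1680500) (nat_lit 47557402) (nat_lit 3243729) [(nat_lit 0), (nat_lit 1680500), (nat_lit 3755392), (nat_lit 0)]) (PF.cons PF.nil PF.nil)) (PF.cons PF.nil PF.nil))))) (PF.cons (PF.cons (PF.cons (PF.leaf (nat_lit 5952369) (nat_lit 3197989) (nat_lit 49061895) (nat_lit 3197989) [(nat_lit 0), (nat_lit 0), (nat_lit 3712231), (nat_lit 0)]) (PF.cons (PF.leaf (nat_lit 6263563) (nat_lit 489679) (nat_lit 48513856) (nat_lit 3210455) [(nat_lit 489679), (nat_lit 0), (nat_lit 3723705), (nat_lit 0)]) (PF.cons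 (PF.leaf (nat_lit 6583322) (nat_lit 497949) (nat_lit 47956686) (nat_lit 3221539) [(nat_lit 497949), (nat_lit 0), (nat_lit 3733672), (nat_lit 0)]) (PF.cons PF.nil PF.nil)))) (PF.cons (PF.cons (PF.leaf (nat_lit 6741107)
 (nat_lit 1666241) (nat_lit 47266154) (nat_lit 3226685) [(nat_lit 0), (nat_lit 1666241), (nat_lit 3737432), (nat_lit 0)]) (PF.cons (PF.leaf (nat_lit 7061389) (nat_lit 506765) (nat_lit 46715593) (nat_lit 3234593) [(nat_lit 506765), (nat_lit 1676047), (nat_lit 3743953), (nat_lit 0)]) PF.nil)) (PF.cons PF.nil PF.nil))) (PF.cons (PF.cons (PF.cons (PF.leaf (nat_lit 7304851) (nat_lit 3224187) (nat_lit 45238756) (nat_lit 3224187) [(nat_lit 0), (nat_lit 0), (nat_lit 3729173), (nat_lit 0)]) (PF.cons PF.nil PF.nil)) (PF.cons PF.nil PF.nil)) (PF.cons PF.nil (PF.cons PF.nil PF.nil)))))))) (PF.cons (PF.cons (PF.cons (PF.cons (PF.leaf (nat_lit 3035512) (nat_lit 2832941) (nat_lit 54769251) (nat_lit 2832941) [(nat_lit 0), (nat_lit 0), (nat_lit 0), (nat_lit 9506619)])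 (PF.cons (PF.leaf (nat_lit 3258350) (nat_lit 359179) (nat_lit 54359715) (nat_lit 2866709) [(nat_lit 359179), (nat_lit 0), (nat_lit 0), (nat_lit 9523208)]) (PF.cons (PF.leaf (nat_lit 3503583) (nat_lit 377592) (nat_lit 53914291) (nat_lit 2900635) [(nat_lit 377592), (nat_lit 0), (nat_lit 0), (nat_lit 9538700)]) (PF.cons (PF.leaf (nat_lit 3766885) (nat_lit 394206) (nat_lit 53439888) (nat_lit 2933921) [(nat_lit 394206), (nat_lit 0),
 (nat_lit 0), (nat_lit 9552384)]) (PF.cons (PF.leaf (nat_lit 4045687) (nat_lit 409349) (nat_lit 52941627) (nat_lit 2966046) [(nat_lit 409349), (nat_lit 0), (nat_lit 0), (nat_lit 9563742)]) (PF.cons (PF.leaf (nat_lit 4338005) (nat_lit 423240) (nat_lit 52423555) (nat_lit 2996663) [(nat_lit 423240), (nat_lit 0), (nat_lit 0), (nat_lit 9572391)]) (PF.cons (PF.leaf (nat_lit 4642079) (nat_lit 436033) (nat_lit 51889011) (nat_lit 3025543) [(nat_lit 436033), (nat_lit 0), (nat_lit 0), (nat_lit 9578054)]) (PF.cons (PF.leaf (nat_lit 4956436) (nat_lit 447844)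 (nat_lit 51340829) (nat_lit 3052536) [(nat_lit 447844), (nat_lit 0), (nat_lit 0), (nat_lit 9580539)]) (PF.cons (PF.leaf (nat_lit 5279777) (nat_lit 458759) (nat_lit 50781468) (nat_lit 3077550) [(nat_lit 458759), (nat_lit 0), (nat_lit 0), (nat_lit 9579719)]) (PF.cons (PF.leaf (nat_lit 5610956) (nat_lit 468851) (nat_lit 50213090) (nat_lit 3100535) [(nat_lit 468851), (nat_lit 0), (nat_lit 0), (nat_lit 9575527)]) (PF.cons PF.nil (PF.cons PF.nil PF.nil)))))))))))) (PF.cons (PF.cons (PF.leaf (nat_lit 3698807) (nat_lit 1431531) (nat_lit 53186128) (nat_lit 2939127) [(nat_lit 0), (nat_lit 1431531), (nat_lit 0), (nat_lit 9552025)]) (PF.cons (PF.leaf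
 (nat_lit 3955941) (nat_lit 401329) (nat_lit 52720144) (nat_lit 2968597) [(nat_lit 401329), (nat_lit 1457390), (nat_lit 0), (nat_lit 9561350)]) (PF.cons (PF.leaf (nat_lit 4230162) (nat_lit 416067) (nat_lit 52228859) (nat_lit 2997202) [(nat_lit 416067), (nat_lit 1482204), (nat_lit 0), (nat_lit 9568410)]) (PF.cons (PF.leaf (nat_lit 4518383) (nat_lit 429513) (nat_lit 51717124) (nat_lit 3024537) [(nat_lit 429513), (nat_lit 1505774), (nat_lit 0), (nat_lit 9572837)]) (PF.cons (PF.leaf (nat_lit 4818610) (nat_lit 441844) (nat_lit 51188731) (nat_lit 3050338) [(nat_lit 441844), (nat_lit 1527993), (nat_lit 0), (nat_lit 9574372)]) (PF.cons (PF.leaf (nat_lit 5129280) (nat_lit 453190) (nat_lit 50646775) (nat_lit 3074434) [(nat_lit 453190), (nat_lit 1548811), (nat_lit 0), (nat_lit 9572841)]) (PF.cons (PF.leaf (nat_lit 5448939) (nat_lit 463646) (nat_lit 50093865) (nat_lit 3096716) [(nat_lit 463646), (nat_lit 1568211), (nat_lit 0), (nat_lit 9568138)]) (PF.cons (PF.leaf (nat_lit 5776385)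 (nat_lit 473290) (nat_lit 49532246) (nat_lit 3117125) [(nat_lit 473290), (nat_lit 1586197), (nat_lit 0), (nat_lit 9560207)]) (PF.cons PF.nil (PF.cons PF.nil PF.nil)))))))))) (PF.cons (PF.cons (PF.leaf (nat_lit
 4416214) (nat_lit 1502881) (nat_lit 51510385) (nat_lit 3025107) [(nat_lit 0), (nat_lit 1502881), (nat_lit 0), (nat_lit 9567557)]) (PF.cons (PF.leaf (nat_lit 4698661) (nat_lit 434915) (nat_lit 51007893) (nat_lit 3049325) [(nat_lit 434915), (nat_lit 1524321), (nat_lit 0), (nat_lit 9568035)]) (PF.cons (PF.leaf (nat_lit 4994208) (nat_lit 446885) (nat_lit 50487901) (nat_lit 3072219) [(nat_lit 446885), (nat_lit 1544601), (nat_lit 0), (nat_lit 9565719)]) (PF.cons (PF.leaf (nat_lit 5300488) (nat_lit 457845) (nat_lit 49953970) (nat_lit 3093587) [(nat_lit 457845), (nat_lit 1563632), (nat_lit 0), (nat_lit 9560453)]) (PF.cons (PF.leaf (nat_lit 5615979) (nat_lit 467908) (nat_lit 49408982) (nat_lit 3113305) [(nat_lit 467908), (nat_lit 1581374), (nat_lit 0), (nat_lit 9552144)])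 (PF.cons (PF.leaf (nat_lit 5939328) (nat_lit 477158) (nat_lit 48855344) (nat_lit 3131298) [(nat_lit 477158), (nat_lit 1597814), (nat_lit 0), (nat_lit 9540750)]) (PF.cons (PF.leaf (nat_lit 6269392) (nat_lit 485663) (nat_lit 48295108) (nat_lit 3147530) [(nat_lit 485663), (nat_lit 1612961), (nat_lit 0), (nat_lit 9526270)]) (PF.cons PF.nil (PF.cons PF.nil PF.nil))))))))) (PF.cons (PF.cons (PF.leaf (nat_lit 5169979) (nat_lit
 1559568) (nat_lit 49786425) (nat_lit 3091382) [(nat_lit 0), (nat_lit 1559568), (nat_lit 0), (nat_lit 9552298)]) (PF.cons (PF.leaf (nat_lit 5470672) (nat_lit 461818) (nat_lit 49262498) (nat_lit 3110177) [(nat_lit 461818), (nat_lit 1576908), (nat_lit 0), (nat_lit 9543591)]) (PF.cons (PF.leaf (nat_lit 5781359) (nat_lit 471556) (nat_lit 48726994) (nat_lit 3127483) [(nat_lit 471556), (nat_lit 1593086), (nat_lit 0), (nat_lit 9531963)]) (PF.cons (PF.leaf (nat_lit 6100139) (nat_lit 480469) (nat_lit 48182594) (nat_lit 3143209) [(nat_lit 480469), (nat_lit 1608071),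 (nat_lit 0), (nat_lit 9517384)]) (PF.cons (PF.leaf (nat_lit 6425766) (nat_lit 488635) (nat_lit 47631521) (nat_lit 3157308) [(nat_lit 488635), (nat_lit 1621859), (nat_lit 0), (nat_lit 9499863)]) (PF.cons PF.nil (PF.cons PF.nil PF.nil))))))) (PF.cons (PF.cons (PF.leaf (nat_lit 5946021) (nat_lit 1603445) (nat_lit 48047829) (nat_lit 3139403) [(nat_lit 0), (nat_lit 1603445), (nat_lit 0), (nat_lit 9507796)]) (PF.cons (PF.leaf (nat_lit 6259287) (nat_lit 483234) (nat_lit 47514026) (nat_lit 3153000) [(nat_lit 483234), (nat_lit 1617058), (nat_lit 0), (nat_lit 9490316)]) (PF.cons (PF.leaf (nat_lit 6580056) (nat_lit 491111) (nat_lit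
 46973192) (nat_lit 3165101) [(nat_lit 491111), (nat_lit 1629567), (nat_lit 0), (nat_lit 9470026)]) (PF.cons (PF.leaf (nat_lit 6906762) (nat_lit 498297) (nat_lit 46427375) (nat_lit 3175677) [(nat_lit 498297), (nat_lit 1640973), (nat_lit 0), (nat_lit 9446972)]) (PF.cons PF.nil PF.nil))))) (PF.cons (PF.cons (PF.leaf (nat_lit 6733083) (nat_lit 1636159) (nat_lit 46320034) (nat_lit 3171033) [(nat_lit 0), (nat_lit 1636159), (nat_lit 0), (nat_lit 9436946)]) (PF.cons (PF.leaf (nat_lit 7054361) (nat_lit 500038) (nat_lit 45785193) (nat_lit 3179854) [(nat_lit 500038), (nat_lit 1646441), (nat_lit 0), (nat_lit 9411520)]) (PF.cons PF.nil (PF.cons PF.nil PF.nil)))) (PF.cons (PF.cons (PF.leaf (nat_lit 7522230) (nat_lit 1659208) (nat_lit 44622036) (nat_lit 3188265) [(nat_lit 0), (nat_lit 1659208), (nat_lit 0), (nat_lit 9343260)]) (PF.cons PF.nil PF.nil)) (PF.cons PF.nil PF.nil)))))))) (PF.cons (PF.cons (PF.cons (PF.leaf (nat_lit 4293491) (nat_lit 3010540) (nat_lit 51037193) (nat_lit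 3010540) [(nat_lit 0), (nat_lit 0), (nat_lit 3520759), (nat_lit 9540318)]) (PF.cons (PF.leaf (nat_lit 4555563) (nat_lit 419664) (nat_lit 50573234) (nat_lit 3033459) [(nat_lit 419664), (nat_lit 0), (nat_lit 3543174),
 (nat_lit 9539279)]) (PF.cons (PF.leaf (nat_lit 4833473) (nat_lit 433189) (nat_lit 50086589) (nat_lit 3055448) [(nat_lit 433189), (nat_lit 0), (nat_lit 3564616), (nat_lit 9535778)]) (PF.cons (PF.leaf (nat_lit 5124178) (nat_lit 445384) (nat_lit 49582089) (nat_lit 3076199) [(nat_lit 445384), (nat_lit 0), (nat_lit 3584758), (nat_lit 9529612)]) (PF.cons (PF.leaf (nat_lit 5425666) (nat_lit 456453) (nat_lit 49063442) (nat_lit 3095516) [(nat_lit 456453), (nat_lit 0), (nat_lit 3603386), (nat_lit 9520653)]) (PF.cons (PF.leaf (nat_lit 5736356) (nat_lit 466544) (nat_lit 48533624) (nat_lit 3113274) [(nat_lit 466544), (nat_lit 0), (nat_lit 3620362), (nat_lit 9508827)]) (PF.cons (PF.leaf (nat_lit 6054925) (nat_lit 475765) (nat_lit 47995102) (nat_lit 3129403) [(nat_lit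 475765), (nat_lit 0), (nat_lit 3635605), (nat_lit 9494109)]) (PF.cons (PF.leaf (nat_lit 6380168) (nat_lit 484200) (nat_lit 47449963) (nat_lit 3143868) [(nat_lit 484200), (nat_lit 0), (nat_lit 3649073), (nat_lit 9476504)]) (PF.cons PF.nil (PF.cons PF.nil PF.nil)))))))))) (PF.cons (PF.cons (PF.leaf (nat_lit 5011627) (nat_lit 1542376) (nat_lit 49387520) (nat_lit 3074700) [(nat_lit 0), (nat_lit 1542376), (nat_lit 3583472), (nat_lit
 9520742)]) (PF.cons (PF.leaf (nat_lit 5295843) (nat_lit 449189) (nat_lit 48894355) (nat_lit 3092875) [(nat_lit 449189), (nat_lit 1560068), (nat_lit 3600888), (nat_lit 9511435)]) (PF.cons (PF.leaf (nat_lit 5592030) (nat_lit 459997) (nat_lit 48386001) (nat_lit 3109790) [(nat_lit 459997), (nat_lit 1576649), (nat_lit 3616961), (nat_lit 9499415)]) (PF.cons (PF.leaf (nat_lit 5897835) (nat_lit 469794) (nat_lit 47865906) (nat_lit 3125299) [(nat_lit 469794), (nat_lit 1592062), (nat_lit 3631532), (nat_lit 9484628)]) (PF.cons (PF.leaf (nat_lit 6211757)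 (nat_lit 478705) (nat_lit 47336816) (nat_lit 3139315) [(nat_lit 478705), (nat_lit 1606288), (nat_lit 3644508), (nat_lit 9467062)]) (PF.cons (PF.leaf (nat_lit 6532524) (nat_lit 486825) (nat_lit 46800985) (nat_lit 3151793) [(nat_lit 486825), (nat_lit 1619330), (nat_lit 3655837), (nat_lit 9446736)]) (PF.cons PF.nil (PF.cons PF.nil (PF.cons PF.nil PF.nil))))))))) (PF.cons (PF.cons (PF.leaf (nat_lit 5758599) (nat_lit 1587348) (nat_lit 47709981) (nat_lit 3121828) [(nat_lit 0), (nat_lit 1587348), (nat_lit 3628070), (nat_lit 9474234)]) (PF.cons (PF.leaf (nat_lit 6058350) (nat_lit 472447) (nat_lit 47201290) (nat_lit 3135221) [(nat_lit 472447), (nat_lit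
 1601347), (nat_lit 3640384), (nat_lit 9456773)]) (PF.cons (PF.leaf (nat_lit 6367083) (nat_lit 481113) (nat_lit 46682925) (nat_lit 3147255) [(nat_lit 481113), (nat_lit 1614267), (nat_lit 3651237), (nat_lit 9436630)]) (PF.cons (PF.leaf (nat_lit 6682964) (nat_lit 488972) (nat_lit 46157423) (nat_lit 3157872) [(nat_lit 488972), (nat_lit 1626096), (nat_lit 3660568), (nat_lit 9413838)]) (PF.cons (PF.leaf (nat_lit 7004791) (nat_lit 496108) (nat_lit 45626852) (nat_lit 3167047) [(nat_lit 496108), (nat_lit 1636839), (nat_lit 3668348), (nat_lit 9388451)]) (PF.cons PF.nil (PF.cons PF.nil PF.nil))))))) (PF.cons (PF.cons (PF.leaf (nat_lit 6521843) (nat_lit 1621127) (nat_lit 46033189) (nat_lit 3153343) [(nat_lit 0), (nat_lit 1621127), (nat_lit 3655923), (nat_lit 9402974)]) (PF.cons (PF.leaf (nat_lit 6831941) (nat_lit 490644) (nat_lit 45519143) (nat_lit 3162219) [(nat_lit 490644), (nat_lit 1631812), (nat_lit 3663389), (nat_lit 9377977)]) (PF.cons (PF.leaf (nat_lit 7148692) (nat_lit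 497558) (nat_lit 44999548) (nat_lit 3169762) [(nat_lit 497558), (nat_lit 1641492), (nat_lit 3669416), (nat_lit 9350490)]) (PF.cons PF.nil (PF.cons PF.nil PF.nil))))) (PF.cons (PF.cons (PF.leaf (nat_lit 7291542) (nat_lit
 1645225) (nat_lit 44378185) (nat_lit 3170959) [(nat_lit 0), (nat_lit 1645225), (nat_lit 3668810), (nat_lit 9309957)]) (PF.cons (PF.leaf (nat_lit 7607886) (nat_lit 504646) (nat_lit 43866358) (nat_lit 3175732) [(nat_lit 504646), (nat_lit 1652978), (nat_lit 3671860), (nat_lit 9278301)]) (PF.cons PF.nil (PF.cons PF.nil PF.nil)))) (PF.cons (PF.cons (PF.leaf (nat_lit 8060031) (nat_lit 1660997) (nat_lit 42760240) (nat_lit 3176463) [(nat_lit 0), (nat_lit 1660997), (nat_lit 3668641), (nat_lit 9198482)]) (PF.cons PF.nil PF.nil)) PF.nil)))))) (PF.cons (PF.cons (PF.cons (PF.leaf (nat_lit 5587056) (nat_lit 3103962) (nat_lit 47345965) (nat_lit 3103962) [(nat_lit 0), (nat_lit 0), (nat_lit 3609765), (nat_lit 9439352)]) (PF.cons (PF.leaf (nat_lit 5871269) (nat_lit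 459951) (nat_lit 46866356) (nat_lit 3117087) [(nat_lit 459951), (nat_lit 0), (nat_lit 3621682), (nat_lit 9422051)]) (PF.cons (PF.leaf (nat_lit 6166445) (nat_lit 469722) (nat_lit 46373524) (nat_lit 3129022) [(nat_lit 469722), (nat_lit 0), (nat_lit 3632327), (nat_lit 9402167)]) (PF.cons (PF.leaf (nat_lit 6470294) (nat_lit 478489) (nat_lit 45870767) (nat_lit 3139665) [(nat_lit 478489), (nat_lit 0), (nat_lit 3641592), (nat_lit 9379727)])
 (PF.cons (PF.leaf (nat_lit 6781345) (nat_lit 486389) (nat_lit 45360680) (nat_lit 3148960) [(nat_lit 486389), (nat_lit 0), (nat_lit 3649418), (nat_lit 9354777)]) (PF.cons (PF.leaf (nat_lit 7098377) (nat_lit 493524) (nat_lit 44845365) (nat_lit 3156884) [(nat_lit 493524), (nat_lit 0), (nat_lit 3655779), (nat_lit 9327381)]) (PF.cons PF.nil PF.nil))))))) (PF.cons (PF.cons (PF.leaf (nat_lit 6323805) (nat_lit 1605164) (nat_lit 45726338) (nat_lit 3135292) [(nat_lit 0), (nat_lit 1605164), (nat_lit 3637103), (nat_lit 9367809)]) (PF.cons (PF.leaf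 (nat_lit 6621302) (nat_lit 480046) (nat_lit 45235812) (nat_lit 3144202) [(nat_lit 480046), (nat_lit 1616332), (nat_lit 3644530), (nat_lit 9343358)]) (PF.cons (PF.leaf (nat_lit 6926914) (nat_lit 487770) (nat_lit 44737167) (nat_lit 3151875) [(nat_lit 487770), (nat_lit 1626500), (nat_lit 3650629), (nat_lit 9316468)]) (PF.cons (PF.leaf (nat_lit 7238864) (nat_lit 494708) (nat_lit 44232786) (nat_lit 3158280) [(nat_lit 494708), (nat_lit 1635669), (nat_lit 3655367), (nat_lit 9287217)]) (PF.cons PF.nil PF.nil))))) (PF.cons (PF.cons (PF.leaf (nat_lit 7072084) (nat_lit 1630500) (nat_lit 44118632) (nat_lit 3153271) [(nat_lit 0), (nat_lit 1630500), (nat_lit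
 3650167), (nat_lit 9275573)]) (PF.cons (PF.leaf (nat_lit 7378106) (nat_lit 495477) (nat_lit 43626132) (nat_lit 3158260) [(nat_lit 495477), (nat_lit 1638720), (nat_lit 3653398), (nat_lit 9244705)]) (PF.cons (PF.leaf (nat_lit 7690056) (nat_lit 501553) (nat_lit 43129249) (nat_lit 3162060) [(nat_lit 501553), (nat_lit 1646024), (nat_lit 3655352), (nat_lit 9211640)]) (PF.cons PF.nil PF.nil)))) (PF.cons (PF.cons (PF.leaf (nat_lit 7823279) (nat_lit 1647433) (nat_lit 42540248) (nat_lit 3159476) [(nat_lit 0), (nat_lit 1647433), (nat_lit 3650608), (nat_lit 9165571)]) (PF.cons (PF.leaf (nat_lit 8134122) (nat_lit 507090) (nat_lit 42052276) (nat_lit 3160941) [(nat_lit 507090), (nat_lit 1653070), (nat_lit 3650064), (nat_lit 9129163)]) PF.nil)) (PF.cons PF.nil PF.nil))))) (PF.cons (PF.cons (PF.cons (PF.leaf (nat_lit 6865474) (nat_lit 3135150) (nat_lit 43840373) (nat_lit 3135150) [(nat_lit 0), (nat_lit 0), (nat_lit 3631142), (nat_lit 9239860)]) (PF.cons (PF.leaf (nat_lit 7159725)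 (nat_lit 485133) (nat_lit 43369777) (nat_lit 3140349) [(nat_lit 485133), (nat_lit 0), (nat_lit 3634543), (nat_lit 9209922)]) (PF.cons (PF.leaf (nat_lit 7461366) (nat_lit 492029) (nat_lit 42892328) (nat_lit 3144425)
 [(nat_lit 492029), (nat_lit 0), (nat_lit 3636740), (nat_lit 9177777)]) (PF.cons (PF.leaf (nat_lit 7768651) (nat_lit 498162) (nat_lit 42410256) (nat_lit 3147364) [(nat_lit 498162), (nat_lit 0), (nat_lit 3637721), (nat_lit 9143538)]) (PF.cons PF.nil PF.nil))))) (PF.cons (PF.cons (PF.leaf (nat_lit 7597383) (nat_lit 1633139) (nat_lit 42305592) (nat_lit 3142062) [(nat_lit 0), (nat_lit 1633139), (nat_lit 3632176), (nat_lit 9131488)]) (PF.cons (PF.leaf (nat_lit 7898680) (nat_lit 498187) (nat_lit 41835508) (nat_lit 3143857) [(nat_lit 498187), (nat_lit 1639286), (nat_lit 3631950), (nat_lit 9096121)]) (PF.cons (PF.leaf (nat_lit 8205310) (nat_lit 503536) (nat_lit 41361957) (nat_lit 3144594) [(nat_lit 503536), (nat_lit 1644599), (nat_lit 3630588), (nat_lit 9058821)])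 (PF.cons PF.nil PF.nil)))) (PF.cons (PF.cons (PF.leaf (nat_lit 8329514) (nat_lit 1644126) (nat_lit 40805046) (nat_lit 3139009) [(nat_lit 0), (nat_lit 1644126), (nat_lit 3622580), (nat_lit 9008762)]) (PF.cons PF.nil PF.nil)) PF.nil))) (PF.cons (PF.cons (PF.cons (PF.leaf (nat_lit 8098712) (nat_lit 3122054) (nat_lit 40592955) (nat_lit 3122054) [(nat_lit 0), (nat_lit 0), (nat_lit 3604582), (nat_lit 8975473)]) (PF.cons (PF.leaf
 (nat_lit 8394838) (nat_lit 499154) (nat_lit 40145495) (nat_lit 3121237) [(nat_lit 499154), (nat_lit 0), (nat_lit 3601546), (nat_lit 8936739)]) (PF.cons PF.nil PF.nil))) (PF.cons (PF.cons (PF.leaf (nat_lit 8811613) (nat_lit 1636404) (nat_lit 39169622) (nat_lit 3111527) [(nat_lit 0), (nat_lit 1636404), (nat_lit 3586940), (nat_lit 8843496)]) PF.nil) PF.nil)) (PF.cons PF.nil (PF.cons PF.nil (PF.cons PF.nil PF.nil)))))))) (PF.cons (PF.cons (PF.cons (PF.cons (PF.leaf (nat_lit 5266198) (nat_lit 3003758) (nat_lit 45652115) (nat_lit 3003758) [(nat_lit 0),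 (nat_lit 0), (nat_lit 0), (nat_lit 9226469)]) (PF.cons (PF.leaf (nat_lit 5520101) (nat_lit 425125) (nat_lit 45244260) (nat_lit 3018121) [(nat_lit 425125), (nat_lit 0), (nat_lit 0), (nat_lit 9210652)]) (PF.cons (PF.leaf (nat_lit 5788244) (nat_lit 437218) (nat_lit 44817940) (nat_lit 3031501) [(nat_lit 437218), (nat_lit 0), (nat_lit 0), (nat_lit 9192466)]) (PF.cons (PF.leaf (nat_lit 6067561) (nat_lit 447927) (nat_lit 44377436) (nat_lit 3043717) [(nat_lit 447927), (nat_lit 0), (nat_lit 0), (nat_lit 9171938)]) (PF.cons (PF.leaf (nat_lit 6356173) (nat_lit 457487) (nat_lit 43925991) (nat_lit 3054662) [(nat_lit 457487), (nat_lit 0), (nat_lit 0),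
 (nat_lit 9149105)]) (PF.cons (PF.leaf (nat_lit 6652565) (nat_lit 466065) (nat_lit 43466169) (nat_lit 3064283) [(nat_lit 466065), (nat_lit 0), (nat_lit 0), (nat_lit 9124016)]) (PF.cons (PF.leaf (nat_lit 6955486) (nat_lit 473788) (nat_lit 43000058) (nat_lit 3072558) [(nat_lit 473788), (nat_lit 0), (nat_lit 0), (nat_lit 9096732)]) (PF.cons (PF.leaf (nat_lit 7263870) (nat_lit 480754) (nat_lit 42529399) (nat_lit 3079488) [(nat_lit 480754), (nat_lit 0), (nat_lit 0), (nat_lit 9067323)]) (PF.cons PF.nil (PF.cons PF.nil PF.nil)))))))))) (PF.cons (PF.cons (PF.leaf (nat_lit 5946847) (nat_lit 1538554) (nat_lit 44212886) (nat_lit 3039708) [(nat_lit 0), (nat_lit 1538554), (nat_lit 0), (nat_lit 9158831)]) (PF.cons (PF.leaf (nat_lit 6219300) (nat_lit 449888) (nat_lit 43783851) (nat_lit 3050072) [(nat_lit 449888), (nat_lit 1551722), (nat_lit 0), (nat_lit 9136639)]) (PF.cons (PF.leaf (nat_lit 6502293) (nat_lit 459279) (nat_lit 43342814) (nat_lit 3059305) [(nat_lit 459279), (nat_lit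 1563817), (nat_lit 0), (nat_lit 9112158)]) (PF.cons (PF.leaf (nat_lit 6793562) (nat_lit 467656) (nat_lit 42892748) (nat_lit 3067335) [(nat_lit 467656), (nat_lit 1574831), (nat_lit 0), (nat_lit 9085463)]) (PF.cons
 (PF.leaf (nat_lit 7091700) (nat_lit 475162) (nat_lit 42435990) (nat_lit 3074127) [(nat_lit 475162), (nat_lit 1584777), (nat_lit 0), (nat_lit 9056634)]) (PF.cons (PF.leaf (nat_lit 7395529) (nat_lit 481903) (nat_lit 41974429) (nat_lit 3079673) [(nat_lit 481903), (nat_lit 1593684), (nat_lit 0), (nat_lit 9025752)]) (PF.cons PF.nil (PF.cons PF.nil (PF.cons PF.nil PF.nil))))))))) (PF.cons (PF.cons (PF.leaf (nat_lit 6648898) (nat_lit 1569311) (nat_lit 42762330) (nat_lit 3062385) [(nat_lit 0), (nat_lit 1569311), (nat_lit 0), (nat_lit 9072736)]) (PF.cons (PF.leaf (nat_lit 6933988) (nat_lit 468762) (nat_lit 42323269) (nat_lit 3068934) [(nat_lit 468762), (nat_lit 1579253), (nat_lit 0), (nat_lit 9044670)]) (PF.cons (PF.leaf (nat_lit 7226879) (nat_lit 476111) (nat_lit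 41876792) (nat_lit 3074348) [(nat_lit 476111), (nat_lit 1588219), (nat_lit 0), (nat_lit 9014504)]) (PF.cons (PF.leaf (nat_lit 7525823) (nat_lit 482678) (nat_lit 41425037) (nat_lit 3078610) [(nat_lit 482678), (nat_lit 1596225), (nat_lit 0), (nat_lit 8982339)]) (PF.cons (PF.leaf (nat_lit 7829759) (nat_lit 488556) (nat_lit 40969725) (nat_lit 3081723) [(nat_lit 488556), (nat_lit 1603296), (nat_lit 0), (nat_lit 8948273)]) (PF.cons
 PF.nil (PF.cons PF.nil PF.nil))))))) (PF.cons (PF.cons (PF.leaf (nat_lit 7361926) (nat_lit 1590858) (nat_lit 41322090) (nat_lit 3073303) [(nat_lit 0), (nat_lit 1590858), (nat_lit 0), (nat_lit 8970420)]) (PF.cons (PF.leaf (nat_lit 7655171) (nat_lit 483076) (nat_lit 40880956) (nat_lit 3076374) [(nat_lit 483076), (nat_lit 1598021), (nat_lit 0), (nat_lit 8937170)]) (PF.cons (PF.leaf (nat_lit 7954160) (nat_lit 488813) (nat_lit 40435738) (nat_lit 3078376) [(nat_lit 488813), (nat_lit 1604313), (nat_lit 0), (nat_lit 8902064)]) (PF.cons PF.nil (PF.cons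 PF.nil PF.nil))))) (PF.cons (PF.cons (PF.leaf (nat_lit 8078060) (nat_lit 1604682) (nat_lit 39907362) (nat_lit 3074009) [(nat_lit 0), (nat_lit 1604682), (nat_lit 0), (nat_lit 8854354)]) (PF.cons (PF.leaf (nat_lit 8376042) (nat_lit 493735) (nat_lit 39469879) (nat_lit 3073995) [(nat_lit 493735), (nat_lit 1609457), (nat_lit 0), (nat_lit 8816685)]) (PF.cons PF.nil (PF.cons PF.nil PF.nil)))) (PF.cons (PF.cons (PF.leaf (nat_lit 8791293) (nat_lit 1612017) (nat_lit 38528729) (nat_lit 3065977) [(nat_lit 0), (nat_lit 1612017), (nat_lit 0), (nat_lit 8727009)]) (PF.cons PF.nil PF.nil)) PF.nil)))))) (PF.cons (PF.cons (PF.cons (PF.leaf (nat_lit 6466571)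
 (nat_lit 3043036) (nat_lit 42464628) (nat_lit 3043036) [(nat_lit 0), (nat_lit 0), (nat_lit 3530530), (nat_lit 9035308)]) (PF.cons (PF.leaf (nat_lit 6737685) (nat_lit 456298) (nat_lit 42050412) (nat_lit 3049831) [(nat_lit 456298), (nat_lit 0), (nat_lit 3535472), (nat_lit 9008398)]) (PF.cons (PF.leaf (nat_lit 7018548) (nat_lit 464821) (nat_lit 41625624) (nat_lit 3055575) [(nat_lit 464821), (nat_lit 0), (nat_lit 3539305), (nat_lit 8979332)]) (PF.cons (PF.leaf (nat_lit 7306960) (nat_lit 472353) (nat_lit 41193086) (nat_lit 3060221) [(nat_lit 472353), (nat_lit 0), (nat_lit 3541985), (nat_lit 8948229)]) (PF.cons (PF.leaf (nat_lit 7601546) (nat_lit 479043) (nat_lit 40754986) (nat_lit 3063756) [(nat_lit 479043), (nat_lit 0), (nat_lit 3543496), (nat_lit 8915199)]) (PF.cons (PF.leaf (nat_lit 7901180) (nat_lit 485001) (nat_lit 40313082) (nat_lit 3066184) [(nat_lit 485001), (nat_lit 0), (nat_lit 3543843), (nat_lit 8880348)]) (PF.cons PF.nil PF.nil))))))) (PF.cons (PF.cons (PF.leaf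 (nat_lit 7157115) (nat_lit 1574899) (nat_lit 41072724) (nat_lit 3054855) [(nat_lit 0), (nat_lit 1574899), (nat_lit 3536383), (nat_lit 8934975)]) (PF.cons (PF.leaf (nat_lit 7439212) (nat_lit 472669) (nat_lit 40651439)
 (nat_lit 3058301) [(nat_lit 472669), (nat_lit 1582725), (nat_lit 3537824), (nat_lit 8902926)]) (PF.cons (PF.leaf (nat_lit 7728455) (nat_lit 479259) (nat_lit 40223812) (nat_lit 3060718) [(nat_lit 479259), (nat_lit 1589655), (nat_lit 3538175), (nat_lit 8868965)]) (PF.cons (PF.leaf (nat_lit 8023151) (nat_lit 485093) (nat_lit 39791842) (nat_lit 3062104) [(nat_lit 485093), (nat_lit 1595710), (nat_lit 3537437), (nat_lit 8833218)]) (PF.cons PF.nil PF.nil))))) (PF.cons (PF.cons (PF.leaf (nat_lit 7855422) (nat_lit 1590334) (nat_lit 39697420) (nat_lit 3056642) [(nat_lit 0), (nat_lit 1590334), (nat_lit 3531726), (nat_lit 8821177)]) (PF.cons (PF.leaf (nat_lit 8144381) (nat_lit 484854) (nat_lit 39276085) (nat_lit 3057068) [(nat_lit 484854), (nat_lit 1595692), (nat_lit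 3529993), (nat_lit 8784712)]) (PF.cons (PF.leaf (nat_lit 8438519) (nat_lit 489934) (nat_lit 38851432) (nat_lit 3056539) [(nat_lit 489934), (nat_lit 1600260), (nat_lit 3527248), (nat_lit 8746600)]) (PF.cons PF.nil PF.nil)))) (PF.cons (PF.cons (PF.leaf (nat_lit 8554499) (nat_lit 1599065) (nat_lit 38351388) (nat_lit 3049774) [(nat_lit 0), (nat_lit 1599065), (nat_lit 3517970), (nat_lit 8696240)]) (PF.cons (PF.leaf (nat_lit 8847186)
 (nat_lit 493714) (nat_lit 37934964) (nat_lit 3047543) [(nat_lit 493714), (nat_lit 1602318), (nat_lit 3513441), (nat_lit 8656097)]) PF.nil)) (PF.cons PF.nil PF.nil))))) (PF.cons (PF.cons (PF.cons (PF.leaf (nat_lit 7644969) (nat_lit 3038713) (nat_lit 39471361) (nat_lit 3038713) [(nat_lit 0), (nat_lit 0), (nat_lit 3512856), (nat_lit 8786512)]) (PF.cons (PF.leaf (nat_lit 7923469) (nat_lit 474814) (nat_lit 39068401) (nat_lit 3039598) [(nat_lit 474814), (nat_lit 0), (nat_lit 3511576), (nat_lit 8751423)]) (PF.cons (PF.leaf (nat_lit 8208574) (nat_lit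 480737) (nat_lit 38659978) (nat_lit 3039549) [(nat_lit 480737), (nat_lit 0), (nat_lit 3509308), (nat_lit 8714597)]) (PF.cons (PF.leaf (nat_lit 8498608) (nat_lit 485932) (nat_lit 38247962) (nat_lit 3038576) [(nat_lit 485932), (nat_lit 0), (nat_lit 3506063), (nat_lit 8676175)]) (PF.cons PF.nil PF.nil))))) (PF.cons (PF.cons (PF.leaf (nat_lit 8327910) (nat_lit 1585357) (nat_lit 38161425) (nat_lit 3033061) [(nat_lit 0), (nat_lit 1585357), (nat_lit 3500277), (nat_lit 8664206)]) (PF.cons (PF.leaf (nat_lit 8612216) (nat_lit 485170) (nat_lit 37759891) (nat_lit 3031319) [(nat_lit 485170), (nat_lit 1589198), (nat_lit 3496245), (nat_lit 8625370)])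
 (PF.cons (PF.leaf (nat_lit 8901245) (nat_lit 489677) (nat_lit 37355645) (nat_lit 3028723) [(nat_lit 489677), (nat_lit 1592319), (nat_lit 3491311), (nat_lit 8585073)]) (PF.cons PF.nil PF.nil)))) (PF.cons (PF.cons (PF.leaf (nat_lit 9009830) (nat_lit 1589862) (nat_lit 36883017) (nat_lit 3020071) [(nat_lit 0), (nat_lit 1589862), (nat_lit 3480024), (nat_lit 8532975)]) (PF.cons PF.nil PF.nil)) PF.nil))) (PF.cons (PF.cons (PF.cons (PF.leaf (nat_lit 8780377) (nat_lit 3004071) (nat_lit 36711029) (nat_lit 3004071) [(nat_lit 0), (nat_lit 0), (nat_lit 3463055), (nat_lit 8502272)]) (PF.cons (PF.leaf (nat_lit 9059779) (nat_lit 484285) (nat_lit 36328963) (nat_lit 3000558) [(nat_lit 484285), (nat_lit 0), (nat_lit 3457162), (nat_lit 8461759)]) (PF.cons PF.nil PF.nil))) (PF.cons (PF.cons (PF.leaf (nat_lit 9445245) (nat_lit 1577803) (nat_lit 35498298) (nat_lit 2986157) [(nat_lit 0), (nat_lit 1577803), (nat_lit 3437625), (nat_lit 8366838)]) PF.nil) PF.nil)) (PF.cons PF.nil (PF.cons PF.nil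 PF.nil)))))) (PF.cons (PF.cons (PF.cons (PF.cons (PF.leaf (nat_lit 7230916) (nat_lit 2952862) (nat_lit 38361325) (nat_lit 2952862) [(nat_lit 0), (nat_lit 0), (nat_lit 0), (nat_lit 8598208)]) (PF.cons (PF.leaf
 (nat_lit 7489327) (nat_lit 447605) (nat_lit 38004333) (nat_lit 2955712) [(nat_lit 447605), (nat_lit 0), (nat_lit 0), (nat_lit 8567053)]) (PF.cons (PF.leaf (nat_lit 7756583) (nat_lit 455180) (nat_lit 37638630) (nat_lit 2957630) [(nat_lit 455180), (nat_lit 0), (nat_lit 0), (nat_lit 8534063)]) (PF.cons (PF.leaf (nat_lit 8030559) (nat_lit 461792) (nat_lit 37266619) (nat_lit 2958605) [(nat_lit 461792), (nat_lit 0), (nat_lit 0), (nat_lit 8499403)]) (PF.cons (PF.leaf (nat_lit 8309968) (nat_lit 467595) (nat_lit 36890151) (nat_lit 2958645) [(nat_lit 467595), (nat_lit 0), (nat_lit 0), (nat_lit 8463211)]) (PF.cons (PF.leaf (nat_lit 8593778) (nat_lit 472703) (nat_lit 36510699) (nat_lit 2957771) [(nat_lit 472703), (nat_lit 0), (nat_lit 0), (nat_lit 8425608)]) (PF.cons PF.nil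 PF.nil))))))) (PF.cons (PF.cons (PF.leaf (nat_lit 7880176) (nat_lit 1531513) (nat_lit 37166067) (nat_lit 2952882) [(nat_lit 0), (nat_lit 1531513), (nat_lit 0), (nat_lit 8486116)]) (PF.cons (PF.leaf (nat_lit 8148008) (nat_lit 461325) (nat_lit 36803994) (nat_lit 2953010) [(nat_lit 461325), (nat_lit 1537117), (nat_lit 0), (nat_lit 8451121)]) (PF.cons (PF.leaf (nat_lit 8422278) (nat_lit 467082) (nat_lit 36436734) (nat_lit
 2952264) [(nat_lit 467082), (nat_lit 1541914), (nat_lit 0), (nat_lit 8414577)]) (PF.cons (PF.leaf (nat_lit 8701370) (nat_lit 472119) (nat_lit 36065975) (nat_lit 2950661) [(nat_lit 472119), (nat_lit 1545936), (nat_lit 0), (nat_lit 8376627)]) (PF.cons PF.nil PF.nil))))) (PF.cons (PF.cons (PF.leaf (nat_lit 8535005) (nat_lit 1540596) (nat_lit 35987494) (nat_lit 2945154) [(nat_lit 0), (nat_lit 1540596), (nat_lit 0), (nat_lit 8364990)]) (PF.cons (PF.leaf (nat_lit 8808602) (nat_lit 471262) (nat_lit 35625975) (nat_lit 2942886) [(nat_lit 471262), (nat_lit 1544096),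 (nat_lit 0), (nat_lit 8326831)]) (PF.cons (PF.leaf (nat_lit 9086881) (nat_lit 475629) (nat_lit 35261756) (nat_lit 2939832) [(nat_lit 475629), (nat_lit 1546903), (nat_lit 0), (nat_lit 8287385)]) (PF.cons PF.nil PF.nil)))) (PF.cons (PF.cons (PF.leaf (nat_lit 9189532) (nat_lit 1544197) (nat_lit 34835240) (nat_lit 2930866) [(nat_lit 0), (nat_lit 1544197), (nat_lit 0), (nat_lit 8236704)]) (PF.cons PF.nil PF.nil)) (PF.cons PF.nil PF.nil))))) (PF.cons (PF.cons (PF.cons (PF.leaf (nat_lit 8324598) (nat_lit 2928141) (nat_lit 35802591) (nat_lit 2928141) [(nat_lit 0), (nat_lit 0), (nat_lit 3379594), (nat_lit 8332828)]) (PF.cons (PF.leaf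
 (nat_lit 8588809) (nat_lit 461664) (nat_lit 35456477) (nat_lit 2926452) [(nat_lit 461664), (nat_lit 0), (nat_lit 3375607), (nat_lit 8296203)]) (PF.cons (PF.leaf (nat_lit 8859012) (nat_lit 466871) (nat_lit 35105818) (nat_lit 2923969) [(nat_lit 466871), (nat_lit 0), (nat_lit 3370789), (nat_lit 8258164)]) (PF.cons (PF.leaf (nat_lit 9133651) (nat_lit 471386) (nat_lit 34752194) (nat_lit 2920715) [(nat_lit 471386), (nat_lit 0), (nat_lit 3365166), (nat_lit 8218859)]) (PF.cons PF.nil PF.nil))))) (PF.cons (PF.cons (PF.leaf (nat_lit 8965327) (nat_lit 1531324) (nat_lit 34680177) (nat_lit 2915284) [(nat_lit 0), (nat_lit 1531324), (nat_lit 3359469), (nat_lit 8207518)]) (PF.cons (PF.leaf (nat_lit 9234509) (nat_lit 470152) (nat_lit 34335553) (nat_lit 2911504) [(nat_lit 470152), (nat_lit 1533680), (nat_lit 3353327), (nat_lit 8168198)]) (PF.cons PF.nil (PF.cons PF.nil PF.nil)))) (PF.cons (PF.cons (PF.leaf (nat_lit 9604505) (nat_lit 1531830) (nat_lit 33585089) (nat_lit 2896849) [(nat_lit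 0), (nat_lit 1531830), (nat_lit 3333622), (nat_lit 8076530)]) (PF.cons PF.nil PF.nil)) PF.nil))) (PF.cons (PF.cons (PF.cons (PF.leaf (nat_lit 9378754) (nat_lit 2882062) (nat_lit 33444321) (nat_lit 2882062)
 [(nat_lit 0), (nat_lit 0), (nat_lit 3317973), (nat_lit 8048826)]) (PF.cons (PF.leaf (nat_lit 9643370) (nat_lit 468192) (nat_lit 33116096) (nat_lit 2877050) [(nat_lit 468192), (nat_lit 0), (nat_lit 3310568), (nat_lit 8008779)]) PF.nil)) (PF.cons PF.nil PF.nil)) (PF.cons PF.nil (PF.cons PF.nil PF.nil))))) (PF.cons (PF.cons (PF.cons (PF.cons (PF.leaf (nat_lit 8927910) (nat_lit 2813712) (nat_lit 32700316) (nat_lit 2813712) [(nat_lit 0), (nat_lit 0), (nat_lit 0), (nat_lit 7898696)]) (PF.cons (PF.leaf (nat_lit 9179212) (nat_lit 447312) (nat_lit 32401325) (nat_lit 2810495) [(nat_lit 447312), (nat_lit 0), (nat_lit 0), (nat_lit 7862419)]) (PF.cons (PF.leaf (nat_lit 9436090) (nat_lit 451973) (nat_lit 32098444) (nat_lit 2806591) [(nat_lit 451973), (nat_lit 0), (nat_lit 0),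 (nat_lit 7824957)]) (PF.cons PF.nil PF.nil)))) (PF.cons (PF.cons (PF.leaf (nat_lit 9532020) (nat_lit 1475562) (nat_lit 31732592) (nat_lit 2796826) [(nat_lit 0), (nat_lit 1475562), (nat_lit 0), (nat_lit 7775957)]) (PF.cons (PF.leaf (nat_lit 9787724) (nat_lit 454464) (nat_lit 31434851) (nat_lit 2791902) [(nat_lit 454464), (nat_lit 1476941), (nat_lit 0), (nat_lit 7737663)]) PF.nil)) (PF.cons PF.nil PF.nil))) (PF.cons (PF.cons
 (PF.cons (PF.leaf (nat_lit 9913614) (nat_lit 2762050) (nat_lit 30671589) (nat_lit 2762050) [(nat_lit 0), (nat_lit 0), (nat_lit 3176060), (nat_lit 7624778)]) (PF.cons PF.nil PF.nil)) (PF.cons PF.nil PF.nil)) (PF.cons PF.nil PF.nil))) (PF.cons (PF.cons (PF.cons (PF.cons (PF.leaf (nat_lit 10398779) (nat_lit 2646986) (nat_lit 28297074) (nat_lit 2646986) [(nat_lit 0), (nat_lit 0), (nat_lit 0), (nat_lit 7232950)]) (PF.cons PF.nil PF.nil)) (PF.cons PF.nil PF.nil)) (PF.cons PF.nil PF.nil)) (PF.cons PF.nil (PF.cons PF.nil (PF.cons PF.nil PF.nil)))))))))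

def p14_13_0_0 : pfC (piC [(nat_lit 39120232), (nat_lit 25510466), (nat_lit 18971201), (nat_lit 12765436)] (nat_lit 23434072)) p14_13_0 (nat_lit 4) (nat_lit 0) (nat_lit 1) = true := by decide +kernel
def p14_13_0_1 : pfC (piC [(nat_lit 39120232), (nat_lit 25510466), (nat_lit 18971201), (nat_lit 12765436)] (nat_lit 23434072)) p14_13_0 (nat_lit 4) (nat_lit 1) (nat_lit 2) = true := by decide +kernel
def p14_13_0_2 : pfC (piC [(nat_lit 39120232), (nat_lit 25510466), (nat_lit 18971201), (nat_lit 12765436)] (nat_lit 23434072)) p14_13_0 (nat_lit 4) (nat_lit 2) (nat_lit 3) = true := by decide +kernel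
def p14_13_0_3 : pfC (piC [(nat_lit 39120232), (nat_lit 25510466), (nat_lit 18971201), (nat_lit 12765436)] (nat_lit 23434072)) p14_13_0 (nat_lit 4) (nat_lit 3) (nat_lit 4) = true := by decide +kernel
def p14_13_0_4 : pfC (piC [(nat_lit 39120232), (nat_lit 25510466), (nat_lit 18971201), (nat_lit 12765436)] (nat_lit 23434072)) p14_13_0 (nat_lit 4) (nat_lit 4) (nat_lit 5) = true := by decide +kernel
def p14_13_0_5 : pfC (piC [(nat_lit 39120232), (nat_lit 25510466), (nat_lit 18971201), (nat_lit 12765436)] (nat_lit 23434072)) p14_13_0 (nat_lit 4) (nat_lit 5) (nat_lit 6) = true := by decide +kernel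
def p14_13_0_6 : pfC (piC [(nat_lit 39120232), (nat_lit 25510466), (nat_lit 18971201), (nat_lit 12765436)] (nat_lit 23434072)) p14_13_0 (nat_lit 4) (nat_lit 6) (nat_lit 7) = true := by decide +kernel
def p14_13_0_7 : pfC (piC [(nat_lit 39120232), (nat_lit 25510466), (nat_lit 18971201), (nat_lit 12765436)] (nat_lit 23434072)) p14_13_0 (nat_lit 4) (nat_lit 7) (nat_lit 8) = true := by decide +kernel
def p14_13_0_8 : pfC (piC [(nat_lit 39120232), (nat_lit 25510466), (nat_lit 18971201), (nat_lit 12765436)] (nat_lit 23434072)) p14_13_0 (nat_lit 4) (nat_lit 8) (nat_lit 9) = true := by decide +kernel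
def p14_13_0_9 : pfC (piC [(nat_lit 39120232), (nat_lit 25510466), (nat_lit 18971201), (nat_lit 12765436)] (nat_lit 23434072)) p14_13_0 (nat_lit 4) (nat_lit 9) (nat_lit 10) = true := by decide +kernel
def p14_13_0_10 : pfC (piC [(nat_lit 39120232), (nat_lit 25510466), (nat_lit 18971201), (nat_lit 12765436)] (nat_lit 23434072)) p14_13_0 (nat_lit 4) (nat_lit 10) (nat_lit 11) = true := by decide +kernel
def p14_13_0_11 : pfC (piC [(nat_lit 39120232), (nat_lit 25510466), (nat_lit 18971201), (nat_lit 12765436)] (nat_lit 23434072)) p14_13_0 (nat_lit 4) (nat_lit 11) (nat_lit 12) = true := by decide +kernel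
def p14_13_0_12 : pfC (piC [(nat_lit 39120232), (nat_lit 25510466), (nat_lit 18971201), (nat_lit 12765436)] (nat_lit 23434072)) p14_13_0 (nat_lit 4) (nat_lit 12) (nat_lit 13) = true := by decide +kernel
def p14_13_0_13 : pfC (piC [(nat_lit 39120232), (nat_lit 25510466), (nat_lit 18971201), (nat_lit 12765436)] (nat_lit 23434072)) p14_13_0 (nat_lit 4) (nat_lit 13) (nat_lit 14) = true := by decide +kernel
def p14_13_0_14 : pfC (piC [(nat_lit 39120232), (nat_lit 25510466), (nat_lit 18971201), (nat_lit 12765436)] (nat_lit 23434072)) p14_13_0 (nat_lit 4) (nat_lit 14) (nat_lit 15) = true := by decide +kernel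
def p14_13_0_15 : pfC (piC [(nat_lit 39120232), (nat_lit 25510466), (nat_lit 18971201), (nat_lit 12765436)] (nat_lit 23434072)) p14_13_0 (nat_lit 4) (nat_lit 15) (nat_lit 16) = true := by decide +kernel
def p14_13_0_16 : pfC (piC [(nat_lit 39120232), (nat_lit 25510466), (nat_lit 18971201), (nat_lit 12765436)] (nat_lit 23434072)) p14_13_0 (nat_lit 4) (nat_lit 16) (nat_lit 17) = true := by decide +kernel
def p14_13_0_17 : pfC (piC [(nat_lit 39120232), (nat_lit 25510466), (nat_lit 18971201), (nat_lit 12765436)] (nat_lit 23434072)) p14_13_0 (nat_lit 4) (nat_lit 17) (nat_lit 18) = true := by decide +kernel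
def p14_13_0_18 : pfC (piC [(nat_lit 39120232), (nat_lit 25510466), (nat_lit 18971201), (nat_lit 12765436)] (nat_lit 23434072)) p14_13_0 (nat_lit 4) (nat_lit 18) (nat_lit 19) = true := by decide +kernel
def p14_13_0_19 : pfC (piC [(nat_lit 39120232), (nat_lit 25510466), (nat_lit 18971201), (nat_lit 12765436)] (nat_lit 23434072)) p14_13_0 (nat_lit 4) (nat_lit 19) (nat_lit 20) = true := by decide +kernel
def p14_13_0_20 : pfC (piC [(nat_lit 39120232), (nat_lit 25510466), (nat_lit 18971201), (nat_lit 12765436)] (nat_lit 23434072)) p14_13_0 (nat_lit 4) (nat_lit 20) (nat_lit 21) = true := by decide +kernel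
def p14_13_0_21 : pfC (piC [(nat_lit 39120232), (nat_lit 25510466), (nat_lit 18971201), (nat_lit 12765436)] (nat_lit 23434072)) p14_13_0 (nat_lit 4) (nat_lit 21) (nat_lit 22) = true := by decide +kernel
def p14_13_0_22 : pfC (piC [(nat_lit 39120232), (nat_lit 25510466), (nat_lit 18971201), (nat_lit 12765436)] (nat_lit 23434072)) p14_13_0 (nat_lit 4) (nat_lit 22) (nat_lit 23) = true := by decide +kernel
def p14_13_0_23 : pfC (piC [(nat_lit 39120232), (nat_lit 25510466), (nat_lit 18971201), (nat_lit 12765436)] (nat_lit 23434072)) p14_13_0 (nat_lit 4) (nat_lit 23) (nat_lit 24) = true := by decide +kernel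
def p14_13_0_24 : pfC (piC [(nat_lit 39120232), (nat_lit 25510466), (nat_lit 18971201), (nat_lit 12765436)] (nat_lit 23434072)) p14_13_0 (nat_lit 4) (nat_lit 24) (nat_lit 25) = true := by decide +kernel
def p14_13_0_25 : pfC (piC [(nat_lit 39120232), (nat_lit 25510466), (nat_lit 18971201), (nat_lit 12765436)] (nat_lit 23434072)) p14_13_0 (nat_lit 4) (nat_lit 25) (nat_lit 26) = true := by decide +kernel
def p14_13_0_26 : pfC (piC [(nat_lit 39120232), (nat_lit 25510466), (nat_lit 18971201), (nat_lit 12765436)] (nat_lit 23434072)) p14_13_0 (nat_lit 4) (nat_lit 26) (nat_lit 27) = true := by decide +kernel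
def p14_13_0_27 : pfC (piC [(nat_lit 39120232), (nat_lit 25510466), (nat_lit 18971201), (nat_lit 12765436)] (nat_lit 23434072)) p14_13_0 (nat_lit 4) (nat_lit 27) (nat_lit 28) = true := by decide +kernel
def p14_13_0_28 : pfC (piC [(nat_lit 39120232), (nat_lit 25510466), (nat_lit 18971201), (nat_lit 12765436)] (nat_lit 23434072)) p14_13_0 (nat_lit 4) (nat_lit 28) (nat_lit 29) = true := by decide +kernel
def p14_13_0_29 : pfC (piC [(nat_lit 39120232), (nat_lit 25510466), (nat_lit 18971201), (nat_lit 12765436)] (nat_lit 23434072)) p14_13_0 (nat_lit 4) (nat_lit 29) (nat_lit 30) = true := by decide +kernel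
def p14_13_0_30 : pfC (piC [(nat_lit 39120232), (nat_lit 25510466), (nat_lit 18971201), (nat_lit 12765436)] (nat_lit 23434072)) p14_13_0 (nat_lit 4) (nat_lit 30) (nat_lit 31) = true := by decide +kernel
def p14_13_0_31 : pfC (piC [(nat_lit 39120232), (nat_lit 25510466), (nat_lit 18971201), (nat_lit 12765436)] (nat_lit 23434072)) p14_13_0 (nat_lit 4) (nat_lit 31) (nat_lit 32) = true := by decide +kernel
def p14_13_0_32 : pfC (piC [(nat_lit 39120232), (nat_lit 25510466), (nat_lit 18971201), (nat_lit 12765436)] (nat_lit 23434072)) p14_13_0 (nat_lit 4) (nat_lit 32) (nat_lit 33) = true := by decide +kernel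
def p14_13_0_33 : pfC (piC [(nat_lit 39120232), (nat_lit 25510466), (nat_lit 18971201), (nat_lit 12765436)] (nat_lit 23434072)) p14_13_0 (nat_lit 4) (nat_lit 33) (nat_lit 34) = true := by decide +kernel
def p14_13_0_34 : pfC (piC [(nat_lit 39120232), (nat_lit 25510466), (nat_lit 18971201), (nat_lit 12765436)] (nat_lit 23434072)) p14_13_0 (nat_lit 4) (nat_lit 34) (nat_lit 35) = true := by decide +kernel
def p14_13_0_35 : pfC (piC [(nat_lit 39120232), (nat_lit 25510466), (nat_lit 18971201), (nat_lit 12765436)] (nat_lit 23434072)) p14_13_0 (nat_lit 4) (nat_lit 35) (nat_lit 36) = true := by decide +kernel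
def p14_13_0_36 : pfC (piC [(nat_lit 39120232), (nat_lit 25510466), (nat_lit 18971201), (nat_lit 12765436)] (nat_lit 23434072)) p14_13_0 (nat_lit 4) (nat_lit 36) (nat_lit 37) = true := by decide +kernel
def p14_13_0_37 : pfC (piC [(nat_lit 39120232), (nat_lit 25510466), (nat_lit 18971201), (nat_lit 12765436)] (nat_lit 23434072)) p14_13_0 (nat_lit 4) (nat_lit 37) (nat_lit 38) = true := by decide +kernel
def p14_13_0_38 : pfC (piC [(nat_lit 39120232), (nat_lit 25510466), (nat_lit 18971201), (nat_lit 12765436)] (nat_lit 23434072)) p14_13_0 (nat_lit 4) (nat_lit 38) (nat_lit 39) = true := by decide +kernel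
def p14_13_0_39 : pfC (piC [(nat_lit 39120232), (nat_lit 25510466), (nat_lit 18971201), (nat_lit 12765436)] (nat_lit 23434072)) p14_13_0 (nat_lit 4) (nat_lit 39) (nat_lit 40) = true := by decide +kernel
def p14_13_0_40 : pfC (piC [(nat_lit 39120232), (nat_lit 25510466), (nat_lit 18971201), (nat_lit 12765436)] (nat_lit 23434072)) p14_13_0 (nat_lit 4) (nat_lit 40) (nat_lit 41) = true := by decide +kernel
def p14_13_0_41 : pfC (piC [(nat_lit 39120232), (nat_lit 25510466), (nat_lit 18971201), (nat_lit 12765436)] (nat_lit 23434072)) p14_13_0 (nat_lit 4) (nat_lit 41) (nat_lit 42) = true := by decide +kernel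
def p14_13_0_42 : pfC (piC [(nat_lit 39120232), (nat_lit 25510466), (nat_lit 18971201), (nat_lit 12765436)] (nat_lit 23434072)) p14_13_0 (nat_lit 4) (nat_lit 42) (nat_lit 43) = true := by decide +kernel
def p14_13_0_43 : pfC (piC [(nat_lit 39120232), (nat_lit 25510466), (nat_lit 18971201), (nat_lit 12765436)] (nat_lit 23434072)) p14_13_0 (nat_lit 4) (nat_lit 43) (nat_lit 44) = true := by decide +kernel
def p14_13_0_44 : pfC (piC [(nat_lit 39120232), (nat_lit 25510466), (nat_lit 18971201), (nat_lit 12765436)] (nat_lit 23434072)) p14_13_0 (nat_lit 4) (nat_lit 44) (nat_lit 45) = true := by decide +kernel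
def p14_13_0_45 : pfC (piC [(nat_lit 39120232), (nat_lit 25510466), (nat_lit 18971201), (nat_lit 12765436)] (nat_lit 23434072)) p14_13_0 (nat_lit 4) (nat_lit 45) (nat_lit 46) = true := by decide +kernel
def p14_13_0_46 : pfC (piC [(nat_lit 39120232), (nat_lit 25510466), (nat_lit 18971201), (nat_lit 12765436)] (nat_lit 23434072)) p14_13_0 (nat_lit 4) (nat_lit 46) (nat_lit 47) = true := by decide +kernel
def p14_13_0_47 : pfC (piC [(nat_lit 39120232), (nat_lit 25510466), (nat_lit 18971201), (nat_lit 12765436)] (nat_lit 23434072)) p14_13_0 (nat_lit 4) (nat_lit 47) (nat_lit 48) = true := by decide +kernel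
def p14_13_0_48 : pfC (piC [(nat_lit 39120232), (nat_lit 25510466), (nat_lit 18971201), (nat_lit 12765436)] (nat_lit 23434072)) p14_13_0 (nat_lit 4) (nat_lit 48) (nat_lit 49) = true := by decide +kernel
def p14_13_0_49 : pfC (piC [(nat_lit 39120232), (nat_lit 25510466), (nat_lit 18971201), (nat_lit 12765436)] (nat_lit 23434072)) p14_13_0 (nat_lit 4) (nat_lit 49) (nat_lit 50) = true := by decide +kernel
def p14_13_0_50 : pfC (piC [(nat_lit 39120232), (nat_lit 25510466), (nat_lit 18971201), (nat_lit 12765436)] (nat_lit 23434072)) p14_13_0 (nat_lit 4) (nat_lit 50) (nat_lit 51) = true := by decide +kernel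
def p14_13_0_51 : pfC (piC [(nat_lit 39120232), (nat_lit 25510466), (nat_lit 18971201), (nat_lit 12765436)] (nat_lit 23434072)) p14_13_0 (nat_lit 4) (nat_lit 51) (nat_lit 52) = true := by decide +kernel
def p14_13_0_52 : pfC (piC [(nat_lit 39120232), (nat_lit 25510466), (nat_lit 18971201), (nat_lit 12765436)] (nat_lit 23434072)) p14_13_0 (nat_lit 4) (nat_lit 52) (nat_lit 53) = true := by decide +kernel
def p14_13_0_53 : pfC (piC [(nat_lit 39120232), (nat_lit 25510466), (nat_lit 18971201), (nat_lit 12765436)] (nat_lit 23434072)) p14_13_0 (nat_lit 4) (nat_lit 53) (nat_lit 54) = true := by decide +kernel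
def p14_13_0_54 : pfC (piC [(nat_lit 39120232), (nat_lit 25510466), (nat_lit 18971201), (nat_lit 12765436)] (nat_lit 23434072)) p14_13_0 (nat_lit 4) (nat_lit 54) (nat_lit 55) = true := by decide +kernel
def p14_13_0_55 : pfC (piC [(nat_lit 39120232), (nat_lit 25510466), (nat_lit 18971201), (nat_lit 12765436)] (nat_lit 23434072)) p14_13_0 (nat_lit 4) (nat_lit 55) (nat_lit 56) = true := by decide +kernel
def p14_13_0_56 : pfC (piC [(nat_lit 39120232), (nat_lit 25510466), (nat_lit 18971201), (nat_lit 12765436)] (nat_lit 23434072)) p14_13_0 (nat_lit 4) (nat_lit 56) (nat_lit 57) = true := by decide +kernel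
def p14_13_0_57 : pfC (piC [(nat_lit 39120232), (nat_lit 25510466), (nat_lit 18971201), (nat_lit 12765436)] (nat_lit 23434072)) p14_13_0 (nat_lit 4) (nat_lit 57) (nat_lit 58) = true := by decide +kernel
def p14_13_0_58 : pfC (piC [(nat_lit 39120232), (nat_lit 25510466), (nat_lit 18971201), (nat_lit 12765436)] (nat_lit 23434072)) p14_13_0 (nat_lit 4) (nat_lit 58) (nat_lit 59) = true := by decide +kernel
def p14_13_0_59 : pfC (piC [(nat_lit 39120232), (nat_lit 25510466), (nat_lit 18971201), (nat_lit 12765436)] (nat_lit 23434072)) p14_13_0 (nat_lit 4) (nat_lit 59) (nat_lit 60) = true := by decide +kernel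
def p14_13_0_60 : pfC (piC [(nat_lit 39120232), (nat_lit 25510466), (nat_lit 18971201), (nat_lit 12765436)] (nat_lit 23434072)) p14_13_0 (nat_lit 4) (nat_lit 60) (nat_lit 61) = true := by decide +kernel
def p14_13_0_61 : pfC (piC [(nat_lit 39120232), (nat_lit 25510466), (nat_lit 18971201), (nat_lit 12765436)] (nat_lit 23434072)) p14_13_0 (nat_lit 4) (nat_lit 61) (nat_lit 62) = true := by decide +kernel
def p14_13_0_62 : pfC (piC [(nat_lit 39120232), (nat_lit 25510466), (nat_lit 18971201), (nat_lit 12765436)] (nat_lit 23434072)) p14_13_0 (nat_lit 4) (nat_lit 62) (nat_lit 63) = true := by decide +kernel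
def p14_13_0_63 : pfC (piC [(nat_lit 39120232), (nat_lit 25510466), (nat_lit 18971201), (nat_lit 12765436)] (nat_lit 23434072)) p14_13_0 (nat_lit 4) (nat_lit 63) (nat_lit 64) = true := by decide +kernel
def p14_13_0_64 : pfC (piC [(nat_lit 39120232), (nat_lit 25510466), (nat_lit 18971201), (nat_lit 12765436)] (nat_lit 23434072)) p14_13_0 (nat_lit 4) (nat_lit 64) (nat_lit 65) = true := by decide +kernel
def p14_13_0_65 : pfC (piC [(nat_lit 39120232), (nat_lit 25510466), (nat_lit 18971201), (nat_lit 12765436)] (nat_lit 23434072)) p14_13_0 (nat_lit 4) (nat_lit 65) (nat_lit 66) = true := by decide +kernel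
def p14_13_0_66 : pfC (piC [(nat_lit 39120232), (nat_lit 25510466), (nat_lit 18971201), (nat_lit 12765436)] (nat_lit 23434072)) p14_13_0 (nat_lit 4) (nat_lit 66) (nat_lit 67) = true := by decide +kernel
def p14_13_0_67 : pfC (piC [(nat_lit 39120232), (nat_lit 25510466), (nat_lit 18971201), (nat_lit 12765436)] (nat_lit 23434072)) p14_13_0 (nat_lit 4) (nat_lit 67) (nat_lit 68) = true := by decide +kernel
def p14_13_0_68 : pfC (piC [(nat_lit 39120232), (nat_lit 25510466), (nat_lit 18971201), (nat_lit 12765436)] (nat_lit 23434072)) p14_13_0 (nat_lit 4) (nat_lit 68) (nat_lit 69) = true := by decide +kernel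
def p14_13_0_69 : pfC (piC [(nat_lit 39120232), (nat_lit 25510466), (nat_lit 18971201), (nat_lit 12765436)] (nat_lit 23434072)) p14_13_0 (nat_lit 4) (nat_lit 69) (nat_lit 70) = true := by decide +kernel
def p14_13_0_70 : pfC (piC [(nat_lit 39120232), (nat_lit 25510466), (nat_lit 18971201), (nat_lit 12765436)] (nat_lit 23434072)) p14_13_0 (nat_lit 4) (nat_lit 70) (nat_lit 71) = true := by decide +kernel
def p14_13_0_71 : pfC (piC [(nat_lit 39120232), (nat_lit 25510466), (nat_lit 18971201), (nat_lit 12765436)] (nat_lit 23434072)) p14_13_0 (nat_lit 4) (nat_lit 71) (nat_lit 72) = true := by decide +kernel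
def p14_13_0_72 : pfC (piC [(nat_lit 39120232), (nat_lit 25510466), (nat_lit 18971201), (nat_lit 12765436)] (nat_lit 23434072)) p14_13_0 (nat_lit 4) (nat_lit 72) (nat_lit 73) = true := by decide +kernel
def p14_13_0_73 : pfC (piC [(nat_lit 39120232), (nat_lit 25510466), (nat_lit 18971201), (nat_lit 12765436)] (nat_lit 23434072)) p14_13_0 (nat_lit 4) (nat_lit 73) (nat_lit 74) = true := by decide +kernel
def p14_13_0_74 : pfC (piC [(nat_lit 39120232), (nat_lit 25510466), (nat_lit 18971201), (nat_lit 12765436)] (nat_lit 23434072)) p14_13_0 (nat_lit 4) (nat_lit 74) (nat_lit 75) = true := by decide +kernel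
def p14_13_0_75 : pfC (piC [(nat_lit 39120232), (nat_lit 25510466), (nat_lit 18971201), (nat_lit 12765436)] (nat_lit 23434072)) p14_13_0 (nat_lit 4) (nat_lit 75) (nat_lit 76) = true := by decide +kernel
def p14_13_0_76 : pfC (piC [(nat_lit 39120232), (nat_lit 25510466), (nat_lit 18971201), (nat_lit 12765436)] (nat_lit 23434072)) p14_13_0 (nat_lit 4) (nat_lit 76) (nat_lit 77) = true := by decide +kernel
def p14_13_0_77 : pfC (piC [(nat_lit 39120232), (nat_lit 25510466), (nat_lit 18971201), (nat_lit 12765436)] (nat_lit 23434072)) p14_13_0 (nat_lit 4) (nat_lit 77) (nat_lit 78) = true := by decide +kernel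
def p14_13_0_78 : pfC (piC [(nat_lit 39120232), (nat_lit 25510466), (nat_lit 18971201), (nat_lit 12765436)] (nat_lit 23434072)) p14_13_0 (nat_lit 4) (nat_lit 78) (nat_lit 79) = true := by decide +kernel
def p14_13_0_79 : pfC (piC [(nat_lit 39120232), (nat_lit 25510466), (nat_lit 18971201), (nat_lit 12765436)] (nat_lit 23434072)) p14_13_0 (nat_lit 4) (nat_lit 79) (nat_lit 80) = true := by decide +kernel
def p14_13_0_80 : pfC (piC [(nat_lit 39120232), (nat_lit 25510466), (nat_lit 18971201), (nat_lit 12765436)] (nat_lit 23434072)) p14_13_0 (nat_lit 4) (nat_lit 80) (nat_lit 81) = true := by decide +kernel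
def p14_13_0_81 : pfC (piC [(nat_lit 39120232), (nat_lit 25510466), (nat_lit 18971201), (nat_lit 12765436)] (nat_lit 23434072)) p14_13_0 (nat_lit 4) (nat_lit 81) (nat_lit 82) = true := by decide +kernel
def p14_13_0_82 : pfC (piC [(nat_lit 39120232), (nat_lit 25510466), (nat_lit 18971201), (nat_lit 12765436)] (nat_lit 23434072)) p14_13_0 (nat_lit 4) (nat_lit 82) (nat_lit 83) = true := by decide +kernel
def p14_13_0_83 : pfC (piC [(nat_lit 39120232), (nat_lit 25510466), (nat_lit 18971201), (nat_lit 12765436)] (nat_lit 23434072)) p14_13_0 (nat_lit 4) (nat_lit 83) (nat_lit 84) = true := by decide +kernel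
def p14_13_0_84 : pfC (piC [(nat_lit 39120232), (nat_lit 25510466), (nat_lit 18971201), (nat_lit 12765436)] (nat_lit 23434072)) p14_13_0 (nat_lit 4) (nat_lit 84) (nat_lit 85) = true := by decide +kernel
def p14_13_0_85 : pfC (piC [(nat_lit 39120232), (nat_lit 25510466), (nat_lit 18971201), (nat_lit 12765436)] (nat_lit 23434072)) p14_13_0 (nat_lit 4) (nat_lit 85) (nat_lit 86) = true := by decide +kernel
def p14_13_0_86 : pfC (piC [(nat_lit 39120232), (nat_lit 25510466), (nat_lit 18971201), (nat_lit 12765436)] (nat_lit 23434072)) p14_13_0 (nat_lit 4) (nat_lit 86) (nat_lit 87) = true := by decide +kernel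
def p14_13_0_87 : pfC (piC [(nat_lit 39120232), (nat_lit 25510466), (nat_lit 18971201), (nat_lit 12765436)] (nat_lit 23434072)) p14_13_0 (nat_lit 4) (nat_lit 87) (nat_lit 88) = true := by decide +kernel
def p14_13_0_88 : pfC (piC [(nat_lit 39120232), (nat_lit 25510466), (nat_lit 18971201), (nat_lit 12765436)] (nat_lit 23434072)) p14_13_0 (nat_lit 4) (nat_lit 88) (nat_lit 89) = true := by decide +kernel
def p14_13_0_89 : pfC (piC [(nat_lit 39120232), (nat_lit 25510466), (nat_lit 18971201), (nat_lit 12765436)] (nat_lit 23434072)) p14_13_0 (nat_lit 4) (nat_lit 89) (nat_lit 90) = true := by decide +kernel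
def p14_13_0_90 : pfC (piC [(nat_lit 39120232), (nat_lit 25510466), (nat_lit 18971201), (nat_lit 12765436)] (nat_lit 23434072)) p14_13_0 (nat_lit 4) (nat_lit 90) (nat_lit 91) = true := by decide +kernel
def p14_13_0_91 : pfC (piC [(nat_lit 39120232), (nat_lit 25510466), (nat_lit 18971201), (nat_lit 12765436)] (nat_lit 23434072)) p14_13_0 (nat_lit 4) (nat_lit 91) (nat_lit 92) = true := by decide +kernel
def p14_13_0_92 : pfC (piC [(nat_lit 39120232), (nat_lit 25510466), (nat_lit 18971201), (nat_lit 12765436)] (nat_lit 23434072)) p14_13_0 (nat_lit 4) (nat_lit 92) (nat_lit 93) = true := by decide +kernel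
def p14_13_0_93 : pfC (piC [(nat_lit 39120232), (nat_lit 25510466), (nat_lit 18971201), (nat_lit 12765436)] (nat_lit 23434072)) p14_13_0 (nat_lit 4) (nat_lit 93) (nat_lit 94) = true := by decide +kernel
def p14_13_0_94 : pfC (piC [(nat_lit 39120232), (nat_lit 25510466), (nat_lit 18971201), (nat_lit 12765436)] (nat_lit 23434072)) p14_13_0 (nat_lit 4) (nat_lit 94) (nat_lit 95) = true := by decide +kernel
def p14_13_0_95 : pfC (piC [(nat_lit 39120232), (nat_lit 25510466), (nat_lit 18971201), (nat_lit 12765436)] (nat_lit 23434072)) p14_13_0 (nat_lit 4) (nat_lit 95) (nat_lit 96) = true := by decide +kernel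
def p14_13_0_96 : pfC (piC [(nat_lit 39120232), (nat_lit 25510466), (nat_lit 18971201), (nat_lit 12765436)] (nat_lit 23434072)) p14_13_0 (nat_lit 4) (nat_lit 96) (nat_lit 97) = true := by decide +kernel
def p14_13_0_97 : pfC (piC [(nat_lit 39120232), (nat_lit 25510466), (nat_lit 18971201), (nat_lit 12765436)] (nat_lit 23434072)) p14_13_0 (nat_lit 4) (nat_lit 97) (nat_lit 98) = true := by decide +kernel
def p14_13_0_98 : pfC (piC [(nat_lit 39120232), (nat_lit 25510466), (nat_lit 18971201), (nat_lit 12765436)] (nat_lit 23434072)) p14_13_0 (nat_lit 4) (nat_lit 98) (nat_lit 99) = true := by decide +kernel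
def p14_13_0_99 : pfC (piC [(nat_lit 39120232), (nat_lit 25510466), (nat_lit 18971201), (nat_lit 12765436)] (nat_lit 23434072)) p14_13_0 (nat_lit 4) (nat_lit 99) (nat_lit 100) = true := by decide +kernel
def p14_13_0_100 : pfC (piC [(nat_lit 39120232), (nat_lit 25510466), (nat_lit 18971201), (nat_lit 12765436)] (nat_lit 23434072)) p14_13_0 (nat_lit 4) (nat_lit 100) (nat_lit 101) = true := by decide +kernel
def p14_13_0_101 : pfC (piC [(nat_lit 39120232), (nat_lit 25510466), (nat_lit 18971201), (nat_lit 12765436)] (nat_lit 23434072)) p14_13_0 (nat_lit 4) (nat_lit 101) (nat_lit 102) = true := by decide +kernel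
def p14_13_0_102 : pfC (piC [(nat_lit 39120232), (nat_lit 25510466), (nat_lit 18971201), (nat_lit 12765436)] (nat_lit 23434072)) p14_13_0 (nat_lit 4) (nat_lit 102) (nat_lit 103) = true := by decide +kernel
def p14_13_0_103 : pfC (piC [(nat_lit 39120232), (nat_lit 25510466), (nat_lit 18971201), (nat_lit 12765436)] (nat_lit 23434072)) p14_13_0 (nat_lit 4) (nat_lit 103) (nat_lit 104) = true := by decide +kernel
def p14_13_0_104 : pfC (piC [(nat_lit 39120232), (nat_lit 25510466), (nat_lit 18971201), (nat_lit 12765436)] (nat_lit 23434072)) p14_13_0 (nat_lit 4) (nat_lit 104) (nat_lit 105) = true := by decide +kernel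
def p14_13_0_105 : pfC (piC [(nat_lit 39120232), (nat_lit 25510466), (nat_lit 18971201), (nat_lit 12765436)] (nat_lit 23434072)) p14_13_0 (nat_lit 4) (nat_lit 105) (nat_lit 106) = true := by decide +kernel
def p14_13_0_106 : pfC (piC [(nat_lit 39120232), (nat_lit 25510466), (nat_lit 18971201), (nat_lit 12765436)] (nat_lit 23434072)) p14_13_0 (nat_lit 4) (nat_lit 106) (nat_lit 107) = true := by decide +kernel
def p14_13_0_107 : pfC (piC [(nat_lit 39120232), (nat_lit 25510466), (nat_lit 18971201), (nat_lit 12765436)] (nat_lit 23434072)) p14_13_0 (nat_lit 4) (nat_lit 107) (nat_lit 108) = true := by decide +kernel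
def p14_13_0_108 : pfC (piC [(nat_lit 39120232), (nat_lit 25510466), (nat_lit 18971201), (nat_lit 12765436)] (nat_lit 23434072)) p14_13_0 (nat_lit 4) (nat_lit 108) (nat_lit 109) = true := by decide +kernel
def p14_13_0_109 : pfC (piC [(nat_lit 39120232), (nat_lit 25510466), (nat_lit 18971201), (nat_lit 12765436)] (nat_lit 23434072)) p14_13_0 (nat_lit 4) (nat_lit 109) (nat_lit 110) = true := by decide +kernel
def p14_13_0_110 : pfC (piC [(nat_lit 39120232), (nat_lit 25510466), (nat_lit 18971201), (nat_lit 12765436)] (nat_lit 23434072)) p14_13_0 (nat_lit 4) (nat_lit 110) (nat_lit 111) = true := by decide +kernel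
def p14_13_0_111 : pfC (piC [(nat_lit 39120232), (nat_lit 25510466), (nat_lit 18971201), (nat_lit 12765436)] (nat_lit 23434072)) p14_13_0 (nat_lit 4) (nat_lit 111) (nat_lit 112) = true := by decide +kernel
def p14_13_0_112 : pfC (piC [(nat_lit 39120232), (nat_lit 25510466), (nat_lit 18971201), (nat_lit 12765436)] (nat_lit 23434072)) p14_13_0 (nat_lit 4) (nat_lit 112) (nat_lit 113) = true := by decide +kernel
def p14_13_0_113 : pfC (piC [(nat_lit 39120232), (nat_lit 25510466), (nat_lit 18971201), (nat_lit 12765436)] (nat_lit 23434072)) p14_13_0 (nat_lit 4) (nat_lit 113) (nat_lit 114) = true := by decide +kernel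
def p14_13_0_114 : pfC (piC [(nat_lit 39120232), (nat_lit 25510466), (nat_lit 18971201), (nat_lit 12765436)] (nat_lit 23434072)) p14_13_0 (nat_lit 4) (nat_lit 114) (nat_lit 115) = true := by decide +kernel
def p14_13_0_115 : pfC (piC [(nat_lit 39120232), (nat_lit 25510466), (nat_lit 18971201), (nat_lit 12765436)] (nat_lit 23434072)) p14_13_0 (nat_lit 4) (nat_lit 115) (nat_lit 116) = true := by decide +kernel
def p14_13_0_116 : pfC (piC [(nat_lit 39120232), (nat_lit 25510466), (nat_lit 18971201), (nat_lit 12765436)] (nat_lit 23434072)) p14_13_0 (nat_lit 4) (nat_lit 116) (nat_lit 117) = true := by decide +kernel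
def p14_13_0_117 : pfC (piC [(nat_lit 39120232), (nat_lit 25510466), (nat_lit 18971201), (nat_lit 12765436)] (nat_lit 23434072)) p14_13_0 (nat_lit 4) (nat_lit 117) (nat_lit 118) = true := by decide +kernel
def p14_13_0_118 : pfC (piC [(nat_lit 39120232), (nat_lit 25510466), (nat_lit 18971201), (nat_lit 12765436)] (nat_lit 23434072)) p14_13_0 (nat_lit 4) (nat_lit 118) (nat_lit 119) = true := by decide +kernel
def p14_13_0_119 : pfC (piC [(nat_lit 39120232), (nat_lit 25510466), (nat_lit 18971201), (nat_lit 12765436)] (nat_lit 23434072)) p14_13_0 (nat_lit 4) (nat_lit 119) (nat_lit 120) = true := by decide +kernel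
def p14_13_0_120 : pfC (piC [(nat_lit 39120232), (nat_lit 25510466), (nat_lit 18971201), (nat_lit 12765436)] (nat_lit 23434072)) p14_13_0 (nat_lit 4) (nat_lit 120) (nat_lit 121) = true := by decide +kernel
def p14_13_0_121 : pfC (piC [(nat_lit 39120232), (nat_lit 25510466), (nat_lit 18971201), (nat_lit 12765436)] (nat_lit 23434072)) p14_13_0 (nat_lit 4) (nat_lit 121) (nat_lit 122) = true := by decide +kernel
def p14_13_0_122 : pfC (piC [(nat_lit 39120232), (nat_lit 25510466), (nat_lit 18971201), (nat_lit 12765436)] (nat_lit 23434072)) p14_13_0 (nat_lit 4) (nat_lit 122) (nat_lit 123) = true := by decide +kernel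
def p14_13_0_123 : pfC (piC [(nat_lit 39120232), (nat_lit 25510466), (nat_lit 18971201), (nat_lit 12765436)] (nat_lit 23434072)) p14_13_0 (nat_lit 4) (nat_lit 123) (nat_lit 124) = true := by decide +kernel
def p14_13_0_124 : pfC (piC [(nat_lit 39120232), (nat_lit 25510466), (nat_lit 18971201), (nat_lit 12765436)] (nat_lit 23434072)) p14_13_0 (nat_lit 4) (nat_lit 124) (nat_lit 125) = true := by decide +kernel
def p14_13_0_125 : pfC (piC [(nat_lit 39120232), (nat_lit 25510466), (nat_lit 18971201), (nat_lit 12765436)] (nat_lit 23434072)) p14_13_0 (nat_lit 4) (nat_lit 125) (nat_lit 126) = true := by decide +kernel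
def p14_13_0_126 : pfC (piC [(nat_lit 39120232), (nat_lit 25510466), (nat_lit 18971201), (nat_lit 12765436)] (nat_lit 23434072)) p14_13_0 (nat_lit 4) (nat_lit 126) (nat_lit 127) = true := by decide +kernel
def p14_13_0_127 : pfC (piC [(nat_lit 39120232), (nat_lit 25510466), (nat_lit 18971201), (nat_lit 12765436)] (nat_lit 23434072)) p14_13_0 (nat_lit 4) (nat_lit 127) (nat_lit 128) = true := by decide +kernel
def p14_13_0_128 : pfC (piC [(nat_lit 39120232), (nat_lit 25510466), (nat_lit 18971201), (nat_lit 12765436)] (nat_lit 23434072)) p14_13_0 (nat_lit 4) (nat_lit 128) (nat_lit 129) = true := by decide +kernel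
def p14_13_0_129 : pfC (piC [(nat_lit 39120232), (nat_lit 25510466), (nat_lit 18971201), (nat_lit 12765436)] (nat_lit 23434072)) p14_13_0 (nat_lit 4) (nat_lit 129) (nat_lit 130) = true := by decide +kernel
def p14_13_0_130 : pfC (piC [(nat_lit 39120232), (nat_lit 25510466), (nat_lit 18971201), (nat_lit 12765436)] (nat_lit 23434072)) p14_13_0 (nat_lit 4) (nat_lit 130) (nat_lit 131) = true := by decide +kernel
def p14_13_0_131 : pfC (piC [(nat_lit 39120232), (nat_lit 25510466), (nat_lit 18971201), (nat_lit 12765436)] (nat_lit 23434072)) p14_13_0 (nat_lit 4) (nat_lit 131) (nat_lit 132) = true := by decide +kernel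
def p14_13_0_132 : pfC (piC [(nat_lit 39120232), (nat_lit 25510466), (nat_lit 18971201), (nat_lit 12765436)] (nat_lit 23434072)) p14_13_0 (nat_lit 4) (nat_lit 132) (nat_lit 133) = true := by decide +kernel
def p14_13_0_133 : pfC (piC [(nat_lit 39120232), (nat_lit 25510466), (nat_lit 18971201), (nat_lit 12765436)] (nat_lit 23434072)) p14_13_0 (nat_lit 4) (nat_lit 133) (nat_lit 134) = true := by decide +kernel
def p14_13_0_134 : pfC (piC [(nat_lit 39120232), (nat_lit 25510466), (nat_lit 18971201), (nat_lit 12765436)] (nat_lit 23434072)) p14_13_0 (nat_lit 4) (nat_lit 134) (nat_lit 135) = true := by decide +kernel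
def p14_13_0_135 : pfC (piC [(nat_lit 39120232), (nat_lit 25510466), (nat_lit 18971201), (nat_lit 12765436)] (nat_lit 23434072)) p14_13_0 (nat_lit 4) (nat_lit 135) (nat_lit 136) = true := by decide +kernel
def p14_13_0_136 : pfC (piC [(nat_lit 39120232), (nat_lit 25510466), (nat_lit 18971201), (nat_lit 12765436)] (nat_lit 23434072)) p14_13_0 (nat_lit 4) (nat_lit 136) (nat_lit 137) = true := by decide +kernel
def p14_13_0_137 : pfC (piC [(nat_lit 39120232), (nat_lit 25510466), (nat_lit 18971201), (nat_lit 12765436)] (nat_lit 23434072)) p14_13_0 (nat_lit 4) (nat_lit 137) (nat_lit 138) = true := by decide +kernel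
def p14_13_0_138 : pfC (piC [(nat_lit 39120232), (nat_lit 25510466), (nat_lit 18971201), (nat_lit 12765436)] (nat_lit 23434072)) p14_13_0 (nat_lit 4) (nat_lit 138) (nat_lit 139) = true := by decide +kernel
def p14_13_0_139 : pfC (piC [(nat_lit 39120232), (nat_lit 25510466), (nat_lit 18971201), (nat_lit 12765436)] (nat_lit 23434072)) p14_13_0 (nat_lit 4) (nat_lit 139) (nat_lit 140) = true := by decide +kernel
def p14_13_0_140 : pfC (piC [(nat_lit 39120232), (nat_lit 25510466), (nat_lit 18971201), (nat_lit 12765436)] (nat_lit 23434072)) p14_13_0 (nat_lit 4) (nat_lit 140) (nat_lit 141) = true := by decide +kernel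
def p14_13_0_141 : pfC (piC [(nat_lit 39120232), (nat_lit 25510466), (nat_lit 18971201), (nat_lit 12765436)] (nat_lit 23434072)) p14_13_0 (nat_lit 4) (nat_lit 141) (nat_lit 142) = true := by decide +kernel
def p14_13_0_142 : pfC (piC [(nat_lit 39120232), (nat_lit 25510466), (nat_lit 18971201), (nat_lit 12765436)] (nat_lit 23434072)) p14_13_0 (nat_lit 4) (nat_lit 142) (nat_lit 143) = true := by decide +kernel
def p14_13_0_143 : pfC (piC [(nat_lit 39120232), (nat_lit 25510466), (nat_lit 18971201), (nat_lit 12765436)] (nat_lit 23434072)) p14_13_0 (nat_lit 4) (nat_lit 143) (nat_lit 144) = true := by decide +kernel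
def p14_13_0_144 : pfC (piC [(nat_lit 39120232), (nat_lit 25510466), (nat_lit 18971201), (nat_lit 12765436)] (nat_lit 23434072)) p14_13_0 (nat_lit 4) (nat_lit 144) (nat_lit 145) = true := by decide +kernel
def p14_13_0_145 : pfC (piC [(nat_lit 39120232), (nat_lit 25510466), (nat_lit 18971201), (nat_lit 12765436)] (nat_lit 23434072)) p14_13_0 (nat_lit 4) (nat_lit 145) (nat_lit 146) = true := by decide +kernel
def p14_13_0_146 : pfC (piC [(nat_lit 39120232), (nat_lit 25510466), (nat_lit 18971201), (nat_lit 12765436)] (nat_lit 23434072)) p14_13_0 (nat_lit 4) (nat_lit 146) (nat_lit 147) = true := by decide +kernel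
def p14_13_0_147 : pfC (piC [(nat_lit 39120232), (nat_lit 25510466), (nat_lit 18971201), (nat_lit 12765436)] (nat_lit 23434072)) p14_13_0 (nat_lit 4) (nat_lit 147) (nat_lit 148) = true := by decide +kernel
def p14_13_0_148 : pfC (piC [(nat_lit 39120232), (nat_lit 25510466), (nat_lit 18971201), (nat_lit 12765436)] (nat_lit 23434072)) p14_13_0 (nat_lit 4) (nat_lit 148) (nat_lit 149) = true := by decide +kernel
def p14_13_0_149 : pfC (piC [(nat_lit 39120232), (nat_lit 25510466), (nat_lit 18971201), (nat_lit 12765436)] (nat_lit 23434072)) p14_13_0 (nat_lit 4) (nat_lit 149) (nat_lit 150) = true := by decide +kernel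
def p14_13_0_150 : pfC (piC [(nat_lit 39120232), (nat_lit 25510466), (nat_lit 18971201), (nat_lit 12765436)] (nat_lit 23434072)) p14_13_0 (nat_lit 4) (nat_lit 150) (nat_lit 151) = true := by decide +kernel
def p14_13_0_151 : pfC (piC [(nat_lit 39120232), (nat_lit 25510466), (nat_lit 18971201), (nat_lit 12765436)] (nat_lit 23434072)) p14_13_0 (nat_lit 4) (nat_lit 151) (nat_lit 152) = true := by decide +kernel
def p14_13_0_152 : pfC (piC [(nat_lit 39120232), (nat_lit 25510466), (nat_lit 18971201), (nat_lit 12765436)] (nat_lit 23434072)) p14_13_0 (nat_lit 4) (nat_lit 152) (nat_lit 153) = true := by decide +kernel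
def p14_13_0_153 : pfC (piC [(nat_lit 39120232), (nat_lit 25510466), (nat_lit 18971201), (nat_lit 12765436)] (nat_lit 23434072)) p14_13_0 (nat_lit 4) (nat_lit 153) (nat_lit 154) = true := by decide +kernel
def p14_13_0_154 : pfC (piC [(nat_lit 39120232), (nat_lit 25510466), (nat_lit 18971201), (nat_lit 12765436)] (nat_lit 23434072)) p14_13_0 (nat_lit 4) (nat_lit 154) (nat_lit 155) = true := by decide +kernel
def p14_13_0_155 : pfC (piC [(nat_lit 39120232), (nat_lit 25510466), (nat_lit 18971201), (nat_lit 12765436)] (nat_lit 23434072)) p14_13_0 (nat_lit 4) (nat_lit 155) (nat_lit 156) = true := by decide +kernel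
def p14_13_0_156 : pfC (piC [(nat_lit 39120232), (nat_lit 25510466), (nat_lit 18971201), (nat_lit 12765436)] (nat_lit 23434072)) p14_13_0 (nat_lit 4) (nat_lit 156) (nat_lit 157) = true := by decide +kernel
def p14_13_0_157 : pfC (piC [(nat_lit 39120232), (nat_lit 25510466), (nat_lit 18971201), (nat_lit 12765436)] (nat_lit 23434072)) p14_13_0 (nat_lit 4) (nat_lit 157) (nat_lit 158) = true := by decide +kernel
def p14_13_0_158 : pfC (piC [(nat_lit 39120232), (nat_lit 25510466), (nat_lit 18971201), (nat_lit 12765436)] (nat_lit 23434072)) p14_13_0 (nat_lit 4) (nat_lit 158) (nat_lit 159) = true := by decide +kernel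
def p14_13_0_159 : pfC (piC [(nat_lit 39120232), (nat_lit 25510466), (nat_lit 18971201), (nat_lit 12765436)] (nat_lit 23434072)) p14_13_0 (nat_lit 4) (nat_lit 159) (nat_lit 160) = true := by decide +kernel
def p14_13_0_160 : pfC (piC [(nat_lit 39120232), (nat_lit 25510466), (nat_lit 18971201), (nat_lit 12765436)] (nat_lit 23434072)) p14_13_0 (nat_lit 4) (nat_lit 160) (nat_lit 161) = true := by decide +kernel
def p14_13_0_161 : pfC (piC [(nat_lit 39120232), (nat_lit 25510466), (nat_lit 18971201), (nat_lit 12765436)] (nat_lit 23434072)) p14_13_0 (nat_lit 4) (nat_lit 161) (nat_lit 162) = true := by decide +kernel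
def p14_13_0_162 : pfC (piC [(nat_lit 39120232), (nat_lit 25510466), (nat_lit 18971201), (nat_lit 12765436)] (nat_lit 23434072)) p14_13_0 (nat_lit 4) (nat_lit 162) (nat_lit 163) = true := by decide +kernel
def p14_13_0_163 : pfC (piC [(nat_lit 39120232), (nat_lit 25510466), (nat_lit 18971201), (nat_lit 12765436)] (nat_lit 23434072)) p14_13_0 (nat_lit 4) (nat_lit 163) (nat_lit 164) = true := by decide +kernel
def p14_13_0_164 : pfC (piC [(nat_lit 39120232), (nat_lit 25510466), (nat_lit 18971201), (nat_lit 12765436)] (nat_lit 23434072)) p14_13_0 (nat_lit 4) (nat_lit 164) (nat_lit 165) = true := by decide +kernel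
def p14_13_0_165 : pfC (piC [(nat_lit 39120232), (nat_lit 25510466), (nat_lit 18971201), (nat_lit 12765436)] (nat_lit 23434072)) p14_13_0 (nat_lit 4) (nat_lit 165) (nat_lit 166) = true := by decide +kernel
def p14_13_0_166 : pfC (piC [(nat_lit 39120232), (nat_lit 25510466), (nat_lit 18971201), (nat_lit 12765436)] (nat_lit 23434072)) p14_13_0 (nat_lit 4) (nat_lit 166) (nat_lit 167) = true := by decide +kernel
def p14_13_0_167 : pfC (piC [(nat_lit 39120232), (nat_lit 25510466), (nat_lit 18971201), (nat_lit 12765436)] (nat_lit 23434072)) p14_13_0 (nat_lit 4) (nat_lit 167) (nat_lit 168) = true := by decide +kernel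
def p14_13_0_168 : pfC (piC [(nat_lit 39120232), (nat_lit 25510466), (nat_lit 18971201), (nat_lit 12765436)] (nat_lit 23434072)) p14_13_0 (nat_lit 4) (nat_lit 168) (nat_lit 169) = true := by decide +kernel
def p14_13_0_169 : pfC (piC [(nat_lit 39120232), (nat_lit 25510466), (nat_lit 18971201), (nat_lit 12765436)] (nat_lit 23434072)) p14_13_0 (nat_lit 4) (nat_lit 169) (nat_lit 170) = true := by decide +kernel
def p14_13_0_170 : pfC (piC [(nat_lit 39120232), (nat_lit 25510466), (nat_lit 18971201), (nat_lit 12765436)] (nat_lit 23434072)) p14_13_0 (nat_lit 4) (nat_lit 170) (nat_lit 171) = true := by decide +kernel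
def p14_13_0_171 : pfC (piC [(nat_lit 39120232), (nat_lit 25510466), (nat_lit 18971201), (nat_lit 12765436)] (nat_lit 23434072)) p14_13_0 (nat_lit 4) (nat_lit 171) (nat_lit 172) = true := by decide +kernel
def p14_13_0_172 : pfC (piC [(nat_lit 39120232), (nat_lit 25510466), (nat_lit 18971201), (nat_lit 12765436)] (nat_lit 23434072)) p14_13_0 (nat_lit 4) (nat_lit 172) (nat_lit 173) = true := by decide +kernel
def p14_13_0_173 : pfC (piC [(nat_lit 39120232), (nat_lit 25510466), (nat_lit 18971201), (nat_lit 12765436)] (nat_lit 23434072)) p14_13_0 (nat_lit 4) (nat_lit 173) (nat_lit 174) = true := by decide +kernel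
def p14_13_0_174 : pfC (piC [(nat_lit 39120232), (nat_lit 25510466), (nat_lit 18971201), (nat_lit 12765436)] (nat_lit 23434072)) p14_13_0 (nat_lit 4) (nat_lit 174) (nat_lit 175) = true := by decide +kernel
def p14_13_0_175 : pfC (piC [(nat_lit 39120232), (nat_lit 25510466), (nat_lit 18971201), (nat_lit 12765436)] (nat_lit 23434072)) p14_13_0 (nat_lit 4) (nat_lit 175) (nat_lit 176) = true := by decide +kernel
def p14_13_0_176 : pfC (piC [(nat_lit 39120232), (nat_lit 25510466), (nat_lit 18971201), (nat_lit 12765436)] (nat_lit 23434072)) p14_13_0 (nat_lit 4) (nat_lit 176) (nat_lit 177) = true := by decide +kernel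
def p14_13_0_177 : pfC (piC [(nat_lit 39120232), (nat_lit 25510466), (nat_lit 18971201), (nat_lit 12765436)] (nat_lit 23434072)) p14_13_0 (nat_lit 4) (nat_lit 177) (nat_lit 178) = true := by decide +kernel
def p14_13_0_178 : pfC (piC [(nat_lit 39120232), (nat_lit 25510466), (nat_lit 18971201), (nat_lit 12765436)] (nat_lit 23434072)) p14_13_0 (nat_lit 4) (nat_lit 178) (nat_lit 179) = true := by decide +kernel
def p14_13_0_179 : pfC (piC [(nat_lit 39120232), (nat_lit 25510466), (nat_lit 18971201), (nat_lit 12765436)] (nat_lit 23434072)) p14_13_0 (nat_lit 4) (nat_lit 179) (nat_lit 180) = true := by decide +kernel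
def p14_13_0_180 : pfC (piC [(nat_lit 39120232), (nat_lit 25510466), (nat_lit 18971201), (nat_lit 12765436)] (nat_lit 23434072)) p14_13_0 (nat_lit 4) (nat_lit 180) (nat_lit 181) = true := by decide +kernel
def p14_13_0_181 : pfC (piC [(nat_lit 39120232), (nat_lit 25510466), (nat_lit 18971201), (nat_lit 12765436)] (nat_lit 23434072)) p14_13_0 (nat_lit 4) (nat_lit 181) (nat_lit 182) = true := by decide +kernel
def p14_13_0_182 : pfC (piC [(nat_lit 39120232), (nat_lit 25510466), (nat_lit 18971201), (nat_lit 12765436)] (nat_lit 23434072)) p14_13_0 (nat_lit 4) (nat_lit 182) (nat_lit 183) = true := by decide +kernel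
def p14_13_0_183 : pfC (piC [(nat_lit 39120232), (nat_lit 25510466), (nat_lit 18971201), (nat_lit 12765436)] (nat_lit 23434072)) p14_13_0 (nat_lit 4) (nat_lit 183) (nat_lit 184) = true := by decide +kernel
def p14_13_0_184 : pfC (piC [(nat_lit 39120232), (nat_lit 25510466), (nat_lit 18971201), (nat_lit 12765436)] (nat_lit 23434072)) p14_13_0 (nat_lit 4) (nat_lit 184) (nat_lit 185) = true := by decide +kernel
def p14_13_0_185 : pfC (piC [(nat_lit 39120232), (nat_lit 25510466), (nat_lit 18971201), (nat_lit 12765436)] (nat_lit 23434072)) p14_13_0 (nat_lit 4) (nat_lit 185) (nat_lit 186) = true := by decide +kernel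
def p14_13_0_186 : pfC (piC [(nat_lit 39120232), (nat_lit 25510466), (nat_lit 18971201), (nat_lit 12765436)] (nat_lit 23434072)) p14_13_0 (nat_lit 4) (nat_lit 186) (nat_lit 187) = true := by decide +kernel
def p14_13_0_187 : pfC (piC [(nat_lit 39120232), (nat_lit 25510466), (nat_lit 18971201), (nat_lit 12765436)] (nat_lit 23434072)) p14_13_0 (nat_lit 4) (nat_lit 187) (nat_lit 188) = true := by decide +kernel
def p14_13_0_188 : pfC (piC [(nat_lit 39120232), (nat_lit 25510466), (nat_lit 18971201), (nat_lit 12765436)] (nat_lit 23434072)) p14_13_0 (nat_lit 4) (nat_lit 188) (nat_lit 189) = true := by decide +kernel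
def p14_13_0_189 : pfC (piC [(nat_lit 39120232), (nat_lit 25510466), (nat_lit 18971201), (nat_lit 12765436)] (nat_lit 23434072)) p14_13_0 (nat_lit 4) (nat_lit 189) (nat_lit 190) = true := by decide +kernel
def p14_13_0_190 : pfC (piC [(nat_lit 39120232), (nat_lit 25510466), (nat_lit 18971201), (nat_lit 12765436)] (nat_lit 23434072)) p14_13_0 (nat_lit 4) (nat_lit 190) (nat_lit 191) = true := by decide +kernel
def p14_13_0_191 : pfC (piC [(nat_lit 39120232), (nat_lit 25510466), (nat_lit 18971201), (nat_lit 12765436)] (nat_lit 23434072)) p14_13_0 (nat_lit 4) (nat_lit 191) (nat_lit 192) = true := by decide +kernel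
def p14_13_0_192 : pfC (piC [(nat_lit 39120232), (nat_lit 25510466), (nat_lit 18971201), (nat_lit 12765436)] (nat_lit 23434072)) p14_13_0 (nat_lit 4) (nat_lit 192) (nat_lit 193) = true := by decide +kernel
def p14_13_0_193 : pfC (piC [(nat_lit 39120232), (nat_lit 25510466), (nat_lit 18971201), (nat_lit 12765436)] (nat_lit 23434072)) p14_13_0 (nat_lit 4) (nat_lit 193) (nat_lit 194) = true := by decide +kernel
def p14_13_0_194 : pfC (piC [(nat_lit 39120232), (nat_lit 25510466), (nat_lit 18971201), (nat_lit 12765436)] (nat_lit 23434072)) p14_13_0 (nat_lit 4) (nat_lit 194) (nat_lit 195) = true := by decide +kernel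
def p14_13_0_195 : pfC (piC [(nat_lit 39120232), (nat_lit 25510466), (nat_lit 18971201), (nat_lit 12765436)] (nat_lit 23434072)) p14_13_0 (nat_lit 4) (nat_lit 195) (nat_lit 196) = true := by decide +kernel
def p14_13_0_196 : pfC (piC [(nat_lit 39120232), (nat_lit 25510466), (nat_lit 18971201), (nat_lit 12765436)] (nat_lit 23434072)) p14_13_0 (nat_lit 4) (nat_lit 196) (nat_lit 197) = true := by decide +kernel
def p14_13_0_197 : pfC (piC [(nat_lit 39120232), (nat_lit 25510466), (nat_lit 18971201), (nat_lit 12765436)] (nat_lit 23434072)) p14_13_0 (nat_lit 4) (nat_lit 197) (nat_lit 198) = true := by decide +kernel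
def p14_13_0_198 : pfC (piC [(nat_lit 39120232), (nat_lit 25510466), (nat_lit 18971201), (nat_lit 12765436)] (nat_lit 23434072)) p14_13_0 (nat_lit 4) (nat_lit 198) (nat_lit 199) = true := by decide +kernel
def p14_13_0_199 : pfC (piC [(nat_lit 39120232), (nat_lit 25510466), (nat_lit 18971201), (nat_lit 12765436)] (nat_lit 23434072)) p14_13_0 (nat_lit 4) (nat_lit 199) (nat_lit 200) = true := by decide +kernel
def p14_13_0_200 : pfC (piC [(nat_lit 39120232), (nat_lit 25510466), (nat_lit 18971201), (nat_lit 12765436)] (nat_lit 23434072)) p14_13_0 (nat_lit 4) (nat_lit 200) (nat_lit 201) = true := by decide +kernel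
def p14_13_0_201 : pfC (piC [(nat_lit 39120232), (nat_lit 25510466), (nat_lit 18971201), (nat_lit 12765436)] (nat_lit 23434072)) p14_13_0 (nat_lit 4) (nat_lit 201) (nat_lit 202) = true := by decide +kernel
def p14_13_0_202 : pfC (piC [(nat_lit 39120232), (nat_lit 25510466), (nat_lit 18971201), (nat_lit 12765436)] (nat_lit 23434072)) p14_13_0 (nat_lit 4) (nat_lit 202) (nat_lit 203) = true := by decide +kernel
def p14_13_0_203 : pfC (piC [(nat_lit 39120232), (nat_lit 25510466), (nat_lit 18971201), (nat_lit 12765436)] (nat_lit 23434072)) p14_13_0 (nat_lit 4) (nat_lit 203) (nat_lit 204) = true := by decide +kernel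
def p14_13_0_204 : pfC (piC [(nat_lit 39120232), (nat_lit 25510466), (nat_lit 18971201), (nat_lit 12765436)] (nat_lit 23434072)) p14_13_0 (nat_lit 4) (nat_lit 204) (nat_lit 205) = true := by decide +kernel
def p14_13_0_205 : pfC (piC [(nat_lit 39120232), (nat_lit 25510466), (nat_lit 18971201), (nat_lit 12765436)] (nat_lit 23434072)) p14_13_0 (nat_lit 4) (nat_lit 205) (nat_lit 206) = true := by decide +kernel
def p14_13_0_206 : pfC (piC [(nat_lit 39120232), (nat_lit 25510466), (nat_lit 18971201), (nat_lit 12765436)] (nat_lit 23434072)) p14_13_0 (nat_lit 4) (nat_lit 206) (nat_lit 207) = true := by decide +kernel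
def p14_13_0_207 : pfC (piC [(nat_lit 39120232), (nat_lit 25510466), (nat_lit 18971201), (nat_lit 12765436)] (nat_lit 23434072)) p14_13_0 (nat_lit 4) (nat_lit 207) (nat_lit 208) = true := by decide +kernel
def p14_13_0_208 : pfC (piC [(nat_lit 39120232), (nat_lit 25510466), (nat_lit 18971201), (nat_lit 12765436)] (nat_lit 23434072)) p14_13_0 (nat_lit 4) (nat_lit 208) (nat_lit 209) = true := by decide +kernel
def p14_13_0_209 : pfC (piC [(nat_lit 39120232), (nat_lit 25510466), (nat_lit 18971201), (nat_lit 12765436)] (nat_lit 23434072)) p14_13_0 (nat_lit 4) (nat_lit 209) (nat_lit 210) = true := by decide +kernel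
def p14_13_0_210 : pfC (piC [(nat_lit 39120232), (nat_lit 25510466), (nat_lit 18971201), (nat_lit 12765436)] (nat_lit 23434072)) p14_13_0 (nat_lit 4) (nat_lit 210) (nat_lit 211) = true := by decide +kernel
def p14_13_0_211 : pfC (piC [(nat_lit 39120232), (nat_lit 25510466), (nat_lit 18971201), (nat_lit 12765436)] (nat_lit 23434072)) p14_13_0 (nat_lit 4) (nat_lit 211) (nat_lit 212) = true := by decide +kernel
def p14_13_0_212 : pfC (piC [(nat_lit 39120232), (nat_lit 25510466), (nat_lit 18971201), (nat_lit 12765436)] (nat_lit 23434072)) p14_13_0 (nat_lit 4) (nat_lit 212) (nat_lit 213) = true := by decide +kernel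
def p14_13_0_213 : pfC (piC [(nat_lit 39120232), (nat_lit 25510466), (nat_lit 18971201), (nat_lit 12765436)] (nat_lit 23434072)) p14_13_0 (nat_lit 4) (nat_lit 213) (nat_lit 214) = true := by decide +kernel
def p14_13_0_214 : pfC (piC [(nat_lit 39120232), (nat_lit 25510466), (nat_lit 18971201), (nat_lit 12765436)] (nat_lit 23434072)) p14_13_0 (nat_lit 4) (nat_lit 214) (nat_lit 215) = true := by decide +kernel
def p14_13_0_215 : pfC (piC [(nat_lit 39120232), (nat_lit 25510466), (nat_lit 18971201), (nat_lit 12765436)] (nat_lit 23434072)) p14_13_0 (nat_lit 4) (nat_lit 215) (nat_lit 216) = true := by decide +kernel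
def p14_13_0_216 : pfC (piC [(nat_lit 39120232), (nat_lit 25510466), (nat_lit 18971201), (nat_lit 12765436)] (nat_lit 23434072)) p14_13_0 (nat_lit 4) (nat_lit 216) (nat_lit 217) = true := by decide +kernel
def p14_13_0_217 : pfC (piC [(nat_lit 39120232), (nat_lit 25510466), (nat_lit 18971201), (nat_lit 12765436)] (nat_lit 23434072)) p14_13_0 (nat_lit 4) (nat_lit 217) (nat_lit 218) = true := by decide +kernel
def p14_13_0_218 : pfC (piC [(nat_lit 39120232), (nat_lit 25510466), (nat_lit 18971201), (nat_lit 12765436)] (nat_lit 23434072)) p14_13_0 (nat_lit 4) (nat_lit 218) (nat_lit 219) = true := by decide +kernel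
def p14_13_0_219 : pfC (piC [(nat_lit 39120232), (nat_lit 25510466), (nat_lit 18971201), (nat_lit 12765436)] (nat_lit 23434072)) p14_13_0 (nat_lit 4) (nat_lit 219) (nat_lit 220) = true := by decide +kernel
def p14_13_0_220 : pfC (piC [(nat_lit 39120232), (nat_lit 25510466), (nat_lit 18971201), (nat_lit 12765436)] (nat_lit 23434072)) p14_13_0 (nat_lit 4) (nat_lit 220) (nat_lit 221) = true := by decide +kernel
def p14_13_0_221 : pfC (piC [(nat_lit 39120232), (nat_lit 25510466), (nat_lit 18971201), (nat_lit 12765436)] (nat_lit 23434072)) p14_13_0 (nat_lit 4) (nat_lit 221) (nat_lit 222) = true := by decide +kernel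
def p14_13_0_222 : pfC (piC [(nat_lit 39120232), (nat_lit 25510466), (nat_lit 18971201), (nat_lit 12765436)] (nat_lit 23434072)) p14_13_0 (nat_lit 4) (nat_lit 222) (nat_lit 223) = true := by decide +kernel
def p14_13_0_223 : pfC (piC [(nat_lit 39120232), (nat_lit 25510466), (nat_lit 18971201), (nat_lit 12765436)] (nat_lit 23434072)) p14_13_0 (nat_lit 4) (nat_lit 223) (nat_lit 224) = true := by decide +kernel
def p14_13_0_224 : pfC (piC [(nat_lit 39120232), (nat_lit 25510466), (nat_lit 18971201), (nat_lit 12765436)] (nat_lit 23434072)) p14_13_0 (nat_lit 4) (nat_lit 224) (nat_lit 225) = true := by decide +kernel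
def p14_13_0_225 : pfC (piC [(nat_lit 39120232), (nat_lit 25510466), (nat_lit 18971201), (nat_lit 12765436)] (nat_lit 23434072)) p14_13_0 (nat_lit 4) (nat_lit 225) (nat_lit 226) = true := by decide +kernel
def p14_13_0_226 : pfC (piC [(nat_lit 39120232), (nat_lit 25510466), (nat_lit 18971201), (nat_lit 12765436)] (nat_lit 23434072)) p14_13_0 (nat_lit 4) (nat_lit 226) (nat_lit 227) = true := by decide +kernel
def p14_13_0_227 : pfC (piC [(nat_lit 39120232), (nat_lit 25510466), (nat_lit 18971201), (nat_lit 12765436)] (nat_lit 23434072)) p14_13_0 (nat_lit 4) (nat_lit 227) (nat_lit 228) = true := by decide +kernel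
def p14_13_0_228 : pfC (piC [(nat_lit 39120232), (nat_lit 25510466), (nat_lit 18971201), (nat_lit 12765436)] (nat_lit 23434072)) p14_13_0 (nat_lit 4) (nat_lit 228) (nat_lit 229) = true := by decide +kernel
def p14_13_0_229 : pfC (piC [(nat_lit 39120232), (nat_lit 25510466), (nat_lit 18971201), (nat_lit 12765436)] (nat_lit 23434072)) p14_13_0 (nat_lit 4) (nat_lit 229) (nat_lit 230) = true := by decide +kernel
def p14_13_0_230 : pfC (piC [(nat_lit 39120232), (nat_lit 25510466), (nat_lit 18971201), (nat_lit 12765436)] (nat_lit 23434072)) p14_13_0 (nat_lit 4) (nat_lit 230) (nat_lit 231) = true := by decide +kernel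
def p14_13_0_231 : pfC (piC [(nat_lit 39120232), (nat_lit 25510466), (nat_lit 18971201), (nat_lit 12765436)] (nat_lit 23434072)) p14_13_0 (nat_lit 4) (nat_lit 231) (nat_lit 232) = true := by decide +kernel
def p14_13_0_232 : pfC (piC [(nat_lit 39120232), (nat_lit 25510466), (nat_lit 18971201), (nat_lit 12765436)] (nat_lit 23434072)) p14_13_0 (nat_lit 4) (nat_lit 232) (nat_lit 233) = true := by decide +kernel
def p14_13_0_233 : pfC (piC [(nat_lit 39120232), (nat_lit 25510466), (nat_lit 18971201), (nat_lit 12765436)] (nat_lit 23434072)) p14_13_0 (nat_lit 4) (nat_lit 233) (nat_lit 234) = true := by decide +kernel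
def p14_13_0_234 : pfC (piC [(nat_lit 39120232), (nat_lit 25510466), (nat_lit 18971201), (nat_lit 12765436)] (nat_lit 23434072)) p14_13_0 (nat_lit 4) (nat_lit 234) (nat_lit 235) = true := by decide +kernel
def p14_13_0_235 : pfC (piC [(nat_lit 39120232), (nat_lit 25510466), (nat_lit 18971201), (nat_lit 12765436)] (nat_lit 23434072)) p14_13_0 (nat_lit 4) (nat_lit 235) (nat_lit 236) = true := by decide +kernel
def p14_13_0_236 : pfC (piC [(nat_lit 39120232), (nat_lit 25510466), (nat_lit 18971201), (nat_lit 12765436)] (nat_lit 23434072)) p14_13_0 (nat_lit 4) (nat_lit 236) (nat_lit 237) = true := by decide +kernel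
def p14_13_0_237 : pfC (piC [(nat_lit 39120232), (nat_lit 25510466), (nat_lit 18971201), (nat_lit 12765436)] (nat_lit 23434072)) p14_13_0 (nat_lit 4) (nat_lit 237) (nat_lit 238) = true := by decide +kernel
def p14_13_0_238 : pfC (piC [(nat_lit 39120232), (nat_lit 25510466), (nat_lit 18971201), (nat_lit 12765436)] (nat_lit 23434072)) p14_13_0 (nat_lit 4) (nat_lit 238) (nat_lit 239) = true := by decide +kernel
def p14_13_0_239 : pfC (piC [(nat_lit 39120232), (nat_lit 25510466), (nat_lit 18971201), (nat_lit 12765436)] (nat_lit 23434072)) p14_13_0 (nat_lit 4) (nat_lit 239) (nat_lit 240) = true := by decide +kernel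
def p14_13_0_240 : pfC (piC [(nat_lit 39120232), (nat_lit 25510466), (nat_lit 18971201), (nat_lit 12765436)] (nat_lit 23434072)) p14_13_0 (nat_lit 4) (nat_lit 240) (nat_lit 241) = true := by decide +kernel
def p14_13_0_241 : pfC (piC [(nat_lit 39120232), (nat_lit 25510466), (nat_lit 18971201), (nat_lit 12765436)] (nat_lit 23434072)) p14_13_0 (nat_lit 4) (nat_lit 241) (nat_lit 242) = true := by decide +kernel
def p14_13_0_242 : pfC (piC [(nat_lit 39120232), (nat_lit 25510466), (nat_lit 18971201), (nat_lit 12765436)] (nat_lit 23434072)) p14_13_0 (nat_lit 4) (nat_lit 242) (nat_lit 243) = true := by decide +kernel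
def p14_13_0_243 : pfC (piC [(nat_lit 39120232), (nat_lit 25510466), (nat_lit 18971201), (nat_lit 12765436)] (nat_lit 23434072)) p14_13_0 (nat_lit 4) (nat_lit 243) (nat_lit 244) = true := by decide +kernel
def p14_13_0_244 : pfC (piC [(nat_lit 39120232), (nat_lit 25510466), (nat_lit 18971201), (nat_lit 12765436)] (nat_lit 23434072)) p14_13_0 (nat_lit 4) (nat_lit 244) (nat_lit 245) = true := by decide +kernel
def p14_13_0_245 : pfC (piC [(nat_lit 39120232), (nat_lit 25510466), (nat_lit 18971201), (nat_lit 12765436)] (nat_lit 23434072)) p14_13_0 (nat_lit 4) (nat_lit 245) (nat_lit 246) = true := by decide +kernel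
def p14_13_0_246 : pfC (piC [(nat_lit 39120232), (nat_lit 25510466), (nat_lit 18971201), (nat_lit 12765436)] (nat_lit 23434072)) p14_13_0 (nat_lit 4) (nat_lit 246) (nat_lit 247) = true := by decide +kernel
def p14_13_0_247 : pfC (piC [(nat_lit 39120232), (nat_lit 25510466), (nat_lit 18971201), (nat_lit 12765436)] (nat_lit 23434072)) p14_13_0 (nat_lit 4) (nat_lit 247) (nat_lit 248) = true := by decide +kernel
def p14_13_0_248 : pfC (piC [(nat_lit 39120232), (nat_lit 25510466), (nat_lit 18971201), (nat_lit 12765436)] (nat_lit 23434072)) p14_13_0 (nat_lit 4) (nat_lit 248) (nat_lit 249) = true := by decide +kernel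
def p14_13_0_249 : pfC (piC [(nat_lit 39120232), (nat_lit 25510466), (nat_lit 18971201), (nat_lit 12765436)] (nat_lit 23434072)) p14_13_0 (nat_lit 4) (nat_lit 249) (nat_lit 250) = true := by decide +kernel
def p14_13_0_250 : pfC (piC [(nat_lit 39120232), (nat_lit 25510466), (nat_lit 18971201), (nat_lit 12765436)] (nat_lit 23434072)) p14_13_0 (nat_lit 4) (nat_lit 250) (nat_lit 251) = true := by decide +kernel
def p14_13_0_251 : pfC (piC [(nat_lit 39120232), (nat_lit 25510466), (nat_lit 18971201), (nat_lit 12765436)] (nat_lit 23434072)) p14_13_0 (nat_lit 4) (nat_lit 251) (nat_lit 252) = true := by decide +kernel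
def p14_13_0_252 : pfC (piC [(nat_lit 39120232), (nat_lit 25510466), (nat_lit 18971201), (nat_lit 12765436)] (nat_lit 23434072)) p14_13_0 (nat_lit 4) (nat_lit 252) (nat_lit 253) = true := by decide +kernel
def p14_13_0_253 : pfC (piC [(nat_lit 39120232), (nat_lit 25510466), (nat_lit 18971201), (nat_lit 12765436)] (nat_lit 23434072)) p14_13_0 (nat_lit 4) (nat_lit 253) (nat_lit 254) = true := by decide +kernel
def p14_13_0_254 : pfC (piC [(nat_lit 39120232), (nat_lit 25510466), (nat_lit 18971201), (nat_lit 12765436)] (nat_lit 23434072)) p14_13_0 (nat_lit 4) (nat_lit 254) (nat_lit 255) = true := by decide +kernel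
def p14_13_0_255 : pfC (piC [(nat_lit 39120232), (nat_lit 25510466), (nat_lit 18971201), (nat_lit 12765436)] (nat_lit 23434072)) p14_13_0 (nat_lit 4) (nat_lit 255) (nat_lit 256) = true := by decide +kernel
def p14_13_0_256 : pfC (piC [(nat_lit 39120232), (nat_lit 25510466), (nat_lit 18971201), (nat_lit 12765436)] (nat_lit 23434072)) p14_13_0 (nat_lit 4) (nat_lit 256) (nat_lit 257) = true := by decide +kernel
def p14_13_0_257 : pfC (piC [(nat_lit 39120232), (nat_lit 25510466), (nat_lit 18971201), (nat_lit 12765436)] (nat_lit 23434072)) p14_13_0 (nat_lit 4) (nat_lit 257) (nat_lit 258) = true := by decide +kernel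
def p14_13_0_258 : pfC (piC [(nat_lit 39120232), (nat_lit 25510466), (nat_lit 18971201), (nat_lit 12765436)] (nat_lit 23434072)) p14_13_0 (nat_lit 4) (nat_lit 258) (nat_lit 259) = true := by decide +kernel
def p14_13_0_259 : pfC (piC [(nat_lit 39120232), (nat_lit 25510466), (nat_lit 18971201), (nat_lit 12765436)] (nat_lit 23434072)) p14_13_0 (nat_lit 4) (nat_lit 259) (nat_lit 260) = true := by decide +kernel
def p14_13_0_260 : pfC (piC [(nat_lit 39120232), (nat_lit 25510466), (nat_lit 18971201), (nat_lit 12765436)] (nat_lit 23434072)) p14_13_0 (nat_lit 4) (nat_lit 260) (nat_lit 261) = true := by decide +kernel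
def p14_13_0_261 : pfC (piC [(nat_lit 39120232), (nat_lit 25510466), (nat_lit 18971201), (nat_lit 12765436)] (nat_lit 23434072)) p14_13_0 (nat_lit 4) (nat_lit 261) (nat_lit 262) = true := by decide +kernel
def p14_13_0_262 : pfC (piC [(nat_lit 39120232), (nat_lit 25510466), (nat_lit 18971201), (nat_lit 12765436)] (nat_lit 23434072)) p14_13_0 (nat_lit 4) (nat_lit 262) (nat_lit 263) = true := by decide +kernel
def p14_13_0_263 : pfC (piC [(nat_lit 39120232), (nat_lit 25510466), (nat_lit 18971201), (nat_lit 12765436)] (nat_lit 23434072)) p14_13_0 (nat_lit 4) (nat_lit 263) (nat_lit 264) = true := by decide +kernel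
def p14_13_0_264 : pfC (piC [(nat_lit 39120232), (nat_lit 25510466), (nat_lit 18971201), (nat_lit 12765436)] (nat_lit 23434072)) p14_13_0 (nat_lit 4) (nat_lit 264) (nat_lit 265) = true := by decide +kernel
def p14_13_0_265 : pfC (piC [(nat_lit 39120232), (nat_lit 25510466), (nat_lit 18971201), (nat_lit 12765436)] (nat_lit 23434072)) p14_13_0 (nat_lit 4) (nat_lit 265) (nat_lit 266) = true := by decide +kernel
def p14_13_0_266 : pfC (piC [(nat_lit 39120232), (nat_lit 25510466), (nat_lit 18971201), (nat_lit 12765436)] (nat_lit 23434072)) p14_13_0 (nat_lit 4) (nat_lit 266) (nat_lit 267) = true := by decide +kernel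
def p14_13_0_267 : pfC (piC [(nat_lit 39120232), (nat_lit 25510466), (nat_lit 18971201), (nat_lit 12765436)] (nat_lit 23434072)) p14_13_0 (nat_lit 4) (nat_lit 267) (nat_lit 268) = true := by decide +kernel
def p14_13_0_268 : pfC (piC [(nat_lit 39120232), (nat_lit 25510466), (nat_lit 18971201), (nat_lit 12765436)] (nat_lit 23434072)) p14_13_0 (nat_lit 4) (nat_lit 268) (nat_lit 269) = true := by decide +kernel
def p14_13_0_269 : pfC (piC [(nat_lit 39120232), (nat_lit 25510466), (nat_lit 18971201), (nat_lit 12765436)] (nat_lit 23434072)) p14_13_0 (nat_lit 4) (nat_lit 269) (nat_lit 270) = true := by decide +kernel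
def p14_13_0_270 : pfC (piC [(nat_lit 39120232), (nat_lit 25510466), (nat_lit 18971201), (nat_lit 12765436)] (nat_lit 23434072)) p14_13_0 (nat_lit 4) (nat_lit 270) (nat_lit 271) = true := by decide +kernel
theorem p14_13_0_T : PfS (PiF n14_13.reverse (nat_lit 23434072)) p14_13_0 (nat_lit 4) [] 0 :=
  pftab_of (los := [(nat_lit 39120232), (nat_lit 25510466), (nat_lit 18971201), (nat_lit 12765436)]) (by decide +kernel) (hi := (nat_lit 271)) (PfP.trans (PfP.trans (PfP.trans (PfP.trans (PfP.trans (PfP.trans (PfP.trans (PfP.trans (PfP.trans (PfP.trans (PfP.trans (PfP.trans (PfP.trans (PfP.trans (PfP.trans (PfP.trans (PfP.trans (PfP.trans (PfP.trans (PfP.trans (PfP.trans (PfP.trans (PfP.trans (PfP.trans (PfP.trans (PfP.trans (PfP.trans (PfP.trans (PfP.trans (PfP.trans (PfP.trans (PfP.trans (PfP.trans (PfP.trans (PfP.trans (PfP.trans (PfP.trans (PfP.trans (PfP.trans (PfP.trans (PfP.trans (PfP.trans (PfP.trans (PfP.trans (PfP.trans (PfP.trans (PfP.trans (PfP.trans (PfP.trans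 (PfP.trans (PfP.trans (PfP.trans (PfP.trans (PfP.trans (PfP.trans (PfP.trans (PfP.trans (PfP.trans (PfP.trans (PfP.trans (PfP.trans (PfP.trans (PfP.trans (PfP.trans (PfP.trans (PfP.trans (PfP.trans (PfP.trans (PfP.trans (PfP.trans (PfP.trans (PfP.trans (PfP.trans (PfP.trans (PfP.trans (PfP.trans (PfP.trans (PfP.trans (PfP.trans (PfP.trans (PfP.trans (PfP.trans (PfP.trans (PfP.trans (PfP.trans (PfP.trans (PfP.trans (PfP.trans (PfP.trans (PfP.trans (PfP.trans (PfP.trans (PfP.trans (PfP.trans (PfP.trans (PfP.trans (PfP.trans (PfP.trans (PfP.trans (PfP.trans (PfP.trans (PfP.trans (PfP.trans (PfP.trans (PfP.trans (PfP.trans (PfP.trans (PfP.trans (PfP.trans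
 (PfP.trans (PfP.trans (PfP.trans (PfP.trans (PfP.trans (PfP.trans (PfP.trans (PfP.trans (PfP.trans (PfP.trans (PfP.trans (PfP.trans (PfP.trans (PfP.trans (PfP.trans (PfP.trans (PfP.trans (PfP.trans (PfP.trans (PfP.trans (PfP.trans (PfP.trans (PfP.trans (PfP.trans (PfP.trans (PfP.trans (PfP.trans (PfP.trans (PfP.trans (PfP.trans (PfP.trans (PfP.trans (PfP.trans (PfP.trans (PfP.trans (PfP.trans (PfP.trans (PfP.trans (PfP.trans (PfP.trans (PfP.trans (PfP.trans (PfP.trans (PfP.trans (PfP.trans (PfP.trans (PfP.trans (PfP.trans (PfP.trans (PfP.trans (PfP.trans (PfP.trans (PfP.trans (PfP.trans (PfP.trans (PfP.trans (PfP.trans (PfP.trans (PfP.trans (PfP.trans (PfP.trans (PfP.trans (PfP.trans (PfP.trans (PfP.trans (PfP.trans (PfP.trans (PfP.trans (PfP.trans (PfP.trans (PfP.trans (PfP.trans (PfP.trans (PfP.trans (PfP.trans (PfP.trans (PfP.trans (PfP.trans (PfP.trans (PfP.trans (PfP.trans (PfP.trans (PfP.trans (PfP.trans (PfP.trans (PfP.trans (PfP.trans (PfP.trans (PfP.trans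 (PfP.trans (PfP.trans (PfP.trans (PfP.trans (PfP.trans (PfP.trans (PfP.trans (PfP.trans (PfP.trans (PfP.trans (PfP.trans (PfP.trans (PfP.trans (PfP.trans (PfP.trans (PfP.trans (PfP.trans (PfP.trans (PfP.trans (PfP.trans
 (PfP.trans (PfP.trans (PfP.trans (PfP.trans (PfP.trans (PfP.trans (PfP.trans (PfP.trans (PfP.trans (PfP.trans (PfP.trans (PfP.trans (PfP.trans (PfP.trans (PfP.trans (PfP.trans (PfP.trans (PfP.trans (PfP.trans (PfP.trans (PfP.trans (PfP.trans (PfP.trans (PfP.trans (PfP.trans (PfP.trans (PfP.trans (PfP.trans (PfP.trans (PfP.trans (PfP.trans (PfP.trans (PfP.trans (PfP.trans (PfP.trans (PfP.trans (PfP.trans (PfP.trans (PfP.trans (PfP.trans (PfP.trans (PfP.trans (PfP.trans (PfP.trans (PfP.trans (PfP.trans (PfP.trans (PfP.trans (PfP.trans (PfP.trans (PfP.trans (PfP.trans (pfC_sound p14_13_0_0) (pfC_sound p14_13_0_1)) (pfC_sound p14_13_0_2)) (pfC_sound p14_13_0_3)) (pfC_sound p14_13_0_4)) (pfC_sound p14_13_0_5)) (pfC_sound p14_13_0_6)) (pfC_sound p14_13_0_7))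 (pfC_sound p14_13_0_8)) (pfC_sound p14_13_0_9)) (pfC_sound p14_13_0_10)) (pfC_sound p14_13_0_11)) (pfC_sound p14_13_0_12)) (pfC_sound p14_13_0_13)) (pfC_sound p14_13_0_14)) (pfC_sound p14_13_0_15)) (pfC_sound p14_13_0_16)) (pfC_sound p14_13_0_17)) (pfC_sound p14_13_0_18)) (pfC_sound p14_13_0_19)) (pfC_sound p14_13_0_20)) (pfC_sound p14_13_0_21)) (pfC_sound p14_13_0_22)) (pfC_sound p14_13_0_23)) (pfC_sound p14_13_0_24)) (pfC_sound
 p14_13_0_25)) (pfC_sound p14_13_0_26)) (pfC_sound p14_13_0_27)) (pfC_sound p14_13_0_28)) (pfC_sound p14_13_0_29)) (pfC_sound p14_13_0_30)) (pfC_sound p14_13_0_31)) (pfC_sound p14_13_0_32)) (pfC_sound p14_13_0_33)) (pfC_sound p14_13_0_34)) (pfC_sound p14_13_0_35)) (pfC_sound p14_13_0_36)) (pfC_sound p14_13_0_37)) (pfC_sound p14_13_0_38)) (pfC_sound p14_13_0_39)) (pfC_sound p14_13_0_40)) (pfC_sound p14_13_0_41)) (pfC_sound p14_13_0_42)) (pfC_sound p14_13_0_43)) (pfC_sound p14_13_0_44)) (pfC_sound p14_13_0_45)) (pfC_sound p14_13_0_46)) (pfC_sound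 p14_13_0_47)) (pfC_sound p14_13_0_48)) (pfC_sound p14_13_0_49)) (pfC_sound p14_13_0_50)) (pfC_sound p14_13_0_51)) (pfC_sound p14_13_0_52)) (pfC_sound p14_13_0_53)) (pfC_sound p14_13_0_54)) (pfC_sound p14_13_0_55)) (pfC_sound p14_13_0_56)) (pfC_sound p14_13_0_57)) (pfC_sound p14_13_0_58)) (pfC_sound p14_13_0_59)) (pfC_sound p14_13_0_60)) (pfC_sound p14_13_0_61)) (pfC_sound p14_13_0_62)) (pfC_sound p14_13_0_63)) (pfC_sound p14_13_0_64)) (pfC_sound p14_13_0_65)) (pfC_sound p14_13_0_66)) (pfC_sound p14_13_0_67)) (pfC_sound p14_13_0_68)) (pfC_sound p14_13_0_69)) (pfC_sound p14_13_0_70)) (pfC_sound p14_13_0_71)) (pfC_sound p14_13_0_72)) (pfC_sound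
 p14_13_0_73)) (pfC_sound p14_13_0_74)) (pfC_sound p14_13_0_75)) (pfC_sound p14_13_0_76)) (pfC_sound p14_13_0_77)) (pfC_sound p14_13_0_78)) (pfC_sound p14_13_0_79)) (pfC_sound p14_13_0_80)) (pfC_sound p14_13_0_81)) (pfC_sound p14_13_0_82)) (pfC_sound p14_13_0_83)) (pfC_sound p14_13_0_84)) (pfC_sound p14_13_0_85)) (pfC_sound p14_13_0_86)) (pfC_sound p14_13_0_87)) (pfC_sound p14_13_0_88)) (pfC_sound p14_13_0_89)) (pfC_sound p14_13_0_90)) (pfC_sound p14_13_0_91)) (pfC_sound p14_13_0_92)) (pfC_sound p14_13_0_93)) (pfC_sound p14_13_0_94)) (pfC_sound p14_13_0_95)) (pfC_sound p14_13_0_96)) (pfC_sound p14_13_0_97)) (pfC_sound p14_13_0_98)) (pfC_sound p14_13_0_99)) (pfC_sound p14_13_0_100)) (pfC_sound p14_13_0_101)) (pfC_sound p14_13_0_102)) (pfC_sound p14_13_0_103)) (pfC_sound p14_13_0_104)) (pfC_sound p14_13_0_105)) (pfC_sound p14_13_0_106)) (pfC_sound p14_13_0_107)) (pfC_sound p14_13_0_108)) (pfC_sound p14_13_0_109)) (pfC_sound p14_13_0_110)) (pfC_sound p14_13_0_111)) (pfC_sound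 p14_13_0_112)) (pfC_sound p14_13_0_113)) (pfC_sound p14_13_0_114)) (pfC_sound p14_13_0_115)) (pfC_sound p14_13_0_116)) (pfC_sound p14_13_0_117)) (pfC_sound p14_13_0_118)) (pfC_sound p14_13_0_119)) (pfC_sound
 p14_13_0_120)) (pfC_sound p14_13_0_121)) (pfC_sound p14_13_0_122)) (pfC_sound p14_13_0_123)) (pfC_sound p14_13_0_124)) (pfC_sound p14_13_0_125)) (pfC_sound p14_13_0_126)) (pfC_sound p14_13_0_127)) (pfC_sound p14_13_0_128)) (pfC_sound p14_13_0_129)) (pfC_sound p14_13_0_130)) (pfC_sound p14_13_0_131)) (pfC_sound p14_13_0_132)) (pfC_sound p14_13_0_133)) (pfC_sound p14_13_0_134)) (pfC_sound p14_13_0_135)) (pfC_sound p14_13_0_136)) (pfC_sound p14_13_0_137)) (pfC_sound p14_13_0_138)) (pfC_sound p14_13_0_139)) (pfC_sound p14_13_0_140)) (pfC_sound p14_13_0_141)) (pfC_sound p14_13_0_142)) (pfC_sound p14_13_0_143)) (pfC_sound p14_13_0_144)) (pfC_sound p14_13_0_145)) (pfC_sound p14_13_0_146)) (pfC_sound p14_13_0_147)) (pfC_sound p14_13_0_148)) (pfC_sound p14_13_0_149)) (pfC_sound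 p14_13_0_150)) (pfC_sound p14_13_0_151)) (pfC_sound p14_13_0_152)) (pfC_sound p14_13_0_153)) (pfC_sound p14_13_0_154)) (pfC_sound p14_13_0_155)) (pfC_sound p14_13_0_156)) (pfC_sound p14_13_0_157)) (pfC_sound p14_13_0_158)) (pfC_sound p14_13_0_159)) (pfC_sound p14_13_0_160)) (pfC_sound p14_13_0_161)) (pfC_sound p14_13_0_162)) (pfC_sound p14_13_0_163)) (pfC_sound p14_13_0_164)) (pfC_sound p14_13_0_165)) (pfC_sound
 p14_13_0_166)) (pfC_sound p14_13_0_167)) (pfC_sound p14_13_0_168)) (pfC_sound p14_13_0_169)) (pfC_sound p14_13_0_170)) (pfC_sound p14_13_0_171)) (pfC_sound p14_13_0_172)) (pfC_sound p14_13_0_173)) (pfC_sound p14_13_0_174)) (pfC_sound p14_13_0_175)) (pfC_sound p14_13_0_176)) (pfC_sound p14_13_0_177)) (pfC_sound p14_13_0_178)) (pfC_sound p14_13_0_179)) (pfC_sound p14_13_0_180)) (pfC_sound p14_13_0_181)) (pfC_sound p14_13_0_182)) (pfC_sound p14_13_0_183)) (pfC_sound p14_13_0_184)) (pfC_sound p14_13_0_185)) (pfC_sound p14_13_0_186)) (pfC_sound p14_13_0_187)) (pfC_sound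 p14_13_0_188)) (pfC_sound p14_13_0_189)) (pfC_sound p14_13_0_190)) (pfC_sound p14_13_0_191)) (pfC_sound p14_13_0_192)) (pfC_sound p14_13_0_193)) (pfC_sound p14_13_0_194)) (pfC_sound p14_13_0_195)) (pfC_sound p14_13_0_196)) (pfC_sound p14_13_0_197)) (pfC_sound p14_13_0_198)) (pfC_sound p14_13_0_199)) (pfC_sound p14_13_0_200)) (pfC_sound p14_13_0_201)) (pfC_sound p14_13_0_202)) (pfC_sound p14_13_0_203)) (pfC_sound p14_13_0_204)) (pfC_sound p14_13_0_205)) (pfC_sound p14_13_0_206)) (pfC_sound p14_13_0_207)) (pfC_sound p14_13_0_208)) (pfC_sound p14_13_0_209)) (pfC_sound p14_13_0_210)) (pfC_sound p14_13_0_211)) (pfC_sound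
 p14_13_0_212)) (pfC_sound p14_13_0_213)) (pfC_sound p14_13_0_214)) (pfC_sound p14_13_0_215)) (pfC_sound p14_13_0_216)) (pfC_sound p14_13_0_217)) (pfC_sound p14_13_0_218)) (pfC_sound p14_13_0_219)) (pfC_sound p14_13_0_220)) (pfC_sound p14_13_0_221)) (pfC_sound p14_13_0_222)) (pfC_sound p14_13_0_223)) (pfC_sound p14_13_0_224)) (pfC_sound p14_13_0_225)) (pfC_sound p14_13_0_226)) (pfC_sound p14_13_0_227)) (pfC_sound p14_13_0_228)) (pfC_sound p14_13_0_229)) (pfC_sound p14_13_0_230)) (pfC_sound p14_13_0_231)) (pfC_sound p14_13_0_232)) (pfC_sound p14_13_0_233)) (pfC_sound p14_13_0_234)) (pfC_sound p14_13_0_235)) (pfC_sound p14_13_0_236)) (pfC_sound p14_13_0_237)) (pfC_sound p14_13_0_238)) (pfC_sound p14_13_0_239)) (pfC_sound p14_13_0_240)) (pfC_sound p14_13_0_241)) (pfC_sound p14_13_0_242)) (pfC_sound p14_13_0_243)) (pfC_sound p14_13_0_244)) (pfC_sound p14_13_0_245)) (pfC_sound p14_13_0_246)) (pfC_sound p14_13_0_247)) (pfC_sound p14_13_0_248)) (pfC_sound p14_13_0_249)) (pfC_sound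 p14_13_0_250)) (pfC_sound p14_13_0_251)) (pfC_sound p14_13_0_252)) (pfC_sound p14_13_0_253)) (pfC_sound p14_13_0_254)) (pfC_sound p14_13_0_255)) (pfC_sound p14_13_0_256)) (pfC_sound p14_13_0_257)) (pfC_sound
 p14_13_0_258)) (pfC_sound p14_13_0_259)) (pfC_sound p14_13_0_260)) (pfC_sound p14_13_0_261)) (pfC_sound p14_13_0_262)) (pfC_sound p14_13_0_263)) (pfC_sound p14_13_0_264)) (pfC_sound p14_13_0_265)) (pfC_sound p14_13_0_266)) (pfC_sound p14_13_0_267)) (pfC_sound p14_13_0_268)) (pfC_sound p14_13_0_269)) (pfC_sound p14_13_0_270)) (by decide +kernel)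

def z14_13_0 : zOK yB14_13 (nat_lit 0) (nat_lit 0) (nat_lit 400) (nat_lit 23434072) (nat_lit 10555529) = true := by decide +kernel
def g14_13_0 : gOK yB14_13.x P14_13 (nat_lit 1421) (q14_13 :: r14_13) (nat_lit 0) (nat_lit 0) (nat_lit 1) (nat_lit 400) (nat_lit 0) (nat_lit 11000000) (nat_lit 12712500) (nat_lit 12712500) [(nat_lit 800), (nat_lit 1400), (nat_lit 2200)] = true := by decide +kernel
def v14_13_0 : ivC P14_13 s14_13 w14_13 n14_13 (nat_lit 4) (nat_lit 5400) (nat_lit 0) (nat_lit 0) f160_1_0 f168_1_0 (nat_lit 1) (nat_lit 400) f160_1_400 f168_1_400 (nat_lit 23434072) (nat_lit 10555529) p14_13_0 = true := by decide +kernel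
def p14_13_1 : PF := (PF.cons (PF.cons (PF.cons (PF.cons (PF.leaf (nat_lit 2100172) (nat_lit 9963219) (nat_lit 57145593) (nat_lit 9963219) [(nat_lit 0), (nat_lit 0), (nat_lit 0), (nat_lit 0)]) (PF.cons (PF.leaf (nat_lit 2264145) (nat_lit 279334) (nat_lit 56843667) (nat_lit 9985810) [(nat_lit 279334), (nat_lit 0), (nat_lit 0), (nat_lit 0)]) (PF.cons (PF.leaf (nat_lit 2458620) (nat_lit 304185) (nat_lit 56490261) (nat_lit 10010179) [(nat_lit 304185), (nat_lit 0), (nat_lit 0), (nat_lit 0)]) (PF.cons (PF.leaf (nat_lit 2677353) (nat_lit 326365) (nat_lit 56094791) (nat_lit 10034923) [(nat_lit 326365), (nat_lit 0), (nat_lit 0), (nat_lit 0)]) (PF.cons (PF.leaf (nat_lit 2917088) (nat_lit 346470) (nat_lit 55663950) (nat_lit 10058980) [(nat_lit 346470), (nat_lit 0), (nat_lit 0), (nat_lit 0)]) (PF.cons (PF.leaf (nat_lit 3175149) (nat_lit 364873) (nat_lit 55202926) (nat_lit 10081519) [(nat_lit 364873), (nat_lit 0), (nat_lit 0), (nat_lit 0)]) (PF.cons (PF.leaf (nat_lit 3449459) (nat_lit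 381827) (nat_lit 54715964) (nat_lit 10101883) [(nat_lit 381827), (nat_lit 0), (nat_lit 0), (nat_lit 0)]) (PF.cons (PF.leaf (nat_lit 3738213) (nat_lit 397511) (nat_lit 54206672) (nat_lit 10119557) [(nat_lit 397511), (nat_lit 0),
 (nat_lit 0), (nat_lit 0)]) (PF.cons (PF.leaf (nat_lit 4039822) (nat_lit 412060) (nat_lit 53678188) (nat_lit 10134142) [(nat_lit 412060), (nat_lit 0), (nat_lit 0), (nat_lit 0)]) (PF.cons PF.nil PF.nil)))))))))) (PF.cons (PF.cons (PF.leaf (nat_lit 2660651) (nat_lit 1278050) (nat_lit 55784830) (nat_lit 10045931) [(nat_lit 0), (nat_lit 1278050), (nat_lit 0), (nat_lit 0)]) (PF.cons (PF.leaf (nat_lit 2873778) (nat_lit 337905) (nat_lit 55392592) (nat_lit 10066006) [(nat_lit 337905), (nat_lit 1312308), (nat_lit 0), (nat_lit 0)]) (PF.cons (PF.leaf (nat_lit 3110051) (nat_lit 357287) (nat_lit 54962970) (nat_lit 10085332) [(nat_lit 357287), (nat_lit 1345935), (nat_lit 0), (nat_lit 0)]) (PF.cons (PF.leaf (nat_lit 3365346) (nat_lit 374953) (nat_lit 54502481)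 (nat_lit 10103075) [(nat_lit 374953), (nat_lit 1378395), (nat_lit 0), (nat_lit 0)]) (PF.cons (PF.leaf (nat_lit 3637179) (nat_lit 391184) (nat_lit 54016059) (nat_lit 10118606) [(nat_lit 391184), (nat_lit 1409409), (nat_lit 0), (nat_lit 0)]) (PF.cons (PF.leaf (nat_lit 3923534) (nat_lit 406170) (nat_lit 53507680) (nat_lit 10131447) [(nat_lit 406170), (nat_lit 1438830), (nat_lit 0), (nat_lit 0)]) (PF.cons (PF.leaf (nat_lit 4222691) (nat_lit
 420050) (nat_lit 52980685) (nat_lit 10141235) [(nat_lit 420050), (nat_lit 1466588), (nat_lit 0), (nat_lit 0)]) (PF.cons PF.nil (PF.cons PF.nil PF.nil))))))))) (PF.cons (PF.cons (PF.leaf (nat_lit 3306895) (nat_lit 1379307) (nat_lit 54245003) (nat_lit 10105193) [(nat_lit 0), (nat_lit 1379307), (nat_lit 0), (nat_lit 0)]) (PF.cons (PF.leaf (nat_lit 3556967) (nat_lit 383711) (nat_lit 53789844) (nat_lit 10118243) [(nat_lit 383711), (nat_lit 1408506), (nat_lit 0), (nat_lit 0)]) (PF.cons (PF.leaf (nat_lit 3825043) (nat_lit 399404) (nat_lit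 53307616) (nat_lit 10129105) [(nat_lit 399404), (nat_lit 1436640), (nat_lit 0), (nat_lit 0)]) (PF.cons (PF.leaf (nat_lit 4108041) (nat_lit 413832) (nat_lit 52803058) (nat_lit 10137317) [(nat_lit 413832), (nat_lit 1463470), (nat_lit 0), (nat_lit 0)]) (PF.cons (PF.leaf (nat_lit 4404008) (nat_lit 427150) (nat_lit 52279936) (nat_lit 10142544) [(nat_lit 427150), (nat_lit 1488865), (nat_lit 0), (nat_lit 0)]) (PF.cons (PF.leaf (nat_lit 4711310) (nat_lit 439474) (nat_lit 51741372) (nat_lit 10144546) [(nat_lit 439474), (nat_lit 1512759), (nat_lit 0), (nat_lit 0)]) (PF.cons PF.nil PF.nil))))))) (PF.cons (PF.cons (PF.leaf (nat_lit 4014604) (nat_lit 1461512)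
 (nat_lit 52590743) (nat_lit 10133530) [(nat_lit 0), (nat_lit 1461512), (nat_lit 0), (nat_lit 0)]) (PF.cons (PF.leaf (nat_lit 4292487) (nat_lit 420524) (nat_lit 52093206) (nat_lit 10137361) [(nat_lit 420524), (nat_lit 1485906), (nat_lit 0), (nat_lit 0)]) (PF.cons (PF.leaf (nat_lit 4584348) (nat_lit 433392) (nat_lit 51576472) (nat_lit 10138291) [(nat_lit 433392), (nat_lit 1509088), (nat_lit 0), (nat_lit 0)]) (PF.cons (PF.leaf (nat_lit 4887826) (nat_lit 445251) (nat_lit 51044113) (nat_lit 10136099) [(nat_lit 445251), (nat_lit 1530948), (nat_lit 0), (nat_lit 0)]) (PF.cons PF.nil PF.nil))))) (PF.cons (PF.cons (PF.leaf (nat_lit 4764930) (nat_lit 1527428) (nat_lit 50870415) (nat_lit 10128682) [(nat_lit 0), (nat_lit 1527428), (nat_lit 0), (nat_lit 0)]) (PF.cons (PF.leaf (nat_lit 5063245) (nat_lit 450274) (nat_lit 50346462) (nat_lit 10122594) [(nat_lit 450274), (nat_lit 1547370), (nat_lit 0), (nat_lit 0)]) (PF.cons (PF.leaf (nat_lit 5372375) (nat_lit 460834) (nat_lit 49809446)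 (nat_lit 10113365) [(nat_lit 460834), (nat_lit 1566082), (nat_lit 0), (nat_lit 0)]) (PF.cons PF.nil PF.nil)))) (PF.cons (PF.cons (PF.leaf (nat_lit 5542672) (nat_lit 1579194) (nat_lit 49121293) (nat_lit 10091544)
 [(nat_lit 0), (nat_lit 1579194), (nat_lit 0), (nat_lit 0)]) (PF.cons PF.nil PF.nil)) (PF.cons PF.nil (PF.cons PF.nil PF.nil)))))))) (PF.cons (PF.cons (PF.cons (PF.leaf (nat_lit 3243165) (nat_lit 3364988) (nat_lit 53654102) (nat_lit 10089721) [(nat_lit 0), (nat_lit 0), (nat_lit 3364988), (nat_lit 0)]) (PF.cons (PF.leaf (nat_lit 3466904) (nat_lit 364279) (nat_lit 53249254) (nat_lit 10099083) [(nat_lit 364279), (nat_lit 0), (nat_lit 3396194), (nat_lit 0)]) (PF.cons (PF.leaf (nat_lit 3712621) (nat_lit 382402) (nat_lit 52809621) (nat_lit 10106875) [(nat_lit 382402), (nat_lit 0), (nat_lit 3427511), (nat_lit 0)]) (PF.cons (PF.leaf (nat_lit 3976032) (nat_lit 398672) (nat_lit 52342097) (nat_lit 10112537) [(nat_lit 398672), (nat_lit 0), (nat_lit 3458161), (nat_lit 0)])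 (PF.cons (PF.leaf (nat_lit 4254541) (nat_lit 413436) (nat_lit 51851771) (nat_lit 10115665) [(nat_lit 413436), (nat_lit 0), (nat_lit 3487630), (nat_lit 0)]) (PF.cons (PF.leaf (nat_lit 4546080) (nat_lit 426926) (nat_lit 51342646) (nat_lit 10115962) [(nat_lit 426926), (nat_lit 0), (nat_lit 3515570), (nat_lit 0)]) (PF.cons (PF.leaf (nat_lit 4848947) (nat_lit 439306) (nat_lit 50818005) (nat_lit 10113219) [(nat_lit 439306),
 (nat_lit 0), (nat_lit 3541747), (nat_lit 0)]) (PF.cons PF.nil (PF.cons PF.nil PF.nil))))))))) (PF.cons (PF.cons (PF.leaf (nat_lit 3904768) (nat_lit 1443310) (nat_lit 52094323) (nat_lit 10108314) [(nat_lit 0), (nat_lit 1443310), (nat_lit 3462863), (nat_lit 0)]) (PF.cons (PF.leaf (nat_lit 4161718) (nat_lit 405186) (nat_lit 51635946) (nat_lit 10110036) [(nat_lit 405186), (nat_lit 1467868), (nat_lit 3489775), (nat_lit 0)]) (PF.cons (PF.leaf (nat_lit 4435332) (nat_lit 419573) (nat_lit 51153289) (nat_lit 10109258) [(nat_lit 419573), (nat_lit 1491351), (nat_lit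 3515767), (nat_lit 0)]) (PF.cons (PF.leaf (nat_lit 4722521) (nat_lit 432643) (nat_lit 50651143) (nat_lit 10105709) [(nat_lit 432643), (nat_lit 1513583), (nat_lit 3540445), (nat_lit 0)]) (PF.cons (PF.leaf (nat_lit 5021368) (nat_lit 444587) (nat_lit 50133236) (nat_lit 10099203) [(nat_lit 444587), (nat_lit 1534473), (nat_lit 3563548), (nat_lit 0)]) (PF.cons PF.nil (PF.cons PF.nil PF.nil))))))) (PF.cons (PF.cons (PF.leaf (nat_lit 4617643) (nat_lit 1510237) (nat_lit 50450135) (nat_lit 10097621) [(nat_lit 0), (nat_lit 1510237), (nat_lit 3540579), (nat_lit 0)]) (PF.cons (PF.leaf (nat_lit 4898877) (nat_lit 437521) (nat_lit 49957719)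
 (nat_lit 10090521) [(nat_lit 437521), (nat_lit 1530442), (nat_lit 3562165), (nat_lit 0)]) (PF.cons (PF.leaf (nat_lit 5192835) (nat_lit 449130) (nat_lit 49448659) (nat_lit 10080542) [(nat_lit 449130), (nat_lit 1549490), (nat_lit 3582369), (nat_lit 0)]) (PF.cons (PF.leaf (nat_lit 5497188) (nat_lit 459722) (nat_lit 48926444) (nat_lit 10067589) [(nat_lit 459722), (nat_lit 1567306), (nat_lit 3600999), (nat_lit 0)]) (PF.cons PF.nil PF.nil))))) (PF.cons (PF.cons (PF.leaf (nat_lit 5364526) (nat_lit 1562964) (nat_lit 48764103) (nat_lit 10057412) [(nat_lit 0), (nat_lit 1562964), (nat_lit 3598403), (nat_lit 0)]) (PF.cons (PF.leaf (nat_lit 5663151) (nat_lit 463251) (nat_lit 48252169) (nat_lit 10041386) [(nat_lit 463251), (nat_lit 1579179), (nat_lit 3614465), (nat_lit 0)]) (PF.cons (PF.leaf (nat_lit 5971445) (nat_lit 472644) (nat_lit 47729330) (nat_lit 10022443) [(nat_lit 472644), (nat_lit 1594255), (nat_lit 3628983), (nat_lit 0)]) (PF.cons PF.nil PF.nil)))) (PF.cons (PF.cons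 (PF.leaf (nat_lit 6131884) (nat_lit 1603384) (nat_lit 47067979) (nat_lit 9989571) [(nat_lit 0), (nat_lit 1603384), (nat_lit 3637722), (nat_lit 0)]) (PF.cons PF.nil PF.nil)) (PF.cons PF.nil PF.nil)))))) (PF.cons (PF.cons
 (PF.cons (PF.leaf (nat_lit 4490250) (nat_lit 3525332) (nat_lit 49993119) (nat_lit 10065028) [(nat_lit 0), (nat_lit 0), (nat_lit 3525332), (nat_lit 0)]) (PF.cons (PF.leaf (nat_lit 4751426) (nat_lit 422140) (nat_lit 49538439) (nat_lit 10057087) [(nat_lit 422140), (nat_lit 0), (nat_lit 3545573), (nat_lit 0)]) (PF.cons (PF.leaf (nat_lit 5028106) (nat_lit 435340) (nat_lit 49061981) (nat_lit 10046496) [(nat_lit 435340), (nat_lit 0), (nat_lit 3564826), (nat_lit 0)]) (PF.cons (PF.leaf (nat_lit 5317190) (nat_lit 447197) (nat_lit 48568490) (nat_lit 10033137) [(nat_lit 447197), (nat_lit 0), (nat_lit 3582796), (nat_lit 0)]) (PF.cons (PF.leaf (nat_lit 5616729) (nat_lit 457922) (nat_lit 48061594) (nat_lit 10016944) [(nat_lit 457922), (nat_lit 0), (nat_lit 3599291),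 (nat_lit 0)]) (PF.cons PF.nil (PF.cons PF.nil PF.nil))))))) (PF.cons (PF.cons (PF.leaf (nat_lit 5202464) (nat_lit 1545484) (nat_lit 48379755) (nat_lit 10021891) [(nat_lit 0), (nat_lit 1545484), (nat_lit 3580840), (nat_lit 0)]) (PF.cons (PF.leaf (nat_lit 5484964) (nat_lit 450569) (nat_lit 47897818) (nat_lit 10005756) [(nat_lit 450569), (nat_lit 1562132), (nat_lit 3596267), (nat_lit 0)]) (PF.cons (PF.leaf (nat_lit 5779086) (nat_lit
 461056) (nat_lit 47401414) (nat_lit 9986844) [(nat_lit 461056), (nat_lit 1577677), (nat_lit 3610382), (nat_lit 0)]) (PF.cons (PF.leaf (nat_lit 6082532) (nat_lit 470529) (nat_lit 46893902) (nat_lit 9965155) [(nat_lit 470529), (nat_lit 1592074), (nat_lit 3623045), (nat_lit 0)]) (PF.cons PF.nil PF.nil))))) (PF.cons (PF.cons (PF.leaf (nat_lit 5941691) (nat_lit 1587166) (nat_lit 46743061) (nat_lit 9953061) [(nat_lit 0), (nat_lit 1587166), (nat_lit 3619178), (nat_lit 0)]) (PF.cons (PF.leaf (nat_lit 6239021) (nat_lit 472820) (nat_lit 46247022) (nat_lit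 9929026) [(nat_lit 472820), (nat_lit 1600228), (nat_lit 3629743), (nat_lit 0)]) (PF.cons PF.nil (PF.cons PF.nil PF.nil)))) (PF.cons (PF.cons (PF.leaf (nat_lit 6695842) (nat_lit 1618108) (nat_lit 45110071) (nat_lit 9860943) [(nat_lit 0), (nat_lit 1618108), (nat_lit 3641736), (nat_lit 0)]) (PF.cons PF.nil PF.nil)) (PF.cons PF.nil PF.nil))))) (PF.cons (PF.cons (PF.cons (PF.leaf (nat_lit 5767290) (nat_lit 3600400) (nat_lit 46392677) (nat_lit 9914935) [(nat_lit 0), (nat_lit 0), (nat_lit 3600400), (nat_lit 0)]) (PF.cons (PF.leaf (nat_lit 6049407) (nat_lit 460324) (nat_lit 45924909) (nat_lit 9891472) [(nat_lit 460324), (nat_lit 0), (nat_lit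
 3610701), (nat_lit 0)]) (PF.cons (PF.leaf (nat_lit 6342213) (nat_lit 469811) (nat_lit 45444517) (nat_lit 9865377) [(nat_lit 469811), (nat_lit 0), (nat_lit 3619764), (nat_lit 0)]) (PF.cons PF.nil PF.nil)))) (PF.cons (PF.cons (PF.leaf (nat_lit 6495800) (nat_lit 1602128) (nat_lit 44815134) (nat_lit 9823364) [(nat_lit 0), (nat_lit 1602128), (nat_lit 3622728), (nat_lit 0)]) (PF.cons (PF.leaf (nat_lit 6790650) (nat_lit 479560) (nat_lit 44337475) (nat_lit 9792990) [(nat_lit 479560), (nat_lit 1612519), (nat_lit 3628755), (nat_lit 0)]) PF.nil)) (PF.cons PF.nil PF.nil))) (PF.cons (PF.cons (PF.cons (PF.leaf (nat_lit 7026889) (nat_lit 3612560) (nat_lit 42983865) (nat_lit 9674703) [(nat_lit 0), (nat_lit 0), (nat_lit 3612560), (nat_lit 0)]) (PF.cons (PF.leaf (nat_lit 7318360) (nat_lit 483956) (nat_lit 42526037) (nat_lit 9639407) [(nat_lit 483956), (nat_lit 0), (nat_lit 3614852), (nat_lit 0)]) PF.nil)) (PF.cons PF.nil PF.nil)) (PF.cons PF.nil (PF.cons PF.nil (PF.cons PF.nil PF.nil))))))))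 (PF.cons (PF.cons (PF.cons (PF.cons (PF.leaf (nat_lit 4264612) (nat_lit 9284052) (nat_lit 47982865) (nat_lit 9841894) [(nat_lit 0), (nat_lit 0), (nat_lit 0), (nat_lit 9284052)]) (PF.cons (PF.leaf (nat_lit
 4486714) (nat_lit 378614) (nat_lit 47617654) (nat_lit 9833648) [(nat_lit 378614), (nat_lit 0), (nat_lit 0), (nat_lit 9278895)]) (PF.cons (PF.leaf (nat_lit 4729060) (nat_lit 395473) (nat_lit 47223065) (nat_lit 9823110) [(nat_lit 395473), (nat_lit 0), (nat_lit 0), (nat_lit 9271690)]) (PF.cons (PF.leaf (nat_lit 4987300) (nat_lit 410283) (nat_lit 46805518) (nat_lit 9810168) [(nat_lit 410283), (nat_lit 0), (nat_lit 0), (nat_lit 9262275)]) (PF.cons (PF.leaf (nat_lit 5258783) (nat_lit 423457) (nat_lit 46369695) (nat_lit 9794747) [(nat_lit 423457), (nat_lit 0), (nat_lit 0), (nat_lit 9250538)]) (PF.cons (PF.leaf (nat_lit 5541481) (nat_lit 435274) (nat_lit 45919220) (nat_lit 9776805) [(nat_lit 435274), (nat_lit 0), (nat_lit 0), (nat_lit 9236412)]) (PF.cons (PF.leaf (nat_lit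 5833712) (nat_lit 445935) (nat_lit 45457008) (nat_lit 9756328) [(nat_lit 445935), (nat_lit 0), (nat_lit 0), (nat_lit 9219862)]) (PF.cons (PF.leaf (nat_lit 6134085) (nat_lit 455589) (nat_lit 44985475) (nat_lit 9733329) [(nat_lit 455589), (nat_lit 0), (nat_lit 0), (nat_lit 9200884)]) (PF.cons PF.nil PF.nil))))))))) (PF.cons (PF.cons (PF.leaf (nat_lit 4903902) (nat_lit 1468788) (nat_lit 46591345) (nat_lit 9797473) [(nat_lit
 0), (nat_lit 1468788), (nat_lit 0), (nat_lit 9251206)]) (PF.cons (PF.leaf (nat_lit 5154682) (nat_lit 414391) (nat_lit 46184525) (nat_lit 9782321) [(nat_lit 414391), (nat_lit 1488065), (nat_lit 0), (nat_lit 9239507)]) (PF.cons (PF.leaf (nat_lit 5420383) (nat_lit 427284) (nat_lit 45757940) (nat_lit 9764670) [(nat_lit 427284), (nat_lit 1506150), (nat_lit 0), (nat_lit 9225483)]) (PF.cons (PF.leaf (nat_lit 5697954) (nat_lit 438780) (nat_lit 45315903) (nat_lit 9744516) [(nat_lit 438780), (nat_lit 1522954), (nat_lit 0), (nat_lit 9209099)]) (PF.cons (PF.leaf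 (nat_lit 5985489) (nat_lit 449105) (nat_lit 44861717) (nat_lit 9721874) [(nat_lit 449105), (nat_lit 1538454), (nat_lit 0), (nat_lit 9190345)]) (PF.cons (PF.leaf (nat_lit 6281444) (nat_lit 458422) (nat_lit 44398023) (nat_lit 9696779) [(nat_lit 458422), (nat_lit 1552664), (nat_lit 0), (nat_lit 9169235)]) (PF.cons PF.nil PF.nil))))))) (PF.cons (PF.cons (PF.leaf (nat_lit 5583398) (nat_lit 1517884) (nat_lit 45144858) (nat_lit 9731145) [(nat_lit 0), (nat_lit 1517884), (nat_lit 0), (nat_lit 9197039)]) (PF.cons (PF.leaf (nat_lit 5854392) (nat_lit 441577) (nat_lit 44713357) (nat_lit 9709063) [(nat_lit 441577), (nat_lit 1533074), (nat_lit 0),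
 (nat_lit 9178664)]) (PF.cons (PF.leaf (nat_lit 6136564) (nat_lit 451666) (nat_lit 44268757) (nat_lit 9684512) [(nat_lit 451666), (nat_lit 1547129), (nat_lit 0), (nat_lit 9157949)]) (PF.cons (PF.leaf (nat_lit 6427608) (nat_lit 460722) (nat_lit 43814100) (nat_lit 9657554) [(nat_lit 460722), (nat_lit 1560029), (nat_lit 0), (nat_lit 9134931)]) (PF.cons (PF.leaf (nat_lit 6726086) (nat_lit 468884) (nat_lit 43351793) (nat_lit 9628255) [(nat_lit 468884), (nat_lit 1571781), (nat_lit 0), (nat_lit 9109662)]) PF.nil))))) (PF.cons (PF.cons (PF.leaf (nat_lit 6288041) (nat_lit 1554660) (nat_lit 43677725) (nat_lit 9644334) [(nat_lit 0), (nat_lit 1554660), (nat_lit 0), (nat_lit 9122772)]) (PF.cons (PF.leaf (nat_lit 6573080) (nat_lit 462492) (nat_lit 43233473) (nat_lit 9615763) [(nat_lit 462492), (nat_lit 1566332), (nat_lit 0), (nat_lit 9098086)]) (PF.cons (PF.leaf (nat_lit 6866467) (nat_lit 470448) (nat_lit 42780928) (nat_lit 9584894) [(nat_lit 470448), (nat_lit 1576965), (nat_lit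 0), (nat_lit 9071196)]) (PF.cons PF.nil PF.nil)))) (PF.cons (PF.cons (PF.leaf (nat_lit 7006615) (nat_lit 1581234) (nat_lit 42214084) (nat_lit 9539288) [(nat_lit 0), (nat_lit 1581234), (nat_lit 0), (nat_lit 9030502)])
 (PF.cons (PF.leaf (nat_lit 7300962) (nat_lit 478534) (nat_lit 41765716) (nat_lit 9504924) [(nat_lit 478534), (nat_lit 1589874), (nat_lit 0), (nat_lit 9000139)]) PF.nil)) (PF.cons PF.nil PF.nil)))))) (PF.cons (PF.cons (PF.cons (PF.leaf (nat_lit 5438385) (nat_lit 3492870) (nat_lit 44766397) (nat_lit 9690466) [(nat_lit 0), (nat_lit 0), (nat_lit 3492870), (nat_lit 9159078)]) (PF.cons (PF.leaf (nat_lit 5690933) (nat_lit 425774) (nat_lit 44367940) (nat_lit 9669334) [(nat_lit 425774), (nat_lit 0), (nat_lit 3504340), (nat_lit 9141422)]) (PF.cons (PF.leaf (nat_lit 5957445) (nat_lit 437599) (nat_lit 43951703) (nat_lit 9645691) [(nat_lit 437599), (nat_lit 0), (nat_lit 3514795), (nat_lit 9121422)]) (PF.cons (PF.leaf (nat_lit 6234861) (nat_lit 448038) (nat_lit 43521868)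 (nat_lit 9619627) [(nat_lit 448038), (nat_lit 0), (nat_lit 3524068), (nat_lit 9099133)]) (PF.cons (PF.leaf (nat_lit 6521318) (nat_lit 457329) (nat_lit 43081594) (nat_lit 9591224) [(nat_lit 457329), (nat_lit 0), (nat_lit 3532059), (nat_lit 9074614)]) (PF.cons (PF.leaf (nat_lit 6815323) (nat_lit 465645) (nat_lit 42633371) (nat_lit 9560567) [(nat_lit 465645), (nat_lit 0), (nat_lit 3538718), (nat_lit 9047929)]) (PF.cons PF.nil
 PF.nil))))))) (PF.cons (PF.cons (PF.leaf (nat_lit 6112833) (nat_lit 1536242) (nat_lit 43362518) (nat_lit 9604822) [(nat_lit 0), (nat_lit 1536242), (nat_lit 3519629), (nat_lit 9085599)]) (PF.cons (PF.leaf (nat_lit 6383339) (nat_lit 449706) (nat_lit 42944104) (nat_lit 9577362) [(nat_lit 449706), (nat_lit 1548674), (nat_lit 3527121), (nat_lit 9061843)]) (PF.cons (PF.leaf (nat_lit 6664145) (nat_lit 458847) (nat_lit 42514187) (nat_lit 9547559) [(nat_lit 458847), (nat_lit 1560050), (nat_lit 3533455), (nat_lit 9035864)]) (PF.cons (PF.leaf (nat_lit 6953004)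 (nat_lit 466979) (nat_lit 42075659) (nat_lit 9515529) [(nat_lit 466979), (nat_lit 1570364), (nat_lit 3538566), (nat_lit 9007754)]) (PF.cons PF.nil PF.nil))))) (PF.cons (PF.cons (PF.leaf (nat_lit 6807514) (nat_lit 1564766) (nat_lit 41949588) (nat_lit 9501590) [(nat_lit 0), (nat_lit 1564766), (nat_lit 3533264), (nat_lit 8994836)]) (PF.cons (PF.leaf (nat_lit 7090189) (nat_lit 467846) (nat_lit 41521939) (nat_lit 9468423) [(nat_lit 467846), (nat_lit 1574067), (nat_lit 3536942), (nat_lit 8965525)]) (PF.cons (PF.leaf (nat_lit 7380456) (nat_lit 474972) (nat_lit 41087219) (nat_lit 9433157) [(nat_lit 474972), (nat_lit 1582414), (nat_lit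
 3539462), (nat_lit 8934200)]) (PF.cons PF.nil PF.nil)))) (PF.cons (PF.cons (PF.leaf (nat_lit 7512359) (nat_lit 1584436) (nat_lit 40548134) (nat_lit 9383142) [(nat_lit 0), (nat_lit 1584436), (nat_lit 3535215), (nat_lit 8889011)]) (PF.cons PF.nil PF.nil)) (PF.cons PF.nil PF.nil))))) (PF.cons (PF.cons (PF.cons (PF.leaf (nat_lit 6623627) (nat_lit 3513164) (nat_lit 41663064) (nat_lit 9461971) [(nat_lit 0), (nat_lit 0), (nat_lit 3513164), (nat_lit 8957448)]) (PF.cons (PF.leaf (nat_lit 6892604) (nat_lit 455458) (nat_lit 41259497) (nat_lit 9430251) [(nat_lit 455458), (nat_lit 0), (nat_lit 3517099), (nat_lit 8929406)]) (PF.cons (PF.leaf (nat_lit 7171125) (nat_lit 463762) (nat_lit 40845778) (nat_lit 9396329) [(nat_lit 463762), (nat_lit 0), (nat_lit 3519954), (nat_lit 8899272)]) (PF.cons (PF.leaf (nat_lit 7457004) (nat_lit 471081) (nat_lit 40424644) (nat_lit 9360359) [(nat_lit 471081), (nat_lit 0), (nat_lit 3521693), (nat_lit 8867178)]) (PF.cons PF.nil PF.nil))))) (PF.cons (PF.cons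 (PF.leaf (nat_lit 7306652) (nat_lit 1568607) (nat_lit 40308328) (nat_lit 9346059) [(nat_lit 0), (nat_lit 1568607), (nat_lit 3515981), (nat_lit 8853855)]) (PF.cons (PF.leaf (nat_lit 7586235) (nat_lit 471205)
 (nat_lit 39898252) (nat_lit 9309354) [(nat_lit 471205), (nat_lit 1575904), (nat_lit 3516570), (nat_lit 8820954)]) (PF.cons PF.nil (PF.cons PF.nil PF.nil)))) (PF.cons (PF.cons (PF.leaf (nat_lit 7996843) (nat_lit 1582520) (nat_lit 38970697) (nat_lit 9217578) [(nat_lit 0), (nat_lit 1582520), (nat_lit 3508858), (nat_lit 8737778)]) (PF.cons PF.nil PF.nil)) PF.nil))) (PF.cons (PF.cons (PF.cons (PF.leaf (nat_lit 7785933) (nat_lit 3490163) (nat_lit 38753253) (nat_lit 9181526) [(nat_lit 0), (nat_lit 0), (nat_lit 3490163), (nat_lit 8703541)]) (PF.cons (PF.leaf (nat_lit 8061871) (nat_lit 472914) (nat_lit 38361152) (nat_lit 9142168) [(nat_lit 472914), (nat_lit 0), (nat_lit 3488219), (nat_lit 8667920)]) (PF.cons PF.nil PF.nil))) (PF.cons (PF.cons (PF.leaf (nat_lit 8460923)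 (nat_lit 1576478) (nat_lit 37479492) (nat_lit 9045794) [(nat_lit 0), (nat_lit 1576478), (nat_lit 3475701), (nat_lit 8579943)]) PF.nil) PF.nil)) (PF.cons PF.nil (PF.cons PF.nil PF.nil)))))) (PF.cons (PF.cons (PF.cons (PF.cons (PF.leaf (nat_lit 6265855) (nat_lit 8754884) (nat_lit 40350470) (nat_lit 9248572) [(nat_lit 0), (nat_lit 0), (nat_lit 0), (nat_lit 8754884)]) (PF.cons (PF.leaf (nat_lit 6508719) (nat_lit 422320) (nat_lit
 40004262) (nat_lit 9220990) [(nat_lit 422320), (nat_lit 0), (nat_lit 0), (nat_lit 8730620)]) (PF.cons (PF.leaf (nat_lit 6764307) (nat_lit 433034) (nat_lit 39643284) (nat_lit 9191090) [(nat_lit 433034), (nat_lit 0), (nat_lit 0), (nat_lit 8704184)]) (PF.cons (PF.leaf (nat_lit 7029685) (nat_lit 442362) (nat_lit 39271168) (nat_lit 9159070) [(nat_lit 442362), (nat_lit 0), (nat_lit 0), (nat_lit 8675743)]) (PF.cons (PF.leaf (nat_lit 7303065) (nat_lit 450558) (nat_lit 38890631) (nat_lit 9125089) [(nat_lit 450558), (nat_lit 0), (nat_lit 0), (nat_lit 8645429)])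 (PF.cons (PF.leaf (nat_lit 7583033) (nat_lit 457801) (nat_lit 38503796) (nat_lit 9089282) [(nat_lit 457801), (nat_lit 0), (nat_lit 0), (nat_lit 8613362)]) (PF.cons PF.nil PF.nil))))))) (PF.cons (PF.cons (PF.leaf (nat_lit 6903987) (nat_lit 1506638) (nat_lit 39137017) (nat_lit 9143156) [(nat_lit 0), (nat_lit 1506638), (nat_lit 0), (nat_lit 8661000)]) (PF.cons (PF.leaf (nat_lit 7162434) (nat_lit 442908) (nat_lit 38775393) (nat_lit 9110554) [(nat_lit 442908), (nat_lit 1516166), (nat_lit 0), (nat_lit 8631894)]) (PF.cons (PF.leaf (nat_lit 7430152) (nat_lit 451021) (nat_lit 38404345) (nat_lit 9075950) [(nat_lit 451021), (nat_lit 1524699),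
 (nat_lit 0), (nat_lit 8600887)]) (PF.cons (PF.leaf (nat_lit 7705005) (nat_lit 458147) (nat_lit 38026345) (nat_lit 9039514) [(nat_lit 458147), (nat_lit 1532259), (nat_lit 0), (nat_lit 8568125)]) (PF.cons PF.nil PF.nil))))) (PF.cons (PF.cons (PF.leaf (nat_lit 7558061) (nat_lit 1526415) (nat_lit 37920910) (nat_lit 9025332) [(nat_lit 0), (nat_lit 1526415), (nat_lit 0), (nat_lit 8554869)]) (PF.cons (PF.leaf (nat_lit 7826825) (nat_lit 458103) (nat_lit 37552673) (nat_lit 8988459) [(nat_lit 458103), (nat_lit 1533191), (nat_lit 0), (nat_lit 8521597)]) (PF.cons (PF.leaf (nat_lit 8102429) (nat_lit 464314) (nat_lit 37178709) (nat_lit 8949882) [(nat_lit 464314), (nat_lit 1539105), (nat_lit 0), (nat_lit 8486690)]) (PF.cons PF.nil PF.nil)))) (PF.cons (PF.cons (PF.leaf (nat_lit 8219465) (nat_lit 1538771) (nat_lit 36718145) (nat_lit 8897276) [(nat_lit 0), (nat_lit 1538771), (nat_lit 0), (nat_lit 8438537)]) (PF.cons PF.nil PF.nil)) (PF.cons PF.nil PF.nil))))) (PF.cons (PF.cons (PF.cons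 (PF.leaf (nat_lit 7370005) (nat_lit 3398058) (nat_lit 37685833) (nat_lit 8987291) [(nat_lit 0), (nat_lit 0), (nat_lit 3398058), (nat_lit 8518815)]) (PF.cons (PF.leaf (nat_lit 7626364) (nat_lit 446103) (nat_lit
 37337958) (nat_lit 8952238) [(nat_lit 446103), (nat_lit 0), (nat_lit 3398123), (nat_lit 8487194)]) (PF.cons (PF.leaf (nat_lit 7891408) (nat_lit 453504) (nat_lit 36981676) (nat_lit 8915309) [(nat_lit 453504), (nat_lit 0), (nat_lit 3397239), (nat_lit 8453789)]) (PF.cons (PF.leaf (nat_lit 8163024) (nat_lit 459950) (nat_lit 36619322) (nat_lit 8876693) [(nat_lit 459950), (nat_lit 0), (nat_lit 3395405), (nat_lit 8418770)]) (PF.cons PF.nil PF.nil))))) (PF.cons (PF.cons (PF.leaf (nat_lit 8012533) (nat_lit 1523623) (nat_lit 36522065) (nat_lit 8862609) [(nat_lit 0), (nat_lit 1523623), (nat_lit 3389386), (nat_lit 8405563)]) (PF.cons (PF.leaf (nat_lit 8278042) (nat_lit 459356) (nat_lit 36169431) (nat_lit 8823818) [(nat_lit 459356), (nat_lit 1528857), (nat_lit 3386764),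 (nat_lit 8370292)]) (PF.cons PF.nil (PF.cons PF.nil PF.nil)))) (PF.cons (PF.cons (PF.leaf (nat_lit 8660252) (nat_lit 1531681) (nat_lit 35374973) (nat_lit 8729526) [(nat_lit 0), (nat_lit 1531681), (nat_lit 3373148), (nat_lit 8283900)]) (PF.cons PF.nil PF.nil)) PF.nil))) (PF.cons (PF.cons (PF.cons (PF.leaf (nat_lit 8449926) (nat_lit 3355508) (nat_lit 35196851) (nat_lit 8696343) [(nat_lit 0), (nat_lit 0), (nat_lit 3355508),
 (nat_lit 8252300)]) (PF.cons (PF.leaf (nat_lit 8711803) (nat_lit 459415) (nat_lit 34859777) (nat_lit 8656200) [(nat_lit 459415), (nat_lit 0), (nat_lit 3351122), (nat_lit 8215587)]) PF.nil)) (PF.cons PF.nil PF.nil)) (PF.cons PF.nil (PF.cons PF.nil PF.nil))))) (PF.cons (PF.cons (PF.cons (PF.cons (PF.leaf (nat_lit 8031296) (nat_lit 8086850) (nat_lit 34325602) (nat_lit 8522659) [(nat_lit 0), (nat_lit 0), (nat_lit 0), (nat_lit 8086850)]) (PF.cons (PF.leaf (nat_lit 8275888) (nat_lit 434468) (nat_lit 34024671) (nat_lit 8486912) [(nat_lit 434468), (nat_lit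 0), (nat_lit 0), (nat_lit 8054253)]) (PF.cons (PF.leaf (nat_lit 8528484) (nat_lit 441160) (nat_lit 33716628) (nat_lit 8449538) [(nat_lit 441160), (nat_lit 0), (nat_lit 0), (nat_lit 8020108)]) (PF.cons PF.nil PF.nil)))) (PF.cons (PF.cons (PF.leaf (nat_lit 8637998) (nat_lit 1473676) (nat_lit 33321625) (nat_lit 8397398) [(nat_lit 0), (nat_lit 1473676), (nat_lit 0), (nat_lit 7972037)]) (PF.cons (PF.leaf (nat_lit 8890685) (nat_lit 445882) (nat_lit 33016895) (nat_lit 8358743) [(nat_lit 445882), (nat_lit 1477500), (nat_lit 0), (nat_lit 7936596)]) PF.nil)) (PF.cons PF.nil PF.nil))) (PF.cons (PF.cons (PF.cons (PF.leaf (nat_lit 9041012) (nat_lit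
 3218918) (nat_lit 32185297) (nat_lit 8236349) [(nat_lit 0), (nat_lit 0), (nat_lit 3218918), (nat_lit 7822749)]) (PF.cons PF.nil PF.nil)) (PF.cons PF.nil PF.nil)) (PF.cons PF.nil PF.nil))) (PF.cons (PF.cons (PF.cons (PF.cons (PF.leaf (nat_lit 9574907) (nat_lit 7421715) (nat_lit 29613815) (nat_lit 7808134) [(nat_lit 0), (nat_lit 0), (nat_lit 0), (nat_lit 7421715)]) (PF.cons PF.nil PF.nil)) (PF.cons PF.nil PF.nil)) (PF.cons PF.nil PF.nil)) (PF.cons PF.nil (PF.cons PF.nil (PF.cons PF.nil PF.nil))))))))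

def p14_13_1_0 : pfC (piC [(nat_lit 39120232), (nat_lit 25510466), (nat_lit 18971201), (nat_lit 12765436)] (nat_lit 10555529)) p14_13_1 (nat_lit 4) (nat_lit 0) (nat_lit 1) = true := by decide +kernel
def p14_13_1_1 : pfC (piC [(nat_lit 39120232), (nat_lit 25510466), (nat_lit 18971201), (nat_lit 12765436)] (nat_lit 10555529)) p14_13_1 (nat_lit 4) (nat_lit 1) (nat_lit 2) = true := by decide +kernel
def p14_13_1_2 : pfC (piC [(nat_lit 39120232), (nat_lit 25510466), (nat_lit 18971201), (nat_lit 12765436)] (nat_lit 10555529)) p14_13_1 (nat_lit 4) (nat_lit 2) (nat_lit 3) = true := by decide +kernel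
def p14_13_1_3 : pfC (piC [(nat_lit 39120232), (nat_lit 25510466), (nat_lit 18971201), (nat_lit 12765436)] (nat_lit 10555529)) p14_13_1 (nat_lit 4) (nat_lit 3) (nat_lit 4) = true := by decide +kernel
def p14_13_1_4 : pfC (piC [(nat_lit 39120232), (nat_lit 25510466), (nat_lit 18971201), (nat_lit 12765436)] (nat_lit 10555529)) p14_13_1 (nat_lit 4) (nat_lit 4) (nat_lit 5) = true := by decide +kernel
def p14_13_1_5 : pfC (piC [(nat_lit 39120232), (nat_lit 25510466), (nat_lit 18971201), (nat_lit 12765436)] (nat_lit 10555529)) p14_13_1 (nat_lit 4) (nat_lit 5) (nat_lit 6) = true := by decide +kernel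
def p14_13_1_6 : pfC (piC [(nat_lit 39120232), (nat_lit 25510466), (nat_lit 18971201), (nat_lit 12765436)] (nat_lit 10555529)) p14_13_1 (nat_lit 4) (nat_lit 6) (nat_lit 7) = true := by decide +kernel
def p14_13_1_7 : pfC (piC [(nat_lit 39120232), (nat_lit 25510466), (nat_lit 18971201), (nat_lit 12765436)] (nat_lit 10555529)) p14_13_1 (nat_lit 4) (nat_lit 7) (nat_lit 8) = true := by decide +kernel
def p14_13_1_8 : pfC (piC [(nat_lit 39120232), (nat_lit 25510466), (nat_lit 18971201), (nat_lit 12765436)] (nat_lit 10555529)) p14_13_1 (nat_lit 4) (nat_lit 8) (nat_lit 9) = true := by decide +kernel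
def p14_13_1_9 : pfC (piC [(nat_lit 39120232), (nat_lit 25510466), (nat_lit 18971201), (nat_lit 12765436)] (nat_lit 10555529)) p14_13_1 (nat_lit 4) (nat_lit 9) (nat_lit 10) = true := by decide +kernel
def p14_13_1_10 : pfC (piC [(nat_lit 39120232), (nat_lit 25510466), (nat_lit 18971201), (nat_lit 12765436)] (nat_lit 10555529)) p14_13_1 (nat_lit 4) (nat_lit 10) (nat_lit 11) = true := by decide +kernel
def p14_13_1_11 : pfC (piC [(nat_lit 39120232), (nat_lit 25510466), (nat_lit 18971201), (nat_lit 12765436)] (nat_lit 10555529)) p14_13_1 (nat_lit 4) (nat_lit 11) (nat_lit 12) = true := by decide +kernel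
def p14_13_1_12 : pfC (piC [(nat_lit 39120232), (nat_lit 25510466), (nat_lit 18971201), (nat_lit 12765436)] (nat_lit 10555529)) p14_13_1 (nat_lit 4) (nat_lit 12) (nat_lit 13) = true := by decide +kernel
def p14_13_1_13 : pfC (piC [(nat_lit 39120232), (nat_lit 25510466), (nat_lit 18971201), (nat_lit 12765436)] (nat_lit 10555529)) p14_13_1 (nat_lit 4) (nat_lit 13) (nat_lit 14) = true := by decide +kernel
def p14_13_1_14 : pfC (piC [(nat_lit 39120232), (nat_lit 25510466), (nat_lit 18971201), (nat_lit 12765436)] (nat_lit 10555529)) p14_13_1 (nat_lit 4) (nat_lit 14) (nat_lit 15) = true := by decide +kernel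
def p14_13_1_15 : pfC (piC [(nat_lit 39120232), (nat_lit 25510466), (nat_lit 18971201), (nat_lit 12765436)] (nat_lit 10555529)) p14_13_1 (nat_lit 4) (nat_lit 15) (nat_lit 16) = true := by decide +kernel
def p14_13_1_16 : pfC (piC [(nat_lit 39120232), (nat_lit 25510466), (nat_lit 18971201), (nat_lit 12765436)] (nat_lit 10555529)) p14_13_1 (nat_lit 4) (nat_lit 16) (nat_lit 17) = true := by decide +kernel
def p14_13_1_17 : pfC (piC [(nat_lit 39120232), (nat_lit 25510466), (nat_lit 18971201), (nat_lit 12765436)] (nat_lit 10555529)) p14_13_1 (nat_lit 4) (nat_lit 17) (nat_lit 18) = true := by decide +kernel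
def p14_13_1_18 : pfC (piC [(nat_lit 39120232), (nat_lit 25510466), (nat_lit 18971201), (nat_lit 12765436)] (nat_lit 10555529)) p14_13_1 (nat_lit 4) (nat_lit 18) (nat_lit 19) = true := by decide +kernel
def p14_13_1_19 : pfC (piC [(nat_lit 39120232), (nat_lit 25510466), (nat_lit 18971201), (nat_lit 12765436)] (nat_lit 10555529)) p14_13_1 (nat_lit 4) (nat_lit 19) (nat_lit 20) = true := by decide +kernel
def p14_13_1_20 : pfC (piC [(nat_lit 39120232), (nat_lit 25510466), (nat_lit 18971201), (nat_lit 12765436)] (nat_lit 10555529)) p14_13_1 (nat_lit 4) (nat_lit 20) (nat_lit 21) = true := by decide +kernel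
def p14_13_1_21 : pfC (piC [(nat_lit 39120232), (nat_lit 25510466), (nat_lit 18971201), (nat_lit 12765436)] (nat_lit 10555529)) p14_13_1 (nat_lit 4) (nat_lit 21) (nat_lit 22) = true := by decide +kernel
def p14_13_1_22 : pfC (piC [(nat_lit 39120232), (nat_lit 25510466), (nat_lit 18971201), (nat_lit 12765436)] (nat_lit 10555529)) p14_13_1 (nat_lit 4) (nat_lit 22) (nat_lit 23) = true := by decide +kernel
def p14_13_1_23 : pfC (piC [(nat_lit 39120232), (nat_lit 25510466), (nat_lit 18971201), (nat_lit 12765436)] (nat_lit 10555529)) p14_13_1 (nat_lit 4) (nat_lit 23) (nat_lit 24) = true := by decide +kernel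
def p14_13_1_24 : pfC (piC [(nat_lit 39120232), (nat_lit 25510466), (nat_lit 18971201), (nat_lit 12765436)] (nat_lit 10555529)) p14_13_1 (nat_lit 4) (nat_lit 24) (nat_lit 25) = true := by decide +kernel
def p14_13_1_25 : pfC (piC [(nat_lit 39120232), (nat_lit 25510466), (nat_lit 18971201), (nat_lit 12765436)] (nat_lit 10555529)) p14_13_1 (nat_lit 4) (nat_lit 25) (nat_lit 26) = true := by decide +kernel
def p14_13_1_26 : pfC (piC [(nat_lit 39120232), (nat_lit 25510466), (nat_lit 18971201), (nat_lit 12765436)] (nat_lit 10555529)) p14_13_1 (nat_lit 4) (nat_lit 26) (nat_lit 27) = true := by decide +kernel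
def p14_13_1_27 : pfC (piC [(nat_lit 39120232), (nat_lit 25510466), (nat_lit 18971201), (nat_lit 12765436)] (nat_lit 10555529)) p14_13_1 (nat_lit 4) (nat_lit 27) (nat_lit 28) = true := by decide +kernel
def p14_13_1_28 : pfC (piC [(nat_lit 39120232), (nat_lit 25510466), (nat_lit 18971201), (nat_lit 12765436)] (nat_lit 10555529)) p14_13_1 (nat_lit 4) (nat_lit 28) (nat_lit 29) = true := by decide +kernel
def p14_13_1_29 : pfC (piC [(nat_lit 39120232), (nat_lit 25510466), (nat_lit 18971201), (nat_lit 12765436)] (nat_lit 10555529)) p14_13_1 (nat_lit 4) (nat_lit 29) (nat_lit 30) = true := by decide +kernel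
def p14_13_1_30 : pfC (piC [(nat_lit 39120232), (nat_lit 25510466), (nat_lit 18971201), (nat_lit 12765436)] (nat_lit 10555529)) p14_13_1 (nat_lit 4) (nat_lit 30) (nat_lit 31) = true := by decide +kernel
def p14_13_1_31 : pfC (piC [(nat_lit 39120232), (nat_lit 25510466), (nat_lit 18971201), (nat_lit 12765436)] (nat_lit 10555529)) p14_13_1 (nat_lit 4) (nat_lit 31) (nat_lit 32) = true := by decide +kernel
def p14_13_1_32 : pfC (piC [(nat_lit 39120232), (nat_lit 25510466), (nat_lit 18971201), (nat_lit 12765436)] (nat_lit 10555529)) p14_13_1 (nat_lit 4) (nat_lit 32) (nat_lit 33) = true := by decide +kernel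
def p14_13_1_33 : pfC (piC [(nat_lit 39120232), (nat_lit 25510466), (nat_lit 18971201), (nat_lit 12765436)] (nat_lit 10555529)) p14_13_1 (nat_lit 4) (nat_lit 33) (nat_lit 34) = true := by decide +kernel
def p14_13_1_34 : pfC (piC [(nat_lit 39120232), (nat_lit 25510466), (nat_lit 18971201), (nat_lit 12765436)] (nat_lit 10555529)) p14_13_1 (nat_lit 4) (nat_lit 34) (nat_lit 35) = true := by decide +kernel
def p14_13_1_35 : pfC (piC [(nat_lit 39120232), (nat_lit 25510466), (nat_lit 18971201), (nat_lit 12765436)] (nat_lit 10555529)) p14_13_1 (nat_lit 4) (nat_lit 35) (nat_lit 36) = true := by decide +kernel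
def p14_13_1_36 : pfC (piC [(nat_lit 39120232), (nat_lit 25510466), (nat_lit 18971201), (nat_lit 12765436)] (nat_lit 10555529)) p14_13_1 (nat_lit 4) (nat_lit 36) (nat_lit 37) = true := by decide +kernel
def p14_13_1_37 : pfC (piC [(nat_lit 39120232), (nat_lit 25510466), (nat_lit 18971201), (nat_lit 12765436)] (nat_lit 10555529)) p14_13_1 (nat_lit 4) (nat_lit 37) (nat_lit 38) = true := by decide +kernel
def p14_13_1_38 : pfC (piC [(nat_lit 39120232), (nat_lit 25510466), (nat_lit 18971201), (nat_lit 12765436)] (nat_lit 10555529)) p14_13_1 (nat_lit 4) (nat_lit 38) (nat_lit 39) = true := by decide +kernel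
def p14_13_1_39 : pfC (piC [(nat_lit 39120232), (nat_lit 25510466), (nat_lit 18971201), (nat_lit 12765436)] (nat_lit 10555529)) p14_13_1 (nat_lit 4) (nat_lit 39) (nat_lit 40) = true := by decide +kernel
def p14_13_1_40 : pfC (piC [(nat_lit 39120232), (nat_lit 25510466), (nat_lit 18971201), (nat_lit 12765436)] (nat_lit 10555529)) p14_13_1 (nat_lit 4) (nat_lit 40) (nat_lit 41) = true := by decide +kernel
def p14_13_1_41 : pfC (piC [(nat_lit 39120232), (nat_lit 25510466), (nat_lit 18971201), (nat_lit 12765436)] (nat_lit 10555529)) p14_13_1 (nat_lit 4) (nat_lit 41) (nat_lit 42) = true := by decide +kernel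
def p14_13_1_42 : pfC (piC [(nat_lit 39120232), (nat_lit 25510466), (nat_lit 18971201), (nat_lit 12765436)] (nat_lit 10555529)) p14_13_1 (nat_lit 4) (nat_lit 42) (nat_lit 43) = true := by decide +kernel
def p14_13_1_43 : pfC (piC [(nat_lit 39120232), (nat_lit 25510466), (nat_lit 18971201), (nat_lit 12765436)] (nat_lit 10555529)) p14_13_1 (nat_lit 4) (nat_lit 43) (nat_lit 44) = true := by decide +kernel
def p14_13_1_44 : pfC (piC [(nat_lit 39120232), (nat_lit 25510466), (nat_lit 18971201), (nat_lit 12765436)] (nat_lit 10555529)) p14_13_1 (nat_lit 4) (nat_lit 44) (nat_lit 45) = true := by decide +kernel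
def p14_13_1_45 : pfC (piC [(nat_lit 39120232), (nat_lit 25510466), (nat_lit 18971201), (nat_lit 12765436)] (nat_lit 10555529)) p14_13_1 (nat_lit 4) (nat_lit 45) (nat_lit 46) = true := by decide +kernel
def p14_13_1_46 : pfC (piC [(nat_lit 39120232), (nat_lit 25510466), (nat_lit 18971201), (nat_lit 12765436)] (nat_lit 10555529)) p14_13_1 (nat_lit 4) (nat_lit 46) (nat_lit 47) = true := by decide +kernel
def p14_13_1_47 : pfC (piC [(nat_lit 39120232), (nat_lit 25510466), (nat_lit 18971201), (nat_lit 12765436)] (nat_lit 10555529)) p14_13_1 (nat_lit 4) (nat_lit 47) (nat_lit 48) = true := by decide +kernel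
def p14_13_1_48 : pfC (piC [(nat_lit 39120232), (nat_lit 25510466), (nat_lit 18971201), (nat_lit 12765436)] (nat_lit 10555529)) p14_13_1 (nat_lit 4) (nat_lit 48) (nat_lit 49) = true := by decide +kernel
def p14_13_1_49 : pfC (piC [(nat_lit 39120232), (nat_lit 25510466), (nat_lit 18971201), (nat_lit 12765436)] (nat_lit 10555529)) p14_13_1 (nat_lit 4) (nat_lit 49) (nat_lit 50) = true := by decide +kernel
def p14_13_1_50 : pfC (piC [(nat_lit 39120232), (nat_lit 25510466), (nat_lit 18971201), (nat_lit 12765436)] (nat_lit 10555529)) p14_13_1 (nat_lit 4) (nat_lit 50) (nat_lit 51) = true := by decide +kernel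
def p14_13_1_51 : pfC (piC [(nat_lit 39120232), (nat_lit 25510466), (nat_lit 18971201), (nat_lit 12765436)] (nat_lit 10555529)) p14_13_1 (nat_lit 4) (nat_lit 51) (nat_lit 52) = true := by decide +kernel
def p14_13_1_52 : pfC (piC [(nat_lit 39120232), (nat_lit 25510466), (nat_lit 18971201), (nat_lit 12765436)] (nat_lit 10555529)) p14_13_1 (nat_lit 4) (nat_lit 52) (nat_lit 53) = true := by decide +kernel
def p14_13_1_53 : pfC (piC [(nat_lit 39120232), (nat_lit 25510466), (nat_lit 18971201), (nat_lit 12765436)] (nat_lit 10555529)) p14_13_1 (nat_lit 4) (nat_lit 53) (nat_lit 54) = true := by decide +kernel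
def p14_13_1_54 : pfC (piC [(nat_lit 39120232), (nat_lit 25510466), (nat_lit 18971201), (nat_lit 12765436)] (nat_lit 10555529)) p14_13_1 (nat_lit 4) (nat_lit 54) (nat_lit 55) = true := by decide +kernel
def p14_13_1_55 : pfC (piC [(nat_lit 39120232), (nat_lit 25510466), (nat_lit 18971201), (nat_lit 12765436)] (nat_lit 10555529)) p14_13_1 (nat_lit 4) (nat_lit 55) (nat_lit 56) = true := by decide +kernel
def p14_13_1_56 : pfC (piC [(nat_lit 39120232), (nat_lit 25510466), (nat_lit 18971201), (nat_lit 12765436)] (nat_lit 10555529)) p14_13_1 (nat_lit 4) (nat_lit 56) (nat_lit 57) = true := by decide +kernel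
def p14_13_1_57 : pfC (piC [(nat_lit 39120232), (nat_lit 25510466), (nat_lit 18971201), (nat_lit 12765436)] (nat_lit 10555529)) p14_13_1 (nat_lit 4) (nat_lit 57) (nat_lit 58) = true := by decide +kernel
def p14_13_1_58 : pfC (piC [(nat_lit 39120232), (nat_lit 25510466), (nat_lit 18971201), (nat_lit 12765436)] (nat_lit 10555529)) p14_13_1 (nat_lit 4) (nat_lit 58) (nat_lit 59) = true := by decide +kernel
def p14_13_1_59 : pfC (piC [(nat_lit 39120232), (nat_lit 25510466), (nat_lit 18971201), (nat_lit 12765436)] (nat_lit 10555529)) p14_13_1 (nat_lit 4) (nat_lit 59) (nat_lit 60) = true := by decide +kernel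
def p14_13_1_60 : pfC (piC [(nat_lit 39120232), (nat_lit 25510466), (nat_lit 18971201), (nat_lit 12765436)] (nat_lit 10555529)) p14_13_1 (nat_lit 4) (nat_lit 60) (nat_lit 61) = true := by decide +kernel
def p14_13_1_61 : pfC (piC [(nat_lit 39120232), (nat_lit 25510466), (nat_lit 18971201), (nat_lit 12765436)] (nat_lit 10555529)) p14_13_1 (nat_lit 4) (nat_lit 61) (nat_lit 62) = true := by decide +kernel
def p14_13_1_62 : pfC (piC [(nat_lit 39120232), (nat_lit 25510466), (nat_lit 18971201), (nat_lit 12765436)] (nat_lit 10555529)) p14_13_1 (nat_lit 4) (nat_lit 62) (nat_lit 63) = true := by decide +kernel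
def p14_13_1_63 : pfC (piC [(nat_lit 39120232), (nat_lit 25510466), (nat_lit 18971201), (nat_lit 12765436)] (nat_lit 10555529)) p14_13_1 (nat_lit 4) (nat_lit 63) (nat_lit 64) = true := by decide +kernel
def p14_13_1_64 : pfC (piC [(nat_lit 39120232), (nat_lit 25510466), (nat_lit 18971201), (nat_lit 12765436)] (nat_lit 10555529)) p14_13_1 (nat_lit 4) (nat_lit 64) (nat_lit 65) = true := by decide +kernel
def p14_13_1_65 : pfC (piC [(nat_lit 39120232), (nat_lit 25510466), (nat_lit 18971201), (nat_lit 12765436)] (nat_lit 10555529)) p14_13_1 (nat_lit 4) (nat_lit 65) (nat_lit 66) = true := by decide +kernel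
def p14_13_1_66 : pfC (piC [(nat_lit 39120232), (nat_lit 25510466), (nat_lit 18971201), (nat_lit 12765436)] (nat_lit 10555529)) p14_13_1 (nat_lit 4) (nat_lit 66) (nat_lit 67) = true := by decide +kernel
def p14_13_1_67 : pfC (piC [(nat_lit 39120232), (nat_lit 25510466), (nat_lit 18971201), (nat_lit 12765436)] (nat_lit 10555529)) p14_13_1 (nat_lit 4) (nat_lit 67) (nat_lit 68) = true := by decide +kernel
def p14_13_1_68 : pfC (piC [(nat_lit 39120232), (nat_lit 25510466), (nat_lit 18971201), (nat_lit 12765436)] (nat_lit 10555529)) p14_13_1 (nat_lit 4) (nat_lit 68) (nat_lit 69) = true := by decide +kernel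
def p14_13_1_69 : pfC (piC [(nat_lit 39120232), (nat_lit 25510466), (nat_lit 18971201), (nat_lit 12765436)] (nat_lit 10555529)) p14_13_1 (nat_lit 4) (nat_lit 69) (nat_lit 70) = true := by decide +kernel
def p14_13_1_70 : pfC (piC [(nat_lit 39120232), (nat_lit 25510466), (nat_lit 18971201), (nat_lit 12765436)] (nat_lit 10555529)) p14_13_1 (nat_lit 4) (nat_lit 70) (nat_lit 71) = true := by decide +kernel
def p14_13_1_71 : pfC (piC [(nat_lit 39120232), (nat_lit 25510466), (nat_lit 18971201), (nat_lit 12765436)] (nat_lit 10555529)) p14_13_1 (nat_lit 4) (nat_lit 71) (nat_lit 72) = true := by decide +kernel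
def p14_13_1_72 : pfC (piC [(nat_lit 39120232), (nat_lit 25510466), (nat_lit 18971201), (nat_lit 12765436)] (nat_lit 10555529)) p14_13_1 (nat_lit 4) (nat_lit 72) (nat_lit 73) = true := by decide +kernel
def p14_13_1_73 : pfC (piC [(nat_lit 39120232), (nat_lit 25510466), (nat_lit 18971201), (nat_lit 12765436)] (nat_lit 10555529)) p14_13_1 (nat_lit 4) (nat_lit 73) (nat_lit 74) = true := by decide +kernel
def p14_13_1_74 : pfC (piC [(nat_lit 39120232), (nat_lit 25510466), (nat_lit 18971201), (nat_lit 12765436)] (nat_lit 10555529)) p14_13_1 (nat_lit 4) (nat_lit 74) (nat_lit 75) = true := by decide +kernel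
def p14_13_1_75 : pfC (piC [(nat_lit 39120232), (nat_lit 25510466), (nat_lit 18971201), (nat_lit 12765436)] (nat_lit 10555529)) p14_13_1 (nat_lit 4) (nat_lit 75) (nat_lit 76) = true := by decide +kernel
def p14_13_1_76 : pfC (piC [(nat_lit 39120232), (nat_lit 25510466), (nat_lit 18971201), (nat_lit 12765436)] (nat_lit 10555529)) p14_13_1 (nat_lit 4) (nat_lit 76) (nat_lit 77) = true := by decide +kernel
def p14_13_1_77 : pfC (piC [(nat_lit 39120232), (nat_lit 25510466), (nat_lit 18971201), (nat_lit 12765436)] (nat_lit 10555529)) p14_13_1 (nat_lit 4) (nat_lit 77) (nat_lit 78) = true := by decide +kernel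
def p14_13_1_78 : pfC (piC [(nat_lit 39120232), (nat_lit 25510466), (nat_lit 18971201), (nat_lit 12765436)] (nat_lit 10555529)) p14_13_1 (nat_lit 4) (nat_lit 78) (nat_lit 79) = true := by decide +kernel
def p14_13_1_79 : pfC (piC [(nat_lit 39120232), (nat_lit 25510466), (nat_lit 18971201), (nat_lit 12765436)] (nat_lit 10555529)) p14_13_1 (nat_lit 4) (nat_lit 79) (nat_lit 80) = true := by decide +kernel
def p14_13_1_80 : pfC (piC [(nat_lit 39120232), (nat_lit 25510466), (nat_lit 18971201), (nat_lit 12765436)] (nat_lit 10555529)) p14_13_1 (nat_lit 4) (nat_lit 80) (nat_lit 81) = true := by decide +kernel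
def p14_13_1_81 : pfC (piC [(nat_lit 39120232), (nat_lit 25510466), (nat_lit 18971201), (nat_lit 12765436)] (nat_lit 10555529)) p14_13_1 (nat_lit 4) (nat_lit 81) (nat_lit 82) = true := by decide +kernel
def p14_13_1_82 : pfC (piC [(nat_lit 39120232), (nat_lit 25510466), (nat_lit 18971201), (nat_lit 12765436)] (nat_lit 10555529)) p14_13_1 (nat_lit 4) (nat_lit 82) (nat_lit 83) = true := by decide +kernel
def p14_13_1_83 : pfC (piC [(nat_lit 39120232), (nat_lit 25510466), (nat_lit 18971201), (nat_lit 12765436)] (nat_lit 10555529)) p14_13_1 (nat_lit 4) (nat_lit 83) (nat_lit 84) = true := by decide +kernel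
def p14_13_1_84 : pfC (piC [(nat_lit 39120232), (nat_lit 25510466), (nat_lit 18971201), (nat_lit 12765436)] (nat_lit 10555529)) p14_13_1 (nat_lit 4) (nat_lit 84) (nat_lit 85) = true := by decide +kernel
def p14_13_1_85 : pfC (piC [(nat_lit 39120232), (nat_lit 25510466), (nat_lit 18971201), (nat_lit 12765436)] (nat_lit 10555529)) p14_13_1 (nat_lit 4) (nat_lit 85) (nat_lit 86) = true := by decide +kernel
def p14_13_1_86 : pfC (piC [(nat_lit 39120232), (nat_lit 25510466), (nat_lit 18971201), (nat_lit 12765436)] (nat_lit 10555529)) p14_13_1 (nat_lit 4) (nat_lit 86) (nat_lit 87) = true := by decide +kernel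
def p14_13_1_87 : pfC (piC [(nat_lit 39120232), (nat_lit 25510466), (nat_lit 18971201), (nat_lit 12765436)] (nat_lit 10555529)) p14_13_1 (nat_lit 4) (nat_lit 87) (nat_lit 88) = true := by decide +kernel
def p14_13_1_88 : pfC (piC [(nat_lit 39120232), (nat_lit 25510466), (nat_lit 18971201), (nat_lit 12765436)] (nat_lit 10555529)) p14_13_1 (nat_lit 4) (nat_lit 88) (nat_lit 89) = true := by decide +kernel
def p14_13_1_89 : pfC (piC [(nat_lit 39120232), (nat_lit 25510466), (nat_lit 18971201), (nat_lit 12765436)] (nat_lit 10555529)) p14_13_1 (nat_lit 4) (nat_lit 89) (nat_lit 90) = true := by decide +kernel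
def p14_13_1_90 : pfC (piC [(nat_lit 39120232), (nat_lit 25510466), (nat_lit 18971201), (nat_lit 12765436)] (nat_lit 10555529)) p14_13_1 (nat_lit 4) (nat_lit 90) (nat_lit 91) = true := by decide +kernel
def p14_13_1_91 : pfC (piC [(nat_lit 39120232), (nat_lit 25510466), (nat_lit 18971201), (nat_lit 12765436)] (nat_lit 10555529)) p14_13_1 (nat_lit 4) (nat_lit 91) (nat_lit 92) = true := by decide +kernel
def p14_13_1_92 : pfC (piC [(nat_lit 39120232), (nat_lit 25510466), (nat_lit 18971201), (nat_lit 12765436)] (nat_lit 10555529)) p14_13_1 (nat_lit 4) (nat_lit 92) (nat_lit 93) = true := by decide +kernel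
def p14_13_1_93 : pfC (piC [(nat_lit 39120232), (nat_lit 25510466), (nat_lit 18971201), (nat_lit 12765436)] (nat_lit 10555529)) p14_13_1 (nat_lit 4) (nat_lit 93) (nat_lit 94) = true := by decide +kernel
def p14_13_1_94 : pfC (piC [(nat_lit 39120232), (nat_lit 25510466), (nat_lit 18971201), (nat_lit 12765436)] (nat_lit 10555529)) p14_13_1 (nat_lit 4) (nat_lit 94) (nat_lit 95) = true := by decide +kernel
def p14_13_1_95 : pfC (piC [(nat_lit 39120232), (nat_lit 25510466), (nat_lit 18971201), (nat_lit 12765436)] (nat_lit 10555529)) p14_13_1 (nat_lit 4) (nat_lit 95) (nat_lit 96) = true := by decide +kernel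
def p14_13_1_96 : pfC (piC [(nat_lit 39120232), (nat_lit 25510466), (nat_lit 18971201), (nat_lit 12765436)] (nat_lit 10555529)) p14_13_1 (nat_lit 4) (nat_lit 96) (nat_lit 97) = true := by decide +kernel
def p14_13_1_97 : pfC (piC [(nat_lit 39120232), (nat_lit 25510466), (nat_lit 18971201), (nat_lit 12765436)] (nat_lit 10555529)) p14_13_1 (nat_lit 4) (nat_lit 97) (nat_lit 98) = true := by decide +kernel
def p14_13_1_98 : pfC (piC [(nat_lit 39120232), (nat_lit 25510466), (nat_lit 18971201), (nat_lit 12765436)] (nat_lit 10555529)) p14_13_1 (nat_lit 4) (nat_lit 98) (nat_lit 99) = true := by decide +kernel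
def p14_13_1_99 : pfC (piC [(nat_lit 39120232), (nat_lit 25510466), (nat_lit 18971201), (nat_lit 12765436)] (nat_lit 10555529)) p14_13_1 (nat_lit 4) (nat_lit 99) (nat_lit 100) = true := by decide +kernel
def p14_13_1_100 : pfC (piC [(nat_lit 39120232), (nat_lit 25510466), (nat_lit 18971201), (nat_lit 12765436)] (nat_lit 10555529)) p14_13_1 (nat_lit 4) (nat_lit 100) (nat_lit 101) = true := by decide +kernel
def p14_13_1_101 : pfC (piC [(nat_lit 39120232), (nat_lit 25510466), (nat_lit 18971201), (nat_lit 12765436)] (nat_lit 10555529)) p14_13_1 (nat_lit 4) (nat_lit 101) (nat_lit 102) = true := by decide +kernel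
def p14_13_1_102 : pfC (piC [(nat_lit 39120232), (nat_lit 25510466), (nat_lit 18971201), (nat_lit 12765436)] (nat_lit 10555529)) p14_13_1 (nat_lit 4) (nat_lit 102) (nat_lit 103) = true := by decide +kernel
def p14_13_1_103 : pfC (piC [(nat_lit 39120232), (nat_lit 25510466), (nat_lit 18971201), (nat_lit 12765436)] (nat_lit 10555529)) p14_13_1 (nat_lit 4) (nat_lit 103) (nat_lit 104) = true := by decide +kernel
def p14_13_1_104 : pfC (piC [(nat_lit 39120232), (nat_lit 25510466), (nat_lit 18971201), (nat_lit 12765436)] (nat_lit 10555529)) p14_13_1 (nat_lit 4) (nat_lit 104) (nat_lit 105) = true := by decide +kernel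
def p14_13_1_105 : pfC (piC [(nat_lit 39120232), (nat_lit 25510466), (nat_lit 18971201), (nat_lit 12765436)] (nat_lit 10555529)) p14_13_1 (nat_lit 4) (nat_lit 105) (nat_lit 106) = true := by decide +kernel
def p14_13_1_106 : pfC (piC [(nat_lit 39120232), (nat_lit 25510466), (nat_lit 18971201), (nat_lit 12765436)] (nat_lit 10555529)) p14_13_1 (nat_lit 4) (nat_lit 106) (nat_lit 107) = true := by decide +kernel
def p14_13_1_107 : pfC (piC [(nat_lit 39120232), (nat_lit 25510466), (nat_lit 18971201), (nat_lit 12765436)] (nat_lit 10555529)) p14_13_1 (nat_lit 4) (nat_lit 107) (nat_lit 108) = true := by decide +kernel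
def p14_13_1_108 : pfC (piC [(nat_lit 39120232), (nat_lit 25510466), (nat_lit 18971201), (nat_lit 12765436)] (nat_lit 10555529)) p14_13_1 (nat_lit 4) (nat_lit 108) (nat_lit 109) = true := by decide +kernel
def p14_13_1_109 : pfC (piC [(nat_lit 39120232), (nat_lit 25510466), (nat_lit 18971201), (nat_lit 12765436)] (nat_lit 10555529)) p14_13_1 (nat_lit 4) (nat_lit 109) (nat_lit 110) = true := by decide +kernel
def p14_13_1_110 : pfC (piC [(nat_lit 39120232), (nat_lit 25510466), (nat_lit 18971201), (nat_lit 12765436)] (nat_lit 10555529)) p14_13_1 (nat_lit 4) (nat_lit 110) (nat_lit 111) = true := by decide +kernel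
def p14_13_1_111 : pfC (piC [(nat_lit 39120232), (nat_lit 25510466), (nat_lit 18971201), (nat_lit 12765436)] (nat_lit 10555529)) p14_13_1 (nat_lit 4) (nat_lit 111) (nat_lit 112) = true := by decide +kernel
def p14_13_1_112 : pfC (piC [(nat_lit 39120232), (nat_lit 25510466), (nat_lit 18971201), (nat_lit 12765436)] (nat_lit 10555529)) p14_13_1 (nat_lit 4) (nat_lit 112) (nat_lit 113) = true := by decide +kernel
def p14_13_1_113 : pfC (piC [(nat_lit 39120232), (nat_lit 25510466), (nat_lit 18971201), (nat_lit 12765436)] (nat_lit 10555529)) p14_13_1 (nat_lit 4) (nat_lit 113) (nat_lit 114) = true := by decide +kernel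
def p14_13_1_114 : pfC (piC [(nat_lit 39120232), (nat_lit 25510466), (nat_lit 18971201), (nat_lit 12765436)] (nat_lit 10555529)) p14_13_1 (nat_lit 4) (nat_lit 114) (nat_lit 115) = true := by decide +kernel
def p14_13_1_115 : pfC (piC [(nat_lit 39120232), (nat_lit 25510466), (nat_lit 18971201), (nat_lit 12765436)] (nat_lit 10555529)) p14_13_1 (nat_lit 4) (nat_lit 115) (nat_lit 116) = true := by decide +kernel
def p14_13_1_116 : pfC (piC [(nat_lit 39120232), (nat_lit 25510466), (nat_lit 18971201), (nat_lit 12765436)] (nat_lit 10555529)) p14_13_1 (nat_lit 4) (nat_lit 116) (nat_lit 117) = true := by decide +kernel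
def p14_13_1_117 : pfC (piC [(nat_lit 39120232), (nat_lit 25510466), (nat_lit 18971201), (nat_lit 12765436)] (nat_lit 10555529)) p14_13_1 (nat_lit 4) (nat_lit 117) (nat_lit 118) = true := by decide +kernel
def p14_13_1_118 : pfC (piC [(nat_lit 39120232), (nat_lit 25510466), (nat_lit 18971201), (nat_lit 12765436)] (nat_lit 10555529)) p14_13_1 (nat_lit 4) (nat_lit 118) (nat_lit 119) = true := by decide +kernel
def p14_13_1_119 : pfC (piC [(nat_lit 39120232), (nat_lit 25510466), (nat_lit 18971201), (nat_lit 12765436)] (nat_lit 10555529)) p14_13_1 (nat_lit 4) (nat_lit 119) (nat_lit 120) = true := by decide +kernel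
def p14_13_1_120 : pfC (piC [(nat_lit 39120232), (nat_lit 25510466), (nat_lit 18971201), (nat_lit 12765436)] (nat_lit 10555529)) p14_13_1 (nat_lit 4) (nat_lit 120) (nat_lit 121) = true := by decide +kernel
def p14_13_1_121 : pfC (piC [(nat_lit 39120232), (nat_lit 25510466), (nat_lit 18971201), (nat_lit 12765436)] (nat_lit 10555529)) p14_13_1 (nat_lit 4) (nat_lit 121) (nat_lit 122) = true := by decide +kernel
def p14_13_1_122 : pfC (piC [(nat_lit 39120232), (nat_lit 25510466), (nat_lit 18971201), (nat_lit 12765436)] (nat_lit 10555529)) p14_13_1 (nat_lit 4) (nat_lit 122) (nat_lit 123) = true := by decide +kernel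
def p14_13_1_123 : pfC (piC [(nat_lit 39120232), (nat_lit 25510466), (nat_lit 18971201), (nat_lit 12765436)] (nat_lit 10555529)) p14_13_1 (nat_lit 4) (nat_lit 123) (nat_lit 124) = true := by decide +kernel
def p14_13_1_124 : pfC (piC [(nat_lit 39120232), (nat_lit 25510466), (nat_lit 18971201), (nat_lit 12765436)] (nat_lit 10555529)) p14_13_1 (nat_lit 4) (nat_lit 124) (nat_lit 125) = true := by decide +kernel
def p14_13_1_125 : pfC (piC [(nat_lit 39120232), (nat_lit 25510466), (nat_lit 18971201), (nat_lit 12765436)] (nat_lit 10555529)) p14_13_1 (nat_lit 4) (nat_lit 125) (nat_lit 126) = true := by decide +kernel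
def p14_13_1_126 : pfC (piC [(nat_lit 39120232), (nat_lit 25510466), (nat_lit 18971201), (nat_lit 12765436)] (nat_lit 10555529)) p14_13_1 (nat_lit 4) (nat_lit 126) (nat_lit 127) = true := by decide +kernel
def p14_13_1_127 : pfC (piC [(nat_lit 39120232), (nat_lit 25510466), (nat_lit 18971201), (nat_lit 12765436)] (nat_lit 10555529)) p14_13_1 (nat_lit 4) (nat_lit 127) (nat_lit 128) = true := by decide +kernel
def p14_13_1_128 : pfC (piC [(nat_lit 39120232), (nat_lit 25510466), (nat_lit 18971201), (nat_lit 12765436)] (nat_lit 10555529)) p14_13_1 (nat_lit 4) (nat_lit 128) (nat_lit 129) = true := by decide +kernel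
def p14_13_1_129 : pfC (piC [(nat_lit 39120232), (nat_lit 25510466), (nat_lit 18971201), (nat_lit 12765436)] (nat_lit 10555529)) p14_13_1 (nat_lit 4) (nat_lit 129) (nat_lit 130) = true := by decide +kernel
def p14_13_1_130 : pfC (piC [(nat_lit 39120232), (nat_lit 25510466), (nat_lit 18971201), (nat_lit 12765436)] (nat_lit 10555529)) p14_13_1 (nat_lit 4) (nat_lit 130) (nat_lit 131) = true := by decide +kernel
def p14_13_1_131 : pfC (piC [(nat_lit 39120232), (nat_lit 25510466), (nat_lit 18971201), (nat_lit 12765436)] (nat_lit 10555529)) p14_13_1 (nat_lit 4) (nat_lit 131) (nat_lit 132) = true := by decide +kernel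
def p14_13_1_132 : pfC (piC [(nat_lit 39120232), (nat_lit 25510466), (nat_lit 18971201), (nat_lit 12765436)] (nat_lit 10555529)) p14_13_1 (nat_lit 4) (nat_lit 132) (nat_lit 133) = true := by decide +kernel
def p14_13_1_133 : pfC (piC [(nat_lit 39120232), (nat_lit 25510466), (nat_lit 18971201), (nat_lit 12765436)] (nat_lit 10555529)) p14_13_1 (nat_lit 4) (nat_lit 133) (nat_lit 134) = true := by decide +kernel
def p14_13_1_134 : pfC (piC [(nat_lit 39120232), (nat_lit 25510466), (nat_lit 18971201), (nat_lit 12765436)] (nat_lit 10555529)) p14_13_1 (nat_lit 4) (nat_lit 134) (nat_lit 135) = true := by decide +kernel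
def p14_13_1_135 : pfC (piC [(nat_lit 39120232), (nat_lit 25510466), (nat_lit 18971201), (nat_lit 12765436)] (nat_lit 10555529)) p14_13_1 (nat_lit 4) (nat_lit 135) (nat_lit 136) = true := by decide +kernel
def p14_13_1_136 : pfC (piC [(nat_lit 39120232), (nat_lit 25510466), (nat_lit 18971201), (nat_lit 12765436)] (nat_lit 10555529)) p14_13_1 (nat_lit 4) (nat_lit 136) (nat_lit 137) = true := by decide +kernel
def p14_13_1_137 : pfC (piC [(nat_lit 39120232), (nat_lit 25510466), (nat_lit 18971201), (nat_lit 12765436)] (nat_lit 10555529)) p14_13_1 (nat_lit 4) (nat_lit 137) (nat_lit 138) = true := by decide +kernel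
def p14_13_1_138 : pfC (piC [(nat_lit 39120232), (nat_lit 25510466), (nat_lit 18971201), (nat_lit 12765436)] (nat_lit 10555529)) p14_13_1 (nat_lit 4) (nat_lit 138) (nat_lit 139) = true := by decide +kernel
def p14_13_1_139 : pfC (piC [(nat_lit 39120232), (nat_lit 25510466), (nat_lit 18971201), (nat_lit 12765436)] (nat_lit 10555529)) p14_13_1 (nat_lit 4) (nat_lit 139) (nat_lit 140) = true := by decide +kernel
def p14_13_1_140 : pfC (piC [(nat_lit 39120232), (nat_lit 25510466), (nat_lit 18971201), (nat_lit 12765436)] (nat_lit 10555529)) p14_13_1 (nat_lit 4) (nat_lit 140) (nat_lit 141) = true := by decide +kernel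
def p14_13_1_141 : pfC (piC [(nat_lit 39120232), (nat_lit 25510466), (nat_lit 18971201), (nat_lit 12765436)] (nat_lit 10555529)) p14_13_1 (nat_lit 4) (nat_lit 141) (nat_lit 142) = true := by decide +kernel
def p14_13_1_142 : pfC (piC [(nat_lit 39120232), (nat_lit 25510466), (nat_lit 18971201), (nat_lit 12765436)] (nat_lit 10555529)) p14_13_1 (nat_lit 4) (nat_lit 142) (nat_lit 143) = true := by decide +kernel
def p14_13_1_143 : pfC (piC [(nat_lit 39120232), (nat_lit 25510466), (nat_lit 18971201), (nat_lit 12765436)] (nat_lit 10555529)) p14_13_1 (nat_lit 4) (nat_lit 143) (nat_lit 144) = true := by decide +kernel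
def p14_13_1_144 : pfC (piC [(nat_lit 39120232), (nat_lit 25510466), (nat_lit 18971201), (nat_lit 12765436)] (nat_lit 10555529)) p14_13_1 (nat_lit 4) (nat_lit 144) (nat_lit 145) = true := by decide +kernel
def p14_13_1_145 : pfC (piC [(nat_lit 39120232), (nat_lit 25510466), (nat_lit 18971201), (nat_lit 12765436)] (nat_lit 10555529)) p14_13_1 (nat_lit 4) (nat_lit 145) (nat_lit 146) = true := by decide +kernel
def p14_13_1_146 : pfC (piC [(nat_lit 39120232), (nat_lit 25510466), (nat_lit 18971201), (nat_lit 12765436)] (nat_lit 10555529)) p14_13_1 (nat_lit 4) (nat_lit 146) (nat_lit 147) = true := by decide +kernel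
theorem p14_13_1_T : PfS (PiF n14_13.reverse (nat_lit 10555529)) p14_13_1 (nat_lit 4) [] 0 :=
  pftab_of (los := [(nat_lit 39120232), (nat_lit 25510466), (nat_lit 18971201), (nat_lit 12765436)]) (by decide +kernel) (hi := (nat_lit 147)) (PfP.trans (PfP.trans (PfP.trans (PfP.trans (PfP.trans (PfP.trans (PfP.trans (PfP.trans (PfP.trans (PfP.trans (PfP.trans (PfP.trans (PfP.trans (PfP.trans (PfP.trans (PfP.trans (PfP.trans (PfP.trans (PfP.trans (PfP.trans (PfP.trans (PfP.trans (PfP.trans (PfP.trans (PfP.trans (PfP.trans (PfP.trans (PfP.trans (PfP.trans (PfP.trans (PfP.trans (PfP.trans (PfP.trans (PfP.trans (PfP.trans (PfP.trans (PfP.trans (PfP.trans (PfP.trans (PfP.trans (PfP.trans (PfP.trans (PfP.trans (PfP.trans (PfP.trans (PfP.trans (PfP.trans (PfP.trans (PfP.trans (PfP.trans (PfP.trans (PfP.trans (PfP.trans (PfP.trans (PfP.trans (PfP.trans (PfP.trans (PfP.trans (PfP.trans (PfP.trans (PfP.trans (PfP.trans (PfP.trans (PfP.trans (PfP.trans (PfP.trans (PfP.trans (PfP.trans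 (PfP.trans (PfP.trans (PfP.trans (PfP.trans (PfP.trans (PfP.trans (PfP.trans (PfP.trans (PfP.trans (PfP.trans (PfP.trans (PfP.trans (PfP.trans (PfP.trans (PfP.trans (PfP.trans (PfP.trans (PfP.trans (PfP.trans (PfP.trans (PfP.trans (PfP.trans (PfP.trans (PfP.trans (PfP.trans (PfP.trans (PfP.trans (PfP.trans (PfP.trans (PfP.trans (PfP.trans (PfP.trans (PfP.trans (PfP.trans (PfP.trans (PfP.trans (PfP.trans (PfP.trans (PfP.trans (PfP.trans (PfP.trans
 (PfP.trans (PfP.trans (PfP.trans (PfP.trans (PfP.trans (PfP.trans (PfP.trans (PfP.trans (PfP.trans (PfP.trans (PfP.trans (PfP.trans (PfP.trans (PfP.trans (PfP.trans (PfP.trans (PfP.trans (PfP.trans (PfP.trans (PfP.trans (PfP.trans (PfP.trans (PfP.trans (PfP.trans (PfP.trans (PfP.trans (PfP.trans (PfP.trans (PfP.trans (PfP.trans (PfP.trans (PfP.trans (PfP.trans (PfP.trans (PfP.trans (PfP.trans (PfP.trans (pfC_sound p14_13_1_0) (pfC_sound p14_13_1_1)) (pfC_sound p14_13_1_2)) (pfC_sound p14_13_1_3)) (pfC_sound p14_13_1_4)) (pfC_sound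 p14_13_1_5)) (pfC_sound p14_13_1_6)) (pfC_sound p14_13_1_7)) (pfC_sound p14_13_1_8)) (pfC_sound p14_13_1_9)) (pfC_sound p14_13_1_10)) (pfC_sound p14_13_1_11)) (pfC_sound p14_13_1_12)) (pfC_sound p14_13_1_13)) (pfC_sound p14_13_1_14)) (pfC_sound p14_13_1_15)) (pfC_sound p14_13_1_16)) (pfC_sound p14_13_1_17)) (pfC_sound p14_13_1_18)) (pfC_sound p14_13_1_19)) (pfC_sound p14_13_1_20)) (pfC_sound p14_13_1_21)) (pfC_sound p14_13_1_22)) (pfC_sound p14_13_1_23)) (pfC_sound p14_13_1_24)) (pfC_sound p14_13_1_25)) (pfC_sound p14_13_1_26)) (pfC_sound p14_13_1_27)) (pfC_sound p14_13_1_28)) (pfC_sound p14_13_1_29)) (pfC_sound p14_13_1_30)) (pfC_sound p14_13_1_31))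
 (pfC_sound p14_13_1_32)) (pfC_sound p14_13_1_33)) (pfC_sound p14_13_1_34)) (pfC_sound p14_13_1_35)) (pfC_sound p14_13_1_36)) (pfC_sound p14_13_1_37)) (pfC_sound p14_13_1_38)) (pfC_sound p14_13_1_39)) (pfC_sound p14_13_1_40)) (pfC_sound p14_13_1_41)) (pfC_sound p14_13_1_42)) (pfC_sound p14_13_1_43)) (pfC_sound p14_13_1_44)) (pfC_sound p14_13_1_45)) (pfC_sound p14_13_1_46)) (pfC_sound p14_13_1_47)) (pfC_sound p14_13_1_48)) (pfC_sound p14_13_1_49)) (pfC_sound p14_13_1_50)) (pfC_sound p14_13_1_51)) (pfC_sound p14_13_1_52)) (pfC_sound p14_13_1_53)) (pfC_sound p14_13_1_54)) (pfC_sound p14_13_1_55)) (pfC_sound p14_13_1_56)) (pfC_sound p14_13_1_57)) (pfC_sound p14_13_1_58)) (pfC_sound p14_13_1_59)) (pfC_sound p14_13_1_60)) (pfC_sound p14_13_1_61)) (pfC_sound p14_13_1_62)) (pfC_sound p14_13_1_63)) (pfC_sound p14_13_1_64)) (pfC_sound p14_13_1_65)) (pfC_sound p14_13_1_66)) (pfC_sound p14_13_1_67)) (pfC_sound p14_13_1_68)) (pfC_sound p14_13_1_69)) (pfC_sound p14_13_1_70)) (pfC_sound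 p14_13_1_71)) (pfC_sound p14_13_1_72)) (pfC_sound p14_13_1_73)) (pfC_sound p14_13_1_74)) (pfC_sound p14_13_1_75)) (pfC_sound p14_13_1_76)) (pfC_sound p14_13_1_77)) (pfC_sound p14_13_1_78)) (pfC_sound p14_13_1_79))
 (pfC_sound p14_13_1_80)) (pfC_sound p14_13_1_81)) (pfC_sound p14_13_1_82)) (pfC_sound p14_13_1_83)) (pfC_sound p14_13_1_84)) (pfC_sound p14_13_1_85)) (pfC_sound p14_13_1_86)) (pfC_sound p14_13_1_87)) (pfC_sound p14_13_1_88)) (pfC_sound p14_13_1_89)) (pfC_sound p14_13_1_90)) (pfC_sound p14_13_1_91)) (pfC_sound p14_13_1_92)) (pfC_sound p14_13_1_93)) (pfC_sound p14_13_1_94)) (pfC_sound p14_13_1_95)) (pfC_sound p14_13_1_96)) (pfC_sound p14_13_1_97)) (pfC_sound p14_13_1_98)) (pfC_sound p14_13_1_99)) (pfC_sound p14_13_1_100)) (pfC_sound p14_13_1_101)) (pfC_sound p14_13_1_102)) (pfC_sound p14_13_1_103)) (pfC_sound p14_13_1_104)) (pfC_sound p14_13_1_105)) (pfC_sound p14_13_1_106)) (pfC_sound p14_13_1_107)) (pfC_sound p14_13_1_108)) (pfC_sound p14_13_1_109)) (pfC_sound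 p14_13_1_110)) (pfC_sound p14_13_1_111)) (pfC_sound p14_13_1_112)) (pfC_sound p14_13_1_113)) (pfC_sound p14_13_1_114)) (pfC_sound p14_13_1_115)) (pfC_sound p14_13_1_116)) (pfC_sound p14_13_1_117)) (pfC_sound p14_13_1_118)) (pfC_sound p14_13_1_119)) (pfC_sound p14_13_1_120)) (pfC_sound p14_13_1_121)) (pfC_sound p14_13_1_122)) (pfC_sound p14_13_1_123)) (pfC_sound p14_13_1_124)) (pfC_sound p14_13_1_125)) (pfC_sound
 p14_13_1_126)) (pfC_sound p14_13_1_127)) (pfC_sound p14_13_1_128)) (pfC_sound p14_13_1_129)) (pfC_sound p14_13_1_130)) (pfC_sound p14_13_1_131)) (pfC_sound p14_13_1_132)) (pfC_sound p14_13_1_133)) (pfC_sound p14_13_1_134)) (pfC_sound p14_13_1_135)) (pfC_sound p14_13_1_136)) (pfC_sound p14_13_1_137)) (pfC_sound p14_13_1_138)) (pfC_sound p14_13_1_139)) (pfC_sound p14_13_1_140)) (pfC_sound p14_13_1_141)) (pfC_sound p14_13_1_142)) (pfC_sound p14_13_1_143)) (pfC_sound p14_13_1_144)) (pfC_sound p14_13_1_145)) (pfC_sound p14_13_1_146)) (by decide +kernel)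

def z14_13_1 : zOK yB14_13 (nat_lit 1) (nat_lit 400) (nat_lit 600) (nat_lit 10555529) (nat_lit 6911493) = true := by decide +kernel
def g14_13_1 : gOK yB14_13.x P14_13 (nat_lit 1421) (q14_13 :: r14_13) (nat_lit 1) (nat_lit 400) (nat_lit 2) (nat_lit 600) (nat_lit 11000000) (nat_lit 17850000) (nat_lit 12712500) (nat_lit 12712500) [(nat_lit 800), (nat_lit 1040)] = true := by decide +kernel
def v14_13_1 : ivC P14_13 s14_13 w14_13 n14_13 (nat_lit 4) (nat_lit 5000) (nat_lit 1) (nat_lit 400) f160_1_400 f168_1_400 (nat_lit 2) (nat_lit 600) f160_1_600 f168_1_600 (nat_lit 10555529) (nat_lit 6911493) p14_13_1 = true := by decide +kernel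
def p14_13_2 : PF := (PF.cons (PF.cons (PF.cons (PF.cons (PF.leaf (nat_lit 2696003) (nat_lit 15430836) (nat_lit 51677976) (nat_lit 15430836) [(nat_lit 0), (nat_lit 0), (nat_lit 0), (nat_lit 0)]) (PF.cons (PF.leaf (nat_lit 2856680) (nat_lit 280944) (nat_lit 51411834) (nat_lit 15416033) [(nat_lit 280944), (nat_lit 0), (nat_lit 0), (nat_lit 0)]) (PF.cons (PF.leaf (nat_lit 3046731) (nat_lit 305256) (nat_lit 51100906) (nat_lit 15397393) [(nat_lit 305256), (nat_lit 0), (nat_lit 0), (nat_lit 0)]) (PF.cons (PF.leaf (nat_lit 3259832) (nat_lit 326740) (nat_lit 50753672) (nat_lit 15374918) [(nat_lit 326740), (nat_lit 0), (nat_lit 0), (nat_lit 0)]) (PF.cons (PF.leaf (nat_lit 3492676) (nat_lit 346023) (nat_lit 50376167) (nat_lit 15348549) [(nat_lit 346023), (nat_lit 0), (nat_lit 0), (nat_lit 0)]) (PF.cons (PF.leaf (nat_lit 3742556) (nat_lit 363507) (nat_lit 49973052) (nat_lit 15318223) [(nat_lit 363507), (nat_lit 0), (nat_lit 0), (nat_lit 0)]) (PF.cons (PF.leaf (nat_lit 4007382)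 (nat_lit 379466) (nat_lit 49548124) (nat_lit 15283889) [(nat_lit 379466), (nat_lit 0), (nat_lit 0), (nat_lit 0)]) (PF.cons (PF.leaf (nat_lit 4285356) (nat_lit 394101) (nat_lit 49104579) (nat_lit 15245521) [(nat_lit 394101), (nat_lit 0),
 (nat_lit 0), (nat_lit 0)]) (PF.cons (PF.leaf (nat_lit 4574927) (nat_lit 407564) (nat_lit 48645175) (nat_lit 15203122) [(nat_lit 407564), (nat_lit 0), (nat_lit 0), (nat_lit 0)]) (PF.cons PF.nil (PF.cons PF.nil (PF.cons PF.nil PF.nil)))))))))))) (PF.cons (PF.cons (PF.leaf (nat_lit 3237256) (nat_lit 1273111) (nat_lit 50483755) (nat_lit 15351946) [(nat_lit 0), (nat_lit 1273111), (nat_lit 0), (nat_lit 0)]) (PF.cons (PF.leaf (nat_lit 3444077) (nat_lit 336965) (nat_lit 50140547) (nat_lit 15326712) [(nat_lit 336965), (nat_lit 1304587), (nat_lit 0), (nat_lit 0)]) (PF.cons (PF.leaf (nat_lit 3672783) (nat_lit 355508) (nat_lit 49765308) (nat_lit 15297304) [(nat_lit 355508), (nat_lit 1335183), (nat_lit 0), (nat_lit 0)]) (PF.cons (PF.leaf (nat_lit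 3919249) (nat_lit 372250) (nat_lit 49363839) (nat_lit 15263783) [(nat_lit 372250), (nat_lit 1364437), (nat_lit 0), (nat_lit 0)]) (PF.cons (PF.leaf (nat_lit 4181000) (nat_lit 387496) (nat_lit 48940515) (nat_lit 15226181) [(nat_lit 387496), (nat_lit 1392130), (nat_lit 0), (nat_lit 0)]) (PF.cons (PF.leaf (nat_lit 4456041) (nat_lit 401454) (nat_lit 48498838) (nat_lit 15184535) [(nat_lit 401454), (nat_lit 1418167), (nat_lit 0), (nat_lit 0)]) (PF.cons
 (PF.leaf (nat_lit 4742713) (nat_lit 414278) (nat_lit 48041728) (nat_lit 15138891) [(nat_lit 414278), (nat_lit 1442521), (nat_lit 0), (nat_lit 0)]) (PF.cons (PF.leaf (nat_lit 5039568) (nat_lit 426086) (nat_lit 47571683) (nat_lit 15089315) [(nat_lit 426086), (nat_lit 1465205), (nat_lit 0), (nat_lit 0)]) (PF.cons PF.nil (PF.cons PF.nil PF.nil)))))))))) (PF.cons (PF.cons (PF.leaf (nat_lit 3856195) (nat_lit 1363759) (nat_lit 49141364) (nat_lit 15239929) [(nat_lit 0), (nat_lit 1363759), (nat_lit 0), (nat_lit 0)]) (PF.cons (PF.leaf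 (nat_lit 4096967) (nat_lit 379715) (nat_lit 48745573) (nat_lit 15203693) [(nat_lit 379715), (nat_lit 1389915), (nat_lit 0), (nat_lit 0)]) (PF.cons (PF.leaf (nat_lit 4354516) (nat_lit 394443) (nat_lit 48326887) (nat_lit 15163238) [(nat_lit 394443), (nat_lit 1414900), (nat_lit 0), (nat_lit 0)]) (PF.cons (PF.leaf (nat_lit 4625792) (nat_lit 407869) (nat_lit 47889461) (nat_lit 15118684) [(nat_lit 407869), (nat_lit 1438528), (nat_lit 0), (nat_lit 0)]) (PF.cons (PF.leaf (nat_lit 4908956) (nat_lit 420168) (nat_lit 47436571) (nat_lit 15070141) [(nat_lit 420168), (nat_lit 1460713), (nat_lit 0), (nat_lit 0)]) (PF.cons (PF.leaf (nat_lit 5202392) (nat_lit 431466) (nat_lit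
 46970914) (nat_lit 15017717) [(nat_lit 431466), (nat_lit 1481424), (nat_lit 0), (nat_lit 0)]) (PF.cons PF.nil (PF.cons PF.nil (PF.cons PF.nil PF.nil))))))))) (PF.cons (PF.cons (PF.leaf (nat_lit 4529520) (nat_lit 1435512) (nat_lit 47707184) (nat_lit 15095089) [(nat_lit 0), (nat_lit 1435512), (nat_lit 0), (nat_lit 0)]) (PF.cons (PF.leaf (nat_lit 4795430) (nat_lit 413382) (nat_lit 47276640) (nat_lit 15048068) [(nat_lit 413382), (nat_lit 1456907), (nat_lit 0), (nat_lit 0)]) (PF.cons (PF.leaf (nat_lit 5074265) (nat_lit 425268) (nat_lit 46830010) (nat_lit 14997014) [(nat_lit 425268), (nat_lit 1477083), (nat_lit 0), (nat_lit 0)]) (PF.cons (PF.leaf (nat_lit 5363720) (nat_lit 436145) (nat_lit 46370376) (nat_lit 14942096) [(nat_lit 436145), (nat_lit 1495967), (nat_lit 0), (nat_lit 0)]) (PF.cons (PF.leaf (nat_lit 5662265) (nat_lit 446123) (nat_lit 45900241) (nat_lit 14883471) [(nat_lit 446123), (nat_lit 1513534), (nat_lit 0), (nat_lit 0)]) (PF.cons PF.nil (PF.cons PF.nil PF.nil)))))))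 (PF.cons (PF.cons (PF.leaf (nat_lit 5239902) (nat_lit 1491799) (nat_lit 46222008) (nat_lit 14919608) [(nat_lit 0), (nat_lit 1491799), (nat_lit 0), (nat_lit 0)]) (PF.cons (PF.leaf (nat_lit 5524121) (nat_lit
 440144) (nat_lit 45770172) (nat_lit 14862589) [(nat_lit 440144), (nat_lit 1508976), (nat_lit 0), (nat_lit 0)]) (PF.cons (PF.leaf (nat_lit 5818275) (nat_lit 449778) (nat_lit 45307444) (nat_lit 14801882) [(nat_lit 449778), (nat_lit 1524982), (nat_lit 0), (nat_lit 0)]) (PF.cons (PF.leaf (nat_lit 6120486) (nat_lit 458596) (nat_lit 44836155) (nat_lit 14737685) [(nat_lit 458596), (nat_lit 1539796), (nat_lit 0), (nat_lit 0)]) (PF.cons PF.nil PF.nil))))) (PF.cons (PF.cons (PF.leaf (nat_lit 5973828) (nat_lit 1535118) (nat_lit 44716337) (nat_lit 14716883) [(nat_lit 0), (nat_lit 1535118), (nat_lit 0), (nat_lit 0)]) (PF.cons (PF.leaf (nat_lit 6270932) (nat_lit 461372) (nat_lit 44253507) (nat_lit 14651006) [(nat_lit 461372), (nat_lit 1548585), (nat_lit 0), (nat_lit 0)]) (PF.cons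 PF.nil (PF.cons PF.nil PF.nil)))) (PF.cons (PF.cons (PF.leaf (nat_lit 6720598) (nat_lit 1567456) (nat_lit 43213123) (nat_lit 14490951) [(nat_lit 0), (nat_lit 1567456), (nat_lit 0), (nat_lit 0)]) (PF.cons PF.nil PF.nil)) (PF.cons PF.nil PF.nil)))))))) (PF.cons (PF.cons (PF.cons (PF.leaf (nat_lit 3781910) (nat_lit 3300992) (nat_lit 48636094) (nat_lit 15171725) [(nat_lit 0), (nat_lit 0), (nat_lit 3300992), (nat_lit 0)])
 (PF.cons (PF.leaf (nat_lit 3997477) (nat_lit 359859) (nat_lit 48284467) (nat_lit 15137764) [(nat_lit 359859), (nat_lit 0), (nat_lit 3326721), (nat_lit 0)]) (PF.cons (PF.leaf (nat_lit 4233841) (nat_lit 377094) (nat_lit 47903115) (nat_lit 15099219) [(nat_lit 377094), (nat_lit 0), (nat_lit 3352290), (nat_lit 0)]) (PF.cons (PF.leaf (nat_lit 4486661) (nat_lit 392436) (nat_lit 47498075) (nat_lit 15056368) [(nat_lit 392436), (nat_lit 0), (nat_lit 3377058), (nat_lit 0)]) (PF.cons (PF.leaf (nat_lit 4753494) (nat_lit 406249) (nat_lit 47073791) (nat_lit 15009407)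 [(nat_lit 406249), (nat_lit 0), (nat_lit 3400616), (nat_lit 0)]) (PF.cons (PF.leaf (nat_lit 5032300) (nat_lit 418776) (nat_lit 46633734) (nat_lit 14958499) [(nat_lit 418776), (nat_lit 0), (nat_lit 3422697), (nat_lit 0)]) (PF.cons (PF.leaf (nat_lit 5321447) (nat_lit 430191) (nat_lit 46180737) (nat_lit 14903794) [(nat_lit 430191), (nat_lit 0), (nat_lit 3443133), (nat_lit 0)]) (PF.cons PF.nil (PF.cons PF.nil PF.nil))))))))) (PF.cons (PF.cons (PF.leaf (nat_lit 4412123) (nat_lit 1415724) (nat_lit 47285161) (nat_lit 15028841) [(nat_lit 0), (nat_lit 1415724), (nat_lit 3379084), (nat_lit 0)]) (PF.cons (PF.leaf (nat_lit 4658294) (nat_lit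
 397852) (nat_lit 46888716) (nat_lit 14984041) [(nat_lit 397852), (nat_lit 1437596), (nat_lit 3400605), (nat_lit 0)]) (PF.cons (PF.leaf (nat_lit 4920047) (nat_lit 411317) (nat_lit 46471691) (nat_lit 14934973) [(nat_lit 411317), (nat_lit 1458345), (nat_lit 3421166), (nat_lit 0)]) (PF.cons (PF.leaf (nat_lit 5194355) (nat_lit 423460) (nat_lit 46038236) (nat_lit 14881897) [(nat_lit 423460), (nat_lit 1477838), (nat_lit 3440459), (nat_lit 0)]) (PF.cons (PF.leaf (nat_lit 5479370) (nat_lit 434480) (nat_lit 45591558) (nat_lit 14825025) [(nat_lit 434480), (nat_lit 1496017), (nat_lit 3458288), (nat_lit 0)]) (PF.cons (PF.leaf (nat_lit 5773535) (nat_lit 444521) (nat_lit 45134252) (nat_lit 14764548) [(nat_lit 444521), (nat_lit 1512872), (nat_lit 3474534), (nat_lit 0)]) (PF.cons PF.nil PF.nil))))))) (PF.cons (PF.cons (PF.leaf (nat_lit 5088097) (nat_lit 1473752) (nat_lit 45866282) (nat_lit 14856125) [(nat_lit 0), (nat_lit 1473752), (nat_lit 3438900), (nat_lit 0)]) (PF.cons (PF.leaf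 (nat_lit 5356397) (nat_lit 427374) (nat_lit 45441687) (nat_lit 14801333) [(nat_lit 427374), (nat_lit 1491419), (nat_lit 3455578), (nat_lit 0)]) (PF.cons (PF.leaf (nat_lit 5636524) (nat_lit 438100) (nat_lit 45003045)
 (nat_lit 14742681) [(nat_lit 438100), (nat_lit 1507955), (nat_lit 3470974), (nat_lit 0)]) (PF.cons (PF.leaf (nat_lit 5926202) (nat_lit 447824) (nat_lit 44553342) (nat_lit 14680425) [(nat_lit 447824), (nat_lit 1523312), (nat_lit 3484945), (nat_lit 0)]) (PF.cons (PF.leaf (nat_lit 6223985) (nat_lit 456672) (nat_lit 44094966) (nat_lit 14614786) [(nat_lit 456672), (nat_lit 1537480), (nat_lit 3497408), (nat_lit 0)]) PF.nil))))) (PF.cons (PF.cons (PF.leaf (nat_lit 5794077) (nat_lit 1518560) (nat_lit 44414938) (nat_lit 14656830) [(nat_lit 0), (nat_lit 1518560), (nat_lit 3481362), (nat_lit 0)]) (PF.cons (PF.leaf (nat_lit 6078119) (nat_lit 450543) (nat_lit 43974345) (nat_lit 14593177) [(nat_lit 450543), (nat_lit 1532512), (nat_lit 3493210), (nat_lit 0)]) (PF.cons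 (PF.leaf (nat_lit 6371169) (nat_lit 459135) (nat_lit 43524537) (nat_lit 14526135) [(nat_lit 459135), (nat_lit 1545393), (nat_lit 3503687), (nat_lit 0)]) (PF.cons PF.nil PF.nil)))) (PF.cons (PF.cons (PF.leaf (nat_lit 6518024) (nat_lit 1552237) (nat_lit 42956984) (nat_lit 14434782) [(nat_lit 0), (nat_lit 1552237), (nat_lit 3508093), (nat_lit 0)]) (PF.cons (PF.leaf (nat_lit 6812873) (nat_lit 468672) (nat_lit 42509447) (nat_lit
 14363554) [(nat_lit 468672), (nat_lit 1562930), (nat_lit 3515416), (nat_lit 0)]) PF.nil)) (PF.cons PF.nil PF.nil)))))) (PF.cons (PF.cons (PF.cons (PF.leaf (nat_lit 4955776) (nat_lit 3421155) (nat_lit 45478772) (nat_lit 14787729) [(nat_lit 0), (nat_lit 0), (nat_lit 3421155), (nat_lit 0)]) (PF.cons (PF.leaf (nat_lit 5205237) (nat_lit 412038) (nat_lit 45086752) (nat_lit 14735924) [(nat_lit 412038), (nat_lit 0), (nat_lit 3437048), (nat_lit 0)]) (PF.cons (PF.leaf (nat_lit 5469222) (nat_lit 424385) (nat_lit 44676196) (nat_lit 14679907) [(nat_lit 424385),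 (nat_lit 0), (nat_lit 3451968), (nat_lit 0)]) (PF.cons (PF.leaf (nat_lit 5744765) (nat_lit 435403) (nat_lit 44251180) (nat_lit 14620045) [(nat_lit 435403), (nat_lit 0), (nat_lit 3465688), (nat_lit 0)]) (PF.cons (PF.leaf (nat_lit 6029972) (nat_lit 445309) (nat_lit 43814811) (nat_lit 14556629) [(nat_lit 445309), (nat_lit 0), (nat_lit 3478066), (nat_lit 0)]) (PF.cons (PF.leaf (nat_lit 6323357) (nat_lit 454260) (nat_lit 43369558) (nat_lit 14489910) [(nat_lit 454260), (nat_lit 0), (nat_lit 3489021), (nat_lit 0)]) (PF.cons PF.nil PF.nil))))))) (PF.cons (PF.cons (PF.leaf (nat_lit 5629993) (nat_lit 1500737) (nat_lit 44089992) (nat_lit 14592934)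
 [(nat_lit 0), (nat_lit 1500737), (nat_lit 3462574), (nat_lit 0)]) (PF.cons (PF.leaf (nat_lit 5899037) (nat_lit 438011) (nat_lit 43675140) (nat_lit 14532031) [(nat_lit 438011), (nat_lit 1515286), (nat_lit 3474171), (nat_lit 0)]) (PF.cons (PF.leaf (nat_lit 6178958) (nat_lit 447717) (nat_lit 43247966) (nat_lit 14467486) [(nat_lit 447717), (nat_lit 1528777), (nat_lit 3484573), (nat_lit 0)]) (PF.cons (PF.leaf (nat_lit 6467526) (nat_lit 456438) (nat_lit 42811338) (nat_lit 14399617) [(nat_lit 456438), (nat_lit 1541185), (nat_lit 3493678), (nat_lit 0)]) (PF.cons PF.nil PF.nil))))) (PF.cons (PF.cons (PF.leaf (nat_lit 6328464) (nat_lit 1536054) (nat_lit 42682784) (nat_lit 14375510) [(nat_lit 0), (nat_lit 1536054), (nat_lit 3489204), (nat_lit 0)]) (PF.cons (PF.leaf (nat_lit 6611114) (nat_lit 458105) (nat_lit 42256077) (nat_lit 14306852) [(nat_lit 458105), (nat_lit 1547300), (nat_lit 3496588), (nat_lit 0)]) (PF.cons (PF.leaf (nat_lit 6901935) (nat_lit 465789) (nat_lit 41821528)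 (nat_lit 14235105) [(nat_lit 465789), (nat_lit 1557564), (nat_lit 3502736), (nat_lit 0)]) (PF.cons PF.nil PF.nil)))) (PF.cons (PF.cons (PF.leaf (nat_lit 7040398) (nat_lit 1561734) (nat_lit 41279173) (nat_lit 14139416)
 [(nat_lit 0), (nat_lit 1561734), (nat_lit 3502509), (nat_lit 0)]) (PF.cons PF.nil PF.nil)) (PF.cons PF.nil PF.nil))))) (PF.cons (PF.cons (PF.cons (PF.leaf (nat_lit 6154180) (nat_lit 3469989) (nat_lit 42386481) (nat_lit 14312364) [(nat_lit 0), (nat_lit 0), (nat_lit 3469989), (nat_lit 0)]) (PF.cons (PF.leaf (nat_lit 6422672) (nat_lit 445880) (nat_lit 41983941) (nat_lit 14246819) [(nat_lit 445880), (nat_lit 0), (nat_lit 3477390), (nat_lit 0)]) (PF.cons (PF.leaf (nat_lit 6701233) (nat_lit 454686) (nat_lit 41570543) (nat_lit 14177868) [(nat_lit 454686), (nat_lit 0), (nat_lit 3483675), (nat_lit 0)]) (PF.cons (PF.leaf (nat_lit 6987659) (nat_lit 462525) (nat_lit 41149021) (nat_lit 14105872) [(nat_lit 462525), (nat_lit 0), (nat_lit 3488780), (nat_lit 0)]) (PF.cons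 PF.nil PF.nil))))) (PF.cons (PF.cons (PF.leaf (nat_lit 6842844) (nat_lit 1546045) (nat_lit 41029975) (nat_lit 14081707) [(nat_lit 0), (nat_lit 1546045), (nat_lit 3483694), (nat_lit 0)]) (PF.cons (PF.leaf (nat_lit 7123177) (nat_lit 463327) (nat_lit 40618813) (nat_lit 14009436) [(nat_lit 463327), (nat_lit 1555009), (nat_lit 3487408), (nat_lit 0)]) (PF.cons PF.nil (PF.cons PF.nil PF.nil)))) (PF.cons (PF.cons (PF.leaf (nat_lit
 7541375) (nat_lit 1565065) (nat_lit 39684455) (nat_lit 13835986) [(nat_lit 0), (nat_lit 1565065), (nat_lit 3486079), (nat_lit 0)]) (PF.cons PF.nil PF.nil)) PF.nil))) (PF.cons (PF.cons (PF.cons (PF.leaf (nat_lit 7337414) (nat_lit 3467591) (nat_lit 39458078) (nat_lit 13780366) [(nat_lit 0), (nat_lit 0), (nat_lit 3467591), (nat_lit 0)]) (PF.cons (PF.leaf (nat_lit 7614688) (nat_lit 466612) (nat_lit 39063401) (nat_lit 13705648) [(nat_lit 466612), (nat_lit 0), (nat_lit 3468287), (nat_lit 0)]) (PF.cons PF.nil PF.nil))) (PF.cons (PF.cons (PF.leaf (nat_lit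 8021620) (nat_lit 1563409) (nat_lit 38172315) (nat_lit 13528660) [(nat_lit 0), (nat_lit 1563409), (nat_lit 3461106), (nat_lit 0)]) PF.nil) PF.nil)) (PF.cons PF.nil (PF.cons PF.nil (PF.cons PF.nil PF.nil)))))))) (PF.cons (PF.cons (PF.cons (PF.cons (PF.leaf (nat_lit 4710877) (nat_lit 8888297) (nat_lit 43792259) (nat_lit 14428256) [(nat_lit 0), (nat_lit 0), (nat_lit 0), (nat_lit 8888297)]) (PF.cons (PF.leaf (nat_lit 4923961) (nat_lit 369238) (nat_lit 43476474) (nat_lit 14384142) [(nat_lit 369238), (nat_lit 0), (nat_lit 0), (nat_lit 8878956)]) (PF.cons (PF.leaf (nat_lit 5156266) (nat_lit 385286) (nat_lit 43135424) (nat_lit 14335268)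
 [(nat_lit 385286), (nat_lit 0), (nat_lit 0), (nat_lit 8867547)]) (PF.cons (PF.leaf (nat_lit 5403520) (nat_lit 399306) (nat_lit 42774658) (nat_lit 14282200) [(nat_lit 399306), (nat_lit 0), (nat_lit 0), (nat_lit 8854034)]) (PF.cons (PF.leaf (nat_lit 5663216) (nat_lit 411711) (nat_lit 42398215) (nat_lit 14225349) [(nat_lit 411711), (nat_lit 0), (nat_lit 0), (nat_lit 8838399)]) (PF.cons (PF.leaf (nat_lit 5933350) (nat_lit 422784) (nat_lit 42009209) (nat_lit 14165040) [(nat_lit 422784), (nat_lit 0), (nat_lit 0), (nat_lit 8820641)]) (PF.cons (PF.leaf (nat_lit 6212345) (nat_lit 432726) (nat_lit 41610137) (nat_lit 14101542) [(nat_lit 432726), (nat_lit 0), (nat_lit 0), (nat_lit 8800775)]) (PF.cons (PF.leaf (nat_lit 6498892) (nat_lit 441689) (nat_lit 41203058) (nat_lit 14035094) [(nat_lit 441689), (nat_lit 0), (nat_lit 0), (nat_lit 8778835)]) (PF.cons PF.nil PF.nil))))))))) (PF.cons (PF.cons (PF.leaf (nat_lit 5319463) (nat_lit 1425527) (nat_lit 42590846) (nat_lit 14250944)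 [(nat_lit 0), (nat_lit 1425527), (nat_lit 0), (nat_lit 8841495)]) (PF.cons (PF.leaf (nat_lit 5559351) (nat_lit 402744) (nat_lit 42239477) (nat_lit 14197263) [(nat_lit 402744), (nat_lit 1443002), (nat_lit 0), (nat_lit
 8826326)]) (PF.cons (PF.leaf (nat_lit 5813317) (nat_lit 414896) (nat_lit 41871107) (nat_lit 14139604) [(nat_lit 414896), (nat_lit 1459294), (nat_lit 0), (nat_lit 8809013)]) (PF.cons (PF.leaf (nat_lit 6078420) (nat_lit 425678) (nat_lit 41489447) (nat_lit 14078396) [(nat_lit 425678), (nat_lit 1474341), (nat_lit 0), (nat_lit 8789591)]) (PF.cons (PF.leaf (nat_lit 6352869) (nat_lit 435319) (nat_lit 41097328) (nat_lit 14013970) [(nat_lit 435319), (nat_lit 1488138), (nat_lit 0), (nat_lit 8768100)]) (PF.cons (PF.leaf (nat_lit 6635143) (nat_lit 443980) (nat_lit 40697004) (nat_lit 13946605) [(nat_lit 443980), (nat_lit 1500711), (nat_lit 0), (nat_lit 8744588)]) (PF.cons PF.nil PF.nil))))))) (PF.cons (PF.cons (PF.leaf (nat_lit 5964945) (nat_lit 1469019) (nat_lit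 41342883) (nat_lit 14050933) [(nat_lit 0), (nat_lit 1469019), (nat_lit 0), (nat_lit 8776956)]) (PF.cons (PF.leaf (nat_lit 6223635) (nat_lit 427921) (nat_lit 40970331) (nat_lit 13989236) [(nat_lit 427921), (nat_lit 1482605), (nat_lit 0), (nat_lit 8756112)]) (PF.cons (PF.leaf (nat_lit 6492853) (nat_lit 437356) (nat_lit 40586466) (nat_lit 13924218) [(nat_lit 437356), (nat_lit 1495103), (nat_lit 0), (nat_lit 8733207)]) (PF.cons (PF.leaf
 (nat_lit 6770392) (nat_lit 445790) (nat_lit 40193888) (nat_lit 13856222) [(nat_lit 445790), (nat_lit 1506506), (nat_lit 0), (nat_lit 8708316)]) (PF.cons (PF.leaf (nat_lit 7054887) (nat_lit 453362) (nat_lit 39794652) (nat_lit 13785530) [(nat_lit 453362), (nat_lit 1516834), (nat_lit 0), (nat_lit 8681511)]) PF.nil))))) (PF.cons (PF.cons (PF.leaf (nat_lit 6633455) (nat_lit 1501069) (nat_lit 40077148) (nat_lit 13832291) [(nat_lit 0), (nat_lit 1501069), (nat_lit 0), (nat_lit 8696162)]) (PF.cons (PF.leaf (nat_lit 6905197) (nat_lit 447119) (nat_lit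 39693463) (nat_lit 13763984) [(nat_lit 447119), (nat_lit 1511382), (nat_lit 0), (nat_lit 8670097)]) (PF.cons (PF.leaf (nat_lit 7184839) (nat_lit 454517) (nat_lit 39302534) (nat_lit 13692932) [(nat_lit 454517), (nat_lit 1520722), (nat_lit 0), (nat_lit 8642145)]) (PF.cons PF.nil PF.nil)))) (PF.cons (PF.cons (PF.leaf (nat_lit 7314835) (nat_lit 1523825) (nat_lit 38813661) (nat_lit 13598771) [(nat_lit 0), (nat_lit 1523825), (nat_lit 0), (nat_lit 8601079)]) (PF.cons (PF.leaf (nat_lit 7595295) (nat_lit 461743) (nat_lit 38426059) (nat_lit 13525145) [(nat_lit 461743), (nat_lit 1531365), (nat_lit 0), (nat_lit 8570401)]) PF.nil)) (PF.cons PF.nil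
 PF.nil)))))) (PF.cons (PF.cons (PF.cons (PF.leaf (nat_lit 5819372) (nat_lit 3366153) (nat_lit 41020949) (nat_lit 13982453) [(nat_lit 0), (nat_lit 0), (nat_lit 3366153), (nat_lit 8739257)]) (PF.cons (PF.leaf (nat_lit 6060688) (nat_lit 412496) (nat_lit 40676773) (nat_lit 13924721) [(nat_lit 412496), (nat_lit 0), (nat_lit 3375271), (nat_lit 8719549)]) (PF.cons (PF.leaf (nat_lit 6315215) (nat_lit 423650) (nat_lit 40317226) (nat_lit 13863152) [(nat_lit 423650), (nat_lit 0), (nat_lit 3383425), (nat_lit 8697707)]) (PF.cons (PF.leaf (nat_lit 6580026) (nat_lit 433455) (nat_lit 39945899) (nat_lit 13798229) [(nat_lit 433455), (nat_lit 0), (nat_lit 3390482), (nat_lit 8673834)]) (PF.cons (PF.leaf (nat_lit 6853337) (nat_lit 442148) (nat_lit 39565497) (nat_lit 13730329) [(nat_lit 442148), (nat_lit 0), (nat_lit 3396373), (nat_lit 8648020)]) (PF.cons (PF.leaf (nat_lit 7133729) (nat_lit 449899) (nat_lit 39178145) (nat_lit 13659755) [(nat_lit 449899), (nat_lit 0), (nat_lit 3401065),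 (nat_lit 8620349)]) (PF.cons PF.nil PF.nil))))))) (PF.cons (PF.cons (PF.leaf (nat_lit 6459976) (nat_lit 1483013) (nat_lit 39809227) (nat_lit 13770636) [(nat_lit 0), (nat_lit 1483013), (nat_lit 3385659), (nat_lit
 8660276)]) (PF.cons (PF.leaf (nat_lit 6718120) (nat_lit 434706) (nat_lit 39447667) (nat_lit 13705688) [(nat_lit 434706), (nat_lit 1494152), (nat_lit 3391204), (nat_lit 8635393)]) (PF.cons (PF.leaf (nat_lit 6986011) (nat_lit 443276) (nat_lit 39076088) (nat_lit 13637633) [(nat_lit 443276), (nat_lit 1504288), (nat_lit 3395691), (nat_lit 8608559)]) (PF.cons (PF.leaf (nat_lit 7261502) (nat_lit 450871) (nat_lit 38696963) (nat_lit 13566844) [(nat_lit 450871), (nat_lit 1513426), (nat_lit 3399077), (nat_lit 8579884)]) (PF.cons PF.nil PF.nil))))) (PF.cons (PF.cons (PF.leaf (nat_lit 7119433) (nat_lit 1507861) (nat_lit 38588868) (nat_lit 13543205) [(nat_lit 0), (nat_lit 1507861), (nat_lit 3393684), (nat_lit 8567331)]) (PF.cons (PF.leaf (nat_lit 7389002) (nat_lit 451421)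 (nat_lit 38218972) (nat_lit 13472501) [(nat_lit 451421), (nat_lit 1516102), (nat_lit 3395869), (nat_lit 8537843)]) (PF.cons (PF.leaf (nat_lit 7665803) (nat_lit 458072) (nat_lit 37842817) (nat_lit 13399295) [(nat_lit 458072), (nat_lit 1523455), (nat_lit 3397019), (nat_lit 8506625)]) (PF.cons PF.nil PF.nil)))) (PF.cons (PF.cons (PF.leaf (nat_lit 7788574) (nat_lit 1524670) (nat_lit 37376975) (nat_lit 13303780) [(nat_lit 0),
 (nat_lit 1524670), (nat_lit 3391629), (nat_lit 8462414)]) (PF.cons PF.nil PF.nil)) (PF.cons PF.nil PF.nil))))) (PF.cons (PF.cons (PF.cons (PF.leaf (nat_lit 6938639) (nat_lit 3374147) (nat_lit 38344837) (nat_lit 13483785) [(nat_lit 0), (nat_lit 0), (nat_lit 3374147), (nat_lit 8531895)]) (PF.cons (PF.leaf (nat_lit 7195353) (nat_lit 439454) (nat_lit 37995565) (nat_lit 13416556) [(nat_lit 439454), (nat_lit 0), (nat_lit 3376711), (nat_lit 8503814)]) (PF.cons (PF.leaf (nat_lit 7461177) (nat_lit 447261) (nat_lit 37637372) (nat_lit 13346432) [(nat_lit 447261),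 (nat_lit 0), (nat_lit 3378294), (nat_lit 8473894)]) (PF.cons (PF.leaf (nat_lit 7733974) (nat_lit 454122) (nat_lit 37272606) (nat_lit 13273806) [(nat_lit 454122), (nat_lit 0), (nat_lit 3378877), (nat_lit 8442276)]) (PF.cons PF.nil PF.nil))))) (PF.cons (PF.cons (PF.leaf (nat_lit 7587695) (nat_lit 1509447) (nat_lit 37172657) (nat_lit 13250687) [(nat_lit 0), (nat_lit 1509447), (nat_lit 3373224), (nat_lit 8429572)]) (PF.cons (PF.leaf (nat_lit 7854492) (nat_lit 454032) (nat_lit 36817236) (nat_lit 13178469) [(nat_lit 454032), (nat_lit 1515941), (nat_lit 3372844), (nat_lit 8397444)]) (PF.cons PF.nil (PF.cons PF.nil PF.nil)))) (PF.cons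
 (PF.cons (PF.leaf (nat_lit 8243877) (nat_lit 1521302) (nat_lit 36013379) (nat_lit 13008081) [(nat_lit 0), (nat_lit 1521302), (nat_lit 3363727), (nat_lit 8317292)]) (PF.cons PF.nil PF.nil)) PF.nil))) (PF.cons (PF.cons (PF.cons (PF.leaf (nat_lit 8038696) (nat_lit 3346005) (nat_lit 35827584) (nat_lit 12957615) [(nat_lit 0), (nat_lit 0), (nat_lit 3346005), (nat_lit 8285597)]) (PF.cons (PF.leaf (nat_lit 8302251) (nat_lit 455245) (nat_lit 35486911) (nat_lit 12884611) [(nat_lit 455245), (nat_lit 0), (nat_lit 3343520), (nat_lit 8251483)]) (PF.cons PF.nil PF.nil))) (PF.cons (PF.cons (PF.leaf (nat_lit 8681465) (nat_lit 1514533) (nat_lit 34720806) (nat_lit 12714035) [(nat_lit 0), (nat_lit 1514533), (nat_lit 3330481), (nat_lit 8167993)]) PF.nil) PF.nil)) (PF.cons PF.nil (PF.cons PF.nil PF.nil)))))) (PF.cons (PF.cons (PF.cons (PF.cons (PF.leaf (nat_lit 6583955) (nat_lit 8345149) (nat_lit 37232601) (nat_lit 13185912) [(nat_lit 0), (nat_lit 0), (nat_lit 0), (nat_lit 8345149)]) (PF.cons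 (PF.leaf (nat_lit 6816437) (nat_lit 407813) (nat_lit 36931757) (nat_lit 13127080) [(nat_lit 407813), (nat_lit 0), (nat_lit 0), (nat_lit 8321080)]) (PF.cons (PF.leaf (nat_lit 7061119) (nat_lit 417988) (nat_lit
 36617975) (nat_lit 13064786) [(nat_lit 417988), (nat_lit 0), (nat_lit 0), (nat_lit 8295037)]) (PF.cons (PF.leaf (nat_lit 7315091) (nat_lit 426824) (nat_lit 36294390) (nat_lit 12999558) [(nat_lit 426824), (nat_lit 0), (nat_lit 0), (nat_lit 8267195)]) (PF.cons (PF.leaf (nat_lit 7576660) (nat_lit 434568) (nat_lit 35963341) (nat_lit 12931799) [(nat_lit 434568), (nat_lit 0), (nat_lit 0), (nat_lit 8237697)]) (PF.cons PF.nil (PF.cons PF.nil PF.nil))))))) (PF.cons (PF.cons (PF.leaf (nat_lit 7192452) (nat_lit 1451026) (nat_lit 36178480) (nat_lit 12973051) [(nat_lit 0), (nat_lit 1451026), (nat_lit 0), (nat_lit 8253127)]) (PF.cons (PF.leaf (nat_lit 7439748) (nat_lit 427160) (nat_lit 35863821) (nat_lit 12908363) [(nat_lit 427160), (nat_lit 1459755), (nat_lit 0), (nat_lit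 8224856)]) (PF.cons (PF.leaf (nat_lit 7695934) (nat_lit 434840) (nat_lit 35540814) (nat_lit 12840995) [(nat_lit 434840), (nat_lit 1467541), (nat_lit 0), (nat_lit 8194890)]) (PF.cons (PF.leaf (nat_lit 7958916) (nat_lit 441572) (nat_lit 35211592) (nat_lit 12771332) [(nat_lit 441572), (nat_lit 1474411), (nat_lit 0), (nat_lit 8163379)]) (PF.cons PF.nil PF.nil))))) (PF.cons (PF.cons (PF.leaf (nat_lit 7816217) (nat_lit 1468727)
 (nat_lit 35120446) (nat_lit 12749112) [(nat_lit 0), (nat_lit 1468727), (nat_lit 0), (nat_lit 8150900)]) (PF.cons (PF.leaf (nat_lit 8073375) (nat_lit 441387) (nat_lit 34799489) (nat_lit 12680005) [(nat_lit 441387), (nat_lit 1474892), (nat_lit 0), (nat_lit 8119071)]) (PF.cons PF.nil (PF.cons PF.nil PF.nil)))) (PF.cons (PF.cons (PF.leaf (nat_lit 8447292) (nat_lit 1479614) (nat_lit 34072088) (nat_lit 12517299) [(nat_lit 0), (nat_lit 1479614), (nat_lit 0), (nat_lit 8040290)]) (PF.cons PF.nil PF.nil)) (PF.cons PF.nil PF.nil))))) (PF.cons (PF.cons (PF.cons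 (PF.leaf (nat_lit 7632837) (nat_lit 3260561) (nat_lit 34918438) (nat_lit 12694941) [(nat_lit 0), (nat_lit 0), (nat_lit 3260561), (nat_lit 8117435)]) (PF.cons (PF.leaf (nat_lit 7878273) (nat_lit 429859) (nat_lit 34615035) (nat_lit 12629328) [(nat_lit 429859), (nat_lit 0), (nat_lit 3260108), (nat_lit 8087240)]) (PF.cons (PF.leaf (nat_lit 8132073) (nat_lit 436885) (nat_lit 34304131) (nat_lit 12561217) [(nat_lit 436885), (nat_lit 0), (nat_lit 3258788), (nat_lit 8055452)]) (PF.cons PF.nil (PF.cons PF.nil PF.nil))))) (PF.cons (PF.cons (PF.leaf (nat_lit 8246322) (nat_lit 1465177) (nat_lit 33903439) (nat_lit 12469553) [(nat_lit 0), (nat_lit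
 1465177), (nat_lit 3250820), (nat_lit 8009910)]) (PF.cons (PF.leaf (nat_lit 8500566) (nat_lit 442327) (nat_lit 33595286) (nat_lit 12400099) [(nat_lit 442327), (nat_lit 1469972), (nat_lit 3247962), (nat_lit 7976581)]) (PF.cons PF.nil (PF.cons PF.nil PF.nil)))) (PF.cons (PF.cons (PF.leaf (nat_lit 8865229) (nat_lit 1472286) (nat_lit 32900909) (nat_lit 12238036) [(nat_lit 0), (nat_lit 1472286), (nat_lit 3234413), (nat_lit 7895440)]) (PF.cons PF.nil PF.nil)) PF.nil))) (PF.cons (PF.cons (PF.cons (PF.leaf (nat_lit 8661394) (nat_lit 3217855) (nat_lit 32747229) (nat_lit 12192980) [(nat_lit 0), (nat_lit 0), (nat_lit 3217855), (nat_lit 7866446)]) (PF.cons (PF.leaf (nat_lit 8912404) (nat_lit 442231) (nat_lit 32451856) (nat_lit 12123639) [(nat_lit 442231), (nat_lit 0), (nat_lit 3213492), (nat_lit 7832049)]) PF.nil)) (PF.cons PF.nil PF.nil)) (PF.cons PF.nil (PF.cons PF.nil PF.nil))))) (PF.cons (PF.cons (PF.cons (PF.cons (PF.leaf (nat_lit 8255556) (nat_lit 7716412) (nat_lit 31997350)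 (nat_lit 11962224) [(nat_lit 0), (nat_lit 0), (nat_lit 0), (nat_lit 7716412)]) (PF.cons (PF.leaf (nat_lit 8490427) (nat_lit 418655) (nat_lit 31732725) (nat_lit 11899792) [(nat_lit 418655), (nat_lit 0), (nat_lit 0),
 (nat_lit 7685879)]) (PF.cons (PF.leaf (nat_lit 8733056) (nat_lit 425053) (nat_lit 31461682) (nat_lit 11835176) [(nat_lit 425053), (nat_lit 0), (nat_lit 0), (nat_lit 7653948)]) (PF.cons PF.nil PF.nil)))) (PF.cons (PF.cons (PF.leaf (nat_lit 8837235) (nat_lit 1417760) (nat_lit 31114389) (nat_lit 11749161) [(nat_lit 0), (nat_lit 1417760), (nat_lit 0), (nat_lit 7609167)]) (PF.cons (PF.leaf (nat_lit 9079992) (nat_lit 429526) (nat_lit 30845858) (nat_lit 11683670) [(nat_lit 429526), (nat_lit 1421361), (nat_lit 0), (nat_lit 7576131)]) PF.nil)) (PF.cons PF.nil PF.nil))) (PF.cons (PF.cons (PF.cons (PF.leaf (nat_lit 9222284) (nat_lit 3090112) (nat_lit 30114377) (nat_lit 11492110) [(nat_lit 0), (nat_lit 0), (nat_lit 3090112), (nat_lit 7470737)]) (PF.cons PF.nil PF.nil))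 (PF.cons PF.nil PF.nil)) (PF.cons PF.nil PF.nil))) (PF.cons (PF.cons (PF.cons (PF.cons (PF.leaf (nat_lit 9733596) (nat_lit 7102203) (nat_lit 27846299) (nat_lit 10853699) [(nat_lit 0), (nat_lit 0), (nat_lit 0), (nat_lit 7102203)]) (PF.cons PF.nil PF.nil)) (PF.cons PF.nil PF.nil)) (PF.cons PF.nil PF.nil)) (PF.cons PF.nil (PF.cons PF.nil (PF.cons PF.nil PF.nil))))))))

def p14_13_2_0 : pfC (piC [(nat_lit 39120232), (nat_lit 25510466), (nat_lit 18971201), (nat_lit 12765436)] (nat_lit 6911493)) p14_13_2 (nat_lit 4) (nat_lit 0) (nat_lit 1) = true := by decide +kernel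
def p14_13_2_1 : pfC (piC [(nat_lit 39120232), (nat_lit 25510466), (nat_lit 18971201), (nat_lit 12765436)] (nat_lit 6911493)) p14_13_2 (nat_lit 4) (nat_lit 1) (nat_lit 2) = true := by decide +kernel
def p14_13_2_2 : pfC (piC [(nat_lit 39120232), (nat_lit 25510466), (nat_lit 18971201), (nat_lit 12765436)] (nat_lit 6911493)) p14_13_2 (nat_lit 4) (nat_lit 2) (nat_lit 3) = true := by decide +kernel
def p14_13_2_3 : pfC (piC [(nat_lit 39120232), (nat_lit 25510466), (nat_lit 18971201), (nat_lit 12765436)] (nat_lit 6911493)) p14_13_2 (nat_lit 4) (nat_lit 3) (nat_lit 4) = true := by decide +kernel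
def p14_13_2_4 : pfC (piC [(nat_lit 39120232), (nat_lit 25510466), (nat_lit 18971201), (nat_lit 12765436)] (nat_lit 6911493)) p14_13_2 (nat_lit 4) (nat_lit 4) (nat_lit 5) = true := by decide +kernel
def p14_13_2_5 : pfC (piC [(nat_lit 39120232), (nat_lit 25510466), (nat_lit 18971201), (nat_lit 12765436)] (nat_lit 6911493)) p14_13_2 (nat_lit 4) (nat_lit 5) (nat_lit 6) = true := by decide +kernel
def p14_13_2_6 : pfC (piC [(nat_lit 39120232), (nat_lit 25510466), (nat_lit 18971201), (nat_lit 12765436)] (nat_lit 6911493)) p14_13_2 (nat_lit 4) (nat_lit 6) (nat_lit 7) = true := by decide +kernel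
def p14_13_2_7 : pfC (piC [(nat_lit 39120232), (nat_lit 25510466), (nat_lit 18971201), (nat_lit 12765436)] (nat_lit 6911493)) p14_13_2 (nat_lit 4) (nat_lit 7) (nat_lit 8) = true := by decide +kernel
def p14_13_2_8 : pfC (piC [(nat_lit 39120232), (nat_lit 25510466), (nat_lit 18971201), (nat_lit 12765436)] (nat_lit 6911493)) p14_13_2 (nat_lit 4) (nat_lit 8) (nat_lit 9) = true := by decide +kernel
def p14_13_2_9 : pfC (piC [(nat_lit 39120232), (nat_lit 25510466), (nat_lit 18971201), (nat_lit 12765436)] (nat_lit 6911493)) p14_13_2 (nat_lit 4) (nat_lit 9) (nat_lit 10) = true := by decide +kernel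
def p14_13_2_10 : pfC (piC [(nat_lit 39120232), (nat_lit 25510466), (nat_lit 18971201), (nat_lit 12765436)] (nat_lit 6911493)) p14_13_2 (nat_lit 4) (nat_lit 10) (nat_lit 11) = true := by decide +kernel
def p14_13_2_11 : pfC (piC [(nat_lit 39120232), (nat_lit 25510466), (nat_lit 18971201), (nat_lit 12765436)] (nat_lit 6911493)) p14_13_2 (nat_lit 4) (nat_lit 11) (nat_lit 12) = true := by decide +kernel
def p14_13_2_12 : pfC (piC [(nat_lit 39120232), (nat_lit 25510466), (nat_lit 18971201), (nat_lit 12765436)] (nat_lit 6911493)) p14_13_2 (nat_lit 4) (nat_lit 12) (nat_lit 13) = true := by decide +kernel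
def p14_13_2_13 : pfC (piC [(nat_lit 39120232), (nat_lit 25510466), (nat_lit 18971201), (nat_lit 12765436)] (nat_lit 6911493)) p14_13_2 (nat_lit 4) (nat_lit 13) (nat_lit 14) = true := by decide +kernel
def p14_13_2_14 : pfC (piC [(nat_lit 39120232), (nat_lit 25510466), (nat_lit 18971201), (nat_lit 12765436)] (nat_lit 6911493)) p14_13_2 (nat_lit 4) (nat_lit 14) (nat_lit 15) = true := by decide +kernel
def p14_13_2_15 : pfC (piC [(nat_lit 39120232), (nat_lit 25510466), (nat_lit 18971201), (nat_lit 12765436)] (nat_lit 6911493)) p14_13_2 (nat_lit 4) (nat_lit 15) (nat_lit 16) = true := by decide +kernel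
def p14_13_2_16 : pfC (piC [(nat_lit 39120232), (nat_lit 25510466), (nat_lit 18971201), (nat_lit 12765436)] (nat_lit 6911493)) p14_13_2 (nat_lit 4) (nat_lit 16) (nat_lit 17) = true := by decide +kernel
def p14_13_2_17 : pfC (piC [(nat_lit 39120232), (nat_lit 25510466), (nat_lit 18971201), (nat_lit 12765436)] (nat_lit 6911493)) p14_13_2 (nat_lit 4) (nat_lit 17) (nat_lit 18) = true := by decide +kernel
def p14_13_2_18 : pfC (piC [(nat_lit 39120232), (nat_lit 25510466), (nat_lit 18971201), (nat_lit 12765436)] (nat_lit 6911493)) p14_13_2 (nat_lit 4) (nat_lit 18) (nat_lit 19) = true := by decide +kernel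
def p14_13_2_19 : pfC (piC [(nat_lit 39120232), (nat_lit 25510466), (nat_lit 18971201), (nat_lit 12765436)] (nat_lit 6911493)) p14_13_2 (nat_lit 4) (nat_lit 19) (nat_lit 20) = true := by decide +kernel
def p14_13_2_20 : pfC (piC [(nat_lit 39120232), (nat_lit 25510466), (nat_lit 18971201), (nat_lit 12765436)] (nat_lit 6911493)) p14_13_2 (nat_lit 4) (nat_lit 20) (nat_lit 21) = true := by decide +kernel
def p14_13_2_21 : pfC (piC [(nat_lit 39120232), (nat_lit 25510466), (nat_lit 18971201), (nat_lit 12765436)] (nat_lit 6911493)) p14_13_2 (nat_lit 4) (nat_lit 21) (nat_lit 22) = true := by decide +kernel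
def p14_13_2_22 : pfC (piC [(nat_lit 39120232), (nat_lit 25510466), (nat_lit 18971201), (nat_lit 12765436)] (nat_lit 6911493)) p14_13_2 (nat_lit 4) (nat_lit 22) (nat_lit 23) = true := by decide +kernel
def p14_13_2_23 : pfC (piC [(nat_lit 39120232), (nat_lit 25510466), (nat_lit 18971201), (nat_lit 12765436)] (nat_lit 6911493)) p14_13_2 (nat_lit 4) (nat_lit 23) (nat_lit 24) = true := by decide +kernel
def p14_13_2_24 : pfC (piC [(nat_lit 39120232), (nat_lit 25510466), (nat_lit 18971201), (nat_lit 12765436)] (nat_lit 6911493)) p14_13_2 (nat_lit 4) (nat_lit 24) (nat_lit 25) = true := by decide +kernel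
def p14_13_2_25 : pfC (piC [(nat_lit 39120232), (nat_lit 25510466), (nat_lit 18971201), (nat_lit 12765436)] (nat_lit 6911493)) p14_13_2 (nat_lit 4) (nat_lit 25) (nat_lit 26) = true := by decide +kernel
def p14_13_2_26 : pfC (piC [(nat_lit 39120232), (nat_lit 25510466), (nat_lit 18971201), (nat_lit 12765436)] (nat_lit 6911493)) p14_13_2 (nat_lit 4) (nat_lit 26) (nat_lit 27) = true := by decide +kernel
def p14_13_2_27 : pfC (piC [(nat_lit 39120232), (nat_lit 25510466), (nat_lit 18971201), (nat_lit 12765436)] (nat_lit 6911493)) p14_13_2 (nat_lit 4) (nat_lit 27) (nat_lit 28) = true := by decide +kernel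
def p14_13_2_28 : pfC (piC [(nat_lit 39120232), (nat_lit 25510466), (nat_lit 18971201), (nat_lit 12765436)] (nat_lit 6911493)) p14_13_2 (nat_lit 4) (nat_lit 28) (nat_lit 29) = true := by decide +kernel
def p14_13_2_29 : pfC (piC [(nat_lit 39120232), (nat_lit 25510466), (nat_lit 18971201), (nat_lit 12765436)] (nat_lit 6911493)) p14_13_2 (nat_lit 4) (nat_lit 29) (nat_lit 30) = true := by decide +kernel
def p14_13_2_30 : pfC (piC [(nat_lit 39120232), (nat_lit 25510466), (nat_lit 18971201), (nat_lit 12765436)] (nat_lit 6911493)) p14_13_2 (nat_lit 4) (nat_lit 30) (nat_lit 31) = true := by decide +kernel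
def p14_13_2_31 : pfC (piC [(nat_lit 39120232), (nat_lit 25510466), (nat_lit 18971201), (nat_lit 12765436)] (nat_lit 6911493)) p14_13_2 (nat_lit 4) (nat_lit 31) (nat_lit 32) = true := by decide +kernel
def p14_13_2_32 : pfC (piC [(nat_lit 39120232), (nat_lit 25510466), (nat_lit 18971201), (nat_lit 12765436)] (nat_lit 6911493)) p14_13_2 (nat_lit 4) (nat_lit 32) (nat_lit 33) = true := by decide +kernel
def p14_13_2_33 : pfC (piC [(nat_lit 39120232), (nat_lit 25510466), (nat_lit 18971201), (nat_lit 12765436)] (nat_lit 6911493)) p14_13_2 (nat_lit 4) (nat_lit 33) (nat_lit 34) = true := by decide +kernel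
def p14_13_2_34 : pfC (piC [(nat_lit 39120232), (nat_lit 25510466), (nat_lit 18971201), (nat_lit 12765436)] (nat_lit 6911493)) p14_13_2 (nat_lit 4) (nat_lit 34) (nat_lit 35) = true := by decide +kernel
def p14_13_2_35 : pfC (piC [(nat_lit 39120232), (nat_lit 25510466), (nat_lit 18971201), (nat_lit 12765436)] (nat_lit 6911493)) p14_13_2 (nat_lit 4) (nat_lit 35) (nat_lit 36) = true := by decide +kernel
def p14_13_2_36 : pfC (piC [(nat_lit 39120232), (nat_lit 25510466), (nat_lit 18971201), (nat_lit 12765436)] (nat_lit 6911493)) p14_13_2 (nat_lit 4) (nat_lit 36) (nat_lit 37) = true := by decide +kernel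
def p14_13_2_37 : pfC (piC [(nat_lit 39120232), (nat_lit 25510466), (nat_lit 18971201), (nat_lit 12765436)] (nat_lit 6911493)) p14_13_2 (nat_lit 4) (nat_lit 37) (nat_lit 38) = true := by decide +kernel
def p14_13_2_38 : pfC (piC [(nat_lit 39120232), (nat_lit 25510466), (nat_lit 18971201), (nat_lit 12765436)] (nat_lit 6911493)) p14_13_2 (nat_lit 4) (nat_lit 38) (nat_lit 39) = true := by decide +kernel
def p14_13_2_39 : pfC (piC [(nat_lit 39120232), (nat_lit 25510466), (nat_lit 18971201), (nat_lit 12765436)] (nat_lit 6911493)) p14_13_2 (nat_lit 4) (nat_lit 39) (nat_lit 40) = true := by decide +kernel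
def p14_13_2_40 : pfC (piC [(nat_lit 39120232), (nat_lit 25510466), (nat_lit 18971201), (nat_lit 12765436)] (nat_lit 6911493)) p14_13_2 (nat_lit 4) (nat_lit 40) (nat_lit 41) = true := by decide +kernel
def p14_13_2_41 : pfC (piC [(nat_lit 39120232), (nat_lit 25510466), (nat_lit 18971201), (nat_lit 12765436)] (nat_lit 6911493)) p14_13_2 (nat_lit 4) (nat_lit 41) (nat_lit 42) = true := by decide +kernel
def p14_13_2_42 : pfC (piC [(nat_lit 39120232), (nat_lit 25510466), (nat_lit 18971201), (nat_lit 12765436)] (nat_lit 6911493)) p14_13_2 (nat_lit 4) (nat_lit 42) (nat_lit 43) = true := by decide +kernel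
def p14_13_2_43 : pfC (piC [(nat_lit 39120232), (nat_lit 25510466), (nat_lit 18971201), (nat_lit 12765436)] (nat_lit 6911493)) p14_13_2 (nat_lit 4) (nat_lit 43) (nat_lit 44) = true := by decide +kernel
def p14_13_2_44 : pfC (piC [(nat_lit 39120232), (nat_lit 25510466), (nat_lit 18971201), (nat_lit 12765436)] (nat_lit 6911493)) p14_13_2 (nat_lit 4) (nat_lit 44) (nat_lit 45) = true := by decide +kernel
def p14_13_2_45 : pfC (piC [(nat_lit 39120232), (nat_lit 25510466), (nat_lit 18971201), (nat_lit 12765436)] (nat_lit 6911493)) p14_13_2 (nat_lit 4) (nat_lit 45) (nat_lit 46) = true := by decide +kernel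
def p14_13_2_46 : pfC (piC [(nat_lit 39120232), (nat_lit 25510466), (nat_lit 18971201), (nat_lit 12765436)] (nat_lit 6911493)) p14_13_2 (nat_lit 4) (nat_lit 46) (nat_lit 47) = true := by decide +kernel
def p14_13_2_47 : pfC (piC [(nat_lit 39120232), (nat_lit 25510466), (nat_lit 18971201), (nat_lit 12765436)] (nat_lit 6911493)) p14_13_2 (nat_lit 4) (nat_lit 47) (nat_lit 48) = true := by decide +kernel
def p14_13_2_48 : pfC (piC [(nat_lit 39120232), (nat_lit 25510466), (nat_lit 18971201), (nat_lit 12765436)] (nat_lit 6911493)) p14_13_2 (nat_lit 4) (nat_lit 48) (nat_lit 49) = true := by decide +kernel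
def p14_13_2_49 : pfC (piC [(nat_lit 39120232), (nat_lit 25510466), (nat_lit 18971201), (nat_lit 12765436)] (nat_lit 6911493)) p14_13_2 (nat_lit 4) (nat_lit 49) (nat_lit 50) = true := by decide +kernel
def p14_13_2_50 : pfC (piC [(nat_lit 39120232), (nat_lit 25510466), (nat_lit 18971201), (nat_lit 12765436)] (nat_lit 6911493)) p14_13_2 (nat_lit 4) (nat_lit 50) (nat_lit 51) = true := by decide +kernel
def p14_13_2_51 : pfC (piC [(nat_lit 39120232), (nat_lit 25510466), (nat_lit 18971201), (nat_lit 12765436)] (nat_lit 6911493)) p14_13_2 (nat_lit 4) (nat_lit 51) (nat_lit 52) = true := by decide +kernel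
def p14_13_2_52 : pfC (piC [(nat_lit 39120232), (nat_lit 25510466), (nat_lit 18971201), (nat_lit 12765436)] (nat_lit 6911493)) p14_13_2 (nat_lit 4) (nat_lit 52) (nat_lit 53) = true := by decide +kernel
def p14_13_2_53 : pfC (piC [(nat_lit 39120232), (nat_lit 25510466), (nat_lit 18971201), (nat_lit 12765436)] (nat_lit 6911493)) p14_13_2 (nat_lit 4) (nat_lit 53) (nat_lit 54) = true := by decide +kernel
def p14_13_2_54 : pfC (piC [(nat_lit 39120232), (nat_lit 25510466), (nat_lit 18971201), (nat_lit 12765436)] (nat_lit 6911493)) p14_13_2 (nat_lit 4) (nat_lit 54) (nat_lit 55) = true := by decide +kernel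
def p14_13_2_55 : pfC (piC [(nat_lit 39120232), (nat_lit 25510466), (nat_lit 18971201), (nat_lit 12765436)] (nat_lit 6911493)) p14_13_2 (nat_lit 4) (nat_lit 55) (nat_lit 56) = true := by decide +kernel
def p14_13_2_56 : pfC (piC [(nat_lit 39120232), (nat_lit 25510466), (nat_lit 18971201), (nat_lit 12765436)] (nat_lit 6911493)) p14_13_2 (nat_lit 4) (nat_lit 56) (nat_lit 57) = true := by decide +kernel
def p14_13_2_57 : pfC (piC [(nat_lit 39120232), (nat_lit 25510466), (nat_lit 18971201), (nat_lit 12765436)] (nat_lit 6911493)) p14_13_2 (nat_lit 4) (nat_lit 57) (nat_lit 58) = true := by decide +kernel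
def p14_13_2_58 : pfC (piC [(nat_lit 39120232), (nat_lit 25510466), (nat_lit 18971201), (nat_lit 12765436)] (nat_lit 6911493)) p14_13_2 (nat_lit 4) (nat_lit 58) (nat_lit 59) = true := by decide +kernel
def p14_13_2_59 : pfC (piC [(nat_lit 39120232), (nat_lit 25510466), (nat_lit 18971201), (nat_lit 12765436)] (nat_lit 6911493)) p14_13_2 (nat_lit 4) (nat_lit 59) (nat_lit 60) = true := by decide +kernel
def p14_13_2_60 : pfC (piC [(nat_lit 39120232), (nat_lit 25510466), (nat_lit 18971201), (nat_lit 12765436)] (nat_lit 6911493)) p14_13_2 (nat_lit 4) (nat_lit 60) (nat_lit 61) = true := by decide +kernel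
def p14_13_2_61 : pfC (piC [(nat_lit 39120232), (nat_lit 25510466), (nat_lit 18971201), (nat_lit 12765436)] (nat_lit 6911493)) p14_13_2 (nat_lit 4) (nat_lit 61) (nat_lit 62) = true := by decide +kernel
def p14_13_2_62 : pfC (piC [(nat_lit 39120232), (nat_lit 25510466), (nat_lit 18971201), (nat_lit 12765436)] (nat_lit 6911493)) p14_13_2 (nat_lit 4) (nat_lit 62) (nat_lit 63) = true := by decide +kernel
def p14_13_2_63 : pfC (piC [(nat_lit 39120232), (nat_lit 25510466), (nat_lit 18971201), (nat_lit 12765436)] (nat_lit 6911493)) p14_13_2 (nat_lit 4) (nat_lit 63) (nat_lit 64) = true := by decide +kernel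
def p14_13_2_64 : pfC (piC [(nat_lit 39120232), (nat_lit 25510466), (nat_lit 18971201), (nat_lit 12765436)] (nat_lit 6911493)) p14_13_2 (nat_lit 4) (nat_lit 64) (nat_lit 65) = true := by decide +kernel
def p14_13_2_65 : pfC (piC [(nat_lit 39120232), (nat_lit 25510466), (nat_lit 18971201), (nat_lit 12765436)] (nat_lit 6911493)) p14_13_2 (nat_lit 4) (nat_lit 65) (nat_lit 66) = true := by decide +kernel
def p14_13_2_66 : pfC (piC [(nat_lit 39120232), (nat_lit 25510466), (nat_lit 18971201), (nat_lit 12765436)] (nat_lit 6911493)) p14_13_2 (nat_lit 4) (nat_lit 66) (nat_lit 67) = true := by decide +kernel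
def p14_13_2_67 : pfC (piC [(nat_lit 39120232), (nat_lit 25510466), (nat_lit 18971201), (nat_lit 12765436)] (nat_lit 6911493)) p14_13_2 (nat_lit 4) (nat_lit 67) (nat_lit 68) = true := by decide +kernel
def p14_13_2_68 : pfC (piC [(nat_lit 39120232), (nat_lit 25510466), (nat_lit 18971201), (nat_lit 12765436)] (nat_lit 6911493)) p14_13_2 (nat_lit 4) (nat_lit 68) (nat_lit 69) = true := by decide +kernel
def p14_13_2_69 : pfC (piC [(nat_lit 39120232), (nat_lit 25510466), (nat_lit 18971201), (nat_lit 12765436)] (nat_lit 6911493)) p14_13_2 (nat_lit 4) (nat_lit 69) (nat_lit 70) = true := by decide +kernel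
def p14_13_2_70 : pfC (piC [(nat_lit 39120232), (nat_lit 25510466), (nat_lit 18971201), (nat_lit 12765436)] (nat_lit 6911493)) p14_13_2 (nat_lit 4) (nat_lit 70) (nat_lit 71) = true := by decide +kernel
def p14_13_2_71 : pfC (piC [(nat_lit 39120232), (nat_lit 25510466), (nat_lit 18971201), (nat_lit 12765436)] (nat_lit 6911493)) p14_13_2 (nat_lit 4) (nat_lit 71) (nat_lit 72) = true := by decide +kernel
def p14_13_2_72 : pfC (piC [(nat_lit 39120232), (nat_lit 25510466), (nat_lit 18971201), (nat_lit 12765436)] (nat_lit 6911493)) p14_13_2 (nat_lit 4) (nat_lit 72) (nat_lit 73) = true := by decide +kernel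
def p14_13_2_73 : pfC (piC [(nat_lit 39120232), (nat_lit 25510466), (nat_lit 18971201), (nat_lit 12765436)] (nat_lit 6911493)) p14_13_2 (nat_lit 4) (nat_lit 73) (nat_lit 74) = true := by decide +kernel
def p14_13_2_74 : pfC (piC [(nat_lit 39120232), (nat_lit 25510466), (nat_lit 18971201), (nat_lit 12765436)] (nat_lit 6911493)) p14_13_2 (nat_lit 4) (nat_lit 74) (nat_lit 75) = true := by decide +kernel
def p14_13_2_75 : pfC (piC [(nat_lit 39120232), (nat_lit 25510466), (nat_lit 18971201), (nat_lit 12765436)] (nat_lit 6911493)) p14_13_2 (nat_lit 4) (nat_lit 75) (nat_lit 76) = true := by decide +kernel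
def p14_13_2_76 : pfC (piC [(nat_lit 39120232), (nat_lit 25510466), (nat_lit 18971201), (nat_lit 12765436)] (nat_lit 6911493)) p14_13_2 (nat_lit 4) (nat_lit 76) (nat_lit 77) = true := by decide +kernel
def p14_13_2_77 : pfC (piC [(nat_lit 39120232), (nat_lit 25510466), (nat_lit 18971201), (nat_lit 12765436)] (nat_lit 6911493)) p14_13_2 (nat_lit 4) (nat_lit 77) (nat_lit 78) = true := by decide +kernel
def p14_13_2_78 : pfC (piC [(nat_lit 39120232), (nat_lit 25510466), (nat_lit 18971201), (nat_lit 12765436)] (nat_lit 6911493)) p14_13_2 (nat_lit 4) (nat_lit 78) (nat_lit 79) = true := by decide +kernel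
def p14_13_2_79 : pfC (piC [(nat_lit 39120232), (nat_lit 25510466), (nat_lit 18971201), (nat_lit 12765436)] (nat_lit 6911493)) p14_13_2 (nat_lit 4) (nat_lit 79) (nat_lit 80) = true := by decide +kernel
def p14_13_2_80 : pfC (piC [(nat_lit 39120232), (nat_lit 25510466), (nat_lit 18971201), (nat_lit 12765436)] (nat_lit 6911493)) p14_13_2 (nat_lit 4) (nat_lit 80) (nat_lit 81) = true := by decide +kernel
def p14_13_2_81 : pfC (piC [(nat_lit 39120232), (nat_lit 25510466), (nat_lit 18971201), (nat_lit 12765436)] (nat_lit 6911493)) p14_13_2 (nat_lit 4) (nat_lit 81) (nat_lit 82) = true := by decide +kernel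
def p14_13_2_82 : pfC (piC [(nat_lit 39120232), (nat_lit 25510466), (nat_lit 18971201), (nat_lit 12765436)] (nat_lit 6911493)) p14_13_2 (nat_lit 4) (nat_lit 82) (nat_lit 83) = true := by decide +kernel
def p14_13_2_83 : pfC (piC [(nat_lit 39120232), (nat_lit 25510466), (nat_lit 18971201), (nat_lit 12765436)] (nat_lit 6911493)) p14_13_2 (nat_lit 4) (nat_lit 83) (nat_lit 84) = true := by decide +kernel
def p14_13_2_84 : pfC (piC [(nat_lit 39120232), (nat_lit 25510466), (nat_lit 18971201), (nat_lit 12765436)] (nat_lit 6911493)) p14_13_2 (nat_lit 4) (nat_lit 84) (nat_lit 85) = true := by decide +kernel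
def p14_13_2_85 : pfC (piC [(nat_lit 39120232), (nat_lit 25510466), (nat_lit 18971201), (nat_lit 12765436)] (nat_lit 6911493)) p14_13_2 (nat_lit 4) (nat_lit 85) (nat_lit 86) = true := by decide +kernel
def p14_13_2_86 : pfC (piC [(nat_lit 39120232), (nat_lit 25510466), (nat_lit 18971201), (nat_lit 12765436)] (nat_lit 6911493)) p14_13_2 (nat_lit 4) (nat_lit 86) (nat_lit 87) = true := by decide +kernel
def p14_13_2_87 : pfC (piC [(nat_lit 39120232), (nat_lit 25510466), (nat_lit 18971201), (nat_lit 12765436)] (nat_lit 6911493)) p14_13_2 (nat_lit 4) (nat_lit 87) (nat_lit 88) = true := by decide +kernel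
def p14_13_2_88 : pfC (piC [(nat_lit 39120232), (nat_lit 25510466), (nat_lit 18971201), (nat_lit 12765436)] (nat_lit 6911493)) p14_13_2 (nat_lit 4) (nat_lit 88) (nat_lit 89) = true := by decide +kernel
def p14_13_2_89 : pfC (piC [(nat_lit 39120232), (nat_lit 25510466), (nat_lit 18971201), (nat_lit 12765436)] (nat_lit 6911493)) p14_13_2 (nat_lit 4) (nat_lit 89) (nat_lit 90) = true := by decide +kernel
def p14_13_2_90 : pfC (piC [(nat_lit 39120232), (nat_lit 25510466), (nat_lit 18971201), (nat_lit 12765436)] (nat_lit 6911493)) p14_13_2 (nat_lit 4) (nat_lit 90) (nat_lit 91) = true := by decide +kernel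
def p14_13_2_91 : pfC (piC [(nat_lit 39120232), (nat_lit 25510466), (nat_lit 18971201), (nat_lit 12765436)] (nat_lit 6911493)) p14_13_2 (nat_lit 4) (nat_lit 91) (nat_lit 92) = true := by decide +kernel
def p14_13_2_92 : pfC (piC [(nat_lit 39120232), (nat_lit 25510466), (nat_lit 18971201), (nat_lit 12765436)] (nat_lit 6911493)) p14_13_2 (nat_lit 4) (nat_lit 92) (nat_lit 93) = true := by decide +kernel
def p14_13_2_93 : pfC (piC [(nat_lit 39120232), (nat_lit 25510466), (nat_lit 18971201), (nat_lit 12765436)] (nat_lit 6911493)) p14_13_2 (nat_lit 4) (nat_lit 93) (nat_lit 94) = true := by decide +kernel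
def p14_13_2_94 : pfC (piC [(nat_lit 39120232), (nat_lit 25510466), (nat_lit 18971201), (nat_lit 12765436)] (nat_lit 6911493)) p14_13_2 (nat_lit 4) (nat_lit 94) (nat_lit 95) = true := by decide +kernel
def p14_13_2_95 : pfC (piC [(nat_lit 39120232), (nat_lit 25510466), (nat_lit 18971201), (nat_lit 12765436)] (nat_lit 6911493)) p14_13_2 (nat_lit 4) (nat_lit 95) (nat_lit 96) = true := by decide +kernel
def p14_13_2_96 : pfC (piC [(nat_lit 39120232), (nat_lit 25510466), (nat_lit 18971201), (nat_lit 12765436)] (nat_lit 6911493)) p14_13_2 (nat_lit 4) (nat_lit 96) (nat_lit 97) = true := by decide +kernel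
def p14_13_2_97 : pfC (piC [(nat_lit 39120232), (nat_lit 25510466), (nat_lit 18971201), (nat_lit 12765436)] (nat_lit 6911493)) p14_13_2 (nat_lit 4) (nat_lit 97) (nat_lit 98) = true := by decide +kernel
def p14_13_2_98 : pfC (piC [(nat_lit 39120232), (nat_lit 25510466), (nat_lit 18971201), (nat_lit 12765436)] (nat_lit 6911493)) p14_13_2 (nat_lit 4) (nat_lit 98) (nat_lit 99) = true := by decide +kernel
def p14_13_2_99 : pfC (piC [(nat_lit 39120232), (nat_lit 25510466), (nat_lit 18971201), (nat_lit 12765436)] (nat_lit 6911493)) p14_13_2 (nat_lit 4) (nat_lit 99) (nat_lit 100) = true := by decide +kernel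
def p14_13_2_100 : pfC (piC [(nat_lit 39120232), (nat_lit 25510466), (nat_lit 18971201), (nat_lit 12765436)] (nat_lit 6911493)) p14_13_2 (nat_lit 4) (nat_lit 100) (nat_lit 101) = true := by decide +kernel
def p14_13_2_101 : pfC (piC [(nat_lit 39120232), (nat_lit 25510466), (nat_lit 18971201), (nat_lit 12765436)] (nat_lit 6911493)) p14_13_2 (nat_lit 4) (nat_lit 101) (nat_lit 102) = true := by decide +kernel
def p14_13_2_102 : pfC (piC [(nat_lit 39120232), (nat_lit 25510466), (nat_lit 18971201), (nat_lit 12765436)] (nat_lit 6911493)) p14_13_2 (nat_lit 4) (nat_lit 102) (nat_lit 103) = true := by decide +kernel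
def p14_13_2_103 : pfC (piC [(nat_lit 39120232), (nat_lit 25510466), (nat_lit 18971201), (nat_lit 12765436)] (nat_lit 6911493)) p14_13_2 (nat_lit 4) (nat_lit 103) (nat_lit 104) = true := by decide +kernel
def p14_13_2_104 : pfC (piC [(nat_lit 39120232), (nat_lit 25510466), (nat_lit 18971201), (nat_lit 12765436)] (nat_lit 6911493)) p14_13_2 (nat_lit 4) (nat_lit 104) (nat_lit 105) = true := by decide +kernel
def p14_13_2_105 : pfC (piC [(nat_lit 39120232), (nat_lit 25510466), (nat_lit 18971201), (nat_lit 12765436)] (nat_lit 6911493)) p14_13_2 (nat_lit 4) (nat_lit 105) (nat_lit 106) = true := by decide +kernel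
def p14_13_2_106 : pfC (piC [(nat_lit 39120232), (nat_lit 25510466), (nat_lit 18971201), (nat_lit 12765436)] (nat_lit 6911493)) p14_13_2 (nat_lit 4) (nat_lit 106) (nat_lit 107) = true := by decide +kernel
def p14_13_2_107 : pfC (piC [(nat_lit 39120232), (nat_lit 25510466), (nat_lit 18971201), (nat_lit 12765436)] (nat_lit 6911493)) p14_13_2 (nat_lit 4) (nat_lit 107) (nat_lit 108) = true := by decide +kernel
def p14_13_2_108 : pfC (piC [(nat_lit 39120232), (nat_lit 25510466), (nat_lit 18971201), (nat_lit 12765436)] (nat_lit 6911493)) p14_13_2 (nat_lit 4) (nat_lit 108) (nat_lit 109) = true := by decide +kernel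
def p14_13_2_109 : pfC (piC [(nat_lit 39120232), (nat_lit 25510466), (nat_lit 18971201), (nat_lit 12765436)] (nat_lit 6911493)) p14_13_2 (nat_lit 4) (nat_lit 109) (nat_lit 110) = true := by decide +kernel
def p14_13_2_110 : pfC (piC [(nat_lit 39120232), (nat_lit 25510466), (nat_lit 18971201), (nat_lit 12765436)] (nat_lit 6911493)) p14_13_2 (nat_lit 4) (nat_lit 110) (nat_lit 111) = true := by decide +kernel
def p14_13_2_111 : pfC (piC [(nat_lit 39120232), (nat_lit 25510466), (nat_lit 18971201), (nat_lit 12765436)] (nat_lit 6911493)) p14_13_2 (nat_lit 4) (nat_lit 111) (nat_lit 112) = true := by decide +kernel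
def p14_13_2_112 : pfC (piC [(nat_lit 39120232), (nat_lit 25510466), (nat_lit 18971201), (nat_lit 12765436)] (nat_lit 6911493)) p14_13_2 (nat_lit 4) (nat_lit 112) (nat_lit 113) = true := by decide +kernel
def p14_13_2_113 : pfC (piC [(nat_lit 39120232), (nat_lit 25510466), (nat_lit 18971201), (nat_lit 12765436)] (nat_lit 6911493)) p14_13_2 (nat_lit 4) (nat_lit 113) (nat_lit 114) = true := by decide +kernel
def p14_13_2_114 : pfC (piC [(nat_lit 39120232), (nat_lit 25510466), (nat_lit 18971201), (nat_lit 12765436)] (nat_lit 6911493)) p14_13_2 (nat_lit 4) (nat_lit 114) (nat_lit 115) = true := by decide +kernel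
def p14_13_2_115 : pfC (piC [(nat_lit 39120232), (nat_lit 25510466), (nat_lit 18971201), (nat_lit 12765436)] (nat_lit 6911493)) p14_13_2 (nat_lit 4) (nat_lit 115) (nat_lit 116) = true := by decide +kernel
def p14_13_2_116 : pfC (piC [(nat_lit 39120232), (nat_lit 25510466), (nat_lit 18971201), (nat_lit 12765436)] (nat_lit 6911493)) p14_13_2 (nat_lit 4) (nat_lit 116) (nat_lit 117) = true := by decide +kernel
def p14_13_2_117 : pfC (piC [(nat_lit 39120232), (nat_lit 25510466), (nat_lit 18971201), (nat_lit 12765436)] (nat_lit 6911493)) p14_13_2 (nat_lit 4) (nat_lit 117) (nat_lit 118) = true := by decide +kernel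
def p14_13_2_118 : pfC (piC [(nat_lit 39120232), (nat_lit 25510466), (nat_lit 18971201), (nat_lit 12765436)] (nat_lit 6911493)) p14_13_2 (nat_lit 4) (nat_lit 118) (nat_lit 119) = true := by decide +kernel
def p14_13_2_119 : pfC (piC [(nat_lit 39120232), (nat_lit 25510466), (nat_lit 18971201), (nat_lit 12765436)] (nat_lit 6911493)) p14_13_2 (nat_lit 4) (nat_lit 119) (nat_lit 120) = true := by decide +kernel
def p14_13_2_120 : pfC (piC [(nat_lit 39120232), (nat_lit 25510466), (nat_lit 18971201), (nat_lit 12765436)] (nat_lit 6911493)) p14_13_2 (nat_lit 4) (nat_lit 120) (nat_lit 121) = true := by decide +kernel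
def p14_13_2_121 : pfC (piC [(nat_lit 39120232), (nat_lit 25510466), (nat_lit 18971201), (nat_lit 12765436)] (nat_lit 6911493)) p14_13_2 (nat_lit 4) (nat_lit 121) (nat_lit 122) = true := by decide +kernel
def p14_13_2_122 : pfC (piC [(nat_lit 39120232), (nat_lit 25510466), (nat_lit 18971201), (nat_lit 12765436)] (nat_lit 6911493)) p14_13_2 (nat_lit 4) (nat_lit 122) (nat_lit 123) = true := by decide +kernel
def p14_13_2_123 : pfC (piC [(nat_lit 39120232), (nat_lit 25510466), (nat_lit 18971201), (nat_lit 12765436)] (nat_lit 6911493)) p14_13_2 (nat_lit 4) (nat_lit 123) (nat_lit 124) = true := by decide +kernel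
def p14_13_2_124 : pfC (piC [(nat_lit 39120232), (nat_lit 25510466), (nat_lit 18971201), (nat_lit 12765436)] (nat_lit 6911493)) p14_13_2 (nat_lit 4) (nat_lit 124) (nat_lit 125) = true := by decide +kernel
def p14_13_2_125 : pfC (piC [(nat_lit 39120232), (nat_lit 25510466), (nat_lit 18971201), (nat_lit 12765436)] (nat_lit 6911493)) p14_13_2 (nat_lit 4) (nat_lit 125) (nat_lit 126) = true := by decide +kernel
def p14_13_2_126 : pfC (piC [(nat_lit 39120232), (nat_lit 25510466), (nat_lit 18971201), (nat_lit 12765436)] (nat_lit 6911493)) p14_13_2 (nat_lit 4) (nat_lit 126) (nat_lit 127) = true := by decide +kernel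
def p14_13_2_127 : pfC (piC [(nat_lit 39120232), (nat_lit 25510466), (nat_lit 18971201), (nat_lit 12765436)] (nat_lit 6911493)) p14_13_2 (nat_lit 4) (nat_lit 127) (nat_lit 128) = true := by decide +kernel
def p14_13_2_128 : pfC (piC [(nat_lit 39120232), (nat_lit 25510466), (nat_lit 18971201), (nat_lit 12765436)] (nat_lit 6911493)) p14_13_2 (nat_lit 4) (nat_lit 128) (nat_lit 129) = true := by decide +kernel
def p14_13_2_129 : pfC (piC [(nat_lit 39120232), (nat_lit 25510466), (nat_lit 18971201), (nat_lit 12765436)] (nat_lit 6911493)) p14_13_2 (nat_lit 4) (nat_lit 129) (nat_lit 130) = true := by decide +kernel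
def p14_13_2_130 : pfC (piC [(nat_lit 39120232), (nat_lit 25510466), (nat_lit 18971201), (nat_lit 12765436)] (nat_lit 6911493)) p14_13_2 (nat_lit 4) (nat_lit 130) (nat_lit 131) = true := by decide +kernel
def p14_13_2_131 : pfC (piC [(nat_lit 39120232), (nat_lit 25510466), (nat_lit 18971201), (nat_lit 12765436)] (nat_lit 6911493)) p14_13_2 (nat_lit 4) (nat_lit 131) (nat_lit 132) = true := by decide +kernel
def p14_13_2_132 : pfC (piC [(nat_lit 39120232), (nat_lit 25510466), (nat_lit 18971201), (nat_lit 12765436)] (nat_lit 6911493)) p14_13_2 (nat_lit 4) (nat_lit 132) (nat_lit 133) = true := by decide +kernel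
def p14_13_2_133 : pfC (piC [(nat_lit 39120232), (nat_lit 25510466), (nat_lit 18971201), (nat_lit 12765436)] (nat_lit 6911493)) p14_13_2 (nat_lit 4) (nat_lit 133) (nat_lit 134) = true := by decide +kernel
def p14_13_2_134 : pfC (piC [(nat_lit 39120232), (nat_lit 25510466), (nat_lit 18971201), (nat_lit 12765436)] (nat_lit 6911493)) p14_13_2 (nat_lit 4) (nat_lit 134) (nat_lit 135) = true := by decide +kernel
def p14_13_2_135 : pfC (piC [(nat_lit 39120232), (nat_lit 25510466), (nat_lit 18971201), (nat_lit 12765436)] (nat_lit 6911493)) p14_13_2 (nat_lit 4) (nat_lit 135) (nat_lit 136) = true := by decide +kernel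
def p14_13_2_136 : pfC (piC [(nat_lit 39120232), (nat_lit 25510466), (nat_lit 18971201), (nat_lit 12765436)] (nat_lit 6911493)) p14_13_2 (nat_lit 4) (nat_lit 136) (nat_lit 137) = true := by decide +kernel
def p14_13_2_137 : pfC (piC [(nat_lit 39120232), (nat_lit 25510466), (nat_lit 18971201), (nat_lit 12765436)] (nat_lit 6911493)) p14_13_2 (nat_lit 4) (nat_lit 137) (nat_lit 138) = true := by decide +kernel
def p14_13_2_138 : pfC (piC [(nat_lit 39120232), (nat_lit 25510466), (nat_lit 18971201), (nat_lit 12765436)] (nat_lit 6911493)) p14_13_2 (nat_lit 4) (nat_lit 138) (nat_lit 139) = true := by decide +kernel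
def p14_13_2_139 : pfC (piC [(nat_lit 39120232), (nat_lit 25510466), (nat_lit 18971201), (nat_lit 12765436)] (nat_lit 6911493)) p14_13_2 (nat_lit 4) (nat_lit 139) (nat_lit 140) = true := by decide +kernel
def p14_13_2_140 : pfC (piC [(nat_lit 39120232), (nat_lit 25510466), (nat_lit 18971201), (nat_lit 12765436)] (nat_lit 6911493)) p14_13_2 (nat_lit 4) (nat_lit 140) (nat_lit 141) = true := by decide +kernel
def p14_13_2_141 : pfC (piC [(nat_lit 39120232), (nat_lit 25510466), (nat_lit 18971201), (nat_lit 12765436)] (nat_lit 6911493)) p14_13_2 (nat_lit 4) (nat_lit 141) (nat_lit 142) = true := by decide +kernel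
def p14_13_2_142 : pfC (piC [(nat_lit 39120232), (nat_lit 25510466), (nat_lit 18971201), (nat_lit 12765436)] (nat_lit 6911493)) p14_13_2 (nat_lit 4) (nat_lit 142) (nat_lit 143) = true := by decide +kernel
def p14_13_2_143 : pfC (piC [(nat_lit 39120232), (nat_lit 25510466), (nat_lit 18971201), (nat_lit 12765436)] (nat_lit 6911493)) p14_13_2 (nat_lit 4) (nat_lit 143) (nat_lit 144) = true := by decide +kernel
def p14_13_2_144 : pfC (piC [(nat_lit 39120232), (nat_lit 25510466), (nat_lit 18971201), (nat_lit 12765436)] (nat_lit 6911493)) p14_13_2 (nat_lit 4) (nat_lit 144) (nat_lit 145) = true := by decide +kernel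
def p14_13_2_145 : pfC (piC [(nat_lit 39120232), (nat_lit 25510466), (nat_lit 18971201), (nat_lit 12765436)] (nat_lit 6911493)) p14_13_2 (nat_lit 4) (nat_lit 145) (nat_lit 146) = true := by decide +kernel
def p14_13_2_146 : pfC (piC [(nat_lit 39120232), (nat_lit 25510466), (nat_lit 18971201), (nat_lit 12765436)] (nat_lit 6911493)) p14_13_2 (nat_lit 4) (nat_lit 146) (nat_lit 147) = true := by decide +kernel
def p14_13_2_147 : pfC (piC [(nat_lit 39120232), (nat_lit 25510466), (nat_lit 18971201), (nat_lit 12765436)] (nat_lit 6911493)) p14_13_2 (nat_lit 4) (nat_lit 147) (nat_lit 148) = true := by decide +kernel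
def p14_13_2_148 : pfC (piC [(nat_lit 39120232), (nat_lit 25510466), (nat_lit 18971201), (nat_lit 12765436)] (nat_lit 6911493)) p14_13_2 (nat_lit 4) (nat_lit 148) (nat_lit 149) = true := by decide +kernel
def p14_13_2_149 : pfC (piC [(nat_lit 39120232), (nat_lit 25510466), (nat_lit 18971201), (nat_lit 12765436)] (nat_lit 6911493)) p14_13_2 (nat_lit 4) (nat_lit 149) (nat_lit 150) = true := by decide +kernel
def p14_13_2_150 : pfC (piC [(nat_lit 39120232), (nat_lit 25510466), (nat_lit 18971201), (nat_lit 12765436)] (nat_lit 6911493)) p14_13_2 (nat_lit 4) (nat_lit 150) (nat_lit 151) = true := by decide +kernel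
def p14_13_2_151 : pfC (piC [(nat_lit 39120232), (nat_lit 25510466), (nat_lit 18971201), (nat_lit 12765436)] (nat_lit 6911493)) p14_13_2 (nat_lit 4) (nat_lit 151) (nat_lit 152) = true := by decide +kernel
def p14_13_2_152 : pfC (piC [(nat_lit 39120232), (nat_lit 25510466), (nat_lit 18971201), (nat_lit 12765436)] (nat_lit 6911493)) p14_13_2 (nat_lit 4) (nat_lit 152) (nat_lit 153) = true := by decide +kernel
def p14_13_2_153 : pfC (piC [(nat_lit 39120232), (nat_lit 25510466), (nat_lit 18971201), (nat_lit 12765436)] (nat_lit 6911493)) p14_13_2 (nat_lit 4) (nat_lit 153) (nat_lit 154) = true := by decide +kernel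
def p14_13_2_154 : pfC (piC [(nat_lit 39120232), (nat_lit 25510466), (nat_lit 18971201), (nat_lit 12765436)] (nat_lit 6911493)) p14_13_2 (nat_lit 4) (nat_lit 154) (nat_lit 155) = true := by decide +kernel
def p14_13_2_155 : pfC (piC [(nat_lit 39120232), (nat_lit 25510466), (nat_lit 18971201), (nat_lit 12765436)] (nat_lit 6911493)) p14_13_2 (nat_lit 4) (nat_lit 155) (nat_lit 156) = true := by decide +kernel
def p14_13_2_156 : pfC (piC [(nat_lit 39120232), (nat_lit 25510466), (nat_lit 18971201), (nat_lit 12765436)] (nat_lit 6911493)) p14_13_2 (nat_lit 4) (nat_lit 156) (nat_lit 157) = true := by decide +kernel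
theorem p14_13_2_T : PfS (PiF n14_13.reverse (nat_lit 6911493)) p14_13_2 (nat_lit 4) [] 0 :=
  pftab_of (los := [(nat_lit 39120232), (nat_lit 25510466), (nat_lit 18971201), (nat_lit 12765436)]) (by decide +kernel) (hi := (nat_lit 157)) (PfP.trans (PfP.trans (PfP.trans (PfP.trans (PfP.trans (PfP.trans (PfP.trans (PfP.trans (PfP.trans (PfP.trans (PfP.trans (PfP.trans (PfP.trans (PfP.trans (PfP.trans (PfP.trans (PfP.trans (PfP.trans (PfP.trans (PfP.trans (PfP.trans (PfP.trans (PfP.trans (PfP.trans (PfP.trans (PfP.trans (PfP.trans (PfP.trans (PfP.trans (PfP.trans (PfP.trans (PfP.trans (PfP.trans (PfP.trans (PfP.trans (PfP.trans (PfP.trans (PfP.trans (PfP.trans (PfP.trans (PfP.trans (PfP.trans (PfP.trans (PfP.trans (PfP.trans (PfP.trans (PfP.trans (PfP.trans (PfP.trans (PfP.trans (PfP.trans (PfP.trans (PfP.trans (PfP.trans (PfP.trans (PfP.trans (PfP.trans (PfP.trans (PfP.trans (PfP.trans (PfP.trans (PfP.trans (PfP.trans (PfP.trans (PfP.trans (PfP.trans (PfP.trans (PfP.trans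 (PfP.trans (PfP.trans (PfP.trans (PfP.trans (PfP.trans (PfP.trans (PfP.trans (PfP.trans (PfP.trans (PfP.trans (PfP.trans (PfP.trans (PfP.trans (PfP.trans (PfP.trans (PfP.trans (PfP.trans (PfP.trans (PfP.trans (PfP.trans (PfP.trans (PfP.trans (PfP.trans (PfP.trans (PfP.trans (PfP.trans (PfP.trans (PfP.trans (PfP.trans (PfP.trans (PfP.trans (PfP.trans (PfP.trans (PfP.trans (PfP.trans (PfP.trans (PfP.trans (PfP.trans (PfP.trans (PfP.trans (PfP.trans
 (PfP.trans (PfP.trans (PfP.trans (PfP.trans (PfP.trans (PfP.trans (PfP.trans (PfP.trans (PfP.trans (PfP.trans (PfP.trans (PfP.trans (PfP.trans (PfP.trans (PfP.trans (PfP.trans (PfP.trans (PfP.trans (PfP.trans (PfP.trans (PfP.trans (PfP.trans (PfP.trans (PfP.trans (PfP.trans (PfP.trans (PfP.trans (PfP.trans (PfP.trans (PfP.trans (PfP.trans (PfP.trans (PfP.trans (PfP.trans (PfP.trans (PfP.trans (PfP.trans (PfP.trans (PfP.trans (PfP.trans (PfP.trans (PfP.trans (PfP.trans (PfP.trans (PfP.trans (PfP.trans (PfP.trans (pfC_sound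 p14_13_2_0) (pfC_sound p14_13_2_1)) (pfC_sound p14_13_2_2)) (pfC_sound p14_13_2_3)) (pfC_sound p14_13_2_4)) (pfC_sound p14_13_2_5)) (pfC_sound p14_13_2_6)) (pfC_sound p14_13_2_7)) (pfC_sound p14_13_2_8)) (pfC_sound p14_13_2_9)) (pfC_sound p14_13_2_10)) (pfC_sound p14_13_2_11)) (pfC_sound p14_13_2_12)) (pfC_sound p14_13_2_13)) (pfC_sound p14_13_2_14)) (pfC_sound p14_13_2_15)) (pfC_sound p14_13_2_16)) (pfC_sound p14_13_2_17)) (pfC_sound p14_13_2_18)) (pfC_sound p14_13_2_19)) (pfC_sound p14_13_2_20)) (pfC_sound p14_13_2_21)) (pfC_sound p14_13_2_22)) (pfC_sound p14_13_2_23)) (pfC_sound p14_13_2_24)) (pfC_sound p14_13_2_25)) (pfC_sound p14_13_2_26)) (pfC_sound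
 p14_13_2_27)) (pfC_sound p14_13_2_28)) (pfC_sound p14_13_2_29)) (pfC_sound p14_13_2_30)) (pfC_sound p14_13_2_31)) (pfC_sound p14_13_2_32)) (pfC_sound p14_13_2_33)) (pfC_sound p14_13_2_34)) (pfC_sound p14_13_2_35)) (pfC_sound p14_13_2_36)) (pfC_sound p14_13_2_37)) (pfC_sound p14_13_2_38)) (pfC_sound p14_13_2_39)) (pfC_sound p14_13_2_40)) (pfC_sound p14_13_2_41)) (pfC_sound p14_13_2_42)) (pfC_sound p14_13_2_43)) (pfC_sound p14_13_2_44)) (pfC_sound p14_13_2_45)) (pfC_sound p14_13_2_46)) (pfC_sound p14_13_2_47)) (pfC_sound p14_13_2_48)) (pfC_sound p14_13_2_49)) (pfC_sound p14_13_2_50)) (pfC_sound p14_13_2_51)) (pfC_sound p14_13_2_52)) (pfC_sound p14_13_2_53)) (pfC_sound p14_13_2_54)) (pfC_sound p14_13_2_55)) (pfC_sound p14_13_2_56)) (pfC_sound p14_13_2_57)) (pfC_sound p14_13_2_58)) (pfC_sound p14_13_2_59)) (pfC_sound p14_13_2_60)) (pfC_sound p14_13_2_61)) (pfC_sound p14_13_2_62)) (pfC_sound p14_13_2_63)) (pfC_sound p14_13_2_64)) (pfC_sound p14_13_2_65)) (pfC_sound p14_13_2_66))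 (pfC_sound p14_13_2_67)) (pfC_sound p14_13_2_68)) (pfC_sound p14_13_2_69)) (pfC_sound p14_13_2_70)) (pfC_sound p14_13_2_71)) (pfC_sound p14_13_2_72)) (pfC_sound p14_13_2_73)) (pfC_sound p14_13_2_74)) (pfC_sound
 p14_13_2_75)) (pfC_sound p14_13_2_76)) (pfC_sound p14_13_2_77)) (pfC_sound p14_13_2_78)) (pfC_sound p14_13_2_79)) (pfC_sound p14_13_2_80)) (pfC_sound p14_13_2_81)) (pfC_sound p14_13_2_82)) (pfC_sound p14_13_2_83)) (pfC_sound p14_13_2_84)) (pfC_sound p14_13_2_85)) (pfC_sound p14_13_2_86)) (pfC_sound p14_13_2_87)) (pfC_sound p14_13_2_88)) (pfC_sound p14_13_2_89)) (pfC_sound p14_13_2_90)) (pfC_sound p14_13_2_91)) (pfC_sound p14_13_2_92)) (pfC_sound p14_13_2_93)) (pfC_sound p14_13_2_94)) (pfC_sound p14_13_2_95)) (pfC_sound p14_13_2_96)) (pfC_sound p14_13_2_97)) (pfC_sound p14_13_2_98)) (pfC_sound p14_13_2_99)) (pfC_sound p14_13_2_100)) (pfC_sound p14_13_2_101)) (pfC_sound p14_13_2_102)) (pfC_sound p14_13_2_103)) (pfC_sound p14_13_2_104)) (pfC_sound p14_13_2_105))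 (pfC_sound p14_13_2_106)) (pfC_sound p14_13_2_107)) (pfC_sound p14_13_2_108)) (pfC_sound p14_13_2_109)) (pfC_sound p14_13_2_110)) (pfC_sound p14_13_2_111)) (pfC_sound p14_13_2_112)) (pfC_sound p14_13_2_113)) (pfC_sound p14_13_2_114)) (pfC_sound p14_13_2_115)) (pfC_sound p14_13_2_116)) (pfC_sound p14_13_2_117)) (pfC_sound p14_13_2_118)) (pfC_sound p14_13_2_119)) (pfC_sound p14_13_2_120)) (pfC_sound p14_13_2_121)) (pfC_sound
 p14_13_2_122)) (pfC_sound p14_13_2_123)) (pfC_sound p14_13_2_124)) (pfC_sound p14_13_2_125)) (pfC_sound p14_13_2_126)) (pfC_sound p14_13_2_127)) (pfC_sound p14_13_2_128)) (pfC_sound p14_13_2_129)) (pfC_sound p14_13_2_130)) (pfC_sound p14_13_2_131)) (pfC_sound p14_13_2_132)) (pfC_sound p14_13_2_133)) (pfC_sound p14_13_2_134)) (pfC_sound p14_13_2_135)) (pfC_sound p14_13_2_136)) (pfC_sound p14_13_2_137)) (pfC_sound p14_13_2_138)) (pfC_sound p14_13_2_139)) (pfC_sound p14_13_2_140)) (pfC_sound p14_13_2_141)) (pfC_sound p14_13_2_142)) (pfC_sound p14_13_2_143))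 (pfC_sound p14_13_2_144)) (pfC_sound p14_13_2_145)) (pfC_sound p14_13_2_146)) (pfC_sound p14_13_2_147)) (pfC_sound p14_13_2_148)) (pfC_sound p14_13_2_149)) (pfC_sound p14_13_2_150)) (pfC_sound p14_13_2_151)) (pfC_sound p14_13_2_152)) (pfC_sound p14_13_2_153)) (pfC_sound p14_13_2_154)) (pfC_sound p14_13_2_155)) (pfC_sound p14_13_2_156)) (by decide +kernel)

def z14_13_2 : zOK yB14_13 (nat_lit 2) (nat_lit 600) (nat_lit 750) (nat_lit 6911493) (nat_lit 5175148) = true := by decide +kernel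
def g14_13_2 : gOK yB14_13.x P14_13 (nat_lit 1421) (q14_13 :: r14_13) (nat_lit 2) (nat_lit 600) (nat_lit 3) (nat_lit 750) (nat_lit 12712500) (nat_lit 12712500) (nat_lit 12712500) (nat_lit 12712500) [(nat_lit 800), (nat_lit 1600)] = true := by decide +kernel
def v14_13_2 : ivC P14_13 s14_13 w14_13 n14_13 (nat_lit 4) (nat_lit 4800) (nat_lit 2) (nat_lit 600) f160_1_600 f168_1_600 (nat_lit 3) (nat_lit 750) f160_1_750 f168_1_750 (nat_lit 6911493) (nat_lit 5175148) p14_13_2 = true := by decide +kernel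
def p14_13_3 : PF := (PF.cons (PF.cons (PF.cons (PF.cons (PF.leaf (nat_lit 2962575) (nat_lit 18759384) (nat_lit 48349428) (nat_lit 18759384) [(nat_lit 0), (nat_lit 0), (nat_lit 0), (nat_lit 0)]) (PF.cons (PF.leaf (nat_lit 3118892) (nat_lit 275749) (nat_lit 48110777) (nat_lit 18722285) [(nat_lit 275749), (nat_lit 0), (nat_lit 0), (nat_lit 0)]) (PF.cons (PF.leaf (nat_lit 3303789) (nat_lit 299430) (nat_lit 47832025) (nat_lit 18677927) [(nat_lit 299430), (nat_lit 0), (nat_lit 0), (nat_lit 0)]) (PF.cons (PF.leaf (nat_lit 3510978) (nat_lit 320298) (nat_lit 47520789) (nat_lit 18627127) [(nat_lit 320298), (nat_lit 0), (nat_lit 0), (nat_lit 0)]) (PF.cons (PF.leaf (nat_lit 3737089) (nat_lit 338977) (nat_lit 47182484) (nat_lit 18570418) [(nat_lit 338977), (nat_lit 0), (nat_lit 0), (nat_lit 0)]) (PF.cons (PF.leaf (nat_lit 3979593) (nat_lit 355867) (nat_lit 46821286) (nat_lit 18508189) [(nat_lit 355867), (nat_lit 0), (nat_lit 0), (nat_lit 0)]) (PF.cons (PF.leaf (nat_lit 4236408)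 (nat_lit 371244) (nat_lit 46440590) (nat_lit 18440757) [(nat_lit 371244), (nat_lit 0), (nat_lit 0), (nat_lit 0)]) (PF.cons (PF.leaf (nat_lit 4505776) (nat_lit 385309) (nat_lit 46043249) (nat_lit 18368393) [(nat_lit 385309), (nat_lit 0),
 (nat_lit 0), (nat_lit 0)]) (PF.cons (PF.leaf (nat_lit 4786214) (nat_lit 398218) (nat_lit 45631718) (nat_lit 18291347) [(nat_lit 398218), (nat_lit 0), (nat_lit 0), (nat_lit 0)]) (PF.cons (PF.leaf (nat_lit 5076379) (nat_lit 410090) (nat_lit 45208141) (nat_lit 18209855) [(nat_lit 410090), (nat_lit 0), (nat_lit 0), (nat_lit 0)]) (PF.cons PF.nil (PF.cons PF.nil PF.nil)))))))))))) (PF.cons (PF.cons (PF.leaf (nat_lit 3487029) (nat_lit 1245886) (nat_lit 47279411) (nat_lit 18583514) [(nat_lit 0), (nat_lit 1245886), (nat_lit 0), (nat_lit 0)]) (PF.cons (PF.leaf (nat_lit 3687798) (nat_lit 329964) (nat_lit 46971880) (nat_lit 18530979) [(nat_lit 329964), (nat_lit 1275988), (nat_lit 0), (nat_lit 0)]) (PF.cons (PF.leaf (nat_lit 3909734) (nat_lit 347913)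 (nat_lit 46635689) (nat_lit 18472134) [(nat_lit 347913), (nat_lit 1305162), (nat_lit 0), (nat_lit 0)]) (PF.cons (PF.leaf (nat_lit 4148747) (nat_lit 364077) (nat_lit 46276029) (nat_lit 18407571) [(nat_lit 364077), (nat_lit 1332978), (nat_lit 0), (nat_lit 0)]) (PF.cons (PF.leaf (nat_lit 4402420) (nat_lit 378759) (nat_lit 45896811) (nat_lit 18337725) [(nat_lit 378759), (nat_lit 1359238), (nat_lit 0), (nat_lit 0)]) (PF.cons (PF.leaf (nat_lit 4668795)
 (nat_lit 392169) (nat_lit 45501159) (nat_lit 18262943) [(nat_lit 392169), (nat_lit 1383864), (nat_lit 0), (nat_lit 0)]) (PF.cons (PF.leaf (nat_lit 4946321) (nat_lit 404462) (nat_lit 45091670) (nat_lit 18183526) [(nat_lit 404462), (nat_lit 1406842), (nat_lit 0), (nat_lit 0)]) (PF.cons (PF.leaf (nat_lit 5233535) (nat_lit 415758) (nat_lit 44670561) (nat_lit 18099745) [(nat_lit 415758), (nat_lit 1428194), (nat_lit 0), (nat_lit 0)]) (PF.cons PF.nil (PF.cons PF.nil PF.nil)))))))))) (PF.cons (PF.cons (PF.leaf (nat_lit 4085551) (nat_lit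 1331883) (nat_lit 46077248) (nat_lit 18367797) [(nat_lit 0), (nat_lit 1331883), (nat_lit 0), (nat_lit 0)]) (PF.cons (PF.leaf (nat_lit 4318846) (nat_lit 371049) (nat_lit 45722701) (nat_lit 18301634) [(nat_lit 371049), (nat_lit 1356713), (nat_lit 0), (nat_lit 0)]) (PF.cons (PF.leaf (nat_lit 4568316) (nat_lit 385230) (nat_lit 45347642) (nat_lit 18229961) [(nat_lit 385230), (nat_lit 1380373), (nat_lit 0), (nat_lit 0)]) (PF.cons (PF.leaf (nat_lit 4830958) (nat_lit 398129) (nat_lit 44955776) (nat_lit 18153254) [(nat_lit 398129), (nat_lit 1402696), (nat_lit 0), (nat_lit 0)]) (PF.cons (PF.leaf (nat_lit 5104972) (nat_lit 409919) (nat_lit 44550020) (nat_lit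
 18071896) [(nat_lit 409919), (nat_lit 1423608), (nat_lit 0), (nat_lit 0)]) (PF.cons (PF.leaf (nat_lit 5388827) (nat_lit 420729) (nat_lit 44132769) (nat_lit 17986211) [(nat_lit 420729), (nat_lit 1443091), (nat_lit 0), (nat_lit 0)]) (PF.cons (PF.leaf (nat_lit 5681228) (nat_lit 430659) (nat_lit 43706050) (nat_lit 17896493) [(nat_lit 430659), (nat_lit 1461156), (nat_lit 0), (nat_lit 0)]) (PF.cons PF.nil (PF.cons PF.nil PF.nil))))))))) (PF.cons (PF.cons (PF.leaf (nat_lit 4735704) (nat_lit 1399461) (nat_lit 44792979) (nat_lit 18117447) [(nat_lit 0), (nat_lit 1399461), (nat_lit 0), (nat_lit 0)]) (PF.cons (PF.leaf (nat_lit 4993025) (nat_lit 403225) (nat_lit 44407223) (nat_lit 18039390) [(nat_lit 403225), (nat_lit 1419657), (nat_lit 0), (nat_lit 0)]) (PF.cons (PF.leaf (nat_lit 5262797) (nat_lit 414625) (nat_lit 44006998) (nat_lit 17956570) [(nat_lit 414625), (nat_lit 1438664), (nat_lit 0), (nat_lit 0)]) (PF.cons (PF.leaf (nat_lit 5542726) (nat_lit 425037) (nat_lit 43595039)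 (nat_lit 17869396) [(nat_lit 425037), (nat_lit 1456421), (nat_lit 0), (nat_lit 0)]) (PF.cons (PF.leaf (nat_lit 5831406) (nat_lit 434572) (nat_lit 43173571) (nat_lit 17778216) [(nat_lit 434572), (nat_lit 1472911),
 (nat_lit 0), (nat_lit 0)]) (PF.cons PF.nil (PF.cons PF.nil PF.nil))))))) (PF.cons (PF.cons (PF.leaf (nat_lit 5421039) (nat_lit 1452174) (nat_lit 43462526) (nat_lit 17837589) [(nat_lit 0), (nat_lit 1452174), (nat_lit 0), (nat_lit 0)]) (PF.cons (PF.leaf (nat_lit 5695869) (nat_lit 428700) (nat_lit 43057425) (nat_lit 17749390) [(nat_lit 428700), (nat_lit 1468324), (nat_lit 0), (nat_lit 0)]) (PF.cons (PF.leaf (nat_lit 5980283) (nat_lit 437915) (nat_lit 42642442) (nat_lit 17657145) [(nat_lit 437915), (nat_lit 1483348), (nat_lit 0), (nat_lit 0)]) (PF.cons (PF.leaf (nat_lit 6272445) (nat_lit 446337) (nat_lit 42219643) (nat_lit 17561218) [(nat_lit 446337), (nat_lit 1497234), (nat_lit 0), (nat_lit 0)]) (PF.cons PF.nil PF.nil))))) (PF.cons (PF.cons (PF.leaf (nat_lit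 6128859) (nat_lit 1492574) (nat_lit 42112588) (nat_lit 17533353) [(nat_lit 0), (nat_lit 1492574), (nat_lit 0), (nat_lit 0)]) (PF.cons (PF.leaf (nat_lit 6416058) (nat_lit 448856) (nat_lit 41697181) (nat_lit 17436755) [(nat_lit 448856), (nat_lit 1505203), (nat_lit 0), (nat_lit 0)]) (PF.cons PF.nil (PF.cons PF.nil PF.nil)))) (PF.cons (PF.cons (PF.leaf (nat_lit 6849198) (nat_lit 1522647) (nat_lit 40763196) (nat_lit 17209734)
 [(nat_lit 0), (nat_lit 1522647), (nat_lit 0), (nat_lit 0)]) (PF.cons PF.nil PF.nil)) (PF.cons PF.nil PF.nil)))))))) (PF.cons (PF.cons (PF.cons (PF.leaf (nat_lit 4009377) (nat_lit 3214750) (nat_lit 45627247) (nat_lit 18266815) [(nat_lit 0), (nat_lit 0), (nat_lit 3214750), (nat_lit 0)]) (PF.cons (PF.leaf (nat_lit 4218312) (nat_lit 351480) (nat_lit 45312207) (nat_lit 18206577) [(nat_lit 351480), (nat_lit 0), (nat_lit 3238548), (nat_lit 0)]) (PF.cons (PF.leaf (nat_lit 4447337) (nat_lit 368140) (nat_lit 44970520) (nat_lit 18139882) [(nat_lit 368140), (nat_lit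 0), (nat_lit 3262128), (nat_lit 0)]) (PF.cons (PF.leaf (nat_lit 4692256) (nat_lit 382937) (nat_lit 44607582) (nat_lit 18067512) [(nat_lit 382937), (nat_lit 0), (nat_lit 3284904), (nat_lit 0)]) (PF.cons (PF.leaf (nat_lit 4950606) (nat_lit 396231) (nat_lit 44227355) (nat_lit 17990029) [(nat_lit 396231), (nat_lit 0), (nat_lit 3306501), (nat_lit 0)]) (PF.cons (PF.leaf (nat_lit 5220426) (nat_lit 408263) (nat_lit 43832932) (nat_lit 17907879) [(nat_lit 408263), (nat_lit 0), (nat_lit 3326683), (nat_lit 0)]) (PF.cons (PF.leaf (nat_lit 5500194) (nat_lit 419208) (nat_lit 43426828) (nat_lit 17821432) [(nat_lit 419208), (nat_lit 0), (nat_lit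
 3345301), (nat_lit 0)]) (PF.cons (PF.leaf (nat_lit 5788528) (nat_lit 429196) (nat_lit 43011150) (nat_lit 17731016) [(nat_lit 429196), (nat_lit 0), (nat_lit 3362269), (nat_lit 0)]) (PF.cons PF.nil (PF.cons PF.nil PF.nil)))))))))) (PF.cons (PF.cons (PF.leaf (nat_lit 4618200) (nat_lit 1379682) (nat_lit 44417269) (nat_lit 18025644) [(nat_lit 0), (nat_lit 1379682), (nat_lit 3286216), (nat_lit 0)]) (PF.cons (PF.leaf (nat_lit 4856521) (nat_lit 387963) (nat_lit 44061965) (nat_lit 17952492) [(nat_lit 387963), (nat_lit 1400433), (nat_lit 3305958), (nat_lit 0)]) (PF.cons (PF.leaf (nat_lit 5109865) (nat_lit 400926) (nat_lit 43688154) (nat_lit 17873960) [(nat_lit 400926), (nat_lit 1420079), (nat_lit 3324764), (nat_lit 0)]) (PF.cons (PF.leaf (nat_lit 5375331) (nat_lit 412595) (nat_lit 43299536) (nat_lit 17790633) [(nat_lit 412595), (nat_lit 1438498), (nat_lit 3342358), (nat_lit 0)]) (PF.cons (PF.leaf (nat_lit 5651045) (nat_lit 423166) (nat_lit 42898964) (nat_lit 17702969) [(nat_lit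 423166), (nat_lit 1455647), (nat_lit 3358566), (nat_lit 0)]) (PF.cons (PF.leaf (nat_lit 5935553) (nat_lit 432783) (nat_lit 42488741) (nat_lit 17611348) [(nat_lit 432783), (nat_lit 1471521), (nat_lit 3373285),
 (nat_lit 0)]) (PF.cons PF.nil (PF.cons PF.nil (PF.cons PF.nil PF.nil))))))))) (PF.cons (PF.cons (PF.leaf (nat_lit 5270722) (nat_lit 1434312) (nat_lit 43145811) (nat_lit 17753942) [(nat_lit 0), (nat_lit 1434312), (nat_lit 3340434), (nat_lit 0)]) (PF.cons (PF.leaf (nat_lit 5530262) (nat_lit 416193) (nat_lit 42765000) (nat_lit 17669996) [(nat_lit 416193), (nat_lit 1451005), (nat_lit 3355611), (nat_lit 0)]) (PF.cons (PF.leaf (nat_lit 5801264) (nat_lit 426489) (nat_lit 42371478) (nat_lit 17581570) [(nat_lit 426489), (nat_lit 1466604), (nat_lit 3369576), (nat_lit 0)]) (PF.cons (PF.leaf (nat_lit 6081447) (nat_lit 435811) (nat_lit 41967898) (nat_lit 17489134) [(nat_lit 435811), (nat_lit 1481070), (nat_lit 3382204), (nat_lit 0)]) (PF.cons (PF.leaf (nat_lit 6369435) (nat_lit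 444282) (nat_lit 41556382) (nat_lit 17393076) [(nat_lit 444282), (nat_lit 1494400), (nat_lit 3393424), (nat_lit 0)]) (PF.cons PF.nil (PF.cons PF.nil PF.nil))))))) (PF.cons (PF.cons (PF.leaf (nat_lit 5952003) (nat_lit 1476323) (nat_lit 41844103) (nat_lit 17457245) [(nat_lit 0), (nat_lit 1476323), (nat_lit 3378492), (nat_lit 0)]) (PF.cons (PF.leaf (nat_lit 6226721) (nat_lit 438287) (nat_lit 41448503) (nat_lit 17364429)
 [(nat_lit 438287), (nat_lit 1489472), (nat_lit 3389174), (nat_lit 0)]) (PF.cons (PF.leaf (nat_lit 6510147) (nat_lit 446522) (nat_lit 41044464) (nat_lit 17267926) [(nat_lit 446522), (nat_lit 1501599), (nat_lit 3398578), (nat_lit 0)]) (PF.cons PF.nil (PF.cons PF.nil PF.nil))))) (PF.cons (PF.cons (PF.leaf (nat_lit 6650728) (nat_lit 1507815) (nat_lit 40534824) (nat_lit 17140689) [(nat_lit 0), (nat_lit 1507815), (nat_lit 3402038), (nat_lit 0)]) (PF.cons (PF.leaf (nat_lit 6935915) (nat_lit 455554) (nat_lit 40132401) (nat_lit 17040780) [(nat_lit 455554), (nat_lit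 1517883), (nat_lit 3408542), (nat_lit 0)]) (PF.cons PF.nil (PF.cons PF.nil PF.nil)))) (PF.cons (PF.cons (PF.leaf (nat_lit 7358122) (nat_lit 1530458) (nat_lit 39234649) (nat_lit 16809017) [(nat_lit 0), (nat_lit 1530458), (nat_lit 3412853), (nat_lit 0)]) (PF.cons PF.nil PF.nil)) PF.nil)))))) (PF.cons (PF.cons (PF.cons (PF.leaf (nat_lit 5139414) (nat_lit 3322555) (nat_lit 42800417) (nat_lit 17663283) [(nat_lit 0), (nat_lit 0), (nat_lit 3322555), (nat_lit 0)]) (PF.cons (PF.leaf (nat_lit 5380826) (nat_lit 401188) (nat_lit 42448685) (nat_lit 17584708) [(nat_lit 401188), (nat_lit 0), (nat_lit 3337114), (nat_lit 0)]) (PF.cons (PF.leaf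
 (nat_lit 5636345) (nat_lit 413082) (nat_lit 42080214) (nat_lit 17500945) [(nat_lit 413082), (nat_lit 0), (nat_lit 3350743), (nat_lit 0)]) (PF.cons (PF.leaf (nat_lit 5902963) (nat_lit 423679) (nat_lit 41698641) (nat_lit 17412660) [(nat_lit 423679), (nat_lit 0), (nat_lit 3363235), (nat_lit 0)]) (PF.cons (PF.leaf (nat_lit 6178911) (nat_lit 433195) (nat_lit 41306728) (nat_lit 17320366) [(nat_lit 433195), (nat_lit 0), (nat_lit 3374467), (nat_lit 0)]) (PF.cons (PF.leaf (nat_lit 6462755) (nat_lit 441784) (nat_lit 40906673) (nat_lit 17224481) [(nat_lit 441784), (nat_lit 0), (nat_lit 3384368), (nat_lit 0)]) (PF.cons PF.nil PF.nil))))))) (PF.cons (PF.cons (PF.leaf (nat_lit 5790408) (nat_lit 1458833) (nat_lit 41554322) (nat_lit 17375757) [(nat_lit 0), (nat_lit 1458833), (nat_lit 3359949), (nat_lit 0)]) (PF.cons (PF.leaf (nat_lit 6050731) (nat_lit 426061) (nat_lit 41181678) (nat_lit 17287483) [(nat_lit 426061), (nat_lit 1472612), (nat_lit 3370488), (nat_lit 0)]) (PF.cons (PF.leaf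 (nat_lit 6321594) (nat_lit 435393) (nat_lit 40797813) (nat_lit 17195026) [(nat_lit 435393), (nat_lit 1485374), (nat_lit 3379905), (nat_lit 0)]) (PF.cons (PF.leaf (nat_lit 6600816) (nat_lit 443769) (nat_lit 40405279)
 (nat_lit 17098898) [(nat_lit 443769), (nat_lit 1497101), (nat_lit 3388111), (nat_lit 0)]) (PF.cons (PF.leaf (nat_lit 6887045) (nat_lit 451320) (nat_lit 40006091) (nat_lit 16999514) [(nat_lit 451320), (nat_lit 1507800), (nat_lit 3395063), (nat_lit 0)]) PF.nil))))) (PF.cons (PF.cons (PF.leaf (nat_lit 6464913) (nat_lit 1492038) (nat_lit 40290080) (nat_lit 17067377) [(nat_lit 0), (nat_lit 1492038), (nat_lit 3383639), (nat_lit 0)]) (PF.cons (PF.leaf (nat_lit 6738427) (nat_lit 445274) (nat_lit 39906225) (nat_lit 16971412) [(nat_lit 445274), (nat_lit 1502677), (nat_lit 3390271), (nat_lit 0)]) (PF.cons (PF.leaf (nat_lit 7019888) (nat_lit 452658) (nat_lit 39515123) (nat_lit 16872099) [(nat_lit 452658), (nat_lit 1512383), (nat_lit 3395753), (nat_lit 0)]) (PF.cons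 PF.nil PF.nil)))) (PF.cons (PF.cons (PF.leaf (nat_lit 7152757) (nat_lit 1516158) (nat_lit 39027082) (nat_lit 16743126) [(nat_lit 0), (nat_lit 1516158), (nat_lit 3395064), (nat_lit 0)]) (PF.cons (PF.leaf (nat_lit 7435148) (nat_lit 460079) (nat_lit 38639070) (nat_lit 16641226) [(nat_lit 460079), (nat_lit 1524081), (nat_lit 3398096), (nat_lit 0)]) PF.nil)) (PF.cons PF.nil PF.nil))))) (PF.cons (PF.cons (PF.cons (PF.leaf (nat_lit
 6293951) (nat_lit 3364909) (nat_lit 40025307) (nat_lit 16988777) [(nat_lit 0), (nat_lit 0), (nat_lit 3364909), (nat_lit 0)]) (PF.cons (PF.leaf (nat_lit 6553842) (nat_lit 433381) (nat_lit 39663029) (nat_lit 16897518) [(nat_lit 433381), (nat_lit 0), (nat_lit 3371627), (nat_lit 0)]) (PF.cons (PF.leaf (nat_lit 6823544) (nat_lit 441866) (nat_lit 39290799) (nat_lit 16802373) [(nat_lit 441866), (nat_lit 0), (nat_lit 3377302), (nat_lit 0)]) (PF.cons (PF.leaf (nat_lit 7100879) (nat_lit 449414) (nat_lit 38911057) (nat_lit 16703879) [(nat_lit 449414), (nat_lit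 0), (nat_lit 3381877), (nat_lit 0)]) (PF.cons PF.nil PF.nil))))) (PF.cons (PF.cons (PF.leaf (nat_lit 6959627) (nat_lit 1500938) (nat_lit 38804144) (nat_lit 16673056) [(nat_lit 0), (nat_lit 1500938), (nat_lit 3376891), (nat_lit 0)]) (PF.cons (PF.leaf (nat_lit 7231080) (nat_lit 450119) (nat_lit 38433470) (nat_lit 16575173) [(nat_lit 450119), (nat_lit 1509465), (nat_lit 3380194), (nat_lit 0)]) (PF.cons (PF.leaf (nat_lit 7509836) (nat_lit 456758) (nat_lit 38056534) (nat_lit 16474256) [(nat_lit 456758), (nat_lit 1517133), (nat_lit 3382457), (nat_lit 0)]) (PF.cons PF.nil PF.nil)))) (PF.cons (PF.cons (PF.leaf (nat_lit 7635339) (nat_lit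
 1518923) (nat_lit 37590681) (nat_lit 16344916) [(nat_lit 0), (nat_lit 1518923), (nat_lit 3378456), (nat_lit 0)]) (PF.cons PF.nil PF.nil)) PF.nil))) (PF.cons (PF.cons (PF.cons (PF.leaf (nat_lit 7436334) (nat_lit 3360704) (nat_lit 37387654) (nat_lit 16278342) [(nat_lit 0), (nat_lit 0), (nat_lit 3360704), (nat_lit 0)]) (PF.cons (PF.leaf (nat_lit 7705077) (nat_lit 453192) (nat_lit 37030997) (nat_lit 16179554) [(nat_lit 453192), (nat_lit 0), (nat_lit 3361266), (nat_lit 0)]) (PF.cons PF.nil PF.nil))) (PF.cons (PF.cons (PF.leaf (nat_lit 8099052) (nat_lit 1517169) (nat_lit 36225259) (nat_lit 15949397) [(nat_lit 0), (nat_lit 1517169), (nat_lit 3354246), (nat_lit 0)]) PF.nil) PF.nil)) (PF.cons PF.nil (PF.cons PF.nil (PF.cons PF.nil PF.nil)))))))) (PF.cons (PF.cons (PF.cons (PF.cons (PF.leaf (nat_lit 4893537) (nat_lit 8587165) (nat_lit 41302023) (nat_lit 17219623) [(nat_lit 0), (nat_lit 0), (nat_lit 0), (nat_lit 8587165)]) (PF.cons (PF.leaf (nat_lit 5100117) (nat_lit 359561)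 (nat_lit 41017886) (nat_lit 17153892) [(nat_lit 359561), (nat_lit 0), (nat_lit 0), (nat_lit 8577472)]) (PF.cons (PF.leaf (nat_lit 5325393) (nat_lit 375099) (nat_lit 40710930) (nat_lit 17081873) [(nat_lit 375099),
 (nat_lit 0), (nat_lit 0), (nat_lit 8565809)]) (PF.cons (PF.leaf (nat_lit 5565143) (nat_lit 388657) (nat_lit 40386126) (nat_lit 17004543) [(nat_lit 388657), (nat_lit 0), (nat_lit 0), (nat_lit 8552170)]) (PF.cons (PF.leaf (nat_lit 5816864) (nat_lit 400640) (nat_lit 40047088) (nat_lit 16922605) [(nat_lit 400640), (nat_lit 0), (nat_lit 0), (nat_lit 8536555)]) (PF.cons (PF.leaf (nat_lit 6078726) (nat_lit 411326) (nat_lit 39696597) (nat_lit 16836606) [(nat_lit 411326), (nat_lit 0), (nat_lit 0), (nat_lit 8518977)]) (PF.cons (PF.leaf (nat_lit 6349142) (nat_lit 420912) (nat_lit 39336883) (nat_lit 16746991) [(nat_lit 420912), (nat_lit 0), (nat_lit 0), (nat_lit 8499461)]) (PF.cons (PF.leaf (nat_lit 6626864) (nat_lit 429549) (nat_lit 38969783) (nat_lit 16654136) [(nat_lit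 429549), (nat_lit 0), (nat_lit 0), (nat_lit 8478045)]) (PF.cons PF.nil (PF.cons PF.nil PF.nil)))))))))) (PF.cons (PF.cons (PF.leaf (nat_lit 5482533) (nat_lit 1386064) (nat_lit 40220979) (nat_lit 16961891) [(nat_lit 0), (nat_lit 1386064), (nat_lit 0), (nat_lit 8539877)]) (PF.cons (PF.leaf (nat_lit 5715037) (nat_lit 391879) (nat_lit 39904464) (nat_lit 16884879) [(nat_lit 391879), (nat_lit 1402795), (nat_lit 0), (nat_lit
 8524793)]) (PF.cons (PF.leaf (nat_lit 5961257) (nat_lit 403623) (nat_lit 39572511) (nat_lit 16802966) [(nat_lit 403623), (nat_lit 1418378), (nat_lit 0), (nat_lit 8507709)]) (PF.cons (PF.leaf (nat_lit 6218240) (nat_lit 414035) (nat_lit 39228438) (nat_lit 16716838) [(nat_lit 414035), (nat_lit 1432757), (nat_lit 0), (nat_lit 8488672)]) (PF.cons (PF.leaf (nat_lit 6484244) (nat_lit 423337) (nat_lit 38874777) (nat_lit 16627023) [(nat_lit 423337), (nat_lit 1445931), (nat_lit 0), (nat_lit 8467731)]) (PF.cons (PF.leaf (nat_lit 6757852) (nat_lit 431689) (nat_lit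 38513542) (nat_lit 16533952) [(nat_lit 431689), (nat_lit 1457931), (nat_lit 0), (nat_lit 8444937)]) (PF.cons PF.nil (PF.cons PF.nil (PF.cons PF.nil PF.nil))))))))) (PF.cons (PF.cons (PF.leaf (nat_lit 6107224) (nat_lit 1427502) (nat_lit 39096634) (nat_lit 16680694) [(nat_lit 0), (nat_lit 1427502), (nat_lit 0), (nat_lit 8476479)]) (PF.cons (PF.leaf (nat_lit 6357949) (nat_lit 416122) (nat_lit 38760562) (nat_lit 16594932) [(nat_lit 416122), (nat_lit 1440493), (nat_lit 0), (nat_lit 8456207)]) (PF.cons (PF.leaf (nat_lit 6618933) (nat_lit 425233) (nat_lit 38414123) (nat_lit 16505310) [(nat_lit 425233), (nat_lit 1452437), (nat_lit 0),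
 (nat_lit 8434035)]) (PF.cons (PF.leaf (nat_lit 6887996) (nat_lit 433373) (nat_lit 38059644) (nat_lit 16412343) [(nat_lit 433373), (nat_lit 1463332), (nat_lit 0), (nat_lit 8410039)]) (PF.cons (PF.leaf (nat_lit 7163819) (nat_lit 440678) (nat_lit 37698962) (nat_lit 16316445) [(nat_lit 440678), (nat_lit 1473199), (nat_lit 0), (nat_lit 8384291)]) (PF.cons PF.nil (PF.cons PF.nil PF.nil))))))) (PF.cons (PF.cons (PF.leaf (nat_lit 6754385) (nat_lit 1458012) (nat_lit 37954544) (nat_lit 16381803) [(nat_lit 0), (nat_lit 1458012), (nat_lit 0), (nat_lit 8398427)]) (PF.cons (PF.leaf (nat_lit 7017843) (nat_lit 434600) (nat_lit 37607854) (nat_lit 16289306) [(nat_lit 434600), (nat_lit 1467878), (nat_lit 0), (nat_lit 8373415)]) (PF.cons (PF.leaf (nat_lit 7288996) (nat_lit 441744) (nat_lit 37254428) (nat_lit 16193778) [(nat_lit 441744), (nat_lit 1476814), (nat_lit 0), (nat_lit 8346672)]) (PF.cons (PF.leaf (nat_lit 7566182) (nat_lit 448144) (nat_lit 36895951) (nat_lit 16095621) [(nat_lit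 448144), (nat_lit 1484838), (nat_lit 0), (nat_lit 8318288)]) (PF.cons PF.nil PF.nil))))) (PF.cons (PF.cons (PF.leaf (nat_lit 7414380) (nat_lit 1479700) (nat_lit 36812496) (nat_lit 16069965) [(nat_lit 0), (nat_lit
 1479700), (nat_lit 0), (nat_lit 8307547)]) (PF.cons (PF.leaf (nat_lit 7686401) (nat_lit 448689) (nat_lit 36461618) (nat_lit 15972408) [(nat_lit 448689), (nat_lit 1486933), (nat_lit 0), (nat_lit 8278361)]) (PF.cons PF.nil (PF.cons PF.nil PF.nil)))) (PF.cons (PF.cons (PF.leaf (nat_lit 8079924) (nat_lit 1494143) (nat_lit 35683118) (nat_lit 15749192) [(nat_lit 0), (nat_lit 1494143), (nat_lit 0), (nat_lit 8205786)]) (PF.cons PF.nil PF.nil)) PF.nil)))))) (PF.cons (PF.cons (PF.cons (PF.leaf (nat_lit 5964229) (nat_lit 3265558) (nat_lit 38807860) (nat_lit 16594942) [(nat_lit 0), (nat_lit 0), (nat_lit 3265558), (nat_lit 8440452)]) (PF.cons (PF.leaf (nat_lit 6198184) (nat_lit 401116) (nat_lit 38497228) (nat_lit 16515016) [(nat_lit 401116), (nat_lit 0), (nat_lit 3274094),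 (nat_lit 8421356)]) (PF.cons (PF.leaf (nat_lit 6445042) (nat_lit 411907) (nat_lit 38172579) (nat_lit 16430426) [(nat_lit 411907), (nat_lit 0), (nat_lit 3281715), (nat_lit 8400275)]) (PF.cons (PF.leaf (nat_lit 6701858) (nat_lit 421388) (nat_lit 37837132) (nat_lit 16341898) [(nat_lit 421388), (nat_lit 0), (nat_lit 3288301), (nat_lit 8377315)]) (PF.cons (PF.leaf (nat_lit 6966926) (nat_lit 429789) (nat_lit 37493312) (nat_lit
 16249984) [(nat_lit 429789), (nat_lit 0), (nat_lit 3293788), (nat_lit 8352569)]) (PF.cons (PF.leaf (nat_lit 7238881) (nat_lit 437279) (nat_lit 37143021) (nat_lit 16155126) [(nat_lit 437279), (nat_lit 0), (nat_lit 3298148), (nat_lit 8326118)]) (PF.cons PF.nil PF.nil))))))) (PF.cons (PF.cons (PF.leaf (nat_lit 6584631) (nat_lit 1440486) (nat_lit 37713961) (nat_lit 16306429) [(nat_lit 0), (nat_lit 1440486), (nat_lit 3283566), (nat_lit 8364368)]) (PF.cons (PF.leaf (nat_lit 6834966) (nat_lit 422544) (nat_lit 37387109) (nat_lit 16218696) [(nat_lit 422544),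 (nat_lit 1451177), (nat_lit 3288744), (nat_lit 8340539)]) (PF.cons (PF.leaf (nat_lit 7094827) (nat_lit 430834) (nat_lit 37051022) (nat_lit 16127376) [(nat_lit 430834), (nat_lit 1460905), (nat_lit 3292928), (nat_lit 8314909)]) (PF.cons (PF.leaf (nat_lit 7362090) (nat_lit 438180) (nat_lit 36707923) (nat_lit 16033000) [(nat_lit 438180), (nat_lit 1469679), (nat_lit 3296078), (nat_lit 8287587)]) (PF.cons (PF.leaf (nat_lit 7635479) (nat_lit 444724) (nat_lit 36359545) (nat_lit 15935992) [(nat_lit 444724), (nat_lit 1477525), (nat_lit 3298182), (nat_lit 8258669)]) PF.nil))))) (PF.cons (PF.cons (PF.leaf (nat_lit 7223627) (nat_lit 1464261)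
 (nat_lit 36610381) (nat_lit 16003383) [(nat_lit 0), (nat_lit 1464261), (nat_lit 3290851), (nat_lit 8275674)]) (PF.cons (PF.leaf (nat_lit 7485157) (nat_lit 438681) (nat_lit 36275382) (nat_lit 15909829) [(nat_lit 438681), (nat_lit 1472188), (nat_lit 3292888), (nat_lit 8247654)]) (PF.cons (PF.leaf (nat_lit 7753806) (nat_lit 445121) (nat_lit 35934516) (nat_lit 15813519) [(nat_lit 445121), (nat_lit 1479267), (nat_lit 3293956), (nat_lit 8218043)]) (PF.cons PF.nil PF.nil)))) (PF.cons (PF.cons (PF.leaf (nat_lit 7872487) (nat_lit 1480410) (nat_lit 35512386) (nat_lit 15690235) [(nat_lit 0), (nat_lit 1480410), (nat_lit 3288759), (nat_lit 8176200)]) (PF.cons (PF.leaf (nat_lit 8141396) (nat_lit 450813) (nat_lit 35174954) (nat_lit 15592462) [(nat_lit 450813), (nat_lit 1486011), (nat_lit 3287972), (nat_lit 8144574)]) PF.nil)) (PF.cons PF.nil PF.nil))))) (PF.cons (PF.cons (PF.cons (PF.leaf (nat_lit 7047064) (nat_lit 3272070) (nat_lit 36390725) (nat_lit 15931741) [(nat_lit 0), (nat_lit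 0), (nat_lit 3272070), (nat_lit 8242204)]) (PF.cons (PF.leaf (nat_lit 7296199) (nat_lit 427073) (nat_lit 36074255) (nat_lit 15842928) [(nat_lit 427073), (nat_lit 0), (nat_lit 3274500), (nat_lit 8215553)]) (PF.cons
 (PF.leaf (nat_lit 7554243) (nat_lit 434641) (nat_lit 35749519) (nat_lit 15750787) [(nat_lit 434641), (nat_lit 0), (nat_lit 3276010), (nat_lit 8187202)]) (PF.cons (PF.leaf (nat_lit 7819081) (nat_lit 441292) (nat_lit 35418630) (nat_lit 15655856) [(nat_lit 441292), (nat_lit 0), (nat_lit 3276580), (nat_lit 8157286)]) (PF.cons PF.nil PF.nil))))) (PF.cons (PF.cons (PF.leaf (nat_lit 7676641) (nat_lit 1465720) (nat_lit 35328219) (nat_lit 15627310) [(nat_lit 0), (nat_lit 1465720), (nat_lit 3271139), (nat_lit 8145284)]) (PF.cons (PF.leaf (nat_lit 7935695) (nat_lit 441195) (nat_lit 35005553) (nat_lit 15533481) [(nat_lit 441195), (nat_lit 1472011), (nat_lit 3270817), (nat_lit 8114935)]) (PF.cons (PF.leaf (nat_lit 8201348) (nat_lit 447017) (nat_lit 34677744) (nat_lit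 15437146) [(nat_lit 447017), (nat_lit 1477526), (nat_lit 3269616), (nat_lit 8083126)]) (PF.cons PF.nil PF.nil)))) (PF.cons (PF.cons (PF.leaf (nat_lit 8313684) (nat_lit 1477249) (nat_lit 34275320) (nat_lit 15315190) [(nat_lit 0), (nat_lit 1477249), (nat_lit 3262222), (nat_lit 8039356)]) (PF.cons PF.nil PF.nil)) PF.nil))) (PF.cons (PF.cons (PF.cons (PF.leaf (nat_lit 8113826) (nat_lit 3245302) (nat_lit 34107417) (nat_lit 15255906)
 [(nat_lit 0), (nat_lit 0), (nat_lit 3245302), (nat_lit 8009581)]) (PF.cons (PF.leaf (nat_lit 8369972) (nat_lit 442412) (nat_lit 33797376) (nat_lit 15162435) [(nat_lit 442412), (nat_lit 0), (nat_lit 3243038), (nat_lit 7977473)]) (PF.cons PF.nil PF.nil))) (PF.cons (PF.cons (PF.leaf (nat_lit 8738597) (nat_lit 1470958) (nat_lit 33099689) (nat_lit 14946669) [(nat_lit 0), (nat_lit 1470958), (nat_lit 3230842), (nat_lit 7898968)]) PF.nil) PF.nil)) (PF.cons PF.nil (PF.cons PF.nil PF.nil)))))) (PF.cons (PF.cons (PF.cons (PF.cons (PF.leaf (nat_lit 6700480)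 (nat_lit 8067336) (nat_lit 35391291) (nat_lit 15582847) [(nat_lit 0), (nat_lit 0), (nat_lit 0), (nat_lit 8067336)]) (PF.cons (PF.leaf (nat_lit 6926367) (nat_lit 396574) (nat_lit 35117962) (nat_lit 15505144) [(nat_lit 396574), (nat_lit 0), (nat_lit 0), (nat_lit 8044565)]) (PF.cons (PF.leaf (nat_lit 7164155) (nat_lit 406453) (nat_lit 34832737) (nat_lit 15423265) [(nat_lit 406453), (nat_lit 0), (nat_lit 0), (nat_lit 8019951)]) (PF.cons (PF.leaf (nat_lit 7411016) (nat_lit 415032) (nat_lit 34538446) (nat_lit 15337941) [(nat_lit 415032), (nat_lit 0), (nat_lit 0), (nat_lit 7993663)]) (PF.cons (PF.leaf (nat_lit 7665299) (nat_lit 422554) (nat_lit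
 34237201) (nat_lit 15249722) [(nat_lit 422554), (nat_lit 0), (nat_lit 0), (nat_lit 7965836)]) (PF.cons (PF.leaf (nat_lit 7925704) (nat_lit 429190) (nat_lit 33930650) (nat_lit 15159041) [(nat_lit 429190), (nat_lit 0), (nat_lit 0), (nat_lit 7936583)]) (PF.cons PF.nil PF.nil))))))) (PF.cons (PF.cons (PF.leaf (nat_lit 7291502) (nat_lit 1409887) (nat_lit 34433258) (nat_lit 15304918) [(nat_lit 0), (nat_lit 1409887), (nat_lit 0), (nat_lit 7980374)]) (PF.cons (PF.leaf (nat_lit 7531870) (nat_lit 415351) (nat_lit 34146870) (nat_lit 15220799) [(nat_lit 415351), (nat_lit 1418363), (nat_lit 0), (nat_lit 7953714)]) (PF.cons (PF.leaf (nat_lit 7780974) (nat_lit 422816) (nat_lit 33852720) (nat_lit 15133572) [(nat_lit 422816), (nat_lit 1425933), (nat_lit 0), (nat_lit 7925476)]) (PF.cons (PF.leaf (nat_lit 8036743) (nat_lit 429361) (nat_lit 33552738) (nat_lit 15043755) [(nat_lit 429361), (nat_lit 1432626), (nat_lit 0), (nat_lit 7895803)]) (PF.cons PF.nil PF.nil))))) (PF.cons (PF.cons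 (PF.leaf (nat_lit 7897764) (nat_lit 1427120) (nat_lit 33469907) (nat_lit 15016582) [(nat_lit 0), (nat_lit 1427120), (nat_lit 0), (nat_lit 7884040)]) (PF.cons (PF.leaf (nat_lit 8147883) (nat_lit 429190) (nat_lit 33177231)
 (nat_lit 14927916) [(nat_lit 429190), (nat_lit 1433143), (nat_lit 0), (nat_lit 7854093)]) (PF.cons (PF.leaf (nat_lit 8404492) (nat_lit 434905) (nat_lit 32879658) (nat_lit 14836930) [(nat_lit 434905), (nat_lit 1438394), (nat_lit 0), (nat_lit 7822811)]) (PF.cons PF.nil PF.nil)))) (PF.cons (PF.cons (PF.leaf (nat_lit 8511633) (nat_lit 1437854) (nat_lit 32513512) (nat_lit 14721713) [(nat_lit 0), (nat_lit 1437854), (nat_lit 0), (nat_lit 7780011)]) (PF.cons PF.nil PF.nil)) (PF.cons PF.nil PF.nil))))) (PF.cons (PF.cons (PF.cons (PF.leaf (nat_lit 7718987) (nat_lit 3164481) (nat_lit 33286748) (nat_lit 14952453) [(nat_lit 0), (nat_lit 0), (nat_lit 3164481), (nat_lit 7852564)]) (PF.cons (PF.leaf (nat_lit 7957740) (nat_lit 418016) (nat_lit 33009953) (nat_lit 14868320)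 [(nat_lit 418016), (nat_lit 0), (nat_lit 3164185), (nat_lit 7824168)]) (PF.cons (PF.leaf (nat_lit 8204691) (nat_lit 424856) (nat_lit 32726155) (nat_lit 14781299) [(nat_lit 424856), (nat_lit 0), (nat_lit 3163071), (nat_lit 7794286)]) (PF.cons (PF.leaf (nat_lit 8457843) (nat_lit 430810) (nat_lit 32437181) (nat_lit 14691908) [(nat_lit 430810), (nat_lit 0), (nat_lit 3161142), (nat_lit 7763075)]) (PF.cons PF.nil PF.nil))))) (PF.cons
 (PF.cons (PF.leaf (nat_lit 8315860) (nat_lit 1423946) (nat_lit 32360381) (nat_lit 14665927) [(nat_lit 0), (nat_lit 1423946), (nat_lit 3155610), (nat_lit 7751473)]) (PF.cons (PF.leaf (nat_lit 8563348) (nat_lit 430183) (nat_lit 32078708) (nat_lit 14577861) [(nat_lit 430183), (nat_lit 1428673), (nat_lit 3153046), (nat_lit 7720169)]) (PF.cons PF.nil (PF.cons PF.nil PF.nil)))) (PF.cons (PF.cons (PF.leaf (nat_lit 8918540) (nat_lit 1431117) (nat_lit 31443592) (nat_lit 14374584) [(nat_lit 0), (nat_lit 1431117), (nat_lit 3140462), (nat_lit 7643969)])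 (PF.cons PF.nil PF.nil)) PF.nil))) (PF.cons (PF.cons (PF.cons (PF.leaf (nat_lit 8720044) (nat_lit 3124677) (nat_lit 31303707) (nat_lit 14322253) [(nat_lit 0), (nat_lit 0), (nat_lit 3124677), (nat_lit 7616748)]) (PF.cons (PF.leaf (nat_lit 8964586) (nat_lit 430203) (nat_lit 31033071) (nat_lit 14235185) [(nat_lit 430203), (nat_lit 0), (nat_lit 3120705), (nat_lit 7584470)]) PF.nil)) (PF.cons PF.nil PF.nil)) (PF.cons PF.nil (PF.cons PF.nil PF.nil))))) (PF.cons (PF.cons (PF.cons (PF.cons (PF.leaf (nat_lit 8325657) (nat_lit 7476526) (nat_lit 30621759) (nat_lit 14057473) [(nat_lit 0), (nat_lit 0), (nat_lit 0), (nat_lit 7476526)]) (PF.cons (PF.leaf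
 (nat_lit 8554599) (nat_lit 407529) (nat_lit 30378774) (nat_lit 13978895) [(nat_lit 407529), (nat_lit 0), (nat_lit 0), (nat_lit 7447871)]) (PF.cons (PF.leaf (nat_lit 8791232) (nat_lit 413780) (nat_lit 30129759) (nat_lit 13897783) [(nat_lit 413780), (nat_lit 0), (nat_lit 0), (nat_lit 7417903)]) (PF.cons PF.nil PF.nil)))) (PF.cons (PF.cons (PF.leaf (nat_lit 8893040) (nat_lit 1379430) (nat_lit 29810673) (nat_lit 13791173) [(nat_lit 0), (nat_lit 1379430), (nat_lit 0), (nat_lit 7375845)]) (PF.cons (PF.leaf (nat_lit 9129847) (nat_lit 418197) (nat_lit 29563645) (nat_lit 13709412) [(nat_lit 418197), (nat_lit 1383039), (nat_lit 0), (nat_lit 7344839)]) PF.nil)) (PF.cons PF.nil PF.nil))) (PF.cons (PF.cons (PF.cons (PF.leaf (nat_lit 9269343) (nat_lit 3004651) (nat_lit 28890865) (nat_lit 13475759) [(nat_lit 0), (nat_lit 0), (nat_lit 3004651), (nat_lit 7245845)]) (PF.cons PF.nil PF.nil)) (PF.cons PF.nil PF.nil)) (PF.cons PF.nil PF.nil))) (PF.cons (PF.cons (PF.cons (PF.cons (PF.leaf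 (nat_lit 9772378) (nat_lit 6899813) (nat_lit 26799343) (nat_lit 12710217) [(nat_lit 0), (nat_lit 0), (nat_lit 0), (nat_lit 6899813)]) (PF.cons PF.nil PF.nil)) (PF.cons PF.nil PF.nil)) (PF.cons PF.nil PF.nil)) (PF.cons
 PF.nil (PF.cons PF.nil (PF.cons PF.nil PF.nil))))))))

def p14_13_3_0 : pfC (piC [(nat_lit 39120232), (nat_lit 25510466), (nat_lit 18971201), (nat_lit 12765436)] (nat_lit 5175148)) p14_13_3 (nat_lit 4) (nat_lit 0) (nat_lit 1) = true := by decide +kernel
def p14_13_3_1 : pfC (piC [(nat_lit 39120232), (nat_lit 25510466), (nat_lit 18971201), (nat_lit 12765436)] (nat_lit 5175148)) p14_13_3 (nat_lit 4) (nat_lit 1) (nat_lit 2) = true := by decide +kernel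
def p14_13_3_2 : pfC (piC [(nat_lit 39120232), (nat_lit 25510466), (nat_lit 18971201), (nat_lit 12765436)] (nat_lit 5175148)) p14_13_3 (nat_lit 4) (nat_lit 2) (nat_lit 3) = true := by decide +kernel
def p14_13_3_3 : pfC (piC [(nat_lit 39120232), (nat_lit 25510466), (nat_lit 18971201), (nat_lit 12765436)] (nat_lit 5175148)) p14_13_3 (nat_lit 4) (nat_lit 3) (nat_lit 4) = true := by decide +kernel
def p14_13_3_4 : pfC (piC [(nat_lit 39120232), (nat_lit 25510466), (nat_lit 18971201), (nat_lit 12765436)] (nat_lit 5175148)) p14_13_3 (nat_lit 4) (nat_lit 4) (nat_lit 5) = true := by decide +kernel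
def p14_13_3_5 : pfC (piC [(nat_lit 39120232), (nat_lit 25510466), (nat_lit 18971201), (nat_lit 12765436)] (nat_lit 5175148)) p14_13_3 (nat_lit 4) (nat_lit 5) (nat_lit 6) = true := by decide +kernel
def p14_13_3_6 : pfC (piC [(nat_lit 39120232), (nat_lit 25510466), (nat_lit 18971201), (nat_lit 12765436)] (nat_lit 5175148)) p14_13_3 (nat_lit 4) (nat_lit 6) (nat_lit 7) = true := by decide +kernel
def p14_13_3_7 : pfC (piC [(nat_lit 39120232), (nat_lit 25510466), (nat_lit 18971201), (nat_lit 12765436)] (nat_lit 5175148)) p14_13_3 (nat_lit 4) (nat_lit 7) (nat_lit 8) = true := by decide +kernel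
def p14_13_3_8 : pfC (piC [(nat_lit 39120232), (nat_lit 25510466), (nat_lit 18971201), (nat_lit 12765436)] (nat_lit 5175148)) p14_13_3 (nat_lit 4) (nat_lit 8) (nat_lit 9) = true := by decide +kernel
def p14_13_3_9 : pfC (piC [(nat_lit 39120232), (nat_lit 25510466), (nat_lit 18971201), (nat_lit 12765436)] (nat_lit 5175148)) p14_13_3 (nat_lit 4) (nat_lit 9) (nat_lit 10) = true := by decide +kernel
def p14_13_3_10 : pfC (piC [(nat_lit 39120232), (nat_lit 25510466), (nat_lit 18971201), (nat_lit 12765436)] (nat_lit 5175148)) p14_13_3 (nat_lit 4) (nat_lit 10) (nat_lit 11) = true := by decide +kernel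
def p14_13_3_11 : pfC (piC [(nat_lit 39120232), (nat_lit 25510466), (nat_lit 18971201), (nat_lit 12765436)] (nat_lit 5175148)) p14_13_3 (nat_lit 4) (nat_lit 11) (nat_lit 12) = true := by decide +kernel
def p14_13_3_12 : pfC (piC [(nat_lit 39120232), (nat_lit 25510466), (nat_lit 18971201), (nat_lit 12765436)] (nat_lit 5175148)) p14_13_3 (nat_lit 4) (nat_lit 12) (nat_lit 13) = true := by decide +kernel
def p14_13_3_13 : pfC (piC [(nat_lit 39120232), (nat_lit 25510466), (nat_lit 18971201), (nat_lit 12765436)] (nat_lit 5175148)) p14_13_3 (nat_lit 4) (nat_lit 13) (nat_lit 14) = true := by decide +kernel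
def p14_13_3_14 : pfC (piC [(nat_lit 39120232), (nat_lit 25510466), (nat_lit 18971201), (nat_lit 12765436)] (nat_lit 5175148)) p14_13_3 (nat_lit 4) (nat_lit 14) (nat_lit 15) = true := by decide +kernel
def p14_13_3_15 : pfC (piC [(nat_lit 39120232), (nat_lit 25510466), (nat_lit 18971201), (nat_lit 12765436)] (nat_lit 5175148)) p14_13_3 (nat_lit 4) (nat_lit 15) (nat_lit 16) = true := by decide +kernel
def p14_13_3_16 : pfC (piC [(nat_lit 39120232), (nat_lit 25510466), (nat_lit 18971201), (nat_lit 12765436)] (nat_lit 5175148)) p14_13_3 (nat_lit 4) (nat_lit 16) (nat_lit 17) = true := by decide +kernel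
def p14_13_3_17 : pfC (piC [(nat_lit 39120232), (nat_lit 25510466), (nat_lit 18971201), (nat_lit 12765436)] (nat_lit 5175148)) p14_13_3 (nat_lit 4) (nat_lit 17) (nat_lit 18) = true := by decide +kernel
def p14_13_3_18 : pfC (piC [(nat_lit 39120232), (nat_lit 25510466), (nat_lit 18971201), (nat_lit 12765436)] (nat_lit 5175148)) p14_13_3 (nat_lit 4) (nat_lit 18) (nat_lit 19) = true := by decide +kernel
def p14_13_3_19 : pfC (piC [(nat_lit 39120232), (nat_lit 25510466), (nat_lit 18971201), (nat_lit 12765436)] (nat_lit 5175148)) p14_13_3 (nat_lit 4) (nat_lit 19) (nat_lit 20) = true := by decide +kernel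
def p14_13_3_20 : pfC (piC [(nat_lit 39120232), (nat_lit 25510466), (nat_lit 18971201), (nat_lit 12765436)] (nat_lit 5175148)) p14_13_3 (nat_lit 4) (nat_lit 20) (nat_lit 21) = true := by decide +kernel
def p14_13_3_21 : pfC (piC [(nat_lit 39120232), (nat_lit 25510466), (nat_lit 18971201), (nat_lit 12765436)] (nat_lit 5175148)) p14_13_3 (nat_lit 4) (nat_lit 21) (nat_lit 22) = true := by decide +kernel
def p14_13_3_22 : pfC (piC [(nat_lit 39120232), (nat_lit 25510466), (nat_lit 18971201), (nat_lit 12765436)] (nat_lit 5175148)) p14_13_3 (nat_lit 4) (nat_lit 22) (nat_lit 23) = true := by decide +kernel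
def p14_13_3_23 : pfC (piC [(nat_lit 39120232), (nat_lit 25510466), (nat_lit 18971201), (nat_lit 12765436)] (nat_lit 5175148)) p14_13_3 (nat_lit 4) (nat_lit 23) (nat_lit 24) = true := by decide +kernel
def p14_13_3_24 : pfC (piC [(nat_lit 39120232), (nat_lit 25510466), (nat_lit 18971201), (nat_lit 12765436)] (nat_lit 5175148)) p14_13_3 (nat_lit 4) (nat_lit 24) (nat_lit 25) = true := by decide +kernel
def p14_13_3_25 : pfC (piC [(nat_lit 39120232), (nat_lit 25510466), (nat_lit 18971201), (nat_lit 12765436)] (nat_lit 5175148)) p14_13_3 (nat_lit 4) (nat_lit 25) (nat_lit 26) = true := by decide +kernel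
def p14_13_3_26 : pfC (piC [(nat_lit 39120232), (nat_lit 25510466), (nat_lit 18971201), (nat_lit 12765436)] (nat_lit 5175148)) p14_13_3 (nat_lit 4) (nat_lit 26) (nat_lit 27) = true := by decide +kernel
def p14_13_3_27 : pfC (piC [(nat_lit 39120232), (nat_lit 25510466), (nat_lit 18971201), (nat_lit 12765436)] (nat_lit 5175148)) p14_13_3 (nat_lit 4) (nat_lit 27) (nat_lit 28) = true := by decide +kernel
def p14_13_3_28 : pfC (piC [(nat_lit 39120232), (nat_lit 25510466), (nat_lit 18971201), (nat_lit 12765436)] (nat_lit 5175148)) p14_13_3 (nat_lit 4) (nat_lit 28) (nat_lit 29) = true := by decide +kernel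
def p14_13_3_29 : pfC (piC [(nat_lit 39120232), (nat_lit 25510466), (nat_lit 18971201), (nat_lit 12765436)] (nat_lit 5175148)) p14_13_3 (nat_lit 4) (nat_lit 29) (nat_lit 30) = true := by decide +kernel
def p14_13_3_30 : pfC (piC [(nat_lit 39120232), (nat_lit 25510466), (nat_lit 18971201), (nat_lit 12765436)] (nat_lit 5175148)) p14_13_3 (nat_lit 4) (nat_lit 30) (nat_lit 31) = true := by decide +kernel
def p14_13_3_31 : pfC (piC [(nat_lit 39120232), (nat_lit 25510466), (nat_lit 18971201), (nat_lit 12765436)] (nat_lit 5175148)) p14_13_3 (nat_lit 4) (nat_lit 31) (nat_lit 32) = true := by decide +kernel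
def p14_13_3_32 : pfC (piC [(nat_lit 39120232), (nat_lit 25510466), (nat_lit 18971201), (nat_lit 12765436)] (nat_lit 5175148)) p14_13_3 (nat_lit 4) (nat_lit 32) (nat_lit 33) = true := by decide +kernel
def p14_13_3_33 : pfC (piC [(nat_lit 39120232), (nat_lit 25510466), (nat_lit 18971201), (nat_lit 12765436)] (nat_lit 5175148)) p14_13_3 (nat_lit 4) (nat_lit 33) (nat_lit 34) = true := by decide +kernel
def p14_13_3_34 : pfC (piC [(nat_lit 39120232), (nat_lit 25510466), (nat_lit 18971201), (nat_lit 12765436)] (nat_lit 5175148)) p14_13_3 (nat_lit 4) (nat_lit 34) (nat_lit 35) = true := by decide +kernel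
def p14_13_3_35 : pfC (piC [(nat_lit 39120232), (nat_lit 25510466), (nat_lit 18971201), (nat_lit 12765436)] (nat_lit 5175148)) p14_13_3 (nat_lit 4) (nat_lit 35) (nat_lit 36) = true := by decide +kernel
def p14_13_3_36 : pfC (piC [(nat_lit 39120232), (nat_lit 25510466), (nat_lit 18971201), (nat_lit 12765436)] (nat_lit 5175148)) p14_13_3 (nat_lit 4) (nat_lit 36) (nat_lit 37) = true := by decide +kernel
def p14_13_3_37 : pfC (piC [(nat_lit 39120232), (nat_lit 25510466), (nat_lit 18971201), (nat_lit 12765436)] (nat_lit 5175148)) p14_13_3 (nat_lit 4) (nat_lit 37) (nat_lit 38) = true := by decide +kernel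
def p14_13_3_38 : pfC (piC [(nat_lit 39120232), (nat_lit 25510466), (nat_lit 18971201), (nat_lit 12765436)] (nat_lit 5175148)) p14_13_3 (nat_lit 4) (nat_lit 38) (nat_lit 39) = true := by decide +kernel
def p14_13_3_39 : pfC (piC [(nat_lit 39120232), (nat_lit 25510466), (nat_lit 18971201), (nat_lit 12765436)] (nat_lit 5175148)) p14_13_3 (nat_lit 4) (nat_lit 39) (nat_lit 40) = true := by decide +kernel
def p14_13_3_40 : pfC (piC [(nat_lit 39120232), (nat_lit 25510466), (nat_lit 18971201), (nat_lit 12765436)] (nat_lit 5175148)) p14_13_3 (nat_lit 4) (nat_lit 40) (nat_lit 41) = true := by decide +kernel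
def p14_13_3_41 : pfC (piC [(nat_lit 39120232), (nat_lit 25510466), (nat_lit 18971201), (nat_lit 12765436)] (nat_lit 5175148)) p14_13_3 (nat_lit 4) (nat_lit 41) (nat_lit 42) = true := by decide +kernel
def p14_13_3_42 : pfC (piC [(nat_lit 39120232), (nat_lit 25510466), (nat_lit 18971201), (nat_lit 12765436)] (nat_lit 5175148)) p14_13_3 (nat_lit 4) (nat_lit 42) (nat_lit 43) = true := by decide +kernel
def p14_13_3_43 : pfC (piC [(nat_lit 39120232), (nat_lit 25510466), (nat_lit 18971201), (nat_lit 12765436)] (nat_lit 5175148)) p14_13_3 (nat_lit 4) (nat_lit 43) (nat_lit 44) = true := by decide +kernel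
def p14_13_3_44 : pfC (piC [(nat_lit 39120232), (nat_lit 25510466), (nat_lit 18971201), (nat_lit 12765436)] (nat_lit 5175148)) p14_13_3 (nat_lit 4) (nat_lit 44) (nat_lit 45) = true := by decide +kernel
def p14_13_3_45 : pfC (piC [(nat_lit 39120232), (nat_lit 25510466), (nat_lit 18971201), (nat_lit 12765436)] (nat_lit 5175148)) p14_13_3 (nat_lit 4) (nat_lit 45) (nat_lit 46) = true := by decide +kernel
def p14_13_3_46 : pfC (piC [(nat_lit 39120232), (nat_lit 25510466), (nat_lit 18971201), (nat_lit 12765436)] (nat_lit 5175148)) p14_13_3 (nat_lit 4) (nat_lit 46) (nat_lit 47) = true := by decide +kernel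
def p14_13_3_47 : pfC (piC [(nat_lit 39120232), (nat_lit 25510466), (nat_lit 18971201), (nat_lit 12765436)] (nat_lit 5175148)) p14_13_3 (nat_lit 4) (nat_lit 47) (nat_lit 48) = true := by decide +kernel
def p14_13_3_48 : pfC (piC [(nat_lit 39120232), (nat_lit 25510466), (nat_lit 18971201), (nat_lit 12765436)] (nat_lit 5175148)) p14_13_3 (nat_lit 4) (nat_lit 48) (nat_lit 49) = true := by decide +kernel
def p14_13_3_49 : pfC (piC [(nat_lit 39120232), (nat_lit 25510466), (nat_lit 18971201), (nat_lit 12765436)] (nat_lit 5175148)) p14_13_3 (nat_lit 4) (nat_lit 49) (nat_lit 50) = true := by decide +kernel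
def p14_13_3_50 : pfC (piC [(nat_lit 39120232), (nat_lit 25510466), (nat_lit 18971201), (nat_lit 12765436)] (nat_lit 5175148)) p14_13_3 (nat_lit 4) (nat_lit 50) (nat_lit 51) = true := by decide +kernel
def p14_13_3_51 : pfC (piC [(nat_lit 39120232), (nat_lit 25510466), (nat_lit 18971201), (nat_lit 12765436)] (nat_lit 5175148)) p14_13_3 (nat_lit 4) (nat_lit 51) (nat_lit 52) = true := by decide +kernel
def p14_13_3_52 : pfC (piC [(nat_lit 39120232), (nat_lit 25510466), (nat_lit 18971201), (nat_lit 12765436)] (nat_lit 5175148)) p14_13_3 (nat_lit 4) (nat_lit 52) (nat_lit 53) = true := by decide +kernel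
def p14_13_3_53 : pfC (piC [(nat_lit 39120232), (nat_lit 25510466), (nat_lit 18971201), (nat_lit 12765436)] (nat_lit 5175148)) p14_13_3 (nat_lit 4) (nat_lit 53) (nat_lit 54) = true := by decide +kernel
def p14_13_3_54 : pfC (piC [(nat_lit 39120232), (nat_lit 25510466), (nat_lit 18971201), (nat_lit 12765436)] (nat_lit 5175148)) p14_13_3 (nat_lit 4) (nat_lit 54) (nat_lit 55) = true := by decide +kernel
def p14_13_3_55 : pfC (piC [(nat_lit 39120232), (nat_lit 25510466), (nat_lit 18971201), (nat_lit 12765436)] (nat_lit 5175148)) p14_13_3 (nat_lit 4) (nat_lit 55) (nat_lit 56) = true := by decide +kernel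
def p14_13_3_56 : pfC (piC [(nat_lit 39120232), (nat_lit 25510466), (nat_lit 18971201), (nat_lit 12765436)] (nat_lit 5175148)) p14_13_3 (nat_lit 4) (nat_lit 56) (nat_lit 57) = true := by decide +kernel
def p14_13_3_57 : pfC (piC [(nat_lit 39120232), (nat_lit 25510466), (nat_lit 18971201), (nat_lit 12765436)] (nat_lit 5175148)) p14_13_3 (nat_lit 4) (nat_lit 57) (nat_lit 58) = true := by decide +kernel
def p14_13_3_58 : pfC (piC [(nat_lit 39120232), (nat_lit 25510466), (nat_lit 18971201), (nat_lit 12765436)] (nat_lit 5175148)) p14_13_3 (nat_lit 4) (nat_lit 58) (nat_lit 59) = true := by decide +kernel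
def p14_13_3_59 : pfC (piC [(nat_lit 39120232), (nat_lit 25510466), (nat_lit 18971201), (nat_lit 12765436)] (nat_lit 5175148)) p14_13_3 (nat_lit 4) (nat_lit 59) (nat_lit 60) = true := by decide +kernel
def p14_13_3_60 : pfC (piC [(nat_lit 39120232), (nat_lit 25510466), (nat_lit 18971201), (nat_lit 12765436)] (nat_lit 5175148)) p14_13_3 (nat_lit 4) (nat_lit 60) (nat_lit 61) = true := by decide +kernel
def p14_13_3_61 : pfC (piC [(nat_lit 39120232), (nat_lit 25510466), (nat_lit 18971201), (nat_lit 12765436)] (nat_lit 5175148)) p14_13_3 (nat_lit 4) (nat_lit 61) (nat_lit 62) = true := by decide +kernel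
def p14_13_3_62 : pfC (piC [(nat_lit 39120232), (nat_lit 25510466), (nat_lit 18971201), (nat_lit 12765436)] (nat_lit 5175148)) p14_13_3 (nat_lit 4) (nat_lit 62) (nat_lit 63) = true := by decide +kernel
def p14_13_3_63 : pfC (piC [(nat_lit 39120232), (nat_lit 25510466), (nat_lit 18971201), (nat_lit 12765436)] (nat_lit 5175148)) p14_13_3 (nat_lit 4) (nat_lit 63) (nat_lit 64) = true := by decide +kernel
def p14_13_3_64 : pfC (piC [(nat_lit 39120232), (nat_lit 25510466), (nat_lit 18971201), (nat_lit 12765436)] (nat_lit 5175148)) p14_13_3 (nat_lit 4) (nat_lit 64) (nat_lit 65) = true := by decide +kernel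
def p14_13_3_65 : pfC (piC [(nat_lit 39120232), (nat_lit 25510466), (nat_lit 18971201), (nat_lit 12765436)] (nat_lit 5175148)) p14_13_3 (nat_lit 4) (nat_lit 65) (nat_lit 66) = true := by decide +kernel
def p14_13_3_66 : pfC (piC [(nat_lit 39120232), (nat_lit 25510466), (nat_lit 18971201), (nat_lit 12765436)] (nat_lit 5175148)) p14_13_3 (nat_lit 4) (nat_lit 66) (nat_lit 67) = true := by decide +kernel
def p14_13_3_67 : pfC (piC [(nat_lit 39120232), (nat_lit 25510466), (nat_lit 18971201), (nat_lit 12765436)] (nat_lit 5175148)) p14_13_3 (nat_lit 4) (nat_lit 67) (nat_lit 68) = true := by decide +kernel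
def p14_13_3_68 : pfC (piC [(nat_lit 39120232), (nat_lit 25510466), (nat_lit 18971201), (nat_lit 12765436)] (nat_lit 5175148)) p14_13_3 (nat_lit 4) (nat_lit 68) (nat_lit 69) = true := by decide +kernel
def p14_13_3_69 : pfC (piC [(nat_lit 39120232), (nat_lit 25510466), (nat_lit 18971201), (nat_lit 12765436)] (nat_lit 5175148)) p14_13_3 (nat_lit 4) (nat_lit 69) (nat_lit 70) = true := by decide +kernel
def p14_13_3_70 : pfC (piC [(nat_lit 39120232), (nat_lit 25510466), (nat_lit 18971201), (nat_lit 12765436)] (nat_lit 5175148)) p14_13_3 (nat_lit 4) (nat_lit 70) (nat_lit 71) = true := by decide +kernel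
def p14_13_3_71 : pfC (piC [(nat_lit 39120232), (nat_lit 25510466), (nat_lit 18971201), (nat_lit 12765436)] (nat_lit 5175148)) p14_13_3 (nat_lit 4) (nat_lit 71) (nat_lit 72) = true := by decide +kernel
def p14_13_3_72 : pfC (piC [(nat_lit 39120232), (nat_lit 25510466), (nat_lit 18971201), (nat_lit 12765436)] (nat_lit 5175148)) p14_13_3 (nat_lit 4) (nat_lit 72) (nat_lit 73) = true := by decide +kernel
def p14_13_3_73 : pfC (piC [(nat_lit 39120232), (nat_lit 25510466), (nat_lit 18971201), (nat_lit 12765436)] (nat_lit 5175148)) p14_13_3 (nat_lit 4) (nat_lit 73) (nat_lit 74) = true := by decide +kernel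
def p14_13_3_74 : pfC (piC [(nat_lit 39120232), (nat_lit 25510466), (nat_lit 18971201), (nat_lit 12765436)] (nat_lit 5175148)) p14_13_3 (nat_lit 4) (nat_lit 74) (nat_lit 75) = true := by decide +kernel
def p14_13_3_75 : pfC (piC [(nat_lit 39120232), (nat_lit 25510466), (nat_lit 18971201), (nat_lit 12765436)] (nat_lit 5175148)) p14_13_3 (nat_lit 4) (nat_lit 75) (nat_lit 76) = true := by decide +kernel
def p14_13_3_76 : pfC (piC [(nat_lit 39120232), (nat_lit 25510466), (nat_lit 18971201), (nat_lit 12765436)] (nat_lit 5175148)) p14_13_3 (nat_lit 4) (nat_lit 76) (nat_lit 77) = true := by decide +kernel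
def p14_13_3_77 : pfC (piC [(nat_lit 39120232), (nat_lit 25510466), (nat_lit 18971201), (nat_lit 12765436)] (nat_lit 5175148)) p14_13_3 (nat_lit 4) (nat_lit 77) (nat_lit 78) = true := by decide +kernel
def p14_13_3_78 : pfC (piC [(nat_lit 39120232), (nat_lit 25510466), (nat_lit 18971201), (nat_lit 12765436)] (nat_lit 5175148)) p14_13_3 (nat_lit 4) (nat_lit 78) (nat_lit 79) = true := by decide +kernel
def p14_13_3_79 : pfC (piC [(nat_lit 39120232), (nat_lit 25510466), (nat_lit 18971201), (nat_lit 12765436)] (nat_lit 5175148)) p14_13_3 (nat_lit 4) (nat_lit 79) (nat_lit 80) = true := by decide +kernel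
def p14_13_3_80 : pfC (piC [(nat_lit 39120232), (nat_lit 25510466), (nat_lit 18971201), (nat_lit 12765436)] (nat_lit 5175148)) p14_13_3 (nat_lit 4) (nat_lit 80) (nat_lit 81) = true := by decide +kernel
def p14_13_3_81 : pfC (piC [(nat_lit 39120232), (nat_lit 25510466), (nat_lit 18971201), (nat_lit 12765436)] (nat_lit 5175148)) p14_13_3 (nat_lit 4) (nat_lit 81) (nat_lit 82) = true := by decide +kernel
def p14_13_3_82 : pfC (piC [(nat_lit 39120232), (nat_lit 25510466), (nat_lit 18971201), (nat_lit 12765436)] (nat_lit 5175148)) p14_13_3 (nat_lit 4) (nat_lit 82) (nat_lit 83) = true := by decide +kernel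
def p14_13_3_83 : pfC (piC [(nat_lit 39120232), (nat_lit 25510466), (nat_lit 18971201), (nat_lit 12765436)] (nat_lit 5175148)) p14_13_3 (nat_lit 4) (nat_lit 83) (nat_lit 84) = true := by decide +kernel
def p14_13_3_84 : pfC (piC [(nat_lit 39120232), (nat_lit 25510466), (nat_lit 18971201), (nat_lit 12765436)] (nat_lit 5175148)) p14_13_3 (nat_lit 4) (nat_lit 84) (nat_lit 85) = true := by decide +kernel
def p14_13_3_85 : pfC (piC [(nat_lit 39120232), (nat_lit 25510466), (nat_lit 18971201), (nat_lit 12765436)] (nat_lit 5175148)) p14_13_3 (nat_lit 4) (nat_lit 85) (nat_lit 86) = true := by decide +kernel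
def p14_13_3_86 : pfC (piC [(nat_lit 39120232), (nat_lit 25510466), (nat_lit 18971201), (nat_lit 12765436)] (nat_lit 5175148)) p14_13_3 (nat_lit 4) (nat_lit 86) (nat_lit 87) = true := by decide +kernel
def p14_13_3_87 : pfC (piC [(nat_lit 39120232), (nat_lit 25510466), (nat_lit 18971201), (nat_lit 12765436)] (nat_lit 5175148)) p14_13_3 (nat_lit 4) (nat_lit 87) (nat_lit 88) = true := by decide +kernel
def p14_13_3_88 : pfC (piC [(nat_lit 39120232), (nat_lit 25510466), (nat_lit 18971201), (nat_lit 12765436)] (nat_lit 5175148)) p14_13_3 (nat_lit 4) (nat_lit 88) (nat_lit 89) = true := by decide +kernel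
def p14_13_3_89 : pfC (piC [(nat_lit 39120232), (nat_lit 25510466), (nat_lit 18971201), (nat_lit 12765436)] (nat_lit 5175148)) p14_13_3 (nat_lit 4) (nat_lit 89) (nat_lit 90) = true := by decide +kernel
def p14_13_3_90 : pfC (piC [(nat_lit 39120232), (nat_lit 25510466), (nat_lit 18971201), (nat_lit 12765436)] (nat_lit 5175148)) p14_13_3 (nat_lit 4) (nat_lit 90) (nat_lit 91) = true := by decide +kernel
def p14_13_3_91 : pfC (piC [(nat_lit 39120232), (nat_lit 25510466), (nat_lit 18971201), (nat_lit 12765436)] (nat_lit 5175148)) p14_13_3 (nat_lit 4) (nat_lit 91) (nat_lit 92) = true := by decide +kernel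
def p14_13_3_92 : pfC (piC [(nat_lit 39120232), (nat_lit 25510466), (nat_lit 18971201), (nat_lit 12765436)] (nat_lit 5175148)) p14_13_3 (nat_lit 4) (nat_lit 92) (nat_lit 93) = true := by decide +kernel
def p14_13_3_93 : pfC (piC [(nat_lit 39120232), (nat_lit 25510466), (nat_lit 18971201), (nat_lit 12765436)] (nat_lit 5175148)) p14_13_3 (nat_lit 4) (nat_lit 93) (nat_lit 94) = true := by decide +kernel
def p14_13_3_94 : pfC (piC [(nat_lit 39120232), (nat_lit 25510466), (nat_lit 18971201), (nat_lit 12765436)] (nat_lit 5175148)) p14_13_3 (nat_lit 4) (nat_lit 94) (nat_lit 95) = true := by decide +kernel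
def p14_13_3_95 : pfC (piC [(nat_lit 39120232), (nat_lit 25510466), (nat_lit 18971201), (nat_lit 12765436)] (nat_lit 5175148)) p14_13_3 (nat_lit 4) (nat_lit 95) (nat_lit 96) = true := by decide +kernel
def p14_13_3_96 : pfC (piC [(nat_lit 39120232), (nat_lit 25510466), (nat_lit 18971201), (nat_lit 12765436)] (nat_lit 5175148)) p14_13_3 (nat_lit 4) (nat_lit 96) (nat_lit 97) = true := by decide +kernel
def p14_13_3_97 : pfC (piC [(nat_lit 39120232), (nat_lit 25510466), (nat_lit 18971201), (nat_lit 12765436)] (nat_lit 5175148)) p14_13_3 (nat_lit 4) (nat_lit 97) (nat_lit 98) = true := by decide +kernel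
def p14_13_3_98 : pfC (piC [(nat_lit 39120232), (nat_lit 25510466), (nat_lit 18971201), (nat_lit 12765436)] (nat_lit 5175148)) p14_13_3 (nat_lit 4) (nat_lit 98) (nat_lit 99) = true := by decide +kernel
def p14_13_3_99 : pfC (piC [(nat_lit 39120232), (nat_lit 25510466), (nat_lit 18971201), (nat_lit 12765436)] (nat_lit 5175148)) p14_13_3 (nat_lit 4) (nat_lit 99) (nat_lit 100) = true := by decide +kernel
def p14_13_3_100 : pfC (piC [(nat_lit 39120232), (nat_lit 25510466), (nat_lit 18971201), (nat_lit 12765436)] (nat_lit 5175148)) p14_13_3 (nat_lit 4) (nat_lit 100) (nat_lit 101) = true := by decide +kernel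
def p14_13_3_101 : pfC (piC [(nat_lit 39120232), (nat_lit 25510466), (nat_lit 18971201), (nat_lit 12765436)] (nat_lit 5175148)) p14_13_3 (nat_lit 4) (nat_lit 101) (nat_lit 102) = true := by decide +kernel
def p14_13_3_102 : pfC (piC [(nat_lit 39120232), (nat_lit 25510466), (nat_lit 18971201), (nat_lit 12765436)] (nat_lit 5175148)) p14_13_3 (nat_lit 4) (nat_lit 102) (nat_lit 103) = true := by decide +kernel
def p14_13_3_103 : pfC (piC [(nat_lit 39120232), (nat_lit 25510466), (nat_lit 18971201), (nat_lit 12765436)] (nat_lit 5175148)) p14_13_3 (nat_lit 4) (nat_lit 103) (nat_lit 104) = true := by decide +kernel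
def p14_13_3_104 : pfC (piC [(nat_lit 39120232), (nat_lit 25510466), (nat_lit 18971201), (nat_lit 12765436)] (nat_lit 5175148)) p14_13_3 (nat_lit 4) (nat_lit 104) (nat_lit 105) = true := by decide +kernel
def p14_13_3_105 : pfC (piC [(nat_lit 39120232), (nat_lit 25510466), (nat_lit 18971201), (nat_lit 12765436)] (nat_lit 5175148)) p14_13_3 (nat_lit 4) (nat_lit 105) (nat_lit 106) = true := by decide +kernel
def p14_13_3_106 : pfC (piC [(nat_lit 39120232), (nat_lit 25510466), (nat_lit 18971201), (nat_lit 12765436)] (nat_lit 5175148)) p14_13_3 (nat_lit 4) (nat_lit 106) (nat_lit 107) = true := by decide +kernel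
def p14_13_3_107 : pfC (piC [(nat_lit 39120232), (nat_lit 25510466), (nat_lit 18971201), (nat_lit 12765436)] (nat_lit 5175148)) p14_13_3 (nat_lit 4) (nat_lit 107) (nat_lit 108) = true := by decide +kernel
def p14_13_3_108 : pfC (piC [(nat_lit 39120232), (nat_lit 25510466), (nat_lit 18971201), (nat_lit 12765436)] (nat_lit 5175148)) p14_13_3 (nat_lit 4) (nat_lit 108) (nat_lit 109) = true := by decide +kernel
def p14_13_3_109 : pfC (piC [(nat_lit 39120232), (nat_lit 25510466), (nat_lit 18971201), (nat_lit 12765436)] (nat_lit 5175148)) p14_13_3 (nat_lit 4) (nat_lit 109) (nat_lit 110) = true := by decide +kernel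
def p14_13_3_110 : pfC (piC [(nat_lit 39120232), (nat_lit 25510466), (nat_lit 18971201), (nat_lit 12765436)] (nat_lit 5175148)) p14_13_3 (nat_lit 4) (nat_lit 110) (nat_lit 111) = true := by decide +kernel
def p14_13_3_111 : pfC (piC [(nat_lit 39120232), (nat_lit 25510466), (nat_lit 18971201), (nat_lit 12765436)] (nat_lit 5175148)) p14_13_3 (nat_lit 4) (nat_lit 111) (nat_lit 112) = true := by decide +kernel
def p14_13_3_112 : pfC (piC [(nat_lit 39120232), (nat_lit 25510466), (nat_lit 18971201), (nat_lit 12765436)] (nat_lit 5175148)) p14_13_3 (nat_lit 4) (nat_lit 112) (nat_lit 113) = true := by decide +kernel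
def p14_13_3_113 : pfC (piC [(nat_lit 39120232), (nat_lit 25510466), (nat_lit 18971201), (nat_lit 12765436)] (nat_lit 5175148)) p14_13_3 (nat_lit 4) (nat_lit 113) (nat_lit 114) = true := by decide +kernel
def p14_13_3_114 : pfC (piC [(nat_lit 39120232), (nat_lit 25510466), (nat_lit 18971201), (nat_lit 12765436)] (nat_lit 5175148)) p14_13_3 (nat_lit 4) (nat_lit 114) (nat_lit 115) = true := by decide +kernel
def p14_13_3_115 : pfC (piC [(nat_lit 39120232), (nat_lit 25510466), (nat_lit 18971201), (nat_lit 12765436)] (nat_lit 5175148)) p14_13_3 (nat_lit 4) (nat_lit 115) (nat_lit 116) = true := by decide +kernel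
def p14_13_3_116 : pfC (piC [(nat_lit 39120232), (nat_lit 25510466), (nat_lit 18971201), (nat_lit 12765436)] (nat_lit 5175148)) p14_13_3 (nat_lit 4) (nat_lit 116) (nat_lit 117) = true := by decide +kernel
def p14_13_3_117 : pfC (piC [(nat_lit 39120232), (nat_lit 25510466), (nat_lit 18971201), (nat_lit 12765436)] (nat_lit 5175148)) p14_13_3 (nat_lit 4) (nat_lit 117) (nat_lit 118) = true := by decide +kernel
def p14_13_3_118 : pfC (piC [(nat_lit 39120232), (nat_lit 25510466), (nat_lit 18971201), (nat_lit 12765436)] (nat_lit 5175148)) p14_13_3 (nat_lit 4) (nat_lit 118) (nat_lit 119) = true := by decide +kernel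
def p14_13_3_119 : pfC (piC [(nat_lit 39120232), (nat_lit 25510466), (nat_lit 18971201), (nat_lit 12765436)] (nat_lit 5175148)) p14_13_3 (nat_lit 4) (nat_lit 119) (nat_lit 120) = true := by decide +kernel
def p14_13_3_120 : pfC (piC [(nat_lit 39120232), (nat_lit 25510466), (nat_lit 18971201), (nat_lit 12765436)] (nat_lit 5175148)) p14_13_3 (nat_lit 4) (nat_lit 120) (nat_lit 121) = true := by decide +kernel
def p14_13_3_121 : pfC (piC [(nat_lit 39120232), (nat_lit 25510466), (nat_lit 18971201), (nat_lit 12765436)] (nat_lit 5175148)) p14_13_3 (nat_lit 4) (nat_lit 121) (nat_lit 122) = true := by decide +kernel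
def p14_13_3_122 : pfC (piC [(nat_lit 39120232), (nat_lit 25510466), (nat_lit 18971201), (nat_lit 12765436)] (nat_lit 5175148)) p14_13_3 (nat_lit 4) (nat_lit 122) (nat_lit 123) = true := by decide +kernel
def p14_13_3_123 : pfC (piC [(nat_lit 39120232), (nat_lit 25510466), (nat_lit 18971201), (nat_lit 12765436)] (nat_lit 5175148)) p14_13_3 (nat_lit 4) (nat_lit 123) (nat_lit 124) = true := by decide +kernel
def p14_13_3_124 : pfC (piC [(nat_lit 39120232), (nat_lit 25510466), (nat_lit 18971201), (nat_lit 12765436)] (nat_lit 5175148)) p14_13_3 (nat_lit 4) (nat_lit 124) (nat_lit 125) = true := by decide +kernel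
def p14_13_3_125 : pfC (piC [(nat_lit 39120232), (nat_lit 25510466), (nat_lit 18971201), (nat_lit 12765436)] (nat_lit 5175148)) p14_13_3 (nat_lit 4) (nat_lit 125) (nat_lit 126) = true := by decide +kernel
def p14_13_3_126 : pfC (piC [(nat_lit 39120232), (nat_lit 25510466), (nat_lit 18971201), (nat_lit 12765436)] (nat_lit 5175148)) p14_13_3 (nat_lit 4) (nat_lit 126) (nat_lit 127) = true := by decide +kernel
def p14_13_3_127 : pfC (piC [(nat_lit 39120232), (nat_lit 25510466), (nat_lit 18971201), (nat_lit 12765436)] (nat_lit 5175148)) p14_13_3 (nat_lit 4) (nat_lit 127) (nat_lit 128) = true := by decide +kernel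
def p14_13_3_128 : pfC (piC [(nat_lit 39120232), (nat_lit 25510466), (nat_lit 18971201), (nat_lit 12765436)] (nat_lit 5175148)) p14_13_3 (nat_lit 4) (nat_lit 128) (nat_lit 129) = true := by decide +kernel
def p14_13_3_129 : pfC (piC [(nat_lit 39120232), (nat_lit 25510466), (nat_lit 18971201), (nat_lit 12765436)] (nat_lit 5175148)) p14_13_3 (nat_lit 4) (nat_lit 129) (nat_lit 130) = true := by decide +kernel
def p14_13_3_130 : pfC (piC [(nat_lit 39120232), (nat_lit 25510466), (nat_lit 18971201), (nat_lit 12765436)] (nat_lit 5175148)) p14_13_3 (nat_lit 4) (nat_lit 130) (nat_lit 131) = true := by decide +kernel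
def p14_13_3_131 : pfC (piC [(nat_lit 39120232), (nat_lit 25510466), (nat_lit 18971201), (nat_lit 12765436)] (nat_lit 5175148)) p14_13_3 (nat_lit 4) (nat_lit 131) (nat_lit 132) = true := by decide +kernel
def p14_13_3_132 : pfC (piC [(nat_lit 39120232), (nat_lit 25510466), (nat_lit 18971201), (nat_lit 12765436)] (nat_lit 5175148)) p14_13_3 (nat_lit 4) (nat_lit 132) (nat_lit 133) = true := by decide +kernel
def p14_13_3_133 : pfC (piC [(nat_lit 39120232), (nat_lit 25510466), (nat_lit 18971201), (nat_lit 12765436)] (nat_lit 5175148)) p14_13_3 (nat_lit 4) (nat_lit 133) (nat_lit 134) = true := by decide +kernel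
def p14_13_3_134 : pfC (piC [(nat_lit 39120232), (nat_lit 25510466), (nat_lit 18971201), (nat_lit 12765436)] (nat_lit 5175148)) p14_13_3 (nat_lit 4) (nat_lit 134) (nat_lit 135) = true := by decide +kernel
def p14_13_3_135 : pfC (piC [(nat_lit 39120232), (nat_lit 25510466), (nat_lit 18971201), (nat_lit 12765436)] (nat_lit 5175148)) p14_13_3 (nat_lit 4) (nat_lit 135) (nat_lit 136) = true := by decide +kernel
def p14_13_3_136 : pfC (piC [(nat_lit 39120232), (nat_lit 25510466), (nat_lit 18971201), (nat_lit 12765436)] (nat_lit 5175148)) p14_13_3 (nat_lit 4) (nat_lit 136) (nat_lit 137) = true := by decide +kernel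
def p14_13_3_137 : pfC (piC [(nat_lit 39120232), (nat_lit 25510466), (nat_lit 18971201), (nat_lit 12765436)] (nat_lit 5175148)) p14_13_3 (nat_lit 4) (nat_lit 137) (nat_lit 138) = true := by decide +kernel
def p14_13_3_138 : pfC (piC [(nat_lit 39120232), (nat_lit 25510466), (nat_lit 18971201), (nat_lit 12765436)] (nat_lit 5175148)) p14_13_3 (nat_lit 4) (nat_lit 138) (nat_lit 139) = true := by decide +kernel
def p14_13_3_139 : pfC (piC [(nat_lit 39120232), (nat_lit 25510466), (nat_lit 18971201), (nat_lit 12765436)] (nat_lit 5175148)) p14_13_3 (nat_lit 4) (nat_lit 139) (nat_lit 140) = true := by decide +kernel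
def p14_13_3_140 : pfC (piC [(nat_lit 39120232), (nat_lit 25510466), (nat_lit 18971201), (nat_lit 12765436)] (nat_lit 5175148)) p14_13_3 (nat_lit 4) (nat_lit 140) (nat_lit 141) = true := by decide +kernel
def p14_13_3_141 : pfC (piC [(nat_lit 39120232), (nat_lit 25510466), (nat_lit 18971201), (nat_lit 12765436)] (nat_lit 5175148)) p14_13_3 (nat_lit 4) (nat_lit 141) (nat_lit 142) = true := by decide +kernel
def p14_13_3_142 : pfC (piC [(nat_lit 39120232), (nat_lit 25510466), (nat_lit 18971201), (nat_lit 12765436)] (nat_lit 5175148)) p14_13_3 (nat_lit 4) (nat_lit 142) (nat_lit 143) = true := by decide +kernel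
def p14_13_3_143 : pfC (piC [(nat_lit 39120232), (nat_lit 25510466), (nat_lit 18971201), (nat_lit 12765436)] (nat_lit 5175148)) p14_13_3 (nat_lit 4) (nat_lit 143) (nat_lit 144) = true := by decide +kernel
def p14_13_3_144 : pfC (piC [(nat_lit 39120232), (nat_lit 25510466), (nat_lit 18971201), (nat_lit 12765436)] (nat_lit 5175148)) p14_13_3 (nat_lit 4) (nat_lit 144) (nat_lit 145) = true := by decide +kernel
def p14_13_3_145 : pfC (piC [(nat_lit 39120232), (nat_lit 25510466), (nat_lit 18971201), (nat_lit 12765436)] (nat_lit 5175148)) p14_13_3 (nat_lit 4) (nat_lit 145) (nat_lit 146) = true := by decide +kernel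
def p14_13_3_146 : pfC (piC [(nat_lit 39120232), (nat_lit 25510466), (nat_lit 18971201), (nat_lit 12765436)] (nat_lit 5175148)) p14_13_3 (nat_lit 4) (nat_lit 146) (nat_lit 147) = true := by decide +kernel
def p14_13_3_147 : pfC (piC [(nat_lit 39120232), (nat_lit 25510466), (nat_lit 18971201), (nat_lit 12765436)] (nat_lit 5175148)) p14_13_3 (nat_lit 4) (nat_lit 147) (nat_lit 148) = true := by decide +kernel
def p14_13_3_148 : pfC (piC [(nat_lit 39120232), (nat_lit 25510466), (nat_lit 18971201), (nat_lit 12765436)] (nat_lit 5175148)) p14_13_3 (nat_lit 4) (nat_lit 148) (nat_lit 149) = true := by decide +kernel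
def p14_13_3_149 : pfC (piC [(nat_lit 39120232), (nat_lit 25510466), (nat_lit 18971201), (nat_lit 12765436)] (nat_lit 5175148)) p14_13_3 (nat_lit 4) (nat_lit 149) (nat_lit 150) = true := by decide +kernel
def p14_13_3_150 : pfC (piC [(nat_lit 39120232), (nat_lit 25510466), (nat_lit 18971201), (nat_lit 12765436)] (nat_lit 5175148)) p14_13_3 (nat_lit 4) (nat_lit 150) (nat_lit 151) = true := by decide +kernel
def p14_13_3_151 : pfC (piC [(nat_lit 39120232), (nat_lit 25510466), (nat_lit 18971201), (nat_lit 12765436)] (nat_lit 5175148)) p14_13_3 (nat_lit 4) (nat_lit 151) (nat_lit 152) = true := by decide +kernel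
def p14_13_3_152 : pfC (piC [(nat_lit 39120232), (nat_lit 25510466), (nat_lit 18971201), (nat_lit 12765436)] (nat_lit 5175148)) p14_13_3 (nat_lit 4) (nat_lit 152) (nat_lit 153) = true := by decide +kernel
def p14_13_3_153 : pfC (piC [(nat_lit 39120232), (nat_lit 25510466), (nat_lit 18971201), (nat_lit 12765436)] (nat_lit 5175148)) p14_13_3 (nat_lit 4) (nat_lit 153) (nat_lit 154) = true := by decide +kernel
def p14_13_3_154 : pfC (piC [(nat_lit 39120232), (nat_lit 25510466), (nat_lit 18971201), (nat_lit 12765436)] (nat_lit 5175148)) p14_13_3 (nat_lit 4) (nat_lit 154) (nat_lit 155) = true := by decide +kernel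
def p14_13_3_155 : pfC (piC [(nat_lit 39120232), (nat_lit 25510466), (nat_lit 18971201), (nat_lit 12765436)] (nat_lit 5175148)) p14_13_3 (nat_lit 4) (nat_lit 155) (nat_lit 156) = true := by decide +kernel
def p14_13_3_156 : pfC (piC [(nat_lit 39120232), (nat_lit 25510466), (nat_lit 18971201), (nat_lit 12765436)] (nat_lit 5175148)) p14_13_3 (nat_lit 4) (nat_lit 156) (nat_lit 157) = true := by decide +kernel
def p14_13_3_157 : pfC (piC [(nat_lit 39120232), (nat_lit 25510466), (nat_lit 18971201), (nat_lit 12765436)] (nat_lit 5175148)) p14_13_3 (nat_lit 4) (nat_lit 157) (nat_lit 158) = true := by decide +kernel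
def p14_13_3_158 : pfC (piC [(nat_lit 39120232), (nat_lit 25510466), (nat_lit 18971201), (nat_lit 12765436)] (nat_lit 5175148)) p14_13_3 (nat_lit 4) (nat_lit 158) (nat_lit 159) = true := by decide +kernel
def p14_13_3_159 : pfC (piC [(nat_lit 39120232), (nat_lit 25510466), (nat_lit 18971201), (nat_lit 12765436)] (nat_lit 5175148)) p14_13_3 (nat_lit 4) (nat_lit 159) (nat_lit 160) = true := by decide +kernel
def p14_13_3_160 : pfC (piC [(nat_lit 39120232), (nat_lit 25510466), (nat_lit 18971201), (nat_lit 12765436)] (nat_lit 5175148)) p14_13_3 (nat_lit 4) (nat_lit 160) (nat_lit 161) = true := by decide +kernel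
def p14_13_3_161 : pfC (piC [(nat_lit 39120232), (nat_lit 25510466), (nat_lit 18971201), (nat_lit 12765436)] (nat_lit 5175148)) p14_13_3 (nat_lit 4) (nat_lit 161) (nat_lit 162) = true := by decide +kernel
def p14_13_3_162 : pfC (piC [(nat_lit 39120232), (nat_lit 25510466), (nat_lit 18971201), (nat_lit 12765436)] (nat_lit 5175148)) p14_13_3 (nat_lit 4) (nat_lit 162) (nat_lit 163) = true := by decide +kernel
def p14_13_3_163 : pfC (piC [(nat_lit 39120232), (nat_lit 25510466), (nat_lit 18971201), (nat_lit 12765436)] (nat_lit 5175148)) p14_13_3 (nat_lit 4) (nat_lit 163) (nat_lit 164) = true := by decide +kernel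
def p14_13_3_164 : pfC (piC [(nat_lit 39120232), (nat_lit 25510466), (nat_lit 18971201), (nat_lit 12765436)] (nat_lit 5175148)) p14_13_3 (nat_lit 4) (nat_lit 164) (nat_lit 165) = true := by decide +kernel
def p14_13_3_165 : pfC (piC [(nat_lit 39120232), (nat_lit 25510466), (nat_lit 18971201), (nat_lit 12765436)] (nat_lit 5175148)) p14_13_3 (nat_lit 4) (nat_lit 165) (nat_lit 166) = true := by decide +kernel
def p14_13_3_166 : pfC (piC [(nat_lit 39120232), (nat_lit 25510466), (nat_lit 18971201), (nat_lit 12765436)] (nat_lit 5175148)) p14_13_3 (nat_lit 4) (nat_lit 166) (nat_lit 167) = true := by decide +kernel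
def p14_13_3_167 : pfC (piC [(nat_lit 39120232), (nat_lit 25510466), (nat_lit 18971201), (nat_lit 12765436)] (nat_lit 5175148)) p14_13_3 (nat_lit 4) (nat_lit 167) (nat_lit 168) = true := by decide +kernel
def p14_13_3_168 : pfC (piC [(nat_lit 39120232), (nat_lit 25510466), (nat_lit 18971201), (nat_lit 12765436)] (nat_lit 5175148)) p14_13_3 (nat_lit 4) (nat_lit 168) (nat_lit 169) = true := by decide +kernel
def p14_13_3_169 : pfC (piC [(nat_lit 39120232), (nat_lit 25510466), (nat_lit 18971201), (nat_lit 12765436)] (nat_lit 5175148)) p14_13_3 (nat_lit 4) (nat_lit 169) (nat_lit 170) = true := by decide +kernel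
def p14_13_3_170 : pfC (piC [(nat_lit 39120232), (nat_lit 25510466), (nat_lit 18971201), (nat_lit 12765436)] (nat_lit 5175148)) p14_13_3 (nat_lit 4) (nat_lit 170) (nat_lit 171) = true := by decide +kernel
def p14_13_3_171 : pfC (piC [(nat_lit 39120232), (nat_lit 25510466), (nat_lit 18971201), (nat_lit 12765436)] (nat_lit 5175148)) p14_13_3 (nat_lit 4) (nat_lit 171) (nat_lit 172) = true := by decide +kernel
theorem p14_13_3_T : PfS (PiF n14_13.reverse (nat_lit 5175148)) p14_13_3 (nat_lit 4) [] 0 :=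
  pftab_of (los := [(nat_lit 39120232), (nat_lit 25510466), (nat_lit 18971201), (nat_lit 12765436)]) (by decide +kernel) (hi := (nat_lit 172)) (PfP.trans (PfP.trans (PfP.trans (PfP.trans (PfP.trans (PfP.trans (PfP.trans (PfP.trans (PfP.trans (PfP.trans (PfP.trans (PfP.trans (PfP.trans (PfP.trans (PfP.trans (PfP.trans (PfP.trans (PfP.trans (PfP.trans (PfP.trans (PfP.trans (PfP.trans (PfP.trans (PfP.trans (PfP.trans (PfP.trans (PfP.trans (PfP.trans (PfP.trans (PfP.trans (PfP.trans (PfP.trans (PfP.trans (PfP.trans (PfP.trans (PfP.trans (PfP.trans (PfP.trans (PfP.trans (PfP.trans (PfP.trans (PfP.trans (PfP.trans (PfP.trans (PfP.trans (PfP.trans (PfP.trans (PfP.trans (PfP.trans (PfP.trans (PfP.trans (PfP.trans (PfP.trans (PfP.trans (PfP.trans (PfP.trans (PfP.trans (PfP.trans (PfP.trans (PfP.trans (PfP.trans (PfP.trans (PfP.trans (PfP.trans (PfP.trans (PfP.trans (PfP.trans (PfP.trans (PfP.trans (PfP.trans (PfP.trans (PfP.trans (PfP.trans (PfP.trans (PfP.trans (PfP.trans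 (PfP.trans (PfP.trans (PfP.trans (PfP.trans (PfP.trans (PfP.trans (PfP.trans (PfP.trans (PfP.trans (PfP.trans (PfP.trans (PfP.trans (PfP.trans (PfP.trans (PfP.trans (PfP.trans (PfP.trans (PfP.trans (PfP.trans (PfP.trans (PfP.trans (PfP.trans (PfP.trans (PfP.trans (PfP.trans (PfP.trans (PfP.trans (PfP.trans (PfP.trans (PfP.trans (PfP.trans (PfP.trans (PfP.trans
 (PfP.trans (PfP.trans (PfP.trans (PfP.trans (PfP.trans (PfP.trans (PfP.trans (PfP.trans (PfP.trans (PfP.trans (PfP.trans (PfP.trans (PfP.trans (PfP.trans (PfP.trans (PfP.trans (PfP.trans (PfP.trans (PfP.trans (PfP.trans (PfP.trans (PfP.trans (PfP.trans (PfP.trans (PfP.trans (PfP.trans (PfP.trans (PfP.trans (PfP.trans (PfP.trans (PfP.trans (PfP.trans (PfP.trans (PfP.trans (PfP.trans (PfP.trans (PfP.trans (PfP.trans (PfP.trans (PfP.trans (PfP.trans (PfP.trans (PfP.trans (PfP.trans (PfP.trans (PfP.trans (PfP.trans (PfP.trans (PfP.trans (PfP.trans (PfP.trans (PfP.trans (PfP.trans (PfP.trans (PfP.trans (PfP.trans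 (PfP.trans (PfP.trans (PfP.trans (PfP.trans (PfP.trans (PfP.trans (pfC_sound p14_13_3_0) (pfC_sound p14_13_3_1)) (pfC_sound p14_13_3_2)) (pfC_sound p14_13_3_3)) (pfC_sound p14_13_3_4)) (pfC_sound p14_13_3_5)) (pfC_sound p14_13_3_6)) (pfC_sound p14_13_3_7)) (pfC_sound p14_13_3_8)) (pfC_sound p14_13_3_9)) (pfC_sound p14_13_3_10)) (pfC_sound p14_13_3_11)) (pfC_sound p14_13_3_12)) (pfC_sound p14_13_3_13)) (pfC_sound p14_13_3_14)) (pfC_sound p14_13_3_15)) (pfC_sound p14_13_3_16)) (pfC_sound p14_13_3_17)) (pfC_sound p14_13_3_18)) (pfC_sound p14_13_3_19)) (pfC_sound p14_13_3_20))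
 (pfC_sound p14_13_3_21)) (pfC_sound p14_13_3_22)) (pfC_sound p14_13_3_23)) (pfC_sound p14_13_3_24)) (pfC_sound p14_13_3_25)) (pfC_sound p14_13_3_26)) (pfC_sound p14_13_3_27)) (pfC_sound p14_13_3_28)) (pfC_sound p14_13_3_29)) (pfC_sound p14_13_3_30)) (pfC_sound p14_13_3_31)) (pfC_sound p14_13_3_32)) (pfC_sound p14_13_3_33)) (pfC_sound p14_13_3_34)) (pfC_sound p14_13_3_35)) (pfC_sound p14_13_3_36)) (pfC_sound p14_13_3_37)) (pfC_sound p14_13_3_38)) (pfC_sound p14_13_3_39)) (pfC_sound p14_13_3_40)) (pfC_sound p14_13_3_41)) (pfC_sound p14_13_3_42)) (pfC_sound p14_13_3_43)) (pfC_sound p14_13_3_44)) (pfC_sound p14_13_3_45)) (pfC_sound p14_13_3_46)) (pfC_sound p14_13_3_47)) (pfC_sound p14_13_3_48)) (pfC_sound p14_13_3_49)) (pfC_sound p14_13_3_50)) (pfC_sound p14_13_3_51)) (pfC_sound p14_13_3_52)) (pfC_sound p14_13_3_53)) (pfC_sound p14_13_3_54)) (pfC_sound p14_13_3_55)) (pfC_sound p14_13_3_56)) (pfC_sound p14_13_3_57)) (pfC_sound p14_13_3_58)) (pfC_sound p14_13_3_59)) (pfC_sound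 p14_13_3_60)) (pfC_sound p14_13_3_61)) (pfC_sound p14_13_3_62)) (pfC_sound p14_13_3_63)) (pfC_sound p14_13_3_64)) (pfC_sound p14_13_3_65)) (pfC_sound p14_13_3_66)) (pfC_sound p14_13_3_67)) (pfC_sound p14_13_3_68))
 (pfC_sound p14_13_3_69)) (pfC_sound p14_13_3_70)) (pfC_sound p14_13_3_71)) (pfC_sound p14_13_3_72)) (pfC_sound p14_13_3_73)) (pfC_sound p14_13_3_74)) (pfC_sound p14_13_3_75)) (pfC_sound p14_13_3_76)) (pfC_sound p14_13_3_77)) (pfC_sound p14_13_3_78)) (pfC_sound p14_13_3_79)) (pfC_sound p14_13_3_80)) (pfC_sound p14_13_3_81)) (pfC_sound p14_13_3_82)) (pfC_sound p14_13_3_83)) (pfC_sound p14_13_3_84)) (pfC_sound p14_13_3_85)) (pfC_sound p14_13_3_86)) (pfC_sound p14_13_3_87)) (pfC_sound p14_13_3_88)) (pfC_sound p14_13_3_89)) (pfC_sound p14_13_3_90)) (pfC_sound p14_13_3_91)) (pfC_sound p14_13_3_92)) (pfC_sound p14_13_3_93)) (pfC_sound p14_13_3_94)) (pfC_sound p14_13_3_95)) (pfC_sound p14_13_3_96)) (pfC_sound p14_13_3_97)) (pfC_sound p14_13_3_98)) (pfC_sound p14_13_3_99))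 (pfC_sound p14_13_3_100)) (pfC_sound p14_13_3_101)) (pfC_sound p14_13_3_102)) (pfC_sound p14_13_3_103)) (pfC_sound p14_13_3_104)) (pfC_sound p14_13_3_105)) (pfC_sound p14_13_3_106)) (pfC_sound p14_13_3_107)) (pfC_sound p14_13_3_108)) (pfC_sound p14_13_3_109)) (pfC_sound p14_13_3_110)) (pfC_sound p14_13_3_111)) (pfC_sound p14_13_3_112)) (pfC_sound p14_13_3_113)) (pfC_sound p14_13_3_114)) (pfC_sound p14_13_3_115))
 (pfC_sound p14_13_3_116)) (pfC_sound p14_13_3_117)) (pfC_sound p14_13_3_118)) (pfC_sound p14_13_3_119)) (pfC_sound p14_13_3_120)) (pfC_sound p14_13_3_121)) (pfC_sound p14_13_3_122)) (pfC_sound p14_13_3_123)) (pfC_sound p14_13_3_124)) (pfC_sound p14_13_3_125)) (pfC_sound p14_13_3_126)) (pfC_sound p14_13_3_127)) (pfC_sound p14_13_3_128)) (pfC_sound p14_13_3_129)) (pfC_sound p14_13_3_130)) (pfC_sound p14_13_3_131)) (pfC_sound p14_13_3_132)) (pfC_sound p14_13_3_133)) (pfC_sound p14_13_3_134)) (pfC_sound p14_13_3_135)) (pfC_sound p14_13_3_136)) (pfC_sound p14_13_3_137))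 (pfC_sound p14_13_3_138)) (pfC_sound p14_13_3_139)) (pfC_sound p14_13_3_140)) (pfC_sound p14_13_3_141)) (pfC_sound p14_13_3_142)) (pfC_sound p14_13_3_143)) (pfC_sound p14_13_3_144)) (pfC_sound p14_13_3_145)) (pfC_sound p14_13_3_146)) (pfC_sound p14_13_3_147)) (pfC_sound p14_13_3_148)) (pfC_sound p14_13_3_149)) (pfC_sound p14_13_3_150)) (pfC_sound p14_13_3_151)) (pfC_sound p14_13_3_152)) (pfC_sound p14_13_3_153)) (pfC_sound p14_13_3_154)) (pfC_sound p14_13_3_155)) (pfC_sound p14_13_3_156)) (pfC_sound p14_13_3_157)) (pfC_sound p14_13_3_158)) (pfC_sound p14_13_3_159)) (pfC_sound p14_13_3_160)) (pfC_sound p14_13_3_161))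
 (pfC_sound p14_13_3_162)) (pfC_sound p14_13_3_163)) (pfC_sound p14_13_3_164)) (pfC_sound p14_13_3_165)) (pfC_sound p14_13_3_166)) (pfC_sound p14_13_3_167)) (pfC_sound p14_13_3_168)) (pfC_sound p14_13_3_169)) (pfC_sound p14_13_3_170)) (pfC_sound p14_13_3_171)) (by decide +kernel)

def z14_13_3 : zOK yB14_13 (nat_lit 3) (nat_lit 750) (nat_lit 813) (nat_lit 5175148) (nat_lit 4292458) = true := by decide +kernel
def g14_13_3 : gOK yB14_13.x P14_13 (nat_lit 1421) (q14_13 :: r14_13) (nat_lit 3) (nat_lit 750) (nat_lit 4) (nat_lit 813) (nat_lit 12712500) (nat_lit 12712500) (nat_lit 12712500) (nat_lit 12712500) [(nat_lit 800)] = true := by decide +kernel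
def v14_13_3 : ivC P14_13 s14_13 w14_13 n14_13 (nat_lit 4) (nat_lit 4650) (nat_lit 3) (nat_lit 750) f160_1_750 f168_1_750 (nat_lit 4) (nat_lit 813) f160_1_813 f168_1_813 (nat_lit 5175148) (nat_lit 4292458) p14_13_3 = true := by decide +kernel
end CB
end Pool.Agent.Lib.MP_6947cd_al
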