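import Pool.Agent.Lib.MP_6947cd_al.L.BoxDataB
import Pool.Agent.Lib.MP_6947cd_al.L.TeD4
import Pool.Agent.Lib.MP_6947cd_al.L.TeD5

/-!
Problem MP_6947cd_al (Chollet).  CASE B, rows `j`: boxes (generated).
-/

set_option autoImplicit false
set_option linter.defProp false
set_option maxRecDepth 20000

namespace Pool.Agent.Lib.MP_6947cd_al
namespace CB

open Ent Ent.Pk Fr Fr.WT CA

/-! box `yB14_14` -/

def P14_14 : BQ := ⟨(nat_lit 8), (nat_lit 4), (nat_lit 4), (nat_lit 0), (nat_lit 8), (nat_lit 820), (nat_lit 840), (nat_lit 120), [(nat_lit 200), (nat_lit 300), (nat_lit 450), (nat_lit 800)], (nat_lit 121232000), (nat_lit 16000000), (nat_lit 16000000000)⟩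
def q14_14 : PC := ⟨(nat_lit 1000), [(nat_lit 120000), (nat_lit 200000), (nat_lit 300000), (nat_lit 450000), (nat_lit 800000)], (nat_lit 340282367000166625996085689103316680705000000), (nat_lit 15878768000000), (nat_lit 15878768000000), (nat_lit 10000000)⟩
def r14_14 : List PC := [⟨(nat_lit 1283), [(nat_lit 120570), (nat_lit 200925), (nat_lit 301092), (nat_lit 451117), (nat_lit 800260)], (nat_lit 341969827258163552414793741608566678665251600), (nat_lit 16268770289120), (nat_lit 16278667636800), (nat_lit 10047500)⟩, ⟨(nat_lit 1586), [(nat_lit 121222), (nat_lit 201886), (nat_lit 302429), (nat_lit 453599), (nat_lit 803583)], (nat_lit 343866561171823431926025710759469451813278844), (nat_lit 16635098111040), (nat_lit 16655592265600), (nat_lit 10101834)⟩, ⟨(nat_lit 1224), [(nat_lit 120452), (nat_lit 200727), (nat_lit 300815), (nat_lit 450540), (nat_lit 798974)], (nat_lit 341599600042867608810201564562044841712634171), (nat_lit 16187389967360), (nat_lit 16195223910400), (nat_lit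 10037667)⟩]
def s14_14 : List PB := [⟨(nat_lit 25660), (nat_lit 1929120000000), [(nat_lit 200925), (nat_lit 301092), (nat_lit 451117), (nat_lit 800260)], (nat_lit 341969827258163552414793741608566678665251600), (nat_lit 1142168677131744), (nat_lit 1142178574479424), (nat_lit 45280)⟩, ⟨(nat_lit 31720), (nat_lit 1939552000000), [(nat_lit 201886), (nat_lit 302429), (nat_lit 453599), (nat_lit 803583)], (nat_lit 343866561171823431926025710759469451813278844), (nat_lit 1142535004953664), (nat_lit 1142555499108224), (nat_lit 93760)⟩, ⟨(nat_lit 24480), (nat_lit 1927232000000), [(nat_lit 200727), (nat_lit 300815), (nat_lit 450540), (nat_lit 798974)], (nat_lit 341599600042867608810201564562044841712634171), (nat_lit 1142087296809984), (nat_lit 1142095130753024), (nat_lit 35840)⟩]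
def n14_14 : List KN := [⟨(nat_lit 800), (nat_lit 450), (nat_lit 12552662), (nat_lit 5762536)⟩, ⟨(nat_lit 450), (nat_lit 300), (nat_lit 18643303), (nat_lit 12552662)⟩, ⟨(nat_lit 300), (nat_lit 200), (nat_lit 25010362), (nat_lit 18643303)⟩, ⟨(nat_lit 200), (nat_lit 120), (nat_lit 38167130), (nat_lit 25010362)⟩]
def w14_14 : List ℕ := [(nat_lit 45280), (nat_lit 93760), (nat_lit 35840)]
def par14_14 : parC yB14_14 P14_14 s14_14 r14_14 q14_14 n14_14 w14_14 = true := by decide +kernel

def p14_14_0 : PF := (PF.cons (PF.cons (PF.cons (PF.cons (PF.leaf (nat_lit 752527) (nat_lit 2324462) (nat_lit 64784350) (nat_lit 2324462) [(nat_lit 0), (nat_lit 0), (nat_lit 0), (nat_lit 0)]) (PF.cons (PF.leaf (nat_lit 909985) (nat_lit 251561) (nat_lit 64468705) (nat_lit 2388546) [(nat_lit 251561), (nat_lit 0), (nat_lit 0), (nat_lit 0)]) (PF.cons (PF.leaf (nat_lit 1101157) (nat_lit 278586) (nat_lit 64092808) (nat_lit 2458831) [(nat_lit 278586), (nat_lit 0), (nat_lit 0), (nat_lit 0)]) (PF.cons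 (PF.leaf (nat_lit 1320429) (nat_lit 303944) (nat_lit 63664755) (nat_lit 2532225) [(nat_lit 303944), (nat_lit 0), (nat_lit 0), (nat_lit 0)]) (PF.cons (PF.leaf (nat_lit 1565264) (nat_lit 327947) (nat_lit 63190380) (nat_lit 2606642) [(nat_lit 327947), (nat_lit 0), (nat_lit 0), (nat_lit 0)]) (PF.cons (PF.leaf (nat_lit 1833481) (nat_lit 350755) (nat_lit 62674415) (nat_lit 2680617) [(nat_lit 350755), (nat_lit 0), (nat_lit 0), (nat_lit 0)]) (PF.cons (PF.leaf (nat_lit 2123231) (nat_lit 372454) (nat_lit 62120990) (nat_lit 2753097) [(nat_lit 372454), (nat_lit 0), (nat_lit 0), (nat_lit 0)]) (PF.cons (PF.leaf (nat_lit 2432621) (nat_lit 393089) (nat_lit 61533868) (nat_lit 2823319) [(nat_lit 393089), (nat_lit 0), (nat_lit 0),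
 (nat_lit 0)]) (PF.cons (PF.leaf (nat_lit 2760061) (nat_lit 412689) (nat_lit 60916566) (nat_lit 2890728) [(nat_lit 412689), (nat_lit 0), (nat_lit 0), (nat_lit 0)]) (PF.cons (PF.leaf (nat_lit 3103807) (nat_lit 431274) (nat_lit 60272413) (nat_lit 2954926) [(nat_lit 431274), (nat_lit 0), (nat_lit 0), (nat_lit 0)]) (PF.cons PF.nil (PF.cons PF.nil (PF.cons PF.nil (PF.cons PF.nil PF.nil)))))))))))))) (PF.cons (PF.cons (PF.leaf (nat_lit 1302997) (nat_lit 1170159) (nat_lit 63376578) (nat_lit 2562074) [(nat_lit 0), (nat_lit 1170159), (nat_lit 0), (nat_lit 0)]) (PF.cons (PF.leaf (nat_lit 1519867) (nat_lit 320768) (nat_lit 62942523) (nat_lit 2627609) [(nat_lit 320768), (nat_lit 1217911), (nat_lit 0), (nat_lit 0)]) (PF.cons (PF.leaf (nat_lit 1764303) (nat_lit 344000) (nat_lit 62460055) (nat_lit 2694794) [(nat_lit 344000), (nat_lit 1265962), (nat_lit 0), (nat_lit 0)]) (PF.cons (PF.leaf (nat_lit 2032533) (nat_lit 365968) (nat_lit 61935527) (nat_lit 2761988) [(nat_lit 365968), (nat_lit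 1313390), (nat_lit 0), (nat_lit 0)]) (PF.cons (PF.leaf (nat_lit 2322180) (nat_lit 386796) (nat_lit 61373961) (nat_lit 2828054) [(nat_lit 386796), (nat_lit 1359609), (nat_lit 0), (nat_lit 0)]) (PF.cons (PF.leaf
 (nat_lit 2631228) (nat_lit 406553) (nat_lit 60779631) (nat_lit 2892184) [(nat_lit 406553), (nat_lit 1404232), (nat_lit 0), (nat_lit 0)]) (PF.cons (PF.leaf (nat_lit 2957847) (nat_lit 425277) (nat_lit 60156355) (nat_lit 2953795) [(nat_lit 425277), (nat_lit 1446995), (nat_lit 0), (nat_lit 0)]) (PF.cons (PF.leaf (nat_lit 3300368) (nat_lit 442997) (nat_lit 59507630) (nat_lit 3012474) [(nat_lit 442997), (nat_lit 1487723), (nat_lit 0), (nat_lit 0)]) (PF.cons (PF.leaf (nat_lit 3657125) (nat_lit 459734) (nat_lit 58836707) (nat_lit 3067931) [(nat_lit 459734), (nat_lit 1526298), (nat_lit 0), (nat_lit 0)]) (PF.cons PF.nil (PF.cons PF.nil (PF.cons PF.nil PF.nil)))))))))))) (PF.cons (PF.cons (PF.leaf (nat_lit 1968999) (nat_lit 1317009) (nat_lit 61698118) (nat_lit 2776675)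 [(nat_lit 0), (nat_lit 1317009), (nat_lit 0), (nat_lit 0)]) (PF.cons (PF.leaf (nat_lit 2234220) (nat_lit 379683) (nat_lit 61171423) (nat_lit 2837229) [(nat_lit 379683), (nat_lit 1360238), (nat_lit 0), (nat_lit 0)]) (PF.cons (PF.leaf (nat_lit 2522050) (nat_lit 399794) (nat_lit 60606813) (nat_lit 2897109) [(nat_lit 399794), (nat_lit 1402650), (nat_lit 0), (nat_lit 0)]) (PF.cons (PF.leaf (nat_lit 2829419) (nat_lit 418790)
 (nat_lit 60009512) (nat_lit 2955414) [(nat_lit 418790), (nat_lit 1443757), (nat_lit 0), (nat_lit 0)]) (PF.cons (PF.leaf (nat_lit 3154218) (nat_lit 436735) (nat_lit 59383874) (nat_lit 3011512) [(nat_lit 436735), (nat_lit 1483241), (nat_lit 0), (nat_lit 0)]) (PF.cons (PF.leaf (nat_lit 3494617) (nat_lit 453673) (nat_lit 58733707) (nat_lit 3064960) [(nat_lit 453673), (nat_lit 1520887), (nat_lit 0), (nat_lit 0)]) (PF.cons (PF.leaf (nat_lit 3848919) (nat_lit 469634) (nat_lit 58062438) (nat_lit 3115451) [(nat_lit 469634), (nat_lit 1556558), (nat_lit 0), (nat_lit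 0)]) (PF.cons (PF.leaf (nat_lit 4215539) (nat_lit 484643) (nat_lit 57373198) (nat_lit 3162777) [(nat_lit 484643), (nat_lit 1590165), (nat_lit 0), (nat_lit 0)]) (PF.cons PF.nil (PF.cons PF.nil PF.nil)))))))))) (PF.cons (PF.cons (PF.leaf (nat_lit 2724374) (nat_lit 1442624) (nat_lit 59820191) (nat_lit 2960747) [(nat_lit 0), (nat_lit 1442624), (nat_lit 0), (nat_lit 0)]) (PF.cons (PF.leaf (nat_lit 3027928) (nat_lit 429828) (nat_lit 59224535) (nat_lit 3013431) [(nat_lit 429828), (nat_lit 1480339), (nat_lit 0), (nat_lit 0)]) (PF.cons (PF.leaf (nat_lit 3349671) (nat_lit 447098) (nat_lit 58600316) (nat_lit 3064255) [(nat_lit 447098),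
 (nat_lit 1516681), (nat_lit 0), (nat_lit 0)]) (PF.cons (PF.leaf (nat_lit 3687004) (nat_lit 463338) (nat_lit 57951893) (nat_lit 3112727) [(nat_lit 463338), (nat_lit 1551391), (nat_lit 0), (nat_lit 0)]) (PF.cons (PF.leaf (nat_lit 4038089) (nat_lit 478597) (nat_lit 57283007) (nat_lit 3158510) [(nat_lit 478597), (nat_lit 1584302), (nat_lit 0), (nat_lit 0)]) (PF.cons (PF.leaf (nat_lit 4401255) (nat_lit 492908) (nat_lit 56596966) (nat_lit 3201380) [(nat_lit 492908), (nat_lit 1615306), (nat_lit 0), (nat_lit 0)]) (PF.cons PF.nil (PF.cons PF.nil (PF.cons PF.nil PF.nil))))))))) (PF.cons (PF.cons (PF.leaf (nat_lit 3545392) (nat_lit 1547525) (nat_lit 57806340) (nat_lit 3112371) [(nat_lit 0), (nat_lit 1547525), (nat_lit 0), (nat_lit 0)]) (PF.cons (PF.leaf (nat_lit 3878121) (nat_lit 472016) (nat_lit 57163034) (nat_lit 3156088) [(nat_lit 472016), (nat_lit 1579418), (nat_lit 0), (nat_lit 0)]) (PF.cons (PF.leaf (nat_lit 4225121) (nat_lit 486650) (nat_lit 56499331) (nat_lit 3197398)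 [(nat_lit 486650), (nat_lit 1609695), (nat_lit 0), (nat_lit 0)]) (PF.cons (PF.leaf (nat_lit 4584159) (nat_lit 500332) (nat_lit 55818857) (nat_lit 3236050) [(nat_lit 500332), (nat_lit 1638227), (nat_lit 0), (nat_lit 0)])
 (PF.cons (PF.leaf (nat_lit 4953637) (nat_lit 513102) (nat_lit 55124766) (nat_lit 3271885) [(nat_lit 513102), (nat_lit 1664937), (nat_lit 0), (nat_lit 0)]) (PF.cons PF.nil (PF.cons PF.nil PF.nil))))))) (PF.cons (PF.cons (PF.leaf (nat_lit 4410972) (nat_lit 1632893) (nat_lit 55711961) (nat_lit 3232383) [(nat_lit 0), (nat_lit 1632893), (nat_lit 0), (nat_lit 0)]) (PF.cons (PF.leaf (nat_lit 4764746) (nat_lit 506935) (nat_lit 55039506) (nat_lit 3267034) [(nat_lit 506935), (nat_lit 1659067), (nat_lit 0), (nat_lit 0)]) (PF.cons (PF.leaf (nat_lit 5129373) (nat_lit 519142) (nat_lit 54353588) (nat_lit 3299107) [(nat_lit 519142), (nat_lit 1683566), (nat_lit 0), (nat_lit 0)]) (PF.cons (PF.leaf (nat_lit 5502937) (nat_lit 530478) (nat_lit 53657184) (nat_lit 3328495)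 [(nat_lit 530478), (nat_lit 1706339), (nat_lit 0), (nat_lit 0)]) (PF.cons PF.nil PF.nil))))) (PF.cons (PF.cons (PF.leaf (nat_lit 5303020) (nat_lit 1700353) (nat_lit 53583607) (nat_lit 3323081) [(nat_lit 0), (nat_lit 1700353), (nat_lit 0), (nat_lit 0)]) (PF.cons (PF.leaf (nat_lit 5670853) (nat_lit 535280) (nat_lit 52897464) (nat_lit 3349131) [(nat_lit 535280), (nat_lit 1721156), (nat_lit 0), (nat_lit 0)]) (PF.cons PF.nil (PF.cons
 PF.nil PF.nil)))) (PF.cons (PF.cons (PF.leaf (nat_lit 6206550) (nat_lit 1751776) (nat_lit 51458891) (nat_lit 3387486) [(nat_lit 0), (nat_lit 1751776), (nat_lit 0), (nat_lit 0)]) (PF.cons PF.nil PF.nil)) (PF.cons PF.nil PF.nil))))))))) (PF.cons (PF.cons (PF.cons (PF.leaf (nat_lit 1926182) (nat_lit 2787809) (nat_lit 61056524) (nat_lit 2787809) [(nat_lit 0), (nat_lit 0), (nat_lit 3264478), (nat_lit 0)]) (PF.cons (PF.leaf (nat_lit 2162258) (nat_lit 362413) (nat_lit 60584525) (nat_lit 2841411) [(nat_lit 362413), (nat_lit 0), (nat_lit 3320462), (nat_lit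 0)]) (PF.cons (PF.leaf (nat_lit 2424552) (nat_lit 384357) (nat_lit 60066735) (nat_lit 2895894) [(nat_lit 384357), (nat_lit 0), (nat_lit 3377467), (nat_lit 0)]) (PF.cons (PF.leaf (nat_lit 2708912) (nat_lit 404707) (nat_lit 59510677) (nat_lit 2949940) [(nat_lit 404707), (nat_lit 0), (nat_lit 3434072), (nat_lit 0)]) (PF.cons (PF.leaf (nat_lit 3012646) (nat_lit 423696) (nat_lit 58922078) (nat_lit 3002652) [(nat_lit 423696), (nat_lit 0), (nat_lit 3489296), (nat_lit 0)]) (PF.cons (PF.leaf (nat_lit 3333586) (nat_lit 441466) (nat_lit 58305629) (nat_lit 3053402) [(nat_lit 441466), (nat_lit 0), (nat_lit 3542446), (nat_lit 0)]) (PF.cons (PF.leaf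
 (nat_lit 3669825) (nat_lit 458114) (nat_lit 57665346) (nat_lit 3101750) [(nat_lit 458114), (nat_lit 0), (nat_lit 3593026), (nat_lit 0)]) (PF.cons (PF.leaf (nat_lit 4019636) (nat_lit 473707) (nat_lit 57004778) (nat_lit 3147389) [(nat_lit 473707), (nat_lit 0), (nat_lit 3640690), (nat_lit 0)]) (PF.cons (PF.leaf (nat_lit 4381424) (nat_lit 488297) (nat_lit 56327115) (nat_lit 3190113) [(nat_lit 488297), (nat_lit 0), (nat_lit 3685201), (nat_lit 0)]) (PF.cons PF.nil PF.nil)))))))))) (PF.cons (PF.cons (PF.leaf (nat_lit 2627451) (nat_lit 1429231) (nat_lit 59276676) (nat_lit 2958565) [(nat_lit 0), (nat_lit 1429231), (nat_lit 3444339), (nat_lit 0)]) (PF.cons (PF.leaf (nat_lit 2906580) (nat_lit 415280) (nat_lit 58725659) (nat_lit 3007057) [(nat_lit 415280), (nat_lit 1465825), (nat_lit 3494989), (nat_lit 0)]) (PF.cons (PF.leaf (nat_lit 3206463) (nat_lit 433712) (nat_lit 58140717) (nat_lit 3054609) [(nat_lit 433712), (nat_lit 1501414), (nat_lit 3544646), (nat_lit 0)]) (PF.cons (PF.leaf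 (nat_lit 3523915) (nat_lit 450870) (nat_lit 57527521) (nat_lit 3100512) [(nat_lit 450870), (nat_lit 1535625), (nat_lit 3592541), (nat_lit 0)]) (PF.cons (PF.leaf (nat_lit 3856705) (nat_lit 466880) (nat_lit
 56890646) (nat_lit 3144284) [(nat_lit 466880), (nat_lit 1568221), (nat_lit 3638140), (nat_lit 0)]) (PF.cons (PF.leaf (nat_lit 4203006) (nat_lit 481825) (nat_lit 56233961) (nat_lit 3185591) [(nat_lit 481825), (nat_lit 1599056), (nat_lit 3681074), (nat_lit 0)]) (PF.cons (PF.leaf (nat_lit 4561121) (nat_lit 495770) (nat_lit 55560838) (nat_lit 3224212) [(nat_lit 495770), (nat_lit 1628041), (nat_lit 3721096), (nat_lit 0)]) (PF.cons PF.nil (PF.cons PF.nil PF.nil))))))))) (PF.cons (PF.cons (PF.leaf (nat_lit 3402192) (nat_lit 1532435) (nat_lit 57346691) (nat_lit 3102149) [(nat_lit 0), (nat_lit 1532435), (nat_lit 3595101), (nat_lit 0)]) (PF.cons (PF.leaf (nat_lit 3714222) (nat_lit 459222) (nat_lit 56740747) (nat_lit 3143378) [(nat_lit 459222), (nat_lit 1563769), (nat_lit 3637926),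 (nat_lit 0)]) (PF.cons (PF.leaf (nat_lit 4042490) (nat_lit 474693) (nat_lit 56110468) (nat_lit 3182772) [(nat_lit 474693), (nat_lit 1593710), (nat_lit 3678763), (nat_lit 0)]) (PF.cons (PF.leaf (nat_lit 4384443) (nat_lit 489073) (nat_lit 55460286) (nat_lit 3219960) [(nat_lit 489073), (nat_lit 1622071), (nat_lit 3717202), (nat_lit 0)]) (PF.cons (PF.leaf (nat_lit 4738228) (nat_lit 502442) (nat_lit 54793900) (nat_lit
 3254695) [(nat_lit 502442), (nat_lit 1648736), (nat_lit 3752973), (nat_lit 0)]) (PF.cons (PF.leaf (nat_lit 5102216) (nat_lit 514862) (nat_lit 54114491) (nat_lit 3286821) [(nat_lit 514862), (nat_lit 1673642), (nat_lit 3785903), (nat_lit 0)]) (PF.cons PF.nil PF.nil))))))) (PF.cons (PF.cons (PF.leaf (nat_lit 4228328) (nat_lit 1617054) (nat_lit 55324992) (nat_lit 3217478) [(nat_lit 0), (nat_lit 1617054), (nat_lit 3715178), (nat_lit 0)]) (PF.cons (PF.leaf (nat_lit 4564555) (nat_lit 495462) (nat_lit 54684146) (nat_lit 3250738) [(nat_lit 495462), (nat_lit 1643043),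 (nat_lit 3749336), (nat_lit 0)]) (PF.cons (PF.leaf (nat_lit 4913251) (nat_lit 508330) (nat_lit 54026789) (nat_lit 3281787) [(nat_lit 508330), (nat_lit 1667497), (nat_lit 3781080), (nat_lit 0)]) (PF.cons (PF.leaf (nat_lit 5272270) (nat_lit 520239) (nat_lit 53356431) (nat_lit 3310446) [(nat_lit 520239), (nat_lit 1690333), (nat_lit 3810216), (nat_lit 0)]) (PF.cons (PF.leaf (nat_lit 5640062) (nat_lit 531248) (nat_lit 52676050) (nat_lit 3336611) [(nat_lit 531248), (nat_lit 1711508), (nat_lit 3836631), (nat_lit 0)]) PF.nil))))) (PF.cons (PF.cons (PF.leaf (nat_lit 5087132) (nat_lit 1684447) (nat_lit 53259675) (nat_lit 3305698)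
 [(nat_lit 0), (nat_lit 1684447), (nat_lit 3805648), (nat_lit 0)]) (PF.cons (PF.leaf (nat_lit 5440167) (nat_lit 524910) (nat_lit 52600365) (nat_lit 3331077) [(nat_lit 524910), (nat_lit 1705314), (nat_lit 3831203), (nat_lit 0)]) (PF.cons (PF.leaf (nat_lit 5802485) (nat_lit 535468) (nat_lit 51930869) (nat_lit 3354166) [(nat_lit 535468), (nat_lit 1724646), (nat_lit 3854253), (nat_lit 0)]) (PF.cons PF.nil PF.nil)))) (PF.cons (PF.cons (PF.leaf (nat_lit 5963038) (nat_lit 1736273) (nat_lit 51189403) (nat_lit 3369090) [(nat_lit 0), (nat_lit 1736273), (nat_lit 3868949), (nat_lit 0)]) (PF.cons (PF.leaf (nat_lit 6326699) (nat_lit 548366) (nat_lit 50524794) (nat_lit 3387111) [(nat_lit 548366), (nat_lit 1752415), (nat_lit 3886463), (nat_lit 0)]) PF.nil)) (PF.cons PF.nil (PF.cons PF.nil PF.nil)))))))) (PF.cons (PF.cons (PF.cons (PF.leaf (nat_lit 3280174) (nat_lit 3092990) (nat_lit 56840479) (nat_lit 3092990) [(nat_lit 0), (nat_lit 0), (nat_lit 3587671), (nat_lit 0)]) (PF.cons (PF.leaf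 (nat_lit 3568569) (nat_lit 443817) (nat_lit 56279490) (nat_lit 3131319) [(nat_lit 443817), (nat_lit 0), (nat_lit 3627093), (nat_lit 0)]) (PF.cons (PF.leaf (nat_lit 3876037) (nat_lit 460664) (nat_lit 55688334)
 (nat_lit 3168524) [(nat_lit 460664), (nat_lit 0), (nat_lit 3665312), (nat_lit 0)]) (PF.cons (PF.leaf (nat_lit 4199292) (nat_lit 476132) (nat_lit 55072875) (nat_lit 3204059) [(nat_lit 476132), (nat_lit 0), (nat_lit 3701739), (nat_lit 0)]) (PF.cons (PF.leaf (nat_lit 4536097) (nat_lit 490392) (nat_lit 54437731) (nat_lit 3237560) [(nat_lit 490392), (nat_lit 0), (nat_lit 3735976), (nat_lit 0)]) (PF.cons (PF.leaf (nat_lit 4884603) (nat_lit 503561) (nat_lit 53786707) (nat_lit 3268786) [(nat_lit 503561), (nat_lit 0), (nat_lit 3767756), (nat_lit 0)]) (PF.cons (PF.leaf (nat_lit 5243134) (nat_lit 515727) (nat_lit 53123040) (nat_lit 3297586) [(nat_lit 515727), (nat_lit 0), (nat_lit 3796911), (nat_lit 0)]) (PF.cons PF.nil (PF.cons PF.nil PF.nil))))))))) (PF.cons (PF.cons (PF.leaf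 (nat_lit 4063339) (nat_lit 1600225) (nat_lit 54902971) (nat_lit 3203025) [(nat_lit 0), (nat_lit 1600225), (nat_lit 3701295), (nat_lit 0)]) (PF.cons (PF.leaf (nat_lit 4379992) (nat_lit 482232) (nat_lit 54298786) (nat_lit 3234672) [(nat_lit 482232), (nat_lit 1626076), (nat_lit 3733521), (nat_lit 0)]) (PF.cons (PF.leaf (nat_lit 4711230) (nat_lit 496077) (nat_lit 53673917) (nat_lit 3264544) [(nat_lit 496077), (nat_lit
 1650549), (nat_lit 3763823), (nat_lit 0)]) (PF.cons (PF.leaf (nat_lit 5054477) (nat_lit 508797) (nat_lit 53032740) (nat_lit 3292365) [(nat_lit 508797), (nat_lit 1673512), (nat_lit 3791901), (nat_lit 0)]) (PF.cons (PF.leaf (nat_lit 5407931) (nat_lit 520499) (nat_lit 52378827) (nat_lit 3317962) [(nat_lit 520499), (nat_lit 1694893), (nat_lit 3817566), (nat_lit 0)]) (PF.cons (PF.leaf (nat_lit 5770037) (nat_lit 531264) (nat_lit 51715181) (nat_lit 3341234) [(nat_lit 531264), (nat_lit 1714660), (nat_lit 3840707), (nat_lit 0)]) (PF.cons PF.nil PF.nil))))))) (PF.cons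 (PF.cons (PF.leaf (nat_lit 4886357) (nat_lit 1667736) (nat_lit 52908486) (nat_lit 3288420) [(nat_lit 0), (nat_lit 1667736), (nat_lit 3788216), (nat_lit 0)]) (PF.cons (PF.leaf (nat_lit 5223095) (nat_lit 513283) (nat_lit 52279538) (nat_lit 3313006) [(nat_lit 513283), (nat_lit 1688708), (nat_lit 3812783), (nat_lit 0)]) (PF.cons (PF.leaf (nat_lit 5570792) (nat_lit 524593) (nat_lit 51637256) (nat_lit 3335576) [(nat_lit 524593), (nat_lit 1708240), (nat_lit 3835156), (nat_lit 0)]) (PF.cons (PF.leaf (nat_lit 5927370) (nat_lit 534950) (nat_lit 50984979) (nat_lit 3356008) [(nat_lit 534950), (nat_lit 1726281), (nat_lit 3855204), (nat_lit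
 0)]) (PF.cons PF.nil PF.nil))))) (PF.cons (PF.cons (PF.leaf (nat_lit 5732653) (nat_lit 1720091) (nat_lit 50898215) (nat_lit 3350594) [(nat_lit 0), (nat_lit 1720091), (nat_lit 3849864), (nat_lit 0)]) (PF.cons (PF.leaf (nat_lit 6082774) (nat_lit 538027) (nat_lit 50258941) (nat_lit 3368350) [(nat_lit 538027), (nat_lit 1736494), (nat_lit 3867004), (nat_lit 0)]) (PF.cons (PF.leaf (nat_lit 6440902) (nat_lit 547155) (nat_lit 49612045) (nat_lit 3384080) [(nat_lit 547155), (nat_lit 1751501), (nat_lit 3881936), (nat_lit 0)]) (PF.cons PF.nil PF.nil)))) (PF.cons (PF.cons (PF.leaf (nat_lit 6588876) (nat_lit 1758946) (nat_lit 48903941) (nat_lit 3391787) [(nat_lit 0), (nat_lit 1758946), (nat_lit 3888648), (nat_lit 0)]) (PF.cons (PF.leaf (nat_lit 6946937) (nat_lit 557332) (nat_lit 48265481) (nat_lit 3403263) [(nat_lit 557332), (nat_lit 1771205), (nat_lit 3898957), (nat_lit 0)]) PF.nil)) (PF.cons PF.nil PF.nil)))))) (PF.cons (PF.cons (PF.cons (PF.leaf (nat_lit 4703204) (nat_lit 3271292)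 (nat_lit 52524174) (nat_lit 3271292) [(nat_lit 0), (nat_lit 0), (nat_lit 3771115), (nat_lit 0)]) (PF.cons (PF.leaf (nat_lit 5021540) (nat_lit 499902) (nat_lit 51930462) (nat_lit 3294923) [(nat_lit 499902), (nat_lit
 0), (nat_lit 3794508), (nat_lit 0)]) (PF.cons (PF.leaf (nat_lit 5353002) (nat_lit 512285) (nat_lit 51319163) (nat_lit 3316865) [(nat_lit 512285), (nat_lit 0), (nat_lit 3816071), (nat_lit 0)]) (PF.cons (PF.leaf (nat_lit 5695064) (nat_lit 523531) (nat_lit 50694517) (nat_lit 3336919) [(nat_lit 523531), (nat_lit 0), (nat_lit 3835594), (nat_lit 0)]) (PF.cons (PF.leaf (nat_lit 6045991) (nat_lit 533768) (nat_lit 50059916) (nat_lit 3354972) [(nat_lit 533768), (nat_lit 0), (nat_lit 3852950), (nat_lit 0)]) (PF.cons (PF.leaf (nat_lit 6404274) (nat_lit 543092) (nat_lit 49418164) (nat_lit 3370961) [(nat_lit 543092), (nat_lit 0), (nat_lit 3868075), (nat_lit 0)]) (PF.cons PF.nil PF.nil))))))) (PF.cons (PF.cons (PF.leaf (nat_lit 5517144) (nat_lit 1703054) (nat_lit 50581388)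 (nat_lit 3331997) [(nat_lit 0), (nat_lit 1703054), (nat_lit 3830790), (nat_lit 0)]) (PF.cons (PF.leaf (nat_lit 5852194) (nat_lit 526438) (nat_lit 49970831) (nat_lit 3349404) [(nat_lit 526438), (nat_lit 1719774), (nat_lit 3847455), (nat_lit 0)]) (PF.cons (PF.leaf (nat_lit 6196913) (nat_lit 536379) (nat_lit 49349506) (nat_lit 3364983) [(nat_lit 536379), (nat_lit 1735153), (nat_lit 3862136), (nat_lit 0)]) (PF.cons (PF.leaf
 (nat_lit 6549320) (nat_lit 545386) (nat_lit 48720555) (nat_lit 3378661) [(nat_lit 545386), (nat_lit 1749168), (nat_lit 3874755), (nat_lit 0)]) (PF.cons PF.nil PF.nil))))) (PF.cons (PF.cons (PF.leaf (nat_lit 6347054) (nat_lit 1742853) (nat_lit 48643292) (nat_lit 3372879) [(nat_lit 0), (nat_lit 1742853), (nat_lit 3868978), (nat_lit 0)]) (PF.cons (PF.leaf (nat_lit 6692731) (nat_lit 547153) (nat_lit 48028484) (nat_lit 3384387) [(nat_lit 547153), (nat_lit 1755513), (nat_lit 3879253), (nat_lit 0)]) (PF.cons (PF.leaf (nat_lit 7045359) (nat_lit 555044) (nat_lit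 47408039) (nat_lit 3394106) [(nat_lit 555044), (nat_lit 1766906), (nat_lit 3887588), (nat_lit 0)]) (PF.cons PF.nil PF.nil)))) (PF.cons (PF.cons (PF.leaf (nat_lit 7181438) (nat_lit 1770974) (nat_lit 46735833) (nat_lit 3396084) [(nat_lit 0), (nat_lit 1770974), (nat_lit 3887990), (nat_lit 0)]) (PF.cons PF.nil PF.nil)) (PF.cons PF.nil PF.nil))))) (PF.cons (PF.cons (PF.cons (PF.leaf (nat_lit 6119755) (nat_lit 3353705) (nat_lit 48358623) (nat_lit 3353705) [(nat_lit 0), (nat_lit 0), (nat_lit 3849120), (nat_lit 0)]) (PF.cons (PF.leaf (nat_lit 6451482) (nat_lit 535735) (nat_lit 47770690) (nat_lit 3365191) [(nat_lit 535735), (nat_lit 0),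
 (nat_lit 3859298), (nat_lit 0)]) (PF.cons (PF.leaf (nat_lit 6791831) (nat_lit 544478) (nat_lit 47174041) (nat_lit 3375031) [(nat_lit 544478), (nat_lit 0), (nat_lit 3867695), (nat_lit 0)]) (PF.cons (PF.leaf (nat_lit 7138870) (nat_lit 552314) (nat_lit 46571611) (nat_lit 3383183) [(nat_lit 552314), (nat_lit 0), (nat_lit 3874268), (nat_lit 0)]) (PF.cons PF.nil PF.nil))))) (PF.cons (PF.cons (PF.leaf (nat_lit 6930764) (nat_lit 1755218) (nat_lit 46503173) (nat_lit 3377247) [(nat_lit 0), (nat_lit 1755218), (nat_lit 3868293), (nat_lit 0)]) (PF.cons (PF.leaf (nat_lit 7270948) (nat_lit 553007) (nat_lit 45915427) (nat_lit 3383654) [(nat_lit 553007), (nat_lit 1764748), (nat_lit 3872993), (nat_lit 0)]) (PF.cons PF.nil (PF.cons PF.nil PF.nil)))) (PF.cons (PF.cons (PF.leaf (nat_lit 7742184) (nat_lit 1774484) (nat_lit 44688155) (nat_lit 3385939) [(nat_lit 0), (nat_lit 1774484), (nat_lit 3871437), (nat_lit 0)]) (PF.cons PF.nil PF.nil)) PF.nil))) (PF.cons (PF.cons (PF.cons (PF.leaf (nat_lit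 7484849) (nat_lit 3367502) (nat_lit 44480840) (nat_lit 3367502) [(nat_lit 0), (nat_lit 0), (nat_lit 3852094), (nat_lit 0)]) (PF.cons (PF.leaf (nat_lit 7818816) (nat_lit 556193) (nat_lit 43921409) (nat_lit
 3369762) [(nat_lit 556193), (nat_lit 0), (nat_lit 3852289), (nat_lit 0)]) (PF.cons PF.nil PF.nil))) (PF.cons (PF.cons (PF.leaf (nat_lit 8272878) (nat_lit 1771212) (nat_lit 42760179) (nat_lit 3364543) [(nat_lit 0), (nat_lit 1771212), (nat_lit 3842575), (nat_lit 0)]) PF.nil) PF.nil)) (PF.cons PF.nil (PF.cons PF.nil (PF.cons PF.nil PF.nil))))))))) (PF.cons (PF.cons (PF.cons (PF.cons (PF.leaf (nat_lit 3065020) (nat_lit 2991068) (nat_lit 54685441) (nat_lit 2991068) [(nat_lit 0), (nat_lit 0), (nat_lit 0), (nat_lit 9432302)]) (PF.cons (PF.leaf (nat_lit 3307297) (nat_lit 397859) (nat_lit 54233117) (nat_lit 3027636) [(nat_lit 397859), (nat_lit 0), (nat_lit 0), (nat_lit 9450198)]) (PF.cons (PF.leaf (nat_lit 3573511) (nat_lit 418205) (nat_lit 53741729) (nat_lit 3064094) [(nat_lit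 418205), (nat_lit 0), (nat_lit 0), (nat_lit 9466577)]) (PF.cons (PF.leaf (nat_lit 3859152) (nat_lit 436513) (nat_lit 53219076) (nat_lit 3099559) [(nat_lit 436513), (nat_lit 0), (nat_lit 0), (nat_lit 9480636)]) (PF.cons (PF.leaf (nat_lit 4161360) (nat_lit 453142) (nat_lit 52670971) (nat_lit 3133468) [(nat_lit 453142), (nat_lit 0), (nat_lit 0), (nat_lit 9491802)]) (PF.cons (PF.leaf (nat_lit 4477833) (nat_lit 468334)
 (nat_lit 52102022) (nat_lit 3165453) [(nat_lit 468334), (nat_lit 0), (nat_lit 0), (nat_lit 9499663)]) (PF.cons (PF.leaf (nat_lit 4806633) (nat_lit 482260) (nat_lit 51516037) (nat_lit 3195277) [(nat_lit 482260), (nat_lit 0), (nat_lit 0), (nat_lit 9503936)]) (PF.cons (PF.leaf (nat_lit 5146124) (nat_lit 495047) (nat_lit 50916253) (nat_lit 3222794) [(nat_lit 495047), (nat_lit 0), (nat_lit 0), (nat_lit 9504434)]) (PF.cons (PF.leaf (nat_lit 5494772) (nat_lit 506794) (nat_lit 50305474) (nat_lit 3247923) [(nat_lit 506794), (nat_lit 0), (nat_lit 0), (nat_lit 9501055)])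 (PF.cons (PF.leaf (nat_lit 5851314) (nat_lit 517584) (nat_lit 49686159) (nat_lit 3270633) [(nat_lit 517584), (nat_lit 0), (nat_lit 0), (nat_lit 9493756)]) (PF.cons PF.nil (PF.cons PF.nil PF.nil)))))))))))) (PF.cons (PF.cons (PF.leaf (nat_lit 3758446) (nat_lit 1520423) (nat_lit 53009455) (nat_lit 3100772) [(nat_lit 0), (nat_lit 1520423), (nat_lit 0), (nat_lit 9478161)]) (PF.cons (PF.leaf (nat_lit 4036781) (nat_lit 443198) (nat_lit 52497654) (nat_lit 3132106) [(nat_lit 443198), (nat_lit 1548359), (nat_lit 0), (nat_lit 9487494)]) (PF.cons (PF.leaf (nat_lit 4333212) (nat_lit 459398) (nat_lit 51958766) (nat_lit 3162229) [(nat_lit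
 459398), (nat_lit 1574972), (nat_lit 0), (nat_lit 9494047)]) (PF.cons (PF.leaf (nat_lit 4644490) (nat_lit 474117) (nat_lit 51398274) (nat_lit 3190708) [(nat_lit 474117), (nat_lit 1600056), (nat_lit 0), (nat_lit 9497422)]) (PF.cons (PF.leaf (nat_lit 4968448) (nat_lit 487551) (nat_lit 50820478) (nat_lit 3217266) [(nat_lit 487551), (nat_lit 1623508), (nat_lit 0), (nat_lit 9497352)]) (PF.cons (PF.leaf (nat_lit 5303224) (nat_lit 499846) (nat_lit 50228892) (nat_lit 3241731) [(nat_lit 499846), (nat_lit 1645284), (nat_lit 0), (nat_lit 9493672)]) (PF.cons (PF.leaf (nat_lit 5647264) (nat_lit 511109) (nat_lit 49626481) (nat_lit 3264005) [(nat_lit 511109), (nat_lit 1665377), (nat_lit 0), (nat_lit 9486292)]) (PF.cons (PF.leaf (nat_lit 5999170) (nat_lit 521427) (nat_lit 49015790) (nat_lit 3284039) [(nat_lit 521427), (nat_lit 1683806), (nat_lit 0), (nat_lit 9475185)]) (PF.cons (PF.leaf (nat_lit 6357716) (nat_lit 530871) (nat_lit 48399034) (nat_lit 3301827) [(nat_lit 530871), (nat_lit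 1700602), (nat_lit 0), (nat_lit 9460374)]) (PF.cons PF.nil PF.nil)))))))))) (PF.cons (PF.cons (PF.leaf (nat_lit 4506584) (nat_lit 1594276) (nat_lit 51241449) (nat_lit 3187862) [(nat_lit 0), (nat_lit 1594276),
 (nat_lit 0), (nat_lit 9490947)]) (PF.cons (PF.leaf (nat_lit 4811083) (nat_lit 479024) (nat_lit 50692400) (nat_lit 3213011) [(nat_lit 479024), (nat_lit 1617111), (nat_lit 0), (nat_lit 9490153)]) (PF.cons (PF.leaf (nat_lit 5129306) (nat_lit 492075) (nat_lit 50125067) (nat_lit 3236485) [(nat_lit 492075), (nat_lit 1638524), (nat_lit 0), (nat_lit 9486058)]) (PF.cons (PF.leaf (nat_lit 5458749) (nat_lit 503961) (nat_lit 49543472) (nat_lit 3258079) [(nat_lit 503961), (nat_lit 1658432), (nat_lit 0), (nat_lit 9478512)]) (PF.cons (PF.leaf (nat_lit 5797667) (nat_lit 514807) (nat_lit 48950868) (nat_lit 3277671) [(nat_lit 514807), (nat_lit 1676802), (nat_lit 0), (nat_lit 9467437)]) (PF.cons (PF.leaf (nat_lit 6144599) (nat_lit 524711) (nat_lit 48349974) (nat_lit 3295198) [(nat_lit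 524711), (nat_lit 1693632), (nat_lit 0), (nat_lit 9452818)]) (PF.cons (PF.leaf (nat_lit 6498236) (nat_lit 533749) (nat_lit 47743102) (nat_lit 3310640) [(nat_lit 533749), (nat_lit 1708944), (nat_lit 0), (nat_lit 9434686)]) (PF.cons PF.nil (PF.cons PF.nil PF.nil))))))))) (PF.cons (PF.cons (PF.leaf (nat_lit 5290367) (nat_lit 1651988) (nat_lit 49429483) (nat_lit 3253118) [(nat_lit 0), (nat_lit 1651988), (nat_lit 0),
 (nat_lit 9470243)]) (PF.cons (PF.leaf (nat_lit 5613304) (nat_lit 507396) (nat_lit 48859878) (nat_lit 3272003) [(nat_lit 507396), (nat_lit 1670125), (nat_lit 0), (nat_lit 9459156)]) (PF.cons (PF.leaf (nat_lit 5946537) (nat_lit 517900) (nat_lit 48278634) (nat_lit 3289075) [(nat_lit 517900), (nat_lit 1686867), (nat_lit 0), (nat_lit 9444699)]) (PF.cons (PF.leaf (nat_lit 6288042) (nat_lit 527449) (nat_lit 47688764) (nat_lit 3304251) [(nat_lit 527449), (nat_lit 1702193), (nat_lit 0), (nat_lit 9426867)]) (PF.cons (PF.leaf (nat_lit 6636433) (nat_lit 536132) (nat_lit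 47092760) (nat_lit 3317497) [(nat_lit 536132), (nat_lit 1716108), (nat_lit 0), (nat_lit 9405699)]) (PF.cons (PF.leaf (nat_lit 6990498) (nat_lit 544019) (nat_lit 46492725) (nat_lit 3328813) [(nat_lit 544019), (nat_lit 1728635), (nat_lit 0), (nat_lit 9381267)]) (PF.cons PF.nil PF.nil))))))) (PF.cons (PF.cons (PF.leaf (nat_lit 6094772) (nat_lit 1695664) (nat_lit 47609534) (nat_lit 3298358) [(nat_lit 0), (nat_lit 1695664), (nat_lit 0), (nat_lit 9418260)]) (PF.cons (PF.leaf (nat_lit 6429990) (nat_lit 529648) (nat_lit 47032036) (nat_lit 3311328) [(nat_lit 529648), (nat_lit 1709570), (nat_lit 0), (nat_lit 9397519)]) (PF.cons (PF.leaf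
 (nat_lit 6772732) (nat_lit 538030) (nat_lit 46447949) (nat_lit 3322520) [(nat_lit 538030), (nat_lit 1722170), (nat_lit 0), (nat_lit 9373601)]) (PF.cons (PF.leaf (nat_lit 7121373) (nat_lit 545613) (nat_lit 45859557) (nat_lit 3331920) [(nat_lit 545613), (nat_lit 1733477), (nat_lit 0), (nat_lit 9346584)]) (PF.cons PF.nil PF.nil))))) (PF.cons (PF.cons (PF.leaf (nat_lit 6907924) (nat_lit 1727197) (nat_lit 45808448) (nat_lit 3325820) [(nat_lit 0), (nat_lit 1727197), (nat_lit 0), (nat_lit 9338556)]) (PF.cons (PF.leaf (nat_lit 7250468) (nat_lit 546775) (nat_lit 45232595) (nat_lit 3333432) [(nat_lit 546775), (nat_lit 1737356), (nat_lit 0), (nat_lit 9309224)]) (PF.cons (PF.leaf (nat_lit 7598336) (nat_lit 553367) (nat_lit 44653979) (nat_lit 3339391) [(nat_lit 553367), (nat_lit 1746331), (nat_lit 0), (nat_lit 9277047)]) (PF.cons PF.nil PF.nil)))) (PF.cons (PF.cons (PF.leaf (nat_lit 7720530) (nat_lit 1748308) (nat_lit 44045870) (nat_lit 3337854) [(nat_lit 0), (nat_lit 1748308),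 (nat_lit 0), (nat_lit 9235237)]) (PF.cons (PF.leaf (nat_lit 8066485) (nat_lit 559583) (nat_lit 43478723) (nat_lit 3340746) [(nat_lit 559583), (nat_lit 1755200), (nat_lit 0), (nat_lit 9198557)]) PF.nil)) (PF.cons PF.nil
 (PF.cons PF.nil PF.nil))))))))) (PF.cons (PF.cons (PF.cons (PF.leaf (nat_lit 4356034) (nat_lit 3169523) (nat_lit 50814372) (nat_lit 3169523) [(nat_lit 0), (nat_lit 0), (nat_lit 3663312), (nat_lit 9461604)]) (PF.cons (PF.leaf (nat_lit 4638770) (nat_lit 462117) (nat_lit 50306875) (nat_lit 3193556) [(nat_lit 462117), (nat_lit 0), (nat_lit 3686652), (nat_lit 9459610)]) (PF.cons (PF.leaf (nat_lit 4938229) (nat_lit 476884) (nat_lit 49775321) (nat_lit 3216343) [(nat_lit 476884), (nat_lit 0), (nat_lit 3708686), (nat_lit 9454692)]) (PF.cons (PF.leaf (nat_lit 5251139) (nat_lit 490140) (nat_lit 49225123) (nat_lit 3237558) [(nat_lit 490140), (nat_lit 0), (nat_lit 3729067), (nat_lit 9446640)]) (PF.cons (PF.leaf (nat_lit 5575351) (nat_lit 502113) (nat_lit 48660446)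 (nat_lit 3257001) [(nat_lit 502113), (nat_lit 0), (nat_lit 3747579), (nat_lit 9435332)]) (PF.cons (PF.leaf (nat_lit 5909047) (nat_lit 512963) (nat_lit 48084637) (nat_lit 3274552) [(nat_lit 512963), (nat_lit 0), (nat_lit 3764091), (nat_lit 9420712)]) (PF.cons (PF.leaf (nat_lit 6250733) (nat_lit 522814) (nat_lit 47500466) (nat_lit 3290152) [(nat_lit 522814), (nat_lit 0), (nat_lit 3778533), (nat_lit 9402776)]) (PF.cons (PF.leaf (nat_lit
 6599101) (nat_lit 531759) (nat_lit 46910274) (nat_lit 3303781) [(nat_lit 531759), (nat_lit 0), (nat_lit 3790878), (nat_lit 9381559)]) (PF.cons PF.nil (PF.cons PF.nil PF.nil)))))))))) (PF.cons (PF.cons (PF.leaf (nat_lit 5102807) (nat_lit 1632369) (nat_lit 49080379) (nat_lit 3233315) [(nat_lit 0), (nat_lit 1632369), (nat_lit 3725034), (nat_lit 9437714)]) (PF.cons (PF.leaf (nat_lit 5408305) (nat_lit 493400) (nat_lit 48543618) (nat_lit 3251803) [(nat_lit 493400), (nat_lit 1651044), (nat_lit 3742539), (nat_lit 9426406)]) (PF.cons (PF.leaf (nat_lit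 5726230) (nat_lit 505102) (nat_lit 47991180) (nat_lit 3268722) [(nat_lit 505102), (nat_lit 1668372), (nat_lit 3758376), (nat_lit 9411956)]) (PF.cons (PF.leaf (nat_lit 6054144) (nat_lit 515647) (nat_lit 47426920) (nat_lit 3283926) [(nat_lit 515647), (nat_lit 1684306), (nat_lit 3772390), (nat_lit 9394325)]) (PF.cons (PF.leaf (nat_lit 6390382) (nat_lit 525176) (nat_lit 46853911) (nat_lit 3297339) [(nat_lit 525176), (nat_lit 1698834), (nat_lit 3784496), (nat_lit 9373524)]) (PF.cons (PF.leaf (nat_lit 6733505) (nat_lit 533797) (nat_lit 46274673) (nat_lit 3308926) [(nat_lit 533797), (nat_lit 1711972), (nat_lit 3794655), (nat_lit 9349598)]) (PF.cons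
 (PF.leaf (nat_lit 7082301) (nat_lit 541593) (nat_lit 45691323) (nat_lit 3318687) [(nat_lit 541593), (nat_lit 1723750), (nat_lit 3802866), (nat_lit 9322625)]) (PF.cons PF.nil (PF.cons PF.nil PF.nil))))))))) (PF.cons (PF.cons (PF.leaf (nat_lit 5877453) (nat_lit 1677602) (nat_lit 47323552) (nat_lit 3278327) [(nat_lit 0), (nat_lit 1677602), (nat_lit 3766851), (nat_lit 9384875)]) (PF.cons (PF.leaf (nat_lit 6198504) (nat_lit 517737) (nat_lit 46772541) (nat_lit 3291326) [(nat_lit 517737), (nat_lit 1692069), (nat_lit 3778523), (nat_lit 9364544)]) (PF.cons (PF.leaf (nat_lit 6528723) (nat_lit 527015) (nat_lit 46211978) (nat_lit 3302688) [(nat_lit 527015), (nat_lit 1705252), (nat_lit 3788445), (nat_lit 9341165)]) (PF.cons (PF.leaf (nat_lit 6866192) (nat_lit 535366) (nat_lit 45644688) (nat_lit 3312365) [(nat_lit 535366), (nat_lit 1717147), (nat_lit 3796566), (nat_lit 9314799)]) (PF.cons (PF.leaf (nat_lit 7209582) (nat_lit 542886) (nat_lit 45072970) (nat_lit 3320347) [(nat_lit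 542886), (nat_lit 1727773), (nat_lit 3802873), (nat_lit 9285530)]) (PF.cons (PF.leaf (nat_lit 7557757) (nat_lit 549652) (nat_lit 44498737) (nat_lit 3326647) [(nat_lit 549652), (nat_lit 1737161), (nat_lit 3807382),
 (nat_lit 9253461)]) (PF.cons PF.nil PF.nil))))))) (PF.cons (PF.cons (PF.leaf (nat_lit 6666656) (nat_lit 1710626) (nat_lit 45574285) (nat_lit 3306309) [(nat_lit 0), (nat_lit 1710626), (nat_lit 3790498), (nat_lit 9305839)]) (PF.cons (PF.leaf (nat_lit 6997654) (nat_lit 536466) (nat_lit 45020062) (nat_lit 3314203) [(nat_lit 536466), (nat_lit 1721350), (nat_lit 3796720), (nat_lit 9277307)]) (PF.cons (PF.leaf (nat_lit 7335269) (nat_lit 543761) (nat_lit 44460826) (nat_lit 3320526) [(nat_lit 543761), (nat_lit 1730894), (nat_lit 3801257), (nat_lit 9245995)]) (PF.cons (PF.leaf (nat_lit 7677946) (nat_lit 550294) (nat_lit 43898675) (nat_lit 3325281) [(nat_lit 550294), (nat_lit 1739280), (nat_lit 3804116), (nat_lit 9212015)]) (PF.cons PF.nil PF.nil))))) (PF.cons (PF.cons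 (PF.leaf (nat_lit 7460123) (nat_lit 1733168) (nat_lit 43854570) (nat_lit 3319309) [(nat_lit 0), (nat_lit 1733168), (nat_lit 3798112), (nat_lit 9204146)]) (PF.cons (PF.leaf (nat_lit 7796670) (nat_lit 550564) (nat_lit 43305229) (nat_lit 3322630) [(nat_lit 550564), (nat_lit 1740613), (nat_lit 3799443), (nat_lit 9168491)]) (PF.cons (PF.leaf (nat_lit 8137800) (nat_lit 556210) (nat_lit 42754241) (nat_lit 3324510) [(nat_lit 556210),
 (nat_lit 1747000), (nat_lit 3799231), (nat_lit 9130405)]) (PF.cons PF.nil PF.nil)))) (PF.cons (PF.cons (PF.leaf (nat_lit 8249933) (nat_lit 1746779) (nat_lit 42180013) (nat_lit 3319412) [(nat_lit 0), (nat_lit 1746779), (nat_lit 3791921), (nat_lit 9083565)]) (PF.cons PF.nil PF.nil)) (PF.cons PF.nil (PF.cons PF.nil PF.nil)))))))) (PF.cons (PF.cons (PF.cons (PF.leaf (nat_lit 5677393) (nat_lit 3257955) (nat_lit 47008632) (nat_lit 3257955) [(nat_lit 0), (nat_lit 0), (nat_lit 3746019), (nat_lit 9350185)]) (PF.cons (PF.leaf (nat_lit 5982084) (nat_lit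 504020) (nat_lit 46488421) (nat_lit 3270908) [(nat_lit 504020), (nat_lit 0), (nat_lit 3757541), (nat_lit 9330379)]) (PF.cons (PF.leaf (nat_lit 6298115) (nat_lit 514526) (nat_lit 45954714) (nat_lit 3282401) [(nat_lit 514526), (nat_lit 0), (nat_lit 3767507), (nat_lit 9307629)]) (PF.cons (PF.leaf (nat_lit 6623082) (nat_lit 523894) (nat_lit 45411176) (nat_lit 3292335) [(nat_lit 523894), (nat_lit 0), (nat_lit 3775816), (nat_lit 9281984)]) (PF.cons (PF.leaf (nat_lit 6955366) (nat_lit 532274) (nat_lit 44860683) (nat_lit 3300667) [(nat_lit 532274), (nat_lit 0), (nat_lit 3782422), (nat_lit 9253517)]) (PF.cons (PF.leaf (nat_lit 7293624) (nat_lit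
 539783) (nat_lit 44305566) (nat_lit 3307386) [(nat_lit 539783), (nat_lit 0), (nat_lit 3787313), (nat_lit 9222316)]) (PF.cons (PF.leaf (nat_lit 7636707) (nat_lit 546508) (nat_lit 43747755) (nat_lit 3312507) [(nat_lit 546508), (nat_lit 0), (nat_lit 3790504), (nat_lit 9188488)]) (PF.cons PF.nil (PF.cons PF.nil PF.nil))))))))) (PF.cons (PF.cons (PF.leaf (nat_lit 6439692) (nat_lit 1693040) (nat_lit 45317859) (nat_lit 3286365) [(nat_lit 0), (nat_lit 1693040), (nat_lit 3769836), (nat_lit 9271875)]) (PF.cons (PF.leaf (nat_lit 6757572) (nat_lit 524877) (nat_lit 44788242) (nat_lit 3294512) [(nat_lit 524877), (nat_lit 1704413), (nat_lit 3776261), (nat_lit 9244243)]) (PF.cons (PF.leaf (nat_lit 7083680) (nat_lit 533083) (nat_lit 44250752) (nat_lit 3301186) [(nat_lit 533083), (nat_lit 1714606), (nat_lit 3781111), (nat_lit 9213877)]) (PF.cons (PF.leaf (nat_lit 7416158) (nat_lit 540394) (nat_lit 43708023) (nat_lit 3306362) [(nat_lit 540394), (nat_lit 1723629), (nat_lit 3784365), (nat_lit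 9180882)]) (PF.cons (PF.leaf (nat_lit 7753775) (nat_lit 546911) (nat_lit 43162172) (nat_lit 3310049) [(nat_lit 546911), (nat_lit 1731510), (nat_lit 3786030), (nat_lit 9145374)]) (PF.cons PF.nil (PF.cons PF.nil
 PF.nil))))))) (PF.cons (PF.cons (PF.leaf (nat_lit 7211808) (nat_lit 1717207) (nat_lit 43645709) (nat_lit 3300297) [(nat_lit 0), (nat_lit 1717207), (nat_lit 3778257), (nat_lit 9171876)]) (PF.cons (PF.leaf (nat_lit 7537745) (nat_lit 540597) (nat_lit 43116310) (nat_lit 3304040) [(nat_lit 540597), (nat_lit 1725268), (nat_lit 3779996), (nat_lit 9137333)]) (PF.cons (PF.leaf (nat_lit 7869547) (nat_lit 546952) (nat_lit 42583115) (nat_lit 3306395) [(nat_lit 546952), (nat_lit 1732263), (nat_lit 3780251), (nat_lit 9100367)]) (PF.cons (PF.leaf (nat_lit 8205724) (nat_lit 552582) (nat_lit 42048052) (nat_lit 3307379) [(nat_lit 552582), (nat_lit 1738219), (nat_lit 3779043), (nat_lit 9061109)]) (PF.cons PF.nil PF.nil))))) (PF.cons (PF.cons (PF.leaf (nat_lit 7984763) (nat_lit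 1732321) (nat_lit 42010198) (nat_lit 3301613) [(nat_lit 0), (nat_lit 1732321), (nat_lit 3773239), (nat_lit 9053558)]) (PF.cons (PF.leaf (nat_lit 8314835) (nat_lit 552127) (nat_lit 41487903) (nat_lit 3301454) [(nat_lit 552127), (nat_lit 1737509), (nat_lit 3770824), (nat_lit 9013148)]) (PF.cons PF.nil (PF.cons PF.nil PF.nil)))) (PF.cons (PF.cons (PF.leaf (nat_lit 8751780) (nat_lit 1739777) (nat_lit 40423716) (nat_lit 3292161)
 [(nat_lit 0), (nat_lit 1739777), (nat_lit 3756757), (nat_lit 8920308)]) (PF.cons PF.nil PF.nil)) (PF.cons PF.nil PF.nil)))))) (PF.cons (PF.cons (PF.cons (PF.leaf (nat_lit 6977289) (nat_lit 3280759) (nat_lit 43416101) (nat_lit 3280759) [(nat_lit 0), (nat_lit 0), (nat_lit 3757923), (nat_lit 9138181)]) (PF.cons (PF.leaf (nat_lit 7291052) (nat_lit 529379) (nat_lit 42909456) (nat_lit 3284920) [(nat_lit 529379), (nat_lit 0), (nat_lit 3760057), (nat_lit 9104884)]) (PF.cons (PF.leaf (nat_lit 7612275) (nat_lit 536650) (nat_lit 42396285) (nat_lit 3287753)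 [(nat_lit 536650), (nat_lit 0), (nat_lit 3760776), (nat_lit 9069143)]) (PF.cons (PF.leaf (nat_lit 7939148) (nat_lit 543058) (nat_lit 41879036) (nat_lit 3289257) [(nat_lit 543058), (nat_lit 0), (nat_lit 3760082), (nat_lit 9031096)]) (PF.cons (PF.leaf (nat_lit 8270461) (nat_lit 548709) (nat_lit 41359655) (nat_lit 3289451) [(nat_lit 548709), (nat_lit 0), (nat_lit 3757995), (nat_lit 8990880)]) PF.nil))))) (PF.cons (PF.cons (PF.leaf (nat_lit 7731175) (nat_lit 1717049) (nat_lit 41824050) (nat_lit 3283289) [(nat_lit 0), (nat_lit 1717049), (nat_lit 3754054), (nat_lit 9022259)]) (PF.cons (PF.leaf (nat_lit 8051506) (nat_lit 542529) (nat_lit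
 41320085) (nat_lit 3283651) [(nat_lit 542529), (nat_lit 1722885), (nat_lit 3752163), (nat_lit 8983171)]) (PF.cons (PF.leaf (nat_lit 8377047) (nat_lit 548072) (nat_lit 40813259) (nat_lit 3282785) [(nat_lit 548072), (nat_lit 1727756), (nat_lit 3748964), (nat_lit 8941974)]) (PF.cons PF.nil PF.nil)))) (PF.cons (PF.cons (PF.leaf (nat_lit 8483334) (nat_lit 1726037) (nat_lit 40273027) (nat_lit 3275207) [(nat_lit 0), (nat_lit 1726037), (nat_lit 3738940), (nat_lit 8891680)]) (PF.cons (PF.leaf (nat_lit 8806667) (nat_lit 551885) (nat_lit 39777624) (nat_lit 3272239) [(nat_lit 551885), (nat_lit 1729354), (nat_lit 3733521), (nat_lit 8847791)]) PF.nil)) (PF.cons PF.nil (PF.cons PF.nil PF.nil))))) (PF.cons (PF.cons (PF.cons (PF.leaf (nat_lit 8225981) (nat_lit 3257689) (nat_lit 40107165) (nat_lit 3257689) [(nat_lit 0), (nat_lit 0), (nat_lit 3720568), (nat_lit 8861683)]) (PF.cons (PF.leaf (nat_lit 8540324) (nat_lit 542670) (nat_lit 39628577) (nat_lit 3255307) [(nat_lit 542670), (nat_lit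 0), (nat_lit 3715752), (nat_lit 8819249)]) (PF.cons (PF.leaf (nat_lit 8859364) (nat_lit 547511) (nat_lit 39147844) (nat_lit 3251838) [(nat_lit 547511), (nat_lit 0), (nat_lit 3709781), (nat_lit 8774979)]) (PF.cons
 PF.nil PF.nil)))) (PF.cons (PF.cons (PF.leaf (nat_lit 8957417) (nat_lit 1715446) (nat_lit 38639160) (nat_lit 3242088) [(nat_lit 0), (nat_lit 1715446), (nat_lit 3697437), (nat_lit 8722369)]) (PF.cons PF.nil PF.nil)) (PF.cons PF.nil PF.nil))) (PF.cons (PF.cons (PF.cons (PF.leaf (nat_lit 9408635) (nat_lit 3203864) (nat_lit 37103723) (nat_lit 3203864) [(nat_lit 0), (nat_lit 0), (nat_lit 3650515), (nat_lit 8548648)]) (PF.cons PF.nil PF.nil)) (PF.cons PF.nil PF.nil)) (PF.cons PF.nil (PF.cons PF.nil PF.nil)))))))) (PF.cons (PF.cons (PF.cons (PF.cons (PF.leaf (nat_lit 5285760) (nat_lit 3156037) (nat_lit 45636478) (nat_lit 3156037) [(nat_lit 0), (nat_lit 0), (nat_lit 0), (nat_lit 9158148)]) (PF.cons (PF.leaf (nat_lit 5559386) (nat_lit 466896) (nat_lit 45189127) (nat_lit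 3170921) [(nat_lit 466896), (nat_lit 0), (nat_lit 0), (nat_lit 9140933)]) (PF.cons (PF.leaf (nat_lit 5847986) (nat_lit 480032) (nat_lit 44722194) (nat_lit 3184558) [(nat_lit 480032), (nat_lit 0), (nat_lit 0), (nat_lit 9120997)]) (PF.cons (PF.leaf (nat_lit 6148356) (nat_lit 491611) (nat_lit 44240471) (nat_lit 3196759) [(nat_lit 491611), (nat_lit 0), (nat_lit 0), (nat_lit 9098372)]) (PF.cons (PF.leaf (nat_lit 6458414)
 (nat_lit 501895) (nat_lit 43747591) (nat_lit 3207423) [(nat_lit 501895), (nat_lit 0), (nat_lit 0), (nat_lit 9073109)]) (PF.cons (PF.leaf (nat_lit 6776479) (nat_lit 511068) (nat_lit 43246425) (nat_lit 3216503) [(nat_lit 511068), (nat_lit 0), (nat_lit 0), (nat_lit 9045271)]) (PF.cons (PF.leaf (nat_lit 7101163) (nat_lit 519271) (nat_lit 42739311) (nat_lit 3223989) [(nat_lit 519271), (nat_lit 0), (nat_lit 0), (nat_lit 9014941)]) (PF.cons (PF.leaf (nat_lit 7431287) (nat_lit 526614) (nat_lit 42228190) (nat_lit 3229899) [(nat_lit 526614), (nat_lit 0), (nat_lit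 0), (nat_lit 8982211)]) (PF.cons PF.nil (PF.cons PF.nil PF.nil)))))))))) (PF.cons (PF.cons (PF.leaf (nat_lit 5993556) (nat_lit 1625006) (nat_lit 44119043) (nat_lit 3190958) [(nat_lit 0), (nat_lit 1625006), (nat_lit 0), (nat_lit 9086901)]) (PF.cons (PF.leaf (nat_lit 6286240) (nat_lit 493032) (nat_lit 43650607) (nat_lit 3201217) [(nat_lit 493032), (nat_lit 1638845), (nat_lit 0), (nat_lit 9062555)]) (PF.cons (PF.leaf (nat_lit 6589843) (nat_lit 503153) (nat_lit 43169789) (nat_lit 3210096) [(nat_lit 503153), (nat_lit 1651411), (nat_lit 0), (nat_lit 9035603)]) (PF.cons (PF.leaf (nat_lit 6902038) (nat_lit 512128) (nat_lit 42679912)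
 (nat_lit 3217530) [(nat_lit 512128), (nat_lit 1662704), (nat_lit 0), (nat_lit 9006140)]) (PF.cons (PF.leaf (nat_lit 7221259) (nat_lit 520115) (nat_lit 42183583) (nat_lit 3223493) [(nat_lit 520115), (nat_lit 1672750), (nat_lit 0), (nat_lit 8974262)]) (PF.cons (PF.leaf (nat_lit 7546210) (nat_lit 527234) (nat_lit 41682909) (nat_lit 3227992) [(nat_lit 527234), (nat_lit 1681590), (nat_lit 0), (nat_lit 8940074)]) (PF.cons (PF.leaf (nat_lit 7875791) (nat_lit 533580) (nat_lit 41179630) (nat_lit 3231050) [(nat_lit 533580), (nat_lit 1689271), (nat_lit 0), (nat_lit 8903688)]) (PF.cons PF.nil (PF.cons PF.nil PF.nil))))))))) (PF.cons (PF.cons (PF.leaf (nat_lit 6721978) (nat_lit 1655695) (nat_lit 42594641) (nat_lit 3211293) [(nat_lit 0), (nat_lit 1655695), (nat_lit 0), (nat_lit 8995743)]) (PF.cons (PF.leaf (nat_lit 7027299) (nat_lit 512705) (nat_lit 42117328) (nat_lit 3217196) [(nat_lit 512705), (nat_lit 1665890), (nat_lit 0), (nat_lit 8964901)]) (PF.cons (PF.leaf (nat_lit 7340580)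 (nat_lit 520540) (nat_lit 41632718) (nat_lit 3221745) [(nat_lit 520540), (nat_lit 1674938), (nat_lit 0), (nat_lit 8931695)]) (PF.cons (PF.leaf (nat_lit 7660017) (nat_lit 527487) (nat_lit 41143187) (nat_lit 3224935)
 [(nat_lit 527487), (nat_lit 1682865), (nat_lit 0), (nat_lit 8896248)]) (PF.cons (PF.leaf (nat_lit 7984397) (nat_lit 533651) (nat_lit 40650645) (nat_lit 3226781) [(nat_lit 533651), (nat_lit 1689708), (nat_lit 0), (nat_lit 8858681)]) (PF.cons (PF.leaf (nat_lit 8312702) (nat_lit 539117) (nat_lit 40156658) (nat_lit 3227314) [(nat_lit 539117), (nat_lit 1695510), (nat_lit 0), (nat_lit 8819116)]) (PF.cons PF.nil PF.nil))))))) (PF.cons (PF.cons (PF.leaf (nat_lit 7460003) (nat_lit 1676380) (nat_lit 41086242) (nat_lit 3218816) [(nat_lit 0), (nat_lit 1676380), (nat_lit 0), (nat_lit 8887305)]) (PF.cons (PF.leaf (nat_lit 7773159) (nat_lit 527369) (nat_lit 40608676) (nat_lit 3220795) [(nat_lit 527369), (nat_lit 1683453), (nat_lit 0), (nat_lit 8850805)]) (PF.cons (PF.leaf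 (nat_lit 8092013) (nat_lit 533397) (nat_lit 40127472) (nat_lit 3221519) [(nat_lit 533397), (nat_lit 1689513), (nat_lit 0), (nat_lit 8812243)]) (PF.cons (PF.leaf (nat_lit 8415117) (nat_lit 538715) (nat_lit 39644367) (nat_lit 3221014) [(nat_lit 538715), (nat_lit 1694595), (nat_lit 0), (nat_lit 8771749)]) (PF.cons PF.nil PF.nil))))) (PF.cons (PF.cons (PF.leaf (nat_lit 8199363) (nat_lit 1688722) (nat_lit 39609734) (nat_lit 3215320)
 [(nat_lit 0), (nat_lit 1688722), (nat_lit 0), (nat_lit 8764433)]) (PF.cons (PF.leaf (nat_lit 8516664) (nat_lit 538023) (nat_lit 39138032) (nat_lit 3213859) [(nat_lit 538023), (nat_lit 1693132), (nat_lit 0), (nat_lit 8723183)]) (PF.cons (PF.leaf (nat_lit 8837915) (nat_lit 542588) (nat_lit 38665349) (nat_lit 3211276) [(nat_lit 542588), (nat_lit 1696658), (nat_lit 0), (nat_lit 8680187)]) (PF.cons PF.nil PF.nil)))) (PF.cons (PF.cons (PF.leaf (nat_lit 8933832) (nat_lit 1694104) (nat_lit 38175938) (nat_lit 3202501) [(nat_lit 0), (nat_lit 1694104),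 (nat_lit 0), (nat_lit 8629924)]) (PF.cons PF.nil PF.nil)) (PF.cons PF.nil (PF.cons PF.nil PF.nil)))))))) (PF.cons (PF.cons (PF.cons (PF.leaf (nat_lit 6513464) (nat_lit 3190330) (nat_lit 42337881) (nat_lit 3190330) [(nat_lit 0), (nat_lit 0), (nat_lit 3660479), (nat_lit 8960061)]) (PF.cons (PF.leaf (nat_lit 6804128) (nat_lit 499202) (nat_lit 41886855) (nat_lit 3196673) [(nat_lit 499202), (nat_lit 0), (nat_lit 3664789), (nat_lit 8930645)]) (PF.cons (PF.leaf (nat_lit 7104877) (nat_lit 508331) (nat_lit 41425029) (nat_lit 3201746) [(nat_lit 508331), (nat_lit 0), (nat_lit 3667763), (nat_lit 8898805)]) (PF.cons (PF.leaf (nat_lit 7413388) (nat_lit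
 516346) (nat_lit 40955534) (nat_lit 3205511) [(nat_lit 516346), (nat_lit 0), (nat_lit 3669366), (nat_lit 8864679)]) (PF.cons (PF.leaf (nat_lit 7728162) (nat_lit 523412) (nat_lit 40480800) (nat_lit 3207965) [(nat_lit 523412), (nat_lit 0), (nat_lit 3669595), (nat_lit 8828401)]) (PF.cons (PF.leaf (nat_lit 8047990) (nat_lit 529651) (nat_lit 40002769) (nat_lit 3209125) [(nat_lit 529651), (nat_lit 0), (nat_lit 3668468), (nat_lit 8790096)]) (PF.cons (PF.leaf (nat_lit 8371821) (nat_lit 535160) (nat_lit 39523030) (nat_lit 3209021) [(nat_lit 535160), (nat_lit 0), (nat_lit 3666017), (nat_lit 8749889)]) (PF.cons PF.nil (PF.cons PF.nil PF.nil))))))))) (PF.cons (PF.cons (PF.leaf (nat_lit 7228707) (nat_lit 1659249) (nat_lit 40878798) (nat_lit 3199230) [(nat_lit 0), (nat_lit 1659249), (nat_lit 3663028), (nat_lit 8854253)]) (PF.cons (PF.leaf (nat_lit 7530284) (nat_lit 516131) (nat_lit 40421992) (nat_lit 3201768) [(nat_lit 516131), (nat_lit 1667132), (nat_lit 3663370), (nat_lit 8819208)])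 (PF.cons (PF.leaf (nat_lit 7839085) (nat_lit 523106) (nat_lit 39959041) (nat_lit 3203089) [(nat_lit 523106), (nat_lit 1673967), (nat_lit 3662427), (nat_lit 8782036)]) (PF.cons (PF.leaf (nat_lit 8153400) (nat_lit
 529230) (nat_lit 39492157) (nat_lit 3203200) [(nat_lit 529230), (nat_lit 1679787), (nat_lit 3660213), (nat_lit 8742881)]) (PF.cons (PF.leaf (nat_lit 8472060) (nat_lit 534609) (nat_lit 39023097) (nat_lit 3202127) [(nat_lit 534609), (nat_lit 1684632), (nat_lit 3656754), (nat_lit 8701881)]) (PF.cons PF.nil (PF.cons PF.nil PF.nil))))))) (PF.cons (PF.cons (PF.leaf (nat_lit 7950326) (nat_lit 1673514) (nat_lit 39441863) (nat_lit 3197249) [(nat_lit 0), (nat_lit 1673514), (nat_lit 3654216), (nat_lit 8734227)]) (PF.cons (PF.leaf (nat_lit 8258376) (nat_lit 528481) (nat_lit 38986834) (nat_lit 3196396) [(nat_lit 528481), (nat_lit 1678636), (nat_lit 3651008), (nat_lit 8694408)]) (PF.cons (PF.leaf (nat_lit 8571557) (nat_lit 533774) (nat_lit 38528961) (nat_lit 3194432) [(nat_lit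 533774), (nat_lit 1682842), (nat_lit 3646628), (nat_lit 8652778)]) (PF.cons (PF.leaf (nat_lit 8888471) (nat_lit 538391) (nat_lit 38069842) (nat_lit 3191387) [(nat_lit 538391), (nat_lit 1686170), (nat_lit 3641109), (nat_lit 8609478)]) (PF.cons PF.nil PF.nil))))) (PF.cons (PF.cons (PF.leaf (nat_lit 8671016) (nat_lit 1680564) (nat_lit 38040220) (nat_lit 3185978) [(nat_lit 0), (nat_lit 1680564), (nat_lit 3635681), (nat_lit
 8602619)]) (PF.cons (PF.leaf (nat_lit 8982212) (nat_lit 537200) (nat_lit 37592232) (nat_lit 3182179) [(nat_lit 537200), (nat_lit 1683346), (nat_lit 3629388), (nat_lit 8558886)]) (PF.cons PF.nil (PF.cons PF.nil PF.nil)))) (PF.cons (PF.cons (PF.leaf (nat_lit 9385360) (nat_lit 1681624) (nat_lit 36682580) (nat_lit 3166901) [(nat_lit 0), (nat_lit 1681624), (nat_lit 3608985), (nat_lit 8461923)]) (PF.cons PF.nil PF.nil)) (PF.cons PF.nil PF.nil)))))) (PF.cons (PF.cons (PF.cons (PF.leaf (nat_lit 7714233) (nat_lit 3178506) (nat_lit 39256111) (nat_lit 3178506)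 [(nat_lit 0), (nat_lit 0), (nat_lit 3634699), (nat_lit 8702397)]) (PF.cons (PF.leaf (nat_lit 8011494) (nat_lit 517703) (nat_lit 38820197) (nat_lit 3178285) [(nat_lit 517703), (nat_lit 0), (nat_lit 3632128), (nat_lit 8664184)]) (PF.cons (PF.leaf (nat_lit 8315385) (nat_lit 523928) (nat_lit 38379071) (nat_lit 3176967) [(nat_lit 523928), (nat_lit 0), (nat_lit 3628401), (nat_lit 8624057)]) (PF.cons (PF.leaf (nat_lit 8624232) (nat_lit 529335) (nat_lit 37934788) (nat_lit 3174571) [(nat_lit 529335), (nat_lit 0), (nat_lit 3623543), (nat_lit 8582179)]) (PF.cons (PF.leaf (nat_lit 8936918) (nat_lit 534035) (nat_lit 37488969) (nat_lit 3171130)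
 [(nat_lit 534035), (nat_lit 0), (nat_lit 3617589), (nat_lit 8538695)]) PF.nil))))) (PF.cons (PF.cons (PF.leaf (nat_lit 8418978) (nat_lit 1666179) (nat_lit 37890456) (nat_lit 3168839) [(nat_lit 0), (nat_lit 1666179), (nat_lit 3617759), (nat_lit 8573909)]) (PF.cons (PF.leaf (nat_lit 8721624) (nat_lit 528075) (nat_lit 37457759) (nat_lit 3165683) [(nat_lit 528075), (nat_lit 1669669), (nat_lit 3612128), (nat_lit 8531683)]) (PF.cons (PF.leaf (nat_lit 9028914) (nat_lit 532729) (nat_lit 37022835) (nat_lit 3161540) [(nat_lit 532729), (nat_lit 1672328), (nat_lit 3605457), (nat_lit 8487866)]) (PF.cons PF.nil PF.nil)))) (PF.cons (PF.cons (PF.leaf (nat_lit 9121084) (nat_lit 1668862) (nat_lit 36561949) (nat_lit 3151336) [(nat_lit 0), (nat_lit 1668862), (nat_lit 3592665), (nat_lit 8436234)]) (PF.cons (PF.leaf (nat_lit 9426069) (nat_lit 535148) (nat_lit 36137023) (nat_lit 3145654) [(nat_lit 535148), (nat_lit 1670291), (nat_lit 3584401), (nat_lit 8390800)]) PF.nil)) (PF.cons PF.nil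 (PF.cons PF.nil PF.nil))))) (PF.cons (PF.cons (PF.cons (PF.leaf (nat_lit 8867105) (nat_lit 3135144) (nat_lit 36428274) (nat_lit 3135144) [(nat_lit 0), (nat_lit 0), (nat_lit 3575718), (nat_lit 8409118)]) (PF.cons
 (PF.leaf (nat_lit 9164150) (nat_lit 526432) (nat_lit 36017371) (nat_lit 3130124) [(nat_lit 526432), (nat_lit 0), (nat_lit 3568142), (nat_lit 8365228)]) (PF.cons (PF.leaf (nat_lit 9465442) (nat_lit 530532) (nat_lit 35604720) (nat_lit 3124225) [(nat_lit 530532), (nat_lit 0), (nat_lit 3559642), (nat_lit 8319937)]) (PF.cons PF.nil PF.nil)))) (PF.cons (PF.cons (PF.leaf (nat_lit 9550896) (nat_lit 1654371) (nat_lit 35170350) (nat_lit 3112680) [(nat_lit 0), (nat_lit 1654371), (nat_lit 3545453), (nat_lit 8267525)]) (PF.cons PF.nil PF.nil)) (PF.cons PF.nil PF.nil))) (PF.cons (PF.cons (PF.cons (PF.leaf (nat_lit 9961782) (nat_lit 3071046) (nat_lit 33860551) (nat_lit 3071046) [(nat_lit 0), (nat_lit 0), (nat_lit 3495182), (nat_lit 8098242)]) (PF.cons PF.nil PF.nil)) (PF.cons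 PF.nil PF.nil)) (PF.cons PF.nil PF.nil)))))) (PF.cons (PF.cons (PF.cons (PF.cons (PF.leaf (nat_lit 7243547) (nat_lit 3095884) (nat_lit 38388837) (nat_lit 3095884) [(nat_lit 0), (nat_lit 0), (nat_lit 0), (nat_lit 8541363)]) (PF.cons (PF.leaf (nat_lit 7520764) (nat_lit 489517) (nat_lit 37998352) (nat_lit 3098082) [(nat_lit 489517), (nat_lit 0), (nat_lit 0), (nat_lit 8507620)]) (PF.cons (PF.leaf (nat_lit 7807103) (nat_lit
 497603) (nat_lit 37598943) (nat_lit 3099166) [(nat_lit 497603), (nat_lit 0), (nat_lit 0), (nat_lit 8471832)]) (PF.cons (PF.leaf (nat_lit 8100368) (nat_lit 504612) (nat_lit 37193283) (nat_lit 3099135) [(nat_lit 504612), (nat_lit 0), (nat_lit 0), (nat_lit 8434185)]) (PF.cons (PF.leaf (nat_lit 8399153) (nat_lit 510714) (nat_lit 36783431) (nat_lit 3098009) [(nat_lit 510714), (nat_lit 0), (nat_lit 0), (nat_lit 8394837)]) (PF.cons (PF.leaf (nat_lit 8702308) (nat_lit 516037) (nat_lit 36371018) (nat_lit 3095819) [(nat_lit 516037), (nat_lit 0), (nat_lit 0), (nat_lit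 8353929)]) (PF.cons PF.nil PF.nil))))))) (PF.cons (PF.cons (PF.leaf (nat_lit 7916883) (nat_lit 1613497) (nat_lit 37129971) (nat_lit 3092918) [(nat_lit 0), (nat_lit 1613497), (nat_lit 0), (nat_lit 8424141)]) (PF.cons (PF.leaf (nat_lit 8203450) (nat_lit 503643) (nat_lit 36735499) (nat_lit 3092031) [(nat_lit 503643), (nat_lit 1619047), (nat_lit 0), (nat_lit 8386197)]) (PF.cons (PF.leaf (nat_lit 8496540) (nat_lit 509716) (nat_lit 36335990) (nat_lit 3090117) [(nat_lit 509716), (nat_lit 1623659), (nat_lit 0), (nat_lit 8346537)]) (PF.cons (PF.leaf (nat_lit 8794485) (nat_lit 514979) (nat_lit 35933312) (nat_lit 3087202) [(nat_lit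
 514979), (nat_lit 1627378), (nat_lit 0), (nat_lit 8305326)]) (PF.cons (PF.leaf (nat_lit 9096259) (nat_lit 519545) (nat_lit 35528942) (nat_lit 3083322) [(nat_lit 519545), (nat_lit 1630250), (nat_lit 0), (nat_lit 8262704)]) PF.nil))))) (PF.cons (PF.cons (PF.leaf (nat_lit 8594604) (nat_lit 1621373) (nat_lit 35892511) (nat_lit 3081548) [(nat_lit 0), (nat_lit 1621373), (nat_lit 0), (nat_lit 8297334)]) (PF.cons (PF.leaf (nat_lit 8886609) (nat_lit 513651) (nat_lit 35500131) (nat_lit 3077976) [(nat_lit 513651), (nat_lit 1624576), (nat_lit 0), (nat_lit 8255966)]) (PF.cons (PF.leaf (nat_lit 9183239) (nat_lit 518181) (nat_lit 35105436) (nat_lit 3073490) [(nat_lit 518181), (nat_lit 1626979), (nat_lit 0), (nat_lit 8213187)]) (PF.cons PF.nil PF.nil)))) (PF.cons (PF.cons (PF.leaf (nat_lit 9270571) (nat_lit 1623355) (nat_lit 34686470) (nat_lit 3063134) [(nat_lit 0), (nat_lit 1623355), (nat_lit 0), (nat_lit 8163047)]) (PF.cons (PF.leaf (nat_lit 9565126) (nat_lit 520458) (nat_lit 34300350)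 (nat_lit 3057269) [(nat_lit 520458), (nat_lit 1624605), (nat_lit 0), (nat_lit 8118972)]) PF.nil)) (PF.cons PF.nil PF.nil))))) (PF.cons (PF.cons (PF.cons (PF.leaf (nat_lit 8360238) (nat_lit 3064070) (nat_lit
 35741190) (nat_lit 3064070) [(nat_lit 0), (nat_lit 0), (nat_lit 3498777), (nat_lit 8268258)]) (PF.cons (PF.leaf (nat_lit 8642555) (nat_lit 503408) (nat_lit 35364890) (nat_lit 3061225) [(nat_lit 503408), (nat_lit 0), (nat_lit 3493472), (nat_lit 8228605)]) (PF.cons (PF.leaf (nat_lit 8930923) (nat_lit 508863) (nat_lit 34984234) (nat_lit 3057452) [(nat_lit 508863), (nat_lit 0), (nat_lit 3487200), (nat_lit 8187400)]) (PF.cons (PF.leaf (nat_lit 9223706) (nat_lit 513544) (nat_lit 34600960) (nat_lit 3052783) [(nat_lit 513544), (nat_lit 0), (nat_lit 3479997), (nat_lit 8144812)]) (PF.cons PF.nil PF.nil))))) (PF.cons (PF.cons (PF.leaf (nat_lit 9022576) (nat_lit 1609990) (nat_lit 34564986) (nat_lit 3047399) [(nat_lit 0), (nat_lit 1609990), (nat_lit 3474580), (nat_lit 8137285)])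 (PF.cons (PF.leaf (nat_lit 9309510) (nat_lit 511850) (nat_lit 34191677) (nat_lit 3042220) [(nat_lit 511850), (nat_lit 1611960), (nat_lit 3466877), (nat_lit 8094742)]) (PF.cons (PF.leaf (nat_lit 9600668) (nat_lit 515864) (nat_lit 33816484) (nat_lit 3036224) [(nat_lit 515864), (nat_lit 1613204), (nat_lit 3458324), (nat_lit 8050948)]) (PF.cons PF.nil PF.nil)))) (PF.cons (PF.cons (PF.leaf (nat_lit 9681966) (nat_lit
 1608771) (nat_lit 33420882) (nat_lit 3024766) [(nat_lit 0), (nat_lit 1608771), (nat_lit 3444289), (nat_lit 8000444)]) (PF.cons PF.nil PF.nil)) PF.nil))) (PF.cons (PF.cons (PF.cons (PF.leaf (nat_lit 9433199) (nat_lit 3009994) (nat_lit 33312178) (nat_lit 3009994) [(nat_lit 0), (nat_lit 0), (nat_lit 3428870), (nat_lit 7976299)]) (PF.cons (PF.leaf (nat_lit 9714956) (nat_lit 509173) (nat_lit 32957273) (nat_lit 3003517) [(nat_lit 509173), (nat_lit 0), (nat_lit 3419846), (nat_lit 7933051)]) (PF.cons PF.nil PF.nil))) (PF.cons (PF.cons (PF.leaf (nat_lit 10076343) (nat_lit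 1592353) (nat_lit 32227321) (nat_lit 2984024) [(nat_lit 0), (nat_lit 1592353), (nat_lit 3395194), (nat_lit 7838241)]) PF.nil) PF.nil)) (PF.cons PF.nil (PF.cons PF.nil PF.nil))))) (PF.cons (PF.cons (PF.cons (PF.cons (PF.leaf (nat_lit 8936176) (nat_lit 2946641) (nat_lit 32751411) (nat_lit 2946641) [(nat_lit 0), (nat_lit 0), (nat_lit 0), (nat_lit 7852689)]) (PF.cons (PF.leaf (nat_lit 9205017) (nat_lit 488015) (nat_lit 32424782) (nat_lit 2942241) [(nat_lit 488015), (nat_lit 0), (nat_lit 0), (nat_lit 7813443)]) (PF.cons (PF.leaf (nat_lit 9479464) (nat_lit 492882) (nat_lit 32094396) (nat_lit 2937041) [(nat_lit 492882), (nat_lit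
 0), (nat_lit 0), (nat_lit 7772902)]) (PF.cons (PF.leaf (nat_lit 9757933) (nat_lit 497019) (nat_lit 31761739) (nat_lit 2931082) [(nat_lit 497019), (nat_lit 0), (nat_lit 0), (nat_lit 7731233)]) (PF.cons PF.nil PF.nil))))) (PF.cons (PF.cons (PF.leaf (nat_lit 9561647) (nat_lit 1552502) (nat_lit 31732328) (nat_lit 2926082) [(nat_lit 0), (nat_lit 1552502), (nat_lit 0), (nat_lit 7724474)]) (PF.cons (PF.leaf (nat_lit 9834580) (nat_lit 495075) (nat_lit 31408211) (nat_lit 2919778) [(nat_lit 495075), (nat_lit 1553474), (nat_lit 0), (nat_lit 7683068)]) (PF.cons PF.nil (PF.cons PF.nil PF.nil)))) (PF.cons (PF.cons (PF.leaf (nat_lit 10184154) (nat_lit 1548866) (nat_lit 30740425) (nat_lit 2900861) [(nat_lit 0), (nat_lit 1548866), (nat_lit 0), (nat_lit 7592448)]) (PF.cons PF.nil PF.nil)) PF.nil))) (PF.cons (PF.cons (PF.cons (PF.leaf (nat_lit 9941539) (nat_lit 2887463) (nat_lit 30651201) (nat_lit 2887463) [(nat_lit 0), (nat_lit 0), (nat_lit 3285790), (nat_lit 7571089)]) (PF.cons (PF.leaf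 (nat_lit 10209704) (nat_lit 491817) (nat_lit 30342548) (nat_lit 2880235) [(nat_lit 491817), (nat_lit 0), (nat_lit 3276092), (nat_lit 7529529)]) PF.nil)) (PF.cons PF.nil PF.nil)) (PF.cons PF.nil PF.nil))) (PF.cons
 (PF.cons (PF.cons (PF.cons (PF.leaf (nat_lit 10404342) (nat_lit 2770132) (nat_lit 28359812) (nat_lit 2770132) [(nat_lit 0), (nat_lit 0), (nat_lit 0), (nat_lit 7195773)]) (PF.cons PF.nil PF.nil)) (PF.cons PF.nil PF.nil)) (PF.cons PF.nil PF.nil)) (PF.cons PF.nil (PF.cons PF.nil (PF.cons PF.nil PF.nil)))))))))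

def p14_14_0_0 : pfC (piC [(nat_lit 38167130), (nat_lit 25010362), (nat_lit 18643303), (nat_lit 12552662)] (nat_lit 22633645)) p14_14_0 (nat_lit 4) (nat_lit 0) (nat_lit 1) = true := by decide +kernel
def p14_14_0_1 : pfC (piC [(nat_lit 38167130), (nat_lit 25010362), (nat_lit 18643303), (nat_lit 12552662)] (nat_lit 22633645)) p14_14_0 (nat_lit 4) (nat_lit 1) (nat_lit 2) = true := by decide +kernel
def p14_14_0_2 : pfC (piC [(nat_lit 38167130), (nat_lit 25010362), (nat_lit 18643303), (nat_lit 12552662)] (nat_lit 22633645)) p14_14_0 (nat_lit 4) (nat_lit 2) (nat_lit 3) = true := by decide +kernel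
def p14_14_0_3 : pfC (piC [(nat_lit 38167130), (nat_lit 25010362), (nat_lit 18643303), (nat_lit 12552662)] (nat_lit 22633645)) p14_14_0 (nat_lit 4) (nat_lit 3) (nat_lit 4) = true := by decide +kernel
def p14_14_0_4 : pfC (piC [(nat_lit 38167130), (nat_lit 25010362), (nat_lit 18643303), (nat_lit 12552662)] (nat_lit 22633645)) p14_14_0 (nat_lit 4) (nat_lit 4) (nat_lit 5) = true := by decide +kernel
def p14_14_0_5 : pfC (piC [(nat_lit 38167130), (nat_lit 25010362), (nat_lit 18643303), (nat_lit 12552662)] (nat_lit 22633645)) p14_14_0 (nat_lit 4) (nat_lit 5) (nat_lit 6) = true := by decide +kernel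
def p14_14_0_6 : pfC (piC [(nat_lit 38167130), (nat_lit 25010362), (nat_lit 18643303), (nat_lit 12552662)] (nat_lit 22633645)) p14_14_0 (nat_lit 4) (nat_lit 6) (nat_lit 7) = true := by decide +kernel
def p14_14_0_7 : pfC (piC [(nat_lit 38167130), (nat_lit 25010362), (nat_lit 18643303), (nat_lit 12552662)] (nat_lit 22633645)) p14_14_0 (nat_lit 4) (nat_lit 7) (nat_lit 8) = true := by decide +kernel
def p14_14_0_8 : pfC (piC [(nat_lit 38167130), (nat_lit 25010362), (nat_lit 18643303), (nat_lit 12552662)] (nat_lit 22633645)) p14_14_0 (nat_lit 4) (nat_lit 8) (nat_lit 9) = true := by decide +kernel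
def p14_14_0_9 : pfC (piC [(nat_lit 38167130), (nat_lit 25010362), (nat_lit 18643303), (nat_lit 12552662)] (nat_lit 22633645)) p14_14_0 (nat_lit 4) (nat_lit 9) (nat_lit 10) = true := by decide +kernel
def p14_14_0_10 : pfC (piC [(nat_lit 38167130), (nat_lit 25010362), (nat_lit 18643303), (nat_lit 12552662)] (nat_lit 22633645)) p14_14_0 (nat_lit 4) (nat_lit 10) (nat_lit 11) = true := by decide +kernel
def p14_14_0_11 : pfC (piC [(nat_lit 38167130), (nat_lit 25010362), (nat_lit 18643303), (nat_lit 12552662)] (nat_lit 22633645)) p14_14_0 (nat_lit 4) (nat_lit 11) (nat_lit 12) = true := by decide +kernel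
def p14_14_0_12 : pfC (piC [(nat_lit 38167130), (nat_lit 25010362), (nat_lit 18643303), (nat_lit 12552662)] (nat_lit 22633645)) p14_14_0 (nat_lit 4) (nat_lit 12) (nat_lit 13) = true := by decide +kernel
def p14_14_0_13 : pfC (piC [(nat_lit 38167130), (nat_lit 25010362), (nat_lit 18643303), (nat_lit 12552662)] (nat_lit 22633645)) p14_14_0 (nat_lit 4) (nat_lit 13) (nat_lit 14) = true := by decide +kernel
def p14_14_0_14 : pfC (piC [(nat_lit 38167130), (nat_lit 25010362), (nat_lit 18643303), (nat_lit 12552662)] (nat_lit 22633645)) p14_14_0 (nat_lit 4) (nat_lit 14) (nat_lit 15) = true := by decide +kernel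
def p14_14_0_15 : pfC (piC [(nat_lit 38167130), (nat_lit 25010362), (nat_lit 18643303), (nat_lit 12552662)] (nat_lit 22633645)) p14_14_0 (nat_lit 4) (nat_lit 15) (nat_lit 16) = true := by decide +kernel
def p14_14_0_16 : pfC (piC [(nat_lit 38167130), (nat_lit 25010362), (nat_lit 18643303), (nat_lit 12552662)] (nat_lit 22633645)) p14_14_0 (nat_lit 4) (nat_lit 16) (nat_lit 17) = true := by decide +kernel
def p14_14_0_17 : pfC (piC [(nat_lit 38167130), (nat_lit 25010362), (nat_lit 18643303), (nat_lit 12552662)] (nat_lit 22633645)) p14_14_0 (nat_lit 4) (nat_lit 17) (nat_lit 18) = true := by decide +kernel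
def p14_14_0_18 : pfC (piC [(nat_lit 38167130), (nat_lit 25010362), (nat_lit 18643303), (nat_lit 12552662)] (nat_lit 22633645)) p14_14_0 (nat_lit 4) (nat_lit 18) (nat_lit 19) = true := by decide +kernel
def p14_14_0_19 : pfC (piC [(nat_lit 38167130), (nat_lit 25010362), (nat_lit 18643303), (nat_lit 12552662)] (nat_lit 22633645)) p14_14_0 (nat_lit 4) (nat_lit 19) (nat_lit 20) = true := by decide +kernel
def p14_14_0_20 : pfC (piC [(nat_lit 38167130), (nat_lit 25010362), (nat_lit 18643303), (nat_lit 12552662)] (nat_lit 22633645)) p14_14_0 (nat_lit 4) (nat_lit 20) (nat_lit 21) = true := by decide +kernel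
def p14_14_0_21 : pfC (piC [(nat_lit 38167130), (nat_lit 25010362), (nat_lit 18643303), (nat_lit 12552662)] (nat_lit 22633645)) p14_14_0 (nat_lit 4) (nat_lit 21) (nat_lit 22) = true := by decide +kernel
def p14_14_0_22 : pfC (piC [(nat_lit 38167130), (nat_lit 25010362), (nat_lit 18643303), (nat_lit 12552662)] (nat_lit 22633645)) p14_14_0 (nat_lit 4) (nat_lit 22) (nat_lit 23) = true := by decide +kernel
def p14_14_0_23 : pfC (piC [(nat_lit 38167130), (nat_lit 25010362), (nat_lit 18643303), (nat_lit 12552662)] (nat_lit 22633645)) p14_14_0 (nat_lit 4) (nat_lit 23) (nat_lit 24) = true := by decide +kernel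
def p14_14_0_24 : pfC (piC [(nat_lit 38167130), (nat_lit 25010362), (nat_lit 18643303), (nat_lit 12552662)] (nat_lit 22633645)) p14_14_0 (nat_lit 4) (nat_lit 24) (nat_lit 25) = true := by decide +kernel
def p14_14_0_25 : pfC (piC [(nat_lit 38167130), (nat_lit 25010362), (nat_lit 18643303), (nat_lit 12552662)] (nat_lit 22633645)) p14_14_0 (nat_lit 4) (nat_lit 25) (nat_lit 26) = true := by decide +kernel
def p14_14_0_26 : pfC (piC [(nat_lit 38167130), (nat_lit 25010362), (nat_lit 18643303), (nat_lit 12552662)] (nat_lit 22633645)) p14_14_0 (nat_lit 4) (nat_lit 26) (nat_lit 27) = true := by decide +kernel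
def p14_14_0_27 : pfC (piC [(nat_lit 38167130), (nat_lit 25010362), (nat_lit 18643303), (nat_lit 12552662)] (nat_lit 22633645)) p14_14_0 (nat_lit 4) (nat_lit 27) (nat_lit 28) = true := by decide +kernel
def p14_14_0_28 : pfC (piC [(nat_lit 38167130), (nat_lit 25010362), (nat_lit 18643303), (nat_lit 12552662)] (nat_lit 22633645)) p14_14_0 (nat_lit 4) (nat_lit 28) (nat_lit 29) = true := by decide +kernel
def p14_14_0_29 : pfC (piC [(nat_lit 38167130), (nat_lit 25010362), (nat_lit 18643303), (nat_lit 12552662)] (nat_lit 22633645)) p14_14_0 (nat_lit 4) (nat_lit 29) (nat_lit 30) = true := by decide +kernel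
def p14_14_0_30 : pfC (piC [(nat_lit 38167130), (nat_lit 25010362), (nat_lit 18643303), (nat_lit 12552662)] (nat_lit 22633645)) p14_14_0 (nat_lit 4) (nat_lit 30) (nat_lit 31) = true := by decide +kernel
def p14_14_0_31 : pfC (piC [(nat_lit 38167130), (nat_lit 25010362), (nat_lit 18643303), (nat_lit 12552662)] (nat_lit 22633645)) p14_14_0 (nat_lit 4) (nat_lit 31) (nat_lit 32) = true := by decide +kernel
def p14_14_0_32 : pfC (piC [(nat_lit 38167130), (nat_lit 25010362), (nat_lit 18643303), (nat_lit 12552662)] (nat_lit 22633645)) p14_14_0 (nat_lit 4) (nat_lit 32) (nat_lit 33) = true := by decide +kernel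
def p14_14_0_33 : pfC (piC [(nat_lit 38167130), (nat_lit 25010362), (nat_lit 18643303), (nat_lit 12552662)] (nat_lit 22633645)) p14_14_0 (nat_lit 4) (nat_lit 33) (nat_lit 34) = true := by decide +kernel
def p14_14_0_34 : pfC (piC [(nat_lit 38167130), (nat_lit 25010362), (nat_lit 18643303), (nat_lit 12552662)] (nat_lit 22633645)) p14_14_0 (nat_lit 4) (nat_lit 34) (nat_lit 35) = true := by decide +kernel
def p14_14_0_35 : pfC (piC [(nat_lit 38167130), (nat_lit 25010362), (nat_lit 18643303), (nat_lit 12552662)] (nat_lit 22633645)) p14_14_0 (nat_lit 4) (nat_lit 35) (nat_lit 36) = true := by decide +kernel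
def p14_14_0_36 : pfC (piC [(nat_lit 38167130), (nat_lit 25010362), (nat_lit 18643303), (nat_lit 12552662)] (nat_lit 22633645)) p14_14_0 (nat_lit 4) (nat_lit 36) (nat_lit 37) = true := by decide +kernel
def p14_14_0_37 : pfC (piC [(nat_lit 38167130), (nat_lit 25010362), (nat_lit 18643303), (nat_lit 12552662)] (nat_lit 22633645)) p14_14_0 (nat_lit 4) (nat_lit 37) (nat_lit 38) = true := by decide +kernel
def p14_14_0_38 : pfC (piC [(nat_lit 38167130), (nat_lit 25010362), (nat_lit 18643303), (nat_lit 12552662)] (nat_lit 22633645)) p14_14_0 (nat_lit 4) (nat_lit 38) (nat_lit 39) = true := by decide +kernel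
def p14_14_0_39 : pfC (piC [(nat_lit 38167130), (nat_lit 25010362), (nat_lit 18643303), (nat_lit 12552662)] (nat_lit 22633645)) p14_14_0 (nat_lit 4) (nat_lit 39) (nat_lit 40) = true := by decide +kernel
def p14_14_0_40 : pfC (piC [(nat_lit 38167130), (nat_lit 25010362), (nat_lit 18643303), (nat_lit 12552662)] (nat_lit 22633645)) p14_14_0 (nat_lit 4) (nat_lit 40) (nat_lit 41) = true := by decide +kernel
def p14_14_0_41 : pfC (piC [(nat_lit 38167130), (nat_lit 25010362), (nat_lit 18643303), (nat_lit 12552662)] (nat_lit 22633645)) p14_14_0 (nat_lit 4) (nat_lit 41) (nat_lit 42) = true := by decide +kernel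
def p14_14_0_42 : pfC (piC [(nat_lit 38167130), (nat_lit 25010362), (nat_lit 18643303), (nat_lit 12552662)] (nat_lit 22633645)) p14_14_0 (nat_lit 4) (nat_lit 42) (nat_lit 43) = true := by decide +kernel
def p14_14_0_43 : pfC (piC [(nat_lit 38167130), (nat_lit 25010362), (nat_lit 18643303), (nat_lit 12552662)] (nat_lit 22633645)) p14_14_0 (nat_lit 4) (nat_lit 43) (nat_lit 44) = true := by decide +kernel
def p14_14_0_44 : pfC (piC [(nat_lit 38167130), (nat_lit 25010362), (nat_lit 18643303), (nat_lit 12552662)] (nat_lit 22633645)) p14_14_0 (nat_lit 4) (nat_lit 44) (nat_lit 45) = true := by decide +kernel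
def p14_14_0_45 : pfC (piC [(nat_lit 38167130), (nat_lit 25010362), (nat_lit 18643303), (nat_lit 12552662)] (nat_lit 22633645)) p14_14_0 (nat_lit 4) (nat_lit 45) (nat_lit 46) = true := by decide +kernel
def p14_14_0_46 : pfC (piC [(nat_lit 38167130), (nat_lit 25010362), (nat_lit 18643303), (nat_lit 12552662)] (nat_lit 22633645)) p14_14_0 (nat_lit 4) (nat_lit 46) (nat_lit 47) = true := by decide +kernel
def p14_14_0_47 : pfC (piC [(nat_lit 38167130), (nat_lit 25010362), (nat_lit 18643303), (nat_lit 12552662)] (nat_lit 22633645)) p14_14_0 (nat_lit 4) (nat_lit 47) (nat_lit 48) = true := by decide +kernel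
def p14_14_0_48 : pfC (piC [(nat_lit 38167130), (nat_lit 25010362), (nat_lit 18643303), (nat_lit 12552662)] (nat_lit 22633645)) p14_14_0 (nat_lit 4) (nat_lit 48) (nat_lit 49) = true := by decide +kernel
def p14_14_0_49 : pfC (piC [(nat_lit 38167130), (nat_lit 25010362), (nat_lit 18643303), (nat_lit 12552662)] (nat_lit 22633645)) p14_14_0 (nat_lit 4) (nat_lit 49) (nat_lit 50) = true := by decide +kernel
def p14_14_0_50 : pfC (piC [(nat_lit 38167130), (nat_lit 25010362), (nat_lit 18643303), (nat_lit 12552662)] (nat_lit 22633645)) p14_14_0 (nat_lit 4) (nat_lit 50) (nat_lit 51) = true := by decide +kernel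
def p14_14_0_51 : pfC (piC [(nat_lit 38167130), (nat_lit 25010362), (nat_lit 18643303), (nat_lit 12552662)] (nat_lit 22633645)) p14_14_0 (nat_lit 4) (nat_lit 51) (nat_lit 52) = true := by decide +kernel
def p14_14_0_52 : pfC (piC [(nat_lit 38167130), (nat_lit 25010362), (nat_lit 18643303), (nat_lit 12552662)] (nat_lit 22633645)) p14_14_0 (nat_lit 4) (nat_lit 52) (nat_lit 53) = true := by decide +kernel
def p14_14_0_53 : pfC (piC [(nat_lit 38167130), (nat_lit 25010362), (nat_lit 18643303), (nat_lit 12552662)] (nat_lit 22633645)) p14_14_0 (nat_lit 4) (nat_lit 53) (nat_lit 54) = true := by decide +kernel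
def p14_14_0_54 : pfC (piC [(nat_lit 38167130), (nat_lit 25010362), (nat_lit 18643303), (nat_lit 12552662)] (nat_lit 22633645)) p14_14_0 (nat_lit 4) (nat_lit 54) (nat_lit 55) = true := by decide +kernel
def p14_14_0_55 : pfC (piC [(nat_lit 38167130), (nat_lit 25010362), (nat_lit 18643303), (nat_lit 12552662)] (nat_lit 22633645)) p14_14_0 (nat_lit 4) (nat_lit 55) (nat_lit 56) = true := by decide +kernel
def p14_14_0_56 : pfC (piC [(nat_lit 38167130), (nat_lit 25010362), (nat_lit 18643303), (nat_lit 12552662)] (nat_lit 22633645)) p14_14_0 (nat_lit 4) (nat_lit 56) (nat_lit 57) = true := by decide +kernel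
def p14_14_0_57 : pfC (piC [(nat_lit 38167130), (nat_lit 25010362), (nat_lit 18643303), (nat_lit 12552662)] (nat_lit 22633645)) p14_14_0 (nat_lit 4) (nat_lit 57) (nat_lit 58) = true := by decide +kernel
def p14_14_0_58 : pfC (piC [(nat_lit 38167130), (nat_lit 25010362), (nat_lit 18643303), (nat_lit 12552662)] (nat_lit 22633645)) p14_14_0 (nat_lit 4) (nat_lit 58) (nat_lit 59) = true := by decide +kernel
def p14_14_0_59 : pfC (piC [(nat_lit 38167130), (nat_lit 25010362), (nat_lit 18643303), (nat_lit 12552662)] (nat_lit 22633645)) p14_14_0 (nat_lit 4) (nat_lit 59) (nat_lit 60) = true := by decide +kernel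
def p14_14_0_60 : pfC (piC [(nat_lit 38167130), (nat_lit 25010362), (nat_lit 18643303), (nat_lit 12552662)] (nat_lit 22633645)) p14_14_0 (nat_lit 4) (nat_lit 60) (nat_lit 61) = true := by decide +kernel
def p14_14_0_61 : pfC (piC [(nat_lit 38167130), (nat_lit 25010362), (nat_lit 18643303), (nat_lit 12552662)] (nat_lit 22633645)) p14_14_0 (nat_lit 4) (nat_lit 61) (nat_lit 62) = true := by decide +kernel
def p14_14_0_62 : pfC (piC [(nat_lit 38167130), (nat_lit 25010362), (nat_lit 18643303), (nat_lit 12552662)] (nat_lit 22633645)) p14_14_0 (nat_lit 4) (nat_lit 62) (nat_lit 63) = true := by decide +kernel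
def p14_14_0_63 : pfC (piC [(nat_lit 38167130), (nat_lit 25010362), (nat_lit 18643303), (nat_lit 12552662)] (nat_lit 22633645)) p14_14_0 (nat_lit 4) (nat_lit 63) (nat_lit 64) = true := by decide +kernel
def p14_14_0_64 : pfC (piC [(nat_lit 38167130), (nat_lit 25010362), (nat_lit 18643303), (nat_lit 12552662)] (nat_lit 22633645)) p14_14_0 (nat_lit 4) (nat_lit 64) (nat_lit 65) = true := by decide +kernel
def p14_14_0_65 : pfC (piC [(nat_lit 38167130), (nat_lit 25010362), (nat_lit 18643303), (nat_lit 12552662)] (nat_lit 22633645)) p14_14_0 (nat_lit 4) (nat_lit 65) (nat_lit 66) = true := by decide +kernel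
def p14_14_0_66 : pfC (piC [(nat_lit 38167130), (nat_lit 25010362), (nat_lit 18643303), (nat_lit 12552662)] (nat_lit 22633645)) p14_14_0 (nat_lit 4) (nat_lit 66) (nat_lit 67) = true := by decide +kernel
def p14_14_0_67 : pfC (piC [(nat_lit 38167130), (nat_lit 25010362), (nat_lit 18643303), (nat_lit 12552662)] (nat_lit 22633645)) p14_14_0 (nat_lit 4) (nat_lit 67) (nat_lit 68) = true := by decide +kernel
def p14_14_0_68 : pfC (piC [(nat_lit 38167130), (nat_lit 25010362), (nat_lit 18643303), (nat_lit 12552662)] (nat_lit 22633645)) p14_14_0 (nat_lit 4) (nat_lit 68) (nat_lit 69) = true := by decide +kernel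
def p14_14_0_69 : pfC (piC [(nat_lit 38167130), (nat_lit 25010362), (nat_lit 18643303), (nat_lit 12552662)] (nat_lit 22633645)) p14_14_0 (nat_lit 4) (nat_lit 69) (nat_lit 70) = true := by decide +kernel
def p14_14_0_70 : pfC (piC [(nat_lit 38167130), (nat_lit 25010362), (nat_lit 18643303), (nat_lit 12552662)] (nat_lit 22633645)) p14_14_0 (nat_lit 4) (nat_lit 70) (nat_lit 71) = true := by decide +kernel
def p14_14_0_71 : pfC (piC [(nat_lit 38167130), (nat_lit 25010362), (nat_lit 18643303), (nat_lit 12552662)] (nat_lit 22633645)) p14_14_0 (nat_lit 4) (nat_lit 71) (nat_lit 72) = true := by decide +kernel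
def p14_14_0_72 : pfC (piC [(nat_lit 38167130), (nat_lit 25010362), (nat_lit 18643303), (nat_lit 12552662)] (nat_lit 22633645)) p14_14_0 (nat_lit 4) (nat_lit 72) (nat_lit 73) = true := by decide +kernel
def p14_14_0_73 : pfC (piC [(nat_lit 38167130), (nat_lit 25010362), (nat_lit 18643303), (nat_lit 12552662)] (nat_lit 22633645)) p14_14_0 (nat_lit 4) (nat_lit 73) (nat_lit 74) = true := by decide +kernel
def p14_14_0_74 : pfC (piC [(nat_lit 38167130), (nat_lit 25010362), (nat_lit 18643303), (nat_lit 12552662)] (nat_lit 22633645)) p14_14_0 (nat_lit 4) (nat_lit 74) (nat_lit 75) = true := by decide +kernel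
def p14_14_0_75 : pfC (piC [(nat_lit 38167130), (nat_lit 25010362), (nat_lit 18643303), (nat_lit 12552662)] (nat_lit 22633645)) p14_14_0 (nat_lit 4) (nat_lit 75) (nat_lit 76) = true := by decide +kernel
def p14_14_0_76 : pfC (piC [(nat_lit 38167130), (nat_lit 25010362), (nat_lit 18643303), (nat_lit 12552662)] (nat_lit 22633645)) p14_14_0 (nat_lit 4) (nat_lit 76) (nat_lit 77) = true := by decide +kernel
def p14_14_0_77 : pfC (piC [(nat_lit 38167130), (nat_lit 25010362), (nat_lit 18643303), (nat_lit 12552662)] (nat_lit 22633645)) p14_14_0 (nat_lit 4) (nat_lit 77) (nat_lit 78) = true := by decide +kernel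
def p14_14_0_78 : pfC (piC [(nat_lit 38167130), (nat_lit 25010362), (nat_lit 18643303), (nat_lit 12552662)] (nat_lit 22633645)) p14_14_0 (nat_lit 4) (nat_lit 78) (nat_lit 79) = true := by decide +kernel
def p14_14_0_79 : pfC (piC [(nat_lit 38167130), (nat_lit 25010362), (nat_lit 18643303), (nat_lit 12552662)] (nat_lit 22633645)) p14_14_0 (nat_lit 4) (nat_lit 79) (nat_lit 80) = true := by decide +kernel
def p14_14_0_80 : pfC (piC [(nat_lit 38167130), (nat_lit 25010362), (nat_lit 18643303), (nat_lit 12552662)] (nat_lit 22633645)) p14_14_0 (nat_lit 4) (nat_lit 80) (nat_lit 81) = true := by decide +kernel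
def p14_14_0_81 : pfC (piC [(nat_lit 38167130), (nat_lit 25010362), (nat_lit 18643303), (nat_lit 12552662)] (nat_lit 22633645)) p14_14_0 (nat_lit 4) (nat_lit 81) (nat_lit 82) = true := by decide +kernel
def p14_14_0_82 : pfC (piC [(nat_lit 38167130), (nat_lit 25010362), (nat_lit 18643303), (nat_lit 12552662)] (nat_lit 22633645)) p14_14_0 (nat_lit 4) (nat_lit 82) (nat_lit 83) = true := by decide +kernel
def p14_14_0_83 : pfC (piC [(nat_lit 38167130), (nat_lit 25010362), (nat_lit 18643303), (nat_lit 12552662)] (nat_lit 22633645)) p14_14_0 (nat_lit 4) (nat_lit 83) (nat_lit 84) = true := by decide +kernel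
def p14_14_0_84 : pfC (piC [(nat_lit 38167130), (nat_lit 25010362), (nat_lit 18643303), (nat_lit 12552662)] (nat_lit 22633645)) p14_14_0 (nat_lit 4) (nat_lit 84) (nat_lit 85) = true := by decide +kernel
def p14_14_0_85 : pfC (piC [(nat_lit 38167130), (nat_lit 25010362), (nat_lit 18643303), (nat_lit 12552662)] (nat_lit 22633645)) p14_14_0 (nat_lit 4) (nat_lit 85) (nat_lit 86) = true := by decide +kernel
def p14_14_0_86 : pfC (piC [(nat_lit 38167130), (nat_lit 25010362), (nat_lit 18643303), (nat_lit 12552662)] (nat_lit 22633645)) p14_14_0 (nat_lit 4) (nat_lit 86) (nat_lit 87) = true := by decide +kernel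
def p14_14_0_87 : pfC (piC [(nat_lit 38167130), (nat_lit 25010362), (nat_lit 18643303), (nat_lit 12552662)] (nat_lit 22633645)) p14_14_0 (nat_lit 4) (nat_lit 87) (nat_lit 88) = true := by decide +kernel
def p14_14_0_88 : pfC (piC [(nat_lit 38167130), (nat_lit 25010362), (nat_lit 18643303), (nat_lit 12552662)] (nat_lit 22633645)) p14_14_0 (nat_lit 4) (nat_lit 88) (nat_lit 89) = true := by decide +kernel
def p14_14_0_89 : pfC (piC [(nat_lit 38167130), (nat_lit 25010362), (nat_lit 18643303), (nat_lit 12552662)] (nat_lit 22633645)) p14_14_0 (nat_lit 4) (nat_lit 89) (nat_lit 90) = true := by decide +kernel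
def p14_14_0_90 : pfC (piC [(nat_lit 38167130), (nat_lit 25010362), (nat_lit 18643303), (nat_lit 12552662)] (nat_lit 22633645)) p14_14_0 (nat_lit 4) (nat_lit 90) (nat_lit 91) = true := by decide +kernel
def p14_14_0_91 : pfC (piC [(nat_lit 38167130), (nat_lit 25010362), (nat_lit 18643303), (nat_lit 12552662)] (nat_lit 22633645)) p14_14_0 (nat_lit 4) (nat_lit 91) (nat_lit 92) = true := by decide +kernel
def p14_14_0_92 : pfC (piC [(nat_lit 38167130), (nat_lit 25010362), (nat_lit 18643303), (nat_lit 12552662)] (nat_lit 22633645)) p14_14_0 (nat_lit 4) (nat_lit 92) (nat_lit 93) = true := by decide +kernel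
def p14_14_0_93 : pfC (piC [(nat_lit 38167130), (nat_lit 25010362), (nat_lit 18643303), (nat_lit 12552662)] (nat_lit 22633645)) p14_14_0 (nat_lit 4) (nat_lit 93) (nat_lit 94) = true := by decide +kernel
def p14_14_0_94 : pfC (piC [(nat_lit 38167130), (nat_lit 25010362), (nat_lit 18643303), (nat_lit 12552662)] (nat_lit 22633645)) p14_14_0 (nat_lit 4) (nat_lit 94) (nat_lit 95) = true := by decide +kernel
def p14_14_0_95 : pfC (piC [(nat_lit 38167130), (nat_lit 25010362), (nat_lit 18643303), (nat_lit 12552662)] (nat_lit 22633645)) p14_14_0 (nat_lit 4) (nat_lit 95) (nat_lit 96) = true := by decide +kernel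
def p14_14_0_96 : pfC (piC [(nat_lit 38167130), (nat_lit 25010362), (nat_lit 18643303), (nat_lit 12552662)] (nat_lit 22633645)) p14_14_0 (nat_lit 4) (nat_lit 96) (nat_lit 97) = true := by decide +kernel
def p14_14_0_97 : pfC (piC [(nat_lit 38167130), (nat_lit 25010362), (nat_lit 18643303), (nat_lit 12552662)] (nat_lit 22633645)) p14_14_0 (nat_lit 4) (nat_lit 97) (nat_lit 98) = true := by decide +kernel
def p14_14_0_98 : pfC (piC [(nat_lit 38167130), (nat_lit 25010362), (nat_lit 18643303), (nat_lit 12552662)] (nat_lit 22633645)) p14_14_0 (nat_lit 4) (nat_lit 98) (nat_lit 99) = true := by decide +kernel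
def p14_14_0_99 : pfC (piC [(nat_lit 38167130), (nat_lit 25010362), (nat_lit 18643303), (nat_lit 12552662)] (nat_lit 22633645)) p14_14_0 (nat_lit 4) (nat_lit 99) (nat_lit 100) = true := by decide +kernel
def p14_14_0_100 : pfC (piC [(nat_lit 38167130), (nat_lit 25010362), (nat_lit 18643303), (nat_lit 12552662)] (nat_lit 22633645)) p14_14_0 (nat_lit 4) (nat_lit 100) (nat_lit 101) = true := by decide +kernel
def p14_14_0_101 : pfC (piC [(nat_lit 38167130), (nat_lit 25010362), (nat_lit 18643303), (nat_lit 12552662)] (nat_lit 22633645)) p14_14_0 (nat_lit 4) (nat_lit 101) (nat_lit 102) = true := by decide +kernel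
def p14_14_0_102 : pfC (piC [(nat_lit 38167130), (nat_lit 25010362), (nat_lit 18643303), (nat_lit 12552662)] (nat_lit 22633645)) p14_14_0 (nat_lit 4) (nat_lit 102) (nat_lit 103) = true := by decide +kernel
def p14_14_0_103 : pfC (piC [(nat_lit 38167130), (nat_lit 25010362), (nat_lit 18643303), (nat_lit 12552662)] (nat_lit 22633645)) p14_14_0 (nat_lit 4) (nat_lit 103) (nat_lit 104) = true := by decide +kernel
def p14_14_0_104 : pfC (piC [(nat_lit 38167130), (nat_lit 25010362), (nat_lit 18643303), (nat_lit 12552662)] (nat_lit 22633645)) p14_14_0 (nat_lit 4) (nat_lit 104) (nat_lit 105) = true := by decide +kernel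
def p14_14_0_105 : pfC (piC [(nat_lit 38167130), (nat_lit 25010362), (nat_lit 18643303), (nat_lit 12552662)] (nat_lit 22633645)) p14_14_0 (nat_lit 4) (nat_lit 105) (nat_lit 106) = true := by decide +kernel
def p14_14_0_106 : pfC (piC [(nat_lit 38167130), (nat_lit 25010362), (nat_lit 18643303), (nat_lit 12552662)] (nat_lit 22633645)) p14_14_0 (nat_lit 4) (nat_lit 106) (nat_lit 107) = true := by decide +kernel
def p14_14_0_107 : pfC (piC [(nat_lit 38167130), (nat_lit 25010362), (nat_lit 18643303), (nat_lit 12552662)] (nat_lit 22633645)) p14_14_0 (nat_lit 4) (nat_lit 107) (nat_lit 108) = true := by decide +kernel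
def p14_14_0_108 : pfC (piC [(nat_lit 38167130), (nat_lit 25010362), (nat_lit 18643303), (nat_lit 12552662)] (nat_lit 22633645)) p14_14_0 (nat_lit 4) (nat_lit 108) (nat_lit 109) = true := by decide +kernel
def p14_14_0_109 : pfC (piC [(nat_lit 38167130), (nat_lit 25010362), (nat_lit 18643303), (nat_lit 12552662)] (nat_lit 22633645)) p14_14_0 (nat_lit 4) (nat_lit 109) (nat_lit 110) = true := by decide +kernel
def p14_14_0_110 : pfC (piC [(nat_lit 38167130), (nat_lit 25010362), (nat_lit 18643303), (nat_lit 12552662)] (nat_lit 22633645)) p14_14_0 (nat_lit 4) (nat_lit 110) (nat_lit 111) = true := by decide +kernel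
def p14_14_0_111 : pfC (piC [(nat_lit 38167130), (nat_lit 25010362), (nat_lit 18643303), (nat_lit 12552662)] (nat_lit 22633645)) p14_14_0 (nat_lit 4) (nat_lit 111) (nat_lit 112) = true := by decide +kernel
def p14_14_0_112 : pfC (piC [(nat_lit 38167130), (nat_lit 25010362), (nat_lit 18643303), (nat_lit 12552662)] (nat_lit 22633645)) p14_14_0 (nat_lit 4) (nat_lit 112) (nat_lit 113) = true := by decide +kernel
def p14_14_0_113 : pfC (piC [(nat_lit 38167130), (nat_lit 25010362), (nat_lit 18643303), (nat_lit 12552662)] (nat_lit 22633645)) p14_14_0 (nat_lit 4) (nat_lit 113) (nat_lit 114) = true := by decide +kernel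
def p14_14_0_114 : pfC (piC [(nat_lit 38167130), (nat_lit 25010362), (nat_lit 18643303), (nat_lit 12552662)] (nat_lit 22633645)) p14_14_0 (nat_lit 4) (nat_lit 114) (nat_lit 115) = true := by decide +kernel
def p14_14_0_115 : pfC (piC [(nat_lit 38167130), (nat_lit 25010362), (nat_lit 18643303), (nat_lit 12552662)] (nat_lit 22633645)) p14_14_0 (nat_lit 4) (nat_lit 115) (nat_lit 116) = true := by decide +kernel
def p14_14_0_116 : pfC (piC [(nat_lit 38167130), (nat_lit 25010362), (nat_lit 18643303), (nat_lit 12552662)] (nat_lit 22633645)) p14_14_0 (nat_lit 4) (nat_lit 116) (nat_lit 117) = true := by decide +kernel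
def p14_14_0_117 : pfC (piC [(nat_lit 38167130), (nat_lit 25010362), (nat_lit 18643303), (nat_lit 12552662)] (nat_lit 22633645)) p14_14_0 (nat_lit 4) (nat_lit 117) (nat_lit 118) = true := by decide +kernel
def p14_14_0_118 : pfC (piC [(nat_lit 38167130), (nat_lit 25010362), (nat_lit 18643303), (nat_lit 12552662)] (nat_lit 22633645)) p14_14_0 (nat_lit 4) (nat_lit 118) (nat_lit 119) = true := by decide +kernel
def p14_14_0_119 : pfC (piC [(nat_lit 38167130), (nat_lit 25010362), (nat_lit 18643303), (nat_lit 12552662)] (nat_lit 22633645)) p14_14_0 (nat_lit 4) (nat_lit 119) (nat_lit 120) = true := by decide +kernel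
def p14_14_0_120 : pfC (piC [(nat_lit 38167130), (nat_lit 25010362), (nat_lit 18643303), (nat_lit 12552662)] (nat_lit 22633645)) p14_14_0 (nat_lit 4) (nat_lit 120) (nat_lit 121) = true := by decide +kernel
def p14_14_0_121 : pfC (piC [(nat_lit 38167130), (nat_lit 25010362), (nat_lit 18643303), (nat_lit 12552662)] (nat_lit 22633645)) p14_14_0 (nat_lit 4) (nat_lit 121) (nat_lit 122) = true := by decide +kernel
def p14_14_0_122 : pfC (piC [(nat_lit 38167130), (nat_lit 25010362), (nat_lit 18643303), (nat_lit 12552662)] (nat_lit 22633645)) p14_14_0 (nat_lit 4) (nat_lit 122) (nat_lit 123) = true := by decide +kernel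
def p14_14_0_123 : pfC (piC [(nat_lit 38167130), (nat_lit 25010362), (nat_lit 18643303), (nat_lit 12552662)] (nat_lit 22633645)) p14_14_0 (nat_lit 4) (nat_lit 123) (nat_lit 124) = true := by decide +kernel
def p14_14_0_124 : pfC (piC [(nat_lit 38167130), (nat_lit 25010362), (nat_lit 18643303), (nat_lit 12552662)] (nat_lit 22633645)) p14_14_0 (nat_lit 4) (nat_lit 124) (nat_lit 125) = true := by decide +kernel
def p14_14_0_125 : pfC (piC [(nat_lit 38167130), (nat_lit 25010362), (nat_lit 18643303), (nat_lit 12552662)] (nat_lit 22633645)) p14_14_0 (nat_lit 4) (nat_lit 125) (nat_lit 126) = true := by decide +kernel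
def p14_14_0_126 : pfC (piC [(nat_lit 38167130), (nat_lit 25010362), (nat_lit 18643303), (nat_lit 12552662)] (nat_lit 22633645)) p14_14_0 (nat_lit 4) (nat_lit 126) (nat_lit 127) = true := by decide +kernel
def p14_14_0_127 : pfC (piC [(nat_lit 38167130), (nat_lit 25010362), (nat_lit 18643303), (nat_lit 12552662)] (nat_lit 22633645)) p14_14_0 (nat_lit 4) (nat_lit 127) (nat_lit 128) = true := by decide +kernel
def p14_14_0_128 : pfC (piC [(nat_lit 38167130), (nat_lit 25010362), (nat_lit 18643303), (nat_lit 12552662)] (nat_lit 22633645)) p14_14_0 (nat_lit 4) (nat_lit 128) (nat_lit 129) = true := by decide +kernel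
def p14_14_0_129 : pfC (piC [(nat_lit 38167130), (nat_lit 25010362), (nat_lit 18643303), (nat_lit 12552662)] (nat_lit 22633645)) p14_14_0 (nat_lit 4) (nat_lit 129) (nat_lit 130) = true := by decide +kernel
def p14_14_0_130 : pfC (piC [(nat_lit 38167130), (nat_lit 25010362), (nat_lit 18643303), (nat_lit 12552662)] (nat_lit 22633645)) p14_14_0 (nat_lit 4) (nat_lit 130) (nat_lit 131) = true := by decide +kernel
def p14_14_0_131 : pfC (piC [(nat_lit 38167130), (nat_lit 25010362), (nat_lit 18643303), (nat_lit 12552662)] (nat_lit 22633645)) p14_14_0 (nat_lit 4) (nat_lit 131) (nat_lit 132) = true := by decide +kernel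
def p14_14_0_132 : pfC (piC [(nat_lit 38167130), (nat_lit 25010362), (nat_lit 18643303), (nat_lit 12552662)] (nat_lit 22633645)) p14_14_0 (nat_lit 4) (nat_lit 132) (nat_lit 133) = true := by decide +kernel
def p14_14_0_133 : pfC (piC [(nat_lit 38167130), (nat_lit 25010362), (nat_lit 18643303), (nat_lit 12552662)] (nat_lit 22633645)) p14_14_0 (nat_lit 4) (nat_lit 133) (nat_lit 134) = true := by decide +kernel
def p14_14_0_134 : pfC (piC [(nat_lit 38167130), (nat_lit 25010362), (nat_lit 18643303), (nat_lit 12552662)] (nat_lit 22633645)) p14_14_0 (nat_lit 4) (nat_lit 134) (nat_lit 135) = true := by decide +kernel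
def p14_14_0_135 : pfC (piC [(nat_lit 38167130), (nat_lit 25010362), (nat_lit 18643303), (nat_lit 12552662)] (nat_lit 22633645)) p14_14_0 (nat_lit 4) (nat_lit 135) (nat_lit 136) = true := by decide +kernel
def p14_14_0_136 : pfC (piC [(nat_lit 38167130), (nat_lit 25010362), (nat_lit 18643303), (nat_lit 12552662)] (nat_lit 22633645)) p14_14_0 (nat_lit 4) (nat_lit 136) (nat_lit 137) = true := by decide +kernel
def p14_14_0_137 : pfC (piC [(nat_lit 38167130), (nat_lit 25010362), (nat_lit 18643303), (nat_lit 12552662)] (nat_lit 22633645)) p14_14_0 (nat_lit 4) (nat_lit 137) (nat_lit 138) = true := by decide +kernel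
def p14_14_0_138 : pfC (piC [(nat_lit 38167130), (nat_lit 25010362), (nat_lit 18643303), (nat_lit 12552662)] (nat_lit 22633645)) p14_14_0 (nat_lit 4) (nat_lit 138) (nat_lit 139) = true := by decide +kernel
def p14_14_0_139 : pfC (piC [(nat_lit 38167130), (nat_lit 25010362), (nat_lit 18643303), (nat_lit 12552662)] (nat_lit 22633645)) p14_14_0 (nat_lit 4) (nat_lit 139) (nat_lit 140) = true := by decide +kernel
def p14_14_0_140 : pfC (piC [(nat_lit 38167130), (nat_lit 25010362), (nat_lit 18643303), (nat_lit 12552662)] (nat_lit 22633645)) p14_14_0 (nat_lit 4) (nat_lit 140) (nat_lit 141) = true := by decide +kernel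
def p14_14_0_141 : pfC (piC [(nat_lit 38167130), (nat_lit 25010362), (nat_lit 18643303), (nat_lit 12552662)] (nat_lit 22633645)) p14_14_0 (nat_lit 4) (nat_lit 141) (nat_lit 142) = true := by decide +kernel
def p14_14_0_142 : pfC (piC [(nat_lit 38167130), (nat_lit 25010362), (nat_lit 18643303), (nat_lit 12552662)] (nat_lit 22633645)) p14_14_0 (nat_lit 4) (nat_lit 142) (nat_lit 143) = true := by decide +kernel
def p14_14_0_143 : pfC (piC [(nat_lit 38167130), (nat_lit 25010362), (nat_lit 18643303), (nat_lit 12552662)] (nat_lit 22633645)) p14_14_0 (nat_lit 4) (nat_lit 143) (nat_lit 144) = true := by decide +kernel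
def p14_14_0_144 : pfC (piC [(nat_lit 38167130), (nat_lit 25010362), (nat_lit 18643303), (nat_lit 12552662)] (nat_lit 22633645)) p14_14_0 (nat_lit 4) (nat_lit 144) (nat_lit 145) = true := by decide +kernel
def p14_14_0_145 : pfC (piC [(nat_lit 38167130), (nat_lit 25010362), (nat_lit 18643303), (nat_lit 12552662)] (nat_lit 22633645)) p14_14_0 (nat_lit 4) (nat_lit 145) (nat_lit 146) = true := by decide +kernel
def p14_14_0_146 : pfC (piC [(nat_lit 38167130), (nat_lit 25010362), (nat_lit 18643303), (nat_lit 12552662)] (nat_lit 22633645)) p14_14_0 (nat_lit 4) (nat_lit 146) (nat_lit 147) = true := by decide +kernel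
def p14_14_0_147 : pfC (piC [(nat_lit 38167130), (nat_lit 25010362), (nat_lit 18643303), (nat_lit 12552662)] (nat_lit 22633645)) p14_14_0 (nat_lit 4) (nat_lit 147) (nat_lit 148) = true := by decide +kernel
def p14_14_0_148 : pfC (piC [(nat_lit 38167130), (nat_lit 25010362), (nat_lit 18643303), (nat_lit 12552662)] (nat_lit 22633645)) p14_14_0 (nat_lit 4) (nat_lit 148) (nat_lit 149) = true := by decide +kernel
def p14_14_0_149 : pfC (piC [(nat_lit 38167130), (nat_lit 25010362), (nat_lit 18643303), (nat_lit 12552662)] (nat_lit 22633645)) p14_14_0 (nat_lit 4) (nat_lit 149) (nat_lit 150) = true := by decide +kernel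
def p14_14_0_150 : pfC (piC [(nat_lit 38167130), (nat_lit 25010362), (nat_lit 18643303), (nat_lit 12552662)] (nat_lit 22633645)) p14_14_0 (nat_lit 4) (nat_lit 150) (nat_lit 151) = true := by decide +kernel
def p14_14_0_151 : pfC (piC [(nat_lit 38167130), (nat_lit 25010362), (nat_lit 18643303), (nat_lit 12552662)] (nat_lit 22633645)) p14_14_0 (nat_lit 4) (nat_lit 151) (nat_lit 152) = true := by decide +kernel
def p14_14_0_152 : pfC (piC [(nat_lit 38167130), (nat_lit 25010362), (nat_lit 18643303), (nat_lit 12552662)] (nat_lit 22633645)) p14_14_0 (nat_lit 4) (nat_lit 152) (nat_lit 153) = true := by decide +kernel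
def p14_14_0_153 : pfC (piC [(nat_lit 38167130), (nat_lit 25010362), (nat_lit 18643303), (nat_lit 12552662)] (nat_lit 22633645)) p14_14_0 (nat_lit 4) (nat_lit 153) (nat_lit 154) = true := by decide +kernel
def p14_14_0_154 : pfC (piC [(nat_lit 38167130), (nat_lit 25010362), (nat_lit 18643303), (nat_lit 12552662)] (nat_lit 22633645)) p14_14_0 (nat_lit 4) (nat_lit 154) (nat_lit 155) = true := by decide +kernel
def p14_14_0_155 : pfC (piC [(nat_lit 38167130), (nat_lit 25010362), (nat_lit 18643303), (nat_lit 12552662)] (nat_lit 22633645)) p14_14_0 (nat_lit 4) (nat_lit 155) (nat_lit 156) = true := by decide +kernel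
def p14_14_0_156 : pfC (piC [(nat_lit 38167130), (nat_lit 25010362), (nat_lit 18643303), (nat_lit 12552662)] (nat_lit 22633645)) p14_14_0 (nat_lit 4) (nat_lit 156) (nat_lit 157) = true := by decide +kernel
def p14_14_0_157 : pfC (piC [(nat_lit 38167130), (nat_lit 25010362), (nat_lit 18643303), (nat_lit 12552662)] (nat_lit 22633645)) p14_14_0 (nat_lit 4) (nat_lit 157) (nat_lit 158) = true := by decide +kernel
def p14_14_0_158 : pfC (piC [(nat_lit 38167130), (nat_lit 25010362), (nat_lit 18643303), (nat_lit 12552662)] (nat_lit 22633645)) p14_14_0 (nat_lit 4) (nat_lit 158) (nat_lit 159) = true := by decide +kernel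
def p14_14_0_159 : pfC (piC [(nat_lit 38167130), (nat_lit 25010362), (nat_lit 18643303), (nat_lit 12552662)] (nat_lit 22633645)) p14_14_0 (nat_lit 4) (nat_lit 159) (nat_lit 160) = true := by decide +kernel
def p14_14_0_160 : pfC (piC [(nat_lit 38167130), (nat_lit 25010362), (nat_lit 18643303), (nat_lit 12552662)] (nat_lit 22633645)) p14_14_0 (nat_lit 4) (nat_lit 160) (nat_lit 161) = true := by decide +kernel
def p14_14_0_161 : pfC (piC [(nat_lit 38167130), (nat_lit 25010362), (nat_lit 18643303), (nat_lit 12552662)] (nat_lit 22633645)) p14_14_0 (nat_lit 4) (nat_lit 161) (nat_lit 162) = true := by decide +kernel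
def p14_14_0_162 : pfC (piC [(nat_lit 38167130), (nat_lit 25010362), (nat_lit 18643303), (nat_lit 12552662)] (nat_lit 22633645)) p14_14_0 (nat_lit 4) (nat_lit 162) (nat_lit 163) = true := by decide +kernel
def p14_14_0_163 : pfC (piC [(nat_lit 38167130), (nat_lit 25010362), (nat_lit 18643303), (nat_lit 12552662)] (nat_lit 22633645)) p14_14_0 (nat_lit 4) (nat_lit 163) (nat_lit 164) = true := by decide +kernel
def p14_14_0_164 : pfC (piC [(nat_lit 38167130), (nat_lit 25010362), (nat_lit 18643303), (nat_lit 12552662)] (nat_lit 22633645)) p14_14_0 (nat_lit 4) (nat_lit 164) (nat_lit 165) = true := by decide +kernel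
def p14_14_0_165 : pfC (piC [(nat_lit 38167130), (nat_lit 25010362), (nat_lit 18643303), (nat_lit 12552662)] (nat_lit 22633645)) p14_14_0 (nat_lit 4) (nat_lit 165) (nat_lit 166) = true := by decide +kernel
def p14_14_0_166 : pfC (piC [(nat_lit 38167130), (nat_lit 25010362), (nat_lit 18643303), (nat_lit 12552662)] (nat_lit 22633645)) p14_14_0 (nat_lit 4) (nat_lit 166) (nat_lit 167) = true := by decide +kernel
def p14_14_0_167 : pfC (piC [(nat_lit 38167130), (nat_lit 25010362), (nat_lit 18643303), (nat_lit 12552662)] (nat_lit 22633645)) p14_14_0 (nat_lit 4) (nat_lit 167) (nat_lit 168) = true := by decide +kernel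
def p14_14_0_168 : pfC (piC [(nat_lit 38167130), (nat_lit 25010362), (nat_lit 18643303), (nat_lit 12552662)] (nat_lit 22633645)) p14_14_0 (nat_lit 4) (nat_lit 168) (nat_lit 169) = true := by decide +kernel
def p14_14_0_169 : pfC (piC [(nat_lit 38167130), (nat_lit 25010362), (nat_lit 18643303), (nat_lit 12552662)] (nat_lit 22633645)) p14_14_0 (nat_lit 4) (nat_lit 169) (nat_lit 170) = true := by decide +kernel
def p14_14_0_170 : pfC (piC [(nat_lit 38167130), (nat_lit 25010362), (nat_lit 18643303), (nat_lit 12552662)] (nat_lit 22633645)) p14_14_0 (nat_lit 4) (nat_lit 170) (nat_lit 171) = true := by decide +kernel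
def p14_14_0_171 : pfC (piC [(nat_lit 38167130), (nat_lit 25010362), (nat_lit 18643303), (nat_lit 12552662)] (nat_lit 22633645)) p14_14_0 (nat_lit 4) (nat_lit 171) (nat_lit 172) = true := by decide +kernel
def p14_14_0_172 : pfC (piC [(nat_lit 38167130), (nat_lit 25010362), (nat_lit 18643303), (nat_lit 12552662)] (nat_lit 22633645)) p14_14_0 (nat_lit 4) (nat_lit 172) (nat_lit 173) = true := by decide +kernel
def p14_14_0_173 : pfC (piC [(nat_lit 38167130), (nat_lit 25010362), (nat_lit 18643303), (nat_lit 12552662)] (nat_lit 22633645)) p14_14_0 (nat_lit 4) (nat_lit 173) (nat_lit 174) = true := by decide +kernel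
def p14_14_0_174 : pfC (piC [(nat_lit 38167130), (nat_lit 25010362), (nat_lit 18643303), (nat_lit 12552662)] (nat_lit 22633645)) p14_14_0 (nat_lit 4) (nat_lit 174) (nat_lit 175) = true := by decide +kernel
def p14_14_0_175 : pfC (piC [(nat_lit 38167130), (nat_lit 25010362), (nat_lit 18643303), (nat_lit 12552662)] (nat_lit 22633645)) p14_14_0 (nat_lit 4) (nat_lit 175) (nat_lit 176) = true := by decide +kernel
def p14_14_0_176 : pfC (piC [(nat_lit 38167130), (nat_lit 25010362), (nat_lit 18643303), (nat_lit 12552662)] (nat_lit 22633645)) p14_14_0 (nat_lit 4) (nat_lit 176) (nat_lit 177) = true := by decide +kernel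
def p14_14_0_177 : pfC (piC [(nat_lit 38167130), (nat_lit 25010362), (nat_lit 18643303), (nat_lit 12552662)] (nat_lit 22633645)) p14_14_0 (nat_lit 4) (nat_lit 177) (nat_lit 178) = true := by decide +kernel
def p14_14_0_178 : pfC (piC [(nat_lit 38167130), (nat_lit 25010362), (nat_lit 18643303), (nat_lit 12552662)] (nat_lit 22633645)) p14_14_0 (nat_lit 4) (nat_lit 178) (nat_lit 179) = true := by decide +kernel
def p14_14_0_179 : pfC (piC [(nat_lit 38167130), (nat_lit 25010362), (nat_lit 18643303), (nat_lit 12552662)] (nat_lit 22633645)) p14_14_0 (nat_lit 4) (nat_lit 179) (nat_lit 180) = true := by decide +kernel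
def p14_14_0_180 : pfC (piC [(nat_lit 38167130), (nat_lit 25010362), (nat_lit 18643303), (nat_lit 12552662)] (nat_lit 22633645)) p14_14_0 (nat_lit 4) (nat_lit 180) (nat_lit 181) = true := by decide +kernel
def p14_14_0_181 : pfC (piC [(nat_lit 38167130), (nat_lit 25010362), (nat_lit 18643303), (nat_lit 12552662)] (nat_lit 22633645)) p14_14_0 (nat_lit 4) (nat_lit 181) (nat_lit 182) = true := by decide +kernel
def p14_14_0_182 : pfC (piC [(nat_lit 38167130), (nat_lit 25010362), (nat_lit 18643303), (nat_lit 12552662)] (nat_lit 22633645)) p14_14_0 (nat_lit 4) (nat_lit 182) (nat_lit 183) = true := by decide +kernel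
def p14_14_0_183 : pfC (piC [(nat_lit 38167130), (nat_lit 25010362), (nat_lit 18643303), (nat_lit 12552662)] (nat_lit 22633645)) p14_14_0 (nat_lit 4) (nat_lit 183) (nat_lit 184) = true := by decide +kernel
def p14_14_0_184 : pfC (piC [(nat_lit 38167130), (nat_lit 25010362), (nat_lit 18643303), (nat_lit 12552662)] (nat_lit 22633645)) p14_14_0 (nat_lit 4) (nat_lit 184) (nat_lit 185) = true := by decide +kernel
def p14_14_0_185 : pfC (piC [(nat_lit 38167130), (nat_lit 25010362), (nat_lit 18643303), (nat_lit 12552662)] (nat_lit 22633645)) p14_14_0 (nat_lit 4) (nat_lit 185) (nat_lit 186) = true := by decide +kernel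
def p14_14_0_186 : pfC (piC [(nat_lit 38167130), (nat_lit 25010362), (nat_lit 18643303), (nat_lit 12552662)] (nat_lit 22633645)) p14_14_0 (nat_lit 4) (nat_lit 186) (nat_lit 187) = true := by decide +kernel
def p14_14_0_187 : pfC (piC [(nat_lit 38167130), (nat_lit 25010362), (nat_lit 18643303), (nat_lit 12552662)] (nat_lit 22633645)) p14_14_0 (nat_lit 4) (nat_lit 187) (nat_lit 188) = true := by decide +kernel
def p14_14_0_188 : pfC (piC [(nat_lit 38167130), (nat_lit 25010362), (nat_lit 18643303), (nat_lit 12552662)] (nat_lit 22633645)) p14_14_0 (nat_lit 4) (nat_lit 188) (nat_lit 189) = true := by decide +kernel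
def p14_14_0_189 : pfC (piC [(nat_lit 38167130), (nat_lit 25010362), (nat_lit 18643303), (nat_lit 12552662)] (nat_lit 22633645)) p14_14_0 (nat_lit 4) (nat_lit 189) (nat_lit 190) = true := by decide +kernel
def p14_14_0_190 : pfC (piC [(nat_lit 38167130), (nat_lit 25010362), (nat_lit 18643303), (nat_lit 12552662)] (nat_lit 22633645)) p14_14_0 (nat_lit 4) (nat_lit 190) (nat_lit 191) = true := by decide +kernel
def p14_14_0_191 : pfC (piC [(nat_lit 38167130), (nat_lit 25010362), (nat_lit 18643303), (nat_lit 12552662)] (nat_lit 22633645)) p14_14_0 (nat_lit 4) (nat_lit 191) (nat_lit 192) = true := by decide +kernel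
def p14_14_0_192 : pfC (piC [(nat_lit 38167130), (nat_lit 25010362), (nat_lit 18643303), (nat_lit 12552662)] (nat_lit 22633645)) p14_14_0 (nat_lit 4) (nat_lit 192) (nat_lit 193) = true := by decide +kernel
def p14_14_0_193 : pfC (piC [(nat_lit 38167130), (nat_lit 25010362), (nat_lit 18643303), (nat_lit 12552662)] (nat_lit 22633645)) p14_14_0 (nat_lit 4) (nat_lit 193) (nat_lit 194) = true := by decide +kernel
def p14_14_0_194 : pfC (piC [(nat_lit 38167130), (nat_lit 25010362), (nat_lit 18643303), (nat_lit 12552662)] (nat_lit 22633645)) p14_14_0 (nat_lit 4) (nat_lit 194) (nat_lit 195) = true := by decide +kernel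
def p14_14_0_195 : pfC (piC [(nat_lit 38167130), (nat_lit 25010362), (nat_lit 18643303), (nat_lit 12552662)] (nat_lit 22633645)) p14_14_0 (nat_lit 4) (nat_lit 195) (nat_lit 196) = true := by decide +kernel
def p14_14_0_196 : pfC (piC [(nat_lit 38167130), (nat_lit 25010362), (nat_lit 18643303), (nat_lit 12552662)] (nat_lit 22633645)) p14_14_0 (nat_lit 4) (nat_lit 196) (nat_lit 197) = true := by decide +kernel
def p14_14_0_197 : pfC (piC [(nat_lit 38167130), (nat_lit 25010362), (nat_lit 18643303), (nat_lit 12552662)] (nat_lit 22633645)) p14_14_0 (nat_lit 4) (nat_lit 197) (nat_lit 198) = true := by decide +kernel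
def p14_14_0_198 : pfC (piC [(nat_lit 38167130), (nat_lit 25010362), (nat_lit 18643303), (nat_lit 12552662)] (nat_lit 22633645)) p14_14_0 (nat_lit 4) (nat_lit 198) (nat_lit 199) = true := by decide +kernel
def p14_14_0_199 : pfC (piC [(nat_lit 38167130), (nat_lit 25010362), (nat_lit 18643303), (nat_lit 12552662)] (nat_lit 22633645)) p14_14_0 (nat_lit 4) (nat_lit 199) (nat_lit 200) = true := by decide +kernel
def p14_14_0_200 : pfC (piC [(nat_lit 38167130), (nat_lit 25010362), (nat_lit 18643303), (nat_lit 12552662)] (nat_lit 22633645)) p14_14_0 (nat_lit 4) (nat_lit 200) (nat_lit 201) = true := by decide +kernel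
def p14_14_0_201 : pfC (piC [(nat_lit 38167130), (nat_lit 25010362), (nat_lit 18643303), (nat_lit 12552662)] (nat_lit 22633645)) p14_14_0 (nat_lit 4) (nat_lit 201) (nat_lit 202) = true := by decide +kernel
def p14_14_0_202 : pfC (piC [(nat_lit 38167130), (nat_lit 25010362), (nat_lit 18643303), (nat_lit 12552662)] (nat_lit 22633645)) p14_14_0 (nat_lit 4) (nat_lit 202) (nat_lit 203) = true := by decide +kernel
def p14_14_0_203 : pfC (piC [(nat_lit 38167130), (nat_lit 25010362), (nat_lit 18643303), (nat_lit 12552662)] (nat_lit 22633645)) p14_14_0 (nat_lit 4) (nat_lit 203) (nat_lit 204) = true := by decide +kernel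
def p14_14_0_204 : pfC (piC [(nat_lit 38167130), (nat_lit 25010362), (nat_lit 18643303), (nat_lit 12552662)] (nat_lit 22633645)) p14_14_0 (nat_lit 4) (nat_lit 204) (nat_lit 205) = true := by decide +kernel
def p14_14_0_205 : pfC (piC [(nat_lit 38167130), (nat_lit 25010362), (nat_lit 18643303), (nat_lit 12552662)] (nat_lit 22633645)) p14_14_0 (nat_lit 4) (nat_lit 205) (nat_lit 206) = true := by decide +kernel
def p14_14_0_206 : pfC (piC [(nat_lit 38167130), (nat_lit 25010362), (nat_lit 18643303), (nat_lit 12552662)] (nat_lit 22633645)) p14_14_0 (nat_lit 4) (nat_lit 206) (nat_lit 207) = true := by decide +kernel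
def p14_14_0_207 : pfC (piC [(nat_lit 38167130), (nat_lit 25010362), (nat_lit 18643303), (nat_lit 12552662)] (nat_lit 22633645)) p14_14_0 (nat_lit 4) (nat_lit 207) (nat_lit 208) = true := by decide +kernel
def p14_14_0_208 : pfC (piC [(nat_lit 38167130), (nat_lit 25010362), (nat_lit 18643303), (nat_lit 12552662)] (nat_lit 22633645)) p14_14_0 (nat_lit 4) (nat_lit 208) (nat_lit 209) = true := by decide +kernel
def p14_14_0_209 : pfC (piC [(nat_lit 38167130), (nat_lit 25010362), (nat_lit 18643303), (nat_lit 12552662)] (nat_lit 22633645)) p14_14_0 (nat_lit 4) (nat_lit 209) (nat_lit 210) = true := by decide +kernel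
def p14_14_0_210 : pfC (piC [(nat_lit 38167130), (nat_lit 25010362), (nat_lit 18643303), (nat_lit 12552662)] (nat_lit 22633645)) p14_14_0 (nat_lit 4) (nat_lit 210) (nat_lit 211) = true := by decide +kernel
def p14_14_0_211 : pfC (piC [(nat_lit 38167130), (nat_lit 25010362), (nat_lit 18643303), (nat_lit 12552662)] (nat_lit 22633645)) p14_14_0 (nat_lit 4) (nat_lit 211) (nat_lit 212) = true := by decide +kernel
def p14_14_0_212 : pfC (piC [(nat_lit 38167130), (nat_lit 25010362), (nat_lit 18643303), (nat_lit 12552662)] (nat_lit 22633645)) p14_14_0 (nat_lit 4) (nat_lit 212) (nat_lit 213) = true := by decide +kernel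
def p14_14_0_213 : pfC (piC [(nat_lit 38167130), (nat_lit 25010362), (nat_lit 18643303), (nat_lit 12552662)] (nat_lit 22633645)) p14_14_0 (nat_lit 4) (nat_lit 213) (nat_lit 214) = true := by decide +kernel
def p14_14_0_214 : pfC (piC [(nat_lit 38167130), (nat_lit 25010362), (nat_lit 18643303), (nat_lit 12552662)] (nat_lit 22633645)) p14_14_0 (nat_lit 4) (nat_lit 214) (nat_lit 215) = true := by decide +kernel
def p14_14_0_215 : pfC (piC [(nat_lit 38167130), (nat_lit 25010362), (nat_lit 18643303), (nat_lit 12552662)] (nat_lit 22633645)) p14_14_0 (nat_lit 4) (nat_lit 215) (nat_lit 216) = true := by decide +kernel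
def p14_14_0_216 : pfC (piC [(nat_lit 38167130), (nat_lit 25010362), (nat_lit 18643303), (nat_lit 12552662)] (nat_lit 22633645)) p14_14_0 (nat_lit 4) (nat_lit 216) (nat_lit 217) = true := by decide +kernel
def p14_14_0_217 : pfC (piC [(nat_lit 38167130), (nat_lit 25010362), (nat_lit 18643303), (nat_lit 12552662)] (nat_lit 22633645)) p14_14_0 (nat_lit 4) (nat_lit 217) (nat_lit 218) = true := by decide +kernel
def p14_14_0_218 : pfC (piC [(nat_lit 38167130), (nat_lit 25010362), (nat_lit 18643303), (nat_lit 12552662)] (nat_lit 22633645)) p14_14_0 (nat_lit 4) (nat_lit 218) (nat_lit 219) = true := by decide +kernel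
def p14_14_0_219 : pfC (piC [(nat_lit 38167130), (nat_lit 25010362), (nat_lit 18643303), (nat_lit 12552662)] (nat_lit 22633645)) p14_14_0 (nat_lit 4) (nat_lit 219) (nat_lit 220) = true := by decide +kernel
def p14_14_0_220 : pfC (piC [(nat_lit 38167130), (nat_lit 25010362), (nat_lit 18643303), (nat_lit 12552662)] (nat_lit 22633645)) p14_14_0 (nat_lit 4) (nat_lit 220) (nat_lit 221) = true := by decide +kernel
def p14_14_0_221 : pfC (piC [(nat_lit 38167130), (nat_lit 25010362), (nat_lit 18643303), (nat_lit 12552662)] (nat_lit 22633645)) p14_14_0 (nat_lit 4) (nat_lit 221) (nat_lit 222) = true := by decide +kernel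
def p14_14_0_222 : pfC (piC [(nat_lit 38167130), (nat_lit 25010362), (nat_lit 18643303), (nat_lit 12552662)] (nat_lit 22633645)) p14_14_0 (nat_lit 4) (nat_lit 222) (nat_lit 223) = true := by decide +kernel
def p14_14_0_223 : pfC (piC [(nat_lit 38167130), (nat_lit 25010362), (nat_lit 18643303), (nat_lit 12552662)] (nat_lit 22633645)) p14_14_0 (nat_lit 4) (nat_lit 223) (nat_lit 224) = true := by decide +kernel
def p14_14_0_224 : pfC (piC [(nat_lit 38167130), (nat_lit 25010362), (nat_lit 18643303), (nat_lit 12552662)] (nat_lit 22633645)) p14_14_0 (nat_lit 4) (nat_lit 224) (nat_lit 225) = true := by decide +kernel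
def p14_14_0_225 : pfC (piC [(nat_lit 38167130), (nat_lit 25010362), (nat_lit 18643303), (nat_lit 12552662)] (nat_lit 22633645)) p14_14_0 (nat_lit 4) (nat_lit 225) (nat_lit 226) = true := by decide +kernel
def p14_14_0_226 : pfC (piC [(nat_lit 38167130), (nat_lit 25010362), (nat_lit 18643303), (nat_lit 12552662)] (nat_lit 22633645)) p14_14_0 (nat_lit 4) (nat_lit 226) (nat_lit 227) = true := by decide +kernel
def p14_14_0_227 : pfC (piC [(nat_lit 38167130), (nat_lit 25010362), (nat_lit 18643303), (nat_lit 12552662)] (nat_lit 22633645)) p14_14_0 (nat_lit 4) (nat_lit 227) (nat_lit 228) = true := by decide +kernel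
def p14_14_0_228 : pfC (piC [(nat_lit 38167130), (nat_lit 25010362), (nat_lit 18643303), (nat_lit 12552662)] (nat_lit 22633645)) p14_14_0 (nat_lit 4) (nat_lit 228) (nat_lit 229) = true := by decide +kernel
def p14_14_0_229 : pfC (piC [(nat_lit 38167130), (nat_lit 25010362), (nat_lit 18643303), (nat_lit 12552662)] (nat_lit 22633645)) p14_14_0 (nat_lit 4) (nat_lit 229) (nat_lit 230) = true := by decide +kernel
def p14_14_0_230 : pfC (piC [(nat_lit 38167130), (nat_lit 25010362), (nat_lit 18643303), (nat_lit 12552662)] (nat_lit 22633645)) p14_14_0 (nat_lit 4) (nat_lit 230) (nat_lit 231) = true := by decide +kernel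
def p14_14_0_231 : pfC (piC [(nat_lit 38167130), (nat_lit 25010362), (nat_lit 18643303), (nat_lit 12552662)] (nat_lit 22633645)) p14_14_0 (nat_lit 4) (nat_lit 231) (nat_lit 232) = true := by decide +kernel
def p14_14_0_232 : pfC (piC [(nat_lit 38167130), (nat_lit 25010362), (nat_lit 18643303), (nat_lit 12552662)] (nat_lit 22633645)) p14_14_0 (nat_lit 4) (nat_lit 232) (nat_lit 233) = true := by decide +kernel
def p14_14_0_233 : pfC (piC [(nat_lit 38167130), (nat_lit 25010362), (nat_lit 18643303), (nat_lit 12552662)] (nat_lit 22633645)) p14_14_0 (nat_lit 4) (nat_lit 233) (nat_lit 234) = true := by decide +kernel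
def p14_14_0_234 : pfC (piC [(nat_lit 38167130), (nat_lit 25010362), (nat_lit 18643303), (nat_lit 12552662)] (nat_lit 22633645)) p14_14_0 (nat_lit 4) (nat_lit 234) (nat_lit 235) = true := by decide +kernel
def p14_14_0_235 : pfC (piC [(nat_lit 38167130), (nat_lit 25010362), (nat_lit 18643303), (nat_lit 12552662)] (nat_lit 22633645)) p14_14_0 (nat_lit 4) (nat_lit 235) (nat_lit 236) = true := by decide +kernel
def p14_14_0_236 : pfC (piC [(nat_lit 38167130), (nat_lit 25010362), (nat_lit 18643303), (nat_lit 12552662)] (nat_lit 22633645)) p14_14_0 (nat_lit 4) (nat_lit 236) (nat_lit 237) = true := by decide +kernel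
def p14_14_0_237 : pfC (piC [(nat_lit 38167130), (nat_lit 25010362), (nat_lit 18643303), (nat_lit 12552662)] (nat_lit 22633645)) p14_14_0 (nat_lit 4) (nat_lit 237) (nat_lit 238) = true := by decide +kernel
def p14_14_0_238 : pfC (piC [(nat_lit 38167130), (nat_lit 25010362), (nat_lit 18643303), (nat_lit 12552662)] (nat_lit 22633645)) p14_14_0 (nat_lit 4) (nat_lit 238) (nat_lit 239) = true := by decide +kernel
def p14_14_0_239 : pfC (piC [(nat_lit 38167130), (nat_lit 25010362), (nat_lit 18643303), (nat_lit 12552662)] (nat_lit 22633645)) p14_14_0 (nat_lit 4) (nat_lit 239) (nat_lit 240) = true := by decide +kernel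
def p14_14_0_240 : pfC (piC [(nat_lit 38167130), (nat_lit 25010362), (nat_lit 18643303), (nat_lit 12552662)] (nat_lit 22633645)) p14_14_0 (nat_lit 4) (nat_lit 240) (nat_lit 241) = true := by decide +kernel
def p14_14_0_241 : pfC (piC [(nat_lit 38167130), (nat_lit 25010362), (nat_lit 18643303), (nat_lit 12552662)] (nat_lit 22633645)) p14_14_0 (nat_lit 4) (nat_lit 241) (nat_lit 242) = true := by decide +kernel
def p14_14_0_242 : pfC (piC [(nat_lit 38167130), (nat_lit 25010362), (nat_lit 18643303), (nat_lit 12552662)] (nat_lit 22633645)) p14_14_0 (nat_lit 4) (nat_lit 242) (nat_lit 243) = true := by decide +kernel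
def p14_14_0_243 : pfC (piC [(nat_lit 38167130), (nat_lit 25010362), (nat_lit 18643303), (nat_lit 12552662)] (nat_lit 22633645)) p14_14_0 (nat_lit 4) (nat_lit 243) (nat_lit 244) = true := by decide +kernel
def p14_14_0_244 : pfC (piC [(nat_lit 38167130), (nat_lit 25010362), (nat_lit 18643303), (nat_lit 12552662)] (nat_lit 22633645)) p14_14_0 (nat_lit 4) (nat_lit 244) (nat_lit 245) = true := by decide +kernel
def p14_14_0_245 : pfC (piC [(nat_lit 38167130), (nat_lit 25010362), (nat_lit 18643303), (nat_lit 12552662)] (nat_lit 22633645)) p14_14_0 (nat_lit 4) (nat_lit 245) (nat_lit 246) = true := by decide +kernel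
def p14_14_0_246 : pfC (piC [(nat_lit 38167130), (nat_lit 25010362), (nat_lit 18643303), (nat_lit 12552662)] (nat_lit 22633645)) p14_14_0 (nat_lit 4) (nat_lit 246) (nat_lit 247) = true := by decide +kernel
def p14_14_0_247 : pfC (piC [(nat_lit 38167130), (nat_lit 25010362), (nat_lit 18643303), (nat_lit 12552662)] (nat_lit 22633645)) p14_14_0 (nat_lit 4) (nat_lit 247) (nat_lit 248) = true := by decide +kernel
def p14_14_0_248 : pfC (piC [(nat_lit 38167130), (nat_lit 25010362), (nat_lit 18643303), (nat_lit 12552662)] (nat_lit 22633645)) p14_14_0 (nat_lit 4) (nat_lit 248) (nat_lit 249) = true := by decide +kernel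
def p14_14_0_249 : pfC (piC [(nat_lit 38167130), (nat_lit 25010362), (nat_lit 18643303), (nat_lit 12552662)] (nat_lit 22633645)) p14_14_0 (nat_lit 4) (nat_lit 249) (nat_lit 250) = true := by decide +kernel
def p14_14_0_250 : pfC (piC [(nat_lit 38167130), (nat_lit 25010362), (nat_lit 18643303), (nat_lit 12552662)] (nat_lit 22633645)) p14_14_0 (nat_lit 4) (nat_lit 250) (nat_lit 251) = true := by decide +kernel
def p14_14_0_251 : pfC (piC [(nat_lit 38167130), (nat_lit 25010362), (nat_lit 18643303), (nat_lit 12552662)] (nat_lit 22633645)) p14_14_0 (nat_lit 4) (nat_lit 251) (nat_lit 252) = true := by decide +kernel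
def p14_14_0_252 : pfC (piC [(nat_lit 38167130), (nat_lit 25010362), (nat_lit 18643303), (nat_lit 12552662)] (nat_lit 22633645)) p14_14_0 (nat_lit 4) (nat_lit 252) (nat_lit 253) = true := by decide +kernel
def p14_14_0_253 : pfC (piC [(nat_lit 38167130), (nat_lit 25010362), (nat_lit 18643303), (nat_lit 12552662)] (nat_lit 22633645)) p14_14_0 (nat_lit 4) (nat_lit 253) (nat_lit 254) = true := by decide +kernel
def p14_14_0_254 : pfC (piC [(nat_lit 38167130), (nat_lit 25010362), (nat_lit 18643303), (nat_lit 12552662)] (nat_lit 22633645)) p14_14_0 (nat_lit 4) (nat_lit 254) (nat_lit 255) = true := by decide +kernel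
def p14_14_0_255 : pfC (piC [(nat_lit 38167130), (nat_lit 25010362), (nat_lit 18643303), (nat_lit 12552662)] (nat_lit 22633645)) p14_14_0 (nat_lit 4) (nat_lit 255) (nat_lit 256) = true := by decide +kernel
def p14_14_0_256 : pfC (piC [(nat_lit 38167130), (nat_lit 25010362), (nat_lit 18643303), (nat_lit 12552662)] (nat_lit 22633645)) p14_14_0 (nat_lit 4) (nat_lit 256) (nat_lit 257) = true := by decide +kernel
def p14_14_0_257 : pfC (piC [(nat_lit 38167130), (nat_lit 25010362), (nat_lit 18643303), (nat_lit 12552662)] (nat_lit 22633645)) p14_14_0 (nat_lit 4) (nat_lit 257) (nat_lit 258) = true := by decide +kernel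
def p14_14_0_258 : pfC (piC [(nat_lit 38167130), (nat_lit 25010362), (nat_lit 18643303), (nat_lit 12552662)] (nat_lit 22633645)) p14_14_0 (nat_lit 4) (nat_lit 258) (nat_lit 259) = true := by decide +kernel
def p14_14_0_259 : pfC (piC [(nat_lit 38167130), (nat_lit 25010362), (nat_lit 18643303), (nat_lit 12552662)] (nat_lit 22633645)) p14_14_0 (nat_lit 4) (nat_lit 259) (nat_lit 260) = true := by decide +kernel
def p14_14_0_260 : pfC (piC [(nat_lit 38167130), (nat_lit 25010362), (nat_lit 18643303), (nat_lit 12552662)] (nat_lit 22633645)) p14_14_0 (nat_lit 4) (nat_lit 260) (nat_lit 261) = true := by decide +kernel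
def p14_14_0_261 : pfC (piC [(nat_lit 38167130), (nat_lit 25010362), (nat_lit 18643303), (nat_lit 12552662)] (nat_lit 22633645)) p14_14_0 (nat_lit 4) (nat_lit 261) (nat_lit 262) = true := by decide +kernel
def p14_14_0_262 : pfC (piC [(nat_lit 38167130), (nat_lit 25010362), (nat_lit 18643303), (nat_lit 12552662)] (nat_lit 22633645)) p14_14_0 (nat_lit 4) (nat_lit 262) (nat_lit 263) = true := by decide +kernel
def p14_14_0_263 : pfC (piC [(nat_lit 38167130), (nat_lit 25010362), (nat_lit 18643303), (nat_lit 12552662)] (nat_lit 22633645)) p14_14_0 (nat_lit 4) (nat_lit 263) (nat_lit 264) = true := by decide +kernel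
def p14_14_0_264 : pfC (piC [(nat_lit 38167130), (nat_lit 25010362), (nat_lit 18643303), (nat_lit 12552662)] (nat_lit 22633645)) p14_14_0 (nat_lit 4) (nat_lit 264) (nat_lit 265) = true := by decide +kernel
def p14_14_0_265 : pfC (piC [(nat_lit 38167130), (nat_lit 25010362), (nat_lit 18643303), (nat_lit 12552662)] (nat_lit 22633645)) p14_14_0 (nat_lit 4) (nat_lit 265) (nat_lit 266) = true := by decide +kernel
def p14_14_0_266 : pfC (piC [(nat_lit 38167130), (nat_lit 25010362), (nat_lit 18643303), (nat_lit 12552662)] (nat_lit 22633645)) p14_14_0 (nat_lit 4) (nat_lit 266) (nat_lit 267) = true := by decide +kernel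
def p14_14_0_267 : pfC (piC [(nat_lit 38167130), (nat_lit 25010362), (nat_lit 18643303), (nat_lit 12552662)] (nat_lit 22633645)) p14_14_0 (nat_lit 4) (nat_lit 267) (nat_lit 268) = true := by decide +kernel
def p14_14_0_268 : pfC (piC [(nat_lit 38167130), (nat_lit 25010362), (nat_lit 18643303), (nat_lit 12552662)] (nat_lit 22633645)) p14_14_0 (nat_lit 4) (nat_lit 268) (nat_lit 269) = true := by decide +kernel
def p14_14_0_269 : pfC (piC [(nat_lit 38167130), (nat_lit 25010362), (nat_lit 18643303), (nat_lit 12552662)] (nat_lit 22633645)) p14_14_0 (nat_lit 4) (nat_lit 269) (nat_lit 270) = true := by decide +kernel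
def p14_14_0_270 : pfC (piC [(nat_lit 38167130), (nat_lit 25010362), (nat_lit 18643303), (nat_lit 12552662)] (nat_lit 22633645)) p14_14_0 (nat_lit 4) (nat_lit 270) (nat_lit 271) = true := by decide +kernel
def p14_14_0_271 : pfC (piC [(nat_lit 38167130), (nat_lit 25010362), (nat_lit 18643303), (nat_lit 12552662)] (nat_lit 22633645)) p14_14_0 (nat_lit 4) (nat_lit 271) (nat_lit 272) = true := by decide +kernel
def p14_14_0_272 : pfC (piC [(nat_lit 38167130), (nat_lit 25010362), (nat_lit 18643303), (nat_lit 12552662)] (nat_lit 22633645)) p14_14_0 (nat_lit 4) (nat_lit 272) (nat_lit 273) = true := by decide +kernel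
def p14_14_0_273 : pfC (piC [(nat_lit 38167130), (nat_lit 25010362), (nat_lit 18643303), (nat_lit 12552662)] (nat_lit 22633645)) p14_14_0 (nat_lit 4) (nat_lit 273) (nat_lit 274) = true := by decide +kernel
def p14_14_0_274 : pfC (piC [(nat_lit 38167130), (nat_lit 25010362), (nat_lit 18643303), (nat_lit 12552662)] (nat_lit 22633645)) p14_14_0 (nat_lit 4) (nat_lit 274) (nat_lit 275) = true := by decide +kernel
def p14_14_0_275 : pfC (piC [(nat_lit 38167130), (nat_lit 25010362), (nat_lit 18643303), (nat_lit 12552662)] (nat_lit 22633645)) p14_14_0 (nat_lit 4) (nat_lit 275) (nat_lit 276) = true := by decide +kernel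
def p14_14_0_276 : pfC (piC [(nat_lit 38167130), (nat_lit 25010362), (nat_lit 18643303), (nat_lit 12552662)] (nat_lit 22633645)) p14_14_0 (nat_lit 4) (nat_lit 276) (nat_lit 277) = true := by decide +kernel
def p14_14_0_277 : pfC (piC [(nat_lit 38167130), (nat_lit 25010362), (nat_lit 18643303), (nat_lit 12552662)] (nat_lit 22633645)) p14_14_0 (nat_lit 4) (nat_lit 277) (nat_lit 278) = true := by decide +kernel
def p14_14_0_278 : pfC (piC [(nat_lit 38167130), (nat_lit 25010362), (nat_lit 18643303), (nat_lit 12552662)] (nat_lit 22633645)) p14_14_0 (nat_lit 4) (nat_lit 278) (nat_lit 279) = true := by decide +kernel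
def p14_14_0_279 : pfC (piC [(nat_lit 38167130), (nat_lit 25010362), (nat_lit 18643303), (nat_lit 12552662)] (nat_lit 22633645)) p14_14_0 (nat_lit 4) (nat_lit 279) (nat_lit 280) = true := by decide +kernel
def p14_14_0_280 : pfC (piC [(nat_lit 38167130), (nat_lit 25010362), (nat_lit 18643303), (nat_lit 12552662)] (nat_lit 22633645)) p14_14_0 (nat_lit 4) (nat_lit 280) (nat_lit 281) = true := by decide +kernel
def p14_14_0_281 : pfC (piC [(nat_lit 38167130), (nat_lit 25010362), (nat_lit 18643303), (nat_lit 12552662)] (nat_lit 22633645)) p14_14_0 (nat_lit 4) (nat_lit 281) (nat_lit 282) = true := by decide +kernel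
def p14_14_0_282 : pfC (piC [(nat_lit 38167130), (nat_lit 25010362), (nat_lit 18643303), (nat_lit 12552662)] (nat_lit 22633645)) p14_14_0 (nat_lit 4) (nat_lit 282) (nat_lit 283) = true := by decide +kernel
def p14_14_0_283 : pfC (piC [(nat_lit 38167130), (nat_lit 25010362), (nat_lit 18643303), (nat_lit 12552662)] (nat_lit 22633645)) p14_14_0 (nat_lit 4) (nat_lit 283) (nat_lit 284) = true := by decide +kernel
def p14_14_0_284 : pfC (piC [(nat_lit 38167130), (nat_lit 25010362), (nat_lit 18643303), (nat_lit 12552662)] (nat_lit 22633645)) p14_14_0 (nat_lit 4) (nat_lit 284) (nat_lit 285) = true := by decide +kernel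
def p14_14_0_285 : pfC (piC [(nat_lit 38167130), (nat_lit 25010362), (nat_lit 18643303), (nat_lit 12552662)] (nat_lit 22633645)) p14_14_0 (nat_lit 4) (nat_lit 285) (nat_lit 286) = true := by decide +kernel
def p14_14_0_286 : pfC (piC [(nat_lit 38167130), (nat_lit 25010362), (nat_lit 18643303), (nat_lit 12552662)] (nat_lit 22633645)) p14_14_0 (nat_lit 4) (nat_lit 286) (nat_lit 287) = true := by decide +kernel
def p14_14_0_287 : pfC (piC [(nat_lit 38167130), (nat_lit 25010362), (nat_lit 18643303), (nat_lit 12552662)] (nat_lit 22633645)) p14_14_0 (nat_lit 4) (nat_lit 287) (nat_lit 288) = true := by decide +kernel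
def p14_14_0_288 : pfC (piC [(nat_lit 38167130), (nat_lit 25010362), (nat_lit 18643303), (nat_lit 12552662)] (nat_lit 22633645)) p14_14_0 (nat_lit 4) (nat_lit 288) (nat_lit 289) = true := by decide +kernel
def p14_14_0_289 : pfC (piC [(nat_lit 38167130), (nat_lit 25010362), (nat_lit 18643303), (nat_lit 12552662)] (nat_lit 22633645)) p14_14_0 (nat_lit 4) (nat_lit 289) (nat_lit 290) = true := by decide +kernel
def p14_14_0_290 : pfC (piC [(nat_lit 38167130), (nat_lit 25010362), (nat_lit 18643303), (nat_lit 12552662)] (nat_lit 22633645)) p14_14_0 (nat_lit 4) (nat_lit 290) (nat_lit 291) = true := by decide +kernel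
def p14_14_0_291 : pfC (piC [(nat_lit 38167130), (nat_lit 25010362), (nat_lit 18643303), (nat_lit 12552662)] (nat_lit 22633645)) p14_14_0 (nat_lit 4) (nat_lit 291) (nat_lit 292) = true := by decide +kernel
def p14_14_0_292 : pfC (piC [(nat_lit 38167130), (nat_lit 25010362), (nat_lit 18643303), (nat_lit 12552662)] (nat_lit 22633645)) p14_14_0 (nat_lit 4) (nat_lit 292) (nat_lit 293) = true := by decide +kernel
def p14_14_0_293 : pfC (piC [(nat_lit 38167130), (nat_lit 25010362), (nat_lit 18643303), (nat_lit 12552662)] (nat_lit 22633645)) p14_14_0 (nat_lit 4) (nat_lit 293) (nat_lit 294) = true := by decide +kernel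
def p14_14_0_294 : pfC (piC [(nat_lit 38167130), (nat_lit 25010362), (nat_lit 18643303), (nat_lit 12552662)] (nat_lit 22633645)) p14_14_0 (nat_lit 4) (nat_lit 294) (nat_lit 295) = true := by decide +kernel
def p14_14_0_295 : pfC (piC [(nat_lit 38167130), (nat_lit 25010362), (nat_lit 18643303), (nat_lit 12552662)] (nat_lit 22633645)) p14_14_0 (nat_lit 4) (nat_lit 295) (nat_lit 296) = true := by decide +kernel
def p14_14_0_296 : pfC (piC [(nat_lit 38167130), (nat_lit 25010362), (nat_lit 18643303), (nat_lit 12552662)] (nat_lit 22633645)) p14_14_0 (nat_lit 4) (nat_lit 296) (nat_lit 297) = true := by decide +kernel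
def p14_14_0_297 : pfC (piC [(nat_lit 38167130), (nat_lit 25010362), (nat_lit 18643303), (nat_lit 12552662)] (nat_lit 22633645)) p14_14_0 (nat_lit 4) (nat_lit 297) (nat_lit 298) = true := by decide +kernel
def p14_14_0_298 : pfC (piC [(nat_lit 38167130), (nat_lit 25010362), (nat_lit 18643303), (nat_lit 12552662)] (nat_lit 22633645)) p14_14_0 (nat_lit 4) (nat_lit 298) (nat_lit 299) = true := by decide +kernel
def p14_14_0_299 : pfC (piC [(nat_lit 38167130), (nat_lit 25010362), (nat_lit 18643303), (nat_lit 12552662)] (nat_lit 22633645)) p14_14_0 (nat_lit 4) (nat_lit 299) (nat_lit 300) = true := by decide +kernel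
def p14_14_0_300 : pfC (piC [(nat_lit 38167130), (nat_lit 25010362), (nat_lit 18643303), (nat_lit 12552662)] (nat_lit 22633645)) p14_14_0 (nat_lit 4) (nat_lit 300) (nat_lit 301) = true := by decide +kernel
def p14_14_0_301 : pfC (piC [(nat_lit 38167130), (nat_lit 25010362), (nat_lit 18643303), (nat_lit 12552662)] (nat_lit 22633645)) p14_14_0 (nat_lit 4) (nat_lit 301) (nat_lit 302) = true := by decide +kernel
def p14_14_0_302 : pfC (piC [(nat_lit 38167130), (nat_lit 25010362), (nat_lit 18643303), (nat_lit 12552662)] (nat_lit 22633645)) p14_14_0 (nat_lit 4) (nat_lit 302) (nat_lit 303) = true := by decide +kernel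
def p14_14_0_303 : pfC (piC [(nat_lit 38167130), (nat_lit 25010362), (nat_lit 18643303), (nat_lit 12552662)] (nat_lit 22633645)) p14_14_0 (nat_lit 4) (nat_lit 303) (nat_lit 304) = true := by decide +kernel
def p14_14_0_304 : pfC (piC [(nat_lit 38167130), (nat_lit 25010362), (nat_lit 18643303), (nat_lit 12552662)] (nat_lit 22633645)) p14_14_0 (nat_lit 4) (nat_lit 304) (nat_lit 305) = true := by decide +kernel
def p14_14_0_305 : pfC (piC [(nat_lit 38167130), (nat_lit 25010362), (nat_lit 18643303), (nat_lit 12552662)] (nat_lit 22633645)) p14_14_0 (nat_lit 4) (nat_lit 305) (nat_lit 306) = true := by decide +kernel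
def p14_14_0_306 : pfC (piC [(nat_lit 38167130), (nat_lit 25010362), (nat_lit 18643303), (nat_lit 12552662)] (nat_lit 22633645)) p14_14_0 (nat_lit 4) (nat_lit 306) (nat_lit 307) = true := by decide +kernel
def p14_14_0_307 : pfC (piC [(nat_lit 38167130), (nat_lit 25010362), (nat_lit 18643303), (nat_lit 12552662)] (nat_lit 22633645)) p14_14_0 (nat_lit 4) (nat_lit 307) (nat_lit 308) = true := by decide +kernel
def p14_14_0_308 : pfC (piC [(nat_lit 38167130), (nat_lit 25010362), (nat_lit 18643303), (nat_lit 12552662)] (nat_lit 22633645)) p14_14_0 (nat_lit 4) (nat_lit 308) (nat_lit 309) = true := by decide +kernel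
def p14_14_0_309 : pfC (piC [(nat_lit 38167130), (nat_lit 25010362), (nat_lit 18643303), (nat_lit 12552662)] (nat_lit 22633645)) p14_14_0 (nat_lit 4) (nat_lit 309) (nat_lit 310) = true := by decide +kernel
def p14_14_0_310 : pfC (piC [(nat_lit 38167130), (nat_lit 25010362), (nat_lit 18643303), (nat_lit 12552662)] (nat_lit 22633645)) p14_14_0 (nat_lit 4) (nat_lit 310) (nat_lit 311) = true := by decide +kernel
def p14_14_0_311 : pfC (piC [(nat_lit 38167130), (nat_lit 25010362), (nat_lit 18643303), (nat_lit 12552662)] (nat_lit 22633645)) p14_14_0 (nat_lit 4) (nat_lit 311) (nat_lit 312) = true := by decide +kernel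
def p14_14_0_312 : pfC (piC [(nat_lit 38167130), (nat_lit 25010362), (nat_lit 18643303), (nat_lit 12552662)] (nat_lit 22633645)) p14_14_0 (nat_lit 4) (nat_lit 312) (nat_lit 313) = true := by decide +kernel
def p14_14_0_313 : pfC (piC [(nat_lit 38167130), (nat_lit 25010362), (nat_lit 18643303), (nat_lit 12552662)] (nat_lit 22633645)) p14_14_0 (nat_lit 4) (nat_lit 313) (nat_lit 314) = true := by decide +kernel
def p14_14_0_314 : pfC (piC [(nat_lit 38167130), (nat_lit 25010362), (nat_lit 18643303), (nat_lit 12552662)] (nat_lit 22633645)) p14_14_0 (nat_lit 4) (nat_lit 314) (nat_lit 315) = true := by decide +kernel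
def p14_14_0_315 : pfC (piC [(nat_lit 38167130), (nat_lit 25010362), (nat_lit 18643303), (nat_lit 12552662)] (nat_lit 22633645)) p14_14_0 (nat_lit 4) (nat_lit 315) (nat_lit 316) = true := by decide +kernel
def p14_14_0_316 : pfC (piC [(nat_lit 38167130), (nat_lit 25010362), (nat_lit 18643303), (nat_lit 12552662)] (nat_lit 22633645)) p14_14_0 (nat_lit 4) (nat_lit 316) (nat_lit 317) = true := by decide +kernel
def p14_14_0_317 : pfC (piC [(nat_lit 38167130), (nat_lit 25010362), (nat_lit 18643303), (nat_lit 12552662)] (nat_lit 22633645)) p14_14_0 (nat_lit 4) (nat_lit 317) (nat_lit 318) = true := by decide +kernel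
def p14_14_0_318 : pfC (piC [(nat_lit 38167130), (nat_lit 25010362), (nat_lit 18643303), (nat_lit 12552662)] (nat_lit 22633645)) p14_14_0 (nat_lit 4) (nat_lit 318) (nat_lit 319) = true := by decide +kernel
def p14_14_0_319 : pfC (piC [(nat_lit 38167130), (nat_lit 25010362), (nat_lit 18643303), (nat_lit 12552662)] (nat_lit 22633645)) p14_14_0 (nat_lit 4) (nat_lit 319) (nat_lit 320) = true := by decide +kernel
def p14_14_0_320 : pfC (piC [(nat_lit 38167130), (nat_lit 25010362), (nat_lit 18643303), (nat_lit 12552662)] (nat_lit 22633645)) p14_14_0 (nat_lit 4) (nat_lit 320) (nat_lit 321) = true := by decide +kernel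
def p14_14_0_321 : pfC (piC [(nat_lit 38167130), (nat_lit 25010362), (nat_lit 18643303), (nat_lit 12552662)] (nat_lit 22633645)) p14_14_0 (nat_lit 4) (nat_lit 321) (nat_lit 322) = true := by decide +kernel
def p14_14_0_322 : pfC (piC [(nat_lit 38167130), (nat_lit 25010362), (nat_lit 18643303), (nat_lit 12552662)] (nat_lit 22633645)) p14_14_0 (nat_lit 4) (nat_lit 322) (nat_lit 323) = true := by decide +kernel
def p14_14_0_323 : pfC (piC [(nat_lit 38167130), (nat_lit 25010362), (nat_lit 18643303), (nat_lit 12552662)] (nat_lit 22633645)) p14_14_0 (nat_lit 4) (nat_lit 323) (nat_lit 324) = true := by decide +kernel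
def p14_14_0_324 : pfC (piC [(nat_lit 38167130), (nat_lit 25010362), (nat_lit 18643303), (nat_lit 12552662)] (nat_lit 22633645)) p14_14_0 (nat_lit 4) (nat_lit 324) (nat_lit 325) = true := by decide +kernel
def p14_14_0_325 : pfC (piC [(nat_lit 38167130), (nat_lit 25010362), (nat_lit 18643303), (nat_lit 12552662)] (nat_lit 22633645)) p14_14_0 (nat_lit 4) (nat_lit 325) (nat_lit 326) = true := by decide +kernel
def p14_14_0_326 : pfC (piC [(nat_lit 38167130), (nat_lit 25010362), (nat_lit 18643303), (nat_lit 12552662)] (nat_lit 22633645)) p14_14_0 (nat_lit 4) (nat_lit 326) (nat_lit 327) = true := by decide +kernel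
theorem p14_14_0_T : PfS (PiF n14_14.reverse (nat_lit 22633645)) p14_14_0 (nat_lit 4) [] 0 :=
  pftab_of (los := [(nat_lit 38167130), (nat_lit 25010362), (nat_lit 18643303), (nat_lit 12552662)]) (by decide +kernel) (hi := (nat_lit 327)) (PfP.trans (PfP.trans (PfP.trans (PfP.trans (PfP.trans (PfP.trans (PfP.trans (PfP.trans (PfP.trans (PfP.trans (PfP.trans (PfP.trans (PfP.trans (PfP.trans (PfP.trans (PfP.trans (PfP.trans (PfP.trans (PfP.trans (PfP.trans (PfP.trans (PfP.trans (PfP.trans (PfP.trans (PfP.trans (PfP.trans (PfP.trans (PfP.trans (PfP.trans (PfP.trans (PfP.trans (PfP.trans (PfP.trans (PfP.trans (PfP.trans (PfP.trans (PfP.trans (PfP.trans (PfP.trans (PfP.trans (PfP.trans (PfP.trans (PfP.trans (PfP.trans (PfP.trans (PfP.trans (PfP.trans (PfP.trans (PfP.trans (PfP.trans (PfP.trans (PfP.trans (PfP.trans (PfP.trans (PfP.trans (PfP.trans (PfP.trans (PfP.trans (PfP.trans (PfP.trans (PfP.trans (PfP.trans (PfP.trans (PfP.trans (PfP.trans (PfP.trans (PfP.trans (PfP.trans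 (PfP.trans (PfP.trans (PfP.trans (PfP.trans (PfP.trans (PfP.trans (PfP.trans (PfP.trans (PfP.trans (PfP.trans (PfP.trans (PfP.trans (PfP.trans (PfP.trans (PfP.trans (PfP.trans (PfP.trans (PfP.trans (PfP.trans (PfP.trans (PfP.trans (PfP.trans (PfP.trans (PfP.trans (PfP.trans (PfP.trans (PfP.trans (PfP.trans (PfP.trans (PfP.trans (PfP.trans (PfP.trans (PfP.trans (PfP.trans (PfP.trans (PfP.trans (PfP.trans (PfP.trans (PfP.trans (PfP.trans (PfP.trans
 (PfP.trans (PfP.trans (PfP.trans (PfP.trans (PfP.trans (PfP.trans (PfP.trans (PfP.trans (PfP.trans (PfP.trans (PfP.trans (PfP.trans (PfP.trans (PfP.trans (PfP.trans (PfP.trans (PfP.trans (PfP.trans (PfP.trans (PfP.trans (PfP.trans (PfP.trans (PfP.trans (PfP.trans (PfP.trans (PfP.trans (PfP.trans (PfP.trans (PfP.trans (PfP.trans (PfP.trans (PfP.trans (PfP.trans (PfP.trans (PfP.trans (PfP.trans (PfP.trans (PfP.trans (PfP.trans (PfP.trans (PfP.trans (PfP.trans (PfP.trans (PfP.trans (PfP.trans (PfP.trans (PfP.trans (PfP.trans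 (PfP.trans (PfP.trans (PfP.trans (PfP.trans (PfP.trans (PfP.trans (PfP.trans (PfP.trans (PfP.trans (PfP.trans (PfP.trans (PfP.trans (PfP.trans (PfP.trans (PfP.trans (PfP.trans (PfP.trans (PfP.trans (PfP.trans (PfP.trans (PfP.trans (PfP.trans (PfP.trans (PfP.trans (PfP.trans (PfP.trans (PfP.trans (PfP.trans (PfP.trans (PfP.trans (PfP.trans (PfP.trans (PfP.trans (PfP.trans (PfP.trans (PfP.trans (PfP.trans (PfP.trans (PfP.trans (PfP.trans (PfP.trans (PfP.trans (PfP.trans (PfP.trans (PfP.trans (PfP.trans (PfP.trans (PfP.trans (PfP.trans (PfP.trans (PfP.trans (PfP.trans (PfP.trans (PfP.trans (PfP.trans (PfP.trans (PfP.trans (PfP.trans (PfP.trans (PfP.trans (PfP.trans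
 (PfP.trans (PfP.trans (PfP.trans (PfP.trans (PfP.trans (PfP.trans (PfP.trans (PfP.trans (PfP.trans (PfP.trans (PfP.trans (PfP.trans (PfP.trans (PfP.trans (PfP.trans (PfP.trans (PfP.trans (PfP.trans (PfP.trans (PfP.trans (PfP.trans (PfP.trans (PfP.trans (PfP.trans (PfP.trans (PfP.trans (PfP.trans (PfP.trans (PfP.trans (PfP.trans (PfP.trans (PfP.trans (PfP.trans (PfP.trans (PfP.trans (PfP.trans (PfP.trans (PfP.trans (PfP.trans (PfP.trans (PfP.trans (PfP.trans (PfP.trans (PfP.trans (PfP.trans (PfP.trans (PfP.trans (PfP.trans (PfP.trans (PfP.trans (PfP.trans (PfP.trans (PfP.trans (PfP.trans (PfP.trans (PfP.trans (PfP.trans (PfP.trans (PfP.trans (PfP.trans (PfP.trans (PfP.trans (PfP.trans (PfP.trans (PfP.trans (PfP.trans (PfP.trans (PfP.trans (PfP.trans (PfP.trans (PfP.trans (PfP.trans (PfP.trans (PfP.trans (PfP.trans (PfP.trans (PfP.trans (PfP.trans (PfP.trans (PfP.trans (PfP.trans (PfP.trans (PfP.trans (PfP.trans (PfP.trans (PfP.trans (PfP.trans (PfP.trans (PfP.trans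 (PfP.trans (PfP.trans (PfP.trans (PfP.trans (PfP.trans (PfP.trans (PfP.trans (PfP.trans (PfP.trans (PfP.trans (PfP.trans (PfP.trans (PfP.trans (PfP.trans (PfP.trans (PfP.trans (PfP.trans (PfP.trans (PfP.trans (pfC_sound
 p14_14_0_0) (pfC_sound p14_14_0_1)) (pfC_sound p14_14_0_2)) (pfC_sound p14_14_0_3)) (pfC_sound p14_14_0_4)) (pfC_sound p14_14_0_5)) (pfC_sound p14_14_0_6)) (pfC_sound p14_14_0_7)) (pfC_sound p14_14_0_8)) (pfC_sound p14_14_0_9)) (pfC_sound p14_14_0_10)) (pfC_sound p14_14_0_11)) (pfC_sound p14_14_0_12)) (pfC_sound p14_14_0_13)) (pfC_sound p14_14_0_14)) (pfC_sound p14_14_0_15)) (pfC_sound p14_14_0_16)) (pfC_sound p14_14_0_17)) (pfC_sound p14_14_0_18)) (pfC_sound p14_14_0_19)) (pfC_sound p14_14_0_20)) (pfC_sound p14_14_0_21)) (pfC_sound p14_14_0_22)) (pfC_sound p14_14_0_23)) (pfC_sound p14_14_0_24)) (pfC_sound p14_14_0_25)) (pfC_sound p14_14_0_26)) (pfC_sound p14_14_0_27)) (pfC_sound p14_14_0_28)) (pfC_sound p14_14_0_29)) (pfC_sound p14_14_0_30)) (pfC_sound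 p14_14_0_31)) (pfC_sound p14_14_0_32)) (pfC_sound p14_14_0_33)) (pfC_sound p14_14_0_34)) (pfC_sound p14_14_0_35)) (pfC_sound p14_14_0_36)) (pfC_sound p14_14_0_37)) (pfC_sound p14_14_0_38)) (pfC_sound p14_14_0_39)) (pfC_sound p14_14_0_40)) (pfC_sound p14_14_0_41)) (pfC_sound p14_14_0_42)) (pfC_sound p14_14_0_43)) (pfC_sound p14_14_0_44)) (pfC_sound p14_14_0_45)) (pfC_sound p14_14_0_46)) (pfC_sound p14_14_0_47)) (pfC_sound
 p14_14_0_48)) (pfC_sound p14_14_0_49)) (pfC_sound p14_14_0_50)) (pfC_sound p14_14_0_51)) (pfC_sound p14_14_0_52)) (pfC_sound p14_14_0_53)) (pfC_sound p14_14_0_54)) (pfC_sound p14_14_0_55)) (pfC_sound p14_14_0_56)) (pfC_sound p14_14_0_57)) (pfC_sound p14_14_0_58)) (pfC_sound p14_14_0_59)) (pfC_sound p14_14_0_60)) (pfC_sound p14_14_0_61)) (pfC_sound p14_14_0_62)) (pfC_sound p14_14_0_63)) (pfC_sound p14_14_0_64)) (pfC_sound p14_14_0_65)) (pfC_sound p14_14_0_66)) (pfC_sound p14_14_0_67)) (pfC_sound p14_14_0_68)) (pfC_sound p14_14_0_69)) (pfC_sound p14_14_0_70))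 (pfC_sound p14_14_0_71)) (pfC_sound p14_14_0_72)) (pfC_sound p14_14_0_73)) (pfC_sound p14_14_0_74)) (pfC_sound p14_14_0_75)) (pfC_sound p14_14_0_76)) (pfC_sound p14_14_0_77)) (pfC_sound p14_14_0_78)) (pfC_sound p14_14_0_79)) (pfC_sound p14_14_0_80)) (pfC_sound p14_14_0_81)) (pfC_sound p14_14_0_82)) (pfC_sound p14_14_0_83)) (pfC_sound p14_14_0_84)) (pfC_sound p14_14_0_85)) (pfC_sound p14_14_0_86)) (pfC_sound p14_14_0_87)) (pfC_sound p14_14_0_88)) (pfC_sound p14_14_0_89)) (pfC_sound p14_14_0_90)) (pfC_sound p14_14_0_91)) (pfC_sound p14_14_0_92)) (pfC_sound p14_14_0_93)) (pfC_sound p14_14_0_94)) (pfC_sound p14_14_0_95)) (pfC_sound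
 p14_14_0_96)) (pfC_sound p14_14_0_97)) (pfC_sound p14_14_0_98)) (pfC_sound p14_14_0_99)) (pfC_sound p14_14_0_100)) (pfC_sound p14_14_0_101)) (pfC_sound p14_14_0_102)) (pfC_sound p14_14_0_103)) (pfC_sound p14_14_0_104)) (pfC_sound p14_14_0_105)) (pfC_sound p14_14_0_106)) (pfC_sound p14_14_0_107)) (pfC_sound p14_14_0_108)) (pfC_sound p14_14_0_109)) (pfC_sound p14_14_0_110)) (pfC_sound p14_14_0_111)) (pfC_sound p14_14_0_112)) (pfC_sound p14_14_0_113)) (pfC_sound p14_14_0_114)) (pfC_sound p14_14_0_115)) (pfC_sound p14_14_0_116)) (pfC_sound p14_14_0_117)) (pfC_sound p14_14_0_118)) (pfC_sound p14_14_0_119)) (pfC_sound p14_14_0_120)) (pfC_sound p14_14_0_121)) (pfC_sound p14_14_0_122)) (pfC_sound p14_14_0_123)) (pfC_sound p14_14_0_124)) (pfC_sound p14_14_0_125)) (pfC_sound p14_14_0_126)) (pfC_sound p14_14_0_127)) (pfC_sound p14_14_0_128)) (pfC_sound p14_14_0_129)) (pfC_sound p14_14_0_130)) (pfC_sound p14_14_0_131)) (pfC_sound p14_14_0_132)) (pfC_sound p14_14_0_133)) (pfC_sound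 p14_14_0_134)) (pfC_sound p14_14_0_135)) (pfC_sound p14_14_0_136)) (pfC_sound p14_14_0_137)) (pfC_sound p14_14_0_138)) (pfC_sound p14_14_0_139)) (pfC_sound p14_14_0_140)) (pfC_sound p14_14_0_141)) (pfC_sound
 p14_14_0_142)) (pfC_sound p14_14_0_143)) (pfC_sound p14_14_0_144)) (pfC_sound p14_14_0_145)) (pfC_sound p14_14_0_146)) (pfC_sound p14_14_0_147)) (pfC_sound p14_14_0_148)) (pfC_sound p14_14_0_149)) (pfC_sound p14_14_0_150)) (pfC_sound p14_14_0_151)) (pfC_sound p14_14_0_152)) (pfC_sound p14_14_0_153)) (pfC_sound p14_14_0_154)) (pfC_sound p14_14_0_155)) (pfC_sound p14_14_0_156)) (pfC_sound p14_14_0_157)) (pfC_sound p14_14_0_158)) (pfC_sound p14_14_0_159)) (pfC_sound p14_14_0_160)) (pfC_sound p14_14_0_161)) (pfC_sound p14_14_0_162)) (pfC_sound p14_14_0_163)) (pfC_sound p14_14_0_164)) (pfC_sound p14_14_0_165)) (pfC_sound p14_14_0_166)) (pfC_sound p14_14_0_167)) (pfC_sound p14_14_0_168)) (pfC_sound p14_14_0_169)) (pfC_sound p14_14_0_170)) (pfC_sound p14_14_0_171)) (pfC_sound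 p14_14_0_172)) (pfC_sound p14_14_0_173)) (pfC_sound p14_14_0_174)) (pfC_sound p14_14_0_175)) (pfC_sound p14_14_0_176)) (pfC_sound p14_14_0_177)) (pfC_sound p14_14_0_178)) (pfC_sound p14_14_0_179)) (pfC_sound p14_14_0_180)) (pfC_sound p14_14_0_181)) (pfC_sound p14_14_0_182)) (pfC_sound p14_14_0_183)) (pfC_sound p14_14_0_184)) (pfC_sound p14_14_0_185)) (pfC_sound p14_14_0_186)) (pfC_sound p14_14_0_187)) (pfC_sound
 p14_14_0_188)) (pfC_sound p14_14_0_189)) (pfC_sound p14_14_0_190)) (pfC_sound p14_14_0_191)) (pfC_sound p14_14_0_192)) (pfC_sound p14_14_0_193)) (pfC_sound p14_14_0_194)) (pfC_sound p14_14_0_195)) (pfC_sound p14_14_0_196)) (pfC_sound p14_14_0_197)) (pfC_sound p14_14_0_198)) (pfC_sound p14_14_0_199)) (pfC_sound p14_14_0_200)) (pfC_sound p14_14_0_201)) (pfC_sound p14_14_0_202)) (pfC_sound p14_14_0_203)) (pfC_sound p14_14_0_204)) (pfC_sound p14_14_0_205)) (pfC_sound p14_14_0_206)) (pfC_sound p14_14_0_207)) (pfC_sound p14_14_0_208)) (pfC_sound p14_14_0_209)) (pfC_sound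 p14_14_0_210)) (pfC_sound p14_14_0_211)) (pfC_sound p14_14_0_212)) (pfC_sound p14_14_0_213)) (pfC_sound p14_14_0_214)) (pfC_sound p14_14_0_215)) (pfC_sound p14_14_0_216)) (pfC_sound p14_14_0_217)) (pfC_sound p14_14_0_218)) (pfC_sound p14_14_0_219)) (pfC_sound p14_14_0_220)) (pfC_sound p14_14_0_221)) (pfC_sound p14_14_0_222)) (pfC_sound p14_14_0_223)) (pfC_sound p14_14_0_224)) (pfC_sound p14_14_0_225)) (pfC_sound p14_14_0_226)) (pfC_sound p14_14_0_227)) (pfC_sound p14_14_0_228)) (pfC_sound p14_14_0_229)) (pfC_sound p14_14_0_230)) (pfC_sound p14_14_0_231)) (pfC_sound p14_14_0_232)) (pfC_sound p14_14_0_233)) (pfC_sound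
 p14_14_0_234)) (pfC_sound p14_14_0_235)) (pfC_sound p14_14_0_236)) (pfC_sound p14_14_0_237)) (pfC_sound p14_14_0_238)) (pfC_sound p14_14_0_239)) (pfC_sound p14_14_0_240)) (pfC_sound p14_14_0_241)) (pfC_sound p14_14_0_242)) (pfC_sound p14_14_0_243)) (pfC_sound p14_14_0_244)) (pfC_sound p14_14_0_245)) (pfC_sound p14_14_0_246)) (pfC_sound p14_14_0_247)) (pfC_sound p14_14_0_248)) (pfC_sound p14_14_0_249)) (pfC_sound p14_14_0_250)) (pfC_sound p14_14_0_251)) (pfC_sound p14_14_0_252)) (pfC_sound p14_14_0_253)) (pfC_sound p14_14_0_254)) (pfC_sound p14_14_0_255)) (pfC_sound p14_14_0_256)) (pfC_sound p14_14_0_257)) (pfC_sound p14_14_0_258)) (pfC_sound p14_14_0_259)) (pfC_sound p14_14_0_260)) (pfC_sound p14_14_0_261)) (pfC_sound p14_14_0_262)) (pfC_sound p14_14_0_263)) (pfC_sound p14_14_0_264)) (pfC_sound p14_14_0_265)) (pfC_sound p14_14_0_266)) (pfC_sound p14_14_0_267)) (pfC_sound p14_14_0_268)) (pfC_sound p14_14_0_269)) (pfC_sound p14_14_0_270)) (pfC_sound p14_14_0_271)) (pfC_sound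 p14_14_0_272)) (pfC_sound p14_14_0_273)) (pfC_sound p14_14_0_274)) (pfC_sound p14_14_0_275)) (pfC_sound p14_14_0_276)) (pfC_sound p14_14_0_277)) (pfC_sound p14_14_0_278)) (pfC_sound p14_14_0_279)) (pfC_sound
 p14_14_0_280)) (pfC_sound p14_14_0_281)) (pfC_sound p14_14_0_282)) (pfC_sound p14_14_0_283)) (pfC_sound p14_14_0_284)) (pfC_sound p14_14_0_285)) (pfC_sound p14_14_0_286)) (pfC_sound p14_14_0_287)) (pfC_sound p14_14_0_288)) (pfC_sound p14_14_0_289)) (pfC_sound p14_14_0_290)) (pfC_sound p14_14_0_291)) (pfC_sound p14_14_0_292)) (pfC_sound p14_14_0_293)) (pfC_sound p14_14_0_294)) (pfC_sound p14_14_0_295)) (pfC_sound p14_14_0_296)) (pfC_sound p14_14_0_297)) (pfC_sound p14_14_0_298)) (pfC_sound p14_14_0_299)) (pfC_sound p14_14_0_300)) (pfC_sound p14_14_0_301)) (pfC_sound p14_14_0_302)) (pfC_sound p14_14_0_303)) (pfC_sound p14_14_0_304)) (pfC_sound p14_14_0_305)) (pfC_sound p14_14_0_306)) (pfC_sound p14_14_0_307)) (pfC_sound p14_14_0_308)) (pfC_sound p14_14_0_309)) (pfC_sound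 p14_14_0_310)) (pfC_sound p14_14_0_311)) (pfC_sound p14_14_0_312)) (pfC_sound p14_14_0_313)) (pfC_sound p14_14_0_314)) (pfC_sound p14_14_0_315)) (pfC_sound p14_14_0_316)) (pfC_sound p14_14_0_317)) (pfC_sound p14_14_0_318)) (pfC_sound p14_14_0_319)) (pfC_sound p14_14_0_320)) (pfC_sound p14_14_0_321)) (pfC_sound p14_14_0_322)) (pfC_sound p14_14_0_323)) (pfC_sound p14_14_0_324)) (pfC_sound p14_14_0_325)) (pfC_sound
 p14_14_0_326)) (by decide +kernel)

def z14_14_0 : zOK yB14_14 (nat_lit 0) (nat_lit 0) (nat_lit 400) (nat_lit 22633645) (nat_lit 10642110) = true := by decide +kernel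
def g14_14_0 : gOK yB14_14.x P14_14 (nat_lit 1422) (q14_14 :: r14_14) (nat_lit 0) (nat_lit 0) (nat_lit 1) (nat_lit 400) (nat_lit 0) (nat_lit 11000000) (nat_lit 12712500) (nat_lit 12712500) [(nat_lit 800), (nat_lit 1400), (nat_lit 2200)] = true := by decide +kernel
def v14_14_0 : ivC P14_14 s14_14 w14_14 n14_14 (nat_lit 4) (nat_lit 5380) (nat_lit 0) (nat_lit 0) f160_1_0 f168_1_0 (nat_lit 1) (nat_lit 400) f160_1_400 f168_1_400 (nat_lit 22633645) (nat_lit 10642110) p14_14_0 = true := by decide +kernel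
def p14_14_1 : PF := (PF.cons (PF.cons (PF.cons (PF.cons (PF.leaf (nat_lit 2083997) (nat_lit 9839449) (nat_lit 57269363) (nat_lit 9839449) [(nat_lit 0), (nat_lit 0), (nat_lit 0), (nat_lit 0)]) (PF.cons (PF.leaf (nat_lit 2263879) (nat_lit 311348) (nat_lit 56932078) (nat_lit 9865385) [(nat_lit 311348), (nat_lit 0), (nat_lit 0), (nat_lit 0)]) (PF.cons (PF.leaf (nat_lit 2476664) (nat_lit 339009) (nat_lit 56537665) (nat_lit 9893128) [(nat_lit 339009), (nat_lit 0), (nat_lit 0), (nat_lit 0)]) (PF.cons (PF.leaf (nat_lit 2715923) (nat_lit 363661) (nat_lit 56096819) (nat_lit 9921009) [(nat_lit 363661), (nat_lit 0), (nat_lit 0), (nat_lit 0)]) (PF.cons (PF.leaf (nat_lit 2977901) (nat_lit 385961) (nat_lit 55617190) (nat_lit 9947775) [(nat_lit 385961), (nat_lit 0), (nat_lit 0), (nat_lit 0)]) (PF.cons (PF.leaf (nat_lit 3259689) (nat_lit 406323) (nat_lit 55104735) (nat_lit 9972461) [(nat_lit 406323), (nat_lit 0), (nat_lit 0), (nat_lit 0)]) (PF.cons (PF.leaf (nat_lit 3558889) (nat_lit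 425023) (nat_lit 54564351) (nat_lit 9994321) [(nat_lit 425023), (nat_lit 0), (nat_lit 0), (nat_lit 0)]) (PF.cons (PF.leaf (nat_lit 3873462) (nat_lit 442260) (nat_lit 54000207) (nat_lit 10012783) [(nat_lit 442260), (nat_lit 0), (nat_lit
 0), (nat_lit 0)]) (PF.cons (PF.leaf (nat_lit 4201599) (nat_lit 458181) (nat_lit 53415938) (nat_lit 10027421) [(nat_lit 458181), (nat_lit 0), (nat_lit 0), (nat_lit 0)]) (PF.cons PF.nil (PF.cons PF.nil (PF.cons PF.nil PF.nil)))))))))))) (PF.cons (PF.cons (PF.leaf (nat_lit 2672408) (nat_lit 1360163) (nat_lit 55819082) (nat_lit 9929566) [(nat_lit 0), (nat_lit 1360163), (nat_lit 0), (nat_lit 0)]) (PF.cons (PF.leaf (nat_lit 2904733) (nat_lit 374963) (nat_lit 55383963) (nat_lit 9952098) [(nat_lit 374963), (nat_lit 1397787), (nat_lit 0), (nat_lit 0)]) (PF.cons (PF.leaf (nat_lit 3161991) (nat_lit 396497) (nat_lit 54907802) (nat_lit 9973511) [(nat_lit 396497), (nat_lit 1434504), (nat_lit 0), (nat_lit 0)]) (PF.cons (PF.leaf (nat_lit 3439780) (nat_lit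 416074) (nat_lit 54398011) (nat_lit 9992837) [(nat_lit 416074), (nat_lit 1469739), (nat_lit 0), (nat_lit 0)]) (PF.cons (PF.leaf (nat_lit 3735336) (nat_lit 434005) (nat_lit 53860236) (nat_lit 10009359) [(nat_lit 434005), (nat_lit 1503196), (nat_lit 0), (nat_lit 0)]) (PF.cons (PF.leaf (nat_lit 4046381) (nat_lit 450498) (nat_lit 53299048) (nat_lit 10022545) [(nat_lit 450498), (nat_lit 1534726), (nat_lit 0), (nat_lit 0)]) (PF.cons (PF.leaf (nat_lit
 4370975) (nat_lit 465707) (nat_lit 52718296) (nat_lit 10032006) [(nat_lit 465707), (nat_lit 1564263), (nat_lit 0), (nat_lit 0)]) (PF.cons (PF.leaf (nat_lit 4707405) (nat_lit 479748) (nat_lit 52121308) (nat_lit 10037473) [(nat_lit 479748), (nat_lit 1591792), (nat_lit 0), (nat_lit 0)]) (PF.cons PF.nil (PF.cons PF.nil PF.nil)))))))))) (PF.cons (PF.cons (PF.leaf (nat_lit 3349731) (nat_lit 1466925) (nat_lit 54182242) (nat_lit 9992719) [(nat_lit 0), (nat_lit 1466925), (nat_lit 0), (nat_lit 0)]) (PF.cons (PF.leaf (nat_lit 3621155)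 (nat_lit 424501) (nat_lit 53680098) (nat_lit 10006853) [(nat_lit 424501), (nat_lit 1498679), (nat_lit 0), (nat_lit 0)]) (PF.cons (PF.leaf (nat_lit 3911771) (nat_lit 441853) (nat_lit 53148683) (nat_lit 10018265) [(nat_lit 441853), (nat_lit 1529078), (nat_lit 0), (nat_lit 0)]) (PF.cons (PF.leaf (nat_lit 4218337) (nat_lit 457746) (nat_lit 52593397) (nat_lit 10026438) [(nat_lit 457746), (nat_lit 1557868), (nat_lit 0), (nat_lit 0)]) (PF.cons (PF.leaf (nat_lit 4538666) (nat_lit 472354) (nat_lit 52018545) (nat_lit 10031012) [(nat_lit 472354), (nat_lit 1584919), (nat_lit 0), (nat_lit 0)]) (PF.cons (PF.leaf (nat_lit 4870894) (nat_lit 485804) (nat_lit 51427711) (nat_lit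
 10031741) [(nat_lit 485804), (nat_lit 1610169), (nat_lit 0), (nat_lit 0)]) (PF.cons PF.nil (PF.cons PF.nil (PF.cons PF.nil PF.nil))))))))) (PF.cons (PF.cons (PF.leaf (nat_lit 4089757) (nat_lit 1552716) (nat_lit 52429455) (nat_lit 10021208) [(nat_lit 0), (nat_lit 1552716), (nat_lit 0), (nat_lit 0)]) (PF.cons (PF.leaf (nat_lit 4390163) (nat_lit 464022) (nat_lit 51883363) (nat_lit 10024670) [(nat_lit 464022), (nat_lit 1578918), (nat_lit 0), (nat_lit 0)]) (PF.cons (PF.leaf (nat_lit 4705322) (nat_lit 478144) (nat_lit 51316966) (nat_lit 10024669) [(nat_lit 478144), (nat_lit 1603629), (nat_lit 0), (nat_lit 0)]) (PF.cons (PF.leaf (nat_lit 5032669) (nat_lit 491095) (nat_lit 50734327) (nat_lit 10020979) [(nat_lit 491095), (nat_lit 1626739), (nat_lit 0), (nat_lit 0)]) (PF.cons (PF.leaf (nat_lit 5370481) (nat_lit 502988) (nat_lit 50138785) (nat_lit 10013465) [(nat_lit 502988), (nat_lit 1648201), (nat_lit 0), (nat_lit 0)]) (PF.cons PF.nil (PF.cons PF.nil PF.nil))))))) (PF.cons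 (PF.cons (PF.leaf (nat_lit 4872128) (nat_lit 1620550) (nat_lit 50613425) (nat_lit 10013183) [(nat_lit 0), (nat_lit 1620550), (nat_lit 0), (nat_lit 0)]) (PF.cons (PF.leaf (nat_lit 5193409) (nat_lit 495634) (nat_lit
 50041216) (nat_lit 10005410) [(nat_lit 495634), (nat_lit 1641637), (nat_lit 0), (nat_lit 0)]) (PF.cons (PF.leaf (nat_lit 5525861) (nat_lit 507108) (nat_lit 49455647) (nat_lit 9993981) [(nat_lit 507108), (nat_lit 1661241), (nat_lit 0), (nat_lit 0)]) (PF.cons (PF.leaf (nat_lit 5867460) (nat_lit 517608) (nat_lit 48859827) (nat_lit 9978848) [(nat_lit 517608), (nat_lit 1679327), (nat_lit 0), (nat_lit 0)]) (PF.cons PF.nil PF.nil))))) (PF.cons (PF.cons (PF.leaf (nat_lit 5680526) (nat_lit 1672830) (nat_lit 48774436) (nat_lit 9970225) [(nat_lit 0), (nat_lit 1672830), (nat_lit 0), (nat_lit 0)]) (PF.cons (PF.leaf (nat_lit 6016085) (nat_lit 520708) (nat_lit 48189941) (nat_lit 9951684) [(nat_lit 520708), (nat_lit 1689295), (nat_lit 0), (nat_lit 0)]) (PF.cons PF.nil (PF.cons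 PF.nil PF.nil)))) (PF.cons (PF.cons (PF.leaf (nat_lit 6501855) (nat_lit 1711648) (nat_lit 46943133) (nat_lit 9895786) [(nat_lit 0), (nat_lit 1711648), (nat_lit 0), (nat_lit 0)]) (PF.cons PF.nil PF.nil)) (PF.cons PF.nil PF.nil)))))))) (PF.cons (PF.cons (PF.cons (PF.leaf (nat_lit 3261180) (nat_lit 3506180) (nat_lit 53628334) (nat_lit 9974297) [(nat_lit 0), (nat_lit 0), (nat_lit 3506180), (nat_lit 0)]) (PF.cons (PF.leaf
 (nat_lit 3504187) (nat_lit 402928) (nat_lit 53181218) (nat_lit 9984753) [(nat_lit 402928), (nat_lit 0), (nat_lit 3539911), (nat_lit 0)]) (PF.cons (PF.leaf (nat_lit 3770694) (nat_lit 422932) (nat_lit 52696243) (nat_lit 9993233) [(nat_lit 422932), (nat_lit 0), (nat_lit 3573471), (nat_lit 0)]) (PF.cons (PF.leaf (nat_lit 4056195) (nat_lit 440843) (nat_lit 52181181) (nat_lit 9999096) [(nat_lit 440843), (nat_lit 0), (nat_lit 3606005), (nat_lit 0)]) (PF.cons (PF.leaf (nat_lit 4357802) (nat_lit 457043) (nat_lit 51641798) (nat_lit 10001886) [(nat_lit 457043), (nat_lit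 0), (nat_lit 3636954), (nat_lit 0)]) (PF.cons (PF.leaf (nat_lit 4673214) (nat_lit 471786) (nat_lit 51082644) (nat_lit 10001283) [(nat_lit 471786), (nat_lit 0), (nat_lit 3665952), (nat_lit 0)]) (PF.cons (PF.leaf (nat_lit 5000496) (nat_lit 485253) (nat_lit 50507457) (nat_lit 9997075) [(nat_lit 485253), (nat_lit 0), (nat_lit 3692758), (nat_lit 0)]) (PF.cons (PF.leaf (nat_lit 5337995) (nat_lit 497579) (nat_lit 49919397) (nat_lit 9989130) [(nat_lit 497579), (nat_lit 0), (nat_lit 3717225), (nat_lit 0)]) (PF.cons PF.nil PF.nil))))))))) (PF.cons (PF.cons (PF.leaf (nat_lit 3952470) (nat_lit 1531333) (nat_lit 51976801) (nat_lit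
 9993760) [(nat_lit 0), (nat_lit 1531333), (nat_lit 3606917), (nat_lit 0)]) (PF.cons (PF.leaf (nat_lit 4230387) (nat_lit 446918) (nat_lit 51473262) (nat_lit 9995349) [(nat_lit 446918), (nat_lit 1557880), (nat_lit 3635402), (nat_lit 0)]) (PF.cons (PF.leaf (nat_lit 4525974) (nat_lit 462720) (nat_lit 50943725) (nat_lit 9993948) [(nat_lit 462720), (nat_lit 1583081), (nat_lit 3662615), (nat_lit 0)]) (PF.cons (PF.leaf (nat_lit 4835990) (nat_lit 477020) (nat_lit 50393601) (nat_lit 9989261) [(nat_lit 477020), (nat_lit 1606754), (nat_lit 3688134), (nat_lit 0)]) (PF.cons (PF.leaf (nat_lit 5158230) (nat_lit 490026) (nat_lit 49827110) (nat_lit 9981096) [(nat_lit 490026), (nat_lit 1628811), (nat_lit 3711687), (nat_lit 0)]) (PF.cons (PF.leaf (nat_lit 5490912) (nat_lit 501889) (nat_lit 49247689) (nat_lit 9969345) [(nat_lit 501889), (nat_lit 1649223), (nat_lit 3733105), (nat_lit 0)]) (PF.cons PF.nil PF.nil))))))) (PF.cons (PF.cons (PF.leaf (nat_lit 4695655) (nat_lit 1600674) (nat_lit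 50241443) (nat_lit 9980940) [(nat_lit 0), (nat_lit 1600674), (nat_lit 3685079), (nat_lit 0)]) (PF.cons (PF.leaf (nat_lit 4998704) (nat_lit 481411) (nat_lit 49703180) (nat_lit 9972502) [(nat_lit 481411), (nat_lit
 1622207), (nat_lit 3707303), (nat_lit 0)]) (PF.cons (PF.leaf (nat_lit 5315095) (nat_lit 494063) (nat_lit 49147527) (nat_lit 9960705) [(nat_lit 494063), (nat_lit 1642330), (nat_lit 3727791), (nat_lit 0)]) (PF.cons (PF.leaf (nat_lit 5642317) (nat_lit 505546) (nat_lit 48578417) (nat_lit 9945461) [(nat_lit 505546), (nat_lit 1660973), (nat_lit 3746346), (nat_lit 0)]) (PF.cons (PF.leaf (nat_lit 5978663) (nat_lit 515992) (nat_lit 47999020) (nat_lit 9926743) [(nat_lit 515992), (nat_lit 1678114), (nat_lit 3762852), (nat_lit 0)]) PF.nil))))) (PF.cons (PF.cons (PF.leaf (nat_lit 5472204) (nat_lit 1654389) (nat_lit 48468324) (nat_lit 9936069) [(nat_lit 0), (nat_lit 1654389), (nat_lit 3741248), (nat_lit 0)]) (PF.cons (PF.leaf (nat_lit 5792853) (nat_lit 508551) (nat_lit 47911411)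 (nat_lit 9917661) [(nat_lit 508551), (nat_lit 1671358), (nat_lit 3757112), (nat_lit 0)]) (PF.cons (PF.leaf (nat_lit 6123444) (nat_lit 518681) (nat_lit 47343538) (nat_lit 9895915) [(nat_lit 518681), (nat_lit 1686962), (nat_lit 3771108), (nat_lit 0)]) (PF.cons PF.nil PF.nil)))) (PF.cons (PF.cons (PF.leaf (nat_lit 6267680) (nat_lit 1694621) (nat_lit 46691482) (nat_lit 9861644) [(nat_lit 0), (nat_lit 1694621), (nat_lit
 3777198), (nat_lit 0)]) (PF.cons (PF.leaf (nat_lit 6599936) (nat_lit 529708) (nat_lit 46127983) (nat_lit 9834019) [(nat_lit 529708), (nat_lit 1707510), (nat_lit 3787059), (nat_lit 0)]) PF.nil)) (PF.cons PF.nil PF.nil)))))) (PF.cons (PF.cons (PF.cons (PF.leaf (nat_lit 4540919) (nat_lit 3666186) (nat_lit 49829047) (nat_lit 9947392) [(nat_lit 0), (nat_lit 0), (nat_lit 3666186), (nat_lit 0)]) (PF.cons (PF.leaf (nat_lit 4822569) (nat_lit 464422) (nat_lit 49331444) (nat_lit 9938407) [(nat_lit 464422), (nat_lit 0), (nat_lit 3687269), (nat_lit 0)]) (PF.cons (PF.leaf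 (nat_lit 5120568) (nat_lit 478827) (nat_lit 48810737) (nat_lit 9926333) [(nat_lit 478827), (nat_lit 0), (nat_lit 3707043), (nat_lit 0)]) (PF.cons (PF.leaf (nat_lit 5431654) (nat_lit 491710) (nat_lit 48272239) (nat_lit 9911048) [(nat_lit 491710), (nat_lit 0), (nat_lit 3725196), (nat_lit 0)]) (PF.cons (PF.leaf (nat_lit 5753667) (nat_lit 503306) (nat_lit 47720023) (nat_lit 9892492) [(nat_lit 503306), (nat_lit 0), (nat_lit 3741535), (nat_lit 0)]) (PF.cons (PF.leaf (nat_lit 6084836) (nat_lit 513782) (nat_lit 47157348) (nat_lit 9870658) [(nat_lit 513782), (nat_lit 0), (nat_lit 3755947), (nat_lit 0)]) (PF.cons PF.nil PF.nil)))))))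
 (PF.cons (PF.cons (PF.leaf (nat_lit 5281479) (nat_lit 1634621) (nat_lit 48132086) (nat_lit 9900611) [(nat_lit 0), (nat_lit 1634621), (nat_lit 3720746), (nat_lit 0)]) (PF.cons (PF.leaf (nat_lit 5585048) (nat_lit 494548) (nat_lit 47607180) (nat_lit 9882447) [(nat_lit 494548), (nat_lit 1652204), (nat_lit 3736215), (nat_lit 0)]) (PF.cons (PF.leaf (nat_lit 5900709) (nat_lit 505899) (nat_lit 47067334) (nat_lit 9861100) [(nat_lit 505899), (nat_lit 1668456), (nat_lit 3750060), (nat_lit 0)]) (PF.cons (PF.leaf (nat_lit 6226045) (nat_lit 516094) (nat_lit 46516307) (nat_lit 9836587) [(nat_lit 516094), (nat_lit 1683341), (nat_lit 3762146), (nat_lit 0)]) (PF.cons PF.nil PF.nil))))) (PF.cons (PF.cons (PF.leaf (nat_lit 6048166) (nat_lit 1676560) (nat_lit 46416610) (nat_lit 9826238) [(nat_lit 0), (nat_lit 1676560), (nat_lit 3756421), (nat_lit 0)]) (PF.cons (PF.leaf (nat_lit 6366607) (nat_lit 517836) (nat_lit 45878836) (nat_lit 9799356) [(nat_lit 517836), (nat_lit 1690060), (nat_lit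 3766331), (nat_lit 0)]) (PF.cons (PF.leaf (nat_lit 6693942) (nat_lit 526793) (nat_lit 45332040) (nat_lit 9769460) [(nat_lit 526793), (nat_lit 1702305), (nat_lit 3774557), (nat_lit 0)]) (PF.cons PF.nil PF.nil))))
 (PF.cons (PF.cons (PF.leaf (nat_lit 6828161) (nat_lit 1706778) (nat_lit 44711361) (nat_lit 9727212) [(nat_lit 0), (nat_lit 1706778), (nat_lit 3774951), (nat_lit 0)]) (PF.cons PF.nil PF.nil)) (PF.cons PF.nil PF.nil))))) (PF.cons (PF.cons (PF.cons (PF.leaf (nat_lit 5845770) (nat_lit 3735350) (nat_lit 46113548) (nat_lit 9789214) [(nat_lit 0), (nat_lit 0), (nat_lit 3735350), (nat_lit 0)]) (PF.cons (PF.leaf (nat_lit 6148201) (nat_lit 504158) (nat_lit 45605713) (nat_lit 9763244) [(nat_lit 504158), (nat_lit 0), (nat_lit 3745232), (nat_lit 0)]) (PF.cons (PF.leaf (nat_lit 6461689) (nat_lit 514358) (nat_lit 45084986) (nat_lit 9734301) [(nat_lit 514358), (nat_lit 0), (nat_lit 3753602), (nat_lit 0)]) (PF.cons (PF.leaf (nat_lit 6783853) (nat_lit 523423) (nat_lit 44554931)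 (nat_lit 9702479) [(nat_lit 523423), (nat_lit 0), (nat_lit 3760377), (nat_lit 0)]) (PF.cons PF.nil PF.nil))))) (PF.cons (PF.cons (PF.leaf (nat_lit 6599730) (nat_lit 1689273) (nat_lit 44465007) (nat_lit 9691647) [(nat_lit 0), (nat_lit 1689273), (nat_lit 3754294), (nat_lit 0)]) (PF.cons (PF.leaf (nat_lit 6914802) (nat_lit 524128) (nat_lit 43948737) (nat_lit 9658132) [(nat_lit 524128), (nat_lit 1699851), (nat_lit 3759321),
 (nat_lit 0)]) (PF.cons (PF.leaf (nat_lit 7237885) (nat_lit 532059) (nat_lit 43425003) (nat_lit 9621911) [(nat_lit 532059), (nat_lit 1709277), (nat_lit 3762833), (nat_lit 0)]) (PF.cons PF.nil PF.nil)))) (PF.cons (PF.cons (PF.leaf (nat_lit 7362608) (nat_lit 1711169) (nat_lit 42836562) (nat_lit 9573757) [(nat_lit 0), (nat_lit 1711169), (nat_lit 3758717), (nat_lit 0)]) (PF.cons PF.nil PF.nil)) PF.nil))) (PF.cons (PF.cons (PF.cons (PF.leaf (nat_lit 7127231) (nat_lit 3738505) (nat_lit 42616006) (nat_lit 9538783) [(nat_lit 0), (nat_lit 0), (nat_lit 3738505),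 (nat_lit 0)]) (PF.cons (PF.leaf (nat_lit 7438097) (nat_lit 527953) (nat_lit 42122512) (nat_lit 9500176) [(nat_lit 527953), (nat_lit 0), (nat_lit 3739542), (nat_lit 0)]) (PF.cons PF.nil PF.nil))) (PF.cons (PF.cons (PF.leaf (nat_lit 7872022) (nat_lit 1709322) (nat_lit 41066515) (nat_lit 9406761) [(nat_lit 0), (nat_lit 1709322), (nat_lit 3731553), (nat_lit 0)]) PF.nil) PF.nil)) (PF.cons PF.nil (PF.cons PF.nil (PF.cons PF.nil PF.nil)))))))) (PF.cons (PF.cons (PF.cons (PF.cons (PF.leaf (nat_lit 4243121) (nat_lit 9221947) (nat_lit 48144752) (nat_lit 9742112) [(nat_lit 0), (nat_lit 0), (nat_lit 0), (nat_lit 9221947)]) (PF.cons (PF.leaf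
 (nat_lit 4483839) (nat_lit 417483) (nat_lit 47740562) (nat_lit 9733893) [(nat_lit 417483), (nat_lit 0), (nat_lit 0), (nat_lit 9216874)]) (PF.cons (PF.leaf (nat_lit 4746168) (nat_lit 435969) (nat_lit 47304424) (nat_lit 9723038) [(nat_lit 435969), (nat_lit 0), (nat_lit 0), (nat_lit 9209411)]) (PF.cons (PF.leaf (nat_lit 5025473) (nat_lit 452161) (nat_lit 46843570) (nat_lit 9709399) [(nat_lit 452161), (nat_lit 0), (nat_lit 0), (nat_lit 9199357)]) (PF.cons (PF.leaf (nat_lit 5318840) (nat_lit 466515) (nat_lit 46363288) (nat_lit 9692880) [(nat_lit 466515), (nat_lit 0), (nat_lit 0), (nat_lit 9186580)]) (PF.cons (PF.leaf (nat_lit 5624041) (nat_lit 479339) (nat_lit 45867676) (nat_lit 9673432) [(nat_lit 479339), (nat_lit 0), (nat_lit 0), (nat_lit 9171004)]) (PF.cons (PF.leaf (nat_lit 5939169) (nat_lit 490855) (nat_lit 45360035) (nat_lit 9651047) [(nat_lit 490855), (nat_lit 0), (nat_lit 0), (nat_lit 9152600)]) (PF.cons (PF.leaf (nat_lit 6262725) (nat_lit 501227) (nat_lit 44843095)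 (nat_lit 9625750) [(nat_lit 501227), (nat_lit 0), (nat_lit 0), (nat_lit 9131376)]) (PF.cons PF.nil (PF.cons PF.nil PF.nil)))))))))) (PF.cons (PF.cons (PF.leaf (nat_lit 4910508) (nat_lit 1554460) (nat_lit 46667809)
 (nat_lit 9697702) [(nat_lit 0), (nat_lit 1554460), (nat_lit 0), (nat_lit 9188841)]) (PF.cons (PF.leaf (nat_lit 5181329) (nat_lit 455757) (nat_lit 46219854) (nat_lit 9681665) [(nat_lit 455757), (nat_lit 1575224), (nat_lit 0), (nat_lit 9176310)]) (PF.cons (PF.leaf (nat_lit 5467920) (nat_lit 469835) (nat_lit 45750760) (nat_lit 9662754) [(nat_lit 469835), (nat_lit 1594549), (nat_lit 0), (nat_lit 9161078)]) (PF.cons (PF.leaf (nat_lit 5767069) (nat_lit 482336) (nat_lit 45265387) (nat_lit 9640960) [(nat_lit 482336), (nat_lit 1612349), (nat_lit 0), (nat_lit 9143106)]) (PF.cons (PF.leaf (nat_lit 6076691) (nat_lit 493511) (nat_lit 44767461) (nat_lit 9616304) [(nat_lit 493511), (nat_lit 1628613), (nat_lit 0), (nat_lit 9122387)]) (PF.cons (PF.leaf (nat_lit 6395037) (nat_lit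 503541) (nat_lit 44259960) (nat_lit 9588831) [(nat_lit 503541), (nat_lit 1643366), (nat_lit 0), (nat_lit 9098948)]) (PF.cons (PF.leaf (nat_lit 6720675) (nat_lit 512562) (nat_lit 43745333) (nat_lit 9558608) [(nat_lit 512562), (nat_lit 1656653), (nat_lit 0), (nat_lit 9072841)]) (PF.cons PF.nil (PF.cons PF.nil PF.nil))))))))) (PF.cons (PF.cons (PF.leaf (nat_lit 5618564) (nat_lit 1605139) (nat_lit 45137012) (nat_lit 9629257)
 [(nat_lit 0), (nat_lit 1605139), (nat_lit 0), (nat_lit 9132264)]) (PF.cons (PF.leaf (nat_lit 5910293) (nat_lit 484626) (nat_lit 44664049) (nat_lit 9605427) [(nat_lit 484626), (nat_lit 1621260), (nat_lit 0), (nat_lit 9112188)]) (PF.cons (PF.leaf (nat_lit 6213662) (nat_lit 495565) (nat_lit 44177428) (nat_lit 9578775) [(nat_lit 495565), (nat_lit 1636028), (nat_lit 0), (nat_lit 9089419)]) (PF.cons (PF.leaf (nat_lit 6526299) (nat_lit 505331) (nat_lit 43680568) (nat_lit 9549377) [(nat_lit 505331), (nat_lit 1649432), (nat_lit 0), (nat_lit 9064007)]) (PF.cons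 (PF.leaf (nat_lit 6846594) (nat_lit 514078) (nat_lit 43176178) (nat_lit 9517318) [(nat_lit 514078), (nat_lit 1661491), (nat_lit 0), (nat_lit 9036019)]) (PF.cons PF.nil (PF.cons PF.nil PF.nil))))))) (PF.cons (PF.cons (PF.leaf (nat_lit 6351219) (nat_lit 1642371) (nat_lit 43589378) (nat_lit 9538540) [(nat_lit 0), (nat_lit 1642371), (nat_lit 0), (nat_lit 9053780)]) (PF.cons (PF.leaf (nat_lit 6657114) (nat_lit 506592) (nat_lit 43104561) (nat_lit 9507485) [(nat_lit 506592), (nat_lit 1654507), (nat_lit 0), (nat_lit 9026651)]) (PF.cons (PF.leaf (nat_lit 6971582) (nat_lit 515134) (nat_lit 42611449) (nat_lit 9473830) [(nat_lit 515134),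
 (nat_lit 1665416), (nat_lit 0), (nat_lit 8997015)]) (PF.cons (PF.leaf (nat_lit 7292763) (nat_lit 522759) (nat_lit 42112518) (nat_lit 9437691) [(nat_lit 522759), (nat_lit 1675118), (nat_lit 0), (nat_lit 8964969)]) (PF.cons PF.nil PF.nil))))) (PF.cons (PF.cons (PF.leaf (nat_lit 7096539) (nat_lit 1668488) (nat_lit 42050724) (nat_lit 9428225) [(nat_lit 0), (nat_lit 1668488), (nat_lit 0), (nat_lit 8955910)]) (PF.cons (PF.leaf (nat_lit 7411489) (nat_lit 523186) (nat_lit 41563485) (nat_lit 9390798) [(nat_lit 523186), (nat_lit 1677205), (nat_lit 0), (nat_lit 8922519)]) (PF.cons PF.nil (PF.cons PF.nil PF.nil)))) (PF.cons (PF.cons (PF.leaf (nat_lit 7845472) (nat_lit 1685338) (nat_lit 40539204) (nat_lit 9301350) [(nat_lit 0), (nat_lit 1685338), (nat_lit 0), (nat_lit 8841566)]) (PF.cons PF.nil PF.nil)) (PF.cons PF.nil (PF.cons PF.nil PF.nil)))))))) (PF.cons (PF.cons (PF.cons (PF.leaf (nat_lit 5448144) (nat_lit 3627876) (nat_lit 44796250) (nat_lit 9589742) [(nat_lit 0), (nat_lit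 0), (nat_lit 3627876), (nat_lit 9094943)]) (PF.cons (PF.leaf (nat_lit 5720298) (nat_lit 467419) (nat_lit 44358807) (nat_lit 9567104) [(nat_lit 467419), (nat_lit 0), (nat_lit 3639649), (nat_lit 9075832)]) (PF.cons
 (PF.leaf (nat_lit 6007101) (nat_lit 480260) (nat_lit 43902494) (nat_lit 9541618) [(nat_lit 480260), (nat_lit 0), (nat_lit 3650140), (nat_lit 9054039)]) (PF.cons (PF.leaf (nat_lit 6305407) (nat_lit 491544) (nat_lit 43431992) (nat_lit 9513381) [(nat_lit 491544), (nat_lit 0), (nat_lit 3659177), (nat_lit 9029627)]) (PF.cons (PF.leaf (nat_lit 6613136) (nat_lit 501536) (nat_lit 42950843) (nat_lit 9482490) [(nat_lit 501536), (nat_lit 0), (nat_lit 3666664), (nat_lit 9002667)]) (PF.cons (PF.leaf (nat_lit 6928635) (nat_lit 510426) (nat_lit 42461834) (nat_lit 9449045) [(nat_lit 510426), (nat_lit 0), (nat_lit 3672561), (nat_lit 8973240)]) (PF.cons PF.nil (PF.cons PF.nil (PF.cons PF.nil PF.nil))))))))) (PF.cons (PF.cons (PF.leaf (nat_lit 6149591) (nat_lit 1622231) (nat_lit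 43314564) (nat_lit 9500862) [(nat_lit 0), (nat_lit 1622231), (nat_lit 3653221), (nat_lit 9017932)]) (PF.cons (PF.leaf (nat_lit 6440188) (nat_lit 492679) (nat_lit 42857257) (nat_lit 9471182) [(nat_lit 492679), (nat_lit 1635299), (nat_lit 3660391), (nat_lit 8992002)]) (PF.cons (PF.leaf (nat_lit 6741454) (nat_lit 502530) (nat_lit 42388074) (nat_lit 9438859) [(nat_lit 502530), (nat_lit 1647115), (nat_lit 3666154), (nat_lit
 8963547)]) (PF.cons (PF.leaf (nat_lit 7051084) (nat_lit 511240) (nat_lit 41910249) (nat_lit 9404027) [(nat_lit 511240), (nat_lit 1657685), (nat_lit 3670452), (nat_lit 8932676)]) (PF.cons (PF.leaf (nat_lit 7367533) (nat_lit 518971) (nat_lit 41426311) (nat_lit 9366812) [(nat_lit 518971), (nat_lit 1667039), (nat_lit 3673266), (nat_lit 8899498)]) (PF.cons PF.nil (PF.cons PF.nil PF.nil))))))) (PF.cons (PF.cons (PF.leaf (nat_lit 6870544) (nat_lit 1650675) (nat_lit 41828041) (nat_lit 9393025) [(nat_lit 0), (nat_lit 1650675), (nat_lit 3664145), (nat_lit 8922249)])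 (PF.cons (PF.leaf (nat_lit 7173313) (nat_lit 511590) (nat_lit 41362615) (nat_lit 9357055) [(nat_lit 511590), (nat_lit 1660206), (nat_lit 3666965), (nat_lit 8890172)]) (PF.cons (PF.leaf (nat_lit 7483846) (nat_lit 519186) (nat_lit 40890226) (nat_lit 9318736) [(nat_lit 519186), (nat_lit 1668617), (nat_lit 3668410), (nat_lit 8855830)]) (PF.cons PF.nil (PF.cons PF.nil PF.nil))))) (PF.cons (PF.cons (PF.leaf (nat_lit 7600340) (nat_lit 1669496) (nat_lit 40358498) (nat_lit 9268978) [(nat_lit 0), (nat_lit 1669496), (nat_lit 3662358), (nat_lit 8810489)]) (PF.cons (PF.leaf (nat_lit 7910610) (nat_lit 525604) (nat_lit 39893199) (nat_lit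
 9227614) [(nat_lit 525604), (nat_lit 1676011), (nat_lit 3661258), (nat_lit 8773102)]) (PF.cons PF.nil (PF.cons PF.nil PF.nil)))) (PF.cons (PF.cons (PF.leaf (nat_lit 8331025) (nat_lit 1680319) (nat_lit 38920918) (nat_lit 9131582) [(nat_lit 0), (nat_lit 1680319), (nat_lit 3649638), (nat_lit 8685394)]) (PF.cons PF.nil PF.nil)) (PF.cons PF.nil PF.nil)))))) (PF.cons (PF.cons (PF.cons (PF.leaf (nat_lit 6660849) (nat_lit 3642653) (nat_lit 41580929) (nat_lit 9355809) [(nat_lit 0), (nat_lit 0), (nat_lit 3642653), (nat_lit 8886767)]) (PF.cons (PF.leaf (nat_lit 6949255) (nat_lit 498187) (nat_lit 41141000) (nat_lit 9321539) [(nat_lit 498187), (nat_lit 0), (nat_lit 3645933), (nat_lit 8856217)]) (PF.cons (PF.leaf (nat_lit 7247522) (nat_lit 507081) (nat_lit 40690689) (nat_lit 9284813) [(nat_lit 507081), (nat_lit 0), (nat_lit 3647914), (nat_lit 8823318)]) (PF.cons (PF.leaf (nat_lit 7553372) (nat_lit 514867) (nat_lit 40233038) (nat_lit 9245805) [(nat_lit 514867), (nat_lit 0), (nat_lit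 3648571), (nat_lit 8788222)]) (PF.cons PF.nil PF.nil))))) (PF.cons (PF.cons (PF.leaf (nat_lit 7368535) (nat_lit 1652552) (nat_lit 40159078) (nat_lit 9234884) [(nat_lit 0), (nat_lit 1652552), (nat_lit 3642229),
 (nat_lit 8777839)]) (PF.cons (PF.leaf (nat_lit 7667475) (nat_lit 514472) (nat_lit 39713883) (nat_lit 9195171) [(nat_lit 514472), (nat_lit 1659892), (nat_lit 3641714), (nat_lit 8741964)]) (PF.cons (PF.leaf (nat_lit 7973495) (nat_lit 521242) (nat_lit 39262806) (nat_lit 9153342) [(nat_lit 521242), (nat_lit 1666208), (nat_lit 3639960), (nat_lit 8704047)]) (PF.cons PF.nil PF.nil)))) (PF.cons (PF.cons (PF.leaf (nat_lit 8082055) (nat_lit 1665317) (nat_lit 38759703) (nat_lit 9100685) [(nat_lit 0), (nat_lit 1665317), (nat_lit 3631043), (nat_lit 8655701)]) (PF.cons (PF.leaf (nat_lit 8387219) (nat_lit 526281) (nat_lit 38316480) (nat_lit 9056428) [(nat_lit 526281), (nat_lit 1669989), (nat_lit 3627149), (nat_lit 8615344)]) PF.nil)) (PF.cons PF.nil (PF.cons PF.nil PF.nil)))))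 (PF.cons (PF.cons (PF.cons (PF.leaf (nat_lit 7845858) (nat_lit 3611782) (nat_lit 38581092) (nat_lit 9068004) [(nat_lit 0), (nat_lit 0), (nat_lit 3611782), (nat_lit 8624368)]) (PF.cons (PF.leaf (nat_lit 8140452) (nat_lit 515615) (nat_lit 38156376) (nat_lit 9025520) [(nat_lit 515615), (nat_lit 0), (nat_lit 3608550), (nat_lit 8585648)]) (PF.cons (PF.leaf (nat_lit 8441565) (nat_lit 521664) (nat_lit 37726651) (nat_lit 8981133)
 [(nat_lit 521664), (nat_lit 0), (nat_lit 3604202), (nat_lit 8545091)]) (PF.cons PF.nil PF.nil)))) (PF.cons (PF.cons (PF.leaf (nat_lit 8542718) (nat_lit 1656991) (nat_lit 37251351) (nat_lit 8926581) [(nat_lit 0), (nat_lit 1656991), (nat_lit 3593052), (nat_lit 8494729)]) (PF.cons PF.nil PF.nil)) (PF.cons PF.nil PF.nil))) (PF.cons (PF.cons (PF.cons (PF.leaf (nat_lit 8983462) (nat_lit 3549977) (nat_lit 35829576) (nat_lit 8749229) [(nat_lit 0), (nat_lit 0), (nat_lit 3549977), (nat_lit 8330096)]) (PF.cons PF.nil PF.nil)) (PF.cons PF.nil PF.nil)) (PF.cons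 PF.nil PF.nil)))))) (PF.cons (PF.cons (PF.cons (PF.cons (PF.leaf (nat_lit 6243097) (nat_lit 8708970) (nat_lit 40520828) (nat_lit 9170043) [(nat_lit 0), (nat_lit 0), (nat_lit 0), (nat_lit 8708970)]) (PF.cons (PF.leaf (nat_lit 6504832) (nat_lit 463348) (nat_lit 40139175) (nat_lit 9140559) [(nat_lit 463348), (nat_lit 0), (nat_lit 0), (nat_lit 8682864)]) (PF.cons (PF.leaf (nat_lit 6779919) (nat_lit 474937) (nat_lit 39741818) (nat_lit 9108487) [(nat_lit 474937), (nat_lit 0), (nat_lit 0), (nat_lit 8654316)]) (PF.cons (PF.leaf (nat_lit 7065314) (nat_lit 484977) (nat_lit 39332830) (nat_lit 9074040) [(nat_lit 484977), (nat_lit 0), (nat_lit 0),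
 (nat_lit 8623504)]) (PF.cons (PF.leaf (nat_lit 7359018) (nat_lit 493750) (nat_lit 38915258) (nat_lit 9037392) [(nat_lit 493750), (nat_lit 0), (nat_lit 0), (nat_lit 8590579)]) (PF.cons (PF.leaf (nat_lit 7659492) (nat_lit 501456) (nat_lit 38491481) (nat_lit 8998699) [(nat_lit 501456), (nat_lit 0), (nat_lit 0), (nat_lit 8555675)]) (PF.cons PF.nil PF.nil))))))) (PF.cons (PF.cons (PF.leaf (nat_lit 6907284) (nat_lit 1590548) (nat_lit 39234605) (nat_lit 9061075) [(nat_lit 0), (nat_lit 1590548), (nat_lit 0), (nat_lit 8611292)]) (PF.cons (PF.leaf (nat_lit 7185010) (nat_lit 484995) (nat_lit 38837672) (nat_lit 9026039) [(nat_lit 484995), (nat_lit 1600494), (nat_lit 0), (nat_lit 8579805)]) (PF.cons (PF.leaf (nat_lit 7472350) (nat_lit 493704) (nat_lit 38430995) (nat_lit 8988769) [(nat_lit 493704), (nat_lit 1609274), (nat_lit 0), (nat_lit 8546182)]) (PF.cons (PF.leaf (nat_lit 7767094) (nat_lit 501305) (nat_lit 38017343) (nat_lit 8949454) [(nat_lit 501305), (nat_lit 1616920), (nat_lit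 0), (nat_lit 8510589)]) (PF.cons (PF.leaf (nat_lit 8067796) (nat_lit 507966) (nat_lit 37598861) (nat_lit 8908256) [(nat_lit 507966), (nat_lit 1623483), (nat_lit 0), (nat_lit 8473173)]) PF.nil))))) (PF.cons (PF.cons
 (PF.leaf (nat_lit 7586774) (nat_lit 1609975) (nat_lit 37949443) (nat_lit 8938707) [(nat_lit 0), (nat_lit 1609975), (nat_lit 0), (nat_lit 8500355)]) (PF.cons (PF.leaf (nat_lit 7874840) (nat_lit 500765) (nat_lit 37546876) (nat_lit 8898975) [(nat_lit 500765), (nat_lit 1616829), (nat_lit 0), (nat_lit 8464269)]) (PF.cons (PF.leaf (nat_lit 8169840) (nat_lit 507358) (nat_lit 37138669) (nat_lit 8857351) [(nat_lit 507358), (nat_lit 1622679), (nat_lit 0), (nat_lit 8426357)]) (PF.cons PF.nil PF.nil)))) (PF.cons (PF.cons (PF.leaf (nat_lit 8272461) (nat_lit 1621360) (nat_lit 36682359) (nat_lit 8805396) [(nat_lit 0), (nat_lit 1621360), (nat_lit 0), (nat_lit 8378487)]) (PF.cons (PF.leaf (nat_lit 8566755) (nat_lit 512123) (nat_lit 36280772) (nat_lit 8761801) [(nat_lit 512123),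 (nat_lit 1625648), (nat_lit 0), (nat_lit 8338584)]) PF.nil)) (PF.cons PF.nil PF.nil))))) (PF.cons (PF.cons (PF.cons (PF.leaf (nat_lit 7374555) (nat_lit 3524609) (nat_lit 37747183) (nat_lit 8903551) [(nat_lit 0), (nat_lit 0), (nat_lit 3524609), (nat_lit 8466734)]) (PF.cons (PF.leaf (nat_lit 7649623) (nat_lit 487867) (nat_lit 37366226) (nat_lit 8865848) [(nat_lit 487867), (nat_lit 0), (nat_lit 3523846), (nat_lit 8432511)])
 (PF.cons (PF.leaf (nat_lit 7933647) (nat_lit 495766) (nat_lit 36976648) (nat_lit 8826069) [(nat_lit 495766), (nat_lit 0), (nat_lit 3521954), (nat_lit 8396303)]) (PF.cons (PF.leaf (nat_lit 8224448) (nat_lit 502598) (nat_lit 36581048) (nat_lit 8784426) [(nat_lit 502598), (nat_lit 0), (nat_lit 3518940), (nat_lit 8358300)]) (PF.cons PF.nil PF.nil))))) (PF.cons (PF.cons (PF.leaf (nat_lit 8041139) (nat_lit 1605354) (nat_lit 36519973) (nat_lit 8774028) [(nat_lit 0), (nat_lit 1605354), (nat_lit 3512702), (nat_lit 8348377)]) (PF.cons (PF.leaf (nat_lit 8325289)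 (nat_lit 501511) (nat_lit 36135315) (nat_lit 8732249) [(nat_lit 501511), (nat_lit 1610523), (nat_lit 3508895), (nat_lit 8310158)]) (PF.cons (PF.leaf (nat_lit 8615823) (nat_lit 507426) (nat_lit 35745799) (nat_lit 8688758) [(nat_lit 507426), (nat_lit 1614775), (nat_lit 3504052), (nat_lit 8270286)]) (PF.cons PF.nil PF.nil)))) (PF.cons (PF.cons (PF.leaf (nat_lit 8711767) (nat_lit 1612218) (nat_lit 35314027) (nat_lit 8635595) [(nat_lit 0), (nat_lit 1612218), (nat_lit 3492593), (nat_lit 8221080)]) (PF.cons PF.nil PF.nil)) PF.nil))) (PF.cons (PF.cons (PF.cons (PF.leaf (nat_lit 8477746) (nat_lit 3474720) (nat_lit 35168317) (nat_lit 8605919)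
 [(nat_lit 0), (nat_lit 0), (nat_lit 3474720), (nat_lit 8192566)]) (PF.cons (PF.leaf (nat_lit 8757652) (nat_lit 501000) (nat_lit 34801384) (nat_lit 8562720) [(nat_lit 501000), (nat_lit 0), (nat_lit 3469019), (nat_lit 8152834)]) (PF.cons PF.nil PF.nil))) (PF.cons (PF.cons (PF.leaf (nat_lit 9133214) (nat_lit 1600260) (nat_lit 34021986) (nat_lit 8464215) [(nat_lit 0), (nat_lit 1600260), (nat_lit 3449506), (nat_lit 8061669)]) PF.nil) PF.nil)) (PF.cons PF.nil (PF.cons PF.nil PF.nil))))) (PF.cons (PF.cons (PF.cons (PF.cons (PF.leaf (nat_lit 8009284) (nat_lit 8052873) (nat_lit 34489829) (nat_lit 8460363) [(nat_lit 0), (nat_lit 0), (nat_lit 0), (nat_lit 8052873)]) (PF.cons (PF.leaf (nat_lit 8271954) (nat_lit 475317) (nat_lit 34158801) (nat_lit 8421885) [(nat_lit 475317), (nat_lit 0), (nat_lit 0), (nat_lit 8017602)]) (PF.cons (PF.leaf (nat_lit 8542868) (nat_lit 482438) (nat_lit 33820450) (nat_lit 8381620) [(nat_lit 482438), (nat_lit 0), (nat_lit 0), (nat_lit 7980621)]) (PF.cons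 (PF.leaf (nat_lit 8819957) (nat_lit 488534) (nat_lit 33477008) (nat_lit 8339793) [(nat_lit 488534), (nat_lit 0), (nat_lit 0), (nat_lit 7942136)]) (PF.cons PF.nil PF.nil))))) (PF.cons (PF.cons (PF.leaf (nat_lit
 8639499) (nat_lit 1553632) (nat_lit 33426245) (nat_lit 8330167) [(nat_lit 0), (nat_lit 1553632), (nat_lit 0), (nat_lit 7932922)]) (PF.cons (PF.leaf (nat_lit 8910203) (nat_lit 487014) (nat_lit 33092309) (nat_lit 8288530) [(nat_lit 487014), (nat_lit 1557313), (nat_lit 0), (nat_lit 7894548)]) (PF.cons PF.nil (PF.cons PF.nil PF.nil)))) (PF.cons (PF.cons (PF.leaf (nat_lit 9272691) (nat_lit 1556625) (nat_lit 32381480) (nat_lit 8193825) [(nat_lit 0), (nat_lit 1556625), (nat_lit 0), (nat_lit 7806751)]) (PF.cons PF.nil PF.nil)) PF.nil))) (PF.cons (PF.cons (PF.cons (PF.leaf (nat_lit 9042567) (nat_lit 3336488) (nat_lit 32261584) (nat_lit 8167243) [(nat_lit 0), (nat_lit 0), (nat_lit 3336488), (nat_lit 7781165)]) (PF.cons (PF.leaf (nat_lit 9309225) (nat_lit 485482) (nat_lit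 31942750) (nat_lit 8124979) [(nat_lit 485482), (nat_lit 0), (nat_lit 3329401), (nat_lit 7742066)]) PF.nil)) (PF.cons PF.nil PF.nil)) (PF.cons PF.nil PF.nil))) (PF.cons (PF.cons (PF.cons (PF.cons (PF.leaf (nat_lit 9554412) (nat_lit 7396154) (nat_lit 29766427) (nat_lit 7757769) [(nat_lit 0), (nat_lit 0), (nat_lit 0), (nat_lit 7396154)]) (PF.cons PF.nil PF.nil)) (PF.cons PF.nil PF.nil)) (PF.cons PF.nil PF.nil)) (PF.cons PF.nil
 (PF.cons PF.nil (PF.cons PF.nil PF.nil))))))))

def p14_14_1_0 : pfC (piC [(nat_lit 38167130), (nat_lit 25010362), (nat_lit 18643303), (nat_lit 12552662)] (nat_lit 10642110)) p14_14_1 (nat_lit 4) (nat_lit 0) (nat_lit 1) = true := by decide +kernel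
def p14_14_1_1 : pfC (piC [(nat_lit 38167130), (nat_lit 25010362), (nat_lit 18643303), (nat_lit 12552662)] (nat_lit 10642110)) p14_14_1 (nat_lit 4) (nat_lit 1) (nat_lit 2) = true := by decide +kernel
def p14_14_1_2 : pfC (piC [(nat_lit 38167130), (nat_lit 25010362), (nat_lit 18643303), (nat_lit 12552662)] (nat_lit 10642110)) p14_14_1 (nat_lit 4) (nat_lit 2) (nat_lit 3) = true := by decide +kernel
def p14_14_1_3 : pfC (piC [(nat_lit 38167130), (nat_lit 25010362), (nat_lit 18643303), (nat_lit 12552662)] (nat_lit 10642110)) p14_14_1 (nat_lit 4) (nat_lit 3) (nat_lit 4) = true := by decide +kernel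
def p14_14_1_4 : pfC (piC [(nat_lit 38167130), (nat_lit 25010362), (nat_lit 18643303), (nat_lit 12552662)] (nat_lit 10642110)) p14_14_1 (nat_lit 4) (nat_lit 4) (nat_lit 5) = true := by decide +kernel
def p14_14_1_5 : pfC (piC [(nat_lit 38167130), (nat_lit 25010362), (nat_lit 18643303), (nat_lit 12552662)] (nat_lit 10642110)) p14_14_1 (nat_lit 4) (nat_lit 5) (nat_lit 6) = true := by decide +kernel
def p14_14_1_6 : pfC (piC [(nat_lit 38167130), (nat_lit 25010362), (nat_lit 18643303), (nat_lit 12552662)] (nat_lit 10642110)) p14_14_1 (nat_lit 4) (nat_lit 6) (nat_lit 7) = true := by decide +kernel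
def p14_14_1_7 : pfC (piC [(nat_lit 38167130), (nat_lit 25010362), (nat_lit 18643303), (nat_lit 12552662)] (nat_lit 10642110)) p14_14_1 (nat_lit 4) (nat_lit 7) (nat_lit 8) = true := by decide +kernel
def p14_14_1_8 : pfC (piC [(nat_lit 38167130), (nat_lit 25010362), (nat_lit 18643303), (nat_lit 12552662)] (nat_lit 10642110)) p14_14_1 (nat_lit 4) (nat_lit 8) (nat_lit 9) = true := by decide +kernel
def p14_14_1_9 : pfC (piC [(nat_lit 38167130), (nat_lit 25010362), (nat_lit 18643303), (nat_lit 12552662)] (nat_lit 10642110)) p14_14_1 (nat_lit 4) (nat_lit 9) (nat_lit 10) = true := by decide +kernel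
def p14_14_1_10 : pfC (piC [(nat_lit 38167130), (nat_lit 25010362), (nat_lit 18643303), (nat_lit 12552662)] (nat_lit 10642110)) p14_14_1 (nat_lit 4) (nat_lit 10) (nat_lit 11) = true := by decide +kernel
def p14_14_1_11 : pfC (piC [(nat_lit 38167130), (nat_lit 25010362), (nat_lit 18643303), (nat_lit 12552662)] (nat_lit 10642110)) p14_14_1 (nat_lit 4) (nat_lit 11) (nat_lit 12) = true := by decide +kernel
def p14_14_1_12 : pfC (piC [(nat_lit 38167130), (nat_lit 25010362), (nat_lit 18643303), (nat_lit 12552662)] (nat_lit 10642110)) p14_14_1 (nat_lit 4) (nat_lit 12) (nat_lit 13) = true := by decide +kernel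
def p14_14_1_13 : pfC (piC [(nat_lit 38167130), (nat_lit 25010362), (nat_lit 18643303), (nat_lit 12552662)] (nat_lit 10642110)) p14_14_1 (nat_lit 4) (nat_lit 13) (nat_lit 14) = true := by decide +kernel
def p14_14_1_14 : pfC (piC [(nat_lit 38167130), (nat_lit 25010362), (nat_lit 18643303), (nat_lit 12552662)] (nat_lit 10642110)) p14_14_1 (nat_lit 4) (nat_lit 14) (nat_lit 15) = true := by decide +kernel
def p14_14_1_15 : pfC (piC [(nat_lit 38167130), (nat_lit 25010362), (nat_lit 18643303), (nat_lit 12552662)] (nat_lit 10642110)) p14_14_1 (nat_lit 4) (nat_lit 15) (nat_lit 16) = true := by decide +kernel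
def p14_14_1_16 : pfC (piC [(nat_lit 38167130), (nat_lit 25010362), (nat_lit 18643303), (nat_lit 12552662)] (nat_lit 10642110)) p14_14_1 (nat_lit 4) (nat_lit 16) (nat_lit 17) = true := by decide +kernel
def p14_14_1_17 : pfC (piC [(nat_lit 38167130), (nat_lit 25010362), (nat_lit 18643303), (nat_lit 12552662)] (nat_lit 10642110)) p14_14_1 (nat_lit 4) (nat_lit 17) (nat_lit 18) = true := by decide +kernel
def p14_14_1_18 : pfC (piC [(nat_lit 38167130), (nat_lit 25010362), (nat_lit 18643303), (nat_lit 12552662)] (nat_lit 10642110)) p14_14_1 (nat_lit 4) (nat_lit 18) (nat_lit 19) = true := by decide +kernel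
def p14_14_1_19 : pfC (piC [(nat_lit 38167130), (nat_lit 25010362), (nat_lit 18643303), (nat_lit 12552662)] (nat_lit 10642110)) p14_14_1 (nat_lit 4) (nat_lit 19) (nat_lit 20) = true := by decide +kernel
def p14_14_1_20 : pfC (piC [(nat_lit 38167130), (nat_lit 25010362), (nat_lit 18643303), (nat_lit 12552662)] (nat_lit 10642110)) p14_14_1 (nat_lit 4) (nat_lit 20) (nat_lit 21) = true := by decide +kernel
def p14_14_1_21 : pfC (piC [(nat_lit 38167130), (nat_lit 25010362), (nat_lit 18643303), (nat_lit 12552662)] (nat_lit 10642110)) p14_14_1 (nat_lit 4) (nat_lit 21) (nat_lit 22) = true := by decide +kernel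
def p14_14_1_22 : pfC (piC [(nat_lit 38167130), (nat_lit 25010362), (nat_lit 18643303), (nat_lit 12552662)] (nat_lit 10642110)) p14_14_1 (nat_lit 4) (nat_lit 22) (nat_lit 23) = true := by decide +kernel
def p14_14_1_23 : pfC (piC [(nat_lit 38167130), (nat_lit 25010362), (nat_lit 18643303), (nat_lit 12552662)] (nat_lit 10642110)) p14_14_1 (nat_lit 4) (nat_lit 23) (nat_lit 24) = true := by decide +kernel
def p14_14_1_24 : pfC (piC [(nat_lit 38167130), (nat_lit 25010362), (nat_lit 18643303), (nat_lit 12552662)] (nat_lit 10642110)) p14_14_1 (nat_lit 4) (nat_lit 24) (nat_lit 25) = true := by decide +kernel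
def p14_14_1_25 : pfC (piC [(nat_lit 38167130), (nat_lit 25010362), (nat_lit 18643303), (nat_lit 12552662)] (nat_lit 10642110)) p14_14_1 (nat_lit 4) (nat_lit 25) (nat_lit 26) = true := by decide +kernel
def p14_14_1_26 : pfC (piC [(nat_lit 38167130), (nat_lit 25010362), (nat_lit 18643303), (nat_lit 12552662)] (nat_lit 10642110)) p14_14_1 (nat_lit 4) (nat_lit 26) (nat_lit 27) = true := by decide +kernel
def p14_14_1_27 : pfC (piC [(nat_lit 38167130), (nat_lit 25010362), (nat_lit 18643303), (nat_lit 12552662)] (nat_lit 10642110)) p14_14_1 (nat_lit 4) (nat_lit 27) (nat_lit 28) = true := by decide +kernel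
def p14_14_1_28 : pfC (piC [(nat_lit 38167130), (nat_lit 25010362), (nat_lit 18643303), (nat_lit 12552662)] (nat_lit 10642110)) p14_14_1 (nat_lit 4) (nat_lit 28) (nat_lit 29) = true := by decide +kernel
def p14_14_1_29 : pfC (piC [(nat_lit 38167130), (nat_lit 25010362), (nat_lit 18643303), (nat_lit 12552662)] (nat_lit 10642110)) p14_14_1 (nat_lit 4) (nat_lit 29) (nat_lit 30) = true := by decide +kernel
def p14_14_1_30 : pfC (piC [(nat_lit 38167130), (nat_lit 25010362), (nat_lit 18643303), (nat_lit 12552662)] (nat_lit 10642110)) p14_14_1 (nat_lit 4) (nat_lit 30) (nat_lit 31) = true := by decide +kernel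
def p14_14_1_31 : pfC (piC [(nat_lit 38167130), (nat_lit 25010362), (nat_lit 18643303), (nat_lit 12552662)] (nat_lit 10642110)) p14_14_1 (nat_lit 4) (nat_lit 31) (nat_lit 32) = true := by decide +kernel
def p14_14_1_32 : pfC (piC [(nat_lit 38167130), (nat_lit 25010362), (nat_lit 18643303), (nat_lit 12552662)] (nat_lit 10642110)) p14_14_1 (nat_lit 4) (nat_lit 32) (nat_lit 33) = true := by decide +kernel
def p14_14_1_33 : pfC (piC [(nat_lit 38167130), (nat_lit 25010362), (nat_lit 18643303), (nat_lit 12552662)] (nat_lit 10642110)) p14_14_1 (nat_lit 4) (nat_lit 33) (nat_lit 34) = true := by decide +kernel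
def p14_14_1_34 : pfC (piC [(nat_lit 38167130), (nat_lit 25010362), (nat_lit 18643303), (nat_lit 12552662)] (nat_lit 10642110)) p14_14_1 (nat_lit 4) (nat_lit 34) (nat_lit 35) = true := by decide +kernel
def p14_14_1_35 : pfC (piC [(nat_lit 38167130), (nat_lit 25010362), (nat_lit 18643303), (nat_lit 12552662)] (nat_lit 10642110)) p14_14_1 (nat_lit 4) (nat_lit 35) (nat_lit 36) = true := by decide +kernel
def p14_14_1_36 : pfC (piC [(nat_lit 38167130), (nat_lit 25010362), (nat_lit 18643303), (nat_lit 12552662)] (nat_lit 10642110)) p14_14_1 (nat_lit 4) (nat_lit 36) (nat_lit 37) = true := by decide +kernel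
def p14_14_1_37 : pfC (piC [(nat_lit 38167130), (nat_lit 25010362), (nat_lit 18643303), (nat_lit 12552662)] (nat_lit 10642110)) p14_14_1 (nat_lit 4) (nat_lit 37) (nat_lit 38) = true := by decide +kernel
def p14_14_1_38 : pfC (piC [(nat_lit 38167130), (nat_lit 25010362), (nat_lit 18643303), (nat_lit 12552662)] (nat_lit 10642110)) p14_14_1 (nat_lit 4) (nat_lit 38) (nat_lit 39) = true := by decide +kernel
def p14_14_1_39 : pfC (piC [(nat_lit 38167130), (nat_lit 25010362), (nat_lit 18643303), (nat_lit 12552662)] (nat_lit 10642110)) p14_14_1 (nat_lit 4) (nat_lit 39) (nat_lit 40) = true := by decide +kernel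
def p14_14_1_40 : pfC (piC [(nat_lit 38167130), (nat_lit 25010362), (nat_lit 18643303), (nat_lit 12552662)] (nat_lit 10642110)) p14_14_1 (nat_lit 4) (nat_lit 40) (nat_lit 41) = true := by decide +kernel
def p14_14_1_41 : pfC (piC [(nat_lit 38167130), (nat_lit 25010362), (nat_lit 18643303), (nat_lit 12552662)] (nat_lit 10642110)) p14_14_1 (nat_lit 4) (nat_lit 41) (nat_lit 42) = true := by decide +kernel
def p14_14_1_42 : pfC (piC [(nat_lit 38167130), (nat_lit 25010362), (nat_lit 18643303), (nat_lit 12552662)] (nat_lit 10642110)) p14_14_1 (nat_lit 4) (nat_lit 42) (nat_lit 43) = true := by decide +kernel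
def p14_14_1_43 : pfC (piC [(nat_lit 38167130), (nat_lit 25010362), (nat_lit 18643303), (nat_lit 12552662)] (nat_lit 10642110)) p14_14_1 (nat_lit 4) (nat_lit 43) (nat_lit 44) = true := by decide +kernel
def p14_14_1_44 : pfC (piC [(nat_lit 38167130), (nat_lit 25010362), (nat_lit 18643303), (nat_lit 12552662)] (nat_lit 10642110)) p14_14_1 (nat_lit 4) (nat_lit 44) (nat_lit 45) = true := by decide +kernel
def p14_14_1_45 : pfC (piC [(nat_lit 38167130), (nat_lit 25010362), (nat_lit 18643303), (nat_lit 12552662)] (nat_lit 10642110)) p14_14_1 (nat_lit 4) (nat_lit 45) (nat_lit 46) = true := by decide +kernel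
def p14_14_1_46 : pfC (piC [(nat_lit 38167130), (nat_lit 25010362), (nat_lit 18643303), (nat_lit 12552662)] (nat_lit 10642110)) p14_14_1 (nat_lit 4) (nat_lit 46) (nat_lit 47) = true := by decide +kernel
def p14_14_1_47 : pfC (piC [(nat_lit 38167130), (nat_lit 25010362), (nat_lit 18643303), (nat_lit 12552662)] (nat_lit 10642110)) p14_14_1 (nat_lit 4) (nat_lit 47) (nat_lit 48) = true := by decide +kernel
def p14_14_1_48 : pfC (piC [(nat_lit 38167130), (nat_lit 25010362), (nat_lit 18643303), (nat_lit 12552662)] (nat_lit 10642110)) p14_14_1 (nat_lit 4) (nat_lit 48) (nat_lit 49) = true := by decide +kernel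
def p14_14_1_49 : pfC (piC [(nat_lit 38167130), (nat_lit 25010362), (nat_lit 18643303), (nat_lit 12552662)] (nat_lit 10642110)) p14_14_1 (nat_lit 4) (nat_lit 49) (nat_lit 50) = true := by decide +kernel
def p14_14_1_50 : pfC (piC [(nat_lit 38167130), (nat_lit 25010362), (nat_lit 18643303), (nat_lit 12552662)] (nat_lit 10642110)) p14_14_1 (nat_lit 4) (nat_lit 50) (nat_lit 51) = true := by decide +kernel
def p14_14_1_51 : pfC (piC [(nat_lit 38167130), (nat_lit 25010362), (nat_lit 18643303), (nat_lit 12552662)] (nat_lit 10642110)) p14_14_1 (nat_lit 4) (nat_lit 51) (nat_lit 52) = true := by decide +kernel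
def p14_14_1_52 : pfC (piC [(nat_lit 38167130), (nat_lit 25010362), (nat_lit 18643303), (nat_lit 12552662)] (nat_lit 10642110)) p14_14_1 (nat_lit 4) (nat_lit 52) (nat_lit 53) = true := by decide +kernel
def p14_14_1_53 : pfC (piC [(nat_lit 38167130), (nat_lit 25010362), (nat_lit 18643303), (nat_lit 12552662)] (nat_lit 10642110)) p14_14_1 (nat_lit 4) (nat_lit 53) (nat_lit 54) = true := by decide +kernel
def p14_14_1_54 : pfC (piC [(nat_lit 38167130), (nat_lit 25010362), (nat_lit 18643303), (nat_lit 12552662)] (nat_lit 10642110)) p14_14_1 (nat_lit 4) (nat_lit 54) (nat_lit 55) = true := by decide +kernel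
def p14_14_1_55 : pfC (piC [(nat_lit 38167130), (nat_lit 25010362), (nat_lit 18643303), (nat_lit 12552662)] (nat_lit 10642110)) p14_14_1 (nat_lit 4) (nat_lit 55) (nat_lit 56) = true := by decide +kernel
def p14_14_1_56 : pfC (piC [(nat_lit 38167130), (nat_lit 25010362), (nat_lit 18643303), (nat_lit 12552662)] (nat_lit 10642110)) p14_14_1 (nat_lit 4) (nat_lit 56) (nat_lit 57) = true := by decide +kernel
def p14_14_1_57 : pfC (piC [(nat_lit 38167130), (nat_lit 25010362), (nat_lit 18643303), (nat_lit 12552662)] (nat_lit 10642110)) p14_14_1 (nat_lit 4) (nat_lit 57) (nat_lit 58) = true := by decide +kernel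
def p14_14_1_58 : pfC (piC [(nat_lit 38167130), (nat_lit 25010362), (nat_lit 18643303), (nat_lit 12552662)] (nat_lit 10642110)) p14_14_1 (nat_lit 4) (nat_lit 58) (nat_lit 59) = true := by decide +kernel
def p14_14_1_59 : pfC (piC [(nat_lit 38167130), (nat_lit 25010362), (nat_lit 18643303), (nat_lit 12552662)] (nat_lit 10642110)) p14_14_1 (nat_lit 4) (nat_lit 59) (nat_lit 60) = true := by decide +kernel
def p14_14_1_60 : pfC (piC [(nat_lit 38167130), (nat_lit 25010362), (nat_lit 18643303), (nat_lit 12552662)] (nat_lit 10642110)) p14_14_1 (nat_lit 4) (nat_lit 60) (nat_lit 61) = true := by decide +kernel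
def p14_14_1_61 : pfC (piC [(nat_lit 38167130), (nat_lit 25010362), (nat_lit 18643303), (nat_lit 12552662)] (nat_lit 10642110)) p14_14_1 (nat_lit 4) (nat_lit 61) (nat_lit 62) = true := by decide +kernel
def p14_14_1_62 : pfC (piC [(nat_lit 38167130), (nat_lit 25010362), (nat_lit 18643303), (nat_lit 12552662)] (nat_lit 10642110)) p14_14_1 (nat_lit 4) (nat_lit 62) (nat_lit 63) = true := by decide +kernel
def p14_14_1_63 : pfC (piC [(nat_lit 38167130), (nat_lit 25010362), (nat_lit 18643303), (nat_lit 12552662)] (nat_lit 10642110)) p14_14_1 (nat_lit 4) (nat_lit 63) (nat_lit 64) = true := by decide +kernel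
def p14_14_1_64 : pfC (piC [(nat_lit 38167130), (nat_lit 25010362), (nat_lit 18643303), (nat_lit 12552662)] (nat_lit 10642110)) p14_14_1 (nat_lit 4) (nat_lit 64) (nat_lit 65) = true := by decide +kernel
def p14_14_1_65 : pfC (piC [(nat_lit 38167130), (nat_lit 25010362), (nat_lit 18643303), (nat_lit 12552662)] (nat_lit 10642110)) p14_14_1 (nat_lit 4) (nat_lit 65) (nat_lit 66) = true := by decide +kernel
def p14_14_1_66 : pfC (piC [(nat_lit 38167130), (nat_lit 25010362), (nat_lit 18643303), (nat_lit 12552662)] (nat_lit 10642110)) p14_14_1 (nat_lit 4) (nat_lit 66) (nat_lit 67) = true := by decide +kernel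
def p14_14_1_67 : pfC (piC [(nat_lit 38167130), (nat_lit 25010362), (nat_lit 18643303), (nat_lit 12552662)] (nat_lit 10642110)) p14_14_1 (nat_lit 4) (nat_lit 67) (nat_lit 68) = true := by decide +kernel
def p14_14_1_68 : pfC (piC [(nat_lit 38167130), (nat_lit 25010362), (nat_lit 18643303), (nat_lit 12552662)] (nat_lit 10642110)) p14_14_1 (nat_lit 4) (nat_lit 68) (nat_lit 69) = true := by decide +kernel
def p14_14_1_69 : pfC (piC [(nat_lit 38167130), (nat_lit 25010362), (nat_lit 18643303), (nat_lit 12552662)] (nat_lit 10642110)) p14_14_1 (nat_lit 4) (nat_lit 69) (nat_lit 70) = true := by decide +kernel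
def p14_14_1_70 : pfC (piC [(nat_lit 38167130), (nat_lit 25010362), (nat_lit 18643303), (nat_lit 12552662)] (nat_lit 10642110)) p14_14_1 (nat_lit 4) (nat_lit 70) (nat_lit 71) = true := by decide +kernel
def p14_14_1_71 : pfC (piC [(nat_lit 38167130), (nat_lit 25010362), (nat_lit 18643303), (nat_lit 12552662)] (nat_lit 10642110)) p14_14_1 (nat_lit 4) (nat_lit 71) (nat_lit 72) = true := by decide +kernel
def p14_14_1_72 : pfC (piC [(nat_lit 38167130), (nat_lit 25010362), (nat_lit 18643303), (nat_lit 12552662)] (nat_lit 10642110)) p14_14_1 (nat_lit 4) (nat_lit 72) (nat_lit 73) = true := by decide +kernel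
def p14_14_1_73 : pfC (piC [(nat_lit 38167130), (nat_lit 25010362), (nat_lit 18643303), (nat_lit 12552662)] (nat_lit 10642110)) p14_14_1 (nat_lit 4) (nat_lit 73) (nat_lit 74) = true := by decide +kernel
def p14_14_1_74 : pfC (piC [(nat_lit 38167130), (nat_lit 25010362), (nat_lit 18643303), (nat_lit 12552662)] (nat_lit 10642110)) p14_14_1 (nat_lit 4) (nat_lit 74) (nat_lit 75) = true := by decide +kernel
def p14_14_1_75 : pfC (piC [(nat_lit 38167130), (nat_lit 25010362), (nat_lit 18643303), (nat_lit 12552662)] (nat_lit 10642110)) p14_14_1 (nat_lit 4) (nat_lit 75) (nat_lit 76) = true := by decide +kernel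
def p14_14_1_76 : pfC (piC [(nat_lit 38167130), (nat_lit 25010362), (nat_lit 18643303), (nat_lit 12552662)] (nat_lit 10642110)) p14_14_1 (nat_lit 4) (nat_lit 76) (nat_lit 77) = true := by decide +kernel
def p14_14_1_77 : pfC (piC [(nat_lit 38167130), (nat_lit 25010362), (nat_lit 18643303), (nat_lit 12552662)] (nat_lit 10642110)) p14_14_1 (nat_lit 4) (nat_lit 77) (nat_lit 78) = true := by decide +kernel
def p14_14_1_78 : pfC (piC [(nat_lit 38167130), (nat_lit 25010362), (nat_lit 18643303), (nat_lit 12552662)] (nat_lit 10642110)) p14_14_1 (nat_lit 4) (nat_lit 78) (nat_lit 79) = true := by decide +kernel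
def p14_14_1_79 : pfC (piC [(nat_lit 38167130), (nat_lit 25010362), (nat_lit 18643303), (nat_lit 12552662)] (nat_lit 10642110)) p14_14_1 (nat_lit 4) (nat_lit 79) (nat_lit 80) = true := by decide +kernel
def p14_14_1_80 : pfC (piC [(nat_lit 38167130), (nat_lit 25010362), (nat_lit 18643303), (nat_lit 12552662)] (nat_lit 10642110)) p14_14_1 (nat_lit 4) (nat_lit 80) (nat_lit 81) = true := by decide +kernel
def p14_14_1_81 : pfC (piC [(nat_lit 38167130), (nat_lit 25010362), (nat_lit 18643303), (nat_lit 12552662)] (nat_lit 10642110)) p14_14_1 (nat_lit 4) (nat_lit 81) (nat_lit 82) = true := by decide +kernel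
def p14_14_1_82 : pfC (piC [(nat_lit 38167130), (nat_lit 25010362), (nat_lit 18643303), (nat_lit 12552662)] (nat_lit 10642110)) p14_14_1 (nat_lit 4) (nat_lit 82) (nat_lit 83) = true := by decide +kernel
def p14_14_1_83 : pfC (piC [(nat_lit 38167130), (nat_lit 25010362), (nat_lit 18643303), (nat_lit 12552662)] (nat_lit 10642110)) p14_14_1 (nat_lit 4) (nat_lit 83) (nat_lit 84) = true := by decide +kernel
def p14_14_1_84 : pfC (piC [(nat_lit 38167130), (nat_lit 25010362), (nat_lit 18643303), (nat_lit 12552662)] (nat_lit 10642110)) p14_14_1 (nat_lit 4) (nat_lit 84) (nat_lit 85) = true := by decide +kernel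
def p14_14_1_85 : pfC (piC [(nat_lit 38167130), (nat_lit 25010362), (nat_lit 18643303), (nat_lit 12552662)] (nat_lit 10642110)) p14_14_1 (nat_lit 4) (nat_lit 85) (nat_lit 86) = true := by decide +kernel
def p14_14_1_86 : pfC (piC [(nat_lit 38167130), (nat_lit 25010362), (nat_lit 18643303), (nat_lit 12552662)] (nat_lit 10642110)) p14_14_1 (nat_lit 4) (nat_lit 86) (nat_lit 87) = true := by decide +kernel
def p14_14_1_87 : pfC (piC [(nat_lit 38167130), (nat_lit 25010362), (nat_lit 18643303), (nat_lit 12552662)] (nat_lit 10642110)) p14_14_1 (nat_lit 4) (nat_lit 87) (nat_lit 88) = true := by decide +kernel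
def p14_14_1_88 : pfC (piC [(nat_lit 38167130), (nat_lit 25010362), (nat_lit 18643303), (nat_lit 12552662)] (nat_lit 10642110)) p14_14_1 (nat_lit 4) (nat_lit 88) (nat_lit 89) = true := by decide +kernel
def p14_14_1_89 : pfC (piC [(nat_lit 38167130), (nat_lit 25010362), (nat_lit 18643303), (nat_lit 12552662)] (nat_lit 10642110)) p14_14_1 (nat_lit 4) (nat_lit 89) (nat_lit 90) = true := by decide +kernel
def p14_14_1_90 : pfC (piC [(nat_lit 38167130), (nat_lit 25010362), (nat_lit 18643303), (nat_lit 12552662)] (nat_lit 10642110)) p14_14_1 (nat_lit 4) (nat_lit 90) (nat_lit 91) = true := by decide +kernel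
def p14_14_1_91 : pfC (piC [(nat_lit 38167130), (nat_lit 25010362), (nat_lit 18643303), (nat_lit 12552662)] (nat_lit 10642110)) p14_14_1 (nat_lit 4) (nat_lit 91) (nat_lit 92) = true := by decide +kernel
def p14_14_1_92 : pfC (piC [(nat_lit 38167130), (nat_lit 25010362), (nat_lit 18643303), (nat_lit 12552662)] (nat_lit 10642110)) p14_14_1 (nat_lit 4) (nat_lit 92) (nat_lit 93) = true := by decide +kernel
def p14_14_1_93 : pfC (piC [(nat_lit 38167130), (nat_lit 25010362), (nat_lit 18643303), (nat_lit 12552662)] (nat_lit 10642110)) p14_14_1 (nat_lit 4) (nat_lit 93) (nat_lit 94) = true := by decide +kernel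
def p14_14_1_94 : pfC (piC [(nat_lit 38167130), (nat_lit 25010362), (nat_lit 18643303), (nat_lit 12552662)] (nat_lit 10642110)) p14_14_1 (nat_lit 4) (nat_lit 94) (nat_lit 95) = true := by decide +kernel
def p14_14_1_95 : pfC (piC [(nat_lit 38167130), (nat_lit 25010362), (nat_lit 18643303), (nat_lit 12552662)] (nat_lit 10642110)) p14_14_1 (nat_lit 4) (nat_lit 95) (nat_lit 96) = true := by decide +kernel
def p14_14_1_96 : pfC (piC [(nat_lit 38167130), (nat_lit 25010362), (nat_lit 18643303), (nat_lit 12552662)] (nat_lit 10642110)) p14_14_1 (nat_lit 4) (nat_lit 96) (nat_lit 97) = true := by decide +kernel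
def p14_14_1_97 : pfC (piC [(nat_lit 38167130), (nat_lit 25010362), (nat_lit 18643303), (nat_lit 12552662)] (nat_lit 10642110)) p14_14_1 (nat_lit 4) (nat_lit 97) (nat_lit 98) = true := by decide +kernel
def p14_14_1_98 : pfC (piC [(nat_lit 38167130), (nat_lit 25010362), (nat_lit 18643303), (nat_lit 12552662)] (nat_lit 10642110)) p14_14_1 (nat_lit 4) (nat_lit 98) (nat_lit 99) = true := by decide +kernel
def p14_14_1_99 : pfC (piC [(nat_lit 38167130), (nat_lit 25010362), (nat_lit 18643303), (nat_lit 12552662)] (nat_lit 10642110)) p14_14_1 (nat_lit 4) (nat_lit 99) (nat_lit 100) = true := by decide +kernel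
def p14_14_1_100 : pfC (piC [(nat_lit 38167130), (nat_lit 25010362), (nat_lit 18643303), (nat_lit 12552662)] (nat_lit 10642110)) p14_14_1 (nat_lit 4) (nat_lit 100) (nat_lit 101) = true := by decide +kernel
def p14_14_1_101 : pfC (piC [(nat_lit 38167130), (nat_lit 25010362), (nat_lit 18643303), (nat_lit 12552662)] (nat_lit 10642110)) p14_14_1 (nat_lit 4) (nat_lit 101) (nat_lit 102) = true := by decide +kernel
def p14_14_1_102 : pfC (piC [(nat_lit 38167130), (nat_lit 25010362), (nat_lit 18643303), (nat_lit 12552662)] (nat_lit 10642110)) p14_14_1 (nat_lit 4) (nat_lit 102) (nat_lit 103) = true := by decide +kernel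
def p14_14_1_103 : pfC (piC [(nat_lit 38167130), (nat_lit 25010362), (nat_lit 18643303), (nat_lit 12552662)] (nat_lit 10642110)) p14_14_1 (nat_lit 4) (nat_lit 103) (nat_lit 104) = true := by decide +kernel
def p14_14_1_104 : pfC (piC [(nat_lit 38167130), (nat_lit 25010362), (nat_lit 18643303), (nat_lit 12552662)] (nat_lit 10642110)) p14_14_1 (nat_lit 4) (nat_lit 104) (nat_lit 105) = true := by decide +kernel
def p14_14_1_105 : pfC (piC [(nat_lit 38167130), (nat_lit 25010362), (nat_lit 18643303), (nat_lit 12552662)] (nat_lit 10642110)) p14_14_1 (nat_lit 4) (nat_lit 105) (nat_lit 106) = true := by decide +kernel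
def p14_14_1_106 : pfC (piC [(nat_lit 38167130), (nat_lit 25010362), (nat_lit 18643303), (nat_lit 12552662)] (nat_lit 10642110)) p14_14_1 (nat_lit 4) (nat_lit 106) (nat_lit 107) = true := by decide +kernel
def p14_14_1_107 : pfC (piC [(nat_lit 38167130), (nat_lit 25010362), (nat_lit 18643303), (nat_lit 12552662)] (nat_lit 10642110)) p14_14_1 (nat_lit 4) (nat_lit 107) (nat_lit 108) = true := by decide +kernel
def p14_14_1_108 : pfC (piC [(nat_lit 38167130), (nat_lit 25010362), (nat_lit 18643303), (nat_lit 12552662)] (nat_lit 10642110)) p14_14_1 (nat_lit 4) (nat_lit 108) (nat_lit 109) = true := by decide +kernel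
def p14_14_1_109 : pfC (piC [(nat_lit 38167130), (nat_lit 25010362), (nat_lit 18643303), (nat_lit 12552662)] (nat_lit 10642110)) p14_14_1 (nat_lit 4) (nat_lit 109) (nat_lit 110) = true := by decide +kernel
def p14_14_1_110 : pfC (piC [(nat_lit 38167130), (nat_lit 25010362), (nat_lit 18643303), (nat_lit 12552662)] (nat_lit 10642110)) p14_14_1 (nat_lit 4) (nat_lit 110) (nat_lit 111) = true := by decide +kernel
def p14_14_1_111 : pfC (piC [(nat_lit 38167130), (nat_lit 25010362), (nat_lit 18643303), (nat_lit 12552662)] (nat_lit 10642110)) p14_14_1 (nat_lit 4) (nat_lit 111) (nat_lit 112) = true := by decide +kernel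
def p14_14_1_112 : pfC (piC [(nat_lit 38167130), (nat_lit 25010362), (nat_lit 18643303), (nat_lit 12552662)] (nat_lit 10642110)) p14_14_1 (nat_lit 4) (nat_lit 112) (nat_lit 113) = true := by decide +kernel
def p14_14_1_113 : pfC (piC [(nat_lit 38167130), (nat_lit 25010362), (nat_lit 18643303), (nat_lit 12552662)] (nat_lit 10642110)) p14_14_1 (nat_lit 4) (nat_lit 113) (nat_lit 114) = true := by decide +kernel
def p14_14_1_114 : pfC (piC [(nat_lit 38167130), (nat_lit 25010362), (nat_lit 18643303), (nat_lit 12552662)] (nat_lit 10642110)) p14_14_1 (nat_lit 4) (nat_lit 114) (nat_lit 115) = true := by decide +kernel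
def p14_14_1_115 : pfC (piC [(nat_lit 38167130), (nat_lit 25010362), (nat_lit 18643303), (nat_lit 12552662)] (nat_lit 10642110)) p14_14_1 (nat_lit 4) (nat_lit 115) (nat_lit 116) = true := by decide +kernel
def p14_14_1_116 : pfC (piC [(nat_lit 38167130), (nat_lit 25010362), (nat_lit 18643303), (nat_lit 12552662)] (nat_lit 10642110)) p14_14_1 (nat_lit 4) (nat_lit 116) (nat_lit 117) = true := by decide +kernel
def p14_14_1_117 : pfC (piC [(nat_lit 38167130), (nat_lit 25010362), (nat_lit 18643303), (nat_lit 12552662)] (nat_lit 10642110)) p14_14_1 (nat_lit 4) (nat_lit 117) (nat_lit 118) = true := by decide +kernel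
def p14_14_1_118 : pfC (piC [(nat_lit 38167130), (nat_lit 25010362), (nat_lit 18643303), (nat_lit 12552662)] (nat_lit 10642110)) p14_14_1 (nat_lit 4) (nat_lit 118) (nat_lit 119) = true := by decide +kernel
def p14_14_1_119 : pfC (piC [(nat_lit 38167130), (nat_lit 25010362), (nat_lit 18643303), (nat_lit 12552662)] (nat_lit 10642110)) p14_14_1 (nat_lit 4) (nat_lit 119) (nat_lit 120) = true := by decide +kernel
def p14_14_1_120 : pfC (piC [(nat_lit 38167130), (nat_lit 25010362), (nat_lit 18643303), (nat_lit 12552662)] (nat_lit 10642110)) p14_14_1 (nat_lit 4) (nat_lit 120) (nat_lit 121) = true := by decide +kernel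
def p14_14_1_121 : pfC (piC [(nat_lit 38167130), (nat_lit 25010362), (nat_lit 18643303), (nat_lit 12552662)] (nat_lit 10642110)) p14_14_1 (nat_lit 4) (nat_lit 121) (nat_lit 122) = true := by decide +kernel
def p14_14_1_122 : pfC (piC [(nat_lit 38167130), (nat_lit 25010362), (nat_lit 18643303), (nat_lit 12552662)] (nat_lit 10642110)) p14_14_1 (nat_lit 4) (nat_lit 122) (nat_lit 123) = true := by decide +kernel
def p14_14_1_123 : pfC (piC [(nat_lit 38167130), (nat_lit 25010362), (nat_lit 18643303), (nat_lit 12552662)] (nat_lit 10642110)) p14_14_1 (nat_lit 4) (nat_lit 123) (nat_lit 124) = true := by decide +kernel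
def p14_14_1_124 : pfC (piC [(nat_lit 38167130), (nat_lit 25010362), (nat_lit 18643303), (nat_lit 12552662)] (nat_lit 10642110)) p14_14_1 (nat_lit 4) (nat_lit 124) (nat_lit 125) = true := by decide +kernel
def p14_14_1_125 : pfC (piC [(nat_lit 38167130), (nat_lit 25010362), (nat_lit 18643303), (nat_lit 12552662)] (nat_lit 10642110)) p14_14_1 (nat_lit 4) (nat_lit 125) (nat_lit 126) = true := by decide +kernel
def p14_14_1_126 : pfC (piC [(nat_lit 38167130), (nat_lit 25010362), (nat_lit 18643303), (nat_lit 12552662)] (nat_lit 10642110)) p14_14_1 (nat_lit 4) (nat_lit 126) (nat_lit 127) = true := by decide +kernel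
def p14_14_1_127 : pfC (piC [(nat_lit 38167130), (nat_lit 25010362), (nat_lit 18643303), (nat_lit 12552662)] (nat_lit 10642110)) p14_14_1 (nat_lit 4) (nat_lit 127) (nat_lit 128) = true := by decide +kernel
def p14_14_1_128 : pfC (piC [(nat_lit 38167130), (nat_lit 25010362), (nat_lit 18643303), (nat_lit 12552662)] (nat_lit 10642110)) p14_14_1 (nat_lit 4) (nat_lit 128) (nat_lit 129) = true := by decide +kernel
def p14_14_1_129 : pfC (piC [(nat_lit 38167130), (nat_lit 25010362), (nat_lit 18643303), (nat_lit 12552662)] (nat_lit 10642110)) p14_14_1 (nat_lit 4) (nat_lit 129) (nat_lit 130) = true := by decide +kernel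
def p14_14_1_130 : pfC (piC [(nat_lit 38167130), (nat_lit 25010362), (nat_lit 18643303), (nat_lit 12552662)] (nat_lit 10642110)) p14_14_1 (nat_lit 4) (nat_lit 130) (nat_lit 131) = true := by decide +kernel
def p14_14_1_131 : pfC (piC [(nat_lit 38167130), (nat_lit 25010362), (nat_lit 18643303), (nat_lit 12552662)] (nat_lit 10642110)) p14_14_1 (nat_lit 4) (nat_lit 131) (nat_lit 132) = true := by decide +kernel
def p14_14_1_132 : pfC (piC [(nat_lit 38167130), (nat_lit 25010362), (nat_lit 18643303), (nat_lit 12552662)] (nat_lit 10642110)) p14_14_1 (nat_lit 4) (nat_lit 132) (nat_lit 133) = true := by decide +kernel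
def p14_14_1_133 : pfC (piC [(nat_lit 38167130), (nat_lit 25010362), (nat_lit 18643303), (nat_lit 12552662)] (nat_lit 10642110)) p14_14_1 (nat_lit 4) (nat_lit 133) (nat_lit 134) = true := by decide +kernel
def p14_14_1_134 : pfC (piC [(nat_lit 38167130), (nat_lit 25010362), (nat_lit 18643303), (nat_lit 12552662)] (nat_lit 10642110)) p14_14_1 (nat_lit 4) (nat_lit 134) (nat_lit 135) = true := by decide +kernel
def p14_14_1_135 : pfC (piC [(nat_lit 38167130), (nat_lit 25010362), (nat_lit 18643303), (nat_lit 12552662)] (nat_lit 10642110)) p14_14_1 (nat_lit 4) (nat_lit 135) (nat_lit 136) = true := by decide +kernel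
def p14_14_1_136 : pfC (piC [(nat_lit 38167130), (nat_lit 25010362), (nat_lit 18643303), (nat_lit 12552662)] (nat_lit 10642110)) p14_14_1 (nat_lit 4) (nat_lit 136) (nat_lit 137) = true := by decide +kernel
def p14_14_1_137 : pfC (piC [(nat_lit 38167130), (nat_lit 25010362), (nat_lit 18643303), (nat_lit 12552662)] (nat_lit 10642110)) p14_14_1 (nat_lit 4) (nat_lit 137) (nat_lit 138) = true := by decide +kernel
def p14_14_1_138 : pfC (piC [(nat_lit 38167130), (nat_lit 25010362), (nat_lit 18643303), (nat_lit 12552662)] (nat_lit 10642110)) p14_14_1 (nat_lit 4) (nat_lit 138) (nat_lit 139) = true := by decide +kernel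
def p14_14_1_139 : pfC (piC [(nat_lit 38167130), (nat_lit 25010362), (nat_lit 18643303), (nat_lit 12552662)] (nat_lit 10642110)) p14_14_1 (nat_lit 4) (nat_lit 139) (nat_lit 140) = true := by decide +kernel
def p14_14_1_140 : pfC (piC [(nat_lit 38167130), (nat_lit 25010362), (nat_lit 18643303), (nat_lit 12552662)] (nat_lit 10642110)) p14_14_1 (nat_lit 4) (nat_lit 140) (nat_lit 141) = true := by decide +kernel
def p14_14_1_141 : pfC (piC [(nat_lit 38167130), (nat_lit 25010362), (nat_lit 18643303), (nat_lit 12552662)] (nat_lit 10642110)) p14_14_1 (nat_lit 4) (nat_lit 141) (nat_lit 142) = true := by decide +kernel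
def p14_14_1_142 : pfC (piC [(nat_lit 38167130), (nat_lit 25010362), (nat_lit 18643303), (nat_lit 12552662)] (nat_lit 10642110)) p14_14_1 (nat_lit 4) (nat_lit 142) (nat_lit 143) = true := by decide +kernel
def p14_14_1_143 : pfC (piC [(nat_lit 38167130), (nat_lit 25010362), (nat_lit 18643303), (nat_lit 12552662)] (nat_lit 10642110)) p14_14_1 (nat_lit 4) (nat_lit 143) (nat_lit 144) = true := by decide +kernel
def p14_14_1_144 : pfC (piC [(nat_lit 38167130), (nat_lit 25010362), (nat_lit 18643303), (nat_lit 12552662)] (nat_lit 10642110)) p14_14_1 (nat_lit 4) (nat_lit 144) (nat_lit 145) = true := by decide +kernel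
def p14_14_1_145 : pfC (piC [(nat_lit 38167130), (nat_lit 25010362), (nat_lit 18643303), (nat_lit 12552662)] (nat_lit 10642110)) p14_14_1 (nat_lit 4) (nat_lit 145) (nat_lit 146) = true := by decide +kernel
def p14_14_1_146 : pfC (piC [(nat_lit 38167130), (nat_lit 25010362), (nat_lit 18643303), (nat_lit 12552662)] (nat_lit 10642110)) p14_14_1 (nat_lit 4) (nat_lit 146) (nat_lit 147) = true := by decide +kernel
def p14_14_1_147 : pfC (piC [(nat_lit 38167130), (nat_lit 25010362), (nat_lit 18643303), (nat_lit 12552662)] (nat_lit 10642110)) p14_14_1 (nat_lit 4) (nat_lit 147) (nat_lit 148) = true := by decide +kernel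
def p14_14_1_148 : pfC (piC [(nat_lit 38167130), (nat_lit 25010362), (nat_lit 18643303), (nat_lit 12552662)] (nat_lit 10642110)) p14_14_1 (nat_lit 4) (nat_lit 148) (nat_lit 149) = true := by decide +kernel
def p14_14_1_149 : pfC (piC [(nat_lit 38167130), (nat_lit 25010362), (nat_lit 18643303), (nat_lit 12552662)] (nat_lit 10642110)) p14_14_1 (nat_lit 4) (nat_lit 149) (nat_lit 150) = true := by decide +kernel
def p14_14_1_150 : pfC (piC [(nat_lit 38167130), (nat_lit 25010362), (nat_lit 18643303), (nat_lit 12552662)] (nat_lit 10642110)) p14_14_1 (nat_lit 4) (nat_lit 150) (nat_lit 151) = true := by decide +kernel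
def p14_14_1_151 : pfC (piC [(nat_lit 38167130), (nat_lit 25010362), (nat_lit 18643303), (nat_lit 12552662)] (nat_lit 10642110)) p14_14_1 (nat_lit 4) (nat_lit 151) (nat_lit 152) = true := by decide +kernel
def p14_14_1_152 : pfC (piC [(nat_lit 38167130), (nat_lit 25010362), (nat_lit 18643303), (nat_lit 12552662)] (nat_lit 10642110)) p14_14_1 (nat_lit 4) (nat_lit 152) (nat_lit 153) = true := by decide +kernel
def p14_14_1_153 : pfC (piC [(nat_lit 38167130), (nat_lit 25010362), (nat_lit 18643303), (nat_lit 12552662)] (nat_lit 10642110)) p14_14_1 (nat_lit 4) (nat_lit 153) (nat_lit 154) = true := by decide +kernel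
def p14_14_1_154 : pfC (piC [(nat_lit 38167130), (nat_lit 25010362), (nat_lit 18643303), (nat_lit 12552662)] (nat_lit 10642110)) p14_14_1 (nat_lit 4) (nat_lit 154) (nat_lit 155) = true := by decide +kernel
def p14_14_1_155 : pfC (piC [(nat_lit 38167130), (nat_lit 25010362), (nat_lit 18643303), (nat_lit 12552662)] (nat_lit 10642110)) p14_14_1 (nat_lit 4) (nat_lit 155) (nat_lit 156) = true := by decide +kernel
def p14_14_1_156 : pfC (piC [(nat_lit 38167130), (nat_lit 25010362), (nat_lit 18643303), (nat_lit 12552662)] (nat_lit 10642110)) p14_14_1 (nat_lit 4) (nat_lit 156) (nat_lit 157) = true := by decide +kernel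
def p14_14_1_157 : pfC (piC [(nat_lit 38167130), (nat_lit 25010362), (nat_lit 18643303), (nat_lit 12552662)] (nat_lit 10642110)) p14_14_1 (nat_lit 4) (nat_lit 157) (nat_lit 158) = true := by decide +kernel
def p14_14_1_158 : pfC (piC [(nat_lit 38167130), (nat_lit 25010362), (nat_lit 18643303), (nat_lit 12552662)] (nat_lit 10642110)) p14_14_1 (nat_lit 4) (nat_lit 158) (nat_lit 159) = true := by decide +kernel
def p14_14_1_159 : pfC (piC [(nat_lit 38167130), (nat_lit 25010362), (nat_lit 18643303), (nat_lit 12552662)] (nat_lit 10642110)) p14_14_1 (nat_lit 4) (nat_lit 159) (nat_lit 160) = true := by decide +kernel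
def p14_14_1_160 : pfC (piC [(nat_lit 38167130), (nat_lit 25010362), (nat_lit 18643303), (nat_lit 12552662)] (nat_lit 10642110)) p14_14_1 (nat_lit 4) (nat_lit 160) (nat_lit 161) = true := by decide +kernel
def p14_14_1_161 : pfC (piC [(nat_lit 38167130), (nat_lit 25010362), (nat_lit 18643303), (nat_lit 12552662)] (nat_lit 10642110)) p14_14_1 (nat_lit 4) (nat_lit 161) (nat_lit 162) = true := by decide +kernel
def p14_14_1_162 : pfC (piC [(nat_lit 38167130), (nat_lit 25010362), (nat_lit 18643303), (nat_lit 12552662)] (nat_lit 10642110)) p14_14_1 (nat_lit 4) (nat_lit 162) (nat_lit 163) = true := by decide +kernel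
def p14_14_1_163 : pfC (piC [(nat_lit 38167130), (nat_lit 25010362), (nat_lit 18643303), (nat_lit 12552662)] (nat_lit 10642110)) p14_14_1 (nat_lit 4) (nat_lit 163) (nat_lit 164) = true := by decide +kernel
def p14_14_1_164 : pfC (piC [(nat_lit 38167130), (nat_lit 25010362), (nat_lit 18643303), (nat_lit 12552662)] (nat_lit 10642110)) p14_14_1 (nat_lit 4) (nat_lit 164) (nat_lit 165) = true := by decide +kernel
def p14_14_1_165 : pfC (piC [(nat_lit 38167130), (nat_lit 25010362), (nat_lit 18643303), (nat_lit 12552662)] (nat_lit 10642110)) p14_14_1 (nat_lit 4) (nat_lit 165) (nat_lit 166) = true := by decide +kernel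
def p14_14_1_166 : pfC (piC [(nat_lit 38167130), (nat_lit 25010362), (nat_lit 18643303), (nat_lit 12552662)] (nat_lit 10642110)) p14_14_1 (nat_lit 4) (nat_lit 166) (nat_lit 167) = true := by decide +kernel
def p14_14_1_167 : pfC (piC [(nat_lit 38167130), (nat_lit 25010362), (nat_lit 18643303), (nat_lit 12552662)] (nat_lit 10642110)) p14_14_1 (nat_lit 4) (nat_lit 167) (nat_lit 168) = true := by decide +kernel
def p14_14_1_168 : pfC (piC [(nat_lit 38167130), (nat_lit 25010362), (nat_lit 18643303), (nat_lit 12552662)] (nat_lit 10642110)) p14_14_1 (nat_lit 4) (nat_lit 168) (nat_lit 169) = true := by decide +kernel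
def p14_14_1_169 : pfC (piC [(nat_lit 38167130), (nat_lit 25010362), (nat_lit 18643303), (nat_lit 12552662)] (nat_lit 10642110)) p14_14_1 (nat_lit 4) (nat_lit 169) (nat_lit 170) = true := by decide +kernel
def p14_14_1_170 : pfC (piC [(nat_lit 38167130), (nat_lit 25010362), (nat_lit 18643303), (nat_lit 12552662)] (nat_lit 10642110)) p14_14_1 (nat_lit 4) (nat_lit 170) (nat_lit 171) = true := by decide +kernel
def p14_14_1_171 : pfC (piC [(nat_lit 38167130), (nat_lit 25010362), (nat_lit 18643303), (nat_lit 12552662)] (nat_lit 10642110)) p14_14_1 (nat_lit 4) (nat_lit 171) (nat_lit 172) = true := by decide +kernel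
def p14_14_1_172 : pfC (piC [(nat_lit 38167130), (nat_lit 25010362), (nat_lit 18643303), (nat_lit 12552662)] (nat_lit 10642110)) p14_14_1 (nat_lit 4) (nat_lit 172) (nat_lit 173) = true := by decide +kernel
def p14_14_1_173 : pfC (piC [(nat_lit 38167130), (nat_lit 25010362), (nat_lit 18643303), (nat_lit 12552662)] (nat_lit 10642110)) p14_14_1 (nat_lit 4) (nat_lit 173) (nat_lit 174) = true := by decide +kernel
def p14_14_1_174 : pfC (piC [(nat_lit 38167130), (nat_lit 25010362), (nat_lit 18643303), (nat_lit 12552662)] (nat_lit 10642110)) p14_14_1 (nat_lit 4) (nat_lit 174) (nat_lit 175) = true := by decide +kernel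
def p14_14_1_175 : pfC (piC [(nat_lit 38167130), (nat_lit 25010362), (nat_lit 18643303), (nat_lit 12552662)] (nat_lit 10642110)) p14_14_1 (nat_lit 4) (nat_lit 175) (nat_lit 176) = true := by decide +kernel
def p14_14_1_176 : pfC (piC [(nat_lit 38167130), (nat_lit 25010362), (nat_lit 18643303), (nat_lit 12552662)] (nat_lit 10642110)) p14_14_1 (nat_lit 4) (nat_lit 176) (nat_lit 177) = true := by decide +kernel
def p14_14_1_177 : pfC (piC [(nat_lit 38167130), (nat_lit 25010362), (nat_lit 18643303), (nat_lit 12552662)] (nat_lit 10642110)) p14_14_1 (nat_lit 4) (nat_lit 177) (nat_lit 178) = true := by decide +kernel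
def p14_14_1_178 : pfC (piC [(nat_lit 38167130), (nat_lit 25010362), (nat_lit 18643303), (nat_lit 12552662)] (nat_lit 10642110)) p14_14_1 (nat_lit 4) (nat_lit 178) (nat_lit 179) = true := by decide +kernel
theorem p14_14_1_T : PfS (PiF n14_14.reverse (nat_lit 10642110)) p14_14_1 (nat_lit 4) [] 0 :=
  pftab_of (los := [(nat_lit 38167130), (nat_lit 25010362), (nat_lit 18643303), (nat_lit 12552662)]) (by decide +kernel) (hi := (nat_lit 179)) (PfP.trans (PfP.trans (PfP.trans (PfP.trans (PfP.trans (PfP.trans (PfP.trans (PfP.trans (PfP.trans (PfP.trans (PfP.trans (PfP.trans (PfP.trans (PfP.trans (PfP.trans (PfP.trans (PfP.trans (PfP.trans (PfP.trans (PfP.trans (PfP.trans (PfP.trans (PfP.trans (PfP.trans (PfP.trans (PfP.trans (PfP.trans (PfP.trans (PfP.trans (PfP.trans (PfP.trans (PfP.trans (PfP.trans (PfP.trans (PfP.trans (PfP.trans (PfP.trans (PfP.trans (PfP.trans (PfP.trans (PfP.trans (PfP.trans (PfP.trans (PfP.trans (PfP.trans (PfP.trans (PfP.trans (PfP.trans (PfP.trans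 (PfP.trans (PfP.trans (PfP.trans (PfP.trans (PfP.trans (PfP.trans (PfP.trans (PfP.trans (PfP.trans (PfP.trans (PfP.trans (PfP.trans (PfP.trans (PfP.trans (PfP.trans (PfP.trans (PfP.trans (PfP.trans (PfP.trans (PfP.trans (PfP.trans (PfP.trans (PfP.trans (PfP.trans (PfP.trans (PfP.trans (PfP.trans (PfP.trans (PfP.trans (PfP.trans (PfP.trans (PfP.trans (PfP.trans (PfP.trans (PfP.trans (PfP.trans (PfP.trans (PfP.trans (PfP.trans (PfP.trans (PfP.trans (PfP.trans (PfP.trans (PfP.trans (PfP.trans (PfP.trans (PfP.trans (PfP.trans (PfP.trans (PfP.trans (PfP.trans (PfP.trans (PfP.trans (PfP.trans (PfP.trans (PfP.trans (PfP.trans (PfP.trans (PfP.trans (PfP.trans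
 (PfP.trans (PfP.trans (PfP.trans (PfP.trans (PfP.trans (PfP.trans (PfP.trans (PfP.trans (PfP.trans (PfP.trans (PfP.trans (PfP.trans (PfP.trans (PfP.trans (PfP.trans (PfP.trans (PfP.trans (PfP.trans (PfP.trans (PfP.trans (PfP.trans (PfP.trans (PfP.trans (PfP.trans (PfP.trans (PfP.trans (PfP.trans (PfP.trans (PfP.trans (PfP.trans (PfP.trans (PfP.trans (PfP.trans (PfP.trans (PfP.trans (PfP.trans (PfP.trans (PfP.trans (PfP.trans (PfP.trans (PfP.trans (PfP.trans (PfP.trans (PfP.trans (PfP.trans (PfP.trans (PfP.trans (PfP.trans (PfP.trans (PfP.trans (PfP.trans (PfP.trans (PfP.trans (PfP.trans (PfP.trans (PfP.trans (PfP.trans (PfP.trans (PfP.trans (PfP.trans (PfP.trans (PfP.trans (PfP.trans (PfP.trans (PfP.trans (PfP.trans (PfP.trans (PfP.trans (PfP.trans (pfC_sound p14_14_1_0) (pfC_sound p14_14_1_1)) (pfC_sound p14_14_1_2)) (pfC_sound p14_14_1_3)) (pfC_sound p14_14_1_4)) (pfC_sound p14_14_1_5)) (pfC_sound p14_14_1_6)) (pfC_sound p14_14_1_7)) (pfC_sound p14_14_1_8)) (pfC_sound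 p14_14_1_9)) (pfC_sound p14_14_1_10)) (pfC_sound p14_14_1_11)) (pfC_sound p14_14_1_12)) (pfC_sound p14_14_1_13)) (pfC_sound p14_14_1_14)) (pfC_sound p14_14_1_15)) (pfC_sound p14_14_1_16)) (pfC_sound p14_14_1_17))
 (pfC_sound p14_14_1_18)) (pfC_sound p14_14_1_19)) (pfC_sound p14_14_1_20)) (pfC_sound p14_14_1_21)) (pfC_sound p14_14_1_22)) (pfC_sound p14_14_1_23)) (pfC_sound p14_14_1_24)) (pfC_sound p14_14_1_25)) (pfC_sound p14_14_1_26)) (pfC_sound p14_14_1_27)) (pfC_sound p14_14_1_28)) (pfC_sound p14_14_1_29)) (pfC_sound p14_14_1_30)) (pfC_sound p14_14_1_31)) (pfC_sound p14_14_1_32)) (pfC_sound p14_14_1_33)) (pfC_sound p14_14_1_34)) (pfC_sound p14_14_1_35)) (pfC_sound p14_14_1_36)) (pfC_sound p14_14_1_37)) (pfC_sound p14_14_1_38)) (pfC_sound p14_14_1_39)) (pfC_sound p14_14_1_40)) (pfC_sound p14_14_1_41)) (pfC_sound p14_14_1_42)) (pfC_sound p14_14_1_43)) (pfC_sound p14_14_1_44)) (pfC_sound p14_14_1_45)) (pfC_sound p14_14_1_46)) (pfC_sound p14_14_1_47)) (pfC_sound p14_14_1_48))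 (pfC_sound p14_14_1_49)) (pfC_sound p14_14_1_50)) (pfC_sound p14_14_1_51)) (pfC_sound p14_14_1_52)) (pfC_sound p14_14_1_53)) (pfC_sound p14_14_1_54)) (pfC_sound p14_14_1_55)) (pfC_sound p14_14_1_56)) (pfC_sound p14_14_1_57)) (pfC_sound p14_14_1_58)) (pfC_sound p14_14_1_59)) (pfC_sound p14_14_1_60)) (pfC_sound p14_14_1_61)) (pfC_sound p14_14_1_62)) (pfC_sound p14_14_1_63)) (pfC_sound p14_14_1_64)) (pfC_sound p14_14_1_65))
 (pfC_sound p14_14_1_66)) (pfC_sound p14_14_1_67)) (pfC_sound p14_14_1_68)) (pfC_sound p14_14_1_69)) (pfC_sound p14_14_1_70)) (pfC_sound p14_14_1_71)) (pfC_sound p14_14_1_72)) (pfC_sound p14_14_1_73)) (pfC_sound p14_14_1_74)) (pfC_sound p14_14_1_75)) (pfC_sound p14_14_1_76)) (pfC_sound p14_14_1_77)) (pfC_sound p14_14_1_78)) (pfC_sound p14_14_1_79)) (pfC_sound p14_14_1_80)) (pfC_sound p14_14_1_81)) (pfC_sound p14_14_1_82)) (pfC_sound p14_14_1_83)) (pfC_sound p14_14_1_84)) (pfC_sound p14_14_1_85)) (pfC_sound p14_14_1_86)) (pfC_sound p14_14_1_87)) (pfC_sound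 p14_14_1_88)) (pfC_sound p14_14_1_89)) (pfC_sound p14_14_1_90)) (pfC_sound p14_14_1_91)) (pfC_sound p14_14_1_92)) (pfC_sound p14_14_1_93)) (pfC_sound p14_14_1_94)) (pfC_sound p14_14_1_95)) (pfC_sound p14_14_1_96)) (pfC_sound p14_14_1_97)) (pfC_sound p14_14_1_98)) (pfC_sound p14_14_1_99)) (pfC_sound p14_14_1_100)) (pfC_sound p14_14_1_101)) (pfC_sound p14_14_1_102)) (pfC_sound p14_14_1_103)) (pfC_sound p14_14_1_104)) (pfC_sound p14_14_1_105)) (pfC_sound p14_14_1_106)) (pfC_sound p14_14_1_107)) (pfC_sound p14_14_1_108)) (pfC_sound p14_14_1_109)) (pfC_sound p14_14_1_110)) (pfC_sound p14_14_1_111)) (pfC_sound p14_14_1_112)) (pfC_sound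
 p14_14_1_113)) (pfC_sound p14_14_1_114)) (pfC_sound p14_14_1_115)) (pfC_sound p14_14_1_116)) (pfC_sound p14_14_1_117)) (pfC_sound p14_14_1_118)) (pfC_sound p14_14_1_119)) (pfC_sound p14_14_1_120)) (pfC_sound p14_14_1_121)) (pfC_sound p14_14_1_122)) (pfC_sound p14_14_1_123)) (pfC_sound p14_14_1_124)) (pfC_sound p14_14_1_125)) (pfC_sound p14_14_1_126)) (pfC_sound p14_14_1_127)) (pfC_sound p14_14_1_128)) (pfC_sound p14_14_1_129)) (pfC_sound p14_14_1_130)) (pfC_sound p14_14_1_131)) (pfC_sound p14_14_1_132)) (pfC_sound p14_14_1_133)) (pfC_sound p14_14_1_134)) (pfC_sound p14_14_1_135)) (pfC_sound p14_14_1_136)) (pfC_sound p14_14_1_137)) (pfC_sound p14_14_1_138)) (pfC_sound p14_14_1_139)) (pfC_sound p14_14_1_140)) (pfC_sound p14_14_1_141)) (pfC_sound p14_14_1_142)) (pfC_sound p14_14_1_143)) (pfC_sound p14_14_1_144)) (pfC_sound p14_14_1_145)) (pfC_sound p14_14_1_146)) (pfC_sound p14_14_1_147)) (pfC_sound p14_14_1_148)) (pfC_sound p14_14_1_149)) (pfC_sound p14_14_1_150)) (pfC_sound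 p14_14_1_151)) (pfC_sound p14_14_1_152)) (pfC_sound p14_14_1_153)) (pfC_sound p14_14_1_154)) (pfC_sound p14_14_1_155)) (pfC_sound p14_14_1_156)) (pfC_sound p14_14_1_157)) (pfC_sound p14_14_1_158)) (pfC_sound
 p14_14_1_159)) (pfC_sound p14_14_1_160)) (pfC_sound p14_14_1_161)) (pfC_sound p14_14_1_162)) (pfC_sound p14_14_1_163)) (pfC_sound p14_14_1_164)) (pfC_sound p14_14_1_165)) (pfC_sound p14_14_1_166)) (pfC_sound p14_14_1_167)) (pfC_sound p14_14_1_168)) (pfC_sound p14_14_1_169)) (pfC_sound p14_14_1_170)) (pfC_sound p14_14_1_171)) (pfC_sound p14_14_1_172)) (pfC_sound p14_14_1_173)) (pfC_sound p14_14_1_174)) (pfC_sound p14_14_1_175)) (pfC_sound p14_14_1_176)) (pfC_sound p14_14_1_177)) (pfC_sound p14_14_1_178)) (by decide +kernel)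

def z14_14_1 : zOK yB14_14 (nat_lit 1) (nat_lit 400) (nat_lit 600) (nat_lit 10642110) (nat_lit 6971554) = true := by decide +kernel
def g14_14_1 : gOK yB14_14.x P14_14 (nat_lit 1422) (q14_14 :: r14_14) (nat_lit 1) (nat_lit 400) (nat_lit 2) (nat_lit 600) (nat_lit 11000000) (nat_lit 17850000) (nat_lit 12712500) (nat_lit 12712500) [(nat_lit 800), (nat_lit 1040)] = true := by decide +kernel
def v14_14_1 : ivC P14_14 s14_14 w14_14 n14_14 (nat_lit 4) (nat_lit 4980) (nat_lit 1) (nat_lit 400) f160_1_400 f168_1_400 (nat_lit 2) (nat_lit 600) f160_1_600 f168_1_600 (nat_lit 10642110) (nat_lit 6971554) p14_14_1 = true := by decide +kernel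
def p14_14_2 : PF := (PF.cons (PF.cons (PF.cons (PF.cons (PF.leaf (nat_lit 2691367) (nat_lit 15379449) (nat_lit 51729363) (nat_lit 15379449) [(nat_lit 0), (nat_lit 0), (nat_lit 0), (nat_lit 0)]) (PF.cons (PF.leaf (nat_lit 2867579) (nat_lit 313356) (nat_lit 51432222) (nat_lit 15363233) [(nat_lit 313356), (nat_lit 0), (nat_lit 0), (nat_lit 0)]) (PF.cons (PF.leaf (nat_lit 3075368) (nat_lit 340330) (nat_lit 51085509) (nat_lit 15342643) [(nat_lit 340330), (nat_lit 0), (nat_lit 0), (nat_lit 0)]) (PF.cons (PF.leaf (nat_lit 3308217) (nat_lit 364103) (nat_lit 50698871) (nat_lit 15317631) [(nat_lit 364103), (nat_lit 0), (nat_lit 0), (nat_lit 0)]) (PF.cons (PF.leaf (nat_lit 3562305) (nat_lit 385376) (nat_lit 50279203) (nat_lit 15288105) [(nat_lit 385376), (nat_lit 0), (nat_lit 0), (nat_lit 0)]) (PF.cons (PF.leaf (nat_lit 3834692) (nat_lit 404595) (nat_lit 49831852) (nat_lit 15253981) [(nat_lit 404595), (nat_lit 0), (nat_lit 0), (nat_lit 0)]) (PF.cons (PF.leaf (nat_lit 4122995)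 (nat_lit 422071) (nat_lit 49361180) (nat_lit 15215202) [(nat_lit 422071), (nat_lit 0), (nat_lit 0), (nat_lit 0)]) (PF.cons (PF.leaf (nat_lit 4425190) (nat_lit 438027) (nat_lit 48870867) (nat_lit 15171751) [(nat_lit 438027), (nat_lit 0),
 (nat_lit 0), (nat_lit 0)]) (PF.cons (PF.leaf (nat_lit 4739518) (nat_lit 452635) (nat_lit 48364082) (nat_lit 15123647) [(nat_lit 452635), (nat_lit 0), (nat_lit 0), (nat_lit 0)]) (PF.cons (PF.leaf (nat_lit 5064409) (nat_lit 466029) (nat_lit 47843602) (nat_lit 15070947) [(nat_lit 466029), (nat_lit 0), (nat_lit 0), (nat_lit 0)]) (PF.cons PF.nil (PF.cons PF.nil PF.nil)))))))))))) (PF.cons (PF.cons (PF.leaf (nat_lit 3259090) (nat_lit 1354930) (nat_lit 50457732) (nat_lit 15296149) [(nat_lit 0), (nat_lit 1354930), (nat_lit 0), (nat_lit 0)]) (PF.cons (PF.leaf (nat_lit 3484318) (nat_lit 373913) (nat_lit 50077471) (nat_lit 15268179) [(nat_lit 373913), (nat_lit 1389248), (nat_lit 0), (nat_lit 0)]) (PF.cons (PF.leaf (nat_lit 3733010) (nat_lit 394413)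 (nat_lit 49662186) (nat_lit 15235418) [(nat_lit 394413), (nat_lit 1422379), (nat_lit 0), (nat_lit 0)]) (PF.cons (PF.leaf (nat_lit 4000781) (nat_lit 412860) (nat_lit 49218469) (nat_lit 15197919) [(nat_lit 412860), (nat_lit 1453842), (nat_lit 0), (nat_lit 0)]) (PF.cons (PF.leaf (nat_lit 4284882) (nat_lit 429591) (nat_lit 48751310) (nat_lit 15155718) [(nat_lit 429591), (nat_lit 1483416), (nat_lit 0), (nat_lit 0)]) (PF.cons (PF.leaf (nat_lit 4583079)
 (nat_lit 444842) (nat_lit 48264721) (nat_lit 15108863) [(nat_lit 444842), (nat_lit 1511017), (nat_lit 0), (nat_lit 0)]) (PF.cons (PF.leaf (nat_lit 4893480) (nat_lit 458785) (nat_lit 47762044) (nat_lit 15057423) [(nat_lit 458785), (nat_lit 1536634), (nat_lit 0), (nat_lit 0)]) (PF.cons (PF.leaf (nat_lit 5214476) (nat_lit 471554) (nat_lit 47246142) (nat_lit 15001493) [(nat_lit 471554), (nat_lit 1560295), (nat_lit 0), (nat_lit 0)]) (PF.cons (PF.leaf (nat_lit 5544598) (nat_lit 483258) (nat_lit 46719501) (nat_lit 14941196) [(nat_lit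 483258), (nat_lit 1582050), (nat_lit 0), (nat_lit 0)]) (PF.cons PF.nil PF.nil)))))))))) (PF.cons (PF.cons (PF.leaf (nat_lit 3906898) (nat_lit 1449668) (nat_lit 49032838) (nat_lit 15176638) [(nat_lit 0), (nat_lit 1449668), (nat_lit 0), (nat_lit 0)]) (PF.cons (PF.leaf (nat_lit 4167866) (nat_lit 419859) (nat_lit 48596915) (nat_lit 15136303) [(nat_lit 419859), (nat_lit 1477866), (nat_lit 0), (nat_lit 0)]) (PF.cons (PF.leaf (nat_lit 4446632) (nat_lit 436047) (nat_lit 48136358) (nat_lit 15091143) [(nat_lit 436047), (nat_lit 1504608), (nat_lit 0), (nat_lit 0)]) (PF.cons (PF.leaf (nat_lit 4740014) (nat_lit 450740) (nat_lit 47655882) (nat_lit 15041298) [(nat_lit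
 450740), (nat_lit 1529704), (nat_lit 0), (nat_lit 0)]) (PF.cons (PF.leaf (nat_lit 5045900) (nat_lit 464133) (nat_lit 47159218) (nat_lit 14986905) [(nat_lit 464133), (nat_lit 1553076), (nat_lit 0), (nat_lit 0)]) (PF.cons (PF.leaf (nat_lit 5362532) (nat_lit 476370) (nat_lit 46649441) (nat_lit 14928105) [(nat_lit 476370), (nat_lit 1574707), (nat_lit 0), (nat_lit 0)]) (PF.cons (PF.leaf (nat_lit 5688385) (nat_lit 487563) (nat_lit 46129154) (nat_lit 14865053) [(nat_lit 487563), (nat_lit 1594612), (nat_lit 0), (nat_lit 0)]) (PF.cons PF.nil (PF.cons PF.nil PF.nil))))))))) (PF.cons (PF.cons (PF.leaf (nat_lit 4609826) (nat_lit 1523786) (nat_lit 47515962) (nat_lit 15021491) [(nat_lit 0), (nat_lit 1523786), (nat_lit 0), (nat_lit 0)]) (PF.cons (PF.leaf (nat_lit 4896856) (nat_lit 455744) (nat_lit 47044289) (nat_lit 14969143) [(nat_lit 455744), (nat_lit 1546545), (nat_lit 0), (nat_lit 0)]) (PF.cons (PF.leaf (nat_lit 5197454) (nat_lit 468706) (nat_lit 46555691) (nat_lit 14912223)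 [(nat_lit 468706), (nat_lit 1567828), (nat_lit 0), (nat_lit 0)]) (PF.cons (PF.leaf (nat_lit 5509143) (nat_lit 480502) (nat_lit 46053657) (nat_lit 14850938) [(nat_lit 480502), (nat_lit 1587569), (nat_lit 0), (nat_lit 0)])
 (PF.cons (PF.leaf (nat_lit 5830268) (nat_lit 491260) (nat_lit 45541025) (nat_lit 14785485) [(nat_lit 491260), (nat_lit 1605753), (nat_lit 0), (nat_lit 0)]) (PF.cons (PF.leaf (nat_lit 6159436) (nat_lit 501076) (nat_lit 45020176) (nat_lit 14716064) [(nat_lit 501076), (nat_lit 1622396), (nat_lit 0), (nat_lit 0)]) (PF.cons PF.nil PF.nil))))))) (PF.cons (PF.cons (PF.leaf (nat_lit 5349321) (nat_lit 1581037) (nat_lit 45951209) (nat_lit 14833451) [(nat_lit 0), (nat_lit 1581037), (nat_lit 0), (nat_lit 0)]) (PF.cons (PF.leaf (nat_lit 5654961) (nat_lit 483964) (nat_lit 45458709) (nat_lit 14770106) [(nat_lit 483964), (nat_lit 1599008), (nat_lit 0), (nat_lit 0)]) (PF.cons (PF.leaf (nat_lit 5970840) (nat_lit 494364) (nat_lit 44955123) (nat_lit 14702632) [(nat_lit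 494364), (nat_lit 1615582), (nat_lit 0), (nat_lit 0)]) (PF.cons (PF.leaf (nat_lit 6295005) (nat_lit 503819) (nat_lit 44443080) (nat_lit 14631269) [(nat_lit 503819), (nat_lit 1630750), (nat_lit 0), (nat_lit 0)]) (PF.cons PF.nil PF.nil))))) (PF.cons (PF.cons (PF.leaf (nat_lit 6111006) (nat_lit 1624195) (nat_lit 44371242) (nat_lit 14616594) [(nat_lit 0), (nat_lit 1624195), (nat_lit 0), (nat_lit 0)]) (PF.cons (PF.leaf (nat_lit 6429325)
 (nat_lit 506043) (nat_lit 43869210) (nat_lit 14543655) [(nat_lit 506043), (nat_lit 1637980), (nat_lit 0), (nat_lit 0)]) (PF.cons (PF.leaf (nat_lit 6755265) (nat_lit 514343) (nat_lit 43360544) (nat_lit 14467131) [(nat_lit 514343), (nat_lit 1650489), (nat_lit 0), (nat_lit 0)]) (PF.cons PF.nil PF.nil)))) (PF.cons (PF.cons (PF.leaf (nat_lit 6883589) (nat_lit 1655480) (nat_lit 42800308) (nat_lit 14375622) [(nat_lit 0), (nat_lit 1655480), (nat_lit 0), (nat_lit 0)]) (PF.cons PF.nil PF.nil)) (PF.cons PF.nil (PF.cons PF.nil PF.nil))))))))) (PF.cons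 (PF.cons (PF.cons (PF.leaf (nat_lit 3808376) (nat_lit 3437620) (nat_lit 48561147) (nat_lit 15110044) [(nat_lit 0), (nat_lit 0), (nat_lit 3437620), (nat_lit 0)]) (PF.cons (PF.leaf (nat_lit 4042283) (nat_lit 397921) (nat_lit 48173377) (nat_lit 15072445) [(nat_lit 397921), (nat_lit 0), (nat_lit 3465068), (nat_lit 0)]) (PF.cons (PF.leaf (nat_lit 4298294) (nat_lit 416859) (nat_lit 47753365) (nat_lit 15029656) [(nat_lit 416859), (nat_lit 0), (nat_lit 3492071), (nat_lit 0)]) (PF.cons (PF.leaf (nat_lit 4571963) (nat_lit 433661) (nat_lit 47307909) (nat_lit 14981980) [(nat_lit 433661), (nat_lit 0), (nat_lit 3517939), (nat_lit 0)]) (PF.cons (PF.leaf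
 (nat_lit 4860480) (nat_lit 448727) (nat_lit 46842025) (nat_lit 14929639) [(nat_lit 448727), (nat_lit 0), (nat_lit 3542237), (nat_lit 0)]) (PF.cons (PF.leaf (nat_lit 5161619) (nat_lit 462328) (nat_lit 46359646) (nat_lit 14872829) [(nat_lit 462328), (nat_lit 0), (nat_lit 3564692), (nat_lit 0)]) (PF.cons (PF.leaf (nat_lit 5473520) (nat_lit 474660) (nat_lit 45863976) (nat_lit 14811731) [(nat_lit 474660), (nat_lit 0), (nat_lit 3585141), (nat_lit 0)]) (PF.cons (PF.leaf (nat_lit 5794685) (nat_lit 485868) (nat_lit 45357704) (nat_lit 14746533) [(nat_lit 485868), (nat_lit 0), (nat_lit 3603493), (nat_lit 0)]) (PF.cons PF.nil (PF.cons PF.nil PF.nil)))))))))) (PF.cons (PF.cons (PF.leaf (nat_lit 4466021) (nat_lit 1501090) (nat_lit 47133046) (nat_lit 14957984) [(nat_lit 0), (nat_lit 1501090), (nat_lit 3516690), (nat_lit 0)]) (PF.cons (PF.leaf (nat_lit 4731954) (nat_lit 438545) (nat_lit 46698280) (nat_lit 14908349) [(nat_lit 438545), (nat_lit 1524542), (nat_lit 3539094), (nat_lit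 0)]) (PF.cons (PF.leaf (nat_lit 5014337) (nat_lit 453257) (nat_lit 46241563) (nat_lit 14853899) [(nat_lit 453257), (nat_lit 1546612), (nat_lit 3560222), (nat_lit 0)]) (PF.cons (PF.leaf (nat_lit 5309993) (nat_lit 466465)
 (nat_lit 45767564) (nat_lit 14794932) [(nat_lit 466465), (nat_lit 1567167), (nat_lit 3579752), (nat_lit 0)]) (PF.cons (PF.leaf (nat_lit 5616877) (nat_lit 478389) (nat_lit 45279900) (nat_lit 14731700) [(nat_lit 478389), (nat_lit 1586163), (nat_lit 3597488), (nat_lit 0)]) (PF.cons (PF.leaf (nat_lit 5933228) (nat_lit 489192) (nat_lit 44781497) (nat_lit 14664432) [(nat_lit 489192), (nat_lit 1603598), (nat_lit 3613319), (nat_lit 0)]) (PF.cons (PF.leaf (nat_lit 6257614) (nat_lit 498997) (nat_lit 44274785) (nat_lit 14593352) [(nat_lit 498997), (nat_lit 1619501), (nat_lit 3627189), (nat_lit 0)]) (PF.cons PF.nil (PF.cons PF.nil PF.nil))))))))) (PF.cons (PF.cons (PF.leaf (nat_lit 5169753) (nat_lit 1560617) (nat_lit 45638151) (nat_lit 14773883) [(nat_lit 0), (nat_lit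 1560617), (nat_lit 3575544), (nat_lit 0)]) (PF.cons (PF.leaf (nat_lit 5458495) (nat_lit 469835) (nat_lit 45174847) (nat_lit 14713249) [(nat_lit 469835), (nat_lit 1579273), (nat_lit 3592332), (nat_lit 0)]) (PF.cons (PF.leaf (nat_lit 5759569) (nat_lit 481459) (nat_lit 44696919) (nat_lit 14648299) [(nat_lit 481459), (nat_lit 1596569), (nat_lit 3607536), (nat_lit 0)]) (PF.cons (PF.leaf (nat_lit 6070606) (nat_lit 491938) (nat_lit
 44207718) (nat_lit 14579330) [(nat_lit 491938), (nat_lit 1612465), (nat_lit 3621017), (nat_lit 0)]) (PF.cons (PF.leaf (nat_lit 6389976) (nat_lit 501412) (nat_lit 43709924) (nat_lit 14506608) [(nat_lit 501412), (nat_lit 1626963), (nat_lit 3632703), (nat_lit 0)]) (PF.cons PF.nil (PF.cons PF.nil PF.nil))))))) (PF.cons (PF.cons (PF.leaf (nat_lit 5902778) (nat_lit 1605736) (nat_lit 44114595) (nat_lit 14561571) [(nat_lit 0), (nat_lit 1605736), (nat_lit 3615436), (nat_lit 0)]) (PF.cons (PF.leaf (nat_lit 6207409) (nat_lit 494106) (nat_lit 43636118) (nat_lit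 14491307) [(nat_lit 494106), (nat_lit 1620184), (nat_lit 3626725), (nat_lit 0)]) (PF.cons (PF.leaf (nat_lit 6521242) (nat_lit 503319) (nat_lit 43148401) (nat_lit 14417297) [(nat_lit 503319), (nat_lit 1633365), (nat_lit 3636378), (nat_lit 0)]) (PF.cons (PF.leaf (nat_lit 6842397) (nat_lit 511622) (nat_lit 42653910) (nat_lit 14339832) [(nat_lit 511622), (nat_lit 1645283), (nat_lit 3644351), (nat_lit 0)]) (PF.cons PF.nil PF.nil))))) (PF.cons (PF.cons (PF.leaf (nat_lit 6652346) (nat_lit 1638780) (nat_lit 42589883) (nat_lit 14325481) [(nat_lit 0), (nat_lit 1638780), (nat_lit 3638327), (nat_lit 0)]) (PF.cons (PF.leaf (nat_lit 6967488)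
 (nat_lit 512810) (nat_lit 42106084) (nat_lit 14247114) [(nat_lit 512810), (nat_lit 1649564), (nat_lit 3644543), (nat_lit 0)]) (PF.cons PF.nil (PF.cons PF.nil PF.nil)))) (PF.cons (PF.cons (PF.leaf (nat_lit 7408608) (nat_lit 1661653) (nat_lit 41083956) (nat_lit 14070209) [(nat_lit 0), (nat_lit 1661653), (nat_lit 3646378), (nat_lit 0)]) (PF.cons PF.nil PF.nil)) (PF.cons PF.nil (PF.cons PF.nil PF.nil)))))))) (PF.cons (PF.cons (PF.cons (PF.leaf (nat_lit 5011314) (nat_lit 3554713) (nat_lit 45290161) (nat_lit 14709223) [(nat_lit 0), (nat_lit 0), (nat_lit 3554713), (nat_lit 0)]) (PF.cons (PF.leaf (nat_lit 5280046) (nat_lit 452995) (nat_lit 44861838) (nat_lit 14652078) [(nat_lit 452995), (nat_lit 0), (nat_lit 3570950), (nat_lit 0)]) (PF.cons (PF.leaf (nat_lit 5564037) (nat_lit 466406) (nat_lit 44413903) (nat_lit 14590236) [(nat_lit 466406), (nat_lit 0), (nat_lit 3585929), (nat_lit 0)]) (PF.cons (PF.leaf (nat_lit 5860183) (nat_lit 478317) (nat_lit 43950908) (nat_lit 14524113)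 [(nat_lit 478317), (nat_lit 0), (nat_lit 3599419), (nat_lit 0)]) (PF.cons (PF.leaf (nat_lit 6166387) (nat_lit 488968) (nat_lit 43476326) (nat_lit 14454047) [(nat_lit 488968), (nat_lit 0), (nat_lit 3611281), (nat_lit
 0)]) (PF.cons (PF.leaf (nat_lit 6481009) (nat_lit 498534) (nat_lit 42992918) (nat_lit 14380333) [(nat_lit 498534), (nat_lit 0), (nat_lit 3621445), (nat_lit 0)]) (PF.cons PF.nil (PF.cons PF.nil (PF.cons PF.nil PF.nil))))))))) (PF.cons (PF.cons (PF.leaf (nat_lit 5711543) (nat_lit 1585907) (nat_lit 43831886) (nat_lit 14502498) [(nat_lit 0), (nat_lit 1585907), (nat_lit 3594260), (nat_lit 0)]) (PF.cons (PF.leaf (nat_lit 6000346) (nat_lit 480361) (nat_lit 43380780) (nat_lit 14435446) [(nat_lit 480361), (nat_lit 1601139), (nat_lit 3605542), (nat_lit 0)]) (PF.cons (PF.leaf (nat_lit 6300428) (nat_lit 490815) (nat_lit 42916973) (nat_lit 14364368) [(nat_lit 490815), (nat_lit 1615108), (nat_lit 3615365), (nat_lit 0)]) (PF.cons (PF.leaf (nat_lit 6609482) (nat_lit 500151)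 (nat_lit 42443660) (nat_lit 14289626) [(nat_lit 500151), (nat_lit 1627800), (nat_lit 3623636), (nat_lit 0)]) (PF.cons (PF.leaf (nat_lit 6925923) (nat_lit 508515) (nat_lit 41963358) (nat_lit 14211534) [(nat_lit 508515), (nat_lit 1639229), (nat_lit 3630313), (nat_lit 0)]) (PF.cons PF.nil (PF.cons PF.nil PF.nil))))))) (PF.cons (PF.cons (PF.leaf (nat_lit 6435169) (nat_lit 1621019) (nat_lit 42359352) (nat_lit 14272013) [(nat_lit
 0), (nat_lit 1621019), (nat_lit 3617704), (nat_lit 0)]) (PF.cons (PF.leaf (nat_lit 6737600) (nat_lit 501263) (nat_lit 41897445) (nat_lit 14196626) [(nat_lit 501263), (nat_lit 1632523), (nat_lit 3624215), (nat_lit 0)]) (PF.cons (PF.leaf (nat_lit 7048343) (nat_lit 509447) (nat_lit 41427791) (nat_lit 14117863) [(nat_lit 509447), (nat_lit 1642871), (nat_lit 3629260), (nat_lit 0)]) (PF.cons PF.nil (PF.cons PF.nil PF.nil))))) (PF.cons (PF.cons (PF.leaf (nat_lit 7170814) (nat_lit 1645704) (nat_lit 40895830) (nat_lit 14022255) [(nat_lit 0), (nat_lit 1645704),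 (nat_lit 3626806), (nat_lit 0)]) (PF.cons (PF.leaf (nat_lit 7481965) (nat_lit 517098) (nat_lit 40431742) (nat_lit 13940096) [(nat_lit 517098), (nat_lit 1653983), (nat_lit 3628961), (nat_lit 0)]) (PF.cons PF.nil (PF.cons PF.nil PF.nil)))) (PF.cons (PF.cons (PF.leaf (nat_lit 7909848) (nat_lit 1661634) (nat_lit 39457790) (nat_lit 13757556) [(nat_lit 0), (nat_lit 1661634), (nat_lit 3623464), (nat_lit 0)]) (PF.cons PF.nil PF.nil)) (PF.cons PF.nil PF.nil)))))) (PF.cons (PF.cons (PF.cons (PF.leaf (nat_lit 6234427) (nat_lit 3596655) (nat_lit 42104428) (nat_lit 14214418) [(nat_lit 0), (nat_lit 0), (nat_lit 3596655), (nat_lit 0)]) (PF.cons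
 (PF.leaf (nat_lit 6522004) (nat_lit 487955) (nat_lit 41668045) (nat_lit 14142575) [(nat_lit 487955), (nat_lit 0), (nat_lit 3603412), (nat_lit 0)]) (PF.cons (PF.leaf (nat_lit 6819971) (nat_lit 497383) (nat_lit 41220574) (nat_lit 14067003) [(nat_lit 497383), (nat_lit 0), (nat_lit 3608822), (nat_lit 0)]) (PF.cons (PF.leaf (nat_lit 7126037) (nat_lit 505720) (nat_lit 40765040) (nat_lit 13988113) [(nat_lit 505720), (nat_lit 0), (nat_lit 3612832), (nat_lit 0)]) (PF.cons PF.nil PF.nil))))) (PF.cons (PF.cons (PF.leaf (nat_lit 6946535) (nat_lit 1628715) (nat_lit 40688932) (nat_lit 13970943) [(nat_lit 0), (nat_lit 1628715), (nat_lit 3606740), (nat_lit 0)]) (PF.cons (PF.leaf (nat_lit 7245867) (nat_lit 505970) (nat_lit 40245116) (nat_lit 13891947) [(nat_lit 505970), (nat_lit 1637746), (nat_lit 3609344), (nat_lit 0)]) (PF.cons (PF.leaf (nat_lit 7552758) (nat_lit 513257) (nat_lit 39794766) (nat_lit 13809920) [(nat_lit 513257), (nat_lit 1645720), (nat_lit 3610630), (nat_lit 0)]) (PF.cons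 PF.nil PF.nil)))) (PF.cons (PF.cons (PF.leaf (nat_lit 7667078) (nat_lit 1646469) (nat_lit 39289665) (nat_lit 13712119) [(nat_lit 0), (nat_lit 1646469), (nat_lit 3604696), (nat_lit 0)]) (PF.cons (PF.leaf (nat_lit
 7973660) (nat_lit 519355) (nat_lit 38845986) (nat_lit 13627513) [(nat_lit 519355), (nat_lit 1652651), (nat_lit 3603551), (nat_lit 0)]) PF.nil)) (PF.cons PF.nil (PF.cons PF.nil PF.nil))))) (PF.cons (PF.cons (PF.cons (PF.leaf (nat_lit 7437294) (nat_lit 3585362) (nat_lit 39104033) (nat_lit 13663328) [(nat_lit 0), (nat_lit 0), (nat_lit 3585362), (nat_lit 0)]) (PF.cons (PF.leaf (nat_lit 7732861) (nat_lit 508660) (nat_lit 38679085) (nat_lit 13581977) [(nat_lit 508660), (nat_lit 0), (nat_lit 3584772), (nat_lit 0)]) (PF.cons (PF.leaf (nat_lit 8035340) (nat_lit 515164) (nat_lit 38248587) (nat_lit 13497910) [(nat_lit 515164), (nat_lit 0), (nat_lit 3582996), (nat_lit 0)]) (PF.cons PF.nil PF.nil)))) (PF.cons (PF.cons (PF.leaf (nat_lit 8142011) (nat_lit 1642285) (nat_lit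 37770031) (nat_lit 13399185) [(nat_lit 0), (nat_lit 1642285), (nat_lit 3574327), (nat_lit 0)]) (PF.cons PF.nil PF.nil)) (PF.cons PF.nil PF.nil))) (PF.cons (PF.cons (PF.cons (PF.leaf (nat_lit 8596629) (nat_lit 3537571) (nat_lit 36334293) (nat_lit 13086663) [(nat_lit 0), (nat_lit 0), (nat_lit 3537571), (nat_lit 0)]) (PF.cons PF.nil PF.nil)) (PF.cons PF.nil PF.nil)) (PF.cons PF.nil (PF.cons PF.nil PF.nil)))))))) (PF.cons (PF.cons
 (PF.cons (PF.cons (PF.leaf (nat_lit 4699694) (nat_lit 8827878) (nat_lit 43885503) (nat_lit 14395430) [(nat_lit 0), (nat_lit 0), (nat_lit 0), (nat_lit 8827878)]) (PF.cons (PF.leaf (nat_lit 4930480) (nat_lit 407145) (nat_lit 43536519) (nat_lit 14347155) [(nat_lit 407145), (nat_lit 0), (nat_lit 0), (nat_lit 8817992)]) (PF.cons (PF.leaf (nat_lit 5181699) (nat_lit 424684) (nat_lit 43160125) (nat_lit 14293590) [(nat_lit 424684), (nat_lit 0), (nat_lit 0), (nat_lit 8805728)]) (PF.cons (PF.leaf (nat_lit 5448875) (nat_lit 439952) (nat_lit 42762565) (nat_lit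 14235356) [(nat_lit 439952), (nat_lit 0), (nat_lit 0), (nat_lit 8791033)]) (PF.cons (PF.leaf (nat_lit 5729200) (nat_lit 453408) (nat_lit 42348387) (nat_lit 14172907) [(nat_lit 453408), (nat_lit 0), (nat_lit 0), (nat_lit 8773882)]) (PF.cons (PF.leaf (nat_lit 6020482) (nat_lit 465364) (nat_lit 41921104) (nat_lit 14106606) [(nat_lit 465364), (nat_lit 0), (nat_lit 0), (nat_lit 8754277)]) (PF.cons (PF.leaf (nat_lit 6321003) (nat_lit 476045) (nat_lit 41483530) (nat_lit 14036764) [(nat_lit 476045), (nat_lit 0), (nat_lit 0), (nat_lit 8732246)]) (PF.cons (PF.leaf (nat_lit 6629277) (nat_lit 485619) (nat_lit 41037985) (nat_lit 13963655) [(nat_lit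
 485619), (nat_lit 0), (nat_lit 0), (nat_lit 8707836)]) (PF.cons PF.nil (PF.cons PF.nil PF.nil)))))))))) (PF.cons (PF.cons (PF.leaf (nat_lit 5334370) (nat_lit 1508215) (nat_lit 42612326) (nat_lit 14208853) [(nat_lit 0), (nat_lit 1508215), (nat_lit 0), (nat_lit 8779417)]) (PF.cons (PF.leaf (nat_lit 5593198) (nat_lit 442828) (nat_lit 42226037) (nat_lit 14150084) [(nat_lit 442828), (nat_lit 1526903), (nat_lit 0), (nat_lit 8762958)]) (PF.cons (PF.leaf (nat_lit 5866857) (nat_lit 456043) (nat_lit 41821611) (nat_lit 14086898) [(nat_lit 456043), (nat_lit 1544174), (nat_lit 0), (nat_lit 8744040)]) (PF.cons (PF.leaf (nat_lit 6152286) (nat_lit 467717) (nat_lit 41403214) (nat_lit 14019770) [(nat_lit 467717), (nat_lit 1559973), (nat_lit 0), (nat_lit 8722703)]) (PF.cons (PF.leaf (nat_lit 6447447) (nat_lit 478099) (nat_lit 40974030) (nat_lit 13949076) [(nat_lit 478099), (nat_lit 1574311), (nat_lit 0), (nat_lit 8698996)]) (PF.cons (PF.leaf (nat_lit 6750723) (nat_lit 487374) (nat_lit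 40536593) (nat_lit 13875136) [(nat_lit 487374), (nat_lit 1587227), (nat_lit 0), (nat_lit 8672983)]) (PF.cons (PF.leaf (nat_lit 7060764) (nat_lit 495680) (nat_lit 40092979) (nat_lit 13798229) [(nat_lit 495680), (nat_lit
 1598778), (nat_lit 0), (nat_lit 8644739)]) (PF.cons PF.nil (PF.cons PF.nil PF.nil))))))))) (PF.cons (PF.cons (PF.leaf (nat_lit 6006223) (nat_lit 1552691) (nat_lit 41293801) (nat_lit 13998020) [(nat_lit 0), (nat_lit 1552691), (nat_lit 0), (nat_lit 8711608)]) (PF.cons (PF.leaf (nat_lit 6284426) (nat_lit 469423) (nat_lit 40886109) (nat_lit 13930503) [(nat_lit 469423), (nat_lit 1566989), (nat_lit 0), (nat_lit 8688798)]) (PF.cons (PF.leaf (nat_lit 6573582) (nat_lit 479608) (nat_lit 40466636) (nat_lit 13859315) [(nat_lit 479608), (nat_lit 1579999), (nat_lit 0), (nat_lit 8663643)]) (PF.cons (PF.leaf (nat_lit 6871401) (nat_lit 488660) (nat_lit 40038299) (nat_lit 13784844) [(nat_lit 488660), (nat_lit 1591728), (nat_lit 0), (nat_lit 8636232)]) (PF.cons (PF.leaf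 (nat_lit 7176367) (nat_lit 496732) (nat_lit 39603398) (nat_lit 13707414) [(nat_lit 496732), (nat_lit 1602206), (nat_lit 0), (nat_lit 8606655)]) (PF.cons PF.nil (PF.cons PF.nil PF.nil))))))) (PF.cons (PF.cons (PF.leaf (nat_lit 6700531) (nat_lit 1584767) (nat_lit 39960815) (nat_lit 13767456) [(nat_lit 0), (nat_lit 1584767), (nat_lit 0), (nat_lit 8626239)]) (PF.cons (PF.leaf (nat_lit 6991886) (nat_lit 489470) (nat_lit 39542748) (nat_lit
 13692794) [(nat_lit 489470), (nat_lit 1595383), (nat_lit 0), (nat_lit 8597648)]) (PF.cons (PF.leaf (nat_lit 7291328) (nat_lit 497375) (nat_lit 39117425) (nat_lit 13615124) [(nat_lit 497375), (nat_lit 1604860), (nat_lit 0), (nat_lit 8566931)]) (PF.cons (PF.leaf (nat_lit 7597069) (nat_lit 504405) (nat_lit 38686951) (nat_lit 13534773) [(nat_lit 504405), (nat_lit 1613224), (nat_lit 0), (nat_lit 8534199)]) (PF.cons PF.nil PF.nil))))) (PF.cons (PF.cons (PF.leaf (nat_lit 7406544) (nat_lit 1606793) (nat_lit 38634660) (nat_lit 13521362) [(nat_lit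 0), (nat_lit 1606793), (nat_lit 0), (nat_lit 8525618)]) (PF.cons (PF.leaf (nat_lit 7706380) (nat_lit 504502) (nat_lit 38214065) (nat_lit 13441031) [(nat_lit 504502), (nat_lit 1614307), (nat_lit 0), (nat_lit 8491982)]) (PF.cons PF.nil (PF.cons PF.nil PF.nil)))) (PF.cons (PF.cons (PF.leaf (nat_lit 8116189) (nat_lit 1620563) (nat_lit 37330200) (nat_lit 13263580) [(nat_lit 0), (nat_lit 1620563), (nat_lit 0), (nat_lit 8412211)]) (PF.cons PF.nil PF.nil)) (PF.cons PF.nil (PF.cons PF.nil PF.nil)))))))) (PF.cons (PF.cons (PF.cons (PF.leaf (nat_lit 5836315) (nat_lit 3494276) (nat_lit 41005255) (nat_lit 13934371) [(nat_lit 0), (nat_lit 0), (nat_lit 3494276),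
 (nat_lit 8674909)]) (PF.cons (PF.leaf (nat_lit 6096135) (nat_lit 452680) (nat_lit 40627998) (nat_lit 13871250) [(nat_lit 452680), (nat_lit 0), (nat_lit 3503399), (nat_lit 8653484)]) (PF.cons (PF.leaf (nat_lit 6369808) (nat_lit 464748) (nat_lit 40234452) (nat_lit 13803900) [(nat_lit 464748), (nat_lit 0), (nat_lit 3511318), (nat_lit 8629644)]) (PF.cons (PF.leaf (nat_lit 6654295) (nat_lit 475305) (nat_lit 39828627) (nat_lit 13732860) [(nat_lit 475305), (nat_lit 0), (nat_lit 3517904), (nat_lit 8603503)]) (PF.cons (PF.leaf (nat_lit 6947614) (nat_lit 484613) (nat_lit 39413546) (nat_lit 13658552) [(nat_lit 484613), (nat_lit 0), (nat_lit 3523093), (nat_lit 8575167)]) (PF.cons (PF.leaf (nat_lit 7248207) (nat_lit 492861) (nat_lit 38991582) (nat_lit 13581321) [(nat_lit 492861), (nat_lit 0), (nat_lit 3526863), (nat_lit 8544737)]) (PF.cons PF.nil (PF.cons PF.nil (PF.cons PF.nil PF.nil))))))))) (PF.cons (PF.cons (PF.leaf (nat_lit 6501890) (nat_lit 1565172) (nat_lit 39728446) (nat_lit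 13711410) [(nat_lit 0), (nat_lit 1565172), (nat_lit 3511809), (nat_lit 8591974)]) (PF.cons (PF.leaf (nat_lit 6778957) (nat_lit 476011) (nat_lit 39333886) (nat_lit 13640480) [(nat_lit 476011), (nat_lit 1576788),
 (nat_lit 3516830), (nat_lit 8564815)]) (PF.cons (PF.leaf (nat_lit 7066122) (nat_lit 485211) (nat_lit 38928983) (nat_lit 13566146) [(nat_lit 485211), (nat_lit 1587220), (nat_lit 3520579), (nat_lit 8535460)]) (PF.cons (PF.leaf (nat_lit 7361158) (nat_lit 493313) (nat_lit 38516493) (nat_lit 13488828) [(nat_lit 493313), (nat_lit 1596490), (nat_lit 3523020), (nat_lit 8504038)]) (PF.cons (PF.leaf (nat_lit 7662608) (nat_lit 500479) (nat_lit 38098570) (nat_lit 13408869) [(nat_lit 500479), (nat_lit 1604633), (nat_lit 3524151), (nat_lit 8470669)]) (PF.cons PF.nil (PF.cons PF.nil PF.nil))))))) (PF.cons (PF.cons (PF.leaf (nat_lit 7185625) (nat_lit 1589652) (nat_lit 38446529) (nat_lit 13472072) [(nat_lit 0), (nat_lit 1589652), (nat_lit 3516830), (nat_lit 8494075)]) (PF.cons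 (PF.leaf (nat_lit 7474129) (nat_lit 493347) (nat_lit 38044540) (nat_lit 13394981) [(nat_lit 493347), (nat_lit 1598014), (nat_lit 3518051), (nat_lit 8461863)]) (PF.cons (PF.leaf (nat_lit 7770012) (nat_lit 500409) (nat_lit 37636362) (nat_lit 13315176) [(nat_lit 500409), (nat_lit 1605340), (nat_lit 3518052), (nat_lit 8427721)]) (PF.cons PF.nil (PF.cons PF.nil PF.nil))))) (PF.cons (PF.cons (PF.leaf (nat_lit 7877859) (nat_lit
 1605455) (nat_lit 37177598) (nat_lit 13220368) [(nat_lit 0), (nat_lit 1605455), (nat_lit 3510979), (nat_lit 8383501)]) (PF.cons (PF.leaf (nat_lit 8173504) (nat_lit 506121) (nat_lit 36775079) (nat_lit 13138556) [(nat_lit 506121), (nat_lit 1611083), (nat_lit 3508816), (nat_lit 8346988)]) (PF.cons PF.nil (PF.cons PF.nil PF.nil)))) (PF.cons (PF.cons (PF.leaf (nat_lit 8571440) (nat_lit 1614133) (nat_lit 35934040) (nat_lit 12959828) [(nat_lit 0), (nat_lit 1614133), (nat_lit 3495863), (nat_lit 8262546)]) (PF.cons PF.nil PF.nil)) (PF.cons PF.nil PF.nil))))))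 (PF.cons (PF.cons (PF.cons (PF.leaf (nat_lit 6980282) (nat_lit 3496158) (nat_lit 38237145) (nat_lit 13418630) [(nat_lit 0), (nat_lit 0), (nat_lit 3496158), (nat_lit 8460719)]) (PF.cons (PF.leaf (nat_lit 7255344) (nat_lit 480440) (nat_lit 37856955) (nat_lit 13345361) [(nat_lit 480440), (nat_lit 0), (nat_lit 3497954), (nat_lit 8430147)]) (PF.cons (PF.leaf (nat_lit 7539792) (nat_lit 488775) (nat_lit 37467628) (nat_lit 13268946) [(nat_lit 488775), (nat_lit 0), (nat_lit 3498579), (nat_lit 8397528)]) (PF.cons (PF.leaf (nat_lit 7831426) (nat_lit 496049) (nat_lit 37071768) (nat_lit 13189824) [(nat_lit 496049), (nat_lit 0), (nat_lit 3498024),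
 (nat_lit 8363021)]) (PF.cons PF.nil PF.nil))))) (PF.cons (PF.cons (PF.leaf (nat_lit 7652221) (nat_lit 1589258) (nat_lit 37008687) (nat_lit 13173829) [(nat_lit 0), (nat_lit 1589258), (nat_lit 3491894), (nat_lit 8353249)]) (PF.cons (PF.leaf (nat_lit 7937301) (nat_lit 495449) (nat_lit 36623340) (nat_lit 13095273) [(nat_lit 495449), (nat_lit 1595725), (nat_lit 3490373), (nat_lit 8318275)]) (PF.cons (PF.leaf (nat_lit 8229159) (nat_lit 501776) (nat_lit 36232678) (nat_lit 13014270) [(nat_lit 501776), (nat_lit 1601245), (nat_lit 3487755), (nat_lit 8281552)]) (PF.cons PF.nil PF.nil)))) (PF.cons (PF.cons (PF.leaf (nat_lit 8330102) (nat_lit 1599894) (nat_lit 35797501) (nat_lit 12919365) [(nat_lit 0), (nat_lit 1599894), (nat_lit 3478415), (nat_lit 8235324)]) (PF.cons (PF.leaf (nat_lit 8621212) (nat_lit 506292) (nat_lit 35413096) (nat_lit 12836902) [(nat_lit 506292), (nat_lit 1603941), (nat_lit 3473971), (nat_lit 8196694)]) PF.nil)) (PF.cons PF.nil (PF.cons PF.nil PF.nil))))) (PF.cons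 (PF.cons (PF.cons (PF.leaf (nat_lit 8100918) (nat_lit 3460292) (nat_lit 35645774) (nat_lit 12875640) [(nat_lit 0), (nat_lit 0), (nat_lit 3460292), (nat_lit 8206519)]) (PF.cons (PF.leaf (nat_lit 8382138) (nat_lit
 496092) (nat_lit 35277209) (nat_lit 12796405) [(nat_lit 496092), (nat_lit 0), (nat_lit 3456535), (nat_lit 8169497)]) (PF.cons (PF.leaf (nat_lit 8669643) (nat_lit 501776) (nat_lit 34904046) (nat_lit 12714963) [(nat_lit 501776), (nat_lit 0), (nat_lit 3451787), (nat_lit 8130888)]) (PF.cons PF.nil PF.nil)))) (PF.cons (PF.cons (PF.leaf (nat_lit 8764127) (nat_lit 1590952) (nat_lit 34491739) (nat_lit 12620701) [(nat_lit 0), (nat_lit 1590952), (nat_lit 3440682), (nat_lit 8083373)]) (PF.cons PF.nil PF.nil)) (PF.cons PF.nil PF.nil))) (PF.cons (PF.cons (PF.cons (PF.leaf (nat_lit 9180867) (nat_lit 3399016) (nat_lit 33257109) (nat_lit 12326172) [(nat_lit 0), (nat_lit 0), (nat_lit 3399016), (nat_lit 7929463)]) (PF.cons PF.nil PF.nil)) (PF.cons PF.nil PF.nil)) (PF.cons PF.nil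 PF.nil)))))) (PF.cons (PF.cons (PF.cons (PF.cons (PF.leaf (nat_lit 6569542) (nat_lit 8297972) (nat_lit 37344395) (nat_lit 13168472) [(nat_lit 0), (nat_lit 0), (nat_lit 0), (nat_lit 8297972)]) (PF.cons (PF.leaf (nat_lit 6819907) (nat_lit 447294) (nat_lit 37013338) (nat_lit 13104227) [(nat_lit 447294), (nat_lit 0), (nat_lit 0), (nat_lit 8271976)]) (PF.cons (PF.leaf (nat_lit 7083012) (nat_lit 458268) (nat_lit 36668538)
 (nat_lit 13036192) [(nat_lit 458268), (nat_lit 0), (nat_lit 0), (nat_lit 8243772)]) (PF.cons (PF.leaf (nat_lit 7355903) (nat_lit 467750) (nat_lit 36313498) (nat_lit 12964953) [(nat_lit 467750), (nat_lit 0), (nat_lit 0), (nat_lit 8213554)]) (PF.cons (PF.leaf (nat_lit 7636676) (nat_lit 476013) (nat_lit 35950840) (nat_lit 12890956) [(nat_lit 476013), (nat_lit 0), (nat_lit 0), (nat_lit 8181481)]) (PF.cons (PF.leaf (nat_lit 7923860) (nat_lit 483253) (nat_lit 35582602) (nat_lit 12814563) [(nat_lit 483253), (nat_lit 0), (nat_lit 0), (nat_lit 8147690)]) (PF.cons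 PF.nil PF.nil))))))) (PF.cons (PF.cons (PF.leaf (nat_lit 7202267) (nat_lit 1531113) (nat_lit 36229080) (nat_lit 12944661) [(nat_lit 0), (nat_lit 1531113), (nat_lit 0), (nat_lit 8201978)]) (PF.cons (PF.leaf (nat_lit 7467808) (nat_lit 467558) (nat_lit 35884287) (nat_lit 12874111) [(nat_lit 467558), (nat_lit 1540161), (nat_lit 0), (nat_lit 8171346)]) (PF.cons (PF.leaf (nat_lit 7742542) (nat_lit 475778) (nat_lit 35530855) (nat_lit 12800643) [(nat_lit 475778), (nat_lit 1548108), (nat_lit 0), (nat_lit 8138824)]) (PF.cons (PF.leaf (nat_lit 8024313) (nat_lit 482935) (nat_lit 35171163) (nat_lit 12724687) [(nat_lit 482935), (nat_lit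
 1554993), (nat_lit 0), (nat_lit 8104580)]) (PF.cons (PF.leaf (nat_lit 8311793) (nat_lit 489196) (nat_lit 34807053) (nat_lit 12646588) [(nat_lit 489196), (nat_lit 1560870), (nat_lit 0), (nat_lit 8068757)]) PF.nil))))) (PF.cons (PF.cons (PF.leaf (nat_lit 7849666) (nat_lit 1548297) (nat_lit 35112898) (nat_lit 12709265) [(nat_lit 0), (nat_lit 1548297), (nat_lit 0), (nat_lit 8095027)]) (PF.cons (PF.leaf (nat_lit 8125082) (nat_lit 482262) (nat_lit 34762583) (nat_lit 12634010) [(nat_lit 482262), (nat_lit 1554479), (nat_lit 0), (nat_lit 8060498)]) (PF.cons (PF.leaf (nat_lit 8407196) (nat_lit 488475) (nat_lit 34407138) (nat_lit 12556512) [(nat_lit 488475), (nat_lit 1559726), (nat_lit 0), (nat_lit 8024378)]) (PF.cons PF.nil PF.nil)))) (PF.cons (PF.cons (PF.leaf (nat_lit 8503357) (nat_lit 1558140) (nat_lit 34010255) (nat_lit 12465797) [(nat_lit 0), (nat_lit 1558140), (nat_lit 0), (nat_lit 7979169)]) (PF.cons (PF.leaf (nat_lit 8784849) (nat_lit 492833) (nat_lit 33660050) (nat_lit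 12387130) [(nat_lit 492833), (nat_lit 1561968), (nat_lit 0), (nat_lit 7941445)]) PF.nil)) (PF.cons PF.nil PF.nil))))) (PF.cons (PF.cons (PF.cons (PF.leaf (nat_lit 7643203) (nat_lit 3379923) (nat_lit 34939994)
 (nat_lit 12660954) [(nat_lit 0), (nat_lit 0), (nat_lit 3379923), (nat_lit 8063970)]) (PF.cons (PF.leaf (nat_lit 7906370) (nat_lit 469898) (nat_lit 34608279) (nat_lit 12589489) [(nat_lit 469898), (nat_lit 0), (nat_lit 3378604), (nat_lit 8031270)]) (PF.cons (PF.leaf (nat_lit 8178143) (nat_lit 477378) (nat_lit 34268856) (nat_lit 12515323) [(nat_lit 477378), (nat_lit 0), (nat_lit 3376257), (nat_lit 7996808)]) (PF.cons (PF.leaf (nat_lit 8456403) (nat_lit 483837) (nat_lit 33923966) (nat_lit 12438893) [(nat_lit 483837), (nat_lit 0), (nat_lit 3372899), (nat_lit 7960769)]) (PF.cons PF.nil PF.nil))))) (PF.cons (PF.cons (PF.leaf (nat_lit 8279129) (nat_lit 1542941) (nat_lit 33871418) (nat_lit 12424342) [(nat_lit 0), (nat_lit 1542941), (nat_lit 3366962), (nat_lit 7951574)])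 (PF.cons (PF.leaf (nat_lit 8551054) (nat_lit 482690) (nat_lit 33535787) (nat_lit 12348827) [(nat_lit 482690), (nat_lit 1547636), (nat_lit 3362935), (nat_lit 7915468)]) (PF.cons (PF.leaf (nat_lit 8829187) (nat_lit 488288) (nat_lit 33195680) (nat_lit 12271278) [(nat_lit 488288), (nat_lit 1551478), (nat_lit 3357975), (nat_lit 7877911)]) (PF.cons PF.nil PF.nil)))) (PF.cons (PF.cons (PF.leaf (nat_lit 8919451) (nat_lit 1548841)
 (nat_lit 32819039) (nat_lit 12181555) [(nat_lit 0), (nat_lit 1548841), (nat_lit 3346823), (nat_lit 7831856)]) (PF.cons PF.nil PF.nil)) PF.nil))) (PF.cons (PF.cons (PF.cons (PF.leaf (nat_lit 8693011) (nat_lit 3330122) (nat_lit 32694068) (nat_lit 12142855) [(nat_lit 0), (nat_lit 0), (nat_lit 3330122), (nat_lit 7805821)]) (PF.cons (PF.leaf (nat_lit 8961158) (nat_lit 482036) (nat_lit 32372983) (nat_lit 12067578) [(nat_lit 482036), (nat_lit 0), (nat_lit 3324494), (nat_lit 7768613)]) (PF.cons PF.nil PF.nil))) (PF.cons (PF.cons (PF.leaf (nat_lit 9319866)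 (nat_lit 1537186) (nat_lit 31690753) (nat_lit 11902152) [(nat_lit 0), (nat_lit 1537186), (nat_lit 3305722), (nat_lit 7683637)]) PF.nil) PF.nil)) (PF.cons PF.nil (PF.cons PF.nil PF.nil))))) (PF.cons (PF.cons (PF.cons (PF.cons (PF.leaf (nat_lit 8240014) (nat_lit 7679809) (nat_lit 32113811) (nat_lit 11955573) [(nat_lit 0), (nat_lit 0), (nat_lit 0), (nat_lit 7679809)]) (PF.cons (PF.leaf (nat_lit 8492058) (nat_lit 457810) (nat_lit 31823256) (nat_lit 11887476) [(nat_lit 457810), (nat_lit 0), (nat_lit 0), (nat_lit 7646756)]) (PF.cons (PF.leaf (nat_lit 8752111) (nat_lit 464606) (nat_lit 31526077) (nat_lit 11817025) [(nat_lit 464606), (nat_lit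
 0), (nat_lit 0), (nat_lit 7612165)]) (PF.cons (PF.leaf (nat_lit 9018103) (nat_lit 470422) (nat_lit 31224216) (nat_lit 11744640) [(nat_lit 470422), (nat_lit 0), (nat_lit 0), (nat_lit 7576229)]) (PF.cons PF.nil PF.nil))))) (PF.cons (PF.cons (PF.leaf (nat_lit 8843727) (nat_lit 1493864) (nat_lit 31180156) (nat_lit 11731558) [(nat_lit 0), (nat_lit 1493864), (nat_lit 0), (nat_lit 7567744)]) (PF.cons (PF.leaf (nat_lit 9103628) (nat_lit 468923) (nat_lit 30886392) (nat_lit 11660251) [(nat_lit 468923), (nat_lit 1497311), (nat_lit 0), (nat_lit 7531978)]) (PF.cons PF.nil (PF.cons PF.nil PF.nil)))) (PF.cons (PF.cons (PF.leaf (nat_lit 9450863) (nat_lit 1496569) (nat_lit 30260879) (nat_lit 11503536) [(nat_lit 0), (nat_lit 1496569), (nat_lit 0), (nat_lit 7450419)]) (PF.cons PF.nil PF.nil)) PF.nil))) (PF.cons (PF.cons (PF.cons (PF.leaf (nat_lit 9228414) (nat_lit 3200968) (nat_lit 30157094) (nat_lit 11469462) [(nat_lit 0), (nat_lit 0), (nat_lit 3200968), (nat_lit 7427095)]) (PF.cons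 (PF.leaf (nat_lit 9484688) (nat_lit 467448) (nat_lit 29875802) (nat_lit 11398879) [(nat_lit 467448), (nat_lit 0), (nat_lit 3194270), (nat_lit 7390804)]) PF.nil)) (PF.cons PF.nil PF.nil)) (PF.cons PF.nil PF.nil)))
 (PF.cons (PF.cons (PF.cons (PF.cons (PF.leaf (nat_lit 9718041) (nat_lit 7073551) (nat_lit 27960461) (nat_lit 10854147) [(nat_lit 0), (nat_lit 0), (nat_lit 0), (nat_lit 7073551)]) (PF.cons PF.nil PF.nil)) (PF.cons PF.nil PF.nil)) (PF.cons PF.nil PF.nil)) (PF.cons PF.nil (PF.cons PF.nil (PF.cons PF.nil PF.nil))))))))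

def p14_14_2_0 : pfC (piC [(nat_lit 38167130), (nat_lit 25010362), (nat_lit 18643303), (nat_lit 12552662)] (nat_lit 6971554)) p14_14_2 (nat_lit 4) (nat_lit 0) (nat_lit 1) = true := by decide +kernel
def p14_14_2_1 : pfC (piC [(nat_lit 38167130), (nat_lit 25010362), (nat_lit 18643303), (nat_lit 12552662)] (nat_lit 6971554)) p14_14_2 (nat_lit 4) (nat_lit 1) (nat_lit 2) = true := by decide +kernel
def p14_14_2_2 : pfC (piC [(nat_lit 38167130), (nat_lit 25010362), (nat_lit 18643303), (nat_lit 12552662)] (nat_lit 6971554)) p14_14_2 (nat_lit 4) (nat_lit 2) (nat_lit 3) = true := by decide +kernel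
def p14_14_2_3 : pfC (piC [(nat_lit 38167130), (nat_lit 25010362), (nat_lit 18643303), (nat_lit 12552662)] (nat_lit 6971554)) p14_14_2 (nat_lit 4) (nat_lit 3) (nat_lit 4) = true := by decide +kernel
def p14_14_2_4 : pfC (piC [(nat_lit 38167130), (nat_lit 25010362), (nat_lit 18643303), (nat_lit 12552662)] (nat_lit 6971554)) p14_14_2 (nat_lit 4) (nat_lit 4) (nat_lit 5) = true := by decide +kernel
def p14_14_2_5 : pfC (piC [(nat_lit 38167130), (nat_lit 25010362), (nat_lit 18643303), (nat_lit 12552662)] (nat_lit 6971554)) p14_14_2 (nat_lit 4) (nat_lit 5) (nat_lit 6) = true := by decide +kernel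
def p14_14_2_6 : pfC (piC [(nat_lit 38167130), (nat_lit 25010362), (nat_lit 18643303), (nat_lit 12552662)] (nat_lit 6971554)) p14_14_2 (nat_lit 4) (nat_lit 6) (nat_lit 7) = true := by decide +kernel
def p14_14_2_7 : pfC (piC [(nat_lit 38167130), (nat_lit 25010362), (nat_lit 18643303), (nat_lit 12552662)] (nat_lit 6971554)) p14_14_2 (nat_lit 4) (nat_lit 7) (nat_lit 8) = true := by decide +kernel
def p14_14_2_8 : pfC (piC [(nat_lit 38167130), (nat_lit 25010362), (nat_lit 18643303), (nat_lit 12552662)] (nat_lit 6971554)) p14_14_2 (nat_lit 4) (nat_lit 8) (nat_lit 9) = true := by decide +kernel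
def p14_14_2_9 : pfC (piC [(nat_lit 38167130), (nat_lit 25010362), (nat_lit 18643303), (nat_lit 12552662)] (nat_lit 6971554)) p14_14_2 (nat_lit 4) (nat_lit 9) (nat_lit 10) = true := by decide +kernel
def p14_14_2_10 : pfC (piC [(nat_lit 38167130), (nat_lit 25010362), (nat_lit 18643303), (nat_lit 12552662)] (nat_lit 6971554)) p14_14_2 (nat_lit 4) (nat_lit 10) (nat_lit 11) = true := by decide +kernel
def p14_14_2_11 : pfC (piC [(nat_lit 38167130), (nat_lit 25010362), (nat_lit 18643303), (nat_lit 12552662)] (nat_lit 6971554)) p14_14_2 (nat_lit 4) (nat_lit 11) (nat_lit 12) = true := by decide +kernel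
def p14_14_2_12 : pfC (piC [(nat_lit 38167130), (nat_lit 25010362), (nat_lit 18643303), (nat_lit 12552662)] (nat_lit 6971554)) p14_14_2 (nat_lit 4) (nat_lit 12) (nat_lit 13) = true := by decide +kernel
def p14_14_2_13 : pfC (piC [(nat_lit 38167130), (nat_lit 25010362), (nat_lit 18643303), (nat_lit 12552662)] (nat_lit 6971554)) p14_14_2 (nat_lit 4) (nat_lit 13) (nat_lit 14) = true := by decide +kernel
def p14_14_2_14 : pfC (piC [(nat_lit 38167130), (nat_lit 25010362), (nat_lit 18643303), (nat_lit 12552662)] (nat_lit 6971554)) p14_14_2 (nat_lit 4) (nat_lit 14) (nat_lit 15) = true := by decide +kernel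
def p14_14_2_15 : pfC (piC [(nat_lit 38167130), (nat_lit 25010362), (nat_lit 18643303), (nat_lit 12552662)] (nat_lit 6971554)) p14_14_2 (nat_lit 4) (nat_lit 15) (nat_lit 16) = true := by decide +kernel
def p14_14_2_16 : pfC (piC [(nat_lit 38167130), (nat_lit 25010362), (nat_lit 18643303), (nat_lit 12552662)] (nat_lit 6971554)) p14_14_2 (nat_lit 4) (nat_lit 16) (nat_lit 17) = true := by decide +kernel
def p14_14_2_17 : pfC (piC [(nat_lit 38167130), (nat_lit 25010362), (nat_lit 18643303), (nat_lit 12552662)] (nat_lit 6971554)) p14_14_2 (nat_lit 4) (nat_lit 17) (nat_lit 18) = true := by decide +kernel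
def p14_14_2_18 : pfC (piC [(nat_lit 38167130), (nat_lit 25010362), (nat_lit 18643303), (nat_lit 12552662)] (nat_lit 6971554)) p14_14_2 (nat_lit 4) (nat_lit 18) (nat_lit 19) = true := by decide +kernel
def p14_14_2_19 : pfC (piC [(nat_lit 38167130), (nat_lit 25010362), (nat_lit 18643303), (nat_lit 12552662)] (nat_lit 6971554)) p14_14_2 (nat_lit 4) (nat_lit 19) (nat_lit 20) = true := by decide +kernel
def p14_14_2_20 : pfC (piC [(nat_lit 38167130), (nat_lit 25010362), (nat_lit 18643303), (nat_lit 12552662)] (nat_lit 6971554)) p14_14_2 (nat_lit 4) (nat_lit 20) (nat_lit 21) = true := by decide +kernel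
def p14_14_2_21 : pfC (piC [(nat_lit 38167130), (nat_lit 25010362), (nat_lit 18643303), (nat_lit 12552662)] (nat_lit 6971554)) p14_14_2 (nat_lit 4) (nat_lit 21) (nat_lit 22) = true := by decide +kernel
def p14_14_2_22 : pfC (piC [(nat_lit 38167130), (nat_lit 25010362), (nat_lit 18643303), (nat_lit 12552662)] (nat_lit 6971554)) p14_14_2 (nat_lit 4) (nat_lit 22) (nat_lit 23) = true := by decide +kernel
def p14_14_2_23 : pfC (piC [(nat_lit 38167130), (nat_lit 25010362), (nat_lit 18643303), (nat_lit 12552662)] (nat_lit 6971554)) p14_14_2 (nat_lit 4) (nat_lit 23) (nat_lit 24) = true := by decide +kernel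
def p14_14_2_24 : pfC (piC [(nat_lit 38167130), (nat_lit 25010362), (nat_lit 18643303), (nat_lit 12552662)] (nat_lit 6971554)) p14_14_2 (nat_lit 4) (nat_lit 24) (nat_lit 25) = true := by decide +kernel
def p14_14_2_25 : pfC (piC [(nat_lit 38167130), (nat_lit 25010362), (nat_lit 18643303), (nat_lit 12552662)] (nat_lit 6971554)) p14_14_2 (nat_lit 4) (nat_lit 25) (nat_lit 26) = true := by decide +kernel
def p14_14_2_26 : pfC (piC [(nat_lit 38167130), (nat_lit 25010362), (nat_lit 18643303), (nat_lit 12552662)] (nat_lit 6971554)) p14_14_2 (nat_lit 4) (nat_lit 26) (nat_lit 27) = true := by decide +kernel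
def p14_14_2_27 : pfC (piC [(nat_lit 38167130), (nat_lit 25010362), (nat_lit 18643303), (nat_lit 12552662)] (nat_lit 6971554)) p14_14_2 (nat_lit 4) (nat_lit 27) (nat_lit 28) = true := by decide +kernel
def p14_14_2_28 : pfC (piC [(nat_lit 38167130), (nat_lit 25010362), (nat_lit 18643303), (nat_lit 12552662)] (nat_lit 6971554)) p14_14_2 (nat_lit 4) (nat_lit 28) (nat_lit 29) = true := by decide +kernel
def p14_14_2_29 : pfC (piC [(nat_lit 38167130), (nat_lit 25010362), (nat_lit 18643303), (nat_lit 12552662)] (nat_lit 6971554)) p14_14_2 (nat_lit 4) (nat_lit 29) (nat_lit 30) = true := by decide +kernel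
def p14_14_2_30 : pfC (piC [(nat_lit 38167130), (nat_lit 25010362), (nat_lit 18643303), (nat_lit 12552662)] (nat_lit 6971554)) p14_14_2 (nat_lit 4) (nat_lit 30) (nat_lit 31) = true := by decide +kernel
def p14_14_2_31 : pfC (piC [(nat_lit 38167130), (nat_lit 25010362), (nat_lit 18643303), (nat_lit 12552662)] (nat_lit 6971554)) p14_14_2 (nat_lit 4) (nat_lit 31) (nat_lit 32) = true := by decide +kernel
def p14_14_2_32 : pfC (piC [(nat_lit 38167130), (nat_lit 25010362), (nat_lit 18643303), (nat_lit 12552662)] (nat_lit 6971554)) p14_14_2 (nat_lit 4) (nat_lit 32) (nat_lit 33) = true := by decide +kernel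
def p14_14_2_33 : pfC (piC [(nat_lit 38167130), (nat_lit 25010362), (nat_lit 18643303), (nat_lit 12552662)] (nat_lit 6971554)) p14_14_2 (nat_lit 4) (nat_lit 33) (nat_lit 34) = true := by decide +kernel
def p14_14_2_34 : pfC (piC [(nat_lit 38167130), (nat_lit 25010362), (nat_lit 18643303), (nat_lit 12552662)] (nat_lit 6971554)) p14_14_2 (nat_lit 4) (nat_lit 34) (nat_lit 35) = true := by decide +kernel
def p14_14_2_35 : pfC (piC [(nat_lit 38167130), (nat_lit 25010362), (nat_lit 18643303), (nat_lit 12552662)] (nat_lit 6971554)) p14_14_2 (nat_lit 4) (nat_lit 35) (nat_lit 36) = true := by decide +kernel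
def p14_14_2_36 : pfC (piC [(nat_lit 38167130), (nat_lit 25010362), (nat_lit 18643303), (nat_lit 12552662)] (nat_lit 6971554)) p14_14_2 (nat_lit 4) (nat_lit 36) (nat_lit 37) = true := by decide +kernel
def p14_14_2_37 : pfC (piC [(nat_lit 38167130), (nat_lit 25010362), (nat_lit 18643303), (nat_lit 12552662)] (nat_lit 6971554)) p14_14_2 (nat_lit 4) (nat_lit 37) (nat_lit 38) = true := by decide +kernel
def p14_14_2_38 : pfC (piC [(nat_lit 38167130), (nat_lit 25010362), (nat_lit 18643303), (nat_lit 12552662)] (nat_lit 6971554)) p14_14_2 (nat_lit 4) (nat_lit 38) (nat_lit 39) = true := by decide +kernel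
def p14_14_2_39 : pfC (piC [(nat_lit 38167130), (nat_lit 25010362), (nat_lit 18643303), (nat_lit 12552662)] (nat_lit 6971554)) p14_14_2 (nat_lit 4) (nat_lit 39) (nat_lit 40) = true := by decide +kernel
def p14_14_2_40 : pfC (piC [(nat_lit 38167130), (nat_lit 25010362), (nat_lit 18643303), (nat_lit 12552662)] (nat_lit 6971554)) p14_14_2 (nat_lit 4) (nat_lit 40) (nat_lit 41) = true := by decide +kernel
def p14_14_2_41 : pfC (piC [(nat_lit 38167130), (nat_lit 25010362), (nat_lit 18643303), (nat_lit 12552662)] (nat_lit 6971554)) p14_14_2 (nat_lit 4) (nat_lit 41) (nat_lit 42) = true := by decide +kernel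
def p14_14_2_42 : pfC (piC [(nat_lit 38167130), (nat_lit 25010362), (nat_lit 18643303), (nat_lit 12552662)] (nat_lit 6971554)) p14_14_2 (nat_lit 4) (nat_lit 42) (nat_lit 43) = true := by decide +kernel
def p14_14_2_43 : pfC (piC [(nat_lit 38167130), (nat_lit 25010362), (nat_lit 18643303), (nat_lit 12552662)] (nat_lit 6971554)) p14_14_2 (nat_lit 4) (nat_lit 43) (nat_lit 44) = true := by decide +kernel
def p14_14_2_44 : pfC (piC [(nat_lit 38167130), (nat_lit 25010362), (nat_lit 18643303), (nat_lit 12552662)] (nat_lit 6971554)) p14_14_2 (nat_lit 4) (nat_lit 44) (nat_lit 45) = true := by decide +kernel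
def p14_14_2_45 : pfC (piC [(nat_lit 38167130), (nat_lit 25010362), (nat_lit 18643303), (nat_lit 12552662)] (nat_lit 6971554)) p14_14_2 (nat_lit 4) (nat_lit 45) (nat_lit 46) = true := by decide +kernel
def p14_14_2_46 : pfC (piC [(nat_lit 38167130), (nat_lit 25010362), (nat_lit 18643303), (nat_lit 12552662)] (nat_lit 6971554)) p14_14_2 (nat_lit 4) (nat_lit 46) (nat_lit 47) = true := by decide +kernel
def p14_14_2_47 : pfC (piC [(nat_lit 38167130), (nat_lit 25010362), (nat_lit 18643303), (nat_lit 12552662)] (nat_lit 6971554)) p14_14_2 (nat_lit 4) (nat_lit 47) (nat_lit 48) = true := by decide +kernel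
def p14_14_2_48 : pfC (piC [(nat_lit 38167130), (nat_lit 25010362), (nat_lit 18643303), (nat_lit 12552662)] (nat_lit 6971554)) p14_14_2 (nat_lit 4) (nat_lit 48) (nat_lit 49) = true := by decide +kernel
def p14_14_2_49 : pfC (piC [(nat_lit 38167130), (nat_lit 25010362), (nat_lit 18643303), (nat_lit 12552662)] (nat_lit 6971554)) p14_14_2 (nat_lit 4) (nat_lit 49) (nat_lit 50) = true := by decide +kernel
def p14_14_2_50 : pfC (piC [(nat_lit 38167130), (nat_lit 25010362), (nat_lit 18643303), (nat_lit 12552662)] (nat_lit 6971554)) p14_14_2 (nat_lit 4) (nat_lit 50) (nat_lit 51) = true := by decide +kernel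
def p14_14_2_51 : pfC (piC [(nat_lit 38167130), (nat_lit 25010362), (nat_lit 18643303), (nat_lit 12552662)] (nat_lit 6971554)) p14_14_2 (nat_lit 4) (nat_lit 51) (nat_lit 52) = true := by decide +kernel
def p14_14_2_52 : pfC (piC [(nat_lit 38167130), (nat_lit 25010362), (nat_lit 18643303), (nat_lit 12552662)] (nat_lit 6971554)) p14_14_2 (nat_lit 4) (nat_lit 52) (nat_lit 53) = true := by decide +kernel
def p14_14_2_53 : pfC (piC [(nat_lit 38167130), (nat_lit 25010362), (nat_lit 18643303), (nat_lit 12552662)] (nat_lit 6971554)) p14_14_2 (nat_lit 4) (nat_lit 53) (nat_lit 54) = true := by decide +kernel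
def p14_14_2_54 : pfC (piC [(nat_lit 38167130), (nat_lit 25010362), (nat_lit 18643303), (nat_lit 12552662)] (nat_lit 6971554)) p14_14_2 (nat_lit 4) (nat_lit 54) (nat_lit 55) = true := by decide +kernel
def p14_14_2_55 : pfC (piC [(nat_lit 38167130), (nat_lit 25010362), (nat_lit 18643303), (nat_lit 12552662)] (nat_lit 6971554)) p14_14_2 (nat_lit 4) (nat_lit 55) (nat_lit 56) = true := by decide +kernel
def p14_14_2_56 : pfC (piC [(nat_lit 38167130), (nat_lit 25010362), (nat_lit 18643303), (nat_lit 12552662)] (nat_lit 6971554)) p14_14_2 (nat_lit 4) (nat_lit 56) (nat_lit 57) = true := by decide +kernel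
def p14_14_2_57 : pfC (piC [(nat_lit 38167130), (nat_lit 25010362), (nat_lit 18643303), (nat_lit 12552662)] (nat_lit 6971554)) p14_14_2 (nat_lit 4) (nat_lit 57) (nat_lit 58) = true := by decide +kernel
def p14_14_2_58 : pfC (piC [(nat_lit 38167130), (nat_lit 25010362), (nat_lit 18643303), (nat_lit 12552662)] (nat_lit 6971554)) p14_14_2 (nat_lit 4) (nat_lit 58) (nat_lit 59) = true := by decide +kernel
def p14_14_2_59 : pfC (piC [(nat_lit 38167130), (nat_lit 25010362), (nat_lit 18643303), (nat_lit 12552662)] (nat_lit 6971554)) p14_14_2 (nat_lit 4) (nat_lit 59) (nat_lit 60) = true := by decide +kernel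
def p14_14_2_60 : pfC (piC [(nat_lit 38167130), (nat_lit 25010362), (nat_lit 18643303), (nat_lit 12552662)] (nat_lit 6971554)) p14_14_2 (nat_lit 4) (nat_lit 60) (nat_lit 61) = true := by decide +kernel
def p14_14_2_61 : pfC (piC [(nat_lit 38167130), (nat_lit 25010362), (nat_lit 18643303), (nat_lit 12552662)] (nat_lit 6971554)) p14_14_2 (nat_lit 4) (nat_lit 61) (nat_lit 62) = true := by decide +kernel
def p14_14_2_62 : pfC (piC [(nat_lit 38167130), (nat_lit 25010362), (nat_lit 18643303), (nat_lit 12552662)] (nat_lit 6971554)) p14_14_2 (nat_lit 4) (nat_lit 62) (nat_lit 63) = true := by decide +kernel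
def p14_14_2_63 : pfC (piC [(nat_lit 38167130), (nat_lit 25010362), (nat_lit 18643303), (nat_lit 12552662)] (nat_lit 6971554)) p14_14_2 (nat_lit 4) (nat_lit 63) (nat_lit 64) = true := by decide +kernel
def p14_14_2_64 : pfC (piC [(nat_lit 38167130), (nat_lit 25010362), (nat_lit 18643303), (nat_lit 12552662)] (nat_lit 6971554)) p14_14_2 (nat_lit 4) (nat_lit 64) (nat_lit 65) = true := by decide +kernel
def p14_14_2_65 : pfC (piC [(nat_lit 38167130), (nat_lit 25010362), (nat_lit 18643303), (nat_lit 12552662)] (nat_lit 6971554)) p14_14_2 (nat_lit 4) (nat_lit 65) (nat_lit 66) = true := by decide +kernel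
def p14_14_2_66 : pfC (piC [(nat_lit 38167130), (nat_lit 25010362), (nat_lit 18643303), (nat_lit 12552662)] (nat_lit 6971554)) p14_14_2 (nat_lit 4) (nat_lit 66) (nat_lit 67) = true := by decide +kernel
def p14_14_2_67 : pfC (piC [(nat_lit 38167130), (nat_lit 25010362), (nat_lit 18643303), (nat_lit 12552662)] (nat_lit 6971554)) p14_14_2 (nat_lit 4) (nat_lit 67) (nat_lit 68) = true := by decide +kernel
def p14_14_2_68 : pfC (piC [(nat_lit 38167130), (nat_lit 25010362), (nat_lit 18643303), (nat_lit 12552662)] (nat_lit 6971554)) p14_14_2 (nat_lit 4) (nat_lit 68) (nat_lit 69) = true := by decide +kernel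
def p14_14_2_69 : pfC (piC [(nat_lit 38167130), (nat_lit 25010362), (nat_lit 18643303), (nat_lit 12552662)] (nat_lit 6971554)) p14_14_2 (nat_lit 4) (nat_lit 69) (nat_lit 70) = true := by decide +kernel
def p14_14_2_70 : pfC (piC [(nat_lit 38167130), (nat_lit 25010362), (nat_lit 18643303), (nat_lit 12552662)] (nat_lit 6971554)) p14_14_2 (nat_lit 4) (nat_lit 70) (nat_lit 71) = true := by decide +kernel
def p14_14_2_71 : pfC (piC [(nat_lit 38167130), (nat_lit 25010362), (nat_lit 18643303), (nat_lit 12552662)] (nat_lit 6971554)) p14_14_2 (nat_lit 4) (nat_lit 71) (nat_lit 72) = true := by decide +kernel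
def p14_14_2_72 : pfC (piC [(nat_lit 38167130), (nat_lit 25010362), (nat_lit 18643303), (nat_lit 12552662)] (nat_lit 6971554)) p14_14_2 (nat_lit 4) (nat_lit 72) (nat_lit 73) = true := by decide +kernel
def p14_14_2_73 : pfC (piC [(nat_lit 38167130), (nat_lit 25010362), (nat_lit 18643303), (nat_lit 12552662)] (nat_lit 6971554)) p14_14_2 (nat_lit 4) (nat_lit 73) (nat_lit 74) = true := by decide +kernel
def p14_14_2_74 : pfC (piC [(nat_lit 38167130), (nat_lit 25010362), (nat_lit 18643303), (nat_lit 12552662)] (nat_lit 6971554)) p14_14_2 (nat_lit 4) (nat_lit 74) (nat_lit 75) = true := by decide +kernel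
def p14_14_2_75 : pfC (piC [(nat_lit 38167130), (nat_lit 25010362), (nat_lit 18643303), (nat_lit 12552662)] (nat_lit 6971554)) p14_14_2 (nat_lit 4) (nat_lit 75) (nat_lit 76) = true := by decide +kernel
def p14_14_2_76 : pfC (piC [(nat_lit 38167130), (nat_lit 25010362), (nat_lit 18643303), (nat_lit 12552662)] (nat_lit 6971554)) p14_14_2 (nat_lit 4) (nat_lit 76) (nat_lit 77) = true := by decide +kernel
def p14_14_2_77 : pfC (piC [(nat_lit 38167130), (nat_lit 25010362), (nat_lit 18643303), (nat_lit 12552662)] (nat_lit 6971554)) p14_14_2 (nat_lit 4) (nat_lit 77) (nat_lit 78) = true := by decide +kernel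
def p14_14_2_78 : pfC (piC [(nat_lit 38167130), (nat_lit 25010362), (nat_lit 18643303), (nat_lit 12552662)] (nat_lit 6971554)) p14_14_2 (nat_lit 4) (nat_lit 78) (nat_lit 79) = true := by decide +kernel
def p14_14_2_79 : pfC (piC [(nat_lit 38167130), (nat_lit 25010362), (nat_lit 18643303), (nat_lit 12552662)] (nat_lit 6971554)) p14_14_2 (nat_lit 4) (nat_lit 79) (nat_lit 80) = true := by decide +kernel
def p14_14_2_80 : pfC (piC [(nat_lit 38167130), (nat_lit 25010362), (nat_lit 18643303), (nat_lit 12552662)] (nat_lit 6971554)) p14_14_2 (nat_lit 4) (nat_lit 80) (nat_lit 81) = true := by decide +kernel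
def p14_14_2_81 : pfC (piC [(nat_lit 38167130), (nat_lit 25010362), (nat_lit 18643303), (nat_lit 12552662)] (nat_lit 6971554)) p14_14_2 (nat_lit 4) (nat_lit 81) (nat_lit 82) = true := by decide +kernel
def p14_14_2_82 : pfC (piC [(nat_lit 38167130), (nat_lit 25010362), (nat_lit 18643303), (nat_lit 12552662)] (nat_lit 6971554)) p14_14_2 (nat_lit 4) (nat_lit 82) (nat_lit 83) = true := by decide +kernel
def p14_14_2_83 : pfC (piC [(nat_lit 38167130), (nat_lit 25010362), (nat_lit 18643303), (nat_lit 12552662)] (nat_lit 6971554)) p14_14_2 (nat_lit 4) (nat_lit 83) (nat_lit 84) = true := by decide +kernel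
def p14_14_2_84 : pfC (piC [(nat_lit 38167130), (nat_lit 25010362), (nat_lit 18643303), (nat_lit 12552662)] (nat_lit 6971554)) p14_14_2 (nat_lit 4) (nat_lit 84) (nat_lit 85) = true := by decide +kernel
def p14_14_2_85 : pfC (piC [(nat_lit 38167130), (nat_lit 25010362), (nat_lit 18643303), (nat_lit 12552662)] (nat_lit 6971554)) p14_14_2 (nat_lit 4) (nat_lit 85) (nat_lit 86) = true := by decide +kernel
def p14_14_2_86 : pfC (piC [(nat_lit 38167130), (nat_lit 25010362), (nat_lit 18643303), (nat_lit 12552662)] (nat_lit 6971554)) p14_14_2 (nat_lit 4) (nat_lit 86) (nat_lit 87) = true := by decide +kernel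
def p14_14_2_87 : pfC (piC [(nat_lit 38167130), (nat_lit 25010362), (nat_lit 18643303), (nat_lit 12552662)] (nat_lit 6971554)) p14_14_2 (nat_lit 4) (nat_lit 87) (nat_lit 88) = true := by decide +kernel
def p14_14_2_88 : pfC (piC [(nat_lit 38167130), (nat_lit 25010362), (nat_lit 18643303), (nat_lit 12552662)] (nat_lit 6971554)) p14_14_2 (nat_lit 4) (nat_lit 88) (nat_lit 89) = true := by decide +kernel
def p14_14_2_89 : pfC (piC [(nat_lit 38167130), (nat_lit 25010362), (nat_lit 18643303), (nat_lit 12552662)] (nat_lit 6971554)) p14_14_2 (nat_lit 4) (nat_lit 89) (nat_lit 90) = true := by decide +kernel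
def p14_14_2_90 : pfC (piC [(nat_lit 38167130), (nat_lit 25010362), (nat_lit 18643303), (nat_lit 12552662)] (nat_lit 6971554)) p14_14_2 (nat_lit 4) (nat_lit 90) (nat_lit 91) = true := by decide +kernel
def p14_14_2_91 : pfC (piC [(nat_lit 38167130), (nat_lit 25010362), (nat_lit 18643303), (nat_lit 12552662)] (nat_lit 6971554)) p14_14_2 (nat_lit 4) (nat_lit 91) (nat_lit 92) = true := by decide +kernel
def p14_14_2_92 : pfC (piC [(nat_lit 38167130), (nat_lit 25010362), (nat_lit 18643303), (nat_lit 12552662)] (nat_lit 6971554)) p14_14_2 (nat_lit 4) (nat_lit 92) (nat_lit 93) = true := by decide +kernel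
def p14_14_2_93 : pfC (piC [(nat_lit 38167130), (nat_lit 25010362), (nat_lit 18643303), (nat_lit 12552662)] (nat_lit 6971554)) p14_14_2 (nat_lit 4) (nat_lit 93) (nat_lit 94) = true := by decide +kernel
def p14_14_2_94 : pfC (piC [(nat_lit 38167130), (nat_lit 25010362), (nat_lit 18643303), (nat_lit 12552662)] (nat_lit 6971554)) p14_14_2 (nat_lit 4) (nat_lit 94) (nat_lit 95) = true := by decide +kernel
def p14_14_2_95 : pfC (piC [(nat_lit 38167130), (nat_lit 25010362), (nat_lit 18643303), (nat_lit 12552662)] (nat_lit 6971554)) p14_14_2 (nat_lit 4) (nat_lit 95) (nat_lit 96) = true := by decide +kernel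
def p14_14_2_96 : pfC (piC [(nat_lit 38167130), (nat_lit 25010362), (nat_lit 18643303), (nat_lit 12552662)] (nat_lit 6971554)) p14_14_2 (nat_lit 4) (nat_lit 96) (nat_lit 97) = true := by decide +kernel
def p14_14_2_97 : pfC (piC [(nat_lit 38167130), (nat_lit 25010362), (nat_lit 18643303), (nat_lit 12552662)] (nat_lit 6971554)) p14_14_2 (nat_lit 4) (nat_lit 97) (nat_lit 98) = true := by decide +kernel
def p14_14_2_98 : pfC (piC [(nat_lit 38167130), (nat_lit 25010362), (nat_lit 18643303), (nat_lit 12552662)] (nat_lit 6971554)) p14_14_2 (nat_lit 4) (nat_lit 98) (nat_lit 99) = true := by decide +kernel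
def p14_14_2_99 : pfC (piC [(nat_lit 38167130), (nat_lit 25010362), (nat_lit 18643303), (nat_lit 12552662)] (nat_lit 6971554)) p14_14_2 (nat_lit 4) (nat_lit 99) (nat_lit 100) = true := by decide +kernel
def p14_14_2_100 : pfC (piC [(nat_lit 38167130), (nat_lit 25010362), (nat_lit 18643303), (nat_lit 12552662)] (nat_lit 6971554)) p14_14_2 (nat_lit 4) (nat_lit 100) (nat_lit 101) = true := by decide +kernel
def p14_14_2_101 : pfC (piC [(nat_lit 38167130), (nat_lit 25010362), (nat_lit 18643303), (nat_lit 12552662)] (nat_lit 6971554)) p14_14_2 (nat_lit 4) (nat_lit 101) (nat_lit 102) = true := by decide +kernel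
def p14_14_2_102 : pfC (piC [(nat_lit 38167130), (nat_lit 25010362), (nat_lit 18643303), (nat_lit 12552662)] (nat_lit 6971554)) p14_14_2 (nat_lit 4) (nat_lit 102) (nat_lit 103) = true := by decide +kernel
def p14_14_2_103 : pfC (piC [(nat_lit 38167130), (nat_lit 25010362), (nat_lit 18643303), (nat_lit 12552662)] (nat_lit 6971554)) p14_14_2 (nat_lit 4) (nat_lit 103) (nat_lit 104) = true := by decide +kernel
def p14_14_2_104 : pfC (piC [(nat_lit 38167130), (nat_lit 25010362), (nat_lit 18643303), (nat_lit 12552662)] (nat_lit 6971554)) p14_14_2 (nat_lit 4) (nat_lit 104) (nat_lit 105) = true := by decide +kernel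
def p14_14_2_105 : pfC (piC [(nat_lit 38167130), (nat_lit 25010362), (nat_lit 18643303), (nat_lit 12552662)] (nat_lit 6971554)) p14_14_2 (nat_lit 4) (nat_lit 105) (nat_lit 106) = true := by decide +kernel
def p14_14_2_106 : pfC (piC [(nat_lit 38167130), (nat_lit 25010362), (nat_lit 18643303), (nat_lit 12552662)] (nat_lit 6971554)) p14_14_2 (nat_lit 4) (nat_lit 106) (nat_lit 107) = true := by decide +kernel
def p14_14_2_107 : pfC (piC [(nat_lit 38167130), (nat_lit 25010362), (nat_lit 18643303), (nat_lit 12552662)] (nat_lit 6971554)) p14_14_2 (nat_lit 4) (nat_lit 107) (nat_lit 108) = true := by decide +kernel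
def p14_14_2_108 : pfC (piC [(nat_lit 38167130), (nat_lit 25010362), (nat_lit 18643303), (nat_lit 12552662)] (nat_lit 6971554)) p14_14_2 (nat_lit 4) (nat_lit 108) (nat_lit 109) = true := by decide +kernel
def p14_14_2_109 : pfC (piC [(nat_lit 38167130), (nat_lit 25010362), (nat_lit 18643303), (nat_lit 12552662)] (nat_lit 6971554)) p14_14_2 (nat_lit 4) (nat_lit 109) (nat_lit 110) = true := by decide +kernel
def p14_14_2_110 : pfC (piC [(nat_lit 38167130), (nat_lit 25010362), (nat_lit 18643303), (nat_lit 12552662)] (nat_lit 6971554)) p14_14_2 (nat_lit 4) (nat_lit 110) (nat_lit 111) = true := by decide +kernel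
def p14_14_2_111 : pfC (piC [(nat_lit 38167130), (nat_lit 25010362), (nat_lit 18643303), (nat_lit 12552662)] (nat_lit 6971554)) p14_14_2 (nat_lit 4) (nat_lit 111) (nat_lit 112) = true := by decide +kernel
def p14_14_2_112 : pfC (piC [(nat_lit 38167130), (nat_lit 25010362), (nat_lit 18643303), (nat_lit 12552662)] (nat_lit 6971554)) p14_14_2 (nat_lit 4) (nat_lit 112) (nat_lit 113) = true := by decide +kernel
def p14_14_2_113 : pfC (piC [(nat_lit 38167130), (nat_lit 25010362), (nat_lit 18643303), (nat_lit 12552662)] (nat_lit 6971554)) p14_14_2 (nat_lit 4) (nat_lit 113) (nat_lit 114) = true := by decide +kernel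
def p14_14_2_114 : pfC (piC [(nat_lit 38167130), (nat_lit 25010362), (nat_lit 18643303), (nat_lit 12552662)] (nat_lit 6971554)) p14_14_2 (nat_lit 4) (nat_lit 114) (nat_lit 115) = true := by decide +kernel
def p14_14_2_115 : pfC (piC [(nat_lit 38167130), (nat_lit 25010362), (nat_lit 18643303), (nat_lit 12552662)] (nat_lit 6971554)) p14_14_2 (nat_lit 4) (nat_lit 115) (nat_lit 116) = true := by decide +kernel
def p14_14_2_116 : pfC (piC [(nat_lit 38167130), (nat_lit 25010362), (nat_lit 18643303), (nat_lit 12552662)] (nat_lit 6971554)) p14_14_2 (nat_lit 4) (nat_lit 116) (nat_lit 117) = true := by decide +kernel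
def p14_14_2_117 : pfC (piC [(nat_lit 38167130), (nat_lit 25010362), (nat_lit 18643303), (nat_lit 12552662)] (nat_lit 6971554)) p14_14_2 (nat_lit 4) (nat_lit 117) (nat_lit 118) = true := by decide +kernel
def p14_14_2_118 : pfC (piC [(nat_lit 38167130), (nat_lit 25010362), (nat_lit 18643303), (nat_lit 12552662)] (nat_lit 6971554)) p14_14_2 (nat_lit 4) (nat_lit 118) (nat_lit 119) = true := by decide +kernel
def p14_14_2_119 : pfC (piC [(nat_lit 38167130), (nat_lit 25010362), (nat_lit 18643303), (nat_lit 12552662)] (nat_lit 6971554)) p14_14_2 (nat_lit 4) (nat_lit 119) (nat_lit 120) = true := by decide +kernel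
def p14_14_2_120 : pfC (piC [(nat_lit 38167130), (nat_lit 25010362), (nat_lit 18643303), (nat_lit 12552662)] (nat_lit 6971554)) p14_14_2 (nat_lit 4) (nat_lit 120) (nat_lit 121) = true := by decide +kernel
def p14_14_2_121 : pfC (piC [(nat_lit 38167130), (nat_lit 25010362), (nat_lit 18643303), (nat_lit 12552662)] (nat_lit 6971554)) p14_14_2 (nat_lit 4) (nat_lit 121) (nat_lit 122) = true := by decide +kernel
def p14_14_2_122 : pfC (piC [(nat_lit 38167130), (nat_lit 25010362), (nat_lit 18643303), (nat_lit 12552662)] (nat_lit 6971554)) p14_14_2 (nat_lit 4) (nat_lit 122) (nat_lit 123) = true := by decide +kernel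
def p14_14_2_123 : pfC (piC [(nat_lit 38167130), (nat_lit 25010362), (nat_lit 18643303), (nat_lit 12552662)] (nat_lit 6971554)) p14_14_2 (nat_lit 4) (nat_lit 123) (nat_lit 124) = true := by decide +kernel
def p14_14_2_124 : pfC (piC [(nat_lit 38167130), (nat_lit 25010362), (nat_lit 18643303), (nat_lit 12552662)] (nat_lit 6971554)) p14_14_2 (nat_lit 4) (nat_lit 124) (nat_lit 125) = true := by decide +kernel
def p14_14_2_125 : pfC (piC [(nat_lit 38167130), (nat_lit 25010362), (nat_lit 18643303), (nat_lit 12552662)] (nat_lit 6971554)) p14_14_2 (nat_lit 4) (nat_lit 125) (nat_lit 126) = true := by decide +kernel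
def p14_14_2_126 : pfC (piC [(nat_lit 38167130), (nat_lit 25010362), (nat_lit 18643303), (nat_lit 12552662)] (nat_lit 6971554)) p14_14_2 (nat_lit 4) (nat_lit 126) (nat_lit 127) = true := by decide +kernel
def p14_14_2_127 : pfC (piC [(nat_lit 38167130), (nat_lit 25010362), (nat_lit 18643303), (nat_lit 12552662)] (nat_lit 6971554)) p14_14_2 (nat_lit 4) (nat_lit 127) (nat_lit 128) = true := by decide +kernel
def p14_14_2_128 : pfC (piC [(nat_lit 38167130), (nat_lit 25010362), (nat_lit 18643303), (nat_lit 12552662)] (nat_lit 6971554)) p14_14_2 (nat_lit 4) (nat_lit 128) (nat_lit 129) = true := by decide +kernel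
def p14_14_2_129 : pfC (piC [(nat_lit 38167130), (nat_lit 25010362), (nat_lit 18643303), (nat_lit 12552662)] (nat_lit 6971554)) p14_14_2 (nat_lit 4) (nat_lit 129) (nat_lit 130) = true := by decide +kernel
def p14_14_2_130 : pfC (piC [(nat_lit 38167130), (nat_lit 25010362), (nat_lit 18643303), (nat_lit 12552662)] (nat_lit 6971554)) p14_14_2 (nat_lit 4) (nat_lit 130) (nat_lit 131) = true := by decide +kernel
def p14_14_2_131 : pfC (piC [(nat_lit 38167130), (nat_lit 25010362), (nat_lit 18643303), (nat_lit 12552662)] (nat_lit 6971554)) p14_14_2 (nat_lit 4) (nat_lit 131) (nat_lit 132) = true := by decide +kernel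
def p14_14_2_132 : pfC (piC [(nat_lit 38167130), (nat_lit 25010362), (nat_lit 18643303), (nat_lit 12552662)] (nat_lit 6971554)) p14_14_2 (nat_lit 4) (nat_lit 132) (nat_lit 133) = true := by decide +kernel
def p14_14_2_133 : pfC (piC [(nat_lit 38167130), (nat_lit 25010362), (nat_lit 18643303), (nat_lit 12552662)] (nat_lit 6971554)) p14_14_2 (nat_lit 4) (nat_lit 133) (nat_lit 134) = true := by decide +kernel
def p14_14_2_134 : pfC (piC [(nat_lit 38167130), (nat_lit 25010362), (nat_lit 18643303), (nat_lit 12552662)] (nat_lit 6971554)) p14_14_2 (nat_lit 4) (nat_lit 134) (nat_lit 135) = true := by decide +kernel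
def p14_14_2_135 : pfC (piC [(nat_lit 38167130), (nat_lit 25010362), (nat_lit 18643303), (nat_lit 12552662)] (nat_lit 6971554)) p14_14_2 (nat_lit 4) (nat_lit 135) (nat_lit 136) = true := by decide +kernel
def p14_14_2_136 : pfC (piC [(nat_lit 38167130), (nat_lit 25010362), (nat_lit 18643303), (nat_lit 12552662)] (nat_lit 6971554)) p14_14_2 (nat_lit 4) (nat_lit 136) (nat_lit 137) = true := by decide +kernel
def p14_14_2_137 : pfC (piC [(nat_lit 38167130), (nat_lit 25010362), (nat_lit 18643303), (nat_lit 12552662)] (nat_lit 6971554)) p14_14_2 (nat_lit 4) (nat_lit 137) (nat_lit 138) = true := by decide +kernel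
def p14_14_2_138 : pfC (piC [(nat_lit 38167130), (nat_lit 25010362), (nat_lit 18643303), (nat_lit 12552662)] (nat_lit 6971554)) p14_14_2 (nat_lit 4) (nat_lit 138) (nat_lit 139) = true := by decide +kernel
def p14_14_2_139 : pfC (piC [(nat_lit 38167130), (nat_lit 25010362), (nat_lit 18643303), (nat_lit 12552662)] (nat_lit 6971554)) p14_14_2 (nat_lit 4) (nat_lit 139) (nat_lit 140) = true := by decide +kernel
def p14_14_2_140 : pfC (piC [(nat_lit 38167130), (nat_lit 25010362), (nat_lit 18643303), (nat_lit 12552662)] (nat_lit 6971554)) p14_14_2 (nat_lit 4) (nat_lit 140) (nat_lit 141) = true := by decide +kernel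
def p14_14_2_141 : pfC (piC [(nat_lit 38167130), (nat_lit 25010362), (nat_lit 18643303), (nat_lit 12552662)] (nat_lit 6971554)) p14_14_2 (nat_lit 4) (nat_lit 141) (nat_lit 142) = true := by decide +kernel
def p14_14_2_142 : pfC (piC [(nat_lit 38167130), (nat_lit 25010362), (nat_lit 18643303), (nat_lit 12552662)] (nat_lit 6971554)) p14_14_2 (nat_lit 4) (nat_lit 142) (nat_lit 143) = true := by decide +kernel
def p14_14_2_143 : pfC (piC [(nat_lit 38167130), (nat_lit 25010362), (nat_lit 18643303), (nat_lit 12552662)] (nat_lit 6971554)) p14_14_2 (nat_lit 4) (nat_lit 143) (nat_lit 144) = true := by decide +kernel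
def p14_14_2_144 : pfC (piC [(nat_lit 38167130), (nat_lit 25010362), (nat_lit 18643303), (nat_lit 12552662)] (nat_lit 6971554)) p14_14_2 (nat_lit 4) (nat_lit 144) (nat_lit 145) = true := by decide +kernel
def p14_14_2_145 : pfC (piC [(nat_lit 38167130), (nat_lit 25010362), (nat_lit 18643303), (nat_lit 12552662)] (nat_lit 6971554)) p14_14_2 (nat_lit 4) (nat_lit 145) (nat_lit 146) = true := by decide +kernel
def p14_14_2_146 : pfC (piC [(nat_lit 38167130), (nat_lit 25010362), (nat_lit 18643303), (nat_lit 12552662)] (nat_lit 6971554)) p14_14_2 (nat_lit 4) (nat_lit 146) (nat_lit 147) = true := by decide +kernel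
def p14_14_2_147 : pfC (piC [(nat_lit 38167130), (nat_lit 25010362), (nat_lit 18643303), (nat_lit 12552662)] (nat_lit 6971554)) p14_14_2 (nat_lit 4) (nat_lit 147) (nat_lit 148) = true := by decide +kernel
def p14_14_2_148 : pfC (piC [(nat_lit 38167130), (nat_lit 25010362), (nat_lit 18643303), (nat_lit 12552662)] (nat_lit 6971554)) p14_14_2 (nat_lit 4) (nat_lit 148) (nat_lit 149) = true := by decide +kernel
def p14_14_2_149 : pfC (piC [(nat_lit 38167130), (nat_lit 25010362), (nat_lit 18643303), (nat_lit 12552662)] (nat_lit 6971554)) p14_14_2 (nat_lit 4) (nat_lit 149) (nat_lit 150) = true := by decide +kernel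
def p14_14_2_150 : pfC (piC [(nat_lit 38167130), (nat_lit 25010362), (nat_lit 18643303), (nat_lit 12552662)] (nat_lit 6971554)) p14_14_2 (nat_lit 4) (nat_lit 150) (nat_lit 151) = true := by decide +kernel
def p14_14_2_151 : pfC (piC [(nat_lit 38167130), (nat_lit 25010362), (nat_lit 18643303), (nat_lit 12552662)] (nat_lit 6971554)) p14_14_2 (nat_lit 4) (nat_lit 151) (nat_lit 152) = true := by decide +kernel
def p14_14_2_152 : pfC (piC [(nat_lit 38167130), (nat_lit 25010362), (nat_lit 18643303), (nat_lit 12552662)] (nat_lit 6971554)) p14_14_2 (nat_lit 4) (nat_lit 152) (nat_lit 153) = true := by decide +kernel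
def p14_14_2_153 : pfC (piC [(nat_lit 38167130), (nat_lit 25010362), (nat_lit 18643303), (nat_lit 12552662)] (nat_lit 6971554)) p14_14_2 (nat_lit 4) (nat_lit 153) (nat_lit 154) = true := by decide +kernel
def p14_14_2_154 : pfC (piC [(nat_lit 38167130), (nat_lit 25010362), (nat_lit 18643303), (nat_lit 12552662)] (nat_lit 6971554)) p14_14_2 (nat_lit 4) (nat_lit 154) (nat_lit 155) = true := by decide +kernel
def p14_14_2_155 : pfC (piC [(nat_lit 38167130), (nat_lit 25010362), (nat_lit 18643303), (nat_lit 12552662)] (nat_lit 6971554)) p14_14_2 (nat_lit 4) (nat_lit 155) (nat_lit 156) = true := by decide +kernel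
def p14_14_2_156 : pfC (piC [(nat_lit 38167130), (nat_lit 25010362), (nat_lit 18643303), (nat_lit 12552662)] (nat_lit 6971554)) p14_14_2 (nat_lit 4) (nat_lit 156) (nat_lit 157) = true := by decide +kernel
def p14_14_2_157 : pfC (piC [(nat_lit 38167130), (nat_lit 25010362), (nat_lit 18643303), (nat_lit 12552662)] (nat_lit 6971554)) p14_14_2 (nat_lit 4) (nat_lit 157) (nat_lit 158) = true := by decide +kernel
def p14_14_2_158 : pfC (piC [(nat_lit 38167130), (nat_lit 25010362), (nat_lit 18643303), (nat_lit 12552662)] (nat_lit 6971554)) p14_14_2 (nat_lit 4) (nat_lit 158) (nat_lit 159) = true := by decide +kernel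
def p14_14_2_159 : pfC (piC [(nat_lit 38167130), (nat_lit 25010362), (nat_lit 18643303), (nat_lit 12552662)] (nat_lit 6971554)) p14_14_2 (nat_lit 4) (nat_lit 159) (nat_lit 160) = true := by decide +kernel
def p14_14_2_160 : pfC (piC [(nat_lit 38167130), (nat_lit 25010362), (nat_lit 18643303), (nat_lit 12552662)] (nat_lit 6971554)) p14_14_2 (nat_lit 4) (nat_lit 160) (nat_lit 161) = true := by decide +kernel
def p14_14_2_161 : pfC (piC [(nat_lit 38167130), (nat_lit 25010362), (nat_lit 18643303), (nat_lit 12552662)] (nat_lit 6971554)) p14_14_2 (nat_lit 4) (nat_lit 161) (nat_lit 162) = true := by decide +kernel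
def p14_14_2_162 : pfC (piC [(nat_lit 38167130), (nat_lit 25010362), (nat_lit 18643303), (nat_lit 12552662)] (nat_lit 6971554)) p14_14_2 (nat_lit 4) (nat_lit 162) (nat_lit 163) = true := by decide +kernel
def p14_14_2_163 : pfC (piC [(nat_lit 38167130), (nat_lit 25010362), (nat_lit 18643303), (nat_lit 12552662)] (nat_lit 6971554)) p14_14_2 (nat_lit 4) (nat_lit 163) (nat_lit 164) = true := by decide +kernel
def p14_14_2_164 : pfC (piC [(nat_lit 38167130), (nat_lit 25010362), (nat_lit 18643303), (nat_lit 12552662)] (nat_lit 6971554)) p14_14_2 (nat_lit 4) (nat_lit 164) (nat_lit 165) = true := by decide +kernel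
def p14_14_2_165 : pfC (piC [(nat_lit 38167130), (nat_lit 25010362), (nat_lit 18643303), (nat_lit 12552662)] (nat_lit 6971554)) p14_14_2 (nat_lit 4) (nat_lit 165) (nat_lit 166) = true := by decide +kernel
def p14_14_2_166 : pfC (piC [(nat_lit 38167130), (nat_lit 25010362), (nat_lit 18643303), (nat_lit 12552662)] (nat_lit 6971554)) p14_14_2 (nat_lit 4) (nat_lit 166) (nat_lit 167) = true := by decide +kernel
def p14_14_2_167 : pfC (piC [(nat_lit 38167130), (nat_lit 25010362), (nat_lit 18643303), (nat_lit 12552662)] (nat_lit 6971554)) p14_14_2 (nat_lit 4) (nat_lit 167) (nat_lit 168) = true := by decide +kernel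
def p14_14_2_168 : pfC (piC [(nat_lit 38167130), (nat_lit 25010362), (nat_lit 18643303), (nat_lit 12552662)] (nat_lit 6971554)) p14_14_2 (nat_lit 4) (nat_lit 168) (nat_lit 169) = true := by decide +kernel
def p14_14_2_169 : pfC (piC [(nat_lit 38167130), (nat_lit 25010362), (nat_lit 18643303), (nat_lit 12552662)] (nat_lit 6971554)) p14_14_2 (nat_lit 4) (nat_lit 169) (nat_lit 170) = true := by decide +kernel
def p14_14_2_170 : pfC (piC [(nat_lit 38167130), (nat_lit 25010362), (nat_lit 18643303), (nat_lit 12552662)] (nat_lit 6971554)) p14_14_2 (nat_lit 4) (nat_lit 170) (nat_lit 171) = true := by decide +kernel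
def p14_14_2_171 : pfC (piC [(nat_lit 38167130), (nat_lit 25010362), (nat_lit 18643303), (nat_lit 12552662)] (nat_lit 6971554)) p14_14_2 (nat_lit 4) (nat_lit 171) (nat_lit 172) = true := by decide +kernel
def p14_14_2_172 : pfC (piC [(nat_lit 38167130), (nat_lit 25010362), (nat_lit 18643303), (nat_lit 12552662)] (nat_lit 6971554)) p14_14_2 (nat_lit 4) (nat_lit 172) (nat_lit 173) = true := by decide +kernel
def p14_14_2_173 : pfC (piC [(nat_lit 38167130), (nat_lit 25010362), (nat_lit 18643303), (nat_lit 12552662)] (nat_lit 6971554)) p14_14_2 (nat_lit 4) (nat_lit 173) (nat_lit 174) = true := by decide +kernel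
def p14_14_2_174 : pfC (piC [(nat_lit 38167130), (nat_lit 25010362), (nat_lit 18643303), (nat_lit 12552662)] (nat_lit 6971554)) p14_14_2 (nat_lit 4) (nat_lit 174) (nat_lit 175) = true := by decide +kernel
def p14_14_2_175 : pfC (piC [(nat_lit 38167130), (nat_lit 25010362), (nat_lit 18643303), (nat_lit 12552662)] (nat_lit 6971554)) p14_14_2 (nat_lit 4) (nat_lit 175) (nat_lit 176) = true := by decide +kernel
def p14_14_2_176 : pfC (piC [(nat_lit 38167130), (nat_lit 25010362), (nat_lit 18643303), (nat_lit 12552662)] (nat_lit 6971554)) p14_14_2 (nat_lit 4) (nat_lit 176) (nat_lit 177) = true := by decide +kernel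
def p14_14_2_177 : pfC (piC [(nat_lit 38167130), (nat_lit 25010362), (nat_lit 18643303), (nat_lit 12552662)] (nat_lit 6971554)) p14_14_2 (nat_lit 4) (nat_lit 177) (nat_lit 178) = true := by decide +kernel
def p14_14_2_178 : pfC (piC [(nat_lit 38167130), (nat_lit 25010362), (nat_lit 18643303), (nat_lit 12552662)] (nat_lit 6971554)) p14_14_2 (nat_lit 4) (nat_lit 178) (nat_lit 179) = true := by decide +kernel
def p14_14_2_179 : pfC (piC [(nat_lit 38167130), (nat_lit 25010362), (nat_lit 18643303), (nat_lit 12552662)] (nat_lit 6971554)) p14_14_2 (nat_lit 4) (nat_lit 179) (nat_lit 180) = true := by decide +kernel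
def p14_14_2_180 : pfC (piC [(nat_lit 38167130), (nat_lit 25010362), (nat_lit 18643303), (nat_lit 12552662)] (nat_lit 6971554)) p14_14_2 (nat_lit 4) (nat_lit 180) (nat_lit 181) = true := by decide +kernel
def p14_14_2_181 : pfC (piC [(nat_lit 38167130), (nat_lit 25010362), (nat_lit 18643303), (nat_lit 12552662)] (nat_lit 6971554)) p14_14_2 (nat_lit 4) (nat_lit 181) (nat_lit 182) = true := by decide +kernel
def p14_14_2_182 : pfC (piC [(nat_lit 38167130), (nat_lit 25010362), (nat_lit 18643303), (nat_lit 12552662)] (nat_lit 6971554)) p14_14_2 (nat_lit 4) (nat_lit 182) (nat_lit 183) = true := by decide +kernel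
def p14_14_2_183 : pfC (piC [(nat_lit 38167130), (nat_lit 25010362), (nat_lit 18643303), (nat_lit 12552662)] (nat_lit 6971554)) p14_14_2 (nat_lit 4) (nat_lit 183) (nat_lit 184) = true := by decide +kernel
def p14_14_2_184 : pfC (piC [(nat_lit 38167130), (nat_lit 25010362), (nat_lit 18643303), (nat_lit 12552662)] (nat_lit 6971554)) p14_14_2 (nat_lit 4) (nat_lit 184) (nat_lit 185) = true := by decide +kernel
def p14_14_2_185 : pfC (piC [(nat_lit 38167130), (nat_lit 25010362), (nat_lit 18643303), (nat_lit 12552662)] (nat_lit 6971554)) p14_14_2 (nat_lit 4) (nat_lit 185) (nat_lit 186) = true := by decide +kernel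
def p14_14_2_186 : pfC (piC [(nat_lit 38167130), (nat_lit 25010362), (nat_lit 18643303), (nat_lit 12552662)] (nat_lit 6971554)) p14_14_2 (nat_lit 4) (nat_lit 186) (nat_lit 187) = true := by decide +kernel
def p14_14_2_187 : pfC (piC [(nat_lit 38167130), (nat_lit 25010362), (nat_lit 18643303), (nat_lit 12552662)] (nat_lit 6971554)) p14_14_2 (nat_lit 4) (nat_lit 187) (nat_lit 188) = true := by decide +kernel
def p14_14_2_188 : pfC (piC [(nat_lit 38167130), (nat_lit 25010362), (nat_lit 18643303), (nat_lit 12552662)] (nat_lit 6971554)) p14_14_2 (nat_lit 4) (nat_lit 188) (nat_lit 189) = true := by decide +kernel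
def p14_14_2_189 : pfC (piC [(nat_lit 38167130), (nat_lit 25010362), (nat_lit 18643303), (nat_lit 12552662)] (nat_lit 6971554)) p14_14_2 (nat_lit 4) (nat_lit 189) (nat_lit 190) = true := by decide +kernel
def p14_14_2_190 : pfC (piC [(nat_lit 38167130), (nat_lit 25010362), (nat_lit 18643303), (nat_lit 12552662)] (nat_lit 6971554)) p14_14_2 (nat_lit 4) (nat_lit 190) (nat_lit 191) = true := by decide +kernel
def p14_14_2_191 : pfC (piC [(nat_lit 38167130), (nat_lit 25010362), (nat_lit 18643303), (nat_lit 12552662)] (nat_lit 6971554)) p14_14_2 (nat_lit 4) (nat_lit 191) (nat_lit 192) = true := by decide +kernel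
def p14_14_2_192 : pfC (piC [(nat_lit 38167130), (nat_lit 25010362), (nat_lit 18643303), (nat_lit 12552662)] (nat_lit 6971554)) p14_14_2 (nat_lit 4) (nat_lit 192) (nat_lit 193) = true := by decide +kernel
theorem p14_14_2_T : PfS (PiF n14_14.reverse (nat_lit 6971554)) p14_14_2 (nat_lit 4) [] 0 :=
  pftab_of (los := [(nat_lit 38167130), (nat_lit 25010362), (nat_lit 18643303), (nat_lit 12552662)]) (by decide +kernel) (hi := (nat_lit 193)) (PfP.trans (PfP.trans (PfP.trans (PfP.trans (PfP.trans (PfP.trans (PfP.trans (PfP.trans (PfP.trans (PfP.trans (PfP.trans (PfP.trans (PfP.trans (PfP.trans (PfP.trans (PfP.trans (PfP.trans (PfP.trans (PfP.trans (PfP.trans (PfP.trans (PfP.trans (PfP.trans (PfP.trans (PfP.trans (PfP.trans (PfP.trans (PfP.trans (PfP.trans (PfP.trans (PfP.trans (PfP.trans (PfP.trans (PfP.trans (PfP.trans (PfP.trans (PfP.trans (PfP.trans (PfP.trans (PfP.trans (PfP.trans (PfP.trans (PfP.trans (PfP.trans (PfP.trans (PfP.trans (PfP.trans (PfP.trans (PfP.trans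 (PfP.trans (PfP.trans (PfP.trans (PfP.trans (PfP.trans (PfP.trans (PfP.trans (PfP.trans (PfP.trans (PfP.trans (PfP.trans (PfP.trans (PfP.trans (PfP.trans (PfP.trans (PfP.trans (PfP.trans (PfP.trans (PfP.trans (PfP.trans (PfP.trans (PfP.trans (PfP.trans (PfP.trans (PfP.trans (PfP.trans (PfP.trans (PfP.trans (PfP.trans (PfP.trans (PfP.trans (PfP.trans (PfP.trans (PfP.trans (PfP.trans (PfP.trans (PfP.trans (PfP.trans (PfP.trans (PfP.trans (PfP.trans (PfP.trans (PfP.trans (PfP.trans (PfP.trans (PfP.trans (PfP.trans (PfP.trans (PfP.trans (PfP.trans (PfP.trans (PfP.trans (PfP.trans (PfP.trans (PfP.trans (PfP.trans (PfP.trans (PfP.trans (PfP.trans (PfP.trans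
 (PfP.trans (PfP.trans (PfP.trans (PfP.trans (PfP.trans (PfP.trans (PfP.trans (PfP.trans (PfP.trans (PfP.trans (PfP.trans (PfP.trans (PfP.trans (PfP.trans (PfP.trans (PfP.trans (PfP.trans (PfP.trans (PfP.trans (PfP.trans (PfP.trans (PfP.trans (PfP.trans (PfP.trans (PfP.trans (PfP.trans (PfP.trans (PfP.trans (PfP.trans (PfP.trans (PfP.trans (PfP.trans (PfP.trans (PfP.trans (PfP.trans (PfP.trans (PfP.trans (PfP.trans (PfP.trans (PfP.trans (PfP.trans (PfP.trans (PfP.trans (PfP.trans (PfP.trans (PfP.trans (PfP.trans (PfP.trans (PfP.trans (PfP.trans (PfP.trans (PfP.trans (PfP.trans (PfP.trans (PfP.trans (PfP.trans (PfP.trans (PfP.trans (PfP.trans (PfP.trans (PfP.trans (PfP.trans (PfP.trans (PfP.trans (PfP.trans (PfP.trans (PfP.trans (PfP.trans (PfP.trans (PfP.trans (PfP.trans (PfP.trans (PfP.trans (PfP.trans (PfP.trans (PfP.trans (PfP.trans (PfP.trans (PfP.trans (PfP.trans (PfP.trans (PfP.trans (PfP.trans (pfC_sound p14_14_2_0) (pfC_sound p14_14_2_1)) (pfC_sound p14_14_2_2))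 (pfC_sound p14_14_2_3)) (pfC_sound p14_14_2_4)) (pfC_sound p14_14_2_5)) (pfC_sound p14_14_2_6)) (pfC_sound p14_14_2_7)) (pfC_sound p14_14_2_8)) (pfC_sound p14_14_2_9)) (pfC_sound p14_14_2_10)) (pfC_sound
 p14_14_2_11)) (pfC_sound p14_14_2_12)) (pfC_sound p14_14_2_13)) (pfC_sound p14_14_2_14)) (pfC_sound p14_14_2_15)) (pfC_sound p14_14_2_16)) (pfC_sound p14_14_2_17)) (pfC_sound p14_14_2_18)) (pfC_sound p14_14_2_19)) (pfC_sound p14_14_2_20)) (pfC_sound p14_14_2_21)) (pfC_sound p14_14_2_22)) (pfC_sound p14_14_2_23)) (pfC_sound p14_14_2_24)) (pfC_sound p14_14_2_25)) (pfC_sound p14_14_2_26)) (pfC_sound p14_14_2_27)) (pfC_sound p14_14_2_28)) (pfC_sound p14_14_2_29)) (pfC_sound p14_14_2_30)) (pfC_sound p14_14_2_31)) (pfC_sound p14_14_2_32)) (pfC_sound p14_14_2_33)) (pfC_sound p14_14_2_34)) (pfC_sound p14_14_2_35)) (pfC_sound p14_14_2_36)) (pfC_sound p14_14_2_37)) (pfC_sound p14_14_2_38)) (pfC_sound p14_14_2_39)) (pfC_sound p14_14_2_40)) (pfC_sound p14_14_2_41)) (pfC_sound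 p14_14_2_42)) (pfC_sound p14_14_2_43)) (pfC_sound p14_14_2_44)) (pfC_sound p14_14_2_45)) (pfC_sound p14_14_2_46)) (pfC_sound p14_14_2_47)) (pfC_sound p14_14_2_48)) (pfC_sound p14_14_2_49)) (pfC_sound p14_14_2_50)) (pfC_sound p14_14_2_51)) (pfC_sound p14_14_2_52)) (pfC_sound p14_14_2_53)) (pfC_sound p14_14_2_54)) (pfC_sound p14_14_2_55)) (pfC_sound p14_14_2_56)) (pfC_sound p14_14_2_57)) (pfC_sound p14_14_2_58)) (pfC_sound
 p14_14_2_59)) (pfC_sound p14_14_2_60)) (pfC_sound p14_14_2_61)) (pfC_sound p14_14_2_62)) (pfC_sound p14_14_2_63)) (pfC_sound p14_14_2_64)) (pfC_sound p14_14_2_65)) (pfC_sound p14_14_2_66)) (pfC_sound p14_14_2_67)) (pfC_sound p14_14_2_68)) (pfC_sound p14_14_2_69)) (pfC_sound p14_14_2_70)) (pfC_sound p14_14_2_71)) (pfC_sound p14_14_2_72)) (pfC_sound p14_14_2_73)) (pfC_sound p14_14_2_74)) (pfC_sound p14_14_2_75)) (pfC_sound p14_14_2_76)) (pfC_sound p14_14_2_77)) (pfC_sound p14_14_2_78)) (pfC_sound p14_14_2_79)) (pfC_sound p14_14_2_80)) (pfC_sound p14_14_2_81))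 (pfC_sound p14_14_2_82)) (pfC_sound p14_14_2_83)) (pfC_sound p14_14_2_84)) (pfC_sound p14_14_2_85)) (pfC_sound p14_14_2_86)) (pfC_sound p14_14_2_87)) (pfC_sound p14_14_2_88)) (pfC_sound p14_14_2_89)) (pfC_sound p14_14_2_90)) (pfC_sound p14_14_2_91)) (pfC_sound p14_14_2_92)) (pfC_sound p14_14_2_93)) (pfC_sound p14_14_2_94)) (pfC_sound p14_14_2_95)) (pfC_sound p14_14_2_96)) (pfC_sound p14_14_2_97)) (pfC_sound p14_14_2_98)) (pfC_sound p14_14_2_99)) (pfC_sound p14_14_2_100)) (pfC_sound p14_14_2_101)) (pfC_sound p14_14_2_102)) (pfC_sound p14_14_2_103)) (pfC_sound p14_14_2_104)) (pfC_sound p14_14_2_105)) (pfC_sound p14_14_2_106))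
 (pfC_sound p14_14_2_107)) (pfC_sound p14_14_2_108)) (pfC_sound p14_14_2_109)) (pfC_sound p14_14_2_110)) (pfC_sound p14_14_2_111)) (pfC_sound p14_14_2_112)) (pfC_sound p14_14_2_113)) (pfC_sound p14_14_2_114)) (pfC_sound p14_14_2_115)) (pfC_sound p14_14_2_116)) (pfC_sound p14_14_2_117)) (pfC_sound p14_14_2_118)) (pfC_sound p14_14_2_119)) (pfC_sound p14_14_2_120)) (pfC_sound p14_14_2_121)) (pfC_sound p14_14_2_122)) (pfC_sound p14_14_2_123)) (pfC_sound p14_14_2_124)) (pfC_sound p14_14_2_125)) (pfC_sound p14_14_2_126)) (pfC_sound p14_14_2_127)) (pfC_sound p14_14_2_128)) (pfC_sound p14_14_2_129)) (pfC_sound p14_14_2_130)) (pfC_sound p14_14_2_131)) (pfC_sound p14_14_2_132)) (pfC_sound p14_14_2_133)) (pfC_sound p14_14_2_134)) (pfC_sound p14_14_2_135)) (pfC_sound p14_14_2_136)) (pfC_sound p14_14_2_137)) (pfC_sound p14_14_2_138)) (pfC_sound p14_14_2_139)) (pfC_sound p14_14_2_140)) (pfC_sound p14_14_2_141)) (pfC_sound p14_14_2_142)) (pfC_sound p14_14_2_143)) (pfC_sound p14_14_2_144))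 (pfC_sound p14_14_2_145)) (pfC_sound p14_14_2_146)) (pfC_sound p14_14_2_147)) (pfC_sound p14_14_2_148)) (pfC_sound p14_14_2_149)) (pfC_sound p14_14_2_150)) (pfC_sound p14_14_2_151)) (pfC_sound p14_14_2_152))
 (pfC_sound p14_14_2_153)) (pfC_sound p14_14_2_154)) (pfC_sound p14_14_2_155)) (pfC_sound p14_14_2_156)) (pfC_sound p14_14_2_157)) (pfC_sound p14_14_2_158)) (pfC_sound p14_14_2_159)) (pfC_sound p14_14_2_160)) (pfC_sound p14_14_2_161)) (pfC_sound p14_14_2_162)) (pfC_sound p14_14_2_163)) (pfC_sound p14_14_2_164)) (pfC_sound p14_14_2_165)) (pfC_sound p14_14_2_166)) (pfC_sound p14_14_2_167)) (pfC_sound p14_14_2_168)) (pfC_sound p14_14_2_169)) (pfC_sound p14_14_2_170)) (pfC_sound p14_14_2_171)) (pfC_sound p14_14_2_172)) (pfC_sound p14_14_2_173)) (pfC_sound p14_14_2_174)) (pfC_sound p14_14_2_175)) (pfC_sound p14_14_2_176)) (pfC_sound p14_14_2_177)) (pfC_sound p14_14_2_178)) (pfC_sound p14_14_2_179)) (pfC_sound p14_14_2_180)) (pfC_sound p14_14_2_181)) (pfC_sound p14_14_2_182))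 (pfC_sound p14_14_2_183)) (pfC_sound p14_14_2_184)) (pfC_sound p14_14_2_185)) (pfC_sound p14_14_2_186)) (pfC_sound p14_14_2_187)) (pfC_sound p14_14_2_188)) (pfC_sound p14_14_2_189)) (pfC_sound p14_14_2_190)) (pfC_sound p14_14_2_191)) (pfC_sound p14_14_2_192)) (by decide +kernel)

def z14_14_2 : zOK yB14_14 (nat_lit 2) (nat_lit 600) (nat_lit 750) (nat_lit 6971554) (nat_lit 5158383) = true := by decide +kernel
def g14_14_2 : gOK yB14_14.x P14_14 (nat_lit 1422) (q14_14 :: r14_14) (nat_lit 2) (nat_lit 600) (nat_lit 3) (nat_lit 750) (nat_lit 12712500) (nat_lit 12712500) (nat_lit 12712500) (nat_lit 12712500) [(nat_lit 800), (nat_lit 1600)] = true := by decide +kernel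
def v14_14_2 : ivC P14_14 s14_14 w14_14 n14_14 (nat_lit 4) (nat_lit 4780) (nat_lit 2) (nat_lit 600) f160_1_600 f168_1_600 (nat_lit 3) (nat_lit 750) f160_1_750 f168_1_750 (nat_lit 6971554) (nat_lit 5158383) p14_14_2 = true := by decide +kernel
def p14_14_3 : PF := (PF.cons (PF.cons (PF.cons (PF.cons (PF.leaf (nat_lit 2943331) (nat_lit 18489420) (nat_lit 48619392) (nat_lit 18489420) [(nat_lit 0), (nat_lit 0), (nat_lit 0), (nat_lit 0)]) (PF.cons (PF.leaf (nat_lit 3115128) (nat_lit 308093) (nat_lit 48350773) (nat_lit 18449946) [(nat_lit 308093), (nat_lit 0), (nat_lit 0), (nat_lit 0)]) (PF.cons (PF.leaf (nat_lit 3317649) (nat_lit 334398) (nat_lit 48037415) (nat_lit 18402600) [(nat_lit 334398), (nat_lit 0), (nat_lit 0), (nat_lit 0)]) (PF.cons (PF.leaf (nat_lit 3544407) (nat_lit 357515) (nat_lit 47688055) (nat_lit 18348211) [(nat_lit 357515), (nat_lit 0), (nat_lit 0), (nat_lit 0)]) (PF.cons (PF.leaf (nat_lit 3791641) (nat_lit 378140) (nat_lit 47308931) (nat_lit 18287319) [(nat_lit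 378140), (nat_lit 0), (nat_lit 0), (nat_lit 0)]) (PF.cons (PF.leaf (nat_lit 4056460) (nat_lit 396723) (nat_lit 46904870) (nat_lit 18220325) [(nat_lit 396723), (nat_lit 0), (nat_lit 0), (nat_lit 0)]) (PF.cons (PF.leaf (nat_lit 4336540) (nat_lit 413574) (nat_lit 46479804) (nat_lit 18147561) [(nat_lit 413574), (nat_lit 0), (nat_lit 0), (nat_lit 0)]) (PF.cons (PF.leaf (nat_lit 4629909) (nat_lit 428921) (nat_lit 46037039) (nat_lit 18069323) [(nat_lit 428921), (nat_lit 0),
 (nat_lit 0), (nat_lit 0)]) (PF.cons (PF.leaf (nat_lit 4934855) (nat_lit 442938) (nat_lit 45579416) (nat_lit 17985888) [(nat_lit 442938), (nat_lit 0), (nat_lit 0), (nat_lit 0)]) (PF.cons (PF.leaf (nat_lit 5249899) (nat_lit 455762) (nat_lit 45109419) (nat_lit 17897529) [(nat_lit 455762), (nat_lit 0), (nat_lit 0), (nat_lit 0)]) (PF.cons PF.nil (PF.cons PF.nil PF.nil)))))))))))) (PF.cons (PF.cons (PF.leaf (nat_lit 3494569) (nat_lit 1328267) (nat_lit 47470757) (nat_lit 18309788) [(nat_lit 0), (nat_lit 1328267),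 (nat_lit 0), (nat_lit 0)]) (PF.cons (PF.leaf (nat_lit 3713644) (nat_lit 366767) (nat_lit 47127270) (nat_lit 18253650) [(nat_lit 366767), (nat_lit 1361125), (nat_lit 0), (nat_lit 0)]) (PF.cons (PF.leaf (nat_lit 3955437) (nat_lit 386634) (nat_lit 46752198) (nat_lit 18190593) [(nat_lit 386634), (nat_lit 1392751), (nat_lit 0), (nat_lit 0)]) (PF.cons (PF.leaf (nat_lit 4215600) (nat_lit 404463) (nat_lit 46351490) (nat_lit 18121237) [(nat_lit 404463), (nat_lit 1422696), (nat_lit 0), (nat_lit 0)]) (PF.cons (PF.leaf (nat_lit 4491451) (nat_lit 420591) (nat_lit 45929640) (nat_lit 18046040) [(nat_lit 420591), (nat_lit 1450765), (nat_lit 0), (nat_lit 0)]) (PF.cons (PF.leaf (nat_lit 4780814)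
 (nat_lit 435257) (nat_lit 45490251) (nat_lit 17965379) [(nat_lit 435257), (nat_lit 1476893), (nat_lit 0), (nat_lit 0)]) (PF.cons (PF.leaf (nat_lit 5081860) (nat_lit 448636) (nat_lit 45036322) (nat_lit 17879588) [(nat_lit 448636), (nat_lit 1501082), (nat_lit 0), (nat_lit 0)]) (PF.cons (PF.leaf (nat_lit 5393044) (nat_lit 460864) (nat_lit 44570411) (nat_lit 17788977) [(nat_lit 460864), (nat_lit 1523372), (nat_lit 0), (nat_lit 0)]) (PF.cons (PF.leaf (nat_lit 5712962) (nat_lit 472051) (nat_lit 44094735) (nat_lit 17693841) [(nat_lit 472051), (nat_lit 1543823), (nat_lit 0), (nat_lit 0)]) (PF.cons PF.nil PF.nil)))))))))) (PF.cons (PF.cons (PF.leaf (nat_lit 4122314) (nat_lit 1418252) (nat_lit 46184407) (nat_lit 18087900) [(nat_lit 0), (nat_lit 1418252), (nat_lit 0), (nat_lit 0)]) (PF.cons (PF.leaf (nat_lit 4375693) (nat_lit 410978) (nat_lit 45790768) (nat_lit 18016954) [(nat_lit 410978), (nat_lit 1445056), (nat_lit 0), (nat_lit 0)]) (PF.cons (PF.leaf (nat_lit 4646245) (nat_lit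 426584) (nat_lit 45374883) (nat_lit 17939941) [(nat_lit 426584), (nat_lit 1470409), (nat_lit 0), (nat_lit 0)]) (PF.cons (PF.leaf (nat_lit 4930836) (nat_lit 440717) (nat_lit 44940992) (nat_lit 17857377) [(nat_lit
 440717), (nat_lit 1494145), (nat_lit 0), (nat_lit 0)]) (PF.cons (PF.leaf (nat_lit 5227447) (nat_lit 453571) (nat_lit 44492440) (nat_lit 17769682) [(nat_lit 453571), (nat_lit 1516201), (nat_lit 0), (nat_lit 0)]) (PF.cons (PF.leaf (nat_lit 5534338) (nat_lit 465294) (nat_lit 44031978) (nat_lit 17677222) [(nat_lit 465294), (nat_lit 1536570), (nat_lit 0), (nat_lit 0)]) (PF.cons (PF.leaf (nat_lit 5850080) (nat_lit 475998) (nat_lit 43561932) (nat_lit 17580331) [(nat_lit 475998), (nat_lit 1555278), (nat_lit 0), (nat_lit 0)]) (PF.cons (PF.leaf (nat_lit 6173385) (nat_lit 485777) (nat_lit 43084302) (nat_lit 17479323) [(nat_lit 485777), (nat_lit 1572372), (nat_lit 0), (nat_lit 0)]) (PF.cons PF.nil PF.nil))))))))) (PF.cons (PF.cons (PF.leaf (nat_lit 4802510) (nat_lit 1488146)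 (nat_lit 44815160) (nat_lit 17829211) [(nat_lit 0), (nat_lit 1488146), (nat_lit 0), (nat_lit 0)]) (PF.cons (PF.leaf (nat_lit 5080848) (nat_lit 445321) (nat_lit 44389160) (nat_lit 17745349) [(nat_lit 445321), (nat_lit 1509660), (nat_lit 0), (nat_lit 0)]) (PF.cons (PF.leaf (nat_lit 5372254) (nat_lit 457768) (nat_lit 43947809) (nat_lit 17656253) [(nat_lit 457768), (nat_lit 1529737), (nat_lit 0), (nat_lit 0)]) (PF.cons
 (PF.leaf (nat_lit 5674356) (nat_lit 469077) (nat_lit 43494229) (nat_lit 17562378) [(nat_lit 469077), (nat_lit 1548324), (nat_lit 0), (nat_lit 0)]) (PF.cons (PF.leaf (nat_lit 5985517) (nat_lit 479372) (nat_lit 43030960) (nat_lit 17464116) [(nat_lit 479372), (nat_lit 1565415), (nat_lit 0), (nat_lit 0)]) (PF.cons (PF.leaf (nat_lit 6304385) (nat_lit 488754) (nat_lit 42560126) (nat_lit 17361817) [(nat_lit 488754), (nat_lit 1581032), (nat_lit 0), (nat_lit 0)]) (PF.cons PF.nil PF.nil))))))) (PF.cons (PF.cons (PF.leaf (nat_lit 5517523) (nat_lit 1541834) (nat_lit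 43402160) (nat_lit 17539314) [(nat_lit 0), (nat_lit 1541834), (nat_lit 0), (nat_lit 0)]) (PF.cons (PF.leaf (nat_lit 5813695) (nat_lit 472224) (nat_lit 42957055) (nat_lit 17444510) [(nat_lit 472224), (nat_lit 1558755), (nat_lit 0), (nat_lit 0)]) (PF.cons (PF.leaf (nat_lit 6119770) (nat_lit 482187) (nat_lit 42501798) (nat_lit 17345290) [(nat_lit 482187), (nat_lit 1574337), (nat_lit 0), (nat_lit 0)]) (PF.cons (PF.leaf (nat_lit 6433833) (nat_lit 491234) (nat_lit 42038737) (nat_lit 17242064) [(nat_lit 491234), (nat_lit 1588576), (nat_lit 0), (nat_lit 0)]) (PF.cons (PF.leaf (nat_lit 6754615) (nat_lit 499454) (nat_lit 41569820) (nat_lit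
 17135193) [(nat_lit 499454), (nat_lit 1601495), (nat_lit 0), (nat_lit 0)]) PF.nil))))) (PF.cons (PF.cons (PF.leaf (nat_lit 6253821) (nat_lit 1582136) (nat_lit 41974231) (nat_lit 17223898) [(nat_lit 0), (nat_lit 1582136), (nat_lit 0), (nat_lit 0)]) (PF.cons (PF.leaf (nat_lit 6562244) (nat_lit 493226) (nat_lit 41520017) (nat_lit 17120136) [(nat_lit 493226), (nat_lit 1595086), (nat_lit 0), (nat_lit 0)]) (PF.cons (PF.leaf (nat_lit 6878056) (nat_lit 501170) (nat_lit 41059607) (nat_lit 17012743) [(nat_lit 501170), (nat_lit 1606824), (nat_lit 0), (nat_lit 0)]) (PF.cons PF.nil PF.nil)))) (PF.cons (PF.cons (PF.leaf (nat_lit 7000867) (nat_lit 1611264) (nat_lit 40552712) (nat_lit 16888515) [(nat_lit 0), (nat_lit 1611264), (nat_lit 0), (nat_lit 0)]) (PF.cons (PF.leaf (nat_lit 7317096) (nat_lit 509419) (nat_lit 40096921) (nat_lit 16777705) [(nat_lit 509419), (nat_lit 1620794), (nat_lit 0), (nat_lit 0)]) PF.nil)) (PF.cons PF.nil (PF.cons PF.nil PF.nil))))))))) (PF.cons (PF.cons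 (PF.cons (PF.leaf (nat_lit 4022585) (nat_lit 3354199) (nat_lit 45761121) (nat_lit 17993492) [(nat_lit 0), (nat_lit 0), (nat_lit 3354199), (nat_lit 0)]) (PF.cons (PF.leaf (nat_lit 4249779) (nat_lit 389356) (nat_lit
 45410903) (nat_lit 17928931) [(nat_lit 389356), (nat_lit 0), (nat_lit 3379621), (nat_lit 0)]) (PF.cons (PF.leaf (nat_lit 4498373) (nat_lit 407687) (nat_lit 45031555) (nat_lit 17857329) [(nat_lit 407687), (nat_lit 0), (nat_lit 3404553), (nat_lit 0)]) (PF.cons (PF.leaf (nat_lit 4763995) (nat_lit 423913) (nat_lit 44629196) (nat_lit 17779516) [(nat_lit 423913), (nat_lit 0), (nat_lit 3428359), (nat_lit 0)]) (PF.cons (PF.leaf (nat_lit 5043907) (nat_lit 438431) (nat_lit 44208338) (nat_lit 17696100) [(nat_lit 438431), (nat_lit 0), (nat_lit 3450646), (nat_lit 0)]) (PF.cons (PF.leaf (nat_lit 5335949) (nat_lit 451513) (nat_lit 43772507) (nat_lit 17607566) [(nat_lit 451513), (nat_lit 0), (nat_lit 3471172), (nat_lit 0)]) (PF.cons (PF.leaf (nat_lit 5638356) (nat_lit 463352)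 (nat_lit 43324576) (nat_lit 17514328) [(nat_lit 463352), (nat_lit 0), (nat_lit 3489794), (nat_lit 0)]) (PF.cons (PF.leaf (nat_lit 5949618) (nat_lit 474096) (nat_lit 42866945) (nat_lit 17416754) [(nat_lit 474096), (nat_lit 0), (nat_lit 3506439), (nat_lit 0)]) (PF.cons (PF.leaf (nat_lit 6268469) (nat_lit 483860) (nat_lit 42401665) (nat_lit 17315181) [(nat_lit 483860), (nat_lit 0), (nat_lit 3521081), (nat_lit 0)]) (PF.cons
 PF.nil PF.nil)))))))))) (PF.cons (PF.cons (PF.leaf (nat_lit 4659305) (nat_lit 1465576) (nat_lit 44471750) (nat_lit 17744857) [(nat_lit 0), (nat_lit 1465576), (nat_lit 3426628), (nat_lit 0)]) (PF.cons (PF.leaf (nat_lit 4917310) (nat_lit 428422) (nat_lit 44078978) (nat_lit 17666350) [(nat_lit 428422), (nat_lit 1487861), (nat_lit 3447198), (nat_lit 0)]) (PF.cons (PF.leaf (nat_lit 5191215) (nat_lit 442606) (nat_lit 43666308) (nat_lit 17581967) [(nat_lit 442606), (nat_lit 1508788), (nat_lit 3466534), (nat_lit 0)]) (PF.cons (PF.leaf (nat_lit 5477922) (nat_lit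 455316) (nat_lit 43237933) (nat_lit 17492342) [(nat_lit 455316), (nat_lit 1528241), (nat_lit 3484346), (nat_lit 0)]) (PF.cons (PF.leaf (nat_lit 5775406) (nat_lit 466772) (nat_lit 42797095) (nat_lit 17397981) [(nat_lit 466772), (nat_lit 1546184), (nat_lit 3500460), (nat_lit 0)]) (PF.cons (PF.leaf (nat_lit 6082059) (nat_lit 477135) (nat_lit 42346413) (nat_lit 17299309) [(nat_lit 477135), (nat_lit 1562628), (nat_lit 3514783), (nat_lit 0)]) (PF.cons (PF.leaf (nat_lit 6396442) (nat_lit 486529) (nat_lit 41888059) (nat_lit 17196704) [(nat_lit 486529), (nat_lit 1577604), (nat_lit 3527269), (nat_lit 0)]) (PF.cons PF.nil (PF.cons PF.nil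
 PF.nil))))))))) (PF.cons (PF.cons (PF.leaf (nat_lit 5340150) (nat_lit 1521703) (nat_lit 43121444) (nat_lit 17463989) [(nat_lit 0), (nat_lit 1521703), (nat_lit 3479970), (nat_lit 0)]) (PF.cons (PF.leaf (nat_lit 5620083) (nat_lit 458391) (nat_lit 42702593) (nat_lit 17373859) [(nat_lit 458391), (nat_lit 1539361), (nat_lit 3495246), (nat_lit 0)]) (PF.cons (PF.leaf (nat_lit 5911981) (nat_lit 469567) (nat_lit 42270393) (nat_lit 17278851) [(nat_lit 469567), (nat_lit 1555703), (nat_lit 3509026), (nat_lit 0)]) (PF.cons (PF.leaf (nat_lit 6213469) (nat_lit 479629) (nat_lit 41827846) (nat_lit 17179486) [(nat_lit 479629), (nat_lit 1570701), (nat_lit 3521188), (nat_lit 0)]) (PF.cons (PF.leaf (nat_lit 6523012) (nat_lit 488715) (nat_lit 41377353) (nat_lit 17076198) [(nat_lit 488715), (nat_lit 1584363), (nat_lit 3531672), (nat_lit 0)]) (PF.cons (PF.leaf (nat_lit 6839309) (nat_lit 496931) (nat_lit 40920893) (nat_lit 16969369) [(nat_lit 496931), (nat_lit 1596716), (nat_lit 3540458),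 (nat_lit 0)]) (PF.cons PF.nil PF.nil))))))) (PF.cons (PF.cons (PF.leaf (nat_lit 6049173) (nat_lit 1564072) (nat_lit 41744044) (nat_lit 17156916) [(nat_lit 0), (nat_lit 1564072), (nat_lit 3515634), (nat_lit 0)]) (PF.cons
 (PF.leaf (nat_lit 6344451) (nat_lit 481577) (nat_lit 41310996) (nat_lit 17057312) [(nat_lit 481577), (nat_lit 1577713), (nat_lit 3525785), (nat_lit 0)]) (PF.cons (PF.leaf (nat_lit 6648672) (nat_lit 490424) (nat_lit 40869399) (nat_lit 16953723) [(nat_lit 490424), (nat_lit 1590144), (nat_lit 3534408), (nat_lit 0)]) (PF.cons (PF.leaf (nat_lit 6959994) (nat_lit 498390) (nat_lit 40421464) (nat_lit 16846588) [(nat_lit 498390), (nat_lit 1601372), (nat_lit 3541468), (nat_lit 0)]) (PF.cons PF.nil PF.nil))))) (PF.cons (PF.cons (PF.leaf (nat_lit 6774357) (nat_lit 1595016) (nat_lit 40363878) (nat_lit 16829287) [(nat_lit 0), (nat_lit 1595016), (nat_lit 3535581), (nat_lit 0)]) (PF.cons (PF.leaf (nat_lit 7079875) (nat_lit 499429) (nat_lit 39925378) (nat_lit 16722205)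 [(nat_lit 499429), (nat_lit 1605190), (nat_lit 3541038), (nat_lit 0)]) (PF.cons (PF.leaf (nat_lit 7392007) (nat_lit 506405) (nat_lit 39481904) (nat_lit 16611939) [(nat_lit 506405), (nat_lit 1614277), (nat_lit 3545046), (nat_lit 0)]) (PF.cons PF.nil PF.nil)))) (PF.cons (PF.cons (PF.leaf (nat_lit 7506456) (nat_lit 1616404) (nat_lit 38998584) (nat_lit 16486318) [(nat_lit 0), (nat_lit 1616404), (nat_lit 3541885), (nat_lit 0)]) (PF.cons
 PF.nil PF.nil)) (PF.cons PF.nil (PF.cons PF.nil PF.nil)))))))) (PF.cons (PF.cons (PF.cons (PF.leaf (nat_lit 5183390) (nat_lit 3459207) (nat_lit 42809006) (nat_lit 17381390) [(nat_lit 0), (nat_lit 0), (nat_lit 3459207), (nat_lit 0)]) (PF.cons (PF.leaf (nat_lit 5444036) (nat_lit 441908) (nat_lit 42421643) (nat_lit 17297080) [(nat_lit 441908), (nat_lit 0), (nat_lit 3474089), (nat_lit 0)]) (PF.cons (PF.leaf (nat_lit 5719510) (nat_lit 454849) (nat_lit 42016423) (nat_lit 17207145) [(nat_lit 454849), (nat_lit 0), (nat_lit 3487772), (nat_lit 0)])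 (PF.cons (PF.leaf (nat_lit 6006686) (nat_lit 466325) (nat_lit 41597438) (nat_lit 17112309) [(nat_lit 466325), (nat_lit 0), (nat_lit 3500044), (nat_lit 0)]) (PF.cons (PF.leaf (nat_lit 6303628) (nat_lit 476574) (nat_lit 41167803) (nat_lit 17013137) [(nat_lit 476574), (nat_lit 0), (nat_lit 3510787), (nat_lit 0)]) (PF.cons (PF.leaf (nat_lit 6608702) (nat_lit 485769) (nat_lit 40729993) (nat_lit 16910095) [(nat_lit 485769), (nat_lit 0), (nat_lit 3519938), (nat_lit 0)]) (PF.cons (PF.leaf (nat_lit 6920593) (nat_lit 494039) (nat_lit 40286035) (nat_lit 16803585) [(nat_lit 494039), (nat_lit 0), (nat_lit 3527478), (nat_lit 0)]) (PF.cons PF.nil (PF.cons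
 PF.nil PF.nil))))))))) (PF.cons (PF.cons (PF.leaf (nat_lit 5861066) (nat_lit 1544655) (nat_lit 41490150) (nat_lit 17084287) [(nat_lit 0), (nat_lit 1544655), (nat_lit 3494860), (nat_lit 0)]) (PF.cons (PF.leaf (nat_lit 6141137) (nat_lit 468162) (nat_lit 41081723) (nat_lit 16989619) [(nat_lit 468162), (nat_lit 1559108), (nat_lit 3505099), (nat_lit 0)]) (PF.cons (PF.leaf (nat_lit 6432160) (nat_lit 478233) (nat_lit 40661626) (nat_lit 16890438) [(nat_lit 478233), (nat_lit 1572347), (nat_lit 3513966), (nat_lit 0)]) (PF.cons (PF.leaf (nat_lit 6731867) (nat_lit 487217) (nat_lit 40232725) (nat_lit 16787306) [(nat_lit 487217), (nat_lit 1584364), (nat_lit 3521381), (nat_lit 0)]) (PF.cons (PF.leaf (nat_lit 7038761) (nat_lit 495261) (nat_lit 39797280) (nat_lit 16680686) [(nat_lit 495261), (nat_lit 1595176), (nat_lit 3527311), (nat_lit 0)]) (PF.cons PF.nil (PF.cons PF.nil PF.nil))))))) (PF.cons (PF.cons (PF.leaf (nat_lit 6561514) (nat_lit 1577723) (nat_lit 40156724) (nat_lit 16765524)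 [(nat_lit 0), (nat_lit 1577723), (nat_lit 3515558), (nat_lit 0)]) (PF.cons (PF.leaf (nat_lit 6854828) (nat_lit 488190) (nat_lit 39737914) (nat_lit 16662726) [(nat_lit 488190), (nat_lit 1588628), (nat_lit 3521362),
 (nat_lit 0)]) (PF.cons (PF.leaf (nat_lit 7156259) (nat_lit 496070) (nat_lit 39311863) (nat_lit 16556344) [(nat_lit 496070), (nat_lit 1598432), (nat_lit 3525798), (nat_lit 0)]) (PF.cons (PF.leaf (nat_lit 7464027) (nat_lit 503104) (nat_lit 38880644) (nat_lit 16446837) [(nat_lit 503104), (nat_lit 1607154), (nat_lit 3528854), (nat_lit 0)]) (PF.cons PF.nil PF.nil))))) (PF.cons (PF.cons (PF.leaf (nat_lit 7273980) (nat_lit 1600945) (nat_lit 38829399) (nat_lit 16430540) [(nat_lit 0), (nat_lit 1600945), (nat_lit 3523017), (nat_lit 0)]) (PF.cons (PF.leaf (nat_lit 7575886) (nat_lit 503366) (nat_lit 38407890) (nat_lit 16321562) [(nat_lit 503366), (nat_lit 1608802), (nat_lit 3524792), (nat_lit 0)]) (PF.cons PF.nil (PF.cons PF.nil PF.nil)))) (PF.cons (PF.cons (PF.leaf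 (nat_lit 7990324) (nat_lit 1615943) (nat_lit 37522834) (nat_lit 16084138) [(nat_lit 0), (nat_lit 1615943), (nat_lit 3519032), (nat_lit 0)]) (PF.cons PF.nil PF.nil)) (PF.cons PF.nil PF.nil)))))) (PF.cons (PF.cons (PF.cons (PF.leaf (nat_lit 6364653) (nat_lit 3495096) (nat_lit 39927344) (nat_lit 16696178) [(nat_lit 0), (nat_lit 0), (nat_lit 3495096), (nat_lit 0)]) (PF.cons (PF.leaf (nat_lit 6643675) (nat_lit 475232) (nat_lit
 39531522) (nat_lit 16598449) [(nat_lit 475232), (nat_lit 0), (nat_lit 3501203), (nat_lit 0)]) (PF.cons (PF.leaf (nat_lit 6932818) (nat_lit 484334) (nat_lit 39125442) (nat_lit 16496559) [(nat_lit 484334), (nat_lit 0), (nat_lit 3506047), (nat_lit 0)]) (PF.cons (PF.leaf (nat_lit 7229845) (nat_lit 492378) (nat_lit 38711827) (nat_lit 16391101) [(nat_lit 492378), (nat_lit 0), (nat_lit 3509582), (nat_lit 0)]) (PF.cons (PF.leaf (nat_lit 7533299) (nat_lit 499518) (nat_lit 38292798) (nat_lit 16282551) [(nat_lit 499518), (nat_lit 0), (nat_lit 3511795), (nat_lit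 0)]) PF.nil))))) (PF.cons (PF.cons (PF.leaf (nat_lit 7054625) (nat_lit 1584464) (nat_lit 38643079) (nat_lit 16370302) [(nat_lit 0), (nat_lit 1584464), (nat_lit 3503655), (nat_lit 0)]) (PF.cons (PF.leaf (nat_lit 7345164) (nat_lit 492553) (nat_lit 38239835) (nat_lit 16265641) [(nat_lit 492553), (nat_lit 1593074), (nat_lit 3505902), (nat_lit 0)]) (PF.cons (PF.leaf (nat_lit 7643090) (nat_lit 499592) (nat_lit 37830418) (nat_lit 16157765) [(nat_lit 499592), (nat_lit 1600678), (nat_lit 3506921), (nat_lit 0)]) (PF.cons PF.nil PF.nil)))) (PF.cons (PF.cons (PF.leaf (nat_lit 7753305) (nat_lit 1601283) (nat_lit 37371283) (nat_lit 16031919)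
 [(nat_lit 0), (nat_lit 1601283), (nat_lit 3501014), (nat_lit 0)]) (PF.cons (PF.leaf (nat_lit 8051053) (nat_lit 505445) (nat_lit 36967399) (nat_lit 15922200) [(nat_lit 505445), (nat_lit 1607199), (nat_lit 3499789), (nat_lit 0)]) PF.nil)) (PF.cons PF.nil (PF.cons PF.nil PF.nil))))) (PF.cons (PF.cons (PF.cons (PF.leaf (nat_lit 7528887) (nat_lit 3482437) (nat_lit 37203725) (nat_lit 15975339) [(nat_lit 0), (nat_lit 0), (nat_lit 3482437), (nat_lit 0)]) (PF.cons (PF.leaf (nat_lit 7816012) (nat_lit 495065) (nat_lit 36816751) (nat_lit 15869903) [(nat_lit 495065), (nat_lit 0), (nat_lit 3481773), (nat_lit 0)]) (PF.cons (PF.leaf (nat_lit 8109956) (nat_lit 501369) (nat_lit 36424478) (nat_lit 15761584) [(nat_lit 501369), (nat_lit 0), (nat_lit 3480002), (nat_lit 0)]) (PF.cons PF.nil PF.nil)))) (PF.cons (PF.cons (PF.leaf (nat_lit 8213091) (nat_lit 1597122) (nat_lit 35988437) (nat_lit 15636730) [(nat_lit 0), (nat_lit 1597122), (nat_lit 3471630), (nat_lit 0)]) (PF.cons (PF.leaf (nat_lit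 8506314) (nat_lit 506000) (nat_lit 35602343) (nat_lit 15527194) [(nat_lit 506000), (nat_lit 1601407), (nat_lit 3467966), (nat_lit 0)]) PF.nil)) (PF.cons PF.nil PF.nil))) (PF.cons (PF.cons (PF.cons (PF.leaf (nat_lit
 8654231) (nat_lit 3436522) (nat_lit 34678705) (nat_lit 15247493) [(nat_lit 0), (nat_lit 0), (nat_lit 3436522), (nat_lit 0)]) (PF.cons PF.nil PF.nil)) (PF.cons PF.nil PF.nil)) (PF.cons PF.nil (PF.cons PF.nil PF.nil)))))))) (PF.cons (PF.cons (PF.cons (PF.cons (PF.leaf (nat_lit 4873337) (nat_lit 8550876) (nat_lit 41552415) (nat_lit 17005520) [(nat_lit 0), (nat_lit 0), (nat_lit 0), (nat_lit 8550876)]) (PF.cons (PF.leaf (nat_lit 5097587) (nat_lit 397283) (nat_lit 41236055) (nat_lit 16934934) [(nat_lit 397283), (nat_lit 0), (nat_lit 0), (nat_lit 8540539)]) (PF.cons (PF.leaf (nat_lit 5341691) (nat_lit 414292) (nat_lit 40894755) (nat_lit 16857537) [(nat_lit 414292), (nat_lit 0), (nat_lit 0), (nat_lit 8527935)]) (PF.cons (PF.leaf (nat_lit 5601252) (nat_lit 429080)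 (nat_lit 40534149) (nat_lit 16774380) [(nat_lit 429080), (nat_lit 0), (nat_lit 0), (nat_lit 8513042)]) (PF.cons (PF.leaf (nat_lit 5873522) (nat_lit 442098) (nat_lit 40158338) (nat_lit 16686224) [(nat_lit 442098), (nat_lit 0), (nat_lit 0), (nat_lit 8495857)]) (PF.cons (PF.leaf (nat_lit 6156458) (nat_lit 453653) (nat_lit 39770482) (nat_lit 16593665) [(nat_lit 453653), (nat_lit 0), (nat_lit 0), (nat_lit 8476398)]) (PF.cons (PF.leaf
 (nat_lit 6448305) (nat_lit 463966) (nat_lit 39373114) (nat_lit 16497194) [(nat_lit 463966), (nat_lit 0), (nat_lit 0), (nat_lit 8454701)]) (PF.cons (PF.leaf (nat_lit 6747680) (nat_lit 473206) (nat_lit 38968320) (nat_lit 16397230) [(nat_lit 473206), (nat_lit 0), (nat_lit 0), (nat_lit 8430818)]) (PF.cons (PF.leaf (nat_lit 7053384) (nat_lit 481500) (nat_lit 38557849) (nat_lit 16294139) [(nat_lit 481500), (nat_lit 0), (nat_lit 0), (nat_lit 8404815)]) (PF.cons PF.nil PF.nil)))))))))) (PF.cons (PF.cons (PF.leaf (nat_lit 5488862) (nat_lit 1469472)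 (nat_lit 40398249) (nat_lit 16739432) [(nat_lit 0), (nat_lit 1469472), (nat_lit 0), (nat_lit 8501658)]) (PF.cons (PF.leaf (nat_lit 5740258) (nat_lit 431754) (nat_lit 40047695) (nat_lit 16656751) [(nat_lit 431754), (nat_lit 1487389), (nat_lit 0), (nat_lit 8485222)]) (PF.cons (PF.leaf (nat_lit 6006101) (nat_lit 444547) (nat_lit 39680543) (nat_lit 16568759) [(nat_lit 444547), (nat_lit 1503928), (nat_lit 0), (nat_lit 8466487)]) (PF.cons (PF.leaf (nat_lit 6283331) (nat_lit 455836) (nat_lit 39300549) (nat_lit 16476203) [(nat_lit 455836), (nat_lit 1519044), (nat_lit 0), (nat_lit 8445505)]) (PF.cons (PF.leaf (nat_lit 6570011) (nat_lit 465870) (nat_lit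
 38910583) (nat_lit 16379662) [(nat_lit 465870), (nat_lit 1532752), (nat_lit 0), (nat_lit 8422334)]) (PF.cons (PF.leaf (nat_lit 6864576) (nat_lit 474828) (nat_lit 38512924) (nat_lit 16279610) [(nat_lit 474828), (nat_lit 1545093), (nat_lit 0), (nat_lit 8397043)]) (PF.cons (PF.leaf (nat_lit 7165729) (nat_lit 482847) (nat_lit 38109441) (nat_lit 16176451) [(nat_lit 482847), (nat_lit 1556127), (nat_lit 0), (nat_lit 8369706)]) (PF.cons PF.nil (PF.cons PF.nil PF.nil))))))))) (PF.cons (PF.cons (PF.leaf (nat_lit 6140432) (nat_lit 1511896) (nat_lit 39201535) (nat_lit 16448693) [(nat_lit 0), (nat_lit 1511896), (nat_lit 0), (nat_lit 8434791)]) (PF.cons (PF.leaf (nat_lit 6410639) (nat_lit 457403) (nat_lit 38831050) (nat_lit 16356657) [(nat_lit 457403), (nat_lit 1525586), (nat_lit 0), (nat_lit 8412527)]) (PF.cons (PF.leaf (nat_lit 6691543) (nat_lit 467254) (nat_lit 38449682) (nat_lit 16260452) [(nat_lit 467254), (nat_lit 1538037), (nat_lit 0), (nat_lit 8388094)]) (PF.cons (PF.leaf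 (nat_lit 6980859) (nat_lit 476004) (nat_lit 38060058) (nat_lit 16160645) [(nat_lit 476004), (nat_lit 1549257), (nat_lit 0), (nat_lit 8361580)]) (PF.cons (PF.leaf (nat_lit 7277140) (nat_lit 483806) (nat_lit 37664252)
 (nat_lit 16057696) [(nat_lit 483806), (nat_lit 1559280), (nat_lit 0), (nat_lit 8333077)]) (PF.cons (PF.leaf (nat_lit 7579169) (nat_lit 490777) (nat_lit 37263949) (nat_lit 15951995) [(nat_lit 490777), (nat_lit 1568152), (nat_lit 0), (nat_lit 8302677)]) (PF.cons PF.nil PF.nil))))))) (PF.cons (PF.cons (PF.leaf (nat_lit 6813979) (nat_lit 1542462) (nat_lit 37989915) (nat_lit 16139489) [(nat_lit 0), (nat_lit 1542462), (nat_lit 0), (nat_lit 8352019)]) (PF.cons (PF.leaf (nat_lit 7097047) (nat_lit 476729) (nat_lit 37609389) (nat_lit 16040308) [(nat_lit 476729), (nat_lit 1552633), (nat_lit 0), (nat_lit 8324484)]) (PF.cons (PF.leaf (nat_lit 7388025) (nat_lit 484377) (nat_lit 37222047) (nat_lit 15937878) [(nat_lit 484377), (nat_lit 1561713), (nat_lit 0), (nat_lit 8294991)])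 (PF.cons (PF.leaf (nat_lit 7685143) (nat_lit 491178) (nat_lit 36829788) (nat_lit 15832646) [(nat_lit 491178), (nat_lit 1569731), (nat_lit 0), (nat_lit 8263647)]) (PF.cons PF.nil PF.nil))))) (PF.cons (PF.cons (PF.leaf (nat_lit 7499280) (nat_lit 1563477) (nat_lit 36782458) (nat_lit 15816957) [(nat_lit 0), (nat_lit 1563477), (nat_lit 0), (nat_lit 8255487)]) (PF.cons (PF.leaf (nat_lit 7790716) (nat_lit 491238) (nat_lit
 36398939) (nat_lit 15712482) [(nat_lit 491238), (nat_lit 1570696), (nat_lit 0), (nat_lit 8223364)]) (PF.cons (PF.leaf (nat_lit 8087971) (nat_lit 497164) (nat_lit 36011564) (nat_lit 15605519) [(nat_lit 497164), (nat_lit 1576967), (nat_lit 0), (nat_lit 8189532)]) (PF.cons PF.nil PF.nil)))) (PF.cons (PF.cons (PF.leaf (nat_lit 8188671) (nat_lit 1576678) (nat_lit 35592527) (nat_lit 15485453) [(nat_lit 0), (nat_lit 1576678), (nat_lit 0), (nat_lit 8147439)]) (PF.cons PF.nil PF.nil)) (PF.cons PF.nil (PF.cons PF.nil PF.nil)))))))) (PF.cons (PF.cons (PF.cons (PF.leaf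 (nat_lit 5973550) (nat_lit 3397059) (nat_lit 38940979) (nat_lit 16371135) [(nat_lit 0), (nat_lit 0), (nat_lit 3397059), (nat_lit 8399638)]) (PF.cons (PF.leaf (nat_lit 6225983) (nat_lit 441090) (nat_lit 38598001) (nat_lit 16285340) [(nat_lit 441090), (nat_lit 0), (nat_lit 3405590), (nat_lit 8378790)]) (PF.cons (PF.leaf (nat_lit 6491944) (nat_lit 452786) (nat_lit 38240055) (nat_lit 16194520) [(nat_lit 452786), (nat_lit 0), (nat_lit 3412977), (nat_lit 8355687)]) (PF.cons (PF.leaf (nat_lit 6768394) (nat_lit 463011) (nat_lit 37870763) (nat_lit 16099464) [(nat_lit 463011), (nat_lit 0), (nat_lit 3419102), (nat_lit 8330449)]) (PF.cons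
 (PF.leaf (nat_lit 7053449) (nat_lit 472023) (nat_lit 37492852) (nat_lit 16000776) [(nat_lit 472023), (nat_lit 0), (nat_lit 3423908), (nat_lit 8303182)]) (PF.cons (PF.leaf (nat_lit 7345602) (nat_lit 480007) (nat_lit 37108466) (nat_lit 15898944) [(nat_lit 480007), (nat_lit 0), (nat_lit 3427379), (nat_lit 8273986)]) (PF.cons (PF.leaf (nat_lit 7643616) (nat_lit 487102) (nat_lit 36719337) (nat_lit 15794376) [(nat_lit 487102), (nat_lit 0), (nat_lit 3429522), (nat_lit 8242960)]) (PF.cons PF.nil (PF.cons PF.nil PF.nil))))))))) (PF.cons (PF.cons (PF.leaf (nat_lit 6619479) (nat_lit 1523428) (nat_lit 37779922) (nat_lit 16072898) [(nat_lit 0), (nat_lit 1523428), (nat_lit 3413150), (nat_lit 8319412)]) (PF.cons (PF.leaf (nat_lit 6888735) (nat_lit 463639) (nat_lit 37420648) (nat_lit 15978815) [(nat_lit 463639), (nat_lit 1534592), (nat_lit 3417818), (nat_lit 8293298)]) (PF.cons (PF.leaf (nat_lit 7167865) (nat_lit 472554) (nat_lit 37051761) (nat_lit 15880887) [(nat_lit 472554), (nat_lit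 1544620), (nat_lit 3421286), (nat_lit 8265148)]) (PF.cons (PF.leaf (nat_lit 7454678) (nat_lit 480405) (nat_lit 36675754) (nat_lit 15779694) [(nat_lit 480405), (nat_lit 1553533), (nat_lit 3423525), (nat_lit
 8235090)]) (PF.cons (PF.leaf (nat_lit 7747771) (nat_lit 487349) (nat_lit 36294571) (nat_lit 15675705) [(nat_lit 487349), (nat_lit 1561369), (nat_lit 3424531), (nat_lit 8203238)]) (PF.cons PF.nil (PF.cons PF.nil PF.nil))))))) (PF.cons (PF.cons (PF.leaf (nat_lit 7283387) (nat_lit 1546878) (nat_lit 36612284) (nat_lit 15759632) [(nat_lit 0), (nat_lit 1546878), (nat_lit 3417529), (nat_lit 8225608)]) (PF.cons (PF.leaf (nat_lit 7563878) (nat_lit 480404) (nat_lit 36245595) (nat_lit 15659433) [(nat_lit 480404), (nat_lit 1554935), (nat_lit 3418635), (nat_lit 8194873)]) (PF.cons (PF.leaf (nat_lit 7851627) (nat_lit 487255) (nat_lit 35873041) (nat_lit 15556304) [(nat_lit 487255), (nat_lit 1562001), (nat_lit 3418596), (nat_lit 8162355)]) (PF.cons (PF.leaf (nat_lit 8144931) (nat_lit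 493297) (nat_lit 35496399) (nat_lit 15450696) [(nat_lit 493297), (nat_lit 1568110), (nat_lit 3417423), (nat_lit 8128180)]) (PF.cons PF.nil PF.nil))))) (PF.cons (PF.cons (PF.leaf (nat_lit 7956051) (nat_lit 1562083) (nat_lit 35454347) (nat_lit 15436115) [(nat_lit 0), (nat_lit 1562083), (nat_lit 3411766), (nat_lit 8120331)]) (PF.cons (PF.leaf (nat_lit 8243673) (nat_lit 492788) (nat_lit 35086468) (nat_lit 15331558)
 [(nat_lit 492788), (nat_lit 1567539), (nat_lit 3409709), (nat_lit 8085667)]) (PF.cons PF.nil (PF.cons PF.nil PF.nil)))) (PF.cons (PF.cons (PF.leaf (nat_lit 8630650) (nat_lit 1570540) (nat_lit 34317322) (nat_lit 15106288) [(nat_lit 0), (nat_lit 1570540), (nat_lit 3397377), (nat_lit 8005660)]) (PF.cons PF.nil PF.nil)) (PF.cons PF.nil PF.nil)))))) (PF.cons (PF.cons (PF.cons (PF.leaf (nat_lit 7082634) (nat_lit 3397627) (nat_lit 36422639) (nat_lit 15696920) [(nat_lit 0), (nat_lit 0), (nat_lit 3397627), (nat_lit 8193997)]) (PF.cons (PF.leaf (nat_lit 7350132) (nat_lit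 467864) (nat_lit 36075696) (nat_lit 15601768) [(nat_lit 467864), (nat_lit 0), (nat_lit 3399314), (nat_lit 8164854)]) (PF.cons (PF.leaf (nat_lit 7626824) (nat_lit 475958) (nat_lit 35720215) (nat_lit 15503071) [(nat_lit 475958), (nat_lit 0), (nat_lit 3399898), (nat_lit 8133811)]) (PF.cons (PF.leaf (nat_lit 7910536) (nat_lit 483024) (nat_lit 35358554) (nat_lit 15401420) [(nat_lit 483024), (nat_lit 0), (nat_lit 3399372), (nat_lit 8101019)]) (PF.cons (PF.leaf (nat_lit 8199957) (nat_lit 489223) (nat_lit 34992534) (nat_lit 15297279) [(nat_lit 489223), (nat_lit 0), (nat_lit 3397746), (nat_lit 8066613)]) PF.nil))))) (PF.cons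
 (PF.cons (PF.leaf (nat_lit 7735758) (nat_lit 1546426) (nat_lit 35301201) (nat_lit 15382515) [(nat_lit 0), (nat_lit 1546426), (nat_lit 3393457), (nat_lit 8091752)]) (PF.cons (PF.leaf (nat_lit 8013145) (nat_lit 482432) (nat_lit 34948891) (nat_lit 15282145) [(nat_lit 482432), (nat_lit 1552705), (nat_lit 3392034), (nat_lit 8058568)]) (PF.cons (PF.leaf (nat_lit 8297224) (nat_lit 488587) (nat_lit 34591499) (nat_lit 15179134) [(nat_lit 488587), (nat_lit 1558079), (nat_lit 3389580), (nat_lit 8023763)]) (PF.cons PF.nil PF.nil)))) (PF.cons (PF.cons (PF.leaf (nat_lit 8395229) (nat_lit 1556803) (nat_lit 34193393) (nat_lit 15060450) [(nat_lit 0), (nat_lit 1556803), (nat_lit 3380681), (nat_lit 7980000)]) (PF.cons (PF.leaf (nat_lit 8678701) (nat_lit 492996) (nat_lit 33841241) (nat_lit 14956520) [(nat_lit 492996), (nat_lit 1560777), (nat_lit 3376520), (nat_lit 7943459)]) PF.nil)) (PF.cons PF.nil (PF.cons PF.nil PF.nil))))) (PF.cons (PF.cons (PF.cons (PF.leaf (nat_lit 8171618) (nat_lit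 3363329) (nat_lit 34055498) (nat_lit 15010491) [(nat_lit 0), (nat_lit 0), (nat_lit 3363329), (nat_lit 7952834)]) (PF.cons (PF.leaf (nat_lit 8445483) (nat_lit 483102) (nat_lit 33717743) (nat_lit 14910629) [(nat_lit
 483102), (nat_lit 0), (nat_lit 3359837), (nat_lit 7917826)]) (PF.cons (PF.leaf (nat_lit 8725576) (nat_lit 488647) (nat_lit 33375555) (nat_lit 14808383) [(nat_lit 488647), (nat_lit 0), (nat_lit 3355411), (nat_lit 7881342)]) (PF.cons PF.nil PF.nil)))) (PF.cons (PF.cons (PF.leaf (nat_lit 8817564) (nat_lit 1548399) (nat_lit 32997466) (nat_lit 14691793) [(nat_lit 0), (nat_lit 1548399), (nat_lit 3344895), (nat_lit 7836466)]) (PF.cons PF.nil PF.nil)) (PF.cons PF.nil PF.nil))) (PF.cons (PF.cons (PF.cons (PF.leaf (nat_lit 9223876) (nat_lit 3305519) (nat_lit 31863944) (nat_lit 14331488) [(nat_lit 0), (nat_lit 0), (nat_lit 3305519), (nat_lit 7691302)]) (PF.cons PF.nil PF.nil)) (PF.cons PF.nil PF.nil)) (PF.cons PF.nil PF.nil)))))) (PF.cons (PF.cons (PF.cons (PF.cons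 (PF.leaf (nat_lit 6681067) (nat_lit 8041032) (nat_lit 35615803) (nat_lit 15410944) [(nat_lit 0), (nat_lit 0), (nat_lit 0), (nat_lit 8041032)]) (PF.cons (PF.leaf (nat_lit 6924796) (nat_lit 435838) (nat_lit 35313047) (nat_lit 15327321) [(nat_lit 435838), (nat_lit 0), (nat_lit 0), (nat_lit 8016302)]) (PF.cons (PF.leaf (nat_lit 7180989) (nat_lit 446512) (nat_lit 34997564) (nat_lit 15239215) [(nat_lit 446512), (nat_lit 0), (nat_lit 0),
 (nat_lit 7989504)]) (PF.cons (PF.leaf (nat_lit 7446719) (nat_lit 455734) (nat_lit 34672541) (nat_lit 15147420) [(nat_lit 455734), (nat_lit 0), (nat_lit 0), (nat_lit 7960823)]) (PF.cons (PF.leaf (nat_lit 7720178) (nat_lit 463773) (nat_lit 34340357) (nat_lit 15052537) [(nat_lit 463773), (nat_lit 0), (nat_lit 0), (nat_lit 7930412)]) (PF.cons (PF.leaf (nat_lit 7999941) (nat_lit 470819) (nat_lit 34002866) (nat_lit 14955043) [(nat_lit 470819), (nat_lit 0), (nat_lit 0), (nat_lit 7898401)]) (PF.cons PF.nil PF.nil))))))) (PF.cons (PF.cons (PF.leaf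 (nat_lit 7296751) (nat_lit 1490695) (nat_lit 34595513) (nat_lit 15122930) [(nat_lit 0), (nat_lit 1490695), (nat_lit 0), (nat_lit 7949836)]) (PF.cons (PF.leaf (nat_lit 7555352) (nat_lit 455538) (nat_lit 34279652) (nat_lit 15032529) [(nat_lit 455538), (nat_lit 1499492), (nat_lit 0), (nat_lit 7920800)]) (PF.cons (PF.leaf (nat_lit 7822986) (nat_lit 463540) (nat_lit 33955694) (nat_lit 14938809) [(nat_lit 463540), (nat_lit 1507231), (nat_lit 0), (nat_lit 7889998)]) (PF.cons (PF.leaf (nat_lit 8097537) (nat_lit 470512) (nat_lit 33625806) (nat_lit 14842338) [(nat_lit 470512), (nat_lit 1513950), (nat_lit 0), (nat_lit 7857589)]) (PF.cons (PF.leaf (nat_lit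
 8377680) (nat_lit 476615) (nat_lit 33291665) (nat_lit 14743566) [(nat_lit 476615), (nat_lit 1519700), (nat_lit 0), (nat_lit 7823709)]) PF.nil))))) (PF.cons (PF.cons (PF.leaf (nat_lit 7927137) (nat_lit 1507447) (nat_lit 33572611) (nat_lit 14824224) [(nat_lit 0), (nat_lit 1507447), (nat_lit 0), (nat_lit 7848540)]) (PF.cons (PF.leaf (nat_lit 8195520) (nat_lit 469865) (nat_lit 33251097) (nat_lit 14729075) [(nat_lit 469865), (nat_lit 1513497), (nat_lit 0), (nat_lit 7815889)]) (PF.cons (PF.leaf (nat_lit 8470504) (nat_lit 475926) (nat_lit 32924678) (nat_lit 14631474) [(nat_lit 475926), (nat_lit 1518650), (nat_lit 0), (nat_lit 7781753)]) (PF.cons PF.nil PF.nil)))) (PF.cons (PF.cons (PF.leaf (nat_lit 8564166) (nat_lit 1517184) (nat_lit 32560207) (nat_lit 14518978) [(nat_lit 0), (nat_lit 1517184), (nat_lit 0), (nat_lit 7739037)]) (PF.cons (PF.leaf (nat_lit 8838644) (nat_lit 480208) (nat_lit 32238170) (nat_lit 14420645) [(nat_lit 480208), (nat_lit 1520982), (nat_lit 0), (nat_lit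 7703420)]) PF.nil)) (PF.cons PF.nil PF.nil))))) (PF.cons (PF.cons (PF.cons (PF.leaf (nat_lit 7725518) (nat_lit 3287038) (nat_lit 33414979) (nat_lit 14768389) [(nat_lit 0), (nat_lit 0), (nat_lit 3287038), (nat_lit
 7819203)]) (PF.cons (PF.leaf (nat_lit 7981986) (nat_lit 457856) (nat_lit 33110420) (nat_lit 14678045) [(nat_lit 457856), (nat_lit 0), (nat_lit 3285900), (nat_lit 7788294)]) (PF.cons (PF.leaf (nat_lit 8246937) (nat_lit 465153) (nat_lit 32798605) (nat_lit 14584637) [(nat_lit 465153), (nat_lit 0), (nat_lit 3283790), (nat_lit 7755735)]) (PF.cons (PF.leaf (nat_lit 8518268) (nat_lit 471458) (nat_lit 32481579) (nat_lit 14488729) [(nat_lit 471458), (nat_lit 0), (nat_lit 3280722), (nat_lit 7721702)]) (PF.cons PF.nil PF.nil))))) (PF.cons (PF.cons (PF.leaf (nat_lit 8345339) (nat_lit 1502504) (nat_lit 32433498) (nat_lit 14471790) [(nat_lit 0), (nat_lit 1502504), (nat_lit 3275013), (nat_lit 7713003)]) (PF.cons (PF.leaf (nat_lit 8610532) (nat_lit 470363) (nat_lit 32124762)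 (nat_lit 14377381) [(nat_lit 470363), (nat_lit 1507146), (nat_lit 3271314), (nat_lit 7678922)]) (PF.cons (PF.leaf (nat_lit 8881856) (nat_lit 475838) (nat_lit 31811718) (nat_lit 14280749) [(nat_lit 475838), (nat_lit 1510968), (nat_lit 3266733), (nat_lit 7643482)]) (PF.cons PF.nil PF.nil)))) (PF.cons (PF.cons (PF.leaf (nat_lit 8969990) (nat_lit 1508516) (nat_lit 31465039) (nat_lit 14170488) [(nat_lit 0), (nat_lit 1508516),
 (nat_lit 3256212), (nat_lit 7600018)]) (PF.cons PF.nil PF.nil)) PF.nil))) (PF.cons (PF.cons (PF.cons (PF.leaf (nat_lit 8749049) (nat_lit 3240234) (nat_lit 31350725) (nat_lit 14126682) [(nat_lit 0), (nat_lit 0), (nat_lit 3240234), (nat_lit 7575468)]) (PF.cons (PF.leaf (nat_lit 9010764) (nat_lit 469843) (nat_lit 31054701) (nat_lit 14033440) [(nat_lit 469843), (nat_lit 0), (nat_lit 3235033), (nat_lit 7540379)]) (PF.cons PF.nil PF.nil))) (PF.cons (PF.cons (PF.leaf (nat_lit 9361189) (nat_lit 1497642) (nat_lit 30425324) (nat_lit 13830479) [(nat_lit 0), (nat_lit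 1497642), (nat_lit 3217442), (nat_lit 7460240)]) PF.nil) PF.nil)) (PF.cons PF.nil (PF.cons PF.nil PF.nil))))) (PF.cons (PF.cons (PF.cons (PF.cons (PF.leaf (nat_lit 8307730) (nat_lit 7457208) (nat_lit 30820574) (nat_lit 13916612) [(nat_lit 0), (nat_lit 0), (nat_lit 0), (nat_lit 7457208)]) (PF.cons (PF.leaf (nat_lit 8553852) (nat_lit 446472) (nat_lit 30552254) (nat_lit 13831983) [(nat_lit 446472), (nat_lit 0), (nat_lit 0), (nat_lit 7426034)]) (PF.cons (PF.leaf (nat_lit 8807870) (nat_lit 453124) (nat_lit 30277665) (nat_lit 13744670) [(nat_lit 453124), (nat_lit 0), (nat_lit 0), (nat_lit 7393409)]) (PF.cons (PF.leaf (nat_lit 9067739)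
 (nat_lit 458823) (nat_lit 29998591) (nat_lit 13655203) [(nat_lit 458823), (nat_lit 0), (nat_lit 0), (nat_lit 7359516)]) (PF.cons PF.nil PF.nil))))) (PF.cons (PF.cons (PF.leaf (nat_lit 8897532) (nat_lit 1456185) (nat_lit 29958036) (nat_lit 13640127) [(nat_lit 0), (nat_lit 1456185), (nat_lit 0), (nat_lit 7351487)]) (PF.cons (PF.leaf (nat_lit 9151475) (nat_lit 457399) (nat_lit 29686263) (nat_lit 13552228) [(nat_lit 457399), (nat_lit 1459654), (nat_lit 0), (nat_lit 7317755)]) (PF.cons PF.nil (PF.cons PF.nil PF.nil)))) (PF.cons (PF.cons (PF.leaf (nat_lit 9491174) (nat_lit 1459201) (nat_lit 29107231) (nat_lit 13360758) [(nat_lit 0), (nat_lit 1459201), (nat_lit 0), (nat_lit 7240806)]) (PF.cons PF.nil PF.nil)) PF.nil))) (PF.cons (PF.cons (PF.cons (PF.leaf (nat_lit 9274008) (nat_lit 3118300) (nat_lit 29011730) (nat_lit 13322431) [(nat_lit 0), (nat_lit 0), (nat_lit 3118300), (nat_lit 7218783)]) (PF.cons (PF.leaf (nat_lit 9524590) (nat_lit 456109) (nat_lit 28750945) (nat_lit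 13236007) [(nat_lit 456109), (nat_lit 0), (nat_lit 3112098), (nat_lit 7184550)]) PF.nil)) (PF.cons PF.nil PF.nil)) (PF.cons PF.nil PF.nil))) (PF.cons (PF.cons (PF.cons (PF.cons (PF.leaf (nat_lit 9756088) (nat_lit
 6885324) (nat_lit 26975176) (nat_lit 12592338) [(nat_lit 0), (nat_lit 0), (nat_lit 0), (nat_lit 6885324)]) (PF.cons PF.nil PF.nil)) (PF.cons PF.nil PF.nil)) (PF.cons PF.nil PF.nil)) (PF.cons PF.nil (PF.cons PF.nil (PF.cons PF.nil PF.nil))))))))

def p14_14_3_0 : pfC (piC [(nat_lit 38167130), (nat_lit 25010362), (nat_lit 18643303), (nat_lit 12552662)] (nat_lit 5158383)) p14_14_3 (nat_lit 4) (nat_lit 0) (nat_lit 1) = true := by decide +kernel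
def p14_14_3_1 : pfC (piC [(nat_lit 38167130), (nat_lit 25010362), (nat_lit 18643303), (nat_lit 12552662)] (nat_lit 5158383)) p14_14_3 (nat_lit 4) (nat_lit 1) (nat_lit 2) = true := by decide +kernel
def p14_14_3_2 : pfC (piC [(nat_lit 38167130), (nat_lit 25010362), (nat_lit 18643303), (nat_lit 12552662)] (nat_lit 5158383)) p14_14_3 (nat_lit 4) (nat_lit 2) (nat_lit 3) = true := by decide +kernel
def p14_14_3_3 : pfC (piC [(nat_lit 38167130), (nat_lit 25010362), (nat_lit 18643303), (nat_lit 12552662)] (nat_lit 5158383)) p14_14_3 (nat_lit 4) (nat_lit 3) (nat_lit 4) = true := by decide +kernel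
def p14_14_3_4 : pfC (piC [(nat_lit 38167130), (nat_lit 25010362), (nat_lit 18643303), (nat_lit 12552662)] (nat_lit 5158383)) p14_14_3 (nat_lit 4) (nat_lit 4) (nat_lit 5) = true := by decide +kernel
def p14_14_3_5 : pfC (piC [(nat_lit 38167130), (nat_lit 25010362), (nat_lit 18643303), (nat_lit 12552662)] (nat_lit 5158383)) p14_14_3 (nat_lit 4) (nat_lit 5) (nat_lit 6) = true := by decide +kernel
def p14_14_3_6 : pfC (piC [(nat_lit 38167130), (nat_lit 25010362), (nat_lit 18643303), (nat_lit 12552662)] (nat_lit 5158383)) p14_14_3 (nat_lit 4) (nat_lit 6) (nat_lit 7) = true := by decide +kernel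
def p14_14_3_7 : pfC (piC [(nat_lit 38167130), (nat_lit 25010362), (nat_lit 18643303), (nat_lit 12552662)] (nat_lit 5158383)) p14_14_3 (nat_lit 4) (nat_lit 7) (nat_lit 8) = true := by decide +kernel
def p14_14_3_8 : pfC (piC [(nat_lit 38167130), (nat_lit 25010362), (nat_lit 18643303), (nat_lit 12552662)] (nat_lit 5158383)) p14_14_3 (nat_lit 4) (nat_lit 8) (nat_lit 9) = true := by decide +kernel
def p14_14_3_9 : pfC (piC [(nat_lit 38167130), (nat_lit 25010362), (nat_lit 18643303), (nat_lit 12552662)] (nat_lit 5158383)) p14_14_3 (nat_lit 4) (nat_lit 9) (nat_lit 10) = true := by decide +kernel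
def p14_14_3_10 : pfC (piC [(nat_lit 38167130), (nat_lit 25010362), (nat_lit 18643303), (nat_lit 12552662)] (nat_lit 5158383)) p14_14_3 (nat_lit 4) (nat_lit 10) (nat_lit 11) = true := by decide +kernel
def p14_14_3_11 : pfC (piC [(nat_lit 38167130), (nat_lit 25010362), (nat_lit 18643303), (nat_lit 12552662)] (nat_lit 5158383)) p14_14_3 (nat_lit 4) (nat_lit 11) (nat_lit 12) = true := by decide +kernel
def p14_14_3_12 : pfC (piC [(nat_lit 38167130), (nat_lit 25010362), (nat_lit 18643303), (nat_lit 12552662)] (nat_lit 5158383)) p14_14_3 (nat_lit 4) (nat_lit 12) (nat_lit 13) = true := by decide +kernel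
def p14_14_3_13 : pfC (piC [(nat_lit 38167130), (nat_lit 25010362), (nat_lit 18643303), (nat_lit 12552662)] (nat_lit 5158383)) p14_14_3 (nat_lit 4) (nat_lit 13) (nat_lit 14) = true := by decide +kernel
def p14_14_3_14 : pfC (piC [(nat_lit 38167130), (nat_lit 25010362), (nat_lit 18643303), (nat_lit 12552662)] (nat_lit 5158383)) p14_14_3 (nat_lit 4) (nat_lit 14) (nat_lit 15) = true := by decide +kernel
def p14_14_3_15 : pfC (piC [(nat_lit 38167130), (nat_lit 25010362), (nat_lit 18643303), (nat_lit 12552662)] (nat_lit 5158383)) p14_14_3 (nat_lit 4) (nat_lit 15) (nat_lit 16) = true := by decide +kernel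
def p14_14_3_16 : pfC (piC [(nat_lit 38167130), (nat_lit 25010362), (nat_lit 18643303), (nat_lit 12552662)] (nat_lit 5158383)) p14_14_3 (nat_lit 4) (nat_lit 16) (nat_lit 17) = true := by decide +kernel
def p14_14_3_17 : pfC (piC [(nat_lit 38167130), (nat_lit 25010362), (nat_lit 18643303), (nat_lit 12552662)] (nat_lit 5158383)) p14_14_3 (nat_lit 4) (nat_lit 17) (nat_lit 18) = true := by decide +kernel
def p14_14_3_18 : pfC (piC [(nat_lit 38167130), (nat_lit 25010362), (nat_lit 18643303), (nat_lit 12552662)] (nat_lit 5158383)) p14_14_3 (nat_lit 4) (nat_lit 18) (nat_lit 19) = true := by decide +kernel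
def p14_14_3_19 : pfC (piC [(nat_lit 38167130), (nat_lit 25010362), (nat_lit 18643303), (nat_lit 12552662)] (nat_lit 5158383)) p14_14_3 (nat_lit 4) (nat_lit 19) (nat_lit 20) = true := by decide +kernel
def p14_14_3_20 : pfC (piC [(nat_lit 38167130), (nat_lit 25010362), (nat_lit 18643303), (nat_lit 12552662)] (nat_lit 5158383)) p14_14_3 (nat_lit 4) (nat_lit 20) (nat_lit 21) = true := by decide +kernel
def p14_14_3_21 : pfC (piC [(nat_lit 38167130), (nat_lit 25010362), (nat_lit 18643303), (nat_lit 12552662)] (nat_lit 5158383)) p14_14_3 (nat_lit 4) (nat_lit 21) (nat_lit 22) = true := by decide +kernel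
def p14_14_3_22 : pfC (piC [(nat_lit 38167130), (nat_lit 25010362), (nat_lit 18643303), (nat_lit 12552662)] (nat_lit 5158383)) p14_14_3 (nat_lit 4) (nat_lit 22) (nat_lit 23) = true := by decide +kernel
def p14_14_3_23 : pfC (piC [(nat_lit 38167130), (nat_lit 25010362), (nat_lit 18643303), (nat_lit 12552662)] (nat_lit 5158383)) p14_14_3 (nat_lit 4) (nat_lit 23) (nat_lit 24) = true := by decide +kernel
def p14_14_3_24 : pfC (piC [(nat_lit 38167130), (nat_lit 25010362), (nat_lit 18643303), (nat_lit 12552662)] (nat_lit 5158383)) p14_14_3 (nat_lit 4) (nat_lit 24) (nat_lit 25) = true := by decide +kernel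
def p14_14_3_25 : pfC (piC [(nat_lit 38167130), (nat_lit 25010362), (nat_lit 18643303), (nat_lit 12552662)] (nat_lit 5158383)) p14_14_3 (nat_lit 4) (nat_lit 25) (nat_lit 26) = true := by decide +kernel
def p14_14_3_26 : pfC (piC [(nat_lit 38167130), (nat_lit 25010362), (nat_lit 18643303), (nat_lit 12552662)] (nat_lit 5158383)) p14_14_3 (nat_lit 4) (nat_lit 26) (nat_lit 27) = true := by decide +kernel
def p14_14_3_27 : pfC (piC [(nat_lit 38167130), (nat_lit 25010362), (nat_lit 18643303), (nat_lit 12552662)] (nat_lit 5158383)) p14_14_3 (nat_lit 4) (nat_lit 27) (nat_lit 28) = true := by decide +kernel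
def p14_14_3_28 : pfC (piC [(nat_lit 38167130), (nat_lit 25010362), (nat_lit 18643303), (nat_lit 12552662)] (nat_lit 5158383)) p14_14_3 (nat_lit 4) (nat_lit 28) (nat_lit 29) = true := by decide +kernel
def p14_14_3_29 : pfC (piC [(nat_lit 38167130), (nat_lit 25010362), (nat_lit 18643303), (nat_lit 12552662)] (nat_lit 5158383)) p14_14_3 (nat_lit 4) (nat_lit 29) (nat_lit 30) = true := by decide +kernel
def p14_14_3_30 : pfC (piC [(nat_lit 38167130), (nat_lit 25010362), (nat_lit 18643303), (nat_lit 12552662)] (nat_lit 5158383)) p14_14_3 (nat_lit 4) (nat_lit 30) (nat_lit 31) = true := by decide +kernel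
def p14_14_3_31 : pfC (piC [(nat_lit 38167130), (nat_lit 25010362), (nat_lit 18643303), (nat_lit 12552662)] (nat_lit 5158383)) p14_14_3 (nat_lit 4) (nat_lit 31) (nat_lit 32) = true := by decide +kernel
def p14_14_3_32 : pfC (piC [(nat_lit 38167130), (nat_lit 25010362), (nat_lit 18643303), (nat_lit 12552662)] (nat_lit 5158383)) p14_14_3 (nat_lit 4) (nat_lit 32) (nat_lit 33) = true := by decide +kernel
def p14_14_3_33 : pfC (piC [(nat_lit 38167130), (nat_lit 25010362), (nat_lit 18643303), (nat_lit 12552662)] (nat_lit 5158383)) p14_14_3 (nat_lit 4) (nat_lit 33) (nat_lit 34) = true := by decide +kernel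
def p14_14_3_34 : pfC (piC [(nat_lit 38167130), (nat_lit 25010362), (nat_lit 18643303), (nat_lit 12552662)] (nat_lit 5158383)) p14_14_3 (nat_lit 4) (nat_lit 34) (nat_lit 35) = true := by decide +kernel
def p14_14_3_35 : pfC (piC [(nat_lit 38167130), (nat_lit 25010362), (nat_lit 18643303), (nat_lit 12552662)] (nat_lit 5158383)) p14_14_3 (nat_lit 4) (nat_lit 35) (nat_lit 36) = true := by decide +kernel
def p14_14_3_36 : pfC (piC [(nat_lit 38167130), (nat_lit 25010362), (nat_lit 18643303), (nat_lit 12552662)] (nat_lit 5158383)) p14_14_3 (nat_lit 4) (nat_lit 36) (nat_lit 37) = true := by decide +kernel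
def p14_14_3_37 : pfC (piC [(nat_lit 38167130), (nat_lit 25010362), (nat_lit 18643303), (nat_lit 12552662)] (nat_lit 5158383)) p14_14_3 (nat_lit 4) (nat_lit 37) (nat_lit 38) = true := by decide +kernel
def p14_14_3_38 : pfC (piC [(nat_lit 38167130), (nat_lit 25010362), (nat_lit 18643303), (nat_lit 12552662)] (nat_lit 5158383)) p14_14_3 (nat_lit 4) (nat_lit 38) (nat_lit 39) = true := by decide +kernel
def p14_14_3_39 : pfC (piC [(nat_lit 38167130), (nat_lit 25010362), (nat_lit 18643303), (nat_lit 12552662)] (nat_lit 5158383)) p14_14_3 (nat_lit 4) (nat_lit 39) (nat_lit 40) = true := by decide +kernel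
def p14_14_3_40 : pfC (piC [(nat_lit 38167130), (nat_lit 25010362), (nat_lit 18643303), (nat_lit 12552662)] (nat_lit 5158383)) p14_14_3 (nat_lit 4) (nat_lit 40) (nat_lit 41) = true := by decide +kernel
def p14_14_3_41 : pfC (piC [(nat_lit 38167130), (nat_lit 25010362), (nat_lit 18643303), (nat_lit 12552662)] (nat_lit 5158383)) p14_14_3 (nat_lit 4) (nat_lit 41) (nat_lit 42) = true := by decide +kernel
def p14_14_3_42 : pfC (piC [(nat_lit 38167130), (nat_lit 25010362), (nat_lit 18643303), (nat_lit 12552662)] (nat_lit 5158383)) p14_14_3 (nat_lit 4) (nat_lit 42) (nat_lit 43) = true := by decide +kernel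
def p14_14_3_43 : pfC (piC [(nat_lit 38167130), (nat_lit 25010362), (nat_lit 18643303), (nat_lit 12552662)] (nat_lit 5158383)) p14_14_3 (nat_lit 4) (nat_lit 43) (nat_lit 44) = true := by decide +kernel
def p14_14_3_44 : pfC (piC [(nat_lit 38167130), (nat_lit 25010362), (nat_lit 18643303), (nat_lit 12552662)] (nat_lit 5158383)) p14_14_3 (nat_lit 4) (nat_lit 44) (nat_lit 45) = true := by decide +kernel
def p14_14_3_45 : pfC (piC [(nat_lit 38167130), (nat_lit 25010362), (nat_lit 18643303), (nat_lit 12552662)] (nat_lit 5158383)) p14_14_3 (nat_lit 4) (nat_lit 45) (nat_lit 46) = true := by decide +kernel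
def p14_14_3_46 : pfC (piC [(nat_lit 38167130), (nat_lit 25010362), (nat_lit 18643303), (nat_lit 12552662)] (nat_lit 5158383)) p14_14_3 (nat_lit 4) (nat_lit 46) (nat_lit 47) = true := by decide +kernel
def p14_14_3_47 : pfC (piC [(nat_lit 38167130), (nat_lit 25010362), (nat_lit 18643303), (nat_lit 12552662)] (nat_lit 5158383)) p14_14_3 (nat_lit 4) (nat_lit 47) (nat_lit 48) = true := by decide +kernel
def p14_14_3_48 : pfC (piC [(nat_lit 38167130), (nat_lit 25010362), (nat_lit 18643303), (nat_lit 12552662)] (nat_lit 5158383)) p14_14_3 (nat_lit 4) (nat_lit 48) (nat_lit 49) = true := by decide +kernel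
def p14_14_3_49 : pfC (piC [(nat_lit 38167130), (nat_lit 25010362), (nat_lit 18643303), (nat_lit 12552662)] (nat_lit 5158383)) p14_14_3 (nat_lit 4) (nat_lit 49) (nat_lit 50) = true := by decide +kernel
def p14_14_3_50 : pfC (piC [(nat_lit 38167130), (nat_lit 25010362), (nat_lit 18643303), (nat_lit 12552662)] (nat_lit 5158383)) p14_14_3 (nat_lit 4) (nat_lit 50) (nat_lit 51) = true := by decide +kernel
def p14_14_3_51 : pfC (piC [(nat_lit 38167130), (nat_lit 25010362), (nat_lit 18643303), (nat_lit 12552662)] (nat_lit 5158383)) p14_14_3 (nat_lit 4) (nat_lit 51) (nat_lit 52) = true := by decide +kernel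
def p14_14_3_52 : pfC (piC [(nat_lit 38167130), (nat_lit 25010362), (nat_lit 18643303), (nat_lit 12552662)] (nat_lit 5158383)) p14_14_3 (nat_lit 4) (nat_lit 52) (nat_lit 53) = true := by decide +kernel
def p14_14_3_53 : pfC (piC [(nat_lit 38167130), (nat_lit 25010362), (nat_lit 18643303), (nat_lit 12552662)] (nat_lit 5158383)) p14_14_3 (nat_lit 4) (nat_lit 53) (nat_lit 54) = true := by decide +kernel
def p14_14_3_54 : pfC (piC [(nat_lit 38167130), (nat_lit 25010362), (nat_lit 18643303), (nat_lit 12552662)] (nat_lit 5158383)) p14_14_3 (nat_lit 4) (nat_lit 54) (nat_lit 55) = true := by decide +kernel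
def p14_14_3_55 : pfC (piC [(nat_lit 38167130), (nat_lit 25010362), (nat_lit 18643303), (nat_lit 12552662)] (nat_lit 5158383)) p14_14_3 (nat_lit 4) (nat_lit 55) (nat_lit 56) = true := by decide +kernel
def p14_14_3_56 : pfC (piC [(nat_lit 38167130), (nat_lit 25010362), (nat_lit 18643303), (nat_lit 12552662)] (nat_lit 5158383)) p14_14_3 (nat_lit 4) (nat_lit 56) (nat_lit 57) = true := by decide +kernel
def p14_14_3_57 : pfC (piC [(nat_lit 38167130), (nat_lit 25010362), (nat_lit 18643303), (nat_lit 12552662)] (nat_lit 5158383)) p14_14_3 (nat_lit 4) (nat_lit 57) (nat_lit 58) = true := by decide +kernel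
def p14_14_3_58 : pfC (piC [(nat_lit 38167130), (nat_lit 25010362), (nat_lit 18643303), (nat_lit 12552662)] (nat_lit 5158383)) p14_14_3 (nat_lit 4) (nat_lit 58) (nat_lit 59) = true := by decide +kernel
def p14_14_3_59 : pfC (piC [(nat_lit 38167130), (nat_lit 25010362), (nat_lit 18643303), (nat_lit 12552662)] (nat_lit 5158383)) p14_14_3 (nat_lit 4) (nat_lit 59) (nat_lit 60) = true := by decide +kernel
def p14_14_3_60 : pfC (piC [(nat_lit 38167130), (nat_lit 25010362), (nat_lit 18643303), (nat_lit 12552662)] (nat_lit 5158383)) p14_14_3 (nat_lit 4) (nat_lit 60) (nat_lit 61) = true := by decide +kernel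
def p14_14_3_61 : pfC (piC [(nat_lit 38167130), (nat_lit 25010362), (nat_lit 18643303), (nat_lit 12552662)] (nat_lit 5158383)) p14_14_3 (nat_lit 4) (nat_lit 61) (nat_lit 62) = true := by decide +kernel
def p14_14_3_62 : pfC (piC [(nat_lit 38167130), (nat_lit 25010362), (nat_lit 18643303), (nat_lit 12552662)] (nat_lit 5158383)) p14_14_3 (nat_lit 4) (nat_lit 62) (nat_lit 63) = true := by decide +kernel
def p14_14_3_63 : pfC (piC [(nat_lit 38167130), (nat_lit 25010362), (nat_lit 18643303), (nat_lit 12552662)] (nat_lit 5158383)) p14_14_3 (nat_lit 4) (nat_lit 63) (nat_lit 64) = true := by decide +kernel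
def p14_14_3_64 : pfC (piC [(nat_lit 38167130), (nat_lit 25010362), (nat_lit 18643303), (nat_lit 12552662)] (nat_lit 5158383)) p14_14_3 (nat_lit 4) (nat_lit 64) (nat_lit 65) = true := by decide +kernel
def p14_14_3_65 : pfC (piC [(nat_lit 38167130), (nat_lit 25010362), (nat_lit 18643303), (nat_lit 12552662)] (nat_lit 5158383)) p14_14_3 (nat_lit 4) (nat_lit 65) (nat_lit 66) = true := by decide +kernel
def p14_14_3_66 : pfC (piC [(nat_lit 38167130), (nat_lit 25010362), (nat_lit 18643303), (nat_lit 12552662)] (nat_lit 5158383)) p14_14_3 (nat_lit 4) (nat_lit 66) (nat_lit 67) = true := by decide +kernel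
def p14_14_3_67 : pfC (piC [(nat_lit 38167130), (nat_lit 25010362), (nat_lit 18643303), (nat_lit 12552662)] (nat_lit 5158383)) p14_14_3 (nat_lit 4) (nat_lit 67) (nat_lit 68) = true := by decide +kernel
def p14_14_3_68 : pfC (piC [(nat_lit 38167130), (nat_lit 25010362), (nat_lit 18643303), (nat_lit 12552662)] (nat_lit 5158383)) p14_14_3 (nat_lit 4) (nat_lit 68) (nat_lit 69) = true := by decide +kernel
def p14_14_3_69 : pfC (piC [(nat_lit 38167130), (nat_lit 25010362), (nat_lit 18643303), (nat_lit 12552662)] (nat_lit 5158383)) p14_14_3 (nat_lit 4) (nat_lit 69) (nat_lit 70) = true := by decide +kernel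
def p14_14_3_70 : pfC (piC [(nat_lit 38167130), (nat_lit 25010362), (nat_lit 18643303), (nat_lit 12552662)] (nat_lit 5158383)) p14_14_3 (nat_lit 4) (nat_lit 70) (nat_lit 71) = true := by decide +kernel
def p14_14_3_71 : pfC (piC [(nat_lit 38167130), (nat_lit 25010362), (nat_lit 18643303), (nat_lit 12552662)] (nat_lit 5158383)) p14_14_3 (nat_lit 4) (nat_lit 71) (nat_lit 72) = true := by decide +kernel
def p14_14_3_72 : pfC (piC [(nat_lit 38167130), (nat_lit 25010362), (nat_lit 18643303), (nat_lit 12552662)] (nat_lit 5158383)) p14_14_3 (nat_lit 4) (nat_lit 72) (nat_lit 73) = true := by decide +kernel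
def p14_14_3_73 : pfC (piC [(nat_lit 38167130), (nat_lit 25010362), (nat_lit 18643303), (nat_lit 12552662)] (nat_lit 5158383)) p14_14_3 (nat_lit 4) (nat_lit 73) (nat_lit 74) = true := by decide +kernel
def p14_14_3_74 : pfC (piC [(nat_lit 38167130), (nat_lit 25010362), (nat_lit 18643303), (nat_lit 12552662)] (nat_lit 5158383)) p14_14_3 (nat_lit 4) (nat_lit 74) (nat_lit 75) = true := by decide +kernel
def p14_14_3_75 : pfC (piC [(nat_lit 38167130), (nat_lit 25010362), (nat_lit 18643303), (nat_lit 12552662)] (nat_lit 5158383)) p14_14_3 (nat_lit 4) (nat_lit 75) (nat_lit 76) = true := by decide +kernel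
def p14_14_3_76 : pfC (piC [(nat_lit 38167130), (nat_lit 25010362), (nat_lit 18643303), (nat_lit 12552662)] (nat_lit 5158383)) p14_14_3 (nat_lit 4) (nat_lit 76) (nat_lit 77) = true := by decide +kernel
def p14_14_3_77 : pfC (piC [(nat_lit 38167130), (nat_lit 25010362), (nat_lit 18643303), (nat_lit 12552662)] (nat_lit 5158383)) p14_14_3 (nat_lit 4) (nat_lit 77) (nat_lit 78) = true := by decide +kernel
def p14_14_3_78 : pfC (piC [(nat_lit 38167130), (nat_lit 25010362), (nat_lit 18643303), (nat_lit 12552662)] (nat_lit 5158383)) p14_14_3 (nat_lit 4) (nat_lit 78) (nat_lit 79) = true := by decide +kernel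
def p14_14_3_79 : pfC (piC [(nat_lit 38167130), (nat_lit 25010362), (nat_lit 18643303), (nat_lit 12552662)] (nat_lit 5158383)) p14_14_3 (nat_lit 4) (nat_lit 79) (nat_lit 80) = true := by decide +kernel
def p14_14_3_80 : pfC (piC [(nat_lit 38167130), (nat_lit 25010362), (nat_lit 18643303), (nat_lit 12552662)] (nat_lit 5158383)) p14_14_3 (nat_lit 4) (nat_lit 80) (nat_lit 81) = true := by decide +kernel
def p14_14_3_81 : pfC (piC [(nat_lit 38167130), (nat_lit 25010362), (nat_lit 18643303), (nat_lit 12552662)] (nat_lit 5158383)) p14_14_3 (nat_lit 4) (nat_lit 81) (nat_lit 82) = true := by decide +kernel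
def p14_14_3_82 : pfC (piC [(nat_lit 38167130), (nat_lit 25010362), (nat_lit 18643303), (nat_lit 12552662)] (nat_lit 5158383)) p14_14_3 (nat_lit 4) (nat_lit 82) (nat_lit 83) = true := by decide +kernel
def p14_14_3_83 : pfC (piC [(nat_lit 38167130), (nat_lit 25010362), (nat_lit 18643303), (nat_lit 12552662)] (nat_lit 5158383)) p14_14_3 (nat_lit 4) (nat_lit 83) (nat_lit 84) = true := by decide +kernel
def p14_14_3_84 : pfC (piC [(nat_lit 38167130), (nat_lit 25010362), (nat_lit 18643303), (nat_lit 12552662)] (nat_lit 5158383)) p14_14_3 (nat_lit 4) (nat_lit 84) (nat_lit 85) = true := by decide +kernel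
def p14_14_3_85 : pfC (piC [(nat_lit 38167130), (nat_lit 25010362), (nat_lit 18643303), (nat_lit 12552662)] (nat_lit 5158383)) p14_14_3 (nat_lit 4) (nat_lit 85) (nat_lit 86) = true := by decide +kernel
def p14_14_3_86 : pfC (piC [(nat_lit 38167130), (nat_lit 25010362), (nat_lit 18643303), (nat_lit 12552662)] (nat_lit 5158383)) p14_14_3 (nat_lit 4) (nat_lit 86) (nat_lit 87) = true := by decide +kernel
def p14_14_3_87 : pfC (piC [(nat_lit 38167130), (nat_lit 25010362), (nat_lit 18643303), (nat_lit 12552662)] (nat_lit 5158383)) p14_14_3 (nat_lit 4) (nat_lit 87) (nat_lit 88) = true := by decide +kernel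
def p14_14_3_88 : pfC (piC [(nat_lit 38167130), (nat_lit 25010362), (nat_lit 18643303), (nat_lit 12552662)] (nat_lit 5158383)) p14_14_3 (nat_lit 4) (nat_lit 88) (nat_lit 89) = true := by decide +kernel
def p14_14_3_89 : pfC (piC [(nat_lit 38167130), (nat_lit 25010362), (nat_lit 18643303), (nat_lit 12552662)] (nat_lit 5158383)) p14_14_3 (nat_lit 4) (nat_lit 89) (nat_lit 90) = true := by decide +kernel
def p14_14_3_90 : pfC (piC [(nat_lit 38167130), (nat_lit 25010362), (nat_lit 18643303), (nat_lit 12552662)] (nat_lit 5158383)) p14_14_3 (nat_lit 4) (nat_lit 90) (nat_lit 91) = true := by decide +kernel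
def p14_14_3_91 : pfC (piC [(nat_lit 38167130), (nat_lit 25010362), (nat_lit 18643303), (nat_lit 12552662)] (nat_lit 5158383)) p14_14_3 (nat_lit 4) (nat_lit 91) (nat_lit 92) = true := by decide +kernel
def p14_14_3_92 : pfC (piC [(nat_lit 38167130), (nat_lit 25010362), (nat_lit 18643303), (nat_lit 12552662)] (nat_lit 5158383)) p14_14_3 (nat_lit 4) (nat_lit 92) (nat_lit 93) = true := by decide +kernel
def p14_14_3_93 : pfC (piC [(nat_lit 38167130), (nat_lit 25010362), (nat_lit 18643303), (nat_lit 12552662)] (nat_lit 5158383)) p14_14_3 (nat_lit 4) (nat_lit 93) (nat_lit 94) = true := by decide +kernel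
def p14_14_3_94 : pfC (piC [(nat_lit 38167130), (nat_lit 25010362), (nat_lit 18643303), (nat_lit 12552662)] (nat_lit 5158383)) p14_14_3 (nat_lit 4) (nat_lit 94) (nat_lit 95) = true := by decide +kernel
def p14_14_3_95 : pfC (piC [(nat_lit 38167130), (nat_lit 25010362), (nat_lit 18643303), (nat_lit 12552662)] (nat_lit 5158383)) p14_14_3 (nat_lit 4) (nat_lit 95) (nat_lit 96) = true := by decide +kernel
def p14_14_3_96 : pfC (piC [(nat_lit 38167130), (nat_lit 25010362), (nat_lit 18643303), (nat_lit 12552662)] (nat_lit 5158383)) p14_14_3 (nat_lit 4) (nat_lit 96) (nat_lit 97) = true := by decide +kernel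
def p14_14_3_97 : pfC (piC [(nat_lit 38167130), (nat_lit 25010362), (nat_lit 18643303), (nat_lit 12552662)] (nat_lit 5158383)) p14_14_3 (nat_lit 4) (nat_lit 97) (nat_lit 98) = true := by decide +kernel
def p14_14_3_98 : pfC (piC [(nat_lit 38167130), (nat_lit 25010362), (nat_lit 18643303), (nat_lit 12552662)] (nat_lit 5158383)) p14_14_3 (nat_lit 4) (nat_lit 98) (nat_lit 99) = true := by decide +kernel
def p14_14_3_99 : pfC (piC [(nat_lit 38167130), (nat_lit 25010362), (nat_lit 18643303), (nat_lit 12552662)] (nat_lit 5158383)) p14_14_3 (nat_lit 4) (nat_lit 99) (nat_lit 100) = true := by decide +kernel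
def p14_14_3_100 : pfC (piC [(nat_lit 38167130), (nat_lit 25010362), (nat_lit 18643303), (nat_lit 12552662)] (nat_lit 5158383)) p14_14_3 (nat_lit 4) (nat_lit 100) (nat_lit 101) = true := by decide +kernel
def p14_14_3_101 : pfC (piC [(nat_lit 38167130), (nat_lit 25010362), (nat_lit 18643303), (nat_lit 12552662)] (nat_lit 5158383)) p14_14_3 (nat_lit 4) (nat_lit 101) (nat_lit 102) = true := by decide +kernel
def p14_14_3_102 : pfC (piC [(nat_lit 38167130), (nat_lit 25010362), (nat_lit 18643303), (nat_lit 12552662)] (nat_lit 5158383)) p14_14_3 (nat_lit 4) (nat_lit 102) (nat_lit 103) = true := by decide +kernel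
def p14_14_3_103 : pfC (piC [(nat_lit 38167130), (nat_lit 25010362), (nat_lit 18643303), (nat_lit 12552662)] (nat_lit 5158383)) p14_14_3 (nat_lit 4) (nat_lit 103) (nat_lit 104) = true := by decide +kernel
def p14_14_3_104 : pfC (piC [(nat_lit 38167130), (nat_lit 25010362), (nat_lit 18643303), (nat_lit 12552662)] (nat_lit 5158383)) p14_14_3 (nat_lit 4) (nat_lit 104) (nat_lit 105) = true := by decide +kernel
def p14_14_3_105 : pfC (piC [(nat_lit 38167130), (nat_lit 25010362), (nat_lit 18643303), (nat_lit 12552662)] (nat_lit 5158383)) p14_14_3 (nat_lit 4) (nat_lit 105) (nat_lit 106) = true := by decide +kernel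
def p14_14_3_106 : pfC (piC [(nat_lit 38167130), (nat_lit 25010362), (nat_lit 18643303), (nat_lit 12552662)] (nat_lit 5158383)) p14_14_3 (nat_lit 4) (nat_lit 106) (nat_lit 107) = true := by decide +kernel
def p14_14_3_107 : pfC (piC [(nat_lit 38167130), (nat_lit 25010362), (nat_lit 18643303), (nat_lit 12552662)] (nat_lit 5158383)) p14_14_3 (nat_lit 4) (nat_lit 107) (nat_lit 108) = true := by decide +kernel
def p14_14_3_108 : pfC (piC [(nat_lit 38167130), (nat_lit 25010362), (nat_lit 18643303), (nat_lit 12552662)] (nat_lit 5158383)) p14_14_3 (nat_lit 4) (nat_lit 108) (nat_lit 109) = true := by decide +kernel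
def p14_14_3_109 : pfC (piC [(nat_lit 38167130), (nat_lit 25010362), (nat_lit 18643303), (nat_lit 12552662)] (nat_lit 5158383)) p14_14_3 (nat_lit 4) (nat_lit 109) (nat_lit 110) = true := by decide +kernel
def p14_14_3_110 : pfC (piC [(nat_lit 38167130), (nat_lit 25010362), (nat_lit 18643303), (nat_lit 12552662)] (nat_lit 5158383)) p14_14_3 (nat_lit 4) (nat_lit 110) (nat_lit 111) = true := by decide +kernel
def p14_14_3_111 : pfC (piC [(nat_lit 38167130), (nat_lit 25010362), (nat_lit 18643303), (nat_lit 12552662)] (nat_lit 5158383)) p14_14_3 (nat_lit 4) (nat_lit 111) (nat_lit 112) = true := by decide +kernel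
def p14_14_3_112 : pfC (piC [(nat_lit 38167130), (nat_lit 25010362), (nat_lit 18643303), (nat_lit 12552662)] (nat_lit 5158383)) p14_14_3 (nat_lit 4) (nat_lit 112) (nat_lit 113) = true := by decide +kernel
def p14_14_3_113 : pfC (piC [(nat_lit 38167130), (nat_lit 25010362), (nat_lit 18643303), (nat_lit 12552662)] (nat_lit 5158383)) p14_14_3 (nat_lit 4) (nat_lit 113) (nat_lit 114) = true := by decide +kernel
def p14_14_3_114 : pfC (piC [(nat_lit 38167130), (nat_lit 25010362), (nat_lit 18643303), (nat_lit 12552662)] (nat_lit 5158383)) p14_14_3 (nat_lit 4) (nat_lit 114) (nat_lit 115) = true := by decide +kernel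
def p14_14_3_115 : pfC (piC [(nat_lit 38167130), (nat_lit 25010362), (nat_lit 18643303), (nat_lit 12552662)] (nat_lit 5158383)) p14_14_3 (nat_lit 4) (nat_lit 115) (nat_lit 116) = true := by decide +kernel
def p14_14_3_116 : pfC (piC [(nat_lit 38167130), (nat_lit 25010362), (nat_lit 18643303), (nat_lit 12552662)] (nat_lit 5158383)) p14_14_3 (nat_lit 4) (nat_lit 116) (nat_lit 117) = true := by decide +kernel
def p14_14_3_117 : pfC (piC [(nat_lit 38167130), (nat_lit 25010362), (nat_lit 18643303), (nat_lit 12552662)] (nat_lit 5158383)) p14_14_3 (nat_lit 4) (nat_lit 117) (nat_lit 118) = true := by decide +kernel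
def p14_14_3_118 : pfC (piC [(nat_lit 38167130), (nat_lit 25010362), (nat_lit 18643303), (nat_lit 12552662)] (nat_lit 5158383)) p14_14_3 (nat_lit 4) (nat_lit 118) (nat_lit 119) = true := by decide +kernel
def p14_14_3_119 : pfC (piC [(nat_lit 38167130), (nat_lit 25010362), (nat_lit 18643303), (nat_lit 12552662)] (nat_lit 5158383)) p14_14_3 (nat_lit 4) (nat_lit 119) (nat_lit 120) = true := by decide +kernel
def p14_14_3_120 : pfC (piC [(nat_lit 38167130), (nat_lit 25010362), (nat_lit 18643303), (nat_lit 12552662)] (nat_lit 5158383)) p14_14_3 (nat_lit 4) (nat_lit 120) (nat_lit 121) = true := by decide +kernel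
def p14_14_3_121 : pfC (piC [(nat_lit 38167130), (nat_lit 25010362), (nat_lit 18643303), (nat_lit 12552662)] (nat_lit 5158383)) p14_14_3 (nat_lit 4) (nat_lit 121) (nat_lit 122) = true := by decide +kernel
def p14_14_3_122 : pfC (piC [(nat_lit 38167130), (nat_lit 25010362), (nat_lit 18643303), (nat_lit 12552662)] (nat_lit 5158383)) p14_14_3 (nat_lit 4) (nat_lit 122) (nat_lit 123) = true := by decide +kernel
def p14_14_3_123 : pfC (piC [(nat_lit 38167130), (nat_lit 25010362), (nat_lit 18643303), (nat_lit 12552662)] (nat_lit 5158383)) p14_14_3 (nat_lit 4) (nat_lit 123) (nat_lit 124) = true := by decide +kernel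
def p14_14_3_124 : pfC (piC [(nat_lit 38167130), (nat_lit 25010362), (nat_lit 18643303), (nat_lit 12552662)] (nat_lit 5158383)) p14_14_3 (nat_lit 4) (nat_lit 124) (nat_lit 125) = true := by decide +kernel
def p14_14_3_125 : pfC (piC [(nat_lit 38167130), (nat_lit 25010362), (nat_lit 18643303), (nat_lit 12552662)] (nat_lit 5158383)) p14_14_3 (nat_lit 4) (nat_lit 125) (nat_lit 126) = true := by decide +kernel
def p14_14_3_126 : pfC (piC [(nat_lit 38167130), (nat_lit 25010362), (nat_lit 18643303), (nat_lit 12552662)] (nat_lit 5158383)) p14_14_3 (nat_lit 4) (nat_lit 126) (nat_lit 127) = true := by decide +kernel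
def p14_14_3_127 : pfC (piC [(nat_lit 38167130), (nat_lit 25010362), (nat_lit 18643303), (nat_lit 12552662)] (nat_lit 5158383)) p14_14_3 (nat_lit 4) (nat_lit 127) (nat_lit 128) = true := by decide +kernel
def p14_14_3_128 : pfC (piC [(nat_lit 38167130), (nat_lit 25010362), (nat_lit 18643303), (nat_lit 12552662)] (nat_lit 5158383)) p14_14_3 (nat_lit 4) (nat_lit 128) (nat_lit 129) = true := by decide +kernel
def p14_14_3_129 : pfC (piC [(nat_lit 38167130), (nat_lit 25010362), (nat_lit 18643303), (nat_lit 12552662)] (nat_lit 5158383)) p14_14_3 (nat_lit 4) (nat_lit 129) (nat_lit 130) = true := by decide +kernel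
def p14_14_3_130 : pfC (piC [(nat_lit 38167130), (nat_lit 25010362), (nat_lit 18643303), (nat_lit 12552662)] (nat_lit 5158383)) p14_14_3 (nat_lit 4) (nat_lit 130) (nat_lit 131) = true := by decide +kernel
def p14_14_3_131 : pfC (piC [(nat_lit 38167130), (nat_lit 25010362), (nat_lit 18643303), (nat_lit 12552662)] (nat_lit 5158383)) p14_14_3 (nat_lit 4) (nat_lit 131) (nat_lit 132) = true := by decide +kernel
def p14_14_3_132 : pfC (piC [(nat_lit 38167130), (nat_lit 25010362), (nat_lit 18643303), (nat_lit 12552662)] (nat_lit 5158383)) p14_14_3 (nat_lit 4) (nat_lit 132) (nat_lit 133) = true := by decide +kernel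
def p14_14_3_133 : pfC (piC [(nat_lit 38167130), (nat_lit 25010362), (nat_lit 18643303), (nat_lit 12552662)] (nat_lit 5158383)) p14_14_3 (nat_lit 4) (nat_lit 133) (nat_lit 134) = true := by decide +kernel
def p14_14_3_134 : pfC (piC [(nat_lit 38167130), (nat_lit 25010362), (nat_lit 18643303), (nat_lit 12552662)] (nat_lit 5158383)) p14_14_3 (nat_lit 4) (nat_lit 134) (nat_lit 135) = true := by decide +kernel
def p14_14_3_135 : pfC (piC [(nat_lit 38167130), (nat_lit 25010362), (nat_lit 18643303), (nat_lit 12552662)] (nat_lit 5158383)) p14_14_3 (nat_lit 4) (nat_lit 135) (nat_lit 136) = true := by decide +kernel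
def p14_14_3_136 : pfC (piC [(nat_lit 38167130), (nat_lit 25010362), (nat_lit 18643303), (nat_lit 12552662)] (nat_lit 5158383)) p14_14_3 (nat_lit 4) (nat_lit 136) (nat_lit 137) = true := by decide +kernel
def p14_14_3_137 : pfC (piC [(nat_lit 38167130), (nat_lit 25010362), (nat_lit 18643303), (nat_lit 12552662)] (nat_lit 5158383)) p14_14_3 (nat_lit 4) (nat_lit 137) (nat_lit 138) = true := by decide +kernel
def p14_14_3_138 : pfC (piC [(nat_lit 38167130), (nat_lit 25010362), (nat_lit 18643303), (nat_lit 12552662)] (nat_lit 5158383)) p14_14_3 (nat_lit 4) (nat_lit 138) (nat_lit 139) = true := by decide +kernel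
def p14_14_3_139 : pfC (piC [(nat_lit 38167130), (nat_lit 25010362), (nat_lit 18643303), (nat_lit 12552662)] (nat_lit 5158383)) p14_14_3 (nat_lit 4) (nat_lit 139) (nat_lit 140) = true := by decide +kernel
def p14_14_3_140 : pfC (piC [(nat_lit 38167130), (nat_lit 25010362), (nat_lit 18643303), (nat_lit 12552662)] (nat_lit 5158383)) p14_14_3 (nat_lit 4) (nat_lit 140) (nat_lit 141) = true := by decide +kernel
def p14_14_3_141 : pfC (piC [(nat_lit 38167130), (nat_lit 25010362), (nat_lit 18643303), (nat_lit 12552662)] (nat_lit 5158383)) p14_14_3 (nat_lit 4) (nat_lit 141) (nat_lit 142) = true := by decide +kernel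
def p14_14_3_142 : pfC (piC [(nat_lit 38167130), (nat_lit 25010362), (nat_lit 18643303), (nat_lit 12552662)] (nat_lit 5158383)) p14_14_3 (nat_lit 4) (nat_lit 142) (nat_lit 143) = true := by decide +kernel
def p14_14_3_143 : pfC (piC [(nat_lit 38167130), (nat_lit 25010362), (nat_lit 18643303), (nat_lit 12552662)] (nat_lit 5158383)) p14_14_3 (nat_lit 4) (nat_lit 143) (nat_lit 144) = true := by decide +kernel
def p14_14_3_144 : pfC (piC [(nat_lit 38167130), (nat_lit 25010362), (nat_lit 18643303), (nat_lit 12552662)] (nat_lit 5158383)) p14_14_3 (nat_lit 4) (nat_lit 144) (nat_lit 145) = true := by decide +kernel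
def p14_14_3_145 : pfC (piC [(nat_lit 38167130), (nat_lit 25010362), (nat_lit 18643303), (nat_lit 12552662)] (nat_lit 5158383)) p14_14_3 (nat_lit 4) (nat_lit 145) (nat_lit 146) = true := by decide +kernel
def p14_14_3_146 : pfC (piC [(nat_lit 38167130), (nat_lit 25010362), (nat_lit 18643303), (nat_lit 12552662)] (nat_lit 5158383)) p14_14_3 (nat_lit 4) (nat_lit 146) (nat_lit 147) = true := by decide +kernel
def p14_14_3_147 : pfC (piC [(nat_lit 38167130), (nat_lit 25010362), (nat_lit 18643303), (nat_lit 12552662)] (nat_lit 5158383)) p14_14_3 (nat_lit 4) (nat_lit 147) (nat_lit 148) = true := by decide +kernel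
def p14_14_3_148 : pfC (piC [(nat_lit 38167130), (nat_lit 25010362), (nat_lit 18643303), (nat_lit 12552662)] (nat_lit 5158383)) p14_14_3 (nat_lit 4) (nat_lit 148) (nat_lit 149) = true := by decide +kernel
def p14_14_3_149 : pfC (piC [(nat_lit 38167130), (nat_lit 25010362), (nat_lit 18643303), (nat_lit 12552662)] (nat_lit 5158383)) p14_14_3 (nat_lit 4) (nat_lit 149) (nat_lit 150) = true := by decide +kernel
def p14_14_3_150 : pfC (piC [(nat_lit 38167130), (nat_lit 25010362), (nat_lit 18643303), (nat_lit 12552662)] (nat_lit 5158383)) p14_14_3 (nat_lit 4) (nat_lit 150) (nat_lit 151) = true := by decide +kernel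
def p14_14_3_151 : pfC (piC [(nat_lit 38167130), (nat_lit 25010362), (nat_lit 18643303), (nat_lit 12552662)] (nat_lit 5158383)) p14_14_3 (nat_lit 4) (nat_lit 151) (nat_lit 152) = true := by decide +kernel
def p14_14_3_152 : pfC (piC [(nat_lit 38167130), (nat_lit 25010362), (nat_lit 18643303), (nat_lit 12552662)] (nat_lit 5158383)) p14_14_3 (nat_lit 4) (nat_lit 152) (nat_lit 153) = true := by decide +kernel
def p14_14_3_153 : pfC (piC [(nat_lit 38167130), (nat_lit 25010362), (nat_lit 18643303), (nat_lit 12552662)] (nat_lit 5158383)) p14_14_3 (nat_lit 4) (nat_lit 153) (nat_lit 154) = true := by decide +kernel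
def p14_14_3_154 : pfC (piC [(nat_lit 38167130), (nat_lit 25010362), (nat_lit 18643303), (nat_lit 12552662)] (nat_lit 5158383)) p14_14_3 (nat_lit 4) (nat_lit 154) (nat_lit 155) = true := by decide +kernel
def p14_14_3_155 : pfC (piC [(nat_lit 38167130), (nat_lit 25010362), (nat_lit 18643303), (nat_lit 12552662)] (nat_lit 5158383)) p14_14_3 (nat_lit 4) (nat_lit 155) (nat_lit 156) = true := by decide +kernel
def p14_14_3_156 : pfC (piC [(nat_lit 38167130), (nat_lit 25010362), (nat_lit 18643303), (nat_lit 12552662)] (nat_lit 5158383)) p14_14_3 (nat_lit 4) (nat_lit 156) (nat_lit 157) = true := by decide +kernel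
def p14_14_3_157 : pfC (piC [(nat_lit 38167130), (nat_lit 25010362), (nat_lit 18643303), (nat_lit 12552662)] (nat_lit 5158383)) p14_14_3 (nat_lit 4) (nat_lit 157) (nat_lit 158) = true := by decide +kernel
def p14_14_3_158 : pfC (piC [(nat_lit 38167130), (nat_lit 25010362), (nat_lit 18643303), (nat_lit 12552662)] (nat_lit 5158383)) p14_14_3 (nat_lit 4) (nat_lit 158) (nat_lit 159) = true := by decide +kernel
def p14_14_3_159 : pfC (piC [(nat_lit 38167130), (nat_lit 25010362), (nat_lit 18643303), (nat_lit 12552662)] (nat_lit 5158383)) p14_14_3 (nat_lit 4) (nat_lit 159) (nat_lit 160) = true := by decide +kernel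
def p14_14_3_160 : pfC (piC [(nat_lit 38167130), (nat_lit 25010362), (nat_lit 18643303), (nat_lit 12552662)] (nat_lit 5158383)) p14_14_3 (nat_lit 4) (nat_lit 160) (nat_lit 161) = true := by decide +kernel
def p14_14_3_161 : pfC (piC [(nat_lit 38167130), (nat_lit 25010362), (nat_lit 18643303), (nat_lit 12552662)] (nat_lit 5158383)) p14_14_3 (nat_lit 4) (nat_lit 161) (nat_lit 162) = true := by decide +kernel
def p14_14_3_162 : pfC (piC [(nat_lit 38167130), (nat_lit 25010362), (nat_lit 18643303), (nat_lit 12552662)] (nat_lit 5158383)) p14_14_3 (nat_lit 4) (nat_lit 162) (nat_lit 163) = true := by decide +kernel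
def p14_14_3_163 : pfC (piC [(nat_lit 38167130), (nat_lit 25010362), (nat_lit 18643303), (nat_lit 12552662)] (nat_lit 5158383)) p14_14_3 (nat_lit 4) (nat_lit 163) (nat_lit 164) = true := by decide +kernel
def p14_14_3_164 : pfC (piC [(nat_lit 38167130), (nat_lit 25010362), (nat_lit 18643303), (nat_lit 12552662)] (nat_lit 5158383)) p14_14_3 (nat_lit 4) (nat_lit 164) (nat_lit 165) = true := by decide +kernel
def p14_14_3_165 : pfC (piC [(nat_lit 38167130), (nat_lit 25010362), (nat_lit 18643303), (nat_lit 12552662)] (nat_lit 5158383)) p14_14_3 (nat_lit 4) (nat_lit 165) (nat_lit 166) = true := by decide +kernel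
def p14_14_3_166 : pfC (piC [(nat_lit 38167130), (nat_lit 25010362), (nat_lit 18643303), (nat_lit 12552662)] (nat_lit 5158383)) p14_14_3 (nat_lit 4) (nat_lit 166) (nat_lit 167) = true := by decide +kernel
def p14_14_3_167 : pfC (piC [(nat_lit 38167130), (nat_lit 25010362), (nat_lit 18643303), (nat_lit 12552662)] (nat_lit 5158383)) p14_14_3 (nat_lit 4) (nat_lit 167) (nat_lit 168) = true := by decide +kernel
def p14_14_3_168 : pfC (piC [(nat_lit 38167130), (nat_lit 25010362), (nat_lit 18643303), (nat_lit 12552662)] (nat_lit 5158383)) p14_14_3 (nat_lit 4) (nat_lit 168) (nat_lit 169) = true := by decide +kernel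
def p14_14_3_169 : pfC (piC [(nat_lit 38167130), (nat_lit 25010362), (nat_lit 18643303), (nat_lit 12552662)] (nat_lit 5158383)) p14_14_3 (nat_lit 4) (nat_lit 169) (nat_lit 170) = true := by decide +kernel
def p14_14_3_170 : pfC (piC [(nat_lit 38167130), (nat_lit 25010362), (nat_lit 18643303), (nat_lit 12552662)] (nat_lit 5158383)) p14_14_3 (nat_lit 4) (nat_lit 170) (nat_lit 171) = true := by decide +kernel
def p14_14_3_171 : pfC (piC [(nat_lit 38167130), (nat_lit 25010362), (nat_lit 18643303), (nat_lit 12552662)] (nat_lit 5158383)) p14_14_3 (nat_lit 4) (nat_lit 171) (nat_lit 172) = true := by decide +kernel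
def p14_14_3_172 : pfC (piC [(nat_lit 38167130), (nat_lit 25010362), (nat_lit 18643303), (nat_lit 12552662)] (nat_lit 5158383)) p14_14_3 (nat_lit 4) (nat_lit 172) (nat_lit 173) = true := by decide +kernel
def p14_14_3_173 : pfC (piC [(nat_lit 38167130), (nat_lit 25010362), (nat_lit 18643303), (nat_lit 12552662)] (nat_lit 5158383)) p14_14_3 (nat_lit 4) (nat_lit 173) (nat_lit 174) = true := by decide +kernel
def p14_14_3_174 : pfC (piC [(nat_lit 38167130), (nat_lit 25010362), (nat_lit 18643303), (nat_lit 12552662)] (nat_lit 5158383)) p14_14_3 (nat_lit 4) (nat_lit 174) (nat_lit 175) = true := by decide +kernel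
def p14_14_3_175 : pfC (piC [(nat_lit 38167130), (nat_lit 25010362), (nat_lit 18643303), (nat_lit 12552662)] (nat_lit 5158383)) p14_14_3 (nat_lit 4) (nat_lit 175) (nat_lit 176) = true := by decide +kernel
def p14_14_3_176 : pfC (piC [(nat_lit 38167130), (nat_lit 25010362), (nat_lit 18643303), (nat_lit 12552662)] (nat_lit 5158383)) p14_14_3 (nat_lit 4) (nat_lit 176) (nat_lit 177) = true := by decide +kernel
def p14_14_3_177 : pfC (piC [(nat_lit 38167130), (nat_lit 25010362), (nat_lit 18643303), (nat_lit 12552662)] (nat_lit 5158383)) p14_14_3 (nat_lit 4) (nat_lit 177) (nat_lit 178) = true := by decide +kernel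
def p14_14_3_178 : pfC (piC [(nat_lit 38167130), (nat_lit 25010362), (nat_lit 18643303), (nat_lit 12552662)] (nat_lit 5158383)) p14_14_3 (nat_lit 4) (nat_lit 178) (nat_lit 179) = true := by decide +kernel
def p14_14_3_179 : pfC (piC [(nat_lit 38167130), (nat_lit 25010362), (nat_lit 18643303), (nat_lit 12552662)] (nat_lit 5158383)) p14_14_3 (nat_lit 4) (nat_lit 179) (nat_lit 180) = true := by decide +kernel
def p14_14_3_180 : pfC (piC [(nat_lit 38167130), (nat_lit 25010362), (nat_lit 18643303), (nat_lit 12552662)] (nat_lit 5158383)) p14_14_3 (nat_lit 4) (nat_lit 180) (nat_lit 181) = true := by decide +kernel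
def p14_14_3_181 : pfC (piC [(nat_lit 38167130), (nat_lit 25010362), (nat_lit 18643303), (nat_lit 12552662)] (nat_lit 5158383)) p14_14_3 (nat_lit 4) (nat_lit 181) (nat_lit 182) = true := by decide +kernel
def p14_14_3_182 : pfC (piC [(nat_lit 38167130), (nat_lit 25010362), (nat_lit 18643303), (nat_lit 12552662)] (nat_lit 5158383)) p14_14_3 (nat_lit 4) (nat_lit 182) (nat_lit 183) = true := by decide +kernel
def p14_14_3_183 : pfC (piC [(nat_lit 38167130), (nat_lit 25010362), (nat_lit 18643303), (nat_lit 12552662)] (nat_lit 5158383)) p14_14_3 (nat_lit 4) (nat_lit 183) (nat_lit 184) = true := by decide +kernel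
def p14_14_3_184 : pfC (piC [(nat_lit 38167130), (nat_lit 25010362), (nat_lit 18643303), (nat_lit 12552662)] (nat_lit 5158383)) p14_14_3 (nat_lit 4) (nat_lit 184) (nat_lit 185) = true := by decide +kernel
def p14_14_3_185 : pfC (piC [(nat_lit 38167130), (nat_lit 25010362), (nat_lit 18643303), (nat_lit 12552662)] (nat_lit 5158383)) p14_14_3 (nat_lit 4) (nat_lit 185) (nat_lit 186) = true := by decide +kernel
def p14_14_3_186 : pfC (piC [(nat_lit 38167130), (nat_lit 25010362), (nat_lit 18643303), (nat_lit 12552662)] (nat_lit 5158383)) p14_14_3 (nat_lit 4) (nat_lit 186) (nat_lit 187) = true := by decide +kernel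
def p14_14_3_187 : pfC (piC [(nat_lit 38167130), (nat_lit 25010362), (nat_lit 18643303), (nat_lit 12552662)] (nat_lit 5158383)) p14_14_3 (nat_lit 4) (nat_lit 187) (nat_lit 188) = true := by decide +kernel
def p14_14_3_188 : pfC (piC [(nat_lit 38167130), (nat_lit 25010362), (nat_lit 18643303), (nat_lit 12552662)] (nat_lit 5158383)) p14_14_3 (nat_lit 4) (nat_lit 188) (nat_lit 189) = true := by decide +kernel
def p14_14_3_189 : pfC (piC [(nat_lit 38167130), (nat_lit 25010362), (nat_lit 18643303), (nat_lit 12552662)] (nat_lit 5158383)) p14_14_3 (nat_lit 4) (nat_lit 189) (nat_lit 190) = true := by decide +kernel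
def p14_14_3_190 : pfC (piC [(nat_lit 38167130), (nat_lit 25010362), (nat_lit 18643303), (nat_lit 12552662)] (nat_lit 5158383)) p14_14_3 (nat_lit 4) (nat_lit 190) (nat_lit 191) = true := by decide +kernel
def p14_14_3_191 : pfC (piC [(nat_lit 38167130), (nat_lit 25010362), (nat_lit 18643303), (nat_lit 12552662)] (nat_lit 5158383)) p14_14_3 (nat_lit 4) (nat_lit 191) (nat_lit 192) = true := by decide +kernel
def p14_14_3_192 : pfC (piC [(nat_lit 38167130), (nat_lit 25010362), (nat_lit 18643303), (nat_lit 12552662)] (nat_lit 5158383)) p14_14_3 (nat_lit 4) (nat_lit 192) (nat_lit 193) = true := by decide +kernel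
def p14_14_3_193 : pfC (piC [(nat_lit 38167130), (nat_lit 25010362), (nat_lit 18643303), (nat_lit 12552662)] (nat_lit 5158383)) p14_14_3 (nat_lit 4) (nat_lit 193) (nat_lit 194) = true := by decide +kernel
def p14_14_3_194 : pfC (piC [(nat_lit 38167130), (nat_lit 25010362), (nat_lit 18643303), (nat_lit 12552662)] (nat_lit 5158383)) p14_14_3 (nat_lit 4) (nat_lit 194) (nat_lit 195) = true := by decide +kernel
def p14_14_3_195 : pfC (piC [(nat_lit 38167130), (nat_lit 25010362), (nat_lit 18643303), (nat_lit 12552662)] (nat_lit 5158383)) p14_14_3 (nat_lit 4) (nat_lit 195) (nat_lit 196) = true := by decide +kernel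
def p14_14_3_196 : pfC (piC [(nat_lit 38167130), (nat_lit 25010362), (nat_lit 18643303), (nat_lit 12552662)] (nat_lit 5158383)) p14_14_3 (nat_lit 4) (nat_lit 196) (nat_lit 197) = true := by decide +kernel
def p14_14_3_197 : pfC (piC [(nat_lit 38167130), (nat_lit 25010362), (nat_lit 18643303), (nat_lit 12552662)] (nat_lit 5158383)) p14_14_3 (nat_lit 4) (nat_lit 197) (nat_lit 198) = true := by decide +kernel
def p14_14_3_198 : pfC (piC [(nat_lit 38167130), (nat_lit 25010362), (nat_lit 18643303), (nat_lit 12552662)] (nat_lit 5158383)) p14_14_3 (nat_lit 4) (nat_lit 198) (nat_lit 199) = true := by decide +kernel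
def p14_14_3_199 : pfC (piC [(nat_lit 38167130), (nat_lit 25010362), (nat_lit 18643303), (nat_lit 12552662)] (nat_lit 5158383)) p14_14_3 (nat_lit 4) (nat_lit 199) (nat_lit 200) = true := by decide +kernel
def p14_14_3_200 : pfC (piC [(nat_lit 38167130), (nat_lit 25010362), (nat_lit 18643303), (nat_lit 12552662)] (nat_lit 5158383)) p14_14_3 (nat_lit 4) (nat_lit 200) (nat_lit 201) = true := by decide +kernel
def p14_14_3_201 : pfC (piC [(nat_lit 38167130), (nat_lit 25010362), (nat_lit 18643303), (nat_lit 12552662)] (nat_lit 5158383)) p14_14_3 (nat_lit 4) (nat_lit 201) (nat_lit 202) = true := by decide +kernel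
def p14_14_3_202 : pfC (piC [(nat_lit 38167130), (nat_lit 25010362), (nat_lit 18643303), (nat_lit 12552662)] (nat_lit 5158383)) p14_14_3 (nat_lit 4) (nat_lit 202) (nat_lit 203) = true := by decide +kernel
def p14_14_3_203 : pfC (piC [(nat_lit 38167130), (nat_lit 25010362), (nat_lit 18643303), (nat_lit 12552662)] (nat_lit 5158383)) p14_14_3 (nat_lit 4) (nat_lit 203) (nat_lit 204) = true := by decide +kernel
def p14_14_3_204 : pfC (piC [(nat_lit 38167130), (nat_lit 25010362), (nat_lit 18643303), (nat_lit 12552662)] (nat_lit 5158383)) p14_14_3 (nat_lit 4) (nat_lit 204) (nat_lit 205) = true := by decide +kernel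
def p14_14_3_205 : pfC (piC [(nat_lit 38167130), (nat_lit 25010362), (nat_lit 18643303), (nat_lit 12552662)] (nat_lit 5158383)) p14_14_3 (nat_lit 4) (nat_lit 205) (nat_lit 206) = true := by decide +kernel
def p14_14_3_206 : pfC (piC [(nat_lit 38167130), (nat_lit 25010362), (nat_lit 18643303), (nat_lit 12552662)] (nat_lit 5158383)) p14_14_3 (nat_lit 4) (nat_lit 206) (nat_lit 207) = true := by decide +kernel
def p14_14_3_207 : pfC (piC [(nat_lit 38167130), (nat_lit 25010362), (nat_lit 18643303), (nat_lit 12552662)] (nat_lit 5158383)) p14_14_3 (nat_lit 4) (nat_lit 207) (nat_lit 208) = true := by decide +kernel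
def p14_14_3_208 : pfC (piC [(nat_lit 38167130), (nat_lit 25010362), (nat_lit 18643303), (nat_lit 12552662)] (nat_lit 5158383)) p14_14_3 (nat_lit 4) (nat_lit 208) (nat_lit 209) = true := by decide +kernel
theorem p14_14_3_T : PfS (PiF n14_14.reverse (nat_lit 5158383)) p14_14_3 (nat_lit 4) [] 0 :=
  pftab_of (los := [(nat_lit 38167130), (nat_lit 25010362), (nat_lit 18643303), (nat_lit 12552662)]) (by decide +kernel) (hi := (nat_lit 209)) (PfP.trans (PfP.trans (PfP.trans (PfP.trans (PfP.trans (PfP.trans (PfP.trans (PfP.trans (PfP.trans (PfP.trans (PfP.trans (PfP.trans (PfP.trans (PfP.trans (PfP.trans (PfP.trans (PfP.trans (PfP.trans (PfP.trans (PfP.trans (PfP.trans (PfP.trans (PfP.trans (PfP.trans (PfP.trans (PfP.trans (PfP.trans (PfP.trans (PfP.trans (PfP.trans (PfP.trans (PfP.trans (PfP.trans (PfP.trans (PfP.trans (PfP.trans (PfP.trans (PfP.trans (PfP.trans (PfP.trans (PfP.trans (PfP.trans (PfP.trans (PfP.trans (PfP.trans (PfP.trans (PfP.trans (PfP.trans (PfP.trans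 (PfP.trans (PfP.trans (PfP.trans (PfP.trans (PfP.trans (PfP.trans (PfP.trans (PfP.trans (PfP.trans (PfP.trans (PfP.trans (PfP.trans (PfP.trans (PfP.trans (PfP.trans (PfP.trans (PfP.trans (PfP.trans (PfP.trans (PfP.trans (PfP.trans (PfP.trans (PfP.trans (PfP.trans (PfP.trans (PfP.trans (PfP.trans (PfP.trans (PfP.trans (PfP.trans (PfP.trans (PfP.trans (PfP.trans (PfP.trans (PfP.trans (PfP.trans (PfP.trans (PfP.trans (PfP.trans (PfP.trans (PfP.trans (PfP.trans (PfP.trans (PfP.trans (PfP.trans (PfP.trans (PfP.trans (PfP.trans (PfP.trans (PfP.trans (PfP.trans (PfP.trans (PfP.trans (PfP.trans (PfP.trans (PfP.trans (PfP.trans (PfP.trans (PfP.trans (PfP.trans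
 (PfP.trans (PfP.trans (PfP.trans (PfP.trans (PfP.trans (PfP.trans (PfP.trans (PfP.trans (PfP.trans (PfP.trans (PfP.trans (PfP.trans (PfP.trans (PfP.trans (PfP.trans (PfP.trans (PfP.trans (PfP.trans (PfP.trans (PfP.trans (PfP.trans (PfP.trans (PfP.trans (PfP.trans (PfP.trans (PfP.trans (PfP.trans (PfP.trans (PfP.trans (PfP.trans (PfP.trans (PfP.trans (PfP.trans (PfP.trans (PfP.trans (PfP.trans (PfP.trans (PfP.trans (PfP.trans (PfP.trans (PfP.trans (PfP.trans (PfP.trans (PfP.trans (PfP.trans (PfP.trans (PfP.trans (PfP.trans (PfP.trans (PfP.trans (PfP.trans (PfP.trans (PfP.trans (PfP.trans (PfP.trans (PfP.trans (PfP.trans (PfP.trans (PfP.trans (PfP.trans (PfP.trans (PfP.trans (PfP.trans (PfP.trans (PfP.trans (PfP.trans (PfP.trans (PfP.trans (PfP.trans (PfP.trans (PfP.trans (PfP.trans (PfP.trans (PfP.trans (PfP.trans (PfP.trans (PfP.trans (PfP.trans (PfP.trans (PfP.trans (PfP.trans (PfP.trans (PfP.trans (PfP.trans (PfP.trans (PfP.trans (PfP.trans (PfP.trans (PfP.trans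 (PfP.trans (PfP.trans (PfP.trans (PfP.trans (PfP.trans (PfP.trans (PfP.trans (PfP.trans (PfP.trans (PfP.trans (pfC_sound p14_14_3_0) (pfC_sound p14_14_3_1)) (pfC_sound p14_14_3_2)) (pfC_sound p14_14_3_3)) (pfC_sound
 p14_14_3_4)) (pfC_sound p14_14_3_5)) (pfC_sound p14_14_3_6)) (pfC_sound p14_14_3_7)) (pfC_sound p14_14_3_8)) (pfC_sound p14_14_3_9)) (pfC_sound p14_14_3_10)) (pfC_sound p14_14_3_11)) (pfC_sound p14_14_3_12)) (pfC_sound p14_14_3_13)) (pfC_sound p14_14_3_14)) (pfC_sound p14_14_3_15)) (pfC_sound p14_14_3_16)) (pfC_sound p14_14_3_17)) (pfC_sound p14_14_3_18)) (pfC_sound p14_14_3_19)) (pfC_sound p14_14_3_20)) (pfC_sound p14_14_3_21)) (pfC_sound p14_14_3_22)) (pfC_sound p14_14_3_23)) (pfC_sound p14_14_3_24)) (pfC_sound p14_14_3_25)) (pfC_sound p14_14_3_26)) (pfC_sound p14_14_3_27)) (pfC_sound p14_14_3_28)) (pfC_sound p14_14_3_29)) (pfC_sound p14_14_3_30)) (pfC_sound p14_14_3_31)) (pfC_sound p14_14_3_32)) (pfC_sound p14_14_3_33)) (pfC_sound p14_14_3_34)) (pfC_sound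 p14_14_3_35)) (pfC_sound p14_14_3_36)) (pfC_sound p14_14_3_37)) (pfC_sound p14_14_3_38)) (pfC_sound p14_14_3_39)) (pfC_sound p14_14_3_40)) (pfC_sound p14_14_3_41)) (pfC_sound p14_14_3_42)) (pfC_sound p14_14_3_43)) (pfC_sound p14_14_3_44)) (pfC_sound p14_14_3_45)) (pfC_sound p14_14_3_46)) (pfC_sound p14_14_3_47)) (pfC_sound p14_14_3_48)) (pfC_sound p14_14_3_49)) (pfC_sound p14_14_3_50)) (pfC_sound p14_14_3_51)) (pfC_sound
 p14_14_3_52)) (pfC_sound p14_14_3_53)) (pfC_sound p14_14_3_54)) (pfC_sound p14_14_3_55)) (pfC_sound p14_14_3_56)) (pfC_sound p14_14_3_57)) (pfC_sound p14_14_3_58)) (pfC_sound p14_14_3_59)) (pfC_sound p14_14_3_60)) (pfC_sound p14_14_3_61)) (pfC_sound p14_14_3_62)) (pfC_sound p14_14_3_63)) (pfC_sound p14_14_3_64)) (pfC_sound p14_14_3_65)) (pfC_sound p14_14_3_66)) (pfC_sound p14_14_3_67)) (pfC_sound p14_14_3_68)) (pfC_sound p14_14_3_69)) (pfC_sound p14_14_3_70)) (pfC_sound p14_14_3_71)) (pfC_sound p14_14_3_72)) (pfC_sound p14_14_3_73)) (pfC_sound p14_14_3_74))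 (pfC_sound p14_14_3_75)) (pfC_sound p14_14_3_76)) (pfC_sound p14_14_3_77)) (pfC_sound p14_14_3_78)) (pfC_sound p14_14_3_79)) (pfC_sound p14_14_3_80)) (pfC_sound p14_14_3_81)) (pfC_sound p14_14_3_82)) (pfC_sound p14_14_3_83)) (pfC_sound p14_14_3_84)) (pfC_sound p14_14_3_85)) (pfC_sound p14_14_3_86)) (pfC_sound p14_14_3_87)) (pfC_sound p14_14_3_88)) (pfC_sound p14_14_3_89)) (pfC_sound p14_14_3_90)) (pfC_sound p14_14_3_91)) (pfC_sound p14_14_3_92)) (pfC_sound p14_14_3_93)) (pfC_sound p14_14_3_94)) (pfC_sound p14_14_3_95)) (pfC_sound p14_14_3_96)) (pfC_sound p14_14_3_97)) (pfC_sound p14_14_3_98)) (pfC_sound p14_14_3_99)) (pfC_sound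
 p14_14_3_100)) (pfC_sound p14_14_3_101)) (pfC_sound p14_14_3_102)) (pfC_sound p14_14_3_103)) (pfC_sound p14_14_3_104)) (pfC_sound p14_14_3_105)) (pfC_sound p14_14_3_106)) (pfC_sound p14_14_3_107)) (pfC_sound p14_14_3_108)) (pfC_sound p14_14_3_109)) (pfC_sound p14_14_3_110)) (pfC_sound p14_14_3_111)) (pfC_sound p14_14_3_112)) (pfC_sound p14_14_3_113)) (pfC_sound p14_14_3_114)) (pfC_sound p14_14_3_115)) (pfC_sound p14_14_3_116)) (pfC_sound p14_14_3_117)) (pfC_sound p14_14_3_118)) (pfC_sound p14_14_3_119)) (pfC_sound p14_14_3_120)) (pfC_sound p14_14_3_121)) (pfC_sound p14_14_3_122)) (pfC_sound p14_14_3_123)) (pfC_sound p14_14_3_124)) (pfC_sound p14_14_3_125)) (pfC_sound p14_14_3_126)) (pfC_sound p14_14_3_127)) (pfC_sound p14_14_3_128)) (pfC_sound p14_14_3_129)) (pfC_sound p14_14_3_130)) (pfC_sound p14_14_3_131)) (pfC_sound p14_14_3_132)) (pfC_sound p14_14_3_133)) (pfC_sound p14_14_3_134)) (pfC_sound p14_14_3_135)) (pfC_sound p14_14_3_136)) (pfC_sound p14_14_3_137)) (pfC_sound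 p14_14_3_138)) (pfC_sound p14_14_3_139)) (pfC_sound p14_14_3_140)) (pfC_sound p14_14_3_141)) (pfC_sound p14_14_3_142)) (pfC_sound p14_14_3_143)) (pfC_sound p14_14_3_144)) (pfC_sound p14_14_3_145)) (pfC_sound
 p14_14_3_146)) (pfC_sound p14_14_3_147)) (pfC_sound p14_14_3_148)) (pfC_sound p14_14_3_149)) (pfC_sound p14_14_3_150)) (pfC_sound p14_14_3_151)) (pfC_sound p14_14_3_152)) (pfC_sound p14_14_3_153)) (pfC_sound p14_14_3_154)) (pfC_sound p14_14_3_155)) (pfC_sound p14_14_3_156)) (pfC_sound p14_14_3_157)) (pfC_sound p14_14_3_158)) (pfC_sound p14_14_3_159)) (pfC_sound p14_14_3_160)) (pfC_sound p14_14_3_161)) (pfC_sound p14_14_3_162)) (pfC_sound p14_14_3_163)) (pfC_sound p14_14_3_164)) (pfC_sound p14_14_3_165)) (pfC_sound p14_14_3_166)) (pfC_sound p14_14_3_167)) (pfC_sound p14_14_3_168)) (pfC_sound p14_14_3_169)) (pfC_sound p14_14_3_170)) (pfC_sound p14_14_3_171)) (pfC_sound p14_14_3_172)) (pfC_sound p14_14_3_173)) (pfC_sound p14_14_3_174)) (pfC_sound p14_14_3_175)) (pfC_sound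 p14_14_3_176)) (pfC_sound p14_14_3_177)) (pfC_sound p14_14_3_178)) (pfC_sound p14_14_3_179)) (pfC_sound p14_14_3_180)) (pfC_sound p14_14_3_181)) (pfC_sound p14_14_3_182)) (pfC_sound p14_14_3_183)) (pfC_sound p14_14_3_184)) (pfC_sound p14_14_3_185)) (pfC_sound p14_14_3_186)) (pfC_sound p14_14_3_187)) (pfC_sound p14_14_3_188)) (pfC_sound p14_14_3_189)) (pfC_sound p14_14_3_190)) (pfC_sound p14_14_3_191)) (pfC_sound
 p14_14_3_192)) (pfC_sound p14_14_3_193)) (pfC_sound p14_14_3_194)) (pfC_sound p14_14_3_195)) (pfC_sound p14_14_3_196)) (pfC_sound p14_14_3_197)) (pfC_sound p14_14_3_198)) (pfC_sound p14_14_3_199)) (pfC_sound p14_14_3_200)) (pfC_sound p14_14_3_201)) (pfC_sound p14_14_3_202)) (pfC_sound p14_14_3_203)) (pfC_sound p14_14_3_204)) (pfC_sound p14_14_3_205)) (pfC_sound p14_14_3_206)) (pfC_sound p14_14_3_207)) (pfC_sound p14_14_3_208)) (by decide +kernel)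

def z14_14_3 : zOK yB14_14 (nat_lit 3) (nat_lit 750) (nat_lit 832) (nat_lit 5158383) (nat_lit 4509858) = true := by decide +kernel
def g14_14_3 : gOK yB14_14.x P14_14 (nat_lit 1422) (q14_14 :: r14_14) (nat_lit 3) (nat_lit 750) (nat_lit 4) (nat_lit 832) (nat_lit 12712500) (nat_lit 12712500) (nat_lit 12712500) (nat_lit 12712500) [(nat_lit 800)] = true := by decide +kernel
def v14_14_3 : ivC P14_14 s14_14 w14_14 n14_14 (nat_lit 4) (nat_lit 4630) (nat_lit 3) (nat_lit 750) f160_1_750 f168_1_750 (nat_lit 4) (nat_lit 832) f160_1_832 f168_1_832 (nat_lit 5158383) (nat_lit 4509858) p14_14_3 = true := by decide +kernel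
end CB
end Pool.Agent.Lib.MP_6947cd_al
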