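import Pool.Agent.Lib.MP_6947cd_al.L.BoxDataB
import Pool.Agent.Lib.MP_6947cd_al.L.TeD5
import Pool.Agent.Lib.MP_6947cd_al.L.TeD6

/-!
Problem MP_6947cd_al (Chollet).  CASE B, rows `j`: boxes (generated).
-/

set_option autoImplicit false
set_option linter.defProp false
set_option maxRecDepth 20000

namespace Pool.Agent.Lib.MP_6947cd_al
namespace CB

open Ent Ent.Pk Fr Fr.WT CA

/-! box `yB14_15` -/

def P14_15 : BQ := ⟨(nat_lit 8), (nat_lit 8), (nat_lit 0), (nat_lit 4), (nat_lit 4), (nat_lit 840), (nat_lit 860), (nat_lit 120), [(nat_lit 200), (nat_lit 300), (nat_lit 450), (nat_lit 800)], (nat_lit 126416000), (nat_lit 16000000), (nat_lit 16000000000)⟩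
def q14_15 : PC := ⟨(nat_lit 1000), [(nat_lit 120000), (nat_lit 200000), (nat_lit 300000), (nat_lit 450000), (nat_lit 800000)], (nat_lit 340282367000166625996085689103316680705000000), (nat_lit 15873584000000), (nat_lit 15873584000000), (nat_lit 10000000)⟩
def r14_15 : List PC := [⟨(nat_lit 1332), [(nat_lit 120672), (nat_lit 201060), (nat_lit 301246), (nat_lit 451661), (nat_lit 801289)], (nat_lit 342303984542528163936899723725741622448573467), (nat_lit 16336246867200), (nat_lit 16347732367360), (nat_lit 10056000)⟩, ⟨(nat_lit 1243), [(nat_lit 120488), (nat_lit 200775), (nat_lit 300790), (nat_lit 450662), (nat_lit 799311)], (nat_lit 341748303437219902506829450117905083247053209), (nat_lit 16213289652800), (nat_lit 16221696208640), (nat_lit 10040667)⟩, ⟨(nat_lit 2192), [(nat_lit 123689), (nat_lit 203642), (nat_lit 305021), (nat_lit 461900), (nat_lit 810018)], (nat_lit 347585847443115287651174117893841560777221691), (nat_lit 17391121523200), (nat_lit 17432358620160), (nat_lit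 10307417)⟩]
def s14_15 : List PB := [⟨(nat_lit 26640), (nat_lit 1930752000000), [(nat_lit 201060), (nat_lit 301246), (nat_lit 451661), (nat_lit 801289)], (nat_lit 342303984542528163936899723725741622448573467), (nat_lit 1142236153709824), (nat_lit 1142247639209984), (nat_lit 53120)⟩, ⟨(nat_lit 24860), (nat_lit 1927808000000), [(nat_lit 200775), (nat_lit 300790), (nat_lit 450662), (nat_lit 799311)], (nat_lit 341748303437219902506829450117905083247053209), (nat_lit 1142113196495424), (nat_lit 1142121603051264), (nat_lit 38880)⟩, ⟨(nat_lit 43840), (nat_lit 1979024000000), [(nat_lit 203642), (nat_lit 305021), (nat_lit 461900), (nat_lit 810018)], (nat_lit 347585847443115287651174117893841560777221691), (nat_lit 1143291028365824), (nat_lit 1143332265462784), (nat_lit 190720)⟩]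
def n14_15 : List KN := [⟨(nat_lit 800), (nat_lit 450), (nat_lit 12310016), (nat_lit 6124894)⟩, ⟨(nat_lit 450), (nat_lit 300), (nat_lit 18263511), (nat_lit 12310016)⟩, ⟨(nat_lit 300), (nat_lit 200), (nat_lit 24534081), (nat_lit 18263511)⟩, ⟨(nat_lit 200), (nat_lit 120), (nat_lit 36888796), (nat_lit 24534081)⟩]
def w14_15 : List ℕ := [(nat_lit 53120), (nat_lit 38880), (nat_lit 190720)]
def par14_15 : parC yB14_15 P14_15 s14_15 r14_15 q14_15 n14_15 w14_15 = true := by decide +kernel

def p14_15_0 : PF := (PF.cons (PF.cons (PF.cons (PF.cons (PF.leaf (nat_lit 787959) (nat_lit 2468733) (nat_lit 64640079) (nat_lit 2468733) [(nat_lit 0), (nat_lit 0), (nat_lit 0), (nat_lit 0)]) (PF.cons (PF.leaf (nat_lit 966314) (nat_lit 291207) (nat_lit 64276206) (nat_lit 2541398) [(nat_lit 291207), (nat_lit 0), (nat_lit 0), (nat_lit 0)]) (PF.cons (PF.leaf (nat_lit 1182025) (nat_lit 322654) (nat_lit 63843070) (nat_lit 2620434) [(nat_lit 322654), (nat_lit 0), (nat_lit 0), (nat_lit 0)]) (PF.cons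 (PF.leaf (nat_lit 1429430) (nat_lit 352097) (nat_lit 63350284) (nat_lit 2702235) [(nat_lit 352097), (nat_lit 0), (nat_lit 0), (nat_lit 0)]) (PF.cons (PF.leaf (nat_lit 1705510) (nat_lit 379872) (nat_lit 62804921) (nat_lit 2784403) [(nat_lit 379872), (nat_lit 0), (nat_lit 0), (nat_lit 0)]) (PF.cons (PF.leaf (nat_lit 2007543) (nat_lit 406142) (nat_lit 62212822) (nat_lit 2865280) [(nat_lit 406142), (nat_lit 0), (nat_lit 0), (nat_lit 0)]) (PF.cons (PF.leaf (nat_lit 2333189) (nat_lit 430994) (nat_lit 61579143) (nat_lit 2943701) [(nat_lit 430994), (nat_lit 0), (nat_lit 0), (nat_lit 0)]) (PF.cons (PF.leaf (nat_lit 2680224) (nat_lit 454478) (nat_lit 60908619) (nat_lit 3018843) [(nat_lit 454478), (nat_lit 0), (nat_lit 0),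
 (nat_lit 0)]) (PF.cons (PF.leaf (nat_lit 3046504) (nat_lit 476624) (nat_lit 60205681) (nat_lit 3090132) [(nat_lit 476624), (nat_lit 0), (nat_lit 0), (nat_lit 0)]) (PF.cons (PF.leaf (nat_lit 3430002) (nat_lit 497458) (nat_lit 59474514) (nat_lit 3157176) [(nat_lit 497458), (nat_lit 0), (nat_lit 0), (nat_lit 0)]) (PF.cons (PF.leaf (nat_lit 3828743) (nat_lit 517000) (nat_lit 58719083) (nat_lit 3219722) [(nat_lit 517000), (nat_lit 0), (nat_lit 0), (nat_lit 0)]) (PF.cons PF.nil (PF.cons PF.nil (PF.cons PF.nil PF.nil)))))))))))))) (PF.cons (PF.cons (PF.leaf (nat_lit 1371867) (nat_lit 1263666) (nat_lit 63125284) (nat_lit 2719861) [(nat_lit 0), (nat_lit 1263666), (nat_lit 0), (nat_lit 0)]) (PF.cons (PF.leaf (nat_lit 1614795) (nat_lit 368465) (nat_lit 62630155) (nat_lit 2792739) [(nat_lit 368465), (nat_lit 1317452), (nat_lit 0), (nat_lit 0)]) (PF.cons (PF.leaf (nat_lit 1888281) (nat_lit 395331) (nat_lit 62080183) (nat_lit 2866816) [(nat_lit 395331), (nat_lit 1371150), (nat_lit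 0), (nat_lit 0)]) (PF.cons (PF.leaf (nat_lit 2188102) (nat_lit 420629) (nat_lit 61482986) (nat_lit 2940218) [(nat_lit 420629), (nat_lit 1423720), (nat_lit 0), (nat_lit 0)]) (PF.cons (PF.leaf (nat_lit 2511506) (nat_lit
 444488) (nat_lit 60844678) (nat_lit 3011666) [(nat_lit 444488), (nat_lit 1474512), (nat_lit 0), (nat_lit 0)]) (PF.cons (PF.leaf (nat_lit 2856035) (nat_lit 466980) (nat_lit 60170529) (nat_lit 3080272) [(nat_lit 466980), (nat_lit 1523106), (nat_lit 0), (nat_lit 0)]) (PF.cons (PF.leaf (nat_lit 3219459) (nat_lit 488149) (nat_lit 59465265) (nat_lit 3145420) [(nat_lit 488149), (nat_lit 1569228), (nat_lit 0), (nat_lit 0)]) (PF.cons (PF.leaf (nat_lit 3599657) (nat_lit 508028) (nat_lit 58733222) (nat_lit 3206689) [(nat_lit 508028), (nat_lit 1612703), (nat_lit 0), (nat_lit 0)]) (PF.cons (PF.leaf (nat_lit 3994669) (nat_lit 526644) (nat_lit 57978420) (nat_lit 3263806) [(nat_lit 526644), (nat_lit 1653429), (nat_lit 0), (nat_lit 0)]) (PF.cons (PF.leaf (nat_lit 4402597)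 (nat_lit 544026) (nat_lit 57204604) (nat_lit 3316609) [(nat_lit 544026), (nat_lit 1691357), (nat_lit 0), (nat_lit 0)]) (PF.cons PF.nil (PF.cons PF.nil PF.nil)))))))))))) (PF.cons (PF.cons (PF.leaf (nat_lit 2075864) (nat_lit 1419297) (nat_lit 61326674) (nat_lit 2943543) [(nat_lit 0), (nat_lit 1419297), (nat_lit 0), (nat_lit 0)]) (PF.cons (PF.leaf (nat_lit 2370672) (nat_lit 433636) (nat_lit 60730985) (nat_lit 3009634) [(nat_lit
 433636), (nat_lit 1467278), (nat_lit 0), (nat_lit 0)]) (PF.cons (PF.leaf (nat_lit 2690187) (nat_lit 456669) (nat_lit 60093209) (nat_lit 3074358) [(nat_lit 456669), (nat_lit 1513952), (nat_lit 0), (nat_lit 0)]) (PF.cons (PF.leaf (nat_lit 3030991) (nat_lit 478299) (nat_lit 59419633) (nat_lit 3136714) [(nat_lit 478299), (nat_lit 1558783), (nat_lit 0), (nat_lit 0)]) (PF.cons (PF.leaf (nat_lit 3390576) (nat_lit 498596) (nat_lit 58715549) (nat_lit 3196019) [(nat_lit 498596), (nat_lit 1601429), (nat_lit 0), (nat_lit 0)]) (PF.cons (PF.leaf (nat_lit 3766746)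 (nat_lit 517610) (nat_lit 57985605) (nat_lit 3251813) [(nat_lit 517610), (nat_lit 1641672), (nat_lit 0), (nat_lit 0)]) (PF.cons (PF.leaf (nat_lit 4157423) (nat_lit 535378) (nat_lit 57233984) (nat_lit 3303794) [(nat_lit 535378), (nat_lit 1679381), (nat_lit 0), (nat_lit 0)]) (PF.cons (PF.leaf (nat_lit 4560713) (nat_lit 551937) (nat_lit 56464497) (nat_lit 3351780) [(nat_lit 551937), (nat_lit 1714486), (nat_lit 0), (nat_lit 0)]) (PF.cons PF.nil (PF.cons PF.nil PF.nil)))))))))) (PF.cons (PF.cons (PF.leaf (nat_lit 2870857) (nat_lit 1550656) (nat_lit 59324626) (nat_lit 3132216) [(nat_lit 0), (nat_lit 1550656), (nat_lit 0), (nat_lit 0)])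
 (PF.cons (PF.leaf (nat_lit 3205970) (nat_lit 488449) (nat_lit 58656285) (nat_lit 3188540) [(nat_lit 488449), (nat_lit 1591845), (nat_lit 0), (nat_lit 0)]) (PF.cons (PF.leaf (nat_lit 3560595) (nat_lit 507988) (nat_lit 57957115) (nat_lit 3242254) [(nat_lit 507988), (nat_lit 1631154), (nat_lit 0), (nat_lit 0)]) (PF.cons (PF.leaf (nat_lit 3931845) (nat_lit 526231) (nat_lit 57232346) (nat_lit 3292836) [(nat_lit 526231), (nat_lit 1668311), (nat_lit 0), (nat_lit 0)]) (PF.cons (PF.leaf (nat_lit 4317530) (nat_lit 543233) (nat_lit 56486482) (nat_lit 3339947) [(nat_lit 543233), (nat_lit 1703150), (nat_lit 0), (nat_lit 0)]) (PF.cons (PF.leaf (nat_lit 4715668) (nat_lit 559038) (nat_lit 55723504) (nat_lit 3383378) [(nat_lit 559038), (nat_lit 1735578), (nat_lit 0), (nat_lit 0)]) (PF.cons (PF.leaf (nat_lit 5124448) (nat_lit 573690) (nat_lit 54946984) (nat_lit 3423019) [(nat_lit 573690), (nat_lit 1765555), (nat_lit 0), (nat_lit 0)]) (PF.cons PF.nil (PF.cons PF.nil PF.nil))))))))) (PF.cons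 (PF.cons (PF.leaf (nat_lit 3730715) (nat_lit 1658589) (nat_lit 57190027) (nat_lit 3284428) [(nat_lit 0), (nat_lit 1658589), (nat_lit 0), (nat_lit 0)]) (PF.cons (PF.leaf (nat_lit 4095680) (nat_lit 533907) (nat_lit
 56473752) (nat_lit 3330028) [(nat_lit 533907), (nat_lit 1692781), (nat_lit 0), (nat_lit 0)]) (PF.cons (PF.leaf (nat_lit 4475586) (nat_lit 550227) (nat_lit 55736335) (nat_lit 3372508) [(nat_lit 550227), (nat_lit 1724878), (nat_lit 0), (nat_lit 0)]) (PF.cons (PF.leaf (nat_lit 4867986) (nat_lit 565354) (nat_lit 54982087) (nat_lit 3411625) [(nat_lit 565354), (nat_lit 1754758), (nat_lit 0), (nat_lit 0)]) (PF.cons (PF.leaf (nat_lit 5270991) (nat_lit 579340) (nat_lit 54214755) (nat_lit 3447242) [(nat_lit 579340), (nat_lit 1782363), (nat_lit 0), (nat_lit 0)]) (PF.cons PF.nil (PF.cons PF.nil PF.nil))))))) (PF.cons (PF.cons (PF.leaf (nat_lit 4632577) (nat_lit 1744696) (nat_lit 54983621) (nat_lit 3401706) [(nat_lit 0), (nat_lit 1744696), (nat_lit 0), (nat_lit 0)]) (PF.cons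 (PF.leaf (nat_lit 5018259) (nat_lit 570900) (nat_lit 54240450) (nat_lit 3436728) [(nat_lit 570900), (nat_lit 1772146), (nat_lit 0), (nat_lit 0)]) (PF.cons (PF.leaf (nat_lit 5414964) (nat_lit 584288) (nat_lit 53484214) (nat_lit 3468541) [(nat_lit 584288), (nat_lit 1797495), (nat_lit 0), (nat_lit 0)]) (PF.cons (PF.leaf (nat_lit 5820607) (nat_lit 596593) (nat_lit 52718407) (nat_lit 3497067) [(nat_lit 596593), (nat_lit
 1820711), (nat_lit 0), (nat_lit 0)]) (PF.cons PF.nil PF.nil))))) (PF.cons (PF.cons (PF.leaf (nat_lit 5557199) (nat_lit 1811055) (nat_lit 52755386) (nat_lit 3487095) [(nat_lit 0), (nat_lit 1811055), (nat_lit 0), (nat_lit 0)]) (PF.cons (PF.leaf (nat_lit 5955896) (nat_lit 600328) (nat_lit 52002507) (nat_lit 3512283) [(nat_lit 600328), (nat_lit 1832282), (nat_lit 0), (nat_lit 0)]) (PF.cons (PF.leaf (nat_lit 6362308) (nat_lit 611087) (nat_lit 51243081) (nat_lit 3534415) [(nat_lit 611087), (nat_lit 1851523), (nat_lit 0), (nat_lit 0)]) (PF.cons PF.nil PF.nil))))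 (PF.cons (PF.cons (PF.leaf (nat_lit 6488963) (nat_lit 1859968) (nat_lit 50544708) (nat_lit 3544327) [(nat_lit 0), (nat_lit 1859968), (nat_lit 0), (nat_lit 0)]) (PF.cons PF.nil PF.nil)) (PF.cons PF.nil (PF.cons PF.nil (PF.cons PF.nil PF.nil))))))))))) (PF.cons (PF.cons (PF.cons (PF.leaf (nat_lit 2008362) (nat_lit 2947439) (nat_lit 60710110) (nat_lit 2947439) [(nat_lit 0), (nat_lit 0), (nat_lit 3451263), (nat_lit 0)]) (PF.cons (PF.leaf (nat_lit 2270929) (nat_lit 413640) (nat_lit 60176112) (nat_lit 3006411) [(nat_lit 413640), (nat_lit 0), (nat_lit 3512648), (nat_lit 0)]) (PF.cons (PF.leaf (nat_lit 2562223) (nat_lit 438709) (nat_lit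
 59591069) (nat_lit 3065781) [(nat_lit 438709), (nat_lit 0), (nat_lit 3574542), (nat_lit 0)]) (PF.cons (PF.leaf (nat_lit 2877680) (nat_lit 461859) (nat_lit 58963825) (nat_lit 3124067) [(nat_lit 461859), (nat_lit 0), (nat_lit 3635342), (nat_lit 0)]) (PF.cons (PF.leaf (nat_lit 3214202) (nat_lit 483345) (nat_lit 58301195) (nat_lit 3180275) [(nat_lit 483345), (nat_lit 0), (nat_lit 3693960), (nat_lit 0)]) (PF.cons (PF.leaf (nat_lit 3569203) (nat_lit 503327) (nat_lit 57608796) (nat_lit 3233731) [(nat_lit 503327), (nat_lit 0), (nat_lit 3749645), (nat_lit 0)]) (PF.cons (PF.leaf (nat_lit 3940383) (nat_lit 521913) (nat_lit 56891466) (nat_lit 3283980) [(nat_lit 521913), (nat_lit 0), (nat_lit 3801886), (nat_lit 0)]) (PF.cons (PF.leaf (nat_lit 4325677) (nat_lit 539181) (nat_lit 56153477) (nat_lit 3330723) [(nat_lit 539181), (nat_lit 0), (nat_lit 3850341), (nat_lit 0)]) (PF.cons (PF.leaf (nat_lit 4723196) (nat_lit 555196) (nat_lit 55398661) (nat_lit 3373779) [(nat_lit 555196), (nat_lit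 0), (nat_lit 3894800), (nat_lit 0)]) (PF.cons PF.nil (PF.cons PF.nil (PF.cons PF.nil PF.nil)))))))))))) (PF.cons (PF.cons (PF.leaf (nat_lit 2745335) (nat_lit 1532752) (nat_lit 58816822) (nat_lit 3123380) [(nat_lit
 0), (nat_lit 1532752), (nat_lit 3635856), (nat_lit 0)]) (PF.cons (PF.leaf (nat_lit 3053626) (nat_lit 471529) (nat_lit 58198488) (nat_lit 3175635) [(nat_lit 471529), (nat_lit 1572981), (nat_lit 3690178), (nat_lit 0)]) (PF.cons (PF.leaf (nat_lit 3384346) (nat_lit 492396) (nat_lit 57543150) (nat_lit 3226312) [(nat_lit 492396), (nat_lit 1611738), (nat_lit 3742818), (nat_lit 0)]) (PF.cons (PF.leaf (nat_lit 3733968) (nat_lit 511705) (nat_lit 56857496) (nat_lit 3274640) [(nat_lit 511705), (nat_lit 1648624), (nat_lit 3792934), (nat_lit 0)]) (PF.cons (PF.leaf (nat_lit 4099937) (nat_lit 529597) (nat_lit 56146959) (nat_lit 3320106) [(nat_lit 529597), (nat_lit 1683396), (nat_lit 3839962), (nat_lit 0)]) (PF.cons (PF.leaf (nat_lit 4480026) (nat_lit 546168) (nat_lit 55416145)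 (nat_lit 3362379) [(nat_lit 546168), (nat_lit 1715913), (nat_lit 3883531), (nat_lit 0)]) (PF.cons (PF.leaf (nat_lit 4872255) (nat_lit 561496) (nat_lit 54669070) (nat_lit 3401252) [(nat_lit 561496), (nat_lit 1746101), (nat_lit 3923410), (nat_lit 0)]) (PF.cons (PF.leaf (nat_lit 5274818) (nat_lit 575643) (nat_lit 53909289) (nat_lit 3436615) [(nat_lit 575643), (nat_lit 1773932), (nat_lit 3959472), (nat_lit 0)]) (PF.cons PF.nil
 (PF.cons PF.nil PF.nil)))))))))) (PF.cons (PF.cons (PF.leaf (nat_lit 3556268) (nat_lit 1639568) (nat_lit 56773889) (nat_lit 3268450) [(nat_lit 0), (nat_lit 1639568), (nat_lit 3787334), (nat_lit 0)]) (PF.cons (PF.leaf (nat_lit 3898747) (nat_lit 519064) (nat_lit 56099004) (nat_lit 3311831) [(nat_lit 519064), (nat_lit 1673414), (nat_lit 3832084), (nat_lit 0)]) (PF.cons (PF.leaf (nat_lit 4258465) (nat_lit 536371) (nat_lit 55398393) (nat_lit 3352724) [(nat_lit 536371), (nat_lit 1705410), (nat_lit 3874132), (nat_lit 0)]) (PF.cons (PF.leaf (nat_lit 4632580)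 (nat_lit 552335) (nat_lit 54677269) (nat_lit 3390744) [(nat_lit 552335), (nat_lit 1735366), (nat_lit 3913059), (nat_lit 0)]) (PF.cons (PF.leaf (nat_lit 5018941) (nat_lit 567050) (nat_lit 53939991) (nat_lit 3425655) [(nat_lit 567050), (nat_lit 1763179), (nat_lit 3948604), (nat_lit 0)]) (PF.cons (PF.leaf (nat_lit 5415652) (nat_lit 580592) (nat_lit 53190304) (nat_lit 3457324) [(nat_lit 580592), (nat_lit 1788802), (nat_lit 3980618), (nat_lit 0)]) (PF.cons (PF.leaf (nat_lit 5821039) (nat_lit 593023) (nat_lit 52431481) (nat_lit 3485693) [(nat_lit 593023), (nat_lit 1812229), (nat_lit 4009036), (nat_lit 0)]) (PF.cons PF.nil (PF.cons PF.nil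
 PF.nil))))))))) (PF.cons (PF.cons (PF.leaf (nat_lit 4417164) (nat_lit 1725552) (nat_lit 54645456) (nat_lit 3382059) [(nat_lit 0), (nat_lit 1725552), (nat_lit 3904639), (nat_lit 0)]) (PF.cons (PF.leaf (nat_lit 4784055) (nat_lit 557684) (nat_lit 53936802) (nat_lit 3416024) [(nat_lit 557684), (nat_lit 1753051), (nat_lit 3939147), (nat_lit 0)]) (PF.cons (PF.leaf (nat_lit 5163848) (nat_lit 571868) (nat_lit 53211515) (nat_lit 3447175) [(nat_lit 571868), (nat_lit 1778599), (nat_lit 3970586), (nat_lit 0)]) (PF.cons (PF.leaf (nat_lit 5554212) (nat_lit 584874) (nat_lit 52473687) (nat_lit 3475350) [(nat_lit 584874), (nat_lit 1802124), (nat_lit 3998779), (nat_lit 0)]) (PF.cons (PF.leaf (nat_lit 5953336) (nat_lit 596775) (nat_lit 51726788) (nat_lit 3500471) [(nat_lit 596775), (nat_lit 1823602), (nat_lit 4023642), (nat_lit 0)]) (PF.cons PF.nil (PF.cons PF.nil PF.nil))))))) (PF.cons (PF.cons (PF.leaf (nat_lit 5307951) (nat_lit 1792462) (nat_lit 52483431) (nat_lit 3465985) [(nat_lit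 0), (nat_lit 1792462), (nat_lit 3989545), (nat_lit 0)]) (PF.cons (PF.leaf (nat_lit 5691058) (nat_lit 588497) (nat_lit 51759373) (nat_lit 3490854) [(nat_lit 588497), (nat_lit 1813989), (nat_lit 4014131), (nat_lit 0)])
 (PF.cons (PF.leaf (nat_lit 6083479) (nat_lit 599933) (nat_lit 51025909) (nat_lit 3512912) [(nat_lit 599933), (nat_lit 1833618), (nat_lit 4035648), (nat_lit 0)]) (PF.cons (PF.leaf (nat_lit 6483258) (nat_lit 610332) (nat_lit 50286238) (nat_lit 3532125) [(nat_lit 610332), (nat_lit 1851347), (nat_lit 4054060), (nat_lit 0)]) (PF.cons PF.nil PF.nil))))) (PF.cons (PF.cons (PF.leaf (nat_lit 6212253) (nat_lit 1842359) (nat_lit 50328652) (nat_lit 3523154) [(nat_lit 0), (nat_lit 1842359), (nat_lit 4045206), (nat_lit 0)]) (PF.cons (PF.leaf (nat_lit 6604856) (nat_lit 612497) (nat_lit 49603575) (nat_lit 3539696) [(nat_lit 612497), (nat_lit 1858467), (nat_lit 4060706), (nat_lit 0)]) (PF.cons PF.nil (PF.cons PF.nil PF.nil)))) (PF.cons (PF.cons (PF.leaf (nat_lit 7117108)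 (nat_lit 1877406) (nat_lit 48212076) (nat_lit 3556955) [(nat_lit 0), (nat_lit 1877406), (nat_lit 4075341), (nat_lit 0)]) (PF.cons PF.nil PF.nil)) (PF.cons PF.nil (PF.cons PF.nil PF.nil))))))))) (PF.cons (PF.cons (PF.cons (PF.leaf (nat_lit 3405324) (nat_lit 3253648) (nat_lit 56307392) (nat_lit 3253648) [(nat_lit 0), (nat_lit 0), (nat_lit 3773886), (nat_lit 0)]) (PF.cons (PF.leaf (nat_lit 3722142) (nat_lit 501483) (nat_lit 55682102)
 (nat_lit 3294340) [(nat_lit 501483), (nat_lit 0), (nat_lit 3815443), (nat_lit 0)]) (PF.cons (PF.leaf (nat_lit 4059368) (nat_lit 520348) (nat_lit 55024437) (nat_lit 3333330) [(nat_lit 520348), (nat_lit 0), (nat_lit 3855173), (nat_lit 0)]) (PF.cons (PF.leaf (nat_lit 4413418) (nat_lit 537560) (nat_lit 54341205) (nat_lit 3370034) [(nat_lit 537560), (nat_lit 0), (nat_lit 3892445), (nat_lit 0)]) (PF.cons (PF.leaf (nat_lit 4781714) (nat_lit 553310) (nat_lit 53637785) (nat_lit 3404080) [(nat_lit 553310), (nat_lit 0), (nat_lit 3926852), (nat_lit 0)])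 (PF.cons (PF.leaf (nat_lit 5162075) (nat_lit 567735) (nat_lit 52918624) (nat_lit 3435237) [(nat_lit 567735), (nat_lit 0), (nat_lit 3958136), (nat_lit 0)]) (PF.cons (PF.leaf (nat_lit 5552591) (nat_lit 580939) (nat_lit 52187494) (nat_lit 3463375) [(nat_lit 580939), (nat_lit 0), (nat_lit 3986154), (nat_lit 0)]) (PF.cons (PF.leaf (nat_lit 5951611) (nat_lit 593005) (nat_lit 51447659) (nat_lit 3488439) [(nat_lit 593005), (nat_lit 0), (nat_lit 4010839), (nat_lit 0)]) (PF.cons PF.nil (PF.cons PF.nil PF.nil)))))))))) (PF.cons (PF.cons (PF.leaf (nat_lit 4221326) (nat_lit 1705362) (nat_lit 54269144) (nat_lit 3362873) [(nat_lit 0), (nat_lit 1705362),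
 (nat_lit 3885716), (nat_lit 0)]) (PF.cons (PF.leaf (nat_lit 4567205) (nat_lit 542612) (nat_lit 53600494) (nat_lit 3395525) [(nat_lit 542612), (nat_lit 1732956), (nat_lit 3918611), (nat_lit 0)]) (PF.cons (PF.leaf (nat_lit 4928380) (nat_lit 557930) (nat_lit 52910415) (nat_lit 3425836) [(nat_lit 557930), (nat_lit 1758763), (nat_lit 3948968), (nat_lit 0)]) (PF.cons (PF.leaf (nat_lit 5302058) (nat_lit 571888) (nat_lit 52203973) (nat_lit 3453532) [(nat_lit 571888), (nat_lit 1782659), (nat_lit 3976490), (nat_lit 0)]) (PF.cons (PF.leaf (nat_lit 5686175) (nat_lit 584612) (nat_lit 51485302) (nat_lit 3478456) [(nat_lit 584612), (nat_lit 1804587), (nat_lit 4001007), (nat_lit 0)]) (PF.cons (PF.leaf (nat_lit 6078919) (nat_lit 596200) (nat_lit 50757872) (nat_lit 3500533) [(nat_lit 596200), (nat_lit 1824537), (nat_lit 4022434), (nat_lit 0)]) (PF.cons PF.nil (PF.cons PF.nil (PF.cons PF.nil PF.nil))))))))) (PF.cons (PF.cons (PF.leaf (nat_lit 5075375) (nat_lit 1772991) (nat_lit 52181680)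 (nat_lit 3444925) [(nat_lit 0), (nat_lit 1772991), (nat_lit 3968111), (nat_lit 0)]) (PF.cons (PF.leaf (nat_lit 5441230) (nat_lit 575329) (nat_lit 51490297) (nat_lit 3469332) [(nat_lit 575329), (nat_lit 1794858),
 (nat_lit 3992067), (nat_lit 0)]) (PF.cons (PF.leaf (nat_lit 5818293) (nat_lit 587653) (nat_lit 50785880) (nat_lit 3491216) [(nat_lit 587653), (nat_lit 1814923), (nat_lit 4013280), (nat_lit 0)]) (PF.cons (PF.leaf (nat_lit 6204329) (nat_lit 598827) (nat_lit 50072262) (nat_lit 3510477) [(nat_lit 598827), (nat_lit 1833151), (nat_lit 4031643), (nat_lit 0)]) (PF.cons (PF.leaf (nat_lit 6597646) (nat_lit 608942) (nat_lit 49352625) (nat_lit 3527080) [(nat_lit 608942), (nat_lit 1849546), (nat_lit 4047121), (nat_lit 0)]) (PF.cons PF.nil (PF.cons PF.nil PF.nil))))))) (PF.cons (PF.cons (PF.leaf (nat_lit 5949898) (nat_lit 1823988) (nat_lit 50088816) (nat_lit 3501790) [(nat_lit 0), (nat_lit 1823988), (nat_lit 4023120), (nat_lit 0)]) (PF.cons (PF.leaf (nat_lit 6328394) (nat_lit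 600887) (nat_lit 49390576) (nat_lit 3518396) [(nat_lit 600887), (nat_lit 1840581), (nat_lit 4038603), (nat_lit 0)]) (PF.cons (PF.leaf (nat_lit 6714802) (nat_lit 610648) (nat_lit 48685725) (nat_lit 3532546) [(nat_lit 610648), (nat_lit 1855470), (nat_lit 4051416), (nat_lit 0)]) (PF.cons (PF.leaf (nat_lit 7107298) (nat_lit 619426) (nat_lit 47977172) (nat_lit 3544238) [(nat_lit 619426), (nat_lit 1868668), (nat_lit 4061558),
 (nat_lit 0)]) (PF.cons PF.nil PF.nil))))) (PF.cons (PF.cons (PF.leaf (nat_lit 6830975) (nat_lit 1860358) (nat_lit 48023613) (nat_lit 3536252) [(nat_lit 0), (nat_lit 1860358), (nat_lit 4053756), (nat_lit 0)]) (PF.cons (PF.leaf (nat_lit 7216236) (nat_lit 620324) (nat_lit 47330500) (nat_lit 3545821) [(nat_lit 620324), (nat_lit 1872242), (nat_lit 4061598), (nat_lit 0)]) (PF.cons PF.nil (PF.cons PF.nil PF.nil)))) (PF.cons (PF.cons (PF.leaf (nat_lit 7707823) (nat_lit 1884105) (nat_lit 46010194) (nat_lit 3551363) [(nat_lit 0), (nat_lit 1884105), (nat_lit 4063362),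 (nat_lit 0)]) (PF.cons PF.nil PF.nil)) (PF.cons PF.nil (PF.cons PF.nil PF.nil)))))))) (PF.cons (PF.cons (PF.cons (PF.leaf (nat_lit 4862083) (nat_lit 3423959) (nat_lit 51843970) (nat_lit 3423959) [(nat_lit 0), (nat_lit 0), (nat_lit 3946961), (nat_lit 0)]) (PF.cons (PF.leaf (nat_lit 5208364) (nat_lit 560305) (nat_lit 51190556) (nat_lit 3447723) [(nat_lit 560305), (nat_lit 0), (nat_lit 3970075), (nat_lit 0)]) (PF.cons (PF.leaf (nat_lit 5568303) (nat_lit 573859) (nat_lit 50519278) (nat_lit 3469309) [(nat_lit 573859), (nat_lit 0), (nat_lit 3990835), (nat_lit 0)]) (PF.cons (PF.leaf (nat_lit 5939159) (nat_lit 586060) (nat_lit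
 49834973) (nat_lit 3488533) [(nat_lit 586060), (nat_lit 0), (nat_lit 4009041), (nat_lit 0)]) (PF.cons (PF.leaf (nat_lit 6318935) (nat_lit 597058) (nat_lit 49141511) (nat_lit 3505298) [(nat_lit 597058), (nat_lit 0), (nat_lit 4024590), (nat_lit 0)]) (PF.cons (PF.leaf (nat_lit 6705953) (nat_lit 606963) (nat_lit 48442081) (nat_lit 3519572) [(nat_lit 606963), (nat_lit 0), (nat_lit 4037447), (nat_lit 0)]) (PF.cons PF.nil PF.nil))))))) (PF.cons (PF.cons (PF.leaf (nat_lit 5703738) (nat_lit 1804668) (nat_lit 49821057) (nat_lit 3480230) [(nat_lit 0), (nat_lit 1804668), (nat_lit 4000952), (nat_lit 0)]) (PF.cons (PF.leaf (nat_lit 6066414) (nat_lit 587943) (nat_lit 49153348) (nat_lit 3496805) [(nat_lit 587943), (nat_lit 1821807), (nat_lit 4016303), (nat_lit 0)]) (PF.cons (PF.leaf (nat_lit 6438894) (nat_lit 598651) (nat_lit 48475446) (nat_lit 3511128) [(nat_lit 598651), (nat_lit 1837291), (nat_lit 4029214), (nat_lit 0)]) (PF.cons (PF.leaf (nat_lit 6819031) (nat_lit 608248) (nat_lit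 47790909) (nat_lit 3523146) [(nat_lit 608248), (nat_lit 1851116), (nat_lit 4039632), (nat_lit 0)]) (PF.cons (PF.leaf (nat_lit 7205244) (nat_lit 616836) (nat_lit 47102637) (nat_lit 3532858) [(nat_lit 616836), (nat_lit
 1863304), (nat_lit 4047554), (nat_lit 0)]) PF.nil))))) (PF.cons (PF.cons (PF.leaf (nat_lit 6558639) (nat_lit 1842500) (nat_lit 47812978) (nat_lit 3515193) [(nat_lit 0), (nat_lit 1842500), (nat_lit 4031879), (nat_lit 0)]) (PF.cons (PF.leaf (nat_lit 6931125) (nat_lit 609042) (nat_lit 47144629) (nat_lit 3525096) [(nat_lit 609042), (nat_lit 1854996), (nat_lit 4040016), (nat_lit 0)]) (PF.cons (PF.leaf (nat_lit 7310388) (nat_lit 617371) (nat_lit 46471775) (nat_lit 3532859) [(nat_lit 617371), (nat_lit 1865963), (nat_lit 4045836), (nat_lit 0)]) (PF.cons PF.nil PF.nil)))) (PF.cons (PF.cons (PF.leaf (nat_lit 7414913) (nat_lit 1867782) (nat_lit 45846339) (nat_lit 3531451) [(nat_lit 0), (nat_lit 1867782), (nat_lit 4042558), (nat_lit 0)]) (PF.cons (PF.leaf (nat_lit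 7792059) (nat_lit 624652) (nat_lit 45187320) (nat_lit 3535418) [(nat_lit 624652), (nat_lit 1876191), (nat_lit 4044282), (nat_lit 0)]) PF.nil)) (PF.cons PF.nil (PF.cons PF.nil PF.nil)))))) (PF.cons (PF.cons (PF.cons (PF.leaf (nat_lit 6301941) (nat_lit 3493749) (nat_lit 47576293) (nat_lit 3493749) [(nat_lit 0), (nat_lit 0), (nat_lit 4009692), (nat_lit 0)]) (PF.cons (PF.leaf (nat_lit 6659907) (nat_lit 596437) (nat_lit 46936221)
 (nat_lit 3503930) [(nat_lit 596437), (nat_lit 0), (nat_lit 4018055), (nat_lit 0)]) (PF.cons (PF.leaf (nat_lit 7026520) (nat_lit 605748) (nat_lit 46288178) (nat_lit 3512109) [(nat_lit 605748), (nat_lit 0), (nat_lit 4024257), (nat_lit 0)]) (PF.cons (PF.leaf (nat_lit 7399721) (nat_lit 613990) (nat_lit 45635447) (nat_lit 3518268) [(nat_lit 613990), (nat_lit 0), (nat_lit 4028281), (nat_lit 0)]) (PF.cons PF.nil PF.nil))))) (PF.cons (PF.cons (PF.leaf (nat_lit 7135193) (nat_lit 1850622) (nat_lit 45661883) (nat_lit 3511059) [(nat_lit 0), (nat_lit 1850622),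 (nat_lit 4021311), (nat_lit 0)]) (PF.cons (PF.leaf (nat_lit 7500749) (nat_lit 613764) (nat_lit 45025579) (nat_lit 3515547) [(nat_lit 613764), (nat_lit 1859724), (nat_lit 4023549), (nat_lit 0)]) (PF.cons (PF.leaf (nat_lit 7872162) (nat_lit 620871) (nat_lit 44386338) (nat_lit 3518170) [(nat_lit 620871), (nat_lit 1867456), (nat_lit 4023776), (nat_lit 0)]) (PF.cons PF.nil PF.nil)))) (PF.cons (PF.cons (PF.leaf (nat_lit 7966029) (nat_lit 1866843) (nat_lit 43797705) (nat_lit 3512788) [(nat_lit 0), (nat_lit 1866843), (nat_lit 4016157), (nat_lit 0)]) (PF.cons (PF.leaf (nat_lit 8334628) (nat_lit 626170) (nat_lit 43173477) (nat_lit 3512275)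
 [(nat_lit 626170), (nat_lit 1872399), (nat_lit 4013022), (nat_lit 0)]) PF.nil)) (PF.cons PF.nil (PF.cons PF.nil PF.nil))))) (PF.cons (PF.cons (PF.cons (PF.leaf (nat_lit 7681085) (nat_lit 3493288) (nat_lit 43636495) (nat_lit 3493288) [(nat_lit 0), (nat_lit 0), (nat_lit 3995805), (nat_lit 0)]) (PF.cons (PF.leaf (nat_lit 8039143) (nat_lit 615715) (nat_lit 43033023) (nat_lit 3493422) [(nat_lit 615715), (nat_lit 0), (nat_lit 3993330), (nat_lit 0)]) (PF.cons (PF.leaf (nat_lit 8402306) (nat_lit 621779) (nat_lit 42427765) (nat_lit 3491931) [(nat_lit 621779), (nat_lit 0), (nat_lit 3989111), (nat_lit 0)]) (PF.cons PF.nil PF.nil)))) (PF.cons (PF.cons (PF.leaf (nat_lit 8486480) (nat_lit 1859328) (nat_lit 41875131) (nat_lit 3483487) [(nat_lit 0), (nat_lit 1859328), (nat_lit 3978172), (nat_lit 0)]) (PF.cons PF.nil PF.nil)) (PF.cons PF.nil PF.nil))) (PF.cons (PF.cons (PF.cons (PF.leaf (nat_lit 8978492) (nat_lit 3446114) (nat_lit 40073841) (nat_lit 3446114) [(nat_lit 0), (nat_lit 0),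 (nat_lit 3931476), (nat_lit 0)]) (PF.cons PF.nil PF.nil)) (PF.cons PF.nil PF.nil)) (PF.cons PF.nil (PF.cons PF.nil PF.nil))))))))) (PF.cons (PF.cons (PF.cons (PF.cons (PF.leaf (nat_lit 3088870) (nat_lit 3136594)
 (nat_lit 54626763) (nat_lit 3136594) [(nat_lit 0), (nat_lit 0), (nat_lit 0), (nat_lit 9345454)]) (PF.cons (PF.leaf (nat_lit 3356447) (nat_lit 449555) (nat_lit 54117047) (nat_lit 3176933) [(nat_lit 449555), (nat_lit 0), (nat_lit 0), (nat_lit 9365276)]) (PF.cons (PF.leaf (nat_lit 3650054) (nat_lit 472512) (nat_lit 53564115) (nat_lit 3216720) [(nat_lit 472512), (nat_lit 0), (nat_lit 0), (nat_lit 9382952)]) (PF.cons (PF.leaf (nat_lit 3964813) (nat_lit 493091) (nat_lit 52977013) (nat_lit 3254972) [(nat_lit 493091), (nat_lit 0), (nat_lit 0), (nat_lit 9397552)]) (PF.cons (PF.leaf (nat_lit 4297436) (nat_lit 511697) (nat_lit 52362520) (nat_lit 3291073) [(nat_lit 511697), (nat_lit 0), (nat_lit 0), (nat_lit 9408430)]) (PF.cons (PF.leaf (nat_lit 4645273) (nat_lit 528598)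 (nat_lit 51726036) (nat_lit 3324637) [(nat_lit 528598), (nat_lit 0), (nat_lit 0), (nat_lit 9415145)]) (PF.cons (PF.leaf (nat_lit 5006089) (nat_lit 543989) (nat_lit 51072031) (nat_lit 3355431) [(nat_lit 543989), (nat_lit 0), (nat_lit 0), (nat_lit 9417413)]) (PF.cons (PF.leaf (nat_lit 5377931) (nat_lit 558015) (nat_lit 50404306) (nat_lit 3383324) [(nat_lit 558015), (nat_lit 0), (nat_lit 0), (nat_lit 9415072)]) (PF.cons (PF.leaf
 (nat_lit 5759095) (nat_lit 570793) (nat_lit 49726144) (nat_lit 3408263) [(nat_lit 570793), (nat_lit 0), (nat_lit 0), (nat_lit 9408059)]) (PF.cons (PF.leaf (nat_lit 6148029) (nat_lit 582418) (nat_lit 49040413) (nat_lit 3430246) [(nat_lit 582418), (nat_lit 0), (nat_lit 0), (nat_lit 9396386)]) (PF.cons (PF.leaf (nat_lit 6543369) (nat_lit 592973) (nat_lit 48349634) (nat_lit 3449312) [(nat_lit 592973), (nat_lit 0), (nat_lit 0), (nat_lit 9380128)]) (PF.cons PF.nil (PF.cons PF.nil (PF.cons PF.nil PF.nil)))))))))))))) (PF.cons (PF.cons (PF.leaf (nat_lit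 3814567) (nat_lit 1617353) (nat_lit 52849107) (nat_lit 3250022) [(nat_lit 0), (nat_lit 1617353), (nat_lit 0), (nat_lit 9392329)]) (PF.cons (PF.leaf (nat_lit 4120326) (nat_lit 498838) (nat_lit 52276240) (nat_lit 3283846) [(nat_lit 498838), (nat_lit 1648022), (nat_lit 0), (nat_lit 9401864)]) (PF.cons (PF.leaf (nat_lit 4445562) (nat_lit 517007) (nat_lit 51674028) (nat_lit 3315942) [(nat_lit 517007), (nat_lit 1676951), (nat_lit 0), (nat_lit 9407875)]) (PF.cons (PF.leaf (nat_lit 4786720) (nat_lit 533423) (nat_lit 51048838) (nat_lit 3345842) [(nat_lit 533423), (nat_lit 1703932), (nat_lit 0), (nat_lit 9409927)]) (PF.cons (PF.leaf (nat_lit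
 5141275) (nat_lit 548311) (nat_lit 50405683) (nat_lit 3373262) [(nat_lit 548311), (nat_lit 1728870), (nat_lit 0), (nat_lit 9407749)]) (PF.cons (PF.leaf (nat_lit 5507140) (nat_lit 561834) (nat_lit 49748669) (nat_lit 3398039) [(nat_lit 561834), (nat_lit 1751738), (nat_lit 0), (nat_lit 9401193)]) (PF.cons (PF.leaf (nat_lit 5882461) (nat_lit 574118) (nat_lit 49081253) (nat_lit 3420094) [(nat_lit 574118), (nat_lit 1772548), (nat_lit 0), (nat_lit 9390205)]) (PF.cons (PF.leaf (nat_lit 6265661) (nat_lit 585266) (nat_lit 48406396) (nat_lit 3439407) [(nat_lit 585266), (nat_lit 1791340), (nat_lit 0), (nat_lit 9374805)]) (PF.cons (PF.leaf (nat_lit 6655298) (nat_lit 595362) (nat_lit 47726664) (nat_lit 3456001) [(nat_lit 595362), (nat_lit 1808172), (nat_lit 0), (nat_lit 9355071)]) (PF.cons PF.nil (PF.cons PF.nil (PF.cons PF.nil PF.nil)))))))))))) (PF.cons (PF.cons (PF.leaf (nat_lit 4595498) (nat_lit 1693848) (nat_lit 50980535) (nat_lit 3338070) [(nat_lit 0), (nat_lit 1693848), (nat_lit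 0), (nat_lit 9402509)]) (PF.cons (PF.leaf (nat_lit 4928449) (nat_lit 537409) (nat_lit 50369673) (nat_lit 3364478) [(nat_lit 537409), (nat_lit 1718501), (nat_lit 0), (nat_lit 9400248)]) (PF.cons (PF.leaf (nat_lit
 5275914) (nat_lit 551906) (nat_lit 49739630) (nat_lit 3388703) [(nat_lit 551906), (nat_lit 1741349), (nat_lit 0), (nat_lit 9393965)]) (PF.cons (PF.leaf (nat_lit 5635156) (nat_lit 565013) (nat_lit 49095066) (nat_lit 3410540) [(nat_lit 565013), (nat_lit 1762320), (nat_lit 0), (nat_lit 9383524)]) (PF.cons (PF.leaf (nat_lit 6004210) (nat_lit 576874) (nat_lit 48439760) (nat_lit 3429882) [(nat_lit 576874), (nat_lit 1781396), (nat_lit 0), (nat_lit 9368878)]) (PF.cons (PF.leaf (nat_lit 6381333) (nat_lit 587603) (nat_lit 47776861) (nat_lit 3446687) [(nat_lit 587603), (nat_lit 1798596), (nat_lit 0), (nat_lit 9350052)]) (PF.cons (PF.leaf (nat_lit 6765051) (nat_lit 597292) (nat_lit 47109041) (nat_lit 3460963) [(nat_lit 597292), (nat_lit 1813963), (nat_lit 0), (nat_lit 9327128)])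 (PF.cons (PF.leaf (nat_lit 7154053) (nat_lit 606019) (nat_lit 46438592) (nat_lit 3472751) [(nat_lit 606019), (nat_lit 1827551), (nat_lit 0), (nat_lit 9300229)]) (PF.cons PF.nil (PF.cons PF.nil PF.nil)))))))))) (PF.cons (PF.cons (PF.leaf (nat_lit 5411130) (nat_lit 1752491) (nat_lit 49073224) (nat_lit 3401905) [(nat_lit 0), (nat_lit 1752491), (nat_lit 0), (nat_lit 9376208)]) (PF.cons (PF.leaf (nat_lit 5762698) (nat_lit
 567546) (nat_lit 48443110) (nat_lit 3420963) [(nat_lit 567546), (nat_lit 1771656), (nat_lit 0), (nat_lit 9362222)]) (PF.cons (PF.leaf (nat_lit 6124885) (nat_lit 579063) (nat_lit 47801428) (nat_lit 3437749) [(nat_lit 579063), (nat_lit 1789090), (nat_lit 0), (nat_lit 9344238)]) (PF.cons (PF.leaf (nat_lit 6495528) (nat_lit 589436) (nat_lit 47151654) (nat_lit 3452198) [(nat_lit 589436), (nat_lit 1804786), (nat_lit 0), (nat_lit 9322289)]) (PF.cons (PF.leaf (nat_lit 6873044) (nat_lit 598770) (nat_lit 46496656) (nat_lit 3464300) [(nat_lit 598770), (nat_lit 1818771),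 (nat_lit 0), (nat_lit 9296459)]) (PF.cons (PF.leaf (nat_lit 7256036) (nat_lit 607150) (nat_lit 45838843) (nat_lit 3474083) [(nat_lit 607150), (nat_lit 1831087), (nat_lit 0), (nat_lit 9266872)]) (PF.cons PF.nil (PF.cons PF.nil (PF.cons PF.nil PF.nil))))))))) (PF.cons (PF.cons (PF.leaf (nat_lit 6245413) (nat_lit 1795700) (nat_lit 47165782) (nat_lit 3443806) [(nat_lit 0), (nat_lit 1795700), (nat_lit 0), (nat_lit 9316421)]) (PF.cons (PF.leaf (nat_lit 6608797) (nat_lit 590764) (nat_lit 46530454) (nat_lit 3456042) [(nat_lit 590764), (nat_lit 1809973), (nat_lit 0), (nat_lit 9291655)]) (PF.cons (PF.leaf (nat_lit 6979716) (nat_lit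
 599801) (nat_lit 45889280) (nat_lit 3466107) [(nat_lit 599801), (nat_lit 1822654), (nat_lit 0), (nat_lit 9263203)]) (PF.cons (PF.leaf (nat_lit 7356416) (nat_lit 607881) (nat_lit 45244868) (nat_lit 3474013) [(nat_lit 607881), (nat_lit 1833773), (nat_lit 0), (nat_lit 9231191)]) (PF.cons (PF.leaf (nat_lit 7737617) (nat_lit 615085) (nat_lit 44599391) (nat_lit 3479802) [(nat_lit 615085), (nat_lit 1843376), (nat_lit 0), (nat_lit 9195769)]) (PF.cons PF.nil (PF.cons PF.nil PF.nil))))))) (PF.cons (PF.cons (PF.leaf (nat_lit 7085814) (nat_lit 1825667) (nat_lit 45286529) (nat_lit 3466470) [(nat_lit 0), (nat_lit 1825667), (nat_lit 0), (nat_lit 9227477)]) (PF.cons (PF.leaf (nat_lit 7455640) (nat_lit 608214) (nat_lit 44656379) (nat_lit 3472623) [(nat_lit 608214), (nat_lit 1835658), (nat_lit 0), (nat_lit 9193303)]) (PF.cons (PF.leaf (nat_lit 7830541) (nat_lit 615167) (nat_lit 44024649) (nat_lit 3476800) [(nat_lit 615167), (nat_lit 1844226), (nat_lit 0), (nat_lit 9155895)]) (PF.cons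 PF.nil (PF.cons PF.nil PF.nil))))) (PF.cons (PF.cons (PF.leaf (nat_lit 7922695) (nat_lit 1844381) (nat_lit 43455707) (nat_lit 3472661) [(nat_lit 0), (nat_lit 1844381), (nat_lit 0), (nat_lit 9114155)]) (PF.cons (PF.leaf
 (nat_lit 8294749) (nat_lit 620834) (nat_lit 42838256) (nat_lit 3473538) [(nat_lit 620834), (nat_lit 1850681), (nat_lit 0), (nat_lit 9072092)]) (PF.cons PF.nil (PF.cons PF.nil PF.nil)))) (PF.cons (PF.cons (PF.leaf (nat_lit 8748802) (nat_lit 1853632) (nat_lit 41687207) (nat_lit 3465014) [(nat_lit 0), (nat_lit 1853632), (nat_lit 0), (nat_lit 8981160)]) (PF.cons PF.nil PF.nil)) (PF.cons PF.nil PF.nil))))))))) (PF.cons (PF.cons (PF.cons (PF.leaf (nat_lit 4418652) (nat_lit 3316006) (nat_lit 50588875) (nat_lit 3316006) [(nat_lit 0), (nat_lit 0), (nat_lit 3833137), (nat_lit 9370793)]) (PF.cons (PF.leaf (nat_lit 4728189) (nat_lit 518652) (nat_lit 50023343) (nat_lit 3341517) [(nat_lit 518652), (nat_lit 0), (nat_lit 3857656), (nat_lit 9367642)]) (PF.cons (PF.leaf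 (nat_lit 5055557) (nat_lit 535061) (nat_lit 49432091) (nat_lit 3365314) [(nat_lit 535061), (nat_lit 0), (nat_lit 3880373), (nat_lit 9360910)]) (PF.cons (PF.leaf (nat_lit 5397226) (nat_lit 549703) (nat_lit 48821342) (nat_lit 3387055) [(nat_lit 549703), (nat_lit 0), (nat_lit 3900923), (nat_lit 9350380)]) (PF.cons (PF.leaf (nat_lit 5750716) (nat_lit 562834) (nat_lit 48195896) (nat_lit 3406542) [(nat_lit 562834), (nat_lit 0), (nat_lit
 3919091), (nat_lit 9335945)]) (PF.cons (PF.leaf (nat_lit 6113993) (nat_lit 574637) (nat_lit 47559610) (nat_lit 3423673) [(nat_lit 574637), (nat_lit 0), (nat_lit 3934760), (nat_lit 9317579)]) (PF.cons (PF.leaf (nat_lit 6485334) (nat_lit 585255) (nat_lit 46915671) (nat_lit 3438408) [(nat_lit 585255), (nat_lit 0), (nat_lit 3947883), (nat_lit 9295317)]) (PF.cons (PF.leaf (nat_lit 6863235) (nat_lit 594797) (nat_lit 46266763) (nat_lit 3450756) [(nat_lit 594797), (nat_lit 0), (nat_lit 3958464), (nat_lit 9269244)]) (PF.cons (PF.leaf (nat_lit 7246396)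 (nat_lit 603357) (nat_lit 45615174) (nat_lit 3460755) [(nat_lit 603357), (nat_lit 0), (nat_lit 3966541), (nat_lit 9239482)]) (PF.cons PF.nil PF.nil)))))))))) (PF.cons (PF.cons (PF.leaf (nat_lit 5195844) (nat_lit 1730443) (nat_lit 48763665) (nat_lit 3379064) [(nat_lit 0), (nat_lit 1730443), (nat_lit 3893265), (nat_lit 9342374)]) (PF.cons (PF.leaf (nat_lit 5528797) (nat_lit 552021) (nat_lit 48169041) (nat_lit 3397984) [(nat_lit 552021), (nat_lit 1750367), (nat_lit 3910837), (nat_lit 9328559)]) (PF.cons (PF.leaf (nat_lit 5874776) (nat_lit 564892) (nat_lit 47558260) (nat_lit 3414894) [(nat_lit 564892), (nat_lit 1768604), (nat_lit 3926268),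
 (nat_lit 9311000)]) (PF.cons (PF.leaf (nat_lit 6231160) (nat_lit 576398) (nat_lit 46935742) (nat_lit 3429656) [(nat_lit 576398), (nat_lit 1785118), (nat_lit 3939414), (nat_lit 9289685)]) (PF.cons (PF.leaf (nat_lit 6596010) (nat_lit 586701) (nat_lit 46305011) (nat_lit 3442209) [(nat_lit 586701), (nat_lit 1799918), (nat_lit 3950206), (nat_lit 9264659)]) (PF.cons (PF.leaf (nat_lit 6967723) (nat_lit 595925) (nat_lit 45668951) (nat_lit 3452545) [(nat_lit 595925), (nat_lit 1813040), (nat_lit 3958633), (nat_lit 9236013)]) (PF.cons (PF.leaf (nat_lit 7344917) (nat_lit 604170) (nat_lit 45029971) (nat_lit 3460690) [(nat_lit 604170), (nat_lit 1824534), (nat_lit 3964722), (nat_lit 9203871)]) (PF.cons PF.nil (PF.cons PF.nil PF.nil))))))))) (PF.cons (PF.cons (PF.leaf (nat_lit 5999673) (nat_lit 1775688) (nat_lit 46921741) (nat_lit 3421427) [(nat_lit 0), (nat_lit 1775688), (nat_lit 3931439), (nat_lit 9282826)]) (PF.cons (PF.leaf (nat_lit 6348119) (nat_lit 577594) (nat_lit 46314700)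 (nat_lit 3433959) [(nat_lit 577594), (nat_lit 1790730), (nat_lit 3942217), (nat_lit 9258879)]) (PF.cons (PF.leaf (nat_lit 6705944) (nat_lit 587656) (nat_lit 45698438) (nat_lit 3444466) [(nat_lit 587656), (nat_lit
 1804192), (nat_lit 3950829), (nat_lit 9231379)]) (PF.cons (PF.leaf (nat_lit 7071087) (nat_lit 596621) (nat_lit 45076174) (nat_lit 3452918) [(nat_lit 596621), (nat_lit 1816091), (nat_lit 3957246), (nat_lit 9200426)]) (PF.cons (PF.leaf (nat_lit 7442043) (nat_lit 604600) (nat_lit 44450523) (nat_lit 3459329) [(nat_lit 604600), (nat_lit 1826464), (nat_lit 3961481), (nat_lit 9166150)]) (PF.cons (PF.leaf (nat_lit 7817528) (nat_lit 611684) (nat_lit 43823650) (nat_lit 3463738) [(nat_lit 611684), (nat_lit 1835361), (nat_lit 3963577), (nat_lit 9128699)]) (PF.cons PF.nil PF.nil))))))) (PF.cons (PF.cons (PF.leaf (nat_lit 6816023) (nat_lit 1807584) (nat_lit 45095386) (nat_lit 3445261) [(nat_lit 0), (nat_lit 1807584), (nat_lit 3949842), (nat_lit 9195570)]) (PF.cons (PF.leaf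 (nat_lit 7173839) (nat_lit 596877) (nat_lit 44488025) (nat_lit 3451952) [(nat_lit 596877), (nat_lit 1818328), (nat_lit 3954386), (nat_lit 9162584)]) (PF.cons (PF.leaf (nat_lit 7538199) (nat_lit 604644) (nat_lit 43876521) (nat_lit 3456745) [(nat_lit 604644), (nat_lit 1827645), (nat_lit 3956897), (nat_lit 9126421)]) (PF.cons (PF.leaf (nat_lit 7907449) (nat_lit 611508) (nat_lit 43263245) (nat_lit 3459668) [(nat_lit 611508),
 (nat_lit 1835575), (nat_lit 3957408), (nat_lit 9087237)]) (PF.cons (PF.leaf (nat_lit 8280395) (nat_lit 617553) (nat_lit 42650145) (nat_lit 3460771) [(nat_lit 617553), (nat_lit 1842169), (nat_lit 3955974), (nat_lit 9045198)]) PF.nil))))) (PF.cons (PF.cons (PF.leaf (nat_lit 7634114) (nat_lit 1828119) (nat_lit 43307520) (nat_lit 3453003) [(nat_lit 0), (nat_lit 1828119), (nat_lit 3951040), (nat_lit 9084768)]) (PF.cons (PF.leaf (nat_lit 7996556) (nat_lit 610989) (nat_lit 42708549) (nat_lit 3454544) [(nat_lit 610989), (nat_lit 1835141), (nat_lit 3950084),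 (nat_lit 9044078)]) (PF.cons (PF.leaf (nat_lit 8363314) (nat_lit 616853) (nat_lit 42109141) (nat_lit 3454380) [(nat_lit 616853), (nat_lit 1840903), (nat_lit 3947304), (nat_lit 9000666)]) (PF.cons PF.nil PF.nil)))) (PF.cons (PF.cons (PF.leaf (nat_lit 8445796) (nat_lit 1839076) (nat_lit 41573990) (nat_lit 3447084) [(nat_lit 0), (nat_lit 1839076), (nat_lit 3937642), (nat_lit 8954712)]) (PF.cons (PF.leaf (nat_lit 8809188) (nat_lit 620816) (nat_lit 40989550) (nat_lit 3444200) [(nat_lit 620816), (nat_lit 1842915), (nat_lit 3931966), (nat_lit 8907700)]) PF.nil)) (PF.cons PF.nil (PF.cons PF.nil PF.nil)))))))) (PF.cons (PF.cons (PF.cons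
 (PF.leaf (nat_lit 5772508) (nat_lit 3398595) (nat_lit 46646172) (nat_lit 3398595) [(nat_lit 0), (nat_lit 0), (nat_lit 3908096), (nat_lit 9247850)]) (PF.cons (PF.leaf (nat_lit 6103636) (nat_lit 562505) (nat_lit 46072144) (nat_lit 3411344) [(nat_lit 562505), (nat_lit 0), (nat_lit 3919000), (nat_lit 9224818)]) (PF.cons (PF.leaf (nat_lit 6446554) (nat_lit 573948) (nat_lit 45484442) (nat_lit 3422248) [(nat_lit 573948), (nat_lit 0), (nat_lit 3927940), (nat_lit 9198343)]) (PF.cons (PF.leaf (nat_lit 6798676) (nat_lit 584061) (nat_lit 44887228) (nat_lit 3431225) [(nat_lit 584061), (nat_lit 0), (nat_lit 3934832), (nat_lit 9168508)]) (PF.cons (PF.leaf (nat_lit 7158175) (nat_lit 593018) (nat_lit 44283766) (nat_lit 3438250) [(nat_lit 593018), (nat_lit 0), (nat_lit 3939648), (nat_lit 9135423)]) (PF.cons (PF.leaf (nat_lit 7523532) (nat_lit 600950) (nat_lit 43676692) (nat_lit 3443337) [(nat_lit 600950), (nat_lit 0), (nat_lit 3942403), (nat_lit 9099222)]) (PF.cons (PF.leaf (nat_lit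 7893455) (nat_lit 607962) (nat_lit 43068178) (nat_lit 3446524) [(nat_lit 607962), (nat_lit 0), (nat_lit 3943139), (nat_lit 9060053)]) (PF.cons PF.nil (PF.cons PF.nil PF.nil))))))))) (PF.cons (PF.cons (PF.leaf (nat_lit
 6561560) (nat_lit 1788374) (nat_lit 44879943) (nat_lit 3423494) [(nat_lit 0), (nat_lit 1788374), (nat_lit 3927354), (nat_lit 9162291)]) (PF.cons (PF.leaf (nat_lit 6905650) (nat_lit 584171) (nat_lit 44298646) (nat_lit 3430695) [(nat_lit 584171), (nat_lit 1799965), (nat_lit 3932374), (nat_lit 9130585)]) (PF.cons (PF.leaf (nat_lit 7258080) (nat_lit 592975) (nat_lit 43709975) (nat_lit 3436091) [(nat_lit 592975), (nat_lit 1810118), (nat_lit 3935468), (nat_lit 9095739)]) (PF.cons (PF.leaf (nat_lit 7616876) (nat_lit 600727) (nat_lit 43116902) (nat_lit 3439682) [(nat_lit 600727), (nat_lit 1818864), (nat_lit 3936639), (nat_lit 9057901)]) (PF.cons (PF.leaf (nat_lit 7980623) (nat_lit 607548) (nat_lit 42521809) (nat_lit 3441497) [(nat_lit 607548), (nat_lit 1826249),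 (nat_lit 3935918), (nat_lit 9017227)]) (PF.cons (PF.leaf (nat_lit 8348117) (nat_lit 613530) (nat_lit 41926644) (nat_lit 3441584) [(nat_lit 613530), (nat_lit 1832327), (nat_lit 3933359), (nat_lit 8973884)]) (PF.cons PF.nil PF.nil))))))) (PF.cons (PF.cons (PF.leaf (nat_lit 7358402) (nat_lit 1810934) (nat_lit 43140160) (nat_lit 3432751) [(nat_lit 0), (nat_lit 1810934), (nat_lit 3929989), (nat_lit 9054053)]) (PF.cons (PF.leaf (nat_lit
 7709913) (nat_lit 600121) (nat_lit 42562028) (nat_lit 3434952) [(nat_lit 600121), (nat_lit 1818749), (nat_lit 3929695), (nat_lit 9014821)]) (PF.cons (PF.leaf (nat_lit 8067140) (nat_lit 606800) (nat_lit 41981035) (nat_lit 3435492) [(nat_lit 606800), (nat_lit 1825283), (nat_lit 3927628), (nat_lit 8972859)]) (PF.cons (PF.leaf (nat_lit 8428518) (nat_lit 612627) (nat_lit 41399337) (nat_lit 3434412) [(nat_lit 612627), (nat_lit 1830585), (nat_lit 3923834), (nat_lit 8928339)]) (PF.cons PF.nil PF.nil))))) (PF.cons (PF.cons (PF.leaf (nat_lit 8153706)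 (nat_lit 1823743) (nat_lit 41445378) (nat_lit 3428560) [(nat_lit 0), (nat_lit 1823743), (nat_lit 3918320), (nat_lit 8927001)]) (PF.cons (PF.leaf (nat_lit 8508415) (nat_lit 611427) (nat_lit 40877737) (nat_lit 3426401) [(nat_lit 611427), (nat_lit 1828318), (nat_lit 3913393), (nat_lit 8881503)]) (PF.cons (PF.leaf (nat_lit 8866814) (nat_lit 616367) (nat_lit 40310471) (nat_lit 3422769) [(nat_lit 616367), (nat_lit 1831775), (nat_lit 3906896), (nat_lit 8833716)]) (PF.cons PF.nil PF.nil)))) (PF.cons (PF.cons (PF.leaf (nat_lit 8940539) (nat_lit 1828392) (nat_lit 39807992) (nat_lit 3413054) [(nat_lit 0), (nat_lit 1828392), (nat_lit 3894634), (nat_lit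
 8784927)]) (PF.cons PF.nil PF.nil)) (PF.cons PF.nil PF.nil)))))) (PF.cons (PF.cons (PF.cons (PF.leaf (nat_lit 7097360) (nat_lit 3411840) (nat_lit 42950250) (nat_lit 3411840) [(nat_lit 0), (nat_lit 0), (nat_lit 3908319), (nat_lit 9021762)]) (PF.cons (PF.leaf (nat_lit 7436211) (nat_lit 587916) (nat_lit 42396044) (nat_lit 3414699) [(nat_lit 587916), (nat_lit 0), (nat_lit 3908676), (nat_lit 8984121)]) (PF.cons (PF.leaf (nat_lit 7782548) (nat_lit 595629) (nat_lit 41835915) (nat_lit 3415951) [(nat_lit 595629), (nat_lit 0), (nat_lit 3907323), (nat_lit 8943715)]) (PF.cons (PF.leaf (nat_lit 8134466) (nat_lit 602340) (nat_lit 41272601) (nat_lit 3415615) [(nat_lit 602340), (nat_lit 0), (nat_lit 3904284), (nat_lit 8900720)]) (PF.cons (PF.leaf (nat_lit 8490622) (nat_lit 608169) (nat_lit 40708273) (nat_lit 3413733) [(nat_lit 608169), (nat_lit 0), (nat_lit 3899604), (nat_lit 8855313)]) (PF.cons PF.nil (PF.cons PF.nil PF.nil))))))) (PF.cons (PF.cons (PF.leaf (nat_lit 7873851) (nat_lit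 1807494) (nat_lit 41299017) (nat_lit 3409382) [(nat_lit 0), (nat_lit 1807494), (nat_lit 3898360), (nat_lit 8897837)]) (PF.cons (PF.leaf (nat_lit 8218582) (nat_lit 601041) (nat_lit 40750393) (nat_lit 3407962)
 [(nat_lit 601041), (nat_lit 1812880), (nat_lit 3894189), (nat_lit 8853966)]) (PF.cons (PF.leaf (nat_lit 8568349) (nat_lit 606788) (nat_lit 40199864) (nat_lit 3405086) [(nat_lit 606788), (nat_lit 1817117), (nat_lit 3888472), (nat_lit 8807749)]) (PF.cons (PF.leaf (nat_lit 8921669) (nat_lit 611732) (nat_lit 39649394) (nat_lit 3400805) [(nat_lit 611732), (nat_lit 1820255), (nat_lit 3881262), (nat_lit 8759371)]) (PF.cons PF.nil PF.nil))))) (PF.cons (PF.cons (PF.leaf (nat_lit 8646393) (nat_lit 1813987) (nat_lit 39696512) (nat_lit 3395697) [(nat_lit 0), (nat_lit 1813987), (nat_lit 3876528), (nat_lit 8759043)]) (PF.cons (PF.leaf (nat_lit 8993209) (nat_lit 609990) (nat_lit 39159661) (nat_lit 3390584) [(nat_lit 609990), (nat_lit 1816549), (nat_lit 3868456), (nat_lit 8710107)])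 (PF.cons PF.nil (PF.cons PF.nil PF.nil)))) (PF.cons (PF.cons (PF.leaf (nat_lit 9409028) (nat_lit 1813520) (nat_lit 38152435) (nat_lit 3372651) [(nat_lit 0), (nat_lit 1813520), (nat_lit 3844822), (nat_lit 8608695)]) (PF.cons PF.nil PF.nil)) (PF.cons PF.nil PF.nil))))) (PF.cons (PF.cons (PF.cons (PF.leaf (nat_lit 8363880) (nat_lit 3377647) (nat_lit 39568618) (nat_lit 3377647) [(nat_lit 0), (nat_lit 0), (nat_lit
 3857729), (nat_lit 8731628)]) (PF.cons (PF.leaf (nat_lit 8701546) (nat_lit 600087) (nat_lit 39049101) (nat_lit 3373319) [(nat_lit 600087), (nat_lit 0), (nat_lit 3850472), (nat_lit 8684412)]) (PF.cons (PF.leaf (nat_lit 9043702) (nat_lit 605035) (nat_lit 38528386) (nat_lit 3367715) [(nat_lit 605035), (nat_lit 0), (nat_lit 3841864), (nat_lit 8635183)]) (PF.cons PF.nil PF.nil)))) (PF.cons (PF.cons (PF.leaf (nat_lit 9114005) (nat_lit 1800023) (nat_lit 38055912) (nat_lit 3356455) [(nat_lit 0), (nat_lit 1800023), (nat_lit 3827933), (nat_lit 8584689)]) (PF.cons (PF.leaf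 (nat_lit 9452912) (nat_lit 607057) (nat_lit 37548851) (nat_lit 3349000) [(nat_lit 607057), (nat_lit 1800932), (nat_lit 3817391), (nat_lit 8533407)]) PF.nil)) (PF.cons PF.nil PF.nil))) (PF.cons (PF.cons (PF.cons (PF.leaf (nat_lit 9558362) (nat_lit 3312465) (nat_lit 36517760) (nat_lit 3312465) [(nat_lit 0), (nat_lit 0), (nat_lit 3774342), (nat_lit 8406876)]) (PF.cons PF.nil PF.nil)) (PF.cons PF.nil PF.nil)) (PF.cons PF.nil (PF.cons PF.nil PF.nil)))))))) (PF.cons (PF.cons (PF.cons (PF.cons (PF.leaf (nat_lit 5299030) (nat_lit 3296371) (nat_lit 45650954) (nat_lit 3296371) [(nat_lit 0), (nat_lit 0), (nat_lit 0), (nat_lit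
 9080743)]) (PF.cons (PF.leaf (nat_lit 5598317) (nat_lit 522611) (nat_lit 45150609) (nat_lit 3312056) [(nat_lit 522611), (nat_lit 0), (nat_lit 0), (nat_lit 9061767)]) (PF.cons (PF.leaf (nat_lit 5913514) (nat_lit 537116) (nat_lit 44629338) (nat_lit 3326103) [(nat_lit 537116), (nat_lit 0), (nat_lit 0), (nat_lit 9039568)]) (PF.cons (PF.leaf (nat_lit 6241190) (nat_lit 549824) (nat_lit 44092642) (nat_lit 3338322) [(nat_lit 549824), (nat_lit 0), (nat_lit 0), (nat_lit 9014187)]) (PF.cons (PF.leaf (nat_lit 6578991) (nat_lit 561028) (nat_lit 43544694) (nat_lit 3348620) [(nat_lit 561028), (nat_lit 0), (nat_lit 0), (nat_lit 8985692)]) (PF.cons (PF.leaf (nat_lit 6925017) (nat_lit 570939) (nat_lit 42988791) (nat_lit 3356969) [(nat_lit 570939), (nat_lit 0), (nat_lit 0), (nat_lit 8954178)]) (PF.cons (PF.leaf (nat_lit 7277699) (nat_lit 579717) (nat_lit 42427608) (nat_lit 3363381) [(nat_lit 579717), (nat_lit 0), (nat_lit 0), (nat_lit 8919760)]) (PF.cons (PF.leaf (nat_lit 7635700) (nat_lit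 587488) (nat_lit 41863360) (nat_lit 3367895) [(nat_lit 587488), (nat_lit 0), (nat_lit 0), (nat_lit 8882567)]) (PF.cons (PF.leaf (nat_lit 7997870) (nat_lit 594355) (nat_lit 41297906) (nat_lit 3370572) [(nat_lit
 594355), (nat_lit 0), (nat_lit 0), (nat_lit 8842744)]) (PF.cons PF.nil PF.nil)))))))))) (PF.cons (PF.cons (PF.leaf (nat_lit 6036030) (nat_lit 1719453) (nat_lit 44047102) (nat_lit 3330247) [(nat_lit 0), (nat_lit 1719453), (nat_lit 0), (nat_lit 9006004)]) (PF.cons (PF.leaf (nat_lit 6354915) (nat_lit 550372) (nat_lit 43525994) (nat_lit 3340474) [(nat_lit 550372), (nat_lit 1734167), (nat_lit 0), (nat_lit 8978902)]) (PF.cons (PF.leaf (nat_lit 6685219) (nat_lit 561442) (nat_lit 42992151) (nat_lit 3348967) [(nat_lit 561442), (nat_lit 1747314), (nat_lit 0), (nat_lit 8948747)]) (PF.cons (PF.leaf (nat_lit 7024446) (nat_lit 571178) (nat_lit 42449377) (nat_lit 3355670) [(nat_lit 571178), (nat_lit 1758913), (nat_lit 0), (nat_lit 8915658)]) (PF.cons (PF.leaf (nat_lit 7370826)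 (nat_lit 579759) (nat_lit 41900653) (nat_lit 3360578) [(nat_lit 579759), (nat_lit 1769011), (nat_lit 0), (nat_lit 8879765)]) (PF.cons (PF.leaf (nat_lit 7722902) (nat_lit 587325) (nat_lit 41348383) (nat_lit 3363716) [(nat_lit 587325), (nat_lit 1777668), (nat_lit 0), (nat_lit 8841209)]) (PF.cons (PF.leaf (nat_lit 8079435) (nat_lit 593985) (nat_lit 40794544) (nat_lit 3365132) [(nat_lit 593985), (nat_lit 1784951), (nat_lit 0),
 (nat_lit 8800136)]) (PF.cons PF.nil (PF.cons PF.nil PF.nil))))))))) (PF.cons (PF.cons (PF.leaf (nat_lit 6792702) (nat_lit 1749935) (nat_lit 42441502) (nat_lit 3348045) [(nat_lit 0), (nat_lit 1749935), (nat_lit 0), (nat_lit 8909697)]) (PF.cons (PF.leaf (nat_lit 7124166) (nat_lit 570955) (nat_lit 41913168) (nat_lit 3353214) [(nat_lit 570955), (nat_lit 1760449), (nat_lit 0), (nat_lit 8875287)]) (PF.cons (PF.leaf (nat_lit 7463762) (nat_lit 579408) (nat_lit 41377844) (nat_lit 3356722) [(nat_lit 579408), (nat_lit 1769571), (nat_lit 0), (nat_lit 8838143)])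 (PF.cons (PF.leaf (nat_lit 7809566) (nat_lit 586820) (nat_lit 40838238) (nat_lit 3358581) [(nat_lit 586820), (nat_lit 1777344), (nat_lit 0), (nat_lit 8798420)]) (PF.cons (PF.leaf (nat_lit 8160219) (nat_lit 593316) (nat_lit 40296516) (nat_lit 3358827) [(nat_lit 593316), (nat_lit 1783823), (nat_lit 0), (nat_lit 8756276)]) (PF.cons (PF.leaf (nat_lit 8514569) (nat_lit 598993) (nat_lit 39754450) (nat_lit 3357515) [(nat_lit 598993), (nat_lit 1789070), (nat_lit 0), (nat_lit 8711868)]) (PF.cons PF.nil PF.nil))))))) (PF.cons (PF.cons (PF.leaf (nat_lit 7557349) (nat_lit 1769502) (nat_lit 40858589) (nat_lit 3351864) [(nat_lit 0), (nat_lit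
 1769502), (nat_lit 0), (nat_lit 8794925)]) (PF.cons (PF.leaf (nat_lit 7896167) (nat_lit 585965) (nat_lit 40332480) (nat_lit 3352538) [(nat_lit 585965), (nat_lit 1776446), (nat_lit 0), (nat_lit 8754245)]) (PF.cons (PF.leaf (nat_lit 8240613) (nat_lit 592345) (nat_lit 39803474) (nat_lit 3351702) [(nat_lit 592345), (nat_lit 1782173), (nat_lit 0), (nat_lit 8711212)]) (PF.cons (PF.leaf (nat_lit 8589150) (nat_lit 597893) (nat_lit 39273534) (nat_lit 3349400) [(nat_lit 597893), (nat_lit 1786735), (nat_lit 0), (nat_lit 8665995)]) (PF.cons PF.nil PF.nil))))) (PF.cons (PF.cons (PF.leaf (nat_lit 8321296) (nat_lit 1780026) (nat_lit 39314962) (nat_lit 3343795) [(nat_lit 0), (nat_lit 1780026), (nat_lit 0), (nat_lit 8664975)]) (PF.cons (PF.leaf (nat_lit 8663482) (nat_lit 596522) (nat_lit 38797673) (nat_lit 3340583) [(nat_lit 596522), (nat_lit 1783949), (nat_lit 0), (nat_lit 8619117)]) (PF.cons (PF.leaf (nat_lit 9009370) (nat_lit 601227) (nat_lit 38280416) (nat_lit 3336042) [(nat_lit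 601227), (nat_lit 1786823), (nat_lit 0), (nat_lit 8571302)]) (PF.cons PF.nil PF.nil)))) (PF.cons (PF.cons (PF.leaf (nat_lit 9078089) (nat_lit 1783067) (nat_lit 37821642) (nat_lit 3325793) [(nat_lit 0), (nat_lit
 1783067), (nat_lit 0), (nat_lit 8523019)]) (PF.cons PF.nil PF.nil)) (PF.cons PF.nil (PF.cons PF.nil PF.nil)))))))) (PF.cons (PF.cons (PF.cons (PF.leaf (nat_lit 6559153) (nat_lit 3325390) (nat_lit 42217317) (nat_lit 3325390) [(nat_lit 0), (nat_lit 0), (nat_lit 3816130), (nat_lit 8874987)]) (PF.cons (PF.leaf (nat_lit 6875141) (nat_lit 556256) (nat_lit 41717186) (nat_lit 3331232) [(nat_lit 556256), (nat_lit 0), (nat_lit 3819520), (nat_lit 8842308)]) (PF.cons (PF.leaf (nat_lit 7201588) (nat_lit 566151) (nat_lit 41206110) (nat_lit 3335494) [(nat_lit 566151), (nat_lit 0), (nat_lit 3821249), (nat_lit 8806828)]) (PF.cons (PF.leaf (nat_lit 7536035) (nat_lit 574758) (nat_lit 40687647) (nat_lit 3338153) [(nat_lit 574758), (nat_lit 0), (nat_lit 3821296), (nat_lit 8768719)])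 (PF.cons (PF.leaf (nat_lit 7876800) (nat_lit 582265) (nat_lit 40164553) (nat_lit 3339224) [(nat_lit 582265), (nat_lit 0), (nat_lit 3819680), (nat_lit 8728146)]) (PF.cons (PF.leaf (nat_lit 8222501) (nat_lit 588813) (nat_lit 39639023) (nat_lit 3338745) [(nat_lit 588813), (nat_lit 0), (nat_lit 3816439), (nat_lit 8685269)]) (PF.cons (PF.leaf (nat_lit 8571999) (nat_lit 594512) (nat_lit 39112844) (nat_lit 3336770) [(nat_lit
 594512), (nat_lit 0), (nat_lit 3811629), (nat_lit 8640247)]) (PF.cons PF.nil (PF.cons PF.nil PF.nil))))))))) (PF.cons (PF.cons (PF.leaf (nat_lit 7300689) (nat_lit 1751133) (nat_lit 40685086) (nat_lit 3331090) [(nat_lit 0), (nat_lit 1751133), (nat_lit 3814523), (nat_lit 8763489)]) (PF.cons (PF.leaf (nat_lit 7627404) (nat_lit 573765) (nat_lit 40181006) (nat_lit 3332541) [(nat_lit 573765), (nat_lit 1759065), (nat_lit 3813331), (nat_lit 8724551)]) (PF.cons (PF.leaf (nat_lit 7961437) (nat_lit 581211) (nat_lit 39671197) (nat_lit 3332511) [(nat_lit 581211), (nat_lit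 1765732), (nat_lit 3810579), (nat_lit 8683184)]) (PF.cons (PF.leaf (nat_lit 8300971) (nat_lit 587668) (nat_lit 39158158) (nat_lit 3331028) [(nat_lit 587668), (nat_lit 1771186), (nat_lit 3806299), (nat_lit 8639568)]) (PF.cons (PF.leaf (nat_lit 8644706) (nat_lit 593259) (nat_lit 38643869) (nat_lit 3328135) [(nat_lit 593259), (nat_lit 1775483), (nat_lit 3800539), (nat_lit 8593873)]) (PF.cons PF.nil (PF.cons PF.nil PF.nil))))))) (PF.cons (PF.cons (PF.leaf (nat_lit 8046967) (nat_lit 1763908) (nat_lit 39181499) (nat_lit 3324987) [(nat_lit 0), (nat_lit 1763908), (nat_lit 3800593), (nat_lit 8636958)]) (PF.cons (PF.leaf (nat_lit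
 8379616) (nat_lit 586212) (nat_lit 38681679) (nat_lit 3322580) [(nat_lit 586212), (nat_lit 1768698), (nat_lit 3795365), (nat_lit 8592789)]) (PF.cons (PF.leaf (nat_lit 8717272) (nat_lit 591741) (nat_lit 38179792) (nat_lit 3318845) [(nat_lit 591741), (nat_lit 1772394), (nat_lit 3788739), (nat_lit 8546582)]) (PF.cons (PF.leaf (nat_lit 9058478) (nat_lit 596485) (nat_lit 37677625) (nat_lit 3313833) [(nat_lit 596485), (nat_lit 1775051), (nat_lit 3780768), (nat_lit 8498511)]) (PF.cons PF.nil PF.nil))))) (PF.cons (PF.cons (PF.leaf (nat_lit 8790361) (nat_lit 1768900) (nat_lit 37720150) (nat_lit 3308926) [(nat_lit 0), (nat_lit 1768900), (nat_lit 3776256), (nat_lit 8498388)]) (PF.cons (PF.leaf (nat_lit 9125371) (nat_lit 594649) (nat_lit 37230211) (nat_lit 3303214) [(nat_lit 594649), (nat_lit 1771050), (nat_lit 3767571), (nat_lit 8450006)]) (PF.cons PF.nil (PF.cons PF.nil PF.nil)))) (PF.cons (PF.cons (PF.leaf (nat_lit 9525295) (nat_lit 1767489) (nat_lit 36309790) (nat_lit 3284612)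 [(nat_lit 0), (nat_lit 1767489), (nat_lit 3743307), (nat_lit 8350572)]) (PF.cons PF.nil PF.nil)) (PF.cons PF.nil PF.nil)))))) (PF.cons (PF.cons (PF.cons (PF.leaf (nat_lit 7786310) (nat_lit 3305369) (nat_lit
 39028552) (nat_lit 3305369) [(nat_lit 0), (nat_lit 0), (nat_lit 3780286), (nat_lit 8607158)]) (PF.cons (PF.leaf (nat_lit 8107748) (nat_lit 574576) (nat_lit 38548898) (nat_lit 3303798) [(nat_lit 574576), (nat_lit 0), (nat_lit 3775911), (nat_lit 8564858)]) (PF.cons (PF.leaf (nat_lit 8435846) (nat_lit 581150) (nat_lit 38064515) (nat_lit 3300904) [(nat_lit 581150), (nat_lit 0), (nat_lit 3770144), (nat_lit 8520401)]) (PF.cons (PF.leaf (nat_lit 8768837) (nat_lit 586781) (nat_lit 37577710) (nat_lit 3296726) [(nat_lit 586781), (nat_lit 0), (nat_lit 3763030), (nat_lit 8473984)]) (PF.cons (PF.leaf (nat_lit 9105491) (nat_lit 591596) (nat_lit 37090293) (nat_lit 3291314) [(nat_lit 591596), (nat_lit 0), (nat_lit 3754625), (nat_lit 8425784)]) (PF.cons PF.nil (PF.cons PF.nil PF.nil)))))))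 (PF.cons (PF.cons (PF.leaf (nat_lit 8513949) (nat_lit 1753787) (nat_lit 37603363) (nat_lit 3291318) [(nat_lit 0), (nat_lit 1753787), (nat_lit 3757975), (nat_lit 8472196)]) (PF.cons (PF.leaf (nat_lit 8840197) (nat_lit 584846) (nat_lit 37129353) (nat_lit 3286430) [(nat_lit 584846), (nat_lit 1756788), (nat_lit 3750145), (nat_lit 8425551)]) (PF.cons (PF.leaf (nat_lit 9170920) (nat_lit 589642) (nat_lit 36653899)
 (nat_lit 3280372) [(nat_lit 589642), (nat_lit 1758803), (nat_lit 3741086), (nat_lit 8377139)]) (PF.cons PF.nil (PF.cons PF.nil PF.nil))))) (PF.cons (PF.cons (PF.leaf (nat_lit 9237094) (nat_lit 1754253) (nat_lit 36221765) (nat_lit 3268926) [(nat_lit 0), (nat_lit 1754253), (nat_lit 3727001), (nat_lit 8327805)]) (PF.cons (PF.leaf (nat_lit 9564901) (nat_lit 591495) (nat_lit 35758218) (nat_lit 3261223) [(nat_lit 591495), (nat_lit 1754941), (nat_lit 3716243), (nat_lit 8277752)]) (PF.cons PF.nil (PF.cons PF.nil PF.nil)))) (PF.cons (PF.cons (PF.leaf (nat_lit 9950867) (nat_lit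 1749227) (nat_lit 34890731) (nat_lit 3239679) [(nat_lit 0), (nat_lit 1749227), (nat_lit 3688929), (nat_lit 8176429)]) (PF.cons PF.nil PF.nil)) (PF.cons PF.nil PF.nil))))) (PF.cons (PF.cons (PF.cons (PF.leaf (nat_lit 8959643) (nat_lit 3252489) (nat_lit 36119596) (nat_lit 3252489) [(nat_lit 0), (nat_lit 0), (nat_lit 3709937), (nat_lit 8303457)]) (PF.cons (PF.leaf (nat_lit 9279358) (nat_lit 582181) (nat_lit 35670580) (nat_lit 3245615) [(nat_lit 582181), (nat_lit 0), (nat_lit 3700044), (nat_lit 8255151)]) (PF.cons (PF.leaf (nat_lit 9603136) (nat_lit 586346) (nat_lit 35220585) (nat_lit 3237708) [(nat_lit 586346), (nat_lit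
 0), (nat_lit 3689069), (nat_lit 8205309)]) (PF.cons PF.nil PF.nil)))) (PF.cons (PF.cons (PF.leaf (nat_lit 9663003) (nat_lit 1736874) (nat_lit 34814452) (nat_lit 3225121) [(nat_lit 0), (nat_lit 1736874), (nat_lit 3673806), (nat_lit 8155472)]) (PF.cons (PF.leaf (nat_lit 9983657) (nat_lit 587320) (nat_lit 34376135) (nat_lit 3215846) [(nat_lit 587320), (nat_lit 1736357), (nat_lit 3661432), (nat_lit 8104427)]) PF.nil)) (PF.cons PF.nil PF.nil))) (PF.cons (PF.cons (PF.cons (PF.leaf (nat_lit 10069559) (nat_lit 3178572) (nat_lit 33492655) (nat_lit 3178572) [(nat_lit 0), (nat_lit 0), (nat_lit 3617836), (nat_lit 7983118)]) (PF.cons PF.nil PF.nil)) (PF.cons PF.nil PF.nil)) (PF.cons PF.nil PF.nil)))))) (PF.cons (PF.cons (PF.cons (PF.cons (PF.leaf (nat_lit 7250009) (nat_lit 3228219) (nat_lit 38446683) (nat_lit 3228219) [(nat_lit 0), (nat_lit 0), (nat_lit 0), (nat_lit 8477969)]) (PF.cons (PF.leaf (nat_lit 7551637) (nat_lit 545335) (nat_lit 38011286) (nat_lit 3229687) [(nat_lit 545335),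 (nat_lit 0), (nat_lit 0), (nat_lit 8440834)]) (PF.cons (PF.leaf (nat_lit 7862711) (nat_lit 554059) (nat_lit 37566824) (nat_lit 3229782) [(nat_lit 554059), (nat_lit 0), (nat_lit 0), (nat_lit 8401362)]) (PF.cons
 (PF.leaf (nat_lit 8180914) (nat_lit 561547) (nat_lit 37116342) (nat_lit 3228519) [(nat_lit 561547), (nat_lit 0), (nat_lit 0), (nat_lit 8359769)]) (PF.cons (PF.leaf (nat_lit 8504680) (nat_lit 567992) (nat_lit 36662178) (nat_lit 3225938) [(nat_lit 567992), (nat_lit 0), (nat_lit 0), (nat_lit 8316241)]) (PF.cons (PF.leaf (nat_lit 8832735) (nat_lit 573538) (nat_lit 36206181) (nat_lit 3222087) [(nat_lit 573538), (nat_lit 0), (nat_lit 0), (nat_lit 8270950)]) (PF.cons PF.nil (PF.cons PF.nil (PF.cons PF.nil PF.nil))))))))) (PF.cons (PF.cons (PF.leaf (nat_lit 7949306) (nat_lit 1703238) (nat_lit 37117081) (nat_lit 3222121) [(nat_lit 0), (nat_lit 1703238), (nat_lit 0), (nat_lit 8355457)]) (PF.cons (PF.leaf (nat_lit 8260121) (nat_lit 559866) (nat_lit 36679268) (nat_lit 3220030)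 [(nat_lit 559866), (nat_lit 1708705), (nat_lit 0), (nat_lit 8313647)]) (PF.cons (PF.leaf (nat_lit 8577531) (nat_lit 566315) (nat_lit 36236755) (nat_lit 3216697) [(nat_lit 566315), (nat_lit 1713047), (nat_lit 0), (nat_lit 8269894)]) (PF.cons (PF.leaf (nat_lit 8899794) (nat_lit 571831) (nat_lit 35791659) (nat_lit 3212164) [(nat_lit 571831), (nat_lit 1716326), (nat_lit 0), (nat_lit 8224389)]) (PF.cons (PF.leaf (nat_lit
 9225750) (nat_lit 576542) (nat_lit 35345645) (nat_lit 3206485) [(nat_lit 576542), (nat_lit 1718607), (nat_lit 0), (nat_lit 8177301)]) (PF.cons PF.nil (PF.cons PF.nil PF.nil))))))) (PF.cons (PF.cons (PF.leaf (nat_lit 8651598) (nat_lit 1709645) (nat_lit 35814458) (nat_lit 3206883) [(nat_lit 0), (nat_lit 1709645), (nat_lit 0), (nat_lit 8222726)]) (PF.cons (PF.leaf (nat_lit 8967380) (nat_lit 569864) (nat_lit 35380856) (nat_lit 3201733) [(nat_lit 569864), (nat_lit 1712445), (nat_lit 0), (nat_lit 8177155)]) (PF.cons (PF.leaf (nat_lit 9287670) (nat_lit 574566)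 (nat_lit 34945578) (nat_lit 3195493) [(nat_lit 574566), (nat_lit 1714294), (nat_lit 0), (nat_lit 8130005)]) (PF.cons PF.nil (PF.cons PF.nil PF.nil))))) (PF.cons (PF.cons (PF.leaf (nat_lit 9350456) (nat_lit 1709689) (nat_lit 34549216) (nat_lit 3184066) [(nat_lit 0), (nat_lit 1709689), (nat_lit 0), (nat_lit 8082153)]) (PF.cons (PF.leaf (nat_lit 9668104) (nat_lit 576341) (nat_lit 34124288) (nat_lit 3176337) [(nat_lit 576341), (nat_lit 1710287), (nat_lit 0), (nat_lit 8033660)]) (PF.cons PF.nil (PF.cons PF.nil PF.nil)))) (PF.cons (PF.cons (PF.leaf (nat_lit 10041231) (nat_lit 1704573) (nat_lit 33327882) (nat_lit 3155056) [(nat_lit 0),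
 (nat_lit 1704573), (nat_lit 0), (nat_lit 7935860)]) (PF.cons PF.nil PF.nil)) (PF.cons PF.nil PF.nil)))))) (PF.cons (PF.cons (PF.cons (PF.leaf (nat_lit 8394082) (nat_lit 3188821) (nat_lit 35690457) (nat_lit 3188821) [(nat_lit 0), (nat_lit 0), (nat_lit 3641914), (nat_lit 8195873)]) (PF.cons (PF.leaf (nat_lit 8699797) (nat_lit 558856) (nat_lit 35273898) (nat_lit 3184577) [(nat_lit 558856), (nat_lit 0), (nat_lit 3634773), (nat_lit 8152235)]) (PF.cons (PF.leaf (nat_lit 9011575) (nat_lit 564589) (nat_lit 34853364) (nat_lit 3179219) [(nat_lit 564589), (nat_lit 0), (nat_lit 3626473), (nat_lit 8106859)]) (PF.cons (PF.leaf (nat_lit 9327742) (nat_lit 569435) (nat_lit 34430815) (nat_lit 3172796) [(nat_lit 569435), (nat_lit 0), (nat_lit 3617067), (nat_lit 8059941)]) (PF.cons PF.nil PF.nil))))) (PF.cons (PF.cons (PF.leaf (nat_lit 9079457) (nat_lit 1695750) (nat_lit 34455332) (nat_lit 3168080) [(nat_lit 0), (nat_lit 1695750), (nat_lit 3612732), (nat_lit 8058972)]) (PF.cons (PF.leaf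 (nat_lit 9389289) (nat_lit 567131) (nat_lit 34043820) (nat_lit 3161194) [(nat_lit 567131), (nat_lit 1697197), (nat_lit 3602878), (nat_lit 8012197)]) (PF.cons (PF.leaf (nat_lit 9703205) (nat_lit 571242) (nat_lit
 33631066) (nat_lit 3153341) [(nat_lit 571242), (nat_lit 1697783), (nat_lit 3592020), (nat_lit 7964038)]) (PF.cons PF.nil PF.nil)))) (PF.cons (PF.cons (PF.leaf (nat_lit 9760278) (nat_lit 1692467) (nat_lit 33257856) (nat_lit 3140967) [(nat_lit 0), (nat_lit 1692467), (nat_lit 3577047), (nat_lit 7916002)]) (PF.cons (PF.leaf (nat_lit 10071362) (nat_lit 572212) (nat_lit 32855270) (nat_lit 3131871) [(nat_lit 572212), (nat_lit 1691973), (nat_lit 3564929), (nat_lit 7866860)]) PF.nil)) (PF.cons PF.nil (PF.cons PF.nil PF.nil))))) (PF.cons (PF.cons (PF.cons (PF.leaf (nat_lit 9489272) (nat_lit 3126110) (nat_lit 33175589) (nat_lit 3126110) [(nat_lit 0), (nat_lit 0), (nat_lit 3561678), (nat_lit 7894585)]) (PF.cons (PF.leaf (nat_lit 9793092) (nat_lit 563476) (nat_lit 32785266)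 (nat_lit 3117838) [(nat_lit 563476), (nat_lit 0), (nat_lit 3550422), (nat_lit 7847128)]) (PF.cons (PF.leaf (nat_lit 10100680) (nat_lit 567074) (nat_lit 32394032) (nat_lit 3108707) [(nat_lit 567074), (nat_lit 0), (nat_lit 3538275), (nat_lit 7798457)]) (PF.cons PF.nil PF.nil)))) (PF.cons (PF.cons (PF.leaf (nat_lit 10152532) (nat_lit 1673453) (nat_lit 32042592) (nat_lit 3095648) [(nat_lit 0), (nat_lit 1673453), (nat_lit
 3522624), (nat_lit 7750623)]) (PF.cons PF.nil PF.nil)) (PF.cons PF.nil PF.nil))) (PF.cons (PF.cons (PF.cons (PF.leaf (nat_lit 10528419) (nat_lit 3048817) (nat_lit 30898549) (nat_lit 3048817) [(nat_lit 0), (nat_lit 0), (nat_lit 3466774), (nat_lit 7587040)]) (PF.cons PF.nil PF.nil)) (PF.cons PF.nil PF.nil)) (PF.cons PF.nil PF.nil))))) (PF.cons (PF.cons (PF.cons (PF.cons (PF.leaf (nat_lit 8938680) (nat_lit 3070129) (nat_lit 32831152) (nat_lit 3070129) [(nat_lit 0), (nat_lit 0), (nat_lit 0), (nat_lit 7801882)]) (PF.cons (PF.leaf (nat_lit 9230224) (nat_lit 542154)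 (nat_lit 32467498) (nat_lit 3064299) [(nat_lit 542154), (nat_lit 0), (nat_lit 0), (nat_lit 7758715)]) (PF.cons (PF.leaf (nat_lit 9527374) (nat_lit 547247) (nat_lit 32100386) (nat_lit 3057512) [(nat_lit 547247), (nat_lit 0), (nat_lit 0), (nat_lit 7714104)]) (PF.cons (PF.leaf (nat_lit 9828530) (nat_lit 551505) (nat_lit 31731495) (nat_lit 3049823) [(nat_lit 551505), (nat_lit 0), (nat_lit 0), (nat_lit 7668244)]) (PF.cons PF.nil PF.nil))))) (PF.cons (PF.cons (PF.leaf (nat_lit 9587200) (nat_lit 1636855) (nat_lit 31754718) (nat_lit 3045688) [(nat_lit 0), (nat_lit 1636855), (nat_lit 0), (nat_lit 7667887)]) (PF.cons (PF.leaf (nat_lit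
 9882387) (nat_lit 548997) (nat_lit 31395328) (nat_lit 3037700) [(nat_lit 548997), (nat_lit 1637277), (nat_lit 0), (nat_lit 7622377)]) (PF.cons (PF.leaf (nat_lit 10181367) (nat_lit 552599) (nat_lit 31034788) (nat_lit 3028896) [(nat_lit 552599), (nat_lit 1636938), (nat_lit 0), (nat_lit 7575747)]) (PF.cons PF.nil PF.nil)))) (PF.cons (PF.cons (PF.leaf (nat_lit 10231326) (nat_lit 1631251) (nat_lit 30710297) (nat_lit 3016252) [(nat_lit 0), (nat_lit 1631251), (nat_lit 0), (nat_lit 7529939)]) (PF.cons PF.nil PF.nil)) PF.nil))) (PF.cons (PF.cons (PF.cons (PF.leaf (nat_lit 9967428) (nat_lit 3002860) (nat_lit 30643524) (nat_lit 3002860) [(nat_lit 0), (nat_lit 0), (nat_lit 3417739), (nat_lit 7511171)]) (PF.cons (PF.leaf (nat_lit 10257097) (nat_lit 544796) (nat_lit 30302037) (nat_lit 2993887) [(nat_lit 544796), (nat_lit 0), (nat_lit 3405882), (nat_lit 7465551)]) (PF.cons PF.nil PF.nil))) (PF.cons (PF.cons (PF.leaf (nat_lit 10595870) (nat_lit 1611657) (nat_lit 29653395) (nat_lit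 2971145) [(nat_lit 0), (nat_lit 1611657), (nat_lit 3377768), (nat_lit 7373711)]) PF.nil) PF.nil)) (PF.cons PF.nil PF.nil))) (PF.cons (PF.cons (PF.cons (PF.cons (PF.leaf (nat_lit 10404617) (nat_lit 2884915) (nat_lit
 28448921) (nat_lit 2884915) [(nat_lit 0), (nat_lit 0), (nat_lit 0), (nat_lit 7154995)]) (PF.cons (PF.leaf (nat_lit 10681593) (nat_lit 526592) (nat_lit 28148207) (nat_lit 2875669) [(nat_lit 526592), (nat_lit 0), (nat_lit 0), (nat_lit 7111668)]) PF.nil)) (PF.cons PF.nil PF.nil)) (PF.cons PF.nil PF.nil)) (PF.cons PF.nil (PF.cons PF.nil (PF.cons PF.nil PF.nil)))))))))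

def p14_15_0_0 : pfC (piC [(nat_lit 36888796), (nat_lit 24534081), (nat_lit 18263511), (nat_lit 12310016)] (nat_lit 21892566)) p14_15_0 (nat_lit 4) (nat_lit 0) (nat_lit 1) = true := by decide +kernel
def p14_15_0_1 : pfC (piC [(nat_lit 36888796), (nat_lit 24534081), (nat_lit 18263511), (nat_lit 12310016)] (nat_lit 21892566)) p14_15_0 (nat_lit 4) (nat_lit 1) (nat_lit 2) = true := by decide +kernel
def p14_15_0_2 : pfC (piC [(nat_lit 36888796), (nat_lit 24534081), (nat_lit 18263511), (nat_lit 12310016)] (nat_lit 21892566)) p14_15_0 (nat_lit 4) (nat_lit 2) (nat_lit 3) = true := by decide +kernel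
def p14_15_0_3 : pfC (piC [(nat_lit 36888796), (nat_lit 24534081), (nat_lit 18263511), (nat_lit 12310016)] (nat_lit 21892566)) p14_15_0 (nat_lit 4) (nat_lit 3) (nat_lit 4) = true := by decide +kernel
def p14_15_0_4 : pfC (piC [(nat_lit 36888796), (nat_lit 24534081), (nat_lit 18263511), (nat_lit 12310016)] (nat_lit 21892566)) p14_15_0 (nat_lit 4) (nat_lit 4) (nat_lit 5) = true := by decide +kernel
def p14_15_0_5 : pfC (piC [(nat_lit 36888796), (nat_lit 24534081), (nat_lit 18263511), (nat_lit 12310016)] (nat_lit 21892566)) p14_15_0 (nat_lit 4) (nat_lit 5) (nat_lit 6) = true := by decide +kernel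
def p14_15_0_6 : pfC (piC [(nat_lit 36888796), (nat_lit 24534081), (nat_lit 18263511), (nat_lit 12310016)] (nat_lit 21892566)) p14_15_0 (nat_lit 4) (nat_lit 6) (nat_lit 7) = true := by decide +kernel
def p14_15_0_7 : pfC (piC [(nat_lit 36888796), (nat_lit 24534081), (nat_lit 18263511), (nat_lit 12310016)] (nat_lit 21892566)) p14_15_0 (nat_lit 4) (nat_lit 7) (nat_lit 8) = true := by decide +kernel
def p14_15_0_8 : pfC (piC [(nat_lit 36888796), (nat_lit 24534081), (nat_lit 18263511), (nat_lit 12310016)] (nat_lit 21892566)) p14_15_0 (nat_lit 4) (nat_lit 8) (nat_lit 9) = true := by decide +kernel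
def p14_15_0_9 : pfC (piC [(nat_lit 36888796), (nat_lit 24534081), (nat_lit 18263511), (nat_lit 12310016)] (nat_lit 21892566)) p14_15_0 (nat_lit 4) (nat_lit 9) (nat_lit 10) = true := by decide +kernel
def p14_15_0_10 : pfC (piC [(nat_lit 36888796), (nat_lit 24534081), (nat_lit 18263511), (nat_lit 12310016)] (nat_lit 21892566)) p14_15_0 (nat_lit 4) (nat_lit 10) (nat_lit 11) = true := by decide +kernel
def p14_15_0_11 : pfC (piC [(nat_lit 36888796), (nat_lit 24534081), (nat_lit 18263511), (nat_lit 12310016)] (nat_lit 21892566)) p14_15_0 (nat_lit 4) (nat_lit 11) (nat_lit 12) = true := by decide +kernel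
def p14_15_0_12 : pfC (piC [(nat_lit 36888796), (nat_lit 24534081), (nat_lit 18263511), (nat_lit 12310016)] (nat_lit 21892566)) p14_15_0 (nat_lit 4) (nat_lit 12) (nat_lit 13) = true := by decide +kernel
def p14_15_0_13 : pfC (piC [(nat_lit 36888796), (nat_lit 24534081), (nat_lit 18263511), (nat_lit 12310016)] (nat_lit 21892566)) p14_15_0 (nat_lit 4) (nat_lit 13) (nat_lit 14) = true := by decide +kernel
def p14_15_0_14 : pfC (piC [(nat_lit 36888796), (nat_lit 24534081), (nat_lit 18263511), (nat_lit 12310016)] (nat_lit 21892566)) p14_15_0 (nat_lit 4) (nat_lit 14) (nat_lit 15) = true := by decide +kernel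
def p14_15_0_15 : pfC (piC [(nat_lit 36888796), (nat_lit 24534081), (nat_lit 18263511), (nat_lit 12310016)] (nat_lit 21892566)) p14_15_0 (nat_lit 4) (nat_lit 15) (nat_lit 16) = true := by decide +kernel
def p14_15_0_16 : pfC (piC [(nat_lit 36888796), (nat_lit 24534081), (nat_lit 18263511), (nat_lit 12310016)] (nat_lit 21892566)) p14_15_0 (nat_lit 4) (nat_lit 16) (nat_lit 17) = true := by decide +kernel
def p14_15_0_17 : pfC (piC [(nat_lit 36888796), (nat_lit 24534081), (nat_lit 18263511), (nat_lit 12310016)] (nat_lit 21892566)) p14_15_0 (nat_lit 4) (nat_lit 17) (nat_lit 18) = true := by decide +kernel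
def p14_15_0_18 : pfC (piC [(nat_lit 36888796), (nat_lit 24534081), (nat_lit 18263511), (nat_lit 12310016)] (nat_lit 21892566)) p14_15_0 (nat_lit 4) (nat_lit 18) (nat_lit 19) = true := by decide +kernel
def p14_15_0_19 : pfC (piC [(nat_lit 36888796), (nat_lit 24534081), (nat_lit 18263511), (nat_lit 12310016)] (nat_lit 21892566)) p14_15_0 (nat_lit 4) (nat_lit 19) (nat_lit 20) = true := by decide +kernel
def p14_15_0_20 : pfC (piC [(nat_lit 36888796), (nat_lit 24534081), (nat_lit 18263511), (nat_lit 12310016)] (nat_lit 21892566)) p14_15_0 (nat_lit 4) (nat_lit 20) (nat_lit 21) = true := by decide +kernel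
def p14_15_0_21 : pfC (piC [(nat_lit 36888796), (nat_lit 24534081), (nat_lit 18263511), (nat_lit 12310016)] (nat_lit 21892566)) p14_15_0 (nat_lit 4) (nat_lit 21) (nat_lit 22) = true := by decide +kernel
def p14_15_0_22 : pfC (piC [(nat_lit 36888796), (nat_lit 24534081), (nat_lit 18263511), (nat_lit 12310016)] (nat_lit 21892566)) p14_15_0 (nat_lit 4) (nat_lit 22) (nat_lit 23) = true := by decide +kernel
def p14_15_0_23 : pfC (piC [(nat_lit 36888796), (nat_lit 24534081), (nat_lit 18263511), (nat_lit 12310016)] (nat_lit 21892566)) p14_15_0 (nat_lit 4) (nat_lit 23) (nat_lit 24) = true := by decide +kernel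
def p14_15_0_24 : pfC (piC [(nat_lit 36888796), (nat_lit 24534081), (nat_lit 18263511), (nat_lit 12310016)] (nat_lit 21892566)) p14_15_0 (nat_lit 4) (nat_lit 24) (nat_lit 25) = true := by decide +kernel
def p14_15_0_25 : pfC (piC [(nat_lit 36888796), (nat_lit 24534081), (nat_lit 18263511), (nat_lit 12310016)] (nat_lit 21892566)) p14_15_0 (nat_lit 4) (nat_lit 25) (nat_lit 26) = true := by decide +kernel
def p14_15_0_26 : pfC (piC [(nat_lit 36888796), (nat_lit 24534081), (nat_lit 18263511), (nat_lit 12310016)] (nat_lit 21892566)) p14_15_0 (nat_lit 4) (nat_lit 26) (nat_lit 27) = true := by decide +kernel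
def p14_15_0_27 : pfC (piC [(nat_lit 36888796), (nat_lit 24534081), (nat_lit 18263511), (nat_lit 12310016)] (nat_lit 21892566)) p14_15_0 (nat_lit 4) (nat_lit 27) (nat_lit 28) = true := by decide +kernel
def p14_15_0_28 : pfC (piC [(nat_lit 36888796), (nat_lit 24534081), (nat_lit 18263511), (nat_lit 12310016)] (nat_lit 21892566)) p14_15_0 (nat_lit 4) (nat_lit 28) (nat_lit 29) = true := by decide +kernel
def p14_15_0_29 : pfC (piC [(nat_lit 36888796), (nat_lit 24534081), (nat_lit 18263511), (nat_lit 12310016)] (nat_lit 21892566)) p14_15_0 (nat_lit 4) (nat_lit 29) (nat_lit 30) = true := by decide +kernel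
def p14_15_0_30 : pfC (piC [(nat_lit 36888796), (nat_lit 24534081), (nat_lit 18263511), (nat_lit 12310016)] (nat_lit 21892566)) p14_15_0 (nat_lit 4) (nat_lit 30) (nat_lit 31) = true := by decide +kernel
def p14_15_0_31 : pfC (piC [(nat_lit 36888796), (nat_lit 24534081), (nat_lit 18263511), (nat_lit 12310016)] (nat_lit 21892566)) p14_15_0 (nat_lit 4) (nat_lit 31) (nat_lit 32) = true := by decide +kernel
def p14_15_0_32 : pfC (piC [(nat_lit 36888796), (nat_lit 24534081), (nat_lit 18263511), (nat_lit 12310016)] (nat_lit 21892566)) p14_15_0 (nat_lit 4) (nat_lit 32) (nat_lit 33) = true := by decide +kernel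
def p14_15_0_33 : pfC (piC [(nat_lit 36888796), (nat_lit 24534081), (nat_lit 18263511), (nat_lit 12310016)] (nat_lit 21892566)) p14_15_0 (nat_lit 4) (nat_lit 33) (nat_lit 34) = true := by decide +kernel
def p14_15_0_34 : pfC (piC [(nat_lit 36888796), (nat_lit 24534081), (nat_lit 18263511), (nat_lit 12310016)] (nat_lit 21892566)) p14_15_0 (nat_lit 4) (nat_lit 34) (nat_lit 35) = true := by decide +kernel
def p14_15_0_35 : pfC (piC [(nat_lit 36888796), (nat_lit 24534081), (nat_lit 18263511), (nat_lit 12310016)] (nat_lit 21892566)) p14_15_0 (nat_lit 4) (nat_lit 35) (nat_lit 36) = true := by decide +kernel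
def p14_15_0_36 : pfC (piC [(nat_lit 36888796), (nat_lit 24534081), (nat_lit 18263511), (nat_lit 12310016)] (nat_lit 21892566)) p14_15_0 (nat_lit 4) (nat_lit 36) (nat_lit 37) = true := by decide +kernel
def p14_15_0_37 : pfC (piC [(nat_lit 36888796), (nat_lit 24534081), (nat_lit 18263511), (nat_lit 12310016)] (nat_lit 21892566)) p14_15_0 (nat_lit 4) (nat_lit 37) (nat_lit 38) = true := by decide +kernel
def p14_15_0_38 : pfC (piC [(nat_lit 36888796), (nat_lit 24534081), (nat_lit 18263511), (nat_lit 12310016)] (nat_lit 21892566)) p14_15_0 (nat_lit 4) (nat_lit 38) (nat_lit 39) = true := by decide +kernel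
def p14_15_0_39 : pfC (piC [(nat_lit 36888796), (nat_lit 24534081), (nat_lit 18263511), (nat_lit 12310016)] (nat_lit 21892566)) p14_15_0 (nat_lit 4) (nat_lit 39) (nat_lit 40) = true := by decide +kernel
def p14_15_0_40 : pfC (piC [(nat_lit 36888796), (nat_lit 24534081), (nat_lit 18263511), (nat_lit 12310016)] (nat_lit 21892566)) p14_15_0 (nat_lit 4) (nat_lit 40) (nat_lit 41) = true := by decide +kernel
def p14_15_0_41 : pfC (piC [(nat_lit 36888796), (nat_lit 24534081), (nat_lit 18263511), (nat_lit 12310016)] (nat_lit 21892566)) p14_15_0 (nat_lit 4) (nat_lit 41) (nat_lit 42) = true := by decide +kernel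
def p14_15_0_42 : pfC (piC [(nat_lit 36888796), (nat_lit 24534081), (nat_lit 18263511), (nat_lit 12310016)] (nat_lit 21892566)) p14_15_0 (nat_lit 4) (nat_lit 42) (nat_lit 43) = true := by decide +kernel
def p14_15_0_43 : pfC (piC [(nat_lit 36888796), (nat_lit 24534081), (nat_lit 18263511), (nat_lit 12310016)] (nat_lit 21892566)) p14_15_0 (nat_lit 4) (nat_lit 43) (nat_lit 44) = true := by decide +kernel
def p14_15_0_44 : pfC (piC [(nat_lit 36888796), (nat_lit 24534081), (nat_lit 18263511), (nat_lit 12310016)] (nat_lit 21892566)) p14_15_0 (nat_lit 4) (nat_lit 44) (nat_lit 45) = true := by decide +kernel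
def p14_15_0_45 : pfC (piC [(nat_lit 36888796), (nat_lit 24534081), (nat_lit 18263511), (nat_lit 12310016)] (nat_lit 21892566)) p14_15_0 (nat_lit 4) (nat_lit 45) (nat_lit 46) = true := by decide +kernel
def p14_15_0_46 : pfC (piC [(nat_lit 36888796), (nat_lit 24534081), (nat_lit 18263511), (nat_lit 12310016)] (nat_lit 21892566)) p14_15_0 (nat_lit 4) (nat_lit 46) (nat_lit 47) = true := by decide +kernel
def p14_15_0_47 : pfC (piC [(nat_lit 36888796), (nat_lit 24534081), (nat_lit 18263511), (nat_lit 12310016)] (nat_lit 21892566)) p14_15_0 (nat_lit 4) (nat_lit 47) (nat_lit 48) = true := by decide +kernel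
def p14_15_0_48 : pfC (piC [(nat_lit 36888796), (nat_lit 24534081), (nat_lit 18263511), (nat_lit 12310016)] (nat_lit 21892566)) p14_15_0 (nat_lit 4) (nat_lit 48) (nat_lit 49) = true := by decide +kernel
def p14_15_0_49 : pfC (piC [(nat_lit 36888796), (nat_lit 24534081), (nat_lit 18263511), (nat_lit 12310016)] (nat_lit 21892566)) p14_15_0 (nat_lit 4) (nat_lit 49) (nat_lit 50) = true := by decide +kernel
def p14_15_0_50 : pfC (piC [(nat_lit 36888796), (nat_lit 24534081), (nat_lit 18263511), (nat_lit 12310016)] (nat_lit 21892566)) p14_15_0 (nat_lit 4) (nat_lit 50) (nat_lit 51) = true := by decide +kernel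
def p14_15_0_51 : pfC (piC [(nat_lit 36888796), (nat_lit 24534081), (nat_lit 18263511), (nat_lit 12310016)] (nat_lit 21892566)) p14_15_0 (nat_lit 4) (nat_lit 51) (nat_lit 52) = true := by decide +kernel
def p14_15_0_52 : pfC (piC [(nat_lit 36888796), (nat_lit 24534081), (nat_lit 18263511), (nat_lit 12310016)] (nat_lit 21892566)) p14_15_0 (nat_lit 4) (nat_lit 52) (nat_lit 53) = true := by decide +kernel
def p14_15_0_53 : pfC (piC [(nat_lit 36888796), (nat_lit 24534081), (nat_lit 18263511), (nat_lit 12310016)] (nat_lit 21892566)) p14_15_0 (nat_lit 4) (nat_lit 53) (nat_lit 54) = true := by decide +kernel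
def p14_15_0_54 : pfC (piC [(nat_lit 36888796), (nat_lit 24534081), (nat_lit 18263511), (nat_lit 12310016)] (nat_lit 21892566)) p14_15_0 (nat_lit 4) (nat_lit 54) (nat_lit 55) = true := by decide +kernel
def p14_15_0_55 : pfC (piC [(nat_lit 36888796), (nat_lit 24534081), (nat_lit 18263511), (nat_lit 12310016)] (nat_lit 21892566)) p14_15_0 (nat_lit 4) (nat_lit 55) (nat_lit 56) = true := by decide +kernel
def p14_15_0_56 : pfC (piC [(nat_lit 36888796), (nat_lit 24534081), (nat_lit 18263511), (nat_lit 12310016)] (nat_lit 21892566)) p14_15_0 (nat_lit 4) (nat_lit 56) (nat_lit 57) = true := by decide +kernel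
def p14_15_0_57 : pfC (piC [(nat_lit 36888796), (nat_lit 24534081), (nat_lit 18263511), (nat_lit 12310016)] (nat_lit 21892566)) p14_15_0 (nat_lit 4) (nat_lit 57) (nat_lit 58) = true := by decide +kernel
def p14_15_0_58 : pfC (piC [(nat_lit 36888796), (nat_lit 24534081), (nat_lit 18263511), (nat_lit 12310016)] (nat_lit 21892566)) p14_15_0 (nat_lit 4) (nat_lit 58) (nat_lit 59) = true := by decide +kernel
def p14_15_0_59 : pfC (piC [(nat_lit 36888796), (nat_lit 24534081), (nat_lit 18263511), (nat_lit 12310016)] (nat_lit 21892566)) p14_15_0 (nat_lit 4) (nat_lit 59) (nat_lit 60) = true := by decide +kernel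
def p14_15_0_60 : pfC (piC [(nat_lit 36888796), (nat_lit 24534081), (nat_lit 18263511), (nat_lit 12310016)] (nat_lit 21892566)) p14_15_0 (nat_lit 4) (nat_lit 60) (nat_lit 61) = true := by decide +kernel
def p14_15_0_61 : pfC (piC [(nat_lit 36888796), (nat_lit 24534081), (nat_lit 18263511), (nat_lit 12310016)] (nat_lit 21892566)) p14_15_0 (nat_lit 4) (nat_lit 61) (nat_lit 62) = true := by decide +kernel
def p14_15_0_62 : pfC (piC [(nat_lit 36888796), (nat_lit 24534081), (nat_lit 18263511), (nat_lit 12310016)] (nat_lit 21892566)) p14_15_0 (nat_lit 4) (nat_lit 62) (nat_lit 63) = true := by decide +kernel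
def p14_15_0_63 : pfC (piC [(nat_lit 36888796), (nat_lit 24534081), (nat_lit 18263511), (nat_lit 12310016)] (nat_lit 21892566)) p14_15_0 (nat_lit 4) (nat_lit 63) (nat_lit 64) = true := by decide +kernel
def p14_15_0_64 : pfC (piC [(nat_lit 36888796), (nat_lit 24534081), (nat_lit 18263511), (nat_lit 12310016)] (nat_lit 21892566)) p14_15_0 (nat_lit 4) (nat_lit 64) (nat_lit 65) = true := by decide +kernel
def p14_15_0_65 : pfC (piC [(nat_lit 36888796), (nat_lit 24534081), (nat_lit 18263511), (nat_lit 12310016)] (nat_lit 21892566)) p14_15_0 (nat_lit 4) (nat_lit 65) (nat_lit 66) = true := by decide +kernel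
def p14_15_0_66 : pfC (piC [(nat_lit 36888796), (nat_lit 24534081), (nat_lit 18263511), (nat_lit 12310016)] (nat_lit 21892566)) p14_15_0 (nat_lit 4) (nat_lit 66) (nat_lit 67) = true := by decide +kernel
def p14_15_0_67 : pfC (piC [(nat_lit 36888796), (nat_lit 24534081), (nat_lit 18263511), (nat_lit 12310016)] (nat_lit 21892566)) p14_15_0 (nat_lit 4) (nat_lit 67) (nat_lit 68) = true := by decide +kernel
def p14_15_0_68 : pfC (piC [(nat_lit 36888796), (nat_lit 24534081), (nat_lit 18263511), (nat_lit 12310016)] (nat_lit 21892566)) p14_15_0 (nat_lit 4) (nat_lit 68) (nat_lit 69) = true := by decide +kernel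
def p14_15_0_69 : pfC (piC [(nat_lit 36888796), (nat_lit 24534081), (nat_lit 18263511), (nat_lit 12310016)] (nat_lit 21892566)) p14_15_0 (nat_lit 4) (nat_lit 69) (nat_lit 70) = true := by decide +kernel
def p14_15_0_70 : pfC (piC [(nat_lit 36888796), (nat_lit 24534081), (nat_lit 18263511), (nat_lit 12310016)] (nat_lit 21892566)) p14_15_0 (nat_lit 4) (nat_lit 70) (nat_lit 71) = true := by decide +kernel
def p14_15_0_71 : pfC (piC [(nat_lit 36888796), (nat_lit 24534081), (nat_lit 18263511), (nat_lit 12310016)] (nat_lit 21892566)) p14_15_0 (nat_lit 4) (nat_lit 71) (nat_lit 72) = true := by decide +kernel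
def p14_15_0_72 : pfC (piC [(nat_lit 36888796), (nat_lit 24534081), (nat_lit 18263511), (nat_lit 12310016)] (nat_lit 21892566)) p14_15_0 (nat_lit 4) (nat_lit 72) (nat_lit 73) = true := by decide +kernel
def p14_15_0_73 : pfC (piC [(nat_lit 36888796), (nat_lit 24534081), (nat_lit 18263511), (nat_lit 12310016)] (nat_lit 21892566)) p14_15_0 (nat_lit 4) (nat_lit 73) (nat_lit 74) = true := by decide +kernel
def p14_15_0_74 : pfC (piC [(nat_lit 36888796), (nat_lit 24534081), (nat_lit 18263511), (nat_lit 12310016)] (nat_lit 21892566)) p14_15_0 (nat_lit 4) (nat_lit 74) (nat_lit 75) = true := by decide +kernel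
def p14_15_0_75 : pfC (piC [(nat_lit 36888796), (nat_lit 24534081), (nat_lit 18263511), (nat_lit 12310016)] (nat_lit 21892566)) p14_15_0 (nat_lit 4) (nat_lit 75) (nat_lit 76) = true := by decide +kernel
def p14_15_0_76 : pfC (piC [(nat_lit 36888796), (nat_lit 24534081), (nat_lit 18263511), (nat_lit 12310016)] (nat_lit 21892566)) p14_15_0 (nat_lit 4) (nat_lit 76) (nat_lit 77) = true := by decide +kernel
def p14_15_0_77 : pfC (piC [(nat_lit 36888796), (nat_lit 24534081), (nat_lit 18263511), (nat_lit 12310016)] (nat_lit 21892566)) p14_15_0 (nat_lit 4) (nat_lit 77) (nat_lit 78) = true := by decide +kernel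
def p14_15_0_78 : pfC (piC [(nat_lit 36888796), (nat_lit 24534081), (nat_lit 18263511), (nat_lit 12310016)] (nat_lit 21892566)) p14_15_0 (nat_lit 4) (nat_lit 78) (nat_lit 79) = true := by decide +kernel
def p14_15_0_79 : pfC (piC [(nat_lit 36888796), (nat_lit 24534081), (nat_lit 18263511), (nat_lit 12310016)] (nat_lit 21892566)) p14_15_0 (nat_lit 4) (nat_lit 79) (nat_lit 80) = true := by decide +kernel
def p14_15_0_80 : pfC (piC [(nat_lit 36888796), (nat_lit 24534081), (nat_lit 18263511), (nat_lit 12310016)] (nat_lit 21892566)) p14_15_0 (nat_lit 4) (nat_lit 80) (nat_lit 81) = true := by decide +kernel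
def p14_15_0_81 : pfC (piC [(nat_lit 36888796), (nat_lit 24534081), (nat_lit 18263511), (nat_lit 12310016)] (nat_lit 21892566)) p14_15_0 (nat_lit 4) (nat_lit 81) (nat_lit 82) = true := by decide +kernel
def p14_15_0_82 : pfC (piC [(nat_lit 36888796), (nat_lit 24534081), (nat_lit 18263511), (nat_lit 12310016)] (nat_lit 21892566)) p14_15_0 (nat_lit 4) (nat_lit 82) (nat_lit 83) = true := by decide +kernel
def p14_15_0_83 : pfC (piC [(nat_lit 36888796), (nat_lit 24534081), (nat_lit 18263511), (nat_lit 12310016)] (nat_lit 21892566)) p14_15_0 (nat_lit 4) (nat_lit 83) (nat_lit 84) = true := by decide +kernel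
def p14_15_0_84 : pfC (piC [(nat_lit 36888796), (nat_lit 24534081), (nat_lit 18263511), (nat_lit 12310016)] (nat_lit 21892566)) p14_15_0 (nat_lit 4) (nat_lit 84) (nat_lit 85) = true := by decide +kernel
def p14_15_0_85 : pfC (piC [(nat_lit 36888796), (nat_lit 24534081), (nat_lit 18263511), (nat_lit 12310016)] (nat_lit 21892566)) p14_15_0 (nat_lit 4) (nat_lit 85) (nat_lit 86) = true := by decide +kernel
def p14_15_0_86 : pfC (piC [(nat_lit 36888796), (nat_lit 24534081), (nat_lit 18263511), (nat_lit 12310016)] (nat_lit 21892566)) p14_15_0 (nat_lit 4) (nat_lit 86) (nat_lit 87) = true := by decide +kernel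
def p14_15_0_87 : pfC (piC [(nat_lit 36888796), (nat_lit 24534081), (nat_lit 18263511), (nat_lit 12310016)] (nat_lit 21892566)) p14_15_0 (nat_lit 4) (nat_lit 87) (nat_lit 88) = true := by decide +kernel
def p14_15_0_88 : pfC (piC [(nat_lit 36888796), (nat_lit 24534081), (nat_lit 18263511), (nat_lit 12310016)] (nat_lit 21892566)) p14_15_0 (nat_lit 4) (nat_lit 88) (nat_lit 89) = true := by decide +kernel
def p14_15_0_89 : pfC (piC [(nat_lit 36888796), (nat_lit 24534081), (nat_lit 18263511), (nat_lit 12310016)] (nat_lit 21892566)) p14_15_0 (nat_lit 4) (nat_lit 89) (nat_lit 90) = true := by decide +kernel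
def p14_15_0_90 : pfC (piC [(nat_lit 36888796), (nat_lit 24534081), (nat_lit 18263511), (nat_lit 12310016)] (nat_lit 21892566)) p14_15_0 (nat_lit 4) (nat_lit 90) (nat_lit 91) = true := by decide +kernel
def p14_15_0_91 : pfC (piC [(nat_lit 36888796), (nat_lit 24534081), (nat_lit 18263511), (nat_lit 12310016)] (nat_lit 21892566)) p14_15_0 (nat_lit 4) (nat_lit 91) (nat_lit 92) = true := by decide +kernel
def p14_15_0_92 : pfC (piC [(nat_lit 36888796), (nat_lit 24534081), (nat_lit 18263511), (nat_lit 12310016)] (nat_lit 21892566)) p14_15_0 (nat_lit 4) (nat_lit 92) (nat_lit 93) = true := by decide +kernel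
def p14_15_0_93 : pfC (piC [(nat_lit 36888796), (nat_lit 24534081), (nat_lit 18263511), (nat_lit 12310016)] (nat_lit 21892566)) p14_15_0 (nat_lit 4) (nat_lit 93) (nat_lit 94) = true := by decide +kernel
def p14_15_0_94 : pfC (piC [(nat_lit 36888796), (nat_lit 24534081), (nat_lit 18263511), (nat_lit 12310016)] (nat_lit 21892566)) p14_15_0 (nat_lit 4) (nat_lit 94) (nat_lit 95) = true := by decide +kernel
def p14_15_0_95 : pfC (piC [(nat_lit 36888796), (nat_lit 24534081), (nat_lit 18263511), (nat_lit 12310016)] (nat_lit 21892566)) p14_15_0 (nat_lit 4) (nat_lit 95) (nat_lit 96) = true := by decide +kernel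
def p14_15_0_96 : pfC (piC [(nat_lit 36888796), (nat_lit 24534081), (nat_lit 18263511), (nat_lit 12310016)] (nat_lit 21892566)) p14_15_0 (nat_lit 4) (nat_lit 96) (nat_lit 97) = true := by decide +kernel
def p14_15_0_97 : pfC (piC [(nat_lit 36888796), (nat_lit 24534081), (nat_lit 18263511), (nat_lit 12310016)] (nat_lit 21892566)) p14_15_0 (nat_lit 4) (nat_lit 97) (nat_lit 98) = true := by decide +kernel
def p14_15_0_98 : pfC (piC [(nat_lit 36888796), (nat_lit 24534081), (nat_lit 18263511), (nat_lit 12310016)] (nat_lit 21892566)) p14_15_0 (nat_lit 4) (nat_lit 98) (nat_lit 99) = true := by decide +kernel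
def p14_15_0_99 : pfC (piC [(nat_lit 36888796), (nat_lit 24534081), (nat_lit 18263511), (nat_lit 12310016)] (nat_lit 21892566)) p14_15_0 (nat_lit 4) (nat_lit 99) (nat_lit 100) = true := by decide +kernel
def p14_15_0_100 : pfC (piC [(nat_lit 36888796), (nat_lit 24534081), (nat_lit 18263511), (nat_lit 12310016)] (nat_lit 21892566)) p14_15_0 (nat_lit 4) (nat_lit 100) (nat_lit 101) = true := by decide +kernel
def p14_15_0_101 : pfC (piC [(nat_lit 36888796), (nat_lit 24534081), (nat_lit 18263511), (nat_lit 12310016)] (nat_lit 21892566)) p14_15_0 (nat_lit 4) (nat_lit 101) (nat_lit 102) = true := by decide +kernel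
def p14_15_0_102 : pfC (piC [(nat_lit 36888796), (nat_lit 24534081), (nat_lit 18263511), (nat_lit 12310016)] (nat_lit 21892566)) p14_15_0 (nat_lit 4) (nat_lit 102) (nat_lit 103) = true := by decide +kernel
def p14_15_0_103 : pfC (piC [(nat_lit 36888796), (nat_lit 24534081), (nat_lit 18263511), (nat_lit 12310016)] (nat_lit 21892566)) p14_15_0 (nat_lit 4) (nat_lit 103) (nat_lit 104) = true := by decide +kernel
def p14_15_0_104 : pfC (piC [(nat_lit 36888796), (nat_lit 24534081), (nat_lit 18263511), (nat_lit 12310016)] (nat_lit 21892566)) p14_15_0 (nat_lit 4) (nat_lit 104) (nat_lit 105) = true := by decide +kernel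
def p14_15_0_105 : pfC (piC [(nat_lit 36888796), (nat_lit 24534081), (nat_lit 18263511), (nat_lit 12310016)] (nat_lit 21892566)) p14_15_0 (nat_lit 4) (nat_lit 105) (nat_lit 106) = true := by decide +kernel
def p14_15_0_106 : pfC (piC [(nat_lit 36888796), (nat_lit 24534081), (nat_lit 18263511), (nat_lit 12310016)] (nat_lit 21892566)) p14_15_0 (nat_lit 4) (nat_lit 106) (nat_lit 107) = true := by decide +kernel
def p14_15_0_107 : pfC (piC [(nat_lit 36888796), (nat_lit 24534081), (nat_lit 18263511), (nat_lit 12310016)] (nat_lit 21892566)) p14_15_0 (nat_lit 4) (nat_lit 107) (nat_lit 108) = true := by decide +kernel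
def p14_15_0_108 : pfC (piC [(nat_lit 36888796), (nat_lit 24534081), (nat_lit 18263511), (nat_lit 12310016)] (nat_lit 21892566)) p14_15_0 (nat_lit 4) (nat_lit 108) (nat_lit 109) = true := by decide +kernel
def p14_15_0_109 : pfC (piC [(nat_lit 36888796), (nat_lit 24534081), (nat_lit 18263511), (nat_lit 12310016)] (nat_lit 21892566)) p14_15_0 (nat_lit 4) (nat_lit 109) (nat_lit 110) = true := by decide +kernel
def p14_15_0_110 : pfC (piC [(nat_lit 36888796), (nat_lit 24534081), (nat_lit 18263511), (nat_lit 12310016)] (nat_lit 21892566)) p14_15_0 (nat_lit 4) (nat_lit 110) (nat_lit 111) = true := by decide +kernel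
def p14_15_0_111 : pfC (piC [(nat_lit 36888796), (nat_lit 24534081), (nat_lit 18263511), (nat_lit 12310016)] (nat_lit 21892566)) p14_15_0 (nat_lit 4) (nat_lit 111) (nat_lit 112) = true := by decide +kernel
def p14_15_0_112 : pfC (piC [(nat_lit 36888796), (nat_lit 24534081), (nat_lit 18263511), (nat_lit 12310016)] (nat_lit 21892566)) p14_15_0 (nat_lit 4) (nat_lit 112) (nat_lit 113) = true := by decide +kernel
def p14_15_0_113 : pfC (piC [(nat_lit 36888796), (nat_lit 24534081), (nat_lit 18263511), (nat_lit 12310016)] (nat_lit 21892566)) p14_15_0 (nat_lit 4) (nat_lit 113) (nat_lit 114) = true := by decide +kernel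
def p14_15_0_114 : pfC (piC [(nat_lit 36888796), (nat_lit 24534081), (nat_lit 18263511), (nat_lit 12310016)] (nat_lit 21892566)) p14_15_0 (nat_lit 4) (nat_lit 114) (nat_lit 115) = true := by decide +kernel
def p14_15_0_115 : pfC (piC [(nat_lit 36888796), (nat_lit 24534081), (nat_lit 18263511), (nat_lit 12310016)] (nat_lit 21892566)) p14_15_0 (nat_lit 4) (nat_lit 115) (nat_lit 116) = true := by decide +kernel
def p14_15_0_116 : pfC (piC [(nat_lit 36888796), (nat_lit 24534081), (nat_lit 18263511), (nat_lit 12310016)] (nat_lit 21892566)) p14_15_0 (nat_lit 4) (nat_lit 116) (nat_lit 117) = true := by decide +kernel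
def p14_15_0_117 : pfC (piC [(nat_lit 36888796), (nat_lit 24534081), (nat_lit 18263511), (nat_lit 12310016)] (nat_lit 21892566)) p14_15_0 (nat_lit 4) (nat_lit 117) (nat_lit 118) = true := by decide +kernel
def p14_15_0_118 : pfC (piC [(nat_lit 36888796), (nat_lit 24534081), (nat_lit 18263511), (nat_lit 12310016)] (nat_lit 21892566)) p14_15_0 (nat_lit 4) (nat_lit 118) (nat_lit 119) = true := by decide +kernel
def p14_15_0_119 : pfC (piC [(nat_lit 36888796), (nat_lit 24534081), (nat_lit 18263511), (nat_lit 12310016)] (nat_lit 21892566)) p14_15_0 (nat_lit 4) (nat_lit 119) (nat_lit 120) = true := by decide +kernel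
def p14_15_0_120 : pfC (piC [(nat_lit 36888796), (nat_lit 24534081), (nat_lit 18263511), (nat_lit 12310016)] (nat_lit 21892566)) p14_15_0 (nat_lit 4) (nat_lit 120) (nat_lit 121) = true := by decide +kernel
def p14_15_0_121 : pfC (piC [(nat_lit 36888796), (nat_lit 24534081), (nat_lit 18263511), (nat_lit 12310016)] (nat_lit 21892566)) p14_15_0 (nat_lit 4) (nat_lit 121) (nat_lit 122) = true := by decide +kernel
def p14_15_0_122 : pfC (piC [(nat_lit 36888796), (nat_lit 24534081), (nat_lit 18263511), (nat_lit 12310016)] (nat_lit 21892566)) p14_15_0 (nat_lit 4) (nat_lit 122) (nat_lit 123) = true := by decide +kernel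
def p14_15_0_123 : pfC (piC [(nat_lit 36888796), (nat_lit 24534081), (nat_lit 18263511), (nat_lit 12310016)] (nat_lit 21892566)) p14_15_0 (nat_lit 4) (nat_lit 123) (nat_lit 124) = true := by decide +kernel
def p14_15_0_124 : pfC (piC [(nat_lit 36888796), (nat_lit 24534081), (nat_lit 18263511), (nat_lit 12310016)] (nat_lit 21892566)) p14_15_0 (nat_lit 4) (nat_lit 124) (nat_lit 125) = true := by decide +kernel
def p14_15_0_125 : pfC (piC [(nat_lit 36888796), (nat_lit 24534081), (nat_lit 18263511), (nat_lit 12310016)] (nat_lit 21892566)) p14_15_0 (nat_lit 4) (nat_lit 125) (nat_lit 126) = true := by decide +kernel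
def p14_15_0_126 : pfC (piC [(nat_lit 36888796), (nat_lit 24534081), (nat_lit 18263511), (nat_lit 12310016)] (nat_lit 21892566)) p14_15_0 (nat_lit 4) (nat_lit 126) (nat_lit 127) = true := by decide +kernel
def p14_15_0_127 : pfC (piC [(nat_lit 36888796), (nat_lit 24534081), (nat_lit 18263511), (nat_lit 12310016)] (nat_lit 21892566)) p14_15_0 (nat_lit 4) (nat_lit 127) (nat_lit 128) = true := by decide +kernel
def p14_15_0_128 : pfC (piC [(nat_lit 36888796), (nat_lit 24534081), (nat_lit 18263511), (nat_lit 12310016)] (nat_lit 21892566)) p14_15_0 (nat_lit 4) (nat_lit 128) (nat_lit 129) = true := by decide +kernel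
def p14_15_0_129 : pfC (piC [(nat_lit 36888796), (nat_lit 24534081), (nat_lit 18263511), (nat_lit 12310016)] (nat_lit 21892566)) p14_15_0 (nat_lit 4) (nat_lit 129) (nat_lit 130) = true := by decide +kernel
def p14_15_0_130 : pfC (piC [(nat_lit 36888796), (nat_lit 24534081), (nat_lit 18263511), (nat_lit 12310016)] (nat_lit 21892566)) p14_15_0 (nat_lit 4) (nat_lit 130) (nat_lit 131) = true := by decide +kernel
def p14_15_0_131 : pfC (piC [(nat_lit 36888796), (nat_lit 24534081), (nat_lit 18263511), (nat_lit 12310016)] (nat_lit 21892566)) p14_15_0 (nat_lit 4) (nat_lit 131) (nat_lit 132) = true := by decide +kernel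
def p14_15_0_132 : pfC (piC [(nat_lit 36888796), (nat_lit 24534081), (nat_lit 18263511), (nat_lit 12310016)] (nat_lit 21892566)) p14_15_0 (nat_lit 4) (nat_lit 132) (nat_lit 133) = true := by decide +kernel
def p14_15_0_133 : pfC (piC [(nat_lit 36888796), (nat_lit 24534081), (nat_lit 18263511), (nat_lit 12310016)] (nat_lit 21892566)) p14_15_0 (nat_lit 4) (nat_lit 133) (nat_lit 134) = true := by decide +kernel
def p14_15_0_134 : pfC (piC [(nat_lit 36888796), (nat_lit 24534081), (nat_lit 18263511), (nat_lit 12310016)] (nat_lit 21892566)) p14_15_0 (nat_lit 4) (nat_lit 134) (nat_lit 135) = true := by decide +kernel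
def p14_15_0_135 : pfC (piC [(nat_lit 36888796), (nat_lit 24534081), (nat_lit 18263511), (nat_lit 12310016)] (nat_lit 21892566)) p14_15_0 (nat_lit 4) (nat_lit 135) (nat_lit 136) = true := by decide +kernel
def p14_15_0_136 : pfC (piC [(nat_lit 36888796), (nat_lit 24534081), (nat_lit 18263511), (nat_lit 12310016)] (nat_lit 21892566)) p14_15_0 (nat_lit 4) (nat_lit 136) (nat_lit 137) = true := by decide +kernel
def p14_15_0_137 : pfC (piC [(nat_lit 36888796), (nat_lit 24534081), (nat_lit 18263511), (nat_lit 12310016)] (nat_lit 21892566)) p14_15_0 (nat_lit 4) (nat_lit 137) (nat_lit 138) = true := by decide +kernel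
def p14_15_0_138 : pfC (piC [(nat_lit 36888796), (nat_lit 24534081), (nat_lit 18263511), (nat_lit 12310016)] (nat_lit 21892566)) p14_15_0 (nat_lit 4) (nat_lit 138) (nat_lit 139) = true := by decide +kernel
def p14_15_0_139 : pfC (piC [(nat_lit 36888796), (nat_lit 24534081), (nat_lit 18263511), (nat_lit 12310016)] (nat_lit 21892566)) p14_15_0 (nat_lit 4) (nat_lit 139) (nat_lit 140) = true := by decide +kernel
def p14_15_0_140 : pfC (piC [(nat_lit 36888796), (nat_lit 24534081), (nat_lit 18263511), (nat_lit 12310016)] (nat_lit 21892566)) p14_15_0 (nat_lit 4) (nat_lit 140) (nat_lit 141) = true := by decide +kernel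
def p14_15_0_141 : pfC (piC [(nat_lit 36888796), (nat_lit 24534081), (nat_lit 18263511), (nat_lit 12310016)] (nat_lit 21892566)) p14_15_0 (nat_lit 4) (nat_lit 141) (nat_lit 142) = true := by decide +kernel
def p14_15_0_142 : pfC (piC [(nat_lit 36888796), (nat_lit 24534081), (nat_lit 18263511), (nat_lit 12310016)] (nat_lit 21892566)) p14_15_0 (nat_lit 4) (nat_lit 142) (nat_lit 143) = true := by decide +kernel
def p14_15_0_143 : pfC (piC [(nat_lit 36888796), (nat_lit 24534081), (nat_lit 18263511), (nat_lit 12310016)] (nat_lit 21892566)) p14_15_0 (nat_lit 4) (nat_lit 143) (nat_lit 144) = true := by decide +kernel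
def p14_15_0_144 : pfC (piC [(nat_lit 36888796), (nat_lit 24534081), (nat_lit 18263511), (nat_lit 12310016)] (nat_lit 21892566)) p14_15_0 (nat_lit 4) (nat_lit 144) (nat_lit 145) = true := by decide +kernel
def p14_15_0_145 : pfC (piC [(nat_lit 36888796), (nat_lit 24534081), (nat_lit 18263511), (nat_lit 12310016)] (nat_lit 21892566)) p14_15_0 (nat_lit 4) (nat_lit 145) (nat_lit 146) = true := by decide +kernel
def p14_15_0_146 : pfC (piC [(nat_lit 36888796), (nat_lit 24534081), (nat_lit 18263511), (nat_lit 12310016)] (nat_lit 21892566)) p14_15_0 (nat_lit 4) (nat_lit 146) (nat_lit 147) = true := by decide +kernel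
def p14_15_0_147 : pfC (piC [(nat_lit 36888796), (nat_lit 24534081), (nat_lit 18263511), (nat_lit 12310016)] (nat_lit 21892566)) p14_15_0 (nat_lit 4) (nat_lit 147) (nat_lit 148) = true := by decide +kernel
def p14_15_0_148 : pfC (piC [(nat_lit 36888796), (nat_lit 24534081), (nat_lit 18263511), (nat_lit 12310016)] (nat_lit 21892566)) p14_15_0 (nat_lit 4) (nat_lit 148) (nat_lit 149) = true := by decide +kernel
def p14_15_0_149 : pfC (piC [(nat_lit 36888796), (nat_lit 24534081), (nat_lit 18263511), (nat_lit 12310016)] (nat_lit 21892566)) p14_15_0 (nat_lit 4) (nat_lit 149) (nat_lit 150) = true := by decide +kernel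
def p14_15_0_150 : pfC (piC [(nat_lit 36888796), (nat_lit 24534081), (nat_lit 18263511), (nat_lit 12310016)] (nat_lit 21892566)) p14_15_0 (nat_lit 4) (nat_lit 150) (nat_lit 151) = true := by decide +kernel
def p14_15_0_151 : pfC (piC [(nat_lit 36888796), (nat_lit 24534081), (nat_lit 18263511), (nat_lit 12310016)] (nat_lit 21892566)) p14_15_0 (nat_lit 4) (nat_lit 151) (nat_lit 152) = true := by decide +kernel
def p14_15_0_152 : pfC (piC [(nat_lit 36888796), (nat_lit 24534081), (nat_lit 18263511), (nat_lit 12310016)] (nat_lit 21892566)) p14_15_0 (nat_lit 4) (nat_lit 152) (nat_lit 153) = true := by decide +kernel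
def p14_15_0_153 : pfC (piC [(nat_lit 36888796), (nat_lit 24534081), (nat_lit 18263511), (nat_lit 12310016)] (nat_lit 21892566)) p14_15_0 (nat_lit 4) (nat_lit 153) (nat_lit 154) = true := by decide +kernel
def p14_15_0_154 : pfC (piC [(nat_lit 36888796), (nat_lit 24534081), (nat_lit 18263511), (nat_lit 12310016)] (nat_lit 21892566)) p14_15_0 (nat_lit 4) (nat_lit 154) (nat_lit 155) = true := by decide +kernel
def p14_15_0_155 : pfC (piC [(nat_lit 36888796), (nat_lit 24534081), (nat_lit 18263511), (nat_lit 12310016)] (nat_lit 21892566)) p14_15_0 (nat_lit 4) (nat_lit 155) (nat_lit 156) = true := by decide +kernel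
def p14_15_0_156 : pfC (piC [(nat_lit 36888796), (nat_lit 24534081), (nat_lit 18263511), (nat_lit 12310016)] (nat_lit 21892566)) p14_15_0 (nat_lit 4) (nat_lit 156) (nat_lit 157) = true := by decide +kernel
def p14_15_0_157 : pfC (piC [(nat_lit 36888796), (nat_lit 24534081), (nat_lit 18263511), (nat_lit 12310016)] (nat_lit 21892566)) p14_15_0 (nat_lit 4) (nat_lit 157) (nat_lit 158) = true := by decide +kernel
def p14_15_0_158 : pfC (piC [(nat_lit 36888796), (nat_lit 24534081), (nat_lit 18263511), (nat_lit 12310016)] (nat_lit 21892566)) p14_15_0 (nat_lit 4) (nat_lit 158) (nat_lit 159) = true := by decide +kernel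
def p14_15_0_159 : pfC (piC [(nat_lit 36888796), (nat_lit 24534081), (nat_lit 18263511), (nat_lit 12310016)] (nat_lit 21892566)) p14_15_0 (nat_lit 4) (nat_lit 159) (nat_lit 160) = true := by decide +kernel
def p14_15_0_160 : pfC (piC [(nat_lit 36888796), (nat_lit 24534081), (nat_lit 18263511), (nat_lit 12310016)] (nat_lit 21892566)) p14_15_0 (nat_lit 4) (nat_lit 160) (nat_lit 161) = true := by decide +kernel
def p14_15_0_161 : pfC (piC [(nat_lit 36888796), (nat_lit 24534081), (nat_lit 18263511), (nat_lit 12310016)] (nat_lit 21892566)) p14_15_0 (nat_lit 4) (nat_lit 161) (nat_lit 162) = true := by decide +kernel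
def p14_15_0_162 : pfC (piC [(nat_lit 36888796), (nat_lit 24534081), (nat_lit 18263511), (nat_lit 12310016)] (nat_lit 21892566)) p14_15_0 (nat_lit 4) (nat_lit 162) (nat_lit 163) = true := by decide +kernel
def p14_15_0_163 : pfC (piC [(nat_lit 36888796), (nat_lit 24534081), (nat_lit 18263511), (nat_lit 12310016)] (nat_lit 21892566)) p14_15_0 (nat_lit 4) (nat_lit 163) (nat_lit 164) = true := by decide +kernel
def p14_15_0_164 : pfC (piC [(nat_lit 36888796), (nat_lit 24534081), (nat_lit 18263511), (nat_lit 12310016)] (nat_lit 21892566)) p14_15_0 (nat_lit 4) (nat_lit 164) (nat_lit 165) = true := by decide +kernel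
def p14_15_0_165 : pfC (piC [(nat_lit 36888796), (nat_lit 24534081), (nat_lit 18263511), (nat_lit 12310016)] (nat_lit 21892566)) p14_15_0 (nat_lit 4) (nat_lit 165) (nat_lit 166) = true := by decide +kernel
def p14_15_0_166 : pfC (piC [(nat_lit 36888796), (nat_lit 24534081), (nat_lit 18263511), (nat_lit 12310016)] (nat_lit 21892566)) p14_15_0 (nat_lit 4) (nat_lit 166) (nat_lit 167) = true := by decide +kernel
def p14_15_0_167 : pfC (piC [(nat_lit 36888796), (nat_lit 24534081), (nat_lit 18263511), (nat_lit 12310016)] (nat_lit 21892566)) p14_15_0 (nat_lit 4) (nat_lit 167) (nat_lit 168) = true := by decide +kernel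
def p14_15_0_168 : pfC (piC [(nat_lit 36888796), (nat_lit 24534081), (nat_lit 18263511), (nat_lit 12310016)] (nat_lit 21892566)) p14_15_0 (nat_lit 4) (nat_lit 168) (nat_lit 169) = true := by decide +kernel
def p14_15_0_169 : pfC (piC [(nat_lit 36888796), (nat_lit 24534081), (nat_lit 18263511), (nat_lit 12310016)] (nat_lit 21892566)) p14_15_0 (nat_lit 4) (nat_lit 169) (nat_lit 170) = true := by decide +kernel
def p14_15_0_170 : pfC (piC [(nat_lit 36888796), (nat_lit 24534081), (nat_lit 18263511), (nat_lit 12310016)] (nat_lit 21892566)) p14_15_0 (nat_lit 4) (nat_lit 170) (nat_lit 171) = true := by decide +kernel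
def p14_15_0_171 : pfC (piC [(nat_lit 36888796), (nat_lit 24534081), (nat_lit 18263511), (nat_lit 12310016)] (nat_lit 21892566)) p14_15_0 (nat_lit 4) (nat_lit 171) (nat_lit 172) = true := by decide +kernel
def p14_15_0_172 : pfC (piC [(nat_lit 36888796), (nat_lit 24534081), (nat_lit 18263511), (nat_lit 12310016)] (nat_lit 21892566)) p14_15_0 (nat_lit 4) (nat_lit 172) (nat_lit 173) = true := by decide +kernel
def p14_15_0_173 : pfC (piC [(nat_lit 36888796), (nat_lit 24534081), (nat_lit 18263511), (nat_lit 12310016)] (nat_lit 21892566)) p14_15_0 (nat_lit 4) (nat_lit 173) (nat_lit 174) = true := by decide +kernel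
def p14_15_0_174 : pfC (piC [(nat_lit 36888796), (nat_lit 24534081), (nat_lit 18263511), (nat_lit 12310016)] (nat_lit 21892566)) p14_15_0 (nat_lit 4) (nat_lit 174) (nat_lit 175) = true := by decide +kernel
def p14_15_0_175 : pfC (piC [(nat_lit 36888796), (nat_lit 24534081), (nat_lit 18263511), (nat_lit 12310016)] (nat_lit 21892566)) p14_15_0 (nat_lit 4) (nat_lit 175) (nat_lit 176) = true := by decide +kernel
def p14_15_0_176 : pfC (piC [(nat_lit 36888796), (nat_lit 24534081), (nat_lit 18263511), (nat_lit 12310016)] (nat_lit 21892566)) p14_15_0 (nat_lit 4) (nat_lit 176) (nat_lit 177) = true := by decide +kernel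
def p14_15_0_177 : pfC (piC [(nat_lit 36888796), (nat_lit 24534081), (nat_lit 18263511), (nat_lit 12310016)] (nat_lit 21892566)) p14_15_0 (nat_lit 4) (nat_lit 177) (nat_lit 178) = true := by decide +kernel
def p14_15_0_178 : pfC (piC [(nat_lit 36888796), (nat_lit 24534081), (nat_lit 18263511), (nat_lit 12310016)] (nat_lit 21892566)) p14_15_0 (nat_lit 4) (nat_lit 178) (nat_lit 179) = true := by decide +kernel
def p14_15_0_179 : pfC (piC [(nat_lit 36888796), (nat_lit 24534081), (nat_lit 18263511), (nat_lit 12310016)] (nat_lit 21892566)) p14_15_0 (nat_lit 4) (nat_lit 179) (nat_lit 180) = true := by decide +kernel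
def p14_15_0_180 : pfC (piC [(nat_lit 36888796), (nat_lit 24534081), (nat_lit 18263511), (nat_lit 12310016)] (nat_lit 21892566)) p14_15_0 (nat_lit 4) (nat_lit 180) (nat_lit 181) = true := by decide +kernel
def p14_15_0_181 : pfC (piC [(nat_lit 36888796), (nat_lit 24534081), (nat_lit 18263511), (nat_lit 12310016)] (nat_lit 21892566)) p14_15_0 (nat_lit 4) (nat_lit 181) (nat_lit 182) = true := by decide +kernel
def p14_15_0_182 : pfC (piC [(nat_lit 36888796), (nat_lit 24534081), (nat_lit 18263511), (nat_lit 12310016)] (nat_lit 21892566)) p14_15_0 (nat_lit 4) (nat_lit 182) (nat_lit 183) = true := by decide +kernel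
def p14_15_0_183 : pfC (piC [(nat_lit 36888796), (nat_lit 24534081), (nat_lit 18263511), (nat_lit 12310016)] (nat_lit 21892566)) p14_15_0 (nat_lit 4) (nat_lit 183) (nat_lit 184) = true := by decide +kernel
def p14_15_0_184 : pfC (piC [(nat_lit 36888796), (nat_lit 24534081), (nat_lit 18263511), (nat_lit 12310016)] (nat_lit 21892566)) p14_15_0 (nat_lit 4) (nat_lit 184) (nat_lit 185) = true := by decide +kernel
def p14_15_0_185 : pfC (piC [(nat_lit 36888796), (nat_lit 24534081), (nat_lit 18263511), (nat_lit 12310016)] (nat_lit 21892566)) p14_15_0 (nat_lit 4) (nat_lit 185) (nat_lit 186) = true := by decide +kernel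
def p14_15_0_186 : pfC (piC [(nat_lit 36888796), (nat_lit 24534081), (nat_lit 18263511), (nat_lit 12310016)] (nat_lit 21892566)) p14_15_0 (nat_lit 4) (nat_lit 186) (nat_lit 187) = true := by decide +kernel
def p14_15_0_187 : pfC (piC [(nat_lit 36888796), (nat_lit 24534081), (nat_lit 18263511), (nat_lit 12310016)] (nat_lit 21892566)) p14_15_0 (nat_lit 4) (nat_lit 187) (nat_lit 188) = true := by decide +kernel
def p14_15_0_188 : pfC (piC [(nat_lit 36888796), (nat_lit 24534081), (nat_lit 18263511), (nat_lit 12310016)] (nat_lit 21892566)) p14_15_0 (nat_lit 4) (nat_lit 188) (nat_lit 189) = true := by decide +kernel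
def p14_15_0_189 : pfC (piC [(nat_lit 36888796), (nat_lit 24534081), (nat_lit 18263511), (nat_lit 12310016)] (nat_lit 21892566)) p14_15_0 (nat_lit 4) (nat_lit 189) (nat_lit 190) = true := by decide +kernel
def p14_15_0_190 : pfC (piC [(nat_lit 36888796), (nat_lit 24534081), (nat_lit 18263511), (nat_lit 12310016)] (nat_lit 21892566)) p14_15_0 (nat_lit 4) (nat_lit 190) (nat_lit 191) = true := by decide +kernel
def p14_15_0_191 : pfC (piC [(nat_lit 36888796), (nat_lit 24534081), (nat_lit 18263511), (nat_lit 12310016)] (nat_lit 21892566)) p14_15_0 (nat_lit 4) (nat_lit 191) (nat_lit 192) = true := by decide +kernel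
def p14_15_0_192 : pfC (piC [(nat_lit 36888796), (nat_lit 24534081), (nat_lit 18263511), (nat_lit 12310016)] (nat_lit 21892566)) p14_15_0 (nat_lit 4) (nat_lit 192) (nat_lit 193) = true := by decide +kernel
def p14_15_0_193 : pfC (piC [(nat_lit 36888796), (nat_lit 24534081), (nat_lit 18263511), (nat_lit 12310016)] (nat_lit 21892566)) p14_15_0 (nat_lit 4) (nat_lit 193) (nat_lit 194) = true := by decide +kernel
def p14_15_0_194 : pfC (piC [(nat_lit 36888796), (nat_lit 24534081), (nat_lit 18263511), (nat_lit 12310016)] (nat_lit 21892566)) p14_15_0 (nat_lit 4) (nat_lit 194) (nat_lit 195) = true := by decide +kernel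
def p14_15_0_195 : pfC (piC [(nat_lit 36888796), (nat_lit 24534081), (nat_lit 18263511), (nat_lit 12310016)] (nat_lit 21892566)) p14_15_0 (nat_lit 4) (nat_lit 195) (nat_lit 196) = true := by decide +kernel
def p14_15_0_196 : pfC (piC [(nat_lit 36888796), (nat_lit 24534081), (nat_lit 18263511), (nat_lit 12310016)] (nat_lit 21892566)) p14_15_0 (nat_lit 4) (nat_lit 196) (nat_lit 197) = true := by decide +kernel
def p14_15_0_197 : pfC (piC [(nat_lit 36888796), (nat_lit 24534081), (nat_lit 18263511), (nat_lit 12310016)] (nat_lit 21892566)) p14_15_0 (nat_lit 4) (nat_lit 197) (nat_lit 198) = true := by decide +kernel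
def p14_15_0_198 : pfC (piC [(nat_lit 36888796), (nat_lit 24534081), (nat_lit 18263511), (nat_lit 12310016)] (nat_lit 21892566)) p14_15_0 (nat_lit 4) (nat_lit 198) (nat_lit 199) = true := by decide +kernel
def p14_15_0_199 : pfC (piC [(nat_lit 36888796), (nat_lit 24534081), (nat_lit 18263511), (nat_lit 12310016)] (nat_lit 21892566)) p14_15_0 (nat_lit 4) (nat_lit 199) (nat_lit 200) = true := by decide +kernel
def p14_15_0_200 : pfC (piC [(nat_lit 36888796), (nat_lit 24534081), (nat_lit 18263511), (nat_lit 12310016)] (nat_lit 21892566)) p14_15_0 (nat_lit 4) (nat_lit 200) (nat_lit 201) = true := by decide +kernel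
def p14_15_0_201 : pfC (piC [(nat_lit 36888796), (nat_lit 24534081), (nat_lit 18263511), (nat_lit 12310016)] (nat_lit 21892566)) p14_15_0 (nat_lit 4) (nat_lit 201) (nat_lit 202) = true := by decide +kernel
def p14_15_0_202 : pfC (piC [(nat_lit 36888796), (nat_lit 24534081), (nat_lit 18263511), (nat_lit 12310016)] (nat_lit 21892566)) p14_15_0 (nat_lit 4) (nat_lit 202) (nat_lit 203) = true := by decide +kernel
def p14_15_0_203 : pfC (piC [(nat_lit 36888796), (nat_lit 24534081), (nat_lit 18263511), (nat_lit 12310016)] (nat_lit 21892566)) p14_15_0 (nat_lit 4) (nat_lit 203) (nat_lit 204) = true := by decide +kernel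
def p14_15_0_204 : pfC (piC [(nat_lit 36888796), (nat_lit 24534081), (nat_lit 18263511), (nat_lit 12310016)] (nat_lit 21892566)) p14_15_0 (nat_lit 4) (nat_lit 204) (nat_lit 205) = true := by decide +kernel
def p14_15_0_205 : pfC (piC [(nat_lit 36888796), (nat_lit 24534081), (nat_lit 18263511), (nat_lit 12310016)] (nat_lit 21892566)) p14_15_0 (nat_lit 4) (nat_lit 205) (nat_lit 206) = true := by decide +kernel
def p14_15_0_206 : pfC (piC [(nat_lit 36888796), (nat_lit 24534081), (nat_lit 18263511), (nat_lit 12310016)] (nat_lit 21892566)) p14_15_0 (nat_lit 4) (nat_lit 206) (nat_lit 207) = true := by decide +kernel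
def p14_15_0_207 : pfC (piC [(nat_lit 36888796), (nat_lit 24534081), (nat_lit 18263511), (nat_lit 12310016)] (nat_lit 21892566)) p14_15_0 (nat_lit 4) (nat_lit 207) (nat_lit 208) = true := by decide +kernel
def p14_15_0_208 : pfC (piC [(nat_lit 36888796), (nat_lit 24534081), (nat_lit 18263511), (nat_lit 12310016)] (nat_lit 21892566)) p14_15_0 (nat_lit 4) (nat_lit 208) (nat_lit 209) = true := by decide +kernel
def p14_15_0_209 : pfC (piC [(nat_lit 36888796), (nat_lit 24534081), (nat_lit 18263511), (nat_lit 12310016)] (nat_lit 21892566)) p14_15_0 (nat_lit 4) (nat_lit 209) (nat_lit 210) = true := by decide +kernel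
def p14_15_0_210 : pfC (piC [(nat_lit 36888796), (nat_lit 24534081), (nat_lit 18263511), (nat_lit 12310016)] (nat_lit 21892566)) p14_15_0 (nat_lit 4) (nat_lit 210) (nat_lit 211) = true := by decide +kernel
def p14_15_0_211 : pfC (piC [(nat_lit 36888796), (nat_lit 24534081), (nat_lit 18263511), (nat_lit 12310016)] (nat_lit 21892566)) p14_15_0 (nat_lit 4) (nat_lit 211) (nat_lit 212) = true := by decide +kernel
def p14_15_0_212 : pfC (piC [(nat_lit 36888796), (nat_lit 24534081), (nat_lit 18263511), (nat_lit 12310016)] (nat_lit 21892566)) p14_15_0 (nat_lit 4) (nat_lit 212) (nat_lit 213) = true := by decide +kernel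
def p14_15_0_213 : pfC (piC [(nat_lit 36888796), (nat_lit 24534081), (nat_lit 18263511), (nat_lit 12310016)] (nat_lit 21892566)) p14_15_0 (nat_lit 4) (nat_lit 213) (nat_lit 214) = true := by decide +kernel
def p14_15_0_214 : pfC (piC [(nat_lit 36888796), (nat_lit 24534081), (nat_lit 18263511), (nat_lit 12310016)] (nat_lit 21892566)) p14_15_0 (nat_lit 4) (nat_lit 214) (nat_lit 215) = true := by decide +kernel
def p14_15_0_215 : pfC (piC [(nat_lit 36888796), (nat_lit 24534081), (nat_lit 18263511), (nat_lit 12310016)] (nat_lit 21892566)) p14_15_0 (nat_lit 4) (nat_lit 215) (nat_lit 216) = true := by decide +kernel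
def p14_15_0_216 : pfC (piC [(nat_lit 36888796), (nat_lit 24534081), (nat_lit 18263511), (nat_lit 12310016)] (nat_lit 21892566)) p14_15_0 (nat_lit 4) (nat_lit 216) (nat_lit 217) = true := by decide +kernel
def p14_15_0_217 : pfC (piC [(nat_lit 36888796), (nat_lit 24534081), (nat_lit 18263511), (nat_lit 12310016)] (nat_lit 21892566)) p14_15_0 (nat_lit 4) (nat_lit 217) (nat_lit 218) = true := by decide +kernel
def p14_15_0_218 : pfC (piC [(nat_lit 36888796), (nat_lit 24534081), (nat_lit 18263511), (nat_lit 12310016)] (nat_lit 21892566)) p14_15_0 (nat_lit 4) (nat_lit 218) (nat_lit 219) = true := by decide +kernel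
def p14_15_0_219 : pfC (piC [(nat_lit 36888796), (nat_lit 24534081), (nat_lit 18263511), (nat_lit 12310016)] (nat_lit 21892566)) p14_15_0 (nat_lit 4) (nat_lit 219) (nat_lit 220) = true := by decide +kernel
def p14_15_0_220 : pfC (piC [(nat_lit 36888796), (nat_lit 24534081), (nat_lit 18263511), (nat_lit 12310016)] (nat_lit 21892566)) p14_15_0 (nat_lit 4) (nat_lit 220) (nat_lit 221) = true := by decide +kernel
def p14_15_0_221 : pfC (piC [(nat_lit 36888796), (nat_lit 24534081), (nat_lit 18263511), (nat_lit 12310016)] (nat_lit 21892566)) p14_15_0 (nat_lit 4) (nat_lit 221) (nat_lit 222) = true := by decide +kernel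
def p14_15_0_222 : pfC (piC [(nat_lit 36888796), (nat_lit 24534081), (nat_lit 18263511), (nat_lit 12310016)] (nat_lit 21892566)) p14_15_0 (nat_lit 4) (nat_lit 222) (nat_lit 223) = true := by decide +kernel
def p14_15_0_223 : pfC (piC [(nat_lit 36888796), (nat_lit 24534081), (nat_lit 18263511), (nat_lit 12310016)] (nat_lit 21892566)) p14_15_0 (nat_lit 4) (nat_lit 223) (nat_lit 224) = true := by decide +kernel
def p14_15_0_224 : pfC (piC [(nat_lit 36888796), (nat_lit 24534081), (nat_lit 18263511), (nat_lit 12310016)] (nat_lit 21892566)) p14_15_0 (nat_lit 4) (nat_lit 224) (nat_lit 225) = true := by decide +kernel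
def p14_15_0_225 : pfC (piC [(nat_lit 36888796), (nat_lit 24534081), (nat_lit 18263511), (nat_lit 12310016)] (nat_lit 21892566)) p14_15_0 (nat_lit 4) (nat_lit 225) (nat_lit 226) = true := by decide +kernel
def p14_15_0_226 : pfC (piC [(nat_lit 36888796), (nat_lit 24534081), (nat_lit 18263511), (nat_lit 12310016)] (nat_lit 21892566)) p14_15_0 (nat_lit 4) (nat_lit 226) (nat_lit 227) = true := by decide +kernel
def p14_15_0_227 : pfC (piC [(nat_lit 36888796), (nat_lit 24534081), (nat_lit 18263511), (nat_lit 12310016)] (nat_lit 21892566)) p14_15_0 (nat_lit 4) (nat_lit 227) (nat_lit 228) = true := by decide +kernel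
def p14_15_0_228 : pfC (piC [(nat_lit 36888796), (nat_lit 24534081), (nat_lit 18263511), (nat_lit 12310016)] (nat_lit 21892566)) p14_15_0 (nat_lit 4) (nat_lit 228) (nat_lit 229) = true := by decide +kernel
def p14_15_0_229 : pfC (piC [(nat_lit 36888796), (nat_lit 24534081), (nat_lit 18263511), (nat_lit 12310016)] (nat_lit 21892566)) p14_15_0 (nat_lit 4) (nat_lit 229) (nat_lit 230) = true := by decide +kernel
def p14_15_0_230 : pfC (piC [(nat_lit 36888796), (nat_lit 24534081), (nat_lit 18263511), (nat_lit 12310016)] (nat_lit 21892566)) p14_15_0 (nat_lit 4) (nat_lit 230) (nat_lit 231) = true := by decide +kernel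
def p14_15_0_231 : pfC (piC [(nat_lit 36888796), (nat_lit 24534081), (nat_lit 18263511), (nat_lit 12310016)] (nat_lit 21892566)) p14_15_0 (nat_lit 4) (nat_lit 231) (nat_lit 232) = true := by decide +kernel
def p14_15_0_232 : pfC (piC [(nat_lit 36888796), (nat_lit 24534081), (nat_lit 18263511), (nat_lit 12310016)] (nat_lit 21892566)) p14_15_0 (nat_lit 4) (nat_lit 232) (nat_lit 233) = true := by decide +kernel
def p14_15_0_233 : pfC (piC [(nat_lit 36888796), (nat_lit 24534081), (nat_lit 18263511), (nat_lit 12310016)] (nat_lit 21892566)) p14_15_0 (nat_lit 4) (nat_lit 233) (nat_lit 234) = true := by decide +kernel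
def p14_15_0_234 : pfC (piC [(nat_lit 36888796), (nat_lit 24534081), (nat_lit 18263511), (nat_lit 12310016)] (nat_lit 21892566)) p14_15_0 (nat_lit 4) (nat_lit 234) (nat_lit 235) = true := by decide +kernel
def p14_15_0_235 : pfC (piC [(nat_lit 36888796), (nat_lit 24534081), (nat_lit 18263511), (nat_lit 12310016)] (nat_lit 21892566)) p14_15_0 (nat_lit 4) (nat_lit 235) (nat_lit 236) = true := by decide +kernel
def p14_15_0_236 : pfC (piC [(nat_lit 36888796), (nat_lit 24534081), (nat_lit 18263511), (nat_lit 12310016)] (nat_lit 21892566)) p14_15_0 (nat_lit 4) (nat_lit 236) (nat_lit 237) = true := by decide +kernel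
def p14_15_0_237 : pfC (piC [(nat_lit 36888796), (nat_lit 24534081), (nat_lit 18263511), (nat_lit 12310016)] (nat_lit 21892566)) p14_15_0 (nat_lit 4) (nat_lit 237) (nat_lit 238) = true := by decide +kernel
def p14_15_0_238 : pfC (piC [(nat_lit 36888796), (nat_lit 24534081), (nat_lit 18263511), (nat_lit 12310016)] (nat_lit 21892566)) p14_15_0 (nat_lit 4) (nat_lit 238) (nat_lit 239) = true := by decide +kernel
def p14_15_0_239 : pfC (piC [(nat_lit 36888796), (nat_lit 24534081), (nat_lit 18263511), (nat_lit 12310016)] (nat_lit 21892566)) p14_15_0 (nat_lit 4) (nat_lit 239) (nat_lit 240) = true := by decide +kernel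
def p14_15_0_240 : pfC (piC [(nat_lit 36888796), (nat_lit 24534081), (nat_lit 18263511), (nat_lit 12310016)] (nat_lit 21892566)) p14_15_0 (nat_lit 4) (nat_lit 240) (nat_lit 241) = true := by decide +kernel
def p14_15_0_241 : pfC (piC [(nat_lit 36888796), (nat_lit 24534081), (nat_lit 18263511), (nat_lit 12310016)] (nat_lit 21892566)) p14_15_0 (nat_lit 4) (nat_lit 241) (nat_lit 242) = true := by decide +kernel
def p14_15_0_242 : pfC (piC [(nat_lit 36888796), (nat_lit 24534081), (nat_lit 18263511), (nat_lit 12310016)] (nat_lit 21892566)) p14_15_0 (nat_lit 4) (nat_lit 242) (nat_lit 243) = true := by decide +kernel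
def p14_15_0_243 : pfC (piC [(nat_lit 36888796), (nat_lit 24534081), (nat_lit 18263511), (nat_lit 12310016)] (nat_lit 21892566)) p14_15_0 (nat_lit 4) (nat_lit 243) (nat_lit 244) = true := by decide +kernel
def p14_15_0_244 : pfC (piC [(nat_lit 36888796), (nat_lit 24534081), (nat_lit 18263511), (nat_lit 12310016)] (nat_lit 21892566)) p14_15_0 (nat_lit 4) (nat_lit 244) (nat_lit 245) = true := by decide +kernel
def p14_15_0_245 : pfC (piC [(nat_lit 36888796), (nat_lit 24534081), (nat_lit 18263511), (nat_lit 12310016)] (nat_lit 21892566)) p14_15_0 (nat_lit 4) (nat_lit 245) (nat_lit 246) = true := by decide +kernel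
def p14_15_0_246 : pfC (piC [(nat_lit 36888796), (nat_lit 24534081), (nat_lit 18263511), (nat_lit 12310016)] (nat_lit 21892566)) p14_15_0 (nat_lit 4) (nat_lit 246) (nat_lit 247) = true := by decide +kernel
def p14_15_0_247 : pfC (piC [(nat_lit 36888796), (nat_lit 24534081), (nat_lit 18263511), (nat_lit 12310016)] (nat_lit 21892566)) p14_15_0 (nat_lit 4) (nat_lit 247) (nat_lit 248) = true := by decide +kernel
def p14_15_0_248 : pfC (piC [(nat_lit 36888796), (nat_lit 24534081), (nat_lit 18263511), (nat_lit 12310016)] (nat_lit 21892566)) p14_15_0 (nat_lit 4) (nat_lit 248) (nat_lit 249) = true := by decide +kernel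
def p14_15_0_249 : pfC (piC [(nat_lit 36888796), (nat_lit 24534081), (nat_lit 18263511), (nat_lit 12310016)] (nat_lit 21892566)) p14_15_0 (nat_lit 4) (nat_lit 249) (nat_lit 250) = true := by decide +kernel
def p14_15_0_250 : pfC (piC [(nat_lit 36888796), (nat_lit 24534081), (nat_lit 18263511), (nat_lit 12310016)] (nat_lit 21892566)) p14_15_0 (nat_lit 4) (nat_lit 250) (nat_lit 251) = true := by decide +kernel
def p14_15_0_251 : pfC (piC [(nat_lit 36888796), (nat_lit 24534081), (nat_lit 18263511), (nat_lit 12310016)] (nat_lit 21892566)) p14_15_0 (nat_lit 4) (nat_lit 251) (nat_lit 252) = true := by decide +kernel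
def p14_15_0_252 : pfC (piC [(nat_lit 36888796), (nat_lit 24534081), (nat_lit 18263511), (nat_lit 12310016)] (nat_lit 21892566)) p14_15_0 (nat_lit 4) (nat_lit 252) (nat_lit 253) = true := by decide +kernel
def p14_15_0_253 : pfC (piC [(nat_lit 36888796), (nat_lit 24534081), (nat_lit 18263511), (nat_lit 12310016)] (nat_lit 21892566)) p14_15_0 (nat_lit 4) (nat_lit 253) (nat_lit 254) = true := by decide +kernel
def p14_15_0_254 : pfC (piC [(nat_lit 36888796), (nat_lit 24534081), (nat_lit 18263511), (nat_lit 12310016)] (nat_lit 21892566)) p14_15_0 (nat_lit 4) (nat_lit 254) (nat_lit 255) = true := by decide +kernel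
def p14_15_0_255 : pfC (piC [(nat_lit 36888796), (nat_lit 24534081), (nat_lit 18263511), (nat_lit 12310016)] (nat_lit 21892566)) p14_15_0 (nat_lit 4) (nat_lit 255) (nat_lit 256) = true := by decide +kernel
def p14_15_0_256 : pfC (piC [(nat_lit 36888796), (nat_lit 24534081), (nat_lit 18263511), (nat_lit 12310016)] (nat_lit 21892566)) p14_15_0 (nat_lit 4) (nat_lit 256) (nat_lit 257) = true := by decide +kernel
def p14_15_0_257 : pfC (piC [(nat_lit 36888796), (nat_lit 24534081), (nat_lit 18263511), (nat_lit 12310016)] (nat_lit 21892566)) p14_15_0 (nat_lit 4) (nat_lit 257) (nat_lit 258) = true := by decide +kernel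
def p14_15_0_258 : pfC (piC [(nat_lit 36888796), (nat_lit 24534081), (nat_lit 18263511), (nat_lit 12310016)] (nat_lit 21892566)) p14_15_0 (nat_lit 4) (nat_lit 258) (nat_lit 259) = true := by decide +kernel
def p14_15_0_259 : pfC (piC [(nat_lit 36888796), (nat_lit 24534081), (nat_lit 18263511), (nat_lit 12310016)] (nat_lit 21892566)) p14_15_0 (nat_lit 4) (nat_lit 259) (nat_lit 260) = true := by decide +kernel
def p14_15_0_260 : pfC (piC [(nat_lit 36888796), (nat_lit 24534081), (nat_lit 18263511), (nat_lit 12310016)] (nat_lit 21892566)) p14_15_0 (nat_lit 4) (nat_lit 260) (nat_lit 261) = true := by decide +kernel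
def p14_15_0_261 : pfC (piC [(nat_lit 36888796), (nat_lit 24534081), (nat_lit 18263511), (nat_lit 12310016)] (nat_lit 21892566)) p14_15_0 (nat_lit 4) (nat_lit 261) (nat_lit 262) = true := by decide +kernel
def p14_15_0_262 : pfC (piC [(nat_lit 36888796), (nat_lit 24534081), (nat_lit 18263511), (nat_lit 12310016)] (nat_lit 21892566)) p14_15_0 (nat_lit 4) (nat_lit 262) (nat_lit 263) = true := by decide +kernel
def p14_15_0_263 : pfC (piC [(nat_lit 36888796), (nat_lit 24534081), (nat_lit 18263511), (nat_lit 12310016)] (nat_lit 21892566)) p14_15_0 (nat_lit 4) (nat_lit 263) (nat_lit 264) = true := by decide +kernel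
def p14_15_0_264 : pfC (piC [(nat_lit 36888796), (nat_lit 24534081), (nat_lit 18263511), (nat_lit 12310016)] (nat_lit 21892566)) p14_15_0 (nat_lit 4) (nat_lit 264) (nat_lit 265) = true := by decide +kernel
def p14_15_0_265 : pfC (piC [(nat_lit 36888796), (nat_lit 24534081), (nat_lit 18263511), (nat_lit 12310016)] (nat_lit 21892566)) p14_15_0 (nat_lit 4) (nat_lit 265) (nat_lit 266) = true := by decide +kernel
def p14_15_0_266 : pfC (piC [(nat_lit 36888796), (nat_lit 24534081), (nat_lit 18263511), (nat_lit 12310016)] (nat_lit 21892566)) p14_15_0 (nat_lit 4) (nat_lit 266) (nat_lit 267) = true := by decide +kernel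
def p14_15_0_267 : pfC (piC [(nat_lit 36888796), (nat_lit 24534081), (nat_lit 18263511), (nat_lit 12310016)] (nat_lit 21892566)) p14_15_0 (nat_lit 4) (nat_lit 267) (nat_lit 268) = true := by decide +kernel
def p14_15_0_268 : pfC (piC [(nat_lit 36888796), (nat_lit 24534081), (nat_lit 18263511), (nat_lit 12310016)] (nat_lit 21892566)) p14_15_0 (nat_lit 4) (nat_lit 268) (nat_lit 269) = true := by decide +kernel
def p14_15_0_269 : pfC (piC [(nat_lit 36888796), (nat_lit 24534081), (nat_lit 18263511), (nat_lit 12310016)] (nat_lit 21892566)) p14_15_0 (nat_lit 4) (nat_lit 269) (nat_lit 270) = true := by decide +kernel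
def p14_15_0_270 : pfC (piC [(nat_lit 36888796), (nat_lit 24534081), (nat_lit 18263511), (nat_lit 12310016)] (nat_lit 21892566)) p14_15_0 (nat_lit 4) (nat_lit 270) (nat_lit 271) = true := by decide +kernel
def p14_15_0_271 : pfC (piC [(nat_lit 36888796), (nat_lit 24534081), (nat_lit 18263511), (nat_lit 12310016)] (nat_lit 21892566)) p14_15_0 (nat_lit 4) (nat_lit 271) (nat_lit 272) = true := by decide +kernel
def p14_15_0_272 : pfC (piC [(nat_lit 36888796), (nat_lit 24534081), (nat_lit 18263511), (nat_lit 12310016)] (nat_lit 21892566)) p14_15_0 (nat_lit 4) (nat_lit 272) (nat_lit 273) = true := by decide +kernel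
def p14_15_0_273 : pfC (piC [(nat_lit 36888796), (nat_lit 24534081), (nat_lit 18263511), (nat_lit 12310016)] (nat_lit 21892566)) p14_15_0 (nat_lit 4) (nat_lit 273) (nat_lit 274) = true := by decide +kernel
def p14_15_0_274 : pfC (piC [(nat_lit 36888796), (nat_lit 24534081), (nat_lit 18263511), (nat_lit 12310016)] (nat_lit 21892566)) p14_15_0 (nat_lit 4) (nat_lit 274) (nat_lit 275) = true := by decide +kernel
def p14_15_0_275 : pfC (piC [(nat_lit 36888796), (nat_lit 24534081), (nat_lit 18263511), (nat_lit 12310016)] (nat_lit 21892566)) p14_15_0 (nat_lit 4) (nat_lit 275) (nat_lit 276) = true := by decide +kernel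
def p14_15_0_276 : pfC (piC [(nat_lit 36888796), (nat_lit 24534081), (nat_lit 18263511), (nat_lit 12310016)] (nat_lit 21892566)) p14_15_0 (nat_lit 4) (nat_lit 276) (nat_lit 277) = true := by decide +kernel
def p14_15_0_277 : pfC (piC [(nat_lit 36888796), (nat_lit 24534081), (nat_lit 18263511), (nat_lit 12310016)] (nat_lit 21892566)) p14_15_0 (nat_lit 4) (nat_lit 277) (nat_lit 278) = true := by decide +kernel
def p14_15_0_278 : pfC (piC [(nat_lit 36888796), (nat_lit 24534081), (nat_lit 18263511), (nat_lit 12310016)] (nat_lit 21892566)) p14_15_0 (nat_lit 4) (nat_lit 278) (nat_lit 279) = true := by decide +kernel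
def p14_15_0_279 : pfC (piC [(nat_lit 36888796), (nat_lit 24534081), (nat_lit 18263511), (nat_lit 12310016)] (nat_lit 21892566)) p14_15_0 (nat_lit 4) (nat_lit 279) (nat_lit 280) = true := by decide +kernel
def p14_15_0_280 : pfC (piC [(nat_lit 36888796), (nat_lit 24534081), (nat_lit 18263511), (nat_lit 12310016)] (nat_lit 21892566)) p14_15_0 (nat_lit 4) (nat_lit 280) (nat_lit 281) = true := by decide +kernel
def p14_15_0_281 : pfC (piC [(nat_lit 36888796), (nat_lit 24534081), (nat_lit 18263511), (nat_lit 12310016)] (nat_lit 21892566)) p14_15_0 (nat_lit 4) (nat_lit 281) (nat_lit 282) = true := by decide +kernel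
def p14_15_0_282 : pfC (piC [(nat_lit 36888796), (nat_lit 24534081), (nat_lit 18263511), (nat_lit 12310016)] (nat_lit 21892566)) p14_15_0 (nat_lit 4) (nat_lit 282) (nat_lit 283) = true := by decide +kernel
def p14_15_0_283 : pfC (piC [(nat_lit 36888796), (nat_lit 24534081), (nat_lit 18263511), (nat_lit 12310016)] (nat_lit 21892566)) p14_15_0 (nat_lit 4) (nat_lit 283) (nat_lit 284) = true := by decide +kernel
def p14_15_0_284 : pfC (piC [(nat_lit 36888796), (nat_lit 24534081), (nat_lit 18263511), (nat_lit 12310016)] (nat_lit 21892566)) p14_15_0 (nat_lit 4) (nat_lit 284) (nat_lit 285) = true := by decide +kernel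
def p14_15_0_285 : pfC (piC [(nat_lit 36888796), (nat_lit 24534081), (nat_lit 18263511), (nat_lit 12310016)] (nat_lit 21892566)) p14_15_0 (nat_lit 4) (nat_lit 285) (nat_lit 286) = true := by decide +kernel
def p14_15_0_286 : pfC (piC [(nat_lit 36888796), (nat_lit 24534081), (nat_lit 18263511), (nat_lit 12310016)] (nat_lit 21892566)) p14_15_0 (nat_lit 4) (nat_lit 286) (nat_lit 287) = true := by decide +kernel
def p14_15_0_287 : pfC (piC [(nat_lit 36888796), (nat_lit 24534081), (nat_lit 18263511), (nat_lit 12310016)] (nat_lit 21892566)) p14_15_0 (nat_lit 4) (nat_lit 287) (nat_lit 288) = true := by decide +kernel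
def p14_15_0_288 : pfC (piC [(nat_lit 36888796), (nat_lit 24534081), (nat_lit 18263511), (nat_lit 12310016)] (nat_lit 21892566)) p14_15_0 (nat_lit 4) (nat_lit 288) (nat_lit 289) = true := by decide +kernel
def p14_15_0_289 : pfC (piC [(nat_lit 36888796), (nat_lit 24534081), (nat_lit 18263511), (nat_lit 12310016)] (nat_lit 21892566)) p14_15_0 (nat_lit 4) (nat_lit 289) (nat_lit 290) = true := by decide +kernel
def p14_15_0_290 : pfC (piC [(nat_lit 36888796), (nat_lit 24534081), (nat_lit 18263511), (nat_lit 12310016)] (nat_lit 21892566)) p14_15_0 (nat_lit 4) (nat_lit 290) (nat_lit 291) = true := by decide +kernel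
def p14_15_0_291 : pfC (piC [(nat_lit 36888796), (nat_lit 24534081), (nat_lit 18263511), (nat_lit 12310016)] (nat_lit 21892566)) p14_15_0 (nat_lit 4) (nat_lit 291) (nat_lit 292) = true := by decide +kernel
def p14_15_0_292 : pfC (piC [(nat_lit 36888796), (nat_lit 24534081), (nat_lit 18263511), (nat_lit 12310016)] (nat_lit 21892566)) p14_15_0 (nat_lit 4) (nat_lit 292) (nat_lit 293) = true := by decide +kernel
def p14_15_0_293 : pfC (piC [(nat_lit 36888796), (nat_lit 24534081), (nat_lit 18263511), (nat_lit 12310016)] (nat_lit 21892566)) p14_15_0 (nat_lit 4) (nat_lit 293) (nat_lit 294) = true := by decide +kernel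
def p14_15_0_294 : pfC (piC [(nat_lit 36888796), (nat_lit 24534081), (nat_lit 18263511), (nat_lit 12310016)] (nat_lit 21892566)) p14_15_0 (nat_lit 4) (nat_lit 294) (nat_lit 295) = true := by decide +kernel
def p14_15_0_295 : pfC (piC [(nat_lit 36888796), (nat_lit 24534081), (nat_lit 18263511), (nat_lit 12310016)] (nat_lit 21892566)) p14_15_0 (nat_lit 4) (nat_lit 295) (nat_lit 296) = true := by decide +kernel
def p14_15_0_296 : pfC (piC [(nat_lit 36888796), (nat_lit 24534081), (nat_lit 18263511), (nat_lit 12310016)] (nat_lit 21892566)) p14_15_0 (nat_lit 4) (nat_lit 296) (nat_lit 297) = true := by decide +kernel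
def p14_15_0_297 : pfC (piC [(nat_lit 36888796), (nat_lit 24534081), (nat_lit 18263511), (nat_lit 12310016)] (nat_lit 21892566)) p14_15_0 (nat_lit 4) (nat_lit 297) (nat_lit 298) = true := by decide +kernel
def p14_15_0_298 : pfC (piC [(nat_lit 36888796), (nat_lit 24534081), (nat_lit 18263511), (nat_lit 12310016)] (nat_lit 21892566)) p14_15_0 (nat_lit 4) (nat_lit 298) (nat_lit 299) = true := by decide +kernel
def p14_15_0_299 : pfC (piC [(nat_lit 36888796), (nat_lit 24534081), (nat_lit 18263511), (nat_lit 12310016)] (nat_lit 21892566)) p14_15_0 (nat_lit 4) (nat_lit 299) (nat_lit 300) = true := by decide +kernel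
def p14_15_0_300 : pfC (piC [(nat_lit 36888796), (nat_lit 24534081), (nat_lit 18263511), (nat_lit 12310016)] (nat_lit 21892566)) p14_15_0 (nat_lit 4) (nat_lit 300) (nat_lit 301) = true := by decide +kernel
def p14_15_0_301 : pfC (piC [(nat_lit 36888796), (nat_lit 24534081), (nat_lit 18263511), (nat_lit 12310016)] (nat_lit 21892566)) p14_15_0 (nat_lit 4) (nat_lit 301) (nat_lit 302) = true := by decide +kernel
def p14_15_0_302 : pfC (piC [(nat_lit 36888796), (nat_lit 24534081), (nat_lit 18263511), (nat_lit 12310016)] (nat_lit 21892566)) p14_15_0 (nat_lit 4) (nat_lit 302) (nat_lit 303) = true := by decide +kernel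
def p14_15_0_303 : pfC (piC [(nat_lit 36888796), (nat_lit 24534081), (nat_lit 18263511), (nat_lit 12310016)] (nat_lit 21892566)) p14_15_0 (nat_lit 4) (nat_lit 303) (nat_lit 304) = true := by decide +kernel
def p14_15_0_304 : pfC (piC [(nat_lit 36888796), (nat_lit 24534081), (nat_lit 18263511), (nat_lit 12310016)] (nat_lit 21892566)) p14_15_0 (nat_lit 4) (nat_lit 304) (nat_lit 305) = true := by decide +kernel
def p14_15_0_305 : pfC (piC [(nat_lit 36888796), (nat_lit 24534081), (nat_lit 18263511), (nat_lit 12310016)] (nat_lit 21892566)) p14_15_0 (nat_lit 4) (nat_lit 305) (nat_lit 306) = true := by decide +kernel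
def p14_15_0_306 : pfC (piC [(nat_lit 36888796), (nat_lit 24534081), (nat_lit 18263511), (nat_lit 12310016)] (nat_lit 21892566)) p14_15_0 (nat_lit 4) (nat_lit 306) (nat_lit 307) = true := by decide +kernel
def p14_15_0_307 : pfC (piC [(nat_lit 36888796), (nat_lit 24534081), (nat_lit 18263511), (nat_lit 12310016)] (nat_lit 21892566)) p14_15_0 (nat_lit 4) (nat_lit 307) (nat_lit 308) = true := by decide +kernel
def p14_15_0_308 : pfC (piC [(nat_lit 36888796), (nat_lit 24534081), (nat_lit 18263511), (nat_lit 12310016)] (nat_lit 21892566)) p14_15_0 (nat_lit 4) (nat_lit 308) (nat_lit 309) = true := by decide +kernel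
def p14_15_0_309 : pfC (piC [(nat_lit 36888796), (nat_lit 24534081), (nat_lit 18263511), (nat_lit 12310016)] (nat_lit 21892566)) p14_15_0 (nat_lit 4) (nat_lit 309) (nat_lit 310) = true := by decide +kernel
def p14_15_0_310 : pfC (piC [(nat_lit 36888796), (nat_lit 24534081), (nat_lit 18263511), (nat_lit 12310016)] (nat_lit 21892566)) p14_15_0 (nat_lit 4) (nat_lit 310) (nat_lit 311) = true := by decide +kernel
def p14_15_0_311 : pfC (piC [(nat_lit 36888796), (nat_lit 24534081), (nat_lit 18263511), (nat_lit 12310016)] (nat_lit 21892566)) p14_15_0 (nat_lit 4) (nat_lit 311) (nat_lit 312) = true := by decide +kernel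
def p14_15_0_312 : pfC (piC [(nat_lit 36888796), (nat_lit 24534081), (nat_lit 18263511), (nat_lit 12310016)] (nat_lit 21892566)) p14_15_0 (nat_lit 4) (nat_lit 312) (nat_lit 313) = true := by decide +kernel
def p14_15_0_313 : pfC (piC [(nat_lit 36888796), (nat_lit 24534081), (nat_lit 18263511), (nat_lit 12310016)] (nat_lit 21892566)) p14_15_0 (nat_lit 4) (nat_lit 313) (nat_lit 314) = true := by decide +kernel
def p14_15_0_314 : pfC (piC [(nat_lit 36888796), (nat_lit 24534081), (nat_lit 18263511), (nat_lit 12310016)] (nat_lit 21892566)) p14_15_0 (nat_lit 4) (nat_lit 314) (nat_lit 315) = true := by decide +kernel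
def p14_15_0_315 : pfC (piC [(nat_lit 36888796), (nat_lit 24534081), (nat_lit 18263511), (nat_lit 12310016)] (nat_lit 21892566)) p14_15_0 (nat_lit 4) (nat_lit 315) (nat_lit 316) = true := by decide +kernel
def p14_15_0_316 : pfC (piC [(nat_lit 36888796), (nat_lit 24534081), (nat_lit 18263511), (nat_lit 12310016)] (nat_lit 21892566)) p14_15_0 (nat_lit 4) (nat_lit 316) (nat_lit 317) = true := by decide +kernel
def p14_15_0_317 : pfC (piC [(nat_lit 36888796), (nat_lit 24534081), (nat_lit 18263511), (nat_lit 12310016)] (nat_lit 21892566)) p14_15_0 (nat_lit 4) (nat_lit 317) (nat_lit 318) = true := by decide +kernel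
def p14_15_0_318 : pfC (piC [(nat_lit 36888796), (nat_lit 24534081), (nat_lit 18263511), (nat_lit 12310016)] (nat_lit 21892566)) p14_15_0 (nat_lit 4) (nat_lit 318) (nat_lit 319) = true := by decide +kernel
def p14_15_0_319 : pfC (piC [(nat_lit 36888796), (nat_lit 24534081), (nat_lit 18263511), (nat_lit 12310016)] (nat_lit 21892566)) p14_15_0 (nat_lit 4) (nat_lit 319) (nat_lit 320) = true := by decide +kernel
def p14_15_0_320 : pfC (piC [(nat_lit 36888796), (nat_lit 24534081), (nat_lit 18263511), (nat_lit 12310016)] (nat_lit 21892566)) p14_15_0 (nat_lit 4) (nat_lit 320) (nat_lit 321) = true := by decide +kernel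
def p14_15_0_321 : pfC (piC [(nat_lit 36888796), (nat_lit 24534081), (nat_lit 18263511), (nat_lit 12310016)] (nat_lit 21892566)) p14_15_0 (nat_lit 4) (nat_lit 321) (nat_lit 322) = true := by decide +kernel
def p14_15_0_322 : pfC (piC [(nat_lit 36888796), (nat_lit 24534081), (nat_lit 18263511), (nat_lit 12310016)] (nat_lit 21892566)) p14_15_0 (nat_lit 4) (nat_lit 322) (nat_lit 323) = true := by decide +kernel
def p14_15_0_323 : pfC (piC [(nat_lit 36888796), (nat_lit 24534081), (nat_lit 18263511), (nat_lit 12310016)] (nat_lit 21892566)) p14_15_0 (nat_lit 4) (nat_lit 323) (nat_lit 324) = true := by decide +kernel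
def p14_15_0_324 : pfC (piC [(nat_lit 36888796), (nat_lit 24534081), (nat_lit 18263511), (nat_lit 12310016)] (nat_lit 21892566)) p14_15_0 (nat_lit 4) (nat_lit 324) (nat_lit 325) = true := by decide +kernel
def p14_15_0_325 : pfC (piC [(nat_lit 36888796), (nat_lit 24534081), (nat_lit 18263511), (nat_lit 12310016)] (nat_lit 21892566)) p14_15_0 (nat_lit 4) (nat_lit 325) (nat_lit 326) = true := by decide +kernel
def p14_15_0_326 : pfC (piC [(nat_lit 36888796), (nat_lit 24534081), (nat_lit 18263511), (nat_lit 12310016)] (nat_lit 21892566)) p14_15_0 (nat_lit 4) (nat_lit 326) (nat_lit 327) = true := by decide +kernel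
def p14_15_0_327 : pfC (piC [(nat_lit 36888796), (nat_lit 24534081), (nat_lit 18263511), (nat_lit 12310016)] (nat_lit 21892566)) p14_15_0 (nat_lit 4) (nat_lit 327) (nat_lit 328) = true := by decide +kernel
def p14_15_0_328 : pfC (piC [(nat_lit 36888796), (nat_lit 24534081), (nat_lit 18263511), (nat_lit 12310016)] (nat_lit 21892566)) p14_15_0 (nat_lit 4) (nat_lit 328) (nat_lit 329) = true := by decide +kernel
def p14_15_0_329 : pfC (piC [(nat_lit 36888796), (nat_lit 24534081), (nat_lit 18263511), (nat_lit 12310016)] (nat_lit 21892566)) p14_15_0 (nat_lit 4) (nat_lit 329) (nat_lit 330) = true := by decide +kernel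
def p14_15_0_330 : pfC (piC [(nat_lit 36888796), (nat_lit 24534081), (nat_lit 18263511), (nat_lit 12310016)] (nat_lit 21892566)) p14_15_0 (nat_lit 4) (nat_lit 330) (nat_lit 331) = true := by decide +kernel
def p14_15_0_331 : pfC (piC [(nat_lit 36888796), (nat_lit 24534081), (nat_lit 18263511), (nat_lit 12310016)] (nat_lit 21892566)) p14_15_0 (nat_lit 4) (nat_lit 331) (nat_lit 332) = true := by decide +kernel
def p14_15_0_332 : pfC (piC [(nat_lit 36888796), (nat_lit 24534081), (nat_lit 18263511), (nat_lit 12310016)] (nat_lit 21892566)) p14_15_0 (nat_lit 4) (nat_lit 332) (nat_lit 333) = true := by decide +kernel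
def p14_15_0_333 : pfC (piC [(nat_lit 36888796), (nat_lit 24534081), (nat_lit 18263511), (nat_lit 12310016)] (nat_lit 21892566)) p14_15_0 (nat_lit 4) (nat_lit 333) (nat_lit 334) = true := by decide +kernel
def p14_15_0_334 : pfC (piC [(nat_lit 36888796), (nat_lit 24534081), (nat_lit 18263511), (nat_lit 12310016)] (nat_lit 21892566)) p14_15_0 (nat_lit 4) (nat_lit 334) (nat_lit 335) = true := by decide +kernel
def p14_15_0_335 : pfC (piC [(nat_lit 36888796), (nat_lit 24534081), (nat_lit 18263511), (nat_lit 12310016)] (nat_lit 21892566)) p14_15_0 (nat_lit 4) (nat_lit 335) (nat_lit 336) = true := by decide +kernel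
def p14_15_0_336 : pfC (piC [(nat_lit 36888796), (nat_lit 24534081), (nat_lit 18263511), (nat_lit 12310016)] (nat_lit 21892566)) p14_15_0 (nat_lit 4) (nat_lit 336) (nat_lit 337) = true := by decide +kernel
def p14_15_0_337 : pfC (piC [(nat_lit 36888796), (nat_lit 24534081), (nat_lit 18263511), (nat_lit 12310016)] (nat_lit 21892566)) p14_15_0 (nat_lit 4) (nat_lit 337) (nat_lit 338) = true := by decide +kernel
def p14_15_0_338 : pfC (piC [(nat_lit 36888796), (nat_lit 24534081), (nat_lit 18263511), (nat_lit 12310016)] (nat_lit 21892566)) p14_15_0 (nat_lit 4) (nat_lit 338) (nat_lit 339) = true := by decide +kernel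
def p14_15_0_339 : pfC (piC [(nat_lit 36888796), (nat_lit 24534081), (nat_lit 18263511), (nat_lit 12310016)] (nat_lit 21892566)) p14_15_0 (nat_lit 4) (nat_lit 339) (nat_lit 340) = true := by decide +kernel
def p14_15_0_340 : pfC (piC [(nat_lit 36888796), (nat_lit 24534081), (nat_lit 18263511), (nat_lit 12310016)] (nat_lit 21892566)) p14_15_0 (nat_lit 4) (nat_lit 340) (nat_lit 341) = true := by decide +kernel
def p14_15_0_341 : pfC (piC [(nat_lit 36888796), (nat_lit 24534081), (nat_lit 18263511), (nat_lit 12310016)] (nat_lit 21892566)) p14_15_0 (nat_lit 4) (nat_lit 341) (nat_lit 342) = true := by decide +kernel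
def p14_15_0_342 : pfC (piC [(nat_lit 36888796), (nat_lit 24534081), (nat_lit 18263511), (nat_lit 12310016)] (nat_lit 21892566)) p14_15_0 (nat_lit 4) (nat_lit 342) (nat_lit 343) = true := by decide +kernel
def p14_15_0_343 : pfC (piC [(nat_lit 36888796), (nat_lit 24534081), (nat_lit 18263511), (nat_lit 12310016)] (nat_lit 21892566)) p14_15_0 (nat_lit 4) (nat_lit 343) (nat_lit 344) = true := by decide +kernel
def p14_15_0_344 : pfC (piC [(nat_lit 36888796), (nat_lit 24534081), (nat_lit 18263511), (nat_lit 12310016)] (nat_lit 21892566)) p14_15_0 (nat_lit 4) (nat_lit 344) (nat_lit 345) = true := by decide +kernel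
def p14_15_0_345 : pfC (piC [(nat_lit 36888796), (nat_lit 24534081), (nat_lit 18263511), (nat_lit 12310016)] (nat_lit 21892566)) p14_15_0 (nat_lit 4) (nat_lit 345) (nat_lit 346) = true := by decide +kernel
def p14_15_0_346 : pfC (piC [(nat_lit 36888796), (nat_lit 24534081), (nat_lit 18263511), (nat_lit 12310016)] (nat_lit 21892566)) p14_15_0 (nat_lit 4) (nat_lit 346) (nat_lit 347) = true := by decide +kernel
def p14_15_0_347 : pfC (piC [(nat_lit 36888796), (nat_lit 24534081), (nat_lit 18263511), (nat_lit 12310016)] (nat_lit 21892566)) p14_15_0 (nat_lit 4) (nat_lit 347) (nat_lit 348) = true := by decide +kernel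
def p14_15_0_348 : pfC (piC [(nat_lit 36888796), (nat_lit 24534081), (nat_lit 18263511), (nat_lit 12310016)] (nat_lit 21892566)) p14_15_0 (nat_lit 4) (nat_lit 348) (nat_lit 349) = true := by decide +kernel
def p14_15_0_349 : pfC (piC [(nat_lit 36888796), (nat_lit 24534081), (nat_lit 18263511), (nat_lit 12310016)] (nat_lit 21892566)) p14_15_0 (nat_lit 4) (nat_lit 349) (nat_lit 350) = true := by decide +kernel
def p14_15_0_350 : pfC (piC [(nat_lit 36888796), (nat_lit 24534081), (nat_lit 18263511), (nat_lit 12310016)] (nat_lit 21892566)) p14_15_0 (nat_lit 4) (nat_lit 350) (nat_lit 351) = true := by decide +kernel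
def p14_15_0_351 : pfC (piC [(nat_lit 36888796), (nat_lit 24534081), (nat_lit 18263511), (nat_lit 12310016)] (nat_lit 21892566)) p14_15_0 (nat_lit 4) (nat_lit 351) (nat_lit 352) = true := by decide +kernel
def p14_15_0_352 : pfC (piC [(nat_lit 36888796), (nat_lit 24534081), (nat_lit 18263511), (nat_lit 12310016)] (nat_lit 21892566)) p14_15_0 (nat_lit 4) (nat_lit 352) (nat_lit 353) = true := by decide +kernel
def p14_15_0_353 : pfC (piC [(nat_lit 36888796), (nat_lit 24534081), (nat_lit 18263511), (nat_lit 12310016)] (nat_lit 21892566)) p14_15_0 (nat_lit 4) (nat_lit 353) (nat_lit 354) = true := by decide +kernel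
def p14_15_0_354 : pfC (piC [(nat_lit 36888796), (nat_lit 24534081), (nat_lit 18263511), (nat_lit 12310016)] (nat_lit 21892566)) p14_15_0 (nat_lit 4) (nat_lit 354) (nat_lit 355) = true := by decide +kernel
def p14_15_0_355 : pfC (piC [(nat_lit 36888796), (nat_lit 24534081), (nat_lit 18263511), (nat_lit 12310016)] (nat_lit 21892566)) p14_15_0 (nat_lit 4) (nat_lit 355) (nat_lit 356) = true := by decide +kernel
def p14_15_0_356 : pfC (piC [(nat_lit 36888796), (nat_lit 24534081), (nat_lit 18263511), (nat_lit 12310016)] (nat_lit 21892566)) p14_15_0 (nat_lit 4) (nat_lit 356) (nat_lit 357) = true := by decide +kernel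
def p14_15_0_357 : pfC (piC [(nat_lit 36888796), (nat_lit 24534081), (nat_lit 18263511), (nat_lit 12310016)] (nat_lit 21892566)) p14_15_0 (nat_lit 4) (nat_lit 357) (nat_lit 358) = true := by decide +kernel
def p14_15_0_358 : pfC (piC [(nat_lit 36888796), (nat_lit 24534081), (nat_lit 18263511), (nat_lit 12310016)] (nat_lit 21892566)) p14_15_0 (nat_lit 4) (nat_lit 358) (nat_lit 359) = true := by decide +kernel
def p14_15_0_359 : pfC (piC [(nat_lit 36888796), (nat_lit 24534081), (nat_lit 18263511), (nat_lit 12310016)] (nat_lit 21892566)) p14_15_0 (nat_lit 4) (nat_lit 359) (nat_lit 360) = true := by decide +kernel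
def p14_15_0_360 : pfC (piC [(nat_lit 36888796), (nat_lit 24534081), (nat_lit 18263511), (nat_lit 12310016)] (nat_lit 21892566)) p14_15_0 (nat_lit 4) (nat_lit 360) (nat_lit 361) = true := by decide +kernel
def p14_15_0_361 : pfC (piC [(nat_lit 36888796), (nat_lit 24534081), (nat_lit 18263511), (nat_lit 12310016)] (nat_lit 21892566)) p14_15_0 (nat_lit 4) (nat_lit 361) (nat_lit 362) = true := by decide +kernel
def p14_15_0_362 : pfC (piC [(nat_lit 36888796), (nat_lit 24534081), (nat_lit 18263511), (nat_lit 12310016)] (nat_lit 21892566)) p14_15_0 (nat_lit 4) (nat_lit 362) (nat_lit 363) = true := by decide +kernel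
def p14_15_0_363 : pfC (piC [(nat_lit 36888796), (nat_lit 24534081), (nat_lit 18263511), (nat_lit 12310016)] (nat_lit 21892566)) p14_15_0 (nat_lit 4) (nat_lit 363) (nat_lit 364) = true := by decide +kernel
def p14_15_0_364 : pfC (piC [(nat_lit 36888796), (nat_lit 24534081), (nat_lit 18263511), (nat_lit 12310016)] (nat_lit 21892566)) p14_15_0 (nat_lit 4) (nat_lit 364) (nat_lit 365) = true := by decide +kernel
def p14_15_0_365 : pfC (piC [(nat_lit 36888796), (nat_lit 24534081), (nat_lit 18263511), (nat_lit 12310016)] (nat_lit 21892566)) p14_15_0 (nat_lit 4) (nat_lit 365) (nat_lit 366) = true := by decide +kernel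
def p14_15_0_366 : pfC (piC [(nat_lit 36888796), (nat_lit 24534081), (nat_lit 18263511), (nat_lit 12310016)] (nat_lit 21892566)) p14_15_0 (nat_lit 4) (nat_lit 366) (nat_lit 367) = true := by decide +kernel
theorem p14_15_0_T : PfS (PiF n14_15.reverse (nat_lit 21892566)) p14_15_0 (nat_lit 4) [] 0 :=
  pftab_of (los := [(nat_lit 36888796), (nat_lit 24534081), (nat_lit 18263511), (nat_lit 12310016)]) (by decide +kernel) (hi := (nat_lit 367)) (PfP.trans (PfP.trans (PfP.trans (PfP.trans (PfP.trans (PfP.trans (PfP.trans (PfP.trans (PfP.trans (PfP.trans (PfP.trans (PfP.trans (PfP.trans (PfP.trans (PfP.trans (PfP.trans (PfP.trans (PfP.trans (PfP.trans (PfP.trans (PfP.trans (PfP.trans (PfP.trans (PfP.trans (PfP.trans (PfP.trans (PfP.trans (PfP.trans (PfP.trans (PfP.trans (PfP.trans (PfP.trans (PfP.trans (PfP.trans (PfP.trans (PfP.trans (PfP.trans (PfP.trans (PfP.trans (PfP.trans (PfP.trans (PfP.trans (PfP.trans (PfP.trans (PfP.trans (PfP.trans (PfP.trans (PfP.trans (PfP.trans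 (PfP.trans (PfP.trans (PfP.trans (PfP.trans (PfP.trans (PfP.trans (PfP.trans (PfP.trans (PfP.trans (PfP.trans (PfP.trans (PfP.trans (PfP.trans (PfP.trans (PfP.trans (PfP.trans (PfP.trans (PfP.trans (PfP.trans (PfP.trans (PfP.trans (PfP.trans (PfP.trans (PfP.trans (PfP.trans (PfP.trans (PfP.trans (PfP.trans (PfP.trans (PfP.trans (PfP.trans (PfP.trans (PfP.trans (PfP.trans (PfP.trans (PfP.trans (PfP.trans (PfP.trans (PfP.trans (PfP.trans (PfP.trans (PfP.trans (PfP.trans (PfP.trans (PfP.trans (PfP.trans (PfP.trans (PfP.trans (PfP.trans (PfP.trans (PfP.trans (PfP.trans (PfP.trans (PfP.trans (PfP.trans (PfP.trans (PfP.trans (PfP.trans (PfP.trans (PfP.trans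
 (PfP.trans (PfP.trans (PfP.trans (PfP.trans (PfP.trans (PfP.trans (PfP.trans (PfP.trans (PfP.trans (PfP.trans (PfP.trans (PfP.trans (PfP.trans (PfP.trans (PfP.trans (PfP.trans (PfP.trans (PfP.trans (PfP.trans (PfP.trans (PfP.trans (PfP.trans (PfP.trans (PfP.trans (PfP.trans (PfP.trans (PfP.trans (PfP.trans (PfP.trans (PfP.trans (PfP.trans (PfP.trans (PfP.trans (PfP.trans (PfP.trans (PfP.trans (PfP.trans (PfP.trans (PfP.trans (PfP.trans (PfP.trans (PfP.trans (PfP.trans (PfP.trans (PfP.trans (PfP.trans (PfP.trans (PfP.trans (PfP.trans (PfP.trans (PfP.trans (PfP.trans (PfP.trans (PfP.trans (PfP.trans (PfP.trans (PfP.trans (PfP.trans (PfP.trans (PfP.trans (PfP.trans (PfP.trans (PfP.trans (PfP.trans (PfP.trans (PfP.trans (PfP.trans (PfP.trans (PfP.trans (PfP.trans (PfP.trans (PfP.trans (PfP.trans (PfP.trans (PfP.trans (PfP.trans (PfP.trans (PfP.trans (PfP.trans (PfP.trans (PfP.trans (PfP.trans (PfP.trans (PfP.trans (PfP.trans (PfP.trans (PfP.trans (PfP.trans (PfP.trans (PfP.trans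 (PfP.trans (PfP.trans (PfP.trans (PfP.trans (PfP.trans (PfP.trans (PfP.trans (PfP.trans (PfP.trans (PfP.trans (PfP.trans (PfP.trans (PfP.trans (PfP.trans (PfP.trans (PfP.trans (PfP.trans (PfP.trans (PfP.trans
 (PfP.trans (PfP.trans (PfP.trans (PfP.trans (PfP.trans (PfP.trans (PfP.trans (PfP.trans (PfP.trans (PfP.trans (PfP.trans (PfP.trans (PfP.trans (PfP.trans (PfP.trans (PfP.trans (PfP.trans (PfP.trans (PfP.trans (PfP.trans (PfP.trans (PfP.trans (PfP.trans (PfP.trans (PfP.trans (PfP.trans (PfP.trans (PfP.trans (PfP.trans (PfP.trans (PfP.trans (PfP.trans (PfP.trans (PfP.trans (PfP.trans (PfP.trans (PfP.trans (PfP.trans (PfP.trans (PfP.trans (PfP.trans (PfP.trans (PfP.trans (PfP.trans (PfP.trans (PfP.trans (PfP.trans (PfP.trans (PfP.trans (PfP.trans (PfP.trans (PfP.trans (PfP.trans (PfP.trans (PfP.trans (PfP.trans (PfP.trans (PfP.trans (PfP.trans (PfP.trans (PfP.trans (PfP.trans (PfP.trans (PfP.trans (PfP.trans (PfP.trans (PfP.trans (PfP.trans (PfP.trans (PfP.trans (PfP.trans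 (PfP.trans (PfP.trans (PfP.trans (PfP.trans (PfP.trans (PfP.trans (PfP.trans (PfP.trans (PfP.trans (PfP.trans (PfP.trans (PfP.trans (PfP.trans (PfP.trans (PfP.trans (PfP.trans (PfP.trans (PfP.trans (PfP.trans (PfP.trans (PfP.trans (PfP.trans (PfP.trans (PfP.trans (PfP.trans (PfP.trans (PfP.trans (PfP.trans (PfP.trans (PfP.trans (PfP.trans (PfP.trans (PfP.trans (PfP.trans (PfP.trans (PfP.trans (PfP.trans (PfP.trans
 (PfP.trans (PfP.trans (PfP.trans (PfP.trans (PfP.trans (PfP.trans (PfP.trans (PfP.trans (PfP.trans (PfP.trans (PfP.trans (PfP.trans (PfP.trans (PfP.trans (PfP.trans (PfP.trans (PfP.trans (PfP.trans (PfP.trans (PfP.trans (PfP.trans (PfP.trans (PfP.trans (PfP.trans (PfP.trans (PfP.trans (PfP.trans (PfP.trans (PfP.trans (PfP.trans (PfP.trans (PfP.trans (PfP.trans (PfP.trans (PfP.trans (PfP.trans (PfP.trans (PfP.trans (PfP.trans (pfC_sound p14_15_0_0) (pfC_sound p14_15_0_1)) (pfC_sound p14_15_0_2)) (pfC_sound p14_15_0_3)) (pfC_sound p14_15_0_4)) (pfC_sound p14_15_0_5))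 (pfC_sound p14_15_0_6)) (pfC_sound p14_15_0_7)) (pfC_sound p14_15_0_8)) (pfC_sound p14_15_0_9)) (pfC_sound p14_15_0_10)) (pfC_sound p14_15_0_11)) (pfC_sound p14_15_0_12)) (pfC_sound p14_15_0_13)) (pfC_sound p14_15_0_14)) (pfC_sound p14_15_0_15)) (pfC_sound p14_15_0_16)) (pfC_sound p14_15_0_17)) (pfC_sound p14_15_0_18)) (pfC_sound p14_15_0_19)) (pfC_sound p14_15_0_20)) (pfC_sound p14_15_0_21)) (pfC_sound p14_15_0_22)) (pfC_sound p14_15_0_23)) (pfC_sound p14_15_0_24)) (pfC_sound p14_15_0_25)) (pfC_sound p14_15_0_26)) (pfC_sound p14_15_0_27)) (pfC_sound p14_15_0_28)) (pfC_sound p14_15_0_29)) (pfC_sound p14_15_0_30))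
 (pfC_sound p14_15_0_31)) (pfC_sound p14_15_0_32)) (pfC_sound p14_15_0_33)) (pfC_sound p14_15_0_34)) (pfC_sound p14_15_0_35)) (pfC_sound p14_15_0_36)) (pfC_sound p14_15_0_37)) (pfC_sound p14_15_0_38)) (pfC_sound p14_15_0_39)) (pfC_sound p14_15_0_40)) (pfC_sound p14_15_0_41)) (pfC_sound p14_15_0_42)) (pfC_sound p14_15_0_43)) (pfC_sound p14_15_0_44)) (pfC_sound p14_15_0_45)) (pfC_sound p14_15_0_46)) (pfC_sound p14_15_0_47)) (pfC_sound p14_15_0_48)) (pfC_sound p14_15_0_49)) (pfC_sound p14_15_0_50)) (pfC_sound p14_15_0_51)) (pfC_sound p14_15_0_52)) (pfC_sound p14_15_0_53)) (pfC_sound p14_15_0_54)) (pfC_sound p14_15_0_55)) (pfC_sound p14_15_0_56)) (pfC_sound p14_15_0_57)) (pfC_sound p14_15_0_58)) (pfC_sound p14_15_0_59)) (pfC_sound p14_15_0_60)) (pfC_sound p14_15_0_61)) (pfC_sound p14_15_0_62)) (pfC_sound p14_15_0_63)) (pfC_sound p14_15_0_64)) (pfC_sound p14_15_0_65)) (pfC_sound p14_15_0_66)) (pfC_sound p14_15_0_67)) (pfC_sound p14_15_0_68)) (pfC_sound p14_15_0_69)) (pfC_sound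 p14_15_0_70)) (pfC_sound p14_15_0_71)) (pfC_sound p14_15_0_72)) (pfC_sound p14_15_0_73)) (pfC_sound p14_15_0_74)) (pfC_sound p14_15_0_75)) (pfC_sound p14_15_0_76)) (pfC_sound p14_15_0_77)) (pfC_sound p14_15_0_78))
 (pfC_sound p14_15_0_79)) (pfC_sound p14_15_0_80)) (pfC_sound p14_15_0_81)) (pfC_sound p14_15_0_82)) (pfC_sound p14_15_0_83)) (pfC_sound p14_15_0_84)) (pfC_sound p14_15_0_85)) (pfC_sound p14_15_0_86)) (pfC_sound p14_15_0_87)) (pfC_sound p14_15_0_88)) (pfC_sound p14_15_0_89)) (pfC_sound p14_15_0_90)) (pfC_sound p14_15_0_91)) (pfC_sound p14_15_0_92)) (pfC_sound p14_15_0_93)) (pfC_sound p14_15_0_94)) (pfC_sound p14_15_0_95)) (pfC_sound p14_15_0_96)) (pfC_sound p14_15_0_97)) (pfC_sound p14_15_0_98)) (pfC_sound p14_15_0_99)) (pfC_sound p14_15_0_100)) (pfC_sound p14_15_0_101)) (pfC_sound p14_15_0_102)) (pfC_sound p14_15_0_103)) (pfC_sound p14_15_0_104)) (pfC_sound p14_15_0_105)) (pfC_sound p14_15_0_106)) (pfC_sound p14_15_0_107)) (pfC_sound p14_15_0_108)) (pfC_sound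 p14_15_0_109)) (pfC_sound p14_15_0_110)) (pfC_sound p14_15_0_111)) (pfC_sound p14_15_0_112)) (pfC_sound p14_15_0_113)) (pfC_sound p14_15_0_114)) (pfC_sound p14_15_0_115)) (pfC_sound p14_15_0_116)) (pfC_sound p14_15_0_117)) (pfC_sound p14_15_0_118)) (pfC_sound p14_15_0_119)) (pfC_sound p14_15_0_120)) (pfC_sound p14_15_0_121)) (pfC_sound p14_15_0_122)) (pfC_sound p14_15_0_123)) (pfC_sound p14_15_0_124)) (pfC_sound
 p14_15_0_125)) (pfC_sound p14_15_0_126)) (pfC_sound p14_15_0_127)) (pfC_sound p14_15_0_128)) (pfC_sound p14_15_0_129)) (pfC_sound p14_15_0_130)) (pfC_sound p14_15_0_131)) (pfC_sound p14_15_0_132)) (pfC_sound p14_15_0_133)) (pfC_sound p14_15_0_134)) (pfC_sound p14_15_0_135)) (pfC_sound p14_15_0_136)) (pfC_sound p14_15_0_137)) (pfC_sound p14_15_0_138)) (pfC_sound p14_15_0_139)) (pfC_sound p14_15_0_140)) (pfC_sound p14_15_0_141)) (pfC_sound p14_15_0_142)) (pfC_sound p14_15_0_143)) (pfC_sound p14_15_0_144)) (pfC_sound p14_15_0_145)) (pfC_sound p14_15_0_146)) (pfC_sound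 p14_15_0_147)) (pfC_sound p14_15_0_148)) (pfC_sound p14_15_0_149)) (pfC_sound p14_15_0_150)) (pfC_sound p14_15_0_151)) (pfC_sound p14_15_0_152)) (pfC_sound p14_15_0_153)) (pfC_sound p14_15_0_154)) (pfC_sound p14_15_0_155)) (pfC_sound p14_15_0_156)) (pfC_sound p14_15_0_157)) (pfC_sound p14_15_0_158)) (pfC_sound p14_15_0_159)) (pfC_sound p14_15_0_160)) (pfC_sound p14_15_0_161)) (pfC_sound p14_15_0_162)) (pfC_sound p14_15_0_163)) (pfC_sound p14_15_0_164)) (pfC_sound p14_15_0_165)) (pfC_sound p14_15_0_166)) (pfC_sound p14_15_0_167)) (pfC_sound p14_15_0_168)) (pfC_sound p14_15_0_169)) (pfC_sound p14_15_0_170)) (pfC_sound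
 p14_15_0_171)) (pfC_sound p14_15_0_172)) (pfC_sound p14_15_0_173)) (pfC_sound p14_15_0_174)) (pfC_sound p14_15_0_175)) (pfC_sound p14_15_0_176)) (pfC_sound p14_15_0_177)) (pfC_sound p14_15_0_178)) (pfC_sound p14_15_0_179)) (pfC_sound p14_15_0_180)) (pfC_sound p14_15_0_181)) (pfC_sound p14_15_0_182)) (pfC_sound p14_15_0_183)) (pfC_sound p14_15_0_184)) (pfC_sound p14_15_0_185)) (pfC_sound p14_15_0_186)) (pfC_sound p14_15_0_187)) (pfC_sound p14_15_0_188)) (pfC_sound p14_15_0_189)) (pfC_sound p14_15_0_190)) (pfC_sound p14_15_0_191)) (pfC_sound p14_15_0_192)) (pfC_sound p14_15_0_193)) (pfC_sound p14_15_0_194)) (pfC_sound p14_15_0_195)) (pfC_sound p14_15_0_196)) (pfC_sound p14_15_0_197)) (pfC_sound p14_15_0_198)) (pfC_sound p14_15_0_199)) (pfC_sound p14_15_0_200)) (pfC_sound p14_15_0_201)) (pfC_sound p14_15_0_202)) (pfC_sound p14_15_0_203)) (pfC_sound p14_15_0_204)) (pfC_sound p14_15_0_205)) (pfC_sound p14_15_0_206)) (pfC_sound p14_15_0_207)) (pfC_sound p14_15_0_208)) (pfC_sound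 p14_15_0_209)) (pfC_sound p14_15_0_210)) (pfC_sound p14_15_0_211)) (pfC_sound p14_15_0_212)) (pfC_sound p14_15_0_213)) (pfC_sound p14_15_0_214)) (pfC_sound p14_15_0_215)) (pfC_sound p14_15_0_216)) (pfC_sound
 p14_15_0_217)) (pfC_sound p14_15_0_218)) (pfC_sound p14_15_0_219)) (pfC_sound p14_15_0_220)) (pfC_sound p14_15_0_221)) (pfC_sound p14_15_0_222)) (pfC_sound p14_15_0_223)) (pfC_sound p14_15_0_224)) (pfC_sound p14_15_0_225)) (pfC_sound p14_15_0_226)) (pfC_sound p14_15_0_227)) (pfC_sound p14_15_0_228)) (pfC_sound p14_15_0_229)) (pfC_sound p14_15_0_230)) (pfC_sound p14_15_0_231)) (pfC_sound p14_15_0_232)) (pfC_sound p14_15_0_233)) (pfC_sound p14_15_0_234)) (pfC_sound p14_15_0_235)) (pfC_sound p14_15_0_236)) (pfC_sound p14_15_0_237)) (pfC_sound p14_15_0_238)) (pfC_sound p14_15_0_239)) (pfC_sound p14_15_0_240)) (pfC_sound p14_15_0_241)) (pfC_sound p14_15_0_242)) (pfC_sound p14_15_0_243)) (pfC_sound p14_15_0_244)) (pfC_sound p14_15_0_245)) (pfC_sound p14_15_0_246)) (pfC_sound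 p14_15_0_247)) (pfC_sound p14_15_0_248)) (pfC_sound p14_15_0_249)) (pfC_sound p14_15_0_250)) (pfC_sound p14_15_0_251)) (pfC_sound p14_15_0_252)) (pfC_sound p14_15_0_253)) (pfC_sound p14_15_0_254)) (pfC_sound p14_15_0_255)) (pfC_sound p14_15_0_256)) (pfC_sound p14_15_0_257)) (pfC_sound p14_15_0_258)) (pfC_sound p14_15_0_259)) (pfC_sound p14_15_0_260)) (pfC_sound p14_15_0_261)) (pfC_sound p14_15_0_262)) (pfC_sound
 p14_15_0_263)) (pfC_sound p14_15_0_264)) (pfC_sound p14_15_0_265)) (pfC_sound p14_15_0_266)) (pfC_sound p14_15_0_267)) (pfC_sound p14_15_0_268)) (pfC_sound p14_15_0_269)) (pfC_sound p14_15_0_270)) (pfC_sound p14_15_0_271)) (pfC_sound p14_15_0_272)) (pfC_sound p14_15_0_273)) (pfC_sound p14_15_0_274)) (pfC_sound p14_15_0_275)) (pfC_sound p14_15_0_276)) (pfC_sound p14_15_0_277)) (pfC_sound p14_15_0_278)) (pfC_sound p14_15_0_279)) (pfC_sound p14_15_0_280)) (pfC_sound p14_15_0_281)) (pfC_sound p14_15_0_282)) (pfC_sound p14_15_0_283)) (pfC_sound p14_15_0_284)) (pfC_sound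 p14_15_0_285)) (pfC_sound p14_15_0_286)) (pfC_sound p14_15_0_287)) (pfC_sound p14_15_0_288)) (pfC_sound p14_15_0_289)) (pfC_sound p14_15_0_290)) (pfC_sound p14_15_0_291)) (pfC_sound p14_15_0_292)) (pfC_sound p14_15_0_293)) (pfC_sound p14_15_0_294)) (pfC_sound p14_15_0_295)) (pfC_sound p14_15_0_296)) (pfC_sound p14_15_0_297)) (pfC_sound p14_15_0_298)) (pfC_sound p14_15_0_299)) (pfC_sound p14_15_0_300)) (pfC_sound p14_15_0_301)) (pfC_sound p14_15_0_302)) (pfC_sound p14_15_0_303)) (pfC_sound p14_15_0_304)) (pfC_sound p14_15_0_305)) (pfC_sound p14_15_0_306)) (pfC_sound p14_15_0_307)) (pfC_sound p14_15_0_308)) (pfC_sound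
 p14_15_0_309)) (pfC_sound p14_15_0_310)) (pfC_sound p14_15_0_311)) (pfC_sound p14_15_0_312)) (pfC_sound p14_15_0_313)) (pfC_sound p14_15_0_314)) (pfC_sound p14_15_0_315)) (pfC_sound p14_15_0_316)) (pfC_sound p14_15_0_317)) (pfC_sound p14_15_0_318)) (pfC_sound p14_15_0_319)) (pfC_sound p14_15_0_320)) (pfC_sound p14_15_0_321)) (pfC_sound p14_15_0_322)) (pfC_sound p14_15_0_323)) (pfC_sound p14_15_0_324)) (pfC_sound p14_15_0_325)) (pfC_sound p14_15_0_326)) (pfC_sound p14_15_0_327)) (pfC_sound p14_15_0_328)) (pfC_sound p14_15_0_329)) (pfC_sound p14_15_0_330)) (pfC_sound p14_15_0_331)) (pfC_sound p14_15_0_332)) (pfC_sound p14_15_0_333)) (pfC_sound p14_15_0_334)) (pfC_sound p14_15_0_335)) (pfC_sound p14_15_0_336)) (pfC_sound p14_15_0_337)) (pfC_sound p14_15_0_338)) (pfC_sound p14_15_0_339)) (pfC_sound p14_15_0_340)) (pfC_sound p14_15_0_341)) (pfC_sound p14_15_0_342)) (pfC_sound p14_15_0_343)) (pfC_sound p14_15_0_344)) (pfC_sound p14_15_0_345)) (pfC_sound p14_15_0_346)) (pfC_sound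 p14_15_0_347)) (pfC_sound p14_15_0_348)) (pfC_sound p14_15_0_349)) (pfC_sound p14_15_0_350)) (pfC_sound p14_15_0_351)) (pfC_sound p14_15_0_352)) (pfC_sound p14_15_0_353)) (pfC_sound p14_15_0_354)) (pfC_sound
 p14_15_0_355)) (pfC_sound p14_15_0_356)) (pfC_sound p14_15_0_357)) (pfC_sound p14_15_0_358)) (pfC_sound p14_15_0_359)) (pfC_sound p14_15_0_360)) (pfC_sound p14_15_0_361)) (pfC_sound p14_15_0_362)) (pfC_sound p14_15_0_363)) (pfC_sound p14_15_0_364)) (pfC_sound p14_15_0_365)) (pfC_sound p14_15_0_366)) (by decide +kernel)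

def z14_15_0 : zOK yB14_15 (nat_lit 0) (nat_lit 0) (nat_lit 400) (nat_lit 21892566) (nat_lit 10758730) = true := by decide +kernel
def g14_15_0 : gOK yB14_15.x P14_15 (nat_lit 1415) (q14_15 :: r14_15) (nat_lit 0) (nat_lit 0) (nat_lit 1) (nat_lit 400) (nat_lit 0) (nat_lit 11000000) (nat_lit 12712500) (nat_lit 12712500) [(nat_lit 800), (nat_lit 1400), (nat_lit 2200)] = true := by decide +kernel
def v14_15_0 : ivC P14_15 s14_15 w14_15 n14_15 (nat_lit 4) (nat_lit 5360) (nat_lit 0) (nat_lit 0) f168_1_0 f176_1_0 (nat_lit 1) (nat_lit 400) f168_1_400 f176_1_400 (nat_lit 21892566) (nat_lit 10758730) p14_15_0 = true := by decide +kernel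
def p14_15_1 : PF := (PF.cons (PF.cons (PF.cons (PF.cons (PF.leaf (nat_lit 2060064) (nat_lit 9658195) (nat_lit 57450617) (nat_lit 9658195) [(nat_lit 0), (nat_lit 0), (nat_lit 0), (nat_lit 0)]) (PF.cons (PF.leaf (nat_lit 2260990) (nat_lit 354857) (nat_lit 57064925) (nat_lit 9689030) [(nat_lit 354857), (nat_lit 0), (nat_lit 0), (nat_lit 0)]) (PF.cons (PF.leaf (nat_lit 2498137) (nat_lit 386336) (nat_lit 56614480) (nat_lit 9721659) [(nat_lit 386336), (nat_lit 0), (nat_lit 0), (nat_lit 0)]) (PF.cons (PF.leaf (nat_lit 2764573) (nat_lit 414333) (nat_lit 56111790) (nat_lit 9754021) [(nat_lit 414333), (nat_lit 0), (nat_lit 0), (nat_lit 0)]) (PF.cons (PF.leaf (nat_lit 3056032) (nat_lit 439589) (nat_lit 55565863) (nat_lit 9784590) [(nat_lit 439589), (nat_lit 0), (nat_lit 0), (nat_lit 0)]) (PF.cons (PF.leaf (nat_lit 3369158) (nat_lit 462566) (nat_lit 54983760) (nat_lit 9812218) [(nat_lit 462566), (nat_lit 0), (nat_lit 0), (nat_lit 0)]) (PF.cons (PF.leaf (nat_lit 3701144) (nat_lit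 483576) (nat_lit 54371313) (nat_lit 9836040) [(nat_lit 483576), (nat_lit 0), (nat_lit 0), (nat_lit 0)]) (PF.cons (PF.leaf (nat_lit 4049599) (nat_lit 502840) (nat_lit 53733502) (nat_lit 9855423) [(nat_lit 502840), (nat_lit 0), (nat_lit
 0), (nat_lit 0)]) (PF.cons (PF.leaf (nat_lit 4412373) (nat_lit 520527) (nat_lit 53074672) (nat_lit 9869920) [(nat_lit 520527), (nat_lit 0), (nat_lit 0), (nat_lit 0)]) (PF.cons (PF.leaf (nat_lit 4787549) (nat_lit 536768) (nat_lit 52398664) (nat_lit 9879234) [(nat_lit 536768), (nat_lit 0), (nat_lit 0), (nat_lit 0)]) (PF.cons PF.nil (PF.cons PF.nil PF.nil)))))))))))) (PF.cons (PF.cons (PF.leaf (nat_lit 2678822) (nat_lit 1450346) (nat_lit 55900317) (nat_lit 9758149) [(nat_lit 0), (nat_lit 1450346), (nat_lit 0), (nat_lit 0)]) (PF.cons (PF.leaf (nat_lit 2936319) (nat_lit 424761) (nat_lit 55407257) (nat_lit 9784360) [(nat_lit 424761), (nat_lit 1492433), (nat_lit 0), (nat_lit 0)]) (PF.cons (PF.leaf (nat_lit 3221088) (nat_lit 449227) (nat_lit 54868291)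 (nat_lit 9808891) [(nat_lit 449227), (nat_lit 1533174), (nat_lit 0), (nat_lit 0)]) (PF.cons (PF.leaf (nat_lit 3528408) (nat_lit 471393) (nat_lit 54292101) (nat_lit 9830582) [(nat_lit 471393), (nat_lit 1571949), (nat_lit 0), (nat_lit 0)]) (PF.cons (PF.leaf (nat_lit 3855041) (nat_lit 491603) (nat_lit 53685349) (nat_lit 9848595) [(nat_lit 491603), (nat_lit 1608451), (nat_lit 0), (nat_lit 0)]) (PF.cons (PF.leaf (nat_lit 4198349) (nat_lit 510097)
 (nat_lit 53053458) (nat_lit 9862331) [(nat_lit 510097), (nat_lit 1642537), (nat_lit 0), (nat_lit 0)]) (PF.cons (PF.leaf (nat_lit 4556042) (nat_lit 527045) (nat_lit 52401006) (nat_lit 9871377) [(nat_lit 527045), (nat_lit 1674155), (nat_lit 0), (nat_lit 0)]) (PF.cons (PF.leaf (nat_lit 4926120) (nat_lit 542583) (nat_lit 51731952) (nat_lit 9875469) [(nat_lit 542583), (nat_lit 1703306), (nat_lit 0), (nat_lit 0)]) (PF.cons PF.nil (PF.cons PF.nil PF.nil)))))))))) (PF.cons (PF.cons (PF.leaf (nat_lit 3389855) (nat_lit 1563176) (nat_lit 54155386)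 (nat_lit 9827073) [(nat_lit 0), (nat_lit 1563176), (nat_lit 0), (nat_lit 0)]) (PF.cons (PF.leaf (nat_lit 3689067) (nat_lit 478951) (nat_lit 53590226) (nat_lit 9843061) [(nat_lit 478951), (nat_lit 1598286), (nat_lit 0), (nat_lit 0)]) (PF.cons (PF.leaf (nat_lit 4009050) (nat_lit 498558) (nat_lit 52992943) (nat_lit 9855552) [(nat_lit 498558), (nat_lit 1631599), (nat_lit 0), (nat_lit 0)]) (PF.cons (PF.leaf (nat_lit 4346289) (nat_lit 516423) (nat_lit 52369877) (nat_lit 9863959) [(nat_lit 516423), (nat_lit 1662852), (nat_lit 0), (nat_lit 0)]) (PF.cons (PF.leaf (nat_lit 4698227) (nat_lit 532745) (nat_lit 51726106) (nat_lit 9867887) [(nat_lit 532745),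
 (nat_lit 1691918), (nat_lit 0), (nat_lit 0)]) (PF.cons (PF.leaf (nat_lit 5062702) (nat_lit 547669) (nat_lit 51065867) (nat_lit 9867093) [(nat_lit 547669), (nat_lit 1718750), (nat_lit 0), (nat_lit 0)]) (PF.cons (PF.leaf (nat_lit 5437855) (nat_lit 561313) (nat_lit 50392782) (nat_lit 9861451) [(nat_lit 561313), (nat_lit 1743350), (nat_lit 0), (nat_lit 0)]) (PF.cons PF.nil (PF.cons PF.nil PF.nil))))))))) (PF.cons (PF.cons (PF.leaf (nat_lit 4164782) (nat_lit 1652805) (nat_lit 52293324) (nat_lit 9857072) [(nat_lit 0), (nat_lit 1652805), (nat_lit 0), (nat_lit 0)]) (PF.cons (PF.leaf (nat_lit 4494363) (nat_lit 521821) (nat_lit 51682423) (nat_lit 9860492) [(nat_lit 521821), (nat_lit 1681358), (nat_lit 0), (nat_lit 0)]) (PF.cons (PF.leaf (nat_lit 4839666) (nat_lit 537635) (nat_lit 51049870) (nat_lit 9859651) [(nat_lit 537635), (nat_lit 1708006), (nat_lit 0), (nat_lit 0)]) (PF.cons (PF.leaf (nat_lit 5197917) (nat_lit 552041) (nat_lit 50400429) (nat_lit 9854318) [(nat_lit 552041),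 (nat_lit 1732646), (nat_lit 0), (nat_lit 0)]) (PF.cons (PF.leaf (nat_lit 5567052) (nat_lit 565169) (nat_lit 49738021) (nat_lit 9844380) [(nat_lit 565169), (nat_lit 1755244), (nat_lit 0), (nat_lit 0)]) (PF.cons
 (PF.leaf (nat_lit 5945337) (nat_lit 577122) (nat_lit 49065962) (nat_lit 9829812) [(nat_lit 577122), (nat_lit 1775808), (nat_lit 0), (nat_lit 0)]) (PF.cons PF.nil PF.nil))))))) (PF.cons (PF.cons (PF.leaf (nat_lit 4981549) (nat_lit 1722545) (nat_lit 50371792) (nat_lit 9846839) [(nat_lit 0), (nat_lit 1722545), (nat_lit 0), (nat_lit 0)]) (PF.cons (PF.leaf (nat_lit 5332433) (nat_lit 555699) (nat_lit 49735378) (nat_lit 9837327) [(nat_lit 555699), (nat_lit 1745101), (nat_lit 0), (nat_lit 0)]) (PF.cons (PF.leaf (nat_lit 5694995) (nat_lit 568394) (nat_lit 49085365) (nat_lit 9823438) [(nat_lit 568394), (nat_lit 1765804), (nat_lit 0), (nat_lit 0)]) (PF.cons (PF.leaf (nat_lit 6066978) (nat_lit 579912) (nat_lit 48425380) (nat_lit 9805157) [(nat_lit 579912), (nat_lit 1784634),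 (nat_lit 0), (nat_lit 0)]) (PF.cons PF.nil PF.nil))))) (PF.cons (PF.cons (PF.leaf (nat_lit 5822590) (nat_lit 1775117) (nat_lit 48434438) (nat_lit 9798786) [(nat_lit 0), (nat_lit 1775117), (nat_lit 0), (nat_lit 0)]) (PF.cons (PF.leaf (nat_lit 6187477) (nat_lit 582143) (nat_lit 47788020) (nat_lit 9777126) [(nat_lit 582143), (nat_lit 1792304), (nat_lit 0), (nat_lit 0)]) (PF.cons (PF.leaf (nat_lit 6560753) (nat_lit 592214)
 (nat_lit 47134181) (nat_lit 9751348) [(nat_lit 592214), (nat_lit 1807770), (nat_lit 0), (nat_lit 0)]) (PF.cons PF.nil PF.nil)))) (PF.cons (PF.cons (PF.leaf (nat_lit 6673987) (nat_lit 1812933) (nat_lit 46513971) (nat_lit 9717242) [(nat_lit 0), (nat_lit 1812933), (nat_lit 0), (nat_lit 0)]) (PF.cons PF.nil PF.nil)) (PF.cons PF.nil (PF.cons PF.nil PF.nil))))))))) (PF.cons (PF.cons (PF.cons (PF.leaf (nat_lit 3278034) (nat_lit 3676198) (nat_lit 53626952) (nat_lit 9805662) [(nat_lit 0), (nat_lit 0), (nat_lit 3676198), (nat_lit 0)]) (PF.cons (PF.leaf (nat_lit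 3546318) (nat_lit 455001) (nat_lit 53122686) (nat_lit 9817878) [(nat_lit 455001), (nat_lit 0), (nat_lit 3713246), (nat_lit 0)]) (PF.cons (PF.leaf (nat_lit 3840143) (nat_lit 477525) (nat_lit 52576562) (nat_lit 9827522) [(nat_lit 477525), (nat_lit 0), (nat_lit 3749675), (nat_lit 0)]) (PF.cons (PF.leaf (nat_lit 4154597) (nat_lit 497618) (nat_lit 51997591) (nat_lit 9833839) [(nat_lit 497618), (nat_lit 0), (nat_lit 3784526), (nat_lit 0)]) (PF.cons (PF.leaf (nat_lit 4486391) (nat_lit 515706) (nat_lit 51392492) (nat_lit 9836307) [(nat_lit 515706), (nat_lit 0), (nat_lit 3817188), (nat_lit 0)]) (PF.cons (PF.leaf (nat_lit 4832882) (nat_lit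
 532073) (nat_lit 50766586) (nat_lit 9834581) [(nat_lit 532073), (nat_lit 0), (nat_lit 3847275), (nat_lit 0)]) (PF.cons (PF.leaf (nat_lit 5191854) (nat_lit 546926) (nat_lit 50124254) (nat_lit 9828450) [(nat_lit 546926), (nat_lit 0), (nat_lit 3874549), (nat_lit 0)]) (PF.cons (PF.leaf (nat_lit 5561381) (nat_lit 560418) (nat_lit 49469195) (nat_lit 9817809) [(nat_lit 560418), (nat_lit 0), (nat_lit 3898878), (nat_lit 0)]) (PF.cons PF.nil (PF.cons PF.nil PF.nil)))))))))) (PF.cons (PF.cons (PF.leaf (nat_lit 4001454) (nat_lit 1628239) (nat_lit 51873627) (nat_lit 9827210) [(nat_lit 0), (nat_lit 1628239), (nat_lit 3779734), (nat_lit 0)]) (PF.cons (PF.leaf (nat_lit 4306685) (nat_lit 502744) (nat_lit 51309519) (nat_lit 9828953) [(nat_lit 502744), (nat_lit 1657354), (nat_lit 3810240), (nat_lit 0)]) (PF.cons (PF.leaf (nat_lit 4630889) (nat_lit 520435) (nat_lit 50717272) (nat_lit 9827008) [(nat_lit 520435), (nat_lit 1684716), (nat_lit 3838944), (nat_lit 0)]) (PF.cons (PF.leaf (nat_lit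 4970547) (nat_lit 536356) (nat_lit 50103165) (nat_lit 9821046) [(nat_lit 536356), (nat_lit 1710141), (nat_lit 3865391), (nat_lit 0)]) (PF.cons (PF.leaf (nat_lit 5323142) (nat_lit 550741) (nat_lit 49472112) (nat_lit
 9810875) [(nat_lit 550741), (nat_lit 1733555), (nat_lit 3889301), (nat_lit 0)]) (PF.cons (PF.leaf (nat_lit 5686582) (nat_lit 563765) (nat_lit 48828120) (nat_lit 9796405) [(nat_lit 563765), (nat_lit 1754944), (nat_lit 3910515), (nat_lit 0)]) (PF.cons (PF.leaf (nat_lit 6059094) (nat_lit 575559) (nat_lit 48174544) (nat_lit 9777627) [(nat_lit 575559), (nat_lit 1774332), (nat_lit 3928955), (nat_lit 0)]) (PF.cons PF.nil (PF.cons PF.nil PF.nil))))))))) (PF.cons (PF.cons (PF.leaf (nat_lit 4777227) (nat_lit 1699990) (nat_lit 50037812) (nat_lit 9813138) [(nat_lit 0), (nat_lit 1699990), (nat_lit 3857880), (nat_lit 0)]) (PF.cons (PF.leaf (nat_lit 5108543) (nat_lit 539829) (nat_lit 49438388) (nat_lit 9803302) [(nat_lit 539829), (nat_lit 1723210), (nat_lit 3880871), (nat_lit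 0)]) (PF.cons (PF.leaf (nat_lit 5453946) (nat_lit 553860) (nat_lit 48820752) (nat_lit 9789436) [(nat_lit 553860), (nat_lit 1744649), (nat_lit 3901606), (nat_lit 0)]) (PF.cons (PF.leaf (nat_lit 5810726) (nat_lit 566500) (nat_lit 48189458) (nat_lit 9771464) [(nat_lit 566500), (nat_lit 1764248), (nat_lit 3919889), (nat_lit 0)]) (PF.cons (PF.leaf (nat_lit 6176915) (nat_lit 577903) (nat_lit 47548180) (nat_lit 9749391) [(nat_lit
 577903), (nat_lit 1782003), (nat_lit 3935620), (nat_lit 0)]) (PF.cons PF.nil (PF.cons PF.nil PF.nil))))))) (PF.cons (PF.cons (PF.leaf (nat_lit 5585423) (nat_lit 1754486) (nat_lit 48169488) (nat_lit 9764256) [(nat_lit 0), (nat_lit 1754486), (nat_lit 3911607), (nat_lit 0)]) (PF.cons (PF.leaf (nat_lit 5934475) (nat_lit 568617) (nat_lit 47552782) (nat_lit 9743125) [(nat_lit 568617), (nat_lit 1772385), (nat_lit 3927132), (nat_lit 0)]) (PF.cons (PF.leaf (nat_lit 6293786) (nat_lit 579706) (nat_lit 46925223) (nat_lit 9718073) [(nat_lit 579706), (nat_lit 1788594),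 (nat_lit 3940320), (nat_lit 0)]) (PF.cons (PF.leaf (nat_lit 6661230) (nat_lit 589662) (nat_lit 46290184) (nat_lit 9689170) [(nat_lit 589662), (nat_lit 1803118), (nat_lit 3951115), (nat_lit 0)]) (PF.cons PF.nil PF.nil))))) (PF.cons (PF.cons (PF.leaf (nat_lit 6410620) (nat_lit 1794171) (nat_lit 46305172) (nat_lit 9683789) [(nat_lit 0), (nat_lit 1794171), (nat_lit 3943164), (nat_lit 0)]) (PF.cons (PF.leaf (nat_lit 6770825) (nat_lit 590656) (nat_lit 45684549) (nat_lit 9652403) [(nat_lit 590656), (nat_lit 1807359), (nat_lit 3951765), (nat_lit 0)]) (PF.cons PF.nil (PF.cons PF.nil PF.nil)))) (PF.cons (PF.cons (PF.leaf (nat_lit 7240859)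
 (nat_lit 1821212) (nat_lit 44471367) (nat_lit 9576087) [(nat_lit 0), (nat_lit 1821212), (nat_lit 3955295), (nat_lit 0)]) (PF.cons PF.nil PF.nil)) (PF.cons PF.nil (PF.cons PF.nil PF.nil)))))))) (PF.cons (PF.cons (PF.cons (PF.leaf (nat_lit 4596450) (nat_lit 3835384) (nat_lit 49659779) (nat_lit 9778265) [(nat_lit 0), (nat_lit 0), (nat_lit 3835384), (nat_lit 0)]) (PF.cons (PF.leaf (nat_lit 4904771) (nat_lit 521036) (nat_lit 49104698) (nat_lit 9768166) [(nat_lit 521036), (nat_lit 0), (nat_lit 3857455), (nat_lit 0)]) (PF.cons (PF.leaf (nat_lit 5230504) (nat_lit 537018) (nat_lit 48524932) (nat_lit 9754364) [(nat_lit 537018), (nat_lit 0), (nat_lit 3877739), (nat_lit 0)]) (PF.cons (PF.leaf (nat_lit 5570131) (nat_lit 551224) (nat_lit 47926586) (nat_lit 9736733) [(nat_lit 551224), (nat_lit 0), (nat_lit 3895909), (nat_lit 0)]) (PF.cons (PF.leaf (nat_lit 5921184) (nat_lit 563919) (nat_lit 47314349) (nat_lit 9715230) [(nat_lit 563919), (nat_lit 0), (nat_lit 3911776), (nat_lit 0)])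 (PF.cons (PF.leaf (nat_lit 6281676) (nat_lit 575295) (nat_lit 46691975) (nat_lit 9689875) [(nat_lit 575295), (nat_lit 0), (nat_lit 3925242), (nat_lit 0)]) (PF.cons PF.nil (PF.cons PF.nil (PF.cons PF.nil
 PF.nil))))))))) (PF.cons (PF.cons (PF.leaf (nat_lit 5367299) (nat_lit 1732412) (nat_lit 47871573) (nat_lit 9728428) [(nat_lit 0), (nat_lit 1732412), (nat_lit 3888198), (nat_lit 0)]) (PF.cons (PF.leaf (nat_lit 5698149) (nat_lit 553129) (nat_lit 47289445) (nat_lit 9707901) [(nat_lit 553129), (nat_lit 1751144), (nat_lit 3903595), (nat_lit 0)]) (PF.cons (PF.leaf (nat_lit 6041670) (nat_lit 565595) (nat_lit 46691939) (nat_lit 9683632) [(nat_lit 565595), (nat_lit 1768215), (nat_lit 3916917), (nat_lit 0)]) (PF.cons (PF.leaf (nat_lit 6395243) (nat_lit 576701) (nat_lit 46083366) (nat_lit 9655662) [(nat_lit 576701), (nat_lit 1783602), (nat_lit 3928038), (nat_lit 0)]) (PF.cons (PF.leaf (nat_lit 6756981) (nat_lit 586614) (nat_lit 45467142) (nat_lit 9624077) [(nat_lit 586614), (nat_lit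 1797323), (nat_lit 3936905), (nat_lit 0)]) (PF.cons PF.nil (PF.cons PF.nil PF.nil))))))) (PF.cons (PF.cons (PF.leaf (nat_lit 6163060) (nat_lit 1774267) (nat_lit 46070905) (nat_lit 9648997) [(nat_lit 0), (nat_lit 1774267), (nat_lit 3920187), (nat_lit 0)]) (PF.cons (PF.leaf (nat_lit 6508705) (nat_lit 577565) (nat_lit 45477753) (nat_lit 9618730) [(nat_lit 577565), (nat_lit 1788269), (nat_lit 3929112), (nat_lit 0)])
 (PF.cons (PF.leaf (nat_lit 6863439) (nat_lit 587263) (nat_lit 44875921) (nat_lit 9584980) [(nat_lit 587263), (nat_lit 1800733), (nat_lit 3935958), (nat_lit 0)]) (PF.cons PF.nil (PF.cons PF.nil PF.nil))))) (PF.cons (PF.cons (PF.leaf (nat_lit 6970144) (nat_lit 1803315) (nat_lit 44288306) (nat_lit 9543528) [(nat_lit 0), (nat_lit 1803315), (nat_lit 3933515), (nat_lit 0)]) (PF.cons (PF.leaf (nat_lit 7324658) (nat_lit 595870) (nat_lit 43695652) (nat_lit 9504680) [(nat_lit 595870), (nat_lit 1813180), (nat_lit 3936533), (nat_lit 0)]) (PF.cons PF.nil (PF.cons PF.nil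 PF.nil)))) (PF.cons (PF.cons (PF.leaf (nat_lit 7778249) (nat_lit 1821517) (nat_lit 42545243) (nat_lit 9416165) [(nat_lit 0), (nat_lit 1821517), (nat_lit 3930667), (nat_lit 0)]) (PF.cons PF.nil PF.nil)) (PF.cons PF.nil PF.nil)))))) (PF.cons (PF.cons (PF.cons (PF.leaf (nat_lit 5933885) (nat_lit 3896796) (nat_lit 45805900) (nat_lit 9612522) [(nat_lit 0), (nat_lit 0), (nat_lit 3896796), (nat_lit 0)]) (PF.cons (PF.leaf (nat_lit 6262593) (nat_lit 562554) (nat_lit 45244842) (nat_lit 9583522) [(nat_lit 562554), (nat_lit 0), (nat_lit 3905964), (nat_lit 0)]) (PF.cons (PF.leaf (nat_lit 6602790) (nat_lit 573647) (nat_lit 44670735) (nat_lit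
 9551088) [(nat_lit 573647), (nat_lit 0), (nat_lit 3913231), (nat_lit 0)]) (PF.cons (PF.leaf (nat_lit 6951914) (nat_lit 583419) (nat_lit 44087627) (nat_lit 9515346) [(nat_lit 583419), (nat_lit 0), (nat_lit 3918526), (nat_lit 0)]) (PF.cons PF.nil PF.nil))))) (PF.cons (PF.cons (PF.leaf (nat_lit 6714566) (nat_lit 1784275) (nat_lit 44081579) (nat_lit 9509379) [(nat_lit 0), (nat_lit 1784275), (nat_lit 3911192), (nat_lit 0)]) (PF.cons (PF.leaf (nat_lit 7055694) (nat_lit 583267) (nat_lit 43514201) (nat_lit 9472055) [(nat_lit 583267), (nat_lit 1795018), (nat_lit 3914756), (nat_lit 0)]) (PF.cons (PF.leaf (nat_lit 7404924) (nat_lit 591762) (nat_lit 42939853) (nat_lit 9431655) [(nat_lit 591762), (nat_lit 1804361), (nat_lit 3916472), (nat_lit 0)]) (PF.cons PF.nil PF.nil)))) (PF.cons (PF.cons (PF.leaf (nat_lit 7502195) (nat_lit 1804549) (nat_lit 42384994) (nat_lit 9385010) [(nat_lit 0), (nat_lit 1804549), (nat_lit 3909902), (nat_lit 0)]) (PF.cons (PF.leaf (nat_lit 7850363) (nat_lit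 598408) (nat_lit 41821245) (nat_lit 9340557) [(nat_lit 598408), (nat_lit 1811656), (nat_lit 3908429), (nat_lit 0)]) PF.nil)) (PF.cons PF.nil (PF.cons PF.nil PF.nil))))) (PF.cons (PF.cons (PF.cons (PF.leaf (nat_lit
 7240617) (nat_lit 3888481) (nat_lit 42202795) (nat_lit 9352092) [(nat_lit 0), (nat_lit 0), (nat_lit 3888481), (nat_lit 0)]) (PF.cons (PF.leaf (nat_lit 7576430) (nat_lit 586320) (nat_lit 41662230) (nat_lit 9309431) [(nat_lit 586320), (nat_lit 0), (nat_lit 3887707), (nat_lit 0)]) (PF.cons (PF.leaf (nat_lit 7919539) (nat_lit 593772) (nat_lit 41116041) (nat_lit 9264059) [(nat_lit 593772), (nat_lit 0), (nat_lit 3885291), (nat_lit 0)]) (PF.cons PF.nil PF.nil)))) (PF.cons (PF.cons (PF.leaf (nat_lit 8008097) (nat_lit 1799495) (nat_lit 40593415) (nat_lit 9213793) [(nat_lit 0), (nat_lit 1799495), (nat_lit 3875527), (nat_lit 0)]) (PF.cons PF.nil PF.nil)) (PF.cons PF.nil PF.nil))) (PF.cons (PF.cons (PF.cons (PF.leaf (nat_lit 8489351) (nat_lit 3832950) (nat_lit 38909816)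 (nat_lit 9034245) [(nat_lit 0), (nat_lit 0), (nat_lit 3832950), (nat_lit 0)]) (PF.cons PF.nil PF.nil)) (PF.cons PF.nil PF.nil)) (PF.cons PF.nil (PF.cons PF.nil PF.nil)))))))) (PF.cons (PF.cons (PF.cons (PF.cons (PF.leaf (nat_lit 4213930) (nat_lit 9151660) (nat_lit 48363235) (nat_lit 9593916) [(nat_lit 0), (nat_lit 0), (nat_lit 0), (nat_lit 9151660)]) (PF.cons (PF.leaf (nat_lit 4479138) (nat_lit 469814) (nat_lit 47906132)
 (nat_lit 9586075) [(nat_lit 469814), (nat_lit 0), (nat_lit 0), (nat_lit 9146790)]) (PF.cons (PF.leaf (nat_lit 4767669) (nat_lit 490465) (nat_lit 47413749) (nat_lit 9575108) [(nat_lit 490465), (nat_lit 0), (nat_lit 0), (nat_lit 9139023)]) (PF.cons (PF.leaf (nat_lit 5074599) (nat_lit 508482) (nat_lit 46894459) (nat_lit 9560807) [(nat_lit 508482), (nat_lit 0), (nat_lit 0), (nat_lit 9128100)]) (PF.cons (PF.leaf (nat_lit 5396602) (nat_lit 524375) (nat_lit 46354398) (nat_lit 9543049) [(nat_lit 524375), (nat_lit 0), (nat_lit 0), (nat_lit 9113863)]) (PF.cons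 (PF.leaf (nat_lit 5731110) (nat_lit 538492) (nat_lit 45798332) (nat_lit 9521781) [(nat_lit 538492), (nat_lit 0), (nat_lit 0), (nat_lit 9096235)]) (PF.cons (PF.leaf (nat_lit 6076024) (nat_lit 551084) (nat_lit 45230095) (nat_lit 9497007) [(nat_lit 551084), (nat_lit 0), (nat_lit 0), (nat_lit 9075200)]) (PF.cons (PF.leaf (nat_lit 6429560) (nat_lit 562340) (nat_lit 44652859) (nat_lit 9468777) [(nat_lit 562340), (nat_lit 0), (nat_lit 0), (nat_lit 9050793)]) (PF.cons (PF.leaf (nat_lit 6790191) (nat_lit 572407) (nat_lit 44069289) (nat_lit 9437180) [(nat_lit 572407), (nat_lit 0), (nat_lit 0), (nat_lit 9023086)]) (PF.cons PF.nil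
 PF.nil)))))))))) (PF.cons (PF.cons (PF.leaf (nat_lit 4911917) (nat_lit 1648699) (nat_lit 46790183) (nat_lit 9551065) [(nat_lit 0), (nat_lit 1648699), (nat_lit 0), (nat_lit 9118864)]) (PF.cons (PF.leaf (nat_lit 5208901) (nat_lit 511122) (nat_lit 46286769) (nat_lit 9534204) [(nat_lit 511122), (nat_lit 1671416), (nat_lit 0), (nat_lit 9105300)]) (PF.cons (PF.leaf (nat_lit 5522748) (nat_lit 526772) (nat_lit 45760518) (nat_lit 9513936) [(nat_lit 526772), (nat_lit 1692322), (nat_lit 0), (nat_lit 9088491)]) (PF.cons (PF.leaf (nat_lit 5849999) (nat_lit 540590) (nat_lit 45217055) (nat_lit 9490246) [(nat_lit 540590), (nat_lit 1711348), (nat_lit 0), (nat_lit 9068390)]) (PF.cons (PF.leaf (nat_lit 6188285) (nat_lit 552860) (nat_lit 44660697) (nat_lit 9463164) [(nat_lit 552860), (nat_lit 1728503), (nat_lit 0), (nat_lit 9045003)]) (PF.cons (PF.leaf (nat_lit 6535608) (nat_lit 563788) (nat_lit 44094898) (nat_lit 9432758) [(nat_lit 563788), (nat_lit 1743833), (nat_lit 0), (nat_lit 9018379)])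 (PF.cons (PF.leaf (nat_lit 6890355) (nat_lit 573532) (nat_lit 43522490) (nat_lit 9399124) [(nat_lit 573532), (nat_lit 1757404), (nat_lit 0), (nat_lit 8988600)]) (PF.cons PF.nil (PF.cons PF.nil PF.nil)))))))))
 (PF.cons (PF.cons (PF.leaf (nat_lit 5650972) (nat_lit 1701040) (nat_lit 45164920) (nat_lit 9481730) [(nat_lit 0), (nat_lit 1701040), (nat_lit 0), (nat_lit 9060080)]) (PF.cons (PF.leaf (nat_lit 5969624) (nat_lit 542011) (nat_lit 44636305) (nat_lit 9455944) [(nat_lit 542011), (nat_lit 1718367), (nat_lit 0), (nat_lit 9037816)]) (PF.cons (PF.leaf (nat_lit 6300534) (nat_lit 554066) (nat_lit 44093438) (nat_lit 9426841) [(nat_lit 554066), (nat_lit 1734022), (nat_lit 0), (nat_lit 9012354)]) (PF.cons (PF.leaf (nat_lit 6641140) (nat_lit 564747) (nat_lit 43540268) (nat_lit 9394516) [(nat_lit 564747), (nat_lit 1748010), (nat_lit 0), (nat_lit 8983763)]) (PF.cons (PF.leaf (nat_lit 6989633) (nat_lit 574231) (nat_lit 42979920) (nat_lit 9359082) [(nat_lit 574231), (nat_lit 1760372),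 (nat_lit 0), (nat_lit 8952140)]) (PF.cons (PF.leaf (nat_lit 7344470) (nat_lit 582653) (nat_lit 42414941) (nat_lit 9320670) [(nat_lit 582653), (nat_lit 1771166), (nat_lit 0), (nat_lit 8917602)]) (PF.cons PF.nil PF.nil))))))) (PF.cons (PF.cons (PF.leaf (nat_lit 6413875) (nat_lit 1738626) (nat_lit 43527548) (nat_lit 9388081) [(nat_lit 0), (nat_lit 1738626), (nat_lit 0), (nat_lit 8977303)]) (PF.cons (PF.leaf (nat_lit
 6746786) (nat_lit 565203) (nat_lit 42988440) (nat_lit 9354114) [(nat_lit 565203), (nat_lit 1751347), (nat_lit 0), (nat_lit 8947011)]) (PF.cons (PF.leaf (nat_lit 7088528) (nat_lit 574498) (nat_lit 42441196) (nat_lit 9317124) [(nat_lit 574498), (nat_lit 1762571), (nat_lit 0), (nat_lit 8913780)]) (PF.cons (PF.leaf (nat_lit 7437098) (nat_lit 582714) (nat_lit 41888662) (nat_lit 9277259) [(nat_lit 582714), (nat_lit 1772335), (nat_lit 0), (nat_lit 8877742)]) (PF.cons PF.nil PF.nil))))) (PF.cons (PF.cons (PF.leaf (nat_lit 7187904) (nat_lit 1764047) (nat_lit 41905755)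 (nat_lit 9273297) [(nat_lit 0), (nat_lit 1764047), (nat_lit 0), (nat_lit 8873570)]) (PF.cons (PF.leaf (nat_lit 7529479) (nat_lit 582391) (nat_lit 41366588) (nat_lit 9232210) [(nat_lit 582391), (nat_lit 1772842), (nat_lit 0), (nat_lit 8836254)]) (PF.cons (PF.leaf (nat_lit 7877217) (nat_lit 589487) (nat_lit 40823703) (nat_lit 9188490) [(nat_lit 589487), (nat_lit 1780320), (nat_lit 0), (nat_lit 8796361)]) (PF.cons PF.nil PF.nil)))) (PF.cons (PF.cons (PF.leaf (nat_lit 7963488) (nat_lit 1779378) (nat_lit 40318707) (nat_lit 9140913) [(nat_lit 0), (nat_lit 1779378), (nat_lit 0), (nat_lit 8752301)]) (PF.cons PF.nil PF.nil)) (PF.cons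
 PF.nil (PF.cons PF.nil PF.nil)))))))) (PF.cons (PF.cons (PF.cons (PF.leaf (nat_lit 5456287) (nat_lit 3790681) (nat_lit 44852819) (nat_lit 9442667) [(nat_lit 0), (nat_lit 0), (nat_lit 3790681), (nat_lit 9022644)]) (PF.cons (PF.leaf (nat_lit 5753985) (nat_lit 523200) (nat_lit 44362918) (nat_lit 9418318) [(nat_lit 523200), (nat_lit 0), (nat_lit 3802759), (nat_lit 9001615)]) (PF.cons (PF.leaf (nat_lit 6067265) (nat_lit 537359) (nat_lit 43852857) (nat_lit 9390654) [(nat_lit 537359), (nat_lit 0), (nat_lit 3813159), (nat_lit 8977421)]) (PF.cons (PF.leaf (nat_lit 6392715) (nat_lit 549724) (nat_lit 43328011) (nat_lit 9359779) [(nat_lit 549724), (nat_lit 0), (nat_lit 3821709), (nat_lit 8950138)]) (PF.cons (PF.leaf (nat_lit 6728005) (nat_lit 560593) (nat_lit 42792447) (nat_lit 9325811) [(nat_lit 560593), (nat_lit 0), (nat_lit 3828323), (nat_lit 8919856)]) (PF.cons (PF.leaf (nat_lit 7071264) (nat_lit 570180) (nat_lit 42249367) (nat_lit 9288877) [(nat_lit 570180), (nat_lit 0), (nat_lit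 3832978), (nat_lit 8886687)]) (PF.cons (PF.leaf (nat_lit 7420947) (nat_lit 578648) (nat_lit 41701364) (nat_lit 9249118) [(nat_lit 578648), (nat_lit 0), (nat_lit 3835688), (nat_lit 8850753)]) (PF.cons PF.nil
 (PF.cons PF.nil PF.nil))))))))) (PF.cons (PF.cons (PF.leaf (nat_lit 6186882) (nat_lit 1716680) (nat_lit 43284653) (nat_lit 9351483) [(nat_lit 0), (nat_lit 1716680), (nat_lit 3813977), (nat_lit 8942018)]) (PF.cons (PF.leaf (nat_lit 6503542) (nat_lit 549993) (nat_lit 42775260) (nat_lit 9319172) [(nat_lit 549993), (nat_lit 1730545), (nat_lit 3820616), (nat_lit 8913224)]) (PF.cons (PF.leaf (nat_lit 6831352) (nat_lit 560752) (nat_lit 42253664) (nat_lit 9283804) [(nat_lit 560752), (nat_lit 1742872), (nat_lit 3825487), (nat_lit 8881480)]) (PF.cons (PF.leaf (nat_lit 7167838) (nat_lit 570185) (nat_lit 41723567) (nat_lit 9245535) [(nat_lit 570185), (nat_lit 1753686), (nat_lit 3828546), (nat_lit 8846920)]) (PF.cons (PF.leaf (nat_lit 7511259) (nat_lit 578475) (nat_lit 41187862)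 (nat_lit 9204526) [(nat_lit 578475), (nat_lit 1763040), (nat_lit 3829794), (nat_lit 8809685)]) (PF.cons PF.nil (PF.cons PF.nil PF.nil))))))) (PF.cons (PF.cons (PF.leaf (nat_lit 6936024) (nat_lit 1744824) (nat_lit 41716845) (nat_lit 9239816) [(nat_lit 0), (nat_lit 1744824), (nat_lit 3821352), (nat_lit 8841150)]) (PF.cons (PF.leaf (nat_lit 7264787) (nat_lit 569744) (nat_lit 41200984) (nat_lit 9200468) [(nat_lit 569744),
 (nat_lit 1754617), (nat_lit 3822935), (nat_lit 8805444)]) (PF.cons (PF.leaf (nat_lit 7601470) (nat_lit 577925) (nat_lit 40678473) (nat_lit 9158429) [(nat_lit 577925), (nat_lit 1763052), (nat_lit 3822831), (nat_lit 8767121)]) (PF.cons (PF.leaf (nat_lit 7944175) (nat_lit 585078) (nat_lit 40151938) (nat_lit 9113878) [(nat_lit 585078), (nat_lit 1770176), (nat_lit 3821061), (nat_lit 8726344)]) (PF.cons PF.nil PF.nil))))) (PF.cons (PF.cons (PF.leaf (nat_lit 7692409) (nat_lit 1762473) (nat_lit 40172606) (nat_lit 9110849) [(nat_lit 0), (nat_lit 1762473), (nat_lit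 3814848), (nat_lit 8723086)]) (PF.cons (PF.leaf (nat_lit 8028188) (nat_lit 584055) (nat_lit 39659317) (nat_lit 9065545) [(nat_lit 584055), (nat_lit 1768819), (nat_lit 3811940), (nat_lit 8681494)]) (PF.cons PF.nil (PF.cons PF.nil PF.nil)))) (PF.cons (PF.cons (PF.leaf (nat_lit 8447686) (nat_lit 1771457) (nat_lit 38667594) (nat_lit 8967850) [(nat_lit 0), (nat_lit 1771457), (nat_lit 3796551), (nat_lit 8590986)]) (PF.cons PF.nil PF.nil)) (PF.cons PF.nil PF.nil)))))) (PF.cons (PF.cons (PF.cons (PF.leaf (nat_lit 6701510) (nat_lit 3798309) (nat_lit 41501217) (nat_lit 9204204) [(nat_lit 0), (nat_lit 0), (nat_lit 3798309), (nat_lit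
 8806771)]) (PF.cons (PF.leaf (nat_lit 7015112) (nat_lit 555174) (nat_lit 41012732) (nat_lit 9166834) [(nat_lit 555174), (nat_lit 0), (nat_lit 3800591), (nat_lit 8772888)]) (PF.cons (PF.leaf (nat_lit 7338935) (nat_lit 564799) (nat_lit 40513732) (nat_lit 9126660) [(nat_lit 564799), (nat_lit 0), (nat_lit 3801261), (nat_lit 8736297)]) (PF.cons (PF.leaf (nat_lit 7670562) (nat_lit 573148) (nat_lit 40007675) (nat_lit 9083889) [(nat_lit 573148), (nat_lit 0), (nat_lit 3800309), (nat_lit 8697183)]) (PF.cons (PF.leaf (nat_lit 8008333) (nat_lit 580409) (nat_lit 39497237) (nat_lit 9038707) [(nat_lit 580409), (nat_lit 0), (nat_lit 3797756), (nat_lit 8655717)]) (PF.cons PF.nil (PF.cons PF.nil PF.nil))))))) (PF.cons (PF.cons (PF.leaf (nat_lit 7435473) (nat_lit 1744348) (nat_lit 40006019) (nat_lit 9078928) [(nat_lit 0), (nat_lit 1744348), (nat_lit 3793683), (nat_lit 8692148)]) (PF.cons (PF.leaf (nat_lit 7759417) (nat_lit 571985) (nat_lit 39514080) (nat_lit 9035538) [(nat_lit 571985),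 (nat_lit 1751693), (nat_lit 3791585), (nat_lit 8652344)]) (PF.cons (PF.leaf (nat_lit 8090523) (nat_lit 579201) (nat_lit 39016668) (nat_lit 8989756) [(nat_lit 579201), (nat_lit 1757805), (nat_lit 3787983), (nat_lit
 8610213)]) (PF.cons PF.nil (PF.cons PF.nil PF.nil))))) (PF.cons (PF.cons (PF.leaf (nat_lit 8173663) (nat_lit 1755591) (nat_lit 38539685) (nat_lit 8939632) [(nat_lit 0), (nat_lit 1755591), (nat_lit 3777383), (nat_lit 8563544)]) (PF.cons (PF.leaf (nat_lit 8503292) (nat_lit 583854) (nat_lit 38052157) (nat_lit 8891283) [(nat_lit 583854), (nat_lit 1759901), (nat_lit 3771442), (nat_lit 8518829)]) (PF.cons PF.nil (PF.cons PF.nil PF.nil)))) (PF.cons (PF.cons (PF.leaf (nat_lit 8908722) (nat_lit 1759372) (nat_lit 37115069) (nat_lit 8789285) [(nat_lit 0), (nat_lit 1759372), (nat_lit 3751255), (nat_lit 8423830)]) (PF.cons PF.nil PF.nil)) (PF.cons PF.nil PF.nil))))) (PF.cons (PF.cons (PF.cons (PF.leaf (nat_lit 7913119) (nat_lit 3757405) (nat_lit 38392811) (nat_lit 8909484)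 [(nat_lit 0), (nat_lit 0), (nat_lit 3757405), (nat_lit 8534300)]) (PF.cons (PF.leaf (nat_lit 8231773) (nat_lit 572351) (nat_lit 37924824) (nat_lit 8863148) [(nat_lit 572351), (nat_lit 0), (nat_lit 3752337), (nat_lit 8491476)]) (PF.cons (PF.leaf (nat_lit 8556963) (nat_lit 578729) (nat_lit 37452300) (nat_lit 8814688) [(nat_lit 578729), (nat_lit 0), (nat_lit 3745926), (nat_lit 8446585)]) (PF.cons PF.nil PF.nil)))) (PF.cons
 (PF.cons (PF.leaf (nat_lit 8632919) (nat_lit 1744508) (nat_lit 37003122) (nat_lit 8762977) [(nat_lit 0), (nat_lit 1744508), (nat_lit 3733326), (nat_lit 8398225)]) (PF.cons (PF.leaf (nat_lit 8956200) (nat_lit 582144) (nat_lit 36540789) (nat_lit 8712532) [(nat_lit 582144), (nat_lit 1747126), (nat_lit 3724966), (nat_lit 8351321)]) PF.nil)) (PF.cons PF.nil PF.nil))) (PF.cons (PF.cons (PF.cons (PF.leaf (nat_lit 9071504) (nat_lit 3684345) (nat_lit 35558239) (nat_lit 8583490) [(nat_lit 0), (nat_lit 0), (nat_lit 3684345), (nat_lit 8229703)]) (PF.cons PF.nil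 PF.nil)) (PF.cons PF.nil PF.nil)) (PF.cons PF.nil PF.nil)))))) (PF.cons (PF.cons (PF.cons (PF.cons (PF.leaf (nat_lit 6213340) (nat_lit 8657866) (nat_lit 40742418) (nat_lit 9050660) [(nat_lit 0), (nat_lit 0), (nat_lit 0), (nat_lit 8657866)]) (PF.cons (PF.leaf (nat_lit 6499721) (nat_lit 518325) (nat_lit 40312866) (nat_lit 9018941) [(nat_lit 518325), (nat_lit 0), (nat_lit 0), (nat_lit 8629339)]) (PF.cons (PF.leaf (nat_lit 6800250) (nat_lit 531040) (nat_lit 39866507) (nat_lit 8984259) [(nat_lit 531040), (nat_lit 0), (nat_lit 0), (nat_lit 8597982)]) (PF.cons (PF.leaf (nat_lit 7111664) (nat_lit 541982) (nat_lit 39408025) (nat_lit 8946847)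
 [(nat_lit 541982), (nat_lit 0), (nat_lit 0), (nat_lit 8563995)]) (PF.cons (PF.leaf (nat_lit 7431744) (nat_lit 551468) (nat_lit 38940925) (nat_lit 8906904) [(nat_lit 551468), (nat_lit 0), (nat_lit 0), (nat_lit 8527554)]) (PF.cons (PF.leaf (nat_lit 7758751) (nat_lit 559723) (nat_lit 38467937) (nat_lit 8864611) [(nat_lit 559723), (nat_lit 0), (nat_lit 0), (nat_lit 8488822)]) (PF.cons (PF.leaf (nat_lit 8091265) (nat_lit 566920) (nat_lit 37991247) (nat_lit 8820136) [(nat_lit 566920), (nat_lit 0), (nat_lit 0), (nat_lit 8447953)]) (PF.cons PF.nil (PF.cons PF.nil PF.nil))))))))) (PF.cons (PF.cons (PF.leaf (nat_lit 6905915) (nat_lit 1682995) (nat_lit 39373974) (nat_lit 8939086) [(nat_lit 0), (nat_lit 1682995), (nat_lit 0), (nat_lit 8556377)]) (PF.cons (PF.leaf (nat_lit 7208714) (nat_lit 541182) (nat_lit 38929532) (nat_lit 8901120) [(nat_lit 541182), (nat_lit 1693473), (nat_lit 0), (nat_lit 8521752)]) (PF.cons (PF.leaf (nat_lit 7521535) (nat_lit 550645) (nat_lit 38475070) (nat_lit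 8860598) [(nat_lit 550645), (nat_lit 1702533), (nat_lit 0), (nat_lit 8484659)]) (PF.cons (PF.leaf (nat_lit 7842030) (nat_lit 558830) (nat_lit 38013762) (nat_lit 8817737) [(nat_lit 558830), (nat_lit 1710232),
 (nat_lit 0), (nat_lit 8445295)]) (PF.cons (PF.leaf (nat_lit 8168577) (nat_lit 565929) (nat_lit 37548064) (nat_lit 8772728) [(nat_lit 565929), (nat_lit 1716638), (nat_lit 0), (nat_lit 8403832)]) (PF.cons PF.nil (PF.cons PF.nil PF.nil))))))) (PF.cons (PF.cons (PF.leaf (nat_lit 7612977) (nat_lit 1701904) (nat_lit 38011154) (nat_lit 8812958) [(nat_lit 0), (nat_lit 1701904), (nat_lit 0), (nat_lit 8440445)]) (PF.cons (PF.leaf (nat_lit 7926043) (nat_lit 557561) (nat_lit 37562535) (nat_lit 8769739) [(nat_lit 557561), (nat_lit 1708838), (nat_lit 0), (nat_lit 8400649)]) (PF.cons (PF.leaf (nat_lit 8246173) (nat_lit 564624) (nat_lit 37108538) (nat_lit 8724372) [(nat_lit 564624), (nat_lit 1714563), (nat_lit 0), (nat_lit 8358762)]) (PF.cons (PF.leaf (nat_lit 8571603) (nat_lit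 570717) (nat_lit 36651388) (nat_lit 8677054) [(nat_lit 570717), (nat_lit 1719141), (nat_lit 0), (nat_lit 8314967)]) (PF.cons PF.nil PF.nil))))) (PF.cons (PF.cons (PF.leaf (nat_lit 8324872) (nat_lit 1712057) (nat_lit 36672109) (nat_lit 8675058) [(nat_lit 0), (nat_lit 1712057), (nat_lit 0), (nat_lit 8312736)]) (PF.cons (PF.leaf (nat_lit 8643741) (nat_lit 569067) (nat_lit 36226577) (nat_lit 8627566) [(nat_lit 569067),
 (nat_lit 1716066), (nat_lit 0), (nat_lit 8268701)]) (PF.cons PF.nil (PF.cons PF.nil PF.nil)))) (PF.cons (PF.cons (PF.leaf (nat_lit 9034619) (nat_lit 1715127) (nat_lit 35368740) (nat_lit 8528001) [(nat_lit 0), (nat_lit 1715127), (nat_lit 0), (nat_lit 8175780)]) (PF.cons PF.nil PF.nil)) (PF.cons PF.nil PF.nil)))))) (PF.cons (PF.cons (PF.cons (PF.leaf (nat_lit 7377363) (nat_lit 3677275) (nat_lit 37834993) (nat_lit 8779801) [(nat_lit 0), (nat_lit 0), (nat_lit 3677275), (nat_lit 8408371)]) (PF.cons (PF.leaf (nat_lit 7676725) (nat_lit 543613) (nat_lit 37409659)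 (nat_lit 8738849) [(nat_lit 543613), (nat_lit 0), (nat_lit 3675300), (nat_lit 8370694)]) (PF.cons (PF.leaf (nat_lit 7985358) (nat_lit 552125) (nat_lit 36975570) (nat_lit 8695551) [(nat_lit 552125), (nat_lit 0), (nat_lit 3671937), (nat_lit 8330751)]) (PF.cons (PF.leaf (nat_lit 8300961) (nat_lit 559412) (nat_lit 36535689) (nat_lit 8650148) [(nat_lit 559412), (nat_lit 0), (nat_lit 3667211), (nat_lit 8288763)]) (PF.cons (PF.leaf (nat_lit 8621986) (nat_lit 565667) (nat_lit 36092287) (nat_lit 8602847) [(nat_lit 565667), (nat_lit 0), (nat_lit 3661167), (nat_lit 8244919)]) PF.nil))))) (PF.cons (PF.cons (PF.leaf (nat_lit 8069880) (nat_lit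
 1695093) (nat_lit 36537088) (nat_lit 8646105) [(nat_lit 0), (nat_lit 1695093), (nat_lit 3661270), (nat_lit 8284627)]) (PF.cons (PF.leaf (nat_lit 8378156) (nat_lit 557620) (nat_lit 36109605) (nat_lit 8600645) [(nat_lit 557620), (nat_lit 1700143), (nat_lit 3655784), (nat_lit 8242507)]) (PF.cons (PF.leaf (nat_lit 8692885) (nat_lit 563890) (nat_lit 35677595) (nat_lit 8553263) [(nat_lit 563890), (nat_lit 1704095), (nat_lit 3649046), (nat_lit 8198515)]) (PF.cons PF.nil PF.nil)))) (PF.cons (PF.cons (PF.leaf (nat_lit 8765064) (nat_lit 1700452) (nat_lit 35265940) (nat_lit 8502920) [(nat_lit 0), (nat_lit 1700452), (nat_lit 3636343), (nat_lit 8151351)]) (PF.cons (PF.leaf (nat_lit 9078129) (nat_lit 567192) (nat_lit 34842681) (nat_lit 8453892) [(nat_lit 567192), (nat_lit 1702919), (nat_lit 3627842), (nat_lit 8105681)]) PF.nil)) (PF.cons PF.nil (PF.cons PF.nil PF.nil))))) (PF.cons (PF.cons (PF.cons (PF.leaf (nat_lit 8508048) (nat_lit 3618037) (nat_lit 35146714) (nat_lit 8475874)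 [(nat_lit 0), (nat_lit 0), (nat_lit 3618037), (nat_lit 8125074)]) (PF.cons (PF.leaf (nat_lit 8811234) (nat_lit 556320) (nat_lit 34739984) (nat_lit 8428887) [(nat_lit 556320), (nat_lit 0), (nat_lit 3610474), (nat_lit
 8081335)]) (PF.cons (PF.leaf (nat_lit 9120393) (nat_lit 561901) (nat_lit 34329411) (nat_lit 8380180) [(nat_lit 561901), (nat_lit 0), (nat_lit 3601788), (nat_lit 8035920)]) (PF.cons PF.nil PF.nil)))) (PF.cons (PF.cons (PF.leaf (nat_lit 9186567) (nat_lit 1685993) (nat_lit 33941340) (nat_lit 8329399) [(nat_lit 0), (nat_lit 1685993), (nat_lit 3587834), (nat_lit 7988204)]) (PF.cons PF.nil PF.nil)) (PF.cons PF.nil PF.nil))) (PF.cons (PF.cons (PF.cons (PF.leaf (nat_lit 9590515) (nat_lit 3536420) (nat_lit 32693761) (nat_lit 8156068) [(nat_lit 0), (nat_lit 0), (nat_lit 3536420), (nat_lit 7824860)]) (PF.cons PF.nil PF.nil)) (PF.cons PF.nil PF.nil)) (PF.cons PF.nil PF.nil))))) (PF.cons (PF.cons (PF.cons (PF.cons (PF.leaf (nat_lit 7981119) (nat_lit 8015540) (nat_lit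 34699011) (nat_lit 8363180) [(nat_lit 0), (nat_lit 0), (nat_lit 0), (nat_lit 8015540)]) (PF.cons (PF.leaf (nat_lit 8267283) (nat_lit 529885) (nat_lit 34327436) (nat_lit 8321330) [(nat_lit 529885), (nat_lit 0), (nat_lit 0), (nat_lit 7976720)]) (PF.cons (PF.leaf (nat_lit 8561989) (nat_lit 537527) (nat_lit 33948393) (nat_lit 8277474) [(nat_lit 537527), (nat_lit 0), (nat_lit 0), (nat_lit 7935963)]) (PF.cons (PF.leaf (nat_lit 8863027)
 (nat_lit 543998) (nat_lit 33564432) (nat_lit 8231867) [(nat_lit 543998), (nat_lit 0), (nat_lit 0), (nat_lit 7893505)]) (PF.cons PF.nil PF.nil))))) (PF.cons (PF.cons (PF.leaf (nat_lit 8636924) (nat_lit 1641816) (nat_lit 33567931) (nat_lit 8228616) [(nat_lit 0), (nat_lit 1641816), (nat_lit 0), (nat_lit 7890149)]) (PF.cons (PF.leaf (nat_lit 8930980) (nat_lit 541819) (nat_lit 33194770) (nat_lit 8183278) [(nat_lit 541819), (nat_lit 1645287), (nat_lit 0), (nat_lit 7847885)]) (PF.cons (PF.leaf (nat_lit 9230968) (nat_lit 547372) (nat_lit 32817723)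 (nat_lit 8136350) [(nat_lit 547372), (nat_lit 1647771), (nat_lit 0), (nat_lit 7804074)]) (PF.cons PF.nil PF.nil)))) (PF.cons (PF.cons (PF.leaf (nat_lit 9294493) (nat_lit 1643300) (nat_lit 32460442) (nat_lit 8087474) [(nat_lit 0), (nat_lit 1643300), (nat_lit 0), (nat_lit 7758098)]) (PF.cons PF.nil PF.nil)) PF.nil))) (PF.cons (PF.cons (PF.cons (PF.leaf (nat_lit 9042418) (nat_lit 3478299) (nat_lit 32362895) (nat_lit 8063448) [(nat_lit 0), (nat_lit 0), (nat_lit 3478299), (nat_lit 7734722)]) (PF.cons (PF.leaf (nat_lit 9331664) (nat_lit 539492) (nat_lit 32007487) (nat_lit 8017433) [(nat_lit 539492), (nat_lit 0), (nat_lit 3469343), (nat_lit 7691685)])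
 (PF.cons PF.nil PF.nil))) (PF.cons (PF.cons (PF.leaf (nat_lit 9684893) (nat_lit 1627071) (nat_lit 31311329) (nat_lit 7921314) [(nat_lit 0), (nat_lit 1627071), (nat_lit 3444988), (nat_lit 7601369)]) PF.nil) PF.nil)) (PF.cons PF.nil PF.nil))) (PF.cons (PF.cons (PF.cons (PF.cons (PF.leaf (nat_lit 9528550) (nat_lit 7368359) (nat_lit 29958190) (nat_lit 7677183) [(nat_lit 0), (nat_lit 0), (nat_lit 0), (nat_lit 7368359)]) (PF.cons (PF.leaf (nat_lit 9805195) (nat_lit 522594) (nat_lit 29645763) (nat_lit 7632972) [(nat_lit 522594), (nat_lit 0), (nat_lit 0), (nat_lit 7326870)]) PF.nil)) (PF.cons PF.nil PF.nil)) (PF.cons PF.nil PF.nil)) (PF.cons PF.nil (PF.cons PF.nil (PF.cons PF.nil (PF.cons PF.nil PF.nil)))))))))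

def p14_15_1_0 : pfC (piC [(nat_lit 36888796), (nat_lit 24534081), (nat_lit 18263511), (nat_lit 12310016)] (nat_lit 10758730)) p14_15_1 (nat_lit 4) (nat_lit 0) (nat_lit 1) = true := by decide +kernel
def p14_15_1_1 : pfC (piC [(nat_lit 36888796), (nat_lit 24534081), (nat_lit 18263511), (nat_lit 12310016)] (nat_lit 10758730)) p14_15_1 (nat_lit 4) (nat_lit 1) (nat_lit 2) = true := by decide +kernel
def p14_15_1_2 : pfC (piC [(nat_lit 36888796), (nat_lit 24534081), (nat_lit 18263511), (nat_lit 12310016)] (nat_lit 10758730)) p14_15_1 (nat_lit 4) (nat_lit 2) (nat_lit 3) = true := by decide +kernel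
def p14_15_1_3 : pfC (piC [(nat_lit 36888796), (nat_lit 24534081), (nat_lit 18263511), (nat_lit 12310016)] (nat_lit 10758730)) p14_15_1 (nat_lit 4) (nat_lit 3) (nat_lit 4) = true := by decide +kernel
def p14_15_1_4 : pfC (piC [(nat_lit 36888796), (nat_lit 24534081), (nat_lit 18263511), (nat_lit 12310016)] (nat_lit 10758730)) p14_15_1 (nat_lit 4) (nat_lit 4) (nat_lit 5) = true := by decide +kernel
def p14_15_1_5 : pfC (piC [(nat_lit 36888796), (nat_lit 24534081), (nat_lit 18263511), (nat_lit 12310016)] (nat_lit 10758730)) p14_15_1 (nat_lit 4) (nat_lit 5) (nat_lit 6) = true := by decide +kernel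
def p14_15_1_6 : pfC (piC [(nat_lit 36888796), (nat_lit 24534081), (nat_lit 18263511), (nat_lit 12310016)] (nat_lit 10758730)) p14_15_1 (nat_lit 4) (nat_lit 6) (nat_lit 7) = true := by decide +kernel
def p14_15_1_7 : pfC (piC [(nat_lit 36888796), (nat_lit 24534081), (nat_lit 18263511), (nat_lit 12310016)] (nat_lit 10758730)) p14_15_1 (nat_lit 4) (nat_lit 7) (nat_lit 8) = true := by decide +kernel
def p14_15_1_8 : pfC (piC [(nat_lit 36888796), (nat_lit 24534081), (nat_lit 18263511), (nat_lit 12310016)] (nat_lit 10758730)) p14_15_1 (nat_lit 4) (nat_lit 8) (nat_lit 9) = true := by decide +kernel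
def p14_15_1_9 : pfC (piC [(nat_lit 36888796), (nat_lit 24534081), (nat_lit 18263511), (nat_lit 12310016)] (nat_lit 10758730)) p14_15_1 (nat_lit 4) (nat_lit 9) (nat_lit 10) = true := by decide +kernel
def p14_15_1_10 : pfC (piC [(nat_lit 36888796), (nat_lit 24534081), (nat_lit 18263511), (nat_lit 12310016)] (nat_lit 10758730)) p14_15_1 (nat_lit 4) (nat_lit 10) (nat_lit 11) = true := by decide +kernel
def p14_15_1_11 : pfC (piC [(nat_lit 36888796), (nat_lit 24534081), (nat_lit 18263511), (nat_lit 12310016)] (nat_lit 10758730)) p14_15_1 (nat_lit 4) (nat_lit 11) (nat_lit 12) = true := by decide +kernel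
def p14_15_1_12 : pfC (piC [(nat_lit 36888796), (nat_lit 24534081), (nat_lit 18263511), (nat_lit 12310016)] (nat_lit 10758730)) p14_15_1 (nat_lit 4) (nat_lit 12) (nat_lit 13) = true := by decide +kernel
def p14_15_1_13 : pfC (piC [(nat_lit 36888796), (nat_lit 24534081), (nat_lit 18263511), (nat_lit 12310016)] (nat_lit 10758730)) p14_15_1 (nat_lit 4) (nat_lit 13) (nat_lit 14) = true := by decide +kernel
def p14_15_1_14 : pfC (piC [(nat_lit 36888796), (nat_lit 24534081), (nat_lit 18263511), (nat_lit 12310016)] (nat_lit 10758730)) p14_15_1 (nat_lit 4) (nat_lit 14) (nat_lit 15) = true := by decide +kernel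
def p14_15_1_15 : pfC (piC [(nat_lit 36888796), (nat_lit 24534081), (nat_lit 18263511), (nat_lit 12310016)] (nat_lit 10758730)) p14_15_1 (nat_lit 4) (nat_lit 15) (nat_lit 16) = true := by decide +kernel
def p14_15_1_16 : pfC (piC [(nat_lit 36888796), (nat_lit 24534081), (nat_lit 18263511), (nat_lit 12310016)] (nat_lit 10758730)) p14_15_1 (nat_lit 4) (nat_lit 16) (nat_lit 17) = true := by decide +kernel
def p14_15_1_17 : pfC (piC [(nat_lit 36888796), (nat_lit 24534081), (nat_lit 18263511), (nat_lit 12310016)] (nat_lit 10758730)) p14_15_1 (nat_lit 4) (nat_lit 17) (nat_lit 18) = true := by decide +kernel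
def p14_15_1_18 : pfC (piC [(nat_lit 36888796), (nat_lit 24534081), (nat_lit 18263511), (nat_lit 12310016)] (nat_lit 10758730)) p14_15_1 (nat_lit 4) (nat_lit 18) (nat_lit 19) = true := by decide +kernel
def p14_15_1_19 : pfC (piC [(nat_lit 36888796), (nat_lit 24534081), (nat_lit 18263511), (nat_lit 12310016)] (nat_lit 10758730)) p14_15_1 (nat_lit 4) (nat_lit 19) (nat_lit 20) = true := by decide +kernel
def p14_15_1_20 : pfC (piC [(nat_lit 36888796), (nat_lit 24534081), (nat_lit 18263511), (nat_lit 12310016)] (nat_lit 10758730)) p14_15_1 (nat_lit 4) (nat_lit 20) (nat_lit 21) = true := by decide +kernel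
def p14_15_1_21 : pfC (piC [(nat_lit 36888796), (nat_lit 24534081), (nat_lit 18263511), (nat_lit 12310016)] (nat_lit 10758730)) p14_15_1 (nat_lit 4) (nat_lit 21) (nat_lit 22) = true := by decide +kernel
def p14_15_1_22 : pfC (piC [(nat_lit 36888796), (nat_lit 24534081), (nat_lit 18263511), (nat_lit 12310016)] (nat_lit 10758730)) p14_15_1 (nat_lit 4) (nat_lit 22) (nat_lit 23) = true := by decide +kernel
def p14_15_1_23 : pfC (piC [(nat_lit 36888796), (nat_lit 24534081), (nat_lit 18263511), (nat_lit 12310016)] (nat_lit 10758730)) p14_15_1 (nat_lit 4) (nat_lit 23) (nat_lit 24) = true := by decide +kernel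
def p14_15_1_24 : pfC (piC [(nat_lit 36888796), (nat_lit 24534081), (nat_lit 18263511), (nat_lit 12310016)] (nat_lit 10758730)) p14_15_1 (nat_lit 4) (nat_lit 24) (nat_lit 25) = true := by decide +kernel
def p14_15_1_25 : pfC (piC [(nat_lit 36888796), (nat_lit 24534081), (nat_lit 18263511), (nat_lit 12310016)] (nat_lit 10758730)) p14_15_1 (nat_lit 4) (nat_lit 25) (nat_lit 26) = true := by decide +kernel
def p14_15_1_26 : pfC (piC [(nat_lit 36888796), (nat_lit 24534081), (nat_lit 18263511), (nat_lit 12310016)] (nat_lit 10758730)) p14_15_1 (nat_lit 4) (nat_lit 26) (nat_lit 27) = true := by decide +kernel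
def p14_15_1_27 : pfC (piC [(nat_lit 36888796), (nat_lit 24534081), (nat_lit 18263511), (nat_lit 12310016)] (nat_lit 10758730)) p14_15_1 (nat_lit 4) (nat_lit 27) (nat_lit 28) = true := by decide +kernel
def p14_15_1_28 : pfC (piC [(nat_lit 36888796), (nat_lit 24534081), (nat_lit 18263511), (nat_lit 12310016)] (nat_lit 10758730)) p14_15_1 (nat_lit 4) (nat_lit 28) (nat_lit 29) = true := by decide +kernel
def p14_15_1_29 : pfC (piC [(nat_lit 36888796), (nat_lit 24534081), (nat_lit 18263511), (nat_lit 12310016)] (nat_lit 10758730)) p14_15_1 (nat_lit 4) (nat_lit 29) (nat_lit 30) = true := by decide +kernel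
def p14_15_1_30 : pfC (piC [(nat_lit 36888796), (nat_lit 24534081), (nat_lit 18263511), (nat_lit 12310016)] (nat_lit 10758730)) p14_15_1 (nat_lit 4) (nat_lit 30) (nat_lit 31) = true := by decide +kernel
def p14_15_1_31 : pfC (piC [(nat_lit 36888796), (nat_lit 24534081), (nat_lit 18263511), (nat_lit 12310016)] (nat_lit 10758730)) p14_15_1 (nat_lit 4) (nat_lit 31) (nat_lit 32) = true := by decide +kernel
def p14_15_1_32 : pfC (piC [(nat_lit 36888796), (nat_lit 24534081), (nat_lit 18263511), (nat_lit 12310016)] (nat_lit 10758730)) p14_15_1 (nat_lit 4) (nat_lit 32) (nat_lit 33) = true := by decide +kernel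
def p14_15_1_33 : pfC (piC [(nat_lit 36888796), (nat_lit 24534081), (nat_lit 18263511), (nat_lit 12310016)] (nat_lit 10758730)) p14_15_1 (nat_lit 4) (nat_lit 33) (nat_lit 34) = true := by decide +kernel
def p14_15_1_34 : pfC (piC [(nat_lit 36888796), (nat_lit 24534081), (nat_lit 18263511), (nat_lit 12310016)] (nat_lit 10758730)) p14_15_1 (nat_lit 4) (nat_lit 34) (nat_lit 35) = true := by decide +kernel
def p14_15_1_35 : pfC (piC [(nat_lit 36888796), (nat_lit 24534081), (nat_lit 18263511), (nat_lit 12310016)] (nat_lit 10758730)) p14_15_1 (nat_lit 4) (nat_lit 35) (nat_lit 36) = true := by decide +kernel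
def p14_15_1_36 : pfC (piC [(nat_lit 36888796), (nat_lit 24534081), (nat_lit 18263511), (nat_lit 12310016)] (nat_lit 10758730)) p14_15_1 (nat_lit 4) (nat_lit 36) (nat_lit 37) = true := by decide +kernel
def p14_15_1_37 : pfC (piC [(nat_lit 36888796), (nat_lit 24534081), (nat_lit 18263511), (nat_lit 12310016)] (nat_lit 10758730)) p14_15_1 (nat_lit 4) (nat_lit 37) (nat_lit 38) = true := by decide +kernel
def p14_15_1_38 : pfC (piC [(nat_lit 36888796), (nat_lit 24534081), (nat_lit 18263511), (nat_lit 12310016)] (nat_lit 10758730)) p14_15_1 (nat_lit 4) (nat_lit 38) (nat_lit 39) = true := by decide +kernel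
def p14_15_1_39 : pfC (piC [(nat_lit 36888796), (nat_lit 24534081), (nat_lit 18263511), (nat_lit 12310016)] (nat_lit 10758730)) p14_15_1 (nat_lit 4) (nat_lit 39) (nat_lit 40) = true := by decide +kernel
def p14_15_1_40 : pfC (piC [(nat_lit 36888796), (nat_lit 24534081), (nat_lit 18263511), (nat_lit 12310016)] (nat_lit 10758730)) p14_15_1 (nat_lit 4) (nat_lit 40) (nat_lit 41) = true := by decide +kernel
def p14_15_1_41 : pfC (piC [(nat_lit 36888796), (nat_lit 24534081), (nat_lit 18263511), (nat_lit 12310016)] (nat_lit 10758730)) p14_15_1 (nat_lit 4) (nat_lit 41) (nat_lit 42) = true := by decide +kernel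
def p14_15_1_42 : pfC (piC [(nat_lit 36888796), (nat_lit 24534081), (nat_lit 18263511), (nat_lit 12310016)] (nat_lit 10758730)) p14_15_1 (nat_lit 4) (nat_lit 42) (nat_lit 43) = true := by decide +kernel
def p14_15_1_43 : pfC (piC [(nat_lit 36888796), (nat_lit 24534081), (nat_lit 18263511), (nat_lit 12310016)] (nat_lit 10758730)) p14_15_1 (nat_lit 4) (nat_lit 43) (nat_lit 44) = true := by decide +kernel
def p14_15_1_44 : pfC (piC [(nat_lit 36888796), (nat_lit 24534081), (nat_lit 18263511), (nat_lit 12310016)] (nat_lit 10758730)) p14_15_1 (nat_lit 4) (nat_lit 44) (nat_lit 45) = true := by decide +kernel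
def p14_15_1_45 : pfC (piC [(nat_lit 36888796), (nat_lit 24534081), (nat_lit 18263511), (nat_lit 12310016)] (nat_lit 10758730)) p14_15_1 (nat_lit 4) (nat_lit 45) (nat_lit 46) = true := by decide +kernel
def p14_15_1_46 : pfC (piC [(nat_lit 36888796), (nat_lit 24534081), (nat_lit 18263511), (nat_lit 12310016)] (nat_lit 10758730)) p14_15_1 (nat_lit 4) (nat_lit 46) (nat_lit 47) = true := by decide +kernel
def p14_15_1_47 : pfC (piC [(nat_lit 36888796), (nat_lit 24534081), (nat_lit 18263511), (nat_lit 12310016)] (nat_lit 10758730)) p14_15_1 (nat_lit 4) (nat_lit 47) (nat_lit 48) = true := by decide +kernel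
def p14_15_1_48 : pfC (piC [(nat_lit 36888796), (nat_lit 24534081), (nat_lit 18263511), (nat_lit 12310016)] (nat_lit 10758730)) p14_15_1 (nat_lit 4) (nat_lit 48) (nat_lit 49) = true := by decide +kernel
def p14_15_1_49 : pfC (piC [(nat_lit 36888796), (nat_lit 24534081), (nat_lit 18263511), (nat_lit 12310016)] (nat_lit 10758730)) p14_15_1 (nat_lit 4) (nat_lit 49) (nat_lit 50) = true := by decide +kernel
def p14_15_1_50 : pfC (piC [(nat_lit 36888796), (nat_lit 24534081), (nat_lit 18263511), (nat_lit 12310016)] (nat_lit 10758730)) p14_15_1 (nat_lit 4) (nat_lit 50) (nat_lit 51) = true := by decide +kernel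
def p14_15_1_51 : pfC (piC [(nat_lit 36888796), (nat_lit 24534081), (nat_lit 18263511), (nat_lit 12310016)] (nat_lit 10758730)) p14_15_1 (nat_lit 4) (nat_lit 51) (nat_lit 52) = true := by decide +kernel
def p14_15_1_52 : pfC (piC [(nat_lit 36888796), (nat_lit 24534081), (nat_lit 18263511), (nat_lit 12310016)] (nat_lit 10758730)) p14_15_1 (nat_lit 4) (nat_lit 52) (nat_lit 53) = true := by decide +kernel
def p14_15_1_53 : pfC (piC [(nat_lit 36888796), (nat_lit 24534081), (nat_lit 18263511), (nat_lit 12310016)] (nat_lit 10758730)) p14_15_1 (nat_lit 4) (nat_lit 53) (nat_lit 54) = true := by decide +kernel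
def p14_15_1_54 : pfC (piC [(nat_lit 36888796), (nat_lit 24534081), (nat_lit 18263511), (nat_lit 12310016)] (nat_lit 10758730)) p14_15_1 (nat_lit 4) (nat_lit 54) (nat_lit 55) = true := by decide +kernel
def p14_15_1_55 : pfC (piC [(nat_lit 36888796), (nat_lit 24534081), (nat_lit 18263511), (nat_lit 12310016)] (nat_lit 10758730)) p14_15_1 (nat_lit 4) (nat_lit 55) (nat_lit 56) = true := by decide +kernel
def p14_15_1_56 : pfC (piC [(nat_lit 36888796), (nat_lit 24534081), (nat_lit 18263511), (nat_lit 12310016)] (nat_lit 10758730)) p14_15_1 (nat_lit 4) (nat_lit 56) (nat_lit 57) = true := by decide +kernel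
def p14_15_1_57 : pfC (piC [(nat_lit 36888796), (nat_lit 24534081), (nat_lit 18263511), (nat_lit 12310016)] (nat_lit 10758730)) p14_15_1 (nat_lit 4) (nat_lit 57) (nat_lit 58) = true := by decide +kernel
def p14_15_1_58 : pfC (piC [(nat_lit 36888796), (nat_lit 24534081), (nat_lit 18263511), (nat_lit 12310016)] (nat_lit 10758730)) p14_15_1 (nat_lit 4) (nat_lit 58) (nat_lit 59) = true := by decide +kernel
def p14_15_1_59 : pfC (piC [(nat_lit 36888796), (nat_lit 24534081), (nat_lit 18263511), (nat_lit 12310016)] (nat_lit 10758730)) p14_15_1 (nat_lit 4) (nat_lit 59) (nat_lit 60) = true := by decide +kernel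
def p14_15_1_60 : pfC (piC [(nat_lit 36888796), (nat_lit 24534081), (nat_lit 18263511), (nat_lit 12310016)] (nat_lit 10758730)) p14_15_1 (nat_lit 4) (nat_lit 60) (nat_lit 61) = true := by decide +kernel
def p14_15_1_61 : pfC (piC [(nat_lit 36888796), (nat_lit 24534081), (nat_lit 18263511), (nat_lit 12310016)] (nat_lit 10758730)) p14_15_1 (nat_lit 4) (nat_lit 61) (nat_lit 62) = true := by decide +kernel
def p14_15_1_62 : pfC (piC [(nat_lit 36888796), (nat_lit 24534081), (nat_lit 18263511), (nat_lit 12310016)] (nat_lit 10758730)) p14_15_1 (nat_lit 4) (nat_lit 62) (nat_lit 63) = true := by decide +kernel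
def p14_15_1_63 : pfC (piC [(nat_lit 36888796), (nat_lit 24534081), (nat_lit 18263511), (nat_lit 12310016)] (nat_lit 10758730)) p14_15_1 (nat_lit 4) (nat_lit 63) (nat_lit 64) = true := by decide +kernel
def p14_15_1_64 : pfC (piC [(nat_lit 36888796), (nat_lit 24534081), (nat_lit 18263511), (nat_lit 12310016)] (nat_lit 10758730)) p14_15_1 (nat_lit 4) (nat_lit 64) (nat_lit 65) = true := by decide +kernel
def p14_15_1_65 : pfC (piC [(nat_lit 36888796), (nat_lit 24534081), (nat_lit 18263511), (nat_lit 12310016)] (nat_lit 10758730)) p14_15_1 (nat_lit 4) (nat_lit 65) (nat_lit 66) = true := by decide +kernel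
def p14_15_1_66 : pfC (piC [(nat_lit 36888796), (nat_lit 24534081), (nat_lit 18263511), (nat_lit 12310016)] (nat_lit 10758730)) p14_15_1 (nat_lit 4) (nat_lit 66) (nat_lit 67) = true := by decide +kernel
def p14_15_1_67 : pfC (piC [(nat_lit 36888796), (nat_lit 24534081), (nat_lit 18263511), (nat_lit 12310016)] (nat_lit 10758730)) p14_15_1 (nat_lit 4) (nat_lit 67) (nat_lit 68) = true := by decide +kernel
def p14_15_1_68 : pfC (piC [(nat_lit 36888796), (nat_lit 24534081), (nat_lit 18263511), (nat_lit 12310016)] (nat_lit 10758730)) p14_15_1 (nat_lit 4) (nat_lit 68) (nat_lit 69) = true := by decide +kernel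
def p14_15_1_69 : pfC (piC [(nat_lit 36888796), (nat_lit 24534081), (nat_lit 18263511), (nat_lit 12310016)] (nat_lit 10758730)) p14_15_1 (nat_lit 4) (nat_lit 69) (nat_lit 70) = true := by decide +kernel
def p14_15_1_70 : pfC (piC [(nat_lit 36888796), (nat_lit 24534081), (nat_lit 18263511), (nat_lit 12310016)] (nat_lit 10758730)) p14_15_1 (nat_lit 4) (nat_lit 70) (nat_lit 71) = true := by decide +kernel
def p14_15_1_71 : pfC (piC [(nat_lit 36888796), (nat_lit 24534081), (nat_lit 18263511), (nat_lit 12310016)] (nat_lit 10758730)) p14_15_1 (nat_lit 4) (nat_lit 71) (nat_lit 72) = true := by decide +kernel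
def p14_15_1_72 : pfC (piC [(nat_lit 36888796), (nat_lit 24534081), (nat_lit 18263511), (nat_lit 12310016)] (nat_lit 10758730)) p14_15_1 (nat_lit 4) (nat_lit 72) (nat_lit 73) = true := by decide +kernel
def p14_15_1_73 : pfC (piC [(nat_lit 36888796), (nat_lit 24534081), (nat_lit 18263511), (nat_lit 12310016)] (nat_lit 10758730)) p14_15_1 (nat_lit 4) (nat_lit 73) (nat_lit 74) = true := by decide +kernel
def p14_15_1_74 : pfC (piC [(nat_lit 36888796), (nat_lit 24534081), (nat_lit 18263511), (nat_lit 12310016)] (nat_lit 10758730)) p14_15_1 (nat_lit 4) (nat_lit 74) (nat_lit 75) = true := by decide +kernel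
def p14_15_1_75 : pfC (piC [(nat_lit 36888796), (nat_lit 24534081), (nat_lit 18263511), (nat_lit 12310016)] (nat_lit 10758730)) p14_15_1 (nat_lit 4) (nat_lit 75) (nat_lit 76) = true := by decide +kernel
def p14_15_1_76 : pfC (piC [(nat_lit 36888796), (nat_lit 24534081), (nat_lit 18263511), (nat_lit 12310016)] (nat_lit 10758730)) p14_15_1 (nat_lit 4) (nat_lit 76) (nat_lit 77) = true := by decide +kernel
def p14_15_1_77 : pfC (piC [(nat_lit 36888796), (nat_lit 24534081), (nat_lit 18263511), (nat_lit 12310016)] (nat_lit 10758730)) p14_15_1 (nat_lit 4) (nat_lit 77) (nat_lit 78) = true := by decide +kernel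
def p14_15_1_78 : pfC (piC [(nat_lit 36888796), (nat_lit 24534081), (nat_lit 18263511), (nat_lit 12310016)] (nat_lit 10758730)) p14_15_1 (nat_lit 4) (nat_lit 78) (nat_lit 79) = true := by decide +kernel
def p14_15_1_79 : pfC (piC [(nat_lit 36888796), (nat_lit 24534081), (nat_lit 18263511), (nat_lit 12310016)] (nat_lit 10758730)) p14_15_1 (nat_lit 4) (nat_lit 79) (nat_lit 80) = true := by decide +kernel
def p14_15_1_80 : pfC (piC [(nat_lit 36888796), (nat_lit 24534081), (nat_lit 18263511), (nat_lit 12310016)] (nat_lit 10758730)) p14_15_1 (nat_lit 4) (nat_lit 80) (nat_lit 81) = true := by decide +kernel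
def p14_15_1_81 : pfC (piC [(nat_lit 36888796), (nat_lit 24534081), (nat_lit 18263511), (nat_lit 12310016)] (nat_lit 10758730)) p14_15_1 (nat_lit 4) (nat_lit 81) (nat_lit 82) = true := by decide +kernel
def p14_15_1_82 : pfC (piC [(nat_lit 36888796), (nat_lit 24534081), (nat_lit 18263511), (nat_lit 12310016)] (nat_lit 10758730)) p14_15_1 (nat_lit 4) (nat_lit 82) (nat_lit 83) = true := by decide +kernel
def p14_15_1_83 : pfC (piC [(nat_lit 36888796), (nat_lit 24534081), (nat_lit 18263511), (nat_lit 12310016)] (nat_lit 10758730)) p14_15_1 (nat_lit 4) (nat_lit 83) (nat_lit 84) = true := by decide +kernel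
def p14_15_1_84 : pfC (piC [(nat_lit 36888796), (nat_lit 24534081), (nat_lit 18263511), (nat_lit 12310016)] (nat_lit 10758730)) p14_15_1 (nat_lit 4) (nat_lit 84) (nat_lit 85) = true := by decide +kernel
def p14_15_1_85 : pfC (piC [(nat_lit 36888796), (nat_lit 24534081), (nat_lit 18263511), (nat_lit 12310016)] (nat_lit 10758730)) p14_15_1 (nat_lit 4) (nat_lit 85) (nat_lit 86) = true := by decide +kernel
def p14_15_1_86 : pfC (piC [(nat_lit 36888796), (nat_lit 24534081), (nat_lit 18263511), (nat_lit 12310016)] (nat_lit 10758730)) p14_15_1 (nat_lit 4) (nat_lit 86) (nat_lit 87) = true := by decide +kernel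
def p14_15_1_87 : pfC (piC [(nat_lit 36888796), (nat_lit 24534081), (nat_lit 18263511), (nat_lit 12310016)] (nat_lit 10758730)) p14_15_1 (nat_lit 4) (nat_lit 87) (nat_lit 88) = true := by decide +kernel
def p14_15_1_88 : pfC (piC [(nat_lit 36888796), (nat_lit 24534081), (nat_lit 18263511), (nat_lit 12310016)] (nat_lit 10758730)) p14_15_1 (nat_lit 4) (nat_lit 88) (nat_lit 89) = true := by decide +kernel
def p14_15_1_89 : pfC (piC [(nat_lit 36888796), (nat_lit 24534081), (nat_lit 18263511), (nat_lit 12310016)] (nat_lit 10758730)) p14_15_1 (nat_lit 4) (nat_lit 89) (nat_lit 90) = true := by decide +kernel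
def p14_15_1_90 : pfC (piC [(nat_lit 36888796), (nat_lit 24534081), (nat_lit 18263511), (nat_lit 12310016)] (nat_lit 10758730)) p14_15_1 (nat_lit 4) (nat_lit 90) (nat_lit 91) = true := by decide +kernel
def p14_15_1_91 : pfC (piC [(nat_lit 36888796), (nat_lit 24534081), (nat_lit 18263511), (nat_lit 12310016)] (nat_lit 10758730)) p14_15_1 (nat_lit 4) (nat_lit 91) (nat_lit 92) = true := by decide +kernel
def p14_15_1_92 : pfC (piC [(nat_lit 36888796), (nat_lit 24534081), (nat_lit 18263511), (nat_lit 12310016)] (nat_lit 10758730)) p14_15_1 (nat_lit 4) (nat_lit 92) (nat_lit 93) = true := by decide +kernel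
def p14_15_1_93 : pfC (piC [(nat_lit 36888796), (nat_lit 24534081), (nat_lit 18263511), (nat_lit 12310016)] (nat_lit 10758730)) p14_15_1 (nat_lit 4) (nat_lit 93) (nat_lit 94) = true := by decide +kernel
def p14_15_1_94 : pfC (piC [(nat_lit 36888796), (nat_lit 24534081), (nat_lit 18263511), (nat_lit 12310016)] (nat_lit 10758730)) p14_15_1 (nat_lit 4) (nat_lit 94) (nat_lit 95) = true := by decide +kernel
def p14_15_1_95 : pfC (piC [(nat_lit 36888796), (nat_lit 24534081), (nat_lit 18263511), (nat_lit 12310016)] (nat_lit 10758730)) p14_15_1 (nat_lit 4) (nat_lit 95) (nat_lit 96) = true := by decide +kernel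
def p14_15_1_96 : pfC (piC [(nat_lit 36888796), (nat_lit 24534081), (nat_lit 18263511), (nat_lit 12310016)] (nat_lit 10758730)) p14_15_1 (nat_lit 4) (nat_lit 96) (nat_lit 97) = true := by decide +kernel
def p14_15_1_97 : pfC (piC [(nat_lit 36888796), (nat_lit 24534081), (nat_lit 18263511), (nat_lit 12310016)] (nat_lit 10758730)) p14_15_1 (nat_lit 4) (nat_lit 97) (nat_lit 98) = true := by decide +kernel
def p14_15_1_98 : pfC (piC [(nat_lit 36888796), (nat_lit 24534081), (nat_lit 18263511), (nat_lit 12310016)] (nat_lit 10758730)) p14_15_1 (nat_lit 4) (nat_lit 98) (nat_lit 99) = true := by decide +kernel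
def p14_15_1_99 : pfC (piC [(nat_lit 36888796), (nat_lit 24534081), (nat_lit 18263511), (nat_lit 12310016)] (nat_lit 10758730)) p14_15_1 (nat_lit 4) (nat_lit 99) (nat_lit 100) = true := by decide +kernel
def p14_15_1_100 : pfC (piC [(nat_lit 36888796), (nat_lit 24534081), (nat_lit 18263511), (nat_lit 12310016)] (nat_lit 10758730)) p14_15_1 (nat_lit 4) (nat_lit 100) (nat_lit 101) = true := by decide +kernel
def p14_15_1_101 : pfC (piC [(nat_lit 36888796), (nat_lit 24534081), (nat_lit 18263511), (nat_lit 12310016)] (nat_lit 10758730)) p14_15_1 (nat_lit 4) (nat_lit 101) (nat_lit 102) = true := by decide +kernel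
def p14_15_1_102 : pfC (piC [(nat_lit 36888796), (nat_lit 24534081), (nat_lit 18263511), (nat_lit 12310016)] (nat_lit 10758730)) p14_15_1 (nat_lit 4) (nat_lit 102) (nat_lit 103) = true := by decide +kernel
def p14_15_1_103 : pfC (piC [(nat_lit 36888796), (nat_lit 24534081), (nat_lit 18263511), (nat_lit 12310016)] (nat_lit 10758730)) p14_15_1 (nat_lit 4) (nat_lit 103) (nat_lit 104) = true := by decide +kernel
def p14_15_1_104 : pfC (piC [(nat_lit 36888796), (nat_lit 24534081), (nat_lit 18263511), (nat_lit 12310016)] (nat_lit 10758730)) p14_15_1 (nat_lit 4) (nat_lit 104) (nat_lit 105) = true := by decide +kernel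
def p14_15_1_105 : pfC (piC [(nat_lit 36888796), (nat_lit 24534081), (nat_lit 18263511), (nat_lit 12310016)] (nat_lit 10758730)) p14_15_1 (nat_lit 4) (nat_lit 105) (nat_lit 106) = true := by decide +kernel
def p14_15_1_106 : pfC (piC [(nat_lit 36888796), (nat_lit 24534081), (nat_lit 18263511), (nat_lit 12310016)] (nat_lit 10758730)) p14_15_1 (nat_lit 4) (nat_lit 106) (nat_lit 107) = true := by decide +kernel
def p14_15_1_107 : pfC (piC [(nat_lit 36888796), (nat_lit 24534081), (nat_lit 18263511), (nat_lit 12310016)] (nat_lit 10758730)) p14_15_1 (nat_lit 4) (nat_lit 107) (nat_lit 108) = true := by decide +kernel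
def p14_15_1_108 : pfC (piC [(nat_lit 36888796), (nat_lit 24534081), (nat_lit 18263511), (nat_lit 12310016)] (nat_lit 10758730)) p14_15_1 (nat_lit 4) (nat_lit 108) (nat_lit 109) = true := by decide +kernel
def p14_15_1_109 : pfC (piC [(nat_lit 36888796), (nat_lit 24534081), (nat_lit 18263511), (nat_lit 12310016)] (nat_lit 10758730)) p14_15_1 (nat_lit 4) (nat_lit 109) (nat_lit 110) = true := by decide +kernel
def p14_15_1_110 : pfC (piC [(nat_lit 36888796), (nat_lit 24534081), (nat_lit 18263511), (nat_lit 12310016)] (nat_lit 10758730)) p14_15_1 (nat_lit 4) (nat_lit 110) (nat_lit 111) = true := by decide +kernel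
def p14_15_1_111 : pfC (piC [(nat_lit 36888796), (nat_lit 24534081), (nat_lit 18263511), (nat_lit 12310016)] (nat_lit 10758730)) p14_15_1 (nat_lit 4) (nat_lit 111) (nat_lit 112) = true := by decide +kernel
def p14_15_1_112 : pfC (piC [(nat_lit 36888796), (nat_lit 24534081), (nat_lit 18263511), (nat_lit 12310016)] (nat_lit 10758730)) p14_15_1 (nat_lit 4) (nat_lit 112) (nat_lit 113) = true := by decide +kernel
def p14_15_1_113 : pfC (piC [(nat_lit 36888796), (nat_lit 24534081), (nat_lit 18263511), (nat_lit 12310016)] (nat_lit 10758730)) p14_15_1 (nat_lit 4) (nat_lit 113) (nat_lit 114) = true := by decide +kernel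
def p14_15_1_114 : pfC (piC [(nat_lit 36888796), (nat_lit 24534081), (nat_lit 18263511), (nat_lit 12310016)] (nat_lit 10758730)) p14_15_1 (nat_lit 4) (nat_lit 114) (nat_lit 115) = true := by decide +kernel
def p14_15_1_115 : pfC (piC [(nat_lit 36888796), (nat_lit 24534081), (nat_lit 18263511), (nat_lit 12310016)] (nat_lit 10758730)) p14_15_1 (nat_lit 4) (nat_lit 115) (nat_lit 116) = true := by decide +kernel
def p14_15_1_116 : pfC (piC [(nat_lit 36888796), (nat_lit 24534081), (nat_lit 18263511), (nat_lit 12310016)] (nat_lit 10758730)) p14_15_1 (nat_lit 4) (nat_lit 116) (nat_lit 117) = true := by decide +kernel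
def p14_15_1_117 : pfC (piC [(nat_lit 36888796), (nat_lit 24534081), (nat_lit 18263511), (nat_lit 12310016)] (nat_lit 10758730)) p14_15_1 (nat_lit 4) (nat_lit 117) (nat_lit 118) = true := by decide +kernel
def p14_15_1_118 : pfC (piC [(nat_lit 36888796), (nat_lit 24534081), (nat_lit 18263511), (nat_lit 12310016)] (nat_lit 10758730)) p14_15_1 (nat_lit 4) (nat_lit 118) (nat_lit 119) = true := by decide +kernel
def p14_15_1_119 : pfC (piC [(nat_lit 36888796), (nat_lit 24534081), (nat_lit 18263511), (nat_lit 12310016)] (nat_lit 10758730)) p14_15_1 (nat_lit 4) (nat_lit 119) (nat_lit 120) = true := by decide +kernel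
def p14_15_1_120 : pfC (piC [(nat_lit 36888796), (nat_lit 24534081), (nat_lit 18263511), (nat_lit 12310016)] (nat_lit 10758730)) p14_15_1 (nat_lit 4) (nat_lit 120) (nat_lit 121) = true := by decide +kernel
def p14_15_1_121 : pfC (piC [(nat_lit 36888796), (nat_lit 24534081), (nat_lit 18263511), (nat_lit 12310016)] (nat_lit 10758730)) p14_15_1 (nat_lit 4) (nat_lit 121) (nat_lit 122) = true := by decide +kernel
def p14_15_1_122 : pfC (piC [(nat_lit 36888796), (nat_lit 24534081), (nat_lit 18263511), (nat_lit 12310016)] (nat_lit 10758730)) p14_15_1 (nat_lit 4) (nat_lit 122) (nat_lit 123) = true := by decide +kernel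
def p14_15_1_123 : pfC (piC [(nat_lit 36888796), (nat_lit 24534081), (nat_lit 18263511), (nat_lit 12310016)] (nat_lit 10758730)) p14_15_1 (nat_lit 4) (nat_lit 123) (nat_lit 124) = true := by decide +kernel
def p14_15_1_124 : pfC (piC [(nat_lit 36888796), (nat_lit 24534081), (nat_lit 18263511), (nat_lit 12310016)] (nat_lit 10758730)) p14_15_1 (nat_lit 4) (nat_lit 124) (nat_lit 125) = true := by decide +kernel
def p14_15_1_125 : pfC (piC [(nat_lit 36888796), (nat_lit 24534081), (nat_lit 18263511), (nat_lit 12310016)] (nat_lit 10758730)) p14_15_1 (nat_lit 4) (nat_lit 125) (nat_lit 126) = true := by decide +kernel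
def p14_15_1_126 : pfC (piC [(nat_lit 36888796), (nat_lit 24534081), (nat_lit 18263511), (nat_lit 12310016)] (nat_lit 10758730)) p14_15_1 (nat_lit 4) (nat_lit 126) (nat_lit 127) = true := by decide +kernel
def p14_15_1_127 : pfC (piC [(nat_lit 36888796), (nat_lit 24534081), (nat_lit 18263511), (nat_lit 12310016)] (nat_lit 10758730)) p14_15_1 (nat_lit 4) (nat_lit 127) (nat_lit 128) = true := by decide +kernel
def p14_15_1_128 : pfC (piC [(nat_lit 36888796), (nat_lit 24534081), (nat_lit 18263511), (nat_lit 12310016)] (nat_lit 10758730)) p14_15_1 (nat_lit 4) (nat_lit 128) (nat_lit 129) = true := by decide +kernel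
def p14_15_1_129 : pfC (piC [(nat_lit 36888796), (nat_lit 24534081), (nat_lit 18263511), (nat_lit 12310016)] (nat_lit 10758730)) p14_15_1 (nat_lit 4) (nat_lit 129) (nat_lit 130) = true := by decide +kernel
def p14_15_1_130 : pfC (piC [(nat_lit 36888796), (nat_lit 24534081), (nat_lit 18263511), (nat_lit 12310016)] (nat_lit 10758730)) p14_15_1 (nat_lit 4) (nat_lit 130) (nat_lit 131) = true := by decide +kernel
def p14_15_1_131 : pfC (piC [(nat_lit 36888796), (nat_lit 24534081), (nat_lit 18263511), (nat_lit 12310016)] (nat_lit 10758730)) p14_15_1 (nat_lit 4) (nat_lit 131) (nat_lit 132) = true := by decide +kernel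
def p14_15_1_132 : pfC (piC [(nat_lit 36888796), (nat_lit 24534081), (nat_lit 18263511), (nat_lit 12310016)] (nat_lit 10758730)) p14_15_1 (nat_lit 4) (nat_lit 132) (nat_lit 133) = true := by decide +kernel
def p14_15_1_133 : pfC (piC [(nat_lit 36888796), (nat_lit 24534081), (nat_lit 18263511), (nat_lit 12310016)] (nat_lit 10758730)) p14_15_1 (nat_lit 4) (nat_lit 133) (nat_lit 134) = true := by decide +kernel
def p14_15_1_134 : pfC (piC [(nat_lit 36888796), (nat_lit 24534081), (nat_lit 18263511), (nat_lit 12310016)] (nat_lit 10758730)) p14_15_1 (nat_lit 4) (nat_lit 134) (nat_lit 135) = true := by decide +kernel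
def p14_15_1_135 : pfC (piC [(nat_lit 36888796), (nat_lit 24534081), (nat_lit 18263511), (nat_lit 12310016)] (nat_lit 10758730)) p14_15_1 (nat_lit 4) (nat_lit 135) (nat_lit 136) = true := by decide +kernel
def p14_15_1_136 : pfC (piC [(nat_lit 36888796), (nat_lit 24534081), (nat_lit 18263511), (nat_lit 12310016)] (nat_lit 10758730)) p14_15_1 (nat_lit 4) (nat_lit 136) (nat_lit 137) = true := by decide +kernel
def p14_15_1_137 : pfC (piC [(nat_lit 36888796), (nat_lit 24534081), (nat_lit 18263511), (nat_lit 12310016)] (nat_lit 10758730)) p14_15_1 (nat_lit 4) (nat_lit 137) (nat_lit 138) = true := by decide +kernel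
def p14_15_1_138 : pfC (piC [(nat_lit 36888796), (nat_lit 24534081), (nat_lit 18263511), (nat_lit 12310016)] (nat_lit 10758730)) p14_15_1 (nat_lit 4) (nat_lit 138) (nat_lit 139) = true := by decide +kernel
def p14_15_1_139 : pfC (piC [(nat_lit 36888796), (nat_lit 24534081), (nat_lit 18263511), (nat_lit 12310016)] (nat_lit 10758730)) p14_15_1 (nat_lit 4) (nat_lit 139) (nat_lit 140) = true := by decide +kernel
def p14_15_1_140 : pfC (piC [(nat_lit 36888796), (nat_lit 24534081), (nat_lit 18263511), (nat_lit 12310016)] (nat_lit 10758730)) p14_15_1 (nat_lit 4) (nat_lit 140) (nat_lit 141) = true := by decide +kernel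
def p14_15_1_141 : pfC (piC [(nat_lit 36888796), (nat_lit 24534081), (nat_lit 18263511), (nat_lit 12310016)] (nat_lit 10758730)) p14_15_1 (nat_lit 4) (nat_lit 141) (nat_lit 142) = true := by decide +kernel
def p14_15_1_142 : pfC (piC [(nat_lit 36888796), (nat_lit 24534081), (nat_lit 18263511), (nat_lit 12310016)] (nat_lit 10758730)) p14_15_1 (nat_lit 4) (nat_lit 142) (nat_lit 143) = true := by decide +kernel
def p14_15_1_143 : pfC (piC [(nat_lit 36888796), (nat_lit 24534081), (nat_lit 18263511), (nat_lit 12310016)] (nat_lit 10758730)) p14_15_1 (nat_lit 4) (nat_lit 143) (nat_lit 144) = true := by decide +kernel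
def p14_15_1_144 : pfC (piC [(nat_lit 36888796), (nat_lit 24534081), (nat_lit 18263511), (nat_lit 12310016)] (nat_lit 10758730)) p14_15_1 (nat_lit 4) (nat_lit 144) (nat_lit 145) = true := by decide +kernel
def p14_15_1_145 : pfC (piC [(nat_lit 36888796), (nat_lit 24534081), (nat_lit 18263511), (nat_lit 12310016)] (nat_lit 10758730)) p14_15_1 (nat_lit 4) (nat_lit 145) (nat_lit 146) = true := by decide +kernel
def p14_15_1_146 : pfC (piC [(nat_lit 36888796), (nat_lit 24534081), (nat_lit 18263511), (nat_lit 12310016)] (nat_lit 10758730)) p14_15_1 (nat_lit 4) (nat_lit 146) (nat_lit 147) = true := by decide +kernel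
def p14_15_1_147 : pfC (piC [(nat_lit 36888796), (nat_lit 24534081), (nat_lit 18263511), (nat_lit 12310016)] (nat_lit 10758730)) p14_15_1 (nat_lit 4) (nat_lit 147) (nat_lit 148) = true := by decide +kernel
def p14_15_1_148 : pfC (piC [(nat_lit 36888796), (nat_lit 24534081), (nat_lit 18263511), (nat_lit 12310016)] (nat_lit 10758730)) p14_15_1 (nat_lit 4) (nat_lit 148) (nat_lit 149) = true := by decide +kernel
def p14_15_1_149 : pfC (piC [(nat_lit 36888796), (nat_lit 24534081), (nat_lit 18263511), (nat_lit 12310016)] (nat_lit 10758730)) p14_15_1 (nat_lit 4) (nat_lit 149) (nat_lit 150) = true := by decide +kernel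
def p14_15_1_150 : pfC (piC [(nat_lit 36888796), (nat_lit 24534081), (nat_lit 18263511), (nat_lit 12310016)] (nat_lit 10758730)) p14_15_1 (nat_lit 4) (nat_lit 150) (nat_lit 151) = true := by decide +kernel
def p14_15_1_151 : pfC (piC [(nat_lit 36888796), (nat_lit 24534081), (nat_lit 18263511), (nat_lit 12310016)] (nat_lit 10758730)) p14_15_1 (nat_lit 4) (nat_lit 151) (nat_lit 152) = true := by decide +kernel
def p14_15_1_152 : pfC (piC [(nat_lit 36888796), (nat_lit 24534081), (nat_lit 18263511), (nat_lit 12310016)] (nat_lit 10758730)) p14_15_1 (nat_lit 4) (nat_lit 152) (nat_lit 153) = true := by decide +kernel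
def p14_15_1_153 : pfC (piC [(nat_lit 36888796), (nat_lit 24534081), (nat_lit 18263511), (nat_lit 12310016)] (nat_lit 10758730)) p14_15_1 (nat_lit 4) (nat_lit 153) (nat_lit 154) = true := by decide +kernel
def p14_15_1_154 : pfC (piC [(nat_lit 36888796), (nat_lit 24534081), (nat_lit 18263511), (nat_lit 12310016)] (nat_lit 10758730)) p14_15_1 (nat_lit 4) (nat_lit 154) (nat_lit 155) = true := by decide +kernel
def p14_15_1_155 : pfC (piC [(nat_lit 36888796), (nat_lit 24534081), (nat_lit 18263511), (nat_lit 12310016)] (nat_lit 10758730)) p14_15_1 (nat_lit 4) (nat_lit 155) (nat_lit 156) = true := by decide +kernel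
def p14_15_1_156 : pfC (piC [(nat_lit 36888796), (nat_lit 24534081), (nat_lit 18263511), (nat_lit 12310016)] (nat_lit 10758730)) p14_15_1 (nat_lit 4) (nat_lit 156) (nat_lit 157) = true := by decide +kernel
def p14_15_1_157 : pfC (piC [(nat_lit 36888796), (nat_lit 24534081), (nat_lit 18263511), (nat_lit 12310016)] (nat_lit 10758730)) p14_15_1 (nat_lit 4) (nat_lit 157) (nat_lit 158) = true := by decide +kernel
def p14_15_1_158 : pfC (piC [(nat_lit 36888796), (nat_lit 24534081), (nat_lit 18263511), (nat_lit 12310016)] (nat_lit 10758730)) p14_15_1 (nat_lit 4) (nat_lit 158) (nat_lit 159) = true := by decide +kernel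
def p14_15_1_159 : pfC (piC [(nat_lit 36888796), (nat_lit 24534081), (nat_lit 18263511), (nat_lit 12310016)] (nat_lit 10758730)) p14_15_1 (nat_lit 4) (nat_lit 159) (nat_lit 160) = true := by decide +kernel
def p14_15_1_160 : pfC (piC [(nat_lit 36888796), (nat_lit 24534081), (nat_lit 18263511), (nat_lit 12310016)] (nat_lit 10758730)) p14_15_1 (nat_lit 4) (nat_lit 160) (nat_lit 161) = true := by decide +kernel
def p14_15_1_161 : pfC (piC [(nat_lit 36888796), (nat_lit 24534081), (nat_lit 18263511), (nat_lit 12310016)] (nat_lit 10758730)) p14_15_1 (nat_lit 4) (nat_lit 161) (nat_lit 162) = true := by decide +kernel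
def p14_15_1_162 : pfC (piC [(nat_lit 36888796), (nat_lit 24534081), (nat_lit 18263511), (nat_lit 12310016)] (nat_lit 10758730)) p14_15_1 (nat_lit 4) (nat_lit 162) (nat_lit 163) = true := by decide +kernel
def p14_15_1_163 : pfC (piC [(nat_lit 36888796), (nat_lit 24534081), (nat_lit 18263511), (nat_lit 12310016)] (nat_lit 10758730)) p14_15_1 (nat_lit 4) (nat_lit 163) (nat_lit 164) = true := by decide +kernel
def p14_15_1_164 : pfC (piC [(nat_lit 36888796), (nat_lit 24534081), (nat_lit 18263511), (nat_lit 12310016)] (nat_lit 10758730)) p14_15_1 (nat_lit 4) (nat_lit 164) (nat_lit 165) = true := by decide +kernel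
def p14_15_1_165 : pfC (piC [(nat_lit 36888796), (nat_lit 24534081), (nat_lit 18263511), (nat_lit 12310016)] (nat_lit 10758730)) p14_15_1 (nat_lit 4) (nat_lit 165) (nat_lit 166) = true := by decide +kernel
def p14_15_1_166 : pfC (piC [(nat_lit 36888796), (nat_lit 24534081), (nat_lit 18263511), (nat_lit 12310016)] (nat_lit 10758730)) p14_15_1 (nat_lit 4) (nat_lit 166) (nat_lit 167) = true := by decide +kernel
def p14_15_1_167 : pfC (piC [(nat_lit 36888796), (nat_lit 24534081), (nat_lit 18263511), (nat_lit 12310016)] (nat_lit 10758730)) p14_15_1 (nat_lit 4) (nat_lit 167) (nat_lit 168) = true := by decide +kernel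
def p14_15_1_168 : pfC (piC [(nat_lit 36888796), (nat_lit 24534081), (nat_lit 18263511), (nat_lit 12310016)] (nat_lit 10758730)) p14_15_1 (nat_lit 4) (nat_lit 168) (nat_lit 169) = true := by decide +kernel
def p14_15_1_169 : pfC (piC [(nat_lit 36888796), (nat_lit 24534081), (nat_lit 18263511), (nat_lit 12310016)] (nat_lit 10758730)) p14_15_1 (nat_lit 4) (nat_lit 169) (nat_lit 170) = true := by decide +kernel
def p14_15_1_170 : pfC (piC [(nat_lit 36888796), (nat_lit 24534081), (nat_lit 18263511), (nat_lit 12310016)] (nat_lit 10758730)) p14_15_1 (nat_lit 4) (nat_lit 170) (nat_lit 171) = true := by decide +kernel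
def p14_15_1_171 : pfC (piC [(nat_lit 36888796), (nat_lit 24534081), (nat_lit 18263511), (nat_lit 12310016)] (nat_lit 10758730)) p14_15_1 (nat_lit 4) (nat_lit 171) (nat_lit 172) = true := by decide +kernel
def p14_15_1_172 : pfC (piC [(nat_lit 36888796), (nat_lit 24534081), (nat_lit 18263511), (nat_lit 12310016)] (nat_lit 10758730)) p14_15_1 (nat_lit 4) (nat_lit 172) (nat_lit 173) = true := by decide +kernel
def p14_15_1_173 : pfC (piC [(nat_lit 36888796), (nat_lit 24534081), (nat_lit 18263511), (nat_lit 12310016)] (nat_lit 10758730)) p14_15_1 (nat_lit 4) (nat_lit 173) (nat_lit 174) = true := by decide +kernel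
def p14_15_1_174 : pfC (piC [(nat_lit 36888796), (nat_lit 24534081), (nat_lit 18263511), (nat_lit 12310016)] (nat_lit 10758730)) p14_15_1 (nat_lit 4) (nat_lit 174) (nat_lit 175) = true := by decide +kernel
def p14_15_1_175 : pfC (piC [(nat_lit 36888796), (nat_lit 24534081), (nat_lit 18263511), (nat_lit 12310016)] (nat_lit 10758730)) p14_15_1 (nat_lit 4) (nat_lit 175) (nat_lit 176) = true := by decide +kernel
def p14_15_1_176 : pfC (piC [(nat_lit 36888796), (nat_lit 24534081), (nat_lit 18263511), (nat_lit 12310016)] (nat_lit 10758730)) p14_15_1 (nat_lit 4) (nat_lit 176) (nat_lit 177) = true := by decide +kernel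
def p14_15_1_177 : pfC (piC [(nat_lit 36888796), (nat_lit 24534081), (nat_lit 18263511), (nat_lit 12310016)] (nat_lit 10758730)) p14_15_1 (nat_lit 4) (nat_lit 177) (nat_lit 178) = true := by decide +kernel
def p14_15_1_178 : pfC (piC [(nat_lit 36888796), (nat_lit 24534081), (nat_lit 18263511), (nat_lit 12310016)] (nat_lit 10758730)) p14_15_1 (nat_lit 4) (nat_lit 178) (nat_lit 179) = true := by decide +kernel
def p14_15_1_179 : pfC (piC [(nat_lit 36888796), (nat_lit 24534081), (nat_lit 18263511), (nat_lit 12310016)] (nat_lit 10758730)) p14_15_1 (nat_lit 4) (nat_lit 179) (nat_lit 180) = true := by decide +kernel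
def p14_15_1_180 : pfC (piC [(nat_lit 36888796), (nat_lit 24534081), (nat_lit 18263511), (nat_lit 12310016)] (nat_lit 10758730)) p14_15_1 (nat_lit 4) (nat_lit 180) (nat_lit 181) = true := by decide +kernel
def p14_15_1_181 : pfC (piC [(nat_lit 36888796), (nat_lit 24534081), (nat_lit 18263511), (nat_lit 12310016)] (nat_lit 10758730)) p14_15_1 (nat_lit 4) (nat_lit 181) (nat_lit 182) = true := by decide +kernel
def p14_15_1_182 : pfC (piC [(nat_lit 36888796), (nat_lit 24534081), (nat_lit 18263511), (nat_lit 12310016)] (nat_lit 10758730)) p14_15_1 (nat_lit 4) (nat_lit 182) (nat_lit 183) = true := by decide +kernel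
def p14_15_1_183 : pfC (piC [(nat_lit 36888796), (nat_lit 24534081), (nat_lit 18263511), (nat_lit 12310016)] (nat_lit 10758730)) p14_15_1 (nat_lit 4) (nat_lit 183) (nat_lit 184) = true := by decide +kernel
def p14_15_1_184 : pfC (piC [(nat_lit 36888796), (nat_lit 24534081), (nat_lit 18263511), (nat_lit 12310016)] (nat_lit 10758730)) p14_15_1 (nat_lit 4) (nat_lit 184) (nat_lit 185) = true := by decide +kernel
def p14_15_1_185 : pfC (piC [(nat_lit 36888796), (nat_lit 24534081), (nat_lit 18263511), (nat_lit 12310016)] (nat_lit 10758730)) p14_15_1 (nat_lit 4) (nat_lit 185) (nat_lit 186) = true := by decide +kernel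
def p14_15_1_186 : pfC (piC [(nat_lit 36888796), (nat_lit 24534081), (nat_lit 18263511), (nat_lit 12310016)] (nat_lit 10758730)) p14_15_1 (nat_lit 4) (nat_lit 186) (nat_lit 187) = true := by decide +kernel
def p14_15_1_187 : pfC (piC [(nat_lit 36888796), (nat_lit 24534081), (nat_lit 18263511), (nat_lit 12310016)] (nat_lit 10758730)) p14_15_1 (nat_lit 4) (nat_lit 187) (nat_lit 188) = true := by decide +kernel
def p14_15_1_188 : pfC (piC [(nat_lit 36888796), (nat_lit 24534081), (nat_lit 18263511), (nat_lit 12310016)] (nat_lit 10758730)) p14_15_1 (nat_lit 4) (nat_lit 188) (nat_lit 189) = true := by decide +kernel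
def p14_15_1_189 : pfC (piC [(nat_lit 36888796), (nat_lit 24534081), (nat_lit 18263511), (nat_lit 12310016)] (nat_lit 10758730)) p14_15_1 (nat_lit 4) (nat_lit 189) (nat_lit 190) = true := by decide +kernel
def p14_15_1_190 : pfC (piC [(nat_lit 36888796), (nat_lit 24534081), (nat_lit 18263511), (nat_lit 12310016)] (nat_lit 10758730)) p14_15_1 (nat_lit 4) (nat_lit 190) (nat_lit 191) = true := by decide +kernel
def p14_15_1_191 : pfC (piC [(nat_lit 36888796), (nat_lit 24534081), (nat_lit 18263511), (nat_lit 12310016)] (nat_lit 10758730)) p14_15_1 (nat_lit 4) (nat_lit 191) (nat_lit 192) = true := by decide +kernel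
def p14_15_1_192 : pfC (piC [(nat_lit 36888796), (nat_lit 24534081), (nat_lit 18263511), (nat_lit 12310016)] (nat_lit 10758730)) p14_15_1 (nat_lit 4) (nat_lit 192) (nat_lit 193) = true := by decide +kernel
def p14_15_1_193 : pfC (piC [(nat_lit 36888796), (nat_lit 24534081), (nat_lit 18263511), (nat_lit 12310016)] (nat_lit 10758730)) p14_15_1 (nat_lit 4) (nat_lit 193) (nat_lit 194) = true := by decide +kernel
def p14_15_1_194 : pfC (piC [(nat_lit 36888796), (nat_lit 24534081), (nat_lit 18263511), (nat_lit 12310016)] (nat_lit 10758730)) p14_15_1 (nat_lit 4) (nat_lit 194) (nat_lit 195) = true := by decide +kernel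
def p14_15_1_195 : pfC (piC [(nat_lit 36888796), (nat_lit 24534081), (nat_lit 18263511), (nat_lit 12310016)] (nat_lit 10758730)) p14_15_1 (nat_lit 4) (nat_lit 195) (nat_lit 196) = true := by decide +kernel
def p14_15_1_196 : pfC (piC [(nat_lit 36888796), (nat_lit 24534081), (nat_lit 18263511), (nat_lit 12310016)] (nat_lit 10758730)) p14_15_1 (nat_lit 4) (nat_lit 196) (nat_lit 197) = true := by decide +kernel
def p14_15_1_197 : pfC (piC [(nat_lit 36888796), (nat_lit 24534081), (nat_lit 18263511), (nat_lit 12310016)] (nat_lit 10758730)) p14_15_1 (nat_lit 4) (nat_lit 197) (nat_lit 198) = true := by decide +kernel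
def p14_15_1_198 : pfC (piC [(nat_lit 36888796), (nat_lit 24534081), (nat_lit 18263511), (nat_lit 12310016)] (nat_lit 10758730)) p14_15_1 (nat_lit 4) (nat_lit 198) (nat_lit 199) = true := by decide +kernel
def p14_15_1_199 : pfC (piC [(nat_lit 36888796), (nat_lit 24534081), (nat_lit 18263511), (nat_lit 12310016)] (nat_lit 10758730)) p14_15_1 (nat_lit 4) (nat_lit 199) (nat_lit 200) = true := by decide +kernel
def p14_15_1_200 : pfC (piC [(nat_lit 36888796), (nat_lit 24534081), (nat_lit 18263511), (nat_lit 12310016)] (nat_lit 10758730)) p14_15_1 (nat_lit 4) (nat_lit 200) (nat_lit 201) = true := by decide +kernel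
def p14_15_1_201 : pfC (piC [(nat_lit 36888796), (nat_lit 24534081), (nat_lit 18263511), (nat_lit 12310016)] (nat_lit 10758730)) p14_15_1 (nat_lit 4) (nat_lit 201) (nat_lit 202) = true := by decide +kernel
def p14_15_1_202 : pfC (piC [(nat_lit 36888796), (nat_lit 24534081), (nat_lit 18263511), (nat_lit 12310016)] (nat_lit 10758730)) p14_15_1 (nat_lit 4) (nat_lit 202) (nat_lit 203) = true := by decide +kernel
def p14_15_1_203 : pfC (piC [(nat_lit 36888796), (nat_lit 24534081), (nat_lit 18263511), (nat_lit 12310016)] (nat_lit 10758730)) p14_15_1 (nat_lit 4) (nat_lit 203) (nat_lit 204) = true := by decide +kernel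
def p14_15_1_204 : pfC (piC [(nat_lit 36888796), (nat_lit 24534081), (nat_lit 18263511), (nat_lit 12310016)] (nat_lit 10758730)) p14_15_1 (nat_lit 4) (nat_lit 204) (nat_lit 205) = true := by decide +kernel
def p14_15_1_205 : pfC (piC [(nat_lit 36888796), (nat_lit 24534081), (nat_lit 18263511), (nat_lit 12310016)] (nat_lit 10758730)) p14_15_1 (nat_lit 4) (nat_lit 205) (nat_lit 206) = true := by decide +kernel
def p14_15_1_206 : pfC (piC [(nat_lit 36888796), (nat_lit 24534081), (nat_lit 18263511), (nat_lit 12310016)] (nat_lit 10758730)) p14_15_1 (nat_lit 4) (nat_lit 206) (nat_lit 207) = true := by decide +kernel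
def p14_15_1_207 : pfC (piC [(nat_lit 36888796), (nat_lit 24534081), (nat_lit 18263511), (nat_lit 12310016)] (nat_lit 10758730)) p14_15_1 (nat_lit 4) (nat_lit 207) (nat_lit 208) = true := by decide +kernel
def p14_15_1_208 : pfC (piC [(nat_lit 36888796), (nat_lit 24534081), (nat_lit 18263511), (nat_lit 12310016)] (nat_lit 10758730)) p14_15_1 (nat_lit 4) (nat_lit 208) (nat_lit 209) = true := by decide +kernel
def p14_15_1_209 : pfC (piC [(nat_lit 36888796), (nat_lit 24534081), (nat_lit 18263511), (nat_lit 12310016)] (nat_lit 10758730)) p14_15_1 (nat_lit 4) (nat_lit 209) (nat_lit 210) = true := by decide +kernel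
theorem p14_15_1_T : PfS (PiF n14_15.reverse (nat_lit 10758730)) p14_15_1 (nat_lit 4) [] 0 :=
  pftab_of (los := [(nat_lit 36888796), (nat_lit 24534081), (nat_lit 18263511), (nat_lit 12310016)]) (by decide +kernel) (hi := (nat_lit 210)) (PfP.trans (PfP.trans (PfP.trans (PfP.trans (PfP.trans (PfP.trans (PfP.trans (PfP.trans (PfP.trans (PfP.trans (PfP.trans (PfP.trans (PfP.trans (PfP.trans (PfP.trans (PfP.trans (PfP.trans (PfP.trans (PfP.trans (PfP.trans (PfP.trans (PfP.trans (PfP.trans (PfP.trans (PfP.trans (PfP.trans (PfP.trans (PfP.trans (PfP.trans (PfP.trans (PfP.trans (PfP.trans (PfP.trans (PfP.trans (PfP.trans (PfP.trans (PfP.trans (PfP.trans (PfP.trans (PfP.trans (PfP.trans (PfP.trans (PfP.trans (PfP.trans (PfP.trans (PfP.trans (PfP.trans (PfP.trans (PfP.trans (PfP.trans (PfP.trans (PfP.trans (PfP.trans (PfP.trans (PfP.trans (PfP.trans (PfP.trans (PfP.trans (PfP.trans (PfP.trans (PfP.trans (PfP.trans (PfP.trans (PfP.trans (PfP.trans (PfP.trans (PfP.trans (PfP.trans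 (PfP.trans (PfP.trans (PfP.trans (PfP.trans (PfP.trans (PfP.trans (PfP.trans (PfP.trans (PfP.trans (PfP.trans (PfP.trans (PfP.trans (PfP.trans (PfP.trans (PfP.trans (PfP.trans (PfP.trans (PfP.trans (PfP.trans (PfP.trans (PfP.trans (PfP.trans (PfP.trans (PfP.trans (PfP.trans (PfP.trans (PfP.trans (PfP.trans (PfP.trans (PfP.trans (PfP.trans (PfP.trans (PfP.trans (PfP.trans (PfP.trans (PfP.trans (PfP.trans (PfP.trans (PfP.trans (PfP.trans (PfP.trans
 (PfP.trans (PfP.trans (PfP.trans (PfP.trans (PfP.trans (PfP.trans (PfP.trans (PfP.trans (PfP.trans (PfP.trans (PfP.trans (PfP.trans (PfP.trans (PfP.trans (PfP.trans (PfP.trans (PfP.trans (PfP.trans (PfP.trans (PfP.trans (PfP.trans (PfP.trans (PfP.trans (PfP.trans (PfP.trans (PfP.trans (PfP.trans (PfP.trans (PfP.trans (PfP.trans (PfP.trans (PfP.trans (PfP.trans (PfP.trans (PfP.trans (PfP.trans (PfP.trans (PfP.trans (PfP.trans (PfP.trans (PfP.trans (PfP.trans (PfP.trans (PfP.trans (PfP.trans (PfP.trans (PfP.trans (PfP.trans (PfP.trans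 (PfP.trans (PfP.trans (PfP.trans (PfP.trans (PfP.trans (PfP.trans (PfP.trans (PfP.trans (PfP.trans (PfP.trans (PfP.trans (PfP.trans (PfP.trans (PfP.trans (PfP.trans (PfP.trans (PfP.trans (PfP.trans (PfP.trans (PfP.trans (PfP.trans (PfP.trans (PfP.trans (PfP.trans (PfP.trans (PfP.trans (PfP.trans (PfP.trans (PfP.trans (PfP.trans (PfP.trans (PfP.trans (PfP.trans (PfP.trans (PfP.trans (PfP.trans (PfP.trans (PfP.trans (PfP.trans (PfP.trans (PfP.trans (PfP.trans (PfP.trans (PfP.trans (PfP.trans (PfP.trans (PfP.trans (PfP.trans (PfP.trans (PfP.trans (PfP.trans (pfC_sound p14_15_1_0) (pfC_sound p14_15_1_1)) (pfC_sound p14_15_1_2)) (pfC_sound p14_15_1_3))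
 (pfC_sound p14_15_1_4)) (pfC_sound p14_15_1_5)) (pfC_sound p14_15_1_6)) (pfC_sound p14_15_1_7)) (pfC_sound p14_15_1_8)) (pfC_sound p14_15_1_9)) (pfC_sound p14_15_1_10)) (pfC_sound p14_15_1_11)) (pfC_sound p14_15_1_12)) (pfC_sound p14_15_1_13)) (pfC_sound p14_15_1_14)) (pfC_sound p14_15_1_15)) (pfC_sound p14_15_1_16)) (pfC_sound p14_15_1_17)) (pfC_sound p14_15_1_18)) (pfC_sound p14_15_1_19)) (pfC_sound p14_15_1_20)) (pfC_sound p14_15_1_21)) (pfC_sound p14_15_1_22)) (pfC_sound p14_15_1_23)) (pfC_sound p14_15_1_24)) (pfC_sound p14_15_1_25)) (pfC_sound p14_15_1_26)) (pfC_sound p14_15_1_27)) (pfC_sound p14_15_1_28)) (pfC_sound p14_15_1_29)) (pfC_sound p14_15_1_30)) (pfC_sound p14_15_1_31)) (pfC_sound p14_15_1_32)) (pfC_sound p14_15_1_33)) (pfC_sound p14_15_1_34)) (pfC_sound p14_15_1_35)) (pfC_sound p14_15_1_36)) (pfC_sound p14_15_1_37)) (pfC_sound p14_15_1_38)) (pfC_sound p14_15_1_39)) (pfC_sound p14_15_1_40)) (pfC_sound p14_15_1_41)) (pfC_sound p14_15_1_42)) (pfC_sound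 p14_15_1_43)) (pfC_sound p14_15_1_44)) (pfC_sound p14_15_1_45)) (pfC_sound p14_15_1_46)) (pfC_sound p14_15_1_47)) (pfC_sound p14_15_1_48)) (pfC_sound p14_15_1_49)) (pfC_sound p14_15_1_50)) (pfC_sound p14_15_1_51))
 (pfC_sound p14_15_1_52)) (pfC_sound p14_15_1_53)) (pfC_sound p14_15_1_54)) (pfC_sound p14_15_1_55)) (pfC_sound p14_15_1_56)) (pfC_sound p14_15_1_57)) (pfC_sound p14_15_1_58)) (pfC_sound p14_15_1_59)) (pfC_sound p14_15_1_60)) (pfC_sound p14_15_1_61)) (pfC_sound p14_15_1_62)) (pfC_sound p14_15_1_63)) (pfC_sound p14_15_1_64)) (pfC_sound p14_15_1_65)) (pfC_sound p14_15_1_66)) (pfC_sound p14_15_1_67)) (pfC_sound p14_15_1_68)) (pfC_sound p14_15_1_69)) (pfC_sound p14_15_1_70)) (pfC_sound p14_15_1_71)) (pfC_sound p14_15_1_72)) (pfC_sound p14_15_1_73)) (pfC_sound p14_15_1_74)) (pfC_sound p14_15_1_75)) (pfC_sound p14_15_1_76)) (pfC_sound p14_15_1_77)) (pfC_sound p14_15_1_78)) (pfC_sound p14_15_1_79)) (pfC_sound p14_15_1_80)) (pfC_sound p14_15_1_81)) (pfC_sound p14_15_1_82))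 (pfC_sound p14_15_1_83)) (pfC_sound p14_15_1_84)) (pfC_sound p14_15_1_85)) (pfC_sound p14_15_1_86)) (pfC_sound p14_15_1_87)) (pfC_sound p14_15_1_88)) (pfC_sound p14_15_1_89)) (pfC_sound p14_15_1_90)) (pfC_sound p14_15_1_91)) (pfC_sound p14_15_1_92)) (pfC_sound p14_15_1_93)) (pfC_sound p14_15_1_94)) (pfC_sound p14_15_1_95)) (pfC_sound p14_15_1_96)) (pfC_sound p14_15_1_97)) (pfC_sound p14_15_1_98)) (pfC_sound p14_15_1_99))
 (pfC_sound p14_15_1_100)) (pfC_sound p14_15_1_101)) (pfC_sound p14_15_1_102)) (pfC_sound p14_15_1_103)) (pfC_sound p14_15_1_104)) (pfC_sound p14_15_1_105)) (pfC_sound p14_15_1_106)) (pfC_sound p14_15_1_107)) (pfC_sound p14_15_1_108)) (pfC_sound p14_15_1_109)) (pfC_sound p14_15_1_110)) (pfC_sound p14_15_1_111)) (pfC_sound p14_15_1_112)) (pfC_sound p14_15_1_113)) (pfC_sound p14_15_1_114)) (pfC_sound p14_15_1_115)) (pfC_sound p14_15_1_116)) (pfC_sound p14_15_1_117)) (pfC_sound p14_15_1_118)) (pfC_sound p14_15_1_119)) (pfC_sound p14_15_1_120)) (pfC_sound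 p14_15_1_121)) (pfC_sound p14_15_1_122)) (pfC_sound p14_15_1_123)) (pfC_sound p14_15_1_124)) (pfC_sound p14_15_1_125)) (pfC_sound p14_15_1_126)) (pfC_sound p14_15_1_127)) (pfC_sound p14_15_1_128)) (pfC_sound p14_15_1_129)) (pfC_sound p14_15_1_130)) (pfC_sound p14_15_1_131)) (pfC_sound p14_15_1_132)) (pfC_sound p14_15_1_133)) (pfC_sound p14_15_1_134)) (pfC_sound p14_15_1_135)) (pfC_sound p14_15_1_136)) (pfC_sound p14_15_1_137)) (pfC_sound p14_15_1_138)) (pfC_sound p14_15_1_139)) (pfC_sound p14_15_1_140)) (pfC_sound p14_15_1_141)) (pfC_sound p14_15_1_142)) (pfC_sound p14_15_1_143)) (pfC_sound p14_15_1_144)) (pfC_sound p14_15_1_145))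
 (pfC_sound p14_15_1_146)) (pfC_sound p14_15_1_147)) (pfC_sound p14_15_1_148)) (pfC_sound p14_15_1_149)) (pfC_sound p14_15_1_150)) (pfC_sound p14_15_1_151)) (pfC_sound p14_15_1_152)) (pfC_sound p14_15_1_153)) (pfC_sound p14_15_1_154)) (pfC_sound p14_15_1_155)) (pfC_sound p14_15_1_156)) (pfC_sound p14_15_1_157)) (pfC_sound p14_15_1_158)) (pfC_sound p14_15_1_159)) (pfC_sound p14_15_1_160)) (pfC_sound p14_15_1_161)) (pfC_sound p14_15_1_162)) (pfC_sound p14_15_1_163)) (pfC_sound p14_15_1_164)) (pfC_sound p14_15_1_165)) (pfC_sound p14_15_1_166)) (pfC_sound p14_15_1_167)) (pfC_sound p14_15_1_168)) (pfC_sound p14_15_1_169)) (pfC_sound p14_15_1_170)) (pfC_sound p14_15_1_171)) (pfC_sound p14_15_1_172)) (pfC_sound p14_15_1_173)) (pfC_sound p14_15_1_174)) (pfC_sound p14_15_1_175)) (pfC_sound p14_15_1_176)) (pfC_sound p14_15_1_177)) (pfC_sound p14_15_1_178)) (pfC_sound p14_15_1_179)) (pfC_sound p14_15_1_180)) (pfC_sound p14_15_1_181)) (pfC_sound p14_15_1_182)) (pfC_sound p14_15_1_183))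 (pfC_sound p14_15_1_184)) (pfC_sound p14_15_1_185)) (pfC_sound p14_15_1_186)) (pfC_sound p14_15_1_187)) (pfC_sound p14_15_1_188)) (pfC_sound p14_15_1_189)) (pfC_sound p14_15_1_190)) (pfC_sound p14_15_1_191))
 (pfC_sound p14_15_1_192)) (pfC_sound p14_15_1_193)) (pfC_sound p14_15_1_194)) (pfC_sound p14_15_1_195)) (pfC_sound p14_15_1_196)) (pfC_sound p14_15_1_197)) (pfC_sound p14_15_1_198)) (pfC_sound p14_15_1_199)) (pfC_sound p14_15_1_200)) (pfC_sound p14_15_1_201)) (pfC_sound p14_15_1_202)) (pfC_sound p14_15_1_203)) (pfC_sound p14_15_1_204)) (pfC_sound p14_15_1_205)) (pfC_sound p14_15_1_206)) (pfC_sound p14_15_1_207)) (pfC_sound p14_15_1_208)) (pfC_sound p14_15_1_209)) (by decide +kernel)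

def z14_15_1 : zOK yB14_15 (nat_lit 1) (nat_lit 400) (nat_lit 600) (nat_lit 10758730) (nat_lit 7072463) = true := by decide +kernel
def g14_15_1 : gOK yB14_15.x P14_15 (nat_lit 1415) (q14_15 :: r14_15) (nat_lit 1) (nat_lit 400) (nat_lit 2) (nat_lit 600) (nat_lit 11000000) (nat_lit 17850000) (nat_lit 12712500) (nat_lit 12712500) [(nat_lit 800), (nat_lit 1040)] = true := by decide +kernel
def v14_15_1 : ivC P14_15 s14_15 w14_15 n14_15 (nat_lit 4) (nat_lit 4960) (nat_lit 1) (nat_lit 400) f168_1_400 f176_1_400 (nat_lit 2) (nat_lit 600) f168_1_600 f176_1_600 (nat_lit 10758730) (nat_lit 7072463) p14_15_1 = true := by decide +kernel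
def p14_15_2 : PF := (PF.cons (PF.cons (PF.cons (PF.cons (PF.leaf (nat_lit 2675124) (nat_lit 15200835) (nat_lit 51907977) (nat_lit 15200835) [(nat_lit 0), (nat_lit 0), (nat_lit 0), (nat_lit 0)]) (PF.cons (PF.leaf (nat_lit 2872017) (nat_lit 357653) (nat_lit 51567424) (nat_lit 15183735) [(nat_lit 357653), (nat_lit 0), (nat_lit 0), (nat_lit 0)]) (PF.cons (PF.leaf (nat_lit 3103556) (nat_lit 388231) (nat_lit 51170718) (nat_lit 15161630) [(nat_lit 388231), (nat_lit 0), (nat_lit 0), (nat_lit 0)]) (PF.cons (PF.leaf (nat_lit 3362682) (nat_lit 415086) (nat_lit 50729190) (nat_lit 15134361) [(nat_lit 415086), (nat_lit 0), (nat_lit 0), (nat_lit 0)]) (PF.cons (PF.leaf (nat_lit 3645064) (nat_lit 439017) (nat_lit 50250982) (nat_lit 15101760) [(nat_lit 439017), (nat_lit 0), (nat_lit 0), (nat_lit 0)]) (PF.cons (PF.leaf (nat_lit 3947311) (nat_lit 460536) (nat_lit 49742434) (nat_lit 15063695) [(nat_lit 460536), (nat_lit 0), (nat_lit 0), (nat_lit 0)]) (PF.cons (PF.leaf (nat_lit 4266650)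 (nat_lit 479997) (nat_lit 49208731) (nat_lit 15020095) [(nat_lit 479997), (nat_lit 0), (nat_lit 0), (nat_lit 0)]) (PF.cons (PF.leaf (nat_lit 4600734) (nat_lit 497659) (nat_lit 48654244) (nat_lit 14970948) [(nat_lit 497659), (nat_lit 0),
 (nat_lit 0), (nat_lit 0)]) (PF.cons (PF.leaf (nat_lit 4947532) (nat_lit 513721) (nat_lit 48082739) (nat_lit 14916302) [(nat_lit 513721), (nat_lit 0), (nat_lit 0), (nat_lit 0)]) (PF.cons (PF.leaf (nat_lit 5305233) (nat_lit 528339) (nat_lit 47497501) (nat_lit 14856259) [(nat_lit 528339), (nat_lit 0), (nat_lit 0), (nat_lit 0)]) (PF.cons PF.nil (PF.cons PF.nil PF.nil)))))))))))) (PF.cons (PF.cons (PF.leaf (nat_lit 3272081) (nat_lit 1445884) (nat_lit 50546073) (nat_lit 15116854) [(nat_lit 0), (nat_lit 1445884), (nat_lit 0), (nat_lit 0)]) (PF.cons (PF.leaf (nat_lit 3521614) (nat_lit 423843) (nat_lit 50114548) (nat_lit 15086441) [(nat_lit 423843), (nat_lit 1483979), (nat_lit 0), (nat_lit 0)]) (PF.cons (PF.leaf (nat_lit 3796690) (nat_lit 447001)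 (nat_lit 49643950) (nat_lit 15050445) [(nat_lit 447001), (nat_lit 1520413), (nat_lit 0), (nat_lit 0)]) (PF.cons (PF.leaf (nat_lit 4092592) (nat_lit 467744) (nat_lit 49142006) (nat_lit 15008883) [(nat_lit 467744), (nat_lit 1554689), (nat_lit 0), (nat_lit 0)]) (PF.cons (PF.leaf (nat_lit 4406137) (nat_lit 486457) (nat_lit 48614603) (nat_lit 14961782) [(nat_lit 486457), (nat_lit 1586597), (nat_lit 0), (nat_lit 0)]) (PF.cons (PF.leaf (nat_lit 4734747)
 (nat_lit 503410) (nat_lit 48066481) (nat_lit 14909200) [(nat_lit 503410), (nat_lit 1616076), (nat_lit 0), (nat_lit 0)]) (PF.cons (PF.leaf (nat_lit 5076243) (nat_lit 518805) (nat_lit 47501600) (nat_lit 14851238) [(nat_lit 518805), (nat_lit 1643140), (nat_lit 0), (nat_lit 0)]) (PF.cons (PF.leaf (nat_lit 5428727) (nat_lit 532799) (nat_lit 46923340) (nat_lit 14788033) [(nat_lit 532799), (nat_lit 1667845), (nat_lit 0), (nat_lit 0)]) (PF.cons (PF.leaf (nat_lit 5790555) (nat_lit 545518) (nat_lit 46334630) (nat_lit 14719763) [(nat_lit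 545518), (nat_lit 1690271), (nat_lit 0), (nat_lit 0)]) (PF.cons PF.nil PF.nil)))))))))) (PF.cons (PF.cons (PF.leaf (nat_lit 3951705) (nat_lit 1545106) (nat_lit 49025226) (nat_lit 14993374) [(nat_lit 0), (nat_lit 1545106), (nat_lit 0), (nat_lit 0)]) (PF.cons (PF.leaf (nat_lit 4239145) (nat_lit 473758) (nat_lit 48534142) (nat_lit 14948904) [(nat_lit 473758), (nat_lit 1576003), (nat_lit 0), (nat_lit 0)]) (PF.cons (PF.leaf (nat_lit 4545770) (nat_lit 491925) (nat_lit 48016129) (nat_lit 14898806) [(nat_lit 491925), (nat_lit 1605013), (nat_lit 0), (nat_lit 0)]) (PF.cons (PF.leaf (nat_lit 4868109) (nat_lit 508317) (nat_lit 47476713) (nat_lit 14843238) [(nat_lit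
 508317), (nat_lit 1631954), (nat_lit 0), (nat_lit 0)]) (PF.cons (PF.leaf (nat_lit 5203729) (nat_lit 523158) (nat_lit 46920280) (nat_lit 14782366) [(nat_lit 523158), (nat_lit 1656765), (nat_lit 0), (nat_lit 0)]) (PF.cons (PF.leaf (nat_lit 5550613) (nat_lit 536617) (nat_lit 46350447) (nat_lit 14716377) [(nat_lit 536617), (nat_lit 1679449), (nat_lit 0), (nat_lit 0)]) (PF.cons (PF.leaf (nat_lit 5906966) (nat_lit 548826) (nat_lit 45770272) (nat_lit 14645479) [(nat_lit 548826), (nat_lit 1700049), (nat_lit 0), (nat_lit 0)]) (PF.cons (PF.leaf (nat_lit 6271309) (nat_lit 559895) (nat_lit 45182384) (nat_lit 14569902) [(nat_lit 559895), (nat_lit 1718630), (nat_lit 0), (nat_lit 0)]) (PF.cons PF.nil PF.nil))))))))) (PF.cons (PF.cons (PF.leaf (nat_lit 4687136) (nat_lit 1621725) (nat_lit 47412502) (nat_lit 14831134) [(nat_lit 0), (nat_lit 1621725), (nat_lit 0), (nat_lit 0)]) (PF.cons (PF.leaf (nat_lit 5001751) (nat_lit 512380) (nat_lit 46884511) (nat_lit 14773099) [(nat_lit 512380),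 (nat_lit 1646274), (nat_lit 0), (nat_lit 0)]) (PF.cons (PF.leaf (nat_lit 5330747) (nat_lit 526789) (nat_lit 46338557) (nat_lit 14709769) [(nat_lit 526789), (nat_lit 1668968), (nat_lit 0), (nat_lit 0)]) (PF.cons
 (PF.leaf (nat_lit 5671453) (nat_lit 539807) (nat_lit 45778715) (nat_lit 14641398) [(nat_lit 539807), (nat_lit 1689758), (nat_lit 0), (nat_lit 0)]) (PF.cons (PF.leaf (nat_lit 6021983) (nat_lit 551581) (nat_lit 45208303) (nat_lit 14568238) [(nat_lit 551581), (nat_lit 1708648), (nat_lit 0), (nat_lit 0)]) (PF.cons (PF.leaf (nat_lit 6380671) (nat_lit 562228) (nat_lit 44630098) (nat_lit 14490547) [(nat_lit 562228), (nat_lit 1725675), (nat_lit 0), (nat_lit 0)]) (PF.cons PF.nil PF.nil))))))) (PF.cons (PF.cons (PF.leaf (nat_lit 5458443) (nat_lit 1679866) (nat_lit 45755875) (nat_lit 14633471) [(nat_lit 0), (nat_lit 1679866), (nat_lit 0), (nat_lit 0)]) (PF.cons (PF.leaf (nat_lit 5791955) (nat_lit 542368) (nat_lit 45207809) (nat_lit 14563164) [(nat_lit 542368), (nat_lit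 1698867), (nat_lit 0), (nat_lit 0)]) (PF.cons (PF.leaf (nat_lit 6136101) (nat_lit 553788) (nat_lit 44648514) (nat_lit 14488131) [(nat_lit 553788), (nat_lit 1716147), (nat_lit 0), (nat_lit 0)]) (PF.cons (PF.leaf (nat_lit 6488778) (nat_lit 564078) (nat_lit 44081041) (nat_lit 14408675) [(nat_lit 564078), (nat_lit 1731715), (nat_lit 0), (nat_lit 0)]) (PF.cons (PF.leaf (nat_lit 6848455) (nat_lit 573343) (nat_lit 43507919) (nat_lit
 14325089) [(nat_lit 573343), (nat_lit 1745607), (nat_lit 0), (nat_lit 0)]) PF.nil))))) (PF.cons (PF.cons (PF.leaf (nat_lit 6250270) (nat_lit 1722623) (nat_lit 44090486) (nat_lit 14405207) [(nat_lit 0), (nat_lit 1722623), (nat_lit 0), (nat_lit 0)]) (PF.cons (PF.leaf (nat_lit 6596168) (nat_lit 565446) (nat_lit 43534928) (nat_lit 14324359) [(nat_lit 565446), (nat_lit 1736815), (nat_lit 0), (nat_lit 0)]) (PF.cons (PF.leaf (nat_lit 6949748) (nat_lit 574418) (nat_lit 42973215) (nat_lit 14239471) [(nat_lit 574418), (nat_lit 1749457), (nat_lit 0), (nat_lit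 0)]) (PF.cons PF.nil PF.nil)))) (PF.cons (PF.cons (PF.leaf (nat_lit 7050698) (nat_lit 1752500) (nat_lit 42442018) (nat_lit 14151792) [(nat_lit 0), (nat_lit 1752500), (nat_lit 0), (nat_lit 0)]) (PF.cons (PF.leaf (nat_lit 7403855) (nat_lit 582864) (nat_lit 41888305) (nat_lit 14062301) [(nat_lit 582864), (nat_lit 1762556), (nat_lit 0), (nat_lit 0)]) PF.nil)) (PF.cons PF.nil (PF.cons PF.nil PF.nil))))))))) (PF.cons (PF.cons (PF.cons (PF.leaf (nat_lit 3830264) (nat_lit 3604651) (nat_lit 48576053) (nat_lit 14928108) [(nat_lit 0), (nat_lit 0), (nat_lit 3604651), (nat_lit 0)]) (PF.cons (PF.leaf (nat_lit 4088396) (nat_lit 449484) (nat_lit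
 48138236) (nat_lit 14886741) [(nat_lit 449484), (nat_lit 0), (nat_lit 3634350), (nat_lit 0)]) (PF.cons (PF.leaf (nat_lit 4370457) (nat_lit 470698) (nat_lit 47664838) (nat_lit 14839411) [(nat_lit 470698), (nat_lit 0), (nat_lit 3663167), (nat_lit 0)]) (PF.cons (PF.leaf (nat_lit 4671605) (nat_lit 489431) (nat_lit 47163740) (nat_lit 14786434) [(nat_lit 489431), (nat_lit 0), (nat_lit 3690344), (nat_lit 0)]) (PF.cons (PF.leaf (nat_lit 4988661) (nat_lit 506136) (nat_lit 46640782) (nat_lit 14728060) [(nat_lit 506136), (nat_lit 0), (nat_lit 3715422), (nat_lit 0)]) (PF.cons (PF.leaf (nat_lit 5319091) (nat_lit 521123) (nat_lit 46100550) (nat_lit 14664520) [(nat_lit 521123), (nat_lit 0), (nat_lit 3738126), (nat_lit 0)]) (PF.cons (PF.leaf (nat_lit 5660779) (nat_lit 534612) (nat_lit 45546784) (nat_lit 14596044) [(nat_lit 534612), (nat_lit 0), (nat_lit 3758305), (nat_lit 0)]) (PF.cons (PF.leaf (nat_lit 6011942) (nat_lit 546776) (nat_lit 44982615) (nat_lit 14522871) [(nat_lit 546776),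 (nat_lit 0), (nat_lit 3775892), (nat_lit 0)]) (PF.cons (PF.leaf (nat_lit 6371031) (nat_lit 557747) (nat_lit 44410708) (nat_lit 14445250) [(nat_lit 557747), (nat_lit 0), (nat_lit 3790877), (nat_lit 0)]) (PF.cons
 PF.nil PF.nil)))))))))) (PF.cons (PF.cons (PF.leaf (nat_lit 4518102) (nat_lit 1596098) (nat_lit 47058484) (nat_lit 14769812) [(nat_lit 0), (nat_lit 1596098), (nat_lit 3684418), (nat_lit 0)]) (PF.cons (PF.leaf (nat_lit 4809987) (nat_lit 493299) (nat_lit 46571027) (nat_lit 14714938) [(nat_lit 493299), (nat_lit 1621601), (nat_lit 3707946), (nat_lit 0)]) (PF.cons (PF.leaf (nat_lit 5119454) (nat_lit 509671) (nat_lit 46059871) (nat_lit 14654535) [(nat_lit 509671), (nat_lit 1645335), (nat_lit 3729729), (nat_lit 0)]) (PF.cons (PF.leaf (nat_lit 5443083) (nat_lit 524277) (nat_lit 45530424) (nat_lit 14588944) [(nat_lit 524277), (nat_lit 1667179), (nat_lit 3749431), (nat_lit 0)]) (PF.cons (PF.leaf (nat_lit 5778531) (nat_lit 537372) (nat_lit 44986887) (nat_lit 14518465) [(nat_lit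 537372), (nat_lit 1687108), (nat_lit 3766862), (nat_lit 0)]) (PF.cons (PF.leaf (nat_lit 6123799) (nat_lit 549140) (nat_lit 44432657) (nat_lit 14443384) [(nat_lit 549140), (nat_lit 1705145), (nat_lit 3781925), (nat_lit 0)]) (PF.cons (PF.leaf (nat_lit 6477244) (nat_lit 559724) (nat_lit 43870553) (nat_lit 14363980) [(nat_lit 559724), (nat_lit 1721339), (nat_lit 3794588), (nat_lit 0)]) (PF.cons PF.nil (PF.cons PF.nil
 PF.nil))))))))) (PF.cons (PF.cons (PF.leaf (nat_lit 5252212) (nat_lit 1657061) (nat_lit 45475894) (nat_lit 14577066) [(nat_lit 0), (nat_lit 1657061), (nat_lit 3741728), (nat_lit 0)]) (PF.cons (PF.leaf (nat_lit 5567674) (nat_lit 526705) (nat_lit 44959591) (nat_lit 14509940) [(nat_lit 526705), (nat_lit 1676984), (nat_lit 3758607), (nat_lit 0)]) (PF.cons (PF.leaf (nat_lit 5896107) (nat_lit 539513) (nat_lit 44428008) (nat_lit 14437893) [(nat_lit 539513), (nat_lit 1695210), (nat_lit 3773463), (nat_lit 0)]) (PF.cons (PF.leaf (nat_lit 6234962) (nat_lit 550969) (nat_lit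 43885016) (nat_lit 14361281) [(nat_lit 550969), (nat_lit 1711719), (nat_lit 3786166), (nat_lit 0)]) (PF.cons (PF.leaf (nat_lit 6582381) (nat_lit 561234) (nat_lit 43333713) (nat_lit 14280428) [(nat_lit 561234), (nat_lit 1726533), (nat_lit 3796664), (nat_lit 0)]) (PF.cons (PF.leaf (nat_lit 6936825) (nat_lit 570434) (nat_lit 42776649) (nat_lit 14195643) [(nat_lit 570434), (nat_lit 1739698), (nat_lit 3804950), (nat_lit 0)]) (PF.cons PF.nil PF.nil))))))) (PF.cons (PF.cons (PF.leaf (nat_lit 6014650) (nat_lit 1702267) (nat_lit 43869467) (nat_lit 14354317) [(nat_lit 0), (nat_lit 1702267), (nat_lit 3778226), (nat_lit 0)]) (PF.cons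
 (PF.leaf (nat_lit 6346072) (nat_lit 552254) (nat_lit 43339243) (nat_lit 14276593) [(nat_lit 552254), (nat_lit 1717332), (nat_lit 3788723), (nat_lit 0)]) (PF.cons (PF.leaf (nat_lit 6686962) (nat_lit 562274) (nat_lit 42799877) (nat_lit 14194650) [(nat_lit 562274), (nat_lit 1730845), (nat_lit 3797198), (nat_lit 0)]) (PF.cons (PF.leaf (nat_lit 7035311) (nat_lit 571214) (nat_lit 42254204) (nat_lit 14108840) [(nat_lit 571214), (nat_lit 1742830), (nat_lit 3803629), (nat_lit 0)]) (PF.cons PF.nil PF.nil))))) (PF.cons (PF.cons (PF.leaf (nat_lit 6791878) (nat_lit 1734331) (nat_lit 42268548) (nat_lit 14106662) [(nat_lit 0), (nat_lit 1734331), (nat_lit 3796277), (nat_lit 0)]) (PF.cons (PF.leaf (nat_lit 7133380) (nat_lit 571578) (nat_lit 41735266) (nat_lit 14020168) [(nat_lit 571578), (nat_lit 1745204), (nat_lit 3800980), (nat_lit 0)]) (PF.cons (PF.leaf (nat_lit 7481632) (nat_lit 579344) (nat_lit 41197363) (nat_lit 13930178) [(nat_lit 579344), (nat_lit 1754695), (nat_lit 3803798),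 (nat_lit 0)]) (PF.cons PF.nil PF.nil)))) (PF.cons (PF.cons (PF.leaf (nat_lit 7573556) (nat_lit 1755405) (nat_lit 40694050) (nat_lit 13839314) [(nat_lit 0), (nat_lit 1755405), (nat_lit 3798421), (nat_lit 0)]) (PF.cons
 PF.nil PF.nil)) (PF.cons PF.nil (PF.cons PF.nil PF.nil)))))))) (PF.cons (PF.cons (PF.cons (PF.leaf (nat_lit 5068743) (nat_lit 3717808) (nat_lit 45157800) (nat_lit 14515396) [(nat_lit 0), (nat_lit 0), (nat_lit 3717808), (nat_lit 0)]) (PF.cons (PF.leaf (nat_lit 5362785) (nat_lit 508162) (nat_lit 44679614) (nat_lit 14452243) [(nat_lit 508162), (nat_lit 0), (nat_lit 3734396), (nat_lit 0)]) (PF.cons (PF.leaf (nat_lit 5673031) (nat_lit 522963) (nat_lit 44180494) (nat_lit 14383769) [(nat_lit 522963), (nat_lit 0), (nat_lit 3749310), (nat_lit 0)]) (PF.cons (PF.leaf (nat_lit 5996132) (nat_lit 536021) (nat_lit 43665666) (nat_lit 14310453) [(nat_lit 536021), (nat_lit 0), (nat_lit 3762314), (nat_lit 0)]) (PF.cons (PF.leaf (nat_lit 6329735) (nat_lit 547609) (nat_lit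 43139120) (nat_lit 14232690) [(nat_lit 547609), (nat_lit 0), (nat_lit 3773281), (nat_lit 0)]) (PF.cons (PF.leaf (nat_lit 6671989) (nat_lit 557926) (nat_lit 42604026) (nat_lit 14150833) [(nat_lit 557926), (nat_lit 0), (nat_lit 3782159), (nat_lit 0)]) (PF.cons (PF.leaf (nat_lit 7021308) (nat_lit 567123) (nat_lit 42062975) (nat_lit 14065207) [(nat_lit 567123), (nat_lit 0), (nat_lit 3788943), (nat_lit 0)]) (PF.cons PF.nil (PF.cons
 PF.nil PF.nil))))))))) (PF.cons (PF.cons (PF.leaf (nat_lit 5797299) (nat_lit 1680401) (nat_lit 43619931) (nat_lit 14299171) [(nat_lit 0), (nat_lit 1680401), (nat_lit 3754654), (nat_lit 0)]) (PF.cons (PF.leaf (nat_lit 6111922) (nat_lit 537133) (nat_lit 43119248) (nat_lit 14225121) [(nat_lit 537133), (nat_lit 1696475), (nat_lit 3765417), (nat_lit 0)]) (PF.cons (PF.leaf (nat_lit 6438319) (nat_lit 548551) (nat_lit 42605493) (nat_lit 14146546) [(nat_lit 548551), (nat_lit 1710990), (nat_lit 3774339), (nat_lit 0)]) (PF.cons (PF.leaf (nat_lit 6774021)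 (nat_lit 558660) (nat_lit 42082319) (nat_lit 14063874) [(nat_lit 558660), (nat_lit 1723949), (nat_lit 3781344), (nat_lit 0)]) (PF.cons (PF.leaf (nat_lit 7117244) (nat_lit 567630) (nat_lit 41552608) (nat_lit 13977475) [(nat_lit 567630), (nat_lit 1735387), (nat_lit 3786409), (nat_lit 0)]) (PF.cons PF.nil (PF.cons PF.nil PF.nil))))))) (PF.cons (PF.cons (PF.leaf (nat_lit 6548111) (nat_lit 1714979) (nat_lit 42073046) (nat_lit 14057984) [(nat_lit 0), (nat_lit 1714979), (nat_lit 3773911), (nat_lit 0)]) (PF.cons (PF.leaf (nat_lit 6876273) (nat_lit 558916) (nat_lit 41563124) (nat_lit 13974886) [(nat_lit 558916), (nat_lit 1726770), (nat_lit 3779172),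
 (nat_lit 0)]) (PF.cons (PF.leaf (nat_lit 7212915) (nat_lit 567729) (nat_lit 41045720) (nat_lit 13888042) [(nat_lit 567729), (nat_lit 1737156), (nat_lit 3782639), (nat_lit 0)]) (PF.cons (PF.leaf (nat_lit 7556113) (nat_lit 575512) (nat_lit 40523462) (nat_lit 13797835) [(nat_lit 575512), (nat_lit 1746173), (nat_lit 3784315), (nat_lit 0)]) (PF.cons PF.nil PF.nil))))) (PF.cons (PF.cons (PF.leaf (nat_lit 7309174) (nat_lit 1738253) (nat_lit 40541766) (nat_lit 13796893) [(nat_lit 0), (nat_lit 1738253), (nat_lit 3777695), (nat_lit 0)]) (PF.cons (PF.leaf (nat_lit 7645549) (nat_lit 575067) (nat_lit 40032020) (nat_lit 13706574) [(nat_lit 575067), (nat_lit 1746373), (nat_lit 3778015), (nat_lit 0)]) (PF.cons PF.nil (PF.cons PF.nil PF.nil)))) (PF.cons (PF.cons (PF.leaf (nat_lit 8071476) (nat_lit 1752108) (nat_lit 39043193) (nat_lit 13520731) [(nat_lit 0), (nat_lit 1752108), (nat_lit 3768226), (nat_lit 0)]) (PF.cons PF.nil PF.nil)) (PF.cons PF.nil PF.nil)))))) (PF.cons (PF.cons (PF.cons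 (PF.leaf (nat_lit 6321901) (nat_lit 3750972) (nat_lit 41850958) (nat_lit 14004938) [(nat_lit 0), (nat_lit 0), (nat_lit 3750972), (nat_lit 0)]) (PF.cons (PF.leaf (nat_lit 6634397) (nat_lit 544376) (nat_lit
 41368388) (nat_lit 13925821) [(nat_lit 544376), (nat_lit 0), (nat_lit 3756742), (nat_lit 0)]) (PF.cons (PF.leaf (nat_lit 6957658) (nat_lit 554582) (nat_lit 40874567) (nat_lit 13842570) [(nat_lit 554582), (nat_lit 0), (nat_lit 3760836), (nat_lit 0)]) (PF.cons (PF.leaf (nat_lit 7289253) (nat_lit 563524) (nat_lit 40372928) (nat_lit 13755659) [(nat_lit 563524), (nat_lit 0), (nat_lit 3763217), (nat_lit 0)]) (PF.cons (PF.leaf (nat_lit 7627503) (nat_lit 571378) (nat_lit 39866144) (nat_lit 13665490) [(nat_lit 571378), (nat_lit 0), (nat_lit 3763887), (nat_lit 0)]) (PF.cons PF.nil (PF.cons PF.nil PF.nil))))))) (PF.cons (PF.cons (PF.leaf (nat_lit 7059165) (nat_lit 1719939) (nat_lit 40369002) (nat_lit 13750877) [(nat_lit 0), (nat_lit 1719939), (nat_lit 3756331), (nat_lit 0)])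 (PF.cons (PF.leaf (nat_lit 7383210) (nat_lit 562949) (nat_lit 39880735) (nat_lit 13664099) [(nat_lit 562949), (nat_lit 1728997), (nat_lit 3757343), (nat_lit 0)]) (PF.cons (PF.leaf (nat_lit 7714900) (nat_lit 570717) (nat_lit 39386309) (nat_lit 13574005) [(nat_lit 570717), (nat_lit 1736779), (nat_lit 3756760), (nat_lit 0)]) (PF.cons PF.nil (PF.cons PF.nil PF.nil))))) (PF.cons (PF.cons (PF.leaf (nat_lit 7803121) (nat_lit
 1735969) (nat_lit 38909616) (nat_lit 13481205) [(nat_lit 0), (nat_lit 1735969), (nat_lit 3748683), (nat_lit 0)]) (PF.cons (PF.leaf (nat_lit 8133856) (nat_lit 576409) (nat_lit 38423847) (nat_lit 13388539) [(nat_lit 576409), (nat_lit 1741799), (nat_lit 3745472), (nat_lit 0)]) (PF.cons PF.nil (PF.cons PF.nil PF.nil)))) (PF.cons (PF.cons (PF.leaf (nat_lit 8545853) (nat_lit 1743898) (nat_lit 37486847) (nat_lit 13200317) [(nat_lit 0), (nat_lit 1743898), (nat_lit 3729983), (nat_lit 0)]) (PF.cons PF.nil PF.nil)) (PF.cons PF.nil PF.nil))))) (PF.cons (PF.cons (PF.cons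 (PF.leaf (nat_lit 7548486) (nat_lit 3728426) (nat_lit 38757022) (nat_lit 13438085) [(nat_lit 0), (nat_lit 0), (nat_lit 3728426), (nat_lit 0)]) (PF.cons (PF.leaf (nat_lit 7867788) (nat_lit 564836) (nat_lit 38290972) (nat_lit 13349012) [(nat_lit 564836), (nat_lit 0), (nat_lit 3725997), (nat_lit 0)]) (PF.cons (PF.leaf (nat_lit 8194050) (nat_lit 571699) (nat_lit 37819818) (nat_lit 13257006) [(nat_lit 571699), (nat_lit 0), (nat_lit 3722147), (nat_lit 0)]) (PF.cons PF.nil PF.nil)))) (PF.cons (PF.cons (PF.leaf (nat_lit 8274835) (nat_lit 1728748) (nat_lit 37369742) (nat_lit 13163732) [(nat_lit 0), (nat_lit 1728748), (nat_lit 3711647),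
 (nat_lit 0)]) (PF.cons (PF.leaf (nat_lit 8599610) (nat_lit 576009) (nat_lit 36907819) (nat_lit 13069901) [(nat_lit 576009), (nat_lit 1732673), (nat_lit 3705602), (nat_lit 0)]) PF.nil)) (PF.cons PF.nil PF.nil))) (PF.cons (PF.cons (PF.cons (PF.leaf (nat_lit 8725538) (nat_lit 3668508) (nat_lit 35918619) (nat_lit 12847648) [(nat_lit 0), (nat_lit 0), (nat_lit 3668508), (nat_lit 0)]) (PF.cons PF.nil PF.nil)) (PF.cons PF.nil PF.nil)) (PF.cons PF.nil (PF.cons PF.nil PF.nil)))))))) (PF.cons (PF.cons (PF.cons (PF.cons (PF.leaf (nat_lit 4678867) (nat_lit 8767429) (nat_lit 44083969) (nat_lit 14257414) [(nat_lit 0), (nat_lit 0), (nat_lit 0), (nat_lit 8767429)]) (PF.cons (PF.leaf (nat_lit 4933094) (nat_lit 458511) (nat_lit 43688903) (nat_lit 14204528) [(nat_lit 458511), (nat_lit 0), (nat_lit 0), (nat_lit 8756869)]) (PF.cons (PF.leaf (nat_lit 5209357) (nat_lit 478030) (nat_lit 43263590) (nat_lit 14145686) [(nat_lit 478030), (nat_lit 0), (nat_lit 0), (nat_lit 8743474)]) (PF.cons (PF.leaf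 (nat_lit 5502806) (nat_lit 494941) (nat_lit 42815260) (nat_lit 14081561) [(nat_lit 494941), (nat_lit 0), (nat_lit 0), (nat_lit 8727167)]) (PF.cons (PF.leaf (nat_lit 5810292) (nat_lit 509761) (nat_lit 42349192)
 (nat_lit 14012657) [(nat_lit 509761), (nat_lit 0), (nat_lit 0), (nat_lit 8707918)]) (PF.cons (PF.leaf (nat_lit 6129353) (nat_lit 522845) (nat_lit 41869462) (nat_lit 13939386) [(nat_lit 522845), (nat_lit 0), (nat_lit 0), (nat_lit 8685738)]) (PF.cons (PF.leaf (nat_lit 6458021) (nat_lit 534448) (nat_lit 41379337) (nat_lit 13862109) [(nat_lit 534448), (nat_lit 0), (nat_lit 0), (nat_lit 8660673)]) (PF.cons (PF.leaf (nat_lit 6794617) (nat_lit 544765) (nat_lit 40881502) (nat_lit 13781151) [(nat_lit 544765), (nat_lit 0), (nat_lit 0), (nat_lit 8632799)]) (PF.cons (PF.leaf (nat_lit 7137731) (nat_lit 553947) (nat_lit 40378203) (nat_lit 13696817) [(nat_lit 553947), (nat_lit 0), (nat_lit 0), (nat_lit 8602209)]) (PF.cons PF.nil PF.nil)))))))))) (PF.cons (PF.cons (PF.leaf (nat_lit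 5342412) (nat_lit 1600339) (nat_lit 42726772) (nat_lit 14064164) [(nat_lit 0), (nat_lit 1600339), (nat_lit 0), (nat_lit 8717535)]) (PF.cons (PF.leaf (nat_lit 5626144) (nat_lit 496827) (nat_lit 42292318) (nat_lit 13999647) [(nat_lit 496827), (nat_lit 1620624), (nat_lit 0), (nat_lit 8699394)]) (PF.cons (PF.leaf (nat_lit 5925710) (nat_lit 511451) (nat_lit 41838285) (nat_lit 13930144) [(nat_lit 511451), (nat_lit 1639142),
 (nat_lit 0), (nat_lit 8678337)]) (PF.cons (PF.leaf (nat_lit 6237767) (nat_lit 524287) (nat_lit 41369491) (nat_lit 13856187) [(nat_lit 524287), (nat_lit 1655859), (nat_lit 0), (nat_lit 8654411)]) (PF.cons (PF.leaf (nat_lit 6560077) (nat_lit 535621) (nat_lit 40889622) (nat_lit 13778208) [(nat_lit 535621), (nat_lit 1670811), (nat_lit 0), (nat_lit 8627685)]) (PF.cons (PF.leaf (nat_lit 6890761) (nat_lit 545663) (nat_lit 40401609) (nat_lit 13696578) [(nat_lit 545663), (nat_lit 1684061), (nat_lit 0), (nat_lit 8598246)]) (PF.cons (PF.leaf (nat_lit 7228301) (nat_lit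 554573) (nat_lit 39907848) (nat_lit 13611630) [(nat_lit 554573), (nat_lit 1695690), (nat_lit 0), (nat_lit 8566200)]) (PF.cons PF.nil (PF.cons PF.nil PF.nil))))))))) (PF.cons (PF.cons (PF.leaf (nat_lit 6043343) (nat_lit 1645804) (nat_lit 41325906) (nat_lit 13844910) [(nat_lit 0), (nat_lit 1645804), (nat_lit 0), (nat_lit 8646385)]) (PF.cons (PF.leaf (nat_lit 6347108) (nat_lit 525115) (nat_lit 40869930) (nat_lit 13770726) [(nat_lit 525115), (nat_lit 1661027), (nat_lit 0), (nat_lit 8620987)]) (PF.cons (PF.leaf (nat_lit 6662367) (nat_lit 536282) (nat_lit 40401657) (nat_lit 13692413) [(nat_lit 536282), (nat_lit 1674670), (nat_lit 0),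
 (nat_lit 8592836)]) (PF.cons (PF.leaf (nat_lit 6986669) (nat_lit 546126) (nat_lit 39924451) (nat_lit 13610417) [(nat_lit 546126), (nat_lit 1686760), (nat_lit 0), (nat_lit 8562043)]) (PF.cons (PF.leaf (nat_lit 7318306) (nat_lit 554825) (nat_lit 39440963) (nat_lit 13525118) [(nat_lit 554825), (nat_lit 1697351), (nat_lit 0), (nat_lit 8528726)]) (PF.cons (PF.leaf (nat_lit 7655862) (nat_lit 562517) (nat_lit 38953344) (nat_lit 13436848) [(nat_lit 562517), (nat_lit 1706509), (nat_lit 0), (nat_lit 8493013)]) (PF.cons PF.nil PF.nil))))))) (PF.cons (PF.cons (PF.leaf (nat_lit 6765969) (nat_lit 1677757) (nat_lit 39914734) (nat_lit 13604658) [(nat_lit 0), (nat_lit 1677757), (nat_lit 0), (nat_lit 8556146)]) (PF.cons (PF.leaf (nat_lit 7082943) (nat_lit 546139) (nat_lit 39449533) (nat_lit 13522647) [(nat_lit 546139), (nat_lit 1688756), (nat_lit 0), (nat_lit 8524223)]) (PF.cons (PF.leaf (nat_lit 7408217) (nat_lit 554694) (nat_lit 38977188) (nat_lit 13437284) [(nat_lit 554694), (nat_lit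 1698372), (nat_lit 0), (nat_lit 8489832)]) (PF.cons (PF.leaf (nat_lit 7739899) (nat_lit 562225) (nat_lit 38500108) (nat_lit 13348949) [(nat_lit 562225), (nat_lit 1706654), (nat_lit 0), (nat_lit 8453114)]) (PF.cons
 PF.nil PF.nil))))) (PF.cons (PF.cons (PF.leaf (nat_lit 7498882) (nat_lit 1698792) (nat_lit 38516005) (nat_lit 13348095) [(nat_lit 0), (nat_lit 1698792), (nat_lit 0), (nat_lit 8449540)]) (PF.cons (PF.leaf (nat_lit 7823969) (nat_lit 561593) (nat_lit 38050238) (nat_lit 13259965) [(nat_lit 561593), (nat_lit 1706253), (nat_lit 0), (nat_lit 8412002)]) (PF.cons (PF.leaf (nat_lit 8154921) (nat_lit 568097) (nat_lit 37581029) (nat_lit 13169180) [(nat_lit 568097), (nat_lit 1712518), (nat_lit 0), (nat_lit 8372333)]) (PF.cons PF.nil PF.nil)))) (PF.cons (PF.cons (PF.leaf (nat_lit 8233584) (nat_lit 1710905) (nat_lit 37145352) (nat_lit 13079508) [(nat_lit 0), (nat_lit 1710905), (nat_lit 0), (nat_lit 8329424)]) (PF.cons PF.nil PF.nil)) (PF.cons PF.nil (PF.cons PF.nil PF.nil))))))))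 (PF.cons (PF.cons (PF.cons (PF.leaf (nat_lit 5850013) (nat_lit 3651503) (nat_lit 41062355) (nat_lit 13785060) [(nat_lit 0), (nat_lit 0), (nat_lit 3651503), (nat_lit 8609893)]) (PF.cons (PF.leaf (nat_lit 6134152) (nat_lit 506852) (nat_lit 40639552) (nat_lit 13715710) [(nat_lit 506852), (nat_lit 0), (nat_lit 3660533), (nat_lit 8586164)]) (PF.cons (PF.leaf (nat_lit 6432989) (nat_lit 520106) (nat_lit 40199339) (nat_lit
 13641633) [(nat_lit 520106), (nat_lit 0), (nat_lit 3668010), (nat_lit 8559616)]) (PF.cons (PF.leaf (nat_lit 6743226) (nat_lit 531621) (nat_lit 39746318) (nat_lit 13563437) [(nat_lit 531621), (nat_lit 0), (nat_lit 3673808), (nat_lit 8530382)]) (PF.cons (PF.leaf (nat_lit 7062689) (nat_lit 541695) (nat_lit 39283959) (nat_lit 13481600) [(nat_lit 541695), (nat_lit 0), (nat_lit 3677878), (nat_lit 8498594)]) (PF.cons (PF.leaf (nat_lit 7389598) (nat_lit 550541) (nat_lit 38814983) (nat_lit 13396523) [(nat_lit 550541), (nat_lit 0), (nat_lit 3680218), (nat_lit 8464379)])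 (PF.cons (PF.leaf (nat_lit 7722513) (nat_lit 558323) (nat_lit 38341585) (nat_lit 13308556) [(nat_lit 558323), (nat_lit 0), (nat_lit 3680857), (nat_lit 8427870)]) (PF.cons PF.nil (PF.cons PF.nil PF.nil))))))))) (PF.cons (PF.cons (PF.leaf (nat_lit 6542993) (nat_lit 1656534) (nat_lit 39710126) (nat_lit 13553092) [(nat_lit 0), (nat_lit 1656534), (nat_lit 3666344), (nat_lit 8522714)]) (PF.cons (PF.leaf (nat_lit 6844822) (nat_lit 531467) (nat_lit 39270319) (nat_lit 13475204) [(nat_lit 531467), (nat_lit 1668742), (nat_lit 3670569), (nat_lit 8492509)]) (PF.cons (PF.leaf (nat_lit 7157193) (nat_lit 541470) (nat_lit 38819857) (nat_lit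
 13393532) [(nat_lit 541470), (nat_lit 1679508), (nat_lit 3673211), (nat_lit 8459761)]) (PF.cons (PF.leaf (nat_lit 7477715) (nat_lit 550203) (nat_lit 38361896) (nat_lit 13308555) [(nat_lit 550203), (nat_lit 1688872), (nat_lit 3674250), (nat_lit 8424628)]) (PF.cons (PF.leaf (nat_lit 7804758) (nat_lit 557848) (nat_lit 37898895) (nat_lit 13220670) [(nat_lit 557848), (nat_lit 1696893), (nat_lit 3673702), (nat_lit 8387257)]) (PF.cons PF.nil (PF.cons PF.nil PF.nil))))))) (PF.cons (PF.cons (PF.leaf (nat_lit 7253229) (nat_lit 1680404) (nat_lit 38357207) (nat_lit 13303887) [(nat_lit 0), (nat_lit 1680404), (nat_lit 3667487), (nat_lit 8419423)]) (PF.cons (PF.leaf (nat_lit 7566433) (nat_lit 549465) (nat_lit 37911323) (nat_lit 13219334) [(nat_lit 549465), (nat_lit 1688891), (nat_lit 3667329), (nat_lit 8383577)]) (PF.cons (PF.leaf (nat_lit 7887144) (nat_lit 557036) (nat_lit 37459475) (nat_lit 13131795) [(nat_lit 557036), (nat_lit 1696128), (nat_lit 3665689), (nat_lit 8345521)]) (PF.cons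 (PF.leaf (nat_lit 8213575) (nat_lit 563634) (nat_lit 37003898) (nat_lit 13041661) [(nat_lit 563634), (nat_lit 1702169), (nat_lit 3662595), (nat_lit 8305417)]) (PF.cons PF.nil PF.nil))))) (PF.cons (PF.cons
 (PF.leaf (nat_lit 7970515) (nat_lit 1694872) (nat_lit 37022796) (nat_lit 13041878) [(nat_lit 0), (nat_lit 1694872), (nat_lit 3656853), (nat_lit 8302666)]) (PF.cons (PF.leaf (nat_lit 8290431) (nat_lit 562422) (nat_lit 36578388) (nat_lit 12952304) [(nat_lit 562422), (nat_lit 1700254), (nat_lit 3652849), (nat_lit 8262086)]) (PF.cons PF.nil (PF.cons PF.nil PF.nil)))) (PF.cons (PF.cons (PF.leaf (nat_lit 8687365) (nat_lit 1701669) (nat_lit 35719810) (nat_lit 12770960) [(nat_lit 0), (nat_lit 1701669), (nat_lit 3636305), (nat_lit 8175059)]) (PF.cons PF.nil PF.nil)) (PF.cons PF.nil PF.nil)))))) (PF.cons (PF.cons (PF.cons (PF.leaf (nat_lit 7024111) (nat_lit 3645513) (nat_lit 38175191) (nat_lit 13255260) [(nat_lit 0), (nat_lit 0), (nat_lit 3645513), (nat_lit 8387334)]) (PF.cons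 (PF.leaf (nat_lit 7323158) (nat_lit 535468) (nat_lit 37752719) (nat_lit 13174897) [(nat_lit 535468), (nat_lit 0), (nat_lit 3646162), (nat_lit 8353403)]) (PF.cons (PF.leaf (nat_lit 7631920) (nat_lit 544456) (nat_lit 37320953) (nat_lit 13091074) [(nat_lit 544456), (nat_lit 0), (nat_lit 3645370), (nat_lit 8317131)]) (PF.cons (PF.leaf (nat_lit 7948076) (nat_lit 552224) (nat_lit 36882850) (nat_lit 13004291) [(nat_lit
 552224), (nat_lit 0), (nat_lit 3643143), (nat_lit 8278709)]) (PF.cons (PF.leaf (nat_lit 8270063) (nat_lit 558959) (nat_lit 36440690) (nat_lit 12914954) [(nat_lit 558959), (nat_lit 0), (nat_lit 3639512), (nat_lit 8238306)]) PF.nil))))) (PF.cons (PF.cons (PF.leaf (nat_lit 7720865) (nat_lit 1677630) (nat_lit 36882416) (nat_lit 13000677) [(nat_lit 0), (nat_lit 1677630), (nat_lit 3636940), (nat_lit 8274207)]) (PF.cons (PF.leaf (nat_lit 8029764) (nat_lit 550882) (nat_lit 36456252) (nat_lit 12914668) [(nat_lit 550882), (nat_lit 1684017), (nat_lit 3633788), (nat_lit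 8235414)]) (PF.cons (PF.leaf (nat_lit 8345510) (nat_lit 557599) (nat_lit 36025075) (nat_lit 12826000) [(nat_lit 557599), (nat_lit 1689270), (nat_lit 3629312), (nat_lit 8194642)]) (PF.cons PF.nil PF.nil)))) (PF.cons (PF.cons (PF.leaf (nat_lit 8422118) (nat_lit 1686679) (nat_lit 35612228) (nat_lit 12736254) [(nat_lit 0), (nat_lit 1686679), (nat_lit 3618443), (nat_lit 8150084)]) (PF.cons (PF.leaf (nat_lit 8736574) (nat_lit 561715) (nat_lit 35188997) (nat_lit 12646157) [(nat_lit 561715), (nat_lit 1690327), (nat_lit 3611987), (nat_lit 8107310)]) PF.nil)) (PF.cons PF.nil (PF.cons PF.nil PF.nil))))) (PF.cons (PF.cons (PF.cons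
 (PF.leaf (nat_lit 8169659) (nat_lit 3599762) (nat_lit 35488111) (nat_lit 12698048) [(nat_lit 0), (nat_lit 0), (nat_lit 3599762), (nat_lit 8123366)]) (PF.cons (PF.leaf (nat_lit 8473855) (nat_lit 550740) (nat_lit 35081621) (nat_lit 12611457) [(nat_lit 550740), (nat_lit 0), (nat_lit 3594188), (nat_lit 8082426)]) (PF.cons (PF.leaf (nat_lit 8784342) (nat_lit 556715) (nat_lit 34670883) (nat_lit 12522496) [(nat_lit 556715), (nat_lit 0), (nat_lit 3587429), (nat_lit 8039713)]) (PF.cons PF.nil PF.nil)))) (PF.cons (PF.cons (PF.leaf (nat_lit 8854722) (nat_lit 1675098) (nat_lit 34280941) (nat_lit 12433613) [(nat_lit 0), (nat_lit 1675098), (nat_lit 3575008), (nat_lit 7994133)]) (PF.cons PF.nil PF.nil)) (PF.cons PF.nil PF.nil))) (PF.cons (PF.cons (PF.cons (PF.leaf (nat_lit 9269407) (nat_lit 3527832) (nat_lit 33025078) (nat_lit 12135751) [(nat_lit 0), (nat_lit 0), (nat_lit 3527832), (nat_lit 7836651)]) (PF.cons PF.nil PF.nil)) (PF.cons PF.nil PF.nil)) (PF.cons PF.nil PF.nil)))))) (PF.cons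 (PF.cons (PF.cons (PF.cons (PF.leaf (nat_lit 6547418) (nat_lit 8252402) (nat_lit 37541614) (nat_lit 13062393) [(nat_lit 0), (nat_lit 0), (nat_lit 0), (nat_lit 8252402)]) (PF.cons (PF.leaf (nat_lit 6821301)
 (nat_lit 500542) (nat_lit 37168889) (nat_lit 12991763) [(nat_lit 500542), (nat_lit 0), (nat_lit 0), (nat_lit 8223808)]) (PF.cons (PF.leaf (nat_lit 7108652) (nat_lit 512547) (nat_lit 36781439) (nat_lit 12916930) [(nat_lit 512547), (nat_lit 0), (nat_lit 0), (nat_lit 8192674)]) (PF.cons (PF.leaf (nat_lit 7406308) (nat_lit 522844) (nat_lit 36383292) (nat_lit 12838549) [(nat_lit 522844), (nat_lit 0), (nat_lit 0), (nat_lit 8159219)]) (PF.cons (PF.leaf (nat_lit 7712183) (nat_lit 531742) (nat_lit 35977459) (nat_lit 12757127) [(nat_lit 531742), (nat_lit 0), (nat_lit 0), (nat_lit 8123627)]) (PF.cons (PF.leaf (nat_lit 8024637) (nat_lit 539466) (nat_lit 35566279) (nat_lit 12673075) [(nat_lit 539466), (nat_lit 0), (nat_lit 0), (nat_lit 8086062)]) (PF.cons PF.nil PF.nil)))))))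 (PF.cons (PF.cons (PF.leaf (nat_lit 7206909) (nat_lit 1620432) (nat_lit 36354692) (nat_lit 12829369) [(nat_lit 0), (nat_lit 1620432), (nat_lit 0), (nat_lit 8152158)]) (PF.cons (PF.leaf (nat_lit 7496343) (nat_lit 521845) (nat_lit 35968506) (nat_lit 12751882) [(nat_lit 521845), (nat_lit 1629879), (nat_lit 0), (nat_lit 8118349)]) (PF.cons (PF.leaf (nat_lit 7795349) (nat_lit 530746) (nat_lit 35573400) (nat_lit 12671175)
 [(nat_lit 530746), (nat_lit 1637995), (nat_lit 0), (nat_lit 8082373)]) (PF.cons (PF.leaf (nat_lit 8101660) (nat_lit 538425) (nat_lit 35172103) (nat_lit 12587735) [(nat_lit 538425), (nat_lit 1644843), (nat_lit 0), (nat_lit 8044426)]) (PF.cons (PF.leaf (nat_lit 8413752) (nat_lit 545070) (nat_lit 34766723) (nat_lit 12501958) [(nat_lit 545070), (nat_lit 1650493), (nat_lit 0), (nat_lit 8004677)]) PF.nil))))) (PF.cons (PF.cons (PF.leaf (nat_lit 7880310) (nat_lit 1636900) (nat_lit 35170719) (nat_lit 12584160) [(nat_lit 0), (nat_lit 1636900), (nat_lit 0), (nat_lit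 8040066)]) (PF.cons (PF.leaf (nat_lit 8179569) (nat_lit 537042) (nat_lit 34780181) (nat_lit 12501607) [(nat_lit 537042), (nat_lit 1643080), (nat_lit 0), (nat_lit 8001910)]) (PF.cons (PF.leaf (nat_lit 8485629) (nat_lit 543673) (nat_lit 34384692) (nat_lit 12416606) [(nat_lit 543673), (nat_lit 1648139), (nat_lit 0), (nat_lit 7961943)]) (PF.cons PF.nil PF.nil)))) (PF.cons (PF.cons (PF.leaf (nat_lit 8558760) (nat_lit 1645418) (nat_lit 34005036) (nat_lit 12330609) [(nat_lit 0), (nat_lit 1645418), (nat_lit 0), (nat_lit 7918454)]) (PF.cons (PF.leaf (nat_lit 8863702) (nat_lit 547691) (nat_lit 33616326) (nat_lit 12244452) [(nat_lit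
 547691), (nat_lit 1648929), (nat_lit 0), (nat_lit 7876776)]) PF.nil)) (PF.cons PF.nil (PF.cons PF.nil PF.nil)))))) (PF.cons (PF.cons (PF.cons (PF.leaf (nat_lit 7651338) (nat_lit 3526439) (nat_lit 35020744) (nat_lit 12540518) [(nat_lit 0), (nat_lit 0), (nat_lit 3526439), (nat_lit 8010554)]) (PF.cons (PF.leaf (nat_lit 7937689) (nat_lit 523692) (nat_lit 34650254) (nat_lit 12462084) [(nat_lit 523692), (nat_lit 0), (nat_lit 3523849), (nat_lit 7974465)]) (PF.cons (PF.leaf (nat_lit 8232945) (nat_lit 531729) (nat_lit 34271893) (nat_lit 12380698) [(nat_lit 531729), (nat_lit 0), (nat_lit 3520004), (nat_lit 7936378)]) (PF.cons (PF.leaf (nat_lit 8534881) (nat_lit 538598) (nat_lit 33888214) (nat_lit 12296853) [(nat_lit 538598), (nat_lit 0), (nat_lit 3514935), (nat_lit 7896507)]) (PF.cons PF.nil PF.nil))))) (PF.cons (PF.cons (PF.leaf (nat_lit 8311806) (nat_lit 1629357) (nat_lit 33890229) (nat_lit 12294234) [(nat_lit 0), (nat_lit 1629357), (nat_lit 3509371), (nat_lit 7892810)]) (PF.cons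 (PF.leaf (nat_lit 8606790) (nat_lit 536768) (nat_lit 33517066) (nat_lit 12211494) [(nat_lit 536768), (nat_lit 1633887), (nat_lit 3503676), (nat_lit 7852959)]) (PF.cons (PF.leaf (nat_lit 8908029) (nat_lit 542687)
 (nat_lit 33139662) (nat_lit 12126559) [(nat_lit 542687), (nat_lit 1637400), (nat_lit 3496860), (nat_lit 7811478)]) (PF.cons PF.nil PF.nil)))) (PF.cons (PF.cons (PF.leaf (nat_lit 8975429) (nat_lit 1633730) (nat_lit 32780476) (nat_lit 12041691) [(nat_lit 0), (nat_lit 1633730), (nat_lit 3484547), (nat_lit 7767318)]) (PF.cons PF.nil PF.nil)) (PF.cons PF.nil (PF.cons PF.nil PF.nil))))) (PF.cons (PF.cons (PF.cons (PF.leaf (nat_lit 8726900) (nat_lit 3467506) (nat_lit 32678797) (nat_lit 12008153) [(nat_lit 0), (nat_lit 0), (nat_lit 3467506), (nat_lit 7743424)]) (PF.cons (PF.leaf (nat_lit 9017350) (nat_lit 535337) (nat_lit 32322704) (nat_lit 11925785) [(nat_lit 535337), (nat_lit 0), (nat_lit 3460073), (nat_lit 7702418)]) (PF.cons PF.nil (PF.cons PF.nil PF.nil)))) (PF.cons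 (PF.cons (PF.leaf (nat_lit 9375716) (nat_lit 1619681) (nat_lit 31623277) (nat_lit 11758107) [(nat_lit 0), (nat_lit 1619681), (nat_lit 3438328), (nat_lit 7615544)]) (PF.cons PF.nil PF.nil)) (PF.cons PF.nil PF.nil))) (PF.cons (PF.cons (PF.cons (PF.leaf (nat_lit 9760555) (nat_lit 3389862) (nat_lit 30529809) (nat_lit 11480856) [(nat_lit 0), (nat_lit 0), (nat_lit 3389862), (nat_lit 7464279)]) (PF.cons PF.nil PF.nil)) (PF.cons
 PF.nil PF.nil)) (PF.cons PF.nil PF.nil))))) (PF.cons (PF.cons (PF.cons (PF.cons (PF.leaf (nat_lit 8218339) (nat_lit 7645355) (nat_lit 32299902) (nat_lit 11872842) [(nat_lit 0), (nat_lit 0), (nat_lit 0), (nat_lit 7645355)]) (PF.cons (PF.leaf (nat_lit 8492885) (nat_lit 510444) (nat_lit 31973774) (nat_lit 11797917) [(nat_lit 510444), (nat_lit 0), (nat_lit 0), (nat_lit 7608892)]) (PF.cons (PF.leaf (nat_lit 8775683) (nat_lit 517722) (nat_lit 31640851) (nat_lit 11720430) [(nat_lit 517722), (nat_lit 0), (nat_lit 0), (nat_lit 7570695)]) (PF.cons (PF.leaf (nat_lit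 9064581) (nat_lit 523883) (nat_lit 31303351) (nat_lit 11640855) [(nat_lit 523883), (nat_lit 0), (nat_lit 0), (nat_lit 7530985)]) (PF.cons PF.nil PF.nil))))) (PF.cons (PF.cons (PF.leaf (nat_lit 8846322) (nat_lit 1578748) (nat_lit 31307069) (nat_lit 11639058) [(nat_lit 0), (nat_lit 1578748), (nat_lit 0), (nat_lit 7527979)]) (PF.cons (PF.leaf (nat_lit 9128583) (nat_lit 521748) (nat_lit 30978786) (nat_lit 11560741) [(nat_lit 521748), (nat_lit 1581965), (nat_lit 0), (nat_lit 7488523)]) (PF.cons PF.nil (PF.cons PF.nil PF.nil)))) (PF.cons (PF.cons (PF.leaf (nat_lit 9476625) (nat_lit 1579957) (nat_lit 30332578) (nat_lit 11401266)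
 [(nat_lit 0), (nat_lit 1579957), (nat_lit 0), (nat_lit 7405017)]) (PF.cons PF.nil PF.nil)) PF.nil))) (PF.cons (PF.cons (PF.cons (PF.leaf (nat_lit 9233028) (nat_lit 3336885) (nat_lit 30248654) (nat_lit 11371939) [(nat_lit 0), (nat_lit 0), (nat_lit 3336885), (nat_lit 7383777)]) (PF.cons (PF.leaf (nat_lit 9510980) (nat_lit 519502) (nat_lit 29935061) (nat_lit 11294507) [(nat_lit 519502), (nat_lit 0), (nat_lit 3328402), (nat_lit 7343779)]) (PF.cons PF.nil PF.nil))) (PF.cons (PF.cons (PF.leaf (nat_lit 9849798) (nat_lit 1564616) (nat_lit 29320572) (nat_lit 11137919) [(nat_lit 0), (nat_lit 1564616), (nat_lit 3305479), (nat_lit 7260075)]) PF.nil) PF.nil)) (PF.cons PF.nil PF.nil))) (PF.cons (PF.cons (PF.cons (PF.cons (PF.leaf (nat_lit 9697570) (nat_lit 7047113) (nat_lit 28132112) (nat_lit 10788245) [(nat_lit 0), (nat_lit 0), (nat_lit 0), (nat_lit 7047113)]) (PF.cons (PF.leaf (nat_lit 9964129) (nat_lit 503749) (nat_lit 27854401) (nat_lit 10715911) [(nat_lit 503749), (nat_lit 0),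 (nat_lit 0), (nat_lit 7008687)]) PF.nil)) (PF.cons PF.nil PF.nil)) (PF.cons PF.nil PF.nil)) (PF.cons PF.nil (PF.cons PF.nil (PF.cons PF.nil PF.nil))))))))

def p14_15_2_0 : pfC (piC [(nat_lit 36888796), (nat_lit 24534081), (nat_lit 18263511), (nat_lit 12310016)] (nat_lit 7072463)) p14_15_2 (nat_lit 4) (nat_lit 0) (nat_lit 1) = true := by decide +kernel
def p14_15_2_1 : pfC (piC [(nat_lit 36888796), (nat_lit 24534081), (nat_lit 18263511), (nat_lit 12310016)] (nat_lit 7072463)) p14_15_2 (nat_lit 4) (nat_lit 1) (nat_lit 2) = true := by decide +kernel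
def p14_15_2_2 : pfC (piC [(nat_lit 36888796), (nat_lit 24534081), (nat_lit 18263511), (nat_lit 12310016)] (nat_lit 7072463)) p14_15_2 (nat_lit 4) (nat_lit 2) (nat_lit 3) = true := by decide +kernel
def p14_15_2_3 : pfC (piC [(nat_lit 36888796), (nat_lit 24534081), (nat_lit 18263511), (nat_lit 12310016)] (nat_lit 7072463)) p14_15_2 (nat_lit 4) (nat_lit 3) (nat_lit 4) = true := by decide +kernel
def p14_15_2_4 : pfC (piC [(nat_lit 36888796), (nat_lit 24534081), (nat_lit 18263511), (nat_lit 12310016)] (nat_lit 7072463)) p14_15_2 (nat_lit 4) (nat_lit 4) (nat_lit 5) = true := by decide +kernel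
def p14_15_2_5 : pfC (piC [(nat_lit 36888796), (nat_lit 24534081), (nat_lit 18263511), (nat_lit 12310016)] (nat_lit 7072463)) p14_15_2 (nat_lit 4) (nat_lit 5) (nat_lit 6) = true := by decide +kernel
def p14_15_2_6 : pfC (piC [(nat_lit 36888796), (nat_lit 24534081), (nat_lit 18263511), (nat_lit 12310016)] (nat_lit 7072463)) p14_15_2 (nat_lit 4) (nat_lit 6) (nat_lit 7) = true := by decide +kernel
def p14_15_2_7 : pfC (piC [(nat_lit 36888796), (nat_lit 24534081), (nat_lit 18263511), (nat_lit 12310016)] (nat_lit 7072463)) p14_15_2 (nat_lit 4) (nat_lit 7) (nat_lit 8) = true := by decide +kernel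
def p14_15_2_8 : pfC (piC [(nat_lit 36888796), (nat_lit 24534081), (nat_lit 18263511), (nat_lit 12310016)] (nat_lit 7072463)) p14_15_2 (nat_lit 4) (nat_lit 8) (nat_lit 9) = true := by decide +kernel
def p14_15_2_9 : pfC (piC [(nat_lit 36888796), (nat_lit 24534081), (nat_lit 18263511), (nat_lit 12310016)] (nat_lit 7072463)) p14_15_2 (nat_lit 4) (nat_lit 9) (nat_lit 10) = true := by decide +kernel
def p14_15_2_10 : pfC (piC [(nat_lit 36888796), (nat_lit 24534081), (nat_lit 18263511), (nat_lit 12310016)] (nat_lit 7072463)) p14_15_2 (nat_lit 4) (nat_lit 10) (nat_lit 11) = true := by decide +kernel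
def p14_15_2_11 : pfC (piC [(nat_lit 36888796), (nat_lit 24534081), (nat_lit 18263511), (nat_lit 12310016)] (nat_lit 7072463)) p14_15_2 (nat_lit 4) (nat_lit 11) (nat_lit 12) = true := by decide +kernel
def p14_15_2_12 : pfC (piC [(nat_lit 36888796), (nat_lit 24534081), (nat_lit 18263511), (nat_lit 12310016)] (nat_lit 7072463)) p14_15_2 (nat_lit 4) (nat_lit 12) (nat_lit 13) = true := by decide +kernel
def p14_15_2_13 : pfC (piC [(nat_lit 36888796), (nat_lit 24534081), (nat_lit 18263511), (nat_lit 12310016)] (nat_lit 7072463)) p14_15_2 (nat_lit 4) (nat_lit 13) (nat_lit 14) = true := by decide +kernel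
def p14_15_2_14 : pfC (piC [(nat_lit 36888796), (nat_lit 24534081), (nat_lit 18263511), (nat_lit 12310016)] (nat_lit 7072463)) p14_15_2 (nat_lit 4) (nat_lit 14) (nat_lit 15) = true := by decide +kernel
def p14_15_2_15 : pfC (piC [(nat_lit 36888796), (nat_lit 24534081), (nat_lit 18263511), (nat_lit 12310016)] (nat_lit 7072463)) p14_15_2 (nat_lit 4) (nat_lit 15) (nat_lit 16) = true := by decide +kernel
def p14_15_2_16 : pfC (piC [(nat_lit 36888796), (nat_lit 24534081), (nat_lit 18263511), (nat_lit 12310016)] (nat_lit 7072463)) p14_15_2 (nat_lit 4) (nat_lit 16) (nat_lit 17) = true := by decide +kernel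
def p14_15_2_17 : pfC (piC [(nat_lit 36888796), (nat_lit 24534081), (nat_lit 18263511), (nat_lit 12310016)] (nat_lit 7072463)) p14_15_2 (nat_lit 4) (nat_lit 17) (nat_lit 18) = true := by decide +kernel
def p14_15_2_18 : pfC (piC [(nat_lit 36888796), (nat_lit 24534081), (nat_lit 18263511), (nat_lit 12310016)] (nat_lit 7072463)) p14_15_2 (nat_lit 4) (nat_lit 18) (nat_lit 19) = true := by decide +kernel
def p14_15_2_19 : pfC (piC [(nat_lit 36888796), (nat_lit 24534081), (nat_lit 18263511), (nat_lit 12310016)] (nat_lit 7072463)) p14_15_2 (nat_lit 4) (nat_lit 19) (nat_lit 20) = true := by decide +kernel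
def p14_15_2_20 : pfC (piC [(nat_lit 36888796), (nat_lit 24534081), (nat_lit 18263511), (nat_lit 12310016)] (nat_lit 7072463)) p14_15_2 (nat_lit 4) (nat_lit 20) (nat_lit 21) = true := by decide +kernel
def p14_15_2_21 : pfC (piC [(nat_lit 36888796), (nat_lit 24534081), (nat_lit 18263511), (nat_lit 12310016)] (nat_lit 7072463)) p14_15_2 (nat_lit 4) (nat_lit 21) (nat_lit 22) = true := by decide +kernel
def p14_15_2_22 : pfC (piC [(nat_lit 36888796), (nat_lit 24534081), (nat_lit 18263511), (nat_lit 12310016)] (nat_lit 7072463)) p14_15_2 (nat_lit 4) (nat_lit 22) (nat_lit 23) = true := by decide +kernel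
def p14_15_2_23 : pfC (piC [(nat_lit 36888796), (nat_lit 24534081), (nat_lit 18263511), (nat_lit 12310016)] (nat_lit 7072463)) p14_15_2 (nat_lit 4) (nat_lit 23) (nat_lit 24) = true := by decide +kernel
def p14_15_2_24 : pfC (piC [(nat_lit 36888796), (nat_lit 24534081), (nat_lit 18263511), (nat_lit 12310016)] (nat_lit 7072463)) p14_15_2 (nat_lit 4) (nat_lit 24) (nat_lit 25) = true := by decide +kernel
def p14_15_2_25 : pfC (piC [(nat_lit 36888796), (nat_lit 24534081), (nat_lit 18263511), (nat_lit 12310016)] (nat_lit 7072463)) p14_15_2 (nat_lit 4) (nat_lit 25) (nat_lit 26) = true := by decide +kernel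
def p14_15_2_26 : pfC (piC [(nat_lit 36888796), (nat_lit 24534081), (nat_lit 18263511), (nat_lit 12310016)] (nat_lit 7072463)) p14_15_2 (nat_lit 4) (nat_lit 26) (nat_lit 27) = true := by decide +kernel
def p14_15_2_27 : pfC (piC [(nat_lit 36888796), (nat_lit 24534081), (nat_lit 18263511), (nat_lit 12310016)] (nat_lit 7072463)) p14_15_2 (nat_lit 4) (nat_lit 27) (nat_lit 28) = true := by decide +kernel
def p14_15_2_28 : pfC (piC [(nat_lit 36888796), (nat_lit 24534081), (nat_lit 18263511), (nat_lit 12310016)] (nat_lit 7072463)) p14_15_2 (nat_lit 4) (nat_lit 28) (nat_lit 29) = true := by decide +kernel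
def p14_15_2_29 : pfC (piC [(nat_lit 36888796), (nat_lit 24534081), (nat_lit 18263511), (nat_lit 12310016)] (nat_lit 7072463)) p14_15_2 (nat_lit 4) (nat_lit 29) (nat_lit 30) = true := by decide +kernel
def p14_15_2_30 : pfC (piC [(nat_lit 36888796), (nat_lit 24534081), (nat_lit 18263511), (nat_lit 12310016)] (nat_lit 7072463)) p14_15_2 (nat_lit 4) (nat_lit 30) (nat_lit 31) = true := by decide +kernel
def p14_15_2_31 : pfC (piC [(nat_lit 36888796), (nat_lit 24534081), (nat_lit 18263511), (nat_lit 12310016)] (nat_lit 7072463)) p14_15_2 (nat_lit 4) (nat_lit 31) (nat_lit 32) = true := by decide +kernel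
def p14_15_2_32 : pfC (piC [(nat_lit 36888796), (nat_lit 24534081), (nat_lit 18263511), (nat_lit 12310016)] (nat_lit 7072463)) p14_15_2 (nat_lit 4) (nat_lit 32) (nat_lit 33) = true := by decide +kernel
def p14_15_2_33 : pfC (piC [(nat_lit 36888796), (nat_lit 24534081), (nat_lit 18263511), (nat_lit 12310016)] (nat_lit 7072463)) p14_15_2 (nat_lit 4) (nat_lit 33) (nat_lit 34) = true := by decide +kernel
def p14_15_2_34 : pfC (piC [(nat_lit 36888796), (nat_lit 24534081), (nat_lit 18263511), (nat_lit 12310016)] (nat_lit 7072463)) p14_15_2 (nat_lit 4) (nat_lit 34) (nat_lit 35) = true := by decide +kernel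
def p14_15_2_35 : pfC (piC [(nat_lit 36888796), (nat_lit 24534081), (nat_lit 18263511), (nat_lit 12310016)] (nat_lit 7072463)) p14_15_2 (nat_lit 4) (nat_lit 35) (nat_lit 36) = true := by decide +kernel
def p14_15_2_36 : pfC (piC [(nat_lit 36888796), (nat_lit 24534081), (nat_lit 18263511), (nat_lit 12310016)] (nat_lit 7072463)) p14_15_2 (nat_lit 4) (nat_lit 36) (nat_lit 37) = true := by decide +kernel
def p14_15_2_37 : pfC (piC [(nat_lit 36888796), (nat_lit 24534081), (nat_lit 18263511), (nat_lit 12310016)] (nat_lit 7072463)) p14_15_2 (nat_lit 4) (nat_lit 37) (nat_lit 38) = true := by decide +kernel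
def p14_15_2_38 : pfC (piC [(nat_lit 36888796), (nat_lit 24534081), (nat_lit 18263511), (nat_lit 12310016)] (nat_lit 7072463)) p14_15_2 (nat_lit 4) (nat_lit 38) (nat_lit 39) = true := by decide +kernel
def p14_15_2_39 : pfC (piC [(nat_lit 36888796), (nat_lit 24534081), (nat_lit 18263511), (nat_lit 12310016)] (nat_lit 7072463)) p14_15_2 (nat_lit 4) (nat_lit 39) (nat_lit 40) = true := by decide +kernel
def p14_15_2_40 : pfC (piC [(nat_lit 36888796), (nat_lit 24534081), (nat_lit 18263511), (nat_lit 12310016)] (nat_lit 7072463)) p14_15_2 (nat_lit 4) (nat_lit 40) (nat_lit 41) = true := by decide +kernel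
def p14_15_2_41 : pfC (piC [(nat_lit 36888796), (nat_lit 24534081), (nat_lit 18263511), (nat_lit 12310016)] (nat_lit 7072463)) p14_15_2 (nat_lit 4) (nat_lit 41) (nat_lit 42) = true := by decide +kernel
def p14_15_2_42 : pfC (piC [(nat_lit 36888796), (nat_lit 24534081), (nat_lit 18263511), (nat_lit 12310016)] (nat_lit 7072463)) p14_15_2 (nat_lit 4) (nat_lit 42) (nat_lit 43) = true := by decide +kernel
def p14_15_2_43 : pfC (piC [(nat_lit 36888796), (nat_lit 24534081), (nat_lit 18263511), (nat_lit 12310016)] (nat_lit 7072463)) p14_15_2 (nat_lit 4) (nat_lit 43) (nat_lit 44) = true := by decide +kernel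
def p14_15_2_44 : pfC (piC [(nat_lit 36888796), (nat_lit 24534081), (nat_lit 18263511), (nat_lit 12310016)] (nat_lit 7072463)) p14_15_2 (nat_lit 4) (nat_lit 44) (nat_lit 45) = true := by decide +kernel
def p14_15_2_45 : pfC (piC [(nat_lit 36888796), (nat_lit 24534081), (nat_lit 18263511), (nat_lit 12310016)] (nat_lit 7072463)) p14_15_2 (nat_lit 4) (nat_lit 45) (nat_lit 46) = true := by decide +kernel
def p14_15_2_46 : pfC (piC [(nat_lit 36888796), (nat_lit 24534081), (nat_lit 18263511), (nat_lit 12310016)] (nat_lit 7072463)) p14_15_2 (nat_lit 4) (nat_lit 46) (nat_lit 47) = true := by decide +kernel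
def p14_15_2_47 : pfC (piC [(nat_lit 36888796), (nat_lit 24534081), (nat_lit 18263511), (nat_lit 12310016)] (nat_lit 7072463)) p14_15_2 (nat_lit 4) (nat_lit 47) (nat_lit 48) = true := by decide +kernel
def p14_15_2_48 : pfC (piC [(nat_lit 36888796), (nat_lit 24534081), (nat_lit 18263511), (nat_lit 12310016)] (nat_lit 7072463)) p14_15_2 (nat_lit 4) (nat_lit 48) (nat_lit 49) = true := by decide +kernel
def p14_15_2_49 : pfC (piC [(nat_lit 36888796), (nat_lit 24534081), (nat_lit 18263511), (nat_lit 12310016)] (nat_lit 7072463)) p14_15_2 (nat_lit 4) (nat_lit 49) (nat_lit 50) = true := by decide +kernel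
def p14_15_2_50 : pfC (piC [(nat_lit 36888796), (nat_lit 24534081), (nat_lit 18263511), (nat_lit 12310016)] (nat_lit 7072463)) p14_15_2 (nat_lit 4) (nat_lit 50) (nat_lit 51) = true := by decide +kernel
def p14_15_2_51 : pfC (piC [(nat_lit 36888796), (nat_lit 24534081), (nat_lit 18263511), (nat_lit 12310016)] (nat_lit 7072463)) p14_15_2 (nat_lit 4) (nat_lit 51) (nat_lit 52) = true := by decide +kernel
def p14_15_2_52 : pfC (piC [(nat_lit 36888796), (nat_lit 24534081), (nat_lit 18263511), (nat_lit 12310016)] (nat_lit 7072463)) p14_15_2 (nat_lit 4) (nat_lit 52) (nat_lit 53) = true := by decide +kernel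
def p14_15_2_53 : pfC (piC [(nat_lit 36888796), (nat_lit 24534081), (nat_lit 18263511), (nat_lit 12310016)] (nat_lit 7072463)) p14_15_2 (nat_lit 4) (nat_lit 53) (nat_lit 54) = true := by decide +kernel
def p14_15_2_54 : pfC (piC [(nat_lit 36888796), (nat_lit 24534081), (nat_lit 18263511), (nat_lit 12310016)] (nat_lit 7072463)) p14_15_2 (nat_lit 4) (nat_lit 54) (nat_lit 55) = true := by decide +kernel
def p14_15_2_55 : pfC (piC [(nat_lit 36888796), (nat_lit 24534081), (nat_lit 18263511), (nat_lit 12310016)] (nat_lit 7072463)) p14_15_2 (nat_lit 4) (nat_lit 55) (nat_lit 56) = true := by decide +kernel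
def p14_15_2_56 : pfC (piC [(nat_lit 36888796), (nat_lit 24534081), (nat_lit 18263511), (nat_lit 12310016)] (nat_lit 7072463)) p14_15_2 (nat_lit 4) (nat_lit 56) (nat_lit 57) = true := by decide +kernel
def p14_15_2_57 : pfC (piC [(nat_lit 36888796), (nat_lit 24534081), (nat_lit 18263511), (nat_lit 12310016)] (nat_lit 7072463)) p14_15_2 (nat_lit 4) (nat_lit 57) (nat_lit 58) = true := by decide +kernel
def p14_15_2_58 : pfC (piC [(nat_lit 36888796), (nat_lit 24534081), (nat_lit 18263511), (nat_lit 12310016)] (nat_lit 7072463)) p14_15_2 (nat_lit 4) (nat_lit 58) (nat_lit 59) = true := by decide +kernel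
def p14_15_2_59 : pfC (piC [(nat_lit 36888796), (nat_lit 24534081), (nat_lit 18263511), (nat_lit 12310016)] (nat_lit 7072463)) p14_15_2 (nat_lit 4) (nat_lit 59) (nat_lit 60) = true := by decide +kernel
def p14_15_2_60 : pfC (piC [(nat_lit 36888796), (nat_lit 24534081), (nat_lit 18263511), (nat_lit 12310016)] (nat_lit 7072463)) p14_15_2 (nat_lit 4) (nat_lit 60) (nat_lit 61) = true := by decide +kernel
def p14_15_2_61 : pfC (piC [(nat_lit 36888796), (nat_lit 24534081), (nat_lit 18263511), (nat_lit 12310016)] (nat_lit 7072463)) p14_15_2 (nat_lit 4) (nat_lit 61) (nat_lit 62) = true := by decide +kernel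
def p14_15_2_62 : pfC (piC [(nat_lit 36888796), (nat_lit 24534081), (nat_lit 18263511), (nat_lit 12310016)] (nat_lit 7072463)) p14_15_2 (nat_lit 4) (nat_lit 62) (nat_lit 63) = true := by decide +kernel
def p14_15_2_63 : pfC (piC [(nat_lit 36888796), (nat_lit 24534081), (nat_lit 18263511), (nat_lit 12310016)] (nat_lit 7072463)) p14_15_2 (nat_lit 4) (nat_lit 63) (nat_lit 64) = true := by decide +kernel
def p14_15_2_64 : pfC (piC [(nat_lit 36888796), (nat_lit 24534081), (nat_lit 18263511), (nat_lit 12310016)] (nat_lit 7072463)) p14_15_2 (nat_lit 4) (nat_lit 64) (nat_lit 65) = true := by decide +kernel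
def p14_15_2_65 : pfC (piC [(nat_lit 36888796), (nat_lit 24534081), (nat_lit 18263511), (nat_lit 12310016)] (nat_lit 7072463)) p14_15_2 (nat_lit 4) (nat_lit 65) (nat_lit 66) = true := by decide +kernel
def p14_15_2_66 : pfC (piC [(nat_lit 36888796), (nat_lit 24534081), (nat_lit 18263511), (nat_lit 12310016)] (nat_lit 7072463)) p14_15_2 (nat_lit 4) (nat_lit 66) (nat_lit 67) = true := by decide +kernel
def p14_15_2_67 : pfC (piC [(nat_lit 36888796), (nat_lit 24534081), (nat_lit 18263511), (nat_lit 12310016)] (nat_lit 7072463)) p14_15_2 (nat_lit 4) (nat_lit 67) (nat_lit 68) = true := by decide +kernel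
def p14_15_2_68 : pfC (piC [(nat_lit 36888796), (nat_lit 24534081), (nat_lit 18263511), (nat_lit 12310016)] (nat_lit 7072463)) p14_15_2 (nat_lit 4) (nat_lit 68) (nat_lit 69) = true := by decide +kernel
def p14_15_2_69 : pfC (piC [(nat_lit 36888796), (nat_lit 24534081), (nat_lit 18263511), (nat_lit 12310016)] (nat_lit 7072463)) p14_15_2 (nat_lit 4) (nat_lit 69) (nat_lit 70) = true := by decide +kernel
def p14_15_2_70 : pfC (piC [(nat_lit 36888796), (nat_lit 24534081), (nat_lit 18263511), (nat_lit 12310016)] (nat_lit 7072463)) p14_15_2 (nat_lit 4) (nat_lit 70) (nat_lit 71) = true := by decide +kernel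
def p14_15_2_71 : pfC (piC [(nat_lit 36888796), (nat_lit 24534081), (nat_lit 18263511), (nat_lit 12310016)] (nat_lit 7072463)) p14_15_2 (nat_lit 4) (nat_lit 71) (nat_lit 72) = true := by decide +kernel
def p14_15_2_72 : pfC (piC [(nat_lit 36888796), (nat_lit 24534081), (nat_lit 18263511), (nat_lit 12310016)] (nat_lit 7072463)) p14_15_2 (nat_lit 4) (nat_lit 72) (nat_lit 73) = true := by decide +kernel
def p14_15_2_73 : pfC (piC [(nat_lit 36888796), (nat_lit 24534081), (nat_lit 18263511), (nat_lit 12310016)] (nat_lit 7072463)) p14_15_2 (nat_lit 4) (nat_lit 73) (nat_lit 74) = true := by decide +kernel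
def p14_15_2_74 : pfC (piC [(nat_lit 36888796), (nat_lit 24534081), (nat_lit 18263511), (nat_lit 12310016)] (nat_lit 7072463)) p14_15_2 (nat_lit 4) (nat_lit 74) (nat_lit 75) = true := by decide +kernel
def p14_15_2_75 : pfC (piC [(nat_lit 36888796), (nat_lit 24534081), (nat_lit 18263511), (nat_lit 12310016)] (nat_lit 7072463)) p14_15_2 (nat_lit 4) (nat_lit 75) (nat_lit 76) = true := by decide +kernel
def p14_15_2_76 : pfC (piC [(nat_lit 36888796), (nat_lit 24534081), (nat_lit 18263511), (nat_lit 12310016)] (nat_lit 7072463)) p14_15_2 (nat_lit 4) (nat_lit 76) (nat_lit 77) = true := by decide +kernel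
def p14_15_2_77 : pfC (piC [(nat_lit 36888796), (nat_lit 24534081), (nat_lit 18263511), (nat_lit 12310016)] (nat_lit 7072463)) p14_15_2 (nat_lit 4) (nat_lit 77) (nat_lit 78) = true := by decide +kernel
def p14_15_2_78 : pfC (piC [(nat_lit 36888796), (nat_lit 24534081), (nat_lit 18263511), (nat_lit 12310016)] (nat_lit 7072463)) p14_15_2 (nat_lit 4) (nat_lit 78) (nat_lit 79) = true := by decide +kernel
def p14_15_2_79 : pfC (piC [(nat_lit 36888796), (nat_lit 24534081), (nat_lit 18263511), (nat_lit 12310016)] (nat_lit 7072463)) p14_15_2 (nat_lit 4) (nat_lit 79) (nat_lit 80) = true := by decide +kernel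
def p14_15_2_80 : pfC (piC [(nat_lit 36888796), (nat_lit 24534081), (nat_lit 18263511), (nat_lit 12310016)] (nat_lit 7072463)) p14_15_2 (nat_lit 4) (nat_lit 80) (nat_lit 81) = true := by decide +kernel
def p14_15_2_81 : pfC (piC [(nat_lit 36888796), (nat_lit 24534081), (nat_lit 18263511), (nat_lit 12310016)] (nat_lit 7072463)) p14_15_2 (nat_lit 4) (nat_lit 81) (nat_lit 82) = true := by decide +kernel
def p14_15_2_82 : pfC (piC [(nat_lit 36888796), (nat_lit 24534081), (nat_lit 18263511), (nat_lit 12310016)] (nat_lit 7072463)) p14_15_2 (nat_lit 4) (nat_lit 82) (nat_lit 83) = true := by decide +kernel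
def p14_15_2_83 : pfC (piC [(nat_lit 36888796), (nat_lit 24534081), (nat_lit 18263511), (nat_lit 12310016)] (nat_lit 7072463)) p14_15_2 (nat_lit 4) (nat_lit 83) (nat_lit 84) = true := by decide +kernel
def p14_15_2_84 : pfC (piC [(nat_lit 36888796), (nat_lit 24534081), (nat_lit 18263511), (nat_lit 12310016)] (nat_lit 7072463)) p14_15_2 (nat_lit 4) (nat_lit 84) (nat_lit 85) = true := by decide +kernel
def p14_15_2_85 : pfC (piC [(nat_lit 36888796), (nat_lit 24534081), (nat_lit 18263511), (nat_lit 12310016)] (nat_lit 7072463)) p14_15_2 (nat_lit 4) (nat_lit 85) (nat_lit 86) = true := by decide +kernel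
def p14_15_2_86 : pfC (piC [(nat_lit 36888796), (nat_lit 24534081), (nat_lit 18263511), (nat_lit 12310016)] (nat_lit 7072463)) p14_15_2 (nat_lit 4) (nat_lit 86) (nat_lit 87) = true := by decide +kernel
def p14_15_2_87 : pfC (piC [(nat_lit 36888796), (nat_lit 24534081), (nat_lit 18263511), (nat_lit 12310016)] (nat_lit 7072463)) p14_15_2 (nat_lit 4) (nat_lit 87) (nat_lit 88) = true := by decide +kernel
def p14_15_2_88 : pfC (piC [(nat_lit 36888796), (nat_lit 24534081), (nat_lit 18263511), (nat_lit 12310016)] (nat_lit 7072463)) p14_15_2 (nat_lit 4) (nat_lit 88) (nat_lit 89) = true := by decide +kernel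
def p14_15_2_89 : pfC (piC [(nat_lit 36888796), (nat_lit 24534081), (nat_lit 18263511), (nat_lit 12310016)] (nat_lit 7072463)) p14_15_2 (nat_lit 4) (nat_lit 89) (nat_lit 90) = true := by decide +kernel
def p14_15_2_90 : pfC (piC [(nat_lit 36888796), (nat_lit 24534081), (nat_lit 18263511), (nat_lit 12310016)] (nat_lit 7072463)) p14_15_2 (nat_lit 4) (nat_lit 90) (nat_lit 91) = true := by decide +kernel
def p14_15_2_91 : pfC (piC [(nat_lit 36888796), (nat_lit 24534081), (nat_lit 18263511), (nat_lit 12310016)] (nat_lit 7072463)) p14_15_2 (nat_lit 4) (nat_lit 91) (nat_lit 92) = true := by decide +kernel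
def p14_15_2_92 : pfC (piC [(nat_lit 36888796), (nat_lit 24534081), (nat_lit 18263511), (nat_lit 12310016)] (nat_lit 7072463)) p14_15_2 (nat_lit 4) (nat_lit 92) (nat_lit 93) = true := by decide +kernel
def p14_15_2_93 : pfC (piC [(nat_lit 36888796), (nat_lit 24534081), (nat_lit 18263511), (nat_lit 12310016)] (nat_lit 7072463)) p14_15_2 (nat_lit 4) (nat_lit 93) (nat_lit 94) = true := by decide +kernel
def p14_15_2_94 : pfC (piC [(nat_lit 36888796), (nat_lit 24534081), (nat_lit 18263511), (nat_lit 12310016)] (nat_lit 7072463)) p14_15_2 (nat_lit 4) (nat_lit 94) (nat_lit 95) = true := by decide +kernel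
def p14_15_2_95 : pfC (piC [(nat_lit 36888796), (nat_lit 24534081), (nat_lit 18263511), (nat_lit 12310016)] (nat_lit 7072463)) p14_15_2 (nat_lit 4) (nat_lit 95) (nat_lit 96) = true := by decide +kernel
def p14_15_2_96 : pfC (piC [(nat_lit 36888796), (nat_lit 24534081), (nat_lit 18263511), (nat_lit 12310016)] (nat_lit 7072463)) p14_15_2 (nat_lit 4) (nat_lit 96) (nat_lit 97) = true := by decide +kernel
def p14_15_2_97 : pfC (piC [(nat_lit 36888796), (nat_lit 24534081), (nat_lit 18263511), (nat_lit 12310016)] (nat_lit 7072463)) p14_15_2 (nat_lit 4) (nat_lit 97) (nat_lit 98) = true := by decide +kernel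
def p14_15_2_98 : pfC (piC [(nat_lit 36888796), (nat_lit 24534081), (nat_lit 18263511), (nat_lit 12310016)] (nat_lit 7072463)) p14_15_2 (nat_lit 4) (nat_lit 98) (nat_lit 99) = true := by decide +kernel
def p14_15_2_99 : pfC (piC [(nat_lit 36888796), (nat_lit 24534081), (nat_lit 18263511), (nat_lit 12310016)] (nat_lit 7072463)) p14_15_2 (nat_lit 4) (nat_lit 99) (nat_lit 100) = true := by decide +kernel
def p14_15_2_100 : pfC (piC [(nat_lit 36888796), (nat_lit 24534081), (nat_lit 18263511), (nat_lit 12310016)] (nat_lit 7072463)) p14_15_2 (nat_lit 4) (nat_lit 100) (nat_lit 101) = true := by decide +kernel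
def p14_15_2_101 : pfC (piC [(nat_lit 36888796), (nat_lit 24534081), (nat_lit 18263511), (nat_lit 12310016)] (nat_lit 7072463)) p14_15_2 (nat_lit 4) (nat_lit 101) (nat_lit 102) = true := by decide +kernel
def p14_15_2_102 : pfC (piC [(nat_lit 36888796), (nat_lit 24534081), (nat_lit 18263511), (nat_lit 12310016)] (nat_lit 7072463)) p14_15_2 (nat_lit 4) (nat_lit 102) (nat_lit 103) = true := by decide +kernel
def p14_15_2_103 : pfC (piC [(nat_lit 36888796), (nat_lit 24534081), (nat_lit 18263511), (nat_lit 12310016)] (nat_lit 7072463)) p14_15_2 (nat_lit 4) (nat_lit 103) (nat_lit 104) = true := by decide +kernel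
def p14_15_2_104 : pfC (piC [(nat_lit 36888796), (nat_lit 24534081), (nat_lit 18263511), (nat_lit 12310016)] (nat_lit 7072463)) p14_15_2 (nat_lit 4) (nat_lit 104) (nat_lit 105) = true := by decide +kernel
def p14_15_2_105 : pfC (piC [(nat_lit 36888796), (nat_lit 24534081), (nat_lit 18263511), (nat_lit 12310016)] (nat_lit 7072463)) p14_15_2 (nat_lit 4) (nat_lit 105) (nat_lit 106) = true := by decide +kernel
def p14_15_2_106 : pfC (piC [(nat_lit 36888796), (nat_lit 24534081), (nat_lit 18263511), (nat_lit 12310016)] (nat_lit 7072463)) p14_15_2 (nat_lit 4) (nat_lit 106) (nat_lit 107) = true := by decide +kernel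
def p14_15_2_107 : pfC (piC [(nat_lit 36888796), (nat_lit 24534081), (nat_lit 18263511), (nat_lit 12310016)] (nat_lit 7072463)) p14_15_2 (nat_lit 4) (nat_lit 107) (nat_lit 108) = true := by decide +kernel
def p14_15_2_108 : pfC (piC [(nat_lit 36888796), (nat_lit 24534081), (nat_lit 18263511), (nat_lit 12310016)] (nat_lit 7072463)) p14_15_2 (nat_lit 4) (nat_lit 108) (nat_lit 109) = true := by decide +kernel
def p14_15_2_109 : pfC (piC [(nat_lit 36888796), (nat_lit 24534081), (nat_lit 18263511), (nat_lit 12310016)] (nat_lit 7072463)) p14_15_2 (nat_lit 4) (nat_lit 109) (nat_lit 110) = true := by decide +kernel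
def p14_15_2_110 : pfC (piC [(nat_lit 36888796), (nat_lit 24534081), (nat_lit 18263511), (nat_lit 12310016)] (nat_lit 7072463)) p14_15_2 (nat_lit 4) (nat_lit 110) (nat_lit 111) = true := by decide +kernel
def p14_15_2_111 : pfC (piC [(nat_lit 36888796), (nat_lit 24534081), (nat_lit 18263511), (nat_lit 12310016)] (nat_lit 7072463)) p14_15_2 (nat_lit 4) (nat_lit 111) (nat_lit 112) = true := by decide +kernel
def p14_15_2_112 : pfC (piC [(nat_lit 36888796), (nat_lit 24534081), (nat_lit 18263511), (nat_lit 12310016)] (nat_lit 7072463)) p14_15_2 (nat_lit 4) (nat_lit 112) (nat_lit 113) = true := by decide +kernel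
def p14_15_2_113 : pfC (piC [(nat_lit 36888796), (nat_lit 24534081), (nat_lit 18263511), (nat_lit 12310016)] (nat_lit 7072463)) p14_15_2 (nat_lit 4) (nat_lit 113) (nat_lit 114) = true := by decide +kernel
def p14_15_2_114 : pfC (piC [(nat_lit 36888796), (nat_lit 24534081), (nat_lit 18263511), (nat_lit 12310016)] (nat_lit 7072463)) p14_15_2 (nat_lit 4) (nat_lit 114) (nat_lit 115) = true := by decide +kernel
def p14_15_2_115 : pfC (piC [(nat_lit 36888796), (nat_lit 24534081), (nat_lit 18263511), (nat_lit 12310016)] (nat_lit 7072463)) p14_15_2 (nat_lit 4) (nat_lit 115) (nat_lit 116) = true := by decide +kernel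
def p14_15_2_116 : pfC (piC [(nat_lit 36888796), (nat_lit 24534081), (nat_lit 18263511), (nat_lit 12310016)] (nat_lit 7072463)) p14_15_2 (nat_lit 4) (nat_lit 116) (nat_lit 117) = true := by decide +kernel
def p14_15_2_117 : pfC (piC [(nat_lit 36888796), (nat_lit 24534081), (nat_lit 18263511), (nat_lit 12310016)] (nat_lit 7072463)) p14_15_2 (nat_lit 4) (nat_lit 117) (nat_lit 118) = true := by decide +kernel
def p14_15_2_118 : pfC (piC [(nat_lit 36888796), (nat_lit 24534081), (nat_lit 18263511), (nat_lit 12310016)] (nat_lit 7072463)) p14_15_2 (nat_lit 4) (nat_lit 118) (nat_lit 119) = true := by decide +kernel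
def p14_15_2_119 : pfC (piC [(nat_lit 36888796), (nat_lit 24534081), (nat_lit 18263511), (nat_lit 12310016)] (nat_lit 7072463)) p14_15_2 (nat_lit 4) (nat_lit 119) (nat_lit 120) = true := by decide +kernel
def p14_15_2_120 : pfC (piC [(nat_lit 36888796), (nat_lit 24534081), (nat_lit 18263511), (nat_lit 12310016)] (nat_lit 7072463)) p14_15_2 (nat_lit 4) (nat_lit 120) (nat_lit 121) = true := by decide +kernel
def p14_15_2_121 : pfC (piC [(nat_lit 36888796), (nat_lit 24534081), (nat_lit 18263511), (nat_lit 12310016)] (nat_lit 7072463)) p14_15_2 (nat_lit 4) (nat_lit 121) (nat_lit 122) = true := by decide +kernel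
def p14_15_2_122 : pfC (piC [(nat_lit 36888796), (nat_lit 24534081), (nat_lit 18263511), (nat_lit 12310016)] (nat_lit 7072463)) p14_15_2 (nat_lit 4) (nat_lit 122) (nat_lit 123) = true := by decide +kernel
def p14_15_2_123 : pfC (piC [(nat_lit 36888796), (nat_lit 24534081), (nat_lit 18263511), (nat_lit 12310016)] (nat_lit 7072463)) p14_15_2 (nat_lit 4) (nat_lit 123) (nat_lit 124) = true := by decide +kernel
def p14_15_2_124 : pfC (piC [(nat_lit 36888796), (nat_lit 24534081), (nat_lit 18263511), (nat_lit 12310016)] (nat_lit 7072463)) p14_15_2 (nat_lit 4) (nat_lit 124) (nat_lit 125) = true := by decide +kernel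
def p14_15_2_125 : pfC (piC [(nat_lit 36888796), (nat_lit 24534081), (nat_lit 18263511), (nat_lit 12310016)] (nat_lit 7072463)) p14_15_2 (nat_lit 4) (nat_lit 125) (nat_lit 126) = true := by decide +kernel
def p14_15_2_126 : pfC (piC [(nat_lit 36888796), (nat_lit 24534081), (nat_lit 18263511), (nat_lit 12310016)] (nat_lit 7072463)) p14_15_2 (nat_lit 4) (nat_lit 126) (nat_lit 127) = true := by decide +kernel
def p14_15_2_127 : pfC (piC [(nat_lit 36888796), (nat_lit 24534081), (nat_lit 18263511), (nat_lit 12310016)] (nat_lit 7072463)) p14_15_2 (nat_lit 4) (nat_lit 127) (nat_lit 128) = true := by decide +kernel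
def p14_15_2_128 : pfC (piC [(nat_lit 36888796), (nat_lit 24534081), (nat_lit 18263511), (nat_lit 12310016)] (nat_lit 7072463)) p14_15_2 (nat_lit 4) (nat_lit 128) (nat_lit 129) = true := by decide +kernel
def p14_15_2_129 : pfC (piC [(nat_lit 36888796), (nat_lit 24534081), (nat_lit 18263511), (nat_lit 12310016)] (nat_lit 7072463)) p14_15_2 (nat_lit 4) (nat_lit 129) (nat_lit 130) = true := by decide +kernel
def p14_15_2_130 : pfC (piC [(nat_lit 36888796), (nat_lit 24534081), (nat_lit 18263511), (nat_lit 12310016)] (nat_lit 7072463)) p14_15_2 (nat_lit 4) (nat_lit 130) (nat_lit 131) = true := by decide +kernel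
def p14_15_2_131 : pfC (piC [(nat_lit 36888796), (nat_lit 24534081), (nat_lit 18263511), (nat_lit 12310016)] (nat_lit 7072463)) p14_15_2 (nat_lit 4) (nat_lit 131) (nat_lit 132) = true := by decide +kernel
def p14_15_2_132 : pfC (piC [(nat_lit 36888796), (nat_lit 24534081), (nat_lit 18263511), (nat_lit 12310016)] (nat_lit 7072463)) p14_15_2 (nat_lit 4) (nat_lit 132) (nat_lit 133) = true := by decide +kernel
def p14_15_2_133 : pfC (piC [(nat_lit 36888796), (nat_lit 24534081), (nat_lit 18263511), (nat_lit 12310016)] (nat_lit 7072463)) p14_15_2 (nat_lit 4) (nat_lit 133) (nat_lit 134) = true := by decide +kernel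
def p14_15_2_134 : pfC (piC [(nat_lit 36888796), (nat_lit 24534081), (nat_lit 18263511), (nat_lit 12310016)] (nat_lit 7072463)) p14_15_2 (nat_lit 4) (nat_lit 134) (nat_lit 135) = true := by decide +kernel
def p14_15_2_135 : pfC (piC [(nat_lit 36888796), (nat_lit 24534081), (nat_lit 18263511), (nat_lit 12310016)] (nat_lit 7072463)) p14_15_2 (nat_lit 4) (nat_lit 135) (nat_lit 136) = true := by decide +kernel
def p14_15_2_136 : pfC (piC [(nat_lit 36888796), (nat_lit 24534081), (nat_lit 18263511), (nat_lit 12310016)] (nat_lit 7072463)) p14_15_2 (nat_lit 4) (nat_lit 136) (nat_lit 137) = true := by decide +kernel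
def p14_15_2_137 : pfC (piC [(nat_lit 36888796), (nat_lit 24534081), (nat_lit 18263511), (nat_lit 12310016)] (nat_lit 7072463)) p14_15_2 (nat_lit 4) (nat_lit 137) (nat_lit 138) = true := by decide +kernel
def p14_15_2_138 : pfC (piC [(nat_lit 36888796), (nat_lit 24534081), (nat_lit 18263511), (nat_lit 12310016)] (nat_lit 7072463)) p14_15_2 (nat_lit 4) (nat_lit 138) (nat_lit 139) = true := by decide +kernel
def p14_15_2_139 : pfC (piC [(nat_lit 36888796), (nat_lit 24534081), (nat_lit 18263511), (nat_lit 12310016)] (nat_lit 7072463)) p14_15_2 (nat_lit 4) (nat_lit 139) (nat_lit 140) = true := by decide +kernel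
def p14_15_2_140 : pfC (piC [(nat_lit 36888796), (nat_lit 24534081), (nat_lit 18263511), (nat_lit 12310016)] (nat_lit 7072463)) p14_15_2 (nat_lit 4) (nat_lit 140) (nat_lit 141) = true := by decide +kernel
def p14_15_2_141 : pfC (piC [(nat_lit 36888796), (nat_lit 24534081), (nat_lit 18263511), (nat_lit 12310016)] (nat_lit 7072463)) p14_15_2 (nat_lit 4) (nat_lit 141) (nat_lit 142) = true := by decide +kernel
def p14_15_2_142 : pfC (piC [(nat_lit 36888796), (nat_lit 24534081), (nat_lit 18263511), (nat_lit 12310016)] (nat_lit 7072463)) p14_15_2 (nat_lit 4) (nat_lit 142) (nat_lit 143) = true := by decide +kernel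
def p14_15_2_143 : pfC (piC [(nat_lit 36888796), (nat_lit 24534081), (nat_lit 18263511), (nat_lit 12310016)] (nat_lit 7072463)) p14_15_2 (nat_lit 4) (nat_lit 143) (nat_lit 144) = true := by decide +kernel
def p14_15_2_144 : pfC (piC [(nat_lit 36888796), (nat_lit 24534081), (nat_lit 18263511), (nat_lit 12310016)] (nat_lit 7072463)) p14_15_2 (nat_lit 4) (nat_lit 144) (nat_lit 145) = true := by decide +kernel
def p14_15_2_145 : pfC (piC [(nat_lit 36888796), (nat_lit 24534081), (nat_lit 18263511), (nat_lit 12310016)] (nat_lit 7072463)) p14_15_2 (nat_lit 4) (nat_lit 145) (nat_lit 146) = true := by decide +kernel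
def p14_15_2_146 : pfC (piC [(nat_lit 36888796), (nat_lit 24534081), (nat_lit 18263511), (nat_lit 12310016)] (nat_lit 7072463)) p14_15_2 (nat_lit 4) (nat_lit 146) (nat_lit 147) = true := by decide +kernel
def p14_15_2_147 : pfC (piC [(nat_lit 36888796), (nat_lit 24534081), (nat_lit 18263511), (nat_lit 12310016)] (nat_lit 7072463)) p14_15_2 (nat_lit 4) (nat_lit 147) (nat_lit 148) = true := by decide +kernel
def p14_15_2_148 : pfC (piC [(nat_lit 36888796), (nat_lit 24534081), (nat_lit 18263511), (nat_lit 12310016)] (nat_lit 7072463)) p14_15_2 (nat_lit 4) (nat_lit 148) (nat_lit 149) = true := by decide +kernel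
def p14_15_2_149 : pfC (piC [(nat_lit 36888796), (nat_lit 24534081), (nat_lit 18263511), (nat_lit 12310016)] (nat_lit 7072463)) p14_15_2 (nat_lit 4) (nat_lit 149) (nat_lit 150) = true := by decide +kernel
def p14_15_2_150 : pfC (piC [(nat_lit 36888796), (nat_lit 24534081), (nat_lit 18263511), (nat_lit 12310016)] (nat_lit 7072463)) p14_15_2 (nat_lit 4) (nat_lit 150) (nat_lit 151) = true := by decide +kernel
def p14_15_2_151 : pfC (piC [(nat_lit 36888796), (nat_lit 24534081), (nat_lit 18263511), (nat_lit 12310016)] (nat_lit 7072463)) p14_15_2 (nat_lit 4) (nat_lit 151) (nat_lit 152) = true := by decide +kernel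
def p14_15_2_152 : pfC (piC [(nat_lit 36888796), (nat_lit 24534081), (nat_lit 18263511), (nat_lit 12310016)] (nat_lit 7072463)) p14_15_2 (nat_lit 4) (nat_lit 152) (nat_lit 153) = true := by decide +kernel
def p14_15_2_153 : pfC (piC [(nat_lit 36888796), (nat_lit 24534081), (nat_lit 18263511), (nat_lit 12310016)] (nat_lit 7072463)) p14_15_2 (nat_lit 4) (nat_lit 153) (nat_lit 154) = true := by decide +kernel
def p14_15_2_154 : pfC (piC [(nat_lit 36888796), (nat_lit 24534081), (nat_lit 18263511), (nat_lit 12310016)] (nat_lit 7072463)) p14_15_2 (nat_lit 4) (nat_lit 154) (nat_lit 155) = true := by decide +kernel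
def p14_15_2_155 : pfC (piC [(nat_lit 36888796), (nat_lit 24534081), (nat_lit 18263511), (nat_lit 12310016)] (nat_lit 7072463)) p14_15_2 (nat_lit 4) (nat_lit 155) (nat_lit 156) = true := by decide +kernel
def p14_15_2_156 : pfC (piC [(nat_lit 36888796), (nat_lit 24534081), (nat_lit 18263511), (nat_lit 12310016)] (nat_lit 7072463)) p14_15_2 (nat_lit 4) (nat_lit 156) (nat_lit 157) = true := by decide +kernel
def p14_15_2_157 : pfC (piC [(nat_lit 36888796), (nat_lit 24534081), (nat_lit 18263511), (nat_lit 12310016)] (nat_lit 7072463)) p14_15_2 (nat_lit 4) (nat_lit 157) (nat_lit 158) = true := by decide +kernel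
def p14_15_2_158 : pfC (piC [(nat_lit 36888796), (nat_lit 24534081), (nat_lit 18263511), (nat_lit 12310016)] (nat_lit 7072463)) p14_15_2 (nat_lit 4) (nat_lit 158) (nat_lit 159) = true := by decide +kernel
def p14_15_2_159 : pfC (piC [(nat_lit 36888796), (nat_lit 24534081), (nat_lit 18263511), (nat_lit 12310016)] (nat_lit 7072463)) p14_15_2 (nat_lit 4) (nat_lit 159) (nat_lit 160) = true := by decide +kernel
def p14_15_2_160 : pfC (piC [(nat_lit 36888796), (nat_lit 24534081), (nat_lit 18263511), (nat_lit 12310016)] (nat_lit 7072463)) p14_15_2 (nat_lit 4) (nat_lit 160) (nat_lit 161) = true := by decide +kernel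
def p14_15_2_161 : pfC (piC [(nat_lit 36888796), (nat_lit 24534081), (nat_lit 18263511), (nat_lit 12310016)] (nat_lit 7072463)) p14_15_2 (nat_lit 4) (nat_lit 161) (nat_lit 162) = true := by decide +kernel
def p14_15_2_162 : pfC (piC [(nat_lit 36888796), (nat_lit 24534081), (nat_lit 18263511), (nat_lit 12310016)] (nat_lit 7072463)) p14_15_2 (nat_lit 4) (nat_lit 162) (nat_lit 163) = true := by decide +kernel
def p14_15_2_163 : pfC (piC [(nat_lit 36888796), (nat_lit 24534081), (nat_lit 18263511), (nat_lit 12310016)] (nat_lit 7072463)) p14_15_2 (nat_lit 4) (nat_lit 163) (nat_lit 164) = true := by decide +kernel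
def p14_15_2_164 : pfC (piC [(nat_lit 36888796), (nat_lit 24534081), (nat_lit 18263511), (nat_lit 12310016)] (nat_lit 7072463)) p14_15_2 (nat_lit 4) (nat_lit 164) (nat_lit 165) = true := by decide +kernel
def p14_15_2_165 : pfC (piC [(nat_lit 36888796), (nat_lit 24534081), (nat_lit 18263511), (nat_lit 12310016)] (nat_lit 7072463)) p14_15_2 (nat_lit 4) (nat_lit 165) (nat_lit 166) = true := by decide +kernel
def p14_15_2_166 : pfC (piC [(nat_lit 36888796), (nat_lit 24534081), (nat_lit 18263511), (nat_lit 12310016)] (nat_lit 7072463)) p14_15_2 (nat_lit 4) (nat_lit 166) (nat_lit 167) = true := by decide +kernel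
def p14_15_2_167 : pfC (piC [(nat_lit 36888796), (nat_lit 24534081), (nat_lit 18263511), (nat_lit 12310016)] (nat_lit 7072463)) p14_15_2 (nat_lit 4) (nat_lit 167) (nat_lit 168) = true := by decide +kernel
def p14_15_2_168 : pfC (piC [(nat_lit 36888796), (nat_lit 24534081), (nat_lit 18263511), (nat_lit 12310016)] (nat_lit 7072463)) p14_15_2 (nat_lit 4) (nat_lit 168) (nat_lit 169) = true := by decide +kernel
def p14_15_2_169 : pfC (piC [(nat_lit 36888796), (nat_lit 24534081), (nat_lit 18263511), (nat_lit 12310016)] (nat_lit 7072463)) p14_15_2 (nat_lit 4) (nat_lit 169) (nat_lit 170) = true := by decide +kernel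
def p14_15_2_170 : pfC (piC [(nat_lit 36888796), (nat_lit 24534081), (nat_lit 18263511), (nat_lit 12310016)] (nat_lit 7072463)) p14_15_2 (nat_lit 4) (nat_lit 170) (nat_lit 171) = true := by decide +kernel
def p14_15_2_171 : pfC (piC [(nat_lit 36888796), (nat_lit 24534081), (nat_lit 18263511), (nat_lit 12310016)] (nat_lit 7072463)) p14_15_2 (nat_lit 4) (nat_lit 171) (nat_lit 172) = true := by decide +kernel
def p14_15_2_172 : pfC (piC [(nat_lit 36888796), (nat_lit 24534081), (nat_lit 18263511), (nat_lit 12310016)] (nat_lit 7072463)) p14_15_2 (nat_lit 4) (nat_lit 172) (nat_lit 173) = true := by decide +kernel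
def p14_15_2_173 : pfC (piC [(nat_lit 36888796), (nat_lit 24534081), (nat_lit 18263511), (nat_lit 12310016)] (nat_lit 7072463)) p14_15_2 (nat_lit 4) (nat_lit 173) (nat_lit 174) = true := by decide +kernel
def p14_15_2_174 : pfC (piC [(nat_lit 36888796), (nat_lit 24534081), (nat_lit 18263511), (nat_lit 12310016)] (nat_lit 7072463)) p14_15_2 (nat_lit 4) (nat_lit 174) (nat_lit 175) = true := by decide +kernel
def p14_15_2_175 : pfC (piC [(nat_lit 36888796), (nat_lit 24534081), (nat_lit 18263511), (nat_lit 12310016)] (nat_lit 7072463)) p14_15_2 (nat_lit 4) (nat_lit 175) (nat_lit 176) = true := by decide +kernel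
def p14_15_2_176 : pfC (piC [(nat_lit 36888796), (nat_lit 24534081), (nat_lit 18263511), (nat_lit 12310016)] (nat_lit 7072463)) p14_15_2 (nat_lit 4) (nat_lit 176) (nat_lit 177) = true := by decide +kernel
def p14_15_2_177 : pfC (piC [(nat_lit 36888796), (nat_lit 24534081), (nat_lit 18263511), (nat_lit 12310016)] (nat_lit 7072463)) p14_15_2 (nat_lit 4) (nat_lit 177) (nat_lit 178) = true := by decide +kernel
def p14_15_2_178 : pfC (piC [(nat_lit 36888796), (nat_lit 24534081), (nat_lit 18263511), (nat_lit 12310016)] (nat_lit 7072463)) p14_15_2 (nat_lit 4) (nat_lit 178) (nat_lit 179) = true := by decide +kernel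
def p14_15_2_179 : pfC (piC [(nat_lit 36888796), (nat_lit 24534081), (nat_lit 18263511), (nat_lit 12310016)] (nat_lit 7072463)) p14_15_2 (nat_lit 4) (nat_lit 179) (nat_lit 180) = true := by decide +kernel
def p14_15_2_180 : pfC (piC [(nat_lit 36888796), (nat_lit 24534081), (nat_lit 18263511), (nat_lit 12310016)] (nat_lit 7072463)) p14_15_2 (nat_lit 4) (nat_lit 180) (nat_lit 181) = true := by decide +kernel
def p14_15_2_181 : pfC (piC [(nat_lit 36888796), (nat_lit 24534081), (nat_lit 18263511), (nat_lit 12310016)] (nat_lit 7072463)) p14_15_2 (nat_lit 4) (nat_lit 181) (nat_lit 182) = true := by decide +kernel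
def p14_15_2_182 : pfC (piC [(nat_lit 36888796), (nat_lit 24534081), (nat_lit 18263511), (nat_lit 12310016)] (nat_lit 7072463)) p14_15_2 (nat_lit 4) (nat_lit 182) (nat_lit 183) = true := by decide +kernel
def p14_15_2_183 : pfC (piC [(nat_lit 36888796), (nat_lit 24534081), (nat_lit 18263511), (nat_lit 12310016)] (nat_lit 7072463)) p14_15_2 (nat_lit 4) (nat_lit 183) (nat_lit 184) = true := by decide +kernel
def p14_15_2_184 : pfC (piC [(nat_lit 36888796), (nat_lit 24534081), (nat_lit 18263511), (nat_lit 12310016)] (nat_lit 7072463)) p14_15_2 (nat_lit 4) (nat_lit 184) (nat_lit 185) = true := by decide +kernel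
def p14_15_2_185 : pfC (piC [(nat_lit 36888796), (nat_lit 24534081), (nat_lit 18263511), (nat_lit 12310016)] (nat_lit 7072463)) p14_15_2 (nat_lit 4) (nat_lit 185) (nat_lit 186) = true := by decide +kernel
def p14_15_2_186 : pfC (piC [(nat_lit 36888796), (nat_lit 24534081), (nat_lit 18263511), (nat_lit 12310016)] (nat_lit 7072463)) p14_15_2 (nat_lit 4) (nat_lit 186) (nat_lit 187) = true := by decide +kernel
def p14_15_2_187 : pfC (piC [(nat_lit 36888796), (nat_lit 24534081), (nat_lit 18263511), (nat_lit 12310016)] (nat_lit 7072463)) p14_15_2 (nat_lit 4) (nat_lit 187) (nat_lit 188) = true := by decide +kernel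
def p14_15_2_188 : pfC (piC [(nat_lit 36888796), (nat_lit 24534081), (nat_lit 18263511), (nat_lit 12310016)] (nat_lit 7072463)) p14_15_2 (nat_lit 4) (nat_lit 188) (nat_lit 189) = true := by decide +kernel
def p14_15_2_189 : pfC (piC [(nat_lit 36888796), (nat_lit 24534081), (nat_lit 18263511), (nat_lit 12310016)] (nat_lit 7072463)) p14_15_2 (nat_lit 4) (nat_lit 189) (nat_lit 190) = true := by decide +kernel
def p14_15_2_190 : pfC (piC [(nat_lit 36888796), (nat_lit 24534081), (nat_lit 18263511), (nat_lit 12310016)] (nat_lit 7072463)) p14_15_2 (nat_lit 4) (nat_lit 190) (nat_lit 191) = true := by decide +kernel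
def p14_15_2_191 : pfC (piC [(nat_lit 36888796), (nat_lit 24534081), (nat_lit 18263511), (nat_lit 12310016)] (nat_lit 7072463)) p14_15_2 (nat_lit 4) (nat_lit 191) (nat_lit 192) = true := by decide +kernel
def p14_15_2_192 : pfC (piC [(nat_lit 36888796), (nat_lit 24534081), (nat_lit 18263511), (nat_lit 12310016)] (nat_lit 7072463)) p14_15_2 (nat_lit 4) (nat_lit 192) (nat_lit 193) = true := by decide +kernel
def p14_15_2_193 : pfC (piC [(nat_lit 36888796), (nat_lit 24534081), (nat_lit 18263511), (nat_lit 12310016)] (nat_lit 7072463)) p14_15_2 (nat_lit 4) (nat_lit 193) (nat_lit 194) = true := by decide +kernel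
def p14_15_2_194 : pfC (piC [(nat_lit 36888796), (nat_lit 24534081), (nat_lit 18263511), (nat_lit 12310016)] (nat_lit 7072463)) p14_15_2 (nat_lit 4) (nat_lit 194) (nat_lit 195) = true := by decide +kernel
def p14_15_2_195 : pfC (piC [(nat_lit 36888796), (nat_lit 24534081), (nat_lit 18263511), (nat_lit 12310016)] (nat_lit 7072463)) p14_15_2 (nat_lit 4) (nat_lit 195) (nat_lit 196) = true := by decide +kernel
def p14_15_2_196 : pfC (piC [(nat_lit 36888796), (nat_lit 24534081), (nat_lit 18263511), (nat_lit 12310016)] (nat_lit 7072463)) p14_15_2 (nat_lit 4) (nat_lit 196) (nat_lit 197) = true := by decide +kernel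
def p14_15_2_197 : pfC (piC [(nat_lit 36888796), (nat_lit 24534081), (nat_lit 18263511), (nat_lit 12310016)] (nat_lit 7072463)) p14_15_2 (nat_lit 4) (nat_lit 197) (nat_lit 198) = true := by decide +kernel
def p14_15_2_198 : pfC (piC [(nat_lit 36888796), (nat_lit 24534081), (nat_lit 18263511), (nat_lit 12310016)] (nat_lit 7072463)) p14_15_2 (nat_lit 4) (nat_lit 198) (nat_lit 199) = true := by decide +kernel
def p14_15_2_199 : pfC (piC [(nat_lit 36888796), (nat_lit 24534081), (nat_lit 18263511), (nat_lit 12310016)] (nat_lit 7072463)) p14_15_2 (nat_lit 4) (nat_lit 199) (nat_lit 200) = true := by decide +kernel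
def p14_15_2_200 : pfC (piC [(nat_lit 36888796), (nat_lit 24534081), (nat_lit 18263511), (nat_lit 12310016)] (nat_lit 7072463)) p14_15_2 (nat_lit 4) (nat_lit 200) (nat_lit 201) = true := by decide +kernel
def p14_15_2_201 : pfC (piC [(nat_lit 36888796), (nat_lit 24534081), (nat_lit 18263511), (nat_lit 12310016)] (nat_lit 7072463)) p14_15_2 (nat_lit 4) (nat_lit 201) (nat_lit 202) = true := by decide +kernel
def p14_15_2_202 : pfC (piC [(nat_lit 36888796), (nat_lit 24534081), (nat_lit 18263511), (nat_lit 12310016)] (nat_lit 7072463)) p14_15_2 (nat_lit 4) (nat_lit 202) (nat_lit 203) = true := by decide +kernel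
def p14_15_2_203 : pfC (piC [(nat_lit 36888796), (nat_lit 24534081), (nat_lit 18263511), (nat_lit 12310016)] (nat_lit 7072463)) p14_15_2 (nat_lit 4) (nat_lit 203) (nat_lit 204) = true := by decide +kernel
def p14_15_2_204 : pfC (piC [(nat_lit 36888796), (nat_lit 24534081), (nat_lit 18263511), (nat_lit 12310016)] (nat_lit 7072463)) p14_15_2 (nat_lit 4) (nat_lit 204) (nat_lit 205) = true := by decide +kernel
def p14_15_2_205 : pfC (piC [(nat_lit 36888796), (nat_lit 24534081), (nat_lit 18263511), (nat_lit 12310016)] (nat_lit 7072463)) p14_15_2 (nat_lit 4) (nat_lit 205) (nat_lit 206) = true := by decide +kernel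
def p14_15_2_206 : pfC (piC [(nat_lit 36888796), (nat_lit 24534081), (nat_lit 18263511), (nat_lit 12310016)] (nat_lit 7072463)) p14_15_2 (nat_lit 4) (nat_lit 206) (nat_lit 207) = true := by decide +kernel
def p14_15_2_207 : pfC (piC [(nat_lit 36888796), (nat_lit 24534081), (nat_lit 18263511), (nat_lit 12310016)] (nat_lit 7072463)) p14_15_2 (nat_lit 4) (nat_lit 207) (nat_lit 208) = true := by decide +kernel
def p14_15_2_208 : pfC (piC [(nat_lit 36888796), (nat_lit 24534081), (nat_lit 18263511), (nat_lit 12310016)] (nat_lit 7072463)) p14_15_2 (nat_lit 4) (nat_lit 208) (nat_lit 209) = true := by decide +kernel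
def p14_15_2_209 : pfC (piC [(nat_lit 36888796), (nat_lit 24534081), (nat_lit 18263511), (nat_lit 12310016)] (nat_lit 7072463)) p14_15_2 (nat_lit 4) (nat_lit 209) (nat_lit 210) = true := by decide +kernel
def p14_15_2_210 : pfC (piC [(nat_lit 36888796), (nat_lit 24534081), (nat_lit 18263511), (nat_lit 12310016)] (nat_lit 7072463)) p14_15_2 (nat_lit 4) (nat_lit 210) (nat_lit 211) = true := by decide +kernel
def p14_15_2_211 : pfC (piC [(nat_lit 36888796), (nat_lit 24534081), (nat_lit 18263511), (nat_lit 12310016)] (nat_lit 7072463)) p14_15_2 (nat_lit 4) (nat_lit 211) (nat_lit 212) = true := by decide +kernel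
def p14_15_2_212 : pfC (piC [(nat_lit 36888796), (nat_lit 24534081), (nat_lit 18263511), (nat_lit 12310016)] (nat_lit 7072463)) p14_15_2 (nat_lit 4) (nat_lit 212) (nat_lit 213) = true := by decide +kernel
theorem p14_15_2_T : PfS (PiF n14_15.reverse (nat_lit 7072463)) p14_15_2 (nat_lit 4) [] 0 :=
  pftab_of (los := [(nat_lit 36888796), (nat_lit 24534081), (nat_lit 18263511), (nat_lit 12310016)]) (by decide +kernel) (hi := (nat_lit 213)) (PfP.trans (PfP.trans (PfP.trans (PfP.trans (PfP.trans (PfP.trans (PfP.trans (PfP.trans (PfP.trans (PfP.trans (PfP.trans (PfP.trans (PfP.trans (PfP.trans (PfP.trans (PfP.trans (PfP.trans (PfP.trans (PfP.trans (PfP.trans (PfP.trans (PfP.trans (PfP.trans (PfP.trans (PfP.trans (PfP.trans (PfP.trans (PfP.trans (PfP.trans (PfP.trans (PfP.trans (PfP.trans (PfP.trans (PfP.trans (PfP.trans (PfP.trans (PfP.trans (PfP.trans (PfP.trans (PfP.trans (PfP.trans (PfP.trans (PfP.trans (PfP.trans (PfP.trans (PfP.trans (PfP.trans (PfP.trans (PfP.trans (PfP.trans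 (PfP.trans (PfP.trans (PfP.trans (PfP.trans (PfP.trans (PfP.trans (PfP.trans (PfP.trans (PfP.trans (PfP.trans (PfP.trans (PfP.trans (PfP.trans (PfP.trans (PfP.trans (PfP.trans (PfP.trans (PfP.trans (PfP.trans (PfP.trans (PfP.trans (PfP.trans (PfP.trans (PfP.trans (PfP.trans (PfP.trans (PfP.trans (PfP.trans (PfP.trans (PfP.trans (PfP.trans (PfP.trans (PfP.trans (PfP.trans (PfP.trans (PfP.trans (PfP.trans (PfP.trans (PfP.trans (PfP.trans (PfP.trans (PfP.trans (PfP.trans (PfP.trans (PfP.trans (PfP.trans (PfP.trans (PfP.trans (PfP.trans (PfP.trans (PfP.trans (PfP.trans (PfP.trans (PfP.trans (PfP.trans (PfP.trans (PfP.trans (PfP.trans (PfP.trans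
 (PfP.trans (PfP.trans (PfP.trans (PfP.trans (PfP.trans (PfP.trans (PfP.trans (PfP.trans (PfP.trans (PfP.trans (PfP.trans (PfP.trans (PfP.trans (PfP.trans (PfP.trans (PfP.trans (PfP.trans (PfP.trans (PfP.trans (PfP.trans (PfP.trans (PfP.trans (PfP.trans (PfP.trans (PfP.trans (PfP.trans (PfP.trans (PfP.trans (PfP.trans (PfP.trans (PfP.trans (PfP.trans (PfP.trans (PfP.trans (PfP.trans (PfP.trans (PfP.trans (PfP.trans (PfP.trans (PfP.trans (PfP.trans (PfP.trans (PfP.trans (PfP.trans (PfP.trans (PfP.trans (PfP.trans (PfP.trans (PfP.trans (PfP.trans (PfP.trans (PfP.trans (PfP.trans (PfP.trans (PfP.trans (PfP.trans (PfP.trans (PfP.trans (PfP.trans (PfP.trans (PfP.trans (PfP.trans (PfP.trans (PfP.trans (PfP.trans (PfP.trans (PfP.trans (PfP.trans (PfP.trans (PfP.trans (PfP.trans (PfP.trans (PfP.trans (PfP.trans (PfP.trans (PfP.trans (PfP.trans (PfP.trans (PfP.trans (PfP.trans (PfP.trans (PfP.trans (PfP.trans (PfP.trans (PfP.trans (PfP.trans (PfP.trans (PfP.trans (PfP.trans (PfP.trans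 (PfP.trans (PfP.trans (PfP.trans (PfP.trans (PfP.trans (PfP.trans (PfP.trans (PfP.trans (PfP.trans (PfP.trans (PfP.trans (PfP.trans (PfP.trans (pfC_sound p14_15_2_0) (pfC_sound p14_15_2_1)) (pfC_sound
 p14_15_2_2)) (pfC_sound p14_15_2_3)) (pfC_sound p14_15_2_4)) (pfC_sound p14_15_2_5)) (pfC_sound p14_15_2_6)) (pfC_sound p14_15_2_7)) (pfC_sound p14_15_2_8)) (pfC_sound p14_15_2_9)) (pfC_sound p14_15_2_10)) (pfC_sound p14_15_2_11)) (pfC_sound p14_15_2_12)) (pfC_sound p14_15_2_13)) (pfC_sound p14_15_2_14)) (pfC_sound p14_15_2_15)) (pfC_sound p14_15_2_16)) (pfC_sound p14_15_2_17)) (pfC_sound p14_15_2_18)) (pfC_sound p14_15_2_19)) (pfC_sound p14_15_2_20)) (pfC_sound p14_15_2_21)) (pfC_sound p14_15_2_22)) (pfC_sound p14_15_2_23)) (pfC_sound p14_15_2_24)) (pfC_sound p14_15_2_25)) (pfC_sound p14_15_2_26)) (pfC_sound p14_15_2_27)) (pfC_sound p14_15_2_28)) (pfC_sound p14_15_2_29)) (pfC_sound p14_15_2_30)) (pfC_sound p14_15_2_31)) (pfC_sound p14_15_2_32)) (pfC_sound p14_15_2_33))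 (pfC_sound p14_15_2_34)) (pfC_sound p14_15_2_35)) (pfC_sound p14_15_2_36)) (pfC_sound p14_15_2_37)) (pfC_sound p14_15_2_38)) (pfC_sound p14_15_2_39)) (pfC_sound p14_15_2_40)) (pfC_sound p14_15_2_41)) (pfC_sound p14_15_2_42)) (pfC_sound p14_15_2_43)) (pfC_sound p14_15_2_44)) (pfC_sound p14_15_2_45)) (pfC_sound p14_15_2_46)) (pfC_sound p14_15_2_47)) (pfC_sound p14_15_2_48)) (pfC_sound p14_15_2_49)) (pfC_sound
 p14_15_2_50)) (pfC_sound p14_15_2_51)) (pfC_sound p14_15_2_52)) (pfC_sound p14_15_2_53)) (pfC_sound p14_15_2_54)) (pfC_sound p14_15_2_55)) (pfC_sound p14_15_2_56)) (pfC_sound p14_15_2_57)) (pfC_sound p14_15_2_58)) (pfC_sound p14_15_2_59)) (pfC_sound p14_15_2_60)) (pfC_sound p14_15_2_61)) (pfC_sound p14_15_2_62)) (pfC_sound p14_15_2_63)) (pfC_sound p14_15_2_64)) (pfC_sound p14_15_2_65)) (pfC_sound p14_15_2_66)) (pfC_sound p14_15_2_67)) (pfC_sound p14_15_2_68)) (pfC_sound p14_15_2_69)) (pfC_sound p14_15_2_70)) (pfC_sound p14_15_2_71)) (pfC_sound p14_15_2_72)) (pfC_sound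 p14_15_2_73)) (pfC_sound p14_15_2_74)) (pfC_sound p14_15_2_75)) (pfC_sound p14_15_2_76)) (pfC_sound p14_15_2_77)) (pfC_sound p14_15_2_78)) (pfC_sound p14_15_2_79)) (pfC_sound p14_15_2_80)) (pfC_sound p14_15_2_81)) (pfC_sound p14_15_2_82)) (pfC_sound p14_15_2_83)) (pfC_sound p14_15_2_84)) (pfC_sound p14_15_2_85)) (pfC_sound p14_15_2_86)) (pfC_sound p14_15_2_87)) (pfC_sound p14_15_2_88)) (pfC_sound p14_15_2_89)) (pfC_sound p14_15_2_90)) (pfC_sound p14_15_2_91)) (pfC_sound p14_15_2_92)) (pfC_sound p14_15_2_93)) (pfC_sound p14_15_2_94)) (pfC_sound p14_15_2_95)) (pfC_sound p14_15_2_96)) (pfC_sound p14_15_2_97)) (pfC_sound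
 p14_15_2_98)) (pfC_sound p14_15_2_99)) (pfC_sound p14_15_2_100)) (pfC_sound p14_15_2_101)) (pfC_sound p14_15_2_102)) (pfC_sound p14_15_2_103)) (pfC_sound p14_15_2_104)) (pfC_sound p14_15_2_105)) (pfC_sound p14_15_2_106)) (pfC_sound p14_15_2_107)) (pfC_sound p14_15_2_108)) (pfC_sound p14_15_2_109)) (pfC_sound p14_15_2_110)) (pfC_sound p14_15_2_111)) (pfC_sound p14_15_2_112)) (pfC_sound p14_15_2_113)) (pfC_sound p14_15_2_114)) (pfC_sound p14_15_2_115)) (pfC_sound p14_15_2_116)) (pfC_sound p14_15_2_117)) (pfC_sound p14_15_2_118)) (pfC_sound p14_15_2_119)) (pfC_sound p14_15_2_120)) (pfC_sound p14_15_2_121)) (pfC_sound p14_15_2_122)) (pfC_sound p14_15_2_123)) (pfC_sound p14_15_2_124)) (pfC_sound p14_15_2_125)) (pfC_sound p14_15_2_126)) (pfC_sound p14_15_2_127)) (pfC_sound p14_15_2_128)) (pfC_sound p14_15_2_129)) (pfC_sound p14_15_2_130)) (pfC_sound p14_15_2_131)) (pfC_sound p14_15_2_132)) (pfC_sound p14_15_2_133)) (pfC_sound p14_15_2_134)) (pfC_sound p14_15_2_135)) (pfC_sound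 p14_15_2_136)) (pfC_sound p14_15_2_137)) (pfC_sound p14_15_2_138)) (pfC_sound p14_15_2_139)) (pfC_sound p14_15_2_140)) (pfC_sound p14_15_2_141)) (pfC_sound p14_15_2_142)) (pfC_sound p14_15_2_143)) (pfC_sound
 p14_15_2_144)) (pfC_sound p14_15_2_145)) (pfC_sound p14_15_2_146)) (pfC_sound p14_15_2_147)) (pfC_sound p14_15_2_148)) (pfC_sound p14_15_2_149)) (pfC_sound p14_15_2_150)) (pfC_sound p14_15_2_151)) (pfC_sound p14_15_2_152)) (pfC_sound p14_15_2_153)) (pfC_sound p14_15_2_154)) (pfC_sound p14_15_2_155)) (pfC_sound p14_15_2_156)) (pfC_sound p14_15_2_157)) (pfC_sound p14_15_2_158)) (pfC_sound p14_15_2_159)) (pfC_sound p14_15_2_160)) (pfC_sound p14_15_2_161)) (pfC_sound p14_15_2_162)) (pfC_sound p14_15_2_163)) (pfC_sound p14_15_2_164)) (pfC_sound p14_15_2_165)) (pfC_sound p14_15_2_166)) (pfC_sound p14_15_2_167)) (pfC_sound p14_15_2_168)) (pfC_sound p14_15_2_169)) (pfC_sound p14_15_2_170)) (pfC_sound p14_15_2_171)) (pfC_sound p14_15_2_172)) (pfC_sound p14_15_2_173)) (pfC_sound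 p14_15_2_174)) (pfC_sound p14_15_2_175)) (pfC_sound p14_15_2_176)) (pfC_sound p14_15_2_177)) (pfC_sound p14_15_2_178)) (pfC_sound p14_15_2_179)) (pfC_sound p14_15_2_180)) (pfC_sound p14_15_2_181)) (pfC_sound p14_15_2_182)) (pfC_sound p14_15_2_183)) (pfC_sound p14_15_2_184)) (pfC_sound p14_15_2_185)) (pfC_sound p14_15_2_186)) (pfC_sound p14_15_2_187)) (pfC_sound p14_15_2_188)) (pfC_sound p14_15_2_189)) (pfC_sound
 p14_15_2_190)) (pfC_sound p14_15_2_191)) (pfC_sound p14_15_2_192)) (pfC_sound p14_15_2_193)) (pfC_sound p14_15_2_194)) (pfC_sound p14_15_2_195)) (pfC_sound p14_15_2_196)) (pfC_sound p14_15_2_197)) (pfC_sound p14_15_2_198)) (pfC_sound p14_15_2_199)) (pfC_sound p14_15_2_200)) (pfC_sound p14_15_2_201)) (pfC_sound p14_15_2_202)) (pfC_sound p14_15_2_203)) (pfC_sound p14_15_2_204)) (pfC_sound p14_15_2_205)) (pfC_sound p14_15_2_206)) (pfC_sound p14_15_2_207)) (pfC_sound p14_15_2_208)) (pfC_sound p14_15_2_209)) (pfC_sound p14_15_2_210)) (pfC_sound p14_15_2_211)) (pfC_sound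 p14_15_2_212)) (by decide +kernel)

def z14_15_2 : zOK yB14_15 (nat_lit 2) (nat_lit 600) (nat_lit 750) (nat_lit 7072463) (nat_lit 5208761) = true := by decide +kernel
def g14_15_2 : gOK yB14_15.x P14_15 (nat_lit 1415) (q14_15 :: r14_15) (nat_lit 2) (nat_lit 600) (nat_lit 3) (nat_lit 750) (nat_lit 12712500) (nat_lit 12712500) (nat_lit 12712500) (nat_lit 12712500) [(nat_lit 800), (nat_lit 1600)] = true := by decide +kernel
def v14_15_2 : ivC P14_15 s14_15 w14_15 n14_15 (nat_lit 4) (nat_lit 4760) (nat_lit 2) (nat_lit 600) f168_1_600 f176_1_600 (nat_lit 3) (nat_lit 750) f168_1_750 f176_1_750 (nat_lit 7072463) (nat_lit 5208761) p14_15_2 = true := by decide +kernel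
def p14_15_3 : PF := (PF.cons (PF.cons (PF.cons (PF.cons (PF.leaf (nat_lit 2908906) (nat_lit 18020080) (nat_lit 49088732) (nat_lit 18020080) [(nat_lit 0), (nat_lit 0), (nat_lit 0), (nat_lit 0)]) (PF.cons (PF.leaf (nat_lit 3101461) (nat_lit 352552) (nat_lit 48777397) (nat_lit 17978863) [(nat_lit 352552), (nat_lit 0), (nat_lit 0), (nat_lit 0)]) (PF.cons (PF.leaf (nat_lit 3327704) (nat_lit 382428) (nat_lit 48414836) (nat_lit 17929120) [(nat_lit 382428), (nat_lit 0), (nat_lit 0), (nat_lit 0)]) (PF.cons (PF.leaf (nat_lit 3580710) (nat_lit 408584) (nat_lit 48011427) (nat_lit 17871632) [(nat_lit 408584), (nat_lit 0), (nat_lit 0), (nat_lit 0)]) (PF.cons (PF.leaf (nat_lit 3856187) (nat_lit 431821) (nat_lit 47574619) (nat_lit 17806908) [(nat_lit 431821), (nat_lit 0), (nat_lit 0), (nat_lit 0)]) (PF.cons (PF.leaf (nat_lit 4150798) (nat_lit 452655) (nat_lit 47110200) (nat_lit 17735336) [(nat_lit 452655), (nat_lit 0), (nat_lit 0), (nat_lit 0)]) (PF.cons (PF.leaf (nat_lit 4461826)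 (nat_lit 471444) (nat_lit 46622893) (nat_lit 17657251) [(nat_lit 471444), (nat_lit 0), (nat_lit 0), (nat_lit 0)]) (PF.cons (PF.leaf (nat_lit 4786992) (nat_lit 488453) (nat_lit 46116669) (nat_lit 17572971) [(nat_lit 488453), (nat_lit 0),
 (nat_lit 0), (nat_lit 0)]) (PF.cons (PF.leaf (nat_lit 5124319) (nat_lit 503883) (nat_lit 45594936) (nat_lit 17482807) [(nat_lit 503883), (nat_lit 0), (nat_lit 0), (nat_lit 0)]) (PF.cons (PF.leaf (nat_lit 5472058) (nat_lit 517896) (nat_lit 45060663) (nat_lit 17387078) [(nat_lit 517896), (nat_lit 0), (nat_lit 0), (nat_lit 0)]) (PF.cons (PF.leaf (nat_lit 5828665) (nat_lit 530625) (nat_lit 44516452) (nat_lit 17286108) [(nat_lit 530625), (nat_lit 0), (nat_lit 0), (nat_lit 0)]) (PF.cons PF.nil (PF.cons PF.nil (PF.cons PF.nil PF.nil)))))))))))))) (PF.cons (PF.cons (PF.leaf (nat_lit 3490246) (nat_lit 1421161) (nat_lit 47844736) (nat_lit 17842914) [(nat_lit 0), (nat_lit 1421161), (nat_lit 0), (nat_lit 0)]) (PF.cons (PF.leaf (nat_lit 3733654)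 (nat_lit 416804) (nat_lit 47450603) (nat_lit 17783697) [(nat_lit 416804), (nat_lit 1457707), (nat_lit 0), (nat_lit 0)]) (PF.cons (PF.leaf (nat_lit 4001825) (nat_lit 439287) (nat_lit 47020862) (nat_lit 17716828) [(nat_lit 439287), (nat_lit 1492548), (nat_lit 0), (nat_lit 0)]) (PF.cons (PF.leaf (nat_lit 4290096) (nat_lit 459367) (nat_lit 46562562) (nat_lit 17642923) [(nat_lit 459367), (nat_lit 1525225), (nat_lit 0), (nat_lit 0)]) (PF.cons (PF.leaf
 (nat_lit 4595355) (nat_lit 477434) (nat_lit 46081063) (nat_lit 17562454) [(nat_lit 477434), (nat_lit 1555556), (nat_lit 0), (nat_lit 0)]) (PF.cons (PF.leaf (nat_lit 4915093) (nat_lit 493762) (nat_lit 45580672) (nat_lit 17475824) [(nat_lit 493762), (nat_lit 1583501), (nat_lit 0), (nat_lit 0)]) (PF.cons (PF.leaf (nat_lit 5247190) (nat_lit 508556) (nat_lit 45064975) (nat_lit 17383404) [(nat_lit 508556), (nat_lit 1609091), (nat_lit 0), (nat_lit 0)]) (PF.cons (PF.leaf (nat_lit 5589835) (nat_lit 521977) (nat_lit 44537025) (nat_lit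 17285551) [(nat_lit 521977), (nat_lit 1632395), (nat_lit 0), (nat_lit 0)]) (PF.cons (PF.leaf (nat_lit 5941423) (nat_lit 534153) (nat_lit 43999462) (nat_lit 17182616) [(nat_lit 534153), (nat_lit 1653502), (nat_lit 0), (nat_lit 0)]) (PF.cons PF.nil (PF.cons PF.nil (PF.cons PF.nil PF.nil)))))))))))) (PF.cons (PF.cons (PF.leaf (nat_lit 4150778) (nat_lit 1515600) (nat_lit 46456516) (nat_lit 17621096) [(nat_lit 0), (nat_lit 1515600), (nat_lit 0), (nat_lit 0)]) (PF.cons (PF.leaf (nat_lit 4430656) (nat_lit 464924) (nat_lit 46008179) (nat_lit 17545653) [(nat_lit 464924), (nat_lit 1545027), (nat_lit 0), (nat_lit 0)]) (PF.cons (PF.leaf (nat_lit 4729066) (nat_lit 482470)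
 (nat_lit 45535271) (nat_lit 17463433) [(nat_lit 482470), (nat_lit 1572583), (nat_lit 0), (nat_lit 0)]) (PF.cons (PF.leaf (nat_lit 5042632) (nat_lit 498264) (nat_lit 45042814) (nat_lit 17374984) [(nat_lit 498264), (nat_lit 1598110), (nat_lit 0), (nat_lit 0)]) (PF.cons (PF.leaf (nat_lit 5368988) (nat_lit 512534) (nat_lit 44534783) (nat_lit 17280766) [(nat_lit 512534), (nat_lit 1621562), (nat_lit 0), (nat_lit 0)]) (PF.cons (PF.leaf (nat_lit 5706153) (nat_lit 525450) (nat_lit 44014449) (nat_lit 17181195) [(nat_lit 525450), (nat_lit 1642957), (nat_lit 0), (nat_lit 0)]) (PF.cons (PF.leaf (nat_lit 6052443) (nat_lit 537147) (nat_lit 43484572) (nat_lit 17076661) [(nat_lit 537147), (nat_lit 1662347), (nat_lit 0), (nat_lit 0)]) (PF.cons (PF.leaf (nat_lit 6406377) (nat_lit 547736) (nat_lit 42947518) (nat_lit 16967536) [(nat_lit 547736), (nat_lit 1679802), (nat_lit 0), (nat_lit 0)]) (PF.cons PF.nil (PF.cons PF.nil PF.nil)))))))))) (PF.cons (PF.cons (PF.leaf (nat_lit 4864572) (nat_lit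 1588001) (nat_lit 44984739) (nat_lit 17360070) [(nat_lit 0), (nat_lit 1588001), (nat_lit 0), (nat_lit 0)]) (PF.cons (PF.leaf (nat_lit 5170547) (nat_lit 501960) (nat_lit 44502665) (nat_lit 17270423) [(nat_lit
 501960), (nat_lit 1611254), (nat_lit 0), (nat_lit 0)]) (PF.cons (PF.leaf (nat_lit 5490403) (nat_lit 515825) (nat_lit 44004125) (nat_lit 17174923) [(nat_lit 515825), (nat_lit 1632704), (nat_lit 0), (nat_lit 0)]) (PF.cons (PF.leaf (nat_lit 5821580) (nat_lit 528328) (nat_lit 43492808) (nat_lit 17074074) [(nat_lit 528328), (nat_lit 1652314), (nat_lit 0), (nat_lit 0)]) (PF.cons (PF.leaf (nat_lit 6162194) (nat_lit 539619) (nat_lit 42971713) (nat_lit 16968325) [(nat_lit 539619), (nat_lit 1670098), (nat_lit 0), (nat_lit 0)]) (PF.cons (PF.leaf (nat_lit 6510706) (nat_lit 549815) (nat_lit 42443346) (nat_lit 16858086) [(nat_lit 549815), (nat_lit 1686101), (nat_lit 0), (nat_lit 0)]) (PF.cons PF.nil (PF.cons PF.nil (PF.cons PF.nil PF.nil))))))))) (PF.cons (PF.cons (PF.leaf (nat_lit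 5612636) (nat_lit 1642630) (nat_lit 43472462) (nat_lit 17065829) [(nat_lit 0), (nat_lit 1642630), (nat_lit 0), (nat_lit 0)]) (PF.cons (PF.leaf (nat_lit 5936781) (nat_lit 530611) (nat_lit 42971769) (nat_lit 16964197) [(nat_lit 530611), (nat_lit 1660558), (nat_lit 0), (nat_lit 0)]) (PF.cons (PF.leaf (nat_lit 6271242) (nat_lit 541574) (nat_lit 42460673) (nat_lit 16857652) [(nat_lit 541574), (nat_lit 1676834), (nat_lit
 0), (nat_lit 0)]) (PF.cons (PF.leaf (nat_lit 6613953) (nat_lit 551440) (nat_lit 41941931) (nat_lit 16746662) [(nat_lit 551440), (nat_lit 1691474), (nat_lit 0), (nat_lit 0)]) (PF.cons (PF.leaf (nat_lit 6963451) (nat_lit 560315) (nat_lit 41417824) (nat_lit 16631650) [(nat_lit 560315), (nat_lit 1704519), (nat_lit 0), (nat_lit 0)]) (PF.cons PF.nil (PF.cons PF.nil PF.nil))))))) (PF.cons (PF.cons (PF.leaf (nat_lit 6380477) (nat_lit 1682625) (nat_lit 41951047) (nat_lit 16744637) [(nat_lit 0), (nat_lit 1682625), (nat_lit 0), (nat_lit 0)]) (PF.cons (PF.leaf (nat_lit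 6716626) (nat_lit 552612) (nat_lit 41442998) (nat_lit 16633290) [(nat_lit 552612), (nat_lit 1695982), (nat_lit 0), (nat_lit 0)]) (PF.cons (PF.leaf (nat_lit 7060262) (nat_lit 561219) (nat_lit 40929106) (nat_lit 16517946) [(nat_lit 561219), (nat_lit 1707864), (nat_lit 0), (nat_lit 0)]) (PF.cons PF.nil (PF.cons PF.nil PF.nil))))) (PF.cons (PF.cons (PF.leaf (nat_lit 7156914) (nat_lit 1710468) (nat_lit 40443358) (nat_lit 16402644) [(nat_lit 0), (nat_lit 1710468), (nat_lit 0), (nat_lit 0)]) (PF.cons (PF.leaf (nat_lit 7500213) (nat_lit 569209) (nat_lit 39936304) (nat_lit 16283774) [(nat_lit 569209), (nat_lit 1719920), (nat_lit 0),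
 (nat_lit 0)]) (PF.cons PF.nil (PF.cons PF.nil PF.nil)))) (PF.cons (PF.cons (PF.leaf (nat_lit 7933345) (nat_lit 1728199) (nat_lit 38965829) (nat_lit 16045590) [(nat_lit 0), (nat_lit 1728199), (nat_lit 0), (nat_lit 0)]) (PF.cons PF.nil PF.nil)) (PF.cons PF.nil PF.nil))))))))) (PF.cons (PF.cons (PF.cons (PF.leaf (nat_lit 4028549) (nat_lit 3527019) (nat_lit 46049149) (nat_lit 17532644) [(nat_lit 0), (nat_lit 0), (nat_lit 3527019), (nat_lit 0)]) (PF.cons (PF.leaf (nat_lit 4280006) (nat_lit 440968) (nat_lit 45649382) (nat_lit 17463889) [(nat_lit 440968), (nat_lit 0), (nat_lit 3554572), (nat_lit 0)]) (PF.cons (PF.leaf (nat_lit 4554670) (nat_lit 461543) (nat_lit 45217125) (nat_lit 17387388) [(nat_lit 461543), (nat_lit 0), (nat_lit 3581212), (nat_lit 0)]) (PF.cons (PF.leaf (nat_lit 4847787) (nat_lit 479668) (nat_lit 44759554) (nat_lit 17304008) [(nat_lit 479668), (nat_lit 0), (nat_lit 3606243), (nat_lit 0)]) (PF.cons (PF.leaf (nat_lit 5156259) (nat_lit 495797) (nat_lit 44281977)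 (nat_lit 17214398) [(nat_lit 495797), (nat_lit 0), (nat_lit 3629249), (nat_lit 0)]) (PF.cons (PF.leaf (nat_lit 5477618) (nat_lit 510236) (nat_lit 43788552) (nat_lit 17119088) [(nat_lit 510236), (nat_lit 0),
 (nat_lit 3649989), (nat_lit 0)]) (PF.cons (PF.leaf (nat_lit 5809823) (nat_lit 523211) (nat_lit 43282666) (nat_lit 17018542) [(nat_lit 523211), (nat_lit 0), (nat_lit 3668335), (nat_lit 0)]) (PF.cons (PF.leaf (nat_lit 6151184) (nat_lit 534892) (nat_lit 42767147) (nat_lit 16913182) [(nat_lit 534892), (nat_lit 0), (nat_lit 3684236), (nat_lit 0)]) (PF.cons (PF.leaf (nat_lit 6500176) (nat_lit 545414) (nat_lit 42244398) (nat_lit 16803405) [(nat_lit 545414), (nat_lit 0), (nat_lit 3697693), (nat_lit 0)]) (PF.cons PF.nil PF.nil)))))))))) (PF.cons (PF.cons (PF.leaf (nat_lit 4696535) (nat_lit 1562572) (nat_lit 44663965) (nat_lit 17282107) [(nat_lit 0), (nat_lit 1562572), (nat_lit 3600167), (nat_lit 0)]) (PF.cons (PF.leaf (nat_lit 4980537) (nat_lit 483192) (nat_lit 44218794)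 (nat_lit 17198177) [(nat_lit 483192), (nat_lit 1586860), (nat_lit 3621788), (nat_lit 0)]) (PF.cons (PF.leaf (nat_lit 5281584) (nat_lit 499009) (nat_lit 43751911) (nat_lit 17107744) [(nat_lit 499009), (nat_lit 1609412), (nat_lit 3641726), (nat_lit 0)]) (PF.cons (PF.leaf (nat_lit 5596337) (nat_lit 513094) (nat_lit 43268227) (nat_lit 17011496) [(nat_lit 513094), (nat_lit 1630126), (nat_lit 3659680), (nat_lit 0)]) (PF.cons
 (PF.leaf (nat_lit 5922479) (nat_lit 525699) (nat_lit 42771551) (nat_lit 16909992) [(nat_lit 525699), (nat_lit 1648988), (nat_lit 3675484), (nat_lit 0)]) (PF.cons (PF.leaf (nat_lit 6258120) (nat_lit 537011) (nat_lit 42264954) (nat_lit 16803715) [(nat_lit 537011), (nat_lit 1666028), (nat_lit 3689058), (nat_lit 0)]) (PF.cons (PF.leaf (nat_lit 6601659) (nat_lit 547173) (nat_lit 41750983) (nat_lit 16693100) [(nat_lit 547173), (nat_lit 1681304), (nat_lit 3700382), (nat_lit 0)]) (PF.cons PF.nil (PF.cons PF.nil PF.nil))))))))) (PF.cons (PF.cons (PF.leaf (nat_lit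 5408964) (nat_lit 1620181) (nat_lit 43218905) (nat_lit 16997468) [(nat_lit 0), (nat_lit 1620181), (nat_lit 3652077), (nat_lit 0)]) (PF.cons (PF.leaf (nat_lit 5715716) (nat_lit 515258) (nat_lit 42747096) (nat_lit 16900883) [(nat_lit 515258), (nat_lit 1639077), (nat_lit 3667418), (nat_lit 0)]) (PF.cons (PF.leaf (nat_lit 6035075) (nat_lit 527600) (nat_lit 42261187) (nat_lit 16798907) [(nat_lit 527600), (nat_lit 1656335), (nat_lit 3680846), (nat_lit 0)]) (PF.cons (PF.leaf (nat_lit 6364499) (nat_lit 538624) (nat_lit 41764684) (nat_lit 16692119) [(nat_lit 538624), (nat_lit 1671942), (nat_lit 3692248), (nat_lit 0)]) (PF.cons (PF.leaf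
 (nat_lit 6702233) (nat_lit 548492) (nat_lit 41260390) (nat_lit 16581014) [(nat_lit 548492), (nat_lit 1685927), (nat_lit 3701584), (nat_lit 0)]) (PF.cons (PF.leaf (nat_lit 7046804) (nat_lit 557327) (nat_lit 40750610) (nat_lit 16466033) [(nat_lit 557327), (nat_lit 1698339), (nat_lit 3708855), (nat_lit 0)]) (PF.cons PF.nil PF.nil))))))) (PF.cons (PF.cons (PF.leaf (nat_lit 6148738) (nat_lit 1662714) (nat_lit 41750930) (nat_lit 16685208) [(nat_lit 0), (nat_lit 1662714), (nat_lit 3684529), (nat_lit 0)]) (PF.cons (PF.leaf (nat_lit 6470961) (nat_lit 539723) (nat_lit 41265907) (nat_lit 16578372) [(nat_lit 539723), (nat_lit 1676968), (nat_lit 3693905), (nat_lit 0)]) (PF.cons (PF.leaf (nat_lit 6802416) (nat_lit 549367) (nat_lit 40772319) (nat_lit 16467161) [(nat_lit 549367), (nat_lit 1689737), (nat_lit 3701387), (nat_lit 0)]) (PF.cons (PF.leaf (nat_lit 7141122) (nat_lit 557965) (nat_lit 40272733) (nat_lit 16352075) [(nat_lit 557965), (nat_lit 1701049), (nat_lit 3706959), (nat_lit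 0)]) (PF.cons PF.nil PF.nil))))) (PF.cons (PF.cons (PF.leaf (nat_lit 6903058) (nat_lit 1692785) (nat_lit 40286300) (nat_lit 16351503) [(nat_lit 0), (nat_lit 1692785), (nat_lit 3699867), (nat_lit 0)]) (PF.cons
 (PF.leaf (nat_lit 7235164) (nat_lit 558211) (nat_lit 39797817) (nat_lit 16236673) [(nat_lit 558211), (nat_lit 1703062), (nat_lit 3703860), (nat_lit 0)]) (PF.cons (PF.leaf (nat_lit 7573876) (nat_lit 565687) (nat_lit 39304848) (nat_lit 16118392) [(nat_lit 565687), (nat_lit 1712024), (nat_lit 3706098), (nat_lit 0)]) (PF.cons PF.nil PF.nil)))) (PF.cons (PF.cons (PF.leaf (nat_lit 7662168) (nat_lit 1712498) (nat_lit 38843729) (nat_lit 16002070) [(nat_lit 0), (nat_lit 1712498), (nat_lit 3700517), (nat_lit 0)]) (PF.cons (PF.leaf (nat_lit 7999814) (nat_lit 571873) (nat_lit 38358876) (nat_lit 15881311) [(nat_lit 571873), (nat_lit 1719389), (nat_lit 3699803), (nat_lit 0)]) PF.nil)) (PF.cons PF.nil (PF.cons PF.nil PF.nil)))))))) (PF.cons (PF.cons (PF.cons (PF.leaf (nat_lit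 5227517) (nat_lit 3628363) (nat_lit 42930401) (nat_lit 16921684) [(nat_lit 0), (nat_lit 0), (nat_lit 3628363), (nat_lit 0)]) (PF.cons (PF.leaf (nat_lit 5513577) (nat_lit 497082) (nat_lit 42493288) (nat_lit 16831310) [(nat_lit 497082), (nat_lit 0), (nat_lit 3643565), (nat_lit 0)]) (PF.cons (PF.leaf (nat_lit 5815395) (nat_lit 511396) (nat_lit 42036912) (nat_lit 16734770) [(nat_lit 511396), (nat_lit 0), (nat_lit 3657168),
 (nat_lit 0)]) (PF.cons (PF.leaf (nat_lit 6129645) (nat_lit 524005) (nat_lit 41566019) (nat_lit 16632854) [(nat_lit 524005), (nat_lit 0), (nat_lit 3668961), (nat_lit 0)]) (PF.cons (PF.leaf (nat_lit 6454118) (nat_lit 535181) (nat_lit 41084229) (nat_lit 16526188) [(nat_lit 535181), (nat_lit 0), (nat_lit 3678834), (nat_lit 0)]) (PF.cons (PF.leaf (nat_lit 6786968) (nat_lit 545121) (nat_lit 40594412) (nat_lit 16415298) [(nat_lit 545121), (nat_lit 0), (nat_lit 3686746), (nat_lit 0)]) (PF.cons (PF.leaf (nat_lit 7126697) (nat_lit 553975) (nat_lit 40098917) (nat_lit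 16300643) [(nat_lit 553975), (nat_lit 0), (nat_lit 3692698), (nat_lit 0)]) (PF.cons PF.nil (PF.cons PF.nil PF.nil))))))))) (PF.cons (PF.cons (PF.leaf (nat_lit 5934805) (nat_lit 1641305) (nat_lit 41524634) (nat_lit 16619950) [(nat_lit 0), (nat_lit 1641305), (nat_lit 3661461), (nat_lit 0)]) (PF.cons (PF.leaf (nat_lit 6240836) (nat_lit 524942) (nat_lit 41066488) (nat_lit 16518417) [(nat_lit 524942), (nat_lit 1656592), (nat_lit 3671185), (nat_lit 0)]) (PF.cons (PF.leaf (nat_lit 6558330) (nat_lit 535968) (nat_lit 40596192) (nat_lit 16411952) [(nat_lit 535968), (nat_lit 1670378), (nat_lit 3679176), (nat_lit 0)]) (PF.cons (PF.leaf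
 (nat_lit 6884859) (nat_lit 545719) (nat_lit 40117064) (nat_lit 16301181) [(nat_lit 545719), (nat_lit 1682673), (nat_lit 3685367), (nat_lit 0)]) (PF.cons (PF.leaf (nat_lit 7218730) (nat_lit 554367) (nat_lit 39631714) (nat_lit 16186629) [(nat_lit 554367), (nat_lit 1693514), (nat_lit 3689742), (nat_lit 0)]) (PF.cons (PF.leaf (nat_lit 7558539) (nat_lit 562040) (nat_lit 39142262) (nat_lit 16068748) [(nat_lit 562040), (nat_lit 1702958), (nat_lit 3692321), (nat_lit 0)]) (PF.cons PF.nil PF.nil))))))) (PF.cons (PF.cons (PF.leaf (nat_lit 6663847) (nat_lit 1673931) (nat_lit 40108992) (nat_lit 16295630) [(nat_lit 0), (nat_lit 1673931), (nat_lit 3678163), (nat_lit 0)]) (PF.cons (PF.leaf (nat_lit 6983089) (nat_lit 545865) (nat_lit 39641764) (nat_lit 16185409) [(nat_lit 545865), (nat_lit 1685133), (nat_lit 3682753), (nat_lit 0)]) (PF.cons (PF.leaf (nat_lit 7310630) (nat_lit 554372) (nat_lit 39167443) (nat_lit 16071308) [(nat_lit 554372), (nat_lit 1694993), (nat_lit 3685664), (nat_lit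 0)]) (PF.cons (PF.leaf (nat_lit 7644589) (nat_lit 561884) (nat_lit 38688415) (nat_lit 15953842) [(nat_lit 561884), (nat_lit 1703548), (nat_lit 3686903), (nat_lit 0)]) (PF.cons PF.nil PF.nil))))) (PF.cons (PF.cons
 (PF.leaf (nat_lit 7403247) (nat_lit 1695852) (nat_lit 38705597) (nat_lit 15954618) [(nat_lit 0), (nat_lit 1695852), (nat_lit 3680519), (nat_lit 0)]) (PF.cons (PF.leaf (nat_lit 7730627) (nat_lit 561384) (nat_lit 38237781) (nat_lit 15837895) [(nat_lit 561384), (nat_lit 1703572), (nat_lit 3680518), (nat_lit 0)]) (PF.cons (PF.leaf (nat_lit 8063883) (nat_lit 567891) (nat_lit 37766528) (nat_lit 15718197) [(nat_lit 567891), (nat_lit 1710115), (nat_lit 3678979), (nat_lit 0)]) (PF.cons PF.nil PF.nil)))) (PF.cons (PF.cons (PF.leaf (nat_lit 8144469) (nat_lit 1708892) (nat_lit 37329857) (nat_lit 15602130) [(nat_lit 0), (nat_lit 1708892), (nat_lit 3670626), (nat_lit 0)]) (PF.cons PF.nil PF.nil)) (PF.cons PF.nil PF.nil)))))) (PF.cons (PF.cons (PF.cons (PF.leaf (nat_lit 6441732)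 (nat_lit 3655868) (nat_lit 39907241) (nat_lit 16233966) [(nat_lit 0), (nat_lit 0), (nat_lit 3655868), (nat_lit 0)]) (PF.cons (PF.leaf (nat_lit 6745838) (nat_lit 531680) (nat_lit 39464929) (nat_lit 16129162) [(nat_lit 531680), (nat_lit 0), (nat_lit 3661013), (nat_lit 0)]) (PF.cons (PF.leaf (nat_lit 7060481) (nat_lit 541559) (nat_lit 39012085) (nat_lit 16019862) [(nat_lit 541559), (nat_lit 0), (nat_lit 3664582), (nat_lit
 0)]) (PF.cons (PF.leaf (nat_lit 7383255) (nat_lit 550209) (nat_lit 38551832) (nat_lit 15906723) [(nat_lit 550209), (nat_lit 0), (nat_lit 3666543), (nat_lit 0)]) (PF.cons (PF.leaf (nat_lit 7712545) (nat_lit 557805) (nat_lit 38086600) (nat_lit 15790280) [(nat_lit 557805), (nat_lit 0), (nat_lit 3666902), (nat_lit 0)]) (PF.cons PF.nil (PF.cons PF.nil PF.nil))))))) (PF.cons (PF.cons (PF.leaf (nat_lit 7158299) (nat_lit 1678059) (nat_lit 38548610) (nat_lit 15902499) [(nat_lit 0), (nat_lit 1678059), (nat_lit 3659880), (nat_lit 0)]) (PF.cons (PF.leaf (nat_lit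 7473780) (nat_lit 549585) (nat_lit 38100370) (nat_lit 15790385) [(nat_lit 549585), (nat_lit 1686713), (nat_lit 3660585), (nat_lit 0)]) (PF.cons (PF.leaf (nat_lit 7796767) (nat_lit 557109) (nat_lit 37646218) (nat_lit 15674835) [(nat_lit 557109), (nat_lit 1694149), (nat_lit 3659796), (nat_lit 0)]) (PF.cons (PF.leaf (nat_lit 8125453) (nat_lit 563684) (nat_lit 37188371) (nat_lit 15556369) [(nat_lit 563684), (nat_lit 1700411), (nat_lit 3657535), (nat_lit 0)]) (PF.cons PF.nil PF.nil))))) (PF.cons (PF.cons (PF.leaf (nat_lit 7881917) (nat_lit 1693258) (nat_lit 37208450) (nat_lit 15558371) [(nat_lit 0), (nat_lit 1693258), (nat_lit 3651824),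
 (nat_lit 0)]) (PF.cons (PF.leaf (nat_lit 8204101) (nat_lit 562584) (nat_lit 36761710) (nat_lit 15441025) [(nat_lit 562584), (nat_lit 1698849), (nat_lit 3648598), (nat_lit 0)]) (PF.cons PF.nil (PF.cons PF.nil PF.nil)))) (PF.cons (PF.cons (PF.leaf (nat_lit 8605042) (nat_lit 1700810) (nat_lit 35899509) (nat_lit 15206279) [(nat_lit 0), (nat_lit 1700810), (nat_lit 3633530), (nat_lit 0)]) (PF.cons PF.nil PF.nil)) (PF.cons PF.nil PF.nil))))) (PF.cons (PF.cons (PF.cons (PF.leaf (nat_lit 7632708) (nat_lit 3632315) (nat_lit 37069506) (nat_lit 15510043) [(nat_lit 0), (nat_lit 0), (nat_lit 3632315), (nat_lit 0)]) (PF.cons (PF.leaf (nat_lit 7943834) (nat_lit 551325) (nat_lit 36640774) (nat_lit 15397240) [(nat_lit 551325), (nat_lit 0), (nat_lit 3629868), (nat_lit 0)]) (PF.cons (PF.leaf (nat_lit 8261820) (nat_lit 557996) (nat_lit 36207082) (nat_lit 15281393) [(nat_lit 557996), (nat_lit 0), (nat_lit 3626086), (nat_lit 0)]) (PF.cons PF.nil PF.nil)))) (PF.cons (PF.cons (PF.leaf (nat_lit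 8340056) (nat_lit 1686152) (nat_lit 35792851) (nat_lit 15166116) [(nat_lit 0), (nat_lit 1686152), (nat_lit 3615923), (nat_lit 0)]) (PF.cons (PF.leaf (nat_lit 8656734) (nat_lit 562179) (nat_lit 35367113) (nat_lit
 15049153) [(nat_lit 562179), (nat_lit 1689967), (nat_lit 3610100), (nat_lit 0)]) PF.nil)) (PF.cons PF.nil PF.nil))) (PF.cons (PF.cons (PF.cons (PF.leaf (nat_lit 8778742) (nat_lit 3574524) (nat_lit 34455815) (nat_lit 14780375) [(nat_lit 0), (nat_lit 0), (nat_lit 3574524), (nat_lit 0)]) (PF.cons PF.nil PF.nil)) (PF.cons PF.nil PF.nil)) (PF.cons PF.nil (PF.cons PF.nil PF.nil)))))))) (PF.cons (PF.cons (PF.cons (PF.cons (PF.leaf (nat_lit 4841535) (nat_lit 8522360) (nat_lit 41961282) (nat_lit 16625170) [(nat_lit 0), (nat_lit 0), (nat_lit 0), (nat_lit 8522360)]) (PF.cons (PF.leaf (nat_lit 5089271) (nat_lit 448686) (nat_lit 41599483) (nat_lit 16549462) [(nat_lit 448686), (nat_lit 0), (nat_lit 0), (nat_lit 8511180)]) (PF.cons (PF.leaf (nat_lit 5358450) (nat_lit 467656)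 (nat_lit 41209890) (nat_lit 16466320) [(nat_lit 467656), (nat_lit 0), (nat_lit 0), (nat_lit 8497288)]) (PF.cons (PF.leaf (nat_lit 5644321) (nat_lit 484069) (nat_lit 40799092) (nat_lit 16376865) [(nat_lit 484069), (nat_lit 0), (nat_lit 0), (nat_lit 8480646)]) (PF.cons (PF.leaf (nat_lit 5943812) (nat_lit 498435) (nat_lit 40371899) (nat_lit 16281921) [(nat_lit 498435), (nat_lit 0), (nat_lit 0), (nat_lit 8461247)]) (PF.cons
 (PF.leaf (nat_lit 6254569) (nat_lit 511105) (nat_lit 39932019) (nat_lit 16182143) [(nat_lit 511105), (nat_lit 0), (nat_lit 0), (nat_lit 8439121)]) (PF.cons (PF.leaf (nat_lit 6574632) (nat_lit 522332) (nat_lit 39482421) (nat_lit 16078074) [(nat_lit 522332), (nat_lit 0), (nat_lit 0), (nat_lit 8414322)]) (PF.cons (PF.leaf (nat_lit 6902408) (nat_lit 532307) (nat_lit 39025543) (nat_lit 15970187) [(nat_lit 532307), (nat_lit 0), (nat_lit 0), (nat_lit 8386930)]) (PF.cons (PF.leaf (nat_lit 7236563) (nat_lit 541180) (nat_lit 38563426) (nat_lit 15858901) [(nat_lit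 541180), (nat_lit 0), (nat_lit 0), (nat_lit 8357039)]) (PF.cons PF.nil PF.nil)))))))))) (PF.cons (PF.cons (PF.leaf (nat_lit 5486893) (nat_lit 1563744) (nat_lit 40718420) (nat_lit 16355410) [(nat_lit 0), (nat_lit 1563744), (nat_lit 0), (nat_lit 8471236)]) (PF.cons (PF.leaf (nat_lit 5763276) (nat_lit 485778) (nat_lit 40320176) (nat_lit 16266644) [(nat_lit 485778), (nat_lit 1583227), (nat_lit 0), (nat_lit 8452986)]) (PF.cons (PF.leaf (nat_lit 6055070) (nat_lit 499964) (nat_lit 39903836) (nat_lit 16172059) [(nat_lit 499964), (nat_lit 1600989), (nat_lit 0), (nat_lit 8431997)]) (PF.cons (PF.leaf (nat_lit 6359024) (nat_lit 512404)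
 (nat_lit 39473790) (nat_lit 16072468) [(nat_lit 512404), (nat_lit 1617008), (nat_lit 0), (nat_lit 8408333)]) (PF.cons (PF.leaf (nat_lit 6672924) (nat_lit 523379) (nat_lit 39033392) (nat_lit 15968510) [(nat_lit 523379), (nat_lit 1631321), (nat_lit 0), (nat_lit 8382071)]) (PF.cons (PF.leaf (nat_lit 6995011) (nat_lit 533097) (nat_lit 38585308) (nat_lit 15860717) [(nat_lit 533097), (nat_lit 1643997), (nat_lit 0), (nat_lit 8353301)]) (PF.cons (PF.leaf (nat_lit 7323790) (nat_lit 541717) (nat_lit 38131716) (nat_lit 15749544) [(nat_lit 541717), (nat_lit 1655117), (nat_lit 0), (nat_lit 8322128)]) (PF.cons PF.nil (PF.cons PF.nil PF.nil))))))))) (PF.cons (PF.cons (PF.leaf (nat_lit 6168585) (nat_lit 1607174) (nat_lit 39434195) (nat_lit 16059664) [(nat_lit 0), (nat_lit 1607174), (nat_lit 0), (nat_lit 8400603)]) (PF.cons (PF.leaf (nat_lit 6464453) (nat_lit 513114) (nat_lit 39015704) (nat_lit 15960791) [(nat_lit 513114), (nat_lit 1621772), (nat_lit 0), (nat_lit 8375657)]) (PF.cons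 (PF.leaf (nat_lit 6771545) (nat_lit 523938) (nat_lit 38585734) (nat_lit 15857357) [(nat_lit 523938), (nat_lit 1634847), (nat_lit 0), (nat_lit 8348149)]) (PF.cons (PF.leaf (nat_lit 7087473) (nat_lit 533474) (nat_lit
 38147346) (nat_lit 15749991) [(nat_lit 533474), (nat_lit 1646428), (nat_lit 0), (nat_lit 8318194)]) (PF.cons (PF.leaf (nat_lit 7410562) (nat_lit 541899) (nat_lit 37702954) (nat_lit 15639209) [(nat_lit 541899), (nat_lit 1656570), (nat_lit 0), (nat_lit 8285909)]) (PF.cons (PF.leaf (nat_lit 7739450) (nat_lit 549348) (nat_lit 37254518) (nat_lit 15525453) [(nat_lit 549348), (nat_lit 1665341), (nat_lit 0), (nat_lit 8251415)]) (PF.cons PF.nil PF.nil))))))) (PF.cons (PF.cons (PF.leaf (nat_lit 6871572) (nat_lit 1637654) (nat_lit 38138785) (nat_lit 15744495) [(nat_lit 0), (nat_lit 1637654), (nat_lit 0), (nat_lit 8312568)]) (PF.cons (PF.leaf (nat_lit 7180389) (nat_lit 533422) (nat_lit 37711194) (nat_lit 15637946) [(nat_lit 533422), (nat_lit 1648204), (nat_lit 0), (nat_lit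 8281635)]) (PF.cons (PF.leaf (nat_lit 7497343) (nat_lit 541718) (nat_lit 37276804) (nat_lit 15527867) [(nat_lit 541718), (nat_lit 1657429), (nat_lit 0), (nat_lit 8248417)]) (PF.cons (PF.leaf (nat_lit 7820579) (nat_lit 549019) (nat_lit 36837812) (nat_lit 15414760) [(nat_lit 549019), (nat_lit 1665376), (nat_lit 0), (nat_lit 8213051)]) (PF.cons PF.nil PF.nil))))) (PF.cons (PF.cons (PF.leaf (nat_lit 7584971) (nat_lit 1657729)
 (nat_lit 36852784) (nat_lit 15415441) [(nat_lit 0), (nat_lit 1657729), (nat_lit 0), (nat_lit 8209670)]) (PF.cons (PF.leaf (nat_lit 7901831) (nat_lit 548368) (nat_lit 36423952) (nat_lit 15303276) [(nat_lit 548368), (nat_lit 1664904), (nat_lit 0), (nat_lit 8173598)]) (PF.cons (PF.leaf (nat_lit 8224494) (nat_lit 554684) (nat_lit 35991692) (nat_lit 15188440) [(nat_lit 554684), (nat_lit 1670937), (nat_lit 0), (nat_lit 8135559)]) (PF.cons PF.nil PF.nil)))) (PF.cons (PF.cons (PF.leaf (nat_lit 8300677) (nat_lit 1669334) (nat_lit 35590395) (nat_lit 15077225)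 [(nat_lit 0), (nat_lit 1669334), (nat_lit 0), (nat_lit 8094520)]) (PF.cons PF.nil PF.nil)) (PF.cons PF.nil (PF.cons PF.nil PF.nil)))))))) (PF.cons (PF.cons (PF.cons (PF.leaf (nat_lit 5978434) (nat_lit 3560447) (nat_lit 39193992) (nat_lit 15988868) [(nat_lit 0), (nat_lit 0), (nat_lit 3560447), (nat_lit 8365504)]) (PF.cons (PF.leaf (nat_lit 6255291) (nat_lit 495278) (nat_lit 38805801) (nat_lit 15896615) [(nat_lit 495278), (nat_lit 0), (nat_lit 3568861), (nat_lit 8342255)]) (PF.cons (PF.leaf (nat_lit 6546485) (nat_lit 508152) (nat_lit 38401453) (nat_lit 15798898) [(nat_lit 508152), (nat_lit 0), (nat_lit 3575793), (nat_lit 8316361)])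
 (PF.cons (PF.leaf (nat_lit 6848805) (nat_lit 519330) (nat_lit 37985145) (nat_lit 15696580) [(nat_lit 519330), (nat_lit 0), (nat_lit 3581132), (nat_lit 8287963)]) (PF.cons (PF.leaf (nat_lit 7160117) (nat_lit 529104) (nat_lit 37560042) (nat_lit 15590326) [(nat_lit 529104), (nat_lit 0), (nat_lit 3584835), (nat_lit 8257190)]) (PF.cons (PF.leaf (nat_lit 7478723) (nat_lit 537686) (nat_lit 37128623) (nat_lit 15480680) [(nat_lit 537686), (nat_lit 0), (nat_lit 3586904), (nat_lit 8224170)]) (PF.cons (PF.leaf (nat_lit 7803229) (nat_lit 545236) (nat_lit 36692892) (nat_lit 15368101) [(nat_lit 545236), (nat_lit 0), (nat_lit 3587369), (nat_lit 8189030)]) (PF.cons PF.nil (PF.cons PF.nil PF.nil))))))))) (PF.cons (PF.cons (PF.leaf (nat_lit 6652841) (nat_lit 1616994) (nat_lit 37952238) (nat_lit 15685091) [(nat_lit 0), (nat_lit 1616994), (nat_lit 3573873), (nat_lit 8280615)]) (PF.cons (PF.leaf (nat_lit 6946991) (nat_lit 519118) (nat_lit 37547851) (nat_lit 15583967) [(nat_lit 519118), (nat_lit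 1628746), (nat_lit 3577746), (nat_lit 8251382)]) (PF.cons (PF.leaf (nat_lit 7251449) (nat_lit 528834) (nat_lit 37133454) (nat_lit 15478677) [(nat_lit 528834), (nat_lit 1639110), (nat_lit 3580120), (nat_lit
 8219781)]) (PF.cons (PF.leaf (nat_lit 7563895) (nat_lit 537314) (nat_lit 36711929) (nat_lit 15369866) [(nat_lit 537314), (nat_lit 1648126), (nat_lit 3580981), (nat_lit 8185964)]) (PF.cons (PF.leaf (nat_lit 7882746) (nat_lit 544739) (nat_lit 36285521) (nat_lit 15258055) [(nat_lit 544739), (nat_lit 1655855), (nat_lit 3580345), (nat_lit 8150076)]) (PF.cons PF.nil (PF.cons PF.nil PF.nil))))))) (PF.cons (PF.cons (PF.leaf (nat_lit 7344390) (nat_lit 1639879) (nat_lit 36707946) (nat_lit 15365667) [(nat_lit 0), (nat_lit 1639879), (nat_lit 3574431), (nat_lit 8181009)]) (PF.cons (PF.leaf (nat_lit 7649743) (nat_lit 536561) (nat_lit 36297297) (nat_lit 15258051) [(nat_lit 536561), (nat_lit 1648067), (nat_lit 3574181), (nat_lit 8146586)]) (PF.cons (PF.leaf (nat_lit 7962501) (nat_lit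 543923) (nat_lit 35880914) (nat_lit 15147293) [(nat_lit 543923), (nat_lit 1655058), (nat_lit 3572532), (nat_lit 8110110)]) (PF.cons (PF.leaf (nat_lit 8280882) (nat_lit 550341) (nat_lit 35460839) (nat_lit 15033892) [(nat_lit 550341), (nat_lit 1660903), (nat_lit 3569514), (nat_lit 8071736)]) (PF.cons PF.nil PF.nil))))) (PF.cons (PF.cons (PF.leaf (nat_lit 8043308) (nat_lit 1653804) (nat_lit 35478578) (nat_lit 15035723)
 [(nat_lit 0), (nat_lit 1653804), (nat_lit 3563963), (nat_lit 8069133)]) (PF.cons (PF.leaf (nat_lit 8355398) (nat_lit 549149) (nat_lit 35068552) (nat_lit 14923560) [(nat_lit 549149), (nat_lit 1659029), (nat_lit 3560102), (nat_lit 8030359)]) (PF.cons PF.nil (PF.cons PF.nil PF.nil)))) (PF.cons (PF.cons (PF.leaf (nat_lit 8742429) (nat_lit 1660439) (nat_lit 34275946) (nat_lit 14699505) [(nat_lit 0), (nat_lit 1660439), (nat_lit 3544225), (nat_lit 7947376)]) (PF.cons PF.nil PF.nil)) (PF.cons PF.nil PF.nil)))))) (PF.cons (PF.cons (PF.cons (PF.leaf (nat_lit 7119913)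 (nat_lit 3553216) (nat_lit 36541666) (nat_lit 15310265) [(nat_lit 0), (nat_lit 0), (nat_lit 3553216), (nat_lit 8150447)]) (PF.cons (PF.leaf (nat_lit 7411530) (nat_lit 522926) (nat_lit 36152448) (nat_lit 15208004) [(nat_lit 522926), (nat_lit 0), (nat_lit 3553772), (nat_lit 8117887)]) (PF.cons (PF.leaf (nat_lit 7712690) (nat_lit 531675) (nat_lit 35754449) (nat_lit 15101941) [(nat_lit 531675), (nat_lit 0), (nat_lit 3552964), (nat_lit 8083141)]) (PF.cons (PF.leaf (nat_lit 8021115) (nat_lit 539239) (nat_lit 35350373) (nat_lit 14992725) [(nat_lit 539239), (nat_lit 0), (nat_lit 3550800), (nat_lit 8046393)]) (PF.cons (PF.leaf (nat_lit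
 8335293) (nat_lit 545800) (nat_lit 34942308) (nat_lit 14880875) [(nat_lit 545800), (nat_lit 0), (nat_lit 3547311), (nat_lit 8007803)]) (PF.cons PF.nil (PF.cons PF.nil PF.nil))))))) (PF.cons (PF.cons (PF.leaf (nat_lit 7798999) (nat_lit 1637090) (nat_lit 35350275) (nat_lit 14989741) [(nat_lit 0), (nat_lit 1637090), (nat_lit 3544797), (nat_lit 8042111)]) (PF.cons (PF.leaf (nat_lit 8100388) (nat_lit 537920) (nat_lit 34956969) (nat_lit 14882014) [(nat_lit 537920), (nat_lit 1643301), (nat_lit 3541773), (nat_lit 8005059)]) (PF.cons (PF.leaf (nat_lit 8408551) (nat_lit 544472) (nat_lit 34558794) (nat_lit 14771486) [(nat_lit 544472), (nat_lit 1648425), (nat_lit 3537499), (nat_lit 7966163)]) (PF.cons PF.nil (PF.cons PF.nil PF.nil))))) (PF.cons (PF.cons (PF.leaf (nat_lit 8483037) (nat_lit 1645932) (nat_lit 34177590) (nat_lit 14661507) [(nat_lit 0), (nat_lit 1645932), (nat_lit 3527069), (nat_lit 7923710)]) (PF.cons (PF.leaf (nat_lit 8790058) (nat_lit 548501) (nat_lit 33786262) (nat_lit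 14550134) [(nat_lit 548501), (nat_lit 1649527), (nat_lit 3520938), (nat_lit 7882982)]) (PF.cons PF.nil (PF.cons PF.nil PF.nil)))) (PF.cons (PF.cons (PF.leaf (nat_lit 9165619) (nat_lit 1648469) (nat_lit 33033503)
 (nat_lit 14329361) [(nat_lit 0), (nat_lit 1648469), (nat_lit 3501564), (nat_lit 7797409)]) (PF.cons PF.nil PF.nil)) (PF.cons PF.nil PF.nil))))) (PF.cons (PF.cons (PF.cons (PF.leaf (nat_lit 8236096) (nat_lit 3509115) (nat_lit 34063914) (nat_lit 14619176) [(nat_lit 0), (nat_lit 0), (nat_lit 3509115), (nat_lit 7898374)]) (PF.cons (PF.leaf (nat_lit 8533139) (nat_lit 537825) (nat_lit 33687963) (nat_lit 14512094) [(nat_lit 537825), (nat_lit 0), (nat_lit 3503842), (nat_lit 7859402)]) (PF.cons (PF.leaf (nat_lit 8836433) (nat_lit 543670) (nat_lit 33307846) (nat_lit 14402512) [(nat_lit 543670), (nat_lit 0), (nat_lit 3497447), (nat_lit 7818770)]) (PF.cons PF.nil PF.nil)))) (PF.cons (PF.cons (PF.leaf (nat_lit 8905071) (nat_lit 1634920) (nat_lit 32947001) (nat_lit 14294672)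 [(nat_lit 0), (nat_lit 1634920), (nat_lit 3485593), (nat_lit 7775438)]) (PF.cons (PF.leaf (nat_lit 9206863) (nat_lit 546688) (nat_lit 32573991) (nat_lit 14184701) [(nat_lit 546688), (nat_lit 1637152), (nat_lit 3477637), (nat_lit 7733365)]) PF.nil)) (PF.cons PF.nil PF.nil))) (PF.cons (PF.cons (PF.cons (PF.leaf (nat_lit 9310369) (nat_lit 3440689) (nat_lit 31783551) (nat_lit 13936579) [(nat_lit 0), (nat_lit 0), (nat_lit
 3440689), (nat_lit 7625924)]) (PF.cons PF.nil PF.nil)) (PF.cons PF.nil PF.nil)) (PF.cons PF.nil PF.nil)))))) (PF.cons (PF.cons (PF.cons (PF.cons (PF.leaf (nat_lit 6653157) (nat_lit 8023021) (nat_lit 35965113) (nat_lit 15097657) [(nat_lit 0), (nat_lit 0), (nat_lit 0), (nat_lit 8023021)]) (PF.cons (PF.leaf (nat_lit 6920457) (nat_lit 489073) (nat_lit 35621194) (nat_lit 15007335) [(nat_lit 489073), (nat_lit 0), (nat_lit 0), (nat_lit 7995604)]) (PF.cons (PF.leaf (nat_lit 7200968) (nat_lit 500774) (nat_lit 35263514) (nat_lit 14912158) [(nat_lit 500774), (nat_lit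 0), (nat_lit 0), (nat_lit 7965795)]) (PF.cons (PF.leaf (nat_lit 7491564) (nat_lit 510811) (nat_lit 34895768) (nat_lit 14813000) [(nat_lit 510811), (nat_lit 0), (nat_lit 0), (nat_lit 7933805)]) (PF.cons (PF.leaf (nat_lit 7790222) (nat_lit 519487) (nat_lit 34520716) (nat_lit 14710522) [(nat_lit 519487), (nat_lit 0), (nat_lit 0), (nat_lit 7899812)]) (PF.cons (PF.leaf (nat_lit 8095344) (nat_lit 527020) (nat_lit 34140507) (nat_lit 14605255) [(nat_lit 527020), (nat_lit 0), (nat_lit 0), (nat_lit 7863972)]) (PF.cons PF.nil (PF.cons PF.nil (PF.cons PF.nil PF.nil))))))))) (PF.cons (PF.cons (PF.leaf (nat_lit 7296474) (nat_lit 1582049)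
 (nat_lit 34869634) (nat_lit 14803000) [(nat_lit 0), (nat_lit 1582049), (nat_lit 0), (nat_lit 7927064)]) (PF.cons (PF.leaf (nat_lit 7579072) (nat_lit 509823) (nat_lit 34512724) (nat_lit 14705463) [(nat_lit 509823), (nat_lit 1591245), (nat_lit 0), (nat_lit 7894778)]) (PF.cons (PF.leaf (nat_lit 7871077) (nat_lit 518508) (nat_lit 34147371) (nat_lit 14604352) [(nat_lit 518508), (nat_lit 1599158), (nat_lit 0), (nat_lit 7860456)]) (PF.cons (PF.leaf (nat_lit 8170263) (nat_lit 526004) (nat_lit 33776080) (nat_lit 14500296) [(nat_lit 526004), (nat_lit 1605848), (nat_lit 0), (nat_lit 7824287)]) (PF.cons (PF.leaf (nat_lit 8475147) (nat_lit 532495) (nat_lit 33400788) (nat_lit 14393795) [(nat_lit 532495), (nat_lit 1611386), (nat_lit 0), (nat_lit 7786430)]) (PF.cons PF.nil (PF.cons PF.nil PF.nil))))))) (PF.cons (PF.cons (PF.leaf (nat_lit 7953773) (nat_lit 1598109) (nat_lit 33775067) (nat_lit 14497262) [(nat_lit 0), (nat_lit 1598109), (nat_lit 0), (nat_lit 7820131)]) (PF.cons (PF.leaf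 (nat_lit 8246115) (nat_lit 524658) (nat_lit 33413512) (nat_lit 14394725) [(nat_lit 524658), (nat_lit 1604164), (nat_lit 0), (nat_lit 7783793)]) (PF.cons (PF.leaf (nat_lit 8545173) (nat_lit 531142) (nat_lit 33047157)
 (nat_lit 14289575) [(nat_lit 531142), (nat_lit 1609142), (nat_lit 0), (nat_lit 7745755)]) (PF.cons PF.nil (PF.cons PF.nil PF.nil))))) (PF.cons (PF.cons (PF.leaf (nat_lit 8616514) (nat_lit 1606553) (nat_lit 32695506) (nat_lit 14184876) [(nat_lit 0), (nat_lit 1606553), (nat_lit 0), (nat_lit 7704385)]) (PF.cons (PF.leaf (nat_lit 8914604) (nat_lit 535099) (nat_lit 32334991) (nat_lit 14079055) [(nat_lit 535099), (nat_lit 1610047), (nat_lit 0), (nat_lit 7664762)]) (PF.cons PF.nil (PF.cons PF.nil PF.nil)))) (PF.cons (PF.cons (PF.leaf (nat_lit 9278540) (nat_lit 1608897) (nat_lit 31640290) (nat_lit 13869337) [(nat_lit 0), (nat_lit 1608897), (nat_lit 0), (nat_lit 7581796)]) (PF.cons PF.nil PF.nil)) (PF.cons PF.nil PF.nil)))))) (PF.cons (PF.cons (PF.cons (PF.leaf (nat_lit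 7729616) (nat_lit 3439186) (nat_lit 33637286) (nat_lit 14448153) [(nat_lit 0), (nat_lit 0), (nat_lit 3439186), (nat_lit 7792093)]) (PF.cons (PF.leaf (nat_lit 8009393) (nat_lit 511656) (nat_lit 33294186) (nat_lit 14350705) [(nat_lit 511656), (nat_lit 0), (nat_lit 3436794), (nat_lit 7757734)]) (PF.cons (PF.leaf (nat_lit 8297942) (nat_lit 519514) (nat_lit 32943597) (nat_lit 14249986) [(nat_lit 519514), (nat_lit 0), (nat_lit
 3433208), (nat_lit 7721495)]) (PF.cons (PF.leaf (nat_lit 8593073) (nat_lit 526235) (nat_lit 32587873) (nat_lit 14146617) [(nat_lit 526235), (nat_lit 0), (nat_lit 3428458), (nat_lit 7683578)]) (PF.cons PF.nil PF.nil))))) (PF.cons (PF.cons (PF.leaf (nat_lit 8374887) (nat_lit 1590988) (nat_lit 32589986) (nat_lit 14144662) [(nat_lit 0), (nat_lit 1590988), (nat_lit 3423065), (nat_lit 7680054)]) (PF.cons (PF.leaf (nat_lit 8663270) (nat_lit 524468) (nat_lit 32243800) (nat_lit 14042989) [(nat_lit 524468), (nat_lit 1595477), (nat_lit 3417726), (nat_lit 7642175)])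 (PF.cons (PF.leaf (nat_lit 8957845) (nat_lit 530271) (nat_lit 31893469) (nat_lit 13938972) [(nat_lit 530271), (nat_lit 1598986), (nat_lit 3411320), (nat_lit 7602760)]) (PF.cons PF.nil PF.nil)))) (PF.cons (PF.cons (PF.leaf (nat_lit 9023780) (nat_lit 1595505) (nat_lit 31560074) (nat_lit 13836516) [(nat_lit 0), (nat_lit 1595505), (nat_lit 3399600), (nat_lit 7560805)]) (PF.cons (PF.leaf (nat_lit 9317043) (nat_lit 533274) (nat_lit 31215847) (nat_lit 13732215) [(nat_lit 533274), (nat_lit 1597725), (nat_lit 3391747), (nat_lit 7520138)]) PF.nil)) (PF.cons PF.nil (PF.cons PF.nil PF.nil))))) (PF.cons (PF.cons (PF.cons (PF.leaf (nat_lit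
 8780644) (nat_lit 3383225) (nat_lit 31466434) (nat_lit 13799643) [(nat_lit 0), (nat_lit 0), (nat_lit 3383225), (nat_lit 7538142)]) (PF.cons (PF.leaf (nat_lit 9064799) (nat_lit 523185) (nat_lit 31135400) (nat_lit 13699312) [(nat_lit 523185), (nat_lit 0), (nat_lit 3376250), (nat_lit 7499206)]) (PF.cons (PF.leaf (nat_lit 9354739) (nat_lit 528392) (nat_lit 30800762) (nat_lit 13596875) [(nat_lit 528392), (nat_lit 0), (nat_lit 3368315), (nat_lit 7458879)]) (PF.cons PF.nil PF.nil)))) (PF.cons (PF.cons (PF.leaf (nat_lit 9415671) (nat_lit 1582240) (nat_lit 30484816) (nat_lit 13496965) [(nat_lit 0), (nat_lit 1582240), (nat_lit 3355670), (nat_lit 7416725)]) (PF.cons PF.nil PF.nil)) (PF.cons PF.nil PF.nil))) (PF.cons (PF.cons (PF.cons (PF.leaf (nat_lit 9793025) (nat_lit 3309642) (nat_lit 29466645) (nat_lit 13166911) [(nat_lit 0), (nat_lit 0), (nat_lit 3309642), (nat_lit 7273164)]) (PF.cons PF.nil PF.nil)) (PF.cons PF.nil PF.nil)) (PF.cons PF.nil PF.nil))))) (PF.cons (PF.cons (PF.cons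 (PF.cons (PF.leaf (nat_lit 8283664) (nat_lit 7445627) (nat_lit 31118565) (nat_lit 13653364) [(nat_lit 0), (nat_lit 0), (nat_lit 0), (nat_lit 7445627)]) (PF.cons (PF.leaf (nat_lit 8552349) (nat_lit 499075)
 (nat_lit 30815046) (nat_lit 13561703) [(nat_lit 499075), (nat_lit 0), (nat_lit 0), (nat_lit 7410996)]) (PF.cons (PF.leaf (nat_lit 8829199) (nat_lit 506214) (nat_lit 30505033) (nat_lit 13467185) [(nat_lit 506214), (nat_lit 0), (nat_lit 0), (nat_lit 7374721)]) (PF.cons (PF.leaf (nat_lit 9112093) (nat_lit 512265) (nat_lit 30190582) (nat_lit 13370395) [(nat_lit 512265), (nat_lit 0), (nat_lit 0), (nat_lit 7337012)]) (PF.cons PF.nil PF.nil))))) (PF.cons (PF.cons (PF.leaf (nat_lit 8898461) (nat_lit 1542873) (nat_lit 30194245) (nat_lit 13369275) [(nat_lit 0), (nat_lit 1542873), (nat_lit 0), (nat_lit 7334139)]) (PF.cons (PF.leaf (nat_lit 9174879) (nat_lit 510212) (nat_lit 29888203) (nat_lit 13274243) [(nat_lit 510212), (nat_lit 1546126), (nat_lit 0), (nat_lit 7296675)]) (PF.cons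 (PF.leaf (nat_lit 9457038) (nat_lit 515425) (nat_lit 29578548) (nat_lit 13177207) [(nat_lit 515425), (nat_lit 1548488), (nat_lit 0), (nat_lit 7257905)]) (PF.cons PF.nil PF.nil)))) (PF.cons (PF.cons (PF.leaf (nat_lit 9516021) (nat_lit 1544416) (nat_lit 29285445) (nat_lit 13082425) [(nat_lit 0), (nat_lit 1544416), (nat_lit 0), (nat_lit 7217369)]) (PF.cons PF.nil PF.nil)) PF.nil))) (PF.cons (PF.cons (PF.cons (PF.leaf
 (nat_lit 9277583) (nat_lit 3259090) (nat_lit 29207763) (nat_lit 13050360) [(nat_lit 0), (nat_lit 0), (nat_lit 3259090), (nat_lit 7197199)]) (PF.cons (PF.leaf (nat_lit 9549966) (nat_lit 508165) (nat_lit 28914845) (nat_lit 12957003) [(nat_lit 508165), (nat_lit 0), (nat_lit 3251132), (nat_lit 7159222)]) (PF.cons PF.nil PF.nil))) (PF.cons (PF.cons (PF.leaf (nat_lit 9882394) (nat_lit 1529941) (nat_lit 28340558) (nat_lit 12769705) [(nat_lit 0), (nat_lit 1529941), (nat_lit 3229449), (nat_lit 7079719)]) PF.nil) PF.nil)) (PF.cons PF.nil PF.nil))) (PF.cons (PF.cons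 (PF.cons (PF.cons (PF.leaf (nat_lit 9735376) (nat_lit 6877690) (nat_lit 27231107) (nat_lit 12366944) [(nat_lit 0), (nat_lit 0), (nat_lit 0), (nat_lit 6877690)]) (PF.cons (PF.leaf (nat_lit 9996963) (nat_lit 493217) (nat_lit 26970573) (nat_lit 12280367) [(nat_lit 493217), (nat_lit 0), (nat_lit 0), (nat_lit 6841163)]) PF.nil)) (PF.cons PF.nil PF.nil)) (PF.cons PF.nil PF.nil)) (PF.cons PF.nil (PF.cons PF.nil (PF.cons PF.nil PF.nil))))))))

def p14_15_3_0 : pfC (piC [(nat_lit 36888796), (nat_lit 24534081), (nat_lit 18263511), (nat_lit 12310016)] (nat_lit 5208761)) p14_15_3 (nat_lit 4) (nat_lit 0) (nat_lit 1) = true := by decide +kernel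
def p14_15_3_1 : pfC (piC [(nat_lit 36888796), (nat_lit 24534081), (nat_lit 18263511), (nat_lit 12310016)] (nat_lit 5208761)) p14_15_3 (nat_lit 4) (nat_lit 1) (nat_lit 2) = true := by decide +kernel
def p14_15_3_2 : pfC (piC [(nat_lit 36888796), (nat_lit 24534081), (nat_lit 18263511), (nat_lit 12310016)] (nat_lit 5208761)) p14_15_3 (nat_lit 4) (nat_lit 2) (nat_lit 3) = true := by decide +kernel
def p14_15_3_3 : pfC (piC [(nat_lit 36888796), (nat_lit 24534081), (nat_lit 18263511), (nat_lit 12310016)] (nat_lit 5208761)) p14_15_3 (nat_lit 4) (nat_lit 3) (nat_lit 4) = true := by decide +kernel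
def p14_15_3_4 : pfC (piC [(nat_lit 36888796), (nat_lit 24534081), (nat_lit 18263511), (nat_lit 12310016)] (nat_lit 5208761)) p14_15_3 (nat_lit 4) (nat_lit 4) (nat_lit 5) = true := by decide +kernel
def p14_15_3_5 : pfC (piC [(nat_lit 36888796), (nat_lit 24534081), (nat_lit 18263511), (nat_lit 12310016)] (nat_lit 5208761)) p14_15_3 (nat_lit 4) (nat_lit 5) (nat_lit 6) = true := by decide +kernel
def p14_15_3_6 : pfC (piC [(nat_lit 36888796), (nat_lit 24534081), (nat_lit 18263511), (nat_lit 12310016)] (nat_lit 5208761)) p14_15_3 (nat_lit 4) (nat_lit 6) (nat_lit 7) = true := by decide +kernel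
def p14_15_3_7 : pfC (piC [(nat_lit 36888796), (nat_lit 24534081), (nat_lit 18263511), (nat_lit 12310016)] (nat_lit 5208761)) p14_15_3 (nat_lit 4) (nat_lit 7) (nat_lit 8) = true := by decide +kernel
def p14_15_3_8 : pfC (piC [(nat_lit 36888796), (nat_lit 24534081), (nat_lit 18263511), (nat_lit 12310016)] (nat_lit 5208761)) p14_15_3 (nat_lit 4) (nat_lit 8) (nat_lit 9) = true := by decide +kernel
def p14_15_3_9 : pfC (piC [(nat_lit 36888796), (nat_lit 24534081), (nat_lit 18263511), (nat_lit 12310016)] (nat_lit 5208761)) p14_15_3 (nat_lit 4) (nat_lit 9) (nat_lit 10) = true := by decide +kernel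
def p14_15_3_10 : pfC (piC [(nat_lit 36888796), (nat_lit 24534081), (nat_lit 18263511), (nat_lit 12310016)] (nat_lit 5208761)) p14_15_3 (nat_lit 4) (nat_lit 10) (nat_lit 11) = true := by decide +kernel
def p14_15_3_11 : pfC (piC [(nat_lit 36888796), (nat_lit 24534081), (nat_lit 18263511), (nat_lit 12310016)] (nat_lit 5208761)) p14_15_3 (nat_lit 4) (nat_lit 11) (nat_lit 12) = true := by decide +kernel
def p14_15_3_12 : pfC (piC [(nat_lit 36888796), (nat_lit 24534081), (nat_lit 18263511), (nat_lit 12310016)] (nat_lit 5208761)) p14_15_3 (nat_lit 4) (nat_lit 12) (nat_lit 13) = true := by decide +kernel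
def p14_15_3_13 : pfC (piC [(nat_lit 36888796), (nat_lit 24534081), (nat_lit 18263511), (nat_lit 12310016)] (nat_lit 5208761)) p14_15_3 (nat_lit 4) (nat_lit 13) (nat_lit 14) = true := by decide +kernel
def p14_15_3_14 : pfC (piC [(nat_lit 36888796), (nat_lit 24534081), (nat_lit 18263511), (nat_lit 12310016)] (nat_lit 5208761)) p14_15_3 (nat_lit 4) (nat_lit 14) (nat_lit 15) = true := by decide +kernel
def p14_15_3_15 : pfC (piC [(nat_lit 36888796), (nat_lit 24534081), (nat_lit 18263511), (nat_lit 12310016)] (nat_lit 5208761)) p14_15_3 (nat_lit 4) (nat_lit 15) (nat_lit 16) = true := by decide +kernel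
def p14_15_3_16 : pfC (piC [(nat_lit 36888796), (nat_lit 24534081), (nat_lit 18263511), (nat_lit 12310016)] (nat_lit 5208761)) p14_15_3 (nat_lit 4) (nat_lit 16) (nat_lit 17) = true := by decide +kernel
def p14_15_3_17 : pfC (piC [(nat_lit 36888796), (nat_lit 24534081), (nat_lit 18263511), (nat_lit 12310016)] (nat_lit 5208761)) p14_15_3 (nat_lit 4) (nat_lit 17) (nat_lit 18) = true := by decide +kernel
def p14_15_3_18 : pfC (piC [(nat_lit 36888796), (nat_lit 24534081), (nat_lit 18263511), (nat_lit 12310016)] (nat_lit 5208761)) p14_15_3 (nat_lit 4) (nat_lit 18) (nat_lit 19) = true := by decide +kernel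
def p14_15_3_19 : pfC (piC [(nat_lit 36888796), (nat_lit 24534081), (nat_lit 18263511), (nat_lit 12310016)] (nat_lit 5208761)) p14_15_3 (nat_lit 4) (nat_lit 19) (nat_lit 20) = true := by decide +kernel
def p14_15_3_20 : pfC (piC [(nat_lit 36888796), (nat_lit 24534081), (nat_lit 18263511), (nat_lit 12310016)] (nat_lit 5208761)) p14_15_3 (nat_lit 4) (nat_lit 20) (nat_lit 21) = true := by decide +kernel
def p14_15_3_21 : pfC (piC [(nat_lit 36888796), (nat_lit 24534081), (nat_lit 18263511), (nat_lit 12310016)] (nat_lit 5208761)) p14_15_3 (nat_lit 4) (nat_lit 21) (nat_lit 22) = true := by decide +kernel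
def p14_15_3_22 : pfC (piC [(nat_lit 36888796), (nat_lit 24534081), (nat_lit 18263511), (nat_lit 12310016)] (nat_lit 5208761)) p14_15_3 (nat_lit 4) (nat_lit 22) (nat_lit 23) = true := by decide +kernel
def p14_15_3_23 : pfC (piC [(nat_lit 36888796), (nat_lit 24534081), (nat_lit 18263511), (nat_lit 12310016)] (nat_lit 5208761)) p14_15_3 (nat_lit 4) (nat_lit 23) (nat_lit 24) = true := by decide +kernel
def p14_15_3_24 : pfC (piC [(nat_lit 36888796), (nat_lit 24534081), (nat_lit 18263511), (nat_lit 12310016)] (nat_lit 5208761)) p14_15_3 (nat_lit 4) (nat_lit 24) (nat_lit 25) = true := by decide +kernel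
def p14_15_3_25 : pfC (piC [(nat_lit 36888796), (nat_lit 24534081), (nat_lit 18263511), (nat_lit 12310016)] (nat_lit 5208761)) p14_15_3 (nat_lit 4) (nat_lit 25) (nat_lit 26) = true := by decide +kernel
def p14_15_3_26 : pfC (piC [(nat_lit 36888796), (nat_lit 24534081), (nat_lit 18263511), (nat_lit 12310016)] (nat_lit 5208761)) p14_15_3 (nat_lit 4) (nat_lit 26) (nat_lit 27) = true := by decide +kernel
def p14_15_3_27 : pfC (piC [(nat_lit 36888796), (nat_lit 24534081), (nat_lit 18263511), (nat_lit 12310016)] (nat_lit 5208761)) p14_15_3 (nat_lit 4) (nat_lit 27) (nat_lit 28) = true := by decide +kernel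
def p14_15_3_28 : pfC (piC [(nat_lit 36888796), (nat_lit 24534081), (nat_lit 18263511), (nat_lit 12310016)] (nat_lit 5208761)) p14_15_3 (nat_lit 4) (nat_lit 28) (nat_lit 29) = true := by decide +kernel
def p14_15_3_29 : pfC (piC [(nat_lit 36888796), (nat_lit 24534081), (nat_lit 18263511), (nat_lit 12310016)] (nat_lit 5208761)) p14_15_3 (nat_lit 4) (nat_lit 29) (nat_lit 30) = true := by decide +kernel
def p14_15_3_30 : pfC (piC [(nat_lit 36888796), (nat_lit 24534081), (nat_lit 18263511), (nat_lit 12310016)] (nat_lit 5208761)) p14_15_3 (nat_lit 4) (nat_lit 30) (nat_lit 31) = true := by decide +kernel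
def p14_15_3_31 : pfC (piC [(nat_lit 36888796), (nat_lit 24534081), (nat_lit 18263511), (nat_lit 12310016)] (nat_lit 5208761)) p14_15_3 (nat_lit 4) (nat_lit 31) (nat_lit 32) = true := by decide +kernel
def p14_15_3_32 : pfC (piC [(nat_lit 36888796), (nat_lit 24534081), (nat_lit 18263511), (nat_lit 12310016)] (nat_lit 5208761)) p14_15_3 (nat_lit 4) (nat_lit 32) (nat_lit 33) = true := by decide +kernel
def p14_15_3_33 : pfC (piC [(nat_lit 36888796), (nat_lit 24534081), (nat_lit 18263511), (nat_lit 12310016)] (nat_lit 5208761)) p14_15_3 (nat_lit 4) (nat_lit 33) (nat_lit 34) = true := by decide +kernel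
def p14_15_3_34 : pfC (piC [(nat_lit 36888796), (nat_lit 24534081), (nat_lit 18263511), (nat_lit 12310016)] (nat_lit 5208761)) p14_15_3 (nat_lit 4) (nat_lit 34) (nat_lit 35) = true := by decide +kernel
def p14_15_3_35 : pfC (piC [(nat_lit 36888796), (nat_lit 24534081), (nat_lit 18263511), (nat_lit 12310016)] (nat_lit 5208761)) p14_15_3 (nat_lit 4) (nat_lit 35) (nat_lit 36) = true := by decide +kernel
def p14_15_3_36 : pfC (piC [(nat_lit 36888796), (nat_lit 24534081), (nat_lit 18263511), (nat_lit 12310016)] (nat_lit 5208761)) p14_15_3 (nat_lit 4) (nat_lit 36) (nat_lit 37) = true := by decide +kernel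
def p14_15_3_37 : pfC (piC [(nat_lit 36888796), (nat_lit 24534081), (nat_lit 18263511), (nat_lit 12310016)] (nat_lit 5208761)) p14_15_3 (nat_lit 4) (nat_lit 37) (nat_lit 38) = true := by decide +kernel
def p14_15_3_38 : pfC (piC [(nat_lit 36888796), (nat_lit 24534081), (nat_lit 18263511), (nat_lit 12310016)] (nat_lit 5208761)) p14_15_3 (nat_lit 4) (nat_lit 38) (nat_lit 39) = true := by decide +kernel
def p14_15_3_39 : pfC (piC [(nat_lit 36888796), (nat_lit 24534081), (nat_lit 18263511), (nat_lit 12310016)] (nat_lit 5208761)) p14_15_3 (nat_lit 4) (nat_lit 39) (nat_lit 40) = true := by decide +kernel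
def p14_15_3_40 : pfC (piC [(nat_lit 36888796), (nat_lit 24534081), (nat_lit 18263511), (nat_lit 12310016)] (nat_lit 5208761)) p14_15_3 (nat_lit 4) (nat_lit 40) (nat_lit 41) = true := by decide +kernel
def p14_15_3_41 : pfC (piC [(nat_lit 36888796), (nat_lit 24534081), (nat_lit 18263511), (nat_lit 12310016)] (nat_lit 5208761)) p14_15_3 (nat_lit 4) (nat_lit 41) (nat_lit 42) = true := by decide +kernel
def p14_15_3_42 : pfC (piC [(nat_lit 36888796), (nat_lit 24534081), (nat_lit 18263511), (nat_lit 12310016)] (nat_lit 5208761)) p14_15_3 (nat_lit 4) (nat_lit 42) (nat_lit 43) = true := by decide +kernel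
def p14_15_3_43 : pfC (piC [(nat_lit 36888796), (nat_lit 24534081), (nat_lit 18263511), (nat_lit 12310016)] (nat_lit 5208761)) p14_15_3 (nat_lit 4) (nat_lit 43) (nat_lit 44) = true := by decide +kernel
def p14_15_3_44 : pfC (piC [(nat_lit 36888796), (nat_lit 24534081), (nat_lit 18263511), (nat_lit 12310016)] (nat_lit 5208761)) p14_15_3 (nat_lit 4) (nat_lit 44) (nat_lit 45) = true := by decide +kernel
def p14_15_3_45 : pfC (piC [(nat_lit 36888796), (nat_lit 24534081), (nat_lit 18263511), (nat_lit 12310016)] (nat_lit 5208761)) p14_15_3 (nat_lit 4) (nat_lit 45) (nat_lit 46) = true := by decide +kernel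
def p14_15_3_46 : pfC (piC [(nat_lit 36888796), (nat_lit 24534081), (nat_lit 18263511), (nat_lit 12310016)] (nat_lit 5208761)) p14_15_3 (nat_lit 4) (nat_lit 46) (nat_lit 47) = true := by decide +kernel
def p14_15_3_47 : pfC (piC [(nat_lit 36888796), (nat_lit 24534081), (nat_lit 18263511), (nat_lit 12310016)] (nat_lit 5208761)) p14_15_3 (nat_lit 4) (nat_lit 47) (nat_lit 48) = true := by decide +kernel
def p14_15_3_48 : pfC (piC [(nat_lit 36888796), (nat_lit 24534081), (nat_lit 18263511), (nat_lit 12310016)] (nat_lit 5208761)) p14_15_3 (nat_lit 4) (nat_lit 48) (nat_lit 49) = true := by decide +kernel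
def p14_15_3_49 : pfC (piC [(nat_lit 36888796), (nat_lit 24534081), (nat_lit 18263511), (nat_lit 12310016)] (nat_lit 5208761)) p14_15_3 (nat_lit 4) (nat_lit 49) (nat_lit 50) = true := by decide +kernel
def p14_15_3_50 : pfC (piC [(nat_lit 36888796), (nat_lit 24534081), (nat_lit 18263511), (nat_lit 12310016)] (nat_lit 5208761)) p14_15_3 (nat_lit 4) (nat_lit 50) (nat_lit 51) = true := by decide +kernel
def p14_15_3_51 : pfC (piC [(nat_lit 36888796), (nat_lit 24534081), (nat_lit 18263511), (nat_lit 12310016)] (nat_lit 5208761)) p14_15_3 (nat_lit 4) (nat_lit 51) (nat_lit 52) = true := by decide +kernel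
def p14_15_3_52 : pfC (piC [(nat_lit 36888796), (nat_lit 24534081), (nat_lit 18263511), (nat_lit 12310016)] (nat_lit 5208761)) p14_15_3 (nat_lit 4) (nat_lit 52) (nat_lit 53) = true := by decide +kernel
def p14_15_3_53 : pfC (piC [(nat_lit 36888796), (nat_lit 24534081), (nat_lit 18263511), (nat_lit 12310016)] (nat_lit 5208761)) p14_15_3 (nat_lit 4) (nat_lit 53) (nat_lit 54) = true := by decide +kernel
def p14_15_3_54 : pfC (piC [(nat_lit 36888796), (nat_lit 24534081), (nat_lit 18263511), (nat_lit 12310016)] (nat_lit 5208761)) p14_15_3 (nat_lit 4) (nat_lit 54) (nat_lit 55) = true := by decide +kernel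
def p14_15_3_55 : pfC (piC [(nat_lit 36888796), (nat_lit 24534081), (nat_lit 18263511), (nat_lit 12310016)] (nat_lit 5208761)) p14_15_3 (nat_lit 4) (nat_lit 55) (nat_lit 56) = true := by decide +kernel
def p14_15_3_56 : pfC (piC [(nat_lit 36888796), (nat_lit 24534081), (nat_lit 18263511), (nat_lit 12310016)] (nat_lit 5208761)) p14_15_3 (nat_lit 4) (nat_lit 56) (nat_lit 57) = true := by decide +kernel
def p14_15_3_57 : pfC (piC [(nat_lit 36888796), (nat_lit 24534081), (nat_lit 18263511), (nat_lit 12310016)] (nat_lit 5208761)) p14_15_3 (nat_lit 4) (nat_lit 57) (nat_lit 58) = true := by decide +kernel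
def p14_15_3_58 : pfC (piC [(nat_lit 36888796), (nat_lit 24534081), (nat_lit 18263511), (nat_lit 12310016)] (nat_lit 5208761)) p14_15_3 (nat_lit 4) (nat_lit 58) (nat_lit 59) = true := by decide +kernel
def p14_15_3_59 : pfC (piC [(nat_lit 36888796), (nat_lit 24534081), (nat_lit 18263511), (nat_lit 12310016)] (nat_lit 5208761)) p14_15_3 (nat_lit 4) (nat_lit 59) (nat_lit 60) = true := by decide +kernel
def p14_15_3_60 : pfC (piC [(nat_lit 36888796), (nat_lit 24534081), (nat_lit 18263511), (nat_lit 12310016)] (nat_lit 5208761)) p14_15_3 (nat_lit 4) (nat_lit 60) (nat_lit 61) = true := by decide +kernel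
def p14_15_3_61 : pfC (piC [(nat_lit 36888796), (nat_lit 24534081), (nat_lit 18263511), (nat_lit 12310016)] (nat_lit 5208761)) p14_15_3 (nat_lit 4) (nat_lit 61) (nat_lit 62) = true := by decide +kernel
def p14_15_3_62 : pfC (piC [(nat_lit 36888796), (nat_lit 24534081), (nat_lit 18263511), (nat_lit 12310016)] (nat_lit 5208761)) p14_15_3 (nat_lit 4) (nat_lit 62) (nat_lit 63) = true := by decide +kernel
def p14_15_3_63 : pfC (piC [(nat_lit 36888796), (nat_lit 24534081), (nat_lit 18263511), (nat_lit 12310016)] (nat_lit 5208761)) p14_15_3 (nat_lit 4) (nat_lit 63) (nat_lit 64) = true := by decide +kernel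
def p14_15_3_64 : pfC (piC [(nat_lit 36888796), (nat_lit 24534081), (nat_lit 18263511), (nat_lit 12310016)] (nat_lit 5208761)) p14_15_3 (nat_lit 4) (nat_lit 64) (nat_lit 65) = true := by decide +kernel
def p14_15_3_65 : pfC (piC [(nat_lit 36888796), (nat_lit 24534081), (nat_lit 18263511), (nat_lit 12310016)] (nat_lit 5208761)) p14_15_3 (nat_lit 4) (nat_lit 65) (nat_lit 66) = true := by decide +kernel
def p14_15_3_66 : pfC (piC [(nat_lit 36888796), (nat_lit 24534081), (nat_lit 18263511), (nat_lit 12310016)] (nat_lit 5208761)) p14_15_3 (nat_lit 4) (nat_lit 66) (nat_lit 67) = true := by decide +kernel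
def p14_15_3_67 : pfC (piC [(nat_lit 36888796), (nat_lit 24534081), (nat_lit 18263511), (nat_lit 12310016)] (nat_lit 5208761)) p14_15_3 (nat_lit 4) (nat_lit 67) (nat_lit 68) = true := by decide +kernel
def p14_15_3_68 : pfC (piC [(nat_lit 36888796), (nat_lit 24534081), (nat_lit 18263511), (nat_lit 12310016)] (nat_lit 5208761)) p14_15_3 (nat_lit 4) (nat_lit 68) (nat_lit 69) = true := by decide +kernel
def p14_15_3_69 : pfC (piC [(nat_lit 36888796), (nat_lit 24534081), (nat_lit 18263511), (nat_lit 12310016)] (nat_lit 5208761)) p14_15_3 (nat_lit 4) (nat_lit 69) (nat_lit 70) = true := by decide +kernel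
def p14_15_3_70 : pfC (piC [(nat_lit 36888796), (nat_lit 24534081), (nat_lit 18263511), (nat_lit 12310016)] (nat_lit 5208761)) p14_15_3 (nat_lit 4) (nat_lit 70) (nat_lit 71) = true := by decide +kernel
def p14_15_3_71 : pfC (piC [(nat_lit 36888796), (nat_lit 24534081), (nat_lit 18263511), (nat_lit 12310016)] (nat_lit 5208761)) p14_15_3 (nat_lit 4) (nat_lit 71) (nat_lit 72) = true := by decide +kernel
def p14_15_3_72 : pfC (piC [(nat_lit 36888796), (nat_lit 24534081), (nat_lit 18263511), (nat_lit 12310016)] (nat_lit 5208761)) p14_15_3 (nat_lit 4) (nat_lit 72) (nat_lit 73) = true := by decide +kernel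
def p14_15_3_73 : pfC (piC [(nat_lit 36888796), (nat_lit 24534081), (nat_lit 18263511), (nat_lit 12310016)] (nat_lit 5208761)) p14_15_3 (nat_lit 4) (nat_lit 73) (nat_lit 74) = true := by decide +kernel
def p14_15_3_74 : pfC (piC [(nat_lit 36888796), (nat_lit 24534081), (nat_lit 18263511), (nat_lit 12310016)] (nat_lit 5208761)) p14_15_3 (nat_lit 4) (nat_lit 74) (nat_lit 75) = true := by decide +kernel
def p14_15_3_75 : pfC (piC [(nat_lit 36888796), (nat_lit 24534081), (nat_lit 18263511), (nat_lit 12310016)] (nat_lit 5208761)) p14_15_3 (nat_lit 4) (nat_lit 75) (nat_lit 76) = true := by decide +kernel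
def p14_15_3_76 : pfC (piC [(nat_lit 36888796), (nat_lit 24534081), (nat_lit 18263511), (nat_lit 12310016)] (nat_lit 5208761)) p14_15_3 (nat_lit 4) (nat_lit 76) (nat_lit 77) = true := by decide +kernel
def p14_15_3_77 : pfC (piC [(nat_lit 36888796), (nat_lit 24534081), (nat_lit 18263511), (nat_lit 12310016)] (nat_lit 5208761)) p14_15_3 (nat_lit 4) (nat_lit 77) (nat_lit 78) = true := by decide +kernel
def p14_15_3_78 : pfC (piC [(nat_lit 36888796), (nat_lit 24534081), (nat_lit 18263511), (nat_lit 12310016)] (nat_lit 5208761)) p14_15_3 (nat_lit 4) (nat_lit 78) (nat_lit 79) = true := by decide +kernel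
def p14_15_3_79 : pfC (piC [(nat_lit 36888796), (nat_lit 24534081), (nat_lit 18263511), (nat_lit 12310016)] (nat_lit 5208761)) p14_15_3 (nat_lit 4) (nat_lit 79) (nat_lit 80) = true := by decide +kernel
def p14_15_3_80 : pfC (piC [(nat_lit 36888796), (nat_lit 24534081), (nat_lit 18263511), (nat_lit 12310016)] (nat_lit 5208761)) p14_15_3 (nat_lit 4) (nat_lit 80) (nat_lit 81) = true := by decide +kernel
def p14_15_3_81 : pfC (piC [(nat_lit 36888796), (nat_lit 24534081), (nat_lit 18263511), (nat_lit 12310016)] (nat_lit 5208761)) p14_15_3 (nat_lit 4) (nat_lit 81) (nat_lit 82) = true := by decide +kernel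
def p14_15_3_82 : pfC (piC [(nat_lit 36888796), (nat_lit 24534081), (nat_lit 18263511), (nat_lit 12310016)] (nat_lit 5208761)) p14_15_3 (nat_lit 4) (nat_lit 82) (nat_lit 83) = true := by decide +kernel
def p14_15_3_83 : pfC (piC [(nat_lit 36888796), (nat_lit 24534081), (nat_lit 18263511), (nat_lit 12310016)] (nat_lit 5208761)) p14_15_3 (nat_lit 4) (nat_lit 83) (nat_lit 84) = true := by decide +kernel
def p14_15_3_84 : pfC (piC [(nat_lit 36888796), (nat_lit 24534081), (nat_lit 18263511), (nat_lit 12310016)] (nat_lit 5208761)) p14_15_3 (nat_lit 4) (nat_lit 84) (nat_lit 85) = true := by decide +kernel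
def p14_15_3_85 : pfC (piC [(nat_lit 36888796), (nat_lit 24534081), (nat_lit 18263511), (nat_lit 12310016)] (nat_lit 5208761)) p14_15_3 (nat_lit 4) (nat_lit 85) (nat_lit 86) = true := by decide +kernel
def p14_15_3_86 : pfC (piC [(nat_lit 36888796), (nat_lit 24534081), (nat_lit 18263511), (nat_lit 12310016)] (nat_lit 5208761)) p14_15_3 (nat_lit 4) (nat_lit 86) (nat_lit 87) = true := by decide +kernel
def p14_15_3_87 : pfC (piC [(nat_lit 36888796), (nat_lit 24534081), (nat_lit 18263511), (nat_lit 12310016)] (nat_lit 5208761)) p14_15_3 (nat_lit 4) (nat_lit 87) (nat_lit 88) = true := by decide +kernel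
def p14_15_3_88 : pfC (piC [(nat_lit 36888796), (nat_lit 24534081), (nat_lit 18263511), (nat_lit 12310016)] (nat_lit 5208761)) p14_15_3 (nat_lit 4) (nat_lit 88) (nat_lit 89) = true := by decide +kernel
def p14_15_3_89 : pfC (piC [(nat_lit 36888796), (nat_lit 24534081), (nat_lit 18263511), (nat_lit 12310016)] (nat_lit 5208761)) p14_15_3 (nat_lit 4) (nat_lit 89) (nat_lit 90) = true := by decide +kernel
def p14_15_3_90 : pfC (piC [(nat_lit 36888796), (nat_lit 24534081), (nat_lit 18263511), (nat_lit 12310016)] (nat_lit 5208761)) p14_15_3 (nat_lit 4) (nat_lit 90) (nat_lit 91) = true := by decide +kernel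
def p14_15_3_91 : pfC (piC [(nat_lit 36888796), (nat_lit 24534081), (nat_lit 18263511), (nat_lit 12310016)] (nat_lit 5208761)) p14_15_3 (nat_lit 4) (nat_lit 91) (nat_lit 92) = true := by decide +kernel
def p14_15_3_92 : pfC (piC [(nat_lit 36888796), (nat_lit 24534081), (nat_lit 18263511), (nat_lit 12310016)] (nat_lit 5208761)) p14_15_3 (nat_lit 4) (nat_lit 92) (nat_lit 93) = true := by decide +kernel
def p14_15_3_93 : pfC (piC [(nat_lit 36888796), (nat_lit 24534081), (nat_lit 18263511), (nat_lit 12310016)] (nat_lit 5208761)) p14_15_3 (nat_lit 4) (nat_lit 93) (nat_lit 94) = true := by decide +kernel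
def p14_15_3_94 : pfC (piC [(nat_lit 36888796), (nat_lit 24534081), (nat_lit 18263511), (nat_lit 12310016)] (nat_lit 5208761)) p14_15_3 (nat_lit 4) (nat_lit 94) (nat_lit 95) = true := by decide +kernel
def p14_15_3_95 : pfC (piC [(nat_lit 36888796), (nat_lit 24534081), (nat_lit 18263511), (nat_lit 12310016)] (nat_lit 5208761)) p14_15_3 (nat_lit 4) (nat_lit 95) (nat_lit 96) = true := by decide +kernel
def p14_15_3_96 : pfC (piC [(nat_lit 36888796), (nat_lit 24534081), (nat_lit 18263511), (nat_lit 12310016)] (nat_lit 5208761)) p14_15_3 (nat_lit 4) (nat_lit 96) (nat_lit 97) = true := by decide +kernel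
def p14_15_3_97 : pfC (piC [(nat_lit 36888796), (nat_lit 24534081), (nat_lit 18263511), (nat_lit 12310016)] (nat_lit 5208761)) p14_15_3 (nat_lit 4) (nat_lit 97) (nat_lit 98) = true := by decide +kernel
def p14_15_3_98 : pfC (piC [(nat_lit 36888796), (nat_lit 24534081), (nat_lit 18263511), (nat_lit 12310016)] (nat_lit 5208761)) p14_15_3 (nat_lit 4) (nat_lit 98) (nat_lit 99) = true := by decide +kernel
def p14_15_3_99 : pfC (piC [(nat_lit 36888796), (nat_lit 24534081), (nat_lit 18263511), (nat_lit 12310016)] (nat_lit 5208761)) p14_15_3 (nat_lit 4) (nat_lit 99) (nat_lit 100) = true := by decide +kernel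
def p14_15_3_100 : pfC (piC [(nat_lit 36888796), (nat_lit 24534081), (nat_lit 18263511), (nat_lit 12310016)] (nat_lit 5208761)) p14_15_3 (nat_lit 4) (nat_lit 100) (nat_lit 101) = true := by decide +kernel
def p14_15_3_101 : pfC (piC [(nat_lit 36888796), (nat_lit 24534081), (nat_lit 18263511), (nat_lit 12310016)] (nat_lit 5208761)) p14_15_3 (nat_lit 4) (nat_lit 101) (nat_lit 102) = true := by decide +kernel
def p14_15_3_102 : pfC (piC [(nat_lit 36888796), (nat_lit 24534081), (nat_lit 18263511), (nat_lit 12310016)] (nat_lit 5208761)) p14_15_3 (nat_lit 4) (nat_lit 102) (nat_lit 103) = true := by decide +kernel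
def p14_15_3_103 : pfC (piC [(nat_lit 36888796), (nat_lit 24534081), (nat_lit 18263511), (nat_lit 12310016)] (nat_lit 5208761)) p14_15_3 (nat_lit 4) (nat_lit 103) (nat_lit 104) = true := by decide +kernel
def p14_15_3_104 : pfC (piC [(nat_lit 36888796), (nat_lit 24534081), (nat_lit 18263511), (nat_lit 12310016)] (nat_lit 5208761)) p14_15_3 (nat_lit 4) (nat_lit 104) (nat_lit 105) = true := by decide +kernel
def p14_15_3_105 : pfC (piC [(nat_lit 36888796), (nat_lit 24534081), (nat_lit 18263511), (nat_lit 12310016)] (nat_lit 5208761)) p14_15_3 (nat_lit 4) (nat_lit 105) (nat_lit 106) = true := by decide +kernel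
def p14_15_3_106 : pfC (piC [(nat_lit 36888796), (nat_lit 24534081), (nat_lit 18263511), (nat_lit 12310016)] (nat_lit 5208761)) p14_15_3 (nat_lit 4) (nat_lit 106) (nat_lit 107) = true := by decide +kernel
def p14_15_3_107 : pfC (piC [(nat_lit 36888796), (nat_lit 24534081), (nat_lit 18263511), (nat_lit 12310016)] (nat_lit 5208761)) p14_15_3 (nat_lit 4) (nat_lit 107) (nat_lit 108) = true := by decide +kernel
def p14_15_3_108 : pfC (piC [(nat_lit 36888796), (nat_lit 24534081), (nat_lit 18263511), (nat_lit 12310016)] (nat_lit 5208761)) p14_15_3 (nat_lit 4) (nat_lit 108) (nat_lit 109) = true := by decide +kernel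
def p14_15_3_109 : pfC (piC [(nat_lit 36888796), (nat_lit 24534081), (nat_lit 18263511), (nat_lit 12310016)] (nat_lit 5208761)) p14_15_3 (nat_lit 4) (nat_lit 109) (nat_lit 110) = true := by decide +kernel
def p14_15_3_110 : pfC (piC [(nat_lit 36888796), (nat_lit 24534081), (nat_lit 18263511), (nat_lit 12310016)] (nat_lit 5208761)) p14_15_3 (nat_lit 4) (nat_lit 110) (nat_lit 111) = true := by decide +kernel
def p14_15_3_111 : pfC (piC [(nat_lit 36888796), (nat_lit 24534081), (nat_lit 18263511), (nat_lit 12310016)] (nat_lit 5208761)) p14_15_3 (nat_lit 4) (nat_lit 111) (nat_lit 112) = true := by decide +kernel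
def p14_15_3_112 : pfC (piC [(nat_lit 36888796), (nat_lit 24534081), (nat_lit 18263511), (nat_lit 12310016)] (nat_lit 5208761)) p14_15_3 (nat_lit 4) (nat_lit 112) (nat_lit 113) = true := by decide +kernel
def p14_15_3_113 : pfC (piC [(nat_lit 36888796), (nat_lit 24534081), (nat_lit 18263511), (nat_lit 12310016)] (nat_lit 5208761)) p14_15_3 (nat_lit 4) (nat_lit 113) (nat_lit 114) = true := by decide +kernel
def p14_15_3_114 : pfC (piC [(nat_lit 36888796), (nat_lit 24534081), (nat_lit 18263511), (nat_lit 12310016)] (nat_lit 5208761)) p14_15_3 (nat_lit 4) (nat_lit 114) (nat_lit 115) = true := by decide +kernel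
def p14_15_3_115 : pfC (piC [(nat_lit 36888796), (nat_lit 24534081), (nat_lit 18263511), (nat_lit 12310016)] (nat_lit 5208761)) p14_15_3 (nat_lit 4) (nat_lit 115) (nat_lit 116) = true := by decide +kernel
def p14_15_3_116 : pfC (piC [(nat_lit 36888796), (nat_lit 24534081), (nat_lit 18263511), (nat_lit 12310016)] (nat_lit 5208761)) p14_15_3 (nat_lit 4) (nat_lit 116) (nat_lit 117) = true := by decide +kernel
def p14_15_3_117 : pfC (piC [(nat_lit 36888796), (nat_lit 24534081), (nat_lit 18263511), (nat_lit 12310016)] (nat_lit 5208761)) p14_15_3 (nat_lit 4) (nat_lit 117) (nat_lit 118) = true := by decide +kernel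
def p14_15_3_118 : pfC (piC [(nat_lit 36888796), (nat_lit 24534081), (nat_lit 18263511), (nat_lit 12310016)] (nat_lit 5208761)) p14_15_3 (nat_lit 4) (nat_lit 118) (nat_lit 119) = true := by decide +kernel
def p14_15_3_119 : pfC (piC [(nat_lit 36888796), (nat_lit 24534081), (nat_lit 18263511), (nat_lit 12310016)] (nat_lit 5208761)) p14_15_3 (nat_lit 4) (nat_lit 119) (nat_lit 120) = true := by decide +kernel
def p14_15_3_120 : pfC (piC [(nat_lit 36888796), (nat_lit 24534081), (nat_lit 18263511), (nat_lit 12310016)] (nat_lit 5208761)) p14_15_3 (nat_lit 4) (nat_lit 120) (nat_lit 121) = true := by decide +kernel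
def p14_15_3_121 : pfC (piC [(nat_lit 36888796), (nat_lit 24534081), (nat_lit 18263511), (nat_lit 12310016)] (nat_lit 5208761)) p14_15_3 (nat_lit 4) (nat_lit 121) (nat_lit 122) = true := by decide +kernel
def p14_15_3_122 : pfC (piC [(nat_lit 36888796), (nat_lit 24534081), (nat_lit 18263511), (nat_lit 12310016)] (nat_lit 5208761)) p14_15_3 (nat_lit 4) (nat_lit 122) (nat_lit 123) = true := by decide +kernel
def p14_15_3_123 : pfC (piC [(nat_lit 36888796), (nat_lit 24534081), (nat_lit 18263511), (nat_lit 12310016)] (nat_lit 5208761)) p14_15_3 (nat_lit 4) (nat_lit 123) (nat_lit 124) = true := by decide +kernel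
def p14_15_3_124 : pfC (piC [(nat_lit 36888796), (nat_lit 24534081), (nat_lit 18263511), (nat_lit 12310016)] (nat_lit 5208761)) p14_15_3 (nat_lit 4) (nat_lit 124) (nat_lit 125) = true := by decide +kernel
def p14_15_3_125 : pfC (piC [(nat_lit 36888796), (nat_lit 24534081), (nat_lit 18263511), (nat_lit 12310016)] (nat_lit 5208761)) p14_15_3 (nat_lit 4) (nat_lit 125) (nat_lit 126) = true := by decide +kernel
def p14_15_3_126 : pfC (piC [(nat_lit 36888796), (nat_lit 24534081), (nat_lit 18263511), (nat_lit 12310016)] (nat_lit 5208761)) p14_15_3 (nat_lit 4) (nat_lit 126) (nat_lit 127) = true := by decide +kernel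
def p14_15_3_127 : pfC (piC [(nat_lit 36888796), (nat_lit 24534081), (nat_lit 18263511), (nat_lit 12310016)] (nat_lit 5208761)) p14_15_3 (nat_lit 4) (nat_lit 127) (nat_lit 128) = true := by decide +kernel
def p14_15_3_128 : pfC (piC [(nat_lit 36888796), (nat_lit 24534081), (nat_lit 18263511), (nat_lit 12310016)] (nat_lit 5208761)) p14_15_3 (nat_lit 4) (nat_lit 128) (nat_lit 129) = true := by decide +kernel
def p14_15_3_129 : pfC (piC [(nat_lit 36888796), (nat_lit 24534081), (nat_lit 18263511), (nat_lit 12310016)] (nat_lit 5208761)) p14_15_3 (nat_lit 4) (nat_lit 129) (nat_lit 130) = true := by decide +kernel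
def p14_15_3_130 : pfC (piC [(nat_lit 36888796), (nat_lit 24534081), (nat_lit 18263511), (nat_lit 12310016)] (nat_lit 5208761)) p14_15_3 (nat_lit 4) (nat_lit 130) (nat_lit 131) = true := by decide +kernel
def p14_15_3_131 : pfC (piC [(nat_lit 36888796), (nat_lit 24534081), (nat_lit 18263511), (nat_lit 12310016)] (nat_lit 5208761)) p14_15_3 (nat_lit 4) (nat_lit 131) (nat_lit 132) = true := by decide +kernel
def p14_15_3_132 : pfC (piC [(nat_lit 36888796), (nat_lit 24534081), (nat_lit 18263511), (nat_lit 12310016)] (nat_lit 5208761)) p14_15_3 (nat_lit 4) (nat_lit 132) (nat_lit 133) = true := by decide +kernel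
def p14_15_3_133 : pfC (piC [(nat_lit 36888796), (nat_lit 24534081), (nat_lit 18263511), (nat_lit 12310016)] (nat_lit 5208761)) p14_15_3 (nat_lit 4) (nat_lit 133) (nat_lit 134) = true := by decide +kernel
def p14_15_3_134 : pfC (piC [(nat_lit 36888796), (nat_lit 24534081), (nat_lit 18263511), (nat_lit 12310016)] (nat_lit 5208761)) p14_15_3 (nat_lit 4) (nat_lit 134) (nat_lit 135) = true := by decide +kernel
def p14_15_3_135 : pfC (piC [(nat_lit 36888796), (nat_lit 24534081), (nat_lit 18263511), (nat_lit 12310016)] (nat_lit 5208761)) p14_15_3 (nat_lit 4) (nat_lit 135) (nat_lit 136) = true := by decide +kernel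
def p14_15_3_136 : pfC (piC [(nat_lit 36888796), (nat_lit 24534081), (nat_lit 18263511), (nat_lit 12310016)] (nat_lit 5208761)) p14_15_3 (nat_lit 4) (nat_lit 136) (nat_lit 137) = true := by decide +kernel
def p14_15_3_137 : pfC (piC [(nat_lit 36888796), (nat_lit 24534081), (nat_lit 18263511), (nat_lit 12310016)] (nat_lit 5208761)) p14_15_3 (nat_lit 4) (nat_lit 137) (nat_lit 138) = true := by decide +kernel
def p14_15_3_138 : pfC (piC [(nat_lit 36888796), (nat_lit 24534081), (nat_lit 18263511), (nat_lit 12310016)] (nat_lit 5208761)) p14_15_3 (nat_lit 4) (nat_lit 138) (nat_lit 139) = true := by decide +kernel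
def p14_15_3_139 : pfC (piC [(nat_lit 36888796), (nat_lit 24534081), (nat_lit 18263511), (nat_lit 12310016)] (nat_lit 5208761)) p14_15_3 (nat_lit 4) (nat_lit 139) (nat_lit 140) = true := by decide +kernel
def p14_15_3_140 : pfC (piC [(nat_lit 36888796), (nat_lit 24534081), (nat_lit 18263511), (nat_lit 12310016)] (nat_lit 5208761)) p14_15_3 (nat_lit 4) (nat_lit 140) (nat_lit 141) = true := by decide +kernel
def p14_15_3_141 : pfC (piC [(nat_lit 36888796), (nat_lit 24534081), (nat_lit 18263511), (nat_lit 12310016)] (nat_lit 5208761)) p14_15_3 (nat_lit 4) (nat_lit 141) (nat_lit 142) = true := by decide +kernel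
def p14_15_3_142 : pfC (piC [(nat_lit 36888796), (nat_lit 24534081), (nat_lit 18263511), (nat_lit 12310016)] (nat_lit 5208761)) p14_15_3 (nat_lit 4) (nat_lit 142) (nat_lit 143) = true := by decide +kernel
def p14_15_3_143 : pfC (piC [(nat_lit 36888796), (nat_lit 24534081), (nat_lit 18263511), (nat_lit 12310016)] (nat_lit 5208761)) p14_15_3 (nat_lit 4) (nat_lit 143) (nat_lit 144) = true := by decide +kernel
def p14_15_3_144 : pfC (piC [(nat_lit 36888796), (nat_lit 24534081), (nat_lit 18263511), (nat_lit 12310016)] (nat_lit 5208761)) p14_15_3 (nat_lit 4) (nat_lit 144) (nat_lit 145) = true := by decide +kernel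
def p14_15_3_145 : pfC (piC [(nat_lit 36888796), (nat_lit 24534081), (nat_lit 18263511), (nat_lit 12310016)] (nat_lit 5208761)) p14_15_3 (nat_lit 4) (nat_lit 145) (nat_lit 146) = true := by decide +kernel
def p14_15_3_146 : pfC (piC [(nat_lit 36888796), (nat_lit 24534081), (nat_lit 18263511), (nat_lit 12310016)] (nat_lit 5208761)) p14_15_3 (nat_lit 4) (nat_lit 146) (nat_lit 147) = true := by decide +kernel
def p14_15_3_147 : pfC (piC [(nat_lit 36888796), (nat_lit 24534081), (nat_lit 18263511), (nat_lit 12310016)] (nat_lit 5208761)) p14_15_3 (nat_lit 4) (nat_lit 147) (nat_lit 148) = true := by decide +kernel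
def p14_15_3_148 : pfC (piC [(nat_lit 36888796), (nat_lit 24534081), (nat_lit 18263511), (nat_lit 12310016)] (nat_lit 5208761)) p14_15_3 (nat_lit 4) (nat_lit 148) (nat_lit 149) = true := by decide +kernel
def p14_15_3_149 : pfC (piC [(nat_lit 36888796), (nat_lit 24534081), (nat_lit 18263511), (nat_lit 12310016)] (nat_lit 5208761)) p14_15_3 (nat_lit 4) (nat_lit 149) (nat_lit 150) = true := by decide +kernel
def p14_15_3_150 : pfC (piC [(nat_lit 36888796), (nat_lit 24534081), (nat_lit 18263511), (nat_lit 12310016)] (nat_lit 5208761)) p14_15_3 (nat_lit 4) (nat_lit 150) (nat_lit 151) = true := by decide +kernel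
def p14_15_3_151 : pfC (piC [(nat_lit 36888796), (nat_lit 24534081), (nat_lit 18263511), (nat_lit 12310016)] (nat_lit 5208761)) p14_15_3 (nat_lit 4) (nat_lit 151) (nat_lit 152) = true := by decide +kernel
def p14_15_3_152 : pfC (piC [(nat_lit 36888796), (nat_lit 24534081), (nat_lit 18263511), (nat_lit 12310016)] (nat_lit 5208761)) p14_15_3 (nat_lit 4) (nat_lit 152) (nat_lit 153) = true := by decide +kernel
def p14_15_3_153 : pfC (piC [(nat_lit 36888796), (nat_lit 24534081), (nat_lit 18263511), (nat_lit 12310016)] (nat_lit 5208761)) p14_15_3 (nat_lit 4) (nat_lit 153) (nat_lit 154) = true := by decide +kernel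
def p14_15_3_154 : pfC (piC [(nat_lit 36888796), (nat_lit 24534081), (nat_lit 18263511), (nat_lit 12310016)] (nat_lit 5208761)) p14_15_3 (nat_lit 4) (nat_lit 154) (nat_lit 155) = true := by decide +kernel
def p14_15_3_155 : pfC (piC [(nat_lit 36888796), (nat_lit 24534081), (nat_lit 18263511), (nat_lit 12310016)] (nat_lit 5208761)) p14_15_3 (nat_lit 4) (nat_lit 155) (nat_lit 156) = true := by decide +kernel
def p14_15_3_156 : pfC (piC [(nat_lit 36888796), (nat_lit 24534081), (nat_lit 18263511), (nat_lit 12310016)] (nat_lit 5208761)) p14_15_3 (nat_lit 4) (nat_lit 156) (nat_lit 157) = true := by decide +kernel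
def p14_15_3_157 : pfC (piC [(nat_lit 36888796), (nat_lit 24534081), (nat_lit 18263511), (nat_lit 12310016)] (nat_lit 5208761)) p14_15_3 (nat_lit 4) (nat_lit 157) (nat_lit 158) = true := by decide +kernel
def p14_15_3_158 : pfC (piC [(nat_lit 36888796), (nat_lit 24534081), (nat_lit 18263511), (nat_lit 12310016)] (nat_lit 5208761)) p14_15_3 (nat_lit 4) (nat_lit 158) (nat_lit 159) = true := by decide +kernel
def p14_15_3_159 : pfC (piC [(nat_lit 36888796), (nat_lit 24534081), (nat_lit 18263511), (nat_lit 12310016)] (nat_lit 5208761)) p14_15_3 (nat_lit 4) (nat_lit 159) (nat_lit 160) = true := by decide +kernel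
def p14_15_3_160 : pfC (piC [(nat_lit 36888796), (nat_lit 24534081), (nat_lit 18263511), (nat_lit 12310016)] (nat_lit 5208761)) p14_15_3 (nat_lit 4) (nat_lit 160) (nat_lit 161) = true := by decide +kernel
def p14_15_3_161 : pfC (piC [(nat_lit 36888796), (nat_lit 24534081), (nat_lit 18263511), (nat_lit 12310016)] (nat_lit 5208761)) p14_15_3 (nat_lit 4) (nat_lit 161) (nat_lit 162) = true := by decide +kernel
def p14_15_3_162 : pfC (piC [(nat_lit 36888796), (nat_lit 24534081), (nat_lit 18263511), (nat_lit 12310016)] (nat_lit 5208761)) p14_15_3 (nat_lit 4) (nat_lit 162) (nat_lit 163) = true := by decide +kernel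
def p14_15_3_163 : pfC (piC [(nat_lit 36888796), (nat_lit 24534081), (nat_lit 18263511), (nat_lit 12310016)] (nat_lit 5208761)) p14_15_3 (nat_lit 4) (nat_lit 163) (nat_lit 164) = true := by decide +kernel
def p14_15_3_164 : pfC (piC [(nat_lit 36888796), (nat_lit 24534081), (nat_lit 18263511), (nat_lit 12310016)] (nat_lit 5208761)) p14_15_3 (nat_lit 4) (nat_lit 164) (nat_lit 165) = true := by decide +kernel
def p14_15_3_165 : pfC (piC [(nat_lit 36888796), (nat_lit 24534081), (nat_lit 18263511), (nat_lit 12310016)] (nat_lit 5208761)) p14_15_3 (nat_lit 4) (nat_lit 165) (nat_lit 166) = true := by decide +kernel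
def p14_15_3_166 : pfC (piC [(nat_lit 36888796), (nat_lit 24534081), (nat_lit 18263511), (nat_lit 12310016)] (nat_lit 5208761)) p14_15_3 (nat_lit 4) (nat_lit 166) (nat_lit 167) = true := by decide +kernel
def p14_15_3_167 : pfC (piC [(nat_lit 36888796), (nat_lit 24534081), (nat_lit 18263511), (nat_lit 12310016)] (nat_lit 5208761)) p14_15_3 (nat_lit 4) (nat_lit 167) (nat_lit 168) = true := by decide +kernel
def p14_15_3_168 : pfC (piC [(nat_lit 36888796), (nat_lit 24534081), (nat_lit 18263511), (nat_lit 12310016)] (nat_lit 5208761)) p14_15_3 (nat_lit 4) (nat_lit 168) (nat_lit 169) = true := by decide +kernel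
def p14_15_3_169 : pfC (piC [(nat_lit 36888796), (nat_lit 24534081), (nat_lit 18263511), (nat_lit 12310016)] (nat_lit 5208761)) p14_15_3 (nat_lit 4) (nat_lit 169) (nat_lit 170) = true := by decide +kernel
def p14_15_3_170 : pfC (piC [(nat_lit 36888796), (nat_lit 24534081), (nat_lit 18263511), (nat_lit 12310016)] (nat_lit 5208761)) p14_15_3 (nat_lit 4) (nat_lit 170) (nat_lit 171) = true := by decide +kernel
def p14_15_3_171 : pfC (piC [(nat_lit 36888796), (nat_lit 24534081), (nat_lit 18263511), (nat_lit 12310016)] (nat_lit 5208761)) p14_15_3 (nat_lit 4) (nat_lit 171) (nat_lit 172) = true := by decide +kernel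
def p14_15_3_172 : pfC (piC [(nat_lit 36888796), (nat_lit 24534081), (nat_lit 18263511), (nat_lit 12310016)] (nat_lit 5208761)) p14_15_3 (nat_lit 4) (nat_lit 172) (nat_lit 173) = true := by decide +kernel
def p14_15_3_173 : pfC (piC [(nat_lit 36888796), (nat_lit 24534081), (nat_lit 18263511), (nat_lit 12310016)] (nat_lit 5208761)) p14_15_3 (nat_lit 4) (nat_lit 173) (nat_lit 174) = true := by decide +kernel
def p14_15_3_174 : pfC (piC [(nat_lit 36888796), (nat_lit 24534081), (nat_lit 18263511), (nat_lit 12310016)] (nat_lit 5208761)) p14_15_3 (nat_lit 4) (nat_lit 174) (nat_lit 175) = true := by decide +kernel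
def p14_15_3_175 : pfC (piC [(nat_lit 36888796), (nat_lit 24534081), (nat_lit 18263511), (nat_lit 12310016)] (nat_lit 5208761)) p14_15_3 (nat_lit 4) (nat_lit 175) (nat_lit 176) = true := by decide +kernel
def p14_15_3_176 : pfC (piC [(nat_lit 36888796), (nat_lit 24534081), (nat_lit 18263511), (nat_lit 12310016)] (nat_lit 5208761)) p14_15_3 (nat_lit 4) (nat_lit 176) (nat_lit 177) = true := by decide +kernel
def p14_15_3_177 : pfC (piC [(nat_lit 36888796), (nat_lit 24534081), (nat_lit 18263511), (nat_lit 12310016)] (nat_lit 5208761)) p14_15_3 (nat_lit 4) (nat_lit 177) (nat_lit 178) = true := by decide +kernel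
def p14_15_3_178 : pfC (piC [(nat_lit 36888796), (nat_lit 24534081), (nat_lit 18263511), (nat_lit 12310016)] (nat_lit 5208761)) p14_15_3 (nat_lit 4) (nat_lit 178) (nat_lit 179) = true := by decide +kernel
def p14_15_3_179 : pfC (piC [(nat_lit 36888796), (nat_lit 24534081), (nat_lit 18263511), (nat_lit 12310016)] (nat_lit 5208761)) p14_15_3 (nat_lit 4) (nat_lit 179) (nat_lit 180) = true := by decide +kernel
def p14_15_3_180 : pfC (piC [(nat_lit 36888796), (nat_lit 24534081), (nat_lit 18263511), (nat_lit 12310016)] (nat_lit 5208761)) p14_15_3 (nat_lit 4) (nat_lit 180) (nat_lit 181) = true := by decide +kernel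
def p14_15_3_181 : pfC (piC [(nat_lit 36888796), (nat_lit 24534081), (nat_lit 18263511), (nat_lit 12310016)] (nat_lit 5208761)) p14_15_3 (nat_lit 4) (nat_lit 181) (nat_lit 182) = true := by decide +kernel
def p14_15_3_182 : pfC (piC [(nat_lit 36888796), (nat_lit 24534081), (nat_lit 18263511), (nat_lit 12310016)] (nat_lit 5208761)) p14_15_3 (nat_lit 4) (nat_lit 182) (nat_lit 183) = true := by decide +kernel
def p14_15_3_183 : pfC (piC [(nat_lit 36888796), (nat_lit 24534081), (nat_lit 18263511), (nat_lit 12310016)] (nat_lit 5208761)) p14_15_3 (nat_lit 4) (nat_lit 183) (nat_lit 184) = true := by decide +kernel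
def p14_15_3_184 : pfC (piC [(nat_lit 36888796), (nat_lit 24534081), (nat_lit 18263511), (nat_lit 12310016)] (nat_lit 5208761)) p14_15_3 (nat_lit 4) (nat_lit 184) (nat_lit 185) = true := by decide +kernel
def p14_15_3_185 : pfC (piC [(nat_lit 36888796), (nat_lit 24534081), (nat_lit 18263511), (nat_lit 12310016)] (nat_lit 5208761)) p14_15_3 (nat_lit 4) (nat_lit 185) (nat_lit 186) = true := by decide +kernel
def p14_15_3_186 : pfC (piC [(nat_lit 36888796), (nat_lit 24534081), (nat_lit 18263511), (nat_lit 12310016)] (nat_lit 5208761)) p14_15_3 (nat_lit 4) (nat_lit 186) (nat_lit 187) = true := by decide +kernel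
def p14_15_3_187 : pfC (piC [(nat_lit 36888796), (nat_lit 24534081), (nat_lit 18263511), (nat_lit 12310016)] (nat_lit 5208761)) p14_15_3 (nat_lit 4) (nat_lit 187) (nat_lit 188) = true := by decide +kernel
def p14_15_3_188 : pfC (piC [(nat_lit 36888796), (nat_lit 24534081), (nat_lit 18263511), (nat_lit 12310016)] (nat_lit 5208761)) p14_15_3 (nat_lit 4) (nat_lit 188) (nat_lit 189) = true := by decide +kernel
def p14_15_3_189 : pfC (piC [(nat_lit 36888796), (nat_lit 24534081), (nat_lit 18263511), (nat_lit 12310016)] (nat_lit 5208761)) p14_15_3 (nat_lit 4) (nat_lit 189) (nat_lit 190) = true := by decide +kernel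
def p14_15_3_190 : pfC (piC [(nat_lit 36888796), (nat_lit 24534081), (nat_lit 18263511), (nat_lit 12310016)] (nat_lit 5208761)) p14_15_3 (nat_lit 4) (nat_lit 190) (nat_lit 191) = true := by decide +kernel
def p14_15_3_191 : pfC (piC [(nat_lit 36888796), (nat_lit 24534081), (nat_lit 18263511), (nat_lit 12310016)] (nat_lit 5208761)) p14_15_3 (nat_lit 4) (nat_lit 191) (nat_lit 192) = true := by decide +kernel
def p14_15_3_192 : pfC (piC [(nat_lit 36888796), (nat_lit 24534081), (nat_lit 18263511), (nat_lit 12310016)] (nat_lit 5208761)) p14_15_3 (nat_lit 4) (nat_lit 192) (nat_lit 193) = true := by decide +kernel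
def p14_15_3_193 : pfC (piC [(nat_lit 36888796), (nat_lit 24534081), (nat_lit 18263511), (nat_lit 12310016)] (nat_lit 5208761)) p14_15_3 (nat_lit 4) (nat_lit 193) (nat_lit 194) = true := by decide +kernel
def p14_15_3_194 : pfC (piC [(nat_lit 36888796), (nat_lit 24534081), (nat_lit 18263511), (nat_lit 12310016)] (nat_lit 5208761)) p14_15_3 (nat_lit 4) (nat_lit 194) (nat_lit 195) = true := by decide +kernel
def p14_15_3_195 : pfC (piC [(nat_lit 36888796), (nat_lit 24534081), (nat_lit 18263511), (nat_lit 12310016)] (nat_lit 5208761)) p14_15_3 (nat_lit 4) (nat_lit 195) (nat_lit 196) = true := by decide +kernel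
def p14_15_3_196 : pfC (piC [(nat_lit 36888796), (nat_lit 24534081), (nat_lit 18263511), (nat_lit 12310016)] (nat_lit 5208761)) p14_15_3 (nat_lit 4) (nat_lit 196) (nat_lit 197) = true := by decide +kernel
def p14_15_3_197 : pfC (piC [(nat_lit 36888796), (nat_lit 24534081), (nat_lit 18263511), (nat_lit 12310016)] (nat_lit 5208761)) p14_15_3 (nat_lit 4) (nat_lit 197) (nat_lit 198) = true := by decide +kernel
def p14_15_3_198 : pfC (piC [(nat_lit 36888796), (nat_lit 24534081), (nat_lit 18263511), (nat_lit 12310016)] (nat_lit 5208761)) p14_15_3 (nat_lit 4) (nat_lit 198) (nat_lit 199) = true := by decide +kernel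
def p14_15_3_199 : pfC (piC [(nat_lit 36888796), (nat_lit 24534081), (nat_lit 18263511), (nat_lit 12310016)] (nat_lit 5208761)) p14_15_3 (nat_lit 4) (nat_lit 199) (nat_lit 200) = true := by decide +kernel
def p14_15_3_200 : pfC (piC [(nat_lit 36888796), (nat_lit 24534081), (nat_lit 18263511), (nat_lit 12310016)] (nat_lit 5208761)) p14_15_3 (nat_lit 4) (nat_lit 200) (nat_lit 201) = true := by decide +kernel
def p14_15_3_201 : pfC (piC [(nat_lit 36888796), (nat_lit 24534081), (nat_lit 18263511), (nat_lit 12310016)] (nat_lit 5208761)) p14_15_3 (nat_lit 4) (nat_lit 201) (nat_lit 202) = true := by decide +kernel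
def p14_15_3_202 : pfC (piC [(nat_lit 36888796), (nat_lit 24534081), (nat_lit 18263511), (nat_lit 12310016)] (nat_lit 5208761)) p14_15_3 (nat_lit 4) (nat_lit 202) (nat_lit 203) = true := by decide +kernel
def p14_15_3_203 : pfC (piC [(nat_lit 36888796), (nat_lit 24534081), (nat_lit 18263511), (nat_lit 12310016)] (nat_lit 5208761)) p14_15_3 (nat_lit 4) (nat_lit 203) (nat_lit 204) = true := by decide +kernel
def p14_15_3_204 : pfC (piC [(nat_lit 36888796), (nat_lit 24534081), (nat_lit 18263511), (nat_lit 12310016)] (nat_lit 5208761)) p14_15_3 (nat_lit 4) (nat_lit 204) (nat_lit 205) = true := by decide +kernel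
def p14_15_3_205 : pfC (piC [(nat_lit 36888796), (nat_lit 24534081), (nat_lit 18263511), (nat_lit 12310016)] (nat_lit 5208761)) p14_15_3 (nat_lit 4) (nat_lit 205) (nat_lit 206) = true := by decide +kernel
def p14_15_3_206 : pfC (piC [(nat_lit 36888796), (nat_lit 24534081), (nat_lit 18263511), (nat_lit 12310016)] (nat_lit 5208761)) p14_15_3 (nat_lit 4) (nat_lit 206) (nat_lit 207) = true := by decide +kernel
def p14_15_3_207 : pfC (piC [(nat_lit 36888796), (nat_lit 24534081), (nat_lit 18263511), (nat_lit 12310016)] (nat_lit 5208761)) p14_15_3 (nat_lit 4) (nat_lit 207) (nat_lit 208) = true := by decide +kernel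
def p14_15_3_208 : pfC (piC [(nat_lit 36888796), (nat_lit 24534081), (nat_lit 18263511), (nat_lit 12310016)] (nat_lit 5208761)) p14_15_3 (nat_lit 4) (nat_lit 208) (nat_lit 209) = true := by decide +kernel
def p14_15_3_209 : pfC (piC [(nat_lit 36888796), (nat_lit 24534081), (nat_lit 18263511), (nat_lit 12310016)] (nat_lit 5208761)) p14_15_3 (nat_lit 4) (nat_lit 209) (nat_lit 210) = true := by decide +kernel
def p14_15_3_210 : pfC (piC [(nat_lit 36888796), (nat_lit 24534081), (nat_lit 18263511), (nat_lit 12310016)] (nat_lit 5208761)) p14_15_3 (nat_lit 4) (nat_lit 210) (nat_lit 211) = true := by decide +kernel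
def p14_15_3_211 : pfC (piC [(nat_lit 36888796), (nat_lit 24534081), (nat_lit 18263511), (nat_lit 12310016)] (nat_lit 5208761)) p14_15_3 (nat_lit 4) (nat_lit 211) (nat_lit 212) = true := by decide +kernel
def p14_15_3_212 : pfC (piC [(nat_lit 36888796), (nat_lit 24534081), (nat_lit 18263511), (nat_lit 12310016)] (nat_lit 5208761)) p14_15_3 (nat_lit 4) (nat_lit 212) (nat_lit 213) = true := by decide +kernel
def p14_15_3_213 : pfC (piC [(nat_lit 36888796), (nat_lit 24534081), (nat_lit 18263511), (nat_lit 12310016)] (nat_lit 5208761)) p14_15_3 (nat_lit 4) (nat_lit 213) (nat_lit 214) = true := by decide +kernel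
def p14_15_3_214 : pfC (piC [(nat_lit 36888796), (nat_lit 24534081), (nat_lit 18263511), (nat_lit 12310016)] (nat_lit 5208761)) p14_15_3 (nat_lit 4) (nat_lit 214) (nat_lit 215) = true := by decide +kernel
def p14_15_3_215 : pfC (piC [(nat_lit 36888796), (nat_lit 24534081), (nat_lit 18263511), (nat_lit 12310016)] (nat_lit 5208761)) p14_15_3 (nat_lit 4) (nat_lit 215) (nat_lit 216) = true := by decide +kernel
def p14_15_3_216 : pfC (piC [(nat_lit 36888796), (nat_lit 24534081), (nat_lit 18263511), (nat_lit 12310016)] (nat_lit 5208761)) p14_15_3 (nat_lit 4) (nat_lit 216) (nat_lit 217) = true := by decide +kernel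
def p14_15_3_217 : pfC (piC [(nat_lit 36888796), (nat_lit 24534081), (nat_lit 18263511), (nat_lit 12310016)] (nat_lit 5208761)) p14_15_3 (nat_lit 4) (nat_lit 217) (nat_lit 218) = true := by decide +kernel
def p14_15_3_218 : pfC (piC [(nat_lit 36888796), (nat_lit 24534081), (nat_lit 18263511), (nat_lit 12310016)] (nat_lit 5208761)) p14_15_3 (nat_lit 4) (nat_lit 218) (nat_lit 219) = true := by decide +kernel
def p14_15_3_219 : pfC (piC [(nat_lit 36888796), (nat_lit 24534081), (nat_lit 18263511), (nat_lit 12310016)] (nat_lit 5208761)) p14_15_3 (nat_lit 4) (nat_lit 219) (nat_lit 220) = true := by decide +kernel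
def p14_15_3_220 : pfC (piC [(nat_lit 36888796), (nat_lit 24534081), (nat_lit 18263511), (nat_lit 12310016)] (nat_lit 5208761)) p14_15_3 (nat_lit 4) (nat_lit 220) (nat_lit 221) = true := by decide +kernel
def p14_15_3_221 : pfC (piC [(nat_lit 36888796), (nat_lit 24534081), (nat_lit 18263511), (nat_lit 12310016)] (nat_lit 5208761)) p14_15_3 (nat_lit 4) (nat_lit 221) (nat_lit 222) = true := by decide +kernel
def p14_15_3_222 : pfC (piC [(nat_lit 36888796), (nat_lit 24534081), (nat_lit 18263511), (nat_lit 12310016)] (nat_lit 5208761)) p14_15_3 (nat_lit 4) (nat_lit 222) (nat_lit 223) = true := by decide +kernel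
def p14_15_3_223 : pfC (piC [(nat_lit 36888796), (nat_lit 24534081), (nat_lit 18263511), (nat_lit 12310016)] (nat_lit 5208761)) p14_15_3 (nat_lit 4) (nat_lit 223) (nat_lit 224) = true := by decide +kernel
def p14_15_3_224 : pfC (piC [(nat_lit 36888796), (nat_lit 24534081), (nat_lit 18263511), (nat_lit 12310016)] (nat_lit 5208761)) p14_15_3 (nat_lit 4) (nat_lit 224) (nat_lit 225) = true := by decide +kernel
theorem p14_15_3_T : PfS (PiF n14_15.reverse (nat_lit 5208761)) p14_15_3 (nat_lit 4) [] 0 :=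
  pftab_of (los := [(nat_lit 36888796), (nat_lit 24534081), (nat_lit 18263511), (nat_lit 12310016)]) (by decide +kernel) (hi := (nat_lit 225)) (PfP.trans (PfP.trans (PfP.trans (PfP.trans (PfP.trans (PfP.trans (PfP.trans (PfP.trans (PfP.trans (PfP.trans (PfP.trans (PfP.trans (PfP.trans (PfP.trans (PfP.trans (PfP.trans (PfP.trans (PfP.trans (PfP.trans (PfP.trans (PfP.trans (PfP.trans (PfP.trans (PfP.trans (PfP.trans (PfP.trans (PfP.trans (PfP.trans (PfP.trans (PfP.trans (PfP.trans (PfP.trans (PfP.trans (PfP.trans (PfP.trans (PfP.trans (PfP.trans (PfP.trans (PfP.trans (PfP.trans (PfP.trans (PfP.trans (PfP.trans (PfP.trans (PfP.trans (PfP.trans (PfP.trans (PfP.trans (PfP.trans (PfP.trans (PfP.trans (PfP.trans (PfP.trans (PfP.trans (PfP.trans (PfP.trans (PfP.trans (PfP.trans (PfP.trans (PfP.trans (PfP.trans (PfP.trans (PfP.trans (PfP.trans (PfP.trans (PfP.trans (PfP.trans (PfP.trans (PfP.trans (PfP.trans (PfP.trans (PfP.trans (PfP.trans (PfP.trans (PfP.trans (PfP.trans (PfP.trans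 (PfP.trans (PfP.trans (PfP.trans (PfP.trans (PfP.trans (PfP.trans (PfP.trans (PfP.trans (PfP.trans (PfP.trans (PfP.trans (PfP.trans (PfP.trans (PfP.trans (PfP.trans (PfP.trans (PfP.trans (PfP.trans (PfP.trans (PfP.trans (PfP.trans (PfP.trans (PfP.trans (PfP.trans (PfP.trans (PfP.trans (PfP.trans (PfP.trans (PfP.trans (PfP.trans (PfP.trans (PfP.trans
 (PfP.trans (PfP.trans (PfP.trans (PfP.trans (PfP.trans (PfP.trans (PfP.trans (PfP.trans (PfP.trans (PfP.trans (PfP.trans (PfP.trans (PfP.trans (PfP.trans (PfP.trans (PfP.trans (PfP.trans (PfP.trans (PfP.trans (PfP.trans (PfP.trans (PfP.trans (PfP.trans (PfP.trans (PfP.trans (PfP.trans (PfP.trans (PfP.trans (PfP.trans (PfP.trans (PfP.trans (PfP.trans (PfP.trans (PfP.trans (PfP.trans (PfP.trans (PfP.trans (PfP.trans (PfP.trans (PfP.trans (PfP.trans (PfP.trans (PfP.trans (PfP.trans (PfP.trans (PfP.trans (PfP.trans (PfP.trans (PfP.trans (PfP.trans (PfP.trans (PfP.trans (PfP.trans (PfP.trans (PfP.trans (PfP.trans (PfP.trans (PfP.trans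 (PfP.trans (PfP.trans (PfP.trans (PfP.trans (PfP.trans (PfP.trans (PfP.trans (PfP.trans (PfP.trans (PfP.trans (PfP.trans (PfP.trans (PfP.trans (PfP.trans (PfP.trans (PfP.trans (PfP.trans (PfP.trans (PfP.trans (PfP.trans (PfP.trans (PfP.trans (PfP.trans (PfP.trans (PfP.trans (PfP.trans (PfP.trans (PfP.trans (PfP.trans (PfP.trans (PfP.trans (PfP.trans (PfP.trans (PfP.trans (PfP.trans (PfP.trans (PfP.trans (PfP.trans (PfP.trans (PfP.trans (PfP.trans (PfP.trans (PfP.trans (PfP.trans (PfP.trans (PfP.trans (PfP.trans (PfP.trans (PfP.trans (PfP.trans (PfP.trans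
 (PfP.trans (PfP.trans (PfP.trans (PfP.trans (PfP.trans (PfP.trans (pfC_sound p14_15_3_0) (pfC_sound p14_15_3_1)) (pfC_sound p14_15_3_2)) (pfC_sound p14_15_3_3)) (pfC_sound p14_15_3_4)) (pfC_sound p14_15_3_5)) (pfC_sound p14_15_3_6)) (pfC_sound p14_15_3_7)) (pfC_sound p14_15_3_8)) (pfC_sound p14_15_3_9)) (pfC_sound p14_15_3_10)) (pfC_sound p14_15_3_11)) (pfC_sound p14_15_3_12)) (pfC_sound p14_15_3_13)) (pfC_sound p14_15_3_14)) (pfC_sound p14_15_3_15)) (pfC_sound p14_15_3_16)) (pfC_sound p14_15_3_17)) (pfC_sound p14_15_3_18)) (pfC_sound p14_15_3_19)) (pfC_sound p14_15_3_20)) (pfC_sound p14_15_3_21)) (pfC_sound p14_15_3_22)) (pfC_sound p14_15_3_23)) (pfC_sound p14_15_3_24)) (pfC_sound p14_15_3_25)) (pfC_sound p14_15_3_26)) (pfC_sound p14_15_3_27)) (pfC_sound p14_15_3_28)) (pfC_sound p14_15_3_29)) (pfC_sound p14_15_3_30)) (pfC_sound p14_15_3_31)) (pfC_sound p14_15_3_32)) (pfC_sound p14_15_3_33)) (pfC_sound p14_15_3_34)) (pfC_sound p14_15_3_35)) (pfC_sound p14_15_3_36))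 (pfC_sound p14_15_3_37)) (pfC_sound p14_15_3_38)) (pfC_sound p14_15_3_39)) (pfC_sound p14_15_3_40)) (pfC_sound p14_15_3_41)) (pfC_sound p14_15_3_42)) (pfC_sound p14_15_3_43)) (pfC_sound p14_15_3_44)) (pfC_sound
 p14_15_3_45)) (pfC_sound p14_15_3_46)) (pfC_sound p14_15_3_47)) (pfC_sound p14_15_3_48)) (pfC_sound p14_15_3_49)) (pfC_sound p14_15_3_50)) (pfC_sound p14_15_3_51)) (pfC_sound p14_15_3_52)) (pfC_sound p14_15_3_53)) (pfC_sound p14_15_3_54)) (pfC_sound p14_15_3_55)) (pfC_sound p14_15_3_56)) (pfC_sound p14_15_3_57)) (pfC_sound p14_15_3_58)) (pfC_sound p14_15_3_59)) (pfC_sound p14_15_3_60)) (pfC_sound p14_15_3_61)) (pfC_sound p14_15_3_62)) (pfC_sound p14_15_3_63)) (pfC_sound p14_15_3_64)) (pfC_sound p14_15_3_65)) (pfC_sound p14_15_3_66)) (pfC_sound p14_15_3_67)) (pfC_sound p14_15_3_68)) (pfC_sound p14_15_3_69)) (pfC_sound p14_15_3_70)) (pfC_sound p14_15_3_71)) (pfC_sound p14_15_3_72)) (pfC_sound p14_15_3_73)) (pfC_sound p14_15_3_74)) (pfC_sound p14_15_3_75)) (pfC_sound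 p14_15_3_76)) (pfC_sound p14_15_3_77)) (pfC_sound p14_15_3_78)) (pfC_sound p14_15_3_79)) (pfC_sound p14_15_3_80)) (pfC_sound p14_15_3_81)) (pfC_sound p14_15_3_82)) (pfC_sound p14_15_3_83)) (pfC_sound p14_15_3_84)) (pfC_sound p14_15_3_85)) (pfC_sound p14_15_3_86)) (pfC_sound p14_15_3_87)) (pfC_sound p14_15_3_88)) (pfC_sound p14_15_3_89)) (pfC_sound p14_15_3_90)) (pfC_sound p14_15_3_91)) (pfC_sound p14_15_3_92)) (pfC_sound
 p14_15_3_93)) (pfC_sound p14_15_3_94)) (pfC_sound p14_15_3_95)) (pfC_sound p14_15_3_96)) (pfC_sound p14_15_3_97)) (pfC_sound p14_15_3_98)) (pfC_sound p14_15_3_99)) (pfC_sound p14_15_3_100)) (pfC_sound p14_15_3_101)) (pfC_sound p14_15_3_102)) (pfC_sound p14_15_3_103)) (pfC_sound p14_15_3_104)) (pfC_sound p14_15_3_105)) (pfC_sound p14_15_3_106)) (pfC_sound p14_15_3_107)) (pfC_sound p14_15_3_108)) (pfC_sound p14_15_3_109)) (pfC_sound p14_15_3_110)) (pfC_sound p14_15_3_111)) (pfC_sound p14_15_3_112)) (pfC_sound p14_15_3_113)) (pfC_sound p14_15_3_114)) (pfC_sound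 p14_15_3_115)) (pfC_sound p14_15_3_116)) (pfC_sound p14_15_3_117)) (pfC_sound p14_15_3_118)) (pfC_sound p14_15_3_119)) (pfC_sound p14_15_3_120)) (pfC_sound p14_15_3_121)) (pfC_sound p14_15_3_122)) (pfC_sound p14_15_3_123)) (pfC_sound p14_15_3_124)) (pfC_sound p14_15_3_125)) (pfC_sound p14_15_3_126)) (pfC_sound p14_15_3_127)) (pfC_sound p14_15_3_128)) (pfC_sound p14_15_3_129)) (pfC_sound p14_15_3_130)) (pfC_sound p14_15_3_131)) (pfC_sound p14_15_3_132)) (pfC_sound p14_15_3_133)) (pfC_sound p14_15_3_134)) (pfC_sound p14_15_3_135)) (pfC_sound p14_15_3_136)) (pfC_sound p14_15_3_137)) (pfC_sound p14_15_3_138)) (pfC_sound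
 p14_15_3_139)) (pfC_sound p14_15_3_140)) (pfC_sound p14_15_3_141)) (pfC_sound p14_15_3_142)) (pfC_sound p14_15_3_143)) (pfC_sound p14_15_3_144)) (pfC_sound p14_15_3_145)) (pfC_sound p14_15_3_146)) (pfC_sound p14_15_3_147)) (pfC_sound p14_15_3_148)) (pfC_sound p14_15_3_149)) (pfC_sound p14_15_3_150)) (pfC_sound p14_15_3_151)) (pfC_sound p14_15_3_152)) (pfC_sound p14_15_3_153)) (pfC_sound p14_15_3_154)) (pfC_sound p14_15_3_155)) (pfC_sound p14_15_3_156)) (pfC_sound p14_15_3_157)) (pfC_sound p14_15_3_158)) (pfC_sound p14_15_3_159)) (pfC_sound p14_15_3_160)) (pfC_sound p14_15_3_161)) (pfC_sound p14_15_3_162)) (pfC_sound p14_15_3_163)) (pfC_sound p14_15_3_164)) (pfC_sound p14_15_3_165)) (pfC_sound p14_15_3_166)) (pfC_sound p14_15_3_167)) (pfC_sound p14_15_3_168)) (pfC_sound p14_15_3_169)) (pfC_sound p14_15_3_170)) (pfC_sound p14_15_3_171)) (pfC_sound p14_15_3_172)) (pfC_sound p14_15_3_173)) (pfC_sound p14_15_3_174)) (pfC_sound p14_15_3_175)) (pfC_sound p14_15_3_176)) (pfC_sound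 p14_15_3_177)) (pfC_sound p14_15_3_178)) (pfC_sound p14_15_3_179)) (pfC_sound p14_15_3_180)) (pfC_sound p14_15_3_181)) (pfC_sound p14_15_3_182)) (pfC_sound p14_15_3_183)) (pfC_sound p14_15_3_184)) (pfC_sound
 p14_15_3_185)) (pfC_sound p14_15_3_186)) (pfC_sound p14_15_3_187)) (pfC_sound p14_15_3_188)) (pfC_sound p14_15_3_189)) (pfC_sound p14_15_3_190)) (pfC_sound p14_15_3_191)) (pfC_sound p14_15_3_192)) (pfC_sound p14_15_3_193)) (pfC_sound p14_15_3_194)) (pfC_sound p14_15_3_195)) (pfC_sound p14_15_3_196)) (pfC_sound p14_15_3_197)) (pfC_sound p14_15_3_198)) (pfC_sound p14_15_3_199)) (pfC_sound p14_15_3_200)) (pfC_sound p14_15_3_201)) (pfC_sound p14_15_3_202)) (pfC_sound p14_15_3_203)) (pfC_sound p14_15_3_204)) (pfC_sound p14_15_3_205)) (pfC_sound p14_15_3_206)) (pfC_sound p14_15_3_207)) (pfC_sound p14_15_3_208)) (pfC_sound p14_15_3_209)) (pfC_sound p14_15_3_210)) (pfC_sound p14_15_3_211)) (pfC_sound p14_15_3_212)) (pfC_sound p14_15_3_213)) (pfC_sound p14_15_3_214)) (pfC_sound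 p14_15_3_215)) (pfC_sound p14_15_3_216)) (pfC_sound p14_15_3_217)) (pfC_sound p14_15_3_218)) (pfC_sound p14_15_3_219)) (pfC_sound p14_15_3_220)) (pfC_sound p14_15_3_221)) (pfC_sound p14_15_3_222)) (pfC_sound p14_15_3_223)) (pfC_sound p14_15_3_224)) (by decide +kernel)

def z14_15_3 : zOK yB14_15 (nat_lit 3) (nat_lit 750) (nat_lit 792) (nat_lit 5208761) (nat_lit 4812670) = true := by decide +kernel
def g14_15_3 : gOK yB14_15.x P14_15 (nat_lit 1415) (q14_15 :: r14_15) (nat_lit 3) (nat_lit 750) (nat_lit 4) (nat_lit 792) (nat_lit 12712500) (nat_lit 12712500) (nat_lit 12712500) (nat_lit 12712500) [(nat_lit 800)] = true := by decide +kernel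
def v14_15_3 : ivC P14_15 s14_15 w14_15 n14_15 (nat_lit 4) (nat_lit 4610) (nat_lit 3) (nat_lit 750) f168_1_750 f176_1_750 (nat_lit 4) (nat_lit 792) f168_1_792 f176_1_792 (nat_lit 5208761) (nat_lit 4812670) p14_15_3 = true := by decide +kernel
end CB
end Pool.Agent.Lib.MP_6947cd_al
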