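import Pool.Agent.Lib.MP_6947cd_al.L.BoxDataB
import Pool.Agent.Lib.MP_6947cd_al.L.TeD5
import Pool.Agent.Lib.MP_6947cd_al.L.TeD6

/-!
Problem MP_6947cd_al (Chollet).  CASE B, rows `j`: boxes (generated).
-/

set_option autoImplicit false
set_option linter.defProp false
set_option maxRecDepth 20000

namespace Pool.Agent.Lib.MP_6947cd_al
namespace CB

open Ent Ent.Pk Fr Fr.WT CA

/-! box `yB14_16` -/

def P14_16 : BQ := ⟨(nat_lit 8), (nat_lit 4), (nat_lit 4), (nat_lit 0), (nat_lit 8), (nat_lit 860), (nat_lit 880), (nat_lit 120), [(nat_lit 200), (nat_lit 300), (nat_lit 450), (nat_lit 800)], (nat_lit 131312000), (nat_lit 16000000), (nat_lit 16000000000)⟩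
def q14_16 : PC := ⟨(nat_lit 1000), [(nat_lit 120000), (nat_lit 200000), (nat_lit 300000), (nat_lit 450000), (nat_lit 800000)], (nat_lit 79228162532711081671548469249000000), (nat_lit 15868688000000), (nat_lit 15868688000000), (nat_lit 10000000)⟩
def r14_16 : List PC := [⟨(nat_lit 1267), [(nat_lit 120531), (nat_lit 200809), (nat_lit 300825), (nat_lit 450959), (nat_lit 799895)], (nat_lit 79598791877049710989443557047093776), (nat_lit 16247612476160), (nat_lit 16256750540480), (nat_lit 10044250)⟩, ⟨(nat_lit 1391), [(nat_lit 120791), (nat_lit 201147), (nat_lit 301357), (nat_lit 452185), (nat_lit 801183)], (nat_lit 79776262961118409019854079610801583), (nat_lit 16403281191680), (nat_lit 16416663151040), (nat_lit 10065917)⟩]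
def s14_16 : List PB := [⟨(nat_lit 25340), (nat_lit 1928496000000), [(nat_lit 200809), (nat_lit 300825), (nat_lit 450959), (nat_lit 799895)], (nat_lit 79598791877049710989443557047093776), (nat_lit 1142147519318784), (nat_lit 1142156657383104), (nat_lit 42720)⟩, ⟨(nat_lit 27820), (nat_lit 1932656000000), [(nat_lit 201147), (nat_lit 301357), (nat_lit 452185), (nat_lit 801183)], (nat_lit 79776262961118409019854079610801583), (nat_lit 1142303188034304), (nat_lit 1142316569993664), (nat_lit 62560)⟩]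
def n14_16 : List KN := [⟨(nat_lit 800), (nat_lit 450), (nat_lit 12073119), (nat_lit 6481740)⟩, ⟨(nat_lit 450), (nat_lit 300), (nat_lit 17897616), (nat_lit 12073119)⟩, ⟨(nat_lit 300), (nat_lit 200), (nat_lit 23968959), (nat_lit 17897616)⟩, ⟨(nat_lit 200), (nat_lit 120), (nat_lit 35755509), (nat_lit 23968959)⟩]
def w14_16 : List ℕ := [(nat_lit 42720), (nat_lit 62560)]
def par14_16 : parC yB14_16 P14_16 s14_16 r14_16 q14_16 n14_16 w14_16 = true := by decide +kernel

def p14_16_0 : PF := (PF.cons (PF.cons (PF.cons (PF.cons (PF.leaf (nat_lit 828408) (nat_lit 2636777) (nat_lit 64472035) (nat_lit 2636777) [(nat_lit 0), (nat_lit 0), (nat_lit 0), (nat_lit 0)]) (PF.cons (PF.leaf (nat_lit 1029474) (nat_lit 335959) (nat_lit 64054165) (nat_lit 2718688) [(nat_lit 335959), (nat_lit 0), (nat_lit 0), (nat_lit 0)]) (PF.cons (PF.leaf (nat_lit 1271978) (nat_lit 372335) (nat_lit 63557151) (nat_lit 2806990) [(nat_lit 372335), (nat_lit 0), (nat_lit 0), (nat_lit 0)]) (PF.cons (PF.leaf (nat_lit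 1549989) (nat_lit 406287) (nat_lit 62992442) (nat_lit 2897507) [(nat_lit 406287), (nat_lit 0), (nat_lit 0), (nat_lit 0)]) (PF.cons (PF.leaf (nat_lit 1859761) (nat_lit 438169) (nat_lit 62368631) (nat_lit 2987503) [(nat_lit 438169), (nat_lit 0), (nat_lit 0), (nat_lit 0)]) (PF.cons (PF.leaf (nat_lit 2198083) (nat_lit 468154) (nat_lit 61692919) (nat_lit 3075122) [(nat_lit 468154), (nat_lit 0), (nat_lit 0), (nat_lit 0)]) (PF.cons (PF.leaf (nat_lit 2562028) (nat_lit 496331) (nat_lit 60971730) (nat_lit 3159094) [(nat_lit 496331), (nat_lit 0), (nat_lit 0), (nat_lit 0)]) (PF.cons (PF.leaf (nat_lit 2948841) (nat_lit 522755) (nat_lit 60210975) (nat_lit 3238552) [(nat_lit 522755), (nat_lit 0), (nat_lit 0),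
 (nat_lit 0)]) (PF.cons (PF.leaf (nat_lit 3355913) (nat_lit 547464) (nat_lit 59416176) (nat_lit 3312920) [(nat_lit 547464), (nat_lit 0), (nat_lit 0), (nat_lit 0)]) (PF.cons (PF.leaf (nat_lit 3780746) (nat_lit 570494) (nat_lit 58592523) (nat_lit 3381837) [(nat_lit 570494), (nat_lit 0), (nat_lit 0), (nat_lit 0)]) (PF.cons (PF.leaf (nat_lit 4220934) (nat_lit 591881) (nat_lit 57744892) (nat_lit 3445101) [(nat_lit 591881), (nat_lit 0), (nat_lit 0), (nat_lit 0)]) (PF.cons (PF.leaf (nat_lit 4674228) (nat_lit 611666) (nat_lit 56877844) (nat_lit 3502637) [(nat_lit 611666), (nat_lit 0), (nat_lit 0), (nat_lit 0)]) (PF.cons PF.nil (PF.cons PF.nil PF.nil)))))))))))))) (PF.cons (PF.cons (PF.leaf (nat_lit 1450569) (nat_lit 1373479) (nat_lit 62832405) (nat_lit 2902928) [(nat_lit 0), (nat_lit 1373479), (nat_lit 0), (nat_lit 0)]) (PF.cons (PF.leaf (nat_lit 1721721) (nat_lit 422059) (nat_lit 62269615) (nat_lit 2983384) [(nat_lit 422059), (nat_lit 1433753), (nat_lit 0), (nat_lit 0)]) (PF.cons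 (PF.leaf (nat_lit 2026467) (nat_lit 452883) (nat_lit 61645235) (nat_lit 3064390) [(nat_lit 452883), (nat_lit 1493420), (nat_lit 0), (nat_lit 0)]) (PF.cons (PF.leaf (nat_lit 2360198) (nat_lit 481755) (nat_lit
 60968414) (nat_lit 3143822) [(nat_lit 481755), (nat_lit 1551311), (nat_lit 0), (nat_lit 0)]) (PF.cons (PF.leaf (nat_lit 2719598) (nat_lit 508811) (nat_lit 60246592) (nat_lit 3220263) [(nat_lit 508811), (nat_lit 1606711), (nat_lit 0), (nat_lit 0)]) (PF.cons (PF.leaf (nat_lit 3101676) (nat_lit 534129) (nat_lit 59486232) (nat_lit 3292757) [(nat_lit 534129), (nat_lit 1659173), (nat_lit 0), (nat_lit 0)]) (PF.cons (PF.leaf (nat_lit 3503703) (nat_lit 557762) (nat_lit 58693144) (nat_lit 3360669) [(nat_lit 557762), (nat_lit 1708422), (nat_lit 0), (nat_lit 0)]) (PF.cons (PF.leaf (nat_lit 3923135) (nat_lit 579753) (nat_lit 57872645) (nat_lit 3423594) [(nat_lit 579753), (nat_lit 1754296), (nat_lit 0), (nat_lit 0)]) (PF.cons (PF.leaf (nat_lit 4357585) (nat_lit 600144) (nat_lit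 57029633) (nat_lit 3481299) [(nat_lit 600144), (nat_lit 1796720), (nat_lit 0), (nat_lit 0)]) (PF.cons (PF.leaf (nat_lit 4804797) (nat_lit 618979) (nat_lit 56168633) (nat_lit 3533680) [(nat_lit 618979), (nat_lit 1835680), (nat_lit 0), (nat_lit 0)]) (PF.cons PF.nil (PF.cons PF.nil PF.nil)))))))))))) (PF.cons (PF.cons (PF.leaf (nat_lit 2197580) (nat_lit 1538784) (nat_lit 60895143) (nat_lit 3136100) [(nat_lit 0), (nat_lit
 1538784), (nat_lit 0), (nat_lit 0)]) (PF.cons (PF.leaf (nat_lit 2524072) (nat_lit 493887) (nat_lit 60224058) (nat_lit 3207528) [(nat_lit 493887), (nat_lit 1591669), (nat_lit 0), (nat_lit 0)]) (PF.cons (PF.leaf (nat_lit 2877309) (nat_lit 520004) (nat_lit 59506844) (nat_lit 3276705) [(nat_lit 520004), (nat_lit 1642626), (nat_lit 0), (nat_lit 0)]) (PF.cons (PF.leaf (nat_lit 3253477) (nat_lit 544358) (nat_lit 58751053) (nat_lit 3342537) [(nat_lit 544358), (nat_lit 1691072), (nat_lit 0), (nat_lit 0)]) (PF.cons (PF.leaf (nat_lit 3649597) (nat_lit 567030) (nat_lit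 57963083) (nat_lit 3404302) [(nat_lit 567030), (nat_lit 1736651), (nat_lit 0), (nat_lit 0)]) (PF.cons (PF.leaf (nat_lit 4062991) (nat_lit 588080) (nat_lit 57148562) (nat_lit 3461543) [(nat_lit 588080), (nat_lit 1779151), (nat_lit 0), (nat_lit 0)]) (PF.cons (PF.leaf (nat_lit 4491217) (nat_lit 607560) (nat_lit 56312536) (nat_lit 3513985) [(nat_lit 607560), (nat_lit 1818462), (nat_lit 0), (nat_lit 0)]) (PF.cons (PF.leaf (nat_lit 4932006) (nat_lit 625521) (nat_lit 55459574) (nat_lit 3561496) [(nat_lit 625521), (nat_lit 1854545), (nat_lit 0), (nat_lit 0)]) (PF.cons (PF.leaf (nat_lit 5383255) (nat_lit 642014) (nat_lit 54593828)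
 (nat_lit 3604043) [(nat_lit 642014), (nat_lit 1887412), (nat_lit 0), (nat_lit 0)]) (PF.cons PF.nil PF.nil)))))))))) (PF.cons (PF.cons (PF.leaf (nat_lit 3036852) (nat_lit 1676086) (nat_lit 58751735) (nat_lit 3328818) [(nat_lit 0), (nat_lit 1676086), (nat_lit 0), (nat_lit 0)]) (PF.cons (PF.leaf (nat_lit 3405294) (nat_lit 553446) (nat_lit 58005235) (nat_lit 3388219) [(nat_lit 553446), (nat_lit 1720637), (nat_lit 0), (nat_lit 0)]) (PF.cons (PF.leaf (nat_lit 3794427) (nat_lit 575282) (nat_lit 57226080) (nat_lit 3444101) [(nat_lit 575282), (nat_lit 1762688), (nat_lit 0), (nat_lit 0)]) (PF.cons (PF.leaf (nat_lit 4201001) (nat_lit 595494) (nat_lit 56420508) (nat_lit 3495928) [(nat_lit 595494), (nat_lit 1801964), (nat_lit 0), (nat_lit 0)]) (PF.cons (PF.leaf (nat_lit 4622424) (nat_lit 614151) (nat_lit 55593896) (nat_lit 3543378) [(nat_lit 614151), (nat_lit 1838310), (nat_lit 0), (nat_lit 0)]) (PF.cons (PF.leaf (nat_lit 5056374) (nat_lit 631315) (nat_lit 54750975) (nat_lit 3586281)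 [(nat_lit 631315), (nat_lit 1871659), (nat_lit 0), (nat_lit 0)]) (PF.cons (PF.leaf (nat_lit 5500697) (nat_lit 647043) (nat_lit 53895960) (nat_lit 3624576) [(nat_lit 647043), (nat_lit 1902004), (nat_lit 0),
 (nat_lit 0)]) (PF.cons PF.nil (PF.cons PF.nil PF.nil))))))))) (PF.cons (PF.cons (PF.leaf (nat_lit 3939474) (nat_lit 1786696) (nat_lit 56481700) (nat_lit 3480327) [(nat_lit 0), (nat_lit 1786696), (nat_lit 0), (nat_lit 0)]) (PF.cons (PF.leaf (nat_lit 4337981) (nat_lit 602001) (nat_lit 55688354) (nat_lit 3526980) [(nat_lit 602001), (nat_lit 1822869), (nat_lit 0), (nat_lit 0)]) (PF.cons (PF.leaf (nat_lit 4751897) (nat_lit 619930) (nat_lit 54873743) (nat_lit 3569682) [(nat_lit 619930), (nat_lit 1856381), (nat_lit 0), (nat_lit 0)]) (PF.cons (PF.leaf (nat_lit 5178489) (nat_lit 636377) (nat_lit 54042943) (nat_lit 3608219) [(nat_lit 636377), (nat_lit 1887129), (nat_lit 0), (nat_lit 0)]) (PF.cons (PF.leaf (nat_lit 5615547) (nat_lit 651411) (nat_lit 53200346) (nat_lit 3642497)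 [(nat_lit 651411), (nat_lit 1915080), (nat_lit 0), (nat_lit 0)]) (PF.cons (PF.leaf (nat_lit 6061082) (nat_lit 665096) (nat_lit 52349800) (nat_lit 3672515) [(nat_lit 665096), (nat_lit 1940253), (nat_lit 0), (nat_lit 0)]) (PF.cons PF.nil PF.nil))))))) (PF.cons (PF.cons (PF.leaf (nat_lit 4880633) (nat_lit 1872789) (nat_lit 54151774) (nat_lit 3593088) [(nat_lit 0), (nat_lit 1872789), (nat_lit 0), (nat_lit 0)]) (PF.cons
 (PF.leaf (nat_lit 5299004) (nat_lit 640715) (nat_lit 53335345) (nat_lit 3627481) [(nat_lit 640715), (nat_lit 1901053), (nat_lit 0), (nat_lit 0)]) (PF.cons (PF.leaf (nat_lit 5728320) (nat_lit 655129) (nat_lit 52506943) (nat_lit 3657960) [(nat_lit 655129), (nat_lit 1926729), (nat_lit 0), (nat_lit 0)]) (PF.cons (PF.leaf (nat_lit 6166303) (nat_lit 668213) (nat_lit 51670609) (nat_lit 3684493) [(nat_lit 668213), (nat_lit 1949813), (nat_lit 0), (nat_lit 0)]) (PF.cons (PF.leaf (nat_lit 6611098) (nat_lit 680036) (nat_lit 50829833) (nat_lit 3707119) [(nat_lit 680036),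 (nat_lit 1970342), (nat_lit 0), (nat_lit 0)]) PF.nil))))) (PF.cons (PF.cons (PF.leaf (nat_lit 5839883) (nat_lit 1937035) (nat_lit 51815490) (nat_lit 3671108) [(nat_lit 0), (nat_lit 1937035), (nat_lit 0), (nat_lit 0)]) (PF.cons (PF.leaf (nat_lit 6269691) (nat_lit 670755) (nat_lit 50994883) (nat_lit 3694353) [(nat_lit 670755), (nat_lit 1958136), (nat_lit 0), (nat_lit 0)]) (PF.cons (PF.leaf (nat_lit 6706784) (nat_lit 682062) (nat_lit 50169614) (nat_lit 3713972) [(nat_lit 682062), (nat_lit 1976850), (nat_lit 0), (nat_lit 0)]) (PF.cons PF.nil PF.nil)))) (PF.cons (PF.cons (PF.leaf (nat_lit 6801052) (nat_lit 1982288) (nat_lit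
 49513789) (nat_lit 3719006) [(nat_lit 0), (nat_lit 1982288), (nat_lit 0), (nat_lit 0)]) (PF.cons (PF.leaf (nat_lit 7235579) (nat_lit 693270) (nat_lit 48703391) (nat_lit 3732490) [(nat_lit 693270), (nat_lit 1997094), (nat_lit 0), (nat_lit 0)]) PF.nil)) (PF.cons PF.nil (PF.cons PF.nil (PF.cons PF.nil PF.nil))))))))))) (PF.cons (PF.cons (PF.cons (PF.leaf (nat_lit 2095461) (nat_lit 3129928) (nat_lit 60336193) (nat_lit 3129928) [(nat_lit 0), (nat_lit 0), (nat_lit 3642691), (nat_lit 0)]) (PF.cons (PF.leaf (nat_lit 2386219) (nat_lit 470273) (nat_lit 59734777) (nat_lit 3194360) [(nat_lit 470273), (nat_lit 0), (nat_lit 3709401), (nat_lit 0)]) (PF.cons (PF.leaf (nat_lit 2708280) (nat_lit 498706) (nat_lit 59076936) (nat_lit 3258540) [(nat_lit 498706), (nat_lit 0), (nat_lit 3775923), (nat_lit 0)]) (PF.cons (PF.leaf (nat_lit 3056623) (nat_lit 524825) (nat_lit 58373058) (nat_lit 3320810) [(nat_lit 524825), (nat_lit 0), (nat_lit 3840468), (nat_lit 0)]) (PF.cons (PF.leaf (nat_lit 3427603)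 (nat_lit 548912) (nat_lit 57631223) (nat_lit 3380089) [(nat_lit 548912), (nat_lit 0), (nat_lit 3901850), (nat_lit 0)]) (PF.cons (PF.leaf (nat_lit 3818163) (nat_lit 571146) (nat_lit 56858132) (nat_lit 3435668)
 [(nat_lit 571146), (nat_lit 0), (nat_lit 3959281), (nat_lit 0)]) (PF.cons (PF.leaf (nat_lit 4225587) (nat_lit 591651) (nat_lit 56059564) (nat_lit 3487093) [(nat_lit 591651), (nat_lit 0), (nat_lit 4012249), (nat_lit 0)]) (PF.cons (PF.leaf (nat_lit 4647418) (nat_lit 610523) (nat_lit 55240611) (nat_lit 3534092) [(nat_lit 610523), (nat_lit 0), (nat_lit 4060444), (nat_lit 0)]) (PF.cons (PF.leaf (nat_lit 5081415) (nat_lit 627844) (nat_lit 54405820) (nat_lit 3576528) [(nat_lit 627844), (nat_lit 0), (nat_lit 4103705), (nat_lit 0)]) (PF.cons (PF.leaf (nat_lit 5525530) (nat_lit 643688) (nat_lit 53559271) (nat_lit 3614366) [(nat_lit 643688), (nat_lit 0), (nat_lit 4141981), (nat_lit 0)]) (PF.cons PF.nil (PF.cons PF.nil PF.nil)))))))))))) (PF.cons (PF.cons (PF.leaf (nat_lit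 2872397) (nat_lit 1652162) (nat_lit 58313654) (nat_lit 3311254) [(nat_lit 0), (nat_lit 1652162), (nat_lit 3831741), (nat_lit 0)]) (PF.cons (PF.leaf (nat_lit 3211456) (nat_lit 533458) (nat_lit 57622964) (nat_lit 3367008) [(nat_lit 533458), (nat_lit 1696086), (nat_lit 3889294), (nat_lit 0)]) (PF.cons (PF.leaf (nat_lit 3574561) (nat_lit 556865) (nat_lit 56892411) (nat_lit 3420391) [(nat_lit 556865), (nat_lit 1737964), (nat_lit
 3944314), (nat_lit 0)]) (PF.cons (PF.leaf (nat_lit 3957818) (nat_lit 578368) (nat_lit 56129857) (nat_lit 3470576) [(nat_lit 578368), (nat_lit 1777373), (nat_lit 3995899), (nat_lit 0)]) (PF.cons (PF.leaf (nat_lit 4358202) (nat_lit 598128) (nat_lit 55341714) (nat_lit 3517038) [(nat_lit 598128), (nat_lit 1814072), (nat_lit 4043471), (nat_lit 0)]) (PF.cons (PF.leaf (nat_lit 4773117) (nat_lit 616262) (nat_lit 54533426) (nat_lit 3559460) [(nat_lit 616262), (nat_lit 1847935), (nat_lit 4086678), (nat_lit 0)]) (PF.cons (PF.leaf (nat_lit 5200226) (nat_lit 632863)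 (nat_lit 53709719) (nat_lit 3597672) [(nat_lit 632863), (nat_lit 1878914), (nat_lit 4125327), (nat_lit 0)]) (PF.cons (PF.leaf (nat_lit 5637431) (nat_lit 648012) (nat_lit 52874755) (nat_lit 3631612) [(nat_lit 648012), (nat_lit 1907014), (nat_lit 4159345), (nat_lit 0)]) (PF.cons (PF.leaf (nat_lit 6082832) (nat_lit 661783) (nat_lit 52032219) (nat_lit 3661298) [(nat_lit 661783), (nat_lit 1932280), (nat_lit 4188746), (nat_lit 0)]) (PF.cons PF.nil PF.nil)))))))))) (PF.cons (PF.cons (PF.leaf (nat_lit 3723467) (nat_lit 1762666) (nat_lit 56143320) (nat_lit 3457234) [(nat_lit 0), (nat_lit 1762666), (nat_lit 3982924), (nat_lit 0)]) (PF.cons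
 (PF.leaf (nat_lit 4097729) (nat_lit 584598) (nat_lit 55395372) (nat_lit 3502216) [(nat_lit 584598), (nat_lit 1798872), (nat_lit 4028880), (nat_lit 0)]) (PF.cons (PF.leaf (nat_lit 4490086) (nat_lit 603733) (nat_lit 54620751) (nat_lit 3543932) [(nat_lit 603733), (nat_lit 1832680), (nat_lit 4071300), (nat_lit 0)]) (PF.cons (PF.leaf (nat_lit 4897367) (nat_lit 621225) (nat_lit 53825549) (nat_lit 3582000) [(nat_lit 621225), (nat_lit 1863908), (nat_lit 4109770), (nat_lit 0)]) (PF.cons (PF.leaf (nat_lit 5317079) (nat_lit 637186) (nat_lit 53014856) (nat_lit 3616209) [(nat_lit 637186), (nat_lit 1892472), (nat_lit 4144056), (nat_lit 0)]) (PF.cons (PF.leaf (nat_lit 5747031) (nat_lit 651710) (nat_lit 52193029) (nat_lit 3646467) [(nat_lit 651710), (nat_lit 1918354), (nat_lit 4174055), (nat_lit 0)]) (PF.cons (PF.leaf (nat_lit 6185254) (nat_lit 664879) (nat_lit 51363849) (nat_lit 3672766) [(nat_lit 664879), (nat_lit 1941578), (nat_lit 4199759), (nat_lit 0)]) (PF.cons PF.nil (PF.cons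 PF.nil PF.nil))))))))) (PF.cons (PF.cons (PF.leaf (nat_lit 4622469) (nat_lit 1849647) (nat_lit 53895957) (nat_lit 3567968) [(nat_lit 0), (nat_lit 1849647), (nat_lit 4095944), (nat_lit 0)]) (PF.cons (PF.leaf (nat_lit
 5020974) (nat_lit 625406) (nat_lit 53116585) (nat_lit 3601883) [(nat_lit 625406), (nat_lit 1878344), (nat_lit 4129904), (nat_lit 0)]) (PF.cons (PF.leaf (nat_lit 5432639) (nat_lit 640817) (nat_lit 52321015) (nat_lit 3632293) [(nat_lit 640817), (nat_lit 1904603), (nat_lit 4160058), (nat_lit 0)]) (PF.cons (PF.leaf (nat_lit 5854861) (nat_lit 654791) (nat_lit 51513975) (nat_lit 3659069) [(nat_lit 654791), (nat_lit 1928376), (nat_lit 4186265), (nat_lit 0)]) (PF.cons (PF.leaf (nat_lit 6285600) (nat_lit 667422) (nat_lit 50699455) (nat_lit 3682175) [(nat_lit 667422), (nat_lit 1949666), (nat_lit 4208490), (nat_lit 0)]) (PF.cons (PF.leaf (nat_lit 6723023) (nat_lit 678793) (nat_lit 49880873) (nat_lit 3701645) [(nat_lit 678793), (nat_lit 1968518), (nat_lit 4226768), (nat_lit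 0)]) (PF.cons PF.nil PF.nil))))))) (PF.cons (PF.cons (PF.leaf (nat_lit 5547863) (nat_lit 1915393) (nat_lit 51627683) (nat_lit 3646066) [(nat_lit 0), (nat_lit 1915393), (nat_lit 4173488), (nat_lit 0)]) (PF.cons (PF.leaf (nat_lit 5961572) (nat_lit 657254) (nat_lit 50837268) (nat_lit 3669546) [(nat_lit 657254), (nat_lit 1937156), (nat_lit 4196116), (nat_lit 0)]) (PF.cons (PF.leaf (nat_lit 6384395) (nat_lit 669417) (nat_lit
 50038820) (nat_lit 3689641) [(nat_lit 669417), (nat_lit 1956612), (nat_lit 4215066), (nat_lit 0)]) (PF.cons (PF.leaf (nat_lit 6814213) (nat_lit 680328) (nat_lit 49235975) (nat_lit 3706358) [(nat_lit 680328), (nat_lit 1973785), (nat_lit 4230350), (nat_lit 0)]) (PF.cons PF.nil PF.nil))))) (PF.cons (PF.cons (PF.leaf (nat_lit 6482439) (nat_lit 1962480) (nat_lit 49381530) (nat_lit 3695273) [(nat_lit 0), (nat_lit 1962480), (nat_lit 4219605), (nat_lit 0)]) (PF.cons (PF.leaf (nat_lit 6904081) (nat_lit 681375) (nat_lit 48595628) (nat_lit 3709402) [(nat_lit 681375),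 (nat_lit 1978064), (nat_lit 4232082), (nat_lit 0)]) (PF.cons (PF.leaf (nat_lit 7331583) (nat_lit 690729) (nat_lit 47807901) (nat_lit 3720447) [(nat_lit 690729), (nat_lit 1991558), (nat_lit 4241213), (nat_lit 0)]) (PF.cons PF.nil PF.nil)))) (PF.cons (PF.cons (PF.leaf (nat_lit 7412900) (nat_lit 1993534) (nat_lit 47189105) (nat_lit 3719700) [(nat_lit 0), (nat_lit 1993534), (nat_lit 4238802), (nat_lit 0)]) (PF.cons (PF.leaf (nat_lit 7836779) (nat_lit 698901) (nat_lit 46419144) (nat_lit 3725735) [(nat_lit 698901), (nat_lit 2003753), (nat_lit 4242509), (nat_lit 0)]) PF.nil)) (PF.cons PF.nil (PF.cons PF.nil PF.nil))))))))) (PF.cons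
 (PF.cons (PF.cons (PF.leaf (nat_lit 3533939) (nat_lit 3435420) (nat_lit 55749347) (nat_lit 3435420) [(nat_lit 0), (nat_lit 0), (nat_lit 3962022), (nat_lit 0)]) (PF.cons (PF.leaf (nat_lit 3880442) (nat_lit 564303) (nat_lit 55055748) (nat_lit 3478175) [(nat_lit 564303), (nat_lit 0), (nat_lit 4005292), (nat_lit 0)]) (PF.cons (PF.leaf (nat_lit 4248652) (nat_lit 585249) (nat_lit 54327825) (nat_lit 3518523) [(nat_lit 585249), (nat_lit 0), (nat_lit 4045982), (nat_lit 0)]) (PF.cons (PF.leaf (nat_lit 4634583) (nat_lit 604215) (nat_lit 53573447) (nat_lit 3555853) [(nat_lit 604215), (nat_lit 0), (nat_lit 4083432), (nat_lit 0)]) (PF.cons (PF.leaf (nat_lit 5035278) (nat_lit 621420) (nat_lit 52798852) (nat_lit 3589797) [(nat_lit 621420), (nat_lit 0), (nat_lit 4117239), (nat_lit 0)]) (PF.cons (PF.leaf (nat_lit 5448228) (nat_lit 637024) (nat_lit 52009187) (nat_lit 3620150) [(nat_lit 637024), (nat_lit 0), (nat_lit 4147177), (nat_lit 0)]) (PF.cons (PF.leaf (nat_lit 5871239) (nat_lit 651150)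 (nat_lit 51208808) (nat_lit 3646819) [(nat_lit 651150), (nat_lit 0), (nat_lit 4173142), (nat_lit 0)]) (PF.cons (PF.leaf (nat_lit 6302360) (nat_lit 663901) (nat_lit 50401460) (nat_lit 3669798) [(nat_lit 663901),
 (nat_lit 0), (nat_lit 4195120), (nat_lit 0)]) (PF.cons PF.nil (PF.cons PF.nil PF.nil)))))))))) (PF.cons (PF.cons (PF.leaf (nat_lit 4386265) (nat_lit 1825356) (nat_lit 53597760) (nat_lit 3543257) [(nat_lit 0), (nat_lit 1825356), (nat_lit 4071219), (nat_lit 0)]) (PF.cons (PF.leaf (nat_lit 4762386) (nat_lit 608115) (nat_lit 52861489) (nat_lit 3576389) [(nat_lit 608115), (nat_lit 1854520), (nat_lit 4104148), (nat_lit 0)]) (PF.cons (PF.leaf (nat_lit 5154413) (nat_lit 624877) (nat_lit 52103465) (nat_lit 3606516) [(nat_lit 624877), (nat_lit 1881415), (nat_lit 4133831), (nat_lit 0)]) (PF.cons (PF.leaf (nat_lit 5559261) (nat_lit 640004) (nat_lit 51329509) (nat_lit 3633378) [(nat_lit 640004), (nat_lit 1905932), (nat_lit 4159989), (nat_lit 0)]) (PF.cons (PF.leaf (nat_lit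 5974554) (nat_lit 653645) (nat_lit 50544366) (nat_lit 3656851) [(nat_lit 653645), (nat_lit 1928040), (nat_lit 4182485), (nat_lit 0)]) (PF.cons (PF.leaf (nat_lit 6398251) (nat_lit 665918) (nat_lit 49752003) (nat_lit 3676899) [(nat_lit 665918), (nat_lit 1947755), (nat_lit 4201282), (nat_lit 0)]) (PF.cons (PF.leaf (nat_lit 6828544) (nat_lit 676919) (nat_lit 48955790) (nat_lit 3693553) [(nat_lit 676919), (nat_lit 1965127),
 (nat_lit 4216411), (nat_lit 0)]) (PF.cons PF.nil (PF.cons PF.nil PF.nil))))))))) (PF.cons (PF.cons (PF.leaf (nat_lit 5274354) (nat_lit 1892740) (nat_lit 51406678) (nat_lit 3620934) [(nat_lit 0), (nat_lit 1892740), (nat_lit 4147859), (nat_lit 0)]) (PF.cons (PF.leaf (nat_lit 5670028) (nat_lit 642305) (nat_lit 50650748) (nat_lit 3644480) [(nat_lit 642305), (nat_lit 1915201), (nat_lit 4170437), (nat_lit 0)]) (PF.cons (PF.leaf (nat_lit 6077011) (nat_lit 655547) (nat_lit 49882575) (nat_lit 3664929) [(nat_lit 655547), (nat_lit 1935443), (nat_lit 4189662), (nat_lit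 0)]) (PF.cons (PF.leaf (nat_lit 6492847) (nat_lit 667409) (nat_lit 49106517) (nat_lit 3682215) [(nat_lit 667409), (nat_lit 1953457), (nat_lit 4205467), (nat_lit 0)]) (PF.cons (PF.leaf (nat_lit 6915619) (nat_lit 678004) (nat_lit 48326176) (nat_lit 3696345) [(nat_lit 678004), (nat_lit 1969274), (nat_lit 4217861), (nat_lit 0)]) (PF.cons PF.nil (PF.cons PF.nil PF.nil))))))) (PF.cons (PF.cons (PF.leaf (nat_lit 6179533) (nat_lit 1941762) (nat_lit 49222787) (nat_lit 3671161) [(nat_lit 0), (nat_lit 1941762), (nat_lit 4194787), (nat_lit 0)]) (PF.cons (PF.leaf (nat_lit 6586755) (nat_lit 668370) (nat_lit 48464550) (nat_lit 3685844)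
 [(nat_lit 668370), (nat_lit 1958160), (nat_lit 4207782), (nat_lit 0)]) (PF.cons (PF.leaf (nat_lit 7001621) (nat_lit 678622) (nat_lit 47701212) (nat_lit 3697603) [(nat_lit 678622), (nat_lit 1972507), (nat_lit 4217614), (nat_lit 0)]) (PF.cons (PF.leaf (nat_lit 7422157) (nat_lit 687701) (nat_lit 46936035) (nat_lit 3706476) [(nat_lit 687701), (nat_lit 1984846), (nat_lit 4224327), (nat_lit 0)]) (PF.cons PF.nil PF.nil))))) (PF.cons (PF.cons (PF.leaf (nat_lit 7087308) (nat_lit 1974874) (nat_lit 47080394) (nat_lit 3697406) [(nat_lit 0), (nat_lit 1974874), (nat_lit 4215756), (nat_lit 0)]) (PF.cons (PF.leaf (nat_lit 7499784) (nat_lit 687563) (nat_lit 46332614) (nat_lit 3704258) [(nat_lit 687563), (nat_lit 1985948), (nat_lit 4220292), (nat_lit 0)]) (PF.cons (PF.leaf (nat_lit 7917012) (nat_lit 695277) (nat_lit 45585005) (nat_lit 3708486) [(nat_lit 695277), (nat_lit 1995193), (nat_lit 4221996), (nat_lit 0)]) (PF.cons PF.nil PF.nil)))) (PF.cons (PF.cons (PF.leaf (nat_lit 7986714)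 (nat_lit 1994463) (nat_lit 45003701) (nat_lit 3703307) [(nat_lit 0), (nat_lit 1994463), (nat_lit 4214742), (nat_lit 0)]) (PF.cons PF.nil PF.nil)) (PF.cons PF.nil (PF.cons PF.nil PF.nil)))))))) (PF.cons (PF.cons
 (PF.cons (PF.leaf (nat_lit 5022131) (nat_lit 3595764) (nat_lit 51145891) (nat_lit 3595764) [(nat_lit 0), (nat_lit 0), (nat_lit 4122385), (nat_lit 0)]) (PF.cons (PF.leaf (nat_lit 5397174) (nat_lit 625364) (nat_lit 50430286) (nat_lit 3619166) [(nat_lit 625364), (nat_lit 0), (nat_lit 4144665), (nat_lit 0)]) (PF.cons (PF.leaf (nat_lit 5786292) (nat_lit 640047) (nat_lit 49696917) (nat_lit 3639826) [(nat_lit 640047), (nat_lit 0), (nat_lit 4163991), (nat_lit 0)]) (PF.cons (PF.leaf (nat_lit 6186489) (nat_lit 653127) (nat_lit 48951272) (nat_lit 3657581) [(nat_lit 653127), (nat_lit 0), (nat_lit 4180191), (nat_lit 0)]) (PF.cons (PF.leaf (nat_lit 6595517) (nat_lit 664779) (nat_lit 48197731) (nat_lit 3672369) [(nat_lit 664779), (nat_lit 0), (nat_lit 4193198), (nat_lit 0)])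 (PF.cons (PF.leaf (nat_lit 7011462) (nat_lit 675134) (nat_lit 47439881) (nat_lit 3684197) [(nat_lit 675134), (nat_lit 0), (nat_lit 4203020), (nat_lit 0)]) (PF.cons (PF.leaf (nat_lit 7432676) (nat_lit 684303) (nat_lit 46680718) (nat_lit 3693120) [(nat_lit 684303), (nat_lit 0), (nat_lit 4209718), (nat_lit 0)]) (PF.cons PF.nil (PF.cons PF.nil PF.nil))))))))) (PF.cons (PF.cons (PF.leaf (nat_lit 5894333) (nat_lit 1919942)
 (nat_lit 49033111) (nat_lit 3646671) [(nat_lit 0), (nat_lit 1919942), (nat_lit 4169695), (nat_lit 0)]) (PF.cons (PF.leaf (nat_lit 6285187) (nat_lit 653914) (nat_lit 48306649) (nat_lit 3661800) [(nat_lit 653914), (nat_lit 1937215), (nat_lit 4183077), (nat_lit 0)]) (PF.cons (PF.leaf (nat_lit 6685834) (nat_lit 665293) (nat_lit 47570994) (nat_lit 3674200) [(nat_lit 665293), (nat_lit 1952475), (nat_lit 4193518), (nat_lit 0)]) (PF.cons (PF.leaf (nat_lit 7093940) (nat_lit 675355) (nat_lit 46830140) (nat_lit 3683853) [(nat_lit 675355), (nat_lit 1965745), (nat_lit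 4201001), (nat_lit 0)]) (PF.cons (PF.leaf (nat_lit 7507738) (nat_lit 684227) (nat_lit 46087327) (nat_lit 3690797) [(nat_lit 684227), (nat_lit 1977075), (nat_lit 4205568), (nat_lit 0)]) (PF.cons PF.nil (PF.cons PF.nil PF.nil))))))) (PF.cons (PF.cons (PF.leaf (nat_lit 6776595) (nat_lit 1955249) (nat_lit 46947160) (nat_lit 3674553) [(nat_lit 0), (nat_lit 1955249), (nat_lit 4192199), (nat_lit 0)]) (PF.cons (PF.leaf (nat_lit 7176144) (nat_lit 675118) (nat_lit 46224567) (nat_lit 3682169) [(nat_lit 675118), (nat_lit 1967230), (nat_lit 4197499), (nat_lit 0)]) (PF.cons (PF.leaf (nat_lit 7582153) (nat_lit 683751) (nat_lit 45499024)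
 (nat_lit 3687262) [(nat_lit 683751), (nat_lit 1977389), (nat_lit 4200081), (nat_lit 0)]) (PF.cons (PF.leaf (nat_lit 7992783) (nat_lit 691289) (nat_lit 44773452) (nat_lit 3689889) [(nat_lit 691289), (nat_lit 1985783), (nat_lit 4200011), (nat_lit 0)]) (PF.cons PF.nil PF.nil))))) (PF.cons (PF.cons (PF.leaf (nat_lit 7656646) (nat_lit 1977006) (nat_lit 44915254) (nat_lit 3682574) [(nat_lit 0), (nat_lit 1977006), (nat_lit 4193321), (nat_lit 0)]) (PF.cons (PF.leaf (nat_lit 8059415) (nat_lit 690213) (nat_lit 44207005) (nat_lit 3683639) [(nat_lit 690213), (nat_lit 1984401), (nat_lit 4191582), (nat_lit 0)]) (PF.cons PF.nil (PF.cons PF.nil PF.nil)))) (PF.cons (PF.cons (PF.leaf (nat_lit 8525400) (nat_lit 1987366) (nat_lit 42955808) (nat_lit 3673926) [(nat_lit 0), (nat_lit 1987366), (nat_lit 4176538), (nat_lit 0)]) (PF.cons PF.nil PF.nil)) (PF.cons PF.nil PF.nil)))))) (PF.cons (PF.cons (PF.cons (PF.leaf (nat_lit 6482742) (nat_lit 3651108) (nat_lit 46785238) (nat_lit 3651108) [(nat_lit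 0), (nat_lit 0), (nat_lit 4168116), (nat_lit 0)]) (PF.cons (PF.leaf (nat_lit 6867406) (nat_lit 661234) (nat_lit 46091734) (nat_lit 3659429) [(nat_lit 661234), (nat_lit 0), (nat_lit 4174103), (nat_lit 0)])
 (PF.cons (PF.leaf (nat_lit 7260620) (nat_lit 671016) (nat_lit 45391367) (nat_lit 3665352) [(nat_lit 671016), (nat_lit 0), (nat_lit 4177514), (nat_lit 0)]) (PF.cons (PF.leaf (nat_lit 7660174) (nat_lit 679548) (nat_lit 44687786) (nat_lit 3668892) [(nat_lit 679548), (nat_lit 0), (nat_lit 4178371), (nat_lit 0)]) (PF.cons (PF.leaf (nat_lit 8064419) (nat_lit 686963) (nat_lit 43983901) (nat_lit 3670105) [(nat_lit 686963), (nat_lit 0), (nat_lit 4176737), (nat_lit 0)]) (PF.cons PF.nil (PF.cons PF.nil PF.nil))))))) (PF.cons (PF.cons (PF.leaf (nat_lit 7340618) (nat_lit 1958554) (nat_lit 44804174) (nat_lit 3661151) [(nat_lit 0), (nat_lit 1958554), (nat_lit 4171232), (nat_lit 0)]) (PF.cons (PF.leaf (nat_lit 7731765) (nat_lit 678360) (nat_lit 44118770) (nat_lit 3663114) [(nat_lit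 678360), (nat_lit 1966907), (nat_lit 4170414), (nat_lit 0)]) (PF.cons (PF.leaf (nat_lit 8128422) (nat_lit 685624) (nat_lit 43431967) (nat_lit 3662900) [(nat_lit 685624), (nat_lit 1973642), (nat_lit 4167263), (nat_lit 0)]) (PF.cons PF.nil (PF.cons PF.nil PF.nil))))) (PF.cons (PF.cons (PF.leaf (nat_lit 8192851) (nat_lit 1971114) (nat_lit 42884671) (nat_lit 3654781) [(nat_lit 0), (nat_lit 1971114), (nat_lit 4156782),
 (nat_lit 0)]) (PF.cons (PF.leaf (nat_lit 8585681) (nat_lit 690054) (nat_lit 42215990) (nat_lit 3651269) [(nat_lit 690054), (nat_lit 1975516), (nat_lit 4150116), (nat_lit 0)]) (PF.cons PF.nil (PF.cons PF.nil PF.nil)))) (PF.cons (PF.cons (PF.leaf (nat_lit 9031835) (nat_lit 1974066) (nat_lit 41040680) (nat_lit 3634780) [(nat_lit 0), (nat_lit 1974066), (nat_lit 4127788), (nat_lit 0)]) (PF.cons PF.nil PF.nil)) (PF.cons PF.nil PF.nil))))) (PF.cons (PF.cons (PF.cons (PF.leaf (nat_lit 7873546) (nat_lit 3634859) (nat_lit 42792692) (nat_lit 3634859) [(nat_lit 0), (nat_lit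 0), (nat_lit 4136252), (nat_lit 0)]) (PF.cons (PF.leaf (nat_lit 8255885) (nat_lit 678801) (nat_lit 42144686) (nat_lit 3632322) [(nat_lit 678801), (nat_lit 0), (nat_lit 4130600), (nat_lit 0)]) (PF.cons (PF.leaf (nat_lit 8642979) (nat_lit 684907) (nat_lit 41496379) (nat_lit 3627906) [(nat_lit 684907), (nat_lit 0), (nat_lit 4122942), (nat_lit 0)]) (PF.cons PF.nil PF.nil)))) (PF.cons (PF.cons (PF.leaf (nat_lit 8698396) (nat_lit 1958988) (nat_lit 40984256) (nat_lit 3617195) [(nat_lit 0), (nat_lit 1958988), (nat_lit 4109674), (nat_lit 0)]) (PF.cons (PF.leaf (nat_lit 9081271) (nat_lit 687674) (nat_lit 40354259) (nat_lit 3610083)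
 [(nat_lit 687674), (nat_lit 1960961), (nat_lit 4099166), (nat_lit 0)]) PF.nil)) (PF.cons PF.nil PF.nil))) (PF.cons (PF.cons (PF.cons (PF.leaf (nat_lit 9175729) (nat_lit 3572314) (nat_lit 39207835) (nat_lit 3572314) [(nat_lit 0), (nat_lit 0), (nat_lit 4054777), (nat_lit 0)]) (PF.cons PF.nil PF.nil)) (PF.cons PF.nil PF.nil)) (PF.cons PF.nil (PF.cons PF.nil PF.nil))))))))) (PF.cons (PF.cons (PF.cons (PF.cons (PF.leaf (nat_lit 3117439) (nat_lit 3304451) (nat_lit 54544794) (nat_lit 3304451) [(nat_lit 0), (nat_lit 0), (nat_lit 0), (nat_lit 9259567)]) (PF.cons (PF.leaf (nat_lit 3411859) (nat_lit 506214) (nat_lit 53972725) (nat_lit 3348613) [(nat_lit 506214), (nat_lit 0), (nat_lit 0), (nat_lit 9281259)]) (PF.cons (PF.leaf (nat_lit 3734469) (nat_lit 531969) (nat_lit 53353199) (nat_lit 3391653) [(nat_lit 531969), (nat_lit 0), (nat_lit 0), (nat_lit 9300019)]) (PF.cons (PF.leaf (nat_lit 4079943) (nat_lit 554951) (nat_lit 52696685) (nat_lit 3432483) [(nat_lit 554951), (nat_lit 0),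 (nat_lit 0), (nat_lit 9314788)]) (PF.cons (PF.leaf (nat_lit 4444518) (nat_lit 575611) (nat_lit 52011069) (nat_lit 3470441) [(nat_lit 575611), (nat_lit 0), (nat_lit 0), (nat_lit 9324857)]) (PF.cons (PF.leaf (nat_lit
 4825134) (nat_lit 594251) (nat_lit 51302653) (nat_lit 3505131) [(nat_lit 594251), (nat_lit 0), (nat_lit 0), (nat_lit 9329770)]) (PF.cons (PF.leaf (nat_lit 5219209) (nat_lit 611092) (nat_lit 50576658) (nat_lit 3536335) [(nat_lit 611092), (nat_lit 0), (nat_lit 0), (nat_lit 9329265)]) (PF.cons (PF.leaf (nat_lit 5624495) (nat_lit 626302) (nat_lit 49837514) (nat_lit 3563952) [(nat_lit 626302), (nat_lit 0), (nat_lit 0), (nat_lit 9323228)]) (PF.cons (PF.leaf (nat_lit 6039001) (nat_lit 640019) (nat_lit 49089030) (nat_lit 3587969) [(nat_lit 640019), (nat_lit 0), (nat_lit 0), (nat_lit 9311661)]) (PF.cons (PF.leaf (nat_lit 6460972) (nat_lit 652357) (nat_lit 48334515) (nat_lit 3608430) [(nat_lit 652357), (nat_lit 0), (nat_lit 0), (nat_lit 9294652)]) (PF.cons (PF.leaf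 (nat_lit 6888792) (nat_lit 663417) (nat_lit 47576853) (nat_lit 3625425) [(nat_lit 663417), (nat_lit 0), (nat_lit 0), (nat_lit 9272363)]) (PF.cons PF.nil (PF.cons PF.nil (PF.cons PF.nil PF.nil)))))))))))))) (PF.cons (PF.cons (PF.leaf (nat_lit 3879538) (nat_lit 1729712) (nat_lit 52650550) (nat_lit 3421600) [(nat_lit 0), (nat_lit 1729712), (nat_lit 0), (nat_lit 9306948)]) (PF.cons (PF.leaf (nat_lit 4214217) (nat_lit 559659) (nat_lit
 52011985) (nat_lit 3457700) [(nat_lit 559659), (nat_lit 1763146), (nat_lit 0), (nat_lit 9316319)]) (PF.cons (PF.leaf (nat_lit 4569693) (nat_lit 579879) (nat_lit 51341989) (nat_lit 3491435) [(nat_lit 579879), (nat_lit 1794341), (nat_lit 0), (nat_lit 9321286)]) (PF.cons (PF.leaf (nat_lit 4942087) (nat_lit 598027) (nat_lit 50647936) (nat_lit 3522311) [(nat_lit 598027), (nat_lit 1823089), (nat_lit 0), (nat_lit 9321393)]) (PF.cons (PF.leaf (nat_lit 5328482) (nat_lit 614357) (nat_lit 49935642) (nat_lit 3550047) [(nat_lit 614357), (nat_lit 1849310),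 (nat_lit 0), (nat_lit 9316382)]) (PF.cons (PF.leaf (nat_lit 5726473) (nat_lit 629058) (nat_lit 49209872) (nat_lit 3574502) [(nat_lit 629058), (nat_lit 1873000), (nat_lit 0), (nat_lit 9306144)]) (PF.cons (PF.leaf (nat_lit 6133948) (nat_lit 642278) (nat_lit 48474626) (nat_lit 3595630) [(nat_lit 642278), (nat_lit 1894200), (nat_lit 0), (nat_lit 9290681)]) (PF.cons (PF.leaf (nat_lit 6549064) (nat_lit 654140) (nat_lit 47733315) (nat_lit 3613450) [(nat_lit 654140), (nat_lit 1912981), (nat_lit 0), (nat_lit 9270084)]) (PF.cons (PF.leaf (nat_lit 6970214) (nat_lit 664746) (nat_lit 46988872) (nat_lit 3628032) [(nat_lit 664746), (nat_lit 1929431),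
 (nat_lit 0), (nat_lit 9244506)]) (PF.cons (PF.leaf (nat_lit 7395945) (nat_lit 674189) (nat_lit 46243830) (nat_lit 3639478) [(nat_lit 674189), (nat_lit 1943650), (nat_lit 0), (nat_lit 9214151)]) (PF.cons PF.nil (PF.cons PF.nil PF.nil)))))))))))) (PF.cons (PF.cons (PF.leaf (nat_lit 4697130) (nat_lit 1808836) (nat_lit 50667766) (nat_lit 3510009) [(nat_lit 0), (nat_lit 1808836), (nat_lit 0), (nat_lit 9313363)]) (PF.cons (PF.leaf (nat_lit 5059809) (nat_lit 600987) (nat_lit 49991183) (nat_lit 3537242) [(nat_lit 600987), (nat_lit 1835177), (nat_lit 0), (nat_lit 9309043)]) (PF.cons (PF.leaf (nat_lit 5437694) (nat_lit 616926) (nat_lit 49294858) (nat_lit 3561689) [(nat_lit 616926), (nat_lit 1859262), (nat_lit 0), (nat_lit 9299888)]) (PF.cons (PF.leaf (nat_lit 5827785) (nat_lit 631210) (nat_lit 48584168) (nat_lit 3583155) [(nat_lit 631210), (nat_lit 1881033), (nat_lit 0), (nat_lit 9285791)]) (PF.cons (PF.leaf (nat_lit 6227800) (nat_lit 644008) (nat_lit 47863467) (nat_lit 3601559)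 [(nat_lit 644008), (nat_lit 1900498), (nat_lit 0), (nat_lit 9266756)]) (PF.cons (PF.leaf (nat_lit 6635781) (nat_lit 655453) (nat_lit 47136369) (nat_lit 3616896) [(nat_lit 655453), (nat_lit 1917702), (nat_lit 0),
 (nat_lit 9242872)]) (PF.cons (PF.leaf (nat_lit 7050047) (nat_lit 665658) (nat_lit 46405926) (nat_lit 3629213) [(nat_lit 665658), (nat_lit 1932717), (nat_lit 0), (nat_lit 9214288)]) (PF.cons (PF.leaf (nat_lit 7469093) (nat_lit 674717) (nat_lit 45674735) (nat_lit 3638594) [(nat_lit 674717), (nat_lit 1945629), (nat_lit 0), (nat_lit 9181201)]) (PF.cons PF.nil (PF.cons PF.nil PF.nil)))))))))) (PF.cons (PF.cons (PF.leaf (nat_lit 5547985) (nat_lit 1868051) (nat_lit 48653390) (nat_lit 3571380) [(nat_lit 0), (nat_lit 1868051), (nat_lit 0), (nat_lit 9279887)]) (PF.cons (PF.leaf (nat_lit 5929157) (nat_lit 632742) (nat_lit 47959795) (nat_lit 3590016) [(nat_lit 632742), (nat_lit 1887991), (nat_lit 0), (nat_lit 9262284)]) (PF.cons (PF.leaf (nat_lit 6321150) (nat_lit 645201)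 (nat_lit 47255127) (nat_lit 3605853) [(nat_lit 645201), (nat_lit 1905807), (nat_lit 0), (nat_lit 9240005)]) (PF.cons (PF.leaf (nat_lit 6721610) (nat_lit 656298) (nat_lit 46543364) (nat_lit 3618854) [(nat_lit 656298), (nat_lit 1921520), (nat_lit 0), (nat_lit 9213136)]) (PF.cons (PF.leaf (nat_lit 7128714) (nat_lit 666156) (nat_lit 45827771) (nat_lit 3629045) [(nat_lit 666156), (nat_lit 1935181), (nat_lit 0), (nat_lit
 9181825)]) (PF.cons (PF.leaf (nat_lit 7540896) (nat_lit 674879) (nat_lit 45111076) (nat_lit 3636492) [(nat_lit 674879), (nat_lit 1946861), (nat_lit 0), (nat_lit 9146262)]) (PF.cons (PF.leaf (nat_lit 7956788) (nat_lit 682556) (nat_lit 44395577) (nat_lit 3641289) [(nat_lit 682556), (nat_lit 1956644), (nat_lit 0), (nat_lit 9106670)]) (PF.cons PF.nil (PF.cons PF.nil PF.nil))))))))) (PF.cons (PF.cons (PF.leaf (nat_lit 6414912) (nat_lit 1910187) (nat_lit 46648946) (nat_lit 3608598) [(nat_lit 0), (nat_lit 1910187), (nat_lit 0), (nat_lit 9210519)]) (PF.cons (PF.leaf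 (nat_lit 6807109) (nat_lit 656665) (nat_lit 45953824) (nat_lit 3619404) [(nat_lit 656665), (nat_lit 1924486), (nat_lit 0), (nat_lit 9180973)]) (PF.cons (PF.leaf (nat_lit 7206687) (nat_lit 666238) (nat_lit 45254047) (nat_lit 3627602) [(nat_lit 666238), (nat_lit 1936867), (nat_lit 0), (nat_lit 9147214)]) (PF.cons (PF.leaf (nat_lit 7611750) (nat_lit 674675) (nat_lit 44552566) (nat_lit 3633239) [(nat_lit 674675), (nat_lit 1947386), (nat_lit 0), (nat_lit 9109432)]) (PF.cons (PF.leaf (nat_lit 8020856) (nat_lit 682073) (nat_lit 43851816) (nat_lit 3636394) [(nat_lit 682073), (nat_lit 1956116), (nat_lit 0), (nat_lit 9067842)]) (PF.cons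
 PF.nil (PF.cons PF.nil PF.nil))))))) (PF.cons (PF.cons (PF.leaf (nat_lit 7284695) (nat_lit 1937817) (nat_lit 44684243) (nat_lit 3624947) [(nat_lit 0), (nat_lit 1937817), (nat_lit 0), (nat_lit 9110534)]) (PF.cons (PF.leaf (nat_lit 7682105) (nat_lit 674101) (nat_lit 43998811) (nat_lit 3628893) [(nat_lit 674101), (nat_lit 1947243), (nat_lit 0), (nat_lit 9070788)]) (PF.cons (PF.leaf (nat_lit 8084184) (nat_lit 681266) (nat_lit 43313419) (nat_lit 3630517) [(nat_lit 681266), (nat_lit 1954982), (nat_lit 0), (nat_lit 9027432)]) (PF.cons (PF.leaf (nat_lit 8489402) (nat_lit 687478) (nat_lit 42630244) (nat_lit 3629905) [(nat_lit 687478), (nat_lit 1961105), (nat_lit 0), (nat_lit 8980695)]) (PF.cons PF.nil PF.nil))))) (PF.cons (PF.cons (PF.leaf (nat_lit 8147378) (nat_lit 1953272) (nat_lit 42779968) (nat_lit 3623707) [(nat_lit 0), (nat_lit 1953272), (nat_lit 0), (nat_lit 8985501)]) (PF.cons (PF.leaf (nat_lit 8545521) (nat_lit 686155) (nat_lit 42112120) (nat_lit 3621810) [(nat_lit 686155),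 (nat_lit 1958554), (nat_lit 0), (nat_lit 8937399)]) (PF.cons PF.nil (PF.cons PF.nil PF.nil)))) (PF.cons (PF.cons (PF.leaf (nat_lit 8995646) (nat_lit 1958625) (nat_lit 40949744) (nat_lit 3607945) [(nat_lit 0),
 (nat_lit 1958625), (nat_lit 0), (nat_lit 8840746)]) (PF.cons PF.nil PF.nil)) (PF.cons PF.nil PF.nil))))))))) (PF.cons (PF.cons (PF.cons (PF.leaf (nat_lit 4485171) (nat_lit 3483488) (nat_lit 50340628) (nat_lit 3483488) [(nat_lit 0), (nat_lit 0), (nat_lit 4004973), (nat_lit 9279722)]) (PF.cons (PF.leaf (nat_lit 4822749) (nat_lit 580004) (nat_lit 49713098) (nat_lit 3510224) [(nat_lit 580004), (nat_lit 0), (nat_lit 4030390), (nat_lit 9275095)]) (PF.cons (PF.leaf (nat_lit 5179244) (nat_lit 598107) (nat_lit 49058382) (nat_lit 3534679) [(nat_lit 598107), (nat_lit 0), (nat_lit 4053406), (nat_lit 9266128)]) (PF.cons (PF.leaf (nat_lit 5550778) (nat_lit 614144) (nat_lit 48383609) (nat_lit 3556505) [(nat_lit 614144), (nat_lit 0), (nat_lit 4073650), (nat_lit 9252613)]) (PF.cons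 (PF.leaf (nat_lit 5934562) (nat_lit 628406) (nat_lit 47694281) (nat_lit 3575515) [(nat_lit 628406), (nat_lit 0), (nat_lit 4090918), (nat_lit 9234472)]) (PF.cons (PF.leaf (nat_lit 6328261) (nat_lit 641102) (nat_lit 46994819) (nat_lit 3591632) [(nat_lit 641102), (nat_lit 0), (nat_lit 4105122), (nat_lit 9211727)]) (PF.cons (PF.leaf (nat_lit 6729914) (nat_lit 652396) (nat_lit 46288860) (nat_lit 3604853) [(nat_lit 652396),
 (nat_lit 0), (nat_lit 4116251), (nat_lit 9184470)]) (PF.cons (PF.leaf (nat_lit 7137822) (nat_lit 662419) (nat_lit 45579453) (nat_lit 3615221) [(nat_lit 662419), (nat_lit 0), (nat_lit 4124349), (nat_lit 9152850)]) (PF.cons (PF.leaf (nat_lit 7550516) (nat_lit 671282) (nat_lit 44869177) (nat_lit 3622820) [(nat_lit 671282), (nat_lit 0), (nat_lit 4129500), (nat_lit 9117057)]) (PF.cons PF.nil (PF.cons PF.nil (PF.cons PF.nil PF.nil)))))))))))) (PF.cons (PF.cons (PF.leaf (nat_lit 5296311) (nat_lit 1843137) (nat_lit 48411834) (nat_lit 3545185) [(nat_lit 0), (nat_lit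 1843137), (nat_lit 4062842), (nat_lit 9245812)]) (PF.cons (PF.leaf (nat_lit 5657785) (nat_lit 615438) (nat_lit 47756067) (nat_lit 3564108) [(nat_lit 615438), (nat_lit 1864161), (nat_lit 4080025), (nat_lit 9229010)]) (PF.cons (PF.leaf (nat_lit 6032794) (nat_lit 629456) (nat_lit 47083983) (nat_lit 3580501) [(nat_lit 629456), (nat_lit 1883098), (nat_lit 4094520), (nat_lit 9207795)]) (PF.cons (PF.leaf (nat_lit 6418469) (nat_lit 641869) (nat_lit 46400625) (nat_lit 3594246) [(nat_lit 641869), (nat_lit 1899934), (nat_lit 4106202), (nat_lit 9182196)]) (PF.cons (PF.leaf (nat_lit 6812622) (nat_lit 652862) (nat_lit 45710003) (nat_lit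
 3605310) [(nat_lit 652862), (nat_lit 1914703), (nat_lit 4115033), (nat_lit 9152312)]) (PF.cons (PF.leaf (nat_lit 7213437) (nat_lit 662581) (nat_lit 45015390) (nat_lit 3613718) [(nat_lit 662581), (nat_lit 1927466), (nat_lit 4121039), (nat_lit 9118292)]) (PF.cons (PF.leaf (nat_lit 7619354) (nat_lit 671144) (nat_lit 44319499) (nat_lit 3619534) [(nat_lit 671144), (nat_lit 1938302), (nat_lit 4124285), (nat_lit 9080321)]) (PF.cons (PF.leaf (nat_lit 8029020) (nat_lit 678652) (nat_lit 43624610) (nat_lit 3622849) [(nat_lit 678652), (nat_lit 1947300), (nat_lit 4124869), (nat_lit 9038614)]) (PF.cons PF.nil (PF.cons PF.nil PF.nil)))))))))) (PF.cons (PF.cons (PF.leaf (nat_lit 6132436) (nat_lit 1888024) (nat_lit 46474183) (nat_lit 3583914) [(nat_lit 0), (nat_lit 1888024), (nat_lit 4096383), (nat_lit 9178281)]) (PF.cons (PF.leaf (nat_lit 6509087) (nat_lit 642092) (nat_lit 45808664) (nat_lit 3595423) [(nat_lit 642092), (nat_lit 1903390), (nat_lit 4105698), (nat_lit 9150153)]) (PF.cons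 (PF.leaf (nat_lit 6895204) (nat_lit 652863) (nat_lit 45134632) (nat_lit 3604463) [(nat_lit 652863), (nat_lit 1916837), (nat_lit 4112380), (nat_lit 9117933)]) (PF.cons (PF.leaf (nat_lit 7288551) (nat_lit 662339)
 (nat_lit 44455732) (nat_lit 3611035) [(nat_lit 662339), (nat_lit 1928408), (nat_lit 4116433), (nat_lit 9081775)]) (PF.cons (PF.leaf (nat_lit 7687432) (nat_lit 670654) (nat_lit 43774907) (nat_lit 3615185) [(nat_lit 670654), (nat_lit 1938163), (nat_lit 4117906), (nat_lit 9041867)]) (PF.cons (PF.leaf (nat_lit 8090410) (nat_lit 677916) (nat_lit 43094579) (nat_lit 3616989) [(nat_lit 677916), (nat_lit 1946181), (nat_lit 4116881), (nat_lit 8998417)]) (PF.cons PF.nil (PF.cons PF.nil (PF.cons PF.nil PF.nil))))))))) (PF.cons (PF.cons (PF.leaf (nat_lit 6978534) (nat_lit 1918218) (nat_lit 44562034) (nat_lit 3602375) [(nat_lit 0), (nat_lit 1918218), (nat_lit 4108358), (nat_lit 9081387)]) (PF.cons (PF.leaf (nat_lit 7363699) (nat_lit 661682) (nat_lit 43899954) (nat_lit 3607230)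 [(nat_lit 661682), (nat_lit 1928662), (nat_lit 4110594), (nat_lit 9043364)]) (PF.cons (PF.leaf (nat_lit 7755188) (nat_lit 669805) (nat_lit 43234993) (nat_lit 3609826) [(nat_lit 669805), (nat_lit 1937400), (nat_lit 4110419), (nat_lit 9001759)]) (PF.cons (PF.leaf (nat_lit 8151230) (nat_lit 676867) (nat_lit 42569804) (nat_lit 3610223) [(nat_lit 676867), (nat_lit 1944498), (nat_lit 4107902), (nat_lit 8956785)]) (PF.cons
 (PF.leaf (nat_lit 8550491) (nat_lit 682967) (nat_lit 41906546) (nat_lit 3608506) [(nat_lit 682967), (nat_lit 1950030), (nat_lit 4103134), (nat_lit 8908664)]) (PF.cons PF.nil (PF.cons PF.nil PF.nil))))))) (PF.cons (PF.cons (PF.leaf (nat_lit 7823321) (nat_lit 1936044) (nat_lit 42699215) (nat_lit 3603502) [(nat_lit 0), (nat_lit 1936044), (nat_lit 4101872), (nat_lit 8960044)]) (PF.cons (PF.leaf (nat_lit 8211900) (nat_lit 675499) (nat_lit 42049861) (nat_lit 3602594) [(nat_lit 675499), (nat_lit 1942278), (nat_lit 4097977), (nat_lit 8913766)]) (PF.cons (PF.leaf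 (nat_lit 8604364) (nat_lit 681441) (nat_lit 41401660) (nat_lit 3599698) [(nat_lit 681441), (nat_lit 1947029), (nat_lit 4091964), (nat_lit 8864486)]) (PF.cons PF.nil (PF.cons PF.nil PF.nil))))) (PF.cons (PF.cons (PF.leaf (nat_lit 8658434) (nat_lit 1943568) (nat_lit 40901666) (nat_lit 3590154) [(nat_lit 0), (nat_lit 1943568), (nat_lit 4079991), (nat_lit 8819157)]) (PF.cons (PF.leaf (nat_lit 9046551) (nat_lit 684574) (nat_lit 40271395) (nat_lit 3584381) [(nat_lit 684574), (nat_lit 1946252), (nat_lit 4070933), (nat_lit 8766265)]) (PF.cons PF.nil (PF.cons PF.nil PF.nil)))) (PF.cons (PF.cons (PF.leaf (nat_lit 9477822) (nat_lit 1942605)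
 (nat_lit 39179399) (nat_lit 3564959) [(nat_lit 0), (nat_lit 1942605), (nat_lit 4045554), (nat_lit 8663269)]) (PF.cons PF.nil PF.nil)) (PF.cons PF.nil PF.nil)))))))) (PF.cons (PF.cons (PF.cons (PF.leaf (nat_lit 5870085) (nat_lit 3558586) (nat_lit 46264501) (nat_lit 3558586) [(nat_lit 0), (nat_lit 0), (nat_lit 4070620), (nat_lit 9144485)]) (PF.cons (PF.leaf (nat_lit 6228557) (nat_lit 625452) (nat_lit 45633835) (nat_lit 3570710) [(nat_lit 625452), (nat_lit 0), (nat_lit 4080486), (nat_lit 9117842)]) (PF.cons (PF.leaf (nat_lit 6599175) (nat_lit 637799) (nat_lit 44989614) (nat_lit 3580544) [(nat_lit 637799), (nat_lit 0), (nat_lit 4087921), (nat_lit 9087210)]) (PF.cons (PF.leaf (nat_lit 6979157) (nat_lit 648597) (nat_lit 44336540) (nat_lit 3588029) [(nat_lit 648597), (nat_lit 0), (nat_lit 4092865), (nat_lit 9052719)]) (PF.cons (PF.leaf (nat_lit 7366437) (nat_lit 658044) (nat_lit 43678291) (nat_lit 3593167) [(nat_lit 658044), (nat_lit 0), (nat_lit 4095322), (nat_lit 9014529)])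 (PF.cons (PF.leaf (nat_lit 7759316) (nat_lit 666293) (nat_lit 43017826) (nat_lit 3596006) [(nat_lit 666293), (nat_lit 0), (nat_lit 4095341), (nat_lit 8972828)]) (PF.cons (PF.leaf (nat_lit 8156350) (nat_lit 673467)
 (nat_lit 42357563) (nat_lit 3596619) [(nat_lit 673467), (nat_lit 0), (nat_lit 4093001), (nat_lit 8927823)]) (PF.cons PF.nil (PF.cons PF.nil PF.nil))))))))) (PF.cons (PF.cons (PF.leaf (nat_lit 6688838) (nat_lit 1897322) (nat_lit 44412913) (nat_lit 3579039) [(nat_lit 0), (nat_lit 1897322), (nat_lit 4084453), (nat_lit 9050631)]) (PF.cons (PF.leaf (nat_lit 7059828) (nat_lit 647772) (nat_lit 43777848) (nat_lit 3584774) [(nat_lit 647772), (nat_lit 1908887), (nat_lit 4087560), (nat_lit 9014408)]) (PF.cons (PF.leaf (nat_lit 7439158) (nat_lit 657093) (nat_lit 43136245) (nat_lit 3588332) [(nat_lit 657093), (nat_lit 1918720), (nat_lit 4088353), (nat_lit 8974620)]) (PF.cons (PF.leaf (nat_lit 7824705) (nat_lit 665188) (nat_lit 42491435) (nat_lit 3589740) [(nat_lit 665188),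 (nat_lit 1926878), (nat_lit 4086864), (nat_lit 8931465)]) (PF.cons (PF.leaf (nat_lit 8214883) (nat_lit 672194) (nat_lit 41846075) (nat_lit 3589060) [(nat_lit 672194), (nat_lit 1933429), (nat_lit 4083158), (nat_lit 8885153)]) (PF.cons (PF.leaf (nat_lit 8608366) (nat_lit 678222) (nat_lit 41202318) (nat_lit 3586372) [(nat_lit 678222), (nat_lit 1938454), (nat_lit 4077325), (nat_lit 8835902)]) (PF.cons PF.nil PF.nil)))))))
 (PF.cons (PF.cons (PF.leaf (nat_lit 7512926) (nat_lit 1917733) (nat_lit 42597277) (nat_lit 3582499) [(nat_lit 0), (nat_lit 1917733), (nat_lit 4080285), (nat_lit 8932997)]) (PF.cons (PF.leaf (nat_lit 7890447) (nat_lit 663718) (nat_lit 41969076) (nat_lit 3582580) [(nat_lit 663718), (nat_lit 1925000), (nat_lit 4077404), (nat_lit 8888628)]) (PF.cons (PF.leaf (nat_lit 8273423) (nat_lit 670609) (nat_lit 41339290) (nat_lit 3580701) [(nat_lit 670609), (nat_lit 1930749), (nat_lit 4072441), (nat_lit 8841219)]) (PF.cons (PF.leaf (nat_lit 8660201) (nat_lit 676508)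 (nat_lit 40710309) (nat_lit 3576933) [(nat_lit 676508), (nat_lit 1935050), (nat_lit 4065473), (nat_lit 8790995)]) (PF.cons (PF.leaf (nat_lit 9049543) (nat_lit 681517) (nat_lit 40084054) (nat_lit 3571360) [(nat_lit 681517), (nat_lit 1937978), (nat_lit 4056595), (nat_lit 8738178)]) PF.nil))))) (PF.cons (PF.cons (PF.leaf (nat_lit 8332647) (nat_lit 1927590) (nat_lit 40836656) (nat_lit 3571575) [(nat_lit 0), (nat_lit 1927590), (nat_lit 4060882), (nat_lit 8796044)]) (PF.cons (PF.leaf (nat_lit 8712194) (nat_lit 674516) (nat_lit 40223042) (nat_lit 3566812) [(nat_lit 674516), (nat_lit 1931215), (nat_lit 4052877), (nat_lit 8745039)]) (PF.cons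
 (PF.leaf (nat_lit 9094988) (nat_lit 679429) (nat_lit 39611326) (nat_lit 3560345) [(nat_lit 679429), (nat_lit 1933535), (nat_lit 4043067), (nat_lit 8691540)]) (PF.cons PF.nil PF.nil)))) (PF.cons (PF.cons (PF.leaf (nat_lit 9140927) (nat_lit 1928722) (nat_lit 39143313) (nat_lit 3548752) [(nat_lit 0), (nat_lit 1928722), (nat_lit 4028908), (nat_lit 8644038)]) (PF.cons (PF.leaf (nat_lit 9519121) (nat_lit 681126) (nat_lit 38549431) (nat_lit 3539939) [(nat_lit 681126), (nat_lit 1929301), (nat_lit 4016633), (nat_lit 8587842)]) PF.nil)) (PF.cons PF.nil PF.nil)))))) (PF.cons (PF.cons (PF.cons (PF.leaf (nat_lit 7218141) (nat_lit 3560625) (nat_lit 42470500) (nat_lit 3560625) [(nat_lit 0), (nat_lit 0), (nat_lit 4057855), (nat_lit 8904119)]) (PF.cons (PF.leaf (nat_lit 7582690) (nat_lit 650482) (nat_lit 41866893) (nat_lit 3561697) [(nat_lit 650482), (nat_lit 0), (nat_lit 4055983), (nat_lit 8861788)]) (PF.cons (PF.leaf (nat_lit 7954658) (nat_lit 658559) (nat_lit 41258262) (nat_lit 3560849)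 [(nat_lit 658559), (nat_lit 0), (nat_lit 4052074), (nat_lit 8816358)]) (PF.cons (PF.leaf (nat_lit 8332008) (nat_lit 665474) (nat_lit 40647654) (nat_lit 3558128) [(nat_lit 665474), (nat_lit 0), (nat_lit 4046184),
 (nat_lit 8768053)]) (PF.cons (PF.leaf (nat_lit 8713255) (nat_lit 671370) (nat_lit 40037466) (nat_lit 3553603) [(nat_lit 671370), (nat_lit 0), (nat_lit 4038388), (nat_lit 8717097)]) (PF.cons (PF.leaf (nat_lit 9097186) (nat_lit 676357) (nat_lit 39429624) (nat_lit 3547358) [(nat_lit 676357), (nat_lit 0), (nat_lit 4028778), (nat_lit 8663706)]) (PF.cons PF.nil PF.nil))))))) (PF.cons (PF.cons (PF.leaf (nat_lit 8019726) (nat_lit 1910540) (nat_lit 40752151) (nat_lit 3552140) [(nat_lit 0), (nat_lit 1910540), (nat_lit 4040920), (nat_lit 8771218)]) (PF.cons (PF.leaf (nat_lit 8389249) (nat_lit 663363) (nat_lit 40157679) (nat_lit 3548407) [(nat_lit 663363), (nat_lit 1915193), (nat_lit 4033983), (nat_lit 8722217)]) (PF.cons (PF.leaf (nat_lit 8763534) (nat_lit 669207) (nat_lit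 39562556) (nat_lit 3542972) [(nat_lit 669207), (nat_lit 1918493), (nat_lit 4025245), (nat_lit 8670638)]) (PF.cons (PF.leaf (nat_lit 9141000) (nat_lit 674123) (nat_lit 38968940) (nat_lit 3535911) [(nat_lit 674123), (nat_lit 1920512), (nat_lit 4014789), (nat_lit 8616709)]) (PF.cons PF.nil PF.nil))))) (PF.cons (PF.cons (PF.leaf (nat_lit 8814747) (nat_lit 1913935) (nat_lit 39091680) (nat_lit 3531731) [(nat_lit 0), (nat_lit
 1913935), (nat_lit 4011434), (nat_lit 8623225)]) (PF.cons (PF.leaf (nat_lit 9185233) (nat_lit 671644) (nat_lit 38512803) (nat_lit 3523926) [(nat_lit 671644), (nat_lit 1915433), (nat_lit 4000215), (nat_lit 8568924)]) (PF.cons (PF.leaf (nat_lit 9558474) (nat_lit 675690) (nat_lit 37936302) (nat_lit 3514658) [(nat_lit 675690), (nat_lit 1915777), (nat_lit 3987453), (nat_lit 8512554)]) (PF.cons PF.nil PF.nil)))) (PF.cons (PF.cons (PF.leaf (nat_lit 9597167) (nat_lit 1909934) (nat_lit 37498521) (nat_lit 3501553) [(nat_lit 0), (nat_lit 1909934), (nat_lit 3971704),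 (nat_lit 8463821)]) (PF.cons PF.nil PF.nil)) (PF.cons PF.nil PF.nil))))) (PF.cons (PF.cons (PF.cons (PF.leaf (nat_lit 8500697) (nat_lit 3513821) (nat_lit 39022118) (nat_lit 3513821) [(nat_lit 0), (nat_lit 0), (nat_lit 3993061), (nat_lit 8600628)]) (PF.cons (PF.leaf (nat_lit 8862064) (nat_lit 661099) (nat_lit 38460563) (nat_lit 3507059) [(nat_lit 661099), (nat_lit 0), (nat_lit 3982931), (nat_lit 8548364)]) (PF.cons (PF.leaf (nat_lit 9227624) (nat_lit 666052) (nat_lit 37899019) (nat_lit 3498815) [(nat_lit 666052), (nat_lit 0), (nat_lit 3971239), (nat_lit 8493912)]) (PF.cons (PF.leaf (nat_lit 9595867) (nat_lit 670136) (nat_lit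
 37339441) (nat_lit 3489168) [(nat_lit 670136), (nat_lit 0), (nat_lit 3958073), (nat_lit 8437498)]) (PF.cons PF.nil PF.nil))))) (PF.cons (PF.cons (PF.leaf (nat_lit 9271660) (nat_lit 1896269) (nat_lit 37458227) (nat_lit 3486003) [(nat_lit 0), (nat_lit 1896269), (nat_lit 3955777), (nat_lit 8445204)]) (PF.cons (PF.leaf (nat_lit 9633194) (nat_lit 667283) (nat_lit 36912667) (nat_lit 3475815) [(nat_lit 667283), (nat_lit 1896034), (nat_lit 3942068), (nat_lit 8388738)]) (PF.cons PF.nil (PF.cons PF.nil PF.nil)))) (PF.cons (PF.cons (PF.leaf (nat_lit 10029324) (nat_lit 1888160) (nat_lit 35960338) (nat_lit 3450178) [(nat_lit 0), (nat_lit 1888160), (nat_lit 3910166), (nat_lit 8281308)]) (PF.cons PF.nil PF.nil)) PF.nil))) (PF.cons (PF.cons (PF.cons (PF.leaf (nat_lit 9705353) (nat_lit 3436001) (nat_lit 35929638) (nat_lit 3436001) [(nat_lit 0), (nat_lit 0), (nat_lit 3895684), (nat_lit 8264752)]) (PF.cons (PF.leaf (nat_lit 10058092) (nat_lit 661755) (nat_lit 35415733) (nat_lit 3423965)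 [(nat_lit 661755), (nat_lit 0), (nat_lit 3880070), (nat_lit 8207007)]) PF.nil)) (PF.cons PF.nil PF.nil)) (PF.cons PF.nil (PF.cons PF.nil PF.nil)))))))) (PF.cons (PF.cons (PF.cons (PF.cons (PF.leaf (nat_lit 5316255)
 (nat_lit 3457265) (nat_lit 45646110) (nat_lit 3457265) [(nat_lit 0), (nat_lit 0), (nat_lit 0), (nat_lit 9002718)]) (PF.cons (PF.leaf (nat_lit 5642440) (nat_lit 582957) (nat_lit 45088759) (nat_lit 3473511) [(nat_lit 582957), (nat_lit 0), (nat_lit 0), (nat_lit 8981792)]) (PF.cons (PF.leaf (nat_lit 5985453) (nat_lit 598871) (nat_lit 44509295) (nat_lit 3487650) [(nat_lit 598871), (nat_lit 0), (nat_lit 0), (nat_lit 8957061)]) (PF.cons (PF.leaf (nat_lit 6341574) (nat_lit 612711) (nat_lit 43914009) (nat_lit 3499496) [(nat_lit 612711), (nat_lit 0), (nat_lit 0), (nat_lit 8928586)]) (PF.cons (PF.leaf (nat_lit 6708167) (nat_lit 624809) (nat_lit 43307672) (nat_lit 3508974) [(nat_lit 624809), (nat_lit 0), (nat_lit 0), (nat_lit 8896464)]) (PF.cons (PF.leaf (nat_lit 7083080)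 (nat_lit 635403) (nat_lit 42694049) (nat_lit 3516081) [(nat_lit 635403), (nat_lit 0), (nat_lit 0), (nat_lit 8860831)]) (PF.cons (PF.leaf (nat_lit 7464540) (nat_lit 644678) (nat_lit 42076184) (nat_lit 3520861) [(nat_lit 644678), (nat_lit 0), (nat_lit 0), (nat_lit 8821847)]) (PF.cons (PF.leaf (nat_lit 7851046) (nat_lit 652779) (nat_lit 41456581) (nat_lit 3523386) [(nat_lit 652779), (nat_lit 0), (nat_lit 0), (nat_lit 8779693)])
 (PF.cons (PF.leaf (nat_lit 8241304) (nat_lit 659826) (nat_lit 40837327) (nat_lit 3523749) [(nat_lit 659826), (nat_lit 0), (nat_lit 0), (nat_lit 8734560)]) (PF.cons PF.nil PF.nil)))))))))) (PF.cons (PF.cons (PF.leaf (nat_lit 6085934) (nat_lit 1828195) (nat_lit 43943974) (nat_lit 3489427) [(nat_lit 0), (nat_lit 1828195), (nat_lit 0), (nat_lit 8923607)]) (PF.cons (PF.leaf (nat_lit 6432102) (nat_lit 612315) (nat_lit 43366758) (nat_lit 3499245) [(nat_lit 612315), (nat_lit 1843640), (nat_lit 0), (nat_lit 8893426)]) (PF.cons (PF.leaf (nat_lit 6790134) (nat_lit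 624315) (nat_lit 42776715) (nat_lit 3506908) [(nat_lit 624315), (nat_lit 1857178), (nat_lit 0), (nat_lit 8859689)]) (PF.cons (PF.leaf (nat_lit 7157305) (nat_lit 634762) (nat_lit 42178176) (nat_lit 3512384) [(nat_lit 634762), (nat_lit 1868854), (nat_lit 0), (nat_lit 8822554)]) (PF.cons (PF.leaf (nat_lit 7531632) (nat_lit 643865) (nat_lit 41574532) (nat_lit 3515694) [(nat_lit 643865), (nat_lit 1878736), (nat_lit 0), (nat_lit 8782193)]) (PF.cons (PF.leaf (nat_lit 7911474) (nat_lit 651784) (nat_lit 40968501) (nat_lit 3516892) [(nat_lit 651784), (nat_lit 1886911), (nat_lit 0), (nat_lit 8738792)]) (PF.cons (PF.leaf (nat_lit 8295440)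
 (nat_lit 658646) (nat_lit 40362306) (nat_lit 3516058) [(nat_lit 658646), (nat_lit 1893471), (nat_lit 0), (nat_lit 8692547)]) (PF.cons (PF.leaf (nat_lit 8682339) (nat_lit 664558) (nat_lit 39757785) (nat_lit 3513285) [(nat_lit 664558), (nat_lit 1898510), (nat_lit 0), (nat_lit 8643659)]) (PF.cons PF.nil PF.nil))))))))) (PF.cons (PF.cons (PF.leaf (nat_lit 6873956) (nat_lit 1858087) (nat_lit 42246865) (nat_lit 3503740) [(nat_lit 0), (nat_lit 1858087), (nat_lit 0), (nat_lit 8821016)]) (PF.cons (PF.leaf (nat_lit 7232447) (nat_lit 633672) (nat_lit 41664772) (nat_lit 3507694) [(nat_lit 633672), (nat_lit 1868697), (nat_lit 0), (nat_lit 8782639)]) (PF.cons (PF.leaf (nat_lit 7599140) (nat_lit 642676) (nat_lit 41076307) (nat_lit 3509635) [(nat_lit 642676), (nat_lit 1877633), (nat_lit 0), (nat_lit 8741125)]) (PF.cons (PF.leaf (nat_lit 7971963) (nat_lit 650468) (nat_lit 40484533) (nat_lit 3509600) [(nat_lit 650468), (nat_lit 1884960), (nat_lit 0), (nat_lit 8696675)]) (PF.cons (PF.leaf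 (nat_lit 8349393) (nat_lit 657190) (nat_lit 39891890) (nat_lit 3507655) [(nat_lit 657190), (nat_lit 1890759), (nat_lit 0), (nat_lit 8649492)]) (PF.cons (PF.leaf (nat_lit 8730146) (nat_lit 662958) (nat_lit 39300355)
 (nat_lit 3503883) [(nat_lit 662958), (nat_lit 1895114), (nat_lit 0), (nat_lit 8599777)]) (PF.cons PF.nil PF.nil))))))) (PF.cons (PF.cons (PF.leaf (nat_lit 7667881) (nat_lit 1875992) (nat_lit 40580816) (nat_lit 3502719) [(nat_lit 0), (nat_lit 1875992), (nat_lit 0), (nat_lit 8698649)]) (PF.cons (PF.leaf (nat_lit 8033003) (nat_lit 648815) (nat_lit 40004158) (nat_lit 3501544) [(nat_lit 648815), (nat_lit 1882525), (nat_lit 0), (nat_lit 8653359)]) (PF.cons (PF.leaf (nat_lit 8403558) (nat_lit 655448) (nat_lit 39425669) (nat_lit 3498572) [(nat_lit 655448), (nat_lit 1887611), (nat_lit 0), (nat_lit 8605418)]) (PF.cons (PF.leaf (nat_lit 8777931) (nat_lit 661111) (nat_lit 38847546) (nat_lit 3493878) [(nat_lit 661111), (nat_lit 1891326), (nat_lit 0), (nat_lit 8555036)])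 (PF.cons (PF.leaf (nat_lit 9154945) (nat_lit 665909) (nat_lit 38271551) (nat_lit 3487543) [(nat_lit 665909), (nat_lit 1893747), (nat_lit 0), (nat_lit 8502419)]) PF.nil))))) (PF.cons (PF.cons (PF.leaf (nat_lit 8458590) (nat_lit 1884046) (nat_lit 38963123) (nat_lit 3488835) [(nat_lit 0), (nat_lit 1884046), (nat_lit 0), (nat_lit 8560334)]) (PF.cons (PF.leaf (nat_lit 8826061) (nat_lit 659009) (nat_lit 38398947) (nat_lit 3483293)
 [(nat_lit 659009), (nat_lit 1887165), (nat_lit 0), (nat_lit 8509450)]) (PF.cons (PF.leaf (nat_lit 9196855) (nat_lit 663733) (nat_lit 37836133) (nat_lit 3476200) [(nat_lit 663733), (nat_lit 1889051), (nat_lit 0), (nat_lit 8456403)]) (PF.cons PF.nil PF.nil)))) (PF.cons (PF.cons (PF.leaf (nat_lit 9239423) (nat_lit 1884034) (nat_lit 37404889) (nat_lit 3464365) [(nat_lit 0), (nat_lit 1884034), (nat_lit 0), (nat_lit 8409693)]) (PF.cons (PF.leaf (nat_lit 9606028) (nat_lit 665217) (nat_lit 36857896) (nat_lit 3455187) [(nat_lit 665217), (nat_lit 1884317),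 (nat_lit 0), (nat_lit 8354462)]) PF.nil)) (PF.cons PF.nil (PF.cons PF.nil PF.nil)))))))) (PF.cons (PF.cons (PF.cons (PF.leaf (nat_lit 6607883) (nat_lit 3479574) (nat_lit 42078556) (nat_lit 3479574) [(nat_lit 0), (nat_lit 0), (nat_lit 3972771), (nat_lit 8788954)]) (PF.cons (PF.leaf (nat_lit 6950167) (nat_lit 617661) (nat_lit 41526252) (nat_lit 3484538) [(nat_lit 617661), (nat_lit 0), (nat_lit 3974897), (nat_lit 8752731)]) (PF.cons (PF.leaf (nat_lit 7303213) (nat_lit 628291) (nat_lit 40963102) (nat_lit 3487558) [(nat_lit 628291), (nat_lit 0), (nat_lit 3974985), (nat_lit 8713291)]) (PF.cons (PF.leaf (nat_lit 7664399) (nat_lit 637437)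
 (nat_lit 40393128) (nat_lit 3488637) [(nat_lit 637437), (nat_lit 0), (nat_lit 3973040), (nat_lit 8670846)]) (PF.cons (PF.leaf (nat_lit 8031842) (nat_lit 645310) (nat_lit 39819437) (nat_lit 3487815) [(nat_lit 645310), (nat_lit 0), (nat_lit 3969106), (nat_lit 8625604)]) (PF.cons (PF.leaf (nat_lit 8404003) (nat_lit 652073) (nat_lit 39244492) (nat_lit 3485158) [(nat_lit 652073), (nat_lit 0), (nat_lit 3963254), (nat_lit 8577769)]) (PF.cons (PF.leaf (nat_lit 8779590) (nat_lit 657854) (nat_lit 38670286) (nat_lit 3480749) [(nat_lit 657854), (nat_lit 0), (nat_lit 3955568), (nat_lit 8527541)]) (PF.cons PF.nil (PF.cons PF.nil PF.nil))))))))) (PF.cons (PF.cons (PF.leaf (nat_lit 7378677) (nat_lit 1856427) (nat_lit 40463493) (nat_lit 3481153) [(nat_lit 0), (nat_lit 1856427), (nat_lit 3966229), (nat_lit 8670753)]) (PF.cons (PF.leaf (nat_lit 7731311) (nat_lit 635611) (nat_lit 39909699) (nat_lit 3481058) [(nat_lit 635611), (nat_lit 1864186), (nat_lit 3963084), (nat_lit 8627585)]) (PF.cons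 (PF.leaf (nat_lit 8091278) (nat_lit 643458) (nat_lit 39350874) (nat_lit 3479183) [(nat_lit 643458), (nat_lit 1870434), (nat_lit 3958068), (nat_lit 8581667)]) (PF.cons (PF.leaf (nat_lit 8456608) (nat_lit 650161)
 (nat_lit 38789821) (nat_lit 3475579) [(nat_lit 650161), (nat_lit 1875244), (nat_lit 3951241), (nat_lit 8533221)]) (PF.cons (PF.leaf (nat_lit 8825866) (nat_lit 655861) (nat_lit 38228753) (nat_lit 3470320) [(nat_lit 655861), (nat_lit 1878696), (nat_lit 3942680), (nat_lit 8482457)]) (PF.cons (PF.leaf (nat_lit 9197872) (nat_lit 660675) (nat_lit 37669441) (nat_lit 3463487) [(nat_lit 660675), (nat_lit 1880873), (nat_lit 3932473), (nat_lit 8429580)]) (PF.cons PF.nil PF.nil))))))) (PF.cons (PF.cons (PF.leaf (nat_lit 8152183) (nat_lit 1867187) (nat_lit 38885086) (nat_lit 3469859) [(nat_lit 0), (nat_lit 1867187), (nat_lit 3946273), (nat_lit 8536609)]) (PF.cons (PF.leaf (nat_lit 8510005) (nat_lit 647948) (nat_lit 38338684) (nat_lit 3465388) [(nat_lit 647948), (nat_lit 1871375),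 (nat_lit 3938562), (nat_lit 8487739)]) (PF.cons (PF.leaf (nat_lit 8872603) (nat_lit 653617) (nat_lit 37791278) (nat_lit 3459350) [(nat_lit 653617), (nat_lit 1874271), (nat_lit 3929206), (nat_lit 8436599)]) (PF.cons (PF.leaf (nat_lit 9238459) (nat_lit 658378) (nat_lit 37244855) (nat_lit 3451822) [(nat_lit 658378), (nat_lit 1875951), (nat_lit 3918289), (nat_lit 8383403)]) (PF.cons PF.nil PF.nil))))) (PF.cons (PF.cons
 (PF.leaf (nat_lit 8920439) (nat_lit 1869508) (nat_lit 37357348) (nat_lit 3447857) [(nat_lit 0), (nat_lit 1869508), (nat_lit 3915163), (nat_lit 8389958)]) (PF.cons (PF.leaf (nat_lit 9279621) (nat_lit 655855) (nat_lit 36824286) (nat_lit 3439698) [(nat_lit 655855), (nat_lit 1870727), (nat_lit 3903609), (nat_lit 8336590)]) (PF.cons (PF.leaf (nat_lit 9641652) (nat_lit 659784) (nat_lit 36293012) (nat_lit 3430198) [(nat_lit 659784), (nat_lit 1870855), (nat_lit 3890650), (nat_lit 8281408)]) (PF.cons PF.nil PF.nil)))) (PF.cons (PF.cons (PF.leaf (nat_lit 9677713) (nat_lit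 1864961) (nat_lit 35888959) (nat_lit 3417123) [(nat_lit 0), (nat_lit 1864961), (nat_lit 3874983), (nat_lit 8233949)]) (PF.cons PF.nil PF.nil)) (PF.cons PF.nil PF.nil)))))) (PF.cons (PF.cons (PF.cons (PF.leaf (nat_lit 7860204) (nat_lit 3449865) (nat_lit 38785563) (nat_lit 3449865) [(nat_lit 0), (nat_lit 0), (nat_lit 3925838), (nat_lit 8510853)]) (PF.cons (PF.leaf (nat_lit 8206532) (nat_lit 635444) (nat_lit 38259954) (nat_lit 3446506) [(nat_lit 635444), (nat_lit 0), (nat_lit 3919270), (nat_lit 8464182)]) (PF.cons (PF.leaf (nat_lit 8559479) (nat_lit 642296) (nat_lit 37730352) (nat_lit 3441569) [(nat_lit 642296), (nat_lit 0),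
 (nat_lit 3911048), (nat_lit 8415100)]) (PF.cons (PF.leaf (nat_lit 8917143) (nat_lit 648065) (nat_lit 37199331) (nat_lit 3435117) [(nat_lit 648065), (nat_lit 0), (nat_lit 3901243), (nat_lit 8363840)]) (PF.cons (PF.leaf (nat_lit 9278184) (nat_lit 652895) (nat_lit 36668895) (nat_lit 3427226) [(nat_lit 652895), (nat_lit 0), (nat_lit 3889937), (nat_lit 8310617)]) (PF.cons PF.nil (PF.cons PF.nil PF.nil))))))) (PF.cons (PF.cons (PF.leaf (nat_lit 8613263) (nat_lit 1853887) (nat_lit 37292995) (nat_lit 3430418) [(nat_lit 0), (nat_lit 1853887), (nat_lit 3897331), (nat_lit 8368424)]) (PF.cons (PF.leaf (nat_lit 8963636) (nat_lit 645414) (nat_lit 36776032) (nat_lit 3423321) [(nat_lit 645414), (nat_lit 1856142), (nat_lit 3886882), (nat_lit 8317068)]) (PF.cons (PF.leaf (nat_lit 9318252) (nat_lit 650259) (nat_lit 36258663) (nat_lit 3414853) [(nat_lit 650259), (nat_lit 1857240), (nat_lit 3874999), (nat_lit 8263769)]) (PF.cons (PF.leaf (nat_lit 9675644) (nat_lit 654253) (nat_lit 35742696)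 (nat_lit 3405092) [(nat_lit 654253), (nat_lit 1857255), (nat_lit 3861766), (nat_lit 8208737)]) (PF.cons PF.nil PF.nil))))) (PF.cons (PF.cons (PF.leaf (nat_lit 9359605) (nat_lit 1851555) (nat_lit 35851789) (nat_lit
 3402061) [(nat_lit 0), (nat_lit 1851555), (nat_lit 3859606), (nat_lit 8216318)]) (PF.cons (PF.leaf (nat_lit 9710570) (nat_lit 651405) (nat_lit 35348527) (nat_lit 3391843) [(nat_lit 651405), (nat_lit 1851222), (nat_lit 3845925), (nat_lit 8161370)]) (PF.cons PF.nil (PF.cons PF.nil PF.nil)))) (PF.cons (PF.cons (PF.leaf (nat_lit 10094247) (nat_lit 1843364) (nat_lit 34468752) (nat_lit 3366505) [(nat_lit 0), (nat_lit 1843364), (nat_lit 3814467), (nat_lit 8057262)]) (PF.cons PF.nil PF.nil)) (PF.cons PF.nil PF.nil))))) (PF.cons (PF.cons (PF.cons (PF.leaf (nat_lit 9052644) (nat_lit 3386067) (nat_lit 35799148) (nat_lit 3386067) [(nat_lit 0), (nat_lit 0), (nat_lit 3843279), (nat_lit 8196879)]) (PF.cons (PF.leaf (nat_lit 9395530) (nat_lit 641551) (nat_lit 35310484) (nat_lit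 3376890) [(nat_lit 641551), (nat_lit 0), (nat_lit 3830686), (nat_lit 8143912)]) (PF.cons (PF.leaf (nat_lit 9742212) (nat_lit 645690) (nat_lit 34821842) (nat_lit 3366511) [(nat_lit 645690), (nat_lit 0), (nat_lit 3816840), (nat_lit 8089277)]) (PF.cons PF.nil PF.nil)))) (PF.cons (PF.cons (PF.leaf (nat_lit 9777751) (nat_lit 1830996) (nat_lit 34440373) (nat_lit 3352781) [(nat_lit 0), (nat_lit 1830996), (nat_lit 3800493),
 (nat_lit 8041590)]) (PF.cons (PF.leaf (nat_lit 10120640) (nat_lit 645936) (nat_lit 33965421) (nat_lit 3340961) [(nat_lit 645936), (nat_lit 1829395), (nat_lit 3785181), (nat_lit 7985777)]) PF.nil)) (PF.cons PF.nil PF.nil))) (PF.cons (PF.cons (PF.cons (PF.leaf (nat_lit 10176456) (nat_lit 3301079) (nat_lit 33116948) (nat_lit 3301079) [(nat_lit 0), (nat_lit 0), (nat_lit 3738981), (nat_lit 7867430)]) (PF.cons PF.nil PF.nil)) (PF.cons PF.nil PF.nil)) (PF.cons PF.nil PF.nil)))))) (PF.cons (PF.cons (PF.cons (PF.cons (PF.leaf (nat_lit 7259665) (nat_lit 3379339) (nat_lit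 38489474) (nat_lit 3379339) [(nat_lit 0), (nat_lit 0), (nat_lit 0), (nat_lit 8413333)]) (PF.cons (PF.leaf (nat_lit 7586710) (nat_lit 605447) (nat_lit 38005927) (nat_lit 3379720) [(nat_lit 605447), (nat_lit 0), (nat_lit 0), (nat_lit 8372572)]) (PF.cons (PF.leaf (nat_lit 7923491) (nat_lit 614779) (nat_lit 37513378) (nat_lit 3378427) [(nat_lit 614779), (nat_lit 0), (nat_lit 0), (nat_lit 8329149)]) (PF.cons (PF.leaf (nat_lit 8267512) (nat_lit 622695) (nat_lit 37015279) (nat_lit 3375498) [(nat_lit 622695), (nat_lit 0), (nat_lit 0), (nat_lit 8283316)]) (PF.cons (PF.leaf (nat_lit 8617036) (nat_lit 629413) (nat_lit 36514271)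
 (nat_lit 3370996) [(nat_lit 629413), (nat_lit 0), (nat_lit 0), (nat_lit 8235297)]) (PF.cons (PF.leaf (nat_lit 8970664) (nat_lit 635098) (nat_lit 36012434) (nat_lit 3364995) [(nat_lit 635098), (nat_lit 0), (nat_lit 0), (nat_lit 8185297)]) (PF.cons (PF.leaf (nat_lit 9327211) (nat_lit 639879) (nat_lit 35511432) (nat_lit 3357578) [(nat_lit 639879), (nat_lit 0), (nat_lit 0), (nat_lit 8133508)]) (PF.cons PF.nil (PF.cons PF.nil PF.nil))))))))) (PF.cons (PF.cons (PF.leaf (nat_lit 7987865) (nat_lit 1806152) (nat_lit 37079742) (nat_lit 3369206) [(nat_lit 0), (nat_lit 1806152), (nat_lit 0), (nat_lit 8284570)]) (PF.cons (PF.leaf (nat_lit 8323777) (nat_lit 620250) (nat_lit 36595901) (nat_lit 3365489) [(nat_lit 620250), (nat_lit 1811325), (nat_lit 0), (nat_lit 8238615)]) (PF.cons (PF.leaf (nat_lit 8666289) (nat_lit 627011) (nat_lit 36107935) (nat_lit 3360283) [(nat_lit 627011), (nat_lit 1815163), (nat_lit 0), (nat_lit 8190469)]) (PF.cons (PF.leaf (nat_lit 9013551) (nat_lit 632701)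 (nat_lit 35618229) (nat_lit 3353655) [(nat_lit 632701), (nat_lit 1817748), (nat_lit 0), (nat_lit 8140358)]) (PF.cons (PF.leaf (nat_lit 9364251) (nat_lit 637463) (nat_lit 35128646) (nat_lit 3345681) [(nat_lit 637463),
 (nat_lit 1819163), (nat_lit 0), (nat_lit 8088488)]) (PF.cons PF.nil (PF.cons PF.nil PF.nil))))))) (PF.cons (PF.cons (PF.leaf (nat_lit 8717309) (nat_lit 1810577) (nat_lit 35703928) (nat_lit 3349077) [(nat_lit 0), (nat_lit 1810577), (nat_lit 0), (nat_lit 8144883)]) (PF.cons (PF.leaf (nat_lit 9057533) (nat_lit 630049) (nat_lit 35226983) (nat_lit 3341886) [(nat_lit 630049), (nat_lit 1812726), (nat_lit 0), (nat_lit 8094813)]) (PF.cons (PF.leaf (nat_lit 9402068) (nat_lit 634836) (nat_lit 34749253) (nat_lit 3333410) [(nat_lit 634836), (nat_lit 1813755), (nat_lit 0), (nat_lit 8042988)]) (PF.cons (PF.leaf (nat_lit 9749465) (nat_lit 638786) (nat_lit 34272417) (nat_lit 3323726) [(nat_lit 638786), (nat_lit 1813741), (nat_lit 0), (nat_lit 7989608)]) (PF.cons PF.nil PF.nil)))))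 (PF.cons (PF.cons (PF.leaf (nat_lit 9441264) (nat_lit 1808100) (nat_lit 34372787) (nat_lit 3320773) [(nat_lit 0), (nat_lit 1808100), (nat_lit 0), (nat_lit 7996983)]) (PF.cons (PF.leaf (nat_lit 9782475) (nat_lit 635969) (nat_lit 33907483) (nat_lit 3310696) [(nat_lit 635969), (nat_lit 1807772), (nat_lit 0), (nat_lit 7943782)]) (PF.cons PF.nil (PF.cons PF.nil PF.nil)))) (PF.cons (PF.cons (PF.leaf (nat_lit 10154929) (nat_lit
 1800079) (nat_lit 33092810) (nat_lit 3285891) [(nat_lit 0), (nat_lit 1800079), (nat_lit 0), (nat_lit 7843264)]) (PF.cons PF.nil PF.nil)) (PF.cons PF.nil PF.nil)))))) (PF.cons (PF.cons (PF.cons (PF.leaf (nat_lit 8430280) (nat_lit 3330981) (nat_lit 35625454) (nat_lit 3330981) [(nat_lit 0), (nat_lit 0), (nat_lit 3785666), (nat_lit 8122237)]) (PF.cons (PF.leaf (nat_lit 8760185) (nat_lit 618287) (nat_lit 35166165) (nat_lit 3324932) [(nat_lit 618287), (nat_lit 0), (nat_lit 3776341), (nat_lit 8074362)]) (PF.cons (PF.leaf (nat_lit 9096117) (nat_lit 624232) (nat_lit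 34703502) (nat_lit 3317556) [(nat_lit 624232), (nat_lit 0), (nat_lit 3765639), (nat_lit 8024549)]) (PF.cons (PF.leaf (nat_lit 9436282) (nat_lit 629165) (nat_lit 34239660) (nat_lit 3308927) [(nat_lit 629165), (nat_lit 0), (nat_lit 3753640), (nat_lit 7973029)]) (PF.cons (PF.leaf (nat_lit 9779461) (nat_lit 633227) (nat_lit 33776339) (nat_lit 3299119) [(nat_lit 633227), (nat_lit 0), (nat_lit 3740426), (nat_lit 7920005)]) PF.nil))))) (PF.cons (PF.cons (PF.leaf (nat_lit 9141229) (nat_lit 1793834) (nat_lit 34323727) (nat_lit 3305193) [(nat_lit 0), (nat_lit 1793834), (nat_lit 3750721), (nat_lit 7978445)]) (PF.cons (PF.leaf (nat_lit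
 9474581) (nat_lit 626210) (nat_lit 33872054) (nat_lit 3296159) [(nat_lit 626210), (nat_lit 1794517), (nat_lit 3738339), (nat_lit 7927177)]) (PF.cons (PF.leaf (nat_lit 9811795) (nat_lit 630332) (nat_lit 33420005) (nat_lit 3285994) [(nat_lit 630332), (nat_lit 1794192), (nat_lit 3724785), (nat_lit 7874389)]) (PF.cons PF.nil PF.nil)))) (PF.cons (PF.cons (PF.leaf (nat_lit 9845670) (nat_lit 1787928) (nat_lit 33066403) (nat_lit 3272573) [(nat_lit 0), (nat_lit 1787928), (nat_lit 3708826), (nat_lit 7828384)]) (PF.cons (PF.leaf (nat_lit 10179418) (nat_lit 630632) (nat_lit 32626436) (nat_lit 3261082) [(nat_lit 630632), (nat_lit 1786439), (nat_lit 3693937), (nat_lit 7774615)]) PF.nil)) (PF.cons PF.nil (PF.cons PF.nil PF.nil))))) (PF.cons (PF.cons (PF.cons (PF.leaf (nat_lit 9546690) (nat_lit 3258318) (nat_lit 33026583) (nat_lit 3258318) [(nat_lit 0), (nat_lit 0), (nat_lit 3694350), (nat_lit 7811736)]) (PF.cons (PF.leaf (nat_lit 9873177) (nat_lit 621428) (nat_lit 32599013) (nat_lit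 3247832) [(nat_lit 621428), (nat_lit 0), (nat_lit 3680511), (nat_lit 7759838)]) (PF.cons (PF.leaf (nat_lit 10203195) (nat_lit 624978) (nat_lit 32171364) (nat_lit 3236346) [(nat_lit 624978), (nat_lit 0), (nat_lit
 3665639), (nat_lit 7706622)]) (PF.cons PF.nil PF.nil)))) (PF.cons (PF.cons (PF.leaf (nat_lit 10232261) (nat_lit 1766056) (nat_lit 31839146) (nat_lit 3222386) [(nat_lit 0), (nat_lit 1766056), (nat_lit 3649160), (nat_lit 7660967)]) (PF.cons PF.nil PF.nil)) (PF.cons PF.nil PF.nil))) (PF.cons (PF.cons (PF.cons (PF.leaf (nat_lit 10602319) (nat_lit 3170927) (nat_lit 30685665) (nat_lit 3170927) [(nat_lit 0), (nat_lit 0), (nat_lit 3588345), (nat_lit 7495727)]) (PF.cons PF.nil PF.nil)) (PF.cons PF.nil PF.nil)) (PF.cons PF.nil PF.nil))))) (PF.cons (PF.cons (PF.cons (PF.cons (PF.leaf (nat_lit 8943754) (nat_lit 3210764) (nat_lit 32899355) (nat_lit 3210764) [(nat_lit 0), (nat_lit 0), (nat_lit 0), (nat_lit 7749673)]) (PF.cons (PF.leaf (nat_lit 9258849) (nat_lit 600277) (nat_lit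 32496045) (nat_lit 3203119) [(nat_lit 600277), (nat_lit 0), (nat_lit 0), (nat_lit 7702342)]) (PF.cons (PF.leaf (nat_lit 9579509) (nat_lit 605534) (nat_lit 32089765) (nat_lit 3194337) [(nat_lit 605534), (nat_lit 0), (nat_lit 0), (nat_lit 7653410)]) (PF.cons (PF.leaf (nat_lit 9904056) (nat_lit 609839) (nat_lit 31682402) (nat_lit 3184495) [(nat_lit 609839), (nat_lit 0), (nat_lit 0), (nat_lit 7603099)]) (PF.cons PF.nil
 PF.nil))))) (PF.cons (PF.cons (PF.leaf (nat_lit 9617851) (nat_lit 1733349) (nat_lit 31758075) (nat_lit 3181498) [(nat_lit 0), (nat_lit 1733349), (nat_lit 0), (nat_lit 7608972)]) (PF.cons (PF.leaf (nat_lit 9935991) (nat_lit 606730) (nat_lit 31361239) (nat_lit 3171413) [(nat_lit 606730), (nat_lit 1732995), (nat_lit 0), (nat_lit 7559108)]) (PF.cons (PF.leaf (nat_lit 10257722) (nat_lit 610314) (nat_lit 30963976) (nat_lit 3160374) [(nat_lit 610314), (nat_lit 1731750), (nat_lit 0), (nat_lit 7508020)]) (PF.cons PF.nil PF.nil)))) (PF.cons (PF.cons (PF.leaf (nat_lit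 10285807) (nat_lit 1725240) (nat_lit 30654734) (nat_lit 3146866) [(nat_lit 0), (nat_lit 1725240), (nat_lit 0), (nat_lit 7464182)]) (PF.cons PF.nil PF.nil)) (PF.cons PF.nil (PF.cons PF.nil PF.nil))))) (PF.cons (PF.cons (PF.cons (PF.leaf (nat_lit 9995155) (nat_lit 3134155) (nat_lit 30624691) (nat_lit 3134155) [(nat_lit 0), (nat_lit 0), (nat_lit 3550182), (nat_lit 7449945)]) (PF.cons (PF.leaf (nat_lit 10307003) (nat_lit 601453) (nat_lit 30248340) (nat_lit 3123042) [(nat_lit 601453), (nat_lit 0), (nat_lit 3535836), (nat_lit 7400034)]) (PF.cons PF.nil (PF.cons PF.nil PF.nil)))) (PF.cons (PF.cons (PF.leaf (nat_lit 10646224) (nat_lit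
 1703004) (nat_lit 29580565) (nat_lit 3097287) [(nat_lit 0), (nat_lit 1703004), (nat_lit 3504439), (nat_lit 7305879)]) (PF.cons PF.nil PF.nil)) (PF.cons PF.nil PF.nil))) (PF.cons (PF.cons (PF.cons (PF.leaf (nat_lit 10992385) (nat_lit 3047155) (nat_lit 28568435) (nat_lit 3047155) [(nat_lit 0), (nat_lit 0), (nat_lit 3445480), (nat_lit 7150565)]) (PF.cons PF.nil PF.nil)) (PF.cons PF.nil PF.nil)) PF.nil))) (PF.cons (PF.cons (PF.cons (PF.cons (PF.leaf (nat_lit 10406988) (nat_lit 3015390) (nat_lit 28529160) (nat_lit 3015390) [(nat_lit 0), (nat_lit 0), (nat_lit 0), (nat_lit 7112852)]) (PF.cons (PF.leaf (nat_lit 10705670) (nat_lit 582025) (nat_lit 28195899) (nat_lit 3004072) [(nat_lit 582025), (nat_lit 0), (nat_lit 0), (nat_lit 7065363)]) (PF.cons PF.nil PF.nil))) (PF.cons (PF.cons (PF.leaf (nat_lit 11027622) (nat_lit 1642631) (nat_lit 27605396) (nat_lit 2978619) [(nat_lit 0), (nat_lit 1642631), (nat_lit 0), (nat_lit 6976433)]) PF.nil) PF.nil)) (PF.cons PF.nil PF.nil)) (PF.cons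 PF.nil (PF.cons PF.nil (PF.cons PF.nil PF.nil)))))))))

def p14_16_0_0 : pfC (piC [(nat_lit 35755509), (nat_lit 23968959), (nat_lit 17897616), (nat_lit 12073119)] (nat_lit 21119649)) p14_16_0 (nat_lit 4) (nat_lit 0) (nat_lit 1) = true := by decide +kernel
def p14_16_0_1 : pfC (piC [(nat_lit 35755509), (nat_lit 23968959), (nat_lit 17897616), (nat_lit 12073119)] (nat_lit 21119649)) p14_16_0 (nat_lit 4) (nat_lit 1) (nat_lit 2) = true := by decide +kernel
def p14_16_0_2 : pfC (piC [(nat_lit 35755509), (nat_lit 23968959), (nat_lit 17897616), (nat_lit 12073119)] (nat_lit 21119649)) p14_16_0 (nat_lit 4) (nat_lit 2) (nat_lit 3) = true := by decide +kernel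
def p14_16_0_3 : pfC (piC [(nat_lit 35755509), (nat_lit 23968959), (nat_lit 17897616), (nat_lit 12073119)] (nat_lit 21119649)) p14_16_0 (nat_lit 4) (nat_lit 3) (nat_lit 4) = true := by decide +kernel
def p14_16_0_4 : pfC (piC [(nat_lit 35755509), (nat_lit 23968959), (nat_lit 17897616), (nat_lit 12073119)] (nat_lit 21119649)) p14_16_0 (nat_lit 4) (nat_lit 4) (nat_lit 5) = true := by decide +kernel
def p14_16_0_5 : pfC (piC [(nat_lit 35755509), (nat_lit 23968959), (nat_lit 17897616), (nat_lit 12073119)] (nat_lit 21119649)) p14_16_0 (nat_lit 4) (nat_lit 5) (nat_lit 6) = true := by decide +kernel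
def p14_16_0_6 : pfC (piC [(nat_lit 35755509), (nat_lit 23968959), (nat_lit 17897616), (nat_lit 12073119)] (nat_lit 21119649)) p14_16_0 (nat_lit 4) (nat_lit 6) (nat_lit 7) = true := by decide +kernel
def p14_16_0_7 : pfC (piC [(nat_lit 35755509), (nat_lit 23968959), (nat_lit 17897616), (nat_lit 12073119)] (nat_lit 21119649)) p14_16_0 (nat_lit 4) (nat_lit 7) (nat_lit 8) = true := by decide +kernel
def p14_16_0_8 : pfC (piC [(nat_lit 35755509), (nat_lit 23968959), (nat_lit 17897616), (nat_lit 12073119)] (nat_lit 21119649)) p14_16_0 (nat_lit 4) (nat_lit 8) (nat_lit 9) = true := by decide +kernel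
def p14_16_0_9 : pfC (piC [(nat_lit 35755509), (nat_lit 23968959), (nat_lit 17897616), (nat_lit 12073119)] (nat_lit 21119649)) p14_16_0 (nat_lit 4) (nat_lit 9) (nat_lit 10) = true := by decide +kernel
def p14_16_0_10 : pfC (piC [(nat_lit 35755509), (nat_lit 23968959), (nat_lit 17897616), (nat_lit 12073119)] (nat_lit 21119649)) p14_16_0 (nat_lit 4) (nat_lit 10) (nat_lit 11) = true := by decide +kernel
def p14_16_0_11 : pfC (piC [(nat_lit 35755509), (nat_lit 23968959), (nat_lit 17897616), (nat_lit 12073119)] (nat_lit 21119649)) p14_16_0 (nat_lit 4) (nat_lit 11) (nat_lit 12) = true := by decide +kernel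
def p14_16_0_12 : pfC (piC [(nat_lit 35755509), (nat_lit 23968959), (nat_lit 17897616), (nat_lit 12073119)] (nat_lit 21119649)) p14_16_0 (nat_lit 4) (nat_lit 12) (nat_lit 13) = true := by decide +kernel
def p14_16_0_13 : pfC (piC [(nat_lit 35755509), (nat_lit 23968959), (nat_lit 17897616), (nat_lit 12073119)] (nat_lit 21119649)) p14_16_0 (nat_lit 4) (nat_lit 13) (nat_lit 14) = true := by decide +kernel
def p14_16_0_14 : pfC (piC [(nat_lit 35755509), (nat_lit 23968959), (nat_lit 17897616), (nat_lit 12073119)] (nat_lit 21119649)) p14_16_0 (nat_lit 4) (nat_lit 14) (nat_lit 15) = true := by decide +kernel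
def p14_16_0_15 : pfC (piC [(nat_lit 35755509), (nat_lit 23968959), (nat_lit 17897616), (nat_lit 12073119)] (nat_lit 21119649)) p14_16_0 (nat_lit 4) (nat_lit 15) (nat_lit 16) = true := by decide +kernel
def p14_16_0_16 : pfC (piC [(nat_lit 35755509), (nat_lit 23968959), (nat_lit 17897616), (nat_lit 12073119)] (nat_lit 21119649)) p14_16_0 (nat_lit 4) (nat_lit 16) (nat_lit 17) = true := by decide +kernel
def p14_16_0_17 : pfC (piC [(nat_lit 35755509), (nat_lit 23968959), (nat_lit 17897616), (nat_lit 12073119)] (nat_lit 21119649)) p14_16_0 (nat_lit 4) (nat_lit 17) (nat_lit 18) = true := by decide +kernel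
def p14_16_0_18 : pfC (piC [(nat_lit 35755509), (nat_lit 23968959), (nat_lit 17897616), (nat_lit 12073119)] (nat_lit 21119649)) p14_16_0 (nat_lit 4) (nat_lit 18) (nat_lit 19) = true := by decide +kernel
def p14_16_0_19 : pfC (piC [(nat_lit 35755509), (nat_lit 23968959), (nat_lit 17897616), (nat_lit 12073119)] (nat_lit 21119649)) p14_16_0 (nat_lit 4) (nat_lit 19) (nat_lit 20) = true := by decide +kernel
def p14_16_0_20 : pfC (piC [(nat_lit 35755509), (nat_lit 23968959), (nat_lit 17897616), (nat_lit 12073119)] (nat_lit 21119649)) p14_16_0 (nat_lit 4) (nat_lit 20) (nat_lit 21) = true := by decide +kernel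
def p14_16_0_21 : pfC (piC [(nat_lit 35755509), (nat_lit 23968959), (nat_lit 17897616), (nat_lit 12073119)] (nat_lit 21119649)) p14_16_0 (nat_lit 4) (nat_lit 21) (nat_lit 22) = true := by decide +kernel
def p14_16_0_22 : pfC (piC [(nat_lit 35755509), (nat_lit 23968959), (nat_lit 17897616), (nat_lit 12073119)] (nat_lit 21119649)) p14_16_0 (nat_lit 4) (nat_lit 22) (nat_lit 23) = true := by decide +kernel
def p14_16_0_23 : pfC (piC [(nat_lit 35755509), (nat_lit 23968959), (nat_lit 17897616), (nat_lit 12073119)] (nat_lit 21119649)) p14_16_0 (nat_lit 4) (nat_lit 23) (nat_lit 24) = true := by decide +kernel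
def p14_16_0_24 : pfC (piC [(nat_lit 35755509), (nat_lit 23968959), (nat_lit 17897616), (nat_lit 12073119)] (nat_lit 21119649)) p14_16_0 (nat_lit 4) (nat_lit 24) (nat_lit 25) = true := by decide +kernel
def p14_16_0_25 : pfC (piC [(nat_lit 35755509), (nat_lit 23968959), (nat_lit 17897616), (nat_lit 12073119)] (nat_lit 21119649)) p14_16_0 (nat_lit 4) (nat_lit 25) (nat_lit 26) = true := by decide +kernel
def p14_16_0_26 : pfC (piC [(nat_lit 35755509), (nat_lit 23968959), (nat_lit 17897616), (nat_lit 12073119)] (nat_lit 21119649)) p14_16_0 (nat_lit 4) (nat_lit 26) (nat_lit 27) = true := by decide +kernel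
def p14_16_0_27 : pfC (piC [(nat_lit 35755509), (nat_lit 23968959), (nat_lit 17897616), (nat_lit 12073119)] (nat_lit 21119649)) p14_16_0 (nat_lit 4) (nat_lit 27) (nat_lit 28) = true := by decide +kernel
def p14_16_0_28 : pfC (piC [(nat_lit 35755509), (nat_lit 23968959), (nat_lit 17897616), (nat_lit 12073119)] (nat_lit 21119649)) p14_16_0 (nat_lit 4) (nat_lit 28) (nat_lit 29) = true := by decide +kernel
def p14_16_0_29 : pfC (piC [(nat_lit 35755509), (nat_lit 23968959), (nat_lit 17897616), (nat_lit 12073119)] (nat_lit 21119649)) p14_16_0 (nat_lit 4) (nat_lit 29) (nat_lit 30) = true := by decide +kernel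
def p14_16_0_30 : pfC (piC [(nat_lit 35755509), (nat_lit 23968959), (nat_lit 17897616), (nat_lit 12073119)] (nat_lit 21119649)) p14_16_0 (nat_lit 4) (nat_lit 30) (nat_lit 31) = true := by decide +kernel
def p14_16_0_31 : pfC (piC [(nat_lit 35755509), (nat_lit 23968959), (nat_lit 17897616), (nat_lit 12073119)] (nat_lit 21119649)) p14_16_0 (nat_lit 4) (nat_lit 31) (nat_lit 32) = true := by decide +kernel
def p14_16_0_32 : pfC (piC [(nat_lit 35755509), (nat_lit 23968959), (nat_lit 17897616), (nat_lit 12073119)] (nat_lit 21119649)) p14_16_0 (nat_lit 4) (nat_lit 32) (nat_lit 33) = true := by decide +kernel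
def p14_16_0_33 : pfC (piC [(nat_lit 35755509), (nat_lit 23968959), (nat_lit 17897616), (nat_lit 12073119)] (nat_lit 21119649)) p14_16_0 (nat_lit 4) (nat_lit 33) (nat_lit 34) = true := by decide +kernel
def p14_16_0_34 : pfC (piC [(nat_lit 35755509), (nat_lit 23968959), (nat_lit 17897616), (nat_lit 12073119)] (nat_lit 21119649)) p14_16_0 (nat_lit 4) (nat_lit 34) (nat_lit 35) = true := by decide +kernel
def p14_16_0_35 : pfC (piC [(nat_lit 35755509), (nat_lit 23968959), (nat_lit 17897616), (nat_lit 12073119)] (nat_lit 21119649)) p14_16_0 (nat_lit 4) (nat_lit 35) (nat_lit 36) = true := by decide +kernel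
def p14_16_0_36 : pfC (piC [(nat_lit 35755509), (nat_lit 23968959), (nat_lit 17897616), (nat_lit 12073119)] (nat_lit 21119649)) p14_16_0 (nat_lit 4) (nat_lit 36) (nat_lit 37) = true := by decide +kernel
def p14_16_0_37 : pfC (piC [(nat_lit 35755509), (nat_lit 23968959), (nat_lit 17897616), (nat_lit 12073119)] (nat_lit 21119649)) p14_16_0 (nat_lit 4) (nat_lit 37) (nat_lit 38) = true := by decide +kernel
def p14_16_0_38 : pfC (piC [(nat_lit 35755509), (nat_lit 23968959), (nat_lit 17897616), (nat_lit 12073119)] (nat_lit 21119649)) p14_16_0 (nat_lit 4) (nat_lit 38) (nat_lit 39) = true := by decide +kernel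
def p14_16_0_39 : pfC (piC [(nat_lit 35755509), (nat_lit 23968959), (nat_lit 17897616), (nat_lit 12073119)] (nat_lit 21119649)) p14_16_0 (nat_lit 4) (nat_lit 39) (nat_lit 40) = true := by decide +kernel
def p14_16_0_40 : pfC (piC [(nat_lit 35755509), (nat_lit 23968959), (nat_lit 17897616), (nat_lit 12073119)] (nat_lit 21119649)) p14_16_0 (nat_lit 4) (nat_lit 40) (nat_lit 41) = true := by decide +kernel
def p14_16_0_41 : pfC (piC [(nat_lit 35755509), (nat_lit 23968959), (nat_lit 17897616), (nat_lit 12073119)] (nat_lit 21119649)) p14_16_0 (nat_lit 4) (nat_lit 41) (nat_lit 42) = true := by decide +kernel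
def p14_16_0_42 : pfC (piC [(nat_lit 35755509), (nat_lit 23968959), (nat_lit 17897616), (nat_lit 12073119)] (nat_lit 21119649)) p14_16_0 (nat_lit 4) (nat_lit 42) (nat_lit 43) = true := by decide +kernel
def p14_16_0_43 : pfC (piC [(nat_lit 35755509), (nat_lit 23968959), (nat_lit 17897616), (nat_lit 12073119)] (nat_lit 21119649)) p14_16_0 (nat_lit 4) (nat_lit 43) (nat_lit 44) = true := by decide +kernel
def p14_16_0_44 : pfC (piC [(nat_lit 35755509), (nat_lit 23968959), (nat_lit 17897616), (nat_lit 12073119)] (nat_lit 21119649)) p14_16_0 (nat_lit 4) (nat_lit 44) (nat_lit 45) = true := by decide +kernel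
def p14_16_0_45 : pfC (piC [(nat_lit 35755509), (nat_lit 23968959), (nat_lit 17897616), (nat_lit 12073119)] (nat_lit 21119649)) p14_16_0 (nat_lit 4) (nat_lit 45) (nat_lit 46) = true := by decide +kernel
def p14_16_0_46 : pfC (piC [(nat_lit 35755509), (nat_lit 23968959), (nat_lit 17897616), (nat_lit 12073119)] (nat_lit 21119649)) p14_16_0 (nat_lit 4) (nat_lit 46) (nat_lit 47) = true := by decide +kernel
def p14_16_0_47 : pfC (piC [(nat_lit 35755509), (nat_lit 23968959), (nat_lit 17897616), (nat_lit 12073119)] (nat_lit 21119649)) p14_16_0 (nat_lit 4) (nat_lit 47) (nat_lit 48) = true := by decide +kernel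
def p14_16_0_48 : pfC (piC [(nat_lit 35755509), (nat_lit 23968959), (nat_lit 17897616), (nat_lit 12073119)] (nat_lit 21119649)) p14_16_0 (nat_lit 4) (nat_lit 48) (nat_lit 49) = true := by decide +kernel
def p14_16_0_49 : pfC (piC [(nat_lit 35755509), (nat_lit 23968959), (nat_lit 17897616), (nat_lit 12073119)] (nat_lit 21119649)) p14_16_0 (nat_lit 4) (nat_lit 49) (nat_lit 50) = true := by decide +kernel
def p14_16_0_50 : pfC (piC [(nat_lit 35755509), (nat_lit 23968959), (nat_lit 17897616), (nat_lit 12073119)] (nat_lit 21119649)) p14_16_0 (nat_lit 4) (nat_lit 50) (nat_lit 51) = true := by decide +kernel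
def p14_16_0_51 : pfC (piC [(nat_lit 35755509), (nat_lit 23968959), (nat_lit 17897616), (nat_lit 12073119)] (nat_lit 21119649)) p14_16_0 (nat_lit 4) (nat_lit 51) (nat_lit 52) = true := by decide +kernel
def p14_16_0_52 : pfC (piC [(nat_lit 35755509), (nat_lit 23968959), (nat_lit 17897616), (nat_lit 12073119)] (nat_lit 21119649)) p14_16_0 (nat_lit 4) (nat_lit 52) (nat_lit 53) = true := by decide +kernel
def p14_16_0_53 : pfC (piC [(nat_lit 35755509), (nat_lit 23968959), (nat_lit 17897616), (nat_lit 12073119)] (nat_lit 21119649)) p14_16_0 (nat_lit 4) (nat_lit 53) (nat_lit 54) = true := by decide +kernel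
def p14_16_0_54 : pfC (piC [(nat_lit 35755509), (nat_lit 23968959), (nat_lit 17897616), (nat_lit 12073119)] (nat_lit 21119649)) p14_16_0 (nat_lit 4) (nat_lit 54) (nat_lit 55) = true := by decide +kernel
def p14_16_0_55 : pfC (piC [(nat_lit 35755509), (nat_lit 23968959), (nat_lit 17897616), (nat_lit 12073119)] (nat_lit 21119649)) p14_16_0 (nat_lit 4) (nat_lit 55) (nat_lit 56) = true := by decide +kernel
def p14_16_0_56 : pfC (piC [(nat_lit 35755509), (nat_lit 23968959), (nat_lit 17897616), (nat_lit 12073119)] (nat_lit 21119649)) p14_16_0 (nat_lit 4) (nat_lit 56) (nat_lit 57) = true := by decide +kernel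
def p14_16_0_57 : pfC (piC [(nat_lit 35755509), (nat_lit 23968959), (nat_lit 17897616), (nat_lit 12073119)] (nat_lit 21119649)) p14_16_0 (nat_lit 4) (nat_lit 57) (nat_lit 58) = true := by decide +kernel
def p14_16_0_58 : pfC (piC [(nat_lit 35755509), (nat_lit 23968959), (nat_lit 17897616), (nat_lit 12073119)] (nat_lit 21119649)) p14_16_0 (nat_lit 4) (nat_lit 58) (nat_lit 59) = true := by decide +kernel
def p14_16_0_59 : pfC (piC [(nat_lit 35755509), (nat_lit 23968959), (nat_lit 17897616), (nat_lit 12073119)] (nat_lit 21119649)) p14_16_0 (nat_lit 4) (nat_lit 59) (nat_lit 60) = true := by decide +kernel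
def p14_16_0_60 : pfC (piC [(nat_lit 35755509), (nat_lit 23968959), (nat_lit 17897616), (nat_lit 12073119)] (nat_lit 21119649)) p14_16_0 (nat_lit 4) (nat_lit 60) (nat_lit 61) = true := by decide +kernel
def p14_16_0_61 : pfC (piC [(nat_lit 35755509), (nat_lit 23968959), (nat_lit 17897616), (nat_lit 12073119)] (nat_lit 21119649)) p14_16_0 (nat_lit 4) (nat_lit 61) (nat_lit 62) = true := by decide +kernel
def p14_16_0_62 : pfC (piC [(nat_lit 35755509), (nat_lit 23968959), (nat_lit 17897616), (nat_lit 12073119)] (nat_lit 21119649)) p14_16_0 (nat_lit 4) (nat_lit 62) (nat_lit 63) = true := by decide +kernel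
def p14_16_0_63 : pfC (piC [(nat_lit 35755509), (nat_lit 23968959), (nat_lit 17897616), (nat_lit 12073119)] (nat_lit 21119649)) p14_16_0 (nat_lit 4) (nat_lit 63) (nat_lit 64) = true := by decide +kernel
def p14_16_0_64 : pfC (piC [(nat_lit 35755509), (nat_lit 23968959), (nat_lit 17897616), (nat_lit 12073119)] (nat_lit 21119649)) p14_16_0 (nat_lit 4) (nat_lit 64) (nat_lit 65) = true := by decide +kernel
def p14_16_0_65 : pfC (piC [(nat_lit 35755509), (nat_lit 23968959), (nat_lit 17897616), (nat_lit 12073119)] (nat_lit 21119649)) p14_16_0 (nat_lit 4) (nat_lit 65) (nat_lit 66) = true := by decide +kernel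
def p14_16_0_66 : pfC (piC [(nat_lit 35755509), (nat_lit 23968959), (nat_lit 17897616), (nat_lit 12073119)] (nat_lit 21119649)) p14_16_0 (nat_lit 4) (nat_lit 66) (nat_lit 67) = true := by decide +kernel
def p14_16_0_67 : pfC (piC [(nat_lit 35755509), (nat_lit 23968959), (nat_lit 17897616), (nat_lit 12073119)] (nat_lit 21119649)) p14_16_0 (nat_lit 4) (nat_lit 67) (nat_lit 68) = true := by decide +kernel
def p14_16_0_68 : pfC (piC [(nat_lit 35755509), (nat_lit 23968959), (nat_lit 17897616), (nat_lit 12073119)] (nat_lit 21119649)) p14_16_0 (nat_lit 4) (nat_lit 68) (nat_lit 69) = true := by decide +kernel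
def p14_16_0_69 : pfC (piC [(nat_lit 35755509), (nat_lit 23968959), (nat_lit 17897616), (nat_lit 12073119)] (nat_lit 21119649)) p14_16_0 (nat_lit 4) (nat_lit 69) (nat_lit 70) = true := by decide +kernel
def p14_16_0_70 : pfC (piC [(nat_lit 35755509), (nat_lit 23968959), (nat_lit 17897616), (nat_lit 12073119)] (nat_lit 21119649)) p14_16_0 (nat_lit 4) (nat_lit 70) (nat_lit 71) = true := by decide +kernel
def p14_16_0_71 : pfC (piC [(nat_lit 35755509), (nat_lit 23968959), (nat_lit 17897616), (nat_lit 12073119)] (nat_lit 21119649)) p14_16_0 (nat_lit 4) (nat_lit 71) (nat_lit 72) = true := by decide +kernel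
def p14_16_0_72 : pfC (piC [(nat_lit 35755509), (nat_lit 23968959), (nat_lit 17897616), (nat_lit 12073119)] (nat_lit 21119649)) p14_16_0 (nat_lit 4) (nat_lit 72) (nat_lit 73) = true := by decide +kernel
def p14_16_0_73 : pfC (piC [(nat_lit 35755509), (nat_lit 23968959), (nat_lit 17897616), (nat_lit 12073119)] (nat_lit 21119649)) p14_16_0 (nat_lit 4) (nat_lit 73) (nat_lit 74) = true := by decide +kernel
def p14_16_0_74 : pfC (piC [(nat_lit 35755509), (nat_lit 23968959), (nat_lit 17897616), (nat_lit 12073119)] (nat_lit 21119649)) p14_16_0 (nat_lit 4) (nat_lit 74) (nat_lit 75) = true := by decide +kernel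
def p14_16_0_75 : pfC (piC [(nat_lit 35755509), (nat_lit 23968959), (nat_lit 17897616), (nat_lit 12073119)] (nat_lit 21119649)) p14_16_0 (nat_lit 4) (nat_lit 75) (nat_lit 76) = true := by decide +kernel
def p14_16_0_76 : pfC (piC [(nat_lit 35755509), (nat_lit 23968959), (nat_lit 17897616), (nat_lit 12073119)] (nat_lit 21119649)) p14_16_0 (nat_lit 4) (nat_lit 76) (nat_lit 77) = true := by decide +kernel
def p14_16_0_77 : pfC (piC [(nat_lit 35755509), (nat_lit 23968959), (nat_lit 17897616), (nat_lit 12073119)] (nat_lit 21119649)) p14_16_0 (nat_lit 4) (nat_lit 77) (nat_lit 78) = true := by decide +kernel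
def p14_16_0_78 : pfC (piC [(nat_lit 35755509), (nat_lit 23968959), (nat_lit 17897616), (nat_lit 12073119)] (nat_lit 21119649)) p14_16_0 (nat_lit 4) (nat_lit 78) (nat_lit 79) = true := by decide +kernel
def p14_16_0_79 : pfC (piC [(nat_lit 35755509), (nat_lit 23968959), (nat_lit 17897616), (nat_lit 12073119)] (nat_lit 21119649)) p14_16_0 (nat_lit 4) (nat_lit 79) (nat_lit 80) = true := by decide +kernel
def p14_16_0_80 : pfC (piC [(nat_lit 35755509), (nat_lit 23968959), (nat_lit 17897616), (nat_lit 12073119)] (nat_lit 21119649)) p14_16_0 (nat_lit 4) (nat_lit 80) (nat_lit 81) = true := by decide +kernel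
def p14_16_0_81 : pfC (piC [(nat_lit 35755509), (nat_lit 23968959), (nat_lit 17897616), (nat_lit 12073119)] (nat_lit 21119649)) p14_16_0 (nat_lit 4) (nat_lit 81) (nat_lit 82) = true := by decide +kernel
def p14_16_0_82 : pfC (piC [(nat_lit 35755509), (nat_lit 23968959), (nat_lit 17897616), (nat_lit 12073119)] (nat_lit 21119649)) p14_16_0 (nat_lit 4) (nat_lit 82) (nat_lit 83) = true := by decide +kernel
def p14_16_0_83 : pfC (piC [(nat_lit 35755509), (nat_lit 23968959), (nat_lit 17897616), (nat_lit 12073119)] (nat_lit 21119649)) p14_16_0 (nat_lit 4) (nat_lit 83) (nat_lit 84) = true := by decide +kernel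
def p14_16_0_84 : pfC (piC [(nat_lit 35755509), (nat_lit 23968959), (nat_lit 17897616), (nat_lit 12073119)] (nat_lit 21119649)) p14_16_0 (nat_lit 4) (nat_lit 84) (nat_lit 85) = true := by decide +kernel
def p14_16_0_85 : pfC (piC [(nat_lit 35755509), (nat_lit 23968959), (nat_lit 17897616), (nat_lit 12073119)] (nat_lit 21119649)) p14_16_0 (nat_lit 4) (nat_lit 85) (nat_lit 86) = true := by decide +kernel
def p14_16_0_86 : pfC (piC [(nat_lit 35755509), (nat_lit 23968959), (nat_lit 17897616), (nat_lit 12073119)] (nat_lit 21119649)) p14_16_0 (nat_lit 4) (nat_lit 86) (nat_lit 87) = true := by decide +kernel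
def p14_16_0_87 : pfC (piC [(nat_lit 35755509), (nat_lit 23968959), (nat_lit 17897616), (nat_lit 12073119)] (nat_lit 21119649)) p14_16_0 (nat_lit 4) (nat_lit 87) (nat_lit 88) = true := by decide +kernel
def p14_16_0_88 : pfC (piC [(nat_lit 35755509), (nat_lit 23968959), (nat_lit 17897616), (nat_lit 12073119)] (nat_lit 21119649)) p14_16_0 (nat_lit 4) (nat_lit 88) (nat_lit 89) = true := by decide +kernel
def p14_16_0_89 : pfC (piC [(nat_lit 35755509), (nat_lit 23968959), (nat_lit 17897616), (nat_lit 12073119)] (nat_lit 21119649)) p14_16_0 (nat_lit 4) (nat_lit 89) (nat_lit 90) = true := by decide +kernel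
def p14_16_0_90 : pfC (piC [(nat_lit 35755509), (nat_lit 23968959), (nat_lit 17897616), (nat_lit 12073119)] (nat_lit 21119649)) p14_16_0 (nat_lit 4) (nat_lit 90) (nat_lit 91) = true := by decide +kernel
def p14_16_0_91 : pfC (piC [(nat_lit 35755509), (nat_lit 23968959), (nat_lit 17897616), (nat_lit 12073119)] (nat_lit 21119649)) p14_16_0 (nat_lit 4) (nat_lit 91) (nat_lit 92) = true := by decide +kernel
def p14_16_0_92 : pfC (piC [(nat_lit 35755509), (nat_lit 23968959), (nat_lit 17897616), (nat_lit 12073119)] (nat_lit 21119649)) p14_16_0 (nat_lit 4) (nat_lit 92) (nat_lit 93) = true := by decide +kernel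
def p14_16_0_93 : pfC (piC [(nat_lit 35755509), (nat_lit 23968959), (nat_lit 17897616), (nat_lit 12073119)] (nat_lit 21119649)) p14_16_0 (nat_lit 4) (nat_lit 93) (nat_lit 94) = true := by decide +kernel
def p14_16_0_94 : pfC (piC [(nat_lit 35755509), (nat_lit 23968959), (nat_lit 17897616), (nat_lit 12073119)] (nat_lit 21119649)) p14_16_0 (nat_lit 4) (nat_lit 94) (nat_lit 95) = true := by decide +kernel
def p14_16_0_95 : pfC (piC [(nat_lit 35755509), (nat_lit 23968959), (nat_lit 17897616), (nat_lit 12073119)] (nat_lit 21119649)) p14_16_0 (nat_lit 4) (nat_lit 95) (nat_lit 96) = true := by decide +kernel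
def p14_16_0_96 : pfC (piC [(nat_lit 35755509), (nat_lit 23968959), (nat_lit 17897616), (nat_lit 12073119)] (nat_lit 21119649)) p14_16_0 (nat_lit 4) (nat_lit 96) (nat_lit 97) = true := by decide +kernel
def p14_16_0_97 : pfC (piC [(nat_lit 35755509), (nat_lit 23968959), (nat_lit 17897616), (nat_lit 12073119)] (nat_lit 21119649)) p14_16_0 (nat_lit 4) (nat_lit 97) (nat_lit 98) = true := by decide +kernel
def p14_16_0_98 : pfC (piC [(nat_lit 35755509), (nat_lit 23968959), (nat_lit 17897616), (nat_lit 12073119)] (nat_lit 21119649)) p14_16_0 (nat_lit 4) (nat_lit 98) (nat_lit 99) = true := by decide +kernel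
def p14_16_0_99 : pfC (piC [(nat_lit 35755509), (nat_lit 23968959), (nat_lit 17897616), (nat_lit 12073119)] (nat_lit 21119649)) p14_16_0 (nat_lit 4) (nat_lit 99) (nat_lit 100) = true := by decide +kernel
def p14_16_0_100 : pfC (piC [(nat_lit 35755509), (nat_lit 23968959), (nat_lit 17897616), (nat_lit 12073119)] (nat_lit 21119649)) p14_16_0 (nat_lit 4) (nat_lit 100) (nat_lit 101) = true := by decide +kernel
def p14_16_0_101 : pfC (piC [(nat_lit 35755509), (nat_lit 23968959), (nat_lit 17897616), (nat_lit 12073119)] (nat_lit 21119649)) p14_16_0 (nat_lit 4) (nat_lit 101) (nat_lit 102) = true := by decide +kernel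
def p14_16_0_102 : pfC (piC [(nat_lit 35755509), (nat_lit 23968959), (nat_lit 17897616), (nat_lit 12073119)] (nat_lit 21119649)) p14_16_0 (nat_lit 4) (nat_lit 102) (nat_lit 103) = true := by decide +kernel
def p14_16_0_103 : pfC (piC [(nat_lit 35755509), (nat_lit 23968959), (nat_lit 17897616), (nat_lit 12073119)] (nat_lit 21119649)) p14_16_0 (nat_lit 4) (nat_lit 103) (nat_lit 104) = true := by decide +kernel
def p14_16_0_104 : pfC (piC [(nat_lit 35755509), (nat_lit 23968959), (nat_lit 17897616), (nat_lit 12073119)] (nat_lit 21119649)) p14_16_0 (nat_lit 4) (nat_lit 104) (nat_lit 105) = true := by decide +kernel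
def p14_16_0_105 : pfC (piC [(nat_lit 35755509), (nat_lit 23968959), (nat_lit 17897616), (nat_lit 12073119)] (nat_lit 21119649)) p14_16_0 (nat_lit 4) (nat_lit 105) (nat_lit 106) = true := by decide +kernel
def p14_16_0_106 : pfC (piC [(nat_lit 35755509), (nat_lit 23968959), (nat_lit 17897616), (nat_lit 12073119)] (nat_lit 21119649)) p14_16_0 (nat_lit 4) (nat_lit 106) (nat_lit 107) = true := by decide +kernel
def p14_16_0_107 : pfC (piC [(nat_lit 35755509), (nat_lit 23968959), (nat_lit 17897616), (nat_lit 12073119)] (nat_lit 21119649)) p14_16_0 (nat_lit 4) (nat_lit 107) (nat_lit 108) = true := by decide +kernel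
def p14_16_0_108 : pfC (piC [(nat_lit 35755509), (nat_lit 23968959), (nat_lit 17897616), (nat_lit 12073119)] (nat_lit 21119649)) p14_16_0 (nat_lit 4) (nat_lit 108) (nat_lit 109) = true := by decide +kernel
def p14_16_0_109 : pfC (piC [(nat_lit 35755509), (nat_lit 23968959), (nat_lit 17897616), (nat_lit 12073119)] (nat_lit 21119649)) p14_16_0 (nat_lit 4) (nat_lit 109) (nat_lit 110) = true := by decide +kernel
def p14_16_0_110 : pfC (piC [(nat_lit 35755509), (nat_lit 23968959), (nat_lit 17897616), (nat_lit 12073119)] (nat_lit 21119649)) p14_16_0 (nat_lit 4) (nat_lit 110) (nat_lit 111) = true := by decide +kernel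
def p14_16_0_111 : pfC (piC [(nat_lit 35755509), (nat_lit 23968959), (nat_lit 17897616), (nat_lit 12073119)] (nat_lit 21119649)) p14_16_0 (nat_lit 4) (nat_lit 111) (nat_lit 112) = true := by decide +kernel
def p14_16_0_112 : pfC (piC [(nat_lit 35755509), (nat_lit 23968959), (nat_lit 17897616), (nat_lit 12073119)] (nat_lit 21119649)) p14_16_0 (nat_lit 4) (nat_lit 112) (nat_lit 113) = true := by decide +kernel
def p14_16_0_113 : pfC (piC [(nat_lit 35755509), (nat_lit 23968959), (nat_lit 17897616), (nat_lit 12073119)] (nat_lit 21119649)) p14_16_0 (nat_lit 4) (nat_lit 113) (nat_lit 114) = true := by decide +kernel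
def p14_16_0_114 : pfC (piC [(nat_lit 35755509), (nat_lit 23968959), (nat_lit 17897616), (nat_lit 12073119)] (nat_lit 21119649)) p14_16_0 (nat_lit 4) (nat_lit 114) (nat_lit 115) = true := by decide +kernel
def p14_16_0_115 : pfC (piC [(nat_lit 35755509), (nat_lit 23968959), (nat_lit 17897616), (nat_lit 12073119)] (nat_lit 21119649)) p14_16_0 (nat_lit 4) (nat_lit 115) (nat_lit 116) = true := by decide +kernel
def p14_16_0_116 : pfC (piC [(nat_lit 35755509), (nat_lit 23968959), (nat_lit 17897616), (nat_lit 12073119)] (nat_lit 21119649)) p14_16_0 (nat_lit 4) (nat_lit 116) (nat_lit 117) = true := by decide +kernel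
def p14_16_0_117 : pfC (piC [(nat_lit 35755509), (nat_lit 23968959), (nat_lit 17897616), (nat_lit 12073119)] (nat_lit 21119649)) p14_16_0 (nat_lit 4) (nat_lit 117) (nat_lit 118) = true := by decide +kernel
def p14_16_0_118 : pfC (piC [(nat_lit 35755509), (nat_lit 23968959), (nat_lit 17897616), (nat_lit 12073119)] (nat_lit 21119649)) p14_16_0 (nat_lit 4) (nat_lit 118) (nat_lit 119) = true := by decide +kernel
def p14_16_0_119 : pfC (piC [(nat_lit 35755509), (nat_lit 23968959), (nat_lit 17897616), (nat_lit 12073119)] (nat_lit 21119649)) p14_16_0 (nat_lit 4) (nat_lit 119) (nat_lit 120) = true := by decide +kernel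
def p14_16_0_120 : pfC (piC [(nat_lit 35755509), (nat_lit 23968959), (nat_lit 17897616), (nat_lit 12073119)] (nat_lit 21119649)) p14_16_0 (nat_lit 4) (nat_lit 120) (nat_lit 121) = true := by decide +kernel
def p14_16_0_121 : pfC (piC [(nat_lit 35755509), (nat_lit 23968959), (nat_lit 17897616), (nat_lit 12073119)] (nat_lit 21119649)) p14_16_0 (nat_lit 4) (nat_lit 121) (nat_lit 122) = true := by decide +kernel
def p14_16_0_122 : pfC (piC [(nat_lit 35755509), (nat_lit 23968959), (nat_lit 17897616), (nat_lit 12073119)] (nat_lit 21119649)) p14_16_0 (nat_lit 4) (nat_lit 122) (nat_lit 123) = true := by decide +kernel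
def p14_16_0_123 : pfC (piC [(nat_lit 35755509), (nat_lit 23968959), (nat_lit 17897616), (nat_lit 12073119)] (nat_lit 21119649)) p14_16_0 (nat_lit 4) (nat_lit 123) (nat_lit 124) = true := by decide +kernel
def p14_16_0_124 : pfC (piC [(nat_lit 35755509), (nat_lit 23968959), (nat_lit 17897616), (nat_lit 12073119)] (nat_lit 21119649)) p14_16_0 (nat_lit 4) (nat_lit 124) (nat_lit 125) = true := by decide +kernel
def p14_16_0_125 : pfC (piC [(nat_lit 35755509), (nat_lit 23968959), (nat_lit 17897616), (nat_lit 12073119)] (nat_lit 21119649)) p14_16_0 (nat_lit 4) (nat_lit 125) (nat_lit 126) = true := by decide +kernel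
def p14_16_0_126 : pfC (piC [(nat_lit 35755509), (nat_lit 23968959), (nat_lit 17897616), (nat_lit 12073119)] (nat_lit 21119649)) p14_16_0 (nat_lit 4) (nat_lit 126) (nat_lit 127) = true := by decide +kernel
def p14_16_0_127 : pfC (piC [(nat_lit 35755509), (nat_lit 23968959), (nat_lit 17897616), (nat_lit 12073119)] (nat_lit 21119649)) p14_16_0 (nat_lit 4) (nat_lit 127) (nat_lit 128) = true := by decide +kernel
def p14_16_0_128 : pfC (piC [(nat_lit 35755509), (nat_lit 23968959), (nat_lit 17897616), (nat_lit 12073119)] (nat_lit 21119649)) p14_16_0 (nat_lit 4) (nat_lit 128) (nat_lit 129) = true := by decide +kernel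
def p14_16_0_129 : pfC (piC [(nat_lit 35755509), (nat_lit 23968959), (nat_lit 17897616), (nat_lit 12073119)] (nat_lit 21119649)) p14_16_0 (nat_lit 4) (nat_lit 129) (nat_lit 130) = true := by decide +kernel
def p14_16_0_130 : pfC (piC [(nat_lit 35755509), (nat_lit 23968959), (nat_lit 17897616), (nat_lit 12073119)] (nat_lit 21119649)) p14_16_0 (nat_lit 4) (nat_lit 130) (nat_lit 131) = true := by decide +kernel
def p14_16_0_131 : pfC (piC [(nat_lit 35755509), (nat_lit 23968959), (nat_lit 17897616), (nat_lit 12073119)] (nat_lit 21119649)) p14_16_0 (nat_lit 4) (nat_lit 131) (nat_lit 132) = true := by decide +kernel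
def p14_16_0_132 : pfC (piC [(nat_lit 35755509), (nat_lit 23968959), (nat_lit 17897616), (nat_lit 12073119)] (nat_lit 21119649)) p14_16_0 (nat_lit 4) (nat_lit 132) (nat_lit 133) = true := by decide +kernel
def p14_16_0_133 : pfC (piC [(nat_lit 35755509), (nat_lit 23968959), (nat_lit 17897616), (nat_lit 12073119)] (nat_lit 21119649)) p14_16_0 (nat_lit 4) (nat_lit 133) (nat_lit 134) = true := by decide +kernel
def p14_16_0_134 : pfC (piC [(nat_lit 35755509), (nat_lit 23968959), (nat_lit 17897616), (nat_lit 12073119)] (nat_lit 21119649)) p14_16_0 (nat_lit 4) (nat_lit 134) (nat_lit 135) = true := by decide +kernel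
def p14_16_0_135 : pfC (piC [(nat_lit 35755509), (nat_lit 23968959), (nat_lit 17897616), (nat_lit 12073119)] (nat_lit 21119649)) p14_16_0 (nat_lit 4) (nat_lit 135) (nat_lit 136) = true := by decide +kernel
def p14_16_0_136 : pfC (piC [(nat_lit 35755509), (nat_lit 23968959), (nat_lit 17897616), (nat_lit 12073119)] (nat_lit 21119649)) p14_16_0 (nat_lit 4) (nat_lit 136) (nat_lit 137) = true := by decide +kernel
def p14_16_0_137 : pfC (piC [(nat_lit 35755509), (nat_lit 23968959), (nat_lit 17897616), (nat_lit 12073119)] (nat_lit 21119649)) p14_16_0 (nat_lit 4) (nat_lit 137) (nat_lit 138) = true := by decide +kernel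
def p14_16_0_138 : pfC (piC [(nat_lit 35755509), (nat_lit 23968959), (nat_lit 17897616), (nat_lit 12073119)] (nat_lit 21119649)) p14_16_0 (nat_lit 4) (nat_lit 138) (nat_lit 139) = true := by decide +kernel
def p14_16_0_139 : pfC (piC [(nat_lit 35755509), (nat_lit 23968959), (nat_lit 17897616), (nat_lit 12073119)] (nat_lit 21119649)) p14_16_0 (nat_lit 4) (nat_lit 139) (nat_lit 140) = true := by decide +kernel
def p14_16_0_140 : pfC (piC [(nat_lit 35755509), (nat_lit 23968959), (nat_lit 17897616), (nat_lit 12073119)] (nat_lit 21119649)) p14_16_0 (nat_lit 4) (nat_lit 140) (nat_lit 141) = true := by decide +kernel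
def p14_16_0_141 : pfC (piC [(nat_lit 35755509), (nat_lit 23968959), (nat_lit 17897616), (nat_lit 12073119)] (nat_lit 21119649)) p14_16_0 (nat_lit 4) (nat_lit 141) (nat_lit 142) = true := by decide +kernel
def p14_16_0_142 : pfC (piC [(nat_lit 35755509), (nat_lit 23968959), (nat_lit 17897616), (nat_lit 12073119)] (nat_lit 21119649)) p14_16_0 (nat_lit 4) (nat_lit 142) (nat_lit 143) = true := by decide +kernel
def p14_16_0_143 : pfC (piC [(nat_lit 35755509), (nat_lit 23968959), (nat_lit 17897616), (nat_lit 12073119)] (nat_lit 21119649)) p14_16_0 (nat_lit 4) (nat_lit 143) (nat_lit 144) = true := by decide +kernel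
def p14_16_0_144 : pfC (piC [(nat_lit 35755509), (nat_lit 23968959), (nat_lit 17897616), (nat_lit 12073119)] (nat_lit 21119649)) p14_16_0 (nat_lit 4) (nat_lit 144) (nat_lit 145) = true := by decide +kernel
def p14_16_0_145 : pfC (piC [(nat_lit 35755509), (nat_lit 23968959), (nat_lit 17897616), (nat_lit 12073119)] (nat_lit 21119649)) p14_16_0 (nat_lit 4) (nat_lit 145) (nat_lit 146) = true := by decide +kernel
def p14_16_0_146 : pfC (piC [(nat_lit 35755509), (nat_lit 23968959), (nat_lit 17897616), (nat_lit 12073119)] (nat_lit 21119649)) p14_16_0 (nat_lit 4) (nat_lit 146) (nat_lit 147) = true := by decide +kernel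
def p14_16_0_147 : pfC (piC [(nat_lit 35755509), (nat_lit 23968959), (nat_lit 17897616), (nat_lit 12073119)] (nat_lit 21119649)) p14_16_0 (nat_lit 4) (nat_lit 147) (nat_lit 148) = true := by decide +kernel
def p14_16_0_148 : pfC (piC [(nat_lit 35755509), (nat_lit 23968959), (nat_lit 17897616), (nat_lit 12073119)] (nat_lit 21119649)) p14_16_0 (nat_lit 4) (nat_lit 148) (nat_lit 149) = true := by decide +kernel
def p14_16_0_149 : pfC (piC [(nat_lit 35755509), (nat_lit 23968959), (nat_lit 17897616), (nat_lit 12073119)] (nat_lit 21119649)) p14_16_0 (nat_lit 4) (nat_lit 149) (nat_lit 150) = true := by decide +kernel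
def p14_16_0_150 : pfC (piC [(nat_lit 35755509), (nat_lit 23968959), (nat_lit 17897616), (nat_lit 12073119)] (nat_lit 21119649)) p14_16_0 (nat_lit 4) (nat_lit 150) (nat_lit 151) = true := by decide +kernel
def p14_16_0_151 : pfC (piC [(nat_lit 35755509), (nat_lit 23968959), (nat_lit 17897616), (nat_lit 12073119)] (nat_lit 21119649)) p14_16_0 (nat_lit 4) (nat_lit 151) (nat_lit 152) = true := by decide +kernel
def p14_16_0_152 : pfC (piC [(nat_lit 35755509), (nat_lit 23968959), (nat_lit 17897616), (nat_lit 12073119)] (nat_lit 21119649)) p14_16_0 (nat_lit 4) (nat_lit 152) (nat_lit 153) = true := by decide +kernel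
def p14_16_0_153 : pfC (piC [(nat_lit 35755509), (nat_lit 23968959), (nat_lit 17897616), (nat_lit 12073119)] (nat_lit 21119649)) p14_16_0 (nat_lit 4) (nat_lit 153) (nat_lit 154) = true := by decide +kernel
def p14_16_0_154 : pfC (piC [(nat_lit 35755509), (nat_lit 23968959), (nat_lit 17897616), (nat_lit 12073119)] (nat_lit 21119649)) p14_16_0 (nat_lit 4) (nat_lit 154) (nat_lit 155) = true := by decide +kernel
def p14_16_0_155 : pfC (piC [(nat_lit 35755509), (nat_lit 23968959), (nat_lit 17897616), (nat_lit 12073119)] (nat_lit 21119649)) p14_16_0 (nat_lit 4) (nat_lit 155) (nat_lit 156) = true := by decide +kernel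
def p14_16_0_156 : pfC (piC [(nat_lit 35755509), (nat_lit 23968959), (nat_lit 17897616), (nat_lit 12073119)] (nat_lit 21119649)) p14_16_0 (nat_lit 4) (nat_lit 156) (nat_lit 157) = true := by decide +kernel
def p14_16_0_157 : pfC (piC [(nat_lit 35755509), (nat_lit 23968959), (nat_lit 17897616), (nat_lit 12073119)] (nat_lit 21119649)) p14_16_0 (nat_lit 4) (nat_lit 157) (nat_lit 158) = true := by decide +kernel
def p14_16_0_158 : pfC (piC [(nat_lit 35755509), (nat_lit 23968959), (nat_lit 17897616), (nat_lit 12073119)] (nat_lit 21119649)) p14_16_0 (nat_lit 4) (nat_lit 158) (nat_lit 159) = true := by decide +kernel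
def p14_16_0_159 : pfC (piC [(nat_lit 35755509), (nat_lit 23968959), (nat_lit 17897616), (nat_lit 12073119)] (nat_lit 21119649)) p14_16_0 (nat_lit 4) (nat_lit 159) (nat_lit 160) = true := by decide +kernel
def p14_16_0_160 : pfC (piC [(nat_lit 35755509), (nat_lit 23968959), (nat_lit 17897616), (nat_lit 12073119)] (nat_lit 21119649)) p14_16_0 (nat_lit 4) (nat_lit 160) (nat_lit 161) = true := by decide +kernel
def p14_16_0_161 : pfC (piC [(nat_lit 35755509), (nat_lit 23968959), (nat_lit 17897616), (nat_lit 12073119)] (nat_lit 21119649)) p14_16_0 (nat_lit 4) (nat_lit 161) (nat_lit 162) = true := by decide +kernel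
def p14_16_0_162 : pfC (piC [(nat_lit 35755509), (nat_lit 23968959), (nat_lit 17897616), (nat_lit 12073119)] (nat_lit 21119649)) p14_16_0 (nat_lit 4) (nat_lit 162) (nat_lit 163) = true := by decide +kernel
def p14_16_0_163 : pfC (piC [(nat_lit 35755509), (nat_lit 23968959), (nat_lit 17897616), (nat_lit 12073119)] (nat_lit 21119649)) p14_16_0 (nat_lit 4) (nat_lit 163) (nat_lit 164) = true := by decide +kernel
def p14_16_0_164 : pfC (piC [(nat_lit 35755509), (nat_lit 23968959), (nat_lit 17897616), (nat_lit 12073119)] (nat_lit 21119649)) p14_16_0 (nat_lit 4) (nat_lit 164) (nat_lit 165) = true := by decide +kernel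
def p14_16_0_165 : pfC (piC [(nat_lit 35755509), (nat_lit 23968959), (nat_lit 17897616), (nat_lit 12073119)] (nat_lit 21119649)) p14_16_0 (nat_lit 4) (nat_lit 165) (nat_lit 166) = true := by decide +kernel
def p14_16_0_166 : pfC (piC [(nat_lit 35755509), (nat_lit 23968959), (nat_lit 17897616), (nat_lit 12073119)] (nat_lit 21119649)) p14_16_0 (nat_lit 4) (nat_lit 166) (nat_lit 167) = true := by decide +kernel
def p14_16_0_167 : pfC (piC [(nat_lit 35755509), (nat_lit 23968959), (nat_lit 17897616), (nat_lit 12073119)] (nat_lit 21119649)) p14_16_0 (nat_lit 4) (nat_lit 167) (nat_lit 168) = true := by decide +kernel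
def p14_16_0_168 : pfC (piC [(nat_lit 35755509), (nat_lit 23968959), (nat_lit 17897616), (nat_lit 12073119)] (nat_lit 21119649)) p14_16_0 (nat_lit 4) (nat_lit 168) (nat_lit 169) = true := by decide +kernel
def p14_16_0_169 : pfC (piC [(nat_lit 35755509), (nat_lit 23968959), (nat_lit 17897616), (nat_lit 12073119)] (nat_lit 21119649)) p14_16_0 (nat_lit 4) (nat_lit 169) (nat_lit 170) = true := by decide +kernel
def p14_16_0_170 : pfC (piC [(nat_lit 35755509), (nat_lit 23968959), (nat_lit 17897616), (nat_lit 12073119)] (nat_lit 21119649)) p14_16_0 (nat_lit 4) (nat_lit 170) (nat_lit 171) = true := by decide +kernel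
def p14_16_0_171 : pfC (piC [(nat_lit 35755509), (nat_lit 23968959), (nat_lit 17897616), (nat_lit 12073119)] (nat_lit 21119649)) p14_16_0 (nat_lit 4) (nat_lit 171) (nat_lit 172) = true := by decide +kernel
def p14_16_0_172 : pfC (piC [(nat_lit 35755509), (nat_lit 23968959), (nat_lit 17897616), (nat_lit 12073119)] (nat_lit 21119649)) p14_16_0 (nat_lit 4) (nat_lit 172) (nat_lit 173) = true := by decide +kernel
def p14_16_0_173 : pfC (piC [(nat_lit 35755509), (nat_lit 23968959), (nat_lit 17897616), (nat_lit 12073119)] (nat_lit 21119649)) p14_16_0 (nat_lit 4) (nat_lit 173) (nat_lit 174) = true := by decide +kernel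
def p14_16_0_174 : pfC (piC [(nat_lit 35755509), (nat_lit 23968959), (nat_lit 17897616), (nat_lit 12073119)] (nat_lit 21119649)) p14_16_0 (nat_lit 4) (nat_lit 174) (nat_lit 175) = true := by decide +kernel
def p14_16_0_175 : pfC (piC [(nat_lit 35755509), (nat_lit 23968959), (nat_lit 17897616), (nat_lit 12073119)] (nat_lit 21119649)) p14_16_0 (nat_lit 4) (nat_lit 175) (nat_lit 176) = true := by decide +kernel
def p14_16_0_176 : pfC (piC [(nat_lit 35755509), (nat_lit 23968959), (nat_lit 17897616), (nat_lit 12073119)] (nat_lit 21119649)) p14_16_0 (nat_lit 4) (nat_lit 176) (nat_lit 177) = true := by decide +kernel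
def p14_16_0_177 : pfC (piC [(nat_lit 35755509), (nat_lit 23968959), (nat_lit 17897616), (nat_lit 12073119)] (nat_lit 21119649)) p14_16_0 (nat_lit 4) (nat_lit 177) (nat_lit 178) = true := by decide +kernel
def p14_16_0_178 : pfC (piC [(nat_lit 35755509), (nat_lit 23968959), (nat_lit 17897616), (nat_lit 12073119)] (nat_lit 21119649)) p14_16_0 (nat_lit 4) (nat_lit 178) (nat_lit 179) = true := by decide +kernel
def p14_16_0_179 : pfC (piC [(nat_lit 35755509), (nat_lit 23968959), (nat_lit 17897616), (nat_lit 12073119)] (nat_lit 21119649)) p14_16_0 (nat_lit 4) (nat_lit 179) (nat_lit 180) = true := by decide +kernel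
def p14_16_0_180 : pfC (piC [(nat_lit 35755509), (nat_lit 23968959), (nat_lit 17897616), (nat_lit 12073119)] (nat_lit 21119649)) p14_16_0 (nat_lit 4) (nat_lit 180) (nat_lit 181) = true := by decide +kernel
def p14_16_0_181 : pfC (piC [(nat_lit 35755509), (nat_lit 23968959), (nat_lit 17897616), (nat_lit 12073119)] (nat_lit 21119649)) p14_16_0 (nat_lit 4) (nat_lit 181) (nat_lit 182) = true := by decide +kernel
def p14_16_0_182 : pfC (piC [(nat_lit 35755509), (nat_lit 23968959), (nat_lit 17897616), (nat_lit 12073119)] (nat_lit 21119649)) p14_16_0 (nat_lit 4) (nat_lit 182) (nat_lit 183) = true := by decide +kernel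
def p14_16_0_183 : pfC (piC [(nat_lit 35755509), (nat_lit 23968959), (nat_lit 17897616), (nat_lit 12073119)] (nat_lit 21119649)) p14_16_0 (nat_lit 4) (nat_lit 183) (nat_lit 184) = true := by decide +kernel
def p14_16_0_184 : pfC (piC [(nat_lit 35755509), (nat_lit 23968959), (nat_lit 17897616), (nat_lit 12073119)] (nat_lit 21119649)) p14_16_0 (nat_lit 4) (nat_lit 184) (nat_lit 185) = true := by decide +kernel
def p14_16_0_185 : pfC (piC [(nat_lit 35755509), (nat_lit 23968959), (nat_lit 17897616), (nat_lit 12073119)] (nat_lit 21119649)) p14_16_0 (nat_lit 4) (nat_lit 185) (nat_lit 186) = true := by decide +kernel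
def p14_16_0_186 : pfC (piC [(nat_lit 35755509), (nat_lit 23968959), (nat_lit 17897616), (nat_lit 12073119)] (nat_lit 21119649)) p14_16_0 (nat_lit 4) (nat_lit 186) (nat_lit 187) = true := by decide +kernel
def p14_16_0_187 : pfC (piC [(nat_lit 35755509), (nat_lit 23968959), (nat_lit 17897616), (nat_lit 12073119)] (nat_lit 21119649)) p14_16_0 (nat_lit 4) (nat_lit 187) (nat_lit 188) = true := by decide +kernel
def p14_16_0_188 : pfC (piC [(nat_lit 35755509), (nat_lit 23968959), (nat_lit 17897616), (nat_lit 12073119)] (nat_lit 21119649)) p14_16_0 (nat_lit 4) (nat_lit 188) (nat_lit 189) = true := by decide +kernel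
def p14_16_0_189 : pfC (piC [(nat_lit 35755509), (nat_lit 23968959), (nat_lit 17897616), (nat_lit 12073119)] (nat_lit 21119649)) p14_16_0 (nat_lit 4) (nat_lit 189) (nat_lit 190) = true := by decide +kernel
def p14_16_0_190 : pfC (piC [(nat_lit 35755509), (nat_lit 23968959), (nat_lit 17897616), (nat_lit 12073119)] (nat_lit 21119649)) p14_16_0 (nat_lit 4) (nat_lit 190) (nat_lit 191) = true := by decide +kernel
def p14_16_0_191 : pfC (piC [(nat_lit 35755509), (nat_lit 23968959), (nat_lit 17897616), (nat_lit 12073119)] (nat_lit 21119649)) p14_16_0 (nat_lit 4) (nat_lit 191) (nat_lit 192) = true := by decide +kernel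
def p14_16_0_192 : pfC (piC [(nat_lit 35755509), (nat_lit 23968959), (nat_lit 17897616), (nat_lit 12073119)] (nat_lit 21119649)) p14_16_0 (nat_lit 4) (nat_lit 192) (nat_lit 193) = true := by decide +kernel
def p14_16_0_193 : pfC (piC [(nat_lit 35755509), (nat_lit 23968959), (nat_lit 17897616), (nat_lit 12073119)] (nat_lit 21119649)) p14_16_0 (nat_lit 4) (nat_lit 193) (nat_lit 194) = true := by decide +kernel
def p14_16_0_194 : pfC (piC [(nat_lit 35755509), (nat_lit 23968959), (nat_lit 17897616), (nat_lit 12073119)] (nat_lit 21119649)) p14_16_0 (nat_lit 4) (nat_lit 194) (nat_lit 195) = true := by decide +kernel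
def p14_16_0_195 : pfC (piC [(nat_lit 35755509), (nat_lit 23968959), (nat_lit 17897616), (nat_lit 12073119)] (nat_lit 21119649)) p14_16_0 (nat_lit 4) (nat_lit 195) (nat_lit 196) = true := by decide +kernel
def p14_16_0_196 : pfC (piC [(nat_lit 35755509), (nat_lit 23968959), (nat_lit 17897616), (nat_lit 12073119)] (nat_lit 21119649)) p14_16_0 (nat_lit 4) (nat_lit 196) (nat_lit 197) = true := by decide +kernel
def p14_16_0_197 : pfC (piC [(nat_lit 35755509), (nat_lit 23968959), (nat_lit 17897616), (nat_lit 12073119)] (nat_lit 21119649)) p14_16_0 (nat_lit 4) (nat_lit 197) (nat_lit 198) = true := by decide +kernel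
def p14_16_0_198 : pfC (piC [(nat_lit 35755509), (nat_lit 23968959), (nat_lit 17897616), (nat_lit 12073119)] (nat_lit 21119649)) p14_16_0 (nat_lit 4) (nat_lit 198) (nat_lit 199) = true := by decide +kernel
def p14_16_0_199 : pfC (piC [(nat_lit 35755509), (nat_lit 23968959), (nat_lit 17897616), (nat_lit 12073119)] (nat_lit 21119649)) p14_16_0 (nat_lit 4) (nat_lit 199) (nat_lit 200) = true := by decide +kernel
def p14_16_0_200 : pfC (piC [(nat_lit 35755509), (nat_lit 23968959), (nat_lit 17897616), (nat_lit 12073119)] (nat_lit 21119649)) p14_16_0 (nat_lit 4) (nat_lit 200) (nat_lit 201) = true := by decide +kernel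
def p14_16_0_201 : pfC (piC [(nat_lit 35755509), (nat_lit 23968959), (nat_lit 17897616), (nat_lit 12073119)] (nat_lit 21119649)) p14_16_0 (nat_lit 4) (nat_lit 201) (nat_lit 202) = true := by decide +kernel
def p14_16_0_202 : pfC (piC [(nat_lit 35755509), (nat_lit 23968959), (nat_lit 17897616), (nat_lit 12073119)] (nat_lit 21119649)) p14_16_0 (nat_lit 4) (nat_lit 202) (nat_lit 203) = true := by decide +kernel
def p14_16_0_203 : pfC (piC [(nat_lit 35755509), (nat_lit 23968959), (nat_lit 17897616), (nat_lit 12073119)] (nat_lit 21119649)) p14_16_0 (nat_lit 4) (nat_lit 203) (nat_lit 204) = true := by decide +kernel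
def p14_16_0_204 : pfC (piC [(nat_lit 35755509), (nat_lit 23968959), (nat_lit 17897616), (nat_lit 12073119)] (nat_lit 21119649)) p14_16_0 (nat_lit 4) (nat_lit 204) (nat_lit 205) = true := by decide +kernel
def p14_16_0_205 : pfC (piC [(nat_lit 35755509), (nat_lit 23968959), (nat_lit 17897616), (nat_lit 12073119)] (nat_lit 21119649)) p14_16_0 (nat_lit 4) (nat_lit 205) (nat_lit 206) = true := by decide +kernel
def p14_16_0_206 : pfC (piC [(nat_lit 35755509), (nat_lit 23968959), (nat_lit 17897616), (nat_lit 12073119)] (nat_lit 21119649)) p14_16_0 (nat_lit 4) (nat_lit 206) (nat_lit 207) = true := by decide +kernel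
def p14_16_0_207 : pfC (piC [(nat_lit 35755509), (nat_lit 23968959), (nat_lit 17897616), (nat_lit 12073119)] (nat_lit 21119649)) p14_16_0 (nat_lit 4) (nat_lit 207) (nat_lit 208) = true := by decide +kernel
def p14_16_0_208 : pfC (piC [(nat_lit 35755509), (nat_lit 23968959), (nat_lit 17897616), (nat_lit 12073119)] (nat_lit 21119649)) p14_16_0 (nat_lit 4) (nat_lit 208) (nat_lit 209) = true := by decide +kernel
def p14_16_0_209 : pfC (piC [(nat_lit 35755509), (nat_lit 23968959), (nat_lit 17897616), (nat_lit 12073119)] (nat_lit 21119649)) p14_16_0 (nat_lit 4) (nat_lit 209) (nat_lit 210) = true := by decide +kernel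
def p14_16_0_210 : pfC (piC [(nat_lit 35755509), (nat_lit 23968959), (nat_lit 17897616), (nat_lit 12073119)] (nat_lit 21119649)) p14_16_0 (nat_lit 4) (nat_lit 210) (nat_lit 211) = true := by decide +kernel
def p14_16_0_211 : pfC (piC [(nat_lit 35755509), (nat_lit 23968959), (nat_lit 17897616), (nat_lit 12073119)] (nat_lit 21119649)) p14_16_0 (nat_lit 4) (nat_lit 211) (nat_lit 212) = true := by decide +kernel
def p14_16_0_212 : pfC (piC [(nat_lit 35755509), (nat_lit 23968959), (nat_lit 17897616), (nat_lit 12073119)] (nat_lit 21119649)) p14_16_0 (nat_lit 4) (nat_lit 212) (nat_lit 213) = true := by decide +kernel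
def p14_16_0_213 : pfC (piC [(nat_lit 35755509), (nat_lit 23968959), (nat_lit 17897616), (nat_lit 12073119)] (nat_lit 21119649)) p14_16_0 (nat_lit 4) (nat_lit 213) (nat_lit 214) = true := by decide +kernel
def p14_16_0_214 : pfC (piC [(nat_lit 35755509), (nat_lit 23968959), (nat_lit 17897616), (nat_lit 12073119)] (nat_lit 21119649)) p14_16_0 (nat_lit 4) (nat_lit 214) (nat_lit 215) = true := by decide +kernel
def p14_16_0_215 : pfC (piC [(nat_lit 35755509), (nat_lit 23968959), (nat_lit 17897616), (nat_lit 12073119)] (nat_lit 21119649)) p14_16_0 (nat_lit 4) (nat_lit 215) (nat_lit 216) = true := by decide +kernel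
def p14_16_0_216 : pfC (piC [(nat_lit 35755509), (nat_lit 23968959), (nat_lit 17897616), (nat_lit 12073119)] (nat_lit 21119649)) p14_16_0 (nat_lit 4) (nat_lit 216) (nat_lit 217) = true := by decide +kernel
def p14_16_0_217 : pfC (piC [(nat_lit 35755509), (nat_lit 23968959), (nat_lit 17897616), (nat_lit 12073119)] (nat_lit 21119649)) p14_16_0 (nat_lit 4) (nat_lit 217) (nat_lit 218) = true := by decide +kernel
def p14_16_0_218 : pfC (piC [(nat_lit 35755509), (nat_lit 23968959), (nat_lit 17897616), (nat_lit 12073119)] (nat_lit 21119649)) p14_16_0 (nat_lit 4) (nat_lit 218) (nat_lit 219) = true := by decide +kernel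
def p14_16_0_219 : pfC (piC [(nat_lit 35755509), (nat_lit 23968959), (nat_lit 17897616), (nat_lit 12073119)] (nat_lit 21119649)) p14_16_0 (nat_lit 4) (nat_lit 219) (nat_lit 220) = true := by decide +kernel
def p14_16_0_220 : pfC (piC [(nat_lit 35755509), (nat_lit 23968959), (nat_lit 17897616), (nat_lit 12073119)] (nat_lit 21119649)) p14_16_0 (nat_lit 4) (nat_lit 220) (nat_lit 221) = true := by decide +kernel
def p14_16_0_221 : pfC (piC [(nat_lit 35755509), (nat_lit 23968959), (nat_lit 17897616), (nat_lit 12073119)] (nat_lit 21119649)) p14_16_0 (nat_lit 4) (nat_lit 221) (nat_lit 222) = true := by decide +kernel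
def p14_16_0_222 : pfC (piC [(nat_lit 35755509), (nat_lit 23968959), (nat_lit 17897616), (nat_lit 12073119)] (nat_lit 21119649)) p14_16_0 (nat_lit 4) (nat_lit 222) (nat_lit 223) = true := by decide +kernel
def p14_16_0_223 : pfC (piC [(nat_lit 35755509), (nat_lit 23968959), (nat_lit 17897616), (nat_lit 12073119)] (nat_lit 21119649)) p14_16_0 (nat_lit 4) (nat_lit 223) (nat_lit 224) = true := by decide +kernel
def p14_16_0_224 : pfC (piC [(nat_lit 35755509), (nat_lit 23968959), (nat_lit 17897616), (nat_lit 12073119)] (nat_lit 21119649)) p14_16_0 (nat_lit 4) (nat_lit 224) (nat_lit 225) = true := by decide +kernel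
def p14_16_0_225 : pfC (piC [(nat_lit 35755509), (nat_lit 23968959), (nat_lit 17897616), (nat_lit 12073119)] (nat_lit 21119649)) p14_16_0 (nat_lit 4) (nat_lit 225) (nat_lit 226) = true := by decide +kernel
def p14_16_0_226 : pfC (piC [(nat_lit 35755509), (nat_lit 23968959), (nat_lit 17897616), (nat_lit 12073119)] (nat_lit 21119649)) p14_16_0 (nat_lit 4) (nat_lit 226) (nat_lit 227) = true := by decide +kernel
def p14_16_0_227 : pfC (piC [(nat_lit 35755509), (nat_lit 23968959), (nat_lit 17897616), (nat_lit 12073119)] (nat_lit 21119649)) p14_16_0 (nat_lit 4) (nat_lit 227) (nat_lit 228) = true := by decide +kernel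
def p14_16_0_228 : pfC (piC [(nat_lit 35755509), (nat_lit 23968959), (nat_lit 17897616), (nat_lit 12073119)] (nat_lit 21119649)) p14_16_0 (nat_lit 4) (nat_lit 228) (nat_lit 229) = true := by decide +kernel
def p14_16_0_229 : pfC (piC [(nat_lit 35755509), (nat_lit 23968959), (nat_lit 17897616), (nat_lit 12073119)] (nat_lit 21119649)) p14_16_0 (nat_lit 4) (nat_lit 229) (nat_lit 230) = true := by decide +kernel
def p14_16_0_230 : pfC (piC [(nat_lit 35755509), (nat_lit 23968959), (nat_lit 17897616), (nat_lit 12073119)] (nat_lit 21119649)) p14_16_0 (nat_lit 4) (nat_lit 230) (nat_lit 231) = true := by decide +kernel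
def p14_16_0_231 : pfC (piC [(nat_lit 35755509), (nat_lit 23968959), (nat_lit 17897616), (nat_lit 12073119)] (nat_lit 21119649)) p14_16_0 (nat_lit 4) (nat_lit 231) (nat_lit 232) = true := by decide +kernel
def p14_16_0_232 : pfC (piC [(nat_lit 35755509), (nat_lit 23968959), (nat_lit 17897616), (nat_lit 12073119)] (nat_lit 21119649)) p14_16_0 (nat_lit 4) (nat_lit 232) (nat_lit 233) = true := by decide +kernel
def p14_16_0_233 : pfC (piC [(nat_lit 35755509), (nat_lit 23968959), (nat_lit 17897616), (nat_lit 12073119)] (nat_lit 21119649)) p14_16_0 (nat_lit 4) (nat_lit 233) (nat_lit 234) = true := by decide +kernel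
def p14_16_0_234 : pfC (piC [(nat_lit 35755509), (nat_lit 23968959), (nat_lit 17897616), (nat_lit 12073119)] (nat_lit 21119649)) p14_16_0 (nat_lit 4) (nat_lit 234) (nat_lit 235) = true := by decide +kernel
def p14_16_0_235 : pfC (piC [(nat_lit 35755509), (nat_lit 23968959), (nat_lit 17897616), (nat_lit 12073119)] (nat_lit 21119649)) p14_16_0 (nat_lit 4) (nat_lit 235) (nat_lit 236) = true := by decide +kernel
def p14_16_0_236 : pfC (piC [(nat_lit 35755509), (nat_lit 23968959), (nat_lit 17897616), (nat_lit 12073119)] (nat_lit 21119649)) p14_16_0 (nat_lit 4) (nat_lit 236) (nat_lit 237) = true := by decide +kernel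
def p14_16_0_237 : pfC (piC [(nat_lit 35755509), (nat_lit 23968959), (nat_lit 17897616), (nat_lit 12073119)] (nat_lit 21119649)) p14_16_0 (nat_lit 4) (nat_lit 237) (nat_lit 238) = true := by decide +kernel
def p14_16_0_238 : pfC (piC [(nat_lit 35755509), (nat_lit 23968959), (nat_lit 17897616), (nat_lit 12073119)] (nat_lit 21119649)) p14_16_0 (nat_lit 4) (nat_lit 238) (nat_lit 239) = true := by decide +kernel
def p14_16_0_239 : pfC (piC [(nat_lit 35755509), (nat_lit 23968959), (nat_lit 17897616), (nat_lit 12073119)] (nat_lit 21119649)) p14_16_0 (nat_lit 4) (nat_lit 239) (nat_lit 240) = true := by decide +kernel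
def p14_16_0_240 : pfC (piC [(nat_lit 35755509), (nat_lit 23968959), (nat_lit 17897616), (nat_lit 12073119)] (nat_lit 21119649)) p14_16_0 (nat_lit 4) (nat_lit 240) (nat_lit 241) = true := by decide +kernel
def p14_16_0_241 : pfC (piC [(nat_lit 35755509), (nat_lit 23968959), (nat_lit 17897616), (nat_lit 12073119)] (nat_lit 21119649)) p14_16_0 (nat_lit 4) (nat_lit 241) (nat_lit 242) = true := by decide +kernel
def p14_16_0_242 : pfC (piC [(nat_lit 35755509), (nat_lit 23968959), (nat_lit 17897616), (nat_lit 12073119)] (nat_lit 21119649)) p14_16_0 (nat_lit 4) (nat_lit 242) (nat_lit 243) = true := by decide +kernel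
def p14_16_0_243 : pfC (piC [(nat_lit 35755509), (nat_lit 23968959), (nat_lit 17897616), (nat_lit 12073119)] (nat_lit 21119649)) p14_16_0 (nat_lit 4) (nat_lit 243) (nat_lit 244) = true := by decide +kernel
def p14_16_0_244 : pfC (piC [(nat_lit 35755509), (nat_lit 23968959), (nat_lit 17897616), (nat_lit 12073119)] (nat_lit 21119649)) p14_16_0 (nat_lit 4) (nat_lit 244) (nat_lit 245) = true := by decide +kernel
def p14_16_0_245 : pfC (piC [(nat_lit 35755509), (nat_lit 23968959), (nat_lit 17897616), (nat_lit 12073119)] (nat_lit 21119649)) p14_16_0 (nat_lit 4) (nat_lit 245) (nat_lit 246) = true := by decide +kernel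
def p14_16_0_246 : pfC (piC [(nat_lit 35755509), (nat_lit 23968959), (nat_lit 17897616), (nat_lit 12073119)] (nat_lit 21119649)) p14_16_0 (nat_lit 4) (nat_lit 246) (nat_lit 247) = true := by decide +kernel
def p14_16_0_247 : pfC (piC [(nat_lit 35755509), (nat_lit 23968959), (nat_lit 17897616), (nat_lit 12073119)] (nat_lit 21119649)) p14_16_0 (nat_lit 4) (nat_lit 247) (nat_lit 248) = true := by decide +kernel
def p14_16_0_248 : pfC (piC [(nat_lit 35755509), (nat_lit 23968959), (nat_lit 17897616), (nat_lit 12073119)] (nat_lit 21119649)) p14_16_0 (nat_lit 4) (nat_lit 248) (nat_lit 249) = true := by decide +kernel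
def p14_16_0_249 : pfC (piC [(nat_lit 35755509), (nat_lit 23968959), (nat_lit 17897616), (nat_lit 12073119)] (nat_lit 21119649)) p14_16_0 (nat_lit 4) (nat_lit 249) (nat_lit 250) = true := by decide +kernel
def p14_16_0_250 : pfC (piC [(nat_lit 35755509), (nat_lit 23968959), (nat_lit 17897616), (nat_lit 12073119)] (nat_lit 21119649)) p14_16_0 (nat_lit 4) (nat_lit 250) (nat_lit 251) = true := by decide +kernel
def p14_16_0_251 : pfC (piC [(nat_lit 35755509), (nat_lit 23968959), (nat_lit 17897616), (nat_lit 12073119)] (nat_lit 21119649)) p14_16_0 (nat_lit 4) (nat_lit 251) (nat_lit 252) = true := by decide +kernel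
def p14_16_0_252 : pfC (piC [(nat_lit 35755509), (nat_lit 23968959), (nat_lit 17897616), (nat_lit 12073119)] (nat_lit 21119649)) p14_16_0 (nat_lit 4) (nat_lit 252) (nat_lit 253) = true := by decide +kernel
def p14_16_0_253 : pfC (piC [(nat_lit 35755509), (nat_lit 23968959), (nat_lit 17897616), (nat_lit 12073119)] (nat_lit 21119649)) p14_16_0 (nat_lit 4) (nat_lit 253) (nat_lit 254) = true := by decide +kernel
def p14_16_0_254 : pfC (piC [(nat_lit 35755509), (nat_lit 23968959), (nat_lit 17897616), (nat_lit 12073119)] (nat_lit 21119649)) p14_16_0 (nat_lit 4) (nat_lit 254) (nat_lit 255) = true := by decide +kernel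
def p14_16_0_255 : pfC (piC [(nat_lit 35755509), (nat_lit 23968959), (nat_lit 17897616), (nat_lit 12073119)] (nat_lit 21119649)) p14_16_0 (nat_lit 4) (nat_lit 255) (nat_lit 256) = true := by decide +kernel
def p14_16_0_256 : pfC (piC [(nat_lit 35755509), (nat_lit 23968959), (nat_lit 17897616), (nat_lit 12073119)] (nat_lit 21119649)) p14_16_0 (nat_lit 4) (nat_lit 256) (nat_lit 257) = true := by decide +kernel
def p14_16_0_257 : pfC (piC [(nat_lit 35755509), (nat_lit 23968959), (nat_lit 17897616), (nat_lit 12073119)] (nat_lit 21119649)) p14_16_0 (nat_lit 4) (nat_lit 257) (nat_lit 258) = true := by decide +kernel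
def p14_16_0_258 : pfC (piC [(nat_lit 35755509), (nat_lit 23968959), (nat_lit 17897616), (nat_lit 12073119)] (nat_lit 21119649)) p14_16_0 (nat_lit 4) (nat_lit 258) (nat_lit 259) = true := by decide +kernel
def p14_16_0_259 : pfC (piC [(nat_lit 35755509), (nat_lit 23968959), (nat_lit 17897616), (nat_lit 12073119)] (nat_lit 21119649)) p14_16_0 (nat_lit 4) (nat_lit 259) (nat_lit 260) = true := by decide +kernel
def p14_16_0_260 : pfC (piC [(nat_lit 35755509), (nat_lit 23968959), (nat_lit 17897616), (nat_lit 12073119)] (nat_lit 21119649)) p14_16_0 (nat_lit 4) (nat_lit 260) (nat_lit 261) = true := by decide +kernel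
def p14_16_0_261 : pfC (piC [(nat_lit 35755509), (nat_lit 23968959), (nat_lit 17897616), (nat_lit 12073119)] (nat_lit 21119649)) p14_16_0 (nat_lit 4) (nat_lit 261) (nat_lit 262) = true := by decide +kernel
def p14_16_0_262 : pfC (piC [(nat_lit 35755509), (nat_lit 23968959), (nat_lit 17897616), (nat_lit 12073119)] (nat_lit 21119649)) p14_16_0 (nat_lit 4) (nat_lit 262) (nat_lit 263) = true := by decide +kernel
def p14_16_0_263 : pfC (piC [(nat_lit 35755509), (nat_lit 23968959), (nat_lit 17897616), (nat_lit 12073119)] (nat_lit 21119649)) p14_16_0 (nat_lit 4) (nat_lit 263) (nat_lit 264) = true := by decide +kernel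
def p14_16_0_264 : pfC (piC [(nat_lit 35755509), (nat_lit 23968959), (nat_lit 17897616), (nat_lit 12073119)] (nat_lit 21119649)) p14_16_0 (nat_lit 4) (nat_lit 264) (nat_lit 265) = true := by decide +kernel
def p14_16_0_265 : pfC (piC [(nat_lit 35755509), (nat_lit 23968959), (nat_lit 17897616), (nat_lit 12073119)] (nat_lit 21119649)) p14_16_0 (nat_lit 4) (nat_lit 265) (nat_lit 266) = true := by decide +kernel
def p14_16_0_266 : pfC (piC [(nat_lit 35755509), (nat_lit 23968959), (nat_lit 17897616), (nat_lit 12073119)] (nat_lit 21119649)) p14_16_0 (nat_lit 4) (nat_lit 266) (nat_lit 267) = true := by decide +kernel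
def p14_16_0_267 : pfC (piC [(nat_lit 35755509), (nat_lit 23968959), (nat_lit 17897616), (nat_lit 12073119)] (nat_lit 21119649)) p14_16_0 (nat_lit 4) (nat_lit 267) (nat_lit 268) = true := by decide +kernel
def p14_16_0_268 : pfC (piC [(nat_lit 35755509), (nat_lit 23968959), (nat_lit 17897616), (nat_lit 12073119)] (nat_lit 21119649)) p14_16_0 (nat_lit 4) (nat_lit 268) (nat_lit 269) = true := by decide +kernel
def p14_16_0_269 : pfC (piC [(nat_lit 35755509), (nat_lit 23968959), (nat_lit 17897616), (nat_lit 12073119)] (nat_lit 21119649)) p14_16_0 (nat_lit 4) (nat_lit 269) (nat_lit 270) = true := by decide +kernel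
def p14_16_0_270 : pfC (piC [(nat_lit 35755509), (nat_lit 23968959), (nat_lit 17897616), (nat_lit 12073119)] (nat_lit 21119649)) p14_16_0 (nat_lit 4) (nat_lit 270) (nat_lit 271) = true := by decide +kernel
def p14_16_0_271 : pfC (piC [(nat_lit 35755509), (nat_lit 23968959), (nat_lit 17897616), (nat_lit 12073119)] (nat_lit 21119649)) p14_16_0 (nat_lit 4) (nat_lit 271) (nat_lit 272) = true := by decide +kernel
def p14_16_0_272 : pfC (piC [(nat_lit 35755509), (nat_lit 23968959), (nat_lit 17897616), (nat_lit 12073119)] (nat_lit 21119649)) p14_16_0 (nat_lit 4) (nat_lit 272) (nat_lit 273) = true := by decide +kernel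
def p14_16_0_273 : pfC (piC [(nat_lit 35755509), (nat_lit 23968959), (nat_lit 17897616), (nat_lit 12073119)] (nat_lit 21119649)) p14_16_0 (nat_lit 4) (nat_lit 273) (nat_lit 274) = true := by decide +kernel
def p14_16_0_274 : pfC (piC [(nat_lit 35755509), (nat_lit 23968959), (nat_lit 17897616), (nat_lit 12073119)] (nat_lit 21119649)) p14_16_0 (nat_lit 4) (nat_lit 274) (nat_lit 275) = true := by decide +kernel
def p14_16_0_275 : pfC (piC [(nat_lit 35755509), (nat_lit 23968959), (nat_lit 17897616), (nat_lit 12073119)] (nat_lit 21119649)) p14_16_0 (nat_lit 4) (nat_lit 275) (nat_lit 276) = true := by decide +kernel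
def p14_16_0_276 : pfC (piC [(nat_lit 35755509), (nat_lit 23968959), (nat_lit 17897616), (nat_lit 12073119)] (nat_lit 21119649)) p14_16_0 (nat_lit 4) (nat_lit 276) (nat_lit 277) = true := by decide +kernel
def p14_16_0_277 : pfC (piC [(nat_lit 35755509), (nat_lit 23968959), (nat_lit 17897616), (nat_lit 12073119)] (nat_lit 21119649)) p14_16_0 (nat_lit 4) (nat_lit 277) (nat_lit 278) = true := by decide +kernel
def p14_16_0_278 : pfC (piC [(nat_lit 35755509), (nat_lit 23968959), (nat_lit 17897616), (nat_lit 12073119)] (nat_lit 21119649)) p14_16_0 (nat_lit 4) (nat_lit 278) (nat_lit 279) = true := by decide +kernel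
def p14_16_0_279 : pfC (piC [(nat_lit 35755509), (nat_lit 23968959), (nat_lit 17897616), (nat_lit 12073119)] (nat_lit 21119649)) p14_16_0 (nat_lit 4) (nat_lit 279) (nat_lit 280) = true := by decide +kernel
def p14_16_0_280 : pfC (piC [(nat_lit 35755509), (nat_lit 23968959), (nat_lit 17897616), (nat_lit 12073119)] (nat_lit 21119649)) p14_16_0 (nat_lit 4) (nat_lit 280) (nat_lit 281) = true := by decide +kernel
def p14_16_0_281 : pfC (piC [(nat_lit 35755509), (nat_lit 23968959), (nat_lit 17897616), (nat_lit 12073119)] (nat_lit 21119649)) p14_16_0 (nat_lit 4) (nat_lit 281) (nat_lit 282) = true := by decide +kernel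
def p14_16_0_282 : pfC (piC [(nat_lit 35755509), (nat_lit 23968959), (nat_lit 17897616), (nat_lit 12073119)] (nat_lit 21119649)) p14_16_0 (nat_lit 4) (nat_lit 282) (nat_lit 283) = true := by decide +kernel
def p14_16_0_283 : pfC (piC [(nat_lit 35755509), (nat_lit 23968959), (nat_lit 17897616), (nat_lit 12073119)] (nat_lit 21119649)) p14_16_0 (nat_lit 4) (nat_lit 283) (nat_lit 284) = true := by decide +kernel
def p14_16_0_284 : pfC (piC [(nat_lit 35755509), (nat_lit 23968959), (nat_lit 17897616), (nat_lit 12073119)] (nat_lit 21119649)) p14_16_0 (nat_lit 4) (nat_lit 284) (nat_lit 285) = true := by decide +kernel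
def p14_16_0_285 : pfC (piC [(nat_lit 35755509), (nat_lit 23968959), (nat_lit 17897616), (nat_lit 12073119)] (nat_lit 21119649)) p14_16_0 (nat_lit 4) (nat_lit 285) (nat_lit 286) = true := by decide +kernel
def p14_16_0_286 : pfC (piC [(nat_lit 35755509), (nat_lit 23968959), (nat_lit 17897616), (nat_lit 12073119)] (nat_lit 21119649)) p14_16_0 (nat_lit 4) (nat_lit 286) (nat_lit 287) = true := by decide +kernel
def p14_16_0_287 : pfC (piC [(nat_lit 35755509), (nat_lit 23968959), (nat_lit 17897616), (nat_lit 12073119)] (nat_lit 21119649)) p14_16_0 (nat_lit 4) (nat_lit 287) (nat_lit 288) = true := by decide +kernel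
def p14_16_0_288 : pfC (piC [(nat_lit 35755509), (nat_lit 23968959), (nat_lit 17897616), (nat_lit 12073119)] (nat_lit 21119649)) p14_16_0 (nat_lit 4) (nat_lit 288) (nat_lit 289) = true := by decide +kernel
def p14_16_0_289 : pfC (piC [(nat_lit 35755509), (nat_lit 23968959), (nat_lit 17897616), (nat_lit 12073119)] (nat_lit 21119649)) p14_16_0 (nat_lit 4) (nat_lit 289) (nat_lit 290) = true := by decide +kernel
def p14_16_0_290 : pfC (piC [(nat_lit 35755509), (nat_lit 23968959), (nat_lit 17897616), (nat_lit 12073119)] (nat_lit 21119649)) p14_16_0 (nat_lit 4) (nat_lit 290) (nat_lit 291) = true := by decide +kernel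
def p14_16_0_291 : pfC (piC [(nat_lit 35755509), (nat_lit 23968959), (nat_lit 17897616), (nat_lit 12073119)] (nat_lit 21119649)) p14_16_0 (nat_lit 4) (nat_lit 291) (nat_lit 292) = true := by decide +kernel
def p14_16_0_292 : pfC (piC [(nat_lit 35755509), (nat_lit 23968959), (nat_lit 17897616), (nat_lit 12073119)] (nat_lit 21119649)) p14_16_0 (nat_lit 4) (nat_lit 292) (nat_lit 293) = true := by decide +kernel
def p14_16_0_293 : pfC (piC [(nat_lit 35755509), (nat_lit 23968959), (nat_lit 17897616), (nat_lit 12073119)] (nat_lit 21119649)) p14_16_0 (nat_lit 4) (nat_lit 293) (nat_lit 294) = true := by decide +kernel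
def p14_16_0_294 : pfC (piC [(nat_lit 35755509), (nat_lit 23968959), (nat_lit 17897616), (nat_lit 12073119)] (nat_lit 21119649)) p14_16_0 (nat_lit 4) (nat_lit 294) (nat_lit 295) = true := by decide +kernel
def p14_16_0_295 : pfC (piC [(nat_lit 35755509), (nat_lit 23968959), (nat_lit 17897616), (nat_lit 12073119)] (nat_lit 21119649)) p14_16_0 (nat_lit 4) (nat_lit 295) (nat_lit 296) = true := by decide +kernel
def p14_16_0_296 : pfC (piC [(nat_lit 35755509), (nat_lit 23968959), (nat_lit 17897616), (nat_lit 12073119)] (nat_lit 21119649)) p14_16_0 (nat_lit 4) (nat_lit 296) (nat_lit 297) = true := by decide +kernel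
def p14_16_0_297 : pfC (piC [(nat_lit 35755509), (nat_lit 23968959), (nat_lit 17897616), (nat_lit 12073119)] (nat_lit 21119649)) p14_16_0 (nat_lit 4) (nat_lit 297) (nat_lit 298) = true := by decide +kernel
def p14_16_0_298 : pfC (piC [(nat_lit 35755509), (nat_lit 23968959), (nat_lit 17897616), (nat_lit 12073119)] (nat_lit 21119649)) p14_16_0 (nat_lit 4) (nat_lit 298) (nat_lit 299) = true := by decide +kernel
def p14_16_0_299 : pfC (piC [(nat_lit 35755509), (nat_lit 23968959), (nat_lit 17897616), (nat_lit 12073119)] (nat_lit 21119649)) p14_16_0 (nat_lit 4) (nat_lit 299) (nat_lit 300) = true := by decide +kernel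
def p14_16_0_300 : pfC (piC [(nat_lit 35755509), (nat_lit 23968959), (nat_lit 17897616), (nat_lit 12073119)] (nat_lit 21119649)) p14_16_0 (nat_lit 4) (nat_lit 300) (nat_lit 301) = true := by decide +kernel
def p14_16_0_301 : pfC (piC [(nat_lit 35755509), (nat_lit 23968959), (nat_lit 17897616), (nat_lit 12073119)] (nat_lit 21119649)) p14_16_0 (nat_lit 4) (nat_lit 301) (nat_lit 302) = true := by decide +kernel
def p14_16_0_302 : pfC (piC [(nat_lit 35755509), (nat_lit 23968959), (nat_lit 17897616), (nat_lit 12073119)] (nat_lit 21119649)) p14_16_0 (nat_lit 4) (nat_lit 302) (nat_lit 303) = true := by decide +kernel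
def p14_16_0_303 : pfC (piC [(nat_lit 35755509), (nat_lit 23968959), (nat_lit 17897616), (nat_lit 12073119)] (nat_lit 21119649)) p14_16_0 (nat_lit 4) (nat_lit 303) (nat_lit 304) = true := by decide +kernel
def p14_16_0_304 : pfC (piC [(nat_lit 35755509), (nat_lit 23968959), (nat_lit 17897616), (nat_lit 12073119)] (nat_lit 21119649)) p14_16_0 (nat_lit 4) (nat_lit 304) (nat_lit 305) = true := by decide +kernel
def p14_16_0_305 : pfC (piC [(nat_lit 35755509), (nat_lit 23968959), (nat_lit 17897616), (nat_lit 12073119)] (nat_lit 21119649)) p14_16_0 (nat_lit 4) (nat_lit 305) (nat_lit 306) = true := by decide +kernel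
def p14_16_0_306 : pfC (piC [(nat_lit 35755509), (nat_lit 23968959), (nat_lit 17897616), (nat_lit 12073119)] (nat_lit 21119649)) p14_16_0 (nat_lit 4) (nat_lit 306) (nat_lit 307) = true := by decide +kernel
def p14_16_0_307 : pfC (piC [(nat_lit 35755509), (nat_lit 23968959), (nat_lit 17897616), (nat_lit 12073119)] (nat_lit 21119649)) p14_16_0 (nat_lit 4) (nat_lit 307) (nat_lit 308) = true := by decide +kernel
def p14_16_0_308 : pfC (piC [(nat_lit 35755509), (nat_lit 23968959), (nat_lit 17897616), (nat_lit 12073119)] (nat_lit 21119649)) p14_16_0 (nat_lit 4) (nat_lit 308) (nat_lit 309) = true := by decide +kernel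
def p14_16_0_309 : pfC (piC [(nat_lit 35755509), (nat_lit 23968959), (nat_lit 17897616), (nat_lit 12073119)] (nat_lit 21119649)) p14_16_0 (nat_lit 4) (nat_lit 309) (nat_lit 310) = true := by decide +kernel
def p14_16_0_310 : pfC (piC [(nat_lit 35755509), (nat_lit 23968959), (nat_lit 17897616), (nat_lit 12073119)] (nat_lit 21119649)) p14_16_0 (nat_lit 4) (nat_lit 310) (nat_lit 311) = true := by decide +kernel
def p14_16_0_311 : pfC (piC [(nat_lit 35755509), (nat_lit 23968959), (nat_lit 17897616), (nat_lit 12073119)] (nat_lit 21119649)) p14_16_0 (nat_lit 4) (nat_lit 311) (nat_lit 312) = true := by decide +kernel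
def p14_16_0_312 : pfC (piC [(nat_lit 35755509), (nat_lit 23968959), (nat_lit 17897616), (nat_lit 12073119)] (nat_lit 21119649)) p14_16_0 (nat_lit 4) (nat_lit 312) (nat_lit 313) = true := by decide +kernel
def p14_16_0_313 : pfC (piC [(nat_lit 35755509), (nat_lit 23968959), (nat_lit 17897616), (nat_lit 12073119)] (nat_lit 21119649)) p14_16_0 (nat_lit 4) (nat_lit 313) (nat_lit 314) = true := by decide +kernel
def p14_16_0_314 : pfC (piC [(nat_lit 35755509), (nat_lit 23968959), (nat_lit 17897616), (nat_lit 12073119)] (nat_lit 21119649)) p14_16_0 (nat_lit 4) (nat_lit 314) (nat_lit 315) = true := by decide +kernel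
def p14_16_0_315 : pfC (piC [(nat_lit 35755509), (nat_lit 23968959), (nat_lit 17897616), (nat_lit 12073119)] (nat_lit 21119649)) p14_16_0 (nat_lit 4) (nat_lit 315) (nat_lit 316) = true := by decide +kernel
def p14_16_0_316 : pfC (piC [(nat_lit 35755509), (nat_lit 23968959), (nat_lit 17897616), (nat_lit 12073119)] (nat_lit 21119649)) p14_16_0 (nat_lit 4) (nat_lit 316) (nat_lit 317) = true := by decide +kernel
def p14_16_0_317 : pfC (piC [(nat_lit 35755509), (nat_lit 23968959), (nat_lit 17897616), (nat_lit 12073119)] (nat_lit 21119649)) p14_16_0 (nat_lit 4) (nat_lit 317) (nat_lit 318) = true := by decide +kernel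
def p14_16_0_318 : pfC (piC [(nat_lit 35755509), (nat_lit 23968959), (nat_lit 17897616), (nat_lit 12073119)] (nat_lit 21119649)) p14_16_0 (nat_lit 4) (nat_lit 318) (nat_lit 319) = true := by decide +kernel
def p14_16_0_319 : pfC (piC [(nat_lit 35755509), (nat_lit 23968959), (nat_lit 17897616), (nat_lit 12073119)] (nat_lit 21119649)) p14_16_0 (nat_lit 4) (nat_lit 319) (nat_lit 320) = true := by decide +kernel
def p14_16_0_320 : pfC (piC [(nat_lit 35755509), (nat_lit 23968959), (nat_lit 17897616), (nat_lit 12073119)] (nat_lit 21119649)) p14_16_0 (nat_lit 4) (nat_lit 320) (nat_lit 321) = true := by decide +kernel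
def p14_16_0_321 : pfC (piC [(nat_lit 35755509), (nat_lit 23968959), (nat_lit 17897616), (nat_lit 12073119)] (nat_lit 21119649)) p14_16_0 (nat_lit 4) (nat_lit 321) (nat_lit 322) = true := by decide +kernel
def p14_16_0_322 : pfC (piC [(nat_lit 35755509), (nat_lit 23968959), (nat_lit 17897616), (nat_lit 12073119)] (nat_lit 21119649)) p14_16_0 (nat_lit 4) (nat_lit 322) (nat_lit 323) = true := by decide +kernel
def p14_16_0_323 : pfC (piC [(nat_lit 35755509), (nat_lit 23968959), (nat_lit 17897616), (nat_lit 12073119)] (nat_lit 21119649)) p14_16_0 (nat_lit 4) (nat_lit 323) (nat_lit 324) = true := by decide +kernel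
def p14_16_0_324 : pfC (piC [(nat_lit 35755509), (nat_lit 23968959), (nat_lit 17897616), (nat_lit 12073119)] (nat_lit 21119649)) p14_16_0 (nat_lit 4) (nat_lit 324) (nat_lit 325) = true := by decide +kernel
def p14_16_0_325 : pfC (piC [(nat_lit 35755509), (nat_lit 23968959), (nat_lit 17897616), (nat_lit 12073119)] (nat_lit 21119649)) p14_16_0 (nat_lit 4) (nat_lit 325) (nat_lit 326) = true := by decide +kernel
def p14_16_0_326 : pfC (piC [(nat_lit 35755509), (nat_lit 23968959), (nat_lit 17897616), (nat_lit 12073119)] (nat_lit 21119649)) p14_16_0 (nat_lit 4) (nat_lit 326) (nat_lit 327) = true := by decide +kernel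
def p14_16_0_327 : pfC (piC [(nat_lit 35755509), (nat_lit 23968959), (nat_lit 17897616), (nat_lit 12073119)] (nat_lit 21119649)) p14_16_0 (nat_lit 4) (nat_lit 327) (nat_lit 328) = true := by decide +kernel
def p14_16_0_328 : pfC (piC [(nat_lit 35755509), (nat_lit 23968959), (nat_lit 17897616), (nat_lit 12073119)] (nat_lit 21119649)) p14_16_0 (nat_lit 4) (nat_lit 328) (nat_lit 329) = true := by decide +kernel
def p14_16_0_329 : pfC (piC [(nat_lit 35755509), (nat_lit 23968959), (nat_lit 17897616), (nat_lit 12073119)] (nat_lit 21119649)) p14_16_0 (nat_lit 4) (nat_lit 329) (nat_lit 330) = true := by decide +kernel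
def p14_16_0_330 : pfC (piC [(nat_lit 35755509), (nat_lit 23968959), (nat_lit 17897616), (nat_lit 12073119)] (nat_lit 21119649)) p14_16_0 (nat_lit 4) (nat_lit 330) (nat_lit 331) = true := by decide +kernel
def p14_16_0_331 : pfC (piC [(nat_lit 35755509), (nat_lit 23968959), (nat_lit 17897616), (nat_lit 12073119)] (nat_lit 21119649)) p14_16_0 (nat_lit 4) (nat_lit 331) (nat_lit 332) = true := by decide +kernel
def p14_16_0_332 : pfC (piC [(nat_lit 35755509), (nat_lit 23968959), (nat_lit 17897616), (nat_lit 12073119)] (nat_lit 21119649)) p14_16_0 (nat_lit 4) (nat_lit 332) (nat_lit 333) = true := by decide +kernel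
def p14_16_0_333 : pfC (piC [(nat_lit 35755509), (nat_lit 23968959), (nat_lit 17897616), (nat_lit 12073119)] (nat_lit 21119649)) p14_16_0 (nat_lit 4) (nat_lit 333) (nat_lit 334) = true := by decide +kernel
def p14_16_0_334 : pfC (piC [(nat_lit 35755509), (nat_lit 23968959), (nat_lit 17897616), (nat_lit 12073119)] (nat_lit 21119649)) p14_16_0 (nat_lit 4) (nat_lit 334) (nat_lit 335) = true := by decide +kernel
def p14_16_0_335 : pfC (piC [(nat_lit 35755509), (nat_lit 23968959), (nat_lit 17897616), (nat_lit 12073119)] (nat_lit 21119649)) p14_16_0 (nat_lit 4) (nat_lit 335) (nat_lit 336) = true := by decide +kernel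
def p14_16_0_336 : pfC (piC [(nat_lit 35755509), (nat_lit 23968959), (nat_lit 17897616), (nat_lit 12073119)] (nat_lit 21119649)) p14_16_0 (nat_lit 4) (nat_lit 336) (nat_lit 337) = true := by decide +kernel
def p14_16_0_337 : pfC (piC [(nat_lit 35755509), (nat_lit 23968959), (nat_lit 17897616), (nat_lit 12073119)] (nat_lit 21119649)) p14_16_0 (nat_lit 4) (nat_lit 337) (nat_lit 338) = true := by decide +kernel
def p14_16_0_338 : pfC (piC [(nat_lit 35755509), (nat_lit 23968959), (nat_lit 17897616), (nat_lit 12073119)] (nat_lit 21119649)) p14_16_0 (nat_lit 4) (nat_lit 338) (nat_lit 339) = true := by decide +kernel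
def p14_16_0_339 : pfC (piC [(nat_lit 35755509), (nat_lit 23968959), (nat_lit 17897616), (nat_lit 12073119)] (nat_lit 21119649)) p14_16_0 (nat_lit 4) (nat_lit 339) (nat_lit 340) = true := by decide +kernel
def p14_16_0_340 : pfC (piC [(nat_lit 35755509), (nat_lit 23968959), (nat_lit 17897616), (nat_lit 12073119)] (nat_lit 21119649)) p14_16_0 (nat_lit 4) (nat_lit 340) (nat_lit 341) = true := by decide +kernel
def p14_16_0_341 : pfC (piC [(nat_lit 35755509), (nat_lit 23968959), (nat_lit 17897616), (nat_lit 12073119)] (nat_lit 21119649)) p14_16_0 (nat_lit 4) (nat_lit 341) (nat_lit 342) = true := by decide +kernel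
def p14_16_0_342 : pfC (piC [(nat_lit 35755509), (nat_lit 23968959), (nat_lit 17897616), (nat_lit 12073119)] (nat_lit 21119649)) p14_16_0 (nat_lit 4) (nat_lit 342) (nat_lit 343) = true := by decide +kernel
def p14_16_0_343 : pfC (piC [(nat_lit 35755509), (nat_lit 23968959), (nat_lit 17897616), (nat_lit 12073119)] (nat_lit 21119649)) p14_16_0 (nat_lit 4) (nat_lit 343) (nat_lit 344) = true := by decide +kernel
def p14_16_0_344 : pfC (piC [(nat_lit 35755509), (nat_lit 23968959), (nat_lit 17897616), (nat_lit 12073119)] (nat_lit 21119649)) p14_16_0 (nat_lit 4) (nat_lit 344) (nat_lit 345) = true := by decide +kernel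
def p14_16_0_345 : pfC (piC [(nat_lit 35755509), (nat_lit 23968959), (nat_lit 17897616), (nat_lit 12073119)] (nat_lit 21119649)) p14_16_0 (nat_lit 4) (nat_lit 345) (nat_lit 346) = true := by decide +kernel
def p14_16_0_346 : pfC (piC [(nat_lit 35755509), (nat_lit 23968959), (nat_lit 17897616), (nat_lit 12073119)] (nat_lit 21119649)) p14_16_0 (nat_lit 4) (nat_lit 346) (nat_lit 347) = true := by decide +kernel
def p14_16_0_347 : pfC (piC [(nat_lit 35755509), (nat_lit 23968959), (nat_lit 17897616), (nat_lit 12073119)] (nat_lit 21119649)) p14_16_0 (nat_lit 4) (nat_lit 347) (nat_lit 348) = true := by decide +kernel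
def p14_16_0_348 : pfC (piC [(nat_lit 35755509), (nat_lit 23968959), (nat_lit 17897616), (nat_lit 12073119)] (nat_lit 21119649)) p14_16_0 (nat_lit 4) (nat_lit 348) (nat_lit 349) = true := by decide +kernel
def p14_16_0_349 : pfC (piC [(nat_lit 35755509), (nat_lit 23968959), (nat_lit 17897616), (nat_lit 12073119)] (nat_lit 21119649)) p14_16_0 (nat_lit 4) (nat_lit 349) (nat_lit 350) = true := by decide +kernel
def p14_16_0_350 : pfC (piC [(nat_lit 35755509), (nat_lit 23968959), (nat_lit 17897616), (nat_lit 12073119)] (nat_lit 21119649)) p14_16_0 (nat_lit 4) (nat_lit 350) (nat_lit 351) = true := by decide +kernel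
def p14_16_0_351 : pfC (piC [(nat_lit 35755509), (nat_lit 23968959), (nat_lit 17897616), (nat_lit 12073119)] (nat_lit 21119649)) p14_16_0 (nat_lit 4) (nat_lit 351) (nat_lit 352) = true := by decide +kernel
def p14_16_0_352 : pfC (piC [(nat_lit 35755509), (nat_lit 23968959), (nat_lit 17897616), (nat_lit 12073119)] (nat_lit 21119649)) p14_16_0 (nat_lit 4) (nat_lit 352) (nat_lit 353) = true := by decide +kernel
def p14_16_0_353 : pfC (piC [(nat_lit 35755509), (nat_lit 23968959), (nat_lit 17897616), (nat_lit 12073119)] (nat_lit 21119649)) p14_16_0 (nat_lit 4) (nat_lit 353) (nat_lit 354) = true := by decide +kernel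
def p14_16_0_354 : pfC (piC [(nat_lit 35755509), (nat_lit 23968959), (nat_lit 17897616), (nat_lit 12073119)] (nat_lit 21119649)) p14_16_0 (nat_lit 4) (nat_lit 354) (nat_lit 355) = true := by decide +kernel
def p14_16_0_355 : pfC (piC [(nat_lit 35755509), (nat_lit 23968959), (nat_lit 17897616), (nat_lit 12073119)] (nat_lit 21119649)) p14_16_0 (nat_lit 4) (nat_lit 355) (nat_lit 356) = true := by decide +kernel
def p14_16_0_356 : pfC (piC [(nat_lit 35755509), (nat_lit 23968959), (nat_lit 17897616), (nat_lit 12073119)] (nat_lit 21119649)) p14_16_0 (nat_lit 4) (nat_lit 356) (nat_lit 357) = true := by decide +kernel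
def p14_16_0_357 : pfC (piC [(nat_lit 35755509), (nat_lit 23968959), (nat_lit 17897616), (nat_lit 12073119)] (nat_lit 21119649)) p14_16_0 (nat_lit 4) (nat_lit 357) (nat_lit 358) = true := by decide +kernel
def p14_16_0_358 : pfC (piC [(nat_lit 35755509), (nat_lit 23968959), (nat_lit 17897616), (nat_lit 12073119)] (nat_lit 21119649)) p14_16_0 (nat_lit 4) (nat_lit 358) (nat_lit 359) = true := by decide +kernel
def p14_16_0_359 : pfC (piC [(nat_lit 35755509), (nat_lit 23968959), (nat_lit 17897616), (nat_lit 12073119)] (nat_lit 21119649)) p14_16_0 (nat_lit 4) (nat_lit 359) (nat_lit 360) = true := by decide +kernel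
def p14_16_0_360 : pfC (piC [(nat_lit 35755509), (nat_lit 23968959), (nat_lit 17897616), (nat_lit 12073119)] (nat_lit 21119649)) p14_16_0 (nat_lit 4) (nat_lit 360) (nat_lit 361) = true := by decide +kernel
def p14_16_0_361 : pfC (piC [(nat_lit 35755509), (nat_lit 23968959), (nat_lit 17897616), (nat_lit 12073119)] (nat_lit 21119649)) p14_16_0 (nat_lit 4) (nat_lit 361) (nat_lit 362) = true := by decide +kernel
def p14_16_0_362 : pfC (piC [(nat_lit 35755509), (nat_lit 23968959), (nat_lit 17897616), (nat_lit 12073119)] (nat_lit 21119649)) p14_16_0 (nat_lit 4) (nat_lit 362) (nat_lit 363) = true := by decide +kernel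
def p14_16_0_363 : pfC (piC [(nat_lit 35755509), (nat_lit 23968959), (nat_lit 17897616), (nat_lit 12073119)] (nat_lit 21119649)) p14_16_0 (nat_lit 4) (nat_lit 363) (nat_lit 364) = true := by decide +kernel
def p14_16_0_364 : pfC (piC [(nat_lit 35755509), (nat_lit 23968959), (nat_lit 17897616), (nat_lit 12073119)] (nat_lit 21119649)) p14_16_0 (nat_lit 4) (nat_lit 364) (nat_lit 365) = true := by decide +kernel
def p14_16_0_365 : pfC (piC [(nat_lit 35755509), (nat_lit 23968959), (nat_lit 17897616), (nat_lit 12073119)] (nat_lit 21119649)) p14_16_0 (nat_lit 4) (nat_lit 365) (nat_lit 366) = true := by decide +kernel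
def p14_16_0_366 : pfC (piC [(nat_lit 35755509), (nat_lit 23968959), (nat_lit 17897616), (nat_lit 12073119)] (nat_lit 21119649)) p14_16_0 (nat_lit 4) (nat_lit 366) (nat_lit 367) = true := by decide +kernel
def p14_16_0_367 : pfC (piC [(nat_lit 35755509), (nat_lit 23968959), (nat_lit 17897616), (nat_lit 12073119)] (nat_lit 21119649)) p14_16_0 (nat_lit 4) (nat_lit 367) (nat_lit 368) = true := by decide +kernel
def p14_16_0_368 : pfC (piC [(nat_lit 35755509), (nat_lit 23968959), (nat_lit 17897616), (nat_lit 12073119)] (nat_lit 21119649)) p14_16_0 (nat_lit 4) (nat_lit 368) (nat_lit 369) = true := by decide +kernel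
def p14_16_0_369 : pfC (piC [(nat_lit 35755509), (nat_lit 23968959), (nat_lit 17897616), (nat_lit 12073119)] (nat_lit 21119649)) p14_16_0 (nat_lit 4) (nat_lit 369) (nat_lit 370) = true := by decide +kernel
def p14_16_0_370 : pfC (piC [(nat_lit 35755509), (nat_lit 23968959), (nat_lit 17897616), (nat_lit 12073119)] (nat_lit 21119649)) p14_16_0 (nat_lit 4) (nat_lit 370) (nat_lit 371) = true := by decide +kernel
def p14_16_0_371 : pfC (piC [(nat_lit 35755509), (nat_lit 23968959), (nat_lit 17897616), (nat_lit 12073119)] (nat_lit 21119649)) p14_16_0 (nat_lit 4) (nat_lit 371) (nat_lit 372) = true := by decide +kernel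
def p14_16_0_372 : pfC (piC [(nat_lit 35755509), (nat_lit 23968959), (nat_lit 17897616), (nat_lit 12073119)] (nat_lit 21119649)) p14_16_0 (nat_lit 4) (nat_lit 372) (nat_lit 373) = true := by decide +kernel
def p14_16_0_373 : pfC (piC [(nat_lit 35755509), (nat_lit 23968959), (nat_lit 17897616), (nat_lit 12073119)] (nat_lit 21119649)) p14_16_0 (nat_lit 4) (nat_lit 373) (nat_lit 374) = true := by decide +kernel
def p14_16_0_374 : pfC (piC [(nat_lit 35755509), (nat_lit 23968959), (nat_lit 17897616), (nat_lit 12073119)] (nat_lit 21119649)) p14_16_0 (nat_lit 4) (nat_lit 374) (nat_lit 375) = true := by decide +kernel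
def p14_16_0_375 : pfC (piC [(nat_lit 35755509), (nat_lit 23968959), (nat_lit 17897616), (nat_lit 12073119)] (nat_lit 21119649)) p14_16_0 (nat_lit 4) (nat_lit 375) (nat_lit 376) = true := by decide +kernel
def p14_16_0_376 : pfC (piC [(nat_lit 35755509), (nat_lit 23968959), (nat_lit 17897616), (nat_lit 12073119)] (nat_lit 21119649)) p14_16_0 (nat_lit 4) (nat_lit 376) (nat_lit 377) = true := by decide +kernel
def p14_16_0_377 : pfC (piC [(nat_lit 35755509), (nat_lit 23968959), (nat_lit 17897616), (nat_lit 12073119)] (nat_lit 21119649)) p14_16_0 (nat_lit 4) (nat_lit 377) (nat_lit 378) = true := by decide +kernel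
def p14_16_0_378 : pfC (piC [(nat_lit 35755509), (nat_lit 23968959), (nat_lit 17897616), (nat_lit 12073119)] (nat_lit 21119649)) p14_16_0 (nat_lit 4) (nat_lit 378) (nat_lit 379) = true := by decide +kernel
def p14_16_0_379 : pfC (piC [(nat_lit 35755509), (nat_lit 23968959), (nat_lit 17897616), (nat_lit 12073119)] (nat_lit 21119649)) p14_16_0 (nat_lit 4) (nat_lit 379) (nat_lit 380) = true := by decide +kernel
def p14_16_0_380 : pfC (piC [(nat_lit 35755509), (nat_lit 23968959), (nat_lit 17897616), (nat_lit 12073119)] (nat_lit 21119649)) p14_16_0 (nat_lit 4) (nat_lit 380) (nat_lit 381) = true := by decide +kernel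
def p14_16_0_381 : pfC (piC [(nat_lit 35755509), (nat_lit 23968959), (nat_lit 17897616), (nat_lit 12073119)] (nat_lit 21119649)) p14_16_0 (nat_lit 4) (nat_lit 381) (nat_lit 382) = true := by decide +kernel
def p14_16_0_382 : pfC (piC [(nat_lit 35755509), (nat_lit 23968959), (nat_lit 17897616), (nat_lit 12073119)] (nat_lit 21119649)) p14_16_0 (nat_lit 4) (nat_lit 382) (nat_lit 383) = true := by decide +kernel
def p14_16_0_383 : pfC (piC [(nat_lit 35755509), (nat_lit 23968959), (nat_lit 17897616), (nat_lit 12073119)] (nat_lit 21119649)) p14_16_0 (nat_lit 4) (nat_lit 383) (nat_lit 384) = true := by decide +kernel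
def p14_16_0_384 : pfC (piC [(nat_lit 35755509), (nat_lit 23968959), (nat_lit 17897616), (nat_lit 12073119)] (nat_lit 21119649)) p14_16_0 (nat_lit 4) (nat_lit 384) (nat_lit 385) = true := by decide +kernel
def p14_16_0_385 : pfC (piC [(nat_lit 35755509), (nat_lit 23968959), (nat_lit 17897616), (nat_lit 12073119)] (nat_lit 21119649)) p14_16_0 (nat_lit 4) (nat_lit 385) (nat_lit 386) = true := by decide +kernel
def p14_16_0_386 : pfC (piC [(nat_lit 35755509), (nat_lit 23968959), (nat_lit 17897616), (nat_lit 12073119)] (nat_lit 21119649)) p14_16_0 (nat_lit 4) (nat_lit 386) (nat_lit 387) = true := by decide +kernel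
def p14_16_0_387 : pfC (piC [(nat_lit 35755509), (nat_lit 23968959), (nat_lit 17897616), (nat_lit 12073119)] (nat_lit 21119649)) p14_16_0 (nat_lit 4) (nat_lit 387) (nat_lit 388) = true := by decide +kernel
def p14_16_0_388 : pfC (piC [(nat_lit 35755509), (nat_lit 23968959), (nat_lit 17897616), (nat_lit 12073119)] (nat_lit 21119649)) p14_16_0 (nat_lit 4) (nat_lit 388) (nat_lit 389) = true := by decide +kernel
def p14_16_0_389 : pfC (piC [(nat_lit 35755509), (nat_lit 23968959), (nat_lit 17897616), (nat_lit 12073119)] (nat_lit 21119649)) p14_16_0 (nat_lit 4) (nat_lit 389) (nat_lit 390) = true := by decide +kernel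
def p14_16_0_390 : pfC (piC [(nat_lit 35755509), (nat_lit 23968959), (nat_lit 17897616), (nat_lit 12073119)] (nat_lit 21119649)) p14_16_0 (nat_lit 4) (nat_lit 390) (nat_lit 391) = true := by decide +kernel
def p14_16_0_391 : pfC (piC [(nat_lit 35755509), (nat_lit 23968959), (nat_lit 17897616), (nat_lit 12073119)] (nat_lit 21119649)) p14_16_0 (nat_lit 4) (nat_lit 391) (nat_lit 392) = true := by decide +kernel
def p14_16_0_392 : pfC (piC [(nat_lit 35755509), (nat_lit 23968959), (nat_lit 17897616), (nat_lit 12073119)] (nat_lit 21119649)) p14_16_0 (nat_lit 4) (nat_lit 392) (nat_lit 393) = true := by decide +kernel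
def p14_16_0_393 : pfC (piC [(nat_lit 35755509), (nat_lit 23968959), (nat_lit 17897616), (nat_lit 12073119)] (nat_lit 21119649)) p14_16_0 (nat_lit 4) (nat_lit 393) (nat_lit 394) = true := by decide +kernel
def p14_16_0_394 : pfC (piC [(nat_lit 35755509), (nat_lit 23968959), (nat_lit 17897616), (nat_lit 12073119)] (nat_lit 21119649)) p14_16_0 (nat_lit 4) (nat_lit 394) (nat_lit 395) = true := by decide +kernel
def p14_16_0_395 : pfC (piC [(nat_lit 35755509), (nat_lit 23968959), (nat_lit 17897616), (nat_lit 12073119)] (nat_lit 21119649)) p14_16_0 (nat_lit 4) (nat_lit 395) (nat_lit 396) = true := by decide +kernel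
def p14_16_0_396 : pfC (piC [(nat_lit 35755509), (nat_lit 23968959), (nat_lit 17897616), (nat_lit 12073119)] (nat_lit 21119649)) p14_16_0 (nat_lit 4) (nat_lit 396) (nat_lit 397) = true := by decide +kernel
def p14_16_0_397 : pfC (piC [(nat_lit 35755509), (nat_lit 23968959), (nat_lit 17897616), (nat_lit 12073119)] (nat_lit 21119649)) p14_16_0 (nat_lit 4) (nat_lit 397) (nat_lit 398) = true := by decide +kernel
def p14_16_0_398 : pfC (piC [(nat_lit 35755509), (nat_lit 23968959), (nat_lit 17897616), (nat_lit 12073119)] (nat_lit 21119649)) p14_16_0 (nat_lit 4) (nat_lit 398) (nat_lit 399) = true := by decide +kernel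
def p14_16_0_399 : pfC (piC [(nat_lit 35755509), (nat_lit 23968959), (nat_lit 17897616), (nat_lit 12073119)] (nat_lit 21119649)) p14_16_0 (nat_lit 4) (nat_lit 399) (nat_lit 400) = true := by decide +kernel
def p14_16_0_400 : pfC (piC [(nat_lit 35755509), (nat_lit 23968959), (nat_lit 17897616), (nat_lit 12073119)] (nat_lit 21119649)) p14_16_0 (nat_lit 4) (nat_lit 400) (nat_lit 401) = true := by decide +kernel
def p14_16_0_401 : pfC (piC [(nat_lit 35755509), (nat_lit 23968959), (nat_lit 17897616), (nat_lit 12073119)] (nat_lit 21119649)) p14_16_0 (nat_lit 4) (nat_lit 401) (nat_lit 402) = true := by decide +kernel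
def p14_16_0_402 : pfC (piC [(nat_lit 35755509), (nat_lit 23968959), (nat_lit 17897616), (nat_lit 12073119)] (nat_lit 21119649)) p14_16_0 (nat_lit 4) (nat_lit 402) (nat_lit 403) = true := by decide +kernel
def p14_16_0_403 : pfC (piC [(nat_lit 35755509), (nat_lit 23968959), (nat_lit 17897616), (nat_lit 12073119)] (nat_lit 21119649)) p14_16_0 (nat_lit 4) (nat_lit 403) (nat_lit 404) = true := by decide +kernel
def p14_16_0_404 : pfC (piC [(nat_lit 35755509), (nat_lit 23968959), (nat_lit 17897616), (nat_lit 12073119)] (nat_lit 21119649)) p14_16_0 (nat_lit 4) (nat_lit 404) (nat_lit 405) = true := by decide +kernel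
def p14_16_0_405 : pfC (piC [(nat_lit 35755509), (nat_lit 23968959), (nat_lit 17897616), (nat_lit 12073119)] (nat_lit 21119649)) p14_16_0 (nat_lit 4) (nat_lit 405) (nat_lit 406) = true := by decide +kernel
def p14_16_0_406 : pfC (piC [(nat_lit 35755509), (nat_lit 23968959), (nat_lit 17897616), (nat_lit 12073119)] (nat_lit 21119649)) p14_16_0 (nat_lit 4) (nat_lit 406) (nat_lit 407) = true := by decide +kernel
def p14_16_0_407 : pfC (piC [(nat_lit 35755509), (nat_lit 23968959), (nat_lit 17897616), (nat_lit 12073119)] (nat_lit 21119649)) p14_16_0 (nat_lit 4) (nat_lit 407) (nat_lit 408) = true := by decide +kernel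
theorem p14_16_0_T : PfS (PiF n14_16.reverse (nat_lit 21119649)) p14_16_0 (nat_lit 4) [] 0 :=
  pftab_of (los := [(nat_lit 35755509), (nat_lit 23968959), (nat_lit 17897616), (nat_lit 12073119)]) (by decide +kernel) (hi := (nat_lit 408)) (PfP.trans (PfP.trans (PfP.trans (PfP.trans (PfP.trans (PfP.trans (PfP.trans (PfP.trans (PfP.trans (PfP.trans (PfP.trans (PfP.trans (PfP.trans (PfP.trans (PfP.trans (PfP.trans (PfP.trans (PfP.trans (PfP.trans (PfP.trans (PfP.trans (PfP.trans (PfP.trans (PfP.trans (PfP.trans (PfP.trans (PfP.trans (PfP.trans (PfP.trans (PfP.trans (PfP.trans (PfP.trans (PfP.trans (PfP.trans (PfP.trans (PfP.trans (PfP.trans (PfP.trans (PfP.trans (PfP.trans (PfP.trans (PfP.trans (PfP.trans (PfP.trans (PfP.trans (PfP.trans (PfP.trans (PfP.trans (PfP.trans (PfP.trans (PfP.trans (PfP.trans (PfP.trans (PfP.trans (PfP.trans (PfP.trans (PfP.trans (PfP.trans (PfP.trans (PfP.trans (PfP.trans (PfP.trans (PfP.trans (PfP.trans (PfP.trans (PfP.trans (PfP.trans (PfP.trans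 (PfP.trans (PfP.trans (PfP.trans (PfP.trans (PfP.trans (PfP.trans (PfP.trans (PfP.trans (PfP.trans (PfP.trans (PfP.trans (PfP.trans (PfP.trans (PfP.trans (PfP.trans (PfP.trans (PfP.trans (PfP.trans (PfP.trans (PfP.trans (PfP.trans (PfP.trans (PfP.trans (PfP.trans (PfP.trans (PfP.trans (PfP.trans (PfP.trans (PfP.trans (PfP.trans (PfP.trans (PfP.trans (PfP.trans (PfP.trans (PfP.trans (PfP.trans (PfP.trans (PfP.trans (PfP.trans (PfP.trans (PfP.trans
 (PfP.trans (PfP.trans (PfP.trans (PfP.trans (PfP.trans (PfP.trans (PfP.trans (PfP.trans (PfP.trans (PfP.trans (PfP.trans (PfP.trans (PfP.trans (PfP.trans (PfP.trans (PfP.trans (PfP.trans (PfP.trans (PfP.trans (PfP.trans (PfP.trans (PfP.trans (PfP.trans (PfP.trans (PfP.trans (PfP.trans (PfP.trans (PfP.trans (PfP.trans (PfP.trans (PfP.trans (PfP.trans (PfP.trans (PfP.trans (PfP.trans (PfP.trans (PfP.trans (PfP.trans (PfP.trans (PfP.trans (PfP.trans (PfP.trans (PfP.trans (PfP.trans (PfP.trans (PfP.trans (PfP.trans (PfP.trans (PfP.trans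 (PfP.trans (PfP.trans (PfP.trans (PfP.trans (PfP.trans (PfP.trans (PfP.trans (PfP.trans (PfP.trans (PfP.trans (PfP.trans (PfP.trans (PfP.trans (PfP.trans (PfP.trans (PfP.trans (PfP.trans (PfP.trans (PfP.trans (PfP.trans (PfP.trans (PfP.trans (PfP.trans (PfP.trans (PfP.trans (PfP.trans (PfP.trans (PfP.trans (PfP.trans (PfP.trans (PfP.trans (PfP.trans (PfP.trans (PfP.trans (PfP.trans (PfP.trans (PfP.trans (PfP.trans (PfP.trans (PfP.trans (PfP.trans (PfP.trans (PfP.trans (PfP.trans (PfP.trans (PfP.trans (PfP.trans (PfP.trans (PfP.trans (PfP.trans (PfP.trans (PfP.trans (PfP.trans (PfP.trans (PfP.trans (PfP.trans (PfP.trans (PfP.trans (PfP.trans (PfP.trans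
 (PfP.trans (PfP.trans (PfP.trans (PfP.trans (PfP.trans (PfP.trans (PfP.trans (PfP.trans (PfP.trans (PfP.trans (PfP.trans (PfP.trans (PfP.trans (PfP.trans (PfP.trans (PfP.trans (PfP.trans (PfP.trans (PfP.trans (PfP.trans (PfP.trans (PfP.trans (PfP.trans (PfP.trans (PfP.trans (PfP.trans (PfP.trans (PfP.trans (PfP.trans (PfP.trans (PfP.trans (PfP.trans (PfP.trans (PfP.trans (PfP.trans (PfP.trans (PfP.trans (PfP.trans (PfP.trans (PfP.trans (PfP.trans (PfP.trans (PfP.trans (PfP.trans (PfP.trans (PfP.trans (PfP.trans (PfP.trans (PfP.trans (PfP.trans (PfP.trans (PfP.trans (PfP.trans (PfP.trans (PfP.trans (PfP.trans (PfP.trans (PfP.trans (PfP.trans (PfP.trans (PfP.trans (PfP.trans (PfP.trans (PfP.trans (PfP.trans (PfP.trans (PfP.trans (PfP.trans (PfP.trans (PfP.trans (PfP.trans (PfP.trans (PfP.trans (PfP.trans (PfP.trans (PfP.trans (PfP.trans (PfP.trans (PfP.trans (PfP.trans (PfP.trans (PfP.trans (PfP.trans (PfP.trans (PfP.trans (PfP.trans (PfP.trans (PfP.trans (PfP.trans (PfP.trans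 (PfP.trans (PfP.trans (PfP.trans (PfP.trans (PfP.trans (PfP.trans (PfP.trans (PfP.trans (PfP.trans (PfP.trans (PfP.trans (PfP.trans (PfP.trans (PfP.trans (PfP.trans (PfP.trans (PfP.trans (PfP.trans (PfP.trans
 (PfP.trans (PfP.trans (PfP.trans (PfP.trans (PfP.trans (PfP.trans (PfP.trans (PfP.trans (PfP.trans (PfP.trans (PfP.trans (PfP.trans (PfP.trans (PfP.trans (PfP.trans (PfP.trans (PfP.trans (PfP.trans (PfP.trans (PfP.trans (PfP.trans (PfP.trans (PfP.trans (PfP.trans (PfP.trans (PfP.trans (PfP.trans (PfP.trans (PfP.trans (PfP.trans (PfP.trans (PfP.trans (PfP.trans (PfP.trans (PfP.trans (PfP.trans (PfP.trans (PfP.trans (PfP.trans (PfP.trans (PfP.trans (PfP.trans (PfP.trans (PfP.trans (PfP.trans (PfP.trans (PfP.trans (PfP.trans (PfP.trans (PfP.trans (PfP.trans (PfP.trans (PfP.trans (PfP.trans (PfP.trans (PfP.trans (PfP.trans (PfP.trans (PfP.trans (PfP.trans (PfP.trans (PfP.trans (PfP.trans (PfP.trans (PfP.trans (PfP.trans (PfP.trans (PfP.trans (PfP.trans (PfP.trans (PfP.trans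 (PfP.trans (PfP.trans (PfP.trans (PfP.trans (PfP.trans (PfP.trans (PfP.trans (PfP.trans (PfP.trans (pfC_sound p14_16_0_0) (pfC_sound p14_16_0_1)) (pfC_sound p14_16_0_2)) (pfC_sound p14_16_0_3)) (pfC_sound p14_16_0_4)) (pfC_sound p14_16_0_5)) (pfC_sound p14_16_0_6)) (pfC_sound p14_16_0_7)) (pfC_sound p14_16_0_8)) (pfC_sound p14_16_0_9)) (pfC_sound p14_16_0_10)) (pfC_sound p14_16_0_11)) (pfC_sound p14_16_0_12))
 (pfC_sound p14_16_0_13)) (pfC_sound p14_16_0_14)) (pfC_sound p14_16_0_15)) (pfC_sound p14_16_0_16)) (pfC_sound p14_16_0_17)) (pfC_sound p14_16_0_18)) (pfC_sound p14_16_0_19)) (pfC_sound p14_16_0_20)) (pfC_sound p14_16_0_21)) (pfC_sound p14_16_0_22)) (pfC_sound p14_16_0_23)) (pfC_sound p14_16_0_24)) (pfC_sound p14_16_0_25)) (pfC_sound p14_16_0_26)) (pfC_sound p14_16_0_27)) (pfC_sound p14_16_0_28)) (pfC_sound p14_16_0_29)) (pfC_sound p14_16_0_30)) (pfC_sound p14_16_0_31)) (pfC_sound p14_16_0_32)) (pfC_sound p14_16_0_33)) (pfC_sound p14_16_0_34)) (pfC_sound p14_16_0_35))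 (pfC_sound p14_16_0_36)) (pfC_sound p14_16_0_37)) (pfC_sound p14_16_0_38)) (pfC_sound p14_16_0_39)) (pfC_sound p14_16_0_40)) (pfC_sound p14_16_0_41)) (pfC_sound p14_16_0_42)) (pfC_sound p14_16_0_43)) (pfC_sound p14_16_0_44)) (pfC_sound p14_16_0_45)) (pfC_sound p14_16_0_46)) (pfC_sound p14_16_0_47)) (pfC_sound p14_16_0_48)) (pfC_sound p14_16_0_49)) (pfC_sound p14_16_0_50)) (pfC_sound p14_16_0_51)) (pfC_sound p14_16_0_52)) (pfC_sound p14_16_0_53)) (pfC_sound p14_16_0_54)) (pfC_sound p14_16_0_55)) (pfC_sound p14_16_0_56)) (pfC_sound p14_16_0_57)) (pfC_sound p14_16_0_58)) (pfC_sound p14_16_0_59)) (pfC_sound p14_16_0_60))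
 (pfC_sound p14_16_0_61)) (pfC_sound p14_16_0_62)) (pfC_sound p14_16_0_63)) (pfC_sound p14_16_0_64)) (pfC_sound p14_16_0_65)) (pfC_sound p14_16_0_66)) (pfC_sound p14_16_0_67)) (pfC_sound p14_16_0_68)) (pfC_sound p14_16_0_69)) (pfC_sound p14_16_0_70)) (pfC_sound p14_16_0_71)) (pfC_sound p14_16_0_72)) (pfC_sound p14_16_0_73)) (pfC_sound p14_16_0_74)) (pfC_sound p14_16_0_75)) (pfC_sound p14_16_0_76)) (pfC_sound p14_16_0_77)) (pfC_sound p14_16_0_78)) (pfC_sound p14_16_0_79)) (pfC_sound p14_16_0_80)) (pfC_sound p14_16_0_81)) (pfC_sound p14_16_0_82)) (pfC_sound p14_16_0_83)) (pfC_sound p14_16_0_84)) (pfC_sound p14_16_0_85)) (pfC_sound p14_16_0_86)) (pfC_sound p14_16_0_87)) (pfC_sound p14_16_0_88)) (pfC_sound p14_16_0_89)) (pfC_sound p14_16_0_90)) (pfC_sound p14_16_0_91)) (pfC_sound p14_16_0_92)) (pfC_sound p14_16_0_93)) (pfC_sound p14_16_0_94)) (pfC_sound p14_16_0_95)) (pfC_sound p14_16_0_96)) (pfC_sound p14_16_0_97)) (pfC_sound p14_16_0_98)) (pfC_sound p14_16_0_99)) (pfC_sound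 p14_16_0_100)) (pfC_sound p14_16_0_101)) (pfC_sound p14_16_0_102)) (pfC_sound p14_16_0_103)) (pfC_sound p14_16_0_104)) (pfC_sound p14_16_0_105)) (pfC_sound p14_16_0_106)) (pfC_sound p14_16_0_107)) (pfC_sound
 p14_16_0_108)) (pfC_sound p14_16_0_109)) (pfC_sound p14_16_0_110)) (pfC_sound p14_16_0_111)) (pfC_sound p14_16_0_112)) (pfC_sound p14_16_0_113)) (pfC_sound p14_16_0_114)) (pfC_sound p14_16_0_115)) (pfC_sound p14_16_0_116)) (pfC_sound p14_16_0_117)) (pfC_sound p14_16_0_118)) (pfC_sound p14_16_0_119)) (pfC_sound p14_16_0_120)) (pfC_sound p14_16_0_121)) (pfC_sound p14_16_0_122)) (pfC_sound p14_16_0_123)) (pfC_sound p14_16_0_124)) (pfC_sound p14_16_0_125)) (pfC_sound p14_16_0_126)) (pfC_sound p14_16_0_127)) (pfC_sound p14_16_0_128)) (pfC_sound p14_16_0_129)) (pfC_sound p14_16_0_130)) (pfC_sound p14_16_0_131)) (pfC_sound p14_16_0_132)) (pfC_sound p14_16_0_133)) (pfC_sound p14_16_0_134)) (pfC_sound p14_16_0_135)) (pfC_sound p14_16_0_136)) (pfC_sound p14_16_0_137)) (pfC_sound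 p14_16_0_138)) (pfC_sound p14_16_0_139)) (pfC_sound p14_16_0_140)) (pfC_sound p14_16_0_141)) (pfC_sound p14_16_0_142)) (pfC_sound p14_16_0_143)) (pfC_sound p14_16_0_144)) (pfC_sound p14_16_0_145)) (pfC_sound p14_16_0_146)) (pfC_sound p14_16_0_147)) (pfC_sound p14_16_0_148)) (pfC_sound p14_16_0_149)) (pfC_sound p14_16_0_150)) (pfC_sound p14_16_0_151)) (pfC_sound p14_16_0_152)) (pfC_sound p14_16_0_153)) (pfC_sound
 p14_16_0_154)) (pfC_sound p14_16_0_155)) (pfC_sound p14_16_0_156)) (pfC_sound p14_16_0_157)) (pfC_sound p14_16_0_158)) (pfC_sound p14_16_0_159)) (pfC_sound p14_16_0_160)) (pfC_sound p14_16_0_161)) (pfC_sound p14_16_0_162)) (pfC_sound p14_16_0_163)) (pfC_sound p14_16_0_164)) (pfC_sound p14_16_0_165)) (pfC_sound p14_16_0_166)) (pfC_sound p14_16_0_167)) (pfC_sound p14_16_0_168)) (pfC_sound p14_16_0_169)) (pfC_sound p14_16_0_170)) (pfC_sound p14_16_0_171)) (pfC_sound p14_16_0_172)) (pfC_sound p14_16_0_173)) (pfC_sound p14_16_0_174)) (pfC_sound p14_16_0_175)) (pfC_sound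 p14_16_0_176)) (pfC_sound p14_16_0_177)) (pfC_sound p14_16_0_178)) (pfC_sound p14_16_0_179)) (pfC_sound p14_16_0_180)) (pfC_sound p14_16_0_181)) (pfC_sound p14_16_0_182)) (pfC_sound p14_16_0_183)) (pfC_sound p14_16_0_184)) (pfC_sound p14_16_0_185)) (pfC_sound p14_16_0_186)) (pfC_sound p14_16_0_187)) (pfC_sound p14_16_0_188)) (pfC_sound p14_16_0_189)) (pfC_sound p14_16_0_190)) (pfC_sound p14_16_0_191)) (pfC_sound p14_16_0_192)) (pfC_sound p14_16_0_193)) (pfC_sound p14_16_0_194)) (pfC_sound p14_16_0_195)) (pfC_sound p14_16_0_196)) (pfC_sound p14_16_0_197)) (pfC_sound p14_16_0_198)) (pfC_sound p14_16_0_199)) (pfC_sound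
 p14_16_0_200)) (pfC_sound p14_16_0_201)) (pfC_sound p14_16_0_202)) (pfC_sound p14_16_0_203)) (pfC_sound p14_16_0_204)) (pfC_sound p14_16_0_205)) (pfC_sound p14_16_0_206)) (pfC_sound p14_16_0_207)) (pfC_sound p14_16_0_208)) (pfC_sound p14_16_0_209)) (pfC_sound p14_16_0_210)) (pfC_sound p14_16_0_211)) (pfC_sound p14_16_0_212)) (pfC_sound p14_16_0_213)) (pfC_sound p14_16_0_214)) (pfC_sound p14_16_0_215)) (pfC_sound p14_16_0_216)) (pfC_sound p14_16_0_217)) (pfC_sound p14_16_0_218)) (pfC_sound p14_16_0_219)) (pfC_sound p14_16_0_220)) (pfC_sound p14_16_0_221)) (pfC_sound p14_16_0_222)) (pfC_sound p14_16_0_223)) (pfC_sound p14_16_0_224)) (pfC_sound p14_16_0_225)) (pfC_sound p14_16_0_226)) (pfC_sound p14_16_0_227)) (pfC_sound p14_16_0_228)) (pfC_sound p14_16_0_229)) (pfC_sound p14_16_0_230)) (pfC_sound p14_16_0_231)) (pfC_sound p14_16_0_232)) (pfC_sound p14_16_0_233)) (pfC_sound p14_16_0_234)) (pfC_sound p14_16_0_235)) (pfC_sound p14_16_0_236)) (pfC_sound p14_16_0_237)) (pfC_sound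 p14_16_0_238)) (pfC_sound p14_16_0_239)) (pfC_sound p14_16_0_240)) (pfC_sound p14_16_0_241)) (pfC_sound p14_16_0_242)) (pfC_sound p14_16_0_243)) (pfC_sound p14_16_0_244)) (pfC_sound p14_16_0_245)) (pfC_sound
 p14_16_0_246)) (pfC_sound p14_16_0_247)) (pfC_sound p14_16_0_248)) (pfC_sound p14_16_0_249)) (pfC_sound p14_16_0_250)) (pfC_sound p14_16_0_251)) (pfC_sound p14_16_0_252)) (pfC_sound p14_16_0_253)) (pfC_sound p14_16_0_254)) (pfC_sound p14_16_0_255)) (pfC_sound p14_16_0_256)) (pfC_sound p14_16_0_257)) (pfC_sound p14_16_0_258)) (pfC_sound p14_16_0_259)) (pfC_sound p14_16_0_260)) (pfC_sound p14_16_0_261)) (pfC_sound p14_16_0_262)) (pfC_sound p14_16_0_263)) (pfC_sound p14_16_0_264)) (pfC_sound p14_16_0_265)) (pfC_sound p14_16_0_266)) (pfC_sound p14_16_0_267)) (pfC_sound p14_16_0_268)) (pfC_sound p14_16_0_269)) (pfC_sound p14_16_0_270)) (pfC_sound p14_16_0_271)) (pfC_sound p14_16_0_272)) (pfC_sound p14_16_0_273)) (pfC_sound p14_16_0_274)) (pfC_sound p14_16_0_275)) (pfC_sound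 p14_16_0_276)) (pfC_sound p14_16_0_277)) (pfC_sound p14_16_0_278)) (pfC_sound p14_16_0_279)) (pfC_sound p14_16_0_280)) (pfC_sound p14_16_0_281)) (pfC_sound p14_16_0_282)) (pfC_sound p14_16_0_283)) (pfC_sound p14_16_0_284)) (pfC_sound p14_16_0_285)) (pfC_sound p14_16_0_286)) (pfC_sound p14_16_0_287)) (pfC_sound p14_16_0_288)) (pfC_sound p14_16_0_289)) (pfC_sound p14_16_0_290)) (pfC_sound p14_16_0_291)) (pfC_sound
 p14_16_0_292)) (pfC_sound p14_16_0_293)) (pfC_sound p14_16_0_294)) (pfC_sound p14_16_0_295)) (pfC_sound p14_16_0_296)) (pfC_sound p14_16_0_297)) (pfC_sound p14_16_0_298)) (pfC_sound p14_16_0_299)) (pfC_sound p14_16_0_300)) (pfC_sound p14_16_0_301)) (pfC_sound p14_16_0_302)) (pfC_sound p14_16_0_303)) (pfC_sound p14_16_0_304)) (pfC_sound p14_16_0_305)) (pfC_sound p14_16_0_306)) (pfC_sound p14_16_0_307)) (pfC_sound p14_16_0_308)) (pfC_sound p14_16_0_309)) (pfC_sound p14_16_0_310)) (pfC_sound p14_16_0_311)) (pfC_sound p14_16_0_312)) (pfC_sound p14_16_0_313)) (pfC_sound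 p14_16_0_314)) (pfC_sound p14_16_0_315)) (pfC_sound p14_16_0_316)) (pfC_sound p14_16_0_317)) (pfC_sound p14_16_0_318)) (pfC_sound p14_16_0_319)) (pfC_sound p14_16_0_320)) (pfC_sound p14_16_0_321)) (pfC_sound p14_16_0_322)) (pfC_sound p14_16_0_323)) (pfC_sound p14_16_0_324)) (pfC_sound p14_16_0_325)) (pfC_sound p14_16_0_326)) (pfC_sound p14_16_0_327)) (pfC_sound p14_16_0_328)) (pfC_sound p14_16_0_329)) (pfC_sound p14_16_0_330)) (pfC_sound p14_16_0_331)) (pfC_sound p14_16_0_332)) (pfC_sound p14_16_0_333)) (pfC_sound p14_16_0_334)) (pfC_sound p14_16_0_335)) (pfC_sound p14_16_0_336)) (pfC_sound p14_16_0_337)) (pfC_sound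
 p14_16_0_338)) (pfC_sound p14_16_0_339)) (pfC_sound p14_16_0_340)) (pfC_sound p14_16_0_341)) (pfC_sound p14_16_0_342)) (pfC_sound p14_16_0_343)) (pfC_sound p14_16_0_344)) (pfC_sound p14_16_0_345)) (pfC_sound p14_16_0_346)) (pfC_sound p14_16_0_347)) (pfC_sound p14_16_0_348)) (pfC_sound p14_16_0_349)) (pfC_sound p14_16_0_350)) (pfC_sound p14_16_0_351)) (pfC_sound p14_16_0_352)) (pfC_sound p14_16_0_353)) (pfC_sound p14_16_0_354)) (pfC_sound p14_16_0_355)) (pfC_sound p14_16_0_356)) (pfC_sound p14_16_0_357)) (pfC_sound p14_16_0_358)) (pfC_sound p14_16_0_359)) (pfC_sound p14_16_0_360)) (pfC_sound p14_16_0_361)) (pfC_sound p14_16_0_362)) (pfC_sound p14_16_0_363)) (pfC_sound p14_16_0_364)) (pfC_sound p14_16_0_365)) (pfC_sound p14_16_0_366)) (pfC_sound p14_16_0_367)) (pfC_sound p14_16_0_368)) (pfC_sound p14_16_0_369)) (pfC_sound p14_16_0_370)) (pfC_sound p14_16_0_371)) (pfC_sound p14_16_0_372)) (pfC_sound p14_16_0_373)) (pfC_sound p14_16_0_374)) (pfC_sound p14_16_0_375)) (pfC_sound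 p14_16_0_376)) (pfC_sound p14_16_0_377)) (pfC_sound p14_16_0_378)) (pfC_sound p14_16_0_379)) (pfC_sound p14_16_0_380)) (pfC_sound p14_16_0_381)) (pfC_sound p14_16_0_382)) (pfC_sound p14_16_0_383)) (pfC_sound
 p14_16_0_384)) (pfC_sound p14_16_0_385)) (pfC_sound p14_16_0_386)) (pfC_sound p14_16_0_387)) (pfC_sound p14_16_0_388)) (pfC_sound p14_16_0_389)) (pfC_sound p14_16_0_390)) (pfC_sound p14_16_0_391)) (pfC_sound p14_16_0_392)) (pfC_sound p14_16_0_393)) (pfC_sound p14_16_0_394)) (pfC_sound p14_16_0_395)) (pfC_sound p14_16_0_396)) (pfC_sound p14_16_0_397)) (pfC_sound p14_16_0_398)) (pfC_sound p14_16_0_399)) (pfC_sound p14_16_0_400)) (pfC_sound p14_16_0_401)) (pfC_sound p14_16_0_402)) (pfC_sound p14_16_0_403)) (pfC_sound p14_16_0_404)) (pfC_sound p14_16_0_405)) (pfC_sound p14_16_0_406)) (pfC_sound p14_16_0_407)) (by decide +kernel)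

def z14_16_0 : zOK yB14_16 (nat_lit 0) (nat_lit 0) (nat_lit 400) (nat_lit 21119649) (nat_lit 10847095) = true := by decide +kernel
def g14_16_0 : gOK yB14_16.x P14_16 (nat_lit 1408) (q14_16 :: r14_16) (nat_lit 0) (nat_lit 0) (nat_lit 1) (nat_lit 400) (nat_lit 0) (nat_lit 11000000) (nat_lit 12712500) (nat_lit 12712500) [(nat_lit 800), (nat_lit 1600)] = true := by decide +kernel
def v14_16_0 : ivC P14_16 s14_16 w14_16 n14_16 (nat_lit 4) (nat_lit 5340) (nat_lit 0) (nat_lit 0) f168_1_0 f176_1_0 (nat_lit 1) (nat_lit 400) f168_1_400 f176_1_400 (nat_lit 21119649) (nat_lit 10847095) p14_16_0 = true := by decide +kernel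
def p14_16_1 : PF := (PF.cons (PF.cons (PF.cons (PF.cons (PF.leaf (nat_lit 2054807) (nat_lit 9618674) (nat_lit 57490138) (nat_lit 9618674) [(nat_lit 0), (nat_lit 0), (nat_lit 0), (nat_lit 0)]) (PF.cons (PF.leaf (nat_lit 2278265) (nat_lit 403176) (nat_lit 57051895) (nat_lit 9653740) [(nat_lit 403176), (nat_lit 0), (nat_lit 0), (nat_lit 0)]) (PF.cons (PF.leaf (nat_lit 2541463) (nat_lit 438825) (nat_lit 56540858) (nat_lit 9690302) [(nat_lit 438825), (nat_lit 0), (nat_lit 0), (nat_lit 0)]) (PF.cons (PF.leaf (nat_lit 2836901) (nat_lit 470441) (nat_lit 55971597) (nat_lit 9725892) [(nat_lit 470441), (nat_lit 0), (nat_lit 0), (nat_lit 0)]) (PF.cons (PF.leaf (nat_lit 3159646) (nat_lit 498852) (nat_lit 55354687) (nat_lit 9758717) [(nat_lit 498852), (nat_lit 0), (nat_lit 0), (nat_lit 0)]) (PF.cons (PF.leaf (nat_lit 3505848) (nat_lit 524577) (nat_lit 54698467) (nat_lit 9787459) [(nat_lit 524577), (nat_lit 0), (nat_lit 0), (nat_lit 0)]) (PF.cons (PF.leaf (nat_lit 3872228) (nat_lit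 547966) (nat_lit 54009847) (nat_lit 9811167) [(nat_lit 547966), (nat_lit 0), (nat_lit 0), (nat_lit 0)]) (PF.cons (PF.leaf (nat_lit 4255997) (nat_lit 569271) (nat_lit 53294734) (nat_lit 9829177) [(nat_lit 569271), (nat_lit 0), (nat_lit
 0), (nat_lit 0)]) (PF.cons (PF.leaf (nat_lit 4654611) (nat_lit 588684) (nat_lit 52558276) (nat_lit 9841057) [(nat_lit 588684), (nat_lit 0), (nat_lit 0), (nat_lit 0)]) (PF.cons (PF.leaf (nat_lit 5065850) (nat_lit 606359) (nat_lit 51805012) (nat_lit 9846564) [(nat_lit 606359), (nat_lit 0), (nat_lit 0), (nat_lit 0)]) (PF.cons PF.nil (PF.cons PF.nil PF.nil)))))))))))) (PF.cons (PF.cons (PF.leaf (nat_lit 2707824) (nat_lit 1556356) (nat_lit 55827636) (nat_lit 9724820) [(nat_lit 0), (nat_lit 1556356), (nat_lit 0), (nat_lit 0)]) (PF.cons (PF.leaf (nat_lit 2992086) (nat_lit 479857) (nat_lit 55272398) (nat_lit 9753458) [(nat_lit 479857), (nat_lit 1603098), (nat_lit 0), (nat_lit 0)]) (PF.cons (PF.leaf (nat_lit 3306027) (nat_lit 507455) (nat_lit 54666371)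 (nat_lit 9779583) [(nat_lit 507455), (nat_lit 1647947), (nat_lit 0), (nat_lit 0)]) (PF.cons (PF.leaf (nat_lit 3644469) (nat_lit 532341) (nat_lit 54019690) (nat_lit 9801858) [(nat_lit 532341), (nat_lit 1690240), (nat_lit 0), (nat_lit 0)]) (PF.cons (PF.leaf (nat_lit 4003698) (nat_lit 554903) (nat_lit 53340182) (nat_lit 9819351) [(nat_lit 554903), (nat_lit 1729664), (nat_lit 0), (nat_lit 0)]) (PF.cons (PF.leaf (nat_lit 4380621) (nat_lit 575411)
 (nat_lit 52634240) (nat_lit 9831425) [(nat_lit 575411), (nat_lit 1766087), (nat_lit 0), (nat_lit 0)]) (PF.cons (PF.leaf (nat_lit 4772582) (nat_lit 594064) (nat_lit 51907267) (nat_lit 9837677) [(nat_lit 594064), (nat_lit 1799478), (nat_lit 0), (nat_lit 0)]) (PF.cons (PF.leaf (nat_lit 5177246) (nat_lit 611019) (nat_lit 51163924) (nat_lit 9837884) [(nat_lit 611019), (nat_lit 1829869), (nat_lit 0), (nat_lit 0)]) (PF.cons (PF.leaf (nat_lit 5592521) (nat_lit 626404) (nat_lit 50408285) (nat_lit 9831967) [(nat_lit 626404), (nat_lit 1857327),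 (nat_lit 0), (nat_lit 0)]) (PF.cons PF.nil PF.nil)))))))))) (PF.cons (PF.cons (PF.leaf (nat_lit 3456379) (nat_lit 1675471) (nat_lit 53963183) (nat_lit 9794686) [(nat_lit 0), (nat_lit 1675471), (nat_lit 0), (nat_lit 0)]) (PF.cons (PF.leaf (nat_lit 3784820) (nat_lit 538877) (nat_lit 53331322) (nat_lit 9810800) [(nat_lit 538877), (nat_lit 1713906), (nat_lit 0), (nat_lit 0)]) (PF.cons (PF.leaf (nat_lit 4135589) (nat_lit 560813) (nat_lit 52664746) (nat_lit 9822427) [(nat_lit 560813), (nat_lit 1750006), (nat_lit 0), (nat_lit 0)]) (PF.cons (PF.leaf (nat_lit 4504760) (nat_lit 580671) (nat_lit 51970856) (nat_lit 9828934) [(nat_lit 580671), (nat_lit 1783504),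
 (nat_lit 0), (nat_lit 0)]) (PF.cons (PF.leaf (nat_lit 4889418) (nat_lit 598677) (nat_lit 51255601) (nat_lit 9829929) [(nat_lit 598677), (nat_lit 1814285), (nat_lit 0), (nat_lit 0)]) (PF.cons (PF.leaf (nat_lit 5287042) (nat_lit 615002) (nat_lit 50523944) (nat_lit 9825202) [(nat_lit 615002), (nat_lit 1842325), (nat_lit 0), (nat_lit 0)]) (PF.cons (PF.leaf (nat_lit 5695449) (nat_lit 629783) (nat_lit 49780116) (nat_lit 9814683) [(nat_lit 629783), (nat_lit 1867654), (nat_lit 0), (nat_lit 0)]) (PF.cons PF.nil (PF.cons PF.nil PF.nil))))))))) (PF.cons (PF.cons (PF.leaf (nat_lit 4269527) (nat_lit 1768654) (nat_lit 51982315) (nat_lit 9820533) [(nat_lit 0), (nat_lit 1768654), (nat_lit 0), (nat_lit 0)]) (PF.cons (PF.leaf (nat_lit 4629446) (nat_lit 585034) (nat_lit 51303877) (nat_lit 9821860) [(nat_lit 585034), (nat_lit 1799346), (nat_lit 0), (nat_lit 0)]) (PF.cons (PF.leaf (nat_lit 5005925) (nat_lit 602519) (nat_lit 50602868) (nat_lit 9817980) [(nat_lit 602519), (nat_lit 1827641),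 (nat_lit 0), (nat_lit 0)]) (PF.cons (PF.leaf (nat_lit 5395906) (nat_lit 618313) (nat_lit 49884827) (nat_lit 9808690) [(nat_lit 618313), (nat_lit 1853451), (nat_lit 0), (nat_lit 0)]) (PF.cons (PF.leaf (nat_lit
 5797025) (nat_lit 632571) (nat_lit 49154313) (nat_lit 9793923) [(nat_lit 632571), (nat_lit 1876763), (nat_lit 0), (nat_lit 0)]) (PF.cons (PF.leaf (nat_lit 6207239) (nat_lit 645416) (nat_lit 48415165) (nat_lit 9773723) [(nat_lit 645416), (nat_lit 1897614), (nat_lit 0), (nat_lit 0)]) (PF.cons PF.nil PF.nil))))))) (PF.cons (PF.cons (PF.leaf (nat_lit 5123307) (nat_lit 1839651) (nat_lit 49948246) (nat_lit 9801960) [(nat_lit 0), (nat_lit 1839651), (nat_lit 0), (nat_lit 0)]) (PF.cons (PF.leaf (nat_lit 5504581) (nat_lit 620944) (nat_lit 49246053) (nat_lit 9788488) [(nat_lit 620944), (nat_lit 1863331), (nat_lit 0), (nat_lit 0)]) (PF.cons (PF.leaf (nat_lit 5897832) (nat_lit 634765) (nat_lit 48530531) (nat_lit 9769833) [(nat_lit 634765), (nat_lit 1884729), (nat_lit 0), (nat_lit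 0)]) (PF.cons (PF.leaf (nat_lit 6300602) (nat_lit 647174) (nat_lit 47805861) (nat_lit 9746040) [(nat_lit 647174), (nat_lit 1903847), (nat_lit 0), (nat_lit 0)]) (PF.cons (PF.leaf (nat_lit 6710988) (nat_lit 658286) (nat_lit 47075525) (nat_lit 9717229) [(nat_lit 658286), (nat_lit 1920727), (nat_lit 0), (nat_lit 0)]) PF.nil))))) (PF.cons (PF.cons (PF.leaf (nat_lit 5998817) (nat_lit 1891622) (nat_lit 47908173) (nat_lit
 9742529) [(nat_lit 0), (nat_lit 1891622), (nat_lit 0), (nat_lit 0)]) (PF.cons (PF.leaf (nat_lit 6393387) (nat_lit 648406) (nat_lit 47199447) (nat_lit 9715484) [(nat_lit 648406), (nat_lit 1909095), (nat_lit 0), (nat_lit 0)]) (PF.cons (PF.leaf (nat_lit 6796255) (nat_lit 659157) (nat_lit 46484376) (nat_lit 9683687) [(nat_lit 659157), (nat_lit 1924486), (nat_lit 0), (nat_lit 0)]) (PF.cons PF.nil PF.nil)))) (PF.cons (PF.cons (PF.leaf (nat_lit 6881326) (nat_lit 1927396) (nat_lit 45896750) (nat_lit 9647685) [(nat_lit 0), (nat_lit 1927396), (nat_lit 0), (nat_lit 0)])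 (PF.cons (PF.leaf (nat_lit 7282813) (nat_lit 668822) (nat_lit 45194230) (nat_lit 9608885) [(nat_lit 668822), (nat_lit 1939479), (nat_lit 0), (nat_lit 0)]) PF.nil)) (PF.cons PF.nil (PF.cons PF.nil PF.nil))))))))) (PF.cons (PF.cons (PF.cons (PF.leaf (nat_lit 3312018) (nat_lit 3848716) (nat_lit 53491452) (nat_lit 9768644) [(nat_lit 0), (nat_lit 0), (nat_lit 3848716), (nat_lit 0)]) (PF.cons (PF.leaf (nat_lit 3606846) (nat_lit 511924) (nat_lit 52926668) (nat_lit 9781348) [(nat_lit 511924), (nat_lit 0), (nat_lit 3888872), (nat_lit 0)]) (PF.cons (PF.leaf (nat_lit 3929273) (nat_lit 537116) (nat_lit 52316098) (nat_lit 9790662)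
 [(nat_lit 537116), (nat_lit 0), (nat_lit 3927819), (nat_lit 0)]) (PF.cons (PF.leaf (nat_lit 4273935) (nat_lit 559479) (nat_lit 51670138) (nat_lit 9795736) [(nat_lit 559479), (nat_lit 0), (nat_lit 3964500), (nat_lit 0)]) (PF.cons (PF.leaf (nat_lit 4637066) (nat_lit 579490) (nat_lit 50996574) (nat_lit 9796012) [(nat_lit 579490), (nat_lit 0), (nat_lit 3998264), (nat_lit 0)]) (PF.cons (PF.leaf (nat_lit 5015632) (nat_lit 597471) (nat_lit 50301588) (nat_lit 9791146) [(nat_lit 597471), (nat_lit 0), (nat_lit 4028720), (nat_lit 0)]) (PF.cons (PF.leaf (nat_lit 5407089) (nat_lit 613656) (nat_lit 49590268) (nat_lit 9780957) [(nat_lit 613656), (nat_lit 0), (nat_lit 4055648), (nat_lit 0)]) (PF.cons (PF.leaf (nat_lit 5809232) (nat_lit 628223) (nat_lit 48866903) (nat_lit 9765395) [(nat_lit 628223), (nat_lit 0), (nat_lit 4078950), (nat_lit 0)]) (PF.cons (PF.leaf (nat_lit 6220111) (nat_lit 641316) (nat_lit 48135163) (nat_lit 9744507) [(nat_lit 641316), (nat_lit 0), (nat_lit 4098612),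 (nat_lit 0)]) (PF.cons PF.nil PF.nil)))))))))) (PF.cons (PF.cons (PF.leaf (nat_lit 4070788) (nat_lit 1739963) (nat_lit 51626935) (nat_lit 9787673) [(nat_lit 0), (nat_lit 1739963), (nat_lit 3954241), (nat_lit 0)])
 (PF.cons (PF.leaf (nat_lit 4404452) (nat_lit 563527) (nat_lit 50999474) (nat_lit 9787934) [(nat_lit 563527), (nat_lit 1771573), (nat_lit 3986302), (nat_lit 0)]) (PF.cons (PF.leaf (nat_lit 4758349) (nat_lit 583149) (nat_lit 50342014) (nat_lit 9783641) [(nat_lit 583149), (nat_lit 1800940), (nat_lit 4015916), (nat_lit 0)]) (PF.cons (PF.leaf (nat_lit 5128592) (nat_lit 600685) (nat_lit 49661797) (nat_lit 9774461) [(nat_lit 600685), (nat_lit 1827888), (nat_lit 4042607), (nat_lit 0)]) (PF.cons (PF.leaf (nat_lit 5512316) (nat_lit 616404) (nat_lit 48964501) (nat_lit 9760228) [(nat_lit 616404), (nat_lit 1852363), (nat_lit 4066103), (nat_lit 0)]) (PF.cons (PF.leaf (nat_lit 5907118) (nat_lit 630504) (nat_lit 48254752) (nat_lit 9740897) [(nat_lit 630504), (nat_lit 1874374),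 (nat_lit 4086268), (nat_lit 0)]) (PF.cons (PF.leaf (nat_lit 6310976) (nat_lit 643140) (nat_lit 47536412) (nat_lit 9716520) [(nat_lit 643140), (nat_lit 1893975), (nat_lit 4103062), (nat_lit 0)]) (PF.cons PF.nil (PF.cons PF.nil PF.nil))))))))) (PF.cons (PF.cons (PF.leaf (nat_lit 4881961) (nat_lit 1813807) (nat_lit 49682985) (nat_lit 9767129) [(nat_lit 0), (nat_lit 1813807), (nat_lit 4031081), (nat_lit 0)]) (PF.cons (PF.leaf
 (nat_lit 5242413) (nat_lit 603115) (nat_lit 49020490) (nat_lit 9754027) [(nat_lit 603115), (nat_lit 1838492), (nat_lit 4054193), (nat_lit 0)]) (PF.cons (PF.leaf (nat_lit 5617575) (nat_lit 618486) (nat_lit 48339360) (nat_lit 9736113) [(nat_lit 618486), (nat_lit 1860961), (nat_lit 4074444), (nat_lit 0)]) (PF.cons (PF.leaf (nat_lit 6004486) (nat_lit 632209) (nat_lit 47644825) (nat_lit 9713352) [(nat_lit 632209), (nat_lit 1881176), (nat_lit 4091655), (nat_lit 0)]) (PF.cons (PF.leaf (nat_lit 6400896) (nat_lit 644461) (nat_lit 46941099) (nat_lit 9685803)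 [(nat_lit 644461), (nat_lit 1899154), (nat_lit 4105755), (nat_lit 0)]) (PF.cons (PF.leaf (nat_lit 6804899) (nat_lit 655380) (nat_lit 46231666) (nat_lit 9653592) [(nat_lit 655380), (nat_lit 1914951), (nat_lit 4116746), (nat_lit 0)]) (PF.cons PF.nil PF.nil))))))) (PF.cons (PF.cons (PF.leaf (nat_lit 5724034) (nat_lit 1868474) (nat_lit 47713908) (nat_lit 9708693) [(nat_lit 0), (nat_lit 1868474), (nat_lit 4080785), (nat_lit 0)]) (PF.cons (PF.leaf (nat_lit 6102030) (nat_lit 633321) (nat_lit 47036492) (nat_lit 9682858) [(nat_lit 633321), (nat_lit 1886975), (nat_lit 4095214), (nat_lit 0)]) (PF.cons (PF.leaf (nat_lit 6490454) (nat_lit 645270)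
 (nat_lit 46348779) (nat_lit 9652460) [(nat_lit 645270), (nat_lit 1903415), (nat_lit 4106785), (nat_lit 0)]) (PF.cons (PF.leaf (nat_lit 6886990) (nat_lit 655875) (nat_lit 45654613) (nat_lit 9617631) [(nat_lit 655875), (nat_lit 1917821), (nat_lit 4115474), (nat_lit 0)]) (PF.cons PF.nil PF.nil))))) (PF.cons (PF.cons (PF.leaf (nat_lit 6580549) (nat_lit 1906809) (nat_lit 45758777) (nat_lit 9616563) [(nat_lit 0), (nat_lit 1906809), (nat_lit 4106234), (nat_lit 0)]) (PF.cons (PF.leaf (nat_lit 6968891) (nat_lit 655916) (nat_lit 45081107) (nat_lit 9579419) [(nat_lit 655916), (nat_lit 1919899), (nat_lit 4112771), (nat_lit 0)]) (PF.cons (PF.leaf (nat_lit 7364316) (nat_lit 665049) (nat_lit 44399267) (nat_lit 9538224) [(nat_lit 665049), (nat_lit 1931140), (nat_lit 4116657), (nat_lit 0)]) (PF.cons PF.nil PF.nil)))) (PF.cons (PF.cons (PF.leaf (nat_lit 7438935) (nat_lit 1931345) (nat_lit 43845332) (nat_lit 9495985) [(nat_lit 0), (nat_lit 1931345), (nat_lit 4110769), (nat_lit 0)]) (PF.cons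 PF.nil PF.nil)) (PF.cons PF.nil (PF.cons PF.nil PF.nil)))))))) (PF.cons (PF.cons (PF.cons (PF.leaf (nat_lit 4666396) (nat_lit 4004358) (nat_lit 49368979) (nat_lit 9731115) [(nat_lit 0), (nat_lit 0), (nat_lit
 4004358), (nat_lit 0)]) (PF.cons (PF.leaf (nat_lit 5002272) (nat_lit 582170) (nat_lit 48754296) (nat_lit 9718375) [(nat_lit 582170), (nat_lit 0), (nat_lit 4026985), (nat_lit 0)]) (PF.cons (PF.leaf (nat_lit 5356562) (nat_lit 599745) (nat_lit 48113628) (nat_lit 9701185) [(nat_lit 599745), (nat_lit 0), (nat_lit 4047254), (nat_lit 0)]) (PF.cons (PF.leaf (nat_lit 5725433) (nat_lit 615252) (nat_lit 47453945) (nat_lit 9679441) [(nat_lit 615252), (nat_lit 0), (nat_lit 4064835), (nat_lit 0)]) (PF.cons (PF.leaf (nat_lit 6106102) (nat_lit 628989) (nat_lit 46780602) (nat_lit 9653141) [(nat_lit 628989), (nat_lit 0), (nat_lit 4079555), (nat_lit 0)]) (PF.cons (PF.leaf (nat_lit 6496301) (nat_lit 641175) (nat_lit 46097881) (nat_lit 9622358) [(nat_lit 641175), (nat_lit 0), (nat_lit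 4091346), (nat_lit 0)]) (PF.cons (PF.leaf (nat_lit 6894100) (nat_lit 651979) (nat_lit 45409289) (nat_lit 9587224) [(nat_lit 651979), (nat_lit 0), (nat_lit 4100210), (nat_lit 0)]) (PF.cons PF.nil (PF.cons PF.nil PF.nil))))))))) (PF.cons (PF.cons (PF.leaf (nat_lit 5470015) (nat_lit 1843706) (nat_lit 47483050) (nat_lit 9673400) [(nat_lit 0), (nat_lit 1843706), (nat_lit 4054327), (nat_lit 0)]) (PF.cons (PF.leaf (nat_lit
 5828808) (nat_lit 616124) (nat_lit 46842352) (nat_lit 9648811) [(nat_lit 616124), (nat_lit 1863365), (nat_lit 4069079), (nat_lit 0)]) (PF.cons (PF.leaf (nat_lit 6200726) (nat_lit 629655) (nat_lit 46186206) (nat_lit 9619837) [(nat_lit 629655), (nat_lit 1880979), (nat_lit 4081239), (nat_lit 0)]) (PF.cons (PF.leaf (nat_lit 6582936) (nat_lit 641592) (nat_lit 45519509) (nat_lit 9586569) [(nat_lit 641592), (nat_lit 1896549), (nat_lit 4090704), (nat_lit 0)]) (PF.cons (PF.leaf (nat_lit 6973293) (nat_lit 652126) (nat_lit 44846136) (nat_lit 9549150) [(nat_lit 652126),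 (nat_lit 1910116), (nat_lit 4097451), (nat_lit 0)]) (PF.cons PF.nil (PF.cons PF.nil PF.nil))))))) (PF.cons (PF.cons (PF.leaf (nat_lit 6296859) (nat_lit 1884909) (nat_lit 45592516) (nat_lit 9583859) [(nat_lit 0), (nat_lit 1884909), (nat_lit 4081308), (nat_lit 0)]) (PF.cons (PF.leaf (nat_lit 6670095) (nat_lit 641486) (nat_lit 44943489) (nat_lit 9548433) [(nat_lit 641486), (nat_lit 1899106), (nat_lit 4088595), (nat_lit 0)]) (PF.cons (PF.leaf (nat_lit 7052483) (nat_lit 651828) (nat_lit 44286518) (nat_lit 9509017) [(nat_lit 651828), (nat_lit 1911442), (nat_lit 4093367), (nat_lit 0)]) (PF.cons (PF.leaf (nat_lit 7441821) (nat_lit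
 660895) (nat_lit 43625121) (nat_lit 9465800) [(nat_lit 660895), (nat_lit 1921964), (nat_lit 4095638), (nat_lit 0)]) (PF.cons PF.nil PF.nil))))) (PF.cons (PF.cons (PF.leaf (nat_lit 7132530) (nat_lit 1912065) (nat_lit 43729720) (nat_lit 9466861) [(nat_lit 0), (nat_lit 1912065), (nat_lit 4088016), (nat_lit 0)]) (PF.cons (PF.leaf (nat_lit 7513775) (nat_lit 659985) (nat_lit 43084872) (nat_lit 9422089) [(nat_lit 659985), (nat_lit 1921540), (nat_lit 4088622), (nat_lit 0)]) (PF.cons PF.nil (PF.cons PF.nil PF.nil)))) (PF.cons (PF.cons (PF.leaf (nat_lit 7966264) (nat_lit 1927451) (nat_lit 41916866) (nat_lit 9327266) [(nat_lit 0), (nat_lit 1927451), (nat_lit 4077437), (nat_lit 0)]) (PF.cons PF.nil PF.nil)) (PF.cons PF.nil PF.nil)))))) (PF.cons (PF.cons (PF.cons (PF.leaf (nat_lit 6033020) (nat_lit 4055758) (nat_lit 45392293) (nat_lit 9549243) [(nat_lit 0), (nat_lit 0), (nat_lit 4055758), (nat_lit 0)]) (PF.cons (PF.leaf (nat_lit 6388524) (nat_lit 624987) (nat_lit 44777039) (nat_lit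 9515664) [(nat_lit 624987), (nat_lit 0), (nat_lit 4063707), (nat_lit 0)]) (PF.cons (PF.leaf (nat_lit 6755837) (nat_lit 636918) (nat_lit 44148907) (nat_lit 9478128) [(nat_lit 636918), (nat_lit 0), (nat_lit 4069313),
 (nat_lit 0)]) (PF.cons (PF.leaf (nat_lit 7132208) (nat_lit 647314) (nat_lit 43512458) (nat_lit 9436811) [(nat_lit 647314), (nat_lit 0), (nat_lit 4072533), (nat_lit 0)]) (PF.cons (PF.leaf (nat_lit 7515614) (nat_lit 656376) (nat_lit 42871245) (nat_lit 9391914) [(nat_lit 656376), (nat_lit 0), (nat_lit 4073381), (nat_lit 0)]) (PF.cons PF.nil (PF.cons PF.nil PF.nil))))))) (PF.cons (PF.cons (PF.leaf (nat_lit 6842324) (nat_lit 1891468) (nat_lit 43587968) (nat_lit 9435877) [(nat_lit 0), (nat_lit 1891468), (nat_lit 4064499), (nat_lit 0)]) (PF.cons (PF.leaf (nat_lit 7209778) (nat_lit 646234) (nat_lit 42969233) (nat_lit 9393148) [(nat_lit 646234), (nat_lit 1902089), (nat_lit 4066035), (nat_lit 0)]) (PF.cons (PF.leaf (nat_lit 7585320) (nat_lit 655196) (nat_lit 42344369)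 (nat_lit 9346942) [(nat_lit 655196), (nat_lit 1911031), (nat_lit 4065358), (nat_lit 0)]) (PF.cons PF.nil (PF.cons PF.nil PF.nil))))) (PF.cons (PF.cons (PF.leaf (nat_lit 7656182) (nat_lit 1909468) (nat_lit 41820546) (nat_lit 9300374) [(nat_lit 0), (nat_lit 1909468), (nat_lit 4056318), (nat_lit 0)]) (PF.cons (PF.leaf (nat_lit 8029797) (nat_lit 661288) (nat_lit 41209028) (nat_lit 9249970) [(nat_lit 661288), (nat_lit 1915964),
 (nat_lit 4052199), (nat_lit 0)]) (PF.cons PF.nil (PF.cons PF.nil PF.nil)))) (PF.cons (PF.cons (PF.leaf (nat_lit 8465309) (nat_lit 1917417) (nat_lit 40107828) (nat_lit 9147130) [(nat_lit 0), (nat_lit 1917417), (nat_lit 4033867), (nat_lit 0)]) (PF.cons PF.nil PF.nil)) (PF.cons PF.nil PF.nil))))) (PF.cons (PF.cons (PF.cons (PF.leaf (nat_lit 7361452) (nat_lit 4034317) (nat_lit 41700110) (nat_lit 9271433) [(nat_lit 0), (nat_lit 0), (nat_lit 4034317), (nat_lit 0)]) (PF.cons (PF.leaf (nat_lit 7722437) (nat_lit 648218) (nat_lit 41112355) (nat_lit 9223269)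 [(nat_lit 648218), (nat_lit 0), (nat_lit 4031242), (nat_lit 0)]) (PF.cons (PF.leaf (nat_lit 8090640) (nat_lit 655994) (nat_lit 40519865) (nat_lit 9172079) [(nat_lit 655994), (nat_lit 0), (nat_lit 4026219), (nat_lit 0)]) (PF.cons PF.nil PF.nil)))) (PF.cons (PF.cons (PF.leaf (nat_lit 8153135) (nat_lit 1900693) (nat_lit 40028081) (nat_lit 9122545) [(nat_lit 0), (nat_lit 1900693), (nat_lit 4014373), (nat_lit 0)]) (PF.cons (PF.leaf (nat_lit 8518833) (nat_lit 660372) (nat_lit 39449541) (nat_lit 9068113) [(nat_lit 660372), (nat_lit 1904736), (nat_lit 4006512), (nat_lit 0)]) PF.nil)) (PF.cons PF.nil PF.nil))) (PF.cons (PF.cons (PF.cons (PF.leaf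
 (nat_lit 8625124) (nat_lit 3964749) (nat_lit 38347455) (nat_lit 8937610) [(nat_lit 0), (nat_lit 0), (nat_lit 3964749), (nat_lit 0)]) (PF.cons PF.nil PF.nil)) (PF.cons PF.nil PF.nil)) (PF.cons PF.nil (PF.cons PF.nil PF.nil)))))))) (PF.cons (PF.cons (PF.cons (PF.cons (PF.leaf (nat_lit 4199434) (nat_lit 9073661) (nat_lit 48469404) (nat_lit 9565746) [(nat_lit 0), (nat_lit 0), (nat_lit 0), (nat_lit 9073661)]) (PF.cons (PF.leaf (nat_lit 4490282) (nat_lit 526626) (nat_lit 47956093) (nat_lit 9557249) [(nat_lit 526626), (nat_lit 0), (nat_lit 0), (nat_lit 9068843)]) (PF.cons (PF.leaf (nat_lit 4806252) (nat_lit 549557) (nat_lit 47404224) (nat_lit 9544963) [(nat_lit 549557), (nat_lit 0), (nat_lit 0), (nat_lit 9060511)]) (PF.cons (PF.leaf (nat_lit 5141947) (nat_lit 569464) (nat_lit 46823428) (nat_lit 9528637) [(nat_lit 569464), (nat_lit 0), (nat_lit 0), (nat_lit 9048353)]) (PF.cons (PF.leaf (nat_lit 5493655) (nat_lit 586921) (nat_lit 46220787) (nat_lit 9508140) [(nat_lit 586921),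 (nat_lit 0), (nat_lit 0), (nat_lit 9032198)]) (PF.cons (PF.leaf (nat_lit 5858460) (nat_lit 602319) (nat_lit 45601798) (nat_lit 9483437) [(nat_lit 602319), (nat_lit 0), (nat_lit 0), (nat_lit 9011977)]) (PF.cons
 (PF.leaf (nat_lit 6233963) (nat_lit 615942) (nat_lit 44970884) (nat_lit 9454566) [(nat_lit 615942), (nat_lit 0), (nat_lit 0), (nat_lit 8987704)]) (PF.cons (PF.leaf (nat_lit 6618158) (nat_lit 628006) (nat_lit 44331690) (nat_lit 9421622) [(nat_lit 628006), (nat_lit 0), (nat_lit 0), (nat_lit 8959455)]) (PF.cons (PF.leaf (nat_lit 7009297) (nat_lit 638680) (nat_lit 43687265) (nat_lit 9384748) [(nat_lit 638680), (nat_lit 0), (nat_lit 0), (nat_lit 8927355)]) (PF.cons PF.nil PF.nil)))))))))) (PF.cons (PF.cons (PF.leaf (nat_lit 4931112) (nat_lit 1756880) (nat_lit 46791377) (nat_lit 9520408) [(nat_lit 0), (nat_lit 1756880), (nat_lit 0), (nat_lit 9040145)]) (PF.cons (PF.leaf (nat_lit 5255318) (nat_lit 571051) (nat_lit 46229676) (nat_lit 9501402) [(nat_lit 571051), (nat_lit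 1781477), (nat_lit 0), (nat_lit 9025204)]) (PF.cons (PF.leaf (nat_lit 5597450) (nat_lit 588304) (nat_lit 45643660) (nat_lit 9478325) [(nat_lit 588304), (nat_lit 1803831), (nat_lit 0), (nat_lit 9006386)]) (PF.cons (PF.leaf (nat_lit 5953753) (nat_lit 603433) (nat_lit 45039793) (nat_lit 9451176) [(nat_lit 603433), (nat_lit 1823891), (nat_lit 0), (nat_lit 8983651)]) (PF.cons (PF.leaf (nat_lit 6321501) (nat_lit 616758) (nat_lit
 44423041) (nat_lit 9420014) [(nat_lit 616758), (nat_lit 1841693), (nat_lit 0), (nat_lit 8957029)]) (PF.cons (PF.leaf (nat_lit 6698474) (nat_lit 628515) (nat_lit 43797371) (nat_lit 9384949) [(nat_lit 628515), (nat_lit 1857309), (nat_lit 0), (nat_lit 8926607)]) (PF.cons (PF.leaf (nat_lit 7082810) (nat_lit 638885) (nat_lit 43166022) (nat_lit 9346129) [(nat_lit 638885), (nat_lit 1870836), (nat_lit 0), (nat_lit 8892512)]) (PF.cons (PF.leaf (nat_lit 7472947) (nat_lit 648015) (nat_lit 42531690) (nat_lit 9303730) [(nat_lit 648015), (nat_lit 1882379), (nat_lit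 0), (nat_lit 8854906)]) (PF.cons PF.nil PF.nil))))))))) (PF.cons (PF.cons (PF.leaf (nat_lit 5703932) (nat_lit 1810593) (nat_lit 45064195) (nat_lit 9445650) [(nat_lit 0), (nat_lit 1810593), (nat_lit 0), (nat_lit 8977780)]) (PF.cons (PF.leaf (nat_lit 6050374) (nat_lit 603887) (nat_lit 44477786) (nat_lit 9416399) [(nat_lit 603887), (nat_lit 1828940), (nat_lit 0), (nat_lit 8952858)]) (PF.cons (PF.leaf (nat_lit 6409613) (nat_lit 617027) (nat_lit 43876844) (nat_lit 9383247) [(nat_lit 617027), (nat_lit 1845246), (nat_lit 0), (nat_lit 8924175)]) (PF.cons (PF.leaf (nat_lit 6778844) (nat_lit 628560) (nat_lit 43265890) (nat_lit 9346327)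
 [(nat_lit 628560), (nat_lit 1859538), (nat_lit 0), (nat_lit 8891834)]) (PF.cons (PF.leaf (nat_lit 7156015) (nat_lit 638692) (nat_lit 42648497) (nat_lit 9305800) [(nat_lit 638692), (nat_lit 1871884), (nat_lit 0), (nat_lit 8855976)]) (PF.cons (PF.leaf (nat_lit 7539414) (nat_lit 647579) (nat_lit 42027564) (nat_lit 9261849) [(nat_lit 647579), (nat_lit 1882367), (nat_lit 0), (nat_lit 8816764)]) (PF.cons PF.nil PF.nil))))))) (PF.cons (PF.cons (PF.leaf (nat_lit 6499395) (nat_lit 1848012) (nat_lit 43331340) (nat_lit 9344275) [(nat_lit 0), (nat_lit 1848012), (nat_lit 0), (nat_lit 8889158)]) (PF.cons (PF.leaf (nat_lit 6859940) (nat_lit 628120) (nat_lit 42736579) (nat_lit 9305787) [(nat_lit 628120), (nat_lit 1861050), (nat_lit 0), (nat_lit 8855174)]) (PF.cons (PF.leaf (nat_lit 7229437) (nat_lit 638088) (nat_lit 42134197) (nat_lit 9263803) [(nat_lit 638088), (nat_lit 1872280), (nat_lit 0), (nat_lit 8817792)]) (PF.cons (PF.leaf (nat_lit 7605743) (nat_lit 646792) (nat_lit 41527427)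 (nat_lit 9218520) [(nat_lit 646792), (nat_lit 1881766), (nat_lit 0), (nat_lit 8777186)]) (PF.cons (PF.leaf (nat_lit 7987266) (nat_lit 654373) (nat_lit 40918868) (nat_lit 9170144) [(nat_lit 654373), (nat_lit 1889585),
 (nat_lit 0), (nat_lit 8733547)]) PF.nil))))) (PF.cons (PF.cons (PF.leaf (nat_lit 7303920) (nat_lit 1872060) (nat_lit 41622438) (nat_lit 9220152) [(nat_lit 0), (nat_lit 1872060), (nat_lit 0), (nat_lit 8777979)]) (PF.cons (PF.leaf (nat_lit 7672444) (nat_lit 645639) (nat_lit 41030770) (nat_lit 9173771) [(nat_lit 645639), (nat_lit 1880606), (nat_lit 0), (nat_lit 8736204)]) (PF.cons (PF.leaf (nat_lit 8046997) (nat_lit 653083) (nat_lit 40436406) (nat_lit 9124400) [(nat_lit 653083), (nat_lit 1887584), (nat_lit 0), (nat_lit 8691503)]) (PF.cons PF.nil PF.nil)))) (PF.cons (PF.cons (PF.leaf (nat_lit 8107423) (nat_lit 1885101) (nat_lit 39957578) (nat_lit 9077455) [(nat_lit 0), (nat_lit 1885101), (nat_lit 0), (nat_lit 8648270)]) (PF.cons (PF.leaf (nat_lit 8479288) (nat_lit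 657790) (nat_lit 39376950) (nat_lit 9024615) [(nat_lit 657790), (nat_lit 1889875), (nat_lit 0), (nat_lit 8600078)]) PF.nil)) (PF.cons PF.nil (PF.cons PF.nil PF.nil)))))))) (PF.cons (PF.cons (PF.cons (PF.leaf (nat_lit 5477005) (nat_lit 3952746) (nat_lit 44806864) (nat_lit 9407842) [(nat_lit 0), (nat_lit 0), (nat_lit 3952746), (nat_lit 8941359)]) (PF.cons (PF.leaf (nat_lit 5801159) (nat_lit 583231) (nat_lit 44262125) (nat_lit
 9380516) [(nat_lit 583231), (nat_lit 0), (nat_lit 3964819), (nat_lit 8918121)]) (PF.cons (PF.leaf (nat_lit 6141760) (nat_lit 598723) (nat_lit 43696151) (nat_lit 9349297) [(nat_lit 598723), (nat_lit 0), (nat_lit 3974745), (nat_lit 8891171)]) (PF.cons (PF.leaf (nat_lit 6495117) (nat_lit 612149) (nat_lit 43115074) (nat_lit 9314321) [(nat_lit 612149), (nat_lit 0), (nat_lit 3982359), (nat_lit 8860607)]) (PF.cons (PF.leaf (nat_lit 6858624) (nat_lit 623846) (nat_lit 42523531) (nat_lit 9275744) [(nat_lit 623846), (nat_lit 0), (nat_lit 3987597), (nat_lit 8826554)])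 (PF.cons (PF.leaf (nat_lit 7230171) (nat_lit 634057) (nat_lit 41925165) (nat_lit 9233739) [(nat_lit 634057), (nat_lit 0), (nat_lit 3990461), (nat_lit 8789161)]) (PF.cons (PF.leaf (nat_lit 7608015) (nat_lit 642967) (nat_lit 41322913) (nat_lit 9188494) [(nat_lit 642967), (nat_lit 0), (nat_lit 3990998), (nat_lit 8748597)]) (PF.cons PF.nil (PF.cons PF.nil PF.nil))))))))) (PF.cons (PF.cons (PF.leaf (nat_lit 6239289) (nat_lit 1824071) (nat_lit 43145534) (nat_lit 9310064) [(nat_lit 0), (nat_lit 1824071), (nat_lit 3973169), (nat_lit 8855973)]) (PF.cons (PF.leaf (nat_lit 6582732) (nat_lit 611472) (nat_lit 42582294) (nat_lit 9273711)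
 [(nat_lit 611472), (nat_lit 1838544), (nat_lit 3978852), (nat_lit 8823937)]) (PF.cons (PF.leaf (nat_lit 6937730) (nat_lit 623098) (nat_lit 42006812) (nat_lit 9233815) [(nat_lit 623098), (nat_lit 1851151), (nat_lit 3982353), (nat_lit 8788484)]) (PF.cons (PF.leaf (nat_lit 7301599) (nat_lit 633186) (nat_lit 41423292) (nat_lit 9190578) [(nat_lit 633186), (nat_lit 1861942), (nat_lit 3983650), (nat_lit 8749787)]) (PF.cons (PF.leaf (nat_lit 7672386) (nat_lit 641948) (nat_lit 40835013) (nat_lit 9144205) [(nat_lit 641948), (nat_lit 1870995), (nat_lit 3982772), (nat_lit 8708030)]) (PF.cons (PF.leaf (nat_lit 8048480) (nat_lit 649545) (nat_lit 40244596) (nat_lit 9094905) [(nat_lit 649545), (nat_lit 1878397), (nat_lit 3979782), (nat_lit 8663403)]) (PF.cons PF.nil PF.nil))))))) (PF.cons (PF.cons (PF.leaf (nat_lit 7018772) (nat_lit 1851417) (nat_lit 41491253) (nat_lit 9190091) [(nat_lit 0), (nat_lit 1851417), (nat_lit 3975979), (nat_lit 8748654)]) (PF.cons (PF.leaf (nat_lit 7374033)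 (nat_lit 631883) (nat_lit 40923883) (nat_lit 9145885) [(nat_lit 631883), (nat_lit 1861214), (nat_lit 3975828), (nat_lit 8708904)]) (PF.cons (PF.leaf (nat_lit 7737263) (nat_lit 640567) (nat_lit 40350489) (nat_lit
 9098608) [(nat_lit 640567), (nat_lit 1869383), (nat_lit 3973644), (nat_lit 8666168)]) (PF.cons (PF.leaf (nat_lit 8106426) (nat_lit 648057) (nat_lit 39774034) (nat_lit 9048486) [(nat_lit 648057), (nat_lit 1875995), (nat_lit 3969475), (nat_lit 8620650)]) (PF.cons PF.nil PF.nil))))) (PF.cons (PF.cons (PF.leaf (nat_lit 7803458) (nat_lit 1867269) (nat_lit 39868657) (nat_lit 9051695) [(nat_lit 0), (nat_lit 1867269), (nat_lit 3963643), (nat_lit 8623008)]) (PF.cons (PF.leaf (nat_lit 8165008) (nat_lit 646245) (nat_lit 39306983) (nat_lit 9000962) [(nat_lit 646245), (nat_lit 1873141), (nat_lit 3958396), (nat_lit 8576801)]) (PF.cons (PF.leaf (nat_lit 8531839) (nat_lit 652613) (nat_lit 38743644) (nat_lit 8947668) [(nat_lit 652613), (nat_lit 1877615), (nat_lit 3951343), (nat_lit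 8528085)]) (PF.cons PF.nil PF.nil)))) (PF.cons (PF.cons (PF.leaf (nat_lit 8584595) (nat_lit 1873709) (nat_lit 38293990) (nat_lit 8898664) [(nat_lit 0), (nat_lit 1873709), (nat_lit 3938630), (nat_lit 8482690)]) (PF.cons PF.nil PF.nil)) (PF.cons PF.nil PF.nil)))))) (PF.cons (PF.cons (PF.cons (PF.leaf (nat_lit 6752184) (nat_lit 3951770) (nat_lit 41330502) (nat_lit 9157633) [(nat_lit 0), (nat_lit 0), (nat_lit 3951770),
 (nat_lit 8717136)]) (PF.cons (PF.leaf (nat_lit 7091601) (nat_lit 616050) (nat_lit 40791971) (nat_lit 9115841) [(nat_lit 616050), (nat_lit 0), (nat_lit 3952665), (nat_lit 8679618)]) (PF.cons (PF.leaf (nat_lit 7441528) (nat_lit 626361) (nat_lit 40243055) (nat_lit 9070844) [(nat_lit 626361), (nat_lit 0), (nat_lit 3951591), (nat_lit 8639006)]) (PF.cons (PF.leaf (nat_lit 7799372) (nat_lit 635203) (nat_lit 39687654) (nat_lit 9022894) [(nat_lit 635203), (nat_lit 0), (nat_lit 3948563), (nat_lit 8595526)]) (PF.cons (PF.leaf (nat_lit 8163281) (nat_lit 642790) (nat_lit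 39128775) (nat_lit 8972223) [(nat_lit 642790), (nat_lit 0), (nat_lit 3943630), (nat_lit 8549389)]) (PF.cons PF.nil (PF.cons PF.nil PF.nil))))))) (PF.cons (PF.cons (PF.leaf (nat_lit 7514488) (nat_lit 1848040) (nat_lit 39757090) (nat_lit 9023804) [(nat_lit 0), (nat_lit 1848040), (nat_lit 3942051), (nat_lit 8595773)]) (PF.cons (PF.leaf (nat_lit 7863865) (nat_lit 633214) (nat_lit 39217518) (nat_lit 8975367) [(nat_lit 633214), (nat_lit 1855145), (nat_lit 3937924), (nat_lit 8551717)]) (PF.cons (PF.leaf (nat_lit 8220386) (nat_lit 640793) (nat_lit 38673165) (nat_lit 8924236) [(nat_lit 640793), (nat_lit 1860779), (nat_lit 3932002),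
 (nat_lit 8505038)]) (PF.cons (PF.leaf (nat_lit 8582111) (nat_lit 647244) (nat_lit 38126745) (nat_lit 8870655) [(nat_lit 647244), (nat_lit 1865020), (nat_lit 3924347), (nat_lit 8455963)]) (PF.cons PF.nil PF.nil))))) (PF.cons (PF.cons (PF.leaf (nat_lit 8279036) (nat_lit 1857179) (nat_lit 38220256) (nat_lit 8875203) [(nat_lit 0), (nat_lit 1857179), (nat_lit 3919670), (nat_lit 8459654)]) (PF.cons (PF.leaf (nat_lit 8633347) (nat_lit 644912) (nat_lit 37688124) (nat_lit 8821395) [(nat_lit 644912), (nat_lit 1860843), (nat_lit 3911211), (nat_lit 8410269)]) (PF.cons PF.nil (PF.cons PF.nil PF.nil)))) (PF.cons (PF.cons (PF.leaf (nat_lit 9038157) (nat_lit 1858249) (nat_lit 36733197) (nat_lit 8715223) [(nat_lit 0), (nat_lit 1858249), (nat_lit 3886794), (nat_lit 8312054)]) (PF.cons PF.nil PF.nil)) (PF.cons PF.nil PF.nil))))) (PF.cons (PF.cons (PF.cons (PF.leaf (nat_lit 7987666) (nat_lit 3899682) (nat_lit 38125657) (nat_lit 8849540) [(nat_lit 0), (nat_lit 0), (nat_lit 3899682), (nat_lit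 8434568)]) (PF.cons (PF.leaf (nat_lit 8330759) (nat_lit 632580) (nat_lit 37613627) (nat_lit 8798080) [(nat_lit 632580), (nat_lit 0), (nat_lit 3892377), (nat_lit 8387391)]) (PF.cons (PF.leaf (nat_lit 8680317)
 (nat_lit 639206) (nat_lit 37097782) (nat_lit 8744255) [(nat_lit 639206), (nat_lit 0), (nat_lit 3883483), (nat_lit 8337910)]) (PF.cons PF.nil PF.nil)))) (PF.cons (PF.cons (PF.leaf (nat_lit 8732110) (nat_lit 1842941) (nat_lit 36672476) (nat_lit 8693993) [(nat_lit 0), (nat_lit 1842941), (nat_lit 3869407), (nat_lit 8291180)]) (PF.cons (PF.leaf (nat_lit 9079071) (nat_lit 642029) (nat_lit 36168992) (nat_lit 8638133) [(nat_lit 642029), (nat_lit 1844784), (nat_lit 3858416), (nat_lit 8239623)]) PF.nil)) (PF.cons PF.nil PF.nil))) (PF.cons (PF.cons (PF.cons (PF.leaf (nat_lit 9164170) (nat_lit 3814545) (nat_lit 35219885) (nat_lit 8510630) [(nat_lit 0), (nat_lit 0), (nat_lit 3814545), (nat_lit 8120115)]) (PF.cons (PF.leaf (nat_lit 9503744) (nat_lit 637909) (nat_lit 34743878)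 (nat_lit 8453533) [(nat_lit 637909), (nat_lit 0), (nat_lit 3801575), (nat_lit 8067190)]) PF.nil)) (PF.cons PF.nil PF.nil)) (PF.cons PF.nil PF.nil)))))) (PF.cons (PF.cons (PF.cons (PF.cons (PF.leaf (nat_lit 6194513) (nat_lit 8597171) (nat_lit 40879599) (nat_lit 9034870) [(nat_lit 0), (nat_lit 0), (nat_lit 0), (nat_lit 8597171)]) (PF.cons (PF.leaf (nat_lit 6506462) (nat_lit 577419) (nat_lit 40399485) (nat_lit 8999807)
 [(nat_lit 577419), (nat_lit 0), (nat_lit 0), (nat_lit 8566049)]) (PF.cons (PF.leaf (nat_lit 6833341) (nat_lit 591269) (nat_lit 39901633) (nat_lit 8961320) [(nat_lit 591269), (nat_lit 0), (nat_lit 0), (nat_lit 8531660)]) (PF.cons (PF.leaf (nat_lit 7171602) (nat_lit 603093) (nat_lit 39391393) (nat_lit 8919675) [(nat_lit 603093), (nat_lit 0), (nat_lit 0), (nat_lit 8494231)]) (PF.cons (PF.leaf (nat_lit 7518787) (nat_lit 613247) (nat_lit 38872766) (nat_lit 8875112) [(nat_lit 613247), (nat_lit 0), (nat_lit 0), (nat_lit 8453972)]) (PF.cons (PF.leaf (nat_lit 7872951)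 (nat_lit 621987) (nat_lit 38348861) (nat_lit 8827851) [(nat_lit 621987), (nat_lit 0), (nat_lit 0), (nat_lit 8411081)]) (PF.cons (PF.leaf (nat_lit 8232507) (nat_lit 629508) (nat_lit 37822156) (nat_lit 8778104) [(nat_lit 629508), (nat_lit 0), (nat_lit 0), (nat_lit 8365751)]) (PF.cons PF.nil (PF.cons PF.nil PF.nil))))))))) (PF.cons (PF.cons (PF.leaf (nat_lit 6918054) (nat_lit 1787988) (nat_lit 39421972) (nat_lit 8916837) [(nat_lit 0), (nat_lit 1787988), (nat_lit 0), (nat_lit 8491006)]) (PF.cons (PF.leaf (nat_lit 7246708) (nat_lit 601408) (nat_lit 38927879) (nat_lit 8874713) [(nat_lit 601408), (nat_lit 1798825), (nat_lit 0),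
 (nat_lit 8452992)]) (PF.cons (PF.leaf (nat_lit 7585734) (nat_lit 611588) (nat_lit 38423724) (nat_lit 8829656) [(nat_lit 611588), (nat_lit 1807959), (nat_lit 0), (nat_lit 8412147)]) (PF.cons (PF.leaf (nat_lit 7932603) (nat_lit 620298) (nat_lit 37913120) (nat_lit 8781922) [(nat_lit 620298), (nat_lit 1815472), (nat_lit 0), (nat_lit 8368702)]) (PF.cons (PF.leaf (nat_lit 8285507) (nat_lit 627755) (nat_lit 37398853) (nat_lit 8731744) [(nat_lit 627755), (nat_lit 1821457), (nat_lit 0), (nat_lit 8322867)]) (PF.cons PF.nil (PF.cons PF.nil PF.nil))))))) (PF.cons (PF.cons (PF.leaf (nat_lit 7654931) (nat_lit 1805919) (nat_lit 37975829) (nat_lit 8782951) [(nat_lit 0), (nat_lit 1805919), (nat_lit 0), (nat_lit 8369096)]) (PF.cons (PF.leaf (nat_lit 7993595) (nat_lit 618238) (nat_lit 37479595) (nat_lit 8734962) [(nat_lit 618238), (nat_lit 1812704), (nat_lit 0), (nat_lit 8325303)]) (PF.cons (PF.leaf (nat_lit 8339376) (nat_lit 625698) (nat_lit 36978508) (nat_lit 8684534) [(nat_lit 625698),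 (nat_lit 1818049), (nat_lit 0), (nat_lit 8279136)]) (PF.cons (PF.leaf (nat_lit 8690368) (nat_lit 632039) (nat_lit 36475082) (nat_lit 8631905) [(nat_lit 632039), (nat_lit 1822038), (nat_lit 0), (nat_lit 8230814)])
 (PF.cons PF.nil PF.nil))))) (PF.cons (PF.cons (PF.leaf (nat_lit 8394894) (nat_lit 1814273) (nat_lit 36560487) (nat_lit 8636442) [(nat_lit 0), (nat_lit 1814273), (nat_lit 0), (nat_lit 8234531)]) (PF.cons (PF.leaf (nat_lit 8738726) (nat_lit 629677) (nat_lit 36070027) (nat_lit 8583758) [(nat_lit 629677), (nat_lit 1817735), (nat_lit 0), (nat_lit 8186071)]) (PF.cons PF.nil (PF.cons PF.nil PF.nil)))) (PF.cons (PF.cons (PF.leaf (nat_lit 9130602) (nat_lit 1814933) (nat_lit 35188324) (nat_lit 8480317) [(nat_lit 0), (nat_lit 1814933), (nat_lit 0), (nat_lit 8090218)]) (PF.cons PF.nil PF.nil)) (PF.cons PF.nil PF.nil)))))) (PF.cons (PF.cons (PF.cons (PF.leaf (nat_lit 7389174) (nat_lit 3828213) (nat_lit 37846290) (nat_lit 8753471) [(nat_lit 0), (nat_lit 0), (nat_lit 3828213),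 (nat_lit 8340418)]) (PF.cons (PF.leaf (nat_lit 7713528) (nat_lit 603186) (nat_lit 37374672) (nat_lit 8708103) [(nat_lit 603186), (nat_lit 0), (nat_lit 3824702), (nat_lit 8299074)]) (PF.cons (PF.leaf (nat_lit 8047413) (nat_lit 612267) (nat_lit 36894380) (nat_lit 8660072) [(nat_lit 612267), (nat_lit 0), (nat_lit 3819506), (nat_lit 8255159)]) (PF.cons (PF.leaf (nat_lit 8388375) (nat_lit 619948) (nat_lit 36408767) (nat_lit
 8609662) [(nat_lit 619948), (nat_lit 0), (nat_lit 3812676), (nat_lit 8208931)]) (PF.cons (PF.leaf (nat_lit 8734698) (nat_lit 626446) (nat_lit 35920393) (nat_lit 8557118) [(nat_lit 626446), (nat_lit 0), (nat_lit 3804280), (nat_lit 8160616)]) (PF.cons PF.nil (PF.cons PF.nil PF.nil))))))) (PF.cons (PF.cons (PF.leaf (nat_lit 8109793) (nat_lit 1796492) (nat_lit 36472322) (nat_lit 8611800) [(nat_lit 0), (nat_lit 1796492), (nat_lit 3807346), (nat_lit 8210425)]) (PF.cons (PF.leaf (nat_lit 8442729) (nat_lit 617399) (nat_lit 36000623) (nat_lit 8561451) [(nat_lit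 617399), (nat_lit 1801202), (nat_lit 3799806), (nat_lit 8164164)]) (PF.cons (PF.leaf (nat_lit 8782121) (nat_lit 623954) (nat_lit 35524965) (nat_lit 8508945) [(nat_lit 623954), (nat_lit 1804611), (nat_lit 3790774), (nat_lit 8115803)]) (PF.cons PF.nil (PF.cons PF.nil PF.nil))))) (PF.cons (PF.cons (PF.leaf (nat_lit 8831364) (nat_lit 1799811) (nat_lit 35131782) (nat_lit 8460064) [(nat_lit 0), (nat_lit 1799811), (nat_lit 3776766), (nat_lit 8070288)]) (PF.cons (PF.leaf (nat_lit 9168441) (nat_lit 626729) (nat_lit 34666901) (nat_lit 8405840) [(nat_lit 626729), (nat_lit 1801598), (nat_lit 3765819), (nat_lit 8020163)]) (PF.cons PF.nil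
 (PF.cons PF.nil PF.nil)))) (PF.cons (PF.cons (PF.leaf (nat_lit 9547372) (nat_lit 1796504) (nat_lit 33834875) (nat_lit 8300948) [(nat_lit 0), (nat_lit 1796504), (nat_lit 3738271), (nat_lit 7922602)]) (PF.cons PF.nil PF.nil)) (PF.cons PF.nil PF.nil))))) (PF.cons (PF.cons (PF.cons (PF.leaf (nat_lit 8545269) (nat_lit 3758770) (nat_lit 35057137) (nat_lit 8437587) [(nat_lit 0), (nat_lit 0), (nat_lit 3758770), (nat_lit 8048273)]) (PF.cons (PF.leaf (nat_lit 8872243) (nat_lit 615133) (nat_lit 34609346) (nat_lit 8385672) [(nat_lit 615133), (nat_lit 0), (nat_lit 3748999), (nat_lit 8000330)]) (PF.cons (PF.leaf (nat_lit 9205122) (nat_lit 620904) (nat_lit 34158299) (nat_lit 8331849) [(nat_lit 620904), (nat_lit 0), (nat_lit 3737900), (nat_lit 7950526)]) (PF.cons PF.nil PF.nil)))) (PF.cons (PF.cons (PF.leaf (nat_lit 9248668) (nat_lit 1782528) (nat_lit 33788602) (nat_lit 8282734) [(nat_lit 0), (nat_lit 1782528), (nat_lit 3722821), (nat_lit 7904651)]) (PF.cons (PF.leaf (nat_lit 9578964)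 (nat_lit 622673) (nat_lit 33348266) (nat_lit 8227635) [(nat_lit 622673), (nat_lit 1782929), (nat_lit 3710134), (nat_lit 7853519)]) PF.nil)) (PF.cons PF.nil PF.nil))) (PF.cons (PF.cons (PF.cons (PF.leaf (nat_lit
 9648056) (nat_lit 3666201) (nat_lit 32525818) (nat_lit 8106024) [(nat_lit 0), (nat_lit 0), (nat_lit 3666201), (nat_lit 7739183)]) (PF.cons PF.nil PF.nil)) (PF.cons PF.nil PF.nil)) (PF.cons PF.nil PF.nil))))) (PF.cons (PF.cons (PF.cons (PF.cons (PF.leaf (nat_lit 7961010) (nat_lit 7968953) (nat_lit 34845162) (nat_lit 8356791) [(nat_lit 0), (nat_lit 0), (nat_lit 0), (nat_lit 7968953)]) (PF.cons (PF.leaf (nat_lit 8271446) (nat_lit 588263) (nat_lit 34430823) (nat_lit 8310505) [(nat_lit 588263), (nat_lit 0), (nat_lit 0), (nat_lit 7926406)]) (PF.cons (PF.leaf (nat_lit 8590656) (nat_lit 596385) (nat_lit 34009053) (nat_lit 8261959) [(nat_lit 596385), (nat_lit 0), (nat_lit 0), (nat_lit 7881676)]) (PF.cons (PF.leaf (nat_lit 8916296) (nat_lit 603174) (nat_lit 33582746) (nat_lit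 8211445) [(nat_lit 603174), (nat_lit 0), (nat_lit 0), (nat_lit 7835032)]) (PF.cons (PF.leaf (nat_lit 9246766) (nat_lit 608849) (nat_lit 33154103) (nat_lit 8159207) [(nat_lit 608849), (nat_lit 0), (nat_lit 0), (nat_lit 7786701)]) PF.nil))))) (PF.cons (PF.cons (PF.leaf (nat_lit 8644645) (nat_lit 1741479) (nat_lit 33640849) (nat_lit 8214394) [(nat_lit 0), (nat_lit 1741479), (nat_lit 0), (nat_lit 7837363)]) (PF.cons
 (PF.leaf (nat_lit 8962677) (nat_lit 600291) (nat_lit 33226702) (nat_lit 8164260) [(nat_lit 600291), (nat_lit 1744532), (nat_lit 0), (nat_lit 7791008)]) (PF.cons (PF.leaf (nat_lit 9286629) (nat_lit 606067) (nat_lit 32809131) (nat_lit 8112352) [(nat_lit 606067), (nat_lit 1746421), (nat_lit 0), (nat_lit 7742924)]) (PF.cons PF.nil PF.nil)))) (PF.cons (PF.cons (PF.leaf (nat_lit 9328522) (nat_lit 1740947) (nat_lit 32465962) (nat_lit 8064999) [(nat_lit 0), (nat_lit 1740947), (nat_lit 0), (nat_lit 7698652)]) (PF.cons (PF.leaf (nat_lit 9650155) (nat_lit 607909) (nat_lit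 32057733) (nat_lit 8011986) [(nat_lit 607909), (nat_lit 1741474), (nat_lit 0), (nat_lit 7649411)]) PF.nil)) (PF.cons PF.nil (PF.cons PF.nil PF.nil))))) (PF.cons (PF.cons (PF.cons (PF.leaf (nat_lit 9048738) (nat_lit 3618274) (nat_lit 32406781) (nat_lit 8045425) [(nat_lit 0), (nat_lit 0), (nat_lit 3618274), (nat_lit 7679443)]) (PF.cons (PF.leaf (nat_lit 9361167) (nat_lit 597017) (nat_lit 32013176) (nat_lit 7994615) [(nat_lit 597017), (nat_lit 0), (nat_lit 3607134), (nat_lit 7632289)]) (PF.cons (PF.leaf (nat_lit 9679085) (nat_lit 602136) (nat_lit 31616685) (nat_lit 7942219) [(nat_lit 602136), (nat_lit 0), (nat_lit 3594862),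
 (nat_lit 7583590)]) (PF.cons PF.nil PF.nil)))) (PF.cons (PF.cons (PF.leaf (nat_lit 9716165) (nat_lit 1722105) (nat_lit 31293425) (nat_lit 7895198) [(nat_lit 0), (nat_lit 1722105), (nat_lit 3579507), (nat_lit 7539525)]) (PF.cons PF.nil PF.nil)) (PF.cons PF.nil PF.nil))) (PF.cons (PF.cons (PF.cons (PF.leaf (nat_lit 10088348) (nat_lit 3523139) (nat_lit 30188720) (nat_lit 7727528) [(nat_lit 0), (nat_lit 0), (nat_lit 3523139), (nat_lit 7382095)]) (PF.cons PF.nil PF.nil)) (PF.cons PF.nil PF.nil)) PF.nil))) (PF.cons (PF.cons (PF.cons (PF.cons (PF.leaf (nat_lit 9508690) (nat_lit 7332331) (nat_lit 30102315) (nat_lit 7677172) [(nat_lit 0), (nat_lit 0), (nat_lit 0), (nat_lit 7332331)]) (PF.cons (PF.leaf (nat_lit 9807957) (nat_lit 578901) (nat_lit 29754420) (nat_lit 7628286) [(nat_lit 578901), (nat_lit 0), (nat_lit 0), (nat_lit 7286800)]) (PF.cons PF.nil PF.nil))) (PF.cons (PF.cons (PF.leaf (nat_lit 10144310) (nat_lit 1663143) (nat_lit 29119517) (nat_lit 7533551) [(nat_lit 0), (nat_lit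 1663143), (nat_lit 0), (nat_lit 7198149)]) PF.nil) PF.nil)) (PF.cons PF.nil PF.nil)) (PF.cons PF.nil (PF.cons PF.nil (PF.cons PF.nil (PF.cons PF.nil PF.nil)))))))))

def p14_16_1_0 : pfC (piC [(nat_lit 35755509), (nat_lit 23968959), (nat_lit 17897616), (nat_lit 12073119)] (nat_lit 10847095)) p14_16_1 (nat_lit 4) (nat_lit 0) (nat_lit 1) = true := by decide +kernel
def p14_16_1_1 : pfC (piC [(nat_lit 35755509), (nat_lit 23968959), (nat_lit 17897616), (nat_lit 12073119)] (nat_lit 10847095)) p14_16_1 (nat_lit 4) (nat_lit 1) (nat_lit 2) = true := by decide +kernel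
def p14_16_1_2 : pfC (piC [(nat_lit 35755509), (nat_lit 23968959), (nat_lit 17897616), (nat_lit 12073119)] (nat_lit 10847095)) p14_16_1 (nat_lit 4) (nat_lit 2) (nat_lit 3) = true := by decide +kernel
def p14_16_1_3 : pfC (piC [(nat_lit 35755509), (nat_lit 23968959), (nat_lit 17897616), (nat_lit 12073119)] (nat_lit 10847095)) p14_16_1 (nat_lit 4) (nat_lit 3) (nat_lit 4) = true := by decide +kernel
def p14_16_1_4 : pfC (piC [(nat_lit 35755509), (nat_lit 23968959), (nat_lit 17897616), (nat_lit 12073119)] (nat_lit 10847095)) p14_16_1 (nat_lit 4) (nat_lit 4) (nat_lit 5) = true := by decide +kernel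
def p14_16_1_5 : pfC (piC [(nat_lit 35755509), (nat_lit 23968959), (nat_lit 17897616), (nat_lit 12073119)] (nat_lit 10847095)) p14_16_1 (nat_lit 4) (nat_lit 5) (nat_lit 6) = true := by decide +kernel
def p14_16_1_6 : pfC (piC [(nat_lit 35755509), (nat_lit 23968959), (nat_lit 17897616), (nat_lit 12073119)] (nat_lit 10847095)) p14_16_1 (nat_lit 4) (nat_lit 6) (nat_lit 7) = true := by decide +kernel
def p14_16_1_7 : pfC (piC [(nat_lit 35755509), (nat_lit 23968959), (nat_lit 17897616), (nat_lit 12073119)] (nat_lit 10847095)) p14_16_1 (nat_lit 4) (nat_lit 7) (nat_lit 8) = true := by decide +kernel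
def p14_16_1_8 : pfC (piC [(nat_lit 35755509), (nat_lit 23968959), (nat_lit 17897616), (nat_lit 12073119)] (nat_lit 10847095)) p14_16_1 (nat_lit 4) (nat_lit 8) (nat_lit 9) = true := by decide +kernel
def p14_16_1_9 : pfC (piC [(nat_lit 35755509), (nat_lit 23968959), (nat_lit 17897616), (nat_lit 12073119)] (nat_lit 10847095)) p14_16_1 (nat_lit 4) (nat_lit 9) (nat_lit 10) = true := by decide +kernel
def p14_16_1_10 : pfC (piC [(nat_lit 35755509), (nat_lit 23968959), (nat_lit 17897616), (nat_lit 12073119)] (nat_lit 10847095)) p14_16_1 (nat_lit 4) (nat_lit 10) (nat_lit 11) = true := by decide +kernel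
def p14_16_1_11 : pfC (piC [(nat_lit 35755509), (nat_lit 23968959), (nat_lit 17897616), (nat_lit 12073119)] (nat_lit 10847095)) p14_16_1 (nat_lit 4) (nat_lit 11) (nat_lit 12) = true := by decide +kernel
def p14_16_1_12 : pfC (piC [(nat_lit 35755509), (nat_lit 23968959), (nat_lit 17897616), (nat_lit 12073119)] (nat_lit 10847095)) p14_16_1 (nat_lit 4) (nat_lit 12) (nat_lit 13) = true := by decide +kernel
def p14_16_1_13 : pfC (piC [(nat_lit 35755509), (nat_lit 23968959), (nat_lit 17897616), (nat_lit 12073119)] (nat_lit 10847095)) p14_16_1 (nat_lit 4) (nat_lit 13) (nat_lit 14) = true := by decide +kernel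
def p14_16_1_14 : pfC (piC [(nat_lit 35755509), (nat_lit 23968959), (nat_lit 17897616), (nat_lit 12073119)] (nat_lit 10847095)) p14_16_1 (nat_lit 4) (nat_lit 14) (nat_lit 15) = true := by decide +kernel
def p14_16_1_15 : pfC (piC [(nat_lit 35755509), (nat_lit 23968959), (nat_lit 17897616), (nat_lit 12073119)] (nat_lit 10847095)) p14_16_1 (nat_lit 4) (nat_lit 15) (nat_lit 16) = true := by decide +kernel
def p14_16_1_16 : pfC (piC [(nat_lit 35755509), (nat_lit 23968959), (nat_lit 17897616), (nat_lit 12073119)] (nat_lit 10847095)) p14_16_1 (nat_lit 4) (nat_lit 16) (nat_lit 17) = true := by decide +kernel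
def p14_16_1_17 : pfC (piC [(nat_lit 35755509), (nat_lit 23968959), (nat_lit 17897616), (nat_lit 12073119)] (nat_lit 10847095)) p14_16_1 (nat_lit 4) (nat_lit 17) (nat_lit 18) = true := by decide +kernel
def p14_16_1_18 : pfC (piC [(nat_lit 35755509), (nat_lit 23968959), (nat_lit 17897616), (nat_lit 12073119)] (nat_lit 10847095)) p14_16_1 (nat_lit 4) (nat_lit 18) (nat_lit 19) = true := by decide +kernel
def p14_16_1_19 : pfC (piC [(nat_lit 35755509), (nat_lit 23968959), (nat_lit 17897616), (nat_lit 12073119)] (nat_lit 10847095)) p14_16_1 (nat_lit 4) (nat_lit 19) (nat_lit 20) = true := by decide +kernel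
def p14_16_1_20 : pfC (piC [(nat_lit 35755509), (nat_lit 23968959), (nat_lit 17897616), (nat_lit 12073119)] (nat_lit 10847095)) p14_16_1 (nat_lit 4) (nat_lit 20) (nat_lit 21) = true := by decide +kernel
def p14_16_1_21 : pfC (piC [(nat_lit 35755509), (nat_lit 23968959), (nat_lit 17897616), (nat_lit 12073119)] (nat_lit 10847095)) p14_16_1 (nat_lit 4) (nat_lit 21) (nat_lit 22) = true := by decide +kernel
def p14_16_1_22 : pfC (piC [(nat_lit 35755509), (nat_lit 23968959), (nat_lit 17897616), (nat_lit 12073119)] (nat_lit 10847095)) p14_16_1 (nat_lit 4) (nat_lit 22) (nat_lit 23) = true := by decide +kernel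
def p14_16_1_23 : pfC (piC [(nat_lit 35755509), (nat_lit 23968959), (nat_lit 17897616), (nat_lit 12073119)] (nat_lit 10847095)) p14_16_1 (nat_lit 4) (nat_lit 23) (nat_lit 24) = true := by decide +kernel
def p14_16_1_24 : pfC (piC [(nat_lit 35755509), (nat_lit 23968959), (nat_lit 17897616), (nat_lit 12073119)] (nat_lit 10847095)) p14_16_1 (nat_lit 4) (nat_lit 24) (nat_lit 25) = true := by decide +kernel
def p14_16_1_25 : pfC (piC [(nat_lit 35755509), (nat_lit 23968959), (nat_lit 17897616), (nat_lit 12073119)] (nat_lit 10847095)) p14_16_1 (nat_lit 4) (nat_lit 25) (nat_lit 26) = true := by decide +kernel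
def p14_16_1_26 : pfC (piC [(nat_lit 35755509), (nat_lit 23968959), (nat_lit 17897616), (nat_lit 12073119)] (nat_lit 10847095)) p14_16_1 (nat_lit 4) (nat_lit 26) (nat_lit 27) = true := by decide +kernel
def p14_16_1_27 : pfC (piC [(nat_lit 35755509), (nat_lit 23968959), (nat_lit 17897616), (nat_lit 12073119)] (nat_lit 10847095)) p14_16_1 (nat_lit 4) (nat_lit 27) (nat_lit 28) = true := by decide +kernel
def p14_16_1_28 : pfC (piC [(nat_lit 35755509), (nat_lit 23968959), (nat_lit 17897616), (nat_lit 12073119)] (nat_lit 10847095)) p14_16_1 (nat_lit 4) (nat_lit 28) (nat_lit 29) = true := by decide +kernel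
def p14_16_1_29 : pfC (piC [(nat_lit 35755509), (nat_lit 23968959), (nat_lit 17897616), (nat_lit 12073119)] (nat_lit 10847095)) p14_16_1 (nat_lit 4) (nat_lit 29) (nat_lit 30) = true := by decide +kernel
def p14_16_1_30 : pfC (piC [(nat_lit 35755509), (nat_lit 23968959), (nat_lit 17897616), (nat_lit 12073119)] (nat_lit 10847095)) p14_16_1 (nat_lit 4) (nat_lit 30) (nat_lit 31) = true := by decide +kernel
def p14_16_1_31 : pfC (piC [(nat_lit 35755509), (nat_lit 23968959), (nat_lit 17897616), (nat_lit 12073119)] (nat_lit 10847095)) p14_16_1 (nat_lit 4) (nat_lit 31) (nat_lit 32) = true := by decide +kernel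
def p14_16_1_32 : pfC (piC [(nat_lit 35755509), (nat_lit 23968959), (nat_lit 17897616), (nat_lit 12073119)] (nat_lit 10847095)) p14_16_1 (nat_lit 4) (nat_lit 32) (nat_lit 33) = true := by decide +kernel
def p14_16_1_33 : pfC (piC [(nat_lit 35755509), (nat_lit 23968959), (nat_lit 17897616), (nat_lit 12073119)] (nat_lit 10847095)) p14_16_1 (nat_lit 4) (nat_lit 33) (nat_lit 34) = true := by decide +kernel
def p14_16_1_34 : pfC (piC [(nat_lit 35755509), (nat_lit 23968959), (nat_lit 17897616), (nat_lit 12073119)] (nat_lit 10847095)) p14_16_1 (nat_lit 4) (nat_lit 34) (nat_lit 35) = true := by decide +kernel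
def p14_16_1_35 : pfC (piC [(nat_lit 35755509), (nat_lit 23968959), (nat_lit 17897616), (nat_lit 12073119)] (nat_lit 10847095)) p14_16_1 (nat_lit 4) (nat_lit 35) (nat_lit 36) = true := by decide +kernel
def p14_16_1_36 : pfC (piC [(nat_lit 35755509), (nat_lit 23968959), (nat_lit 17897616), (nat_lit 12073119)] (nat_lit 10847095)) p14_16_1 (nat_lit 4) (nat_lit 36) (nat_lit 37) = true := by decide +kernel
def p14_16_1_37 : pfC (piC [(nat_lit 35755509), (nat_lit 23968959), (nat_lit 17897616), (nat_lit 12073119)] (nat_lit 10847095)) p14_16_1 (nat_lit 4) (nat_lit 37) (nat_lit 38) = true := by decide +kernel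
def p14_16_1_38 : pfC (piC [(nat_lit 35755509), (nat_lit 23968959), (nat_lit 17897616), (nat_lit 12073119)] (nat_lit 10847095)) p14_16_1 (nat_lit 4) (nat_lit 38) (nat_lit 39) = true := by decide +kernel
def p14_16_1_39 : pfC (piC [(nat_lit 35755509), (nat_lit 23968959), (nat_lit 17897616), (nat_lit 12073119)] (nat_lit 10847095)) p14_16_1 (nat_lit 4) (nat_lit 39) (nat_lit 40) = true := by decide +kernel
def p14_16_1_40 : pfC (piC [(nat_lit 35755509), (nat_lit 23968959), (nat_lit 17897616), (nat_lit 12073119)] (nat_lit 10847095)) p14_16_1 (nat_lit 4) (nat_lit 40) (nat_lit 41) = true := by decide +kernel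
def p14_16_1_41 : pfC (piC [(nat_lit 35755509), (nat_lit 23968959), (nat_lit 17897616), (nat_lit 12073119)] (nat_lit 10847095)) p14_16_1 (nat_lit 4) (nat_lit 41) (nat_lit 42) = true := by decide +kernel
def p14_16_1_42 : pfC (piC [(nat_lit 35755509), (nat_lit 23968959), (nat_lit 17897616), (nat_lit 12073119)] (nat_lit 10847095)) p14_16_1 (nat_lit 4) (nat_lit 42) (nat_lit 43) = true := by decide +kernel
def p14_16_1_43 : pfC (piC [(nat_lit 35755509), (nat_lit 23968959), (nat_lit 17897616), (nat_lit 12073119)] (nat_lit 10847095)) p14_16_1 (nat_lit 4) (nat_lit 43) (nat_lit 44) = true := by decide +kernel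
def p14_16_1_44 : pfC (piC [(nat_lit 35755509), (nat_lit 23968959), (nat_lit 17897616), (nat_lit 12073119)] (nat_lit 10847095)) p14_16_1 (nat_lit 4) (nat_lit 44) (nat_lit 45) = true := by decide +kernel
def p14_16_1_45 : pfC (piC [(nat_lit 35755509), (nat_lit 23968959), (nat_lit 17897616), (nat_lit 12073119)] (nat_lit 10847095)) p14_16_1 (nat_lit 4) (nat_lit 45) (nat_lit 46) = true := by decide +kernel
def p14_16_1_46 : pfC (piC [(nat_lit 35755509), (nat_lit 23968959), (nat_lit 17897616), (nat_lit 12073119)] (nat_lit 10847095)) p14_16_1 (nat_lit 4) (nat_lit 46) (nat_lit 47) = true := by decide +kernel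
def p14_16_1_47 : pfC (piC [(nat_lit 35755509), (nat_lit 23968959), (nat_lit 17897616), (nat_lit 12073119)] (nat_lit 10847095)) p14_16_1 (nat_lit 4) (nat_lit 47) (nat_lit 48) = true := by decide +kernel
def p14_16_1_48 : pfC (piC [(nat_lit 35755509), (nat_lit 23968959), (nat_lit 17897616), (nat_lit 12073119)] (nat_lit 10847095)) p14_16_1 (nat_lit 4) (nat_lit 48) (nat_lit 49) = true := by decide +kernel
def p14_16_1_49 : pfC (piC [(nat_lit 35755509), (nat_lit 23968959), (nat_lit 17897616), (nat_lit 12073119)] (nat_lit 10847095)) p14_16_1 (nat_lit 4) (nat_lit 49) (nat_lit 50) = true := by decide +kernel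
def p14_16_1_50 : pfC (piC [(nat_lit 35755509), (nat_lit 23968959), (nat_lit 17897616), (nat_lit 12073119)] (nat_lit 10847095)) p14_16_1 (nat_lit 4) (nat_lit 50) (nat_lit 51) = true := by decide +kernel
def p14_16_1_51 : pfC (piC [(nat_lit 35755509), (nat_lit 23968959), (nat_lit 17897616), (nat_lit 12073119)] (nat_lit 10847095)) p14_16_1 (nat_lit 4) (nat_lit 51) (nat_lit 52) = true := by decide +kernel
def p14_16_1_52 : pfC (piC [(nat_lit 35755509), (nat_lit 23968959), (nat_lit 17897616), (nat_lit 12073119)] (nat_lit 10847095)) p14_16_1 (nat_lit 4) (nat_lit 52) (nat_lit 53) = true := by decide +kernel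
def p14_16_1_53 : pfC (piC [(nat_lit 35755509), (nat_lit 23968959), (nat_lit 17897616), (nat_lit 12073119)] (nat_lit 10847095)) p14_16_1 (nat_lit 4) (nat_lit 53) (nat_lit 54) = true := by decide +kernel
def p14_16_1_54 : pfC (piC [(nat_lit 35755509), (nat_lit 23968959), (nat_lit 17897616), (nat_lit 12073119)] (nat_lit 10847095)) p14_16_1 (nat_lit 4) (nat_lit 54) (nat_lit 55) = true := by decide +kernel
def p14_16_1_55 : pfC (piC [(nat_lit 35755509), (nat_lit 23968959), (nat_lit 17897616), (nat_lit 12073119)] (nat_lit 10847095)) p14_16_1 (nat_lit 4) (nat_lit 55) (nat_lit 56) = true := by decide +kernel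
def p14_16_1_56 : pfC (piC [(nat_lit 35755509), (nat_lit 23968959), (nat_lit 17897616), (nat_lit 12073119)] (nat_lit 10847095)) p14_16_1 (nat_lit 4) (nat_lit 56) (nat_lit 57) = true := by decide +kernel
def p14_16_1_57 : pfC (piC [(nat_lit 35755509), (nat_lit 23968959), (nat_lit 17897616), (nat_lit 12073119)] (nat_lit 10847095)) p14_16_1 (nat_lit 4) (nat_lit 57) (nat_lit 58) = true := by decide +kernel
def p14_16_1_58 : pfC (piC [(nat_lit 35755509), (nat_lit 23968959), (nat_lit 17897616), (nat_lit 12073119)] (nat_lit 10847095)) p14_16_1 (nat_lit 4) (nat_lit 58) (nat_lit 59) = true := by decide +kernel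
def p14_16_1_59 : pfC (piC [(nat_lit 35755509), (nat_lit 23968959), (nat_lit 17897616), (nat_lit 12073119)] (nat_lit 10847095)) p14_16_1 (nat_lit 4) (nat_lit 59) (nat_lit 60) = true := by decide +kernel
def p14_16_1_60 : pfC (piC [(nat_lit 35755509), (nat_lit 23968959), (nat_lit 17897616), (nat_lit 12073119)] (nat_lit 10847095)) p14_16_1 (nat_lit 4) (nat_lit 60) (nat_lit 61) = true := by decide +kernel
def p14_16_1_61 : pfC (piC [(nat_lit 35755509), (nat_lit 23968959), (nat_lit 17897616), (nat_lit 12073119)] (nat_lit 10847095)) p14_16_1 (nat_lit 4) (nat_lit 61) (nat_lit 62) = true := by decide +kernel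
def p14_16_1_62 : pfC (piC [(nat_lit 35755509), (nat_lit 23968959), (nat_lit 17897616), (nat_lit 12073119)] (nat_lit 10847095)) p14_16_1 (nat_lit 4) (nat_lit 62) (nat_lit 63) = true := by decide +kernel
def p14_16_1_63 : pfC (piC [(nat_lit 35755509), (nat_lit 23968959), (nat_lit 17897616), (nat_lit 12073119)] (nat_lit 10847095)) p14_16_1 (nat_lit 4) (nat_lit 63) (nat_lit 64) = true := by decide +kernel
def p14_16_1_64 : pfC (piC [(nat_lit 35755509), (nat_lit 23968959), (nat_lit 17897616), (nat_lit 12073119)] (nat_lit 10847095)) p14_16_1 (nat_lit 4) (nat_lit 64) (nat_lit 65) = true := by decide +kernel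
def p14_16_1_65 : pfC (piC [(nat_lit 35755509), (nat_lit 23968959), (nat_lit 17897616), (nat_lit 12073119)] (nat_lit 10847095)) p14_16_1 (nat_lit 4) (nat_lit 65) (nat_lit 66) = true := by decide +kernel
def p14_16_1_66 : pfC (piC [(nat_lit 35755509), (nat_lit 23968959), (nat_lit 17897616), (nat_lit 12073119)] (nat_lit 10847095)) p14_16_1 (nat_lit 4) (nat_lit 66) (nat_lit 67) = true := by decide +kernel
def p14_16_1_67 : pfC (piC [(nat_lit 35755509), (nat_lit 23968959), (nat_lit 17897616), (nat_lit 12073119)] (nat_lit 10847095)) p14_16_1 (nat_lit 4) (nat_lit 67) (nat_lit 68) = true := by decide +kernel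
def p14_16_1_68 : pfC (piC [(nat_lit 35755509), (nat_lit 23968959), (nat_lit 17897616), (nat_lit 12073119)] (nat_lit 10847095)) p14_16_1 (nat_lit 4) (nat_lit 68) (nat_lit 69) = true := by decide +kernel
def p14_16_1_69 : pfC (piC [(nat_lit 35755509), (nat_lit 23968959), (nat_lit 17897616), (nat_lit 12073119)] (nat_lit 10847095)) p14_16_1 (nat_lit 4) (nat_lit 69) (nat_lit 70) = true := by decide +kernel
def p14_16_1_70 : pfC (piC [(nat_lit 35755509), (nat_lit 23968959), (nat_lit 17897616), (nat_lit 12073119)] (nat_lit 10847095)) p14_16_1 (nat_lit 4) (nat_lit 70) (nat_lit 71) = true := by decide +kernel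
def p14_16_1_71 : pfC (piC [(nat_lit 35755509), (nat_lit 23968959), (nat_lit 17897616), (nat_lit 12073119)] (nat_lit 10847095)) p14_16_1 (nat_lit 4) (nat_lit 71) (nat_lit 72) = true := by decide +kernel
def p14_16_1_72 : pfC (piC [(nat_lit 35755509), (nat_lit 23968959), (nat_lit 17897616), (nat_lit 12073119)] (nat_lit 10847095)) p14_16_1 (nat_lit 4) (nat_lit 72) (nat_lit 73) = true := by decide +kernel
def p14_16_1_73 : pfC (piC [(nat_lit 35755509), (nat_lit 23968959), (nat_lit 17897616), (nat_lit 12073119)] (nat_lit 10847095)) p14_16_1 (nat_lit 4) (nat_lit 73) (nat_lit 74) = true := by decide +kernel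
def p14_16_1_74 : pfC (piC [(nat_lit 35755509), (nat_lit 23968959), (nat_lit 17897616), (nat_lit 12073119)] (nat_lit 10847095)) p14_16_1 (nat_lit 4) (nat_lit 74) (nat_lit 75) = true := by decide +kernel
def p14_16_1_75 : pfC (piC [(nat_lit 35755509), (nat_lit 23968959), (nat_lit 17897616), (nat_lit 12073119)] (nat_lit 10847095)) p14_16_1 (nat_lit 4) (nat_lit 75) (nat_lit 76) = true := by decide +kernel
def p14_16_1_76 : pfC (piC [(nat_lit 35755509), (nat_lit 23968959), (nat_lit 17897616), (nat_lit 12073119)] (nat_lit 10847095)) p14_16_1 (nat_lit 4) (nat_lit 76) (nat_lit 77) = true := by decide +kernel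
def p14_16_1_77 : pfC (piC [(nat_lit 35755509), (nat_lit 23968959), (nat_lit 17897616), (nat_lit 12073119)] (nat_lit 10847095)) p14_16_1 (nat_lit 4) (nat_lit 77) (nat_lit 78) = true := by decide +kernel
def p14_16_1_78 : pfC (piC [(nat_lit 35755509), (nat_lit 23968959), (nat_lit 17897616), (nat_lit 12073119)] (nat_lit 10847095)) p14_16_1 (nat_lit 4) (nat_lit 78) (nat_lit 79) = true := by decide +kernel
def p14_16_1_79 : pfC (piC [(nat_lit 35755509), (nat_lit 23968959), (nat_lit 17897616), (nat_lit 12073119)] (nat_lit 10847095)) p14_16_1 (nat_lit 4) (nat_lit 79) (nat_lit 80) = true := by decide +kernel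
def p14_16_1_80 : pfC (piC [(nat_lit 35755509), (nat_lit 23968959), (nat_lit 17897616), (nat_lit 12073119)] (nat_lit 10847095)) p14_16_1 (nat_lit 4) (nat_lit 80) (nat_lit 81) = true := by decide +kernel
def p14_16_1_81 : pfC (piC [(nat_lit 35755509), (nat_lit 23968959), (nat_lit 17897616), (nat_lit 12073119)] (nat_lit 10847095)) p14_16_1 (nat_lit 4) (nat_lit 81) (nat_lit 82) = true := by decide +kernel
def p14_16_1_82 : pfC (piC [(nat_lit 35755509), (nat_lit 23968959), (nat_lit 17897616), (nat_lit 12073119)] (nat_lit 10847095)) p14_16_1 (nat_lit 4) (nat_lit 82) (nat_lit 83) = true := by decide +kernel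
def p14_16_1_83 : pfC (piC [(nat_lit 35755509), (nat_lit 23968959), (nat_lit 17897616), (nat_lit 12073119)] (nat_lit 10847095)) p14_16_1 (nat_lit 4) (nat_lit 83) (nat_lit 84) = true := by decide +kernel
def p14_16_1_84 : pfC (piC [(nat_lit 35755509), (nat_lit 23968959), (nat_lit 17897616), (nat_lit 12073119)] (nat_lit 10847095)) p14_16_1 (nat_lit 4) (nat_lit 84) (nat_lit 85) = true := by decide +kernel
def p14_16_1_85 : pfC (piC [(nat_lit 35755509), (nat_lit 23968959), (nat_lit 17897616), (nat_lit 12073119)] (nat_lit 10847095)) p14_16_1 (nat_lit 4) (nat_lit 85) (nat_lit 86) = true := by decide +kernel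
def p14_16_1_86 : pfC (piC [(nat_lit 35755509), (nat_lit 23968959), (nat_lit 17897616), (nat_lit 12073119)] (nat_lit 10847095)) p14_16_1 (nat_lit 4) (nat_lit 86) (nat_lit 87) = true := by decide +kernel
def p14_16_1_87 : pfC (piC [(nat_lit 35755509), (nat_lit 23968959), (nat_lit 17897616), (nat_lit 12073119)] (nat_lit 10847095)) p14_16_1 (nat_lit 4) (nat_lit 87) (nat_lit 88) = true := by decide +kernel
def p14_16_1_88 : pfC (piC [(nat_lit 35755509), (nat_lit 23968959), (nat_lit 17897616), (nat_lit 12073119)] (nat_lit 10847095)) p14_16_1 (nat_lit 4) (nat_lit 88) (nat_lit 89) = true := by decide +kernel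
def p14_16_1_89 : pfC (piC [(nat_lit 35755509), (nat_lit 23968959), (nat_lit 17897616), (nat_lit 12073119)] (nat_lit 10847095)) p14_16_1 (nat_lit 4) (nat_lit 89) (nat_lit 90) = true := by decide +kernel
def p14_16_1_90 : pfC (piC [(nat_lit 35755509), (nat_lit 23968959), (nat_lit 17897616), (nat_lit 12073119)] (nat_lit 10847095)) p14_16_1 (nat_lit 4) (nat_lit 90) (nat_lit 91) = true := by decide +kernel
def p14_16_1_91 : pfC (piC [(nat_lit 35755509), (nat_lit 23968959), (nat_lit 17897616), (nat_lit 12073119)] (nat_lit 10847095)) p14_16_1 (nat_lit 4) (nat_lit 91) (nat_lit 92) = true := by decide +kernel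
def p14_16_1_92 : pfC (piC [(nat_lit 35755509), (nat_lit 23968959), (nat_lit 17897616), (nat_lit 12073119)] (nat_lit 10847095)) p14_16_1 (nat_lit 4) (nat_lit 92) (nat_lit 93) = true := by decide +kernel
def p14_16_1_93 : pfC (piC [(nat_lit 35755509), (nat_lit 23968959), (nat_lit 17897616), (nat_lit 12073119)] (nat_lit 10847095)) p14_16_1 (nat_lit 4) (nat_lit 93) (nat_lit 94) = true := by decide +kernel
def p14_16_1_94 : pfC (piC [(nat_lit 35755509), (nat_lit 23968959), (nat_lit 17897616), (nat_lit 12073119)] (nat_lit 10847095)) p14_16_1 (nat_lit 4) (nat_lit 94) (nat_lit 95) = true := by decide +kernel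
def p14_16_1_95 : pfC (piC [(nat_lit 35755509), (nat_lit 23968959), (nat_lit 17897616), (nat_lit 12073119)] (nat_lit 10847095)) p14_16_1 (nat_lit 4) (nat_lit 95) (nat_lit 96) = true := by decide +kernel
def p14_16_1_96 : pfC (piC [(nat_lit 35755509), (nat_lit 23968959), (nat_lit 17897616), (nat_lit 12073119)] (nat_lit 10847095)) p14_16_1 (nat_lit 4) (nat_lit 96) (nat_lit 97) = true := by decide +kernel
def p14_16_1_97 : pfC (piC [(nat_lit 35755509), (nat_lit 23968959), (nat_lit 17897616), (nat_lit 12073119)] (nat_lit 10847095)) p14_16_1 (nat_lit 4) (nat_lit 97) (nat_lit 98) = true := by decide +kernel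
def p14_16_1_98 : pfC (piC [(nat_lit 35755509), (nat_lit 23968959), (nat_lit 17897616), (nat_lit 12073119)] (nat_lit 10847095)) p14_16_1 (nat_lit 4) (nat_lit 98) (nat_lit 99) = true := by decide +kernel
def p14_16_1_99 : pfC (piC [(nat_lit 35755509), (nat_lit 23968959), (nat_lit 17897616), (nat_lit 12073119)] (nat_lit 10847095)) p14_16_1 (nat_lit 4) (nat_lit 99) (nat_lit 100) = true := by decide +kernel
def p14_16_1_100 : pfC (piC [(nat_lit 35755509), (nat_lit 23968959), (nat_lit 17897616), (nat_lit 12073119)] (nat_lit 10847095)) p14_16_1 (nat_lit 4) (nat_lit 100) (nat_lit 101) = true := by decide +kernel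
def p14_16_1_101 : pfC (piC [(nat_lit 35755509), (nat_lit 23968959), (nat_lit 17897616), (nat_lit 12073119)] (nat_lit 10847095)) p14_16_1 (nat_lit 4) (nat_lit 101) (nat_lit 102) = true := by decide +kernel
def p14_16_1_102 : pfC (piC [(nat_lit 35755509), (nat_lit 23968959), (nat_lit 17897616), (nat_lit 12073119)] (nat_lit 10847095)) p14_16_1 (nat_lit 4) (nat_lit 102) (nat_lit 103) = true := by decide +kernel
def p14_16_1_103 : pfC (piC [(nat_lit 35755509), (nat_lit 23968959), (nat_lit 17897616), (nat_lit 12073119)] (nat_lit 10847095)) p14_16_1 (nat_lit 4) (nat_lit 103) (nat_lit 104) = true := by decide +kernel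
def p14_16_1_104 : pfC (piC [(nat_lit 35755509), (nat_lit 23968959), (nat_lit 17897616), (nat_lit 12073119)] (nat_lit 10847095)) p14_16_1 (nat_lit 4) (nat_lit 104) (nat_lit 105) = true := by decide +kernel
def p14_16_1_105 : pfC (piC [(nat_lit 35755509), (nat_lit 23968959), (nat_lit 17897616), (nat_lit 12073119)] (nat_lit 10847095)) p14_16_1 (nat_lit 4) (nat_lit 105) (nat_lit 106) = true := by decide +kernel
def p14_16_1_106 : pfC (piC [(nat_lit 35755509), (nat_lit 23968959), (nat_lit 17897616), (nat_lit 12073119)] (nat_lit 10847095)) p14_16_1 (nat_lit 4) (nat_lit 106) (nat_lit 107) = true := by decide +kernel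
def p14_16_1_107 : pfC (piC [(nat_lit 35755509), (nat_lit 23968959), (nat_lit 17897616), (nat_lit 12073119)] (nat_lit 10847095)) p14_16_1 (nat_lit 4) (nat_lit 107) (nat_lit 108) = true := by decide +kernel
def p14_16_1_108 : pfC (piC [(nat_lit 35755509), (nat_lit 23968959), (nat_lit 17897616), (nat_lit 12073119)] (nat_lit 10847095)) p14_16_1 (nat_lit 4) (nat_lit 108) (nat_lit 109) = true := by decide +kernel
def p14_16_1_109 : pfC (piC [(nat_lit 35755509), (nat_lit 23968959), (nat_lit 17897616), (nat_lit 12073119)] (nat_lit 10847095)) p14_16_1 (nat_lit 4) (nat_lit 109) (nat_lit 110) = true := by decide +kernel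
def p14_16_1_110 : pfC (piC [(nat_lit 35755509), (nat_lit 23968959), (nat_lit 17897616), (nat_lit 12073119)] (nat_lit 10847095)) p14_16_1 (nat_lit 4) (nat_lit 110) (nat_lit 111) = true := by decide +kernel
def p14_16_1_111 : pfC (piC [(nat_lit 35755509), (nat_lit 23968959), (nat_lit 17897616), (nat_lit 12073119)] (nat_lit 10847095)) p14_16_1 (nat_lit 4) (nat_lit 111) (nat_lit 112) = true := by decide +kernel
def p14_16_1_112 : pfC (piC [(nat_lit 35755509), (nat_lit 23968959), (nat_lit 17897616), (nat_lit 12073119)] (nat_lit 10847095)) p14_16_1 (nat_lit 4) (nat_lit 112) (nat_lit 113) = true := by decide +kernel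
def p14_16_1_113 : pfC (piC [(nat_lit 35755509), (nat_lit 23968959), (nat_lit 17897616), (nat_lit 12073119)] (nat_lit 10847095)) p14_16_1 (nat_lit 4) (nat_lit 113) (nat_lit 114) = true := by decide +kernel
def p14_16_1_114 : pfC (piC [(nat_lit 35755509), (nat_lit 23968959), (nat_lit 17897616), (nat_lit 12073119)] (nat_lit 10847095)) p14_16_1 (nat_lit 4) (nat_lit 114) (nat_lit 115) = true := by decide +kernel
def p14_16_1_115 : pfC (piC [(nat_lit 35755509), (nat_lit 23968959), (nat_lit 17897616), (nat_lit 12073119)] (nat_lit 10847095)) p14_16_1 (nat_lit 4) (nat_lit 115) (nat_lit 116) = true := by decide +kernel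
def p14_16_1_116 : pfC (piC [(nat_lit 35755509), (nat_lit 23968959), (nat_lit 17897616), (nat_lit 12073119)] (nat_lit 10847095)) p14_16_1 (nat_lit 4) (nat_lit 116) (nat_lit 117) = true := by decide +kernel
def p14_16_1_117 : pfC (piC [(nat_lit 35755509), (nat_lit 23968959), (nat_lit 17897616), (nat_lit 12073119)] (nat_lit 10847095)) p14_16_1 (nat_lit 4) (nat_lit 117) (nat_lit 118) = true := by decide +kernel
def p14_16_1_118 : pfC (piC [(nat_lit 35755509), (nat_lit 23968959), (nat_lit 17897616), (nat_lit 12073119)] (nat_lit 10847095)) p14_16_1 (nat_lit 4) (nat_lit 118) (nat_lit 119) = true := by decide +kernel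
def p14_16_1_119 : pfC (piC [(nat_lit 35755509), (nat_lit 23968959), (nat_lit 17897616), (nat_lit 12073119)] (nat_lit 10847095)) p14_16_1 (nat_lit 4) (nat_lit 119) (nat_lit 120) = true := by decide +kernel
def p14_16_1_120 : pfC (piC [(nat_lit 35755509), (nat_lit 23968959), (nat_lit 17897616), (nat_lit 12073119)] (nat_lit 10847095)) p14_16_1 (nat_lit 4) (nat_lit 120) (nat_lit 121) = true := by decide +kernel
def p14_16_1_121 : pfC (piC [(nat_lit 35755509), (nat_lit 23968959), (nat_lit 17897616), (nat_lit 12073119)] (nat_lit 10847095)) p14_16_1 (nat_lit 4) (nat_lit 121) (nat_lit 122) = true := by decide +kernel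
def p14_16_1_122 : pfC (piC [(nat_lit 35755509), (nat_lit 23968959), (nat_lit 17897616), (nat_lit 12073119)] (nat_lit 10847095)) p14_16_1 (nat_lit 4) (nat_lit 122) (nat_lit 123) = true := by decide +kernel
def p14_16_1_123 : pfC (piC [(nat_lit 35755509), (nat_lit 23968959), (nat_lit 17897616), (nat_lit 12073119)] (nat_lit 10847095)) p14_16_1 (nat_lit 4) (nat_lit 123) (nat_lit 124) = true := by decide +kernel
def p14_16_1_124 : pfC (piC [(nat_lit 35755509), (nat_lit 23968959), (nat_lit 17897616), (nat_lit 12073119)] (nat_lit 10847095)) p14_16_1 (nat_lit 4) (nat_lit 124) (nat_lit 125) = true := by decide +kernel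
def p14_16_1_125 : pfC (piC [(nat_lit 35755509), (nat_lit 23968959), (nat_lit 17897616), (nat_lit 12073119)] (nat_lit 10847095)) p14_16_1 (nat_lit 4) (nat_lit 125) (nat_lit 126) = true := by decide +kernel
def p14_16_1_126 : pfC (piC [(nat_lit 35755509), (nat_lit 23968959), (nat_lit 17897616), (nat_lit 12073119)] (nat_lit 10847095)) p14_16_1 (nat_lit 4) (nat_lit 126) (nat_lit 127) = true := by decide +kernel
def p14_16_1_127 : pfC (piC [(nat_lit 35755509), (nat_lit 23968959), (nat_lit 17897616), (nat_lit 12073119)] (nat_lit 10847095)) p14_16_1 (nat_lit 4) (nat_lit 127) (nat_lit 128) = true := by decide +kernel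
def p14_16_1_128 : pfC (piC [(nat_lit 35755509), (nat_lit 23968959), (nat_lit 17897616), (nat_lit 12073119)] (nat_lit 10847095)) p14_16_1 (nat_lit 4) (nat_lit 128) (nat_lit 129) = true := by decide +kernel
def p14_16_1_129 : pfC (piC [(nat_lit 35755509), (nat_lit 23968959), (nat_lit 17897616), (nat_lit 12073119)] (nat_lit 10847095)) p14_16_1 (nat_lit 4) (nat_lit 129) (nat_lit 130) = true := by decide +kernel
def p14_16_1_130 : pfC (piC [(nat_lit 35755509), (nat_lit 23968959), (nat_lit 17897616), (nat_lit 12073119)] (nat_lit 10847095)) p14_16_1 (nat_lit 4) (nat_lit 130) (nat_lit 131) = true := by decide +kernel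
def p14_16_1_131 : pfC (piC [(nat_lit 35755509), (nat_lit 23968959), (nat_lit 17897616), (nat_lit 12073119)] (nat_lit 10847095)) p14_16_1 (nat_lit 4) (nat_lit 131) (nat_lit 132) = true := by decide +kernel
def p14_16_1_132 : pfC (piC [(nat_lit 35755509), (nat_lit 23968959), (nat_lit 17897616), (nat_lit 12073119)] (nat_lit 10847095)) p14_16_1 (nat_lit 4) (nat_lit 132) (nat_lit 133) = true := by decide +kernel
def p14_16_1_133 : pfC (piC [(nat_lit 35755509), (nat_lit 23968959), (nat_lit 17897616), (nat_lit 12073119)] (nat_lit 10847095)) p14_16_1 (nat_lit 4) (nat_lit 133) (nat_lit 134) = true := by decide +kernel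
def p14_16_1_134 : pfC (piC [(nat_lit 35755509), (nat_lit 23968959), (nat_lit 17897616), (nat_lit 12073119)] (nat_lit 10847095)) p14_16_1 (nat_lit 4) (nat_lit 134) (nat_lit 135) = true := by decide +kernel
def p14_16_1_135 : pfC (piC [(nat_lit 35755509), (nat_lit 23968959), (nat_lit 17897616), (nat_lit 12073119)] (nat_lit 10847095)) p14_16_1 (nat_lit 4) (nat_lit 135) (nat_lit 136) = true := by decide +kernel
def p14_16_1_136 : pfC (piC [(nat_lit 35755509), (nat_lit 23968959), (nat_lit 17897616), (nat_lit 12073119)] (nat_lit 10847095)) p14_16_1 (nat_lit 4) (nat_lit 136) (nat_lit 137) = true := by decide +kernel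
def p14_16_1_137 : pfC (piC [(nat_lit 35755509), (nat_lit 23968959), (nat_lit 17897616), (nat_lit 12073119)] (nat_lit 10847095)) p14_16_1 (nat_lit 4) (nat_lit 137) (nat_lit 138) = true := by decide +kernel
def p14_16_1_138 : pfC (piC [(nat_lit 35755509), (nat_lit 23968959), (nat_lit 17897616), (nat_lit 12073119)] (nat_lit 10847095)) p14_16_1 (nat_lit 4) (nat_lit 138) (nat_lit 139) = true := by decide +kernel
def p14_16_1_139 : pfC (piC [(nat_lit 35755509), (nat_lit 23968959), (nat_lit 17897616), (nat_lit 12073119)] (nat_lit 10847095)) p14_16_1 (nat_lit 4) (nat_lit 139) (nat_lit 140) = true := by decide +kernel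
def p14_16_1_140 : pfC (piC [(nat_lit 35755509), (nat_lit 23968959), (nat_lit 17897616), (nat_lit 12073119)] (nat_lit 10847095)) p14_16_1 (nat_lit 4) (nat_lit 140) (nat_lit 141) = true := by decide +kernel
def p14_16_1_141 : pfC (piC [(nat_lit 35755509), (nat_lit 23968959), (nat_lit 17897616), (nat_lit 12073119)] (nat_lit 10847095)) p14_16_1 (nat_lit 4) (nat_lit 141) (nat_lit 142) = true := by decide +kernel
def p14_16_1_142 : pfC (piC [(nat_lit 35755509), (nat_lit 23968959), (nat_lit 17897616), (nat_lit 12073119)] (nat_lit 10847095)) p14_16_1 (nat_lit 4) (nat_lit 142) (nat_lit 143) = true := by decide +kernel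
def p14_16_1_143 : pfC (piC [(nat_lit 35755509), (nat_lit 23968959), (nat_lit 17897616), (nat_lit 12073119)] (nat_lit 10847095)) p14_16_1 (nat_lit 4) (nat_lit 143) (nat_lit 144) = true := by decide +kernel
def p14_16_1_144 : pfC (piC [(nat_lit 35755509), (nat_lit 23968959), (nat_lit 17897616), (nat_lit 12073119)] (nat_lit 10847095)) p14_16_1 (nat_lit 4) (nat_lit 144) (nat_lit 145) = true := by decide +kernel
def p14_16_1_145 : pfC (piC [(nat_lit 35755509), (nat_lit 23968959), (nat_lit 17897616), (nat_lit 12073119)] (nat_lit 10847095)) p14_16_1 (nat_lit 4) (nat_lit 145) (nat_lit 146) = true := by decide +kernel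
def p14_16_1_146 : pfC (piC [(nat_lit 35755509), (nat_lit 23968959), (nat_lit 17897616), (nat_lit 12073119)] (nat_lit 10847095)) p14_16_1 (nat_lit 4) (nat_lit 146) (nat_lit 147) = true := by decide +kernel
def p14_16_1_147 : pfC (piC [(nat_lit 35755509), (nat_lit 23968959), (nat_lit 17897616), (nat_lit 12073119)] (nat_lit 10847095)) p14_16_1 (nat_lit 4) (nat_lit 147) (nat_lit 148) = true := by decide +kernel
def p14_16_1_148 : pfC (piC [(nat_lit 35755509), (nat_lit 23968959), (nat_lit 17897616), (nat_lit 12073119)] (nat_lit 10847095)) p14_16_1 (nat_lit 4) (nat_lit 148) (nat_lit 149) = true := by decide +kernel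
def p14_16_1_149 : pfC (piC [(nat_lit 35755509), (nat_lit 23968959), (nat_lit 17897616), (nat_lit 12073119)] (nat_lit 10847095)) p14_16_1 (nat_lit 4) (nat_lit 149) (nat_lit 150) = true := by decide +kernel
def p14_16_1_150 : pfC (piC [(nat_lit 35755509), (nat_lit 23968959), (nat_lit 17897616), (nat_lit 12073119)] (nat_lit 10847095)) p14_16_1 (nat_lit 4) (nat_lit 150) (nat_lit 151) = true := by decide +kernel
def p14_16_1_151 : pfC (piC [(nat_lit 35755509), (nat_lit 23968959), (nat_lit 17897616), (nat_lit 12073119)] (nat_lit 10847095)) p14_16_1 (nat_lit 4) (nat_lit 151) (nat_lit 152) = true := by decide +kernel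
def p14_16_1_152 : pfC (piC [(nat_lit 35755509), (nat_lit 23968959), (nat_lit 17897616), (nat_lit 12073119)] (nat_lit 10847095)) p14_16_1 (nat_lit 4) (nat_lit 152) (nat_lit 153) = true := by decide +kernel
def p14_16_1_153 : pfC (piC [(nat_lit 35755509), (nat_lit 23968959), (nat_lit 17897616), (nat_lit 12073119)] (nat_lit 10847095)) p14_16_1 (nat_lit 4) (nat_lit 153) (nat_lit 154) = true := by decide +kernel
def p14_16_1_154 : pfC (piC [(nat_lit 35755509), (nat_lit 23968959), (nat_lit 17897616), (nat_lit 12073119)] (nat_lit 10847095)) p14_16_1 (nat_lit 4) (nat_lit 154) (nat_lit 155) = true := by decide +kernel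
def p14_16_1_155 : pfC (piC [(nat_lit 35755509), (nat_lit 23968959), (nat_lit 17897616), (nat_lit 12073119)] (nat_lit 10847095)) p14_16_1 (nat_lit 4) (nat_lit 155) (nat_lit 156) = true := by decide +kernel
def p14_16_1_156 : pfC (piC [(nat_lit 35755509), (nat_lit 23968959), (nat_lit 17897616), (nat_lit 12073119)] (nat_lit 10847095)) p14_16_1 (nat_lit 4) (nat_lit 156) (nat_lit 157) = true := by decide +kernel
def p14_16_1_157 : pfC (piC [(nat_lit 35755509), (nat_lit 23968959), (nat_lit 17897616), (nat_lit 12073119)] (nat_lit 10847095)) p14_16_1 (nat_lit 4) (nat_lit 157) (nat_lit 158) = true := by decide +kernel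
def p14_16_1_158 : pfC (piC [(nat_lit 35755509), (nat_lit 23968959), (nat_lit 17897616), (nat_lit 12073119)] (nat_lit 10847095)) p14_16_1 (nat_lit 4) (nat_lit 158) (nat_lit 159) = true := by decide +kernel
def p14_16_1_159 : pfC (piC [(nat_lit 35755509), (nat_lit 23968959), (nat_lit 17897616), (nat_lit 12073119)] (nat_lit 10847095)) p14_16_1 (nat_lit 4) (nat_lit 159) (nat_lit 160) = true := by decide +kernel
def p14_16_1_160 : pfC (piC [(nat_lit 35755509), (nat_lit 23968959), (nat_lit 17897616), (nat_lit 12073119)] (nat_lit 10847095)) p14_16_1 (nat_lit 4) (nat_lit 160) (nat_lit 161) = true := by decide +kernel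
def p14_16_1_161 : pfC (piC [(nat_lit 35755509), (nat_lit 23968959), (nat_lit 17897616), (nat_lit 12073119)] (nat_lit 10847095)) p14_16_1 (nat_lit 4) (nat_lit 161) (nat_lit 162) = true := by decide +kernel
def p14_16_1_162 : pfC (piC [(nat_lit 35755509), (nat_lit 23968959), (nat_lit 17897616), (nat_lit 12073119)] (nat_lit 10847095)) p14_16_1 (nat_lit 4) (nat_lit 162) (nat_lit 163) = true := by decide +kernel
def p14_16_1_163 : pfC (piC [(nat_lit 35755509), (nat_lit 23968959), (nat_lit 17897616), (nat_lit 12073119)] (nat_lit 10847095)) p14_16_1 (nat_lit 4) (nat_lit 163) (nat_lit 164) = true := by decide +kernel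
def p14_16_1_164 : pfC (piC [(nat_lit 35755509), (nat_lit 23968959), (nat_lit 17897616), (nat_lit 12073119)] (nat_lit 10847095)) p14_16_1 (nat_lit 4) (nat_lit 164) (nat_lit 165) = true := by decide +kernel
def p14_16_1_165 : pfC (piC [(nat_lit 35755509), (nat_lit 23968959), (nat_lit 17897616), (nat_lit 12073119)] (nat_lit 10847095)) p14_16_1 (nat_lit 4) (nat_lit 165) (nat_lit 166) = true := by decide +kernel
def p14_16_1_166 : pfC (piC [(nat_lit 35755509), (nat_lit 23968959), (nat_lit 17897616), (nat_lit 12073119)] (nat_lit 10847095)) p14_16_1 (nat_lit 4) (nat_lit 166) (nat_lit 167) = true := by decide +kernel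
def p14_16_1_167 : pfC (piC [(nat_lit 35755509), (nat_lit 23968959), (nat_lit 17897616), (nat_lit 12073119)] (nat_lit 10847095)) p14_16_1 (nat_lit 4) (nat_lit 167) (nat_lit 168) = true := by decide +kernel
def p14_16_1_168 : pfC (piC [(nat_lit 35755509), (nat_lit 23968959), (nat_lit 17897616), (nat_lit 12073119)] (nat_lit 10847095)) p14_16_1 (nat_lit 4) (nat_lit 168) (nat_lit 169) = true := by decide +kernel
def p14_16_1_169 : pfC (piC [(nat_lit 35755509), (nat_lit 23968959), (nat_lit 17897616), (nat_lit 12073119)] (nat_lit 10847095)) p14_16_1 (nat_lit 4) (nat_lit 169) (nat_lit 170) = true := by decide +kernel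
def p14_16_1_170 : pfC (piC [(nat_lit 35755509), (nat_lit 23968959), (nat_lit 17897616), (nat_lit 12073119)] (nat_lit 10847095)) p14_16_1 (nat_lit 4) (nat_lit 170) (nat_lit 171) = true := by decide +kernel
def p14_16_1_171 : pfC (piC [(nat_lit 35755509), (nat_lit 23968959), (nat_lit 17897616), (nat_lit 12073119)] (nat_lit 10847095)) p14_16_1 (nat_lit 4) (nat_lit 171) (nat_lit 172) = true := by decide +kernel
def p14_16_1_172 : pfC (piC [(nat_lit 35755509), (nat_lit 23968959), (nat_lit 17897616), (nat_lit 12073119)] (nat_lit 10847095)) p14_16_1 (nat_lit 4) (nat_lit 172) (nat_lit 173) = true := by decide +kernel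
def p14_16_1_173 : pfC (piC [(nat_lit 35755509), (nat_lit 23968959), (nat_lit 17897616), (nat_lit 12073119)] (nat_lit 10847095)) p14_16_1 (nat_lit 4) (nat_lit 173) (nat_lit 174) = true := by decide +kernel
def p14_16_1_174 : pfC (piC [(nat_lit 35755509), (nat_lit 23968959), (nat_lit 17897616), (nat_lit 12073119)] (nat_lit 10847095)) p14_16_1 (nat_lit 4) (nat_lit 174) (nat_lit 175) = true := by decide +kernel
def p14_16_1_175 : pfC (piC [(nat_lit 35755509), (nat_lit 23968959), (nat_lit 17897616), (nat_lit 12073119)] (nat_lit 10847095)) p14_16_1 (nat_lit 4) (nat_lit 175) (nat_lit 176) = true := by decide +kernel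
def p14_16_1_176 : pfC (piC [(nat_lit 35755509), (nat_lit 23968959), (nat_lit 17897616), (nat_lit 12073119)] (nat_lit 10847095)) p14_16_1 (nat_lit 4) (nat_lit 176) (nat_lit 177) = true := by decide +kernel
def p14_16_1_177 : pfC (piC [(nat_lit 35755509), (nat_lit 23968959), (nat_lit 17897616), (nat_lit 12073119)] (nat_lit 10847095)) p14_16_1 (nat_lit 4) (nat_lit 177) (nat_lit 178) = true := by decide +kernel
def p14_16_1_178 : pfC (piC [(nat_lit 35755509), (nat_lit 23968959), (nat_lit 17897616), (nat_lit 12073119)] (nat_lit 10847095)) p14_16_1 (nat_lit 4) (nat_lit 178) (nat_lit 179) = true := by decide +kernel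
def p14_16_1_179 : pfC (piC [(nat_lit 35755509), (nat_lit 23968959), (nat_lit 17897616), (nat_lit 12073119)] (nat_lit 10847095)) p14_16_1 (nat_lit 4) (nat_lit 179) (nat_lit 180) = true := by decide +kernel
def p14_16_1_180 : pfC (piC [(nat_lit 35755509), (nat_lit 23968959), (nat_lit 17897616), (nat_lit 12073119)] (nat_lit 10847095)) p14_16_1 (nat_lit 4) (nat_lit 180) (nat_lit 181) = true := by decide +kernel
def p14_16_1_181 : pfC (piC [(nat_lit 35755509), (nat_lit 23968959), (nat_lit 17897616), (nat_lit 12073119)] (nat_lit 10847095)) p14_16_1 (nat_lit 4) (nat_lit 181) (nat_lit 182) = true := by decide +kernel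
def p14_16_1_182 : pfC (piC [(nat_lit 35755509), (nat_lit 23968959), (nat_lit 17897616), (nat_lit 12073119)] (nat_lit 10847095)) p14_16_1 (nat_lit 4) (nat_lit 182) (nat_lit 183) = true := by decide +kernel
def p14_16_1_183 : pfC (piC [(nat_lit 35755509), (nat_lit 23968959), (nat_lit 17897616), (nat_lit 12073119)] (nat_lit 10847095)) p14_16_1 (nat_lit 4) (nat_lit 183) (nat_lit 184) = true := by decide +kernel
def p14_16_1_184 : pfC (piC [(nat_lit 35755509), (nat_lit 23968959), (nat_lit 17897616), (nat_lit 12073119)] (nat_lit 10847095)) p14_16_1 (nat_lit 4) (nat_lit 184) (nat_lit 185) = true := by decide +kernel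
def p14_16_1_185 : pfC (piC [(nat_lit 35755509), (nat_lit 23968959), (nat_lit 17897616), (nat_lit 12073119)] (nat_lit 10847095)) p14_16_1 (nat_lit 4) (nat_lit 185) (nat_lit 186) = true := by decide +kernel
def p14_16_1_186 : pfC (piC [(nat_lit 35755509), (nat_lit 23968959), (nat_lit 17897616), (nat_lit 12073119)] (nat_lit 10847095)) p14_16_1 (nat_lit 4) (nat_lit 186) (nat_lit 187) = true := by decide +kernel
def p14_16_1_187 : pfC (piC [(nat_lit 35755509), (nat_lit 23968959), (nat_lit 17897616), (nat_lit 12073119)] (nat_lit 10847095)) p14_16_1 (nat_lit 4) (nat_lit 187) (nat_lit 188) = true := by decide +kernel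
def p14_16_1_188 : pfC (piC [(nat_lit 35755509), (nat_lit 23968959), (nat_lit 17897616), (nat_lit 12073119)] (nat_lit 10847095)) p14_16_1 (nat_lit 4) (nat_lit 188) (nat_lit 189) = true := by decide +kernel
def p14_16_1_189 : pfC (piC [(nat_lit 35755509), (nat_lit 23968959), (nat_lit 17897616), (nat_lit 12073119)] (nat_lit 10847095)) p14_16_1 (nat_lit 4) (nat_lit 189) (nat_lit 190) = true := by decide +kernel
def p14_16_1_190 : pfC (piC [(nat_lit 35755509), (nat_lit 23968959), (nat_lit 17897616), (nat_lit 12073119)] (nat_lit 10847095)) p14_16_1 (nat_lit 4) (nat_lit 190) (nat_lit 191) = true := by decide +kernel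
def p14_16_1_191 : pfC (piC [(nat_lit 35755509), (nat_lit 23968959), (nat_lit 17897616), (nat_lit 12073119)] (nat_lit 10847095)) p14_16_1 (nat_lit 4) (nat_lit 191) (nat_lit 192) = true := by decide +kernel
def p14_16_1_192 : pfC (piC [(nat_lit 35755509), (nat_lit 23968959), (nat_lit 17897616), (nat_lit 12073119)] (nat_lit 10847095)) p14_16_1 (nat_lit 4) (nat_lit 192) (nat_lit 193) = true := by decide +kernel
def p14_16_1_193 : pfC (piC [(nat_lit 35755509), (nat_lit 23968959), (nat_lit 17897616), (nat_lit 12073119)] (nat_lit 10847095)) p14_16_1 (nat_lit 4) (nat_lit 193) (nat_lit 194) = true := by decide +kernel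
def p14_16_1_194 : pfC (piC [(nat_lit 35755509), (nat_lit 23968959), (nat_lit 17897616), (nat_lit 12073119)] (nat_lit 10847095)) p14_16_1 (nat_lit 4) (nat_lit 194) (nat_lit 195) = true := by decide +kernel
def p14_16_1_195 : pfC (piC [(nat_lit 35755509), (nat_lit 23968959), (nat_lit 17897616), (nat_lit 12073119)] (nat_lit 10847095)) p14_16_1 (nat_lit 4) (nat_lit 195) (nat_lit 196) = true := by decide +kernel
def p14_16_1_196 : pfC (piC [(nat_lit 35755509), (nat_lit 23968959), (nat_lit 17897616), (nat_lit 12073119)] (nat_lit 10847095)) p14_16_1 (nat_lit 4) (nat_lit 196) (nat_lit 197) = true := by decide +kernel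
def p14_16_1_197 : pfC (piC [(nat_lit 35755509), (nat_lit 23968959), (nat_lit 17897616), (nat_lit 12073119)] (nat_lit 10847095)) p14_16_1 (nat_lit 4) (nat_lit 197) (nat_lit 198) = true := by decide +kernel
def p14_16_1_198 : pfC (piC [(nat_lit 35755509), (nat_lit 23968959), (nat_lit 17897616), (nat_lit 12073119)] (nat_lit 10847095)) p14_16_1 (nat_lit 4) (nat_lit 198) (nat_lit 199) = true := by decide +kernel
def p14_16_1_199 : pfC (piC [(nat_lit 35755509), (nat_lit 23968959), (nat_lit 17897616), (nat_lit 12073119)] (nat_lit 10847095)) p14_16_1 (nat_lit 4) (nat_lit 199) (nat_lit 200) = true := by decide +kernel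
def p14_16_1_200 : pfC (piC [(nat_lit 35755509), (nat_lit 23968959), (nat_lit 17897616), (nat_lit 12073119)] (nat_lit 10847095)) p14_16_1 (nat_lit 4) (nat_lit 200) (nat_lit 201) = true := by decide +kernel
def p14_16_1_201 : pfC (piC [(nat_lit 35755509), (nat_lit 23968959), (nat_lit 17897616), (nat_lit 12073119)] (nat_lit 10847095)) p14_16_1 (nat_lit 4) (nat_lit 201) (nat_lit 202) = true := by decide +kernel
def p14_16_1_202 : pfC (piC [(nat_lit 35755509), (nat_lit 23968959), (nat_lit 17897616), (nat_lit 12073119)] (nat_lit 10847095)) p14_16_1 (nat_lit 4) (nat_lit 202) (nat_lit 203) = true := by decide +kernel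
def p14_16_1_203 : pfC (piC [(nat_lit 35755509), (nat_lit 23968959), (nat_lit 17897616), (nat_lit 12073119)] (nat_lit 10847095)) p14_16_1 (nat_lit 4) (nat_lit 203) (nat_lit 204) = true := by decide +kernel
def p14_16_1_204 : pfC (piC [(nat_lit 35755509), (nat_lit 23968959), (nat_lit 17897616), (nat_lit 12073119)] (nat_lit 10847095)) p14_16_1 (nat_lit 4) (nat_lit 204) (nat_lit 205) = true := by decide +kernel
def p14_16_1_205 : pfC (piC [(nat_lit 35755509), (nat_lit 23968959), (nat_lit 17897616), (nat_lit 12073119)] (nat_lit 10847095)) p14_16_1 (nat_lit 4) (nat_lit 205) (nat_lit 206) = true := by decide +kernel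
def p14_16_1_206 : pfC (piC [(nat_lit 35755509), (nat_lit 23968959), (nat_lit 17897616), (nat_lit 12073119)] (nat_lit 10847095)) p14_16_1 (nat_lit 4) (nat_lit 206) (nat_lit 207) = true := by decide +kernel
def p14_16_1_207 : pfC (piC [(nat_lit 35755509), (nat_lit 23968959), (nat_lit 17897616), (nat_lit 12073119)] (nat_lit 10847095)) p14_16_1 (nat_lit 4) (nat_lit 207) (nat_lit 208) = true := by decide +kernel
def p14_16_1_208 : pfC (piC [(nat_lit 35755509), (nat_lit 23968959), (nat_lit 17897616), (nat_lit 12073119)] (nat_lit 10847095)) p14_16_1 (nat_lit 4) (nat_lit 208) (nat_lit 209) = true := by decide +kernel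
def p14_16_1_209 : pfC (piC [(nat_lit 35755509), (nat_lit 23968959), (nat_lit 17897616), (nat_lit 12073119)] (nat_lit 10847095)) p14_16_1 (nat_lit 4) (nat_lit 209) (nat_lit 210) = true := by decide +kernel
def p14_16_1_210 : pfC (piC [(nat_lit 35755509), (nat_lit 23968959), (nat_lit 17897616), (nat_lit 12073119)] (nat_lit 10847095)) p14_16_1 (nat_lit 4) (nat_lit 210) (nat_lit 211) = true := by decide +kernel
def p14_16_1_211 : pfC (piC [(nat_lit 35755509), (nat_lit 23968959), (nat_lit 17897616), (nat_lit 12073119)] (nat_lit 10847095)) p14_16_1 (nat_lit 4) (nat_lit 211) (nat_lit 212) = true := by decide +kernel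
def p14_16_1_212 : pfC (piC [(nat_lit 35755509), (nat_lit 23968959), (nat_lit 17897616), (nat_lit 12073119)] (nat_lit 10847095)) p14_16_1 (nat_lit 4) (nat_lit 212) (nat_lit 213) = true := by decide +kernel
def p14_16_1_213 : pfC (piC [(nat_lit 35755509), (nat_lit 23968959), (nat_lit 17897616), (nat_lit 12073119)] (nat_lit 10847095)) p14_16_1 (nat_lit 4) (nat_lit 213) (nat_lit 214) = true := by decide +kernel
def p14_16_1_214 : pfC (piC [(nat_lit 35755509), (nat_lit 23968959), (nat_lit 17897616), (nat_lit 12073119)] (nat_lit 10847095)) p14_16_1 (nat_lit 4) (nat_lit 214) (nat_lit 215) = true := by decide +kernel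
def p14_16_1_215 : pfC (piC [(nat_lit 35755509), (nat_lit 23968959), (nat_lit 17897616), (nat_lit 12073119)] (nat_lit 10847095)) p14_16_1 (nat_lit 4) (nat_lit 215) (nat_lit 216) = true := by decide +kernel
def p14_16_1_216 : pfC (piC [(nat_lit 35755509), (nat_lit 23968959), (nat_lit 17897616), (nat_lit 12073119)] (nat_lit 10847095)) p14_16_1 (nat_lit 4) (nat_lit 216) (nat_lit 217) = true := by decide +kernel
def p14_16_1_217 : pfC (piC [(nat_lit 35755509), (nat_lit 23968959), (nat_lit 17897616), (nat_lit 12073119)] (nat_lit 10847095)) p14_16_1 (nat_lit 4) (nat_lit 217) (nat_lit 218) = true := by decide +kernel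
def p14_16_1_218 : pfC (piC [(nat_lit 35755509), (nat_lit 23968959), (nat_lit 17897616), (nat_lit 12073119)] (nat_lit 10847095)) p14_16_1 (nat_lit 4) (nat_lit 218) (nat_lit 219) = true := by decide +kernel
def p14_16_1_219 : pfC (piC [(nat_lit 35755509), (nat_lit 23968959), (nat_lit 17897616), (nat_lit 12073119)] (nat_lit 10847095)) p14_16_1 (nat_lit 4) (nat_lit 219) (nat_lit 220) = true := by decide +kernel
def p14_16_1_220 : pfC (piC [(nat_lit 35755509), (nat_lit 23968959), (nat_lit 17897616), (nat_lit 12073119)] (nat_lit 10847095)) p14_16_1 (nat_lit 4) (nat_lit 220) (nat_lit 221) = true := by decide +kernel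
def p14_16_1_221 : pfC (piC [(nat_lit 35755509), (nat_lit 23968959), (nat_lit 17897616), (nat_lit 12073119)] (nat_lit 10847095)) p14_16_1 (nat_lit 4) (nat_lit 221) (nat_lit 222) = true := by decide +kernel
def p14_16_1_222 : pfC (piC [(nat_lit 35755509), (nat_lit 23968959), (nat_lit 17897616), (nat_lit 12073119)] (nat_lit 10847095)) p14_16_1 (nat_lit 4) (nat_lit 222) (nat_lit 223) = true := by decide +kernel
def p14_16_1_223 : pfC (piC [(nat_lit 35755509), (nat_lit 23968959), (nat_lit 17897616), (nat_lit 12073119)] (nat_lit 10847095)) p14_16_1 (nat_lit 4) (nat_lit 223) (nat_lit 224) = true := by decide +kernel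
def p14_16_1_224 : pfC (piC [(nat_lit 35755509), (nat_lit 23968959), (nat_lit 17897616), (nat_lit 12073119)] (nat_lit 10847095)) p14_16_1 (nat_lit 4) (nat_lit 224) (nat_lit 225) = true := by decide +kernel
def p14_16_1_225 : pfC (piC [(nat_lit 35755509), (nat_lit 23968959), (nat_lit 17897616), (nat_lit 12073119)] (nat_lit 10847095)) p14_16_1 (nat_lit 4) (nat_lit 225) (nat_lit 226) = true := by decide +kernel
def p14_16_1_226 : pfC (piC [(nat_lit 35755509), (nat_lit 23968959), (nat_lit 17897616), (nat_lit 12073119)] (nat_lit 10847095)) p14_16_1 (nat_lit 4) (nat_lit 226) (nat_lit 227) = true := by decide +kernel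
def p14_16_1_227 : pfC (piC [(nat_lit 35755509), (nat_lit 23968959), (nat_lit 17897616), (nat_lit 12073119)] (nat_lit 10847095)) p14_16_1 (nat_lit 4) (nat_lit 227) (nat_lit 228) = true := by decide +kernel
def p14_16_1_228 : pfC (piC [(nat_lit 35755509), (nat_lit 23968959), (nat_lit 17897616), (nat_lit 12073119)] (nat_lit 10847095)) p14_16_1 (nat_lit 4) (nat_lit 228) (nat_lit 229) = true := by decide +kernel
def p14_16_1_229 : pfC (piC [(nat_lit 35755509), (nat_lit 23968959), (nat_lit 17897616), (nat_lit 12073119)] (nat_lit 10847095)) p14_16_1 (nat_lit 4) (nat_lit 229) (nat_lit 230) = true := by decide +kernel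
def p14_16_1_230 : pfC (piC [(nat_lit 35755509), (nat_lit 23968959), (nat_lit 17897616), (nat_lit 12073119)] (nat_lit 10847095)) p14_16_1 (nat_lit 4) (nat_lit 230) (nat_lit 231) = true := by decide +kernel
def p14_16_1_231 : pfC (piC [(nat_lit 35755509), (nat_lit 23968959), (nat_lit 17897616), (nat_lit 12073119)] (nat_lit 10847095)) p14_16_1 (nat_lit 4) (nat_lit 231) (nat_lit 232) = true := by decide +kernel
def p14_16_1_232 : pfC (piC [(nat_lit 35755509), (nat_lit 23968959), (nat_lit 17897616), (nat_lit 12073119)] (nat_lit 10847095)) p14_16_1 (nat_lit 4) (nat_lit 232) (nat_lit 233) = true := by decide +kernel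
def p14_16_1_233 : pfC (piC [(nat_lit 35755509), (nat_lit 23968959), (nat_lit 17897616), (nat_lit 12073119)] (nat_lit 10847095)) p14_16_1 (nat_lit 4) (nat_lit 233) (nat_lit 234) = true := by decide +kernel
def p14_16_1_234 : pfC (piC [(nat_lit 35755509), (nat_lit 23968959), (nat_lit 17897616), (nat_lit 12073119)] (nat_lit 10847095)) p14_16_1 (nat_lit 4) (nat_lit 234) (nat_lit 235) = true := by decide +kernel
theorem p14_16_1_T : PfS (PiF n14_16.reverse (nat_lit 10847095)) p14_16_1 (nat_lit 4) [] 0 :=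
  pftab_of (los := [(nat_lit 35755509), (nat_lit 23968959), (nat_lit 17897616), (nat_lit 12073119)]) (by decide +kernel) (hi := (nat_lit 235)) (PfP.trans (PfP.trans (PfP.trans (PfP.trans (PfP.trans (PfP.trans (PfP.trans (PfP.trans (PfP.trans (PfP.trans (PfP.trans (PfP.trans (PfP.trans (PfP.trans (PfP.trans (PfP.trans (PfP.trans (PfP.trans (PfP.trans (PfP.trans (PfP.trans (PfP.trans (PfP.trans (PfP.trans (PfP.trans (PfP.trans (PfP.trans (PfP.trans (PfP.trans (PfP.trans (PfP.trans (PfP.trans (PfP.trans (PfP.trans (PfP.trans (PfP.trans (PfP.trans (PfP.trans (PfP.trans (PfP.trans (PfP.trans (PfP.trans (PfP.trans (PfP.trans (PfP.trans (PfP.trans (PfP.trans (PfP.trans (PfP.trans (PfP.trans (PfP.trans (PfP.trans (PfP.trans (PfP.trans (PfP.trans (PfP.trans (PfP.trans (PfP.trans (PfP.trans (PfP.trans (PfP.trans (PfP.trans (PfP.trans (PfP.trans (PfP.trans (PfP.trans (PfP.trans (PfP.trans (PfP.trans (PfP.trans (PfP.trans (PfP.trans (PfP.trans (PfP.trans (PfP.trans (PfP.trans (PfP.trans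 (PfP.trans (PfP.trans (PfP.trans (PfP.trans (PfP.trans (PfP.trans (PfP.trans (PfP.trans (PfP.trans (PfP.trans (PfP.trans (PfP.trans (PfP.trans (PfP.trans (PfP.trans (PfP.trans (PfP.trans (PfP.trans (PfP.trans (PfP.trans (PfP.trans (PfP.trans (PfP.trans (PfP.trans (PfP.trans (PfP.trans (PfP.trans (PfP.trans (PfP.trans (PfP.trans (PfP.trans (PfP.trans
 (PfP.trans (PfP.trans (PfP.trans (PfP.trans (PfP.trans (PfP.trans (PfP.trans (PfP.trans (PfP.trans (PfP.trans (PfP.trans (PfP.trans (PfP.trans (PfP.trans (PfP.trans (PfP.trans (PfP.trans (PfP.trans (PfP.trans (PfP.trans (PfP.trans (PfP.trans (PfP.trans (PfP.trans (PfP.trans (PfP.trans (PfP.trans (PfP.trans (PfP.trans (PfP.trans (PfP.trans (PfP.trans (PfP.trans (PfP.trans (PfP.trans (PfP.trans (PfP.trans (PfP.trans (PfP.trans (PfP.trans (PfP.trans (PfP.trans (PfP.trans (PfP.trans (PfP.trans (PfP.trans (PfP.trans (PfP.trans (PfP.trans (PfP.trans (PfP.trans (PfP.trans (PfP.trans (PfP.trans (PfP.trans (PfP.trans (PfP.trans (PfP.trans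 (PfP.trans (PfP.trans (PfP.trans (PfP.trans (PfP.trans (PfP.trans (PfP.trans (PfP.trans (PfP.trans (PfP.trans (PfP.trans (PfP.trans (PfP.trans (PfP.trans (PfP.trans (PfP.trans (PfP.trans (PfP.trans (PfP.trans (PfP.trans (PfP.trans (PfP.trans (PfP.trans (PfP.trans (PfP.trans (PfP.trans (PfP.trans (PfP.trans (PfP.trans (PfP.trans (PfP.trans (PfP.trans (PfP.trans (PfP.trans (PfP.trans (PfP.trans (PfP.trans (PfP.trans (PfP.trans (PfP.trans (PfP.trans (PfP.trans (PfP.trans (PfP.trans (PfP.trans (PfP.trans (PfP.trans (PfP.trans (PfP.trans (PfP.trans (PfP.trans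
 (PfP.trans (PfP.trans (PfP.trans (PfP.trans (PfP.trans (PfP.trans (PfP.trans (PfP.trans (PfP.trans (PfP.trans (PfP.trans (PfP.trans (PfP.trans (PfP.trans (PfP.trans (PfP.trans (pfC_sound p14_16_1_0) (pfC_sound p14_16_1_1)) (pfC_sound p14_16_1_2)) (pfC_sound p14_16_1_3)) (pfC_sound p14_16_1_4)) (pfC_sound p14_16_1_5)) (pfC_sound p14_16_1_6)) (pfC_sound p14_16_1_7)) (pfC_sound p14_16_1_8)) (pfC_sound p14_16_1_9)) (pfC_sound p14_16_1_10)) (pfC_sound p14_16_1_11)) (pfC_sound p14_16_1_12)) (pfC_sound p14_16_1_13)) (pfC_sound p14_16_1_14)) (pfC_sound p14_16_1_15)) (pfC_sound p14_16_1_16)) (pfC_sound p14_16_1_17)) (pfC_sound p14_16_1_18)) (pfC_sound p14_16_1_19)) (pfC_sound p14_16_1_20)) (pfC_sound p14_16_1_21)) (pfC_sound p14_16_1_22)) (pfC_sound p14_16_1_23)) (pfC_sound p14_16_1_24)) (pfC_sound p14_16_1_25)) (pfC_sound p14_16_1_26)) (pfC_sound p14_16_1_27)) (pfC_sound p14_16_1_28)) (pfC_sound p14_16_1_29)) (pfC_sound p14_16_1_30)) (pfC_sound p14_16_1_31)) (pfC_sound p14_16_1_32))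 (pfC_sound p14_16_1_33)) (pfC_sound p14_16_1_34)) (pfC_sound p14_16_1_35)) (pfC_sound p14_16_1_36)) (pfC_sound p14_16_1_37)) (pfC_sound p14_16_1_38)) (pfC_sound p14_16_1_39)) (pfC_sound p14_16_1_40))
 (pfC_sound p14_16_1_41)) (pfC_sound p14_16_1_42)) (pfC_sound p14_16_1_43)) (pfC_sound p14_16_1_44)) (pfC_sound p14_16_1_45)) (pfC_sound p14_16_1_46)) (pfC_sound p14_16_1_47)) (pfC_sound p14_16_1_48)) (pfC_sound p14_16_1_49)) (pfC_sound p14_16_1_50)) (pfC_sound p14_16_1_51)) (pfC_sound p14_16_1_52)) (pfC_sound p14_16_1_53)) (pfC_sound p14_16_1_54)) (pfC_sound p14_16_1_55)) (pfC_sound p14_16_1_56)) (pfC_sound p14_16_1_57)) (pfC_sound p14_16_1_58)) (pfC_sound p14_16_1_59)) (pfC_sound p14_16_1_60)) (pfC_sound p14_16_1_61)) (pfC_sound p14_16_1_62)) (pfC_sound p14_16_1_63)) (pfC_sound p14_16_1_64)) (pfC_sound p14_16_1_65)) (pfC_sound p14_16_1_66)) (pfC_sound p14_16_1_67)) (pfC_sound p14_16_1_68)) (pfC_sound p14_16_1_69)) (pfC_sound p14_16_1_70)) (pfC_sound p14_16_1_71)) (pfC_sound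 p14_16_1_72)) (pfC_sound p14_16_1_73)) (pfC_sound p14_16_1_74)) (pfC_sound p14_16_1_75)) (pfC_sound p14_16_1_76)) (pfC_sound p14_16_1_77)) (pfC_sound p14_16_1_78)) (pfC_sound p14_16_1_79)) (pfC_sound p14_16_1_80)) (pfC_sound p14_16_1_81)) (pfC_sound p14_16_1_82)) (pfC_sound p14_16_1_83)) (pfC_sound p14_16_1_84)) (pfC_sound p14_16_1_85)) (pfC_sound p14_16_1_86)) (pfC_sound p14_16_1_87)) (pfC_sound p14_16_1_88))
 (pfC_sound p14_16_1_89)) (pfC_sound p14_16_1_90)) (pfC_sound p14_16_1_91)) (pfC_sound p14_16_1_92)) (pfC_sound p14_16_1_93)) (pfC_sound p14_16_1_94)) (pfC_sound p14_16_1_95)) (pfC_sound p14_16_1_96)) (pfC_sound p14_16_1_97)) (pfC_sound p14_16_1_98)) (pfC_sound p14_16_1_99)) (pfC_sound p14_16_1_100)) (pfC_sound p14_16_1_101)) (pfC_sound p14_16_1_102)) (pfC_sound p14_16_1_103)) (pfC_sound p14_16_1_104)) (pfC_sound p14_16_1_105)) (pfC_sound p14_16_1_106)) (pfC_sound p14_16_1_107)) (pfC_sound p14_16_1_108)) (pfC_sound p14_16_1_109)) (pfC_sound p14_16_1_110)) (pfC_sound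 p14_16_1_111)) (pfC_sound p14_16_1_112)) (pfC_sound p14_16_1_113)) (pfC_sound p14_16_1_114)) (pfC_sound p14_16_1_115)) (pfC_sound p14_16_1_116)) (pfC_sound p14_16_1_117)) (pfC_sound p14_16_1_118)) (pfC_sound p14_16_1_119)) (pfC_sound p14_16_1_120)) (pfC_sound p14_16_1_121)) (pfC_sound p14_16_1_122)) (pfC_sound p14_16_1_123)) (pfC_sound p14_16_1_124)) (pfC_sound p14_16_1_125)) (pfC_sound p14_16_1_126)) (pfC_sound p14_16_1_127)) (pfC_sound p14_16_1_128)) (pfC_sound p14_16_1_129)) (pfC_sound p14_16_1_130)) (pfC_sound p14_16_1_131)) (pfC_sound p14_16_1_132)) (pfC_sound p14_16_1_133)) (pfC_sound p14_16_1_134)) (pfC_sound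
 p14_16_1_135)) (pfC_sound p14_16_1_136)) (pfC_sound p14_16_1_137)) (pfC_sound p14_16_1_138)) (pfC_sound p14_16_1_139)) (pfC_sound p14_16_1_140)) (pfC_sound p14_16_1_141)) (pfC_sound p14_16_1_142)) (pfC_sound p14_16_1_143)) (pfC_sound p14_16_1_144)) (pfC_sound p14_16_1_145)) (pfC_sound p14_16_1_146)) (pfC_sound p14_16_1_147)) (pfC_sound p14_16_1_148)) (pfC_sound p14_16_1_149)) (pfC_sound p14_16_1_150)) (pfC_sound p14_16_1_151)) (pfC_sound p14_16_1_152)) (pfC_sound p14_16_1_153)) (pfC_sound p14_16_1_154)) (pfC_sound p14_16_1_155)) (pfC_sound p14_16_1_156)) (pfC_sound p14_16_1_157)) (pfC_sound p14_16_1_158)) (pfC_sound p14_16_1_159)) (pfC_sound p14_16_1_160)) (pfC_sound p14_16_1_161)) (pfC_sound p14_16_1_162)) (pfC_sound p14_16_1_163)) (pfC_sound p14_16_1_164)) (pfC_sound p14_16_1_165)) (pfC_sound p14_16_1_166)) (pfC_sound p14_16_1_167)) (pfC_sound p14_16_1_168)) (pfC_sound p14_16_1_169)) (pfC_sound p14_16_1_170)) (pfC_sound p14_16_1_171)) (pfC_sound p14_16_1_172)) (pfC_sound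 p14_16_1_173)) (pfC_sound p14_16_1_174)) (pfC_sound p14_16_1_175)) (pfC_sound p14_16_1_176)) (pfC_sound p14_16_1_177)) (pfC_sound p14_16_1_178)) (pfC_sound p14_16_1_179)) (pfC_sound p14_16_1_180)) (pfC_sound
 p14_16_1_181)) (pfC_sound p14_16_1_182)) (pfC_sound p14_16_1_183)) (pfC_sound p14_16_1_184)) (pfC_sound p14_16_1_185)) (pfC_sound p14_16_1_186)) (pfC_sound p14_16_1_187)) (pfC_sound p14_16_1_188)) (pfC_sound p14_16_1_189)) (pfC_sound p14_16_1_190)) (pfC_sound p14_16_1_191)) (pfC_sound p14_16_1_192)) (pfC_sound p14_16_1_193)) (pfC_sound p14_16_1_194)) (pfC_sound p14_16_1_195)) (pfC_sound p14_16_1_196)) (pfC_sound p14_16_1_197)) (pfC_sound p14_16_1_198)) (pfC_sound p14_16_1_199)) (pfC_sound p14_16_1_200)) (pfC_sound p14_16_1_201)) (pfC_sound p14_16_1_202)) (pfC_sound p14_16_1_203)) (pfC_sound p14_16_1_204)) (pfC_sound p14_16_1_205)) (pfC_sound p14_16_1_206)) (pfC_sound p14_16_1_207)) (pfC_sound p14_16_1_208)) (pfC_sound p14_16_1_209)) (pfC_sound p14_16_1_210)) (pfC_sound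 p14_16_1_211)) (pfC_sound p14_16_1_212)) (pfC_sound p14_16_1_213)) (pfC_sound p14_16_1_214)) (pfC_sound p14_16_1_215)) (pfC_sound p14_16_1_216)) (pfC_sound p14_16_1_217)) (pfC_sound p14_16_1_218)) (pfC_sound p14_16_1_219)) (pfC_sound p14_16_1_220)) (pfC_sound p14_16_1_221)) (pfC_sound p14_16_1_222)) (pfC_sound p14_16_1_223)) (pfC_sound p14_16_1_224)) (pfC_sound p14_16_1_225)) (pfC_sound p14_16_1_226)) (pfC_sound
 p14_16_1_227)) (pfC_sound p14_16_1_228)) (pfC_sound p14_16_1_229)) (pfC_sound p14_16_1_230)) (pfC_sound p14_16_1_231)) (pfC_sound p14_16_1_232)) (pfC_sound p14_16_1_233)) (pfC_sound p14_16_1_234)) (by decide +kernel)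

def z14_16_1 : zOK yB14_16 (nat_lit 1) (nat_lit 400) (nat_lit 600) (nat_lit 10847095) (nat_lit 7031977) = true := by decide +kernel
def g14_16_1 : gOK yB14_16.x P14_16 (nat_lit 1408) (q14_16 :: r14_16) (nat_lit 1) (nat_lit 400) (nat_lit 2) (nat_lit 600) (nat_lit 11000000) (nat_lit 17850000) (nat_lit 12712500) (nat_lit 12712500) [(nat_lit 800), (nat_lit 1130)] = true := by decide +kernel
def v14_16_1 : ivC P14_16 s14_16 w14_16 n14_16 (nat_lit 4) (nat_lit 4940) (nat_lit 1) (nat_lit 400) f168_1_400 f176_1_400 (nat_lit 2) (nat_lit 600) f168_1_600 f176_1_600 (nat_lit 10847095) (nat_lit 7031977) p14_16_1 = true := by decide +kernel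
def p14_16_2 : PF := (PF.cons (PF.cons (PF.cons (PF.cons (PF.leaf (nat_lit 2688476) (nat_lit 15347490) (nat_lit 51761322) (nat_lit 15347490) [(nat_lit 0), (nat_lit 0), (nat_lit 0), (nat_lit 0)]) (PF.cons (PF.leaf (nat_lit 2907010) (nat_lit 406046) (nat_lit 51376339) (nat_lit 15326426) [(nat_lit 406046), (nat_lit 0), (nat_lit 0), (nat_lit 0)]) (PF.cons (PF.leaf (nat_lit 3163331) (nat_lit 440453) (nat_lit 50928732) (nat_lit 15299172) [(nat_lit 440453), (nat_lit 0), (nat_lit 0), (nat_lit 0)]) (PF.cons (PF.leaf (nat_lit 3449806) (nat_lit 470535) (nat_lit 50431648) (nat_lit 15265557) [(nat_lit 470535), (nat_lit 0), (nat_lit 0), (nat_lit 0)]) (PF.cons (PF.leaf (nat_lit 3761438) (nat_lit 497203) (nat_lit 49894588) (nat_lit 15225412) [(nat_lit 497203), (nat_lit 0), (nat_lit 0), (nat_lit 0)]) (PF.cons (PF.leaf (nat_lit 4094365) (nat_lit 521041) (nat_lit 49324971) (nat_lit 15178633) [(nat_lit 521041), (nat_lit 0), (nat_lit 0), (nat_lit 0)]) (PF.cons (PF.leaf (nat_lit 4445397) (nat_lit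 542458) (nat_lit 48728869) (nat_lit 15125193) [(nat_lit 542458), (nat_lit 0), (nat_lit 0), (nat_lit 0)]) (PF.cons (PF.leaf (nat_lit 4811825) (nat_lit 561752) (nat_lit 48111398) (nat_lit 15065149) [(nat_lit 561752), (nat_lit 0),
 (nat_lit 0), (nat_lit 0)]) (PF.cons (PF.leaf (nat_lit 5191288) (nat_lit 579154) (nat_lit 47476948) (nat_lit 14998631) [(nat_lit 579154), (nat_lit 0), (nat_lit 0), (nat_lit 0)]) (PF.cons (PF.leaf (nat_lit 5581718) (nat_lit 594849) (nat_lit 46829332) (nat_lit 14925835) [(nat_lit 594849), (nat_lit 0), (nat_lit 0), (nat_lit 0)]) (PF.cons (PF.leaf (nat_lit 5981259) (nat_lit 608991) (nat_lit 46171886) (nat_lit 14847014) [(nat_lit 608991), (nat_lit 0), (nat_lit 0), (nat_lit 0)]) (PF.cons PF.nil (PF.cons PF.nil (PF.cons PF.nil PF.nil)))))))))))))) (PF.cons (PF.cons (PF.leaf (nat_lit 3316884) (nat_lit 1549282) (nat_lit 50308777) (nat_lit 15250752) [(nat_lit 0), (nat_lit 1549282), (nat_lit 0), (nat_lit 0)]) (PF.cons (PF.leaf (nat_lit 3591601) (nat_lit 478069)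 (nat_lit 49825641) (nat_lit 15213970) [(nat_lit 478069), (nat_lit 1591131), (nat_lit 0), (nat_lit 0)]) (PF.cons (PF.leaf (nat_lit 3893921) (nat_lit 503975) (nat_lit 49299685) (nat_lit 15170428) [(nat_lit 503975), (nat_lit 1630748), (nat_lit 0), (nat_lit 0)]) (PF.cons (PF.leaf (nat_lit 4218698) (nat_lit 527043) (nat_lit 48739864) (nat_lit 15120188) [(nat_lit 527043), (nat_lit 1667628), (nat_lit 0), (nat_lit 0)]) (PF.cons (PF.leaf
 (nat_lit 4562280) (nat_lit 547717) (nat_lit 48153025) (nat_lit 15063334) [(nat_lit 547717), (nat_lit 1701584), (nat_lit 0), (nat_lit 0)]) (PF.cons (PF.leaf (nat_lit 4921727) (nat_lit 566308) (nat_lit 47544690) (nat_lit 14999994) [(nat_lit 566308), (nat_lit 1732587), (nat_lit 0), (nat_lit 0)]) (PF.cons (PF.leaf (nat_lit 5294510) (nat_lit 583051) (nat_lit 46919466) (nat_lit 14930352) [(nat_lit 583051), (nat_lit 1760685), (nat_lit 0), (nat_lit 0)]) (PF.cons (PF.leaf (nat_lit 5678459) (nat_lit 598132) (nat_lit 46281271) (nat_lit 14854639) [(nat_lit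 598132), (nat_lit 1785974), (nat_lit 0), (nat_lit 0)]) (PF.cons (PF.leaf (nat_lit 6071687) (nat_lit 611703) (nat_lit 45633485) (nat_lit 14773132) [(nat_lit 611703), (nat_lit 1808570), (nat_lit 0), (nat_lit 0)]) (PF.cons (PF.leaf (nat_lit 6472476) (nat_lit 623891) (nat_lit 44979043) (nat_lit 14686140) [(nat_lit 623891), (nat_lit 1828601), (nat_lit 0), (nat_lit 0)]) (PF.cons PF.nil (PF.cons PF.nil PF.nil)))))))))))) (PF.cons (PF.cons (PF.leaf (nat_lit 4030191) (nat_lit 1652710) (nat_lit 48693445) (nat_lit 15109946) [(nat_lit 0), (nat_lit 1652710), (nat_lit 0), (nat_lit 0)]) (PF.cons (PF.leaf (nat_lit 4344749) (nat_lit 531907) (nat_lit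
 48147766) (nat_lit 15056914) [(nat_lit 531907), (nat_lit 1686112), (nat_lit 0), (nat_lit 0)]) (PF.cons (PF.leaf (nat_lit 4679766) (nat_lit 552042) (nat_lit 47573281) (nat_lit 14997205) [(nat_lit 552042), (nat_lit 1717120), (nat_lit 0), (nat_lit 0)]) (PF.cons (PF.leaf (nat_lit 5031438) (nat_lit 570079) (nat_lit 46976375) (nat_lit 14931060) [(nat_lit 570079), (nat_lit 1745569), (nat_lit 0), (nat_lit 0)]) (PF.cons (PF.leaf (nat_lit 5396995) (nat_lit 586277) (nat_lit 46362123) (nat_lit 14858730) [(nat_lit 586277), (nat_lit 1771425), (nat_lit 0), (nat_lit 0)]) (PF.cons (PF.leaf (nat_lit 5774095) (nat_lit 600833) (nat_lit 45734706) (nat_lit 14780496) [(nat_lit 600833), (nat_lit 1794722), (nat_lit 0), (nat_lit 0)]) (PF.cons (PF.leaf (nat_lit 6160719) (nat_lit 613905) (nat_lit 45097644) (nat_lit 14696663) [(nat_lit 613905), (nat_lit 1815536), (nat_lit 0), (nat_lit 0)]) (PF.cons (PF.leaf (nat_lit 6555144) (nat_lit 625624) (nat_lit 44453948) (nat_lit 14607560) [(nat_lit 625624),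 (nat_lit 1833965), (nat_lit 0), (nat_lit 0)]) (PF.cons PF.nil (PF.cons PF.nil PF.nil)))))))))) (PF.cons (PF.cons (PF.leaf (nat_lit 4799429) (nat_lit 1731212) (nat_lit 46988458) (nat_lit 14926717) [(nat_lit 0),
 (nat_lit 1731212), (nat_lit 0), (nat_lit 0)]) (PF.cons (PF.leaf (nat_lit 5141933) (nat_lit 573049) (nat_lit 46405725) (nat_lit 14858332) [(nat_lit 573049), (nat_lit 1757235), (nat_lit 0), (nat_lit 0)]) (PF.cons (PF.leaf (nat_lit 5499494) (nat_lit 588826) (nat_lit 45804452) (nat_lit 14783799) [(nat_lit 588826), (nat_lit 1780969), (nat_lit 0), (nat_lit 0)]) (PF.cons (PF.leaf (nat_lit 5869207) (nat_lit 602953) (nat_lit 45189322) (nat_lit 14703467) [(nat_lit 602953), (nat_lit 1802387), (nat_lit 0), (nat_lit 0)]) (PF.cons (PF.leaf (nat_lit 6248884) (nat_lit 615603) (nat_lit 44564141) (nat_lit 14617684) [(nat_lit 615603), (nat_lit 1821524), (nat_lit 0), (nat_lit 0)]) (PF.cons (PF.leaf (nat_lit 6636663) (nat_lit 626915) (nat_lit 43932085) (nat_lit 14526809) [(nat_lit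 626915), (nat_lit 1838447), (nat_lit 0), (nat_lit 0)]) (PF.cons (PF.leaf (nat_lit 7030921) (nat_lit 637006) (nat_lit 43295842) (nat_lit 14431203) [(nat_lit 637006), (nat_lit 1853243), (nat_lit 0), (nat_lit 0)]) (PF.cons PF.nil (PF.cons PF.nil PF.nil))))))))) (PF.cons (PF.cons (PF.leaf (nat_lit 5603194) (nat_lit 1789409) (nat_lit 45245647) (nat_lit 14705526) [(nat_lit 0), (nat_lit 1789409), (nat_lit 0), (nat_lit 0)]) (PF.cons
 (PF.leaf (nat_lit 5964525) (nat_lit 604482) (nat_lit 44644579) (nat_lit 14623566) [(nat_lit 604482), (nat_lit 1809046), (nat_lit 0), (nat_lit 0)]) (PF.cons (PF.leaf (nat_lit 6336727) (nat_lit 616792) (nat_lit 44032596) (nat_lit 14536239) [(nat_lit 616792), (nat_lit 1826597), (nat_lit 0), (nat_lit 0)]) (PF.cons (PF.leaf (nat_lit 6717505) (nat_lit 627764) (nat_lit 43413176) (nat_lit 14443945) [(nat_lit 627764), (nat_lit 1842099), (nat_lit 0), (nat_lit 0)]) (PF.cons (PF.leaf (nat_lit 7105128) (nat_lit 637522) (nat_lit 42789183) (nat_lit 14347074) [(nat_lit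 637522), (nat_lit 1855616), (nat_lit 0), (nat_lit 0)]) (PF.cons PF.nil (PF.cons PF.nil PF.nil))))))) (PF.cons (PF.cons (PF.leaf (nat_lit 6425163) (nat_lit 1830813) (nat_lit 43502422) (nat_lit 14452324) [(nat_lit 0), (nat_lit 1830813), (nat_lit 0), (nat_lit 0)]) (PF.cons (PF.leaf (nat_lit 6798221) (nat_lit 628165) (nat_lit 42896794) (nat_lit 14358995) [(nat_lit 628165), (nat_lit 1844971), (nat_lit 0), (nat_lit 0)]) (PF.cons (PF.leaf (nat_lit 7178859) (nat_lit 637649) (nat_lit 42285915) (nat_lit 14261188) [(nat_lit 637649), (nat_lit 1857281), (nat_lit 0), (nat_lit 0)]) (PF.cons (PF.leaf (nat_lit 7565247) (nat_lit 646029) (nat_lit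
 41672375) (nat_lit 14159311) [(nat_lit 646029), (nat_lit 1867807), (nat_lit 0), (nat_lit 0)]) (PF.cons PF.nil PF.nil))))) (PF.cons (PF.cons (PF.leaf (nat_lit 7252843) (nat_lit 1858279) (nat_lit 41785581) (nat_lit 14173554) [(nat_lit 0), (nat_lit 1858279), (nat_lit 0), (nat_lit 0)]) (PF.cons (PF.leaf (nat_lit 7632100) (nat_lit 645542) (nat_lit 41185412) (nat_lit 14071174) [(nat_lit 645542), (nat_lit 1867780), (nat_lit 0), (nat_lit 0)]) (PF.cons PF.nil (PF.cons PF.nil PF.nil)))) (PF.cons (PF.cons (PF.leaf (nat_lit 8076782) (nat_lit 1874205) (nat_lit 40113868) (nat_lit 13875504) [(nat_lit 0), (nat_lit 1874205), (nat_lit 0), (nat_lit 0)]) (PF.cons PF.nil PF.nil)) (PF.cons PF.nil PF.nil))))))))) (PF.cons (PF.cons (PF.cons (PF.leaf (nat_lit 3877406) (nat_lit 3766115) (nat_lit 48296767) (nat_lit 15045929) [(nat_lit 0), (nat_lit 0), (nat_lit 3766115), (nat_lit 0)]) (PF.cons (PF.leaf (nat_lit 4160348) (nat_lit 504822) (nat_lit 47809254) (nat_lit 14997038) [(nat_lit 504822), (nat_lit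 0), (nat_lit 3797697), (nat_lit 0)]) (PF.cons (PF.leaf (nat_lit 4468980) (nat_lit 528367) (nat_lit 47283145) (nat_lit 14941089) [(nat_lit 528367), (nat_lit 0), (nat_lit 3827843), (nat_lit 0)]) (PF.cons (PF.leaf
 (nat_lit 4798058) (nat_lit 549039) (nat_lit 46727460) (nat_lit 14878491) [(nat_lit 549039), (nat_lit 0), (nat_lit 3855742), (nat_lit 0)]) (PF.cons (PF.leaf (nat_lit 5143967) (nat_lit 567349) (nat_lit 46148904) (nat_lit 14809583) [(nat_lit 567349), (nat_lit 0), (nat_lit 3880925), (nat_lit 0)]) (PF.cons (PF.leaf (nat_lit 5503822) (nat_lit 583649) (nat_lit 45552747) (nat_lit 14734685) [(nat_lit 583649), (nat_lit 0), (nat_lit 3903131), (nat_lit 0)]) (PF.cons (PF.leaf (nat_lit 5875231) (nat_lit 598195) (nat_lit 44943280) (nat_lit 14654120) [(nat_lit 598195), (nat_lit 0), (nat_lit 3922239), (nat_lit 0)]) (PF.cons (PF.leaf (nat_lit 6256174) (nat_lit 611183) (nat_lit 44324084) (nat_lit 14568222) [(nat_lit 611183), (nat_lit 0), (nat_lit 3938219), (nat_lit 0)]) (PF.cons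 (PF.leaf (nat_lit 6644864) (nat_lit 622772) (nat_lit 43698192) (nat_lit 14477336) [(nat_lit 622772), (nat_lit 0), (nat_lit 3951104), (nat_lit 0)]) (PF.cons PF.nil PF.nil)))))))))) (PF.cons (PF.cons (PF.leaf (nat_lit 4596841) (nat_lit 1702001) (nat_lit 46692500) (nat_lit 14868846) [(nat_lit 0), (nat_lit 1702001), (nat_lit 3845464), (nat_lit 0)]) (PF.cons (PF.leaf (nat_lit 4915041) (nat_lit 551761) (nat_lit 46153513) (nat_lit
 14804600) [(nat_lit 551761), (nat_lit 1729365), (nat_lit 3869571), (nat_lit 0)]) (PF.cons (PF.leaf (nat_lit 5251870) (nat_lit 569769) (nat_lit 45589466) (nat_lit 14733917) [(nat_lit 569769), (nat_lit 1754509), (nat_lit 3891381), (nat_lit 0)]) (PF.cons (PF.leaf (nat_lit 5603619) (nat_lit 585713) (nat_lit 45006538) (nat_lit 14657239) [(nat_lit 585713), (nat_lit 1777335), (nat_lit 3910557), (nat_lit 0)]) (PF.cons (PF.leaf (nat_lit 5967587) (nat_lit 599884) (nat_lit 44409532) (nat_lit 14574965) [(nat_lit 599884), (nat_lit 1797845), (nat_lit 3926930),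 (nat_lit 0)]) (PF.cons (PF.leaf (nat_lit 6341549) (nat_lit 612498) (nat_lit 43802322) (nat_lit 14487476) [(nat_lit 612498), (nat_lit 1816090), (nat_lit 3940432), (nat_lit 0)]) (PF.cons (PF.leaf (nat_lit 6723630) (nat_lit 623720) (nat_lit 43188116) (nat_lit 14395146) [(nat_lit 623720), (nat_lit 1832153), (nat_lit 3951070), (nat_lit 0)]) (PF.cons (PF.leaf (nat_lit 7112207) (nat_lit 633689) (nat_lit 42569606) (nat_lit 14298348) [(nat_lit 633689), (nat_lit 1846132), (nat_lit 3958897), (nat_lit 0)]) (PF.cons PF.nil PF.nil))))))))) (PF.cons (PF.cons (PF.leaf (nat_lit 5362293) (nat_lit 1763854) (nat_lit 45026666) (nat_lit 14654590) [(nat_lit 0),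
 (nat_lit 1763854), (nat_lit 3899847), (nat_lit 0)]) (PF.cons (PF.leaf (nat_lit 5704563) (nat_lit 587080) (nat_lit 44459370) (nat_lit 14576687) [(nat_lit 587080), (nat_lit 1784753), (nat_lit 3916168), (nat_lit 0)]) (PF.cons (PF.leaf (nat_lit 6060334) (nat_lit 600991) (nat_lit 43876544) (nat_lit 14493162) [(nat_lit 600991), (nat_lit 1803575), (nat_lit 3929972), (nat_lit 0)]) (PF.cons (PF.leaf (nat_lit 6426798) (nat_lit 613315) (nat_lit 43282588) (nat_lit 14404471) [(nat_lit 613315), (nat_lit 1820325), (nat_lit 3941155), (nat_lit 0)]) (PF.cons (PF.leaf (nat_lit 6801899) (nat_lit 624240) (nat_lit 42681017) (nat_lit 14311036) [(nat_lit 624240), (nat_lit 1835051), (nat_lit 3949692), (nat_lit 0)]) (PF.cons (PF.leaf (nat_lit 7183882) (nat_lit 633913) (nat_lit 42074713) (nat_lit 14213257) [(nat_lit 633913), (nat_lit 1847829), (nat_lit 3955615), (nat_lit 0)]) (PF.cons PF.nil PF.nil))))))) (PF.cons (PF.cons (PF.leaf (nat_lit 6154594) (nat_lit 1808425) (nat_lit 43343438) (nat_lit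 14408643) [(nat_lit 0), (nat_lit 1808425), (nat_lit 3931453), (nat_lit 0)]) (PF.cons (PF.leaf (nat_lit 6512602) (nat_lit 613617) (nat_lit 42764274) (nat_lit 14319190) [(nat_lit 613617), (nat_lit 1823755), (nat_lit
 3940463), (nat_lit 0)]) (PF.cons (PF.leaf (nat_lit 6880213) (nat_lit 624321) (nat_lit 42176457) (nat_lit 14225019) [(nat_lit 624321), (nat_lit 1837218), (nat_lit 3947038), (nat_lit 0)]) (PF.cons (PF.leaf (nat_lit 7255245) (nat_lit 633759) (nat_lit 41583183) (nat_lit 14126575) [(nat_lit 633759), (nat_lit 1848863), (nat_lit 3951185), (nat_lit 0)]) (PF.cons (PF.leaf (nat_lit 7636081) (nat_lit 642063) (nat_lit 40987049) (nat_lit 14024271) [(nat_lit 642063), (nat_lit 1858760), (nat_lit 3952956), (nat_lit 0)]) PF.nil))))) (PF.cons (PF.cons (PF.leaf (nat_lit 6959432) (nat_lit 1838694) (nat_lit 41673804) (nat_lit 14137060) [(nat_lit 0), (nat_lit 1838694), (nat_lit 3943169), (nat_lit 0)]) (PF.cons (PF.leaf (nat_lit 7326812) (nat_lit 633215) (nat_lit 41094553) (nat_lit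 14038297) [(nat_lit 633215), (nat_lit 1849270), (nat_lit 3945664), (nat_lit 0)]) (PF.cons (PF.leaf (nat_lit 7700775) (nat_lit 641336) (nat_lit 40511643) (nat_lit 13935721) [(nat_lit 641336), (nat_lit 1858208), (nat_lit 3945941), (nat_lit 0)]) (PF.cons PF.nil PF.nil)))) (PF.cons (PF.cons (PF.leaf (nat_lit 7766021) (nat_lit 1857118) (nat_lit 40039379) (nat_lit 13845852) [(nat_lit 0), (nat_lit 1857118), (nat_lit 3937989),
 (nat_lit 0)]) (PF.cons (PF.leaf (nat_lit 8137879) (nat_lit 647211) (nat_lit 39468415) (nat_lit 13739955) [(nat_lit 647211), (nat_lit 1863672), (nat_lit 3934864), (nat_lit 0)]) PF.nil)) (PF.cons PF.nil (PF.cons PF.nil PF.nil)))))))) (PF.cons (PF.cons (PF.cons (PF.leaf (nat_lit 5146071) (nat_lit 3872604) (nat_lit 44765772) (nat_lit 14597831) [(nat_lit 0), (nat_lit 0), (nat_lit 3872604), (nat_lit 0)]) (PF.cons (PF.leaf (nat_lit 5465599) (nat_lit 566596) (nat_lit 44239237) (nat_lit 14524824) [(nat_lit 566596), (nat_lit 0), (nat_lit 3889077), (nat_lit 0)])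 (PF.cons (PF.leaf (nat_lit 5802202) (nat_lit 582754) (nat_lit 43690800) (nat_lit 14445719) [(nat_lit 582754), (nat_lit 0), (nat_lit 3903392), (nat_lit 0)]) (PF.cons (PF.leaf (nat_lit 6152216) (nat_lit 596894) (nat_lit 43126378) (nat_lit 14361105) [(nat_lit 596894), (nat_lit 0), (nat_lit 3915322), (nat_lit 0)]) (PF.cons (PF.leaf (nat_lit 6513057) (nat_lit 609328) (nat_lit 42550481) (nat_lit 14271482) [(nat_lit 609328), (nat_lit 0), (nat_lit 3924766), (nat_lit 0)]) (PF.cons (PF.leaf (nat_lit 6882591) (nat_lit 620284) (nat_lit 41966692) (nat_lit 14177294) [(nat_lit 620284), (nat_lit 0), (nat_lit 3931700), (nat_lit 0)]) (PF.cons (PF.leaf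
 (nat_lit 7259063) (nat_lit 629936) (nat_lit 41377925) (nat_lit 14078958) [(nat_lit 629936), (nat_lit 0), (nat_lit 3936155), (nat_lit 0)]) (PF.cons PF.nil (PF.cons PF.nil PF.nil))))))))) (PF.cons (PF.cons (PF.leaf (nat_lit 5903736) (nat_lit 1784324) (nat_lit 43153028) (nat_lit 14360172) [(nat_lit 0), (nat_lit 1784324), (nat_lit 3905643), (nat_lit 0)]) (PF.cons (PF.leaf (nat_lit 6244127) (nat_lit 596984) (nat_lit 42604985) (nat_lit 14275183) [(nat_lit 596984), (nat_lit 1800978), (nat_lit 3915340), (nat_lit 0)]) (PF.cons (PF.leaf (nat_lit 6596694) (nat_lit 609285) (nat_lit 42043853) (nat_lit 14185098) [(nat_lit 609285), (nat_lit 1815737), (nat_lit 3922775), (nat_lit 0)]) (PF.cons (PF.leaf (nat_lit 6958732) (nat_lit 620064) (nat_lit 41473748) (nat_lit 14090446) [(nat_lit 620064), (nat_lit 1828632), (nat_lit 3927896), (nat_lit 0)]) (PF.cons (PF.leaf (nat_lit 7328280) (nat_lit 629518) (nat_lit 40897905) (nat_lit 13991690) [(nat_lit 629518), (nat_lit 1839723), (nat_lit 3930710),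 (nat_lit 0)]) (PF.cons (PF.leaf (nat_lit 7703705) (nat_lit 637798) (nat_lit 40318941) (nat_lit 13889252) [(nat_lit 637798), (nat_lit 1849089), (nat_lit 3931268), (nat_lit 0)]) (PF.cons PF.nil PF.nil)))))))
 (PF.cons (PF.cons (PF.leaf (nat_lit 6682124) (nat_lit 1817746) (nat_lit 41537753) (nat_lit 14096516) [(nat_lit 0), (nat_lit 1817746), (nat_lit 3919525), (nat_lit 0)]) (PF.cons (PF.leaf (nat_lit 7035723) (nat_lit 619388) (nat_lit 40982683) (nat_lit 14001804) [(nat_lit 619388), (nat_lit 1829510), (nat_lit 3922958), (nat_lit 0)]) (PF.cons (PF.leaf (nat_lit 7397849) (nat_lit 628715) (nat_lit 40420728) (nat_lit 13902962) [(nat_lit 628715), (nat_lit 1839595), (nat_lit 3924248), (nat_lit 0)]) (PF.cons (PF.leaf (nat_lit 7766443) (nat_lit 636846) (nat_lit 39854827) (nat_lit 13800462) [(nat_lit 636846), (nat_lit 1848062), (nat_lit 3923429), (nat_lit 0)]) (PF.cons PF.nil PF.nil))))) (PF.cons (PF.cons (PF.leaf (nat_lit 7468603) (nat_lit 1838909) (nat_lit 39945746) (nat_lit 13812718)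 [(nat_lit 0), (nat_lit 1838909), (nat_lit 3916810), (nat_lit 0)]) (PF.cons (PF.leaf (nat_lit 7829668) (nat_lit 635551) (nat_lit 39393770) (nat_lit 13710467) [(nat_lit 635551), (nat_lit 1846528), (nat_lit 3914719), (nat_lit 0)]) (PF.cons (PF.leaf (nat_lit 8196492) (nat_lit 642510) (nat_lit 38839333) (nat_lit 13604979) [(nat_lit 642510), (nat_lit 1852689), (nat_lit 3910704), (nat_lit 0)]) (PF.cons PF.nil PF.nil))))
 (PF.cons (PF.cons (PF.leaf (nat_lit 8253816) (nat_lit 1849960) (nat_lit 38394520) (nat_lit 13514252) [(nat_lit 0), (nat_lit 1849960), (nat_lit 3900099), (nat_lit 0)]) (PF.cons PF.nil PF.nil)) (PF.cons PF.nil PF.nil)))))) (PF.cons (PF.cons (PF.cons (PF.leaf (nat_lit 6423598) (nat_lit 3895070) (nat_lit 41372544) (nat_lit 14051056) [(nat_lit 0), (nat_lit 0), (nat_lit 3895070), (nat_lit 0)]) (PF.cons (PF.leaf (nat_lit 6760872) (nat_lit 603533) (nat_lit 40846063) (nat_lit 13961029) [(nat_lit 603533), (nat_lit 0), (nat_lit 3899395), (nat_lit 0)]) (PF.cons (PF.leaf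 (nat_lit 7109203) (nat_lit 614440) (nat_lit 40308476) (nat_lit 13866406) [(nat_lit 614440), (nat_lit 0), (nat_lit 3901683), (nat_lit 0)]) (PF.cons (PF.leaf (nat_lit 7465974) (nat_lit 623888) (nat_lit 39763620) (nat_lit 13767761) [(nat_lit 623888), (nat_lit 0), (nat_lit 3901921), (nat_lit 0)]) (PF.cons (PF.leaf (nat_lit 7829321) (nat_lit 632082) (nat_lit 39214474) (nat_lit 13665580) [(nat_lit 632082), (nat_lit 0), (nat_lit 3900143), (nat_lit 0)]) (PF.cons PF.nil (PF.cons PF.nil PF.nil))))))) (PF.cons (PF.cons (PF.leaf (nat_lit 7186429) (nat_lit 1819360) (nat_lit 39829668) (nat_lit 13775495) [(nat_lit 0), (nat_lit 1819360),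
 (nat_lit 3894763), (nat_lit 0)]) (PF.cons (PF.leaf (nat_lit 7534846) (nat_lit 622433) (nat_lit 39299752) (nat_lit 13677350) [(nat_lit 622433), (nat_lit 1828163), (nat_lit 3893703), (nat_lit 0)]) (PF.cons (PF.leaf (nat_lit 7890895) (nat_lit 630577) (nat_lit 38764338) (nat_lit 13575598) [(nat_lit 630577), (nat_lit 1835453), (nat_lit 3890755), (nat_lit 0)]) (PF.cons (PF.leaf (nat_lit 8252610) (nat_lit 637589) (nat_lit 38226123) (nat_lit 13470721) [(nat_lit 637589), (nat_lit 1841295), (nat_lit 3885967), (nat_lit 0)]) (PF.cons PF.nil PF.nil))))) (PF.cons (PF.cons (PF.leaf (nat_lit 7953902) (nat_lit 1833060) (nat_lit 38316515) (nat_lit 13484437) [(nat_lit 0), (nat_lit 1833060), (nat_lit 3880579), (nat_lit 0)]) (PF.cons (PF.leaf (nat_lit 8308254) (nat_lit 635699) (nat_lit 37791908) (nat_lit 13380251) [(nat_lit 635699), (nat_lit 1838236), (nat_lit 3874826), (nat_lit 0)]) (PF.cons (PF.leaf (nat_lit 8667679) (nat_lit 641667) (nat_lit 37265731) (nat_lit 13273322) [(nat_lit 641667),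 (nat_lit 1842110), (nat_lit 3867400), (nat_lit 0)]) (PF.cons PF.nil PF.nil)))) (PF.cons (PF.cons (PF.leaf (nat_lit 8717837) (nat_lit 1838100) (nat_lit 36847344) (nat_lit 13182787) [(nat_lit 0), (nat_lit 1838100),
 (nat_lit 3854793), (nat_lit 0)]) (PF.cons PF.nil PF.nil)) (PF.cons PF.nil PF.nil))))) (PF.cons (PF.cons (PF.cons (PF.leaf (nat_lit 7668430) (nat_lit 3860121) (nat_lit 38217774) (nat_lit 13450553) [(nat_lit 0), (nat_lit 0), (nat_lit 3860121), (nat_lit 0)]) (PF.cons (PF.leaf (nat_lit 8011134) (nat_lit 623269) (nat_lit 37713281) (nat_lit 13350446) [(nat_lit 623269), (nat_lit 0), (nat_lit 3855454), (nat_lit 0)]) (PF.cons (PF.leaf (nat_lit 8360717) (nat_lit 630393) (nat_lit 37204373) (nat_lit 13247188) [(nat_lit 630393), (nat_lit 0), (nat_lit 3849115), (nat_lit 0)]) (PF.cons (PF.leaf (nat_lit 8715303) (nat_lit 636447) (nat_lit 36693529) (nat_lit 13141264) [(nat_lit 636447), (nat_lit 0), (nat_lit 3841169), (nat_lit 0)]) (PF.cons PF.nil PF.nil))))) (PF.cons (PF.cons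 (PF.leaf (nat_lit 8416658) (nat_lit 1822434) (nat_lit 36782772) (nat_lit 13156159) [(nat_lit 0), (nat_lit 1822434), (nat_lit 3836861), (nat_lit 0)]) (PF.cons (PF.leaf (nat_lit 8764072) (nat_lit 634087) (nat_lit 36285075) (nat_lit 13051264) [(nat_lit 634087), (nat_lit 1825590), (nat_lit 3828198), (nat_lit 0)]) (PF.cons PF.nil (PF.cons PF.nil PF.nil)))) (PF.cons (PF.cons (PF.leaf (nat_lit 9159672) (nat_lit 1822575) (nat_lit
 35393240) (nat_lit 12854489) [(nat_lit 0), (nat_lit 1822575), (nat_lit 3803983), (nat_lit 0)]) (PF.cons PF.nil PF.nil)) PF.nil))) (PF.cons (PF.cons (PF.cons (PF.leaf (nat_lit 8858253) (nat_lit 3787550) (nat_lit 35340198) (nat_lit 12830863) [(nat_lit 0), (nat_lit 0), (nat_lit 3787550), (nat_lit 0)]) (PF.cons (PF.leaf (nat_lit 9198610) (nat_lit 631065) (nat_lit 34868588) (nat_lit 12726212) [(nat_lit 631065), (nat_lit 0), (nat_lit 3776589), (nat_lit 0)]) PF.nil)) (PF.cons PF.nil PF.nil)) (PF.cons PF.nil (PF.cons PF.nil PF.nil)))))))) (PF.cons (PF.cons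 (PF.cons (PF.cons (PF.leaf (nat_lit 4679174) (nat_lit 8680760) (nat_lit 44036087) (nat_lit 14391965) [(nat_lit 0), (nat_lit 0), (nat_lit 0), (nat_lit 8680760)]) (PF.cons (PF.leaf (nat_lit 4957403) (nat_lit 513314) (nat_lit 43594825) (nat_lit 14331300) [(nat_lit 513314), (nat_lit 0), (nat_lit 0), (nat_lit 8669372)]) (PF.cons (PF.leaf (nat_lit 5259225) (nat_lit 534857) (nat_lit 43120721) (nat_lit 14263752) [(nat_lit 534857), (nat_lit 0), (nat_lit 0), (nat_lit 8654622)]) (PF.cons (PF.leaf (nat_lit 5579407) (nat_lit 553414) (nat_lit 42622039) (nat_lit 14190113) [(nat_lit 553414), (nat_lit 0), (nat_lit 0), (nat_lit 8636415)]) (PF.cons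
 (PF.leaf (nat_lit 5914415) (nat_lit 569569) (nat_lit 42104820) (nat_lit 14110987) [(nat_lit 569569), (nat_lit 0), (nat_lit 0), (nat_lit 8614726)]) (PF.cons (PF.leaf (nat_lit 6261485) (nat_lit 583723) (nat_lit 41573730) (nat_lit 14026876) [(nat_lit 583723), (nat_lit 0), (nat_lit 0), (nat_lit 8589586)]) (PF.cons (PF.leaf (nat_lit 6618374) (nat_lit 596168) (nat_lit 41032501) (nat_lit 13938227) [(nat_lit 596168), (nat_lit 0), (nat_lit 0), (nat_lit 8561075)]) (PF.cons (PF.leaf (nat_lit 6983221) (nat_lit 607124) (nat_lit 40484189) (nat_lit 13845448) [(nat_lit 607124), (nat_lit 0), (nat_lit 0), (nat_lit 8529305)]) (PF.cons (PF.leaf (nat_lit 7354435) (nat_lit 616766) (nat_lit 39931337) (nat_lit 13748923) [(nat_lit 616766), (nat_lit 0), (nat_lit 0), (nat_lit 8494418)]) (PF.cons PF.nil PF.nil)))))))))) (PF.cons (PF.cons (PF.leaf (nat_lit 5373090) (nat_lit 1702643) (nat_lit 42596240) (nat_lit 14181322) [(nat_lit 0), (nat_lit 1702643), (nat_lit 0), (nat_lit 8628606)]) (PF.cons (PF.leaf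 (nat_lit 5682137) (nat_lit 554216) (nat_lit 42114114) (nat_lit 14107582) [(nat_lit 554216), (nat_lit 1724372), (nat_lit 0), (nat_lit 8608527)]) (PF.cons (PF.leaf (nat_lit 6007930) (nat_lit 570229) (nat_lit
 41611260) (nat_lit 14028130) [(nat_lit 570229), (nat_lit 1743935), (nat_lit 0), (nat_lit 8585026)]) (PF.cons (PF.leaf (nat_lit 6346872) (nat_lit 584178) (nat_lit 41093176) (nat_lit 13943601) [(nat_lit 584178), (nat_lit 1761328), (nat_lit 0), (nat_lit 8558170)]) (PF.cons (PF.leaf (nat_lit 6696395) (nat_lit 596389) (nat_lit 40564064) (nat_lit 13854520) [(nat_lit 596389), (nat_lit 1776614), (nat_lit 0), (nat_lit 8528055)]) (PF.cons (PF.leaf (nat_lit 7054445) (nat_lit 607102) (nat_lit 40027260) (nat_lit 13761344) [(nat_lit 607102), (nat_lit 1789888), (nat_lit 0), (nat_lit 8494807)]) (PF.cons (PF.leaf (nat_lit 7419293) (nat_lit 616502) (nat_lit 39485479) (nat_lit 13664486) [(nat_lit 616502), (nat_lit 1801260), (nat_lit 0), (nat_lit 8458568)]) (PF.cons (PF.leaf (nat_lit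 7789483) (nat_lit 624739) (nat_lit 38940969) (nat_lit 13564327) [(nat_lit 624739), (nat_lit 1810841), (nat_lit 0), (nat_lit 8419501)]) (PF.cons PF.nil PF.nil))))))))) (PF.cons (PF.cons (PF.leaf (nat_lit 6104277) (nat_lit 1748661) (nat_lit 41115662) (nat_lit 13942664) [(nat_lit 0), (nat_lit 1748661), (nat_lit 0), (nat_lit 8553163)]) (PF.cons (PF.leaf (nat_lit 6433793) (nat_lit 584040) (nat_lit 40612532) (nat_lit 13858207)
 [(nat_lit 584040), (nat_lit 1764579), (nat_lit 0), (nat_lit 8524874)]) (PF.cons (PF.leaf (nat_lit 6775250) (nat_lit 596124) (nat_lit 40096902) (nat_lit 13769082) [(nat_lit 596124), (nat_lit 1778590), (nat_lit 0), (nat_lit 8493399)]) (PF.cons (PF.leaf (nat_lit 7126015) (nat_lit 606673) (nat_lit 39572591) (nat_lit 13675827) [(nat_lit 606673), (nat_lit 1790746), (nat_lit 0), (nat_lit 8458881)]) (PF.cons (PF.leaf (nat_lit 7484156) (nat_lit 615892) (nat_lit 39042602) (nat_lit 13578903) [(nat_lit 615892), (nat_lit 1801128), (nat_lit 0), (nat_lit 8421478)])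 (PF.cons (PF.leaf (nat_lit 7848089) (nat_lit 623942) (nat_lit 38509363) (nat_lit 13478723) [(nat_lit 623942), (nat_lit 1809828), (nat_lit 0), (nat_lit 8381356)]) (PF.cons PF.nil PF.nil))))))) (PF.cons (PF.cons (PF.leaf (nat_lit 6856002) (nat_lit 1779917) (nat_lit 39630161) (nat_lit 13681803) [(nat_lit 0), (nat_lit 1779917), (nat_lit 0), (nat_lit 8457096)]) (PF.cons (PF.leaf (nat_lit 7198550) (nat_lit 605813) (nat_lit 39119574) (nat_lit 13588836) [(nat_lit 605813), (nat_lit 1791016), (nat_lit 0), (nat_lit 8421538)]) (PF.cons (PF.leaf (nat_lit 7549516) (nat_lit 614922) (nat_lit 38602253) (nat_lit 13492145) [(nat_lit 614922), (nat_lit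
 1800467), (nat_lit 0), (nat_lit 8383166)]) (PF.cons (PF.leaf (nat_lit 7906857) (nat_lit 622839) (nat_lit 38080921) (nat_lit 13392191) [(nat_lit 622839), (nat_lit 1808340), (nat_lit 0), (nat_lit 8342160)]) (PF.cons (PF.leaf (nat_lit 8269105) (nat_lit 629706) (nat_lit 37557756) (nat_lit 13289378) [(nat_lit 629706), (nat_lit 1814717), (nat_lit 0), (nat_lit 8298699)]) PF.nil))))) (PF.cons (PF.cons (PF.leaf (nat_lit 7616186) (nat_lit 1799303) (nat_lit 38163824) (nat_lit 13404141) [(nat_lit 0), (nat_lit 1799303), (nat_lit 0), (nat_lit 8343632)]) (PF.cons (PF.leaf (nat_lit 7966249) (nat_lit 621415) (nat_lit 37655185) (nat_lit 13304691) [(nat_lit 621415), (nat_lit 1806398), (nat_lit 0), (nat_lit 8301924)]) (PF.cons (PF.leaf (nat_lit 8322044) (nat_lit 628190) (nat_lit 37143910) (nat_lit 13202359) [(nat_lit 628190), (nat_lit 1812083), (nat_lit 0), (nat_lit 8257827)]) (PF.cons PF.nil PF.nil)))) (PF.cons (PF.cons (PF.leaf (nat_lit 8375936) (nat_lit 1809061) (nat_lit 36732876) (nat_lit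 13114554) [(nat_lit 0), (nat_lit 1809061), (nat_lit 0), (nat_lit 8216072)]) (PF.cons (PF.leaf (nat_lit 8729348) (nat_lit 632151) (nat_lit 36232707) (nat_lit 13010432) [(nat_lit 632151), (nat_lit 1812832),
 (nat_lit 0), (nat_lit 8169356)]) PF.nil)) (PF.cons PF.nil (PF.cons PF.nil PF.nil)))))))) (PF.cons (PF.cons (PF.cons (PF.leaf (nat_lit 5880465) (nat_lit 3800520) (nat_lit 40900977) (nat_lit 13889006) [(nat_lit 0), (nat_lit 0), (nat_lit 3800520), (nat_lit 8518308)]) (PF.cons (PF.leaf (nat_lit 6189205) (nat_lit 564098) (nat_lit 40433322) (nat_lit 13810147) [(nat_lit 564098), (nat_lit 0), (nat_lit 3809136), (nat_lit 8492107)]) (PF.cons (PF.leaf (nat_lit 6513404) (nat_lit 578513) (nat_lit 39947407) (nat_lit 13725934) [(nat_lit 578513), (nat_lit 0), (nat_lit 3815794), (nat_lit 8462649)]) (PF.cons (PF.leaf (nat_lit 6849528) (nat_lit 590935) (nat_lit 39448441) (nat_lit 13637083) [(nat_lit 590935), (nat_lit 0), (nat_lit 3820384), (nat_lit 8430097)]) (PF.cons (PF.leaf (nat_lit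 7195120) (nat_lit 601700) (nat_lit 38940350) (nat_lit 13544166) [(nat_lit 601700), (nat_lit 0), (nat_lit 3822880), (nat_lit 8394613)]) (PF.cons (PF.leaf (nat_lit 7548218) (nat_lit 611054) (nat_lit 38426203) (nat_lit 13447665) [(nat_lit 611054), (nat_lit 0), (nat_lit 3823307), (nat_lit 8356364)]) (PF.cons (PF.leaf (nat_lit 7907209) (nat_lit 619181) (nat_lit 37908471) (nat_lit 13348007) [(nat_lit 619181), (nat_lit 0),
 (nat_lit 3821725), (nat_lit 8315518)]) (PF.cons PF.nil (PF.cons PF.nil PF.nil))))))))) (PF.cons (PF.cons (PF.leaf (nat_lit 6601917) (nat_lit 1757008) (nat_lit 39475980) (nat_lit 13637702) [(nat_lit 0), (nat_lit 1757008), (nat_lit 3811897), (nat_lit 8426224)]) (PF.cons (PF.leaf (nat_lit 6928620) (nat_lit 589853) (nat_lit 38992164) (nat_lit 13549485) [(nat_lit 589853), (nat_lit 1769596), (nat_lit 3814934), (nat_lit 8392778)]) (PF.cons (PF.leaf (nat_lit 7266197) (nat_lit 600594) (nat_lit 38497660) (nat_lit 13457040) [(nat_lit 600594), (nat_lit 1780453), (nat_lit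 3816041), (nat_lit 8356427)]) (PF.cons (PF.leaf (nat_lit 7612106) (nat_lit 609873) (nat_lit 37996024) (nat_lit 13360936) [(nat_lit 609873), (nat_lit 1789643), (nat_lit 3815223), (nat_lit 8317364)]) (PF.cons (PF.leaf (nat_lit 7964522) (nat_lit 617897) (nat_lit 37490023) (nat_lit 13261650) [(nat_lit 617897), (nat_lit 1797251), (nat_lit 3812521), (nat_lit 8275774)]) (PF.cons (PF.leaf (nat_lit 8321954) (nat_lit 624828) (nat_lit 36981864) (nat_lit 13159595) [(nat_lit 624828), (nat_lit 1803368), (nat_lit 3808002), (nat_lit 8231840)]) (PF.cons PF.nil PF.nil))))))) (PF.cons (PF.cons (PF.leaf (nat_lit 7339401) (nat_lit 1779756)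
 (nat_lit 38055701) (nat_lit 13368412) [(nat_lit 0), (nat_lit 1779756), (nat_lit 3808299), (nat_lit 8316887)]) (PF.cons (PF.leaf (nat_lit 7677207) (nat_lit 608305) (nat_lit 37567679) (nat_lit 13273045) [(nat_lit 608305), (nat_lit 1788112), (nat_lit 3806336), (nat_lit 8277220)]) (PF.cons (PF.leaf (nat_lit 8022574) (nat_lit 616293) (nat_lit 37074182) (nat_lit 13174402) [(nat_lit 616293), (nat_lit 1794985), (nat_lit 3802606), (nat_lit 8235062)]) (PF.cons (PF.leaf (nat_lit 8373575) (nat_lit 623158) (nat_lit 36577711) (nat_lit 13072950) [(nat_lit 623158), (nat_lit 1800449), (nat_lit 3797165), (nat_lit 8190612)]) (PF.cons PF.nil PF.nil))))) (PF.cons (PF.cons (PF.leaf (nat_lit 8082157) (nat_lit 1792308) (nat_lit 36660340) (nat_lit 13086178) [(nat_lit 0), (nat_lit 1792308), (nat_lit 3792000), (nat_lit 8193366)]) (PF.cons (PF.leaf (nat_lit 8426044) (nat_lit 621200) (nat_lit 36176258) (nat_lit 12985582) [(nat_lit 621200), (nat_lit 1797162), (nat_lit 3785718), (nat_lit 8148564)])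 (PF.cons (PF.leaf (nat_lit 8775021) (nat_lit 627045) (nat_lit 35690352) (nat_lit 12882521) [(nat_lit 627045), (nat_lit 1800756), (nat_lit 3777883), (nat_lit 8101695)]) (PF.cons PF.nil PF.nil)))) (PF.cons (PF.cons
 (PF.leaf (nat_lit 8822377) (nat_lit 1796609) (nat_lit 35303196) (nat_lit 12795377) [(nat_lit 0), (nat_lit 1796609), (nat_lit 3765162), (nat_lit 8058639)]) (PF.cons PF.nil PF.nil)) (PF.cons PF.nil PF.nil)))))) (PF.cons (PF.cons (PF.cons (PF.leaf (nat_lit 7080172) (nat_lit 3785538) (nat_lit 37922078) (nat_lit 13327729) [(nat_lit 0), (nat_lit 0), (nat_lit 3785538), (nat_lit 8287928)]) (PF.cons (PF.leaf (nat_lit 7403237) (nat_lit 593178) (nat_lit 37458586) (nat_lit 13237115) [(nat_lit 593178), (nat_lit 0), (nat_lit 3784701), (nat_lit 8250529)]) (PF.cons (PF.leaf (nat_lit 7736275) (nat_lit 602755) (nat_lit 36985888) (nat_lit 13142677) [(nat_lit 602755), (nat_lit 0), (nat_lit 3782123), (nat_lit 8210487)]) (PF.cons (PF.leaf (nat_lit 8076817) (nat_lit 610938) (nat_lit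 36507296) (nat_lit 13045002) [(nat_lit 610938), (nat_lit 0), (nat_lit 3777834), (nat_lit 8168029)]) (PF.cons (PF.leaf (nat_lit 8423131) (nat_lit 617935) (nat_lit 36025355) (nat_lit 12944570) [(nat_lit 617935), (nat_lit 0), (nat_lit 3771892), (nat_lit 8123361)]) (PF.cons PF.nil (PF.cons PF.nil PF.nil))))))) (PF.cons (PF.cons (PF.leaf (nat_lit 7802512) (nat_lit 1774174) (nat_lit 36568251) (nat_lit 13053769) [(nat_lit 0),
 (nat_lit 1774174), (nat_lit 3771948), (nat_lit 8168719)]) (PF.cons (PF.leaf (nat_lit 8135096) (nat_lit 608809) (nat_lit 36102970) (nat_lit 12957180) [(nat_lit 608809), (nat_lit 1780248), (nat_lit 3766797), (nat_lit 8126009)]) (PF.cons (PF.leaf (nat_lit 8474524) (nat_lit 615830) (nat_lit 35633206) (nat_lit 12857709) [(nat_lit 615830), (nat_lit 1784981), (nat_lit 3760080), (nat_lit 8081093)]) (PF.cons (PF.leaf (nat_lit 8818946) (nat_lit 621789) (nat_lit 35161264) (nat_lit 12755820) [(nat_lit 621789), (nat_lit 1788451), (nat_lit 3751862), (nat_lit 8034182)])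 (PF.cons PF.nil PF.nil))))) (PF.cons (PF.cons (PF.leaf (nat_lit 8527635) (nat_lit 1781117) (nat_lit 35243047) (nat_lit 12770085) [(nat_lit 0), (nat_lit 1781117), (nat_lit 3747707), (nat_lit 8038031)]) (PF.cons (PF.leaf (nat_lit 8865135) (nat_lit 619411) (nat_lit 34783073) (nat_lit 12669319) [(nat_lit 619411), (nat_lit 1784112), (nat_lit 3738867), (nat_lit 7991046)]) (PF.cons PF.nil (PF.cons PF.nil PF.nil)))) (PF.cons (PF.cons (PF.leaf (nat_lit 9248618) (nat_lit 1780958) (nat_lit 33957437) (nat_lit 12480573) [(nat_lit 0), (nat_lit 1780958), (nat_lit 3714696), (nat_lit 7898531)]) (PF.cons PF.nil PF.nil)) (PF.cons PF.nil PF.nil)))))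
 (PF.cons (PF.cons (PF.cons (PF.leaf (nat_lit 8246280) (nat_lit 3729223) (nat_lit 35164842) (nat_lit 12740852) [(nat_lit 0), (nat_lit 0), (nat_lit 3729223), (nat_lit 8015447)]) (PF.cons (PF.leaf (nat_lit 8573307) (nat_lit 607700) (nat_lit 34722022) (nat_lit 12643978) [(nat_lit 607700), (nat_lit 0), (nat_lit 3721516), (nat_lit 7970561)]) (PF.cons (PF.leaf (nat_lit 8906582) (nat_lit 613884) (nat_lit 34275508) (nat_lit 12544565) [(nat_lit 613884), (nat_lit 0), (nat_lit 3712417), (nat_lit 7923719)]) (PF.cons PF.nil PF.nil)))) (PF.cons (PF.cons (PF.leaf (nat_lit 8953797) (nat_lit 1766632) (nat_lit 33907930) (nat_lit 12458158) [(nat_lit 0), (nat_lit 1766632), (nat_lit 3698725), (nat_lit 7879914)]) (PF.cons (PF.leaf (nat_lit 9284811) (nat_lit 616357) (nat_lit 33471319) (nat_lit 12357985) [(nat_lit 616357), (nat_lit 1768087), (nat_lit 3687860), (nat_lit 7831480)]) PF.nil)) (PF.cons PF.nil PF.nil))) (PF.cons (PF.cons (PF.cons (PF.leaf (nat_lit 9361836) (nat_lit 3646334) (nat_lit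 32650581) (nat_lit 12152094) [(nat_lit 0), (nat_lit 0), (nat_lit 3646334), (nat_lit 7720797)]) (PF.cons PF.nil PF.nil)) (PF.cons PF.nil PF.nil)) (PF.cons PF.nil PF.nil)))))) (PF.cons (PF.cons (PF.cons (PF.cons
 (PF.leaf (nat_lit 6539485) (nat_lit 8181373) (nat_lit 37555786) (nat_lit 13190278) [(nat_lit 0), (nat_lit 0), (nat_lit 0), (nat_lit 8181373)]) (PF.cons (PF.leaf (nat_lit 6837241) (nat_lit 556801) (nat_lit 37141368) (nat_lit 13110373) [(nat_lit 556801), (nat_lit 0), (nat_lit 0), (nat_lit 8150134)]) (PF.cons (PF.leaf (nat_lit 7149171) (nat_lit 569812) (nat_lit 36711452) (nat_lit 13025742) [(nat_lit 569812), (nat_lit 0), (nat_lit 0), (nat_lit 8115996)]) (PF.cons (PF.leaf (nat_lit 7471856) (nat_lit 580880) (nat_lit 36270610) (nat_lit 12937147) [(nat_lit 580880), (nat_lit 0), (nat_lit 0), (nat_lit 8079207)]) (PF.cons (PF.leaf (nat_lit 7802997) (nat_lit 590352) (nat_lit 35822256) (nat_lit 12845179) [(nat_lit 590352), (nat_lit 0), (nat_lit 0), (nat_lit 8039984)]) (PF.cons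 (PF.leaf (nat_lit 8140749) (nat_lit 598481) (nat_lit 35369033) (nat_lit 12750324) [(nat_lit 598481), (nat_lit 0), (nat_lit 0), (nat_lit 7998524)]) (PF.cons (PF.leaf (nat_lit 8483625) (nat_lit 605458) (nat_lit 34913048) (nat_lit 12652995) [(nat_lit 605458), (nat_lit 0), (nat_lit 0), (nat_lit 7955010)]) (PF.cons PF.nil (PF.cons PF.nil PF.nil))))))))) (PF.cons (PF.cons (PF.leaf (nat_lit 7227036) (nat_lit 1718720) (nat_lit
 36298140) (nat_lit 12938931) [(nat_lit 0), (nat_lit 1718720), (nat_lit 0), (nat_lit 8076510)]) (PF.cons (PF.leaf (nat_lit 7540598) (nat_lit 579020) (nat_lit 35870979) (nat_lit 12851539) [(nat_lit 579020), (nat_lit 1728383), (nat_lit 0), (nat_lit 8039444)]) (PF.cons (PF.leaf (nat_lit 7864039) (nat_lit 588548) (nat_lit 35434843) (nat_lit 12760568) [(nat_lit 588548), (nat_lit 1736460), (nat_lit 0), (nat_lit 7999921)]) (PF.cons (PF.leaf (nat_lit 8194943) (nat_lit 596676) (nat_lit 34992815) (nat_lit 12666591) [(nat_lit 596676), (nat_lit 1743039), (nat_lit 0),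 (nat_lit 7958168)]) (PF.cons (PF.leaf (nat_lit 8531615) (nat_lit 603619) (nat_lit 34547270) (nat_lit 12570073) [(nat_lit 603619), (nat_lit 1748214), (nat_lit 0), (nat_lit 7914388)]) (PF.cons PF.nil (PF.cons PF.nil PF.nil))))))) (PF.cons (PF.cons (PF.leaf (nat_lit 7927461) (nat_lit 1734026) (nat_lit 35048110) (nat_lit 12674888) [(nat_lit 0), (nat_lit 1734026), (nat_lit 0), (nat_lit 7958880)]) (PF.cons (PF.leaf (nat_lit 8250620) (nat_lit 594535) (nat_lit 34618202) (nat_lit 12582080) [(nat_lit 594535), (nat_lit 1739984), (nat_lit 0), (nat_lit 7917012)]) (PF.cons (PF.leaf (nat_lit 8580619) (nat_lit 601506) (nat_lit 34183741) (nat_lit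
 12486600) [(nat_lit 601506), (nat_lit 1744618), (nat_lit 0), (nat_lit 7873111)]) (PF.cons (PF.leaf (nat_lit 8915635) (nat_lit 607419) (nat_lit 33746875) (nat_lit 12388893) [(nat_lit 607419), (nat_lit 1748011), (nat_lit 0), (nat_lit 7827381)]) (PF.cons PF.nil PF.nil))))) (PF.cons (PF.cons (PF.leaf (nat_lit 8631404) (nat_lit 1740713) (nat_lit 33821905) (nat_lit 12402477) [(nat_lit 0), (nat_lit 1740713), (nat_lit 0), (nat_lit 7831144)]) (PF.cons (PF.leaf (nat_lit 8959697) (nat_lit 605053) (nat_lit 33395941) (nat_lit 12305941) [(nat_lit 605053), (nat_lit 1743663), (nat_lit 0), (nat_lit 7785442)]) (PF.cons PF.nil (PF.cons PF.nil PF.nil)))) (PF.cons (PF.cons (PF.leaf (nat_lit 9332189) (nat_lit 1740536) (nat_lit 32629965) (nat_lit 12125253) [(nat_lit 0), (nat_lit 1740536), (nat_lit 0), (nat_lit 7695724)]) (PF.cons PF.nil PF.nil)) (PF.cons PF.nil PF.nil)))))) (PF.cons (PF.cons (PF.cons (PF.leaf (nat_lit 7670052) (nat_lit 3664672) (nat_lit 34939523) (nat_lit 12639033) [(nat_lit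 0), (nat_lit 0), (nat_lit 3664672), (nat_lit 7932791)]) (PF.cons (PF.leaf (nat_lit 7979778) (nat_lit 580186) (nat_lit 34530707) (nat_lit 12550821) [(nat_lit 580186), (nat_lit 0), (nat_lit 3660540), (nat_lit
 7893278)]) (PF.cons (PF.leaf (nat_lit 8298641) (nat_lit 588726) (nat_lit 34114056) (nat_lit 12459361) [(nat_lit 588726), (nat_lit 0), (nat_lit 3654897), (nat_lit 7851522)]) (PF.cons (PF.leaf (nat_lit 8624287) (nat_lit 595934) (nat_lit 33692443) (nat_lit 12365225) [(nat_lit 595934), (nat_lit 0), (nat_lit 3647801), (nat_lit 7807769)]) (PF.cons (PF.leaf (nat_lit 8955102) (nat_lit 602024) (nat_lit 33268059) (nat_lit 12268871) [(nat_lit 602024), (nat_lit 0), (nat_lit 3639319), (nat_lit 7762231)]) PF.nil))))) (PF.cons (PF.cons (PF.leaf (nat_lit 8356101) (nat_lit 1723982) (nat_lit 33748529) (nat_lit 12374530) [(nat_lit 0), (nat_lit 1723982), (nat_lit 3642920), (nat_lit 7809425)]) (PF.cons (PF.leaf (nat_lit 8674172) (nat_lit 593385) (nat_lit 33338658) (nat_lit 12281778) [(nat_lit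 593385), (nat_lit 1728142), (nat_lit 3635257), (nat_lit 7765794)]) (PF.cons (PF.leaf (nat_lit 8998495) (nat_lit 599549) (nat_lit 32924978) (nat_lit 12186657) [(nat_lit 599549), (nat_lit 1731104), (nat_lit 3626269), (nat_lit 7720351)]) (PF.cons PF.nil PF.nil)))) (PF.cons (PF.cons (PF.leaf (nat_lit 9043813) (nat_lit 1726364) (nat_lit 32583528) (nat_lit 12103930) [(nat_lit 0), (nat_lit 1726364), (nat_lit 3612808),
 (nat_lit 7677908)]) (PF.cons (PF.leaf (nat_lit 9366106) (nat_lit 602050) (nat_lit 32178486) (nat_lit 12008206) [(nat_lit 602050), (nat_lit 1727871), (nat_lit 3602178), (nat_lit 7631074)]) PF.nil)) (PF.cons PF.nil (PF.cons PF.nil PF.nil))))) (PF.cons (PF.cons (PF.cons (PF.leaf (nat_lit 8767875) (nat_lit 3596189) (nat_lit 32521312) (nat_lit 12078869) [(nat_lit 0), (nat_lit 0), (nat_lit 3596189), (nat_lit 7658126)]) (PF.cons (PF.leaf (nat_lit 9080649) (nat_lit 591035) (nat_lit 32130983) (nat_lit 11986776) [(nat_lit 591035), (nat_lit 0), (nat_lit 3586684), (nat_lit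 7613324)]) (PF.cons (PF.leaf (nat_lit 9399183) (nat_lit 596498) (nat_lit 31737440) (nat_lit 11892577) [(nat_lit 596498), (nat_lit 0), (nat_lit 3575996), (nat_lit 7566901)]) (PF.cons PF.nil PF.nil)))) (PF.cons (PF.cons (PF.leaf (nat_lit 9439516) (nat_lit 1709718) (nat_lit 31415299) (nat_lit 11811603) [(nat_lit 0), (nat_lit 1709718), (nat_lit 3561711), (nat_lit 7524384)]) (PF.cons PF.nil PF.nil)) (PF.cons PF.nil PF.nil))) (PF.cons (PF.cons (PF.cons (PF.leaf (nat_lit 9819533) (nat_lit 3508605) (nat_lit 30313160) (nat_lit 11526438) [(nat_lit 0), (nat_lit 0), (nat_lit 3508605), (nat_lit 7371698)]) (PF.cons PF.nil PF.nil))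
 (PF.cons PF.nil PF.nil)) (PF.cons PF.nil PF.nil))))) (PF.cons (PF.cons (PF.cons (PF.cons (PF.leaf (nat_lit 8205866) (nat_lit 7588363) (nat_lit 32349099) (nat_lit 11994624) [(nat_lit 0), (nat_lit 0), (nat_lit 0), (nat_lit 7588363)]) (PF.cons (PF.leaf (nat_lit 8503204) (nat_lit 565835) (nat_lit 31987217) (nat_lit 11910326) [(nat_lit 565835), (nat_lit 0), (nat_lit 0), (nat_lit 7548478)]) (PF.cons (PF.leaf (nat_lit 8809007) (nat_lit 573546) (nat_lit 31618536) (nat_lit 11823218) [(nat_lit 573546), (nat_lit 0), (nat_lit 0), (nat_lit 7506655)]) (PF.cons (PF.leaf (nat_lit 9121015) (nat_lit 579988) (nat_lit 31245561) (nat_lit 11733848) [(nat_lit 579988), (nat_lit 0), (nat_lit 0), (nat_lit 7463145)]) (PF.cons PF.nil PF.nil))))) (PF.cons (PF.cons (PF.leaf (nat_lit 8859360) (nat_lit 1671912) (nat_lit 31297137) (nat_lit 11743371) [(nat_lit 0), (nat_lit 1671912), (nat_lit 0), (nat_lit 7465463)]) (PF.cons (PF.leaf (nat_lit 9164164) (nat_lit 577184) (nat_lit 30934489) (nat_lit 11655516)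 [(nat_lit 577184), (nat_lit 1674713), (nat_lit 0), (nat_lit 7422302)]) (PF.cons (PF.leaf (nat_lit 9474753) (nat_lit 582680) (nat_lit 30568503) (nat_lit 11565665) [(nat_lit 582680), (nat_lit 1676433), (nat_lit 0),
 (nat_lit 7377616)]) (PF.cons PF.nil PF.nil)))) (PF.cons (PF.cons (PF.leaf (nat_lit 9513844) (nat_lit 1671196) (nat_lit 30268113) (nat_lit 11488322) [(nat_lit 0), (nat_lit 1671196), (nat_lit 0), (nat_lit 7336661)]) (PF.cons PF.nil PF.nil)) (PF.cons PF.nil (PF.cons PF.nil PF.nil))))) (PF.cons (PF.cons (PF.cons (PF.leaf (nat_lit 9244027) (nat_lit 3465348) (nat_lit 30218410) (nat_lit 11466896) [(nat_lit 0), (nat_lit 0), (nat_lit 3465348), (nat_lit 7319385)]) (PF.cons (PF.leaf (nat_lit 9543825) (nat_lit 574051) (nat_lit 29872656) (nat_lit 11380210) [(nat_lit 574051), (nat_lit 0), (nat_lit 3454839), (nat_lit 7275685)]) (PF.cons PF.nil (PF.cons PF.nil PF.nil)))) (PF.cons (PF.cons (PF.leaf (nat_lit 9883827) (nat_lit 1653460) (nat_lit 29240128) (nat_lit 11216373) [(nat_lit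 0), (nat_lit 1653460), (nat_lit 3428937), (nat_lit 7189971)]) (PF.cons PF.nil PF.nil)) (PF.cons PF.nil PF.nil))) (PF.cons (PF.cons (PF.cons (PF.leaf (nat_lit 10240091) (nat_lit 3376508) (nat_lit 28268348) (nat_lit 10952003) [(nat_lit 0), (nat_lit 0), (nat_lit 3376508), (nat_lit 7045148)]) (PF.cons PF.nil PF.nil)) (PF.cons PF.nil PF.nil)) PF.nil))) (PF.cons (PF.cons (PF.cons (PF.cons (PF.leaf (nat_lit 9682868) (nat_lit
 7001388) (nat_lit 28199666) (nat_lit 10903593) [(nat_lit 0), (nat_lit 0), (nat_lit 0), (nat_lit 7001388)]) (PF.cons (PF.leaf (nat_lit 9970818) (nat_lit 557213) (nat_lit 27891820) (nat_lit 10822436) [(nat_lit 557213), (nat_lit 0), (nat_lit 0), (nat_lit 6959335)]) (PF.cons PF.nil PF.nil))) (PF.cons (PF.cons (PF.leaf (nat_lit 10294201) (nat_lit 1598849) (nat_lit 27329750) (nat_lit 10669827) [(nat_lit 0), (nat_lit 1598849), (nat_lit 0), (nat_lit 6877596)]) PF.nil) PF.nil)) (PF.cons PF.nil PF.nil)) (PF.cons PF.nil (PF.cons PF.nil (PF.cons PF.nil PF.nil))))))))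

def p14_16_2_0 : pfC (piC [(nat_lit 35755509), (nat_lit 23968959), (nat_lit 17897616), (nat_lit 12073119)] (nat_lit 7031977)) p14_16_2 (nat_lit 4) (nat_lit 0) (nat_lit 1) = true := by decide +kernel
def p14_16_2_1 : pfC (piC [(nat_lit 35755509), (nat_lit 23968959), (nat_lit 17897616), (nat_lit 12073119)] (nat_lit 7031977)) p14_16_2 (nat_lit 4) (nat_lit 1) (nat_lit 2) = true := by decide +kernel
def p14_16_2_2 : pfC (piC [(nat_lit 35755509), (nat_lit 23968959), (nat_lit 17897616), (nat_lit 12073119)] (nat_lit 7031977)) p14_16_2 (nat_lit 4) (nat_lit 2) (nat_lit 3) = true := by decide +kernel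
def p14_16_2_3 : pfC (piC [(nat_lit 35755509), (nat_lit 23968959), (nat_lit 17897616), (nat_lit 12073119)] (nat_lit 7031977)) p14_16_2 (nat_lit 4) (nat_lit 3) (nat_lit 4) = true := by decide +kernel
def p14_16_2_4 : pfC (piC [(nat_lit 35755509), (nat_lit 23968959), (nat_lit 17897616), (nat_lit 12073119)] (nat_lit 7031977)) p14_16_2 (nat_lit 4) (nat_lit 4) (nat_lit 5) = true := by decide +kernel
def p14_16_2_5 : pfC (piC [(nat_lit 35755509), (nat_lit 23968959), (nat_lit 17897616), (nat_lit 12073119)] (nat_lit 7031977)) p14_16_2 (nat_lit 4) (nat_lit 5) (nat_lit 6) = true := by decide +kernel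
def p14_16_2_6 : pfC (piC [(nat_lit 35755509), (nat_lit 23968959), (nat_lit 17897616), (nat_lit 12073119)] (nat_lit 7031977)) p14_16_2 (nat_lit 4) (nat_lit 6) (nat_lit 7) = true := by decide +kernel
def p14_16_2_7 : pfC (piC [(nat_lit 35755509), (nat_lit 23968959), (nat_lit 17897616), (nat_lit 12073119)] (nat_lit 7031977)) p14_16_2 (nat_lit 4) (nat_lit 7) (nat_lit 8) = true := by decide +kernel
def p14_16_2_8 : pfC (piC [(nat_lit 35755509), (nat_lit 23968959), (nat_lit 17897616), (nat_lit 12073119)] (nat_lit 7031977)) p14_16_2 (nat_lit 4) (nat_lit 8) (nat_lit 9) = true := by decide +kernel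
def p14_16_2_9 : pfC (piC [(nat_lit 35755509), (nat_lit 23968959), (nat_lit 17897616), (nat_lit 12073119)] (nat_lit 7031977)) p14_16_2 (nat_lit 4) (nat_lit 9) (nat_lit 10) = true := by decide +kernel
def p14_16_2_10 : pfC (piC [(nat_lit 35755509), (nat_lit 23968959), (nat_lit 17897616), (nat_lit 12073119)] (nat_lit 7031977)) p14_16_2 (nat_lit 4) (nat_lit 10) (nat_lit 11) = true := by decide +kernel
def p14_16_2_11 : pfC (piC [(nat_lit 35755509), (nat_lit 23968959), (nat_lit 17897616), (nat_lit 12073119)] (nat_lit 7031977)) p14_16_2 (nat_lit 4) (nat_lit 11) (nat_lit 12) = true := by decide +kernel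
def p14_16_2_12 : pfC (piC [(nat_lit 35755509), (nat_lit 23968959), (nat_lit 17897616), (nat_lit 12073119)] (nat_lit 7031977)) p14_16_2 (nat_lit 4) (nat_lit 12) (nat_lit 13) = true := by decide +kernel
def p14_16_2_13 : pfC (piC [(nat_lit 35755509), (nat_lit 23968959), (nat_lit 17897616), (nat_lit 12073119)] (nat_lit 7031977)) p14_16_2 (nat_lit 4) (nat_lit 13) (nat_lit 14) = true := by decide +kernel
def p14_16_2_14 : pfC (piC [(nat_lit 35755509), (nat_lit 23968959), (nat_lit 17897616), (nat_lit 12073119)] (nat_lit 7031977)) p14_16_2 (nat_lit 4) (nat_lit 14) (nat_lit 15) = true := by decide +kernel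
def p14_16_2_15 : pfC (piC [(nat_lit 35755509), (nat_lit 23968959), (nat_lit 17897616), (nat_lit 12073119)] (nat_lit 7031977)) p14_16_2 (nat_lit 4) (nat_lit 15) (nat_lit 16) = true := by decide +kernel
def p14_16_2_16 : pfC (piC [(nat_lit 35755509), (nat_lit 23968959), (nat_lit 17897616), (nat_lit 12073119)] (nat_lit 7031977)) p14_16_2 (nat_lit 4) (nat_lit 16) (nat_lit 17) = true := by decide +kernel
def p14_16_2_17 : pfC (piC [(nat_lit 35755509), (nat_lit 23968959), (nat_lit 17897616), (nat_lit 12073119)] (nat_lit 7031977)) p14_16_2 (nat_lit 4) (nat_lit 17) (nat_lit 18) = true := by decide +kernel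
def p14_16_2_18 : pfC (piC [(nat_lit 35755509), (nat_lit 23968959), (nat_lit 17897616), (nat_lit 12073119)] (nat_lit 7031977)) p14_16_2 (nat_lit 4) (nat_lit 18) (nat_lit 19) = true := by decide +kernel
def p14_16_2_19 : pfC (piC [(nat_lit 35755509), (nat_lit 23968959), (nat_lit 17897616), (nat_lit 12073119)] (nat_lit 7031977)) p14_16_2 (nat_lit 4) (nat_lit 19) (nat_lit 20) = true := by decide +kernel
def p14_16_2_20 : pfC (piC [(nat_lit 35755509), (nat_lit 23968959), (nat_lit 17897616), (nat_lit 12073119)] (nat_lit 7031977)) p14_16_2 (nat_lit 4) (nat_lit 20) (nat_lit 21) = true := by decide +kernel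
def p14_16_2_21 : pfC (piC [(nat_lit 35755509), (nat_lit 23968959), (nat_lit 17897616), (nat_lit 12073119)] (nat_lit 7031977)) p14_16_2 (nat_lit 4) (nat_lit 21) (nat_lit 22) = true := by decide +kernel
def p14_16_2_22 : pfC (piC [(nat_lit 35755509), (nat_lit 23968959), (nat_lit 17897616), (nat_lit 12073119)] (nat_lit 7031977)) p14_16_2 (nat_lit 4) (nat_lit 22) (nat_lit 23) = true := by decide +kernel
def p14_16_2_23 : pfC (piC [(nat_lit 35755509), (nat_lit 23968959), (nat_lit 17897616), (nat_lit 12073119)] (nat_lit 7031977)) p14_16_2 (nat_lit 4) (nat_lit 23) (nat_lit 24) = true := by decide +kernel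
def p14_16_2_24 : pfC (piC [(nat_lit 35755509), (nat_lit 23968959), (nat_lit 17897616), (nat_lit 12073119)] (nat_lit 7031977)) p14_16_2 (nat_lit 4) (nat_lit 24) (nat_lit 25) = true := by decide +kernel
def p14_16_2_25 : pfC (piC [(nat_lit 35755509), (nat_lit 23968959), (nat_lit 17897616), (nat_lit 12073119)] (nat_lit 7031977)) p14_16_2 (nat_lit 4) (nat_lit 25) (nat_lit 26) = true := by decide +kernel
def p14_16_2_26 : pfC (piC [(nat_lit 35755509), (nat_lit 23968959), (nat_lit 17897616), (nat_lit 12073119)] (nat_lit 7031977)) p14_16_2 (nat_lit 4) (nat_lit 26) (nat_lit 27) = true := by decide +kernel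
def p14_16_2_27 : pfC (piC [(nat_lit 35755509), (nat_lit 23968959), (nat_lit 17897616), (nat_lit 12073119)] (nat_lit 7031977)) p14_16_2 (nat_lit 4) (nat_lit 27) (nat_lit 28) = true := by decide +kernel
def p14_16_2_28 : pfC (piC [(nat_lit 35755509), (nat_lit 23968959), (nat_lit 17897616), (nat_lit 12073119)] (nat_lit 7031977)) p14_16_2 (nat_lit 4) (nat_lit 28) (nat_lit 29) = true := by decide +kernel
def p14_16_2_29 : pfC (piC [(nat_lit 35755509), (nat_lit 23968959), (nat_lit 17897616), (nat_lit 12073119)] (nat_lit 7031977)) p14_16_2 (nat_lit 4) (nat_lit 29) (nat_lit 30) = true := by decide +kernel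
def p14_16_2_30 : pfC (piC [(nat_lit 35755509), (nat_lit 23968959), (nat_lit 17897616), (nat_lit 12073119)] (nat_lit 7031977)) p14_16_2 (nat_lit 4) (nat_lit 30) (nat_lit 31) = true := by decide +kernel
def p14_16_2_31 : pfC (piC [(nat_lit 35755509), (nat_lit 23968959), (nat_lit 17897616), (nat_lit 12073119)] (nat_lit 7031977)) p14_16_2 (nat_lit 4) (nat_lit 31) (nat_lit 32) = true := by decide +kernel
def p14_16_2_32 : pfC (piC [(nat_lit 35755509), (nat_lit 23968959), (nat_lit 17897616), (nat_lit 12073119)] (nat_lit 7031977)) p14_16_2 (nat_lit 4) (nat_lit 32) (nat_lit 33) = true := by decide +kernel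
def p14_16_2_33 : pfC (piC [(nat_lit 35755509), (nat_lit 23968959), (nat_lit 17897616), (nat_lit 12073119)] (nat_lit 7031977)) p14_16_2 (nat_lit 4) (nat_lit 33) (nat_lit 34) = true := by decide +kernel
def p14_16_2_34 : pfC (piC [(nat_lit 35755509), (nat_lit 23968959), (nat_lit 17897616), (nat_lit 12073119)] (nat_lit 7031977)) p14_16_2 (nat_lit 4) (nat_lit 34) (nat_lit 35) = true := by decide +kernel
def p14_16_2_35 : pfC (piC [(nat_lit 35755509), (nat_lit 23968959), (nat_lit 17897616), (nat_lit 12073119)] (nat_lit 7031977)) p14_16_2 (nat_lit 4) (nat_lit 35) (nat_lit 36) = true := by decide +kernel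
def p14_16_2_36 : pfC (piC [(nat_lit 35755509), (nat_lit 23968959), (nat_lit 17897616), (nat_lit 12073119)] (nat_lit 7031977)) p14_16_2 (nat_lit 4) (nat_lit 36) (nat_lit 37) = true := by decide +kernel
def p14_16_2_37 : pfC (piC [(nat_lit 35755509), (nat_lit 23968959), (nat_lit 17897616), (nat_lit 12073119)] (nat_lit 7031977)) p14_16_2 (nat_lit 4) (nat_lit 37) (nat_lit 38) = true := by decide +kernel
def p14_16_2_38 : pfC (piC [(nat_lit 35755509), (nat_lit 23968959), (nat_lit 17897616), (nat_lit 12073119)] (nat_lit 7031977)) p14_16_2 (nat_lit 4) (nat_lit 38) (nat_lit 39) = true := by decide +kernel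
def p14_16_2_39 : pfC (piC [(nat_lit 35755509), (nat_lit 23968959), (nat_lit 17897616), (nat_lit 12073119)] (nat_lit 7031977)) p14_16_2 (nat_lit 4) (nat_lit 39) (nat_lit 40) = true := by decide +kernel
def p14_16_2_40 : pfC (piC [(nat_lit 35755509), (nat_lit 23968959), (nat_lit 17897616), (nat_lit 12073119)] (nat_lit 7031977)) p14_16_2 (nat_lit 4) (nat_lit 40) (nat_lit 41) = true := by decide +kernel
def p14_16_2_41 : pfC (piC [(nat_lit 35755509), (nat_lit 23968959), (nat_lit 17897616), (nat_lit 12073119)] (nat_lit 7031977)) p14_16_2 (nat_lit 4) (nat_lit 41) (nat_lit 42) = true := by decide +kernel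
def p14_16_2_42 : pfC (piC [(nat_lit 35755509), (nat_lit 23968959), (nat_lit 17897616), (nat_lit 12073119)] (nat_lit 7031977)) p14_16_2 (nat_lit 4) (nat_lit 42) (nat_lit 43) = true := by decide +kernel
def p14_16_2_43 : pfC (piC [(nat_lit 35755509), (nat_lit 23968959), (nat_lit 17897616), (nat_lit 12073119)] (nat_lit 7031977)) p14_16_2 (nat_lit 4) (nat_lit 43) (nat_lit 44) = true := by decide +kernel
def p14_16_2_44 : pfC (piC [(nat_lit 35755509), (nat_lit 23968959), (nat_lit 17897616), (nat_lit 12073119)] (nat_lit 7031977)) p14_16_2 (nat_lit 4) (nat_lit 44) (nat_lit 45) = true := by decide +kernel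
def p14_16_2_45 : pfC (piC [(nat_lit 35755509), (nat_lit 23968959), (nat_lit 17897616), (nat_lit 12073119)] (nat_lit 7031977)) p14_16_2 (nat_lit 4) (nat_lit 45) (nat_lit 46) = true := by decide +kernel
def p14_16_2_46 : pfC (piC [(nat_lit 35755509), (nat_lit 23968959), (nat_lit 17897616), (nat_lit 12073119)] (nat_lit 7031977)) p14_16_2 (nat_lit 4) (nat_lit 46) (nat_lit 47) = true := by decide +kernel
def p14_16_2_47 : pfC (piC [(nat_lit 35755509), (nat_lit 23968959), (nat_lit 17897616), (nat_lit 12073119)] (nat_lit 7031977)) p14_16_2 (nat_lit 4) (nat_lit 47) (nat_lit 48) = true := by decide +kernel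
def p14_16_2_48 : pfC (piC [(nat_lit 35755509), (nat_lit 23968959), (nat_lit 17897616), (nat_lit 12073119)] (nat_lit 7031977)) p14_16_2 (nat_lit 4) (nat_lit 48) (nat_lit 49) = true := by decide +kernel
def p14_16_2_49 : pfC (piC [(nat_lit 35755509), (nat_lit 23968959), (nat_lit 17897616), (nat_lit 12073119)] (nat_lit 7031977)) p14_16_2 (nat_lit 4) (nat_lit 49) (nat_lit 50) = true := by decide +kernel
def p14_16_2_50 : pfC (piC [(nat_lit 35755509), (nat_lit 23968959), (nat_lit 17897616), (nat_lit 12073119)] (nat_lit 7031977)) p14_16_2 (nat_lit 4) (nat_lit 50) (nat_lit 51) = true := by decide +kernel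
def p14_16_2_51 : pfC (piC [(nat_lit 35755509), (nat_lit 23968959), (nat_lit 17897616), (nat_lit 12073119)] (nat_lit 7031977)) p14_16_2 (nat_lit 4) (nat_lit 51) (nat_lit 52) = true := by decide +kernel
def p14_16_2_52 : pfC (piC [(nat_lit 35755509), (nat_lit 23968959), (nat_lit 17897616), (nat_lit 12073119)] (nat_lit 7031977)) p14_16_2 (nat_lit 4) (nat_lit 52) (nat_lit 53) = true := by decide +kernel
def p14_16_2_53 : pfC (piC [(nat_lit 35755509), (nat_lit 23968959), (nat_lit 17897616), (nat_lit 12073119)] (nat_lit 7031977)) p14_16_2 (nat_lit 4) (nat_lit 53) (nat_lit 54) = true := by decide +kernel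
def p14_16_2_54 : pfC (piC [(nat_lit 35755509), (nat_lit 23968959), (nat_lit 17897616), (nat_lit 12073119)] (nat_lit 7031977)) p14_16_2 (nat_lit 4) (nat_lit 54) (nat_lit 55) = true := by decide +kernel
def p14_16_2_55 : pfC (piC [(nat_lit 35755509), (nat_lit 23968959), (nat_lit 17897616), (nat_lit 12073119)] (nat_lit 7031977)) p14_16_2 (nat_lit 4) (nat_lit 55) (nat_lit 56) = true := by decide +kernel
def p14_16_2_56 : pfC (piC [(nat_lit 35755509), (nat_lit 23968959), (nat_lit 17897616), (nat_lit 12073119)] (nat_lit 7031977)) p14_16_2 (nat_lit 4) (nat_lit 56) (nat_lit 57) = true := by decide +kernel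
def p14_16_2_57 : pfC (piC [(nat_lit 35755509), (nat_lit 23968959), (nat_lit 17897616), (nat_lit 12073119)] (nat_lit 7031977)) p14_16_2 (nat_lit 4) (nat_lit 57) (nat_lit 58) = true := by decide +kernel
def p14_16_2_58 : pfC (piC [(nat_lit 35755509), (nat_lit 23968959), (nat_lit 17897616), (nat_lit 12073119)] (nat_lit 7031977)) p14_16_2 (nat_lit 4) (nat_lit 58) (nat_lit 59) = true := by decide +kernel
def p14_16_2_59 : pfC (piC [(nat_lit 35755509), (nat_lit 23968959), (nat_lit 17897616), (nat_lit 12073119)] (nat_lit 7031977)) p14_16_2 (nat_lit 4) (nat_lit 59) (nat_lit 60) = true := by decide +kernel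
def p14_16_2_60 : pfC (piC [(nat_lit 35755509), (nat_lit 23968959), (nat_lit 17897616), (nat_lit 12073119)] (nat_lit 7031977)) p14_16_2 (nat_lit 4) (nat_lit 60) (nat_lit 61) = true := by decide +kernel
def p14_16_2_61 : pfC (piC [(nat_lit 35755509), (nat_lit 23968959), (nat_lit 17897616), (nat_lit 12073119)] (nat_lit 7031977)) p14_16_2 (nat_lit 4) (nat_lit 61) (nat_lit 62) = true := by decide +kernel
def p14_16_2_62 : pfC (piC [(nat_lit 35755509), (nat_lit 23968959), (nat_lit 17897616), (nat_lit 12073119)] (nat_lit 7031977)) p14_16_2 (nat_lit 4) (nat_lit 62) (nat_lit 63) = true := by decide +kernel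
def p14_16_2_63 : pfC (piC [(nat_lit 35755509), (nat_lit 23968959), (nat_lit 17897616), (nat_lit 12073119)] (nat_lit 7031977)) p14_16_2 (nat_lit 4) (nat_lit 63) (nat_lit 64) = true := by decide +kernel
def p14_16_2_64 : pfC (piC [(nat_lit 35755509), (nat_lit 23968959), (nat_lit 17897616), (nat_lit 12073119)] (nat_lit 7031977)) p14_16_2 (nat_lit 4) (nat_lit 64) (nat_lit 65) = true := by decide +kernel
def p14_16_2_65 : pfC (piC [(nat_lit 35755509), (nat_lit 23968959), (nat_lit 17897616), (nat_lit 12073119)] (nat_lit 7031977)) p14_16_2 (nat_lit 4) (nat_lit 65) (nat_lit 66) = true := by decide +kernel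
def p14_16_2_66 : pfC (piC [(nat_lit 35755509), (nat_lit 23968959), (nat_lit 17897616), (nat_lit 12073119)] (nat_lit 7031977)) p14_16_2 (nat_lit 4) (nat_lit 66) (nat_lit 67) = true := by decide +kernel
def p14_16_2_67 : pfC (piC [(nat_lit 35755509), (nat_lit 23968959), (nat_lit 17897616), (nat_lit 12073119)] (nat_lit 7031977)) p14_16_2 (nat_lit 4) (nat_lit 67) (nat_lit 68) = true := by decide +kernel
def p14_16_2_68 : pfC (piC [(nat_lit 35755509), (nat_lit 23968959), (nat_lit 17897616), (nat_lit 12073119)] (nat_lit 7031977)) p14_16_2 (nat_lit 4) (nat_lit 68) (nat_lit 69) = true := by decide +kernel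
def p14_16_2_69 : pfC (piC [(nat_lit 35755509), (nat_lit 23968959), (nat_lit 17897616), (nat_lit 12073119)] (nat_lit 7031977)) p14_16_2 (nat_lit 4) (nat_lit 69) (nat_lit 70) = true := by decide +kernel
def p14_16_2_70 : pfC (piC [(nat_lit 35755509), (nat_lit 23968959), (nat_lit 17897616), (nat_lit 12073119)] (nat_lit 7031977)) p14_16_2 (nat_lit 4) (nat_lit 70) (nat_lit 71) = true := by decide +kernel
def p14_16_2_71 : pfC (piC [(nat_lit 35755509), (nat_lit 23968959), (nat_lit 17897616), (nat_lit 12073119)] (nat_lit 7031977)) p14_16_2 (nat_lit 4) (nat_lit 71) (nat_lit 72) = true := by decide +kernel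
def p14_16_2_72 : pfC (piC [(nat_lit 35755509), (nat_lit 23968959), (nat_lit 17897616), (nat_lit 12073119)] (nat_lit 7031977)) p14_16_2 (nat_lit 4) (nat_lit 72) (nat_lit 73) = true := by decide +kernel
def p14_16_2_73 : pfC (piC [(nat_lit 35755509), (nat_lit 23968959), (nat_lit 17897616), (nat_lit 12073119)] (nat_lit 7031977)) p14_16_2 (nat_lit 4) (nat_lit 73) (nat_lit 74) = true := by decide +kernel
def p14_16_2_74 : pfC (piC [(nat_lit 35755509), (nat_lit 23968959), (nat_lit 17897616), (nat_lit 12073119)] (nat_lit 7031977)) p14_16_2 (nat_lit 4) (nat_lit 74) (nat_lit 75) = true := by decide +kernel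
def p14_16_2_75 : pfC (piC [(nat_lit 35755509), (nat_lit 23968959), (nat_lit 17897616), (nat_lit 12073119)] (nat_lit 7031977)) p14_16_2 (nat_lit 4) (nat_lit 75) (nat_lit 76) = true := by decide +kernel
def p14_16_2_76 : pfC (piC [(nat_lit 35755509), (nat_lit 23968959), (nat_lit 17897616), (nat_lit 12073119)] (nat_lit 7031977)) p14_16_2 (nat_lit 4) (nat_lit 76) (nat_lit 77) = true := by decide +kernel
def p14_16_2_77 : pfC (piC [(nat_lit 35755509), (nat_lit 23968959), (nat_lit 17897616), (nat_lit 12073119)] (nat_lit 7031977)) p14_16_2 (nat_lit 4) (nat_lit 77) (nat_lit 78) = true := by decide +kernel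
def p14_16_2_78 : pfC (piC [(nat_lit 35755509), (nat_lit 23968959), (nat_lit 17897616), (nat_lit 12073119)] (nat_lit 7031977)) p14_16_2 (nat_lit 4) (nat_lit 78) (nat_lit 79) = true := by decide +kernel
def p14_16_2_79 : pfC (piC [(nat_lit 35755509), (nat_lit 23968959), (nat_lit 17897616), (nat_lit 12073119)] (nat_lit 7031977)) p14_16_2 (nat_lit 4) (nat_lit 79) (nat_lit 80) = true := by decide +kernel
def p14_16_2_80 : pfC (piC [(nat_lit 35755509), (nat_lit 23968959), (nat_lit 17897616), (nat_lit 12073119)] (nat_lit 7031977)) p14_16_2 (nat_lit 4) (nat_lit 80) (nat_lit 81) = true := by decide +kernel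
def p14_16_2_81 : pfC (piC [(nat_lit 35755509), (nat_lit 23968959), (nat_lit 17897616), (nat_lit 12073119)] (nat_lit 7031977)) p14_16_2 (nat_lit 4) (nat_lit 81) (nat_lit 82) = true := by decide +kernel
def p14_16_2_82 : pfC (piC [(nat_lit 35755509), (nat_lit 23968959), (nat_lit 17897616), (nat_lit 12073119)] (nat_lit 7031977)) p14_16_2 (nat_lit 4) (nat_lit 82) (nat_lit 83) = true := by decide +kernel
def p14_16_2_83 : pfC (piC [(nat_lit 35755509), (nat_lit 23968959), (nat_lit 17897616), (nat_lit 12073119)] (nat_lit 7031977)) p14_16_2 (nat_lit 4) (nat_lit 83) (nat_lit 84) = true := by decide +kernel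
def p14_16_2_84 : pfC (piC [(nat_lit 35755509), (nat_lit 23968959), (nat_lit 17897616), (nat_lit 12073119)] (nat_lit 7031977)) p14_16_2 (nat_lit 4) (nat_lit 84) (nat_lit 85) = true := by decide +kernel
def p14_16_2_85 : pfC (piC [(nat_lit 35755509), (nat_lit 23968959), (nat_lit 17897616), (nat_lit 12073119)] (nat_lit 7031977)) p14_16_2 (nat_lit 4) (nat_lit 85) (nat_lit 86) = true := by decide +kernel
def p14_16_2_86 : pfC (piC [(nat_lit 35755509), (nat_lit 23968959), (nat_lit 17897616), (nat_lit 12073119)] (nat_lit 7031977)) p14_16_2 (nat_lit 4) (nat_lit 86) (nat_lit 87) = true := by decide +kernel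
def p14_16_2_87 : pfC (piC [(nat_lit 35755509), (nat_lit 23968959), (nat_lit 17897616), (nat_lit 12073119)] (nat_lit 7031977)) p14_16_2 (nat_lit 4) (nat_lit 87) (nat_lit 88) = true := by decide +kernel
def p14_16_2_88 : pfC (piC [(nat_lit 35755509), (nat_lit 23968959), (nat_lit 17897616), (nat_lit 12073119)] (nat_lit 7031977)) p14_16_2 (nat_lit 4) (nat_lit 88) (nat_lit 89) = true := by decide +kernel
def p14_16_2_89 : pfC (piC [(nat_lit 35755509), (nat_lit 23968959), (nat_lit 17897616), (nat_lit 12073119)] (nat_lit 7031977)) p14_16_2 (nat_lit 4) (nat_lit 89) (nat_lit 90) = true := by decide +kernel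
def p14_16_2_90 : pfC (piC [(nat_lit 35755509), (nat_lit 23968959), (nat_lit 17897616), (nat_lit 12073119)] (nat_lit 7031977)) p14_16_2 (nat_lit 4) (nat_lit 90) (nat_lit 91) = true := by decide +kernel
def p14_16_2_91 : pfC (piC [(nat_lit 35755509), (nat_lit 23968959), (nat_lit 17897616), (nat_lit 12073119)] (nat_lit 7031977)) p14_16_2 (nat_lit 4) (nat_lit 91) (nat_lit 92) = true := by decide +kernel
def p14_16_2_92 : pfC (piC [(nat_lit 35755509), (nat_lit 23968959), (nat_lit 17897616), (nat_lit 12073119)] (nat_lit 7031977)) p14_16_2 (nat_lit 4) (nat_lit 92) (nat_lit 93) = true := by decide +kernel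
def p14_16_2_93 : pfC (piC [(nat_lit 35755509), (nat_lit 23968959), (nat_lit 17897616), (nat_lit 12073119)] (nat_lit 7031977)) p14_16_2 (nat_lit 4) (nat_lit 93) (nat_lit 94) = true := by decide +kernel
def p14_16_2_94 : pfC (piC [(nat_lit 35755509), (nat_lit 23968959), (nat_lit 17897616), (nat_lit 12073119)] (nat_lit 7031977)) p14_16_2 (nat_lit 4) (nat_lit 94) (nat_lit 95) = true := by decide +kernel
def p14_16_2_95 : pfC (piC [(nat_lit 35755509), (nat_lit 23968959), (nat_lit 17897616), (nat_lit 12073119)] (nat_lit 7031977)) p14_16_2 (nat_lit 4) (nat_lit 95) (nat_lit 96) = true := by decide +kernel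
def p14_16_2_96 : pfC (piC [(nat_lit 35755509), (nat_lit 23968959), (nat_lit 17897616), (nat_lit 12073119)] (nat_lit 7031977)) p14_16_2 (nat_lit 4) (nat_lit 96) (nat_lit 97) = true := by decide +kernel
def p14_16_2_97 : pfC (piC [(nat_lit 35755509), (nat_lit 23968959), (nat_lit 17897616), (nat_lit 12073119)] (nat_lit 7031977)) p14_16_2 (nat_lit 4) (nat_lit 97) (nat_lit 98) = true := by decide +kernel
def p14_16_2_98 : pfC (piC [(nat_lit 35755509), (nat_lit 23968959), (nat_lit 17897616), (nat_lit 12073119)] (nat_lit 7031977)) p14_16_2 (nat_lit 4) (nat_lit 98) (nat_lit 99) = true := by decide +kernel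
def p14_16_2_99 : pfC (piC [(nat_lit 35755509), (nat_lit 23968959), (nat_lit 17897616), (nat_lit 12073119)] (nat_lit 7031977)) p14_16_2 (nat_lit 4) (nat_lit 99) (nat_lit 100) = true := by decide +kernel
def p14_16_2_100 : pfC (piC [(nat_lit 35755509), (nat_lit 23968959), (nat_lit 17897616), (nat_lit 12073119)] (nat_lit 7031977)) p14_16_2 (nat_lit 4) (nat_lit 100) (nat_lit 101) = true := by decide +kernel
def p14_16_2_101 : pfC (piC [(nat_lit 35755509), (nat_lit 23968959), (nat_lit 17897616), (nat_lit 12073119)] (nat_lit 7031977)) p14_16_2 (nat_lit 4) (nat_lit 101) (nat_lit 102) = true := by decide +kernel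
def p14_16_2_102 : pfC (piC [(nat_lit 35755509), (nat_lit 23968959), (nat_lit 17897616), (nat_lit 12073119)] (nat_lit 7031977)) p14_16_2 (nat_lit 4) (nat_lit 102) (nat_lit 103) = true := by decide +kernel
def p14_16_2_103 : pfC (piC [(nat_lit 35755509), (nat_lit 23968959), (nat_lit 17897616), (nat_lit 12073119)] (nat_lit 7031977)) p14_16_2 (nat_lit 4) (nat_lit 103) (nat_lit 104) = true := by decide +kernel
def p14_16_2_104 : pfC (piC [(nat_lit 35755509), (nat_lit 23968959), (nat_lit 17897616), (nat_lit 12073119)] (nat_lit 7031977)) p14_16_2 (nat_lit 4) (nat_lit 104) (nat_lit 105) = true := by decide +kernel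
def p14_16_2_105 : pfC (piC [(nat_lit 35755509), (nat_lit 23968959), (nat_lit 17897616), (nat_lit 12073119)] (nat_lit 7031977)) p14_16_2 (nat_lit 4) (nat_lit 105) (nat_lit 106) = true := by decide +kernel
def p14_16_2_106 : pfC (piC [(nat_lit 35755509), (nat_lit 23968959), (nat_lit 17897616), (nat_lit 12073119)] (nat_lit 7031977)) p14_16_2 (nat_lit 4) (nat_lit 106) (nat_lit 107) = true := by decide +kernel
def p14_16_2_107 : pfC (piC [(nat_lit 35755509), (nat_lit 23968959), (nat_lit 17897616), (nat_lit 12073119)] (nat_lit 7031977)) p14_16_2 (nat_lit 4) (nat_lit 107) (nat_lit 108) = true := by decide +kernel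
def p14_16_2_108 : pfC (piC [(nat_lit 35755509), (nat_lit 23968959), (nat_lit 17897616), (nat_lit 12073119)] (nat_lit 7031977)) p14_16_2 (nat_lit 4) (nat_lit 108) (nat_lit 109) = true := by decide +kernel
def p14_16_2_109 : pfC (piC [(nat_lit 35755509), (nat_lit 23968959), (nat_lit 17897616), (nat_lit 12073119)] (nat_lit 7031977)) p14_16_2 (nat_lit 4) (nat_lit 109) (nat_lit 110) = true := by decide +kernel
def p14_16_2_110 : pfC (piC [(nat_lit 35755509), (nat_lit 23968959), (nat_lit 17897616), (nat_lit 12073119)] (nat_lit 7031977)) p14_16_2 (nat_lit 4) (nat_lit 110) (nat_lit 111) = true := by decide +kernel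
def p14_16_2_111 : pfC (piC [(nat_lit 35755509), (nat_lit 23968959), (nat_lit 17897616), (nat_lit 12073119)] (nat_lit 7031977)) p14_16_2 (nat_lit 4) (nat_lit 111) (nat_lit 112) = true := by decide +kernel
def p14_16_2_112 : pfC (piC [(nat_lit 35755509), (nat_lit 23968959), (nat_lit 17897616), (nat_lit 12073119)] (nat_lit 7031977)) p14_16_2 (nat_lit 4) (nat_lit 112) (nat_lit 113) = true := by decide +kernel
def p14_16_2_113 : pfC (piC [(nat_lit 35755509), (nat_lit 23968959), (nat_lit 17897616), (nat_lit 12073119)] (nat_lit 7031977)) p14_16_2 (nat_lit 4) (nat_lit 113) (nat_lit 114) = true := by decide +kernel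
def p14_16_2_114 : pfC (piC [(nat_lit 35755509), (nat_lit 23968959), (nat_lit 17897616), (nat_lit 12073119)] (nat_lit 7031977)) p14_16_2 (nat_lit 4) (nat_lit 114) (nat_lit 115) = true := by decide +kernel
def p14_16_2_115 : pfC (piC [(nat_lit 35755509), (nat_lit 23968959), (nat_lit 17897616), (nat_lit 12073119)] (nat_lit 7031977)) p14_16_2 (nat_lit 4) (nat_lit 115) (nat_lit 116) = true := by decide +kernel
def p14_16_2_116 : pfC (piC [(nat_lit 35755509), (nat_lit 23968959), (nat_lit 17897616), (nat_lit 12073119)] (nat_lit 7031977)) p14_16_2 (nat_lit 4) (nat_lit 116) (nat_lit 117) = true := by decide +kernel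
def p14_16_2_117 : pfC (piC [(nat_lit 35755509), (nat_lit 23968959), (nat_lit 17897616), (nat_lit 12073119)] (nat_lit 7031977)) p14_16_2 (nat_lit 4) (nat_lit 117) (nat_lit 118) = true := by decide +kernel
def p14_16_2_118 : pfC (piC [(nat_lit 35755509), (nat_lit 23968959), (nat_lit 17897616), (nat_lit 12073119)] (nat_lit 7031977)) p14_16_2 (nat_lit 4) (nat_lit 118) (nat_lit 119) = true := by decide +kernel
def p14_16_2_119 : pfC (piC [(nat_lit 35755509), (nat_lit 23968959), (nat_lit 17897616), (nat_lit 12073119)] (nat_lit 7031977)) p14_16_2 (nat_lit 4) (nat_lit 119) (nat_lit 120) = true := by decide +kernel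
def p14_16_2_120 : pfC (piC [(nat_lit 35755509), (nat_lit 23968959), (nat_lit 17897616), (nat_lit 12073119)] (nat_lit 7031977)) p14_16_2 (nat_lit 4) (nat_lit 120) (nat_lit 121) = true := by decide +kernel
def p14_16_2_121 : pfC (piC [(nat_lit 35755509), (nat_lit 23968959), (nat_lit 17897616), (nat_lit 12073119)] (nat_lit 7031977)) p14_16_2 (nat_lit 4) (nat_lit 121) (nat_lit 122) = true := by decide +kernel
def p14_16_2_122 : pfC (piC [(nat_lit 35755509), (nat_lit 23968959), (nat_lit 17897616), (nat_lit 12073119)] (nat_lit 7031977)) p14_16_2 (nat_lit 4) (nat_lit 122) (nat_lit 123) = true := by decide +kernel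
def p14_16_2_123 : pfC (piC [(nat_lit 35755509), (nat_lit 23968959), (nat_lit 17897616), (nat_lit 12073119)] (nat_lit 7031977)) p14_16_2 (nat_lit 4) (nat_lit 123) (nat_lit 124) = true := by decide +kernel
def p14_16_2_124 : pfC (piC [(nat_lit 35755509), (nat_lit 23968959), (nat_lit 17897616), (nat_lit 12073119)] (nat_lit 7031977)) p14_16_2 (nat_lit 4) (nat_lit 124) (nat_lit 125) = true := by decide +kernel
def p14_16_2_125 : pfC (piC [(nat_lit 35755509), (nat_lit 23968959), (nat_lit 17897616), (nat_lit 12073119)] (nat_lit 7031977)) p14_16_2 (nat_lit 4) (nat_lit 125) (nat_lit 126) = true := by decide +kernel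
def p14_16_2_126 : pfC (piC [(nat_lit 35755509), (nat_lit 23968959), (nat_lit 17897616), (nat_lit 12073119)] (nat_lit 7031977)) p14_16_2 (nat_lit 4) (nat_lit 126) (nat_lit 127) = true := by decide +kernel
def p14_16_2_127 : pfC (piC [(nat_lit 35755509), (nat_lit 23968959), (nat_lit 17897616), (nat_lit 12073119)] (nat_lit 7031977)) p14_16_2 (nat_lit 4) (nat_lit 127) (nat_lit 128) = true := by decide +kernel
def p14_16_2_128 : pfC (piC [(nat_lit 35755509), (nat_lit 23968959), (nat_lit 17897616), (nat_lit 12073119)] (nat_lit 7031977)) p14_16_2 (nat_lit 4) (nat_lit 128) (nat_lit 129) = true := by decide +kernel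
def p14_16_2_129 : pfC (piC [(nat_lit 35755509), (nat_lit 23968959), (nat_lit 17897616), (nat_lit 12073119)] (nat_lit 7031977)) p14_16_2 (nat_lit 4) (nat_lit 129) (nat_lit 130) = true := by decide +kernel
def p14_16_2_130 : pfC (piC [(nat_lit 35755509), (nat_lit 23968959), (nat_lit 17897616), (nat_lit 12073119)] (nat_lit 7031977)) p14_16_2 (nat_lit 4) (nat_lit 130) (nat_lit 131) = true := by decide +kernel
def p14_16_2_131 : pfC (piC [(nat_lit 35755509), (nat_lit 23968959), (nat_lit 17897616), (nat_lit 12073119)] (nat_lit 7031977)) p14_16_2 (nat_lit 4) (nat_lit 131) (nat_lit 132) = true := by decide +kernel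
def p14_16_2_132 : pfC (piC [(nat_lit 35755509), (nat_lit 23968959), (nat_lit 17897616), (nat_lit 12073119)] (nat_lit 7031977)) p14_16_2 (nat_lit 4) (nat_lit 132) (nat_lit 133) = true := by decide +kernel
def p14_16_2_133 : pfC (piC [(nat_lit 35755509), (nat_lit 23968959), (nat_lit 17897616), (nat_lit 12073119)] (nat_lit 7031977)) p14_16_2 (nat_lit 4) (nat_lit 133) (nat_lit 134) = true := by decide +kernel
def p14_16_2_134 : pfC (piC [(nat_lit 35755509), (nat_lit 23968959), (nat_lit 17897616), (nat_lit 12073119)] (nat_lit 7031977)) p14_16_2 (nat_lit 4) (nat_lit 134) (nat_lit 135) = true := by decide +kernel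
def p14_16_2_135 : pfC (piC [(nat_lit 35755509), (nat_lit 23968959), (nat_lit 17897616), (nat_lit 12073119)] (nat_lit 7031977)) p14_16_2 (nat_lit 4) (nat_lit 135) (nat_lit 136) = true := by decide +kernel
def p14_16_2_136 : pfC (piC [(nat_lit 35755509), (nat_lit 23968959), (nat_lit 17897616), (nat_lit 12073119)] (nat_lit 7031977)) p14_16_2 (nat_lit 4) (nat_lit 136) (nat_lit 137) = true := by decide +kernel
def p14_16_2_137 : pfC (piC [(nat_lit 35755509), (nat_lit 23968959), (nat_lit 17897616), (nat_lit 12073119)] (nat_lit 7031977)) p14_16_2 (nat_lit 4) (nat_lit 137) (nat_lit 138) = true := by decide +kernel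
def p14_16_2_138 : pfC (piC [(nat_lit 35755509), (nat_lit 23968959), (nat_lit 17897616), (nat_lit 12073119)] (nat_lit 7031977)) p14_16_2 (nat_lit 4) (nat_lit 138) (nat_lit 139) = true := by decide +kernel
def p14_16_2_139 : pfC (piC [(nat_lit 35755509), (nat_lit 23968959), (nat_lit 17897616), (nat_lit 12073119)] (nat_lit 7031977)) p14_16_2 (nat_lit 4) (nat_lit 139) (nat_lit 140) = true := by decide +kernel
def p14_16_2_140 : pfC (piC [(nat_lit 35755509), (nat_lit 23968959), (nat_lit 17897616), (nat_lit 12073119)] (nat_lit 7031977)) p14_16_2 (nat_lit 4) (nat_lit 140) (nat_lit 141) = true := by decide +kernel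
def p14_16_2_141 : pfC (piC [(nat_lit 35755509), (nat_lit 23968959), (nat_lit 17897616), (nat_lit 12073119)] (nat_lit 7031977)) p14_16_2 (nat_lit 4) (nat_lit 141) (nat_lit 142) = true := by decide +kernel
def p14_16_2_142 : pfC (piC [(nat_lit 35755509), (nat_lit 23968959), (nat_lit 17897616), (nat_lit 12073119)] (nat_lit 7031977)) p14_16_2 (nat_lit 4) (nat_lit 142) (nat_lit 143) = true := by decide +kernel
def p14_16_2_143 : pfC (piC [(nat_lit 35755509), (nat_lit 23968959), (nat_lit 17897616), (nat_lit 12073119)] (nat_lit 7031977)) p14_16_2 (nat_lit 4) (nat_lit 143) (nat_lit 144) = true := by decide +kernel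
def p14_16_2_144 : pfC (piC [(nat_lit 35755509), (nat_lit 23968959), (nat_lit 17897616), (nat_lit 12073119)] (nat_lit 7031977)) p14_16_2 (nat_lit 4) (nat_lit 144) (nat_lit 145) = true := by decide +kernel
def p14_16_2_145 : pfC (piC [(nat_lit 35755509), (nat_lit 23968959), (nat_lit 17897616), (nat_lit 12073119)] (nat_lit 7031977)) p14_16_2 (nat_lit 4) (nat_lit 145) (nat_lit 146) = true := by decide +kernel
def p14_16_2_146 : pfC (piC [(nat_lit 35755509), (nat_lit 23968959), (nat_lit 17897616), (nat_lit 12073119)] (nat_lit 7031977)) p14_16_2 (nat_lit 4) (nat_lit 146) (nat_lit 147) = true := by decide +kernel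
def p14_16_2_147 : pfC (piC [(nat_lit 35755509), (nat_lit 23968959), (nat_lit 17897616), (nat_lit 12073119)] (nat_lit 7031977)) p14_16_2 (nat_lit 4) (nat_lit 147) (nat_lit 148) = true := by decide +kernel
def p14_16_2_148 : pfC (piC [(nat_lit 35755509), (nat_lit 23968959), (nat_lit 17897616), (nat_lit 12073119)] (nat_lit 7031977)) p14_16_2 (nat_lit 4) (nat_lit 148) (nat_lit 149) = true := by decide +kernel
def p14_16_2_149 : pfC (piC [(nat_lit 35755509), (nat_lit 23968959), (nat_lit 17897616), (nat_lit 12073119)] (nat_lit 7031977)) p14_16_2 (nat_lit 4) (nat_lit 149) (nat_lit 150) = true := by decide +kernel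
def p14_16_2_150 : pfC (piC [(nat_lit 35755509), (nat_lit 23968959), (nat_lit 17897616), (nat_lit 12073119)] (nat_lit 7031977)) p14_16_2 (nat_lit 4) (nat_lit 150) (nat_lit 151) = true := by decide +kernel
def p14_16_2_151 : pfC (piC [(nat_lit 35755509), (nat_lit 23968959), (nat_lit 17897616), (nat_lit 12073119)] (nat_lit 7031977)) p14_16_2 (nat_lit 4) (nat_lit 151) (nat_lit 152) = true := by decide +kernel
def p14_16_2_152 : pfC (piC [(nat_lit 35755509), (nat_lit 23968959), (nat_lit 17897616), (nat_lit 12073119)] (nat_lit 7031977)) p14_16_2 (nat_lit 4) (nat_lit 152) (nat_lit 153) = true := by decide +kernel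
def p14_16_2_153 : pfC (piC [(nat_lit 35755509), (nat_lit 23968959), (nat_lit 17897616), (nat_lit 12073119)] (nat_lit 7031977)) p14_16_2 (nat_lit 4) (nat_lit 153) (nat_lit 154) = true := by decide +kernel
def p14_16_2_154 : pfC (piC [(nat_lit 35755509), (nat_lit 23968959), (nat_lit 17897616), (nat_lit 12073119)] (nat_lit 7031977)) p14_16_2 (nat_lit 4) (nat_lit 154) (nat_lit 155) = true := by decide +kernel
def p14_16_2_155 : pfC (piC [(nat_lit 35755509), (nat_lit 23968959), (nat_lit 17897616), (nat_lit 12073119)] (nat_lit 7031977)) p14_16_2 (nat_lit 4) (nat_lit 155) (nat_lit 156) = true := by decide +kernel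
def p14_16_2_156 : pfC (piC [(nat_lit 35755509), (nat_lit 23968959), (nat_lit 17897616), (nat_lit 12073119)] (nat_lit 7031977)) p14_16_2 (nat_lit 4) (nat_lit 156) (nat_lit 157) = true := by decide +kernel
def p14_16_2_157 : pfC (piC [(nat_lit 35755509), (nat_lit 23968959), (nat_lit 17897616), (nat_lit 12073119)] (nat_lit 7031977)) p14_16_2 (nat_lit 4) (nat_lit 157) (nat_lit 158) = true := by decide +kernel
def p14_16_2_158 : pfC (piC [(nat_lit 35755509), (nat_lit 23968959), (nat_lit 17897616), (nat_lit 12073119)] (nat_lit 7031977)) p14_16_2 (nat_lit 4) (nat_lit 158) (nat_lit 159) = true := by decide +kernel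
def p14_16_2_159 : pfC (piC [(nat_lit 35755509), (nat_lit 23968959), (nat_lit 17897616), (nat_lit 12073119)] (nat_lit 7031977)) p14_16_2 (nat_lit 4) (nat_lit 159) (nat_lit 160) = true := by decide +kernel
def p14_16_2_160 : pfC (piC [(nat_lit 35755509), (nat_lit 23968959), (nat_lit 17897616), (nat_lit 12073119)] (nat_lit 7031977)) p14_16_2 (nat_lit 4) (nat_lit 160) (nat_lit 161) = true := by decide +kernel
def p14_16_2_161 : pfC (piC [(nat_lit 35755509), (nat_lit 23968959), (nat_lit 17897616), (nat_lit 12073119)] (nat_lit 7031977)) p14_16_2 (nat_lit 4) (nat_lit 161) (nat_lit 162) = true := by decide +kernel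
def p14_16_2_162 : pfC (piC [(nat_lit 35755509), (nat_lit 23968959), (nat_lit 17897616), (nat_lit 12073119)] (nat_lit 7031977)) p14_16_2 (nat_lit 4) (nat_lit 162) (nat_lit 163) = true := by decide +kernel
def p14_16_2_163 : pfC (piC [(nat_lit 35755509), (nat_lit 23968959), (nat_lit 17897616), (nat_lit 12073119)] (nat_lit 7031977)) p14_16_2 (nat_lit 4) (nat_lit 163) (nat_lit 164) = true := by decide +kernel
def p14_16_2_164 : pfC (piC [(nat_lit 35755509), (nat_lit 23968959), (nat_lit 17897616), (nat_lit 12073119)] (nat_lit 7031977)) p14_16_2 (nat_lit 4) (nat_lit 164) (nat_lit 165) = true := by decide +kernel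
def p14_16_2_165 : pfC (piC [(nat_lit 35755509), (nat_lit 23968959), (nat_lit 17897616), (nat_lit 12073119)] (nat_lit 7031977)) p14_16_2 (nat_lit 4) (nat_lit 165) (nat_lit 166) = true := by decide +kernel
def p14_16_2_166 : pfC (piC [(nat_lit 35755509), (nat_lit 23968959), (nat_lit 17897616), (nat_lit 12073119)] (nat_lit 7031977)) p14_16_2 (nat_lit 4) (nat_lit 166) (nat_lit 167) = true := by decide +kernel
def p14_16_2_167 : pfC (piC [(nat_lit 35755509), (nat_lit 23968959), (nat_lit 17897616), (nat_lit 12073119)] (nat_lit 7031977)) p14_16_2 (nat_lit 4) (nat_lit 167) (nat_lit 168) = true := by decide +kernel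
def p14_16_2_168 : pfC (piC [(nat_lit 35755509), (nat_lit 23968959), (nat_lit 17897616), (nat_lit 12073119)] (nat_lit 7031977)) p14_16_2 (nat_lit 4) (nat_lit 168) (nat_lit 169) = true := by decide +kernel
def p14_16_2_169 : pfC (piC [(nat_lit 35755509), (nat_lit 23968959), (nat_lit 17897616), (nat_lit 12073119)] (nat_lit 7031977)) p14_16_2 (nat_lit 4) (nat_lit 169) (nat_lit 170) = true := by decide +kernel
def p14_16_2_170 : pfC (piC [(nat_lit 35755509), (nat_lit 23968959), (nat_lit 17897616), (nat_lit 12073119)] (nat_lit 7031977)) p14_16_2 (nat_lit 4) (nat_lit 170) (nat_lit 171) = true := by decide +kernel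
def p14_16_2_171 : pfC (piC [(nat_lit 35755509), (nat_lit 23968959), (nat_lit 17897616), (nat_lit 12073119)] (nat_lit 7031977)) p14_16_2 (nat_lit 4) (nat_lit 171) (nat_lit 172) = true := by decide +kernel
def p14_16_2_172 : pfC (piC [(nat_lit 35755509), (nat_lit 23968959), (nat_lit 17897616), (nat_lit 12073119)] (nat_lit 7031977)) p14_16_2 (nat_lit 4) (nat_lit 172) (nat_lit 173) = true := by decide +kernel
def p14_16_2_173 : pfC (piC [(nat_lit 35755509), (nat_lit 23968959), (nat_lit 17897616), (nat_lit 12073119)] (nat_lit 7031977)) p14_16_2 (nat_lit 4) (nat_lit 173) (nat_lit 174) = true := by decide +kernel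
def p14_16_2_174 : pfC (piC [(nat_lit 35755509), (nat_lit 23968959), (nat_lit 17897616), (nat_lit 12073119)] (nat_lit 7031977)) p14_16_2 (nat_lit 4) (nat_lit 174) (nat_lit 175) = true := by decide +kernel
def p14_16_2_175 : pfC (piC [(nat_lit 35755509), (nat_lit 23968959), (nat_lit 17897616), (nat_lit 12073119)] (nat_lit 7031977)) p14_16_2 (nat_lit 4) (nat_lit 175) (nat_lit 176) = true := by decide +kernel
def p14_16_2_176 : pfC (piC [(nat_lit 35755509), (nat_lit 23968959), (nat_lit 17897616), (nat_lit 12073119)] (nat_lit 7031977)) p14_16_2 (nat_lit 4) (nat_lit 176) (nat_lit 177) = true := by decide +kernel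
def p14_16_2_177 : pfC (piC [(nat_lit 35755509), (nat_lit 23968959), (nat_lit 17897616), (nat_lit 12073119)] (nat_lit 7031977)) p14_16_2 (nat_lit 4) (nat_lit 177) (nat_lit 178) = true := by decide +kernel
def p14_16_2_178 : pfC (piC [(nat_lit 35755509), (nat_lit 23968959), (nat_lit 17897616), (nat_lit 12073119)] (nat_lit 7031977)) p14_16_2 (nat_lit 4) (nat_lit 178) (nat_lit 179) = true := by decide +kernel
def p14_16_2_179 : pfC (piC [(nat_lit 35755509), (nat_lit 23968959), (nat_lit 17897616), (nat_lit 12073119)] (nat_lit 7031977)) p14_16_2 (nat_lit 4) (nat_lit 179) (nat_lit 180) = true := by decide +kernel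
def p14_16_2_180 : pfC (piC [(nat_lit 35755509), (nat_lit 23968959), (nat_lit 17897616), (nat_lit 12073119)] (nat_lit 7031977)) p14_16_2 (nat_lit 4) (nat_lit 180) (nat_lit 181) = true := by decide +kernel
def p14_16_2_181 : pfC (piC [(nat_lit 35755509), (nat_lit 23968959), (nat_lit 17897616), (nat_lit 12073119)] (nat_lit 7031977)) p14_16_2 (nat_lit 4) (nat_lit 181) (nat_lit 182) = true := by decide +kernel
def p14_16_2_182 : pfC (piC [(nat_lit 35755509), (nat_lit 23968959), (nat_lit 17897616), (nat_lit 12073119)] (nat_lit 7031977)) p14_16_2 (nat_lit 4) (nat_lit 182) (nat_lit 183) = true := by decide +kernel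
def p14_16_2_183 : pfC (piC [(nat_lit 35755509), (nat_lit 23968959), (nat_lit 17897616), (nat_lit 12073119)] (nat_lit 7031977)) p14_16_2 (nat_lit 4) (nat_lit 183) (nat_lit 184) = true := by decide +kernel
def p14_16_2_184 : pfC (piC [(nat_lit 35755509), (nat_lit 23968959), (nat_lit 17897616), (nat_lit 12073119)] (nat_lit 7031977)) p14_16_2 (nat_lit 4) (nat_lit 184) (nat_lit 185) = true := by decide +kernel
def p14_16_2_185 : pfC (piC [(nat_lit 35755509), (nat_lit 23968959), (nat_lit 17897616), (nat_lit 12073119)] (nat_lit 7031977)) p14_16_2 (nat_lit 4) (nat_lit 185) (nat_lit 186) = true := by decide +kernel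
def p14_16_2_186 : pfC (piC [(nat_lit 35755509), (nat_lit 23968959), (nat_lit 17897616), (nat_lit 12073119)] (nat_lit 7031977)) p14_16_2 (nat_lit 4) (nat_lit 186) (nat_lit 187) = true := by decide +kernel
def p14_16_2_187 : pfC (piC [(nat_lit 35755509), (nat_lit 23968959), (nat_lit 17897616), (nat_lit 12073119)] (nat_lit 7031977)) p14_16_2 (nat_lit 4) (nat_lit 187) (nat_lit 188) = true := by decide +kernel
def p14_16_2_188 : pfC (piC [(nat_lit 35755509), (nat_lit 23968959), (nat_lit 17897616), (nat_lit 12073119)] (nat_lit 7031977)) p14_16_2 (nat_lit 4) (nat_lit 188) (nat_lit 189) = true := by decide +kernel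
def p14_16_2_189 : pfC (piC [(nat_lit 35755509), (nat_lit 23968959), (nat_lit 17897616), (nat_lit 12073119)] (nat_lit 7031977)) p14_16_2 (nat_lit 4) (nat_lit 189) (nat_lit 190) = true := by decide +kernel
def p14_16_2_190 : pfC (piC [(nat_lit 35755509), (nat_lit 23968959), (nat_lit 17897616), (nat_lit 12073119)] (nat_lit 7031977)) p14_16_2 (nat_lit 4) (nat_lit 190) (nat_lit 191) = true := by decide +kernel
def p14_16_2_191 : pfC (piC [(nat_lit 35755509), (nat_lit 23968959), (nat_lit 17897616), (nat_lit 12073119)] (nat_lit 7031977)) p14_16_2 (nat_lit 4) (nat_lit 191) (nat_lit 192) = true := by decide +kernel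
def p14_16_2_192 : pfC (piC [(nat_lit 35755509), (nat_lit 23968959), (nat_lit 17897616), (nat_lit 12073119)] (nat_lit 7031977)) p14_16_2 (nat_lit 4) (nat_lit 192) (nat_lit 193) = true := by decide +kernel
def p14_16_2_193 : pfC (piC [(nat_lit 35755509), (nat_lit 23968959), (nat_lit 17897616), (nat_lit 12073119)] (nat_lit 7031977)) p14_16_2 (nat_lit 4) (nat_lit 193) (nat_lit 194) = true := by decide +kernel
def p14_16_2_194 : pfC (piC [(nat_lit 35755509), (nat_lit 23968959), (nat_lit 17897616), (nat_lit 12073119)] (nat_lit 7031977)) p14_16_2 (nat_lit 4) (nat_lit 194) (nat_lit 195) = true := by decide +kernel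
def p14_16_2_195 : pfC (piC [(nat_lit 35755509), (nat_lit 23968959), (nat_lit 17897616), (nat_lit 12073119)] (nat_lit 7031977)) p14_16_2 (nat_lit 4) (nat_lit 195) (nat_lit 196) = true := by decide +kernel
def p14_16_2_196 : pfC (piC [(nat_lit 35755509), (nat_lit 23968959), (nat_lit 17897616), (nat_lit 12073119)] (nat_lit 7031977)) p14_16_2 (nat_lit 4) (nat_lit 196) (nat_lit 197) = true := by decide +kernel
def p14_16_2_197 : pfC (piC [(nat_lit 35755509), (nat_lit 23968959), (nat_lit 17897616), (nat_lit 12073119)] (nat_lit 7031977)) p14_16_2 (nat_lit 4) (nat_lit 197) (nat_lit 198) = true := by decide +kernel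
def p14_16_2_198 : pfC (piC [(nat_lit 35755509), (nat_lit 23968959), (nat_lit 17897616), (nat_lit 12073119)] (nat_lit 7031977)) p14_16_2 (nat_lit 4) (nat_lit 198) (nat_lit 199) = true := by decide +kernel
def p14_16_2_199 : pfC (piC [(nat_lit 35755509), (nat_lit 23968959), (nat_lit 17897616), (nat_lit 12073119)] (nat_lit 7031977)) p14_16_2 (nat_lit 4) (nat_lit 199) (nat_lit 200) = true := by decide +kernel
def p14_16_2_200 : pfC (piC [(nat_lit 35755509), (nat_lit 23968959), (nat_lit 17897616), (nat_lit 12073119)] (nat_lit 7031977)) p14_16_2 (nat_lit 4) (nat_lit 200) (nat_lit 201) = true := by decide +kernel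
def p14_16_2_201 : pfC (piC [(nat_lit 35755509), (nat_lit 23968959), (nat_lit 17897616), (nat_lit 12073119)] (nat_lit 7031977)) p14_16_2 (nat_lit 4) (nat_lit 201) (nat_lit 202) = true := by decide +kernel
def p14_16_2_202 : pfC (piC [(nat_lit 35755509), (nat_lit 23968959), (nat_lit 17897616), (nat_lit 12073119)] (nat_lit 7031977)) p14_16_2 (nat_lit 4) (nat_lit 202) (nat_lit 203) = true := by decide +kernel
def p14_16_2_203 : pfC (piC [(nat_lit 35755509), (nat_lit 23968959), (nat_lit 17897616), (nat_lit 12073119)] (nat_lit 7031977)) p14_16_2 (nat_lit 4) (nat_lit 203) (nat_lit 204) = true := by decide +kernel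
def p14_16_2_204 : pfC (piC [(nat_lit 35755509), (nat_lit 23968959), (nat_lit 17897616), (nat_lit 12073119)] (nat_lit 7031977)) p14_16_2 (nat_lit 4) (nat_lit 204) (nat_lit 205) = true := by decide +kernel
def p14_16_2_205 : pfC (piC [(nat_lit 35755509), (nat_lit 23968959), (nat_lit 17897616), (nat_lit 12073119)] (nat_lit 7031977)) p14_16_2 (nat_lit 4) (nat_lit 205) (nat_lit 206) = true := by decide +kernel
def p14_16_2_206 : pfC (piC [(nat_lit 35755509), (nat_lit 23968959), (nat_lit 17897616), (nat_lit 12073119)] (nat_lit 7031977)) p14_16_2 (nat_lit 4) (nat_lit 206) (nat_lit 207) = true := by decide +kernel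
def p14_16_2_207 : pfC (piC [(nat_lit 35755509), (nat_lit 23968959), (nat_lit 17897616), (nat_lit 12073119)] (nat_lit 7031977)) p14_16_2 (nat_lit 4) (nat_lit 207) (nat_lit 208) = true := by decide +kernel
def p14_16_2_208 : pfC (piC [(nat_lit 35755509), (nat_lit 23968959), (nat_lit 17897616), (nat_lit 12073119)] (nat_lit 7031977)) p14_16_2 (nat_lit 4) (nat_lit 208) (nat_lit 209) = true := by decide +kernel
def p14_16_2_209 : pfC (piC [(nat_lit 35755509), (nat_lit 23968959), (nat_lit 17897616), (nat_lit 12073119)] (nat_lit 7031977)) p14_16_2 (nat_lit 4) (nat_lit 209) (nat_lit 210) = true := by decide +kernel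
def p14_16_2_210 : pfC (piC [(nat_lit 35755509), (nat_lit 23968959), (nat_lit 17897616), (nat_lit 12073119)] (nat_lit 7031977)) p14_16_2 (nat_lit 4) (nat_lit 210) (nat_lit 211) = true := by decide +kernel
def p14_16_2_211 : pfC (piC [(nat_lit 35755509), (nat_lit 23968959), (nat_lit 17897616), (nat_lit 12073119)] (nat_lit 7031977)) p14_16_2 (nat_lit 4) (nat_lit 211) (nat_lit 212) = true := by decide +kernel
def p14_16_2_212 : pfC (piC [(nat_lit 35755509), (nat_lit 23968959), (nat_lit 17897616), (nat_lit 12073119)] (nat_lit 7031977)) p14_16_2 (nat_lit 4) (nat_lit 212) (nat_lit 213) = true := by decide +kernel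
def p14_16_2_213 : pfC (piC [(nat_lit 35755509), (nat_lit 23968959), (nat_lit 17897616), (nat_lit 12073119)] (nat_lit 7031977)) p14_16_2 (nat_lit 4) (nat_lit 213) (nat_lit 214) = true := by decide +kernel
def p14_16_2_214 : pfC (piC [(nat_lit 35755509), (nat_lit 23968959), (nat_lit 17897616), (nat_lit 12073119)] (nat_lit 7031977)) p14_16_2 (nat_lit 4) (nat_lit 214) (nat_lit 215) = true := by decide +kernel
def p14_16_2_215 : pfC (piC [(nat_lit 35755509), (nat_lit 23968959), (nat_lit 17897616), (nat_lit 12073119)] (nat_lit 7031977)) p14_16_2 (nat_lit 4) (nat_lit 215) (nat_lit 216) = true := by decide +kernel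
def p14_16_2_216 : pfC (piC [(nat_lit 35755509), (nat_lit 23968959), (nat_lit 17897616), (nat_lit 12073119)] (nat_lit 7031977)) p14_16_2 (nat_lit 4) (nat_lit 216) (nat_lit 217) = true := by decide +kernel
def p14_16_2_217 : pfC (piC [(nat_lit 35755509), (nat_lit 23968959), (nat_lit 17897616), (nat_lit 12073119)] (nat_lit 7031977)) p14_16_2 (nat_lit 4) (nat_lit 217) (nat_lit 218) = true := by decide +kernel
def p14_16_2_218 : pfC (piC [(nat_lit 35755509), (nat_lit 23968959), (nat_lit 17897616), (nat_lit 12073119)] (nat_lit 7031977)) p14_16_2 (nat_lit 4) (nat_lit 218) (nat_lit 219) = true := by decide +kernel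
def p14_16_2_219 : pfC (piC [(nat_lit 35755509), (nat_lit 23968959), (nat_lit 17897616), (nat_lit 12073119)] (nat_lit 7031977)) p14_16_2 (nat_lit 4) (nat_lit 219) (nat_lit 220) = true := by decide +kernel
def p14_16_2_220 : pfC (piC [(nat_lit 35755509), (nat_lit 23968959), (nat_lit 17897616), (nat_lit 12073119)] (nat_lit 7031977)) p14_16_2 (nat_lit 4) (nat_lit 220) (nat_lit 221) = true := by decide +kernel
def p14_16_2_221 : pfC (piC [(nat_lit 35755509), (nat_lit 23968959), (nat_lit 17897616), (nat_lit 12073119)] (nat_lit 7031977)) p14_16_2 (nat_lit 4) (nat_lit 221) (nat_lit 222) = true := by decide +kernel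
def p14_16_2_222 : pfC (piC [(nat_lit 35755509), (nat_lit 23968959), (nat_lit 17897616), (nat_lit 12073119)] (nat_lit 7031977)) p14_16_2 (nat_lit 4) (nat_lit 222) (nat_lit 223) = true := by decide +kernel
def p14_16_2_223 : pfC (piC [(nat_lit 35755509), (nat_lit 23968959), (nat_lit 17897616), (nat_lit 12073119)] (nat_lit 7031977)) p14_16_2 (nat_lit 4) (nat_lit 223) (nat_lit 224) = true := by decide +kernel
def p14_16_2_224 : pfC (piC [(nat_lit 35755509), (nat_lit 23968959), (nat_lit 17897616), (nat_lit 12073119)] (nat_lit 7031977)) p14_16_2 (nat_lit 4) (nat_lit 224) (nat_lit 225) = true := by decide +kernel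
def p14_16_2_225 : pfC (piC [(nat_lit 35755509), (nat_lit 23968959), (nat_lit 17897616), (nat_lit 12073119)] (nat_lit 7031977)) p14_16_2 (nat_lit 4) (nat_lit 225) (nat_lit 226) = true := by decide +kernel
def p14_16_2_226 : pfC (piC [(nat_lit 35755509), (nat_lit 23968959), (nat_lit 17897616), (nat_lit 12073119)] (nat_lit 7031977)) p14_16_2 (nat_lit 4) (nat_lit 226) (nat_lit 227) = true := by decide +kernel
def p14_16_2_227 : pfC (piC [(nat_lit 35755509), (nat_lit 23968959), (nat_lit 17897616), (nat_lit 12073119)] (nat_lit 7031977)) p14_16_2 (nat_lit 4) (nat_lit 227) (nat_lit 228) = true := by decide +kernel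
def p14_16_2_228 : pfC (piC [(nat_lit 35755509), (nat_lit 23968959), (nat_lit 17897616), (nat_lit 12073119)] (nat_lit 7031977)) p14_16_2 (nat_lit 4) (nat_lit 228) (nat_lit 229) = true := by decide +kernel
def p14_16_2_229 : pfC (piC [(nat_lit 35755509), (nat_lit 23968959), (nat_lit 17897616), (nat_lit 12073119)] (nat_lit 7031977)) p14_16_2 (nat_lit 4) (nat_lit 229) (nat_lit 230) = true := by decide +kernel
def p14_16_2_230 : pfC (piC [(nat_lit 35755509), (nat_lit 23968959), (nat_lit 17897616), (nat_lit 12073119)] (nat_lit 7031977)) p14_16_2 (nat_lit 4) (nat_lit 230) (nat_lit 231) = true := by decide +kernel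
def p14_16_2_231 : pfC (piC [(nat_lit 35755509), (nat_lit 23968959), (nat_lit 17897616), (nat_lit 12073119)] (nat_lit 7031977)) p14_16_2 (nat_lit 4) (nat_lit 231) (nat_lit 232) = true := by decide +kernel
def p14_16_2_232 : pfC (piC [(nat_lit 35755509), (nat_lit 23968959), (nat_lit 17897616), (nat_lit 12073119)] (nat_lit 7031977)) p14_16_2 (nat_lit 4) (nat_lit 232) (nat_lit 233) = true := by decide +kernel
def p14_16_2_233 : pfC (piC [(nat_lit 35755509), (nat_lit 23968959), (nat_lit 17897616), (nat_lit 12073119)] (nat_lit 7031977)) p14_16_2 (nat_lit 4) (nat_lit 233) (nat_lit 234) = true := by decide +kernel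
def p14_16_2_234 : pfC (piC [(nat_lit 35755509), (nat_lit 23968959), (nat_lit 17897616), (nat_lit 12073119)] (nat_lit 7031977)) p14_16_2 (nat_lit 4) (nat_lit 234) (nat_lit 235) = true := by decide +kernel
def p14_16_2_235 : pfC (piC [(nat_lit 35755509), (nat_lit 23968959), (nat_lit 17897616), (nat_lit 12073119)] (nat_lit 7031977)) p14_16_2 (nat_lit 4) (nat_lit 235) (nat_lit 236) = true := by decide +kernel
def p14_16_2_236 : pfC (piC [(nat_lit 35755509), (nat_lit 23968959), (nat_lit 17897616), (nat_lit 12073119)] (nat_lit 7031977)) p14_16_2 (nat_lit 4) (nat_lit 236) (nat_lit 237) = true := by decide +kernel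
def p14_16_2_237 : pfC (piC [(nat_lit 35755509), (nat_lit 23968959), (nat_lit 17897616), (nat_lit 12073119)] (nat_lit 7031977)) p14_16_2 (nat_lit 4) (nat_lit 237) (nat_lit 238) = true := by decide +kernel
def p14_16_2_238 : pfC (piC [(nat_lit 35755509), (nat_lit 23968959), (nat_lit 17897616), (nat_lit 12073119)] (nat_lit 7031977)) p14_16_2 (nat_lit 4) (nat_lit 238) (nat_lit 239) = true := by decide +kernel
def p14_16_2_239 : pfC (piC [(nat_lit 35755509), (nat_lit 23968959), (nat_lit 17897616), (nat_lit 12073119)] (nat_lit 7031977)) p14_16_2 (nat_lit 4) (nat_lit 239) (nat_lit 240) = true := by decide +kernel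
def p14_16_2_240 : pfC (piC [(nat_lit 35755509), (nat_lit 23968959), (nat_lit 17897616), (nat_lit 12073119)] (nat_lit 7031977)) p14_16_2 (nat_lit 4) (nat_lit 240) (nat_lit 241) = true := by decide +kernel
def p14_16_2_241 : pfC (piC [(nat_lit 35755509), (nat_lit 23968959), (nat_lit 17897616), (nat_lit 12073119)] (nat_lit 7031977)) p14_16_2 (nat_lit 4) (nat_lit 241) (nat_lit 242) = true := by decide +kernel
def p14_16_2_242 : pfC (piC [(nat_lit 35755509), (nat_lit 23968959), (nat_lit 17897616), (nat_lit 12073119)] (nat_lit 7031977)) p14_16_2 (nat_lit 4) (nat_lit 242) (nat_lit 243) = true := by decide +kernel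
def p14_16_2_243 : pfC (piC [(nat_lit 35755509), (nat_lit 23968959), (nat_lit 17897616), (nat_lit 12073119)] (nat_lit 7031977)) p14_16_2 (nat_lit 4) (nat_lit 243) (nat_lit 244) = true := by decide +kernel
def p14_16_2_244 : pfC (piC [(nat_lit 35755509), (nat_lit 23968959), (nat_lit 17897616), (nat_lit 12073119)] (nat_lit 7031977)) p14_16_2 (nat_lit 4) (nat_lit 244) (nat_lit 245) = true := by decide +kernel
theorem p14_16_2_T : PfS (PiF n14_16.reverse (nat_lit 7031977)) p14_16_2 (nat_lit 4) [] 0 :=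
  pftab_of (los := [(nat_lit 35755509), (nat_lit 23968959), (nat_lit 17897616), (nat_lit 12073119)]) (by decide +kernel) (hi := (nat_lit 245)) (PfP.trans (PfP.trans (PfP.trans (PfP.trans (PfP.trans (PfP.trans (PfP.trans (PfP.trans (PfP.trans (PfP.trans (PfP.trans (PfP.trans (PfP.trans (PfP.trans (PfP.trans (PfP.trans (PfP.trans (PfP.trans (PfP.trans (PfP.trans (PfP.trans (PfP.trans (PfP.trans (PfP.trans (PfP.trans (PfP.trans (PfP.trans (PfP.trans (PfP.trans (PfP.trans (PfP.trans (PfP.trans (PfP.trans (PfP.trans (PfP.trans (PfP.trans (PfP.trans (PfP.trans (PfP.trans (PfP.trans (PfP.trans (PfP.trans (PfP.trans (PfP.trans (PfP.trans (PfP.trans (PfP.trans (PfP.trans (PfP.trans (PfP.trans (PfP.trans (PfP.trans (PfP.trans (PfP.trans (PfP.trans (PfP.trans (PfP.trans (PfP.trans (PfP.trans (PfP.trans (PfP.trans (PfP.trans (PfP.trans (PfP.trans (PfP.trans (PfP.trans (PfP.trans (PfP.trans (PfP.trans (PfP.trans (PfP.trans (PfP.trans (PfP.trans (PfP.trans (PfP.trans (PfP.trans (PfP.trans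 (PfP.trans (PfP.trans (PfP.trans (PfP.trans (PfP.trans (PfP.trans (PfP.trans (PfP.trans (PfP.trans (PfP.trans (PfP.trans (PfP.trans (PfP.trans (PfP.trans (PfP.trans (PfP.trans (PfP.trans (PfP.trans (PfP.trans (PfP.trans (PfP.trans (PfP.trans (PfP.trans (PfP.trans (PfP.trans (PfP.trans (PfP.trans (PfP.trans (PfP.trans (PfP.trans (PfP.trans (PfP.trans
 (PfP.trans (PfP.trans (PfP.trans (PfP.trans (PfP.trans (PfP.trans (PfP.trans (PfP.trans (PfP.trans (PfP.trans (PfP.trans (PfP.trans (PfP.trans (PfP.trans (PfP.trans (PfP.trans (PfP.trans (PfP.trans (PfP.trans (PfP.trans (PfP.trans (PfP.trans (PfP.trans (PfP.trans (PfP.trans (PfP.trans (PfP.trans (PfP.trans (PfP.trans (PfP.trans (PfP.trans (PfP.trans (PfP.trans (PfP.trans (PfP.trans (PfP.trans (PfP.trans (PfP.trans (PfP.trans (PfP.trans (PfP.trans (PfP.trans (PfP.trans (PfP.trans (PfP.trans (PfP.trans (PfP.trans (PfP.trans (PfP.trans (PfP.trans (PfP.trans (PfP.trans (PfP.trans (PfP.trans (PfP.trans (PfP.trans (PfP.trans (PfP.trans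 (PfP.trans (PfP.trans (PfP.trans (PfP.trans (PfP.trans (PfP.trans (PfP.trans (PfP.trans (PfP.trans (PfP.trans (PfP.trans (PfP.trans (PfP.trans (PfP.trans (PfP.trans (PfP.trans (PfP.trans (PfP.trans (PfP.trans (PfP.trans (PfP.trans (PfP.trans (PfP.trans (PfP.trans (PfP.trans (PfP.trans (PfP.trans (PfP.trans (PfP.trans (PfP.trans (PfP.trans (PfP.trans (PfP.trans (PfP.trans (PfP.trans (PfP.trans (PfP.trans (PfP.trans (PfP.trans (PfP.trans (PfP.trans (PfP.trans (PfP.trans (PfP.trans (PfP.trans (PfP.trans (PfP.trans (PfP.trans (PfP.trans (PfP.trans (PfP.trans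
 (PfP.trans (PfP.trans (PfP.trans (PfP.trans (PfP.trans (PfP.trans (PfP.trans (PfP.trans (PfP.trans (PfP.trans (PfP.trans (PfP.trans (PfP.trans (PfP.trans (PfP.trans (PfP.trans (PfP.trans (PfP.trans (PfP.trans (PfP.trans (PfP.trans (PfP.trans (PfP.trans (PfP.trans (PfP.trans (PfP.trans (pfC_sound p14_16_2_0) (pfC_sound p14_16_2_1)) (pfC_sound p14_16_2_2)) (pfC_sound p14_16_2_3)) (pfC_sound p14_16_2_4)) (pfC_sound p14_16_2_5)) (pfC_sound p14_16_2_6)) (pfC_sound p14_16_2_7)) (pfC_sound p14_16_2_8)) (pfC_sound p14_16_2_9)) (pfC_sound p14_16_2_10)) (pfC_sound p14_16_2_11)) (pfC_sound p14_16_2_12)) (pfC_sound p14_16_2_13)) (pfC_sound p14_16_2_14)) (pfC_sound p14_16_2_15)) (pfC_sound p14_16_2_16)) (pfC_sound p14_16_2_17)) (pfC_sound p14_16_2_18)) (pfC_sound p14_16_2_19)) (pfC_sound p14_16_2_20)) (pfC_sound p14_16_2_21)) (pfC_sound p14_16_2_22)) (pfC_sound p14_16_2_23)) (pfC_sound p14_16_2_24)) (pfC_sound p14_16_2_25)) (pfC_sound p14_16_2_26)) (pfC_sound p14_16_2_27)) (pfC_sound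 p14_16_2_28)) (pfC_sound p14_16_2_29)) (pfC_sound p14_16_2_30)) (pfC_sound p14_16_2_31)) (pfC_sound p14_16_2_32)) (pfC_sound p14_16_2_33)) (pfC_sound p14_16_2_34)) (pfC_sound p14_16_2_35)) (pfC_sound p14_16_2_36))
 (pfC_sound p14_16_2_37)) (pfC_sound p14_16_2_38)) (pfC_sound p14_16_2_39)) (pfC_sound p14_16_2_40)) (pfC_sound p14_16_2_41)) (pfC_sound p14_16_2_42)) (pfC_sound p14_16_2_43)) (pfC_sound p14_16_2_44)) (pfC_sound p14_16_2_45)) (pfC_sound p14_16_2_46)) (pfC_sound p14_16_2_47)) (pfC_sound p14_16_2_48)) (pfC_sound p14_16_2_49)) (pfC_sound p14_16_2_50)) (pfC_sound p14_16_2_51)) (pfC_sound p14_16_2_52)) (pfC_sound p14_16_2_53)) (pfC_sound p14_16_2_54)) (pfC_sound p14_16_2_55)) (pfC_sound p14_16_2_56)) (pfC_sound p14_16_2_57)) (pfC_sound p14_16_2_58)) (pfC_sound p14_16_2_59)) (pfC_sound p14_16_2_60)) (pfC_sound p14_16_2_61)) (pfC_sound p14_16_2_62)) (pfC_sound p14_16_2_63)) (pfC_sound p14_16_2_64)) (pfC_sound p14_16_2_65)) (pfC_sound p14_16_2_66)) (pfC_sound p14_16_2_67))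 (pfC_sound p14_16_2_68)) (pfC_sound p14_16_2_69)) (pfC_sound p14_16_2_70)) (pfC_sound p14_16_2_71)) (pfC_sound p14_16_2_72)) (pfC_sound p14_16_2_73)) (pfC_sound p14_16_2_74)) (pfC_sound p14_16_2_75)) (pfC_sound p14_16_2_76)) (pfC_sound p14_16_2_77)) (pfC_sound p14_16_2_78)) (pfC_sound p14_16_2_79)) (pfC_sound p14_16_2_80)) (pfC_sound p14_16_2_81)) (pfC_sound p14_16_2_82)) (pfC_sound p14_16_2_83)) (pfC_sound p14_16_2_84))
 (pfC_sound p14_16_2_85)) (pfC_sound p14_16_2_86)) (pfC_sound p14_16_2_87)) (pfC_sound p14_16_2_88)) (pfC_sound p14_16_2_89)) (pfC_sound p14_16_2_90)) (pfC_sound p14_16_2_91)) (pfC_sound p14_16_2_92)) (pfC_sound p14_16_2_93)) (pfC_sound p14_16_2_94)) (pfC_sound p14_16_2_95)) (pfC_sound p14_16_2_96)) (pfC_sound p14_16_2_97)) (pfC_sound p14_16_2_98)) (pfC_sound p14_16_2_99)) (pfC_sound p14_16_2_100)) (pfC_sound p14_16_2_101)) (pfC_sound p14_16_2_102)) (pfC_sound p14_16_2_103)) (pfC_sound p14_16_2_104)) (pfC_sound p14_16_2_105)) (pfC_sound p14_16_2_106))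 (pfC_sound p14_16_2_107)) (pfC_sound p14_16_2_108)) (pfC_sound p14_16_2_109)) (pfC_sound p14_16_2_110)) (pfC_sound p14_16_2_111)) (pfC_sound p14_16_2_112)) (pfC_sound p14_16_2_113)) (pfC_sound p14_16_2_114)) (pfC_sound p14_16_2_115)) (pfC_sound p14_16_2_116)) (pfC_sound p14_16_2_117)) (pfC_sound p14_16_2_118)) (pfC_sound p14_16_2_119)) (pfC_sound p14_16_2_120)) (pfC_sound p14_16_2_121)) (pfC_sound p14_16_2_122)) (pfC_sound p14_16_2_123)) (pfC_sound p14_16_2_124)) (pfC_sound p14_16_2_125)) (pfC_sound p14_16_2_126)) (pfC_sound p14_16_2_127)) (pfC_sound p14_16_2_128)) (pfC_sound p14_16_2_129)) (pfC_sound p14_16_2_130)) (pfC_sound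
 p14_16_2_131)) (pfC_sound p14_16_2_132)) (pfC_sound p14_16_2_133)) (pfC_sound p14_16_2_134)) (pfC_sound p14_16_2_135)) (pfC_sound p14_16_2_136)) (pfC_sound p14_16_2_137)) (pfC_sound p14_16_2_138)) (pfC_sound p14_16_2_139)) (pfC_sound p14_16_2_140)) (pfC_sound p14_16_2_141)) (pfC_sound p14_16_2_142)) (pfC_sound p14_16_2_143)) (pfC_sound p14_16_2_144)) (pfC_sound p14_16_2_145)) (pfC_sound p14_16_2_146)) (pfC_sound p14_16_2_147)) (pfC_sound p14_16_2_148)) (pfC_sound p14_16_2_149)) (pfC_sound p14_16_2_150)) (pfC_sound p14_16_2_151)) (pfC_sound p14_16_2_152)) (pfC_sound p14_16_2_153)) (pfC_sound p14_16_2_154)) (pfC_sound p14_16_2_155)) (pfC_sound p14_16_2_156)) (pfC_sound p14_16_2_157)) (pfC_sound p14_16_2_158)) (pfC_sound p14_16_2_159)) (pfC_sound p14_16_2_160)) (pfC_sound p14_16_2_161)) (pfC_sound p14_16_2_162)) (pfC_sound p14_16_2_163)) (pfC_sound p14_16_2_164)) (pfC_sound p14_16_2_165)) (pfC_sound p14_16_2_166)) (pfC_sound p14_16_2_167)) (pfC_sound p14_16_2_168)) (pfC_sound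 p14_16_2_169)) (pfC_sound p14_16_2_170)) (pfC_sound p14_16_2_171)) (pfC_sound p14_16_2_172)) (pfC_sound p14_16_2_173)) (pfC_sound p14_16_2_174)) (pfC_sound p14_16_2_175)) (pfC_sound p14_16_2_176)) (pfC_sound
 p14_16_2_177)) (pfC_sound p14_16_2_178)) (pfC_sound p14_16_2_179)) (pfC_sound p14_16_2_180)) (pfC_sound p14_16_2_181)) (pfC_sound p14_16_2_182)) (pfC_sound p14_16_2_183)) (pfC_sound p14_16_2_184)) (pfC_sound p14_16_2_185)) (pfC_sound p14_16_2_186)) (pfC_sound p14_16_2_187)) (pfC_sound p14_16_2_188)) (pfC_sound p14_16_2_189)) (pfC_sound p14_16_2_190)) (pfC_sound p14_16_2_191)) (pfC_sound p14_16_2_192)) (pfC_sound p14_16_2_193)) (pfC_sound p14_16_2_194)) (pfC_sound p14_16_2_195)) (pfC_sound p14_16_2_196)) (pfC_sound p14_16_2_197)) (pfC_sound p14_16_2_198)) (pfC_sound p14_16_2_199)) (pfC_sound p14_16_2_200)) (pfC_sound p14_16_2_201)) (pfC_sound p14_16_2_202)) (pfC_sound p14_16_2_203)) (pfC_sound p14_16_2_204)) (pfC_sound p14_16_2_205)) (pfC_sound p14_16_2_206)) (pfC_sound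 p14_16_2_207)) (pfC_sound p14_16_2_208)) (pfC_sound p14_16_2_209)) (pfC_sound p14_16_2_210)) (pfC_sound p14_16_2_211)) (pfC_sound p14_16_2_212)) (pfC_sound p14_16_2_213)) (pfC_sound p14_16_2_214)) (pfC_sound p14_16_2_215)) (pfC_sound p14_16_2_216)) (pfC_sound p14_16_2_217)) (pfC_sound p14_16_2_218)) (pfC_sound p14_16_2_219)) (pfC_sound p14_16_2_220)) (pfC_sound p14_16_2_221)) (pfC_sound p14_16_2_222)) (pfC_sound
 p14_16_2_223)) (pfC_sound p14_16_2_224)) (pfC_sound p14_16_2_225)) (pfC_sound p14_16_2_226)) (pfC_sound p14_16_2_227)) (pfC_sound p14_16_2_228)) (pfC_sound p14_16_2_229)) (pfC_sound p14_16_2_230)) (pfC_sound p14_16_2_231)) (pfC_sound p14_16_2_232)) (pfC_sound p14_16_2_233)) (pfC_sound p14_16_2_234)) (pfC_sound p14_16_2_235)) (pfC_sound p14_16_2_236)) (pfC_sound p14_16_2_237)) (pfC_sound p14_16_2_238)) (pfC_sound p14_16_2_239)) (pfC_sound p14_16_2_240)) (pfC_sound p14_16_2_241)) (pfC_sound p14_16_2_242)) (pfC_sound p14_16_2_243)) (pfC_sound p14_16_2_244)) (by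 decide +kernel)

def z14_16_2 : zOK yB14_16 (nat_lit 2) (nat_lit 600) (nat_lit 770) (nat_lit 7031977) (nat_lit 5124938) = true := by decide +kernel
def g14_16_2 : gOK yB14_16.x P14_16 (nat_lit 1408) (q14_16 :: r14_16) (nat_lit 2) (nat_lit 600) (nat_lit 3) (nat_lit 770) (nat_lit 12712500) (nat_lit 12712500) (nat_lit 12712500) (nat_lit 12712500) [(nat_lit 800), (nat_lit 1600)] = true := by decide +kernel
def v14_16_2 : ivC P14_16 s14_16 w14_16 n14_16 (nat_lit 4) (nat_lit 4740) (nat_lit 2) (nat_lit 600) f168_1_600 f176_1_600 (nat_lit 3) (nat_lit 770) f168_1_770 f176_1_770 (nat_lit 7031977) (nat_lit 5124938) p14_16_2 = true := by decide +kernel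
end CB
end Pool.Agent.Lib.MP_6947cd_al
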