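import Pool.Agent.Lib.MP_6947cd_al.L.BoxDataB
import Pool.Agent.Lib.MP_6947cd_al.L.TeD1

/-!
Problem MP_6947cd_al (Chollet).  CASE B, rows `j`: boxes (generated).
-/

set_option autoImplicit false
set_option linter.defProp false
set_option maxRecDepth 20000

namespace Pool.Agent.Lib.MP_6947cd_al
namespace CB

open Ent Ent.Pk Fr Fr.WT CA

/-! box `yB14_17` -/

def P14_17 : BQ := ⟨(nat_lit 8), (nat_lit 8), (nat_lit 0), (nat_lit 4), (nat_lit 4), (nat_lit 880), (nat_lit 900), (nat_lit 90), [(nat_lit 180), (nat_lit 330), (nat_lit 650)], (nat_lit 135936000), (nat_lit 16000000), (nat_lit 16000000000)⟩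
def q14_17 : PC := ⟨(nat_lit 1000), [(nat_lit 90000), (nat_lit 180000), (nat_lit 330000), (nat_lit 650000)], (nat_lit 79228162532711081671548469249000000), (nat_lit 15864064000000), (nat_lit 15864064000000), (nat_lit 10000000)⟩
def r14_17 : List PC := [⟨(nat_lit 1352), [(nat_lit 90557), (nat_lit 180914), (nat_lit 331305), (nat_lit 652027)], (nat_lit 79710186673564504664263110884805677), (nat_lit 16369800442880), (nat_lit 16381720120320), (nat_lit 10061889)⟩]
def s14_17 : List PB := [⟨(nat_lit 27040), (nat_lit 1448912000000), [(nat_lit 180914), (nat_lit 331305), (nat_lit 652027)], (nat_lit 79710186673564504664263110884805677), (nat_lit 1142269707285504), (nat_lit 1142281626962944), (nat_lit 56320)⟩]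
def n14_17 : List KN := [⟨(nat_lit 650), (nat_lit 330), (nat_lit 16296408), (nat_lit 6991654)⟩, ⟨(nat_lit 330), (nat_lit 180), (nat_lit 25257288), (nat_lit 16296408)⟩, ⟨(nat_lit 180), (nat_lit 90), (nat_lit 40745421), (nat_lit 25257288)⟩]
def w14_17 : List ℕ := [(nat_lit 56320)]
def par14_17 : parC yB14_17 P14_17 s14_17 r14_17 q14_17 n14_17 w14_17 = true := by decide +kernel

def p14_17_0 : PF := (PF.cons (PF.cons (PF.cons (PF.leaf (nat_lit 866211) (nat_lit 2797047) (nat_lit 64311765) (nat_lit 2797047) [(nat_lit 0), (nat_lit 0), (nat_lit 0)]) (PF.cons (PF.leaf (nat_lit 1000055) (nat_lit 209755) (nat_lit 64049767) (nat_lit 2849290) [(nat_lit 209755), (nat_lit 0), (nat_lit 0)]) (PF.cons (PF.leaf (nat_lit 1162915) (nat_lit 231155) (nat_lit 63738982) (nat_lit 2907520) [(nat_lit 231155), (nat_lit 0), (nat_lit 0)]) (PF.cons (PF.leaf (nat_lit 1348788) (nat_lit 251078) (nat_lit 63386259) (nat_lit 2969317) [(nat_lit 251078), (nat_lit 0), (nat_lit 0)]) (PF.cons (PF.leaf (nat_lit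 1555604) (nat_lit 269860) (nat_lit 62996390) (nat_lit 3032982) [(nat_lit 269860), (nat_lit 0), (nat_lit 0)]) (PF.cons (PF.leaf (nat_lit 1781714) (nat_lit 287686) (nat_lit 62573117) (nat_lit 3097263) [(nat_lit 287686), (nat_lit 0), (nat_lit 0)]) (PF.cons (PF.leaf (nat_lit 2025492) (nat_lit 304668) (nat_lit 62119586) (nat_lit 3161218) [(nat_lit 304668), (nat_lit 0), (nat_lit 0)]) (PF.cons (PF.leaf (nat_lit 2285675) (nat_lit 320872) (nat_lit 61638573) (nat_lit 3224128) [(nat_lit 320872), (nat_lit 0), (nat_lit 0)]) (PF.cons (PF.leaf (nat_lit 2561031) (nat_lit 336344) (nat_lit 61132614) (nat_lit 3285442)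
 [(nat_lit 336344), (nat_lit 0), (nat_lit 0)]) (PF.cons (PF.leaf (nat_lit 2850368) (nat_lit 351111) (nat_lit 60604068) (nat_lit 3344737) [(nat_lit 351111), (nat_lit 0), (nat_lit 0)]) (PF.cons (PF.leaf (nat_lit 3152636) (nat_lit 365195) (nat_lit 60055162) (nat_lit 3401690) [(nat_lit 365195), (nat_lit 0), (nat_lit 0)]) (PF.cons (PF.leaf (nat_lit 3466672) (nat_lit 378612) (nat_lit 59488010) (nat_lit 3456061) [(nat_lit 378612), (nat_lit 0), (nat_lit 0)]) (PF.cons (PF.leaf (nat_lit 3791439) (nat_lit 391376) (nat_lit 58904628) (nat_lit 3507672) [(nat_lit 391376), (nat_lit 0), (nat_lit 0)]) (PF.cons (PF.leaf (nat_lit 4125957) (nat_lit 403497) (nat_lit 58306938) (nat_lit 3556400) [(nat_lit 403497), (nat_lit 0), (nat_lit 0)]) (PF.cons (PF.leaf (nat_lit 4469212) (nat_lit 414990) (nat_lit 57696777) (nat_lit 3602166) [(nat_lit 414990), (nat_lit 0), (nat_lit 0)]) (PF.cons PF.nil (PF.cons PF.nil (PF.cons PF.nil PF.nil)))))))))))))))))) (PF.cons (PF.cons (PF.leaf (nat_lit 1503601)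 (nat_lit 1418559) (nat_lit 62621890) (nat_lit 3068363) [(nat_lit 0), (nat_lit 1418559), (nat_lit 0)]) (PF.cons (PF.leaf (nat_lit 1693242) (nat_lit 275476) (nat_lit 62251959) (nat_lit 3122060) [(nat_lit 275476), (nat_lit
 1459316), (nat_lit 0)]) (PF.cons (PF.leaf (nat_lit 1906091) (nat_lit 293470) (nat_lit 61843235) (nat_lit 3177710) [(nat_lit 293470), (nat_lit 1500925), (nat_lit 0)]) (PF.cons (PF.leaf (nat_lit 2138281) (nat_lit 310397) (nat_lit 61401079) (nat_lit 3234004) [(nat_lit 310397), (nat_lit 1542536), (nat_lit 0)]) (PF.cons (PF.leaf (nat_lit 2387910) (nat_lit 326416) (nat_lit 60929551) (nat_lit 3290006) [(nat_lit 326416), (nat_lit 1583590), (nat_lit 0)]) (PF.cons (PF.leaf (nat_lit 2653396) (nat_lit 341623) (nat_lit 60431974) (nat_lit 3345023) [(nat_lit 341623), (nat_lit 1623698), (nat_lit 0)]) (PF.cons (PF.leaf (nat_lit 2933342) (nat_lit 356078) (nat_lit 59911216) (nat_lit 3398537) [(nat_lit 356078), (nat_lit 1662587), (nat_lit 0)]) (PF.cons (PF.leaf (nat_lit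 3226474) (nat_lit 369822) (nat_lit 59369833) (nat_lit 3450155) [(nat_lit 369822), (nat_lit 1700063), (nat_lit 0)]) (PF.cons (PF.leaf (nat_lit 3531617) (nat_lit 382884) (nat_lit 58810162) (nat_lit 3499584) [(nat_lit 382884), (nat_lit 1735986), (nat_lit 0)]) (PF.cons (PF.leaf (nat_lit 3847704) (nat_lit 395287) (nat_lit 58234361) (nat_lit 3546606) [(nat_lit 395287), (nat_lit 1770258), (nat_lit 0)]) (PF.cons (PF.leaf (nat_lit 4173633)
 (nat_lit 407048) (nat_lit 57644448) (nat_lit 3591064) [(nat_lit 407048), (nat_lit 1802813), (nat_lit 0)]) (PF.cons (PF.leaf (nat_lit 4508432) (nat_lit 418185) (nat_lit 57042312) (nat_lit 3632852) [(nat_lit 418185), (nat_lit 1833611), (nat_lit 0)]) (PF.cons (PF.leaf (nat_lit 4851162) (nat_lit 428712) (nat_lit 56429731) (nat_lit 3671902) [(nat_lit 428712), (nat_lit 1862631), (nat_lit 0)]) (PF.cons PF.nil (PF.cons PF.nil (PF.cons PF.nil PF.nil)))))))))))))))) (PF.cons (PF.cons (PF.leaf (nat_lit 2266589) (nat_lit 1585839) (nat_lit 60632461)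 (nat_lit 3304673) [(nat_lit 0), (nat_lit 1585839), (nat_lit 0)]) (PF.cons (PF.leaf (nat_lit 2500574) (nat_lit 330184) (nat_lit 60180829) (nat_lit 3353315) [(nat_lit 330184), (nat_lit 1622242), (nat_lit 0)]) (PF.cons (PF.leaf (nat_lit 2753206) (nat_lit 345438) (nat_lit 59699429) (nat_lit 3401824) [(nat_lit 345438), (nat_lit 1658340), (nat_lit 0)]) (PF.cons (PF.leaf (nat_lit 3021510) (nat_lit 359807) (nat_lit 59192518) (nat_lit 3449485) [(nat_lit 359807), (nat_lit 1693693), (nat_lit 0)]) (PF.cons (PF.leaf (nat_lit 3303920) (nat_lit 373381) (nat_lit 58663505) (nat_lit 3495780) [(nat_lit 373381), (nat_lit 1728000), (nat_lit 0)]) (PF.cons (PF.leaf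
 (nat_lit 3598957) (nat_lit 386221) (nat_lit 58115270) (nat_lit 3540331) [(nat_lit 386221), (nat_lit 1761051), (nat_lit 0)]) (PF.cons (PF.leaf (nat_lit 3905358) (nat_lit 398370) (nat_lit 57550334) (nat_lit 3582859) [(nat_lit 398370), (nat_lit 1792699), (nat_lit 0)]) (PF.cons (PF.leaf (nat_lit 4221981) (nat_lit 409858) (nat_lit 56970953) (nat_lit 3623162) [(nat_lit 409858), (nat_lit 1822843), (nat_lit 0)]) (PF.cons (PF.leaf (nat_lit 4547764) (nat_lit 420713) (nat_lit 56379181) (nat_lit 3661097) [(nat_lit 420713), (nat_lit 1851414), (nat_lit 0)]) (PF.cons (PF.leaf (nat_lit 4881683) (nat_lit 430954) (nat_lit 55776902) (nat_lit 3696570) [(nat_lit 430954), (nat_lit 1878373), (nat_lit 0)]) (PF.cons (PF.leaf (nat_lit 5222808) (nat_lit 440603) (nat_lit 55165856) (nat_lit 3729523) [(nat_lit 440603), (nat_lit 1903698), (nat_lit 0)]) (PF.cons (PF.leaf (nat_lit 5570257) (nat_lit 449677) (nat_lit 54547656) (nat_lit 3759931) [(nat_lit 449677), (nat_lit 1927384), (nat_lit 0)]) (PF.cons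 PF.nil (PF.cons PF.nil PF.nil)))))))))))))) (PF.cons (PF.cons (PF.leaf (nat_lit 3121359) (nat_lit 1723860) (nat_lit 58438962) (nat_lit 3498267) [(nat_lit 0), (nat_lit 1723860), (nat_lit 0)]) (PF.cons (PF.leaf
 (nat_lit 3389353) (nat_lit 375613) (nat_lit 57929674) (nat_lit 3539064) [(nat_lit 375613), (nat_lit 1754820), (nat_lit 0)]) (PF.cons (PF.leaf (nat_lit 3672116) (nat_lit 388439) (nat_lit 57398517) (nat_lit 3578680) [(nat_lit 388439), (nat_lit 1784912), (nat_lit 0)]) (PF.cons (PF.leaf (nat_lit 3967228) (nat_lit 400490) (nat_lit 56848898) (nat_lit 3616728) [(nat_lit 400490), (nat_lit 1813905), (nat_lit 0)]) (PF.cons (PF.leaf (nat_lit 4273332) (nat_lit 411828) (nat_lit 56283642) (nat_lit 3652932) [(nat_lit 411828), (nat_lit 1841641), (nat_lit 0)]) (PF.cons (PF.leaf (nat_lit 4589133) (nat_lit 422499) (nat_lit 55705180) (nat_lit 3687099) [(nat_lit 422499), (nat_lit 1868012), (nat_lit 0)]) (PF.cons (PF.leaf (nat_lit 4913531) (nat_lit 432536) (nat_lit 55115650) (nat_lit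 3719095) [(nat_lit 432536), (nat_lit 1892949), (nat_lit 0)]) (PF.cons (PF.leaf (nat_lit 5245511) (nat_lit 441969) (nat_lit 54516966) (nat_lit 3748832) [(nat_lit 441969), (nat_lit 1916409), (nat_lit 0)]) (PF.cons (PF.leaf (nat_lit 5584160) (nat_lit 450822) (nat_lit 53910861) (nat_lit 3776259) [(nat_lit 450822), (nat_lit 1938371), (nat_lit 0)]) (PF.cons (PF.leaf (nat_lit 5928565) (nat_lit 459117) (nat_lit 53298910) (nat_lit
 3801356) [(nat_lit 459117), (nat_lit 1958830), (nat_lit 0)]) (PF.cons PF.nil (PF.cons PF.nil PF.nil)))))))))))) (PF.cons (PF.cons (PF.leaf (nat_lit 4038153) (nat_lit 1834155) (nat_lit 56123613) (nat_lit 3648578) [(nat_lit 0), (nat_lit 1834155), (nat_lit 0)]) (PF.cons (PF.leaf (nat_lit 4331017) (nat_lit 412777) (nat_lit 55577730) (nat_lit 3680651) [(nat_lit 412777), (nat_lit 1859413), (nat_lit 0)]) (PF.cons (PF.leaf (nat_lit 4635261) (nat_lit 423410) (nat_lit 55016671) (nat_lit 3711073) [(nat_lit 423410), (nat_lit 1883561), (nat_lit 0)]) (PF.cons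 (PF.leaf (nat_lit 4948945) (nat_lit 433358) (nat_lit 54443155) (nat_lit 3739650) [(nat_lit 433358), (nat_lit 1906483), (nat_lit 0)]) (PF.cons (PF.leaf (nat_lit 5270884) (nat_lit 442666) (nat_lit 53859482) (nat_lit 3766249) [(nat_lit 442666), (nat_lit 1928103), (nat_lit 0)]) (PF.cons (PF.leaf (nat_lit 5599981) (nat_lit 451373) (nat_lit 53267648) (nat_lit 3790788) [(nat_lit 451373), (nat_lit 1948376), (nat_lit 0)]) (PF.cons (PF.leaf (nat_lit 5935291) (nat_lit 459509) (nat_lit 52669413) (nat_lit 3813219) [(nat_lit 459509), (nat_lit 1967280), (nat_lit 0)]) (PF.cons (PF.leaf (nat_lit 6275939) (nat_lit 467101) (nat_lit 52066345) (nat_lit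
 3833524) [(nat_lit 467101), (nat_lit 1984808), (nat_lit 0)]) (PF.cons (PF.leaf (nat_lit 6621120) (nat_lit 474172) (nat_lit 51459855) (nat_lit 3851707) [(nat_lit 474172), (nat_lit 2000967), (nat_lit 0)]) (PF.cons PF.nil PF.nil)))))))))) (PF.cons (PF.cons (PF.leaf (nat_lit 4991638) (nat_lit 1919130) (nat_lit 53754724) (nat_lit 3758434) [(nat_lit 0), (nat_lit 1919130), (nat_lit 0)]) (PF.cons (PF.leaf (nat_lit 5301476) (nat_lit 442566) (nat_lit 53189826) (nat_lit 3781930) [(nat_lit 442566), (nat_lit 1938897), (nat_lit 0)]) (PF.cons (PF.leaf (nat_lit 5619860) (nat_lit 451234) (nat_lit 52615235) (nat_lit 3803641) [(nat_lit 451234), (nat_lit 1957493), (nat_lit 0)]) (PF.cons (PF.leaf (nat_lit 5945176) (nat_lit 459297) (nat_lit 52033101) (nat_lit 3823482) [(nat_lit 459297), (nat_lit 1974867), (nat_lit 0)]) (PF.cons (PF.leaf (nat_lit 6276398) (nat_lit 466793) (nat_lit 51445261) (nat_lit 3841408) [(nat_lit 466793), (nat_lit 1990993), (nat_lit 0)]) (PF.cons (PF.leaf (nat_lit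 6612674) (nat_lit 473754) (nat_lit 50853314) (nat_lit 3857401) [(nat_lit 473754), (nat_lit 2005864), (nat_lit 0)]) (PF.cons (PF.leaf (nat_lit 6953176) (nat_lit 480209) (nat_lit 50258667) (nat_lit 3871465) [(nat_lit
 480209), (nat_lit 2019484), (nat_lit 0)]) (PF.cons PF.nil PF.nil)))))))) (PF.cons (PF.cons (PF.leaf (nat_lit 5961131) (nat_lit 1981678) (nat_lit 51386489) (nat_lit 3832251) [(nat_lit 0), (nat_lit 1981678), (nat_lit 0)]) (PF.cons (PF.leaf (nat_lit 6281381) (nat_lit 465855) (nat_lit 50816585) (nat_lit 3847862) [(nat_lit 465855), (nat_lit 1996418), (nat_lit 0)]) (PF.cons (PF.leaf (nat_lit 6607853) (nat_lit 472788) (nat_lit 50241337) (nat_lit 3861739) [(nat_lit 472788), (nat_lit 2010026), (nat_lit 0)]) (PF.cons (PF.leaf (nat_lit 6939169) (nat_lit 479190) (nat_lit 49662420) (nat_lit 3873864) [(nat_lit 479190), (nat_lit 2022492), (nat_lit 0)]) (PF.cons (PF.leaf (nat_lit 7274499) (nat_lit 485095) (nat_lit 49081277) (nat_lit 3884239) [(nat_lit 485095), (nat_lit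 2033818), (nat_lit 0)]) (PF.cons PF.nil PF.nil)))))) (PF.cons (PF.cons (PF.leaf (nat_lit 6930438) (nat_lit 2024847) (nat_lit 49059843) (nat_lit 3875038) [(nat_lit 0), (nat_lit 2024847), (nat_lit 0)]) (PF.cons (PF.leaf (nat_lit 7255866) (nat_lit 483508) (nat_lit 48495606) (nat_lit 3883705) [(nat_lit 483508), (nat_lit 2035141), (nat_lit 0)]) (PF.cons (PF.leaf (nat_lit 7585592) (nat_lit 488929) (nat_lit 47929366) (nat_lit 3890788)
 [(nat_lit 488929), (nat_lit 2044399), (nat_lit 0)]) (PF.cons (PF.leaf (nat_lit 7918486) (nat_lit 493890) (nat_lit 47362413) (nat_lit 3896306) [(nat_lit 493890), (nat_lit 2052631), (nat_lit 0)]) PF.nil)))) (PF.cons (PF.cons (PF.leaf (nat_lit 7887388) (nat_lit 2051615) (nat_lit 46804087) (nat_lit 3891797) [(nat_lit 0), (nat_lit 2051615), (nat_lit 0)]) (PF.cons (PF.leaf (nat_lit 8213876) (nat_lit 496345) (nat_lit 46253282) (nat_lit 3894538) [(nat_lit 496345), (nat_lit 2058080), (nat_lit 0)]) PF.nil)) (PF.cons PF.nil (PF.cons PF.nil (PF.cons PF.nil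 (PF.cons PF.nil PF.nil))))))))))))) (PF.cons (PF.cons (PF.cons (PF.leaf (nat_lit 2690272) (nat_lit 3416830) (nat_lit 57362652) (nat_lit 3416830) [(nat_lit 0), (nat_lit 0), (nat_lit 6329329)]) (PF.cons (PF.leaf (nat_lit 2899033) (nat_lit 324663) (nat_lit 56969428) (nat_lit 3452014) [(nat_lit 324663), (nat_lit 0), (nat_lit 6362706)]) (PF.cons (PF.leaf (nat_lit 3129326) (nat_lit 341637) (nat_lit 56541009) (nat_lit 3487922) [(nat_lit 341637), (nat_lit 0), (nat_lit 6396605)]) (PF.cons (PF.leaf (nat_lit 3377027) (nat_lit 357071) (nat_lit 56083823) (nat_lit 3523686) [(nat_lit 357071), (nat_lit 0), (nat_lit 6430087)]) (PF.cons (PF.leaf (nat_lit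
 3639821) (nat_lit 371255) (nat_lit 55602610) (nat_lit 3558706) [(nat_lit 371255), (nat_lit 0), (nat_lit 6462472)]) (PF.cons (PF.leaf (nat_lit 3915841) (nat_lit 384379) (nat_lit 55101107) (nat_lit 3592556) [(nat_lit 384379), (nat_lit 0), (nat_lit 6493252)]) (PF.cons (PF.leaf (nat_lit 4203634) (nat_lit 396573) (nat_lit 54582398) (nat_lit 3624925) [(nat_lit 396573), (nat_lit 0), (nat_lit 6522047)]) (PF.cons (PF.leaf (nat_lit 4501788) (nat_lit 407933) (nat_lit 54049111) (nat_lit 3655592) [(nat_lit 407933), (nat_lit 0), (nat_lit 6548574)]) (PF.cons (PF.leaf (nat_lit 4809188) (nat_lit 418531) (nat_lit 53503536) (nat_lit 3684398) [(nat_lit 418531), (nat_lit 0), (nat_lit 6572626)]) (PF.cons (PF.leaf (nat_lit 5124746) (nat_lit 428424) (nat_lit 52947700) (nat_lit 3711237) [(nat_lit 428424), (nat_lit 0), (nat_lit 6594056)]) (PF.cons (PF.leaf (nat_lit 5447489) (nat_lit 437658) (nat_lit 52383419) (nat_lit 3736039) [(nat_lit 437658), (nat_lit 0), (nat_lit 6612768)]) (PF.cons (PF.leaf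 (nat_lit 5776530) (nat_lit 446273) (nat_lit 51812333) (nat_lit 3758766) [(nat_lit 446273), (nat_lit 0), (nat_lit 6628706)]) (PF.cons (PF.leaf (nat_lit 6111040) (nat_lit 454302) (nat_lit 51235927) (nat_lit 3779406)
 [(nat_lit 454302), (nat_lit 0), (nat_lit 6641849)]) (PF.cons (PF.leaf (nat_lit 6450256) (nat_lit 461776) (nat_lit 50655556) (nat_lit 3797964) [(nat_lit 461776), (nat_lit 0), (nat_lit 6652201)]) (PF.cons PF.nil (PF.cons PF.nil PF.nil)))))))))))))))) (PF.cons (PF.cons (PF.leaf (nat_lit 3479821) (nat_lit 1752872) (nat_lit 55328240) (nat_lit 3561063) [(nat_lit 0), (nat_lit 1752872), (nat_lit 6466637)]) (PF.cons (PF.leaf (nat_lit 3724832) (nat_lit 370575) (nat_lit 54874457) (nat_lit 3591205) [(nat_lit 370575), (nat_lit 1779160), (nat_lit 6493415)]) (PF.cons (PF.leaf (nat_lit 3986208) (nat_lit 384100) (nat_lit 54395892) (nat_lit 3620771) [(nat_lit 384100), (nat_lit 1804808), (nat_lit 6519140)]) (PF.cons (PF.leaf (nat_lit 4261028) (nat_lit 396512) (nat_lit 53897105)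 (nat_lit 3649315) [(nat_lit 396512), (nat_lit 1829535), (nat_lit 6543319)]) (PF.cons (PF.leaf (nat_lit 4547443) (nat_lit 407972) (nat_lit 53381637) (nat_lit 3676526) [(nat_lit 407972), (nat_lit 1853162), (nat_lit 6565597)]) (PF.cons (PF.leaf (nat_lit 4844031) (nat_lit 418591) (nat_lit 52852370) (nat_lit 3702186) [(nat_lit 418591), (nat_lit 1875578), (nat_lit 6585719)]) (PF.cons (PF.leaf (nat_lit 5149498) (nat_lit 428452)
 (nat_lit 52311731) (nat_lit 3726144) [(nat_lit 428452), (nat_lit 1896713), (nat_lit 6603506)]) (PF.cons (PF.leaf (nat_lit 5462741) (nat_lit 437619) (nat_lit 51761811) (nat_lit 3748298) [(nat_lit 437619), (nat_lit 1916529), (nat_lit 6618835)]) (PF.cons (PF.leaf (nat_lit 5782772) (nat_lit 446143) (nat_lit 51204442) (nat_lit 3768586) [(nat_lit 446143), (nat_lit 1935006), (nat_lit 6631631)]) (PF.cons (PF.leaf (nat_lit 6108689) (nat_lit 454065) (nat_lit 50641250) (nat_lit 3786974) [(nat_lit 454065), (nat_lit 1952145), (nat_lit 6641855)]) (PF.cons (PF.leaf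 (nat_lit 6439673) (nat_lit 461422) (nat_lit 50073685) (nat_lit 3803451) [(nat_lit 461422), (nat_lit 1967955), (nat_lit 6649499)]) (PF.cons (PF.leaf (nat_lit 6774963) (nat_lit 468245) (nat_lit 49503052) (nat_lit 3818026) [(nat_lit 468245), (nat_lit 1982455), (nat_lit 6654578)]) (PF.cons PF.nil (PF.cons PF.nil PF.nil)))))))))))))) (PF.cons (PF.cons (PF.leaf (nat_lit 4331802) (nat_lit 1845153) (nat_lit 53184726) (nat_lit 3672215) [(nat_lit 0), (nat_lit 1845153), (nat_lit 6561563)]) (PF.cons (PF.leaf (nat_lit 4602918) (nat_lit 406744) (nat_lit 52693520) (nat_lit 3695884) [(nat_lit 406744), (nat_lit 1866508), (nat_lit 6579645)]) (PF.cons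
 (PF.leaf (nat_lit 4886498) (nat_lit 417612) (nat_lit 52185381) (nat_lit 3718382) [(nat_lit 417612), (nat_lit 1886938), (nat_lit 6595946)]) (PF.cons (PF.leaf (nat_lit 5180273) (nat_lit 427610) (nat_lit 51663650) (nat_lit 3739485) [(nat_lit 427610), (nat_lit 1906310), (nat_lit 6610226)]) (PF.cons (PF.leaf (nat_lit 5482780) (nat_lit 436837) (nat_lit 51131014) (nat_lit 3759042) [(nat_lit 436837), (nat_lit 1924540), (nat_lit 6622324)]) (PF.cons (PF.leaf (nat_lit 5792845) (nat_lit 445370) (nat_lit 50589705) (nat_lit 3776956) [(nat_lit 445370), (nat_lit 1941581), (nat_lit 6632135)]) (PF.cons (PF.leaf (nat_lit 6109425) (nat_lit 453266) (nat_lit 50041627) (nat_lit 3793166) [(nat_lit 453266), (nat_lit 1957410), (nat_lit 6639599)]) (PF.cons (PF.leaf (nat_lit 6431598) (nat_lit 460573) (nat_lit 49488429) (nat_lit 3807640) [(nat_lit 460573), (nat_lit 1972021), (nat_lit 6644690)]) (PF.cons (PF.leaf (nat_lit 6758524) (nat_lit 467329) (nat_lit 48931557) (nat_lit 3820370) [(nat_lit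 467329), (nat_lit 1985419), (nat_lit 6647409)]) (PF.cons (PF.leaf (nat_lit 7089472) (nat_lit 473570) (nat_lit 48372292) (nat_lit 3831366) [(nat_lit 473570), (nat_lit 1997621), (nat_lit 6647779)]) (PF.cons PF.nil (PF.cons
 PF.nil PF.nil)))))))))))) (PF.cons (PF.cons (PF.leaf (nat_lit 5221601) (nat_lit 1915260) (nat_lit 50997336) (nat_lit 3751427) [(nat_lit 0), (nat_lit 1915260), (nat_lit 6614269)]) (PF.cons (PF.leaf (nat_lit 5510756) (nat_lit 435106) (nat_lit 50486454) (nat_lit 3768394) [(nat_lit 435106), (nat_lit 1931861), (nat_lit 6623272)]) (PF.cons (PF.leaf (nat_lit 5809269) (nat_lit 443803) (nat_lit 49964620) (nat_lit 3783970) [(nat_lit 443803), (nat_lit 1947455), (nat_lit 6630249)]) (PF.cons (PF.leaf (nat_lit 6115304) (nat_lit 451791) (nat_lit 49434323) (nat_lit 3798056) [(nat_lit 451791), (nat_lit 1961982), (nat_lit 6635108)]) (PF.cons (PF.leaf (nat_lit 6427730) (nat_lit 459141) (nat_lit 48897611) (nat_lit 3810592) [(nat_lit 459141), (nat_lit 1975413), (nat_lit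 6637801)]) (PF.cons (PF.leaf (nat_lit 6745567) (nat_lit 465906) (nat_lit 48356208) (nat_lit 3821548) [(nat_lit 465906), (nat_lit 1987738), (nat_lit 6638311)]) (PF.cons (PF.leaf (nat_lit 7067984) (nat_lit 472130) (nat_lit 47811592) (nat_lit 3830915) [(nat_lit 472130), (nat_lit 1998958), (nat_lit 6636645)]) (PF.cons (PF.leaf (nat_lit 7394203) (nat_lit 477852) (nat_lit 47265047) (nat_lit 3838704) [(nat_lit 477852), (nat_lit 2009087),
 (nat_lit 6632833)]) (PF.cons (PF.leaf (nat_lit 7723513) (nat_lit 483103) (nat_lit 46717697) (nat_lit 3844934) [(nat_lit 483103), (nat_lit 2018146), (nat_lit 6626916)]) (PF.cons PF.nil PF.nil)))))))))) (PF.cons (PF.cons (PF.leaf (nat_lit 6129791) (nat_lit 1965945) (nat_lit 48814943) (nat_lit 3801721) [(nat_lit 0), (nat_lit 1965945), (nat_lit 6628364)]) (PF.cons (PF.leaf (nat_lit 6430481) (nat_lit 456982) (nat_lit 48297864) (nat_lit 3812365) [(nat_lit 456982), (nat_lit 1978195), (nat_lit 6628818)]) (PF.cons (PF.leaf (nat_lit 6738063) (nat_lit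 463865) (nat_lit 47774369) (nat_lit 3821604) [(nat_lit 463865), (nat_lit 1989458), (nat_lit 6627274)]) (PF.cons (PF.leaf (nat_lit 7051027) (nat_lit 470160) (nat_lit 47246327) (nat_lit 3829407) [(nat_lit 470160), (nat_lit 1999718), (nat_lit 6623723)]) (PF.cons (PF.leaf (nat_lit 7368460) (nat_lit 475919) (nat_lit 46715296) (nat_lit 3835766) [(nat_lit 475919), (nat_lit 2008973), (nat_lit 6618179)]) (PF.cons (PF.leaf (nat_lit 7689573) (nat_lit 481183) (nat_lit 46182595) (nat_lit 3840689) [(nat_lit 481183), (nat_lit 2017234), (nat_lit 6610675)]) (PF.cons (PF.leaf (nat_lit 8013681) (nat_lit 485987) (nat_lit 45649360) (nat_lit 3844197) [(nat_lit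
 485987), (nat_lit 2024518), (nat_lit 6601256)]) (PF.cons PF.nil PF.nil)))))))) (PF.cons (PF.cons (PF.leaf (nat_lit 7041313) (nat_lit 1999941) (nat_lit 46673273) (nat_lit 3826868) [(nat_lit 0), (nat_lit 1999941), (nat_lit 6608961)]) (PF.cons (PF.leaf (nat_lit 7348406) (nat_lit 473420) (nat_lit 46159992) (nat_lit 3831858) [(nat_lit 473420), (nat_lit 2008339), (nat_lit 6601842)]) (PF.cons (PF.leaf (nat_lit 7660424) (nat_lit 478778) (nat_lit 45643695) (nat_lit 3835537) [(nat_lit 478778), (nat_lit 2015825), (nat_lit 6592894)]) (PF.cons (PF.leaf (nat_lit 7976102) (nat_lit 483643) (nat_lit 45125785) (nat_lit 3837910) [(nat_lit 483643), (nat_lit 2022406), (nat_lit 6582155)]) (PF.cons (PF.leaf (nat_lit 8294712) (nat_lit 488056) (nat_lit 44607438) (nat_lit 3838997) [(nat_lit 488056), (nat_lit 2028095), (nat_lit 6569671)]) (PF.cons PF.nil PF.nil)))))) (PF.cons (PF.cons (PF.leaf (nat_lit 7944804) (nat_lit 2019841) (nat_lit 44597397) (nat_lit 3830779) [(nat_lit 0), (nat_lit 2019841),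 (nat_lit 6561586)]) (PF.cons (PF.leaf (nat_lit 8254309) (nat_lit 485305) (nat_lit 44095093) (nat_lit 3830893) [(nat_lit 485305), (nat_lit 2024914), (nat_lit 6548035)]) (PF.cons (PF.leaf (nat_lit 8567162) (nat_lit
 489380) (nat_lit 43592275) (nat_lit 3829839) [(nat_lit 489380), (nat_lit 2029174), (nat_lit 6532891)]) (PF.cons (PF.leaf (nat_lit 8882327) (nat_lit 493041) (nat_lit 43089993) (nat_lit 3827642) [(nat_lit 493041), (nat_lit 2032640), (nat_lit 6516211)]) PF.nil)))) (PF.cons (PF.cons (PF.leaf (nat_lit 8831971) (nat_lit 2028020) (nat_lit 42603923) (nat_lit 3817174) [(nat_lit 0), (nat_lit 2028020), (nat_lit 6491570)]) (PF.cons (PF.leaf (nat_lit 9140826) (nat_lit 493395) (nat_lit 42117537) (nat_lit 3813195) [(nat_lit 493395), (nat_lit 2030278), (nat_lit 6472738)]) PF.nil)) (PF.cons PF.nil (PF.cons PF.nil (PF.cons PF.nil PF.nil))))))))))) (PF.cons (PF.cons (PF.cons (PF.leaf (nat_lit 4595644) (nat_lit 3666729) (nat_lit 50398290) (nat_lit 3666729) [(nat_lit 0), (nat_lit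 0), (nat_lit 6521896)]) (PF.cons (PF.leaf (nat_lit 4842764) (nat_lit 394107) (nat_lit 49968403) (nat_lit 3684213) [(nat_lit 394107), (nat_lit 0), (nat_lit 6531044)]) (PF.cons (PF.leaf (nat_lit 5104434) (nat_lit 406081) (nat_lit 49518004) (nat_lit 3700915) [(nat_lit 406081), (nat_lit 0), (nat_lit 6538864)]) (PF.cons (PF.leaf (nat_lit 5377676) (nat_lit 416829) (nat_lit 49051506) (nat_lit 3716571) [(nat_lit 416829), (nat_lit 0),
 (nat_lit 6545123)]) (PF.cons (PF.leaf (nat_lit 5660718) (nat_lit 426556) (nat_lit 48572264) (nat_lit 3731005) [(nat_lit 426556), (nat_lit 0), (nat_lit 6549659)]) (PF.cons (PF.leaf (nat_lit 5952066) (nat_lit 435405) (nat_lit 48082944) (nat_lit 3744102) [(nat_lit 435405), (nat_lit 0), (nat_lit 6552367)]) (PF.cons (PF.leaf (nat_lit 6250531) (nat_lit 443485) (nat_lit 47585737) (nat_lit 3755792) [(nat_lit 443485), (nat_lit 0), (nat_lit 6553185)]) (PF.cons (PF.leaf (nat_lit 6555072) (nat_lit 450877) (nat_lit 47082482) (nat_lit 3766032) [(nat_lit 450877),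 (nat_lit 0), (nat_lit 6552079)]) (PF.cons (PF.leaf (nat_lit 6864784) (nat_lit 457646) (nat_lit 46574753) (nat_lit 3774806) [(nat_lit 457646), (nat_lit 0), (nat_lit 6549042)]) (PF.cons (PF.leaf (nat_lit 7178897) (nat_lit 463846) (nat_lit 46063909) (nat_lit 3782114) [(nat_lit 463846), (nat_lit 0), (nat_lit 6544086)]) (PF.cons (PF.leaf (nat_lit 7496658) (nat_lit 469521) (nat_lit 45551141) (nat_lit 3787971) [(nat_lit 469521), (nat_lit 0), (nat_lit 6537241)]) (PF.cons PF.nil (PF.cons PF.nil (PF.cons PF.nil PF.nil)))))))))))))) (PF.cons (PF.cons (PF.leaf (nat_lit 5423341) (nat_lit 1898588) (nat_lit 48405575) (nat_lit 3723344) [(nat_lit 0),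
 (nat_lit 1898588), (nat_lit 6540652)]) (PF.cons (PF.leaf (nat_lit 5691013) (nat_lit 423087) (nat_lit 47951326) (nat_lit 3735560) [(nat_lit 423087), (nat_lit 1913090), (nat_lit 6542874)]) (PF.cons (PF.leaf (nat_lit 5969447) (nat_lit 432372) (nat_lit 47483760) (nat_lit 3746686) [(nat_lit 432372), (nat_lit 1926691), (nat_lit 6543465)]) (PF.cons (PF.leaf (nat_lit 6256414) (nat_lit 440751) (nat_lit 47005954) (nat_lit 3756605) [(nat_lit 440751), (nat_lit 1939321), (nat_lit 6542337)]) (PF.cons (PF.leaf (nat_lit 6550560) (nat_lit 448351) (nat_lit 46520331) (nat_lit 3765244) [(nat_lit 448351), (nat_lit 1950946), (nat_lit 6539442)]) (PF.cons (PF.leaf (nat_lit 6850754) (nat_lit 455263) (nat_lit 46028862) (nat_lit 3772563) [(nat_lit 455263), (nat_lit 1961553), (nat_lit 6534757)]) (PF.cons (PF.leaf (nat_lit 7156033) (nat_lit 461559) (nat_lit 45533186) (nat_lit 3778545) [(nat_lit 461559), (nat_lit 1971147), (nat_lit 6528286)]) (PF.cons (PF.leaf (nat_lit 7465563) (nat_lit 467298)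 (nat_lit 45034697) (nat_lit 3783189) [(nat_lit 467298), (nat_lit 1979742), (nat_lit 6520047)]) (PF.cons (PF.leaf (nat_lit 7778631) (nat_lit 472526) (nat_lit 44534587) (nat_lit 3786511) [(nat_lit 472526), (nat_lit
 1987357), (nat_lit 6510074)]) (PF.cons (PF.leaf (nat_lit 8094578) (nat_lit 477283) (nat_lit 44033893) (nat_lit 3788534) [(nat_lit 477283), (nat_lit 1994019), (nat_lit 6498408)]) (PF.cons PF.nil (PF.cons PF.nil PF.nil)))))))))))) (PF.cons (PF.cons (PF.leaf (nat_lit 6273857) (nat_lit 1941106) (nat_lit 46411370) (nat_lit 3756380) [(nat_lit 0), (nat_lit 1941106), (nat_lit 6529424)]) (PF.cons (PF.leaf (nat_lit 6555018) (nat_lit 444927) (nat_lit 45947221) (nat_lit 3763453) [(nat_lit 444927), (nat_lit 1951693), (nat_lit 6524911)]) (PF.cons (PF.leaf (nat_lit 6844096) (nat_lit 452142) (nat_lit 45474906) (nat_lit 3769365) [(nat_lit 452142), (nat_lit 1961387), (nat_lit 6518740)]) (PF.cons (PF.leaf (nat_lit 7139329) (nat_lit 458655) (nat_lit 44996629) (nat_lit 3774074)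 [(nat_lit 458655), (nat_lit 1970168), (nat_lit 6510902)]) (PF.cons (PF.leaf (nat_lit 7439715) (nat_lit 464550) (nat_lit 44514167) (nat_lit 3777564) [(nat_lit 464550), (nat_lit 1978031), (nat_lit 6501408)]) (PF.cons (PF.leaf (nat_lit 7744334) (nat_lit 469890) (nat_lit 44028986) (nat_lit 3779835) [(nat_lit 469890), (nat_lit 1984985), (nat_lit 6490284)]) (PF.cons (PF.leaf (nat_lit 8052400) (nat_lit 474727) (nat_lit 43542320)
 (nat_lit 3780900) [(nat_lit 474727), (nat_lit 1991048), (nat_lit 6477566)]) (PF.cons (PF.leaf (nat_lit 8363310) (nat_lit 479104) (nat_lit 43055217) (nat_lit 3780780) [(nat_lit 479104), (nat_lit 1996241), (nat_lit 6463300)]) (PF.cons PF.nil (PF.cons PF.nil PF.nil)))))))))) (PF.cons (PF.cons (PF.leaf (nat_lit 7132111) (nat_lit 1968744) (nat_lit 44450244) (nat_lit 3768703) [(nat_lit 0), (nat_lit 1968744), (nat_lit 6491815)]) (PF.cons (PF.leaf (nat_lit 7421361) (nat_lit 461125) (nat_lit 43986485) (nat_lit 3771093) [(nat_lit 461125), (nat_lit 1975882),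 (nat_lit 6481230)]) (PF.cons (PF.leaf (nat_lit 7716334) (nat_lit 466688) (nat_lit 43518286) (nat_lit 3772370) [(nat_lit 466688), (nat_lit 1982191), (nat_lit 6469102)]) (PF.cons (PF.leaf (nat_lit 8015662) (nat_lit 471691) (nat_lit 43047248) (nat_lit 3772534) [(nat_lit 471691), (nat_lit 1987674), (nat_lit 6455465)]) (PF.cons (PF.leaf (nat_lit 8318488) (nat_lit 476193) (nat_lit 42574685) (nat_lit 3771598) [(nat_lit 476193), (nat_lit 1992344), (nat_lit 6440360)]) (PF.cons (PF.leaf (nat_lit 8624114) (nat_lit 480240) (nat_lit 42101690) (nat_lit 3769582) [(nat_lit 480240), (nat_lit 1996221), (nat_lit 6423836)]) (PF.cons PF.nil (PF.cons PF.nil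
 PF.nil)))))))) (PF.cons (PF.cons (PF.leaf (nat_lit 7986875) (nat_lit 1983909) (nat_lit 42545770) (nat_lit 3763417) [(nat_lit 0), (nat_lit 1983909), (nat_lit 6431993)]) (PF.cons (PF.leaf (nat_lit 8280082) (nat_lit 472762) (nat_lit 42089640) (nat_lit 3761722) [(nat_lit 472762), (nat_lit 1988074), (nat_lit 6416194)]) (PF.cons (PF.leaf (nat_lit 8577351) (nat_lit 476983) (nat_lit 41631758) (nat_lit 3759020) [(nat_lit 476983), (nat_lit 1991499), (nat_lit 6399036)]) (PF.cons (PF.leaf (nat_lit 8877491) (nat_lit 480749) (nat_lit 41173300) (nat_lit 3755331) [(nat_lit 480749), (nat_lit 1994197), (nat_lit 6380570)]) (PF.cons PF.nil (PF.cons PF.nil PF.nil)))))) (PF.cons (PF.cons (PF.leaf (nat_lit 8829932) (nat_lit 1988738) (nat_lit 40713369) (nat_lit 3743536) [(nat_lit 0), (nat_lit 1988738), (nat_lit 6354107)]) (PF.cons (PF.leaf (nat_lit 9123959) (nat_lit 480680) (nat_lit 40269824) (nat_lit 3738382) [(nat_lit 480680), (nat_lit 1990387), (nat_lit 6333994)]) (PF.cons (PF.leaf (nat_lit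 9420740) (nat_lit 483801) (nat_lit 39826452) (nat_lit 3732351) [(nat_lit 483801), (nat_lit 1991390), (nat_lit 6312728)]) (PF.cons PF.nil PF.nil)))) (PF.cons (PF.cons (PF.leaf (nat_lit 9655421) (nat_lit 1985104)
 (nat_lit 38962392) (nat_lit 3711814) [(nat_lit 0), (nat_lit 1985104), (nat_lit 6261989)]) (PF.cons PF.nil PF.nil)) (PF.cons PF.nil (PF.cons PF.nil (PF.cons PF.nil PF.nil)))))))))) (PF.cons (PF.cons (PF.cons (PF.leaf (nat_lit 6403228) (nat_lit 3700183) (nat_lit 44162987) (nat_lit 3700183) [(nat_lit 0), (nat_lit 0), (nat_lit 6415214)]) (PF.cons (PF.leaf (nat_lit 6664095) (nat_lit 429673) (nat_lit 43751870) (nat_lit 3704771) [(nat_lit 429673), (nat_lit 0), (nat_lit 6407499)]) (PF.cons (PF.leaf (nat_lit 6934444) (nat_lit 437688) (nat_lit 43330059) (nat_lit 3708377) [(nat_lit 437688), (nat_lit 0), (nat_lit 6398333)]) (PF.cons (PF.leaf (nat_lit 7212109) (nat_lit 444799) (nat_lit 42900304) (nat_lit 3710950) [(nat_lit 444799), (nat_lit 0), (nat_lit 6387719)]) (PF.cons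 (PF.leaf (nat_lit 7495798) (nat_lit 451145) (nat_lit 42464743) (nat_lit 3712466) [(nat_lit 451145), (nat_lit 0), (nat_lit 6375673)]) (PF.cons (PF.leaf (nat_lit 7784456) (nat_lit 456827) (nat_lit 42025082) (nat_lit 3712919) [(nat_lit 456827), (nat_lit 0), (nat_lit 6362223)]) (PF.cons (PF.leaf (nat_lit 8077232) (nat_lit 461926) (nat_lit 41582725) (nat_lit 3712317) [(nat_lit 461926), (nat_lit 0), (nat_lit 6347404)]) (PF.cons
 (PF.leaf (nat_lit 8373326) (nat_lit 466503) (nat_lit 41138839) (nat_lit 3710678) [(nat_lit 466503), (nat_lit 0), (nat_lit 6331257)]) (PF.cons (PF.leaf (nat_lit 8672160) (nat_lit 470609) (nat_lit 40694415) (nat_lit 3708026) [(nat_lit 470609), (nat_lit 0), (nat_lit 6313830)]) (PF.cons PF.nil PF.nil)))))))))) (PF.cons (PF.cons (PF.leaf (nat_lit 7210762) (nat_lit 1932677) (nat_lit 42376937) (nat_lit 3703406) [(nat_lit 0), (nat_lit 1932677), (nat_lit 6365263)]) (PF.cons (PF.leaf (nat_lit 7482063) (nat_lit 446685) (nat_lit 41961357) (nat_lit 3704037)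 [(nat_lit 446685), (nat_lit 1939089), (nat_lit 6352547)]) (PF.cons (PF.leaf (nat_lit 7760237) (nat_lit 452761) (nat_lit 41539463) (nat_lit 3703698) [(nat_lit 452761), (nat_lit 1944718), (nat_lit 6338469)]) (PF.cons (PF.leaf (nat_lit 8043598) (nat_lit 458159) (nat_lit 41113181) (nat_lit 3702383) [(nat_lit 458159), (nat_lit 1949565), (nat_lit 6323067)]) (PF.cons (PF.leaf (nat_lit 8331223) (nat_lit 462967) (nat_lit 40684038) (nat_lit 3700101) [(nat_lit 462967), (nat_lit 1953644), (nat_lit 6306386)]) (PF.cons (PF.leaf (nat_lit 8622254) (nat_lit 467254) (nat_lit 40253280) (nat_lit 3696869) [(nat_lit 467254), (nat_lit 1956972), (nat_lit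
 6288472)]) (PF.cons (PF.leaf (nat_lit 8916029) (nat_lit 471076) (nat_lit 39821938) (nat_lit 3692709) [(nat_lit 471076), (nat_lit 1959574), (nat_lit 6269376)]) (PF.cons PF.nil PF.nil)))))))) (PF.cons (PF.cons (PF.leaf (nat_lit 8019924) (nat_lit 1944859) (nat_lit 40635216) (nat_lit 3691750) [(nat_lit 0), (nat_lit 1944859), (nat_lit 6297375)]) (PF.cons (PF.leaf (nat_lit 8297092) (nat_lit 458792) (nat_lit 40223124) (nat_lit 3688885) [(nat_lit 458792), (nat_lit 1948521), (nat_lit 6280322)]) (PF.cons (PF.leaf (nat_lit 8579182) (nat_lit 463370) (nat_lit 39807791) (nat_lit 3685129) [(nat_lit 463370), (nat_lit 1951483), (nat_lit 6262061)]) (PF.cons (PF.leaf (nat_lit 8864875) (nat_lit 467420) (nat_lit 39390591) (nat_lit 3680498) [(nat_lit 467420), (nat_lit 1953760), (nat_lit 6242646)]) (PF.cons (PF.leaf (nat_lit 9153414) (nat_lit 471004) (nat_lit 38972633) (nat_lit 3675016) [(nat_lit 471004), (nat_lit 1955373), (nat_lit 6222132)]) (PF.cons PF.nil PF.nil)))))) (PF.cons (PF.cons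 (PF.leaf (nat_lit 8822081) (nat_lit 1947643) (nat_lit 38953664) (nat_lit 3667706) [(nat_lit 0), (nat_lit 1947643), (nat_lit 6214836)]) (PF.cons (PF.leaf (nat_lit 9101710) (nat_lit 467042) (nat_lit 38550437) (nat_lit
 3661857) [(nat_lit 467042), (nat_lit 1948986), (nat_lit 6194171)]) (PF.cons (PF.leaf (nat_lit 9384793) (nat_lit 470434) (nat_lit 38146136) (nat_lit 3655223) [(nat_lit 470434), (nat_lit 1949718), (nat_lit 6172475)]) (PF.cons (PF.leaf (nat_lit 9670228) (nat_lit 473405) (nat_lit 37741752) (nat_lit 3647831) [(nat_lit 473405), (nat_lit 1949862), (nat_lit 6149808)]) PF.nil)))) (PF.cons (PF.cons (PF.leaf (nat_lit 9611074) (nat_lit 1942768) (nat_lit 37341942) (nat_lit 3633580) [(nat_lit 0), (nat_lit 1942768), (nat_lit 6120738)]) (PF.cons (PF.leaf (nat_lit 9890614) (nat_lit 472215) (nat_lit 36951130) (nat_lit 3625250) [(nat_lit 472215), (nat_lit 1942178), (nat_lit 6097167)]) PF.nil)) (PF.cons PF.nil (PF.cons PF.nil (PF.cons PF.nil PF.nil)))))))) (PF.cons (PF.cons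 (PF.cons (PF.leaf (nat_lit 8049340) (nat_lit 3617225) (nat_lit 38851710) (nat_lit 3617225) [(nat_lit 0), (nat_lit 0), (nat_lit 6159969)]) (PF.cons (PF.leaf (nat_lit 8310190) (nat_lit 443299) (nat_lit 38481969) (nat_lit 3613707) [(nat_lit 443299), (nat_lit 0), (nat_lit 6142459)]) (PF.cons (PF.leaf (nat_lit 8577132) (nat_lit 448495) (nat_lit 38107176) (nat_lit 3609373) [(nat_lit 448495), (nat_lit 0), (nat_lit 6123818)]) (PF.cons
 (PF.leaf (nat_lit 8848585) (nat_lit 453041) (nat_lit 37729002) (nat_lit 3604238) [(nat_lit 453041), (nat_lit 0), (nat_lit 6104111)]) (PF.cons (PF.leaf (nat_lit 9123616) (nat_lit 457030) (nat_lit 37348764) (nat_lit 3598326) [(nat_lit 457030), (nat_lit 0), (nat_lit 6083400)]) (PF.cons (PF.leaf (nat_lit 9401513) (nat_lit 460532) (nat_lit 36967520) (nat_lit 3591663) [(nat_lit 460532), (nat_lit 0), (nat_lit 6061741)]) (PF.cons PF.nil (PF.cons PF.nil PF.nil)))))))) (PF.cons (PF.cons (PF.leaf (nat_lit 8812564) (nat_lit 1905225) (nat_lit 37311815)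 (nat_lit 3590689) [(nat_lit 0), (nat_lit 1905225), (nat_lit 6075270)]) (PF.cons (PF.leaf (nat_lit 9077826) (nat_lit 452439) (nat_lit 36946787) (nat_lit 3584530) [(nat_lit 452439), (nat_lit 1906524), (nat_lit 6054632)]) (PF.cons (PF.leaf (nat_lit 9347428) (nat_lit 456275) (nat_lit 36579265) (nat_lit 3577647) [(nat_lit 456275), (nat_lit 1907227), (nat_lit 6033030)]) (PF.cons (PF.leaf (nat_lit 9620112) (nat_lit 459614) (nat_lit 36210428) (nat_lit 3570065) [(nat_lit 459614), (nat_lit 1907356), (nat_lit 6010529)]) (PF.cons (PF.leaf (nat_lit 9895174) (nat_lit 462519) (nat_lit 35841220) (nat_lit 3561814) [(nat_lit 462519), (nat_lit 1906934), (nat_lit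
 5987191)]) (PF.cons PF.nil PF.nil)))))) (PF.cons (PF.cons (PF.leaf (nat_lit 9567126) (nat_lit 1899920) (nat_lit 35829682) (nat_lit 3555383) [(nat_lit 0), (nat_lit 1899920), (nat_lit 5980976)]) (PF.cons (PF.leaf (nat_lit 9833904) (nat_lit 458284) (nat_lit 35473481) (nat_lit 3547016) [(nat_lit 458284), (nat_lit 1899384), (nat_lit 5957815)]) (PF.cons (PF.leaf (nat_lit 10103752) (nat_lit 461061) (nat_lit 35116561) (nat_lit 3538026) [(nat_lit 461061), (nat_lit 1898339), (nat_lit 5933855)]) (PF.cons PF.nil PF.nil)))) (PF.cons (PF.cons (PF.leaf (nat_lit 10308234) (nat_lit 1888867) (nat_lit 34411544) (nat_lit 3513077) [(nat_lit 0), (nat_lit 1888867), (nat_lit 5879397)]) (PF.cons PF.nil PF.nil)) (PF.cons PF.nil (PF.cons PF.nil PF.nil)))))) (PF.cons (PF.cons (PF.cons (PF.leaf (nat_lit 9526343) (nat_lit 3477666) (nat_lit 34414522) (nat_lit 3477666) [(nat_lit 0), (nat_lit 0), (nat_lit 5843324)]) (PF.cons (PF.leaf (nat_lit 9780238) (nat_lit 443660) (nat_lit 34091086) (nat_lit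 3469498) [(nat_lit 443660), (nat_lit 0), (nat_lit 5820913)]) (PF.cons (PF.leaf (nat_lit 10038061) (nat_lit 446927) (nat_lit 33765636) (nat_lit 3460731) [(nat_lit 446927), (nat_lit 0), (nat_lit 5797717)]) (PF.cons (PF.leaf
 (nat_lit 10298562) (nat_lit 449728) (nat_lit 33439189) (nat_lit 3451398) [(nat_lit 449728), (nat_lit 0), (nat_lit 5773807)]) (PF.cons PF.nil (PF.cons PF.nil PF.nil)))))) (PF.cons (PF.cons (PF.leaf (nat_lit 10238247) (nat_lit 1846218) (nat_lit 33106528) (nat_lit 3435917) [(nat_lit 0), (nat_lit 1846218), (nat_lit 5744029)]) (PF.cons (PF.leaf (nat_lit 10493093) (nat_lit 447781) (nat_lit 32791303) (nat_lit 3426092) [(nat_lit 447781), (nat_lit 1844439), (nat_lit 5719839)]) (PF.cons PF.nil (PF.cons PF.nil PF.nil)))) (PF.cons (PF.cons (PF.leaf (nat_lit 10937010) (nat_lit 1831314) (nat_lit 31855564) (nat_lit 3389287) [(nat_lit 0), (nat_lit 1831314), (nat_lit 5640266)]) (PF.cons PF.nil PF.nil)) (PF.cons PF.nil PF.nil)))) (PF.cons (PF.cons (PF.cons (PF.leaf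 (nat_lit 10848319) (nat_lit 3314996) (nat_lit 30723477) (nat_lit 3314996) [(nat_lit 0), (nat_lit 0), (nat_lit 5511723)]) (PF.cons (PF.leaf (nat_lit 11092134) (nat_lit 436362) (nat_lit 30443631) (nat_lit 3304400) [(nat_lit 436362), (nat_lit 0), (nat_lit 5487403)]) PF.nil)) (PF.cons PF.nil PF.nil)) (PF.cons PF.nil (PF.cons PF.nil (PF.cons PF.nil (PF.cons PF.nil (PF.cons PF.nil PF.nil))))))))))))

def p14_17_0_0 : pfC (piC [(nat_lit 40745421), (nat_lit 25257288), (nat_lit 16296408)] (nat_lit 20325581)) p14_17_0 (nat_lit 3) (nat_lit 0) (nat_lit 1) = true := by decide +kernel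
def p14_17_0_1 : pfC (piC [(nat_lit 40745421), (nat_lit 25257288), (nat_lit 16296408)] (nat_lit 20325581)) p14_17_0 (nat_lit 3) (nat_lit 1) (nat_lit 2) = true := by decide +kernel
def p14_17_0_2 : pfC (piC [(nat_lit 40745421), (nat_lit 25257288), (nat_lit 16296408)] (nat_lit 20325581)) p14_17_0 (nat_lit 3) (nat_lit 2) (nat_lit 3) = true := by decide +kernel
def p14_17_0_3 : pfC (piC [(nat_lit 40745421), (nat_lit 25257288), (nat_lit 16296408)] (nat_lit 20325581)) p14_17_0 (nat_lit 3) (nat_lit 3) (nat_lit 4) = true := by decide +kernel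
def p14_17_0_4 : pfC (piC [(nat_lit 40745421), (nat_lit 25257288), (nat_lit 16296408)] (nat_lit 20325581)) p14_17_0 (nat_lit 3) (nat_lit 4) (nat_lit 5) = true := by decide +kernel
def p14_17_0_5 : pfC (piC [(nat_lit 40745421), (nat_lit 25257288), (nat_lit 16296408)] (nat_lit 20325581)) p14_17_0 (nat_lit 3) (nat_lit 5) (nat_lit 6) = true := by decide +kernel
def p14_17_0_6 : pfC (piC [(nat_lit 40745421), (nat_lit 25257288), (nat_lit 16296408)] (nat_lit 20325581)) p14_17_0 (nat_lit 3) (nat_lit 6) (nat_lit 7) = true := by decide +kernel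
def p14_17_0_7 : pfC (piC [(nat_lit 40745421), (nat_lit 25257288), (nat_lit 16296408)] (nat_lit 20325581)) p14_17_0 (nat_lit 3) (nat_lit 7) (nat_lit 8) = true := by decide +kernel
def p14_17_0_8 : pfC (piC [(nat_lit 40745421), (nat_lit 25257288), (nat_lit 16296408)] (nat_lit 20325581)) p14_17_0 (nat_lit 3) (nat_lit 8) (nat_lit 9) = true := by decide +kernel
def p14_17_0_9 : pfC (piC [(nat_lit 40745421), (nat_lit 25257288), (nat_lit 16296408)] (nat_lit 20325581)) p14_17_0 (nat_lit 3) (nat_lit 9) (nat_lit 10) = true := by decide +kernel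
def p14_17_0_10 : pfC (piC [(nat_lit 40745421), (nat_lit 25257288), (nat_lit 16296408)] (nat_lit 20325581)) p14_17_0 (nat_lit 3) (nat_lit 10) (nat_lit 11) = true := by decide +kernel
def p14_17_0_11 : pfC (piC [(nat_lit 40745421), (nat_lit 25257288), (nat_lit 16296408)] (nat_lit 20325581)) p14_17_0 (nat_lit 3) (nat_lit 11) (nat_lit 12) = true := by decide +kernel
def p14_17_0_12 : pfC (piC [(nat_lit 40745421), (nat_lit 25257288), (nat_lit 16296408)] (nat_lit 20325581)) p14_17_0 (nat_lit 3) (nat_lit 12) (nat_lit 13) = true := by decide +kernel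
def p14_17_0_13 : pfC (piC [(nat_lit 40745421), (nat_lit 25257288), (nat_lit 16296408)] (nat_lit 20325581)) p14_17_0 (nat_lit 3) (nat_lit 13) (nat_lit 14) = true := by decide +kernel
def p14_17_0_14 : pfC (piC [(nat_lit 40745421), (nat_lit 25257288), (nat_lit 16296408)] (nat_lit 20325581)) p14_17_0 (nat_lit 3) (nat_lit 14) (nat_lit 15) = true := by decide +kernel
def p14_17_0_15 : pfC (piC [(nat_lit 40745421), (nat_lit 25257288), (nat_lit 16296408)] (nat_lit 20325581)) p14_17_0 (nat_lit 3) (nat_lit 15) (nat_lit 16) = true := by decide +kernel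
def p14_17_0_16 : pfC (piC [(nat_lit 40745421), (nat_lit 25257288), (nat_lit 16296408)] (nat_lit 20325581)) p14_17_0 (nat_lit 3) (nat_lit 16) (nat_lit 17) = true := by decide +kernel
def p14_17_0_17 : pfC (piC [(nat_lit 40745421), (nat_lit 25257288), (nat_lit 16296408)] (nat_lit 20325581)) p14_17_0 (nat_lit 3) (nat_lit 17) (nat_lit 18) = true := by decide +kernel
def p14_17_0_18 : pfC (piC [(nat_lit 40745421), (nat_lit 25257288), (nat_lit 16296408)] (nat_lit 20325581)) p14_17_0 (nat_lit 3) (nat_lit 18) (nat_lit 19) = true := by decide +kernel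
def p14_17_0_19 : pfC (piC [(nat_lit 40745421), (nat_lit 25257288), (nat_lit 16296408)] (nat_lit 20325581)) p14_17_0 (nat_lit 3) (nat_lit 19) (nat_lit 20) = true := by decide +kernel
def p14_17_0_20 : pfC (piC [(nat_lit 40745421), (nat_lit 25257288), (nat_lit 16296408)] (nat_lit 20325581)) p14_17_0 (nat_lit 3) (nat_lit 20) (nat_lit 21) = true := by decide +kernel
def p14_17_0_21 : pfC (piC [(nat_lit 40745421), (nat_lit 25257288), (nat_lit 16296408)] (nat_lit 20325581)) p14_17_0 (nat_lit 3) (nat_lit 21) (nat_lit 22) = true := by decide +kernel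
def p14_17_0_22 : pfC (piC [(nat_lit 40745421), (nat_lit 25257288), (nat_lit 16296408)] (nat_lit 20325581)) p14_17_0 (nat_lit 3) (nat_lit 22) (nat_lit 23) = true := by decide +kernel
def p14_17_0_23 : pfC (piC [(nat_lit 40745421), (nat_lit 25257288), (nat_lit 16296408)] (nat_lit 20325581)) p14_17_0 (nat_lit 3) (nat_lit 23) (nat_lit 24) = true := by decide +kernel
def p14_17_0_24 : pfC (piC [(nat_lit 40745421), (nat_lit 25257288), (nat_lit 16296408)] (nat_lit 20325581)) p14_17_0 (nat_lit 3) (nat_lit 24) (nat_lit 25) = true := by decide +kernel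
def p14_17_0_25 : pfC (piC [(nat_lit 40745421), (nat_lit 25257288), (nat_lit 16296408)] (nat_lit 20325581)) p14_17_0 (nat_lit 3) (nat_lit 25) (nat_lit 26) = true := by decide +kernel
def p14_17_0_26 : pfC (piC [(nat_lit 40745421), (nat_lit 25257288), (nat_lit 16296408)] (nat_lit 20325581)) p14_17_0 (nat_lit 3) (nat_lit 26) (nat_lit 27) = true := by decide +kernel
def p14_17_0_27 : pfC (piC [(nat_lit 40745421), (nat_lit 25257288), (nat_lit 16296408)] (nat_lit 20325581)) p14_17_0 (nat_lit 3) (nat_lit 27) (nat_lit 28) = true := by decide +kernel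
def p14_17_0_28 : pfC (piC [(nat_lit 40745421), (nat_lit 25257288), (nat_lit 16296408)] (nat_lit 20325581)) p14_17_0 (nat_lit 3) (nat_lit 28) (nat_lit 29) = true := by decide +kernel
def p14_17_0_29 : pfC (piC [(nat_lit 40745421), (nat_lit 25257288), (nat_lit 16296408)] (nat_lit 20325581)) p14_17_0 (nat_lit 3) (nat_lit 29) (nat_lit 30) = true := by decide +kernel
def p14_17_0_30 : pfC (piC [(nat_lit 40745421), (nat_lit 25257288), (nat_lit 16296408)] (nat_lit 20325581)) p14_17_0 (nat_lit 3) (nat_lit 30) (nat_lit 31) = true := by decide +kernel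
def p14_17_0_31 : pfC (piC [(nat_lit 40745421), (nat_lit 25257288), (nat_lit 16296408)] (nat_lit 20325581)) p14_17_0 (nat_lit 3) (nat_lit 31) (nat_lit 32) = true := by decide +kernel
def p14_17_0_32 : pfC (piC [(nat_lit 40745421), (nat_lit 25257288), (nat_lit 16296408)] (nat_lit 20325581)) p14_17_0 (nat_lit 3) (nat_lit 32) (nat_lit 33) = true := by decide +kernel
def p14_17_0_33 : pfC (piC [(nat_lit 40745421), (nat_lit 25257288), (nat_lit 16296408)] (nat_lit 20325581)) p14_17_0 (nat_lit 3) (nat_lit 33) (nat_lit 34) = true := by decide +kernel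
def p14_17_0_34 : pfC (piC [(nat_lit 40745421), (nat_lit 25257288), (nat_lit 16296408)] (nat_lit 20325581)) p14_17_0 (nat_lit 3) (nat_lit 34) (nat_lit 35) = true := by decide +kernel
def p14_17_0_35 : pfC (piC [(nat_lit 40745421), (nat_lit 25257288), (nat_lit 16296408)] (nat_lit 20325581)) p14_17_0 (nat_lit 3) (nat_lit 35) (nat_lit 36) = true := by decide +kernel
def p14_17_0_36 : pfC (piC [(nat_lit 40745421), (nat_lit 25257288), (nat_lit 16296408)] (nat_lit 20325581)) p14_17_0 (nat_lit 3) (nat_lit 36) (nat_lit 37) = true := by decide +kernel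
def p14_17_0_37 : pfC (piC [(nat_lit 40745421), (nat_lit 25257288), (nat_lit 16296408)] (nat_lit 20325581)) p14_17_0 (nat_lit 3) (nat_lit 37) (nat_lit 38) = true := by decide +kernel
def p14_17_0_38 : pfC (piC [(nat_lit 40745421), (nat_lit 25257288), (nat_lit 16296408)] (nat_lit 20325581)) p14_17_0 (nat_lit 3) (nat_lit 38) (nat_lit 39) = true := by decide +kernel
def p14_17_0_39 : pfC (piC [(nat_lit 40745421), (nat_lit 25257288), (nat_lit 16296408)] (nat_lit 20325581)) p14_17_0 (nat_lit 3) (nat_lit 39) (nat_lit 40) = true := by decide +kernel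
def p14_17_0_40 : pfC (piC [(nat_lit 40745421), (nat_lit 25257288), (nat_lit 16296408)] (nat_lit 20325581)) p14_17_0 (nat_lit 3) (nat_lit 40) (nat_lit 41) = true := by decide +kernel
def p14_17_0_41 : pfC (piC [(nat_lit 40745421), (nat_lit 25257288), (nat_lit 16296408)] (nat_lit 20325581)) p14_17_0 (nat_lit 3) (nat_lit 41) (nat_lit 42) = true := by decide +kernel
def p14_17_0_42 : pfC (piC [(nat_lit 40745421), (nat_lit 25257288), (nat_lit 16296408)] (nat_lit 20325581)) p14_17_0 (nat_lit 3) (nat_lit 42) (nat_lit 43) = true := by decide +kernel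
def p14_17_0_43 : pfC (piC [(nat_lit 40745421), (nat_lit 25257288), (nat_lit 16296408)] (nat_lit 20325581)) p14_17_0 (nat_lit 3) (nat_lit 43) (nat_lit 44) = true := by decide +kernel
def p14_17_0_44 : pfC (piC [(nat_lit 40745421), (nat_lit 25257288), (nat_lit 16296408)] (nat_lit 20325581)) p14_17_0 (nat_lit 3) (nat_lit 44) (nat_lit 45) = true := by decide +kernel
def p14_17_0_45 : pfC (piC [(nat_lit 40745421), (nat_lit 25257288), (nat_lit 16296408)] (nat_lit 20325581)) p14_17_0 (nat_lit 3) (nat_lit 45) (nat_lit 46) = true := by decide +kernel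
def p14_17_0_46 : pfC (piC [(nat_lit 40745421), (nat_lit 25257288), (nat_lit 16296408)] (nat_lit 20325581)) p14_17_0 (nat_lit 3) (nat_lit 46) (nat_lit 47) = true := by decide +kernel
def p14_17_0_47 : pfC (piC [(nat_lit 40745421), (nat_lit 25257288), (nat_lit 16296408)] (nat_lit 20325581)) p14_17_0 (nat_lit 3) (nat_lit 47) (nat_lit 48) = true := by decide +kernel
def p14_17_0_48 : pfC (piC [(nat_lit 40745421), (nat_lit 25257288), (nat_lit 16296408)] (nat_lit 20325581)) p14_17_0 (nat_lit 3) (nat_lit 48) (nat_lit 49) = true := by decide +kernel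
def p14_17_0_49 : pfC (piC [(nat_lit 40745421), (nat_lit 25257288), (nat_lit 16296408)] (nat_lit 20325581)) p14_17_0 (nat_lit 3) (nat_lit 49) (nat_lit 50) = true := by decide +kernel
def p14_17_0_50 : pfC (piC [(nat_lit 40745421), (nat_lit 25257288), (nat_lit 16296408)] (nat_lit 20325581)) p14_17_0 (nat_lit 3) (nat_lit 50) (nat_lit 51) = true := by decide +kernel
def p14_17_0_51 : pfC (piC [(nat_lit 40745421), (nat_lit 25257288), (nat_lit 16296408)] (nat_lit 20325581)) p14_17_0 (nat_lit 3) (nat_lit 51) (nat_lit 52) = true := by decide +kernel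
def p14_17_0_52 : pfC (piC [(nat_lit 40745421), (nat_lit 25257288), (nat_lit 16296408)] (nat_lit 20325581)) p14_17_0 (nat_lit 3) (nat_lit 52) (nat_lit 53) = true := by decide +kernel
def p14_17_0_53 : pfC (piC [(nat_lit 40745421), (nat_lit 25257288), (nat_lit 16296408)] (nat_lit 20325581)) p14_17_0 (nat_lit 3) (nat_lit 53) (nat_lit 54) = true := by decide +kernel
def p14_17_0_54 : pfC (piC [(nat_lit 40745421), (nat_lit 25257288), (nat_lit 16296408)] (nat_lit 20325581)) p14_17_0 (nat_lit 3) (nat_lit 54) (nat_lit 55) = true := by decide +kernel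
def p14_17_0_55 : pfC (piC [(nat_lit 40745421), (nat_lit 25257288), (nat_lit 16296408)] (nat_lit 20325581)) p14_17_0 (nat_lit 3) (nat_lit 55) (nat_lit 56) = true := by decide +kernel
def p14_17_0_56 : pfC (piC [(nat_lit 40745421), (nat_lit 25257288), (nat_lit 16296408)] (nat_lit 20325581)) p14_17_0 (nat_lit 3) (nat_lit 56) (nat_lit 57) = true := by decide +kernel
def p14_17_0_57 : pfC (piC [(nat_lit 40745421), (nat_lit 25257288), (nat_lit 16296408)] (nat_lit 20325581)) p14_17_0 (nat_lit 3) (nat_lit 57) (nat_lit 58) = true := by decide +kernel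
def p14_17_0_58 : pfC (piC [(nat_lit 40745421), (nat_lit 25257288), (nat_lit 16296408)] (nat_lit 20325581)) p14_17_0 (nat_lit 3) (nat_lit 58) (nat_lit 59) = true := by decide +kernel
def p14_17_0_59 : pfC (piC [(nat_lit 40745421), (nat_lit 25257288), (nat_lit 16296408)] (nat_lit 20325581)) p14_17_0 (nat_lit 3) (nat_lit 59) (nat_lit 60) = true := by decide +kernel
def p14_17_0_60 : pfC (piC [(nat_lit 40745421), (nat_lit 25257288), (nat_lit 16296408)] (nat_lit 20325581)) p14_17_0 (nat_lit 3) (nat_lit 60) (nat_lit 61) = true := by decide +kernel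
def p14_17_0_61 : pfC (piC [(nat_lit 40745421), (nat_lit 25257288), (nat_lit 16296408)] (nat_lit 20325581)) p14_17_0 (nat_lit 3) (nat_lit 61) (nat_lit 62) = true := by decide +kernel
def p14_17_0_62 : pfC (piC [(nat_lit 40745421), (nat_lit 25257288), (nat_lit 16296408)] (nat_lit 20325581)) p14_17_0 (nat_lit 3) (nat_lit 62) (nat_lit 63) = true := by decide +kernel
def p14_17_0_63 : pfC (piC [(nat_lit 40745421), (nat_lit 25257288), (nat_lit 16296408)] (nat_lit 20325581)) p14_17_0 (nat_lit 3) (nat_lit 63) (nat_lit 64) = true := by decide +kernel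
def p14_17_0_64 : pfC (piC [(nat_lit 40745421), (nat_lit 25257288), (nat_lit 16296408)] (nat_lit 20325581)) p14_17_0 (nat_lit 3) (nat_lit 64) (nat_lit 65) = true := by decide +kernel
def p14_17_0_65 : pfC (piC [(nat_lit 40745421), (nat_lit 25257288), (nat_lit 16296408)] (nat_lit 20325581)) p14_17_0 (nat_lit 3) (nat_lit 65) (nat_lit 66) = true := by decide +kernel
def p14_17_0_66 : pfC (piC [(nat_lit 40745421), (nat_lit 25257288), (nat_lit 16296408)] (nat_lit 20325581)) p14_17_0 (nat_lit 3) (nat_lit 66) (nat_lit 67) = true := by decide +kernel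
def p14_17_0_67 : pfC (piC [(nat_lit 40745421), (nat_lit 25257288), (nat_lit 16296408)] (nat_lit 20325581)) p14_17_0 (nat_lit 3) (nat_lit 67) (nat_lit 68) = true := by decide +kernel
def p14_17_0_68 : pfC (piC [(nat_lit 40745421), (nat_lit 25257288), (nat_lit 16296408)] (nat_lit 20325581)) p14_17_0 (nat_lit 3) (nat_lit 68) (nat_lit 69) = true := by decide +kernel
def p14_17_0_69 : pfC (piC [(nat_lit 40745421), (nat_lit 25257288), (nat_lit 16296408)] (nat_lit 20325581)) p14_17_0 (nat_lit 3) (nat_lit 69) (nat_lit 70) = true := by decide +kernel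
def p14_17_0_70 : pfC (piC [(nat_lit 40745421), (nat_lit 25257288), (nat_lit 16296408)] (nat_lit 20325581)) p14_17_0 (nat_lit 3) (nat_lit 70) (nat_lit 71) = true := by decide +kernel
def p14_17_0_71 : pfC (piC [(nat_lit 40745421), (nat_lit 25257288), (nat_lit 16296408)] (nat_lit 20325581)) p14_17_0 (nat_lit 3) (nat_lit 71) (nat_lit 72) = true := by decide +kernel
def p14_17_0_72 : pfC (piC [(nat_lit 40745421), (nat_lit 25257288), (nat_lit 16296408)] (nat_lit 20325581)) p14_17_0 (nat_lit 3) (nat_lit 72) (nat_lit 73) = true := by decide +kernel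
def p14_17_0_73 : pfC (piC [(nat_lit 40745421), (nat_lit 25257288), (nat_lit 16296408)] (nat_lit 20325581)) p14_17_0 (nat_lit 3) (nat_lit 73) (nat_lit 74) = true := by decide +kernel
def p14_17_0_74 : pfC (piC [(nat_lit 40745421), (nat_lit 25257288), (nat_lit 16296408)] (nat_lit 20325581)) p14_17_0 (nat_lit 3) (nat_lit 74) (nat_lit 75) = true := by decide +kernel
def p14_17_0_75 : pfC (piC [(nat_lit 40745421), (nat_lit 25257288), (nat_lit 16296408)] (nat_lit 20325581)) p14_17_0 (nat_lit 3) (nat_lit 75) (nat_lit 76) = true := by decide +kernel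
def p14_17_0_76 : pfC (piC [(nat_lit 40745421), (nat_lit 25257288), (nat_lit 16296408)] (nat_lit 20325581)) p14_17_0 (nat_lit 3) (nat_lit 76) (nat_lit 77) = true := by decide +kernel
def p14_17_0_77 : pfC (piC [(nat_lit 40745421), (nat_lit 25257288), (nat_lit 16296408)] (nat_lit 20325581)) p14_17_0 (nat_lit 3) (nat_lit 77) (nat_lit 78) = true := by decide +kernel
def p14_17_0_78 : pfC (piC [(nat_lit 40745421), (nat_lit 25257288), (nat_lit 16296408)] (nat_lit 20325581)) p14_17_0 (nat_lit 3) (nat_lit 78) (nat_lit 79) = true := by decide +kernel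
def p14_17_0_79 : pfC (piC [(nat_lit 40745421), (nat_lit 25257288), (nat_lit 16296408)] (nat_lit 20325581)) p14_17_0 (nat_lit 3) (nat_lit 79) (nat_lit 80) = true := by decide +kernel
def p14_17_0_80 : pfC (piC [(nat_lit 40745421), (nat_lit 25257288), (nat_lit 16296408)] (nat_lit 20325581)) p14_17_0 (nat_lit 3) (nat_lit 80) (nat_lit 81) = true := by decide +kernel
def p14_17_0_81 : pfC (piC [(nat_lit 40745421), (nat_lit 25257288), (nat_lit 16296408)] (nat_lit 20325581)) p14_17_0 (nat_lit 3) (nat_lit 81) (nat_lit 82) = true := by decide +kernel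
def p14_17_0_82 : pfC (piC [(nat_lit 40745421), (nat_lit 25257288), (nat_lit 16296408)] (nat_lit 20325581)) p14_17_0 (nat_lit 3) (nat_lit 82) (nat_lit 83) = true := by decide +kernel
def p14_17_0_83 : pfC (piC [(nat_lit 40745421), (nat_lit 25257288), (nat_lit 16296408)] (nat_lit 20325581)) p14_17_0 (nat_lit 3) (nat_lit 83) (nat_lit 84) = true := by decide +kernel
def p14_17_0_84 : pfC (piC [(nat_lit 40745421), (nat_lit 25257288), (nat_lit 16296408)] (nat_lit 20325581)) p14_17_0 (nat_lit 3) (nat_lit 84) (nat_lit 85) = true := by decide +kernel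
def p14_17_0_85 : pfC (piC [(nat_lit 40745421), (nat_lit 25257288), (nat_lit 16296408)] (nat_lit 20325581)) p14_17_0 (nat_lit 3) (nat_lit 85) (nat_lit 86) = true := by decide +kernel
def p14_17_0_86 : pfC (piC [(nat_lit 40745421), (nat_lit 25257288), (nat_lit 16296408)] (nat_lit 20325581)) p14_17_0 (nat_lit 3) (nat_lit 86) (nat_lit 87) = true := by decide +kernel
def p14_17_0_87 : pfC (piC [(nat_lit 40745421), (nat_lit 25257288), (nat_lit 16296408)] (nat_lit 20325581)) p14_17_0 (nat_lit 3) (nat_lit 87) (nat_lit 88) = true := by decide +kernel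
def p14_17_0_88 : pfC (piC [(nat_lit 40745421), (nat_lit 25257288), (nat_lit 16296408)] (nat_lit 20325581)) p14_17_0 (nat_lit 3) (nat_lit 88) (nat_lit 89) = true := by decide +kernel
def p14_17_0_89 : pfC (piC [(nat_lit 40745421), (nat_lit 25257288), (nat_lit 16296408)] (nat_lit 20325581)) p14_17_0 (nat_lit 3) (nat_lit 89) (nat_lit 90) = true := by decide +kernel
def p14_17_0_90 : pfC (piC [(nat_lit 40745421), (nat_lit 25257288), (nat_lit 16296408)] (nat_lit 20325581)) p14_17_0 (nat_lit 3) (nat_lit 90) (nat_lit 91) = true := by decide +kernel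
def p14_17_0_91 : pfC (piC [(nat_lit 40745421), (nat_lit 25257288), (nat_lit 16296408)] (nat_lit 20325581)) p14_17_0 (nat_lit 3) (nat_lit 91) (nat_lit 92) = true := by decide +kernel
def p14_17_0_92 : pfC (piC [(nat_lit 40745421), (nat_lit 25257288), (nat_lit 16296408)] (nat_lit 20325581)) p14_17_0 (nat_lit 3) (nat_lit 92) (nat_lit 93) = true := by decide +kernel
def p14_17_0_93 : pfC (piC [(nat_lit 40745421), (nat_lit 25257288), (nat_lit 16296408)] (nat_lit 20325581)) p14_17_0 (nat_lit 3) (nat_lit 93) (nat_lit 94) = true := by decide +kernel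
def p14_17_0_94 : pfC (piC [(nat_lit 40745421), (nat_lit 25257288), (nat_lit 16296408)] (nat_lit 20325581)) p14_17_0 (nat_lit 3) (nat_lit 94) (nat_lit 95) = true := by decide +kernel
def p14_17_0_95 : pfC (piC [(nat_lit 40745421), (nat_lit 25257288), (nat_lit 16296408)] (nat_lit 20325581)) p14_17_0 (nat_lit 3) (nat_lit 95) (nat_lit 96) = true := by decide +kernel
def p14_17_0_96 : pfC (piC [(nat_lit 40745421), (nat_lit 25257288), (nat_lit 16296408)] (nat_lit 20325581)) p14_17_0 (nat_lit 3) (nat_lit 96) (nat_lit 97) = true := by decide +kernel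
def p14_17_0_97 : pfC (piC [(nat_lit 40745421), (nat_lit 25257288), (nat_lit 16296408)] (nat_lit 20325581)) p14_17_0 (nat_lit 3) (nat_lit 97) (nat_lit 98) = true := by decide +kernel
def p14_17_0_98 : pfC (piC [(nat_lit 40745421), (nat_lit 25257288), (nat_lit 16296408)] (nat_lit 20325581)) p14_17_0 (nat_lit 3) (nat_lit 98) (nat_lit 99) = true := by decide +kernel
def p14_17_0_99 : pfC (piC [(nat_lit 40745421), (nat_lit 25257288), (nat_lit 16296408)] (nat_lit 20325581)) p14_17_0 (nat_lit 3) (nat_lit 99) (nat_lit 100) = true := by decide +kernel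
def p14_17_0_100 : pfC (piC [(nat_lit 40745421), (nat_lit 25257288), (nat_lit 16296408)] (nat_lit 20325581)) p14_17_0 (nat_lit 3) (nat_lit 100) (nat_lit 101) = true := by decide +kernel
def p14_17_0_101 : pfC (piC [(nat_lit 40745421), (nat_lit 25257288), (nat_lit 16296408)] (nat_lit 20325581)) p14_17_0 (nat_lit 3) (nat_lit 101) (nat_lit 102) = true := by decide +kernel
def p14_17_0_102 : pfC (piC [(nat_lit 40745421), (nat_lit 25257288), (nat_lit 16296408)] (nat_lit 20325581)) p14_17_0 (nat_lit 3) (nat_lit 102) (nat_lit 103) = true := by decide +kernel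
def p14_17_0_103 : pfC (piC [(nat_lit 40745421), (nat_lit 25257288), (nat_lit 16296408)] (nat_lit 20325581)) p14_17_0 (nat_lit 3) (nat_lit 103) (nat_lit 104) = true := by decide +kernel
def p14_17_0_104 : pfC (piC [(nat_lit 40745421), (nat_lit 25257288), (nat_lit 16296408)] (nat_lit 20325581)) p14_17_0 (nat_lit 3) (nat_lit 104) (nat_lit 105) = true := by decide +kernel
def p14_17_0_105 : pfC (piC [(nat_lit 40745421), (nat_lit 25257288), (nat_lit 16296408)] (nat_lit 20325581)) p14_17_0 (nat_lit 3) (nat_lit 105) (nat_lit 106) = true := by decide +kernel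
def p14_17_0_106 : pfC (piC [(nat_lit 40745421), (nat_lit 25257288), (nat_lit 16296408)] (nat_lit 20325581)) p14_17_0 (nat_lit 3) (nat_lit 106) (nat_lit 107) = true := by decide +kernel
def p14_17_0_107 : pfC (piC [(nat_lit 40745421), (nat_lit 25257288), (nat_lit 16296408)] (nat_lit 20325581)) p14_17_0 (nat_lit 3) (nat_lit 107) (nat_lit 108) = true := by decide +kernel
def p14_17_0_108 : pfC (piC [(nat_lit 40745421), (nat_lit 25257288), (nat_lit 16296408)] (nat_lit 20325581)) p14_17_0 (nat_lit 3) (nat_lit 108) (nat_lit 109) = true := by decide +kernel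
def p14_17_0_109 : pfC (piC [(nat_lit 40745421), (nat_lit 25257288), (nat_lit 16296408)] (nat_lit 20325581)) p14_17_0 (nat_lit 3) (nat_lit 109) (nat_lit 110) = true := by decide +kernel
def p14_17_0_110 : pfC (piC [(nat_lit 40745421), (nat_lit 25257288), (nat_lit 16296408)] (nat_lit 20325581)) p14_17_0 (nat_lit 3) (nat_lit 110) (nat_lit 111) = true := by decide +kernel
def p14_17_0_111 : pfC (piC [(nat_lit 40745421), (nat_lit 25257288), (nat_lit 16296408)] (nat_lit 20325581)) p14_17_0 (nat_lit 3) (nat_lit 111) (nat_lit 112) = true := by decide +kernel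
def p14_17_0_112 : pfC (piC [(nat_lit 40745421), (nat_lit 25257288), (nat_lit 16296408)] (nat_lit 20325581)) p14_17_0 (nat_lit 3) (nat_lit 112) (nat_lit 113) = true := by decide +kernel
def p14_17_0_113 : pfC (piC [(nat_lit 40745421), (nat_lit 25257288), (nat_lit 16296408)] (nat_lit 20325581)) p14_17_0 (nat_lit 3) (nat_lit 113) (nat_lit 114) = true := by decide +kernel
def p14_17_0_114 : pfC (piC [(nat_lit 40745421), (nat_lit 25257288), (nat_lit 16296408)] (nat_lit 20325581)) p14_17_0 (nat_lit 3) (nat_lit 114) (nat_lit 115) = true := by decide +kernel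
def p14_17_0_115 : pfC (piC [(nat_lit 40745421), (nat_lit 25257288), (nat_lit 16296408)] (nat_lit 20325581)) p14_17_0 (nat_lit 3) (nat_lit 115) (nat_lit 116) = true := by decide +kernel
def p14_17_0_116 : pfC (piC [(nat_lit 40745421), (nat_lit 25257288), (nat_lit 16296408)] (nat_lit 20325581)) p14_17_0 (nat_lit 3) (nat_lit 116) (nat_lit 117) = true := by decide +kernel
def p14_17_0_117 : pfC (piC [(nat_lit 40745421), (nat_lit 25257288), (nat_lit 16296408)] (nat_lit 20325581)) p14_17_0 (nat_lit 3) (nat_lit 117) (nat_lit 118) = true := by decide +kernel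
def p14_17_0_118 : pfC (piC [(nat_lit 40745421), (nat_lit 25257288), (nat_lit 16296408)] (nat_lit 20325581)) p14_17_0 (nat_lit 3) (nat_lit 118) (nat_lit 119) = true := by decide +kernel
def p14_17_0_119 : pfC (piC [(nat_lit 40745421), (nat_lit 25257288), (nat_lit 16296408)] (nat_lit 20325581)) p14_17_0 (nat_lit 3) (nat_lit 119) (nat_lit 120) = true := by decide +kernel
def p14_17_0_120 : pfC (piC [(nat_lit 40745421), (nat_lit 25257288), (nat_lit 16296408)] (nat_lit 20325581)) p14_17_0 (nat_lit 3) (nat_lit 120) (nat_lit 121) = true := by decide +kernel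
def p14_17_0_121 : pfC (piC [(nat_lit 40745421), (nat_lit 25257288), (nat_lit 16296408)] (nat_lit 20325581)) p14_17_0 (nat_lit 3) (nat_lit 121) (nat_lit 122) = true := by decide +kernel
def p14_17_0_122 : pfC (piC [(nat_lit 40745421), (nat_lit 25257288), (nat_lit 16296408)] (nat_lit 20325581)) p14_17_0 (nat_lit 3) (nat_lit 122) (nat_lit 123) = true := by decide +kernel
def p14_17_0_123 : pfC (piC [(nat_lit 40745421), (nat_lit 25257288), (nat_lit 16296408)] (nat_lit 20325581)) p14_17_0 (nat_lit 3) (nat_lit 123) (nat_lit 124) = true := by decide +kernel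
def p14_17_0_124 : pfC (piC [(nat_lit 40745421), (nat_lit 25257288), (nat_lit 16296408)] (nat_lit 20325581)) p14_17_0 (nat_lit 3) (nat_lit 124) (nat_lit 125) = true := by decide +kernel
def p14_17_0_125 : pfC (piC [(nat_lit 40745421), (nat_lit 25257288), (nat_lit 16296408)] (nat_lit 20325581)) p14_17_0 (nat_lit 3) (nat_lit 125) (nat_lit 126) = true := by decide +kernel
def p14_17_0_126 : pfC (piC [(nat_lit 40745421), (nat_lit 25257288), (nat_lit 16296408)] (nat_lit 20325581)) p14_17_0 (nat_lit 3) (nat_lit 126) (nat_lit 127) = true := by decide +kernel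
def p14_17_0_127 : pfC (piC [(nat_lit 40745421), (nat_lit 25257288), (nat_lit 16296408)] (nat_lit 20325581)) p14_17_0 (nat_lit 3) (nat_lit 127) (nat_lit 128) = true := by decide +kernel
def p14_17_0_128 : pfC (piC [(nat_lit 40745421), (nat_lit 25257288), (nat_lit 16296408)] (nat_lit 20325581)) p14_17_0 (nat_lit 3) (nat_lit 128) (nat_lit 129) = true := by decide +kernel
def p14_17_0_129 : pfC (piC [(nat_lit 40745421), (nat_lit 25257288), (nat_lit 16296408)] (nat_lit 20325581)) p14_17_0 (nat_lit 3) (nat_lit 129) (nat_lit 130) = true := by decide +kernel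
def p14_17_0_130 : pfC (piC [(nat_lit 40745421), (nat_lit 25257288), (nat_lit 16296408)] (nat_lit 20325581)) p14_17_0 (nat_lit 3) (nat_lit 130) (nat_lit 131) = true := by decide +kernel
def p14_17_0_131 : pfC (piC [(nat_lit 40745421), (nat_lit 25257288), (nat_lit 16296408)] (nat_lit 20325581)) p14_17_0 (nat_lit 3) (nat_lit 131) (nat_lit 132) = true := by decide +kernel
def p14_17_0_132 : pfC (piC [(nat_lit 40745421), (nat_lit 25257288), (nat_lit 16296408)] (nat_lit 20325581)) p14_17_0 (nat_lit 3) (nat_lit 132) (nat_lit 133) = true := by decide +kernel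
def p14_17_0_133 : pfC (piC [(nat_lit 40745421), (nat_lit 25257288), (nat_lit 16296408)] (nat_lit 20325581)) p14_17_0 (nat_lit 3) (nat_lit 133) (nat_lit 134) = true := by decide +kernel
def p14_17_0_134 : pfC (piC [(nat_lit 40745421), (nat_lit 25257288), (nat_lit 16296408)] (nat_lit 20325581)) p14_17_0 (nat_lit 3) (nat_lit 134) (nat_lit 135) = true := by decide +kernel
def p14_17_0_135 : pfC (piC [(nat_lit 40745421), (nat_lit 25257288), (nat_lit 16296408)] (nat_lit 20325581)) p14_17_0 (nat_lit 3) (nat_lit 135) (nat_lit 136) = true := by decide +kernel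
def p14_17_0_136 : pfC (piC [(nat_lit 40745421), (nat_lit 25257288), (nat_lit 16296408)] (nat_lit 20325581)) p14_17_0 (nat_lit 3) (nat_lit 136) (nat_lit 137) = true := by decide +kernel
def p14_17_0_137 : pfC (piC [(nat_lit 40745421), (nat_lit 25257288), (nat_lit 16296408)] (nat_lit 20325581)) p14_17_0 (nat_lit 3) (nat_lit 137) (nat_lit 138) = true := by decide +kernel
def p14_17_0_138 : pfC (piC [(nat_lit 40745421), (nat_lit 25257288), (nat_lit 16296408)] (nat_lit 20325581)) p14_17_0 (nat_lit 3) (nat_lit 138) (nat_lit 139) = true := by decide +kernel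
def p14_17_0_139 : pfC (piC [(nat_lit 40745421), (nat_lit 25257288), (nat_lit 16296408)] (nat_lit 20325581)) p14_17_0 (nat_lit 3) (nat_lit 139) (nat_lit 140) = true := by decide +kernel
def p14_17_0_140 : pfC (piC [(nat_lit 40745421), (nat_lit 25257288), (nat_lit 16296408)] (nat_lit 20325581)) p14_17_0 (nat_lit 3) (nat_lit 140) (nat_lit 141) = true := by decide +kernel
def p14_17_0_141 : pfC (piC [(nat_lit 40745421), (nat_lit 25257288), (nat_lit 16296408)] (nat_lit 20325581)) p14_17_0 (nat_lit 3) (nat_lit 141) (nat_lit 142) = true := by decide +kernel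
def p14_17_0_142 : pfC (piC [(nat_lit 40745421), (nat_lit 25257288), (nat_lit 16296408)] (nat_lit 20325581)) p14_17_0 (nat_lit 3) (nat_lit 142) (nat_lit 143) = true := by decide +kernel
def p14_17_0_143 : pfC (piC [(nat_lit 40745421), (nat_lit 25257288), (nat_lit 16296408)] (nat_lit 20325581)) p14_17_0 (nat_lit 3) (nat_lit 143) (nat_lit 144) = true := by decide +kernel
def p14_17_0_144 : pfC (piC [(nat_lit 40745421), (nat_lit 25257288), (nat_lit 16296408)] (nat_lit 20325581)) p14_17_0 (nat_lit 3) (nat_lit 144) (nat_lit 145) = true := by decide +kernel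
def p14_17_0_145 : pfC (piC [(nat_lit 40745421), (nat_lit 25257288), (nat_lit 16296408)] (nat_lit 20325581)) p14_17_0 (nat_lit 3) (nat_lit 145) (nat_lit 146) = true := by decide +kernel
def p14_17_0_146 : pfC (piC [(nat_lit 40745421), (nat_lit 25257288), (nat_lit 16296408)] (nat_lit 20325581)) p14_17_0 (nat_lit 3) (nat_lit 146) (nat_lit 147) = true := by decide +kernel
def p14_17_0_147 : pfC (piC [(nat_lit 40745421), (nat_lit 25257288), (nat_lit 16296408)] (nat_lit 20325581)) p14_17_0 (nat_lit 3) (nat_lit 147) (nat_lit 148) = true := by decide +kernel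
def p14_17_0_148 : pfC (piC [(nat_lit 40745421), (nat_lit 25257288), (nat_lit 16296408)] (nat_lit 20325581)) p14_17_0 (nat_lit 3) (nat_lit 148) (nat_lit 149) = true := by decide +kernel
def p14_17_0_149 : pfC (piC [(nat_lit 40745421), (nat_lit 25257288), (nat_lit 16296408)] (nat_lit 20325581)) p14_17_0 (nat_lit 3) (nat_lit 149) (nat_lit 150) = true := by decide +kernel
def p14_17_0_150 : pfC (piC [(nat_lit 40745421), (nat_lit 25257288), (nat_lit 16296408)] (nat_lit 20325581)) p14_17_0 (nat_lit 3) (nat_lit 150) (nat_lit 151) = true := by decide +kernel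
def p14_17_0_151 : pfC (piC [(nat_lit 40745421), (nat_lit 25257288), (nat_lit 16296408)] (nat_lit 20325581)) p14_17_0 (nat_lit 3) (nat_lit 151) (nat_lit 152) = true := by decide +kernel
def p14_17_0_152 : pfC (piC [(nat_lit 40745421), (nat_lit 25257288), (nat_lit 16296408)] (nat_lit 20325581)) p14_17_0 (nat_lit 3) (nat_lit 152) (nat_lit 153) = true := by decide +kernel
def p14_17_0_153 : pfC (piC [(nat_lit 40745421), (nat_lit 25257288), (nat_lit 16296408)] (nat_lit 20325581)) p14_17_0 (nat_lit 3) (nat_lit 153) (nat_lit 154) = true := by decide +kernel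
def p14_17_0_154 : pfC (piC [(nat_lit 40745421), (nat_lit 25257288), (nat_lit 16296408)] (nat_lit 20325581)) p14_17_0 (nat_lit 3) (nat_lit 154) (nat_lit 155) = true := by decide +kernel
def p14_17_0_155 : pfC (piC [(nat_lit 40745421), (nat_lit 25257288), (nat_lit 16296408)] (nat_lit 20325581)) p14_17_0 (nat_lit 3) (nat_lit 155) (nat_lit 156) = true := by decide +kernel
def p14_17_0_156 : pfC (piC [(nat_lit 40745421), (nat_lit 25257288), (nat_lit 16296408)] (nat_lit 20325581)) p14_17_0 (nat_lit 3) (nat_lit 156) (nat_lit 157) = true := by decide +kernel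
def p14_17_0_157 : pfC (piC [(nat_lit 40745421), (nat_lit 25257288), (nat_lit 16296408)] (nat_lit 20325581)) p14_17_0 (nat_lit 3) (nat_lit 157) (nat_lit 158) = true := by decide +kernel
def p14_17_0_158 : pfC (piC [(nat_lit 40745421), (nat_lit 25257288), (nat_lit 16296408)] (nat_lit 20325581)) p14_17_0 (nat_lit 3) (nat_lit 158) (nat_lit 159) = true := by decide +kernel
def p14_17_0_159 : pfC (piC [(nat_lit 40745421), (nat_lit 25257288), (nat_lit 16296408)] (nat_lit 20325581)) p14_17_0 (nat_lit 3) (nat_lit 159) (nat_lit 160) = true := by decide +kernel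
def p14_17_0_160 : pfC (piC [(nat_lit 40745421), (nat_lit 25257288), (nat_lit 16296408)] (nat_lit 20325581)) p14_17_0 (nat_lit 3) (nat_lit 160) (nat_lit 161) = true := by decide +kernel
def p14_17_0_161 : pfC (piC [(nat_lit 40745421), (nat_lit 25257288), (nat_lit 16296408)] (nat_lit 20325581)) p14_17_0 (nat_lit 3) (nat_lit 161) (nat_lit 162) = true := by decide +kernel
def p14_17_0_162 : pfC (piC [(nat_lit 40745421), (nat_lit 25257288), (nat_lit 16296408)] (nat_lit 20325581)) p14_17_0 (nat_lit 3) (nat_lit 162) (nat_lit 163) = true := by decide +kernel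
def p14_17_0_163 : pfC (piC [(nat_lit 40745421), (nat_lit 25257288), (nat_lit 16296408)] (nat_lit 20325581)) p14_17_0 (nat_lit 3) (nat_lit 163) (nat_lit 164) = true := by decide +kernel
def p14_17_0_164 : pfC (piC [(nat_lit 40745421), (nat_lit 25257288), (nat_lit 16296408)] (nat_lit 20325581)) p14_17_0 (nat_lit 3) (nat_lit 164) (nat_lit 165) = true := by decide +kernel
def p14_17_0_165 : pfC (piC [(nat_lit 40745421), (nat_lit 25257288), (nat_lit 16296408)] (nat_lit 20325581)) p14_17_0 (nat_lit 3) (nat_lit 165) (nat_lit 166) = true := by decide +kernel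
def p14_17_0_166 : pfC (piC [(nat_lit 40745421), (nat_lit 25257288), (nat_lit 16296408)] (nat_lit 20325581)) p14_17_0 (nat_lit 3) (nat_lit 166) (nat_lit 167) = true := by decide +kernel
def p14_17_0_167 : pfC (piC [(nat_lit 40745421), (nat_lit 25257288), (nat_lit 16296408)] (nat_lit 20325581)) p14_17_0 (nat_lit 3) (nat_lit 167) (nat_lit 168) = true := by decide +kernel
def p14_17_0_168 : pfC (piC [(nat_lit 40745421), (nat_lit 25257288), (nat_lit 16296408)] (nat_lit 20325581)) p14_17_0 (nat_lit 3) (nat_lit 168) (nat_lit 169) = true := by decide +kernel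
def p14_17_0_169 : pfC (piC [(nat_lit 40745421), (nat_lit 25257288), (nat_lit 16296408)] (nat_lit 20325581)) p14_17_0 (nat_lit 3) (nat_lit 169) (nat_lit 170) = true := by decide +kernel
def p14_17_0_170 : pfC (piC [(nat_lit 40745421), (nat_lit 25257288), (nat_lit 16296408)] (nat_lit 20325581)) p14_17_0 (nat_lit 3) (nat_lit 170) (nat_lit 171) = true := by decide +kernel
def p14_17_0_171 : pfC (piC [(nat_lit 40745421), (nat_lit 25257288), (nat_lit 16296408)] (nat_lit 20325581)) p14_17_0 (nat_lit 3) (nat_lit 171) (nat_lit 172) = true := by decide +kernel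
def p14_17_0_172 : pfC (piC [(nat_lit 40745421), (nat_lit 25257288), (nat_lit 16296408)] (nat_lit 20325581)) p14_17_0 (nat_lit 3) (nat_lit 172) (nat_lit 173) = true := by decide +kernel
def p14_17_0_173 : pfC (piC [(nat_lit 40745421), (nat_lit 25257288), (nat_lit 16296408)] (nat_lit 20325581)) p14_17_0 (nat_lit 3) (nat_lit 173) (nat_lit 174) = true := by decide +kernel
def p14_17_0_174 : pfC (piC [(nat_lit 40745421), (nat_lit 25257288), (nat_lit 16296408)] (nat_lit 20325581)) p14_17_0 (nat_lit 3) (nat_lit 174) (nat_lit 175) = true := by decide +kernel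
def p14_17_0_175 : pfC (piC [(nat_lit 40745421), (nat_lit 25257288), (nat_lit 16296408)] (nat_lit 20325581)) p14_17_0 (nat_lit 3) (nat_lit 175) (nat_lit 176) = true := by decide +kernel
def p14_17_0_176 : pfC (piC [(nat_lit 40745421), (nat_lit 25257288), (nat_lit 16296408)] (nat_lit 20325581)) p14_17_0 (nat_lit 3) (nat_lit 176) (nat_lit 177) = true := by decide +kernel
def p14_17_0_177 : pfC (piC [(nat_lit 40745421), (nat_lit 25257288), (nat_lit 16296408)] (nat_lit 20325581)) p14_17_0 (nat_lit 3) (nat_lit 177) (nat_lit 178) = true := by decide +kernel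
def p14_17_0_178 : pfC (piC [(nat_lit 40745421), (nat_lit 25257288), (nat_lit 16296408)] (nat_lit 20325581)) p14_17_0 (nat_lit 3) (nat_lit 178) (nat_lit 179) = true := by decide +kernel
def p14_17_0_179 : pfC (piC [(nat_lit 40745421), (nat_lit 25257288), (nat_lit 16296408)] (nat_lit 20325581)) p14_17_0 (nat_lit 3) (nat_lit 179) (nat_lit 180) = true := by decide +kernel
def p14_17_0_180 : pfC (piC [(nat_lit 40745421), (nat_lit 25257288), (nat_lit 16296408)] (nat_lit 20325581)) p14_17_0 (nat_lit 3) (nat_lit 180) (nat_lit 181) = true := by decide +kernel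
def p14_17_0_181 : pfC (piC [(nat_lit 40745421), (nat_lit 25257288), (nat_lit 16296408)] (nat_lit 20325581)) p14_17_0 (nat_lit 3) (nat_lit 181) (nat_lit 182) = true := by decide +kernel
def p14_17_0_182 : pfC (piC [(nat_lit 40745421), (nat_lit 25257288), (nat_lit 16296408)] (nat_lit 20325581)) p14_17_0 (nat_lit 3) (nat_lit 182) (nat_lit 183) = true := by decide +kernel
def p14_17_0_183 : pfC (piC [(nat_lit 40745421), (nat_lit 25257288), (nat_lit 16296408)] (nat_lit 20325581)) p14_17_0 (nat_lit 3) (nat_lit 183) (nat_lit 184) = true := by decide +kernel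
def p14_17_0_184 : pfC (piC [(nat_lit 40745421), (nat_lit 25257288), (nat_lit 16296408)] (nat_lit 20325581)) p14_17_0 (nat_lit 3) (nat_lit 184) (nat_lit 185) = true := by decide +kernel
def p14_17_0_185 : pfC (piC [(nat_lit 40745421), (nat_lit 25257288), (nat_lit 16296408)] (nat_lit 20325581)) p14_17_0 (nat_lit 3) (nat_lit 185) (nat_lit 186) = true := by decide +kernel
def p14_17_0_186 : pfC (piC [(nat_lit 40745421), (nat_lit 25257288), (nat_lit 16296408)] (nat_lit 20325581)) p14_17_0 (nat_lit 3) (nat_lit 186) (nat_lit 187) = true := by decide +kernel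
def p14_17_0_187 : pfC (piC [(nat_lit 40745421), (nat_lit 25257288), (nat_lit 16296408)] (nat_lit 20325581)) p14_17_0 (nat_lit 3) (nat_lit 187) (nat_lit 188) = true := by decide +kernel
def p14_17_0_188 : pfC (piC [(nat_lit 40745421), (nat_lit 25257288), (nat_lit 16296408)] (nat_lit 20325581)) p14_17_0 (nat_lit 3) (nat_lit 188) (nat_lit 189) = true := by decide +kernel
def p14_17_0_189 : pfC (piC [(nat_lit 40745421), (nat_lit 25257288), (nat_lit 16296408)] (nat_lit 20325581)) p14_17_0 (nat_lit 3) (nat_lit 189) (nat_lit 190) = true := by decide +kernel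
def p14_17_0_190 : pfC (piC [(nat_lit 40745421), (nat_lit 25257288), (nat_lit 16296408)] (nat_lit 20325581)) p14_17_0 (nat_lit 3) (nat_lit 190) (nat_lit 191) = true := by decide +kernel
def p14_17_0_191 : pfC (piC [(nat_lit 40745421), (nat_lit 25257288), (nat_lit 16296408)] (nat_lit 20325581)) p14_17_0 (nat_lit 3) (nat_lit 191) (nat_lit 192) = true := by decide +kernel
def p14_17_0_192 : pfC (piC [(nat_lit 40745421), (nat_lit 25257288), (nat_lit 16296408)] (nat_lit 20325581)) p14_17_0 (nat_lit 3) (nat_lit 192) (nat_lit 193) = true := by decide +kernel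
def p14_17_0_193 : pfC (piC [(nat_lit 40745421), (nat_lit 25257288), (nat_lit 16296408)] (nat_lit 20325581)) p14_17_0 (nat_lit 3) (nat_lit 193) (nat_lit 194) = true := by decide +kernel
def p14_17_0_194 : pfC (piC [(nat_lit 40745421), (nat_lit 25257288), (nat_lit 16296408)] (nat_lit 20325581)) p14_17_0 (nat_lit 3) (nat_lit 194) (nat_lit 195) = true := by decide +kernel
def p14_17_0_195 : pfC (piC [(nat_lit 40745421), (nat_lit 25257288), (nat_lit 16296408)] (nat_lit 20325581)) p14_17_0 (nat_lit 3) (nat_lit 195) (nat_lit 196) = true := by decide +kernel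
def p14_17_0_196 : pfC (piC [(nat_lit 40745421), (nat_lit 25257288), (nat_lit 16296408)] (nat_lit 20325581)) p14_17_0 (nat_lit 3) (nat_lit 196) (nat_lit 197) = true := by decide +kernel
def p14_17_0_197 : pfC (piC [(nat_lit 40745421), (nat_lit 25257288), (nat_lit 16296408)] (nat_lit 20325581)) p14_17_0 (nat_lit 3) (nat_lit 197) (nat_lit 198) = true := by decide +kernel
def p14_17_0_198 : pfC (piC [(nat_lit 40745421), (nat_lit 25257288), (nat_lit 16296408)] (nat_lit 20325581)) p14_17_0 (nat_lit 3) (nat_lit 198) (nat_lit 199) = true := by decide +kernel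
def p14_17_0_199 : pfC (piC [(nat_lit 40745421), (nat_lit 25257288), (nat_lit 16296408)] (nat_lit 20325581)) p14_17_0 (nat_lit 3) (nat_lit 199) (nat_lit 200) = true := by decide +kernel
def p14_17_0_200 : pfC (piC [(nat_lit 40745421), (nat_lit 25257288), (nat_lit 16296408)] (nat_lit 20325581)) p14_17_0 (nat_lit 3) (nat_lit 200) (nat_lit 201) = true := by decide +kernel
def p14_17_0_201 : pfC (piC [(nat_lit 40745421), (nat_lit 25257288), (nat_lit 16296408)] (nat_lit 20325581)) p14_17_0 (nat_lit 3) (nat_lit 201) (nat_lit 202) = true := by decide +kernel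
def p14_17_0_202 : pfC (piC [(nat_lit 40745421), (nat_lit 25257288), (nat_lit 16296408)] (nat_lit 20325581)) p14_17_0 (nat_lit 3) (nat_lit 202) (nat_lit 203) = true := by decide +kernel
def p14_17_0_203 : pfC (piC [(nat_lit 40745421), (nat_lit 25257288), (nat_lit 16296408)] (nat_lit 20325581)) p14_17_0 (nat_lit 3) (nat_lit 203) (nat_lit 204) = true := by decide +kernel
def p14_17_0_204 : pfC (piC [(nat_lit 40745421), (nat_lit 25257288), (nat_lit 16296408)] (nat_lit 20325581)) p14_17_0 (nat_lit 3) (nat_lit 204) (nat_lit 205) = true := by decide +kernel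
def p14_17_0_205 : pfC (piC [(nat_lit 40745421), (nat_lit 25257288), (nat_lit 16296408)] (nat_lit 20325581)) p14_17_0 (nat_lit 3) (nat_lit 205) (nat_lit 206) = true := by decide +kernel
def p14_17_0_206 : pfC (piC [(nat_lit 40745421), (nat_lit 25257288), (nat_lit 16296408)] (nat_lit 20325581)) p14_17_0 (nat_lit 3) (nat_lit 206) (nat_lit 207) = true := by decide +kernel
def p14_17_0_207 : pfC (piC [(nat_lit 40745421), (nat_lit 25257288), (nat_lit 16296408)] (nat_lit 20325581)) p14_17_0 (nat_lit 3) (nat_lit 207) (nat_lit 208) = true := by decide +kernel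
def p14_17_0_208 : pfC (piC [(nat_lit 40745421), (nat_lit 25257288), (nat_lit 16296408)] (nat_lit 20325581)) p14_17_0 (nat_lit 3) (nat_lit 208) (nat_lit 209) = true := by decide +kernel
def p14_17_0_209 : pfC (piC [(nat_lit 40745421), (nat_lit 25257288), (nat_lit 16296408)] (nat_lit 20325581)) p14_17_0 (nat_lit 3) (nat_lit 209) (nat_lit 210) = true := by decide +kernel
def p14_17_0_210 : pfC (piC [(nat_lit 40745421), (nat_lit 25257288), (nat_lit 16296408)] (nat_lit 20325581)) p14_17_0 (nat_lit 3) (nat_lit 210) (nat_lit 211) = true := by decide +kernel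
def p14_17_0_211 : pfC (piC [(nat_lit 40745421), (nat_lit 25257288), (nat_lit 16296408)] (nat_lit 20325581)) p14_17_0 (nat_lit 3) (nat_lit 211) (nat_lit 212) = true := by decide +kernel
def p14_17_0_212 : pfC (piC [(nat_lit 40745421), (nat_lit 25257288), (nat_lit 16296408)] (nat_lit 20325581)) p14_17_0 (nat_lit 3) (nat_lit 212) (nat_lit 213) = true := by decide +kernel
def p14_17_0_213 : pfC (piC [(nat_lit 40745421), (nat_lit 25257288), (nat_lit 16296408)] (nat_lit 20325581)) p14_17_0 (nat_lit 3) (nat_lit 213) (nat_lit 214) = true := by decide +kernel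
def p14_17_0_214 : pfC (piC [(nat_lit 40745421), (nat_lit 25257288), (nat_lit 16296408)] (nat_lit 20325581)) p14_17_0 (nat_lit 3) (nat_lit 214) (nat_lit 215) = true := by decide +kernel
def p14_17_0_215 : pfC (piC [(nat_lit 40745421), (nat_lit 25257288), (nat_lit 16296408)] (nat_lit 20325581)) p14_17_0 (nat_lit 3) (nat_lit 215) (nat_lit 216) = true := by decide +kernel
def p14_17_0_216 : pfC (piC [(nat_lit 40745421), (nat_lit 25257288), (nat_lit 16296408)] (nat_lit 20325581)) p14_17_0 (nat_lit 3) (nat_lit 216) (nat_lit 217) = true := by decide +kernel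
def p14_17_0_217 : pfC (piC [(nat_lit 40745421), (nat_lit 25257288), (nat_lit 16296408)] (nat_lit 20325581)) p14_17_0 (nat_lit 3) (nat_lit 217) (nat_lit 218) = true := by decide +kernel
def p14_17_0_218 : pfC (piC [(nat_lit 40745421), (nat_lit 25257288), (nat_lit 16296408)] (nat_lit 20325581)) p14_17_0 (nat_lit 3) (nat_lit 218) (nat_lit 219) = true := by decide +kernel
def p14_17_0_219 : pfC (piC [(nat_lit 40745421), (nat_lit 25257288), (nat_lit 16296408)] (nat_lit 20325581)) p14_17_0 (nat_lit 3) (nat_lit 219) (nat_lit 220) = true := by decide +kernel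
def p14_17_0_220 : pfC (piC [(nat_lit 40745421), (nat_lit 25257288), (nat_lit 16296408)] (nat_lit 20325581)) p14_17_0 (nat_lit 3) (nat_lit 220) (nat_lit 221) = true := by decide +kernel
def p14_17_0_221 : pfC (piC [(nat_lit 40745421), (nat_lit 25257288), (nat_lit 16296408)] (nat_lit 20325581)) p14_17_0 (nat_lit 3) (nat_lit 221) (nat_lit 222) = true := by decide +kernel
def p14_17_0_222 : pfC (piC [(nat_lit 40745421), (nat_lit 25257288), (nat_lit 16296408)] (nat_lit 20325581)) p14_17_0 (nat_lit 3) (nat_lit 222) (nat_lit 223) = true := by decide +kernel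
def p14_17_0_223 : pfC (piC [(nat_lit 40745421), (nat_lit 25257288), (nat_lit 16296408)] (nat_lit 20325581)) p14_17_0 (nat_lit 3) (nat_lit 223) (nat_lit 224) = true := by decide +kernel
def p14_17_0_224 : pfC (piC [(nat_lit 40745421), (nat_lit 25257288), (nat_lit 16296408)] (nat_lit 20325581)) p14_17_0 (nat_lit 3) (nat_lit 224) (nat_lit 225) = true := by decide +kernel
def p14_17_0_225 : pfC (piC [(nat_lit 40745421), (nat_lit 25257288), (nat_lit 16296408)] (nat_lit 20325581)) p14_17_0 (nat_lit 3) (nat_lit 225) (nat_lit 226) = true := by decide +kernel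
def p14_17_0_226 : pfC (piC [(nat_lit 40745421), (nat_lit 25257288), (nat_lit 16296408)] (nat_lit 20325581)) p14_17_0 (nat_lit 3) (nat_lit 226) (nat_lit 227) = true := by decide +kernel
def p14_17_0_227 : pfC (piC [(nat_lit 40745421), (nat_lit 25257288), (nat_lit 16296408)] (nat_lit 20325581)) p14_17_0 (nat_lit 3) (nat_lit 227) (nat_lit 228) = true := by decide +kernel
def p14_17_0_228 : pfC (piC [(nat_lit 40745421), (nat_lit 25257288), (nat_lit 16296408)] (nat_lit 20325581)) p14_17_0 (nat_lit 3) (nat_lit 228) (nat_lit 229) = true := by decide +kernel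
def p14_17_0_229 : pfC (piC [(nat_lit 40745421), (nat_lit 25257288), (nat_lit 16296408)] (nat_lit 20325581)) p14_17_0 (nat_lit 3) (nat_lit 229) (nat_lit 230) = true := by decide +kernel
def p14_17_0_230 : pfC (piC [(nat_lit 40745421), (nat_lit 25257288), (nat_lit 16296408)] (nat_lit 20325581)) p14_17_0 (nat_lit 3) (nat_lit 230) (nat_lit 231) = true := by decide +kernel
def p14_17_0_231 : pfC (piC [(nat_lit 40745421), (nat_lit 25257288), (nat_lit 16296408)] (nat_lit 20325581)) p14_17_0 (nat_lit 3) (nat_lit 231) (nat_lit 232) = true := by decide +kernel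
def p14_17_0_232 : pfC (piC [(nat_lit 40745421), (nat_lit 25257288), (nat_lit 16296408)] (nat_lit 20325581)) p14_17_0 (nat_lit 3) (nat_lit 232) (nat_lit 233) = true := by decide +kernel
def p14_17_0_233 : pfC (piC [(nat_lit 40745421), (nat_lit 25257288), (nat_lit 16296408)] (nat_lit 20325581)) p14_17_0 (nat_lit 3) (nat_lit 233) (nat_lit 234) = true := by decide +kernel
theorem p14_17_0_T : PfS (PiF n14_17.reverse (nat_lit 20325581)) p14_17_0 (nat_lit 3) [] 0 :=
  pftab_of (los := [(nat_lit 40745421), (nat_lit 25257288), (nat_lit 16296408)]) (by decide +kernel) (hi := (nat_lit 234)) (PfP.trans (PfP.trans (PfP.trans (PfP.trans (PfP.trans (PfP.trans (PfP.trans (PfP.trans (PfP.trans (PfP.trans (PfP.trans (PfP.trans (PfP.trans (PfP.trans (PfP.trans (PfP.trans (PfP.trans (PfP.trans (PfP.trans (PfP.trans (PfP.trans (PfP.trans (PfP.trans (PfP.trans (PfP.trans (PfP.trans (PfP.trans (PfP.trans (PfP.trans (PfP.trans (PfP.trans (PfP.trans (PfP.trans (PfP.trans (PfP.trans (PfP.trans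 (PfP.trans (PfP.trans (PfP.trans (PfP.trans (PfP.trans (PfP.trans (PfP.trans (PfP.trans (PfP.trans (PfP.trans (PfP.trans (PfP.trans (PfP.trans (PfP.trans (PfP.trans (PfP.trans (PfP.trans (PfP.trans (PfP.trans (PfP.trans (PfP.trans (PfP.trans (PfP.trans (PfP.trans (PfP.trans (PfP.trans (PfP.trans (PfP.trans (PfP.trans (PfP.trans (PfP.trans (PfP.trans (PfP.trans (PfP.trans (PfP.trans (PfP.trans (PfP.trans (PfP.trans (PfP.trans (PfP.trans (PfP.trans (PfP.trans (PfP.trans (PfP.trans (PfP.trans (PfP.trans (PfP.trans (PfP.trans (PfP.trans (PfP.trans (PfP.trans (PfP.trans (PfP.trans (PfP.trans (PfP.trans (PfP.trans (PfP.trans (PfP.trans (PfP.trans (PfP.trans (PfP.trans (PfP.trans (PfP.trans (PfP.trans (PfP.trans (PfP.trans (PfP.trans (PfP.trans (PfP.trans (PfP.trans (PfP.trans (PfP.trans (PfP.trans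
 (PfP.trans (PfP.trans (PfP.trans (PfP.trans (PfP.trans (PfP.trans (PfP.trans (PfP.trans (PfP.trans (PfP.trans (PfP.trans (PfP.trans (PfP.trans (PfP.trans (PfP.trans (PfP.trans (PfP.trans (PfP.trans (PfP.trans (PfP.trans (PfP.trans (PfP.trans (PfP.trans (PfP.trans (PfP.trans (PfP.trans (PfP.trans (PfP.trans (PfP.trans (PfP.trans (PfP.trans (PfP.trans (PfP.trans (PfP.trans (PfP.trans (PfP.trans (PfP.trans (PfP.trans (PfP.trans (PfP.trans (PfP.trans (PfP.trans (PfP.trans (PfP.trans (PfP.trans (PfP.trans (PfP.trans (PfP.trans (PfP.trans (PfP.trans (PfP.trans (PfP.trans (PfP.trans (PfP.trans (PfP.trans (PfP.trans (PfP.trans (PfP.trans (PfP.trans (PfP.trans (PfP.trans (PfP.trans (PfP.trans (PfP.trans (PfP.trans (PfP.trans (PfP.trans (PfP.trans (PfP.trans (PfP.trans (PfP.trans (PfP.trans (PfP.trans (PfP.trans (PfP.trans (PfP.trans (PfP.trans (PfP.trans (PfP.trans (PfP.trans (PfP.trans (PfP.trans (PfP.trans (PfP.trans (PfP.trans (PfP.trans (PfP.trans (PfP.trans (PfP.trans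 (PfP.trans (PfP.trans (PfP.trans (PfP.trans (PfP.trans (PfP.trans (PfP.trans (PfP.trans (PfP.trans (PfP.trans (PfP.trans (PfP.trans (PfP.trans (PfP.trans (PfP.trans (PfP.trans (PfP.trans (PfP.trans (PfP.trans (PfP.trans
 (PfP.trans (PfP.trans (PfP.trans (PfP.trans (PfP.trans (PfP.trans (PfP.trans (PfP.trans (PfP.trans (PfP.trans (PfP.trans (PfP.trans (PfP.trans (PfP.trans (PfP.trans (pfC_sound p14_17_0_0) (pfC_sound p14_17_0_1)) (pfC_sound p14_17_0_2)) (pfC_sound p14_17_0_3)) (pfC_sound p14_17_0_4)) (pfC_sound p14_17_0_5)) (pfC_sound p14_17_0_6)) (pfC_sound p14_17_0_7)) (pfC_sound p14_17_0_8)) (pfC_sound p14_17_0_9)) (pfC_sound p14_17_0_10)) (pfC_sound p14_17_0_11)) (pfC_sound p14_17_0_12)) (pfC_sound p14_17_0_13)) (pfC_sound p14_17_0_14)) (pfC_sound p14_17_0_15)) (pfC_sound p14_17_0_16)) (pfC_sound p14_17_0_17)) (pfC_sound p14_17_0_18)) (pfC_sound p14_17_0_19)) (pfC_sound p14_17_0_20)) (pfC_sound p14_17_0_21)) (pfC_sound p14_17_0_22)) (pfC_sound p14_17_0_23)) (pfC_sound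 p14_17_0_24)) (pfC_sound p14_17_0_25)) (pfC_sound p14_17_0_26)) (pfC_sound p14_17_0_27)) (pfC_sound p14_17_0_28)) (pfC_sound p14_17_0_29)) (pfC_sound p14_17_0_30)) (pfC_sound p14_17_0_31)) (pfC_sound p14_17_0_32)) (pfC_sound p14_17_0_33)) (pfC_sound p14_17_0_34)) (pfC_sound p14_17_0_35)) (pfC_sound p14_17_0_36)) (pfC_sound p14_17_0_37)) (pfC_sound p14_17_0_38)) (pfC_sound p14_17_0_39)) (pfC_sound p14_17_0_40)) (pfC_sound
 p14_17_0_41)) (pfC_sound p14_17_0_42)) (pfC_sound p14_17_0_43)) (pfC_sound p14_17_0_44)) (pfC_sound p14_17_0_45)) (pfC_sound p14_17_0_46)) (pfC_sound p14_17_0_47)) (pfC_sound p14_17_0_48)) (pfC_sound p14_17_0_49)) (pfC_sound p14_17_0_50)) (pfC_sound p14_17_0_51)) (pfC_sound p14_17_0_52)) (pfC_sound p14_17_0_53)) (pfC_sound p14_17_0_54)) (pfC_sound p14_17_0_55)) (pfC_sound p14_17_0_56)) (pfC_sound p14_17_0_57)) (pfC_sound p14_17_0_58)) (pfC_sound p14_17_0_59)) (pfC_sound p14_17_0_60)) (pfC_sound p14_17_0_61)) (pfC_sound p14_17_0_62)) (pfC_sound p14_17_0_63))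 (pfC_sound p14_17_0_64)) (pfC_sound p14_17_0_65)) (pfC_sound p14_17_0_66)) (pfC_sound p14_17_0_67)) (pfC_sound p14_17_0_68)) (pfC_sound p14_17_0_69)) (pfC_sound p14_17_0_70)) (pfC_sound p14_17_0_71)) (pfC_sound p14_17_0_72)) (pfC_sound p14_17_0_73)) (pfC_sound p14_17_0_74)) (pfC_sound p14_17_0_75)) (pfC_sound p14_17_0_76)) (pfC_sound p14_17_0_77)) (pfC_sound p14_17_0_78)) (pfC_sound p14_17_0_79)) (pfC_sound p14_17_0_80)) (pfC_sound p14_17_0_81)) (pfC_sound p14_17_0_82)) (pfC_sound p14_17_0_83)) (pfC_sound p14_17_0_84)) (pfC_sound p14_17_0_85)) (pfC_sound p14_17_0_86)) (pfC_sound p14_17_0_87)) (pfC_sound p14_17_0_88)) (pfC_sound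
 p14_17_0_89)) (pfC_sound p14_17_0_90)) (pfC_sound p14_17_0_91)) (pfC_sound p14_17_0_92)) (pfC_sound p14_17_0_93)) (pfC_sound p14_17_0_94)) (pfC_sound p14_17_0_95)) (pfC_sound p14_17_0_96)) (pfC_sound p14_17_0_97)) (pfC_sound p14_17_0_98)) (pfC_sound p14_17_0_99)) (pfC_sound p14_17_0_100)) (pfC_sound p14_17_0_101)) (pfC_sound p14_17_0_102)) (pfC_sound p14_17_0_103)) (pfC_sound p14_17_0_104)) (pfC_sound p14_17_0_105)) (pfC_sound p14_17_0_106)) (pfC_sound p14_17_0_107)) (pfC_sound p14_17_0_108)) (pfC_sound p14_17_0_109)) (pfC_sound p14_17_0_110)) (pfC_sound p14_17_0_111)) (pfC_sound p14_17_0_112)) (pfC_sound p14_17_0_113)) (pfC_sound p14_17_0_114)) (pfC_sound p14_17_0_115)) (pfC_sound p14_17_0_116)) (pfC_sound p14_17_0_117)) (pfC_sound p14_17_0_118)) (pfC_sound p14_17_0_119)) (pfC_sound p14_17_0_120)) (pfC_sound p14_17_0_121)) (pfC_sound p14_17_0_122)) (pfC_sound p14_17_0_123)) (pfC_sound p14_17_0_124)) (pfC_sound p14_17_0_125)) (pfC_sound p14_17_0_126)) (pfC_sound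 p14_17_0_127)) (pfC_sound p14_17_0_128)) (pfC_sound p14_17_0_129)) (pfC_sound p14_17_0_130)) (pfC_sound p14_17_0_131)) (pfC_sound p14_17_0_132)) (pfC_sound p14_17_0_133)) (pfC_sound p14_17_0_134)) (pfC_sound p14_17_0_135))
 (pfC_sound p14_17_0_136)) (pfC_sound p14_17_0_137)) (pfC_sound p14_17_0_138)) (pfC_sound p14_17_0_139)) (pfC_sound p14_17_0_140)) (pfC_sound p14_17_0_141)) (pfC_sound p14_17_0_142)) (pfC_sound p14_17_0_143)) (pfC_sound p14_17_0_144)) (pfC_sound p14_17_0_145)) (pfC_sound p14_17_0_146)) (pfC_sound p14_17_0_147)) (pfC_sound p14_17_0_148)) (pfC_sound p14_17_0_149)) (pfC_sound p14_17_0_150)) (pfC_sound p14_17_0_151)) (pfC_sound p14_17_0_152)) (pfC_sound p14_17_0_153)) (pfC_sound p14_17_0_154)) (pfC_sound p14_17_0_155)) (pfC_sound p14_17_0_156)) (pfC_sound p14_17_0_157)) (pfC_sound p14_17_0_158)) (pfC_sound p14_17_0_159)) (pfC_sound p14_17_0_160)) (pfC_sound p14_17_0_161)) (pfC_sound p14_17_0_162)) (pfC_sound p14_17_0_163)) (pfC_sound p14_17_0_164))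 (pfC_sound p14_17_0_165)) (pfC_sound p14_17_0_166)) (pfC_sound p14_17_0_167)) (pfC_sound p14_17_0_168)) (pfC_sound p14_17_0_169)) (pfC_sound p14_17_0_170)) (pfC_sound p14_17_0_171)) (pfC_sound p14_17_0_172)) (pfC_sound p14_17_0_173)) (pfC_sound p14_17_0_174)) (pfC_sound p14_17_0_175)) (pfC_sound p14_17_0_176)) (pfC_sound p14_17_0_177)) (pfC_sound p14_17_0_178)) (pfC_sound p14_17_0_179)) (pfC_sound p14_17_0_180)) (pfC_sound p14_17_0_181))
 (pfC_sound p14_17_0_182)) (pfC_sound p14_17_0_183)) (pfC_sound p14_17_0_184)) (pfC_sound p14_17_0_185)) (pfC_sound p14_17_0_186)) (pfC_sound p14_17_0_187)) (pfC_sound p14_17_0_188)) (pfC_sound p14_17_0_189)) (pfC_sound p14_17_0_190)) (pfC_sound p14_17_0_191)) (pfC_sound p14_17_0_192)) (pfC_sound p14_17_0_193)) (pfC_sound p14_17_0_194)) (pfC_sound p14_17_0_195)) (pfC_sound p14_17_0_196)) (pfC_sound p14_17_0_197)) (pfC_sound p14_17_0_198)) (pfC_sound p14_17_0_199)) (pfC_sound p14_17_0_200)) (pfC_sound p14_17_0_201)) (pfC_sound p14_17_0_202))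 (pfC_sound p14_17_0_203)) (pfC_sound p14_17_0_204)) (pfC_sound p14_17_0_205)) (pfC_sound p14_17_0_206)) (pfC_sound p14_17_0_207)) (pfC_sound p14_17_0_208)) (pfC_sound p14_17_0_209)) (pfC_sound p14_17_0_210)) (pfC_sound p14_17_0_211)) (pfC_sound p14_17_0_212)) (pfC_sound p14_17_0_213)) (pfC_sound p14_17_0_214)) (pfC_sound p14_17_0_215)) (pfC_sound p14_17_0_216)) (pfC_sound p14_17_0_217)) (pfC_sound p14_17_0_218)) (pfC_sound p14_17_0_219)) (pfC_sound p14_17_0_220)) (pfC_sound p14_17_0_221)) (pfC_sound p14_17_0_222)) (pfC_sound p14_17_0_223)) (pfC_sound p14_17_0_224)) (pfC_sound p14_17_0_225)) (pfC_sound p14_17_0_226)) (pfC_sound p14_17_0_227))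
 (pfC_sound p14_17_0_228)) (pfC_sound p14_17_0_229)) (pfC_sound p14_17_0_230)) (pfC_sound p14_17_0_231)) (pfC_sound p14_17_0_232)) (pfC_sound p14_17_0_233)) (by decide +kernel)

def z14_17_0 : zOK yB14_17 (nat_lit 0) (nat_lit 0) (nat_lit 400) (nat_lit 20325581) (nat_lit 11026205) = true := by decide +kernel
def g14_17_0 : gOK yB14_17.x P14_17 (nat_lit 1399) (q14_17 :: r14_17) (nat_lit 0) (nat_lit 0) (nat_lit 1) (nat_lit 400) (nat_lit 0) (nat_lit 11000000) (nat_lit 12712500) (nat_lit 12712500) [(nat_lit 800), (nat_lit 1600)] = true := by decide +kernel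
def v14_17_0 : ivC P14_17 s14_17 w14_17 n14_17 (nat_lit 3) (nat_lit 5320) (nat_lit 0) (nat_lit 0) f176_0_0 f184_0_0 (nat_lit 1) (nat_lit 400) f176_0_400 f184_0_400 (nat_lit 20325581) (nat_lit 11026205) p14_17_0 = true := by decide +kernel
def p14_17_1 : PF := (PF.cons (PF.cons (PF.cons (PF.leaf (nat_lit 2030745) (nat_lit 9439141) (nat_lit 57669671) (nat_lit 9439141) [(nat_lit 0), (nat_lit 0), (nat_lit 0)]) (PF.cons (PF.leaf (nat_lit 2180713) (nat_lit 250949) (nat_lit 57395111) (nat_lit 9462751) [(nat_lit 250949), (nat_lit 0), (nat_lit 0)]) (PF.cons (PF.leaf (nat_lit 2359329) (nat_lit 273408) (nat_lit 57073350) (nat_lit 9488645) [(nat_lit 273408), (nat_lit 0), (nat_lit 0)]) (PF.cons (PF.leaf (nat_lit 2560369) (nat_lit 293511) (nat_lit 56712786) (nat_lit 9515491) [(nat_lit 293511), (nat_lit 0), (nat_lit 0)]) (PF.cons (PF.leaf (nat_lit 2780967) (nat_lit 311792) (nat_lit 56319357) (nat_lit 9542284) [(nat_lit 311792), (nat_lit 0), (nat_lit 0)]) (PF.cons (PF.leaf (nat_lit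 3018714) (nat_lit 328587) (nat_lit 55897644) (nat_lit 9568229) [(nat_lit 328587), (nat_lit 0), (nat_lit 0)]) (PF.cons (PF.leaf (nat_lit 3271780) (nat_lit 344122) (nat_lit 55451385) (nat_lit 9592693) [(nat_lit 344122), (nat_lit 0), (nat_lit 0)]) (PF.cons (PF.leaf (nat_lit 3538559) (nat_lit 358556) (nat_lit 54983750) (nat_lit 9615165) [(nat_lit 358556), (nat_lit 0), (nat_lit 0)]) (PF.cons (PF.leaf (nat_lit 3817701) (nat_lit 372009) (nat_lit 54497497) (nat_lit 9635241)
 [(nat_lit 372009), (nat_lit 0), (nat_lit 0)]) (PF.cons (PF.leaf (nat_lit 4107860) (nat_lit 384570) (nat_lit 53995072) (nat_lit 9652604) [(nat_lit 384570), (nat_lit 0), (nat_lit 0)]) (PF.cons (PF.leaf (nat_lit 4408027) (nat_lit 396313) (nat_lit 53478670) (nat_lit 9667011) [(nat_lit 396313), (nat_lit 0), (nat_lit 0)]) (PF.cons (PF.leaf (nat_lit 4717029) (nat_lit 407295) (nat_lit 52950283) (nat_lit 9678284) [(nat_lit 407295), (nat_lit 0), (nat_lit 0)]) (PF.cons (PF.leaf (nat_lit 5033926) (nat_lit 417565)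 (nat_lit 52411727) (nat_lit 9686298) [(nat_lit 417565), (nat_lit 0), (nat_lit 0)]) (PF.cons PF.nil (PF.cons PF.nil (PF.cons PF.nil PF.nil)))))))))))))))) (PF.cons (PF.cons (PF.leaf (nat_lit 2696072) (nat_lit 1592579) (nat_lit 55963110) (nat_lit 9553123) [(nat_lit 0), (nat_lit 1592579), (nat_lit 0)]) (PF.cons (PF.leaf (nat_lit 2896136) (nat_lit 312506) (nat_lit 55597655) (nat_lit 9573765) [(nat_lit 312506), (nat_lit 1624885), (nat_lit 0)]) (PF.cons (PF.leaf (nat_lit 3117705) (nat_lit 329772) (nat_lit 55198048) (nat_lit 9594058) [(nat_lit 329772), (nat_lit 1657160), (nat_lit 0)]) (PF.cons (PF.leaf (nat_lit 3356746) (nat_lit 345518) (nat_lit 54770231) (nat_lit 9613243) [(nat_lit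
 345518), (nat_lit 1688782), (nat_lit 0)]) (PF.cons (PF.leaf (nat_lit 3610978) (nat_lit 360011) (nat_lit 54318640) (nat_lit 9630747) [(nat_lit 360011), (nat_lit 1719379), (nat_lit 0)]) (PF.cons (PF.leaf (nat_lit 3878683) (nat_lit 373428) (nat_lit 53846813) (nat_lit 9646131) [(nat_lit 373428), (nat_lit 1748726), (nat_lit 0)]) (PF.cons (PF.leaf (nat_lit 4158267) (nat_lit 385894) (nat_lit 53357699) (nat_lit 9659059) [(nat_lit 385894), (nat_lit 1776685), (nat_lit 0)]) (PF.cons (PF.leaf (nat_lit 4448432) (nat_lit 397504) (nat_lit 52853829) (nat_lit 9669275) [(nat_lit 397504), (nat_lit 1803174), (nat_lit 0)]) (PF.cons (PF.leaf (nat_lit 4747990) (nat_lit 408331) (nat_lit 52337420) (nat_lit 9676592) [(nat_lit 408331), (nat_lit 1828150), (nat_lit 0)]) (PF.cons (PF.leaf (nat_lit 5055922) (nat_lit 418432) (nat_lit 51810445) (nat_lit 9680881) [(nat_lit 418432), (nat_lit 1851595), (nat_lit 0)]) (PF.cons (PF.leaf (nat_lit 5371230) (nat_lit 427856) (nat_lit 51274678) (nat_lit 9682058)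 [(nat_lit 427856), (nat_lit 1873510), (nat_lit 0)]) (PF.cons (PF.leaf (nat_lit 5693022) (nat_lit 436645) (nat_lit 50731720) (nat_lit 9680082) [(nat_lit 436645), (nat_lit 1893907), (nat_lit 0)]) (PF.cons PF.nil
 (PF.cons PF.nil PF.nil)))))))))))))) (PF.cons (PF.cons (PF.leaf (nat_lit 3458424) (nat_lit 1714472) (nat_lit 54050791) (nat_lit 9629075) [(nat_lit 0), (nat_lit 1714472), (nat_lit 0)]) (PF.cons (PF.leaf (nat_lit 3695310) (nat_lit 359732) (nat_lit 53624254) (nat_lit 9641706) [(nat_lit 359732), (nat_lit 1741559), (nat_lit 0)]) (PF.cons (PF.leaf (nat_lit 3948702) (nat_lit 373462) (nat_lit 53173422) (nat_lit 9652569) [(nat_lit 373462), (nat_lit 1767947), (nat_lit 0)]) (PF.cons (PF.leaf (nat_lit 4215594) (nat_lit 386081) (nat_lit 52702591) (nat_lit 9661272) [(nat_lit 386081), (nat_lit 1793352), (nat_lit 0)]) (PF.cons (PF.leaf (nat_lit 4494229) (nat_lit 397742) (nat_lit 52215121) (nat_lit 9667527) [(nat_lit 397742), (nat_lit 1817597), (nat_lit 0)]) (PF.cons (PF.leaf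 (nat_lit 4783158) (nat_lit 408552) (nat_lit 51713768) (nat_lit 9671129) [(nat_lit 408552), (nat_lit 1840575), (nat_lit 0)]) (PF.cons (PF.leaf (nat_lit 5081171) (nat_lit 418593) (nat_lit 51200866) (nat_lit 9671933) [(nat_lit 418593), (nat_lit 1862225), (nat_lit 0)]) (PF.cons (PF.leaf (nat_lit 5387127) (nat_lit 427929) (nat_lit 50678433) (nat_lit 9669846) [(nat_lit 427929), (nat_lit 1882513), (nat_lit 0)]) (PF.cons (PF.leaf
 (nat_lit 5700046) (nat_lit 436610) (nat_lit 50148246) (nat_lit 9664818) [(nat_lit 436610), (nat_lit 1901430), (nat_lit 0)]) (PF.cons (PF.leaf (nat_lit 6019042) (nat_lit 444681) (nat_lit 49611884) (nat_lit 9656832) [(nat_lit 444681), (nat_lit 1918980), (nat_lit 0)]) (PF.cons PF.nil (PF.cons PF.nil PF.nil)))))))))))) (PF.cons (PF.cons (PF.leaf (nat_lit 4285894) (nat_lit 1809411) (nat_lit 52021447) (nat_lit 9659131) [(nat_lit 0), (nat_lit 1809411), (nat_lit 0)]) (PF.cons (PF.leaf (nat_lit 4549536) (nat_lit 396733) (nat_lit 51556518) (nat_lit 9661681)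 [(nat_lit 396733), (nat_lit 1831293), (nat_lit 0)]) (PF.cons (PF.leaf (nat_lit 4825755) (nat_lit 407751) (nat_lit 51074822) (nat_lit 9661829) [(nat_lit 407751), (nat_lit 1852219), (nat_lit 0)]) (PF.cons (PF.leaf (nat_lit 5112285) (nat_lit 417897) (nat_lit 50579538) (nat_lit 9659409) [(nat_lit 417897), (nat_lit 1872057), (nat_lit 0)]) (PF.cons (PF.leaf (nat_lit 5407703) (nat_lit 427271) (nat_lit 50073236) (nat_lit 9654312) [(nat_lit 427271), (nat_lit 1890726), (nat_lit 0)]) (PF.cons (PF.leaf (nat_lit 5710837) (nat_lit 435944) (nat_lit 49558063) (nat_lit 9646476) [(nat_lit 435944), (nat_lit 1908183), (nat_lit 0)]) (PF.cons (PF.leaf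
 (nat_lit 6020660) (nat_lit 443976) (nat_lit 49035852) (nat_lit 9635876) [(nat_lit 443976), (nat_lit 1924409), (nat_lit 0)]) (PF.cons (PF.leaf (nat_lit 6336252) (nat_lit 451413) (nat_lit 48508201) (nat_lit 9622516) [(nat_lit 451413), (nat_lit 1939400), (nat_lit 0)]) (PF.cons PF.nil (PF.cons PF.nil PF.nil)))))))))) (PF.cons (PF.cons (PF.leaf (nat_lit 5153749) (nat_lit 1881264) (nat_lit 49940615) (nat_lit 9643138) [(nat_lit 0), (nat_lit 1881264), (nat_lit 0)]) (PF.cons (PF.leaf (nat_lit 5436040) (nat_lit 425681) (nat_lit 49454714) (nat_lit 9635327) [(nat_lit 425681), (nat_lit 1898272), (nat_lit 0)]) (PF.cons (PF.leaf (nat_lit 5727870) (nat_lit 434499) (nat_lit 48957818) (nat_lit 9624960) [(nat_lit 434499), (nat_lit 1914258), (nat_lit 0)]) (PF.cons (PF.leaf (nat_lit 6027348) (nat_lit 442607) (nat_lit 48452312) (nat_lit 9612005) [(nat_lit 442607), (nat_lit 1929167), (nat_lit 0)]) (PF.cons (PF.leaf (nat_lit 6333364) (nat_lit 450076) (nat_lit 47940163) (nat_lit 9596458)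 [(nat_lit 450076), (nat_lit 1942971), (nat_lit 0)]) (PF.cons (PF.leaf (nat_lit 6644992) (nat_lit 456958) (nat_lit 47423035) (nat_lit 9578342) [(nat_lit 456958), (nat_lit 1955660), (nat_lit 0)]) (PF.cons (PF.leaf (nat_lit
 6961363) (nat_lit 463298) (nat_lit 46902358) (nat_lit 9557702) [(nat_lit 463298), (nat_lit 1967240), (nat_lit 0)]) (PF.cons PF.nil PF.nil)))))))) (PF.cons (PF.cons (PF.leaf (nat_lit 6042539) (nat_lit 1933345) (nat_lit 47857049) (nat_lit 9585037) [(nat_lit 0), (nat_lit 1933345), (nat_lit 0)]) (PF.cons (PF.leaf (nat_lit 6337036) (nat_lit 448027) (nat_lit 47363415) (nat_lit 9567587) [(nat_lit 448027), (nat_lit 1945956), (nat_lit 0)]) (PF.cons (PF.leaf (nat_lit 6638584) (nat_lit 455017) (nat_lit 46863184) (nat_lit 9547704) [(nat_lit 455017), (nat_lit 1957577), (nat_lit 0)]) (PF.cons (PF.leaf (nat_lit 6945677) (nat_lit 461419) (nat_lit 46358155) (nat_lit 9525426) [(nat_lit 461419), (nat_lit 1968194), (nat_lit 0)]) (PF.cons (PF.leaf (nat_lit 7257404) (nat_lit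 467285) (nat_lit 45849830) (nat_lit 9500812) [(nat_lit 467285), (nat_lit 1977805), (nat_lit 0)]) (PF.cons PF.nil PF.nil)))))) (PF.cons (PF.cons (PF.leaf (nat_lit 6937179) (nat_lit 1968637) (nat_lit 45806327) (nat_lit 9490659) [(nat_lit 0), (nat_lit 1968637), (nat_lit 0)]) (PF.cons (PF.leaf (nat_lit 7238733) (nat_lit 464884) (nat_lit 45314807) (nat_lit 9464790) [(nat_lit 464884), (nat_lit 1977388), (nat_lit 0)]) (PF.cons (PF.leaf
 (nat_lit 7545386) (nat_lit 470343) (nat_lit 44820000) (nat_lit 9436750) [(nat_lit 470343), (nat_lit 1985229), (nat_lit 0)]) (PF.cons PF.nil PF.nil)))) (PF.cons (PF.cons (PF.leaf (nat_lit 7826214) (nat_lit 1989839) (nat_lit 43813524) (nat_lit 9366411) [(nat_lit 0), (nat_lit 1989839), (nat_lit 0)]) (PF.cons (PF.leaf (nat_lit 8130825) (nat_lit 477167) (nat_lit 43331229) (nat_lit 9333523) [(nat_lit 477167), (nat_lit 1995270), (nat_lit 0)]) PF.nil)) (PF.cons PF.nil (PF.cons PF.nil (PF.cons PF.nil PF.nil))))))))))) (PF.cons (PF.cons (PF.cons (PF.leaf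 (nat_lit 3781248) (nat_lit 6386341) (nat_lit 51170461) (nat_lit 9552010) [(nat_lit 0), (nat_lit 0), (nat_lit 6386341)]) (PF.cons (PF.leaf (nat_lit 3990706) (nat_lit 343967) (nat_lit 50809812) (nat_lit 9553823) [(nat_lit 343967), (nat_lit 0), (nat_lit 6401210)]) (PF.cons (PF.leaf (nat_lit 4220091) (nat_lit 359951) (nat_lit 50419151) (nat_lit 9554121) [(nat_lit 359951), (nat_lit 0), (nat_lit 6415637)]) (PF.cons (PF.leaf (nat_lit 4465173) (nat_lit 374145) (nat_lit 50004654) (nat_lit 9552598) [(nat_lit 374145), (nat_lit 0), (nat_lit 6429123)]) (PF.cons (PF.leaf (nat_lit 4723518) (nat_lit 386909) (nat_lit 49570829) (nat_lit 9549030) [(nat_lit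
 386909), (nat_lit 0), (nat_lit 6441314)]) (PF.cons (PF.leaf (nat_lit 4993225) (nat_lit 398485) (nat_lit 49121174) (nat_lit 9543258) [(nat_lit 398485), (nat_lit 0), (nat_lit 6451954)]) (PF.cons (PF.leaf (nat_lit 5272765) (nat_lit 409043) (nat_lit 48658518) (nat_lit 9535170) [(nat_lit 409043), (nat_lit 0), (nat_lit 6460864)]) (PF.cons (PF.leaf (nat_lit 5560891) (nat_lit 418711) (nat_lit 48185221) (nat_lit 9524697) [(nat_lit 418711), (nat_lit 0), (nat_lit 6467917)]) (PF.cons (PF.leaf (nat_lit 5856426) (nat_lit 427586) (nat_lit 47703289) (nat_lit 9511801) [(nat_lit 427586), (nat_lit 0), (nat_lit 6473030)]) (PF.cons (PF.leaf (nat_lit 6158410) (nat_lit 435747) (nat_lit 47214458) (nat_lit 9496473) [(nat_lit 435747), (nat_lit 0), (nat_lit 6476155)]) (PF.cons (PF.leaf (nat_lit 6465959) (nat_lit 443256) (nat_lit 46720249) (nat_lit 9478727) [(nat_lit 443256), (nat_lit 0), (nat_lit 6477271)]) (PF.cons PF.nil (PF.cons PF.nil (PF.cons PF.nil PF.nil)))))))))))))) (PF.cons (PF.cons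 (PF.leaf (nat_lit 4543451) (nat_lit 1800831) (nat_lit 49335400) (nat_lit 9536890) [(nat_lit 0), (nat_lit 1800831), (nat_lit 6435690)]) (PF.cons (PF.leaf (nat_lit 4783602) (nat_lit 383609) (nat_lit 48929166) (nat_lit
 9530908) [(nat_lit 383609), (nat_lit 1820398), (nat_lit 6444729)]) (PF.cons (PF.leaf (nat_lit 5038438) (nat_lit 395781) (nat_lit 48502747) (nat_lit 9522842) [(nat_lit 395781), (nat_lit 1839142), (nat_lit 6452517)]) (PF.cons (PF.leaf (nat_lit 5304953) (nat_lit 406731) (nat_lit 48060325) (nat_lit 9512582) [(nat_lit 406731), (nat_lit 1856889), (nat_lit 6458820)]) (PF.cons (PF.leaf (nat_lit 5581396) (nat_lit 416657) (nat_lit 47605100) (nat_lit 9500061) [(nat_lit 416657), (nat_lit 1873541), (nat_lit 6463479)]) (PF.cons (PF.leaf (nat_lit 5866337) (nat_lit 425700) (nat_lit 47139628) (nat_lit 9485242) [(nat_lit 425700), (nat_lit 1889052), (nat_lit 6466386)]) (PF.cons (PF.leaf (nat_lit 6158581) (nat_lit 433966) (nat_lit 46666022) (nat_lit 9468115) [(nat_lit 433966),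 (nat_lit 1903403), (nat_lit 6467476)]) (PF.cons (PF.leaf (nat_lit 6457096) (nat_lit 441535) (nat_lit 46186062) (nat_lit 9448693) [(nat_lit 441535), (nat_lit 1916594), (nat_lit 6466713)]) (PF.cons (PF.leaf (nat_lit 6760984) (nat_lit 448474) (nat_lit 45701277) (nat_lit 9427008) [(nat_lit 448474), (nat_lit 1928641), (nat_lit 6464087)]) (PF.cons PF.nil (PF.cons PF.nil (PF.cons PF.nil PF.nil)))))))))))) (PF.cons (PF.cons (PF.leaf
 (nat_lit 5351345) (nat_lit 1863587) (nat_lit 47440817) (nat_lit 9486361) [(nat_lit 0), (nat_lit 1863587), (nat_lit 6454458)]) (PF.cons (PF.leaf (nat_lit 5612697) (nat_lit 413407) (nat_lit 47009033) (nat_lit 9472160) [(nat_lit 413407), (nat_lit 1878671), (nat_lit 6456869)]) (PF.cons (PF.leaf (nat_lit 5884949) (nat_lit 422851) (nat_lit 46563982) (nat_lit 9455738) [(nat_lit 422851), (nat_lit 1892834), (nat_lit 6457720)]) (PF.cons (PF.leaf (nat_lit 6165881) (nat_lit 431391) (nat_lit 46108605) (nat_lit 9437095) [(nat_lit 431391), (nat_lit 1906007),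 (nat_lit 6456922)]) (PF.cons (PF.leaf (nat_lit 6454147) (nat_lit 439149) (nat_lit 45645229) (nat_lit 9416249) [(nat_lit 439149), (nat_lit 1918156), (nat_lit 6454422)]) (PF.cons (PF.leaf (nat_lit 6748635) (nat_lit 446217) (nat_lit 45175753) (nat_lit 9393236) [(nat_lit 446217), (nat_lit 1929269), (nat_lit 6450198)]) (PF.cons (PF.leaf (nat_lit 7048381) (nat_lit 452664) (nat_lit 44701765) (nat_lit 9368102) [(nat_lit 452664), (nat_lit 1939353), (nat_lit 6444248)]) (PF.cons (PF.leaf (nat_lit 7352546) (nat_lit 458550) (nat_lit 44224617) (nat_lit 9340906) [(nat_lit 458550), (nat_lit 1948424), (nat_lit 6436587)]) (PF.cons PF.nil (PF.cons PF.nil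
 PF.nil)))))))))) (PF.cons (PF.cons (PF.leaf (nat_lit 6184525) (nat_lit 1908169) (nat_lit 45536831) (nat_lit 9403081) [(nat_lit 0), (nat_lit 1908169), (nat_lit 6444392)]) (PF.cons (PF.leaf (nat_lit 6459999) (nat_lit 435884) (nat_lit 45093718) (nat_lit 9381143) [(nat_lit 435884), (nat_lit 1919248), (nat_lit 6440320)]) (PF.cons (PF.leaf (nat_lit 6743545) (nat_lit 443235) (nat_lit 44642328) (nat_lit 9357087) [(nat_lit 443235), (nat_lit 1929425), (nat_lit 6434650)]) (PF.cons (PF.leaf (nat_lit 7033400) (nat_lit 449886) (nat_lit 44184778) (nat_lit 9330971) [(nat_lit 449886), (nat_lit 1938678), (nat_lit 6427370)]) (PF.cons (PF.leaf (nat_lit 7328566) (nat_lit 455916) (nat_lit 43722783) (nat_lit 9302860) [(nat_lit 455916), (nat_lit 1947004), (nat_lit 6418489)]) (PF.cons (PF.leaf (nat_lit 7628136) (nat_lit 461391) (nat_lit 43257763) (nat_lit 9272826) [(nat_lit 461391), (nat_lit 1954413), (nat_lit 6408028)]) (PF.cons PF.nil (PF.cons PF.nil PF.nil)))))))) (PF.cons (PF.cons (PF.leaf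 (nat_lit 7027786) (nat_lit 1937581) (nat_lit 43658195) (nat_lit 9291429) [(nat_lit 0), (nat_lit 1937581), (nat_lit 6408863)]) (PF.cons (PF.leaf (nat_lit 7311965) (nat_lit 452619) (nat_lit 43213924) (nat_lit 9262687)
 [(nat_lit 452619), (nat_lit 1945166), (nat_lit 6398916)]) (PF.cons (PF.leaf (nat_lit 7602028) (nat_lit 458305) (nat_lit 42765003) (nat_lit 9232053) [(nat_lit 458305), (nat_lit 1951917), (nat_lit 6387476)]) (PF.cons (PF.leaf (nat_lit 7896598) (nat_lit 463432) (nat_lit 42312980) (nat_lit 9199612) [(nat_lit 463432), (nat_lit 1957837), (nat_lit 6374571)]) (PF.cons PF.nil (PF.cons PF.nil PF.nil)))))) (PF.cons (PF.cons (PF.leaf (nat_lit 7869753) (nat_lit 1954379) (nat_lit 41828736) (nat_lit 9156372) [(nat_lit 0), (nat_lit 1954379), (nat_lit 6351804)]) (PF.cons (PF.leaf (nat_lit 8158476) (nat_lit 464737) (nat_lit 41390506) (nat_lit 9121937) [(nat_lit 464737), (nat_lit 1958968), (nat_lit 6336791)]) (PF.cons (PF.leaf (nat_lit 8451426) (nat_lit 469073) (nat_lit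 40950260) (nat_lit 9085886) [(nat_lit 469073), (nat_lit 1962812), (nat_lit 6320454)]) (PF.cons PF.nil PF.nil)))) (PF.cons (PF.cons (PF.leaf (nat_lit 8702044) (nat_lit 1960767) (nat_lit 40064226) (nat_lit 9002822) [(nat_lit 0), (nat_lit 1960767), (nat_lit 6277158)]) (PF.cons PF.nil PF.nil)) (PF.cons PF.nil (PF.cons PF.nil (PF.cons PF.nil PF.nil)))))))))) (PF.cons (PF.cons (PF.cons (PF.leaf (nat_lit 5535444) (nat_lit 6357914) (nat_lit
 45088154) (nat_lit 9304830) [(nat_lit 0), (nat_lit 0), (nat_lit 6357914)]) (PF.cons (PF.leaf (nat_lit 5773810) (nat_lit 396362) (nat_lit 44713055) (nat_lit 9287098) [(nat_lit 396362), (nat_lit 0), (nat_lit 6356148)]) (PF.cons (PF.leaf (nat_lit 6025364) (nat_lit 407189) (nat_lit 44321111) (nat_lit 9267238) [(nat_lit 407189), (nat_lit 0), (nat_lit 6353042)]) (PF.cons (PF.leaf (nat_lit 6287181) (nat_lit 416750) (nat_lit 43916200) (nat_lit 9245317) [(nat_lit 416750), (nat_lit 0), (nat_lit 6348521)]) (PF.cons (PF.leaf (nat_lit 6557529) (nat_lit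 425272) (nat_lit 43501241) (nat_lit 9221399) [(nat_lit 425272), (nat_lit 0), (nat_lit 6342540)]) (PF.cons (PF.leaf (nat_lit 6835031) (nat_lit 432915) (nat_lit 43078527) (nat_lit 9195544) [(nat_lit 432915), (nat_lit 0), (nat_lit 6335080)]) (PF.cons (PF.leaf (nat_lit 7118556) (nat_lit 439798) (nat_lit 42649917) (nat_lit 9167818) [(nat_lit 439798), (nat_lit 0), (nat_lit 6326142)]) (PF.cons (PF.leaf (nat_lit 7407146) (nat_lit 446013) (nat_lit 42216950) (nat_lit 9138288) [(nat_lit 446013), (nat_lit 0), (nat_lit 6315739)]) (PF.cons (PF.leaf (nat_lit 7699972) (nat_lit 451633) (nat_lit 41780926) (nat_lit 9107026) [(nat_lit 451633), (nat_lit 0), (nat_lit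
 6303897)]) (PF.cons PF.nil PF.nil)))))))))) (PF.cons (PF.cons (PF.leaf (nat_lit 6313673) (nat_lit 1876095) (nat_lit 43364099) (nat_lit 9205688) [(nat_lit 0), (nat_lit 1876095), (nat_lit 6331464)]) (PF.cons (PF.leaf (nat_lit 6569273) (nat_lit 420596) (nat_lit 42971656) (nat_lit 9181423) [(nat_lit 420596), (nat_lit 1886315), (nat_lit 6324410)]) (PF.cons (PF.leaf (nat_lit 6834481) (nat_lit 428772) (nat_lit 42568511) (nat_lit 9155172) [(nat_lit 428772), (nat_lit 1895678), (nat_lit 6315953)]) (PF.cons (PF.leaf (nat_lit 7107149) (nat_lit 436045) (nat_lit 42157308) (nat_lit 9127032) [(nat_lit 436045), (nat_lit 1904156), (nat_lit 6306089)]) (PF.cons (PF.leaf (nat_lit 7385996) (nat_lit 442551) (nat_lit 41740103) (nat_lit 9097095) [(nat_lit 442551), (nat_lit 1911743), (nat_lit 6294832)]) (PF.cons (PF.leaf (nat_lit 7669978) (nat_lit 448390) (nat_lit 41318550) (nat_lit 9065445) [(nat_lit 448390), (nat_lit 1918450), (nat_lit 6282206)]) (PF.cons (PF.leaf (nat_lit 7958240) (nat_lit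 453642) (nat_lit 40894012) (nat_lit 9032165) [(nat_lit 453642), (nat_lit 1924295), (nat_lit 6268241)]) (PF.cons PF.nil PF.nil)))))))) (PF.cons (PF.cons (PF.leaf (nat_lit 7107672) (nat_lit 1901870) (nat_lit 41652460)
 (nat_lit 9083760) [(nat_lit 0), (nat_lit 1901870), (nat_lit 6284425)]) (PF.cons (PF.leaf (nat_lit 7374267) (nat_lit 438247) (nat_lit 41254219) (nat_lit 9053756) [(nat_lit 438247), (nat_lit 1908798), (nat_lit 6272496)]) (PF.cons (PF.leaf (nat_lit 7647890) (nat_lit 444464) (nat_lit 40849535) (nat_lit 9021998) [(nat_lit 444464), (nat_lit 1914934), (nat_lit 6259240)]) (PF.cons (PF.leaf (nat_lit 7926846) (nat_lit 450003) (nat_lit 40440266) (nat_lit 8988594) [(nat_lit 450003), (nat_lit 1920278), (nat_lit 6244692)]) (PF.cons (PF.leaf (nat_lit 8210214) (nat_lit 454950) (nat_lit 40027891) (nat_lit 8953644) [(nat_lit 454950), (nat_lit 1924843), (nat_lit 6228893)]) (PF.cons PF.nil PF.nil)))))) (PF.cons (PF.cons (PF.leaf (nat_lit 7905296) (nat_lit 1915934) (nat_lit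 39978269) (nat_lit 8943060) [(nat_lit 0), (nat_lit 1915934), (nat_lit 6219838)]) (PF.cons (PF.leaf (nat_lit 8178310) (nat_lit 450903) (nat_lit 39582132) (nat_lit 8908259) [(nat_lit 450903), (nat_lit 1920065), (nat_lit 6203660)]) (PF.cons (PF.leaf (nat_lit 8456394) (nat_lit 455609) (nat_lit 39182557) (nat_lit 8871968) [(nat_lit 455609), (nat_lit 1923489), (nat_lit 6186299)]) (PF.cons (PF.leaf (nat_lit 8738228) (nat_lit 459786)
 (nat_lit 38780874) (nat_lit 8834296) [(nat_lit 459786), (nat_lit 1926222), (nat_lit 6167807)]) PF.nil)))) (PF.cons (PF.cons (PF.leaf (nat_lit 8697755) (nat_lit 1920436) (nat_lit 38357777) (nat_lit 8787584) [(nat_lit 0), (nat_lit 1920436), (nat_lit 6140852)]) (PF.cons (PF.leaf (nat_lit 8973739) (nat_lit 459644) (nat_lit 37969133) (nat_lit 8748939) [(nat_lit 459644), (nat_lit 1922214), (nat_lit 6121117)]) PF.nil)) (PF.cons PF.nil (PF.cons PF.nil (PF.cons PF.nil PF.nil)))))))) (PF.cons (PF.cons (PF.cons (PF.leaf (nat_lit 7183411) (nat_lit 6154263)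 (nat_lit 39774788) (nat_lit 8871235) [(nat_lit 0), (nat_lit 0), (nat_lit 6154263)]) (PF.cons (PF.leaf (nat_lit 7431529) (nat_lit 421515) (nat_lit 39421919) (nat_lit 8841300) [(nat_lit 421515), (nat_lit 0), (nat_lit 6141359)]) (PF.cons (PF.leaf (nat_lit 7688276) (nat_lit 428668) (nat_lit 39060245) (nat_lit 8809608) [(nat_lit 428668), (nat_lit 0), (nat_lit 6127207)]) (PF.cons (PF.leaf (nat_lit 7951549) (nat_lit 434938) (nat_lit 38692108) (nat_lit 8776314) [(nat_lit 434938), (nat_lit 0), (nat_lit 6111857)]) (PF.cons (PF.leaf (nat_lit 8220134) (nat_lit 440468) (nat_lit 38319311) (nat_lit 8741545) [(nat_lit 440468), (nat_lit 0), (nat_lit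
 6095360)]) (PF.cons (PF.leaf (nat_lit 8493088) (nat_lit 445363) (nat_lit 37943286) (nat_lit 8705410) [(nat_lit 445363), (nat_lit 0), (nat_lit 6077765)]) (PF.cons PF.nil (PF.cons PF.nil PF.nil)))))))) (PF.cons (PF.cons (PF.leaf (nat_lit 7937916) (nat_lit 1875111) (nat_lit 38248758) (nat_lit 8728933) [(nat_lit 0), (nat_lit 1875111), (nat_lit 6085336)]) (PF.cons (PF.leaf (nat_lit 8194886) (nat_lit 435550) (nat_lit 37893184) (nat_lit 8694726) [(nat_lit 435550), (nat_lit 1879128), (nat_lit 6068741)]) (PF.cons (PF.leaf (nat_lit 8458069) (nat_lit 440883) (nat_lit 37532435) (nat_lit 8659053) [(nat_lit 440883), (nat_lit 1882449), (nat_lit 6051035)]) (PF.cons (PF.leaf (nat_lit 8725902) (nat_lit 445565) (nat_lit 37168131) (nat_lit 8622049) [(nat_lit 445565), (nat_lit 1885090), (nat_lit 6032281)]) (PF.cons (PF.leaf (nat_lit 8997440) (nat_lit 449689) (nat_lit 36801550) (nat_lit 8583828) [(nat_lit 449689), (nat_lit 1887070), (nat_lit 6012535)]) (PF.cons PF.nil PF.nil)))))) (PF.cons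 (PF.cons (PF.leaf (nat_lit 8692267) (nat_lit 1878803) (nat_lit 36763743) (nat_lit 8574421) [(nat_lit 0), (nat_lit 1878803), (nat_lit 6004346)]) (PF.cons (PF.leaf (nat_lit 8954105) (nat_lit 445218) (nat_lit 36411712)
 (nat_lit 8536813) [(nat_lit 445218), (nat_lit 1880558), (nat_lit 5984650)]) (PF.cons (PF.leaf (nat_lit 9220418) (nat_lit 449177) (nat_lit 36057015) (nat_lit 8498013) [(nat_lit 449177), (nat_lit 1881709), (nat_lit 5964002)]) (PF.cons PF.nil PF.nil)))) (PF.cons (PF.cons (PF.leaf (nat_lit 9439449) (nat_lit 1875165) (nat_lit 35331125) (nat_lit 8410847) [(nat_lit 0), (nat_lit 1875165), (nat_lit 5913781)]) (PF.cons PF.nil PF.nil)) (PF.cons PF.nil (PF.cons PF.nil PF.nil)))))) (PF.cons (PF.cons (PF.cons (PF.leaf (nat_lit 8689133) (nat_lit 5868554) (nat_lit 35270285) (nat_lit 8364311) [(nat_lit 0), (nat_lit 0), (nat_lit 5868554)]) (PF.cons (PF.leaf (nat_lit 8936360) (nat_lit 429635) (nat_lit 34953434) (nat_lit 8328321) [(nat_lit 429635), (nat_lit 0), (nat_lit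 5849355)]) (PF.cons (PF.leaf (nat_lit 9189241) (nat_lit 434271) (nat_lit 34632308) (nat_lit 8291092) [(nat_lit 434271), (nat_lit 0), (nat_lit 5829217)]) (PF.cons (PF.leaf (nat_lit 9446189) (nat_lit 438287) (nat_lit 34308321) (nat_lit 8252769) [(nat_lit 438287), (nat_lit 0), (nat_lit 5808214)]) (PF.cons PF.nil (PF.cons PF.nil PF.nil)))))) (PF.cons (PF.cons (PF.leaf (nat_lit 9403478) (nat_lit 1832815) (nat_lit 33954004) (nat_lit
 8205309) [(nat_lit 0), (nat_lit 1832815), (nat_lit 5779170)]) (PF.cons (PF.leaf (nat_lit 9654548) (nat_lit 437096) (nat_lit 33641163) (nat_lit 8166888) [(nat_lit 437096), (nat_lit 1832935), (nat_lit 5757682)]) (PF.cons PF.nil (PF.cons PF.nil PF.nil)))) (PF.cons (PF.cons (PF.leaf (nat_lit 10109752) (nat_lit 1823834) (nat_lit 32686225) (nat_lit 8041007) [(nat_lit 0), (nat_lit 1823834), (nat_lit 5683477)]) (PF.cons PF.nil PF.nil)) (PF.cons PF.nil PF.nil)))) (PF.cons (PF.cons (PF.cons (PF.leaf (nat_lit 10051192) (nat_lit 5554173) (nat_lit 31491223)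 (nat_lit 7846719) [(nat_lit 0), (nat_lit 0), (nat_lit 5554173)]) (PF.cons PF.nil PF.nil)) (PF.cons PF.nil PF.nil)) (PF.cons PF.nil (PF.cons PF.nil (PF.cons PF.nil (PF.cons PF.nil PF.nil))))))))))

def p14_17_1_0 : pfC (piC [(nat_lit 40745421), (nat_lit 25257288), (nat_lit 16296408)] (nat_lit 11026205)) p14_17_1 (nat_lit 3) (nat_lit 0) (nat_lit 1) = true := by decide +kernel
def p14_17_1_1 : pfC (piC [(nat_lit 40745421), (nat_lit 25257288), (nat_lit 16296408)] (nat_lit 11026205)) p14_17_1 (nat_lit 3) (nat_lit 1) (nat_lit 2) = true := by decide +kernel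
def p14_17_1_2 : pfC (piC [(nat_lit 40745421), (nat_lit 25257288), (nat_lit 16296408)] (nat_lit 11026205)) p14_17_1 (nat_lit 3) (nat_lit 2) (nat_lit 3) = true := by decide +kernel
def p14_17_1_3 : pfC (piC [(nat_lit 40745421), (nat_lit 25257288), (nat_lit 16296408)] (nat_lit 11026205)) p14_17_1 (nat_lit 3) (nat_lit 3) (nat_lit 4) = true := by decide +kernel
def p14_17_1_4 : pfC (piC [(nat_lit 40745421), (nat_lit 25257288), (nat_lit 16296408)] (nat_lit 11026205)) p14_17_1 (nat_lit 3) (nat_lit 4) (nat_lit 5) = true := by decide +kernel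
def p14_17_1_5 : pfC (piC [(nat_lit 40745421), (nat_lit 25257288), (nat_lit 16296408)] (nat_lit 11026205)) p14_17_1 (nat_lit 3) (nat_lit 5) (nat_lit 6) = true := by decide +kernel
def p14_17_1_6 : pfC (piC [(nat_lit 40745421), (nat_lit 25257288), (nat_lit 16296408)] (nat_lit 11026205)) p14_17_1 (nat_lit 3) (nat_lit 6) (nat_lit 7) = true := by decide +kernel
def p14_17_1_7 : pfC (piC [(nat_lit 40745421), (nat_lit 25257288), (nat_lit 16296408)] (nat_lit 11026205)) p14_17_1 (nat_lit 3) (nat_lit 7) (nat_lit 8) = true := by decide +kernel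
def p14_17_1_8 : pfC (piC [(nat_lit 40745421), (nat_lit 25257288), (nat_lit 16296408)] (nat_lit 11026205)) p14_17_1 (nat_lit 3) (nat_lit 8) (nat_lit 9) = true := by decide +kernel
def p14_17_1_9 : pfC (piC [(nat_lit 40745421), (nat_lit 25257288), (nat_lit 16296408)] (nat_lit 11026205)) p14_17_1 (nat_lit 3) (nat_lit 9) (nat_lit 10) = true := by decide +kernel
def p14_17_1_10 : pfC (piC [(nat_lit 40745421), (nat_lit 25257288), (nat_lit 16296408)] (nat_lit 11026205)) p14_17_1 (nat_lit 3) (nat_lit 10) (nat_lit 11) = true := by decide +kernel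
def p14_17_1_11 : pfC (piC [(nat_lit 40745421), (nat_lit 25257288), (nat_lit 16296408)] (nat_lit 11026205)) p14_17_1 (nat_lit 3) (nat_lit 11) (nat_lit 12) = true := by decide +kernel
def p14_17_1_12 : pfC (piC [(nat_lit 40745421), (nat_lit 25257288), (nat_lit 16296408)] (nat_lit 11026205)) p14_17_1 (nat_lit 3) (nat_lit 12) (nat_lit 13) = true := by decide +kernel
def p14_17_1_13 : pfC (piC [(nat_lit 40745421), (nat_lit 25257288), (nat_lit 16296408)] (nat_lit 11026205)) p14_17_1 (nat_lit 3) (nat_lit 13) (nat_lit 14) = true := by decide +kernel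
def p14_17_1_14 : pfC (piC [(nat_lit 40745421), (nat_lit 25257288), (nat_lit 16296408)] (nat_lit 11026205)) p14_17_1 (nat_lit 3) (nat_lit 14) (nat_lit 15) = true := by decide +kernel
def p14_17_1_15 : pfC (piC [(nat_lit 40745421), (nat_lit 25257288), (nat_lit 16296408)] (nat_lit 11026205)) p14_17_1 (nat_lit 3) (nat_lit 15) (nat_lit 16) = true := by decide +kernel
def p14_17_1_16 : pfC (piC [(nat_lit 40745421), (nat_lit 25257288), (nat_lit 16296408)] (nat_lit 11026205)) p14_17_1 (nat_lit 3) (nat_lit 16) (nat_lit 17) = true := by decide +kernel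
def p14_17_1_17 : pfC (piC [(nat_lit 40745421), (nat_lit 25257288), (nat_lit 16296408)] (nat_lit 11026205)) p14_17_1 (nat_lit 3) (nat_lit 17) (nat_lit 18) = true := by decide +kernel
def p14_17_1_18 : pfC (piC [(nat_lit 40745421), (nat_lit 25257288), (nat_lit 16296408)] (nat_lit 11026205)) p14_17_1 (nat_lit 3) (nat_lit 18) (nat_lit 19) = true := by decide +kernel
def p14_17_1_19 : pfC (piC [(nat_lit 40745421), (nat_lit 25257288), (nat_lit 16296408)] (nat_lit 11026205)) p14_17_1 (nat_lit 3) (nat_lit 19) (nat_lit 20) = true := by decide +kernel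
def p14_17_1_20 : pfC (piC [(nat_lit 40745421), (nat_lit 25257288), (nat_lit 16296408)] (nat_lit 11026205)) p14_17_1 (nat_lit 3) (nat_lit 20) (nat_lit 21) = true := by decide +kernel
def p14_17_1_21 : pfC (piC [(nat_lit 40745421), (nat_lit 25257288), (nat_lit 16296408)] (nat_lit 11026205)) p14_17_1 (nat_lit 3) (nat_lit 21) (nat_lit 22) = true := by decide +kernel
def p14_17_1_22 : pfC (piC [(nat_lit 40745421), (nat_lit 25257288), (nat_lit 16296408)] (nat_lit 11026205)) p14_17_1 (nat_lit 3) (nat_lit 22) (nat_lit 23) = true := by decide +kernel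
def p14_17_1_23 : pfC (piC [(nat_lit 40745421), (nat_lit 25257288), (nat_lit 16296408)] (nat_lit 11026205)) p14_17_1 (nat_lit 3) (nat_lit 23) (nat_lit 24) = true := by decide +kernel
def p14_17_1_24 : pfC (piC [(nat_lit 40745421), (nat_lit 25257288), (nat_lit 16296408)] (nat_lit 11026205)) p14_17_1 (nat_lit 3) (nat_lit 24) (nat_lit 25) = true := by decide +kernel
def p14_17_1_25 : pfC (piC [(nat_lit 40745421), (nat_lit 25257288), (nat_lit 16296408)] (nat_lit 11026205)) p14_17_1 (nat_lit 3) (nat_lit 25) (nat_lit 26) = true := by decide +kernel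
def p14_17_1_26 : pfC (piC [(nat_lit 40745421), (nat_lit 25257288), (nat_lit 16296408)] (nat_lit 11026205)) p14_17_1 (nat_lit 3) (nat_lit 26) (nat_lit 27) = true := by decide +kernel
def p14_17_1_27 : pfC (piC [(nat_lit 40745421), (nat_lit 25257288), (nat_lit 16296408)] (nat_lit 11026205)) p14_17_1 (nat_lit 3) (nat_lit 27) (nat_lit 28) = true := by decide +kernel
def p14_17_1_28 : pfC (piC [(nat_lit 40745421), (nat_lit 25257288), (nat_lit 16296408)] (nat_lit 11026205)) p14_17_1 (nat_lit 3) (nat_lit 28) (nat_lit 29) = true := by decide +kernel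
def p14_17_1_29 : pfC (piC [(nat_lit 40745421), (nat_lit 25257288), (nat_lit 16296408)] (nat_lit 11026205)) p14_17_1 (nat_lit 3) (nat_lit 29) (nat_lit 30) = true := by decide +kernel
def p14_17_1_30 : pfC (piC [(nat_lit 40745421), (nat_lit 25257288), (nat_lit 16296408)] (nat_lit 11026205)) p14_17_1 (nat_lit 3) (nat_lit 30) (nat_lit 31) = true := by decide +kernel
def p14_17_1_31 : pfC (piC [(nat_lit 40745421), (nat_lit 25257288), (nat_lit 16296408)] (nat_lit 11026205)) p14_17_1 (nat_lit 3) (nat_lit 31) (nat_lit 32) = true := by decide +kernel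
def p14_17_1_32 : pfC (piC [(nat_lit 40745421), (nat_lit 25257288), (nat_lit 16296408)] (nat_lit 11026205)) p14_17_1 (nat_lit 3) (nat_lit 32) (nat_lit 33) = true := by decide +kernel
def p14_17_1_33 : pfC (piC [(nat_lit 40745421), (nat_lit 25257288), (nat_lit 16296408)] (nat_lit 11026205)) p14_17_1 (nat_lit 3) (nat_lit 33) (nat_lit 34) = true := by decide +kernel
def p14_17_1_34 : pfC (piC [(nat_lit 40745421), (nat_lit 25257288), (nat_lit 16296408)] (nat_lit 11026205)) p14_17_1 (nat_lit 3) (nat_lit 34) (nat_lit 35) = true := by decide +kernel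
def p14_17_1_35 : pfC (piC [(nat_lit 40745421), (nat_lit 25257288), (nat_lit 16296408)] (nat_lit 11026205)) p14_17_1 (nat_lit 3) (nat_lit 35) (nat_lit 36) = true := by decide +kernel
def p14_17_1_36 : pfC (piC [(nat_lit 40745421), (nat_lit 25257288), (nat_lit 16296408)] (nat_lit 11026205)) p14_17_1 (nat_lit 3) (nat_lit 36) (nat_lit 37) = true := by decide +kernel
def p14_17_1_37 : pfC (piC [(nat_lit 40745421), (nat_lit 25257288), (nat_lit 16296408)] (nat_lit 11026205)) p14_17_1 (nat_lit 3) (nat_lit 37) (nat_lit 38) = true := by decide +kernel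
def p14_17_1_38 : pfC (piC [(nat_lit 40745421), (nat_lit 25257288), (nat_lit 16296408)] (nat_lit 11026205)) p14_17_1 (nat_lit 3) (nat_lit 38) (nat_lit 39) = true := by decide +kernel
def p14_17_1_39 : pfC (piC [(nat_lit 40745421), (nat_lit 25257288), (nat_lit 16296408)] (nat_lit 11026205)) p14_17_1 (nat_lit 3) (nat_lit 39) (nat_lit 40) = true := by decide +kernel
def p14_17_1_40 : pfC (piC [(nat_lit 40745421), (nat_lit 25257288), (nat_lit 16296408)] (nat_lit 11026205)) p14_17_1 (nat_lit 3) (nat_lit 40) (nat_lit 41) = true := by decide +kernel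
def p14_17_1_41 : pfC (piC [(nat_lit 40745421), (nat_lit 25257288), (nat_lit 16296408)] (nat_lit 11026205)) p14_17_1 (nat_lit 3) (nat_lit 41) (nat_lit 42) = true := by decide +kernel
def p14_17_1_42 : pfC (piC [(nat_lit 40745421), (nat_lit 25257288), (nat_lit 16296408)] (nat_lit 11026205)) p14_17_1 (nat_lit 3) (nat_lit 42) (nat_lit 43) = true := by decide +kernel
def p14_17_1_43 : pfC (piC [(nat_lit 40745421), (nat_lit 25257288), (nat_lit 16296408)] (nat_lit 11026205)) p14_17_1 (nat_lit 3) (nat_lit 43) (nat_lit 44) = true := by decide +kernel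
def p14_17_1_44 : pfC (piC [(nat_lit 40745421), (nat_lit 25257288), (nat_lit 16296408)] (nat_lit 11026205)) p14_17_1 (nat_lit 3) (nat_lit 44) (nat_lit 45) = true := by decide +kernel
def p14_17_1_45 : pfC (piC [(nat_lit 40745421), (nat_lit 25257288), (nat_lit 16296408)] (nat_lit 11026205)) p14_17_1 (nat_lit 3) (nat_lit 45) (nat_lit 46) = true := by decide +kernel
def p14_17_1_46 : pfC (piC [(nat_lit 40745421), (nat_lit 25257288), (nat_lit 16296408)] (nat_lit 11026205)) p14_17_1 (nat_lit 3) (nat_lit 46) (nat_lit 47) = true := by decide +kernel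
def p14_17_1_47 : pfC (piC [(nat_lit 40745421), (nat_lit 25257288), (nat_lit 16296408)] (nat_lit 11026205)) p14_17_1 (nat_lit 3) (nat_lit 47) (nat_lit 48) = true := by decide +kernel
def p14_17_1_48 : pfC (piC [(nat_lit 40745421), (nat_lit 25257288), (nat_lit 16296408)] (nat_lit 11026205)) p14_17_1 (nat_lit 3) (nat_lit 48) (nat_lit 49) = true := by decide +kernel
def p14_17_1_49 : pfC (piC [(nat_lit 40745421), (nat_lit 25257288), (nat_lit 16296408)] (nat_lit 11026205)) p14_17_1 (nat_lit 3) (nat_lit 49) (nat_lit 50) = true := by decide +kernel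
def p14_17_1_50 : pfC (piC [(nat_lit 40745421), (nat_lit 25257288), (nat_lit 16296408)] (nat_lit 11026205)) p14_17_1 (nat_lit 3) (nat_lit 50) (nat_lit 51) = true := by decide +kernel
def p14_17_1_51 : pfC (piC [(nat_lit 40745421), (nat_lit 25257288), (nat_lit 16296408)] (nat_lit 11026205)) p14_17_1 (nat_lit 3) (nat_lit 51) (nat_lit 52) = true := by decide +kernel
def p14_17_1_52 : pfC (piC [(nat_lit 40745421), (nat_lit 25257288), (nat_lit 16296408)] (nat_lit 11026205)) p14_17_1 (nat_lit 3) (nat_lit 52) (nat_lit 53) = true := by decide +kernel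
def p14_17_1_53 : pfC (piC [(nat_lit 40745421), (nat_lit 25257288), (nat_lit 16296408)] (nat_lit 11026205)) p14_17_1 (nat_lit 3) (nat_lit 53) (nat_lit 54) = true := by decide +kernel
def p14_17_1_54 : pfC (piC [(nat_lit 40745421), (nat_lit 25257288), (nat_lit 16296408)] (nat_lit 11026205)) p14_17_1 (nat_lit 3) (nat_lit 54) (nat_lit 55) = true := by decide +kernel
def p14_17_1_55 : pfC (piC [(nat_lit 40745421), (nat_lit 25257288), (nat_lit 16296408)] (nat_lit 11026205)) p14_17_1 (nat_lit 3) (nat_lit 55) (nat_lit 56) = true := by decide +kernel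
def p14_17_1_56 : pfC (piC [(nat_lit 40745421), (nat_lit 25257288), (nat_lit 16296408)] (nat_lit 11026205)) p14_17_1 (nat_lit 3) (nat_lit 56) (nat_lit 57) = true := by decide +kernel
def p14_17_1_57 : pfC (piC [(nat_lit 40745421), (nat_lit 25257288), (nat_lit 16296408)] (nat_lit 11026205)) p14_17_1 (nat_lit 3) (nat_lit 57) (nat_lit 58) = true := by decide +kernel
def p14_17_1_58 : pfC (piC [(nat_lit 40745421), (nat_lit 25257288), (nat_lit 16296408)] (nat_lit 11026205)) p14_17_1 (nat_lit 3) (nat_lit 58) (nat_lit 59) = true := by decide +kernel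
def p14_17_1_59 : pfC (piC [(nat_lit 40745421), (nat_lit 25257288), (nat_lit 16296408)] (nat_lit 11026205)) p14_17_1 (nat_lit 3) (nat_lit 59) (nat_lit 60) = true := by decide +kernel
def p14_17_1_60 : pfC (piC [(nat_lit 40745421), (nat_lit 25257288), (nat_lit 16296408)] (nat_lit 11026205)) p14_17_1 (nat_lit 3) (nat_lit 60) (nat_lit 61) = true := by decide +kernel
def p14_17_1_61 : pfC (piC [(nat_lit 40745421), (nat_lit 25257288), (nat_lit 16296408)] (nat_lit 11026205)) p14_17_1 (nat_lit 3) (nat_lit 61) (nat_lit 62) = true := by decide +kernel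
def p14_17_1_62 : pfC (piC [(nat_lit 40745421), (nat_lit 25257288), (nat_lit 16296408)] (nat_lit 11026205)) p14_17_1 (nat_lit 3) (nat_lit 62) (nat_lit 63) = true := by decide +kernel
def p14_17_1_63 : pfC (piC [(nat_lit 40745421), (nat_lit 25257288), (nat_lit 16296408)] (nat_lit 11026205)) p14_17_1 (nat_lit 3) (nat_lit 63) (nat_lit 64) = true := by decide +kernel
def p14_17_1_64 : pfC (piC [(nat_lit 40745421), (nat_lit 25257288), (nat_lit 16296408)] (nat_lit 11026205)) p14_17_1 (nat_lit 3) (nat_lit 64) (nat_lit 65) = true := by decide +kernel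
def p14_17_1_65 : pfC (piC [(nat_lit 40745421), (nat_lit 25257288), (nat_lit 16296408)] (nat_lit 11026205)) p14_17_1 (nat_lit 3) (nat_lit 65) (nat_lit 66) = true := by decide +kernel
def p14_17_1_66 : pfC (piC [(nat_lit 40745421), (nat_lit 25257288), (nat_lit 16296408)] (nat_lit 11026205)) p14_17_1 (nat_lit 3) (nat_lit 66) (nat_lit 67) = true := by decide +kernel
def p14_17_1_67 : pfC (piC [(nat_lit 40745421), (nat_lit 25257288), (nat_lit 16296408)] (nat_lit 11026205)) p14_17_1 (nat_lit 3) (nat_lit 67) (nat_lit 68) = true := by decide +kernel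
def p14_17_1_68 : pfC (piC [(nat_lit 40745421), (nat_lit 25257288), (nat_lit 16296408)] (nat_lit 11026205)) p14_17_1 (nat_lit 3) (nat_lit 68) (nat_lit 69) = true := by decide +kernel
def p14_17_1_69 : pfC (piC [(nat_lit 40745421), (nat_lit 25257288), (nat_lit 16296408)] (nat_lit 11026205)) p14_17_1 (nat_lit 3) (nat_lit 69) (nat_lit 70) = true := by decide +kernel
def p14_17_1_70 : pfC (piC [(nat_lit 40745421), (nat_lit 25257288), (nat_lit 16296408)] (nat_lit 11026205)) p14_17_1 (nat_lit 3) (nat_lit 70) (nat_lit 71) = true := by decide +kernel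
def p14_17_1_71 : pfC (piC [(nat_lit 40745421), (nat_lit 25257288), (nat_lit 16296408)] (nat_lit 11026205)) p14_17_1 (nat_lit 3) (nat_lit 71) (nat_lit 72) = true := by decide +kernel
def p14_17_1_72 : pfC (piC [(nat_lit 40745421), (nat_lit 25257288), (nat_lit 16296408)] (nat_lit 11026205)) p14_17_1 (nat_lit 3) (nat_lit 72) (nat_lit 73) = true := by decide +kernel
def p14_17_1_73 : pfC (piC [(nat_lit 40745421), (nat_lit 25257288), (nat_lit 16296408)] (nat_lit 11026205)) p14_17_1 (nat_lit 3) (nat_lit 73) (nat_lit 74) = true := by decide +kernel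
def p14_17_1_74 : pfC (piC [(nat_lit 40745421), (nat_lit 25257288), (nat_lit 16296408)] (nat_lit 11026205)) p14_17_1 (nat_lit 3) (nat_lit 74) (nat_lit 75) = true := by decide +kernel
def p14_17_1_75 : pfC (piC [(nat_lit 40745421), (nat_lit 25257288), (nat_lit 16296408)] (nat_lit 11026205)) p14_17_1 (nat_lit 3) (nat_lit 75) (nat_lit 76) = true := by decide +kernel
def p14_17_1_76 : pfC (piC [(nat_lit 40745421), (nat_lit 25257288), (nat_lit 16296408)] (nat_lit 11026205)) p14_17_1 (nat_lit 3) (nat_lit 76) (nat_lit 77) = true := by decide +kernel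
def p14_17_1_77 : pfC (piC [(nat_lit 40745421), (nat_lit 25257288), (nat_lit 16296408)] (nat_lit 11026205)) p14_17_1 (nat_lit 3) (nat_lit 77) (nat_lit 78) = true := by decide +kernel
def p14_17_1_78 : pfC (piC [(nat_lit 40745421), (nat_lit 25257288), (nat_lit 16296408)] (nat_lit 11026205)) p14_17_1 (nat_lit 3) (nat_lit 78) (nat_lit 79) = true := by decide +kernel
def p14_17_1_79 : pfC (piC [(nat_lit 40745421), (nat_lit 25257288), (nat_lit 16296408)] (nat_lit 11026205)) p14_17_1 (nat_lit 3) (nat_lit 79) (nat_lit 80) = true := by decide +kernel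
def p14_17_1_80 : pfC (piC [(nat_lit 40745421), (nat_lit 25257288), (nat_lit 16296408)] (nat_lit 11026205)) p14_17_1 (nat_lit 3) (nat_lit 80) (nat_lit 81) = true := by decide +kernel
def p14_17_1_81 : pfC (piC [(nat_lit 40745421), (nat_lit 25257288), (nat_lit 16296408)] (nat_lit 11026205)) p14_17_1 (nat_lit 3) (nat_lit 81) (nat_lit 82) = true := by decide +kernel
def p14_17_1_82 : pfC (piC [(nat_lit 40745421), (nat_lit 25257288), (nat_lit 16296408)] (nat_lit 11026205)) p14_17_1 (nat_lit 3) (nat_lit 82) (nat_lit 83) = true := by decide +kernel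
def p14_17_1_83 : pfC (piC [(nat_lit 40745421), (nat_lit 25257288), (nat_lit 16296408)] (nat_lit 11026205)) p14_17_1 (nat_lit 3) (nat_lit 83) (nat_lit 84) = true := by decide +kernel
def p14_17_1_84 : pfC (piC [(nat_lit 40745421), (nat_lit 25257288), (nat_lit 16296408)] (nat_lit 11026205)) p14_17_1 (nat_lit 3) (nat_lit 84) (nat_lit 85) = true := by decide +kernel
def p14_17_1_85 : pfC (piC [(nat_lit 40745421), (nat_lit 25257288), (nat_lit 16296408)] (nat_lit 11026205)) p14_17_1 (nat_lit 3) (nat_lit 85) (nat_lit 86) = true := by decide +kernel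
def p14_17_1_86 : pfC (piC [(nat_lit 40745421), (nat_lit 25257288), (nat_lit 16296408)] (nat_lit 11026205)) p14_17_1 (nat_lit 3) (nat_lit 86) (nat_lit 87) = true := by decide +kernel
def p14_17_1_87 : pfC (piC [(nat_lit 40745421), (nat_lit 25257288), (nat_lit 16296408)] (nat_lit 11026205)) p14_17_1 (nat_lit 3) (nat_lit 87) (nat_lit 88) = true := by decide +kernel
def p14_17_1_88 : pfC (piC [(nat_lit 40745421), (nat_lit 25257288), (nat_lit 16296408)] (nat_lit 11026205)) p14_17_1 (nat_lit 3) (nat_lit 88) (nat_lit 89) = true := by decide +kernel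
def p14_17_1_89 : pfC (piC [(nat_lit 40745421), (nat_lit 25257288), (nat_lit 16296408)] (nat_lit 11026205)) p14_17_1 (nat_lit 3) (nat_lit 89) (nat_lit 90) = true := by decide +kernel
def p14_17_1_90 : pfC (piC [(nat_lit 40745421), (nat_lit 25257288), (nat_lit 16296408)] (nat_lit 11026205)) p14_17_1 (nat_lit 3) (nat_lit 90) (nat_lit 91) = true := by decide +kernel
def p14_17_1_91 : pfC (piC [(nat_lit 40745421), (nat_lit 25257288), (nat_lit 16296408)] (nat_lit 11026205)) p14_17_1 (nat_lit 3) (nat_lit 91) (nat_lit 92) = true := by decide +kernel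
def p14_17_1_92 : pfC (piC [(nat_lit 40745421), (nat_lit 25257288), (nat_lit 16296408)] (nat_lit 11026205)) p14_17_1 (nat_lit 3) (nat_lit 92) (nat_lit 93) = true := by decide +kernel
def p14_17_1_93 : pfC (piC [(nat_lit 40745421), (nat_lit 25257288), (nat_lit 16296408)] (nat_lit 11026205)) p14_17_1 (nat_lit 3) (nat_lit 93) (nat_lit 94) = true := by decide +kernel
def p14_17_1_94 : pfC (piC [(nat_lit 40745421), (nat_lit 25257288), (nat_lit 16296408)] (nat_lit 11026205)) p14_17_1 (nat_lit 3) (nat_lit 94) (nat_lit 95) = true := by decide +kernel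
def p14_17_1_95 : pfC (piC [(nat_lit 40745421), (nat_lit 25257288), (nat_lit 16296408)] (nat_lit 11026205)) p14_17_1 (nat_lit 3) (nat_lit 95) (nat_lit 96) = true := by decide +kernel
def p14_17_1_96 : pfC (piC [(nat_lit 40745421), (nat_lit 25257288), (nat_lit 16296408)] (nat_lit 11026205)) p14_17_1 (nat_lit 3) (nat_lit 96) (nat_lit 97) = true := by decide +kernel
def p14_17_1_97 : pfC (piC [(nat_lit 40745421), (nat_lit 25257288), (nat_lit 16296408)] (nat_lit 11026205)) p14_17_1 (nat_lit 3) (nat_lit 97) (nat_lit 98) = true := by decide +kernel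
def p14_17_1_98 : pfC (piC [(nat_lit 40745421), (nat_lit 25257288), (nat_lit 16296408)] (nat_lit 11026205)) p14_17_1 (nat_lit 3) (nat_lit 98) (nat_lit 99) = true := by decide +kernel
def p14_17_1_99 : pfC (piC [(nat_lit 40745421), (nat_lit 25257288), (nat_lit 16296408)] (nat_lit 11026205)) p14_17_1 (nat_lit 3) (nat_lit 99) (nat_lit 100) = true := by decide +kernel
def p14_17_1_100 : pfC (piC [(nat_lit 40745421), (nat_lit 25257288), (nat_lit 16296408)] (nat_lit 11026205)) p14_17_1 (nat_lit 3) (nat_lit 100) (nat_lit 101) = true := by decide +kernel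
def p14_17_1_101 : pfC (piC [(nat_lit 40745421), (nat_lit 25257288), (nat_lit 16296408)] (nat_lit 11026205)) p14_17_1 (nat_lit 3) (nat_lit 101) (nat_lit 102) = true := by decide +kernel
def p14_17_1_102 : pfC (piC [(nat_lit 40745421), (nat_lit 25257288), (nat_lit 16296408)] (nat_lit 11026205)) p14_17_1 (nat_lit 3) (nat_lit 102) (nat_lit 103) = true := by decide +kernel
def p14_17_1_103 : pfC (piC [(nat_lit 40745421), (nat_lit 25257288), (nat_lit 16296408)] (nat_lit 11026205)) p14_17_1 (nat_lit 3) (nat_lit 103) (nat_lit 104) = true := by decide +kernel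
def p14_17_1_104 : pfC (piC [(nat_lit 40745421), (nat_lit 25257288), (nat_lit 16296408)] (nat_lit 11026205)) p14_17_1 (nat_lit 3) (nat_lit 104) (nat_lit 105) = true := by decide +kernel
def p14_17_1_105 : pfC (piC [(nat_lit 40745421), (nat_lit 25257288), (nat_lit 16296408)] (nat_lit 11026205)) p14_17_1 (nat_lit 3) (nat_lit 105) (nat_lit 106) = true := by decide +kernel
def p14_17_1_106 : pfC (piC [(nat_lit 40745421), (nat_lit 25257288), (nat_lit 16296408)] (nat_lit 11026205)) p14_17_1 (nat_lit 3) (nat_lit 106) (nat_lit 107) = true := by decide +kernel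
def p14_17_1_107 : pfC (piC [(nat_lit 40745421), (nat_lit 25257288), (nat_lit 16296408)] (nat_lit 11026205)) p14_17_1 (nat_lit 3) (nat_lit 107) (nat_lit 108) = true := by decide +kernel
def p14_17_1_108 : pfC (piC [(nat_lit 40745421), (nat_lit 25257288), (nat_lit 16296408)] (nat_lit 11026205)) p14_17_1 (nat_lit 3) (nat_lit 108) (nat_lit 109) = true := by decide +kernel
def p14_17_1_109 : pfC (piC [(nat_lit 40745421), (nat_lit 25257288), (nat_lit 16296408)] (nat_lit 11026205)) p14_17_1 (nat_lit 3) (nat_lit 109) (nat_lit 110) = true := by decide +kernel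
def p14_17_1_110 : pfC (piC [(nat_lit 40745421), (nat_lit 25257288), (nat_lit 16296408)] (nat_lit 11026205)) p14_17_1 (nat_lit 3) (nat_lit 110) (nat_lit 111) = true := by decide +kernel
def p14_17_1_111 : pfC (piC [(nat_lit 40745421), (nat_lit 25257288), (nat_lit 16296408)] (nat_lit 11026205)) p14_17_1 (nat_lit 3) (nat_lit 111) (nat_lit 112) = true := by decide +kernel
def p14_17_1_112 : pfC (piC [(nat_lit 40745421), (nat_lit 25257288), (nat_lit 16296408)] (nat_lit 11026205)) p14_17_1 (nat_lit 3) (nat_lit 112) (nat_lit 113) = true := by decide +kernel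
def p14_17_1_113 : pfC (piC [(nat_lit 40745421), (nat_lit 25257288), (nat_lit 16296408)] (nat_lit 11026205)) p14_17_1 (nat_lit 3) (nat_lit 113) (nat_lit 114) = true := by decide +kernel
def p14_17_1_114 : pfC (piC [(nat_lit 40745421), (nat_lit 25257288), (nat_lit 16296408)] (nat_lit 11026205)) p14_17_1 (nat_lit 3) (nat_lit 114) (nat_lit 115) = true := by decide +kernel
def p14_17_1_115 : pfC (piC [(nat_lit 40745421), (nat_lit 25257288), (nat_lit 16296408)] (nat_lit 11026205)) p14_17_1 (nat_lit 3) (nat_lit 115) (nat_lit 116) = true := by decide +kernel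
def p14_17_1_116 : pfC (piC [(nat_lit 40745421), (nat_lit 25257288), (nat_lit 16296408)] (nat_lit 11026205)) p14_17_1 (nat_lit 3) (nat_lit 116) (nat_lit 117) = true := by decide +kernel
def p14_17_1_117 : pfC (piC [(nat_lit 40745421), (nat_lit 25257288), (nat_lit 16296408)] (nat_lit 11026205)) p14_17_1 (nat_lit 3) (nat_lit 117) (nat_lit 118) = true := by decide +kernel
def p14_17_1_118 : pfC (piC [(nat_lit 40745421), (nat_lit 25257288), (nat_lit 16296408)] (nat_lit 11026205)) p14_17_1 (nat_lit 3) (nat_lit 118) (nat_lit 119) = true := by decide +kernel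
def p14_17_1_119 : pfC (piC [(nat_lit 40745421), (nat_lit 25257288), (nat_lit 16296408)] (nat_lit 11026205)) p14_17_1 (nat_lit 3) (nat_lit 119) (nat_lit 120) = true := by decide +kernel
def p14_17_1_120 : pfC (piC [(nat_lit 40745421), (nat_lit 25257288), (nat_lit 16296408)] (nat_lit 11026205)) p14_17_1 (nat_lit 3) (nat_lit 120) (nat_lit 121) = true := by decide +kernel
def p14_17_1_121 : pfC (piC [(nat_lit 40745421), (nat_lit 25257288), (nat_lit 16296408)] (nat_lit 11026205)) p14_17_1 (nat_lit 3) (nat_lit 121) (nat_lit 122) = true := by decide +kernel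
def p14_17_1_122 : pfC (piC [(nat_lit 40745421), (nat_lit 25257288), (nat_lit 16296408)] (nat_lit 11026205)) p14_17_1 (nat_lit 3) (nat_lit 122) (nat_lit 123) = true := by decide +kernel
def p14_17_1_123 : pfC (piC [(nat_lit 40745421), (nat_lit 25257288), (nat_lit 16296408)] (nat_lit 11026205)) p14_17_1 (nat_lit 3) (nat_lit 123) (nat_lit 124) = true := by decide +kernel
def p14_17_1_124 : pfC (piC [(nat_lit 40745421), (nat_lit 25257288), (nat_lit 16296408)] (nat_lit 11026205)) p14_17_1 (nat_lit 3) (nat_lit 124) (nat_lit 125) = true := by decide +kernel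
def p14_17_1_125 : pfC (piC [(nat_lit 40745421), (nat_lit 25257288), (nat_lit 16296408)] (nat_lit 11026205)) p14_17_1 (nat_lit 3) (nat_lit 125) (nat_lit 126) = true := by decide +kernel
def p14_17_1_126 : pfC (piC [(nat_lit 40745421), (nat_lit 25257288), (nat_lit 16296408)] (nat_lit 11026205)) p14_17_1 (nat_lit 3) (nat_lit 126) (nat_lit 127) = true := by decide +kernel
def p14_17_1_127 : pfC (piC [(nat_lit 40745421), (nat_lit 25257288), (nat_lit 16296408)] (nat_lit 11026205)) p14_17_1 (nat_lit 3) (nat_lit 127) (nat_lit 128) = true := by decide +kernel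
def p14_17_1_128 : pfC (piC [(nat_lit 40745421), (nat_lit 25257288), (nat_lit 16296408)] (nat_lit 11026205)) p14_17_1 (nat_lit 3) (nat_lit 128) (nat_lit 129) = true := by decide +kernel
def p14_17_1_129 : pfC (piC [(nat_lit 40745421), (nat_lit 25257288), (nat_lit 16296408)] (nat_lit 11026205)) p14_17_1 (nat_lit 3) (nat_lit 129) (nat_lit 130) = true := by decide +kernel
def p14_17_1_130 : pfC (piC [(nat_lit 40745421), (nat_lit 25257288), (nat_lit 16296408)] (nat_lit 11026205)) p14_17_1 (nat_lit 3) (nat_lit 130) (nat_lit 131) = true := by decide +kernel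
def p14_17_1_131 : pfC (piC [(nat_lit 40745421), (nat_lit 25257288), (nat_lit 16296408)] (nat_lit 11026205)) p14_17_1 (nat_lit 3) (nat_lit 131) (nat_lit 132) = true := by decide +kernel
def p14_17_1_132 : pfC (piC [(nat_lit 40745421), (nat_lit 25257288), (nat_lit 16296408)] (nat_lit 11026205)) p14_17_1 (nat_lit 3) (nat_lit 132) (nat_lit 133) = true := by decide +kernel
def p14_17_1_133 : pfC (piC [(nat_lit 40745421), (nat_lit 25257288), (nat_lit 16296408)] (nat_lit 11026205)) p14_17_1 (nat_lit 3) (nat_lit 133) (nat_lit 134) = true := by decide +kernel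
def p14_17_1_134 : pfC (piC [(nat_lit 40745421), (nat_lit 25257288), (nat_lit 16296408)] (nat_lit 11026205)) p14_17_1 (nat_lit 3) (nat_lit 134) (nat_lit 135) = true := by decide +kernel
def p14_17_1_135 : pfC (piC [(nat_lit 40745421), (nat_lit 25257288), (nat_lit 16296408)] (nat_lit 11026205)) p14_17_1 (nat_lit 3) (nat_lit 135) (nat_lit 136) = true := by decide +kernel
def p14_17_1_136 : pfC (piC [(nat_lit 40745421), (nat_lit 25257288), (nat_lit 16296408)] (nat_lit 11026205)) p14_17_1 (nat_lit 3) (nat_lit 136) (nat_lit 137) = true := by decide +kernel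
def p14_17_1_137 : pfC (piC [(nat_lit 40745421), (nat_lit 25257288), (nat_lit 16296408)] (nat_lit 11026205)) p14_17_1 (nat_lit 3) (nat_lit 137) (nat_lit 138) = true := by decide +kernel
def p14_17_1_138 : pfC (piC [(nat_lit 40745421), (nat_lit 25257288), (nat_lit 16296408)] (nat_lit 11026205)) p14_17_1 (nat_lit 3) (nat_lit 138) (nat_lit 139) = true := by decide +kernel
def p14_17_1_139 : pfC (piC [(nat_lit 40745421), (nat_lit 25257288), (nat_lit 16296408)] (nat_lit 11026205)) p14_17_1 (nat_lit 3) (nat_lit 139) (nat_lit 140) = true := by decide +kernel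
def p14_17_1_140 : pfC (piC [(nat_lit 40745421), (nat_lit 25257288), (nat_lit 16296408)] (nat_lit 11026205)) p14_17_1 (nat_lit 3) (nat_lit 140) (nat_lit 141) = true := by decide +kernel
def p14_17_1_141 : pfC (piC [(nat_lit 40745421), (nat_lit 25257288), (nat_lit 16296408)] (nat_lit 11026205)) p14_17_1 (nat_lit 3) (nat_lit 141) (nat_lit 142) = true := by decide +kernel
def p14_17_1_142 : pfC (piC [(nat_lit 40745421), (nat_lit 25257288), (nat_lit 16296408)] (nat_lit 11026205)) p14_17_1 (nat_lit 3) (nat_lit 142) (nat_lit 143) = true := by decide +kernel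
def p14_17_1_143 : pfC (piC [(nat_lit 40745421), (nat_lit 25257288), (nat_lit 16296408)] (nat_lit 11026205)) p14_17_1 (nat_lit 3) (nat_lit 143) (nat_lit 144) = true := by decide +kernel
def p14_17_1_144 : pfC (piC [(nat_lit 40745421), (nat_lit 25257288), (nat_lit 16296408)] (nat_lit 11026205)) p14_17_1 (nat_lit 3) (nat_lit 144) (nat_lit 145) = true := by decide +kernel
def p14_17_1_145 : pfC (piC [(nat_lit 40745421), (nat_lit 25257288), (nat_lit 16296408)] (nat_lit 11026205)) p14_17_1 (nat_lit 3) (nat_lit 145) (nat_lit 146) = true := by decide +kernel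
def p14_17_1_146 : pfC (piC [(nat_lit 40745421), (nat_lit 25257288), (nat_lit 16296408)] (nat_lit 11026205)) p14_17_1 (nat_lit 3) (nat_lit 146) (nat_lit 147) = true := by decide +kernel
def p14_17_1_147 : pfC (piC [(nat_lit 40745421), (nat_lit 25257288), (nat_lit 16296408)] (nat_lit 11026205)) p14_17_1 (nat_lit 3) (nat_lit 147) (nat_lit 148) = true := by decide +kernel
def p14_17_1_148 : pfC (piC [(nat_lit 40745421), (nat_lit 25257288), (nat_lit 16296408)] (nat_lit 11026205)) p14_17_1 (nat_lit 3) (nat_lit 148) (nat_lit 149) = true := by decide +kernel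
def p14_17_1_149 : pfC (piC [(nat_lit 40745421), (nat_lit 25257288), (nat_lit 16296408)] (nat_lit 11026205)) p14_17_1 (nat_lit 3) (nat_lit 149) (nat_lit 150) = true := by decide +kernel
def p14_17_1_150 : pfC (piC [(nat_lit 40745421), (nat_lit 25257288), (nat_lit 16296408)] (nat_lit 11026205)) p14_17_1 (nat_lit 3) (nat_lit 150) (nat_lit 151) = true := by decide +kernel
def p14_17_1_151 : pfC (piC [(nat_lit 40745421), (nat_lit 25257288), (nat_lit 16296408)] (nat_lit 11026205)) p14_17_1 (nat_lit 3) (nat_lit 151) (nat_lit 152) = true := by decide +kernel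
theorem p14_17_1_T : PfS (PiF n14_17.reverse (nat_lit 11026205)) p14_17_1 (nat_lit 3) [] 0 :=
  pftab_of (los := [(nat_lit 40745421), (nat_lit 25257288), (nat_lit 16296408)]) (by decide +kernel) (hi := (nat_lit 152)) (PfP.trans (PfP.trans (PfP.trans (PfP.trans (PfP.trans (PfP.trans (PfP.trans (PfP.trans (PfP.trans (PfP.trans (PfP.trans (PfP.trans (PfP.trans (PfP.trans (PfP.trans (PfP.trans (PfP.trans (PfP.trans (PfP.trans (PfP.trans (PfP.trans (PfP.trans (PfP.trans (PfP.trans (PfP.trans (PfP.trans (PfP.trans (PfP.trans (PfP.trans (PfP.trans (PfP.trans (PfP.trans (PfP.trans (PfP.trans (PfP.trans (PfP.trans (PfP.trans (PfP.trans (PfP.trans (PfP.trans (PfP.trans (PfP.trans (PfP.trans (PfP.trans (PfP.trans (PfP.trans (PfP.trans (PfP.trans (PfP.trans (PfP.trans (PfP.trans (PfP.trans (PfP.trans (PfP.trans (PfP.trans (PfP.trans (PfP.trans (PfP.trans (PfP.trans (PfP.trans (PfP.trans (PfP.trans (PfP.trans (PfP.trans (PfP.trans (PfP.trans (PfP.trans (PfP.trans (PfP.trans (PfP.trans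 (PfP.trans (PfP.trans (PfP.trans (PfP.trans (PfP.trans (PfP.trans (PfP.trans (PfP.trans (PfP.trans (PfP.trans (PfP.trans (PfP.trans (PfP.trans (PfP.trans (PfP.trans (PfP.trans (PfP.trans (PfP.trans (PfP.trans (PfP.trans (PfP.trans (PfP.trans (PfP.trans (PfP.trans (PfP.trans (PfP.trans (PfP.trans (PfP.trans (PfP.trans (PfP.trans (PfP.trans (PfP.trans (PfP.trans (PfP.trans (PfP.trans (PfP.trans (PfP.trans (PfP.trans (PfP.trans
 (PfP.trans (PfP.trans (PfP.trans (PfP.trans (PfP.trans (PfP.trans (PfP.trans (PfP.trans (PfP.trans (PfP.trans (PfP.trans (PfP.trans (PfP.trans (PfP.trans (PfP.trans (PfP.trans (PfP.trans (PfP.trans (PfP.trans (PfP.trans (PfP.trans (PfP.trans (PfP.trans (PfP.trans (PfP.trans (PfP.trans (PfP.trans (PfP.trans (PfP.trans (PfP.trans (PfP.trans (PfP.trans (PfP.trans (PfP.trans (PfP.trans (PfP.trans (PfP.trans (PfP.trans (PfP.trans (PfP.trans (PfP.trans (PfP.trans (pfC_sound p14_17_1_0) (pfC_sound p14_17_1_1)) (pfC_sound p14_17_1_2)) (pfC_sound p14_17_1_3))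 (pfC_sound p14_17_1_4)) (pfC_sound p14_17_1_5)) (pfC_sound p14_17_1_6)) (pfC_sound p14_17_1_7)) (pfC_sound p14_17_1_8)) (pfC_sound p14_17_1_9)) (pfC_sound p14_17_1_10)) (pfC_sound p14_17_1_11)) (pfC_sound p14_17_1_12)) (pfC_sound p14_17_1_13)) (pfC_sound p14_17_1_14)) (pfC_sound p14_17_1_15)) (pfC_sound p14_17_1_16)) (pfC_sound p14_17_1_17)) (pfC_sound p14_17_1_18)) (pfC_sound p14_17_1_19)) (pfC_sound p14_17_1_20)) (pfC_sound p14_17_1_21)) (pfC_sound p14_17_1_22)) (pfC_sound p14_17_1_23)) (pfC_sound p14_17_1_24)) (pfC_sound p14_17_1_25)) (pfC_sound p14_17_1_26)) (pfC_sound p14_17_1_27)) (pfC_sound p14_17_1_28)) (pfC_sound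
 p14_17_1_29)) (pfC_sound p14_17_1_30)) (pfC_sound p14_17_1_31)) (pfC_sound p14_17_1_32)) (pfC_sound p14_17_1_33)) (pfC_sound p14_17_1_34)) (pfC_sound p14_17_1_35)) (pfC_sound p14_17_1_36)) (pfC_sound p14_17_1_37)) (pfC_sound p14_17_1_38)) (pfC_sound p14_17_1_39)) (pfC_sound p14_17_1_40)) (pfC_sound p14_17_1_41)) (pfC_sound p14_17_1_42)) (pfC_sound p14_17_1_43)) (pfC_sound p14_17_1_44)) (pfC_sound p14_17_1_45)) (pfC_sound p14_17_1_46)) (pfC_sound p14_17_1_47)) (pfC_sound p14_17_1_48)) (pfC_sound p14_17_1_49)) (pfC_sound p14_17_1_50)) (pfC_sound p14_17_1_51)) (pfC_sound p14_17_1_52)) (pfC_sound p14_17_1_53)) (pfC_sound p14_17_1_54)) (pfC_sound p14_17_1_55)) (pfC_sound p14_17_1_56)) (pfC_sound p14_17_1_57)) (pfC_sound p14_17_1_58)) (pfC_sound p14_17_1_59)) (pfC_sound p14_17_1_60)) (pfC_sound p14_17_1_61)) (pfC_sound p14_17_1_62)) (pfC_sound p14_17_1_63)) (pfC_sound p14_17_1_64)) (pfC_sound p14_17_1_65)) (pfC_sound p14_17_1_66)) (pfC_sound p14_17_1_67)) (pfC_sound p14_17_1_68))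 (pfC_sound p14_17_1_69)) (pfC_sound p14_17_1_70)) (pfC_sound p14_17_1_71)) (pfC_sound p14_17_1_72)) (pfC_sound p14_17_1_73)) (pfC_sound p14_17_1_74)) (pfC_sound p14_17_1_75)) (pfC_sound p14_17_1_76)) (pfC_sound
 p14_17_1_77)) (pfC_sound p14_17_1_78)) (pfC_sound p14_17_1_79)) (pfC_sound p14_17_1_80)) (pfC_sound p14_17_1_81)) (pfC_sound p14_17_1_82)) (pfC_sound p14_17_1_83)) (pfC_sound p14_17_1_84)) (pfC_sound p14_17_1_85)) (pfC_sound p14_17_1_86)) (pfC_sound p14_17_1_87)) (pfC_sound p14_17_1_88)) (pfC_sound p14_17_1_89)) (pfC_sound p14_17_1_90)) (pfC_sound p14_17_1_91)) (pfC_sound p14_17_1_92)) (pfC_sound p14_17_1_93)) (pfC_sound p14_17_1_94)) (pfC_sound p14_17_1_95)) (pfC_sound p14_17_1_96)) (pfC_sound p14_17_1_97)) (pfC_sound p14_17_1_98)) (pfC_sound p14_17_1_99)) (pfC_sound p14_17_1_100)) (pfC_sound p14_17_1_101)) (pfC_sound p14_17_1_102)) (pfC_sound p14_17_1_103)) (pfC_sound p14_17_1_104)) (pfC_sound p14_17_1_105)) (pfC_sound p14_17_1_106)) (pfC_sound p14_17_1_107))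 (pfC_sound p14_17_1_108)) (pfC_sound p14_17_1_109)) (pfC_sound p14_17_1_110)) (pfC_sound p14_17_1_111)) (pfC_sound p14_17_1_112)) (pfC_sound p14_17_1_113)) (pfC_sound p14_17_1_114)) (pfC_sound p14_17_1_115)) (pfC_sound p14_17_1_116)) (pfC_sound p14_17_1_117)) (pfC_sound p14_17_1_118)) (pfC_sound p14_17_1_119)) (pfC_sound p14_17_1_120)) (pfC_sound p14_17_1_121)) (pfC_sound p14_17_1_122)) (pfC_sound p14_17_1_123)) (pfC_sound
 p14_17_1_124)) (pfC_sound p14_17_1_125)) (pfC_sound p14_17_1_126)) (pfC_sound p14_17_1_127)) (pfC_sound p14_17_1_128)) (pfC_sound p14_17_1_129)) (pfC_sound p14_17_1_130)) (pfC_sound p14_17_1_131)) (pfC_sound p14_17_1_132)) (pfC_sound p14_17_1_133)) (pfC_sound p14_17_1_134)) (pfC_sound p14_17_1_135)) (pfC_sound p14_17_1_136)) (pfC_sound p14_17_1_137)) (pfC_sound p14_17_1_138)) (pfC_sound p14_17_1_139)) (pfC_sound p14_17_1_140)) (pfC_sound p14_17_1_141)) (pfC_sound p14_17_1_142)) (pfC_sound p14_17_1_143)) (pfC_sound p14_17_1_144)) (pfC_sound p14_17_1_145))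 (pfC_sound p14_17_1_146)) (pfC_sound p14_17_1_147)) (pfC_sound p14_17_1_148)) (pfC_sound p14_17_1_149)) (pfC_sound p14_17_1_150)) (pfC_sound p14_17_1_151)) (by decide +kernel)

def z14_17_1 : zOK yB14_17 (nat_lit 1) (nat_lit 400) (nat_lit 600) (nat_lit 11026205) (nat_lit 7072463) = true := by decide +kernel
def g14_17_1 : gOK yB14_17.x P14_17 (nat_lit 1399) (q14_17 :: r14_17) (nat_lit 1) (nat_lit 400) (nat_lit 2) (nat_lit 600) (nat_lit 11000000) (nat_lit 17850000) (nat_lit 12712500) (nat_lit 12712500) [(nat_lit 800), (nat_lit 1130)] = true := by decide +kernel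
def v14_17_1 : ivC P14_17 s14_17 w14_17 n14_17 (nat_lit 3) (nat_lit 4920) (nat_lit 1) (nat_lit 400) f176_0_400 f184_0_400 (nat_lit 2) (nat_lit 600) f176_0_600 f184_0_600 (nat_lit 11026205) (nat_lit 7072463) p14_17_1 = true := by decide +kernel
def p14_17_2 : PF := (PF.cons (PF.cons (PF.cons (PF.leaf (nat_lit 2649384) (nat_lit 14922231) (nat_lit 52186581) (nat_lit 14922231) [(nat_lit 0), (nat_lit 0), (nat_lit 0)]) (PF.cons (PF.leaf (nat_lit 2796984) (nat_lit 253871) (nat_lit 51942846) (nat_lit 14912094) [(nat_lit 253871), (nat_lit 0), (nat_lit 0)]) (PF.cons (PF.leaf (nat_lit 2972307) (nat_lit 275973) (nat_lit 51657771) (nat_lit 14899094) [(nat_lit 275973), (nat_lit 0), (nat_lit 0)]) (PF.cons (PF.leaf (nat_lit 3169085) (nat_lit 295560) (nat_lit 51338991) (nat_lit 14883139) [(nat_lit 295560), (nat_lit 0), (nat_lit 0)]) (PF.cons (PF.leaf (nat_lit 3384210) (nat_lit 313196) (nat_lit 50991915) (nat_lit 14864111) [(nat_lit 313196), (nat_lit 0), (nat_lit 0)]) (PF.cons (PF.leaf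 (nat_lit 3615381) (nat_lit 329242) (nat_lit 50620708) (nat_lit 14841893) [(nat_lit 329242), (nat_lit 0), (nat_lit 0)]) (PF.cons (PF.leaf (nat_lit 3860644) (nat_lit 343944) (nat_lit 50228755) (nat_lit 14816389) [(nat_lit 343944), (nat_lit 0), (nat_lit 0)]) (PF.cons (PF.leaf (nat_lit 4118518) (nat_lit 357483) (nat_lit 49818904) (nat_lit 14787526) [(nat_lit 357483), (nat_lit 0), (nat_lit 0)]) (PF.cons (PF.leaf (nat_lit 4387511) (nat_lit 369992) (nat_lit 49393611) (nat_lit
 14755260) [(nat_lit 369992), (nat_lit 0), (nat_lit 0)]) (PF.cons (PF.leaf (nat_lit 4666422) (nat_lit 381578) (nat_lit 48955034) (nat_lit 14719571) [(nat_lit 381578), (nat_lit 0), (nat_lit 0)]) (PF.cons (PF.leaf (nat_lit 4954134) (nat_lit 392325) (nat_lit 48505088) (nat_lit 14680464) [(nat_lit 392325), (nat_lit 0), (nat_lit 0)]) (PF.cons (PF.leaf (nat_lit 5249727) (nat_lit 402304) (nat_lit 48045494) (nat_lit 14637970) [(nat_lit 402304), (nat_lit 0), (nat_lit 0)]) (PF.cons (PF.leaf (nat_lit 5552229)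 (nat_lit 411572) (nat_lit 47577800) (nat_lit 14592140) [(nat_lit 411572), (nat_lit 0), (nat_lit 0)]) (PF.cons (PF.leaf (nat_lit 5860822) (nat_lit 420181) (nat_lit 47103414) (nat_lit 14543042) [(nat_lit 420181), (nat_lit 0), (nat_lit 0)]) (PF.cons PF.nil (PF.cons PF.nil (PF.cons PF.nil (PF.cons PF.nil PF.nil)))))))))))))))))) (PF.cons (PF.cons (PF.leaf (nat_lit 3291349) (nat_lit 1589123) (nat_lit 50681433) (nat_lit 14838256) [(nat_lit 0), (nat_lit 1589123), (nat_lit 0)]) (PF.cons (PF.leaf (nat_lit 3485830) (nat_lit 312601) (nat_lit 50360266) (nat_lit 14817730) [(nat_lit 312601), (nat_lit 1618214), (nat_lit 0)]) (PF.cons (PF.leaf (nat_lit 3700688) (nat_lit 329162) (nat_lit 50009724)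
 (nat_lit 14793755) [(nat_lit 329162), (nat_lit 1647006), (nat_lit 0)]) (PF.cons (PF.leaf (nat_lit 3931889) (nat_lit 344124) (nat_lit 49635125) (nat_lit 14766360) [(nat_lit 344124), (nat_lit 1674953), (nat_lit 0)]) (PF.cons (PF.leaf (nat_lit 4177168) (nat_lit 357771) (nat_lit 49240426) (nat_lit 14735551) [(nat_lit 357771), (nat_lit 1701749), (nat_lit 0)]) (PF.cons (PF.leaf (nat_lit 4434784) (nat_lit 370297) (nat_lit 48828767) (nat_lit 14701334) [(nat_lit 370297), (nat_lit 1727223), (nat_lit 0)]) (PF.cons (PF.leaf (nat_lit 4703206) (nat_lit 381843) (nat_lit 48402744) (nat_lit 14663727) [(nat_lit 381843), (nat_lit 1751282), (nat_lit 0)]) (PF.cons (PF.leaf (nat_lit 4981157) (nat_lit 392513) (nat_lit 47964566) (nat_lit 14622764) [(nat_lit 392513), (nat_lit 1773884), (nat_lit 0)]) (PF.cons (PF.leaf (nat_lit 5267576) (nat_lit 402393) (nat_lit 47516154) (nat_lit 14578494) [(nat_lit 402393), (nat_lit 1795019), (nat_lit 0)]) (PF.cons (PF.leaf (nat_lit 5561396) (nat_lit 411548)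 (nat_lit 47059196) (nat_lit 14530981) [(nat_lit 411548), (nat_lit 1814696), (nat_lit 0)]) (PF.cons (PF.leaf (nat_lit 5861735) (nat_lit 420036) (nat_lit 46595197) (nat_lit 14480305) [(nat_lit 420036), (nat_lit
 1832941), (nat_lit 0)]) (PF.cons (PF.leaf (nat_lit 6167773) (nat_lit 427905) (nat_lit 46125505) (nat_lit 14426560) [(nat_lit 427905), (nat_lit 1849784), (nat_lit 0)]) (PF.cons PF.nil (PF.cons PF.nil (PF.cons PF.nil (PF.cons PF.nil PF.nil)))))))))))))))) (PF.cons (PF.cons (PF.leaf (nat_lit 4019622) (nat_lit 1694956) (nat_lit 49009586) (nat_lit 14709314) [(nat_lit 0), (nat_lit 1694956), (nat_lit 0)]) (PF.cons (PF.leaf (nat_lit 4247741) (nat_lit 356383) (nat_lit 48637732) (nat_lit 14677433) [(nat_lit 356383), (nat_lit 1718631), (nat_lit 0)]) (PF.cons (PF.leaf (nat_lit 4491269) (nat_lit 369278) (nat_lit 48245275) (nat_lit 14641968) [(nat_lit 369278), (nat_lit 1741505), (nat_lit 0)]) (PF.cons (PF.leaf (nat_lit 4747240) (nat_lit 381032) (nat_lit 47835989) (nat_lit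 14603030) [(nat_lit 381032), (nat_lit 1763347), (nat_lit 0)]) (PF.cons (PF.leaf (nat_lit 5013967) (nat_lit 391808) (nat_lit 47412813) (nat_lit 14560712) [(nat_lit 391808), (nat_lit 1784026), (nat_lit 0)]) (PF.cons (PF.leaf (nat_lit 5290084) (nat_lit 401727) (nat_lit 46978135) (nat_lit 14515102) [(nat_lit 401727), (nat_lit 1803468), (nat_lit 0)]) (PF.cons (PF.leaf (nat_lit 5574363) (nat_lit 410878) (nat_lit 46533963) (nat_lit
 14466293) [(nat_lit 410878), (nat_lit 1821642), (nat_lit 0)]) (PF.cons (PF.leaf (nat_lit 5865777) (nat_lit 419332) (nat_lit 46082020) (nat_lit 14414384) [(nat_lit 419332), (nat_lit 1838539), (nat_lit 0)]) (PF.cons (PF.leaf (nat_lit 6163408) (nat_lit 427147) (nat_lit 45623809) (nat_lit 14359483) [(nat_lit 427147), (nat_lit 1854169), (nat_lit 0)]) (PF.cons (PF.leaf (nat_lit 6466429) (nat_lit 434372) (nat_lit 45160655) (nat_lit 14301702) [(nat_lit 434372), (nat_lit 1868551), (nat_lit 0)]) (PF.cons (PF.leaf (nat_lit 6774106) (nat_lit 441048) (nat_lit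 44693735) (nat_lit 14241162) [(nat_lit 441048), (nat_lit 1881715), (nat_lit 0)]) (PF.cons PF.nil (PF.cons PF.nil (PF.cons PF.nil PF.nil)))))))))))))) (PF.cons (PF.cons (PF.leaf (nat_lit 4804307) (nat_lit 1774914) (nat_lit 47247523) (nat_lit 14536545) [(nat_lit 0), (nat_lit 1774914), (nat_lit 0)]) (PF.cons (PF.leaf (nat_lit 5056463) (nat_lit 389921) (nat_lit 46844545) (nat_lit 14493613) [(nat_lit 389921), (nat_lit 1793577), (nat_lit 0)]) (PF.cons (PF.leaf (nat_lit 5320291) (nat_lit 400101) (nat_lit 46427473) (nat_lit 14447268) [(nat_lit 400101), (nat_lit 1811289), (nat_lit 0)]) (PF.cons (PF.leaf (nat_lit 5593544) (nat_lit 409410) (nat_lit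
 45999055) (nat_lit 14397671) [(nat_lit 409410), (nat_lit 1827951), (nat_lit 0)]) (PF.cons (PF.leaf (nat_lit 5874928) (nat_lit 417954) (nat_lit 45561494) (nat_lit 14344964) [(nat_lit 417954), (nat_lit 1843512), (nat_lit 0)]) (PF.cons (PF.leaf (nat_lit 6163263) (nat_lit 425812) (nat_lit 45116618) (nat_lit 14289286) [(nat_lit 425812), (nat_lit 1857948), (nat_lit 0)]) (PF.cons (PF.leaf (nat_lit 6457659) (nat_lit 433048) (nat_lit 44665980) (nat_lit 14230769) [(nat_lit 433048), (nat_lit 1871257), (nat_lit 0)]) (PF.cons (PF.leaf (nat_lit 6757241) (nat_lit 439712) (nat_lit 44210920) (nat_lit 14169548) [(nat_lit 439712), (nat_lit 1883451), (nat_lit 0)]) (PF.cons (PF.leaf (nat_lit 7061257) (nat_lit 445849) (nat_lit 43752607) (nat_lit 14105759) [(nat_lit 445849), (nat_lit 1894550), (nat_lit 0)]) (PF.cons PF.nil (PF.cons PF.nil (PF.cons PF.nil PF.nil)))))))))))) (PF.cons (PF.cons (PF.leaf (nat_lit 5623297) (nat_lit 1833766) (nat_lit 45449364) (nat_lit 14324383) [(nat_lit 0),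 (nat_lit 1833766), (nat_lit 0)]) (PF.cons (PF.leaf (nat_lit 5892101) (nat_lit 415704) (nat_lit 45029785) (nat_lit 14271492) [(nat_lit 415704), (nat_lit 1847957), (nat_lit 0)]) (PF.cons (PF.leaf (nat_lit 6169714) (nat_lit
 423754) (nat_lit 44600985) (nat_lit 14215542) [(nat_lit 423754), (nat_lit 1861193), (nat_lit 0)]) (PF.cons (PF.leaf (nat_lit 6454346) (nat_lit 431114) (nat_lit 44164996) (nat_lit 14156716) [(nat_lit 431114), (nat_lit 1873439), (nat_lit 0)]) (PF.cons (PF.leaf (nat_lit 6744947) (nat_lit 437855) (nat_lit 43723484) (nat_lit 14095182) [(nat_lit 437855), (nat_lit 1884680), (nat_lit 0)]) (PF.cons (PF.leaf (nat_lit 7040627) (nat_lit 444036) (nat_lit 43277849) (nat_lit 14031096) [(nat_lit 444036), (nat_lit 1894921), (nat_lit 0)]) (PF.cons (PF.leaf (nat_lit 7340587) (nat_lit 449702) (nat_lit 42829285) (nat_lit 13964610) [(nat_lit 449702), (nat_lit 1904175), (nat_lit 0)]) (PF.cons PF.nil (PF.cons PF.nil (PF.cons PF.nil PF.nil)))))))))) (PF.cons (PF.cons (PF.leaf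 (nat_lit 6459756) (nat_lit 1875164) (nat_lit 43654020) (nat_lit 14078968) [(nat_lit 0), (nat_lit 1875164), (nat_lit 0)]) (PF.cons (PF.leaf (nat_lit 6739452) (nat_lit 435338) (nat_lit 43228596) (nat_lit 14017618) [(nat_lit 435338), (nat_lit 1885451), (nat_lit 0)]) (PF.cons (PF.leaf (nat_lit 7025680) (nat_lit 441667) (nat_lit 42797603) (nat_lit 13953651) [(nat_lit 441667), (nat_lit 1894844), (nat_lit 0)]) (PF.cons (PF.leaf (nat_lit
 7317022) (nat_lit 447435) (nat_lit 42362557) (nat_lit 13887253) [(nat_lit 447435), (nat_lit 1903339), (nat_lit 0)]) (PF.cons (PF.leaf (nat_lit 7612617) (nat_lit 452695) (nat_lit 41924720) (nat_lit 13818597) [(nat_lit 452695), (nat_lit 1910942), (nat_lit 0)]) (PF.cons (PF.leaf (nat_lit 7911734) (nat_lit 457490) (nat_lit 41485160) (nat_lit 13747843) [(nat_lit 457490), (nat_lit 1917670), (nat_lit 0)]) (PF.cons PF.nil (PF.cons PF.nil PF.nil)))))))) (PF.cons (PF.cons (PF.leaf (nat_lit 7300865) (nat_lit 1902103) (nat_lit 41889179) (nat_lit 13807010)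 [(nat_lit 0), (nat_lit 1902103), (nat_lit 0)]) (PF.cons (PF.leaf (nat_lit 7586914) (nat_lit 449986) (nat_lit 41465777) (nat_lit 13738837) [(nat_lit 449986), (nat_lit 1909035), (nat_lit 0)]) (PF.cons (PF.leaf (nat_lit 7877761) (nat_lit 454901) (nat_lit 41039526) (nat_lit 13668513) [(nat_lit 454901), (nat_lit 1915161), (nat_lit 0)]) (PF.cons (PF.leaf (nat_lit 8172158) (nat_lit 459356) (nat_lit 40611562) (nat_lit 13596216) [(nat_lit 459356), (nat_lit 1920494), (nat_lit 0)]) (PF.cons PF.nil (PF.cons PF.nil PF.nil)))))) (PF.cons (PF.cons (PF.leaf (nat_lit 8136966) (nat_lit 1917103) (nat_lit 40174023) (nat_lit 13515061) [(nat_lit 0), (nat_lit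
 1917103), (nat_lit 0)]) (PF.cons (PF.leaf (nat_lit 8425897) (nat_lit 460550) (nat_lit 39758273) (nat_lit 13441668) [(nat_lit 460550), (nat_lit 1921188), (nat_lit 0)]) (PF.cons PF.nil (PF.cons PF.nil PF.nil)))) (PF.cons (PF.cons (PF.leaf (nat_lit 8960953) (nat_lit 1922305) (nat_lit 38521263) (nat_lit 13209102) [(nat_lit 0), (nat_lit 1922305), (nat_lit 0)]) (PF.cons PF.nil PF.nil)) (PF.cons PF.nil (PF.cons PF.nil PF.nil))))))))))) (PF.cons (PF.cons (PF.cons (PF.leaf (nat_lit 4291626) (nat_lit 6185792) (nat_lit 46540652) (nat_lit 14382367) [(nat_lit 0), (nat_lit 0), (nat_lit 6185792)]) (PF.cons (PF.leaf (nat_lit 4493111) (nat_lit 338040) (nat_lit 46227676) (nat_lit 14348321) [(nat_lit 338040), (nat_lit 0), (nat_lit 6194774)]) (PF.cons (PF.leaf (nat_lit 4713465) (nat_lit 353281) (nat_lit 45888933) (nat_lit 14310222) [(nat_lit 353281), (nat_lit 0), (nat_lit 6203094)]) (PF.cons (PF.leaf (nat_lit 4948516) (nat_lit 366722) (nat_lit 45529806) (nat_lit 14268436) [(nat_lit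 366722), (nat_lit 0), (nat_lit 6210402)]) (PF.cons (PF.leaf (nat_lit 5195970) (nat_lit 378729) (nat_lit 45154215) (nat_lit 14223224) [(nat_lit 378729), (nat_lit 0), (nat_lit 6216455)]) (PF.cons (PF.leaf (nat_lit 5453950)
 (nat_lit 389549) (nat_lit 44765191) (nat_lit 14174792) [(nat_lit 389549), (nat_lit 0), (nat_lit 6221083)]) (PF.cons (PF.leaf (nat_lit 5721000) (nat_lit 399359) (nat_lit 44365172) (nat_lit 14123313) [(nat_lit 399359), (nat_lit 0), (nat_lit 6224170)]) (PF.cons (PF.leaf (nat_lit 5995891) (nat_lit 408291) (nat_lit 43956181) (nat_lit 14068946) [(nat_lit 408291), (nat_lit 0), (nat_lit 6225641)]) (PF.cons (PF.leaf (nat_lit 6277576) (nat_lit 416448) (nat_lit 43539931) (nat_lit 14011840) [(nat_lit 416448), (nat_lit 0), (nat_lit 6225453)]) (PF.cons (PF.leaf (nat_lit 6565132) (nat_lit 423910) (nat_lit 43117894) (nat_lit 13952135) [(nat_lit 423910), (nat_lit 0), (nat_lit 6223587)]) (PF.cons (PF.leaf (nat_lit 6857743) (nat_lit 430744) (nat_lit 42691350) (nat_lit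 13889973) [(nat_lit 430744), (nat_lit 0), (nat_lit 6220042)]) (PF.cons (PF.leaf (nat_lit 7154674) (nat_lit 437005) (nat_lit 42261425) (nat_lit 13825489) [(nat_lit 437005), (nat_lit 0), (nat_lit 6214835)]) (PF.cons PF.nil (PF.cons PF.nil PF.nil)))))))))))))) (PF.cons (PF.cons (PF.leaf (nat_lit 5015467) (nat_lit 1755716) (nat_lit 44952836) (nat_lit 14191853) [(nat_lit 0), (nat_lit 1755716), (nat_lit 6208405)]) (PF.cons (PF.leaf (nat_lit
 5245295) (nat_lit 374832) (nat_lit 44601445) (nat_lit 14147461) [(nat_lit 374832), (nat_lit 1772896), (nat_lit 6212176)]) (PF.cons (PF.leaf (nat_lit 5488956) (nat_lit 386280) (nat_lit 44232794) (nat_lit 14099491) [(nat_lit 386280), (nat_lit 1789231), (nat_lit 6214734)]) (PF.cons (PF.leaf (nat_lit 5743506) (nat_lit 396516) (nat_lit 43850496) (nat_lit 14048252) [(nat_lit 396516), (nat_lit 1804582), (nat_lit 6215933)]) (PF.cons (PF.leaf (nat_lit 6007268) (nat_lit 405741) (nat_lit 43457304) (nat_lit 13993988) [(nat_lit 405741), (nat_lit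 1818880), (nat_lit 6215672)]) (PF.cons (PF.leaf (nat_lit 6278884) (nat_lit 414101) (nat_lit 43055410) (nat_lit 13936905) [(nat_lit 414101), (nat_lit 1832097), (nat_lit 6213894)]) (PF.cons (PF.leaf (nat_lit 6557218) (nat_lit 421703) (nat_lit 42646613) (nat_lit 13877182) [(nat_lit 421703), (nat_lit 1844231), (nat_lit 6210566)]) (PF.cons (PF.leaf (nat_lit 6841303) (nat_lit 428632) (nat_lit 42232426) (nat_lit 13814986) [(nat_lit 428632), (nat_lit 1855295), (nat_lit 6205678)]) (PF.cons (PF.leaf (nat_lit 7130294) (nat_lit 434956) (nat_lit 41814137) (nat_lit 13750472) [(nat_lit 434956), (nat_lit 1865313), (nat_lit 6199237)]) (PF.cons (PF.leaf (nat_lit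
 7423459) (nat_lit 440730) (nat_lit 41392865) (nat_lit 13683790) [(nat_lit 440730), (nat_lit 1874314), (nat_lit 6191264)]) (PF.cons PF.nil (PF.cons PF.nil PF.nil)))))))))))) (PF.cons (PF.cons (PF.leaf (nat_lit 5780108) (nat_lit 1808685) (nat_lit 43317558) (nat_lit 13968138) [(nat_lit 0), (nat_lit 1808685), (nat_lit 6205743)]) (PF.cons (PF.leaf (nat_lit 6029404) (nat_lit 402056) (nat_lit 42944743) (nat_lit 13914773) [(nat_lit 402056), (nat_lit 1821663), (nat_lit 6203912)]) (PF.cons (PF.leaf (nat_lit 6288937) (nat_lit 410846) (nat_lit 42560572) (nat_lit 13858336) [(nat_lit 410846), (nat_lit 1833758), (nat_lit 6200694)]) (PF.cons (PF.leaf (nat_lit 6556545) (nat_lit 418753) (nat_lit 42167565) (nat_lit 13799098) [(nat_lit 418753), (nat_lit 1844922), (nat_lit 6196043)]) (PF.cons (PF.leaf (nat_lit 6830933) (nat_lit 425901) (nat_lit 41767707) (nat_lit 13737285) [(nat_lit 425901), (nat_lit 1855135), (nat_lit 6189941)]) (PF.cons (PF.leaf (nat_lit 7111111) (nat_lit 432384) (nat_lit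 41362612) (nat_lit 13673094) [(nat_lit 432384), (nat_lit 1864398), (nat_lit 6182386)]) (PF.cons (PF.leaf (nat_lit 7396154) (nat_lit 438273) (nat_lit 40953624) (nat_lit 13606700) [(nat_lit 438273), (nat_lit
 1872726), (nat_lit 6173391)]) (PF.cons (PF.leaf (nat_lit 7685287) (nat_lit 443628) (nat_lit 40541884) (nat_lit 13538268) [(nat_lit 443628), (nat_lit 1880139), (nat_lit 6162982)]) (PF.cons PF.nil (PF.cons PF.nil PF.nil)))))))))) (PF.cons (PF.cons (PF.leaf (nat_lit 6567215) (nat_lit 1845262) (nat_lit 41676069) (nat_lit 13717071) [(nat_lit 0), (nat_lit 1845262), (nat_lit 6179885)]) (PF.cons (PF.leaf (nat_lit 6829462) (nat_lit 422343) (nat_lit 41293679) (nat_lit 13656255) [(nat_lit 422343), (nat_lit 1854602), (nat_lit 6172726)]) (PF.cons (PF.leaf (nat_lit 7099323) (nat_lit 429135) (nat_lit 40904142) (nat_lit 13592876) [(nat_lit 429135), (nat_lit 1863108), (nat_lit 6164197)]) (PF.cons (PF.leaf (nat_lit 7375084) (nat_lit 435253) (nat_lit 40509263) (nat_lit 13527173)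 [(nat_lit 435253), (nat_lit 1870769), (nat_lit 6154308)]) (PF.cons (PF.leaf (nat_lit 7655760) (nat_lit 440778) (nat_lit 40110495) (nat_lit 13459352) [(nat_lit 440778), (nat_lit 1877591), (nat_lit 6143078)]) (PF.cons (PF.leaf (nat_lit 7940564) (nat_lit 445774) (nat_lit 39709041) (nat_lit 13389593) [(nat_lit 445774), (nat_lit 1883587), (nat_lit 6130538)]) (PF.cons (PF.leaf (nat_lit 8228742) (nat_lit 450294) (nat_lit 39305911)
 (nat_lit 13318063) [(nat_lit 450294), (nat_lit 1888781), (nat_lit 6116724)]) (PF.cons PF.nil PF.nil)))))))) (PF.cons (PF.cons (PF.leaf (nat_lit 7363383) (nat_lit 1868476) (nat_lit 40056433) (nat_lit 13444588) [(nat_lit 0), (nat_lit 1868476), (nat_lit 6133884)]) (PF.cons (PF.leaf (nat_lit 7633704) (nat_lit 437307) (nat_lit 39672839) (nat_lit 13377854) [(nat_lit 437307), (nat_lit 1874709), (nat_lit 6121975)]) (PF.cons (PF.leaf (nat_lit 7909628) (nat_lit 442536) (nat_lit 39285136) (nat_lit 13309043) [(nat_lit 442536), (nat_lit 1880187), (nat_lit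 6108810)]) (PF.cons (PF.leaf (nat_lit 8189757) (nat_lit 447234) (nat_lit 38894640) (nat_lit 13238365) [(nat_lit 447234), (nat_lit 1884920), (nat_lit 6094423)]) (PF.cons (PF.leaf (nat_lit 8473354) (nat_lit 451458) (nat_lit 38502427) (nat_lit 13166001) [(nat_lit 451458), (nat_lit 1888923), (nat_lit 6078857)]) (PF.cons PF.nil PF.nil)))))) (PF.cons (PF.cons (PF.leaf (nat_lit 8158695) (nat_lit 1880759) (nat_lit 38477663) (nat_lit 13156311) [(nat_lit 0), (nat_lit 1880759), (nat_lit 6071041)]) (PF.cons (PF.leaf (nat_lit 8433352) (nat_lit 448059) (nat_lit 38098752) (nat_lit 13085104) [(nat_lit 448059), (nat_lit 1884364), (nat_lit 6055075)]) (PF.cons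
 (PF.leaf (nat_lit 8712078) (nat_lit 452038) (nat_lit 37717934) (nat_lit 13012266) [(nat_lit 452038), (nat_lit 1887305), (nat_lit 6038007)]) (PF.cons PF.nil PF.nil)))) (PF.cons (PF.cons (PF.leaf (nat_lit 8945840) (nat_lit 1884115) (nat_lit 36952274) (nat_lit 12857295) [(nat_lit 0), (nat_lit 1884115), (nat_lit 5994547)]) (PF.cons PF.nil PF.nil)) (PF.cons PF.nil (PF.cons PF.nil (PF.cons PF.nil PF.nil)))))))))) (PF.cons (PF.cons (PF.cons (PF.leaf (nat_lit 5930852) (nat_lit 6099312) (nat_lit 41307959) (nat_lit 13602227) [(nat_lit 0), (nat_lit 0), (nat_lit 6099312)]) (PF.cons (PF.leaf (nat_lit 6158578) (nat_lit 384369) (nat_lit 40983648) (nat_lit 13550903) [(nat_lit 384369), (nat_lit 0), (nat_lit 6094945)]) (PF.cons (PF.leaf (nat_lit 6398869) (nat_lit 394592) (nat_lit 40644778) (nat_lit 13496185) [(nat_lit 394592), (nat_lit 0), (nat_lit 6089331)]) (PF.cons (PF.leaf (nat_lit 6648800) (nat_lit 403582) (nat_lit 40294687) (nat_lit 13438501) [(nat_lit 403582), (nat_lit 0),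 (nat_lit 6082438)]) (PF.cons (PF.leaf (nat_lit 6906739) (nat_lit 411561) (nat_lit 39935877) (nat_lit 13378174) [(nat_lit 411561), (nat_lit 0), (nat_lit 6074256)]) (PF.cons (PF.leaf (nat_lit 7171380) (nat_lit 418690)
 (nat_lit 39570311) (nat_lit 13315468) [(nat_lit 418690), (nat_lit 0), (nat_lit 6064788)]) (PF.cons (PF.leaf (nat_lit 7441643) (nat_lit 425088) (nat_lit 39199577) (nat_lit 13250606) [(nat_lit 425088), (nat_lit 0), (nat_lit 6054049)]) (PF.cons (PF.leaf (nat_lit 7716679) (nat_lit 430845) (nat_lit 38824984) (nat_lit 13183782) [(nat_lit 430845), (nat_lit 0), (nat_lit 6042063)]) (PF.cons (PF.leaf (nat_lit 7995675) (nat_lit 436034) (nat_lit 38447637) (nat_lit 13115169) [(nat_lit 436034), (nat_lit 0), (nat_lit 6028862)]) (PF.cons PF.nil (PF.cons PF.nil (PF.cons PF.nil PF.nil)))))))))))) (PF.cons (PF.cons (PF.leaf (nat_lit 6668511) (nat_lit 1810560) (nat_lit 39818953) (nat_lit 13352866) [(nat_lit 0), (nat_lit 1810560), (nat_lit 6063216)]) (PF.cons (PF.leaf (nat_lit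 6912366) (nat_lit 406743) (nat_lit 39479511) (nat_lit 13294379) [(nat_lit 406743), (nat_lit 1819468), (nat_lit 6054355)]) (PF.cons (PF.leaf (nat_lit 7165364) (nat_lit 414415) (nat_lit 39130748) (nat_lit 13233172) [(nat_lit 414415), (nat_lit 1827568), (nat_lit 6044246)]) (PF.cons (PF.leaf (nat_lit 7425397) (nat_lit 421215) (nat_lit 38774930) (nat_lit 13169575) [(nat_lit 421215), (nat_lit 1834842), (nat_lit 6032909)]) (PF.cons
 (PF.leaf (nat_lit 7691251) (nat_lit 427277) (nat_lit 38413818) (nat_lit 13103851) [(nat_lit 427277), (nat_lit 1841292), (nat_lit 6020370)]) (PF.cons (PF.leaf (nat_lit 7961934) (nat_lit 432701) (nat_lit 38048821) (nat_lit 13036222) [(nat_lit 432701), (nat_lit 1846935), (nat_lit 6006661)]) (PF.cons (PF.leaf (nat_lit 8236669) (nat_lit 437566) (nat_lit 37681101) (nat_lit 12966879) [(nat_lit 437566), (nat_lit 1851794), (nat_lit 5991820)]) (PF.cons (PF.leaf (nat_lit 8514690) (nat_lit 441932) (nat_lit 37311626) (nat_lit 12895992) [(nat_lit 441932),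 (nat_lit 1855895), (nat_lit 5975885)]) (PF.cons PF.nil (PF.cons PF.nil PF.nil)))))))))) (PF.cons (PF.cons (PF.leaf (nat_lit 7420925) (nat_lit 1831726) (nat_lit 38339439) (nat_lit 13085124) [(nat_lit 0), (nat_lit 1831726), (nat_lit 6010398)]) (PF.cons (PF.leaf (nat_lit 7675136) (nat_lit 422913) (nat_lit 37994568) (nat_lit 13021095) [(nat_lit 422913), (nat_lit 1837642), (nat_lit 5997475)]) (PF.cons (PF.leaf (nat_lit 7936067) (nat_lit 428724) (nat_lit 37643990) (nat_lit 12954915) [(nat_lit 428724), (nat_lit 1842828), (nat_lit 5983400)]) (PF.cons (PF.leaf (nat_lit 8202048) (nat_lit 433885) (nat_lit 37289296) (nat_lit 12886846) [(nat_lit 433885),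
 (nat_lit 1847289), (nat_lit 5968216)]) (PF.cons (PF.leaf (nat_lit 8472225) (nat_lit 438483) (nat_lit 36931751) (nat_lit 12817106) [(nat_lit 438483), (nat_lit 1851042), (nat_lit 5951967)]) (PF.cons (PF.leaf (nat_lit 8745794) (nat_lit 442586) (nat_lit 36572387) (nat_lit 12745881) [(nat_lit 442586), (nat_lit 1854107), (nat_lit 5934698)]) (PF.cons PF.nil (PF.cons PF.nil PF.nil)))))))) (PF.cons (PF.cons (PF.leaf (nat_lit 8177182) (nat_lit 1842516) (nat_lit 36890051) (nat_lit 12804199) [(nat_lit 0), (nat_lit 1842516), (nat_lit 5943505)]) (PF.cons (PF.leaf (nat_lit 8437556) (nat_lit 434442) (nat_lit 36546364) (nat_lit 12736054) [(nat_lit 434442), (nat_lit 1845927), (nat_lit 5927084)]) (PF.cons (PF.leaf (nat_lit 8702821) (nat_lit 438832) (nat_lit 36199517) (nat_lit 12666240) [(nat_lit 438832), (nat_lit 1848696), (nat_lit 5909648)]) (PF.cons (PF.leaf (nat_lit 8971676) (nat_lit 442722) (nat_lit 35850652) (nat_lit 12594971) [(nat_lit 442722), (nat_lit 1850839), (nat_lit 5891251)])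 (PF.cons PF.nil (PF.cons PF.nil PF.nil)))))) (PF.cons (PF.cons (PF.leaf (nat_lit 8929424) (nat_lit 1844929) (nat_lit 35484158) (nat_lit 12514610) [(nat_lit 0), (nat_lit 1844929), (nat_lit 5865163)]) (PF.cons
 (PF.leaf (nat_lit 9192810) (nat_lit 442375) (nat_lit 35146173) (nat_lit 12443582) [(nat_lit 442375), (nat_lit 1846252), (nat_lit 5845834)]) (PF.cons PF.nil (PF.cons PF.nil PF.nil)))) (PF.cons (PF.cons (PF.leaf (nat_lit 9671967) (nat_lit 1840575) (nat_lit 34130137) (nat_lit 12220200) [(nat_lit 0), (nat_lit 1840575), (nat_lit 5777797)]) (PF.cons PF.nil PF.nil)) (PF.cons PF.nil (PF.cons PF.nil PF.nil)))))))) (PF.cons (PF.cons (PF.cons (PF.leaf (nat_lit 7478566) (nat_lit 5884179) (nat_lit 36725936) (nat_lit 12730337) [(nat_lit 0), (nat_lit 0), (nat_lit 5884179)]) (PF.cons (PF.leaf (nat_lit 7715666) (nat_lit 406475) (nat_lit 36419318) (nat_lit 12670152) [(nat_lit 406475), (nat_lit 0), (nat_lit 5870955)]) (PF.cons (PF.leaf (nat_lit 7961056) (nat_lit 413240) (nat_lit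 36104916) (nat_lit 12607569) [(nat_lit 413240), (nat_lit 0), (nat_lit 5856615)]) (PF.cons (PF.leaf (nat_lit 8212664) (nat_lit 419156) (nat_lit 35784746) (nat_lit 12542940) [(nat_lit 419156), (nat_lit 0), (nat_lit 5841218)]) (PF.cons (PF.leaf (nat_lit 8469334) (nat_lit 424363) (nat_lit 35460360) (nat_lit 12476543) [(nat_lit 424363), (nat_lit 0), (nat_lit 5824818)]) (PF.cons (PF.leaf (nat_lit 8730188) (nat_lit 428964) (nat_lit
 35132988) (nat_lit 12408604) [(nat_lit 428964), (nat_lit 0), (nat_lit 5807465)]) (PF.cons (PF.leaf (nat_lit 8994414) (nat_lit 433039) (nat_lit 34803633) (nat_lit 12339315) [(nat_lit 433039), (nat_lit 0), (nat_lit 5789209)]) (PF.cons PF.nil PF.nil)))))))) (PF.cons (PF.cons (PF.leaf (nat_lit 8196262) (nat_lit 1802693) (nat_lit 35400143) (nat_lit 12459740) [(nat_lit 0), (nat_lit 1802693), (nat_lit 5815411)]) (PF.cons (PF.leaf (nat_lit 8441879) (nat_lit 419525) (nat_lit 35090518) (nat_lit 12395415) [(nat_lit 419525), (nat_lit 1806177), (nat_lit 5799058)])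 (PF.cons (PF.leaf (nat_lit 8693500) (nat_lit 424562) (nat_lit 34776216) (nat_lit 12329268) [(nat_lit 424562), (nat_lit 1809019), (nat_lit 5781727)]) (PF.cons (PF.leaf (nat_lit 8949585) (nat_lit 428977) (nat_lit 34458632) (nat_lit 12261565) [(nat_lit 428977), (nat_lit 1811235), (nat_lit 5763481)]) (PF.cons (PF.leaf (nat_lit 9209239) (nat_lit 432861) (nat_lit 34138868) (nat_lit 12192525) [(nat_lit 432861), (nat_lit 1812847), (nat_lit 5744375)]) (PF.cons PF.nil PF.nil)))))) (PF.cons (PF.cons (PF.leaf (nat_lit 8914605) (nat_lit 1804975) (nat_lit 34106945) (nat_lit 12181517) [(nat_lit 0), (nat_lit 1804975), (nat_lit 5736799)]) (PF.cons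
 (PF.leaf (nat_lit 9165038) (nat_lit 428501) (nat_lit 33799632) (nat_lit 12114327) [(nat_lit 428501), (nat_lit 1806414), (nat_lit 5717840)]) (PF.cons (PF.leaf (nat_lit 9419845) (nat_lit 432243) (nat_lit 33489794) (nat_lit 12045775) [(nat_lit 432243), (nat_lit 1807301), (nat_lit 5698050)]) (PF.cons PF.nil PF.nil)))) (PF.cons (PF.cons (PF.leaf (nat_lit 9627182) (nat_lit 1800751) (nat_lit 32856010) (nat_lit 11899255) [(nat_lit 0), (nat_lit 1800751), (nat_lit 5650430)]) (PF.cons (PF.leaf (nat_lit 9879743) (nat_lit 434372) (nat_lit 32554562) (nat_lit 11830246) [(nat_lit 434372), (nat_lit 1800509), (nat_lit 5629367)]) PF.nil)) (PF.cons PF.nil (PF.cons PF.nil PF.nil)))))) (PF.cons (PF.cons (PF.cons (PF.leaf (nat_lit 8904160) (nat_lit 5609928) (nat_lit 32811099) (nat_lit 11858000) [(nat_lit 0), (nat_lit 0), (nat_lit 5609928)]) (PF.cons (PF.leaf (nat_lit 9141076) (nat_lit 413591) (nat_lit 32533428) (nat_lit 11795111) [(nat_lit 413591), (nat_lit 0), (nat_lit 5591670)]) (PF.cons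 (PF.leaf (nat_lit 9383507) (nat_lit 418010) (nat_lit 32251833) (nat_lit 11730661) [(nat_lit 418010), (nat_lit 0), (nat_lit 5572574)]) (PF.cons (PF.leaf (nat_lit 9629876) (nat_lit 421836) (nat_lit 31967542) (nat_lit
 11664912) [(nat_lit 421836), (nat_lit 0), (nat_lit 5552711)]) (PF.cons PF.nil (PF.cons PF.nil PF.nil)))))) (PF.cons (PF.cons (PF.leaf (nat_lit 9587201) (nat_lit 1760803) (nat_lit 31657276) (nat_lit 11588840) [(nat_lit 0), (nat_lit 1760803), (nat_lit 5525473)]) (PF.cons (PF.leaf (nat_lit 9828018) (nat_lit 420649) (nat_lit 31382349) (nat_lit 11523952) [(nat_lit 420649), (nat_lit 1760862), (nat_lit 5505249)]) (PF.cons (PF.leaf (nat_lit 10072815) (nat_lit 423883) (nat_lit 31105334) (nat_lit 11457930) [(nat_lit 423883), (nat_lit 1760442), (nat_lit 5484334)]) (PF.cons PF.nil PF.nil)))) (PF.cons (PF.cons (PF.leaf (nat_lit 10263607) (nat_lit 1752150) (nat_lit 30542717) (nat_lit 11318589) [(nat_lit 0), (nat_lit 1752150), (nat_lit 5435801)]) (PF.cons PF.nil PF.nil))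 (PF.cons PF.nil PF.nil)))) (PF.cons (PF.cons (PF.cons (PF.leaf (nat_lit 10204665) (nat_lit 5316471) (nat_lit 29494735) (nat_lit 11031721) [(nat_lit 0), (nat_lit 0), (nat_lit 5316471)]) (PF.cons (PF.leaf (nat_lit 10436309) (nat_lit 411661) (nat_lit 29248296) (nat_lit 10969842) [(nat_lit 411661), (nat_lit 0), (nat_lit 5295802)]) PF.nil)) (PF.cons PF.nil PF.nil)) (PF.cons PF.nil (PF.cons PF.nil (PF.cons PF.nil (PF.cons PF.nil
 PF.nil))))))))))

def p14_17_2_0 : pfC (piC [(nat_lit 40745421), (nat_lit 25257288), (nat_lit 16296408)] (nat_lit 7072463)) p14_17_2 (nat_lit 3) (nat_lit 0) (nat_lit 1) = true := by decide +kernel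
def p14_17_2_1 : pfC (piC [(nat_lit 40745421), (nat_lit 25257288), (nat_lit 16296408)] (nat_lit 7072463)) p14_17_2 (nat_lit 3) (nat_lit 1) (nat_lit 2) = true := by decide +kernel
def p14_17_2_2 : pfC (piC [(nat_lit 40745421), (nat_lit 25257288), (nat_lit 16296408)] (nat_lit 7072463)) p14_17_2 (nat_lit 3) (nat_lit 2) (nat_lit 3) = true := by decide +kernel
def p14_17_2_3 : pfC (piC [(nat_lit 40745421), (nat_lit 25257288), (nat_lit 16296408)] (nat_lit 7072463)) p14_17_2 (nat_lit 3) (nat_lit 3) (nat_lit 4) = true := by decide +kernel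
def p14_17_2_4 : pfC (piC [(nat_lit 40745421), (nat_lit 25257288), (nat_lit 16296408)] (nat_lit 7072463)) p14_17_2 (nat_lit 3) (nat_lit 4) (nat_lit 5) = true := by decide +kernel
def p14_17_2_5 : pfC (piC [(nat_lit 40745421), (nat_lit 25257288), (nat_lit 16296408)] (nat_lit 7072463)) p14_17_2 (nat_lit 3) (nat_lit 5) (nat_lit 6) = true := by decide +kernel
def p14_17_2_6 : pfC (piC [(nat_lit 40745421), (nat_lit 25257288), (nat_lit 16296408)] (nat_lit 7072463)) p14_17_2 (nat_lit 3) (nat_lit 6) (nat_lit 7) = true := by decide +kernel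
def p14_17_2_7 : pfC (piC [(nat_lit 40745421), (nat_lit 25257288), (nat_lit 16296408)] (nat_lit 7072463)) p14_17_2 (nat_lit 3) (nat_lit 7) (nat_lit 8) = true := by decide +kernel
def p14_17_2_8 : pfC (piC [(nat_lit 40745421), (nat_lit 25257288), (nat_lit 16296408)] (nat_lit 7072463)) p14_17_2 (nat_lit 3) (nat_lit 8) (nat_lit 9) = true := by decide +kernel
def p14_17_2_9 : pfC (piC [(nat_lit 40745421), (nat_lit 25257288), (nat_lit 16296408)] (nat_lit 7072463)) p14_17_2 (nat_lit 3) (nat_lit 9) (nat_lit 10) = true := by decide +kernel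
def p14_17_2_10 : pfC (piC [(nat_lit 40745421), (nat_lit 25257288), (nat_lit 16296408)] (nat_lit 7072463)) p14_17_2 (nat_lit 3) (nat_lit 10) (nat_lit 11) = true := by decide +kernel
def p14_17_2_11 : pfC (piC [(nat_lit 40745421), (nat_lit 25257288), (nat_lit 16296408)] (nat_lit 7072463)) p14_17_2 (nat_lit 3) (nat_lit 11) (nat_lit 12) = true := by decide +kernel
def p14_17_2_12 : pfC (piC [(nat_lit 40745421), (nat_lit 25257288), (nat_lit 16296408)] (nat_lit 7072463)) p14_17_2 (nat_lit 3) (nat_lit 12) (nat_lit 13) = true := by decide +kernel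
def p14_17_2_13 : pfC (piC [(nat_lit 40745421), (nat_lit 25257288), (nat_lit 16296408)] (nat_lit 7072463)) p14_17_2 (nat_lit 3) (nat_lit 13) (nat_lit 14) = true := by decide +kernel
def p14_17_2_14 : pfC (piC [(nat_lit 40745421), (nat_lit 25257288), (nat_lit 16296408)] (nat_lit 7072463)) p14_17_2 (nat_lit 3) (nat_lit 14) (nat_lit 15) = true := by decide +kernel
def p14_17_2_15 : pfC (piC [(nat_lit 40745421), (nat_lit 25257288), (nat_lit 16296408)] (nat_lit 7072463)) p14_17_2 (nat_lit 3) (nat_lit 15) (nat_lit 16) = true := by decide +kernel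
def p14_17_2_16 : pfC (piC [(nat_lit 40745421), (nat_lit 25257288), (nat_lit 16296408)] (nat_lit 7072463)) p14_17_2 (nat_lit 3) (nat_lit 16) (nat_lit 17) = true := by decide +kernel
def p14_17_2_17 : pfC (piC [(nat_lit 40745421), (nat_lit 25257288), (nat_lit 16296408)] (nat_lit 7072463)) p14_17_2 (nat_lit 3) (nat_lit 17) (nat_lit 18) = true := by decide +kernel
def p14_17_2_18 : pfC (piC [(nat_lit 40745421), (nat_lit 25257288), (nat_lit 16296408)] (nat_lit 7072463)) p14_17_2 (nat_lit 3) (nat_lit 18) (nat_lit 19) = true := by decide +kernel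
def p14_17_2_19 : pfC (piC [(nat_lit 40745421), (nat_lit 25257288), (nat_lit 16296408)] (nat_lit 7072463)) p14_17_2 (nat_lit 3) (nat_lit 19) (nat_lit 20) = true := by decide +kernel
def p14_17_2_20 : pfC (piC [(nat_lit 40745421), (nat_lit 25257288), (nat_lit 16296408)] (nat_lit 7072463)) p14_17_2 (nat_lit 3) (nat_lit 20) (nat_lit 21) = true := by decide +kernel
def p14_17_2_21 : pfC (piC [(nat_lit 40745421), (nat_lit 25257288), (nat_lit 16296408)] (nat_lit 7072463)) p14_17_2 (nat_lit 3) (nat_lit 21) (nat_lit 22) = true := by decide +kernel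
def p14_17_2_22 : pfC (piC [(nat_lit 40745421), (nat_lit 25257288), (nat_lit 16296408)] (nat_lit 7072463)) p14_17_2 (nat_lit 3) (nat_lit 22) (nat_lit 23) = true := by decide +kernel
def p14_17_2_23 : pfC (piC [(nat_lit 40745421), (nat_lit 25257288), (nat_lit 16296408)] (nat_lit 7072463)) p14_17_2 (nat_lit 3) (nat_lit 23) (nat_lit 24) = true := by decide +kernel
def p14_17_2_24 : pfC (piC [(nat_lit 40745421), (nat_lit 25257288), (nat_lit 16296408)] (nat_lit 7072463)) p14_17_2 (nat_lit 3) (nat_lit 24) (nat_lit 25) = true := by decide +kernel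
def p14_17_2_25 : pfC (piC [(nat_lit 40745421), (nat_lit 25257288), (nat_lit 16296408)] (nat_lit 7072463)) p14_17_2 (nat_lit 3) (nat_lit 25) (nat_lit 26) = true := by decide +kernel
def p14_17_2_26 : pfC (piC [(nat_lit 40745421), (nat_lit 25257288), (nat_lit 16296408)] (nat_lit 7072463)) p14_17_2 (nat_lit 3) (nat_lit 26) (nat_lit 27) = true := by decide +kernel
def p14_17_2_27 : pfC (piC [(nat_lit 40745421), (nat_lit 25257288), (nat_lit 16296408)] (nat_lit 7072463)) p14_17_2 (nat_lit 3) (nat_lit 27) (nat_lit 28) = true := by decide +kernel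
def p14_17_2_28 : pfC (piC [(nat_lit 40745421), (nat_lit 25257288), (nat_lit 16296408)] (nat_lit 7072463)) p14_17_2 (nat_lit 3) (nat_lit 28) (nat_lit 29) = true := by decide +kernel
def p14_17_2_29 : pfC (piC [(nat_lit 40745421), (nat_lit 25257288), (nat_lit 16296408)] (nat_lit 7072463)) p14_17_2 (nat_lit 3) (nat_lit 29) (nat_lit 30) = true := by decide +kernel
def p14_17_2_30 : pfC (piC [(nat_lit 40745421), (nat_lit 25257288), (nat_lit 16296408)] (nat_lit 7072463)) p14_17_2 (nat_lit 3) (nat_lit 30) (nat_lit 31) = true := by decide +kernel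
def p14_17_2_31 : pfC (piC [(nat_lit 40745421), (nat_lit 25257288), (nat_lit 16296408)] (nat_lit 7072463)) p14_17_2 (nat_lit 3) (nat_lit 31) (nat_lit 32) = true := by decide +kernel
def p14_17_2_32 : pfC (piC [(nat_lit 40745421), (nat_lit 25257288), (nat_lit 16296408)] (nat_lit 7072463)) p14_17_2 (nat_lit 3) (nat_lit 32) (nat_lit 33) = true := by decide +kernel
def p14_17_2_33 : pfC (piC [(nat_lit 40745421), (nat_lit 25257288), (nat_lit 16296408)] (nat_lit 7072463)) p14_17_2 (nat_lit 3) (nat_lit 33) (nat_lit 34) = true := by decide +kernel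
def p14_17_2_34 : pfC (piC [(nat_lit 40745421), (nat_lit 25257288), (nat_lit 16296408)] (nat_lit 7072463)) p14_17_2 (nat_lit 3) (nat_lit 34) (nat_lit 35) = true := by decide +kernel
def p14_17_2_35 : pfC (piC [(nat_lit 40745421), (nat_lit 25257288), (nat_lit 16296408)] (nat_lit 7072463)) p14_17_2 (nat_lit 3) (nat_lit 35) (nat_lit 36) = true := by decide +kernel
def p14_17_2_36 : pfC (piC [(nat_lit 40745421), (nat_lit 25257288), (nat_lit 16296408)] (nat_lit 7072463)) p14_17_2 (nat_lit 3) (nat_lit 36) (nat_lit 37) = true := by decide +kernel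
def p14_17_2_37 : pfC (piC [(nat_lit 40745421), (nat_lit 25257288), (nat_lit 16296408)] (nat_lit 7072463)) p14_17_2 (nat_lit 3) (nat_lit 37) (nat_lit 38) = true := by decide +kernel
def p14_17_2_38 : pfC (piC [(nat_lit 40745421), (nat_lit 25257288), (nat_lit 16296408)] (nat_lit 7072463)) p14_17_2 (nat_lit 3) (nat_lit 38) (nat_lit 39) = true := by decide +kernel
def p14_17_2_39 : pfC (piC [(nat_lit 40745421), (nat_lit 25257288), (nat_lit 16296408)] (nat_lit 7072463)) p14_17_2 (nat_lit 3) (nat_lit 39) (nat_lit 40) = true := by decide +kernel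
def p14_17_2_40 : pfC (piC [(nat_lit 40745421), (nat_lit 25257288), (nat_lit 16296408)] (nat_lit 7072463)) p14_17_2 (nat_lit 3) (nat_lit 40) (nat_lit 41) = true := by decide +kernel
def p14_17_2_41 : pfC (piC [(nat_lit 40745421), (nat_lit 25257288), (nat_lit 16296408)] (nat_lit 7072463)) p14_17_2 (nat_lit 3) (nat_lit 41) (nat_lit 42) = true := by decide +kernel
def p14_17_2_42 : pfC (piC [(nat_lit 40745421), (nat_lit 25257288), (nat_lit 16296408)] (nat_lit 7072463)) p14_17_2 (nat_lit 3) (nat_lit 42) (nat_lit 43) = true := by decide +kernel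
def p14_17_2_43 : pfC (piC [(nat_lit 40745421), (nat_lit 25257288), (nat_lit 16296408)] (nat_lit 7072463)) p14_17_2 (nat_lit 3) (nat_lit 43) (nat_lit 44) = true := by decide +kernel
def p14_17_2_44 : pfC (piC [(nat_lit 40745421), (nat_lit 25257288), (nat_lit 16296408)] (nat_lit 7072463)) p14_17_2 (nat_lit 3) (nat_lit 44) (nat_lit 45) = true := by decide +kernel
def p14_17_2_45 : pfC (piC [(nat_lit 40745421), (nat_lit 25257288), (nat_lit 16296408)] (nat_lit 7072463)) p14_17_2 (nat_lit 3) (nat_lit 45) (nat_lit 46) = true := by decide +kernel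
def p14_17_2_46 : pfC (piC [(nat_lit 40745421), (nat_lit 25257288), (nat_lit 16296408)] (nat_lit 7072463)) p14_17_2 (nat_lit 3) (nat_lit 46) (nat_lit 47) = true := by decide +kernel
def p14_17_2_47 : pfC (piC [(nat_lit 40745421), (nat_lit 25257288), (nat_lit 16296408)] (nat_lit 7072463)) p14_17_2 (nat_lit 3) (nat_lit 47) (nat_lit 48) = true := by decide +kernel
def p14_17_2_48 : pfC (piC [(nat_lit 40745421), (nat_lit 25257288), (nat_lit 16296408)] (nat_lit 7072463)) p14_17_2 (nat_lit 3) (nat_lit 48) (nat_lit 49) = true := by decide +kernel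
def p14_17_2_49 : pfC (piC [(nat_lit 40745421), (nat_lit 25257288), (nat_lit 16296408)] (nat_lit 7072463)) p14_17_2 (nat_lit 3) (nat_lit 49) (nat_lit 50) = true := by decide +kernel
def p14_17_2_50 : pfC (piC [(nat_lit 40745421), (nat_lit 25257288), (nat_lit 16296408)] (nat_lit 7072463)) p14_17_2 (nat_lit 3) (nat_lit 50) (nat_lit 51) = true := by decide +kernel
def p14_17_2_51 : pfC (piC [(nat_lit 40745421), (nat_lit 25257288), (nat_lit 16296408)] (nat_lit 7072463)) p14_17_2 (nat_lit 3) (nat_lit 51) (nat_lit 52) = true := by decide +kernel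
def p14_17_2_52 : pfC (piC [(nat_lit 40745421), (nat_lit 25257288), (nat_lit 16296408)] (nat_lit 7072463)) p14_17_2 (nat_lit 3) (nat_lit 52) (nat_lit 53) = true := by decide +kernel
def p14_17_2_53 : pfC (piC [(nat_lit 40745421), (nat_lit 25257288), (nat_lit 16296408)] (nat_lit 7072463)) p14_17_2 (nat_lit 3) (nat_lit 53) (nat_lit 54) = true := by decide +kernel
def p14_17_2_54 : pfC (piC [(nat_lit 40745421), (nat_lit 25257288), (nat_lit 16296408)] (nat_lit 7072463)) p14_17_2 (nat_lit 3) (nat_lit 54) (nat_lit 55) = true := by decide +kernel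
def p14_17_2_55 : pfC (piC [(nat_lit 40745421), (nat_lit 25257288), (nat_lit 16296408)] (nat_lit 7072463)) p14_17_2 (nat_lit 3) (nat_lit 55) (nat_lit 56) = true := by decide +kernel
def p14_17_2_56 : pfC (piC [(nat_lit 40745421), (nat_lit 25257288), (nat_lit 16296408)] (nat_lit 7072463)) p14_17_2 (nat_lit 3) (nat_lit 56) (nat_lit 57) = true := by decide +kernel
def p14_17_2_57 : pfC (piC [(nat_lit 40745421), (nat_lit 25257288), (nat_lit 16296408)] (nat_lit 7072463)) p14_17_2 (nat_lit 3) (nat_lit 57) (nat_lit 58) = true := by decide +kernel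
def p14_17_2_58 : pfC (piC [(nat_lit 40745421), (nat_lit 25257288), (nat_lit 16296408)] (nat_lit 7072463)) p14_17_2 (nat_lit 3) (nat_lit 58) (nat_lit 59) = true := by decide +kernel
def p14_17_2_59 : pfC (piC [(nat_lit 40745421), (nat_lit 25257288), (nat_lit 16296408)] (nat_lit 7072463)) p14_17_2 (nat_lit 3) (nat_lit 59) (nat_lit 60) = true := by decide +kernel
def p14_17_2_60 : pfC (piC [(nat_lit 40745421), (nat_lit 25257288), (nat_lit 16296408)] (nat_lit 7072463)) p14_17_2 (nat_lit 3) (nat_lit 60) (nat_lit 61) = true := by decide +kernel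
def p14_17_2_61 : pfC (piC [(nat_lit 40745421), (nat_lit 25257288), (nat_lit 16296408)] (nat_lit 7072463)) p14_17_2 (nat_lit 3) (nat_lit 61) (nat_lit 62) = true := by decide +kernel
def p14_17_2_62 : pfC (piC [(nat_lit 40745421), (nat_lit 25257288), (nat_lit 16296408)] (nat_lit 7072463)) p14_17_2 (nat_lit 3) (nat_lit 62) (nat_lit 63) = true := by decide +kernel
def p14_17_2_63 : pfC (piC [(nat_lit 40745421), (nat_lit 25257288), (nat_lit 16296408)] (nat_lit 7072463)) p14_17_2 (nat_lit 3) (nat_lit 63) (nat_lit 64) = true := by decide +kernel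
def p14_17_2_64 : pfC (piC [(nat_lit 40745421), (nat_lit 25257288), (nat_lit 16296408)] (nat_lit 7072463)) p14_17_2 (nat_lit 3) (nat_lit 64) (nat_lit 65) = true := by decide +kernel
def p14_17_2_65 : pfC (piC [(nat_lit 40745421), (nat_lit 25257288), (nat_lit 16296408)] (nat_lit 7072463)) p14_17_2 (nat_lit 3) (nat_lit 65) (nat_lit 66) = true := by decide +kernel
def p14_17_2_66 : pfC (piC [(nat_lit 40745421), (nat_lit 25257288), (nat_lit 16296408)] (nat_lit 7072463)) p14_17_2 (nat_lit 3) (nat_lit 66) (nat_lit 67) = true := by decide +kernel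
def p14_17_2_67 : pfC (piC [(nat_lit 40745421), (nat_lit 25257288), (nat_lit 16296408)] (nat_lit 7072463)) p14_17_2 (nat_lit 3) (nat_lit 67) (nat_lit 68) = true := by decide +kernel
def p14_17_2_68 : pfC (piC [(nat_lit 40745421), (nat_lit 25257288), (nat_lit 16296408)] (nat_lit 7072463)) p14_17_2 (nat_lit 3) (nat_lit 68) (nat_lit 69) = true := by decide +kernel
def p14_17_2_69 : pfC (piC [(nat_lit 40745421), (nat_lit 25257288), (nat_lit 16296408)] (nat_lit 7072463)) p14_17_2 (nat_lit 3) (nat_lit 69) (nat_lit 70) = true := by decide +kernel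
def p14_17_2_70 : pfC (piC [(nat_lit 40745421), (nat_lit 25257288), (nat_lit 16296408)] (nat_lit 7072463)) p14_17_2 (nat_lit 3) (nat_lit 70) (nat_lit 71) = true := by decide +kernel
def p14_17_2_71 : pfC (piC [(nat_lit 40745421), (nat_lit 25257288), (nat_lit 16296408)] (nat_lit 7072463)) p14_17_2 (nat_lit 3) (nat_lit 71) (nat_lit 72) = true := by decide +kernel
def p14_17_2_72 : pfC (piC [(nat_lit 40745421), (nat_lit 25257288), (nat_lit 16296408)] (nat_lit 7072463)) p14_17_2 (nat_lit 3) (nat_lit 72) (nat_lit 73) = true := by decide +kernel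
def p14_17_2_73 : pfC (piC [(nat_lit 40745421), (nat_lit 25257288), (nat_lit 16296408)] (nat_lit 7072463)) p14_17_2 (nat_lit 3) (nat_lit 73) (nat_lit 74) = true := by decide +kernel
def p14_17_2_74 : pfC (piC [(nat_lit 40745421), (nat_lit 25257288), (nat_lit 16296408)] (nat_lit 7072463)) p14_17_2 (nat_lit 3) (nat_lit 74) (nat_lit 75) = true := by decide +kernel
def p14_17_2_75 : pfC (piC [(nat_lit 40745421), (nat_lit 25257288), (nat_lit 16296408)] (nat_lit 7072463)) p14_17_2 (nat_lit 3) (nat_lit 75) (nat_lit 76) = true := by decide +kernel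
def p14_17_2_76 : pfC (piC [(nat_lit 40745421), (nat_lit 25257288), (nat_lit 16296408)] (nat_lit 7072463)) p14_17_2 (nat_lit 3) (nat_lit 76) (nat_lit 77) = true := by decide +kernel
def p14_17_2_77 : pfC (piC [(nat_lit 40745421), (nat_lit 25257288), (nat_lit 16296408)] (nat_lit 7072463)) p14_17_2 (nat_lit 3) (nat_lit 77) (nat_lit 78) = true := by decide +kernel
def p14_17_2_78 : pfC (piC [(nat_lit 40745421), (nat_lit 25257288), (nat_lit 16296408)] (nat_lit 7072463)) p14_17_2 (nat_lit 3) (nat_lit 78) (nat_lit 79) = true := by decide +kernel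
def p14_17_2_79 : pfC (piC [(nat_lit 40745421), (nat_lit 25257288), (nat_lit 16296408)] (nat_lit 7072463)) p14_17_2 (nat_lit 3) (nat_lit 79) (nat_lit 80) = true := by decide +kernel
def p14_17_2_80 : pfC (piC [(nat_lit 40745421), (nat_lit 25257288), (nat_lit 16296408)] (nat_lit 7072463)) p14_17_2 (nat_lit 3) (nat_lit 80) (nat_lit 81) = true := by decide +kernel
def p14_17_2_81 : pfC (piC [(nat_lit 40745421), (nat_lit 25257288), (nat_lit 16296408)] (nat_lit 7072463)) p14_17_2 (nat_lit 3) (nat_lit 81) (nat_lit 82) = true := by decide +kernel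
def p14_17_2_82 : pfC (piC [(nat_lit 40745421), (nat_lit 25257288), (nat_lit 16296408)] (nat_lit 7072463)) p14_17_2 (nat_lit 3) (nat_lit 82) (nat_lit 83) = true := by decide +kernel
def p14_17_2_83 : pfC (piC [(nat_lit 40745421), (nat_lit 25257288), (nat_lit 16296408)] (nat_lit 7072463)) p14_17_2 (nat_lit 3) (nat_lit 83) (nat_lit 84) = true := by decide +kernel
def p14_17_2_84 : pfC (piC [(nat_lit 40745421), (nat_lit 25257288), (nat_lit 16296408)] (nat_lit 7072463)) p14_17_2 (nat_lit 3) (nat_lit 84) (nat_lit 85) = true := by decide +kernel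
def p14_17_2_85 : pfC (piC [(nat_lit 40745421), (nat_lit 25257288), (nat_lit 16296408)] (nat_lit 7072463)) p14_17_2 (nat_lit 3) (nat_lit 85) (nat_lit 86) = true := by decide +kernel
def p14_17_2_86 : pfC (piC [(nat_lit 40745421), (nat_lit 25257288), (nat_lit 16296408)] (nat_lit 7072463)) p14_17_2 (nat_lit 3) (nat_lit 86) (nat_lit 87) = true := by decide +kernel
def p14_17_2_87 : pfC (piC [(nat_lit 40745421), (nat_lit 25257288), (nat_lit 16296408)] (nat_lit 7072463)) p14_17_2 (nat_lit 3) (nat_lit 87) (nat_lit 88) = true := by decide +kernel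
def p14_17_2_88 : pfC (piC [(nat_lit 40745421), (nat_lit 25257288), (nat_lit 16296408)] (nat_lit 7072463)) p14_17_2 (nat_lit 3) (nat_lit 88) (nat_lit 89) = true := by decide +kernel
def p14_17_2_89 : pfC (piC [(nat_lit 40745421), (nat_lit 25257288), (nat_lit 16296408)] (nat_lit 7072463)) p14_17_2 (nat_lit 3) (nat_lit 89) (nat_lit 90) = true := by decide +kernel
def p14_17_2_90 : pfC (piC [(nat_lit 40745421), (nat_lit 25257288), (nat_lit 16296408)] (nat_lit 7072463)) p14_17_2 (nat_lit 3) (nat_lit 90) (nat_lit 91) = true := by decide +kernel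
def p14_17_2_91 : pfC (piC [(nat_lit 40745421), (nat_lit 25257288), (nat_lit 16296408)] (nat_lit 7072463)) p14_17_2 (nat_lit 3) (nat_lit 91) (nat_lit 92) = true := by decide +kernel
def p14_17_2_92 : pfC (piC [(nat_lit 40745421), (nat_lit 25257288), (nat_lit 16296408)] (nat_lit 7072463)) p14_17_2 (nat_lit 3) (nat_lit 92) (nat_lit 93) = true := by decide +kernel
def p14_17_2_93 : pfC (piC [(nat_lit 40745421), (nat_lit 25257288), (nat_lit 16296408)] (nat_lit 7072463)) p14_17_2 (nat_lit 3) (nat_lit 93) (nat_lit 94) = true := by decide +kernel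
def p14_17_2_94 : pfC (piC [(nat_lit 40745421), (nat_lit 25257288), (nat_lit 16296408)] (nat_lit 7072463)) p14_17_2 (nat_lit 3) (nat_lit 94) (nat_lit 95) = true := by decide +kernel
def p14_17_2_95 : pfC (piC [(nat_lit 40745421), (nat_lit 25257288), (nat_lit 16296408)] (nat_lit 7072463)) p14_17_2 (nat_lit 3) (nat_lit 95) (nat_lit 96) = true := by decide +kernel
def p14_17_2_96 : pfC (piC [(nat_lit 40745421), (nat_lit 25257288), (nat_lit 16296408)] (nat_lit 7072463)) p14_17_2 (nat_lit 3) (nat_lit 96) (nat_lit 97) = true := by decide +kernel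
def p14_17_2_97 : pfC (piC [(nat_lit 40745421), (nat_lit 25257288), (nat_lit 16296408)] (nat_lit 7072463)) p14_17_2 (nat_lit 3) (nat_lit 97) (nat_lit 98) = true := by decide +kernel
def p14_17_2_98 : pfC (piC [(nat_lit 40745421), (nat_lit 25257288), (nat_lit 16296408)] (nat_lit 7072463)) p14_17_2 (nat_lit 3) (nat_lit 98) (nat_lit 99) = true := by decide +kernel
def p14_17_2_99 : pfC (piC [(nat_lit 40745421), (nat_lit 25257288), (nat_lit 16296408)] (nat_lit 7072463)) p14_17_2 (nat_lit 3) (nat_lit 99) (nat_lit 100) = true := by decide +kernel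
def p14_17_2_100 : pfC (piC [(nat_lit 40745421), (nat_lit 25257288), (nat_lit 16296408)] (nat_lit 7072463)) p14_17_2 (nat_lit 3) (nat_lit 100) (nat_lit 101) = true := by decide +kernel
def p14_17_2_101 : pfC (piC [(nat_lit 40745421), (nat_lit 25257288), (nat_lit 16296408)] (nat_lit 7072463)) p14_17_2 (nat_lit 3) (nat_lit 101) (nat_lit 102) = true := by decide +kernel
def p14_17_2_102 : pfC (piC [(nat_lit 40745421), (nat_lit 25257288), (nat_lit 16296408)] (nat_lit 7072463)) p14_17_2 (nat_lit 3) (nat_lit 102) (nat_lit 103) = true := by decide +kernel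
def p14_17_2_103 : pfC (piC [(nat_lit 40745421), (nat_lit 25257288), (nat_lit 16296408)] (nat_lit 7072463)) p14_17_2 (nat_lit 3) (nat_lit 103) (nat_lit 104) = true := by decide +kernel
def p14_17_2_104 : pfC (piC [(nat_lit 40745421), (nat_lit 25257288), (nat_lit 16296408)] (nat_lit 7072463)) p14_17_2 (nat_lit 3) (nat_lit 104) (nat_lit 105) = true := by decide +kernel
def p14_17_2_105 : pfC (piC [(nat_lit 40745421), (nat_lit 25257288), (nat_lit 16296408)] (nat_lit 7072463)) p14_17_2 (nat_lit 3) (nat_lit 105) (nat_lit 106) = true := by decide +kernel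
def p14_17_2_106 : pfC (piC [(nat_lit 40745421), (nat_lit 25257288), (nat_lit 16296408)] (nat_lit 7072463)) p14_17_2 (nat_lit 3) (nat_lit 106) (nat_lit 107) = true := by decide +kernel
def p14_17_2_107 : pfC (piC [(nat_lit 40745421), (nat_lit 25257288), (nat_lit 16296408)] (nat_lit 7072463)) p14_17_2 (nat_lit 3) (nat_lit 107) (nat_lit 108) = true := by decide +kernel
def p14_17_2_108 : pfC (piC [(nat_lit 40745421), (nat_lit 25257288), (nat_lit 16296408)] (nat_lit 7072463)) p14_17_2 (nat_lit 3) (nat_lit 108) (nat_lit 109) = true := by decide +kernel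
def p14_17_2_109 : pfC (piC [(nat_lit 40745421), (nat_lit 25257288), (nat_lit 16296408)] (nat_lit 7072463)) p14_17_2 (nat_lit 3) (nat_lit 109) (nat_lit 110) = true := by decide +kernel
def p14_17_2_110 : pfC (piC [(nat_lit 40745421), (nat_lit 25257288), (nat_lit 16296408)] (nat_lit 7072463)) p14_17_2 (nat_lit 3) (nat_lit 110) (nat_lit 111) = true := by decide +kernel
def p14_17_2_111 : pfC (piC [(nat_lit 40745421), (nat_lit 25257288), (nat_lit 16296408)] (nat_lit 7072463)) p14_17_2 (nat_lit 3) (nat_lit 111) (nat_lit 112) = true := by decide +kernel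
def p14_17_2_112 : pfC (piC [(nat_lit 40745421), (nat_lit 25257288), (nat_lit 16296408)] (nat_lit 7072463)) p14_17_2 (nat_lit 3) (nat_lit 112) (nat_lit 113) = true := by decide +kernel
def p14_17_2_113 : pfC (piC [(nat_lit 40745421), (nat_lit 25257288), (nat_lit 16296408)] (nat_lit 7072463)) p14_17_2 (nat_lit 3) (nat_lit 113) (nat_lit 114) = true := by decide +kernel
def p14_17_2_114 : pfC (piC [(nat_lit 40745421), (nat_lit 25257288), (nat_lit 16296408)] (nat_lit 7072463)) p14_17_2 (nat_lit 3) (nat_lit 114) (nat_lit 115) = true := by decide +kernel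
def p14_17_2_115 : pfC (piC [(nat_lit 40745421), (nat_lit 25257288), (nat_lit 16296408)] (nat_lit 7072463)) p14_17_2 (nat_lit 3) (nat_lit 115) (nat_lit 116) = true := by decide +kernel
def p14_17_2_116 : pfC (piC [(nat_lit 40745421), (nat_lit 25257288), (nat_lit 16296408)] (nat_lit 7072463)) p14_17_2 (nat_lit 3) (nat_lit 116) (nat_lit 117) = true := by decide +kernel
def p14_17_2_117 : pfC (piC [(nat_lit 40745421), (nat_lit 25257288), (nat_lit 16296408)] (nat_lit 7072463)) p14_17_2 (nat_lit 3) (nat_lit 117) (nat_lit 118) = true := by decide +kernel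
def p14_17_2_118 : pfC (piC [(nat_lit 40745421), (nat_lit 25257288), (nat_lit 16296408)] (nat_lit 7072463)) p14_17_2 (nat_lit 3) (nat_lit 118) (nat_lit 119) = true := by decide +kernel
def p14_17_2_119 : pfC (piC [(nat_lit 40745421), (nat_lit 25257288), (nat_lit 16296408)] (nat_lit 7072463)) p14_17_2 (nat_lit 3) (nat_lit 119) (nat_lit 120) = true := by decide +kernel
def p14_17_2_120 : pfC (piC [(nat_lit 40745421), (nat_lit 25257288), (nat_lit 16296408)] (nat_lit 7072463)) p14_17_2 (nat_lit 3) (nat_lit 120) (nat_lit 121) = true := by decide +kernel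
def p14_17_2_121 : pfC (piC [(nat_lit 40745421), (nat_lit 25257288), (nat_lit 16296408)] (nat_lit 7072463)) p14_17_2 (nat_lit 3) (nat_lit 121) (nat_lit 122) = true := by decide +kernel
def p14_17_2_122 : pfC (piC [(nat_lit 40745421), (nat_lit 25257288), (nat_lit 16296408)] (nat_lit 7072463)) p14_17_2 (nat_lit 3) (nat_lit 122) (nat_lit 123) = true := by decide +kernel
def p14_17_2_123 : pfC (piC [(nat_lit 40745421), (nat_lit 25257288), (nat_lit 16296408)] (nat_lit 7072463)) p14_17_2 (nat_lit 3) (nat_lit 123) (nat_lit 124) = true := by decide +kernel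
def p14_17_2_124 : pfC (piC [(nat_lit 40745421), (nat_lit 25257288), (nat_lit 16296408)] (nat_lit 7072463)) p14_17_2 (nat_lit 3) (nat_lit 124) (nat_lit 125) = true := by decide +kernel
def p14_17_2_125 : pfC (piC [(nat_lit 40745421), (nat_lit 25257288), (nat_lit 16296408)] (nat_lit 7072463)) p14_17_2 (nat_lit 3) (nat_lit 125) (nat_lit 126) = true := by decide +kernel
def p14_17_2_126 : pfC (piC [(nat_lit 40745421), (nat_lit 25257288), (nat_lit 16296408)] (nat_lit 7072463)) p14_17_2 (nat_lit 3) (nat_lit 126) (nat_lit 127) = true := by decide +kernel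
def p14_17_2_127 : pfC (piC [(nat_lit 40745421), (nat_lit 25257288), (nat_lit 16296408)] (nat_lit 7072463)) p14_17_2 (nat_lit 3) (nat_lit 127) (nat_lit 128) = true := by decide +kernel
def p14_17_2_128 : pfC (piC [(nat_lit 40745421), (nat_lit 25257288), (nat_lit 16296408)] (nat_lit 7072463)) p14_17_2 (nat_lit 3) (nat_lit 128) (nat_lit 129) = true := by decide +kernel
def p14_17_2_129 : pfC (piC [(nat_lit 40745421), (nat_lit 25257288), (nat_lit 16296408)] (nat_lit 7072463)) p14_17_2 (nat_lit 3) (nat_lit 129) (nat_lit 130) = true := by decide +kernel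
def p14_17_2_130 : pfC (piC [(nat_lit 40745421), (nat_lit 25257288), (nat_lit 16296408)] (nat_lit 7072463)) p14_17_2 (nat_lit 3) (nat_lit 130) (nat_lit 131) = true := by decide +kernel
def p14_17_2_131 : pfC (piC [(nat_lit 40745421), (nat_lit 25257288), (nat_lit 16296408)] (nat_lit 7072463)) p14_17_2 (nat_lit 3) (nat_lit 131) (nat_lit 132) = true := by decide +kernel
def p14_17_2_132 : pfC (piC [(nat_lit 40745421), (nat_lit 25257288), (nat_lit 16296408)] (nat_lit 7072463)) p14_17_2 (nat_lit 3) (nat_lit 132) (nat_lit 133) = true := by decide +kernel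
def p14_17_2_133 : pfC (piC [(nat_lit 40745421), (nat_lit 25257288), (nat_lit 16296408)] (nat_lit 7072463)) p14_17_2 (nat_lit 3) (nat_lit 133) (nat_lit 134) = true := by decide +kernel
def p14_17_2_134 : pfC (piC [(nat_lit 40745421), (nat_lit 25257288), (nat_lit 16296408)] (nat_lit 7072463)) p14_17_2 (nat_lit 3) (nat_lit 134) (nat_lit 135) = true := by decide +kernel
def p14_17_2_135 : pfC (piC [(nat_lit 40745421), (nat_lit 25257288), (nat_lit 16296408)] (nat_lit 7072463)) p14_17_2 (nat_lit 3) (nat_lit 135) (nat_lit 136) = true := by decide +kernel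
def p14_17_2_136 : pfC (piC [(nat_lit 40745421), (nat_lit 25257288), (nat_lit 16296408)] (nat_lit 7072463)) p14_17_2 (nat_lit 3) (nat_lit 136) (nat_lit 137) = true := by decide +kernel
def p14_17_2_137 : pfC (piC [(nat_lit 40745421), (nat_lit 25257288), (nat_lit 16296408)] (nat_lit 7072463)) p14_17_2 (nat_lit 3) (nat_lit 137) (nat_lit 138) = true := by decide +kernel
def p14_17_2_138 : pfC (piC [(nat_lit 40745421), (nat_lit 25257288), (nat_lit 16296408)] (nat_lit 7072463)) p14_17_2 (nat_lit 3) (nat_lit 138) (nat_lit 139) = true := by decide +kernel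
def p14_17_2_139 : pfC (piC [(nat_lit 40745421), (nat_lit 25257288), (nat_lit 16296408)] (nat_lit 7072463)) p14_17_2 (nat_lit 3) (nat_lit 139) (nat_lit 140) = true := by decide +kernel
def p14_17_2_140 : pfC (piC [(nat_lit 40745421), (nat_lit 25257288), (nat_lit 16296408)] (nat_lit 7072463)) p14_17_2 (nat_lit 3) (nat_lit 140) (nat_lit 141) = true := by decide +kernel
def p14_17_2_141 : pfC (piC [(nat_lit 40745421), (nat_lit 25257288), (nat_lit 16296408)] (nat_lit 7072463)) p14_17_2 (nat_lit 3) (nat_lit 141) (nat_lit 142) = true := by decide +kernel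
def p14_17_2_142 : pfC (piC [(nat_lit 40745421), (nat_lit 25257288), (nat_lit 16296408)] (nat_lit 7072463)) p14_17_2 (nat_lit 3) (nat_lit 142) (nat_lit 143) = true := by decide +kernel
def p14_17_2_143 : pfC (piC [(nat_lit 40745421), (nat_lit 25257288), (nat_lit 16296408)] (nat_lit 7072463)) p14_17_2 (nat_lit 3) (nat_lit 143) (nat_lit 144) = true := by decide +kernel
def p14_17_2_144 : pfC (piC [(nat_lit 40745421), (nat_lit 25257288), (nat_lit 16296408)] (nat_lit 7072463)) p14_17_2 (nat_lit 3) (nat_lit 144) (nat_lit 145) = true := by decide +kernel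
def p14_17_2_145 : pfC (piC [(nat_lit 40745421), (nat_lit 25257288), (nat_lit 16296408)] (nat_lit 7072463)) p14_17_2 (nat_lit 3) (nat_lit 145) (nat_lit 146) = true := by decide +kernel
def p14_17_2_146 : pfC (piC [(nat_lit 40745421), (nat_lit 25257288), (nat_lit 16296408)] (nat_lit 7072463)) p14_17_2 (nat_lit 3) (nat_lit 146) (nat_lit 147) = true := by decide +kernel
def p14_17_2_147 : pfC (piC [(nat_lit 40745421), (nat_lit 25257288), (nat_lit 16296408)] (nat_lit 7072463)) p14_17_2 (nat_lit 3) (nat_lit 147) (nat_lit 148) = true := by decide +kernel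
def p14_17_2_148 : pfC (piC [(nat_lit 40745421), (nat_lit 25257288), (nat_lit 16296408)] (nat_lit 7072463)) p14_17_2 (nat_lit 3) (nat_lit 148) (nat_lit 149) = true := by decide +kernel
def p14_17_2_149 : pfC (piC [(nat_lit 40745421), (nat_lit 25257288), (nat_lit 16296408)] (nat_lit 7072463)) p14_17_2 (nat_lit 3) (nat_lit 149) (nat_lit 150) = true := by decide +kernel
def p14_17_2_150 : pfC (piC [(nat_lit 40745421), (nat_lit 25257288), (nat_lit 16296408)] (nat_lit 7072463)) p14_17_2 (nat_lit 3) (nat_lit 150) (nat_lit 151) = true := by decide +kernel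
def p14_17_2_151 : pfC (piC [(nat_lit 40745421), (nat_lit 25257288), (nat_lit 16296408)] (nat_lit 7072463)) p14_17_2 (nat_lit 3) (nat_lit 151) (nat_lit 152) = true := by decide +kernel
def p14_17_2_152 : pfC (piC [(nat_lit 40745421), (nat_lit 25257288), (nat_lit 16296408)] (nat_lit 7072463)) p14_17_2 (nat_lit 3) (nat_lit 152) (nat_lit 153) = true := by decide +kernel
def p14_17_2_153 : pfC (piC [(nat_lit 40745421), (nat_lit 25257288), (nat_lit 16296408)] (nat_lit 7072463)) p14_17_2 (nat_lit 3) (nat_lit 153) (nat_lit 154) = true := by decide +kernel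
def p14_17_2_154 : pfC (piC [(nat_lit 40745421), (nat_lit 25257288), (nat_lit 16296408)] (nat_lit 7072463)) p14_17_2 (nat_lit 3) (nat_lit 154) (nat_lit 155) = true := by decide +kernel
def p14_17_2_155 : pfC (piC [(nat_lit 40745421), (nat_lit 25257288), (nat_lit 16296408)] (nat_lit 7072463)) p14_17_2 (nat_lit 3) (nat_lit 155) (nat_lit 156) = true := by decide +kernel
def p14_17_2_156 : pfC (piC [(nat_lit 40745421), (nat_lit 25257288), (nat_lit 16296408)] (nat_lit 7072463)) p14_17_2 (nat_lit 3) (nat_lit 156) (nat_lit 157) = true := by decide +kernel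
def p14_17_2_157 : pfC (piC [(nat_lit 40745421), (nat_lit 25257288), (nat_lit 16296408)] (nat_lit 7072463)) p14_17_2 (nat_lit 3) (nat_lit 157) (nat_lit 158) = true := by decide +kernel
def p14_17_2_158 : pfC (piC [(nat_lit 40745421), (nat_lit 25257288), (nat_lit 16296408)] (nat_lit 7072463)) p14_17_2 (nat_lit 3) (nat_lit 158) (nat_lit 159) = true := by decide +kernel
def p14_17_2_159 : pfC (piC [(nat_lit 40745421), (nat_lit 25257288), (nat_lit 16296408)] (nat_lit 7072463)) p14_17_2 (nat_lit 3) (nat_lit 159) (nat_lit 160) = true := by decide +kernel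
def p14_17_2_160 : pfC (piC [(nat_lit 40745421), (nat_lit 25257288), (nat_lit 16296408)] (nat_lit 7072463)) p14_17_2 (nat_lit 3) (nat_lit 160) (nat_lit 161) = true := by decide +kernel
def p14_17_2_161 : pfC (piC [(nat_lit 40745421), (nat_lit 25257288), (nat_lit 16296408)] (nat_lit 7072463)) p14_17_2 (nat_lit 3) (nat_lit 161) (nat_lit 162) = true := by decide +kernel
def p14_17_2_162 : pfC (piC [(nat_lit 40745421), (nat_lit 25257288), (nat_lit 16296408)] (nat_lit 7072463)) p14_17_2 (nat_lit 3) (nat_lit 162) (nat_lit 163) = true := by decide +kernel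
def p14_17_2_163 : pfC (piC [(nat_lit 40745421), (nat_lit 25257288), (nat_lit 16296408)] (nat_lit 7072463)) p14_17_2 (nat_lit 3) (nat_lit 163) (nat_lit 164) = true := by decide +kernel
def p14_17_2_164 : pfC (piC [(nat_lit 40745421), (nat_lit 25257288), (nat_lit 16296408)] (nat_lit 7072463)) p14_17_2 (nat_lit 3) (nat_lit 164) (nat_lit 165) = true := by decide +kernel
def p14_17_2_165 : pfC (piC [(nat_lit 40745421), (nat_lit 25257288), (nat_lit 16296408)] (nat_lit 7072463)) p14_17_2 (nat_lit 3) (nat_lit 165) (nat_lit 166) = true := by decide +kernel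
def p14_17_2_166 : pfC (piC [(nat_lit 40745421), (nat_lit 25257288), (nat_lit 16296408)] (nat_lit 7072463)) p14_17_2 (nat_lit 3) (nat_lit 166) (nat_lit 167) = true := by decide +kernel
def p14_17_2_167 : pfC (piC [(nat_lit 40745421), (nat_lit 25257288), (nat_lit 16296408)] (nat_lit 7072463)) p14_17_2 (nat_lit 3) (nat_lit 167) (nat_lit 168) = true := by decide +kernel
def p14_17_2_168 : pfC (piC [(nat_lit 40745421), (nat_lit 25257288), (nat_lit 16296408)] (nat_lit 7072463)) p14_17_2 (nat_lit 3) (nat_lit 168) (nat_lit 169) = true := by decide +kernel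
theorem p14_17_2_T : PfS (PiF n14_17.reverse (nat_lit 7072463)) p14_17_2 (nat_lit 3) [] 0 :=
  pftab_of (los := [(nat_lit 40745421), (nat_lit 25257288), (nat_lit 16296408)]) (by decide +kernel) (hi := (nat_lit 169)) (PfP.trans (PfP.trans (PfP.trans (PfP.trans (PfP.trans (PfP.trans (PfP.trans (PfP.trans (PfP.trans (PfP.trans (PfP.trans (PfP.trans (PfP.trans (PfP.trans (PfP.trans (PfP.trans (PfP.trans (PfP.trans (PfP.trans (PfP.trans (PfP.trans (PfP.trans (PfP.trans (PfP.trans (PfP.trans (PfP.trans (PfP.trans (PfP.trans (PfP.trans (PfP.trans (PfP.trans (PfP.trans (PfP.trans (PfP.trans (PfP.trans (PfP.trans (PfP.trans (PfP.trans (PfP.trans (PfP.trans (PfP.trans (PfP.trans (PfP.trans (PfP.trans (PfP.trans (PfP.trans (PfP.trans (PfP.trans (PfP.trans (PfP.trans (PfP.trans (PfP.trans (PfP.trans (PfP.trans (PfP.trans (PfP.trans (PfP.trans (PfP.trans (PfP.trans (PfP.trans (PfP.trans (PfP.trans (PfP.trans (PfP.trans (PfP.trans (PfP.trans (PfP.trans (PfP.trans (PfP.trans (PfP.trans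 (PfP.trans (PfP.trans (PfP.trans (PfP.trans (PfP.trans (PfP.trans (PfP.trans (PfP.trans (PfP.trans (PfP.trans (PfP.trans (PfP.trans (PfP.trans (PfP.trans (PfP.trans (PfP.trans (PfP.trans (PfP.trans (PfP.trans (PfP.trans (PfP.trans (PfP.trans (PfP.trans (PfP.trans (PfP.trans (PfP.trans (PfP.trans (PfP.trans (PfP.trans (PfP.trans (PfP.trans (PfP.trans (PfP.trans (PfP.trans (PfP.trans (PfP.trans (PfP.trans (PfP.trans (PfP.trans
 (PfP.trans (PfP.trans (PfP.trans (PfP.trans (PfP.trans (PfP.trans (PfP.trans (PfP.trans (PfP.trans (PfP.trans (PfP.trans (PfP.trans (PfP.trans (PfP.trans (PfP.trans (PfP.trans (PfP.trans (PfP.trans (PfP.trans (PfP.trans (PfP.trans (PfP.trans (PfP.trans (PfP.trans (PfP.trans (PfP.trans (PfP.trans (PfP.trans (PfP.trans (PfP.trans (PfP.trans (PfP.trans (PfP.trans (PfP.trans (PfP.trans (PfP.trans (PfP.trans (PfP.trans (PfP.trans (PfP.trans (PfP.trans (PfP.trans (PfP.trans (PfP.trans (PfP.trans (PfP.trans (PfP.trans (PfP.trans (PfP.trans (PfP.trans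 (PfP.trans (PfP.trans (PfP.trans (PfP.trans (PfP.trans (PfP.trans (PfP.trans (PfP.trans (PfP.trans (pfC_sound p14_17_2_0) (pfC_sound p14_17_2_1)) (pfC_sound p14_17_2_2)) (pfC_sound p14_17_2_3)) (pfC_sound p14_17_2_4)) (pfC_sound p14_17_2_5)) (pfC_sound p14_17_2_6)) (pfC_sound p14_17_2_7)) (pfC_sound p14_17_2_8)) (pfC_sound p14_17_2_9)) (pfC_sound p14_17_2_10)) (pfC_sound p14_17_2_11)) (pfC_sound p14_17_2_12)) (pfC_sound p14_17_2_13)) (pfC_sound p14_17_2_14)) (pfC_sound p14_17_2_15)) (pfC_sound p14_17_2_16)) (pfC_sound p14_17_2_17)) (pfC_sound p14_17_2_18)) (pfC_sound p14_17_2_19)) (pfC_sound p14_17_2_20)) (pfC_sound p14_17_2_21)) (pfC_sound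
 p14_17_2_22)) (pfC_sound p14_17_2_23)) (pfC_sound p14_17_2_24)) (pfC_sound p14_17_2_25)) (pfC_sound p14_17_2_26)) (pfC_sound p14_17_2_27)) (pfC_sound p14_17_2_28)) (pfC_sound p14_17_2_29)) (pfC_sound p14_17_2_30)) (pfC_sound p14_17_2_31)) (pfC_sound p14_17_2_32)) (pfC_sound p14_17_2_33)) (pfC_sound p14_17_2_34)) (pfC_sound p14_17_2_35)) (pfC_sound p14_17_2_36)) (pfC_sound p14_17_2_37)) (pfC_sound p14_17_2_38)) (pfC_sound p14_17_2_39)) (pfC_sound p14_17_2_40)) (pfC_sound p14_17_2_41)) (pfC_sound p14_17_2_42)) (pfC_sound p14_17_2_43)) (pfC_sound p14_17_2_44)) (pfC_sound p14_17_2_45)) (pfC_sound p14_17_2_46)) (pfC_sound p14_17_2_47)) (pfC_sound p14_17_2_48)) (pfC_sound p14_17_2_49)) (pfC_sound p14_17_2_50)) (pfC_sound p14_17_2_51)) (pfC_sound p14_17_2_52)) (pfC_sound p14_17_2_53)) (pfC_sound p14_17_2_54)) (pfC_sound p14_17_2_55)) (pfC_sound p14_17_2_56)) (pfC_sound p14_17_2_57)) (pfC_sound p14_17_2_58)) (pfC_sound p14_17_2_59)) (pfC_sound p14_17_2_60)) (pfC_sound p14_17_2_61))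 (pfC_sound p14_17_2_62)) (pfC_sound p14_17_2_63)) (pfC_sound p14_17_2_64)) (pfC_sound p14_17_2_65)) (pfC_sound p14_17_2_66)) (pfC_sound p14_17_2_67)) (pfC_sound p14_17_2_68)) (pfC_sound p14_17_2_69)) (pfC_sound
 p14_17_2_70)) (pfC_sound p14_17_2_71)) (pfC_sound p14_17_2_72)) (pfC_sound p14_17_2_73)) (pfC_sound p14_17_2_74)) (pfC_sound p14_17_2_75)) (pfC_sound p14_17_2_76)) (pfC_sound p14_17_2_77)) (pfC_sound p14_17_2_78)) (pfC_sound p14_17_2_79)) (pfC_sound p14_17_2_80)) (pfC_sound p14_17_2_81)) (pfC_sound p14_17_2_82)) (pfC_sound p14_17_2_83)) (pfC_sound p14_17_2_84)) (pfC_sound p14_17_2_85)) (pfC_sound p14_17_2_86)) (pfC_sound p14_17_2_87)) (pfC_sound p14_17_2_88)) (pfC_sound p14_17_2_89)) (pfC_sound p14_17_2_90)) (pfC_sound p14_17_2_91)) (pfC_sound p14_17_2_92)) (pfC_sound p14_17_2_93)) (pfC_sound p14_17_2_94)) (pfC_sound p14_17_2_95)) (pfC_sound p14_17_2_96)) (pfC_sound p14_17_2_97)) (pfC_sound p14_17_2_98)) (pfC_sound p14_17_2_99)) (pfC_sound p14_17_2_100)) (pfC_sound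 p14_17_2_101)) (pfC_sound p14_17_2_102)) (pfC_sound p14_17_2_103)) (pfC_sound p14_17_2_104)) (pfC_sound p14_17_2_105)) (pfC_sound p14_17_2_106)) (pfC_sound p14_17_2_107)) (pfC_sound p14_17_2_108)) (pfC_sound p14_17_2_109)) (pfC_sound p14_17_2_110)) (pfC_sound p14_17_2_111)) (pfC_sound p14_17_2_112)) (pfC_sound p14_17_2_113)) (pfC_sound p14_17_2_114)) (pfC_sound p14_17_2_115)) (pfC_sound p14_17_2_116)) (pfC_sound
 p14_17_2_117)) (pfC_sound p14_17_2_118)) (pfC_sound p14_17_2_119)) (pfC_sound p14_17_2_120)) (pfC_sound p14_17_2_121)) (pfC_sound p14_17_2_122)) (pfC_sound p14_17_2_123)) (pfC_sound p14_17_2_124)) (pfC_sound p14_17_2_125)) (pfC_sound p14_17_2_126)) (pfC_sound p14_17_2_127)) (pfC_sound p14_17_2_128)) (pfC_sound p14_17_2_129)) (pfC_sound p14_17_2_130)) (pfC_sound p14_17_2_131)) (pfC_sound p14_17_2_132)) (pfC_sound p14_17_2_133)) (pfC_sound p14_17_2_134)) (pfC_sound p14_17_2_135)) (pfC_sound p14_17_2_136)) (pfC_sound p14_17_2_137)) (pfC_sound p14_17_2_138))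 (pfC_sound p14_17_2_139)) (pfC_sound p14_17_2_140)) (pfC_sound p14_17_2_141)) (pfC_sound p14_17_2_142)) (pfC_sound p14_17_2_143)) (pfC_sound p14_17_2_144)) (pfC_sound p14_17_2_145)) (pfC_sound p14_17_2_146)) (pfC_sound p14_17_2_147)) (pfC_sound p14_17_2_148)) (pfC_sound p14_17_2_149)) (pfC_sound p14_17_2_150)) (pfC_sound p14_17_2_151)) (pfC_sound p14_17_2_152)) (pfC_sound p14_17_2_153)) (pfC_sound p14_17_2_154)) (pfC_sound p14_17_2_155)) (pfC_sound p14_17_2_156)) (pfC_sound p14_17_2_157)) (pfC_sound p14_17_2_158)) (pfC_sound p14_17_2_159)) (pfC_sound p14_17_2_160)) (pfC_sound p14_17_2_161)) (pfC_sound p14_17_2_162)) (pfC_sound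
 p14_17_2_163)) (pfC_sound p14_17_2_164)) (pfC_sound p14_17_2_165)) (pfC_sound p14_17_2_166)) (pfC_sound p14_17_2_167)) (pfC_sound p14_17_2_168)) (by decide +kernel)

def z14_17_2 : zOK yB14_17 (nat_lit 2) (nat_lit 600) (nat_lit 743) (nat_lit 7072463) (nat_lit 5447273) = true := by decide +kernel
def g14_17_2 : gOK yB14_17.x P14_17 (nat_lit 1399) (q14_17 :: r14_17) (nat_lit 2) (nat_lit 600) (nat_lit 3) (nat_lit 743) (nat_lit 12712500) (nat_lit 12712500) (nat_lit 12712500) (nat_lit 12712500) [(nat_lit 800)] = true := by decide +kernel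
def v14_17_2 : ivC P14_17 s14_17 w14_17 n14_17 (nat_lit 3) (nat_lit 4720) (nat_lit 2) (nat_lit 600) f176_0_600 f184_0_600 (nat_lit 3) (nat_lit 743) f176_0_743 f184_0_743 (nat_lit 7072463) (nat_lit 5447273) p14_17_2 = true := by decide +kernel
end CB
end Pool.Agent.Lib.MP_6947cd_al
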