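import Pool.Agent.Lib.MP_6947cd_al.L.BoxDataB
import Pool.Agent.Lib.MP_6947cd_al.L.TeD1

/-!
Problem MP_6947cd_al (Chollet).  CASE B, rows `j`: boxes (generated).
-/

set_option autoImplicit false
set_option linter.defProp false
set_option maxRecDepth 20000

namespace Pool.Agent.Lib.MP_6947cd_al
namespace CB

open Ent Ent.Pk Fr Fr.WT CA

/-! box `yB14_18` -/

def P14_18 : BQ := ⟨(nat_lit 8), (nat_lit 4), (nat_lit 4), (nat_lit 0), (nat_lit 8), (nat_lit 900), (nat_lit 920), (nat_lit 90), [(nat_lit 180), (nat_lit 330), (nat_lit 650)], (nat_lit 140304000), (nat_lit 16000000), (nat_lit 16000000000)⟩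
def q14_18 : PC := ⟨(nat_lit 1000), [(nat_lit 90000), (nat_lit 180000), (nat_lit 330000), (nat_lit 650000)], (nat_lit 79228162532711081671548469249000000), (nat_lit 15859696000000), (nat_lit 15859696000000), (nat_lit 10000000)⟩
def r14_18 : List PC := [⟨(nat_lit 1334), [(nat_lit 90525), (nat_lit 180784), (nat_lit 331335), (nat_lit 651669)], (nat_lit 79656549207537385533555508868238155), (nat_lit 16345213341440), (nat_lit 16356405066880), (nat_lit 10058334)⟩, ⟨(nat_lit 2161), [(nat_lit 92688), (nat_lit 182850), (nat_lit 334666), (nat_lit 659464)], (nat_lit 80702836321981667394611084337832355), (nat_lit 17376039237760), (nat_lit 17414942211520), (nat_lit 10298667)⟩]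
def s14_18 : List PB := [⟨(nat_lit 26680), (nat_lit 1448400000000), [(nat_lit 180784), (nat_lit 331335), (nat_lit 651669)], (nat_lit 79656549207537385533555508868238155), (nat_lit 1142245120184064), (nat_lit 1142256311909504), (nat_lit 53440)⟩, ⟨(nat_lit 43220), (nat_lit 1483008000000), [(nat_lit 182850), (nat_lit 334666), (nat_lit 659464)], (nat_lit 80702836321981667394611084337832355), (nat_lit 1143275946080384), (nat_lit 1143314849054144), (nat_lit 185760)⟩]
def n14_18 : List KN := [⟨(nat_lit 650), (nat_lit 330), (nat_lit 15702173), (nat_lit 7360548)⟩, ⟨(nat_lit 330), (nat_lit 180), (nat_lit 24534081), (nat_lit 15702173)⟩, ⟨(nat_lit 180), (nat_lit 90), (nat_lit 38632330), (nat_lit 24534081)⟩]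
def w14_18 : List ℕ := [(nat_lit 53440), (nat_lit 185760)]
def par14_18 : parC yB14_18 P14_18 s14_18 r14_18 q14_18 n14_18 w14_18 = true := by decide +kernel

def p14_18_0 : PF := (PF.cons (PF.cons (PF.cons (PF.leaf (nat_lit 911978) (nat_lit 2995257) (nat_lit 64113555) (nat_lit 2995257) [(nat_lit 0), (nat_lit 0), (nat_lit 0)]) (PF.cons (PF.leaf (nat_lit 1075334) (nat_lit 263861) (nat_lit 63785887) (nat_lit 3059064) [(nat_lit 263861), (nat_lit 0), (nat_lit 0)]) (PF.cons (PF.leaf (nat_lit 1272335) (nat_lit 291042) (nat_lit 63397387) (nat_lit 3129341) [(nat_lit 291042), (nat_lit 0), (nat_lit 0)]) (PF.cons (PF.leaf (nat_lit 1497392) (nat_lit 316314) (nat_lit 62956902) (nat_lit 3202967) [(nat_lit 316314), (nat_lit 0), (nat_lit 0)]) (PF.cons (PF.leaf (nat_lit 1747661) (nat_lit 340061) (nat_lit 62470780) (nat_lit 3277785) [(nat_lit 340061), (nat_lit 0), (nat_lit 0)]) (PF.cons (PF.leaf (nat_lit 2020830) (nat_lit 362492) (nat_lit 61944104) (nat_lit 3352244) [(nat_lit 362492),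 (nat_lit 0), (nat_lit 0)]) (PF.cons (PF.leaf (nat_lit 2314860) (nat_lit 383726) (nat_lit 61381244) (nat_lit 3425209) [(nat_lit 383726), (nat_lit 0), (nat_lit 0)]) (PF.cons (PF.leaf (nat_lit 2627970) (nat_lit 403836) (nat_lit 60786118) (nat_lit 3495841) [(nat_lit 403836), (nat_lit 0), (nat_lit 0)]) (PF.cons (PF.leaf (nat_lit 2958356) (nat_lit 422868) (nat_lit 60162334) (nat_lit 3563526)
 [(nat_lit 422868), (nat_lit 0), (nat_lit 0)]) (PF.cons (PF.leaf (nat_lit 3304389) (nat_lit 440858) (nat_lit 59513266) (nat_lit 3627816) [(nat_lit 440858), (nat_lit 0), (nat_lit 0)]) (PF.cons (PF.leaf (nat_lit 3664494) (nat_lit 457832) (nat_lit 58842092) (nat_lit 3688396) [(nat_lit 457832), (nat_lit 0), (nat_lit 0)]) (PF.cons (PF.leaf (nat_lit 4037155) (nat_lit 473813) (nat_lit 58151810) (nat_lit 3745054) [(nat_lit 473813), (nat_lit 0), (nat_lit 0)]) (PF.cons (PF.leaf (nat_lit 4420916) (nat_lit 488824) (nat_lit 57445256) (nat_lit 3797660) [(nat_lit 488824), (nat_lit 0), (nat_lit 0)])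 (PF.cons (PF.leaf (nat_lit 4814375) (nat_lit 502889) (nat_lit 56725103) (nat_lit 3846150) [(nat_lit 502889), (nat_lit 0), (nat_lit 0)]) (PF.cons (PF.leaf (nat_lit 5216169) (nat_lit 516031) (nat_lit 55993862) (nat_lit 3890512) [(nat_lit 516031), (nat_lit 0), (nat_lit 0)]) (PF.cons (PF.leaf (nat_lit 5625161) (nat_lit 528276) (nat_lit 55253889) (nat_lit 3930777) [(nat_lit 528276), (nat_lit 0), (nat_lit 0)]) (PF.cons PF.nil (PF.cons PF.nil (PF.cons PF.nil (PF.cons PF.nil PF.nil)))))))))))))))))))) (PF.cons (PF.cons (PF.leaf (nat_lit 1606558) (nat_lit 1589998) (nat_lit 62230756) (nat_lit 3288058) [(nat_lit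
 0), (nat_lit 1589998), (nat_lit 0)]) (PF.cons (PF.leaf (nat_lit 1833489) (nat_lit 342201) (nat_lit 61776102) (nat_lit 3351257) [(nat_lit 342201), (nat_lit 1639251), (nat_lit 0)]) (PF.cons (PF.leaf (nat_lit 2087407) (nat_lit 364833) (nat_lit 61274240) (nat_lit 3415940) [(nat_lit 364833), (nat_lit 1688965), (nat_lit 0)]) (PF.cons (PF.leaf (nat_lit 2364230) (nat_lit 386028) (nat_lit 60732150) (nat_lit 3480482) [(nat_lit 386028), (nat_lit 1738094), (nat_lit 0)]) (PF.cons (PF.leaf (nat_lit 2661468) (nat_lit 405965) (nat_lit 60155242) (nat_lit 3543747) [(nat_lit 405965), (nat_lit 1785959), (nat_lit 0)]) (PF.cons (PF.leaf (nat_lit 2977019) (nat_lit 424751) (nat_lit 59548026) (nat_lit 3604918) [(nat_lit 424751), (nat_lit 1832108), (nat_lit 0)]) (PF.cons (PF.leaf (nat_lit 3309025) (nat_lit 442454) (nat_lit 58914443) (nat_lit 3663408) [(nat_lit 442454), (nat_lit 1876232), (nat_lit 0)]) (PF.cons (PF.leaf (nat_lit 3655730) (nat_lit 459122) (nat_lit 58258037) (nat_lit 3718794)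 [(nat_lit 459122), (nat_lit 1918122), (nat_lit 0)]) (PF.cons (PF.leaf (nat_lit 4015516) (nat_lit 474792) (nat_lit 57582044) (nat_lit 3770783) [(nat_lit 474792), (nat_lit 1957644), (nat_lit 0)]) (PF.cons (PF.leaf (nat_lit
 4386916) (nat_lit 489495) (nat_lit 56889453) (nat_lit 3819182) [(nat_lit 489495), (nat_lit 1994716), (nat_lit 0)]) (PF.cons (PF.leaf (nat_lit 4768469) (nat_lit 503261) (nat_lit 56183031) (nat_lit 3863873) [(nat_lit 503261), (nat_lit 2029296), (nat_lit 0)]) (PF.cons (PF.leaf (nat_lit 5158800) (nat_lit 516116) (nat_lit 55465350) (nat_lit 3904802) [(nat_lit 516116), (nat_lit 2061377), (nat_lit 0)]) (PF.cons (PF.leaf (nat_lit 5556711) (nat_lit 528089) (nat_lit 54738796) (nat_lit 3941964) [(nat_lit 528089), (nat_lit 2090974), (nat_lit 0)]) (PF.cons (PF.leaf (nat_lit 5960942) (nat_lit 539209) (nat_lit 54005578) (nat_lit 3975391) [(nat_lit 539209), (nat_lit 2118125), (nat_lit 0)]) (PF.cons PF.nil (PF.cons PF.nil (PF.cons PF.nil (PF.cons PF.nil PF.nil))))))))))))))))))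 (PF.cons (PF.cons (PF.leaf (nat_lit 2433301) (nat_lit 1771750) (nat_lit 60029176) (nat_lit 3536135) [(nat_lit 0), (nat_lit 1771750), (nat_lit 0)]) (PF.cons (PF.leaf (nat_lit 2709605) (nat_lit 406353) (nat_lit 59481997) (nat_lit 3591367) [(nat_lit 406353), (nat_lit 1814547), (nat_lit 0)]) (PF.cons (PF.leaf (nat_lit 3007188) (nat_lit 425241) (nat_lit 58899783) (nat_lit 3645644) [(nat_lit 425241), (nat_lit 1856451), (nat_lit
 0)]) (PF.cons (PF.leaf (nat_lit 3322884) (nat_lit 442905) (nat_lit 58288098) (nat_lit 3698118) [(nat_lit 442905), (nat_lit 1896939), (nat_lit 0)]) (PF.cons (PF.leaf (nat_lit 3654499) (nat_lit 459451) (nat_lit 57651469) (nat_lit 3748200) [(nat_lit 459451), (nat_lit 1935667), (nat_lit 0)]) (PF.cons (PF.leaf (nat_lit 4000161) (nat_lit 474952) (nat_lit 56993761) (nat_lit 3795475) [(nat_lit 474952), (nat_lit 1972406), (nat_lit 0)]) (PF.cons (PF.leaf (nat_lit 4358226) (nat_lit 489460) (nat_lit 56318370) (nat_lit 3839662) [(nat_lit 489460), (nat_lit 2007009),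 (nat_lit 0)]) (PF.cons (PF.leaf (nat_lit 4727120) (nat_lit 503017) (nat_lit 55628337) (nat_lit 3880578) [(nat_lit 503017), (nat_lit 2039387), (nat_lit 0)]) (PF.cons (PF.leaf (nat_lit 5105398) (nat_lit 515661) (nat_lit 54926417) (nat_lit 3918113) [(nat_lit 515661), (nat_lit 2069495), (nat_lit 0)]) (PF.cons (PF.leaf (nat_lit 5491799) (nat_lit 527425) (nat_lit 54215120) (nat_lit 3952219) [(nat_lit 527425), (nat_lit 2097321), (nat_lit 0)]) (PF.cons (PF.leaf (nat_lit 5885033) (nat_lit 538342) (nat_lit 53496739) (nat_lit 3982893) [(nat_lit 538342), (nat_lit 2122876), (nat_lit 0)]) (PF.cons (PF.leaf (nat_lit 6283968) (nat_lit 548443)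
 (nat_lit 52773368) (nat_lit 4010171) [(nat_lit 548443), (nat_lit 2146196), (nat_lit 0)]) (PF.cons (PF.leaf (nat_lit 6687579) (nat_lit 557760) (nat_lit 52046924) (nat_lit 4034114) [(nat_lit 557760), (nat_lit 2167326), (nat_lit 0)]) (PF.cons PF.nil (PF.cons PF.nil (PF.cons PF.nil PF.nil)))))))))))))))) (PF.cons (PF.cons (PF.leaf (nat_lit 3352706) (nat_lit 1917809) (nat_lit 57622817) (nat_lit 3732567) [(nat_lit 0), (nat_lit 1917809), (nat_lit 0)]) (PF.cons (PF.leaf (nat_lit 3665567) (nat_lit 458494) (nat_lit 57014013) (nat_lit 3777029) [(nat_lit 458494), (nat_lit 1953091), (nat_lit 0)]) (PF.cons (PF.leaf (nat_lit 3994811) (nat_lit 474057) (nat_lit 56380639) (nat_lit 3819416) [(nat_lit 474057), (nat_lit 1986880), (nat_lit 0)]) (PF.cons (PF.leaf (nat_lit 4337821) (nat_lit 488541) (nat_lit 55727128) (nat_lit 3859303) [(nat_lit 488541), (nat_lit 2018918), (nat_lit 0)]) (PF.cons (PF.leaf (nat_lit 4692759) (nat_lit 502023) (nat_lit 55057182) (nat_lit 3896408) [(nat_lit 502023),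 (nat_lit 2049042), (nat_lit 0)]) (PF.cons (PF.leaf (nat_lit 5057997) (nat_lit 514560) (nat_lit 54373995) (nat_lit 3930548) [(nat_lit 514560), (nat_lit 2077155), (nat_lit 0)]) (PF.cons (PF.leaf (nat_lit 5432106)
 (nat_lit 526200) (nat_lit 53680375) (nat_lit 3961621) [(nat_lit 526200), (nat_lit 2103204), (nat_lit 0)]) (PF.cons (PF.leaf (nat_lit 5813744) (nat_lit 536985) (nat_lit 52978818) (nat_lit 3989578) [(nat_lit 536985), (nat_lit 2127173), (nat_lit 0)]) (PF.cons (PF.leaf (nat_lit 6201693) (nat_lit 546951) (nat_lit 52271566) (nat_lit 4014419) [(nat_lit 546951), (nat_lit 2149071), (nat_lit 0)]) (PF.cons (PF.leaf (nat_lit 6594850) (nat_lit 556135) (nat_lit 51560635) (nat_lit 4036175) [(nat_lit 556135), (nat_lit 2168928), (nat_lit 0)]) (PF.cons (PF.leaf (nat_lit 6992190) (nat_lit 564570) (nat_lit 50847842) (nat_lit 4054908) [(nat_lit 564570), (nat_lit 2186786), (nat_lit 0)]) (PF.cons PF.nil (PF.cons PF.nil (PF.cons PF.nil PF.nil)))))))))))))) (PF.cons (PF.cons (PF.leaf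 (nat_lit 4330710) (nat_lit 2030695) (nat_lit 55107632) (nat_lit 3878396) [(nat_lit 0), (nat_lit 2030695), (nat_lit 0)]) (PF.cons (PF.leaf (nat_lit 4668989) (nat_lit 500049) (nat_lit 54463472) (nat_lit 3911560) [(nat_lit 500049), (nat_lit 2058432), (nat_lit 0)]) (PF.cons (PF.leaf (nat_lit 5019448) (nat_lit 512642) (nat_lit 53803388) (nat_lit 3942244) [(nat_lit 512642), (nat_lit 2084473), (nat_lit 0)]) (PF.cons (PF.leaf
 (nat_lit 5379947) (nat_lit 524283) (nat_lit 53130869) (nat_lit 3970264) [(nat_lit 524283), (nat_lit 2108707), (nat_lit 0)]) (PF.cons (PF.leaf (nat_lit 5748979) (nat_lit 535033) (nat_lit 52448870) (nat_lit 3995511) [(nat_lit 535033), (nat_lit 2131074), (nat_lit 0)]) (PF.cons (PF.leaf (nat_lit 6125151) (nat_lit 544944) (nat_lit 51759946) (nat_lit 4017939) [(nat_lit 544944), (nat_lit 2151550), (nat_lit 0)]) (PF.cons (PF.leaf (nat_lit 6507256) (nat_lit 554061) (nat_lit 51066333) (nat_lit 4037543) [(nat_lit 554061), (nat_lit 2170141), (nat_lit 0)]) (PF.cons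 (PF.leaf (nat_lit 6894194) (nat_lit 562423) (nat_lit 50370007) (nat_lit 4054354) [(nat_lit 562423), (nat_lit 2186871), (nat_lit 0)]) (PF.cons (PF.leaf (nat_lit 7284963) (nat_lit 570067) (nat_lit 49672724) (nat_lit 4068426) [(nat_lit 570067), (nat_lit 2201780), (nat_lit 0)]) (PF.cons PF.nil (PF.cons PF.nil (PF.cons PF.nil PF.nil)))))))))))) (PF.cons (PF.cons (PF.leaf (nat_lit 5339153) (nat_lit 2113953) (nat_lit 52560770) (nat_lit 3978272) [(nat_lit 0), (nat_lit 2113953), (nat_lit 0)]) (PF.cons (PF.leaf (nat_lit 5693493) (nat_lit 532321) (nat_lit 51902407) (nat_lit 4000774) [(nat_lit 532321), (nat_lit 2134661), (nat_lit 0)]) (PF.cons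
 (PF.leaf (nat_lit 6056572) (nat_lit 542295) (nat_lit 51234985) (nat_lit 4020785) [(nat_lit 542295), (nat_lit 2153690), (nat_lit 0)]) (PF.cons (PF.leaf (nat_lit 6426603) (nat_lit 551438) (nat_lit 50561207) (nat_lit 4038253) [(nat_lit 551438), (nat_lit 2171007), (nat_lit 0)]) (PF.cons (PF.leaf (nat_lit 6802335) (nat_lit 559801) (nat_lit 49883374) (nat_lit 4053169) [(nat_lit 559801), (nat_lit 2186612), (nat_lit 0)]) (PF.cons (PF.leaf (nat_lit 7182654) (nat_lit 567432) (nat_lit 49203469) (nat_lit 4065560) [(nat_lit 567432), (nat_lit 2200524), (nat_lit 0)]) (PF.cons (PF.leaf (nat_lit 7566553) (nat_lit 574371) (nat_lit 48523221) (nat_lit 4075476) [(nat_lit 574371), (nat_lit 2212777), (nat_lit 0)]) (PF.cons (PF.leaf (nat_lit 7953141) (nat_lit 580656) (nat_lit 47844144) (nat_lit 4082986) [(nat_lit 580656), (nat_lit 2223417), (nat_lit 0)]) (PF.cons PF.nil (PF.cons PF.nil PF.nil)))))))))) (PF.cons (PF.cons (PF.leaf (nat_lit 6355836) (nat_lit 2171579) (nat_lit 50040991) (nat_lit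 4038343) [(nat_lit 0), (nat_lit 2171579), (nat_lit 0)]) (PF.cons (PF.leaf (nat_lit 6718749) (nat_lit 556581) (nat_lit 49384595) (nat_lit 4051375) [(nat_lit 556581), (nat_lit 2186043), (nat_lit 0)]) (PF.cons (PF.leaf
 (nat_lit 7087597) (nat_lit 564286) (nat_lit 48724391) (nat_lit 4062108) [(nat_lit 564286), (nat_lit 2198956), (nat_lit 0)]) (PF.cons (PF.leaf (nat_lit 7460920) (nat_lit 571273) (nat_lit 48062436) (nat_lit 4070562) [(nat_lit 571273), (nat_lit 2210332), (nat_lit 0)]) (PF.cons (PF.leaf (nat_lit 7837701) (nat_lit 577588) (nat_lit 47400477) (nat_lit 4076781) [(nat_lit 577588), (nat_lit 2220199), (nat_lit 0)]) (PF.cons (PF.leaf (nat_lit 8217037) (nat_lit 583273) (nat_lit 46740019) (nat_lit 4080828) [(nat_lit 583273), (nat_lit 2228599), (nat_lit 0)]) (PF.cons PF.nil (PF.cons PF.nil PF.nil)))))))) (PF.cons (PF.cons (PF.leaf (nat_lit 7364061) (nat_lit 2207600) (nat_lit 47590520) (nat_lit 4065088) [(nat_lit 0), (nat_lit 2207600), (nat_lit 0)]) (PF.cons (PF.leaf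 (nat_lit 7729737) (nat_lit 574045) (nat_lit 46947829) (nat_lit 4070047) [(nat_lit 574045), (nat_lit 2216698), (nat_lit 0)]) (PF.cons (PF.leaf (nat_lit 8099129) (nat_lit 579815) (nat_lit 46305201) (nat_lit 4072989) [(nat_lit 579815), (nat_lit 2224427), (nat_lit 0)]) (PF.cons (PF.leaf (nat_lit 8471053) (nat_lit 584973) (nat_lit 45664172) (nat_lit 4073972) [(nat_lit 584973), (nat_lit 2230821), (nat_lit 0)]) (PF.cons PF.nil (PF.cons
 PF.nil PF.nil)))))) (PF.cons (PF.cons (PF.leaf (nat_lit 8351852) (nat_lit 2225801) (nat_lit 45237718) (nat_lit 4064681) [(nat_lit 0), (nat_lit 2225801), (nat_lit 0)]) (PF.cons (PF.leaf (nat_lit 8715924) (nat_lit 585835) (nat_lit 44616778) (nat_lit 4062963) [(nat_lit 585835), (nat_lit 2230404), (nat_lit 0)]) (PF.cons (PF.leaf (nat_lit 9082010) (nat_lit 589978) (nat_lit 43998649) (nat_lit 4059539) [(nat_lit 589978), (nat_lit 2233833), (nat_lit 0)]) (PF.cons PF.nil PF.nil)))) (PF.cons (PF.cons (PF.leaf (nat_lit 9311091) (nat_lit 2229577) (nat_lit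 42999954) (nat_lit 4042662) [(nat_lit 0), (nat_lit 2229577), (nat_lit 0)]) (PF.cons PF.nil PF.nil)) (PF.cons PF.nil (PF.cons PF.nil (PF.cons PF.nil PF.nil))))))))))))) (PF.cons (PF.cons (PF.cons (PF.leaf (nat_lit 2758584) (nat_lit 3617222) (nat_lit 57034612) (nat_lit 3617222) [(nat_lit 0), (nat_lit 0), (nat_lit 6456977)]) (PF.cons (PF.leaf (nat_lit 3004084) (nat_lit 395935) (nat_lit 56559561) (nat_lit 3658296) [(nat_lit 395935), (nat_lit 0), (nat_lit 6495019)]) (PF.cons (PF.leaf (nat_lit 3274174) (nat_lit 416687) (nat_lit 56042930) (nat_lit 3699588) [(nat_lit 416687), (nat_lit 0), (nat_lit 6532918)]) (PF.cons (PF.leaf (nat_lit 3564414)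
 (nat_lit 435478) (nat_lit 55492809) (nat_lit 3740043) [(nat_lit 435478), (nat_lit 0), (nat_lit 6569523)]) (PF.cons (PF.leaf (nat_lit 3871895) (nat_lit 452651) (nat_lit 54915236) (nat_lit 3778949) [(nat_lit 452651), (nat_lit 0), (nat_lit 6604020)]) (PF.cons (PF.leaf (nat_lit 4194321) (nat_lit 468430) (nat_lit 54315017) (nat_lit 3815818) [(nat_lit 468430), (nat_lit 0), (nat_lit 6635825)]) (PF.cons (PF.leaf (nat_lit 4529725) (nat_lit 482971) (nat_lit 53696145) (nat_lit 3850316) [(nat_lit 482971), (nat_lit 0), (nat_lit 6664524)]) (PF.cons (PF.leaf (nat_lit 4876450) (nat_lit 496389) (nat_lit 53062035) (nat_lit 3882219) [(nat_lit 496389), (nat_lit 0), (nat_lit 6689831)]) (PF.cons (PF.leaf (nat_lit 5232924) (nat_lit 508774) (nat_lit 52415664) (nat_lit 3911387) [(nat_lit 508774), (nat_lit 0), (nat_lit 6711561)]) (PF.cons (PF.leaf (nat_lit 5597810) (nat_lit 520199) (nat_lit 51759660) (nat_lit 3937744) [(nat_lit 520199), (nat_lit 0), (nat_lit 6729608)]) (PF.cons (PF.leaf (nat_lit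 5969830) (nat_lit 530725) (nat_lit 51096367) (nat_lit 3961259) [(nat_lit 530725), (nat_lit 0), (nat_lit 6743931)]) (PF.cons (PF.leaf (nat_lit 6347851) (nat_lit 540405) (nat_lit 50427879) (nat_lit 3981941) [(nat_lit
 540405), (nat_lit 0), (nat_lit 6754536)]) (PF.cons (PF.leaf (nat_lit 6730849) (nat_lit 549286) (nat_lit 49756078) (nat_lit 3999828) [(nat_lit 549286), (nat_lit 0), (nat_lit 6761473)]) (PF.cons (PF.leaf (nat_lit 7117820) (nat_lit 557411) (nat_lit 49082655) (nat_lit 4014979) [(nat_lit 557411), (nat_lit 0), (nat_lit 6764822)]) (PF.cons PF.nil (PF.cons PF.nil (PF.cons PF.nil (PF.cons PF.nil PF.nil)))))))))))))))))) (PF.cons (PF.cons (PF.leaf (nat_lit 3603691) (nat_lit 1930733) (nat_lit 54816267) (nat_lit 3767031) [(nat_lit 0), (nat_lit 1930733), (nat_lit 6594781)]) (PF.cons (PF.leaf (nat_lit 3888917) (nat_lit 448721) (nat_lit 54274649) (nat_lit 3800793) [(nat_lit 448721), (nat_lit 1961221), (nat_lit 6623427)]) (PF.cons (PF.leaf (nat_lit 4192555) (nat_lit 465067)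 (nat_lit 53704706) (nat_lit 3833294) [(nat_lit 465067), (nat_lit 1990539), (nat_lit 6650136)]) (PF.cons (PF.leaf (nat_lit 4511325) (nat_lit 479965) (nat_lit 53112186) (nat_lit 3864021) [(nat_lit 479965), (nat_lit 2018366), (nat_lit 6674340)]) (PF.cons (PF.leaf (nat_lit 4842995) (nat_lit 493605) (nat_lit 52501587) (nat_lit 3892631) [(nat_lit 493605), (nat_lit 2044515), (nat_lit 6695654)]) (PF.cons (PF.leaf (nat_lit 5185700)
 (nat_lit 506124) (nat_lit 51876592) (nat_lit 3918901) [(nat_lit 506124), (nat_lit 2068875), (nat_lit 6713822)]) (PF.cons (PF.leaf (nat_lit 5537857) (nat_lit 517622) (nat_lit 51240308) (nat_lit 3942691) [(nat_lit 517622), (nat_lit 2091391), (nat_lit 6728683)]) (PF.cons (PF.leaf (nat_lit 5898046) (nat_lit 528182) (nat_lit 50595408) (nat_lit 3963928) [(nat_lit 528182), (nat_lit 2112045), (nat_lit 6740153)]) (PF.cons (PF.leaf (nat_lit 6264998) (nat_lit 537869) (nat_lit 49944226) (nat_lit 3982581) [(nat_lit 537869), (nat_lit 2130844), (nat_lit 6748205)])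 (PF.cons (PF.leaf (nat_lit 6637583) (nat_lit 546740) (nat_lit 49288816) (nat_lit 3998659) [(nat_lit 546740), (nat_lit 2147815), (nat_lit 6752858)]) (PF.cons (PF.leaf (nat_lit 7014771) (nat_lit 554845) (nat_lit 48630995) (nat_lit 4012197) [(nat_lit 554845), (nat_lit 2162999), (nat_lit 6754167)]) (PF.cons (PF.leaf (nat_lit 7395623) (nat_lit 562229) (nat_lit 47972379) (nat_lit 4023251) [(nat_lit 562229), (nat_lit 2176446), (nat_lit 6752215)]) (PF.cons (PF.leaf (nat_lit 7779278) (nat_lit 568933) (nat_lit 47314401) (nat_lit 4031893) [(nat_lit 568933), (nat_lit 2188215), (nat_lit 6747107)]) (PF.cons PF.nil (PF.cons PF.nil (PF.cons PF.nil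
 PF.nil)))))))))))))))) (PF.cons (PF.cons (PF.leaf (nat_lit 4510870) (nat_lit 2026963) (nat_lit 52494796) (nat_lit 3877448) [(nat_lit 0), (nat_lit 2026963), (nat_lit 6682641)]) (PF.cons (PF.leaf (nat_lit 4823738) (nat_lit 489514) (nat_lit 51914968) (nat_lit 3902582) [(nat_lit 489514), (nat_lit 2050904), (nat_lit 6699939)]) (PF.cons (PF.leaf (nat_lit 5150246) (nat_lit 502423) (nat_lit 51316718) (nat_lit 3925856) [(nat_lit 502423), (nat_lit 2073405), (nat_lit 6714580)]) (PF.cons (PF.leaf (nat_lit 5487843) (nat_lit 514184) (nat_lit 50704242) (nat_lit 3947037) [(nat_lit 514184), (nat_lit 2094329), (nat_lit 6726322)]) (PF.cons (PF.leaf (nat_lit 5834791) (nat_lit 524919) (nat_lit 50080920) (nat_lit 3965983) [(nat_lit 524919), (nat_lit 2113603), (nat_lit 6735024)]) (PF.cons (PF.leaf (nat_lit 6189584) (nat_lit 534724) (nat_lit 49449567) (nat_lit 3982616) [(nat_lit 534724), (nat_lit 2131195), (nat_lit 6740615)]) (PF.cons (PF.leaf (nat_lit 6550912) (nat_lit 543672) (nat_lit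 48812576) (nat_lit 3996907) [(nat_lit 543672), (nat_lit 2147106), (nat_lit 6743079)]) (PF.cons (PF.leaf (nat_lit 6917625) (nat_lit 551827) (nat_lit 48172007) (nat_lit 4008860) [(nat_lit 551827), (nat_lit 2161354),
 (nat_lit 6742443)]) (PF.cons (PF.leaf (nat_lit 7288688) (nat_lit 559242) (nat_lit 47529652) (nat_lit 4018509) [(nat_lit 559242), (nat_lit 2173974), (nat_lit 6738765)]) (PF.cons (PF.leaf (nat_lit 7663168) (nat_lit 565964) (nat_lit 46887082) (nat_lit 4025904) [(nat_lit 565964), (nat_lit 2185009), (nat_lit 6732128)]) (PF.cons (PF.leaf (nat_lit 8040234) (nat_lit 572035) (nat_lit 46245675) (nat_lit 4031114) [(nat_lit 572035), (nat_lit 2194514), (nat_lit 6722635)]) (PF.cons PF.nil (PF.cons PF.nil (PF.cons PF.nil PF.nil)))))))))))))) (PF.cons (PF.cons (PF.leaf (nat_lit 5452560) (nat_lit 2097136) (nat_lit 50144044) (nat_lit 3950893) [(nat_lit 0), (nat_lit 2097136), (nat_lit 6722466)]) (PF.cons (PF.leaf (nat_lit 5783509) (nat_lit 520682) (nat_lit 49547332) (nat_lit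 3967490) [(nat_lit 520682), (nat_lit 2114943), (nat_lit 6728476)]) (PF.cons (PF.leaf (nat_lit 6124323) (nat_lit 530780) (nat_lit 48939620) (nat_lit 3982083) [(nat_lit 530780), (nat_lit 2131283), (nat_lit 6731698)]) (PF.cons (PF.leaf (nat_lit 6473002) (nat_lit 539938) (nat_lit 48323999) (nat_lit 3994590) [(nat_lit 539938), (nat_lit 2146111), (nat_lit 6732071)]) (PF.cons (PF.leaf (nat_lit 6828159) (nat_lit 548246) (nat_lit
 47703010) (nat_lit 4004977) [(nat_lit 548246), (nat_lit 2159417), (nat_lit 6729588)]) (PF.cons (PF.leaf (nat_lit 7188582) (nat_lit 555773) (nat_lit 47078782) (nat_lit 4013247) [(nat_lit 555773), (nat_lit 2171212), (nat_lit 6724279)]) (PF.cons (PF.leaf (nat_lit 7553223) (nat_lit 562579) (nat_lit 46453130) (nat_lit 4019427) [(nat_lit 562579), (nat_lit 2181524), (nat_lit 6716206)]) (PF.cons (PF.leaf (nat_lit 7921139) (nat_lit 568714) (nat_lit 45827613) (nat_lit 4023565) [(nat_lit 568714), (nat_lit 2190393), (nat_lit 6705450)]) (PF.cons (PF.leaf (nat_lit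 8291493) (nat_lit 574225) (nat_lit 45203580) (nat_lit 4025722) [(nat_lit 574225), (nat_lit 2197865), (nat_lit 6692111)]) (PF.cons PF.nil (PF.cons PF.nil (PF.cons PF.nil PF.nil)))))))))))) (PF.cons (PF.cons (PF.leaf (nat_lit 6407495) (nat_lit 2144888) (nat_lit 47817814) (nat_lit 3991731) [(nat_lit 0), (nat_lit 2144888), (nat_lit 6719713)]) (PF.cons (PF.leaf (nat_lit 6749004) (nat_lit 543921) (nat_lit 47219956) (nat_lit 4000553) [(nat_lit 543921), (nat_lit 2157221), (nat_lit 6715494)]) (PF.cons (PF.leaf (nat_lit 7097417) (nat_lit 551685) (nat_lit 46616596) (nat_lit 4007460) [(nat_lit 551685), (nat_lit 2168180), (nat_lit 6708662)])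
 (PF.cons (PF.leaf (nat_lit 7451129) (nat_lit 558671) (nat_lit 46010015) (nat_lit 4012450) [(nat_lit 558671), (nat_lit 2177769), (nat_lit 6699255)]) (PF.cons (PF.leaf (nat_lit 7809022) (nat_lit 564947) (nat_lit 45402105) (nat_lit 4015547) [(nat_lit 564947), (nat_lit 2186009), (nat_lit 6687333)]) (PF.cons (PF.leaf (nat_lit 8170165) (nat_lit 570568) (nat_lit 44794460) (nat_lit 4016794) [(nat_lit 570568), (nat_lit 2192933), (nat_lit 6672979)]) (PF.cons (PF.leaf (nat_lit 8533687) (nat_lit 575583) (nat_lit 44188433) (nat_lit 4016247) [(nat_lit 575583), (nat_lit 2198585), (nat_lit 6656289)]) (PF.cons PF.nil (PF.cons PF.nil (PF.cons PF.nil PF.nil)))))))))) (PF.cons (PF.cons (PF.leaf (nat_lit 7359667) (nat_lit 2173760) (nat_lit 45553917) (nat_lit 4004951) [(nat_lit 0), (nat_lit 2173760), (nat_lit 6681140)]) (PF.cons (PF.leaf (nat_lit 7705927) (nat_lit 560601) (nat_lit 44966162) (nat_lit 4007035) [(nat_lit 560601), (nat_lit 2181368), (nat_lit 6668168)]) (PF.cons (PF.leaf (nat_lit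 8056778) (nat_lit 566424) (nat_lit 44376900) (nat_lit 4007403) [(nat_lit 566424), (nat_lit 2187750), (nat_lit 6652905)]) (PF.cons (PF.leaf (nat_lit 8410913) (nat_lit 571601) (nat_lit 43787807) (nat_lit 4006095)
 [(nat_lit 571601), (nat_lit 2192934), (nat_lit 6635431)]) (PF.cons (PF.leaf (nat_lit 8767467) (nat_lit 576185) (nat_lit 43200280) (nat_lit 4003162) [(nat_lit 576185), (nat_lit 2196957), (nat_lit 6615841)]) (PF.cons (PF.leaf (nat_lit 9125658) (nat_lit 580221) (nat_lit 42615493) (nat_lit 3998665) [(nat_lit 580221), (nat_lit 2199862), (nat_lit 6594236)]) (PF.cons PF.nil (PF.cons PF.nil PF.nil)))))))) (PF.cons (PF.cons (PF.leaf (nat_lit 8297435) (nat_lit 2187038) (nat_lit 43377514) (nat_lit 3995472) [(nat_lit 0), (nat_lit 2187038), (nat_lit 6613593)]) (PF.cons (PF.leaf (nat_lit 8644061) (nat_lit 571879) (nat_lit 42807563) (nat_lit 3991917) [(nat_lit 571879), (nat_lit 2190668), (nat_lit 6593442)]) (PF.cons (PF.leaf (nat_lit 8993493) (nat_lit 576094) (nat_lit 42238938)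 (nat_lit 3986887) [(nat_lit 576094), (nat_lit 2193238), (nat_lit 6571367)]) (PF.cons (PF.leaf (nat_lit 9344646) (nat_lit 579771) (nat_lit 41672862) (nat_lit 3980440) [(nat_lit 579771), (nat_lit 2194787), (nat_lit 6547467)]) (PF.cons PF.nil (PF.cons PF.nil PF.nil)))))) (PF.cons (PF.cons (PF.leaf (nat_lit 9212689) (nat_lit 2187656) (nat_lit 41304017) (nat_lit 3967800) [(nat_lit 0), (nat_lit 2187656), (nat_lit 6523397)])
 (PF.cons (PF.leaf (nat_lit 9556444) (nat_lit 578739) (nat_lit 40756841) (nat_lit 3959653) [(nat_lit 578739), (nat_lit 2188002), (nat_lit 6497559)]) (PF.cons PF.nil (PF.cons PF.nil PF.nil)))) (PF.cons (PF.cons (PF.leaf (nat_lit 10100067) (nat_lit 2178160) (nat_lit 39341565) (nat_lit 3925879) [(nat_lit 0), (nat_lit 2178160), (nat_lit 6416081)]) (PF.cons PF.nil PF.nil)) (PF.cons PF.nil (PF.cons PF.nil PF.nil))))))))))) (PF.cons (PF.cons (PF.cons (PF.leaf (nat_lit 4675135) (nat_lit 3855407) (nat_lit 50001563) (nat_lit 3855407) [(nat_lit 0), (nat_lit 0),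 (nat_lit 6625921)]) (PF.cons (PF.leaf (nat_lit 4960522) (nat_lit 472807) (nat_lit 49492082) (nat_lit 3874537) [(nat_lit 472807), (nat_lit 0), (nat_lit 6634692)]) (PF.cons (PF.leaf (nat_lit 5262049) (nat_lit 486997) (nat_lit 48959631) (nat_lit 3892320) [(nat_lit 486997), (nat_lit 0), (nat_lit 6641432)]) (PF.cons (PF.leaf (nat_lit 5576413) (nat_lit 499640) (nat_lit 48409666) (nat_lit 3908459) [(nat_lit 499640), (nat_lit 0), (nat_lit 6645882)]) (PF.cons (PF.leaf (nat_lit 5901470) (nat_lit 510981) (nat_lit 47846347) (nat_lit 3922774) [(nat_lit 510981), (nat_lit 0), (nat_lit 6647881)]) (PF.cons (PF.leaf (nat_lit 6235407) (nat_lit 521195)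
 (nat_lit 47272991) (nat_lit 3935160) [(nat_lit 521195), (nat_lit 0), (nat_lit 6647342)]) (PF.cons (PF.leaf (nat_lit 6576748) (nat_lit 530412) (nat_lit 46692317) (nat_lit 3945565) [(nat_lit 530412), (nat_lit 0), (nat_lit 6644228)]) (PF.cons (PF.leaf (nat_lit 6924222) (nat_lit 538734) (nat_lit 46106607) (nat_lit 3953975) [(nat_lit 538734), (nat_lit 0), (nat_lit 6638545)]) (PF.cons (PF.leaf (nat_lit 7276713) (nat_lit 546243) (nat_lit 45517800) (nat_lit 3960405) [(nat_lit 546243), (nat_lit 0), (nat_lit 6630328)]) (PF.cons (PF.leaf (nat_lit 7633240) (nat_lit 553009) (nat_lit 44927560) (nat_lit 3964891) [(nat_lit 553009), (nat_lit 0), (nat_lit 6619637)]) (PF.cons (PF.leaf (nat_lit 7992915) (nat_lit 559089) (nat_lit 44337328) (nat_lit 3967484) [(nat_lit 559089), (nat_lit 0), (nat_lit 6606550)]) (PF.cons (PF.leaf (nat_lit 8354955) (nat_lit 564536) (nat_lit 43748356) (nat_lit 3968245) [(nat_lit 564536), (nat_lit 0), (nat_lit 6591156)]) (PF.cons PF.nil (PF.cons PF.nil PF.nil))))))))))))))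 (PF.cons (PF.cons (PF.leaf (nat_lit 5551796) (nat_lit 2070778) (nat_lit 47855893) (nat_lit 3909068) [(nat_lit 0), (nat_lit 2070778), (nat_lit 6636536)]) (PF.cons (PF.leaf (nat_lit 5858655) (nat_lit 504960)
 (nat_lit 47322834) (nat_lit 3921327) [(nat_lit 504960), (nat_lit 2086699), (nat_lit 6636495)]) (PF.cons (PF.leaf (nat_lit 6177114) (nat_lit 515785) (nat_lit 46775644) (nat_lit 3931960) [(nat_lit 515785), (nat_lit 2101294), (nat_lit 6634170)]) (PF.cons (PF.leaf (nat_lit 6504775) (nat_lit 525454) (nat_lit 46218108) (nat_lit 3940856) [(nat_lit 525454), (nat_lit 2114503), (nat_lit 6629489)]) (PF.cons (PF.leaf (nat_lit 6839959) (nat_lit 534119) (nat_lit 45653207) (nat_lit 3947959) [(nat_lit 534119), (nat_lit 2126307), (nat_lit 6622430)]) (PF.cons (PF.leaf (nat_lit 7181297) (nat_lit 541893) (nat_lit 45083361) (nat_lit 3953251) [(nat_lit 541893), (nat_lit 2136715), (nat_lit 6613008)]) (PF.cons (PF.leaf (nat_lit 7527621) (nat_lit 548868) (nat_lit 44510580) (nat_lit 3956744)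 [(nat_lit 548868), (nat_lit 2145752), (nat_lit 6601262)]) (PF.cons (PF.leaf (nat_lit 7877926) (nat_lit 555116) (nat_lit 43936556) (nat_lit 3958471) [(nat_lit 555116), (nat_lit 2153456), (nat_lit 6587257)]) (PF.cons (PF.leaf (nat_lit 8231322) (nat_lit 560699) (nat_lit 43362729) (nat_lit 3958478) [(nat_lit 560699), (nat_lit 2159873), (nat_lit 6571068)]) (PF.cons (PF.leaf (nat_lit 8587000) (nat_lit 565670) (nat_lit
 42790332) (nat_lit 3956823) [(nat_lit 565670), (nat_lit 2165051), (nat_lit 6552787)]) (PF.cons PF.nil (PF.cons PF.nil PF.nil)))))))))))) (PF.cons (PF.cons (PF.leaf (nat_lit 6448239) (nat_lit 2111813) (nat_lit 45722868) (nat_lit 3935649) [(nat_lit 0), (nat_lit 2111813), (nat_lit 6613333)]) (PF.cons (PF.leaf (nat_lit 6768362) (nat_lit 528535) (nat_lit 45183215) (nat_lit 3941439) [(nat_lit 528535), (nat_lit 2122771), (nat_lit 6605039)]) (PF.cons (PF.leaf (nat_lit 7096719) (nat_lit 536758) (nat_lit 44635670) (nat_lit 3945606) [(nat_lit 536758), (nat_lit 2132471),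 (nat_lit 6594538)]) (PF.cons (PF.leaf (nat_lit 7431439) (nat_lit 544078) (nat_lit 44082918) (nat_lit 3948130) [(nat_lit 544078), (nat_lit 2140909), (nat_lit 6581854)]) (PF.cons (PF.leaf (nat_lit 7771251) (nat_lit 550599) (nat_lit 43527116) (nat_lit 3949018) [(nat_lit 550599), (nat_lit 2148104), (nat_lit 6567035)]) (PF.cons (PF.leaf (nat_lit 8115073) (nat_lit 556402) (nat_lit 42970036) (nat_lit 3948301) [(nat_lit 556402), (nat_lit 2154083), (nat_lit 6550147)]) (PF.cons (PF.leaf (nat_lit 8462016) (nat_lit 561553) (nat_lit 42413158) (nat_lit 3946019) [(nat_lit 561553), (nat_lit 2158887), (nat_lit 6531268)]) (PF.cons (PF.leaf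
 (nat_lit 8811234) (nat_lit 566108) (nat_lit 41857728) (nat_lit 3942228) [(nat_lit 566108), (nat_lit 2162560), (nat_lit 6510486)]) (PF.cons PF.nil (PF.cons PF.nil PF.nil)))))))))) (PF.cons (PF.cons (PF.leaf (nat_lit 7348113) (nat_lit 2135837) (nat_lit 43639867) (nat_lit 3939005) [(nat_lit 0), (nat_lit 2135837), (nat_lit 6561214)]) (PF.cons (PF.leaf (nat_lit 7675339) (nat_lit 545353) (nat_lit 43105397) (nat_lit 3939083) [(nat_lit 545353), (nat_lit 2142511), (nat_lit 6545721)]) (PF.cons (PF.leaf (nat_lit 8008235) (nat_lit 551503) (nat_lit 42567454) (nat_lit 3937673) [(nat_lit 551503), (nat_lit 2148055), (nat_lit 6528255)]) (PF.cons (PF.leaf (nat_lit 8345307) (nat_lit 556932) (nat_lit 42027962) (nat_lit 3934800) [(nat_lit 556932), (nat_lit 2152492), (nat_lit 6508886)]) (PF.cons (PF.leaf (nat_lit 8685604) (nat_lit 561715) (nat_lit 41488488) (nat_lit 3930503) [(nat_lit 561715), (nat_lit 2155856), (nat_lit 6487695)]) (PF.cons (PF.leaf (nat_lit 9028252) (nat_lit 565912) (nat_lit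 40950326) (nat_lit 3924832) [(nat_lit 565912), (nat_lit 2158185), (nat_lit 6464768)]) (PF.cons (PF.leaf (nat_lit 9372540) (nat_lit 569574) (nat_lit 40414556) (nat_lit 3917843) [(nat_lit 569574), (nat_lit 2159523),
 (nat_lit 6440198)]) (PF.cons PF.nil PF.nil)))))))) (PF.cons (PF.cons (PF.leaf (nat_lit 8239562) (nat_lit 2145857) (nat_lit 41631355) (nat_lit 3923106) [(nat_lit 0), (nat_lit 2145857), (nat_lit 6485461)]) (PF.cons (PF.leaf (nat_lit 8569267) (nat_lit 556760) (nat_lit 41110059) (nat_lit 3918344) [(nat_lit 556760), (nat_lit 2148918), (nat_lit 6463986)]) (PF.cons (PF.leaf (nat_lit 8902695) (nat_lit 561237) (nat_lit 40588394) (nat_lit 3912282) [(nat_lit 561237), (nat_lit 2150998), (nat_lit 6440833)]) (PF.cons (PF.leaf (nat_lit 9238623) (nat_lit 565132) (nat_lit 40067746) (nat_lit 3904967) [(nat_lit 565132), (nat_lit 2152130), (nat_lit 6416089)]) (PF.cons (PF.leaf (nat_lit 9576320) (nat_lit 568498) (nat_lit 39549248) (nat_lit 3896452) [(nat_lit 568498), (nat_lit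 2152355), (nat_lit 6389847)]) (PF.cons PF.nil PF.nil)))))) (PF.cons (PF.cons (PF.leaf (nat_lit 9114199) (nat_lit 2144510) (nat_lit 39712368) (nat_lit 3891669) [(nat_lit 0), (nat_lit 2144510), (nat_lit 6391110)]) (PF.cons (PF.leaf (nat_lit 9442965) (nat_lit 563812) (nat_lit 39209457) (nat_lit 3882927) [(nat_lit 563812), (nat_lit 2144581), (nat_lit 6364853)]) (PF.cons (PF.leaf (nat_lit 9773961) (nat_lit 566933) (nat_lit 38708320)
 (nat_lit 3873087) [(nat_lit 566933), (nat_lit 2143819), (nat_lit 6337221)]) (PF.cons PF.nil PF.nil)))) (PF.cons (PF.cons (PF.leaf (nat_lit 9966302) (nat_lit 2134068) (nat_lit 37891103) (nat_lit 3847995) [(nat_lit 0), (nat_lit 2134068), (nat_lit 6282652)]) (PF.cons (PF.leaf (nat_lit 10291635) (nat_lit 567360) (nat_lit 37409753) (nat_lit 3836062) [(nat_lit 567360), (nat_lit 2131702), (nat_lit 6252710)]) PF.nil)) (PF.cons PF.nil (PF.cons PF.nil (PF.cons PF.nil PF.nil)))))))))) (PF.cons (PF.cons (PF.cons (PF.leaf (nat_lit 6485532) (nat_lit 3872358)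 (nat_lit 43744404) (nat_lit 3872358) [(nat_lit 0), (nat_lit 0), (nat_lit 6497349)]) (PF.cons (PF.leaf (nat_lit 6783429) (nat_lit 510181) (nat_lit 43263112) (nat_lit 3876071) [(nat_lit 510181), (nat_lit 0), (nat_lit 6486482)]) (PF.cons (PF.leaf (nat_lit 7091430) (nat_lit 519372) (nat_lit 42770681) (nat_lit 3878380) [(nat_lit 519372), (nat_lit 0), (nat_lit 6473668)]) (PF.cons (PF.leaf (nat_lit 7407216) (nat_lit 527433) (nat_lit 42270454) (nat_lit 3879248) [(nat_lit 527433), (nat_lit 0), (nat_lit 6458936)]) (PF.cons (PF.leaf (nat_lit 7729242) (nat_lit 534530) (nat_lit 41765023) (nat_lit 3878670) [(nat_lit 534530), (nat_lit 0), (nat_lit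
 6442332)]) (PF.cons (PF.leaf (nat_lit 8056248) (nat_lit 540789) (nat_lit 41256453) (nat_lit 3876664) [(nat_lit 540789), (nat_lit 0), (nat_lit 6423916)]) (PF.cons (PF.leaf (nat_lit 8387191) (nat_lit 546307) (nat_lit 40746432) (nat_lit 3873264) [(nat_lit 546307), (nat_lit 0), (nat_lit 6403757)]) (PF.cons (PF.leaf (nat_lit 8721168) (nat_lit 551163) (nat_lit 40236358) (nat_lit 3868514) [(nat_lit 551163), (nat_lit 0), (nat_lit 6381932)]) (PF.cons (PF.leaf (nat_lit 9057392) (nat_lit 555421) (nat_lit 39727399) (nat_lit 3862465) [(nat_lit 555421), (nat_lit 0), (nat_lit 6358525)]) (PF.cons PF.nil (PF.cons PF.nil (PF.cons PF.nil PF.nil)))))))))))) (PF.cons (PF.cons (PF.leaf (nat_lit 7334980) (nat_lit 2094552) (nat_lit 41837060) (nat_lit 3868788) [(nat_lit 0), (nat_lit 2094552), (nat_lit 6436137)]) (PF.cons (PF.leaf (nat_lit 7642947) (nat_lit 528191) (nat_lit 41354633) (nat_lit 3867572) [(nat_lit 528191), (nat_lit 2100783), (nat_lit 6419210)]) (PF.cons (PF.leaf (nat_lit 7957969)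 (nat_lit 534995) (nat_lit 40866293) (nat_lit 3865032) [(nat_lit 534995), (nat_lit 2105937), (nat_lit 6400519)]) (PF.cons (PF.leaf (nat_lit 8278291) (nat_lit 540945) (nat_lit 40374357) (nat_lit 3861184) [(nat_lit
 540945), (nat_lit 2110034), (nat_lit 6380133)]) (PF.cons (PF.leaf (nat_lit 8602754) (nat_lit 546149) (nat_lit 39880657) (nat_lit 3856059) [(nat_lit 546149), (nat_lit 2113105), (nat_lit 6358130)]) (PF.cons (PF.leaf (nat_lit 8930400) (nat_lit 550694) (nat_lit 39386677) (nat_lit 3849700) [(nat_lit 550694), (nat_lit 2115191), (nat_lit 6334590)]) (PF.cons (PF.leaf (nat_lit 9260399) (nat_lit 554649) (nat_lit 38893635) (nat_lit 3842154) [(nat_lit 554649), (nat_lit 2116333), (nat_lit 6309597)]) (PF.cons (PF.leaf (nat_lit 9592058) (nat_lit 558072) (nat_lit 38402544) (nat_lit 3833475) [(nat_lit 558072), (nat_lit 2116577), (nat_lit 6283236)]) (PF.cons PF.nil (PF.cons PF.nil PF.nil)))))))))) (PF.cons (PF.cons (PF.leaf (nat_lit 8182377) (nat_lit 2102750) (nat_lit 39988655)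 (nat_lit 3848602) [(nat_lit 0), (nat_lit 2102750), (nat_lit 6355351)]) (PF.cons (PF.leaf (nat_lit 8495243) (nat_lit 540420) (nat_lit 39514066) (nat_lit 3843150) [(nat_lit 540420), (nat_lit 2105598), (nat_lit 6333325)]) (PF.cons (PF.leaf (nat_lit 8812929) (nat_lit 545380) (nat_lit 39037159) (nat_lit 3836524) [(nat_lit 545380), (nat_lit 2107509), (nat_lit 6309783)]) (PF.cons (PF.leaf (nat_lit 9134035) (nat_lit 549673) (nat_lit
 38559566) (nat_lit 3828763) [(nat_lit 549673), (nat_lit 2108515), (nat_lit 6284810)]) (PF.cons (PF.leaf (nat_lit 9457680) (nat_lit 553376) (nat_lit 38082596) (nat_lit 3819914) [(nat_lit 553376), (nat_lit 2108655), (nat_lit 6258494)]) (PF.cons (PF.leaf (nat_lit 9783110) (nat_lit 556552) (nat_lit 37607315) (nat_lit 3810028) [(nat_lit 556552), (nat_lit 2107969), (nat_lit 6230921)]) (PF.cons PF.nil (PF.cons PF.nil PF.nil)))))))) (PF.cons (PF.cons (PF.leaf (nat_lit 9018648) (nat_lit 2100459) (nat_lit 38215337) (nat_lit 3814920) [(nat_lit 0), (nat_lit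 2100459), (nat_lit 6259058)]) (PF.cons (PF.leaf (nat_lit 9332646) (nat_lit 548134) (nat_lit 37754439) (nat_lit 3805951) [(nat_lit 548134), (nat_lit 2100509), (nat_lit 6232919)]) (PF.cons (PF.leaf (nat_lit 9649773) (nat_lit 551638) (nat_lit 37293692) (nat_lit 3795978) [(nat_lit 551638), (nat_lit 2099762), (nat_lit 6205526)]) (PF.cons (PF.leaf (nat_lit 9968890) (nat_lit 554612) (nat_lit 36834257) (nat_lit 3785052) [(nat_lit 554612), (nat_lit 2098253), (nat_lit 6176968)]) (PF.cons PF.nil (PF.cons PF.nil PF.nil)))))) (PF.cons (PF.cons (PF.leaf (nat_lit 9837517) (nat_lit 2089787) (nat_lit 36526229) (nat_lit 3770552) [(nat_lit 0), (nat_lit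
 2089787), (nat_lit 6150961)]) (PF.cons (PF.leaf (nat_lit 10149890) (nat_lit 552280) (nat_lit 36082686) (nat_lit 3758740) [(nat_lit 552280), (nat_lit 2087554), (nat_lit 6121629)]) (PF.cons (PF.leaf (nat_lit 10464101) (nat_lit 554623) (nat_lit 35640971) (nat_lit 3746095) [(nat_lit 554623), (nat_lit 2084653), (nat_lit 6091294)]) (PF.cons PF.nil PF.nil)))) (PF.cons (PF.cons (PF.leaf (nat_lit 10634785) (nat_lit 2072498) (nat_lit 34925567) (nat_lit 3717933) [(nat_lit 0), (nat_lit 2072498), (nat_lit 6034273)]) (PF.cons PF.nil PF.nil)) (PF.cons PF.nil (PF.cons PF.nil PF.nil)))))))) (PF.cons (PF.cons (PF.cons (PF.leaf (nat_lit 8129683) (nat_lit 3772667) (nat_lit 38438846) (nat_lit 3772667) [(nat_lit 0), (nat_lit 0), (nat_lit 6224324)]) (PF.cons (PF.leaf (nat_lit 8425265) (nat_lit 522651) (nat_lit 38009599) (nat_lit 3766963) [(nat_lit 522651), (nat_lit 0), (nat_lit 6202399)]) (PF.cons (PF.leaf (nat_lit 8727060) (nat_lit 528374) (nat_lit 37575728) (nat_lit 3760165) [(nat_lit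 528374), (nat_lit 0), (nat_lit 6179042)]) (PF.cons (PF.leaf (nat_lit 9033381) (nat_lit 533290) (nat_lit 37139232) (nat_lit 3752313) [(nat_lit 533290), (nat_lit 0), (nat_lit 6154348)]) (PF.cons (PF.leaf (nat_lit 9343166)
 (nat_lit 537512) (nat_lit 36701676) (nat_lit 3743449) [(nat_lit 537512), (nat_lit 0), (nat_lit 6128408)]) (PF.cons (PF.leaf (nat_lit 9655546) (nat_lit 541129) (nat_lit 36264310) (nat_lit 3733621) [(nat_lit 541129), (nat_lit 0), (nat_lit 6101307)]) (PF.cons (PF.leaf (nat_lit 9969791) (nat_lit 544210) (nat_lit 35828153) (nat_lit 3722878) [(nat_lit 544210), (nat_lit 0), (nat_lit 6073128)]) (PF.cons PF.nil PF.nil)))))))) (PF.cons (PF.cons (PF.leaf (nat_lit 8928751) (nat_lit 2055677) (nat_lit 36803621) (nat_lit 3737993) [(nat_lit 0), (nat_lit 2055677), (nat_lit 6127880)]) (PF.cons (PF.leaf (nat_lit 9227834) (nat_lit 531576) (nat_lit 36382950) (nat_lit 3729108) [(nat_lit 531576), (nat_lit 2055942), (nat_lit 6102308)]) (PF.cons (PF.leaf (nat_lit 9531118)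 (nat_lit 535648) (nat_lit 35960622) (nat_lit 3719280) [(nat_lit 535648), (nat_lit 2055420), (nat_lit 6075548)]) (PF.cons (PF.leaf (nat_lit 9837278) (nat_lit 539102) (nat_lit 35538029) (nat_lit 3708558) [(nat_lit 539102), (nat_lit 2054148), (nat_lit 6047692)]) (PF.cons (PF.leaf (nat_lit 10145532) (nat_lit 542015) (nat_lit 35116279) (nat_lit 3696990) [(nat_lit 542015), (nat_lit 2052167), (nat_lit 6018827)]) (PF.cons PF.nil PF.nil))))))
 (PF.cons (PF.cons (PF.leaf (nat_lit 9715625) (nat_lit 2045415) (nat_lit 35238787) (nat_lit 3693801) [(nat_lit 0), (nat_lit 2045415), (nat_lit 6021348)]) (PF.cons (PF.leaf (nat_lit 10015035) (nat_lit 536685) (nat_lit 34831121) (nat_lit 3682326) [(nat_lit 536685), (nat_lit 2043481), (nat_lit 5992929)]) (PF.cons (PF.leaf (nat_lit 10317141) (nat_lit 539476) (nat_lit 34423808) (nat_lit 3670062) [(nat_lit 539476), (nat_lit 2040887), (nat_lit 5963553)]) (PF.cons (PF.leaf (nat_lit 10620915) (nat_lit 541783) (nat_lit 34017831) (nat_lit 3657059)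 [(nat_lit 541783), (nat_lit 2037672), (nat_lit 5933306)]) PF.nil)))) (PF.cons (PF.cons (PF.leaf (nat_lit 10485426) (nat_lit 2028893) (nat_lit 33750014) (nat_lit 3642229) [(nat_lit 0), (nat_lit 2028893), (nat_lit 5907472)]) (PF.cons (PF.leaf (nat_lit 10782860) (nat_lit 538825) (nat_lit 33358043) (nat_lit 3628699) [(nat_lit 538825), (nat_lit 2025187), (nat_lit 5876920)]) PF.nil)) (PF.cons PF.nil (PF.cons PF.nil PF.nil)))))) (PF.cons (PF.cons (PF.cons (PF.leaf (nat_lit 9602455) (nat_lit 3617877) (nat_lit 34021021) (nat_lit 3617877) [(nat_lit 0), (nat_lit 0), (nat_lit 5893982)]) (PF.cons (PF.leaf (nat_lit 9888577) (nat_lit 520413) (nat_lit 33647752)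
 (nat_lit 3606931) [(nat_lit 520413), (nat_lit 0), (nat_lit 5866742)]) (PF.cons (PF.leaf (nat_lit 10178444) (nat_lit 523812) (nat_lit 33273210) (nat_lit 3595217) [(nat_lit 523812), (nat_lit 0), (nat_lit 5838552)]) (PF.cons (PF.leaf (nat_lit 10470823) (nat_lit 526637) (nat_lit 32898591) (nat_lit 3582784) [(nat_lit 526637), (nat_lit 0), (nat_lit 5809504)]) (PF.cons (PF.leaf (nat_lit 10764953) (nat_lit 528966) (nat_lit 32524841) (nat_lit 3569682) [(nat_lit 528966), (nat_lit 0), (nat_lit 5779684)]) (PF.cons PF.nil PF.nil)))))) (PF.cons (PF.cons (PF.leaf (nat_lit 10345309) (nat_lit 1985619) (nat_lit 32637555) (nat_lit 3567849) [(nat_lit 0), (nat_lit 1985619), (nat_lit 5783557)]) (PF.cons (PF.leaf (nat_lit 10631280) (nat_lit 523671) (nat_lit 32276114) (nat_lit 3554970) [(nat_lit 523671), (nat_lit 1982390), (nat_lit 5754333)]) (PF.cons (PF.leaf (nat_lit 10919678) (nat_lit 525931) (nat_lit 31915067) (nat_lit 3541460) [(nat_lit 525931), (nat_lit 1978608), (nat_lit 5724362)])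 (PF.cons PF.nil PF.nil)))) (PF.cons (PF.cons (PF.leaf (nat_lit 11071866) (nat_lit 1965539) (nat_lit 31321386) (nat_lit 3512714) [(nat_lit 0), (nat_lit 1965539), (nat_lit 5668726)]) (PF.cons PF.nil PF.nil)) (PF.cons
 PF.nil PF.nil)))) (PF.cons (PF.cons (PF.cons (PF.leaf (nat_lit 10919368) (nat_lit 3441911) (nat_lit 30354819) (nat_lit 3441911) [(nat_lit 0), (nat_lit 0), (nat_lit 5552013)]) (PF.cons (PF.leaf (nat_lit 11193011) (nat_lit 509894) (nat_lit 30033257) (nat_lit 3428343) [(nat_lit 509894), (nat_lit 0), (nat_lit 5522886)]) (PF.cons PF.nil (PF.cons PF.nil PF.nil)))) (PF.cons (PF.cons (PF.leaf (nat_lit 11607640) (nat_lit 1901994) (nat_lit 29186704) (nat_lit 3385521) [(nat_lit 0), (nat_lit 1901994), (nat_lit 5439098)]) (PF.cons PF.nil PF.nil)) PF.nil)) (PF.cons PF.nil (PF.cons PF.nil (PF.cons PF.nil (PF.cons PF.nil (PF.cons PF.nil PF.nil))))))))))))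

def p14_18_0_0 : pfC (piC [(nat_lit 38632330), (nat_lit 24534081), (nat_lit 15702173)] (nat_lit 19519284)) p14_18_0 (nat_lit 3) (nat_lit 0) (nat_lit 1) = true := by decide +kernel
def p14_18_0_1 : pfC (piC [(nat_lit 38632330), (nat_lit 24534081), (nat_lit 15702173)] (nat_lit 19519284)) p14_18_0 (nat_lit 3) (nat_lit 1) (nat_lit 2) = true := by decide +kernel
def p14_18_0_2 : pfC (piC [(nat_lit 38632330), (nat_lit 24534081), (nat_lit 15702173)] (nat_lit 19519284)) p14_18_0 (nat_lit 3) (nat_lit 2) (nat_lit 3) = true := by decide +kernel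
def p14_18_0_3 : pfC (piC [(nat_lit 38632330), (nat_lit 24534081), (nat_lit 15702173)] (nat_lit 19519284)) p14_18_0 (nat_lit 3) (nat_lit 3) (nat_lit 4) = true := by decide +kernel
def p14_18_0_4 : pfC (piC [(nat_lit 38632330), (nat_lit 24534081), (nat_lit 15702173)] (nat_lit 19519284)) p14_18_0 (nat_lit 3) (nat_lit 4) (nat_lit 5) = true := by decide +kernel
def p14_18_0_5 : pfC (piC [(nat_lit 38632330), (nat_lit 24534081), (nat_lit 15702173)] (nat_lit 19519284)) p14_18_0 (nat_lit 3) (nat_lit 5) (nat_lit 6) = true := by decide +kernel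
def p14_18_0_6 : pfC (piC [(nat_lit 38632330), (nat_lit 24534081), (nat_lit 15702173)] (nat_lit 19519284)) p14_18_0 (nat_lit 3) (nat_lit 6) (nat_lit 7) = true := by decide +kernel
def p14_18_0_7 : pfC (piC [(nat_lit 38632330), (nat_lit 24534081), (nat_lit 15702173)] (nat_lit 19519284)) p14_18_0 (nat_lit 3) (nat_lit 7) (nat_lit 8) = true := by decide +kernel
def p14_18_0_8 : pfC (piC [(nat_lit 38632330), (nat_lit 24534081), (nat_lit 15702173)] (nat_lit 19519284)) p14_18_0 (nat_lit 3) (nat_lit 8) (nat_lit 9) = true := by decide +kernel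
def p14_18_0_9 : pfC (piC [(nat_lit 38632330), (nat_lit 24534081), (nat_lit 15702173)] (nat_lit 19519284)) p14_18_0 (nat_lit 3) (nat_lit 9) (nat_lit 10) = true := by decide +kernel
def p14_18_0_10 : pfC (piC [(nat_lit 38632330), (nat_lit 24534081), (nat_lit 15702173)] (nat_lit 19519284)) p14_18_0 (nat_lit 3) (nat_lit 10) (nat_lit 11) = true := by decide +kernel
def p14_18_0_11 : pfC (piC [(nat_lit 38632330), (nat_lit 24534081), (nat_lit 15702173)] (nat_lit 19519284)) p14_18_0 (nat_lit 3) (nat_lit 11) (nat_lit 12) = true := by decide +kernel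
def p14_18_0_12 : pfC (piC [(nat_lit 38632330), (nat_lit 24534081), (nat_lit 15702173)] (nat_lit 19519284)) p14_18_0 (nat_lit 3) (nat_lit 12) (nat_lit 13) = true := by decide +kernel
def p14_18_0_13 : pfC (piC [(nat_lit 38632330), (nat_lit 24534081), (nat_lit 15702173)] (nat_lit 19519284)) p14_18_0 (nat_lit 3) (nat_lit 13) (nat_lit 14) = true := by decide +kernel
def p14_18_0_14 : pfC (piC [(nat_lit 38632330), (nat_lit 24534081), (nat_lit 15702173)] (nat_lit 19519284)) p14_18_0 (nat_lit 3) (nat_lit 14) (nat_lit 15) = true := by decide +kernel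
def p14_18_0_15 : pfC (piC [(nat_lit 38632330), (nat_lit 24534081), (nat_lit 15702173)] (nat_lit 19519284)) p14_18_0 (nat_lit 3) (nat_lit 15) (nat_lit 16) = true := by decide +kernel
def p14_18_0_16 : pfC (piC [(nat_lit 38632330), (nat_lit 24534081), (nat_lit 15702173)] (nat_lit 19519284)) p14_18_0 (nat_lit 3) (nat_lit 16) (nat_lit 17) = true := by decide +kernel
def p14_18_0_17 : pfC (piC [(nat_lit 38632330), (nat_lit 24534081), (nat_lit 15702173)] (nat_lit 19519284)) p14_18_0 (nat_lit 3) (nat_lit 17) (nat_lit 18) = true := by decide +kernel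
def p14_18_0_18 : pfC (piC [(nat_lit 38632330), (nat_lit 24534081), (nat_lit 15702173)] (nat_lit 19519284)) p14_18_0 (nat_lit 3) (nat_lit 18) (nat_lit 19) = true := by decide +kernel
def p14_18_0_19 : pfC (piC [(nat_lit 38632330), (nat_lit 24534081), (nat_lit 15702173)] (nat_lit 19519284)) p14_18_0 (nat_lit 3) (nat_lit 19) (nat_lit 20) = true := by decide +kernel
def p14_18_0_20 : pfC (piC [(nat_lit 38632330), (nat_lit 24534081), (nat_lit 15702173)] (nat_lit 19519284)) p14_18_0 (nat_lit 3) (nat_lit 20) (nat_lit 21) = true := by decide +kernel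
def p14_18_0_21 : pfC (piC [(nat_lit 38632330), (nat_lit 24534081), (nat_lit 15702173)] (nat_lit 19519284)) p14_18_0 (nat_lit 3) (nat_lit 21) (nat_lit 22) = true := by decide +kernel
def p14_18_0_22 : pfC (piC [(nat_lit 38632330), (nat_lit 24534081), (nat_lit 15702173)] (nat_lit 19519284)) p14_18_0 (nat_lit 3) (nat_lit 22) (nat_lit 23) = true := by decide +kernel
def p14_18_0_23 : pfC (piC [(nat_lit 38632330), (nat_lit 24534081), (nat_lit 15702173)] (nat_lit 19519284)) p14_18_0 (nat_lit 3) (nat_lit 23) (nat_lit 24) = true := by decide +kernel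
def p14_18_0_24 : pfC (piC [(nat_lit 38632330), (nat_lit 24534081), (nat_lit 15702173)] (nat_lit 19519284)) p14_18_0 (nat_lit 3) (nat_lit 24) (nat_lit 25) = true := by decide +kernel
def p14_18_0_25 : pfC (piC [(nat_lit 38632330), (nat_lit 24534081), (nat_lit 15702173)] (nat_lit 19519284)) p14_18_0 (nat_lit 3) (nat_lit 25) (nat_lit 26) = true := by decide +kernel
def p14_18_0_26 : pfC (piC [(nat_lit 38632330), (nat_lit 24534081), (nat_lit 15702173)] (nat_lit 19519284)) p14_18_0 (nat_lit 3) (nat_lit 26) (nat_lit 27) = true := by decide +kernel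
def p14_18_0_27 : pfC (piC [(nat_lit 38632330), (nat_lit 24534081), (nat_lit 15702173)] (nat_lit 19519284)) p14_18_0 (nat_lit 3) (nat_lit 27) (nat_lit 28) = true := by decide +kernel
def p14_18_0_28 : pfC (piC [(nat_lit 38632330), (nat_lit 24534081), (nat_lit 15702173)] (nat_lit 19519284)) p14_18_0 (nat_lit 3) (nat_lit 28) (nat_lit 29) = true := by decide +kernel
def p14_18_0_29 : pfC (piC [(nat_lit 38632330), (nat_lit 24534081), (nat_lit 15702173)] (nat_lit 19519284)) p14_18_0 (nat_lit 3) (nat_lit 29) (nat_lit 30) = true := by decide +kernel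
def p14_18_0_30 : pfC (piC [(nat_lit 38632330), (nat_lit 24534081), (nat_lit 15702173)] (nat_lit 19519284)) p14_18_0 (nat_lit 3) (nat_lit 30) (nat_lit 31) = true := by decide +kernel
def p14_18_0_31 : pfC (piC [(nat_lit 38632330), (nat_lit 24534081), (nat_lit 15702173)] (nat_lit 19519284)) p14_18_0 (nat_lit 3) (nat_lit 31) (nat_lit 32) = true := by decide +kernel
def p14_18_0_32 : pfC (piC [(nat_lit 38632330), (nat_lit 24534081), (nat_lit 15702173)] (nat_lit 19519284)) p14_18_0 (nat_lit 3) (nat_lit 32) (nat_lit 33) = true := by decide +kernel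
def p14_18_0_33 : pfC (piC [(nat_lit 38632330), (nat_lit 24534081), (nat_lit 15702173)] (nat_lit 19519284)) p14_18_0 (nat_lit 3) (nat_lit 33) (nat_lit 34) = true := by decide +kernel
def p14_18_0_34 : pfC (piC [(nat_lit 38632330), (nat_lit 24534081), (nat_lit 15702173)] (nat_lit 19519284)) p14_18_0 (nat_lit 3) (nat_lit 34) (nat_lit 35) = true := by decide +kernel
def p14_18_0_35 : pfC (piC [(nat_lit 38632330), (nat_lit 24534081), (nat_lit 15702173)] (nat_lit 19519284)) p14_18_0 (nat_lit 3) (nat_lit 35) (nat_lit 36) = true := by decide +kernel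
def p14_18_0_36 : pfC (piC [(nat_lit 38632330), (nat_lit 24534081), (nat_lit 15702173)] (nat_lit 19519284)) p14_18_0 (nat_lit 3) (nat_lit 36) (nat_lit 37) = true := by decide +kernel
def p14_18_0_37 : pfC (piC [(nat_lit 38632330), (nat_lit 24534081), (nat_lit 15702173)] (nat_lit 19519284)) p14_18_0 (nat_lit 3) (nat_lit 37) (nat_lit 38) = true := by decide +kernel
def p14_18_0_38 : pfC (piC [(nat_lit 38632330), (nat_lit 24534081), (nat_lit 15702173)] (nat_lit 19519284)) p14_18_0 (nat_lit 3) (nat_lit 38) (nat_lit 39) = true := by decide +kernel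
def p14_18_0_39 : pfC (piC [(nat_lit 38632330), (nat_lit 24534081), (nat_lit 15702173)] (nat_lit 19519284)) p14_18_0 (nat_lit 3) (nat_lit 39) (nat_lit 40) = true := by decide +kernel
def p14_18_0_40 : pfC (piC [(nat_lit 38632330), (nat_lit 24534081), (nat_lit 15702173)] (nat_lit 19519284)) p14_18_0 (nat_lit 3) (nat_lit 40) (nat_lit 41) = true := by decide +kernel
def p14_18_0_41 : pfC (piC [(nat_lit 38632330), (nat_lit 24534081), (nat_lit 15702173)] (nat_lit 19519284)) p14_18_0 (nat_lit 3) (nat_lit 41) (nat_lit 42) = true := by decide +kernel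
def p14_18_0_42 : pfC (piC [(nat_lit 38632330), (nat_lit 24534081), (nat_lit 15702173)] (nat_lit 19519284)) p14_18_0 (nat_lit 3) (nat_lit 42) (nat_lit 43) = true := by decide +kernel
def p14_18_0_43 : pfC (piC [(nat_lit 38632330), (nat_lit 24534081), (nat_lit 15702173)] (nat_lit 19519284)) p14_18_0 (nat_lit 3) (nat_lit 43) (nat_lit 44) = true := by decide +kernel
def p14_18_0_44 : pfC (piC [(nat_lit 38632330), (nat_lit 24534081), (nat_lit 15702173)] (nat_lit 19519284)) p14_18_0 (nat_lit 3) (nat_lit 44) (nat_lit 45) = true := by decide +kernel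
def p14_18_0_45 : pfC (piC [(nat_lit 38632330), (nat_lit 24534081), (nat_lit 15702173)] (nat_lit 19519284)) p14_18_0 (nat_lit 3) (nat_lit 45) (nat_lit 46) = true := by decide +kernel
def p14_18_0_46 : pfC (piC [(nat_lit 38632330), (nat_lit 24534081), (nat_lit 15702173)] (nat_lit 19519284)) p14_18_0 (nat_lit 3) (nat_lit 46) (nat_lit 47) = true := by decide +kernel
def p14_18_0_47 : pfC (piC [(nat_lit 38632330), (nat_lit 24534081), (nat_lit 15702173)] (nat_lit 19519284)) p14_18_0 (nat_lit 3) (nat_lit 47) (nat_lit 48) = true := by decide +kernel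
def p14_18_0_48 : pfC (piC [(nat_lit 38632330), (nat_lit 24534081), (nat_lit 15702173)] (nat_lit 19519284)) p14_18_0 (nat_lit 3) (nat_lit 48) (nat_lit 49) = true := by decide +kernel
def p14_18_0_49 : pfC (piC [(nat_lit 38632330), (nat_lit 24534081), (nat_lit 15702173)] (nat_lit 19519284)) p14_18_0 (nat_lit 3) (nat_lit 49) (nat_lit 50) = true := by decide +kernel
def p14_18_0_50 : pfC (piC [(nat_lit 38632330), (nat_lit 24534081), (nat_lit 15702173)] (nat_lit 19519284)) p14_18_0 (nat_lit 3) (nat_lit 50) (nat_lit 51) = true := by decide +kernel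
def p14_18_0_51 : pfC (piC [(nat_lit 38632330), (nat_lit 24534081), (nat_lit 15702173)] (nat_lit 19519284)) p14_18_0 (nat_lit 3) (nat_lit 51) (nat_lit 52) = true := by decide +kernel
def p14_18_0_52 : pfC (piC [(nat_lit 38632330), (nat_lit 24534081), (nat_lit 15702173)] (nat_lit 19519284)) p14_18_0 (nat_lit 3) (nat_lit 52) (nat_lit 53) = true := by decide +kernel
def p14_18_0_53 : pfC (piC [(nat_lit 38632330), (nat_lit 24534081), (nat_lit 15702173)] (nat_lit 19519284)) p14_18_0 (nat_lit 3) (nat_lit 53) (nat_lit 54) = true := by decide +kernel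
def p14_18_0_54 : pfC (piC [(nat_lit 38632330), (nat_lit 24534081), (nat_lit 15702173)] (nat_lit 19519284)) p14_18_0 (nat_lit 3) (nat_lit 54) (nat_lit 55) = true := by decide +kernel
def p14_18_0_55 : pfC (piC [(nat_lit 38632330), (nat_lit 24534081), (nat_lit 15702173)] (nat_lit 19519284)) p14_18_0 (nat_lit 3) (nat_lit 55) (nat_lit 56) = true := by decide +kernel
def p14_18_0_56 : pfC (piC [(nat_lit 38632330), (nat_lit 24534081), (nat_lit 15702173)] (nat_lit 19519284)) p14_18_0 (nat_lit 3) (nat_lit 56) (nat_lit 57) = true := by decide +kernel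
def p14_18_0_57 : pfC (piC [(nat_lit 38632330), (nat_lit 24534081), (nat_lit 15702173)] (nat_lit 19519284)) p14_18_0 (nat_lit 3) (nat_lit 57) (nat_lit 58) = true := by decide +kernel
def p14_18_0_58 : pfC (piC [(nat_lit 38632330), (nat_lit 24534081), (nat_lit 15702173)] (nat_lit 19519284)) p14_18_0 (nat_lit 3) (nat_lit 58) (nat_lit 59) = true := by decide +kernel
def p14_18_0_59 : pfC (piC [(nat_lit 38632330), (nat_lit 24534081), (nat_lit 15702173)] (nat_lit 19519284)) p14_18_0 (nat_lit 3) (nat_lit 59) (nat_lit 60) = true := by decide +kernel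
def p14_18_0_60 : pfC (piC [(nat_lit 38632330), (nat_lit 24534081), (nat_lit 15702173)] (nat_lit 19519284)) p14_18_0 (nat_lit 3) (nat_lit 60) (nat_lit 61) = true := by decide +kernel
def p14_18_0_61 : pfC (piC [(nat_lit 38632330), (nat_lit 24534081), (nat_lit 15702173)] (nat_lit 19519284)) p14_18_0 (nat_lit 3) (nat_lit 61) (nat_lit 62) = true := by decide +kernel
def p14_18_0_62 : pfC (piC [(nat_lit 38632330), (nat_lit 24534081), (nat_lit 15702173)] (nat_lit 19519284)) p14_18_0 (nat_lit 3) (nat_lit 62) (nat_lit 63) = true := by decide +kernel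
def p14_18_0_63 : pfC (piC [(nat_lit 38632330), (nat_lit 24534081), (nat_lit 15702173)] (nat_lit 19519284)) p14_18_0 (nat_lit 3) (nat_lit 63) (nat_lit 64) = true := by decide +kernel
def p14_18_0_64 : pfC (piC [(nat_lit 38632330), (nat_lit 24534081), (nat_lit 15702173)] (nat_lit 19519284)) p14_18_0 (nat_lit 3) (nat_lit 64) (nat_lit 65) = true := by decide +kernel
def p14_18_0_65 : pfC (piC [(nat_lit 38632330), (nat_lit 24534081), (nat_lit 15702173)] (nat_lit 19519284)) p14_18_0 (nat_lit 3) (nat_lit 65) (nat_lit 66) = true := by decide +kernel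
def p14_18_0_66 : pfC (piC [(nat_lit 38632330), (nat_lit 24534081), (nat_lit 15702173)] (nat_lit 19519284)) p14_18_0 (nat_lit 3) (nat_lit 66) (nat_lit 67) = true := by decide +kernel
def p14_18_0_67 : pfC (piC [(nat_lit 38632330), (nat_lit 24534081), (nat_lit 15702173)] (nat_lit 19519284)) p14_18_0 (nat_lit 3) (nat_lit 67) (nat_lit 68) = true := by decide +kernel
def p14_18_0_68 : pfC (piC [(nat_lit 38632330), (nat_lit 24534081), (nat_lit 15702173)] (nat_lit 19519284)) p14_18_0 (nat_lit 3) (nat_lit 68) (nat_lit 69) = true := by decide +kernel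
def p14_18_0_69 : pfC (piC [(nat_lit 38632330), (nat_lit 24534081), (nat_lit 15702173)] (nat_lit 19519284)) p14_18_0 (nat_lit 3) (nat_lit 69) (nat_lit 70) = true := by decide +kernel
def p14_18_0_70 : pfC (piC [(nat_lit 38632330), (nat_lit 24534081), (nat_lit 15702173)] (nat_lit 19519284)) p14_18_0 (nat_lit 3) (nat_lit 70) (nat_lit 71) = true := by decide +kernel
def p14_18_0_71 : pfC (piC [(nat_lit 38632330), (nat_lit 24534081), (nat_lit 15702173)] (nat_lit 19519284)) p14_18_0 (nat_lit 3) (nat_lit 71) (nat_lit 72) = true := by decide +kernel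
def p14_18_0_72 : pfC (piC [(nat_lit 38632330), (nat_lit 24534081), (nat_lit 15702173)] (nat_lit 19519284)) p14_18_0 (nat_lit 3) (nat_lit 72) (nat_lit 73) = true := by decide +kernel
def p14_18_0_73 : pfC (piC [(nat_lit 38632330), (nat_lit 24534081), (nat_lit 15702173)] (nat_lit 19519284)) p14_18_0 (nat_lit 3) (nat_lit 73) (nat_lit 74) = true := by decide +kernel
def p14_18_0_74 : pfC (piC [(nat_lit 38632330), (nat_lit 24534081), (nat_lit 15702173)] (nat_lit 19519284)) p14_18_0 (nat_lit 3) (nat_lit 74) (nat_lit 75) = true := by decide +kernel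
def p14_18_0_75 : pfC (piC [(nat_lit 38632330), (nat_lit 24534081), (nat_lit 15702173)] (nat_lit 19519284)) p14_18_0 (nat_lit 3) (nat_lit 75) (nat_lit 76) = true := by decide +kernel
def p14_18_0_76 : pfC (piC [(nat_lit 38632330), (nat_lit 24534081), (nat_lit 15702173)] (nat_lit 19519284)) p14_18_0 (nat_lit 3) (nat_lit 76) (nat_lit 77) = true := by decide +kernel
def p14_18_0_77 : pfC (piC [(nat_lit 38632330), (nat_lit 24534081), (nat_lit 15702173)] (nat_lit 19519284)) p14_18_0 (nat_lit 3) (nat_lit 77) (nat_lit 78) = true := by decide +kernel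
def p14_18_0_78 : pfC (piC [(nat_lit 38632330), (nat_lit 24534081), (nat_lit 15702173)] (nat_lit 19519284)) p14_18_0 (nat_lit 3) (nat_lit 78) (nat_lit 79) = true := by decide +kernel
def p14_18_0_79 : pfC (piC [(nat_lit 38632330), (nat_lit 24534081), (nat_lit 15702173)] (nat_lit 19519284)) p14_18_0 (nat_lit 3) (nat_lit 79) (nat_lit 80) = true := by decide +kernel
def p14_18_0_80 : pfC (piC [(nat_lit 38632330), (nat_lit 24534081), (nat_lit 15702173)] (nat_lit 19519284)) p14_18_0 (nat_lit 3) (nat_lit 80) (nat_lit 81) = true := by decide +kernel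
def p14_18_0_81 : pfC (piC [(nat_lit 38632330), (nat_lit 24534081), (nat_lit 15702173)] (nat_lit 19519284)) p14_18_0 (nat_lit 3) (nat_lit 81) (nat_lit 82) = true := by decide +kernel
def p14_18_0_82 : pfC (piC [(nat_lit 38632330), (nat_lit 24534081), (nat_lit 15702173)] (nat_lit 19519284)) p14_18_0 (nat_lit 3) (nat_lit 82) (nat_lit 83) = true := by decide +kernel
def p14_18_0_83 : pfC (piC [(nat_lit 38632330), (nat_lit 24534081), (nat_lit 15702173)] (nat_lit 19519284)) p14_18_0 (nat_lit 3) (nat_lit 83) (nat_lit 84) = true := by decide +kernel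
def p14_18_0_84 : pfC (piC [(nat_lit 38632330), (nat_lit 24534081), (nat_lit 15702173)] (nat_lit 19519284)) p14_18_0 (nat_lit 3) (nat_lit 84) (nat_lit 85) = true := by decide +kernel
def p14_18_0_85 : pfC (piC [(nat_lit 38632330), (nat_lit 24534081), (nat_lit 15702173)] (nat_lit 19519284)) p14_18_0 (nat_lit 3) (nat_lit 85) (nat_lit 86) = true := by decide +kernel
def p14_18_0_86 : pfC (piC [(nat_lit 38632330), (nat_lit 24534081), (nat_lit 15702173)] (nat_lit 19519284)) p14_18_0 (nat_lit 3) (nat_lit 86) (nat_lit 87) = true := by decide +kernel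
def p14_18_0_87 : pfC (piC [(nat_lit 38632330), (nat_lit 24534081), (nat_lit 15702173)] (nat_lit 19519284)) p14_18_0 (nat_lit 3) (nat_lit 87) (nat_lit 88) = true := by decide +kernel
def p14_18_0_88 : pfC (piC [(nat_lit 38632330), (nat_lit 24534081), (nat_lit 15702173)] (nat_lit 19519284)) p14_18_0 (nat_lit 3) (nat_lit 88) (nat_lit 89) = true := by decide +kernel
def p14_18_0_89 : pfC (piC [(nat_lit 38632330), (nat_lit 24534081), (nat_lit 15702173)] (nat_lit 19519284)) p14_18_0 (nat_lit 3) (nat_lit 89) (nat_lit 90) = true := by decide +kernel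
def p14_18_0_90 : pfC (piC [(nat_lit 38632330), (nat_lit 24534081), (nat_lit 15702173)] (nat_lit 19519284)) p14_18_0 (nat_lit 3) (nat_lit 90) (nat_lit 91) = true := by decide +kernel
def p14_18_0_91 : pfC (piC [(nat_lit 38632330), (nat_lit 24534081), (nat_lit 15702173)] (nat_lit 19519284)) p14_18_0 (nat_lit 3) (nat_lit 91) (nat_lit 92) = true := by decide +kernel
def p14_18_0_92 : pfC (piC [(nat_lit 38632330), (nat_lit 24534081), (nat_lit 15702173)] (nat_lit 19519284)) p14_18_0 (nat_lit 3) (nat_lit 92) (nat_lit 93) = true := by decide +kernel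
def p14_18_0_93 : pfC (piC [(nat_lit 38632330), (nat_lit 24534081), (nat_lit 15702173)] (nat_lit 19519284)) p14_18_0 (nat_lit 3) (nat_lit 93) (nat_lit 94) = true := by decide +kernel
def p14_18_0_94 : pfC (piC [(nat_lit 38632330), (nat_lit 24534081), (nat_lit 15702173)] (nat_lit 19519284)) p14_18_0 (nat_lit 3) (nat_lit 94) (nat_lit 95) = true := by decide +kernel
def p14_18_0_95 : pfC (piC [(nat_lit 38632330), (nat_lit 24534081), (nat_lit 15702173)] (nat_lit 19519284)) p14_18_0 (nat_lit 3) (nat_lit 95) (nat_lit 96) = true := by decide +kernel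
def p14_18_0_96 : pfC (piC [(nat_lit 38632330), (nat_lit 24534081), (nat_lit 15702173)] (nat_lit 19519284)) p14_18_0 (nat_lit 3) (nat_lit 96) (nat_lit 97) = true := by decide +kernel
def p14_18_0_97 : pfC (piC [(nat_lit 38632330), (nat_lit 24534081), (nat_lit 15702173)] (nat_lit 19519284)) p14_18_0 (nat_lit 3) (nat_lit 97) (nat_lit 98) = true := by decide +kernel
def p14_18_0_98 : pfC (piC [(nat_lit 38632330), (nat_lit 24534081), (nat_lit 15702173)] (nat_lit 19519284)) p14_18_0 (nat_lit 3) (nat_lit 98) (nat_lit 99) = true := by decide +kernel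
def p14_18_0_99 : pfC (piC [(nat_lit 38632330), (nat_lit 24534081), (nat_lit 15702173)] (nat_lit 19519284)) p14_18_0 (nat_lit 3) (nat_lit 99) (nat_lit 100) = true := by decide +kernel
def p14_18_0_100 : pfC (piC [(nat_lit 38632330), (nat_lit 24534081), (nat_lit 15702173)] (nat_lit 19519284)) p14_18_0 (nat_lit 3) (nat_lit 100) (nat_lit 101) = true := by decide +kernel
def p14_18_0_101 : pfC (piC [(nat_lit 38632330), (nat_lit 24534081), (nat_lit 15702173)] (nat_lit 19519284)) p14_18_0 (nat_lit 3) (nat_lit 101) (nat_lit 102) = true := by decide +kernel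
def p14_18_0_102 : pfC (piC [(nat_lit 38632330), (nat_lit 24534081), (nat_lit 15702173)] (nat_lit 19519284)) p14_18_0 (nat_lit 3) (nat_lit 102) (nat_lit 103) = true := by decide +kernel
def p14_18_0_103 : pfC (piC [(nat_lit 38632330), (nat_lit 24534081), (nat_lit 15702173)] (nat_lit 19519284)) p14_18_0 (nat_lit 3) (nat_lit 103) (nat_lit 104) = true := by decide +kernel
def p14_18_0_104 : pfC (piC [(nat_lit 38632330), (nat_lit 24534081), (nat_lit 15702173)] (nat_lit 19519284)) p14_18_0 (nat_lit 3) (nat_lit 104) (nat_lit 105) = true := by decide +kernel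
def p14_18_0_105 : pfC (piC [(nat_lit 38632330), (nat_lit 24534081), (nat_lit 15702173)] (nat_lit 19519284)) p14_18_0 (nat_lit 3) (nat_lit 105) (nat_lit 106) = true := by decide +kernel
def p14_18_0_106 : pfC (piC [(nat_lit 38632330), (nat_lit 24534081), (nat_lit 15702173)] (nat_lit 19519284)) p14_18_0 (nat_lit 3) (nat_lit 106) (nat_lit 107) = true := by decide +kernel
def p14_18_0_107 : pfC (piC [(nat_lit 38632330), (nat_lit 24534081), (nat_lit 15702173)] (nat_lit 19519284)) p14_18_0 (nat_lit 3) (nat_lit 107) (nat_lit 108) = true := by decide +kernel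
def p14_18_0_108 : pfC (piC [(nat_lit 38632330), (nat_lit 24534081), (nat_lit 15702173)] (nat_lit 19519284)) p14_18_0 (nat_lit 3) (nat_lit 108) (nat_lit 109) = true := by decide +kernel
def p14_18_0_109 : pfC (piC [(nat_lit 38632330), (nat_lit 24534081), (nat_lit 15702173)] (nat_lit 19519284)) p14_18_0 (nat_lit 3) (nat_lit 109) (nat_lit 110) = true := by decide +kernel
def p14_18_0_110 : pfC (piC [(nat_lit 38632330), (nat_lit 24534081), (nat_lit 15702173)] (nat_lit 19519284)) p14_18_0 (nat_lit 3) (nat_lit 110) (nat_lit 111) = true := by decide +kernel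
def p14_18_0_111 : pfC (piC [(nat_lit 38632330), (nat_lit 24534081), (nat_lit 15702173)] (nat_lit 19519284)) p14_18_0 (nat_lit 3) (nat_lit 111) (nat_lit 112) = true := by decide +kernel
def p14_18_0_112 : pfC (piC [(nat_lit 38632330), (nat_lit 24534081), (nat_lit 15702173)] (nat_lit 19519284)) p14_18_0 (nat_lit 3) (nat_lit 112) (nat_lit 113) = true := by decide +kernel
def p14_18_0_113 : pfC (piC [(nat_lit 38632330), (nat_lit 24534081), (nat_lit 15702173)] (nat_lit 19519284)) p14_18_0 (nat_lit 3) (nat_lit 113) (nat_lit 114) = true := by decide +kernel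
def p14_18_0_114 : pfC (piC [(nat_lit 38632330), (nat_lit 24534081), (nat_lit 15702173)] (nat_lit 19519284)) p14_18_0 (nat_lit 3) (nat_lit 114) (nat_lit 115) = true := by decide +kernel
def p14_18_0_115 : pfC (piC [(nat_lit 38632330), (nat_lit 24534081), (nat_lit 15702173)] (nat_lit 19519284)) p14_18_0 (nat_lit 3) (nat_lit 115) (nat_lit 116) = true := by decide +kernel
def p14_18_0_116 : pfC (piC [(nat_lit 38632330), (nat_lit 24534081), (nat_lit 15702173)] (nat_lit 19519284)) p14_18_0 (nat_lit 3) (nat_lit 116) (nat_lit 117) = true := by decide +kernel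
def p14_18_0_117 : pfC (piC [(nat_lit 38632330), (nat_lit 24534081), (nat_lit 15702173)] (nat_lit 19519284)) p14_18_0 (nat_lit 3) (nat_lit 117) (nat_lit 118) = true := by decide +kernel
def p14_18_0_118 : pfC (piC [(nat_lit 38632330), (nat_lit 24534081), (nat_lit 15702173)] (nat_lit 19519284)) p14_18_0 (nat_lit 3) (nat_lit 118) (nat_lit 119) = true := by decide +kernel
def p14_18_0_119 : pfC (piC [(nat_lit 38632330), (nat_lit 24534081), (nat_lit 15702173)] (nat_lit 19519284)) p14_18_0 (nat_lit 3) (nat_lit 119) (nat_lit 120) = true := by decide +kernel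
def p14_18_0_120 : pfC (piC [(nat_lit 38632330), (nat_lit 24534081), (nat_lit 15702173)] (nat_lit 19519284)) p14_18_0 (nat_lit 3) (nat_lit 120) (nat_lit 121) = true := by decide +kernel
def p14_18_0_121 : pfC (piC [(nat_lit 38632330), (nat_lit 24534081), (nat_lit 15702173)] (nat_lit 19519284)) p14_18_0 (nat_lit 3) (nat_lit 121) (nat_lit 122) = true := by decide +kernel
def p14_18_0_122 : pfC (piC [(nat_lit 38632330), (nat_lit 24534081), (nat_lit 15702173)] (nat_lit 19519284)) p14_18_0 (nat_lit 3) (nat_lit 122) (nat_lit 123) = true := by decide +kernel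
def p14_18_0_123 : pfC (piC [(nat_lit 38632330), (nat_lit 24534081), (nat_lit 15702173)] (nat_lit 19519284)) p14_18_0 (nat_lit 3) (nat_lit 123) (nat_lit 124) = true := by decide +kernel
def p14_18_0_124 : pfC (piC [(nat_lit 38632330), (nat_lit 24534081), (nat_lit 15702173)] (nat_lit 19519284)) p14_18_0 (nat_lit 3) (nat_lit 124) (nat_lit 125) = true := by decide +kernel
def p14_18_0_125 : pfC (piC [(nat_lit 38632330), (nat_lit 24534081), (nat_lit 15702173)] (nat_lit 19519284)) p14_18_0 (nat_lit 3) (nat_lit 125) (nat_lit 126) = true := by decide +kernel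
def p14_18_0_126 : pfC (piC [(nat_lit 38632330), (nat_lit 24534081), (nat_lit 15702173)] (nat_lit 19519284)) p14_18_0 (nat_lit 3) (nat_lit 126) (nat_lit 127) = true := by decide +kernel
def p14_18_0_127 : pfC (piC [(nat_lit 38632330), (nat_lit 24534081), (nat_lit 15702173)] (nat_lit 19519284)) p14_18_0 (nat_lit 3) (nat_lit 127) (nat_lit 128) = true := by decide +kernel
def p14_18_0_128 : pfC (piC [(nat_lit 38632330), (nat_lit 24534081), (nat_lit 15702173)] (nat_lit 19519284)) p14_18_0 (nat_lit 3) (nat_lit 128) (nat_lit 129) = true := by decide +kernel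
def p14_18_0_129 : pfC (piC [(nat_lit 38632330), (nat_lit 24534081), (nat_lit 15702173)] (nat_lit 19519284)) p14_18_0 (nat_lit 3) (nat_lit 129) (nat_lit 130) = true := by decide +kernel
def p14_18_0_130 : pfC (piC [(nat_lit 38632330), (nat_lit 24534081), (nat_lit 15702173)] (nat_lit 19519284)) p14_18_0 (nat_lit 3) (nat_lit 130) (nat_lit 131) = true := by decide +kernel
def p14_18_0_131 : pfC (piC [(nat_lit 38632330), (nat_lit 24534081), (nat_lit 15702173)] (nat_lit 19519284)) p14_18_0 (nat_lit 3) (nat_lit 131) (nat_lit 132) = true := by decide +kernel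
def p14_18_0_132 : pfC (piC [(nat_lit 38632330), (nat_lit 24534081), (nat_lit 15702173)] (nat_lit 19519284)) p14_18_0 (nat_lit 3) (nat_lit 132) (nat_lit 133) = true := by decide +kernel
def p14_18_0_133 : pfC (piC [(nat_lit 38632330), (nat_lit 24534081), (nat_lit 15702173)] (nat_lit 19519284)) p14_18_0 (nat_lit 3) (nat_lit 133) (nat_lit 134) = true := by decide +kernel
def p14_18_0_134 : pfC (piC [(nat_lit 38632330), (nat_lit 24534081), (nat_lit 15702173)] (nat_lit 19519284)) p14_18_0 (nat_lit 3) (nat_lit 134) (nat_lit 135) = true := by decide +kernel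
def p14_18_0_135 : pfC (piC [(nat_lit 38632330), (nat_lit 24534081), (nat_lit 15702173)] (nat_lit 19519284)) p14_18_0 (nat_lit 3) (nat_lit 135) (nat_lit 136) = true := by decide +kernel
def p14_18_0_136 : pfC (piC [(nat_lit 38632330), (nat_lit 24534081), (nat_lit 15702173)] (nat_lit 19519284)) p14_18_0 (nat_lit 3) (nat_lit 136) (nat_lit 137) = true := by decide +kernel
def p14_18_0_137 : pfC (piC [(nat_lit 38632330), (nat_lit 24534081), (nat_lit 15702173)] (nat_lit 19519284)) p14_18_0 (nat_lit 3) (nat_lit 137) (nat_lit 138) = true := by decide +kernel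
def p14_18_0_138 : pfC (piC [(nat_lit 38632330), (nat_lit 24534081), (nat_lit 15702173)] (nat_lit 19519284)) p14_18_0 (nat_lit 3) (nat_lit 138) (nat_lit 139) = true := by decide +kernel
def p14_18_0_139 : pfC (piC [(nat_lit 38632330), (nat_lit 24534081), (nat_lit 15702173)] (nat_lit 19519284)) p14_18_0 (nat_lit 3) (nat_lit 139) (nat_lit 140) = true := by decide +kernel
def p14_18_0_140 : pfC (piC [(nat_lit 38632330), (nat_lit 24534081), (nat_lit 15702173)] (nat_lit 19519284)) p14_18_0 (nat_lit 3) (nat_lit 140) (nat_lit 141) = true := by decide +kernel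
def p14_18_0_141 : pfC (piC [(nat_lit 38632330), (nat_lit 24534081), (nat_lit 15702173)] (nat_lit 19519284)) p14_18_0 (nat_lit 3) (nat_lit 141) (nat_lit 142) = true := by decide +kernel
def p14_18_0_142 : pfC (piC [(nat_lit 38632330), (nat_lit 24534081), (nat_lit 15702173)] (nat_lit 19519284)) p14_18_0 (nat_lit 3) (nat_lit 142) (nat_lit 143) = true := by decide +kernel
def p14_18_0_143 : pfC (piC [(nat_lit 38632330), (nat_lit 24534081), (nat_lit 15702173)] (nat_lit 19519284)) p14_18_0 (nat_lit 3) (nat_lit 143) (nat_lit 144) = true := by decide +kernel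
def p14_18_0_144 : pfC (piC [(nat_lit 38632330), (nat_lit 24534081), (nat_lit 15702173)] (nat_lit 19519284)) p14_18_0 (nat_lit 3) (nat_lit 144) (nat_lit 145) = true := by decide +kernel
def p14_18_0_145 : pfC (piC [(nat_lit 38632330), (nat_lit 24534081), (nat_lit 15702173)] (nat_lit 19519284)) p14_18_0 (nat_lit 3) (nat_lit 145) (nat_lit 146) = true := by decide +kernel
def p14_18_0_146 : pfC (piC [(nat_lit 38632330), (nat_lit 24534081), (nat_lit 15702173)] (nat_lit 19519284)) p14_18_0 (nat_lit 3) (nat_lit 146) (nat_lit 147) = true := by decide +kernel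
def p14_18_0_147 : pfC (piC [(nat_lit 38632330), (nat_lit 24534081), (nat_lit 15702173)] (nat_lit 19519284)) p14_18_0 (nat_lit 3) (nat_lit 147) (nat_lit 148) = true := by decide +kernel
def p14_18_0_148 : pfC (piC [(nat_lit 38632330), (nat_lit 24534081), (nat_lit 15702173)] (nat_lit 19519284)) p14_18_0 (nat_lit 3) (nat_lit 148) (nat_lit 149) = true := by decide +kernel
def p14_18_0_149 : pfC (piC [(nat_lit 38632330), (nat_lit 24534081), (nat_lit 15702173)] (nat_lit 19519284)) p14_18_0 (nat_lit 3) (nat_lit 149) (nat_lit 150) = true := by decide +kernel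
def p14_18_0_150 : pfC (piC [(nat_lit 38632330), (nat_lit 24534081), (nat_lit 15702173)] (nat_lit 19519284)) p14_18_0 (nat_lit 3) (nat_lit 150) (nat_lit 151) = true := by decide +kernel
def p14_18_0_151 : pfC (piC [(nat_lit 38632330), (nat_lit 24534081), (nat_lit 15702173)] (nat_lit 19519284)) p14_18_0 (nat_lit 3) (nat_lit 151) (nat_lit 152) = true := by decide +kernel
def p14_18_0_152 : pfC (piC [(nat_lit 38632330), (nat_lit 24534081), (nat_lit 15702173)] (nat_lit 19519284)) p14_18_0 (nat_lit 3) (nat_lit 152) (nat_lit 153) = true := by decide +kernel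
def p14_18_0_153 : pfC (piC [(nat_lit 38632330), (nat_lit 24534081), (nat_lit 15702173)] (nat_lit 19519284)) p14_18_0 (nat_lit 3) (nat_lit 153) (nat_lit 154) = true := by decide +kernel
def p14_18_0_154 : pfC (piC [(nat_lit 38632330), (nat_lit 24534081), (nat_lit 15702173)] (nat_lit 19519284)) p14_18_0 (nat_lit 3) (nat_lit 154) (nat_lit 155) = true := by decide +kernel
def p14_18_0_155 : pfC (piC [(nat_lit 38632330), (nat_lit 24534081), (nat_lit 15702173)] (nat_lit 19519284)) p14_18_0 (nat_lit 3) (nat_lit 155) (nat_lit 156) = true := by decide +kernel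
def p14_18_0_156 : pfC (piC [(nat_lit 38632330), (nat_lit 24534081), (nat_lit 15702173)] (nat_lit 19519284)) p14_18_0 (nat_lit 3) (nat_lit 156) (nat_lit 157) = true := by decide +kernel
def p14_18_0_157 : pfC (piC [(nat_lit 38632330), (nat_lit 24534081), (nat_lit 15702173)] (nat_lit 19519284)) p14_18_0 (nat_lit 3) (nat_lit 157) (nat_lit 158) = true := by decide +kernel
def p14_18_0_158 : pfC (piC [(nat_lit 38632330), (nat_lit 24534081), (nat_lit 15702173)] (nat_lit 19519284)) p14_18_0 (nat_lit 3) (nat_lit 158) (nat_lit 159) = true := by decide +kernel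
def p14_18_0_159 : pfC (piC [(nat_lit 38632330), (nat_lit 24534081), (nat_lit 15702173)] (nat_lit 19519284)) p14_18_0 (nat_lit 3) (nat_lit 159) (nat_lit 160) = true := by decide +kernel
def p14_18_0_160 : pfC (piC [(nat_lit 38632330), (nat_lit 24534081), (nat_lit 15702173)] (nat_lit 19519284)) p14_18_0 (nat_lit 3) (nat_lit 160) (nat_lit 161) = true := by decide +kernel
def p14_18_0_161 : pfC (piC [(nat_lit 38632330), (nat_lit 24534081), (nat_lit 15702173)] (nat_lit 19519284)) p14_18_0 (nat_lit 3) (nat_lit 161) (nat_lit 162) = true := by decide +kernel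
def p14_18_0_162 : pfC (piC [(nat_lit 38632330), (nat_lit 24534081), (nat_lit 15702173)] (nat_lit 19519284)) p14_18_0 (nat_lit 3) (nat_lit 162) (nat_lit 163) = true := by decide +kernel
def p14_18_0_163 : pfC (piC [(nat_lit 38632330), (nat_lit 24534081), (nat_lit 15702173)] (nat_lit 19519284)) p14_18_0 (nat_lit 3) (nat_lit 163) (nat_lit 164) = true := by decide +kernel
def p14_18_0_164 : pfC (piC [(nat_lit 38632330), (nat_lit 24534081), (nat_lit 15702173)] (nat_lit 19519284)) p14_18_0 (nat_lit 3) (nat_lit 164) (nat_lit 165) = true := by decide +kernel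
def p14_18_0_165 : pfC (piC [(nat_lit 38632330), (nat_lit 24534081), (nat_lit 15702173)] (nat_lit 19519284)) p14_18_0 (nat_lit 3) (nat_lit 165) (nat_lit 166) = true := by decide +kernel
def p14_18_0_166 : pfC (piC [(nat_lit 38632330), (nat_lit 24534081), (nat_lit 15702173)] (nat_lit 19519284)) p14_18_0 (nat_lit 3) (nat_lit 166) (nat_lit 167) = true := by decide +kernel
def p14_18_0_167 : pfC (piC [(nat_lit 38632330), (nat_lit 24534081), (nat_lit 15702173)] (nat_lit 19519284)) p14_18_0 (nat_lit 3) (nat_lit 167) (nat_lit 168) = true := by decide +kernel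
def p14_18_0_168 : pfC (piC [(nat_lit 38632330), (nat_lit 24534081), (nat_lit 15702173)] (nat_lit 19519284)) p14_18_0 (nat_lit 3) (nat_lit 168) (nat_lit 169) = true := by decide +kernel
def p14_18_0_169 : pfC (piC [(nat_lit 38632330), (nat_lit 24534081), (nat_lit 15702173)] (nat_lit 19519284)) p14_18_0 (nat_lit 3) (nat_lit 169) (nat_lit 170) = true := by decide +kernel
def p14_18_0_170 : pfC (piC [(nat_lit 38632330), (nat_lit 24534081), (nat_lit 15702173)] (nat_lit 19519284)) p14_18_0 (nat_lit 3) (nat_lit 170) (nat_lit 171) = true := by decide +kernel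
def p14_18_0_171 : pfC (piC [(nat_lit 38632330), (nat_lit 24534081), (nat_lit 15702173)] (nat_lit 19519284)) p14_18_0 (nat_lit 3) (nat_lit 171) (nat_lit 172) = true := by decide +kernel
def p14_18_0_172 : pfC (piC [(nat_lit 38632330), (nat_lit 24534081), (nat_lit 15702173)] (nat_lit 19519284)) p14_18_0 (nat_lit 3) (nat_lit 172) (nat_lit 173) = true := by decide +kernel
def p14_18_0_173 : pfC (piC [(nat_lit 38632330), (nat_lit 24534081), (nat_lit 15702173)] (nat_lit 19519284)) p14_18_0 (nat_lit 3) (nat_lit 173) (nat_lit 174) = true := by decide +kernel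
def p14_18_0_174 : pfC (piC [(nat_lit 38632330), (nat_lit 24534081), (nat_lit 15702173)] (nat_lit 19519284)) p14_18_0 (nat_lit 3) (nat_lit 174) (nat_lit 175) = true := by decide +kernel
def p14_18_0_175 : pfC (piC [(nat_lit 38632330), (nat_lit 24534081), (nat_lit 15702173)] (nat_lit 19519284)) p14_18_0 (nat_lit 3) (nat_lit 175) (nat_lit 176) = true := by decide +kernel
def p14_18_0_176 : pfC (piC [(nat_lit 38632330), (nat_lit 24534081), (nat_lit 15702173)] (nat_lit 19519284)) p14_18_0 (nat_lit 3) (nat_lit 176) (nat_lit 177) = true := by decide +kernel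
def p14_18_0_177 : pfC (piC [(nat_lit 38632330), (nat_lit 24534081), (nat_lit 15702173)] (nat_lit 19519284)) p14_18_0 (nat_lit 3) (nat_lit 177) (nat_lit 178) = true := by decide +kernel
def p14_18_0_178 : pfC (piC [(nat_lit 38632330), (nat_lit 24534081), (nat_lit 15702173)] (nat_lit 19519284)) p14_18_0 (nat_lit 3) (nat_lit 178) (nat_lit 179) = true := by decide +kernel
def p14_18_0_179 : pfC (piC [(nat_lit 38632330), (nat_lit 24534081), (nat_lit 15702173)] (nat_lit 19519284)) p14_18_0 (nat_lit 3) (nat_lit 179) (nat_lit 180) = true := by decide +kernel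
def p14_18_0_180 : pfC (piC [(nat_lit 38632330), (nat_lit 24534081), (nat_lit 15702173)] (nat_lit 19519284)) p14_18_0 (nat_lit 3) (nat_lit 180) (nat_lit 181) = true := by decide +kernel
def p14_18_0_181 : pfC (piC [(nat_lit 38632330), (nat_lit 24534081), (nat_lit 15702173)] (nat_lit 19519284)) p14_18_0 (nat_lit 3) (nat_lit 181) (nat_lit 182) = true := by decide +kernel
def p14_18_0_182 : pfC (piC [(nat_lit 38632330), (nat_lit 24534081), (nat_lit 15702173)] (nat_lit 19519284)) p14_18_0 (nat_lit 3) (nat_lit 182) (nat_lit 183) = true := by decide +kernel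
def p14_18_0_183 : pfC (piC [(nat_lit 38632330), (nat_lit 24534081), (nat_lit 15702173)] (nat_lit 19519284)) p14_18_0 (nat_lit 3) (nat_lit 183) (nat_lit 184) = true := by decide +kernel
def p14_18_0_184 : pfC (piC [(nat_lit 38632330), (nat_lit 24534081), (nat_lit 15702173)] (nat_lit 19519284)) p14_18_0 (nat_lit 3) (nat_lit 184) (nat_lit 185) = true := by decide +kernel
def p14_18_0_185 : pfC (piC [(nat_lit 38632330), (nat_lit 24534081), (nat_lit 15702173)] (nat_lit 19519284)) p14_18_0 (nat_lit 3) (nat_lit 185) (nat_lit 186) = true := by decide +kernel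
def p14_18_0_186 : pfC (piC [(nat_lit 38632330), (nat_lit 24534081), (nat_lit 15702173)] (nat_lit 19519284)) p14_18_0 (nat_lit 3) (nat_lit 186) (nat_lit 187) = true := by decide +kernel
def p14_18_0_187 : pfC (piC [(nat_lit 38632330), (nat_lit 24534081), (nat_lit 15702173)] (nat_lit 19519284)) p14_18_0 (nat_lit 3) (nat_lit 187) (nat_lit 188) = true := by decide +kernel
def p14_18_0_188 : pfC (piC [(nat_lit 38632330), (nat_lit 24534081), (nat_lit 15702173)] (nat_lit 19519284)) p14_18_0 (nat_lit 3) (nat_lit 188) (nat_lit 189) = true := by decide +kernel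
def p14_18_0_189 : pfC (piC [(nat_lit 38632330), (nat_lit 24534081), (nat_lit 15702173)] (nat_lit 19519284)) p14_18_0 (nat_lit 3) (nat_lit 189) (nat_lit 190) = true := by decide +kernel
def p14_18_0_190 : pfC (piC [(nat_lit 38632330), (nat_lit 24534081), (nat_lit 15702173)] (nat_lit 19519284)) p14_18_0 (nat_lit 3) (nat_lit 190) (nat_lit 191) = true := by decide +kernel
def p14_18_0_191 : pfC (piC [(nat_lit 38632330), (nat_lit 24534081), (nat_lit 15702173)] (nat_lit 19519284)) p14_18_0 (nat_lit 3) (nat_lit 191) (nat_lit 192) = true := by decide +kernel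
def p14_18_0_192 : pfC (piC [(nat_lit 38632330), (nat_lit 24534081), (nat_lit 15702173)] (nat_lit 19519284)) p14_18_0 (nat_lit 3) (nat_lit 192) (nat_lit 193) = true := by decide +kernel
def p14_18_0_193 : pfC (piC [(nat_lit 38632330), (nat_lit 24534081), (nat_lit 15702173)] (nat_lit 19519284)) p14_18_0 (nat_lit 3) (nat_lit 193) (nat_lit 194) = true := by decide +kernel
def p14_18_0_194 : pfC (piC [(nat_lit 38632330), (nat_lit 24534081), (nat_lit 15702173)] (nat_lit 19519284)) p14_18_0 (nat_lit 3) (nat_lit 194) (nat_lit 195) = true := by decide +kernel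
def p14_18_0_195 : pfC (piC [(nat_lit 38632330), (nat_lit 24534081), (nat_lit 15702173)] (nat_lit 19519284)) p14_18_0 (nat_lit 3) (nat_lit 195) (nat_lit 196) = true := by decide +kernel
def p14_18_0_196 : pfC (piC [(nat_lit 38632330), (nat_lit 24534081), (nat_lit 15702173)] (nat_lit 19519284)) p14_18_0 (nat_lit 3) (nat_lit 196) (nat_lit 197) = true := by decide +kernel
def p14_18_0_197 : pfC (piC [(nat_lit 38632330), (nat_lit 24534081), (nat_lit 15702173)] (nat_lit 19519284)) p14_18_0 (nat_lit 3) (nat_lit 197) (nat_lit 198) = true := by decide +kernel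
def p14_18_0_198 : pfC (piC [(nat_lit 38632330), (nat_lit 24534081), (nat_lit 15702173)] (nat_lit 19519284)) p14_18_0 (nat_lit 3) (nat_lit 198) (nat_lit 199) = true := by decide +kernel
def p14_18_0_199 : pfC (piC [(nat_lit 38632330), (nat_lit 24534081), (nat_lit 15702173)] (nat_lit 19519284)) p14_18_0 (nat_lit 3) (nat_lit 199) (nat_lit 200) = true := by decide +kernel
def p14_18_0_200 : pfC (piC [(nat_lit 38632330), (nat_lit 24534081), (nat_lit 15702173)] (nat_lit 19519284)) p14_18_0 (nat_lit 3) (nat_lit 200) (nat_lit 201) = true := by decide +kernel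
def p14_18_0_201 : pfC (piC [(nat_lit 38632330), (nat_lit 24534081), (nat_lit 15702173)] (nat_lit 19519284)) p14_18_0 (nat_lit 3) (nat_lit 201) (nat_lit 202) = true := by decide +kernel
def p14_18_0_202 : pfC (piC [(nat_lit 38632330), (nat_lit 24534081), (nat_lit 15702173)] (nat_lit 19519284)) p14_18_0 (nat_lit 3) (nat_lit 202) (nat_lit 203) = true := by decide +kernel
def p14_18_0_203 : pfC (piC [(nat_lit 38632330), (nat_lit 24534081), (nat_lit 15702173)] (nat_lit 19519284)) p14_18_0 (nat_lit 3) (nat_lit 203) (nat_lit 204) = true := by decide +kernel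
def p14_18_0_204 : pfC (piC [(nat_lit 38632330), (nat_lit 24534081), (nat_lit 15702173)] (nat_lit 19519284)) p14_18_0 (nat_lit 3) (nat_lit 204) (nat_lit 205) = true := by decide +kernel
def p14_18_0_205 : pfC (piC [(nat_lit 38632330), (nat_lit 24534081), (nat_lit 15702173)] (nat_lit 19519284)) p14_18_0 (nat_lit 3) (nat_lit 205) (nat_lit 206) = true := by decide +kernel
def p14_18_0_206 : pfC (piC [(nat_lit 38632330), (nat_lit 24534081), (nat_lit 15702173)] (nat_lit 19519284)) p14_18_0 (nat_lit 3) (nat_lit 206) (nat_lit 207) = true := by decide +kernel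
def p14_18_0_207 : pfC (piC [(nat_lit 38632330), (nat_lit 24534081), (nat_lit 15702173)] (nat_lit 19519284)) p14_18_0 (nat_lit 3) (nat_lit 207) (nat_lit 208) = true := by decide +kernel
def p14_18_0_208 : pfC (piC [(nat_lit 38632330), (nat_lit 24534081), (nat_lit 15702173)] (nat_lit 19519284)) p14_18_0 (nat_lit 3) (nat_lit 208) (nat_lit 209) = true := by decide +kernel
def p14_18_0_209 : pfC (piC [(nat_lit 38632330), (nat_lit 24534081), (nat_lit 15702173)] (nat_lit 19519284)) p14_18_0 (nat_lit 3) (nat_lit 209) (nat_lit 210) = true := by decide +kernel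
def p14_18_0_210 : pfC (piC [(nat_lit 38632330), (nat_lit 24534081), (nat_lit 15702173)] (nat_lit 19519284)) p14_18_0 (nat_lit 3) (nat_lit 210) (nat_lit 211) = true := by decide +kernel
def p14_18_0_211 : pfC (piC [(nat_lit 38632330), (nat_lit 24534081), (nat_lit 15702173)] (nat_lit 19519284)) p14_18_0 (nat_lit 3) (nat_lit 211) (nat_lit 212) = true := by decide +kernel
def p14_18_0_212 : pfC (piC [(nat_lit 38632330), (nat_lit 24534081), (nat_lit 15702173)] (nat_lit 19519284)) p14_18_0 (nat_lit 3) (nat_lit 212) (nat_lit 213) = true := by decide +kernel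
def p14_18_0_213 : pfC (piC [(nat_lit 38632330), (nat_lit 24534081), (nat_lit 15702173)] (nat_lit 19519284)) p14_18_0 (nat_lit 3) (nat_lit 213) (nat_lit 214) = true := by decide +kernel
def p14_18_0_214 : pfC (piC [(nat_lit 38632330), (nat_lit 24534081), (nat_lit 15702173)] (nat_lit 19519284)) p14_18_0 (nat_lit 3) (nat_lit 214) (nat_lit 215) = true := by decide +kernel
def p14_18_0_215 : pfC (piC [(nat_lit 38632330), (nat_lit 24534081), (nat_lit 15702173)] (nat_lit 19519284)) p14_18_0 (nat_lit 3) (nat_lit 215) (nat_lit 216) = true := by decide +kernel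
def p14_18_0_216 : pfC (piC [(nat_lit 38632330), (nat_lit 24534081), (nat_lit 15702173)] (nat_lit 19519284)) p14_18_0 (nat_lit 3) (nat_lit 216) (nat_lit 217) = true := by decide +kernel
def p14_18_0_217 : pfC (piC [(nat_lit 38632330), (nat_lit 24534081), (nat_lit 15702173)] (nat_lit 19519284)) p14_18_0 (nat_lit 3) (nat_lit 217) (nat_lit 218) = true := by decide +kernel
def p14_18_0_218 : pfC (piC [(nat_lit 38632330), (nat_lit 24534081), (nat_lit 15702173)] (nat_lit 19519284)) p14_18_0 (nat_lit 3) (nat_lit 218) (nat_lit 219) = true := by decide +kernel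
def p14_18_0_219 : pfC (piC [(nat_lit 38632330), (nat_lit 24534081), (nat_lit 15702173)] (nat_lit 19519284)) p14_18_0 (nat_lit 3) (nat_lit 219) (nat_lit 220) = true := by decide +kernel
def p14_18_0_220 : pfC (piC [(nat_lit 38632330), (nat_lit 24534081), (nat_lit 15702173)] (nat_lit 19519284)) p14_18_0 (nat_lit 3) (nat_lit 220) (nat_lit 221) = true := by decide +kernel
def p14_18_0_221 : pfC (piC [(nat_lit 38632330), (nat_lit 24534081), (nat_lit 15702173)] (nat_lit 19519284)) p14_18_0 (nat_lit 3) (nat_lit 221) (nat_lit 222) = true := by decide +kernel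
def p14_18_0_222 : pfC (piC [(nat_lit 38632330), (nat_lit 24534081), (nat_lit 15702173)] (nat_lit 19519284)) p14_18_0 (nat_lit 3) (nat_lit 222) (nat_lit 223) = true := by decide +kernel
def p14_18_0_223 : pfC (piC [(nat_lit 38632330), (nat_lit 24534081), (nat_lit 15702173)] (nat_lit 19519284)) p14_18_0 (nat_lit 3) (nat_lit 223) (nat_lit 224) = true := by decide +kernel
def p14_18_0_224 : pfC (piC [(nat_lit 38632330), (nat_lit 24534081), (nat_lit 15702173)] (nat_lit 19519284)) p14_18_0 (nat_lit 3) (nat_lit 224) (nat_lit 225) = true := by decide +kernel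
def p14_18_0_225 : pfC (piC [(nat_lit 38632330), (nat_lit 24534081), (nat_lit 15702173)] (nat_lit 19519284)) p14_18_0 (nat_lit 3) (nat_lit 225) (nat_lit 226) = true := by decide +kernel
def p14_18_0_226 : pfC (piC [(nat_lit 38632330), (nat_lit 24534081), (nat_lit 15702173)] (nat_lit 19519284)) p14_18_0 (nat_lit 3) (nat_lit 226) (nat_lit 227) = true := by decide +kernel
def p14_18_0_227 : pfC (piC [(nat_lit 38632330), (nat_lit 24534081), (nat_lit 15702173)] (nat_lit 19519284)) p14_18_0 (nat_lit 3) (nat_lit 227) (nat_lit 228) = true := by decide +kernel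
def p14_18_0_228 : pfC (piC [(nat_lit 38632330), (nat_lit 24534081), (nat_lit 15702173)] (nat_lit 19519284)) p14_18_0 (nat_lit 3) (nat_lit 228) (nat_lit 229) = true := by decide +kernel
def p14_18_0_229 : pfC (piC [(nat_lit 38632330), (nat_lit 24534081), (nat_lit 15702173)] (nat_lit 19519284)) p14_18_0 (nat_lit 3) (nat_lit 229) (nat_lit 230) = true := by decide +kernel
def p14_18_0_230 : pfC (piC [(nat_lit 38632330), (nat_lit 24534081), (nat_lit 15702173)] (nat_lit 19519284)) p14_18_0 (nat_lit 3) (nat_lit 230) (nat_lit 231) = true := by decide +kernel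
def p14_18_0_231 : pfC (piC [(nat_lit 38632330), (nat_lit 24534081), (nat_lit 15702173)] (nat_lit 19519284)) p14_18_0 (nat_lit 3) (nat_lit 231) (nat_lit 232) = true := by decide +kernel
def p14_18_0_232 : pfC (piC [(nat_lit 38632330), (nat_lit 24534081), (nat_lit 15702173)] (nat_lit 19519284)) p14_18_0 (nat_lit 3) (nat_lit 232) (nat_lit 233) = true := by decide +kernel
def p14_18_0_233 : pfC (piC [(nat_lit 38632330), (nat_lit 24534081), (nat_lit 15702173)] (nat_lit 19519284)) p14_18_0 (nat_lit 3) (nat_lit 233) (nat_lit 234) = true := by decide +kernel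
def p14_18_0_234 : pfC (piC [(nat_lit 38632330), (nat_lit 24534081), (nat_lit 15702173)] (nat_lit 19519284)) p14_18_0 (nat_lit 3) (nat_lit 234) (nat_lit 235) = true := by decide +kernel
def p14_18_0_235 : pfC (piC [(nat_lit 38632330), (nat_lit 24534081), (nat_lit 15702173)] (nat_lit 19519284)) p14_18_0 (nat_lit 3) (nat_lit 235) (nat_lit 236) = true := by decide +kernel
def p14_18_0_236 : pfC (piC [(nat_lit 38632330), (nat_lit 24534081), (nat_lit 15702173)] (nat_lit 19519284)) p14_18_0 (nat_lit 3) (nat_lit 236) (nat_lit 237) = true := by decide +kernel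
def p14_18_0_237 : pfC (piC [(nat_lit 38632330), (nat_lit 24534081), (nat_lit 15702173)] (nat_lit 19519284)) p14_18_0 (nat_lit 3) (nat_lit 237) (nat_lit 238) = true := by decide +kernel
def p14_18_0_238 : pfC (piC [(nat_lit 38632330), (nat_lit 24534081), (nat_lit 15702173)] (nat_lit 19519284)) p14_18_0 (nat_lit 3) (nat_lit 238) (nat_lit 239) = true := by decide +kernel
def p14_18_0_239 : pfC (piC [(nat_lit 38632330), (nat_lit 24534081), (nat_lit 15702173)] (nat_lit 19519284)) p14_18_0 (nat_lit 3) (nat_lit 239) (nat_lit 240) = true := by decide +kernel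
def p14_18_0_240 : pfC (piC [(nat_lit 38632330), (nat_lit 24534081), (nat_lit 15702173)] (nat_lit 19519284)) p14_18_0 (nat_lit 3) (nat_lit 240) (nat_lit 241) = true := by decide +kernel
def p14_18_0_241 : pfC (piC [(nat_lit 38632330), (nat_lit 24534081), (nat_lit 15702173)] (nat_lit 19519284)) p14_18_0 (nat_lit 3) (nat_lit 241) (nat_lit 242) = true := by decide +kernel
def p14_18_0_242 : pfC (piC [(nat_lit 38632330), (nat_lit 24534081), (nat_lit 15702173)] (nat_lit 19519284)) p14_18_0 (nat_lit 3) (nat_lit 242) (nat_lit 243) = true := by decide +kernel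
def p14_18_0_243 : pfC (piC [(nat_lit 38632330), (nat_lit 24534081), (nat_lit 15702173)] (nat_lit 19519284)) p14_18_0 (nat_lit 3) (nat_lit 243) (nat_lit 244) = true := by decide +kernel
def p14_18_0_244 : pfC (piC [(nat_lit 38632330), (nat_lit 24534081), (nat_lit 15702173)] (nat_lit 19519284)) p14_18_0 (nat_lit 3) (nat_lit 244) (nat_lit 245) = true := by decide +kernel
def p14_18_0_245 : pfC (piC [(nat_lit 38632330), (nat_lit 24534081), (nat_lit 15702173)] (nat_lit 19519284)) p14_18_0 (nat_lit 3) (nat_lit 245) (nat_lit 246) = true := by decide +kernel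
def p14_18_0_246 : pfC (piC [(nat_lit 38632330), (nat_lit 24534081), (nat_lit 15702173)] (nat_lit 19519284)) p14_18_0 (nat_lit 3) (nat_lit 246) (nat_lit 247) = true := by decide +kernel
def p14_18_0_247 : pfC (piC [(nat_lit 38632330), (nat_lit 24534081), (nat_lit 15702173)] (nat_lit 19519284)) p14_18_0 (nat_lit 3) (nat_lit 247) (nat_lit 248) = true := by decide +kernel
def p14_18_0_248 : pfC (piC [(nat_lit 38632330), (nat_lit 24534081), (nat_lit 15702173)] (nat_lit 19519284)) p14_18_0 (nat_lit 3) (nat_lit 248) (nat_lit 249) = true := by decide +kernel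
def p14_18_0_249 : pfC (piC [(nat_lit 38632330), (nat_lit 24534081), (nat_lit 15702173)] (nat_lit 19519284)) p14_18_0 (nat_lit 3) (nat_lit 249) (nat_lit 250) = true := by decide +kernel
def p14_18_0_250 : pfC (piC [(nat_lit 38632330), (nat_lit 24534081), (nat_lit 15702173)] (nat_lit 19519284)) p14_18_0 (nat_lit 3) (nat_lit 250) (nat_lit 251) = true := by decide +kernel
def p14_18_0_251 : pfC (piC [(nat_lit 38632330), (nat_lit 24534081), (nat_lit 15702173)] (nat_lit 19519284)) p14_18_0 (nat_lit 3) (nat_lit 251) (nat_lit 252) = true := by decide +kernel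
def p14_18_0_252 : pfC (piC [(nat_lit 38632330), (nat_lit 24534081), (nat_lit 15702173)] (nat_lit 19519284)) p14_18_0 (nat_lit 3) (nat_lit 252) (nat_lit 253) = true := by decide +kernel
def p14_18_0_253 : pfC (piC [(nat_lit 38632330), (nat_lit 24534081), (nat_lit 15702173)] (nat_lit 19519284)) p14_18_0 (nat_lit 3) (nat_lit 253) (nat_lit 254) = true := by decide +kernel
def p14_18_0_254 : pfC (piC [(nat_lit 38632330), (nat_lit 24534081), (nat_lit 15702173)] (nat_lit 19519284)) p14_18_0 (nat_lit 3) (nat_lit 254) (nat_lit 255) = true := by decide +kernel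
def p14_18_0_255 : pfC (piC [(nat_lit 38632330), (nat_lit 24534081), (nat_lit 15702173)] (nat_lit 19519284)) p14_18_0 (nat_lit 3) (nat_lit 255) (nat_lit 256) = true := by decide +kernel
def p14_18_0_256 : pfC (piC [(nat_lit 38632330), (nat_lit 24534081), (nat_lit 15702173)] (nat_lit 19519284)) p14_18_0 (nat_lit 3) (nat_lit 256) (nat_lit 257) = true := by decide +kernel
def p14_18_0_257 : pfC (piC [(nat_lit 38632330), (nat_lit 24534081), (nat_lit 15702173)] (nat_lit 19519284)) p14_18_0 (nat_lit 3) (nat_lit 257) (nat_lit 258) = true := by decide +kernel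
def p14_18_0_258 : pfC (piC [(nat_lit 38632330), (nat_lit 24534081), (nat_lit 15702173)] (nat_lit 19519284)) p14_18_0 (nat_lit 3) (nat_lit 258) (nat_lit 259) = true := by decide +kernel
def p14_18_0_259 : pfC (piC [(nat_lit 38632330), (nat_lit 24534081), (nat_lit 15702173)] (nat_lit 19519284)) p14_18_0 (nat_lit 3) (nat_lit 259) (nat_lit 260) = true := by decide +kernel
theorem p14_18_0_T : PfS (PiF n14_18.reverse (nat_lit 19519284)) p14_18_0 (nat_lit 3) [] 0 :=
  pftab_of (los := [(nat_lit 38632330), (nat_lit 24534081), (nat_lit 15702173)]) (by decide +kernel) (hi := (nat_lit 260)) (PfP.trans (PfP.trans (PfP.trans (PfP.trans (PfP.trans (PfP.trans (PfP.trans (PfP.trans (PfP.trans (PfP.trans (PfP.trans (PfP.trans (PfP.trans (PfP.trans (PfP.trans (PfP.trans (PfP.trans (PfP.trans (PfP.trans (PfP.trans (PfP.trans (PfP.trans (PfP.trans (PfP.trans (PfP.trans (PfP.trans (PfP.trans (PfP.trans (PfP.trans (PfP.trans (PfP.trans (PfP.trans (PfP.trans (PfP.trans (PfP.trans (PfP.trans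 (PfP.trans (PfP.trans (PfP.trans (PfP.trans (PfP.trans (PfP.trans (PfP.trans (PfP.trans (PfP.trans (PfP.trans (PfP.trans (PfP.trans (PfP.trans (PfP.trans (PfP.trans (PfP.trans (PfP.trans (PfP.trans (PfP.trans (PfP.trans (PfP.trans (PfP.trans (PfP.trans (PfP.trans (PfP.trans (PfP.trans (PfP.trans (PfP.trans (PfP.trans (PfP.trans (PfP.trans (PfP.trans (PfP.trans (PfP.trans (PfP.trans (PfP.trans (PfP.trans (PfP.trans (PfP.trans (PfP.trans (PfP.trans (PfP.trans (PfP.trans (PfP.trans (PfP.trans (PfP.trans (PfP.trans (PfP.trans (PfP.trans (PfP.trans (PfP.trans (PfP.trans (PfP.trans (PfP.trans (PfP.trans (PfP.trans (PfP.trans (PfP.trans (PfP.trans (PfP.trans (PfP.trans (PfP.trans (PfP.trans (PfP.trans (PfP.trans (PfP.trans (PfP.trans (PfP.trans (PfP.trans (PfP.trans (PfP.trans (PfP.trans (PfP.trans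
 (PfP.trans (PfP.trans (PfP.trans (PfP.trans (PfP.trans (PfP.trans (PfP.trans (PfP.trans (PfP.trans (PfP.trans (PfP.trans (PfP.trans (PfP.trans (PfP.trans (PfP.trans (PfP.trans (PfP.trans (PfP.trans (PfP.trans (PfP.trans (PfP.trans (PfP.trans (PfP.trans (PfP.trans (PfP.trans (PfP.trans (PfP.trans (PfP.trans (PfP.trans (PfP.trans (PfP.trans (PfP.trans (PfP.trans (PfP.trans (PfP.trans (PfP.trans (PfP.trans (PfP.trans (PfP.trans (PfP.trans (PfP.trans (PfP.trans (PfP.trans (PfP.trans (PfP.trans (PfP.trans (PfP.trans (PfP.trans (PfP.trans (PfP.trans (PfP.trans (PfP.trans (PfP.trans (PfP.trans (PfP.trans (PfP.trans (PfP.trans (PfP.trans (PfP.trans (PfP.trans (PfP.trans (PfP.trans (PfP.trans (PfP.trans (PfP.trans (PfP.trans (PfP.trans (PfP.trans (PfP.trans (PfP.trans (PfP.trans (PfP.trans (PfP.trans (PfP.trans (PfP.trans (PfP.trans (PfP.trans (PfP.trans (PfP.trans (PfP.trans (PfP.trans (PfP.trans (PfP.trans (PfP.trans (PfP.trans (PfP.trans (PfP.trans (PfP.trans (PfP.trans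 (PfP.trans (PfP.trans (PfP.trans (PfP.trans (PfP.trans (PfP.trans (PfP.trans (PfP.trans (PfP.trans (PfP.trans (PfP.trans (PfP.trans (PfP.trans (PfP.trans (PfP.trans (PfP.trans (PfP.trans (PfP.trans (PfP.trans (PfP.trans
 (PfP.trans (PfP.trans (PfP.trans (PfP.trans (PfP.trans (PfP.trans (PfP.trans (PfP.trans (PfP.trans (PfP.trans (PfP.trans (PfP.trans (PfP.trans (PfP.trans (PfP.trans (PfP.trans (PfP.trans (PfP.trans (PfP.trans (PfP.trans (PfP.trans (PfP.trans (PfP.trans (PfP.trans (PfP.trans (PfP.trans (PfP.trans (PfP.trans (PfP.trans (PfP.trans (PfP.trans (PfP.trans (PfP.trans (PfP.trans (PfP.trans (PfP.trans (PfP.trans (PfP.trans (PfP.trans (PfP.trans (PfP.trans (pfC_sound p14_18_0_0) (pfC_sound p14_18_0_1)) (pfC_sound p14_18_0_2)) (pfC_sound p14_18_0_3)) (pfC_sound p14_18_0_4)) (pfC_sound p14_18_0_5)) (pfC_sound p14_18_0_6)) (pfC_sound p14_18_0_7)) (pfC_sound p14_18_0_8)) (pfC_sound p14_18_0_9)) (pfC_sound p14_18_0_10)) (pfC_sound p14_18_0_11)) (pfC_sound p14_18_0_12))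 (pfC_sound p14_18_0_13)) (pfC_sound p14_18_0_14)) (pfC_sound p14_18_0_15)) (pfC_sound p14_18_0_16)) (pfC_sound p14_18_0_17)) (pfC_sound p14_18_0_18)) (pfC_sound p14_18_0_19)) (pfC_sound p14_18_0_20)) (pfC_sound p14_18_0_21)) (pfC_sound p14_18_0_22)) (pfC_sound p14_18_0_23)) (pfC_sound p14_18_0_24)) (pfC_sound p14_18_0_25)) (pfC_sound p14_18_0_26)) (pfC_sound p14_18_0_27)) (pfC_sound p14_18_0_28)) (pfC_sound p14_18_0_29))
 (pfC_sound p14_18_0_30)) (pfC_sound p14_18_0_31)) (pfC_sound p14_18_0_32)) (pfC_sound p14_18_0_33)) (pfC_sound p14_18_0_34)) (pfC_sound p14_18_0_35)) (pfC_sound p14_18_0_36)) (pfC_sound p14_18_0_37)) (pfC_sound p14_18_0_38)) (pfC_sound p14_18_0_39)) (pfC_sound p14_18_0_40)) (pfC_sound p14_18_0_41)) (pfC_sound p14_18_0_42)) (pfC_sound p14_18_0_43)) (pfC_sound p14_18_0_44)) (pfC_sound p14_18_0_45)) (pfC_sound p14_18_0_46)) (pfC_sound p14_18_0_47)) (pfC_sound p14_18_0_48)) (pfC_sound p14_18_0_49)) (pfC_sound p14_18_0_50)) (pfC_sound p14_18_0_51)) (pfC_sound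 p14_18_0_52)) (pfC_sound p14_18_0_53)) (pfC_sound p14_18_0_54)) (pfC_sound p14_18_0_55)) (pfC_sound p14_18_0_56)) (pfC_sound p14_18_0_57)) (pfC_sound p14_18_0_58)) (pfC_sound p14_18_0_59)) (pfC_sound p14_18_0_60)) (pfC_sound p14_18_0_61)) (pfC_sound p14_18_0_62)) (pfC_sound p14_18_0_63)) (pfC_sound p14_18_0_64)) (pfC_sound p14_18_0_65)) (pfC_sound p14_18_0_66)) (pfC_sound p14_18_0_67)) (pfC_sound p14_18_0_68)) (pfC_sound p14_18_0_69)) (pfC_sound p14_18_0_70)) (pfC_sound p14_18_0_71)) (pfC_sound p14_18_0_72)) (pfC_sound p14_18_0_73)) (pfC_sound p14_18_0_74)) (pfC_sound p14_18_0_75)) (pfC_sound p14_18_0_76)) (pfC_sound p14_18_0_77))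
 (pfC_sound p14_18_0_78)) (pfC_sound p14_18_0_79)) (pfC_sound p14_18_0_80)) (pfC_sound p14_18_0_81)) (pfC_sound p14_18_0_82)) (pfC_sound p14_18_0_83)) (pfC_sound p14_18_0_84)) (pfC_sound p14_18_0_85)) (pfC_sound p14_18_0_86)) (pfC_sound p14_18_0_87)) (pfC_sound p14_18_0_88)) (pfC_sound p14_18_0_89)) (pfC_sound p14_18_0_90)) (pfC_sound p14_18_0_91)) (pfC_sound p14_18_0_92)) (pfC_sound p14_18_0_93)) (pfC_sound p14_18_0_94)) (pfC_sound p14_18_0_95)) (pfC_sound p14_18_0_96)) (pfC_sound p14_18_0_97)) (pfC_sound p14_18_0_98)) (pfC_sound p14_18_0_99)) (pfC_sound p14_18_0_100)) (pfC_sound p14_18_0_101)) (pfC_sound p14_18_0_102)) (pfC_sound p14_18_0_103)) (pfC_sound p14_18_0_104)) (pfC_sound p14_18_0_105)) (pfC_sound p14_18_0_106)) (pfC_sound p14_18_0_107)) (pfC_sound p14_18_0_108)) (pfC_sound p14_18_0_109)) (pfC_sound p14_18_0_110)) (pfC_sound p14_18_0_111)) (pfC_sound p14_18_0_112)) (pfC_sound p14_18_0_113)) (pfC_sound p14_18_0_114)) (pfC_sound p14_18_0_115)) (pfC_sound p14_18_0_116))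 (pfC_sound p14_18_0_117)) (pfC_sound p14_18_0_118)) (pfC_sound p14_18_0_119)) (pfC_sound p14_18_0_120)) (pfC_sound p14_18_0_121)) (pfC_sound p14_18_0_122)) (pfC_sound p14_18_0_123)) (pfC_sound p14_18_0_124))
 (pfC_sound p14_18_0_125)) (pfC_sound p14_18_0_126)) (pfC_sound p14_18_0_127)) (pfC_sound p14_18_0_128)) (pfC_sound p14_18_0_129)) (pfC_sound p14_18_0_130)) (pfC_sound p14_18_0_131)) (pfC_sound p14_18_0_132)) (pfC_sound p14_18_0_133)) (pfC_sound p14_18_0_134)) (pfC_sound p14_18_0_135)) (pfC_sound p14_18_0_136)) (pfC_sound p14_18_0_137)) (pfC_sound p14_18_0_138)) (pfC_sound p14_18_0_139)) (pfC_sound p14_18_0_140)) (pfC_sound p14_18_0_141)) (pfC_sound p14_18_0_142)) (pfC_sound p14_18_0_143)) (pfC_sound p14_18_0_144)) (pfC_sound p14_18_0_145)) (pfC_sound p14_18_0_146)) (pfC_sound p14_18_0_147)) (pfC_sound p14_18_0_148)) (pfC_sound p14_18_0_149)) (pfC_sound p14_18_0_150)) (pfC_sound p14_18_0_151)) (pfC_sound p14_18_0_152)) (pfC_sound p14_18_0_153)) (pfC_sound p14_18_0_154))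 (pfC_sound p14_18_0_155)) (pfC_sound p14_18_0_156)) (pfC_sound p14_18_0_157)) (pfC_sound p14_18_0_158)) (pfC_sound p14_18_0_159)) (pfC_sound p14_18_0_160)) (pfC_sound p14_18_0_161)) (pfC_sound p14_18_0_162)) (pfC_sound p14_18_0_163)) (pfC_sound p14_18_0_164)) (pfC_sound p14_18_0_165)) (pfC_sound p14_18_0_166)) (pfC_sound p14_18_0_167)) (pfC_sound p14_18_0_168)) (pfC_sound p14_18_0_169)) (pfC_sound p14_18_0_170))
 (pfC_sound p14_18_0_171)) (pfC_sound p14_18_0_172)) (pfC_sound p14_18_0_173)) (pfC_sound p14_18_0_174)) (pfC_sound p14_18_0_175)) (pfC_sound p14_18_0_176)) (pfC_sound p14_18_0_177)) (pfC_sound p14_18_0_178)) (pfC_sound p14_18_0_179)) (pfC_sound p14_18_0_180)) (pfC_sound p14_18_0_181)) (pfC_sound p14_18_0_182)) (pfC_sound p14_18_0_183)) (pfC_sound p14_18_0_184)) (pfC_sound p14_18_0_185)) (pfC_sound p14_18_0_186)) (pfC_sound p14_18_0_187)) (pfC_sound p14_18_0_188)) (pfC_sound p14_18_0_189)) (pfC_sound p14_18_0_190)) (pfC_sound p14_18_0_191)) (pfC_sound p14_18_0_192))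 (pfC_sound p14_18_0_193)) (pfC_sound p14_18_0_194)) (pfC_sound p14_18_0_195)) (pfC_sound p14_18_0_196)) (pfC_sound p14_18_0_197)) (pfC_sound p14_18_0_198)) (pfC_sound p14_18_0_199)) (pfC_sound p14_18_0_200)) (pfC_sound p14_18_0_201)) (pfC_sound p14_18_0_202)) (pfC_sound p14_18_0_203)) (pfC_sound p14_18_0_204)) (pfC_sound p14_18_0_205)) (pfC_sound p14_18_0_206)) (pfC_sound p14_18_0_207)) (pfC_sound p14_18_0_208)) (pfC_sound p14_18_0_209)) (pfC_sound p14_18_0_210)) (pfC_sound p14_18_0_211)) (pfC_sound p14_18_0_212)) (pfC_sound p14_18_0_213)) (pfC_sound p14_18_0_214)) (pfC_sound p14_18_0_215)) (pfC_sound p14_18_0_216))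
 (pfC_sound p14_18_0_217)) (pfC_sound p14_18_0_218)) (pfC_sound p14_18_0_219)) (pfC_sound p14_18_0_220)) (pfC_sound p14_18_0_221)) (pfC_sound p14_18_0_222)) (pfC_sound p14_18_0_223)) (pfC_sound p14_18_0_224)) (pfC_sound p14_18_0_225)) (pfC_sound p14_18_0_226)) (pfC_sound p14_18_0_227)) (pfC_sound p14_18_0_228)) (pfC_sound p14_18_0_229)) (pfC_sound p14_18_0_230)) (pfC_sound p14_18_0_231)) (pfC_sound p14_18_0_232)) (pfC_sound p14_18_0_233)) (pfC_sound p14_18_0_234)) (pfC_sound p14_18_0_235)) (pfC_sound p14_18_0_236)) (pfC_sound p14_18_0_237)) (pfC_sound p14_18_0_238)) (pfC_sound p14_18_0_239)) (pfC_sound p14_18_0_240)) (pfC_sound p14_18_0_241)) (pfC_sound p14_18_0_242)) (pfC_sound p14_18_0_243)) (pfC_sound p14_18_0_244)) (pfC_sound p14_18_0_245)) (pfC_sound p14_18_0_246)) (pfC_sound p14_18_0_247)) (pfC_sound p14_18_0_248)) (pfC_sound p14_18_0_249)) (pfC_sound p14_18_0_250)) (pfC_sound p14_18_0_251)) (pfC_sound p14_18_0_252)) (pfC_sound p14_18_0_253)) (pfC_sound p14_18_0_254))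 (pfC_sound p14_18_0_255)) (pfC_sound p14_18_0_256)) (pfC_sound p14_18_0_257)) (pfC_sound p14_18_0_258)) (pfC_sound p14_18_0_259)) (by decide +kernel)

def z14_18_0 : zOK yB14_18 (nat_lit 0) (nat_lit 0) (nat_lit 400) (nat_lit 19519284) (nat_lit 11116977) = true := by decide +kernel
def g14_18_0 : gOK yB14_18.x P14_18 (nat_lit 1390) (q14_18 :: r14_18) (nat_lit 0) (nat_lit 0) (nat_lit 1) (nat_lit 400) (nat_lit 0) (nat_lit 11000000) (nat_lit 12712500) (nat_lit 12712500) [(nat_lit 800), (nat_lit 1600)] = true := by decide +kernel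
def v14_18_0 : ivC P14_18 s14_18 w14_18 n14_18 (nat_lit 3) (nat_lit 5300) (nat_lit 0) (nat_lit 0) f176_0_0 f184_0_0 (nat_lit 1) (nat_lit 400) f176_0_400 f184_0_400 (nat_lit 19519284) (nat_lit 11116977) p14_18_0 = true := by decide +kernel
def p14_18_1 : PF := (PF.cons (PF.cons (PF.cons (PF.leaf (nat_lit 2016386) (nat_lit 9333040) (nat_lit 57775772) (nat_lit 9333040) [(nat_lit 0), (nat_lit 0), (nat_lit 0)]) (PF.cons (PF.leaf (nat_lit 2196266) (nat_lit 310398) (nat_lit 57435721) (nat_lit 9362692) [(nat_lit 310398), (nat_lit 0), (nat_lit 0)]) (PF.cons (PF.leaf (nat_lit 2409263) (nat_lit 338105) (nat_lit 57037926) (nat_lit 9394676) [(nat_lit 338105), (nat_lit 0), (nat_lit 0)]) (PF.cons (PF.leaf (nat_lit 2648825) (nat_lit 362836) (nat_lit 56593124) (nat_lit 9427177) [(nat_lit 362836), (nat_lit 0), (nat_lit 0)]) (PF.cons (PF.leaf (nat_lit 2911268) (nat_lit 385243) (nat_lit 56108996) (nat_lit 9458842) [(nat_lit 385243), (nat_lit 0), (nat_lit 0)]) (PF.cons (PF.leaf (nat_lit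 3193699) (nat_lit 405731) (nat_lit 55591527) (nat_lit 9488628) [(nat_lit 405731), (nat_lit 0), (nat_lit 0)]) (PF.cons (PF.leaf (nat_lit 3493723) (nat_lit 424573) (nat_lit 55045642) (nat_lit 9515730) [(nat_lit 424573), (nat_lit 0), (nat_lit 0)]) (PF.cons (PF.leaf (nat_lit 3809298) (nat_lit 441962) (nat_lit 54475543) (nat_lit 9539532) [(nat_lit 441962), (nat_lit 0), (nat_lit 0)]) (PF.cons (PF.leaf (nat_lit 4138617) (nat_lit 458043) (nat_lit 53884897) (nat_lit 9559570)
 [(nat_lit 458043), (nat_lit 0), (nat_lit 0)]) (PF.cons (PF.leaf (nat_lit 4480040) (nat_lit 472927) (nat_lit 53276958) (nat_lit 9575510) [(nat_lit 472927), (nat_lit 0), (nat_lit 0)]) (PF.cons (PF.leaf (nat_lit 4832061) (nat_lit 486704) (nat_lit 52654643) (nat_lit 9587125) [(nat_lit 486704), (nat_lit 0), (nat_lit 0)]) (PF.cons (PF.leaf (nat_lit 5193274) (nat_lit 499449) (nat_lit 52020585) (nat_lit 9594278) [(nat_lit 499449), (nat_lit 0), (nat_lit 0)]) (PF.cons (PF.leaf (nat_lit 5562514) (nat_lit 511228)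 (nat_lit 51377170) (nat_lit 9596905) [(nat_lit 511228), (nat_lit 0), (nat_lit 0)]) (PF.cons (PF.leaf (nat_lit 5938502) (nat_lit 522095) (nat_lit 50726564) (nat_lit 9595004) [(nat_lit 522095), (nat_lit 0), (nat_lit 0)]) (PF.cons PF.nil (PF.cons PF.nil (PF.cons PF.nil (PF.cons PF.nil PF.nil)))))))))))))))))) (PF.cons (PF.cons (PF.leaf (nat_lit 2734185) (nat_lit 1759669) (nat_lit 55890525) (nat_lit 9458617) [(nat_lit 0), (nat_lit 1759669), (nat_lit 0)]) (PF.cons (PF.leaf (nat_lit 2970456) (nat_lit 382149) (nat_lit 55445326) (nat_lit 9483105) [(nat_lit 382149), (nat_lit 1798231), (nat_lit 0)]) (PF.cons (PF.leaf (nat_lit 3231445) (nat_lit 403331) (nat_lit 54959333) (nat_lit 9506534)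
 [(nat_lit 403331), (nat_lit 1836282), (nat_lit 0)]) (PF.cons (PF.leaf (nat_lit 3512728) (nat_lit 422560) (nat_lit 54440117) (nat_lit 9527920) [(nat_lit 422560), (nat_lit 1873093), (nat_lit 0)]) (PF.cons (PF.leaf (nat_lit 3811518) (nat_lit 440156) (nat_lit 53893401) (nat_lit 9546544) [(nat_lit 440156), (nat_lit 1908240), (nat_lit 0)]) (PF.cons (PF.leaf (nat_lit 4125536) (nat_lit 456332) (nat_lit 53323790) (nat_lit 9561877) [(nat_lit 456332), (nat_lit 1941482), (nat_lit 0)]) (PF.cons (PF.leaf (nat_lit 4452839) (nat_lit 471241) (nat_lit 52735147) (nat_lit 9573537) [(nat_lit 471241), (nat_lit 1972681), (nat_lit 0)]) (PF.cons (PF.leaf (nat_lit 4791713) (nat_lit 484998) (nat_lit 52130794) (nat_lit 9581261) [(nat_lit 484998), (nat_lit 2001768), (nat_lit 0)]) (PF.cons (PF.leaf (nat_lit 5140643) (nat_lit 497695) (nat_lit 51513644) (nat_lit 9584882) [(nat_lit 497695), (nat_lit 2028719), (nat_lit 0)]) (PF.cons (PF.leaf (nat_lit 5498274) (nat_lit 509408) (nat_lit 50886280) (nat_lit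 9584310) [(nat_lit 509408), (nat_lit 2053542), (nat_lit 0)]) (PF.cons (PF.leaf (nat_lit 5863347) (nat_lit 520201) (nat_lit 50251009) (nat_lit 9579521) [(nat_lit 520201), (nat_lit 2076266), (nat_lit 0)]) (PF.cons
 (PF.leaf (nat_lit 6234702) (nat_lit 530130) (nat_lit 49609900) (nat_lit 9570543) [(nat_lit 530130), (nat_lit 2096937), (nat_lit 0)]) (PF.cons PF.nil (PF.cons PF.nil (PF.cons PF.nil (PF.cons PF.nil PF.nil)))))))))))))))) (PF.cons (PF.cons (PF.leaf (nat_lit 3553517) (nat_lit 1890974) (nat_lit 53789724) (nat_lit 9537140) [(nat_lit 0), (nat_lit 1890974), (nat_lit 0)]) (PF.cons (PF.leaf (nat_lit 3830434) (nat_lit 436582) (nat_lit 53276569) (nat_lit 9550628) [(nat_lit 436582), (nat_lit 1922516), (nat_lit 0)]) (PF.cons (PF.leaf (nat_lit 4125937) (nat_lit 453240) (nat_lit 52735311) (nat_lit 9561378) [(nat_lit 453240), (nat_lit 1952821), (nat_lit 0)]) (PF.cons (PF.leaf (nat_lit 4436776) (nat_lit 468444) (nat_lit 52171424) (nat_lit 9568919) [(nat_lit 468444), (nat_lit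 1981567), (nat_lit 0)]) (PF.cons (PF.leaf (nat_lit 4760748) (nat_lit 482379) (nat_lit 51589226) (nat_lit 9572931) [(nat_lit 482379), (nat_lit 2008567), (nat_lit 0)]) (PF.cons (PF.leaf (nat_lit 5096051) (nat_lit 495178) (nat_lit 50992273) (nat_lit 9573205) [(nat_lit 495178), (nat_lit 2033721), (nat_lit 0)]) (PF.cons (PF.leaf (nat_lit 5441039) (nat_lit 506941) (nat_lit 50383586) (nat_lit 9569616) [(nat_lit 506941), (nat_lit
 2056979), (nat_lit 0)]) (PF.cons (PF.leaf (nat_lit 5794361) (nat_lit 517751) (nat_lit 49765772) (nat_lit 9562115) [(nat_lit 517751), (nat_lit 2078331), (nat_lit 0)]) (PF.cons (PF.leaf (nat_lit 6154722) (nat_lit 527675) (nat_lit 49141118) (nat_lit 9550704) [(nat_lit 527675), (nat_lit 2097792), (nat_lit 0)]) (PF.cons (PF.leaf (nat_lit 6520993) (nat_lit 536771) (nat_lit 48511641) (nat_lit 9535433) [(nat_lit 536771), (nat_lit 2115396), (nat_lit 0)]) (PF.cons (PF.leaf (nat_lit 6892144) (nat_lit 545091) (nat_lit 47879133) (nat_lit 9516387) [(nat_lit 545091),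 (nat_lit 2131188), (nat_lit 0)]) (PF.cons PF.nil (PF.cons PF.nil (PF.cons PF.nil PF.nil)))))))))))))) (PF.cons (PF.cons (PF.leaf (nat_lit 4438262) (nat_lit 1990610) (nat_lit 51575576) (nat_lit 9561405) [(nat_lit 0), (nat_lit 1990610), (nat_lit 0)]) (PF.cons (PF.leaf (nat_lit 4743703) (nat_lit 478487) (nat_lit 51022461) (nat_lit 9561910) [(nat_lit 478487), (nat_lit 2015317), (nat_lit 0)]) (PF.cons (PF.leaf (nat_lit 5062989) (nat_lit 491637) (nat_lit 50450839) (nat_lit 9559047) [(nat_lit 491637), (nat_lit 2038550), (nat_lit 0)]) (PF.cons (PF.leaf (nat_lit 5393601) (nat_lit 503634) (nat_lit 49864741) (nat_lit 9552650) [(nat_lit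
 503634), (nat_lit 2060172), (nat_lit 0)]) (PF.cons (PF.leaf (nat_lit 5733793) (nat_lit 514599) (nat_lit 49267437) (nat_lit 9542634) [(nat_lit 514599), (nat_lit 2080114), (nat_lit 0)]) (PF.cons (PF.leaf (nat_lit 6082098) (nat_lit 524625) (nat_lit 48661660) (nat_lit 9528978) [(nat_lit 524625), (nat_lit 2098348), (nat_lit 0)]) (PF.cons (PF.leaf (nat_lit 6437203) (nat_lit 533787) (nat_lit 48049742) (nat_lit 9511707) [(nat_lit 533787), (nat_lit 2114878), (nat_lit 0)]) (PF.cons (PF.leaf (nat_lit 6797959) (nat_lit 542149) (nat_lit 47433700) (nat_lit 9490888) [(nat_lit 542149), (nat_lit 2129726), (nat_lit 0)]) (PF.cons (PF.leaf (nat_lit 7163330) (nat_lit 549763) (nat_lit 46815296) (nat_lit 9466616) [(nat_lit 549763), (nat_lit 2142930), (nat_lit 0)]) (PF.cons PF.nil (PF.cons PF.nil (PF.cons PF.nil PF.nil)))))))))))) (PF.cons (PF.cons (PF.leaf (nat_lit 5360639) (nat_lit 2063275) (nat_lit 49322612) (nat_lit 9533098) [(nat_lit 0), (nat_lit 2063275), (nat_lit 0)]) (PF.cons (PF.leaf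 (nat_lit 5685025) (nat_lit 510496) (nat_lit 48750640) (nat_lit 9520818) [(nat_lit 510496), (nat_lit 2081714), (nat_lit 0)]) (PF.cons (PF.leaf (nat_lit 6019505) (nat_lit 520795) (nat_lit 48167396) (nat_lit 9505144)
 [(nat_lit 520795), (nat_lit 2098670), (nat_lit 0)]) (PF.cons (PF.leaf (nat_lit 6362086) (nat_lit 530152) (nat_lit 47575873) (nat_lit 9486082) [(nat_lit 530152), (nat_lit 2114099), (nat_lit 0)]) (PF.cons (PF.leaf (nat_lit 6711388) (nat_lit 538655) (nat_lit 46978538) (nat_lit 9463679) [(nat_lit 538655), (nat_lit 2127992), (nat_lit 0)]) (PF.cons (PF.leaf (nat_lit 7066210) (nat_lit 546374) (nat_lit 46377468) (nat_lit 9438015) [(nat_lit 546374), (nat_lit 2140363), (nat_lit 0)]) (PF.cons (PF.leaf (nat_lit 7425503) (nat_lit 553368) (nat_lit 45774441) (nat_lit 9409194) [(nat_lit 553368), (nat_lit 2151241), (nat_lit 0)]) (PF.cons PF.nil (PF.cons PF.nil (PF.cons PF.nil PF.nil)))))))))) (PF.cons (PF.cons (PF.leaf (nat_lit 6299214) (nat_lit 2113123) (nat_lit 47084945)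 (nat_lit 9458250) [(nat_lit 0), (nat_lit 2113123), (nat_lit 0)]) (PF.cons (PF.leaf (nat_lit 6635001) (nat_lit 534435) (nat_lit 46509732) (nat_lit 9434507) [(nat_lit 534435), (nat_lit 2126027), (nat_lit 0)]) (PF.cons (PF.leaf (nat_lit 6977924) (nat_lit 542379) (nat_lit 45928637) (nat_lit 9407665) [(nat_lit 542379), (nat_lit 2137550), (nat_lit 0)]) (PF.cons (PF.leaf (nat_lit 7326381) (nat_lit 549544) (nat_lit 45343880) (nat_lit
 9377818) [(nat_lit 549544), (nat_lit 2147695), (nat_lit 0)]) (PF.cons (PF.leaf (nat_lit 7679264) (nat_lit 555997) (nat_lit 44757309) (nat_lit 9345078) [(nat_lit 555997), (nat_lit 2156486), (nat_lit 0)]) (PF.cons (PF.leaf (nat_lit 8035631) (nat_lit 561793) (nat_lit 44170483) (nat_lit 9309575) [(nat_lit 561793), (nat_lit 2163956), (nat_lit 0)]) (PF.cons PF.nil (PF.cons PF.nil PF.nil)))))))) (PF.cons (PF.cons (PF.leaf (nat_lit 7237799) (nat_lit 2143919) (nat_lit 44900695) (nat_lit 9344601) [(nat_lit 0), (nat_lit 2143919), (nat_lit 0)]) (PF.cons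 (PF.leaf (nat_lit 7579135) (nat_lit 551741) (nat_lit 44333462) (nat_lit 9311195) [(nat_lit 551741), (nat_lit 2152068), (nat_lit 0)]) (PF.cons (PF.leaf (nat_lit 7925294) (nat_lit 557732) (nat_lit 43764288) (nat_lit 9275128) [(nat_lit 557732), (nat_lit 2158988), (nat_lit 0)]) (PF.cons (PF.leaf (nat_lit 8274960) (nat_lit 563075) (nat_lit 43194811) (nat_lit 9236532) [(nat_lit 563075), (nat_lit 2164706), (nat_lit 0)]) (PF.cons PF.nil (PF.cons PF.nil PF.nil)))))) (PF.cons (PF.cons (PF.leaf (nat_lit 8164525) (nat_lit 2159036) (nat_lit 42795451) (nat_lit 9200105) [(nat_lit 0), (nat_lit 2159036), (nat_lit 0)]) (PF.cons (PF.leaf (nat_lit 8506963)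
 (nat_lit 563600) (nat_lit 42243951) (nat_lit 9158935) [(nat_lit 563600), (nat_lit 2163189), (nat_lit 0)]) (PF.cons PF.nil (PF.cons PF.nil PF.nil)))) (PF.cons (PF.cons (PF.leaf (nat_lit 9071013) (nat_lit 2161434) (nat_lit 40785187) (nat_lit 9032146) [(nat_lit 0), (nat_lit 2161434), (nat_lit 0)]) (PF.cons PF.nil PF.nil)) (PF.cons PF.nil (PF.cons PF.nil PF.nil))))))))))) (PF.cons (PF.cons (PF.cons (PF.leaf (nat_lit 3787210) (nat_lit 6497842) (nat_lit 51157165) (nat_lit 9453805) [(nat_lit 0), (nat_lit 0), (nat_lit 6497842)]) (PF.cons (PF.leaf (nat_lit 4032212) (nat_lit 416400) (nat_lit 50721382) (nat_lit 9456137) [(nat_lit 416400), (nat_lit 0), (nat_lit 6514893)]) (PF.cons (PF.leaf (nat_lit 4299768) (nat_lit 435610) (nat_lit 50250416) (nat_lit 9456257) [(nat_lit 435610), (nat_lit 0), (nat_lit 6530918)]) (PF.cons (PF.leaf (nat_lit 4585235) (nat_lit 452586) (nat_lit 49751996) (nat_lit 9453759) [(nat_lit 452586), (nat_lit 0), (nat_lit 6545297)]) (PF.cons (PF.leaf (nat_lit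 4885681) (nat_lit 467759) (nat_lit 49231800) (nat_lit 9448364) [(nat_lit 467759), (nat_lit 0), (nat_lit 6557608)]) (PF.cons (PF.leaf (nat_lit 5198785) (nat_lit 481420) (nat_lit 48694256) (nat_lit 9439889) [(nat_lit
 481420), (nat_lit 0), (nat_lit 6567564)]) (PF.cons (PF.leaf (nat_lit 5522667) (nat_lit 493776) (nat_lit 48142951) (nat_lit 9428223) [(nat_lit 493776), (nat_lit 0), (nat_lit 6574977)]) (PF.cons (PF.leaf (nat_lit 5855690) (nat_lit 504982) (nat_lit 47580880) (nat_lit 9413316) [(nat_lit 504982), (nat_lit 0), (nat_lit 6579734)]) (PF.cons (PF.leaf (nat_lit 6196465) (nat_lit 515160) (nat_lit 47010586) (nat_lit 9395166) [(nat_lit 515160), (nat_lit 0), (nat_lit 6581779)]) (PF.cons (PF.leaf (nat_lit 6543780) (nat_lit 524405) (nat_lit 46434258) (nat_lit 9373807) [(nat_lit 524405), (nat_lit 0), (nat_lit 6581100)]) (PF.cons (PF.leaf (nat_lit 6896527) (nat_lit 532798) (nat_lit 45853802) (nat_lit 9349308) [(nat_lit 532798), (nat_lit 0), (nat_lit 6577720)]) (PF.cons (PF.leaf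 (nat_lit 7253719) (nat_lit 540407) (nat_lit 45270885) (nat_lit 9321758) [(nat_lit 540407), (nat_lit 0), (nat_lit 6571690)]) (PF.cons PF.nil (PF.cons PF.nil PF.nil)))))))))))))) (PF.cons (PF.cons (PF.leaf (nat_lit 4601018) (nat_lit 1971735) (nat_lit 49154338) (nat_lit 9436487) [(nat_lit 0), (nat_lit 1971735), (nat_lit 6546251)]) (PF.cons (PF.leaf (nat_lit 4879444) (nat_lit 461380) (nat_lit 48669045) (nat_lit 9428782) [(nat_lit
 461380), (nat_lit 1994217), (nat_lit 6555386)]) (PF.cons (PF.leaf (nat_lit 5174183) (nat_lit 475869) (nat_lit 48160872) (nat_lit 9418217) [(nat_lit 475869), (nat_lit 2015400), (nat_lit 6562583)]) (PF.cons (PF.leaf (nat_lit 5481996) (nat_lit 488808) (nat_lit 47635042) (nat_lit 9404666) [(nat_lit 488808), (nat_lit 2035099), (nat_lit 6567578)]) (PF.cons (PF.leaf (nat_lit 5800732) (nat_lit 500437) (nat_lit 47095567) (nat_lit 9388066) [(nat_lit 500437), (nat_lit 2053224), (nat_lit 6570205)]) (PF.cons (PF.leaf (nat_lit 6128619) (nat_lit 510926) (nat_lit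 46545663) (nat_lit 9368404) [(nat_lit 510926), (nat_lit 2069742), (nat_lit 6570369)]) (PF.cons (PF.leaf (nat_lit 6464175) (nat_lit 520407) (nat_lit 45987980) (nat_lit 9345704) [(nat_lit 520407), (nat_lit 2084657), (nat_lit 6568028)]) (PF.cons (PF.leaf (nat_lit 6806122) (nat_lit 528980) (nat_lit 45424751) (nat_lit 9320021) [(nat_lit 528980), (nat_lit 2097993), (nat_lit 6563181)]) (PF.cons (PF.leaf (nat_lit 7153350) (nat_lit 536730) (nat_lit 44857883) (nat_lit 9291438) [(nat_lit 536730), (nat_lit 2109790), (nat_lit 6555857)]) (PF.cons (PF.leaf (nat_lit 7504869) (nat_lit 543726) (nat_lit 44289017) (nat_lit 9260053) [(nat_lit 543726),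
 (nat_lit 2120096), (nat_lit 6546110)]) (PF.cons PF.nil (PF.cons PF.nil PF.nil)))))))))))) (PF.cons (PF.cons (PF.leaf (nat_lit 5460024) (nat_lit 2036432) (nat_lit 47098983) (nat_lit 9378257) [(nat_lit 0), (nat_lit 2036432), (nat_lit 6558706)]) (PF.cons (PF.leaf (nat_lit 5760752) (nat_lit 494601) (nat_lit 46588318) (nat_lit 9360312) [(nat_lit 494601), (nat_lit 2053137), (nat_lit 6559304)]) (PF.cons (PF.leaf (nat_lit 6073301) (nat_lit 505670) (nat_lit 46063362) (nat_lit 9339431) [(nat_lit 505670), (nat_lit 2068492), (nat_lit 6557693)]) (PF.cons (PF.leaf (nat_lit 6395260) (nat_lit 515579) (nat_lit 45527770) (nat_lit 9315641) [(nat_lit 515579), (nat_lit 2082434), (nat_lit 6553795)]) (PF.cons (PF.leaf (nat_lit 6725001) (nat_lit 524477) (nat_lit 44984433) (nat_lit 9288995) [(nat_lit 524477), (nat_lit 2094945), (nat_lit 6547581)]) (PF.cons (PF.leaf (nat_lit 7061125) (nat_lit 532479) (nat_lit 44435711) (nat_lit 9259569) [(nat_lit 532479), (nat_lit 2106037), (nat_lit 6539059)])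 (PF.cons (PF.leaf (nat_lit 7402499) (nat_lit 539673) (nat_lit 43883571) (nat_lit 9227458) [(nat_lit 539673), (nat_lit 2115737), (nat_lit 6528265)]) (PF.cons (PF.leaf (nat_lit 7748096) (nat_lit 546134) (nat_lit
 43329675) (nat_lit 9192772) [(nat_lit 546134), (nat_lit 2124084), (nat_lit 6515255)]) (PF.cons PF.nil (PF.cons PF.nil PF.nil)))))))))) (PF.cons (PF.cons (PF.leaf (nat_lit 6341608) (nat_lit 2080082) (nat_lit 45047191) (nat_lit 9283162) [(nat_lit 0), (nat_lit 2080082), (nat_lit 6538211)]) (PF.cons (PF.leaf (nat_lit 6656400) (nat_lit 519027) (nat_lit 44528016) (nat_lit 9255865) [(nat_lit 519027), (nat_lit 2091713), (nat_lit 6530762)]) (PF.cons (PF.leaf (nat_lit 6979647) (nat_lit 527459) (nat_lit 44000656) (nat_lit 9225859) [(nat_lit 527459), (nat_lit 2102072), (nat_lit 6521162)]) (PF.cons (PF.leaf (nat_lit 7309478) (nat_lit 534986) (nat_lit 43467719) (nat_lit 9193244) [(nat_lit 534986), (nat_lit 2111153), (nat_lit 6509429)]) (PF.cons (PF.leaf (nat_lit 7644627)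 (nat_lit 541709) (nat_lit 42931309) (nat_lit 9158131) [(nat_lit 541709), (nat_lit 2118975), (nat_lit 6495605)]) (PF.cons (PF.leaf (nat_lit 7984021) (nat_lit 547710) (nat_lit 42393164) (nat_lit 9120640) [(nat_lit 547710), (nat_lit 2125568), (nat_lit 6479750)]) (PF.cons (PF.leaf (nat_lit 8326754) (nat_lit 553054) (nat_lit 41854735) (nat_lit 9080895) [(nat_lit 553054), (nat_lit 2130972), (nat_lit 6461937)]) (PF.cons PF.nil
 PF.nil)))))))) (PF.cons (PF.cons (PF.leaf (nat_lit 7229177) (nat_lit 2106366) (nat_lit 43036908) (nat_lit 9157023) [(nat_lit 0), (nat_lit 2106366), (nat_lit 6489413)]) (PF.cons (PF.leaf (nat_lit 7551814) (nat_lit 536570) (nat_lit 42520988) (nat_lit 9121752) [(nat_lit 536570), (nat_lit 2113648), (nat_lit 6474907)]) (PF.cons (PF.leaf (nat_lit 7880341) (nat_lit 542906) (nat_lit 42001235) (nat_lit 9084136) [(nat_lit 542906), (nat_lit 2119790), (nat_lit 6458467)]) (PF.cons (PF.leaf (nat_lit 8213253) (nat_lit 548520) (nat_lit 41479529) (nat_lit 9044307)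 [(nat_lit 548520), (nat_lit 2124814), (nat_lit 6440156)]) (PF.cons (PF.leaf (nat_lit 8549601) (nat_lit 553484) (nat_lit 40957406) (nat_lit 9002398) [(nat_lit 553484), (nat_lit 2128754), (nat_lit 6420051)]) (PF.cons PF.nil PF.nil)))))) (PF.cons (PF.cons (PF.leaf (nat_lit 8110624) (nat_lit 2118435) (nat_lit 41093192) (nat_lit 9006071) [(nat_lit 0), (nat_lit 2118435), (nat_lit 6417371)]) (PF.cons (PF.leaf (nat_lit 8436420) (nat_lit 548619) (nat_lit 40588578) (nat_lit 8964346) [(nat_lit 548619), (nat_lit 2122059), (nat_lit 6396969)]) (PF.cons (PF.leaf (nat_lit 8766150) (nat_lit 553267) (nat_lit 40083209) (nat_lit 8920682) [(nat_lit 553267),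
 (nat_lit 2124694), (nat_lit 6374912)]) (PF.cons PF.nil PF.nil)))) (PF.cons (PF.cons (PF.leaf (nat_lit 8977302) (nat_lit 2118989) (nat_lit 39231718) (nat_lit 8836224) [(nat_lit 0), (nat_lit 2118989), (nat_lit 6326935)]) (PF.cons (PF.leaf (nat_lit 9302777) (nat_lit 556255) (nat_lit 38743727) (nat_lit 8789512) [(nat_lit 556255), (nat_lit 2119587), (nat_lit 6301792)]) PF.nil)) (PF.cons PF.nil (PF.cons PF.nil (PF.cons PF.nil PF.nil)))))))))) (PF.cons (PF.cons (PF.cons (PF.leaf (nat_lit 5556651) (nat_lit 6458016) (nat_lit 44986686) (nat_lit 9206093) [(nat_lit 0), (nat_lit 0), (nat_lit 6458016)]) (PF.cons (PF.leaf (nat_lit 5831601) (nat_lit 474052) (nat_lit 44540095) (nat_lit 9185068) [(nat_lit 474052), (nat_lit 0), (nat_lit 6454798)]) (PF.cons (PF.leaf (nat_lit 6121079) (nat_lit 486733) (nat_lit 44074686) (nat_lit 9161293) [(nat_lit 486733), (nat_lit 0), (nat_lit 6449682)]) (PF.cons (PF.leaf (nat_lit 6421874) (nat_lit 497841) (nat_lit 43595244) (nat_lit 9134856) [(nat_lit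 497841), (nat_lit 0), (nat_lit 6442593)]) (PF.cons (PF.leaf (nat_lit 6731914) (nat_lit 507648) (nat_lit 43105375) (nat_lit 9105845) [(nat_lit 507648), (nat_lit 0), (nat_lit 6433500)]) (PF.cons (PF.leaf (nat_lit
 7049552) (nat_lit 516347) (nat_lit 42607912) (nat_lit 9074353) [(nat_lit 516347), (nat_lit 0), (nat_lit 6422404)]) (PF.cons (PF.leaf (nat_lit 7373384) (nat_lit 524085) (nat_lit 42105147) (nat_lit 9040484) [(nat_lit 524085), (nat_lit 0), (nat_lit 6409334)]) (PF.cons (PF.leaf (nat_lit 7702294) (nat_lit 530974) (nat_lit 41598971) (nat_lit 9004345) [(nat_lit 530974), (nat_lit 0), (nat_lit 6394337)]) (PF.cons (PF.leaf (nat_lit 8035271) (nat_lit 537105) (nat_lit 41090971) (nat_lit 8966052) [(nat_lit 537105), (nat_lit 0), (nat_lit 6377472)]) (PF.cons PF.nil (PF.cons PF.nil (PF.cons PF.nil PF.nil)))))))))))) (PF.cons (PF.cons (PF.leaf (nat_lit 6381547) (nat_lit 2041779) (nat_lit 43120881) (nat_lit 9098263) [(nat_lit 0), (nat_lit 2041779), (nat_lit 6423944)]) (PF.cons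 (PF.leaf (nat_lit 6674423) (nat_lit 500655) (nat_lit 42657979) (nat_lit 9069282) [(nat_lit 500655), (nat_lit 2052795), (nat_lit 6414050)]) (PF.cons (PF.leaf (nat_lit 6977596) (nat_lit 510082) (nat_lit 42183762) (nat_lit 9037781) [(nat_lit 510082), (nat_lit 2062594), (nat_lit 6402254)]) (PF.cons (PF.leaf (nat_lit 7288765) (nat_lit 518375) (nat_lit 41701471) (nat_lit 9003895) [(nat_lit 518375), (nat_lit 2071164), (nat_lit
 6388577)]) (PF.cons (PF.leaf (nat_lit 7606394) (nat_lit 525699) (nat_lit 41213627) (nat_lit 8967751) [(nat_lit 525699), (nat_lit 2078517), (nat_lit 6373059)]) (PF.cons (PF.leaf (nat_lit 7929212) (nat_lit 532177) (nat_lit 40722254) (nat_lit 8929475) [(nat_lit 532177), (nat_lit 2084687), (nat_lit 6355753)]) (PF.cons (PF.leaf (nat_lit 8256205) (nat_lit 537908) (nat_lit 40229006) (nat_lit 8889193) [(nat_lit 537908), (nat_lit 2089712), (nat_lit 6336724)]) (PF.cons (PF.leaf (nat_lit 8586436) (nat_lit 542969) (nat_lit 39735262) (nat_lit 8847027) [(nat_lit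 542969), (nat_lit 2093641), (nat_lit 6316046)]) (PF.cons PF.nil (PF.cons PF.nil PF.nil)))))))))) (PF.cons (PF.cons (PF.leaf (nat_lit 7219652) (nat_lit 2065514) (nat_lit 41279756) (nat_lit 8965017) [(nat_lit 0), (nat_lit 2065514), (nat_lit 6366505)]) (PF.cons (PF.leaf (nat_lit 7523285) (nat_lit 519483) (nat_lit 40814031) (nat_lit 8929213) [(nat_lit 519483), (nat_lit 2072405), (nat_lit 6350636)]) (PF.cons (PF.leaf (nat_lit 7834181) (nat_lit 526492) (nat_lit 40342124) (nat_lit 8891231) [(nat_lit 526492), (nat_lit 2078205), (nat_lit 6333030)]) (PF.cons (PF.leaf (nat_lit 8150574) (nat_lit 532642) (nat_lit 39866291) (nat_lit 8851222)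
 [(nat_lit 532642), (nat_lit 2082931), (nat_lit 6313754)]) (PF.cons (PF.leaf (nat_lit 8471310) (nat_lit 538042) (nat_lit 39388327) (nat_lit 8809325) [(nat_lit 538042), (nat_lit 2086616), (nat_lit 6292878)]) (PF.cons (PF.leaf (nat_lit 8795427) (nat_lit 542778) (nat_lit 38909688) (nat_lit 8765674) [(nat_lit 542778), (nat_lit 2089299), (nat_lit 6270478)]) (PF.cons PF.nil (PF.cons PF.nil PF.nil)))))))) (PF.cons (PF.cons (PF.leaf (nat_lit 8057816) (nat_lit 2075930) (nat_lit 39490292) (nat_lit 8811388) [(nat_lit 0), (nat_lit 2075930), (nat_lit 6289669)]) (PF.cons (PF.leaf (nat_lit 8366987) (nat_lit 532412) (nat_lit 39030758) (nat_lit 8770036) [(nat_lit 532412), (nat_lit 2079372), (nat_lit 6268744)]) (PF.cons (PF.leaf (nat_lit 8681170) (nat_lit 537552) (nat_lit 38568594) (nat_lit 8726882) [(nat_lit 537552), (nat_lit 2081864), (nat_lit 6246318)]) (PF.cons (PF.leaf (nat_lit 8998962) (nat_lit 542024) (nat_lit 38105398) (nat_lit 8682074) [(nat_lit 542024), (nat_lit 2083439),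 (nat_lit 6222473)]) (PF.cons PF.nil (PF.cons PF.nil PF.nil)))))) (PF.cons (PF.cons (PF.leaf (nat_lit 8886723) (nat_lit 2075632) (nat_lit 37769287) (nat_lit 8642238) [(nat_lit 0), (nat_lit 2075632), (nat_lit 6197379)])
 (PF.cons (PF.leaf (nat_lit 9197606) (nat_lit 540742) (nat_lit 37321884) (nat_lit 8596586) [(nat_lit 540742), (nat_lit 2076224), (nat_lit 6172350)]) (PF.cons PF.nil (PF.cons PF.nil PF.nil)))) (PF.cons (PF.cons (PF.leaf (nat_lit 9699857) (nat_lit 2066778) (nat_lit 36126506) (nat_lit 8461934) [(nat_lit 0), (nat_lit 2066778), (nat_lit 6093240)]) (PF.cons PF.nil PF.nil)) (PF.cons PF.nil (PF.cons PF.nil PF.nil)))))))) (PF.cons (PF.cons (PF.cons (PF.leaf (nat_lit 7214314) (nat_lit 6240268) (nat_lit 39617626) (nat_lit 8770379) [(nat_lit 0), (nat_lit 0), (nat_lit 6240268)]) (PF.cons (PF.leaf (nat_lit 7497878) (nat_lit 500089) (nat_lit 39201771) (nat_lit 8735205) [(nat_lit 500089), (nat_lit 0), (nat_lit 6223915)]) (PF.cons (PF.leaf (nat_lit 7790587) (nat_lit 508216)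 (nat_lit 38776730) (nat_lit 8697868) [(nat_lit 508216), (nat_lit 0), (nat_lit 6205926)]) (PF.cons (PF.leaf (nat_lit 8090215) (nat_lit 515250) (nat_lit 38345353) (nat_lit 8658564) [(nat_lit 515250), (nat_lit 0), (nat_lit 6186380)]) (PF.cons (PF.leaf (nat_lit 8395358) (nat_lit 521365) (nat_lit 37909830) (nat_lit 8617457) [(nat_lit 521365), (nat_lit 0), (nat_lit 6165355)]) (PF.cons (PF.leaf (nat_lit 8704836) (nat_lit 526688)
 (nat_lit 37471893) (nat_lit 8574695) [(nat_lit 526688), (nat_lit 0), (nat_lit 6142927)]) (PF.cons (PF.leaf (nat_lit 9017683) (nat_lit 531320) (nat_lit 37032944) (nat_lit 8530414) [(nat_lit 531320), (nat_lit 0), (nat_lit 6119177)]) (PF.cons PF.nil PF.nil)))))))) (PF.cons (PF.cons (PF.leaf (nat_lit 8009760) (nat_lit 2031757) (nat_lit 37976582) (nat_lit 8617177) [(nat_lit 0), (nat_lit 2031757), (nat_lit 6161098)]) (PF.cons (PF.leaf (nat_lit 8301819) (nat_lit 514758) (nat_lit 37560891) (nat_lit 8576998) [(nat_lit 514758), (nat_lit 2035344), (nat_lit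 6140273)]) (PF.cons (PF.leaf (nat_lit 8600259) (nat_lit 520672) (nat_lit 37140345) (nat_lit 8535046) [(nat_lit 520672), (nat_lit 2037989), (nat_lit 6118028)]) (PF.cons (PF.leaf (nat_lit 8903402) (nat_lit 525776) (nat_lit 36716897) (nat_lit 8491493) [(nat_lit 525776), (nat_lit 2039724), (nat_lit 6094455)]) (PF.cons (PF.leaf (nat_lit 9210184) (nat_lit 530183) (nat_lit 36292080) (nat_lit 8446490) [(nat_lit 530183), (nat_lit 2040591), (nat_lit 6069639)]) (PF.cons PF.nil PF.nil)))))) (PF.cons (PF.cons (PF.leaf (nat_lit 8801904) (nat_lit 2031516) (nat_lit 36388957) (nat_lit 8450821) [(nat_lit 0), (nat_lit 2031516), (nat_lit 6068667)]) (PF.cons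
 (PF.leaf (nat_lit 9097998) (nat_lit 524334) (nat_lit 35980484) (nat_lit 8406766) [(nat_lit 524334), (nat_lit 2032334), (nat_lit 6044185)]) (PF.cons (PF.leaf (nat_lit 9398444) (nat_lit 528575) (nat_lit 35570095) (nat_lit 8361299) [(nat_lit 528575), (nat_lit 2032353), (nat_lit 6018519)]) (PF.cons PF.nil PF.nil)))) (PF.cons (PF.cons (PF.leaf (nat_lit 9583347) (nat_lit 2023104) (nat_lit 34866334) (nat_lit 8275069) [(nat_lit 0), (nat_lit 2023104), (nat_lit 5966032)]) (PF.cons (PF.leaf (nat_lit 9880234) (nat_lit 530015) (nat_lit 34469598) (nat_lit 8228157) [(nat_lit 530015), (nat_lit 2021671), (nat_lit 5938675)]) PF.nil)) (PF.cons PF.nil (PF.cons PF.nil PF.nil)))))) (PF.cons (PF.cons (PF.cons (PF.leaf (nat_lit 8725456) (nat_lit 5941139) (nat_lit 35081983) (nat_lit 8262272) [(nat_lit 0), (nat_lit 0), (nat_lit 5941139)]) (PF.cons (PF.leaf (nat_lit 9006105) (nat_lit 506769) (nat_lit 34711360) (nat_lit 8220306) [(nat_lit 506769), (nat_lit 0), (nat_lit 5917593)]) (PF.cons (PF.leaf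 (nat_lit 9292484) (nat_lit 511832) (nat_lit 34336788) (nat_lit 8176874) [(nat_lit 511832), (nat_lit 0), (nat_lit 5892871)]) (PF.cons (PF.leaf (nat_lit 9582966) (nat_lit 516132) (nat_lit 33959961) (nat_lit 8132155)
 [(nat_lit 516132), (nat_lit 0), (nat_lit 5867074)]) (PF.cons PF.nil (PF.cons PF.nil PF.nil)))))) (PF.cons (PF.cons (PF.leaf (nat_lit 9475492) (nat_lit 1979299) (nat_lit 33673369) (nat_lit 8092218) [(nat_lit 0), (nat_lit 1979299), (nat_lit 5840981)]) (PF.cons (PF.leaf (nat_lit 9759173) (nat_lit 513888) (nat_lit 33310012) (nat_lit 8047527) [(nat_lit 513888), (nat_lit 1978329), (nat_lit 5814763)]) (PF.cons (PF.leaf (nat_lit 10046745) (nat_lit 517442) (nat_lit 32945170) (nat_lit 8001708) [(nat_lit 517442), (nat_lit 1976678), (nat_lit 5787592)]) (PF.cons PF.nil PF.nil)))) (PF.cons (PF.cons (PF.leaf (nat_lit 10214349) (nat_lit 1965632) (nat_lit 32324081) (nat_lit 7916789) [(nat_lit 0), (nat_lit 1965632), (nat_lit 5734169)]) (PF.cons PF.nil PF.nil)) (PF.cons PF.nil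 PF.nil)))) (PF.cons (PF.cons (PF.cons (PF.leaf (nat_lit 10090069) (nat_lit 5615157) (nat_lit 31288091) (nat_lit 7744935) [(nat_lit 0), (nat_lit 0), (nat_lit 5615157)]) (PF.cons (PF.leaf (nat_lit 10362119) (nat_lit 502088) (nat_lit 30964111) (nat_lit 7700850) [(nat_lit 502088), (nat_lit 0), (nat_lit 5588352)]) PF.nil)) (PF.cons PF.nil PF.nil)) (PF.cons PF.nil (PF.cons PF.nil (PF.cons PF.nil (PF.cons PF.nil PF.nil))))))))))

def p14_18_1_0 : pfC (piC [(nat_lit 38632330), (nat_lit 24534081), (nat_lit 15702173)] (nat_lit 11116977)) p14_18_1 (nat_lit 3) (nat_lit 0) (nat_lit 1) = true := by decide +kernel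
def p14_18_1_1 : pfC (piC [(nat_lit 38632330), (nat_lit 24534081), (nat_lit 15702173)] (nat_lit 11116977)) p14_18_1 (nat_lit 3) (nat_lit 1) (nat_lit 2) = true := by decide +kernel
def p14_18_1_2 : pfC (piC [(nat_lit 38632330), (nat_lit 24534081), (nat_lit 15702173)] (nat_lit 11116977)) p14_18_1 (nat_lit 3) (nat_lit 2) (nat_lit 3) = true := by decide +kernel
def p14_18_1_3 : pfC (piC [(nat_lit 38632330), (nat_lit 24534081), (nat_lit 15702173)] (nat_lit 11116977)) p14_18_1 (nat_lit 3) (nat_lit 3) (nat_lit 4) = true := by decide +kernel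
def p14_18_1_4 : pfC (piC [(nat_lit 38632330), (nat_lit 24534081), (nat_lit 15702173)] (nat_lit 11116977)) p14_18_1 (nat_lit 3) (nat_lit 4) (nat_lit 5) = true := by decide +kernel
def p14_18_1_5 : pfC (piC [(nat_lit 38632330), (nat_lit 24534081), (nat_lit 15702173)] (nat_lit 11116977)) p14_18_1 (nat_lit 3) (nat_lit 5) (nat_lit 6) = true := by decide +kernel
def p14_18_1_6 : pfC (piC [(nat_lit 38632330), (nat_lit 24534081), (nat_lit 15702173)] (nat_lit 11116977)) p14_18_1 (nat_lit 3) (nat_lit 6) (nat_lit 7) = true := by decide +kernel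
def p14_18_1_7 : pfC (piC [(nat_lit 38632330), (nat_lit 24534081), (nat_lit 15702173)] (nat_lit 11116977)) p14_18_1 (nat_lit 3) (nat_lit 7) (nat_lit 8) = true := by decide +kernel
def p14_18_1_8 : pfC (piC [(nat_lit 38632330), (nat_lit 24534081), (nat_lit 15702173)] (nat_lit 11116977)) p14_18_1 (nat_lit 3) (nat_lit 8) (nat_lit 9) = true := by decide +kernel
def p14_18_1_9 : pfC (piC [(nat_lit 38632330), (nat_lit 24534081), (nat_lit 15702173)] (nat_lit 11116977)) p14_18_1 (nat_lit 3) (nat_lit 9) (nat_lit 10) = true := by decide +kernel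
def p14_18_1_10 : pfC (piC [(nat_lit 38632330), (nat_lit 24534081), (nat_lit 15702173)] (nat_lit 11116977)) p14_18_1 (nat_lit 3) (nat_lit 10) (nat_lit 11) = true := by decide +kernel
def p14_18_1_11 : pfC (piC [(nat_lit 38632330), (nat_lit 24534081), (nat_lit 15702173)] (nat_lit 11116977)) p14_18_1 (nat_lit 3) (nat_lit 11) (nat_lit 12) = true := by decide +kernel
def p14_18_1_12 : pfC (piC [(nat_lit 38632330), (nat_lit 24534081), (nat_lit 15702173)] (nat_lit 11116977)) p14_18_1 (nat_lit 3) (nat_lit 12) (nat_lit 13) = true := by decide +kernel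
def p14_18_1_13 : pfC (piC [(nat_lit 38632330), (nat_lit 24534081), (nat_lit 15702173)] (nat_lit 11116977)) p14_18_1 (nat_lit 3) (nat_lit 13) (nat_lit 14) = true := by decide +kernel
def p14_18_1_14 : pfC (piC [(nat_lit 38632330), (nat_lit 24534081), (nat_lit 15702173)] (nat_lit 11116977)) p14_18_1 (nat_lit 3) (nat_lit 14) (nat_lit 15) = true := by decide +kernel
def p14_18_1_15 : pfC (piC [(nat_lit 38632330), (nat_lit 24534081), (nat_lit 15702173)] (nat_lit 11116977)) p14_18_1 (nat_lit 3) (nat_lit 15) (nat_lit 16) = true := by decide +kernel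
def p14_18_1_16 : pfC (piC [(nat_lit 38632330), (nat_lit 24534081), (nat_lit 15702173)] (nat_lit 11116977)) p14_18_1 (nat_lit 3) (nat_lit 16) (nat_lit 17) = true := by decide +kernel
def p14_18_1_17 : pfC (piC [(nat_lit 38632330), (nat_lit 24534081), (nat_lit 15702173)] (nat_lit 11116977)) p14_18_1 (nat_lit 3) (nat_lit 17) (nat_lit 18) = true := by decide +kernel
def p14_18_1_18 : pfC (piC [(nat_lit 38632330), (nat_lit 24534081), (nat_lit 15702173)] (nat_lit 11116977)) p14_18_1 (nat_lit 3) (nat_lit 18) (nat_lit 19) = true := by decide +kernel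
def p14_18_1_19 : pfC (piC [(nat_lit 38632330), (nat_lit 24534081), (nat_lit 15702173)] (nat_lit 11116977)) p14_18_1 (nat_lit 3) (nat_lit 19) (nat_lit 20) = true := by decide +kernel
def p14_18_1_20 : pfC (piC [(nat_lit 38632330), (nat_lit 24534081), (nat_lit 15702173)] (nat_lit 11116977)) p14_18_1 (nat_lit 3) (nat_lit 20) (nat_lit 21) = true := by decide +kernel
def p14_18_1_21 : pfC (piC [(nat_lit 38632330), (nat_lit 24534081), (nat_lit 15702173)] (nat_lit 11116977)) p14_18_1 (nat_lit 3) (nat_lit 21) (nat_lit 22) = true := by decide +kernel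
def p14_18_1_22 : pfC (piC [(nat_lit 38632330), (nat_lit 24534081), (nat_lit 15702173)] (nat_lit 11116977)) p14_18_1 (nat_lit 3) (nat_lit 22) (nat_lit 23) = true := by decide +kernel
def p14_18_1_23 : pfC (piC [(nat_lit 38632330), (nat_lit 24534081), (nat_lit 15702173)] (nat_lit 11116977)) p14_18_1 (nat_lit 3) (nat_lit 23) (nat_lit 24) = true := by decide +kernel
def p14_18_1_24 : pfC (piC [(nat_lit 38632330), (nat_lit 24534081), (nat_lit 15702173)] (nat_lit 11116977)) p14_18_1 (nat_lit 3) (nat_lit 24) (nat_lit 25) = true := by decide +kernel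
def p14_18_1_25 : pfC (piC [(nat_lit 38632330), (nat_lit 24534081), (nat_lit 15702173)] (nat_lit 11116977)) p14_18_1 (nat_lit 3) (nat_lit 25) (nat_lit 26) = true := by decide +kernel
def p14_18_1_26 : pfC (piC [(nat_lit 38632330), (nat_lit 24534081), (nat_lit 15702173)] (nat_lit 11116977)) p14_18_1 (nat_lit 3) (nat_lit 26) (nat_lit 27) = true := by decide +kernel
def p14_18_1_27 : pfC (piC [(nat_lit 38632330), (nat_lit 24534081), (nat_lit 15702173)] (nat_lit 11116977)) p14_18_1 (nat_lit 3) (nat_lit 27) (nat_lit 28) = true := by decide +kernel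
def p14_18_1_28 : pfC (piC [(nat_lit 38632330), (nat_lit 24534081), (nat_lit 15702173)] (nat_lit 11116977)) p14_18_1 (nat_lit 3) (nat_lit 28) (nat_lit 29) = true := by decide +kernel
def p14_18_1_29 : pfC (piC [(nat_lit 38632330), (nat_lit 24534081), (nat_lit 15702173)] (nat_lit 11116977)) p14_18_1 (nat_lit 3) (nat_lit 29) (nat_lit 30) = true := by decide +kernel
def p14_18_1_30 : pfC (piC [(nat_lit 38632330), (nat_lit 24534081), (nat_lit 15702173)] (nat_lit 11116977)) p14_18_1 (nat_lit 3) (nat_lit 30) (nat_lit 31) = true := by decide +kernel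
def p14_18_1_31 : pfC (piC [(nat_lit 38632330), (nat_lit 24534081), (nat_lit 15702173)] (nat_lit 11116977)) p14_18_1 (nat_lit 3) (nat_lit 31) (nat_lit 32) = true := by decide +kernel
def p14_18_1_32 : pfC (piC [(nat_lit 38632330), (nat_lit 24534081), (nat_lit 15702173)] (nat_lit 11116977)) p14_18_1 (nat_lit 3) (nat_lit 32) (nat_lit 33) = true := by decide +kernel
def p14_18_1_33 : pfC (piC [(nat_lit 38632330), (nat_lit 24534081), (nat_lit 15702173)] (nat_lit 11116977)) p14_18_1 (nat_lit 3) (nat_lit 33) (nat_lit 34) = true := by decide +kernel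
def p14_18_1_34 : pfC (piC [(nat_lit 38632330), (nat_lit 24534081), (nat_lit 15702173)] (nat_lit 11116977)) p14_18_1 (nat_lit 3) (nat_lit 34) (nat_lit 35) = true := by decide +kernel
def p14_18_1_35 : pfC (piC [(nat_lit 38632330), (nat_lit 24534081), (nat_lit 15702173)] (nat_lit 11116977)) p14_18_1 (nat_lit 3) (nat_lit 35) (nat_lit 36) = true := by decide +kernel
def p14_18_1_36 : pfC (piC [(nat_lit 38632330), (nat_lit 24534081), (nat_lit 15702173)] (nat_lit 11116977)) p14_18_1 (nat_lit 3) (nat_lit 36) (nat_lit 37) = true := by decide +kernel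
def p14_18_1_37 : pfC (piC [(nat_lit 38632330), (nat_lit 24534081), (nat_lit 15702173)] (nat_lit 11116977)) p14_18_1 (nat_lit 3) (nat_lit 37) (nat_lit 38) = true := by decide +kernel
def p14_18_1_38 : pfC (piC [(nat_lit 38632330), (nat_lit 24534081), (nat_lit 15702173)] (nat_lit 11116977)) p14_18_1 (nat_lit 3) (nat_lit 38) (nat_lit 39) = true := by decide +kernel
def p14_18_1_39 : pfC (piC [(nat_lit 38632330), (nat_lit 24534081), (nat_lit 15702173)] (nat_lit 11116977)) p14_18_1 (nat_lit 3) (nat_lit 39) (nat_lit 40) = true := by decide +kernel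
def p14_18_1_40 : pfC (piC [(nat_lit 38632330), (nat_lit 24534081), (nat_lit 15702173)] (nat_lit 11116977)) p14_18_1 (nat_lit 3) (nat_lit 40) (nat_lit 41) = true := by decide +kernel
def p14_18_1_41 : pfC (piC [(nat_lit 38632330), (nat_lit 24534081), (nat_lit 15702173)] (nat_lit 11116977)) p14_18_1 (nat_lit 3) (nat_lit 41) (nat_lit 42) = true := by decide +kernel
def p14_18_1_42 : pfC (piC [(nat_lit 38632330), (nat_lit 24534081), (nat_lit 15702173)] (nat_lit 11116977)) p14_18_1 (nat_lit 3) (nat_lit 42) (nat_lit 43) = true := by decide +kernel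
def p14_18_1_43 : pfC (piC [(nat_lit 38632330), (nat_lit 24534081), (nat_lit 15702173)] (nat_lit 11116977)) p14_18_1 (nat_lit 3) (nat_lit 43) (nat_lit 44) = true := by decide +kernel
def p14_18_1_44 : pfC (piC [(nat_lit 38632330), (nat_lit 24534081), (nat_lit 15702173)] (nat_lit 11116977)) p14_18_1 (nat_lit 3) (nat_lit 44) (nat_lit 45) = true := by decide +kernel
def p14_18_1_45 : pfC (piC [(nat_lit 38632330), (nat_lit 24534081), (nat_lit 15702173)] (nat_lit 11116977)) p14_18_1 (nat_lit 3) (nat_lit 45) (nat_lit 46) = true := by decide +kernel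
def p14_18_1_46 : pfC (piC [(nat_lit 38632330), (nat_lit 24534081), (nat_lit 15702173)] (nat_lit 11116977)) p14_18_1 (nat_lit 3) (nat_lit 46) (nat_lit 47) = true := by decide +kernel
def p14_18_1_47 : pfC (piC [(nat_lit 38632330), (nat_lit 24534081), (nat_lit 15702173)] (nat_lit 11116977)) p14_18_1 (nat_lit 3) (nat_lit 47) (nat_lit 48) = true := by decide +kernel
def p14_18_1_48 : pfC (piC [(nat_lit 38632330), (nat_lit 24534081), (nat_lit 15702173)] (nat_lit 11116977)) p14_18_1 (nat_lit 3) (nat_lit 48) (nat_lit 49) = true := by decide +kernel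
def p14_18_1_49 : pfC (piC [(nat_lit 38632330), (nat_lit 24534081), (nat_lit 15702173)] (nat_lit 11116977)) p14_18_1 (nat_lit 3) (nat_lit 49) (nat_lit 50) = true := by decide +kernel
def p14_18_1_50 : pfC (piC [(nat_lit 38632330), (nat_lit 24534081), (nat_lit 15702173)] (nat_lit 11116977)) p14_18_1 (nat_lit 3) (nat_lit 50) (nat_lit 51) = true := by decide +kernel
def p14_18_1_51 : pfC (piC [(nat_lit 38632330), (nat_lit 24534081), (nat_lit 15702173)] (nat_lit 11116977)) p14_18_1 (nat_lit 3) (nat_lit 51) (nat_lit 52) = true := by decide +kernel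
def p14_18_1_52 : pfC (piC [(nat_lit 38632330), (nat_lit 24534081), (nat_lit 15702173)] (nat_lit 11116977)) p14_18_1 (nat_lit 3) (nat_lit 52) (nat_lit 53) = true := by decide +kernel
def p14_18_1_53 : pfC (piC [(nat_lit 38632330), (nat_lit 24534081), (nat_lit 15702173)] (nat_lit 11116977)) p14_18_1 (nat_lit 3) (nat_lit 53) (nat_lit 54) = true := by decide +kernel
def p14_18_1_54 : pfC (piC [(nat_lit 38632330), (nat_lit 24534081), (nat_lit 15702173)] (nat_lit 11116977)) p14_18_1 (nat_lit 3) (nat_lit 54) (nat_lit 55) = true := by decide +kernel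
def p14_18_1_55 : pfC (piC [(nat_lit 38632330), (nat_lit 24534081), (nat_lit 15702173)] (nat_lit 11116977)) p14_18_1 (nat_lit 3) (nat_lit 55) (nat_lit 56) = true := by decide +kernel
def p14_18_1_56 : pfC (piC [(nat_lit 38632330), (nat_lit 24534081), (nat_lit 15702173)] (nat_lit 11116977)) p14_18_1 (nat_lit 3) (nat_lit 56) (nat_lit 57) = true := by decide +kernel
def p14_18_1_57 : pfC (piC [(nat_lit 38632330), (nat_lit 24534081), (nat_lit 15702173)] (nat_lit 11116977)) p14_18_1 (nat_lit 3) (nat_lit 57) (nat_lit 58) = true := by decide +kernel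
def p14_18_1_58 : pfC (piC [(nat_lit 38632330), (nat_lit 24534081), (nat_lit 15702173)] (nat_lit 11116977)) p14_18_1 (nat_lit 3) (nat_lit 58) (nat_lit 59) = true := by decide +kernel
def p14_18_1_59 : pfC (piC [(nat_lit 38632330), (nat_lit 24534081), (nat_lit 15702173)] (nat_lit 11116977)) p14_18_1 (nat_lit 3) (nat_lit 59) (nat_lit 60) = true := by decide +kernel
def p14_18_1_60 : pfC (piC [(nat_lit 38632330), (nat_lit 24534081), (nat_lit 15702173)] (nat_lit 11116977)) p14_18_1 (nat_lit 3) (nat_lit 60) (nat_lit 61) = true := by decide +kernel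
def p14_18_1_61 : pfC (piC [(nat_lit 38632330), (nat_lit 24534081), (nat_lit 15702173)] (nat_lit 11116977)) p14_18_1 (nat_lit 3) (nat_lit 61) (nat_lit 62) = true := by decide +kernel
def p14_18_1_62 : pfC (piC [(nat_lit 38632330), (nat_lit 24534081), (nat_lit 15702173)] (nat_lit 11116977)) p14_18_1 (nat_lit 3) (nat_lit 62) (nat_lit 63) = true := by decide +kernel
def p14_18_1_63 : pfC (piC [(nat_lit 38632330), (nat_lit 24534081), (nat_lit 15702173)] (nat_lit 11116977)) p14_18_1 (nat_lit 3) (nat_lit 63) (nat_lit 64) = true := by decide +kernel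
def p14_18_1_64 : pfC (piC [(nat_lit 38632330), (nat_lit 24534081), (nat_lit 15702173)] (nat_lit 11116977)) p14_18_1 (nat_lit 3) (nat_lit 64) (nat_lit 65) = true := by decide +kernel
def p14_18_1_65 : pfC (piC [(nat_lit 38632330), (nat_lit 24534081), (nat_lit 15702173)] (nat_lit 11116977)) p14_18_1 (nat_lit 3) (nat_lit 65) (nat_lit 66) = true := by decide +kernel
def p14_18_1_66 : pfC (piC [(nat_lit 38632330), (nat_lit 24534081), (nat_lit 15702173)] (nat_lit 11116977)) p14_18_1 (nat_lit 3) (nat_lit 66) (nat_lit 67) = true := by decide +kernel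
def p14_18_1_67 : pfC (piC [(nat_lit 38632330), (nat_lit 24534081), (nat_lit 15702173)] (nat_lit 11116977)) p14_18_1 (nat_lit 3) (nat_lit 67) (nat_lit 68) = true := by decide +kernel
def p14_18_1_68 : pfC (piC [(nat_lit 38632330), (nat_lit 24534081), (nat_lit 15702173)] (nat_lit 11116977)) p14_18_1 (nat_lit 3) (nat_lit 68) (nat_lit 69) = true := by decide +kernel
def p14_18_1_69 : pfC (piC [(nat_lit 38632330), (nat_lit 24534081), (nat_lit 15702173)] (nat_lit 11116977)) p14_18_1 (nat_lit 3) (nat_lit 69) (nat_lit 70) = true := by decide +kernel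
def p14_18_1_70 : pfC (piC [(nat_lit 38632330), (nat_lit 24534081), (nat_lit 15702173)] (nat_lit 11116977)) p14_18_1 (nat_lit 3) (nat_lit 70) (nat_lit 71) = true := by decide +kernel
def p14_18_1_71 : pfC (piC [(nat_lit 38632330), (nat_lit 24534081), (nat_lit 15702173)] (nat_lit 11116977)) p14_18_1 (nat_lit 3) (nat_lit 71) (nat_lit 72) = true := by decide +kernel
def p14_18_1_72 : pfC (piC [(nat_lit 38632330), (nat_lit 24534081), (nat_lit 15702173)] (nat_lit 11116977)) p14_18_1 (nat_lit 3) (nat_lit 72) (nat_lit 73) = true := by decide +kernel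
def p14_18_1_73 : pfC (piC [(nat_lit 38632330), (nat_lit 24534081), (nat_lit 15702173)] (nat_lit 11116977)) p14_18_1 (nat_lit 3) (nat_lit 73) (nat_lit 74) = true := by decide +kernel
def p14_18_1_74 : pfC (piC [(nat_lit 38632330), (nat_lit 24534081), (nat_lit 15702173)] (nat_lit 11116977)) p14_18_1 (nat_lit 3) (nat_lit 74) (nat_lit 75) = true := by decide +kernel
def p14_18_1_75 : pfC (piC [(nat_lit 38632330), (nat_lit 24534081), (nat_lit 15702173)] (nat_lit 11116977)) p14_18_1 (nat_lit 3) (nat_lit 75) (nat_lit 76) = true := by decide +kernel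
def p14_18_1_76 : pfC (piC [(nat_lit 38632330), (nat_lit 24534081), (nat_lit 15702173)] (nat_lit 11116977)) p14_18_1 (nat_lit 3) (nat_lit 76) (nat_lit 77) = true := by decide +kernel
def p14_18_1_77 : pfC (piC [(nat_lit 38632330), (nat_lit 24534081), (nat_lit 15702173)] (nat_lit 11116977)) p14_18_1 (nat_lit 3) (nat_lit 77) (nat_lit 78) = true := by decide +kernel
def p14_18_1_78 : pfC (piC [(nat_lit 38632330), (nat_lit 24534081), (nat_lit 15702173)] (nat_lit 11116977)) p14_18_1 (nat_lit 3) (nat_lit 78) (nat_lit 79) = true := by decide +kernel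
def p14_18_1_79 : pfC (piC [(nat_lit 38632330), (nat_lit 24534081), (nat_lit 15702173)] (nat_lit 11116977)) p14_18_1 (nat_lit 3) (nat_lit 79) (nat_lit 80) = true := by decide +kernel
def p14_18_1_80 : pfC (piC [(nat_lit 38632330), (nat_lit 24534081), (nat_lit 15702173)] (nat_lit 11116977)) p14_18_1 (nat_lit 3) (nat_lit 80) (nat_lit 81) = true := by decide +kernel
def p14_18_1_81 : pfC (piC [(nat_lit 38632330), (nat_lit 24534081), (nat_lit 15702173)] (nat_lit 11116977)) p14_18_1 (nat_lit 3) (nat_lit 81) (nat_lit 82) = true := by decide +kernel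
def p14_18_1_82 : pfC (piC [(nat_lit 38632330), (nat_lit 24534081), (nat_lit 15702173)] (nat_lit 11116977)) p14_18_1 (nat_lit 3) (nat_lit 82) (nat_lit 83) = true := by decide +kernel
def p14_18_1_83 : pfC (piC [(nat_lit 38632330), (nat_lit 24534081), (nat_lit 15702173)] (nat_lit 11116977)) p14_18_1 (nat_lit 3) (nat_lit 83) (nat_lit 84) = true := by decide +kernel
def p14_18_1_84 : pfC (piC [(nat_lit 38632330), (nat_lit 24534081), (nat_lit 15702173)] (nat_lit 11116977)) p14_18_1 (nat_lit 3) (nat_lit 84) (nat_lit 85) = true := by decide +kernel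
def p14_18_1_85 : pfC (piC [(nat_lit 38632330), (nat_lit 24534081), (nat_lit 15702173)] (nat_lit 11116977)) p14_18_1 (nat_lit 3) (nat_lit 85) (nat_lit 86) = true := by decide +kernel
def p14_18_1_86 : pfC (piC [(nat_lit 38632330), (nat_lit 24534081), (nat_lit 15702173)] (nat_lit 11116977)) p14_18_1 (nat_lit 3) (nat_lit 86) (nat_lit 87) = true := by decide +kernel
def p14_18_1_87 : pfC (piC [(nat_lit 38632330), (nat_lit 24534081), (nat_lit 15702173)] (nat_lit 11116977)) p14_18_1 (nat_lit 3) (nat_lit 87) (nat_lit 88) = true := by decide +kernel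
def p14_18_1_88 : pfC (piC [(nat_lit 38632330), (nat_lit 24534081), (nat_lit 15702173)] (nat_lit 11116977)) p14_18_1 (nat_lit 3) (nat_lit 88) (nat_lit 89) = true := by decide +kernel
def p14_18_1_89 : pfC (piC [(nat_lit 38632330), (nat_lit 24534081), (nat_lit 15702173)] (nat_lit 11116977)) p14_18_1 (nat_lit 3) (nat_lit 89) (nat_lit 90) = true := by decide +kernel
def p14_18_1_90 : pfC (piC [(nat_lit 38632330), (nat_lit 24534081), (nat_lit 15702173)] (nat_lit 11116977)) p14_18_1 (nat_lit 3) (nat_lit 90) (nat_lit 91) = true := by decide +kernel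
def p14_18_1_91 : pfC (piC [(nat_lit 38632330), (nat_lit 24534081), (nat_lit 15702173)] (nat_lit 11116977)) p14_18_1 (nat_lit 3) (nat_lit 91) (nat_lit 92) = true := by decide +kernel
def p14_18_1_92 : pfC (piC [(nat_lit 38632330), (nat_lit 24534081), (nat_lit 15702173)] (nat_lit 11116977)) p14_18_1 (nat_lit 3) (nat_lit 92) (nat_lit 93) = true := by decide +kernel
def p14_18_1_93 : pfC (piC [(nat_lit 38632330), (nat_lit 24534081), (nat_lit 15702173)] (nat_lit 11116977)) p14_18_1 (nat_lit 3) (nat_lit 93) (nat_lit 94) = true := by decide +kernel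
def p14_18_1_94 : pfC (piC [(nat_lit 38632330), (nat_lit 24534081), (nat_lit 15702173)] (nat_lit 11116977)) p14_18_1 (nat_lit 3) (nat_lit 94) (nat_lit 95) = true := by decide +kernel
def p14_18_1_95 : pfC (piC [(nat_lit 38632330), (nat_lit 24534081), (nat_lit 15702173)] (nat_lit 11116977)) p14_18_1 (nat_lit 3) (nat_lit 95) (nat_lit 96) = true := by decide +kernel
def p14_18_1_96 : pfC (piC [(nat_lit 38632330), (nat_lit 24534081), (nat_lit 15702173)] (nat_lit 11116977)) p14_18_1 (nat_lit 3) (nat_lit 96) (nat_lit 97) = true := by decide +kernel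
def p14_18_1_97 : pfC (piC [(nat_lit 38632330), (nat_lit 24534081), (nat_lit 15702173)] (nat_lit 11116977)) p14_18_1 (nat_lit 3) (nat_lit 97) (nat_lit 98) = true := by decide +kernel
def p14_18_1_98 : pfC (piC [(nat_lit 38632330), (nat_lit 24534081), (nat_lit 15702173)] (nat_lit 11116977)) p14_18_1 (nat_lit 3) (nat_lit 98) (nat_lit 99) = true := by decide +kernel
def p14_18_1_99 : pfC (piC [(nat_lit 38632330), (nat_lit 24534081), (nat_lit 15702173)] (nat_lit 11116977)) p14_18_1 (nat_lit 3) (nat_lit 99) (nat_lit 100) = true := by decide +kernel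
def p14_18_1_100 : pfC (piC [(nat_lit 38632330), (nat_lit 24534081), (nat_lit 15702173)] (nat_lit 11116977)) p14_18_1 (nat_lit 3) (nat_lit 100) (nat_lit 101) = true := by decide +kernel
def p14_18_1_101 : pfC (piC [(nat_lit 38632330), (nat_lit 24534081), (nat_lit 15702173)] (nat_lit 11116977)) p14_18_1 (nat_lit 3) (nat_lit 101) (nat_lit 102) = true := by decide +kernel
def p14_18_1_102 : pfC (piC [(nat_lit 38632330), (nat_lit 24534081), (nat_lit 15702173)] (nat_lit 11116977)) p14_18_1 (nat_lit 3) (nat_lit 102) (nat_lit 103) = true := by decide +kernel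
def p14_18_1_103 : pfC (piC [(nat_lit 38632330), (nat_lit 24534081), (nat_lit 15702173)] (nat_lit 11116977)) p14_18_1 (nat_lit 3) (nat_lit 103) (nat_lit 104) = true := by decide +kernel
def p14_18_1_104 : pfC (piC [(nat_lit 38632330), (nat_lit 24534081), (nat_lit 15702173)] (nat_lit 11116977)) p14_18_1 (nat_lit 3) (nat_lit 104) (nat_lit 105) = true := by decide +kernel
def p14_18_1_105 : pfC (piC [(nat_lit 38632330), (nat_lit 24534081), (nat_lit 15702173)] (nat_lit 11116977)) p14_18_1 (nat_lit 3) (nat_lit 105) (nat_lit 106) = true := by decide +kernel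
def p14_18_1_106 : pfC (piC [(nat_lit 38632330), (nat_lit 24534081), (nat_lit 15702173)] (nat_lit 11116977)) p14_18_1 (nat_lit 3) (nat_lit 106) (nat_lit 107) = true := by decide +kernel
def p14_18_1_107 : pfC (piC [(nat_lit 38632330), (nat_lit 24534081), (nat_lit 15702173)] (nat_lit 11116977)) p14_18_1 (nat_lit 3) (nat_lit 107) (nat_lit 108) = true := by decide +kernel
def p14_18_1_108 : pfC (piC [(nat_lit 38632330), (nat_lit 24534081), (nat_lit 15702173)] (nat_lit 11116977)) p14_18_1 (nat_lit 3) (nat_lit 108) (nat_lit 109) = true := by decide +kernel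
def p14_18_1_109 : pfC (piC [(nat_lit 38632330), (nat_lit 24534081), (nat_lit 15702173)] (nat_lit 11116977)) p14_18_1 (nat_lit 3) (nat_lit 109) (nat_lit 110) = true := by decide +kernel
def p14_18_1_110 : pfC (piC [(nat_lit 38632330), (nat_lit 24534081), (nat_lit 15702173)] (nat_lit 11116977)) p14_18_1 (nat_lit 3) (nat_lit 110) (nat_lit 111) = true := by decide +kernel
def p14_18_1_111 : pfC (piC [(nat_lit 38632330), (nat_lit 24534081), (nat_lit 15702173)] (nat_lit 11116977)) p14_18_1 (nat_lit 3) (nat_lit 111) (nat_lit 112) = true := by decide +kernel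
def p14_18_1_112 : pfC (piC [(nat_lit 38632330), (nat_lit 24534081), (nat_lit 15702173)] (nat_lit 11116977)) p14_18_1 (nat_lit 3) (nat_lit 112) (nat_lit 113) = true := by decide +kernel
def p14_18_1_113 : pfC (piC [(nat_lit 38632330), (nat_lit 24534081), (nat_lit 15702173)] (nat_lit 11116977)) p14_18_1 (nat_lit 3) (nat_lit 113) (nat_lit 114) = true := by decide +kernel
def p14_18_1_114 : pfC (piC [(nat_lit 38632330), (nat_lit 24534081), (nat_lit 15702173)] (nat_lit 11116977)) p14_18_1 (nat_lit 3) (nat_lit 114) (nat_lit 115) = true := by decide +kernel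
def p14_18_1_115 : pfC (piC [(nat_lit 38632330), (nat_lit 24534081), (nat_lit 15702173)] (nat_lit 11116977)) p14_18_1 (nat_lit 3) (nat_lit 115) (nat_lit 116) = true := by decide +kernel
def p14_18_1_116 : pfC (piC [(nat_lit 38632330), (nat_lit 24534081), (nat_lit 15702173)] (nat_lit 11116977)) p14_18_1 (nat_lit 3) (nat_lit 116) (nat_lit 117) = true := by decide +kernel
def p14_18_1_117 : pfC (piC [(nat_lit 38632330), (nat_lit 24534081), (nat_lit 15702173)] (nat_lit 11116977)) p14_18_1 (nat_lit 3) (nat_lit 117) (nat_lit 118) = true := by decide +kernel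
def p14_18_1_118 : pfC (piC [(nat_lit 38632330), (nat_lit 24534081), (nat_lit 15702173)] (nat_lit 11116977)) p14_18_1 (nat_lit 3) (nat_lit 118) (nat_lit 119) = true := by decide +kernel
def p14_18_1_119 : pfC (piC [(nat_lit 38632330), (nat_lit 24534081), (nat_lit 15702173)] (nat_lit 11116977)) p14_18_1 (nat_lit 3) (nat_lit 119) (nat_lit 120) = true := by decide +kernel
def p14_18_1_120 : pfC (piC [(nat_lit 38632330), (nat_lit 24534081), (nat_lit 15702173)] (nat_lit 11116977)) p14_18_1 (nat_lit 3) (nat_lit 120) (nat_lit 121) = true := by decide +kernel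
def p14_18_1_121 : pfC (piC [(nat_lit 38632330), (nat_lit 24534081), (nat_lit 15702173)] (nat_lit 11116977)) p14_18_1 (nat_lit 3) (nat_lit 121) (nat_lit 122) = true := by decide +kernel
def p14_18_1_122 : pfC (piC [(nat_lit 38632330), (nat_lit 24534081), (nat_lit 15702173)] (nat_lit 11116977)) p14_18_1 (nat_lit 3) (nat_lit 122) (nat_lit 123) = true := by decide +kernel
def p14_18_1_123 : pfC (piC [(nat_lit 38632330), (nat_lit 24534081), (nat_lit 15702173)] (nat_lit 11116977)) p14_18_1 (nat_lit 3) (nat_lit 123) (nat_lit 124) = true := by decide +kernel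
def p14_18_1_124 : pfC (piC [(nat_lit 38632330), (nat_lit 24534081), (nat_lit 15702173)] (nat_lit 11116977)) p14_18_1 (nat_lit 3) (nat_lit 124) (nat_lit 125) = true := by decide +kernel
def p14_18_1_125 : pfC (piC [(nat_lit 38632330), (nat_lit 24534081), (nat_lit 15702173)] (nat_lit 11116977)) p14_18_1 (nat_lit 3) (nat_lit 125) (nat_lit 126) = true := by decide +kernel
def p14_18_1_126 : pfC (piC [(nat_lit 38632330), (nat_lit 24534081), (nat_lit 15702173)] (nat_lit 11116977)) p14_18_1 (nat_lit 3) (nat_lit 126) (nat_lit 127) = true := by decide +kernel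
def p14_18_1_127 : pfC (piC [(nat_lit 38632330), (nat_lit 24534081), (nat_lit 15702173)] (nat_lit 11116977)) p14_18_1 (nat_lit 3) (nat_lit 127) (nat_lit 128) = true := by decide +kernel
def p14_18_1_128 : pfC (piC [(nat_lit 38632330), (nat_lit 24534081), (nat_lit 15702173)] (nat_lit 11116977)) p14_18_1 (nat_lit 3) (nat_lit 128) (nat_lit 129) = true := by decide +kernel
def p14_18_1_129 : pfC (piC [(nat_lit 38632330), (nat_lit 24534081), (nat_lit 15702173)] (nat_lit 11116977)) p14_18_1 (nat_lit 3) (nat_lit 129) (nat_lit 130) = true := by decide +kernel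
def p14_18_1_130 : pfC (piC [(nat_lit 38632330), (nat_lit 24534081), (nat_lit 15702173)] (nat_lit 11116977)) p14_18_1 (nat_lit 3) (nat_lit 130) (nat_lit 131) = true := by decide +kernel
def p14_18_1_131 : pfC (piC [(nat_lit 38632330), (nat_lit 24534081), (nat_lit 15702173)] (nat_lit 11116977)) p14_18_1 (nat_lit 3) (nat_lit 131) (nat_lit 132) = true := by decide +kernel
def p14_18_1_132 : pfC (piC [(nat_lit 38632330), (nat_lit 24534081), (nat_lit 15702173)] (nat_lit 11116977)) p14_18_1 (nat_lit 3) (nat_lit 132) (nat_lit 133) = true := by decide +kernel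
def p14_18_1_133 : pfC (piC [(nat_lit 38632330), (nat_lit 24534081), (nat_lit 15702173)] (nat_lit 11116977)) p14_18_1 (nat_lit 3) (nat_lit 133) (nat_lit 134) = true := by decide +kernel
def p14_18_1_134 : pfC (piC [(nat_lit 38632330), (nat_lit 24534081), (nat_lit 15702173)] (nat_lit 11116977)) p14_18_1 (nat_lit 3) (nat_lit 134) (nat_lit 135) = true := by decide +kernel
def p14_18_1_135 : pfC (piC [(nat_lit 38632330), (nat_lit 24534081), (nat_lit 15702173)] (nat_lit 11116977)) p14_18_1 (nat_lit 3) (nat_lit 135) (nat_lit 136) = true := by decide +kernel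
def p14_18_1_136 : pfC (piC [(nat_lit 38632330), (nat_lit 24534081), (nat_lit 15702173)] (nat_lit 11116977)) p14_18_1 (nat_lit 3) (nat_lit 136) (nat_lit 137) = true := by decide +kernel
def p14_18_1_137 : pfC (piC [(nat_lit 38632330), (nat_lit 24534081), (nat_lit 15702173)] (nat_lit 11116977)) p14_18_1 (nat_lit 3) (nat_lit 137) (nat_lit 138) = true := by decide +kernel
def p14_18_1_138 : pfC (piC [(nat_lit 38632330), (nat_lit 24534081), (nat_lit 15702173)] (nat_lit 11116977)) p14_18_1 (nat_lit 3) (nat_lit 138) (nat_lit 139) = true := by decide +kernel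
def p14_18_1_139 : pfC (piC [(nat_lit 38632330), (nat_lit 24534081), (nat_lit 15702173)] (nat_lit 11116977)) p14_18_1 (nat_lit 3) (nat_lit 139) (nat_lit 140) = true := by decide +kernel
def p14_18_1_140 : pfC (piC [(nat_lit 38632330), (nat_lit 24534081), (nat_lit 15702173)] (nat_lit 11116977)) p14_18_1 (nat_lit 3) (nat_lit 140) (nat_lit 141) = true := by decide +kernel
def p14_18_1_141 : pfC (piC [(nat_lit 38632330), (nat_lit 24534081), (nat_lit 15702173)] (nat_lit 11116977)) p14_18_1 (nat_lit 3) (nat_lit 141) (nat_lit 142) = true := by decide +kernel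
def p14_18_1_142 : pfC (piC [(nat_lit 38632330), (nat_lit 24534081), (nat_lit 15702173)] (nat_lit 11116977)) p14_18_1 (nat_lit 3) (nat_lit 142) (nat_lit 143) = true := by decide +kernel
def p14_18_1_143 : pfC (piC [(nat_lit 38632330), (nat_lit 24534081), (nat_lit 15702173)] (nat_lit 11116977)) p14_18_1 (nat_lit 3) (nat_lit 143) (nat_lit 144) = true := by decide +kernel
def p14_18_1_144 : pfC (piC [(nat_lit 38632330), (nat_lit 24534081), (nat_lit 15702173)] (nat_lit 11116977)) p14_18_1 (nat_lit 3) (nat_lit 144) (nat_lit 145) = true := by decide +kernel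
def p14_18_1_145 : pfC (piC [(nat_lit 38632330), (nat_lit 24534081), (nat_lit 15702173)] (nat_lit 11116977)) p14_18_1 (nat_lit 3) (nat_lit 145) (nat_lit 146) = true := by decide +kernel
def p14_18_1_146 : pfC (piC [(nat_lit 38632330), (nat_lit 24534081), (nat_lit 15702173)] (nat_lit 11116977)) p14_18_1 (nat_lit 3) (nat_lit 146) (nat_lit 147) = true := by decide +kernel
def p14_18_1_147 : pfC (piC [(nat_lit 38632330), (nat_lit 24534081), (nat_lit 15702173)] (nat_lit 11116977)) p14_18_1 (nat_lit 3) (nat_lit 147) (nat_lit 148) = true := by decide +kernel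
def p14_18_1_148 : pfC (piC [(nat_lit 38632330), (nat_lit 24534081), (nat_lit 15702173)] (nat_lit 11116977)) p14_18_1 (nat_lit 3) (nat_lit 148) (nat_lit 149) = true := by decide +kernel
def p14_18_1_149 : pfC (piC [(nat_lit 38632330), (nat_lit 24534081), (nat_lit 15702173)] (nat_lit 11116977)) p14_18_1 (nat_lit 3) (nat_lit 149) (nat_lit 150) = true := by decide +kernel
def p14_18_1_150 : pfC (piC [(nat_lit 38632330), (nat_lit 24534081), (nat_lit 15702173)] (nat_lit 11116977)) p14_18_1 (nat_lit 3) (nat_lit 150) (nat_lit 151) = true := by decide +kernel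
def p14_18_1_151 : pfC (piC [(nat_lit 38632330), (nat_lit 24534081), (nat_lit 15702173)] (nat_lit 11116977)) p14_18_1 (nat_lit 3) (nat_lit 151) (nat_lit 152) = true := by decide +kernel
def p14_18_1_152 : pfC (piC [(nat_lit 38632330), (nat_lit 24534081), (nat_lit 15702173)] (nat_lit 11116977)) p14_18_1 (nat_lit 3) (nat_lit 152) (nat_lit 153) = true := by decide +kernel
def p14_18_1_153 : pfC (piC [(nat_lit 38632330), (nat_lit 24534081), (nat_lit 15702173)] (nat_lit 11116977)) p14_18_1 (nat_lit 3) (nat_lit 153) (nat_lit 154) = true := by decide +kernel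
def p14_18_1_154 : pfC (piC [(nat_lit 38632330), (nat_lit 24534081), (nat_lit 15702173)] (nat_lit 11116977)) p14_18_1 (nat_lit 3) (nat_lit 154) (nat_lit 155) = true := by decide +kernel
def p14_18_1_155 : pfC (piC [(nat_lit 38632330), (nat_lit 24534081), (nat_lit 15702173)] (nat_lit 11116977)) p14_18_1 (nat_lit 3) (nat_lit 155) (nat_lit 156) = true := by decide +kernel
def p14_18_1_156 : pfC (piC [(nat_lit 38632330), (nat_lit 24534081), (nat_lit 15702173)] (nat_lit 11116977)) p14_18_1 (nat_lit 3) (nat_lit 156) (nat_lit 157) = true := by decide +kernel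
def p14_18_1_157 : pfC (piC [(nat_lit 38632330), (nat_lit 24534081), (nat_lit 15702173)] (nat_lit 11116977)) p14_18_1 (nat_lit 3) (nat_lit 157) (nat_lit 158) = true := by decide +kernel
def p14_18_1_158 : pfC (piC [(nat_lit 38632330), (nat_lit 24534081), (nat_lit 15702173)] (nat_lit 11116977)) p14_18_1 (nat_lit 3) (nat_lit 158) (nat_lit 159) = true := by decide +kernel
def p14_18_1_159 : pfC (piC [(nat_lit 38632330), (nat_lit 24534081), (nat_lit 15702173)] (nat_lit 11116977)) p14_18_1 (nat_lit 3) (nat_lit 159) (nat_lit 160) = true := by decide +kernel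
def p14_18_1_160 : pfC (piC [(nat_lit 38632330), (nat_lit 24534081), (nat_lit 15702173)] (nat_lit 11116977)) p14_18_1 (nat_lit 3) (nat_lit 160) (nat_lit 161) = true := by decide +kernel
def p14_18_1_161 : pfC (piC [(nat_lit 38632330), (nat_lit 24534081), (nat_lit 15702173)] (nat_lit 11116977)) p14_18_1 (nat_lit 3) (nat_lit 161) (nat_lit 162) = true := by decide +kernel
def p14_18_1_162 : pfC (piC [(nat_lit 38632330), (nat_lit 24534081), (nat_lit 15702173)] (nat_lit 11116977)) p14_18_1 (nat_lit 3) (nat_lit 162) (nat_lit 163) = true := by decide +kernel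
def p14_18_1_163 : pfC (piC [(nat_lit 38632330), (nat_lit 24534081), (nat_lit 15702173)] (nat_lit 11116977)) p14_18_1 (nat_lit 3) (nat_lit 163) (nat_lit 164) = true := by decide +kernel
def p14_18_1_164 : pfC (piC [(nat_lit 38632330), (nat_lit 24534081), (nat_lit 15702173)] (nat_lit 11116977)) p14_18_1 (nat_lit 3) (nat_lit 164) (nat_lit 165) = true := by decide +kernel
def p14_18_1_165 : pfC (piC [(nat_lit 38632330), (nat_lit 24534081), (nat_lit 15702173)] (nat_lit 11116977)) p14_18_1 (nat_lit 3) (nat_lit 165) (nat_lit 166) = true := by decide +kernel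
def p14_18_1_166 : pfC (piC [(nat_lit 38632330), (nat_lit 24534081), (nat_lit 15702173)] (nat_lit 11116977)) p14_18_1 (nat_lit 3) (nat_lit 166) (nat_lit 167) = true := by decide +kernel
def p14_18_1_167 : pfC (piC [(nat_lit 38632330), (nat_lit 24534081), (nat_lit 15702173)] (nat_lit 11116977)) p14_18_1 (nat_lit 3) (nat_lit 167) (nat_lit 168) = true := by decide +kernel
def p14_18_1_168 : pfC (piC [(nat_lit 38632330), (nat_lit 24534081), (nat_lit 15702173)] (nat_lit 11116977)) p14_18_1 (nat_lit 3) (nat_lit 168) (nat_lit 169) = true := by decide +kernel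
def p14_18_1_169 : pfC (piC [(nat_lit 38632330), (nat_lit 24534081), (nat_lit 15702173)] (nat_lit 11116977)) p14_18_1 (nat_lit 3) (nat_lit 169) (nat_lit 170) = true := by decide +kernel
theorem p14_18_1_T : PfS (PiF n14_18.reverse (nat_lit 11116977)) p14_18_1 (nat_lit 3) [] 0 :=
  pftab_of (los := [(nat_lit 38632330), (nat_lit 24534081), (nat_lit 15702173)]) (by decide +kernel) (hi := (nat_lit 170)) (PfP.trans (PfP.trans (PfP.trans (PfP.trans (PfP.trans (PfP.trans (PfP.trans (PfP.trans (PfP.trans (PfP.trans (PfP.trans (PfP.trans (PfP.trans (PfP.trans (PfP.trans (PfP.trans (PfP.trans (PfP.trans (PfP.trans (PfP.trans (PfP.trans (PfP.trans (PfP.trans (PfP.trans (PfP.trans (PfP.trans (PfP.trans (PfP.trans (PfP.trans (PfP.trans (PfP.trans (PfP.trans (PfP.trans (PfP.trans (PfP.trans (PfP.trans (PfP.trans (PfP.trans (PfP.trans (PfP.trans (PfP.trans (PfP.trans (PfP.trans (PfP.trans (PfP.trans (PfP.trans (PfP.trans (PfP.trans (PfP.trans (PfP.trans (PfP.trans (PfP.trans (PfP.trans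 (PfP.trans (PfP.trans (PfP.trans (PfP.trans (PfP.trans (PfP.trans (PfP.trans (PfP.trans (PfP.trans (PfP.trans (PfP.trans (PfP.trans (PfP.trans (PfP.trans (PfP.trans (PfP.trans (PfP.trans (PfP.trans (PfP.trans (PfP.trans (PfP.trans (PfP.trans (PfP.trans (PfP.trans (PfP.trans (PfP.trans (PfP.trans (PfP.trans (PfP.trans (PfP.trans (PfP.trans (PfP.trans (PfP.trans (PfP.trans (PfP.trans (PfP.trans (PfP.trans (PfP.trans (PfP.trans (PfP.trans (PfP.trans (PfP.trans (PfP.trans (PfP.trans (PfP.trans (PfP.trans (PfP.trans (PfP.trans (PfP.trans (PfP.trans (PfP.trans (PfP.trans (PfP.trans (PfP.trans (PfP.trans (PfP.trans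
 (PfP.trans (PfP.trans (PfP.trans (PfP.trans (PfP.trans (PfP.trans (PfP.trans (PfP.trans (PfP.trans (PfP.trans (PfP.trans (PfP.trans (PfP.trans (PfP.trans (PfP.trans (PfP.trans (PfP.trans (PfP.trans (PfP.trans (PfP.trans (PfP.trans (PfP.trans (PfP.trans (PfP.trans (PfP.trans (PfP.trans (PfP.trans (PfP.trans (PfP.trans (PfP.trans (PfP.trans (PfP.trans (PfP.trans (PfP.trans (PfP.trans (PfP.trans (PfP.trans (PfP.trans (PfP.trans (PfP.trans (PfP.trans (PfP.trans (PfP.trans (PfP.trans (PfP.trans (PfP.trans (PfP.trans (PfP.trans (PfP.trans (PfP.trans (PfP.trans (PfP.trans (PfP.trans (PfP.trans (PfP.trans (PfP.trans (PfP.trans (PfP.trans (PfP.trans (PfP.trans (pfC_sound p14_18_1_0) (pfC_sound p14_18_1_1)) (pfC_sound p14_18_1_2)) (pfC_sound p14_18_1_3)) (pfC_sound p14_18_1_4)) (pfC_sound p14_18_1_5)) (pfC_sound p14_18_1_6)) (pfC_sound p14_18_1_7)) (pfC_sound p14_18_1_8)) (pfC_sound p14_18_1_9)) (pfC_sound p14_18_1_10)) (pfC_sound p14_18_1_11)) (pfC_sound p14_18_1_12)) (pfC_sound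 p14_18_1_13)) (pfC_sound p14_18_1_14)) (pfC_sound p14_18_1_15)) (pfC_sound p14_18_1_16)) (pfC_sound p14_18_1_17)) (pfC_sound p14_18_1_18)) (pfC_sound p14_18_1_19)) (pfC_sound p14_18_1_20)) (pfC_sound p14_18_1_21))
 (pfC_sound p14_18_1_22)) (pfC_sound p14_18_1_23)) (pfC_sound p14_18_1_24)) (pfC_sound p14_18_1_25)) (pfC_sound p14_18_1_26)) (pfC_sound p14_18_1_27)) (pfC_sound p14_18_1_28)) (pfC_sound p14_18_1_29)) (pfC_sound p14_18_1_30)) (pfC_sound p14_18_1_31)) (pfC_sound p14_18_1_32)) (pfC_sound p14_18_1_33)) (pfC_sound p14_18_1_34)) (pfC_sound p14_18_1_35)) (pfC_sound p14_18_1_36)) (pfC_sound p14_18_1_37)) (pfC_sound p14_18_1_38)) (pfC_sound p14_18_1_39)) (pfC_sound p14_18_1_40)) (pfC_sound p14_18_1_41)) (pfC_sound p14_18_1_42)) (pfC_sound p14_18_1_43)) (pfC_sound p14_18_1_44)) (pfC_sound p14_18_1_45)) (pfC_sound p14_18_1_46)) (pfC_sound p14_18_1_47)) (pfC_sound p14_18_1_48)) (pfC_sound p14_18_1_49)) (pfC_sound p14_18_1_50)) (pfC_sound p14_18_1_51)) (pfC_sound p14_18_1_52))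 (pfC_sound p14_18_1_53)) (pfC_sound p14_18_1_54)) (pfC_sound p14_18_1_55)) (pfC_sound p14_18_1_56)) (pfC_sound p14_18_1_57)) (pfC_sound p14_18_1_58)) (pfC_sound p14_18_1_59)) (pfC_sound p14_18_1_60)) (pfC_sound p14_18_1_61)) (pfC_sound p14_18_1_62)) (pfC_sound p14_18_1_63)) (pfC_sound p14_18_1_64)) (pfC_sound p14_18_1_65)) (pfC_sound p14_18_1_66)) (pfC_sound p14_18_1_67)) (pfC_sound p14_18_1_68)) (pfC_sound p14_18_1_69))
 (pfC_sound p14_18_1_70)) (pfC_sound p14_18_1_71)) (pfC_sound p14_18_1_72)) (pfC_sound p14_18_1_73)) (pfC_sound p14_18_1_74)) (pfC_sound p14_18_1_75)) (pfC_sound p14_18_1_76)) (pfC_sound p14_18_1_77)) (pfC_sound p14_18_1_78)) (pfC_sound p14_18_1_79)) (pfC_sound p14_18_1_80)) (pfC_sound p14_18_1_81)) (pfC_sound p14_18_1_82)) (pfC_sound p14_18_1_83)) (pfC_sound p14_18_1_84)) (pfC_sound p14_18_1_85)) (pfC_sound p14_18_1_86)) (pfC_sound p14_18_1_87)) (pfC_sound p14_18_1_88)) (pfC_sound p14_18_1_89)) (pfC_sound p14_18_1_90)) (pfC_sound p14_18_1_91)) (pfC_sound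 p14_18_1_92)) (pfC_sound p14_18_1_93)) (pfC_sound p14_18_1_94)) (pfC_sound p14_18_1_95)) (pfC_sound p14_18_1_96)) (pfC_sound p14_18_1_97)) (pfC_sound p14_18_1_98)) (pfC_sound p14_18_1_99)) (pfC_sound p14_18_1_100)) (pfC_sound p14_18_1_101)) (pfC_sound p14_18_1_102)) (pfC_sound p14_18_1_103)) (pfC_sound p14_18_1_104)) (pfC_sound p14_18_1_105)) (pfC_sound p14_18_1_106)) (pfC_sound p14_18_1_107)) (pfC_sound p14_18_1_108)) (pfC_sound p14_18_1_109)) (pfC_sound p14_18_1_110)) (pfC_sound p14_18_1_111)) (pfC_sound p14_18_1_112)) (pfC_sound p14_18_1_113)) (pfC_sound p14_18_1_114)) (pfC_sound p14_18_1_115)) (pfC_sound p14_18_1_116))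
 (pfC_sound p14_18_1_117)) (pfC_sound p14_18_1_118)) (pfC_sound p14_18_1_119)) (pfC_sound p14_18_1_120)) (pfC_sound p14_18_1_121)) (pfC_sound p14_18_1_122)) (pfC_sound p14_18_1_123)) (pfC_sound p14_18_1_124)) (pfC_sound p14_18_1_125)) (pfC_sound p14_18_1_126)) (pfC_sound p14_18_1_127)) (pfC_sound p14_18_1_128)) (pfC_sound p14_18_1_129)) (pfC_sound p14_18_1_130)) (pfC_sound p14_18_1_131)) (pfC_sound p14_18_1_132)) (pfC_sound p14_18_1_133)) (pfC_sound p14_18_1_134)) (pfC_sound p14_18_1_135)) (pfC_sound p14_18_1_136)) (pfC_sound p14_18_1_137)) (pfC_sound p14_18_1_138)) (pfC_sound p14_18_1_139)) (pfC_sound p14_18_1_140)) (pfC_sound p14_18_1_141)) (pfC_sound p14_18_1_142)) (pfC_sound p14_18_1_143)) (pfC_sound p14_18_1_144)) (pfC_sound p14_18_1_145)) (pfC_sound p14_18_1_146)) (pfC_sound p14_18_1_147)) (pfC_sound p14_18_1_148)) (pfC_sound p14_18_1_149)) (pfC_sound p14_18_1_150)) (pfC_sound p14_18_1_151)) (pfC_sound p14_18_1_152)) (pfC_sound p14_18_1_153)) (pfC_sound p14_18_1_154))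 (pfC_sound p14_18_1_155)) (pfC_sound p14_18_1_156)) (pfC_sound p14_18_1_157)) (pfC_sound p14_18_1_158)) (pfC_sound p14_18_1_159)) (pfC_sound p14_18_1_160)) (pfC_sound p14_18_1_161)) (pfC_sound p14_18_1_162))
 (pfC_sound p14_18_1_163)) (pfC_sound p14_18_1_164)) (pfC_sound p14_18_1_165)) (pfC_sound p14_18_1_166)) (pfC_sound p14_18_1_167)) (pfC_sound p14_18_1_168)) (pfC_sound p14_18_1_169)) (by decide +kernel)

def z14_18_1 : zOK yB14_18 (nat_lit 1) (nat_lit 400) (nat_lit 600) (nat_lit 11116977) (nat_lit 7113113) = true := by decide +kernel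
def g14_18_1 : gOK yB14_18.x P14_18 (nat_lit 1390) (q14_18 :: r14_18) (nat_lit 1) (nat_lit 400) (nat_lit 2) (nat_lit 600) (nat_lit 11000000) (nat_lit 17850000) (nat_lit 12712500) (nat_lit 12712500) [(nat_lit 800), (nat_lit 1600)] = true := by decide +kernel
def v14_18_1 : ivC P14_18 s14_18 w14_18 n14_18 (nat_lit 3) (nat_lit 4900) (nat_lit 1) (nat_lit 400) f176_0_400 f184_0_400 (nat_lit 2) (nat_lit 600) f176_0_600 f184_0_600 (nat_lit 11116977) (nat_lit 7113113) p14_18_1 = true := by decide +kernel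
def p14_18_2 : PF := (PF.cons (PF.cons (PF.cons (PF.leaf (nat_lit 2602900) (nat_lit 14432225) (nat_lit 52676587) (nat_lit 14432225) [(nat_lit 0), (nat_lit 0), (nat_lit 0)]) (PF.cons (PF.leaf (nat_lit 2780303) (nat_lit 314450) (nat_lit 52371113) (nat_lit 14423248) [(nat_lit 314450), (nat_lit 0), (nat_lit 0)]) (PF.cons (PF.leaf (nat_lit 2989561) (nat_lit 341613) (nat_lit 52014615) (nat_lit 14410971) [(nat_lit 341613), (nat_lit 0), (nat_lit 0)]) (PF.cons (PF.leaf (nat_lit 3224142) (nat_lit 365582) (nat_lit 51616993) (nat_lit 14395071) [(nat_lit 365582), (nat_lit 0), (nat_lit 0)]) (PF.cons (PF.leaf (nat_lit 3480219) (nat_lit 387057) (nat_lit 51185327) (nat_lit 14375256) [(nat_lit 387057), (nat_lit 0), (nat_lit 0)]) (PF.cons (PF.leaf (nat_lit 3754825) (nat_lit 406482) (nat_lit 50725109) (nat_lit 14351289) [(nat_lit 406482), (nat_lit 0), (nat_lit 0)]) (PF.cons (PF.leaf (nat_lit 4045575) (nat_lit 424165) (nat_lit 50240825) (nat_lit 14322994) [(nat_lit 424165), (nat_lit 0),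 (nat_lit 0)]) (PF.cons (PF.leaf (nat_lit 4350438) (nat_lit 440328) (nat_lit 49736259) (nat_lit 14290254) [(nat_lit 440328), (nat_lit 0), (nat_lit 0)]) (PF.cons (PF.leaf (nat_lit 4667641) (nat_lit 455140) (nat_lit 49214680) (nat_lit
 14253010) [(nat_lit 455140), (nat_lit 0), (nat_lit 0)]) (PF.cons (PF.leaf (nat_lit 4995598) (nat_lit 468734) (nat_lit 48678951) (nat_lit 14211254) [(nat_lit 468734), (nat_lit 0), (nat_lit 0)]) (PF.cons (PF.leaf (nat_lit 5332901) (nat_lit 481217) (nat_lit 48131607) (nat_lit 14165026) [(nat_lit 481217), (nat_lit 0), (nat_lit 0)]) (PF.cons (PF.leaf (nat_lit 5678298) (nat_lit 492681) (nat_lit 47574910) (nat_lit 14114403) [(nat_lit 492681), (nat_lit 0), (nat_lit 0)]) (PF.cons (PF.leaf (nat_lit 6030626) (nat_lit 503202) (nat_lit 47010883) (nat_lit 14059500) [(nat_lit 503202), (nat_lit 0), (nat_lit 0)]) (PF.cons (PF.leaf (nat_lit 6388802) (nat_lit 512846) (nat_lit 46441345) (nat_lit 14000457) [(nat_lit 512846), (nat_lit 0), (nat_lit 0)]) (PF.cons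 (PF.leaf (nat_lit 6751876) (nat_lit 521674) (nat_lit 45867931) (nat_lit 13937440) [(nat_lit 521674), (nat_lit 0), (nat_lit 0)]) (PF.cons PF.nil (PF.cons PF.nil (PF.cons PF.nil PF.nil)))))))))))))))))) (PF.cons (PF.cons (PF.leaf (nat_lit 3297006) (nat_lit 1757657) (nat_lit 50994509) (nat_lit 14356646) [(nat_lit 0), (nat_lit 1757657), (nat_lit 0)]) (PF.cons (PF.leaf (nat_lit 3526996) (nat_lit 382584) (nat_lit 50598871) (nat_lit 14335169) [(nat_lit
 382584), (nat_lit 1792188), (nat_lit 0)]) (PF.cons (PF.leaf (nat_lit 3780337) (nat_lit 402801) (nat_lit 50167889) (nat_lit 14309414) [(nat_lit 402801), (nat_lit 1825905), (nat_lit 0)]) (PF.cons (PF.leaf (nat_lit 4052603) (nat_lit 420965) (nat_lit 49708410) (nat_lit 14279315) [(nat_lit 420965), (nat_lit 1858189), (nat_lit 0)]) (PF.cons (PF.leaf (nat_lit 4341024) (nat_lit 437426) (nat_lit 49225578) (nat_lit 14244822) [(nat_lit 437426), (nat_lit 1888707), (nat_lit 0)]) (PF.cons (PF.leaf (nat_lit 4643351) (nat_lit 452420) (nat_lit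 48723503) (nat_lit 14205916) [(nat_lit 452420), (nat_lit 1917289), (nat_lit 0)]) (PF.cons (PF.leaf (nat_lit 4957689) (nat_lit 466123) (nat_lit 48205593) (nat_lit 14162616) [(nat_lit 466123), (nat_lit 1943859), (nat_lit 0)]) (PF.cons (PF.leaf (nat_lit 5282461) (nat_lit 478668) (nat_lit 47674754) (nat_lit 14114976) [(nat_lit 478668), (nat_lit 1968398), (nat_lit 0)]) (PF.cons (PF.leaf (nat_lit 5616177) (nat_lit 490162) (nat_lit 47133505) (nat_lit 14063084) [(nat_lit 490162), (nat_lit 1990924), (nat_lit 0)]) (PF.cons (PF.leaf (nat_lit 5957604) (nat_lit 500691) (nat_lit 46584053) (nat_lit 14007056) [(nat_lit 500691), (nat_lit 2011475), (nat_lit 0)]) (PF.cons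
 (PF.leaf (nat_lit 6305583) (nat_lit 510331) (nat_lit 46028351) (nat_lit 13947036) [(nat_lit 510331), (nat_lit 2030109), (nat_lit 0)]) (PF.cons (PF.leaf (nat_lit 6659064) (nat_lit 519145) (nat_lit 45468134) (nat_lit 13883184) [(nat_lit 519145), (nat_lit 2046888), (nat_lit 0)]) (PF.cons (PF.leaf (nat_lit 7017112) (nat_lit 527191) (nat_lit 44904948) (nat_lit 13815681) [(nat_lit 527191), (nat_lit 2061883), (nat_lit 0)]) (PF.cons PF.nil (PF.cons PF.nil (PF.cons PF.nil PF.nil)))))))))))))))) (PF.cons (PF.cons (PF.leaf (nat_lit 4081337) (nat_lit 1870966) (nat_lit 49137433) (nat_lit 14229446) [(nat_lit 0), (nat_lit 1870966), (nat_lit 0)]) (PF.cons (PF.leaf (nat_lit 4348371) (nat_lit 432795) (nat_lit 48685169) (nat_lit 14194090) [(nat_lit 432795), (nat_lit 1898378), (nat_lit 0)]) (PF.cons (PF.leaf (nat_lit 4632732) (nat_lit 448362) (nat_lit 48208915) (nat_lit 14154227) [(nat_lit 448362), (nat_lit 1924472), (nat_lit 0)]) (PF.cons (PF.leaf (nat_lit 4931224) (nat_lit 462446)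 (nat_lit 47713518) (nat_lit 14109959) [(nat_lit 462446), (nat_lit 1948998), (nat_lit 0)]) (PF.cons (PF.leaf (nat_lit 5241716) (nat_lit 475249) (nat_lit 47202770) (nat_lit 14061390) [(nat_lit 475249), (nat_lit 1971826),
 (nat_lit 0)]) (PF.cons (PF.leaf (nat_lit 5562467) (nat_lit 486920) (nat_lit 46679769) (nat_lit 14008641) [(nat_lit 486920), (nat_lit 1992899), (nat_lit 0)]) (PF.cons (PF.leaf (nat_lit 5891961) (nat_lit 497572) (nat_lit 46147119) (nat_lit 13951845) [(nat_lit 497572), (nat_lit 2012205), (nat_lit 0)]) (PF.cons (PF.leaf (nat_lit 6228897) (nat_lit 507297) (nat_lit 45607049) (nat_lit 13891157) [(nat_lit 507297), (nat_lit 2029761), (nat_lit 0)]) (PF.cons (PF.leaf (nat_lit 6572131) (nat_lit 516170) (nat_lit 45061492) (nat_lit 13826745) [(nat_lit 516170), (nat_lit 2045603), (nat_lit 0)]) (PF.cons (PF.leaf (nat_lit 6920597) (nat_lit 524257) (nat_lit 44512145) (nat_lit 13758789) [(nat_lit 524257), (nat_lit 2059780), (nat_lit 0)]) (PF.cons (PF.leaf (nat_lit 7273395)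 (nat_lit 531613) (nat_lit 43960497) (nat_lit 13687480) [(nat_lit 531613), (nat_lit 2072349), (nat_lit 0)]) (PF.cons PF.nil (PF.cons PF.nil (PF.cons PF.nil PF.nil)))))))))))))) (PF.cons (PF.cons (PF.leaf (nat_lit 4922290) (nat_lit 1954295) (nat_lit 47193774) (nat_lit 14052152) [(nat_lit 0), (nat_lit 1954295), (nat_lit 0)]) (PF.cons (PF.leaf (nat_lit 5214964) (nat_lit 470600) (nat_lit 46709099) (nat_lit 14003404) [(nat_lit 470600),
 (nat_lit 1975236), (nat_lit 0)]) (PF.cons (PF.leaf (nat_lit 5520438) (nat_lit 482696) (nat_lit 46208762) (nat_lit 13950396) [(nat_lit 482696), (nat_lit 1994753), (nat_lit 0)]) (PF.cons (PF.leaf (nat_lit 5836309) (nat_lit 493652) (nat_lit 45696268) (nat_lit 13893325) [(nat_lit 493652), (nat_lit 2012753), (nat_lit 0)]) (PF.cons (PF.leaf (nat_lit 6160902) (nat_lit 503598) (nat_lit 45174437) (nat_lit 13832383) [(nat_lit 503598), (nat_lit 2029199), (nat_lit 0)]) (PF.cons (PF.leaf (nat_lit 6492839) (nat_lit 512635) (nat_lit 44645606) (nat_lit 13767760)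 [(nat_lit 512635), (nat_lit 2044089), (nat_lit 0)]) (PF.cons (PF.leaf (nat_lit 6830918) (nat_lit 520845) (nat_lit 44111753) (nat_lit 13699653) [(nat_lit 520845), (nat_lit 2057443), (nat_lit 0)]) (PF.cons (PF.leaf (nat_lit 7174089) (nat_lit 528297) (nat_lit 43574578) (nat_lit 13628261) [(nat_lit 528297), (nat_lit 2069297), (nat_lit 0)]) (PF.cons (PF.leaf (nat_lit 7521403) (nat_lit 535047) (nat_lit 43035552) (nat_lit 13553786) [(nat_lit 535047), (nat_lit 2079698), (nat_lit 0)]) (PF.cons (PF.leaf (nat_lit 7872019) (nat_lit 541147) (nat_lit 42495960) (nat_lit 13476432) [(nat_lit 541147), (nat_lit 2088697), (nat_lit 0)]) (PF.cons PF.nil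
 (PF.cons PF.nil PF.nil)))))))))))) (PF.cons (PF.cons (PF.leaf (nat_lit 5795148) (nat_lit 2013241) (nat_lit 45225254) (nat_lit 13830593) [(nat_lit 0), (nat_lit 2013241), (nat_lit 0)]) (PF.cons (PF.leaf (nat_lit 6104734) (nat_lit 498988) (nat_lit 44725816) (nat_lit 13770009) [(nat_lit 498988), (nat_lit 2028499), (nat_lit 0)]) (PF.cons (PF.leaf (nat_lit 6423675) (nat_lit 508357) (nat_lit 44216852) (nat_lit 13705673) [(nat_lit 508357), (nat_lit 2042393), (nat_lit 0)]) (PF.cons (PF.leaf (nat_lit 6750033) (nat_lit 516817) (nat_lit 43700928) (nat_lit 13637824) [(nat_lit 516817), (nat_lit 2054901), (nat_lit 0)]) (PF.cons (PF.leaf (nat_lit 7082531) (nat_lit 524461) (nat_lit 43180144) (nat_lit 13566692) [(nat_lit 524461), (nat_lit 2066032), (nat_lit 0)]) (PF.cons (PF.leaf (nat_lit 7420062) (nat_lit 531363) (nat_lit 42656258) (nat_lit 13492497) [(nat_lit 531363), (nat_lit 2075810), (nat_lit 0)]) (PF.cons (PF.leaf (nat_lit 7761675) (nat_lit 537584) (nat_lit 42130762) (nat_lit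 13415455) [(nat_lit 537584), (nat_lit 2084271), (nat_lit 0)]) (PF.cons (PF.leaf (nat_lit 8106508) (nat_lit 543178) (nat_lit 41604936) (nat_lit 13335776) [(nat_lit 543178), (nat_lit 2091461), (nat_lit 0)]) (PF.cons PF.nil
 (PF.cons PF.nil PF.nil)))))))))) (PF.cons (PF.cons (PF.leaf (nat_lit 6681378) (nat_lit 2052202) (nat_lit 43275215) (nat_lit 13572583) [(nat_lit 0), (nat_lit 2052202), (nat_lit 0)]) (PF.cons (PF.leaf (nat_lit 7001178) (nat_lit 519933) (nat_lit 42773768) (nat_lit 13502205) [(nat_lit 519933), (nat_lit 2062581), (nat_lit 0)]) (PF.cons (PF.leaf (nat_lit 7327623) (nat_lit 527104) (nat_lit 42267293) (nat_lit 13428694) [(nat_lit 527104), (nat_lit 2071723), (nat_lit 0)]) (PF.cons (PF.leaf (nat_lit 7659178) (nat_lit 533538) (nat_lit 41757680) (nat_lit 13352298) [(nat_lit 533538), (nat_lit 2079643), (nat_lit 0)]) (PF.cons (PF.leaf (nat_lit 7994822) (nat_lit 539303) (nat_lit 41246489) (nat_lit 13273251) [(nat_lit 539303), (nat_lit 2086371), (nat_lit 0)]) (PF.cons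 (PF.leaf (nat_lit 8333696) (nat_lit 544457) (nat_lit 40735035) (nat_lit 13191775) [(nat_lit 544457), (nat_lit 2091942), (nat_lit 0)]) (PF.cons PF.nil (PF.cons PF.nil PF.nil)))))))) (PF.cons (PF.cons (PF.leaf (nat_lit 7567181) (nat_lit 2074824) (nat_lit 41373474) (nat_lit 13286390) [(nat_lit 0), (nat_lit 2074824), (nat_lit 0)]) (PF.cons (PF.leaf (nat_lit 7892044) (nat_lit 534891) (nat_lit 40879044) (nat_lit 13208370) [(nat_lit
 534891), (nat_lit 2081084), (nat_lit 0)]) (PF.cons (PF.leaf (nat_lit 8221450) (nat_lit 540271) (nat_lit 40382849) (nat_lit 13127851) [(nat_lit 540271), (nat_lit 2086261), (nat_lit 0)]) (PF.cons (PF.leaf (nat_lit 8554168) (nat_lit 545048) (nat_lit 39886279) (nat_lit 13045069) [(nat_lit 545048), (nat_lit 2090386), (nat_lit 0)]) (PF.cons PF.nil (PF.cons PF.nil PF.nil)))))) (PF.cons (PF.cons (PF.leaf (nat_lit 8442482) (nat_lit 2084177) (nat_lit 39539727) (nat_lit 12979840) [(nat_lit 0), (nat_lit 2084177), (nat_lit 0)]) (PF.cons (PF.leaf (nat_lit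 8768510) (nat_lit 545005) (nat_lit 39058506) (nat_lit 12896217) [(nat_lit 545005), (nat_lit 2087012), (nat_lit 0)]) (PF.cons (PF.leaf (nat_lit 9097463) (nat_lit 548920) (nat_lit 38577848) (nat_lit 12810688) [(nat_lit 548920), (nat_lit 2088919), (nat_lit 0)]) (PF.cons PF.nil PF.nil)))) (PF.cons (PF.cons (PF.leaf (nat_lit 9300130) (nat_lit 2082851) (nat_lit 37786135) (nat_lit 12659866) [(nat_lit 0), (nat_lit 2082851), (nat_lit 0)]) (PF.cons PF.nil PF.nil)) (PF.cons PF.nil (PF.cons PF.nil PF.nil))))))))))) (PF.cons (PF.cons (PF.cons (PF.leaf (nat_lit 4271571) (nat_lit 6312734) (nat_lit 46856181) (nat_lit 13939897) [(nat_lit 0), (nat_lit 0),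
 (nat_lit 6312734)]) (PF.cons (PF.leaf (nat_lit 4507845) (nat_lit 410110) (nat_lit 46473508) (nat_lit 13902255) [(nat_lit 410110), (nat_lit 0), (nat_lit 6322939)]) (PF.cons (PF.leaf (nat_lit 4765441) (nat_lit 428382) (nat_lit 46060341) (nat_lit 13859765) [(nat_lit 428382), (nat_lit 0), (nat_lit 6331941)]) (PF.cons (PF.leaf (nat_lit 5039848) (nat_lit 444404) (nat_lit 45623495) (nat_lit 13812797) [(nat_lit 444404), (nat_lit 0), (nat_lit 6339306)]) (PF.cons (PF.leaf (nat_lit 5328188) (nat_lit 458621) (nat_lit 45167956) (nat_lit 13761624) [(nat_lit 458621), (nat_lit 0), (nat_lit 6344746)]) (PF.cons (PF.leaf (nat_lit 5628286) (nat_lit 471334) (nat_lit 44697590) (nat_lit 13706475) [(nat_lit 471334), (nat_lit 0), (nat_lit 6348076)]) (PF.cons (PF.leaf (nat_lit 5938257) (nat_lit 482758) (nat_lit 44215516) (nat_lit 13647562) [(nat_lit 482758), (nat_lit 0), (nat_lit 6349181)]) (PF.cons (PF.leaf (nat_lit 6256644) (nat_lit 493058) (nat_lit 43724315) (nat_lit 13585083) [(nat_lit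 493058), (nat_lit 0), (nat_lit 6348004)]) (PF.cons (PF.leaf (nat_lit 6582093) (nat_lit 502359) (nat_lit 43226168) (nat_lit 13519238) [(nat_lit 502359), (nat_lit 0), (nat_lit 6344528)]) (PF.cons (PF.leaf (nat_lit 6913477)
 (nat_lit 510764) (nat_lit 42722943) (nat_lit 13450221) [(nat_lit 510764), (nat_lit 0), (nat_lit 6338769)]) (PF.cons (PF.leaf (nat_lit 7249784) (nat_lit 518356) (nat_lit 42216253) (nat_lit 13378229) [(nat_lit 518356), (nat_lit 0), (nat_lit 6330766)]) (PF.cons (PF.leaf (nat_lit 7590115) (nat_lit 525206) (nat_lit 41707502) (nat_lit 13303459) [(nat_lit 525206), (nat_lit 0), (nat_lit 6320577)]) (PF.cons PF.nil (PF.cons PF.nil PF.nil)))))))))))))) (PF.cons (PF.cons (PF.leaf (nat_lit 5046764) (nat_lit 1926396) (nat_lit 45102770) (nat_lit 13746386) [(nat_lit 0), (nat_lit 1926396), (nat_lit 6333259)]) (PF.cons (PF.leaf (nat_lit 5313916) (nat_lit 451728) (nat_lit 44678093) (nat_lit 13696486) [(nat_lit 451728), (nat_lit 1946038), (nat_lit 6336465)]) (PF.cons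 (PF.leaf (nat_lit 5596393) (nat_lit 465318) (nat_lit 44233670) (nat_lit 13642260) [(nat_lit 465318), (nat_lit 1964384), (nat_lit 6337861)]) (PF.cons (PF.leaf (nat_lit 5891084) (nat_lit 477373) (nat_lit 43774057) (nat_lit 13584056) [(nat_lit 477373), (nat_lit 1981295), (nat_lit 6337281)]) (PF.cons (PF.leaf (nat_lit 6195893) (nat_lit 488141) (nat_lit 43302737) (nat_lit 13522161) [(nat_lit 488141), (nat_lit 1996715), (nat_lit 6334631)])
 (PF.cons (PF.leaf (nat_lit 6509160) (nat_lit 497799) (nat_lit 42822485) (nat_lit 13456827) [(nat_lit 497799), (nat_lit 2010636), (nat_lit 6329866)]) (PF.cons (PF.leaf (nat_lit 6829492) (nat_lit 506481) (nat_lit 42335578) (nat_lit 13388286) [(nat_lit 506481), (nat_lit 2023079), (nat_lit 6322979)]) (PF.cons (PF.leaf (nat_lit 7155704) (nat_lit 514293) (nat_lit 41843923) (nat_lit 13316760) [(nat_lit 514293), (nat_lit 2034082), (nat_lit 6313991)]) (PF.cons (PF.leaf (nat_lit 7486760) (nat_lit 521321) (nat_lit 41349139) (nat_lit 13242459) [(nat_lit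 521321), (nat_lit 2043694), (nat_lit 6302945)]) (PF.cons (PF.leaf (nat_lit 7821749) (nat_lit 527637) (nat_lit 40852615) (nat_lit 13165589) [(nat_lit 527637), (nat_lit 2051969), (nat_lit 6289900)]) (PF.cons (PF.leaf (nat_lit 8159855) (nat_lit 533301) (nat_lit 40355552) (nat_lit 13086351) [(nat_lit 533301), (nat_lit 2058967), (nat_lit 6274926)]) (PF.cons PF.nil PF.nil)))))))))))) (PF.cons (PF.cons (PF.leaf (nat_lit 5862323) (nat_lit 1980564) (nat_lit 43308047) (nat_lit 13515608) [(nat_lit 0), (nat_lit 1980564), (nat_lit 6324028)]) (PF.cons (PF.leaf (nat_lit 6149954) (nat_lit 481982) (nat_lit 42861995) (nat_lit 13455126) [(nat_lit 481982),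
 (nat_lit 1994838), (nat_lit 6320032)]) (PF.cons (PF.leaf (nat_lit 6448700) (nat_lit 492257) (nat_lit 42403585) (nat_lit 13390944) [(nat_lit 492257), (nat_lit 2007836), (nat_lit 6314095)]) (PF.cons (PF.leaf (nat_lit 6756208) (nat_lit 501405) (nat_lit 41935977) (nat_lit 13323389) [(nat_lit 501405), (nat_lit 2019520), (nat_lit 6306188)]) (PF.cons (PF.leaf (nat_lit 7070937) (nat_lit 509577) (nat_lit 41461659) (nat_lit 13252742) [(nat_lit 509577), (nat_lit 2029892), (nat_lit 6296314)]) (PF.cons (PF.leaf (nat_lit 7391607) (nat_lit 516891) (nat_lit 40982654) (nat_lit 13179253) [(nat_lit 516891), (nat_lit 2038973), (nat_lit 6284500)]) (PF.cons (PF.leaf (nat_lit 7717123) (nat_lit 523437) (nat_lit 40500637) (nat_lit 13103155) [(nat_lit 523437), (nat_lit 2046799), (nat_lit 6270794)]) (PF.cons (PF.leaf (nat_lit 8046577) (nat_lit 529291) (nat_lit 40017022) (nat_lit 13024667) [(nat_lit 529291), (nat_lit 2053414), (nat_lit 6255255)]) (PF.cons (PF.leaf (nat_lit 8379113) (nat_lit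 534514) (nat_lit 39533011) (nat_lit 12943994) [(nat_lit 534514), (nat_lit 2058868), (nat_lit 6237954)]) (PF.cons PF.nil PF.nil)))))))))) (PF.cons (PF.cons (PF.leaf (nat_lit 6697944) (nat_lit 2015856) (nat_lit 41518498)
 (nat_lit 13254560) [(nat_lit 0), (nat_lit 2015856), (nat_lit 6288183)]) (PF.cons (PF.leaf (nat_lit 6998526) (nat_lit 503954) (nat_lit 41065224) (nat_lit 13185428) [(nat_lit 503954), (nat_lit 2025548), (nat_lit 6277559)]) (PF.cons (PF.leaf (nat_lit 7307074) (nat_lit 511726) (nat_lit 40604787) (nat_lit 13113252) [(nat_lit 511726), (nat_lit 2034074), (nat_lit 6265097)]) (PF.cons (PF.leaf (nat_lit 7621787) (nat_lit 518632) (nat_lit 40139427) (nat_lit 13038330) [(nat_lit 518632), (nat_lit 2041440), (nat_lit 6250834)]) (PF.cons (PF.leaf (nat_lit 7941480) (nat_lit 524775) (nat_lit 39670947) (nat_lit 12960923) [(nat_lit 524775), (nat_lit 2047672), (nat_lit 6234822)]) (PF.cons (PF.leaf (nat_lit 8265161) (nat_lit 530234) (nat_lit 39200829) (nat_lit 12881267)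 [(nat_lit 530234), (nat_lit 2052805), (nat_lit 6217123)]) (PF.cons (PF.leaf (nat_lit 8591981) (nat_lit 535078) (nat_lit 38730309) (nat_lit 12799579) [(nat_lit 535078), (nat_lit 2056881), (nat_lit 6197809)]) (PF.cons PF.nil PF.nil)))))))) (PF.cons (PF.cons (PF.leaf (nat_lit 7538986) (nat_lit 2035907) (nat_lit 39764988) (nat_lit 12970371) [(nat_lit 0), (nat_lit 2035907), (nat_lit 6229821)]) (PF.cons (PF.leaf (nat_lit 7846894) (nat_lit
 519575) (nat_lit 39314256) (nat_lit 12894537) [(nat_lit 519575), (nat_lit 2041744), (nat_lit 6213464)]) (PF.cons (PF.leaf (nat_lit 8160400) (nat_lit 525391) (nat_lit 38860040) (nat_lit 12816291) [(nat_lit 525391), (nat_lit 2046555), (nat_lit 6195477)]) (PF.cons (PF.leaf (nat_lit 8478066) (nat_lit 530524) (nat_lit 38403951) (nat_lit 12735896) [(nat_lit 530524), (nat_lit 2050365), (nat_lit 6175929)]) (PF.cons (PF.leaf (nat_lit 8798993) (nat_lit 535045) (nat_lit 37947302) (nat_lit 12653586) [(nat_lit 535045), (nat_lit 2053212), (nat_lit 6154891)])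 (PF.cons PF.nil PF.nil)))))) (PF.cons (PF.cons (PF.leaf (nat_lit 8374837) (nat_lit 2043656) (nat_lit 38067666) (nat_lit 12669708) [(nat_lit 0), (nat_lit 2043656), (nat_lit 6153155)]) (PF.cons (PF.leaf (nat_lit 8685862) (nat_lit 530204) (nat_lit 37626125) (nat_lit 12588987) [(nat_lit 530204), (nat_lit 2046289), (nat_lit 6132047)]) (PF.cons (PF.leaf (nat_lit 9000682) (nat_lit 534462) (nat_lit 37183701) (nat_lit 12506427) [(nat_lit 534462), (nat_lit 2048040), (nat_lit 6109555)]) (PF.cons (PF.leaf (nat_lit 9318122) (nat_lit 538171) (nat_lit 36741560) (nat_lit 12422257) [(nat_lit 538171), (nat_lit 2048943), (nat_lit 6085759)]) PF.nil))))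
 (PF.cons (PF.cons (PF.leaf (nat_lit 9197914) (nat_lit 2041527) (nat_lit 36439080) (nat_lit 12358454) [(nat_lit 0), (nat_lit 2041527), (nat_lit 6062113)]) (PF.cons (PF.leaf (nat_lit 9508923) (nat_lit 536861) (nat_lit 36011134) (nat_lit 12274448) [(nat_lit 536861), (nat_lit 2041527), (nat_lit 6037204)]) PF.nil)) (PF.cons PF.nil (PF.cons PF.nil (PF.cons PF.nil PF.nil)))))))))) (PF.cons (PF.cons (PF.cons (PF.leaf (nat_lit 5932347) (nat_lit 6216030) (nat_lit 41483659) (nat_lit 13193092) [(nat_lit 0), (nat_lit 0), (nat_lit 6216030)]) (PF.cons (PF.leaf (nat_lit 6195849) (nat_lit 460940) (nat_lit 41093055) (nat_lit 13135104) [(nat_lit 460940), (nat_lit 0), (nat_lit 6209856)]) (PF.cons (PF.leaf (nat_lit 6473109) (nat_lit 472899) (nat_lit 40686008) (nat_lit 13073120) [(nat_lit 472899), (nat_lit 0), (nat_lit 6201941)]) (PF.cons (PF.leaf (nat_lit 6761050) (nat_lit 483325) (nat_lit 40266681) (nat_lit 13007630) [(nat_lit 483325), (nat_lit 0), (nat_lit 6192262)]) (PF.cons (PF.leaf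 (nat_lit 7057709) (nat_lit 492487) (nat_lit 39838198) (nat_lit 12939014) [(nat_lit 492487), (nat_lit 0), (nat_lit 6180824)]) (PF.cons (PF.leaf (nat_lit 7361477) (nat_lit 500582) (nat_lit 39403006) (nat_lit 12867590)
 [(nat_lit 500582), (nat_lit 0), (nat_lit 6167652)]) (PF.cons (PF.leaf (nat_lit 7671063) (nat_lit 507753) (nat_lit 38963080) (nat_lit 12793632) [(nat_lit 507753), (nat_lit 0), (nat_lit 6152788)]) (PF.cons (PF.leaf (nat_lit 7985427) (nat_lit 514115) (nat_lit 38520045) (nat_lit 12717383) [(nat_lit 514115), (nat_lit 0), (nat_lit 6136287)]) (PF.cons (PF.leaf (nat_lit 8303611) (nat_lit 519757) (nat_lit 38075259) (nat_lit 12639067) [(nat_lit 519757), (nat_lit 0), (nat_lit 6118210)]) (PF.cons (PF.leaf (nat_lit 8624805) (nat_lit 524755) (nat_lit 37629871) (nat_lit 12558890) [(nat_lit 524755), (nat_lit 0), (nat_lit 6098627)]) (PF.cons PF.nil (PF.cons PF.nil PF.nil)))))))))))) (PF.cons (PF.cons (PF.leaf (nat_lit 6716831) (nat_lit 1975781) (nat_lit 39853600) (nat_lit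 12935203) [(nat_lit 0), (nat_lit 1975781), (nat_lit 6172113)]) (PF.cons (PF.leaf (nat_lit 6997120) (nat_lit 485445) (nat_lit 39448594) (nat_lit 12868952) [(nat_lit 485445), (nat_lit 1985297), (nat_lit 6160260)]) (PF.cons (PF.leaf (nat_lit 7287195) (nat_lit 494280) (nat_lit 39033608) (nat_lit 12799514) [(nat_lit 494280), (nat_lit 1993674), (nat_lit 6146727)]) (PF.cons (PF.leaf (nat_lit 7584827) (nat_lit 502020) (nat_lit 38611447)
 (nat_lit 12727278) [(nat_lit 502020), (nat_lit 2000911), (nat_lit 6131556)]) (PF.cons (PF.leaf (nat_lit 7888563) (nat_lit 508831) (nat_lit 38184292) (nat_lit 12652563) [(nat_lit 508831), (nat_lit 2007031), (nat_lit 6114799)]) (PF.cons (PF.leaf (nat_lit 8197219) (nat_lit 514836) (nat_lit 37753884) (nat_lit 12575642) [(nat_lit 514836), (nat_lit 2012070), (nat_lit 6096516)]) (PF.cons (PF.leaf (nat_lit 8509827) (nat_lit 520130) (nat_lit 37321648) (nat_lit 12496756) [(nat_lit 520130), (nat_lit 2016072), (nat_lit 6076775)]) (PF.cons (PF.leaf (nat_lit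 8825515) (nat_lit 524792) (nat_lit 36888767) (nat_lit 12416120) [(nat_lit 524792), (nat_lit 2019085), (nat_lit 6055644)]) (PF.cons PF.nil (PF.cons PF.nil PF.nil)))))))))) (PF.cons (PF.cons (PF.leaf (nat_lit 7513755) (nat_lit 1994749) (nat_lit 38243825) (nat_lit 12657235) [(nat_lit 0), (nat_lit 1994749), (nat_lit 6109126)]) (PF.cons (PF.leaf (nat_lit 7804216) (nat_lit 502644) (nat_lit 37835860) (nat_lit 12584689) [(nat_lit 502644), (nat_lit 2000529), (nat_lit 6092279)]) (PF.cons (PF.leaf (nat_lit 8101619) (nat_lit 509187) (nat_lit 37422314) (nat_lit 12509656) [(nat_lit 509187), (nat_lit 2005305), (nat_lit 6073926)]) (PF.cons (PF.leaf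
 (nat_lit 8404252) (nat_lit 514911) (nat_lit 37005140) (nat_lit 12432453) [(nat_lit 514911), (nat_lit 2009103), (nat_lit 6054139)]) (PF.cons (PF.leaf (nat_lit 8711050) (nat_lit 519922) (nat_lit 36585885) (nat_lit 12353347) [(nat_lit 519922), (nat_lit 2011956), (nat_lit 6032988)]) (PF.cons (PF.leaf (nat_lit 9021079) (nat_lit 524305) (nat_lit 36165807) (nat_lit 12272572) [(nat_lit 524305), (nat_lit 2013904), (nat_lit 6010548)]) (PF.cons PF.nil (PF.cons PF.nil PF.nil)))))))) (PF.cons (PF.cons (PF.leaf (nat_lit 8311279) (nat_lit 2001936) (nat_lit 36676773) (nat_lit 12365242) [(nat_lit 0), (nat_lit 2001936), (nat_lit 6030493)]) (PF.cons (PF.leaf (nat_lit 8607126) (nat_lit 514377) (nat_lit 36273470) (nat_lit 12288145) [(nat_lit 514377), (nat_lit 2004630), (nat_lit 6009463)]) (PF.cons (PF.leaf (nat_lit 8907817) (nat_lit 519170) (nat_lit 35867630) (nat_lit 12209161) [(nat_lit 519170), (nat_lit 2006462), (nat_lit 5987145)]) (PF.cons (PF.leaf (nat_lit 9211984) (nat_lit 523329)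 (nat_lit 35460637) (nat_lit 12128552) [(nat_lit 523329), (nat_lit 2007465), (nat_lit 5963618)]) (PF.cons (PF.leaf (nat_lit 9518824) (nat_lit 526928) (nat_lit 35053605) (nat_lit 12046540) [(nat_lit 526928), (nat_lit
 2007677), (nat_lit 5938959)]) (PF.cons PF.nil PF.nil)))))) (PF.cons (PF.cons (PF.leaf (nat_lit 9101036) (nat_lit 1999737) (nat_lit 35166401) (nat_lit 12064459) [(nat_lit 0), (nat_lit 1999737), (nat_lit 5939500)]) (PF.cons (PF.leaf (nat_lit 9398759) (nat_lit 521894) (nat_lit 34772797) (nat_lit 11984313) [(nat_lit 521894), (nat_lit 1999903), (nat_lit 5915097)]) (PF.cons (PF.leaf (nat_lit 9699739) (nat_lit 525317) (nat_lit 34378770) (nat_lit 11902790) [(nat_lit 525317), (nat_lit 1999339), (nat_lit 5889629)]) (PF.cons PF.nil PF.nil)))) (PF.cons (PF.cons (PF.leaf (nat_lit 9877151) (nat_lit 1990087) (nat_lit 33720894) (nat_lit 11759280) [(nat_lit 0), (nat_lit 1990087), (nat_lit 5839100)]) (PF.cons PF.nil PF.nil)) (PF.cons PF.nil (PF.cons PF.nil PF.nil))))))))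 (PF.cons (PF.cons (PF.cons (PF.leaf (nat_lit 7495551) (nat_lit 5987063) (nat_lit 36800039) (nat_lit 12347584) [(nat_lit 0), (nat_lit 0), (nat_lit 5987063)]) (PF.cons (PF.leaf (nat_lit 7767381) (nat_lit 483661) (nat_lit 36434685) (nat_lit 12279386) [(nat_lit 483661), (nat_lit 0), (nat_lit 5970360)]) (PF.cons (PF.leaf (nat_lit 8047975) (nat_lit 491345) (nat_lit 36061092) (nat_lit 12208436) [(nat_lit 491345), (nat_lit 0), (nat_lit
 5952197)]) (PF.cons (PF.leaf (nat_lit 8335211) (nat_lit 497978) (nat_lit 35681741) (nat_lit 12135148) [(nat_lit 497978), (nat_lit 0), (nat_lit 5932661)]) (PF.cons (PF.leaf (nat_lit 8627714) (nat_lit 503731) (nat_lit 35298535) (nat_lit 12059852) [(nat_lit 503731), (nat_lit 0), (nat_lit 5911832)]) (PF.cons (PF.leaf (nat_lit 8924382) (nat_lit 508730) (nat_lit 34912977) (nat_lit 11982822) [(nat_lit 508730), (nat_lit 0), (nat_lit 5889787)]) (PF.cons (PF.leaf (nat_lit 9224319) (nat_lit 513071) (nat_lit 34526286) (nat_lit 11904292) [(nat_lit 513071),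 (nat_lit 0), (nat_lit 5866600)]) (PF.cons PF.nil PF.nil)))))))) (PF.cons (PF.cons (PF.leaf (nat_lit 8254664) (nat_lit 1959082) (nat_lit 35358577) (nat_lit 12066671) [(nat_lit 0), (nat_lit 1959082), (nat_lit 5908160)]) (PF.cons (PF.leaf (nat_lit 8534714) (nat_lit 497272) (nat_lit 34992605) (nat_lit 11993873) [(nat_lit 497272), (nat_lit 1962099), (nat_lit 5887653)]) (PF.cons (PF.leaf (nat_lit 8820934) (nat_lit 502857) (nat_lit 34622140) (nat_lit 11919017) [(nat_lit 502857), (nat_lit 1964246), (nat_lit 5865897)]) (PF.cons (PF.leaf (nat_lit 9111679) (nat_lit 507669) (nat_lit 34248884) (nat_lit 11842418) [(nat_lit 507669), (nat_lit 1965557),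
 (nat_lit 5842980)]) (PF.cons (PF.leaf (nat_lit 9405983) (nat_lit 511817) (nat_lit 33874173) (nat_lit 11764339) [(nat_lit 511817), (nat_lit 1966074), (nat_lit 5818984)]) (PF.cons (PF.leaf (nat_lit 9702970) (nat_lit 515386) (nat_lit 33499081) (nat_lit 11685003) [(nat_lit 515386), (nat_lit 1965837), (nat_lit 5793986)]) PF.nil)))))) (PF.cons (PF.cons (PF.leaf (nat_lit 9011513) (nat_lit 1957518) (nat_lit 33960790) (nat_lit 11777832) [(nat_lit 0), (nat_lit 1957518), (nat_lit 5818384)]) (PF.cons (PF.leaf (nat_lit 9295630) (nat_lit 506136) (nat_lit 33600270) (nat_lit 11701958) [(nat_lit 506136), (nat_lit 1958032), (nat_lit 5794793)]) (PF.cons (PF.leaf (nat_lit 9584026) (nat_lit 510146) (nat_lit 33237808) (nat_lit 11624582) [(nat_lit 510146), (nat_lit 1957813), (nat_lit 5770166)]) (PF.cons (PF.leaf (nat_lit 9875403) (nat_lit 513567) (nat_lit 32874599) (nat_lit 11545951) [(nat_lit 513567), (nat_lit 1956899), (nat_lit 5744587)]) PF.nil)))) (PF.cons (PF.cons (PF.leaf (nat_lit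 9759311) (nat_lit 1948699) (nat_lit 32616628) (nat_lit 11485158) [(nat_lit 0), (nat_lit 1948699), (nat_lit 5720309)]) (PF.cons (PF.leaf (nat_lit 10044501) (nat_lit 511396) (nat_lit 32265484) (nat_lit 11407451) [(nat_lit
 511396), (nat_lit 1947189), (nat_lit 5694304)]) PF.nil)) (PF.cons PF.nil (PF.cons PF.nil PF.nil)))))) (PF.cons (PF.cons (PF.cons (PF.leaf (nat_lit 8931466) (nat_lit 5698875) (nat_lit 32815072) (nat_lit 11498237) [(nat_lit 0), (nat_lit 0), (nat_lit 5698875)]) (PF.cons (PF.leaf (nat_lit 9201240) (nat_lit 489314) (nat_lit 32486892) (nat_lit 11427066) [(nat_lit 489314), (nat_lit 0), (nat_lit 5676384)]) (PF.cons (PF.leaf (nat_lit 9476606) (nat_lit 494143) (nat_lit 32154991) (nat_lit 11354166) [(nat_lit 494143), (nat_lit 0), (nat_lit 5652841)]) (PF.cons (PF.leaf (nat_lit 9755963) (nat_lit 498244) (nat_lit 31820854) (nat_lit 11279844) [(nat_lit 498244), (nat_lit 0), (nat_lit 5628345)]) (PF.cons (PF.leaf (nat_lit 10038408) (nat_lit 501725) (nat_lit 31485643)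 (nat_lit 11204347) [(nat_lit 501725), (nat_lit 0), (nat_lit 5602980)]) (PF.cons PF.nil PF.nil)))))) (PF.cons (PF.cons (PF.leaf (nat_lit 9650831) (nat_lit 1907306) (nat_lit 31567492) (nat_lit 11218809) [(nat_lit 0), (nat_lit 1907306), (nat_lit 5603801)]) (PF.cons (PF.leaf (nat_lit 9923779) (nat_lit 496041) (nat_lit 31244853) (nat_lit 11145570) [(nat_lit 496041), (nat_lit 1906309), (nat_lit 5579009)]) (PF.cons (PF.leaf (nat_lit
 10200561) (nat_lit 499444) (nat_lit 30920653) (nat_lit 11071109) [(nat_lit 499444), (nat_lit 1904683), (nat_lit 5553369)]) (PF.cons PF.nil PF.nil)))) (PF.cons (PF.cons (PF.leaf (nat_lit 10360641) (nat_lit 1894135) (nat_lit 30368995) (nat_lit 10938686) [(nat_lit 0), (nat_lit 1894135), (nat_lit 5503214)]) (PF.cons PF.nil PF.nil)) (PF.cons PF.nil PF.nil)))) (PF.cons (PF.cons (PF.cons (PF.leaf (nat_lit 10238455) (nat_lit 5392830) (nat_lit 29451703) (nat_lit 10692958) [(nat_lit 0), (nat_lit 0), (nat_lit 5392830)]) (PF.cons (PF.leaf (nat_lit 10500863)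 (nat_lit 484881) (nat_lit 29162289) (nat_lit 10623093) [(nat_lit 484881), (nat_lit 0), (nat_lit 5367709)]) (PF.cons PF.nil (PF.cons PF.nil PF.nil)))) (PF.cons (PF.cons (PF.leaf (nat_lit 10913886) (nat_lit 1838334) (nat_lit 28380005) (nat_lit 10427520) [(nat_lit 0), (nat_lit 1838334), (nat_lit 5292590)]) (PF.cons PF.nil PF.nil)) PF.nil)) (PF.cons PF.nil (PF.cons PF.nil (PF.cons PF.nil (PF.cons PF.nil PF.nil))))))))))

def p14_18_2_0 : pfC (piC [(nat_lit 38632330), (nat_lit 24534081), (nat_lit 15702173)] (nat_lit 7113113)) p14_18_2 (nat_lit 3) (nat_lit 0) (nat_lit 1) = true := by decide +kernel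
def p14_18_2_1 : pfC (piC [(nat_lit 38632330), (nat_lit 24534081), (nat_lit 15702173)] (nat_lit 7113113)) p14_18_2 (nat_lit 3) (nat_lit 1) (nat_lit 2) = true := by decide +kernel
def p14_18_2_2 : pfC (piC [(nat_lit 38632330), (nat_lit 24534081), (nat_lit 15702173)] (nat_lit 7113113)) p14_18_2 (nat_lit 3) (nat_lit 2) (nat_lit 3) = true := by decide +kernel
def p14_18_2_3 : pfC (piC [(nat_lit 38632330), (nat_lit 24534081), (nat_lit 15702173)] (nat_lit 7113113)) p14_18_2 (nat_lit 3) (nat_lit 3) (nat_lit 4) = true := by decide +kernel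
def p14_18_2_4 : pfC (piC [(nat_lit 38632330), (nat_lit 24534081), (nat_lit 15702173)] (nat_lit 7113113)) p14_18_2 (nat_lit 3) (nat_lit 4) (nat_lit 5) = true := by decide +kernel
def p14_18_2_5 : pfC (piC [(nat_lit 38632330), (nat_lit 24534081), (nat_lit 15702173)] (nat_lit 7113113)) p14_18_2 (nat_lit 3) (nat_lit 5) (nat_lit 6) = true := by decide +kernel
def p14_18_2_6 : pfC (piC [(nat_lit 38632330), (nat_lit 24534081), (nat_lit 15702173)] (nat_lit 7113113)) p14_18_2 (nat_lit 3) (nat_lit 6) (nat_lit 7) = true := by decide +kernel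
def p14_18_2_7 : pfC (piC [(nat_lit 38632330), (nat_lit 24534081), (nat_lit 15702173)] (nat_lit 7113113)) p14_18_2 (nat_lit 3) (nat_lit 7) (nat_lit 8) = true := by decide +kernel
def p14_18_2_8 : pfC (piC [(nat_lit 38632330), (nat_lit 24534081), (nat_lit 15702173)] (nat_lit 7113113)) p14_18_2 (nat_lit 3) (nat_lit 8) (nat_lit 9) = true := by decide +kernel
def p14_18_2_9 : pfC (piC [(nat_lit 38632330), (nat_lit 24534081), (nat_lit 15702173)] (nat_lit 7113113)) p14_18_2 (nat_lit 3) (nat_lit 9) (nat_lit 10) = true := by decide +kernel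
def p14_18_2_10 : pfC (piC [(nat_lit 38632330), (nat_lit 24534081), (nat_lit 15702173)] (nat_lit 7113113)) p14_18_2 (nat_lit 3) (nat_lit 10) (nat_lit 11) = true := by decide +kernel
def p14_18_2_11 : pfC (piC [(nat_lit 38632330), (nat_lit 24534081), (nat_lit 15702173)] (nat_lit 7113113)) p14_18_2 (nat_lit 3) (nat_lit 11) (nat_lit 12) = true := by decide +kernel
def p14_18_2_12 : pfC (piC [(nat_lit 38632330), (nat_lit 24534081), (nat_lit 15702173)] (nat_lit 7113113)) p14_18_2 (nat_lit 3) (nat_lit 12) (nat_lit 13) = true := by decide +kernel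
def p14_18_2_13 : pfC (piC [(nat_lit 38632330), (nat_lit 24534081), (nat_lit 15702173)] (nat_lit 7113113)) p14_18_2 (nat_lit 3) (nat_lit 13) (nat_lit 14) = true := by decide +kernel
def p14_18_2_14 : pfC (piC [(nat_lit 38632330), (nat_lit 24534081), (nat_lit 15702173)] (nat_lit 7113113)) p14_18_2 (nat_lit 3) (nat_lit 14) (nat_lit 15) = true := by decide +kernel
def p14_18_2_15 : pfC (piC [(nat_lit 38632330), (nat_lit 24534081), (nat_lit 15702173)] (nat_lit 7113113)) p14_18_2 (nat_lit 3) (nat_lit 15) (nat_lit 16) = true := by decide +kernel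
def p14_18_2_16 : pfC (piC [(nat_lit 38632330), (nat_lit 24534081), (nat_lit 15702173)] (nat_lit 7113113)) p14_18_2 (nat_lit 3) (nat_lit 16) (nat_lit 17) = true := by decide +kernel
def p14_18_2_17 : pfC (piC [(nat_lit 38632330), (nat_lit 24534081), (nat_lit 15702173)] (nat_lit 7113113)) p14_18_2 (nat_lit 3) (nat_lit 17) (nat_lit 18) = true := by decide +kernel
def p14_18_2_18 : pfC (piC [(nat_lit 38632330), (nat_lit 24534081), (nat_lit 15702173)] (nat_lit 7113113)) p14_18_2 (nat_lit 3) (nat_lit 18) (nat_lit 19) = true := by decide +kernel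
def p14_18_2_19 : pfC (piC [(nat_lit 38632330), (nat_lit 24534081), (nat_lit 15702173)] (nat_lit 7113113)) p14_18_2 (nat_lit 3) (nat_lit 19) (nat_lit 20) = true := by decide +kernel
def p14_18_2_20 : pfC (piC [(nat_lit 38632330), (nat_lit 24534081), (nat_lit 15702173)] (nat_lit 7113113)) p14_18_2 (nat_lit 3) (nat_lit 20) (nat_lit 21) = true := by decide +kernel
def p14_18_2_21 : pfC (piC [(nat_lit 38632330), (nat_lit 24534081), (nat_lit 15702173)] (nat_lit 7113113)) p14_18_2 (nat_lit 3) (nat_lit 21) (nat_lit 22) = true := by decide +kernel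
def p14_18_2_22 : pfC (piC [(nat_lit 38632330), (nat_lit 24534081), (nat_lit 15702173)] (nat_lit 7113113)) p14_18_2 (nat_lit 3) (nat_lit 22) (nat_lit 23) = true := by decide +kernel
def p14_18_2_23 : pfC (piC [(nat_lit 38632330), (nat_lit 24534081), (nat_lit 15702173)] (nat_lit 7113113)) p14_18_2 (nat_lit 3) (nat_lit 23) (nat_lit 24) = true := by decide +kernel
def p14_18_2_24 : pfC (piC [(nat_lit 38632330), (nat_lit 24534081), (nat_lit 15702173)] (nat_lit 7113113)) p14_18_2 (nat_lit 3) (nat_lit 24) (nat_lit 25) = true := by decide +kernel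
def p14_18_2_25 : pfC (piC [(nat_lit 38632330), (nat_lit 24534081), (nat_lit 15702173)] (nat_lit 7113113)) p14_18_2 (nat_lit 3) (nat_lit 25) (nat_lit 26) = true := by decide +kernel
def p14_18_2_26 : pfC (piC [(nat_lit 38632330), (nat_lit 24534081), (nat_lit 15702173)] (nat_lit 7113113)) p14_18_2 (nat_lit 3) (nat_lit 26) (nat_lit 27) = true := by decide +kernel
def p14_18_2_27 : pfC (piC [(nat_lit 38632330), (nat_lit 24534081), (nat_lit 15702173)] (nat_lit 7113113)) p14_18_2 (nat_lit 3) (nat_lit 27) (nat_lit 28) = true := by decide +kernel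
def p14_18_2_28 : pfC (piC [(nat_lit 38632330), (nat_lit 24534081), (nat_lit 15702173)] (nat_lit 7113113)) p14_18_2 (nat_lit 3) (nat_lit 28) (nat_lit 29) = true := by decide +kernel
def p14_18_2_29 : pfC (piC [(nat_lit 38632330), (nat_lit 24534081), (nat_lit 15702173)] (nat_lit 7113113)) p14_18_2 (nat_lit 3) (nat_lit 29) (nat_lit 30) = true := by decide +kernel
def p14_18_2_30 : pfC (piC [(nat_lit 38632330), (nat_lit 24534081), (nat_lit 15702173)] (nat_lit 7113113)) p14_18_2 (nat_lit 3) (nat_lit 30) (nat_lit 31) = true := by decide +kernel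
def p14_18_2_31 : pfC (piC [(nat_lit 38632330), (nat_lit 24534081), (nat_lit 15702173)] (nat_lit 7113113)) p14_18_2 (nat_lit 3) (nat_lit 31) (nat_lit 32) = true := by decide +kernel
def p14_18_2_32 : pfC (piC [(nat_lit 38632330), (nat_lit 24534081), (nat_lit 15702173)] (nat_lit 7113113)) p14_18_2 (nat_lit 3) (nat_lit 32) (nat_lit 33) = true := by decide +kernel
def p14_18_2_33 : pfC (piC [(nat_lit 38632330), (nat_lit 24534081), (nat_lit 15702173)] (nat_lit 7113113)) p14_18_2 (nat_lit 3) (nat_lit 33) (nat_lit 34) = true := by decide +kernel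
def p14_18_2_34 : pfC (piC [(nat_lit 38632330), (nat_lit 24534081), (nat_lit 15702173)] (nat_lit 7113113)) p14_18_2 (nat_lit 3) (nat_lit 34) (nat_lit 35) = true := by decide +kernel
def p14_18_2_35 : pfC (piC [(nat_lit 38632330), (nat_lit 24534081), (nat_lit 15702173)] (nat_lit 7113113)) p14_18_2 (nat_lit 3) (nat_lit 35) (nat_lit 36) = true := by decide +kernel
def p14_18_2_36 : pfC (piC [(nat_lit 38632330), (nat_lit 24534081), (nat_lit 15702173)] (nat_lit 7113113)) p14_18_2 (nat_lit 3) (nat_lit 36) (nat_lit 37) = true := by decide +kernel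
def p14_18_2_37 : pfC (piC [(nat_lit 38632330), (nat_lit 24534081), (nat_lit 15702173)] (nat_lit 7113113)) p14_18_2 (nat_lit 3) (nat_lit 37) (nat_lit 38) = true := by decide +kernel
def p14_18_2_38 : pfC (piC [(nat_lit 38632330), (nat_lit 24534081), (nat_lit 15702173)] (nat_lit 7113113)) p14_18_2 (nat_lit 3) (nat_lit 38) (nat_lit 39) = true := by decide +kernel
def p14_18_2_39 : pfC (piC [(nat_lit 38632330), (nat_lit 24534081), (nat_lit 15702173)] (nat_lit 7113113)) p14_18_2 (nat_lit 3) (nat_lit 39) (nat_lit 40) = true := by decide +kernel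
def p14_18_2_40 : pfC (piC [(nat_lit 38632330), (nat_lit 24534081), (nat_lit 15702173)] (nat_lit 7113113)) p14_18_2 (nat_lit 3) (nat_lit 40) (nat_lit 41) = true := by decide +kernel
def p14_18_2_41 : pfC (piC [(nat_lit 38632330), (nat_lit 24534081), (nat_lit 15702173)] (nat_lit 7113113)) p14_18_2 (nat_lit 3) (nat_lit 41) (nat_lit 42) = true := by decide +kernel
def p14_18_2_42 : pfC (piC [(nat_lit 38632330), (nat_lit 24534081), (nat_lit 15702173)] (nat_lit 7113113)) p14_18_2 (nat_lit 3) (nat_lit 42) (nat_lit 43) = true := by decide +kernel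
def p14_18_2_43 : pfC (piC [(nat_lit 38632330), (nat_lit 24534081), (nat_lit 15702173)] (nat_lit 7113113)) p14_18_2 (nat_lit 3) (nat_lit 43) (nat_lit 44) = true := by decide +kernel
def p14_18_2_44 : pfC (piC [(nat_lit 38632330), (nat_lit 24534081), (nat_lit 15702173)] (nat_lit 7113113)) p14_18_2 (nat_lit 3) (nat_lit 44) (nat_lit 45) = true := by decide +kernel
def p14_18_2_45 : pfC (piC [(nat_lit 38632330), (nat_lit 24534081), (nat_lit 15702173)] (nat_lit 7113113)) p14_18_2 (nat_lit 3) (nat_lit 45) (nat_lit 46) = true := by decide +kernel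
def p14_18_2_46 : pfC (piC [(nat_lit 38632330), (nat_lit 24534081), (nat_lit 15702173)] (nat_lit 7113113)) p14_18_2 (nat_lit 3) (nat_lit 46) (nat_lit 47) = true := by decide +kernel
def p14_18_2_47 : pfC (piC [(nat_lit 38632330), (nat_lit 24534081), (nat_lit 15702173)] (nat_lit 7113113)) p14_18_2 (nat_lit 3) (nat_lit 47) (nat_lit 48) = true := by decide +kernel
def p14_18_2_48 : pfC (piC [(nat_lit 38632330), (nat_lit 24534081), (nat_lit 15702173)] (nat_lit 7113113)) p14_18_2 (nat_lit 3) (nat_lit 48) (nat_lit 49) = true := by decide +kernel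
def p14_18_2_49 : pfC (piC [(nat_lit 38632330), (nat_lit 24534081), (nat_lit 15702173)] (nat_lit 7113113)) p14_18_2 (nat_lit 3) (nat_lit 49) (nat_lit 50) = true := by decide +kernel
def p14_18_2_50 : pfC (piC [(nat_lit 38632330), (nat_lit 24534081), (nat_lit 15702173)] (nat_lit 7113113)) p14_18_2 (nat_lit 3) (nat_lit 50) (nat_lit 51) = true := by decide +kernel
def p14_18_2_51 : pfC (piC [(nat_lit 38632330), (nat_lit 24534081), (nat_lit 15702173)] (nat_lit 7113113)) p14_18_2 (nat_lit 3) (nat_lit 51) (nat_lit 52) = true := by decide +kernel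
def p14_18_2_52 : pfC (piC [(nat_lit 38632330), (nat_lit 24534081), (nat_lit 15702173)] (nat_lit 7113113)) p14_18_2 (nat_lit 3) (nat_lit 52) (nat_lit 53) = true := by decide +kernel
def p14_18_2_53 : pfC (piC [(nat_lit 38632330), (nat_lit 24534081), (nat_lit 15702173)] (nat_lit 7113113)) p14_18_2 (nat_lit 3) (nat_lit 53) (nat_lit 54) = true := by decide +kernel
def p14_18_2_54 : pfC (piC [(nat_lit 38632330), (nat_lit 24534081), (nat_lit 15702173)] (nat_lit 7113113)) p14_18_2 (nat_lit 3) (nat_lit 54) (nat_lit 55) = true := by decide +kernel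
def p14_18_2_55 : pfC (piC [(nat_lit 38632330), (nat_lit 24534081), (nat_lit 15702173)] (nat_lit 7113113)) p14_18_2 (nat_lit 3) (nat_lit 55) (nat_lit 56) = true := by decide +kernel
def p14_18_2_56 : pfC (piC [(nat_lit 38632330), (nat_lit 24534081), (nat_lit 15702173)] (nat_lit 7113113)) p14_18_2 (nat_lit 3) (nat_lit 56) (nat_lit 57) = true := by decide +kernel
def p14_18_2_57 : pfC (piC [(nat_lit 38632330), (nat_lit 24534081), (nat_lit 15702173)] (nat_lit 7113113)) p14_18_2 (nat_lit 3) (nat_lit 57) (nat_lit 58) = true := by decide +kernel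
def p14_18_2_58 : pfC (piC [(nat_lit 38632330), (nat_lit 24534081), (nat_lit 15702173)] (nat_lit 7113113)) p14_18_2 (nat_lit 3) (nat_lit 58) (nat_lit 59) = true := by decide +kernel
def p14_18_2_59 : pfC (piC [(nat_lit 38632330), (nat_lit 24534081), (nat_lit 15702173)] (nat_lit 7113113)) p14_18_2 (nat_lit 3) (nat_lit 59) (nat_lit 60) = true := by decide +kernel
def p14_18_2_60 : pfC (piC [(nat_lit 38632330), (nat_lit 24534081), (nat_lit 15702173)] (nat_lit 7113113)) p14_18_2 (nat_lit 3) (nat_lit 60) (nat_lit 61) = true := by decide +kernel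
def p14_18_2_61 : pfC (piC [(nat_lit 38632330), (nat_lit 24534081), (nat_lit 15702173)] (nat_lit 7113113)) p14_18_2 (nat_lit 3) (nat_lit 61) (nat_lit 62) = true := by decide +kernel
def p14_18_2_62 : pfC (piC [(nat_lit 38632330), (nat_lit 24534081), (nat_lit 15702173)] (nat_lit 7113113)) p14_18_2 (nat_lit 3) (nat_lit 62) (nat_lit 63) = true := by decide +kernel
def p14_18_2_63 : pfC (piC [(nat_lit 38632330), (nat_lit 24534081), (nat_lit 15702173)] (nat_lit 7113113)) p14_18_2 (nat_lit 3) (nat_lit 63) (nat_lit 64) = true := by decide +kernel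
def p14_18_2_64 : pfC (piC [(nat_lit 38632330), (nat_lit 24534081), (nat_lit 15702173)] (nat_lit 7113113)) p14_18_2 (nat_lit 3) (nat_lit 64) (nat_lit 65) = true := by decide +kernel
def p14_18_2_65 : pfC (piC [(nat_lit 38632330), (nat_lit 24534081), (nat_lit 15702173)] (nat_lit 7113113)) p14_18_2 (nat_lit 3) (nat_lit 65) (nat_lit 66) = true := by decide +kernel
def p14_18_2_66 : pfC (piC [(nat_lit 38632330), (nat_lit 24534081), (nat_lit 15702173)] (nat_lit 7113113)) p14_18_2 (nat_lit 3) (nat_lit 66) (nat_lit 67) = true := by decide +kernel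
def p14_18_2_67 : pfC (piC [(nat_lit 38632330), (nat_lit 24534081), (nat_lit 15702173)] (nat_lit 7113113)) p14_18_2 (nat_lit 3) (nat_lit 67) (nat_lit 68) = true := by decide +kernel
def p14_18_2_68 : pfC (piC [(nat_lit 38632330), (nat_lit 24534081), (nat_lit 15702173)] (nat_lit 7113113)) p14_18_2 (nat_lit 3) (nat_lit 68) (nat_lit 69) = true := by decide +kernel
def p14_18_2_69 : pfC (piC [(nat_lit 38632330), (nat_lit 24534081), (nat_lit 15702173)] (nat_lit 7113113)) p14_18_2 (nat_lit 3) (nat_lit 69) (nat_lit 70) = true := by decide +kernel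
def p14_18_2_70 : pfC (piC [(nat_lit 38632330), (nat_lit 24534081), (nat_lit 15702173)] (nat_lit 7113113)) p14_18_2 (nat_lit 3) (nat_lit 70) (nat_lit 71) = true := by decide +kernel
def p14_18_2_71 : pfC (piC [(nat_lit 38632330), (nat_lit 24534081), (nat_lit 15702173)] (nat_lit 7113113)) p14_18_2 (nat_lit 3) (nat_lit 71) (nat_lit 72) = true := by decide +kernel
def p14_18_2_72 : pfC (piC [(nat_lit 38632330), (nat_lit 24534081), (nat_lit 15702173)] (nat_lit 7113113)) p14_18_2 (nat_lit 3) (nat_lit 72) (nat_lit 73) = true := by decide +kernel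
def p14_18_2_73 : pfC (piC [(nat_lit 38632330), (nat_lit 24534081), (nat_lit 15702173)] (nat_lit 7113113)) p14_18_2 (nat_lit 3) (nat_lit 73) (nat_lit 74) = true := by decide +kernel
def p14_18_2_74 : pfC (piC [(nat_lit 38632330), (nat_lit 24534081), (nat_lit 15702173)] (nat_lit 7113113)) p14_18_2 (nat_lit 3) (nat_lit 74) (nat_lit 75) = true := by decide +kernel
def p14_18_2_75 : pfC (piC [(nat_lit 38632330), (nat_lit 24534081), (nat_lit 15702173)] (nat_lit 7113113)) p14_18_2 (nat_lit 3) (nat_lit 75) (nat_lit 76) = true := by decide +kernel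
def p14_18_2_76 : pfC (piC [(nat_lit 38632330), (nat_lit 24534081), (nat_lit 15702173)] (nat_lit 7113113)) p14_18_2 (nat_lit 3) (nat_lit 76) (nat_lit 77) = true := by decide +kernel
def p14_18_2_77 : pfC (piC [(nat_lit 38632330), (nat_lit 24534081), (nat_lit 15702173)] (nat_lit 7113113)) p14_18_2 (nat_lit 3) (nat_lit 77) (nat_lit 78) = true := by decide +kernel
def p14_18_2_78 : pfC (piC [(nat_lit 38632330), (nat_lit 24534081), (nat_lit 15702173)] (nat_lit 7113113)) p14_18_2 (nat_lit 3) (nat_lit 78) (nat_lit 79) = true := by decide +kernel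
def p14_18_2_79 : pfC (piC [(nat_lit 38632330), (nat_lit 24534081), (nat_lit 15702173)] (nat_lit 7113113)) p14_18_2 (nat_lit 3) (nat_lit 79) (nat_lit 80) = true := by decide +kernel
def p14_18_2_80 : pfC (piC [(nat_lit 38632330), (nat_lit 24534081), (nat_lit 15702173)] (nat_lit 7113113)) p14_18_2 (nat_lit 3) (nat_lit 80) (nat_lit 81) = true := by decide +kernel
def p14_18_2_81 : pfC (piC [(nat_lit 38632330), (nat_lit 24534081), (nat_lit 15702173)] (nat_lit 7113113)) p14_18_2 (nat_lit 3) (nat_lit 81) (nat_lit 82) = true := by decide +kernel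
def p14_18_2_82 : pfC (piC [(nat_lit 38632330), (nat_lit 24534081), (nat_lit 15702173)] (nat_lit 7113113)) p14_18_2 (nat_lit 3) (nat_lit 82) (nat_lit 83) = true := by decide +kernel
def p14_18_2_83 : pfC (piC [(nat_lit 38632330), (nat_lit 24534081), (nat_lit 15702173)] (nat_lit 7113113)) p14_18_2 (nat_lit 3) (nat_lit 83) (nat_lit 84) = true := by decide +kernel
def p14_18_2_84 : pfC (piC [(nat_lit 38632330), (nat_lit 24534081), (nat_lit 15702173)] (nat_lit 7113113)) p14_18_2 (nat_lit 3) (nat_lit 84) (nat_lit 85) = true := by decide +kernel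
def p14_18_2_85 : pfC (piC [(nat_lit 38632330), (nat_lit 24534081), (nat_lit 15702173)] (nat_lit 7113113)) p14_18_2 (nat_lit 3) (nat_lit 85) (nat_lit 86) = true := by decide +kernel
def p14_18_2_86 : pfC (piC [(nat_lit 38632330), (nat_lit 24534081), (nat_lit 15702173)] (nat_lit 7113113)) p14_18_2 (nat_lit 3) (nat_lit 86) (nat_lit 87) = true := by decide +kernel
def p14_18_2_87 : pfC (piC [(nat_lit 38632330), (nat_lit 24534081), (nat_lit 15702173)] (nat_lit 7113113)) p14_18_2 (nat_lit 3) (nat_lit 87) (nat_lit 88) = true := by decide +kernel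
def p14_18_2_88 : pfC (piC [(nat_lit 38632330), (nat_lit 24534081), (nat_lit 15702173)] (nat_lit 7113113)) p14_18_2 (nat_lit 3) (nat_lit 88) (nat_lit 89) = true := by decide +kernel
def p14_18_2_89 : pfC (piC [(nat_lit 38632330), (nat_lit 24534081), (nat_lit 15702173)] (nat_lit 7113113)) p14_18_2 (nat_lit 3) (nat_lit 89) (nat_lit 90) = true := by decide +kernel
def p14_18_2_90 : pfC (piC [(nat_lit 38632330), (nat_lit 24534081), (nat_lit 15702173)] (nat_lit 7113113)) p14_18_2 (nat_lit 3) (nat_lit 90) (nat_lit 91) = true := by decide +kernel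
def p14_18_2_91 : pfC (piC [(nat_lit 38632330), (nat_lit 24534081), (nat_lit 15702173)] (nat_lit 7113113)) p14_18_2 (nat_lit 3) (nat_lit 91) (nat_lit 92) = true := by decide +kernel
def p14_18_2_92 : pfC (piC [(nat_lit 38632330), (nat_lit 24534081), (nat_lit 15702173)] (nat_lit 7113113)) p14_18_2 (nat_lit 3) (nat_lit 92) (nat_lit 93) = true := by decide +kernel
def p14_18_2_93 : pfC (piC [(nat_lit 38632330), (nat_lit 24534081), (nat_lit 15702173)] (nat_lit 7113113)) p14_18_2 (nat_lit 3) (nat_lit 93) (nat_lit 94) = true := by decide +kernel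
def p14_18_2_94 : pfC (piC [(nat_lit 38632330), (nat_lit 24534081), (nat_lit 15702173)] (nat_lit 7113113)) p14_18_2 (nat_lit 3) (nat_lit 94) (nat_lit 95) = true := by decide +kernel
def p14_18_2_95 : pfC (piC [(nat_lit 38632330), (nat_lit 24534081), (nat_lit 15702173)] (nat_lit 7113113)) p14_18_2 (nat_lit 3) (nat_lit 95) (nat_lit 96) = true := by decide +kernel
def p14_18_2_96 : pfC (piC [(nat_lit 38632330), (nat_lit 24534081), (nat_lit 15702173)] (nat_lit 7113113)) p14_18_2 (nat_lit 3) (nat_lit 96) (nat_lit 97) = true := by decide +kernel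
def p14_18_2_97 : pfC (piC [(nat_lit 38632330), (nat_lit 24534081), (nat_lit 15702173)] (nat_lit 7113113)) p14_18_2 (nat_lit 3) (nat_lit 97) (nat_lit 98) = true := by decide +kernel
def p14_18_2_98 : pfC (piC [(nat_lit 38632330), (nat_lit 24534081), (nat_lit 15702173)] (nat_lit 7113113)) p14_18_2 (nat_lit 3) (nat_lit 98) (nat_lit 99) = true := by decide +kernel
def p14_18_2_99 : pfC (piC [(nat_lit 38632330), (nat_lit 24534081), (nat_lit 15702173)] (nat_lit 7113113)) p14_18_2 (nat_lit 3) (nat_lit 99) (nat_lit 100) = true := by decide +kernel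
def p14_18_2_100 : pfC (piC [(nat_lit 38632330), (nat_lit 24534081), (nat_lit 15702173)] (nat_lit 7113113)) p14_18_2 (nat_lit 3) (nat_lit 100) (nat_lit 101) = true := by decide +kernel
def p14_18_2_101 : pfC (piC [(nat_lit 38632330), (nat_lit 24534081), (nat_lit 15702173)] (nat_lit 7113113)) p14_18_2 (nat_lit 3) (nat_lit 101) (nat_lit 102) = true := by decide +kernel
def p14_18_2_102 : pfC (piC [(nat_lit 38632330), (nat_lit 24534081), (nat_lit 15702173)] (nat_lit 7113113)) p14_18_2 (nat_lit 3) (nat_lit 102) (nat_lit 103) = true := by decide +kernel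
def p14_18_2_103 : pfC (piC [(nat_lit 38632330), (nat_lit 24534081), (nat_lit 15702173)] (nat_lit 7113113)) p14_18_2 (nat_lit 3) (nat_lit 103) (nat_lit 104) = true := by decide +kernel
def p14_18_2_104 : pfC (piC [(nat_lit 38632330), (nat_lit 24534081), (nat_lit 15702173)] (nat_lit 7113113)) p14_18_2 (nat_lit 3) (nat_lit 104) (nat_lit 105) = true := by decide +kernel
def p14_18_2_105 : pfC (piC [(nat_lit 38632330), (nat_lit 24534081), (nat_lit 15702173)] (nat_lit 7113113)) p14_18_2 (nat_lit 3) (nat_lit 105) (nat_lit 106) = true := by decide +kernel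
def p14_18_2_106 : pfC (piC [(nat_lit 38632330), (nat_lit 24534081), (nat_lit 15702173)] (nat_lit 7113113)) p14_18_2 (nat_lit 3) (nat_lit 106) (nat_lit 107) = true := by decide +kernel
def p14_18_2_107 : pfC (piC [(nat_lit 38632330), (nat_lit 24534081), (nat_lit 15702173)] (nat_lit 7113113)) p14_18_2 (nat_lit 3) (nat_lit 107) (nat_lit 108) = true := by decide +kernel
def p14_18_2_108 : pfC (piC [(nat_lit 38632330), (nat_lit 24534081), (nat_lit 15702173)] (nat_lit 7113113)) p14_18_2 (nat_lit 3) (nat_lit 108) (nat_lit 109) = true := by decide +kernel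
def p14_18_2_109 : pfC (piC [(nat_lit 38632330), (nat_lit 24534081), (nat_lit 15702173)] (nat_lit 7113113)) p14_18_2 (nat_lit 3) (nat_lit 109) (nat_lit 110) = true := by decide +kernel
def p14_18_2_110 : pfC (piC [(nat_lit 38632330), (nat_lit 24534081), (nat_lit 15702173)] (nat_lit 7113113)) p14_18_2 (nat_lit 3) (nat_lit 110) (nat_lit 111) = true := by decide +kernel
def p14_18_2_111 : pfC (piC [(nat_lit 38632330), (nat_lit 24534081), (nat_lit 15702173)] (nat_lit 7113113)) p14_18_2 (nat_lit 3) (nat_lit 111) (nat_lit 112) = true := by decide +kernel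
def p14_18_2_112 : pfC (piC [(nat_lit 38632330), (nat_lit 24534081), (nat_lit 15702173)] (nat_lit 7113113)) p14_18_2 (nat_lit 3) (nat_lit 112) (nat_lit 113) = true := by decide +kernel
def p14_18_2_113 : pfC (piC [(nat_lit 38632330), (nat_lit 24534081), (nat_lit 15702173)] (nat_lit 7113113)) p14_18_2 (nat_lit 3) (nat_lit 113) (nat_lit 114) = true := by decide +kernel
def p14_18_2_114 : pfC (piC [(nat_lit 38632330), (nat_lit 24534081), (nat_lit 15702173)] (nat_lit 7113113)) p14_18_2 (nat_lit 3) (nat_lit 114) (nat_lit 115) = true := by decide +kernel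
def p14_18_2_115 : pfC (piC [(nat_lit 38632330), (nat_lit 24534081), (nat_lit 15702173)] (nat_lit 7113113)) p14_18_2 (nat_lit 3) (nat_lit 115) (nat_lit 116) = true := by decide +kernel
def p14_18_2_116 : pfC (piC [(nat_lit 38632330), (nat_lit 24534081), (nat_lit 15702173)] (nat_lit 7113113)) p14_18_2 (nat_lit 3) (nat_lit 116) (nat_lit 117) = true := by decide +kernel
def p14_18_2_117 : pfC (piC [(nat_lit 38632330), (nat_lit 24534081), (nat_lit 15702173)] (nat_lit 7113113)) p14_18_2 (nat_lit 3) (nat_lit 117) (nat_lit 118) = true := by decide +kernel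
def p14_18_2_118 : pfC (piC [(nat_lit 38632330), (nat_lit 24534081), (nat_lit 15702173)] (nat_lit 7113113)) p14_18_2 (nat_lit 3) (nat_lit 118) (nat_lit 119) = true := by decide +kernel
def p14_18_2_119 : pfC (piC [(nat_lit 38632330), (nat_lit 24534081), (nat_lit 15702173)] (nat_lit 7113113)) p14_18_2 (nat_lit 3) (nat_lit 119) (nat_lit 120) = true := by decide +kernel
def p14_18_2_120 : pfC (piC [(nat_lit 38632330), (nat_lit 24534081), (nat_lit 15702173)] (nat_lit 7113113)) p14_18_2 (nat_lit 3) (nat_lit 120) (nat_lit 121) = true := by decide +kernel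
def p14_18_2_121 : pfC (piC [(nat_lit 38632330), (nat_lit 24534081), (nat_lit 15702173)] (nat_lit 7113113)) p14_18_2 (nat_lit 3) (nat_lit 121) (nat_lit 122) = true := by decide +kernel
def p14_18_2_122 : pfC (piC [(nat_lit 38632330), (nat_lit 24534081), (nat_lit 15702173)] (nat_lit 7113113)) p14_18_2 (nat_lit 3) (nat_lit 122) (nat_lit 123) = true := by decide +kernel
def p14_18_2_123 : pfC (piC [(nat_lit 38632330), (nat_lit 24534081), (nat_lit 15702173)] (nat_lit 7113113)) p14_18_2 (nat_lit 3) (nat_lit 123) (nat_lit 124) = true := by decide +kernel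
def p14_18_2_124 : pfC (piC [(nat_lit 38632330), (nat_lit 24534081), (nat_lit 15702173)] (nat_lit 7113113)) p14_18_2 (nat_lit 3) (nat_lit 124) (nat_lit 125) = true := by decide +kernel
def p14_18_2_125 : pfC (piC [(nat_lit 38632330), (nat_lit 24534081), (nat_lit 15702173)] (nat_lit 7113113)) p14_18_2 (nat_lit 3) (nat_lit 125) (nat_lit 126) = true := by decide +kernel
def p14_18_2_126 : pfC (piC [(nat_lit 38632330), (nat_lit 24534081), (nat_lit 15702173)] (nat_lit 7113113)) p14_18_2 (nat_lit 3) (nat_lit 126) (nat_lit 127) = true := by decide +kernel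
def p14_18_2_127 : pfC (piC [(nat_lit 38632330), (nat_lit 24534081), (nat_lit 15702173)] (nat_lit 7113113)) p14_18_2 (nat_lit 3) (nat_lit 127) (nat_lit 128) = true := by decide +kernel
def p14_18_2_128 : pfC (piC [(nat_lit 38632330), (nat_lit 24534081), (nat_lit 15702173)] (nat_lit 7113113)) p14_18_2 (nat_lit 3) (nat_lit 128) (nat_lit 129) = true := by decide +kernel
def p14_18_2_129 : pfC (piC [(nat_lit 38632330), (nat_lit 24534081), (nat_lit 15702173)] (nat_lit 7113113)) p14_18_2 (nat_lit 3) (nat_lit 129) (nat_lit 130) = true := by decide +kernel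
def p14_18_2_130 : pfC (piC [(nat_lit 38632330), (nat_lit 24534081), (nat_lit 15702173)] (nat_lit 7113113)) p14_18_2 (nat_lit 3) (nat_lit 130) (nat_lit 131) = true := by decide +kernel
def p14_18_2_131 : pfC (piC [(nat_lit 38632330), (nat_lit 24534081), (nat_lit 15702173)] (nat_lit 7113113)) p14_18_2 (nat_lit 3) (nat_lit 131) (nat_lit 132) = true := by decide +kernel
def p14_18_2_132 : pfC (piC [(nat_lit 38632330), (nat_lit 24534081), (nat_lit 15702173)] (nat_lit 7113113)) p14_18_2 (nat_lit 3) (nat_lit 132) (nat_lit 133) = true := by decide +kernel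
def p14_18_2_133 : pfC (piC [(nat_lit 38632330), (nat_lit 24534081), (nat_lit 15702173)] (nat_lit 7113113)) p14_18_2 (nat_lit 3) (nat_lit 133) (nat_lit 134) = true := by decide +kernel
def p14_18_2_134 : pfC (piC [(nat_lit 38632330), (nat_lit 24534081), (nat_lit 15702173)] (nat_lit 7113113)) p14_18_2 (nat_lit 3) (nat_lit 134) (nat_lit 135) = true := by decide +kernel
def p14_18_2_135 : pfC (piC [(nat_lit 38632330), (nat_lit 24534081), (nat_lit 15702173)] (nat_lit 7113113)) p14_18_2 (nat_lit 3) (nat_lit 135) (nat_lit 136) = true := by decide +kernel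
def p14_18_2_136 : pfC (piC [(nat_lit 38632330), (nat_lit 24534081), (nat_lit 15702173)] (nat_lit 7113113)) p14_18_2 (nat_lit 3) (nat_lit 136) (nat_lit 137) = true := by decide +kernel
def p14_18_2_137 : pfC (piC [(nat_lit 38632330), (nat_lit 24534081), (nat_lit 15702173)] (nat_lit 7113113)) p14_18_2 (nat_lit 3) (nat_lit 137) (nat_lit 138) = true := by decide +kernel
def p14_18_2_138 : pfC (piC [(nat_lit 38632330), (nat_lit 24534081), (nat_lit 15702173)] (nat_lit 7113113)) p14_18_2 (nat_lit 3) (nat_lit 138) (nat_lit 139) = true := by decide +kernel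
def p14_18_2_139 : pfC (piC [(nat_lit 38632330), (nat_lit 24534081), (nat_lit 15702173)] (nat_lit 7113113)) p14_18_2 (nat_lit 3) (nat_lit 139) (nat_lit 140) = true := by decide +kernel
def p14_18_2_140 : pfC (piC [(nat_lit 38632330), (nat_lit 24534081), (nat_lit 15702173)] (nat_lit 7113113)) p14_18_2 (nat_lit 3) (nat_lit 140) (nat_lit 141) = true := by decide +kernel
def p14_18_2_141 : pfC (piC [(nat_lit 38632330), (nat_lit 24534081), (nat_lit 15702173)] (nat_lit 7113113)) p14_18_2 (nat_lit 3) (nat_lit 141) (nat_lit 142) = true := by decide +kernel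
def p14_18_2_142 : pfC (piC [(nat_lit 38632330), (nat_lit 24534081), (nat_lit 15702173)] (nat_lit 7113113)) p14_18_2 (nat_lit 3) (nat_lit 142) (nat_lit 143) = true := by decide +kernel
def p14_18_2_143 : pfC (piC [(nat_lit 38632330), (nat_lit 24534081), (nat_lit 15702173)] (nat_lit 7113113)) p14_18_2 (nat_lit 3) (nat_lit 143) (nat_lit 144) = true := by decide +kernel
def p14_18_2_144 : pfC (piC [(nat_lit 38632330), (nat_lit 24534081), (nat_lit 15702173)] (nat_lit 7113113)) p14_18_2 (nat_lit 3) (nat_lit 144) (nat_lit 145) = true := by decide +kernel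
def p14_18_2_145 : pfC (piC [(nat_lit 38632330), (nat_lit 24534081), (nat_lit 15702173)] (nat_lit 7113113)) p14_18_2 (nat_lit 3) (nat_lit 145) (nat_lit 146) = true := by decide +kernel
def p14_18_2_146 : pfC (piC [(nat_lit 38632330), (nat_lit 24534081), (nat_lit 15702173)] (nat_lit 7113113)) p14_18_2 (nat_lit 3) (nat_lit 146) (nat_lit 147) = true := by decide +kernel
def p14_18_2_147 : pfC (piC [(nat_lit 38632330), (nat_lit 24534081), (nat_lit 15702173)] (nat_lit 7113113)) p14_18_2 (nat_lit 3) (nat_lit 147) (nat_lit 148) = true := by decide +kernel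
def p14_18_2_148 : pfC (piC [(nat_lit 38632330), (nat_lit 24534081), (nat_lit 15702173)] (nat_lit 7113113)) p14_18_2 (nat_lit 3) (nat_lit 148) (nat_lit 149) = true := by decide +kernel
def p14_18_2_149 : pfC (piC [(nat_lit 38632330), (nat_lit 24534081), (nat_lit 15702173)] (nat_lit 7113113)) p14_18_2 (nat_lit 3) (nat_lit 149) (nat_lit 150) = true := by decide +kernel
def p14_18_2_150 : pfC (piC [(nat_lit 38632330), (nat_lit 24534081), (nat_lit 15702173)] (nat_lit 7113113)) p14_18_2 (nat_lit 3) (nat_lit 150) (nat_lit 151) = true := by decide +kernel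
def p14_18_2_151 : pfC (piC [(nat_lit 38632330), (nat_lit 24534081), (nat_lit 15702173)] (nat_lit 7113113)) p14_18_2 (nat_lit 3) (nat_lit 151) (nat_lit 152) = true := by decide +kernel
def p14_18_2_152 : pfC (piC [(nat_lit 38632330), (nat_lit 24534081), (nat_lit 15702173)] (nat_lit 7113113)) p14_18_2 (nat_lit 3) (nat_lit 152) (nat_lit 153) = true := by decide +kernel
def p14_18_2_153 : pfC (piC [(nat_lit 38632330), (nat_lit 24534081), (nat_lit 15702173)] (nat_lit 7113113)) p14_18_2 (nat_lit 3) (nat_lit 153) (nat_lit 154) = true := by decide +kernel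
def p14_18_2_154 : pfC (piC [(nat_lit 38632330), (nat_lit 24534081), (nat_lit 15702173)] (nat_lit 7113113)) p14_18_2 (nat_lit 3) (nat_lit 154) (nat_lit 155) = true := by decide +kernel
def p14_18_2_155 : pfC (piC [(nat_lit 38632330), (nat_lit 24534081), (nat_lit 15702173)] (nat_lit 7113113)) p14_18_2 (nat_lit 3) (nat_lit 155) (nat_lit 156) = true := by decide +kernel
def p14_18_2_156 : pfC (piC [(nat_lit 38632330), (nat_lit 24534081), (nat_lit 15702173)] (nat_lit 7113113)) p14_18_2 (nat_lit 3) (nat_lit 156) (nat_lit 157) = true := by decide +kernel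
def p14_18_2_157 : pfC (piC [(nat_lit 38632330), (nat_lit 24534081), (nat_lit 15702173)] (nat_lit 7113113)) p14_18_2 (nat_lit 3) (nat_lit 157) (nat_lit 158) = true := by decide +kernel
def p14_18_2_158 : pfC (piC [(nat_lit 38632330), (nat_lit 24534081), (nat_lit 15702173)] (nat_lit 7113113)) p14_18_2 (nat_lit 3) (nat_lit 158) (nat_lit 159) = true := by decide +kernel
def p14_18_2_159 : pfC (piC [(nat_lit 38632330), (nat_lit 24534081), (nat_lit 15702173)] (nat_lit 7113113)) p14_18_2 (nat_lit 3) (nat_lit 159) (nat_lit 160) = true := by decide +kernel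
def p14_18_2_160 : pfC (piC [(nat_lit 38632330), (nat_lit 24534081), (nat_lit 15702173)] (nat_lit 7113113)) p14_18_2 (nat_lit 3) (nat_lit 160) (nat_lit 161) = true := by decide +kernel
def p14_18_2_161 : pfC (piC [(nat_lit 38632330), (nat_lit 24534081), (nat_lit 15702173)] (nat_lit 7113113)) p14_18_2 (nat_lit 3) (nat_lit 161) (nat_lit 162) = true := by decide +kernel
def p14_18_2_162 : pfC (piC [(nat_lit 38632330), (nat_lit 24534081), (nat_lit 15702173)] (nat_lit 7113113)) p14_18_2 (nat_lit 3) (nat_lit 162) (nat_lit 163) = true := by decide +kernel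
def p14_18_2_163 : pfC (piC [(nat_lit 38632330), (nat_lit 24534081), (nat_lit 15702173)] (nat_lit 7113113)) p14_18_2 (nat_lit 3) (nat_lit 163) (nat_lit 164) = true := by decide +kernel
def p14_18_2_164 : pfC (piC [(nat_lit 38632330), (nat_lit 24534081), (nat_lit 15702173)] (nat_lit 7113113)) p14_18_2 (nat_lit 3) (nat_lit 164) (nat_lit 165) = true := by decide +kernel
def p14_18_2_165 : pfC (piC [(nat_lit 38632330), (nat_lit 24534081), (nat_lit 15702173)] (nat_lit 7113113)) p14_18_2 (nat_lit 3) (nat_lit 165) (nat_lit 166) = true := by decide +kernel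
def p14_18_2_166 : pfC (piC [(nat_lit 38632330), (nat_lit 24534081), (nat_lit 15702173)] (nat_lit 7113113)) p14_18_2 (nat_lit 3) (nat_lit 166) (nat_lit 167) = true := by decide +kernel
def p14_18_2_167 : pfC (piC [(nat_lit 38632330), (nat_lit 24534081), (nat_lit 15702173)] (nat_lit 7113113)) p14_18_2 (nat_lit 3) (nat_lit 167) (nat_lit 168) = true := by decide +kernel
def p14_18_2_168 : pfC (piC [(nat_lit 38632330), (nat_lit 24534081), (nat_lit 15702173)] (nat_lit 7113113)) p14_18_2 (nat_lit 3) (nat_lit 168) (nat_lit 169) = true := by decide +kernel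
def p14_18_2_169 : pfC (piC [(nat_lit 38632330), (nat_lit 24534081), (nat_lit 15702173)] (nat_lit 7113113)) p14_18_2 (nat_lit 3) (nat_lit 169) (nat_lit 170) = true := by decide +kernel
def p14_18_2_170 : pfC (piC [(nat_lit 38632330), (nat_lit 24534081), (nat_lit 15702173)] (nat_lit 7113113)) p14_18_2 (nat_lit 3) (nat_lit 170) (nat_lit 171) = true := by decide +kernel
def p14_18_2_171 : pfC (piC [(nat_lit 38632330), (nat_lit 24534081), (nat_lit 15702173)] (nat_lit 7113113)) p14_18_2 (nat_lit 3) (nat_lit 171) (nat_lit 172) = true := by decide +kernel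
def p14_18_2_172 : pfC (piC [(nat_lit 38632330), (nat_lit 24534081), (nat_lit 15702173)] (nat_lit 7113113)) p14_18_2 (nat_lit 3) (nat_lit 172) (nat_lit 173) = true := by decide +kernel
def p14_18_2_173 : pfC (piC [(nat_lit 38632330), (nat_lit 24534081), (nat_lit 15702173)] (nat_lit 7113113)) p14_18_2 (nat_lit 3) (nat_lit 173) (nat_lit 174) = true := by decide +kernel
def p14_18_2_174 : pfC (piC [(nat_lit 38632330), (nat_lit 24534081), (nat_lit 15702173)] (nat_lit 7113113)) p14_18_2 (nat_lit 3) (nat_lit 174) (nat_lit 175) = true := by decide +kernel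
def p14_18_2_175 : pfC (piC [(nat_lit 38632330), (nat_lit 24534081), (nat_lit 15702173)] (nat_lit 7113113)) p14_18_2 (nat_lit 3) (nat_lit 175) (nat_lit 176) = true := by decide +kernel
def p14_18_2_176 : pfC (piC [(nat_lit 38632330), (nat_lit 24534081), (nat_lit 15702173)] (nat_lit 7113113)) p14_18_2 (nat_lit 3) (nat_lit 176) (nat_lit 177) = true := by decide +kernel
def p14_18_2_177 : pfC (piC [(nat_lit 38632330), (nat_lit 24534081), (nat_lit 15702173)] (nat_lit 7113113)) p14_18_2 (nat_lit 3) (nat_lit 177) (nat_lit 178) = true := by decide +kernel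
def p14_18_2_178 : pfC (piC [(nat_lit 38632330), (nat_lit 24534081), (nat_lit 15702173)] (nat_lit 7113113)) p14_18_2 (nat_lit 3) (nat_lit 178) (nat_lit 179) = true := by decide +kernel
def p14_18_2_179 : pfC (piC [(nat_lit 38632330), (nat_lit 24534081), (nat_lit 15702173)] (nat_lit 7113113)) p14_18_2 (nat_lit 3) (nat_lit 179) (nat_lit 180) = true := by decide +kernel
def p14_18_2_180 : pfC (piC [(nat_lit 38632330), (nat_lit 24534081), (nat_lit 15702173)] (nat_lit 7113113)) p14_18_2 (nat_lit 3) (nat_lit 180) (nat_lit 181) = true := by decide +kernel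
def p14_18_2_181 : pfC (piC [(nat_lit 38632330), (nat_lit 24534081), (nat_lit 15702173)] (nat_lit 7113113)) p14_18_2 (nat_lit 3) (nat_lit 181) (nat_lit 182) = true := by decide +kernel
def p14_18_2_182 : pfC (piC [(nat_lit 38632330), (nat_lit 24534081), (nat_lit 15702173)] (nat_lit 7113113)) p14_18_2 (nat_lit 3) (nat_lit 182) (nat_lit 183) = true := by decide +kernel
def p14_18_2_183 : pfC (piC [(nat_lit 38632330), (nat_lit 24534081), (nat_lit 15702173)] (nat_lit 7113113)) p14_18_2 (nat_lit 3) (nat_lit 183) (nat_lit 184) = true := by decide +kernel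
def p14_18_2_184 : pfC (piC [(nat_lit 38632330), (nat_lit 24534081), (nat_lit 15702173)] (nat_lit 7113113)) p14_18_2 (nat_lit 3) (nat_lit 184) (nat_lit 185) = true := by decide +kernel
theorem p14_18_2_T : PfS (PiF n14_18.reverse (nat_lit 7113113)) p14_18_2 (nat_lit 3) [] 0 :=
  pftab_of (los := [(nat_lit 38632330), (nat_lit 24534081), (nat_lit 15702173)]) (by decide +kernel) (hi := (nat_lit 185)) (PfP.trans (PfP.trans (PfP.trans (PfP.trans (PfP.trans (PfP.trans (PfP.trans (PfP.trans (PfP.trans (PfP.trans (PfP.trans (PfP.trans (PfP.trans (PfP.trans (PfP.trans (PfP.trans (PfP.trans (PfP.trans (PfP.trans (PfP.trans (PfP.trans (PfP.trans (PfP.trans (PfP.trans (PfP.trans (PfP.trans (PfP.trans (PfP.trans (PfP.trans (PfP.trans (PfP.trans (PfP.trans (PfP.trans (PfP.trans (PfP.trans (PfP.trans (PfP.trans (PfP.trans (PfP.trans (PfP.trans (PfP.trans (PfP.trans (PfP.trans (PfP.trans (PfP.trans (PfP.trans (PfP.trans (PfP.trans (PfP.trans (PfP.trans (PfP.trans (PfP.trans (PfP.trans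 (PfP.trans (PfP.trans (PfP.trans (PfP.trans (PfP.trans (PfP.trans (PfP.trans (PfP.trans (PfP.trans (PfP.trans (PfP.trans (PfP.trans (PfP.trans (PfP.trans (PfP.trans (PfP.trans (PfP.trans (PfP.trans (PfP.trans (PfP.trans (PfP.trans (PfP.trans (PfP.trans (PfP.trans (PfP.trans (PfP.trans (PfP.trans (PfP.trans (PfP.trans (PfP.trans (PfP.trans (PfP.trans (PfP.trans (PfP.trans (PfP.trans (PfP.trans (PfP.trans (PfP.trans (PfP.trans (PfP.trans (PfP.trans (PfP.trans (PfP.trans (PfP.trans (PfP.trans (PfP.trans (PfP.trans (PfP.trans (PfP.trans (PfP.trans (PfP.trans (PfP.trans (PfP.trans (PfP.trans (PfP.trans (PfP.trans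
 (PfP.trans (PfP.trans (PfP.trans (PfP.trans (PfP.trans (PfP.trans (PfP.trans (PfP.trans (PfP.trans (PfP.trans (PfP.trans (PfP.trans (PfP.trans (PfP.trans (PfP.trans (PfP.trans (PfP.trans (PfP.trans (PfP.trans (PfP.trans (PfP.trans (PfP.trans (PfP.trans (PfP.trans (PfP.trans (PfP.trans (PfP.trans (PfP.trans (PfP.trans (PfP.trans (PfP.trans (PfP.trans (PfP.trans (PfP.trans (PfP.trans (PfP.trans (PfP.trans (PfP.trans (PfP.trans (PfP.trans (PfP.trans (PfP.trans (PfP.trans (PfP.trans (PfP.trans (PfP.trans (PfP.trans (PfP.trans (PfP.trans (PfP.trans (PfP.trans (PfP.trans (PfP.trans (PfP.trans (PfP.trans (PfP.trans (PfP.trans (PfP.trans (PfP.trans (PfP.trans (PfP.trans (PfP.trans (PfP.trans (PfP.trans (PfP.trans (PfP.trans (PfP.trans (PfP.trans (PfP.trans (PfP.trans (PfP.trans (PfP.trans (PfP.trans (PfP.trans (PfP.trans (pfC_sound p14_18_2_0) (pfC_sound p14_18_2_1)) (pfC_sound p14_18_2_2)) (pfC_sound p14_18_2_3)) (pfC_sound p14_18_2_4)) (pfC_sound p14_18_2_5)) (pfC_sound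 p14_18_2_6)) (pfC_sound p14_18_2_7)) (pfC_sound p14_18_2_8)) (pfC_sound p14_18_2_9)) (pfC_sound p14_18_2_10)) (pfC_sound p14_18_2_11)) (pfC_sound p14_18_2_12)) (pfC_sound p14_18_2_13)) (pfC_sound p14_18_2_14)) (pfC_sound
 p14_18_2_15)) (pfC_sound p14_18_2_16)) (pfC_sound p14_18_2_17)) (pfC_sound p14_18_2_18)) (pfC_sound p14_18_2_19)) (pfC_sound p14_18_2_20)) (pfC_sound p14_18_2_21)) (pfC_sound p14_18_2_22)) (pfC_sound p14_18_2_23)) (pfC_sound p14_18_2_24)) (pfC_sound p14_18_2_25)) (pfC_sound p14_18_2_26)) (pfC_sound p14_18_2_27)) (pfC_sound p14_18_2_28)) (pfC_sound p14_18_2_29)) (pfC_sound p14_18_2_30)) (pfC_sound p14_18_2_31)) (pfC_sound p14_18_2_32)) (pfC_sound p14_18_2_33)) (pfC_sound p14_18_2_34)) (pfC_sound p14_18_2_35)) (pfC_sound p14_18_2_36)) (pfC_sound p14_18_2_37)) (pfC_sound p14_18_2_38)) (pfC_sound p14_18_2_39)) (pfC_sound p14_18_2_40)) (pfC_sound p14_18_2_41)) (pfC_sound p14_18_2_42)) (pfC_sound p14_18_2_43)) (pfC_sound p14_18_2_44)) (pfC_sound p14_18_2_45))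 (pfC_sound p14_18_2_46)) (pfC_sound p14_18_2_47)) (pfC_sound p14_18_2_48)) (pfC_sound p14_18_2_49)) (pfC_sound p14_18_2_50)) (pfC_sound p14_18_2_51)) (pfC_sound p14_18_2_52)) (pfC_sound p14_18_2_53)) (pfC_sound p14_18_2_54)) (pfC_sound p14_18_2_55)) (pfC_sound p14_18_2_56)) (pfC_sound p14_18_2_57)) (pfC_sound p14_18_2_58)) (pfC_sound p14_18_2_59)) (pfC_sound p14_18_2_60)) (pfC_sound p14_18_2_61)) (pfC_sound p14_18_2_62)) (pfC_sound
 p14_18_2_63)) (pfC_sound p14_18_2_64)) (pfC_sound p14_18_2_65)) (pfC_sound p14_18_2_66)) (pfC_sound p14_18_2_67)) (pfC_sound p14_18_2_68)) (pfC_sound p14_18_2_69)) (pfC_sound p14_18_2_70)) (pfC_sound p14_18_2_71)) (pfC_sound p14_18_2_72)) (pfC_sound p14_18_2_73)) (pfC_sound p14_18_2_74)) (pfC_sound p14_18_2_75)) (pfC_sound p14_18_2_76)) (pfC_sound p14_18_2_77)) (pfC_sound p14_18_2_78)) (pfC_sound p14_18_2_79)) (pfC_sound p14_18_2_80)) (pfC_sound p14_18_2_81)) (pfC_sound p14_18_2_82)) (pfC_sound p14_18_2_83)) (pfC_sound p14_18_2_84)) (pfC_sound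 p14_18_2_85)) (pfC_sound p14_18_2_86)) (pfC_sound p14_18_2_87)) (pfC_sound p14_18_2_88)) (pfC_sound p14_18_2_89)) (pfC_sound p14_18_2_90)) (pfC_sound p14_18_2_91)) (pfC_sound p14_18_2_92)) (pfC_sound p14_18_2_93)) (pfC_sound p14_18_2_94)) (pfC_sound p14_18_2_95)) (pfC_sound p14_18_2_96)) (pfC_sound p14_18_2_97)) (pfC_sound p14_18_2_98)) (pfC_sound p14_18_2_99)) (pfC_sound p14_18_2_100)) (pfC_sound p14_18_2_101)) (pfC_sound p14_18_2_102)) (pfC_sound p14_18_2_103)) (pfC_sound p14_18_2_104)) (pfC_sound p14_18_2_105)) (pfC_sound p14_18_2_106)) (pfC_sound p14_18_2_107)) (pfC_sound p14_18_2_108)) (pfC_sound p14_18_2_109)) (pfC_sound p14_18_2_110))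
 (pfC_sound p14_18_2_111)) (pfC_sound p14_18_2_112)) (pfC_sound p14_18_2_113)) (pfC_sound p14_18_2_114)) (pfC_sound p14_18_2_115)) (pfC_sound p14_18_2_116)) (pfC_sound p14_18_2_117)) (pfC_sound p14_18_2_118)) (pfC_sound p14_18_2_119)) (pfC_sound p14_18_2_120)) (pfC_sound p14_18_2_121)) (pfC_sound p14_18_2_122)) (pfC_sound p14_18_2_123)) (pfC_sound p14_18_2_124)) (pfC_sound p14_18_2_125)) (pfC_sound p14_18_2_126)) (pfC_sound p14_18_2_127)) (pfC_sound p14_18_2_128)) (pfC_sound p14_18_2_129)) (pfC_sound p14_18_2_130)) (pfC_sound p14_18_2_131)) (pfC_sound p14_18_2_132)) (pfC_sound p14_18_2_133)) (pfC_sound p14_18_2_134)) (pfC_sound p14_18_2_135)) (pfC_sound p14_18_2_136)) (pfC_sound p14_18_2_137)) (pfC_sound p14_18_2_138)) (pfC_sound p14_18_2_139)) (pfC_sound p14_18_2_140)) (pfC_sound p14_18_2_141)) (pfC_sound p14_18_2_142)) (pfC_sound p14_18_2_143)) (pfC_sound p14_18_2_144)) (pfC_sound p14_18_2_145)) (pfC_sound p14_18_2_146)) (pfC_sound p14_18_2_147)) (pfC_sound p14_18_2_148))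 (pfC_sound p14_18_2_149)) (pfC_sound p14_18_2_150)) (pfC_sound p14_18_2_151)) (pfC_sound p14_18_2_152)) (pfC_sound p14_18_2_153)) (pfC_sound p14_18_2_154)) (pfC_sound p14_18_2_155)) (pfC_sound p14_18_2_156))
 (pfC_sound p14_18_2_157)) (pfC_sound p14_18_2_158)) (pfC_sound p14_18_2_159)) (pfC_sound p14_18_2_160)) (pfC_sound p14_18_2_161)) (pfC_sound p14_18_2_162)) (pfC_sound p14_18_2_163)) (pfC_sound p14_18_2_164)) (pfC_sound p14_18_2_165)) (pfC_sound p14_18_2_166)) (pfC_sound p14_18_2_167)) (pfC_sound p14_18_2_168)) (pfC_sound p14_18_2_169)) (pfC_sound p14_18_2_170)) (pfC_sound p14_18_2_171)) (pfC_sound p14_18_2_172)) (pfC_sound p14_18_2_173)) (pfC_sound p14_18_2_174)) (pfC_sound p14_18_2_175)) (pfC_sound p14_18_2_176)) (pfC_sound p14_18_2_177)) (pfC_sound p14_18_2_178)) (pfC_sound p14_18_2_179)) (pfC_sound p14_18_2_180)) (pfC_sound p14_18_2_181)) (pfC_sound p14_18_2_182)) (pfC_sound p14_18_2_183)) (pfC_sound p14_18_2_184)) (by decide +kernel)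

def z14_18_2 : zOK yB14_18 (nat_lit 2) (nat_lit 600) (nat_lit 743) (nat_lit 7113113) (nat_lit 5833965) = true := by decide +kernel
def g14_18_2 : gOK yB14_18.x P14_18 (nat_lit 1390) (q14_18 :: r14_18) (nat_lit 2) (nat_lit 600) (nat_lit 3) (nat_lit 743) (nat_lit 12712500) (nat_lit 12712500) (nat_lit 12712500) (nat_lit 12712500) [(nat_lit 800)] = true := by decide +kernel
def v14_18_2 : ivC P14_18 s14_18 w14_18 n14_18 (nat_lit 3) (nat_lit 4700) (nat_lit 2) (nat_lit 600) f176_0_600 f184_0_600 (nat_lit 3) (nat_lit 743) f176_0_743 f184_0_743 (nat_lit 7113113) (nat_lit 5833965) p14_18_2 = true := by decide +kernel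
end CB
end Pool.Agent.Lib.MP_6947cd_al
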