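import Pool.Agent.Lib.MP_6947cd_al.L.BoxDataB
import Pool.Agent.Lib.MP_6947cd_al.L.TeD1
import Pool.Agent.Lib.MP_6947cd_al.L.TeD2

/-!
Problem MP_6947cd_al (Chollet).  CASE B, rows `j`: boxes (generated).
-/

set_option autoImplicit false
set_option linter.defProp false
set_option maxRecDepth 20000

namespace Pool.Agent.Lib.MP_6947cd_al
namespace CB

open Ent Ent.Pk Fr Fr.WT CA

/-! box `yB14_19` -/

def P14_19 : BQ := ⟨(nat_lit 8), (nat_lit 8), (nat_lit 0), (nat_lit 4), (nat_lit 4), (nat_lit 920), (nat_lit 940), (nat_lit 90), [(nat_lit 180), (nat_lit 330), (nat_lit 650)], (nat_lit 144416000), (nat_lit 16000000), (nat_lit 16000000000)⟩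
def q14_19 : PC := ⟨(nat_lit 1000), [(nat_lit 90000), (nat_lit 180000), (nat_lit 330000), (nat_lit 650000)], (nat_lit 79228162532711081671548469249000000), (nat_lit 15855584000000), (nat_lit 15855584000000), (nat_lit 10000000)⟩
def r14_19 : List PC := [⟨(nat_lit 1333), [(nat_lit 90522), (nat_lit 180688), (nat_lit 331233), (nat_lit 651382)], (nat_lit 79658926052401099781196406542256857), (nat_lit 16342029626560), (nat_lit 16353072226240), (nat_lit 10058000)⟩, ⟨(nat_lit 1925), [(nat_lit 92328), (nat_lit 182131), (nat_lit 333575), (nat_lit 657563)], (nat_lit 80398600177825158544673586296085018), (nat_lit 17097506296000), (nat_lit 17128180184000), (nat_lit 10258667)⟩]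
def s14_19 : List PB := [⟨(nat_lit 26660), (nat_lit 1448352000000), [(nat_lit 180688), (nat_lit 331233), (nat_lit 651382)], (nat_lit 79658926052401099781196406542256857), (nat_lit 1142241936469184), (nat_lit 1142252979068864), (nat_lit 53280)⟩, ⟨(nat_lit 38500), (nat_lit 1477248000000), [(nat_lit 182131), (nat_lit 333575), (nat_lit 657563)], (nat_lit 80398600177825158544673586296085018), (nat_lit 1142997413138624), (nat_lit 1143028087026624), (nat_lit 148000)⟩]
def n14_19 : List KN := [⟨(nat_lit 650), (nat_lit 330), (nat_lit 15232604), (nat_lit 7830720)⟩, ⟨(nat_lit 330), (nat_lit 180), (nat_lit 23751559), (nat_lit 15232604)⟩, ⟨(nat_lit 180), (nat_lit 90), (nat_lit 37297016), (nat_lit 23751559)⟩]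
def w14_19 : List ℕ := [(nat_lit 53280), (nat_lit 148000)]
def par14_19 : parC yB14_19 P14_19 s14_19 r14_19 q14_19 n14_19 w14_19 = true := by decide +kernel

def p14_19_0 : PF := (PF.cons (PF.cons (PF.cons (PF.leaf (nat_lit 960196) (nat_lit 3209046) (nat_lit 63899766) (nat_lit 3209046) [(nat_lit 0), (nat_lit 0), (nat_lit 0)]) (PF.cons (PF.leaf (nat_lit 1149455) (nat_lit 314177) (nat_lit 63511809) (nat_lit 3282825) [(nat_lit 314177), (nat_lit 0), (nat_lit 0)]) (PF.cons (PF.leaf (nat_lit 1376865) (nat_lit 346650) (nat_lit 63052258) (nat_lit 3363252) [(nat_lit 346650), (nat_lit 0), (nat_lit 0)]) (PF.cons (PF.leaf (nat_lit 1636465) (nat_lit 376760) (nat_lit 62531965) (nat_lit 3446565) [(nat_lit 376760), (nat_lit 0), (nat_lit 0)]) (PF.cons (PF.leaf (nat_lit 1924845) (nat_lit 404931) (nat_lit 61958881) (nat_lit 3530205) [(nat_lit 404931), (nat_lit 0), (nat_lit 0)]) (PF.cons (PF.leaf (nat_lit 2239032) (nat_lit 431390) (nat_lit 61339490) (nat_lit 3612369) [(nat_lit 431390),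 (nat_lit 0), (nat_lit 0)]) (PF.cons (PF.leaf (nat_lit 2576489) (nat_lit 456267) (nat_lit 60679436) (nat_lit 3691773) [(nat_lit 456267), (nat_lit 0), (nat_lit 0)]) (PF.cons (PF.leaf (nat_lit 2934838) (nat_lit 479641) (nat_lit 59983819) (nat_lit 3767502) [(nat_lit 479641), (nat_lit 0), (nat_lit 0)]) (PF.cons (PF.leaf (nat_lit 3311833) (nat_lit 501569) (nat_lit 59257345) (nat_lit 3838914)
 [(nat_lit 501569), (nat_lit 0), (nat_lit 0)]) (PF.cons (PF.leaf (nat_lit 3705349) (nat_lit 522093) (nat_lit 58504399) (nat_lit 3905575) [(nat_lit 522093), (nat_lit 0), (nat_lit 0)]) (PF.cons (PF.leaf (nat_lit 4113364) (nat_lit 541251) (nat_lit 57729084) (nat_lit 3967209) [(nat_lit 541251), (nat_lit 0), (nat_lit 0)]) (PF.cons (PF.leaf (nat_lit 4533977) (nat_lit 559082) (nat_lit 56935239) (nat_lit 4023663) [(nat_lit 559082), (nat_lit 0), (nat_lit 0)]) (PF.cons (PF.leaf (nat_lit 4965344) (nat_lit 575623) (nat_lit 56126449) (nat_lit 4074880) [(nat_lit 575623), (nat_lit 0), (nat_lit 0)])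 (PF.cons (PF.leaf (nat_lit 5405751) (nat_lit 590914) (nat_lit 55306046) (nat_lit 4120879) [(nat_lit 590914), (nat_lit 0), (nat_lit 0)]) (PF.cons (PF.leaf (nat_lit 5853594) (nat_lit 604996) (nat_lit 54477116) (nat_lit 4161740) [(nat_lit 604996), (nat_lit 0), (nat_lit 0)]) (PF.cons (PF.leaf (nat_lit 6307395) (nat_lit 617914) (nat_lit 53642501) (nat_lit 4197587) [(nat_lit 617914), (nat_lit 0), (nat_lit 0)]) (PF.cons (PF.leaf (nat_lit 6765706) (nat_lit 629714) (nat_lit 52804804) (nat_lit 4228577) [(nat_lit 629714), (nat_lit 0), (nat_lit 0)]) (PF.cons PF.nil (PF.cons PF.nil (PF.cons PF.nil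
 PF.nil)))))))))))))))))))) (PF.cons (PF.cons (PF.leaf (nat_lit 1713158) (nat_lit 1771991) (nat_lit 61814221) (nat_lit 3522599) [(nat_lit 0), (nat_lit 1771991), (nat_lit 0)]) (PF.cons (PF.leaf (nat_lit 1972764) (nat_lit 404038) (nat_lit 61282964) (nat_lit 3593268) [(nat_lit 404038), (nat_lit 1828541), (nat_lit 0)]) (PF.cons (PF.leaf (nat_lit 2262560) (nat_lit 430754) (nat_lit 60697488) (nat_lit 3664758) [(nat_lit 430754), (nat_lit 1885056), (nat_lit 0)]) (PF.cons (PF.leaf (nat_lit 2578094) (nat_lit 455635) (nat_lit 60066411) (nat_lit 3735185) [(nat_lit 455635), (nat_lit 1940310), (nat_lit 0)]) (PF.cons (PF.leaf (nat_lit 2916303) (nat_lit 478879) (nat_lit 59396511) (nat_lit 3803255) [(nat_lit 478879), (nat_lit 1993528), (nat_lit 0)]) (PF.cons (PF.leaf (nat_lit 3274538) (nat_lit 500607) (nat_lit 58693500) (nat_lit 3868071) [(nat_lit 500607), (nat_lit 2044206), (nat_lit 0)]) (PF.cons (PF.leaf (nat_lit 3650437) (nat_lit 520898) (nat_lit 57962389) (nat_lit 3929011) [(nat_lit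 520898), (nat_lit 2092017), (nat_lit 0)]) (PF.cons (PF.leaf (nat_lit 4041816) (nat_lit 539815) (nat_lit 57207684) (nat_lit 3985663) [(nat_lit 539815), (nat_lit 2136759), (nat_lit 0)]) (PF.cons (PF.leaf (nat_lit
 4446676) (nat_lit 557406) (nat_lit 56433484) (nat_lit 4037763) [(nat_lit 557406), (nat_lit 2178315), (nat_lit 0)]) (PF.cons (PF.leaf (nat_lit 4863113) (nat_lit 573718) (nat_lit 55643542) (nat_lit 4085170) [(nat_lit 573718), (nat_lit 2216635), (nat_lit 0)]) (PF.cons (PF.leaf (nat_lit 5289368) (nat_lit 588795) (nat_lit 54841301) (nat_lit 4127833) [(nat_lit 588795), (nat_lit 2251721), (nat_lit 0)]) (PF.cons (PF.leaf (nat_lit 5723817) (nat_lit 602682) (nat_lit 54029921) (nat_lit 4165771) [(nat_lit 602682), (nat_lit 2283609), (nat_lit 0)]) (PF.cons (PF.leaf (nat_lit 6164896) (nat_lit 615425) (nat_lit 53212286) (nat_lit 4199058) [(nat_lit 615425), (nat_lit 2312366), (nat_lit 0)]) (PF.cons (PF.leaf (nat_lit 6611224) (nat_lit 627068) (nat_lit 52391028) (nat_lit 4227813)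 [(nat_lit 627068), (nat_lit 2338080), (nat_lit 0)]) (PF.cons (PF.leaf (nat_lit 7061455) (nat_lit 637659) (nat_lit 51568535) (nat_lit 4252183) [(nat_lit 637659), (nat_lit 2360857), (nat_lit 0)]) (PF.cons PF.nil (PF.cons PF.nil (PF.cons PF.nil PF.nil)))))))))))))))))) (PF.cons (PF.cons (PF.leaf (nat_lit 2603766) (nat_lit 1967248) (nat_lit 59393889) (nat_lit 3780426) [(nat_lit 0), (nat_lit 1967248), (nat_lit 0)]) (PF.cons
 (PF.leaf (nat_lit 2916524) (nat_lit 476322) (nat_lit 58762386) (nat_lit 3839993) [(nat_lit 476322), (nat_lit 2015055), (nat_lit 0)]) (PF.cons (PF.leaf (nat_lit 3252597) (nat_lit 498234) (nat_lit 58092025) (nat_lit 3897691) [(nat_lit 498234), (nat_lit 2061313), (nat_lit 0)]) (PF.cons (PF.leaf (nat_lit 3608429) (nat_lit 518565) (nat_lit 57389656) (nat_lit 3952585) [(nat_lit 518565), (nat_lit 2105437), (nat_lit 0)]) (PF.cons (PF.leaf (nat_lit 3981357) (nat_lit 537438) (nat_lit 56660897) (nat_lit 4004048) [(nat_lit 537438), (nat_lit 2147057), (nat_lit 0)])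 (PF.cons (PF.leaf (nat_lit 4369075) (nat_lit 554940) (nat_lit 55910552) (nat_lit 4051666) [(nat_lit 554940), (nat_lit 2185944), (nat_lit 0)]) (PF.cons (PF.leaf (nat_lit 4769512) (nat_lit 571141) (nat_lit 55142837) (nat_lit 4095186) [(nat_lit 571141), (nat_lit 2221968), (nat_lit 0)]) (PF.cons (PF.leaf (nat_lit 5180780) (nat_lit 586100) (nat_lit 54361506) (nat_lit 4134468) [(nat_lit 586100), (nat_lit 2255068), (nat_lit 0)]) (PF.cons (PF.leaf (nat_lit 5601126) (nat_lit 599868) (nat_lit 53569930) (nat_lit 4169462) [(nat_lit 599868), (nat_lit 2285233), (nat_lit 0)]) (PF.cons (PF.leaf (nat_lit 6028968) (nat_lit 612498) (nat_lit 52771146)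
 (nat_lit 4200186) [(nat_lit 612498), (nat_lit 2312495), (nat_lit 0)]) (PF.cons (PF.leaf (nat_lit 6462841) (nat_lit 624039) (nat_lit 51967890) (nat_lit 4226709) [(nat_lit 624039), (nat_lit 2336911), (nat_lit 0)]) (PF.cons (PF.leaf (nat_lit 6901391) (nat_lit 634538) (nat_lit 51162627) (nat_lit 4249140) [(nat_lit 634538), (nat_lit 2358561), (nat_lit 0)]) (PF.cons (PF.leaf (nat_lit 7343375) (nat_lit 644045) (nat_lit 50357567) (nat_lit 4267616) [(nat_lit 644045), (nat_lit 2377542), (nat_lit 0)]) (PF.cons PF.nil (PF.cons PF.nil (PF.cons PF.nil PF.nil)))))))))))))))) (PF.cons (PF.cons (PF.leaf (nat_lit 3586444) (nat_lit 2119611) (nat_lit 56773091) (nat_lit 3976888) [(nat_lit 0), (nat_lit 2119611), (nat_lit 0)]) (PF.cons (PF.leaf (nat_lit 3937077) (nat_lit 533736) (nat_lit 56079085) (nat_lit 4022742) [(nat_lit 533736), (nat_lit 2157749), (nat_lit 0)]) (PF.cons (PF.leaf (nat_lit 4305124) (nat_lit 551406) (nat_lit 55359158) (nat_lit 4065619) [(nat_lit 551406), (nat_lit 2193740),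 (nat_lit 0)]) (PF.cons (PF.leaf (nat_lit 4687665) (nat_lit 567684) (nat_lit 54618700) (nat_lit 4105089) [(nat_lit 567684), (nat_lit 2227323), (nat_lit 0)]) (PF.cons (PF.leaf (nat_lit 5082480) (nat_lit 582666)
 (nat_lit 53862221) (nat_lit 4140891) [(nat_lit 582666), (nat_lit 2258344), (nat_lit 0)]) (PF.cons (PF.leaf (nat_lit 5487613) (nat_lit 596427) (nat_lit 53093595) (nat_lit 4172884) [(nat_lit 596427), (nat_lit 2286731), (nat_lit 0)]) (PF.cons (PF.leaf (nat_lit 5901330) (nat_lit 609034) (nat_lit 52316203) (nat_lit 4201013) [(nat_lit 609034), (nat_lit 2312463), (nat_lit 0)]) (PF.cons (PF.leaf (nat_lit 6322025) (nat_lit 620543) (nat_lit 51533029) (nat_lit 4225292) [(nat_lit 620543), (nat_lit 2335562), (nat_lit 0)]) (PF.cons (PF.leaf (nat_lit 6748281) (nat_lit 631010) (nat_lit 50746712) (nat_lit 4245782) [(nat_lit 631010), (nat_lit 2356078), (nat_lit 0)]) (PF.cons (PF.leaf (nat_lit 7178800) (nat_lit 640487) (nat_lit 49959595) (nat_lit 4262584) [(nat_lit 640487), (nat_lit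 2374081), (nat_lit 0)]) (PF.cons (PF.leaf (nat_lit 7612386) (nat_lit 649024) (nat_lit 49173757) (nat_lit 4275823) [(nat_lit 649024), (nat_lit 2389661), (nat_lit 0)]) (PF.cons (PF.leaf (nat_lit 8047969) (nat_lit 656671) (nat_lit 48391035) (nat_lit 4285647) [(nat_lit 656671), (nat_lit 2402915), (nat_lit 0)]) (PF.cons PF.nil (PF.cons PF.nil PF.nil)))))))))))))) (PF.cons (PF.cons (PF.leaf (nat_lit 4622811) (nat_lit 2232941)
 (nat_lit 54061916) (nat_lit 4115130) [(nat_lit 0), (nat_lit 2232941), (nat_lit 0)]) (PF.cons (PF.leaf (nat_lit 4998318) (nat_lit 578223) (nat_lit 53336504) (nat_lit 4147258) [(nat_lit 578223), (nat_lit 2261706), (nat_lit 0)]) (PF.cons (PF.leaf (nat_lit 5386310) (nat_lit 592155) (nat_lit 52595561) (nat_lit 4176131) [(nat_lit 592155), (nat_lit 2288202), (nat_lit 0)]) (PF.cons (PF.leaf (nat_lit 5784394) (nat_lit 604874) (nat_lit 51843252) (nat_lit 4201596) [(nat_lit 604874), (nat_lit 2312335), (nat_lit 0)]) (PF.cons (PF.leaf (nat_lit 6190768) (nat_lit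 616458) (nat_lit 51083086) (nat_lit 4223593) [(nat_lit 616458), (nat_lit 2334075), (nat_lit 0)]) (PF.cons (PF.leaf (nat_lit 6603814) (nat_lit 626977) (nat_lit 50318072) (nat_lit 4242126) [(nat_lit 626977), (nat_lit 2353431), (nat_lit 0)]) (PF.cons (PF.leaf (nat_lit 7022104) (nat_lit 636492) (nat_lit 49550819) (nat_lit 4257250) [(nat_lit 636492), (nat_lit 2370446), (nat_lit 0)]) (PF.cons (PF.leaf (nat_lit 7444360) (nat_lit 645060) (nat_lit 48783601) (nat_lit 4269052) [(nat_lit 645060), (nat_lit 2385183), (nat_lit 0)]) (PF.cons (PF.leaf (nat_lit 7869440) (nat_lit 652735) (nat_lit 48018402) (nat_lit 4277649) [(nat_lit 652735), (nat_lit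
 2397720), (nat_lit 0)]) (PF.cons (PF.leaf (nat_lit 8296296) (nat_lit 659565) (nat_lit 47256960) (nat_lit 4283175) [(nat_lit 659565), (nat_lit 2408146), (nat_lit 0)]) (PF.cons PF.nil (PF.cons PF.nil PF.nil)))))))))))) (PF.cons (PF.cons (PF.leaf (nat_lit 5682132) (nat_lit 2312215) (nat_lit 51345712) (nat_lit 4202020) [(nat_lit 0), (nat_lit 2312215), (nat_lit 0)]) (PF.cons (PF.leaf (nat_lit 6071972) (nat_lit 611586) (nat_lit 50613001) (nat_lit 4221657) [(nat_lit 611586), (nat_lit 2332513), (nat_lit 0)]) (PF.cons (PF.leaf (nat_lit 6470293) (nat_lit 622286) (nat_lit 49872740) (nat_lit 4238191) [(nat_lit 622286), (nat_lit 2350661), (nat_lit 0)]) (PF.cons (PF.leaf (nat_lit 6875186) (nat_lit 631940) (nat_lit 49128078) (nat_lit 4251617) [(nat_lit 631940), (nat_lit 2366659), (nat_lit 0)]) (PF.cons (PF.leaf (nat_lit 7285171) (nat_lit 640620) (nat_lit 48381667) (nat_lit 4261978) [(nat_lit 640620), (nat_lit 2380537), (nat_lit 0)]) (PF.cons (PF.leaf (nat_lit 7698960) (nat_lit 648386)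 (nat_lit 47635770) (nat_lit 4269353) [(nat_lit 648386), (nat_lit 2392350), (nat_lit 0)]) (PF.cons (PF.leaf (nat_lit 8115418) (nat_lit 655298) (nat_lit 46892331) (nat_lit 4273846) [(nat_lit 655298), (nat_lit
 2402169), (nat_lit 0)]) (PF.cons (PF.leaf (nat_lit 8533549) (nat_lit 661406) (nat_lit 46153021) (nat_lit 4275578) [(nat_lit 661406), (nat_lit 2410073), (nat_lit 0)]) (PF.cons PF.nil (PF.cons PF.nil PF.nil)))))))))) (PF.cons (PF.cons (PF.leaf (nat_lit 6741079) (nat_lit 2362753) (nat_lit 48686602) (nat_lit 4245688) [(nat_lit 0), (nat_lit 2362753), (nat_lit 0)]) (PF.cons (PF.leaf (nat_lit 7137052) (nat_lit 635556) (nat_lit 47964222) (nat_lit 4254588) [(nat_lit 635556), (nat_lit 2375740), (nat_lit 0)]) (PF.cons (PF.leaf (nat_lit 7538376) (nat_lit 643511) (nat_lit 47240167) (nat_lit 4260738) [(nat_lit 643511), (nat_lit 2386813), (nat_lit 0)]) (PF.cons (PF.leaf (nat_lit 7943493) (nat_lit 650579) (nat_lit 46516763) (nat_lit 4264205) [(nat_lit 650579), (nat_lit 2396017),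 (nat_lit 0)]) (PF.cons (PF.leaf (nat_lit 8351246) (nat_lit 656822) (nat_lit 45795964) (nat_lit 4265082) [(nat_lit 656822), (nat_lit 2403412), (nat_lit 0)]) (PF.cons (PF.leaf (nat_lit 8760618) (nat_lit 662295) (nat_lit 45079422) (nat_lit 4263479) [(nat_lit 662295), (nat_lit 2409072), (nat_lit 0)]) (PF.cons (PF.leaf (nat_lit 9170738) (nat_lit 667050) (nat_lit 44368540) (nat_lit 4259517) [(nat_lit 667050), (nat_lit 2413075),
 (nat_lit 0)]) (PF.cons PF.nil PF.nil)))))))) (PF.cons (PF.cons (PF.leaf (nat_lit 7782853) (nat_lit 2389691) (nat_lit 46126754) (nat_lit 4254218) [(nat_lit 0), (nat_lit 2389691), (nat_lit 0)]) (PF.cons (PF.leaf (nat_lit 8178840) (nat_lit 651738) (nat_lit 45426831) (nat_lit 4254250) [(nat_lit 651738), (nat_lit 2396570), (nat_lit 0)]) (PF.cons (PF.leaf (nat_lit 8577760) (nat_lit 657402) (nat_lit 44729377) (nat_lit 4251954) [(nat_lit 657402), (nat_lit 2401810), (nat_lit 0)]) (PF.cons (PF.leaf (nat_lit 8978368) (nat_lit 662323) (nat_lit 44036073) (nat_lit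 4247429) [(nat_lit 662323), (nat_lit 2405477), (nat_lit 0)]) (PF.cons (PF.leaf (nat_lit 9379769) (nat_lit 666554) (nat_lit 43348321) (nat_lit 4240785) [(nat_lit 666554), (nat_lit 2407641), (nat_lit 0)]) (PF.cons PF.nil PF.nil)))))) (PF.cons (PF.cons (PF.leaf (nat_lit 8796044) (nat_lit 2397684) (nat_lit 43692345) (nat_lit 4234988) [(nat_lit 0), (nat_lit 2397684), (nat_lit 0)]) (PF.cons (PF.leaf (nat_lit 9187625) (nat_lit 661568) (nat_lit 43022633) (nat_lit 4227917) [(nat_lit 661568), (nat_lit 2399586), (nat_lit 0)]) (PF.cons (PF.leaf (nat_lit 9580338) (nat_lit 665347) (nat_lit 42358175) (nat_lit 4218940) [(nat_lit 665347), (nat_lit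
 2400125), (nat_lit 0)]) (PF.cons PF.nil PF.nil)))) (PF.cons (PF.cons (PF.leaf (nat_lit 9773439) (nat_lit 2390773) (nat_lit 41397470) (nat_lit 4194382) [(nat_lit 0), (nat_lit 2390773), (nat_lit 0)]) (PF.cons (PF.leaf (nat_lit 10157572) (nat_lit 666292) (nat_lit 40762412) (nat_lit 4181771) [(nat_lit 666292), (nat_lit 2388704), (nat_lit 0)]) PF.nil)) (PF.cons PF.nil (PF.cons PF.nil (PF.cons PF.nil PF.nil))))))))))))) (PF.cons (PF.cons (PF.cons (PF.leaf (nat_lit 2807782) (nat_lit 3827796) (nat_lit 56814120) (nat_lit 3827796) [(nat_lit 0), (nat_lit 0), (nat_lit 6466896)]) (PF.cons (PF.leaf (nat_lit 3084544) (nat_lit 459281) (nat_lit 56266741) (nat_lit 3873780) [(nat_lit 459281), (nat_lit 0), (nat_lit 6509009)]) (PF.cons (PF.leaf (nat_lit 3388549) (nat_lit 483350) (nat_lit 55672469) (nat_lit 3919387) [(nat_lit 483350), (nat_lit 0), (nat_lit 6550254)]) (PF.cons (PF.leaf (nat_lit 3714850) (nat_lit 505050) (nat_lit 55040965) (nat_lit 3963395) [(nat_lit 505050), (nat_lit 0),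 (nat_lit 6589299)]) (PF.cons (PF.leaf (nat_lit 4060068) (nat_lit 524768) (nat_lit 54379506) (nat_lit 4005005) [(nat_lit 524768), (nat_lit 0), (nat_lit 6625227)]) (PF.cons (PF.leaf (nat_lit 4421438) (nat_lit 542759)
 (nat_lit 53693918) (nat_lit 4043688) [(nat_lit 542759), (nat_lit 0), (nat_lit 6657409)]) (PF.cons (PF.leaf (nat_lit 4796607) (nat_lit 559203) (nat_lit 52989057) (nat_lit 4079105) [(nat_lit 559203), (nat_lit 0), (nat_lit 6685428)]) (PF.cons (PF.leaf (nat_lit 5183515) (nat_lit 574237) (nat_lit 52269078) (nat_lit 4111049) [(nat_lit 574237), (nat_lit 0), (nat_lit 6709024)]) (PF.cons (PF.leaf (nat_lit 5580333) (nat_lit 587967) (nat_lit 51537593) (nat_lit 4139416) [(nat_lit 587967), (nat_lit 0), (nat_lit 6728060)]) (PF.cons (PF.leaf (nat_lit 5985416) (nat_lit 600485) (nat_lit 50797779) (nat_lit 4164174) [(nat_lit 600485), (nat_lit 0), (nat_lit 6742491)]) (PF.cons (PF.leaf (nat_lit 6397246) (nat_lit 611867) (nat_lit 50052438) (nat_lit 4185347) [(nat_lit 611867),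 (nat_lit 0), (nat_lit 6752349)]) (PF.cons (PF.leaf (nat_lit 6814460) (nat_lit 622184) (nat_lit 49304057) (nat_lit 4203002) [(nat_lit 622184), (nat_lit 0), (nat_lit 6757719)]) (PF.cons (PF.leaf (nat_lit 7235860) (nat_lit 631500) (nat_lit 48554840) (nat_lit 4217238) [(nat_lit 631500), (nat_lit 0), (nat_lit 6758733)]) (PF.cons (PF.leaf (nat_lit 7660280) (nat_lit 639872) (nat_lit 47806741) (nat_lit 4228175) [(nat_lit 639872),
 (nat_lit 0), (nat_lit 6755552)]) (PF.cons (PF.leaf (nat_lit 8086702) (nat_lit 647357) (nat_lit 47061485) (nat_lit 4235953) [(nat_lit 647357), (nat_lit 0), (nat_lit 6748364)]) (PF.cons PF.nil (PF.cons PF.nil (PF.cons PF.nil PF.nil)))))))))))))))))) (PF.cons (PF.cons (PF.leaf (nat_lit 3708918) (nat_lit 2114832) (nat_lit 54403527) (nat_lit 3983313) [(nat_lit 0), (nat_lit 2114832), (nat_lit 6607139)]) (PF.cons (PF.leaf (nat_lit 4028157) (nat_lit 518144) (nat_lit 53785336) (nat_lit 4019573) [(nat_lit 518144), (nat_lit 2148704), (nat_lit 6637053)]) (PF.cons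 (PF.leaf (nat_lit 4367391) (nat_lit 536861) (nat_lit 53136235) (nat_lit 4053843) [(nat_lit 536861), (nat_lit 2180850), (nat_lit 6664159)]) (PF.cons (PF.leaf (nat_lit 4722985) (nat_lit 553797) (nat_lit 52463085) (nat_lit 4085563) [(nat_lit 553797), (nat_lit 2210923), (nat_lit 6687846)]) (PF.cons (PF.leaf (nat_lit 5092303) (nat_lit 569174) (nat_lit 51771282) (nat_lit 4114379) [(nat_lit 569174), (nat_lit 2238729), (nat_lit 6707724)]) (PF.cons (PF.leaf (nat_lit 5473126) (nat_lit 583150) (nat_lit 51065248) (nat_lit 4140083) [(nat_lit 583150), (nat_lit 2264171), (nat_lit 6723559)]) (PF.cons (PF.leaf (nat_lit 5863546) (nat_lit 595848)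
 (nat_lit 50348710) (nat_lit 4162564) [(nat_lit 595848), (nat_lit 2287214), (nat_lit 6735234)]) (PF.cons (PF.leaf (nat_lit 6261884) (nat_lit 607367) (nat_lit 49624861) (nat_lit 4181787) [(nat_lit 607367), (nat_lit 2307868), (nat_lit 6742720)]) (PF.cons (PF.leaf (nat_lit 6666645) (nat_lit 617792) (nat_lit 48896469) (nat_lit 4197772) [(nat_lit 617792), (nat_lit 2326173), (nat_lit 6746056)]) (PF.cons (PF.leaf (nat_lit 7076475) (nat_lit 627195) (nat_lit 48165948) (nat_lit 4210578) [(nat_lit 627195), (nat_lit 2342192), (nat_lit 6745330)]) (PF.cons (PF.leaf (nat_lit 7490175) (nat_lit 635643) (nat_lit 47435409) (nat_lit 4220296) [(nat_lit 635643), (nat_lit 2356001), (nat_lit 6740670)]) (PF.cons (PF.leaf (nat_lit 7906651) (nat_lit 643195) (nat_lit 46706702) (nat_lit 4227036) [(nat_lit 643195), (nat_lit 2367688), (nat_lit 6732232)]) (PF.cons (PF.leaf (nat_lit 8324919) (nat_lit 649907) (nat_lit 45981448) (nat_lit 4230927) [(nat_lit 649907), (nat_lit 2377347), (nat_lit 6720193)])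 (PF.cons PF.nil (PF.cons PF.nil (PF.cons PF.nil PF.nil)))))))))))))))) (PF.cons (PF.cons (PF.leaf (nat_lit 4671199) (nat_lit 2214524) (nat_lit 51897933) (nat_lit 4092324) [(nat_lit 0), (nat_lit 2214524), (nat_lit
 6689504)]) (PF.cons (PF.leaf (nat_lit 5018893) (nat_lit 562708) (nat_lit 51242393) (nat_lit 4117761) [(nat_lit 562708), (nat_lit 2240186), (nat_lit 6705576)]) (PF.cons (PF.leaf (nat_lit 5381000) (nat_lit 577216) (nat_lit 50567770) (nat_lit 4140648) [(nat_lit 577216), (nat_lit 2263885), (nat_lit 6718188)]) (PF.cons (PF.leaf (nat_lit 5754715) (nat_lit 590303) (nat_lit 49879032) (nat_lit 4160761) [(nat_lit 590303), (nat_lit 2285492), (nat_lit 6727122)]) (PF.cons (PF.leaf (nat_lit 6137975) (nat_lit 602116) (nat_lit 49180189) (nat_lit 4177982) [(nat_lit 602116), (nat_lit 2304951), (nat_lit 6732272)]) (PF.cons (PF.leaf (nat_lit 6529002) (nat_lit 612769) (nat_lit 48474565) (nat_lit 4192269) [(nat_lit 612769), (nat_lit 2322255), (nat_lit 6733619)]) (PF.cons (PF.leaf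 (nat_lit 6926264) (nat_lit 622355) (nat_lit 47764971) (nat_lit 4203636) [(nat_lit 622355), (nat_lit 2337433), (nat_lit 6731205)]) (PF.cons (PF.leaf (nat_lit 7328424) (nat_lit 630954) (nat_lit 47053807) (nat_lit 4212133) [(nat_lit 630954), (nat_lit 2350536), (nat_lit 6725119)]) (PF.cons (PF.leaf (nat_lit 7734258) (nat_lit 638634) (nat_lit 46343141) (nat_lit 4217843) [(nat_lit 638634), (nat_lit 2361631), (nat_lit 6715485)])
 (PF.cons (PF.leaf (nat_lit 8142721) (nat_lit 645459) (nat_lit 45634758) (nat_lit 4220868) [(nat_lit 645459), (nat_lit 2370797), (nat_lit 6702450)]) (PF.cons (PF.leaf (nat_lit 8552845) (nat_lit 651486) (nat_lit 44930204) (nat_lit 4221323) [(nat_lit 651486), (nat_lit 2378120), (nat_lit 6686182)]) (PF.cons PF.nil (PF.cons PF.nil (PF.cons PF.nil PF.nil)))))))))))))) (PF.cons (PF.cons (PF.leaf (nat_lit 5663985) (nat_lit 2283852) (nat_lit 49380369) (nat_lit 4158848) [(nat_lit 0), (nat_lit 2283852), (nat_lit 6718036)]) (PF.cons (PF.leaf (nat_lit 6029194)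 (nat_lit 595818) (nat_lit 48712134) (nat_lit 4173969) [(nat_lit 595818), (nat_lit 2302001), (nat_lit 6720884)]) (PF.cons (PF.leaf (nat_lit 6404461) (nat_lit 606894) (nat_lit 48033514) (nat_lit 4186505) [(nat_lit 606894), (nat_lit 2318236), (nat_lit 6720293)]) (PF.cons (PF.leaf (nat_lit 6787588) (nat_lit 616809) (nat_lit 47348125) (nat_lit 4196405) [(nat_lit 616809), (nat_lit 2332534), (nat_lit 6716251)]) (PF.cons (PF.leaf (nat_lit 7176949) (nat_lit 625672) (nat_lit 46658922) (nat_lit 4203673) [(nat_lit 625672), (nat_lit 2344908), (nat_lit 6708800)]) (PF.cons (PF.leaf (nat_lit 7571147) (nat_lit 633570) (nat_lit 45968367) (nat_lit 4208354)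
 [(nat_lit 633570), (nat_lit 2355402), (nat_lit 6698031)]) (PF.cons (PF.leaf (nat_lit 7968959) (nat_lit 640579) (nat_lit 45278537) (nat_lit 4210520) [(nat_lit 640579), (nat_lit 2364071), (nat_lit 6684060)]) (PF.cons (PF.leaf (nat_lit 8369312) (nat_lit 646765) (nat_lit 44591197) (nat_lit 4210264) [(nat_lit 646765), (nat_lit 2370987), (nat_lit 6667029)]) (PF.cons (PF.leaf (nat_lit 8771284) (nat_lit 652186) (nat_lit 43907852) (nat_lit 4207692) [(nat_lit 652186), (nat_lit 2376227), (nat_lit 6647094)]) (PF.cons (PF.leaf (nat_lit 9174001) (nat_lit 656895) (nat_lit 43229787) (nat_lit 4202919) [(nat_lit 656895), (nat_lit 2379874), (nat_lit 6624421)]) (PF.cons PF.nil (PF.cons PF.nil PF.nil)))))))))))) (PF.cons (PF.cons (PF.leaf (nat_lit 6664201) (nat_lit 2327535) (nat_lit 46909500) (nat_lit 4188875) [(nat_lit 0), (nat_lit 2327535), (nat_lit 6700294)]) (PF.cons (PF.leaf (nat_lit 7038511) (nat_lit 619588) (nat_lit 46246219) (nat_lit 4194891) [(nat_lit 619588), (nat_lit 2339137),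 (nat_lit 6691562)]) (PF.cons (PF.leaf (nat_lit 7419498) (nat_lit 627842) (nat_lit 45578833) (nat_lit 4198538) [(nat_lit 627842), (nat_lit 2349004), (nat_lit 6679736)]) (PF.cons (PF.leaf (nat_lit 7805430) (nat_lit
 635141) (nat_lit 44909963) (nat_lit 4199851) [(nat_lit 635141), (nat_lit 2357166), (nat_lit 6664904)]) (PF.cons (PF.leaf (nat_lit 8195037) (nat_lit 641570) (nat_lit 44241761) (nat_lit 4198896) [(nat_lit 641570), (nat_lit 2363673), (nat_lit 6647181)]) (PF.cons (PF.leaf (nat_lit 8587210) (nat_lit 647199) (nat_lit 43576020) (nat_lit 4195755) [(nat_lit 647199), (nat_lit 2368584), (nat_lit 6626700)]) (PF.cons (PF.leaf (nat_lit 8981018) (nat_lit 652091) (nat_lit 42914242) (nat_lit 4190525) [(nat_lit 652091), (nat_lit 2371971), (nat_lit 6603610)]) (PF.cons (PF.leaf (nat_lit 9375596) (nat_lit 656301) (nat_lit 42257695) (nat_lit 4183312) [(nat_lit 656301), (nat_lit 2373907), (nat_lit 6578065)]) (PF.cons PF.nil (PF.cons PF.nil PF.nil)))))))))) (PF.cons (PF.cons (PF.leaf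 (nat_lit 7655036) (nat_lit 2350082) (nat_lit 44524786) (nat_lit 4188810) [(nat_lit 0), (nat_lit 2350082), (nat_lit 6644804)]) (PF.cons (PF.leaf (nat_lit 8032119) (nat_lit 635748) (nat_lit 43878574) (nat_lit 4187168) [(nat_lit 635748), (nat_lit 2356167), (nat_lit 6626484)]) (PF.cons (PF.leaf (nat_lit 8413293) (nat_lit 641686) (nat_lit 43232677) (nat_lit 4183476) [(nat_lit 641686), (nat_lit 2360748), (nat_lit 6605543)])
 (PF.cons (PF.leaf (nat_lit 8797173) (nat_lit 646839) (nat_lit 42588975) (nat_lit 4177810) [(nat_lit 646839), (nat_lit 2363879), (nat_lit 6582111)]) (PF.cons (PF.leaf (nat_lit 9182792) (nat_lit 651275) (nat_lit 41949016) (nat_lit 4170259) [(nat_lit 651275), (nat_lit 2365621), (nat_lit 6556329)]) (PF.cons (PF.leaf (nat_lit 9569263) (nat_lit 655050) (nat_lit 41314079) (nat_lit 4160919) [(nat_lit 655050), (nat_lit 2366043), (nat_lit 6528342)]) (PF.cons PF.nil (PF.cons PF.nil PF.nil)))))))) (PF.cons (PF.cons (PF.leaf (nat_lit 8624759) (nat_lit 2355577) (nat_lit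 42250880) (nat_lit 4164709) [(nat_lit 0), (nat_lit 2355577), (nat_lit 6559759)]) (PF.cons (PF.leaf (nat_lit 8999977) (nat_lit 645750) (nat_lit 41629595) (nat_lit 4156847) [(nat_lit 645750), (nat_lit 2357130), (nat_lit 6533833)]) (PF.cons (PF.leaf (nat_lit 9377341) (nat_lit 649799) (nat_lit 41011635) (nat_lit 4147280) [(nat_lit 649799), (nat_lit 2357419), (nat_lit 6505781)]) (PF.cons (PF.leaf (nat_lit 9755731) (nat_lit 653204) (nat_lit 40398335) (nat_lit 4136096) [(nat_lit 653204), (nat_lit 2356503), (nat_lit 6475743)]) (PF.cons (PF.leaf (nat_lit 10134395) (nat_lit 656020) (nat_lit 39790784) (nat_lit 4123390) [(nat_lit 656020),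
 (nat_lit 2354449), (nat_lit 6443861)]) (PF.cons PF.nil PF.nil)))))) (PF.cons (PF.cons (PF.leaf (nat_lit 9565602) (nat_lit 2347578) (nat_lit 40101403) (nat_lit 4121929) [(nat_lit 0), (nat_lit 2347578), (nat_lit 6452430)]) (PF.cons (PF.leaf (nat_lit 9935671) (nat_lit 650814) (nat_lit 39509730) (nat_lit 4109160) [(nat_lit 650814), (nat_lit 2345487), (nat_lit 6420696)]) (PF.cons (PF.leaf (nat_lit 10306417) (nat_lit 653333) (nat_lit 38923346) (nat_lit 4095013) [(nat_lit 653333), (nat_lit 2342355), (nat_lit 6387300)]) (PF.cons PF.nil PF.nil)))) (PF.cons (PF.cons (PF.leaf (nat_lit 10472808) (nat_lit 2329096) (nat_lit 38082059) (nat_lit 4065018) [(nat_lit 0), (nat_lit 2329096), (nat_lit 6328965)]) (PF.cons PF.nil PF.nil)) (PF.cons PF.nil (PF.cons PF.nil PF.nil))))))))))) (PF.cons (PF.cons (PF.cons (PF.leaf (nat_lit 4719842) (nat_lit 4056440) (nat_lit 49804226) (nat_lit 4056440) [(nat_lit 0), (nat_lit 0), (nat_lit 6624072)]) (PF.cons (PF.leaf (nat_lit 5037516) (nat_lit 541728)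 (nat_lit 49224438) (nat_lit 4076719) [(nat_lit 541728), (nat_lit 0), (nat_lit 6632963)]) (PF.cons (PF.leaf (nat_lit 5372591) (nat_lit 557805) (nat_lit 48619845) (nat_lit 4095056) [(nat_lit 557805), (nat_lit 0),
 (nat_lit 6639149)]) (PF.cons (PF.leaf (nat_lit 5721464) (nat_lit 572029) (nat_lit 47996870) (nat_lit 4111141) [(nat_lit 572029), (nat_lit 0), (nat_lit 6642355)]) (PF.cons (PF.leaf (nat_lit 6081611) (nat_lit 584681) (nat_lit 47360427) (nat_lit 4124796) [(nat_lit 584681), (nat_lit 0), (nat_lit 6642431)]) (PF.cons (PF.leaf (nat_lit 6450936) (nat_lit 595962) (nat_lit 46714430) (nat_lit 4135936) [(nat_lit 595962), (nat_lit 0), (nat_lit 6639315)]) (PF.cons (PF.leaf (nat_lit 6827707) (nat_lit 606028) (nat_lit 46062085) (nat_lit 4144538) [(nat_lit 606028), (nat_lit 0), (nat_lit 6633009)]) (PF.cons (PF.leaf (nat_lit 7210449) (nat_lit 614999) (nat_lit 45406066) (nat_lit 4150623) [(nat_lit 614999), (nat_lit 0), (nat_lit 6623564)]) (PF.cons (PF.leaf (nat_lit 7597833) (nat_lit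 622974) (nat_lit 44748634) (nat_lit 4154247) [(nat_lit 622974), (nat_lit 0), (nat_lit 6611065)]) (PF.cons (PF.leaf (nat_lit 7988731) (nat_lit 630040) (nat_lit 44091711) (nat_lit 4155487) [(nat_lit 630040), (nat_lit 0), (nat_lit 6595626)]) (PF.cons (PF.leaf (nat_lit 8382137) (nat_lit 636267) (nat_lit 43436945) (nat_lit 4154435) [(nat_lit 636267), (nat_lit 0), (nat_lit 6577376)]) (PF.cons (PF.leaf (nat_lit 8777140)
 (nat_lit 641722) (nat_lit 42785747) (nat_lit 4151198) [(nat_lit 641722), (nat_lit 0), (nat_lit 6556461)]) (PF.cons PF.nil (PF.cons PF.nil (PF.cons PF.nil (PF.cons PF.nil PF.nil)))))))))))))))) (PF.cons (PF.cons (PF.leaf (nat_lit 5646855) (nat_lit 2249183) (nat_lit 47492607) (nat_lit 4107304) [(nat_lit 0), (nat_lit 2249183), (nat_lit 6629858)]) (PF.cons (PF.leaf (nat_lit 5986490) (nat_lit 576574) (nat_lit 46890957) (nat_lit 4119047) [(nat_lit 576574), (nat_lit 2266010), (nat_lit 6628111)]) (PF.cons (PF.leaf (nat_lit 6338324) (nat_lit 588628) (nat_lit 46274881)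 (nat_lit 4128628) [(nat_lit 588628), (nat_lit 2281086), (nat_lit 6623480)]) (PF.cons (PF.leaf (nat_lit 6699717) (nat_lit 599285) (nat_lit 45648808) (nat_lit 4135949) [(nat_lit 599285), (nat_lit 2294363), (nat_lit 6615917)]) (PF.cons (PF.leaf (nat_lit 7068744) (nat_lit 608723) (nat_lit 45016223) (nat_lit 4140980) [(nat_lit 608723), (nat_lit 2305845), (nat_lit 6605435)]) (PF.cons (PF.leaf (nat_lit 7443811) (nat_lit 617077) (nat_lit 44379948) (nat_lit 4143736) [(nat_lit 617077), (nat_lit 2315563), (nat_lit 6592088)]) (PF.cons (PF.leaf (nat_lit 7823559) (nat_lit 624455) (nat_lit 43742309) (nat_lit 4144265) [(nat_lit 624455),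
 (nat_lit 2323569), (nat_lit 6575965)]) (PF.cons (PF.leaf (nat_lit 8206817) (nat_lit 630948) (nat_lit 43105251) (nat_lit 4142636) [(nat_lit 630948), (nat_lit 2329929), (nat_lit 6557176)]) (PF.cons (PF.leaf (nat_lit 8592577) (nat_lit 636632) (nat_lit 42470413) (nat_lit 4138935) [(nat_lit 636632), (nat_lit 2334713), (nat_lit 6535846)]) (PF.cons (PF.leaf (nat_lit 8979928) (nat_lit 641572) (nat_lit 41839182) (nat_lit 4133256) [(nat_lit 641572), (nat_lit 2337999), (nat_lit 6512112)]) (PF.cons (PF.leaf (nat_lit 9368064) (nat_lit 645826) (nat_lit 41212733) (nat_lit 4125704) [(nat_lit 645826), (nat_lit 2339868), (nat_lit 6486119)]) (PF.cons PF.nil (PF.cons PF.nil (PF.cons PF.nil PF.nil)))))))))))))) (PF.cons (PF.cons (PF.leaf (nat_lit 6590218) (nat_lit 2288379) (nat_lit 45209701) (nat_lit 4127044) [(nat_lit 0), (nat_lit 2288379), (nat_lit 6597654)]) (PF.cons (PF.leaf (nat_lit 6942537) (nat_lit 601378) (nat_lit 44605571) (nat_lit 4130995) [(nat_lit 601378), (nat_lit 2299180),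 (nat_lit 6586253)]) (PF.cons (PF.leaf (nat_lit 7303198) (nat_lit 610316) (nat_lit 43994232) (nat_lit 4132878) [(nat_lit 610316), (nat_lit 2308368), (nat_lit 6572165)]) (PF.cons (PF.leaf (nat_lit 7670180) (nat_lit
 618161) (nat_lit 43378791) (nat_lit 4132702) [(nat_lit 618161), (nat_lit 2315962), (nat_lit 6555454)]) (PF.cons (PF.leaf (nat_lit 8042021) (nat_lit 625037) (nat_lit 42761733) (nat_lit 4130509) [(nat_lit 625037), (nat_lit 2322000), (nat_lit 6536210)]) (PF.cons (PF.leaf (nat_lit 8417480) (nat_lit 631041) (nat_lit 42145086) (nat_lit 4126360) [(nat_lit 631041), (nat_lit 2326538), (nat_lit 6514541)]) (PF.cons (PF.leaf (nat_lit 8795518) (nat_lit 636255) (nat_lit 41530526) (nat_lit 4120334) [(nat_lit 636255), (nat_lit 2329640), (nat_lit 6490570)]) (PF.cons (PF.leaf (nat_lit 9175206) (nat_lit 640748) (nat_lit 40919448) (nat_lit 4112518) [(nat_lit 640748), (nat_lit 2331376), (nat_lit 6464427)]) (PF.cons (PF.leaf (nat_lit 9555748) (nat_lit 644580) (nat_lit 40313023)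 (nat_lit 4103007) [(nat_lit 644580), (nat_lit 2331817), (nat_lit 6436250)]) (PF.cons PF.nil (PF.cons PF.nil (PF.cons PF.nil PF.nil)))))))))))) (PF.cons (PF.cons (PF.leaf (nat_lit 7532245) (nat_lit 2308165) (nat_lit 42995885) (nat_lit 4120727) [(nat_lit 0), (nat_lit 2308165), (nat_lit 6533851)]) (PF.cons (PF.leaf (nat_lit 7890392) (nat_lit 618317) (nat_lit 42402352) (nat_lit 4117986) [(nat_lit 618317), (nat_lit 2313866), (nat_lit
 6514278)]) (PF.cons (PF.leaf (nat_lit 8253982) (nat_lit 624784) (nat_lit 41806610) (nat_lit 4113412) [(nat_lit 624784), (nat_lit 2318154), (nat_lit 6492378)]) (PF.cons (PF.leaf (nat_lit 8621433) (nat_lit 630381) (nat_lit 41210851) (nat_lit 4107062) [(nat_lit 630381), (nat_lit 2321075), (nat_lit 6468263)]) (PF.cons (PF.leaf (nat_lit 8991644) (nat_lit 635198) (nat_lit 40616846) (nat_lit 4099008) [(nat_lit 635198), (nat_lit 2322685), (nat_lit 6442053)]) (PF.cons (PF.leaf (nat_lit 9363634) (nat_lit 639309) (nat_lit 40026040) (nat_lit 4089331) [(nat_lit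 639309), (nat_lit 2323046), (nat_lit 6413876)]) (PF.cons (PF.leaf (nat_lit 9736607) (nat_lit 642778) (nat_lit 39439625) (nat_lit 4078120) [(nat_lit 642778), (nat_lit 2322224), (nat_lit 6383860)]) (PF.cons PF.nil (PF.cons PF.nil (PF.cons PF.nil PF.nil)))))))))) (PF.cons (PF.cons (PF.leaf (nat_lit 8460479) (nat_lit 2312278) (nat_lit 40876382) (nat_lit 4093357) [(nat_lit 0), (nat_lit 2312278), (nat_lit 6444978)]) (PF.cons (PF.leaf (nat_lit 8819427) (nat_lit 629023) (nat_lit 40301977) (nat_lit 4085100) [(nat_lit 629023), (nat_lit 2313768), (nat_lit 6418819)]) (PF.cons (PF.leaf (nat_lit 9181645) (nat_lit 633516) (nat_lit 39728773) (nat_lit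
 4075290) [(nat_lit 633516), (nat_lit 2314058), (nat_lit 6390741)]) (PF.cons (PF.leaf (nat_lit 9545872) (nat_lit 637308) (nat_lit 39158318) (nat_lit 4064005) [(nat_lit 637308), (nat_lit 2313205), (nat_lit 6360870)]) (PF.cons (PF.leaf (nat_lit 9911263) (nat_lit 640470) (nat_lit 38591864) (nat_lit 4051326) [(nat_lit 640470), (nat_lit 2311269), (nat_lit 6329332)]) (PF.cons (PF.leaf (nat_lit 10277069) (nat_lit 643058) (nat_lit 38030430) (nat_lit 4037336) [(nat_lit 643058), (nat_lit 2308311), (nat_lit 6296253)]) (PF.cons PF.nil (PF.cons PF.nil PF.nil)))))))) (PF.cons (PF.cons (PF.leaf (nat_lit 9366439) (nat_lit 2303948) (nat_lit 38865555) (nat_lit 4049474) [(nat_lit 0), (nat_lit 2303948), (nat_lit 6337021)]) (PF.cons (PF.leaf (nat_lit 9722564) (nat_lit 634786) (nat_lit 38315528) (nat_lit 4036812) [(nat_lit 634786), (nat_lit 2302028), (nat_lit 6305771)]) (PF.cons (PF.leaf (nat_lit 10080327) (nat_lit 637696) (nat_lit 37768971) (nat_lit 4022877) [(nat_lit 637696), (nat_lit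 2299114), (nat_lit 6272999)]) (PF.cons (PF.leaf (nat_lit 10438728) (nat_lit 640040) (nat_lit 37226969) (nat_lit 4007752) [(nat_lit 640040), (nat_lit 2295262), (nat_lit 6238827)]) (PF.cons PF.nil (PF.cons PF.nil
 PF.nil)))))) (PF.cons (PF.cons (PF.leaf (nat_lit 10244632) (nat_lit 2285902) (nat_lit 36970096) (nat_lit 3992996) [(nat_lit 0), (nat_lit 2285902), (nat_lit 6215151)]) (PF.cons (PF.leaf (nat_lit 10595385) (nat_lit 636640) (nat_lit 36447362) (nat_lit 3976914) [(nat_lit 636640), (nat_lit 2281272), (nat_lit 6180129)]) (PF.cons PF.nil (PF.cons PF.nil PF.nil)))) (PF.cons (PF.cons (PF.leaf (nat_lit 11091794) (nat_lit 2260408) (nat_lit 35191413) (nat_lit 3927199) [(nat_lit 0), (nat_lit 2260408), (nat_lit 6083670)]) (PF.cons PF.nil PF.nil)) (PF.cons PF.nil (PF.cons PF.nil PF.nil)))))))))) (PF.cons (PF.cons (PF.cons (PF.leaf (nat_lit 6524236) (nat_lit 4061050) (nat_lit 43578144) (nat_lit 4061050) [(nat_lit 0), (nat_lit 0), (nat_lit 6489872)]) (PF.cons (PF.leaf (nat_lit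 6853356) (nat_lit 580443) (nat_lit 43034122) (nat_lit 4063643) [(nat_lit 580443), (nat_lit 0), (nat_lit 6476867)]) (PF.cons (PF.leaf (nat_lit 7193056) (nat_lit 590589) (nat_lit 42478858) (nat_lit 4064404) [(nat_lit 590589), (nat_lit 0), (nat_lit 6461456)]) (PF.cons (PF.leaf (nat_lit 7540804) (nat_lit 599389) (nat_lit 41916243) (nat_lit 4063317) [(nat_lit 599389), (nat_lit 0), (nat_lit 6443694)]) (PF.cons (PF.leaf (nat_lit
 7894836) (nat_lit 607037) (nat_lit 41349286) (nat_lit 4060402) [(nat_lit 607037), (nat_lit 0), (nat_lit 6423658)]) (PF.cons (PF.leaf (nat_lit 8253702) (nat_lit 613680) (nat_lit 40780377) (nat_lit 4055706) [(nat_lit 613680), (nat_lit 0), (nat_lit 6401442)]) (PF.cons (PF.leaf (nat_lit 8616213) (nat_lit 619433) (nat_lit 40211456) (nat_lit 4049292) [(nat_lit 619433), (nat_lit 0), (nat_lit 6377154)]) (PF.cons (PF.leaf (nat_lit 8981315) (nat_lit 624390) (nat_lit 39644116) (nat_lit 4041235) [(nat_lit 624390), (nat_lit 0), (nat_lit 6350908)]) (PF.cons (PF.leaf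 (nat_lit 9348134) (nat_lit 628630) (nat_lit 39079678) (nat_lit 4031618) [(nat_lit 628630), (nat_lit 0), (nat_lit 6322823)]) (PF.cons (PF.leaf (nat_lit 9715902) (nat_lit 632218) (nat_lit 38519244) (nat_lit 4020528) [(nat_lit 632218), (nat_lit 0), (nat_lit 6293023)]) (PF.cons PF.nil (PF.cons PF.nil PF.nil)))))))))))) (PF.cons (PF.cons (PF.leaf (nat_lit 7417984) (nat_lit 2264075) (nat_lit 41532397) (nat_lit 4050482) [(nat_lit 0), (nat_lit 2264075), (nat_lit 6420619)]) (PF.cons (PF.leaf (nat_lit 7756590) (nat_lit 599160) (nat_lit 40991133) (nat_lit 4047145) [(nat_lit 599160), (nat_lit 2269787), (nat_lit 6400528)]) (PF.cons (PF.leaf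
 (nat_lit 8102309) (nat_lit 606486) (nat_lit 40444631) (nat_lit 4042138) [(nat_lit 606486), (nat_lit 2274135), (nat_lit 6378311)]) (PF.cons (PF.leaf (nat_lit 8453257) (nat_lit 612790) (nat_lit 39895558) (nat_lit 4035503) [(nat_lit 612790), (nat_lit 2277158), (nat_lit 6354073)]) (PF.cons (PF.leaf (nat_lit 8808123) (nat_lit 618201) (nat_lit 39346016) (nat_lit 4027300) [(nat_lit 618201), (nat_lit 2278910), (nat_lit 6327925)]) (PF.cons (PF.leaf (nat_lit 9165792) (nat_lit 622824) (nat_lit 38797692) (nat_lit 4017599) [(nat_lit 622824), (nat_lit 2279452), (nat_lit 6299982)]) (PF.cons (PF.leaf (nat_lit 9525351) (nat_lit 626740) (nat_lit 38251959) (nat_lit 4006477) [(nat_lit 626740), (nat_lit 2278849), (nat_lit 6270361)]) (PF.cons (PF.leaf (nat_lit 9885980) (nat_lit 630020) (nat_lit 37709947) (nat_lit 3994014) [(nat_lit 630020), (nat_lit 2277164), (nat_lit 6239182)]) (PF.cons PF.nil (PF.cons PF.nil PF.nil)))))))))) (PF.cons (PF.cons (PF.leaf (nat_lit 8305599) (nat_lit 2267856)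 (nat_lit 39562343) (nat_lit 4021219) [(nat_lit 0), (nat_lit 2267856), (nat_lit 6329845)]) (PF.cons (PF.leaf (nat_lit 8647966) (nat_lit 611205) (nat_lit 39033735) (nat_lit 4012915) [(nat_lit 611205), (nat_lit 2269554),
 (nat_lit 6303949)]) (PF.cons (PF.leaf (nat_lit 8994919) (nat_lit 616355) (nat_lit 38503935) (nat_lit 4003171) [(nat_lit 616355), (nat_lit 2270087), (nat_lit 6276273)]) (PF.cons (PF.leaf (nat_lit 9344997) (nat_lit 620710) (nat_lit 37974797) (nat_lit 3992054) [(nat_lit 620710), (nat_lit 2269509), (nat_lit 6246937)]) (PF.cons (PF.leaf (nat_lit 9697209) (nat_lit 624361) (nat_lit 37447793) (nat_lit 3979637) [(nat_lit 624361), (nat_lit 2267877), (nat_lit 6216060)]) (PF.cons (PF.leaf (nat_lit 10050703) (nat_lit 627383) (nat_lit 36924115) (nat_lit 3965996) [(nat_lit 627383), (nat_lit 2265252), (nat_lit 6183759)]) (PF.cons (PF.leaf (nat_lit 10404756) (nat_lit 629839) (nat_lit 36404729) (nat_lit 3951209) [(nat_lit 629839), (nat_lit 2261695), (nat_lit 6150148)])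 (PF.cons PF.nil PF.nil)))))))) (PF.cons (PF.cons (PF.leaf (nat_lit 9177544) (nat_lit 2259899) (nat_lit 37684402) (nat_lit 3977156) [(nat_lit 0), (nat_lit 2259899), (nat_lit 6222519)]) (PF.cons (PF.leaf (nat_lit 9519568) (nat_lit 618082) (nat_lit 37174652) (nat_lit 3964834) [(nat_lit 618082), (nat_lit 2258337), (nat_lit 6192076)]) (PF.cons (PF.leaf (nat_lit 9864296) (nat_lit 621526) (nat_lit 36666415) (nat_lit 3951317) [(nat_lit
 621526), (nat_lit 2255804), (nat_lit 6160203)]) (PF.cons (PF.leaf (nat_lit 10210594) (nat_lit 624342) (nat_lit 36160983) (nat_lit 3936678) [(nat_lit 624342), (nat_lit 2252356), (nat_lit 6127018)]) (PF.cons (PF.leaf (nat_lit 10557684) (nat_lit 626597) (nat_lit 35659391) (nat_lit 3920989) [(nat_lit 626597), (nat_lit 2248048), (nat_lit 6092632)]) (PF.cons PF.nil PF.nil)))))) (PF.cons (PF.cons (PF.leaf (nat_lit 10027459) (nat_lit 2242758) (nat_lit 35906968) (nat_lit 3921709) [(nat_lit 0), (nat_lit 2242758), (nat_lit 6103033)]) (PF.cons (PF.leaf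 (nat_lit 10366210) (nat_lit 620924) (nat_lit 35419725) (nat_lit 3906236) [(nat_lit 620924), (nat_lit 2238593), (nat_lit 6069184)]) (PF.cons (PF.leaf (nat_lit 10706284) (nat_lit 623021) (nat_lit 34935764) (nat_lit 3889797) [(nat_lit 623021), (nat_lit 2233633), (nat_lit 6034224)]) (PF.cons PF.nil PF.nil)))) (PF.cons (PF.cons (PF.leaf (nat_lit 10851308) (nat_lit 2218546) (nat_lit 34232993) (nat_lit 3857776) [(nat_lit 0), (nat_lit 2218546), (nat_lit 5975104)]) (PF.cons PF.nil PF.nil)) (PF.cons PF.nil (PF.cons PF.nil PF.nil)))))))) (PF.cons (PF.cons (PF.cons (PF.leaf (nat_lit 8162645) (nat_lit 3948449) (nat_lit 38301972) (nat_lit 3948449) [(nat_lit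
 0), (nat_lit 0), (nat_lit 6214597)]) (PF.cons (PF.leaf (nat_lit 8487619) (nat_lit 591981) (nat_lit 37818725) (nat_lit 3940419) [(nat_lit 591981), (nat_lit 0), (nat_lit 6189421)]) (PF.cons (PF.leaf (nat_lit 8818813) (nat_lit 598078) (nat_lit 37331484) (nat_lit 3931022) [(nat_lit 598078), (nat_lit 0), (nat_lit 6162537)]) (PF.cons (PF.leaf (nat_lit 9154454) (nat_lit 603222) (nat_lit 36842547) (nat_lit 3920320) [(nat_lit 603222), (nat_lit 0), (nat_lit 6134069)]) (PF.cons (PF.leaf (nat_lit 9493338) (nat_lit 607544) (nat_lit 36353703) (nat_lit 3908381) [(nat_lit 607544), (nat_lit 0), (nat_lit 6104137)]) (PF.cons (PF.leaf (nat_lit 9834471) (nat_lit 611148) (nat_lit 35866373) (nat_lit 3895275) [(nat_lit 611148), (nat_lit 0), (nat_lit 6072855)]) (PF.cons (PF.leaf (nat_lit 10177012) (nat_lit 614116) (nat_lit 35381702) (nat_lit 3881077) [(nat_lit 614116), (nat_lit 0), (nat_lit 6040333)]) (PF.cons PF.nil (PF.cons PF.nil (PF.cons PF.nil PF.nil)))))))))) (PF.cons (PF.cons (PF.leaf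 (nat_lit 9000574) (nat_lit 2215371) (nat_lit 36552398) (nat_lit 3905027) [(nat_lit 0), (nat_lit 2215371), (nat_lit 6109003)]) (PF.cons (PF.leaf (nat_lit 9328002) (nat_lit 600497) (nat_lit 36082015) (nat_lit 3893266)
 [(nat_lit 600497), (nat_lit 2214359), (nat_lit 6079668)]) (PF.cons (PF.leaf (nat_lit 9659393) (nat_lit 604663) (nat_lit 35610969) (nat_lit 3880355) [(nat_lit 604663), (nat_lit 2212374), (nat_lit 6048946)]) (PF.cons (PF.leaf (nat_lit 9993406) (nat_lit 608100) (nat_lit 35140839) (nat_lit 3866364) [(nat_lit 608100), (nat_lit 2209474), (nat_lit 6016958)]) (PF.cons (PF.leaf (nat_lit 10329118) (nat_lit 610897) (nat_lit 34672872) (nat_lit 3851364) [(nat_lit 610897), (nat_lit 2205714), (nat_lit 5983817)]) (PF.cons (PF.leaf (nat_lit 10665778) (nat_lit 613130) (nat_lit 34208061) (nat_lit 3835427) [(nat_lit 613130), (nat_lit 2201151), (nat_lit 5949629)]) (PF.cons PF.nil (PF.cons PF.nil PF.nil)))))))) (PF.cons (PF.cons (PF.leaf (nat_lit 9822341) (nat_lit 2199598) (nat_lit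 34888103) (nat_lit 3851148) [(nat_lit 0), (nat_lit 2199598), (nat_lit 5992590)]) (PF.cons (PF.leaf (nat_lit 10148766) (nat_lit 604666) (nat_lit 34435249) (nat_lit 3836427) [(nat_lit 604666), (nat_lit 2196027), (nat_lit 5960103)]) (PF.cons (PF.leaf (nat_lit 10477525) (nat_lit 607343) (nat_lit 33983930) (nat_lit 3820768) [(nat_lit 607343), (nat_lit 2191657), (nat_lit 5926528)]) (PF.cons (PF.leaf (nat_lit 10807530) (nat_lit
 609449) (nat_lit 33535241) (nat_lit 3804239) [(nat_lit 609449), (nat_lit 2186541), (nat_lit 5891975)]) (PF.cons PF.nil (PF.cons PF.nil PF.nil)))))) (PF.cons (PF.cons (PF.leaf (nat_lit 10622996) (nat_lit 2176968) (nat_lit 33314035) (nat_lit 3789411) [(nat_lit 0), (nat_lit 2176968), (nat_lit 5868615)]) (PF.cons (PF.leaf (nat_lit 10945989) (nat_lit 605489) (nat_lit 32881357) (nat_lit 3772411) [(nat_lit 605489), (nat_lit 2171378), (nat_lit 5833854)]) (PF.cons PF.nil (PF.cons PF.nil PF.nil)))) (PF.cons (PF.cons (PF.leaf (nat_lit 11399455) (nat_lit 2149134)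 (nat_lit 31831177) (nat_lit 3721981) [(nat_lit 0), (nat_lit 2149134), (nat_lit 5739778)]) (PF.cons PF.nil PF.nil)) (PF.cons PF.nil PF.nil)))))) (PF.cons (PF.cons (PF.cons (PF.leaf (nat_lit 9630497) (nat_lit 3781251) (nat_lit 33908903) (nat_lit 3781251) [(nat_lit 0), (nat_lit 0), (nat_lit 5883731)]) (PF.cons (PF.leaf (nat_lit 9943972) (nat_lit 587657) (nat_lit 33489753) (nat_lit 3767425) [(nat_lit 587657), (nat_lit 0), (nat_lit 5852795)]) (PF.cons (PF.leaf (nat_lit 10260983) (nat_lit 591080) (nat_lit 33070199) (nat_lit 3752665) [(nat_lit 591080), (nat_lit 0), (nat_lit 5820757)]) (PF.cons (PF.leaf (nat_lit 10580231) (nat_lit 593830)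
 (nat_lit 32651603) (nat_lit 3737041) [(nat_lit 593830), (nat_lit 0), (nat_lit 5787735)]) (PF.cons (PF.leaf (nat_lit 10900887) (nat_lit 595997) (nat_lit 32235027) (nat_lit 3720622) [(nat_lit 595997), (nat_lit 0), (nat_lit 5753834)]) (PF.cons PF.nil PF.nil)))))) (PF.cons (PF.cons (PF.leaf (nat_lit 10407599) (nat_lit 2135572) (nat_lit 32430808) (nat_lit 3722023) [(nat_lit 0), (nat_lit 2135572), (nat_lit 5764081)]) (PF.cons (PF.leaf (nat_lit 10719734) (nat_lit 589904) (nat_lit 32027463) (nat_lit 3705990) [(nat_lit 589904), (nat_lit 2130698), (nat_lit 5730951)]) (PF.cons (PF.leaf (nat_lit 11033922) (nat_lit 592011) (nat_lit 31625539) (nat_lit 3689206) [(nat_lit 592011), (nat_lit 2125156), (nat_lit 5696977)]) (PF.cons PF.nil PF.nil)))) (PF.cons (PF.cons (PF.leaf (nat_lit 11164809) (nat_lit 2109662) (nat_lit 31032468) (nat_lit 3657376) [(nat_lit 0), (nat_lit 2109662), (nat_lit 5639928)]) (PF.cons (PF.leaf (nat_lit 11473509) (nat_lit 589332) (nat_lit 30646932) (nat_lit 3639678)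 [(nat_lit 589332), (nat_lit 2103198), (nat_lit 5605294)]) PF.nil)) (PF.cons PF.nil PF.nil)))) (PF.cons (PF.cons (PF.cons (PF.leaf (nat_lit 10943367) (nat_lit 3593819) (nat_lit 30262642) (nat_lit 3593819) [(nat_lit
 0), (nat_lit 0), (nat_lit 5542058)]) (PF.cons (PF.leaf (nat_lit 11242398) (nat_lit 574525) (nat_lit 29902174) (nat_lit 3577184) [(nat_lit 574525), (nat_lit 0), (nat_lit 5509154)]) (PF.cons (PF.leaf (nat_lit 11543302) (nat_lit 576203) (nat_lit 29542959) (nat_lit 3559939) [(nat_lit 576203), (nat_lit 0), (nat_lit 5475584)]) (PF.cons PF.nil PF.nil)))) (PF.cons (PF.cons (PF.leaf (nat_lit 11662049) (nat_lit 2042739) (nat_lit 29015704) (nat_lit 3528423) [(nat_lit 0), (nat_lit 2042739), (nat_lit 5420324)]) (PF.cons PF.nil PF.nil)) PF.nil)) (PF.cons PF.nil (PF.cons PF.nil (PF.cons PF.nil (PF.cons PF.nil (PF.cons PF.nil PF.nil))))))))))))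

def p14_19_0_0 : pfC (piC [(nat_lit 37297016), (nat_lit 23751559), (nat_lit 15232604)] (nat_lit 18643303)) p14_19_0 (nat_lit 3) (nat_lit 0) (nat_lit 1) = true := by decide +kernel
def p14_19_0_1 : pfC (piC [(nat_lit 37297016), (nat_lit 23751559), (nat_lit 15232604)] (nat_lit 18643303)) p14_19_0 (nat_lit 3) (nat_lit 1) (nat_lit 2) = true := by decide +kernel
def p14_19_0_2 : pfC (piC [(nat_lit 37297016), (nat_lit 23751559), (nat_lit 15232604)] (nat_lit 18643303)) p14_19_0 (nat_lit 3) (nat_lit 2) (nat_lit 3) = true := by decide +kernel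
def p14_19_0_3 : pfC (piC [(nat_lit 37297016), (nat_lit 23751559), (nat_lit 15232604)] (nat_lit 18643303)) p14_19_0 (nat_lit 3) (nat_lit 3) (nat_lit 4) = true := by decide +kernel
def p14_19_0_4 : pfC (piC [(nat_lit 37297016), (nat_lit 23751559), (nat_lit 15232604)] (nat_lit 18643303)) p14_19_0 (nat_lit 3) (nat_lit 4) (nat_lit 5) = true := by decide +kernel
def p14_19_0_5 : pfC (piC [(nat_lit 37297016), (nat_lit 23751559), (nat_lit 15232604)] (nat_lit 18643303)) p14_19_0 (nat_lit 3) (nat_lit 5) (nat_lit 6) = true := by decide +kernel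
def p14_19_0_6 : pfC (piC [(nat_lit 37297016), (nat_lit 23751559), (nat_lit 15232604)] (nat_lit 18643303)) p14_19_0 (nat_lit 3) (nat_lit 6) (nat_lit 7) = true := by decide +kernel
def p14_19_0_7 : pfC (piC [(nat_lit 37297016), (nat_lit 23751559), (nat_lit 15232604)] (nat_lit 18643303)) p14_19_0 (nat_lit 3) (nat_lit 7) (nat_lit 8) = true := by decide +kernel
def p14_19_0_8 : pfC (piC [(nat_lit 37297016), (nat_lit 23751559), (nat_lit 15232604)] (nat_lit 18643303)) p14_19_0 (nat_lit 3) (nat_lit 8) (nat_lit 9) = true := by decide +kernel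
def p14_19_0_9 : pfC (piC [(nat_lit 37297016), (nat_lit 23751559), (nat_lit 15232604)] (nat_lit 18643303)) p14_19_0 (nat_lit 3) (nat_lit 9) (nat_lit 10) = true := by decide +kernel
def p14_19_0_10 : pfC (piC [(nat_lit 37297016), (nat_lit 23751559), (nat_lit 15232604)] (nat_lit 18643303)) p14_19_0 (nat_lit 3) (nat_lit 10) (nat_lit 11) = true := by decide +kernel
def p14_19_0_11 : pfC (piC [(nat_lit 37297016), (nat_lit 23751559), (nat_lit 15232604)] (nat_lit 18643303)) p14_19_0 (nat_lit 3) (nat_lit 11) (nat_lit 12) = true := by decide +kernel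
def p14_19_0_12 : pfC (piC [(nat_lit 37297016), (nat_lit 23751559), (nat_lit 15232604)] (nat_lit 18643303)) p14_19_0 (nat_lit 3) (nat_lit 12) (nat_lit 13) = true := by decide +kernel
def p14_19_0_13 : pfC (piC [(nat_lit 37297016), (nat_lit 23751559), (nat_lit 15232604)] (nat_lit 18643303)) p14_19_0 (nat_lit 3) (nat_lit 13) (nat_lit 14) = true := by decide +kernel
def p14_19_0_14 : pfC (piC [(nat_lit 37297016), (nat_lit 23751559), (nat_lit 15232604)] (nat_lit 18643303)) p14_19_0 (nat_lit 3) (nat_lit 14) (nat_lit 15) = true := by decide +kernel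
def p14_19_0_15 : pfC (piC [(nat_lit 37297016), (nat_lit 23751559), (nat_lit 15232604)] (nat_lit 18643303)) p14_19_0 (nat_lit 3) (nat_lit 15) (nat_lit 16) = true := by decide +kernel
def p14_19_0_16 : pfC (piC [(nat_lit 37297016), (nat_lit 23751559), (nat_lit 15232604)] (nat_lit 18643303)) p14_19_0 (nat_lit 3) (nat_lit 16) (nat_lit 17) = true := by decide +kernel
def p14_19_0_17 : pfC (piC [(nat_lit 37297016), (nat_lit 23751559), (nat_lit 15232604)] (nat_lit 18643303)) p14_19_0 (nat_lit 3) (nat_lit 17) (nat_lit 18) = true := by decide +kernel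
def p14_19_0_18 : pfC (piC [(nat_lit 37297016), (nat_lit 23751559), (nat_lit 15232604)] (nat_lit 18643303)) p14_19_0 (nat_lit 3) (nat_lit 18) (nat_lit 19) = true := by decide +kernel
def p14_19_0_19 : pfC (piC [(nat_lit 37297016), (nat_lit 23751559), (nat_lit 15232604)] (nat_lit 18643303)) p14_19_0 (nat_lit 3) (nat_lit 19) (nat_lit 20) = true := by decide +kernel
def p14_19_0_20 : pfC (piC [(nat_lit 37297016), (nat_lit 23751559), (nat_lit 15232604)] (nat_lit 18643303)) p14_19_0 (nat_lit 3) (nat_lit 20) (nat_lit 21) = true := by decide +kernel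
def p14_19_0_21 : pfC (piC [(nat_lit 37297016), (nat_lit 23751559), (nat_lit 15232604)] (nat_lit 18643303)) p14_19_0 (nat_lit 3) (nat_lit 21) (nat_lit 22) = true := by decide +kernel
def p14_19_0_22 : pfC (piC [(nat_lit 37297016), (nat_lit 23751559), (nat_lit 15232604)] (nat_lit 18643303)) p14_19_0 (nat_lit 3) (nat_lit 22) (nat_lit 23) = true := by decide +kernel
def p14_19_0_23 : pfC (piC [(nat_lit 37297016), (nat_lit 23751559), (nat_lit 15232604)] (nat_lit 18643303)) p14_19_0 (nat_lit 3) (nat_lit 23) (nat_lit 24) = true := by decide +kernel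
def p14_19_0_24 : pfC (piC [(nat_lit 37297016), (nat_lit 23751559), (nat_lit 15232604)] (nat_lit 18643303)) p14_19_0 (nat_lit 3) (nat_lit 24) (nat_lit 25) = true := by decide +kernel
def p14_19_0_25 : pfC (piC [(nat_lit 37297016), (nat_lit 23751559), (nat_lit 15232604)] (nat_lit 18643303)) p14_19_0 (nat_lit 3) (nat_lit 25) (nat_lit 26) = true := by decide +kernel
def p14_19_0_26 : pfC (piC [(nat_lit 37297016), (nat_lit 23751559), (nat_lit 15232604)] (nat_lit 18643303)) p14_19_0 (nat_lit 3) (nat_lit 26) (nat_lit 27) = true := by decide +kernel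
def p14_19_0_27 : pfC (piC [(nat_lit 37297016), (nat_lit 23751559), (nat_lit 15232604)] (nat_lit 18643303)) p14_19_0 (nat_lit 3) (nat_lit 27) (nat_lit 28) = true := by decide +kernel
def p14_19_0_28 : pfC (piC [(nat_lit 37297016), (nat_lit 23751559), (nat_lit 15232604)] (nat_lit 18643303)) p14_19_0 (nat_lit 3) (nat_lit 28) (nat_lit 29) = true := by decide +kernel
def p14_19_0_29 : pfC (piC [(nat_lit 37297016), (nat_lit 23751559), (nat_lit 15232604)] (nat_lit 18643303)) p14_19_0 (nat_lit 3) (nat_lit 29) (nat_lit 30) = true := by decide +kernel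
def p14_19_0_30 : pfC (piC [(nat_lit 37297016), (nat_lit 23751559), (nat_lit 15232604)] (nat_lit 18643303)) p14_19_0 (nat_lit 3) (nat_lit 30) (nat_lit 31) = true := by decide +kernel
def p14_19_0_31 : pfC (piC [(nat_lit 37297016), (nat_lit 23751559), (nat_lit 15232604)] (nat_lit 18643303)) p14_19_0 (nat_lit 3) (nat_lit 31) (nat_lit 32) = true := by decide +kernel
def p14_19_0_32 : pfC (piC [(nat_lit 37297016), (nat_lit 23751559), (nat_lit 15232604)] (nat_lit 18643303)) p14_19_0 (nat_lit 3) (nat_lit 32) (nat_lit 33) = true := by decide +kernel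
def p14_19_0_33 : pfC (piC [(nat_lit 37297016), (nat_lit 23751559), (nat_lit 15232604)] (nat_lit 18643303)) p14_19_0 (nat_lit 3) (nat_lit 33) (nat_lit 34) = true := by decide +kernel
def p14_19_0_34 : pfC (piC [(nat_lit 37297016), (nat_lit 23751559), (nat_lit 15232604)] (nat_lit 18643303)) p14_19_0 (nat_lit 3) (nat_lit 34) (nat_lit 35) = true := by decide +kernel
def p14_19_0_35 : pfC (piC [(nat_lit 37297016), (nat_lit 23751559), (nat_lit 15232604)] (nat_lit 18643303)) p14_19_0 (nat_lit 3) (nat_lit 35) (nat_lit 36) = true := by decide +kernel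
def p14_19_0_36 : pfC (piC [(nat_lit 37297016), (nat_lit 23751559), (nat_lit 15232604)] (nat_lit 18643303)) p14_19_0 (nat_lit 3) (nat_lit 36) (nat_lit 37) = true := by decide +kernel
def p14_19_0_37 : pfC (piC [(nat_lit 37297016), (nat_lit 23751559), (nat_lit 15232604)] (nat_lit 18643303)) p14_19_0 (nat_lit 3) (nat_lit 37) (nat_lit 38) = true := by decide +kernel
def p14_19_0_38 : pfC (piC [(nat_lit 37297016), (nat_lit 23751559), (nat_lit 15232604)] (nat_lit 18643303)) p14_19_0 (nat_lit 3) (nat_lit 38) (nat_lit 39) = true := by decide +kernel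
def p14_19_0_39 : pfC (piC [(nat_lit 37297016), (nat_lit 23751559), (nat_lit 15232604)] (nat_lit 18643303)) p14_19_0 (nat_lit 3) (nat_lit 39) (nat_lit 40) = true := by decide +kernel
def p14_19_0_40 : pfC (piC [(nat_lit 37297016), (nat_lit 23751559), (nat_lit 15232604)] (nat_lit 18643303)) p14_19_0 (nat_lit 3) (nat_lit 40) (nat_lit 41) = true := by decide +kernel
def p14_19_0_41 : pfC (piC [(nat_lit 37297016), (nat_lit 23751559), (nat_lit 15232604)] (nat_lit 18643303)) p14_19_0 (nat_lit 3) (nat_lit 41) (nat_lit 42) = true := by decide +kernel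
def p14_19_0_42 : pfC (piC [(nat_lit 37297016), (nat_lit 23751559), (nat_lit 15232604)] (nat_lit 18643303)) p14_19_0 (nat_lit 3) (nat_lit 42) (nat_lit 43) = true := by decide +kernel
def p14_19_0_43 : pfC (piC [(nat_lit 37297016), (nat_lit 23751559), (nat_lit 15232604)] (nat_lit 18643303)) p14_19_0 (nat_lit 3) (nat_lit 43) (nat_lit 44) = true := by decide +kernel
def p14_19_0_44 : pfC (piC [(nat_lit 37297016), (nat_lit 23751559), (nat_lit 15232604)] (nat_lit 18643303)) p14_19_0 (nat_lit 3) (nat_lit 44) (nat_lit 45) = true := by decide +kernel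
def p14_19_0_45 : pfC (piC [(nat_lit 37297016), (nat_lit 23751559), (nat_lit 15232604)] (nat_lit 18643303)) p14_19_0 (nat_lit 3) (nat_lit 45) (nat_lit 46) = true := by decide +kernel
def p14_19_0_46 : pfC (piC [(nat_lit 37297016), (nat_lit 23751559), (nat_lit 15232604)] (nat_lit 18643303)) p14_19_0 (nat_lit 3) (nat_lit 46) (nat_lit 47) = true := by decide +kernel
def p14_19_0_47 : pfC (piC [(nat_lit 37297016), (nat_lit 23751559), (nat_lit 15232604)] (nat_lit 18643303)) p14_19_0 (nat_lit 3) (nat_lit 47) (nat_lit 48) = true := by decide +kernel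
def p14_19_0_48 : pfC (piC [(nat_lit 37297016), (nat_lit 23751559), (nat_lit 15232604)] (nat_lit 18643303)) p14_19_0 (nat_lit 3) (nat_lit 48) (nat_lit 49) = true := by decide +kernel
def p14_19_0_49 : pfC (piC [(nat_lit 37297016), (nat_lit 23751559), (nat_lit 15232604)] (nat_lit 18643303)) p14_19_0 (nat_lit 3) (nat_lit 49) (nat_lit 50) = true := by decide +kernel
def p14_19_0_50 : pfC (piC [(nat_lit 37297016), (nat_lit 23751559), (nat_lit 15232604)] (nat_lit 18643303)) p14_19_0 (nat_lit 3) (nat_lit 50) (nat_lit 51) = true := by decide +kernel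
def p14_19_0_51 : pfC (piC [(nat_lit 37297016), (nat_lit 23751559), (nat_lit 15232604)] (nat_lit 18643303)) p14_19_0 (nat_lit 3) (nat_lit 51) (nat_lit 52) = true := by decide +kernel
def p14_19_0_52 : pfC (piC [(nat_lit 37297016), (nat_lit 23751559), (nat_lit 15232604)] (nat_lit 18643303)) p14_19_0 (nat_lit 3) (nat_lit 52) (nat_lit 53) = true := by decide +kernel
def p14_19_0_53 : pfC (piC [(nat_lit 37297016), (nat_lit 23751559), (nat_lit 15232604)] (nat_lit 18643303)) p14_19_0 (nat_lit 3) (nat_lit 53) (nat_lit 54) = true := by decide +kernel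
def p14_19_0_54 : pfC (piC [(nat_lit 37297016), (nat_lit 23751559), (nat_lit 15232604)] (nat_lit 18643303)) p14_19_0 (nat_lit 3) (nat_lit 54) (nat_lit 55) = true := by decide +kernel
def p14_19_0_55 : pfC (piC [(nat_lit 37297016), (nat_lit 23751559), (nat_lit 15232604)] (nat_lit 18643303)) p14_19_0 (nat_lit 3) (nat_lit 55) (nat_lit 56) = true := by decide +kernel
def p14_19_0_56 : pfC (piC [(nat_lit 37297016), (nat_lit 23751559), (nat_lit 15232604)] (nat_lit 18643303)) p14_19_0 (nat_lit 3) (nat_lit 56) (nat_lit 57) = true := by decide +kernel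
def p14_19_0_57 : pfC (piC [(nat_lit 37297016), (nat_lit 23751559), (nat_lit 15232604)] (nat_lit 18643303)) p14_19_0 (nat_lit 3) (nat_lit 57) (nat_lit 58) = true := by decide +kernel
def p14_19_0_58 : pfC (piC [(nat_lit 37297016), (nat_lit 23751559), (nat_lit 15232604)] (nat_lit 18643303)) p14_19_0 (nat_lit 3) (nat_lit 58) (nat_lit 59) = true := by decide +kernel
def p14_19_0_59 : pfC (piC [(nat_lit 37297016), (nat_lit 23751559), (nat_lit 15232604)] (nat_lit 18643303)) p14_19_0 (nat_lit 3) (nat_lit 59) (nat_lit 60) = true := by decide +kernel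
def p14_19_0_60 : pfC (piC [(nat_lit 37297016), (nat_lit 23751559), (nat_lit 15232604)] (nat_lit 18643303)) p14_19_0 (nat_lit 3) (nat_lit 60) (nat_lit 61) = true := by decide +kernel
def p14_19_0_61 : pfC (piC [(nat_lit 37297016), (nat_lit 23751559), (nat_lit 15232604)] (nat_lit 18643303)) p14_19_0 (nat_lit 3) (nat_lit 61) (nat_lit 62) = true := by decide +kernel
def p14_19_0_62 : pfC (piC [(nat_lit 37297016), (nat_lit 23751559), (nat_lit 15232604)] (nat_lit 18643303)) p14_19_0 (nat_lit 3) (nat_lit 62) (nat_lit 63) = true := by decide +kernel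
def p14_19_0_63 : pfC (piC [(nat_lit 37297016), (nat_lit 23751559), (nat_lit 15232604)] (nat_lit 18643303)) p14_19_0 (nat_lit 3) (nat_lit 63) (nat_lit 64) = true := by decide +kernel
def p14_19_0_64 : pfC (piC [(nat_lit 37297016), (nat_lit 23751559), (nat_lit 15232604)] (nat_lit 18643303)) p14_19_0 (nat_lit 3) (nat_lit 64) (nat_lit 65) = true := by decide +kernel
def p14_19_0_65 : pfC (piC [(nat_lit 37297016), (nat_lit 23751559), (nat_lit 15232604)] (nat_lit 18643303)) p14_19_0 (nat_lit 3) (nat_lit 65) (nat_lit 66) = true := by decide +kernel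
def p14_19_0_66 : pfC (piC [(nat_lit 37297016), (nat_lit 23751559), (nat_lit 15232604)] (nat_lit 18643303)) p14_19_0 (nat_lit 3) (nat_lit 66) (nat_lit 67) = true := by decide +kernel
def p14_19_0_67 : pfC (piC [(nat_lit 37297016), (nat_lit 23751559), (nat_lit 15232604)] (nat_lit 18643303)) p14_19_0 (nat_lit 3) (nat_lit 67) (nat_lit 68) = true := by decide +kernel
def p14_19_0_68 : pfC (piC [(nat_lit 37297016), (nat_lit 23751559), (nat_lit 15232604)] (nat_lit 18643303)) p14_19_0 (nat_lit 3) (nat_lit 68) (nat_lit 69) = true := by decide +kernel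
def p14_19_0_69 : pfC (piC [(nat_lit 37297016), (nat_lit 23751559), (nat_lit 15232604)] (nat_lit 18643303)) p14_19_0 (nat_lit 3) (nat_lit 69) (nat_lit 70) = true := by decide +kernel
def p14_19_0_70 : pfC (piC [(nat_lit 37297016), (nat_lit 23751559), (nat_lit 15232604)] (nat_lit 18643303)) p14_19_0 (nat_lit 3) (nat_lit 70) (nat_lit 71) = true := by decide +kernel
def p14_19_0_71 : pfC (piC [(nat_lit 37297016), (nat_lit 23751559), (nat_lit 15232604)] (nat_lit 18643303)) p14_19_0 (nat_lit 3) (nat_lit 71) (nat_lit 72) = true := by decide +kernel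
def p14_19_0_72 : pfC (piC [(nat_lit 37297016), (nat_lit 23751559), (nat_lit 15232604)] (nat_lit 18643303)) p14_19_0 (nat_lit 3) (nat_lit 72) (nat_lit 73) = true := by decide +kernel
def p14_19_0_73 : pfC (piC [(nat_lit 37297016), (nat_lit 23751559), (nat_lit 15232604)] (nat_lit 18643303)) p14_19_0 (nat_lit 3) (nat_lit 73) (nat_lit 74) = true := by decide +kernel
def p14_19_0_74 : pfC (piC [(nat_lit 37297016), (nat_lit 23751559), (nat_lit 15232604)] (nat_lit 18643303)) p14_19_0 (nat_lit 3) (nat_lit 74) (nat_lit 75) = true := by decide +kernel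
def p14_19_0_75 : pfC (piC [(nat_lit 37297016), (nat_lit 23751559), (nat_lit 15232604)] (nat_lit 18643303)) p14_19_0 (nat_lit 3) (nat_lit 75) (nat_lit 76) = true := by decide +kernel
def p14_19_0_76 : pfC (piC [(nat_lit 37297016), (nat_lit 23751559), (nat_lit 15232604)] (nat_lit 18643303)) p14_19_0 (nat_lit 3) (nat_lit 76) (nat_lit 77) = true := by decide +kernel
def p14_19_0_77 : pfC (piC [(nat_lit 37297016), (nat_lit 23751559), (nat_lit 15232604)] (nat_lit 18643303)) p14_19_0 (nat_lit 3) (nat_lit 77) (nat_lit 78) = true := by decide +kernel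
def p14_19_0_78 : pfC (piC [(nat_lit 37297016), (nat_lit 23751559), (nat_lit 15232604)] (nat_lit 18643303)) p14_19_0 (nat_lit 3) (nat_lit 78) (nat_lit 79) = true := by decide +kernel
def p14_19_0_79 : pfC (piC [(nat_lit 37297016), (nat_lit 23751559), (nat_lit 15232604)] (nat_lit 18643303)) p14_19_0 (nat_lit 3) (nat_lit 79) (nat_lit 80) = true := by decide +kernel
def p14_19_0_80 : pfC (piC [(nat_lit 37297016), (nat_lit 23751559), (nat_lit 15232604)] (nat_lit 18643303)) p14_19_0 (nat_lit 3) (nat_lit 80) (nat_lit 81) = true := by decide +kernel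
def p14_19_0_81 : pfC (piC [(nat_lit 37297016), (nat_lit 23751559), (nat_lit 15232604)] (nat_lit 18643303)) p14_19_0 (nat_lit 3) (nat_lit 81) (nat_lit 82) = true := by decide +kernel
def p14_19_0_82 : pfC (piC [(nat_lit 37297016), (nat_lit 23751559), (nat_lit 15232604)] (nat_lit 18643303)) p14_19_0 (nat_lit 3) (nat_lit 82) (nat_lit 83) = true := by decide +kernel
def p14_19_0_83 : pfC (piC [(nat_lit 37297016), (nat_lit 23751559), (nat_lit 15232604)] (nat_lit 18643303)) p14_19_0 (nat_lit 3) (nat_lit 83) (nat_lit 84) = true := by decide +kernel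
def p14_19_0_84 : pfC (piC [(nat_lit 37297016), (nat_lit 23751559), (nat_lit 15232604)] (nat_lit 18643303)) p14_19_0 (nat_lit 3) (nat_lit 84) (nat_lit 85) = true := by decide +kernel
def p14_19_0_85 : pfC (piC [(nat_lit 37297016), (nat_lit 23751559), (nat_lit 15232604)] (nat_lit 18643303)) p14_19_0 (nat_lit 3) (nat_lit 85) (nat_lit 86) = true := by decide +kernel
def p14_19_0_86 : pfC (piC [(nat_lit 37297016), (nat_lit 23751559), (nat_lit 15232604)] (nat_lit 18643303)) p14_19_0 (nat_lit 3) (nat_lit 86) (nat_lit 87) = true := by decide +kernel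
def p14_19_0_87 : pfC (piC [(nat_lit 37297016), (nat_lit 23751559), (nat_lit 15232604)] (nat_lit 18643303)) p14_19_0 (nat_lit 3) (nat_lit 87) (nat_lit 88) = true := by decide +kernel
def p14_19_0_88 : pfC (piC [(nat_lit 37297016), (nat_lit 23751559), (nat_lit 15232604)] (nat_lit 18643303)) p14_19_0 (nat_lit 3) (nat_lit 88) (nat_lit 89) = true := by decide +kernel
def p14_19_0_89 : pfC (piC [(nat_lit 37297016), (nat_lit 23751559), (nat_lit 15232604)] (nat_lit 18643303)) p14_19_0 (nat_lit 3) (nat_lit 89) (nat_lit 90) = true := by decide +kernel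
def p14_19_0_90 : pfC (piC [(nat_lit 37297016), (nat_lit 23751559), (nat_lit 15232604)] (nat_lit 18643303)) p14_19_0 (nat_lit 3) (nat_lit 90) (nat_lit 91) = true := by decide +kernel
def p14_19_0_91 : pfC (piC [(nat_lit 37297016), (nat_lit 23751559), (nat_lit 15232604)] (nat_lit 18643303)) p14_19_0 (nat_lit 3) (nat_lit 91) (nat_lit 92) = true := by decide +kernel
def p14_19_0_92 : pfC (piC [(nat_lit 37297016), (nat_lit 23751559), (nat_lit 15232604)] (nat_lit 18643303)) p14_19_0 (nat_lit 3) (nat_lit 92) (nat_lit 93) = true := by decide +kernel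
def p14_19_0_93 : pfC (piC [(nat_lit 37297016), (nat_lit 23751559), (nat_lit 15232604)] (nat_lit 18643303)) p14_19_0 (nat_lit 3) (nat_lit 93) (nat_lit 94) = true := by decide +kernel
def p14_19_0_94 : pfC (piC [(nat_lit 37297016), (nat_lit 23751559), (nat_lit 15232604)] (nat_lit 18643303)) p14_19_0 (nat_lit 3) (nat_lit 94) (nat_lit 95) = true := by decide +kernel
def p14_19_0_95 : pfC (piC [(nat_lit 37297016), (nat_lit 23751559), (nat_lit 15232604)] (nat_lit 18643303)) p14_19_0 (nat_lit 3) (nat_lit 95) (nat_lit 96) = true := by decide +kernel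
def p14_19_0_96 : pfC (piC [(nat_lit 37297016), (nat_lit 23751559), (nat_lit 15232604)] (nat_lit 18643303)) p14_19_0 (nat_lit 3) (nat_lit 96) (nat_lit 97) = true := by decide +kernel
def p14_19_0_97 : pfC (piC [(nat_lit 37297016), (nat_lit 23751559), (nat_lit 15232604)] (nat_lit 18643303)) p14_19_0 (nat_lit 3) (nat_lit 97) (nat_lit 98) = true := by decide +kernel
def p14_19_0_98 : pfC (piC [(nat_lit 37297016), (nat_lit 23751559), (nat_lit 15232604)] (nat_lit 18643303)) p14_19_0 (nat_lit 3) (nat_lit 98) (nat_lit 99) = true := by decide +kernel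
def p14_19_0_99 : pfC (piC [(nat_lit 37297016), (nat_lit 23751559), (nat_lit 15232604)] (nat_lit 18643303)) p14_19_0 (nat_lit 3) (nat_lit 99) (nat_lit 100) = true := by decide +kernel
def p14_19_0_100 : pfC (piC [(nat_lit 37297016), (nat_lit 23751559), (nat_lit 15232604)] (nat_lit 18643303)) p14_19_0 (nat_lit 3) (nat_lit 100) (nat_lit 101) = true := by decide +kernel
def p14_19_0_101 : pfC (piC [(nat_lit 37297016), (nat_lit 23751559), (nat_lit 15232604)] (nat_lit 18643303)) p14_19_0 (nat_lit 3) (nat_lit 101) (nat_lit 102) = true := by decide +kernel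
def p14_19_0_102 : pfC (piC [(nat_lit 37297016), (nat_lit 23751559), (nat_lit 15232604)] (nat_lit 18643303)) p14_19_0 (nat_lit 3) (nat_lit 102) (nat_lit 103) = true := by decide +kernel
def p14_19_0_103 : pfC (piC [(nat_lit 37297016), (nat_lit 23751559), (nat_lit 15232604)] (nat_lit 18643303)) p14_19_0 (nat_lit 3) (nat_lit 103) (nat_lit 104) = true := by decide +kernel
def p14_19_0_104 : pfC (piC [(nat_lit 37297016), (nat_lit 23751559), (nat_lit 15232604)] (nat_lit 18643303)) p14_19_0 (nat_lit 3) (nat_lit 104) (nat_lit 105) = true := by decide +kernel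
def p14_19_0_105 : pfC (piC [(nat_lit 37297016), (nat_lit 23751559), (nat_lit 15232604)] (nat_lit 18643303)) p14_19_0 (nat_lit 3) (nat_lit 105) (nat_lit 106) = true := by decide +kernel
def p14_19_0_106 : pfC (piC [(nat_lit 37297016), (nat_lit 23751559), (nat_lit 15232604)] (nat_lit 18643303)) p14_19_0 (nat_lit 3) (nat_lit 106) (nat_lit 107) = true := by decide +kernel
def p14_19_0_107 : pfC (piC [(nat_lit 37297016), (nat_lit 23751559), (nat_lit 15232604)] (nat_lit 18643303)) p14_19_0 (nat_lit 3) (nat_lit 107) (nat_lit 108) = true := by decide +kernel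
def p14_19_0_108 : pfC (piC [(nat_lit 37297016), (nat_lit 23751559), (nat_lit 15232604)] (nat_lit 18643303)) p14_19_0 (nat_lit 3) (nat_lit 108) (nat_lit 109) = true := by decide +kernel
def p14_19_0_109 : pfC (piC [(nat_lit 37297016), (nat_lit 23751559), (nat_lit 15232604)] (nat_lit 18643303)) p14_19_0 (nat_lit 3) (nat_lit 109) (nat_lit 110) = true := by decide +kernel
def p14_19_0_110 : pfC (piC [(nat_lit 37297016), (nat_lit 23751559), (nat_lit 15232604)] (nat_lit 18643303)) p14_19_0 (nat_lit 3) (nat_lit 110) (nat_lit 111) = true := by decide +kernel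
def p14_19_0_111 : pfC (piC [(nat_lit 37297016), (nat_lit 23751559), (nat_lit 15232604)] (nat_lit 18643303)) p14_19_0 (nat_lit 3) (nat_lit 111) (nat_lit 112) = true := by decide +kernel
def p14_19_0_112 : pfC (piC [(nat_lit 37297016), (nat_lit 23751559), (nat_lit 15232604)] (nat_lit 18643303)) p14_19_0 (nat_lit 3) (nat_lit 112) (nat_lit 113) = true := by decide +kernel
def p14_19_0_113 : pfC (piC [(nat_lit 37297016), (nat_lit 23751559), (nat_lit 15232604)] (nat_lit 18643303)) p14_19_0 (nat_lit 3) (nat_lit 113) (nat_lit 114) = true := by decide +kernel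
def p14_19_0_114 : pfC (piC [(nat_lit 37297016), (nat_lit 23751559), (nat_lit 15232604)] (nat_lit 18643303)) p14_19_0 (nat_lit 3) (nat_lit 114) (nat_lit 115) = true := by decide +kernel
def p14_19_0_115 : pfC (piC [(nat_lit 37297016), (nat_lit 23751559), (nat_lit 15232604)] (nat_lit 18643303)) p14_19_0 (nat_lit 3) (nat_lit 115) (nat_lit 116) = true := by decide +kernel
def p14_19_0_116 : pfC (piC [(nat_lit 37297016), (nat_lit 23751559), (nat_lit 15232604)] (nat_lit 18643303)) p14_19_0 (nat_lit 3) (nat_lit 116) (nat_lit 117) = true := by decide +kernel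
def p14_19_0_117 : pfC (piC [(nat_lit 37297016), (nat_lit 23751559), (nat_lit 15232604)] (nat_lit 18643303)) p14_19_0 (nat_lit 3) (nat_lit 117) (nat_lit 118) = true := by decide +kernel
def p14_19_0_118 : pfC (piC [(nat_lit 37297016), (nat_lit 23751559), (nat_lit 15232604)] (nat_lit 18643303)) p14_19_0 (nat_lit 3) (nat_lit 118) (nat_lit 119) = true := by decide +kernel
def p14_19_0_119 : pfC (piC [(nat_lit 37297016), (nat_lit 23751559), (nat_lit 15232604)] (nat_lit 18643303)) p14_19_0 (nat_lit 3) (nat_lit 119) (nat_lit 120) = true := by decide +kernel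
def p14_19_0_120 : pfC (piC [(nat_lit 37297016), (nat_lit 23751559), (nat_lit 15232604)] (nat_lit 18643303)) p14_19_0 (nat_lit 3) (nat_lit 120) (nat_lit 121) = true := by decide +kernel
def p14_19_0_121 : pfC (piC [(nat_lit 37297016), (nat_lit 23751559), (nat_lit 15232604)] (nat_lit 18643303)) p14_19_0 (nat_lit 3) (nat_lit 121) (nat_lit 122) = true := by decide +kernel
def p14_19_0_122 : pfC (piC [(nat_lit 37297016), (nat_lit 23751559), (nat_lit 15232604)] (nat_lit 18643303)) p14_19_0 (nat_lit 3) (nat_lit 122) (nat_lit 123) = true := by decide +kernel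
def p14_19_0_123 : pfC (piC [(nat_lit 37297016), (nat_lit 23751559), (nat_lit 15232604)] (nat_lit 18643303)) p14_19_0 (nat_lit 3) (nat_lit 123) (nat_lit 124) = true := by decide +kernel
def p14_19_0_124 : pfC (piC [(nat_lit 37297016), (nat_lit 23751559), (nat_lit 15232604)] (nat_lit 18643303)) p14_19_0 (nat_lit 3) (nat_lit 124) (nat_lit 125) = true := by decide +kernel
def p14_19_0_125 : pfC (piC [(nat_lit 37297016), (nat_lit 23751559), (nat_lit 15232604)] (nat_lit 18643303)) p14_19_0 (nat_lit 3) (nat_lit 125) (nat_lit 126) = true := by decide +kernel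
def p14_19_0_126 : pfC (piC [(nat_lit 37297016), (nat_lit 23751559), (nat_lit 15232604)] (nat_lit 18643303)) p14_19_0 (nat_lit 3) (nat_lit 126) (nat_lit 127) = true := by decide +kernel
def p14_19_0_127 : pfC (piC [(nat_lit 37297016), (nat_lit 23751559), (nat_lit 15232604)] (nat_lit 18643303)) p14_19_0 (nat_lit 3) (nat_lit 127) (nat_lit 128) = true := by decide +kernel
def p14_19_0_128 : pfC (piC [(nat_lit 37297016), (nat_lit 23751559), (nat_lit 15232604)] (nat_lit 18643303)) p14_19_0 (nat_lit 3) (nat_lit 128) (nat_lit 129) = true := by decide +kernel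
def p14_19_0_129 : pfC (piC [(nat_lit 37297016), (nat_lit 23751559), (nat_lit 15232604)] (nat_lit 18643303)) p14_19_0 (nat_lit 3) (nat_lit 129) (nat_lit 130) = true := by decide +kernel
def p14_19_0_130 : pfC (piC [(nat_lit 37297016), (nat_lit 23751559), (nat_lit 15232604)] (nat_lit 18643303)) p14_19_0 (nat_lit 3) (nat_lit 130) (nat_lit 131) = true := by decide +kernel
def p14_19_0_131 : pfC (piC [(nat_lit 37297016), (nat_lit 23751559), (nat_lit 15232604)] (nat_lit 18643303)) p14_19_0 (nat_lit 3) (nat_lit 131) (nat_lit 132) = true := by decide +kernel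
def p14_19_0_132 : pfC (piC [(nat_lit 37297016), (nat_lit 23751559), (nat_lit 15232604)] (nat_lit 18643303)) p14_19_0 (nat_lit 3) (nat_lit 132) (nat_lit 133) = true := by decide +kernel
def p14_19_0_133 : pfC (piC [(nat_lit 37297016), (nat_lit 23751559), (nat_lit 15232604)] (nat_lit 18643303)) p14_19_0 (nat_lit 3) (nat_lit 133) (nat_lit 134) = true := by decide +kernel
def p14_19_0_134 : pfC (piC [(nat_lit 37297016), (nat_lit 23751559), (nat_lit 15232604)] (nat_lit 18643303)) p14_19_0 (nat_lit 3) (nat_lit 134) (nat_lit 135) = true := by decide +kernel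
def p14_19_0_135 : pfC (piC [(nat_lit 37297016), (nat_lit 23751559), (nat_lit 15232604)] (nat_lit 18643303)) p14_19_0 (nat_lit 3) (nat_lit 135) (nat_lit 136) = true := by decide +kernel
def p14_19_0_136 : pfC (piC [(nat_lit 37297016), (nat_lit 23751559), (nat_lit 15232604)] (nat_lit 18643303)) p14_19_0 (nat_lit 3) (nat_lit 136) (nat_lit 137) = true := by decide +kernel
def p14_19_0_137 : pfC (piC [(nat_lit 37297016), (nat_lit 23751559), (nat_lit 15232604)] (nat_lit 18643303)) p14_19_0 (nat_lit 3) (nat_lit 137) (nat_lit 138) = true := by decide +kernel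
def p14_19_0_138 : pfC (piC [(nat_lit 37297016), (nat_lit 23751559), (nat_lit 15232604)] (nat_lit 18643303)) p14_19_0 (nat_lit 3) (nat_lit 138) (nat_lit 139) = true := by decide +kernel
def p14_19_0_139 : pfC (piC [(nat_lit 37297016), (nat_lit 23751559), (nat_lit 15232604)] (nat_lit 18643303)) p14_19_0 (nat_lit 3) (nat_lit 139) (nat_lit 140) = true := by decide +kernel
def p14_19_0_140 : pfC (piC [(nat_lit 37297016), (nat_lit 23751559), (nat_lit 15232604)] (nat_lit 18643303)) p14_19_0 (nat_lit 3) (nat_lit 140) (nat_lit 141) = true := by decide +kernel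
def p14_19_0_141 : pfC (piC [(nat_lit 37297016), (nat_lit 23751559), (nat_lit 15232604)] (nat_lit 18643303)) p14_19_0 (nat_lit 3) (nat_lit 141) (nat_lit 142) = true := by decide +kernel
def p14_19_0_142 : pfC (piC [(nat_lit 37297016), (nat_lit 23751559), (nat_lit 15232604)] (nat_lit 18643303)) p14_19_0 (nat_lit 3) (nat_lit 142) (nat_lit 143) = true := by decide +kernel
def p14_19_0_143 : pfC (piC [(nat_lit 37297016), (nat_lit 23751559), (nat_lit 15232604)] (nat_lit 18643303)) p14_19_0 (nat_lit 3) (nat_lit 143) (nat_lit 144) = true := by decide +kernel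
def p14_19_0_144 : pfC (piC [(nat_lit 37297016), (nat_lit 23751559), (nat_lit 15232604)] (nat_lit 18643303)) p14_19_0 (nat_lit 3) (nat_lit 144) (nat_lit 145) = true := by decide +kernel
def p14_19_0_145 : pfC (piC [(nat_lit 37297016), (nat_lit 23751559), (nat_lit 15232604)] (nat_lit 18643303)) p14_19_0 (nat_lit 3) (nat_lit 145) (nat_lit 146) = true := by decide +kernel
def p14_19_0_146 : pfC (piC [(nat_lit 37297016), (nat_lit 23751559), (nat_lit 15232604)] (nat_lit 18643303)) p14_19_0 (nat_lit 3) (nat_lit 146) (nat_lit 147) = true := by decide +kernel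
def p14_19_0_147 : pfC (piC [(nat_lit 37297016), (nat_lit 23751559), (nat_lit 15232604)] (nat_lit 18643303)) p14_19_0 (nat_lit 3) (nat_lit 147) (nat_lit 148) = true := by decide +kernel
def p14_19_0_148 : pfC (piC [(nat_lit 37297016), (nat_lit 23751559), (nat_lit 15232604)] (nat_lit 18643303)) p14_19_0 (nat_lit 3) (nat_lit 148) (nat_lit 149) = true := by decide +kernel
def p14_19_0_149 : pfC (piC [(nat_lit 37297016), (nat_lit 23751559), (nat_lit 15232604)] (nat_lit 18643303)) p14_19_0 (nat_lit 3) (nat_lit 149) (nat_lit 150) = true := by decide +kernel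
def p14_19_0_150 : pfC (piC [(nat_lit 37297016), (nat_lit 23751559), (nat_lit 15232604)] (nat_lit 18643303)) p14_19_0 (nat_lit 3) (nat_lit 150) (nat_lit 151) = true := by decide +kernel
def p14_19_0_151 : pfC (piC [(nat_lit 37297016), (nat_lit 23751559), (nat_lit 15232604)] (nat_lit 18643303)) p14_19_0 (nat_lit 3) (nat_lit 151) (nat_lit 152) = true := by decide +kernel
def p14_19_0_152 : pfC (piC [(nat_lit 37297016), (nat_lit 23751559), (nat_lit 15232604)] (nat_lit 18643303)) p14_19_0 (nat_lit 3) (nat_lit 152) (nat_lit 153) = true := by decide +kernel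
def p14_19_0_153 : pfC (piC [(nat_lit 37297016), (nat_lit 23751559), (nat_lit 15232604)] (nat_lit 18643303)) p14_19_0 (nat_lit 3) (nat_lit 153) (nat_lit 154) = true := by decide +kernel
def p14_19_0_154 : pfC (piC [(nat_lit 37297016), (nat_lit 23751559), (nat_lit 15232604)] (nat_lit 18643303)) p14_19_0 (nat_lit 3) (nat_lit 154) (nat_lit 155) = true := by decide +kernel
def p14_19_0_155 : pfC (piC [(nat_lit 37297016), (nat_lit 23751559), (nat_lit 15232604)] (nat_lit 18643303)) p14_19_0 (nat_lit 3) (nat_lit 155) (nat_lit 156) = true := by decide +kernel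
def p14_19_0_156 : pfC (piC [(nat_lit 37297016), (nat_lit 23751559), (nat_lit 15232604)] (nat_lit 18643303)) p14_19_0 (nat_lit 3) (nat_lit 156) (nat_lit 157) = true := by decide +kernel
def p14_19_0_157 : pfC (piC [(nat_lit 37297016), (nat_lit 23751559), (nat_lit 15232604)] (nat_lit 18643303)) p14_19_0 (nat_lit 3) (nat_lit 157) (nat_lit 158) = true := by decide +kernel
def p14_19_0_158 : pfC (piC [(nat_lit 37297016), (nat_lit 23751559), (nat_lit 15232604)] (nat_lit 18643303)) p14_19_0 (nat_lit 3) (nat_lit 158) (nat_lit 159) = true := by decide +kernel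
def p14_19_0_159 : pfC (piC [(nat_lit 37297016), (nat_lit 23751559), (nat_lit 15232604)] (nat_lit 18643303)) p14_19_0 (nat_lit 3) (nat_lit 159) (nat_lit 160) = true := by decide +kernel
def p14_19_0_160 : pfC (piC [(nat_lit 37297016), (nat_lit 23751559), (nat_lit 15232604)] (nat_lit 18643303)) p14_19_0 (nat_lit 3) (nat_lit 160) (nat_lit 161) = true := by decide +kernel
def p14_19_0_161 : pfC (piC [(nat_lit 37297016), (nat_lit 23751559), (nat_lit 15232604)] (nat_lit 18643303)) p14_19_0 (nat_lit 3) (nat_lit 161) (nat_lit 162) = true := by decide +kernel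
def p14_19_0_162 : pfC (piC [(nat_lit 37297016), (nat_lit 23751559), (nat_lit 15232604)] (nat_lit 18643303)) p14_19_0 (nat_lit 3) (nat_lit 162) (nat_lit 163) = true := by decide +kernel
def p14_19_0_163 : pfC (piC [(nat_lit 37297016), (nat_lit 23751559), (nat_lit 15232604)] (nat_lit 18643303)) p14_19_0 (nat_lit 3) (nat_lit 163) (nat_lit 164) = true := by decide +kernel
def p14_19_0_164 : pfC (piC [(nat_lit 37297016), (nat_lit 23751559), (nat_lit 15232604)] (nat_lit 18643303)) p14_19_0 (nat_lit 3) (nat_lit 164) (nat_lit 165) = true := by decide +kernel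
def p14_19_0_165 : pfC (piC [(nat_lit 37297016), (nat_lit 23751559), (nat_lit 15232604)] (nat_lit 18643303)) p14_19_0 (nat_lit 3) (nat_lit 165) (nat_lit 166) = true := by decide +kernel
def p14_19_0_166 : pfC (piC [(nat_lit 37297016), (nat_lit 23751559), (nat_lit 15232604)] (nat_lit 18643303)) p14_19_0 (nat_lit 3) (nat_lit 166) (nat_lit 167) = true := by decide +kernel
def p14_19_0_167 : pfC (piC [(nat_lit 37297016), (nat_lit 23751559), (nat_lit 15232604)] (nat_lit 18643303)) p14_19_0 (nat_lit 3) (nat_lit 167) (nat_lit 168) = true := by decide +kernel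
def p14_19_0_168 : pfC (piC [(nat_lit 37297016), (nat_lit 23751559), (nat_lit 15232604)] (nat_lit 18643303)) p14_19_0 (nat_lit 3) (nat_lit 168) (nat_lit 169) = true := by decide +kernel
def p14_19_0_169 : pfC (piC [(nat_lit 37297016), (nat_lit 23751559), (nat_lit 15232604)] (nat_lit 18643303)) p14_19_0 (nat_lit 3) (nat_lit 169) (nat_lit 170) = true := by decide +kernel
def p14_19_0_170 : pfC (piC [(nat_lit 37297016), (nat_lit 23751559), (nat_lit 15232604)] (nat_lit 18643303)) p14_19_0 (nat_lit 3) (nat_lit 170) (nat_lit 171) = true := by decide +kernel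
def p14_19_0_171 : pfC (piC [(nat_lit 37297016), (nat_lit 23751559), (nat_lit 15232604)] (nat_lit 18643303)) p14_19_0 (nat_lit 3) (nat_lit 171) (nat_lit 172) = true := by decide +kernel
def p14_19_0_172 : pfC (piC [(nat_lit 37297016), (nat_lit 23751559), (nat_lit 15232604)] (nat_lit 18643303)) p14_19_0 (nat_lit 3) (nat_lit 172) (nat_lit 173) = true := by decide +kernel
def p14_19_0_173 : pfC (piC [(nat_lit 37297016), (nat_lit 23751559), (nat_lit 15232604)] (nat_lit 18643303)) p14_19_0 (nat_lit 3) (nat_lit 173) (nat_lit 174) = true := by decide +kernel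
def p14_19_0_174 : pfC (piC [(nat_lit 37297016), (nat_lit 23751559), (nat_lit 15232604)] (nat_lit 18643303)) p14_19_0 (nat_lit 3) (nat_lit 174) (nat_lit 175) = true := by decide +kernel
def p14_19_0_175 : pfC (piC [(nat_lit 37297016), (nat_lit 23751559), (nat_lit 15232604)] (nat_lit 18643303)) p14_19_0 (nat_lit 3) (nat_lit 175) (nat_lit 176) = true := by decide +kernel
def p14_19_0_176 : pfC (piC [(nat_lit 37297016), (nat_lit 23751559), (nat_lit 15232604)] (nat_lit 18643303)) p14_19_0 (nat_lit 3) (nat_lit 176) (nat_lit 177) = true := by decide +kernel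
def p14_19_0_177 : pfC (piC [(nat_lit 37297016), (nat_lit 23751559), (nat_lit 15232604)] (nat_lit 18643303)) p14_19_0 (nat_lit 3) (nat_lit 177) (nat_lit 178) = true := by decide +kernel
def p14_19_0_178 : pfC (piC [(nat_lit 37297016), (nat_lit 23751559), (nat_lit 15232604)] (nat_lit 18643303)) p14_19_0 (nat_lit 3) (nat_lit 178) (nat_lit 179) = true := by decide +kernel
def p14_19_0_179 : pfC (piC [(nat_lit 37297016), (nat_lit 23751559), (nat_lit 15232604)] (nat_lit 18643303)) p14_19_0 (nat_lit 3) (nat_lit 179) (nat_lit 180) = true := by decide +kernel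
def p14_19_0_180 : pfC (piC [(nat_lit 37297016), (nat_lit 23751559), (nat_lit 15232604)] (nat_lit 18643303)) p14_19_0 (nat_lit 3) (nat_lit 180) (nat_lit 181) = true := by decide +kernel
def p14_19_0_181 : pfC (piC [(nat_lit 37297016), (nat_lit 23751559), (nat_lit 15232604)] (nat_lit 18643303)) p14_19_0 (nat_lit 3) (nat_lit 181) (nat_lit 182) = true := by decide +kernel
def p14_19_0_182 : pfC (piC [(nat_lit 37297016), (nat_lit 23751559), (nat_lit 15232604)] (nat_lit 18643303)) p14_19_0 (nat_lit 3) (nat_lit 182) (nat_lit 183) = true := by decide +kernel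
def p14_19_0_183 : pfC (piC [(nat_lit 37297016), (nat_lit 23751559), (nat_lit 15232604)] (nat_lit 18643303)) p14_19_0 (nat_lit 3) (nat_lit 183) (nat_lit 184) = true := by decide +kernel
def p14_19_0_184 : pfC (piC [(nat_lit 37297016), (nat_lit 23751559), (nat_lit 15232604)] (nat_lit 18643303)) p14_19_0 (nat_lit 3) (nat_lit 184) (nat_lit 185) = true := by decide +kernel
def p14_19_0_185 : pfC (piC [(nat_lit 37297016), (nat_lit 23751559), (nat_lit 15232604)] (nat_lit 18643303)) p14_19_0 (nat_lit 3) (nat_lit 185) (nat_lit 186) = true := by decide +kernel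
def p14_19_0_186 : pfC (piC [(nat_lit 37297016), (nat_lit 23751559), (nat_lit 15232604)] (nat_lit 18643303)) p14_19_0 (nat_lit 3) (nat_lit 186) (nat_lit 187) = true := by decide +kernel
def p14_19_0_187 : pfC (piC [(nat_lit 37297016), (nat_lit 23751559), (nat_lit 15232604)] (nat_lit 18643303)) p14_19_0 (nat_lit 3) (nat_lit 187) (nat_lit 188) = true := by decide +kernel
def p14_19_0_188 : pfC (piC [(nat_lit 37297016), (nat_lit 23751559), (nat_lit 15232604)] (nat_lit 18643303)) p14_19_0 (nat_lit 3) (nat_lit 188) (nat_lit 189) = true := by decide +kernel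
def p14_19_0_189 : pfC (piC [(nat_lit 37297016), (nat_lit 23751559), (nat_lit 15232604)] (nat_lit 18643303)) p14_19_0 (nat_lit 3) (nat_lit 189) (nat_lit 190) = true := by decide +kernel
def p14_19_0_190 : pfC (piC [(nat_lit 37297016), (nat_lit 23751559), (nat_lit 15232604)] (nat_lit 18643303)) p14_19_0 (nat_lit 3) (nat_lit 190) (nat_lit 191) = true := by decide +kernel
def p14_19_0_191 : pfC (piC [(nat_lit 37297016), (nat_lit 23751559), (nat_lit 15232604)] (nat_lit 18643303)) p14_19_0 (nat_lit 3) (nat_lit 191) (nat_lit 192) = true := by decide +kernel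
def p14_19_0_192 : pfC (piC [(nat_lit 37297016), (nat_lit 23751559), (nat_lit 15232604)] (nat_lit 18643303)) p14_19_0 (nat_lit 3) (nat_lit 192) (nat_lit 193) = true := by decide +kernel
def p14_19_0_193 : pfC (piC [(nat_lit 37297016), (nat_lit 23751559), (nat_lit 15232604)] (nat_lit 18643303)) p14_19_0 (nat_lit 3) (nat_lit 193) (nat_lit 194) = true := by decide +kernel
def p14_19_0_194 : pfC (piC [(nat_lit 37297016), (nat_lit 23751559), (nat_lit 15232604)] (nat_lit 18643303)) p14_19_0 (nat_lit 3) (nat_lit 194) (nat_lit 195) = true := by decide +kernel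
def p14_19_0_195 : pfC (piC [(nat_lit 37297016), (nat_lit 23751559), (nat_lit 15232604)] (nat_lit 18643303)) p14_19_0 (nat_lit 3) (nat_lit 195) (nat_lit 196) = true := by decide +kernel
def p14_19_0_196 : pfC (piC [(nat_lit 37297016), (nat_lit 23751559), (nat_lit 15232604)] (nat_lit 18643303)) p14_19_0 (nat_lit 3) (nat_lit 196) (nat_lit 197) = true := by decide +kernel
def p14_19_0_197 : pfC (piC [(nat_lit 37297016), (nat_lit 23751559), (nat_lit 15232604)] (nat_lit 18643303)) p14_19_0 (nat_lit 3) (nat_lit 197) (nat_lit 198) = true := by decide +kernel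
def p14_19_0_198 : pfC (piC [(nat_lit 37297016), (nat_lit 23751559), (nat_lit 15232604)] (nat_lit 18643303)) p14_19_0 (nat_lit 3) (nat_lit 198) (nat_lit 199) = true := by decide +kernel
def p14_19_0_199 : pfC (piC [(nat_lit 37297016), (nat_lit 23751559), (nat_lit 15232604)] (nat_lit 18643303)) p14_19_0 (nat_lit 3) (nat_lit 199) (nat_lit 200) = true := by decide +kernel
def p14_19_0_200 : pfC (piC [(nat_lit 37297016), (nat_lit 23751559), (nat_lit 15232604)] (nat_lit 18643303)) p14_19_0 (nat_lit 3) (nat_lit 200) (nat_lit 201) = true := by decide +kernel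
def p14_19_0_201 : pfC (piC [(nat_lit 37297016), (nat_lit 23751559), (nat_lit 15232604)] (nat_lit 18643303)) p14_19_0 (nat_lit 3) (nat_lit 201) (nat_lit 202) = true := by decide +kernel
def p14_19_0_202 : pfC (piC [(nat_lit 37297016), (nat_lit 23751559), (nat_lit 15232604)] (nat_lit 18643303)) p14_19_0 (nat_lit 3) (nat_lit 202) (nat_lit 203) = true := by decide +kernel
def p14_19_0_203 : pfC (piC [(nat_lit 37297016), (nat_lit 23751559), (nat_lit 15232604)] (nat_lit 18643303)) p14_19_0 (nat_lit 3) (nat_lit 203) (nat_lit 204) = true := by decide +kernel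
def p14_19_0_204 : pfC (piC [(nat_lit 37297016), (nat_lit 23751559), (nat_lit 15232604)] (nat_lit 18643303)) p14_19_0 (nat_lit 3) (nat_lit 204) (nat_lit 205) = true := by decide +kernel
def p14_19_0_205 : pfC (piC [(nat_lit 37297016), (nat_lit 23751559), (nat_lit 15232604)] (nat_lit 18643303)) p14_19_0 (nat_lit 3) (nat_lit 205) (nat_lit 206) = true := by decide +kernel
def p14_19_0_206 : pfC (piC [(nat_lit 37297016), (nat_lit 23751559), (nat_lit 15232604)] (nat_lit 18643303)) p14_19_0 (nat_lit 3) (nat_lit 206) (nat_lit 207) = true := by decide +kernel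
def p14_19_0_207 : pfC (piC [(nat_lit 37297016), (nat_lit 23751559), (nat_lit 15232604)] (nat_lit 18643303)) p14_19_0 (nat_lit 3) (nat_lit 207) (nat_lit 208) = true := by decide +kernel
def p14_19_0_208 : pfC (piC [(nat_lit 37297016), (nat_lit 23751559), (nat_lit 15232604)] (nat_lit 18643303)) p14_19_0 (nat_lit 3) (nat_lit 208) (nat_lit 209) = true := by decide +kernel
def p14_19_0_209 : pfC (piC [(nat_lit 37297016), (nat_lit 23751559), (nat_lit 15232604)] (nat_lit 18643303)) p14_19_0 (nat_lit 3) (nat_lit 209) (nat_lit 210) = true := by decide +kernel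
def p14_19_0_210 : pfC (piC [(nat_lit 37297016), (nat_lit 23751559), (nat_lit 15232604)] (nat_lit 18643303)) p14_19_0 (nat_lit 3) (nat_lit 210) (nat_lit 211) = true := by decide +kernel
def p14_19_0_211 : pfC (piC [(nat_lit 37297016), (nat_lit 23751559), (nat_lit 15232604)] (nat_lit 18643303)) p14_19_0 (nat_lit 3) (nat_lit 211) (nat_lit 212) = true := by decide +kernel
def p14_19_0_212 : pfC (piC [(nat_lit 37297016), (nat_lit 23751559), (nat_lit 15232604)] (nat_lit 18643303)) p14_19_0 (nat_lit 3) (nat_lit 212) (nat_lit 213) = true := by decide +kernel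
def p14_19_0_213 : pfC (piC [(nat_lit 37297016), (nat_lit 23751559), (nat_lit 15232604)] (nat_lit 18643303)) p14_19_0 (nat_lit 3) (nat_lit 213) (nat_lit 214) = true := by decide +kernel
def p14_19_0_214 : pfC (piC [(nat_lit 37297016), (nat_lit 23751559), (nat_lit 15232604)] (nat_lit 18643303)) p14_19_0 (nat_lit 3) (nat_lit 214) (nat_lit 215) = true := by decide +kernel
def p14_19_0_215 : pfC (piC [(nat_lit 37297016), (nat_lit 23751559), (nat_lit 15232604)] (nat_lit 18643303)) p14_19_0 (nat_lit 3) (nat_lit 215) (nat_lit 216) = true := by decide +kernel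
def p14_19_0_216 : pfC (piC [(nat_lit 37297016), (nat_lit 23751559), (nat_lit 15232604)] (nat_lit 18643303)) p14_19_0 (nat_lit 3) (nat_lit 216) (nat_lit 217) = true := by decide +kernel
def p14_19_0_217 : pfC (piC [(nat_lit 37297016), (nat_lit 23751559), (nat_lit 15232604)] (nat_lit 18643303)) p14_19_0 (nat_lit 3) (nat_lit 217) (nat_lit 218) = true := by decide +kernel
def p14_19_0_218 : pfC (piC [(nat_lit 37297016), (nat_lit 23751559), (nat_lit 15232604)] (nat_lit 18643303)) p14_19_0 (nat_lit 3) (nat_lit 218) (nat_lit 219) = true := by decide +kernel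
def p14_19_0_219 : pfC (piC [(nat_lit 37297016), (nat_lit 23751559), (nat_lit 15232604)] (nat_lit 18643303)) p14_19_0 (nat_lit 3) (nat_lit 219) (nat_lit 220) = true := by decide +kernel
def p14_19_0_220 : pfC (piC [(nat_lit 37297016), (nat_lit 23751559), (nat_lit 15232604)] (nat_lit 18643303)) p14_19_0 (nat_lit 3) (nat_lit 220) (nat_lit 221) = true := by decide +kernel
def p14_19_0_221 : pfC (piC [(nat_lit 37297016), (nat_lit 23751559), (nat_lit 15232604)] (nat_lit 18643303)) p14_19_0 (nat_lit 3) (nat_lit 221) (nat_lit 222) = true := by decide +kernel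
def p14_19_0_222 : pfC (piC [(nat_lit 37297016), (nat_lit 23751559), (nat_lit 15232604)] (nat_lit 18643303)) p14_19_0 (nat_lit 3) (nat_lit 222) (nat_lit 223) = true := by decide +kernel
def p14_19_0_223 : pfC (piC [(nat_lit 37297016), (nat_lit 23751559), (nat_lit 15232604)] (nat_lit 18643303)) p14_19_0 (nat_lit 3) (nat_lit 223) (nat_lit 224) = true := by decide +kernel
def p14_19_0_224 : pfC (piC [(nat_lit 37297016), (nat_lit 23751559), (nat_lit 15232604)] (nat_lit 18643303)) p14_19_0 (nat_lit 3) (nat_lit 224) (nat_lit 225) = true := by decide +kernel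
def p14_19_0_225 : pfC (piC [(nat_lit 37297016), (nat_lit 23751559), (nat_lit 15232604)] (nat_lit 18643303)) p14_19_0 (nat_lit 3) (nat_lit 225) (nat_lit 226) = true := by decide +kernel
def p14_19_0_226 : pfC (piC [(nat_lit 37297016), (nat_lit 23751559), (nat_lit 15232604)] (nat_lit 18643303)) p14_19_0 (nat_lit 3) (nat_lit 226) (nat_lit 227) = true := by decide +kernel
def p14_19_0_227 : pfC (piC [(nat_lit 37297016), (nat_lit 23751559), (nat_lit 15232604)] (nat_lit 18643303)) p14_19_0 (nat_lit 3) (nat_lit 227) (nat_lit 228) = true := by decide +kernel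
def p14_19_0_228 : pfC (piC [(nat_lit 37297016), (nat_lit 23751559), (nat_lit 15232604)] (nat_lit 18643303)) p14_19_0 (nat_lit 3) (nat_lit 228) (nat_lit 229) = true := by decide +kernel
def p14_19_0_229 : pfC (piC [(nat_lit 37297016), (nat_lit 23751559), (nat_lit 15232604)] (nat_lit 18643303)) p14_19_0 (nat_lit 3) (nat_lit 229) (nat_lit 230) = true := by decide +kernel
def p14_19_0_230 : pfC (piC [(nat_lit 37297016), (nat_lit 23751559), (nat_lit 15232604)] (nat_lit 18643303)) p14_19_0 (nat_lit 3) (nat_lit 230) (nat_lit 231) = true := by decide +kernel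
def p14_19_0_231 : pfC (piC [(nat_lit 37297016), (nat_lit 23751559), (nat_lit 15232604)] (nat_lit 18643303)) p14_19_0 (nat_lit 3) (nat_lit 231) (nat_lit 232) = true := by decide +kernel
def p14_19_0_232 : pfC (piC [(nat_lit 37297016), (nat_lit 23751559), (nat_lit 15232604)] (nat_lit 18643303)) p14_19_0 (nat_lit 3) (nat_lit 232) (nat_lit 233) = true := by decide +kernel
def p14_19_0_233 : pfC (piC [(nat_lit 37297016), (nat_lit 23751559), (nat_lit 15232604)] (nat_lit 18643303)) p14_19_0 (nat_lit 3) (nat_lit 233) (nat_lit 234) = true := by decide +kernel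
def p14_19_0_234 : pfC (piC [(nat_lit 37297016), (nat_lit 23751559), (nat_lit 15232604)] (nat_lit 18643303)) p14_19_0 (nat_lit 3) (nat_lit 234) (nat_lit 235) = true := by decide +kernel
def p14_19_0_235 : pfC (piC [(nat_lit 37297016), (nat_lit 23751559), (nat_lit 15232604)] (nat_lit 18643303)) p14_19_0 (nat_lit 3) (nat_lit 235) (nat_lit 236) = true := by decide +kernel
def p14_19_0_236 : pfC (piC [(nat_lit 37297016), (nat_lit 23751559), (nat_lit 15232604)] (nat_lit 18643303)) p14_19_0 (nat_lit 3) (nat_lit 236) (nat_lit 237) = true := by decide +kernel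
def p14_19_0_237 : pfC (piC [(nat_lit 37297016), (nat_lit 23751559), (nat_lit 15232604)] (nat_lit 18643303)) p14_19_0 (nat_lit 3) (nat_lit 237) (nat_lit 238) = true := by decide +kernel
def p14_19_0_238 : pfC (piC [(nat_lit 37297016), (nat_lit 23751559), (nat_lit 15232604)] (nat_lit 18643303)) p14_19_0 (nat_lit 3) (nat_lit 238) (nat_lit 239) = true := by decide +kernel
def p14_19_0_239 : pfC (piC [(nat_lit 37297016), (nat_lit 23751559), (nat_lit 15232604)] (nat_lit 18643303)) p14_19_0 (nat_lit 3) (nat_lit 239) (nat_lit 240) = true := by decide +kernel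
def p14_19_0_240 : pfC (piC [(nat_lit 37297016), (nat_lit 23751559), (nat_lit 15232604)] (nat_lit 18643303)) p14_19_0 (nat_lit 3) (nat_lit 240) (nat_lit 241) = true := by decide +kernel
def p14_19_0_241 : pfC (piC [(nat_lit 37297016), (nat_lit 23751559), (nat_lit 15232604)] (nat_lit 18643303)) p14_19_0 (nat_lit 3) (nat_lit 241) (nat_lit 242) = true := by decide +kernel
def p14_19_0_242 : pfC (piC [(nat_lit 37297016), (nat_lit 23751559), (nat_lit 15232604)] (nat_lit 18643303)) p14_19_0 (nat_lit 3) (nat_lit 242) (nat_lit 243) = true := by decide +kernel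
def p14_19_0_243 : pfC (piC [(nat_lit 37297016), (nat_lit 23751559), (nat_lit 15232604)] (nat_lit 18643303)) p14_19_0 (nat_lit 3) (nat_lit 243) (nat_lit 244) = true := by decide +kernel
def p14_19_0_244 : pfC (piC [(nat_lit 37297016), (nat_lit 23751559), (nat_lit 15232604)] (nat_lit 18643303)) p14_19_0 (nat_lit 3) (nat_lit 244) (nat_lit 245) = true := by decide +kernel
def p14_19_0_245 : pfC (piC [(nat_lit 37297016), (nat_lit 23751559), (nat_lit 15232604)] (nat_lit 18643303)) p14_19_0 (nat_lit 3) (nat_lit 245) (nat_lit 246) = true := by decide +kernel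
def p14_19_0_246 : pfC (piC [(nat_lit 37297016), (nat_lit 23751559), (nat_lit 15232604)] (nat_lit 18643303)) p14_19_0 (nat_lit 3) (nat_lit 246) (nat_lit 247) = true := by decide +kernel
def p14_19_0_247 : pfC (piC [(nat_lit 37297016), (nat_lit 23751559), (nat_lit 15232604)] (nat_lit 18643303)) p14_19_0 (nat_lit 3) (nat_lit 247) (nat_lit 248) = true := by decide +kernel
def p14_19_0_248 : pfC (piC [(nat_lit 37297016), (nat_lit 23751559), (nat_lit 15232604)] (nat_lit 18643303)) p14_19_0 (nat_lit 3) (nat_lit 248) (nat_lit 249) = true := by decide +kernel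
def p14_19_0_249 : pfC (piC [(nat_lit 37297016), (nat_lit 23751559), (nat_lit 15232604)] (nat_lit 18643303)) p14_19_0 (nat_lit 3) (nat_lit 249) (nat_lit 250) = true := by decide +kernel
def p14_19_0_250 : pfC (piC [(nat_lit 37297016), (nat_lit 23751559), (nat_lit 15232604)] (nat_lit 18643303)) p14_19_0 (nat_lit 3) (nat_lit 250) (nat_lit 251) = true := by decide +kernel
def p14_19_0_251 : pfC (piC [(nat_lit 37297016), (nat_lit 23751559), (nat_lit 15232604)] (nat_lit 18643303)) p14_19_0 (nat_lit 3) (nat_lit 251) (nat_lit 252) = true := by decide +kernel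
def p14_19_0_252 : pfC (piC [(nat_lit 37297016), (nat_lit 23751559), (nat_lit 15232604)] (nat_lit 18643303)) p14_19_0 (nat_lit 3) (nat_lit 252) (nat_lit 253) = true := by decide +kernel
def p14_19_0_253 : pfC (piC [(nat_lit 37297016), (nat_lit 23751559), (nat_lit 15232604)] (nat_lit 18643303)) p14_19_0 (nat_lit 3) (nat_lit 253) (nat_lit 254) = true := by decide +kernel
def p14_19_0_254 : pfC (piC [(nat_lit 37297016), (nat_lit 23751559), (nat_lit 15232604)] (nat_lit 18643303)) p14_19_0 (nat_lit 3) (nat_lit 254) (nat_lit 255) = true := by decide +kernel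
def p14_19_0_255 : pfC (piC [(nat_lit 37297016), (nat_lit 23751559), (nat_lit 15232604)] (nat_lit 18643303)) p14_19_0 (nat_lit 3) (nat_lit 255) (nat_lit 256) = true := by decide +kernel
def p14_19_0_256 : pfC (piC [(nat_lit 37297016), (nat_lit 23751559), (nat_lit 15232604)] (nat_lit 18643303)) p14_19_0 (nat_lit 3) (nat_lit 256) (nat_lit 257) = true := by decide +kernel
def p14_19_0_257 : pfC (piC [(nat_lit 37297016), (nat_lit 23751559), (nat_lit 15232604)] (nat_lit 18643303)) p14_19_0 (nat_lit 3) (nat_lit 257) (nat_lit 258) = true := by decide +kernel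
def p14_19_0_258 : pfC (piC [(nat_lit 37297016), (nat_lit 23751559), (nat_lit 15232604)] (nat_lit 18643303)) p14_19_0 (nat_lit 3) (nat_lit 258) (nat_lit 259) = true := by decide +kernel
def p14_19_0_259 : pfC (piC [(nat_lit 37297016), (nat_lit 23751559), (nat_lit 15232604)] (nat_lit 18643303)) p14_19_0 (nat_lit 3) (nat_lit 259) (nat_lit 260) = true := by decide +kernel
def p14_19_0_260 : pfC (piC [(nat_lit 37297016), (nat_lit 23751559), (nat_lit 15232604)] (nat_lit 18643303)) p14_19_0 (nat_lit 3) (nat_lit 260) (nat_lit 261) = true := by decide +kernel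
def p14_19_0_261 : pfC (piC [(nat_lit 37297016), (nat_lit 23751559), (nat_lit 15232604)] (nat_lit 18643303)) p14_19_0 (nat_lit 3) (nat_lit 261) (nat_lit 262) = true := by decide +kernel
def p14_19_0_262 : pfC (piC [(nat_lit 37297016), (nat_lit 23751559), (nat_lit 15232604)] (nat_lit 18643303)) p14_19_0 (nat_lit 3) (nat_lit 262) (nat_lit 263) = true := by decide +kernel
def p14_19_0_263 : pfC (piC [(nat_lit 37297016), (nat_lit 23751559), (nat_lit 15232604)] (nat_lit 18643303)) p14_19_0 (nat_lit 3) (nat_lit 263) (nat_lit 264) = true := by decide +kernel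
def p14_19_0_264 : pfC (piC [(nat_lit 37297016), (nat_lit 23751559), (nat_lit 15232604)] (nat_lit 18643303)) p14_19_0 (nat_lit 3) (nat_lit 264) (nat_lit 265) = true := by decide +kernel
def p14_19_0_265 : pfC (piC [(nat_lit 37297016), (nat_lit 23751559), (nat_lit 15232604)] (nat_lit 18643303)) p14_19_0 (nat_lit 3) (nat_lit 265) (nat_lit 266) = true := by decide +kernel
def p14_19_0_266 : pfC (piC [(nat_lit 37297016), (nat_lit 23751559), (nat_lit 15232604)] (nat_lit 18643303)) p14_19_0 (nat_lit 3) (nat_lit 266) (nat_lit 267) = true := by decide +kernel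
def p14_19_0_267 : pfC (piC [(nat_lit 37297016), (nat_lit 23751559), (nat_lit 15232604)] (nat_lit 18643303)) p14_19_0 (nat_lit 3) (nat_lit 267) (nat_lit 268) = true := by decide +kernel
def p14_19_0_268 : pfC (piC [(nat_lit 37297016), (nat_lit 23751559), (nat_lit 15232604)] (nat_lit 18643303)) p14_19_0 (nat_lit 3) (nat_lit 268) (nat_lit 269) = true := by decide +kernel
def p14_19_0_269 : pfC (piC [(nat_lit 37297016), (nat_lit 23751559), (nat_lit 15232604)] (nat_lit 18643303)) p14_19_0 (nat_lit 3) (nat_lit 269) (nat_lit 270) = true := by decide +kernel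
def p14_19_0_270 : pfC (piC [(nat_lit 37297016), (nat_lit 23751559), (nat_lit 15232604)] (nat_lit 18643303)) p14_19_0 (nat_lit 3) (nat_lit 270) (nat_lit 271) = true := by decide +kernel
def p14_19_0_271 : pfC (piC [(nat_lit 37297016), (nat_lit 23751559), (nat_lit 15232604)] (nat_lit 18643303)) p14_19_0 (nat_lit 3) (nat_lit 271) (nat_lit 272) = true := by decide +kernel
def p14_19_0_272 : pfC (piC [(nat_lit 37297016), (nat_lit 23751559), (nat_lit 15232604)] (nat_lit 18643303)) p14_19_0 (nat_lit 3) (nat_lit 272) (nat_lit 273) = true := by decide +kernel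
def p14_19_0_273 : pfC (piC [(nat_lit 37297016), (nat_lit 23751559), (nat_lit 15232604)] (nat_lit 18643303)) p14_19_0 (nat_lit 3) (nat_lit 273) (nat_lit 274) = true := by decide +kernel
def p14_19_0_274 : pfC (piC [(nat_lit 37297016), (nat_lit 23751559), (nat_lit 15232604)] (nat_lit 18643303)) p14_19_0 (nat_lit 3) (nat_lit 274) (nat_lit 275) = true := by decide +kernel
def p14_19_0_275 : pfC (piC [(nat_lit 37297016), (nat_lit 23751559), (nat_lit 15232604)] (nat_lit 18643303)) p14_19_0 (nat_lit 3) (nat_lit 275) (nat_lit 276) = true := by decide +kernel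
def p14_19_0_276 : pfC (piC [(nat_lit 37297016), (nat_lit 23751559), (nat_lit 15232604)] (nat_lit 18643303)) p14_19_0 (nat_lit 3) (nat_lit 276) (nat_lit 277) = true := by decide +kernel
def p14_19_0_277 : pfC (piC [(nat_lit 37297016), (nat_lit 23751559), (nat_lit 15232604)] (nat_lit 18643303)) p14_19_0 (nat_lit 3) (nat_lit 277) (nat_lit 278) = true := by decide +kernel
def p14_19_0_278 : pfC (piC [(nat_lit 37297016), (nat_lit 23751559), (nat_lit 15232604)] (nat_lit 18643303)) p14_19_0 (nat_lit 3) (nat_lit 278) (nat_lit 279) = true := by decide +kernel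
def p14_19_0_279 : pfC (piC [(nat_lit 37297016), (nat_lit 23751559), (nat_lit 15232604)] (nat_lit 18643303)) p14_19_0 (nat_lit 3) (nat_lit 279) (nat_lit 280) = true := by decide +kernel
def p14_19_0_280 : pfC (piC [(nat_lit 37297016), (nat_lit 23751559), (nat_lit 15232604)] (nat_lit 18643303)) p14_19_0 (nat_lit 3) (nat_lit 280) (nat_lit 281) = true := by decide +kernel
def p14_19_0_281 : pfC (piC [(nat_lit 37297016), (nat_lit 23751559), (nat_lit 15232604)] (nat_lit 18643303)) p14_19_0 (nat_lit 3) (nat_lit 281) (nat_lit 282) = true := by decide +kernel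
def p14_19_0_282 : pfC (piC [(nat_lit 37297016), (nat_lit 23751559), (nat_lit 15232604)] (nat_lit 18643303)) p14_19_0 (nat_lit 3) (nat_lit 282) (nat_lit 283) = true := by decide +kernel
def p14_19_0_283 : pfC (piC [(nat_lit 37297016), (nat_lit 23751559), (nat_lit 15232604)] (nat_lit 18643303)) p14_19_0 (nat_lit 3) (nat_lit 283) (nat_lit 284) = true := by decide +kernel
theorem p14_19_0_T : PfS (PiF n14_19.reverse (nat_lit 18643303)) p14_19_0 (nat_lit 3) [] 0 :=
  pftab_of (los := [(nat_lit 37297016), (nat_lit 23751559), (nat_lit 15232604)]) (by decide +kernel) (hi := (nat_lit 284)) (PfP.trans (PfP.trans (PfP.trans (PfP.trans (PfP.trans (PfP.trans (PfP.trans (PfP.trans (PfP.trans (PfP.trans (PfP.trans (PfP.trans (PfP.trans (PfP.trans (PfP.trans (PfP.trans (PfP.trans (PfP.trans (PfP.trans (PfP.trans (PfP.trans (PfP.trans (PfP.trans (PfP.trans (PfP.trans (PfP.trans (PfP.trans (PfP.trans (PfP.trans (PfP.trans (PfP.trans (PfP.trans (PfP.trans (PfP.trans (PfP.trans (PfP.trans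 (PfP.trans (PfP.trans (PfP.trans (PfP.trans (PfP.trans (PfP.trans (PfP.trans (PfP.trans (PfP.trans (PfP.trans (PfP.trans (PfP.trans (PfP.trans (PfP.trans (PfP.trans (PfP.trans (PfP.trans (PfP.trans (PfP.trans (PfP.trans (PfP.trans (PfP.trans (PfP.trans (PfP.trans (PfP.trans (PfP.trans (PfP.trans (PfP.trans (PfP.trans (PfP.trans (PfP.trans (PfP.trans (PfP.trans (PfP.trans (PfP.trans (PfP.trans (PfP.trans (PfP.trans (PfP.trans (PfP.trans (PfP.trans (PfP.trans (PfP.trans (PfP.trans (PfP.trans (PfP.trans (PfP.trans (PfP.trans (PfP.trans (PfP.trans (PfP.trans (PfP.trans (PfP.trans (PfP.trans (PfP.trans (PfP.trans (PfP.trans (PfP.trans (PfP.trans (PfP.trans (PfP.trans (PfP.trans (PfP.trans (PfP.trans (PfP.trans (PfP.trans (PfP.trans (PfP.trans (PfP.trans (PfP.trans (PfP.trans (PfP.trans (PfP.trans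
 (PfP.trans (PfP.trans (PfP.trans (PfP.trans (PfP.trans (PfP.trans (PfP.trans (PfP.trans (PfP.trans (PfP.trans (PfP.trans (PfP.trans (PfP.trans (PfP.trans (PfP.trans (PfP.trans (PfP.trans (PfP.trans (PfP.trans (PfP.trans (PfP.trans (PfP.trans (PfP.trans (PfP.trans (PfP.trans (PfP.trans (PfP.trans (PfP.trans (PfP.trans (PfP.trans (PfP.trans (PfP.trans (PfP.trans (PfP.trans (PfP.trans (PfP.trans (PfP.trans (PfP.trans (PfP.trans (PfP.trans (PfP.trans (PfP.trans (PfP.trans (PfP.trans (PfP.trans (PfP.trans (PfP.trans (PfP.trans (PfP.trans (PfP.trans (PfP.trans (PfP.trans (PfP.trans (PfP.trans (PfP.trans (PfP.trans (PfP.trans (PfP.trans (PfP.trans (PfP.trans (PfP.trans (PfP.trans (PfP.trans (PfP.trans (PfP.trans (PfP.trans (PfP.trans (PfP.trans (PfP.trans (PfP.trans (PfP.trans (PfP.trans (PfP.trans (PfP.trans (PfP.trans (PfP.trans (PfP.trans (PfP.trans (PfP.trans (PfP.trans (PfP.trans (PfP.trans (PfP.trans (PfP.trans (PfP.trans (PfP.trans (PfP.trans (PfP.trans (PfP.trans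 (PfP.trans (PfP.trans (PfP.trans (PfP.trans (PfP.trans (PfP.trans (PfP.trans (PfP.trans (PfP.trans (PfP.trans (PfP.trans (PfP.trans (PfP.trans (PfP.trans (PfP.trans (PfP.trans (PfP.trans (PfP.trans (PfP.trans (PfP.trans
 (PfP.trans (PfP.trans (PfP.trans (PfP.trans (PfP.trans (PfP.trans (PfP.trans (PfP.trans (PfP.trans (PfP.trans (PfP.trans (PfP.trans (PfP.trans (PfP.trans (PfP.trans (PfP.trans (PfP.trans (PfP.trans (PfP.trans (PfP.trans (PfP.trans (PfP.trans (PfP.trans (PfP.trans (PfP.trans (PfP.trans (PfP.trans (PfP.trans (PfP.trans (PfP.trans (PfP.trans (PfP.trans (PfP.trans (PfP.trans (PfP.trans (PfP.trans (PfP.trans (PfP.trans (PfP.trans (PfP.trans (PfP.trans (PfP.trans (PfP.trans (PfP.trans (PfP.trans (PfP.trans (PfP.trans (PfP.trans (PfP.trans (PfP.trans (PfP.trans (PfP.trans (PfP.trans (PfP.trans (PfP.trans (PfP.trans (PfP.trans (PfP.trans (PfP.trans (PfP.trans (PfP.trans (PfP.trans (PfP.trans (PfP.trans (PfP.trans (pfC_sound p14_19_0_0) (pfC_sound p14_19_0_1))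 (pfC_sound p14_19_0_2)) (pfC_sound p14_19_0_3)) (pfC_sound p14_19_0_4)) (pfC_sound p14_19_0_5)) (pfC_sound p14_19_0_6)) (pfC_sound p14_19_0_7)) (pfC_sound p14_19_0_8)) (pfC_sound p14_19_0_9)) (pfC_sound p14_19_0_10)) (pfC_sound p14_19_0_11)) (pfC_sound p14_19_0_12)) (pfC_sound p14_19_0_13)) (pfC_sound p14_19_0_14)) (pfC_sound p14_19_0_15)) (pfC_sound p14_19_0_16)) (pfC_sound p14_19_0_17)) (pfC_sound p14_19_0_18)) (pfC_sound
 p14_19_0_19)) (pfC_sound p14_19_0_20)) (pfC_sound p14_19_0_21)) (pfC_sound p14_19_0_22)) (pfC_sound p14_19_0_23)) (pfC_sound p14_19_0_24)) (pfC_sound p14_19_0_25)) (pfC_sound p14_19_0_26)) (pfC_sound p14_19_0_27)) (pfC_sound p14_19_0_28)) (pfC_sound p14_19_0_29)) (pfC_sound p14_19_0_30)) (pfC_sound p14_19_0_31)) (pfC_sound p14_19_0_32)) (pfC_sound p14_19_0_33)) (pfC_sound p14_19_0_34)) (pfC_sound p14_19_0_35)) (pfC_sound p14_19_0_36)) (pfC_sound p14_19_0_37)) (pfC_sound p14_19_0_38)) (pfC_sound p14_19_0_39)) (pfC_sound p14_19_0_40)) (pfC_sound p14_19_0_41))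 (pfC_sound p14_19_0_42)) (pfC_sound p14_19_0_43)) (pfC_sound p14_19_0_44)) (pfC_sound p14_19_0_45)) (pfC_sound p14_19_0_46)) (pfC_sound p14_19_0_47)) (pfC_sound p14_19_0_48)) (pfC_sound p14_19_0_49)) (pfC_sound p14_19_0_50)) (pfC_sound p14_19_0_51)) (pfC_sound p14_19_0_52)) (pfC_sound p14_19_0_53)) (pfC_sound p14_19_0_54)) (pfC_sound p14_19_0_55)) (pfC_sound p14_19_0_56)) (pfC_sound p14_19_0_57)) (pfC_sound p14_19_0_58)) (pfC_sound p14_19_0_59)) (pfC_sound p14_19_0_60)) (pfC_sound p14_19_0_61)) (pfC_sound p14_19_0_62)) (pfC_sound p14_19_0_63)) (pfC_sound p14_19_0_64)) (pfC_sound p14_19_0_65)) (pfC_sound p14_19_0_66)) (pfC_sound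
 p14_19_0_67)) (pfC_sound p14_19_0_68)) (pfC_sound p14_19_0_69)) (pfC_sound p14_19_0_70)) (pfC_sound p14_19_0_71)) (pfC_sound p14_19_0_72)) (pfC_sound p14_19_0_73)) (pfC_sound p14_19_0_74)) (pfC_sound p14_19_0_75)) (pfC_sound p14_19_0_76)) (pfC_sound p14_19_0_77)) (pfC_sound p14_19_0_78)) (pfC_sound p14_19_0_79)) (pfC_sound p14_19_0_80)) (pfC_sound p14_19_0_81)) (pfC_sound p14_19_0_82)) (pfC_sound p14_19_0_83)) (pfC_sound p14_19_0_84)) (pfC_sound p14_19_0_85)) (pfC_sound p14_19_0_86)) (pfC_sound p14_19_0_87)) (pfC_sound p14_19_0_88)) (pfC_sound p14_19_0_89)) (pfC_sound p14_19_0_90)) (pfC_sound p14_19_0_91)) (pfC_sound p14_19_0_92)) (pfC_sound p14_19_0_93)) (pfC_sound p14_19_0_94)) (pfC_sound p14_19_0_95)) (pfC_sound p14_19_0_96)) (pfC_sound p14_19_0_97)) (pfC_sound p14_19_0_98)) (pfC_sound p14_19_0_99)) (pfC_sound p14_19_0_100)) (pfC_sound p14_19_0_101)) (pfC_sound p14_19_0_102)) (pfC_sound p14_19_0_103)) (pfC_sound p14_19_0_104)) (pfC_sound p14_19_0_105)) (pfC_sound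 p14_19_0_106)) (pfC_sound p14_19_0_107)) (pfC_sound p14_19_0_108)) (pfC_sound p14_19_0_109)) (pfC_sound p14_19_0_110)) (pfC_sound p14_19_0_111)) (pfC_sound p14_19_0_112)) (pfC_sound p14_19_0_113)) (pfC_sound
 p14_19_0_114)) (pfC_sound p14_19_0_115)) (pfC_sound p14_19_0_116)) (pfC_sound p14_19_0_117)) (pfC_sound p14_19_0_118)) (pfC_sound p14_19_0_119)) (pfC_sound p14_19_0_120)) (pfC_sound p14_19_0_121)) (pfC_sound p14_19_0_122)) (pfC_sound p14_19_0_123)) (pfC_sound p14_19_0_124)) (pfC_sound p14_19_0_125)) (pfC_sound p14_19_0_126)) (pfC_sound p14_19_0_127)) (pfC_sound p14_19_0_128)) (pfC_sound p14_19_0_129)) (pfC_sound p14_19_0_130)) (pfC_sound p14_19_0_131)) (pfC_sound p14_19_0_132)) (pfC_sound p14_19_0_133)) (pfC_sound p14_19_0_134)) (pfC_sound p14_19_0_135)) (pfC_sound p14_19_0_136)) (pfC_sound p14_19_0_137)) (pfC_sound p14_19_0_138)) (pfC_sound p14_19_0_139)) (pfC_sound p14_19_0_140)) (pfC_sound p14_19_0_141)) (pfC_sound p14_19_0_142)) (pfC_sound p14_19_0_143)) (pfC_sound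 p14_19_0_144)) (pfC_sound p14_19_0_145)) (pfC_sound p14_19_0_146)) (pfC_sound p14_19_0_147)) (pfC_sound p14_19_0_148)) (pfC_sound p14_19_0_149)) (pfC_sound p14_19_0_150)) (pfC_sound p14_19_0_151)) (pfC_sound p14_19_0_152)) (pfC_sound p14_19_0_153)) (pfC_sound p14_19_0_154)) (pfC_sound p14_19_0_155)) (pfC_sound p14_19_0_156)) (pfC_sound p14_19_0_157)) (pfC_sound p14_19_0_158)) (pfC_sound p14_19_0_159)) (pfC_sound
 p14_19_0_160)) (pfC_sound p14_19_0_161)) (pfC_sound p14_19_0_162)) (pfC_sound p14_19_0_163)) (pfC_sound p14_19_0_164)) (pfC_sound p14_19_0_165)) (pfC_sound p14_19_0_166)) (pfC_sound p14_19_0_167)) (pfC_sound p14_19_0_168)) (pfC_sound p14_19_0_169)) (pfC_sound p14_19_0_170)) (pfC_sound p14_19_0_171)) (pfC_sound p14_19_0_172)) (pfC_sound p14_19_0_173)) (pfC_sound p14_19_0_174)) (pfC_sound p14_19_0_175)) (pfC_sound p14_19_0_176)) (pfC_sound p14_19_0_177)) (pfC_sound p14_19_0_178)) (pfC_sound p14_19_0_179)) (pfC_sound p14_19_0_180)) (pfC_sound p14_19_0_181)) (pfC_sound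 p14_19_0_182)) (pfC_sound p14_19_0_183)) (pfC_sound p14_19_0_184)) (pfC_sound p14_19_0_185)) (pfC_sound p14_19_0_186)) (pfC_sound p14_19_0_187)) (pfC_sound p14_19_0_188)) (pfC_sound p14_19_0_189)) (pfC_sound p14_19_0_190)) (pfC_sound p14_19_0_191)) (pfC_sound p14_19_0_192)) (pfC_sound p14_19_0_193)) (pfC_sound p14_19_0_194)) (pfC_sound p14_19_0_195)) (pfC_sound p14_19_0_196)) (pfC_sound p14_19_0_197)) (pfC_sound p14_19_0_198)) (pfC_sound p14_19_0_199)) (pfC_sound p14_19_0_200)) (pfC_sound p14_19_0_201)) (pfC_sound p14_19_0_202)) (pfC_sound p14_19_0_203)) (pfC_sound p14_19_0_204)) (pfC_sound p14_19_0_205)) (pfC_sound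
 p14_19_0_206)) (pfC_sound p14_19_0_207)) (pfC_sound p14_19_0_208)) (pfC_sound p14_19_0_209)) (pfC_sound p14_19_0_210)) (pfC_sound p14_19_0_211)) (pfC_sound p14_19_0_212)) (pfC_sound p14_19_0_213)) (pfC_sound p14_19_0_214)) (pfC_sound p14_19_0_215)) (pfC_sound p14_19_0_216)) (pfC_sound p14_19_0_217)) (pfC_sound p14_19_0_218)) (pfC_sound p14_19_0_219)) (pfC_sound p14_19_0_220)) (pfC_sound p14_19_0_221)) (pfC_sound p14_19_0_222)) (pfC_sound p14_19_0_223)) (pfC_sound p14_19_0_224)) (pfC_sound p14_19_0_225)) (pfC_sound p14_19_0_226)) (pfC_sound p14_19_0_227)) (pfC_sound p14_19_0_228)) (pfC_sound p14_19_0_229)) (pfC_sound p14_19_0_230)) (pfC_sound p14_19_0_231)) (pfC_sound p14_19_0_232)) (pfC_sound p14_19_0_233)) (pfC_sound p14_19_0_234)) (pfC_sound p14_19_0_235)) (pfC_sound p14_19_0_236)) (pfC_sound p14_19_0_237)) (pfC_sound p14_19_0_238)) (pfC_sound p14_19_0_239)) (pfC_sound p14_19_0_240)) (pfC_sound p14_19_0_241)) (pfC_sound p14_19_0_242)) (pfC_sound p14_19_0_243)) (pfC_sound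 p14_19_0_244)) (pfC_sound p14_19_0_245)) (pfC_sound p14_19_0_246)) (pfC_sound p14_19_0_247)) (pfC_sound p14_19_0_248)) (pfC_sound p14_19_0_249)) (pfC_sound p14_19_0_250)) (pfC_sound p14_19_0_251)) (pfC_sound
 p14_19_0_252)) (pfC_sound p14_19_0_253)) (pfC_sound p14_19_0_254)) (pfC_sound p14_19_0_255)) (pfC_sound p14_19_0_256)) (pfC_sound p14_19_0_257)) (pfC_sound p14_19_0_258)) (pfC_sound p14_19_0_259)) (pfC_sound p14_19_0_260)) (pfC_sound p14_19_0_261)) (pfC_sound p14_19_0_262)) (pfC_sound p14_19_0_263)) (pfC_sound p14_19_0_264)) (pfC_sound p14_19_0_265)) (pfC_sound p14_19_0_266)) (pfC_sound p14_19_0_267)) (pfC_sound p14_19_0_268)) (pfC_sound p14_19_0_269)) (pfC_sound p14_19_0_270)) (pfC_sound p14_19_0_271)) (pfC_sound p14_19_0_272)) (pfC_sound p14_19_0_273)) (pfC_sound p14_19_0_274)) (pfC_sound p14_19_0_275)) (pfC_sound p14_19_0_276)) (pfC_sound p14_19_0_277)) (pfC_sound p14_19_0_278)) (pfC_sound p14_19_0_279)) (pfC_sound p14_19_0_280)) (pfC_sound p14_19_0_281)) (pfC_sound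 p14_19_0_282)) (pfC_sound p14_19_0_283)) (by decide +kernel)

def z14_19_0 : zOK yB14_19 (nat_lit 0) (nat_lit 0) (nat_lit 400) (nat_lit 18643303) (nat_lit 11270119) = true := by decide +kernel
def g14_19_0 : gOK yB14_19.x P14_19 (nat_lit 1381) (q14_19 :: r14_19) (nat_lit 0) (nat_lit 0) (nat_lit 1) (nat_lit 400) (nat_lit 0) (nat_lit 11000000) (nat_lit 12712500) (nat_lit 12712500) [(nat_lit 800), (nat_lit 1600)] = true := by decide +kernel
def v14_19_0 : ivC P14_19 s14_19 w14_19 n14_19 (nat_lit 3) (nat_lit 5280) (nat_lit 0) (nat_lit 0) f184_0_0 f192_0_0 (nat_lit 1) (nat_lit 400) f184_0_400 f192_0_400 (nat_lit 18643303) (nat_lit 11270119) p14_19_0 = true := by decide +kernel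
def p14_19_1 : PF := (PF.cons (PF.cons (PF.cons (PF.leaf (nat_lit 1997476) (nat_lit 9194479) (nat_lit 57914333) (nat_lit 9194479) [(nat_lit 0), (nat_lit 0), (nat_lit 0)]) (PF.cons (PF.leaf (nat_lit 2203092) (nat_lit 363658) (nat_lit 57515091) (nat_lit 9230062) [(nat_lit 363658), (nat_lit 0), (nat_lit 0)]) (PF.cons (PF.leaf (nat_lit 2445794) (nat_lit 396059) (nat_lit 57048780) (nat_lit 9267912) [(nat_lit 396059), (nat_lit 0), (nat_lit 0)]) (PF.cons (PF.leaf (nat_lit 2718558) (nat_lit 424907) (nat_lit 56528359) (nat_lit 9305730) [(nat_lit 424907), (nat_lit 0), (nat_lit 0)]) (PF.cons (PF.leaf (nat_lit 3017036) (nat_lit 450951) (nat_lit 55963181) (nat_lit 9341825) [(nat_lit 450951), (nat_lit 0), (nat_lit 0)]) (PF.cons (PF.leaf (nat_lit 3337725) (nat_lit 474657) (nat_lit 55360595) (nat_lit 9374932) [(nat_lit 474657), (nat_lit 0), (nat_lit 0)]) (PF.cons (PF.leaf (nat_lit 3677800) (nat_lit 496336) (nat_lit 54726683) (nat_lit 9404107) [(nat_lit 496336), (nat_lit 0), (nat_lit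 0)]) (PF.cons (PF.leaf (nat_lit 4034721) (nat_lit 516214) (nat_lit 54066650) (nat_lit 9428663) [(nat_lit 516214), (nat_lit 0), (nat_lit 0)]) (PF.cons (PF.leaf (nat_lit 4406298) (nat_lit 534456) (nat_lit 53385046) (nat_lit 9448117)
 [(nat_lit 534456), (nat_lit 0), (nat_lit 0)]) (PF.cons (PF.leaf (nat_lit 4790511) (nat_lit 551195) (nat_lit 52685897) (nat_lit 9462154) [(nat_lit 551195), (nat_lit 0), (nat_lit 0)]) (PF.cons (PF.leaf (nat_lit 5185541) (nat_lit 566541) (nat_lit 51972802) (nat_lit 9470598) [(nat_lit 566541), (nat_lit 0), (nat_lit 0)]) (PF.cons (PF.leaf (nat_lit 5589713) (nat_lit 580585) (nat_lit 51248988) (nat_lit 9473386) [(nat_lit 580585), (nat_lit 0), (nat_lit 0)]) (PF.cons (PF.leaf (nat_lit 6001524) (nat_lit 593409) (nat_lit 50517353) (nat_lit 9470541) [(nat_lit 593409), (nat_lit 0), (nat_lit 0)]) (PF.cons (PF.leaf (nat_lit 6419517) (nat_lit 605088) (nat_lit 49780503) (nat_lit 9462164) [(nat_lit 605088), (nat_lit 0), (nat_lit 0)]) (PF.cons (PF.leaf (nat_lit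 6842441) (nat_lit 615687) (nat_lit 49040778) (nat_lit 9448407) [(nat_lit 615687), (nat_lit 0), (nat_lit 0)]) (PF.cons PF.nil (PF.cons PF.nil (PF.cons PF.nil PF.nil)))))))))))))))))) (PF.cons (PF.cons (PF.leaf (nat_lit 2768705) (nat_lit 1934634) (nat_lit 55840926) (nat_lit 9333252) [(nat_lit 0), (nat_lit 1934634), (nat_lit 0)]) (PF.cons (PF.leaf (nat_lit 3036156) (nat_lit 444715) (nat_lit 55324273) (nat_lit 9361222) [(nat_lit 444715), (nat_lit
 1978601), (nat_lit 0)]) (PF.cons (PF.leaf (nat_lit 3331037) (nat_lit 469319) (nat_lit 54761269) (nat_lit 9387352) [(nat_lit 469319), (nat_lit 2021553), (nat_lit 0)]) (PF.cons (PF.leaf (nat_lit 3648499) (nat_lit 491549) (nat_lit 54161049) (nat_lit 9410457) [(nat_lit 491549), (nat_lit 2062657), (nat_lit 0)]) (PF.cons (PF.leaf (nat_lit 3985212) (nat_lit 511771) (nat_lit 53530577) (nat_lit 9429701) [(nat_lit 511771), (nat_lit 2101447), (nat_lit 0)]) (PF.cons (PF.leaf (nat_lit 4338432) (nat_lit 530233) (nat_lit 52875485) (nat_lit 9444496)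 [(nat_lit 530233), (nat_lit 2137666), (nat_lit 0)]) (PF.cons (PF.leaf (nat_lit 4705821) (nat_lit 547112) (nat_lit 52200507) (nat_lit 9454450) [(nat_lit 547112), (nat_lit 2171182), (nat_lit 0)]) (PF.cons (PF.leaf (nat_lit 5085325) (nat_lit 562546) (nat_lit 51509717) (nat_lit 9459322) [(nat_lit 562546), (nat_lit 2201944), (nat_lit 0)]) (PF.cons (PF.leaf (nat_lit 5475105) (nat_lit 576648) (nat_lit 50806674) (nat_lit 9458995) [(nat_lit 576648), (nat_lit 2229956), (nat_lit 0)]) (PF.cons (PF.leaf (nat_lit 5873477) (nat_lit 589510) (nat_lit 50094513) (nat_lit 9453448) [(nat_lit 589510), (nat_lit 2255256), (nat_lit 0)]) (PF.cons (PF.leaf (nat_lit 6279000)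
 (nat_lit 601214) (nat_lit 49376017) (nat_lit 9442736) [(nat_lit 601214), (nat_lit 2277910), (nat_lit 0)]) (PF.cons (PF.leaf (nat_lit 6690252) (nat_lit 611834) (nat_lit 48653655) (nat_lit 9426979) [(nat_lit 611834), (nat_lit 2298001), (nat_lit 0)]) (PF.cons (PF.leaf (nat_lit 7106000) (nat_lit 621435) (nat_lit 47929622) (nat_lit 9406340) [(nat_lit 621435), (nat_lit 2315625), (nat_lit 0)]) (PF.cons PF.nil (PF.cons PF.nil (PF.cons PF.nil PF.nil)))))))))))))))) (PF.cons (PF.cons (PF.leaf (nat_lit 3645501) (nat_lit 2075134) (nat_lit 53543724) (nat_lit 9414820) [(nat_lit 0), (nat_lit 2075134), (nat_lit 0)]) (PF.cons (PF.leaf (nat_lit 3956533) (nat_lit 505445) (nat_lit 52954205) (nat_lit 9428725) [(nat_lit 505445), (nat_lit 2110218), (nat_lit 0)]) (PF.cons (PF.leaf (nat_lit 4287834) (nat_lit 524552) (nat_lit 52333772) (nat_lit 9438924) [(nat_lit 524552), (nat_lit 2143505), (nat_lit 0)]) (PF.cons (PF.leaf (nat_lit 4635782) (nat_lit 541868) (nat_lit 51689013) (nat_lit 9444900)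 [(nat_lit 541868), (nat_lit 2174646), (nat_lit 0)]) (PF.cons (PF.leaf (nat_lit 4997773) (nat_lit 557608) (nat_lit 51025148) (nat_lit 9446326) [(nat_lit 557608), (nat_lit 2203452), (nat_lit 0)]) (PF.cons (PF.leaf
 (nat_lit 5371607) (nat_lit 571928) (nat_lit 50346484) (nat_lit 9443017) [(nat_lit 571928), (nat_lit 2229833), (nat_lit 0)]) (PF.cons (PF.leaf (nat_lit 5755393) (nat_lit 584952) (nat_lit 49656669) (nat_lit 9434897) [(nat_lit 584952), (nat_lit 2253764), (nat_lit 0)]) (PF.cons (PF.leaf (nat_lit 6147424) (nat_lit 596781) (nat_lit 48958841) (nat_lit 9421978) [(nat_lit 596781), (nat_lit 2275261), (nat_lit 0)]) (PF.cons (PF.leaf (nat_lit 6546226) (nat_lit 607499) (nat_lit 48255731) (nat_lit 9404339) [(nat_lit 607499), (nat_lit 2294373), (nat_lit 0)]) (PF.cons (PF.leaf (nat_lit 6950442) (nat_lit 617182) (nat_lit 47549729) (nat_lit 9382109) [(nat_lit 617182), (nat_lit 2311167), (nat_lit 0)]) (PF.cons (PF.leaf (nat_lit 7358852) (nat_lit 625897) (nat_lit 46842930) (nat_lit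 9355458) [(nat_lit 625897), (nat_lit 2325725), (nat_lit 0)]) (PF.cons PF.nil (PF.cons PF.nil (PF.cons PF.nil PF.nil)))))))))))))) (PF.cons (PF.cons (PF.leaf (nat_lit 4587198) (nat_lit 2178636) (nat_lit 51139737) (nat_lit 9433165) [(nat_lit 0), (nat_lit 2178636), (nat_lit 0)]) (PF.cons (PF.leaf (nat_lit 4927759) (nat_lit 551307) (nat_lit 50510545) (nat_lit 9431303) [(nat_lit 551307), (nat_lit 2205218), (nat_lit 0)])
 (PF.cons (PF.leaf (nat_lit 5283014) (nat_lit 566123) (nat_lit 49861979) (nat_lit 9425178) [(nat_lit 566123), (nat_lit 2229802), (nat_lit 0)]) (PF.cons (PF.leaf (nat_lit 5650176) (nat_lit 579510) (nat_lit 49198854) (nat_lit 9414650) [(nat_lit 579510), (nat_lit 2252258), (nat_lit 0)]) (PF.cons (PF.leaf (nat_lit 6027202) (nat_lit 591614) (nat_lit 48525074) (nat_lit 9399679) [(nat_lit 591614), (nat_lit 2272533), (nat_lit 0)]) (PF.cons (PF.leaf (nat_lit 6412319) (nat_lit 602547) (nat_lit 47843894) (nat_lit 9380302) [(nat_lit 602547), (nat_lit 2290626), (nat_lit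 0)]) (PF.cons (PF.leaf (nat_lit 6803993) (nat_lit 612404) (nat_lit 47158073) (nat_lit 9356615) [(nat_lit 612404), (nat_lit 2306566), (nat_lit 0)]) (PF.cons (PF.leaf (nat_lit 7200873) (nat_lit 621263) (nat_lit 46469982) (nat_lit 9328755) [(nat_lit 621263), (nat_lit 2320410), (nat_lit 0)]) (PF.cons (PF.leaf (nat_lit 7601762) (nat_lit 629196) (nat_lit 45781666) (nat_lit 9296895) [(nat_lit 629196), (nat_lit 2332227), (nat_lit 0)]) (PF.cons (PF.leaf (nat_lit 8005580) (nat_lit 636265) (nat_lit 45094900) (nat_lit 9261232) [(nat_lit 636265), (nat_lit 2342098), (nat_lit 0)]) (PF.cons PF.nil (PF.cons PF.nil PF.nil)))))))))))) (PF.cons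
 (PF.cons (PF.leaf (nat_lit 5562850) (nat_lit 2250882) (nat_lit 48712971) (nat_lit 9392309) [(nat_lit 0), (nat_lit 2250882), (nat_lit 0)]) (PF.cons (PF.leaf (nat_lit 5921940) (nat_lit 585426) (nat_lit 48068631) (nat_lit 9375504) [(nat_lit 585426), (nat_lit 2269812), (nat_lit 0)]) (PF.cons (PF.leaf (nat_lit 6291370) (nat_lit 596763) (nat_lit 47413460) (nat_lit 9354585) [(nat_lit 596763), (nat_lit 2286809), (nat_lit 0)]) (PF.cons (PF.leaf (nat_lit 6668965) (nat_lit 606935) (nat_lit 46750985) (nat_lit 9329614) [(nat_lit 606935), (nat_lit 2301851), (nat_lit 0)]) (PF.cons (PF.leaf (nat_lit 7053094) (nat_lit 616049) (nat_lit 46084098) (nat_lit 9300701) [(nat_lit 616049), (nat_lit 2314953), (nat_lit 0)]) (PF.cons (PF.leaf (nat_lit 7442358) (nat_lit 624192) (nat_lit 45415222) (nat_lit 9267993) [(nat_lit 624192), (nat_lit 2326158), (nat_lit 0)]) (PF.cons (PF.leaf (nat_lit 7835538) (nat_lit 631439) (nat_lit 44746405) (nat_lit 9231663) [(nat_lit 631439), (nat_lit 2335526), (nat_lit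 0)]) (PF.cons (PF.leaf (nat_lit 8231558) (nat_lit 637857) (nat_lit 44079398) (nat_lit 9191903) [(nat_lit 637857), (nat_lit 2343126), (nat_lit 0)]) (PF.cons PF.nil (PF.cons PF.nil PF.nil)))))))))) (PF.cons (PF.cons
 (PF.leaf (nat_lit 6549105) (nat_lit 2297071) (nat_lit 46322730) (nat_lit 9300727) [(nat_lit 0), (nat_lit 2297071), (nat_lit 0)]) (PF.cons (PF.leaf (nat_lit 6918243) (nat_lit 610050) (nat_lit 45680875) (nat_lit 9270981) [(nat_lit 610050), (nat_lit 2309380), (nat_lit 0)]) (PF.cons (PF.leaf (nat_lit 7294346) (nat_lit 618537) (nat_lit 45034395) (nat_lit 9237614) [(nat_lit 618537), (nat_lit 2319945), (nat_lit 0)]) (PF.cons (PF.leaf (nat_lit 7675673) (nat_lit 626067) (nat_lit 44385858) (nat_lit 9200782) [(nat_lit 626067), (nat_lit 2328793), (nat_lit 0)]) (PF.cons (PF.leaf (nat_lit 8060954) (nat_lit 632722) (nat_lit 43737384) (nat_lit 9160662) [(nat_lit 632722), (nat_lit 2335975), (nat_lit 0)]) (PF.cons (PF.leaf (nat_lit 8449079) (nat_lit 638573) (nat_lit 43090744)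 (nat_lit 9117443) [(nat_lit 638573), (nat_lit 2341551), (nat_lit 0)]) (PF.cons PF.nil (PF.cons PF.nil PF.nil)))))))) (PF.cons (PF.cons (PF.leaf (nat_lit 7528848) (nat_lit 2321905) (nat_lit 44009126) (nat_lit 9168252) [(nat_lit 0), (nat_lit 2321905), (nat_lit 0)]) (PF.cons (PF.leaf (nat_lit 7901632) (nat_lit 626971) (nat_lit 43381950) (nat_lit 9127972) [(nat_lit 626971), (nat_lit 2328653), (nat_lit 0)]) (PF.cons (PF.leaf
 (nat_lit 8278774) (nat_lit 633123) (nat_lit 42754545) (nat_lit 9084689) [(nat_lit 633123), (nat_lit 2333888), (nat_lit 0)]) (PF.cons (PF.leaf (nat_lit 8658885) (nat_lit 638488) (nat_lit 42128765) (nat_lit 9038595) [(nat_lit 638488), (nat_lit 2337664), (nat_lit 0)]) (PF.cons PF.nil (PF.cons PF.nil PF.nil)))))) (PF.cons (PF.cons (PF.leaf (nat_lit 8490017) (nat_lit 2329544) (nat_lit 41797561) (nat_lit 9004443) [(nat_lit 0), (nat_lit 2329544), (nat_lit 0)]) (PF.cons (PF.leaf (nat_lit 8861719) (nat_lit 637669) (nat_lit 41193068) (nat_lit 8956011) [(nat_lit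 637669), (nat_lit 2331723), (nat_lit 0)]) (PF.cons (PF.leaf (nat_lit 9235809) (nat_lit 641917) (nat_lit 40591368) (nat_lit 8905204) [(nat_lit 641917), (nat_lit 2332629), (nat_lit 0)]) (PF.cons PF.nil PF.nil)))) (PF.cons (PF.cons (PF.leaf (nat_lit 9424503) (nat_lit 2323564) (nat_lit 39702485) (nat_lit 8817812) [(nat_lit 0), (nat_lit 2323564), (nat_lit 0)]) (PF.cons PF.nil PF.nil)) (PF.cons PF.nil (PF.cons PF.nil PF.nil))))))))))) (PF.cons (PF.cons (PF.cons (PF.leaf (nat_lit 3770901) (nat_lit 6500585) (nat_lit 51277378) (nat_lit 9330848) [(nat_lit 0), (nat_lit 0), (nat_lit 6500585)]) (PF.cons (PF.leaf (nat_lit 4046137) (nat_lit 480143)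
 (nat_lit 50774055) (nat_lit 9334421) [(nat_lit 480143), (nat_lit 0), (nat_lit 6520192)]) (PF.cons (PF.leaf (nat_lit 4346194) (nat_lit 502188) (nat_lit 50231151) (nat_lit 9335102) [(nat_lit 502188), (nat_lit 0), (nat_lit 6538182)]) (PF.cons (PF.leaf (nat_lit 4665988) (nat_lit 521583) (nat_lit 49657861) (nat_lit 9332381) [(nat_lit 521583), (nat_lit 0), (nat_lit 6553820)]) (PF.cons (PF.leaf (nat_lit 5002103) (nat_lit 538822) (nat_lit 49060971) (nat_lit 9325926) [(nat_lit 538822), (nat_lit 0), (nat_lit 6566623)]) (PF.cons (PF.leaf (nat_lit 5351832) (nat_lit 554239) (nat_lit 48445789) (nat_lit 9315540) [(nat_lit 554239), (nat_lit 0), (nat_lit 6576285)]) (PF.cons (PF.leaf (nat_lit 5712930) (nat_lit 568073) (nat_lit 47816622) (nat_lit 9301123) [(nat_lit 568073), (nat_lit 0), (nat_lit 6582625)]) (PF.cons (PF.leaf (nat_lit 6083479) (nat_lit 580505) (nat_lit 47177059) (nat_lit 9282658) [(nat_lit 580505), (nat_lit 0), (nat_lit 6585556)]) (PF.cons (PF.leaf (nat_lit 6461858) (nat_lit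 591677) (nat_lit 46530139) (nat_lit 9260189) [(nat_lit 591677), (nat_lit 0), (nat_lit 6585060)]) (PF.cons (PF.leaf (nat_lit 6846593) (nat_lit 601706) (nat_lit 45878468) (nat_lit 9233808) [(nat_lit 601706),
 (nat_lit 0), (nat_lit 6581176)]) (PF.cons (PF.leaf (nat_lit 7236398) (nat_lit 610689) (nat_lit 45224292) (nat_lit 9203646) [(nat_lit 610689), (nat_lit 0), (nat_lit 6573980)]) (PF.cons (PF.leaf (nat_lit 7630122) (nat_lit 618709) (nat_lit 44569563) (nat_lit 9169861) [(nat_lit 618709), (nat_lit 0), (nat_lit 6563579)]) (PF.cons PF.nil (PF.cons PF.nil PF.nil)))))))))))))) (PF.cons (PF.cons (PF.leaf (nat_lit 4637536) (nat_lit 2149398) (nat_lit 49094489) (nat_lit 9313793) [(nat_lit 0), (nat_lit 2149398), (nat_lit 6551131)]) (PF.cons (PF.leaf (nat_lit 4948398) (nat_lit 529925) (nat_lit 48538888) (nat_lit 9305050) [(nat_lit 529925), (nat_lit 2174243), (nat_lit 6560705)]) (PF.cons (PF.leaf (nat_lit 5276923) (nat_lit 546376) (nat_lit 47958377) (nat_lit 9292701) [(nat_lit 546376),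 (nat_lit 2197307), (nat_lit 6567674)]) (PF.cons (PF.leaf (nat_lit 5619548) (nat_lit 560964) (nat_lit 47359157) (nat_lit 9276610) [(nat_lit 560964), (nat_lit 2218399), (nat_lit 6571752)]) (PF.cons (PF.leaf (nat_lit 5973739) (nat_lit 573965) (nat_lit 46745998) (nat_lit 9256731) [(nat_lit 573965), (nat_lit 2237440), (nat_lit 6572778)]) (PF.cons (PF.leaf (nat_lit 6337444) (nat_lit 585582) (nat_lit 46122727) (nat_lit
 9233079) [(nat_lit 585582), (nat_lit 2254415), (nat_lit 6570680)]) (PF.cons (PF.leaf (nat_lit 6708906) (nat_lit 595965) (nat_lit 45492491) (nat_lit 9205725) [(nat_lit 595965), (nat_lit 2269351), (nat_lit 6565450)]) (PF.cons (PF.leaf (nat_lit 7086637) (nat_lit 605239) (nat_lit 44857927) (nat_lit 9174777) [(nat_lit 605239), (nat_lit 2282299), (nat_lit 6557132)]) (PF.cons (PF.leaf (nat_lit 7469331) (nat_lit 613503) (nat_lit 44221273) (nat_lit 9140374) [(nat_lit 613503), (nat_lit 2293329), (nat_lit 6545803)]) (PF.cons (PF.leaf (nat_lit 7855843) (nat_lit 620844)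 (nat_lit 43584442) (nat_lit 9102678) [(nat_lit 620844), (nat_lit 2302518), (nat_lit 6531569)]) (PF.cons (PF.leaf (nat_lit 8245147) (nat_lit 627336) (nat_lit 42949075) (nat_lit 9061866) [(nat_lit 627336), (nat_lit 2309951), (nat_lit 6514555)]) (PF.cons PF.nil PF.nil)))))))))))) (PF.cons (PF.cons (PF.leaf (nat_lit 5548522) (nat_lit 2215836) (nat_lit 46867760) (nat_lit 9249570) [(nat_lit 0), (nat_lit 2215836), (nat_lit 6559809)]) (PF.cons (PF.leaf (nat_lit 5882324) (nat_lit 566005) (nat_lit 46288058) (nat_lit 9228602) [(nat_lit 566005), (nat_lit 2233578), (nat_lit 6558989)]) (PF.cons (PF.leaf (nat_lit 6228603) (nat_lit 578364)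
 (nat_lit 45693606) (nat_lit 9204039) [(nat_lit 578364), (nat_lit 2249540), (nat_lit 6555357)]) (PF.cons (PF.leaf (nat_lit 6584711) (nat_lit 589318) (nat_lit 45088713) (nat_lit 9175941) [(nat_lit 589318), (nat_lit 2263673), (nat_lit 6548855)]) (PF.cons (PF.leaf (nat_lit 6948760) (nat_lit 599044) (nat_lit 44476784) (nat_lit 9144403) [(nat_lit 599044), (nat_lit 2275980), (nat_lit 6539486)]) (PF.cons (PF.leaf (nat_lit 7319135) (nat_lit 607676) (nat_lit 43860590) (nat_lit 9109551) [(nat_lit 607676), (nat_lit 2286496), (nat_lit 6527297)]) (PF.cons (PF.leaf (nat_lit 7694480) (nat_lit 615322) (nat_lit 43242425) (nat_lit 9071535) [(nat_lit 615322), (nat_lit 2295274), (nat_lit 6512369)]) (PF.cons (PF.leaf (nat_lit 8073611) (nat_lit 622072) (nat_lit 42624217) (nat_lit 9030519) [(nat_lit 622072), (nat_lit 2302381), (nat_lit 6494803)]) (PF.cons (PF.leaf (nat_lit 8455530) (nat_lit 628004) (nat_lit 42007594) (nat_lit 8986678) [(nat_lit 628004), (nat_lit 2307891), (nat_lit 6474720)])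 (PF.cons PF.nil PF.nil)))))))))) (PF.cons (PF.cons (PF.leaf (nat_lit 6478855) (nat_lit 2257965) (nat_lit 44659838) (nat_lit 9143924) [(nat_lit 0), (nat_lit 2257965), (nat_lit 6531153)]) (PF.cons (PF.leaf (nat_lit
 6826244) (nat_lit 591802) (nat_lit 44075394) (nat_lit 9112098) [(nat_lit 591802), (nat_lit 2269558), (nat_lit 6520842)]) (PF.cons (PF.leaf (nat_lit 7182246) (nat_lit 601001) (nat_lit 43483314) (nat_lit 9077046) [(nat_lit 601001), (nat_lit 2279519), (nat_lit 6507891)]) (PF.cons (PF.leaf (nat_lit 7544834) (nat_lit 609102) (nat_lit 42886639) (nat_lit 9038916) [(nat_lit 609102), (nat_lit 2287864), (nat_lit 6492356)]) (PF.cons (PF.leaf (nat_lit 7912545) (nat_lit 616226) (nat_lit 42287810) (nat_lit 8997870) [(nat_lit 616226), (nat_lit 2294635), (nat_lit 6474318)]) (PF.cons (PF.leaf (nat_lit 8284138) (nat_lit 622472) (nat_lit 41688830) (nat_lit 8954079) [(nat_lit 622472), (nat_lit 2299887), (nat_lit 6453881)]) (PF.cons (PF.leaf (nat_lit 8658577) (nat_lit 627920)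 (nat_lit 41091358) (nat_lit 8907719) [(nat_lit 627920), (nat_lit 2303684), (nat_lit 6431159)]) (PF.cons PF.nil PF.nil)))))))) (PF.cons (PF.cons (PF.leaf (nat_lit 7410517) (nat_lit 2280295) (nat_lit 42511954) (nat_lit 9004375) [(nat_lit 0), (nat_lit 2280295), (nat_lit 6471300)]) (PF.cons (PF.leaf (nat_lit 7764553) (nat_lit 609586) (nat_lit 41935922) (nat_lit 8963561) [(nat_lit 609586), (nat_lit 2286708), (nat_lit 6452909)])
 (PF.cons (PF.leaf (nat_lit 8124285) (nat_lit 616285) (nat_lit 41357217) (nat_lit 8920033) [(nat_lit 616285), (nat_lit 2291692), (nat_lit 6432218)]) (PF.cons (PF.leaf (nat_lit 8488121) (nat_lit 622109) (nat_lit 40777997) (nat_lit 8873973) [(nat_lit 622109), (nat_lit 2295295), (nat_lit 6409332)]) (PF.cons (PF.leaf (nat_lit 8854960) (nat_lit 627147) (nat_lit 40200008) (nat_lit 8825562) [(nat_lit 627147), (nat_lit 2297571), (nat_lit 6384365)]) (PF.cons PF.nil PF.nil)))))) (PF.cons (PF.cons (PF.leaf (nat_lit 8330718) (nat_lit 2286695) (nat_lit 40450177)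 (nat_lit 8838592) [(nat_lit 0), (nat_lit 2286695), (nat_lit 6386564)]) (PF.cons (PF.leaf (nat_lit 8686284) (nat_lit 621038) (nat_lit 39891230) (nat_lit 8790738) [(nat_lit 621038), (nat_lit 2288836), (nat_lit 6361623)]) (PF.cons (PF.leaf (nat_lit 9045350) (nat_lit 625739) (nat_lit 39333022) (nat_lit 8740710) [(nat_lit 625739), (nat_lit 2289765), (nat_lit 6334774)]) (PF.cons (PF.leaf (nat_lit 9406645) (nat_lit 629737) (nat_lit 38777082) (nat_lit 8688691) [(nat_lit 629737), (nat_lit 2289537), (nat_lit 6306138)]) PF.nil)))) (PF.cons (PF.cons (PF.leaf (nat_lit 9230657) (nat_lit 2280454) (nat_lit 38489722) (nat_lit 8653595) [(nat_lit 0),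
 (nat_lit 2280454), (nat_lit 6282766)]) (PF.cons (PF.leaf (nat_lit 9584039) (nat_lit 627470) (nat_lit 37953288) (nat_lit 8600509) [(nat_lit 627470), (nat_lit 2279135), (nat_lit 6252728)]) PF.nil)) (PF.cons PF.nil (PF.cons PF.nil (PF.cons PF.nil PF.nil)))))))))) (PF.cons (PF.cons (PF.cons (PF.leaf (nat_lit 5543462) (nat_lit 6463299) (nat_lit 45086065) (nat_lit 9096148) [(nat_lit 0), (nat_lit 0), (nat_lit 6463299)]) (PF.cons (PF.leaf (nat_lit 5849539) (nat_lit 542152) (nat_lit 44574608) (nat_lit 9073016) [(nat_lit 542152), (nat_lit 0), (nat_lit 6459517)]) (PF.cons (PF.leaf (nat_lit 6171223) (nat_lit 556424) (nat_lit 44042805) (nat_lit 9046548) [(nat_lit 556424), (nat_lit 0), (nat_lit 6453304)]) (PF.cons (PF.leaf (nat_lit 6505063) (nat_lit 568834) (nat_lit 43496297) (nat_lit 9016842) [(nat_lit 568834), (nat_lit 0), (nat_lit 6444584)]) (PF.cons (PF.leaf (nat_lit 6848630) (nat_lit 579694) (nat_lit 42939340) (nat_lit 8984013) [(nat_lit 579694), (nat_lit 0), (nat_lit 6433340)])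 (PF.cons (PF.leaf (nat_lit 7200010) (nat_lit 589229) (nat_lit 42375275) (nat_lit 8948190) [(nat_lit 589229), (nat_lit 0), (nat_lit 6419599)]) (PF.cons (PF.leaf (nat_lit 7557622) (nat_lit 597609) (nat_lit 41806793)
 (nat_lit 8909515) [(nat_lit 597609), (nat_lit 0), (nat_lit 6403423)]) (PF.cons (PF.leaf (nat_lit 7920130) (nat_lit 604968) (nat_lit 41236107) (nat_lit 8868142) [(nat_lit 604968), (nat_lit 0), (nat_lit 6384893)]) (PF.cons (PF.leaf (nat_lit 8286377) (nat_lit 611412) (nat_lit 40665060) (nat_lit 8824232) [(nat_lit 611412), (nat_lit 0), (nat_lit 6364110)]) (PF.cons (PF.leaf (nat_lit 8655361) (nat_lit 617032) (nat_lit 40095199) (nat_lit 8777950) [(nat_lit 617032), (nat_lit 0), (nat_lit 6341186)]) (PF.cons PF.nil (PF.cons PF.nil PF.nil)))))))))))) (PF.cons (PF.cons (PF.leaf (nat_lit 6417079) (nat_lit 2215124) (nat_lit 43062419) (nat_lit 8981675) [(nat_lit 0), (nat_lit 2215124), (nat_lit 6424796)]) (PF.cons (PF.leaf (nat_lit 6741451) (nat_lit 570802) (nat_lit 42536400)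 (nat_lit 8949146) [(nat_lit 570802), (nat_lit 2226564), (nat_lit 6412950)]) (PF.cons (PF.leaf (nat_lit 7076634) (nat_lit 581237) (nat_lit 41998831) (nat_lit 8913600) [(nat_lit 581237), (nat_lit 2236430), (nat_lit 6398737)]) (PF.cons (PF.leaf (nat_lit 7420140) (nat_lit 590320) (nat_lit 41453511) (nat_lit 8875208) [(nat_lit 590320), (nat_lit 2244727), (nat_lit 6382202)]) (PF.cons (PF.leaf (nat_lit 7770180) (nat_lit 598241)
 (nat_lit 40903389) (nat_lit 8834138) [(nat_lit 598241), (nat_lit 2251490), (nat_lit 6363414)]) (PF.cons (PF.leaf (nat_lit 8125314) (nat_lit 605147) (nat_lit 40350819) (nat_lit 8790557) [(nat_lit 605147), (nat_lit 2256773), (nat_lit 6342462)]) (PF.cons (PF.leaf (nat_lit 8484338) (nat_lit 611153) (nat_lit 39797720) (nat_lit 8744635) [(nat_lit 611153), (nat_lit 2260640), (nat_lit 6319446)]) (PF.cons (PF.leaf (nat_lit 8846201) (nat_lit 616354) (nat_lit 39245674) (nat_lit 8696540) [(nat_lit 616354), (nat_lit 2263162), (nat_lit 6294477)]) (PF.cons PF.nil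 (PF.cons PF.nil PF.nil)))))))))) (PF.cons (PF.cons (PF.leaf (nat_lit 7300975) (nat_lit 2236494) (nat_lit 41077744) (nat_lit 8838599) [(nat_lit 0), (nat_lit 2236494), (nat_lit 6359739)]) (PF.cons (PF.leaf (nat_lit 7635602) (nat_lit 590455) (nat_lit 40552533) (nat_lit 8798183) [(nat_lit 590455), (nat_lit 2242963), (nat_lit 6340856)]) (PF.cons (PF.leaf (nat_lit 7977580) (nat_lit 598030) (nat_lit 40021711) (nat_lit 8755210) [(nat_lit 598030), (nat_lit 2248046), (nat_lit 6319869)]) (PF.cons (PF.leaf (nat_lit 8325023) (nat_lit 604576) (nat_lit 39487893) (nat_lit 8709873) [(nat_lit 604576), (nat_lit 2251785), (nat_lit 6296873)]) (PF.cons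
 (PF.leaf (nat_lit 8676618) (nat_lit 610224) (nat_lit 38953150) (nat_lit 8662352) [(nat_lit 610224), (nat_lit 2254232), (nat_lit 6271974)]) (PF.cons (PF.leaf (nat_lit 9031241) (nat_lit 615074) (nat_lit 38419153) (nat_lit 8612824) [(nat_lit 615074), (nat_lit 2255448), (nat_lit 6245283)]) (PF.cons PF.nil (PF.cons PF.nil PF.nil)))))))) (PF.cons (PF.cons (PF.leaf (nat_lit 8180916) (nat_lit 2242697) (nat_lit 39161142) (nat_lit 8673185) [(nat_lit 0), (nat_lit 2242697), (nat_lit 6273196)]) (PF.cons (PF.leaf (nat_lit 8519993) (nat_lit 603298) (nat_lit 38646752) (nat_lit 8626523) [(nat_lit 603298), (nat_lit 2245069), (nat_lit 6248515)]) (PF.cons (PF.leaf (nat_lit 8863877) (nat_lit 608667) (nat_lit 38130779) (nat_lit 8577796) [(nat_lit 608667), (nat_lit 2246260), (nat_lit 6222060)]) (PF.cons (PF.leaf (nat_lit 9211094) (nat_lit 613235) (nat_lit 37615049) (nat_lit 8527190) [(nat_lit 613235), (nat_lit 2246323), (nat_lit 6193948)]) (PF.cons (PF.leaf (nat_lit 9560655) (nat_lit 617094)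 (nat_lit 37101023) (nat_lit 8474881) [(nat_lit 617094), (nat_lit 2245315), (nat_lit 6164291)]) (PF.cons PF.nil PF.nil)))))) (PF.cons (PF.cons (PF.leaf (nat_lit 9047059) (nat_lit 2236894) (nat_lit 37329871) (nat_lit
 8491317) [(nat_lit 0), (nat_lit 2236894), (nat_lit 6170023)]) (PF.cons (PF.leaf (nat_lit 9386398) (nat_lit 610873) (nat_lit 36832656) (nat_lit 8439970) [(nat_lit 610873), (nat_lit 2235942), (nat_lit 6140771)]) (PF.cons (PF.leaf (nat_lit 9728644) (nat_lit 614513) (nat_lit 36336571) (nat_lit 8387023) [(nat_lit 614513), (nat_lit 2234005), (nat_lit 6110085)]) (PF.cons PF.nil PF.nil)))) (PF.cons (PF.cons (PF.leaf (nat_lit 9892763) (nat_lit 2221696) (nat_lit 35593121) (nat_lit 8298145) [(nat_lit 0), (nat_lit 2221696), (nat_lit 6054532)]) (PF.cons PF.nil PF.nil)) (PF.cons PF.nil (PF.cons PF.nil PF.nil)))))))) (PF.cons (PF.cons (PF.cons (PF.leaf (nat_lit 7203969) (nat_lit 6246416) (nat_lit 39698207) (nat_lit 8671355) [(nat_lit 0), (nat_lit 0), (nat_lit 6246416)])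 (PF.cons (PF.leaf (nat_lit 7517748) (nat_lit 569034) (nat_lit 39224457) (nat_lit 8632230) [(nat_lit 569034), (nat_lit 0), (nat_lit 6227696)]) (PF.cons (PF.leaf (nat_lit 7841083) (nat_lit 577956) (nat_lit 38741408) (nat_lit 8590562) [(nat_lit 577956), (nat_lit 0), (nat_lit 6206976)]) (PF.cons (PF.leaf (nat_lit 8171586) (nat_lit 585587) (nat_lit 38252392) (nat_lit 8546581) [(nat_lit 585587), (nat_lit 0), (nat_lit 6184358)])
 (PF.cons (PF.leaf (nat_lit 8507621) (nat_lit 592128) (nat_lit 37759958) (nat_lit 8500490) [(nat_lit 592128), (nat_lit 0), (nat_lit 6159950)]) (PF.cons (PF.leaf (nat_lit 8847852) (nat_lit 597728) (nat_lit 37266118) (nat_lit 8452473) [(nat_lit 597728), (nat_lit 0), (nat_lit 6133859)]) (PF.cons (PF.leaf (nat_lit 9191221) (nat_lit 602507) (nat_lit 36772487) (nat_lit 8402702) [(nat_lit 602507), (nat_lit 0), (nat_lit 6106193)]) (PF.cons PF.nil (PF.cons PF.nil (PF.cons PF.nil PF.nil)))))))))) (PF.cons (PF.cons (PF.leaf (nat_lit 8043091) (nat_lit 2197469)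 (nat_lit 37923845) (nat_lit 8508405) [(nat_lit 0), (nat_lit 2197469), (nat_lit 6159697)]) (PF.cons (PF.leaf (nat_lit 8364844) (nat_lit 584124) (nat_lit 37453656) (nat_lit 8463521) [(nat_lit 584124), (nat_lit 2200354), (nat_lit 6135718)]) (PF.cons (PF.leaf (nat_lit 8693017) (nat_lit 590452) (nat_lit 36979158) (nat_lit 8416582) [(nat_lit 590452), (nat_lit 2202056), (nat_lit 6110036)]) (PF.cons (PF.leaf (nat_lit 9025838) (nat_lit 595820) (nat_lit 36502612) (nat_lit 8367797) [(nat_lit 595820), (nat_lit 2202626), (nat_lit 6082771)]) (PF.cons (PF.leaf (nat_lit 9362108) (nat_lit 600360) (nat_lit 36025782) (nat_lit 8317352) [(nat_lit 600360),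
 (nat_lit 2202125), (nat_lit 6054037)]) (PF.cons (PF.leaf (nat_lit 9700812) (nat_lit 604173) (nat_lit 35550079) (nat_lit 8265418) [(nat_lit 604173), (nat_lit 2200614), (nat_lit 6023943)]) (PF.cons PF.nil (PF.cons PF.nil PF.nil)))))))) (PF.cons (PF.cons (PF.leaf (nat_lit 8875353) (nat_lit 2192812) (nat_lit 36217541) (nat_lit 8330992) [(nat_lit 0), (nat_lit 2192812), (nat_lit 6058217)]) (PF.cons (PF.leaf (nat_lit 9200126) (nat_lit 593372) (nat_lit 35758713) (nat_lit 8281758) [(nat_lit 593372), (nat_lit 2192419), (nat_lit 6030043)]) (PF.cons (PF.leaf (nat_lit 9529052) (nat_lit 597741) (nat_lit 35298898) (nat_lit 8230922) [(nat_lit 597741), (nat_lit 2191037), (nat_lit 6000478)]) (PF.cons (PF.leaf (nat_lit 9860785) (nat_lit 601374) (nat_lit 34839659) (nat_lit 8178668) [(nat_lit 601374), (nat_lit 2188722), (nat_lit 5969639)]) (PF.cons PF.nil (PF.cons PF.nil PF.nil)))))) (PF.cons (PF.cons (PF.leaf (nat_lit 9692942) (nat_lit 2179006) (nat_lit 34591024) (nat_lit 8143621) [(nat_lit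 0), (nat_lit 2179006), (nat_lit 5945716)]) (PF.cons (PF.leaf (nat_lit 10017220) (nat_lit 598180) (nat_lit 34148361) (nat_lit 8091290) [(nat_lit 598180), (nat_lit 2175990), (nat_lit 5914336)]) (PF.cons PF.nil
 (PF.cons PF.nil PF.nil)))) (PF.cons (PF.cons (PF.leaf (nat_lit 10490684) (nat_lit 2158135) (nat_lit 33049924) (nat_lit 7950097) [(nat_lit 0), (nat_lit 2158135), (nat_lit 5825416)]) (PF.cons PF.nil PF.nil)) (PF.cons PF.nil PF.nil)))))) (PF.cons (PF.cons (PF.cons (PF.leaf (nat_lit 8717438) (nat_lit 5947303) (nat_lit 35147119) (nat_lit 8172479) [(nat_lit 0), (nat_lit 0), (nat_lit 5947303)]) (PF.cons (PF.leaf (nat_lit 9026679) (nat_lit 574637) (nat_lit 34726434) (nat_lit 8125744) [(nat_lit 574637), (nat_lit 0), (nat_lit 5920499)]) (PF.cons (PF.leaf (nat_lit 9341643) (nat_lit 579999) (nat_lit 34302300) (nat_lit 8077329) [(nat_lit 579999), (nat_lit 0), (nat_lit 5892296)]) (PF.cons (PF.leaf (nat_lit 9660660) (nat_lit 584464) (nat_lit 33876678) (nat_lit 8027447) [(nat_lit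 584464), (nat_lit 0), (nat_lit 5862823)]) (PF.cons (PF.leaf (nat_lit 9982594) (nat_lit 588163) (nat_lit 33451088) (nat_lit 7976282) [(nat_lit 588163), (nat_lit 0), (nat_lit 5832197)]) (PF.cons PF.nil PF.nil)))))) (PF.cons (PF.cons (PF.leaf (nat_lit 9506284) (nat_lit 2136132) (nat_lit 33627351) (nat_lit 7991665) [(nat_lit 0), (nat_lit 2136132), (nat_lit 5838415)]) (PF.cons (PF.leaf (nat_lit 9817609) (nat_lit 581251)
 (nat_lit 33217624) (nat_lit 7941890) [(nat_lit 581251), (nat_lit 2133855), (nat_lit 5808547)]) (PF.cons (PF.leaf (nat_lit 10132628) (nat_lit 584858) (nat_lit 32807232) (nat_lit 7890848) [(nat_lit 584858), (nat_lit 2130739), (nat_lit 5777568)]) (PF.cons PF.nil PF.nil)))) (PF.cons (PF.cons (PF.leaf (nat_lit 10280411) (nat_lit 2117166) (nat_lit 32179964) (nat_lit 7805196) [(nat_lit 0), (nat_lit 2117166), (nat_lit 5722329)]) (PF.cons (PF.leaf (nat_lit 10590801) (nat_lit 584073) (nat_lit 31784945) (nat_lit 7753398) [(nat_lit 584073), (nat_lit 2112791), (nat_lit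 5690203)]) PF.nil)) (PF.cons PF.nil PF.nil)))) (PF.cons (PF.cons (PF.cons (PF.leaf (nat_lit 10083871) (nat_lit 5620957) (nat_lit 31341017) (nat_lit 7663006) [(nat_lit 0), (nat_lit 0), (nat_lit 5620957)]) (PF.cons (PF.leaf (nat_lit 10382661) (nat_lit 567888) (nat_lit 30974258) (nat_lit 7613928) [(nat_lit 567888), (nat_lit 0), (nat_lit 5590547)]) (PF.cons (PF.leaf (nat_lit 10684788) (nat_lit 570908) (nat_lit 30606999) (nat_lit 7563829) [(nat_lit 570908), (nat_lit 0), (nat_lit 5559233)]) (PF.cons PF.nil PF.nil)))) (PF.cons (PF.cons (PF.leaf (nat_lit 10819043) (nat_lit 2053997) (nat_lit 30049228) (nat_lit 7481215) [(nat_lit 0),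
 (nat_lit 2053997), (nat_lit 5504874)]) (PF.cons PF.nil PF.nil)) PF.nil)) (PF.cons PF.nil (PF.cons PF.nil (PF.cons PF.nil (PF.cons PF.nil PF.nil))))))))))

def p14_19_1_0 : pfC (piC [(nat_lit 37297016), (nat_lit 23751559), (nat_lit 15232604)] (nat_lit 11270119)) p14_19_1 (nat_lit 3) (nat_lit 0) (nat_lit 1) = true := by decide +kernel
def p14_19_1_1 : pfC (piC [(nat_lit 37297016), (nat_lit 23751559), (nat_lit 15232604)] (nat_lit 11270119)) p14_19_1 (nat_lit 3) (nat_lit 1) (nat_lit 2) = true := by decide +kernel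
def p14_19_1_2 : pfC (piC [(nat_lit 37297016), (nat_lit 23751559), (nat_lit 15232604)] (nat_lit 11270119)) p14_19_1 (nat_lit 3) (nat_lit 2) (nat_lit 3) = true := by decide +kernel
def p14_19_1_3 : pfC (piC [(nat_lit 37297016), (nat_lit 23751559), (nat_lit 15232604)] (nat_lit 11270119)) p14_19_1 (nat_lit 3) (nat_lit 3) (nat_lit 4) = true := by decide +kernel
def p14_19_1_4 : pfC (piC [(nat_lit 37297016), (nat_lit 23751559), (nat_lit 15232604)] (nat_lit 11270119)) p14_19_1 (nat_lit 3) (nat_lit 4) (nat_lit 5) = true := by decide +kernel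
def p14_19_1_5 : pfC (piC [(nat_lit 37297016), (nat_lit 23751559), (nat_lit 15232604)] (nat_lit 11270119)) p14_19_1 (nat_lit 3) (nat_lit 5) (nat_lit 6) = true := by decide +kernel
def p14_19_1_6 : pfC (piC [(nat_lit 37297016), (nat_lit 23751559), (nat_lit 15232604)] (nat_lit 11270119)) p14_19_1 (nat_lit 3) (nat_lit 6) (nat_lit 7) = true := by decide +kernel
def p14_19_1_7 : pfC (piC [(nat_lit 37297016), (nat_lit 23751559), (nat_lit 15232604)] (nat_lit 11270119)) p14_19_1 (nat_lit 3) (nat_lit 7) (nat_lit 8) = true := by decide +kernel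
def p14_19_1_8 : pfC (piC [(nat_lit 37297016), (nat_lit 23751559), (nat_lit 15232604)] (nat_lit 11270119)) p14_19_1 (nat_lit 3) (nat_lit 8) (nat_lit 9) = true := by decide +kernel
def p14_19_1_9 : pfC (piC [(nat_lit 37297016), (nat_lit 23751559), (nat_lit 15232604)] (nat_lit 11270119)) p14_19_1 (nat_lit 3) (nat_lit 9) (nat_lit 10) = true := by decide +kernel
def p14_19_1_10 : pfC (piC [(nat_lit 37297016), (nat_lit 23751559), (nat_lit 15232604)] (nat_lit 11270119)) p14_19_1 (nat_lit 3) (nat_lit 10) (nat_lit 11) = true := by decide +kernel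
def p14_19_1_11 : pfC (piC [(nat_lit 37297016), (nat_lit 23751559), (nat_lit 15232604)] (nat_lit 11270119)) p14_19_1 (nat_lit 3) (nat_lit 11) (nat_lit 12) = true := by decide +kernel
def p14_19_1_12 : pfC (piC [(nat_lit 37297016), (nat_lit 23751559), (nat_lit 15232604)] (nat_lit 11270119)) p14_19_1 (nat_lit 3) (nat_lit 12) (nat_lit 13) = true := by decide +kernel
def p14_19_1_13 : pfC (piC [(nat_lit 37297016), (nat_lit 23751559), (nat_lit 15232604)] (nat_lit 11270119)) p14_19_1 (nat_lit 3) (nat_lit 13) (nat_lit 14) = true := by decide +kernel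
def p14_19_1_14 : pfC (piC [(nat_lit 37297016), (nat_lit 23751559), (nat_lit 15232604)] (nat_lit 11270119)) p14_19_1 (nat_lit 3) (nat_lit 14) (nat_lit 15) = true := by decide +kernel
def p14_19_1_15 : pfC (piC [(nat_lit 37297016), (nat_lit 23751559), (nat_lit 15232604)] (nat_lit 11270119)) p14_19_1 (nat_lit 3) (nat_lit 15) (nat_lit 16) = true := by decide +kernel
def p14_19_1_16 : pfC (piC [(nat_lit 37297016), (nat_lit 23751559), (nat_lit 15232604)] (nat_lit 11270119)) p14_19_1 (nat_lit 3) (nat_lit 16) (nat_lit 17) = true := by decide +kernel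
def p14_19_1_17 : pfC (piC [(nat_lit 37297016), (nat_lit 23751559), (nat_lit 15232604)] (nat_lit 11270119)) p14_19_1 (nat_lit 3) (nat_lit 17) (nat_lit 18) = true := by decide +kernel
def p14_19_1_18 : pfC (piC [(nat_lit 37297016), (nat_lit 23751559), (nat_lit 15232604)] (nat_lit 11270119)) p14_19_1 (nat_lit 3) (nat_lit 18) (nat_lit 19) = true := by decide +kernel
def p14_19_1_19 : pfC (piC [(nat_lit 37297016), (nat_lit 23751559), (nat_lit 15232604)] (nat_lit 11270119)) p14_19_1 (nat_lit 3) (nat_lit 19) (nat_lit 20) = true := by decide +kernel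
def p14_19_1_20 : pfC (piC [(nat_lit 37297016), (nat_lit 23751559), (nat_lit 15232604)] (nat_lit 11270119)) p14_19_1 (nat_lit 3) (nat_lit 20) (nat_lit 21) = true := by decide +kernel
def p14_19_1_21 : pfC (piC [(nat_lit 37297016), (nat_lit 23751559), (nat_lit 15232604)] (nat_lit 11270119)) p14_19_1 (nat_lit 3) (nat_lit 21) (nat_lit 22) = true := by decide +kernel
def p14_19_1_22 : pfC (piC [(nat_lit 37297016), (nat_lit 23751559), (nat_lit 15232604)] (nat_lit 11270119)) p14_19_1 (nat_lit 3) (nat_lit 22) (nat_lit 23) = true := by decide +kernel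
def p14_19_1_23 : pfC (piC [(nat_lit 37297016), (nat_lit 23751559), (nat_lit 15232604)] (nat_lit 11270119)) p14_19_1 (nat_lit 3) (nat_lit 23) (nat_lit 24) = true := by decide +kernel
def p14_19_1_24 : pfC (piC [(nat_lit 37297016), (nat_lit 23751559), (nat_lit 15232604)] (nat_lit 11270119)) p14_19_1 (nat_lit 3) (nat_lit 24) (nat_lit 25) = true := by decide +kernel
def p14_19_1_25 : pfC (piC [(nat_lit 37297016), (nat_lit 23751559), (nat_lit 15232604)] (nat_lit 11270119)) p14_19_1 (nat_lit 3) (nat_lit 25) (nat_lit 26) = true := by decide +kernel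
def p14_19_1_26 : pfC (piC [(nat_lit 37297016), (nat_lit 23751559), (nat_lit 15232604)] (nat_lit 11270119)) p14_19_1 (nat_lit 3) (nat_lit 26) (nat_lit 27) = true := by decide +kernel
def p14_19_1_27 : pfC (piC [(nat_lit 37297016), (nat_lit 23751559), (nat_lit 15232604)] (nat_lit 11270119)) p14_19_1 (nat_lit 3) (nat_lit 27) (nat_lit 28) = true := by decide +kernel
def p14_19_1_28 : pfC (piC [(nat_lit 37297016), (nat_lit 23751559), (nat_lit 15232604)] (nat_lit 11270119)) p14_19_1 (nat_lit 3) (nat_lit 28) (nat_lit 29) = true := by decide +kernel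
def p14_19_1_29 : pfC (piC [(nat_lit 37297016), (nat_lit 23751559), (nat_lit 15232604)] (nat_lit 11270119)) p14_19_1 (nat_lit 3) (nat_lit 29) (nat_lit 30) = true := by decide +kernel
def p14_19_1_30 : pfC (piC [(nat_lit 37297016), (nat_lit 23751559), (nat_lit 15232604)] (nat_lit 11270119)) p14_19_1 (nat_lit 3) (nat_lit 30) (nat_lit 31) = true := by decide +kernel
def p14_19_1_31 : pfC (piC [(nat_lit 37297016), (nat_lit 23751559), (nat_lit 15232604)] (nat_lit 11270119)) p14_19_1 (nat_lit 3) (nat_lit 31) (nat_lit 32) = true := by decide +kernel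
def p14_19_1_32 : pfC (piC [(nat_lit 37297016), (nat_lit 23751559), (nat_lit 15232604)] (nat_lit 11270119)) p14_19_1 (nat_lit 3) (nat_lit 32) (nat_lit 33) = true := by decide +kernel
def p14_19_1_33 : pfC (piC [(nat_lit 37297016), (nat_lit 23751559), (nat_lit 15232604)] (nat_lit 11270119)) p14_19_1 (nat_lit 3) (nat_lit 33) (nat_lit 34) = true := by decide +kernel
def p14_19_1_34 : pfC (piC [(nat_lit 37297016), (nat_lit 23751559), (nat_lit 15232604)] (nat_lit 11270119)) p14_19_1 (nat_lit 3) (nat_lit 34) (nat_lit 35) = true := by decide +kernel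
def p14_19_1_35 : pfC (piC [(nat_lit 37297016), (nat_lit 23751559), (nat_lit 15232604)] (nat_lit 11270119)) p14_19_1 (nat_lit 3) (nat_lit 35) (nat_lit 36) = true := by decide +kernel
def p14_19_1_36 : pfC (piC [(nat_lit 37297016), (nat_lit 23751559), (nat_lit 15232604)] (nat_lit 11270119)) p14_19_1 (nat_lit 3) (nat_lit 36) (nat_lit 37) = true := by decide +kernel
def p14_19_1_37 : pfC (piC [(nat_lit 37297016), (nat_lit 23751559), (nat_lit 15232604)] (nat_lit 11270119)) p14_19_1 (nat_lit 3) (nat_lit 37) (nat_lit 38) = true := by decide +kernel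
def p14_19_1_38 : pfC (piC [(nat_lit 37297016), (nat_lit 23751559), (nat_lit 15232604)] (nat_lit 11270119)) p14_19_1 (nat_lit 3) (nat_lit 38) (nat_lit 39) = true := by decide +kernel
def p14_19_1_39 : pfC (piC [(nat_lit 37297016), (nat_lit 23751559), (nat_lit 15232604)] (nat_lit 11270119)) p14_19_1 (nat_lit 3) (nat_lit 39) (nat_lit 40) = true := by decide +kernel
def p14_19_1_40 : pfC (piC [(nat_lit 37297016), (nat_lit 23751559), (nat_lit 15232604)] (nat_lit 11270119)) p14_19_1 (nat_lit 3) (nat_lit 40) (nat_lit 41) = true := by decide +kernel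
def p14_19_1_41 : pfC (piC [(nat_lit 37297016), (nat_lit 23751559), (nat_lit 15232604)] (nat_lit 11270119)) p14_19_1 (nat_lit 3) (nat_lit 41) (nat_lit 42) = true := by decide +kernel
def p14_19_1_42 : pfC (piC [(nat_lit 37297016), (nat_lit 23751559), (nat_lit 15232604)] (nat_lit 11270119)) p14_19_1 (nat_lit 3) (nat_lit 42) (nat_lit 43) = true := by decide +kernel
def p14_19_1_43 : pfC (piC [(nat_lit 37297016), (nat_lit 23751559), (nat_lit 15232604)] (nat_lit 11270119)) p14_19_1 (nat_lit 3) (nat_lit 43) (nat_lit 44) = true := by decide +kernel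
def p14_19_1_44 : pfC (piC [(nat_lit 37297016), (nat_lit 23751559), (nat_lit 15232604)] (nat_lit 11270119)) p14_19_1 (nat_lit 3) (nat_lit 44) (nat_lit 45) = true := by decide +kernel
def p14_19_1_45 : pfC (piC [(nat_lit 37297016), (nat_lit 23751559), (nat_lit 15232604)] (nat_lit 11270119)) p14_19_1 (nat_lit 3) (nat_lit 45) (nat_lit 46) = true := by decide +kernel
def p14_19_1_46 : pfC (piC [(nat_lit 37297016), (nat_lit 23751559), (nat_lit 15232604)] (nat_lit 11270119)) p14_19_1 (nat_lit 3) (nat_lit 46) (nat_lit 47) = true := by decide +kernel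
def p14_19_1_47 : pfC (piC [(nat_lit 37297016), (nat_lit 23751559), (nat_lit 15232604)] (nat_lit 11270119)) p14_19_1 (nat_lit 3) (nat_lit 47) (nat_lit 48) = true := by decide +kernel
def p14_19_1_48 : pfC (piC [(nat_lit 37297016), (nat_lit 23751559), (nat_lit 15232604)] (nat_lit 11270119)) p14_19_1 (nat_lit 3) (nat_lit 48) (nat_lit 49) = true := by decide +kernel
def p14_19_1_49 : pfC (piC [(nat_lit 37297016), (nat_lit 23751559), (nat_lit 15232604)] (nat_lit 11270119)) p14_19_1 (nat_lit 3) (nat_lit 49) (nat_lit 50) = true := by decide +kernel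
def p14_19_1_50 : pfC (piC [(nat_lit 37297016), (nat_lit 23751559), (nat_lit 15232604)] (nat_lit 11270119)) p14_19_1 (nat_lit 3) (nat_lit 50) (nat_lit 51) = true := by decide +kernel
def p14_19_1_51 : pfC (piC [(nat_lit 37297016), (nat_lit 23751559), (nat_lit 15232604)] (nat_lit 11270119)) p14_19_1 (nat_lit 3) (nat_lit 51) (nat_lit 52) = true := by decide +kernel
def p14_19_1_52 : pfC (piC [(nat_lit 37297016), (nat_lit 23751559), (nat_lit 15232604)] (nat_lit 11270119)) p14_19_1 (nat_lit 3) (nat_lit 52) (nat_lit 53) = true := by decide +kernel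
def p14_19_1_53 : pfC (piC [(nat_lit 37297016), (nat_lit 23751559), (nat_lit 15232604)] (nat_lit 11270119)) p14_19_1 (nat_lit 3) (nat_lit 53) (nat_lit 54) = true := by decide +kernel
def p14_19_1_54 : pfC (piC [(nat_lit 37297016), (nat_lit 23751559), (nat_lit 15232604)] (nat_lit 11270119)) p14_19_1 (nat_lit 3) (nat_lit 54) (nat_lit 55) = true := by decide +kernel
def p14_19_1_55 : pfC (piC [(nat_lit 37297016), (nat_lit 23751559), (nat_lit 15232604)] (nat_lit 11270119)) p14_19_1 (nat_lit 3) (nat_lit 55) (nat_lit 56) = true := by decide +kernel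
def p14_19_1_56 : pfC (piC [(nat_lit 37297016), (nat_lit 23751559), (nat_lit 15232604)] (nat_lit 11270119)) p14_19_1 (nat_lit 3) (nat_lit 56) (nat_lit 57) = true := by decide +kernel
def p14_19_1_57 : pfC (piC [(nat_lit 37297016), (nat_lit 23751559), (nat_lit 15232604)] (nat_lit 11270119)) p14_19_1 (nat_lit 3) (nat_lit 57) (nat_lit 58) = true := by decide +kernel
def p14_19_1_58 : pfC (piC [(nat_lit 37297016), (nat_lit 23751559), (nat_lit 15232604)] (nat_lit 11270119)) p14_19_1 (nat_lit 3) (nat_lit 58) (nat_lit 59) = true := by decide +kernel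
def p14_19_1_59 : pfC (piC [(nat_lit 37297016), (nat_lit 23751559), (nat_lit 15232604)] (nat_lit 11270119)) p14_19_1 (nat_lit 3) (nat_lit 59) (nat_lit 60) = true := by decide +kernel
def p14_19_1_60 : pfC (piC [(nat_lit 37297016), (nat_lit 23751559), (nat_lit 15232604)] (nat_lit 11270119)) p14_19_1 (nat_lit 3) (nat_lit 60) (nat_lit 61) = true := by decide +kernel
def p14_19_1_61 : pfC (piC [(nat_lit 37297016), (nat_lit 23751559), (nat_lit 15232604)] (nat_lit 11270119)) p14_19_1 (nat_lit 3) (nat_lit 61) (nat_lit 62) = true := by decide +kernel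
def p14_19_1_62 : pfC (piC [(nat_lit 37297016), (nat_lit 23751559), (nat_lit 15232604)] (nat_lit 11270119)) p14_19_1 (nat_lit 3) (nat_lit 62) (nat_lit 63) = true := by decide +kernel
def p14_19_1_63 : pfC (piC [(nat_lit 37297016), (nat_lit 23751559), (nat_lit 15232604)] (nat_lit 11270119)) p14_19_1 (nat_lit 3) (nat_lit 63) (nat_lit 64) = true := by decide +kernel
def p14_19_1_64 : pfC (piC [(nat_lit 37297016), (nat_lit 23751559), (nat_lit 15232604)] (nat_lit 11270119)) p14_19_1 (nat_lit 3) (nat_lit 64) (nat_lit 65) = true := by decide +kernel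
def p14_19_1_65 : pfC (piC [(nat_lit 37297016), (nat_lit 23751559), (nat_lit 15232604)] (nat_lit 11270119)) p14_19_1 (nat_lit 3) (nat_lit 65) (nat_lit 66) = true := by decide +kernel
def p14_19_1_66 : pfC (piC [(nat_lit 37297016), (nat_lit 23751559), (nat_lit 15232604)] (nat_lit 11270119)) p14_19_1 (nat_lit 3) (nat_lit 66) (nat_lit 67) = true := by decide +kernel
def p14_19_1_67 : pfC (piC [(nat_lit 37297016), (nat_lit 23751559), (nat_lit 15232604)] (nat_lit 11270119)) p14_19_1 (nat_lit 3) (nat_lit 67) (nat_lit 68) = true := by decide +kernel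
def p14_19_1_68 : pfC (piC [(nat_lit 37297016), (nat_lit 23751559), (nat_lit 15232604)] (nat_lit 11270119)) p14_19_1 (nat_lit 3) (nat_lit 68) (nat_lit 69) = true := by decide +kernel
def p14_19_1_69 : pfC (piC [(nat_lit 37297016), (nat_lit 23751559), (nat_lit 15232604)] (nat_lit 11270119)) p14_19_1 (nat_lit 3) (nat_lit 69) (nat_lit 70) = true := by decide +kernel
def p14_19_1_70 : pfC (piC [(nat_lit 37297016), (nat_lit 23751559), (nat_lit 15232604)] (nat_lit 11270119)) p14_19_1 (nat_lit 3) (nat_lit 70) (nat_lit 71) = true := by decide +kernel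
def p14_19_1_71 : pfC (piC [(nat_lit 37297016), (nat_lit 23751559), (nat_lit 15232604)] (nat_lit 11270119)) p14_19_1 (nat_lit 3) (nat_lit 71) (nat_lit 72) = true := by decide +kernel
def p14_19_1_72 : pfC (piC [(nat_lit 37297016), (nat_lit 23751559), (nat_lit 15232604)] (nat_lit 11270119)) p14_19_1 (nat_lit 3) (nat_lit 72) (nat_lit 73) = true := by decide +kernel
def p14_19_1_73 : pfC (piC [(nat_lit 37297016), (nat_lit 23751559), (nat_lit 15232604)] (nat_lit 11270119)) p14_19_1 (nat_lit 3) (nat_lit 73) (nat_lit 74) = true := by decide +kernel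
def p14_19_1_74 : pfC (piC [(nat_lit 37297016), (nat_lit 23751559), (nat_lit 15232604)] (nat_lit 11270119)) p14_19_1 (nat_lit 3) (nat_lit 74) (nat_lit 75) = true := by decide +kernel
def p14_19_1_75 : pfC (piC [(nat_lit 37297016), (nat_lit 23751559), (nat_lit 15232604)] (nat_lit 11270119)) p14_19_1 (nat_lit 3) (nat_lit 75) (nat_lit 76) = true := by decide +kernel
def p14_19_1_76 : pfC (piC [(nat_lit 37297016), (nat_lit 23751559), (nat_lit 15232604)] (nat_lit 11270119)) p14_19_1 (nat_lit 3) (nat_lit 76) (nat_lit 77) = true := by decide +kernel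
def p14_19_1_77 : pfC (piC [(nat_lit 37297016), (nat_lit 23751559), (nat_lit 15232604)] (nat_lit 11270119)) p14_19_1 (nat_lit 3) (nat_lit 77) (nat_lit 78) = true := by decide +kernel
def p14_19_1_78 : pfC (piC [(nat_lit 37297016), (nat_lit 23751559), (nat_lit 15232604)] (nat_lit 11270119)) p14_19_1 (nat_lit 3) (nat_lit 78) (nat_lit 79) = true := by decide +kernel
def p14_19_1_79 : pfC (piC [(nat_lit 37297016), (nat_lit 23751559), (nat_lit 15232604)] (nat_lit 11270119)) p14_19_1 (nat_lit 3) (nat_lit 79) (nat_lit 80) = true := by decide +kernel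
def p14_19_1_80 : pfC (piC [(nat_lit 37297016), (nat_lit 23751559), (nat_lit 15232604)] (nat_lit 11270119)) p14_19_1 (nat_lit 3) (nat_lit 80) (nat_lit 81) = true := by decide +kernel
def p14_19_1_81 : pfC (piC [(nat_lit 37297016), (nat_lit 23751559), (nat_lit 15232604)] (nat_lit 11270119)) p14_19_1 (nat_lit 3) (nat_lit 81) (nat_lit 82) = true := by decide +kernel
def p14_19_1_82 : pfC (piC [(nat_lit 37297016), (nat_lit 23751559), (nat_lit 15232604)] (nat_lit 11270119)) p14_19_1 (nat_lit 3) (nat_lit 82) (nat_lit 83) = true := by decide +kernel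
def p14_19_1_83 : pfC (piC [(nat_lit 37297016), (nat_lit 23751559), (nat_lit 15232604)] (nat_lit 11270119)) p14_19_1 (nat_lit 3) (nat_lit 83) (nat_lit 84) = true := by decide +kernel
def p14_19_1_84 : pfC (piC [(nat_lit 37297016), (nat_lit 23751559), (nat_lit 15232604)] (nat_lit 11270119)) p14_19_1 (nat_lit 3) (nat_lit 84) (nat_lit 85) = true := by decide +kernel
def p14_19_1_85 : pfC (piC [(nat_lit 37297016), (nat_lit 23751559), (nat_lit 15232604)] (nat_lit 11270119)) p14_19_1 (nat_lit 3) (nat_lit 85) (nat_lit 86) = true := by decide +kernel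
def p14_19_1_86 : pfC (piC [(nat_lit 37297016), (nat_lit 23751559), (nat_lit 15232604)] (nat_lit 11270119)) p14_19_1 (nat_lit 3) (nat_lit 86) (nat_lit 87) = true := by decide +kernel
def p14_19_1_87 : pfC (piC [(nat_lit 37297016), (nat_lit 23751559), (nat_lit 15232604)] (nat_lit 11270119)) p14_19_1 (nat_lit 3) (nat_lit 87) (nat_lit 88) = true := by decide +kernel
def p14_19_1_88 : pfC (piC [(nat_lit 37297016), (nat_lit 23751559), (nat_lit 15232604)] (nat_lit 11270119)) p14_19_1 (nat_lit 3) (nat_lit 88) (nat_lit 89) = true := by decide +kernel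
def p14_19_1_89 : pfC (piC [(nat_lit 37297016), (nat_lit 23751559), (nat_lit 15232604)] (nat_lit 11270119)) p14_19_1 (nat_lit 3) (nat_lit 89) (nat_lit 90) = true := by decide +kernel
def p14_19_1_90 : pfC (piC [(nat_lit 37297016), (nat_lit 23751559), (nat_lit 15232604)] (nat_lit 11270119)) p14_19_1 (nat_lit 3) (nat_lit 90) (nat_lit 91) = true := by decide +kernel
def p14_19_1_91 : pfC (piC [(nat_lit 37297016), (nat_lit 23751559), (nat_lit 15232604)] (nat_lit 11270119)) p14_19_1 (nat_lit 3) (nat_lit 91) (nat_lit 92) = true := by decide +kernel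
def p14_19_1_92 : pfC (piC [(nat_lit 37297016), (nat_lit 23751559), (nat_lit 15232604)] (nat_lit 11270119)) p14_19_1 (nat_lit 3) (nat_lit 92) (nat_lit 93) = true := by decide +kernel
def p14_19_1_93 : pfC (piC [(nat_lit 37297016), (nat_lit 23751559), (nat_lit 15232604)] (nat_lit 11270119)) p14_19_1 (nat_lit 3) (nat_lit 93) (nat_lit 94) = true := by decide +kernel
def p14_19_1_94 : pfC (piC [(nat_lit 37297016), (nat_lit 23751559), (nat_lit 15232604)] (nat_lit 11270119)) p14_19_1 (nat_lit 3) (nat_lit 94) (nat_lit 95) = true := by decide +kernel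
def p14_19_1_95 : pfC (piC [(nat_lit 37297016), (nat_lit 23751559), (nat_lit 15232604)] (nat_lit 11270119)) p14_19_1 (nat_lit 3) (nat_lit 95) (nat_lit 96) = true := by decide +kernel
def p14_19_1_96 : pfC (piC [(nat_lit 37297016), (nat_lit 23751559), (nat_lit 15232604)] (nat_lit 11270119)) p14_19_1 (nat_lit 3) (nat_lit 96) (nat_lit 97) = true := by decide +kernel
def p14_19_1_97 : pfC (piC [(nat_lit 37297016), (nat_lit 23751559), (nat_lit 15232604)] (nat_lit 11270119)) p14_19_1 (nat_lit 3) (nat_lit 97) (nat_lit 98) = true := by decide +kernel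
def p14_19_1_98 : pfC (piC [(nat_lit 37297016), (nat_lit 23751559), (nat_lit 15232604)] (nat_lit 11270119)) p14_19_1 (nat_lit 3) (nat_lit 98) (nat_lit 99) = true := by decide +kernel
def p14_19_1_99 : pfC (piC [(nat_lit 37297016), (nat_lit 23751559), (nat_lit 15232604)] (nat_lit 11270119)) p14_19_1 (nat_lit 3) (nat_lit 99) (nat_lit 100) = true := by decide +kernel
def p14_19_1_100 : pfC (piC [(nat_lit 37297016), (nat_lit 23751559), (nat_lit 15232604)] (nat_lit 11270119)) p14_19_1 (nat_lit 3) (nat_lit 100) (nat_lit 101) = true := by decide +kernel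
def p14_19_1_101 : pfC (piC [(nat_lit 37297016), (nat_lit 23751559), (nat_lit 15232604)] (nat_lit 11270119)) p14_19_1 (nat_lit 3) (nat_lit 101) (nat_lit 102) = true := by decide +kernel
def p14_19_1_102 : pfC (piC [(nat_lit 37297016), (nat_lit 23751559), (nat_lit 15232604)] (nat_lit 11270119)) p14_19_1 (nat_lit 3) (nat_lit 102) (nat_lit 103) = true := by decide +kernel
def p14_19_1_103 : pfC (piC [(nat_lit 37297016), (nat_lit 23751559), (nat_lit 15232604)] (nat_lit 11270119)) p14_19_1 (nat_lit 3) (nat_lit 103) (nat_lit 104) = true := by decide +kernel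
def p14_19_1_104 : pfC (piC [(nat_lit 37297016), (nat_lit 23751559), (nat_lit 15232604)] (nat_lit 11270119)) p14_19_1 (nat_lit 3) (nat_lit 104) (nat_lit 105) = true := by decide +kernel
def p14_19_1_105 : pfC (piC [(nat_lit 37297016), (nat_lit 23751559), (nat_lit 15232604)] (nat_lit 11270119)) p14_19_1 (nat_lit 3) (nat_lit 105) (nat_lit 106) = true := by decide +kernel
def p14_19_1_106 : pfC (piC [(nat_lit 37297016), (nat_lit 23751559), (nat_lit 15232604)] (nat_lit 11270119)) p14_19_1 (nat_lit 3) (nat_lit 106) (nat_lit 107) = true := by decide +kernel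
def p14_19_1_107 : pfC (piC [(nat_lit 37297016), (nat_lit 23751559), (nat_lit 15232604)] (nat_lit 11270119)) p14_19_1 (nat_lit 3) (nat_lit 107) (nat_lit 108) = true := by decide +kernel
def p14_19_1_108 : pfC (piC [(nat_lit 37297016), (nat_lit 23751559), (nat_lit 15232604)] (nat_lit 11270119)) p14_19_1 (nat_lit 3) (nat_lit 108) (nat_lit 109) = true := by decide +kernel
def p14_19_1_109 : pfC (piC [(nat_lit 37297016), (nat_lit 23751559), (nat_lit 15232604)] (nat_lit 11270119)) p14_19_1 (nat_lit 3) (nat_lit 109) (nat_lit 110) = true := by decide +kernel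
def p14_19_1_110 : pfC (piC [(nat_lit 37297016), (nat_lit 23751559), (nat_lit 15232604)] (nat_lit 11270119)) p14_19_1 (nat_lit 3) (nat_lit 110) (nat_lit 111) = true := by decide +kernel
def p14_19_1_111 : pfC (piC [(nat_lit 37297016), (nat_lit 23751559), (nat_lit 15232604)] (nat_lit 11270119)) p14_19_1 (nat_lit 3) (nat_lit 111) (nat_lit 112) = true := by decide +kernel
def p14_19_1_112 : pfC (piC [(nat_lit 37297016), (nat_lit 23751559), (nat_lit 15232604)] (nat_lit 11270119)) p14_19_1 (nat_lit 3) (nat_lit 112) (nat_lit 113) = true := by decide +kernel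
def p14_19_1_113 : pfC (piC [(nat_lit 37297016), (nat_lit 23751559), (nat_lit 15232604)] (nat_lit 11270119)) p14_19_1 (nat_lit 3) (nat_lit 113) (nat_lit 114) = true := by decide +kernel
def p14_19_1_114 : pfC (piC [(nat_lit 37297016), (nat_lit 23751559), (nat_lit 15232604)] (nat_lit 11270119)) p14_19_1 (nat_lit 3) (nat_lit 114) (nat_lit 115) = true := by decide +kernel
def p14_19_1_115 : pfC (piC [(nat_lit 37297016), (nat_lit 23751559), (nat_lit 15232604)] (nat_lit 11270119)) p14_19_1 (nat_lit 3) (nat_lit 115) (nat_lit 116) = true := by decide +kernel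
def p14_19_1_116 : pfC (piC [(nat_lit 37297016), (nat_lit 23751559), (nat_lit 15232604)] (nat_lit 11270119)) p14_19_1 (nat_lit 3) (nat_lit 116) (nat_lit 117) = true := by decide +kernel
def p14_19_1_117 : pfC (piC [(nat_lit 37297016), (nat_lit 23751559), (nat_lit 15232604)] (nat_lit 11270119)) p14_19_1 (nat_lit 3) (nat_lit 117) (nat_lit 118) = true := by decide +kernel
def p14_19_1_118 : pfC (piC [(nat_lit 37297016), (nat_lit 23751559), (nat_lit 15232604)] (nat_lit 11270119)) p14_19_1 (nat_lit 3) (nat_lit 118) (nat_lit 119) = true := by decide +kernel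
def p14_19_1_119 : pfC (piC [(nat_lit 37297016), (nat_lit 23751559), (nat_lit 15232604)] (nat_lit 11270119)) p14_19_1 (nat_lit 3) (nat_lit 119) (nat_lit 120) = true := by decide +kernel
def p14_19_1_120 : pfC (piC [(nat_lit 37297016), (nat_lit 23751559), (nat_lit 15232604)] (nat_lit 11270119)) p14_19_1 (nat_lit 3) (nat_lit 120) (nat_lit 121) = true := by decide +kernel
def p14_19_1_121 : pfC (piC [(nat_lit 37297016), (nat_lit 23751559), (nat_lit 15232604)] (nat_lit 11270119)) p14_19_1 (nat_lit 3) (nat_lit 121) (nat_lit 122) = true := by decide +kernel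
def p14_19_1_122 : pfC (piC [(nat_lit 37297016), (nat_lit 23751559), (nat_lit 15232604)] (nat_lit 11270119)) p14_19_1 (nat_lit 3) (nat_lit 122) (nat_lit 123) = true := by decide +kernel
def p14_19_1_123 : pfC (piC [(nat_lit 37297016), (nat_lit 23751559), (nat_lit 15232604)] (nat_lit 11270119)) p14_19_1 (nat_lit 3) (nat_lit 123) (nat_lit 124) = true := by decide +kernel
def p14_19_1_124 : pfC (piC [(nat_lit 37297016), (nat_lit 23751559), (nat_lit 15232604)] (nat_lit 11270119)) p14_19_1 (nat_lit 3) (nat_lit 124) (nat_lit 125) = true := by decide +kernel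
def p14_19_1_125 : pfC (piC [(nat_lit 37297016), (nat_lit 23751559), (nat_lit 15232604)] (nat_lit 11270119)) p14_19_1 (nat_lit 3) (nat_lit 125) (nat_lit 126) = true := by decide +kernel
def p14_19_1_126 : pfC (piC [(nat_lit 37297016), (nat_lit 23751559), (nat_lit 15232604)] (nat_lit 11270119)) p14_19_1 (nat_lit 3) (nat_lit 126) (nat_lit 127) = true := by decide +kernel
def p14_19_1_127 : pfC (piC [(nat_lit 37297016), (nat_lit 23751559), (nat_lit 15232604)] (nat_lit 11270119)) p14_19_1 (nat_lit 3) (nat_lit 127) (nat_lit 128) = true := by decide +kernel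
def p14_19_1_128 : pfC (piC [(nat_lit 37297016), (nat_lit 23751559), (nat_lit 15232604)] (nat_lit 11270119)) p14_19_1 (nat_lit 3) (nat_lit 128) (nat_lit 129) = true := by decide +kernel
def p14_19_1_129 : pfC (piC [(nat_lit 37297016), (nat_lit 23751559), (nat_lit 15232604)] (nat_lit 11270119)) p14_19_1 (nat_lit 3) (nat_lit 129) (nat_lit 130) = true := by decide +kernel
def p14_19_1_130 : pfC (piC [(nat_lit 37297016), (nat_lit 23751559), (nat_lit 15232604)] (nat_lit 11270119)) p14_19_1 (nat_lit 3) (nat_lit 130) (nat_lit 131) = true := by decide +kernel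
def p14_19_1_131 : pfC (piC [(nat_lit 37297016), (nat_lit 23751559), (nat_lit 15232604)] (nat_lit 11270119)) p14_19_1 (nat_lit 3) (nat_lit 131) (nat_lit 132) = true := by decide +kernel
def p14_19_1_132 : pfC (piC [(nat_lit 37297016), (nat_lit 23751559), (nat_lit 15232604)] (nat_lit 11270119)) p14_19_1 (nat_lit 3) (nat_lit 132) (nat_lit 133) = true := by decide +kernel
def p14_19_1_133 : pfC (piC [(nat_lit 37297016), (nat_lit 23751559), (nat_lit 15232604)] (nat_lit 11270119)) p14_19_1 (nat_lit 3) (nat_lit 133) (nat_lit 134) = true := by decide +kernel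
def p14_19_1_134 : pfC (piC [(nat_lit 37297016), (nat_lit 23751559), (nat_lit 15232604)] (nat_lit 11270119)) p14_19_1 (nat_lit 3) (nat_lit 134) (nat_lit 135) = true := by decide +kernel
def p14_19_1_135 : pfC (piC [(nat_lit 37297016), (nat_lit 23751559), (nat_lit 15232604)] (nat_lit 11270119)) p14_19_1 (nat_lit 3) (nat_lit 135) (nat_lit 136) = true := by decide +kernel
def p14_19_1_136 : pfC (piC [(nat_lit 37297016), (nat_lit 23751559), (nat_lit 15232604)] (nat_lit 11270119)) p14_19_1 (nat_lit 3) (nat_lit 136) (nat_lit 137) = true := by decide +kernel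
def p14_19_1_137 : pfC (piC [(nat_lit 37297016), (nat_lit 23751559), (nat_lit 15232604)] (nat_lit 11270119)) p14_19_1 (nat_lit 3) (nat_lit 137) (nat_lit 138) = true := by decide +kernel
def p14_19_1_138 : pfC (piC [(nat_lit 37297016), (nat_lit 23751559), (nat_lit 15232604)] (nat_lit 11270119)) p14_19_1 (nat_lit 3) (nat_lit 138) (nat_lit 139) = true := by decide +kernel
def p14_19_1_139 : pfC (piC [(nat_lit 37297016), (nat_lit 23751559), (nat_lit 15232604)] (nat_lit 11270119)) p14_19_1 (nat_lit 3) (nat_lit 139) (nat_lit 140) = true := by decide +kernel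
def p14_19_1_140 : pfC (piC [(nat_lit 37297016), (nat_lit 23751559), (nat_lit 15232604)] (nat_lit 11270119)) p14_19_1 (nat_lit 3) (nat_lit 140) (nat_lit 141) = true := by decide +kernel
def p14_19_1_141 : pfC (piC [(nat_lit 37297016), (nat_lit 23751559), (nat_lit 15232604)] (nat_lit 11270119)) p14_19_1 (nat_lit 3) (nat_lit 141) (nat_lit 142) = true := by decide +kernel
def p14_19_1_142 : pfC (piC [(nat_lit 37297016), (nat_lit 23751559), (nat_lit 15232604)] (nat_lit 11270119)) p14_19_1 (nat_lit 3) (nat_lit 142) (nat_lit 143) = true := by decide +kernel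
def p14_19_1_143 : pfC (piC [(nat_lit 37297016), (nat_lit 23751559), (nat_lit 15232604)] (nat_lit 11270119)) p14_19_1 (nat_lit 3) (nat_lit 143) (nat_lit 144) = true := by decide +kernel
def p14_19_1_144 : pfC (piC [(nat_lit 37297016), (nat_lit 23751559), (nat_lit 15232604)] (nat_lit 11270119)) p14_19_1 (nat_lit 3) (nat_lit 144) (nat_lit 145) = true := by decide +kernel
def p14_19_1_145 : pfC (piC [(nat_lit 37297016), (nat_lit 23751559), (nat_lit 15232604)] (nat_lit 11270119)) p14_19_1 (nat_lit 3) (nat_lit 145) (nat_lit 146) = true := by decide +kernel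
def p14_19_1_146 : pfC (piC [(nat_lit 37297016), (nat_lit 23751559), (nat_lit 15232604)] (nat_lit 11270119)) p14_19_1 (nat_lit 3) (nat_lit 146) (nat_lit 147) = true := by decide +kernel
def p14_19_1_147 : pfC (piC [(nat_lit 37297016), (nat_lit 23751559), (nat_lit 15232604)] (nat_lit 11270119)) p14_19_1 (nat_lit 3) (nat_lit 147) (nat_lit 148) = true := by decide +kernel
def p14_19_1_148 : pfC (piC [(nat_lit 37297016), (nat_lit 23751559), (nat_lit 15232604)] (nat_lit 11270119)) p14_19_1 (nat_lit 3) (nat_lit 148) (nat_lit 149) = true := by decide +kernel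
def p14_19_1_149 : pfC (piC [(nat_lit 37297016), (nat_lit 23751559), (nat_lit 15232604)] (nat_lit 11270119)) p14_19_1 (nat_lit 3) (nat_lit 149) (nat_lit 150) = true := by decide +kernel
def p14_19_1_150 : pfC (piC [(nat_lit 37297016), (nat_lit 23751559), (nat_lit 15232604)] (nat_lit 11270119)) p14_19_1 (nat_lit 3) (nat_lit 150) (nat_lit 151) = true := by decide +kernel
def p14_19_1_151 : pfC (piC [(nat_lit 37297016), (nat_lit 23751559), (nat_lit 15232604)] (nat_lit 11270119)) p14_19_1 (nat_lit 3) (nat_lit 151) (nat_lit 152) = true := by decide +kernel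
def p14_19_1_152 : pfC (piC [(nat_lit 37297016), (nat_lit 23751559), (nat_lit 15232604)] (nat_lit 11270119)) p14_19_1 (nat_lit 3) (nat_lit 152) (nat_lit 153) = true := by decide +kernel
def p14_19_1_153 : pfC (piC [(nat_lit 37297016), (nat_lit 23751559), (nat_lit 15232604)] (nat_lit 11270119)) p14_19_1 (nat_lit 3) (nat_lit 153) (nat_lit 154) = true := by decide +kernel
def p14_19_1_154 : pfC (piC [(nat_lit 37297016), (nat_lit 23751559), (nat_lit 15232604)] (nat_lit 11270119)) p14_19_1 (nat_lit 3) (nat_lit 154) (nat_lit 155) = true := by decide +kernel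
def p14_19_1_155 : pfC (piC [(nat_lit 37297016), (nat_lit 23751559), (nat_lit 15232604)] (nat_lit 11270119)) p14_19_1 (nat_lit 3) (nat_lit 155) (nat_lit 156) = true := by decide +kernel
def p14_19_1_156 : pfC (piC [(nat_lit 37297016), (nat_lit 23751559), (nat_lit 15232604)] (nat_lit 11270119)) p14_19_1 (nat_lit 3) (nat_lit 156) (nat_lit 157) = true := by decide +kernel
def p14_19_1_157 : pfC (piC [(nat_lit 37297016), (nat_lit 23751559), (nat_lit 15232604)] (nat_lit 11270119)) p14_19_1 (nat_lit 3) (nat_lit 157) (nat_lit 158) = true := by decide +kernel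
def p14_19_1_158 : pfC (piC [(nat_lit 37297016), (nat_lit 23751559), (nat_lit 15232604)] (nat_lit 11270119)) p14_19_1 (nat_lit 3) (nat_lit 158) (nat_lit 159) = true := by decide +kernel
def p14_19_1_159 : pfC (piC [(nat_lit 37297016), (nat_lit 23751559), (nat_lit 15232604)] (nat_lit 11270119)) p14_19_1 (nat_lit 3) (nat_lit 159) (nat_lit 160) = true := by decide +kernel
def p14_19_1_160 : pfC (piC [(nat_lit 37297016), (nat_lit 23751559), (nat_lit 15232604)] (nat_lit 11270119)) p14_19_1 (nat_lit 3) (nat_lit 160) (nat_lit 161) = true := by decide +kernel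
def p14_19_1_161 : pfC (piC [(nat_lit 37297016), (nat_lit 23751559), (nat_lit 15232604)] (nat_lit 11270119)) p14_19_1 (nat_lit 3) (nat_lit 161) (nat_lit 162) = true := by decide +kernel
def p14_19_1_162 : pfC (piC [(nat_lit 37297016), (nat_lit 23751559), (nat_lit 15232604)] (nat_lit 11270119)) p14_19_1 (nat_lit 3) (nat_lit 162) (nat_lit 163) = true := by decide +kernel
def p14_19_1_163 : pfC (piC [(nat_lit 37297016), (nat_lit 23751559), (nat_lit 15232604)] (nat_lit 11270119)) p14_19_1 (nat_lit 3) (nat_lit 163) (nat_lit 164) = true := by decide +kernel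
def p14_19_1_164 : pfC (piC [(nat_lit 37297016), (nat_lit 23751559), (nat_lit 15232604)] (nat_lit 11270119)) p14_19_1 (nat_lit 3) (nat_lit 164) (nat_lit 165) = true := by decide +kernel
def p14_19_1_165 : pfC (piC [(nat_lit 37297016), (nat_lit 23751559), (nat_lit 15232604)] (nat_lit 11270119)) p14_19_1 (nat_lit 3) (nat_lit 165) (nat_lit 166) = true := by decide +kernel
def p14_19_1_166 : pfC (piC [(nat_lit 37297016), (nat_lit 23751559), (nat_lit 15232604)] (nat_lit 11270119)) p14_19_1 (nat_lit 3) (nat_lit 166) (nat_lit 167) = true := by decide +kernel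
def p14_19_1_167 : pfC (piC [(nat_lit 37297016), (nat_lit 23751559), (nat_lit 15232604)] (nat_lit 11270119)) p14_19_1 (nat_lit 3) (nat_lit 167) (nat_lit 168) = true := by decide +kernel
def p14_19_1_168 : pfC (piC [(nat_lit 37297016), (nat_lit 23751559), (nat_lit 15232604)] (nat_lit 11270119)) p14_19_1 (nat_lit 3) (nat_lit 168) (nat_lit 169) = true := by decide +kernel
def p14_19_1_169 : pfC (piC [(nat_lit 37297016), (nat_lit 23751559), (nat_lit 15232604)] (nat_lit 11270119)) p14_19_1 (nat_lit 3) (nat_lit 169) (nat_lit 170) = true := by decide +kernel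
def p14_19_1_170 : pfC (piC [(nat_lit 37297016), (nat_lit 23751559), (nat_lit 15232604)] (nat_lit 11270119)) p14_19_1 (nat_lit 3) (nat_lit 170) (nat_lit 171) = true := by decide +kernel
def p14_19_1_171 : pfC (piC [(nat_lit 37297016), (nat_lit 23751559), (nat_lit 15232604)] (nat_lit 11270119)) p14_19_1 (nat_lit 3) (nat_lit 171) (nat_lit 172) = true := by decide +kernel
def p14_19_1_172 : pfC (piC [(nat_lit 37297016), (nat_lit 23751559), (nat_lit 15232604)] (nat_lit 11270119)) p14_19_1 (nat_lit 3) (nat_lit 172) (nat_lit 173) = true := by decide +kernel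
def p14_19_1_173 : pfC (piC [(nat_lit 37297016), (nat_lit 23751559), (nat_lit 15232604)] (nat_lit 11270119)) p14_19_1 (nat_lit 3) (nat_lit 173) (nat_lit 174) = true := by decide +kernel
def p14_19_1_174 : pfC (piC [(nat_lit 37297016), (nat_lit 23751559), (nat_lit 15232604)] (nat_lit 11270119)) p14_19_1 (nat_lit 3) (nat_lit 174) (nat_lit 175) = true := by decide +kernel
def p14_19_1_175 : pfC (piC [(nat_lit 37297016), (nat_lit 23751559), (nat_lit 15232604)] (nat_lit 11270119)) p14_19_1 (nat_lit 3) (nat_lit 175) (nat_lit 176) = true := by decide +kernel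
def p14_19_1_176 : pfC (piC [(nat_lit 37297016), (nat_lit 23751559), (nat_lit 15232604)] (nat_lit 11270119)) p14_19_1 (nat_lit 3) (nat_lit 176) (nat_lit 177) = true := by decide +kernel
def p14_19_1_177 : pfC (piC [(nat_lit 37297016), (nat_lit 23751559), (nat_lit 15232604)] (nat_lit 11270119)) p14_19_1 (nat_lit 3) (nat_lit 177) (nat_lit 178) = true := by decide +kernel
def p14_19_1_178 : pfC (piC [(nat_lit 37297016), (nat_lit 23751559), (nat_lit 15232604)] (nat_lit 11270119)) p14_19_1 (nat_lit 3) (nat_lit 178) (nat_lit 179) = true := by decide +kernel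
def p14_19_1_179 : pfC (piC [(nat_lit 37297016), (nat_lit 23751559), (nat_lit 15232604)] (nat_lit 11270119)) p14_19_1 (nat_lit 3) (nat_lit 179) (nat_lit 180) = true := by decide +kernel
def p14_19_1_180 : pfC (piC [(nat_lit 37297016), (nat_lit 23751559), (nat_lit 15232604)] (nat_lit 11270119)) p14_19_1 (nat_lit 3) (nat_lit 180) (nat_lit 181) = true := by decide +kernel
def p14_19_1_181 : pfC (piC [(nat_lit 37297016), (nat_lit 23751559), (nat_lit 15232604)] (nat_lit 11270119)) p14_19_1 (nat_lit 3) (nat_lit 181) (nat_lit 182) = true := by decide +kernel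
def p14_19_1_182 : pfC (piC [(nat_lit 37297016), (nat_lit 23751559), (nat_lit 15232604)] (nat_lit 11270119)) p14_19_1 (nat_lit 3) (nat_lit 182) (nat_lit 183) = true := by decide +kernel
def p14_19_1_183 : pfC (piC [(nat_lit 37297016), (nat_lit 23751559), (nat_lit 15232604)] (nat_lit 11270119)) p14_19_1 (nat_lit 3) (nat_lit 183) (nat_lit 184) = true := by decide +kernel
def p14_19_1_184 : pfC (piC [(nat_lit 37297016), (nat_lit 23751559), (nat_lit 15232604)] (nat_lit 11270119)) p14_19_1 (nat_lit 3) (nat_lit 184) (nat_lit 185) = true := by decide +kernel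
def p14_19_1_185 : pfC (piC [(nat_lit 37297016), (nat_lit 23751559), (nat_lit 15232604)] (nat_lit 11270119)) p14_19_1 (nat_lit 3) (nat_lit 185) (nat_lit 186) = true := by decide +kernel
def p14_19_1_186 : pfC (piC [(nat_lit 37297016), (nat_lit 23751559), (nat_lit 15232604)] (nat_lit 11270119)) p14_19_1 (nat_lit 3) (nat_lit 186) (nat_lit 187) = true := by decide +kernel
def p14_19_1_187 : pfC (piC [(nat_lit 37297016), (nat_lit 23751559), (nat_lit 15232604)] (nat_lit 11270119)) p14_19_1 (nat_lit 3) (nat_lit 187) (nat_lit 188) = true := by decide +kernel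
theorem p14_19_1_T : PfS (PiF n14_19.reverse (nat_lit 11270119)) p14_19_1 (nat_lit 3) [] 0 :=
  pftab_of (los := [(nat_lit 37297016), (nat_lit 23751559), (nat_lit 15232604)]) (by decide +kernel) (hi := (nat_lit 188)) (PfP.trans (PfP.trans (PfP.trans (PfP.trans (PfP.trans (PfP.trans (PfP.trans (PfP.trans (PfP.trans (PfP.trans (PfP.trans (PfP.trans (PfP.trans (PfP.trans (PfP.trans (PfP.trans (PfP.trans (PfP.trans (PfP.trans (PfP.trans (PfP.trans (PfP.trans (PfP.trans (PfP.trans (PfP.trans (PfP.trans (PfP.trans (PfP.trans (PfP.trans (PfP.trans (PfP.trans (PfP.trans (PfP.trans (PfP.trans (PfP.trans (PfP.trans (PfP.trans (PfP.trans (PfP.trans (PfP.trans (PfP.trans (PfP.trans (PfP.trans (PfP.trans (PfP.trans (PfP.trans (PfP.trans (PfP.trans (PfP.trans (PfP.trans (PfP.trans (PfP.trans (PfP.trans (PfP.trans (PfP.trans (PfP.trans (PfP.trans (PfP.trans (PfP.trans (PfP.trans (PfP.trans (PfP.trans (PfP.trans (PfP.trans (PfP.trans (PfP.trans (PfP.trans (PfP.trans (PfP.trans (PfP.trans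 (PfP.trans (PfP.trans (PfP.trans (PfP.trans (PfP.trans (PfP.trans (PfP.trans (PfP.trans (PfP.trans (PfP.trans (PfP.trans (PfP.trans (PfP.trans (PfP.trans (PfP.trans (PfP.trans (PfP.trans (PfP.trans (PfP.trans (PfP.trans (PfP.trans (PfP.trans (PfP.trans (PfP.trans (PfP.trans (PfP.trans (PfP.trans (PfP.trans (PfP.trans (PfP.trans (PfP.trans (PfP.trans (PfP.trans (PfP.trans (PfP.trans (PfP.trans (PfP.trans (PfP.trans (PfP.trans
 (PfP.trans (PfP.trans (PfP.trans (PfP.trans (PfP.trans (PfP.trans (PfP.trans (PfP.trans (PfP.trans (PfP.trans (PfP.trans (PfP.trans (PfP.trans (PfP.trans (PfP.trans (PfP.trans (PfP.trans (PfP.trans (PfP.trans (PfP.trans (PfP.trans (PfP.trans (PfP.trans (PfP.trans (PfP.trans (PfP.trans (PfP.trans (PfP.trans (PfP.trans (PfP.trans (PfP.trans (PfP.trans (PfP.trans (PfP.trans (PfP.trans (PfP.trans (PfP.trans (PfP.trans (PfP.trans (PfP.trans (PfP.trans (PfP.trans (PfP.trans (PfP.trans (PfP.trans (PfP.trans (PfP.trans (PfP.trans (PfP.trans (PfP.trans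 (PfP.trans (PfP.trans (PfP.trans (PfP.trans (PfP.trans (PfP.trans (PfP.trans (PfP.trans (PfP.trans (PfP.trans (PfP.trans (PfP.trans (PfP.trans (PfP.trans (PfP.trans (PfP.trans (PfP.trans (PfP.trans (PfP.trans (PfP.trans (PfP.trans (PfP.trans (PfP.trans (PfP.trans (PfP.trans (PfP.trans (PfP.trans (PfP.trans (pfC_sound p14_19_1_0) (pfC_sound p14_19_1_1)) (pfC_sound p14_19_1_2)) (pfC_sound p14_19_1_3)) (pfC_sound p14_19_1_4)) (pfC_sound p14_19_1_5)) (pfC_sound p14_19_1_6)) (pfC_sound p14_19_1_7)) (pfC_sound p14_19_1_8)) (pfC_sound p14_19_1_9)) (pfC_sound p14_19_1_10)) (pfC_sound p14_19_1_11)) (pfC_sound p14_19_1_12)) (pfC_sound p14_19_1_13))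
 (pfC_sound p14_19_1_14)) (pfC_sound p14_19_1_15)) (pfC_sound p14_19_1_16)) (pfC_sound p14_19_1_17)) (pfC_sound p14_19_1_18)) (pfC_sound p14_19_1_19)) (pfC_sound p14_19_1_20)) (pfC_sound p14_19_1_21)) (pfC_sound p14_19_1_22)) (pfC_sound p14_19_1_23)) (pfC_sound p14_19_1_24)) (pfC_sound p14_19_1_25)) (pfC_sound p14_19_1_26)) (pfC_sound p14_19_1_27)) (pfC_sound p14_19_1_28)) (pfC_sound p14_19_1_29)) (pfC_sound p14_19_1_30)) (pfC_sound p14_19_1_31)) (pfC_sound p14_19_1_32)) (pfC_sound p14_19_1_33)) (pfC_sound p14_19_1_34)) (pfC_sound p14_19_1_35)) (pfC_sound p14_19_1_36)) (pfC_sound p14_19_1_37)) (pfC_sound p14_19_1_38)) (pfC_sound p14_19_1_39)) (pfC_sound p14_19_1_40)) (pfC_sound p14_19_1_41)) (pfC_sound p14_19_1_42)) (pfC_sound p14_19_1_43)) (pfC_sound p14_19_1_44)) (pfC_sound p14_19_1_45)) (pfC_sound p14_19_1_46)) (pfC_sound p14_19_1_47)) (pfC_sound p14_19_1_48)) (pfC_sound p14_19_1_49)) (pfC_sound p14_19_1_50)) (pfC_sound p14_19_1_51)) (pfC_sound p14_19_1_52)) (pfC_sound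 p14_19_1_53)) (pfC_sound p14_19_1_54)) (pfC_sound p14_19_1_55)) (pfC_sound p14_19_1_56)) (pfC_sound p14_19_1_57)) (pfC_sound p14_19_1_58)) (pfC_sound p14_19_1_59)) (pfC_sound p14_19_1_60)) (pfC_sound p14_19_1_61))
 (pfC_sound p14_19_1_62)) (pfC_sound p14_19_1_63)) (pfC_sound p14_19_1_64)) (pfC_sound p14_19_1_65)) (pfC_sound p14_19_1_66)) (pfC_sound p14_19_1_67)) (pfC_sound p14_19_1_68)) (pfC_sound p14_19_1_69)) (pfC_sound p14_19_1_70)) (pfC_sound p14_19_1_71)) (pfC_sound p14_19_1_72)) (pfC_sound p14_19_1_73)) (pfC_sound p14_19_1_74)) (pfC_sound p14_19_1_75)) (pfC_sound p14_19_1_76)) (pfC_sound p14_19_1_77)) (pfC_sound p14_19_1_78)) (pfC_sound p14_19_1_79)) (pfC_sound p14_19_1_80)) (pfC_sound p14_19_1_81)) (pfC_sound p14_19_1_82)) (pfC_sound p14_19_1_83)) (pfC_sound p14_19_1_84)) (pfC_sound p14_19_1_85)) (pfC_sound p14_19_1_86)) (pfC_sound p14_19_1_87)) (pfC_sound p14_19_1_88)) (pfC_sound p14_19_1_89)) (pfC_sound p14_19_1_90)) (pfC_sound p14_19_1_91)) (pfC_sound p14_19_1_92))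 (pfC_sound p14_19_1_93)) (pfC_sound p14_19_1_94)) (pfC_sound p14_19_1_95)) (pfC_sound p14_19_1_96)) (pfC_sound p14_19_1_97)) (pfC_sound p14_19_1_98)) (pfC_sound p14_19_1_99)) (pfC_sound p14_19_1_100)) (pfC_sound p14_19_1_101)) (pfC_sound p14_19_1_102)) (pfC_sound p14_19_1_103)) (pfC_sound p14_19_1_104)) (pfC_sound p14_19_1_105)) (pfC_sound p14_19_1_106)) (pfC_sound p14_19_1_107)) (pfC_sound p14_19_1_108)) (pfC_sound
 p14_19_1_109)) (pfC_sound p14_19_1_110)) (pfC_sound p14_19_1_111)) (pfC_sound p14_19_1_112)) (pfC_sound p14_19_1_113)) (pfC_sound p14_19_1_114)) (pfC_sound p14_19_1_115)) (pfC_sound p14_19_1_116)) (pfC_sound p14_19_1_117)) (pfC_sound p14_19_1_118)) (pfC_sound p14_19_1_119)) (pfC_sound p14_19_1_120)) (pfC_sound p14_19_1_121)) (pfC_sound p14_19_1_122)) (pfC_sound p14_19_1_123)) (pfC_sound p14_19_1_124)) (pfC_sound p14_19_1_125)) (pfC_sound p14_19_1_126)) (pfC_sound p14_19_1_127)) (pfC_sound p14_19_1_128)) (pfC_sound p14_19_1_129)) (pfC_sound p14_19_1_130))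 (pfC_sound p14_19_1_131)) (pfC_sound p14_19_1_132)) (pfC_sound p14_19_1_133)) (pfC_sound p14_19_1_134)) (pfC_sound p14_19_1_135)) (pfC_sound p14_19_1_136)) (pfC_sound p14_19_1_137)) (pfC_sound p14_19_1_138)) (pfC_sound p14_19_1_139)) (pfC_sound p14_19_1_140)) (pfC_sound p14_19_1_141)) (pfC_sound p14_19_1_142)) (pfC_sound p14_19_1_143)) (pfC_sound p14_19_1_144)) (pfC_sound p14_19_1_145)) (pfC_sound p14_19_1_146)) (pfC_sound p14_19_1_147)) (pfC_sound p14_19_1_148)) (pfC_sound p14_19_1_149)) (pfC_sound p14_19_1_150)) (pfC_sound p14_19_1_151)) (pfC_sound p14_19_1_152)) (pfC_sound p14_19_1_153)) (pfC_sound p14_19_1_154)) (pfC_sound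
 p14_19_1_155)) (pfC_sound p14_19_1_156)) (pfC_sound p14_19_1_157)) (pfC_sound p14_19_1_158)) (pfC_sound p14_19_1_159)) (pfC_sound p14_19_1_160)) (pfC_sound p14_19_1_161)) (pfC_sound p14_19_1_162)) (pfC_sound p14_19_1_163)) (pfC_sound p14_19_1_164)) (pfC_sound p14_19_1_165)) (pfC_sound p14_19_1_166)) (pfC_sound p14_19_1_167)) (pfC_sound p14_19_1_168)) (pfC_sound p14_19_1_169)) (pfC_sound p14_19_1_170)) (pfC_sound p14_19_1_171)) (pfC_sound p14_19_1_172)) (pfC_sound p14_19_1_173)) (pfC_sound p14_19_1_174)) (pfC_sound p14_19_1_175)) (pfC_sound p14_19_1_176)) (pfC_sound p14_19_1_177)) (pfC_sound p14_19_1_178)) (pfC_sound p14_19_1_179)) (pfC_sound p14_19_1_180)) (pfC_sound p14_19_1_181)) (pfC_sound p14_19_1_182)) (pfC_sound p14_19_1_183)) (pfC_sound p14_19_1_184)) (pfC_sound p14_19_1_185)) (pfC_sound p14_19_1_186)) (pfC_sound p14_19_1_187)) (by decide +kernel)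

def z14_19_1 : zOK yB14_19 (nat_lit 1) (nat_lit 400) (nat_lit 600) (nat_lit 11270119) (nat_lit 7133500) = true := by decide +kernel
def g14_19_1 : gOK yB14_19.x P14_19 (nat_lit 1381) (q14_19 :: r14_19) (nat_lit 1) (nat_lit 400) (nat_lit 2) (nat_lit 600) (nat_lit 11000000) (nat_lit 17850000) (nat_lit 12712500) (nat_lit 12712500) [(nat_lit 800), (nat_lit 1600)] = true := by decide +kernel
def v14_19_1 : ivC P14_19 s14_19 w14_19 n14_19 (nat_lit 3) (nat_lit 4880) (nat_lit 1) (nat_lit 400) f184_0_400 f192_0_400 (nat_lit 2) (nat_lit 600) f184_0_600 f192_0_600 (nat_lit 11270119) (nat_lit 7133500) p14_19_1 = true := by decide +kernel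
def p14_19_2 : PF := (PF.cons (PF.cons (PF.cons (PF.leaf (nat_lit 2554473) (nat_lit 13938577) (nat_lit 53170235) (nat_lit 13938577) [(nat_lit 0), (nat_lit 0), (nat_lit 0)]) (PF.cons (PF.leaf (nat_lit 2757612) (nat_lit 368946) (nat_lit 52807591) (nat_lit 13932274) [(nat_lit 368946), (nat_lit 0), (nat_lit 0)]) (PF.cons (PF.leaf (nat_lit 2996433) (nat_lit 400620) (nat_lit 52385184) (nat_lit 13922388) [(nat_lit 400620), (nat_lit 0), (nat_lit 0)]) (PF.cons (PF.leaf (nat_lit 3263849) (nat_lit 428468) (nat_lit 51915112) (nat_lit 13908296) [(nat_lit 428468), (nat_lit 0), (nat_lit 0)]) (PF.cons (PF.leaf (nat_lit 3555307) (nat_lit 453307) (nat_lit 51406085) (nat_lit 13889497) [(nat_lit 453307), (nat_lit 0), (nat_lit 0)]) (PF.cons (PF.leaf (nat_lit 3867321) (nat_lit 475659) (nat_lit 50864899) (nat_lit 13865615) [(nat_lit 475659), (nat_lit 0), (nat_lit 0)]) (PF.cons (PF.leaf (nat_lit 4197027) (nat_lit 495884) (nat_lit 50297119) (nat_lit 13836388) [(nat_lit 495884), (nat_lit 0),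 (nat_lit 0)]) (PF.cons (PF.leaf (nat_lit 4541957) (nat_lit 514242) (nat_lit 49707450) (nat_lit 13801662) [(nat_lit 514242), (nat_lit 0), (nat_lit 0)]) (PF.cons (PF.leaf (nat_lit 4899996) (nat_lit 530936) (nat_lit 49099947) (nat_lit
 13761375) [(nat_lit 530936), (nat_lit 0), (nat_lit 0)]) (PF.cons (PF.leaf (nat_lit 5269246) (nat_lit 546123) (nat_lit 48478153) (nat_lit 13715546) [(nat_lit 546123), (nat_lit 0), (nat_lit 0)]) (PF.cons (PF.leaf (nat_lit 5648003) (nat_lit 559935) (nat_lit 47845190) (nat_lit 13664264) [(nat_lit 559935), (nat_lit 0), (nat_lit 0)]) (PF.cons (PF.leaf (nat_lit 6034722) (nat_lit 572483) (nat_lit 47203821) (nat_lit 13607674) [(nat_lit 572483), (nat_lit 0), (nat_lit 0)]) (PF.cons (PF.leaf (nat_lit 6428056) (nat_lit 583861) (nat_lit 46556501) (nat_lit 13545968) [(nat_lit 583861), (nat_lit 0), (nat_lit 0)]) (PF.cons (PF.leaf (nat_lit 6826715) (nat_lit 594155) (nat_lit 45905415) (nat_lit 13479373) [(nat_lit 594155), (nat_lit 0), (nat_lit 0)]) (PF.cons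 (PF.leaf (nat_lit 7229554) (nat_lit 603440) (nat_lit 45252501) (nat_lit 13408145) [(nat_lit 603440), (nat_lit 0), (nat_lit 0)]) (PF.cons PF.nil (PF.cons PF.nil (PF.cons PF.nil PF.nil)))))))))))))))))) (PF.cons (PF.cons (PF.leaf (nat_lit 3301802) (nat_lit 1934318) (nat_lit 51300341) (nat_lit 13874153) [(nat_lit 0), (nat_lit 1934318), (nat_lit 0)]) (PF.cons (PF.leaf (nat_lit 3562548) (nat_lit 445623) (nat_lit 50836425) (nat_lit 13853285) [(nat_lit
 445623), (nat_lit 1973478), (nat_lit 0)]) (PF.cons (PF.leaf (nat_lit 3849162) (nat_lit 469021) (nat_lit 50332070) (nat_lit 13827391) [(nat_lit 469021), (nat_lit 2011306), (nat_lit 0)]) (PF.cons (PF.leaf (nat_lit 4156792) (nat_lit 489933) (nat_lit 49795611) (nat_lit 13796290) [(nat_lit 489933), (nat_lit 2047110), (nat_lit 0)]) (PF.cons (PF.leaf (nat_lit 4482165) (nat_lit 508764) (nat_lit 49233347) (nat_lit 13759869) [(nat_lit 508764), (nat_lit 2080539), (nat_lit 0)]) (PF.cons (PF.leaf (nat_lit 4822588) (nat_lit 525794) (nat_lit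 48650328) (nat_lit 13718088) [(nat_lit 525794), (nat_lit 2111424), (nat_lit 0)]) (PF.cons (PF.leaf (nat_lit 5175812) (nat_lit 541230) (nat_lit 48050748) (nat_lit 13670972) [(nat_lit 541230), (nat_lit 2139709), (nat_lit 0)]) (PF.cons (PF.leaf (nat_lit 5539896) (nat_lit 555232) (nat_lit 47438174) (nat_lit 13618611) [(nat_lit 555232), (nat_lit 2165401), (nat_lit 0)]) (PF.cons (PF.leaf (nat_lit 5913131) (nat_lit 567929) (nat_lit 46815685) (nat_lit 13561143) [(nat_lit 567929), (nat_lit 2188546), (nat_lit 0)]) (PF.cons (PF.leaf (nat_lit 6293975) (nat_lit 579430) (nat_lit 46185967) (nat_lit 13498750) [(nat_lit 579430), (nat_lit 2209219), (nat_lit 0)]) (PF.cons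
 (PF.leaf (nat_lit 6681065) (nat_lit 589827) (nat_lit 45551374) (nat_lit 13431650) [(nat_lit 589827), (nat_lit 2227509), (nat_lit 0)]) (PF.cons (PF.leaf (nat_lit 7073198) (nat_lit 599203) (nat_lit 44913978) (nat_lit 13360084) [(nat_lit 599203), (nat_lit 2243515), (nat_lit 0)]) (PF.cons (PF.leaf (nat_lit 7469230) (nat_lit 607628) (nat_lit 44275606) (nat_lit 13284317) [(nat_lit 607628), (nat_lit 2257344), (nat_lit 0)]) (PF.cons PF.nil (PF.cons PF.nil (PF.cons PF.nil PF.nil)))))))))))))))) (PF.cons (PF.cons (PF.leaf (nat_lit 4142828) (nat_lit 2054797) (nat_lit 49248795) (nat_lit 13750422) [(nat_lit 0), (nat_lit 2054797), (nat_lit 0)]) (PF.cons (PF.leaf (nat_lit 4443273) (nat_lit 501423) (nat_lit 48723966) (nat_lit 13713183) [(nat_lit 501423), (nat_lit 2085119), (nat_lit 0)]) (PF.cons (PF.leaf (nat_lit 4762569) (nat_lit 519220) (nat_lit 48172576) (nat_lit 13670595) [(nat_lit 519220), (nat_lit 2113599), (nat_lit 0)]) (PF.cons (PF.leaf (nat_lit 5097200) (nat_lit 535203) (nat_lit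 47600498) (nat_lit 13622749) [(nat_lit 535203), (nat_lit 2139976), (nat_lit 0)]) (PF.cons (PF.leaf (nat_lit 5444657) (nat_lit 549610) (nat_lit 47012342) (nat_lit 13569769) [(nat_lit 549610), (nat_lit 2164129),
 (nat_lit 0)]) (PF.cons (PF.leaf (nat_lit 5802859) (nat_lit 562618) (nat_lit 46411874) (nat_lit 13511811) [(nat_lit 562618), (nat_lit 2186018), (nat_lit 0)]) (PF.cons (PF.leaf (nat_lit 6170020) (nat_lit 574364) (nat_lit 45802248) (nat_lit 13449062) [(nat_lit 574364), (nat_lit 2205656), (nat_lit 0)]) (PF.cons (PF.leaf (nat_lit 6544593) (nat_lit 584962) (nat_lit 45186156) (nat_lit 13381739) [(nat_lit 584962), (nat_lit 2223091), (nat_lit 0)]) (PF.cons (PF.leaf (nat_lit 6925189) (nat_lit 594504) (nat_lit 44565916) (nat_lit 13310082) [(nat_lit 594504), (nat_lit 2238388), (nat_lit 0)]) (PF.cons (PF.leaf (nat_lit 7310597) (nat_lit 603074) (nat_lit 43943540) (nat_lit 13234345) [(nat_lit 603074), (nat_lit 2251630), (nat_lit 0)]) (PF.cons (PF.leaf (nat_lit 7699722) (nat_lit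 610742) (nat_lit 43320779) (nat_lit 13154796) [(nat_lit 610742), (nat_lit 2262904), (nat_lit 0)]) (PF.cons (PF.leaf (nat_lit 8091585) (nat_lit 617574) (nat_lit 42699163) (nat_lit 13071711) [(nat_lit 617574), (nat_lit 2272306), (nat_lit 0)]) (PF.cons PF.nil (PF.cons PF.nil PF.nil)))))))))))))) (PF.cons (PF.cons (PF.leaf (nat_lit 5039954) (nat_lit 2140696) (nat_lit 47117091) (nat_lit 13569632) [(nat_lit 0), (nat_lit
 2140696), (nat_lit 0)]) (PF.cons (PF.leaf (nat_lit 5366933) (nat_lit 542653) (nat_lit 46560145) (nat_lit 13516778) [(nat_lit 542653), (nat_lit 2163078), (nat_lit 0)]) (PF.cons (PF.leaf (nat_lit 5707503) (nat_lit 556247) (nat_lit 45986698) (nat_lit 13458917) [(nat_lit 556247), (nat_lit 2183567), (nat_lit 0)]) (PF.cons (PF.leaf (nat_lit 6059013) (nat_lit 568439) (nat_lit 45400960) (nat_lit 13396289) [(nat_lit 568439), (nat_lit 2202081), (nat_lit 0)]) (PF.cons (PF.leaf (nat_lit 6419505) (nat_lit 579386) (nat_lit 44806315) (nat_lit 13329139) [(nat_lit 579386),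 (nat_lit 2218604), (nat_lit 0)]) (PF.cons (PF.leaf (nat_lit 6787349) (nat_lit 589210) (nat_lit 44205563) (nat_lit 13257721) [(nat_lit 589210), (nat_lit 2233158), (nat_lit 0)]) (PF.cons (PF.leaf (nat_lit 7161136) (nat_lit 598014) (nat_lit 43601056) (nat_lit 13182295) [(nat_lit 598014), (nat_lit 2245791), (nat_lit 0)]) (PF.cons (PF.leaf (nat_lit 7539635) (nat_lit 605882) (nat_lit 42994799) (nat_lit 13103131) [(nat_lit 605882), (nat_lit 2256569), (nat_lit 0)]) (PF.cons (PF.leaf (nat_lit 7921745) (nat_lit 612886) (nat_lit 42388514) (nat_lit 13020503) [(nat_lit 612886), (nat_lit 2265566), (nat_lit 0)]) (PF.cons (PF.leaf (nat_lit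
 8306502) (nat_lit 619094) (nat_lit 41783682) (nat_lit 12934683) [(nat_lit 619094), (nat_lit 2272866), (nat_lit 0)]) (PF.cons PF.nil (PF.cons PF.nil PF.nil)))))))))))) (PF.cons (PF.cons (PF.leaf (nat_lit 5965743) (nat_lit 2198606) (nat_lit 44974955) (nat_lit 13339430) [(nat_lit 0), (nat_lit 2198606), (nat_lit 0)]) (PF.cons (PF.leaf (nat_lit 6309296) (nat_lit 572815) (nat_lit 44406480) (nat_lit 13273064) [(nat_lit 572815), (nat_lit 2214113), (nat_lit 0)]) (PF.cons (PF.leaf (nat_lit 6662439) (nat_lit 583109) (nat_lit 43828784) (nat_lit 13202372) [(nat_lit 583109), (nat_lit 2227859), (nat_lit 0)]) (PF.cons (PF.leaf (nat_lit 7023083) (nat_lit 592287) (nat_lit 43244911) (nat_lit 13127656) [(nat_lit 592287), (nat_lit 2239845), (nat_lit 0)]) (PF.cons (PF.leaf (nat_lit 7389728) (nat_lit 600461) (nat_lit 42657340) (nat_lit 13049207) [(nat_lit 600461), (nat_lit 2250104), (nat_lit 0)]) (PF.cons (PF.leaf (nat_lit 7761085) (nat_lit 607723) (nat_lit 42068135) (nat_lit 12967312) [(nat_lit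 607723), (nat_lit 2258687), (nat_lit 0)]) (PF.cons (PF.leaf (nat_lit 8136029) (nat_lit 614151) (nat_lit 41479029) (nat_lit 12882252) [(nat_lit 614151), (nat_lit 2265655), (nat_lit 0)]) (PF.cons (PF.leaf (nat_lit
 8513614) (nat_lit 619812) (nat_lit 40891496) (nat_lit 12794301) [(nat_lit 619812), (nat_lit 2271082), (nat_lit 0)]) (PF.cons PF.nil (PF.cons PF.nil PF.nil)))))))))) (PF.cons (PF.cons (PF.leaf (nat_lit 6899998) (nat_lit 2233828) (nat_lit 42870043) (nat_lit 13069628) [(nat_lit 0), (nat_lit 2233828), (nat_lit 0)]) (PF.cons (PF.leaf (nat_lit 7252590) (nat_lit 594279) (nat_lit 42304512) (nat_lit 12992389) [(nat_lit 594279), (nat_lit 2243526), (nat_lit 0)]) (PF.cons (PF.leaf (nat_lit 7611684) (nat_lit 601929) (nat_lit 41734978) (nat_lit 12911626) [(nat_lit 601929), (nat_lit 2251669), (nat_lit 0)]) (PF.cons (PF.leaf (nat_lit 7975640) (nat_lit 608679) (nat_lit 41163640) (nat_lit 12827653) [(nat_lit 608679), (nat_lit 2258296), (nat_lit 0)]) (PF.cons (PF.leaf (nat_lit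 8343278) (nat_lit 614612) (nat_lit 40592307) (nat_lit 12740762) [(nat_lit 614612), (nat_lit 2263458), (nat_lit 0)]) (PF.cons (PF.leaf (nat_lit 8713600) (nat_lit 619800) (nat_lit 40022482) (nat_lit 12651236) [(nat_lit 619800), (nat_lit 2267217), (nat_lit 0)]) (PF.cons PF.nil (PF.cons PF.nil PF.nil)))))))) (PF.cons (PF.cons (PF.leaf (nat_lit 7828072) (nat_lit 2250783) (nat_lit 40833861) (nat_lit 12770250) [(nat_lit 0), (nat_lit
 2250783), (nat_lit 0)]) (PF.cons (PF.leaf (nat_lit 8184050) (nat_lit 608818) (nat_lit 40281155) (nat_lit 12684816) [(nat_lit 608818), (nat_lit 2255670), (nat_lit 0)]) (PF.cons (PF.leaf (nat_lit 8544162) (nat_lit 614337) (nat_lit 39728119) (nat_lit 12596659) [(nat_lit 614337), (nat_lit 2259226), (nat_lit 0)]) (PF.cons (PF.leaf (nat_lit 8907121) (nat_lit 619123) (nat_lit 39176340) (nat_lit 12506071) [(nat_lit 619123), (nat_lit 2261505), (nat_lit 0)]) (PF.cons (PF.leaf (nat_lit 9271991) (nat_lit 623242) (nat_lit 38627123) (nat_lit 12413325) [(nat_lit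 623242), (nat_lit 2262565), (nat_lit 0)]) (PF.cons PF.nil PF.nil)))))) (PF.cons (PF.cons (PF.leaf (nat_lit 8739640) (nat_lit 2253184) (nat_lit 38886045) (nat_lit 12450477) [(nat_lit 0), (nat_lit 2253184), (nat_lit 0)]) (PF.cons (PF.leaf (nat_lit 9094830) (nat_lit 617831) (nat_lit 38352618) (nat_lit 12359307) [(nat_lit 617831), (nat_lit 2254150), (nat_lit 0)]) (PF.cons (PF.leaf (nat_lit 9452367) (nat_lit 621626) (nat_lit 37821388) (nat_lit 12266142) [(nat_lit 621626), (nat_lit 2254003), (nat_lit 0)]) (PF.cons PF.nil PF.nil)))) (PF.cons (PF.cons (PF.leaf (nat_lit 9627704) (nat_lit 2244125) (nat_lit 37037618) (nat_lit 12118190) [(nat_lit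
 0), (nat_lit 2244125), (nat_lit 0)]) (PF.cons PF.nil PF.nil)) (PF.cons PF.nil (PF.cons PF.nil PF.nil))))))))))) (PF.cons (PF.cons (PF.cons (PF.leaf (nat_lit 4233089) (nat_lit 6335788) (nat_lit 47265777) (nat_lit 13507247) [(nat_lit 0), (nat_lit 0), (nat_lit 6335788)]) (PF.cons (PF.leaf (nat_lit 4499197) (nat_lit 473986) (nat_lit 46818888) (nat_lit 13468201) [(nat_lit 473986), (nat_lit 0), (nat_lit 6347735)]) (PF.cons (PF.leaf (nat_lit 4788804) (nat_lit 494919) (nat_lit 46337400) (nat_lit 13423634) [(nat_lit 494919), (nat_lit 0), (nat_lit 6357939)]) (PF.cons (PF.leaf (nat_lit 5096911) (nat_lit 513182) (nat_lit 45829504) (nat_lit 13373879) [(nat_lit 513182), (nat_lit 0), (nat_lit 6365880)]) (PF.cons (PF.leaf (nat_lit 5420217) (nat_lit 529290) (nat_lit 45301215) (nat_lit 13319205) [(nat_lit 529290), (nat_lit 0), (nat_lit 6371230)]) (PF.cons (PF.leaf (nat_lit 5756112) (nat_lit 543591) (nat_lit 44757206) (nat_lit 13259854) [(nat_lit 543591), (nat_lit 0), (nat_lit 6373794)])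 (PF.cons (PF.leaf (nat_lit 6102450) (nat_lit 556337) (nat_lit 44201247) (nat_lit 13196067) [(nat_lit 556337), (nat_lit 0), (nat_lit 6373473)]) (PF.cons (PF.leaf (nat_lit 6457475) (nat_lit 567719) (nat_lit 43636453)
 (nat_lit 13128087) [(nat_lit 567719), (nat_lit 0), (nat_lit 6370234)]) (PF.cons (PF.leaf (nat_lit 6819613) (nat_lit 577888) (nat_lit 43065446) (nat_lit 13056162) [(nat_lit 577888), (nat_lit 0), (nat_lit 6364097)]) (PF.cons (PF.leaf (nat_lit 7187527) (nat_lit 586965) (nat_lit 42490457) (nat_lit 12980546) [(nat_lit 586965), (nat_lit 0), (nat_lit 6355121)]) (PF.cons (PF.leaf (nat_lit 7560040) (nat_lit 595052) (nat_lit 41913402) (nat_lit 12901495) [(nat_lit 595052), (nat_lit 0), (nat_lit 6343390)]) (PF.cons (PF.leaf (nat_lit 7936107) (nat_lit 602236) (nat_lit 41335931) (nat_lit 12819269) [(nat_lit 602236), (nat_lit 0), (nat_lit 6329013)]) (PF.cons (PF.leaf (nat_lit 8314787) (nat_lit 608592) (nat_lit 40759472) (nat_lit 12734124) [(nat_lit 608592), (nat_lit 0),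 (nat_lit 6312109)]) (PF.cons PF.nil (PF.cons PF.nil (PF.cons PF.nil PF.nil)))))))))))))))) (PF.cons (PF.cons (PF.leaf (nat_lit 5060929) (nat_lit 2104460) (nat_lit 45333825) (nat_lit 13313435) [(nat_lit 0), (nat_lit 2104460), (nat_lit 6357091)]) (PF.cons (PF.leaf (nat_lit 5359967) (nat_lit 519927) (nat_lit 44842375) (nat_lit 13260255) [(nat_lit 519927), (nat_lit 2126040), (nat_lit 6360213)]) (PF.cons (PF.leaf (nat_lit 5675609)
 (nat_lit 535328) (nat_lit 44329252) (nat_lit 13202086) [(nat_lit 535328), (nat_lit 2145876), (nat_lit 6360941)]) (PF.cons (PF.leaf (nat_lit 6004398) (nat_lit 548889) (nat_lit 43799913) (nat_lit 13139302) [(nat_lit 548889), (nat_lit 2163828), (nat_lit 6359100)]) (PF.cons (PF.leaf (nat_lit 6343937) (nat_lit 560897) (nat_lit 43258536) (nat_lit 13072224) [(nat_lit 560897), (nat_lit 2179858), (nat_lit 6354603)]) (PF.cons (PF.leaf (nat_lit 6692262) (nat_lit 571561) (nat_lit 42708447) (nat_lit 13001149) [(nat_lit 571561), (nat_lit 2193978), (nat_lit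 6347430)]) (PF.cons (PF.leaf (nat_lit 7047748) (nat_lit 581040) (nat_lit 42152368) (nat_lit 12926361) [(nat_lit 581040), (nat_lit 2206235), (nat_lit 6337606)]) (PF.cons (PF.leaf (nat_lit 7409004) (nat_lit 589460) (nat_lit 41592567) (nat_lit 12848135) [(nat_lit 589460), (nat_lit 2216693), (nat_lit 6325191)]) (PF.cons (PF.leaf (nat_lit 7774828) (nat_lit 596926) (nat_lit 41030958) (nat_lit 12766741) [(nat_lit 596926), (nat_lit 2225429), (nat_lit 6310269)]) (PF.cons (PF.leaf (nat_lit 8144161) (nat_lit 603525) (nat_lit 40469168) (nat_lit 12682442) [(nat_lit 603525), (nat_lit 2232525), (nat_lit 6292944)]) (PF.cons (PF.leaf (nat_lit 8516066)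
 (nat_lit 609333) (nat_lit 39908591) (nat_lit 12595496) [(nat_lit 609333), (nat_lit 2238065), (nat_lit 6273329)]) (PF.cons PF.nil (PF.cons PF.nil (PF.cons PF.nil PF.nil)))))))))))))) (PF.cons (PF.cons (PF.leaf (nat_lit 5928322) (nat_lit 2159512) (nat_lit 43368608) (nat_lit 13077542) [(nat_lit 0), (nat_lit 2159512), (nat_lit 6343637)]) (PF.cons (PF.leaf (nat_lit 6248443) (nat_lit 552690) (nat_lit 42856844) (nat_lit 13012215) [(nat_lit 552690), (nat_lit 2174540), (nat_lit 6337980)]) (PF.cons (PF.leaf (nat_lit 6580280) (nat_lit 564143) (nat_lit 42332215) (nat_lit 12942641) [(nat_lit 564143), (nat_lit 2187903), (nat_lit 6329862)]) (PF.cons (PF.leaf (nat_lit 6921309) (nat_lit 574235) (nat_lit 41798476) (nat_lit 12869193) [(nat_lit 574235), (nat_lit 2199579), (nat_lit 6319275)]) (PF.cons (PF.leaf (nat_lit 7269719) (nat_lit 583147) (nat_lit 41258584) (nat_lit 12792205) [(nat_lit 583147), (nat_lit 2209590), (nat_lit 6306252)]) (PF.cons (PF.leaf (nat_lit 7624018) (nat_lit 591015)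 (nat_lit 40714930) (nat_lit 12711981) [(nat_lit 591015), (nat_lit 2217982), (nat_lit 6290855)]) (PF.cons (PF.leaf (nat_lit 7982940) (nat_lit 597952) (nat_lit 40169487) (nat_lit 12628810) [(nat_lit 597952), (nat_lit
 2224815), (nat_lit 6273170)]) (PF.cons (PF.leaf (nat_lit 8345425) (nat_lit 604047) (nat_lit 39623903) (nat_lit 12542963) [(nat_lit 604047), (nat_lit 2230159), (nat_lit 6253296)]) (PF.cons (PF.leaf (nat_lit 8710499) (nat_lit 609377) (nat_lit 39079568) (nat_lit 12454701) [(nat_lit 609377), (nat_lit 2234088), (nat_lit 6231343)]) (PF.cons PF.nil (PF.cons PF.nil (PF.cons PF.nil PF.nil)))))))))))) (PF.cons (PF.cons (PF.leaf (nat_lit 6812842) (nat_lit 2192877) (nat_lit 41422331) (nat_lit 12807979) [(nat_lit 0), (nat_lit 2192877), (nat_lit 6299870)]) (PF.cons (PF.leaf (nat_lit 7145501) (nat_lit 575817) (nat_lit 40906613) (nat_lit 12732882) [(nat_lit 575817), (nat_lit 2202379), (nat_lit 6286361)]) (PF.cons (PF.leaf (nat_lit 7486284) (nat_lit 584284) (nat_lit 40384129)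 (nat_lit 12654340) [(nat_lit 584284), (nat_lit 2210393), (nat_lit 6270594)]) (PF.cons (PF.leaf (nat_lit 7833259) (nat_lit 591703) (nat_lit 39857515) (nat_lit 12572704) [(nat_lit 591703), (nat_lit 2216947), (nat_lit 6252640)]) (PF.cons (PF.leaf (nat_lit 8185056) (nat_lit 598198) (nat_lit 39328880) (nat_lit 12488289) [(nat_lit 598198), (nat_lit 2222088), (nat_lit 6232585)]) (PF.cons (PF.leaf (nat_lit 8540530) (nat_lit 603865)
 (nat_lit 38799948) (nat_lit 12401382) [(nat_lit 603865), (nat_lit 2225874), (nat_lit 6210528)]) (PF.cons (PF.leaf (nat_lit 8898701) (nat_lit 608787) (nat_lit 38272144) (nat_lit 12312253) [(nat_lit 608787), (nat_lit 2228371), (nat_lit 6186577)]) (PF.cons PF.nil (PF.cons PF.nil (PF.cons PF.nil PF.nil)))))))))) (PF.cons (PF.cons (PF.leaf (nat_lit 7698570) (nat_lit 2208918) (nat_lit 39528711) (nat_lit 12513308) [(nat_lit 0), (nat_lit 2208918), (nat_lit 6231118)]) (PF.cons (PF.leaf (nat_lit 8037487) (nat_lit 591580) (nat_lit 39020037) (nat_lit 12430830)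 [(nat_lit 591580), (nat_lit 2213840), (nat_lit 6211003)]) (PF.cons (PF.leaf (nat_lit 8381832) (nat_lit 597720) (nat_lit 38508829) (nat_lit 12345681) [(nat_lit 597720), (nat_lit 2217479), (nat_lit 6188945)]) (PF.cons (PF.leaf (nat_lit 8730112) (nat_lit 603035) (nat_lit 37996955) (nat_lit 12258174) [(nat_lit 603035), (nat_lit 2219882), (nat_lit 6165044)]) (PF.cons (PF.leaf (nat_lit 9081265) (nat_lit 607613) (nat_lit 37485924) (nat_lit 12168593) [(nat_lit 607613), (nat_lit 2221108), (nat_lit 6139407)]) (PF.cons (PF.leaf (nat_lit 9434403) (nat_lit 611528) (nat_lit 36976974) (nat_lit 12077194) [(nat_lit 611528), (nat_lit 2221214), (nat_lit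
 6112144)]) (PF.cons PF.nil (PF.cons PF.nil PF.nil)))))))) (PF.cons (PF.cons (PF.leaf (nat_lit 8574258) (nat_lit 2211190) (nat_lit 37708825) (nat_lit 12201408) [(nat_lit 0), (nat_lit 2211190), (nat_lit 6142625)]) (PF.cons (PF.leaf (nat_lit 8914820) (nat_lit 601600) (nat_lit 37214420) (nat_lit 12113741) [(nat_lit 601600), (nat_lit 2212371), (nat_lit 6117195)]) (PF.cons (PF.leaf (nat_lit 9258786) (nat_lit 605900) (nat_lit 36720393) (nat_lit 12024101) [(nat_lit 605900), (nat_lit 2212471), (nat_lit 6090161)]) (PF.cons (PF.leaf (nat_lit 9604973) (nat_lit 609541) (nat_lit 36228070) (nat_lit 11932757) [(nat_lit 609541), (nat_lit 2211545), (nat_lit 6061634)]) (PF.cons PF.nil (PF.cons PF.nil PF.nil)))))) (PF.cons (PF.cons (PF.leaf (nat_lit 9432132) (nat_lit 2202613) (nat_lit 35974919) (nat_lit 11879088) [(nat_lit 0), (nat_lit 2202613), (nat_lit 6039124)]) (PF.cons (PF.leaf (nat_lit 9770981) (nat_lit 607104) (nat_lit 35499325) (nat_lit 11788132) [(nat_lit 607104), (nat_lit 2200778),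 (nat_lit 6009578)]) (PF.cons PF.nil (PF.cons PF.nil PF.nil)))) (PF.cons (PF.cons (PF.leaf (nat_lit 10267008) (nat_lit 2185582) (nat_lit 34333075) (nat_lit 11551975) [(nat_lit 0), (nat_lit 2185582), (nat_lit
 5924683)]) (PF.cons PF.nil PF.nil)) (PF.cons PF.nil (PF.cons PF.nil PF.nil)))))))))) (PF.cons (PF.cons (PF.cons (PF.leaf (nat_lit 5903712) (nat_lit 6242141) (nat_lit 41814807) (nat_lit 12809723) [(nat_lit 0), (nat_lit 0), (nat_lit 6242141)]) (PF.cons (PF.leaf (nat_lit 6197857) (nat_lit 528580) (nat_lit 41362740) (nat_lit 12747462) [(nat_lit 528580), (nat_lit 0), (nat_lit 6235014)]) (PF.cons (PF.leaf (nat_lit 6506823) (nat_lit 542026) (nat_lit 40892735) (nat_lit 12680678) [(nat_lit 542026), (nat_lit 0), (nat_lit 6225673)]) (PF.cons (PF.leaf (nat_lit 6827241) (nat_lit 553655) (nat_lit 40409746) (nat_lit 12609901) [(nat_lit 553655), (nat_lit 0), (nat_lit 6214098)]) (PF.cons (PF.leaf (nat_lit 7156828) (nat_lit 563783) (nat_lit 39917494) (nat_lit 12535558) [(nat_lit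 563783), (nat_lit 0), (nat_lit 6200312)]) (PF.cons (PF.leaf (nat_lit 7493768) (nat_lit 572635) (nat_lit 39418891) (nat_lit 12458012) [(nat_lit 572635), (nat_lit 0), (nat_lit 6184366)]) (PF.cons (PF.leaf (nat_lit 7836569) (nat_lit 580381) (nat_lit 38916275) (nat_lit 12377585) [(nat_lit 580381), (nat_lit 0), (nat_lit 6166332)]) (PF.cons (PF.leaf (nat_lit 8183978) (nat_lit 587155) (nat_lit 38411563) (nat_lit 12294568)
 [(nat_lit 587155), (nat_lit 0), (nat_lit 6146296)]) (PF.cons (PF.leaf (nat_lit 8534917) (nat_lit 593065) (nat_lit 37906348) (nat_lit 12209233) [(nat_lit 593065), (nat_lit 0), (nat_lit 6124355)]) (PF.cons (PF.leaf (nat_lit 8888448) (nat_lit 598199) (nat_lit 37401962) (nat_lit 12121831) [(nat_lit 598199), (nat_lit 0), (nat_lit 6100613)]) (PF.cons PF.nil (PF.cons PF.nil PF.nil)))))))))))) (PF.cons (PF.cons (PF.leaf (nat_lit 6736937) (nat_lit 2149129) (nat_lit 40028331) (nat_lit 12545055) [(nat_lit 0), (nat_lit 2149129), (nat_lit 6193148)]) (PF.cons (PF.leaf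 (nat_lit 7048244) (nat_lit 554899) (nat_lit 39563306) (nat_lit 12473423) [(nat_lit 554899), (nat_lit 2158888), (nat_lit 6179147)]) (PF.cons (PF.leaf (nat_lit 7369831) (nat_lit 564667) (nat_lit 39087987) (nat_lit 12398194) [(nat_lit 564667), (nat_lit 2167180), (nat_lit 6163057)]) (PF.cons (PF.leaf (nat_lit 7699292) (nat_lit 573132) (nat_lit 38605693) (nat_lit 12319807) [(nat_lit 573132), (nat_lit 2174023), (nat_lit 6144946)]) (PF.cons (PF.leaf (nat_lit 8034958) (nat_lit 580484) (nat_lit 38118996) (nat_lit 12238630) [(nat_lit 580484), (nat_lit 2179462), (nat_lit 6124893)]) (PF.cons (PF.leaf (nat_lit 8375468) (nat_lit 586870)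
 (nat_lit 37629943) (nat_lit 12154983) [(nat_lit 586870), (nat_lit 2183555), (nat_lit 6102989)]) (PF.cons (PF.leaf (nat_lit 8719677) (nat_lit 592404) (nat_lit 37140199) (nat_lit 12069152) [(nat_lit 592404), (nat_lit 2186368), (nat_lit 6079333)]) (PF.cons (PF.leaf (nat_lit 9066609) (nat_lit 597179) (nat_lit 36651135) (nat_lit 11981399) [(nat_lit 597179), (nat_lit 2187971), (nat_lit 6054026)]) (PF.cons PF.nil (PF.cons PF.nil PF.nil)))))))))) (PF.cons (PF.cons (PF.leaf (nat_lit 7579897) (nat_lit 2165467) (nat_lit 38275052) (nat_lit 12258079) [(nat_lit 0), (nat_lit 2165467), (nat_lit 6122373)]) (PF.cons (PF.leaf (nat_lit 7900925) (nat_lit 572787) (nat_lit 37810213) (nat_lit 12179407) [(nat_lit 572787), (nat_lit 2170734), (nat_lit 6102467)]) (PF.cons (PF.leaf (nat_lit 8229005) (nat_lit 579850) (nat_lit 37340216) (nat_lit 12097963) [(nat_lit 579850), (nat_lit 2174732), (nat_lit 6080734)]) (PF.cons (PF.leaf (nat_lit 8562314) (nat_lit 585933) (nat_lit 36867344) (nat_lit 12014112)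 [(nat_lit 585933), (nat_lit 2177505), (nat_lit 6057272)]) (PF.cons (PF.leaf (nat_lit 8899599) (nat_lit 591163) (nat_lit 36393403) (nat_lit 11928167) [(nat_lit 591163), (nat_lit 2179109), (nat_lit 6032184)])
 (PF.cons (PF.leaf (nat_lit 9239830) (nat_lit 595641) (nat_lit 35919845) (nat_lit 11840405) [(nat_lit 595641), (nat_lit 2179605), (nat_lit 6005573)]) (PF.cons (PF.leaf (nat_lit 9582129) (nat_lit 599447) (nat_lit 35447859) (nat_lit 11751073) [(nat_lit 599447), (nat_lit 2179054), (nat_lit 5977542)]) (PF.cons PF.nil PF.nil)))))))) (PF.cons (PF.cons (PF.leaf (nat_lit 8419753) (nat_lit 2168415) (nat_lit 36579326) (nat_lit 11955902) [(nat_lit 0), (nat_lit 2168415), (nat_lit 6034169)]) (PF.cons (PF.leaf (nat_lit 8745190) (nat_lit 584378) (nat_lit 36123210) (nat_lit 11872270) [(nat_lit 584378), (nat_lit 2170022), (nat_lit 6009442)]) (PF.cons (PF.leaf (nat_lit 9075283) (nat_lit 589378) (nat_lit 35665421) (nat_lit 11786579) [(nat_lit 589378), (nat_lit 2170558), (nat_lit 5983189)])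 (PF.cons (PF.leaf (nat_lit 9408646) (nat_lit 593620) (nat_lit 35207555) (nat_lit 11699134) [(nat_lit 593620), (nat_lit 2170075), (nat_lit 5955517)]) (PF.cons (PF.leaf (nat_lit 9744304) (nat_lit 597193) (nat_lit 34750888) (nat_lit 11610196) [(nat_lit 597193), (nat_lit 2168630), (nat_lit 5926531)]) (PF.cons PF.nil PF.nil)))))) (PF.cons (PF.cons (PF.leaf (nat_lit 9247640) (nat_lit 2160855) (nat_lit 34955585) (nat_lit
 11644627) [(nat_lit 0), (nat_lit 2160855), (nat_lit 5932588)]) (PF.cons (PF.leaf (nat_lit 9573633) (nat_lit 591144) (nat_lit 34513632) (nat_lit 11557814) [(nat_lit 591144), (nat_lit 2159513), (nat_lit 5904084)]) (PF.cons (PF.leaf (nat_lit 9902516) (nat_lit 594537) (nat_lit 34072363) (nat_lit 11469546) [(nat_lit 594537), (nat_lit 2157281), (nat_lit 5874351)]) (PF.cons PF.nil PF.nil)))) (PF.cons (PF.cons (PF.leaf (nat_lit 10057529) (nat_lit 2145110) (nat_lit 33411596) (nat_lit 11329296) [(nat_lit 0), (nat_lit 2145110), (nat_lit 5821183)]) (PF.cons (PF.leaf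 (nat_lit 10381297) (nat_lit 594163) (nat_lit 32987114) (nat_lit 11240778) [(nat_lit 594163), (nat_lit 2141415), (nat_lit 5789838)]) PF.nil)) (PF.cons PF.nil (PF.cons PF.nil PF.nil)))))))) (PF.cons (PF.cons (PF.cons (PF.leaf (nat_lit 7475212) (nat_lit 6012934) (nat_lit 37065705) (nat_lit 12004302) [(nat_lit 0), (nat_lit 0), (nat_lit 6012934)]) (PF.cons (PF.leaf (nat_lit 7776833) (nat_lit 551883) (nat_lit 36645401) (nat_lit 11930353) [(nat_lit 551883), (nat_lit 0), (nat_lit 5993724)]) (PF.cons (PF.leaf (nat_lit 8087630) (nat_lit 560313) (nat_lit 36216658) (nat_lit 11853340) [(nat_lit 560313), (nat_lit 0), (nat_lit 5972729)])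
 (PF.cons (PF.leaf (nat_lit 8405296) (nat_lit 567502) (nat_lit 35782400) (nat_lit 11773725) [(nat_lit 567502), (nat_lit 0), (nat_lit 5950060)]) (PF.cons (PF.leaf (nat_lit 8728274) (nat_lit 573647) (nat_lit 35344865) (nat_lit 11691885) [(nat_lit 573647), (nat_lit 0), (nat_lit 5925823)]) (PF.cons (PF.leaf (nat_lit 9055322) (nat_lit 578897) (nat_lit 34905817) (nat_lit 11608136) [(nat_lit 578897), (nat_lit 0), (nat_lit 5900124)]) (PF.cons (PF.leaf (nat_lit 9385402) (nat_lit 583366) (nat_lit 34466670) (nat_lit 11522751) [(nat_lit 583366), (nat_lit 0), (nat_lit 5873064)]) (PF.cons (PF.leaf (nat_lit 9717646) (nat_lit 587147) (nat_lit 34028579) (nat_lit 11435972) [(nat_lit 587147), (nat_lit 0), (nat_lit 5844743)]) (PF.cons PF.nil (PF.cons PF.nil PF.nil)))))))))) (PF.cons (PF.cons (PF.leaf (nat_lit 8278189) (nat_lit 2124708) (nat_lit 35491943) (nat_lit 11713657) [(nat_lit 0), (nat_lit 2124708), (nat_lit 5926168)]) (PF.cons (PF.leaf (nat_lit 8587565) (nat_lit 565832) (nat_lit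 35073961) (nat_lit 11634623) [(nat_lit 565832), (nat_lit 2126977), (nat_lit 5902472)]) (PF.cons (PF.leaf (nat_lit 8903153) (nat_lit 571805) (nat_lit 34651897) (nat_lit 11553326) [(nat_lit 571805), (nat_lit 2128154),
 (nat_lit 5877274)]) (PF.cons (PF.leaf (nat_lit 9223261) (nat_lit 576860) (nat_lit 34227736) (nat_lit 11470125) [(nat_lit 576860), (nat_lit 2128294), (nat_lit 5850691)]) (PF.cons (PF.leaf (nat_lit 9546717) (nat_lit 581128) (nat_lit 33803033) (nat_lit 11385323) [(nat_lit 581128), (nat_lit 2127454), (nat_lit 5822829)]) (PF.cons (PF.leaf (nat_lit 9872612) (nat_lit 584707) (nat_lit 33379026) (nat_lit 11299178) [(nat_lit 584707), (nat_lit 2125694), (nat_lit 5793791)]) (PF.cons PF.nil (PF.cons PF.nil PF.nil)))))))) (PF.cons (PF.cons (PF.leaf (nat_lit 9075581) (nat_lit 2118737) (nat_lit 33975115) (nat_lit 11414468) [(nat_lit 0), (nat_lit 2118737), (nat_lit 5827251)]) (PF.cons (PF.leaf (nat_lit 9388103) (nat_lit 574345) (nat_lit 33566229) (nat_lit 11332133) [(nat_lit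 574345), (nat_lit 2118045), (nat_lit 5800004)]) (PF.cons (PF.leaf (nat_lit 9704713) (nat_lit 578473) (nat_lit 33156172) (nat_lit 11248184) [(nat_lit 578473), (nat_lit 2116447), (nat_lit 5771537)]) (PF.cons (PF.leaf (nat_lit 10024092) (nat_lit 581903) (nat_lit 32746320) (nat_lit 11162904) [(nat_lit 581903), (nat_lit 2113998), (nat_lit 5741960)]) (PF.cons PF.nil (PF.cons PF.nil PF.nil)))))) (PF.cons (PF.cons (PF.leaf (nat_lit
 9860202) (nat_lit 2104651) (nat_lit 32525380) (nat_lit 11111455) [(nat_lit 0), (nat_lit 2104651), (nat_lit 5719340)]) (PF.cons (PF.leaf (nat_lit 10172592) (nat_lit 578750) (nat_lit 32129804) (nat_lit 11027272) [(nat_lit 578750), (nat_lit 2101601), (nat_lit 5689393)]) (PF.cons PF.nil (PF.cons PF.nil PF.nil)))) (PF.cons (PF.cons (PF.leaf (nat_lit 10627248) (nat_lit 2084318) (nat_lit 31147771) (nat_lit 10808378) [(nat_lit 0), (nat_lit 2084318), (nat_lit 5605129)]) (PF.cons PF.nil PF.nil)) (PF.cons PF.nil PF.nil)))))) (PF.cons (PF.cons (PF.cons (PF.leaf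 (nat_lit 8917612) (nat_lit 5722983) (nat_lit 33028777) (nat_lit 11188100) [(nat_lit 0), (nat_lit 0), (nat_lit 5722983)]) (PF.cons (PF.leaf (nat_lit 9215629) (nat_lit 556376) (nat_lit 32652912) (nat_lit 11110645) [(nat_lit 556376), (nat_lit 0), (nat_lit 5697219)]) (PF.cons (PF.leaf (nat_lit 9519258) (nat_lit 561490) (nat_lit 32273703) (nat_lit 11031312) [(nat_lit 561490), (nat_lit 0), (nat_lit 5670204)]) (PF.cons (PF.leaf (nat_lit 9826841) (nat_lit 565746) (nat_lit 31892886) (nat_lit 10950447) [(nat_lit 565746), (nat_lit 0), (nat_lit 5642059)]) (PF.cons (PF.leaf (nat_lit 10137324) (nat_lit 569272) (nat_lit 31511809) (nat_lit 10868335)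
 [(nat_lit 569272), (nat_lit 0), (nat_lit 5612894)]) (PF.cons PF.nil PF.nil)))))) (PF.cons (PF.cons (PF.leaf (nat_lit 9676072) (nat_lit 2064060) (nat_lit 31670690) (nat_lit 10897998) [(nat_lit 0), (nat_lit 2064060), (nat_lit 5619015)]) (PF.cons (PF.leaf (nat_lit 9976399) (nat_lit 562596) (nat_lit 31303619) (nat_lit 10818377) [(nat_lit 562596), (nat_lit 2061778), (nat_lit 5590610)]) (PF.cons (PF.leaf (nat_lit 10280388) (nat_lit 566051) (nat_lit 30935668) (nat_lit 10737463) [(nat_lit 566051), (nat_lit 2058722), (nat_lit 5561213)]) (PF.cons PF.nil PF.nil)))) (PF.cons (PF.cons (PF.leaf (nat_lit 10421636) (nat_lit 2045717) (nat_lit 30373596) (nat_lit 10607443) [(nat_lit 0), (nat_lit 2045717), (nat_lit 5509084)]) (PF.cons (PF.leaf (nat_lit 10721411) (nat_lit 565279) (nat_lit 30018673) (nat_lit 10526853) [(nat_lit 565279), (nat_lit 2041524), (nat_lit 5478739)]) PF.nil)) (PF.cons PF.nil PF.nil)))) (PF.cons (PF.cons (PF.cons (PF.leaf (nat_lit 10229493) (nat_lit 5414633) (nat_lit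 29624988) (nat_lit 10410657) [(nat_lit 0), (nat_lit 0), (nat_lit 5414633)]) (PF.cons (PF.leaf (nat_lit 10518381) (nat_lit 549881) (nat_lit 29294661) (nat_lit 10334511) [(nat_lit 549881), (nat_lit 0), (nat_lit
 5385951)]) (PF.cons (PF.leaf (nat_lit 10810610) (nat_lit 552808) (nat_lit 28963625) (nat_lit 10257309) [(nat_lit 552808), (nat_lit 0), (nat_lit 5356451)]) (PF.cons PF.nil PF.nil)))) (PF.cons (PF.cons (PF.leaf (nat_lit 10939755) (nat_lit 1986064) (nat_lit 28461101) (nat_lit 10134629) [(nat_lit 0), (nat_lit 1986064), (nat_lit 5305403)]) (PF.cons PF.nil PF.nil)) PF.nil)) (PF.cons PF.nil (PF.cons PF.nil (PF.cons PF.nil (PF.cons PF.nil PF.nil))))))))))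

def p14_19_2_0 : pfC (piC [(nat_lit 37297016), (nat_lit 23751559), (nat_lit 15232604)] (nat_lit 7133500)) p14_19_2 (nat_lit 3) (nat_lit 0) (nat_lit 1) = true := by decide +kernel
def p14_19_2_1 : pfC (piC [(nat_lit 37297016), (nat_lit 23751559), (nat_lit 15232604)] (nat_lit 7133500)) p14_19_2 (nat_lit 3) (nat_lit 1) (nat_lit 2) = true := by decide +kernel
def p14_19_2_2 : pfC (piC [(nat_lit 37297016), (nat_lit 23751559), (nat_lit 15232604)] (nat_lit 7133500)) p14_19_2 (nat_lit 3) (nat_lit 2) (nat_lit 3) = true := by decide +kernel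
def p14_19_2_3 : pfC (piC [(nat_lit 37297016), (nat_lit 23751559), (nat_lit 15232604)] (nat_lit 7133500)) p14_19_2 (nat_lit 3) (nat_lit 3) (nat_lit 4) = true := by decide +kernel
def p14_19_2_4 : pfC (piC [(nat_lit 37297016), (nat_lit 23751559), (nat_lit 15232604)] (nat_lit 7133500)) p14_19_2 (nat_lit 3) (nat_lit 4) (nat_lit 5) = true := by decide +kernel
def p14_19_2_5 : pfC (piC [(nat_lit 37297016), (nat_lit 23751559), (nat_lit 15232604)] (nat_lit 7133500)) p14_19_2 (nat_lit 3) (nat_lit 5) (nat_lit 6) = true := by decide +kernel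
def p14_19_2_6 : pfC (piC [(nat_lit 37297016), (nat_lit 23751559), (nat_lit 15232604)] (nat_lit 7133500)) p14_19_2 (nat_lit 3) (nat_lit 6) (nat_lit 7) = true := by decide +kernel
def p14_19_2_7 : pfC (piC [(nat_lit 37297016), (nat_lit 23751559), (nat_lit 15232604)] (nat_lit 7133500)) p14_19_2 (nat_lit 3) (nat_lit 7) (nat_lit 8) = true := by decide +kernel
def p14_19_2_8 : pfC (piC [(nat_lit 37297016), (nat_lit 23751559), (nat_lit 15232604)] (nat_lit 7133500)) p14_19_2 (nat_lit 3) (nat_lit 8) (nat_lit 9) = true := by decide +kernel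
def p14_19_2_9 : pfC (piC [(nat_lit 37297016), (nat_lit 23751559), (nat_lit 15232604)] (nat_lit 7133500)) p14_19_2 (nat_lit 3) (nat_lit 9) (nat_lit 10) = true := by decide +kernel
def p14_19_2_10 : pfC (piC [(nat_lit 37297016), (nat_lit 23751559), (nat_lit 15232604)] (nat_lit 7133500)) p14_19_2 (nat_lit 3) (nat_lit 10) (nat_lit 11) = true := by decide +kernel
def p14_19_2_11 : pfC (piC [(nat_lit 37297016), (nat_lit 23751559), (nat_lit 15232604)] (nat_lit 7133500)) p14_19_2 (nat_lit 3) (nat_lit 11) (nat_lit 12) = true := by decide +kernel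
def p14_19_2_12 : pfC (piC [(nat_lit 37297016), (nat_lit 23751559), (nat_lit 15232604)] (nat_lit 7133500)) p14_19_2 (nat_lit 3) (nat_lit 12) (nat_lit 13) = true := by decide +kernel
def p14_19_2_13 : pfC (piC [(nat_lit 37297016), (nat_lit 23751559), (nat_lit 15232604)] (nat_lit 7133500)) p14_19_2 (nat_lit 3) (nat_lit 13) (nat_lit 14) = true := by decide +kernel
def p14_19_2_14 : pfC (piC [(nat_lit 37297016), (nat_lit 23751559), (nat_lit 15232604)] (nat_lit 7133500)) p14_19_2 (nat_lit 3) (nat_lit 14) (nat_lit 15) = true := by decide +kernel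
def p14_19_2_15 : pfC (piC [(nat_lit 37297016), (nat_lit 23751559), (nat_lit 15232604)] (nat_lit 7133500)) p14_19_2 (nat_lit 3) (nat_lit 15) (nat_lit 16) = true := by decide +kernel
def p14_19_2_16 : pfC (piC [(nat_lit 37297016), (nat_lit 23751559), (nat_lit 15232604)] (nat_lit 7133500)) p14_19_2 (nat_lit 3) (nat_lit 16) (nat_lit 17) = true := by decide +kernel
def p14_19_2_17 : pfC (piC [(nat_lit 37297016), (nat_lit 23751559), (nat_lit 15232604)] (nat_lit 7133500)) p14_19_2 (nat_lit 3) (nat_lit 17) (nat_lit 18) = true := by decide +kernel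
def p14_19_2_18 : pfC (piC [(nat_lit 37297016), (nat_lit 23751559), (nat_lit 15232604)] (nat_lit 7133500)) p14_19_2 (nat_lit 3) (nat_lit 18) (nat_lit 19) = true := by decide +kernel
def p14_19_2_19 : pfC (piC [(nat_lit 37297016), (nat_lit 23751559), (nat_lit 15232604)] (nat_lit 7133500)) p14_19_2 (nat_lit 3) (nat_lit 19) (nat_lit 20) = true := by decide +kernel
def p14_19_2_20 : pfC (piC [(nat_lit 37297016), (nat_lit 23751559), (nat_lit 15232604)] (nat_lit 7133500)) p14_19_2 (nat_lit 3) (nat_lit 20) (nat_lit 21) = true := by decide +kernel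
def p14_19_2_21 : pfC (piC [(nat_lit 37297016), (nat_lit 23751559), (nat_lit 15232604)] (nat_lit 7133500)) p14_19_2 (nat_lit 3) (nat_lit 21) (nat_lit 22) = true := by decide +kernel
def p14_19_2_22 : pfC (piC [(nat_lit 37297016), (nat_lit 23751559), (nat_lit 15232604)] (nat_lit 7133500)) p14_19_2 (nat_lit 3) (nat_lit 22) (nat_lit 23) = true := by decide +kernel
def p14_19_2_23 : pfC (piC [(nat_lit 37297016), (nat_lit 23751559), (nat_lit 15232604)] (nat_lit 7133500)) p14_19_2 (nat_lit 3) (nat_lit 23) (nat_lit 24) = true := by decide +kernel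
def p14_19_2_24 : pfC (piC [(nat_lit 37297016), (nat_lit 23751559), (nat_lit 15232604)] (nat_lit 7133500)) p14_19_2 (nat_lit 3) (nat_lit 24) (nat_lit 25) = true := by decide +kernel
def p14_19_2_25 : pfC (piC [(nat_lit 37297016), (nat_lit 23751559), (nat_lit 15232604)] (nat_lit 7133500)) p14_19_2 (nat_lit 3) (nat_lit 25) (nat_lit 26) = true := by decide +kernel
def p14_19_2_26 : pfC (piC [(nat_lit 37297016), (nat_lit 23751559), (nat_lit 15232604)] (nat_lit 7133500)) p14_19_2 (nat_lit 3) (nat_lit 26) (nat_lit 27) = true := by decide +kernel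
def p14_19_2_27 : pfC (piC [(nat_lit 37297016), (nat_lit 23751559), (nat_lit 15232604)] (nat_lit 7133500)) p14_19_2 (nat_lit 3) (nat_lit 27) (nat_lit 28) = true := by decide +kernel
def p14_19_2_28 : pfC (piC [(nat_lit 37297016), (nat_lit 23751559), (nat_lit 15232604)] (nat_lit 7133500)) p14_19_2 (nat_lit 3) (nat_lit 28) (nat_lit 29) = true := by decide +kernel
def p14_19_2_29 : pfC (piC [(nat_lit 37297016), (nat_lit 23751559), (nat_lit 15232604)] (nat_lit 7133500)) p14_19_2 (nat_lit 3) (nat_lit 29) (nat_lit 30) = true := by decide +kernel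
def p14_19_2_30 : pfC (piC [(nat_lit 37297016), (nat_lit 23751559), (nat_lit 15232604)] (nat_lit 7133500)) p14_19_2 (nat_lit 3) (nat_lit 30) (nat_lit 31) = true := by decide +kernel
def p14_19_2_31 : pfC (piC [(nat_lit 37297016), (nat_lit 23751559), (nat_lit 15232604)] (nat_lit 7133500)) p14_19_2 (nat_lit 3) (nat_lit 31) (nat_lit 32) = true := by decide +kernel
def p14_19_2_32 : pfC (piC [(nat_lit 37297016), (nat_lit 23751559), (nat_lit 15232604)] (nat_lit 7133500)) p14_19_2 (nat_lit 3) (nat_lit 32) (nat_lit 33) = true := by decide +kernel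
def p14_19_2_33 : pfC (piC [(nat_lit 37297016), (nat_lit 23751559), (nat_lit 15232604)] (nat_lit 7133500)) p14_19_2 (nat_lit 3) (nat_lit 33) (nat_lit 34) = true := by decide +kernel
def p14_19_2_34 : pfC (piC [(nat_lit 37297016), (nat_lit 23751559), (nat_lit 15232604)] (nat_lit 7133500)) p14_19_2 (nat_lit 3) (nat_lit 34) (nat_lit 35) = true := by decide +kernel
def p14_19_2_35 : pfC (piC [(nat_lit 37297016), (nat_lit 23751559), (nat_lit 15232604)] (nat_lit 7133500)) p14_19_2 (nat_lit 3) (nat_lit 35) (nat_lit 36) = true := by decide +kernel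
def p14_19_2_36 : pfC (piC [(nat_lit 37297016), (nat_lit 23751559), (nat_lit 15232604)] (nat_lit 7133500)) p14_19_2 (nat_lit 3) (nat_lit 36) (nat_lit 37) = true := by decide +kernel
def p14_19_2_37 : pfC (piC [(nat_lit 37297016), (nat_lit 23751559), (nat_lit 15232604)] (nat_lit 7133500)) p14_19_2 (nat_lit 3) (nat_lit 37) (nat_lit 38) = true := by decide +kernel
def p14_19_2_38 : pfC (piC [(nat_lit 37297016), (nat_lit 23751559), (nat_lit 15232604)] (nat_lit 7133500)) p14_19_2 (nat_lit 3) (nat_lit 38) (nat_lit 39) = true := by decide +kernel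
def p14_19_2_39 : pfC (piC [(nat_lit 37297016), (nat_lit 23751559), (nat_lit 15232604)] (nat_lit 7133500)) p14_19_2 (nat_lit 3) (nat_lit 39) (nat_lit 40) = true := by decide +kernel
def p14_19_2_40 : pfC (piC [(nat_lit 37297016), (nat_lit 23751559), (nat_lit 15232604)] (nat_lit 7133500)) p14_19_2 (nat_lit 3) (nat_lit 40) (nat_lit 41) = true := by decide +kernel
def p14_19_2_41 : pfC (piC [(nat_lit 37297016), (nat_lit 23751559), (nat_lit 15232604)] (nat_lit 7133500)) p14_19_2 (nat_lit 3) (nat_lit 41) (nat_lit 42) = true := by decide +kernel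
def p14_19_2_42 : pfC (piC [(nat_lit 37297016), (nat_lit 23751559), (nat_lit 15232604)] (nat_lit 7133500)) p14_19_2 (nat_lit 3) (nat_lit 42) (nat_lit 43) = true := by decide +kernel
def p14_19_2_43 : pfC (piC [(nat_lit 37297016), (nat_lit 23751559), (nat_lit 15232604)] (nat_lit 7133500)) p14_19_2 (nat_lit 3) (nat_lit 43) (nat_lit 44) = true := by decide +kernel
def p14_19_2_44 : pfC (piC [(nat_lit 37297016), (nat_lit 23751559), (nat_lit 15232604)] (nat_lit 7133500)) p14_19_2 (nat_lit 3) (nat_lit 44) (nat_lit 45) = true := by decide +kernel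
def p14_19_2_45 : pfC (piC [(nat_lit 37297016), (nat_lit 23751559), (nat_lit 15232604)] (nat_lit 7133500)) p14_19_2 (nat_lit 3) (nat_lit 45) (nat_lit 46) = true := by decide +kernel
def p14_19_2_46 : pfC (piC [(nat_lit 37297016), (nat_lit 23751559), (nat_lit 15232604)] (nat_lit 7133500)) p14_19_2 (nat_lit 3) (nat_lit 46) (nat_lit 47) = true := by decide +kernel
def p14_19_2_47 : pfC (piC [(nat_lit 37297016), (nat_lit 23751559), (nat_lit 15232604)] (nat_lit 7133500)) p14_19_2 (nat_lit 3) (nat_lit 47) (nat_lit 48) = true := by decide +kernel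
def p14_19_2_48 : pfC (piC [(nat_lit 37297016), (nat_lit 23751559), (nat_lit 15232604)] (nat_lit 7133500)) p14_19_2 (nat_lit 3) (nat_lit 48) (nat_lit 49) = true := by decide +kernel
def p14_19_2_49 : pfC (piC [(nat_lit 37297016), (nat_lit 23751559), (nat_lit 15232604)] (nat_lit 7133500)) p14_19_2 (nat_lit 3) (nat_lit 49) (nat_lit 50) = true := by decide +kernel
def p14_19_2_50 : pfC (piC [(nat_lit 37297016), (nat_lit 23751559), (nat_lit 15232604)] (nat_lit 7133500)) p14_19_2 (nat_lit 3) (nat_lit 50) (nat_lit 51) = true := by decide +kernel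
def p14_19_2_51 : pfC (piC [(nat_lit 37297016), (nat_lit 23751559), (nat_lit 15232604)] (nat_lit 7133500)) p14_19_2 (nat_lit 3) (nat_lit 51) (nat_lit 52) = true := by decide +kernel
def p14_19_2_52 : pfC (piC [(nat_lit 37297016), (nat_lit 23751559), (nat_lit 15232604)] (nat_lit 7133500)) p14_19_2 (nat_lit 3) (nat_lit 52) (nat_lit 53) = true := by decide +kernel
def p14_19_2_53 : pfC (piC [(nat_lit 37297016), (nat_lit 23751559), (nat_lit 15232604)] (nat_lit 7133500)) p14_19_2 (nat_lit 3) (nat_lit 53) (nat_lit 54) = true := by decide +kernel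
def p14_19_2_54 : pfC (piC [(nat_lit 37297016), (nat_lit 23751559), (nat_lit 15232604)] (nat_lit 7133500)) p14_19_2 (nat_lit 3) (nat_lit 54) (nat_lit 55) = true := by decide +kernel
def p14_19_2_55 : pfC (piC [(nat_lit 37297016), (nat_lit 23751559), (nat_lit 15232604)] (nat_lit 7133500)) p14_19_2 (nat_lit 3) (nat_lit 55) (nat_lit 56) = true := by decide +kernel
def p14_19_2_56 : pfC (piC [(nat_lit 37297016), (nat_lit 23751559), (nat_lit 15232604)] (nat_lit 7133500)) p14_19_2 (nat_lit 3) (nat_lit 56) (nat_lit 57) = true := by decide +kernel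
def p14_19_2_57 : pfC (piC [(nat_lit 37297016), (nat_lit 23751559), (nat_lit 15232604)] (nat_lit 7133500)) p14_19_2 (nat_lit 3) (nat_lit 57) (nat_lit 58) = true := by decide +kernel
def p14_19_2_58 : pfC (piC [(nat_lit 37297016), (nat_lit 23751559), (nat_lit 15232604)] (nat_lit 7133500)) p14_19_2 (nat_lit 3) (nat_lit 58) (nat_lit 59) = true := by decide +kernel
def p14_19_2_59 : pfC (piC [(nat_lit 37297016), (nat_lit 23751559), (nat_lit 15232604)] (nat_lit 7133500)) p14_19_2 (nat_lit 3) (nat_lit 59) (nat_lit 60) = true := by decide +kernel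
def p14_19_2_60 : pfC (piC [(nat_lit 37297016), (nat_lit 23751559), (nat_lit 15232604)] (nat_lit 7133500)) p14_19_2 (nat_lit 3) (nat_lit 60) (nat_lit 61) = true := by decide +kernel
def p14_19_2_61 : pfC (piC [(nat_lit 37297016), (nat_lit 23751559), (nat_lit 15232604)] (nat_lit 7133500)) p14_19_2 (nat_lit 3) (nat_lit 61) (nat_lit 62) = true := by decide +kernel
def p14_19_2_62 : pfC (piC [(nat_lit 37297016), (nat_lit 23751559), (nat_lit 15232604)] (nat_lit 7133500)) p14_19_2 (nat_lit 3) (nat_lit 62) (nat_lit 63) = true := by decide +kernel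
def p14_19_2_63 : pfC (piC [(nat_lit 37297016), (nat_lit 23751559), (nat_lit 15232604)] (nat_lit 7133500)) p14_19_2 (nat_lit 3) (nat_lit 63) (nat_lit 64) = true := by decide +kernel
def p14_19_2_64 : pfC (piC [(nat_lit 37297016), (nat_lit 23751559), (nat_lit 15232604)] (nat_lit 7133500)) p14_19_2 (nat_lit 3) (nat_lit 64) (nat_lit 65) = true := by decide +kernel
def p14_19_2_65 : pfC (piC [(nat_lit 37297016), (nat_lit 23751559), (nat_lit 15232604)] (nat_lit 7133500)) p14_19_2 (nat_lit 3) (nat_lit 65) (nat_lit 66) = true := by decide +kernel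
def p14_19_2_66 : pfC (piC [(nat_lit 37297016), (nat_lit 23751559), (nat_lit 15232604)] (nat_lit 7133500)) p14_19_2 (nat_lit 3) (nat_lit 66) (nat_lit 67) = true := by decide +kernel
def p14_19_2_67 : pfC (piC [(nat_lit 37297016), (nat_lit 23751559), (nat_lit 15232604)] (nat_lit 7133500)) p14_19_2 (nat_lit 3) (nat_lit 67) (nat_lit 68) = true := by decide +kernel
def p14_19_2_68 : pfC (piC [(nat_lit 37297016), (nat_lit 23751559), (nat_lit 15232604)] (nat_lit 7133500)) p14_19_2 (nat_lit 3) (nat_lit 68) (nat_lit 69) = true := by decide +kernel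
def p14_19_2_69 : pfC (piC [(nat_lit 37297016), (nat_lit 23751559), (nat_lit 15232604)] (nat_lit 7133500)) p14_19_2 (nat_lit 3) (nat_lit 69) (nat_lit 70) = true := by decide +kernel
def p14_19_2_70 : pfC (piC [(nat_lit 37297016), (nat_lit 23751559), (nat_lit 15232604)] (nat_lit 7133500)) p14_19_2 (nat_lit 3) (nat_lit 70) (nat_lit 71) = true := by decide +kernel
def p14_19_2_71 : pfC (piC [(nat_lit 37297016), (nat_lit 23751559), (nat_lit 15232604)] (nat_lit 7133500)) p14_19_2 (nat_lit 3) (nat_lit 71) (nat_lit 72) = true := by decide +kernel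
def p14_19_2_72 : pfC (piC [(nat_lit 37297016), (nat_lit 23751559), (nat_lit 15232604)] (nat_lit 7133500)) p14_19_2 (nat_lit 3) (nat_lit 72) (nat_lit 73) = true := by decide +kernel
def p14_19_2_73 : pfC (piC [(nat_lit 37297016), (nat_lit 23751559), (nat_lit 15232604)] (nat_lit 7133500)) p14_19_2 (nat_lit 3) (nat_lit 73) (nat_lit 74) = true := by decide +kernel
def p14_19_2_74 : pfC (piC [(nat_lit 37297016), (nat_lit 23751559), (nat_lit 15232604)] (nat_lit 7133500)) p14_19_2 (nat_lit 3) (nat_lit 74) (nat_lit 75) = true := by decide +kernel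
def p14_19_2_75 : pfC (piC [(nat_lit 37297016), (nat_lit 23751559), (nat_lit 15232604)] (nat_lit 7133500)) p14_19_2 (nat_lit 3) (nat_lit 75) (nat_lit 76) = true := by decide +kernel
def p14_19_2_76 : pfC (piC [(nat_lit 37297016), (nat_lit 23751559), (nat_lit 15232604)] (nat_lit 7133500)) p14_19_2 (nat_lit 3) (nat_lit 76) (nat_lit 77) = true := by decide +kernel
def p14_19_2_77 : pfC (piC [(nat_lit 37297016), (nat_lit 23751559), (nat_lit 15232604)] (nat_lit 7133500)) p14_19_2 (nat_lit 3) (nat_lit 77) (nat_lit 78) = true := by decide +kernel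
def p14_19_2_78 : pfC (piC [(nat_lit 37297016), (nat_lit 23751559), (nat_lit 15232604)] (nat_lit 7133500)) p14_19_2 (nat_lit 3) (nat_lit 78) (nat_lit 79) = true := by decide +kernel
def p14_19_2_79 : pfC (piC [(nat_lit 37297016), (nat_lit 23751559), (nat_lit 15232604)] (nat_lit 7133500)) p14_19_2 (nat_lit 3) (nat_lit 79) (nat_lit 80) = true := by decide +kernel
def p14_19_2_80 : pfC (piC [(nat_lit 37297016), (nat_lit 23751559), (nat_lit 15232604)] (nat_lit 7133500)) p14_19_2 (nat_lit 3) (nat_lit 80) (nat_lit 81) = true := by decide +kernel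
def p14_19_2_81 : pfC (piC [(nat_lit 37297016), (nat_lit 23751559), (nat_lit 15232604)] (nat_lit 7133500)) p14_19_2 (nat_lit 3) (nat_lit 81) (nat_lit 82) = true := by decide +kernel
def p14_19_2_82 : pfC (piC [(nat_lit 37297016), (nat_lit 23751559), (nat_lit 15232604)] (nat_lit 7133500)) p14_19_2 (nat_lit 3) (nat_lit 82) (nat_lit 83) = true := by decide +kernel
def p14_19_2_83 : pfC (piC [(nat_lit 37297016), (nat_lit 23751559), (nat_lit 15232604)] (nat_lit 7133500)) p14_19_2 (nat_lit 3) (nat_lit 83) (nat_lit 84) = true := by decide +kernel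
def p14_19_2_84 : pfC (piC [(nat_lit 37297016), (nat_lit 23751559), (nat_lit 15232604)] (nat_lit 7133500)) p14_19_2 (nat_lit 3) (nat_lit 84) (nat_lit 85) = true := by decide +kernel
def p14_19_2_85 : pfC (piC [(nat_lit 37297016), (nat_lit 23751559), (nat_lit 15232604)] (nat_lit 7133500)) p14_19_2 (nat_lit 3) (nat_lit 85) (nat_lit 86) = true := by decide +kernel
def p14_19_2_86 : pfC (piC [(nat_lit 37297016), (nat_lit 23751559), (nat_lit 15232604)] (nat_lit 7133500)) p14_19_2 (nat_lit 3) (nat_lit 86) (nat_lit 87) = true := by decide +kernel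
def p14_19_2_87 : pfC (piC [(nat_lit 37297016), (nat_lit 23751559), (nat_lit 15232604)] (nat_lit 7133500)) p14_19_2 (nat_lit 3) (nat_lit 87) (nat_lit 88) = true := by decide +kernel
def p14_19_2_88 : pfC (piC [(nat_lit 37297016), (nat_lit 23751559), (nat_lit 15232604)] (nat_lit 7133500)) p14_19_2 (nat_lit 3) (nat_lit 88) (nat_lit 89) = true := by decide +kernel
def p14_19_2_89 : pfC (piC [(nat_lit 37297016), (nat_lit 23751559), (nat_lit 15232604)] (nat_lit 7133500)) p14_19_2 (nat_lit 3) (nat_lit 89) (nat_lit 90) = true := by decide +kernel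
def p14_19_2_90 : pfC (piC [(nat_lit 37297016), (nat_lit 23751559), (nat_lit 15232604)] (nat_lit 7133500)) p14_19_2 (nat_lit 3) (nat_lit 90) (nat_lit 91) = true := by decide +kernel
def p14_19_2_91 : pfC (piC [(nat_lit 37297016), (nat_lit 23751559), (nat_lit 15232604)] (nat_lit 7133500)) p14_19_2 (nat_lit 3) (nat_lit 91) (nat_lit 92) = true := by decide +kernel
def p14_19_2_92 : pfC (piC [(nat_lit 37297016), (nat_lit 23751559), (nat_lit 15232604)] (nat_lit 7133500)) p14_19_2 (nat_lit 3) (nat_lit 92) (nat_lit 93) = true := by decide +kernel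
def p14_19_2_93 : pfC (piC [(nat_lit 37297016), (nat_lit 23751559), (nat_lit 15232604)] (nat_lit 7133500)) p14_19_2 (nat_lit 3) (nat_lit 93) (nat_lit 94) = true := by decide +kernel
def p14_19_2_94 : pfC (piC [(nat_lit 37297016), (nat_lit 23751559), (nat_lit 15232604)] (nat_lit 7133500)) p14_19_2 (nat_lit 3) (nat_lit 94) (nat_lit 95) = true := by decide +kernel
def p14_19_2_95 : pfC (piC [(nat_lit 37297016), (nat_lit 23751559), (nat_lit 15232604)] (nat_lit 7133500)) p14_19_2 (nat_lit 3) (nat_lit 95) (nat_lit 96) = true := by decide +kernel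
def p14_19_2_96 : pfC (piC [(nat_lit 37297016), (nat_lit 23751559), (nat_lit 15232604)] (nat_lit 7133500)) p14_19_2 (nat_lit 3) (nat_lit 96) (nat_lit 97) = true := by decide +kernel
def p14_19_2_97 : pfC (piC [(nat_lit 37297016), (nat_lit 23751559), (nat_lit 15232604)] (nat_lit 7133500)) p14_19_2 (nat_lit 3) (nat_lit 97) (nat_lit 98) = true := by decide +kernel
def p14_19_2_98 : pfC (piC [(nat_lit 37297016), (nat_lit 23751559), (nat_lit 15232604)] (nat_lit 7133500)) p14_19_2 (nat_lit 3) (nat_lit 98) (nat_lit 99) = true := by decide +kernel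
def p14_19_2_99 : pfC (piC [(nat_lit 37297016), (nat_lit 23751559), (nat_lit 15232604)] (nat_lit 7133500)) p14_19_2 (nat_lit 3) (nat_lit 99) (nat_lit 100) = true := by decide +kernel
def p14_19_2_100 : pfC (piC [(nat_lit 37297016), (nat_lit 23751559), (nat_lit 15232604)] (nat_lit 7133500)) p14_19_2 (nat_lit 3) (nat_lit 100) (nat_lit 101) = true := by decide +kernel
def p14_19_2_101 : pfC (piC [(nat_lit 37297016), (nat_lit 23751559), (nat_lit 15232604)] (nat_lit 7133500)) p14_19_2 (nat_lit 3) (nat_lit 101) (nat_lit 102) = true := by decide +kernel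
def p14_19_2_102 : pfC (piC [(nat_lit 37297016), (nat_lit 23751559), (nat_lit 15232604)] (nat_lit 7133500)) p14_19_2 (nat_lit 3) (nat_lit 102) (nat_lit 103) = true := by decide +kernel
def p14_19_2_103 : pfC (piC [(nat_lit 37297016), (nat_lit 23751559), (nat_lit 15232604)] (nat_lit 7133500)) p14_19_2 (nat_lit 3) (nat_lit 103) (nat_lit 104) = true := by decide +kernel
def p14_19_2_104 : pfC (piC [(nat_lit 37297016), (nat_lit 23751559), (nat_lit 15232604)] (nat_lit 7133500)) p14_19_2 (nat_lit 3) (nat_lit 104) (nat_lit 105) = true := by decide +kernel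
def p14_19_2_105 : pfC (piC [(nat_lit 37297016), (nat_lit 23751559), (nat_lit 15232604)] (nat_lit 7133500)) p14_19_2 (nat_lit 3) (nat_lit 105) (nat_lit 106) = true := by decide +kernel
def p14_19_2_106 : pfC (piC [(nat_lit 37297016), (nat_lit 23751559), (nat_lit 15232604)] (nat_lit 7133500)) p14_19_2 (nat_lit 3) (nat_lit 106) (nat_lit 107) = true := by decide +kernel
def p14_19_2_107 : pfC (piC [(nat_lit 37297016), (nat_lit 23751559), (nat_lit 15232604)] (nat_lit 7133500)) p14_19_2 (nat_lit 3) (nat_lit 107) (nat_lit 108) = true := by decide +kernel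
def p14_19_2_108 : pfC (piC [(nat_lit 37297016), (nat_lit 23751559), (nat_lit 15232604)] (nat_lit 7133500)) p14_19_2 (nat_lit 3) (nat_lit 108) (nat_lit 109) = true := by decide +kernel
def p14_19_2_109 : pfC (piC [(nat_lit 37297016), (nat_lit 23751559), (nat_lit 15232604)] (nat_lit 7133500)) p14_19_2 (nat_lit 3) (nat_lit 109) (nat_lit 110) = true := by decide +kernel
def p14_19_2_110 : pfC (piC [(nat_lit 37297016), (nat_lit 23751559), (nat_lit 15232604)] (nat_lit 7133500)) p14_19_2 (nat_lit 3) (nat_lit 110) (nat_lit 111) = true := by decide +kernel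
def p14_19_2_111 : pfC (piC [(nat_lit 37297016), (nat_lit 23751559), (nat_lit 15232604)] (nat_lit 7133500)) p14_19_2 (nat_lit 3) (nat_lit 111) (nat_lit 112) = true := by decide +kernel
def p14_19_2_112 : pfC (piC [(nat_lit 37297016), (nat_lit 23751559), (nat_lit 15232604)] (nat_lit 7133500)) p14_19_2 (nat_lit 3) (nat_lit 112) (nat_lit 113) = true := by decide +kernel
def p14_19_2_113 : pfC (piC [(nat_lit 37297016), (nat_lit 23751559), (nat_lit 15232604)] (nat_lit 7133500)) p14_19_2 (nat_lit 3) (nat_lit 113) (nat_lit 114) = true := by decide +kernel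
def p14_19_2_114 : pfC (piC [(nat_lit 37297016), (nat_lit 23751559), (nat_lit 15232604)] (nat_lit 7133500)) p14_19_2 (nat_lit 3) (nat_lit 114) (nat_lit 115) = true := by decide +kernel
def p14_19_2_115 : pfC (piC [(nat_lit 37297016), (nat_lit 23751559), (nat_lit 15232604)] (nat_lit 7133500)) p14_19_2 (nat_lit 3) (nat_lit 115) (nat_lit 116) = true := by decide +kernel
def p14_19_2_116 : pfC (piC [(nat_lit 37297016), (nat_lit 23751559), (nat_lit 15232604)] (nat_lit 7133500)) p14_19_2 (nat_lit 3) (nat_lit 116) (nat_lit 117) = true := by decide +kernel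
def p14_19_2_117 : pfC (piC [(nat_lit 37297016), (nat_lit 23751559), (nat_lit 15232604)] (nat_lit 7133500)) p14_19_2 (nat_lit 3) (nat_lit 117) (nat_lit 118) = true := by decide +kernel
def p14_19_2_118 : pfC (piC [(nat_lit 37297016), (nat_lit 23751559), (nat_lit 15232604)] (nat_lit 7133500)) p14_19_2 (nat_lit 3) (nat_lit 118) (nat_lit 119) = true := by decide +kernel
def p14_19_2_119 : pfC (piC [(nat_lit 37297016), (nat_lit 23751559), (nat_lit 15232604)] (nat_lit 7133500)) p14_19_2 (nat_lit 3) (nat_lit 119) (nat_lit 120) = true := by decide +kernel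
def p14_19_2_120 : pfC (piC [(nat_lit 37297016), (nat_lit 23751559), (nat_lit 15232604)] (nat_lit 7133500)) p14_19_2 (nat_lit 3) (nat_lit 120) (nat_lit 121) = true := by decide +kernel
def p14_19_2_121 : pfC (piC [(nat_lit 37297016), (nat_lit 23751559), (nat_lit 15232604)] (nat_lit 7133500)) p14_19_2 (nat_lit 3) (nat_lit 121) (nat_lit 122) = true := by decide +kernel
def p14_19_2_122 : pfC (piC [(nat_lit 37297016), (nat_lit 23751559), (nat_lit 15232604)] (nat_lit 7133500)) p14_19_2 (nat_lit 3) (nat_lit 122) (nat_lit 123) = true := by decide +kernel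
def p14_19_2_123 : pfC (piC [(nat_lit 37297016), (nat_lit 23751559), (nat_lit 15232604)] (nat_lit 7133500)) p14_19_2 (nat_lit 3) (nat_lit 123) (nat_lit 124) = true := by decide +kernel
def p14_19_2_124 : pfC (piC [(nat_lit 37297016), (nat_lit 23751559), (nat_lit 15232604)] (nat_lit 7133500)) p14_19_2 (nat_lit 3) (nat_lit 124) (nat_lit 125) = true := by decide +kernel
def p14_19_2_125 : pfC (piC [(nat_lit 37297016), (nat_lit 23751559), (nat_lit 15232604)] (nat_lit 7133500)) p14_19_2 (nat_lit 3) (nat_lit 125) (nat_lit 126) = true := by decide +kernel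
def p14_19_2_126 : pfC (piC [(nat_lit 37297016), (nat_lit 23751559), (nat_lit 15232604)] (nat_lit 7133500)) p14_19_2 (nat_lit 3) (nat_lit 126) (nat_lit 127) = true := by decide +kernel
def p14_19_2_127 : pfC (piC [(nat_lit 37297016), (nat_lit 23751559), (nat_lit 15232604)] (nat_lit 7133500)) p14_19_2 (nat_lit 3) (nat_lit 127) (nat_lit 128) = true := by decide +kernel
def p14_19_2_128 : pfC (piC [(nat_lit 37297016), (nat_lit 23751559), (nat_lit 15232604)] (nat_lit 7133500)) p14_19_2 (nat_lit 3) (nat_lit 128) (nat_lit 129) = true := by decide +kernel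
def p14_19_2_129 : pfC (piC [(nat_lit 37297016), (nat_lit 23751559), (nat_lit 15232604)] (nat_lit 7133500)) p14_19_2 (nat_lit 3) (nat_lit 129) (nat_lit 130) = true := by decide +kernel
def p14_19_2_130 : pfC (piC [(nat_lit 37297016), (nat_lit 23751559), (nat_lit 15232604)] (nat_lit 7133500)) p14_19_2 (nat_lit 3) (nat_lit 130) (nat_lit 131) = true := by decide +kernel
def p14_19_2_131 : pfC (piC [(nat_lit 37297016), (nat_lit 23751559), (nat_lit 15232604)] (nat_lit 7133500)) p14_19_2 (nat_lit 3) (nat_lit 131) (nat_lit 132) = true := by decide +kernel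
def p14_19_2_132 : pfC (piC [(nat_lit 37297016), (nat_lit 23751559), (nat_lit 15232604)] (nat_lit 7133500)) p14_19_2 (nat_lit 3) (nat_lit 132) (nat_lit 133) = true := by decide +kernel
def p14_19_2_133 : pfC (piC [(nat_lit 37297016), (nat_lit 23751559), (nat_lit 15232604)] (nat_lit 7133500)) p14_19_2 (nat_lit 3) (nat_lit 133) (nat_lit 134) = true := by decide +kernel
def p14_19_2_134 : pfC (piC [(nat_lit 37297016), (nat_lit 23751559), (nat_lit 15232604)] (nat_lit 7133500)) p14_19_2 (nat_lit 3) (nat_lit 134) (nat_lit 135) = true := by decide +kernel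
def p14_19_2_135 : pfC (piC [(nat_lit 37297016), (nat_lit 23751559), (nat_lit 15232604)] (nat_lit 7133500)) p14_19_2 (nat_lit 3) (nat_lit 135) (nat_lit 136) = true := by decide +kernel
def p14_19_2_136 : pfC (piC [(nat_lit 37297016), (nat_lit 23751559), (nat_lit 15232604)] (nat_lit 7133500)) p14_19_2 (nat_lit 3) (nat_lit 136) (nat_lit 137) = true := by decide +kernel
def p14_19_2_137 : pfC (piC [(nat_lit 37297016), (nat_lit 23751559), (nat_lit 15232604)] (nat_lit 7133500)) p14_19_2 (nat_lit 3) (nat_lit 137) (nat_lit 138) = true := by decide +kernel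
def p14_19_2_138 : pfC (piC [(nat_lit 37297016), (nat_lit 23751559), (nat_lit 15232604)] (nat_lit 7133500)) p14_19_2 (nat_lit 3) (nat_lit 138) (nat_lit 139) = true := by decide +kernel
def p14_19_2_139 : pfC (piC [(nat_lit 37297016), (nat_lit 23751559), (nat_lit 15232604)] (nat_lit 7133500)) p14_19_2 (nat_lit 3) (nat_lit 139) (nat_lit 140) = true := by decide +kernel
def p14_19_2_140 : pfC (piC [(nat_lit 37297016), (nat_lit 23751559), (nat_lit 15232604)] (nat_lit 7133500)) p14_19_2 (nat_lit 3) (nat_lit 140) (nat_lit 141) = true := by decide +kernel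
def p14_19_2_141 : pfC (piC [(nat_lit 37297016), (nat_lit 23751559), (nat_lit 15232604)] (nat_lit 7133500)) p14_19_2 (nat_lit 3) (nat_lit 141) (nat_lit 142) = true := by decide +kernel
def p14_19_2_142 : pfC (piC [(nat_lit 37297016), (nat_lit 23751559), (nat_lit 15232604)] (nat_lit 7133500)) p14_19_2 (nat_lit 3) (nat_lit 142) (nat_lit 143) = true := by decide +kernel
def p14_19_2_143 : pfC (piC [(nat_lit 37297016), (nat_lit 23751559), (nat_lit 15232604)] (nat_lit 7133500)) p14_19_2 (nat_lit 3) (nat_lit 143) (nat_lit 144) = true := by decide +kernel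
def p14_19_2_144 : pfC (piC [(nat_lit 37297016), (nat_lit 23751559), (nat_lit 15232604)] (nat_lit 7133500)) p14_19_2 (nat_lit 3) (nat_lit 144) (nat_lit 145) = true := by decide +kernel
def p14_19_2_145 : pfC (piC [(nat_lit 37297016), (nat_lit 23751559), (nat_lit 15232604)] (nat_lit 7133500)) p14_19_2 (nat_lit 3) (nat_lit 145) (nat_lit 146) = true := by decide +kernel
def p14_19_2_146 : pfC (piC [(nat_lit 37297016), (nat_lit 23751559), (nat_lit 15232604)] (nat_lit 7133500)) p14_19_2 (nat_lit 3) (nat_lit 146) (nat_lit 147) = true := by decide +kernel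
def p14_19_2_147 : pfC (piC [(nat_lit 37297016), (nat_lit 23751559), (nat_lit 15232604)] (nat_lit 7133500)) p14_19_2 (nat_lit 3) (nat_lit 147) (nat_lit 148) = true := by decide +kernel
def p14_19_2_148 : pfC (piC [(nat_lit 37297016), (nat_lit 23751559), (nat_lit 15232604)] (nat_lit 7133500)) p14_19_2 (nat_lit 3) (nat_lit 148) (nat_lit 149) = true := by decide +kernel
def p14_19_2_149 : pfC (piC [(nat_lit 37297016), (nat_lit 23751559), (nat_lit 15232604)] (nat_lit 7133500)) p14_19_2 (nat_lit 3) (nat_lit 149) (nat_lit 150) = true := by decide +kernel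
def p14_19_2_150 : pfC (piC [(nat_lit 37297016), (nat_lit 23751559), (nat_lit 15232604)] (nat_lit 7133500)) p14_19_2 (nat_lit 3) (nat_lit 150) (nat_lit 151) = true := by decide +kernel
def p14_19_2_151 : pfC (piC [(nat_lit 37297016), (nat_lit 23751559), (nat_lit 15232604)] (nat_lit 7133500)) p14_19_2 (nat_lit 3) (nat_lit 151) (nat_lit 152) = true := by decide +kernel
def p14_19_2_152 : pfC (piC [(nat_lit 37297016), (nat_lit 23751559), (nat_lit 15232604)] (nat_lit 7133500)) p14_19_2 (nat_lit 3) (nat_lit 152) (nat_lit 153) = true := by decide +kernel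
def p14_19_2_153 : pfC (piC [(nat_lit 37297016), (nat_lit 23751559), (nat_lit 15232604)] (nat_lit 7133500)) p14_19_2 (nat_lit 3) (nat_lit 153) (nat_lit 154) = true := by decide +kernel
def p14_19_2_154 : pfC (piC [(nat_lit 37297016), (nat_lit 23751559), (nat_lit 15232604)] (nat_lit 7133500)) p14_19_2 (nat_lit 3) (nat_lit 154) (nat_lit 155) = true := by decide +kernel
def p14_19_2_155 : pfC (piC [(nat_lit 37297016), (nat_lit 23751559), (nat_lit 15232604)] (nat_lit 7133500)) p14_19_2 (nat_lit 3) (nat_lit 155) (nat_lit 156) = true := by decide +kernel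
def p14_19_2_156 : pfC (piC [(nat_lit 37297016), (nat_lit 23751559), (nat_lit 15232604)] (nat_lit 7133500)) p14_19_2 (nat_lit 3) (nat_lit 156) (nat_lit 157) = true := by decide +kernel
def p14_19_2_157 : pfC (piC [(nat_lit 37297016), (nat_lit 23751559), (nat_lit 15232604)] (nat_lit 7133500)) p14_19_2 (nat_lit 3) (nat_lit 157) (nat_lit 158) = true := by decide +kernel
def p14_19_2_158 : pfC (piC [(nat_lit 37297016), (nat_lit 23751559), (nat_lit 15232604)] (nat_lit 7133500)) p14_19_2 (nat_lit 3) (nat_lit 158) (nat_lit 159) = true := by decide +kernel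
def p14_19_2_159 : pfC (piC [(nat_lit 37297016), (nat_lit 23751559), (nat_lit 15232604)] (nat_lit 7133500)) p14_19_2 (nat_lit 3) (nat_lit 159) (nat_lit 160) = true := by decide +kernel
def p14_19_2_160 : pfC (piC [(nat_lit 37297016), (nat_lit 23751559), (nat_lit 15232604)] (nat_lit 7133500)) p14_19_2 (nat_lit 3) (nat_lit 160) (nat_lit 161) = true := by decide +kernel
def p14_19_2_161 : pfC (piC [(nat_lit 37297016), (nat_lit 23751559), (nat_lit 15232604)] (nat_lit 7133500)) p14_19_2 (nat_lit 3) (nat_lit 161) (nat_lit 162) = true := by decide +kernel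
def p14_19_2_162 : pfC (piC [(nat_lit 37297016), (nat_lit 23751559), (nat_lit 15232604)] (nat_lit 7133500)) p14_19_2 (nat_lit 3) (nat_lit 162) (nat_lit 163) = true := by decide +kernel
def p14_19_2_163 : pfC (piC [(nat_lit 37297016), (nat_lit 23751559), (nat_lit 15232604)] (nat_lit 7133500)) p14_19_2 (nat_lit 3) (nat_lit 163) (nat_lit 164) = true := by decide +kernel
def p14_19_2_164 : pfC (piC [(nat_lit 37297016), (nat_lit 23751559), (nat_lit 15232604)] (nat_lit 7133500)) p14_19_2 (nat_lit 3) (nat_lit 164) (nat_lit 165) = true := by decide +kernel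
def p14_19_2_165 : pfC (piC [(nat_lit 37297016), (nat_lit 23751559), (nat_lit 15232604)] (nat_lit 7133500)) p14_19_2 (nat_lit 3) (nat_lit 165) (nat_lit 166) = true := by decide +kernel
def p14_19_2_166 : pfC (piC [(nat_lit 37297016), (nat_lit 23751559), (nat_lit 15232604)] (nat_lit 7133500)) p14_19_2 (nat_lit 3) (nat_lit 166) (nat_lit 167) = true := by decide +kernel
def p14_19_2_167 : pfC (piC [(nat_lit 37297016), (nat_lit 23751559), (nat_lit 15232604)] (nat_lit 7133500)) p14_19_2 (nat_lit 3) (nat_lit 167) (nat_lit 168) = true := by decide +kernel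
def p14_19_2_168 : pfC (piC [(nat_lit 37297016), (nat_lit 23751559), (nat_lit 15232604)] (nat_lit 7133500)) p14_19_2 (nat_lit 3) (nat_lit 168) (nat_lit 169) = true := by decide +kernel
def p14_19_2_169 : pfC (piC [(nat_lit 37297016), (nat_lit 23751559), (nat_lit 15232604)] (nat_lit 7133500)) p14_19_2 (nat_lit 3) (nat_lit 169) (nat_lit 170) = true := by decide +kernel
def p14_19_2_170 : pfC (piC [(nat_lit 37297016), (nat_lit 23751559), (nat_lit 15232604)] (nat_lit 7133500)) p14_19_2 (nat_lit 3) (nat_lit 170) (nat_lit 171) = true := by decide +kernel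
def p14_19_2_171 : pfC (piC [(nat_lit 37297016), (nat_lit 23751559), (nat_lit 15232604)] (nat_lit 7133500)) p14_19_2 (nat_lit 3) (nat_lit 171) (nat_lit 172) = true := by decide +kernel
def p14_19_2_172 : pfC (piC [(nat_lit 37297016), (nat_lit 23751559), (nat_lit 15232604)] (nat_lit 7133500)) p14_19_2 (nat_lit 3) (nat_lit 172) (nat_lit 173) = true := by decide +kernel
def p14_19_2_173 : pfC (piC [(nat_lit 37297016), (nat_lit 23751559), (nat_lit 15232604)] (nat_lit 7133500)) p14_19_2 (nat_lit 3) (nat_lit 173) (nat_lit 174) = true := by decide +kernel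
def p14_19_2_174 : pfC (piC [(nat_lit 37297016), (nat_lit 23751559), (nat_lit 15232604)] (nat_lit 7133500)) p14_19_2 (nat_lit 3) (nat_lit 174) (nat_lit 175) = true := by decide +kernel
def p14_19_2_175 : pfC (piC [(nat_lit 37297016), (nat_lit 23751559), (nat_lit 15232604)] (nat_lit 7133500)) p14_19_2 (nat_lit 3) (nat_lit 175) (nat_lit 176) = true := by decide +kernel
def p14_19_2_176 : pfC (piC [(nat_lit 37297016), (nat_lit 23751559), (nat_lit 15232604)] (nat_lit 7133500)) p14_19_2 (nat_lit 3) (nat_lit 176) (nat_lit 177) = true := by decide +kernel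
def p14_19_2_177 : pfC (piC [(nat_lit 37297016), (nat_lit 23751559), (nat_lit 15232604)] (nat_lit 7133500)) p14_19_2 (nat_lit 3) (nat_lit 177) (nat_lit 178) = true := by decide +kernel
def p14_19_2_178 : pfC (piC [(nat_lit 37297016), (nat_lit 23751559), (nat_lit 15232604)] (nat_lit 7133500)) p14_19_2 (nat_lit 3) (nat_lit 178) (nat_lit 179) = true := by decide +kernel
def p14_19_2_179 : pfC (piC [(nat_lit 37297016), (nat_lit 23751559), (nat_lit 15232604)] (nat_lit 7133500)) p14_19_2 (nat_lit 3) (nat_lit 179) (nat_lit 180) = true := by decide +kernel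
def p14_19_2_180 : pfC (piC [(nat_lit 37297016), (nat_lit 23751559), (nat_lit 15232604)] (nat_lit 7133500)) p14_19_2 (nat_lit 3) (nat_lit 180) (nat_lit 181) = true := by decide +kernel
def p14_19_2_181 : pfC (piC [(nat_lit 37297016), (nat_lit 23751559), (nat_lit 15232604)] (nat_lit 7133500)) p14_19_2 (nat_lit 3) (nat_lit 181) (nat_lit 182) = true := by decide +kernel
def p14_19_2_182 : pfC (piC [(nat_lit 37297016), (nat_lit 23751559), (nat_lit 15232604)] (nat_lit 7133500)) p14_19_2 (nat_lit 3) (nat_lit 182) (nat_lit 183) = true := by decide +kernel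
def p14_19_2_183 : pfC (piC [(nat_lit 37297016), (nat_lit 23751559), (nat_lit 15232604)] (nat_lit 7133500)) p14_19_2 (nat_lit 3) (nat_lit 183) (nat_lit 184) = true := by decide +kernel
def p14_19_2_184 : pfC (piC [(nat_lit 37297016), (nat_lit 23751559), (nat_lit 15232604)] (nat_lit 7133500)) p14_19_2 (nat_lit 3) (nat_lit 184) (nat_lit 185) = true := by decide +kernel
def p14_19_2_185 : pfC (piC [(nat_lit 37297016), (nat_lit 23751559), (nat_lit 15232604)] (nat_lit 7133500)) p14_19_2 (nat_lit 3) (nat_lit 185) (nat_lit 186) = true := by decide +kernel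
def p14_19_2_186 : pfC (piC [(nat_lit 37297016), (nat_lit 23751559), (nat_lit 15232604)] (nat_lit 7133500)) p14_19_2 (nat_lit 3) (nat_lit 186) (nat_lit 187) = true := by decide +kernel
def p14_19_2_187 : pfC (piC [(nat_lit 37297016), (nat_lit 23751559), (nat_lit 15232604)] (nat_lit 7133500)) p14_19_2 (nat_lit 3) (nat_lit 187) (nat_lit 188) = true := by decide +kernel
def p14_19_2_188 : pfC (piC [(nat_lit 37297016), (nat_lit 23751559), (nat_lit 15232604)] (nat_lit 7133500)) p14_19_2 (nat_lit 3) (nat_lit 188) (nat_lit 189) = true := by decide +kernel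
def p14_19_2_189 : pfC (piC [(nat_lit 37297016), (nat_lit 23751559), (nat_lit 15232604)] (nat_lit 7133500)) p14_19_2 (nat_lit 3) (nat_lit 189) (nat_lit 190) = true := by decide +kernel
def p14_19_2_190 : pfC (piC [(nat_lit 37297016), (nat_lit 23751559), (nat_lit 15232604)] (nat_lit 7133500)) p14_19_2 (nat_lit 3) (nat_lit 190) (nat_lit 191) = true := by decide +kernel
def p14_19_2_191 : pfC (piC [(nat_lit 37297016), (nat_lit 23751559), (nat_lit 15232604)] (nat_lit 7133500)) p14_19_2 (nat_lit 3) (nat_lit 191) (nat_lit 192) = true := by decide +kernel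
def p14_19_2_192 : pfC (piC [(nat_lit 37297016), (nat_lit 23751559), (nat_lit 15232604)] (nat_lit 7133500)) p14_19_2 (nat_lit 3) (nat_lit 192) (nat_lit 193) = true := by decide +kernel
def p14_19_2_193 : pfC (piC [(nat_lit 37297016), (nat_lit 23751559), (nat_lit 15232604)] (nat_lit 7133500)) p14_19_2 (nat_lit 3) (nat_lit 193) (nat_lit 194) = true := by decide +kernel
def p14_19_2_194 : pfC (piC [(nat_lit 37297016), (nat_lit 23751559), (nat_lit 15232604)] (nat_lit 7133500)) p14_19_2 (nat_lit 3) (nat_lit 194) (nat_lit 195) = true := by decide +kernel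
def p14_19_2_195 : pfC (piC [(nat_lit 37297016), (nat_lit 23751559), (nat_lit 15232604)] (nat_lit 7133500)) p14_19_2 (nat_lit 3) (nat_lit 195) (nat_lit 196) = true := by decide +kernel
theorem p14_19_2_T : PfS (PiF n14_19.reverse (nat_lit 7133500)) p14_19_2 (nat_lit 3) [] 0 :=
  pftab_of (los := [(nat_lit 37297016), (nat_lit 23751559), (nat_lit 15232604)]) (by decide +kernel) (hi := (nat_lit 196)) (PfP.trans (PfP.trans (PfP.trans (PfP.trans (PfP.trans (PfP.trans (PfP.trans (PfP.trans (PfP.trans (PfP.trans (PfP.trans (PfP.trans (PfP.trans (PfP.trans (PfP.trans (PfP.trans (PfP.trans (PfP.trans (PfP.trans (PfP.trans (PfP.trans (PfP.trans (PfP.trans (PfP.trans (PfP.trans (PfP.trans (PfP.trans (PfP.trans (PfP.trans (PfP.trans (PfP.trans (PfP.trans (PfP.trans (PfP.trans (PfP.trans (PfP.trans (PfP.trans (PfP.trans (PfP.trans (PfP.trans (PfP.trans (PfP.trans (PfP.trans (PfP.trans (PfP.trans (PfP.trans (PfP.trans (PfP.trans (PfP.trans (PfP.trans (PfP.trans (PfP.trans (PfP.trans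 (PfP.trans (PfP.trans (PfP.trans (PfP.trans (PfP.trans (PfP.trans (PfP.trans (PfP.trans (PfP.trans (PfP.trans (PfP.trans (PfP.trans (PfP.trans (PfP.trans (PfP.trans (PfP.trans (PfP.trans (PfP.trans (PfP.trans (PfP.trans (PfP.trans (PfP.trans (PfP.trans (PfP.trans (PfP.trans (PfP.trans (PfP.trans (PfP.trans (PfP.trans (PfP.trans (PfP.trans (PfP.trans (PfP.trans (PfP.trans (PfP.trans (PfP.trans (PfP.trans (PfP.trans (PfP.trans (PfP.trans (PfP.trans (PfP.trans (PfP.trans (PfP.trans (PfP.trans (PfP.trans (PfP.trans (PfP.trans (PfP.trans (PfP.trans (PfP.trans (PfP.trans (PfP.trans (PfP.trans (PfP.trans (PfP.trans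
 (PfP.trans (PfP.trans (PfP.trans (PfP.trans (PfP.trans (PfP.trans (PfP.trans (PfP.trans (PfP.trans (PfP.trans (PfP.trans (PfP.trans (PfP.trans (PfP.trans (PfP.trans (PfP.trans (PfP.trans (PfP.trans (PfP.trans (PfP.trans (PfP.trans (PfP.trans (PfP.trans (PfP.trans (PfP.trans (PfP.trans (PfP.trans (PfP.trans (PfP.trans (PfP.trans (PfP.trans (PfP.trans (PfP.trans (PfP.trans (PfP.trans (PfP.trans (PfP.trans (PfP.trans (PfP.trans (PfP.trans (PfP.trans (PfP.trans (PfP.trans (PfP.trans (PfP.trans (PfP.trans (PfP.trans (PfP.trans (PfP.trans (PfP.trans (PfP.trans (PfP.trans (PfP.trans (PfP.trans (PfP.trans (PfP.trans (PfP.trans (PfP.trans (PfP.trans (PfP.trans (PfP.trans (PfP.trans (PfP.trans (PfP.trans (PfP.trans (PfP.trans (PfP.trans (PfP.trans (PfP.trans (PfP.trans (PfP.trans (PfP.trans (PfP.trans (PfP.trans (PfP.trans (PfP.trans (PfP.trans (PfP.trans (PfP.trans (PfP.trans (PfP.trans (PfP.trans (PfP.trans (PfP.trans (PfP.trans (PfP.trans (pfC_sound p14_19_2_0) (pfC_sound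 p14_19_2_1)) (pfC_sound p14_19_2_2)) (pfC_sound p14_19_2_3)) (pfC_sound p14_19_2_4)) (pfC_sound p14_19_2_5)) (pfC_sound p14_19_2_6)) (pfC_sound p14_19_2_7)) (pfC_sound p14_19_2_8)) (pfC_sound p14_19_2_9)) (pfC_sound
 p14_19_2_10)) (pfC_sound p14_19_2_11)) (pfC_sound p14_19_2_12)) (pfC_sound p14_19_2_13)) (pfC_sound p14_19_2_14)) (pfC_sound p14_19_2_15)) (pfC_sound p14_19_2_16)) (pfC_sound p14_19_2_17)) (pfC_sound p14_19_2_18)) (pfC_sound p14_19_2_19)) (pfC_sound p14_19_2_20)) (pfC_sound p14_19_2_21)) (pfC_sound p14_19_2_22)) (pfC_sound p14_19_2_23)) (pfC_sound p14_19_2_24)) (pfC_sound p14_19_2_25)) (pfC_sound p14_19_2_26)) (pfC_sound p14_19_2_27)) (pfC_sound p14_19_2_28)) (pfC_sound p14_19_2_29)) (pfC_sound p14_19_2_30)) (pfC_sound p14_19_2_31)) (pfC_sound p14_19_2_32)) (pfC_sound p14_19_2_33)) (pfC_sound p14_19_2_34)) (pfC_sound p14_19_2_35)) (pfC_sound p14_19_2_36)) (pfC_sound p14_19_2_37)) (pfC_sound p14_19_2_38)) (pfC_sound p14_19_2_39)) (pfC_sound p14_19_2_40))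 (pfC_sound p14_19_2_41)) (pfC_sound p14_19_2_42)) (pfC_sound p14_19_2_43)) (pfC_sound p14_19_2_44)) (pfC_sound p14_19_2_45)) (pfC_sound p14_19_2_46)) (pfC_sound p14_19_2_47)) (pfC_sound p14_19_2_48)) (pfC_sound p14_19_2_49)) (pfC_sound p14_19_2_50)) (pfC_sound p14_19_2_51)) (pfC_sound p14_19_2_52)) (pfC_sound p14_19_2_53)) (pfC_sound p14_19_2_54)) (pfC_sound p14_19_2_55)) (pfC_sound p14_19_2_56)) (pfC_sound p14_19_2_57)) (pfC_sound
 p14_19_2_58)) (pfC_sound p14_19_2_59)) (pfC_sound p14_19_2_60)) (pfC_sound p14_19_2_61)) (pfC_sound p14_19_2_62)) (pfC_sound p14_19_2_63)) (pfC_sound p14_19_2_64)) (pfC_sound p14_19_2_65)) (pfC_sound p14_19_2_66)) (pfC_sound p14_19_2_67)) (pfC_sound p14_19_2_68)) (pfC_sound p14_19_2_69)) (pfC_sound p14_19_2_70)) (pfC_sound p14_19_2_71)) (pfC_sound p14_19_2_72)) (pfC_sound p14_19_2_73)) (pfC_sound p14_19_2_74)) (pfC_sound p14_19_2_75)) (pfC_sound p14_19_2_76)) (pfC_sound p14_19_2_77)) (pfC_sound p14_19_2_78)) (pfC_sound p14_19_2_79)) (pfC_sound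 p14_19_2_80)) (pfC_sound p14_19_2_81)) (pfC_sound p14_19_2_82)) (pfC_sound p14_19_2_83)) (pfC_sound p14_19_2_84)) (pfC_sound p14_19_2_85)) (pfC_sound p14_19_2_86)) (pfC_sound p14_19_2_87)) (pfC_sound p14_19_2_88)) (pfC_sound p14_19_2_89)) (pfC_sound p14_19_2_90)) (pfC_sound p14_19_2_91)) (pfC_sound p14_19_2_92)) (pfC_sound p14_19_2_93)) (pfC_sound p14_19_2_94)) (pfC_sound p14_19_2_95)) (pfC_sound p14_19_2_96)) (pfC_sound p14_19_2_97)) (pfC_sound p14_19_2_98)) (pfC_sound p14_19_2_99)) (pfC_sound p14_19_2_100)) (pfC_sound p14_19_2_101)) (pfC_sound p14_19_2_102)) (pfC_sound p14_19_2_103)) (pfC_sound p14_19_2_104)) (pfC_sound p14_19_2_105))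
 (pfC_sound p14_19_2_106)) (pfC_sound p14_19_2_107)) (pfC_sound p14_19_2_108)) (pfC_sound p14_19_2_109)) (pfC_sound p14_19_2_110)) (pfC_sound p14_19_2_111)) (pfC_sound p14_19_2_112)) (pfC_sound p14_19_2_113)) (pfC_sound p14_19_2_114)) (pfC_sound p14_19_2_115)) (pfC_sound p14_19_2_116)) (pfC_sound p14_19_2_117)) (pfC_sound p14_19_2_118)) (pfC_sound p14_19_2_119)) (pfC_sound p14_19_2_120)) (pfC_sound p14_19_2_121)) (pfC_sound p14_19_2_122)) (pfC_sound p14_19_2_123)) (pfC_sound p14_19_2_124)) (pfC_sound p14_19_2_125)) (pfC_sound p14_19_2_126)) (pfC_sound p14_19_2_127)) (pfC_sound p14_19_2_128)) (pfC_sound p14_19_2_129)) (pfC_sound p14_19_2_130)) (pfC_sound p14_19_2_131)) (pfC_sound p14_19_2_132)) (pfC_sound p14_19_2_133)) (pfC_sound p14_19_2_134)) (pfC_sound p14_19_2_135)) (pfC_sound p14_19_2_136)) (pfC_sound p14_19_2_137)) (pfC_sound p14_19_2_138)) (pfC_sound p14_19_2_139)) (pfC_sound p14_19_2_140)) (pfC_sound p14_19_2_141)) (pfC_sound p14_19_2_142)) (pfC_sound p14_19_2_143))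 (pfC_sound p14_19_2_144)) (pfC_sound p14_19_2_145)) (pfC_sound p14_19_2_146)) (pfC_sound p14_19_2_147)) (pfC_sound p14_19_2_148)) (pfC_sound p14_19_2_149)) (pfC_sound p14_19_2_150)) (pfC_sound p14_19_2_151))
 (pfC_sound p14_19_2_152)) (pfC_sound p14_19_2_153)) (pfC_sound p14_19_2_154)) (pfC_sound p14_19_2_155)) (pfC_sound p14_19_2_156)) (pfC_sound p14_19_2_157)) (pfC_sound p14_19_2_158)) (pfC_sound p14_19_2_159)) (pfC_sound p14_19_2_160)) (pfC_sound p14_19_2_161)) (pfC_sound p14_19_2_162)) (pfC_sound p14_19_2_163)) (pfC_sound p14_19_2_164)) (pfC_sound p14_19_2_165)) (pfC_sound p14_19_2_166)) (pfC_sound p14_19_2_167)) (pfC_sound p14_19_2_168)) (pfC_sound p14_19_2_169)) (pfC_sound p14_19_2_170)) (pfC_sound p14_19_2_171)) (pfC_sound p14_19_2_172)) (pfC_sound p14_19_2_173)) (pfC_sound p14_19_2_174)) (pfC_sound p14_19_2_175)) (pfC_sound p14_19_2_176)) (pfC_sound p14_19_2_177)) (pfC_sound p14_19_2_178)) (pfC_sound p14_19_2_179)) (pfC_sound p14_19_2_180)) (pfC_sound p14_19_2_181))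 (pfC_sound p14_19_2_182)) (pfC_sound p14_19_2_183)) (pfC_sound p14_19_2_184)) (pfC_sound p14_19_2_185)) (pfC_sound p14_19_2_186)) (pfC_sound p14_19_2_187)) (pfC_sound p14_19_2_188)) (pfC_sound p14_19_2_189)) (pfC_sound p14_19_2_190)) (pfC_sound p14_19_2_191)) (pfC_sound p14_19_2_192)) (pfC_sound p14_19_2_193)) (pfC_sound p14_19_2_194)) (pfC_sound p14_19_2_195)) (by decide +kernel)

def z14_19_2 : zOK yB14_19 (nat_lit 2) (nat_lit 600) (nat_lit 682) (nat_lit 7133500) (nat_lit 6254887) = true := by decide +kernel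
def g14_19_2 : gOK yB14_19.x P14_19 (nat_lit 1381) (q14_19 :: r14_19) (nat_lit 2) (nat_lit 600) (nat_lit 3) (nat_lit 682) (nat_lit 12712500) (nat_lit 12712500) (nat_lit 12712500) (nat_lit 12712500) [(nat_lit 800)] = true := by decide +kernel
def v14_19_2 : ivC P14_19 s14_19 w14_19 n14_19 (nat_lit 3) (nat_lit 4680) (nat_lit 2) (nat_lit 600) f184_0_600 f192_0_600 (nat_lit 3) (nat_lit 682) f184_0_682 f192_0_682 (nat_lit 7133500) (nat_lit 6254887) p14_19_2 = true := by decide +kernel
end CB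
end Pool.Agent.Lib.MP_6947cd_al
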