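import Pool.Agent.Lib.MP_6947cd_al.L.BoxDataB
import Pool.Agent.Lib.MP_6947cd_al.L.TeD1
import Pool.Agent.Lib.MP_6947cd_al.L.TeD2

/-!
Problem MP_6947cd_al (Chollet).  CASE B, rows `j`: boxes (generated).
-/

set_option autoImplicit false
set_option linter.defProp false
set_option maxRecDepth 20000

namespace Pool.Agent.Lib.MP_6947cd_al
namespace CB

open Ent Ent.Pk Fr Fr.WT CA

/-! box `yB14_20` -/

def P14_20 : BQ := ⟨(nat_lit 8), (nat_lit 4), (nat_lit 4), (nat_lit 0), (nat_lit 8), (nat_lit 940), (nat_lit 960), (nat_lit 90), [(nat_lit 180), (nat_lit 330), (nat_lit 650)], (nat_lit 148288000), (nat_lit 16000000), (nat_lit 16000000000)⟩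
def q14_20 : PC := ⟨(nat_lit 1000), [(nat_lit 90000), (nat_lit 180000), (nat_lit 330000), (nat_lit 650000)], (nat_lit 79228162532711081671548469249000000), (nat_lit 15851712000000), (nat_lit 15851712000000), (nat_lit 10000000)⟩
def r14_20 : List PC := [⟨(nat_lit 1330), [(nat_lit 90521), (nat_lit 180580), (nat_lit 331304), (nat_lit 651084)], (nat_lit 79597365770125431908806112756845069), (nat_lit 16338694422400), (nat_lit 16349525286400), (nat_lit 10057889)⟩, ⟨(nat_lit 1244), [(nat_lit 90367), (nat_lit 180332), (nat_lit 330291), (nat_lit 649910)], (nat_lit 79504034994657969098109758022305845), (nat_lit 16216626712320), (nat_lit 16224634987520), (nat_lit 10040778)⟩, ⟨(nat_lit 5276), [(nat_lit 100506), (nat_lit 189079), (nat_lit 345703), (nat_lit 684580)], (nat_lit 72056270807754922141658553615624804), (nat_lit 21059355073280), (nat_lit 21199696814080), (nat_lit 11167334)⟩]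
def s14_20 : List PB := [⟨(nat_lit 26600), (nat_lit 1448336000000), [(nat_lit 180580), (nat_lit 331304), (nat_lit 651084)], (nat_lit 79597365770125431908806112756845069), (nat_lit 1142238601265024), (nat_lit 1142249432129024), (nat_lit 52800)⟩, ⟨(nat_lit 24880), (nat_lit 1445872000000), [(nat_lit 180332), (nat_lit 330291), (nat_lit 649910)], (nat_lit 79504034994657969098109758022305845), (nat_lit 1142116533554944), (nat_lit 1142124541830144), (nat_lit 39040)⟩, ⟨(nat_lit 105520), (nat_lit 1608096000000), [(nat_lit 189079), (nat_lit 345703), (nat_lit 684580)], (nat_lit 72056270807754922141658553615624804), (nat_lit 1146959261915904), (nat_lit 1147099603656704), (nat_lit 684160)⟩]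
def n14_20 : List KN := [⟨(nat_lit 650), (nat_lit 330), (nat_lit 14696761), (nat_lit 8416473)⟩, ⟨(nat_lit 330), (nat_lit 180), (nat_lit 22827826), (nat_lit 14696761)⟩, ⟨(nat_lit 180), (nat_lit 90), (nat_lit 35404596), (nat_lit 22827826)⟩]
def w14_20 : List ℕ := [(nat_lit 52800), (nat_lit 39040), (nat_lit 684160)]
def par14_20 : parC yB14_20 P14_20 s14_20 r14_20 q14_20 n14_20 w14_20 = true := by decide +kernel

def p14_20_0 : PF := (PF.cons (PF.cons (PF.cons (PF.leaf (nat_lit 1024771) (nat_lit 3503386) (nat_lit 63605426) (nat_lit 3503386) [(nat_lit 0), (nat_lit 0), (nat_lit 0)]) (PF.cons (PF.leaf (nat_lit 1254007) (nat_lit 395880) (nat_lit 63120467) (nat_lit 3592464) [(nat_lit 395880), (nat_lit 0), (nat_lit 0)]) (PF.cons (PF.leaf (nat_lit 1528536) (nat_lit 436913) (nat_lit 62547009) (nat_lit 3687975) [(nat_lit 436913), (nat_lit 0), (nat_lit 0)]) (PF.cons (PF.leaf (nat_lit 1841506) (nat_lit 474748) (nat_lit 61899431) (nat_lit 3785134) [(nat_lit 474748), (nat_lit 0), (nat_lit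 0)]) (PF.cons (PF.leaf (nat_lit 2188316) (nat_lit 509866) (nat_lit 61188575) (nat_lit 3880772) [(nat_lit 509866), (nat_lit 0), (nat_lit 0)]) (PF.cons (PF.leaf (nat_lit 2564971) (nat_lit 542517) (nat_lit 60423480) (nat_lit 3972744) [(nat_lit 542517), (nat_lit 0), (nat_lit 0)]) (PF.cons (PF.leaf (nat_lit 2967912) (nat_lit 572851) (nat_lit 59612109) (nat_lit 4059594) [(nat_lit 572851), (nat_lit 0), (nat_lit 0)]) (PF.cons (PF.leaf (nat_lit 3393861) (nat_lit 600966) (nat_lit 58761687) (nat_lit 4140361) [(nat_lit 600966), (nat_lit 0), (nat_lit 0)]) (PF.cons (PF.leaf (nat_lit 3839680) (nat_lit 626940) (nat_lit 57878847) (nat_lit 4214439)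
 [(nat_lit 626940), (nat_lit 0), (nat_lit 0)]) (PF.cons (PF.leaf (nat_lit 4302468) (nat_lit 650846) (nat_lit 56969710) (nat_lit 4281486) [(nat_lit 650846), (nat_lit 0), (nat_lit 0)]) (PF.cons (PF.leaf (nat_lit 4779476) (nat_lit 672753) (nat_lit 56039917) (nat_lit 4341363) [(nat_lit 672753), (nat_lit 0), (nat_lit 0)]) (PF.cons (PF.leaf (nat_lit 5268177) (nat_lit 692735) (nat_lit 55094647) (nat_lit 4394078) [(nat_lit 692735), (nat_lit 0), (nat_lit 0)]) (PF.cons (PF.leaf (nat_lit 5766173) (nat_lit 710869) (nat_lit 54138628) (nat_lit 4439753) [(nat_lit 710869), (nat_lit 0), (nat_lit 0)]) (PF.cons (PF.leaf (nat_lit 6271304) (nat_lit 727236) (nat_lit 53176149) (nat_lit 4478595) [(nat_lit 727236), (nat_lit 0), (nat_lit 0)]) (PF.cons (PF.leaf (nat_lit 6781570) (nat_lit 741919) (nat_lit 52211072) (nat_lit 4510870) [(nat_lit 741919), (nat_lit 0), (nat_lit 0)]) (PF.cons (PF.leaf (nat_lit 7295133) (nat_lit 755004) (nat_lit 51246849) (nat_lit 4536890) [(nat_lit 755004), (nat_lit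 0), (nat_lit 0)]) (PF.cons (PF.leaf (nat_lit 7810394) (nat_lit 766579) (nat_lit 50286539) (nat_lit 4556996) [(nat_lit 766579), (nat_lit 0), (nat_lit 0)]) (PF.cons PF.nil (PF.cons PF.nil (PF.cons PF.nil (PF.cons PF.nil
 (PF.cons PF.nil PF.nil)))))))))))))))))))))) (PF.cons (PF.cons (PF.leaf (nat_lit 1850962) (nat_lit 2010608) (nat_lit 61257389) (nat_lit 3840814) [(nat_lit 0), (nat_lit 2010608), (nat_lit 0)]) (PF.cons (PF.leaf (nat_lit 2159819) (nat_lit 502320) (nat_lit 60606344) (nat_lit 3922288) [(nat_lit 502320), (nat_lit 2077859), (nat_lit 0)]) (PF.cons (PF.leaf (nat_lit 2503740) (nat_lit 535469) (nat_lit 59890728) (nat_lit 4003167) [(nat_lit 535469), (nat_lit 2143977), (nat_lit 0)]) (PF.cons (PF.leaf (nat_lit 2877352) (nat_lit 566045) (nat_lit 59122008) (nat_lit 4081176) [(nat_lit 566045), (nat_lit 2207491), (nat_lit 0)]) (PF.cons (PF.leaf (nat_lit 3276589) (nat_lit 594278) (nat_lit 58309363) (nat_lit 4154826) [(nat_lit 594278), (nat_lit 2267508), (nat_lit 0)]) (PF.cons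 (PF.leaf (nat_lit 3697901) (nat_lit 620315) (nat_lit 57460603) (nat_lit 4223145) [(nat_lit 620315), (nat_lit 2323488), (nat_lit 0)]) (PF.cons (PF.leaf (nat_lit 4138097) (nat_lit 644263) (nat_lit 56582588) (nat_lit 4285524) [(nat_lit 644263), (nat_lit 2375118), (nat_lit 0)]) (PF.cons (PF.leaf (nat_lit 4594255) (nat_lit 666213) (nat_lit 55681447) (nat_lit 4341621) [(nat_lit 666213), (nat_lit 2422247), (nat_lit 0)]) (PF.cons
 (PF.leaf (nat_lit 5063685) (nat_lit 686250) (nat_lit 54762694) (nat_lit 4391286) [(nat_lit 686250), (nat_lit 2464832), (nat_lit 0)]) (PF.cons (PF.leaf (nat_lit 5543909) (nat_lit 704453) (nat_lit 53831296) (nat_lit 4434515) [(nat_lit 704453), (nat_lit 2502915), (nat_lit 0)]) (PF.cons (PF.leaf (nat_lit 6032685) (nat_lit 720907) (nat_lit 52891724) (nat_lit 4471414) [(nat_lit 720907), (nat_lit 2536596), (nat_lit 0)]) (PF.cons (PF.leaf (nat_lit 6527926) (nat_lit 735694) (nat_lit 51947979) (nat_lit 4502167) [(nat_lit 735694), (nat_lit 2566020), (nat_lit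 0)]) (PF.cons (PF.leaf (nat_lit 7027752) (nat_lit 748900) (nat_lit 51003630) (nat_lit 4527016) [(nat_lit 748900), (nat_lit 2591360), (nat_lit 0)]) (PF.cons (PF.leaf (nat_lit 7530430) (nat_lit 760609) (nat_lit 50061832) (nat_lit 4546242) [(nat_lit 760609), (nat_lit 2612814), (nat_lit 0)]) (PF.cons (PF.leaf (nat_lit 8034462) (nat_lit 770907) (nat_lit 49125364) (nat_lit 4560155) [(nat_lit 770907), (nat_lit 2630590), (nat_lit 0)]) (PF.cons (PF.leaf (nat_lit 8538470) (nat_lit 779878) (nat_lit 48196644) (nat_lit 4569079) [(nat_lit 779878), (nat_lit 2644907), (nat_lit 0)]) (PF.cons PF.nil (PF.cons PF.nil (PF.cons PF.nil (PF.cons PF.nil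
 PF.nil)))))))))))))))))))) (PF.cons (PF.cons (PF.leaf (nat_lit 2819764) (nat_lit 2220487) (nat_lit 58560665) (nat_lit 4107172) [(nat_lit 0), (nat_lit 2220487), (nat_lit 0)]) (PF.cons (PF.leaf (nat_lit 3186435) (nat_lit 585794) (nat_lit 57800230) (nat_lit 4172424) [(nat_lit 585794), (nat_lit 2275182), (nat_lit 0)]) (PF.cons (PF.leaf (nat_lit 3579287) (nat_lit 612304) (nat_lit 56995920) (nat_lit 4234118) [(nat_lit 612304), (nat_lit 2327082), (nat_lit 0)]) (PF.cons (PF.leaf (nat_lit 3993964) (nat_lit 636578) (nat_lit 56156774) (nat_lit 4291221) [(nat_lit 636578), (nat_lit 2375540), (nat_lit 0)]) (PF.cons (PF.leaf (nat_lit 4427013) (nat_lit 658774) (nat_lit 55290248) (nat_lit 4343098) [(nat_lit 658774), (nat_lit 2420183), (nat_lit 0)]) (PF.cons (PF.leaf (nat_lit 4875389) (nat_lit 679014) (nat_lit 54402713) (nat_lit 4389387) [(nat_lit 679014), (nat_lit 2460818), (nat_lit 0)]) (PF.cons (PF.leaf (nat_lit 5336405) (nat_lit 697402) (nat_lit 53499717) (nat_lit 4429926) [(nat_lit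 697402), (nat_lit 2497376), (nat_lit 0)]) (PF.cons (PF.leaf (nat_lit 5807606) (nat_lit 714032) (nat_lit 52586138) (nat_lit 4464695) [(nat_lit 714032), (nat_lit 2529876), (nat_lit 0)]) (PF.cons (PF.leaf (nat_lit
 6286774) (nat_lit 728994) (nat_lit 51666283) (nat_lit 4493781) [(nat_lit 728994), (nat_lit 2558397), (nat_lit 0)]) (PF.cons (PF.leaf (nat_lit 6771942) (nat_lit 742376) (nat_lit 50743951) (nat_lit 4517344) [(nat_lit 742376), (nat_lit 2583063), (nat_lit 0)]) (PF.cons (PF.leaf (nat_lit 7261270) (nat_lit 754266) (nat_lit 49822483) (nat_lit 4535603) [(nat_lit 754266), (nat_lit 2604031), (nat_lit 0)]) (PF.cons (PF.leaf (nat_lit 7753172) (nat_lit 764748) (nat_lit 48904807) (nat_lit 4548812) [(nat_lit 764748), (nat_lit 2621477), (nat_lit 0)]) (PF.cons (PF.leaf (nat_lit 8246181) (nat_lit 773908) (nat_lit 47993472) (nat_lit 4557251) [(nat_lit 773908), (nat_lit 2635590), (nat_lit 0)]) (PF.cons (PF.leaf (nat_lit 8739012) (nat_lit 781828) (nat_lit 47090682) (nat_lit 4561214)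 [(nat_lit 781828), (nat_lit 2646571), (nat_lit 0)]) (PF.cons PF.nil (PF.cons PF.nil (PF.cons PF.nil (PF.cons PF.nil PF.nil)))))))))))))))))) (PF.cons (PF.cons (PF.leaf (nat_lit 3877734) (nat_lit 2377645) (nat_lit 55676666) (nat_lit 4299211) [(nat_lit 0), (nat_lit 2377645), (nat_lit 0)]) (PF.cons (PF.leaf (nat_lit 4283312) (nat_lit 649974) (nat_lit 54854843) (nat_lit 4346190) [(nat_lit 649974), (nat_lit 2419267), (nat_lit
 0)]) (PF.cons (PF.leaf (nat_lit 4707572) (nat_lit 670692) (nat_lit 54006022) (nat_lit 4388633) [(nat_lit 670692), (nat_lit 2457590), (nat_lit 0)]) (PF.cons (PF.leaf (nat_lit 5146999) (nat_lit 689460) (nat_lit 53137171) (nat_lit 4426143) [(nat_lit 689460), (nat_lit 2492371), (nat_lit 0)]) (PF.cons (PF.leaf (nat_lit 5598744) (nat_lit 706412) (nat_lit 52254098) (nat_lit 4458536) [(nat_lit 706412), (nat_lit 2523508), (nat_lit 0)]) (PF.cons (PF.leaf (nat_lit 6060328) (nat_lit 721661) (nat_lit 51361748) (nat_lit 4485769) [(nat_lit 721661), (nat_lit 2550995),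 (nat_lit 0)]) (PF.cons (PF.leaf (nat_lit 6529548) (nat_lit 735308) (nat_lit 50464378) (nat_lit 4507909) [(nat_lit 735308), (nat_lit 2574891), (nat_lit 0)]) (PF.cons (PF.leaf (nat_lit 7004443) (nat_lit 747448) (nat_lit 49565672) (nat_lit 4525094) [(nat_lit 747448), (nat_lit 2595300), (nat_lit 0)]) (PF.cons (PF.leaf (nat_lit 7483268) (nat_lit 758173) (nat_lit 48668825) (nat_lit 4537518) [(nat_lit 758173), (nat_lit 2612361), (nat_lit 0)]) (PF.cons (PF.leaf (nat_lit 7964452) (nat_lit 767568) (nat_lit 47776595) (nat_lit 4545408) [(nat_lit 767568), (nat_lit 2626231), (nat_lit 0)]) (PF.cons (PF.leaf (nat_lit 8446618) (nat_lit 775718)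
 (nat_lit 46891361) (nat_lit 4549018) [(nat_lit 775718), (nat_lit 2637082), (nat_lit 0)]) (PF.cons (PF.leaf (nat_lit 8928543) (nat_lit 782705) (nat_lit 46015158) (nat_lit 4548615) [(nat_lit 782705), (nat_lit 2645094), (nat_lit 0)]) (PF.cons PF.nil (PF.cons PF.nil (PF.cons PF.nil (PF.cons PF.nil PF.nil)))))))))))))))) (PF.cons (PF.cons (PF.leaf (nat_lit 4981345) (nat_lit 2488155) (nat_lit 52732767) (nat_lit 4423422) [(nat_lit 0), (nat_lit 2488155), (nat_lit 0)]) (PF.cons (PF.leaf (nat_lit 5410304) (nat_lit 697723) (nat_lit 51887393) (nat_lit 4453087) [(nat_lit 697723), (nat_lit 2517652), (nat_lit 0)]) (PF.cons (PF.leaf (nat_lit 5851866) (nat_lit 713450) (nat_lit 51028040) (nat_lit 4478220) [(nat_lit 713450), (nat_lit 2543912), (nat_lit 0)]) (PF.cons (PF.leaf (nat_lit 6303217) (nat_lit 727505) (nat_lit 50159932) (nat_lit 4498756) [(nat_lit 727505), (nat_lit 2566901), (nat_lit 0)]) (PF.cons (PF.leaf (nat_lit 6762101) (nat_lit 740007) (nat_lit 49287426) (nat_lit 4514735)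 [(nat_lit 740007), (nat_lit 2586655), (nat_lit 0)]) (PF.cons (PF.leaf (nat_lit 7226534) (nat_lit 751059) (nat_lit 48414200) (nat_lit 4526275) [(nat_lit 751059), (nat_lit 2603260), (nat_lit 0)]) (PF.cons (PF.leaf
 (nat_lit 7694783) (nat_lit 760758) (nat_lit 47543378) (nat_lit 4533544) [(nat_lit 760758), (nat_lit 2616834), (nat_lit 0)]) (PF.cons (PF.leaf (nat_lit 8165325) (nat_lit 769195) (nat_lit 46677623) (nat_lit 4536745) [(nat_lit 769195), (nat_lit 2627518), (nat_lit 0)]) (PF.cons (PF.leaf (nat_lit 8636818) (nat_lit 776454) (nat_lit 45819195) (nat_lit 4536107) [(nat_lit 776454), (nat_lit 2635467), (nat_lit 0)]) (PF.cons (PF.leaf (nat_lit 9108075) (nat_lit 782617) (nat_lit 44970010) (nat_lit 4531870) [(nat_lit 782617), (nat_lit 2640844), (nat_lit 0)]) (PF.cons (PF.leaf (nat_lit 9578038) (nat_lit 787759) (nat_lit 44131677) (nat_lit 4524281) [(nat_lit 787759), (nat_lit 2643814), (nat_lit 0)]) (PF.cons PF.nil (PF.cons PF.nil (PF.cons PF.nil PF.nil)))))))))))))) (PF.cons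 (PF.cons (PF.leaf (nat_lit 6097207) (nat_lit 2559194) (nat_lit 49822884) (nat_lit 4489954) [(nat_lit 0), (nat_lit 2559194), (nat_lit 0)]) (PF.cons (PF.leaf (nat_lit 6537454) (nat_lit 731703) (nat_lit 48981795) (nat_lit 4504555) [(nat_lit 731703), (nat_lit 2578151), (nat_lit 0)]) (PF.cons (PF.leaf (nat_lit 6985552) (nat_lit 743223) (nat_lit 48136265) (nat_lit 4515088) [(nat_lit 743223), (nat_lit 2594202), (nat_lit 0)])
 (PF.cons (PF.leaf (nat_lit 7439279) (nat_lit 753335) (nat_lit 47290101) (nat_lit 4521647) [(nat_lit 753335), (nat_lit 2607411), (nat_lit 0)]) (PF.cons (PF.leaf (nat_lit 7896883) (nat_lit 762143) (nat_lit 46446459) (nat_lit 4524376) [(nat_lit 762143), (nat_lit 2617880), (nat_lit 0)]) (PF.cons (PF.leaf (nat_lit 8356819) (nat_lit 769743) (nat_lit 45607976) (nat_lit 4523458) [(nat_lit 769743), (nat_lit 2625732), (nat_lit 0)]) (PF.cons (PF.leaf (nat_lit 8817768) (nat_lit 776222) (nat_lit 44776856) (nat_lit 4519095) [(nat_lit 776222), (nat_lit 2631105), (nat_lit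 0)]) (PF.cons (PF.leaf (nat_lit 9278560) (nat_lit 781661) (nat_lit 43954943) (nat_lit 4511504) [(nat_lit 781661), (nat_lit 2634147), (nat_lit 0)]) (PF.cons (PF.leaf (nat_lit 9738164) (nat_lit 786137) (nat_lit 43143768) (nat_lit 4500909) [(nat_lit 786137), (nat_lit 2635007), (nat_lit 0)]) (PF.cons PF.nil (PF.cons PF.nil (PF.cons PF.nil PF.nil)))))))))))) (PF.cons (PF.cons (PF.leaf (nat_lit 7201219) (nat_lit 2597987) (nat_lit 47011189) (nat_lit 4509698) [(nat_lit 0), (nat_lit 2597987), (nat_lit 0)]) (PF.cons (PF.leaf (nat_lit 7643777) (nat_lit 754384) (nat_lit 46193506) (nat_lit 4511880) [(nat_lit 754384), (nat_lit 2608173),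
 (nat_lit 0)]) (PF.cons (PF.leaf (nat_lit 8090583) (nat_lit 762430) (nat_lit 45378026) (nat_lit 4510629) [(nat_lit 762430), (nat_lit 2615882), (nat_lit 0)]) (PF.cons (PF.leaf (nat_lit 8539902) (nat_lit 769308) (nat_lit 44567449) (nat_lit 4506105) [(nat_lit 769308), (nat_lit 2621221), (nat_lit 0)]) (PF.cons (PF.leaf (nat_lit 8990401) (nat_lit 775111) (nat_lit 43763990) (nat_lit 4498490) [(nat_lit 775111), (nat_lit 2624314), (nat_lit 0)]) (PF.cons (PF.leaf (nat_lit 9440896) (nat_lit 779922) (nat_lit 42969471) (nat_lit 4487978) [(nat_lit 779922), (nat_lit 2625292), (nat_lit 0)]) (PF.cons (PF.leaf (nat_lit 9890387) (nat_lit 783817) (nat_lit 42185387) (nat_lit 4474773) [(nat_lit 783817), (nat_lit 2624291), (nat_lit 0)]) (PF.cons PF.nil (PF.cons PF.nil (PF.cons PF.nil PF.nil)))))))))) (PF.cons (PF.cons (PF.leaf (nat_lit 8277056) (nat_lit 2611179) (nat_lit 44337711) (nat_lit 4492845) [(nat_lit 0), (nat_lit 2611179), (nat_lit 0)]) (PF.cons (PF.leaf (nat_lit 8715540) (nat_lit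 767975) (nat_lit 43555576) (nat_lit 4485182) [(nat_lit 767975), (nat_lit 2614296), (nat_lit 0)]) (PF.cons (PF.leaf (nat_lit 9155621) (nat_lit 773202) (nat_lit 42780034) (nat_lit 4474742) [(nat_lit 773202), (nat_lit
 2615376), (nat_lit 0)]) (PF.cons (PF.leaf (nat_lit 9595941) (nat_lit 777473) (nat_lit 42012943) (nat_lit 4461700) [(nat_lit 777473), (nat_lit 2614535), (nat_lit 0)]) (PF.cons (PF.leaf (nat_lit 10035500) (nat_lit 780868) (nat_lit 41255806) (nat_lit 4446241) [(nat_lit 780868), (nat_lit 2611898), (nat_lit 0)]) (PF.cons (PF.leaf (nat_lit 10473411) (nat_lit 783458) (nat_lit 40509837) (nat_lit 4428548) [(nat_lit 783458), (nat_lit 2607590), (nat_lit 0)]) (PF.cons PF.nil (PF.cons PF.nil PF.nil)))))))) (PF.cons (PF.cons (PF.leaf (nat_lit 9314458) (nat_lit 2604540) (nat_lit 41824241) (nat_lit 4448246) [(nat_lit 0), (nat_lit 2604540), (nat_lit 0)]) (PF.cons (PF.leaf (nat_lit 9744537) (nat_lit 774377) (nat_lit 41084565) (nat_lit 4433028) [(nat_lit 774377), (nat_lit 2602105),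 (nat_lit 0)]) (PF.cons (PF.leaf (nat_lit 10174287) (nat_lit 777348) (nat_lit 40354189) (nat_lit 4415636) [(nat_lit 777348), (nat_lit 2598036), (nat_lit 0)]) (PF.cons (PF.leaf (nat_lit 10602684) (nat_lit 779546) (nat_lit 39634354) (nat_lit 4396238) [(nat_lit 779546), (nat_lit 2592447), (nat_lit 0)]) (PF.cons PF.nil (PF.cons PF.nil PF.nil)))))) (PF.cons (PF.cons (PF.leaf (nat_lit 10307654) (nat_lit 2582885) (nat_lit
 39479604) (nat_lit 4383243) [(nat_lit 0), (nat_lit 2582885), (nat_lit 0)]) (PF.cons (PF.leaf (nat_lit 10726525) (nat_lit 775179) (nat_lit 38785569) (nat_lit 4362404) [(nat_lit 775179), (nat_lit 2576184), (nat_lit 0)]) (PF.cons PF.nil (PF.cons PF.nil PF.nil)))) (PF.cons (PF.cons (PF.leaf (nat_lit 11254030) (nat_lit 2550117) (nat_lit 37303900) (nat_lit 4303736) [(nat_lit 0), (nat_lit 2550117), (nat_lit 0)]) (PF.cons PF.nil PF.nil)) (PF.cons PF.nil (PF.cons PF.nil (PF.cons PF.nil (PF.cons PF.nil PF.nil))))))))))))))) (PF.cons (PF.cons (PF.cons (PF.leaf (nat_lit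 2868300) (nat_lit 4114137) (nat_lit 56541165) (nat_lit 4114137) [(nat_lit 0), (nat_lit 0), (nat_lit 6453509)]) (PF.cons (PF.leaf (nat_lit 3192217) (nat_lit 559235) (nat_lit 55880507) (nat_lit 4167316) [(nat_lit 559235), (nat_lit 0), (nat_lit 6501753)]) (PF.cons (PF.leaf (nat_lit 3547304) (nat_lit 588477) (nat_lit 55165228) (nat_lit 4218899) [(nat_lit 588477), (nat_lit 0), (nat_lit 6547729)]) (PF.cons (PF.leaf (nat_lit 3927733) (nat_lit 614631) (nat_lit 54407652) (nat_lit 4267428) [(nat_lit 614631), (nat_lit 0), (nat_lit 6589837)]) (PF.cons (PF.leaf (nat_lit 4329221) (nat_lit 638154) (nat_lit 53617156) (nat_lit 4311995)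
 [(nat_lit 638154), (nat_lit 0), (nat_lit 6627041)]) (PF.cons (PF.leaf (nat_lit 4748273) (nat_lit 659354) (nat_lit 52801296) (nat_lit 4352050) [(nat_lit 659354), (nat_lit 0), (nat_lit 6658692)]) (PF.cons (PF.leaf (nat_lit 5181849) (nat_lit 678454) (nat_lit 51966380) (nat_lit 4387285) [(nat_lit 678454), (nat_lit 0), (nat_lit 6684420)]) (PF.cons (PF.leaf (nat_lit 5627319) (nat_lit 695628) (nat_lit 51117780) (nat_lit 4417569) [(nat_lit 695628), (nat_lit 0), (nat_lit 6704059)]) (PF.cons (PF.leaf (nat_lit 6082350) (nat_lit 711023) (nat_lit 50260133) (nat_lit 4442892) [(nat_lit 711023), (nat_lit 0), (nat_lit 6717598)]) (PF.cons (PF.leaf (nat_lit 6544839) (nat_lit 724764) (nat_lit 49397459) (nat_lit 4463335) [(nat_lit 724764), (nat_lit 0), (nat_lit 6725140)]) (PF.cons (PF.leaf (nat_lit 7012888) (nat_lit 736964) (nat_lit 48533255) (nat_lit 4479044) [(nat_lit 736964), (nat_lit 0), (nat_lit 6726868)]) (PF.cons (PF.leaf (nat_lit 7484869) (nat_lit 747728) (nat_lit 47670559) (nat_lit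 4490210) [(nat_lit 747728), (nat_lit 0), (nat_lit 6723031)]) (PF.cons (PF.leaf (nat_lit 7959242) (nat_lit 757152) (nat_lit 46812003) (nat_lit 4497056) [(nat_lit 757152), (nat_lit 0), (nat_lit 6713916)]) (PF.cons
 (PF.leaf (nat_lit 8434684) (nat_lit 765329) (nat_lit 45959859) (nat_lit 4499826) [(nat_lit 765329), (nat_lit 0), (nat_lit 6699839)]) (PF.cons (PF.leaf (nat_lit 8910007) (nat_lit 772345) (nat_lit 45116074) (nat_lit 4498773) [(nat_lit 772345), (nat_lit 0), (nat_lit 6681130)]) (PF.cons PF.nil (PF.cons PF.nil (PF.cons PF.nil PF.nil)))))))))))))))))) (PF.cons (PF.cons (PF.leaf (nat_lit 3838306) (nat_lit 2351439) (nat_lit 53886962) (nat_lit 4274826) [(nat_lit 0), (nat_lit 2351439), (nat_lit 6595584)]) (PF.cons (PF.leaf (nat_lit 4208096) (nat_lit 626464) (nat_lit 53150785) (nat_lit 4314314) [(nat_lit 626464), (nat_lit 2390038), (nat_lit 6627210)]) (PF.cons (PF.leaf (nat_lit 4600104) (nat_lit 648762) (nat_lit 52380434) (nat_lit 4350473) [(nat_lit 648762), (nat_lit 2425875),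 (nat_lit 6654505)]) (PF.cons (PF.leaf (nat_lit 5009994) (nat_lit 668690) (nat_lit 51584630) (nat_lit 4382700) [(nat_lit 668690), (nat_lit 2458584), (nat_lit 6676824)]) (PF.cons (PF.leaf (nat_lit 5434455) (nat_lit 686522) (nat_lit 50770258) (nat_lit 4410659) [(nat_lit 686522), (nat_lit 2487993), (nat_lit 6693809)]) (PF.cons (PF.leaf (nat_lit 5870701) (nat_lit 702461) (nat_lit 49942954) (nat_lit 4434198) [(nat_lit
 702461), (nat_lit 2514049), (nat_lit 6705302)]) (PF.cons (PF.leaf (nat_lit 6316321) (nat_lit 716668) (nat_lit 49107438) (nat_lit 4453288) [(nat_lit 716668), (nat_lit 2536779), (nat_lit 6711295)]) (PF.cons (PF.leaf (nat_lit 6769189) (nat_lit 729279) (nat_lit 48267715) (nat_lit 4467993) [(nat_lit 729279), (nat_lit 2556260), (nat_lit 6711884)]) (PF.cons (PF.leaf (nat_lit 7227476) (nat_lit 740414) (nat_lit 47427203) (nat_lit 4478438) [(nat_lit 740414), (nat_lit 2572606), (nat_lit 6707244)]) (PF.cons (PF.leaf (nat_lit 7689511) (nat_lit 750180) (nat_lit 46588832)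 (nat_lit 4484794) [(nat_lit 750180), (nat_lit 2585956), (nat_lit 6697602)]) (PF.cons (PF.leaf (nat_lit 8153842) (nat_lit 758675) (nat_lit 45755109) (nat_lit 4487262) [(nat_lit 758675), (nat_lit 2596463), (nat_lit 6683226)]) (PF.cons (PF.leaf (nat_lit 8619178) (nat_lit 765989) (nat_lit 44928174) (nat_lit 4486061) [(nat_lit 765989), (nat_lit 2604287), (nat_lit 6664407)]) (PF.cons (PF.leaf (nat_lit 9084373) (nat_lit 772208) (nat_lit 44109847) (nat_lit 4481424) [(nat_lit 772208), (nat_lit 2609596), (nat_lit 6641448)]) (PF.cons (PF.leaf (nat_lit 9548418) (nat_lit 777411) (nat_lit 43301663) (nat_lit 4473585) [(nat_lit 777411),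
 (nat_lit 2612555), (nat_lit 6614661)]) (PF.cons PF.nil (PF.cons PF.nil PF.nil)))))))))))))))) (PF.cons (PF.cons (PF.leaf (nat_lit 4867004) (nat_lit 2453638) (nat_lit 51152631) (nat_lit 4379287) [(nat_lit 0), (nat_lit 2453638), (nat_lit 6669617)]) (PF.cons (PF.leaf (nat_lit 5265820) (nat_lit 675859) (nat_lit 50382029) (nat_lit 4404503) [(nat_lit 675859), (nat_lit 2481376), (nat_lit 6683667)]) (PF.cons (PF.leaf (nat_lit 5679977) (nat_lit 692663) (nat_lit 49592122) (nat_lit 4425971) [(nat_lit 692663), (nat_lit 2506229), (nat_lit 6692932)]) (PF.cons (PF.leaf (nat_lit 6106175) (nat_lit 707568) (nat_lit 48789143) (nat_lit 4443508) [(nat_lit 707568), (nat_lit 2528100), (nat_lit 6697254)]) (PF.cons (PF.leaf (nat_lit 6541826) (nat_lit 720762) (nat_lit 47978105) (nat_lit 4457066) [(nat_lit 720762), (nat_lit 2546984), (nat_lit 6696621)]) (PF.cons (PF.leaf (nat_lit 6984769) (nat_lit 732399) (nat_lit 47163133) (nat_lit 4466686) [(nat_lit 732399), (nat_lit 2562935), (nat_lit 6691122)])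 (PF.cons (PF.leaf (nat_lit 7433088) (nat_lit 742608) (nat_lit 46347669) (nat_lit 4472477) [(nat_lit 742608), (nat_lit 2576048), (nat_lit 6680917)]) (PF.cons (PF.leaf (nat_lit 7885140) (nat_lit 751501) (nat_lit
 45534608) (nat_lit 4474588) [(nat_lit 751501), (nat_lit 2586442), (nat_lit 6666220)]) (PF.cons (PF.leaf (nat_lit 8339485) (nat_lit 759179) (nat_lit 44726393) (nat_lit 4473200) [(nat_lit 759179), (nat_lit 2594252), (nat_lit 6647276)]) (PF.cons (PF.leaf (nat_lit 8794854) (nat_lit 765734) (nat_lit 43925082) (nat_lit 4468511) [(nat_lit 765734), (nat_lit 2599625), (nat_lit 6624352)]) (PF.cons (PF.leaf (nat_lit 9250127) (nat_lit 771252) (nat_lit 43132409) (nat_lit 4460730) [(nat_lit 771252), (nat_lit 2602711), (nat_lit 6597728)]) (PF.cons (PF.leaf (nat_lit 9704341) (nat_lit 775809) (nat_lit 42349820) (nat_lit 4450072) [(nat_lit 775809), (nat_lit 2603662), (nat_lit 6567688)]) (PF.cons PF.nil (PF.cons PF.nil PF.nil)))))))))))))) (PF.cons (PF.cons (PF.leaf (nat_lit 5919965)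 (nat_lit 2519735) (nat_lit 48432658) (nat_lit 4434073) [(nat_lit 0), (nat_lit 2519735), (nat_lit 6682874)]) (PF.cons (PF.leaf (nat_lit 6334938) (nat_lit 711059) (nat_lit 47656979) (nat_lit 4446290) [(nat_lit 711059), (nat_lit 2537849), (nat_lit 6680936)]) (PF.cons (PF.leaf (nat_lit 6759991) (nat_lit 723417) (nat_lit 46872622) (nat_lit 4454955) [(nat_lit 723417), (nat_lit 2553290), (nat_lit 6674529)]) (PF.cons (PF.leaf
 (nat_lit 7192574) (nat_lit 734232) (nat_lit 46084025) (nat_lit 4460088) [(nat_lit 734232), (nat_lit 2566088), (nat_lit 6663735)]) (PF.cons (PF.leaf (nat_lit 7630704) (nat_lit 743649) (nat_lit 45294781) (nat_lit 4461778) [(nat_lit 743649), (nat_lit 2576316), (nat_lit 6648704)]) (PF.cons (PF.leaf (nat_lit 8072691) (nat_lit 751789) (nat_lit 44507841) (nat_lit 4460157) [(nat_lit 751789), (nat_lit 2584078), (nat_lit 6629632)]) (PF.cons (PF.leaf (nat_lit 8517073) (nat_lit 758759) (nat_lit 43725648) (nat_lit 4455385) [(nat_lit 758759), (nat_lit 2589492), (nat_lit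 6606747)]) (PF.cons (PF.leaf (nat_lit 8962580) (nat_lit 764653) (nat_lit 42950234) (nat_lit 4447641) [(nat_lit 764653), (nat_lit 2592689), (nat_lit 6580295)]) (PF.cons (PF.leaf (nat_lit 9408100) (nat_lit 769557) (nat_lit 42183286) (nat_lit 4437116) [(nat_lit 769557), (nat_lit 2593806), (nat_lit 6550533)]) (PF.cons (PF.leaf (nat_lit 9852705) (nat_lit 773549) (nat_lit 41426198) (nat_lit 4424003) [(nat_lit 773549), (nat_lit 2592981), (nat_lit 6517722)]) (PF.cons PF.nil (PF.cons PF.nil PF.nil)))))))))))) (PF.cons (PF.cons (PF.leaf (nat_lit 6972133) (nat_lit 2556107) (nat_lit 45790932) (nat_lit 4447597) [(nat_lit 0), (nat_lit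
 2556107), (nat_lit 6645853)]) (PF.cons (PF.leaf (nat_lit 7393671) (nat_lit 734867) (nat_lit 45030277) (nat_lit 4448790) [(nat_lit 734867), (nat_lit 2566094), (nat_lit 6630500)]) (PF.cons (PF.leaf (nat_lit 7821305) (nat_lit 743625) (nat_lit 44268328) (nat_lit 4446886) [(nat_lit 743625), (nat_lit 2573756), (nat_lit 6611319)]) (PF.cons (PF.leaf (nat_lit 8253077) (nat_lit 751129) (nat_lit 43508210) (nat_lit 4441999) [(nat_lit 751129), (nat_lit 2579180), (nat_lit 6588495)]) (PF.cons (PF.leaf (nat_lit 8687466) (nat_lit 757493) (nat_lit 42752448) (nat_lit 4434272) [(nat_lit 757493), (nat_lit 2582469), (nat_lit 6562239)]) (PF.cons (PF.leaf (nat_lit 9123173) (nat_lit 762819) (nat_lit 42003103) (nat_lit 4423867) [(nat_lit 762819), (nat_lit 2583741), (nat_lit 6532781)]) (PF.cons (PF.leaf (nat_lit 9559091) (nat_lit 767192) (nat_lit 41261864) (nat_lit 4410956) [(nat_lit 767192), (nat_lit 2583119), (nat_lit 6500357)]) (PF.cons (PF.leaf (nat_lit 9994250) (nat_lit 770694) (nat_lit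 40530108) (nat_lit 4395717) [(nat_lit 770694), (nat_lit 2580728), (nat_lit 6465208)]) (PF.cons (PF.leaf (nat_lit 10427843) (nat_lit 773396) (nat_lit 39808958) (nat_lit 4378327) [(nat_lit 773396), (nat_lit 2576695),
 (nat_lit 6427572)]) (PF.cons PF.nil PF.nil)))))))))) (PF.cons (PF.cons (PF.leaf (nat_lit 8006062) (nat_lit 2568674) (nat_lit 43267773) (nat_lit 4428279) [(nat_lit 0), (nat_lit 2568674), (nat_lit 6569388)]) (PF.cons (PF.leaf (nat_lit 8427219) (nat_lit 749589) (nat_lit 42535142) (nat_lit 4420552) [(nat_lit 749589), (nat_lit 2572028), (nat_lit 6543384)]) (PF.cons (PF.leaf (nat_lit 8851520) (nat_lit 755450) (nat_lit 41806166) (nat_lit 4410261) [(nat_lit 755450), (nat_lit 2573440), (nat_lit 6514279)]) (PF.cons (PF.leaf (nat_lit 9277439) (nat_lit 760296) (nat_lit 41083009) (nat_lit 4397553) [(nat_lit 760296), (nat_lit 2573014), (nat_lit 6482289)]) (PF.cons (PF.leaf (nat_lit 9703835) (nat_lit 764219) (nat_lit 40367409) (nat_lit 4382583) [(nat_lit 764219), (nat_lit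 2570861), (nat_lit 6447635)]) (PF.cons (PF.leaf (nat_lit 10129719) (nat_lit 767302) (nat_lit 39660770) (nat_lit 4365514) [(nat_lit 767302), (nat_lit 2567095), (nat_lit 6410539)]) (PF.cons (PF.leaf (nat_lit 10554246) (nat_lit 769617) (nat_lit 38964217) (nat_lit 4346509) [(nat_lit 769617), (nat_lit 2561831), (nat_lit 6371222)]) (PF.cons PF.nil PF.nil)))))))) (PF.cons (PF.cons (PF.leaf (nat_lit 9010250) (nat_lit 2562631) (nat_lit
 40885992) (nat_lit 4383705) [(nat_lit 0), (nat_lit 2562631), (nat_lit 6463324)]) (PF.cons (PF.leaf (nat_lit 9426173) (nat_lit 757138) (nat_lit 40189129) (nat_lit 4369019) [(nat_lit 757138), (nat_lit 2560714), (nat_lit 6429237)]) (PF.cons (PF.leaf (nat_lit 9843068) (nat_lit 760687) (nat_lit 39499083) (nat_lit 4352287) [(nat_lit 760687), (nat_lit 2557220), (nat_lit 6392744)]) (PF.cons (PF.leaf (nat_lit 10259773) (nat_lit 763419) (nat_lit 38817324) (nat_lit 4333658) [(nat_lit 763419), (nat_lit 2552252), (nat_lit 6354057)]) (PF.cons (PF.leaf (nat_lit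 10675408) (nat_lit 765408) (nat_lit 38145020) (nat_lit 4313281) [(nat_lit 765408), (nat_lit 2545916), (nat_lit 6313379)]) (PF.cons PF.nil PF.nil)))))) (PF.cons (PF.cons (PF.leaf (nat_lit 9977675) (nat_lit 2542361) (nat_lit 38655945) (nat_lit 4320322) [(nat_lit 0), (nat_lit 2542361), (nat_lit 6336014)]) (PF.cons (PF.leaf (nat_lit 10385082) (nat_lit 759085) (nat_lit 37998843) (nat_lit 4300378) [(nat_lit 759085), (nat_lit 2536349), (nat_lit 6296057)]) (PF.cons (PF.leaf (nat_lit 10791915) (nat_lit 760806) (nat_lit 37350443) (nat_lit 4278853) [(nat_lit 760806), (nat_lit 2529084), (nat_lit 6254308)]) (PF.cons PF.nil PF.nil)))) (PF.cons (PF.cons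
 (PF.leaf (nat_lit 10904541) (nat_lit 2511456) (nat_lit 36579518) (nat_lit 4243404) [(nat_lit 0), (nat_lit 2511456), (nat_lit 6194241)]) (PF.cons (PF.leaf (nat_lit 11301340) (nat_lit 756711) (nat_lit 35963591) (nat_lit 4219620) [(nat_lit 756711), (nat_lit 2502331), (nat_lit 6150239)]) PF.nil)) (PF.cons PF.nil (PF.cons PF.nil (PF.cons PF.nil (PF.cons PF.nil PF.nil))))))))))))) (PF.cons (PF.cons (PF.cons (PF.leaf (nat_lit 4770752) (nat_lit 4329212) (nat_lit 49583393) (nat_lit 4329212) [(nat_lit 0), (nat_lit 0), (nat_lit 6598103)]) (PF.cons (PF.leaf (nat_lit 5136590) (nat_lit 649148) (nat_lit 48894407) (nat_lit 4350837) [(nat_lit 649148), (nat_lit 0), (nat_lit 6607209)]) (PF.cons (PF.leaf (nat_lit 5521590) (nat_lit 668045) (nat_lit 48178419) (nat_lit 4369441) [(nat_lit 668045), (nat_lit 0), (nat_lit 6612430)]) (PF.cons (PF.leaf (nat_lit 5921548) (nat_lit 684557) (nat_lit 47443454) (nat_lit 4384707) [(nat_lit 684557), (nat_lit 0), (nat_lit 6613488)]) (PF.cons (PF.leaf (nat_lit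 6333343) (nat_lit 699027) (nat_lit 46695658) (nat_lit 4396490) [(nat_lit 699027), (nat_lit 0), (nat_lit 6610276)]) (PF.cons (PF.leaf (nat_lit 6754416) (nat_lit 711706) (nat_lit 45939917) (nat_lit 4404762)
 [(nat_lit 711706), (nat_lit 0), (nat_lit 6602800)]) (PF.cons (PF.leaf (nat_lit 7182637) (nat_lit 722788) (nat_lit 45180205) (nat_lit 4409572) [(nat_lit 722788), (nat_lit 0), (nat_lit 6591151)]) (PF.cons (PF.leaf (nat_lit 7616157) (nat_lit 732431) (nat_lit 44419805) (nat_lit 4411023) [(nat_lit 732431), (nat_lit 0), (nat_lit 6575479)]) (PF.cons (PF.leaf (nat_lit 8053391) (nat_lit 740769) (nat_lit 43661455) (nat_lit 4409255) [(nat_lit 740769), (nat_lit 0), (nat_lit 6555974)]) (PF.cons (PF.leaf (nat_lit 8492951) (nat_lit 747914) (nat_lit 42907443) (nat_lit 4404431) [(nat_lit 747914), (nat_lit 0), (nat_lit 6532851)]) (PF.cons (PF.leaf (nat_lit 8933632) (nat_lit 753970) (nat_lit 42159686) (nat_lit 4396730) [(nat_lit 753970), (nat_lit 0), (nat_lit 6506345)]) (PF.cons (PF.leaf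 (nat_lit 9374399) (nat_lit 759026) (nat_lit 41419788) (nat_lit 4386337) [(nat_lit 759026), (nat_lit 0), (nat_lit 6476698)]) (PF.cons (PF.leaf (nat_lit 9814298) (nat_lit 763164) (nat_lit 40689082) (nat_lit 4373443) [(nat_lit 763164), (nat_lit 0), (nat_lit 6444157)]) (PF.cons PF.nil (PF.cons PF.nil (PF.cons PF.nil PF.nil)))))))))))))))) (PF.cons (PF.cons (PF.leaf (nat_lit 5759279) (nat_lit 2476660) (nat_lit 47062025)
 (nat_lit 4374665) [(nat_lit 0), (nat_lit 2476660), (nat_lit 6597730)]) (PF.cons (PF.leaf (nat_lit 6147318) (nat_lit 687393) (nat_lit 46355001) (nat_lit 4385111) [(nat_lit 687393), (nat_lit 2494502), (nat_lit 6593401)]) (PF.cons (PF.leaf (nat_lit 6548260) (nat_lit 701183) (nat_lit 45633779) (nat_lit 4392457) [(nat_lit 701183), (nat_lit 2509842), (nat_lit 6585183)]) (PF.cons (PF.leaf (nat_lit 6959014) (nat_lit 713160) (nat_lit 44903831) (nat_lit 4396651) [(nat_lit 713160), (nat_lit 2522673), (nat_lit 6573086)]) (PF.cons (PF.leaf (nat_lit 7377252) (nat_lit 723546)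 (nat_lit 44169447) (nat_lit 4397728) [(nat_lit 723546), (nat_lit 2533046), (nat_lit 6557201)]) (PF.cons (PF.leaf (nat_lit 7801026) (nat_lit 732515) (nat_lit 43434071) (nat_lit 4395773) [(nat_lit 732515), (nat_lit 2541048), (nat_lit 6537670)]) (PF.cons (PF.leaf (nat_lit 8228692) (nat_lit 740210) (nat_lit 42700509) (nat_lit 4390909) [(nat_lit 740210), (nat_lit 2546786), (nat_lit 6514673)]) (PF.cons (PF.leaf (nat_lit 8658835) (nat_lit 746750) (nat_lit 41971070) (nat_lit 4383284) [(nat_lit 746750), (nat_lit 2550381), (nat_lit 6488412)]) (PF.cons (PF.leaf (nat_lit 9090242) (nat_lit 752239) (nat_lit 41247661) (nat_lit 4373059)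
 [(nat_lit 752239), (nat_lit 2551962), (nat_lit 6459105)]) (PF.cons (PF.leaf (nat_lit 9521868) (nat_lit 756770) (nat_lit 40531859) (nat_lit 4360403) [(nat_lit 756770), (nat_lit 2551657), (nat_lit 6426978)]) (PF.cons (PF.leaf (nat_lit 9952772) (nat_lit 760424) (nat_lit 39824961) (nat_lit 4345492) [(nat_lit 760424), (nat_lit 2549597), (nat_lit 6392257)]) (PF.cons PF.nil (PF.cons PF.nil (PF.cons PF.nil PF.nil)))))))))))))) (PF.cons (PF.cons (PF.leaf (nat_lit 6758986) (nat_lit 2512055) (nat_lit 44592935) (nat_lit 4383574) [(nat_lit 0), (nat_lit 2512055), (nat_lit 6554096)]) (PF.cons (PF.leaf (nat_lit 7158437) (nat_lit 713403) (nat_lit 43890664) (nat_lit 4384197) [(nat_lit 713403), (nat_lit 2522223), (nat_lit 6538050)]) (PF.cons (PF.leaf (nat_lit 7566182) (nat_lit 723241) (nat_lit 43182888) (nat_lit 4382006) [(nat_lit 723241), (nat_lit 2530172), (nat_lit 6518545)]) (PF.cons (PF.leaf (nat_lit 7979905) (nat_lit 731660) (nat_lit 42473377) (nat_lit 4377073) [(nat_lit 731660),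 (nat_lit 2535968), (nat_lit 6495720)]) (PF.cons (PF.leaf (nat_lit 8397849) (nat_lit 738820) (nat_lit 41765117) (nat_lit 4369508) [(nat_lit 738820), (nat_lit 2539703), (nat_lit 6469749)]) (PF.cons (PF.leaf (nat_lit
 8818528) (nat_lit 744848) (nat_lit 41060512) (nat_lit 4359443) [(nat_lit 744848), (nat_lit 2541482), (nat_lit 6440823)]) (PF.cons (PF.leaf (nat_lit 9240711) (nat_lit 749856) (nat_lit 40361512) (nat_lit 4347026) [(nat_lit 749856), (nat_lit 2541419), (nat_lit 6409148)]) (PF.cons (PF.leaf (nat_lit 9663288) (nat_lit 753936) (nat_lit 39669707) (nat_lit 4332411) [(nat_lit 753936), (nat_lit 2539634), (nat_lit 6374934)]) (PF.cons (PF.leaf (nat_lit 10085372) (nat_lit 757173) (nat_lit 38986393) (nat_lit 4315757) [(nat_lit 757173), (nat_lit 2536244), (nat_lit 6338392)]) (PF.cons (PF.leaf (nat_lit 10506131) (nat_lit 759640) (nat_lit 38312624) (nat_lit 4297222) [(nat_lit 759640), (nat_lit 2531367), (nat_lit 6299731)]) (PF.cons PF.nil (PF.cons PF.nil PF.nil))))))))))))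 (PF.cons (PF.cons (PF.leaf (nat_lit 7750656) (nat_lit 2524918) (nat_lit 42219791) (nat_lit 4362829) [(nat_lit 0), (nat_lit 2524918), (nat_lit 6475718)]) (PF.cons (PF.leaf (nat_lit 8153730) (nat_lit 729922) (nat_lit 41537031) (nat_lit 4355315) [(nat_lit 729922), (nat_lit 2528762), (nat_lit 6450128)]) (PF.cons (PF.leaf (nat_lit 8561699) (nat_lit 736655) (nat_lit 40854588) (nat_lit 4345411) [(nat_lit 736655), (nat_lit 2530725),
 (nat_lit 6421662)]) (PF.cons (PF.leaf (nat_lit 8972815) (nat_lit 742265) (nat_lit 40175057) (nat_lit 4333238) [(nat_lit 742265), (nat_lit 2530901), (nat_lit 6390507)]) (PF.cons (PF.leaf (nat_lit 9385738) (nat_lit 746871) (nat_lit 39500499) (nat_lit 4318930) [(nat_lit 746871), (nat_lit 2529392), (nat_lit 6356859)]) (PF.cons (PF.leaf (nat_lit 9799353) (nat_lit 750573) (nat_lit 38832566) (nat_lit 4302630) [(nat_lit 750573), (nat_lit 2526305), (nat_lit 6320917)]) (PF.cons (PF.leaf (nat_lit 10212695) (nat_lit 753456) (nat_lit 38172585) (nat_lit 4284484)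 [(nat_lit 753456), (nat_lit 2521749), (nat_lit 6282879)]) (PF.cons (PF.leaf (nat_lit 10624981) (nat_lit 755596) (nat_lit 37521624) (nat_lit 4264637) [(nat_lit 755596), (nat_lit 2515831), (nat_lit 6242939)]) (PF.cons PF.nil (PF.cons PF.nil PF.nil)))))))))) (PF.cons (PF.cons (PF.leaf (nat_lit 8721290) (nat_lit 2520058) (nat_lit 39968027) (nat_lit 4318931) [(nat_lit 0), (nat_lit 2520058), (nat_lit 6370809)]) (PF.cons (PF.leaf (nat_lit 9122464) (nat_lit 739043) (nat_lit 39313845) (nat_lit 4304955) [(nat_lit 739043), (nat_lit 2518827), (nat_lit 6337829)]) (PF.cons (PF.leaf (nat_lit 9526048) (nat_lit 743329) (nat_lit 38663774) (nat_lit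
 4289033) [(nat_lit 743329), (nat_lit 2516050), (nat_lit 6302572)]) (PF.cons (PF.leaf (nat_lit 9930692) (nat_lit 746721) (nat_lit 38019586) (nat_lit 4271300) [(nat_lit 746721), (nat_lit 2511825), (nat_lit 6265230)]) (PF.cons (PF.leaf (nat_lit 10335389) (nat_lit 749312) (nat_lit 37382685) (nat_lit 4251889) [(nat_lit 749312), (nat_lit 2506251), (nat_lit 6225991)]) (PF.cons (PF.leaf (nat_lit 10739296) (nat_lit 751180) (nat_lit 36754182) (nat_lit 4230937) [(nat_lit 751180), (nat_lit 2499427), (nat_lit 6185038)]) (PF.cons PF.nil (PF.cons PF.nil PF.nil)))))))) (PF.cons (PF.cons (PF.leaf (nat_lit 9662520) (nat_lit 2501544) (nat_lit 37850377) (nat_lit 4257562) [(nat_lit 0), (nat_lit 2501544), (nat_lit 6246574)]) (PF.cons (PF.leaf (nat_lit 10057968) (nat_lit 742415) (nat_lit 37229844) (nat_lit 4238626) [(nat_lit 742415), (nat_lit 2496331), (nat_lit 6208135)]) (PF.cons (PF.leaf (nat_lit 10454017) (nat_lit 744774) (nat_lit 36615791) (nat_lit 4218160) [(nat_lit 744774), (nat_lit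 2489875), (nat_lit 6167966)]) (PF.cons (PF.leaf (nat_lit 10849627) (nat_lit 746423) (nat_lit 36009412) (nat_lit 4196290) [(nat_lit 746423), (nat_lit 2482270), (nat_lit 6126244)]) (PF.cons PF.nil (PF.cons PF.nil
 PF.nil)))))) (PF.cons (PF.cons (PF.leaf (nat_lit 10569354) (nat_lit 2472731) (nat_lit 35870945) (nat_lit 4183459) [(nat_lit 0), (nat_lit 2472731), (nat_lit 6109008)]) (PF.cons (PF.leaf (nat_lit 10956515) (nat_lit 741348) (nat_lit 35286390) (nat_lit 4160845) [(nat_lit 741348), (nat_lit 2464457), (nat_lit 6066740)]) (PF.cons (PF.leaf (nat_lit 11342989) (nat_lit 742198) (nat_lit 34709690) (nat_lit 4137062) [(nat_lit 742198), (nat_lit 2455205), (nat_lit 6023214)]) (PF.cons PF.nil PF.nil)))) (PF.cons (PF.cons (PF.leaf (nat_lit 11439212) (nat_lit 2436332) (nat_lit 34028190) (nat_lit 4100455) [(nat_lit 0), (nat_lit 2436332), (nat_lit 5962919)]) (PF.cons PF.nil PF.nil)) (PF.cons PF.nil (PF.cons PF.nil (PF.cons PF.nil PF.nil))))))))))) (PF.cons (PF.cons (PF.cons (PF.leaf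 (nat_lit 6565207) (nat_lit 4317560) (nat_lit 43410613) (nat_lit 4317560) [(nat_lit 0), (nat_lit 0), (nat_lit 6460212)]) (PF.cons (PF.leaf (nat_lit 6940657) (nat_lit 689305) (nat_lit 42769336) (nat_lit 4318021) [(nat_lit 689305), (nat_lit 0), (nat_lit 6444049)]) (PF.cons (PF.leaf (nat_lit 7327195) (nat_lit 700764) (nat_lit 42117263) (nat_lit 4315906) [(nat_lit 700764), (nat_lit 0), (nat_lit 6424704)]) (PF.cons (PF.leaf
 (nat_lit 7721940) (nat_lit 710510) (nat_lit 41459170) (nat_lit 4311244) [(nat_lit 710510), (nat_lit 0), (nat_lit 6402288)]) (PF.cons (PF.leaf (nat_lit 8122763) (nat_lit 718782) (nat_lit 40798727) (nat_lit 4304115) [(nat_lit 718782), (nat_lit 0), (nat_lit 6376945)]) (PF.cons (PF.leaf (nat_lit 8527928) (nat_lit 725766) (nat_lit 40138829) (nat_lit 4294625) [(nat_lit 725766), (nat_lit 0), (nat_lit 6348841)]) (PF.cons (PF.leaf (nat_lit 8935979) (nat_lit 731608) (nat_lit 39481793) (nat_lit 4282900) [(nat_lit 731608), (nat_lit 0), (nat_lit 6318156)]) (PF.cons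 (PF.leaf (nat_lit 9345682) (nat_lit 736430) (nat_lit 38829491) (nat_lit 4269078) [(nat_lit 736430), (nat_lit 0), (nat_lit 6285076)]) (PF.cons (PF.leaf (nat_lit 9756015) (nat_lit 740335) (nat_lit 38183448) (nat_lit 4253302) [(nat_lit 740335), (nat_lit 0), (nat_lit 6249791)]) (PF.cons (PF.leaf (nat_lit 10166054) (nat_lit 743412) (nat_lit 37544902) (nat_lit 4235716) [(nat_lit 743412), (nat_lit 0), (nat_lit 6212492)]) (PF.cons PF.nil (PF.cons PF.nil PF.nil)))))))))))) (PF.cons (PF.cons (PF.leaf (nat_lit 7513027) (nat_lit 2479655) (nat_lit 41189137) (nat_lit 4296391) [(nat_lit 0), (nat_lit 2479655), (nat_lit 6381209)]) (PF.cons (PF.leaf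
 (nat_lit 7896733) (nat_lit 708554) (nat_lit 40557383) (nat_lit 4289370) [(nat_lit 708554), (nat_lit 2484275), (nat_lit 6356409)]) (PF.cons (PF.leaf (nat_lit 8287453) (nat_lit 716491) (nat_lit 39922011) (nat_lit 4280094) [(nat_lit 716491), (nat_lit 2487038), (nat_lit 6328895)]) (PF.cons (PF.leaf (nat_lit 8683060) (nat_lit 723125) (nat_lit 39286239) (nat_lit 4268662) [(nat_lit 723125), (nat_lit 2488028), (nat_lit 6298835)]) (PF.cons (PF.leaf (nat_lit 9081969) (nat_lit 728618) (nat_lit 38652577) (nat_lit 4255190) [(nat_lit 728618), (nat_lit 2487343), (nat_lit 6266408)]) (PF.cons (PF.leaf (nat_lit 9482895) (nat_lit 733103) (nat_lit 38023012) (nat_lit 4239807) [(nat_lit 733103), (nat_lit 2485089), (nat_lit 6231795)]) (PF.cons (PF.leaf (nat_lit 9884712) (nat_lit 736688) (nat_lit 37399133) (nat_lit 4222644) [(nat_lit 736688), (nat_lit 2481370), (nat_lit 6195178)]) (PF.cons (PF.leaf (nat_lit 10286521) (nat_lit 739465) (nat_lit 36782217) (nat_lit 4203835) [(nat_lit 739465),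 (nat_lit 2476292), (nat_lit 6156737)]) (PF.cons (PF.leaf (nat_lit 10687506) (nat_lit 741513) (nat_lit 36173291) (nat_lit 4183512) [(nat_lit 741513), (nat_lit 2469960), (nat_lit 6116646)]) (PF.cons PF.nil
 PF.nil)))))))))) (PF.cons (PF.cons (PF.leaf (nat_lit 8448987) (nat_lit 2476632) (nat_lit 39066978) (nat_lit 4253812) [(nat_lit 0), (nat_lit 2476632), (nat_lit 6278252)]) (PF.cons (PF.leaf (nat_lit 8834477) (nat_lit 719821) (nat_lit 38455845) (nat_lit 4240729) [(nat_lit 719821), (nat_lit 2476276), (nat_lit 6246621)]) (PF.cons (PF.leaf (nat_lit 9224040) (nat_lit 725056) (nat_lit 37845778) (nat_lit 4225774) [(nat_lit 725056), (nat_lit 2474379), (nat_lit 6212796)]) (PF.cons (PF.leaf (nat_lit 9616060) (nat_lit 729279) (nat_lit 37238962) (nat_lit 4209067) [(nat_lit 729279), (nat_lit 2471034), (nat_lit 6176958)]) (PF.cons (PF.leaf (nat_lit 10009366) (nat_lit 732608) (nat_lit 36637108) (nat_lit 4190731) [(nat_lit 732608), (nat_lit 2466339), (nat_lit 6139286)]) (PF.cons (PF.leaf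 (nat_lit 10402965) (nat_lit 735141) (nat_lit 36041570) (nat_lit 4170893) [(nat_lit 735141), (nat_lit 2460392), (nat_lit 6099951)]) (PF.cons (PF.leaf (nat_lit 10796028) (nat_lit 736961) (nat_lit 35453423) (nat_lit 4149677) [(nat_lit 736961), (nat_lit 2453288), (nat_lit 6059121)]) (PF.cons PF.nil PF.nil)))))))) (PF.cons (PF.cons (PF.leaf (nat_lit 9363095) (nat_lit 2460288) (nat_lit 37060390) (nat_lit 4194854)
 [(nat_lit 0), (nat_lit 2460288), (nat_lit 6157567)]) (PF.cons (PF.leaf (nat_lit 9745856) (nat_lit 724983) (nat_lit 36476404) (nat_lit 4177044) [(nat_lit 724983), (nat_lit 2455998), (nat_lit 6120794)]) (PF.cons (PF.leaf (nat_lit 10130546) (nat_lit 728122) (nat_lit 35896480) (nat_lit 4157735) [(nat_lit 728122), (nat_lit 2450459), (nat_lit 6082324)]) (PF.cons (PF.leaf (nat_lit 10515937) (nat_lit 730468) (nat_lit 35322097) (nat_lit 4137048) [(nat_lit 730468), (nat_lit 2443760), (nat_lit 6042326)]) (PF.cons (PF.leaf (nat_lit 10901137) (nat_lit 732108) (nat_lit 34754413)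 (nat_lit 4115098) [(nat_lit 732108), (nat_lit 2435992), (nat_lit 6000963)]) (PF.cons PF.nil PF.nil)))))) (PF.cons (PF.cons (PF.leaf (nat_lit 10249045) (nat_lit 2433828) (nat_lit 35176286) (nat_lit 4123801) [(nat_lit 0), (nat_lit 2433828), (nat_lit 6024469)]) (PF.cons (PF.leaf (nat_lit 10625974) (nat_lit 725464) (nat_lit 34622890) (nat_lit 4102430) [(nat_lit 725464), (nat_lit 2426488), (nat_lit 5984024)]) (PF.cons (PF.leaf (nat_lit 11003288) (nat_lit 726973) (nat_lit 34075394) (nat_lit 4079896) [(nat_lit 726973), (nat_lit 2418155), (nat_lit 5942317)]) (PF.cons (PF.leaf (nat_lit 11380020) (nat_lit 727855) (nat_lit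
 33534795) (nat_lit 4056309) [(nat_lit 727855), (nat_lit 2408909), (nat_lit 5899501)]) PF.nil)))) (PF.cons (PF.cons (PF.leaf (nat_lit 11103158) (nat_lit 2399849) (nat_lit 33415469) (nat_lit 4044175) [(nat_lit 0), (nat_lit 2399849), (nat_lit 5883307)]) (PF.cons (PF.leaf (nat_lit 11472185) (nat_lit 722367) (nat_lit 32894041) (nat_lit 4020221) [(nat_lit 722367), (nat_lit 2390191), (nat_lit 5840407)]) PF.nil)) (PF.cons PF.nil (PF.cons PF.nil (PF.cons PF.nil (PF.cons PF.nil PF.nil)))))))))) (PF.cons (PF.cons (PF.cons (PF.leaf (nat_lit 8195184) (nat_lit 4188174) (nat_lit 38178834) (nat_lit 4188174) [(nat_lit 0), (nat_lit 0), (nat_lit 6185450)]) (PF.cons (PF.leaf (nat_lit 8563588) (nat_lit 699065) (nat_lit 37611819) (nat_lit 4176187) [(nat_lit 699065), (nat_lit 0), (nat_lit 6155435)]) (PF.cons (PF.leaf (nat_lit 8938071) (nat_lit 705555) (nat_lit 37042303) (nat_lit 4162369) [(nat_lit 705555), (nat_lit 0), (nat_lit 6123257)]) (PF.cons (PF.leaf (nat_lit 9316655) (nat_lit 710844)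 (nat_lit 36473055) (nat_lit 4146831) [(nat_lit 710844), (nat_lit 0), (nat_lit 6089098)]) (PF.cons (PF.leaf (nat_lit 9697916) (nat_lit 715096) (nat_lit 35906207) (nat_lit 4129691) [(nat_lit 715096), (nat_lit 0),
 (nat_lit 6053132)]) (PF.cons (PF.leaf (nat_lit 10080677) (nat_lit 718442) (nat_lit 35343426) (nat_lit 4111067) [(nat_lit 718442), (nat_lit 0), (nat_lit 6015527)]) (PF.cons (PF.leaf (nat_lit 10463963) (nat_lit 720987) (nat_lit 34786033) (nat_lit 4091078) [(nat_lit 720987), (nat_lit 0), (nat_lit 5976444)]) (PF.cons (PF.leaf (nat_lit 10846970) (nat_lit 722820) (nat_lit 34235076) (nat_lit 4069840) [(nat_lit 722820), (nat_lit 0), (nat_lit 5936037)]) (PF.cons PF.nil (PF.cons PF.nil PF.nil)))))))))) (PF.cons (PF.cons (PF.leaf (nat_lit 9080580) (nat_lit 2418392) (nat_lit 36283118) (nat_lit 4132049) [(nat_lit 0), (nat_lit 2418392), (nat_lit 6068813)]) (PF.cons (PF.leaf (nat_lit 9449631) (nat_lit 706526) (nat_lit 35736103) (nat_lit 4115498) [(nat_lit 706526), (nat_lit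 2415178), (nat_lit 6033876)]) (PF.cons (PF.leaf (nat_lit 9822152) (nat_lit 710641) (nat_lit 35190433) (nat_lit 4097458) [(nat_lit 710641), (nat_lit 2410684), (nat_lit 5997238)]) (PF.cons (PF.leaf (nat_lit 10196672) (nat_lit 713838) (nat_lit 34647970) (nat_lit 4078044) [(nat_lit 713838), (nat_lit 2405001), (nat_lit 5959070)]) (PF.cons (PF.leaf (nat_lit 10572122) (nat_lit 716232) (nat_lit 34110158) (nat_lit 4057369) [(nat_lit
 716232), (nat_lit 2398220), (nat_lit 5919533)]) (PF.cons (PF.leaf (nat_lit 10947623) (nat_lit 717918) (nat_lit 33578130) (nat_lit 4035545) [(nat_lit 717918), (nat_lit 2390430), (nat_lit 5878778)]) (PF.cons PF.nil (PF.cons PF.nil PF.nil)))))))) (PF.cons (PF.cons (PF.leaf (nat_lit 9944375) (nat_lit 2394597) (nat_lit 34493432) (nat_lit 4064304) [(nat_lit 0), (nat_lit 2394597), (nat_lit 5940470)]) (PF.cons (PF.leaf (nat_lit 10310277) (nat_lit 708879) (nat_lit 33971282) (nat_lit 4044262) [(nat_lit 708879), (nat_lit 2388292), (nat_lit 5901950)]) (PF.cons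 (PF.leaf (nat_lit 10677780) (nat_lit 711177) (nat_lit 33452904) (nat_lit 4023047) [(nat_lit 711177), (nat_lit 2380963), (nat_lit 5862144)]) (PF.cons (PF.leaf (nat_lit 11045752) (nat_lit 712763) (nat_lit 32939557) (nat_lit 4000766) [(nat_lit 712763), (nat_lit 2372690), (nat_lit 5821204)]) (PF.cons (PF.leaf (nat_lit 11413392) (nat_lit 713720) (nat_lit 32432215) (nat_lit 3977521) [(nat_lit 713720), (nat_lit 2363556), (nat_lit 5779270)]) (PF.cons PF.nil PF.nil)))))) (PF.cons (PF.cons (PF.leaf (nat_lit 10781648) (nat_lit 2363233) (nat_lit 32813371) (nat_lit 3988204) [(nat_lit 0), (nat_lit 2363233), (nat_lit 5804383)]) (PF.cons (PF.leaf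
 (nat_lit 11141817) (nat_lit 707362) (nat_lit 32318520) (nat_lit 3965588) [(nat_lit 707362), (nat_lit 2354561), (nat_lit 5763414)]) (PF.cons (PF.leaf (nat_lit 11502241) (nat_lit 708259) (nat_lit 31828921) (nat_lit 3942075) [(nat_lit 708259), (nat_lit 2345080), (nat_lit 5721513)]) (PF.cons PF.nil PF.nil)))) (PF.cons (PF.cons (PF.leaf (nat_lit 11589583) (nat_lit 2326336) (nat_lit 31242081) (nat_lit 3906401) [(nat_lit 0), (nat_lit 2326336), (nat_lit 5663746)]) (PF.cons PF.nil PF.nil)) (PF.cons PF.nil (PF.cons PF.nil (PF.cons PF.nil PF.nil)))))))) (PF.cons (PF.cons (PF.cons (PF.leaf (nat_lit 9656390) (nat_lit 4004807) (nat_lit 33819948) (nat_lit 4004807) [(nat_lit 0), (nat_lit 0), (nat_lit 5856811)]) (PF.cons (PF.leaf (nat_lit 10010186) (nat_lit 691343) (nat_lit 33329527) (nat_lit 3986200) [(nat_lit 691343), (nat_lit 0), (nat_lit 5820348)]) (PF.cons (PF.leaf (nat_lit 10367030) (nat_lit 694613) (nat_lit 32840482) (nat_lit 3966388) [(nat_lit 694613), (nat_lit 0), (nat_lit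 5782543)]) (PF.cons (PF.leaf (nat_lit 10725540) (nat_lit 697043) (nat_lit 32354418) (nat_lit 3945483) [(nat_lit 697043), (nat_lit 0), (nat_lit 5743555)]) (PF.cons (PF.leaf (nat_lit 11084748) (nat_lit 698747) (nat_lit
 31872570) (nat_lit 3923587) [(nat_lit 698747), (nat_lit 0), (nat_lit 5703532)]) (PF.cons (PF.leaf (nat_lit 11443859) (nat_lit 699815) (nat_lit 31395902) (nat_lit 3900799) [(nat_lit 699815), (nat_lit 0), (nat_lit 5662606)]) (PF.cons PF.nil (PF.cons PF.nil PF.nil)))))))) (PF.cons (PF.cons (PF.leaf (nat_lit 10475353) (nat_lit 2326341) (nat_lit 32220121) (nat_lit 3932414) [(nat_lit 0), (nat_lit 2326341), (nat_lit 5725986)]) (PF.cons (PF.leaf (nat_lit 10825839) (nat_lit 691701) (nat_lit 31752025) (nat_lit 3911204) [(nat_lit 691701), (nat_lit 2318740), (nat_lit 5687028)]) (PF.cons (PF.leaf (nat_lit 11177704) (nat_lit 693376) (nat_lit 31287319) (nat_lit 3889061) [(nat_lit 693376), (nat_lit 2310285), (nat_lit 5647078)]) (PF.cons (PF.leaf (nat_lit 11529884) (nat_lit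 694405) (nat_lit 30827086) (nat_lit 3866080) [(nat_lit 694405), (nat_lit 2301052), (nat_lit 5606275)]) (PF.cons PF.nil (PF.cons PF.nil PF.nil)))))) (PF.cons (PF.cons (PF.leaf (nat_lit 11269556) (nat_lit 2292127) (nat_lit 30717365) (nat_lit 3854287) [(nat_lit 0), (nat_lit 2292127), (nat_lit 5590580)]) (PF.cons (PF.leaf (nat_lit 11614518) (nat_lit 688810) (nat_lit 30273394) (nat_lit 3831205) [(nat_lit 688810), (nat_lit 2282663),
 (nat_lit 5550015)]) (PF.cons PF.nil (PF.cons PF.nil PF.nil)))) (PF.cons (PF.cons (PF.leaf (nat_lit 12036755) (nat_lit 2253812) (nat_lit 29310079) (nat_lit 3772447) [(nat_lit 0), (nat_lit 2253812), (nat_lit 5452969)]) (PF.cons PF.nil PF.nil)) (PF.cons PF.nil (PF.cons PF.nil PF.nil)))))) (PF.cons (PF.cons (PF.cons (PF.leaf (nat_lit 10964158) (nat_lit 3802332) (nat_lit 30199209) (nat_lit 3802332) [(nat_lit 0), (nat_lit 0), (nat_lit 5517878)]) (PF.cons (PF.leaf (nat_lit 11300523) (nat_lit 674083) (nat_lit 29778222) (nat_lit 3780658) [(nat_lit 674083),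 (nat_lit 0), (nat_lit 5479308)]) (PF.cons (PF.leaf (nat_lit 11638124) (nat_lit 675293) (nat_lit 29360223) (nat_lit 3758230) [(nat_lit 675293), (nat_lit 0), (nat_lit 5439962)]) (PF.cons PF.nil PF.nil)))) (PF.cons (PF.cons (PF.leaf (nat_lit 11720021) (nat_lit 2221985) (nat_lit 28850284) (nat_lit 3724130) [(nat_lit 0), (nat_lit 2221985), (nat_lit 5385401)]) (PF.cons (PF.leaf (nat_lit 12051131) (nat_lit 670259) (nat_lit 28450517) (nat_lit 3701090) [(nat_lit 670259), (nat_lit 2212098), (nat_lit 5345807)]) PF.nil)) (PF.cons PF.nil (PF.cons PF.nil PF.nil)))) (PF.cons (PF.cons (PF.cons (PF.leaf (nat_lit 12138795) (nat_lit 3598906) (nat_lit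
 27179934) (nat_lit 3598906) [(nat_lit 0), (nat_lit 0), (nat_lit 5189995)]) (PF.cons PF.nil PF.nil)) (PF.cons PF.nil PF.nil)) (PF.cons PF.nil (PF.cons PF.nil (PF.cons PF.nil (PF.cons PF.nil PF.nil))))))))))))

def p14_20_0_0 : pfC (piC [(nat_lit 35404596), (nat_lit 22827826), (nat_lit 14696761)] (nat_lit 17719570)) p14_20_0 (nat_lit 3) (nat_lit 0) (nat_lit 1) = true := by decide +kernel
def p14_20_0_1 : pfC (piC [(nat_lit 35404596), (nat_lit 22827826), (nat_lit 14696761)] (nat_lit 17719570)) p14_20_0 (nat_lit 3) (nat_lit 1) (nat_lit 2) = true := by decide +kernel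
def p14_20_0_2 : pfC (piC [(nat_lit 35404596), (nat_lit 22827826), (nat_lit 14696761)] (nat_lit 17719570)) p14_20_0 (nat_lit 3) (nat_lit 2) (nat_lit 3) = true := by decide +kernel
def p14_20_0_3 : pfC (piC [(nat_lit 35404596), (nat_lit 22827826), (nat_lit 14696761)] (nat_lit 17719570)) p14_20_0 (nat_lit 3) (nat_lit 3) (nat_lit 4) = true := by decide +kernel
def p14_20_0_4 : pfC (piC [(nat_lit 35404596), (nat_lit 22827826), (nat_lit 14696761)] (nat_lit 17719570)) p14_20_0 (nat_lit 3) (nat_lit 4) (nat_lit 5) = true := by decide +kernel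
def p14_20_0_5 : pfC (piC [(nat_lit 35404596), (nat_lit 22827826), (nat_lit 14696761)] (nat_lit 17719570)) p14_20_0 (nat_lit 3) (nat_lit 5) (nat_lit 6) = true := by decide +kernel
def p14_20_0_6 : pfC (piC [(nat_lit 35404596), (nat_lit 22827826), (nat_lit 14696761)] (nat_lit 17719570)) p14_20_0 (nat_lit 3) (nat_lit 6) (nat_lit 7) = true := by decide +kernel
def p14_20_0_7 : pfC (piC [(nat_lit 35404596), (nat_lit 22827826), (nat_lit 14696761)] (nat_lit 17719570)) p14_20_0 (nat_lit 3) (nat_lit 7) (nat_lit 8) = true := by decide +kernel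
def p14_20_0_8 : pfC (piC [(nat_lit 35404596), (nat_lit 22827826), (nat_lit 14696761)] (nat_lit 17719570)) p14_20_0 (nat_lit 3) (nat_lit 8) (nat_lit 9) = true := by decide +kernel
def p14_20_0_9 : pfC (piC [(nat_lit 35404596), (nat_lit 22827826), (nat_lit 14696761)] (nat_lit 17719570)) p14_20_0 (nat_lit 3) (nat_lit 9) (nat_lit 10) = true := by decide +kernel
def p14_20_0_10 : pfC (piC [(nat_lit 35404596), (nat_lit 22827826), (nat_lit 14696761)] (nat_lit 17719570)) p14_20_0 (nat_lit 3) (nat_lit 10) (nat_lit 11) = true := by decide +kernel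
def p14_20_0_11 : pfC (piC [(nat_lit 35404596), (nat_lit 22827826), (nat_lit 14696761)] (nat_lit 17719570)) p14_20_0 (nat_lit 3) (nat_lit 11) (nat_lit 12) = true := by decide +kernel
def p14_20_0_12 : pfC (piC [(nat_lit 35404596), (nat_lit 22827826), (nat_lit 14696761)] (nat_lit 17719570)) p14_20_0 (nat_lit 3) (nat_lit 12) (nat_lit 13) = true := by decide +kernel
def p14_20_0_13 : pfC (piC [(nat_lit 35404596), (nat_lit 22827826), (nat_lit 14696761)] (nat_lit 17719570)) p14_20_0 (nat_lit 3) (nat_lit 13) (nat_lit 14) = true := by decide +kernel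
def p14_20_0_14 : pfC (piC [(nat_lit 35404596), (nat_lit 22827826), (nat_lit 14696761)] (nat_lit 17719570)) p14_20_0 (nat_lit 3) (nat_lit 14) (nat_lit 15) = true := by decide +kernel
def p14_20_0_15 : pfC (piC [(nat_lit 35404596), (nat_lit 22827826), (nat_lit 14696761)] (nat_lit 17719570)) p14_20_0 (nat_lit 3) (nat_lit 15) (nat_lit 16) = true := by decide +kernel
def p14_20_0_16 : pfC (piC [(nat_lit 35404596), (nat_lit 22827826), (nat_lit 14696761)] (nat_lit 17719570)) p14_20_0 (nat_lit 3) (nat_lit 16) (nat_lit 17) = true := by decide +kernel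
def p14_20_0_17 : pfC (piC [(nat_lit 35404596), (nat_lit 22827826), (nat_lit 14696761)] (nat_lit 17719570)) p14_20_0 (nat_lit 3) (nat_lit 17) (nat_lit 18) = true := by decide +kernel
def p14_20_0_18 : pfC (piC [(nat_lit 35404596), (nat_lit 22827826), (nat_lit 14696761)] (nat_lit 17719570)) p14_20_0 (nat_lit 3) (nat_lit 18) (nat_lit 19) = true := by decide +kernel
def p14_20_0_19 : pfC (piC [(nat_lit 35404596), (nat_lit 22827826), (nat_lit 14696761)] (nat_lit 17719570)) p14_20_0 (nat_lit 3) (nat_lit 19) (nat_lit 20) = true := by decide +kernel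
def p14_20_0_20 : pfC (piC [(nat_lit 35404596), (nat_lit 22827826), (nat_lit 14696761)] (nat_lit 17719570)) p14_20_0 (nat_lit 3) (nat_lit 20) (nat_lit 21) = true := by decide +kernel
def p14_20_0_21 : pfC (piC [(nat_lit 35404596), (nat_lit 22827826), (nat_lit 14696761)] (nat_lit 17719570)) p14_20_0 (nat_lit 3) (nat_lit 21) (nat_lit 22) = true := by decide +kernel
def p14_20_0_22 : pfC (piC [(nat_lit 35404596), (nat_lit 22827826), (nat_lit 14696761)] (nat_lit 17719570)) p14_20_0 (nat_lit 3) (nat_lit 22) (nat_lit 23) = true := by decide +kernel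
def p14_20_0_23 : pfC (piC [(nat_lit 35404596), (nat_lit 22827826), (nat_lit 14696761)] (nat_lit 17719570)) p14_20_0 (nat_lit 3) (nat_lit 23) (nat_lit 24) = true := by decide +kernel
def p14_20_0_24 : pfC (piC [(nat_lit 35404596), (nat_lit 22827826), (nat_lit 14696761)] (nat_lit 17719570)) p14_20_0 (nat_lit 3) (nat_lit 24) (nat_lit 25) = true := by decide +kernel
def p14_20_0_25 : pfC (piC [(nat_lit 35404596), (nat_lit 22827826), (nat_lit 14696761)] (nat_lit 17719570)) p14_20_0 (nat_lit 3) (nat_lit 25) (nat_lit 26) = true := by decide +kernel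
def p14_20_0_26 : pfC (piC [(nat_lit 35404596), (nat_lit 22827826), (nat_lit 14696761)] (nat_lit 17719570)) p14_20_0 (nat_lit 3) (nat_lit 26) (nat_lit 27) = true := by decide +kernel
def p14_20_0_27 : pfC (piC [(nat_lit 35404596), (nat_lit 22827826), (nat_lit 14696761)] (nat_lit 17719570)) p14_20_0 (nat_lit 3) (nat_lit 27) (nat_lit 28) = true := by decide +kernel
def p14_20_0_28 : pfC (piC [(nat_lit 35404596), (nat_lit 22827826), (nat_lit 14696761)] (nat_lit 17719570)) p14_20_0 (nat_lit 3) (nat_lit 28) (nat_lit 29) = true := by decide +kernel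
def p14_20_0_29 : pfC (piC [(nat_lit 35404596), (nat_lit 22827826), (nat_lit 14696761)] (nat_lit 17719570)) p14_20_0 (nat_lit 3) (nat_lit 29) (nat_lit 30) = true := by decide +kernel
def p14_20_0_30 : pfC (piC [(nat_lit 35404596), (nat_lit 22827826), (nat_lit 14696761)] (nat_lit 17719570)) p14_20_0 (nat_lit 3) (nat_lit 30) (nat_lit 31) = true := by decide +kernel
def p14_20_0_31 : pfC (piC [(nat_lit 35404596), (nat_lit 22827826), (nat_lit 14696761)] (nat_lit 17719570)) p14_20_0 (nat_lit 3) (nat_lit 31) (nat_lit 32) = true := by decide +kernel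
def p14_20_0_32 : pfC (piC [(nat_lit 35404596), (nat_lit 22827826), (nat_lit 14696761)] (nat_lit 17719570)) p14_20_0 (nat_lit 3) (nat_lit 32) (nat_lit 33) = true := by decide +kernel
def p14_20_0_33 : pfC (piC [(nat_lit 35404596), (nat_lit 22827826), (nat_lit 14696761)] (nat_lit 17719570)) p14_20_0 (nat_lit 3) (nat_lit 33) (nat_lit 34) = true := by decide +kernel
def p14_20_0_34 : pfC (piC [(nat_lit 35404596), (nat_lit 22827826), (nat_lit 14696761)] (nat_lit 17719570)) p14_20_0 (nat_lit 3) (nat_lit 34) (nat_lit 35) = true := by decide +kernel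
def p14_20_0_35 : pfC (piC [(nat_lit 35404596), (nat_lit 22827826), (nat_lit 14696761)] (nat_lit 17719570)) p14_20_0 (nat_lit 3) (nat_lit 35) (nat_lit 36) = true := by decide +kernel
def p14_20_0_36 : pfC (piC [(nat_lit 35404596), (nat_lit 22827826), (nat_lit 14696761)] (nat_lit 17719570)) p14_20_0 (nat_lit 3) (nat_lit 36) (nat_lit 37) = true := by decide +kernel
def p14_20_0_37 : pfC (piC [(nat_lit 35404596), (nat_lit 22827826), (nat_lit 14696761)] (nat_lit 17719570)) p14_20_0 (nat_lit 3) (nat_lit 37) (nat_lit 38) = true := by decide +kernel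
def p14_20_0_38 : pfC (piC [(nat_lit 35404596), (nat_lit 22827826), (nat_lit 14696761)] (nat_lit 17719570)) p14_20_0 (nat_lit 3) (nat_lit 38) (nat_lit 39) = true := by decide +kernel
def p14_20_0_39 : pfC (piC [(nat_lit 35404596), (nat_lit 22827826), (nat_lit 14696761)] (nat_lit 17719570)) p14_20_0 (nat_lit 3) (nat_lit 39) (nat_lit 40) = true := by decide +kernel
def p14_20_0_40 : pfC (piC [(nat_lit 35404596), (nat_lit 22827826), (nat_lit 14696761)] (nat_lit 17719570)) p14_20_0 (nat_lit 3) (nat_lit 40) (nat_lit 41) = true := by decide +kernel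
def p14_20_0_41 : pfC (piC [(nat_lit 35404596), (nat_lit 22827826), (nat_lit 14696761)] (nat_lit 17719570)) p14_20_0 (nat_lit 3) (nat_lit 41) (nat_lit 42) = true := by decide +kernel
def p14_20_0_42 : pfC (piC [(nat_lit 35404596), (nat_lit 22827826), (nat_lit 14696761)] (nat_lit 17719570)) p14_20_0 (nat_lit 3) (nat_lit 42) (nat_lit 43) = true := by decide +kernel
def p14_20_0_43 : pfC (piC [(nat_lit 35404596), (nat_lit 22827826), (nat_lit 14696761)] (nat_lit 17719570)) p14_20_0 (nat_lit 3) (nat_lit 43) (nat_lit 44) = true := by decide +kernel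
def p14_20_0_44 : pfC (piC [(nat_lit 35404596), (nat_lit 22827826), (nat_lit 14696761)] (nat_lit 17719570)) p14_20_0 (nat_lit 3) (nat_lit 44) (nat_lit 45) = true := by decide +kernel
def p14_20_0_45 : pfC (piC [(nat_lit 35404596), (nat_lit 22827826), (nat_lit 14696761)] (nat_lit 17719570)) p14_20_0 (nat_lit 3) (nat_lit 45) (nat_lit 46) = true := by decide +kernel
def p14_20_0_46 : pfC (piC [(nat_lit 35404596), (nat_lit 22827826), (nat_lit 14696761)] (nat_lit 17719570)) p14_20_0 (nat_lit 3) (nat_lit 46) (nat_lit 47) = true := by decide +kernel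
def p14_20_0_47 : pfC (piC [(nat_lit 35404596), (nat_lit 22827826), (nat_lit 14696761)] (nat_lit 17719570)) p14_20_0 (nat_lit 3) (nat_lit 47) (nat_lit 48) = true := by decide +kernel
def p14_20_0_48 : pfC (piC [(nat_lit 35404596), (nat_lit 22827826), (nat_lit 14696761)] (nat_lit 17719570)) p14_20_0 (nat_lit 3) (nat_lit 48) (nat_lit 49) = true := by decide +kernel
def p14_20_0_49 : pfC (piC [(nat_lit 35404596), (nat_lit 22827826), (nat_lit 14696761)] (nat_lit 17719570)) p14_20_0 (nat_lit 3) (nat_lit 49) (nat_lit 50) = true := by decide +kernel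
def p14_20_0_50 : pfC (piC [(nat_lit 35404596), (nat_lit 22827826), (nat_lit 14696761)] (nat_lit 17719570)) p14_20_0 (nat_lit 3) (nat_lit 50) (nat_lit 51) = true := by decide +kernel
def p14_20_0_51 : pfC (piC [(nat_lit 35404596), (nat_lit 22827826), (nat_lit 14696761)] (nat_lit 17719570)) p14_20_0 (nat_lit 3) (nat_lit 51) (nat_lit 52) = true := by decide +kernel
def p14_20_0_52 : pfC (piC [(nat_lit 35404596), (nat_lit 22827826), (nat_lit 14696761)] (nat_lit 17719570)) p14_20_0 (nat_lit 3) (nat_lit 52) (nat_lit 53) = true := by decide +kernel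
def p14_20_0_53 : pfC (piC [(nat_lit 35404596), (nat_lit 22827826), (nat_lit 14696761)] (nat_lit 17719570)) p14_20_0 (nat_lit 3) (nat_lit 53) (nat_lit 54) = true := by decide +kernel
def p14_20_0_54 : pfC (piC [(nat_lit 35404596), (nat_lit 22827826), (nat_lit 14696761)] (nat_lit 17719570)) p14_20_0 (nat_lit 3) (nat_lit 54) (nat_lit 55) = true := by decide +kernel
def p14_20_0_55 : pfC (piC [(nat_lit 35404596), (nat_lit 22827826), (nat_lit 14696761)] (nat_lit 17719570)) p14_20_0 (nat_lit 3) (nat_lit 55) (nat_lit 56) = true := by decide +kernel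
def p14_20_0_56 : pfC (piC [(nat_lit 35404596), (nat_lit 22827826), (nat_lit 14696761)] (nat_lit 17719570)) p14_20_0 (nat_lit 3) (nat_lit 56) (nat_lit 57) = true := by decide +kernel
def p14_20_0_57 : pfC (piC [(nat_lit 35404596), (nat_lit 22827826), (nat_lit 14696761)] (nat_lit 17719570)) p14_20_0 (nat_lit 3) (nat_lit 57) (nat_lit 58) = true := by decide +kernel
def p14_20_0_58 : pfC (piC [(nat_lit 35404596), (nat_lit 22827826), (nat_lit 14696761)] (nat_lit 17719570)) p14_20_0 (nat_lit 3) (nat_lit 58) (nat_lit 59) = true := by decide +kernel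
def p14_20_0_59 : pfC (piC [(nat_lit 35404596), (nat_lit 22827826), (nat_lit 14696761)] (nat_lit 17719570)) p14_20_0 (nat_lit 3) (nat_lit 59) (nat_lit 60) = true := by decide +kernel
def p14_20_0_60 : pfC (piC [(nat_lit 35404596), (nat_lit 22827826), (nat_lit 14696761)] (nat_lit 17719570)) p14_20_0 (nat_lit 3) (nat_lit 60) (nat_lit 61) = true := by decide +kernel
def p14_20_0_61 : pfC (piC [(nat_lit 35404596), (nat_lit 22827826), (nat_lit 14696761)] (nat_lit 17719570)) p14_20_0 (nat_lit 3) (nat_lit 61) (nat_lit 62) = true := by decide +kernel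
def p14_20_0_62 : pfC (piC [(nat_lit 35404596), (nat_lit 22827826), (nat_lit 14696761)] (nat_lit 17719570)) p14_20_0 (nat_lit 3) (nat_lit 62) (nat_lit 63) = true := by decide +kernel
def p14_20_0_63 : pfC (piC [(nat_lit 35404596), (nat_lit 22827826), (nat_lit 14696761)] (nat_lit 17719570)) p14_20_0 (nat_lit 3) (nat_lit 63) (nat_lit 64) = true := by decide +kernel
def p14_20_0_64 : pfC (piC [(nat_lit 35404596), (nat_lit 22827826), (nat_lit 14696761)] (nat_lit 17719570)) p14_20_0 (nat_lit 3) (nat_lit 64) (nat_lit 65) = true := by decide +kernel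
def p14_20_0_65 : pfC (piC [(nat_lit 35404596), (nat_lit 22827826), (nat_lit 14696761)] (nat_lit 17719570)) p14_20_0 (nat_lit 3) (nat_lit 65) (nat_lit 66) = true := by decide +kernel
def p14_20_0_66 : pfC (piC [(nat_lit 35404596), (nat_lit 22827826), (nat_lit 14696761)] (nat_lit 17719570)) p14_20_0 (nat_lit 3) (nat_lit 66) (nat_lit 67) = true := by decide +kernel
def p14_20_0_67 : pfC (piC [(nat_lit 35404596), (nat_lit 22827826), (nat_lit 14696761)] (nat_lit 17719570)) p14_20_0 (nat_lit 3) (nat_lit 67) (nat_lit 68) = true := by decide +kernel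
def p14_20_0_68 : pfC (piC [(nat_lit 35404596), (nat_lit 22827826), (nat_lit 14696761)] (nat_lit 17719570)) p14_20_0 (nat_lit 3) (nat_lit 68) (nat_lit 69) = true := by decide +kernel
def p14_20_0_69 : pfC (piC [(nat_lit 35404596), (nat_lit 22827826), (nat_lit 14696761)] (nat_lit 17719570)) p14_20_0 (nat_lit 3) (nat_lit 69) (nat_lit 70) = true := by decide +kernel
def p14_20_0_70 : pfC (piC [(nat_lit 35404596), (nat_lit 22827826), (nat_lit 14696761)] (nat_lit 17719570)) p14_20_0 (nat_lit 3) (nat_lit 70) (nat_lit 71) = true := by decide +kernel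
def p14_20_0_71 : pfC (piC [(nat_lit 35404596), (nat_lit 22827826), (nat_lit 14696761)] (nat_lit 17719570)) p14_20_0 (nat_lit 3) (nat_lit 71) (nat_lit 72) = true := by decide +kernel
def p14_20_0_72 : pfC (piC [(nat_lit 35404596), (nat_lit 22827826), (nat_lit 14696761)] (nat_lit 17719570)) p14_20_0 (nat_lit 3) (nat_lit 72) (nat_lit 73) = true := by decide +kernel
def p14_20_0_73 : pfC (piC [(nat_lit 35404596), (nat_lit 22827826), (nat_lit 14696761)] (nat_lit 17719570)) p14_20_0 (nat_lit 3) (nat_lit 73) (nat_lit 74) = true := by decide +kernel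
def p14_20_0_74 : pfC (piC [(nat_lit 35404596), (nat_lit 22827826), (nat_lit 14696761)] (nat_lit 17719570)) p14_20_0 (nat_lit 3) (nat_lit 74) (nat_lit 75) = true := by decide +kernel
def p14_20_0_75 : pfC (piC [(nat_lit 35404596), (nat_lit 22827826), (nat_lit 14696761)] (nat_lit 17719570)) p14_20_0 (nat_lit 3) (nat_lit 75) (nat_lit 76) = true := by decide +kernel
def p14_20_0_76 : pfC (piC [(nat_lit 35404596), (nat_lit 22827826), (nat_lit 14696761)] (nat_lit 17719570)) p14_20_0 (nat_lit 3) (nat_lit 76) (nat_lit 77) = true := by decide +kernel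
def p14_20_0_77 : pfC (piC [(nat_lit 35404596), (nat_lit 22827826), (nat_lit 14696761)] (nat_lit 17719570)) p14_20_0 (nat_lit 3) (nat_lit 77) (nat_lit 78) = true := by decide +kernel
def p14_20_0_78 : pfC (piC [(nat_lit 35404596), (nat_lit 22827826), (nat_lit 14696761)] (nat_lit 17719570)) p14_20_0 (nat_lit 3) (nat_lit 78) (nat_lit 79) = true := by decide +kernel
def p14_20_0_79 : pfC (piC [(nat_lit 35404596), (nat_lit 22827826), (nat_lit 14696761)] (nat_lit 17719570)) p14_20_0 (nat_lit 3) (nat_lit 79) (nat_lit 80) = true := by decide +kernel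
def p14_20_0_80 : pfC (piC [(nat_lit 35404596), (nat_lit 22827826), (nat_lit 14696761)] (nat_lit 17719570)) p14_20_0 (nat_lit 3) (nat_lit 80) (nat_lit 81) = true := by decide +kernel
def p14_20_0_81 : pfC (piC [(nat_lit 35404596), (nat_lit 22827826), (nat_lit 14696761)] (nat_lit 17719570)) p14_20_0 (nat_lit 3) (nat_lit 81) (nat_lit 82) = true := by decide +kernel
def p14_20_0_82 : pfC (piC [(nat_lit 35404596), (nat_lit 22827826), (nat_lit 14696761)] (nat_lit 17719570)) p14_20_0 (nat_lit 3) (nat_lit 82) (nat_lit 83) = true := by decide +kernel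
def p14_20_0_83 : pfC (piC [(nat_lit 35404596), (nat_lit 22827826), (nat_lit 14696761)] (nat_lit 17719570)) p14_20_0 (nat_lit 3) (nat_lit 83) (nat_lit 84) = true := by decide +kernel
def p14_20_0_84 : pfC (piC [(nat_lit 35404596), (nat_lit 22827826), (nat_lit 14696761)] (nat_lit 17719570)) p14_20_0 (nat_lit 3) (nat_lit 84) (nat_lit 85) = true := by decide +kernel
def p14_20_0_85 : pfC (piC [(nat_lit 35404596), (nat_lit 22827826), (nat_lit 14696761)] (nat_lit 17719570)) p14_20_0 (nat_lit 3) (nat_lit 85) (nat_lit 86) = true := by decide +kernel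
def p14_20_0_86 : pfC (piC [(nat_lit 35404596), (nat_lit 22827826), (nat_lit 14696761)] (nat_lit 17719570)) p14_20_0 (nat_lit 3) (nat_lit 86) (nat_lit 87) = true := by decide +kernel
def p14_20_0_87 : pfC (piC [(nat_lit 35404596), (nat_lit 22827826), (nat_lit 14696761)] (nat_lit 17719570)) p14_20_0 (nat_lit 3) (nat_lit 87) (nat_lit 88) = true := by decide +kernel
def p14_20_0_88 : pfC (piC [(nat_lit 35404596), (nat_lit 22827826), (nat_lit 14696761)] (nat_lit 17719570)) p14_20_0 (nat_lit 3) (nat_lit 88) (nat_lit 89) = true := by decide +kernel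
def p14_20_0_89 : pfC (piC [(nat_lit 35404596), (nat_lit 22827826), (nat_lit 14696761)] (nat_lit 17719570)) p14_20_0 (nat_lit 3) (nat_lit 89) (nat_lit 90) = true := by decide +kernel
def p14_20_0_90 : pfC (piC [(nat_lit 35404596), (nat_lit 22827826), (nat_lit 14696761)] (nat_lit 17719570)) p14_20_0 (nat_lit 3) (nat_lit 90) (nat_lit 91) = true := by decide +kernel
def p14_20_0_91 : pfC (piC [(nat_lit 35404596), (nat_lit 22827826), (nat_lit 14696761)] (nat_lit 17719570)) p14_20_0 (nat_lit 3) (nat_lit 91) (nat_lit 92) = true := by decide +kernel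
def p14_20_0_92 : pfC (piC [(nat_lit 35404596), (nat_lit 22827826), (nat_lit 14696761)] (nat_lit 17719570)) p14_20_0 (nat_lit 3) (nat_lit 92) (nat_lit 93) = true := by decide +kernel
def p14_20_0_93 : pfC (piC [(nat_lit 35404596), (nat_lit 22827826), (nat_lit 14696761)] (nat_lit 17719570)) p14_20_0 (nat_lit 3) (nat_lit 93) (nat_lit 94) = true := by decide +kernel
def p14_20_0_94 : pfC (piC [(nat_lit 35404596), (nat_lit 22827826), (nat_lit 14696761)] (nat_lit 17719570)) p14_20_0 (nat_lit 3) (nat_lit 94) (nat_lit 95) = true := by decide +kernel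
def p14_20_0_95 : pfC (piC [(nat_lit 35404596), (nat_lit 22827826), (nat_lit 14696761)] (nat_lit 17719570)) p14_20_0 (nat_lit 3) (nat_lit 95) (nat_lit 96) = true := by decide +kernel
def p14_20_0_96 : pfC (piC [(nat_lit 35404596), (nat_lit 22827826), (nat_lit 14696761)] (nat_lit 17719570)) p14_20_0 (nat_lit 3) (nat_lit 96) (nat_lit 97) = true := by decide +kernel
def p14_20_0_97 : pfC (piC [(nat_lit 35404596), (nat_lit 22827826), (nat_lit 14696761)] (nat_lit 17719570)) p14_20_0 (nat_lit 3) (nat_lit 97) (nat_lit 98) = true := by decide +kernel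
def p14_20_0_98 : pfC (piC [(nat_lit 35404596), (nat_lit 22827826), (nat_lit 14696761)] (nat_lit 17719570)) p14_20_0 (nat_lit 3) (nat_lit 98) (nat_lit 99) = true := by decide +kernel
def p14_20_0_99 : pfC (piC [(nat_lit 35404596), (nat_lit 22827826), (nat_lit 14696761)] (nat_lit 17719570)) p14_20_0 (nat_lit 3) (nat_lit 99) (nat_lit 100) = true := by decide +kernel
def p14_20_0_100 : pfC (piC [(nat_lit 35404596), (nat_lit 22827826), (nat_lit 14696761)] (nat_lit 17719570)) p14_20_0 (nat_lit 3) (nat_lit 100) (nat_lit 101) = true := by decide +kernel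
def p14_20_0_101 : pfC (piC [(nat_lit 35404596), (nat_lit 22827826), (nat_lit 14696761)] (nat_lit 17719570)) p14_20_0 (nat_lit 3) (nat_lit 101) (nat_lit 102) = true := by decide +kernel
def p14_20_0_102 : pfC (piC [(nat_lit 35404596), (nat_lit 22827826), (nat_lit 14696761)] (nat_lit 17719570)) p14_20_0 (nat_lit 3) (nat_lit 102) (nat_lit 103) = true := by decide +kernel
def p14_20_0_103 : pfC (piC [(nat_lit 35404596), (nat_lit 22827826), (nat_lit 14696761)] (nat_lit 17719570)) p14_20_0 (nat_lit 3) (nat_lit 103) (nat_lit 104) = true := by decide +kernel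
def p14_20_0_104 : pfC (piC [(nat_lit 35404596), (nat_lit 22827826), (nat_lit 14696761)] (nat_lit 17719570)) p14_20_0 (nat_lit 3) (nat_lit 104) (nat_lit 105) = true := by decide +kernel
def p14_20_0_105 : pfC (piC [(nat_lit 35404596), (nat_lit 22827826), (nat_lit 14696761)] (nat_lit 17719570)) p14_20_0 (nat_lit 3) (nat_lit 105) (nat_lit 106) = true := by decide +kernel
def p14_20_0_106 : pfC (piC [(nat_lit 35404596), (nat_lit 22827826), (nat_lit 14696761)] (nat_lit 17719570)) p14_20_0 (nat_lit 3) (nat_lit 106) (nat_lit 107) = true := by decide +kernel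
def p14_20_0_107 : pfC (piC [(nat_lit 35404596), (nat_lit 22827826), (nat_lit 14696761)] (nat_lit 17719570)) p14_20_0 (nat_lit 3) (nat_lit 107) (nat_lit 108) = true := by decide +kernel
def p14_20_0_108 : pfC (piC [(nat_lit 35404596), (nat_lit 22827826), (nat_lit 14696761)] (nat_lit 17719570)) p14_20_0 (nat_lit 3) (nat_lit 108) (nat_lit 109) = true := by decide +kernel
def p14_20_0_109 : pfC (piC [(nat_lit 35404596), (nat_lit 22827826), (nat_lit 14696761)] (nat_lit 17719570)) p14_20_0 (nat_lit 3) (nat_lit 109) (nat_lit 110) = true := by decide +kernel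
def p14_20_0_110 : pfC (piC [(nat_lit 35404596), (nat_lit 22827826), (nat_lit 14696761)] (nat_lit 17719570)) p14_20_0 (nat_lit 3) (nat_lit 110) (nat_lit 111) = true := by decide +kernel
def p14_20_0_111 : pfC (piC [(nat_lit 35404596), (nat_lit 22827826), (nat_lit 14696761)] (nat_lit 17719570)) p14_20_0 (nat_lit 3) (nat_lit 111) (nat_lit 112) = true := by decide +kernel
def p14_20_0_112 : pfC (piC [(nat_lit 35404596), (nat_lit 22827826), (nat_lit 14696761)] (nat_lit 17719570)) p14_20_0 (nat_lit 3) (nat_lit 112) (nat_lit 113) = true := by decide +kernel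
def p14_20_0_113 : pfC (piC [(nat_lit 35404596), (nat_lit 22827826), (nat_lit 14696761)] (nat_lit 17719570)) p14_20_0 (nat_lit 3) (nat_lit 113) (nat_lit 114) = true := by decide +kernel
def p14_20_0_114 : pfC (piC [(nat_lit 35404596), (nat_lit 22827826), (nat_lit 14696761)] (nat_lit 17719570)) p14_20_0 (nat_lit 3) (nat_lit 114) (nat_lit 115) = true := by decide +kernel
def p14_20_0_115 : pfC (piC [(nat_lit 35404596), (nat_lit 22827826), (nat_lit 14696761)] (nat_lit 17719570)) p14_20_0 (nat_lit 3) (nat_lit 115) (nat_lit 116) = true := by decide +kernel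
def p14_20_0_116 : pfC (piC [(nat_lit 35404596), (nat_lit 22827826), (nat_lit 14696761)] (nat_lit 17719570)) p14_20_0 (nat_lit 3) (nat_lit 116) (nat_lit 117) = true := by decide +kernel
def p14_20_0_117 : pfC (piC [(nat_lit 35404596), (nat_lit 22827826), (nat_lit 14696761)] (nat_lit 17719570)) p14_20_0 (nat_lit 3) (nat_lit 117) (nat_lit 118) = true := by decide +kernel
def p14_20_0_118 : pfC (piC [(nat_lit 35404596), (nat_lit 22827826), (nat_lit 14696761)] (nat_lit 17719570)) p14_20_0 (nat_lit 3) (nat_lit 118) (nat_lit 119) = true := by decide +kernel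
def p14_20_0_119 : pfC (piC [(nat_lit 35404596), (nat_lit 22827826), (nat_lit 14696761)] (nat_lit 17719570)) p14_20_0 (nat_lit 3) (nat_lit 119) (nat_lit 120) = true := by decide +kernel
def p14_20_0_120 : pfC (piC [(nat_lit 35404596), (nat_lit 22827826), (nat_lit 14696761)] (nat_lit 17719570)) p14_20_0 (nat_lit 3) (nat_lit 120) (nat_lit 121) = true := by decide +kernel
def p14_20_0_121 : pfC (piC [(nat_lit 35404596), (nat_lit 22827826), (nat_lit 14696761)] (nat_lit 17719570)) p14_20_0 (nat_lit 3) (nat_lit 121) (nat_lit 122) = true := by decide +kernel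
def p14_20_0_122 : pfC (piC [(nat_lit 35404596), (nat_lit 22827826), (nat_lit 14696761)] (nat_lit 17719570)) p14_20_0 (nat_lit 3) (nat_lit 122) (nat_lit 123) = true := by decide +kernel
def p14_20_0_123 : pfC (piC [(nat_lit 35404596), (nat_lit 22827826), (nat_lit 14696761)] (nat_lit 17719570)) p14_20_0 (nat_lit 3) (nat_lit 123) (nat_lit 124) = true := by decide +kernel
def p14_20_0_124 : pfC (piC [(nat_lit 35404596), (nat_lit 22827826), (nat_lit 14696761)] (nat_lit 17719570)) p14_20_0 (nat_lit 3) (nat_lit 124) (nat_lit 125) = true := by decide +kernel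
def p14_20_0_125 : pfC (piC [(nat_lit 35404596), (nat_lit 22827826), (nat_lit 14696761)] (nat_lit 17719570)) p14_20_0 (nat_lit 3) (nat_lit 125) (nat_lit 126) = true := by decide +kernel
def p14_20_0_126 : pfC (piC [(nat_lit 35404596), (nat_lit 22827826), (nat_lit 14696761)] (nat_lit 17719570)) p14_20_0 (nat_lit 3) (nat_lit 126) (nat_lit 127) = true := by decide +kernel
def p14_20_0_127 : pfC (piC [(nat_lit 35404596), (nat_lit 22827826), (nat_lit 14696761)] (nat_lit 17719570)) p14_20_0 (nat_lit 3) (nat_lit 127) (nat_lit 128) = true := by decide +kernel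
def p14_20_0_128 : pfC (piC [(nat_lit 35404596), (nat_lit 22827826), (nat_lit 14696761)] (nat_lit 17719570)) p14_20_0 (nat_lit 3) (nat_lit 128) (nat_lit 129) = true := by decide +kernel
def p14_20_0_129 : pfC (piC [(nat_lit 35404596), (nat_lit 22827826), (nat_lit 14696761)] (nat_lit 17719570)) p14_20_0 (nat_lit 3) (nat_lit 129) (nat_lit 130) = true := by decide +kernel
def p14_20_0_130 : pfC (piC [(nat_lit 35404596), (nat_lit 22827826), (nat_lit 14696761)] (nat_lit 17719570)) p14_20_0 (nat_lit 3) (nat_lit 130) (nat_lit 131) = true := by decide +kernel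
def p14_20_0_131 : pfC (piC [(nat_lit 35404596), (nat_lit 22827826), (nat_lit 14696761)] (nat_lit 17719570)) p14_20_0 (nat_lit 3) (nat_lit 131) (nat_lit 132) = true := by decide +kernel
def p14_20_0_132 : pfC (piC [(nat_lit 35404596), (nat_lit 22827826), (nat_lit 14696761)] (nat_lit 17719570)) p14_20_0 (nat_lit 3) (nat_lit 132) (nat_lit 133) = true := by decide +kernel
def p14_20_0_133 : pfC (piC [(nat_lit 35404596), (nat_lit 22827826), (nat_lit 14696761)] (nat_lit 17719570)) p14_20_0 (nat_lit 3) (nat_lit 133) (nat_lit 134) = true := by decide +kernel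
def p14_20_0_134 : pfC (piC [(nat_lit 35404596), (nat_lit 22827826), (nat_lit 14696761)] (nat_lit 17719570)) p14_20_0 (nat_lit 3) (nat_lit 134) (nat_lit 135) = true := by decide +kernel
def p14_20_0_135 : pfC (piC [(nat_lit 35404596), (nat_lit 22827826), (nat_lit 14696761)] (nat_lit 17719570)) p14_20_0 (nat_lit 3) (nat_lit 135) (nat_lit 136) = true := by decide +kernel
def p14_20_0_136 : pfC (piC [(nat_lit 35404596), (nat_lit 22827826), (nat_lit 14696761)] (nat_lit 17719570)) p14_20_0 (nat_lit 3) (nat_lit 136) (nat_lit 137) = true := by decide +kernel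
def p14_20_0_137 : pfC (piC [(nat_lit 35404596), (nat_lit 22827826), (nat_lit 14696761)] (nat_lit 17719570)) p14_20_0 (nat_lit 3) (nat_lit 137) (nat_lit 138) = true := by decide +kernel
def p14_20_0_138 : pfC (piC [(nat_lit 35404596), (nat_lit 22827826), (nat_lit 14696761)] (nat_lit 17719570)) p14_20_0 (nat_lit 3) (nat_lit 138) (nat_lit 139) = true := by decide +kernel
def p14_20_0_139 : pfC (piC [(nat_lit 35404596), (nat_lit 22827826), (nat_lit 14696761)] (nat_lit 17719570)) p14_20_0 (nat_lit 3) (nat_lit 139) (nat_lit 140) = true := by decide +kernel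
def p14_20_0_140 : pfC (piC [(nat_lit 35404596), (nat_lit 22827826), (nat_lit 14696761)] (nat_lit 17719570)) p14_20_0 (nat_lit 3) (nat_lit 140) (nat_lit 141) = true := by decide +kernel
def p14_20_0_141 : pfC (piC [(nat_lit 35404596), (nat_lit 22827826), (nat_lit 14696761)] (nat_lit 17719570)) p14_20_0 (nat_lit 3) (nat_lit 141) (nat_lit 142) = true := by decide +kernel
def p14_20_0_142 : pfC (piC [(nat_lit 35404596), (nat_lit 22827826), (nat_lit 14696761)] (nat_lit 17719570)) p14_20_0 (nat_lit 3) (nat_lit 142) (nat_lit 143) = true := by decide +kernel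
def p14_20_0_143 : pfC (piC [(nat_lit 35404596), (nat_lit 22827826), (nat_lit 14696761)] (nat_lit 17719570)) p14_20_0 (nat_lit 3) (nat_lit 143) (nat_lit 144) = true := by decide +kernel
def p14_20_0_144 : pfC (piC [(nat_lit 35404596), (nat_lit 22827826), (nat_lit 14696761)] (nat_lit 17719570)) p14_20_0 (nat_lit 3) (nat_lit 144) (nat_lit 145) = true := by decide +kernel
def p14_20_0_145 : pfC (piC [(nat_lit 35404596), (nat_lit 22827826), (nat_lit 14696761)] (nat_lit 17719570)) p14_20_0 (nat_lit 3) (nat_lit 145) (nat_lit 146) = true := by decide +kernel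
def p14_20_0_146 : pfC (piC [(nat_lit 35404596), (nat_lit 22827826), (nat_lit 14696761)] (nat_lit 17719570)) p14_20_0 (nat_lit 3) (nat_lit 146) (nat_lit 147) = true := by decide +kernel
def p14_20_0_147 : pfC (piC [(nat_lit 35404596), (nat_lit 22827826), (nat_lit 14696761)] (nat_lit 17719570)) p14_20_0 (nat_lit 3) (nat_lit 147) (nat_lit 148) = true := by decide +kernel
def p14_20_0_148 : pfC (piC [(nat_lit 35404596), (nat_lit 22827826), (nat_lit 14696761)] (nat_lit 17719570)) p14_20_0 (nat_lit 3) (nat_lit 148) (nat_lit 149) = true := by decide +kernel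
def p14_20_0_149 : pfC (piC [(nat_lit 35404596), (nat_lit 22827826), (nat_lit 14696761)] (nat_lit 17719570)) p14_20_0 (nat_lit 3) (nat_lit 149) (nat_lit 150) = true := by decide +kernel
def p14_20_0_150 : pfC (piC [(nat_lit 35404596), (nat_lit 22827826), (nat_lit 14696761)] (nat_lit 17719570)) p14_20_0 (nat_lit 3) (nat_lit 150) (nat_lit 151) = true := by decide +kernel
def p14_20_0_151 : pfC (piC [(nat_lit 35404596), (nat_lit 22827826), (nat_lit 14696761)] (nat_lit 17719570)) p14_20_0 (nat_lit 3) (nat_lit 151) (nat_lit 152) = true := by decide +kernel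
def p14_20_0_152 : pfC (piC [(nat_lit 35404596), (nat_lit 22827826), (nat_lit 14696761)] (nat_lit 17719570)) p14_20_0 (nat_lit 3) (nat_lit 152) (nat_lit 153) = true := by decide +kernel
def p14_20_0_153 : pfC (piC [(nat_lit 35404596), (nat_lit 22827826), (nat_lit 14696761)] (nat_lit 17719570)) p14_20_0 (nat_lit 3) (nat_lit 153) (nat_lit 154) = true := by decide +kernel
def p14_20_0_154 : pfC (piC [(nat_lit 35404596), (nat_lit 22827826), (nat_lit 14696761)] (nat_lit 17719570)) p14_20_0 (nat_lit 3) (nat_lit 154) (nat_lit 155) = true := by decide +kernel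
def p14_20_0_155 : pfC (piC [(nat_lit 35404596), (nat_lit 22827826), (nat_lit 14696761)] (nat_lit 17719570)) p14_20_0 (nat_lit 3) (nat_lit 155) (nat_lit 156) = true := by decide +kernel
def p14_20_0_156 : pfC (piC [(nat_lit 35404596), (nat_lit 22827826), (nat_lit 14696761)] (nat_lit 17719570)) p14_20_0 (nat_lit 3) (nat_lit 156) (nat_lit 157) = true := by decide +kernel
def p14_20_0_157 : pfC (piC [(nat_lit 35404596), (nat_lit 22827826), (nat_lit 14696761)] (nat_lit 17719570)) p14_20_0 (nat_lit 3) (nat_lit 157) (nat_lit 158) = true := by decide +kernel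
def p14_20_0_158 : pfC (piC [(nat_lit 35404596), (nat_lit 22827826), (nat_lit 14696761)] (nat_lit 17719570)) p14_20_0 (nat_lit 3) (nat_lit 158) (nat_lit 159) = true := by decide +kernel
def p14_20_0_159 : pfC (piC [(nat_lit 35404596), (nat_lit 22827826), (nat_lit 14696761)] (nat_lit 17719570)) p14_20_0 (nat_lit 3) (nat_lit 159) (nat_lit 160) = true := by decide +kernel
def p14_20_0_160 : pfC (piC [(nat_lit 35404596), (nat_lit 22827826), (nat_lit 14696761)] (nat_lit 17719570)) p14_20_0 (nat_lit 3) (nat_lit 160) (nat_lit 161) = true := by decide +kernel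
def p14_20_0_161 : pfC (piC [(nat_lit 35404596), (nat_lit 22827826), (nat_lit 14696761)] (nat_lit 17719570)) p14_20_0 (nat_lit 3) (nat_lit 161) (nat_lit 162) = true := by decide +kernel
def p14_20_0_162 : pfC (piC [(nat_lit 35404596), (nat_lit 22827826), (nat_lit 14696761)] (nat_lit 17719570)) p14_20_0 (nat_lit 3) (nat_lit 162) (nat_lit 163) = true := by decide +kernel
def p14_20_0_163 : pfC (piC [(nat_lit 35404596), (nat_lit 22827826), (nat_lit 14696761)] (nat_lit 17719570)) p14_20_0 (nat_lit 3) (nat_lit 163) (nat_lit 164) = true := by decide +kernel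
def p14_20_0_164 : pfC (piC [(nat_lit 35404596), (nat_lit 22827826), (nat_lit 14696761)] (nat_lit 17719570)) p14_20_0 (nat_lit 3) (nat_lit 164) (nat_lit 165) = true := by decide +kernel
def p14_20_0_165 : pfC (piC [(nat_lit 35404596), (nat_lit 22827826), (nat_lit 14696761)] (nat_lit 17719570)) p14_20_0 (nat_lit 3) (nat_lit 165) (nat_lit 166) = true := by decide +kernel
def p14_20_0_166 : pfC (piC [(nat_lit 35404596), (nat_lit 22827826), (nat_lit 14696761)] (nat_lit 17719570)) p14_20_0 (nat_lit 3) (nat_lit 166) (nat_lit 167) = true := by decide +kernel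
def p14_20_0_167 : pfC (piC [(nat_lit 35404596), (nat_lit 22827826), (nat_lit 14696761)] (nat_lit 17719570)) p14_20_0 (nat_lit 3) (nat_lit 167) (nat_lit 168) = true := by decide +kernel
def p14_20_0_168 : pfC (piC [(nat_lit 35404596), (nat_lit 22827826), (nat_lit 14696761)] (nat_lit 17719570)) p14_20_0 (nat_lit 3) (nat_lit 168) (nat_lit 169) = true := by decide +kernel
def p14_20_0_169 : pfC (piC [(nat_lit 35404596), (nat_lit 22827826), (nat_lit 14696761)] (nat_lit 17719570)) p14_20_0 (nat_lit 3) (nat_lit 169) (nat_lit 170) = true := by decide +kernel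
def p14_20_0_170 : pfC (piC [(nat_lit 35404596), (nat_lit 22827826), (nat_lit 14696761)] (nat_lit 17719570)) p14_20_0 (nat_lit 3) (nat_lit 170) (nat_lit 171) = true := by decide +kernel
def p14_20_0_171 : pfC (piC [(nat_lit 35404596), (nat_lit 22827826), (nat_lit 14696761)] (nat_lit 17719570)) p14_20_0 (nat_lit 3) (nat_lit 171) (nat_lit 172) = true := by decide +kernel
def p14_20_0_172 : pfC (piC [(nat_lit 35404596), (nat_lit 22827826), (nat_lit 14696761)] (nat_lit 17719570)) p14_20_0 (nat_lit 3) (nat_lit 172) (nat_lit 173) = true := by decide +kernel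
def p14_20_0_173 : pfC (piC [(nat_lit 35404596), (nat_lit 22827826), (nat_lit 14696761)] (nat_lit 17719570)) p14_20_0 (nat_lit 3) (nat_lit 173) (nat_lit 174) = true := by decide +kernel
def p14_20_0_174 : pfC (piC [(nat_lit 35404596), (nat_lit 22827826), (nat_lit 14696761)] (nat_lit 17719570)) p14_20_0 (nat_lit 3) (nat_lit 174) (nat_lit 175) = true := by decide +kernel
def p14_20_0_175 : pfC (piC [(nat_lit 35404596), (nat_lit 22827826), (nat_lit 14696761)] (nat_lit 17719570)) p14_20_0 (nat_lit 3) (nat_lit 175) (nat_lit 176) = true := by decide +kernel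
def p14_20_0_176 : pfC (piC [(nat_lit 35404596), (nat_lit 22827826), (nat_lit 14696761)] (nat_lit 17719570)) p14_20_0 (nat_lit 3) (nat_lit 176) (nat_lit 177) = true := by decide +kernel
def p14_20_0_177 : pfC (piC [(nat_lit 35404596), (nat_lit 22827826), (nat_lit 14696761)] (nat_lit 17719570)) p14_20_0 (nat_lit 3) (nat_lit 177) (nat_lit 178) = true := by decide +kernel
def p14_20_0_178 : pfC (piC [(nat_lit 35404596), (nat_lit 22827826), (nat_lit 14696761)] (nat_lit 17719570)) p14_20_0 (nat_lit 3) (nat_lit 178) (nat_lit 179) = true := by decide +kernel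
def p14_20_0_179 : pfC (piC [(nat_lit 35404596), (nat_lit 22827826), (nat_lit 14696761)] (nat_lit 17719570)) p14_20_0 (nat_lit 3) (nat_lit 179) (nat_lit 180) = true := by decide +kernel
def p14_20_0_180 : pfC (piC [(nat_lit 35404596), (nat_lit 22827826), (nat_lit 14696761)] (nat_lit 17719570)) p14_20_0 (nat_lit 3) (nat_lit 180) (nat_lit 181) = true := by decide +kernel
def p14_20_0_181 : pfC (piC [(nat_lit 35404596), (nat_lit 22827826), (nat_lit 14696761)] (nat_lit 17719570)) p14_20_0 (nat_lit 3) (nat_lit 181) (nat_lit 182) = true := by decide +kernel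
def p14_20_0_182 : pfC (piC [(nat_lit 35404596), (nat_lit 22827826), (nat_lit 14696761)] (nat_lit 17719570)) p14_20_0 (nat_lit 3) (nat_lit 182) (nat_lit 183) = true := by decide +kernel
def p14_20_0_183 : pfC (piC [(nat_lit 35404596), (nat_lit 22827826), (nat_lit 14696761)] (nat_lit 17719570)) p14_20_0 (nat_lit 3) (nat_lit 183) (nat_lit 184) = true := by decide +kernel
def p14_20_0_184 : pfC (piC [(nat_lit 35404596), (nat_lit 22827826), (nat_lit 14696761)] (nat_lit 17719570)) p14_20_0 (nat_lit 3) (nat_lit 184) (nat_lit 185) = true := by decide +kernel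
def p14_20_0_185 : pfC (piC [(nat_lit 35404596), (nat_lit 22827826), (nat_lit 14696761)] (nat_lit 17719570)) p14_20_0 (nat_lit 3) (nat_lit 185) (nat_lit 186) = true := by decide +kernel
def p14_20_0_186 : pfC (piC [(nat_lit 35404596), (nat_lit 22827826), (nat_lit 14696761)] (nat_lit 17719570)) p14_20_0 (nat_lit 3) (nat_lit 186) (nat_lit 187) = true := by decide +kernel
def p14_20_0_187 : pfC (piC [(nat_lit 35404596), (nat_lit 22827826), (nat_lit 14696761)] (nat_lit 17719570)) p14_20_0 (nat_lit 3) (nat_lit 187) (nat_lit 188) = true := by decide +kernel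
def p14_20_0_188 : pfC (piC [(nat_lit 35404596), (nat_lit 22827826), (nat_lit 14696761)] (nat_lit 17719570)) p14_20_0 (nat_lit 3) (nat_lit 188) (nat_lit 189) = true := by decide +kernel
def p14_20_0_189 : pfC (piC [(nat_lit 35404596), (nat_lit 22827826), (nat_lit 14696761)] (nat_lit 17719570)) p14_20_0 (nat_lit 3) (nat_lit 189) (nat_lit 190) = true := by decide +kernel
def p14_20_0_190 : pfC (piC [(nat_lit 35404596), (nat_lit 22827826), (nat_lit 14696761)] (nat_lit 17719570)) p14_20_0 (nat_lit 3) (nat_lit 190) (nat_lit 191) = true := by decide +kernel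
def p14_20_0_191 : pfC (piC [(nat_lit 35404596), (nat_lit 22827826), (nat_lit 14696761)] (nat_lit 17719570)) p14_20_0 (nat_lit 3) (nat_lit 191) (nat_lit 192) = true := by decide +kernel
def p14_20_0_192 : pfC (piC [(nat_lit 35404596), (nat_lit 22827826), (nat_lit 14696761)] (nat_lit 17719570)) p14_20_0 (nat_lit 3) (nat_lit 192) (nat_lit 193) = true := by decide +kernel
def p14_20_0_193 : pfC (piC [(nat_lit 35404596), (nat_lit 22827826), (nat_lit 14696761)] (nat_lit 17719570)) p14_20_0 (nat_lit 3) (nat_lit 193) (nat_lit 194) = true := by decide +kernel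
def p14_20_0_194 : pfC (piC [(nat_lit 35404596), (nat_lit 22827826), (nat_lit 14696761)] (nat_lit 17719570)) p14_20_0 (nat_lit 3) (nat_lit 194) (nat_lit 195) = true := by decide +kernel
def p14_20_0_195 : pfC (piC [(nat_lit 35404596), (nat_lit 22827826), (nat_lit 14696761)] (nat_lit 17719570)) p14_20_0 (nat_lit 3) (nat_lit 195) (nat_lit 196) = true := by decide +kernel
def p14_20_0_196 : pfC (piC [(nat_lit 35404596), (nat_lit 22827826), (nat_lit 14696761)] (nat_lit 17719570)) p14_20_0 (nat_lit 3) (nat_lit 196) (nat_lit 197) = true := by decide +kernel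
def p14_20_0_197 : pfC (piC [(nat_lit 35404596), (nat_lit 22827826), (nat_lit 14696761)] (nat_lit 17719570)) p14_20_0 (nat_lit 3) (nat_lit 197) (nat_lit 198) = true := by decide +kernel
def p14_20_0_198 : pfC (piC [(nat_lit 35404596), (nat_lit 22827826), (nat_lit 14696761)] (nat_lit 17719570)) p14_20_0 (nat_lit 3) (nat_lit 198) (nat_lit 199) = true := by decide +kernel
def p14_20_0_199 : pfC (piC [(nat_lit 35404596), (nat_lit 22827826), (nat_lit 14696761)] (nat_lit 17719570)) p14_20_0 (nat_lit 3) (nat_lit 199) (nat_lit 200) = true := by decide +kernel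
def p14_20_0_200 : pfC (piC [(nat_lit 35404596), (nat_lit 22827826), (nat_lit 14696761)] (nat_lit 17719570)) p14_20_0 (nat_lit 3) (nat_lit 200) (nat_lit 201) = true := by decide +kernel
def p14_20_0_201 : pfC (piC [(nat_lit 35404596), (nat_lit 22827826), (nat_lit 14696761)] (nat_lit 17719570)) p14_20_0 (nat_lit 3) (nat_lit 201) (nat_lit 202) = true := by decide +kernel
def p14_20_0_202 : pfC (piC [(nat_lit 35404596), (nat_lit 22827826), (nat_lit 14696761)] (nat_lit 17719570)) p14_20_0 (nat_lit 3) (nat_lit 202) (nat_lit 203) = true := by decide +kernel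
def p14_20_0_203 : pfC (piC [(nat_lit 35404596), (nat_lit 22827826), (nat_lit 14696761)] (nat_lit 17719570)) p14_20_0 (nat_lit 3) (nat_lit 203) (nat_lit 204) = true := by decide +kernel
def p14_20_0_204 : pfC (piC [(nat_lit 35404596), (nat_lit 22827826), (nat_lit 14696761)] (nat_lit 17719570)) p14_20_0 (nat_lit 3) (nat_lit 204) (nat_lit 205) = true := by decide +kernel
def p14_20_0_205 : pfC (piC [(nat_lit 35404596), (nat_lit 22827826), (nat_lit 14696761)] (nat_lit 17719570)) p14_20_0 (nat_lit 3) (nat_lit 205) (nat_lit 206) = true := by decide +kernel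
def p14_20_0_206 : pfC (piC [(nat_lit 35404596), (nat_lit 22827826), (nat_lit 14696761)] (nat_lit 17719570)) p14_20_0 (nat_lit 3) (nat_lit 206) (nat_lit 207) = true := by decide +kernel
def p14_20_0_207 : pfC (piC [(nat_lit 35404596), (nat_lit 22827826), (nat_lit 14696761)] (nat_lit 17719570)) p14_20_0 (nat_lit 3) (nat_lit 207) (nat_lit 208) = true := by decide +kernel
def p14_20_0_208 : pfC (piC [(nat_lit 35404596), (nat_lit 22827826), (nat_lit 14696761)] (nat_lit 17719570)) p14_20_0 (nat_lit 3) (nat_lit 208) (nat_lit 209) = true := by decide +kernel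
def p14_20_0_209 : pfC (piC [(nat_lit 35404596), (nat_lit 22827826), (nat_lit 14696761)] (nat_lit 17719570)) p14_20_0 (nat_lit 3) (nat_lit 209) (nat_lit 210) = true := by decide +kernel
def p14_20_0_210 : pfC (piC [(nat_lit 35404596), (nat_lit 22827826), (nat_lit 14696761)] (nat_lit 17719570)) p14_20_0 (nat_lit 3) (nat_lit 210) (nat_lit 211) = true := by decide +kernel
def p14_20_0_211 : pfC (piC [(nat_lit 35404596), (nat_lit 22827826), (nat_lit 14696761)] (nat_lit 17719570)) p14_20_0 (nat_lit 3) (nat_lit 211) (nat_lit 212) = true := by decide +kernel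
def p14_20_0_212 : pfC (piC [(nat_lit 35404596), (nat_lit 22827826), (nat_lit 14696761)] (nat_lit 17719570)) p14_20_0 (nat_lit 3) (nat_lit 212) (nat_lit 213) = true := by decide +kernel
def p14_20_0_213 : pfC (piC [(nat_lit 35404596), (nat_lit 22827826), (nat_lit 14696761)] (nat_lit 17719570)) p14_20_0 (nat_lit 3) (nat_lit 213) (nat_lit 214) = true := by decide +kernel
def p14_20_0_214 : pfC (piC [(nat_lit 35404596), (nat_lit 22827826), (nat_lit 14696761)] (nat_lit 17719570)) p14_20_0 (nat_lit 3) (nat_lit 214) (nat_lit 215) = true := by decide +kernel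
def p14_20_0_215 : pfC (piC [(nat_lit 35404596), (nat_lit 22827826), (nat_lit 14696761)] (nat_lit 17719570)) p14_20_0 (nat_lit 3) (nat_lit 215) (nat_lit 216) = true := by decide +kernel
def p14_20_0_216 : pfC (piC [(nat_lit 35404596), (nat_lit 22827826), (nat_lit 14696761)] (nat_lit 17719570)) p14_20_0 (nat_lit 3) (nat_lit 216) (nat_lit 217) = true := by decide +kernel
def p14_20_0_217 : pfC (piC [(nat_lit 35404596), (nat_lit 22827826), (nat_lit 14696761)] (nat_lit 17719570)) p14_20_0 (nat_lit 3) (nat_lit 217) (nat_lit 218) = true := by decide +kernel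
def p14_20_0_218 : pfC (piC [(nat_lit 35404596), (nat_lit 22827826), (nat_lit 14696761)] (nat_lit 17719570)) p14_20_0 (nat_lit 3) (nat_lit 218) (nat_lit 219) = true := by decide +kernel
def p14_20_0_219 : pfC (piC [(nat_lit 35404596), (nat_lit 22827826), (nat_lit 14696761)] (nat_lit 17719570)) p14_20_0 (nat_lit 3) (nat_lit 219) (nat_lit 220) = true := by decide +kernel
def p14_20_0_220 : pfC (piC [(nat_lit 35404596), (nat_lit 22827826), (nat_lit 14696761)] (nat_lit 17719570)) p14_20_0 (nat_lit 3) (nat_lit 220) (nat_lit 221) = true := by decide +kernel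
def p14_20_0_221 : pfC (piC [(nat_lit 35404596), (nat_lit 22827826), (nat_lit 14696761)] (nat_lit 17719570)) p14_20_0 (nat_lit 3) (nat_lit 221) (nat_lit 222) = true := by decide +kernel
def p14_20_0_222 : pfC (piC [(nat_lit 35404596), (nat_lit 22827826), (nat_lit 14696761)] (nat_lit 17719570)) p14_20_0 (nat_lit 3) (nat_lit 222) (nat_lit 223) = true := by decide +kernel
def p14_20_0_223 : pfC (piC [(nat_lit 35404596), (nat_lit 22827826), (nat_lit 14696761)] (nat_lit 17719570)) p14_20_0 (nat_lit 3) (nat_lit 223) (nat_lit 224) = true := by decide +kernel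
def p14_20_0_224 : pfC (piC [(nat_lit 35404596), (nat_lit 22827826), (nat_lit 14696761)] (nat_lit 17719570)) p14_20_0 (nat_lit 3) (nat_lit 224) (nat_lit 225) = true := by decide +kernel
def p14_20_0_225 : pfC (piC [(nat_lit 35404596), (nat_lit 22827826), (nat_lit 14696761)] (nat_lit 17719570)) p14_20_0 (nat_lit 3) (nat_lit 225) (nat_lit 226) = true := by decide +kernel
def p14_20_0_226 : pfC (piC [(nat_lit 35404596), (nat_lit 22827826), (nat_lit 14696761)] (nat_lit 17719570)) p14_20_0 (nat_lit 3) (nat_lit 226) (nat_lit 227) = true := by decide +kernel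
def p14_20_0_227 : pfC (piC [(nat_lit 35404596), (nat_lit 22827826), (nat_lit 14696761)] (nat_lit 17719570)) p14_20_0 (nat_lit 3) (nat_lit 227) (nat_lit 228) = true := by decide +kernel
def p14_20_0_228 : pfC (piC [(nat_lit 35404596), (nat_lit 22827826), (nat_lit 14696761)] (nat_lit 17719570)) p14_20_0 (nat_lit 3) (nat_lit 228) (nat_lit 229) = true := by decide +kernel
def p14_20_0_229 : pfC (piC [(nat_lit 35404596), (nat_lit 22827826), (nat_lit 14696761)] (nat_lit 17719570)) p14_20_0 (nat_lit 3) (nat_lit 229) (nat_lit 230) = true := by decide +kernel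
def p14_20_0_230 : pfC (piC [(nat_lit 35404596), (nat_lit 22827826), (nat_lit 14696761)] (nat_lit 17719570)) p14_20_0 (nat_lit 3) (nat_lit 230) (nat_lit 231) = true := by decide +kernel
def p14_20_0_231 : pfC (piC [(nat_lit 35404596), (nat_lit 22827826), (nat_lit 14696761)] (nat_lit 17719570)) p14_20_0 (nat_lit 3) (nat_lit 231) (nat_lit 232) = true := by decide +kernel
def p14_20_0_232 : pfC (piC [(nat_lit 35404596), (nat_lit 22827826), (nat_lit 14696761)] (nat_lit 17719570)) p14_20_0 (nat_lit 3) (nat_lit 232) (nat_lit 233) = true := by decide +kernel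
def p14_20_0_233 : pfC (piC [(nat_lit 35404596), (nat_lit 22827826), (nat_lit 14696761)] (nat_lit 17719570)) p14_20_0 (nat_lit 3) (nat_lit 233) (nat_lit 234) = true := by decide +kernel
def p14_20_0_234 : pfC (piC [(nat_lit 35404596), (nat_lit 22827826), (nat_lit 14696761)] (nat_lit 17719570)) p14_20_0 (nat_lit 3) (nat_lit 234) (nat_lit 235) = true := by decide +kernel
def p14_20_0_235 : pfC (piC [(nat_lit 35404596), (nat_lit 22827826), (nat_lit 14696761)] (nat_lit 17719570)) p14_20_0 (nat_lit 3) (nat_lit 235) (nat_lit 236) = true := by decide +kernel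
def p14_20_0_236 : pfC (piC [(nat_lit 35404596), (nat_lit 22827826), (nat_lit 14696761)] (nat_lit 17719570)) p14_20_0 (nat_lit 3) (nat_lit 236) (nat_lit 237) = true := by decide +kernel
def p14_20_0_237 : pfC (piC [(nat_lit 35404596), (nat_lit 22827826), (nat_lit 14696761)] (nat_lit 17719570)) p14_20_0 (nat_lit 3) (nat_lit 237) (nat_lit 238) = true := by decide +kernel
def p14_20_0_238 : pfC (piC [(nat_lit 35404596), (nat_lit 22827826), (nat_lit 14696761)] (nat_lit 17719570)) p14_20_0 (nat_lit 3) (nat_lit 238) (nat_lit 239) = true := by decide +kernel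
def p14_20_0_239 : pfC (piC [(nat_lit 35404596), (nat_lit 22827826), (nat_lit 14696761)] (nat_lit 17719570)) p14_20_0 (nat_lit 3) (nat_lit 239) (nat_lit 240) = true := by decide +kernel
def p14_20_0_240 : pfC (piC [(nat_lit 35404596), (nat_lit 22827826), (nat_lit 14696761)] (nat_lit 17719570)) p14_20_0 (nat_lit 3) (nat_lit 240) (nat_lit 241) = true := by decide +kernel
def p14_20_0_241 : pfC (piC [(nat_lit 35404596), (nat_lit 22827826), (nat_lit 14696761)] (nat_lit 17719570)) p14_20_0 (nat_lit 3) (nat_lit 241) (nat_lit 242) = true := by decide +kernel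
def p14_20_0_242 : pfC (piC [(nat_lit 35404596), (nat_lit 22827826), (nat_lit 14696761)] (nat_lit 17719570)) p14_20_0 (nat_lit 3) (nat_lit 242) (nat_lit 243) = true := by decide +kernel
def p14_20_0_243 : pfC (piC [(nat_lit 35404596), (nat_lit 22827826), (nat_lit 14696761)] (nat_lit 17719570)) p14_20_0 (nat_lit 3) (nat_lit 243) (nat_lit 244) = true := by decide +kernel
def p14_20_0_244 : pfC (piC [(nat_lit 35404596), (nat_lit 22827826), (nat_lit 14696761)] (nat_lit 17719570)) p14_20_0 (nat_lit 3) (nat_lit 244) (nat_lit 245) = true := by decide +kernel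
def p14_20_0_245 : pfC (piC [(nat_lit 35404596), (nat_lit 22827826), (nat_lit 14696761)] (nat_lit 17719570)) p14_20_0 (nat_lit 3) (nat_lit 245) (nat_lit 246) = true := by decide +kernel
def p14_20_0_246 : pfC (piC [(nat_lit 35404596), (nat_lit 22827826), (nat_lit 14696761)] (nat_lit 17719570)) p14_20_0 (nat_lit 3) (nat_lit 246) (nat_lit 247) = true := by decide +kernel
def p14_20_0_247 : pfC (piC [(nat_lit 35404596), (nat_lit 22827826), (nat_lit 14696761)] (nat_lit 17719570)) p14_20_0 (nat_lit 3) (nat_lit 247) (nat_lit 248) = true := by decide +kernel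
def p14_20_0_248 : pfC (piC [(nat_lit 35404596), (nat_lit 22827826), (nat_lit 14696761)] (nat_lit 17719570)) p14_20_0 (nat_lit 3) (nat_lit 248) (nat_lit 249) = true := by decide +kernel
def p14_20_0_249 : pfC (piC [(nat_lit 35404596), (nat_lit 22827826), (nat_lit 14696761)] (nat_lit 17719570)) p14_20_0 (nat_lit 3) (nat_lit 249) (nat_lit 250) = true := by decide +kernel
def p14_20_0_250 : pfC (piC [(nat_lit 35404596), (nat_lit 22827826), (nat_lit 14696761)] (nat_lit 17719570)) p14_20_0 (nat_lit 3) (nat_lit 250) (nat_lit 251) = true := by decide +kernel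
def p14_20_0_251 : pfC (piC [(nat_lit 35404596), (nat_lit 22827826), (nat_lit 14696761)] (nat_lit 17719570)) p14_20_0 (nat_lit 3) (nat_lit 251) (nat_lit 252) = true := by decide +kernel
def p14_20_0_252 : pfC (piC [(nat_lit 35404596), (nat_lit 22827826), (nat_lit 14696761)] (nat_lit 17719570)) p14_20_0 (nat_lit 3) (nat_lit 252) (nat_lit 253) = true := by decide +kernel
def p14_20_0_253 : pfC (piC [(nat_lit 35404596), (nat_lit 22827826), (nat_lit 14696761)] (nat_lit 17719570)) p14_20_0 (nat_lit 3) (nat_lit 253) (nat_lit 254) = true := by decide +kernel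
def p14_20_0_254 : pfC (piC [(nat_lit 35404596), (nat_lit 22827826), (nat_lit 14696761)] (nat_lit 17719570)) p14_20_0 (nat_lit 3) (nat_lit 254) (nat_lit 255) = true := by decide +kernel
def p14_20_0_255 : pfC (piC [(nat_lit 35404596), (nat_lit 22827826), (nat_lit 14696761)] (nat_lit 17719570)) p14_20_0 (nat_lit 3) (nat_lit 255) (nat_lit 256) = true := by decide +kernel
def p14_20_0_256 : pfC (piC [(nat_lit 35404596), (nat_lit 22827826), (nat_lit 14696761)] (nat_lit 17719570)) p14_20_0 (nat_lit 3) (nat_lit 256) (nat_lit 257) = true := by decide +kernel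
def p14_20_0_257 : pfC (piC [(nat_lit 35404596), (nat_lit 22827826), (nat_lit 14696761)] (nat_lit 17719570)) p14_20_0 (nat_lit 3) (nat_lit 257) (nat_lit 258) = true := by decide +kernel
def p14_20_0_258 : pfC (piC [(nat_lit 35404596), (nat_lit 22827826), (nat_lit 14696761)] (nat_lit 17719570)) p14_20_0 (nat_lit 3) (nat_lit 258) (nat_lit 259) = true := by decide +kernel
def p14_20_0_259 : pfC (piC [(nat_lit 35404596), (nat_lit 22827826), (nat_lit 14696761)] (nat_lit 17719570)) p14_20_0 (nat_lit 3) (nat_lit 259) (nat_lit 260) = true := by decide +kernel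
def p14_20_0_260 : pfC (piC [(nat_lit 35404596), (nat_lit 22827826), (nat_lit 14696761)] (nat_lit 17719570)) p14_20_0 (nat_lit 3) (nat_lit 260) (nat_lit 261) = true := by decide +kernel
def p14_20_0_261 : pfC (piC [(nat_lit 35404596), (nat_lit 22827826), (nat_lit 14696761)] (nat_lit 17719570)) p14_20_0 (nat_lit 3) (nat_lit 261) (nat_lit 262) = true := by decide +kernel
def p14_20_0_262 : pfC (piC [(nat_lit 35404596), (nat_lit 22827826), (nat_lit 14696761)] (nat_lit 17719570)) p14_20_0 (nat_lit 3) (nat_lit 262) (nat_lit 263) = true := by decide +kernel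
def p14_20_0_263 : pfC (piC [(nat_lit 35404596), (nat_lit 22827826), (nat_lit 14696761)] (nat_lit 17719570)) p14_20_0 (nat_lit 3) (nat_lit 263) (nat_lit 264) = true := by decide +kernel
def p14_20_0_264 : pfC (piC [(nat_lit 35404596), (nat_lit 22827826), (nat_lit 14696761)] (nat_lit 17719570)) p14_20_0 (nat_lit 3) (nat_lit 264) (nat_lit 265) = true := by decide +kernel
def p14_20_0_265 : pfC (piC [(nat_lit 35404596), (nat_lit 22827826), (nat_lit 14696761)] (nat_lit 17719570)) p14_20_0 (nat_lit 3) (nat_lit 265) (nat_lit 266) = true := by decide +kernel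
def p14_20_0_266 : pfC (piC [(nat_lit 35404596), (nat_lit 22827826), (nat_lit 14696761)] (nat_lit 17719570)) p14_20_0 (nat_lit 3) (nat_lit 266) (nat_lit 267) = true := by decide +kernel
def p14_20_0_267 : pfC (piC [(nat_lit 35404596), (nat_lit 22827826), (nat_lit 14696761)] (nat_lit 17719570)) p14_20_0 (nat_lit 3) (nat_lit 267) (nat_lit 268) = true := by decide +kernel
def p14_20_0_268 : pfC (piC [(nat_lit 35404596), (nat_lit 22827826), (nat_lit 14696761)] (nat_lit 17719570)) p14_20_0 (nat_lit 3) (nat_lit 268) (nat_lit 269) = true := by decide +kernel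
def p14_20_0_269 : pfC (piC [(nat_lit 35404596), (nat_lit 22827826), (nat_lit 14696761)] (nat_lit 17719570)) p14_20_0 (nat_lit 3) (nat_lit 269) (nat_lit 270) = true := by decide +kernel
def p14_20_0_270 : pfC (piC [(nat_lit 35404596), (nat_lit 22827826), (nat_lit 14696761)] (nat_lit 17719570)) p14_20_0 (nat_lit 3) (nat_lit 270) (nat_lit 271) = true := by decide +kernel
def p14_20_0_271 : pfC (piC [(nat_lit 35404596), (nat_lit 22827826), (nat_lit 14696761)] (nat_lit 17719570)) p14_20_0 (nat_lit 3) (nat_lit 271) (nat_lit 272) = true := by decide +kernel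
def p14_20_0_272 : pfC (piC [(nat_lit 35404596), (nat_lit 22827826), (nat_lit 14696761)] (nat_lit 17719570)) p14_20_0 (nat_lit 3) (nat_lit 272) (nat_lit 273) = true := by decide +kernel
def p14_20_0_273 : pfC (piC [(nat_lit 35404596), (nat_lit 22827826), (nat_lit 14696761)] (nat_lit 17719570)) p14_20_0 (nat_lit 3) (nat_lit 273) (nat_lit 274) = true := by decide +kernel
def p14_20_0_274 : pfC (piC [(nat_lit 35404596), (nat_lit 22827826), (nat_lit 14696761)] (nat_lit 17719570)) p14_20_0 (nat_lit 3) (nat_lit 274) (nat_lit 275) = true := by decide +kernel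
def p14_20_0_275 : pfC (piC [(nat_lit 35404596), (nat_lit 22827826), (nat_lit 14696761)] (nat_lit 17719570)) p14_20_0 (nat_lit 3) (nat_lit 275) (nat_lit 276) = true := by decide +kernel
def p14_20_0_276 : pfC (piC [(nat_lit 35404596), (nat_lit 22827826), (nat_lit 14696761)] (nat_lit 17719570)) p14_20_0 (nat_lit 3) (nat_lit 276) (nat_lit 277) = true := by decide +kernel
def p14_20_0_277 : pfC (piC [(nat_lit 35404596), (nat_lit 22827826), (nat_lit 14696761)] (nat_lit 17719570)) p14_20_0 (nat_lit 3) (nat_lit 277) (nat_lit 278) = true := by decide +kernel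
def p14_20_0_278 : pfC (piC [(nat_lit 35404596), (nat_lit 22827826), (nat_lit 14696761)] (nat_lit 17719570)) p14_20_0 (nat_lit 3) (nat_lit 278) (nat_lit 279) = true := by decide +kernel
def p14_20_0_279 : pfC (piC [(nat_lit 35404596), (nat_lit 22827826), (nat_lit 14696761)] (nat_lit 17719570)) p14_20_0 (nat_lit 3) (nat_lit 279) (nat_lit 280) = true := by decide +kernel
def p14_20_0_280 : pfC (piC [(nat_lit 35404596), (nat_lit 22827826), (nat_lit 14696761)] (nat_lit 17719570)) p14_20_0 (nat_lit 3) (nat_lit 280) (nat_lit 281) = true := by decide +kernel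
def p14_20_0_281 : pfC (piC [(nat_lit 35404596), (nat_lit 22827826), (nat_lit 14696761)] (nat_lit 17719570)) p14_20_0 (nat_lit 3) (nat_lit 281) (nat_lit 282) = true := by decide +kernel
def p14_20_0_282 : pfC (piC [(nat_lit 35404596), (nat_lit 22827826), (nat_lit 14696761)] (nat_lit 17719570)) p14_20_0 (nat_lit 3) (nat_lit 282) (nat_lit 283) = true := by decide +kernel
def p14_20_0_283 : pfC (piC [(nat_lit 35404596), (nat_lit 22827826), (nat_lit 14696761)] (nat_lit 17719570)) p14_20_0 (nat_lit 3) (nat_lit 283) (nat_lit 284) = true := by decide +kernel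
def p14_20_0_284 : pfC (piC [(nat_lit 35404596), (nat_lit 22827826), (nat_lit 14696761)] (nat_lit 17719570)) p14_20_0 (nat_lit 3) (nat_lit 284) (nat_lit 285) = true := by decide +kernel
def p14_20_0_285 : pfC (piC [(nat_lit 35404596), (nat_lit 22827826), (nat_lit 14696761)] (nat_lit 17719570)) p14_20_0 (nat_lit 3) (nat_lit 285) (nat_lit 286) = true := by decide +kernel
def p14_20_0_286 : pfC (piC [(nat_lit 35404596), (nat_lit 22827826), (nat_lit 14696761)] (nat_lit 17719570)) p14_20_0 (nat_lit 3) (nat_lit 286) (nat_lit 287) = true := by decide +kernel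
def p14_20_0_287 : pfC (piC [(nat_lit 35404596), (nat_lit 22827826), (nat_lit 14696761)] (nat_lit 17719570)) p14_20_0 (nat_lit 3) (nat_lit 287) (nat_lit 288) = true := by decide +kernel
def p14_20_0_288 : pfC (piC [(nat_lit 35404596), (nat_lit 22827826), (nat_lit 14696761)] (nat_lit 17719570)) p14_20_0 (nat_lit 3) (nat_lit 288) (nat_lit 289) = true := by decide +kernel
def p14_20_0_289 : pfC (piC [(nat_lit 35404596), (nat_lit 22827826), (nat_lit 14696761)] (nat_lit 17719570)) p14_20_0 (nat_lit 3) (nat_lit 289) (nat_lit 290) = true := by decide +kernel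
def p14_20_0_290 : pfC (piC [(nat_lit 35404596), (nat_lit 22827826), (nat_lit 14696761)] (nat_lit 17719570)) p14_20_0 (nat_lit 3) (nat_lit 290) (nat_lit 291) = true := by decide +kernel
def p14_20_0_291 : pfC (piC [(nat_lit 35404596), (nat_lit 22827826), (nat_lit 14696761)] (nat_lit 17719570)) p14_20_0 (nat_lit 3) (nat_lit 291) (nat_lit 292) = true := by decide +kernel
def p14_20_0_292 : pfC (piC [(nat_lit 35404596), (nat_lit 22827826), (nat_lit 14696761)] (nat_lit 17719570)) p14_20_0 (nat_lit 3) (nat_lit 292) (nat_lit 293) = true := by decide +kernel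
def p14_20_0_293 : pfC (piC [(nat_lit 35404596), (nat_lit 22827826), (nat_lit 14696761)] (nat_lit 17719570)) p14_20_0 (nat_lit 3) (nat_lit 293) (nat_lit 294) = true := by decide +kernel
def p14_20_0_294 : pfC (piC [(nat_lit 35404596), (nat_lit 22827826), (nat_lit 14696761)] (nat_lit 17719570)) p14_20_0 (nat_lit 3) (nat_lit 294) (nat_lit 295) = true := by decide +kernel
def p14_20_0_295 : pfC (piC [(nat_lit 35404596), (nat_lit 22827826), (nat_lit 14696761)] (nat_lit 17719570)) p14_20_0 (nat_lit 3) (nat_lit 295) (nat_lit 296) = true := by decide +kernel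
def p14_20_0_296 : pfC (piC [(nat_lit 35404596), (nat_lit 22827826), (nat_lit 14696761)] (nat_lit 17719570)) p14_20_0 (nat_lit 3) (nat_lit 296) (nat_lit 297) = true := by decide +kernel
def p14_20_0_297 : pfC (piC [(nat_lit 35404596), (nat_lit 22827826), (nat_lit 14696761)] (nat_lit 17719570)) p14_20_0 (nat_lit 3) (nat_lit 297) (nat_lit 298) = true := by decide +kernel
def p14_20_0_298 : pfC (piC [(nat_lit 35404596), (nat_lit 22827826), (nat_lit 14696761)] (nat_lit 17719570)) p14_20_0 (nat_lit 3) (nat_lit 298) (nat_lit 299) = true := by decide +kernel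
def p14_20_0_299 : pfC (piC [(nat_lit 35404596), (nat_lit 22827826), (nat_lit 14696761)] (nat_lit 17719570)) p14_20_0 (nat_lit 3) (nat_lit 299) (nat_lit 300) = true := by decide +kernel
def p14_20_0_300 : pfC (piC [(nat_lit 35404596), (nat_lit 22827826), (nat_lit 14696761)] (nat_lit 17719570)) p14_20_0 (nat_lit 3) (nat_lit 300) (nat_lit 301) = true := by decide +kernel
def p14_20_0_301 : pfC (piC [(nat_lit 35404596), (nat_lit 22827826), (nat_lit 14696761)] (nat_lit 17719570)) p14_20_0 (nat_lit 3) (nat_lit 301) (nat_lit 302) = true := by decide +kernel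
def p14_20_0_302 : pfC (piC [(nat_lit 35404596), (nat_lit 22827826), (nat_lit 14696761)] (nat_lit 17719570)) p14_20_0 (nat_lit 3) (nat_lit 302) (nat_lit 303) = true := by decide +kernel
def p14_20_0_303 : pfC (piC [(nat_lit 35404596), (nat_lit 22827826), (nat_lit 14696761)] (nat_lit 17719570)) p14_20_0 (nat_lit 3) (nat_lit 303) (nat_lit 304) = true := by decide +kernel
def p14_20_0_304 : pfC (piC [(nat_lit 35404596), (nat_lit 22827826), (nat_lit 14696761)] (nat_lit 17719570)) p14_20_0 (nat_lit 3) (nat_lit 304) (nat_lit 305) = true := by decide +kernel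
def p14_20_0_305 : pfC (piC [(nat_lit 35404596), (nat_lit 22827826), (nat_lit 14696761)] (nat_lit 17719570)) p14_20_0 (nat_lit 3) (nat_lit 305) (nat_lit 306) = true := by decide +kernel
def p14_20_0_306 : pfC (piC [(nat_lit 35404596), (nat_lit 22827826), (nat_lit 14696761)] (nat_lit 17719570)) p14_20_0 (nat_lit 3) (nat_lit 306) (nat_lit 307) = true := by decide +kernel
def p14_20_0_307 : pfC (piC [(nat_lit 35404596), (nat_lit 22827826), (nat_lit 14696761)] (nat_lit 17719570)) p14_20_0 (nat_lit 3) (nat_lit 307) (nat_lit 308) = true := by decide +kernel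
def p14_20_0_308 : pfC (piC [(nat_lit 35404596), (nat_lit 22827826), (nat_lit 14696761)] (nat_lit 17719570)) p14_20_0 (nat_lit 3) (nat_lit 308) (nat_lit 309) = true := by decide +kernel
def p14_20_0_309 : pfC (piC [(nat_lit 35404596), (nat_lit 22827826), (nat_lit 14696761)] (nat_lit 17719570)) p14_20_0 (nat_lit 3) (nat_lit 309) (nat_lit 310) = true := by decide +kernel
def p14_20_0_310 : pfC (piC [(nat_lit 35404596), (nat_lit 22827826), (nat_lit 14696761)] (nat_lit 17719570)) p14_20_0 (nat_lit 3) (nat_lit 310) (nat_lit 311) = true := by decide +kernel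
theorem p14_20_0_T : PfS (PiF n14_20.reverse (nat_lit 17719570)) p14_20_0 (nat_lit 3) [] 0 :=
  pftab_of (los := [(nat_lit 35404596), (nat_lit 22827826), (nat_lit 14696761)]) (by decide +kernel) (hi := (nat_lit 311)) (PfP.trans (PfP.trans (PfP.trans (PfP.trans (PfP.trans (PfP.trans (PfP.trans (PfP.trans (PfP.trans (PfP.trans (PfP.trans (PfP.trans (PfP.trans (PfP.trans (PfP.trans (PfP.trans (PfP.trans (PfP.trans (PfP.trans (PfP.trans (PfP.trans (PfP.trans (PfP.trans (PfP.trans (PfP.trans (PfP.trans (PfP.trans (PfP.trans (PfP.trans (PfP.trans (PfP.trans (PfP.trans (PfP.trans (PfP.trans (PfP.trans (PfP.trans (PfP.trans (PfP.trans (PfP.trans (PfP.trans (PfP.trans (PfP.trans (PfP.trans (PfP.trans (PfP.trans (PfP.trans (PfP.trans (PfP.trans (PfP.trans (PfP.trans (PfP.trans (PfP.trans (PfP.trans (PfP.trans (PfP.trans (PfP.trans (PfP.trans (PfP.trans (PfP.trans (PfP.trans (PfP.trans (PfP.trans (PfP.trans (PfP.trans (PfP.trans (PfP.trans (PfP.trans (PfP.trans (PfP.trans (PfP.trans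 (PfP.trans (PfP.trans (PfP.trans (PfP.trans (PfP.trans (PfP.trans (PfP.trans (PfP.trans (PfP.trans (PfP.trans (PfP.trans (PfP.trans (PfP.trans (PfP.trans (PfP.trans (PfP.trans (PfP.trans (PfP.trans (PfP.trans (PfP.trans (PfP.trans (PfP.trans (PfP.trans (PfP.trans (PfP.trans (PfP.trans (PfP.trans (PfP.trans (PfP.trans (PfP.trans (PfP.trans (PfP.trans (PfP.trans (PfP.trans (PfP.trans (PfP.trans (PfP.trans (PfP.trans (PfP.trans
 (PfP.trans (PfP.trans (PfP.trans (PfP.trans (PfP.trans (PfP.trans (PfP.trans (PfP.trans (PfP.trans (PfP.trans (PfP.trans (PfP.trans (PfP.trans (PfP.trans (PfP.trans (PfP.trans (PfP.trans (PfP.trans (PfP.trans (PfP.trans (PfP.trans (PfP.trans (PfP.trans (PfP.trans (PfP.trans (PfP.trans (PfP.trans (PfP.trans (PfP.trans (PfP.trans (PfP.trans (PfP.trans (PfP.trans (PfP.trans (PfP.trans (PfP.trans (PfP.trans (PfP.trans (PfP.trans (PfP.trans (PfP.trans (PfP.trans (PfP.trans (PfP.trans (PfP.trans (PfP.trans (PfP.trans (PfP.trans (PfP.trans (PfP.trans (PfP.trans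 (PfP.trans (PfP.trans (PfP.trans (PfP.trans (PfP.trans (PfP.trans (PfP.trans (PfP.trans (PfP.trans (PfP.trans (PfP.trans (PfP.trans (PfP.trans (PfP.trans (PfP.trans (PfP.trans (PfP.trans (PfP.trans (PfP.trans (PfP.trans (PfP.trans (PfP.trans (PfP.trans (PfP.trans (PfP.trans (PfP.trans (PfP.trans (PfP.trans (PfP.trans (PfP.trans (PfP.trans (PfP.trans (PfP.trans (PfP.trans (PfP.trans (PfP.trans (PfP.trans (PfP.trans (PfP.trans (PfP.trans (PfP.trans (PfP.trans (PfP.trans (PfP.trans (PfP.trans (PfP.trans (PfP.trans (PfP.trans (PfP.trans (PfP.trans (PfP.trans (PfP.trans (PfP.trans (PfP.trans (PfP.trans (PfP.trans (PfP.trans (PfP.trans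
 (PfP.trans (PfP.trans (PfP.trans (PfP.trans (PfP.trans (PfP.trans (PfP.trans (PfP.trans (PfP.trans (PfP.trans (PfP.trans (PfP.trans (PfP.trans (PfP.trans (PfP.trans (PfP.trans (PfP.trans (PfP.trans (PfP.trans (PfP.trans (PfP.trans (PfP.trans (PfP.trans (PfP.trans (PfP.trans (PfP.trans (PfP.trans (PfP.trans (PfP.trans (PfP.trans (PfP.trans (PfP.trans (PfP.trans (PfP.trans (PfP.trans (PfP.trans (PfP.trans (PfP.trans (PfP.trans (PfP.trans (PfP.trans (PfP.trans (PfP.trans (PfP.trans (PfP.trans (PfP.trans (PfP.trans (PfP.trans (PfP.trans (PfP.trans (PfP.trans (PfP.trans (PfP.trans (PfP.trans (PfP.trans (PfP.trans (PfP.trans (PfP.trans (PfP.trans (PfP.trans (PfP.trans (PfP.trans (PfP.trans (PfP.trans (PfP.trans (PfP.trans (PfP.trans (PfP.trans (PfP.trans (PfP.trans (PfP.trans (PfP.trans (PfP.trans (PfP.trans (PfP.trans (PfP.trans (PfP.trans (PfP.trans (PfP.trans (PfP.trans (PfP.trans (PfP.trans (PfP.trans (PfP.trans (PfP.trans (PfP.trans (PfP.trans (PfP.trans (PfP.trans (PfP.trans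 (PfP.trans (PfP.trans (pfC_sound p14_20_0_0) (pfC_sound p14_20_0_1)) (pfC_sound p14_20_0_2)) (pfC_sound p14_20_0_3)) (pfC_sound p14_20_0_4)) (pfC_sound p14_20_0_5)) (pfC_sound p14_20_0_6)) (pfC_sound
 p14_20_0_7)) (pfC_sound p14_20_0_8)) (pfC_sound p14_20_0_9)) (pfC_sound p14_20_0_10)) (pfC_sound p14_20_0_11)) (pfC_sound p14_20_0_12)) (pfC_sound p14_20_0_13)) (pfC_sound p14_20_0_14)) (pfC_sound p14_20_0_15)) (pfC_sound p14_20_0_16)) (pfC_sound p14_20_0_17)) (pfC_sound p14_20_0_18)) (pfC_sound p14_20_0_19)) (pfC_sound p14_20_0_20)) (pfC_sound p14_20_0_21)) (pfC_sound p14_20_0_22)) (pfC_sound p14_20_0_23)) (pfC_sound p14_20_0_24)) (pfC_sound p14_20_0_25)) (pfC_sound p14_20_0_26)) (pfC_sound p14_20_0_27)) (pfC_sound p14_20_0_28)) (pfC_sound p14_20_0_29)) (pfC_sound p14_20_0_30)) (pfC_sound p14_20_0_31)) (pfC_sound p14_20_0_32)) (pfC_sound p14_20_0_33)) (pfC_sound p14_20_0_34)) (pfC_sound p14_20_0_35)) (pfC_sound p14_20_0_36)) (pfC_sound p14_20_0_37)) (pfC_sound p14_20_0_38))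 (pfC_sound p14_20_0_39)) (pfC_sound p14_20_0_40)) (pfC_sound p14_20_0_41)) (pfC_sound p14_20_0_42)) (pfC_sound p14_20_0_43)) (pfC_sound p14_20_0_44)) (pfC_sound p14_20_0_45)) (pfC_sound p14_20_0_46)) (pfC_sound p14_20_0_47)) (pfC_sound p14_20_0_48)) (pfC_sound p14_20_0_49)) (pfC_sound p14_20_0_50)) (pfC_sound p14_20_0_51)) (pfC_sound p14_20_0_52)) (pfC_sound p14_20_0_53)) (pfC_sound p14_20_0_54)) (pfC_sound
 p14_20_0_55)) (pfC_sound p14_20_0_56)) (pfC_sound p14_20_0_57)) (pfC_sound p14_20_0_58)) (pfC_sound p14_20_0_59)) (pfC_sound p14_20_0_60)) (pfC_sound p14_20_0_61)) (pfC_sound p14_20_0_62)) (pfC_sound p14_20_0_63)) (pfC_sound p14_20_0_64)) (pfC_sound p14_20_0_65)) (pfC_sound p14_20_0_66)) (pfC_sound p14_20_0_67)) (pfC_sound p14_20_0_68)) (pfC_sound p14_20_0_69)) (pfC_sound p14_20_0_70)) (pfC_sound p14_20_0_71)) (pfC_sound p14_20_0_72)) (pfC_sound p14_20_0_73)) (pfC_sound p14_20_0_74)) (pfC_sound p14_20_0_75)) (pfC_sound p14_20_0_76)) (pfC_sound p14_20_0_77)) (pfC_sound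 p14_20_0_78)) (pfC_sound p14_20_0_79)) (pfC_sound p14_20_0_80)) (pfC_sound p14_20_0_81)) (pfC_sound p14_20_0_82)) (pfC_sound p14_20_0_83)) (pfC_sound p14_20_0_84)) (pfC_sound p14_20_0_85)) (pfC_sound p14_20_0_86)) (pfC_sound p14_20_0_87)) (pfC_sound p14_20_0_88)) (pfC_sound p14_20_0_89)) (pfC_sound p14_20_0_90)) (pfC_sound p14_20_0_91)) (pfC_sound p14_20_0_92)) (pfC_sound p14_20_0_93)) (pfC_sound p14_20_0_94)) (pfC_sound p14_20_0_95)) (pfC_sound p14_20_0_96)) (pfC_sound p14_20_0_97)) (pfC_sound p14_20_0_98)) (pfC_sound p14_20_0_99)) (pfC_sound p14_20_0_100)) (pfC_sound p14_20_0_101)) (pfC_sound p14_20_0_102))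
 (pfC_sound p14_20_0_103)) (pfC_sound p14_20_0_104)) (pfC_sound p14_20_0_105)) (pfC_sound p14_20_0_106)) (pfC_sound p14_20_0_107)) (pfC_sound p14_20_0_108)) (pfC_sound p14_20_0_109)) (pfC_sound p14_20_0_110)) (pfC_sound p14_20_0_111)) (pfC_sound p14_20_0_112)) (pfC_sound p14_20_0_113)) (pfC_sound p14_20_0_114)) (pfC_sound p14_20_0_115)) (pfC_sound p14_20_0_116)) (pfC_sound p14_20_0_117)) (pfC_sound p14_20_0_118)) (pfC_sound p14_20_0_119)) (pfC_sound p14_20_0_120)) (pfC_sound p14_20_0_121)) (pfC_sound p14_20_0_122)) (pfC_sound p14_20_0_123)) (pfC_sound p14_20_0_124)) (pfC_sound p14_20_0_125)) (pfC_sound p14_20_0_126)) (pfC_sound p14_20_0_127)) (pfC_sound p14_20_0_128)) (pfC_sound p14_20_0_129)) (pfC_sound p14_20_0_130)) (pfC_sound p14_20_0_131)) (pfC_sound p14_20_0_132)) (pfC_sound p14_20_0_133)) (pfC_sound p14_20_0_134)) (pfC_sound p14_20_0_135)) (pfC_sound p14_20_0_136)) (pfC_sound p14_20_0_137)) (pfC_sound p14_20_0_138)) (pfC_sound p14_20_0_139)) (pfC_sound p14_20_0_140))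 (pfC_sound p14_20_0_141)) (pfC_sound p14_20_0_142)) (pfC_sound p14_20_0_143)) (pfC_sound p14_20_0_144)) (pfC_sound p14_20_0_145)) (pfC_sound p14_20_0_146)) (pfC_sound p14_20_0_147)) (pfC_sound p14_20_0_148))
 (pfC_sound p14_20_0_149)) (pfC_sound p14_20_0_150)) (pfC_sound p14_20_0_151)) (pfC_sound p14_20_0_152)) (pfC_sound p14_20_0_153)) (pfC_sound p14_20_0_154)) (pfC_sound p14_20_0_155)) (pfC_sound p14_20_0_156)) (pfC_sound p14_20_0_157)) (pfC_sound p14_20_0_158)) (pfC_sound p14_20_0_159)) (pfC_sound p14_20_0_160)) (pfC_sound p14_20_0_161)) (pfC_sound p14_20_0_162)) (pfC_sound p14_20_0_163)) (pfC_sound p14_20_0_164)) (pfC_sound p14_20_0_165)) (pfC_sound p14_20_0_166)) (pfC_sound p14_20_0_167)) (pfC_sound p14_20_0_168)) (pfC_sound p14_20_0_169)) (pfC_sound p14_20_0_170)) (pfC_sound p14_20_0_171)) (pfC_sound p14_20_0_172)) (pfC_sound p14_20_0_173)) (pfC_sound p14_20_0_174)) (pfC_sound p14_20_0_175)) (pfC_sound p14_20_0_176)) (pfC_sound p14_20_0_177)) (pfC_sound p14_20_0_178))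 (pfC_sound p14_20_0_179)) (pfC_sound p14_20_0_180)) (pfC_sound p14_20_0_181)) (pfC_sound p14_20_0_182)) (pfC_sound p14_20_0_183)) (pfC_sound p14_20_0_184)) (pfC_sound p14_20_0_185)) (pfC_sound p14_20_0_186)) (pfC_sound p14_20_0_187)) (pfC_sound p14_20_0_188)) (pfC_sound p14_20_0_189)) (pfC_sound p14_20_0_190)) (pfC_sound p14_20_0_191)) (pfC_sound p14_20_0_192)) (pfC_sound p14_20_0_193)) (pfC_sound p14_20_0_194))
 (pfC_sound p14_20_0_195)) (pfC_sound p14_20_0_196)) (pfC_sound p14_20_0_197)) (pfC_sound p14_20_0_198)) (pfC_sound p14_20_0_199)) (pfC_sound p14_20_0_200)) (pfC_sound p14_20_0_201)) (pfC_sound p14_20_0_202)) (pfC_sound p14_20_0_203)) (pfC_sound p14_20_0_204)) (pfC_sound p14_20_0_205)) (pfC_sound p14_20_0_206)) (pfC_sound p14_20_0_207)) (pfC_sound p14_20_0_208)) (pfC_sound p14_20_0_209)) (pfC_sound p14_20_0_210)) (pfC_sound p14_20_0_211)) (pfC_sound p14_20_0_212)) (pfC_sound p14_20_0_213)) (pfC_sound p14_20_0_214)) (pfC_sound p14_20_0_215)) (pfC_sound p14_20_0_216))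 (pfC_sound p14_20_0_217)) (pfC_sound p14_20_0_218)) (pfC_sound p14_20_0_219)) (pfC_sound p14_20_0_220)) (pfC_sound p14_20_0_221)) (pfC_sound p14_20_0_222)) (pfC_sound p14_20_0_223)) (pfC_sound p14_20_0_224)) (pfC_sound p14_20_0_225)) (pfC_sound p14_20_0_226)) (pfC_sound p14_20_0_227)) (pfC_sound p14_20_0_228)) (pfC_sound p14_20_0_229)) (pfC_sound p14_20_0_230)) (pfC_sound p14_20_0_231)) (pfC_sound p14_20_0_232)) (pfC_sound p14_20_0_233)) (pfC_sound p14_20_0_234)) (pfC_sound p14_20_0_235)) (pfC_sound p14_20_0_236)) (pfC_sound p14_20_0_237)) (pfC_sound p14_20_0_238)) (pfC_sound p14_20_0_239)) (pfC_sound p14_20_0_240))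
 (pfC_sound p14_20_0_241)) (pfC_sound p14_20_0_242)) (pfC_sound p14_20_0_243)) (pfC_sound p14_20_0_244)) (pfC_sound p14_20_0_245)) (pfC_sound p14_20_0_246)) (pfC_sound p14_20_0_247)) (pfC_sound p14_20_0_248)) (pfC_sound p14_20_0_249)) (pfC_sound p14_20_0_250)) (pfC_sound p14_20_0_251)) (pfC_sound p14_20_0_252)) (pfC_sound p14_20_0_253)) (pfC_sound p14_20_0_254)) (pfC_sound p14_20_0_255)) (pfC_sound p14_20_0_256)) (pfC_sound p14_20_0_257)) (pfC_sound p14_20_0_258)) (pfC_sound p14_20_0_259)) (pfC_sound p14_20_0_260)) (pfC_sound p14_20_0_261)) (pfC_sound p14_20_0_262)) (pfC_sound p14_20_0_263)) (pfC_sound p14_20_0_264)) (pfC_sound p14_20_0_265)) (pfC_sound p14_20_0_266)) (pfC_sound p14_20_0_267)) (pfC_sound p14_20_0_268)) (pfC_sound p14_20_0_269)) (pfC_sound p14_20_0_270)) (pfC_sound p14_20_0_271)) (pfC_sound p14_20_0_272)) (pfC_sound p14_20_0_273)) (pfC_sound p14_20_0_274)) (pfC_sound p14_20_0_275)) (pfC_sound p14_20_0_276)) (pfC_sound p14_20_0_277)) (pfC_sound p14_20_0_278))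 (pfC_sound p14_20_0_279)) (pfC_sound p14_20_0_280)) (pfC_sound p14_20_0_281)) (pfC_sound p14_20_0_282)) (pfC_sound p14_20_0_283)) (pfC_sound p14_20_0_284)) (pfC_sound p14_20_0_285)) (pfC_sound p14_20_0_286))
 (pfC_sound p14_20_0_287)) (pfC_sound p14_20_0_288)) (pfC_sound p14_20_0_289)) (pfC_sound p14_20_0_290)) (pfC_sound p14_20_0_291)) (pfC_sound p14_20_0_292)) (pfC_sound p14_20_0_293)) (pfC_sound p14_20_0_294)) (pfC_sound p14_20_0_295)) (pfC_sound p14_20_0_296)) (pfC_sound p14_20_0_297)) (pfC_sound p14_20_0_298)) (pfC_sound p14_20_0_299)) (pfC_sound p14_20_0_300)) (pfC_sound p14_20_0_301)) (pfC_sound p14_20_0_302)) (pfC_sound p14_20_0_303)) (pfC_sound p14_20_0_304)) (pfC_sound p14_20_0_305)) (pfC_sound p14_20_0_306)) (pfC_sound p14_20_0_307)) (pfC_sound p14_20_0_308)) (pfC_sound p14_20_0_309)) (pfC_sound p14_20_0_310)) (by decide +kernel)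

def z14_20_0 : zOK yB14_20 (nat_lit 0) (nat_lit 0) (nat_lit 400) (nat_lit 17719570) (nat_lit 11270119) = true := by decide +kernel
def g14_20_0 : gOK yB14_20.x P14_20 (nat_lit 1370) (q14_20 :: r14_20) (nat_lit 0) (nat_lit 0) (nat_lit 1) (nat_lit 400) (nat_lit 0) (nat_lit 11000000) (nat_lit 12712500) (nat_lit 12712500) [(nat_lit 800), (nat_lit 1600)] = true := by decide +kernel
def v14_20_0 : ivC P14_20 s14_20 w14_20 n14_20 (nat_lit 3) (nat_lit 5260) (nat_lit 0) (nat_lit 0) f184_0_0 f192_0_0 (nat_lit 1) (nat_lit 400) f184_0_400 f192_0_400 (nat_lit 17719570) (nat_lit 11270119) p14_20_0 = true := by decide +kernel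
def p14_20_1 : PF := (PF.cons (PF.cons (PF.cons (PF.leaf (nat_lit 1999695) (nat_lit 9210668) (nat_lit 57898144) (nat_lit 9210668) [(nat_lit 0), (nat_lit 0), (nat_lit 0)]) (PF.cons (PF.leaf (nat_lit 2244798) (nat_lit 449746) (nat_lit 57405293) (nat_lit 9253772) [(nat_lit 449746), (nat_lit 0), (nat_lit 0)]) (PF.cons (PF.leaf (nat_lit 2533220) (nat_lit 489578) (nat_lit 56831210) (nat_lit 9298445) [(nat_lit 489578), (nat_lit 0), (nat_lit 0)]) (PF.cons (PF.leaf (nat_lit 2856790) (nat_lit 524849) (nat_lit 56192625) (nat_lit 9341639) [(nat_lit 524849), (nat_lit 0), (nat_lit 0)]) (PF.cons (PF.leaf (nat_lit 3209966) (nat_lit 556462) (nat_lit 55501770) (nat_lit 9381192) [(nat_lit 556462), (nat_lit 0), (nat_lit 0)]) (PF.cons (PF.leaf (nat_lit 3588371) (nat_lit 584981) (nat_lit 54768348) (nat_lit 9415558) [(nat_lit 584981), (nat_lit 0), (nat_lit 0)]) (PF.cons (PF.leaf (nat_lit 3988251) (nat_lit 610786) (nat_lit 54000431) (nat_lit 9443664) [(nat_lit 610786), (nat_lit 0), (nat_lit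 0)]) (PF.cons (PF.leaf (nat_lit 4406367) (nat_lit 634153) (nat_lit 53204935) (nat_lit 9464803) [(nat_lit 634153), (nat_lit 0), (nat_lit 0)]) (PF.cons (PF.leaf (nat_lit 4839811) (nat_lit 655296) (nat_lit 52387881) (nat_lit 9478557)
 [(nat_lit 655296), (nat_lit 0), (nat_lit 0)]) (PF.cons (PF.leaf (nat_lit 5286030) (nat_lit 674390) (nat_lit 51554560) (nat_lit 9484738) [(nat_lit 674390), (nat_lit 0), (nat_lit 0)]) (PF.cons (PF.leaf (nat_lit 5742622) (nat_lit 691582) (nat_lit 50709647) (nat_lit 9483338) [(nat_lit 691582), (nat_lit 0), (nat_lit 0)]) (PF.cons (PF.leaf (nat_lit 6207473) (nat_lit 707005) (nat_lit 49857270) (nat_lit 9474485) [(nat_lit 707005), (nat_lit 0), (nat_lit 0)]) (PF.cons (PF.leaf (nat_lit 6678631) (nat_lit 720776) (nat_lit 49001076) (nat_lit 9458415) [(nat_lit 720776), (nat_lit 0), (nat_lit 0)]) (PF.cons (PF.leaf (nat_lit 7154419) (nat_lit 733007) (nat_lit 48144274) (nat_lit 9435441) [(nat_lit 733007), (nat_lit 0), (nat_lit 0)]) (PF.cons (PF.leaf (nat_lit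 7633196) (nat_lit 743800) (nat_lit 47289677) (nat_lit 9405931) [(nat_lit 743800), (nat_lit 0), (nat_lit 0)]) (PF.cons PF.nil (PF.cons PF.nil (PF.cons PF.nil PF.nil)))))))))))))))))) (PF.cons (PF.cons (PF.leaf (nat_lit 2837023) (nat_lit 2162512) (nat_lit 55588331) (nat_lit 9357968) [(nat_lit 0), (nat_lit 2162512), (nat_lit 0)]) (PF.cons (PF.leaf (nat_lit 3151297) (nat_lit 543902) (nat_lit 54961693) (nat_lit 9388941) [(nat_lit 543902), (nat_lit
 2214275), (nat_lit 0)]) (PF.cons (PF.leaf (nat_lit 3497001) (nat_lit 573788) (nat_lit 54280837) (nat_lit 9416425) [(nat_lit 573788), (nat_lit 2263973), (nat_lit 0)]) (PF.cons (PF.leaf (nat_lit 3868390) (nat_lit 600551) (nat_lit 53557526) (nat_lit 9438981) [(nat_lit 600551), (nat_lit 2310651), (nat_lit 0)]) (PF.cons (PF.leaf (nat_lit 4261242) (nat_lit 624634) (nat_lit 52800814) (nat_lit 9455653) [(nat_lit 624634), (nat_lit 2353808), (nat_lit 0)]) (PF.cons (PF.leaf (nat_lit 4672049) (nat_lit 646342) (nat_lit 52018058) (nat_lit 9465839)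 [(nat_lit 646342), (nat_lit 2393203), (nat_lit 0)]) (PF.cons (PF.leaf (nat_lit 5097823) (nat_lit 665903) (nat_lit 51215439) (nat_lit 9469206) [(nat_lit 665903), (nat_lit 2428748), (nat_lit 0)]) (PF.cons (PF.leaf (nat_lit 5535899) (nat_lit 683498) (nat_lit 50398245) (nat_lit 9465625) [(nat_lit 683498), (nat_lit 2460452), (nat_lit 0)]) (PF.cons (PF.leaf (nat_lit 5983937) (nat_lit 699279) (nat_lit 49571054) (nat_lit 9455126) [(nat_lit 699279), (nat_lit 2488393), (nat_lit 0)]) (PF.cons (PF.leaf (nat_lit 6439836) (nat_lit 713379) (nat_lit 48737848) (nat_lit 9437861) [(nat_lit 713379), (nat_lit 2512687), (nat_lit 0)]) (PF.cons (PF.leaf (nat_lit 6901735)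
 (nat_lit 725915) (nat_lit 47902100) (nat_lit 9414069) [(nat_lit 725915), (nat_lit 2533483), (nat_lit 0)]) (PF.cons (PF.leaf (nat_lit 7367918) (nat_lit 736997) (nat_lit 47066832) (nat_lit 9384060) [(nat_lit 736997), (nat_lit 2550948), (nat_lit 0)]) (PF.cons (PF.leaf (nat_lit 7836918) (nat_lit 746724) (nat_lit 46234672) (nat_lit 9348186) [(nat_lit 746724), (nat_lit 2565259), (nat_lit 0)]) (PF.cons (PF.leaf (nat_lit 8307365) (nat_lit 755191) (nat_lit 45407891) (nat_lit 9306831) [(nat_lit 755191), (nat_lit 2576600), (nat_lit 0)]) (PF.cons PF.nil (PF.cons PF.nil PF.nil)))))))))))))))) (PF.cons (PF.cons (PF.leaf (nat_lit 3783334) (nat_lit 2312388) (nat_lit 53050016) (nat_lit 9434019) [(nat_lit 0), (nat_lit 2312388), (nat_lit 0)]) (PF.cons (PF.leaf (nat_lit 4144678) (nat_lit 613063) (nat_lit 52345431) (nat_lit 9445964) [(nat_lit 613063), (nat_lit 2352176), (nat_lit 0)]) (PF.cons (PF.leaf (nat_lit 4528563) (nat_lit 635811) (nat_lit 51606508) (nat_lit 9452439) [(nat_lit 635811),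 (nat_lit 2389121), (nat_lit 0)]) (PF.cons (PF.leaf (nat_lit 4930686) (nat_lit 656166) (nat_lit 50841677) (nat_lit 9452914) [(nat_lit 656166), (nat_lit 2422861), (nat_lit 0)]) (PF.cons (PF.leaf (nat_lit 5347761)
 (nat_lit 674398) (nat_lit 50057634) (nat_lit 9447114) [(nat_lit 674398), (nat_lit 2453234), (nat_lit 0)]) (PF.cons (PF.leaf (nat_lit 5777007) (nat_lit 690712) (nat_lit 49259894) (nat_lit 9434954) [(nat_lit 690712), (nat_lit 2480200), (nat_lit 0)]) (PF.cons (PF.leaf (nat_lit 6216015) (nat_lit 705272) (nat_lit 48453094) (nat_lit 9416494) [(nat_lit 705272), (nat_lit 2503795), (nat_lit 0)]) (PF.cons (PF.leaf (nat_lit 6662682) (nat_lit 718216) (nat_lit 47641183) (nat_lit 9391895) [(nat_lit 718216), (nat_lit 2524107), (nat_lit 0)]) (PF.cons (PF.leaf (nat_lit 7115136) (nat_lit 729668) (nat_lit 46827543) (nat_lit 9361402) [(nat_lit 729668), (nat_lit 2541258), (nat_lit 0)]) (PF.cons (PF.leaf (nat_lit 7571741) (nat_lit 739737) (nat_lit 46015081) (nat_lit 9325312) [(nat_lit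 739737), (nat_lit 2555391), (nat_lit 0)]) (PF.cons (PF.leaf (nat_lit 8031013) (nat_lit 748522) (nat_lit 45206295) (nat_lit 9283962) [(nat_lit 748522), (nat_lit 2566663), (nat_lit 0)]) (PF.cons (PF.leaf (nat_lit 8491656) (nat_lit 756117) (nat_lit 44403323) (nat_lit 9237712) [(nat_lit 756117), (nat_lit 2575240), (nat_lit 0)]) (PF.cons PF.nil (PF.cons PF.nil PF.nil)))))))))))))) (PF.cons (PF.cons (PF.leaf (nat_lit 4792120)
 (nat_lit 2418000) (nat_lit 50419384) (nat_lit 9435427) [(nat_lit 0), (nat_lit 2418000), (nat_lit 0)]) (PF.cons (PF.leaf (nat_lit 5183650) (nat_lit 663784) (nat_lit 49677637) (nat_lit 9427417) [(nat_lit 663784), (nat_lit 2446657), (nat_lit 0)]) (PF.cons (PF.leaf (nat_lit 5590861) (nat_lit 680940) (nat_lit 48916119) (nat_lit 9413630) [(nat_lit 680940), (nat_lit 2472394), (nat_lit 0)]) (PF.cons (PF.leaf (nat_lit 6010461) (nat_lit 696182) (nat_lit 48140895) (nat_lit 9394017) [(nat_lit 696182), (nat_lit 2495117), (nat_lit 0)]) (PF.cons (PF.leaf (nat_lit 6439904)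 (nat_lit 709701) (nat_lit 47356869) (nat_lit 9368658) [(nat_lit 709701), (nat_lit 2514825), (nat_lit 0)]) (PF.cons (PF.leaf (nat_lit 6876989) (nat_lit 721650) (nat_lit 46568092) (nat_lit 9337729) [(nat_lit 721650), (nat_lit 2531578), (nat_lit 0)]) (PF.cons (PF.leaf (nat_lit 7319835) (nat_lit 732159) (nat_lit 45777958) (nat_lit 9301470) [(nat_lit 732159), (nat_lit 2545474), (nat_lit 0)]) (PF.cons (PF.leaf (nat_lit 7766779) (nat_lit 741342) (nat_lit 44989335) (nat_lit 9260171) [(nat_lit 741342), (nat_lit 2556635), (nat_lit 0)]) (PF.cons (PF.leaf (nat_lit 8216374) (nat_lit 749301) (nat_lit 44204648) (nat_lit 9214151) [(nat_lit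
 749301), (nat_lit 2565200), (nat_lit 0)]) (PF.cons (PF.leaf (nat_lit 8667342) (nat_lit 756129) (nat_lit 43425951) (nat_lit 9163752) [(nat_lit 756129), (nat_lit 2571315), (nat_lit 0)]) (PF.cons PF.nil (PF.cons PF.nil PF.nil)))))))))))) (PF.cons (PF.cons (PF.leaf (nat_lit 5828682) (nat_lit 2486802) (nat_lit 47791659) (nat_lit 9369943) [(nat_lit 0), (nat_lit 2486802), (nat_lit 0)]) (PF.cons (PF.leaf (nat_lit 6237474) (nat_lit 700026) (nat_lit 47041946) (nat_lit 9343950) [(nat_lit 700026), (nat_lit 2505722), (nat_lit 0)]) (PF.cons (PF.leaf (nat_lit 6656680) (nat_lit 712685) (nat_lit 46282927) (nat_lit 9312697) [(nat_lit 712685), (nat_lit 2521954), (nat_lit 0)]) (PF.cons (PF.leaf (nat_lit 7083777) (nat_lit 723793) (nat_lit 45518946) (nat_lit 9276368) [(nat_lit 723793), (nat_lit 2535529), (nat_lit 0)]) (PF.cons (PF.leaf (nat_lit 7516765) (nat_lit 733495) (nat_lit 44753534) (nat_lit 9235208) [(nat_lit 733495), (nat_lit 2546522), (nat_lit 0)]) (PF.cons (PF.leaf (nat_lit 7953953)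 (nat_lit 741913) (nat_lit 43989606) (nat_lit 9189498) [(nat_lit 741913), (nat_lit 2555035), (nat_lit 0)]) (PF.cons (PF.leaf (nat_lit 8393878) (nat_lit 749153) (nat_lit 43229582) (nat_lit 9139545) [(nat_lit
 749153), (nat_lit 2561191), (nat_lit 0)]) (PF.cons (PF.leaf (nat_lit 8835257) (nat_lit 755311) (nat_lit 42475484) (nat_lit 9085670) [(nat_lit 755311), (nat_lit 2565119), (nat_lit 0)]) (PF.cons PF.nil (PF.cons PF.nil PF.nil)))))))))) (PF.cons (PF.cons (PF.leaf (nat_lit 6867686) (nat_lit 2525596) (nat_lit 45231280) (nat_lit 9249548) [(nat_lit 0), (nat_lit 2525596), (nat_lit 0)]) (PF.cons (PF.leaf (nat_lit 7284074) (nat_lit 724734) (nat_lit 44493695) (nat_lit 9208695) [(nat_lit 724734), (nat_lit 2536337), (nat_lit 0)]) (PF.cons (PF.leaf (nat_lit 7706887) (nat_lit 733763) (nat_lit 43754123) (nat_lit 9163435) [(nat_lit 733763), (nat_lit 2544745), (nat_lit 0)]) (PF.cons (PF.leaf (nat_lit 8134158) (nat_lit 741532) (nat_lit 43015636) (nat_lit 9114049) [(nat_lit 741532), (nat_lit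 2550905), (nat_lit 0)]) (PF.cons (PF.leaf (nat_lit 8564368) (nat_lit 748158) (nat_lit 42280733) (nat_lit 9060834) [(nat_lit 748158), (nat_lit 2554922), (nat_lit 0)]) (PF.cons (PF.leaf (nat_lit 8996207) (nat_lit 753738) (nat_lit 41551459) (nat_lit 9004095) [(nat_lit 753738), (nat_lit 2556912), (nat_lit 0)]) (PF.cons (PF.leaf (nat_lit 9428571) (nat_lit 758362) (nat_lit 40829498) (nat_lit 8944144) [(nat_lit 758362),
 (nat_lit 2556998), (nat_lit 0)]) (PF.cons PF.nil PF.nil)))))))) (PF.cons (PF.cons (PF.leaf (nat_lit 7891353) (nat_lit 2540449) (nat_lit 42779255) (nat_lit 9086862) [(nat_lit 0), (nat_lit 2540449), (nat_lit 0)]) (PF.cons (PF.leaf (nat_lit 8308297) (nat_lit 740271) (nat_lit 42066921) (nat_lit 9034481) [(nat_lit 740271), (nat_lit 2544523), (nat_lit 0)]) (PF.cons (PF.leaf (nat_lit 8728681) (nat_lit 746383) (nat_lit 41357541) (nat_lit 8978621) [(nat_lit 746383), (nat_lit 2546647), (nat_lit 0)]) (PF.cons (PF.leaf (nat_lit 9150982) (nat_lit 751475) (nat_lit 40653258)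 (nat_lit 8919579) [(nat_lit 751475), (nat_lit 2546924), (nat_lit 0)]) (PF.cons (PF.leaf (nat_lit 9574045) (nat_lit 755640) (nat_lit 39955803) (nat_lit 8857652) [(nat_lit 755640), (nat_lit 2545465), (nat_lit 0)]) (PF.cons PF.nil PF.nil)))))) (PF.cons (PF.cons (PF.leaf (nat_lit 8887817) (nat_lit 2536589) (nat_lit 40459261) (nat_lit 8893425) [(nat_lit 0), (nat_lit 2536589), (nat_lit 0)]) (PF.cons (PF.leaf (nat_lit 9300345) (nat_lit 748574) (nat_lit 39780124) (nat_lit 8832595) [(nat_lit 748574), (nat_lit 2535359), (nat_lit 0)]) (PF.cons (PF.leaf (nat_lit 9714119) (nat_lit 752357) (nat_lit 39107137) (nat_lit 8769155) [(nat_lit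
 752357), (nat_lit 2532543), (nat_lit 0)]) (PF.cons PF.nil PF.nil)))) (PF.cons (PF.cons (PF.leaf (nat_lit 9849666) (nat_lit 2518395) (nat_lit 38282625) (nat_lit 8679022) [(nat_lit 0), (nat_lit 2518395), (nat_lit 0)]) (PF.cons (PF.leaf (nat_lit 10254390) (nat_lit 751221) (nat_lit 37640930) (nat_lit 8612382) [(nat_lit 751221), (nat_lit 2513034), (nat_lit 0)]) PF.nil)) (PF.cons PF.nil (PF.cons PF.nil (PF.cons PF.nil (PF.cons PF.nil PF.nil))))))))))))) (PF.cons (PF.cons (PF.cons (PF.leaf (nat_lit 3768735) (nat_lit 6475865) (nat_lit 51286876) (nat_lit 9346071) [(nat_lit 0), (nat_lit 0), (nat_lit 6475865)]) (PF.cons (PF.leaf (nat_lit 4089239) (nat_lit 580386) (nat_lit 50679626) (nat_lit 9349734) [(nat_lit 580386), (nat_lit 0), (nat_lit 6499065)]) (PF.cons (PF.leaf (nat_lit 4437875) (nat_lit 606748) (nat_lit 50026682) (nat_lit 9349120) [(nat_lit 606748), (nat_lit 0), (nat_lit 6519513)]) (PF.cons (PF.leaf (nat_lit 4808707) (nat_lit 629749) (nat_lit 49339645) (nat_lit 9343603)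 [(nat_lit 629749), (nat_lit 0), (nat_lit 6536314)]) (PF.cons (PF.leaf (nat_lit 5197547) (nat_lit 649983) (nat_lit 48627125) (nat_lit 9332819) [(nat_lit 649983), (nat_lit 0), (nat_lit 6548932)]) (PF.cons (PF.leaf
 (nat_lit 5601016) (nat_lit 667854) (nat_lit 47895870) (nat_lit 9316599) [(nat_lit 667854), (nat_lit 0), (nat_lit 6557068)]) (PF.cons (PF.leaf (nat_lit 6016328) (nat_lit 683658) (nat_lit 47151350) (nat_lit 9294917) [(nat_lit 683658), (nat_lit 0), (nat_lit 6560594)]) (PF.cons (PF.leaf (nat_lit 6441099) (nat_lit 697621) (nat_lit 46398098) (nat_lit 9267860) [(nat_lit 697621), (nat_lit 0), (nat_lit 6559504)]) (PF.cons (PF.leaf (nat_lit 6873282) (nat_lit 709927) (nat_lit 45639921) (nat_lit 9235592) [(nat_lit 709927), (nat_lit 0), (nat_lit 6553882)]) (PF.cons (PF.leaf (nat_lit 7311059) (nat_lit 720728) (nat_lit 44880041) (nat_lit 9198342) [(nat_lit 720728), (nat_lit 0), (nat_lit 6543874)]) (PF.cons (PF.leaf (nat_lit 7752881) (nat_lit 730155) (nat_lit 44121200) (nat_lit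 9156379) [(nat_lit 730155), (nat_lit 0), (nat_lit 6529674)]) (PF.cons (PF.leaf (nat_lit 8197333) (nat_lit 738325) (nat_lit 43365729) (nat_lit 9110000) [(nat_lit 738325), (nat_lit 0), (nat_lit 6511504)]) (PF.cons (PF.leaf (nat_lit 8643176) (nat_lit 745339) (nat_lit 42615611) (nat_lit 9059521) [(nat_lit 745339), (nat_lit 0), (nat_lit 6489607)]) (PF.cons PF.nil (PF.cons PF.nil (PF.cons PF.nil PF.nil)))))))))))))))) (PF.cons
 (PF.cons (PF.leaf (nat_lit 4699364) (nat_lit 2376288) (nat_lit 48882217) (nat_lit 9322582) [(nat_lit 0), (nat_lit 2376288), (nat_lit 6527723)]) (PF.cons (PF.leaf (nat_lit 5058116) (nat_lit 636554) (nat_lit 48220221) (nat_lit 9310190) [(nat_lit 636554), (nat_lit 2404283), (nat_lit 6537562)]) (PF.cons (PF.leaf (nat_lit 5436350) (nat_lit 655888) (nat_lit 47530961) (nat_lit 9292828) [(nat_lit 655888), (nat_lit 2429615), (nat_lit 6543630)]) (PF.cons (PF.leaf (nat_lit 5829888) (nat_lit 672818) (nat_lit 46822220) (nat_lit 9270390) [(nat_lit 672818), (nat_lit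 2452106), (nat_lit 6545638)]) (PF.cons (PF.leaf (nat_lit 6235623) (nat_lit 687684) (nat_lit 46099995) (nat_lit 9242898) [(nat_lit 687684), (nat_lit 2471716), (nat_lit 6543464)]) (PF.cons (PF.leaf (nat_lit 6651021) (nat_lit 700737) (nat_lit 45369078) (nat_lit 9210463) [(nat_lit 700737), (nat_lit 2488480), (nat_lit 6537104)]) (PF.cons (PF.leaf (nat_lit 7073904) (nat_lit 712172) (nat_lit 44633387) (nat_lit 9173266) [(nat_lit 712172), (nat_lit 2502484), (nat_lit 6526638)]) (PF.cons (PF.leaf (nat_lit 7502461) (nat_lit 722151) (nat_lit 43896171) (nat_lit 9131537) [(nat_lit 722151), (nat_lit 2513840), (nat_lit 6512205)]) (PF.cons (PF.leaf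
 (nat_lit 7935073) (nat_lit 730807) (nat_lit 43160147) (nat_lit 9085540) [(nat_lit 730807), (nat_lit 2522678), (nat_lit 6493984)]) (PF.cons (PF.leaf (nat_lit 8370352) (nat_lit 738258) (nat_lit 42427600) (nat_lit 9035563) [(nat_lit 738258), (nat_lit 2529139), (nat_lit 6472185)]) (PF.cons (PF.leaf (nat_lit 8807079) (nat_lit 744605) (nat_lit 41700448) (nat_lit 8981906) [(nat_lit 744605), (nat_lit 2533368), (nat_lit 6447031)]) (PF.cons PF.nil (PF.cons PF.nil (PF.cons PF.nil PF.nil)))))))))))))) (PF.cons (PF.cons (PF.leaf (nat_lit 5672158) (nat_lit 2443146) (nat_lit 46448651) (nat_lit 9243683) [(nat_lit 0), (nat_lit 2443146), (nat_lit 6530184)]) (PF.cons (PF.leaf (nat_lit 6054181) (nat_lit 676097) (nat_lit 45765954) (nat_lit 9216009) [(nat_lit 676097), (nat_lit 2461942), (nat_lit 6526865)]) (PF.cons (PF.leaf (nat_lit 6449430) (nat_lit 690241) (nat_lit 45068569) (nat_lit 9183611) [(nat_lit 690241), (nat_lit 2478205), (nat_lit 6519739)]) (PF.cons (PF.leaf (nat_lit 6854825)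 (nat_lit 702558) (nat_lit 44361839) (nat_lit 9146635) [(nat_lit 702558), (nat_lit 2491927), (nat_lit 6508805)]) (PF.cons (PF.leaf (nat_lit 7268043) (nat_lit 713272) (nat_lit 43649973) (nat_lit 9105282) [(nat_lit
 713272), (nat_lit 2503163), (nat_lit 6494141)]) (PF.cons (PF.leaf (nat_lit 7687132) (nat_lit 722555) (nat_lit 42936365) (nat_lit 9059788) [(nat_lit 722555), (nat_lit 2512000), (nat_lit 6475880)]) (PF.cons (PF.leaf (nat_lit 8110441) (nat_lit 730551) (nat_lit 42223794) (nat_lit 9010416) [(nat_lit 730551), (nat_lit 2518550), (nat_lit 6454191)]) (PF.cons (PF.leaf (nat_lit 8536547) (nat_lit 737382) (nat_lit 41514554) (nat_lit 8957445) [(nat_lit 737382), (nat_lit 2522934), (nat_lit 6429268)]) (PF.cons (PF.leaf (nat_lit 8964237) (nat_lit 743151) (nat_lit 40810549) (nat_lit 8901162) [(nat_lit 743151), (nat_lit 2525283), (nat_lit 6401322)]) (PF.cons PF.nil (PF.cons PF.nil (PF.cons PF.nil PF.nil)))))))))))) (PF.cons (PF.cons (PF.leaf (nat_lit 6659205) (nat_lit 2481386)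 (nat_lit 44056713) (nat_lit 9117827) [(nat_lit 0), (nat_lit 2481386), (nat_lit 6490112)]) (PF.cons (PF.leaf (nat_lit 7053620) (nat_lit 703157) (nat_lit 43376092) (nat_lit 9077115) [(nat_lit 703157), (nat_lit 2492396), (nat_lit 6475259)]) (PF.cons (PF.leaf (nat_lit 7456647) (nat_lit 713298) (nat_lit 42689377) (nat_lit 9032337) [(nat_lit 713298), (nat_lit 2501167), (nat_lit 6456998)]) (PF.cons (PF.leaf (nat_lit 7865961)
 (nat_lit 722013) (nat_lit 42000271) (nat_lit 8983745) [(nat_lit 722013), (nat_lit 2507765), (nat_lit 6435460)]) (PF.cons (PF.leaf (nat_lit 8279802) (nat_lit 729458) (nat_lit 41311718) (nat_lit 8931606) [(nat_lit 729458), (nat_lit 2512281), (nat_lit 6410808)]) (PF.cons (PF.leaf (nat_lit 8696686) (nat_lit 735763) (nat_lit 40626099) (nat_lit 8876196) [(nat_lit 735763), (nat_lit 2514824), (nat_lit 6383226)]) (PF.cons (PF.leaf (nat_lit 9115358) (nat_lit 741038) (nat_lit 39945356) (nat_lit 8817791) [(nat_lit 741038), (nat_lit 2515507), (nat_lit 6352910)]) (PF.cons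 (PF.leaf (nat_lit 9534709) (nat_lit 745378) (nat_lit 39271078) (nat_lit 8756668) [(nat_lit 745378), (nat_lit 2514450), (nat_lit 6320066)]) (PF.cons PF.nil (PF.cons PF.nil PF.nil)))))))))) (PF.cons (PF.cons (PF.leaf (nat_lit 7640940) (nat_lit 2496777) (nat_lit 41750944) (nat_lit 8955025) [(nat_lit 0), (nat_lit 2496777), (nat_lit 6415732)]) (PF.cons (PF.leaf (nat_lit 8039864) (nat_lit 720580) (nat_lit 41087270) (nat_lit 8903967) [(nat_lit 720580), (nat_lit 2501390), (nat_lit 6391433)]) (PF.cons (PF.leaf (nat_lit 8443983) (nat_lit 727583) (nat_lit 40423298) (nat_lit 8849630) [(nat_lit 727583), (nat_lit 2504107), (nat_lit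
 6364286)]) (PF.cons (PF.leaf (nat_lit 8851523) (nat_lit 733457) (nat_lit 39761591) (nat_lit 8792293) [(nat_lit 733457), (nat_lit 2505021), (nat_lit 6334469)]) (PF.cons (PF.leaf (nat_lit 9261144) (nat_lit 738319) (nat_lit 39104194) (nat_lit 8732230) [(nat_lit 738319), (nat_lit 2504234), (nat_lit 6302171)]) (PF.cons (PF.leaf (nat_lit 9671727) (nat_lit 742270) (nat_lit 38452751) (nat_lit 8669709) [(nat_lit 742270), (nat_lit 2501854), (nat_lit 6267584)]) (PF.cons PF.nil (PF.cons PF.nil PF.nil)))))))) (PF.cons (PF.cons (PF.leaf (nat_lit 8604011) (nat_lit 2494232) (nat_lit 39557709) (nat_lit 8764927) [(nat_lit 0), (nat_lit 2494232), (nat_lit 6315011)]) (PF.cons (PF.leaf (nat_lit 9001820) (nat_lit 730506) (nat_lit 38920236) (nat_lit 8706144) [(nat_lit 730506), (nat_lit 2493714), (nat_lit 6283355)]) (PF.cons (PF.leaf (nat_lit 9402299) (nat_lit 735036) (nat_lit 38286276) (nat_lit 8644852) [(nat_lit 735036), (nat_lit 2491635), (nat_lit 6249431)]) (PF.cons (PF.leaf (nat_lit 9804091)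 (nat_lit 738668) (nat_lit 37657592) (nat_lit 8581318) [(nat_lit 738668), (nat_lit 2488094), (nat_lit 6213423)]) (PF.cons PF.nil (PF.cons PF.nil PF.nil)))))) (PF.cons (PF.cons (PF.leaf (nat_lit 9539697) (nat_lit
 2477859) (nat_lit 37490707) (nat_lit 8555975) [(nat_lit 0), (nat_lit 2477859), (nat_lit 6194970)]) (PF.cons (PF.leaf (nat_lit 9932454) (nat_lit 734606) (nat_lit 36884735) (nat_lit 8491784) [(nat_lit 734606), (nat_lit 2473307), (nat_lit 6157840)]) (PF.cons (PF.leaf (nat_lit 10326050) (nat_lit 737189) (nat_lit 36284686) (nat_lit 8425771) [(nat_lit 737189), (nat_lit 2467500), (nat_lit 6118975)]) (PF.cons PF.nil PF.nil)))) (PF.cons (PF.cons (PF.leaf (nat_lit 10442677) (nat_lit 2451027) (nat_lit 35555001) (nat_lit 8335144) [(nat_lit 0), (nat_lit 2451027), (nat_lit 6061477)]) (PF.cons PF.nil PF.nil)) (PF.cons PF.nil (PF.cons PF.nil (PF.cons PF.nil PF.nil))))))))))) (PF.cons (PF.cons (PF.cons (PF.leaf (nat_lit 5538079) (nat_lit 6441277) (nat_lit 45114103) (nat_lit 9112154)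 [(nat_lit 0), (nat_lit 0), (nat_lit 6441277)]) (PF.cons (PF.leaf (nat_lit 5890174) (nat_lit 647846) (nat_lit 44503829) (nat_lit 9084060) [(nat_lit 647846), (nat_lit 0), (nat_lit 6436538)]) (PF.cons (PF.leaf (nat_lit 6259365) (nat_lit 664422) (nat_lit 43871526) (nat_lit 9051555) [(nat_lit 664422), (nat_lit 0), (nat_lit 6428442)]) (PF.cons (PF.leaf (nat_lit 6641637) (nat_lit 678646) (nat_lit 43224216) (nat_lit 9014794)
 [(nat_lit 678646), (nat_lit 0), (nat_lit 6416930)]) (PF.cons (PF.leaf (nat_lit 7034091) (nat_lit 690898) (nat_lit 42567189) (nat_lit 8973966) [(nat_lit 690898), (nat_lit 0), (nat_lit 6402032)]) (PF.cons (PF.leaf (nat_lit 7434377) (nat_lit 701454) (nat_lit 41904579) (nat_lit 8929286) [(nat_lit 701454), (nat_lit 0), (nat_lit 6383837)]) (PF.cons (PF.leaf (nat_lit 7840570) (nat_lit 710527) (nat_lit 41239697) (nat_lit 8880994) [(nat_lit 710527), (nat_lit 0), (nat_lit 6362478)]) (PF.cons (PF.leaf (nat_lit 8251048) (nat_lit 718286) (nat_lit 40575235) (nat_lit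 8829340) [(nat_lit 718286), (nat_lit 0), (nat_lit 6338116)]) (PF.cons (PF.leaf (nat_lit 8664423) (nat_lit 724870) (nat_lit 39913403) (nat_lit 8774584) [(nat_lit 724870), (nat_lit 0), (nat_lit 6310930)]) (PF.cons (PF.leaf (nat_lit 9079495) (nat_lit 730397) (nat_lit 39256025) (nat_lit 8716987) [(nat_lit 730397), (nat_lit 0), (nat_lit 6281112)]) (PF.cons PF.nil (PF.cons PF.nil PF.nil)))))))))))) (PF.cons (PF.cons (PF.leaf (nat_lit 6470303) (nat_lit 2434568) (nat_lit 42896686) (nat_lit 8983553) [(nat_lit 0), (nat_lit 2434568), (nat_lit 6397002)]) (PF.cons (PF.leaf (nat_lit 6840791) (nat_lit 678898) (nat_lit 42275644) (nat_lit 8943801)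
 [(nat_lit 678898), (nat_lit 2446283), (nat_lit 6382092)]) (PF.cons (PF.leaf (nat_lit 7222667) (nat_lit 690698) (nat_lit 41643351) (nat_lit 8900173) [(nat_lit 690698), (nat_lit 2455801), (nat_lit 6364044)]) (PF.cons (PF.leaf (nat_lit 7613049) (nat_lit 700772) (nat_lit 41004483) (nat_lit 8852925) [(nat_lit 700772), (nat_lit 2463170), (nat_lit 6342958)]) (PF.cons (PF.leaf (nat_lit 8009810) (nat_lit 709360) (nat_lit 40362649) (nat_lit 8802314) [(nat_lit 709360), (nat_lit 2468471), (nat_lit 6318967)]) (PF.cons (PF.leaf (nat_lit 8411203) (nat_lit 716645) (nat_lit 39720711) (nat_lit 8748601) [(nat_lit 716645), (nat_lit 2471809), (nat_lit 6292230)]) (PF.cons (PF.leaf (nat_lit 8815767) (nat_lit 722776) (nat_lit 39080967) (nat_lit 8692046) [(nat_lit 722776), (nat_lit 2473296), (nat_lit 6262920)]) (PF.cons (PF.leaf (nat_lit 9222264) (nat_lit 727876) (nat_lit 38445287) (nat_lit 8632906) [(nat_lit 727876), (nat_lit 2473048), (nat_lit 6231217)]) (PF.cons (PF.leaf (nat_lit 9629654)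 (nat_lit 732048) (nat_lit 37815195) (nat_lit 8571431) [(nat_lit 732048), (nat_lit 2471185), (nat_lit 6197307)]) (PF.cons PF.nil PF.nil)))))))))) (PF.cons (PF.cons (PF.leaf (nat_lit 7408388) (nat_lit 2451547) (nat_lit
 40738980) (nat_lit 8822334) [(nat_lit 0), (nat_lit 2451547), (nat_lit 6322201)]) (PF.cons (PF.leaf (nat_lit 7787981) (nat_lit 699155) (nat_lit 40125132) (nat_lit 8773121) [(nat_lit 699155), (nat_lit 2456987), (nat_lit 6298713)]) (PF.cons (PF.leaf (nat_lit 8174869) (nat_lit 707385) (nat_lit 39507149) (nat_lit 8720729) [(nat_lit 707385), (nat_lit 2460548), (nat_lit 6272532)]) (PF.cons (PF.leaf (nat_lit 8566916) (nat_lit 714302) (nat_lit 38888200) (nat_lit 8665437) [(nat_lit 714302), (nat_lit 2462314), (nat_lit 6243819)]) (PF.cons (PF.leaf (nat_lit 8962534) (nat_lit 720068) (nat_lit 38270766) (nat_lit 8607514) [(nat_lit 720068), (nat_lit 2462383), (nat_lit 6212745)]) (PF.cons (PF.leaf (nat_lit 9360427) (nat_lit 724817) (nat_lit 37656820) (nat_lit 8547216)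 [(nat_lit 724817), (nat_lit 2460860), (nat_lit 6179484)]) (PF.cons (PF.leaf (nat_lit 9759459) (nat_lit 728656) (nat_lit 37047949) (nat_lit 8484792) [(nat_lit 728656), (nat_lit 2457851), (nat_lit 6144215)]) (PF.cons PF.nil PF.nil)))))))) (PF.cons (PF.cons (PF.leaf (nat_lit 8336857) (nat_lit 2450980) (nat_lit 38672254) (nat_lit 8636602) [(nat_lit 0), (nat_lit 2450980), (nat_lit 6223506)]) (PF.cons (PF.leaf (nat_lit 8718987) (nat_lit
 711287) (nat_lit 38076850) (nat_lit 8580192) [(nat_lit 711287), (nat_lit 2451364), (nat_lit 6193194)]) (PF.cons (PF.leaf (nat_lit 9105442) (nat_lit 716780) (nat_lit 37481992) (nat_lit 8521307) [(nat_lit 716780), (nat_lit 2450188), (nat_lit 6160693)]) (PF.cons (PF.leaf (nat_lit 9494597) (nat_lit 721253) (nat_lit 36889840) (nat_lit 8460215) [(nat_lit 721253), (nat_lit 2447545), (nat_lit 6126179)]) (PF.cons (PF.leaf (nat_lit 9885275) (nat_lit 724825) (nat_lit 36302096) (nat_lit 8397163) [(nat_lit 724825), (nat_lit 2443534), (nat_lit 6089823)])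 (PF.cons PF.nil PF.nil)))))) (PF.cons (PF.cons (PF.leaf (nat_lit 9245395) (nat_lit 2436849) (nat_lit 36713702) (nat_lit 8433693) [(nat_lit 0), (nat_lit 2436849), (nat_lit 6107010)]) (PF.cons (PF.leaf (nat_lit 9625446) (nat_lit 717211) (nat_lit 36143467) (nat_lit 8372149) [(nat_lit 717211), (nat_lit 2433232), (nat_lit 6071526)]) (PF.cons (PF.leaf (nat_lit 10007652) (nat_lit 720581) (nat_lit 35576797) (nat_lit 8308773) [(nat_lit 720581), (nat_lit 2428350), (nat_lit 6034338)]) (PF.cons (PF.leaf (nat_lit 10390774) (nat_lit 723151) (nat_lit 35015165) (nat_lit 8243801) [(nat_lit 723151), (nat_lit 2422292), (nat_lit 5995611)]) PF.nil)))) (PF.cons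
 (PF.cons (PF.leaf (nat_lit 10127388) (nat_lit 2412399) (nat_lit 34871142) (nat_lit 8219806) [(nat_lit 0), (nat_lit 2412399), (nat_lit 5977934)]) (PF.cons (PF.leaf (nat_lit 10502164) (nat_lit 718372) (nat_lit 34329732) (nat_lit 8154890) [(nat_lit 718372), (nat_lit 2405674), (nat_lit 5938721)]) PF.nil)) (PF.cons PF.nil (PF.cons PF.nil (PF.cons PF.nil (PF.cons PF.nil PF.nil)))))))))) (PF.cons (PF.cons (PF.cons (PF.leaf (nat_lit 7196597) (nat_lit 6227608) (nat_lit 39737600) (nat_lit 8688386) [(nat_lit 0), (nat_lit 0), (nat_lit 6227608)]) (PF.cons (PF.leaf (nat_lit 7554770) (nat_lit 675314) (nat_lit 39175892) (nat_lit 8641619) [(nat_lit 675314), (nat_lit 0), (nat_lit 6205328)]) (PF.cons (PF.leaf (nat_lit 7922931) (nat_lit 685277) (nat_lit 38605292) (nat_lit 8591646) [(nat_lit 685277), (nat_lit 0), (nat_lit 6180439)]) (PF.cons (PF.leaf (nat_lit 8298378) (nat_lit 693617) (nat_lit 38029885) (nat_lit 8538776) [(nat_lit 693617), (nat_lit 0), (nat_lit 6153099)]) (PF.cons (PF.leaf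 (nat_lit 8679157) (nat_lit 700581) (nat_lit 37452781) (nat_lit 8483294) [(nat_lit 700581), (nat_lit 0), (nat_lit 6123470)]) (PF.cons (PF.leaf (nat_lit 9063681) (nat_lit 706356) (nat_lit 36876409) (nat_lit 8425461)
 [(nat_lit 706356), (nat_lit 0), (nat_lit 6091719)]) (PF.cons (PF.leaf (nat_lit 9450651) (nat_lit 711092) (nat_lit 36302697) (nat_lit 8365524) [(nat_lit 711092), (nat_lit 0), (nat_lit 6058012)]) (PF.cons (PF.leaf (nat_lit 9838977) (nat_lit 714907) (nat_lit 35733191) (nat_lit 8303716) [(nat_lit 714907), (nat_lit 0), (nat_lit 6022516)]) (PF.cons PF.nil (PF.cons PF.nil PF.nil)))))))))) (PF.cons (PF.cons (PF.leaf (nat_lit 8088198) (nat_lit 2406539) (nat_lit 37798940) (nat_lit 8508123) [(nat_lit 0), (nat_lit 2406539), (nat_lit 6131736)]) (PF.cons (PF.leaf (nat_lit 8453231) (nat_lit 690502) (nat_lit 37246704) (nat_lit 8454464) [(nat_lit 690502), (nat_lit 2408059), (nat_lit 6103027)]) (PF.cons (PF.leaf (nat_lit 8824581) (nat_lit 697266) (nat_lit 36691530) (nat_lit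 8398282) [(nat_lit 697266), (nat_lit 2407985), (nat_lit 6072160)]) (PF.cons (PF.leaf (nat_lit 9200270) (nat_lit 702820) (nat_lit 36136148) (nat_lit 8339864) [(nat_lit 702820), (nat_lit 2406411), (nat_lit 6039309)]) (PF.cons (PF.leaf (nat_lit 9578867) (nat_lit 707326) (nat_lit 35582669) (nat_lit 8279467) [(nat_lit 707326), (nat_lit 2403438), (nat_lit 6004643)]) (PF.cons (PF.leaf (nat_lit 9959184) (nat_lit 710917) (nat_lit
 35032754) (nat_lit 8217331) [(nat_lit 710917), (nat_lit 2399164), (nat_lit 5968325)]) (PF.cons PF.nil (PF.cons PF.nil PF.nil)))))))) (PF.cons (PF.cons (PF.leaf (nat_lit 8967951) (nat_lit 2395155) (nat_lit 35948786) (nat_lit 8311904) [(nat_lit 0), (nat_lit 2395155), (nat_lit 6019270)]) (PF.cons (PF.leaf (nat_lit 9334257) (nat_lit 698767) (nat_lit 35414743) (nat_lit 8253242) [(nat_lit 698767), (nat_lit 2392630), (nat_lit 5985599)]) (PF.cons (PF.leaf (nat_lit 9704253) (nat_lit 703123) (nat_lit 34881612) (nat_lit 8192682) [(nat_lit 703123), (nat_lit 2388804),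 (nat_lit 5950220)]) (PF.cons (PF.leaf (nat_lit 10076457) (nat_lit 706552) (nat_lit 34351238) (nat_lit 8130475) [(nat_lit 706552), (nat_lit 2383771), (nat_lit 5913299)]) (PF.cons PF.nil (PF.cons PF.nil PF.nil)))))) (PF.cons (PF.cons (PF.leaf (nat_lit 9827651) (nat_lit 2373408) (nat_lit 34198583) (nat_lit 8105321) [(nat_lit 0), (nat_lit 2373408), (nat_lit 5894894)]) (PF.cons (PF.leaf (nat_lit 10191350) (nat_lit 701825) (nat_lit 33687780) (nat_lit 8043294) [(nat_lit 701825), (nat_lit 2367724), (nat_lit 5857579)]) (PF.cons (PF.leaf (nat_lit 10556845) (nat_lit 704336) (nat_lit 33180343) (nat_lit 7979909) [(nat_lit 704336), (nat_lit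
 2360998), (nat_lit 5818963)]) (PF.cons PF.nil PF.nil)))) (PF.cons (PF.cons (PF.leaf (nat_lit 10662121) (nat_lit 2343885) (nat_lit 32552716) (nat_lit 7892966) [(nat_lit 0), (nat_lit 2343885), (nat_lit 5762528)]) (PF.cons PF.nil PF.nil)) (PF.cons PF.nil (PF.cons PF.nil (PF.cons PF.nil PF.nil)))))))) (PF.cons (PF.cons (PF.cons (PF.leaf (nat_lit 8709001) (nat_lit 5931504) (nat_lit 35192553) (nat_lit 8190239) [(nat_lit 0), (nat_lit 0), (nat_lit 5931504)]) (PF.cons (PF.leaf (nat_lit 9060072) (nat_lit 678879) (nat_lit 34695778) (nat_lit 8134756) [(nat_lit 678879), (nat_lit 0), (nat_lit 5899849)]) (PF.cons (PF.leaf (nat_lit 9416739) (nat_lit 684508) (nat_lit 34196802) (nat_lit 8077238) [(nat_lit 684508), (nat_lit 0), (nat_lit 5866438)]) (PF.cons (PF.leaf (nat_lit 9777136) (nat_lit 689018) (nat_lit 33697992) (nat_lit 8017968) [(nat_lit 689018), (nat_lit 0), (nat_lit 5831449)]) (PF.cons (PF.leaf (nat_lit 10139952) (nat_lit 692570) (nat_lit 33201164) (nat_lit 7957190) [(nat_lit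 692570), (nat_lit 0), (nat_lit 5795043)]) (PF.cons PF.nil PF.nil)))))) (PF.cons (PF.cons (PF.leaf (nat_lit 9544523) (nat_lit 2333851) (nat_lit 33534918) (nat_lit 7991401) [(nat_lit 0), (nat_lit 2333851), (nat_lit
 5812160)]) (PF.cons (PF.leaf (nat_lit 9896066) (nat_lit 684303) (nat_lit 33055231) (nat_lit 7932447) [(nat_lit 684303), (nat_lit 2329339), (nat_lit 5776872)]) (PF.cons (PF.leaf (nat_lit 10250839) (nat_lit 687794) (nat_lit 32576563) (nat_lit 7872013) [(nat_lit 687794), (nat_lit 2323731), (nat_lit 5740229)]) (PF.cons (PF.leaf (nat_lit 10607463) (nat_lit 690437) (nat_lit 32100507) (nat_lit 7810330) [(nat_lit 690437), (nat_lit 2317114), (nat_lit 5702386)]) PF.nil)))) (PF.cons (PF.cons (PF.leaf (nat_lit 10360497) (nat_lit 2307214) (nat_lit 31967670) (nat_lit 7786777) [(nat_lit 0), (nat_lit 2307214), (nat_lit 5684984)]) (PF.cons (PF.leaf (nat_lit 10709176) (nat_lit 685302) (nat_lit 31508981) (nat_lit 7725668) [(nat_lit 685302), (nat_lit 2300177), (nat_lit 5647126)])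 PF.nil)) (PF.cons PF.nil (PF.cons PF.nil (PF.cons PF.nil PF.nil)))))) (PF.cons (PF.cons (PF.cons (PF.leaf (nat_lit 10074979) (nat_lit 5607734) (nat_lit 31389032) (nat_lit 7681107) [(nat_lit 0), (nat_lit 0), (nat_lit 5607734)]) (PF.cons (PF.leaf (nat_lit 10412806) (nat_lit 668757) (nat_lit 30957143) (nat_lit 7623079) [(nat_lit 668757), (nat_lit 0), (nat_lit 5571966)]) (PF.cons (PF.leaf (nat_lit 10753532) (nat_lit 671582)
 (nat_lit 30526246) (nat_lit 7563875) [(nat_lit 671582), (nat_lit 0), (nat_lit 5535105)]) (PF.cons PF.nil PF.nil)))) (PF.cons (PF.cons (PF.leaf (nat_lit 10851703) (nat_lit 2240393) (nat_lit 29981620) (nat_lit 7481825) [(nat_lit 0), (nat_lit 2240393), (nat_lit 5480994)]) (PF.cons PF.nil PF.nil)) (PF.cons PF.nil (PF.cons PF.nil PF.nil)))) (PF.cons (PF.cons (PF.cons (PF.leaf (nat_lit 11307523) (nat_lit 5285000) (nat_lit 28206547) (nat_lit 7192264) [(nat_lit 0), (nat_lit 0), (nat_lit 5285000)]) (PF.cons PF.nil PF.nil)) (PF.cons PF.nil PF.nil)) (PF.cons PF.nil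 (PF.cons PF.nil (PF.cons PF.nil PF.nil))))))))))

def p14_20_1_0 : pfC (piC [(nat_lit 35404596), (nat_lit 22827826), (nat_lit 14696761)] (nat_lit 11270119)) p14_20_1 (nat_lit 3) (nat_lit 0) (nat_lit 1) = true := by decide +kernel
def p14_20_1_1 : pfC (piC [(nat_lit 35404596), (nat_lit 22827826), (nat_lit 14696761)] (nat_lit 11270119)) p14_20_1 (nat_lit 3) (nat_lit 1) (nat_lit 2) = true := by decide +kernel
def p14_20_1_2 : pfC (piC [(nat_lit 35404596), (nat_lit 22827826), (nat_lit 14696761)] (nat_lit 11270119)) p14_20_1 (nat_lit 3) (nat_lit 2) (nat_lit 3) = true := by decide +kernel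
def p14_20_1_3 : pfC (piC [(nat_lit 35404596), (nat_lit 22827826), (nat_lit 14696761)] (nat_lit 11270119)) p14_20_1 (nat_lit 3) (nat_lit 3) (nat_lit 4) = true := by decide +kernel
def p14_20_1_4 : pfC (piC [(nat_lit 35404596), (nat_lit 22827826), (nat_lit 14696761)] (nat_lit 11270119)) p14_20_1 (nat_lit 3) (nat_lit 4) (nat_lit 5) = true := by decide +kernel
def p14_20_1_5 : pfC (piC [(nat_lit 35404596), (nat_lit 22827826), (nat_lit 14696761)] (nat_lit 11270119)) p14_20_1 (nat_lit 3) (nat_lit 5) (nat_lit 6) = true := by decide +kernel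
def p14_20_1_6 : pfC (piC [(nat_lit 35404596), (nat_lit 22827826), (nat_lit 14696761)] (nat_lit 11270119)) p14_20_1 (nat_lit 3) (nat_lit 6) (nat_lit 7) = true := by decide +kernel
def p14_20_1_7 : pfC (piC [(nat_lit 35404596), (nat_lit 22827826), (nat_lit 14696761)] (nat_lit 11270119)) p14_20_1 (nat_lit 3) (nat_lit 7) (nat_lit 8) = true := by decide +kernel
def p14_20_1_8 : pfC (piC [(nat_lit 35404596), (nat_lit 22827826), (nat_lit 14696761)] (nat_lit 11270119)) p14_20_1 (nat_lit 3) (nat_lit 8) (nat_lit 9) = true := by decide +kernel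
def p14_20_1_9 : pfC (piC [(nat_lit 35404596), (nat_lit 22827826), (nat_lit 14696761)] (nat_lit 11270119)) p14_20_1 (nat_lit 3) (nat_lit 9) (nat_lit 10) = true := by decide +kernel
def p14_20_1_10 : pfC (piC [(nat_lit 35404596), (nat_lit 22827826), (nat_lit 14696761)] (nat_lit 11270119)) p14_20_1 (nat_lit 3) (nat_lit 10) (nat_lit 11) = true := by decide +kernel
def p14_20_1_11 : pfC (piC [(nat_lit 35404596), (nat_lit 22827826), (nat_lit 14696761)] (nat_lit 11270119)) p14_20_1 (nat_lit 3) (nat_lit 11) (nat_lit 12) = true := by decide +kernel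
def p14_20_1_12 : pfC (piC [(nat_lit 35404596), (nat_lit 22827826), (nat_lit 14696761)] (nat_lit 11270119)) p14_20_1 (nat_lit 3) (nat_lit 12) (nat_lit 13) = true := by decide +kernel
def p14_20_1_13 : pfC (piC [(nat_lit 35404596), (nat_lit 22827826), (nat_lit 14696761)] (nat_lit 11270119)) p14_20_1 (nat_lit 3) (nat_lit 13) (nat_lit 14) = true := by decide +kernel
def p14_20_1_14 : pfC (piC [(nat_lit 35404596), (nat_lit 22827826), (nat_lit 14696761)] (nat_lit 11270119)) p14_20_1 (nat_lit 3) (nat_lit 14) (nat_lit 15) = true := by decide +kernel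
def p14_20_1_15 : pfC (piC [(nat_lit 35404596), (nat_lit 22827826), (nat_lit 14696761)] (nat_lit 11270119)) p14_20_1 (nat_lit 3) (nat_lit 15) (nat_lit 16) = true := by decide +kernel
def p14_20_1_16 : pfC (piC [(nat_lit 35404596), (nat_lit 22827826), (nat_lit 14696761)] (nat_lit 11270119)) p14_20_1 (nat_lit 3) (nat_lit 16) (nat_lit 17) = true := by decide +kernel
def p14_20_1_17 : pfC (piC [(nat_lit 35404596), (nat_lit 22827826), (nat_lit 14696761)] (nat_lit 11270119)) p14_20_1 (nat_lit 3) (nat_lit 17) (nat_lit 18) = true := by decide +kernel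
def p14_20_1_18 : pfC (piC [(nat_lit 35404596), (nat_lit 22827826), (nat_lit 14696761)] (nat_lit 11270119)) p14_20_1 (nat_lit 3) (nat_lit 18) (nat_lit 19) = true := by decide +kernel
def p14_20_1_19 : pfC (piC [(nat_lit 35404596), (nat_lit 22827826), (nat_lit 14696761)] (nat_lit 11270119)) p14_20_1 (nat_lit 3) (nat_lit 19) (nat_lit 20) = true := by decide +kernel
def p14_20_1_20 : pfC (piC [(nat_lit 35404596), (nat_lit 22827826), (nat_lit 14696761)] (nat_lit 11270119)) p14_20_1 (nat_lit 3) (nat_lit 20) (nat_lit 21) = true := by decide +kernel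
def p14_20_1_21 : pfC (piC [(nat_lit 35404596), (nat_lit 22827826), (nat_lit 14696761)] (nat_lit 11270119)) p14_20_1 (nat_lit 3) (nat_lit 21) (nat_lit 22) = true := by decide +kernel
def p14_20_1_22 : pfC (piC [(nat_lit 35404596), (nat_lit 22827826), (nat_lit 14696761)] (nat_lit 11270119)) p14_20_1 (nat_lit 3) (nat_lit 22) (nat_lit 23) = true := by decide +kernel
def p14_20_1_23 : pfC (piC [(nat_lit 35404596), (nat_lit 22827826), (nat_lit 14696761)] (nat_lit 11270119)) p14_20_1 (nat_lit 3) (nat_lit 23) (nat_lit 24) = true := by decide +kernel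
def p14_20_1_24 : pfC (piC [(nat_lit 35404596), (nat_lit 22827826), (nat_lit 14696761)] (nat_lit 11270119)) p14_20_1 (nat_lit 3) (nat_lit 24) (nat_lit 25) = true := by decide +kernel
def p14_20_1_25 : pfC (piC [(nat_lit 35404596), (nat_lit 22827826), (nat_lit 14696761)] (nat_lit 11270119)) p14_20_1 (nat_lit 3) (nat_lit 25) (nat_lit 26) = true := by decide +kernel
def p14_20_1_26 : pfC (piC [(nat_lit 35404596), (nat_lit 22827826), (nat_lit 14696761)] (nat_lit 11270119)) p14_20_1 (nat_lit 3) (nat_lit 26) (nat_lit 27) = true := by decide +kernel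
def p14_20_1_27 : pfC (piC [(nat_lit 35404596), (nat_lit 22827826), (nat_lit 14696761)] (nat_lit 11270119)) p14_20_1 (nat_lit 3) (nat_lit 27) (nat_lit 28) = true := by decide +kernel
def p14_20_1_28 : pfC (piC [(nat_lit 35404596), (nat_lit 22827826), (nat_lit 14696761)] (nat_lit 11270119)) p14_20_1 (nat_lit 3) (nat_lit 28) (nat_lit 29) = true := by decide +kernel
def p14_20_1_29 : pfC (piC [(nat_lit 35404596), (nat_lit 22827826), (nat_lit 14696761)] (nat_lit 11270119)) p14_20_1 (nat_lit 3) (nat_lit 29) (nat_lit 30) = true := by decide +kernel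
def p14_20_1_30 : pfC (piC [(nat_lit 35404596), (nat_lit 22827826), (nat_lit 14696761)] (nat_lit 11270119)) p14_20_1 (nat_lit 3) (nat_lit 30) (nat_lit 31) = true := by decide +kernel
def p14_20_1_31 : pfC (piC [(nat_lit 35404596), (nat_lit 22827826), (nat_lit 14696761)] (nat_lit 11270119)) p14_20_1 (nat_lit 3) (nat_lit 31) (nat_lit 32) = true := by decide +kernel
def p14_20_1_32 : pfC (piC [(nat_lit 35404596), (nat_lit 22827826), (nat_lit 14696761)] (nat_lit 11270119)) p14_20_1 (nat_lit 3) (nat_lit 32) (nat_lit 33) = true := by decide +kernel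
def p14_20_1_33 : pfC (piC [(nat_lit 35404596), (nat_lit 22827826), (nat_lit 14696761)] (nat_lit 11270119)) p14_20_1 (nat_lit 3) (nat_lit 33) (nat_lit 34) = true := by decide +kernel
def p14_20_1_34 : pfC (piC [(nat_lit 35404596), (nat_lit 22827826), (nat_lit 14696761)] (nat_lit 11270119)) p14_20_1 (nat_lit 3) (nat_lit 34) (nat_lit 35) = true := by decide +kernel
def p14_20_1_35 : pfC (piC [(nat_lit 35404596), (nat_lit 22827826), (nat_lit 14696761)] (nat_lit 11270119)) p14_20_1 (nat_lit 3) (nat_lit 35) (nat_lit 36) = true := by decide +kernel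
def p14_20_1_36 : pfC (piC [(nat_lit 35404596), (nat_lit 22827826), (nat_lit 14696761)] (nat_lit 11270119)) p14_20_1 (nat_lit 3) (nat_lit 36) (nat_lit 37) = true := by decide +kernel
def p14_20_1_37 : pfC (piC [(nat_lit 35404596), (nat_lit 22827826), (nat_lit 14696761)] (nat_lit 11270119)) p14_20_1 (nat_lit 3) (nat_lit 37) (nat_lit 38) = true := by decide +kernel
def p14_20_1_38 : pfC (piC [(nat_lit 35404596), (nat_lit 22827826), (nat_lit 14696761)] (nat_lit 11270119)) p14_20_1 (nat_lit 3) (nat_lit 38) (nat_lit 39) = true := by decide +kernel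
def p14_20_1_39 : pfC (piC [(nat_lit 35404596), (nat_lit 22827826), (nat_lit 14696761)] (nat_lit 11270119)) p14_20_1 (nat_lit 3) (nat_lit 39) (nat_lit 40) = true := by decide +kernel
def p14_20_1_40 : pfC (piC [(nat_lit 35404596), (nat_lit 22827826), (nat_lit 14696761)] (nat_lit 11270119)) p14_20_1 (nat_lit 3) (nat_lit 40) (nat_lit 41) = true := by decide +kernel
def p14_20_1_41 : pfC (piC [(nat_lit 35404596), (nat_lit 22827826), (nat_lit 14696761)] (nat_lit 11270119)) p14_20_1 (nat_lit 3) (nat_lit 41) (nat_lit 42) = true := by decide +kernel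
def p14_20_1_42 : pfC (piC [(nat_lit 35404596), (nat_lit 22827826), (nat_lit 14696761)] (nat_lit 11270119)) p14_20_1 (nat_lit 3) (nat_lit 42) (nat_lit 43) = true := by decide +kernel
def p14_20_1_43 : pfC (piC [(nat_lit 35404596), (nat_lit 22827826), (nat_lit 14696761)] (nat_lit 11270119)) p14_20_1 (nat_lit 3) (nat_lit 43) (nat_lit 44) = true := by decide +kernel
def p14_20_1_44 : pfC (piC [(nat_lit 35404596), (nat_lit 22827826), (nat_lit 14696761)] (nat_lit 11270119)) p14_20_1 (nat_lit 3) (nat_lit 44) (nat_lit 45) = true := by decide +kernel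
def p14_20_1_45 : pfC (piC [(nat_lit 35404596), (nat_lit 22827826), (nat_lit 14696761)] (nat_lit 11270119)) p14_20_1 (nat_lit 3) (nat_lit 45) (nat_lit 46) = true := by decide +kernel
def p14_20_1_46 : pfC (piC [(nat_lit 35404596), (nat_lit 22827826), (nat_lit 14696761)] (nat_lit 11270119)) p14_20_1 (nat_lit 3) (nat_lit 46) (nat_lit 47) = true := by decide +kernel
def p14_20_1_47 : pfC (piC [(nat_lit 35404596), (nat_lit 22827826), (nat_lit 14696761)] (nat_lit 11270119)) p14_20_1 (nat_lit 3) (nat_lit 47) (nat_lit 48) = true := by decide +kernel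
def p14_20_1_48 : pfC (piC [(nat_lit 35404596), (nat_lit 22827826), (nat_lit 14696761)] (nat_lit 11270119)) p14_20_1 (nat_lit 3) (nat_lit 48) (nat_lit 49) = true := by decide +kernel
def p14_20_1_49 : pfC (piC [(nat_lit 35404596), (nat_lit 22827826), (nat_lit 14696761)] (nat_lit 11270119)) p14_20_1 (nat_lit 3) (nat_lit 49) (nat_lit 50) = true := by decide +kernel
def p14_20_1_50 : pfC (piC [(nat_lit 35404596), (nat_lit 22827826), (nat_lit 14696761)] (nat_lit 11270119)) p14_20_1 (nat_lit 3) (nat_lit 50) (nat_lit 51) = true := by decide +kernel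
def p14_20_1_51 : pfC (piC [(nat_lit 35404596), (nat_lit 22827826), (nat_lit 14696761)] (nat_lit 11270119)) p14_20_1 (nat_lit 3) (nat_lit 51) (nat_lit 52) = true := by decide +kernel
def p14_20_1_52 : pfC (piC [(nat_lit 35404596), (nat_lit 22827826), (nat_lit 14696761)] (nat_lit 11270119)) p14_20_1 (nat_lit 3) (nat_lit 52) (nat_lit 53) = true := by decide +kernel
def p14_20_1_53 : pfC (piC [(nat_lit 35404596), (nat_lit 22827826), (nat_lit 14696761)] (nat_lit 11270119)) p14_20_1 (nat_lit 3) (nat_lit 53) (nat_lit 54) = true := by decide +kernel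
def p14_20_1_54 : pfC (piC [(nat_lit 35404596), (nat_lit 22827826), (nat_lit 14696761)] (nat_lit 11270119)) p14_20_1 (nat_lit 3) (nat_lit 54) (nat_lit 55) = true := by decide +kernel
def p14_20_1_55 : pfC (piC [(nat_lit 35404596), (nat_lit 22827826), (nat_lit 14696761)] (nat_lit 11270119)) p14_20_1 (nat_lit 3) (nat_lit 55) (nat_lit 56) = true := by decide +kernel
def p14_20_1_56 : pfC (piC [(nat_lit 35404596), (nat_lit 22827826), (nat_lit 14696761)] (nat_lit 11270119)) p14_20_1 (nat_lit 3) (nat_lit 56) (nat_lit 57) = true := by decide +kernel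
def p14_20_1_57 : pfC (piC [(nat_lit 35404596), (nat_lit 22827826), (nat_lit 14696761)] (nat_lit 11270119)) p14_20_1 (nat_lit 3) (nat_lit 57) (nat_lit 58) = true := by decide +kernel
def p14_20_1_58 : pfC (piC [(nat_lit 35404596), (nat_lit 22827826), (nat_lit 14696761)] (nat_lit 11270119)) p14_20_1 (nat_lit 3) (nat_lit 58) (nat_lit 59) = true := by decide +kernel
def p14_20_1_59 : pfC (piC [(nat_lit 35404596), (nat_lit 22827826), (nat_lit 14696761)] (nat_lit 11270119)) p14_20_1 (nat_lit 3) (nat_lit 59) (nat_lit 60) = true := by decide +kernel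
def p14_20_1_60 : pfC (piC [(nat_lit 35404596), (nat_lit 22827826), (nat_lit 14696761)] (nat_lit 11270119)) p14_20_1 (nat_lit 3) (nat_lit 60) (nat_lit 61) = true := by decide +kernel
def p14_20_1_61 : pfC (piC [(nat_lit 35404596), (nat_lit 22827826), (nat_lit 14696761)] (nat_lit 11270119)) p14_20_1 (nat_lit 3) (nat_lit 61) (nat_lit 62) = true := by decide +kernel
def p14_20_1_62 : pfC (piC [(nat_lit 35404596), (nat_lit 22827826), (nat_lit 14696761)] (nat_lit 11270119)) p14_20_1 (nat_lit 3) (nat_lit 62) (nat_lit 63) = true := by decide +kernel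
def p14_20_1_63 : pfC (piC [(nat_lit 35404596), (nat_lit 22827826), (nat_lit 14696761)] (nat_lit 11270119)) p14_20_1 (nat_lit 3) (nat_lit 63) (nat_lit 64) = true := by decide +kernel
def p14_20_1_64 : pfC (piC [(nat_lit 35404596), (nat_lit 22827826), (nat_lit 14696761)] (nat_lit 11270119)) p14_20_1 (nat_lit 3) (nat_lit 64) (nat_lit 65) = true := by decide +kernel
def p14_20_1_65 : pfC (piC [(nat_lit 35404596), (nat_lit 22827826), (nat_lit 14696761)] (nat_lit 11270119)) p14_20_1 (nat_lit 3) (nat_lit 65) (nat_lit 66) = true := by decide +kernel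
def p14_20_1_66 : pfC (piC [(nat_lit 35404596), (nat_lit 22827826), (nat_lit 14696761)] (nat_lit 11270119)) p14_20_1 (nat_lit 3) (nat_lit 66) (nat_lit 67) = true := by decide +kernel
def p14_20_1_67 : pfC (piC [(nat_lit 35404596), (nat_lit 22827826), (nat_lit 14696761)] (nat_lit 11270119)) p14_20_1 (nat_lit 3) (nat_lit 67) (nat_lit 68) = true := by decide +kernel
def p14_20_1_68 : pfC (piC [(nat_lit 35404596), (nat_lit 22827826), (nat_lit 14696761)] (nat_lit 11270119)) p14_20_1 (nat_lit 3) (nat_lit 68) (nat_lit 69) = true := by decide +kernel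
def p14_20_1_69 : pfC (piC [(nat_lit 35404596), (nat_lit 22827826), (nat_lit 14696761)] (nat_lit 11270119)) p14_20_1 (nat_lit 3) (nat_lit 69) (nat_lit 70) = true := by decide +kernel
def p14_20_1_70 : pfC (piC [(nat_lit 35404596), (nat_lit 22827826), (nat_lit 14696761)] (nat_lit 11270119)) p14_20_1 (nat_lit 3) (nat_lit 70) (nat_lit 71) = true := by decide +kernel
def p14_20_1_71 : pfC (piC [(nat_lit 35404596), (nat_lit 22827826), (nat_lit 14696761)] (nat_lit 11270119)) p14_20_1 (nat_lit 3) (nat_lit 71) (nat_lit 72) = true := by decide +kernel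
def p14_20_1_72 : pfC (piC [(nat_lit 35404596), (nat_lit 22827826), (nat_lit 14696761)] (nat_lit 11270119)) p14_20_1 (nat_lit 3) (nat_lit 72) (nat_lit 73) = true := by decide +kernel
def p14_20_1_73 : pfC (piC [(nat_lit 35404596), (nat_lit 22827826), (nat_lit 14696761)] (nat_lit 11270119)) p14_20_1 (nat_lit 3) (nat_lit 73) (nat_lit 74) = true := by decide +kernel
def p14_20_1_74 : pfC (piC [(nat_lit 35404596), (nat_lit 22827826), (nat_lit 14696761)] (nat_lit 11270119)) p14_20_1 (nat_lit 3) (nat_lit 74) (nat_lit 75) = true := by decide +kernel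
def p14_20_1_75 : pfC (piC [(nat_lit 35404596), (nat_lit 22827826), (nat_lit 14696761)] (nat_lit 11270119)) p14_20_1 (nat_lit 3) (nat_lit 75) (nat_lit 76) = true := by decide +kernel
def p14_20_1_76 : pfC (piC [(nat_lit 35404596), (nat_lit 22827826), (nat_lit 14696761)] (nat_lit 11270119)) p14_20_1 (nat_lit 3) (nat_lit 76) (nat_lit 77) = true := by decide +kernel
def p14_20_1_77 : pfC (piC [(nat_lit 35404596), (nat_lit 22827826), (nat_lit 14696761)] (nat_lit 11270119)) p14_20_1 (nat_lit 3) (nat_lit 77) (nat_lit 78) = true := by decide +kernel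
def p14_20_1_78 : pfC (piC [(nat_lit 35404596), (nat_lit 22827826), (nat_lit 14696761)] (nat_lit 11270119)) p14_20_1 (nat_lit 3) (nat_lit 78) (nat_lit 79) = true := by decide +kernel
def p14_20_1_79 : pfC (piC [(nat_lit 35404596), (nat_lit 22827826), (nat_lit 14696761)] (nat_lit 11270119)) p14_20_1 (nat_lit 3) (nat_lit 79) (nat_lit 80) = true := by decide +kernel
def p14_20_1_80 : pfC (piC [(nat_lit 35404596), (nat_lit 22827826), (nat_lit 14696761)] (nat_lit 11270119)) p14_20_1 (nat_lit 3) (nat_lit 80) (nat_lit 81) = true := by decide +kernel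
def p14_20_1_81 : pfC (piC [(nat_lit 35404596), (nat_lit 22827826), (nat_lit 14696761)] (nat_lit 11270119)) p14_20_1 (nat_lit 3) (nat_lit 81) (nat_lit 82) = true := by decide +kernel
def p14_20_1_82 : pfC (piC [(nat_lit 35404596), (nat_lit 22827826), (nat_lit 14696761)] (nat_lit 11270119)) p14_20_1 (nat_lit 3) (nat_lit 82) (nat_lit 83) = true := by decide +kernel
def p14_20_1_83 : pfC (piC [(nat_lit 35404596), (nat_lit 22827826), (nat_lit 14696761)] (nat_lit 11270119)) p14_20_1 (nat_lit 3) (nat_lit 83) (nat_lit 84) = true := by decide +kernel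
def p14_20_1_84 : pfC (piC [(nat_lit 35404596), (nat_lit 22827826), (nat_lit 14696761)] (nat_lit 11270119)) p14_20_1 (nat_lit 3) (nat_lit 84) (nat_lit 85) = true := by decide +kernel
def p14_20_1_85 : pfC (piC [(nat_lit 35404596), (nat_lit 22827826), (nat_lit 14696761)] (nat_lit 11270119)) p14_20_1 (nat_lit 3) (nat_lit 85) (nat_lit 86) = true := by decide +kernel
def p14_20_1_86 : pfC (piC [(nat_lit 35404596), (nat_lit 22827826), (nat_lit 14696761)] (nat_lit 11270119)) p14_20_1 (nat_lit 3) (nat_lit 86) (nat_lit 87) = true := by decide +kernel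
def p14_20_1_87 : pfC (piC [(nat_lit 35404596), (nat_lit 22827826), (nat_lit 14696761)] (nat_lit 11270119)) p14_20_1 (nat_lit 3) (nat_lit 87) (nat_lit 88) = true := by decide +kernel
def p14_20_1_88 : pfC (piC [(nat_lit 35404596), (nat_lit 22827826), (nat_lit 14696761)] (nat_lit 11270119)) p14_20_1 (nat_lit 3) (nat_lit 88) (nat_lit 89) = true := by decide +kernel
def p14_20_1_89 : pfC (piC [(nat_lit 35404596), (nat_lit 22827826), (nat_lit 14696761)] (nat_lit 11270119)) p14_20_1 (nat_lit 3) (nat_lit 89) (nat_lit 90) = true := by decide +kernel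
def p14_20_1_90 : pfC (piC [(nat_lit 35404596), (nat_lit 22827826), (nat_lit 14696761)] (nat_lit 11270119)) p14_20_1 (nat_lit 3) (nat_lit 90) (nat_lit 91) = true := by decide +kernel
def p14_20_1_91 : pfC (piC [(nat_lit 35404596), (nat_lit 22827826), (nat_lit 14696761)] (nat_lit 11270119)) p14_20_1 (nat_lit 3) (nat_lit 91) (nat_lit 92) = true := by decide +kernel
def p14_20_1_92 : pfC (piC [(nat_lit 35404596), (nat_lit 22827826), (nat_lit 14696761)] (nat_lit 11270119)) p14_20_1 (nat_lit 3) (nat_lit 92) (nat_lit 93) = true := by decide +kernel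
def p14_20_1_93 : pfC (piC [(nat_lit 35404596), (nat_lit 22827826), (nat_lit 14696761)] (nat_lit 11270119)) p14_20_1 (nat_lit 3) (nat_lit 93) (nat_lit 94) = true := by decide +kernel
def p14_20_1_94 : pfC (piC [(nat_lit 35404596), (nat_lit 22827826), (nat_lit 14696761)] (nat_lit 11270119)) p14_20_1 (nat_lit 3) (nat_lit 94) (nat_lit 95) = true := by decide +kernel
def p14_20_1_95 : pfC (piC [(nat_lit 35404596), (nat_lit 22827826), (nat_lit 14696761)] (nat_lit 11270119)) p14_20_1 (nat_lit 3) (nat_lit 95) (nat_lit 96) = true := by decide +kernel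
def p14_20_1_96 : pfC (piC [(nat_lit 35404596), (nat_lit 22827826), (nat_lit 14696761)] (nat_lit 11270119)) p14_20_1 (nat_lit 3) (nat_lit 96) (nat_lit 97) = true := by decide +kernel
def p14_20_1_97 : pfC (piC [(nat_lit 35404596), (nat_lit 22827826), (nat_lit 14696761)] (nat_lit 11270119)) p14_20_1 (nat_lit 3) (nat_lit 97) (nat_lit 98) = true := by decide +kernel
def p14_20_1_98 : pfC (piC [(nat_lit 35404596), (nat_lit 22827826), (nat_lit 14696761)] (nat_lit 11270119)) p14_20_1 (nat_lit 3) (nat_lit 98) (nat_lit 99) = true := by decide +kernel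
def p14_20_1_99 : pfC (piC [(nat_lit 35404596), (nat_lit 22827826), (nat_lit 14696761)] (nat_lit 11270119)) p14_20_1 (nat_lit 3) (nat_lit 99) (nat_lit 100) = true := by decide +kernel
def p14_20_1_100 : pfC (piC [(nat_lit 35404596), (nat_lit 22827826), (nat_lit 14696761)] (nat_lit 11270119)) p14_20_1 (nat_lit 3) (nat_lit 100) (nat_lit 101) = true := by decide +kernel
def p14_20_1_101 : pfC (piC [(nat_lit 35404596), (nat_lit 22827826), (nat_lit 14696761)] (nat_lit 11270119)) p14_20_1 (nat_lit 3) (nat_lit 101) (nat_lit 102) = true := by decide +kernel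
def p14_20_1_102 : pfC (piC [(nat_lit 35404596), (nat_lit 22827826), (nat_lit 14696761)] (nat_lit 11270119)) p14_20_1 (nat_lit 3) (nat_lit 102) (nat_lit 103) = true := by decide +kernel
def p14_20_1_103 : pfC (piC [(nat_lit 35404596), (nat_lit 22827826), (nat_lit 14696761)] (nat_lit 11270119)) p14_20_1 (nat_lit 3) (nat_lit 103) (nat_lit 104) = true := by decide +kernel
def p14_20_1_104 : pfC (piC [(nat_lit 35404596), (nat_lit 22827826), (nat_lit 14696761)] (nat_lit 11270119)) p14_20_1 (nat_lit 3) (nat_lit 104) (nat_lit 105) = true := by decide +kernel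
def p14_20_1_105 : pfC (piC [(nat_lit 35404596), (nat_lit 22827826), (nat_lit 14696761)] (nat_lit 11270119)) p14_20_1 (nat_lit 3) (nat_lit 105) (nat_lit 106) = true := by decide +kernel
def p14_20_1_106 : pfC (piC [(nat_lit 35404596), (nat_lit 22827826), (nat_lit 14696761)] (nat_lit 11270119)) p14_20_1 (nat_lit 3) (nat_lit 106) (nat_lit 107) = true := by decide +kernel
def p14_20_1_107 : pfC (piC [(nat_lit 35404596), (nat_lit 22827826), (nat_lit 14696761)] (nat_lit 11270119)) p14_20_1 (nat_lit 3) (nat_lit 107) (nat_lit 108) = true := by decide +kernel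
def p14_20_1_108 : pfC (piC [(nat_lit 35404596), (nat_lit 22827826), (nat_lit 14696761)] (nat_lit 11270119)) p14_20_1 (nat_lit 3) (nat_lit 108) (nat_lit 109) = true := by decide +kernel
def p14_20_1_109 : pfC (piC [(nat_lit 35404596), (nat_lit 22827826), (nat_lit 14696761)] (nat_lit 11270119)) p14_20_1 (nat_lit 3) (nat_lit 109) (nat_lit 110) = true := by decide +kernel
def p14_20_1_110 : pfC (piC [(nat_lit 35404596), (nat_lit 22827826), (nat_lit 14696761)] (nat_lit 11270119)) p14_20_1 (nat_lit 3) (nat_lit 110) (nat_lit 111) = true := by decide +kernel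
def p14_20_1_111 : pfC (piC [(nat_lit 35404596), (nat_lit 22827826), (nat_lit 14696761)] (nat_lit 11270119)) p14_20_1 (nat_lit 3) (nat_lit 111) (nat_lit 112) = true := by decide +kernel
def p14_20_1_112 : pfC (piC [(nat_lit 35404596), (nat_lit 22827826), (nat_lit 14696761)] (nat_lit 11270119)) p14_20_1 (nat_lit 3) (nat_lit 112) (nat_lit 113) = true := by decide +kernel
def p14_20_1_113 : pfC (piC [(nat_lit 35404596), (nat_lit 22827826), (nat_lit 14696761)] (nat_lit 11270119)) p14_20_1 (nat_lit 3) (nat_lit 113) (nat_lit 114) = true := by decide +kernel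
def p14_20_1_114 : pfC (piC [(nat_lit 35404596), (nat_lit 22827826), (nat_lit 14696761)] (nat_lit 11270119)) p14_20_1 (nat_lit 3) (nat_lit 114) (nat_lit 115) = true := by decide +kernel
def p14_20_1_115 : pfC (piC [(nat_lit 35404596), (nat_lit 22827826), (nat_lit 14696761)] (nat_lit 11270119)) p14_20_1 (nat_lit 3) (nat_lit 115) (nat_lit 116) = true := by decide +kernel
def p14_20_1_116 : pfC (piC [(nat_lit 35404596), (nat_lit 22827826), (nat_lit 14696761)] (nat_lit 11270119)) p14_20_1 (nat_lit 3) (nat_lit 116) (nat_lit 117) = true := by decide +kernel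
def p14_20_1_117 : pfC (piC [(nat_lit 35404596), (nat_lit 22827826), (nat_lit 14696761)] (nat_lit 11270119)) p14_20_1 (nat_lit 3) (nat_lit 117) (nat_lit 118) = true := by decide +kernel
def p14_20_1_118 : pfC (piC [(nat_lit 35404596), (nat_lit 22827826), (nat_lit 14696761)] (nat_lit 11270119)) p14_20_1 (nat_lit 3) (nat_lit 118) (nat_lit 119) = true := by decide +kernel
def p14_20_1_119 : pfC (piC [(nat_lit 35404596), (nat_lit 22827826), (nat_lit 14696761)] (nat_lit 11270119)) p14_20_1 (nat_lit 3) (nat_lit 119) (nat_lit 120) = true := by decide +kernel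
def p14_20_1_120 : pfC (piC [(nat_lit 35404596), (nat_lit 22827826), (nat_lit 14696761)] (nat_lit 11270119)) p14_20_1 (nat_lit 3) (nat_lit 120) (nat_lit 121) = true := by decide +kernel
def p14_20_1_121 : pfC (piC [(nat_lit 35404596), (nat_lit 22827826), (nat_lit 14696761)] (nat_lit 11270119)) p14_20_1 (nat_lit 3) (nat_lit 121) (nat_lit 122) = true := by decide +kernel
def p14_20_1_122 : pfC (piC [(nat_lit 35404596), (nat_lit 22827826), (nat_lit 14696761)] (nat_lit 11270119)) p14_20_1 (nat_lit 3) (nat_lit 122) (nat_lit 123) = true := by decide +kernel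
def p14_20_1_123 : pfC (piC [(nat_lit 35404596), (nat_lit 22827826), (nat_lit 14696761)] (nat_lit 11270119)) p14_20_1 (nat_lit 3) (nat_lit 123) (nat_lit 124) = true := by decide +kernel
def p14_20_1_124 : pfC (piC [(nat_lit 35404596), (nat_lit 22827826), (nat_lit 14696761)] (nat_lit 11270119)) p14_20_1 (nat_lit 3) (nat_lit 124) (nat_lit 125) = true := by decide +kernel
def p14_20_1_125 : pfC (piC [(nat_lit 35404596), (nat_lit 22827826), (nat_lit 14696761)] (nat_lit 11270119)) p14_20_1 (nat_lit 3) (nat_lit 125) (nat_lit 126) = true := by decide +kernel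
def p14_20_1_126 : pfC (piC [(nat_lit 35404596), (nat_lit 22827826), (nat_lit 14696761)] (nat_lit 11270119)) p14_20_1 (nat_lit 3) (nat_lit 126) (nat_lit 127) = true := by decide +kernel
def p14_20_1_127 : pfC (piC [(nat_lit 35404596), (nat_lit 22827826), (nat_lit 14696761)] (nat_lit 11270119)) p14_20_1 (nat_lit 3) (nat_lit 127) (nat_lit 128) = true := by decide +kernel
def p14_20_1_128 : pfC (piC [(nat_lit 35404596), (nat_lit 22827826), (nat_lit 14696761)] (nat_lit 11270119)) p14_20_1 (nat_lit 3) (nat_lit 128) (nat_lit 129) = true := by decide +kernel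
def p14_20_1_129 : pfC (piC [(nat_lit 35404596), (nat_lit 22827826), (nat_lit 14696761)] (nat_lit 11270119)) p14_20_1 (nat_lit 3) (nat_lit 129) (nat_lit 130) = true := by decide +kernel
def p14_20_1_130 : pfC (piC [(nat_lit 35404596), (nat_lit 22827826), (nat_lit 14696761)] (nat_lit 11270119)) p14_20_1 (nat_lit 3) (nat_lit 130) (nat_lit 131) = true := by decide +kernel
def p14_20_1_131 : pfC (piC [(nat_lit 35404596), (nat_lit 22827826), (nat_lit 14696761)] (nat_lit 11270119)) p14_20_1 (nat_lit 3) (nat_lit 131) (nat_lit 132) = true := by decide +kernel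
def p14_20_1_132 : pfC (piC [(nat_lit 35404596), (nat_lit 22827826), (nat_lit 14696761)] (nat_lit 11270119)) p14_20_1 (nat_lit 3) (nat_lit 132) (nat_lit 133) = true := by decide +kernel
def p14_20_1_133 : pfC (piC [(nat_lit 35404596), (nat_lit 22827826), (nat_lit 14696761)] (nat_lit 11270119)) p14_20_1 (nat_lit 3) (nat_lit 133) (nat_lit 134) = true := by decide +kernel
def p14_20_1_134 : pfC (piC [(nat_lit 35404596), (nat_lit 22827826), (nat_lit 14696761)] (nat_lit 11270119)) p14_20_1 (nat_lit 3) (nat_lit 134) (nat_lit 135) = true := by decide +kernel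
def p14_20_1_135 : pfC (piC [(nat_lit 35404596), (nat_lit 22827826), (nat_lit 14696761)] (nat_lit 11270119)) p14_20_1 (nat_lit 3) (nat_lit 135) (nat_lit 136) = true := by decide +kernel
def p14_20_1_136 : pfC (piC [(nat_lit 35404596), (nat_lit 22827826), (nat_lit 14696761)] (nat_lit 11270119)) p14_20_1 (nat_lit 3) (nat_lit 136) (nat_lit 137) = true := by decide +kernel
def p14_20_1_137 : pfC (piC [(nat_lit 35404596), (nat_lit 22827826), (nat_lit 14696761)] (nat_lit 11270119)) p14_20_1 (nat_lit 3) (nat_lit 137) (nat_lit 138) = true := by decide +kernel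
def p14_20_1_138 : pfC (piC [(nat_lit 35404596), (nat_lit 22827826), (nat_lit 14696761)] (nat_lit 11270119)) p14_20_1 (nat_lit 3) (nat_lit 138) (nat_lit 139) = true := by decide +kernel
def p14_20_1_139 : pfC (piC [(nat_lit 35404596), (nat_lit 22827826), (nat_lit 14696761)] (nat_lit 11270119)) p14_20_1 (nat_lit 3) (nat_lit 139) (nat_lit 140) = true := by decide +kernel
def p14_20_1_140 : pfC (piC [(nat_lit 35404596), (nat_lit 22827826), (nat_lit 14696761)] (nat_lit 11270119)) p14_20_1 (nat_lit 3) (nat_lit 140) (nat_lit 141) = true := by decide +kernel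
def p14_20_1_141 : pfC (piC [(nat_lit 35404596), (nat_lit 22827826), (nat_lit 14696761)] (nat_lit 11270119)) p14_20_1 (nat_lit 3) (nat_lit 141) (nat_lit 142) = true := by decide +kernel
def p14_20_1_142 : pfC (piC [(nat_lit 35404596), (nat_lit 22827826), (nat_lit 14696761)] (nat_lit 11270119)) p14_20_1 (nat_lit 3) (nat_lit 142) (nat_lit 143) = true := by decide +kernel
def p14_20_1_143 : pfC (piC [(nat_lit 35404596), (nat_lit 22827826), (nat_lit 14696761)] (nat_lit 11270119)) p14_20_1 (nat_lit 3) (nat_lit 143) (nat_lit 144) = true := by decide +kernel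
def p14_20_1_144 : pfC (piC [(nat_lit 35404596), (nat_lit 22827826), (nat_lit 14696761)] (nat_lit 11270119)) p14_20_1 (nat_lit 3) (nat_lit 144) (nat_lit 145) = true := by decide +kernel
def p14_20_1_145 : pfC (piC [(nat_lit 35404596), (nat_lit 22827826), (nat_lit 14696761)] (nat_lit 11270119)) p14_20_1 (nat_lit 3) (nat_lit 145) (nat_lit 146) = true := by decide +kernel
def p14_20_1_146 : pfC (piC [(nat_lit 35404596), (nat_lit 22827826), (nat_lit 14696761)] (nat_lit 11270119)) p14_20_1 (nat_lit 3) (nat_lit 146) (nat_lit 147) = true := by decide +kernel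
def p14_20_1_147 : pfC (piC [(nat_lit 35404596), (nat_lit 22827826), (nat_lit 14696761)] (nat_lit 11270119)) p14_20_1 (nat_lit 3) (nat_lit 147) (nat_lit 148) = true := by decide +kernel
def p14_20_1_148 : pfC (piC [(nat_lit 35404596), (nat_lit 22827826), (nat_lit 14696761)] (nat_lit 11270119)) p14_20_1 (nat_lit 3) (nat_lit 148) (nat_lit 149) = true := by decide +kernel
def p14_20_1_149 : pfC (piC [(nat_lit 35404596), (nat_lit 22827826), (nat_lit 14696761)] (nat_lit 11270119)) p14_20_1 (nat_lit 3) (nat_lit 149) (nat_lit 150) = true := by decide +kernel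
def p14_20_1_150 : pfC (piC [(nat_lit 35404596), (nat_lit 22827826), (nat_lit 14696761)] (nat_lit 11270119)) p14_20_1 (nat_lit 3) (nat_lit 150) (nat_lit 151) = true := by decide +kernel
def p14_20_1_151 : pfC (piC [(nat_lit 35404596), (nat_lit 22827826), (nat_lit 14696761)] (nat_lit 11270119)) p14_20_1 (nat_lit 3) (nat_lit 151) (nat_lit 152) = true := by decide +kernel
def p14_20_1_152 : pfC (piC [(nat_lit 35404596), (nat_lit 22827826), (nat_lit 14696761)] (nat_lit 11270119)) p14_20_1 (nat_lit 3) (nat_lit 152) (nat_lit 153) = true := by decide +kernel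
def p14_20_1_153 : pfC (piC [(nat_lit 35404596), (nat_lit 22827826), (nat_lit 14696761)] (nat_lit 11270119)) p14_20_1 (nat_lit 3) (nat_lit 153) (nat_lit 154) = true := by decide +kernel
def p14_20_1_154 : pfC (piC [(nat_lit 35404596), (nat_lit 22827826), (nat_lit 14696761)] (nat_lit 11270119)) p14_20_1 (nat_lit 3) (nat_lit 154) (nat_lit 155) = true := by decide +kernel
def p14_20_1_155 : pfC (piC [(nat_lit 35404596), (nat_lit 22827826), (nat_lit 14696761)] (nat_lit 11270119)) p14_20_1 (nat_lit 3) (nat_lit 155) (nat_lit 156) = true := by decide +kernel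
def p14_20_1_156 : pfC (piC [(nat_lit 35404596), (nat_lit 22827826), (nat_lit 14696761)] (nat_lit 11270119)) p14_20_1 (nat_lit 3) (nat_lit 156) (nat_lit 157) = true := by decide +kernel
def p14_20_1_157 : pfC (piC [(nat_lit 35404596), (nat_lit 22827826), (nat_lit 14696761)] (nat_lit 11270119)) p14_20_1 (nat_lit 3) (nat_lit 157) (nat_lit 158) = true := by decide +kernel
def p14_20_1_158 : pfC (piC [(nat_lit 35404596), (nat_lit 22827826), (nat_lit 14696761)] (nat_lit 11270119)) p14_20_1 (nat_lit 3) (nat_lit 158) (nat_lit 159) = true := by decide +kernel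
def p14_20_1_159 : pfC (piC [(nat_lit 35404596), (nat_lit 22827826), (nat_lit 14696761)] (nat_lit 11270119)) p14_20_1 (nat_lit 3) (nat_lit 159) (nat_lit 160) = true := by decide +kernel
def p14_20_1_160 : pfC (piC [(nat_lit 35404596), (nat_lit 22827826), (nat_lit 14696761)] (nat_lit 11270119)) p14_20_1 (nat_lit 3) (nat_lit 160) (nat_lit 161) = true := by decide +kernel
def p14_20_1_161 : pfC (piC [(nat_lit 35404596), (nat_lit 22827826), (nat_lit 14696761)] (nat_lit 11270119)) p14_20_1 (nat_lit 3) (nat_lit 161) (nat_lit 162) = true := by decide +kernel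
def p14_20_1_162 : pfC (piC [(nat_lit 35404596), (nat_lit 22827826), (nat_lit 14696761)] (nat_lit 11270119)) p14_20_1 (nat_lit 3) (nat_lit 162) (nat_lit 163) = true := by decide +kernel
def p14_20_1_163 : pfC (piC [(nat_lit 35404596), (nat_lit 22827826), (nat_lit 14696761)] (nat_lit 11270119)) p14_20_1 (nat_lit 3) (nat_lit 163) (nat_lit 164) = true := by decide +kernel
def p14_20_1_164 : pfC (piC [(nat_lit 35404596), (nat_lit 22827826), (nat_lit 14696761)] (nat_lit 11270119)) p14_20_1 (nat_lit 3) (nat_lit 164) (nat_lit 165) = true := by decide +kernel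
def p14_20_1_165 : pfC (piC [(nat_lit 35404596), (nat_lit 22827826), (nat_lit 14696761)] (nat_lit 11270119)) p14_20_1 (nat_lit 3) (nat_lit 165) (nat_lit 166) = true := by decide +kernel
def p14_20_1_166 : pfC (piC [(nat_lit 35404596), (nat_lit 22827826), (nat_lit 14696761)] (nat_lit 11270119)) p14_20_1 (nat_lit 3) (nat_lit 166) (nat_lit 167) = true := by decide +kernel
def p14_20_1_167 : pfC (piC [(nat_lit 35404596), (nat_lit 22827826), (nat_lit 14696761)] (nat_lit 11270119)) p14_20_1 (nat_lit 3) (nat_lit 167) (nat_lit 168) = true := by decide +kernel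
def p14_20_1_168 : pfC (piC [(nat_lit 35404596), (nat_lit 22827826), (nat_lit 14696761)] (nat_lit 11270119)) p14_20_1 (nat_lit 3) (nat_lit 168) (nat_lit 169) = true := by decide +kernel
def p14_20_1_169 : pfC (piC [(nat_lit 35404596), (nat_lit 22827826), (nat_lit 14696761)] (nat_lit 11270119)) p14_20_1 (nat_lit 3) (nat_lit 169) (nat_lit 170) = true := by decide +kernel
def p14_20_1_170 : pfC (piC [(nat_lit 35404596), (nat_lit 22827826), (nat_lit 14696761)] (nat_lit 11270119)) p14_20_1 (nat_lit 3) (nat_lit 170) (nat_lit 171) = true := by decide +kernel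
def p14_20_1_171 : pfC (piC [(nat_lit 35404596), (nat_lit 22827826), (nat_lit 14696761)] (nat_lit 11270119)) p14_20_1 (nat_lit 3) (nat_lit 171) (nat_lit 172) = true := by decide +kernel
def p14_20_1_172 : pfC (piC [(nat_lit 35404596), (nat_lit 22827826), (nat_lit 14696761)] (nat_lit 11270119)) p14_20_1 (nat_lit 3) (nat_lit 172) (nat_lit 173) = true := by decide +kernel
def p14_20_1_173 : pfC (piC [(nat_lit 35404596), (nat_lit 22827826), (nat_lit 14696761)] (nat_lit 11270119)) p14_20_1 (nat_lit 3) (nat_lit 173) (nat_lit 174) = true := by decide +kernel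
def p14_20_1_174 : pfC (piC [(nat_lit 35404596), (nat_lit 22827826), (nat_lit 14696761)] (nat_lit 11270119)) p14_20_1 (nat_lit 3) (nat_lit 174) (nat_lit 175) = true := by decide +kernel
def p14_20_1_175 : pfC (piC [(nat_lit 35404596), (nat_lit 22827826), (nat_lit 14696761)] (nat_lit 11270119)) p14_20_1 (nat_lit 3) (nat_lit 175) (nat_lit 176) = true := by decide +kernel
def p14_20_1_176 : pfC (piC [(nat_lit 35404596), (nat_lit 22827826), (nat_lit 14696761)] (nat_lit 11270119)) p14_20_1 (nat_lit 3) (nat_lit 176) (nat_lit 177) = true := by decide +kernel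
def p14_20_1_177 : pfC (piC [(nat_lit 35404596), (nat_lit 22827826), (nat_lit 14696761)] (nat_lit 11270119)) p14_20_1 (nat_lit 3) (nat_lit 177) (nat_lit 178) = true := by decide +kernel
def p14_20_1_178 : pfC (piC [(nat_lit 35404596), (nat_lit 22827826), (nat_lit 14696761)] (nat_lit 11270119)) p14_20_1 (nat_lit 3) (nat_lit 178) (nat_lit 179) = true := by decide +kernel
def p14_20_1_179 : pfC (piC [(nat_lit 35404596), (nat_lit 22827826), (nat_lit 14696761)] (nat_lit 11270119)) p14_20_1 (nat_lit 3) (nat_lit 179) (nat_lit 180) = true := by decide +kernel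
def p14_20_1_180 : pfC (piC [(nat_lit 35404596), (nat_lit 22827826), (nat_lit 14696761)] (nat_lit 11270119)) p14_20_1 (nat_lit 3) (nat_lit 180) (nat_lit 181) = true := by decide +kernel
def p14_20_1_181 : pfC (piC [(nat_lit 35404596), (nat_lit 22827826), (nat_lit 14696761)] (nat_lit 11270119)) p14_20_1 (nat_lit 3) (nat_lit 181) (nat_lit 182) = true := by decide +kernel
def p14_20_1_182 : pfC (piC [(nat_lit 35404596), (nat_lit 22827826), (nat_lit 14696761)] (nat_lit 11270119)) p14_20_1 (nat_lit 3) (nat_lit 182) (nat_lit 183) = true := by decide +kernel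
def p14_20_1_183 : pfC (piC [(nat_lit 35404596), (nat_lit 22827826), (nat_lit 14696761)] (nat_lit 11270119)) p14_20_1 (nat_lit 3) (nat_lit 183) (nat_lit 184) = true := by decide +kernel
def p14_20_1_184 : pfC (piC [(nat_lit 35404596), (nat_lit 22827826), (nat_lit 14696761)] (nat_lit 11270119)) p14_20_1 (nat_lit 3) (nat_lit 184) (nat_lit 185) = true := by decide +kernel
def p14_20_1_185 : pfC (piC [(nat_lit 35404596), (nat_lit 22827826), (nat_lit 14696761)] (nat_lit 11270119)) p14_20_1 (nat_lit 3) (nat_lit 185) (nat_lit 186) = true := by decide +kernel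
def p14_20_1_186 : pfC (piC [(nat_lit 35404596), (nat_lit 22827826), (nat_lit 14696761)] (nat_lit 11270119)) p14_20_1 (nat_lit 3) (nat_lit 186) (nat_lit 187) = true := by decide +kernel
def p14_20_1_187 : pfC (piC [(nat_lit 35404596), (nat_lit 22827826), (nat_lit 14696761)] (nat_lit 11270119)) p14_20_1 (nat_lit 3) (nat_lit 187) (nat_lit 188) = true := by decide +kernel
def p14_20_1_188 : pfC (piC [(nat_lit 35404596), (nat_lit 22827826), (nat_lit 14696761)] (nat_lit 11270119)) p14_20_1 (nat_lit 3) (nat_lit 188) (nat_lit 189) = true := by decide +kernel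
def p14_20_1_189 : pfC (piC [(nat_lit 35404596), (nat_lit 22827826), (nat_lit 14696761)] (nat_lit 11270119)) p14_20_1 (nat_lit 3) (nat_lit 189) (nat_lit 190) = true := by decide +kernel
def p14_20_1_190 : pfC (piC [(nat_lit 35404596), (nat_lit 22827826), (nat_lit 14696761)] (nat_lit 11270119)) p14_20_1 (nat_lit 3) (nat_lit 190) (nat_lit 191) = true := by decide +kernel
def p14_20_1_191 : pfC (piC [(nat_lit 35404596), (nat_lit 22827826), (nat_lit 14696761)] (nat_lit 11270119)) p14_20_1 (nat_lit 3) (nat_lit 191) (nat_lit 192) = true := by decide +kernel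
def p14_20_1_192 : pfC (piC [(nat_lit 35404596), (nat_lit 22827826), (nat_lit 14696761)] (nat_lit 11270119)) p14_20_1 (nat_lit 3) (nat_lit 192) (nat_lit 193) = true := by decide +kernel
def p14_20_1_193 : pfC (piC [(nat_lit 35404596), (nat_lit 22827826), (nat_lit 14696761)] (nat_lit 11270119)) p14_20_1 (nat_lit 3) (nat_lit 193) (nat_lit 194) = true := by decide +kernel
def p14_20_1_194 : pfC (piC [(nat_lit 35404596), (nat_lit 22827826), (nat_lit 14696761)] (nat_lit 11270119)) p14_20_1 (nat_lit 3) (nat_lit 194) (nat_lit 195) = true := by decide +kernel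
def p14_20_1_195 : pfC (piC [(nat_lit 35404596), (nat_lit 22827826), (nat_lit 14696761)] (nat_lit 11270119)) p14_20_1 (nat_lit 3) (nat_lit 195) (nat_lit 196) = true := by decide +kernel
def p14_20_1_196 : pfC (piC [(nat_lit 35404596), (nat_lit 22827826), (nat_lit 14696761)] (nat_lit 11270119)) p14_20_1 (nat_lit 3) (nat_lit 196) (nat_lit 197) = true := by decide +kernel
def p14_20_1_197 : pfC (piC [(nat_lit 35404596), (nat_lit 22827826), (nat_lit 14696761)] (nat_lit 11270119)) p14_20_1 (nat_lit 3) (nat_lit 197) (nat_lit 198) = true := by decide +kernel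
def p14_20_1_198 : pfC (piC [(nat_lit 35404596), (nat_lit 22827826), (nat_lit 14696761)] (nat_lit 11270119)) p14_20_1 (nat_lit 3) (nat_lit 198) (nat_lit 199) = true := by decide +kernel
def p14_20_1_199 : pfC (piC [(nat_lit 35404596), (nat_lit 22827826), (nat_lit 14696761)] (nat_lit 11270119)) p14_20_1 (nat_lit 3) (nat_lit 199) (nat_lit 200) = true := by decide +kernel
def p14_20_1_200 : pfC (piC [(nat_lit 35404596), (nat_lit 22827826), (nat_lit 14696761)] (nat_lit 11270119)) p14_20_1 (nat_lit 3) (nat_lit 200) (nat_lit 201) = true := by decide +kernel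
def p14_20_1_201 : pfC (piC [(nat_lit 35404596), (nat_lit 22827826), (nat_lit 14696761)] (nat_lit 11270119)) p14_20_1 (nat_lit 3) (nat_lit 201) (nat_lit 202) = true := by decide +kernel
def p14_20_1_202 : pfC (piC [(nat_lit 35404596), (nat_lit 22827826), (nat_lit 14696761)] (nat_lit 11270119)) p14_20_1 (nat_lit 3) (nat_lit 202) (nat_lit 203) = true := by decide +kernel
def p14_20_1_203 : pfC (piC [(nat_lit 35404596), (nat_lit 22827826), (nat_lit 14696761)] (nat_lit 11270119)) p14_20_1 (nat_lit 3) (nat_lit 203) (nat_lit 204) = true := by decide +kernel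
def p14_20_1_204 : pfC (piC [(nat_lit 35404596), (nat_lit 22827826), (nat_lit 14696761)] (nat_lit 11270119)) p14_20_1 (nat_lit 3) (nat_lit 204) (nat_lit 205) = true := by decide +kernel
def p14_20_1_205 : pfC (piC [(nat_lit 35404596), (nat_lit 22827826), (nat_lit 14696761)] (nat_lit 11270119)) p14_20_1 (nat_lit 3) (nat_lit 205) (nat_lit 206) = true := by decide +kernel
theorem p14_20_1_T : PfS (PiF n14_20.reverse (nat_lit 11270119)) p14_20_1 (nat_lit 3) [] 0 :=
  pftab_of (los := [(nat_lit 35404596), (nat_lit 22827826), (nat_lit 14696761)]) (by decide +kernel) (hi := (nat_lit 206)) (PfP.trans (PfP.trans (PfP.trans (PfP.trans (PfP.trans (PfP.trans (PfP.trans (PfP.trans (PfP.trans (PfP.trans (PfP.trans (PfP.trans (PfP.trans (PfP.trans (PfP.trans (PfP.trans (PfP.trans (PfP.trans (PfP.trans (PfP.trans (PfP.trans (PfP.trans (PfP.trans (PfP.trans (PfP.trans (PfP.trans (PfP.trans (PfP.trans (PfP.trans (PfP.trans (PfP.trans (PfP.trans (PfP.trans (PfP.trans (PfP.trans (PfP.trans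 (PfP.trans (PfP.trans (PfP.trans (PfP.trans (PfP.trans (PfP.trans (PfP.trans (PfP.trans (PfP.trans (PfP.trans (PfP.trans (PfP.trans (PfP.trans (PfP.trans (PfP.trans (PfP.trans (PfP.trans (PfP.trans (PfP.trans (PfP.trans (PfP.trans (PfP.trans (PfP.trans (PfP.trans (PfP.trans (PfP.trans (PfP.trans (PfP.trans (PfP.trans (PfP.trans (PfP.trans (PfP.trans (PfP.trans (PfP.trans (PfP.trans (PfP.trans (PfP.trans (PfP.trans (PfP.trans (PfP.trans (PfP.trans (PfP.trans (PfP.trans (PfP.trans (PfP.trans (PfP.trans (PfP.trans (PfP.trans (PfP.trans (PfP.trans (PfP.trans (PfP.trans (PfP.trans (PfP.trans (PfP.trans (PfP.trans (PfP.trans (PfP.trans (PfP.trans (PfP.trans (PfP.trans (PfP.trans (PfP.trans (PfP.trans (PfP.trans (PfP.trans (PfP.trans (PfP.trans (PfP.trans (PfP.trans (PfP.trans (PfP.trans (PfP.trans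
 (PfP.trans (PfP.trans (PfP.trans (PfP.trans (PfP.trans (PfP.trans (PfP.trans (PfP.trans (PfP.trans (PfP.trans (PfP.trans (PfP.trans (PfP.trans (PfP.trans (PfP.trans (PfP.trans (PfP.trans (PfP.trans (PfP.trans (PfP.trans (PfP.trans (PfP.trans (PfP.trans (PfP.trans (PfP.trans (PfP.trans (PfP.trans (PfP.trans (PfP.trans (PfP.trans (PfP.trans (PfP.trans (PfP.trans (PfP.trans (PfP.trans (PfP.trans (PfP.trans (PfP.trans (PfP.trans (PfP.trans (PfP.trans (PfP.trans (PfP.trans (PfP.trans (PfP.trans (PfP.trans (PfP.trans (PfP.trans (PfP.trans (PfP.trans (PfP.trans (PfP.trans (PfP.trans (PfP.trans (PfP.trans (PfP.trans (PfP.trans (PfP.trans (PfP.trans (PfP.trans (PfP.trans (PfP.trans (PfP.trans (PfP.trans (PfP.trans (PfP.trans (PfP.trans (PfP.trans (PfP.trans (PfP.trans (PfP.trans (PfP.trans (PfP.trans (PfP.trans (PfP.trans (PfP.trans (PfP.trans (PfP.trans (PfP.trans (PfP.trans (PfP.trans (PfP.trans (PfP.trans (PfP.trans (PfP.trans (PfP.trans (PfP.trans (PfP.trans (PfP.trans (PfP.trans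 (PfP.trans (PfP.trans (PfP.trans (PfP.trans (PfP.trans (PfP.trans (pfC_sound p14_20_1_0) (pfC_sound p14_20_1_1)) (pfC_sound p14_20_1_2)) (pfC_sound p14_20_1_3)) (pfC_sound p14_20_1_4)) (pfC_sound p14_20_1_5))
 (pfC_sound p14_20_1_6)) (pfC_sound p14_20_1_7)) (pfC_sound p14_20_1_8)) (pfC_sound p14_20_1_9)) (pfC_sound p14_20_1_10)) (pfC_sound p14_20_1_11)) (pfC_sound p14_20_1_12)) (pfC_sound p14_20_1_13)) (pfC_sound p14_20_1_14)) (pfC_sound p14_20_1_15)) (pfC_sound p14_20_1_16)) (pfC_sound p14_20_1_17)) (pfC_sound p14_20_1_18)) (pfC_sound p14_20_1_19)) (pfC_sound p14_20_1_20)) (pfC_sound p14_20_1_21)) (pfC_sound p14_20_1_22)) (pfC_sound p14_20_1_23)) (pfC_sound p14_20_1_24)) (pfC_sound p14_20_1_25)) (pfC_sound p14_20_1_26)) (pfC_sound p14_20_1_27)) (pfC_sound p14_20_1_28)) (pfC_sound p14_20_1_29)) (pfC_sound p14_20_1_30)) (pfC_sound p14_20_1_31)) (pfC_sound p14_20_1_32)) (pfC_sound p14_20_1_33)) (pfC_sound p14_20_1_34)) (pfC_sound p14_20_1_35)) (pfC_sound p14_20_1_36))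 (pfC_sound p14_20_1_37)) (pfC_sound p14_20_1_38)) (pfC_sound p14_20_1_39)) (pfC_sound p14_20_1_40)) (pfC_sound p14_20_1_41)) (pfC_sound p14_20_1_42)) (pfC_sound p14_20_1_43)) (pfC_sound p14_20_1_44)) (pfC_sound p14_20_1_45)) (pfC_sound p14_20_1_46)) (pfC_sound p14_20_1_47)) (pfC_sound p14_20_1_48)) (pfC_sound p14_20_1_49)) (pfC_sound p14_20_1_50)) (pfC_sound p14_20_1_51)) (pfC_sound p14_20_1_52)) (pfC_sound p14_20_1_53))
 (pfC_sound p14_20_1_54)) (pfC_sound p14_20_1_55)) (pfC_sound p14_20_1_56)) (pfC_sound p14_20_1_57)) (pfC_sound p14_20_1_58)) (pfC_sound p14_20_1_59)) (pfC_sound p14_20_1_60)) (pfC_sound p14_20_1_61)) (pfC_sound p14_20_1_62)) (pfC_sound p14_20_1_63)) (pfC_sound p14_20_1_64)) (pfC_sound p14_20_1_65)) (pfC_sound p14_20_1_66)) (pfC_sound p14_20_1_67)) (pfC_sound p14_20_1_68)) (pfC_sound p14_20_1_69)) (pfC_sound p14_20_1_70)) (pfC_sound p14_20_1_71)) (pfC_sound p14_20_1_72)) (pfC_sound p14_20_1_73)) (pfC_sound p14_20_1_74)) (pfC_sound p14_20_1_75)) (pfC_sound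 p14_20_1_76)) (pfC_sound p14_20_1_77)) (pfC_sound p14_20_1_78)) (pfC_sound p14_20_1_79)) (pfC_sound p14_20_1_80)) (pfC_sound p14_20_1_81)) (pfC_sound p14_20_1_82)) (pfC_sound p14_20_1_83)) (pfC_sound p14_20_1_84)) (pfC_sound p14_20_1_85)) (pfC_sound p14_20_1_86)) (pfC_sound p14_20_1_87)) (pfC_sound p14_20_1_88)) (pfC_sound p14_20_1_89)) (pfC_sound p14_20_1_90)) (pfC_sound p14_20_1_91)) (pfC_sound p14_20_1_92)) (pfC_sound p14_20_1_93)) (pfC_sound p14_20_1_94)) (pfC_sound p14_20_1_95)) (pfC_sound p14_20_1_96)) (pfC_sound p14_20_1_97)) (pfC_sound p14_20_1_98)) (pfC_sound p14_20_1_99)) (pfC_sound p14_20_1_100)) (pfC_sound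
 p14_20_1_101)) (pfC_sound p14_20_1_102)) (pfC_sound p14_20_1_103)) (pfC_sound p14_20_1_104)) (pfC_sound p14_20_1_105)) (pfC_sound p14_20_1_106)) (pfC_sound p14_20_1_107)) (pfC_sound p14_20_1_108)) (pfC_sound p14_20_1_109)) (pfC_sound p14_20_1_110)) (pfC_sound p14_20_1_111)) (pfC_sound p14_20_1_112)) (pfC_sound p14_20_1_113)) (pfC_sound p14_20_1_114)) (pfC_sound p14_20_1_115)) (pfC_sound p14_20_1_116)) (pfC_sound p14_20_1_117)) (pfC_sound p14_20_1_118)) (pfC_sound p14_20_1_119)) (pfC_sound p14_20_1_120)) (pfC_sound p14_20_1_121)) (pfC_sound p14_20_1_122)) (pfC_sound p14_20_1_123)) (pfC_sound p14_20_1_124)) (pfC_sound p14_20_1_125)) (pfC_sound p14_20_1_126)) (pfC_sound p14_20_1_127)) (pfC_sound p14_20_1_128)) (pfC_sound p14_20_1_129)) (pfC_sound p14_20_1_130)) (pfC_sound p14_20_1_131)) (pfC_sound p14_20_1_132)) (pfC_sound p14_20_1_133)) (pfC_sound p14_20_1_134)) (pfC_sound p14_20_1_135)) (pfC_sound p14_20_1_136)) (pfC_sound p14_20_1_137)) (pfC_sound p14_20_1_138)) (pfC_sound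 p14_20_1_139)) (pfC_sound p14_20_1_140)) (pfC_sound p14_20_1_141)) (pfC_sound p14_20_1_142)) (pfC_sound p14_20_1_143)) (pfC_sound p14_20_1_144)) (pfC_sound p14_20_1_145)) (pfC_sound p14_20_1_146)) (pfC_sound
 p14_20_1_147)) (pfC_sound p14_20_1_148)) (pfC_sound p14_20_1_149)) (pfC_sound p14_20_1_150)) (pfC_sound p14_20_1_151)) (pfC_sound p14_20_1_152)) (pfC_sound p14_20_1_153)) (pfC_sound p14_20_1_154)) (pfC_sound p14_20_1_155)) (pfC_sound p14_20_1_156)) (pfC_sound p14_20_1_157)) (pfC_sound p14_20_1_158)) (pfC_sound p14_20_1_159)) (pfC_sound p14_20_1_160)) (pfC_sound p14_20_1_161)) (pfC_sound p14_20_1_162)) (pfC_sound p14_20_1_163)) (pfC_sound p14_20_1_164)) (pfC_sound p14_20_1_165)) (pfC_sound p14_20_1_166)) (pfC_sound p14_20_1_167)) (pfC_sound p14_20_1_168)) (pfC_sound p14_20_1_169)) (pfC_sound p14_20_1_170)) (pfC_sound p14_20_1_171)) (pfC_sound p14_20_1_172)) (pfC_sound p14_20_1_173)) (pfC_sound p14_20_1_174)) (pfC_sound p14_20_1_175)) (pfC_sound p14_20_1_176)) (pfC_sound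 p14_20_1_177)) (pfC_sound p14_20_1_178)) (pfC_sound p14_20_1_179)) (pfC_sound p14_20_1_180)) (pfC_sound p14_20_1_181)) (pfC_sound p14_20_1_182)) (pfC_sound p14_20_1_183)) (pfC_sound p14_20_1_184)) (pfC_sound p14_20_1_185)) (pfC_sound p14_20_1_186)) (pfC_sound p14_20_1_187)) (pfC_sound p14_20_1_188)) (pfC_sound p14_20_1_189)) (pfC_sound p14_20_1_190)) (pfC_sound p14_20_1_191)) (pfC_sound p14_20_1_192)) (pfC_sound
 p14_20_1_193)) (pfC_sound p14_20_1_194)) (pfC_sound p14_20_1_195)) (pfC_sound p14_20_1_196)) (pfC_sound p14_20_1_197)) (pfC_sound p14_20_1_198)) (pfC_sound p14_20_1_199)) (pfC_sound p14_20_1_200)) (pfC_sound p14_20_1_201)) (pfC_sound p14_20_1_202)) (pfC_sound p14_20_1_203)) (pfC_sound p14_20_1_204)) (pfC_sound p14_20_1_205)) (by decide +kernel)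

def z14_20_1 : zOK yB14_20 (nat_lit 1) (nat_lit 400) (nat_lit 600) (nat_lit 11270119) (nat_lit 7113113) = true := by decide +kernel
def g14_20_1 : gOK yB14_20.x P14_20 (nat_lit 1370) (q14_20 :: r14_20) (nat_lit 1) (nat_lit 400) (nat_lit 2) (nat_lit 600) (nat_lit 11000000) (nat_lit 17850000) (nat_lit 12712500) (nat_lit 12712500) [(nat_lit 800), (nat_lit 1600)] = true := by decide +kernel
def v14_20_1 : ivC P14_20 s14_20 w14_20 n14_20 (nat_lit 3) (nat_lit 4860) (nat_lit 1) (nat_lit 400) f184_0_400 f192_0_400 (nat_lit 2) (nat_lit 600) f184_0_600 f192_0_600 (nat_lit 11270119) (nat_lit 7113113) p14_20_1 = true := by decide +kernel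
def p14_20_2 : PF := (PF.cons (PF.cons (PF.cons (PF.leaf (nat_lit 2503828) (nat_lit 13439366) (nat_lit 53669446) (nat_lit 13439366) [(nat_lit 0), (nat_lit 0), (nat_lit 0)]) (PF.cons (PF.leaf (nat_lit 2746240) (nat_lit 456072) (nat_lit 53216081) (nat_lit 13436659) [(nat_lit 456072), (nat_lit 0), (nat_lit 0)]) (PF.cons (PF.leaf (nat_lit 3030299) (nat_lit 494820) (nat_lit 52689625) (nat_lit 13429545) [(nat_lit 494820), (nat_lit 0), (nat_lit 0)]) (PF.cons (PF.leaf (nat_lit 3347646) (nat_lit 528675) (nat_lit 52105879) (nat_lit 13416907) [(nat_lit 528675), (nat_lit 0), (nat_lit 0)]) (PF.cons (PF.leaf (nat_lit 3692663) (nat_lit 558640) (nat_lit 51476327) (nat_lit 13397924) [(nat_lit 558640), (nat_lit 0), (nat_lit 0)]) (PF.cons (PF.leaf (nat_lit 4060926) (nat_lit 585358) (nat_lit 50809984) (nat_lit 13372033) [(nat_lit 585358), (nat_lit 0), (nat_lit 0)]) (PF.cons (PF.leaf (nat_lit 4448770) (nat_lit 609276) (nat_lit 50114254) (nat_lit 13338896) [(nat_lit 609276), (nat_lit 0),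 (nat_lit 0)]) (PF.cons (PF.leaf (nat_lit 4853046) (nat_lit 630723) (nat_lit 49395384) (nat_lit 13298361) [(nat_lit 630723), (nat_lit 0), (nat_lit 0)]) (PF.cons (PF.leaf (nat_lit 5271059) (nat_lit 649955) (nat_lit 48658732) (nat_lit
 13250437) [(nat_lit 649955), (nat_lit 0), (nat_lit 0)]) (PF.cons (PF.leaf (nat_lit 5700340) (nat_lit 667178) (nat_lit 47908945) (nat_lit 13195258) [(nat_lit 667178), (nat_lit 0), (nat_lit 0)]) (PF.cons (PF.leaf (nat_lit 6138746) (nat_lit 682568) (nat_lit 47150069) (nat_lit 13133063) [(nat_lit 682568), (nat_lit 0), (nat_lit 0)]) (PF.cons (PF.leaf (nat_lit 6584325) (nat_lit 696273) (nat_lit 46385638) (nat_lit 13064167) [(nat_lit 696273), (nat_lit 0), (nat_lit 0)]) (PF.cons (PF.leaf (nat_lit 7035407) (nat_lit 708427) (nat_lit 45618738) (nat_lit 12988946) [(nat_lit 708427), (nat_lit 0), (nat_lit 0)]) (PF.cons (PF.leaf (nat_lit 7490374) (nat_lit 719149) (nat_lit 44852060) (nat_lit 12907815) [(nat_lit 719149), (nat_lit 0), (nat_lit 0)]) (PF.cons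 (PF.leaf (nat_lit 7947863) (nat_lit 728546) (nat_lit 44087943) (nat_lit 12821217) [(nat_lit 728546), (nat_lit 0), (nat_lit 0)]) (PF.cons (PF.leaf (nat_lit 8406655) (nat_lit 736719) (nat_lit 43328412) (nat_lit 12729609) [(nat_lit 736719), (nat_lit 0), (nat_lit 0)]) (PF.cons PF.nil (PF.cons PF.nil PF.nil)))))))))))))))))) (PF.cons (PF.cons (PF.leaf (nat_lit 3317254) (nat_lit 2161938) (nat_lit 51559722) (nat_lit 13387152) [(nat_lit 0), (nat_lit
 2161938), (nat_lit 0)]) (PF.cons (PF.leaf (nat_lit 3624117) (nat_lit 544792) (nat_lit 50989952) (nat_lit 13366125) [(nat_lit 544792), (nat_lit 2207942), (nat_lit 0)]) (PF.cons (PF.leaf (nat_lit 3960590) (nat_lit 573099) (nat_lit 50372436) (nat_lit 13338588) [(nat_lit 573099), (nat_lit 2251588), (nat_lit 0)]) (PF.cons (PF.leaf (nat_lit 4320982) (nat_lit 598167) (nat_lit 49717994) (nat_lit 13304209) [(nat_lit 598167), (nat_lit 2292107), (nat_lit 0)]) (PF.cons (PF.leaf (nat_lit 4701133) (nat_lit 620496) (nat_lit 49034866) (nat_lit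 13262817) [(nat_lit 620496), (nat_lit 2329143), (nat_lit 0)]) (PF.cons (PF.leaf (nat_lit 5097674) (nat_lit 640436) (nat_lit 48329674) (nat_lit 13214387) [(nat_lit 640436), (nat_lit 2362566), (nat_lit 0)]) (PF.cons (PF.leaf (nat_lit 5507742) (nat_lit 658252) (nat_lit 47607905) (nat_lit 13159019) [(nat_lit 658252), (nat_lit 2392370), (nat_lit 0)]) (PF.cons (PF.leaf (nat_lit 5928862) (nat_lit 674152) (nat_lit 46874202) (nat_lit 13096911) [(nat_lit 674152), (nat_lit 2418630), (nat_lit 0)]) (PF.cons (PF.leaf (nat_lit 6358861) (nat_lit 688309) (nat_lit 46132533) (nat_lit 13028342) [(nat_lit 688309), (nat_lit 2441465), (nat_lit 0)]) (PF.cons (PF.leaf (nat_lit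
 6795845) (nat_lit 700869) (nat_lit 45386317) (nat_lit 12953649) [(nat_lit 700869), (nat_lit 2461020), (nat_lit 0)]) (PF.cons (PF.leaf (nat_lit 7238080) (nat_lit 711963) (nat_lit 44638503) (nat_lit 12873217) [(nat_lit 711963), (nat_lit 2477461), (nat_lit 0)]) (PF.cons (PF.leaf (nat_lit 7684083) (nat_lit 721704) (nat_lit 43891639) (nat_lit 12787457) [(nat_lit 721704), (nat_lit 2490961), (nat_lit 0)]) (PF.cons (PF.leaf (nat_lit 8132505) (nat_lit 730199) (nat_lit 43147923) (nat_lit 12696797) [(nat_lit 730199), (nat_lit 2501696), (nat_lit 0)]) (PF.cons (PF.leaf (nat_lit 8582139) (nat_lit 737542) (nat_lit 42409244) (nat_lit 12601677) [(nat_lit 737542), (nat_lit 2509843), (nat_lit 0)]) (PF.cons PF.nil (PF.cons PF.nil PF.nil)))))))))))))))) (PF.cons (PF.cons (PF.leaf (nat_lit 4227725) (nat_lit 2290266) (nat_lit 49263702) (nat_lit 13264576) [(nat_lit 0), (nat_lit 2290266), (nat_lit 0)]) (PF.cons (PF.leaf (nat_lit 4577550) (nat_lit 608187) (nat_lit 48628326) (nat_lit 13223079)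 [(nat_lit 608187), (nat_lit 2324609), (nat_lit 0)]) (PF.cons (PF.leaf (nat_lit 4948361) (nat_lit 629320) (nat_lit 47963162) (nat_lit 13174717) [(nat_lit 629320), (nat_lit 2356146), (nat_lit 0)]) (PF.cons (PF.leaf
 (nat_lit 5336009) (nat_lit 648060) (nat_lit 47275776) (nat_lit 13119609) [(nat_lit 648060), (nat_lit 2384622), (nat_lit 0)]) (PF.cons (PF.leaf (nat_lit 5737351) (nat_lit 664709) (nat_lit 46572119) (nat_lit 13057951) [(nat_lit 664709), (nat_lit 2409952), (nat_lit 0)]) (PF.cons (PF.leaf (nat_lit 6149762) (nat_lit 679493) (nat_lit 45857038) (nat_lit 12990005) [(nat_lit 679493), (nat_lit 2432151), (nat_lit 0)]) (PF.cons (PF.leaf (nat_lit 6571026) (nat_lit 692594) (nat_lit 45134569) (nat_lit 12916090) [(nat_lit 692594), (nat_lit 2451293), (nat_lit 0)]) (PF.cons (PF.leaf (nat_lit 6999167) (nat_lit 704164) (nat_lit 44408113) (nat_lit 12836566) [(nat_lit 704164), (nat_lit 2467490), (nat_lit 0)]) (PF.cons (PF.leaf (nat_lit 7432522) (nat_lit 714333) (nat_lit 43680563)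 (nat_lit 12751822) [(nat_lit 714333), (nat_lit 2480877), (nat_lit 0)]) (PF.cons (PF.leaf (nat_lit 7869571) (nat_lit 723217) (nat_lit 42954384) (nat_lit 12662267) [(nat_lit 723217), (nat_lit 2491602), (nat_lit 0)]) (PF.cons (PF.leaf (nat_lit 8308993) (nat_lit 730917) (nat_lit 42231680) (nat_lit 12568318) [(nat_lit 730917), (nat_lit 2499818), (nat_lit 0)]) (PF.cons (PF.leaf (nat_lit 8749623) (nat_lit 737528) (nat_lit 41514243)
 (nat_lit 12470393) [(nat_lit 737528), (nat_lit 2505683), (nat_lit 0)]) (PF.cons PF.nil (PF.cons PF.nil PF.nil)))))))))))))) (PF.cons (PF.cons (PF.leaf (nat_lit 5192414) (nat_lit 2377681) (nat_lit 46900125) (nat_lit 13075642) [(nat_lit 0), (nat_lit 2377681), (nat_lit 0)]) (PF.cons (PF.leaf (nat_lit 5569477) (nat_lit 653740) (nat_lit 46234715) (nat_lit 13015105) [(nat_lit 653740), (nat_lit 2401750), (nat_lit 0)]) (PF.cons (PF.leaf (nat_lit 5961098) (nat_lit 669464) (nat_lit 45552289) (nat_lit 12948301) [(nat_lit 669464), (nat_lit 2423097), (nat_lit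 0)]) (PF.cons (PF.leaf (nat_lit 6364142) (nat_lit 683331) (nat_lit 44858199) (nat_lit 12875575) [(nat_lit 683331), (nat_lit 2441681), (nat_lit 0)]) (PF.cons (PF.leaf (nat_lit 6776203) (nat_lit 695546) (nat_lit 44156727) (nat_lit 12797292) [(nat_lit 695546), (nat_lit 2457535), (nat_lit 0)]) (PF.cons (PF.leaf (nat_lit 7195272) (nat_lit 706271) (nat_lit 43451387) (nat_lit 12713841) [(nat_lit 706271), (nat_lit 2470742), (nat_lit 0)]) (PF.cons (PF.leaf (nat_lit 7619587) (nat_lit 715643) (nat_lit 42745099) (nat_lit 12625620) [(nat_lit 715643), (nat_lit 2481409), (nat_lit 0)]) (PF.cons (PF.leaf (nat_lit 8047647) (nat_lit 723781) (nat_lit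
 42040311) (nat_lit 12533039) [(nat_lit 723781), (nat_lit 2489663), (nat_lit 0)]) (PF.cons (PF.leaf (nat_lit 8478129) (nat_lit 730788) (nat_lit 41339085) (nat_lit 12436504) [(nat_lit 730788), (nat_lit 2495638), (nat_lit 0)]) (PF.cons (PF.leaf (nat_lit 8909870) (nat_lit 736756) (nat_lit 40643160) (nat_lit 12336419) [(nat_lit 736756), (nat_lit 2499474), (nat_lit 0)]) (PF.cons PF.nil (PF.cons PF.nil PF.nil)))))))))))) (PF.cons (PF.cons (PF.leaf (nat_lit 6180516) (nat_lit 2432300) (nat_lit 44548627) (nat_lit 12830982) [(nat_lit 0), (nat_lit 2432300), (nat_lit 0)]) (PF.cons (PF.leaf (nat_lit 6573123) (nat_lit 685766) (nat_lit 43877892) (nat_lit 12754514) [(nat_lit 685766), (nat_lit 2447659), (nat_lit 0)]) (PF.cons (PF.leaf (nat_lit 6975434) (nat_lit 697261) (nat_lit 43199142) (nat_lit 12672805) [(nat_lit 697261), (nat_lit 2460585), (nat_lit 0)]) (PF.cons (PF.leaf (nat_lit 7385053) (nat_lit 707282) (nat_lit 42516166) (nat_lit 12586282) [(nat_lit 707282), (nat_lit 2471129),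 (nat_lit 0)]) (PF.cons (PF.leaf (nat_lit 7800139) (nat_lit 715980) (nat_lit 41832023) (nat_lit 12495364) [(nat_lit 715980), (nat_lit 2479376), (nat_lit 0)]) (PF.cons (PF.leaf (nat_lit 8219129) (nat_lit 723479) (nat_lit
 41149222) (nat_lit 12400465) [(nat_lit 723479), (nat_lit 2485432), (nat_lit 0)]) (PF.cons (PF.leaf (nat_lit 8640672) (nat_lit 729886) (nat_lit 40469839) (nat_lit 12301990) [(nat_lit 729886), (nat_lit 2489415), (nat_lit 0)]) (PF.cons (PF.leaf (nat_lit 9063619) (nat_lit 735297) (nat_lit 39795600) (nat_lit 12200331) [(nat_lit 735297), (nat_lit 2491450), (nat_lit 0)]) (PF.cons (PF.leaf (nat_lit 9486949) (nat_lit 739795) (nat_lit 39127939) (nat_lit 12095866) [(nat_lit 739795), (nat_lit 2491661), (nat_lit 0)]) (PF.cons PF.nil PF.nil)))))))))) (PF.cons (PF.cons (PF.leaf (nat_lit 7169963) (nat_lit 2460785) (nat_lit 42261531) (nat_lit 12543353) [(nat_lit 0), (nat_lit 2460785), (nat_lit 0)]) (PF.cons (PF.leaf (nat_lit 7569472) (nat_lit 707270) (nat_lit 41602161)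 (nat_lit 12454579) [(nat_lit 707270), (nat_lit 2468960), (nat_lit 0)]) (PF.cons (PF.leaf (nat_lit 7975035) (nat_lit 715413) (nat_lit 40941002) (nat_lit 12361700) [(nat_lit 715413), (nat_lit 2475056), (nat_lit 0)]) (PF.cons (PF.leaf (nat_lit 8384807) (nat_lit 722376) (nat_lit 40280724) (nat_lit 12265145) [(nat_lit 722376), (nat_lit 2479162), (nat_lit 0)]) (PF.cons (PF.leaf (nat_lit 8797372) (nat_lit 728276) (nat_lit 39623486)
 (nat_lit 12165324) [(nat_lit 728276), (nat_lit 2481379), (nat_lit 0)]) (PF.cons (PF.leaf (nat_lit 9211548) (nat_lit 733209) (nat_lit 38971049) (nat_lit 12062625) [(nat_lit 733209), (nat_lit 2481817), (nat_lit 0)]) (PF.cons (PF.leaf (nat_lit 9626279) (nat_lit 737262) (nat_lit 38324861) (nat_lit 11957417) [(nat_lit 737262), (nat_lit 2480591), (nat_lit 0)]) (PF.cons PF.nil PF.nil)))))))) (PF.cons (PF.cons (PF.leaf (nat_lit 8145350) (nat_lit 2468697) (nat_lit 40071457) (nat_lit 12225170) [(nat_lit 0), (nat_lit 2468697), (nat_lit 0)]) (PF.cons (PF.leaf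 (nat_lit 8545487) (nat_lit 720530) (nat_lit 39434239) (nat_lit 12127585) [(nat_lit 720530), (nat_lit 2471076), (nat_lit 0)]) (PF.cons (PF.leaf (nat_lit 8948967) (nat_lit 726010) (nat_lit 38799428) (nat_lit 12026974) [(nat_lit 726010), (nat_lit 2471731), (nat_lit 0)]) (PF.cons (PF.leaf (nat_lit 9354344) (nat_lit 730543) (nat_lit 38168885) (nat_lit 11923729) [(nat_lit 730543), (nat_lit 2470761), (nat_lit 0)]) (PF.cons (PF.leaf (nat_lit 9760545) (nat_lit 734220) (nat_lit 37544112) (nat_lit 11818217) [(nat_lit 734220), (nat_lit 2468266), (nat_lit 0)]) (PF.cons PF.nil PF.nil)))))) (PF.cons (PF.cons (PF.leaf (nat_lit 9096355) (nat_lit 2460650)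
 (nat_lit 37996929) (nat_lit 11887327) [(nat_lit 0), (nat_lit 2460650), (nat_lit 0)]) (PF.cons (PF.leaf (nat_lit 9492677) (nat_lit 727340) (nat_lit 37388383) (nat_lit 11783999) [(nat_lit 727340), (nat_lit 2458441), (nat_lit 0)]) (PF.cons (PF.leaf (nat_lit 9890338) (nat_lit 730708) (nat_lit 36784968) (nat_lit 11678589) [(nat_lit 730708), (nat_lit 2454834), (nat_lit 0)]) (PF.cons (PF.leaf (nat_lit 10288197) (nat_lit 733316) (nat_lit 36187965) (nat_lit 11571437) [(nat_lit 733316), (nat_lit 2449923), (nat_lit 0)]) PF.nil)))) (PF.cons (PF.cons (PF.leaf (nat_lit 10016441) (nat_lit 2440423) (nat_lit 36046627) (nat_lit 11538800) [(nat_lit 0), (nat_lit 2440423), (nat_lit 0)]) (PF.cons (PF.leaf (nat_lit 10405888) (nat_lit 729130) (nat_lit 35470252) (nat_lit 11432268) [(nat_lit 729130), (nat_lit 2434645), (nat_lit 0)]) PF.nil)) (PF.cons PF.nil (PF.cons PF.nil (PF.cons PF.nil (PF.cons PF.nil PF.nil))))))))))))) (PF.cons (PF.cons (PF.cons (PF.leaf (nat_lit 4188800) (nat_lit 6335038)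 (nat_lit 47701813) (nat_lit 13071960) [(nat_lit 0), (nat_lit 0), (nat_lit 6335038)]) (PF.cons (PF.leaf (nat_lit 4499683) (nat_lit 574094) (nat_lit 47154956) (nat_lit 13029997) [(nat_lit 574094), (nat_lit 0),
 (nat_lit 6349764)]) (PF.cons (PF.leaf (nat_lit 4837193) (nat_lit 599078) (nat_lit 46567695) (nat_lit 12981237) [(nat_lit 599078), (nat_lit 0), (nat_lit 6361723)]) (PF.cons (PF.leaf (nat_lit 5195546) (nat_lit 620687) (nat_lit 45950490) (nat_lit 12925983) [(nat_lit 620687), (nat_lit 0), (nat_lit 6370276)]) (PF.cons (PF.leaf (nat_lit 5570675) (nat_lit 639543) (nat_lit 45311057) (nat_lit 12864520) [(nat_lit 639543), (nat_lit 0), (nat_lit 6375058)]) (PF.cons (PF.leaf (nat_lit 5959358) (nat_lit 656074) (nat_lit 44655395) (nat_lit 12797152) [(nat_lit 656074), (nat_lit 0), (nat_lit 6375891)]) (PF.cons (PF.leaf (nat_lit 6358951) (nat_lit 670592) (nat_lit 43988330) (nat_lit 12724204) [(nat_lit 670592), (nat_lit 0), (nat_lit 6372724)]) (PF.cons (PF.leaf (nat_lit 6767236) (nat_lit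 683336) (nat_lit 43313831) (nat_lit 12646025) [(nat_lit 683336), (nat_lit 0), (nat_lit 6365601)]) (PF.cons (PF.leaf (nat_lit 7182281) (nat_lit 694499) (nat_lit 42635207) (nat_lit 12562984) [(nat_lit 694499), (nat_lit 0), (nat_lit 6354629)]) (PF.cons (PF.leaf (nat_lit 7602434) (nat_lit 704239) (nat_lit 41955242) (nat_lit 12475459) [(nat_lit 704239), (nat_lit 0), (nat_lit 6339958)]) (PF.cons (PF.leaf (nat_lit 8026261)
 (nat_lit 712691) (nat_lit 41276291) (nat_lit 12383835) [(nat_lit 712691), (nat_lit 0), (nat_lit 6321775)]) (PF.cons (PF.leaf (nat_lit 8452492) (nat_lit 719971) (nat_lit 40600345) (nat_lit 12288499) [(nat_lit 719971), (nat_lit 0), (nat_lit 6300282)]) (PF.cons (PF.leaf (nat_lit 8880009) (nat_lit 726182) (nat_lit 39929094) (nat_lit 12189828) [(nat_lit 726182), (nat_lit 0), (nat_lit 6275695)]) (PF.cons PF.nil (PF.cons PF.nil (PF.cons PF.nil PF.nil)))))))))))))))) (PF.cons (PF.cons (PF.leaf (nat_lit 5081472) (nat_lit 2331941) (nat_lit 45543122) (nat_lit 12876147)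 [(nat_lit 0), (nat_lit 2331941), (nat_lit 6357601)]) (PF.cons (PF.leaf (nat_lit 5427777) (nat_lit 625854) (nat_lit 44949235) (nat_lit 12816951) [(nat_lit 625854), (nat_lit 2356199), (nat_lit 6360572)]) (PF.cons (PF.leaf (nat_lit 5792417) (nat_lit 643929) (nat_lit 44331351) (nat_lit 12751587) [(nat_lit 643929), (nat_lit 2377892), (nat_lit 6360122)]) (PF.cons (PF.leaf (nat_lit 6171379) (nat_lit 659643) (nat_lit 43696399) (nat_lit 12680495) [(nat_lit 659643), (nat_lit 2396909), (nat_lit 6356080)]) (PF.cons (PF.leaf (nat_lit 6561701) (nat_lit 673348) (nat_lit 43049682) (nat_lit 12604085) [(nat_lit 673348), (nat_lit 2413250),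
 (nat_lit 6348399)]) (PF.cons (PF.leaf (nat_lit 6960983) (nat_lit 685307) (nat_lit 42395411) (nat_lit 12522758) [(nat_lit 685307), (nat_lit 2426983), (nat_lit 6337122)]) (PF.cons (PF.leaf (nat_lit 7367206) (nat_lit 695723) (nat_lit 41737007) (nat_lit 12436909) [(nat_lit 695723), (nat_lit 2438209), (nat_lit 6322348)]) (PF.cons (PF.leaf (nat_lit 7778674) (nat_lit 704759) (nat_lit 41077291) (nat_lit 12346930) [(nat_lit 704759), (nat_lit 2447051), (nat_lit 6304220)]) (PF.cons (PF.leaf (nat_lit 8193900) (nat_lit 712554) (nat_lit 40418612) (nat_lit 12253211) [(nat_lit 712554), (nat_lit 2453641), (nat_lit 6282911)]) (PF.cons (PF.leaf (nat_lit 8611625) (nat_lit 719224) (nat_lit 39762936) (nat_lit 12156129) [(nat_lit 719224), (nat_lit 2458116), (nat_lit 6258609)]) (PF.cons (PF.leaf (nat_lit 9030720) (nat_lit 724871) (nat_lit 39111908) (nat_lit 12056055) [(nat_lit 724871), (nat_lit 2460616), (nat_lit 6231514)]) (PF.cons PF.nil (PF.cons PF.nil (PF.cons PF.nil PF.nil))))))))))))))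 (PF.cons (PF.cons (PF.leaf (nat_lit 6011842) (nat_lit 2386946) (nat_lit 43364599) (nat_lit 12631613) [(nat_lit 0), (nat_lit 2386946), (nat_lit 6338707)]) (PF.cons (PF.leaf (nat_lit 6379613) (nat_lit 661720) (nat_lit
 42753276) (nat_lit 12557815) [(nat_lit 661720), (nat_lit 2402762), (nat_lit 6330474)]) (PF.cons (PF.leaf (nat_lit 6759841) (nat_lit 674818) (nat_lit 42128973) (nat_lit 12478839) [(nat_lit 674818), (nat_lit 2416226), (nat_lit 6318909)]) (PF.cons (PF.leaf (nat_lit 7149587) (nat_lit 686156) (nat_lit 41496403) (nat_lit 12395162) [(nat_lit 686156), (nat_lit 2427361), (nat_lit 6304053)]) (PF.cons (PF.leaf (nat_lit 7546655) (nat_lit 695961) (nat_lit 40859260) (nat_lit 12307226) [(nat_lit 695961), (nat_lit 2436236), (nat_lit 6286007)]) (PF.cons (PF.leaf (nat_lit 7949230) (nat_lit 704409) (nat_lit 40220507) (nat_lit 12215445) [(nat_lit 704409), (nat_lit 2442950), (nat_lit 6264908)]) (PF.cons (PF.leaf (nat_lit 8355784) (nat_lit 711647) (nat_lit 39582560) (nat_lit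 12120219) [(nat_lit 711647), (nat_lit 2447616), (nat_lit 6240917)]) (PF.cons (PF.leaf (nat_lit 8764996) (nat_lit 717794) (nat_lit 38947408) (nat_lit 12021926) [(nat_lit 717794), (nat_lit 2450352), (nat_lit 6214213)]) (PF.cons (PF.leaf (nat_lit 9175726) (nat_lit 722954) (nat_lit 38316696) (nat_lit 11920930) [(nat_lit 722954), (nat_lit 2451282), (nat_lit 6184982)]) (PF.cons (PF.leaf (nat_lit 9587003) (nat_lit 727219) (nat_lit
 37691790) (nat_lit 11817575) [(nat_lit 727219), (nat_lit 2450530), (nat_lit 6153414)]) (PF.cons PF.nil (PF.cons PF.nil PF.nil)))))))))))) (PF.cons (PF.cons (PF.leaf (nat_lit 6954799) (nat_lit 2416448) (nat_lit 41225647) (nat_lit 12349030) [(nat_lit 0), (nat_lit 2416448), (nat_lit 6284790)]) (PF.cons (PF.leaf (nat_lit 7334078) (nat_lit 685939) (nat_lit 40616353) (nat_lit 12263798) [(nat_lit 685939), (nat_lit 2425273), (nat_lit 6266900)]) (PF.cons (PF.leaf (nat_lit 7721518) (nat_lit 695272) (nat_lit 40001535) (nat_lit 12174472) [(nat_lit 695272), (nat_lit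 2432061), (nat_lit 6246076)]) (PF.cons (PF.leaf (nat_lit 8114920) (nat_lit 703247) (nat_lit 39384442) (nat_lit 12081509) [(nat_lit 703247), (nat_lit 2436887), (nat_lit 6222454)]) (PF.cons (PF.leaf (nat_lit 8512633) (nat_lit 710025) (nat_lit 38767653) (nat_lit 11985329) [(nat_lit 710025), (nat_lit 2439845), (nat_lit 6196191)]) (PF.cons (PF.leaf (nat_lit 8913273) (nat_lit 715734) (nat_lit 38153243) (nat_lit 11886320) [(nat_lit 715734), (nat_lit 2441040), (nat_lit 6167456)]) (PF.cons (PF.leaf (nat_lit 9315654) (nat_lit 720481) (nat_lit 37542904) (nat_lit 11784844) [(nat_lit 720481), (nat_lit 2440582), (nat_lit 6136426)]) (PF.cons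
 (PF.leaf (nat_lit 9718805) (nat_lit 724360) (nat_lit 36938018) (nat_lit 11681242) [(nat_lit 724360), (nat_lit 2438581), (nat_lit 6103281)]) (PF.cons PF.nil (PF.cons PF.nil PF.nil)))))))))) (PF.cons (PF.cons (PF.leaf (nat_lit 7892943) (nat_lit 2425914) (nat_lit 39163116) (nat_lit 12039082) [(nat_lit 0), (nat_lit 2425914), (nat_lit 6202955)]) (PF.cons (PF.leaf (nat_lit 8276566) (nat_lit 701317) (nat_lit 38568444) (nat_lit 11945539) [(nat_lit 701317), (nat_lit 2429069), (nat_lit 6177231)]) (PF.cons (PF.leaf (nat_lit 8665191) (nat_lit 707734) (nat_lit 37973259) (nat_lit 11848933) [(nat_lit 707734), (nat_lit 2430519), (nat_lit 6149075)]) (PF.cons (PF.leaf (nat_lit 9057131) (nat_lit 713087) (nat_lit 37379810) (nat_lit 11749672) [(nat_lit 713087), (nat_lit 2430353), (nat_lit 6118654)]) (PF.cons (PF.leaf (nat_lit 9451145) (nat_lit 717494) (nat_lit 36789889) (nat_lit 11648129) [(nat_lit 717494), (nat_lit 2428670), (nat_lit 6086136)]) (PF.cons (PF.leaf (nat_lit 9846169) (nat_lit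 721051) (nat_lit 36204939) (nat_lit 11544644) [(nat_lit 721051), (nat_lit 2425570), (nat_lit 6051692)]) (PF.cons PF.nil (PF.cons PF.nil PF.nil)))))))) (PF.cons (PF.cons (PF.leaf (nat_lit 8814410) (nat_lit 2419803)
 (nat_lit 37198585) (nat_lit 11711346) [(nat_lit 0), (nat_lit 2419803), (nat_lit 6099864)]) (PF.cons (PF.leaf (nat_lit 9197260) (nat_lit 709887) (nat_lit 36626361) (nat_lit 11612280) [(nat_lit 709887), (nat_lit 2418441), (nat_lit 6068076)]) (PF.cons (PF.leaf (nat_lit 9582784) (nat_lit 714025) (nat_lit 36056928) (nat_lit 11511058) [(nat_lit 714025), (nat_lit 2415683), (nat_lit 6034358)]) (PF.cons (PF.leaf (nat_lit 9969676) (nat_lit 717321) (nat_lit 35491840) (nat_lit 11408029) [(nat_lit 717321), (nat_lit 2411620), (nat_lit 5998876)]) (PF.cons (PF.leaf (nat_lit 10356985) (nat_lit 719865) (nat_lit 34932330) (nat_lit 11303511) [(nat_lit 719865), (nat_lit 2406343), (nat_lit 5961791)]) (PF.cons PF.nil PF.nil)))))) (PF.cons (PF.cons (PF.leaf (nat_lit 9711390) (nat_lit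 2401741) (nat_lit 35343208) (nat_lit 11373848) [(nat_lit 0), (nat_lit 2401741), (nat_lit 5981304)]) (PF.cons (PF.leaf (nat_lit 10089879) (nat_lit 713198) (nat_lit 34797946) (nat_lit 11271599) [(nat_lit 713198), (nat_lit 2396840), (nat_lit 5945024)]) (PF.cons (PF.leaf (nat_lit 10469330) (nat_lit 715548) (nat_lit 34257586) (nat_lit 11167954) [(nat_lit 715548), (nat_lit 2390817), (nat_lit 5907270)]) (PF.cons PF.nil PF.nil))))
 (PF.cons (PF.cons (PF.leaf (nat_lit 10579035) (nat_lit 2374661) (nat_lit 33601102) (nat_lit 11033001) [(nat_lit 0), (nat_lit 2374661), (nat_lit 5852079)]) (PF.cons PF.nil PF.nil)) (PF.cons PF.nil (PF.cons PF.nil (PF.cons PF.nil PF.nil))))))))))) (PF.cons (PF.cons (PF.cons (PF.leaf (nat_lit 5866879) (nat_lit 6247840) (nat_lit 42185798) (nat_lit 12427334) [(nat_lit 0), (nat_lit 0), (nat_lit 6247840)]) (PF.cons (PF.leaf (nat_lit 6206558) (nat_lit 633598) (nat_lit 41638704) (nat_lit 12357745) [(nat_lit 633598), (nat_lit 0), (nat_lit 6239382)]) (PF.cons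 (PF.leaf (nat_lit 6562486) (nat_lit 649204) (nat_lit 41071942) (nat_lit 12282700) [(nat_lit 649204), (nat_lit 0), (nat_lit 6227880)]) (PF.cons (PF.leaf (nat_lit 6930791) (nat_lit 662519) (nat_lit 40491752) (nat_lit 12202821) [(nat_lit 662519), (nat_lit 0), (nat_lit 6213339)]) (PF.cons (PF.leaf (nat_lit 7308719) (nat_lit 673928) (nat_lit 39902818) (nat_lit 12118626) [(nat_lit 673928), (nat_lit 0), (nat_lit 6195826)]) (PF.cons (PF.leaf (nat_lit 7694046) (nat_lit 683710) (nat_lit 39308788) (nat_lit 12030577) [(nat_lit 683710), (nat_lit 0), (nat_lit 6175447)]) (PF.cons (PF.leaf (nat_lit 8084957) (nat_lit 692077) (nat_lit 38712571) (nat_lit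
 11939092) [(nat_lit 692077), (nat_lit 0), (nat_lit 6152341)]) (PF.cons (PF.leaf (nat_lit 8479933) (nat_lit 699199) (nat_lit 38116526) (nat_lit 11844561) [(nat_lit 699199), (nat_lit 0), (nat_lit 6126663)]) (PF.cons (PF.leaf (nat_lit 8877678) (nat_lit 705215) (nat_lit 37522585) (nat_lit 11747348) [(nat_lit 705215), (nat_lit 0), (nat_lit 6098578)]) (PF.cons (PF.leaf (nat_lit 9277096) (nat_lit 710239) (nat_lit 36932343) (nat_lit 11647794) [(nat_lit 710239), (nat_lit 0), (nat_lit 6068259)]) (PF.cons (PF.leaf (nat_lit 9677219) (nat_lit 714371) (nat_lit 36347113) (nat_lit 11546222) [(nat_lit 714371), (nat_lit 0), (nat_lit 6035882)]) (PF.cons PF.nil PF.nil)))))))))))) (PF.cons (PF.cons (PF.leaf (nat_lit 6759958) (nat_lit 2369860) (nat_lit 40200376) (nat_lit 12152674) [(nat_lit 0), (nat_lit 2369860), (nat_lit 6192951)]) (PF.cons (PF.leaf (nat_lit 7116948) (nat_lit 662077) (nat_lit 39643569) (nat_lit 12071945) [(nat_lit 662077), (nat_lit 2379713), (nat_lit 6175753)]) (PF.cons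 (PF.leaf (nat_lit 7484794) (nat_lit 673116) (nat_lit 39076572) (nat_lit 11986920) [(nat_lit 673116), (nat_lit 2387526), (nat_lit 6155780)]) (PF.cons (PF.leaf (nat_lit 7860736) (nat_lit 682497) (nat_lit 38503522)
 (nat_lit 11898139) [(nat_lit 682497), (nat_lit 2393359), (nat_lit 6133149)]) (PF.cons (PF.leaf (nat_lit 8242760) (nat_lit 690457) (nat_lit 37927610) (nat_lit 11806066) [(nat_lit 690457), (nat_lit 2397304), (nat_lit 6108000)]) (PF.cons (PF.leaf (nat_lit 8629221) (nat_lit 697181) (nat_lit 37351352) (nat_lit 11711117) [(nat_lit 697181), (nat_lit 2399464), (nat_lit 6080486)]) (PF.cons (PF.leaf (nat_lit 9018750) (nat_lit 702814) (nat_lit 36776771) (nat_lit 11613665) [(nat_lit 702814), (nat_lit 2399951), (nat_lit 6050768)]) (PF.cons (PF.leaf (nat_lit 9410201) (nat_lit 707478) (nat_lit 36205507) (nat_lit 11514058) [(nat_lit 707478), (nat_lit 2398878), (nat_lit 6019010)]) (PF.cons (PF.leaf (nat_lit 9802567) (nat_lit 711273) (nat_lit 35638901) (nat_lit 11412612) [(nat_lit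 711273), (nat_lit 2396355), (nat_lit 5985378)]) (PF.cons PF.nil PF.nil)))))))))) (PF.cons (PF.cons (PF.leaf (nat_lit 7658707) (nat_lit 2381773) (nat_lit 38267196) (nat_lit 11852687) [(nat_lit 0), (nat_lit 2381773), (nat_lit 6112691)]) (PF.cons (PF.leaf (nat_lit 8024408) (nat_lit 680459) (nat_lit 37716222) (nat_lit 11763783) [(nat_lit 680459), (nat_lit 2385955), (nat_lit 6088217)]) (PF.cons (PF.leaf (nat_lit 8397122)
 (nat_lit 688130) (nat_lit 37161292) (nat_lit 11671643) [(nat_lit 688130), (nat_lit 2388415), (nat_lit 6061392)]) (PF.cons (PF.leaf (nat_lit 8774814) (nat_lit 694551) (nat_lit 36605210) (nat_lit 11576725) [(nat_lit 694551), (nat_lit 2389240), (nat_lit 6032370)]) (PF.cons (PF.leaf (nat_lit 9155994) (nat_lit 699882) (nat_lit 36050167) (nat_lit 11479430) [(nat_lit 699882), (nat_lit 2388527), (nat_lit 6001314)]) (PF.cons (PF.leaf (nat_lit 9539407) (nat_lit 704253) (nat_lit 35497907) (nat_lit 11380115) [(nat_lit 704253), (nat_lit 2386377), (nat_lit 5968384)])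 (PF.cons (PF.leaf (nat_lit 9924047) (nat_lit 707770) (nat_lit 34949828) (nat_lit 11279101) [(nat_lit 707770), (nat_lit 2382890), (nat_lit 5933738)]) (PF.cons PF.nil PF.nil)))))))) (PF.cons (PF.cons (PF.leaf (nat_lit 8549094) (nat_lit 2378159) (nat_lit 36412729) (nat_lit 11536062) [(nat_lit 0), (nat_lit 2378159), (nat_lit 6012770)]) (PF.cons (PF.leaf (nat_lit 8917447) (nat_lit 691333) (nat_lit 35877308) (nat_lit 11441623) [(nat_lit 691333), (nat_lit 2377812), (nat_lit 5982554)]) (PF.cons (PF.leaf (nat_lit 9290036) (nat_lit 696445) (nat_lit 35342036) (nat_lit 11344866) [(nat_lit 696445), (nat_lit 2376047), (nat_lit 5950438)])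
 (PF.cons (PF.leaf (nat_lit 9665315) (nat_lit 700592) (nat_lit 34808833) (nat_lit 11246173) [(nat_lit 700592), (nat_lit 2372954), (nat_lit 5916583)]) (PF.cons (PF.leaf (nat_lit 10042153) (nat_lit 703889) (nat_lit 34279207) (nat_lit 11145879) [(nat_lit 703889), (nat_lit 2368625), (nat_lit 5881145)]) (PF.cons PF.nil PF.nil)))))) (PF.cons (PF.cons (PF.leaf (nat_lit 9421747) (nat_lit 2362623) (nat_lit 34651527) (nat_lit 11210143) [(nat_lit 0), (nat_lit 2362623), (nat_lit 5898323)]) (PF.cons (PF.leaf (nat_lit 9788486) (nat_lit 696513) (nat_lit 34137503) (nat_lit 11112395) [(nat_lit 696513), (nat_lit 2358710), (nat_lit 5863778)]) (PF.cons (PF.leaf (nat_lit 10157435) (nat_lit 699650) (nat_lit 33626297) (nat_lit 11013094) [(nat_lit 699650), (nat_lit 2353650), (nat_lit 5827757)]) (PF.cons (PF.leaf (nat_lit 10527390) (nat_lit 702034) (nat_lit 33119224) (nat_lit 10912555) [(nat_lit 702034), (nat_lit 2347527), (nat_lit 5790410)]) PF.nil)))) (PF.cons (PF.cons (PF.leaf (nat_lit 10270594)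 (nat_lit 2338048) (nat_lit 32990299) (nat_lit 10880857) [(nat_lit 0), (nat_lit 2338048), (nat_lit 5773707)]) (PF.cons (PF.leaf (nat_lit 10632746) (nat_lit 697341) (nat_lit 32500907) (nat_lit 10781603) [(nat_lit
 697341), (nat_lit 2331369), (nat_lit 5736056)]) PF.nil)) (PF.cons PF.nil (PF.cons PF.nil (PF.cons PF.nil (PF.cons PF.nil PF.nil)))))))))) (PF.cons (PF.cons (PF.cons (PF.leaf (nat_lit 7445325) (nat_lit 6021684) (nat_lit 37378561) (nat_lit 11665197) [(nat_lit 0), (nat_lit 0), (nat_lit 6021684)]) (PF.cons (PF.leaf (nat_lit 7790967) (nat_lit 657287) (nat_lit 36873482) (nat_lit 11581692) [(nat_lit 657287), (nat_lit 0), (nat_lit 5998783)]) (PF.cons (PF.leaf (nat_lit 8146225) (nat_lit 666697) (nat_lit 36360178) (nat_lit 11494593) [(nat_lit 666697), (nat_lit 0), (nat_lit 5973548)]) (PF.cons (PF.leaf (nat_lit 8508499) (nat_lit 674548) (nat_lit 35842282) (nat_lit 11404458) [(nat_lit 674548), (nat_lit 0), (nat_lit 5946141)]) (PF.cons (PF.leaf (nat_lit 8875929) (nat_lit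 681084) (nat_lit 35322561) (nat_lit 11311750) [(nat_lit 681084), (nat_lit 0), (nat_lit 5916721)]) (PF.cons (PF.leaf (nat_lit 9247016) (nat_lit 686487) (nat_lit 34803169) (nat_lit 11216865) [(nat_lit 686487), (nat_lit 0), (nat_lit 5885447)]) (PF.cons (PF.leaf (nat_lit 9620536) (nat_lit 690904) (nat_lit 34285820) (nat_lit 11120151) [(nat_lit 690904), (nat_lit 0), (nat_lit 5852471)]) (PF.cons (PF.leaf (nat_lit 9995445) (nat_lit
 694452) (nat_lit 33771888) (nat_lit 11021919) [(nat_lit 694452), (nat_lit 0), (nat_lit 5817946)]) (PF.cons PF.nil (PF.cons PF.nil PF.nil)))))))))) (PF.cons (PF.cons (PF.leaf (nat_lit 8302120) (nat_lit 2335422) (nat_lit 35635865) (nat_lit 11360898) [(nat_lit 0), (nat_lit 2335422), (nat_lit 5925541)]) (PF.cons (PF.leaf (nat_lit 8654506) (nat_lit 671271) (nat_lit 35138355) (nat_lit 11271555) [(nat_lit 671271), (nat_lit 2336300), (nat_lit 5897110)]) (PF.cons (PF.leaf (nat_lit 9013045) (nat_lit 677652) (nat_lit 34637887) (nat_lit 11179615) [(nat_lit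 677652), (nat_lit 2335707), (nat_lit 5866765)]) (PF.cons (PF.leaf (nat_lit 9375832) (nat_lit 682878) (nat_lit 34136894) (nat_lit 11085523) [(nat_lit 682878), (nat_lit 2333737), (nat_lit 5834674)]) (PF.cons (PF.leaf (nat_lit 9741492) (nat_lit 687108) (nat_lit 33637258) (nat_lit 10989654) [(nat_lit 687108), (nat_lit 2330485), (nat_lit 5800993)]) (PF.cons (PF.leaf (nat_lit 10108929) (nat_lit 690471) (nat_lit 33140459) (nat_lit 10892332) [(nat_lit 690471), (nat_lit 2326047), (nat_lit 5765872)]) (PF.cons PF.nil (PF.cons PF.nil PF.nil)))))))) (PF.cons (PF.cons (PF.leaf (nat_lit 9148628) (nat_lit 2322858) (nat_lit 33969109) (nat_lit 11047246)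
 [(nat_lit 0), (nat_lit 2322858), (nat_lit 5815579)]) (PF.cons (PF.leaf (nat_lit 9502544) (nat_lit 678811) (nat_lit 33486844) (nat_lit 10954285) [(nat_lit 678811), (nat_lit 2320074), (nat_lit 5782907)]) (PF.cons (PF.leaf (nat_lit 9860139) (nat_lit 682925) (nat_lit 33005041) (nat_lit 10859540) [(nat_lit 682925), (nat_lit 2316097), (nat_lit 5748727)]) (PF.cons (PF.leaf (nat_lit 10219961) (nat_lit 686160) (nat_lit 32525354) (nat_lit 10763367) [(nat_lit 686160), (nat_lit 2311014), (nat_lit 5713193)]) (PF.cons (PF.leaf (nat_lit 10581002) (nat_lit 688626) (nat_lit 32049069) (nat_lit 10666065) [(nat_lit 688626), (nat_lit 2304911), (nat_lit 5676449)]) (PF.cons PF.nil PF.nil)))))) (PF.cons (PF.cons (PF.leaf (nat_lit 9977246) (nat_lit 2301073) (nat_lit 32388340) (nat_lit 10729886) [(nat_lit 0), (nat_lit 2301073), (nat_lit 5695788)]) (PF.cons (PF.leaf (nat_lit 10329065) (nat_lit 681527) (nat_lit 31925816) (nat_lit 10635098) [(nat_lit 681527), (nat_lit 2295439), (nat_lit 5660017)])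 (PF.cons (PF.leaf (nat_lit 10682762) (nat_lit 683913) (nat_lit 31465955) (nat_lit 10539180) [(nat_lit 683913), (nat_lit 2288850), (nat_lit 5623099)]) (PF.cons PF.nil PF.nil)))) (PF.cons (PF.cons (PF.leaf (nat_lit
 10783123) (nat_lit 2272385) (nat_lit 30897590) (nat_lit 10413230) [(nat_lit 0), (nat_lit 2272385), (nat_lit 5569483)]) (PF.cons PF.nil PF.nil)) (PF.cons PF.nil (PF.cons PF.nil (PF.cons PF.nil PF.nil)))))))) (PF.cons (PF.cons (PF.cons (PF.leaf (nat_lit 8893590) (nat_lit 5732824) (nat_lit 33292934) (nat_lit 10884580) [(nat_lit 0), (nat_lit 0), (nat_lit 5732824)]) (PF.cons (PF.leaf (nat_lit 9233191) (nat_lit 659704) (nat_lit 32843511) (nat_lit 10796797) [(nat_lit 659704), (nat_lit 0), (nat_lit 5702199)]) (PF.cons (PF.leaf (nat_lit 9578285) (nat_lit 665075) (nat_lit 32391773) (nat_lit 10706898) [(nat_lit 665075), (nat_lit 0), (nat_lit 5669997)]) (PF.cons (PF.leaf (nat_lit 9927068) (nat_lit 669373) (nat_lit 31939847) (nat_lit 10615303) [(nat_lit 669373), (nat_lit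 0), (nat_lit 5636385)]) (PF.cons (PF.leaf (nat_lit 10278292) (nat_lit 672758) (nat_lit 31489360) (nat_lit 10522362) [(nat_lit 672758), (nat_lit 0), (nat_lit 5601513)]) (PF.cons (PF.leaf (nat_lit 10630938) (nat_lit 675353) (nat_lit 31041588) (nat_lit 10428368) [(nat_lit 675353), (nat_lit 0), (nat_lit 5565522)]) PF.nil)))))) (PF.cons (PF.cons (PF.leaf (nat_lit 9700007) (nat_lit 2263538) (nat_lit 31793102) (nat_lit 10579658)
 [(nat_lit 0), (nat_lit 2263538), (nat_lit 5618128)]) (PF.cons (PF.leaf (nat_lit 10040404) (nat_lit 664761) (nat_lit 31358001) (nat_lit 10489577) [(nat_lit 664761), (nat_lit 2259071), (nat_lit 5584350)]) (PF.cons (PF.leaf (nat_lit 10384047) (nat_lit 668107) (nat_lit 30923478) (nat_lit 10398101) [(nat_lit 668107), (nat_lit 2253589), (nat_lit 5549356)]) (PF.cons (PF.leaf (nat_lit 10729586) (nat_lit 670645) (nat_lit 30490970) (nat_lit 10305555) [(nat_lit 670645), (nat_lit 2247174), (nat_lit 5513294)]) PF.nil)))) (PF.cons (PF.cons (PF.leaf (nat_lit 10488902)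 (nat_lit 2237712) (nat_lit 30371151) (nat_lit 10274654) [(nat_lit 0), (nat_lit 2237712), (nat_lit 5496895)]) (PF.cons (PF.leaf (nat_lit 10826935) (nat_lit 665684) (nat_lit 29953931) (nat_lit 10183734) [(nat_lit 665684), (nat_lit 2230939), (nat_lit 5460896)]) PF.nil)) (PF.cons PF.nil (PF.cons PF.nil (PF.cons PF.nil PF.nil)))))) (PF.cons (PF.cons (PF.cons (PF.leaf (nat_lit 10210212) (nat_lit 5424532) (nat_lit 29849465) (nat_lit 10136684) [(nat_lit 0), (nat_lit 0), (nat_lit 5424532)]) (PF.cons (PF.leaf (nat_lit 10537977) (nat_lit 649874) (nat_lit 29455983) (nat_lit 10050264) [(nat_lit 649874), (nat_lit 0), (nat_lit 5390538)]) (PF.cons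
 (PF.leaf (nat_lit 10868680) (nat_lit 652620) (nat_lit 29063087) (nat_lit 9962731) [(nat_lit 652620), (nat_lit 0), (nat_lit 5355550)]) (PF.cons PF.nil PF.nil)))) (PF.cons (PF.cons (PF.leaf (nat_lit 10963189) (nat_lit 2174199) (nat_lit 28566804) (nat_lit 9845973) [(nat_lit 0), (nat_lit 2174199), (nat_lit 5304366)]) (PF.cons PF.nil PF.nil)) (PF.cons PF.nil (PF.cons PF.nil PF.nil)))) (PF.cons (PF.cons (PF.cons (PF.leaf (nat_lit 11405381) (nat_lit 5119700) (nat_lit 26946744) (nat_lit 9443864) [(nat_lit 0), (nat_lit 0), (nat_lit 5119700)]) (PF.cons PF.nil PF.nil)) (PF.cons PF.nil PF.nil)) (PF.cons PF.nil (PF.cons PF.nil (PF.cons PF.nil PF.nil))))))))))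

def p14_20_2_0 : pfC (piC [(nat_lit 35404596), (nat_lit 22827826), (nat_lit 14696761)] (nat_lit 7113113)) p14_20_2 (nat_lit 3) (nat_lit 0) (nat_lit 1) = true := by decide +kernel
def p14_20_2_1 : pfC (piC [(nat_lit 35404596), (nat_lit 22827826), (nat_lit 14696761)] (nat_lit 7113113)) p14_20_2 (nat_lit 3) (nat_lit 1) (nat_lit 2) = true := by decide +kernel
def p14_20_2_2 : pfC (piC [(nat_lit 35404596), (nat_lit 22827826), (nat_lit 14696761)] (nat_lit 7113113)) p14_20_2 (nat_lit 3) (nat_lit 2) (nat_lit 3) = true := by decide +kernel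
def p14_20_2_3 : pfC (piC [(nat_lit 35404596), (nat_lit 22827826), (nat_lit 14696761)] (nat_lit 7113113)) p14_20_2 (nat_lit 3) (nat_lit 3) (nat_lit 4) = true := by decide +kernel
def p14_20_2_4 : pfC (piC [(nat_lit 35404596), (nat_lit 22827826), (nat_lit 14696761)] (nat_lit 7113113)) p14_20_2 (nat_lit 3) (nat_lit 4) (nat_lit 5) = true := by decide +kernel
def p14_20_2_5 : pfC (piC [(nat_lit 35404596), (nat_lit 22827826), (nat_lit 14696761)] (nat_lit 7113113)) p14_20_2 (nat_lit 3) (nat_lit 5) (nat_lit 6) = true := by decide +kernel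
def p14_20_2_6 : pfC (piC [(nat_lit 35404596), (nat_lit 22827826), (nat_lit 14696761)] (nat_lit 7113113)) p14_20_2 (nat_lit 3) (nat_lit 6) (nat_lit 7) = true := by decide +kernel
def p14_20_2_7 : pfC (piC [(nat_lit 35404596), (nat_lit 22827826), (nat_lit 14696761)] (nat_lit 7113113)) p14_20_2 (nat_lit 3) (nat_lit 7) (nat_lit 8) = true := by decide +kernel
def p14_20_2_8 : pfC (piC [(nat_lit 35404596), (nat_lit 22827826), (nat_lit 14696761)] (nat_lit 7113113)) p14_20_2 (nat_lit 3) (nat_lit 8) (nat_lit 9) = true := by decide +kernel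
def p14_20_2_9 : pfC (piC [(nat_lit 35404596), (nat_lit 22827826), (nat_lit 14696761)] (nat_lit 7113113)) p14_20_2 (nat_lit 3) (nat_lit 9) (nat_lit 10) = true := by decide +kernel
def p14_20_2_10 : pfC (piC [(nat_lit 35404596), (nat_lit 22827826), (nat_lit 14696761)] (nat_lit 7113113)) p14_20_2 (nat_lit 3) (nat_lit 10) (nat_lit 11) = true := by decide +kernel
def p14_20_2_11 : pfC (piC [(nat_lit 35404596), (nat_lit 22827826), (nat_lit 14696761)] (nat_lit 7113113)) p14_20_2 (nat_lit 3) (nat_lit 11) (nat_lit 12) = true := by decide +kernel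
def p14_20_2_12 : pfC (piC [(nat_lit 35404596), (nat_lit 22827826), (nat_lit 14696761)] (nat_lit 7113113)) p14_20_2 (nat_lit 3) (nat_lit 12) (nat_lit 13) = true := by decide +kernel
def p14_20_2_13 : pfC (piC [(nat_lit 35404596), (nat_lit 22827826), (nat_lit 14696761)] (nat_lit 7113113)) p14_20_2 (nat_lit 3) (nat_lit 13) (nat_lit 14) = true := by decide +kernel
def p14_20_2_14 : pfC (piC [(nat_lit 35404596), (nat_lit 22827826), (nat_lit 14696761)] (nat_lit 7113113)) p14_20_2 (nat_lit 3) (nat_lit 14) (nat_lit 15) = true := by decide +kernel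
def p14_20_2_15 : pfC (piC [(nat_lit 35404596), (nat_lit 22827826), (nat_lit 14696761)] (nat_lit 7113113)) p14_20_2 (nat_lit 3) (nat_lit 15) (nat_lit 16) = true := by decide +kernel
def p14_20_2_16 : pfC (piC [(nat_lit 35404596), (nat_lit 22827826), (nat_lit 14696761)] (nat_lit 7113113)) p14_20_2 (nat_lit 3) (nat_lit 16) (nat_lit 17) = true := by decide +kernel
def p14_20_2_17 : pfC (piC [(nat_lit 35404596), (nat_lit 22827826), (nat_lit 14696761)] (nat_lit 7113113)) p14_20_2 (nat_lit 3) (nat_lit 17) (nat_lit 18) = true := by decide +kernel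
def p14_20_2_18 : pfC (piC [(nat_lit 35404596), (nat_lit 22827826), (nat_lit 14696761)] (nat_lit 7113113)) p14_20_2 (nat_lit 3) (nat_lit 18) (nat_lit 19) = true := by decide +kernel
def p14_20_2_19 : pfC (piC [(nat_lit 35404596), (nat_lit 22827826), (nat_lit 14696761)] (nat_lit 7113113)) p14_20_2 (nat_lit 3) (nat_lit 19) (nat_lit 20) = true := by decide +kernel
def p14_20_2_20 : pfC (piC [(nat_lit 35404596), (nat_lit 22827826), (nat_lit 14696761)] (nat_lit 7113113)) p14_20_2 (nat_lit 3) (nat_lit 20) (nat_lit 21) = true := by decide +kernel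
def p14_20_2_21 : pfC (piC [(nat_lit 35404596), (nat_lit 22827826), (nat_lit 14696761)] (nat_lit 7113113)) p14_20_2 (nat_lit 3) (nat_lit 21) (nat_lit 22) = true := by decide +kernel
def p14_20_2_22 : pfC (piC [(nat_lit 35404596), (nat_lit 22827826), (nat_lit 14696761)] (nat_lit 7113113)) p14_20_2 (nat_lit 3) (nat_lit 22) (nat_lit 23) = true := by decide +kernel
def p14_20_2_23 : pfC (piC [(nat_lit 35404596), (nat_lit 22827826), (nat_lit 14696761)] (nat_lit 7113113)) p14_20_2 (nat_lit 3) (nat_lit 23) (nat_lit 24) = true := by decide +kernel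
def p14_20_2_24 : pfC (piC [(nat_lit 35404596), (nat_lit 22827826), (nat_lit 14696761)] (nat_lit 7113113)) p14_20_2 (nat_lit 3) (nat_lit 24) (nat_lit 25) = true := by decide +kernel
def p14_20_2_25 : pfC (piC [(nat_lit 35404596), (nat_lit 22827826), (nat_lit 14696761)] (nat_lit 7113113)) p14_20_2 (nat_lit 3) (nat_lit 25) (nat_lit 26) = true := by decide +kernel
def p14_20_2_26 : pfC (piC [(nat_lit 35404596), (nat_lit 22827826), (nat_lit 14696761)] (nat_lit 7113113)) p14_20_2 (nat_lit 3) (nat_lit 26) (nat_lit 27) = true := by decide +kernel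
def p14_20_2_27 : pfC (piC [(nat_lit 35404596), (nat_lit 22827826), (nat_lit 14696761)] (nat_lit 7113113)) p14_20_2 (nat_lit 3) (nat_lit 27) (nat_lit 28) = true := by decide +kernel
def p14_20_2_28 : pfC (piC [(nat_lit 35404596), (nat_lit 22827826), (nat_lit 14696761)] (nat_lit 7113113)) p14_20_2 (nat_lit 3) (nat_lit 28) (nat_lit 29) = true := by decide +kernel
def p14_20_2_29 : pfC (piC [(nat_lit 35404596), (nat_lit 22827826), (nat_lit 14696761)] (nat_lit 7113113)) p14_20_2 (nat_lit 3) (nat_lit 29) (nat_lit 30) = true := by decide +kernel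
def p14_20_2_30 : pfC (piC [(nat_lit 35404596), (nat_lit 22827826), (nat_lit 14696761)] (nat_lit 7113113)) p14_20_2 (nat_lit 3) (nat_lit 30) (nat_lit 31) = true := by decide +kernel
def p14_20_2_31 : pfC (piC [(nat_lit 35404596), (nat_lit 22827826), (nat_lit 14696761)] (nat_lit 7113113)) p14_20_2 (nat_lit 3) (nat_lit 31) (nat_lit 32) = true := by decide +kernel
def p14_20_2_32 : pfC (piC [(nat_lit 35404596), (nat_lit 22827826), (nat_lit 14696761)] (nat_lit 7113113)) p14_20_2 (nat_lit 3) (nat_lit 32) (nat_lit 33) = true := by decide +kernel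
def p14_20_2_33 : pfC (piC [(nat_lit 35404596), (nat_lit 22827826), (nat_lit 14696761)] (nat_lit 7113113)) p14_20_2 (nat_lit 3) (nat_lit 33) (nat_lit 34) = true := by decide +kernel
def p14_20_2_34 : pfC (piC [(nat_lit 35404596), (nat_lit 22827826), (nat_lit 14696761)] (nat_lit 7113113)) p14_20_2 (nat_lit 3) (nat_lit 34) (nat_lit 35) = true := by decide +kernel
def p14_20_2_35 : pfC (piC [(nat_lit 35404596), (nat_lit 22827826), (nat_lit 14696761)] (nat_lit 7113113)) p14_20_2 (nat_lit 3) (nat_lit 35) (nat_lit 36) = true := by decide +kernel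
def p14_20_2_36 : pfC (piC [(nat_lit 35404596), (nat_lit 22827826), (nat_lit 14696761)] (nat_lit 7113113)) p14_20_2 (nat_lit 3) (nat_lit 36) (nat_lit 37) = true := by decide +kernel
def p14_20_2_37 : pfC (piC [(nat_lit 35404596), (nat_lit 22827826), (nat_lit 14696761)] (nat_lit 7113113)) p14_20_2 (nat_lit 3) (nat_lit 37) (nat_lit 38) = true := by decide +kernel
def p14_20_2_38 : pfC (piC [(nat_lit 35404596), (nat_lit 22827826), (nat_lit 14696761)] (nat_lit 7113113)) p14_20_2 (nat_lit 3) (nat_lit 38) (nat_lit 39) = true := by decide +kernel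
def p14_20_2_39 : pfC (piC [(nat_lit 35404596), (nat_lit 22827826), (nat_lit 14696761)] (nat_lit 7113113)) p14_20_2 (nat_lit 3) (nat_lit 39) (nat_lit 40) = true := by decide +kernel
def p14_20_2_40 : pfC (piC [(nat_lit 35404596), (nat_lit 22827826), (nat_lit 14696761)] (nat_lit 7113113)) p14_20_2 (nat_lit 3) (nat_lit 40) (nat_lit 41) = true := by decide +kernel
def p14_20_2_41 : pfC (piC [(nat_lit 35404596), (nat_lit 22827826), (nat_lit 14696761)] (nat_lit 7113113)) p14_20_2 (nat_lit 3) (nat_lit 41) (nat_lit 42) = true := by decide +kernel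
def p14_20_2_42 : pfC (piC [(nat_lit 35404596), (nat_lit 22827826), (nat_lit 14696761)] (nat_lit 7113113)) p14_20_2 (nat_lit 3) (nat_lit 42) (nat_lit 43) = true := by decide +kernel
def p14_20_2_43 : pfC (piC [(nat_lit 35404596), (nat_lit 22827826), (nat_lit 14696761)] (nat_lit 7113113)) p14_20_2 (nat_lit 3) (nat_lit 43) (nat_lit 44) = true := by decide +kernel
def p14_20_2_44 : pfC (piC [(nat_lit 35404596), (nat_lit 22827826), (nat_lit 14696761)] (nat_lit 7113113)) p14_20_2 (nat_lit 3) (nat_lit 44) (nat_lit 45) = true := by decide +kernel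
def p14_20_2_45 : pfC (piC [(nat_lit 35404596), (nat_lit 22827826), (nat_lit 14696761)] (nat_lit 7113113)) p14_20_2 (nat_lit 3) (nat_lit 45) (nat_lit 46) = true := by decide +kernel
def p14_20_2_46 : pfC (piC [(nat_lit 35404596), (nat_lit 22827826), (nat_lit 14696761)] (nat_lit 7113113)) p14_20_2 (nat_lit 3) (nat_lit 46) (nat_lit 47) = true := by decide +kernel
def p14_20_2_47 : pfC (piC [(nat_lit 35404596), (nat_lit 22827826), (nat_lit 14696761)] (nat_lit 7113113)) p14_20_2 (nat_lit 3) (nat_lit 47) (nat_lit 48) = true := by decide +kernel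
def p14_20_2_48 : pfC (piC [(nat_lit 35404596), (nat_lit 22827826), (nat_lit 14696761)] (nat_lit 7113113)) p14_20_2 (nat_lit 3) (nat_lit 48) (nat_lit 49) = true := by decide +kernel
def p14_20_2_49 : pfC (piC [(nat_lit 35404596), (nat_lit 22827826), (nat_lit 14696761)] (nat_lit 7113113)) p14_20_2 (nat_lit 3) (nat_lit 49) (nat_lit 50) = true := by decide +kernel
def p14_20_2_50 : pfC (piC [(nat_lit 35404596), (nat_lit 22827826), (nat_lit 14696761)] (nat_lit 7113113)) p14_20_2 (nat_lit 3) (nat_lit 50) (nat_lit 51) = true := by decide +kernel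
def p14_20_2_51 : pfC (piC [(nat_lit 35404596), (nat_lit 22827826), (nat_lit 14696761)] (nat_lit 7113113)) p14_20_2 (nat_lit 3) (nat_lit 51) (nat_lit 52) = true := by decide +kernel
def p14_20_2_52 : pfC (piC [(nat_lit 35404596), (nat_lit 22827826), (nat_lit 14696761)] (nat_lit 7113113)) p14_20_2 (nat_lit 3) (nat_lit 52) (nat_lit 53) = true := by decide +kernel
def p14_20_2_53 : pfC (piC [(nat_lit 35404596), (nat_lit 22827826), (nat_lit 14696761)] (nat_lit 7113113)) p14_20_2 (nat_lit 3) (nat_lit 53) (nat_lit 54) = true := by decide +kernel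
def p14_20_2_54 : pfC (piC [(nat_lit 35404596), (nat_lit 22827826), (nat_lit 14696761)] (nat_lit 7113113)) p14_20_2 (nat_lit 3) (nat_lit 54) (nat_lit 55) = true := by decide +kernel
def p14_20_2_55 : pfC (piC [(nat_lit 35404596), (nat_lit 22827826), (nat_lit 14696761)] (nat_lit 7113113)) p14_20_2 (nat_lit 3) (nat_lit 55) (nat_lit 56) = true := by decide +kernel
def p14_20_2_56 : pfC (piC [(nat_lit 35404596), (nat_lit 22827826), (nat_lit 14696761)] (nat_lit 7113113)) p14_20_2 (nat_lit 3) (nat_lit 56) (nat_lit 57) = true := by decide +kernel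
def p14_20_2_57 : pfC (piC [(nat_lit 35404596), (nat_lit 22827826), (nat_lit 14696761)] (nat_lit 7113113)) p14_20_2 (nat_lit 3) (nat_lit 57) (nat_lit 58) = true := by decide +kernel
def p14_20_2_58 : pfC (piC [(nat_lit 35404596), (nat_lit 22827826), (nat_lit 14696761)] (nat_lit 7113113)) p14_20_2 (nat_lit 3) (nat_lit 58) (nat_lit 59) = true := by decide +kernel
def p14_20_2_59 : pfC (piC [(nat_lit 35404596), (nat_lit 22827826), (nat_lit 14696761)] (nat_lit 7113113)) p14_20_2 (nat_lit 3) (nat_lit 59) (nat_lit 60) = true := by decide +kernel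
def p14_20_2_60 : pfC (piC [(nat_lit 35404596), (nat_lit 22827826), (nat_lit 14696761)] (nat_lit 7113113)) p14_20_2 (nat_lit 3) (nat_lit 60) (nat_lit 61) = true := by decide +kernel
def p14_20_2_61 : pfC (piC [(nat_lit 35404596), (nat_lit 22827826), (nat_lit 14696761)] (nat_lit 7113113)) p14_20_2 (nat_lit 3) (nat_lit 61) (nat_lit 62) = true := by decide +kernel
def p14_20_2_62 : pfC (piC [(nat_lit 35404596), (nat_lit 22827826), (nat_lit 14696761)] (nat_lit 7113113)) p14_20_2 (nat_lit 3) (nat_lit 62) (nat_lit 63) = true := by decide +kernel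
def p14_20_2_63 : pfC (piC [(nat_lit 35404596), (nat_lit 22827826), (nat_lit 14696761)] (nat_lit 7113113)) p14_20_2 (nat_lit 3) (nat_lit 63) (nat_lit 64) = true := by decide +kernel
def p14_20_2_64 : pfC (piC [(nat_lit 35404596), (nat_lit 22827826), (nat_lit 14696761)] (nat_lit 7113113)) p14_20_2 (nat_lit 3) (nat_lit 64) (nat_lit 65) = true := by decide +kernel
def p14_20_2_65 : pfC (piC [(nat_lit 35404596), (nat_lit 22827826), (nat_lit 14696761)] (nat_lit 7113113)) p14_20_2 (nat_lit 3) (nat_lit 65) (nat_lit 66) = true := by decide +kernel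
def p14_20_2_66 : pfC (piC [(nat_lit 35404596), (nat_lit 22827826), (nat_lit 14696761)] (nat_lit 7113113)) p14_20_2 (nat_lit 3) (nat_lit 66) (nat_lit 67) = true := by decide +kernel
def p14_20_2_67 : pfC (piC [(nat_lit 35404596), (nat_lit 22827826), (nat_lit 14696761)] (nat_lit 7113113)) p14_20_2 (nat_lit 3) (nat_lit 67) (nat_lit 68) = true := by decide +kernel
def p14_20_2_68 : pfC (piC [(nat_lit 35404596), (nat_lit 22827826), (nat_lit 14696761)] (nat_lit 7113113)) p14_20_2 (nat_lit 3) (nat_lit 68) (nat_lit 69) = true := by decide +kernel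
def p14_20_2_69 : pfC (piC [(nat_lit 35404596), (nat_lit 22827826), (nat_lit 14696761)] (nat_lit 7113113)) p14_20_2 (nat_lit 3) (nat_lit 69) (nat_lit 70) = true := by decide +kernel
def p14_20_2_70 : pfC (piC [(nat_lit 35404596), (nat_lit 22827826), (nat_lit 14696761)] (nat_lit 7113113)) p14_20_2 (nat_lit 3) (nat_lit 70) (nat_lit 71) = true := by decide +kernel
def p14_20_2_71 : pfC (piC [(nat_lit 35404596), (nat_lit 22827826), (nat_lit 14696761)] (nat_lit 7113113)) p14_20_2 (nat_lit 3) (nat_lit 71) (nat_lit 72) = true := by decide +kernel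
def p14_20_2_72 : pfC (piC [(nat_lit 35404596), (nat_lit 22827826), (nat_lit 14696761)] (nat_lit 7113113)) p14_20_2 (nat_lit 3) (nat_lit 72) (nat_lit 73) = true := by decide +kernel
def p14_20_2_73 : pfC (piC [(nat_lit 35404596), (nat_lit 22827826), (nat_lit 14696761)] (nat_lit 7113113)) p14_20_2 (nat_lit 3) (nat_lit 73) (nat_lit 74) = true := by decide +kernel
def p14_20_2_74 : pfC (piC [(nat_lit 35404596), (nat_lit 22827826), (nat_lit 14696761)] (nat_lit 7113113)) p14_20_2 (nat_lit 3) (nat_lit 74) (nat_lit 75) = true := by decide +kernel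
def p14_20_2_75 : pfC (piC [(nat_lit 35404596), (nat_lit 22827826), (nat_lit 14696761)] (nat_lit 7113113)) p14_20_2 (nat_lit 3) (nat_lit 75) (nat_lit 76) = true := by decide +kernel
def p14_20_2_76 : pfC (piC [(nat_lit 35404596), (nat_lit 22827826), (nat_lit 14696761)] (nat_lit 7113113)) p14_20_2 (nat_lit 3) (nat_lit 76) (nat_lit 77) = true := by decide +kernel
def p14_20_2_77 : pfC (piC [(nat_lit 35404596), (nat_lit 22827826), (nat_lit 14696761)] (nat_lit 7113113)) p14_20_2 (nat_lit 3) (nat_lit 77) (nat_lit 78) = true := by decide +kernel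
def p14_20_2_78 : pfC (piC [(nat_lit 35404596), (nat_lit 22827826), (nat_lit 14696761)] (nat_lit 7113113)) p14_20_2 (nat_lit 3) (nat_lit 78) (nat_lit 79) = true := by decide +kernel
def p14_20_2_79 : pfC (piC [(nat_lit 35404596), (nat_lit 22827826), (nat_lit 14696761)] (nat_lit 7113113)) p14_20_2 (nat_lit 3) (nat_lit 79) (nat_lit 80) = true := by decide +kernel
def p14_20_2_80 : pfC (piC [(nat_lit 35404596), (nat_lit 22827826), (nat_lit 14696761)] (nat_lit 7113113)) p14_20_2 (nat_lit 3) (nat_lit 80) (nat_lit 81) = true := by decide +kernel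
def p14_20_2_81 : pfC (piC [(nat_lit 35404596), (nat_lit 22827826), (nat_lit 14696761)] (nat_lit 7113113)) p14_20_2 (nat_lit 3) (nat_lit 81) (nat_lit 82) = true := by decide +kernel
def p14_20_2_82 : pfC (piC [(nat_lit 35404596), (nat_lit 22827826), (nat_lit 14696761)] (nat_lit 7113113)) p14_20_2 (nat_lit 3) (nat_lit 82) (nat_lit 83) = true := by decide +kernel
def p14_20_2_83 : pfC (piC [(nat_lit 35404596), (nat_lit 22827826), (nat_lit 14696761)] (nat_lit 7113113)) p14_20_2 (nat_lit 3) (nat_lit 83) (nat_lit 84) = true := by decide +kernel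
def p14_20_2_84 : pfC (piC [(nat_lit 35404596), (nat_lit 22827826), (nat_lit 14696761)] (nat_lit 7113113)) p14_20_2 (nat_lit 3) (nat_lit 84) (nat_lit 85) = true := by decide +kernel
def p14_20_2_85 : pfC (piC [(nat_lit 35404596), (nat_lit 22827826), (nat_lit 14696761)] (nat_lit 7113113)) p14_20_2 (nat_lit 3) (nat_lit 85) (nat_lit 86) = true := by decide +kernel
def p14_20_2_86 : pfC (piC [(nat_lit 35404596), (nat_lit 22827826), (nat_lit 14696761)] (nat_lit 7113113)) p14_20_2 (nat_lit 3) (nat_lit 86) (nat_lit 87) = true := by decide +kernel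
def p14_20_2_87 : pfC (piC [(nat_lit 35404596), (nat_lit 22827826), (nat_lit 14696761)] (nat_lit 7113113)) p14_20_2 (nat_lit 3) (nat_lit 87) (nat_lit 88) = true := by decide +kernel
def p14_20_2_88 : pfC (piC [(nat_lit 35404596), (nat_lit 22827826), (nat_lit 14696761)] (nat_lit 7113113)) p14_20_2 (nat_lit 3) (nat_lit 88) (nat_lit 89) = true := by decide +kernel
def p14_20_2_89 : pfC (piC [(nat_lit 35404596), (nat_lit 22827826), (nat_lit 14696761)] (nat_lit 7113113)) p14_20_2 (nat_lit 3) (nat_lit 89) (nat_lit 90) = true := by decide +kernel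
def p14_20_2_90 : pfC (piC [(nat_lit 35404596), (nat_lit 22827826), (nat_lit 14696761)] (nat_lit 7113113)) p14_20_2 (nat_lit 3) (nat_lit 90) (nat_lit 91) = true := by decide +kernel
def p14_20_2_91 : pfC (piC [(nat_lit 35404596), (nat_lit 22827826), (nat_lit 14696761)] (nat_lit 7113113)) p14_20_2 (nat_lit 3) (nat_lit 91) (nat_lit 92) = true := by decide +kernel
def p14_20_2_92 : pfC (piC [(nat_lit 35404596), (nat_lit 22827826), (nat_lit 14696761)] (nat_lit 7113113)) p14_20_2 (nat_lit 3) (nat_lit 92) (nat_lit 93) = true := by decide +kernel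
def p14_20_2_93 : pfC (piC [(nat_lit 35404596), (nat_lit 22827826), (nat_lit 14696761)] (nat_lit 7113113)) p14_20_2 (nat_lit 3) (nat_lit 93) (nat_lit 94) = true := by decide +kernel
def p14_20_2_94 : pfC (piC [(nat_lit 35404596), (nat_lit 22827826), (nat_lit 14696761)] (nat_lit 7113113)) p14_20_2 (nat_lit 3) (nat_lit 94) (nat_lit 95) = true := by decide +kernel
def p14_20_2_95 : pfC (piC [(nat_lit 35404596), (nat_lit 22827826), (nat_lit 14696761)] (nat_lit 7113113)) p14_20_2 (nat_lit 3) (nat_lit 95) (nat_lit 96) = true := by decide +kernel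
def p14_20_2_96 : pfC (piC [(nat_lit 35404596), (nat_lit 22827826), (nat_lit 14696761)] (nat_lit 7113113)) p14_20_2 (nat_lit 3) (nat_lit 96) (nat_lit 97) = true := by decide +kernel
def p14_20_2_97 : pfC (piC [(nat_lit 35404596), (nat_lit 22827826), (nat_lit 14696761)] (nat_lit 7113113)) p14_20_2 (nat_lit 3) (nat_lit 97) (nat_lit 98) = true := by decide +kernel
def p14_20_2_98 : pfC (piC [(nat_lit 35404596), (nat_lit 22827826), (nat_lit 14696761)] (nat_lit 7113113)) p14_20_2 (nat_lit 3) (nat_lit 98) (nat_lit 99) = true := by decide +kernel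
def p14_20_2_99 : pfC (piC [(nat_lit 35404596), (nat_lit 22827826), (nat_lit 14696761)] (nat_lit 7113113)) p14_20_2 (nat_lit 3) (nat_lit 99) (nat_lit 100) = true := by decide +kernel
def p14_20_2_100 : pfC (piC [(nat_lit 35404596), (nat_lit 22827826), (nat_lit 14696761)] (nat_lit 7113113)) p14_20_2 (nat_lit 3) (nat_lit 100) (nat_lit 101) = true := by decide +kernel
def p14_20_2_101 : pfC (piC [(nat_lit 35404596), (nat_lit 22827826), (nat_lit 14696761)] (nat_lit 7113113)) p14_20_2 (nat_lit 3) (nat_lit 101) (nat_lit 102) = true := by decide +kernel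
def p14_20_2_102 : pfC (piC [(nat_lit 35404596), (nat_lit 22827826), (nat_lit 14696761)] (nat_lit 7113113)) p14_20_2 (nat_lit 3) (nat_lit 102) (nat_lit 103) = true := by decide +kernel
def p14_20_2_103 : pfC (piC [(nat_lit 35404596), (nat_lit 22827826), (nat_lit 14696761)] (nat_lit 7113113)) p14_20_2 (nat_lit 3) (nat_lit 103) (nat_lit 104) = true := by decide +kernel
def p14_20_2_104 : pfC (piC [(nat_lit 35404596), (nat_lit 22827826), (nat_lit 14696761)] (nat_lit 7113113)) p14_20_2 (nat_lit 3) (nat_lit 104) (nat_lit 105) = true := by decide +kernel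
def p14_20_2_105 : pfC (piC [(nat_lit 35404596), (nat_lit 22827826), (nat_lit 14696761)] (nat_lit 7113113)) p14_20_2 (nat_lit 3) (nat_lit 105) (nat_lit 106) = true := by decide +kernel
def p14_20_2_106 : pfC (piC [(nat_lit 35404596), (nat_lit 22827826), (nat_lit 14696761)] (nat_lit 7113113)) p14_20_2 (nat_lit 3) (nat_lit 106) (nat_lit 107) = true := by decide +kernel
def p14_20_2_107 : pfC (piC [(nat_lit 35404596), (nat_lit 22827826), (nat_lit 14696761)] (nat_lit 7113113)) p14_20_2 (nat_lit 3) (nat_lit 107) (nat_lit 108) = true := by decide +kernel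
def p14_20_2_108 : pfC (piC [(nat_lit 35404596), (nat_lit 22827826), (nat_lit 14696761)] (nat_lit 7113113)) p14_20_2 (nat_lit 3) (nat_lit 108) (nat_lit 109) = true := by decide +kernel
def p14_20_2_109 : pfC (piC [(nat_lit 35404596), (nat_lit 22827826), (nat_lit 14696761)] (nat_lit 7113113)) p14_20_2 (nat_lit 3) (nat_lit 109) (nat_lit 110) = true := by decide +kernel
def p14_20_2_110 : pfC (piC [(nat_lit 35404596), (nat_lit 22827826), (nat_lit 14696761)] (nat_lit 7113113)) p14_20_2 (nat_lit 3) (nat_lit 110) (nat_lit 111) = true := by decide +kernel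
def p14_20_2_111 : pfC (piC [(nat_lit 35404596), (nat_lit 22827826), (nat_lit 14696761)] (nat_lit 7113113)) p14_20_2 (nat_lit 3) (nat_lit 111) (nat_lit 112) = true := by decide +kernel
def p14_20_2_112 : pfC (piC [(nat_lit 35404596), (nat_lit 22827826), (nat_lit 14696761)] (nat_lit 7113113)) p14_20_2 (nat_lit 3) (nat_lit 112) (nat_lit 113) = true := by decide +kernel
def p14_20_2_113 : pfC (piC [(nat_lit 35404596), (nat_lit 22827826), (nat_lit 14696761)] (nat_lit 7113113)) p14_20_2 (nat_lit 3) (nat_lit 113) (nat_lit 114) = true := by decide +kernel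
def p14_20_2_114 : pfC (piC [(nat_lit 35404596), (nat_lit 22827826), (nat_lit 14696761)] (nat_lit 7113113)) p14_20_2 (nat_lit 3) (nat_lit 114) (nat_lit 115) = true := by decide +kernel
def p14_20_2_115 : pfC (piC [(nat_lit 35404596), (nat_lit 22827826), (nat_lit 14696761)] (nat_lit 7113113)) p14_20_2 (nat_lit 3) (nat_lit 115) (nat_lit 116) = true := by decide +kernel
def p14_20_2_116 : pfC (piC [(nat_lit 35404596), (nat_lit 22827826), (nat_lit 14696761)] (nat_lit 7113113)) p14_20_2 (nat_lit 3) (nat_lit 116) (nat_lit 117) = true := by decide +kernel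
def p14_20_2_117 : pfC (piC [(nat_lit 35404596), (nat_lit 22827826), (nat_lit 14696761)] (nat_lit 7113113)) p14_20_2 (nat_lit 3) (nat_lit 117) (nat_lit 118) = true := by decide +kernel
def p14_20_2_118 : pfC (piC [(nat_lit 35404596), (nat_lit 22827826), (nat_lit 14696761)] (nat_lit 7113113)) p14_20_2 (nat_lit 3) (nat_lit 118) (nat_lit 119) = true := by decide +kernel
def p14_20_2_119 : pfC (piC [(nat_lit 35404596), (nat_lit 22827826), (nat_lit 14696761)] (nat_lit 7113113)) p14_20_2 (nat_lit 3) (nat_lit 119) (nat_lit 120) = true := by decide +kernel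
def p14_20_2_120 : pfC (piC [(nat_lit 35404596), (nat_lit 22827826), (nat_lit 14696761)] (nat_lit 7113113)) p14_20_2 (nat_lit 3) (nat_lit 120) (nat_lit 121) = true := by decide +kernel
def p14_20_2_121 : pfC (piC [(nat_lit 35404596), (nat_lit 22827826), (nat_lit 14696761)] (nat_lit 7113113)) p14_20_2 (nat_lit 3) (nat_lit 121) (nat_lit 122) = true := by decide +kernel
def p14_20_2_122 : pfC (piC [(nat_lit 35404596), (nat_lit 22827826), (nat_lit 14696761)] (nat_lit 7113113)) p14_20_2 (nat_lit 3) (nat_lit 122) (nat_lit 123) = true := by decide +kernel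
def p14_20_2_123 : pfC (piC [(nat_lit 35404596), (nat_lit 22827826), (nat_lit 14696761)] (nat_lit 7113113)) p14_20_2 (nat_lit 3) (nat_lit 123) (nat_lit 124) = true := by decide +kernel
def p14_20_2_124 : pfC (piC [(nat_lit 35404596), (nat_lit 22827826), (nat_lit 14696761)] (nat_lit 7113113)) p14_20_2 (nat_lit 3) (nat_lit 124) (nat_lit 125) = true := by decide +kernel
def p14_20_2_125 : pfC (piC [(nat_lit 35404596), (nat_lit 22827826), (nat_lit 14696761)] (nat_lit 7113113)) p14_20_2 (nat_lit 3) (nat_lit 125) (nat_lit 126) = true := by decide +kernel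
def p14_20_2_126 : pfC (piC [(nat_lit 35404596), (nat_lit 22827826), (nat_lit 14696761)] (nat_lit 7113113)) p14_20_2 (nat_lit 3) (nat_lit 126) (nat_lit 127) = true := by decide +kernel
def p14_20_2_127 : pfC (piC [(nat_lit 35404596), (nat_lit 22827826), (nat_lit 14696761)] (nat_lit 7113113)) p14_20_2 (nat_lit 3) (nat_lit 127) (nat_lit 128) = true := by decide +kernel
def p14_20_2_128 : pfC (piC [(nat_lit 35404596), (nat_lit 22827826), (nat_lit 14696761)] (nat_lit 7113113)) p14_20_2 (nat_lit 3) (nat_lit 128) (nat_lit 129) = true := by decide +kernel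
def p14_20_2_129 : pfC (piC [(nat_lit 35404596), (nat_lit 22827826), (nat_lit 14696761)] (nat_lit 7113113)) p14_20_2 (nat_lit 3) (nat_lit 129) (nat_lit 130) = true := by decide +kernel
def p14_20_2_130 : pfC (piC [(nat_lit 35404596), (nat_lit 22827826), (nat_lit 14696761)] (nat_lit 7113113)) p14_20_2 (nat_lit 3) (nat_lit 130) (nat_lit 131) = true := by decide +kernel
def p14_20_2_131 : pfC (piC [(nat_lit 35404596), (nat_lit 22827826), (nat_lit 14696761)] (nat_lit 7113113)) p14_20_2 (nat_lit 3) (nat_lit 131) (nat_lit 132) = true := by decide +kernel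
def p14_20_2_132 : pfC (piC [(nat_lit 35404596), (nat_lit 22827826), (nat_lit 14696761)] (nat_lit 7113113)) p14_20_2 (nat_lit 3) (nat_lit 132) (nat_lit 133) = true := by decide +kernel
def p14_20_2_133 : pfC (piC [(nat_lit 35404596), (nat_lit 22827826), (nat_lit 14696761)] (nat_lit 7113113)) p14_20_2 (nat_lit 3) (nat_lit 133) (nat_lit 134) = true := by decide +kernel
def p14_20_2_134 : pfC (piC [(nat_lit 35404596), (nat_lit 22827826), (nat_lit 14696761)] (nat_lit 7113113)) p14_20_2 (nat_lit 3) (nat_lit 134) (nat_lit 135) = true := by decide +kernel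
def p14_20_2_135 : pfC (piC [(nat_lit 35404596), (nat_lit 22827826), (nat_lit 14696761)] (nat_lit 7113113)) p14_20_2 (nat_lit 3) (nat_lit 135) (nat_lit 136) = true := by decide +kernel
def p14_20_2_136 : pfC (piC [(nat_lit 35404596), (nat_lit 22827826), (nat_lit 14696761)] (nat_lit 7113113)) p14_20_2 (nat_lit 3) (nat_lit 136) (nat_lit 137) = true := by decide +kernel
def p14_20_2_137 : pfC (piC [(nat_lit 35404596), (nat_lit 22827826), (nat_lit 14696761)] (nat_lit 7113113)) p14_20_2 (nat_lit 3) (nat_lit 137) (nat_lit 138) = true := by decide +kernel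
def p14_20_2_138 : pfC (piC [(nat_lit 35404596), (nat_lit 22827826), (nat_lit 14696761)] (nat_lit 7113113)) p14_20_2 (nat_lit 3) (nat_lit 138) (nat_lit 139) = true := by decide +kernel
def p14_20_2_139 : pfC (piC [(nat_lit 35404596), (nat_lit 22827826), (nat_lit 14696761)] (nat_lit 7113113)) p14_20_2 (nat_lit 3) (nat_lit 139) (nat_lit 140) = true := by decide +kernel
def p14_20_2_140 : pfC (piC [(nat_lit 35404596), (nat_lit 22827826), (nat_lit 14696761)] (nat_lit 7113113)) p14_20_2 (nat_lit 3) (nat_lit 140) (nat_lit 141) = true := by decide +kernel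
def p14_20_2_141 : pfC (piC [(nat_lit 35404596), (nat_lit 22827826), (nat_lit 14696761)] (nat_lit 7113113)) p14_20_2 (nat_lit 3) (nat_lit 141) (nat_lit 142) = true := by decide +kernel
def p14_20_2_142 : pfC (piC [(nat_lit 35404596), (nat_lit 22827826), (nat_lit 14696761)] (nat_lit 7113113)) p14_20_2 (nat_lit 3) (nat_lit 142) (nat_lit 143) = true := by decide +kernel
def p14_20_2_143 : pfC (piC [(nat_lit 35404596), (nat_lit 22827826), (nat_lit 14696761)] (nat_lit 7113113)) p14_20_2 (nat_lit 3) (nat_lit 143) (nat_lit 144) = true := by decide +kernel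
def p14_20_2_144 : pfC (piC [(nat_lit 35404596), (nat_lit 22827826), (nat_lit 14696761)] (nat_lit 7113113)) p14_20_2 (nat_lit 3) (nat_lit 144) (nat_lit 145) = true := by decide +kernel
def p14_20_2_145 : pfC (piC [(nat_lit 35404596), (nat_lit 22827826), (nat_lit 14696761)] (nat_lit 7113113)) p14_20_2 (nat_lit 3) (nat_lit 145) (nat_lit 146) = true := by decide +kernel
def p14_20_2_146 : pfC (piC [(nat_lit 35404596), (nat_lit 22827826), (nat_lit 14696761)] (nat_lit 7113113)) p14_20_2 (nat_lit 3) (nat_lit 146) (nat_lit 147) = true := by decide +kernel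
def p14_20_2_147 : pfC (piC [(nat_lit 35404596), (nat_lit 22827826), (nat_lit 14696761)] (nat_lit 7113113)) p14_20_2 (nat_lit 3) (nat_lit 147) (nat_lit 148) = true := by decide +kernel
def p14_20_2_148 : pfC (piC [(nat_lit 35404596), (nat_lit 22827826), (nat_lit 14696761)] (nat_lit 7113113)) p14_20_2 (nat_lit 3) (nat_lit 148) (nat_lit 149) = true := by decide +kernel
def p14_20_2_149 : pfC (piC [(nat_lit 35404596), (nat_lit 22827826), (nat_lit 14696761)] (nat_lit 7113113)) p14_20_2 (nat_lit 3) (nat_lit 149) (nat_lit 150) = true := by decide +kernel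
def p14_20_2_150 : pfC (piC [(nat_lit 35404596), (nat_lit 22827826), (nat_lit 14696761)] (nat_lit 7113113)) p14_20_2 (nat_lit 3) (nat_lit 150) (nat_lit 151) = true := by decide +kernel
def p14_20_2_151 : pfC (piC [(nat_lit 35404596), (nat_lit 22827826), (nat_lit 14696761)] (nat_lit 7113113)) p14_20_2 (nat_lit 3) (nat_lit 151) (nat_lit 152) = true := by decide +kernel
def p14_20_2_152 : pfC (piC [(nat_lit 35404596), (nat_lit 22827826), (nat_lit 14696761)] (nat_lit 7113113)) p14_20_2 (nat_lit 3) (nat_lit 152) (nat_lit 153) = true := by decide +kernel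
def p14_20_2_153 : pfC (piC [(nat_lit 35404596), (nat_lit 22827826), (nat_lit 14696761)] (nat_lit 7113113)) p14_20_2 (nat_lit 3) (nat_lit 153) (nat_lit 154) = true := by decide +kernel
def p14_20_2_154 : pfC (piC [(nat_lit 35404596), (nat_lit 22827826), (nat_lit 14696761)] (nat_lit 7113113)) p14_20_2 (nat_lit 3) (nat_lit 154) (nat_lit 155) = true := by decide +kernel
def p14_20_2_155 : pfC (piC [(nat_lit 35404596), (nat_lit 22827826), (nat_lit 14696761)] (nat_lit 7113113)) p14_20_2 (nat_lit 3) (nat_lit 155) (nat_lit 156) = true := by decide +kernel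
def p14_20_2_156 : pfC (piC [(nat_lit 35404596), (nat_lit 22827826), (nat_lit 14696761)] (nat_lit 7113113)) p14_20_2 (nat_lit 3) (nat_lit 156) (nat_lit 157) = true := by decide +kernel
def p14_20_2_157 : pfC (piC [(nat_lit 35404596), (nat_lit 22827826), (nat_lit 14696761)] (nat_lit 7113113)) p14_20_2 (nat_lit 3) (nat_lit 157) (nat_lit 158) = true := by decide +kernel
def p14_20_2_158 : pfC (piC [(nat_lit 35404596), (nat_lit 22827826), (nat_lit 14696761)] (nat_lit 7113113)) p14_20_2 (nat_lit 3) (nat_lit 158) (nat_lit 159) = true := by decide +kernel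
def p14_20_2_159 : pfC (piC [(nat_lit 35404596), (nat_lit 22827826), (nat_lit 14696761)] (nat_lit 7113113)) p14_20_2 (nat_lit 3) (nat_lit 159) (nat_lit 160) = true := by decide +kernel
def p14_20_2_160 : pfC (piC [(nat_lit 35404596), (nat_lit 22827826), (nat_lit 14696761)] (nat_lit 7113113)) p14_20_2 (nat_lit 3) (nat_lit 160) (nat_lit 161) = true := by decide +kernel
def p14_20_2_161 : pfC (piC [(nat_lit 35404596), (nat_lit 22827826), (nat_lit 14696761)] (nat_lit 7113113)) p14_20_2 (nat_lit 3) (nat_lit 161) (nat_lit 162) = true := by decide +kernel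
def p14_20_2_162 : pfC (piC [(nat_lit 35404596), (nat_lit 22827826), (nat_lit 14696761)] (nat_lit 7113113)) p14_20_2 (nat_lit 3) (nat_lit 162) (nat_lit 163) = true := by decide +kernel
def p14_20_2_163 : pfC (piC [(nat_lit 35404596), (nat_lit 22827826), (nat_lit 14696761)] (nat_lit 7113113)) p14_20_2 (nat_lit 3) (nat_lit 163) (nat_lit 164) = true := by decide +kernel
def p14_20_2_164 : pfC (piC [(nat_lit 35404596), (nat_lit 22827826), (nat_lit 14696761)] (nat_lit 7113113)) p14_20_2 (nat_lit 3) (nat_lit 164) (nat_lit 165) = true := by decide +kernel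
def p14_20_2_165 : pfC (piC [(nat_lit 35404596), (nat_lit 22827826), (nat_lit 14696761)] (nat_lit 7113113)) p14_20_2 (nat_lit 3) (nat_lit 165) (nat_lit 166) = true := by decide +kernel
def p14_20_2_166 : pfC (piC [(nat_lit 35404596), (nat_lit 22827826), (nat_lit 14696761)] (nat_lit 7113113)) p14_20_2 (nat_lit 3) (nat_lit 166) (nat_lit 167) = true := by decide +kernel
def p14_20_2_167 : pfC (piC [(nat_lit 35404596), (nat_lit 22827826), (nat_lit 14696761)] (nat_lit 7113113)) p14_20_2 (nat_lit 3) (nat_lit 167) (nat_lit 168) = true := by decide +kernel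
def p14_20_2_168 : pfC (piC [(nat_lit 35404596), (nat_lit 22827826), (nat_lit 14696761)] (nat_lit 7113113)) p14_20_2 (nat_lit 3) (nat_lit 168) (nat_lit 169) = true := by decide +kernel
def p14_20_2_169 : pfC (piC [(nat_lit 35404596), (nat_lit 22827826), (nat_lit 14696761)] (nat_lit 7113113)) p14_20_2 (nat_lit 3) (nat_lit 169) (nat_lit 170) = true := by decide +kernel
def p14_20_2_170 : pfC (piC [(nat_lit 35404596), (nat_lit 22827826), (nat_lit 14696761)] (nat_lit 7113113)) p14_20_2 (nat_lit 3) (nat_lit 170) (nat_lit 171) = true := by decide +kernel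
def p14_20_2_171 : pfC (piC [(nat_lit 35404596), (nat_lit 22827826), (nat_lit 14696761)] (nat_lit 7113113)) p14_20_2 (nat_lit 3) (nat_lit 171) (nat_lit 172) = true := by decide +kernel
def p14_20_2_172 : pfC (piC [(nat_lit 35404596), (nat_lit 22827826), (nat_lit 14696761)] (nat_lit 7113113)) p14_20_2 (nat_lit 3) (nat_lit 172) (nat_lit 173) = true := by decide +kernel
def p14_20_2_173 : pfC (piC [(nat_lit 35404596), (nat_lit 22827826), (nat_lit 14696761)] (nat_lit 7113113)) p14_20_2 (nat_lit 3) (nat_lit 173) (nat_lit 174) = true := by decide +kernel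
def p14_20_2_174 : pfC (piC [(nat_lit 35404596), (nat_lit 22827826), (nat_lit 14696761)] (nat_lit 7113113)) p14_20_2 (nat_lit 3) (nat_lit 174) (nat_lit 175) = true := by decide +kernel
def p14_20_2_175 : pfC (piC [(nat_lit 35404596), (nat_lit 22827826), (nat_lit 14696761)] (nat_lit 7113113)) p14_20_2 (nat_lit 3) (nat_lit 175) (nat_lit 176) = true := by decide +kernel
def p14_20_2_176 : pfC (piC [(nat_lit 35404596), (nat_lit 22827826), (nat_lit 14696761)] (nat_lit 7113113)) p14_20_2 (nat_lit 3) (nat_lit 176) (nat_lit 177) = true := by decide +kernel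
def p14_20_2_177 : pfC (piC [(nat_lit 35404596), (nat_lit 22827826), (nat_lit 14696761)] (nat_lit 7113113)) p14_20_2 (nat_lit 3) (nat_lit 177) (nat_lit 178) = true := by decide +kernel
def p14_20_2_178 : pfC (piC [(nat_lit 35404596), (nat_lit 22827826), (nat_lit 14696761)] (nat_lit 7113113)) p14_20_2 (nat_lit 3) (nat_lit 178) (nat_lit 179) = true := by decide +kernel
def p14_20_2_179 : pfC (piC [(nat_lit 35404596), (nat_lit 22827826), (nat_lit 14696761)] (nat_lit 7113113)) p14_20_2 (nat_lit 3) (nat_lit 179) (nat_lit 180) = true := by decide +kernel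
def p14_20_2_180 : pfC (piC [(nat_lit 35404596), (nat_lit 22827826), (nat_lit 14696761)] (nat_lit 7113113)) p14_20_2 (nat_lit 3) (nat_lit 180) (nat_lit 181) = true := by decide +kernel
def p14_20_2_181 : pfC (piC [(nat_lit 35404596), (nat_lit 22827826), (nat_lit 14696761)] (nat_lit 7113113)) p14_20_2 (nat_lit 3) (nat_lit 181) (nat_lit 182) = true := by decide +kernel
def p14_20_2_182 : pfC (piC [(nat_lit 35404596), (nat_lit 22827826), (nat_lit 14696761)] (nat_lit 7113113)) p14_20_2 (nat_lit 3) (nat_lit 182) (nat_lit 183) = true := by decide +kernel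
def p14_20_2_183 : pfC (piC [(nat_lit 35404596), (nat_lit 22827826), (nat_lit 14696761)] (nat_lit 7113113)) p14_20_2 (nat_lit 3) (nat_lit 183) (nat_lit 184) = true := by decide +kernel
def p14_20_2_184 : pfC (piC [(nat_lit 35404596), (nat_lit 22827826), (nat_lit 14696761)] (nat_lit 7113113)) p14_20_2 (nat_lit 3) (nat_lit 184) (nat_lit 185) = true := by decide +kernel
def p14_20_2_185 : pfC (piC [(nat_lit 35404596), (nat_lit 22827826), (nat_lit 14696761)] (nat_lit 7113113)) p14_20_2 (nat_lit 3) (nat_lit 185) (nat_lit 186) = true := by decide +kernel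
def p14_20_2_186 : pfC (piC [(nat_lit 35404596), (nat_lit 22827826), (nat_lit 14696761)] (nat_lit 7113113)) p14_20_2 (nat_lit 3) (nat_lit 186) (nat_lit 187) = true := by decide +kernel
def p14_20_2_187 : pfC (piC [(nat_lit 35404596), (nat_lit 22827826), (nat_lit 14696761)] (nat_lit 7113113)) p14_20_2 (nat_lit 3) (nat_lit 187) (nat_lit 188) = true := by decide +kernel
def p14_20_2_188 : pfC (piC [(nat_lit 35404596), (nat_lit 22827826), (nat_lit 14696761)] (nat_lit 7113113)) p14_20_2 (nat_lit 3) (nat_lit 188) (nat_lit 189) = true := by decide +kernel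
def p14_20_2_189 : pfC (piC [(nat_lit 35404596), (nat_lit 22827826), (nat_lit 14696761)] (nat_lit 7113113)) p14_20_2 (nat_lit 3) (nat_lit 189) (nat_lit 190) = true := by decide +kernel
def p14_20_2_190 : pfC (piC [(nat_lit 35404596), (nat_lit 22827826), (nat_lit 14696761)] (nat_lit 7113113)) p14_20_2 (nat_lit 3) (nat_lit 190) (nat_lit 191) = true := by decide +kernel
def p14_20_2_191 : pfC (piC [(nat_lit 35404596), (nat_lit 22827826), (nat_lit 14696761)] (nat_lit 7113113)) p14_20_2 (nat_lit 3) (nat_lit 191) (nat_lit 192) = true := by decide +kernel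
def p14_20_2_192 : pfC (piC [(nat_lit 35404596), (nat_lit 22827826), (nat_lit 14696761)] (nat_lit 7113113)) p14_20_2 (nat_lit 3) (nat_lit 192) (nat_lit 193) = true := by decide +kernel
def p14_20_2_193 : pfC (piC [(nat_lit 35404596), (nat_lit 22827826), (nat_lit 14696761)] (nat_lit 7113113)) p14_20_2 (nat_lit 3) (nat_lit 193) (nat_lit 194) = true := by decide +kernel
def p14_20_2_194 : pfC (piC [(nat_lit 35404596), (nat_lit 22827826), (nat_lit 14696761)] (nat_lit 7113113)) p14_20_2 (nat_lit 3) (nat_lit 194) (nat_lit 195) = true := by decide +kernel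
def p14_20_2_195 : pfC (piC [(nat_lit 35404596), (nat_lit 22827826), (nat_lit 14696761)] (nat_lit 7113113)) p14_20_2 (nat_lit 3) (nat_lit 195) (nat_lit 196) = true := by decide +kernel
def p14_20_2_196 : pfC (piC [(nat_lit 35404596), (nat_lit 22827826), (nat_lit 14696761)] (nat_lit 7113113)) p14_20_2 (nat_lit 3) (nat_lit 196) (nat_lit 197) = true := by decide +kernel
def p14_20_2_197 : pfC (piC [(nat_lit 35404596), (nat_lit 22827826), (nat_lit 14696761)] (nat_lit 7113113)) p14_20_2 (nat_lit 3) (nat_lit 197) (nat_lit 198) = true := by decide +kernel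
def p14_20_2_198 : pfC (piC [(nat_lit 35404596), (nat_lit 22827826), (nat_lit 14696761)] (nat_lit 7113113)) p14_20_2 (nat_lit 3) (nat_lit 198) (nat_lit 199) = true := by decide +kernel
def p14_20_2_199 : pfC (piC [(nat_lit 35404596), (nat_lit 22827826), (nat_lit 14696761)] (nat_lit 7113113)) p14_20_2 (nat_lit 3) (nat_lit 199) (nat_lit 200) = true := by decide +kernel
def p14_20_2_200 : pfC (piC [(nat_lit 35404596), (nat_lit 22827826), (nat_lit 14696761)] (nat_lit 7113113)) p14_20_2 (nat_lit 3) (nat_lit 200) (nat_lit 201) = true := by decide +kernel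
def p14_20_2_201 : pfC (piC [(nat_lit 35404596), (nat_lit 22827826), (nat_lit 14696761)] (nat_lit 7113113)) p14_20_2 (nat_lit 3) (nat_lit 201) (nat_lit 202) = true := by decide +kernel
def p14_20_2_202 : pfC (piC [(nat_lit 35404596), (nat_lit 22827826), (nat_lit 14696761)] (nat_lit 7113113)) p14_20_2 (nat_lit 3) (nat_lit 202) (nat_lit 203) = true := by decide +kernel
def p14_20_2_203 : pfC (piC [(nat_lit 35404596), (nat_lit 22827826), (nat_lit 14696761)] (nat_lit 7113113)) p14_20_2 (nat_lit 3) (nat_lit 203) (nat_lit 204) = true := by decide +kernel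
def p14_20_2_204 : pfC (piC [(nat_lit 35404596), (nat_lit 22827826), (nat_lit 14696761)] (nat_lit 7113113)) p14_20_2 (nat_lit 3) (nat_lit 204) (nat_lit 205) = true := by decide +kernel
def p14_20_2_205 : pfC (piC [(nat_lit 35404596), (nat_lit 22827826), (nat_lit 14696761)] (nat_lit 7113113)) p14_20_2 (nat_lit 3) (nat_lit 205) (nat_lit 206) = true := by decide +kernel
def p14_20_2_206 : pfC (piC [(nat_lit 35404596), (nat_lit 22827826), (nat_lit 14696761)] (nat_lit 7113113)) p14_20_2 (nat_lit 3) (nat_lit 206) (nat_lit 207) = true := by decide +kernel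
def p14_20_2_207 : pfC (piC [(nat_lit 35404596), (nat_lit 22827826), (nat_lit 14696761)] (nat_lit 7113113)) p14_20_2 (nat_lit 3) (nat_lit 207) (nat_lit 208) = true := by decide +kernel
def p14_20_2_208 : pfC (piC [(nat_lit 35404596), (nat_lit 22827826), (nat_lit 14696761)] (nat_lit 7113113)) p14_20_2 (nat_lit 3) (nat_lit 208) (nat_lit 209) = true := by decide +kernel
def p14_20_2_209 : pfC (piC [(nat_lit 35404596), (nat_lit 22827826), (nat_lit 14696761)] (nat_lit 7113113)) p14_20_2 (nat_lit 3) (nat_lit 209) (nat_lit 210) = true := by decide +kernel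
def p14_20_2_210 : pfC (piC [(nat_lit 35404596), (nat_lit 22827826), (nat_lit 14696761)] (nat_lit 7113113)) p14_20_2 (nat_lit 3) (nat_lit 210) (nat_lit 211) = true := by decide +kernel
def p14_20_2_211 : pfC (piC [(nat_lit 35404596), (nat_lit 22827826), (nat_lit 14696761)] (nat_lit 7113113)) p14_20_2 (nat_lit 3) (nat_lit 211) (nat_lit 212) = true := by decide +kernel
def p14_20_2_212 : pfC (piC [(nat_lit 35404596), (nat_lit 22827826), (nat_lit 14696761)] (nat_lit 7113113)) p14_20_2 (nat_lit 3) (nat_lit 212) (nat_lit 213) = true := by decide +kernel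
def p14_20_2_213 : pfC (piC [(nat_lit 35404596), (nat_lit 22827826), (nat_lit 14696761)] (nat_lit 7113113)) p14_20_2 (nat_lit 3) (nat_lit 213) (nat_lit 214) = true := by decide +kernel
theorem p14_20_2_T : PfS (PiF n14_20.reverse (nat_lit 7113113)) p14_20_2 (nat_lit 3) [] 0 :=
  pftab_of (los := [(nat_lit 35404596), (nat_lit 22827826), (nat_lit 14696761)]) (by decide +kernel) (hi := (nat_lit 214)) (PfP.trans (PfP.trans (PfP.trans (PfP.trans (PfP.trans (PfP.trans (PfP.trans (PfP.trans (PfP.trans (PfP.trans (PfP.trans (PfP.trans (PfP.trans (PfP.trans (PfP.trans (PfP.trans (PfP.trans (PfP.trans (PfP.trans (PfP.trans (PfP.trans (PfP.trans (PfP.trans (PfP.trans (PfP.trans (PfP.trans (PfP.trans (PfP.trans (PfP.trans (PfP.trans (PfP.trans (PfP.trans (PfP.trans (PfP.trans (PfP.trans (PfP.trans (PfP.trans (PfP.trans (PfP.trans (PfP.trans (PfP.trans (PfP.trans (PfP.trans (PfP.trans (PfP.trans (PfP.trans (PfP.trans (PfP.trans (PfP.trans (PfP.trans (PfP.trans (PfP.trans (PfP.trans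 (PfP.trans (PfP.trans (PfP.trans (PfP.trans (PfP.trans (PfP.trans (PfP.trans (PfP.trans (PfP.trans (PfP.trans (PfP.trans (PfP.trans (PfP.trans (PfP.trans (PfP.trans (PfP.trans (PfP.trans (PfP.trans (PfP.trans (PfP.trans (PfP.trans (PfP.trans (PfP.trans (PfP.trans (PfP.trans (PfP.trans (PfP.trans (PfP.trans (PfP.trans (PfP.trans (PfP.trans (PfP.trans (PfP.trans (PfP.trans (PfP.trans (PfP.trans (PfP.trans (PfP.trans (PfP.trans (PfP.trans (PfP.trans (PfP.trans (PfP.trans (PfP.trans (PfP.trans (PfP.trans (PfP.trans (PfP.trans (PfP.trans (PfP.trans (PfP.trans (PfP.trans (PfP.trans (PfP.trans (PfP.trans (PfP.trans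
 (PfP.trans (PfP.trans (PfP.trans (PfP.trans (PfP.trans (PfP.trans (PfP.trans (PfP.trans (PfP.trans (PfP.trans (PfP.trans (PfP.trans (PfP.trans (PfP.trans (PfP.trans (PfP.trans (PfP.trans (PfP.trans (PfP.trans (PfP.trans (PfP.trans (PfP.trans (PfP.trans (PfP.trans (PfP.trans (PfP.trans (PfP.trans (PfP.trans (PfP.trans (PfP.trans (PfP.trans (PfP.trans (PfP.trans (PfP.trans (PfP.trans (PfP.trans (PfP.trans (PfP.trans (PfP.trans (PfP.trans (PfP.trans (PfP.trans (PfP.trans (PfP.trans (PfP.trans (PfP.trans (PfP.trans (PfP.trans (PfP.trans (PfP.trans (PfP.trans (PfP.trans (PfP.trans (PfP.trans (PfP.trans (PfP.trans (PfP.trans (PfP.trans (PfP.trans (PfP.trans (PfP.trans (PfP.trans (PfP.trans (PfP.trans (PfP.trans (PfP.trans (PfP.trans (PfP.trans (PfP.trans (PfP.trans (PfP.trans (PfP.trans (PfP.trans (PfP.trans (PfP.trans (PfP.trans (PfP.trans (PfP.trans (PfP.trans (PfP.trans (PfP.trans (PfP.trans (PfP.trans (PfP.trans (PfP.trans (PfP.trans (PfP.trans (PfP.trans (PfP.trans (PfP.trans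 (PfP.trans (PfP.trans (PfP.trans (PfP.trans (PfP.trans (PfP.trans (PfP.trans (PfP.trans (PfP.trans (PfP.trans (PfP.trans (PfP.trans (PfP.trans (PfP.trans (pfC_sound p14_20_2_0) (pfC_sound p14_20_2_1))
 (pfC_sound p14_20_2_2)) (pfC_sound p14_20_2_3)) (pfC_sound p14_20_2_4)) (pfC_sound p14_20_2_5)) (pfC_sound p14_20_2_6)) (pfC_sound p14_20_2_7)) (pfC_sound p14_20_2_8)) (pfC_sound p14_20_2_9)) (pfC_sound p14_20_2_10)) (pfC_sound p14_20_2_11)) (pfC_sound p14_20_2_12)) (pfC_sound p14_20_2_13)) (pfC_sound p14_20_2_14)) (pfC_sound p14_20_2_15)) (pfC_sound p14_20_2_16)) (pfC_sound p14_20_2_17)) (pfC_sound p14_20_2_18)) (pfC_sound p14_20_2_19)) (pfC_sound p14_20_2_20)) (pfC_sound p14_20_2_21)) (pfC_sound p14_20_2_22)) (pfC_sound p14_20_2_23)) (pfC_sound p14_20_2_24)) (pfC_sound p14_20_2_25)) (pfC_sound p14_20_2_26)) (pfC_sound p14_20_2_27)) (pfC_sound p14_20_2_28)) (pfC_sound p14_20_2_29)) (pfC_sound p14_20_2_30)) (pfC_sound p14_20_2_31)) (pfC_sound p14_20_2_32)) (pfC_sound p14_20_2_33))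 (pfC_sound p14_20_2_34)) (pfC_sound p14_20_2_35)) (pfC_sound p14_20_2_36)) (pfC_sound p14_20_2_37)) (pfC_sound p14_20_2_38)) (pfC_sound p14_20_2_39)) (pfC_sound p14_20_2_40)) (pfC_sound p14_20_2_41)) (pfC_sound p14_20_2_42)) (pfC_sound p14_20_2_43)) (pfC_sound p14_20_2_44)) (pfC_sound p14_20_2_45)) (pfC_sound p14_20_2_46)) (pfC_sound p14_20_2_47)) (pfC_sound p14_20_2_48)) (pfC_sound p14_20_2_49))
 (pfC_sound p14_20_2_50)) (pfC_sound p14_20_2_51)) (pfC_sound p14_20_2_52)) (pfC_sound p14_20_2_53)) (pfC_sound p14_20_2_54)) (pfC_sound p14_20_2_55)) (pfC_sound p14_20_2_56)) (pfC_sound p14_20_2_57)) (pfC_sound p14_20_2_58)) (pfC_sound p14_20_2_59)) (pfC_sound p14_20_2_60)) (pfC_sound p14_20_2_61)) (pfC_sound p14_20_2_62)) (pfC_sound p14_20_2_63)) (pfC_sound p14_20_2_64)) (pfC_sound p14_20_2_65)) (pfC_sound p14_20_2_66)) (pfC_sound p14_20_2_67)) (pfC_sound p14_20_2_68)) (pfC_sound p14_20_2_69)) (pfC_sound p14_20_2_70)) (pfC_sound p14_20_2_71)) (pfC_sound p14_20_2_72)) (pfC_sound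 p14_20_2_73)) (pfC_sound p14_20_2_74)) (pfC_sound p14_20_2_75)) (pfC_sound p14_20_2_76)) (pfC_sound p14_20_2_77)) (pfC_sound p14_20_2_78)) (pfC_sound p14_20_2_79)) (pfC_sound p14_20_2_80)) (pfC_sound p14_20_2_81)) (pfC_sound p14_20_2_82)) (pfC_sound p14_20_2_83)) (pfC_sound p14_20_2_84)) (pfC_sound p14_20_2_85)) (pfC_sound p14_20_2_86)) (pfC_sound p14_20_2_87)) (pfC_sound p14_20_2_88)) (pfC_sound p14_20_2_89)) (pfC_sound p14_20_2_90)) (pfC_sound p14_20_2_91)) (pfC_sound p14_20_2_92)) (pfC_sound p14_20_2_93)) (pfC_sound p14_20_2_94)) (pfC_sound p14_20_2_95)) (pfC_sound p14_20_2_96)) (pfC_sound p14_20_2_97))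
 (pfC_sound p14_20_2_98)) (pfC_sound p14_20_2_99)) (pfC_sound p14_20_2_100)) (pfC_sound p14_20_2_101)) (pfC_sound p14_20_2_102)) (pfC_sound p14_20_2_103)) (pfC_sound p14_20_2_104)) (pfC_sound p14_20_2_105)) (pfC_sound p14_20_2_106)) (pfC_sound p14_20_2_107)) (pfC_sound p14_20_2_108)) (pfC_sound p14_20_2_109)) (pfC_sound p14_20_2_110)) (pfC_sound p14_20_2_111)) (pfC_sound p14_20_2_112)) (pfC_sound p14_20_2_113)) (pfC_sound p14_20_2_114)) (pfC_sound p14_20_2_115)) (pfC_sound p14_20_2_116)) (pfC_sound p14_20_2_117)) (pfC_sound p14_20_2_118)) (pfC_sound p14_20_2_119)) (pfC_sound p14_20_2_120)) (pfC_sound p14_20_2_121)) (pfC_sound p14_20_2_122)) (pfC_sound p14_20_2_123)) (pfC_sound p14_20_2_124)) (pfC_sound p14_20_2_125)) (pfC_sound p14_20_2_126)) (pfC_sound p14_20_2_127)) (pfC_sound p14_20_2_128)) (pfC_sound p14_20_2_129)) (pfC_sound p14_20_2_130)) (pfC_sound p14_20_2_131)) (pfC_sound p14_20_2_132)) (pfC_sound p14_20_2_133)) (pfC_sound p14_20_2_134)) (pfC_sound p14_20_2_135))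 (pfC_sound p14_20_2_136)) (pfC_sound p14_20_2_137)) (pfC_sound p14_20_2_138)) (pfC_sound p14_20_2_139)) (pfC_sound p14_20_2_140)) (pfC_sound p14_20_2_141)) (pfC_sound p14_20_2_142)) (pfC_sound p14_20_2_143))
 (pfC_sound p14_20_2_144)) (pfC_sound p14_20_2_145)) (pfC_sound p14_20_2_146)) (pfC_sound p14_20_2_147)) (pfC_sound p14_20_2_148)) (pfC_sound p14_20_2_149)) (pfC_sound p14_20_2_150)) (pfC_sound p14_20_2_151)) (pfC_sound p14_20_2_152)) (pfC_sound p14_20_2_153)) (pfC_sound p14_20_2_154)) (pfC_sound p14_20_2_155)) (pfC_sound p14_20_2_156)) (pfC_sound p14_20_2_157)) (pfC_sound p14_20_2_158)) (pfC_sound p14_20_2_159)) (pfC_sound p14_20_2_160)) (pfC_sound p14_20_2_161)) (pfC_sound p14_20_2_162)) (pfC_sound p14_20_2_163)) (pfC_sound p14_20_2_164)) (pfC_sound p14_20_2_165)) (pfC_sound p14_20_2_166)) (pfC_sound p14_20_2_167)) (pfC_sound p14_20_2_168)) (pfC_sound p14_20_2_169)) (pfC_sound p14_20_2_170)) (pfC_sound p14_20_2_171)) (pfC_sound p14_20_2_172)) (pfC_sound p14_20_2_173))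 (pfC_sound p14_20_2_174)) (pfC_sound p14_20_2_175)) (pfC_sound p14_20_2_176)) (pfC_sound p14_20_2_177)) (pfC_sound p14_20_2_178)) (pfC_sound p14_20_2_179)) (pfC_sound p14_20_2_180)) (pfC_sound p14_20_2_181)) (pfC_sound p14_20_2_182)) (pfC_sound p14_20_2_183)) (pfC_sound p14_20_2_184)) (pfC_sound p14_20_2_185)) (pfC_sound p14_20_2_186)) (pfC_sound p14_20_2_187)) (pfC_sound p14_20_2_188)) (pfC_sound p14_20_2_189))
 (pfC_sound p14_20_2_190)) (pfC_sound p14_20_2_191)) (pfC_sound p14_20_2_192)) (pfC_sound p14_20_2_193)) (pfC_sound p14_20_2_194)) (pfC_sound p14_20_2_195)) (pfC_sound p14_20_2_196)) (pfC_sound p14_20_2_197)) (pfC_sound p14_20_2_198)) (pfC_sound p14_20_2_199)) (pfC_sound p14_20_2_200)) (pfC_sound p14_20_2_201)) (pfC_sound p14_20_2_202)) (pfC_sound p14_20_2_203)) (pfC_sound p14_20_2_204)) (pfC_sound p14_20_2_205)) (pfC_sound p14_20_2_206)) (pfC_sound p14_20_2_207)) (pfC_sound p14_20_2_208)) (pfC_sound p14_20_2_209)) (pfC_sound p14_20_2_210)) (pfC_sound p14_20_2_211))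 (pfC_sound p14_20_2_212)) (pfC_sound p14_20_2_213)) (by decide +kernel)

def z14_20_2 : zOK yB14_20 (nat_lit 2) (nat_lit 600) (nat_lit 682) (nat_lit 7113113) (nat_lit 6733447) = true := by decide +kernel
def g14_20_2 : gOK yB14_20.x P14_20 (nat_lit 1370) (q14_20 :: r14_20) (nat_lit 2) (nat_lit 600) (nat_lit 3) (nat_lit 682) (nat_lit 12712500) (nat_lit 12712500) (nat_lit 12712500) (nat_lit 12712500) [(nat_lit 800)] = true := by decide +kernel
def v14_20_2 : ivC P14_20 s14_20 w14_20 n14_20 (nat_lit 3) (nat_lit 4660) (nat_lit 2) (nat_lit 600) f184_0_600 f192_0_600 (nat_lit 3) (nat_lit 682) f184_0_682 f192_0_682 (nat_lit 7113113) (nat_lit 6733447) p14_20_2 = true := by decide +kernel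
end CB
end Pool.Agent.Lib.MP_6947cd_al
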