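import Pool.Agent.Lib.MP_6947cd_al.L.BoxDataB
import Pool.Agent.Lib.MP_6947cd_al.L.TeD1
import Pool.Agent.Lib.MP_6947cd_al.L.TeD2
import Pool.Agent.Lib.MP_6947cd_al.L.TeD3

/-!
Problem MP_6947cd_al (Chollet).  CASE B, rows `j`: boxes (generated).
-/

set_option autoImplicit false
set_option linter.defProp false
set_option maxRecDepth 20000

namespace Pool.Agent.Lib.MP_6947cd_al
namespace CB

open Ent Ent.Pk Fr Fr.WT CA

/-! box `yB14_23` -/

def P14_23 : BQ := ⟨(nat_lit 8), (nat_lit 2), (nat_lit 6), (nat_lit 0), (nat_lit 8), (nat_lit 990), (nat_lit 1000), (nat_lit 90), [(nat_lit 180), (nat_lit 330), (nat_lit 650)], (nat_lit 155344000), (nat_lit 16000000), (nat_lit 16000000000)⟩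
def q14_23 : PC := ⟨(nat_lit 1000), [(nat_lit 90000), (nat_lit 180000), (nat_lit 330000), (nat_lit 650000)], (nat_lit 18446744078004518913000000), (nat_lit 15844656000000), (nat_lit 15844656000000), (nat_lit 10000000)⟩
def r14_23 : List PC := [⟨(nat_lit 1294), [(nat_lit 90491), (nat_lit 180150), (nat_lit 330939), (nat_lit 648476)], (nat_lit 18511842637857321573630678), (nat_lit 16299508984640), (nat_lit 16304224791680), (nat_lit 10054556)⟩, ⟨(nat_lit 2050), [(nat_lit 93179), (nat_lit 181655), (nat_lit 343470), (nat_lit 620000)], (nat_lit 18666112758590276184785055), (nat_lit 17262644088000), (nat_lit 17279486256000), (nat_lit 10408182)⟩, ⟨(nat_lit 1226), [(nat_lit 90352), (nat_lit 179784), (nat_lit 336962), (nat_lit 620000)], (nat_lit 18493875509126079611617753), (nat_lit 16194394906560), (nat_lit 16198019982720), (nat_lit 10210970)⟩]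
def s14_23 : List PB := [⟨(nat_lit 25880), (nat_lit 1447856000000), [(nat_lit 180150), (nat_lit 330939), (nat_lit 648476)], (nat_lit 18511842637857321573630678), (nat_lit 1142199415827264), (nat_lit 1142204131634304), (nat_lit 47040)⟩, ⟨(nat_lit 41000), (nat_lit 1490864000000), [(nat_lit 181655), (nat_lit 343470), (nat_lit 620000)], (nat_lit 18666112758590276184785055), (nat_lit 1143162550930624), (nat_lit 1143179393098624), (nat_lit 168000)⟩, ⟨(nat_lit 24520), (nat_lit 1445632000000), [(nat_lit 179784), (nat_lit 336962), (nat_lit 620000)], (nat_lit 18493875509126079611617753), (nat_lit 1142094301749184), (nat_lit 1142097926825344), (nat_lit 36160)⟩]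
def n14_23 : List KN := [⟨(nat_lit 650), (nat_lit 330), (nat_lit 12587812), (nat_lit 10584306)⟩, ⟨(nat_lit 330), (nat_lit 180), (nat_lit 19449108), (nat_lit 12587812)⟩, ⟨(nat_lit 180), (nat_lit 90), (nat_lit 28473124), (nat_lit 19449108)⟩]
def w14_23 : List ℕ := [(nat_lit 47040), (nat_lit 168000), (nat_lit 36160)]
def par14_23 : parC yB14_23 P14_23 s14_23 r14_23 q14_23 n14_23 w14_23 = true := by decide +kernel

def p14_23_0 : PF := (PF.cons (PF.cons (PF.cons (PF.leaf (nat_lit 1343386) (nat_lit 5094592) (nat_lit 62014220) (nat_lit 5094592) [(nat_lit 0), (nat_lit 0), (nat_lit 0)]) (PF.cons (PF.leaf (nat_lit 1794490) (nat_lit 925725) (nat_lit 60926288) (nat_lit 5256798) [(nat_lit 925725), (nat_lit 0), (nat_lit 0)]) (PF.cons (PF.leaf (nat_lit 2327219) (nat_lit 1016976) (nat_lit 59661676) (nat_lit 5413183) [(nat_lit 1016976), (nat_lit 0), (nat_lit 0)]) (PF.cons (PF.leaf (nat_lit 2924449) (nat_lit 1096532) (nat_lit 58265403) (nat_lit 5553810) [(nat_lit 1096532), (nat_lit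 0), (nat_lit 0)]) (PF.cons (PF.leaf (nat_lit 3572062) (nat_lit 1165365) (nat_lit 56773692) (nat_lit 5673659) [(nat_lit 1165365), (nat_lit 0), (nat_lit 0)]) (PF.cons (PF.leaf (nat_lit 4257770) (nat_lit 1224228) (nat_lit 55217009) (nat_lit 5770661) [(nat_lit 1224228), (nat_lit 0), (nat_lit 0)]) (PF.cons (PF.leaf (nat_lit 4970835) (nat_lit 1273843) (nat_lit 53621174) (nat_lit 5844579) [(nat_lit 1273843), (nat_lit 0), (nat_lit 0)]) (PF.cons (PF.leaf (nat_lit 5701941) (nat_lit 1314946) (nat_lit 52007890) (nat_lit 5896298) [(nat_lit 1314946), (nat_lit 0), (nat_lit 0)]) (PF.cons (PF.leaf (nat_lit 6443135) (nat_lit 1348290) (nat_lit 50395115) (nat_lit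
 5927372) [(nat_lit 1348290), (nat_lit 0), (nat_lit 0)]) (PF.cons (PF.leaf (nat_lit 7187733) (nat_lit 1374631) (nat_lit 48797414) (nat_lit 5939716) [(nat_lit 1374631), (nat_lit 0), (nat_lit 0)]) (PF.cons (PF.leaf (nat_lit 7930229) (nat_lit 1394708) (nat_lit 47226332) (nat_lit 5935393) [(nat_lit 1394708), (nat_lit 0), (nat_lit 0)]) (PF.cons (PF.leaf (nat_lit 8666154) (nat_lit 1409231) (nat_lit 45690774) (nat_lit 5916486) [(nat_lit 1409231), (nat_lit 0), (nat_lit 0)]) (PF.cons (PF.leaf (nat_lit 9391994) (nat_lit 1418869) (nat_lit 44197382) (nat_lit 5884997) [(nat_lit 1418869), (nat_lit 0), (nat_lit 0)]) (PF.cons (PF.leaf (nat_lit 10104990) (nat_lit 1424239) (nat_lit 42750891) (nat_lit 5842804) [(nat_lit 1424239), (nat_lit 0), (nat_lit 0)]) (PF.cons (PF.leaf (nat_lit 10803100) (nat_lit 1425909) (nat_lit 41354462) (nat_lit 5791623) [(nat_lit 1425909), (nat_lit 0), (nat_lit 0)]) (PF.cons (PF.leaf (nat_lit 11484829) (nat_lit 1424388) (nat_lit 40009975) (nat_lit 5733002)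 [(nat_lit 1424388), (nat_lit 0), (nat_lit 0)]) (PF.cons (PF.leaf (nat_lit 12149169) (nat_lit 1420138) (nat_lit 38718284) (nat_lit 5668313) [(nat_lit 1420138), (nat_lit 0), (nat_lit 0)]) (PF.cons (PF.leaf (nat_lit
 12795464) (nat_lit 1413565) (nat_lit 37479437) (nat_lit 5598764) [(nat_lit 1413565), (nat_lit 0), (nat_lit 0)]) (PF.cons (PF.leaf (nat_lit 13423389) (nat_lit 1405030) (nat_lit 36292860) (nat_lit 5525407) [(nat_lit 1405030), (nat_lit 0), (nat_lit 0)]) (PF.cons PF.nil (PF.cons PF.nil (PF.cons PF.nil PF.nil)))))))))))))))))))))) (PF.cons (PF.cons (PF.leaf (nat_lit 2491371) (nat_lit 3209946) (nat_lit 58404426) (nat_lit 5494439) [(nat_lit 0), (nat_lit 3209946), (nat_lit 0)]) (PF.cons (PF.leaf (nat_lit 3055088) (nat_lit 1107107) (nat_lit 57070515) (nat_lit 5609839) [(nat_lit 1107107), (nat_lit 3321349), (nat_lit 0)]) (PF.cons (PF.leaf (nat_lit 3672587) (nat_lit 1172387) (nat_lit 55635764) (nat_lit 5708966) [(nat_lit 1172387), (nat_lit 3419306), (nat_lit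 0)]) (PF.cons (PF.leaf (nat_lit 4330347) (nat_lit 1227989) (nat_lit 54133910) (nat_lit 5788898) [(nat_lit 1227989), (nat_lit 3502036), (nat_lit 0)]) (PF.cons (PF.leaf (nat_lit 5017180) (nat_lit 1274716) (nat_lit 52591947) (nat_lit 5848793) [(nat_lit 1274716), (nat_lit 3569204), (nat_lit 0)]) (PF.cons (PF.leaf (nat_lit 5723627) (nat_lit 1313325) (nat_lit 51031822) (nat_lit 5889068) [(nat_lit 1313325), (nat_lit 3621296), (nat_lit 0)])
 (PF.cons (PF.leaf (nat_lit 6441706) (nat_lit 1344555) (nat_lit 49471331) (nat_lit 5910887) [(nat_lit 1344555), (nat_lit 3659263), (nat_lit 0)]) (PF.cons (PF.leaf (nat_lit 7164754) (nat_lit 1369134) (nat_lit 47924731) (nat_lit 5915831) [(nat_lit 1369134), (nat_lit 3684307), (nat_lit 0)]) (PF.cons (PF.leaf (nat_lit 7887277) (nat_lit 1387769) (nat_lit 46403236) (nat_lit 5905678) [(nat_lit 1387769), (nat_lit 3697740), (nat_lit 0)]) (PF.cons (PF.leaf (nat_lit 8604803) (nat_lit 1401133) (nat_lit 44915462) (nat_lit 5882258) [(nat_lit 1401133),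 (nat_lit 3700892), (nat_lit 0)]) (PF.cons (PF.leaf (nat_lit 9313790) (nat_lit 1409857) (nat_lit 43467820) (nat_lit 5847360) [(nat_lit 1409857), (nat_lit 3695057), (nat_lit 0)]) (PF.cons (PF.leaf (nat_lit 10011459) (nat_lit 1414527) (nat_lit 42064888) (nat_lit 5802673) [(nat_lit 1414527), (nat_lit 3681452), (nat_lit 0)]) (PF.cons (PF.leaf (nat_lit 10695680) (nat_lit 1415676) (nat_lit 40709734) (nat_lit 5749756) [(nat_lit 1415676), (nat_lit 3661203), (nat_lit 0)]) (PF.cons (PF.leaf (nat_lit 11364911) (nat_lit 1413789) (nat_lit 39404199) (nat_lit 5690019) [(nat_lit 1413789), (nat_lit 3635330), (nat_lit 0)]) (PF.cons (PF.leaf (nat_lit 12018026)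
 (nat_lit 1409299) (nat_lit 38149145) (nat_lit 5624720) [(nat_lit 1409299), (nat_lit 3604748), (nat_lit 0)]) (PF.cons (PF.leaf (nat_lit 12654337) (nat_lit 1402594) (nat_lit 36944664) (nat_lit 5554969) [(nat_lit 1402594), (nat_lit 3570268), (nat_lit 0)]) (PF.cons (PF.leaf (nat_lit 13273391) (nat_lit 1394013) (nat_lit 35790253) (nat_lit 5481737) [(nat_lit 1394013), (nat_lit 3532605), (nat_lit 0)]) (PF.cons PF.nil (PF.cons PF.nil (PF.cons PF.nil PF.nil)))))))))))))))))))) (PF.cons (PF.cons (PF.leaf (nat_lit 3777658) (nat_lit 3444421) (nat_lit 54484239) (nat_lit 5735730) [(nat_lit 0), (nat_lit 3444421), (nat_lit 0)]) (PF.cons (PF.leaf (nat_lit 4404893) (nat_lit 1228937) (nat_lit 53047832) (nat_lit 5800102) [(nat_lit 1228937), (nat_lit 3515969), (nat_lit 0)]) (PF.cons (PF.leaf (nat_lit 5064176) (nat_lit 1273383) (nat_lit 51566584) (nat_lit 5847312) [(nat_lit 1273383), (nat_lit 3574074), (nat_lit 0)]) (PF.cons (PF.leaf (nat_lit 5745345) (nat_lit 1309960) (nat_lit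 50064031) (nat_lit 5877289) [(nat_lit 1309960), (nat_lit 3618804), (nat_lit 0)]) (PF.cons (PF.leaf (nat_lit 6440125) (nat_lit 1339440) (nat_lit 48558603) (nat_lit 5890818) [(nat_lit 1339440), (nat_lit 3650813), (nat_lit 0)])
 (PF.cons (PF.leaf (nat_lit 7141687) (nat_lit 1362549) (nat_lit 47064755) (nat_lit 5889166) [(nat_lit 1362549), (nat_lit 3671071), (nat_lit 0)]) (PF.cons (PF.leaf (nat_lit 7844448) (nat_lit 1379976) (nat_lit 45593710) (nat_lit 5873845) [(nat_lit 1379976), (nat_lit 3680699), (nat_lit 0)]) (PF.cons (PF.leaf (nat_lit 8543867) (nat_lit 1392368) (nat_lit 44154031) (nat_lit 5846455) [(nat_lit 1392368), (nat_lit 3680872), (nat_lit 0)]) (PF.cons (PF.leaf (nat_lit 9236335) (nat_lit 1400332) (nat_lit 42752070) (nat_lit 5808588) [(nat_lit 1400332), (nat_lit 3672747), (nat_lit 0)]) (PF.cons (PF.leaf (nat_lit 9919001) (nat_lit 1404424) (nat_lit 41392371) (nat_lit 5761764) [(nat_lit 1404424), (nat_lit 3657428), (nat_lit 0)]) (PF.cons (PF.leaf (nat_lit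 10589662) (nat_lit 1405153) (nat_lit 40077993) (nat_lit 5707395) [(nat_lit 1405153), (nat_lit 3635942), (nat_lit 0)]) (PF.cons (PF.leaf (nat_lit 11246681) (nat_lit 1402980) (nat_lit 38810806) (nat_lit 5646768) [(nat_lit 1402980), (nat_lit 3609226), (nat_lit 0)]) (PF.cons (PF.leaf (nat_lit 11888869) (nat_lit 1398316) (nat_lit 37591726) (nat_lit 5581037) [(nat_lit 1398316), (nat_lit 3578124), (nat_lit 0)]) (PF.cons (PF.leaf (nat_lit 12515410)
 (nat_lit 1391529) (nat_lit 36420921) (nat_lit 5511224) [(nat_lit 1391529), (nat_lit 3543389), (nat_lit 0)]) (PF.cons (PF.leaf (nat_lit 13125806) (nat_lit 1382945) (nat_lit 35297982) (nat_lit 5438225) [(nat_lit 1382945), (nat_lit 3505684), (nat_lit 0)]) (PF.cons PF.nil (PF.cons PF.nil (PF.cons PF.nil PF.nil)))))))))))))))))) (PF.cons (PF.cons (PF.leaf (nat_lit 5114609) (nat_lit 3575444) (nat_lit 50541914) (nat_lit 5840564) [(nat_lit 0), (nat_lit 3575444), (nat_lit 0)]) (PF.cons (PF.leaf (nat_lit 5769140) (nat_lit 1304818)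 (nat_lit 49102314) (nat_lit 5861296) [(nat_lit 1304818), (nat_lit 3613461), (nat_lit 0)]) (PF.cons (PF.leaf (nat_lit 6439955) (nat_lit 1332937) (nat_lit 47655275) (nat_lit 5867429) [(nat_lit 1332937), (nat_lit 3640077), (nat_lit 0)]) (PF.cons (PF.leaf (nat_lit 7119764) (nat_lit 1354877) (nat_lit 46216158) (nat_lit 5859929) [(nat_lit 1354877), (nat_lit 3656031), (nat_lit 0)]) (PF.cons (PF.leaf (nat_lit 7802726) (nat_lit 1371333) (nat_lit 44796641) (nat_lit 5840057) [(nat_lit 1371333), (nat_lit 3662260), (nat_lit 0)]) (PF.cons (PF.leaf (nat_lit 8484145) (nat_lit 1382944) (nat_lit 43405520) (nat_lit 5809203) [(nat_lit 1382944), (nat_lit 3659788), (nat_lit 0)])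
 (PF.cons (PF.leaf (nat_lit 9160272) (nat_lit 1390300) (nat_lit 42049286) (nat_lit 5768778) [(nat_lit 1390300), (nat_lit 3649649), (nat_lit 0)]) (PF.cons (PF.leaf (nat_lit 9828141) (nat_lit 1393937) (nat_lit 40732583) (nat_lit 5720147) [(nat_lit 1393937), (nat_lit 3632840), (nat_lit 0)]) (PF.cons (PF.leaf (nat_lit 10485464) (nat_lit 1394345) (nat_lit 39458561) (nat_lit 5664592) [(nat_lit 1394345), (nat_lit 3610299), (nat_lit 0)]) (PF.cons (PF.leaf (nat_lit 11130488) (nat_lit 1391964) (nat_lit 38229186) (nat_lit 5603287) [(nat_lit 1391964), (nat_lit 3582886), (nat_lit 0)]) (PF.cons (PF.leaf (nat_lit 11761945) (nat_lit 1387189) (nat_lit 37045475) (nat_lit 5537291) [(nat_lit 1387189), (nat_lit 3551382), (nat_lit 0)]) (PF.cons (PF.leaf (nat_lit 12378917) (nat_lit 1380373) (nat_lit 35907711) (nat_lit 5467545) [(nat_lit 1380373), (nat_lit 3516484), (nat_lit 0)]) (PF.cons (PF.leaf (nat_lit 12980804) (nat_lit 1371825) (nat_lit 34815600) (nat_lit 5394879) [(nat_lit 1371825),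 (nat_lit 3478809), (nat_lit 0)]) (PF.cons (PF.leaf (nat_lit 13567254) (nat_lit 1361820) (nat_lit 33768418) (nat_lit 5320017) [(nat_lit 1361820), (nat_lit 3438902), (nat_lit 0)]) (PF.cons PF.nil (PF.cons PF.nil
 PF.nil)))))))))))))))) (PF.cons (PF.cons (PF.leaf (nat_lit 6443078) (nat_lit 3627212) (nat_lit 46759037) (nat_lit 5840925) [(nat_lit 0), (nat_lit 3627212), (nat_lit 0)]) (PF.cons (PF.leaf (nat_lit 7100375) (nat_lit 1346086) (nat_lit 45377212) (nat_lit 5828281) [(nat_lit 1346086), (nat_lit 3639308), (nat_lit 0)]) (PF.cons (PF.leaf (nat_lit 7763196) (nat_lit 1361824) (nat_lit 44010662) (nat_lit 5804441) [(nat_lit 1361824), (nat_lit 3642514), (nat_lit 0)]) (PF.cons (PF.leaf (nat_lit 8426486) (nat_lit 1372853) (nat_lit 42668803) (nat_lit 5770600) [(nat_lit 1372853), (nat_lit 3637712), (nat_lit 0)]) (PF.cons (PF.leaf (nat_lit 9086274) (nat_lit 1379756) (nat_lit 41358513) (nat_lit 5728004) [(nat_lit 1379756), (nat_lit 3625817), (nat_lit 0)]) (PF.cons (PF.leaf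 (nat_lit 9739429) (nat_lit 1383062) (nat_lit 40084699) (nat_lit 5677881) [(nat_lit 1383062), (nat_lit 3607729), (nat_lit 0)]) (PF.cons (PF.leaf (nat_lit 10383526) (nat_lit 1383248) (nat_lit 38850716) (nat_lit 5621390) [(nat_lit 1383248), (nat_lit 3584304), (nat_lit 0)]) (PF.cons (PF.leaf (nat_lit 11016696) (nat_lit 1380739) (nat_lit 37658699) (nat_lit 5559606) [(nat_lit 1380739), (nat_lit 3556333), (nat_lit 0)]) (PF.cons (PF.leaf
 (nat_lit 11637538) (nat_lit 1375917) (nat_lit 36509826) (nat_lit 5493501) [(nat_lit 1375917), (nat_lit 3524536), (nat_lit 0)]) (PF.cons (PF.leaf (nat_lit 12245056) (nat_lit 1369121) (nat_lit 35404526) (nat_lit 5423945) [(nat_lit 1369121), (nat_lit 3489562), (nat_lit 0)]) (PF.cons (PF.leaf (nat_lit 12838546) (nat_lit 1360650) (nat_lit 34342653) (nat_lit 5351707) [(nat_lit 1360650), (nat_lit 3451987), (nat_lit 0)]) (PF.cons (PF.leaf (nat_lit 13417569) (nat_lit 1350768) (nat_lit 33323620) (nat_lit 5277460) [(nat_lit 1350768), (nat_lit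 3412319), (nat_lit 0)]) (PF.cons PF.nil (PF.cons PF.nil PF.nil)))))))))))))) (PF.cons (PF.cons (PF.leaf (nat_lit 7727144) (nat_lit 3621534) (nat_lit 43234052) (nat_lit 5767087) [(nat_lit 0), (nat_lit 3621534), (nat_lit 0)]) (PF.cons (PF.leaf (nat_lit 8371845) (nat_lit 1362066) (nat_lit 41942532) (nat_lit 5730717) [(nat_lit 1362066), (nat_lit 3614699), (nat_lit 0)]) (PF.cons (PF.leaf (nat_lit 9015087) (nat_lit 1368683) (nat_lit 40678655) (nat_lit 5686322) [(nat_lit 1368683), (nat_lit 3601293), (nat_lit 0)]) (PF.cons (PF.leaf (nat_lit 9653453) (nat_lit 1371788) (nat_lit 39447803) (nat_lit 5635004) [(nat_lit 1371788), (nat_lit 3582127), (nat_lit 0)])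
 (PF.cons (PF.leaf (nat_lit 10284318) (nat_lit 1371853) (nat_lit 38253674) (nat_lit 5577817) [(nat_lit 1371853), (nat_lit 3557981), (nat_lit 0)]) (PF.cons (PF.leaf (nat_lit 10905660) (nat_lit 1369298) (nat_lit 37098670) (nat_lit 5515743) [(nat_lit 1369298), (nat_lit 3529581), (nat_lit 0)]) (PF.cons (PF.leaf (nat_lit 11515959) (nat_lit 1364493) (nat_lit 35984187) (nat_lit 5449679) [(nat_lit 1364493), (nat_lit 3497597), (nat_lit 0)]) (PF.cons (PF.leaf (nat_lit 12114085) (nat_lit 1357769) (nat_lit 34910847) (nat_lit 5380429) [(nat_lit 1357769), (nat_lit 3462630), (nat_lit 0)]) (PF.cons (PF.leaf (nat_lit 12699237) (nat_lit 1349415) (nat_lit 33878679) (nat_lit 5308709) [(nat_lit 1349415), (nat_lit 3425219), (nat_lit 0)]) (PF.cons (PF.leaf (nat_lit 13270889) (nat_lit 1339689) (nat_lit 32887256) (nat_lit 5235145) [(nat_lit 1339689), (nat_lit 3385841), (nat_lit 0)]) (PF.cons PF.nil (PF.cons PF.nil PF.nil)))))))))))) (PF.cons (PF.cons (PF.leaf (nat_lit 8947610) (nat_lit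 3576105) (nat_lit 40008420) (nat_lit 5643761) [(nat_lit 0), (nat_lit 3576105), (nat_lit 0)]) (PF.cons (PF.leaf (nat_lit 9570864) (nat_lit 1360091) (nat_lit 38820853) (nat_lit 5591540) [(nat_lit 1360091), (nat_lit 3556054),
 (nat_lit 0)]) (PF.cons (PF.leaf (nat_lit 10188347) (nat_lit 1360145) (nat_lit 37666574) (nat_lit 5533887) [(nat_lit 1360145), (nat_lit 3531343), (nat_lit 0)]) (PF.cons (PF.leaf (nat_lit 10797794) (nat_lit 1357627) (nat_lit 36548368) (nat_lit 5471708) [(nat_lit 1357627), (nat_lit 3502642), (nat_lit 0)]) (PF.cons (PF.leaf (nat_lit 11397512) (nat_lit 1352907) (nat_lit 35467931) (nat_lit 5405829) [(nat_lit 1352907), (nat_lit 3470570), (nat_lit 0)]) (PF.cons (PF.leaf (nat_lit 11986242) (nat_lit 1346307) (nat_lit 34426131) (nat_lit 5336999) [(nat_lit 1346307), (nat_lit 3435690), (nat_lit 0)]) (PF.cons (PF.leaf (nat_lit 12563067) (nat_lit 1338113) (nat_lit 33423204) (nat_lit 5265883) [(nat_lit 1338113), (nat_lit 3398507), (nat_lit 0)]) (PF.cons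 (PF.leaf (nat_lit 13127348) (nat_lit 1328575) (nat_lit 32458910) (nat_lit 5193067) [(nat_lit 1328575), (nat_lit 3359467), (nat_lit 0)]) (PF.cons PF.nil (PF.cons PF.nil PF.nil)))))))))) (PF.cons (PF.cons (PF.leaf (nat_lit 10096249) (nat_lit 3504395) (nat_lit 37088440) (nat_lit 5489602) [(nat_lit 0), (nat_lit 3504395), (nat_lit 0)]) (PF.cons (PF.leaf (nat_lit 10693547) (nat_lit 1345707) (nat_lit 36006992) (nat_lit 5427498) [(nat_lit 1345707),
 (nat_lit 3475516), (nat_lit 0)]) (PF.cons (PF.leaf (nat_lit 11282556) (nat_lit 1341143) (nat_lit 34960387) (nat_lit 5361947) [(nat_lit 1341143), (nat_lit 3443455), (nat_lit 0)]) (PF.cons (PF.leaf (nat_lit 11861806) (nat_lit 1334724) (nat_lit 33949803) (nat_lit 5293646) [(nat_lit 1334724), (nat_lit 3408741), (nat_lit 0)]) (PF.cons (PF.leaf (nat_lit 12430251) (nat_lit 1326734) (nat_lit 32975733) (nat_lit 5223220) [(nat_lit 1326734), (nat_lit 3371846), (nat_lit 0)]) (PF.cons (PF.leaf (nat_lit 12987130) (nat_lit 1317418) (nat_lit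 32038151) (nat_lit 5151218) [(nat_lit 1317418), (nat_lit 3333192), (nat_lit 0)]) (PF.cons (PF.leaf (nat_lit 13531936) (nat_lit 1306993) (nat_lit 31136646) (nat_lit 5078123) [(nat_lit 1306993), (nat_lit 3293154), (nat_lit 0)]) (PF.cons PF.nil PF.nil)))))))) (PF.cons (PF.cons (PF.leaf (nat_lit 11171538) (nat_lit 3416247) (nat_lit 34460814) (nat_lit 5318018) [(nat_lit 0), (nat_lit 3416247), (nat_lit 0)]) (PF.cons (PF.leaf (nat_lit 11741097) (nat_lit 1323002) (nat_lit 33481248) (nat_lit 5250358) [(nat_lit 1323002), (nat_lit 3381775), (nat_lit 0)]) (PF.cons (PF.leaf (nat_lit 12301036) (nat_lit 1315262) (nat_lit 32535745) (nat_lit 5180707) [(nat_lit 1315262),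
 (nat_lit 3345229), (nat_lit 0)]) (PF.cons (PF.leaf (nat_lit 12850424) (nat_lit 1306207) (nat_lit 31624531) (nat_lit 5109583) [(nat_lit 1306207), (nat_lit 3307009), (nat_lit 0)]) (PF.cons (PF.leaf (nat_lit 13388633) (nat_lit 1296049) (nat_lit 30747409) (nat_lit 5037443) [(nat_lit 1296049), (nat_lit 3267470), (nat_lit 0)]) (PF.cons PF.nil PF.nil)))))) (PF.cons (PF.cons (PF.leaf (nat_lit 12175744) (nat_lit 3318646) (nat_lit 32102675) (nat_lit 5138323) [(nat_lit 0), (nat_lit 3318646), (nat_lit 0)]) (PF.cons (PF.leaf (nat_lit 12717439) (nat_lit 1294926) (nat_lit 31217574) (nat_lit 5068144) [(nat_lit 1294926), (nat_lit 3280907), (nat_lit 0)]) (PF.cons (PF.leaf (nat_lit 13248936) (nat_lit 1285068) (nat_lit 30364533) (nat_lit 4997010) [(nat_lit 1285068), (nat_lit 3241903), (nat_lit 0)]) (PF.cons PF.nil PF.nil)))) (PF.cons (PF.cons (PF.leaf (nat_lit 13113088) (nat_lit 3216442) (nat_lit 29987588) (nat_lit 4956800) [(nat_lit 0), (nat_lit 3216442), (nat_lit 0)]) (PF.cons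 (PF.leaf (nat_lit 13627741) (nat_lit 1263584) (nat_lit 29188290) (nat_lit 4886177) [(nat_lit 1263584), (nat_lit 3177076), (nat_lit 0)]) PF.nil)) (PF.cons PF.nil (PF.cons PF.nil (PF.cons PF.nil (PF.cons PF.nil
 PF.nil))))))))))))))) (PF.cons (PF.cons (PF.cons (PF.leaf (nat_lit 3172570) (nat_lit 5621909) (nat_lit 55020579) (nat_lit 5621909) [(nat_lit 0), (nat_lit 0), (nat_lit 6466324)]) (PF.cons (PF.leaf (nat_lit 3737431) (nat_lit 1153785) (nat_lit 53721106) (nat_lit 5697935) [(nat_lit 1153785), (nat_lit 0), (nat_lit 6535985)]) (PF.cons (PF.leaf (nat_lit 4348845) (nat_lit 1209060) (nat_lit 52341076) (nat_lit 5759435) [(nat_lit 1209060), (nat_lit 0), (nat_lit 6590179)]) (PF.cons (PF.leaf (nat_lit 4993861) (nat_lit 1254990) (nat_lit 50912015) (nat_lit 5804698) [(nat_lit 1254990), (nat_lit 0), (nat_lit 6627128)]) (PF.cons (PF.leaf (nat_lit 5662223) (nat_lit 1292689) (nat_lit 49457940) (nat_lit 5833502) [(nat_lit 1292689), (nat_lit 0), (nat_lit 6646611)]) (PF.cons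 (PF.leaf (nat_lit 6345548) (nat_lit 1323078) (nat_lit 47997581) (nat_lit 5846500) [(nat_lit 1323078), (nat_lit 0), (nat_lit 6649337)]) (PF.cons (PF.leaf (nat_lit 7036927) (nat_lit 1346969) (nat_lit 46545602) (nat_lit 5844841) [(nat_lit 1346969), (nat_lit 0), (nat_lit 6636550)]) (PF.cons (PF.leaf (nat_lit 7730699) (nat_lit 1365101) (nat_lit 45113395) (nat_lit 5829933) [(nat_lit 1365101), (nat_lit 0), (nat_lit 6609774)]) (PF.cons
 (PF.leaf (nat_lit 8422255) (nat_lit 1378150) (nat_lit 43709672) (nat_lit 5803287) [(nat_lit 1378150), (nat_lit 0), (nat_lit 6570648)]) (PF.cons (PF.leaf (nat_lit 9107897) (nat_lit 1386737) (nat_lit 42340941) (nat_lit 5766416) [(nat_lit 1386737), (nat_lit 0), (nat_lit 6520813)]) (PF.cons (PF.leaf (nat_lit 9784696) (nat_lit 1391429) (nat_lit 41011895) (nat_lit 5720777) [(nat_lit 1391429), (nat_lit 0), (nat_lit 6461845)]) (PF.cons (PF.leaf (nat_lit 10450377) (nat_lit 1392737) (nat_lit 39725754) (nat_lit 5667727) [(nat_lit 1392737), (nat_lit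 0), (nat_lit 6395214)]) (PF.cons (PF.leaf (nat_lit 11103230) (nat_lit 1391124) (nat_lit 38484543) (nat_lit 5608508) [(nat_lit 1391124), (nat_lit 0), (nat_lit 6322262)]) (PF.cons (PF.leaf (nat_lit 11741983) (nat_lit 1387003) (nat_lit 37289338) (nat_lit 5544238) [(nat_lit 1387003), (nat_lit 0), (nat_lit 6244196)]) (PF.cons (PF.leaf (nat_lit 12365743) (nat_lit 1380739) (nat_lit 36140461) (nat_lit 5475911) [(nat_lit 1380739), (nat_lit 0), (nat_lit 6162084)]) (PF.cons (PF.leaf (nat_lit 12973940) (nat_lit 1372659) (nat_lit 35037654) (nat_lit 5404401) [(nat_lit 1372659), (nat_lit 0), (nat_lit 6076867)]) (PF.cons (PF.leaf (nat_lit 13566245) (nat_lit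
 1363048) (nat_lit 33980210) (nat_lit 5330469) [(nat_lit 1363048), (nat_lit 0), (nat_lit 5989359)]) (PF.cons PF.nil (PF.cons PF.nil (PF.cons PF.nil PF.nil)))))))))))))))))))) (PF.cons (PF.cons (PF.leaf (nat_lit 4429456) (nat_lit 3492362) (nat_lit 51265761) (nat_lit 5762479) [(nat_lit 0), (nat_lit 3492362), (nat_lit 6588210)]) (PF.cons (PF.leaf (nat_lit 5044608) (nat_lit 1250698) (nat_lit 49905271) (nat_lit 5796794) [(nat_lit 1250698), (nat_lit 3542357), (nat_lit 6613690)]) (PF.cons (PF.leaf (nat_lit 5686637) (nat_lit 1287083) (nat_lit 48513190) (nat_lit 5816779) [(nat_lit 1287083), (nat_lit 3580759), (nat_lit 6623916)]) (PF.cons (PF.leaf (nat_lit 6346281) (nat_lit 1316261) (nat_lit 47110171) (nat_lit 5822716) [(nat_lit 1316261), (nat_lit 3607903), (nat_lit 6619238)]) (PF.cons (PF.leaf (nat_lit 7016188) (nat_lit 1339095) (nat_lit 45711832) (nat_lit 5815469) [(nat_lit 1339095), (nat_lit 3624516), (nat_lit 6600613)]) (PF.cons (PF.leaf (nat_lit 7690431) (nat_lit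 1356341) (nat_lit 44330055) (nat_lit 5796208) [(nat_lit 1356341), (nat_lit 3631521), (nat_lit 6569321)]) (PF.cons (PF.leaf (nat_lit 8364221) (nat_lit 1368672) (nat_lit 42973815) (nat_lit 5766247) [(nat_lit 1368672), (nat_lit
 3629922), (nat_lit 6526792)]) (PF.cons (PF.leaf (nat_lit 9033731) (nat_lit 1376699) (nat_lit 41649775) (nat_lit 5726927) [(nat_lit 1376699), (nat_lit 3620729), (nat_lit 6474483)]) (PF.cons (PF.leaf (nat_lit 9695924) (nat_lit 1380971) (nat_lit 40362745) (nat_lit 5679558) [(nat_lit 1380971), (nat_lit 3604921), (nat_lit 6413815)]) (PF.cons (PF.leaf (nat_lit 10348415) (nat_lit 1381984) (nat_lit 39116040) (nat_lit 5625374) [(nat_lit 1381984), (nat_lit 3583415), (nat_lit 6346123)]) (PF.cons (PF.leaf (nat_lit 10989390) (nat_lit 1380182) (nat_lit 37911787) (nat_lit 5565509) [(nat_lit 1380182), (nat_lit 3557057), (nat_lit 6272632)]) (PF.cons (PF.leaf (nat_lit 11617483) (nat_lit 1375963) (nat_lit 36751163) (nat_lit 5500991) [(nat_lit 1375963), (nat_lit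 3526612), (nat_lit 6194453)]) (PF.cons (PF.leaf (nat_lit 12231735) (nat_lit 1369678) (nat_lit 35634602) (nat_lit 5432738) [(nat_lit 1369678), (nat_lit 3492765), (nat_lit 6112570)]) (PF.cons (PF.leaf (nat_lit 12831464) (nat_lit 1361639) (nat_lit 34561962) (nat_lit 5361558) [(nat_lit 1361639), (nat_lit 3456126), (nat_lit 6027853)]) (PF.cons (PF.leaf (nat_lit 13416260) (nat_lit 1352121) (nat_lit 33532655) (nat_lit 5288160) [(nat_lit 1352121),
 (nat_lit 3417231), (nat_lit 5941059)]) (PF.cons PF.nil (PF.cons PF.nil (PF.cons PF.nil PF.nil)))))))))))))))))) (PF.cons (PF.cons (PF.leaf (nat_lit 5716047) (nat_lit 3572357) (nat_lit 47570839) (nat_lit 5796258) [(nat_lit 0), (nat_lit 3572357), (nat_lit 6596999)]) (PF.cons (PF.leaf (nat_lit 6350564) (nat_lit 1307986) (nat_lit 46229435) (nat_lit 5795938) [(nat_lit 1307986), (nat_lit 3594808), (nat_lit 6585835)]) (PF.cons (PF.leaf (nat_lit 6998229) (nat_lit 1330099) (nat_lit 44887281) (nat_lit 5783776) [(nat_lit 1330099), (nat_lit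 3607710), (nat_lit 6562134)]) (PF.cons (PF.leaf (nat_lit 7652545) (nat_lit 1346714) (nat_lit 43557375) (nat_lit 5760722) [(nat_lit 1346714), (nat_lit 3611808), (nat_lit 6526954)]) (PF.cons (PF.leaf (nat_lit 8308404) (nat_lit 1358526) (nat_lit 42249336) (nat_lit 5727903) [(nat_lit 1358526), (nat_lit 3607966), (nat_lit 6481533)]) (PF.cons (PF.leaf (nat_lit 8961750) (nat_lit 1366148) (nat_lit 40970227) (nat_lit 5686507) [(nat_lit 1366148), (nat_lit 3597083), (nat_lit 6427166)]) (PF.cons (PF.leaf (nat_lit 9609375) (nat_lit 1370125) (nat_lit 39725130) (nat_lit 5637710) [(nat_lit 1370125), (nat_lit 3580044), (nat_lit 6365132)]) (PF.cons (PF.leaf (nat_lit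
 10248761) (nat_lit 1370940) (nat_lit 38517571) (nat_lit 5582633) [(nat_lit 1370940), (nat_lit 3557687), (nat_lit 6296645)]) (PF.cons (PF.leaf (nat_lit 10877968) (nat_lit 1369029) (nat_lit 37349851) (nat_lit 5522315) [(nat_lit 1369029), (nat_lit 3530791), (nat_lit 6222828)]) (PF.cons (PF.leaf (nat_lit 11495536) (nat_lit 1364774) (nat_lit 36223304) (nat_lit 5457701) [(nat_lit 1364774), (nat_lit 3500065), (nat_lit 6144701)]) (PF.cons (PF.leaf (nat_lit 12100376) (nat_lit 1358518) (nat_lit 35138511) (nat_lit 5389640) [(nat_lit 1358518), (nat_lit 3466148), (nat_lit 6063177)]) (PF.cons (PF.leaf (nat_lit 12691739) (nat_lit 1350561) (nat_lit 34095471) (nat_lit 5318883) [(nat_lit 1350561), (nat_lit 3429608), (nat_lit 5979060)]) (PF.cons (PF.leaf (nat_lit 13269128) (nat_lit 1341169) (nat_lit 33093734) (nat_lit 5246090) [(nat_lit 1341169), (nat_lit 3390948), (nat_lit 5893056)]) (PF.cons PF.nil (PF.cons PF.nil (PF.cons PF.nil PF.nil)))))))))))))))) (PF.cons (PF.cons (PF.leaf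 (nat_lit 6984744) (nat_lit 3589362) (nat_lit 44069650) (nat_lit 5749864) [(nat_lit 0), (nat_lit 3589362), (nat_lit 6521210)]) (PF.cons (PF.leaf (nat_lit 7618277) (nat_lit 1336171) (nat_lit 42793645) (nat_lit 5723555)
 [(nat_lit 1336171), (nat_lit 3590895), (nat_lit 6482753)]) (PF.cons (PF.leaf (nat_lit 8255748) (nat_lit 1347681) (nat_lit 41534898) (nat_lit 5688320) [(nat_lit 1347681), (nat_lit 3585098), (nat_lit 6434936)]) (PF.cons (PF.leaf (nat_lit 8892688) (nat_lit 1355065) (nat_lit 40301210) (nat_lit 5645205) [(nat_lit 1355065), (nat_lit 3572762), (nat_lit 6378911)]) (PF.cons (PF.leaf (nat_lit 9525635) (nat_lit 1358876) (nat_lit 39098146) (nat_lit 5595269) [(nat_lit 1358876), (nat_lit 3554686), (nat_lit 6315832)]) (PF.cons (PF.leaf (nat_lit 10151885) (nat_lit 1359597) (nat_lit 37929578) (nat_lit 5539531) [(nat_lit 1359597), (nat_lit 3531636), (nat_lit 6246807)]) (PF.cons (PF.leaf (nat_lit 10769347) (nat_lit 1357656) (nat_lit 36798071) (nat_lit 5478944) [(nat_lit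 1357656), (nat_lit 3504330), (nat_lit 6172866)]) (PF.cons (PF.leaf (nat_lit 11376415) (nat_lit 1353431) (nat_lit 35705180) (nat_lit 5414379) [(nat_lit 1353431), (nat_lit 3473425), (nat_lit 6094952)]) (PF.cons (PF.leaf (nat_lit 11971908) (nat_lit 1347255) (nat_lit 34651677) (nat_lit 5346624) [(nat_lit 1347255), (nat_lit 3439519), (nat_lit 6013909)]) (PF.cons (PF.leaf (nat_lit 12554956) (nat_lit 1339421) (nat_lit 33637730) (nat_lit
 5276377) [(nat_lit 1339421), (nat_lit 3403142), (nat_lit 5930487)]) (PF.cons (PF.leaf (nat_lit 13124969) (nat_lit 1330186) (nat_lit 32663047) (nat_lit 5204255) [(nat_lit 1330186), (nat_lit 3364767), (nat_lit 5845344)]) (PF.cons PF.nil (PF.cons PF.nil (PF.cons PF.nil PF.nil)))))))))))))) (PF.cons (PF.cons (PF.leaf (nat_lit 8207408) (nat_lit 3561350) (nat_lit 40828854) (nat_lit 5647529) [(nat_lit 0), (nat_lit 3561350), (nat_lit 6387027)]) (PF.cons (PF.leaf (nat_lit 8827387) (nat_lit 1343411) (nat_lit 39641446) (nat_lit 5603048) [(nat_lit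 1343411), (nat_lit 3547791), (nat_lit 6329740)]) (PF.cons (PF.leaf (nat_lit 9445361) (nat_lit 1347197) (nat_lit 38480764) (nat_lit 5552255) [(nat_lit 1347197), (nat_lit 3528866), (nat_lit 6265932)]) (PF.cons (PF.leaf (nat_lit 10058304) (nat_lit 1347934) (nat_lit 37351208) (nat_lit 5496081) [(nat_lit 1347934), (nat_lit 3505275), (nat_lit 6196619)]) (PF.cons (PF.leaf (nat_lit 10663921) (nat_lit 1346050) (nat_lit 36255728) (nat_lit 5435403) [(nat_lit 1346050), (nat_lit 3477681), (nat_lit 6122752)]) (PF.cons (PF.leaf (nat_lit 11260450) (nat_lit 1341922) (nat_lit 35196176) (nat_lit 5371028) [(nat_lit 1341922), (nat_lit 3446697), (nat_lit 6045204)])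
 (PF.cons (PF.leaf (nat_lit 11846566) (nat_lit 1335879) (nat_lit 34173566) (nat_lit 5303689) [(nat_lit 1335879), (nat_lit 3412879), (nat_lit 5964763)]) (PF.cons (PF.leaf (nat_lit 12421294) (nat_lit 1328209) (nat_lit 33188272) (nat_lit 5234037) [(nat_lit 1328209), (nat_lit 3376727), (nat_lit 5882128)]) (PF.cons (PF.leaf (nat_lit 12983937) (nat_lit 1319165) (nat_lit 32240183) (nat_lit 5162650) [(nat_lit 1319165), (nat_lit 3338684), (nat_lit 5797916)]) (PF.cons (PF.leaf (nat_lit 13534039) (nat_lit 1308968) (nat_lit 31328820) (nat_lit 5090032) [(nat_lit 1308968), (nat_lit 3299144), (nat_lit 5712665)]) (PF.cons PF.nil (PF.cons PF.nil PF.nil)))))))))))) (PF.cons (PF.cons (PF.leaf (nat_lit 9369354) (nat_lit 3502588) (nat_lit 37871778) (nat_lit 5508666) [(nat_lit 0), (nat_lit 3502588), (nat_lit 6215425)]) (PF.cons (PF.leaf (nat_lit 9968593) (nat_lit 1335921) (nat_lit 36781499) (nat_lit 5452280) [(nat_lit 1335921), (nat_lit 3478607), (nat_lit 6146074)]) (PF.cons (PF.leaf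 (nat_lit 10562142) (nat_lit 1334188) (nat_lit 35722033) (nat_lit 5391688) [(nat_lit 1334188), (nat_lit 3450847), (nat_lit 6072478)]) (PF.cons (PF.leaf (nat_lit 11147989) (nat_lit 1330230) (nat_lit 34695631) (nat_lit
 5327643) [(nat_lit 1330230), (nat_lit 3419879), (nat_lit 5995450)]) (PF.cons (PF.leaf (nat_lit 11724640) (nat_lit 1324376) (nat_lit 33703615) (nat_lit 5260827) [(nat_lit 1324376), (nat_lit 3386226), (nat_lit 5915730)]) (PF.cons (PF.leaf (nat_lit 12290984) (nat_lit 1316915) (nat_lit 32746612) (nat_lit 5191854) [(nat_lit 1316915), (nat_lit 3350358), (nat_lit 5833973)]) (PF.cons (PF.leaf (nat_lit 12846219) (nat_lit 1308097) (nat_lit 31824719) (nat_lit 5121266) [(nat_lit 1308097), (nat_lit 3312695), (nat_lit 5750761)]) (PF.cons (PF.leaf (nat_lit 13389778) (nat_lit 1298140) (nat_lit 30937642) (nat_lit 5049539) [(nat_lit 1298140), (nat_lit 3273609), (nat_lit 5666600)]) (PF.cons PF.nil (PF.cons PF.nil PF.nil)))))))))) (PF.cons (PF.cons (PF.leaf (nat_lit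 10464582) (nat_lit 3423819) (nat_lit 35196092) (nat_lit 5347783) [(nat_lit 0), (nat_lit 3423819), (nat_lit 6022020)]) (PF.cons (PF.leaf (nat_lit 11039432) (nat_lit 1318330) (nat_lit 34202814) (nat_lit 5284207) [(nat_lit 1318330), (nat_lit 3392964), (nat_lit 5945670)]) (PF.cons (PF.leaf (nat_lit 11606435) (nat_lit 1312729) (nat_lit 33241216) (nat_lit 5218025) [(nat_lit 1312729), (nat_lit 3359553), (nat_lit 5866790)]) (PF.cons (PF.leaf
 (nat_lit 12164269) (nat_lit 1305525) (nat_lit 32312234) (nat_lit 5149815) [(nat_lit 1305525), (nat_lit 3324030), (nat_lit 5786004)]) (PF.cons (PF.leaf (nat_lit 12711990) (nat_lit 1296970) (nat_lit 31416215) (nat_lit 5080089) [(nat_lit 1296970), (nat_lit 3286793), (nat_lit 5703861)]) (PF.cons (PF.leaf (nat_lit 13248928) (nat_lit 1287282) (nat_lit 30553072) (nat_lit 5009301) [(nat_lit 1287282), (nat_lit 3248197), (nat_lit 5620842)]) (PF.cons PF.nil (PF.cons PF.nil PF.nil)))))))) (PF.cons (PF.cons (PF.leaf (nat_lit 11492367) (nat_lit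 3332847) (nat_lit 32785700) (nat_lit 5175259) [(nat_lit 0), (nat_lit 3332847), (nat_lit 5817916)]) (PF.cons (PF.leaf (nat_lit 12041423) (nat_lit 1294019) (nat_lit 31884584) (nat_lit 5107898) [(nat_lit 1294019), (nat_lit 3297730), (nat_lit 5738196)]) (PF.cons (PF.leaf (nat_lit 12581470) (nat_lit 1285769) (nat_lit 31014202) (nat_lit 5039101) [(nat_lit 1285769), (nat_lit 3260968), (nat_lit 5657194)]) (PF.cons (PF.leaf (nat_lit 13111667) (nat_lit 1276382) (nat_lit 30174709) (nat_lit 4969300) [(nat_lit 1276382), (nat_lit 3222898), (nat_lit 5575370)]) (PF.cons PF.nil (PF.cons PF.nil PF.nil)))))) (PF.cons (PF.cons (PF.leaf (nat_lit 12454968) (nat_lit 3235203)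
 (nat_lit 30618174) (nat_lit 4998277) [(nat_lit 0), (nat_lit 3235203), (nat_lit 5610730)]) (PF.cons (PF.leaf (nat_lit 12978187) (nat_lit 1265424) (nat_lit 29802127) (nat_lit 4929515) [(nat_lit 1265424), (nat_lit 3197698), (nat_lit 5530158)]) (PF.cons (PF.leaf (nat_lit 13491888) (nat_lit 1255417) (nat_lit 29014927) (nat_lit 4860153) [(nat_lit 1255417), (nat_lit 3159213), (nat_lit 5449186)]) (PF.cons PF.nil PF.nil)))) (PF.cons (PF.cons (PF.leaf (nat_lit 13356202) (nat_lit 3134723) (nat_lit 28669111) (nat_lit 4821666) [(nat_lit 0), (nat_lit 3134723), (nat_lit 5405522)]) (PF.cons PF.nil PF.nil)) (PF.cons PF.nil (PF.cons PF.nil (PF.cons PF.nil PF.nil))))))))))))) (PF.cons (PF.cons (PF.cons (PF.leaf (nat_lit 5034836) (nat_lit 5738492) (nat_lit 48280427) (nat_lit 5738492) [(nat_lit 0), (nat_lit 0), (nat_lit 6544946)]) (PF.cons (PF.leaf (nat_lit 5635630) (nat_lit 1260460) (nat_lit 47004351) (nat_lit 5750538) [(nat_lit 1260460), (nat_lit 0), (nat_lit 6546730)]) (PF.cons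 (PF.leaf (nat_lit 6259312) (nat_lit 1290370) (nat_lit 45705934) (nat_lit 5750560) [(nat_lit 1290370), (nat_lit 0), (nat_lit 6535789)]) (PF.cons (PF.leaf (nat_lit 6897391) (nat_lit 1313677) (nat_lit 44403294) (nat_lit
 5739062) [(nat_lit 1313677), (nat_lit 0), (nat_lit 6512710)]) (PF.cons (PF.leaf (nat_lit 7543294) (nat_lit 1331297) (nat_lit 43109751) (nat_lit 5716930) [(nat_lit 1331297), (nat_lit 0), (nat_lit 6478470)]) (PF.cons (PF.leaf (nat_lit 8191806) (nat_lit 1343986) (nat_lit 41835180) (nat_lit 5685232) [(nat_lit 1343986), (nat_lit 0), (nat_lit 6434234)]) (PF.cons (PF.leaf (nat_lit 8838778) (nat_lit 1352393) (nat_lit 40586869) (nat_lit 5645106) [(nat_lit 1352393), (nat_lit 0), (nat_lit 6381237)]) (PF.cons (PF.leaf (nat_lit 9480920) (nat_lit 1357088) (nat_lit 39370100) (nat_lit 5597685) [(nat_lit 1357088), (nat_lit 0), (nat_lit 6320704)]) (PF.cons (PF.leaf (nat_lit 10115630) (nat_lit 1358570) (nat_lit 38188584) (nat_lit 5544055) [(nat_lit 1358570), (nat_lit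 0), (nat_lit 6253805)]) (PF.cons (PF.leaf (nat_lit 10740901) (nat_lit 1357281) (nat_lit 37044793) (nat_lit 5485223) [(nat_lit 1357281), (nat_lit 0), (nat_lit 6181629)]) (PF.cons (PF.leaf (nat_lit 11355189) (nat_lit 1353613) (nat_lit 35940229) (nat_lit 5422112) [(nat_lit 1353613), (nat_lit 0), (nat_lit 6105166)]) (PF.cons (PF.leaf (nat_lit 11957359) (nat_lit 1347911) (nat_lit 34875625) (nat_lit 5355550) [(nat_lit 1347911), (nat_lit 0),
 (nat_lit 6025305)]) (PF.cons (PF.leaf (nat_lit 12546581) (nat_lit 1340478) (nat_lit 33851126) (nat_lit 5286273) [(nat_lit 1340478), (nat_lit 0), (nat_lit 5942833)]) (PF.cons (PF.leaf (nat_lit 13122307) (nat_lit 1331583) (nat_lit 32866418) (nat_lit 5214930) [(nat_lit 1331583), (nat_lit 0), (nat_lit 5858442)]) (PF.cons PF.nil (PF.cons PF.nil PF.nil)))))))))))))))) (PF.cons (PF.cons (PF.leaf (nat_lit 6271179) (nat_lit 3546625) (nat_lit 44843263) (nat_lit 5720793) [(nat_lit 0), (nat_lit 3546625), (nat_lit 6499065)]) (PF.cons (PF.leaf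 (nat_lit 6885667) (nat_lit 1303243) (nat_lit 43599259) (nat_lit 5705218) [(nat_lit 1303243), (nat_lit 3557346), (nat_lit 6471872)]) (PF.cons (PF.leaf (nat_lit 7510956) (nat_lit 1320617) (nat_lit 42358563) (nat_lit 5679970) [(nat_lit 1320617), (nat_lit 3560013), (nat_lit 6434515)]) (PF.cons (PF.leaf (nat_lit 8141202) (nat_lit 1333073) (nat_lit 41132274) (nat_lit 5645959) [(nat_lit 1333073), (nat_lit 3555358), (nat_lit 6388000)]) (PF.cons (PF.leaf (nat_lit 8771884) (nat_lit 1341293) (nat_lit 39928425) (nat_lit 5604189) [(nat_lit 1341293), (nat_lit 3544168), (nat_lit 6333428)]) (PF.cons (PF.leaf (nat_lit 9399448) (nat_lit 1345858) (nat_lit 38752789) (nat_lit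
 5555680) [(nat_lit 1345858), (nat_lit 3527236), (nat_lit 6271907)]) (PF.cons (PF.leaf (nat_lit 10021106) (nat_lit 1347271) (nat_lit 37609425) (nat_lit 5501421) [(nat_lit 1347271), (nat_lit 3505321), (nat_lit 6204506)]) (PF.cons (PF.leaf (nat_lit 10634691) (nat_lit 1345973) (nat_lit 36501074) (nat_lit 5442339) [(nat_lit 1345973), (nat_lit 3479136), (nat_lit 6132225)]) (PF.cons (PF.leaf (nat_lit 11238528) (nat_lit 1342347) (nat_lit 35429454) (nat_lit 5379284) [(nat_lit 1342347), (nat_lit 3449330), (nat_lit 6055981)]) (PF.cons (PF.leaf (nat_lit 11831371) (nat_lit 1336733) (nat_lit 34395488) (nat_lit 5313027) [(nat_lit 1336733), (nat_lit 3416496), (nat_lit 5976598)]) (PF.cons (PF.leaf (nat_lit 12412294) (nat_lit 1329428) (nat_lit 33399487) (nat_lit 5244252) [(nat_lit 1329428), (nat_lit 3381160), (nat_lit 5894812)]) (PF.cons (PF.leaf (nat_lit 12980648) (nat_lit 1320693) (nat_lit 32441291) (nat_lit 5173568) [(nat_lit 1320693), (nat_lit 3343792), (nat_lit 5811267)])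 (PF.cons PF.nil (PF.cons PF.nil PF.nil)))))))))))))) (PF.cons (PF.cons (PF.leaf (nat_lit 7483962) (nat_lit 3538049) (nat_lit 41613692) (nat_lit 5641413) [(nat_lit 0), (nat_lit 3538049), (nat_lit 6388803)]) (PF.cons (PF.leaf
 (nat_lit 8095004) (nat_lit 1321389) (nat_lit 40437371) (nat_lit 5605511) [(nat_lit 1321389), (nat_lit 3531779), (nat_lit 6340490)]) (PF.cons (PF.leaf (nat_lit 8708851) (nat_lit 1329612) (nat_lit 39278868) (nat_lit 5562438) [(nat_lit 1329612), (nat_lit 3519413), (nat_lit 6284727)]) (PF.cons (PF.leaf (nat_lit 9321508) (nat_lit 1334192) (nat_lit 38144740) (nat_lit 5513115) [(nat_lit 1334192), (nat_lit 3501666), (nat_lit 6222523)]) (PF.cons (PF.leaf (nat_lit 9929917) (nat_lit 1335648) (nat_lit 37039579) (nat_lit 5458446) [(nat_lit 1335648), (nat_lit 3479233), (nat_lit 6154863)]) (PF.cons (PF.leaf (nat_lit 10531703) (nat_lit 1334425) (nat_lit 35966509) (nat_lit 5399286) [(nat_lit 1334425), (nat_lit 3452774), (nat_lit 6082670)]) (PF.cons (PF.leaf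 (nat_lit 11125038) (nat_lit 1330910) (nat_lit 34927541) (nat_lit 5336425) [(nat_lit 1330910), (nat_lit 3422895), (nat_lit 6006795)]) (PF.cons (PF.leaf (nat_lit 11708523) (nat_lit 1325438) (nat_lit 33923841) (nat_lit 5270579) [(nat_lit 1325438), (nat_lit 3390151), (nat_lit 5928009)]) (PF.cons (PF.leaf (nat_lit 12281128) (nat_lit 1318303) (nat_lit 32955921) (nat_lit 5202391) [(nat_lit 1318303), (nat_lit 3355037), (nat_lit 5846998)]) (PF.cons
 (PF.leaf (nat_lit 12842107) (nat_lit 1309761) (nat_lit 32023798) (nat_lit 5132428) [(nat_lit 1309761), (nat_lit 3317995), (nat_lit 5764368)]) (PF.cons (PF.leaf (nat_lit 13390950) (nat_lit 1300037) (nat_lit 31127114) (nat_lit 5061190) [(nat_lit 1300037), (nat_lit 3279416), (nat_lit 5680650)]) (PF.cons PF.nil PF.nil)))))))))))) (PF.cons (PF.cons (PF.leaf (nat_lit 8650738) (nat_lit 3494026) (nat_lit 38636650) (nat_lit 5519846) [(nat_lit 0), (nat_lit 3494026), (nat_lit 6235117)]) (PF.cons (PF.leaf (nat_lit 9247864) (nat_lit 1322044)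 (nat_lit 37544762) (nat_lit 5469984) [(nat_lit 1322044), (nat_lit 3475644), (nat_lit 6172543)]) (PF.cons (PF.leaf (nat_lit 9842652) (nat_lit 1323667) (nat_lit 36478095) (nat_lit 5415124) [(nat_lit 1323667), (nat_lit 3452840), (nat_lit 6104868)]) (PF.cons (PF.leaf (nat_lit 10432398) (nat_lit 1322616) (nat_lit 35440317) (nat_lit 5356060) [(nat_lit 1322616), (nat_lit 3426225), (nat_lit 6032954)]) (PF.cons (PF.leaf (nat_lit 11015060) (nat_lit 1319284) (nat_lit 34433838) (nat_lit 5293529) [(nat_lit 1319284), (nat_lit 3396368), (nat_lit 5957600)]) (PF.cons (PF.leaf (nat_lit 11589090) (nat_lit 1314011) (nat_lit 33460129) (nat_lit 5228201) [(nat_lit 1314011),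
 (nat_lit 3363789), (nat_lit 5879526)]) (PF.cons (PF.leaf (nat_lit 12153311) (nat_lit 1307091) (nat_lit 32519949) (nat_lit 5160681) [(nat_lit 1307091), (nat_lit 3328956), (nat_lit 5799380)]) (PF.cons (PF.leaf (nat_lit 12706865) (nat_lit 1298779) (nat_lit 31613523) (nat_lit 5091503) [(nat_lit 1298779), (nat_lit 3292288), (nat_lit 5717733)]) (PF.cons (PF.leaf (nat_lit 13249138) (nat_lit 1289295) (nat_lit 30740670) (nat_lit 5021138) [(nat_lit 1289295), (nat_lit 3254154), (nat_lit 5635086)]) (PF.cons PF.nil PF.nil)))))))))) (PF.cons (PF.cons (PF.leaf (nat_lit 9760042) (nat_lit 3426134) (nat_lit 35923859) (nat_lit 5371435) [(nat_lit 0), (nat_lit 3426134), (nat_lit 6054490)]) (PF.cons (PF.leaf (nat_lit 10337290) (nat_lit 1310509) (nat_lit 34921616) (nat_lit 5312643) [(nat_lit 1310509), (nat_lit 3399483), (nat_lit 5983055)]) (PF.cons (PF.leaf (nat_lit 10909009) (nat_lit 1307444) (nat_lit 33947625) (nat_lit 5250579) [(nat_lit 1307444), (nat_lit 3369742), (nat_lit 5908374)])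 (PF.cons (PF.leaf (nat_lit 11473378) (nat_lit 1302434) (nat_lit 33003753) (nat_lit 5185877) [(nat_lit 1302434), (nat_lit 3337403), (nat_lit 5831131)]) (PF.cons (PF.leaf (nat_lit 12029073) (nat_lit 1295778) (nat_lit
 32091066) (nat_lit 5119107) [(nat_lit 1295778), (nat_lit 3302910), (nat_lit 5751941)]) (PF.cons (PF.leaf (nat_lit 12575095) (nat_lit 1287732) (nat_lit 31210032) (nat_lit 5050777) [(nat_lit 1287732), (nat_lit 3266662), (nat_lit 5671345)]) (PF.cons (PF.leaf (nat_lit 13110721) (nat_lit 1278520) (nat_lit 30360676) (nat_lit 4981333) [(nat_lit 1278520), (nat_lit 3229010), (nat_lit 5589819)]) (PF.cons PF.nil PF.nil)))))))) (PF.cons (PF.cons (PF.leaf (nat_lit 10807405) (nat_lit 3343002) (nat_lit 33468088) (nat_lit 5207549) [(nat_lit 0), (nat_lit 3343002), (nat_lit 5859082)]) (PF.cons (PF.leaf (nat_lit 11361765) (nat_lit 1290679) (nat_lit 32554053) (nat_lit 5143583) [(nat_lit 1290679), (nat_lit 3310981), (nat_lit 5782795)]) (PF.cons (PF.leaf (nat_lit 11908704)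 (nat_lit 1284342) (nat_lit 31668723) (nat_lit 5077649) [(nat_lit 1284342), (nat_lit 3276889), (nat_lit 5704654)]) (PF.cons (PF.leaf (nat_lit 12447025) (nat_lit 1276606) (nat_lit 30812864) (nat_lit 5010231) [(nat_lit 1276606), (nat_lit 3241106), (nat_lit 5625180)]) (PF.cons (PF.leaf (nat_lit 12975876) (nat_lit 1267698) (nat_lit 29986737) (nat_lit 4941758) [(nat_lit 1267698), (nat_lit 3203972), (nat_lit 5544829)]) (PF.cons PF.nil
 PF.nil)))))) (PF.cons (PF.cons (PF.leaf (nat_lit 11792589) (nat_lit 3250874) (nat_lit 31252314) (nat_lit 5036279) [(nat_lit 0), (nat_lit 3250874), (nat_lit 5657487)]) (PF.cons (PF.leaf (nat_lit 12322913) (nat_lit 1265381) (nat_lit 30421517) (nat_lit 4969843) [(nat_lit 1265381), (nat_lit 3215607), (nat_lit 5579211)]) (PF.cons (PF.leaf (nat_lit 12844795) (nat_lit 1256813) (nat_lit 29618434) (nat_lit 4902391) [(nat_lit 1256813), (nat_lit 3179029), (nat_lit 5500091)]) (PF.cons (PF.leaf (nat_lit 13357454) (nat_lit 1247253) (nat_lit 28843179)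 (nat_lit 4834284) [(nat_lit 1247253), (nat_lit 3141427), (nat_lit 5420511)]) PF.nil)))) (PF.cons (PF.cons (PF.leaf (nat_lit 12717764) (nat_lit 3154164) (nat_lit 29255309) (nat_lit 4863205) [(nat_lit 0), (nat_lit 3154164), (nat_lit 5455573)]) (PF.cons (PF.leaf (nat_lit 13224054) (nat_lit 1236646) (nat_lit 28501148) (nat_lit 4796188) [(nat_lit 1236646), (nat_lit 3117178), (nat_lit 5377290)]) PF.nil)) (PF.cons PF.nil (PF.cons PF.nil (PF.cons PF.nil PF.nil))))))))))) (PF.cons (PF.cons (PF.cons (PF.leaf (nat_lit 6785357) (nat_lit 5624548) (nat_lit 42346133) (nat_lit 5624548) [(nat_lit 0), (nat_lit 0), (nat_lit 6379376)]) (PF.cons (PF.leaf (nat_lit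
 7380286) (nat_lit 1292809) (nat_lit 41195428) (nat_lit 5598009) [(nat_lit 1292809), (nat_lit 0), (nat_lit 6340855)]) (PF.cons (PF.leaf (nat_lit 7984245) (nat_lit 1306427) (nat_lit 40050354) (nat_lit 5563509) [(nat_lit 1306427), (nat_lit 0), (nat_lit 6294030)]) (PF.cons (PF.leaf (nat_lit 8591927) (nat_lit 1315622) (nat_lit 38920484) (nat_lit 5521907) [(nat_lit 1315622), (nat_lit 0), (nat_lit 6239851)]) (PF.cons (PF.leaf (nat_lit 9199282) (nat_lit 1321053) (nat_lit 37812615) (nat_lit 5474099) [(nat_lit 1321053), (nat_lit 0), (nat_lit 6179294)]) (PF.cons (PF.leaf (nat_lit 9803165) (nat_lit 1323272) (nat_lit 36731547) (nat_lit 5420965) [(nat_lit 1323272), (nat_lit 0), (nat_lit 6113312)]) (PF.cons (PF.leaf (nat_lit 10401118) (nat_lit 1322741) (nat_lit 35680590) (nat_lit 5363343) [(nat_lit 1322741), (nat_lit 0), (nat_lit 6042809)]) (PF.cons (PF.leaf (nat_lit 10991239) (nat_lit 1319861) (nat_lit 34661925) (nat_lit 5302006) [(nat_lit 1319861), (nat_lit 0), (nat_lit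 5968615)]) (PF.cons (PF.leaf (nat_lit 11572084) (nat_lit 1314977) (nat_lit 33676869) (nat_lit 5237660) [(nat_lit 1314977), (nat_lit 0), (nat_lit 5891486)]) (PF.cons (PF.leaf (nat_lit 12142547) (nat_lit 1308389) (nat_lit
 32726076) (nat_lit 5170935) [(nat_lit 1308389), (nat_lit 0), (nat_lit 5812096)]) (PF.cons (PF.leaf (nat_lit 12701833) (nat_lit 1300359) (nat_lit 31809693) (nat_lit 5102394) [(nat_lit 1300359), (nat_lit 0), (nat_lit 5731043)]) (PF.cons (PF.leaf (nat_lit 13249379) (nat_lit 1291113) (nat_lit 30927478) (nat_lit 5032529) [(nat_lit 1291113), (nat_lit 0), (nat_lit 5648850)]) (PF.cons PF.nil (PF.cons PF.nil PF.nil)))))))))))))) (PF.cons (PF.cons (PF.leaf (nat_lit 7946278) (nat_lit 3477786) (nat_lit 39371825) (nat_lit 5522249) [(nat_lit 0), (nat_lit 3477786), (nat_lit 6245650)]) (PF.cons (PF.leaf (nat_lit 8536179) (nat_lit 1303239) (nat_lit 38287862) (nat_lit 5479739) [(nat_lit 1303239), (nat_lit 3465780), (nat_lit 6190730)]) (PF.cons (PF.leaf (nat_lit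 9128072) (nat_lit 1308897) (nat_lit 37221417) (nat_lit 5431424) [(nat_lit 1308897), (nat_lit 3448662), (nat_lit 6129837)]) (PF.cons (PF.leaf (nat_lit 9718352) (nat_lit 1311314) (nat_lit 36178088) (nat_lit 5378118) [(nat_lit 1311314), (nat_lit 3427077), (nat_lit 6063861)]) (PF.cons (PF.leaf (nat_lit 10304280) (nat_lit 1310977) (nat_lit 35161727) (nat_lit 5320600) [(nat_lit 1310977), (nat_lit 3401637), (nat_lit 5993645)]) (PF.cons (PF.leaf
 (nat_lit 10883747) (nat_lit 1308296) (nat_lit 34174912) (nat_lit 5259592) [(nat_lit 1308296), (nat_lit 3372911), (nat_lit 5919970)]) (PF.cons (PF.leaf (nat_lit 11455127) (nat_lit 1303622) (nat_lit 33219262) (nat_lit 5195757) [(nat_lit 1303622), (nat_lit 3341419), (nat_lit 5843546)]) (PF.cons (PF.leaf (nat_lit 12017200) (nat_lit 1297256) (nat_lit 32295675) (nat_lit 5129690) [(nat_lit 1297256), (nat_lit 3307630), (nat_lit 5765008)]) (PF.cons (PF.leaf (nat_lit 12569042) (nat_lit 1289458) (nat_lit 31404502) (nat_lit 5061919) [(nat_lit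 1289458), (nat_lit 3271961), (nat_lit 5684920)]) (PF.cons (PF.leaf (nat_lit 13109998) (nat_lit 1280455) (nat_lit 30545677) (nat_lit 4992912) [(nat_lit 1280455), (nat_lit 3234784), (nat_lit 5603779)]) (PF.cons PF.nil (PF.cons PF.nil PF.nil)))))))))))) (PF.cons (PF.cons (PF.leaf (nat_lit 9062206) (nat_lit 3422433) (nat_lit 36636530) (nat_lit 5388163) [(nat_lit 0), (nat_lit 3422433), (nat_lit 6079750)]) (PF.cons (PF.leaf (nat_lit 9638204) (nat_lit 1298939) (nat_lit 35631594) (nat_lit 5334906) [(nat_lit 1298939), (nat_lit 3400640), (nat_lit 6014030)]) (PF.cons (PF.leaf (nat_lit 10211681) (nat_lit 1298907) (nat_lit 34650097) (nat_lit 5277664) [(nat_lit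
 1298907), (nat_lit 3375173), (nat_lit 5944296)]) (PF.cons (PF.leaf (nat_lit 10780192) (nat_lit 1296509) (nat_lit 33695154) (nat_lit 5217122) [(nat_lit 1296509), (nat_lit 3346567), (nat_lit 5871290)]) (PF.cons (PF.leaf (nat_lit 11341905) (nat_lit 1292109) (nat_lit 32768778) (nat_lit 5153904) [(nat_lit 1292109), (nat_lit 3315315), (nat_lit 5795687)]) (PF.cons (PF.leaf (nat_lit 11895424) (nat_lit 1286014) (nat_lit 31872171) (nat_lit 5088575) [(nat_lit 1286014), (nat_lit 3281861), (nat_lit 5718089)]) (PF.cons (PF.leaf (nat_lit 12439712) (nat_lit 1278488) (nat_lit 31005923) (nat_lit 5021637) [(nat_lit 1278488), (nat_lit 3246606), (nat_lit 5639035)]) (PF.cons (PF.leaf (nat_lit 12973991) (nat_lit 1269759) (nat_lit 30170170) (nat_lit 4953534) [(nat_lit 1269759), (nat_lit 3209902), (nat_lit 5558996)]) (PF.cons PF.nil (PF.cons PF.nil PF.nil)))))))))) (PF.cons (PF.cons (PF.leaf (nat_lit 10123998) (nat_lit 3348494) (nat_lit 34144678) (nat_lit 5234500) [(nat_lit 0), (nat_lit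 3348494), (nat_lit 5894716)]) (PF.cons (PF.leaf (nat_lit 10681055) (nat_lit 1284464) (nat_lit 33221846) (nat_lit 5174565) [(nat_lit 1284464), (nat_lit 3320105), (nat_lit 5822539)]) (PF.cons (PF.leaf (nat_lit 11232780)
 (nat_lit 1280412) (nat_lit 32324766) (nat_lit 5112075) [(nat_lit 1280412), (nat_lit 3289169), (nat_lit 5747879)]) (PF.cons (PF.leaf (nat_lit 11777523) (nat_lit 1274644) (nat_lit 31455023) (nat_lit 5047568) [(nat_lit 1274644), (nat_lit 3256112), (nat_lit 5671316)]) (PF.cons (PF.leaf (nat_lit 12314077) (nat_lit 1267434) (nat_lit 30613501) (nat_lit 4981527) [(nat_lit 1267434), (nat_lit 3221316), (nat_lit 5593366)]) (PF.cons (PF.leaf (nat_lit 12841545) (nat_lit 1259011) (nat_lit 29800570) (nat_lit 4914377) [(nat_lit 1259011), (nat_lit 3185121), (nat_lit 5514481)]) (PF.cons PF.nil (PF.cons PF.nil PF.nil)))))))) (PF.cons (PF.cons (PF.leaf (nat_lit 11128245) (nat_lit 3262961) (nat_lit 31886485) (nat_lit 5070235) [(nat_lit 0), (nat_lit 3262961), (nat_lit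 5700081)]) (PF.cons (PF.leaf (nat_lit 11663818) (nat_lit 1263119) (nat_lit 31043633) (nat_lit 5006642) [(nat_lit 1263119), (nat_lit 3230364), (nat_lit 5624653)]) (PF.cons (PF.leaf (nat_lit 12192385) (nat_lit 1256273) (nat_lit 30226742) (nat_lit 4941566) [(nat_lit 1256273), (nat_lit 3196077), (nat_lit 5547882)]) (PF.cons (PF.leaf (nat_lit 12712844) (nat_lit 1248195) (nat_lit 29436462) (nat_lit 4875420) [(nat_lit 1248195), (nat_lit
 3160429), (nat_lit 5470208)]) (PF.cons (PF.leaf (nat_lit 13224417) (nat_lit 1239089) (nat_lit 28673002) (nat_lit 4808564) [(nat_lit 1239089), (nat_lit 3123711), (nat_lit 5392013)]) (PF.cons PF.nil PF.nil)))))) (PF.cons (PF.cons (PF.leaf (nat_lit 12075002) (nat_lit 3170869) (nat_lit 29845097) (nat_lit 4901723) [(nat_lit 0), (nat_lit 3170869), (nat_lit 5502548)]) (PF.cons (PF.leaf (nat_lit 12588131) (nat_lit 1237290) (nat_lit 29077394) (nat_lit 4836637) [(nat_lit 1237290), (nat_lit 3135809), (nat_lit 5426147)]) (PF.cons (PF.leaf (nat_lit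 13093336) (nat_lit 1228548) (nat_lit 28334686) (nat_lit 4770852) [(nat_lit 1228548), (nat_lit 3099698), (nat_lit 5349228)]) (PF.cons PF.nil PF.nil)))) (PF.cons (PF.cons (PF.leaf (nat_lit 12966308) (nat_lit 3075771) (nat_lit 28000856) (nat_lit 4733328) [(nat_lit 0), (nat_lit 3075771), (nat_lit 5306666)]) (PF.cons PF.nil PF.nil)) (PF.cons PF.nil (PF.cons PF.nil (PF.cons PF.nil PF.nil)))))))))) (PF.cons (PF.cons (PF.cons (PF.leaf (nat_lit 8376432) (nat_lit 5397081) (nat_lit 37324214) (nat_lit 5397081) [(nat_lit 0), (nat_lit 0), (nat_lit 6096879)]) (PF.cons (PF.leaf (nat_lit 8946530) (nat_lit 1282818) (nat_lit 36324939) (nat_lit 5350160) [(nat_lit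
 1282818), (nat_lit 0), (nat_lit 6037723)]) (PF.cons (PF.leaf (nat_lit 9518041) (nat_lit 1286469) (nat_lit 35342396) (nat_lit 5298501) [(nat_lit 1286469), (nat_lit 0), (nat_lit 5973743)]) (PF.cons (PF.leaf (nat_lit 10087675) (nat_lit 1287216) (nat_lit 34381421) (nat_lit 5242829) [(nat_lit 1287216), (nat_lit 0), (nat_lit 5905728)]) (PF.cons (PF.leaf (nat_lit 10652953) (nat_lit 1285515) (nat_lit 33445303) (nat_lit 5183821) [(nat_lit 1285515), (nat_lit 0), (nat_lit 5834406)]) (PF.cons (PF.leaf (nat_lit 11211982) (nat_lit 1281745) (nat_lit 32536210) (nat_lit 5122094) [(nat_lit 1281745), (nat_lit 0), (nat_lit 5760444)]) (PF.cons (PF.leaf (nat_lit 11763303) (nat_lit 1276227) (nat_lit 31655480) (nat_lit 5058207) [(nat_lit 1276227), (nat_lit 0), (nat_lit 5684440)]) (PF.cons (PF.leaf (nat_lit 12305819) (nat_lit 1269232) (nat_lit 30803829) (nat_lit 4992660) [(nat_lit 1269232), (nat_lit 0), (nat_lit 5606923)]) (PF.cons (PF.leaf (nat_lit 12838718) (nat_lit 1260994) (nat_lit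 29981504) (nat_lit 4925894) [(nat_lit 1260994), (nat_lit 0), (nat_lit 5528364)]) (PF.cons PF.nil (PF.cons PF.nil (PF.cons PF.nil PF.nil)))))))))))) (PF.cons (PF.cons (PF.leaf (nat_lit 9446043) (nat_lit 3348612) (nat_lit
 34808808) (nat_lit 5255346) [(nat_lit 0), (nat_lit 3348612), (nat_lit 5924011)]) (PF.cons (PF.leaf (nat_lit 10002488) (nat_lit 1274804) (nat_lit 33882660) (nat_lit 5200137) [(nat_lit 1274804), (nat_lit 3324464), (nat_lit 5856686)]) (PF.cons (PF.leaf (nat_lit 10556332) (nat_lit 1273506) (nat_lit 32978082) (nat_lit 5141731) [(nat_lit 1273506), (nat_lit 3297235), (nat_lit 5786187)]) (PF.cons (PF.leaf (nat_lit 11105338) (nat_lit 1270099) (nat_lit 32097762) (nat_lit 5080721) [(nat_lit 1270099), (nat_lit 3267401), (nat_lit 5713157)]) (PF.cons (PF.leaf (nat_lit 11647849) (nat_lit 1264918) (nat_lit 31243418) (nat_lit 5017644) [(nat_lit 1264918), (nat_lit 3235390), (nat_lit 5638171)]) (PF.cons (PF.leaf (nat_lit 12182600) (nat_lit 1258244) (nat_lit 30416057)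 (nat_lit 4952979) [(nat_lit 1258244), (nat_lit 3201588), (nat_lit 5561740)]) (PF.cons (PF.leaf (nat_lit 12708650) (nat_lit 1250317) (nat_lit 29616157) (nat_lit 4887149) [(nat_lit 1250317), (nat_lit 3166337), (nat_lit 5484316)]) (PF.cons PF.nil (PF.cons PF.nil (PF.cons PF.nil PF.nil)))))))))) (PF.cons (PF.cons (PF.leaf (nat_lit 10464792) (nat_lit 3270898) (nat_lit 32516154) (nat_lit 5099506) [(nat_lit 0), (nat_lit 3270898), (nat_lit
 5737838)]) (PF.cons (PF.leaf (nat_lit 11003248) (nat_lit 1258222) (nat_lit 31664851) (nat_lit 5039332) [(nat_lit 1258222), (nat_lit 3241458), (nat_lit 5665872)]) (PF.cons (PF.leaf (nat_lit 11536593) (nat_lit 1253445) (nat_lit 30836940) (nat_lit 4977155) [(nat_lit 1253445), (nat_lit 3209902), (nat_lit 5592004)]) (PF.cons (PF.leaf (nat_lit 12063316) (nat_lit 1247144) (nat_lit 30033792) (nat_lit 4913439) [(nat_lit 1247144), (nat_lit 3176603), (nat_lit 5516735)]) (PF.cons (PF.leaf (nat_lit 12582311) (nat_lit 1239566) (nat_lit 29256162)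 (nat_lit 4848597) [(nat_lit 1239566), (nat_lit 3141891), (nat_lit 5440501)]) (PF.cons (PF.leaf (nat_lit 13092758) (nat_lit 1230921) (nat_lit 28504358) (nat_lit 4782986) [(nat_lit 1230921), (nat_lit 3106059), (nat_lit 5363685)]) (PF.cons PF.nil (PF.cons PF.nil PF.nil)))))))) (PF.cons (PF.cons (PF.leaf (nat_lit 11430006) (nat_lit 3184388) (nat_lit 30435371) (nat_lit 4936699) [(nat_lit 0), (nat_lit 3184388), (nat_lit 5545894)]) (PF.cons (PF.leaf (nat_lit 11948283) (nat_lit 1235903) (nat_lit 29656490) (nat_lit 4874009) [(nat_lit 1235903), (nat_lit 3151643), (nat_lit 5471869)]) (PF.cons (PF.leaf (nat_lit 12459948) (nat_lit 1228720) (nat_lit 28901072)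
 (nat_lit 4810209) [(nat_lit 1228720), (nat_lit 3117511), (nat_lit 5396888)]) (PF.cons (PF.leaf (nat_lit 12963978) (nat_lit 1220442) (nat_lit 28169686) (nat_lit 4745653) [(nat_lit 1220442), (nat_lit 3082278), (nat_lit 5321327)]) (PF.cons PF.nil (PF.cons PF.nil PF.nil)))))) (PF.cons (PF.cons (PF.leaf (nat_lit 12341912) (nat_lit 3093178) (nat_lit 28550389) (nat_lit 4771954) [(nat_lit 0), (nat_lit 3093178), (nat_lit 5353439)]) (PF.cons (PF.leaf (nat_lit 12839186) (nat_lit 1209881) (nat_lit 27839382) (nat_lit 4708499) [(nat_lit 1209881), (nat_lit 3058577), (nat_lit 5279185)]) (PF.cons PF.nil (PF.cons PF.nil PF.nil)))) (PF.cons (PF.cons (PF.leaf (nat_lit 13202390) (nat_lit 3000152) (nat_lit 26843251) (nat_lit 4608709) [(nat_lit 0), (nat_lit 3000152), (nat_lit 5164022)]) (PF.cons PF.nil PF.nil)) (PF.cons PF.nil (PF.cons PF.nil PF.nil)))))))) (PF.cons (PF.cons (PF.cons (PF.leaf (nat_lit 9805791) (nat_lit 5123372) (nat_lit 33135440) (nat_lit 5123372) [(nat_lit 0), (nat_lit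 0), (nat_lit 5769999)]) (PF.cons (PF.leaf (nat_lit 10344107) (nat_lit 1250150) (nat_lit 32280506) (nat_lit 5067259) [(nat_lit 1250150), (nat_lit 0), (nat_lit 5702179)]) (PF.cons (PF.leaf (nat_lit 10879813) (nat_lit
 1247887) (nat_lit 31445298) (nat_lit 5008564) [(nat_lit 1247887), (nat_lit 0), (nat_lit 5631835)]) (PF.cons (PF.leaf (nat_lit 11410843) (nat_lit 1243729) (nat_lit 30632169) (nat_lit 4947807) [(nat_lit 1243729), (nat_lit 0), (nat_lit 5559529)]) (PF.cons (PF.leaf (nat_lit 11935680) (nat_lit 1237987) (nat_lit 29842611) (nat_lit 4885453) [(nat_lit 1237987), (nat_lit 0), (nat_lit 5485759)]) (PF.cons (PF.leaf (nat_lit 12453173) (nat_lit 1230919) (nat_lit 29077487) (nat_lit 4821912) [(nat_lit 1230919), (nat_lit 0), (nat_lit 5410962)]) (PF.cons (PF.leaf (nat_lit 12962456) (nat_lit 1222744) (nat_lit 28337203) (nat_lit 4757544) [(nat_lit 1222744), (nat_lit 0), (nat_lit 5335519)]) (PF.cons PF.nil PF.nil)))))))) (PF.cons (PF.cons (PF.leaf (nat_lit 10785384)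 (nat_lit 3194195) (nat_lit 31022128) (nat_lit 4967544) [(nat_lit 0), (nat_lit 3194195), (nat_lit 5584989)]) (PF.cons (PF.leaf (nat_lit 11306650) (nat_lit 1232093) (nat_lit 30235241) (nat_lit 4907772) [(nat_lit 1232093), (nat_lit 3164214), (nat_lit 5513898)]) (PF.cons (PF.leaf (nat_lit 11823040) (nat_lit 1226794) (nat_lit 29469562) (nat_lit 4846428) [(nat_lit 1226794), (nat_lit 3132460), (nat_lit 5441354)]) (PF.cons (PF.leaf (nat_lit
 12333147) (nat_lit 1220128) (nat_lit 28726296) (nat_lit 4783913) [(nat_lit 1220128), (nat_lit 3099262), (nat_lit 5367791)]) (PF.cons (PF.leaf (nat_lit 12835958) (nat_lit 1212323) (nat_lit 28006106) (nat_lit 4720583) [(nat_lit 1212323), (nat_lit 3064911), (nat_lit 5293583)]) (PF.cons PF.nil PF.nil)))))) (PF.cons (PF.cons (PF.leaf (nat_lit 11715093) (nat_lit 3107738) (nat_lit 29100712) (nat_lit 4807463) [(nat_lit 0), (nat_lit 3107738), (nat_lit 5397032)]) (PF.cons (PF.leaf (nat_lit 12217387) (nat_lit 1209206) (nat_lit 28379382) (nat_lit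 4746039) [(nat_lit 1209206), (nat_lit 3075158), (nat_lit 5324773)]) (PF.cons (PF.leaf (nat_lit 12713439) (nat_lit 1201815) (nat_lit 27679261) (nat_lit 4683793) [(nat_lit 1201815), (nat_lit 3041431), (nat_lit 5251852)]) (PF.cons PF.nil PF.nil)))) (PF.cons (PF.cons (PF.leaf (nat_lit 12595222) (nat_lit 3018004) (nat_lit 27356215) (nat_lit 4647140) [(nat_lit 0), (nat_lit 3018004), (nat_lit 5210288)]) (PF.cons (PF.leaf (nat_lit 13077818) (nat_lit 1183239) (nat_lit 26696249) (nat_lit 4585491) [(nat_lit 1183239), (nat_lit 2984037), (nat_lit 5138343)]) PF.nil)) (PF.cons PF.nil (PF.cons PF.nil PF.nil)))))) (PF.cons (PF.cons (PF.cons (PF.leaf (nat_lit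
 11088252) (nat_lit 4839311) (nat_lit 29648272) (nat_lit 4839311) [(nat_lit 0), (nat_lit 0), (nat_lit 5436871)]) (PF.cons (PF.leaf (nat_lit 11593577) (nat_lit 1206295) (nat_lit 28919430) (nat_lit 4780396) [(nat_lit 1206295), (nat_lit 0), (nat_lit 5367115)]) (PF.cons (PF.leaf (nat_lit 12094265) (nat_lit 1200628) (nat_lit 28209798) (nat_lit 4720241) [(nat_lit 1200628), (nat_lit 0), (nat_lit 5296252)]) (PF.cons (PF.leaf (nat_lit 12589000) (nat_lit 1193727) (nat_lit 27520455) (nat_lit 4659202) [(nat_lit 1193727), (nat_lit 0), (nat_lit 5224662)]) (PF.cons PF.nil (PF.cons PF.nil PF.nil)))))) (PF.cons (PF.cons (PF.leaf (nat_lit 11985507) (nat_lit 3033300) (nat_lit 27870167) (nat_lit 4682815) [(nat_lit 0), (nat_lit 3033300), (nat_lit 5253754)]) (PF.cons (PF.leaf (nat_lit 12472977) (nat_lit 1183145) (nat_lit 27200691) (nat_lit 4622899) [(nat_lit 1183145), (nat_lit 3001109), (nat_lit 5183494)]) (PF.cons (PF.leaf (nat_lit 12954552) (nat_lit 1175645) (nat_lit 26550401)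 (nat_lit 4562382) [(nat_lit 1175645), (nat_lit 2967963), (nat_lit 5112795)]) (PF.cons PF.nil PF.nil)))) (PF.cons (PF.cons (PF.leaf (nat_lit 12836528) (nat_lit 2945450) (nat_lit 26252085) (nat_lit 4527313) [(nat_lit 0), (nat_lit
 2945450), (nat_lit 5073085)]) (PF.cons PF.nil PF.nil)) (PF.cons PF.nil PF.nil)))) (PF.cons (PF.cons (PF.cons (PF.leaf (nat_lit 12242935) (nat_lit 4562880) (nat_lit 26732893) (nat_lit 4562880) [(nat_lit 0), (nat_lit 0), (nat_lit 5116148)]) (PF.cons (PF.leaf (nat_lit 12716602) (nat_lit 1157794) (nat_lit 26110224) (nat_lit 4504625) [(nat_lit 1157794), (nat_lit 0), (nat_lit 5048023)]) PF.nil)) (PF.cons PF.nil PF.nil)) (PF.cons PF.nil (PF.cons PF.nil (PF.cons PF.nil (PF.cons PF.nil PF.nil))))))))))))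

def p14_23_0_0 : pfC (piC [(nat_lit 28473124), (nat_lit 19449108), (nat_lit 12587812)] (nat_lit 13783263)) p14_23_0 (nat_lit 3) (nat_lit 0) (nat_lit 1) = true := by decide +kernel
def p14_23_0_1 : pfC (piC [(nat_lit 28473124), (nat_lit 19449108), (nat_lit 12587812)] (nat_lit 13783263)) p14_23_0 (nat_lit 3) (nat_lit 1) (nat_lit 2) = true := by decide +kernel
def p14_23_0_2 : pfC (piC [(nat_lit 28473124), (nat_lit 19449108), (nat_lit 12587812)] (nat_lit 13783263)) p14_23_0 (nat_lit 3) (nat_lit 2) (nat_lit 3) = true := by decide +kernel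
def p14_23_0_3 : pfC (piC [(nat_lit 28473124), (nat_lit 19449108), (nat_lit 12587812)] (nat_lit 13783263)) p14_23_0 (nat_lit 3) (nat_lit 3) (nat_lit 4) = true := by decide +kernel
def p14_23_0_4 : pfC (piC [(nat_lit 28473124), (nat_lit 19449108), (nat_lit 12587812)] (nat_lit 13783263)) p14_23_0 (nat_lit 3) (nat_lit 4) (nat_lit 5) = true := by decide +kernel
def p14_23_0_5 : pfC (piC [(nat_lit 28473124), (nat_lit 19449108), (nat_lit 12587812)] (nat_lit 13783263)) p14_23_0 (nat_lit 3) (nat_lit 5) (nat_lit 6) = true := by decide +kernel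
def p14_23_0_6 : pfC (piC [(nat_lit 28473124), (nat_lit 19449108), (nat_lit 12587812)] (nat_lit 13783263)) p14_23_0 (nat_lit 3) (nat_lit 6) (nat_lit 7) = true := by decide +kernel
def p14_23_0_7 : pfC (piC [(nat_lit 28473124), (nat_lit 19449108), (nat_lit 12587812)] (nat_lit 13783263)) p14_23_0 (nat_lit 3) (nat_lit 7) (nat_lit 8) = true := by decide +kernel
def p14_23_0_8 : pfC (piC [(nat_lit 28473124), (nat_lit 19449108), (nat_lit 12587812)] (nat_lit 13783263)) p14_23_0 (nat_lit 3) (nat_lit 8) (nat_lit 9) = true := by decide +kernel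
def p14_23_0_9 : pfC (piC [(nat_lit 28473124), (nat_lit 19449108), (nat_lit 12587812)] (nat_lit 13783263)) p14_23_0 (nat_lit 3) (nat_lit 9) (nat_lit 10) = true := by decide +kernel
def p14_23_0_10 : pfC (piC [(nat_lit 28473124), (nat_lit 19449108), (nat_lit 12587812)] (nat_lit 13783263)) p14_23_0 (nat_lit 3) (nat_lit 10) (nat_lit 11) = true := by decide +kernel
def p14_23_0_11 : pfC (piC [(nat_lit 28473124), (nat_lit 19449108), (nat_lit 12587812)] (nat_lit 13783263)) p14_23_0 (nat_lit 3) (nat_lit 11) (nat_lit 12) = true := by decide +kernel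
def p14_23_0_12 : pfC (piC [(nat_lit 28473124), (nat_lit 19449108), (nat_lit 12587812)] (nat_lit 13783263)) p14_23_0 (nat_lit 3) (nat_lit 12) (nat_lit 13) = true := by decide +kernel
def p14_23_0_13 : pfC (piC [(nat_lit 28473124), (nat_lit 19449108), (nat_lit 12587812)] (nat_lit 13783263)) p14_23_0 (nat_lit 3) (nat_lit 13) (nat_lit 14) = true := by decide +kernel
def p14_23_0_14 : pfC (piC [(nat_lit 28473124), (nat_lit 19449108), (nat_lit 12587812)] (nat_lit 13783263)) p14_23_0 (nat_lit 3) (nat_lit 14) (nat_lit 15) = true := by decide +kernel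
def p14_23_0_15 : pfC (piC [(nat_lit 28473124), (nat_lit 19449108), (nat_lit 12587812)] (nat_lit 13783263)) p14_23_0 (nat_lit 3) (nat_lit 15) (nat_lit 16) = true := by decide +kernel
def p14_23_0_16 : pfC (piC [(nat_lit 28473124), (nat_lit 19449108), (nat_lit 12587812)] (nat_lit 13783263)) p14_23_0 (nat_lit 3) (nat_lit 16) (nat_lit 17) = true := by decide +kernel
def p14_23_0_17 : pfC (piC [(nat_lit 28473124), (nat_lit 19449108), (nat_lit 12587812)] (nat_lit 13783263)) p14_23_0 (nat_lit 3) (nat_lit 17) (nat_lit 18) = true := by decide +kernel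
def p14_23_0_18 : pfC (piC [(nat_lit 28473124), (nat_lit 19449108), (nat_lit 12587812)] (nat_lit 13783263)) p14_23_0 (nat_lit 3) (nat_lit 18) (nat_lit 19) = true := by decide +kernel
def p14_23_0_19 : pfC (piC [(nat_lit 28473124), (nat_lit 19449108), (nat_lit 12587812)] (nat_lit 13783263)) p14_23_0 (nat_lit 3) (nat_lit 19) (nat_lit 20) = true := by decide +kernel
def p14_23_0_20 : pfC (piC [(nat_lit 28473124), (nat_lit 19449108), (nat_lit 12587812)] (nat_lit 13783263)) p14_23_0 (nat_lit 3) (nat_lit 20) (nat_lit 21) = true := by decide +kernel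
def p14_23_0_21 : pfC (piC [(nat_lit 28473124), (nat_lit 19449108), (nat_lit 12587812)] (nat_lit 13783263)) p14_23_0 (nat_lit 3) (nat_lit 21) (nat_lit 22) = true := by decide +kernel
def p14_23_0_22 : pfC (piC [(nat_lit 28473124), (nat_lit 19449108), (nat_lit 12587812)] (nat_lit 13783263)) p14_23_0 (nat_lit 3) (nat_lit 22) (nat_lit 23) = true := by decide +kernel
def p14_23_0_23 : pfC (piC [(nat_lit 28473124), (nat_lit 19449108), (nat_lit 12587812)] (nat_lit 13783263)) p14_23_0 (nat_lit 3) (nat_lit 23) (nat_lit 24) = true := by decide +kernel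
def p14_23_0_24 : pfC (piC [(nat_lit 28473124), (nat_lit 19449108), (nat_lit 12587812)] (nat_lit 13783263)) p14_23_0 (nat_lit 3) (nat_lit 24) (nat_lit 25) = true := by decide +kernel
def p14_23_0_25 : pfC (piC [(nat_lit 28473124), (nat_lit 19449108), (nat_lit 12587812)] (nat_lit 13783263)) p14_23_0 (nat_lit 3) (nat_lit 25) (nat_lit 26) = true := by decide +kernel
def p14_23_0_26 : pfC (piC [(nat_lit 28473124), (nat_lit 19449108), (nat_lit 12587812)] (nat_lit 13783263)) p14_23_0 (nat_lit 3) (nat_lit 26) (nat_lit 27) = true := by decide +kernel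
def p14_23_0_27 : pfC (piC [(nat_lit 28473124), (nat_lit 19449108), (nat_lit 12587812)] (nat_lit 13783263)) p14_23_0 (nat_lit 3) (nat_lit 27) (nat_lit 28) = true := by decide +kernel
def p14_23_0_28 : pfC (piC [(nat_lit 28473124), (nat_lit 19449108), (nat_lit 12587812)] (nat_lit 13783263)) p14_23_0 (nat_lit 3) (nat_lit 28) (nat_lit 29) = true := by decide +kernel
def p14_23_0_29 : pfC (piC [(nat_lit 28473124), (nat_lit 19449108), (nat_lit 12587812)] (nat_lit 13783263)) p14_23_0 (nat_lit 3) (nat_lit 29) (nat_lit 30) = true := by decide +kernel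
def p14_23_0_30 : pfC (piC [(nat_lit 28473124), (nat_lit 19449108), (nat_lit 12587812)] (nat_lit 13783263)) p14_23_0 (nat_lit 3) (nat_lit 30) (nat_lit 31) = true := by decide +kernel
def p14_23_0_31 : pfC (piC [(nat_lit 28473124), (nat_lit 19449108), (nat_lit 12587812)] (nat_lit 13783263)) p14_23_0 (nat_lit 3) (nat_lit 31) (nat_lit 32) = true := by decide +kernel
def p14_23_0_32 : pfC (piC [(nat_lit 28473124), (nat_lit 19449108), (nat_lit 12587812)] (nat_lit 13783263)) p14_23_0 (nat_lit 3) (nat_lit 32) (nat_lit 33) = true := by decide +kernel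
def p14_23_0_33 : pfC (piC [(nat_lit 28473124), (nat_lit 19449108), (nat_lit 12587812)] (nat_lit 13783263)) p14_23_0 (nat_lit 3) (nat_lit 33) (nat_lit 34) = true := by decide +kernel
def p14_23_0_34 : pfC (piC [(nat_lit 28473124), (nat_lit 19449108), (nat_lit 12587812)] (nat_lit 13783263)) p14_23_0 (nat_lit 3) (nat_lit 34) (nat_lit 35) = true := by decide +kernel
def p14_23_0_35 : pfC (piC [(nat_lit 28473124), (nat_lit 19449108), (nat_lit 12587812)] (nat_lit 13783263)) p14_23_0 (nat_lit 3) (nat_lit 35) (nat_lit 36) = true := by decide +kernel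
def p14_23_0_36 : pfC (piC [(nat_lit 28473124), (nat_lit 19449108), (nat_lit 12587812)] (nat_lit 13783263)) p14_23_0 (nat_lit 3) (nat_lit 36) (nat_lit 37) = true := by decide +kernel
def p14_23_0_37 : pfC (piC [(nat_lit 28473124), (nat_lit 19449108), (nat_lit 12587812)] (nat_lit 13783263)) p14_23_0 (nat_lit 3) (nat_lit 37) (nat_lit 38) = true := by decide +kernel
def p14_23_0_38 : pfC (piC [(nat_lit 28473124), (nat_lit 19449108), (nat_lit 12587812)] (nat_lit 13783263)) p14_23_0 (nat_lit 3) (nat_lit 38) (nat_lit 39) = true := by decide +kernel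
def p14_23_0_39 : pfC (piC [(nat_lit 28473124), (nat_lit 19449108), (nat_lit 12587812)] (nat_lit 13783263)) p14_23_0 (nat_lit 3) (nat_lit 39) (nat_lit 40) = true := by decide +kernel
def p14_23_0_40 : pfC (piC [(nat_lit 28473124), (nat_lit 19449108), (nat_lit 12587812)] (nat_lit 13783263)) p14_23_0 (nat_lit 3) (nat_lit 40) (nat_lit 41) = true := by decide +kernel
def p14_23_0_41 : pfC (piC [(nat_lit 28473124), (nat_lit 19449108), (nat_lit 12587812)] (nat_lit 13783263)) p14_23_0 (nat_lit 3) (nat_lit 41) (nat_lit 42) = true := by decide +kernel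
def p14_23_0_42 : pfC (piC [(nat_lit 28473124), (nat_lit 19449108), (nat_lit 12587812)] (nat_lit 13783263)) p14_23_0 (nat_lit 3) (nat_lit 42) (nat_lit 43) = true := by decide +kernel
def p14_23_0_43 : pfC (piC [(nat_lit 28473124), (nat_lit 19449108), (nat_lit 12587812)] (nat_lit 13783263)) p14_23_0 (nat_lit 3) (nat_lit 43) (nat_lit 44) = true := by decide +kernel
def p14_23_0_44 : pfC (piC [(nat_lit 28473124), (nat_lit 19449108), (nat_lit 12587812)] (nat_lit 13783263)) p14_23_0 (nat_lit 3) (nat_lit 44) (nat_lit 45) = true := by decide +kernel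
def p14_23_0_45 : pfC (piC [(nat_lit 28473124), (nat_lit 19449108), (nat_lit 12587812)] (nat_lit 13783263)) p14_23_0 (nat_lit 3) (nat_lit 45) (nat_lit 46) = true := by decide +kernel
def p14_23_0_46 : pfC (piC [(nat_lit 28473124), (nat_lit 19449108), (nat_lit 12587812)] (nat_lit 13783263)) p14_23_0 (nat_lit 3) (nat_lit 46) (nat_lit 47) = true := by decide +kernel
def p14_23_0_47 : pfC (piC [(nat_lit 28473124), (nat_lit 19449108), (nat_lit 12587812)] (nat_lit 13783263)) p14_23_0 (nat_lit 3) (nat_lit 47) (nat_lit 48) = true := by decide +kernel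
def p14_23_0_48 : pfC (piC [(nat_lit 28473124), (nat_lit 19449108), (nat_lit 12587812)] (nat_lit 13783263)) p14_23_0 (nat_lit 3) (nat_lit 48) (nat_lit 49) = true := by decide +kernel
def p14_23_0_49 : pfC (piC [(nat_lit 28473124), (nat_lit 19449108), (nat_lit 12587812)] (nat_lit 13783263)) p14_23_0 (nat_lit 3) (nat_lit 49) (nat_lit 50) = true := by decide +kernel
def p14_23_0_50 : pfC (piC [(nat_lit 28473124), (nat_lit 19449108), (nat_lit 12587812)] (nat_lit 13783263)) p14_23_0 (nat_lit 3) (nat_lit 50) (nat_lit 51) = true := by decide +kernel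
def p14_23_0_51 : pfC (piC [(nat_lit 28473124), (nat_lit 19449108), (nat_lit 12587812)] (nat_lit 13783263)) p14_23_0 (nat_lit 3) (nat_lit 51) (nat_lit 52) = true := by decide +kernel
def p14_23_0_52 : pfC (piC [(nat_lit 28473124), (nat_lit 19449108), (nat_lit 12587812)] (nat_lit 13783263)) p14_23_0 (nat_lit 3) (nat_lit 52) (nat_lit 53) = true := by decide +kernel
def p14_23_0_53 : pfC (piC [(nat_lit 28473124), (nat_lit 19449108), (nat_lit 12587812)] (nat_lit 13783263)) p14_23_0 (nat_lit 3) (nat_lit 53) (nat_lit 54) = true := by decide +kernel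
def p14_23_0_54 : pfC (piC [(nat_lit 28473124), (nat_lit 19449108), (nat_lit 12587812)] (nat_lit 13783263)) p14_23_0 (nat_lit 3) (nat_lit 54) (nat_lit 55) = true := by decide +kernel
def p14_23_0_55 : pfC (piC [(nat_lit 28473124), (nat_lit 19449108), (nat_lit 12587812)] (nat_lit 13783263)) p14_23_0 (nat_lit 3) (nat_lit 55) (nat_lit 56) = true := by decide +kernel
def p14_23_0_56 : pfC (piC [(nat_lit 28473124), (nat_lit 19449108), (nat_lit 12587812)] (nat_lit 13783263)) p14_23_0 (nat_lit 3) (nat_lit 56) (nat_lit 57) = true := by decide +kernel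
def p14_23_0_57 : pfC (piC [(nat_lit 28473124), (nat_lit 19449108), (nat_lit 12587812)] (nat_lit 13783263)) p14_23_0 (nat_lit 3) (nat_lit 57) (nat_lit 58) = true := by decide +kernel
def p14_23_0_58 : pfC (piC [(nat_lit 28473124), (nat_lit 19449108), (nat_lit 12587812)] (nat_lit 13783263)) p14_23_0 (nat_lit 3) (nat_lit 58) (nat_lit 59) = true := by decide +kernel
def p14_23_0_59 : pfC (piC [(nat_lit 28473124), (nat_lit 19449108), (nat_lit 12587812)] (nat_lit 13783263)) p14_23_0 (nat_lit 3) (nat_lit 59) (nat_lit 60) = true := by decide +kernel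
def p14_23_0_60 : pfC (piC [(nat_lit 28473124), (nat_lit 19449108), (nat_lit 12587812)] (nat_lit 13783263)) p14_23_0 (nat_lit 3) (nat_lit 60) (nat_lit 61) = true := by decide +kernel
def p14_23_0_61 : pfC (piC [(nat_lit 28473124), (nat_lit 19449108), (nat_lit 12587812)] (nat_lit 13783263)) p14_23_0 (nat_lit 3) (nat_lit 61) (nat_lit 62) = true := by decide +kernel
def p14_23_0_62 : pfC (piC [(nat_lit 28473124), (nat_lit 19449108), (nat_lit 12587812)] (nat_lit 13783263)) p14_23_0 (nat_lit 3) (nat_lit 62) (nat_lit 63) = true := by decide +kernel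
def p14_23_0_63 : pfC (piC [(nat_lit 28473124), (nat_lit 19449108), (nat_lit 12587812)] (nat_lit 13783263)) p14_23_0 (nat_lit 3) (nat_lit 63) (nat_lit 64) = true := by decide +kernel
def p14_23_0_64 : pfC (piC [(nat_lit 28473124), (nat_lit 19449108), (nat_lit 12587812)] (nat_lit 13783263)) p14_23_0 (nat_lit 3) (nat_lit 64) (nat_lit 65) = true := by decide +kernel
def p14_23_0_65 : pfC (piC [(nat_lit 28473124), (nat_lit 19449108), (nat_lit 12587812)] (nat_lit 13783263)) p14_23_0 (nat_lit 3) (nat_lit 65) (nat_lit 66) = true := by decide +kernel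
def p14_23_0_66 : pfC (piC [(nat_lit 28473124), (nat_lit 19449108), (nat_lit 12587812)] (nat_lit 13783263)) p14_23_0 (nat_lit 3) (nat_lit 66) (nat_lit 67) = true := by decide +kernel
def p14_23_0_67 : pfC (piC [(nat_lit 28473124), (nat_lit 19449108), (nat_lit 12587812)] (nat_lit 13783263)) p14_23_0 (nat_lit 3) (nat_lit 67) (nat_lit 68) = true := by decide +kernel
def p14_23_0_68 : pfC (piC [(nat_lit 28473124), (nat_lit 19449108), (nat_lit 12587812)] (nat_lit 13783263)) p14_23_0 (nat_lit 3) (nat_lit 68) (nat_lit 69) = true := by decide +kernel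
def p14_23_0_69 : pfC (piC [(nat_lit 28473124), (nat_lit 19449108), (nat_lit 12587812)] (nat_lit 13783263)) p14_23_0 (nat_lit 3) (nat_lit 69) (nat_lit 70) = true := by decide +kernel
def p14_23_0_70 : pfC (piC [(nat_lit 28473124), (nat_lit 19449108), (nat_lit 12587812)] (nat_lit 13783263)) p14_23_0 (nat_lit 3) (nat_lit 70) (nat_lit 71) = true := by decide +kernel
def p14_23_0_71 : pfC (piC [(nat_lit 28473124), (nat_lit 19449108), (nat_lit 12587812)] (nat_lit 13783263)) p14_23_0 (nat_lit 3) (nat_lit 71) (nat_lit 72) = true := by decide +kernel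
def p14_23_0_72 : pfC (piC [(nat_lit 28473124), (nat_lit 19449108), (nat_lit 12587812)] (nat_lit 13783263)) p14_23_0 (nat_lit 3) (nat_lit 72) (nat_lit 73) = true := by decide +kernel
def p14_23_0_73 : pfC (piC [(nat_lit 28473124), (nat_lit 19449108), (nat_lit 12587812)] (nat_lit 13783263)) p14_23_0 (nat_lit 3) (nat_lit 73) (nat_lit 74) = true := by decide +kernel
def p14_23_0_74 : pfC (piC [(nat_lit 28473124), (nat_lit 19449108), (nat_lit 12587812)] (nat_lit 13783263)) p14_23_0 (nat_lit 3) (nat_lit 74) (nat_lit 75) = true := by decide +kernel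
def p14_23_0_75 : pfC (piC [(nat_lit 28473124), (nat_lit 19449108), (nat_lit 12587812)] (nat_lit 13783263)) p14_23_0 (nat_lit 3) (nat_lit 75) (nat_lit 76) = true := by decide +kernel
def p14_23_0_76 : pfC (piC [(nat_lit 28473124), (nat_lit 19449108), (nat_lit 12587812)] (nat_lit 13783263)) p14_23_0 (nat_lit 3) (nat_lit 76) (nat_lit 77) = true := by decide +kernel
def p14_23_0_77 : pfC (piC [(nat_lit 28473124), (nat_lit 19449108), (nat_lit 12587812)] (nat_lit 13783263)) p14_23_0 (nat_lit 3) (nat_lit 77) (nat_lit 78) = true := by decide +kernel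
def p14_23_0_78 : pfC (piC [(nat_lit 28473124), (nat_lit 19449108), (nat_lit 12587812)] (nat_lit 13783263)) p14_23_0 (nat_lit 3) (nat_lit 78) (nat_lit 79) = true := by decide +kernel
def p14_23_0_79 : pfC (piC [(nat_lit 28473124), (nat_lit 19449108), (nat_lit 12587812)] (nat_lit 13783263)) p14_23_0 (nat_lit 3) (nat_lit 79) (nat_lit 80) = true := by decide +kernel
def p14_23_0_80 : pfC (piC [(nat_lit 28473124), (nat_lit 19449108), (nat_lit 12587812)] (nat_lit 13783263)) p14_23_0 (nat_lit 3) (nat_lit 80) (nat_lit 81) = true := by decide +kernel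
def p14_23_0_81 : pfC (piC [(nat_lit 28473124), (nat_lit 19449108), (nat_lit 12587812)] (nat_lit 13783263)) p14_23_0 (nat_lit 3) (nat_lit 81) (nat_lit 82) = true := by decide +kernel
def p14_23_0_82 : pfC (piC [(nat_lit 28473124), (nat_lit 19449108), (nat_lit 12587812)] (nat_lit 13783263)) p14_23_0 (nat_lit 3) (nat_lit 82) (nat_lit 83) = true := by decide +kernel
def p14_23_0_83 : pfC (piC [(nat_lit 28473124), (nat_lit 19449108), (nat_lit 12587812)] (nat_lit 13783263)) p14_23_0 (nat_lit 3) (nat_lit 83) (nat_lit 84) = true := by decide +kernel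
def p14_23_0_84 : pfC (piC [(nat_lit 28473124), (nat_lit 19449108), (nat_lit 12587812)] (nat_lit 13783263)) p14_23_0 (nat_lit 3) (nat_lit 84) (nat_lit 85) = true := by decide +kernel
def p14_23_0_85 : pfC (piC [(nat_lit 28473124), (nat_lit 19449108), (nat_lit 12587812)] (nat_lit 13783263)) p14_23_0 (nat_lit 3) (nat_lit 85) (nat_lit 86) = true := by decide +kernel
def p14_23_0_86 : pfC (piC [(nat_lit 28473124), (nat_lit 19449108), (nat_lit 12587812)] (nat_lit 13783263)) p14_23_0 (nat_lit 3) (nat_lit 86) (nat_lit 87) = true := by decide +kernel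
def p14_23_0_87 : pfC (piC [(nat_lit 28473124), (nat_lit 19449108), (nat_lit 12587812)] (nat_lit 13783263)) p14_23_0 (nat_lit 3) (nat_lit 87) (nat_lit 88) = true := by decide +kernel
def p14_23_0_88 : pfC (piC [(nat_lit 28473124), (nat_lit 19449108), (nat_lit 12587812)] (nat_lit 13783263)) p14_23_0 (nat_lit 3) (nat_lit 88) (nat_lit 89) = true := by decide +kernel
def p14_23_0_89 : pfC (piC [(nat_lit 28473124), (nat_lit 19449108), (nat_lit 12587812)] (nat_lit 13783263)) p14_23_0 (nat_lit 3) (nat_lit 89) (nat_lit 90) = true := by decide +kernel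
def p14_23_0_90 : pfC (piC [(nat_lit 28473124), (nat_lit 19449108), (nat_lit 12587812)] (nat_lit 13783263)) p14_23_0 (nat_lit 3) (nat_lit 90) (nat_lit 91) = true := by decide +kernel
def p14_23_0_91 : pfC (piC [(nat_lit 28473124), (nat_lit 19449108), (nat_lit 12587812)] (nat_lit 13783263)) p14_23_0 (nat_lit 3) (nat_lit 91) (nat_lit 92) = true := by decide +kernel
def p14_23_0_92 : pfC (piC [(nat_lit 28473124), (nat_lit 19449108), (nat_lit 12587812)] (nat_lit 13783263)) p14_23_0 (nat_lit 3) (nat_lit 92) (nat_lit 93) = true := by decide +kernel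
def p14_23_0_93 : pfC (piC [(nat_lit 28473124), (nat_lit 19449108), (nat_lit 12587812)] (nat_lit 13783263)) p14_23_0 (nat_lit 3) (nat_lit 93) (nat_lit 94) = true := by decide +kernel
def p14_23_0_94 : pfC (piC [(nat_lit 28473124), (nat_lit 19449108), (nat_lit 12587812)] (nat_lit 13783263)) p14_23_0 (nat_lit 3) (nat_lit 94) (nat_lit 95) = true := by decide +kernel
def p14_23_0_95 : pfC (piC [(nat_lit 28473124), (nat_lit 19449108), (nat_lit 12587812)] (nat_lit 13783263)) p14_23_0 (nat_lit 3) (nat_lit 95) (nat_lit 96) = true := by decide +kernel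
def p14_23_0_96 : pfC (piC [(nat_lit 28473124), (nat_lit 19449108), (nat_lit 12587812)] (nat_lit 13783263)) p14_23_0 (nat_lit 3) (nat_lit 96) (nat_lit 97) = true := by decide +kernel
def p14_23_0_97 : pfC (piC [(nat_lit 28473124), (nat_lit 19449108), (nat_lit 12587812)] (nat_lit 13783263)) p14_23_0 (nat_lit 3) (nat_lit 97) (nat_lit 98) = true := by decide +kernel
def p14_23_0_98 : pfC (piC [(nat_lit 28473124), (nat_lit 19449108), (nat_lit 12587812)] (nat_lit 13783263)) p14_23_0 (nat_lit 3) (nat_lit 98) (nat_lit 99) = true := by decide +kernel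
def p14_23_0_99 : pfC (piC [(nat_lit 28473124), (nat_lit 19449108), (nat_lit 12587812)] (nat_lit 13783263)) p14_23_0 (nat_lit 3) (nat_lit 99) (nat_lit 100) = true := by decide +kernel
def p14_23_0_100 : pfC (piC [(nat_lit 28473124), (nat_lit 19449108), (nat_lit 12587812)] (nat_lit 13783263)) p14_23_0 (nat_lit 3) (nat_lit 100) (nat_lit 101) = true := by decide +kernel
def p14_23_0_101 : pfC (piC [(nat_lit 28473124), (nat_lit 19449108), (nat_lit 12587812)] (nat_lit 13783263)) p14_23_0 (nat_lit 3) (nat_lit 101) (nat_lit 102) = true := by decide +kernel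
def p14_23_0_102 : pfC (piC [(nat_lit 28473124), (nat_lit 19449108), (nat_lit 12587812)] (nat_lit 13783263)) p14_23_0 (nat_lit 3) (nat_lit 102) (nat_lit 103) = true := by decide +kernel
def p14_23_0_103 : pfC (piC [(nat_lit 28473124), (nat_lit 19449108), (nat_lit 12587812)] (nat_lit 13783263)) p14_23_0 (nat_lit 3) (nat_lit 103) (nat_lit 104) = true := by decide +kernel
def p14_23_0_104 : pfC (piC [(nat_lit 28473124), (nat_lit 19449108), (nat_lit 12587812)] (nat_lit 13783263)) p14_23_0 (nat_lit 3) (nat_lit 104) (nat_lit 105) = true := by decide +kernel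
def p14_23_0_105 : pfC (piC [(nat_lit 28473124), (nat_lit 19449108), (nat_lit 12587812)] (nat_lit 13783263)) p14_23_0 (nat_lit 3) (nat_lit 105) (nat_lit 106) = true := by decide +kernel
def p14_23_0_106 : pfC (piC [(nat_lit 28473124), (nat_lit 19449108), (nat_lit 12587812)] (nat_lit 13783263)) p14_23_0 (nat_lit 3) (nat_lit 106) (nat_lit 107) = true := by decide +kernel
def p14_23_0_107 : pfC (piC [(nat_lit 28473124), (nat_lit 19449108), (nat_lit 12587812)] (nat_lit 13783263)) p14_23_0 (nat_lit 3) (nat_lit 107) (nat_lit 108) = true := by decide +kernel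
def p14_23_0_108 : pfC (piC [(nat_lit 28473124), (nat_lit 19449108), (nat_lit 12587812)] (nat_lit 13783263)) p14_23_0 (nat_lit 3) (nat_lit 108) (nat_lit 109) = true := by decide +kernel
def p14_23_0_109 : pfC (piC [(nat_lit 28473124), (nat_lit 19449108), (nat_lit 12587812)] (nat_lit 13783263)) p14_23_0 (nat_lit 3) (nat_lit 109) (nat_lit 110) = true := by decide +kernel
def p14_23_0_110 : pfC (piC [(nat_lit 28473124), (nat_lit 19449108), (nat_lit 12587812)] (nat_lit 13783263)) p14_23_0 (nat_lit 3) (nat_lit 110) (nat_lit 111) = true := by decide +kernel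
def p14_23_0_111 : pfC (piC [(nat_lit 28473124), (nat_lit 19449108), (nat_lit 12587812)] (nat_lit 13783263)) p14_23_0 (nat_lit 3) (nat_lit 111) (nat_lit 112) = true := by decide +kernel
def p14_23_0_112 : pfC (piC [(nat_lit 28473124), (nat_lit 19449108), (nat_lit 12587812)] (nat_lit 13783263)) p14_23_0 (nat_lit 3) (nat_lit 112) (nat_lit 113) = true := by decide +kernel
def p14_23_0_113 : pfC (piC [(nat_lit 28473124), (nat_lit 19449108), (nat_lit 12587812)] (nat_lit 13783263)) p14_23_0 (nat_lit 3) (nat_lit 113) (nat_lit 114) = true := by decide +kernel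
def p14_23_0_114 : pfC (piC [(nat_lit 28473124), (nat_lit 19449108), (nat_lit 12587812)] (nat_lit 13783263)) p14_23_0 (nat_lit 3) (nat_lit 114) (nat_lit 115) = true := by decide +kernel
def p14_23_0_115 : pfC (piC [(nat_lit 28473124), (nat_lit 19449108), (nat_lit 12587812)] (nat_lit 13783263)) p14_23_0 (nat_lit 3) (nat_lit 115) (nat_lit 116) = true := by decide +kernel
def p14_23_0_116 : pfC (piC [(nat_lit 28473124), (nat_lit 19449108), (nat_lit 12587812)] (nat_lit 13783263)) p14_23_0 (nat_lit 3) (nat_lit 116) (nat_lit 117) = true := by decide +kernel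
def p14_23_0_117 : pfC (piC [(nat_lit 28473124), (nat_lit 19449108), (nat_lit 12587812)] (nat_lit 13783263)) p14_23_0 (nat_lit 3) (nat_lit 117) (nat_lit 118) = true := by decide +kernel
def p14_23_0_118 : pfC (piC [(nat_lit 28473124), (nat_lit 19449108), (nat_lit 12587812)] (nat_lit 13783263)) p14_23_0 (nat_lit 3) (nat_lit 118) (nat_lit 119) = true := by decide +kernel
def p14_23_0_119 : pfC (piC [(nat_lit 28473124), (nat_lit 19449108), (nat_lit 12587812)] (nat_lit 13783263)) p14_23_0 (nat_lit 3) (nat_lit 119) (nat_lit 120) = true := by decide +kernel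
def p14_23_0_120 : pfC (piC [(nat_lit 28473124), (nat_lit 19449108), (nat_lit 12587812)] (nat_lit 13783263)) p14_23_0 (nat_lit 3) (nat_lit 120) (nat_lit 121) = true := by decide +kernel
def p14_23_0_121 : pfC (piC [(nat_lit 28473124), (nat_lit 19449108), (nat_lit 12587812)] (nat_lit 13783263)) p14_23_0 (nat_lit 3) (nat_lit 121) (nat_lit 122) = true := by decide +kernel
def p14_23_0_122 : pfC (piC [(nat_lit 28473124), (nat_lit 19449108), (nat_lit 12587812)] (nat_lit 13783263)) p14_23_0 (nat_lit 3) (nat_lit 122) (nat_lit 123) = true := by decide +kernel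
def p14_23_0_123 : pfC (piC [(nat_lit 28473124), (nat_lit 19449108), (nat_lit 12587812)] (nat_lit 13783263)) p14_23_0 (nat_lit 3) (nat_lit 123) (nat_lit 124) = true := by decide +kernel
def p14_23_0_124 : pfC (piC [(nat_lit 28473124), (nat_lit 19449108), (nat_lit 12587812)] (nat_lit 13783263)) p14_23_0 (nat_lit 3) (nat_lit 124) (nat_lit 125) = true := by decide +kernel
def p14_23_0_125 : pfC (piC [(nat_lit 28473124), (nat_lit 19449108), (nat_lit 12587812)] (nat_lit 13783263)) p14_23_0 (nat_lit 3) (nat_lit 125) (nat_lit 126) = true := by decide +kernel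
def p14_23_0_126 : pfC (piC [(nat_lit 28473124), (nat_lit 19449108), (nat_lit 12587812)] (nat_lit 13783263)) p14_23_0 (nat_lit 3) (nat_lit 126) (nat_lit 127) = true := by decide +kernel
def p14_23_0_127 : pfC (piC [(nat_lit 28473124), (nat_lit 19449108), (nat_lit 12587812)] (nat_lit 13783263)) p14_23_0 (nat_lit 3) (nat_lit 127) (nat_lit 128) = true := by decide +kernel
def p14_23_0_128 : pfC (piC [(nat_lit 28473124), (nat_lit 19449108), (nat_lit 12587812)] (nat_lit 13783263)) p14_23_0 (nat_lit 3) (nat_lit 128) (nat_lit 129) = true := by decide +kernel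
def p14_23_0_129 : pfC (piC [(nat_lit 28473124), (nat_lit 19449108), (nat_lit 12587812)] (nat_lit 13783263)) p14_23_0 (nat_lit 3) (nat_lit 129) (nat_lit 130) = true := by decide +kernel
def p14_23_0_130 : pfC (piC [(nat_lit 28473124), (nat_lit 19449108), (nat_lit 12587812)] (nat_lit 13783263)) p14_23_0 (nat_lit 3) (nat_lit 130) (nat_lit 131) = true := by decide +kernel
def p14_23_0_131 : pfC (piC [(nat_lit 28473124), (nat_lit 19449108), (nat_lit 12587812)] (nat_lit 13783263)) p14_23_0 (nat_lit 3) (nat_lit 131) (nat_lit 132) = true := by decide +kernel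
def p14_23_0_132 : pfC (piC [(nat_lit 28473124), (nat_lit 19449108), (nat_lit 12587812)] (nat_lit 13783263)) p14_23_0 (nat_lit 3) (nat_lit 132) (nat_lit 133) = true := by decide +kernel
def p14_23_0_133 : pfC (piC [(nat_lit 28473124), (nat_lit 19449108), (nat_lit 12587812)] (nat_lit 13783263)) p14_23_0 (nat_lit 3) (nat_lit 133) (nat_lit 134) = true := by decide +kernel
def p14_23_0_134 : pfC (piC [(nat_lit 28473124), (nat_lit 19449108), (nat_lit 12587812)] (nat_lit 13783263)) p14_23_0 (nat_lit 3) (nat_lit 134) (nat_lit 135) = true := by decide +kernel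
def p14_23_0_135 : pfC (piC [(nat_lit 28473124), (nat_lit 19449108), (nat_lit 12587812)] (nat_lit 13783263)) p14_23_0 (nat_lit 3) (nat_lit 135) (nat_lit 136) = true := by decide +kernel
def p14_23_0_136 : pfC (piC [(nat_lit 28473124), (nat_lit 19449108), (nat_lit 12587812)] (nat_lit 13783263)) p14_23_0 (nat_lit 3) (nat_lit 136) (nat_lit 137) = true := by decide +kernel
def p14_23_0_137 : pfC (piC [(nat_lit 28473124), (nat_lit 19449108), (nat_lit 12587812)] (nat_lit 13783263)) p14_23_0 (nat_lit 3) (nat_lit 137) (nat_lit 138) = true := by decide +kernel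
def p14_23_0_138 : pfC (piC [(nat_lit 28473124), (nat_lit 19449108), (nat_lit 12587812)] (nat_lit 13783263)) p14_23_0 (nat_lit 3) (nat_lit 138) (nat_lit 139) = true := by decide +kernel
def p14_23_0_139 : pfC (piC [(nat_lit 28473124), (nat_lit 19449108), (nat_lit 12587812)] (nat_lit 13783263)) p14_23_0 (nat_lit 3) (nat_lit 139) (nat_lit 140) = true := by decide +kernel
def p14_23_0_140 : pfC (piC [(nat_lit 28473124), (nat_lit 19449108), (nat_lit 12587812)] (nat_lit 13783263)) p14_23_0 (nat_lit 3) (nat_lit 140) (nat_lit 141) = true := by decide +kernel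
def p14_23_0_141 : pfC (piC [(nat_lit 28473124), (nat_lit 19449108), (nat_lit 12587812)] (nat_lit 13783263)) p14_23_0 (nat_lit 3) (nat_lit 141) (nat_lit 142) = true := by decide +kernel
def p14_23_0_142 : pfC (piC [(nat_lit 28473124), (nat_lit 19449108), (nat_lit 12587812)] (nat_lit 13783263)) p14_23_0 (nat_lit 3) (nat_lit 142) (nat_lit 143) = true := by decide +kernel
def p14_23_0_143 : pfC (piC [(nat_lit 28473124), (nat_lit 19449108), (nat_lit 12587812)] (nat_lit 13783263)) p14_23_0 (nat_lit 3) (nat_lit 143) (nat_lit 144) = true := by decide +kernel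
def p14_23_0_144 : pfC (piC [(nat_lit 28473124), (nat_lit 19449108), (nat_lit 12587812)] (nat_lit 13783263)) p14_23_0 (nat_lit 3) (nat_lit 144) (nat_lit 145) = true := by decide +kernel
def p14_23_0_145 : pfC (piC [(nat_lit 28473124), (nat_lit 19449108), (nat_lit 12587812)] (nat_lit 13783263)) p14_23_0 (nat_lit 3) (nat_lit 145) (nat_lit 146) = true := by decide +kernel
def p14_23_0_146 : pfC (piC [(nat_lit 28473124), (nat_lit 19449108), (nat_lit 12587812)] (nat_lit 13783263)) p14_23_0 (nat_lit 3) (nat_lit 146) (nat_lit 147) = true := by decide +kernel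
def p14_23_0_147 : pfC (piC [(nat_lit 28473124), (nat_lit 19449108), (nat_lit 12587812)] (nat_lit 13783263)) p14_23_0 (nat_lit 3) (nat_lit 147) (nat_lit 148) = true := by decide +kernel
def p14_23_0_148 : pfC (piC [(nat_lit 28473124), (nat_lit 19449108), (nat_lit 12587812)] (nat_lit 13783263)) p14_23_0 (nat_lit 3) (nat_lit 148) (nat_lit 149) = true := by decide +kernel
def p14_23_0_149 : pfC (piC [(nat_lit 28473124), (nat_lit 19449108), (nat_lit 12587812)] (nat_lit 13783263)) p14_23_0 (nat_lit 3) (nat_lit 149) (nat_lit 150) = true := by decide +kernel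
def p14_23_0_150 : pfC (piC [(nat_lit 28473124), (nat_lit 19449108), (nat_lit 12587812)] (nat_lit 13783263)) p14_23_0 (nat_lit 3) (nat_lit 150) (nat_lit 151) = true := by decide +kernel
def p14_23_0_151 : pfC (piC [(nat_lit 28473124), (nat_lit 19449108), (nat_lit 12587812)] (nat_lit 13783263)) p14_23_0 (nat_lit 3) (nat_lit 151) (nat_lit 152) = true := by decide +kernel
def p14_23_0_152 : pfC (piC [(nat_lit 28473124), (nat_lit 19449108), (nat_lit 12587812)] (nat_lit 13783263)) p14_23_0 (nat_lit 3) (nat_lit 152) (nat_lit 153) = true := by decide +kernel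
def p14_23_0_153 : pfC (piC [(nat_lit 28473124), (nat_lit 19449108), (nat_lit 12587812)] (nat_lit 13783263)) p14_23_0 (nat_lit 3) (nat_lit 153) (nat_lit 154) = true := by decide +kernel
def p14_23_0_154 : pfC (piC [(nat_lit 28473124), (nat_lit 19449108), (nat_lit 12587812)] (nat_lit 13783263)) p14_23_0 (nat_lit 3) (nat_lit 154) (nat_lit 155) = true := by decide +kernel
def p14_23_0_155 : pfC (piC [(nat_lit 28473124), (nat_lit 19449108), (nat_lit 12587812)] (nat_lit 13783263)) p14_23_0 (nat_lit 3) (nat_lit 155) (nat_lit 156) = true := by decide +kernel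
def p14_23_0_156 : pfC (piC [(nat_lit 28473124), (nat_lit 19449108), (nat_lit 12587812)] (nat_lit 13783263)) p14_23_0 (nat_lit 3) (nat_lit 156) (nat_lit 157) = true := by decide +kernel
def p14_23_0_157 : pfC (piC [(nat_lit 28473124), (nat_lit 19449108), (nat_lit 12587812)] (nat_lit 13783263)) p14_23_0 (nat_lit 3) (nat_lit 157) (nat_lit 158) = true := by decide +kernel
def p14_23_0_158 : pfC (piC [(nat_lit 28473124), (nat_lit 19449108), (nat_lit 12587812)] (nat_lit 13783263)) p14_23_0 (nat_lit 3) (nat_lit 158) (nat_lit 159) = true := by decide +kernel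
def p14_23_0_159 : pfC (piC [(nat_lit 28473124), (nat_lit 19449108), (nat_lit 12587812)] (nat_lit 13783263)) p14_23_0 (nat_lit 3) (nat_lit 159) (nat_lit 160) = true := by decide +kernel
def p14_23_0_160 : pfC (piC [(nat_lit 28473124), (nat_lit 19449108), (nat_lit 12587812)] (nat_lit 13783263)) p14_23_0 (nat_lit 3) (nat_lit 160) (nat_lit 161) = true := by decide +kernel
def p14_23_0_161 : pfC (piC [(nat_lit 28473124), (nat_lit 19449108), (nat_lit 12587812)] (nat_lit 13783263)) p14_23_0 (nat_lit 3) (nat_lit 161) (nat_lit 162) = true := by decide +kernel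
def p14_23_0_162 : pfC (piC [(nat_lit 28473124), (nat_lit 19449108), (nat_lit 12587812)] (nat_lit 13783263)) p14_23_0 (nat_lit 3) (nat_lit 162) (nat_lit 163) = true := by decide +kernel
def p14_23_0_163 : pfC (piC [(nat_lit 28473124), (nat_lit 19449108), (nat_lit 12587812)] (nat_lit 13783263)) p14_23_0 (nat_lit 3) (nat_lit 163) (nat_lit 164) = true := by decide +kernel
def p14_23_0_164 : pfC (piC [(nat_lit 28473124), (nat_lit 19449108), (nat_lit 12587812)] (nat_lit 13783263)) p14_23_0 (nat_lit 3) (nat_lit 164) (nat_lit 165) = true := by decide +kernel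
def p14_23_0_165 : pfC (piC [(nat_lit 28473124), (nat_lit 19449108), (nat_lit 12587812)] (nat_lit 13783263)) p14_23_0 (nat_lit 3) (nat_lit 165) (nat_lit 166) = true := by decide +kernel
def p14_23_0_166 : pfC (piC [(nat_lit 28473124), (nat_lit 19449108), (nat_lit 12587812)] (nat_lit 13783263)) p14_23_0 (nat_lit 3) (nat_lit 166) (nat_lit 167) = true := by decide +kernel
def p14_23_0_167 : pfC (piC [(nat_lit 28473124), (nat_lit 19449108), (nat_lit 12587812)] (nat_lit 13783263)) p14_23_0 (nat_lit 3) (nat_lit 167) (nat_lit 168) = true := by decide +kernel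
def p14_23_0_168 : pfC (piC [(nat_lit 28473124), (nat_lit 19449108), (nat_lit 12587812)] (nat_lit 13783263)) p14_23_0 (nat_lit 3) (nat_lit 168) (nat_lit 169) = true := by decide +kernel
def p14_23_0_169 : pfC (piC [(nat_lit 28473124), (nat_lit 19449108), (nat_lit 12587812)] (nat_lit 13783263)) p14_23_0 (nat_lit 3) (nat_lit 169) (nat_lit 170) = true := by decide +kernel
def p14_23_0_170 : pfC (piC [(nat_lit 28473124), (nat_lit 19449108), (nat_lit 12587812)] (nat_lit 13783263)) p14_23_0 (nat_lit 3) (nat_lit 170) (nat_lit 171) = true := by decide +kernel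
def p14_23_0_171 : pfC (piC [(nat_lit 28473124), (nat_lit 19449108), (nat_lit 12587812)] (nat_lit 13783263)) p14_23_0 (nat_lit 3) (nat_lit 171) (nat_lit 172) = true := by decide +kernel
def p14_23_0_172 : pfC (piC [(nat_lit 28473124), (nat_lit 19449108), (nat_lit 12587812)] (nat_lit 13783263)) p14_23_0 (nat_lit 3) (nat_lit 172) (nat_lit 173) = true := by decide +kernel
def p14_23_0_173 : pfC (piC [(nat_lit 28473124), (nat_lit 19449108), (nat_lit 12587812)] (nat_lit 13783263)) p14_23_0 (nat_lit 3) (nat_lit 173) (nat_lit 174) = true := by decide +kernel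
def p14_23_0_174 : pfC (piC [(nat_lit 28473124), (nat_lit 19449108), (nat_lit 12587812)] (nat_lit 13783263)) p14_23_0 (nat_lit 3) (nat_lit 174) (nat_lit 175) = true := by decide +kernel
def p14_23_0_175 : pfC (piC [(nat_lit 28473124), (nat_lit 19449108), (nat_lit 12587812)] (nat_lit 13783263)) p14_23_0 (nat_lit 3) (nat_lit 175) (nat_lit 176) = true := by decide +kernel
def p14_23_0_176 : pfC (piC [(nat_lit 28473124), (nat_lit 19449108), (nat_lit 12587812)] (nat_lit 13783263)) p14_23_0 (nat_lit 3) (nat_lit 176) (nat_lit 177) = true := by decide +kernel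
def p14_23_0_177 : pfC (piC [(nat_lit 28473124), (nat_lit 19449108), (nat_lit 12587812)] (nat_lit 13783263)) p14_23_0 (nat_lit 3) (nat_lit 177) (nat_lit 178) = true := by decide +kernel
def p14_23_0_178 : pfC (piC [(nat_lit 28473124), (nat_lit 19449108), (nat_lit 12587812)] (nat_lit 13783263)) p14_23_0 (nat_lit 3) (nat_lit 178) (nat_lit 179) = true := by decide +kernel
def p14_23_0_179 : pfC (piC [(nat_lit 28473124), (nat_lit 19449108), (nat_lit 12587812)] (nat_lit 13783263)) p14_23_0 (nat_lit 3) (nat_lit 179) (nat_lit 180) = true := by decide +kernel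
def p14_23_0_180 : pfC (piC [(nat_lit 28473124), (nat_lit 19449108), (nat_lit 12587812)] (nat_lit 13783263)) p14_23_0 (nat_lit 3) (nat_lit 180) (nat_lit 181) = true := by decide +kernel
def p14_23_0_181 : pfC (piC [(nat_lit 28473124), (nat_lit 19449108), (nat_lit 12587812)] (nat_lit 13783263)) p14_23_0 (nat_lit 3) (nat_lit 181) (nat_lit 182) = true := by decide +kernel
def p14_23_0_182 : pfC (piC [(nat_lit 28473124), (nat_lit 19449108), (nat_lit 12587812)] (nat_lit 13783263)) p14_23_0 (nat_lit 3) (nat_lit 182) (nat_lit 183) = true := by decide +kernel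
def p14_23_0_183 : pfC (piC [(nat_lit 28473124), (nat_lit 19449108), (nat_lit 12587812)] (nat_lit 13783263)) p14_23_0 (nat_lit 3) (nat_lit 183) (nat_lit 184) = true := by decide +kernel
def p14_23_0_184 : pfC (piC [(nat_lit 28473124), (nat_lit 19449108), (nat_lit 12587812)] (nat_lit 13783263)) p14_23_0 (nat_lit 3) (nat_lit 184) (nat_lit 185) = true := by decide +kernel
def p14_23_0_185 : pfC (piC [(nat_lit 28473124), (nat_lit 19449108), (nat_lit 12587812)] (nat_lit 13783263)) p14_23_0 (nat_lit 3) (nat_lit 185) (nat_lit 186) = true := by decide +kernel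
def p14_23_0_186 : pfC (piC [(nat_lit 28473124), (nat_lit 19449108), (nat_lit 12587812)] (nat_lit 13783263)) p14_23_0 (nat_lit 3) (nat_lit 186) (nat_lit 187) = true := by decide +kernel
def p14_23_0_187 : pfC (piC [(nat_lit 28473124), (nat_lit 19449108), (nat_lit 12587812)] (nat_lit 13783263)) p14_23_0 (nat_lit 3) (nat_lit 187) (nat_lit 188) = true := by decide +kernel
def p14_23_0_188 : pfC (piC [(nat_lit 28473124), (nat_lit 19449108), (nat_lit 12587812)] (nat_lit 13783263)) p14_23_0 (nat_lit 3) (nat_lit 188) (nat_lit 189) = true := by decide +kernel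
def p14_23_0_189 : pfC (piC [(nat_lit 28473124), (nat_lit 19449108), (nat_lit 12587812)] (nat_lit 13783263)) p14_23_0 (nat_lit 3) (nat_lit 189) (nat_lit 190) = true := by decide +kernel
def p14_23_0_190 : pfC (piC [(nat_lit 28473124), (nat_lit 19449108), (nat_lit 12587812)] (nat_lit 13783263)) p14_23_0 (nat_lit 3) (nat_lit 190) (nat_lit 191) = true := by decide +kernel
def p14_23_0_191 : pfC (piC [(nat_lit 28473124), (nat_lit 19449108), (nat_lit 12587812)] (nat_lit 13783263)) p14_23_0 (nat_lit 3) (nat_lit 191) (nat_lit 192) = true := by decide +kernel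
def p14_23_0_192 : pfC (piC [(nat_lit 28473124), (nat_lit 19449108), (nat_lit 12587812)] (nat_lit 13783263)) p14_23_0 (nat_lit 3) (nat_lit 192) (nat_lit 193) = true := by decide +kernel
def p14_23_0_193 : pfC (piC [(nat_lit 28473124), (nat_lit 19449108), (nat_lit 12587812)] (nat_lit 13783263)) p14_23_0 (nat_lit 3) (nat_lit 193) (nat_lit 194) = true := by decide +kernel
def p14_23_0_194 : pfC (piC [(nat_lit 28473124), (nat_lit 19449108), (nat_lit 12587812)] (nat_lit 13783263)) p14_23_0 (nat_lit 3) (nat_lit 194) (nat_lit 195) = true := by decide +kernel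
def p14_23_0_195 : pfC (piC [(nat_lit 28473124), (nat_lit 19449108), (nat_lit 12587812)] (nat_lit 13783263)) p14_23_0 (nat_lit 3) (nat_lit 195) (nat_lit 196) = true := by decide +kernel
def p14_23_0_196 : pfC (piC [(nat_lit 28473124), (nat_lit 19449108), (nat_lit 12587812)] (nat_lit 13783263)) p14_23_0 (nat_lit 3) (nat_lit 196) (nat_lit 197) = true := by decide +kernel
def p14_23_0_197 : pfC (piC [(nat_lit 28473124), (nat_lit 19449108), (nat_lit 12587812)] (nat_lit 13783263)) p14_23_0 (nat_lit 3) (nat_lit 197) (nat_lit 198) = true := by decide +kernel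
def p14_23_0_198 : pfC (piC [(nat_lit 28473124), (nat_lit 19449108), (nat_lit 12587812)] (nat_lit 13783263)) p14_23_0 (nat_lit 3) (nat_lit 198) (nat_lit 199) = true := by decide +kernel
def p14_23_0_199 : pfC (piC [(nat_lit 28473124), (nat_lit 19449108), (nat_lit 12587812)] (nat_lit 13783263)) p14_23_0 (nat_lit 3) (nat_lit 199) (nat_lit 200) = true := by decide +kernel
def p14_23_0_200 : pfC (piC [(nat_lit 28473124), (nat_lit 19449108), (nat_lit 12587812)] (nat_lit 13783263)) p14_23_0 (nat_lit 3) (nat_lit 200) (nat_lit 201) = true := by decide +kernel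
def p14_23_0_201 : pfC (piC [(nat_lit 28473124), (nat_lit 19449108), (nat_lit 12587812)] (nat_lit 13783263)) p14_23_0 (nat_lit 3) (nat_lit 201) (nat_lit 202) = true := by decide +kernel
def p14_23_0_202 : pfC (piC [(nat_lit 28473124), (nat_lit 19449108), (nat_lit 12587812)] (nat_lit 13783263)) p14_23_0 (nat_lit 3) (nat_lit 202) (nat_lit 203) = true := by decide +kernel
def p14_23_0_203 : pfC (piC [(nat_lit 28473124), (nat_lit 19449108), (nat_lit 12587812)] (nat_lit 13783263)) p14_23_0 (nat_lit 3) (nat_lit 203) (nat_lit 204) = true := by decide +kernel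
def p14_23_0_204 : pfC (piC [(nat_lit 28473124), (nat_lit 19449108), (nat_lit 12587812)] (nat_lit 13783263)) p14_23_0 (nat_lit 3) (nat_lit 204) (nat_lit 205) = true := by decide +kernel
def p14_23_0_205 : pfC (piC [(nat_lit 28473124), (nat_lit 19449108), (nat_lit 12587812)] (nat_lit 13783263)) p14_23_0 (nat_lit 3) (nat_lit 205) (nat_lit 206) = true := by decide +kernel
def p14_23_0_206 : pfC (piC [(nat_lit 28473124), (nat_lit 19449108), (nat_lit 12587812)] (nat_lit 13783263)) p14_23_0 (nat_lit 3) (nat_lit 206) (nat_lit 207) = true := by decide +kernel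
def p14_23_0_207 : pfC (piC [(nat_lit 28473124), (nat_lit 19449108), (nat_lit 12587812)] (nat_lit 13783263)) p14_23_0 (nat_lit 3) (nat_lit 207) (nat_lit 208) = true := by decide +kernel
def p14_23_0_208 : pfC (piC [(nat_lit 28473124), (nat_lit 19449108), (nat_lit 12587812)] (nat_lit 13783263)) p14_23_0 (nat_lit 3) (nat_lit 208) (nat_lit 209) = true := by decide +kernel
def p14_23_0_209 : pfC (piC [(nat_lit 28473124), (nat_lit 19449108), (nat_lit 12587812)] (nat_lit 13783263)) p14_23_0 (nat_lit 3) (nat_lit 209) (nat_lit 210) = true := by decide +kernel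
def p14_23_0_210 : pfC (piC [(nat_lit 28473124), (nat_lit 19449108), (nat_lit 12587812)] (nat_lit 13783263)) p14_23_0 (nat_lit 3) (nat_lit 210) (nat_lit 211) = true := by decide +kernel
def p14_23_0_211 : pfC (piC [(nat_lit 28473124), (nat_lit 19449108), (nat_lit 12587812)] (nat_lit 13783263)) p14_23_0 (nat_lit 3) (nat_lit 211) (nat_lit 212) = true := by decide +kernel
def p14_23_0_212 : pfC (piC [(nat_lit 28473124), (nat_lit 19449108), (nat_lit 12587812)] (nat_lit 13783263)) p14_23_0 (nat_lit 3) (nat_lit 212) (nat_lit 213) = true := by decide +kernel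
def p14_23_0_213 : pfC (piC [(nat_lit 28473124), (nat_lit 19449108), (nat_lit 12587812)] (nat_lit 13783263)) p14_23_0 (nat_lit 3) (nat_lit 213) (nat_lit 214) = true := by decide +kernel
def p14_23_0_214 : pfC (piC [(nat_lit 28473124), (nat_lit 19449108), (nat_lit 12587812)] (nat_lit 13783263)) p14_23_0 (nat_lit 3) (nat_lit 214) (nat_lit 215) = true := by decide +kernel
def p14_23_0_215 : pfC (piC [(nat_lit 28473124), (nat_lit 19449108), (nat_lit 12587812)] (nat_lit 13783263)) p14_23_0 (nat_lit 3) (nat_lit 215) (nat_lit 216) = true := by decide +kernel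
def p14_23_0_216 : pfC (piC [(nat_lit 28473124), (nat_lit 19449108), (nat_lit 12587812)] (nat_lit 13783263)) p14_23_0 (nat_lit 3) (nat_lit 216) (nat_lit 217) = true := by decide +kernel
def p14_23_0_217 : pfC (piC [(nat_lit 28473124), (nat_lit 19449108), (nat_lit 12587812)] (nat_lit 13783263)) p14_23_0 (nat_lit 3) (nat_lit 217) (nat_lit 218) = true := by decide +kernel
def p14_23_0_218 : pfC (piC [(nat_lit 28473124), (nat_lit 19449108), (nat_lit 12587812)] (nat_lit 13783263)) p14_23_0 (nat_lit 3) (nat_lit 218) (nat_lit 219) = true := by decide +kernel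
def p14_23_0_219 : pfC (piC [(nat_lit 28473124), (nat_lit 19449108), (nat_lit 12587812)] (nat_lit 13783263)) p14_23_0 (nat_lit 3) (nat_lit 219) (nat_lit 220) = true := by decide +kernel
def p14_23_0_220 : pfC (piC [(nat_lit 28473124), (nat_lit 19449108), (nat_lit 12587812)] (nat_lit 13783263)) p14_23_0 (nat_lit 3) (nat_lit 220) (nat_lit 221) = true := by decide +kernel
def p14_23_0_221 : pfC (piC [(nat_lit 28473124), (nat_lit 19449108), (nat_lit 12587812)] (nat_lit 13783263)) p14_23_0 (nat_lit 3) (nat_lit 221) (nat_lit 222) = true := by decide +kernel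
def p14_23_0_222 : pfC (piC [(nat_lit 28473124), (nat_lit 19449108), (nat_lit 12587812)] (nat_lit 13783263)) p14_23_0 (nat_lit 3) (nat_lit 222) (nat_lit 223) = true := by decide +kernel
def p14_23_0_223 : pfC (piC [(nat_lit 28473124), (nat_lit 19449108), (nat_lit 12587812)] (nat_lit 13783263)) p14_23_0 (nat_lit 3) (nat_lit 223) (nat_lit 224) = true := by decide +kernel
def p14_23_0_224 : pfC (piC [(nat_lit 28473124), (nat_lit 19449108), (nat_lit 12587812)] (nat_lit 13783263)) p14_23_0 (nat_lit 3) (nat_lit 224) (nat_lit 225) = true := by decide +kernel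
def p14_23_0_225 : pfC (piC [(nat_lit 28473124), (nat_lit 19449108), (nat_lit 12587812)] (nat_lit 13783263)) p14_23_0 (nat_lit 3) (nat_lit 225) (nat_lit 226) = true := by decide +kernel
def p14_23_0_226 : pfC (piC [(nat_lit 28473124), (nat_lit 19449108), (nat_lit 12587812)] (nat_lit 13783263)) p14_23_0 (nat_lit 3) (nat_lit 226) (nat_lit 227) = true := by decide +kernel
def p14_23_0_227 : pfC (piC [(nat_lit 28473124), (nat_lit 19449108), (nat_lit 12587812)] (nat_lit 13783263)) p14_23_0 (nat_lit 3) (nat_lit 227) (nat_lit 228) = true := by decide +kernel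
def p14_23_0_228 : pfC (piC [(nat_lit 28473124), (nat_lit 19449108), (nat_lit 12587812)] (nat_lit 13783263)) p14_23_0 (nat_lit 3) (nat_lit 228) (nat_lit 229) = true := by decide +kernel
def p14_23_0_229 : pfC (piC [(nat_lit 28473124), (nat_lit 19449108), (nat_lit 12587812)] (nat_lit 13783263)) p14_23_0 (nat_lit 3) (nat_lit 229) (nat_lit 230) = true := by decide +kernel
def p14_23_0_230 : pfC (piC [(nat_lit 28473124), (nat_lit 19449108), (nat_lit 12587812)] (nat_lit 13783263)) p14_23_0 (nat_lit 3) (nat_lit 230) (nat_lit 231) = true := by decide +kernel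
def p14_23_0_231 : pfC (piC [(nat_lit 28473124), (nat_lit 19449108), (nat_lit 12587812)] (nat_lit 13783263)) p14_23_0 (nat_lit 3) (nat_lit 231) (nat_lit 232) = true := by decide +kernel
def p14_23_0_232 : pfC (piC [(nat_lit 28473124), (nat_lit 19449108), (nat_lit 12587812)] (nat_lit 13783263)) p14_23_0 (nat_lit 3) (nat_lit 232) (nat_lit 233) = true := by decide +kernel
def p14_23_0_233 : pfC (piC [(nat_lit 28473124), (nat_lit 19449108), (nat_lit 12587812)] (nat_lit 13783263)) p14_23_0 (nat_lit 3) (nat_lit 233) (nat_lit 234) = true := by decide +kernel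
def p14_23_0_234 : pfC (piC [(nat_lit 28473124), (nat_lit 19449108), (nat_lit 12587812)] (nat_lit 13783263)) p14_23_0 (nat_lit 3) (nat_lit 234) (nat_lit 235) = true := by decide +kernel
def p14_23_0_235 : pfC (piC [(nat_lit 28473124), (nat_lit 19449108), (nat_lit 12587812)] (nat_lit 13783263)) p14_23_0 (nat_lit 3) (nat_lit 235) (nat_lit 236) = true := by decide +kernel
def p14_23_0_236 : pfC (piC [(nat_lit 28473124), (nat_lit 19449108), (nat_lit 12587812)] (nat_lit 13783263)) p14_23_0 (nat_lit 3) (nat_lit 236) (nat_lit 237) = true := by decide +kernel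
def p14_23_0_237 : pfC (piC [(nat_lit 28473124), (nat_lit 19449108), (nat_lit 12587812)] (nat_lit 13783263)) p14_23_0 (nat_lit 3) (nat_lit 237) (nat_lit 238) = true := by decide +kernel
def p14_23_0_238 : pfC (piC [(nat_lit 28473124), (nat_lit 19449108), (nat_lit 12587812)] (nat_lit 13783263)) p14_23_0 (nat_lit 3) (nat_lit 238) (nat_lit 239) = true := by decide +kernel
def p14_23_0_239 : pfC (piC [(nat_lit 28473124), (nat_lit 19449108), (nat_lit 12587812)] (nat_lit 13783263)) p14_23_0 (nat_lit 3) (nat_lit 239) (nat_lit 240) = true := by decide +kernel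
def p14_23_0_240 : pfC (piC [(nat_lit 28473124), (nat_lit 19449108), (nat_lit 12587812)] (nat_lit 13783263)) p14_23_0 (nat_lit 3) (nat_lit 240) (nat_lit 241) = true := by decide +kernel
def p14_23_0_241 : pfC (piC [(nat_lit 28473124), (nat_lit 19449108), (nat_lit 12587812)] (nat_lit 13783263)) p14_23_0 (nat_lit 3) (nat_lit 241) (nat_lit 242) = true := by decide +kernel
def p14_23_0_242 : pfC (piC [(nat_lit 28473124), (nat_lit 19449108), (nat_lit 12587812)] (nat_lit 13783263)) p14_23_0 (nat_lit 3) (nat_lit 242) (nat_lit 243) = true := by decide +kernel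
def p14_23_0_243 : pfC (piC [(nat_lit 28473124), (nat_lit 19449108), (nat_lit 12587812)] (nat_lit 13783263)) p14_23_0 (nat_lit 3) (nat_lit 243) (nat_lit 244) = true := by decide +kernel
def p14_23_0_244 : pfC (piC [(nat_lit 28473124), (nat_lit 19449108), (nat_lit 12587812)] (nat_lit 13783263)) p14_23_0 (nat_lit 3) (nat_lit 244) (nat_lit 245) = true := by decide +kernel
def p14_23_0_245 : pfC (piC [(nat_lit 28473124), (nat_lit 19449108), (nat_lit 12587812)] (nat_lit 13783263)) p14_23_0 (nat_lit 3) (nat_lit 245) (nat_lit 246) = true := by decide +kernel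
def p14_23_0_246 : pfC (piC [(nat_lit 28473124), (nat_lit 19449108), (nat_lit 12587812)] (nat_lit 13783263)) p14_23_0 (nat_lit 3) (nat_lit 246) (nat_lit 247) = true := by decide +kernel
def p14_23_0_247 : pfC (piC [(nat_lit 28473124), (nat_lit 19449108), (nat_lit 12587812)] (nat_lit 13783263)) p14_23_0 (nat_lit 3) (nat_lit 247) (nat_lit 248) = true := by decide +kernel
def p14_23_0_248 : pfC (piC [(nat_lit 28473124), (nat_lit 19449108), (nat_lit 12587812)] (nat_lit 13783263)) p14_23_0 (nat_lit 3) (nat_lit 248) (nat_lit 249) = true := by decide +kernel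
def p14_23_0_249 : pfC (piC [(nat_lit 28473124), (nat_lit 19449108), (nat_lit 12587812)] (nat_lit 13783263)) p14_23_0 (nat_lit 3) (nat_lit 249) (nat_lit 250) = true := by decide +kernel
def p14_23_0_250 : pfC (piC [(nat_lit 28473124), (nat_lit 19449108), (nat_lit 12587812)] (nat_lit 13783263)) p14_23_0 (nat_lit 3) (nat_lit 250) (nat_lit 251) = true := by decide +kernel
def p14_23_0_251 : pfC (piC [(nat_lit 28473124), (nat_lit 19449108), (nat_lit 12587812)] (nat_lit 13783263)) p14_23_0 (nat_lit 3) (nat_lit 251) (nat_lit 252) = true := by decide +kernel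
def p14_23_0_252 : pfC (piC [(nat_lit 28473124), (nat_lit 19449108), (nat_lit 12587812)] (nat_lit 13783263)) p14_23_0 (nat_lit 3) (nat_lit 252) (nat_lit 253) = true := by decide +kernel
def p14_23_0_253 : pfC (piC [(nat_lit 28473124), (nat_lit 19449108), (nat_lit 12587812)] (nat_lit 13783263)) p14_23_0 (nat_lit 3) (nat_lit 253) (nat_lit 254) = true := by decide +kernel
def p14_23_0_254 : pfC (piC [(nat_lit 28473124), (nat_lit 19449108), (nat_lit 12587812)] (nat_lit 13783263)) p14_23_0 (nat_lit 3) (nat_lit 254) (nat_lit 255) = true := by decide +kernel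
def p14_23_0_255 : pfC (piC [(nat_lit 28473124), (nat_lit 19449108), (nat_lit 12587812)] (nat_lit 13783263)) p14_23_0 (nat_lit 3) (nat_lit 255) (nat_lit 256) = true := by decide +kernel
def p14_23_0_256 : pfC (piC [(nat_lit 28473124), (nat_lit 19449108), (nat_lit 12587812)] (nat_lit 13783263)) p14_23_0 (nat_lit 3) (nat_lit 256) (nat_lit 257) = true := by decide +kernel
def p14_23_0_257 : pfC (piC [(nat_lit 28473124), (nat_lit 19449108), (nat_lit 12587812)] (nat_lit 13783263)) p14_23_0 (nat_lit 3) (nat_lit 257) (nat_lit 258) = true := by decide +kernel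
def p14_23_0_258 : pfC (piC [(nat_lit 28473124), (nat_lit 19449108), (nat_lit 12587812)] (nat_lit 13783263)) p14_23_0 (nat_lit 3) (nat_lit 258) (nat_lit 259) = true := by decide +kernel
def p14_23_0_259 : pfC (piC [(nat_lit 28473124), (nat_lit 19449108), (nat_lit 12587812)] (nat_lit 13783263)) p14_23_0 (nat_lit 3) (nat_lit 259) (nat_lit 260) = true := by decide +kernel
def p14_23_0_260 : pfC (piC [(nat_lit 28473124), (nat_lit 19449108), (nat_lit 12587812)] (nat_lit 13783263)) p14_23_0 (nat_lit 3) (nat_lit 260) (nat_lit 261) = true := by decide +kernel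
def p14_23_0_261 : pfC (piC [(nat_lit 28473124), (nat_lit 19449108), (nat_lit 12587812)] (nat_lit 13783263)) p14_23_0 (nat_lit 3) (nat_lit 261) (nat_lit 262) = true := by decide +kernel
def p14_23_0_262 : pfC (piC [(nat_lit 28473124), (nat_lit 19449108), (nat_lit 12587812)] (nat_lit 13783263)) p14_23_0 (nat_lit 3) (nat_lit 262) (nat_lit 263) = true := by decide +kernel
def p14_23_0_263 : pfC (piC [(nat_lit 28473124), (nat_lit 19449108), (nat_lit 12587812)] (nat_lit 13783263)) p14_23_0 (nat_lit 3) (nat_lit 263) (nat_lit 264) = true := by decide +kernel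
def p14_23_0_264 : pfC (piC [(nat_lit 28473124), (nat_lit 19449108), (nat_lit 12587812)] (nat_lit 13783263)) p14_23_0 (nat_lit 3) (nat_lit 264) (nat_lit 265) = true := by decide +kernel
def p14_23_0_265 : pfC (piC [(nat_lit 28473124), (nat_lit 19449108), (nat_lit 12587812)] (nat_lit 13783263)) p14_23_0 (nat_lit 3) (nat_lit 265) (nat_lit 266) = true := by decide +kernel
def p14_23_0_266 : pfC (piC [(nat_lit 28473124), (nat_lit 19449108), (nat_lit 12587812)] (nat_lit 13783263)) p14_23_0 (nat_lit 3) (nat_lit 266) (nat_lit 267) = true := by decide +kernel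
def p14_23_0_267 : pfC (piC [(nat_lit 28473124), (nat_lit 19449108), (nat_lit 12587812)] (nat_lit 13783263)) p14_23_0 (nat_lit 3) (nat_lit 267) (nat_lit 268) = true := by decide +kernel
def p14_23_0_268 : pfC (piC [(nat_lit 28473124), (nat_lit 19449108), (nat_lit 12587812)] (nat_lit 13783263)) p14_23_0 (nat_lit 3) (nat_lit 268) (nat_lit 269) = true := by decide +kernel
def p14_23_0_269 : pfC (piC [(nat_lit 28473124), (nat_lit 19449108), (nat_lit 12587812)] (nat_lit 13783263)) p14_23_0 (nat_lit 3) (nat_lit 269) (nat_lit 270) = true := by decide +kernel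
def p14_23_0_270 : pfC (piC [(nat_lit 28473124), (nat_lit 19449108), (nat_lit 12587812)] (nat_lit 13783263)) p14_23_0 (nat_lit 3) (nat_lit 270) (nat_lit 271) = true := by decide +kernel
def p14_23_0_271 : pfC (piC [(nat_lit 28473124), (nat_lit 19449108), (nat_lit 12587812)] (nat_lit 13783263)) p14_23_0 (nat_lit 3) (nat_lit 271) (nat_lit 272) = true := by decide +kernel
def p14_23_0_272 : pfC (piC [(nat_lit 28473124), (nat_lit 19449108), (nat_lit 12587812)] (nat_lit 13783263)) p14_23_0 (nat_lit 3) (nat_lit 272) (nat_lit 273) = true := by decide +kernel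
def p14_23_0_273 : pfC (piC [(nat_lit 28473124), (nat_lit 19449108), (nat_lit 12587812)] (nat_lit 13783263)) p14_23_0 (nat_lit 3) (nat_lit 273) (nat_lit 274) = true := by decide +kernel
def p14_23_0_274 : pfC (piC [(nat_lit 28473124), (nat_lit 19449108), (nat_lit 12587812)] (nat_lit 13783263)) p14_23_0 (nat_lit 3) (nat_lit 274) (nat_lit 275) = true := by decide +kernel
def p14_23_0_275 : pfC (piC [(nat_lit 28473124), (nat_lit 19449108), (nat_lit 12587812)] (nat_lit 13783263)) p14_23_0 (nat_lit 3) (nat_lit 275) (nat_lit 276) = true := by decide +kernel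
def p14_23_0_276 : pfC (piC [(nat_lit 28473124), (nat_lit 19449108), (nat_lit 12587812)] (nat_lit 13783263)) p14_23_0 (nat_lit 3) (nat_lit 276) (nat_lit 277) = true := by decide +kernel
def p14_23_0_277 : pfC (piC [(nat_lit 28473124), (nat_lit 19449108), (nat_lit 12587812)] (nat_lit 13783263)) p14_23_0 (nat_lit 3) (nat_lit 277) (nat_lit 278) = true := by decide +kernel
def p14_23_0_278 : pfC (piC [(nat_lit 28473124), (nat_lit 19449108), (nat_lit 12587812)] (nat_lit 13783263)) p14_23_0 (nat_lit 3) (nat_lit 278) (nat_lit 279) = true := by decide +kernel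
def p14_23_0_279 : pfC (piC [(nat_lit 28473124), (nat_lit 19449108), (nat_lit 12587812)] (nat_lit 13783263)) p14_23_0 (nat_lit 3) (nat_lit 279) (nat_lit 280) = true := by decide +kernel
def p14_23_0_280 : pfC (piC [(nat_lit 28473124), (nat_lit 19449108), (nat_lit 12587812)] (nat_lit 13783263)) p14_23_0 (nat_lit 3) (nat_lit 280) (nat_lit 281) = true := by decide +kernel
def p14_23_0_281 : pfC (piC [(nat_lit 28473124), (nat_lit 19449108), (nat_lit 12587812)] (nat_lit 13783263)) p14_23_0 (nat_lit 3) (nat_lit 281) (nat_lit 282) = true := by decide +kernel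
def p14_23_0_282 : pfC (piC [(nat_lit 28473124), (nat_lit 19449108), (nat_lit 12587812)] (nat_lit 13783263)) p14_23_0 (nat_lit 3) (nat_lit 282) (nat_lit 283) = true := by decide +kernel
def p14_23_0_283 : pfC (piC [(nat_lit 28473124), (nat_lit 19449108), (nat_lit 12587812)] (nat_lit 13783263)) p14_23_0 (nat_lit 3) (nat_lit 283) (nat_lit 284) = true := by decide +kernel
def p14_23_0_284 : pfC (piC [(nat_lit 28473124), (nat_lit 19449108), (nat_lit 12587812)] (nat_lit 13783263)) p14_23_0 (nat_lit 3) (nat_lit 284) (nat_lit 285) = true := by decide +kernel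
def p14_23_0_285 : pfC (piC [(nat_lit 28473124), (nat_lit 19449108), (nat_lit 12587812)] (nat_lit 13783263)) p14_23_0 (nat_lit 3) (nat_lit 285) (nat_lit 286) = true := by decide +kernel
def p14_23_0_286 : pfC (piC [(nat_lit 28473124), (nat_lit 19449108), (nat_lit 12587812)] (nat_lit 13783263)) p14_23_0 (nat_lit 3) (nat_lit 286) (nat_lit 287) = true := by decide +kernel
def p14_23_0_287 : pfC (piC [(nat_lit 28473124), (nat_lit 19449108), (nat_lit 12587812)] (nat_lit 13783263)) p14_23_0 (nat_lit 3) (nat_lit 287) (nat_lit 288) = true := by decide +kernel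
def p14_23_0_288 : pfC (piC [(nat_lit 28473124), (nat_lit 19449108), (nat_lit 12587812)] (nat_lit 13783263)) p14_23_0 (nat_lit 3) (nat_lit 288) (nat_lit 289) = true := by decide +kernel
def p14_23_0_289 : pfC (piC [(nat_lit 28473124), (nat_lit 19449108), (nat_lit 12587812)] (nat_lit 13783263)) p14_23_0 (nat_lit 3) (nat_lit 289) (nat_lit 290) = true := by decide +kernel
def p14_23_0_290 : pfC (piC [(nat_lit 28473124), (nat_lit 19449108), (nat_lit 12587812)] (nat_lit 13783263)) p14_23_0 (nat_lit 3) (nat_lit 290) (nat_lit 291) = true := by decide +kernel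
def p14_23_0_291 : pfC (piC [(nat_lit 28473124), (nat_lit 19449108), (nat_lit 12587812)] (nat_lit 13783263)) p14_23_0 (nat_lit 3) (nat_lit 291) (nat_lit 292) = true := by decide +kernel
def p14_23_0_292 : pfC (piC [(nat_lit 28473124), (nat_lit 19449108), (nat_lit 12587812)] (nat_lit 13783263)) p14_23_0 (nat_lit 3) (nat_lit 292) (nat_lit 293) = true := by decide +kernel
def p14_23_0_293 : pfC (piC [(nat_lit 28473124), (nat_lit 19449108), (nat_lit 12587812)] (nat_lit 13783263)) p14_23_0 (nat_lit 3) (nat_lit 293) (nat_lit 294) = true := by decide +kernel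
def p14_23_0_294 : pfC (piC [(nat_lit 28473124), (nat_lit 19449108), (nat_lit 12587812)] (nat_lit 13783263)) p14_23_0 (nat_lit 3) (nat_lit 294) (nat_lit 295) = true := by decide +kernel
def p14_23_0_295 : pfC (piC [(nat_lit 28473124), (nat_lit 19449108), (nat_lit 12587812)] (nat_lit 13783263)) p14_23_0 (nat_lit 3) (nat_lit 295) (nat_lit 296) = true := by decide +kernel
def p14_23_0_296 : pfC (piC [(nat_lit 28473124), (nat_lit 19449108), (nat_lit 12587812)] (nat_lit 13783263)) p14_23_0 (nat_lit 3) (nat_lit 296) (nat_lit 297) = true := by decide +kernel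
def p14_23_0_297 : pfC (piC [(nat_lit 28473124), (nat_lit 19449108), (nat_lit 12587812)] (nat_lit 13783263)) p14_23_0 (nat_lit 3) (nat_lit 297) (nat_lit 298) = true := by decide +kernel
def p14_23_0_298 : pfC (piC [(nat_lit 28473124), (nat_lit 19449108), (nat_lit 12587812)] (nat_lit 13783263)) p14_23_0 (nat_lit 3) (nat_lit 298) (nat_lit 299) = true := by decide +kernel
def p14_23_0_299 : pfC (piC [(nat_lit 28473124), (nat_lit 19449108), (nat_lit 12587812)] (nat_lit 13783263)) p14_23_0 (nat_lit 3) (nat_lit 299) (nat_lit 300) = true := by decide +kernel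
def p14_23_0_300 : pfC (piC [(nat_lit 28473124), (nat_lit 19449108), (nat_lit 12587812)] (nat_lit 13783263)) p14_23_0 (nat_lit 3) (nat_lit 300) (nat_lit 301) = true := by decide +kernel
def p14_23_0_301 : pfC (piC [(nat_lit 28473124), (nat_lit 19449108), (nat_lit 12587812)] (nat_lit 13783263)) p14_23_0 (nat_lit 3) (nat_lit 301) (nat_lit 302) = true := by decide +kernel
def p14_23_0_302 : pfC (piC [(nat_lit 28473124), (nat_lit 19449108), (nat_lit 12587812)] (nat_lit 13783263)) p14_23_0 (nat_lit 3) (nat_lit 302) (nat_lit 303) = true := by decide +kernel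
def p14_23_0_303 : pfC (piC [(nat_lit 28473124), (nat_lit 19449108), (nat_lit 12587812)] (nat_lit 13783263)) p14_23_0 (nat_lit 3) (nat_lit 303) (nat_lit 304) = true := by decide +kernel
def p14_23_0_304 : pfC (piC [(nat_lit 28473124), (nat_lit 19449108), (nat_lit 12587812)] (nat_lit 13783263)) p14_23_0 (nat_lit 3) (nat_lit 304) (nat_lit 305) = true := by decide +kernel
def p14_23_0_305 : pfC (piC [(nat_lit 28473124), (nat_lit 19449108), (nat_lit 12587812)] (nat_lit 13783263)) p14_23_0 (nat_lit 3) (nat_lit 305) (nat_lit 306) = true := by decide +kernel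
def p14_23_0_306 : pfC (piC [(nat_lit 28473124), (nat_lit 19449108), (nat_lit 12587812)] (nat_lit 13783263)) p14_23_0 (nat_lit 3) (nat_lit 306) (nat_lit 307) = true := by decide +kernel
def p14_23_0_307 : pfC (piC [(nat_lit 28473124), (nat_lit 19449108), (nat_lit 12587812)] (nat_lit 13783263)) p14_23_0 (nat_lit 3) (nat_lit 307) (nat_lit 308) = true := by decide +kernel
def p14_23_0_308 : pfC (piC [(nat_lit 28473124), (nat_lit 19449108), (nat_lit 12587812)] (nat_lit 13783263)) p14_23_0 (nat_lit 3) (nat_lit 308) (nat_lit 309) = true := by decide +kernel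
def p14_23_0_309 : pfC (piC [(nat_lit 28473124), (nat_lit 19449108), (nat_lit 12587812)] (nat_lit 13783263)) p14_23_0 (nat_lit 3) (nat_lit 309) (nat_lit 310) = true := by decide +kernel
def p14_23_0_310 : pfC (piC [(nat_lit 28473124), (nat_lit 19449108), (nat_lit 12587812)] (nat_lit 13783263)) p14_23_0 (nat_lit 3) (nat_lit 310) (nat_lit 311) = true := by decide +kernel
def p14_23_0_311 : pfC (piC [(nat_lit 28473124), (nat_lit 19449108), (nat_lit 12587812)] (nat_lit 13783263)) p14_23_0 (nat_lit 3) (nat_lit 311) (nat_lit 312) = true := by decide +kernel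
def p14_23_0_312 : pfC (piC [(nat_lit 28473124), (nat_lit 19449108), (nat_lit 12587812)] (nat_lit 13783263)) p14_23_0 (nat_lit 3) (nat_lit 312) (nat_lit 313) = true := by decide +kernel
def p14_23_0_313 : pfC (piC [(nat_lit 28473124), (nat_lit 19449108), (nat_lit 12587812)] (nat_lit 13783263)) p14_23_0 (nat_lit 3) (nat_lit 313) (nat_lit 314) = true := by decide +kernel
def p14_23_0_314 : pfC (piC [(nat_lit 28473124), (nat_lit 19449108), (nat_lit 12587812)] (nat_lit 13783263)) p14_23_0 (nat_lit 3) (nat_lit 314) (nat_lit 315) = true := by decide +kernel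
def p14_23_0_315 : pfC (piC [(nat_lit 28473124), (nat_lit 19449108), (nat_lit 12587812)] (nat_lit 13783263)) p14_23_0 (nat_lit 3) (nat_lit 315) (nat_lit 316) = true := by decide +kernel
def p14_23_0_316 : pfC (piC [(nat_lit 28473124), (nat_lit 19449108), (nat_lit 12587812)] (nat_lit 13783263)) p14_23_0 (nat_lit 3) (nat_lit 316) (nat_lit 317) = true := by decide +kernel
def p14_23_0_317 : pfC (piC [(nat_lit 28473124), (nat_lit 19449108), (nat_lit 12587812)] (nat_lit 13783263)) p14_23_0 (nat_lit 3) (nat_lit 317) (nat_lit 318) = true := by decide +kernel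
def p14_23_0_318 : pfC (piC [(nat_lit 28473124), (nat_lit 19449108), (nat_lit 12587812)] (nat_lit 13783263)) p14_23_0 (nat_lit 3) (nat_lit 318) (nat_lit 319) = true := by decide +kernel
def p14_23_0_319 : pfC (piC [(nat_lit 28473124), (nat_lit 19449108), (nat_lit 12587812)] (nat_lit 13783263)) p14_23_0 (nat_lit 3) (nat_lit 319) (nat_lit 320) = true := by decide +kernel
def p14_23_0_320 : pfC (piC [(nat_lit 28473124), (nat_lit 19449108), (nat_lit 12587812)] (nat_lit 13783263)) p14_23_0 (nat_lit 3) (nat_lit 320) (nat_lit 321) = true := by decide +kernel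
def p14_23_0_321 : pfC (piC [(nat_lit 28473124), (nat_lit 19449108), (nat_lit 12587812)] (nat_lit 13783263)) p14_23_0 (nat_lit 3) (nat_lit 321) (nat_lit 322) = true := by decide +kernel
def p14_23_0_322 : pfC (piC [(nat_lit 28473124), (nat_lit 19449108), (nat_lit 12587812)] (nat_lit 13783263)) p14_23_0 (nat_lit 3) (nat_lit 322) (nat_lit 323) = true := by decide +kernel
def p14_23_0_323 : pfC (piC [(nat_lit 28473124), (nat_lit 19449108), (nat_lit 12587812)] (nat_lit 13783263)) p14_23_0 (nat_lit 3) (nat_lit 323) (nat_lit 324) = true := by decide +kernel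
def p14_23_0_324 : pfC (piC [(nat_lit 28473124), (nat_lit 19449108), (nat_lit 12587812)] (nat_lit 13783263)) p14_23_0 (nat_lit 3) (nat_lit 324) (nat_lit 325) = true := by decide +kernel
def p14_23_0_325 : pfC (piC [(nat_lit 28473124), (nat_lit 19449108), (nat_lit 12587812)] (nat_lit 13783263)) p14_23_0 (nat_lit 3) (nat_lit 325) (nat_lit 326) = true := by decide +kernel
def p14_23_0_326 : pfC (piC [(nat_lit 28473124), (nat_lit 19449108), (nat_lit 12587812)] (nat_lit 13783263)) p14_23_0 (nat_lit 3) (nat_lit 326) (nat_lit 327) = true := by decide +kernel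
def p14_23_0_327 : pfC (piC [(nat_lit 28473124), (nat_lit 19449108), (nat_lit 12587812)] (nat_lit 13783263)) p14_23_0 (nat_lit 3) (nat_lit 327) (nat_lit 328) = true := by decide +kernel
def p14_23_0_328 : pfC (piC [(nat_lit 28473124), (nat_lit 19449108), (nat_lit 12587812)] (nat_lit 13783263)) p14_23_0 (nat_lit 3) (nat_lit 328) (nat_lit 329) = true := by decide +kernel
def p14_23_0_329 : pfC (piC [(nat_lit 28473124), (nat_lit 19449108), (nat_lit 12587812)] (nat_lit 13783263)) p14_23_0 (nat_lit 3) (nat_lit 329) (nat_lit 330) = true := by decide +kernel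
def p14_23_0_330 : pfC (piC [(nat_lit 28473124), (nat_lit 19449108), (nat_lit 12587812)] (nat_lit 13783263)) p14_23_0 (nat_lit 3) (nat_lit 330) (nat_lit 331) = true := by decide +kernel
def p14_23_0_331 : pfC (piC [(nat_lit 28473124), (nat_lit 19449108), (nat_lit 12587812)] (nat_lit 13783263)) p14_23_0 (nat_lit 3) (nat_lit 331) (nat_lit 332) = true := by decide +kernel
def p14_23_0_332 : pfC (piC [(nat_lit 28473124), (nat_lit 19449108), (nat_lit 12587812)] (nat_lit 13783263)) p14_23_0 (nat_lit 3) (nat_lit 332) (nat_lit 333) = true := by decide +kernel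
def p14_23_0_333 : pfC (piC [(nat_lit 28473124), (nat_lit 19449108), (nat_lit 12587812)] (nat_lit 13783263)) p14_23_0 (nat_lit 3) (nat_lit 333) (nat_lit 334) = true := by decide +kernel
def p14_23_0_334 : pfC (piC [(nat_lit 28473124), (nat_lit 19449108), (nat_lit 12587812)] (nat_lit 13783263)) p14_23_0 (nat_lit 3) (nat_lit 334) (nat_lit 335) = true := by decide +kernel
def p14_23_0_335 : pfC (piC [(nat_lit 28473124), (nat_lit 19449108), (nat_lit 12587812)] (nat_lit 13783263)) p14_23_0 (nat_lit 3) (nat_lit 335) (nat_lit 336) = true := by decide +kernel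
def p14_23_0_336 : pfC (piC [(nat_lit 28473124), (nat_lit 19449108), (nat_lit 12587812)] (nat_lit 13783263)) p14_23_0 (nat_lit 3) (nat_lit 336) (nat_lit 337) = true := by decide +kernel
def p14_23_0_337 : pfC (piC [(nat_lit 28473124), (nat_lit 19449108), (nat_lit 12587812)] (nat_lit 13783263)) p14_23_0 (nat_lit 3) (nat_lit 337) (nat_lit 338) = true := by decide +kernel
def p14_23_0_338 : pfC (piC [(nat_lit 28473124), (nat_lit 19449108), (nat_lit 12587812)] (nat_lit 13783263)) p14_23_0 (nat_lit 3) (nat_lit 338) (nat_lit 339) = true := by decide +kernel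
def p14_23_0_339 : pfC (piC [(nat_lit 28473124), (nat_lit 19449108), (nat_lit 12587812)] (nat_lit 13783263)) p14_23_0 (nat_lit 3) (nat_lit 339) (nat_lit 340) = true := by decide +kernel
def p14_23_0_340 : pfC (piC [(nat_lit 28473124), (nat_lit 19449108), (nat_lit 12587812)] (nat_lit 13783263)) p14_23_0 (nat_lit 3) (nat_lit 340) (nat_lit 341) = true := by decide +kernel
def p14_23_0_341 : pfC (piC [(nat_lit 28473124), (nat_lit 19449108), (nat_lit 12587812)] (nat_lit 13783263)) p14_23_0 (nat_lit 3) (nat_lit 341) (nat_lit 342) = true := by decide +kernel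
def p14_23_0_342 : pfC (piC [(nat_lit 28473124), (nat_lit 19449108), (nat_lit 12587812)] (nat_lit 13783263)) p14_23_0 (nat_lit 3) (nat_lit 342) (nat_lit 343) = true := by decide +kernel
def p14_23_0_343 : pfC (piC [(nat_lit 28473124), (nat_lit 19449108), (nat_lit 12587812)] (nat_lit 13783263)) p14_23_0 (nat_lit 3) (nat_lit 343) (nat_lit 344) = true := by decide +kernel
def p14_23_0_344 : pfC (piC [(nat_lit 28473124), (nat_lit 19449108), (nat_lit 12587812)] (nat_lit 13783263)) p14_23_0 (nat_lit 3) (nat_lit 344) (nat_lit 345) = true := by decide +kernel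
def p14_23_0_345 : pfC (piC [(nat_lit 28473124), (nat_lit 19449108), (nat_lit 12587812)] (nat_lit 13783263)) p14_23_0 (nat_lit 3) (nat_lit 345) (nat_lit 346) = true := by decide +kernel
def p14_23_0_346 : pfC (piC [(nat_lit 28473124), (nat_lit 19449108), (nat_lit 12587812)] (nat_lit 13783263)) p14_23_0 (nat_lit 3) (nat_lit 346) (nat_lit 347) = true := by decide +kernel
def p14_23_0_347 : pfC (piC [(nat_lit 28473124), (nat_lit 19449108), (nat_lit 12587812)] (nat_lit 13783263)) p14_23_0 (nat_lit 3) (nat_lit 347) (nat_lit 348) = true := by decide +kernel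
def p14_23_0_348 : pfC (piC [(nat_lit 28473124), (nat_lit 19449108), (nat_lit 12587812)] (nat_lit 13783263)) p14_23_0 (nat_lit 3) (nat_lit 348) (nat_lit 349) = true := by decide +kernel
def p14_23_0_349 : pfC (piC [(nat_lit 28473124), (nat_lit 19449108), (nat_lit 12587812)] (nat_lit 13783263)) p14_23_0 (nat_lit 3) (nat_lit 349) (nat_lit 350) = true := by decide +kernel
def p14_23_0_350 : pfC (piC [(nat_lit 28473124), (nat_lit 19449108), (nat_lit 12587812)] (nat_lit 13783263)) p14_23_0 (nat_lit 3) (nat_lit 350) (nat_lit 351) = true := by decide +kernel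
def p14_23_0_351 : pfC (piC [(nat_lit 28473124), (nat_lit 19449108), (nat_lit 12587812)] (nat_lit 13783263)) p14_23_0 (nat_lit 3) (nat_lit 351) (nat_lit 352) = true := by decide +kernel
def p14_23_0_352 : pfC (piC [(nat_lit 28473124), (nat_lit 19449108), (nat_lit 12587812)] (nat_lit 13783263)) p14_23_0 (nat_lit 3) (nat_lit 352) (nat_lit 353) = true := by decide +kernel
def p14_23_0_353 : pfC (piC [(nat_lit 28473124), (nat_lit 19449108), (nat_lit 12587812)] (nat_lit 13783263)) p14_23_0 (nat_lit 3) (nat_lit 353) (nat_lit 354) = true := by decide +kernel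
def p14_23_0_354 : pfC (piC [(nat_lit 28473124), (nat_lit 19449108), (nat_lit 12587812)] (nat_lit 13783263)) p14_23_0 (nat_lit 3) (nat_lit 354) (nat_lit 355) = true := by decide +kernel
def p14_23_0_355 : pfC (piC [(nat_lit 28473124), (nat_lit 19449108), (nat_lit 12587812)] (nat_lit 13783263)) p14_23_0 (nat_lit 3) (nat_lit 355) (nat_lit 356) = true := by decide +kernel
def p14_23_0_356 : pfC (piC [(nat_lit 28473124), (nat_lit 19449108), (nat_lit 12587812)] (nat_lit 13783263)) p14_23_0 (nat_lit 3) (nat_lit 356) (nat_lit 357) = true := by decide +kernel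
def p14_23_0_357 : pfC (piC [(nat_lit 28473124), (nat_lit 19449108), (nat_lit 12587812)] (nat_lit 13783263)) p14_23_0 (nat_lit 3) (nat_lit 357) (nat_lit 358) = true := by decide +kernel
def p14_23_0_358 : pfC (piC [(nat_lit 28473124), (nat_lit 19449108), (nat_lit 12587812)] (nat_lit 13783263)) p14_23_0 (nat_lit 3) (nat_lit 358) (nat_lit 359) = true := by decide +kernel
def p14_23_0_359 : pfC (piC [(nat_lit 28473124), (nat_lit 19449108), (nat_lit 12587812)] (nat_lit 13783263)) p14_23_0 (nat_lit 3) (nat_lit 359) (nat_lit 360) = true := by decide +kernel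
def p14_23_0_360 : pfC (piC [(nat_lit 28473124), (nat_lit 19449108), (nat_lit 12587812)] (nat_lit 13783263)) p14_23_0 (nat_lit 3) (nat_lit 360) (nat_lit 361) = true := by decide +kernel
def p14_23_0_361 : pfC (piC [(nat_lit 28473124), (nat_lit 19449108), (nat_lit 12587812)] (nat_lit 13783263)) p14_23_0 (nat_lit 3) (nat_lit 361) (nat_lit 362) = true := by decide +kernel
def p14_23_0_362 : pfC (piC [(nat_lit 28473124), (nat_lit 19449108), (nat_lit 12587812)] (nat_lit 13783263)) p14_23_0 (nat_lit 3) (nat_lit 362) (nat_lit 363) = true := by decide +kernel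
def p14_23_0_363 : pfC (piC [(nat_lit 28473124), (nat_lit 19449108), (nat_lit 12587812)] (nat_lit 13783263)) p14_23_0 (nat_lit 3) (nat_lit 363) (nat_lit 364) = true := by decide +kernel
def p14_23_0_364 : pfC (piC [(nat_lit 28473124), (nat_lit 19449108), (nat_lit 12587812)] (nat_lit 13783263)) p14_23_0 (nat_lit 3) (nat_lit 364) (nat_lit 365) = true := by decide +kernel
theorem p14_23_0_T : PfS (PiF n14_23.reverse (nat_lit 13783263)) p14_23_0 (nat_lit 3) [] 0 :=
  pftab_of (los := [(nat_lit 28473124), (nat_lit 19449108), (nat_lit 12587812)]) (by decide +kernel) (hi := (nat_lit 365)) (PfP.trans (PfP.trans (PfP.trans (PfP.trans (PfP.trans (PfP.trans (PfP.trans (PfP.trans (PfP.trans (PfP.trans (PfP.trans (PfP.trans (PfP.trans (PfP.trans (PfP.trans (PfP.trans (PfP.trans (PfP.trans (PfP.trans (PfP.trans (PfP.trans (PfP.trans (PfP.trans (PfP.trans (PfP.trans (PfP.trans (PfP.trans (PfP.trans (PfP.trans (PfP.trans (PfP.trans (PfP.trans (PfP.trans (PfP.trans (PfP.trans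 (PfP.trans (PfP.trans (PfP.trans (PfP.trans (PfP.trans (PfP.trans (PfP.trans (PfP.trans (PfP.trans (PfP.trans (PfP.trans (PfP.trans (PfP.trans (PfP.trans (PfP.trans (PfP.trans (PfP.trans (PfP.trans (PfP.trans (PfP.trans (PfP.trans (PfP.trans (PfP.trans (PfP.trans (PfP.trans (PfP.trans (PfP.trans (PfP.trans (PfP.trans (PfP.trans (PfP.trans (PfP.trans (PfP.trans (PfP.trans (PfP.trans (PfP.trans (PfP.trans (PfP.trans (PfP.trans (PfP.trans (PfP.trans (PfP.trans (PfP.trans (PfP.trans (PfP.trans (PfP.trans (PfP.trans (PfP.trans (PfP.trans (PfP.trans (PfP.trans (PfP.trans (PfP.trans (PfP.trans (PfP.trans (PfP.trans (PfP.trans (PfP.trans (PfP.trans (PfP.trans (PfP.trans (PfP.trans (PfP.trans (PfP.trans (PfP.trans (PfP.trans (PfP.trans (PfP.trans (PfP.trans (PfP.trans (PfP.trans (PfP.trans (PfP.trans (PfP.trans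
 (PfP.trans (PfP.trans (PfP.trans (PfP.trans (PfP.trans (PfP.trans (PfP.trans (PfP.trans (PfP.trans (PfP.trans (PfP.trans (PfP.trans (PfP.trans (PfP.trans (PfP.trans (PfP.trans (PfP.trans (PfP.trans (PfP.trans (PfP.trans (PfP.trans (PfP.trans (PfP.trans (PfP.trans (PfP.trans (PfP.trans (PfP.trans (PfP.trans (PfP.trans (PfP.trans (PfP.trans (PfP.trans (PfP.trans (PfP.trans (PfP.trans (PfP.trans (PfP.trans (PfP.trans (PfP.trans (PfP.trans (PfP.trans (PfP.trans (PfP.trans (PfP.trans (PfP.trans (PfP.trans (PfP.trans (PfP.trans (PfP.trans (PfP.trans (PfP.trans (PfP.trans (PfP.trans (PfP.trans (PfP.trans (PfP.trans (PfP.trans (PfP.trans (PfP.trans (PfP.trans (PfP.trans (PfP.trans (PfP.trans (PfP.trans (PfP.trans (PfP.trans (PfP.trans (PfP.trans (PfP.trans (PfP.trans (PfP.trans (PfP.trans (PfP.trans (PfP.trans (PfP.trans (PfP.trans (PfP.trans (PfP.trans (PfP.trans (PfP.trans (PfP.trans (PfP.trans (PfP.trans (PfP.trans (PfP.trans (PfP.trans (PfP.trans (PfP.trans (PfP.trans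 (PfP.trans (PfP.trans (PfP.trans (PfP.trans (PfP.trans (PfP.trans (PfP.trans (PfP.trans (PfP.trans (PfP.trans (PfP.trans (PfP.trans (PfP.trans (PfP.trans (PfP.trans (PfP.trans (PfP.trans (PfP.trans (PfP.trans (PfP.trans
 (PfP.trans (PfP.trans (PfP.trans (PfP.trans (PfP.trans (PfP.trans (PfP.trans (PfP.trans (PfP.trans (PfP.trans (PfP.trans (PfP.trans (PfP.trans (PfP.trans (PfP.trans (PfP.trans (PfP.trans (PfP.trans (PfP.trans (PfP.trans (PfP.trans (PfP.trans (PfP.trans (PfP.trans (PfP.trans (PfP.trans (PfP.trans (PfP.trans (PfP.trans (PfP.trans (PfP.trans (PfP.trans (PfP.trans (PfP.trans (PfP.trans (PfP.trans (PfP.trans (PfP.trans (PfP.trans (PfP.trans (PfP.trans (PfP.trans (PfP.trans (PfP.trans (PfP.trans (PfP.trans (PfP.trans (PfP.trans (PfP.trans (PfP.trans (PfP.trans (PfP.trans (PfP.trans (PfP.trans (PfP.trans (PfP.trans (PfP.trans (PfP.trans (PfP.trans (PfP.trans (PfP.trans (PfP.trans (PfP.trans (PfP.trans (PfP.trans (PfP.trans (PfP.trans (PfP.trans (PfP.trans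 (PfP.trans (PfP.trans (PfP.trans (PfP.trans (PfP.trans (PfP.trans (PfP.trans (PfP.trans (PfP.trans (PfP.trans (PfP.trans (PfP.trans (PfP.trans (PfP.trans (PfP.trans (PfP.trans (PfP.trans (PfP.trans (PfP.trans (PfP.trans (PfP.trans (PfP.trans (PfP.trans (PfP.trans (PfP.trans (PfP.trans (PfP.trans (PfP.trans (PfP.trans (PfP.trans (PfP.trans (PfP.trans (PfP.trans (PfP.trans (PfP.trans (PfP.trans (PfP.trans (PfP.trans (PfP.trans (PfP.trans
 (PfP.trans (PfP.trans (PfP.trans (PfP.trans (PfP.trans (PfP.trans (PfP.trans (PfP.trans (PfP.trans (PfP.trans (PfP.trans (PfP.trans (PfP.trans (PfP.trans (PfP.trans (PfP.trans (PfP.trans (PfP.trans (PfP.trans (PfP.trans (PfP.trans (PfP.trans (PfP.trans (PfP.trans (PfP.trans (PfP.trans (PfP.trans (PfP.trans (PfP.trans (PfP.trans (PfP.trans (PfP.trans (PfP.trans (PfP.trans (PfP.trans (PfP.trans (PfP.trans (pfC_sound p14_23_0_0) (pfC_sound p14_23_0_1)) (pfC_sound p14_23_0_2)) (pfC_sound p14_23_0_3)) (pfC_sound p14_23_0_4)) (pfC_sound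 p14_23_0_5)) (pfC_sound p14_23_0_6)) (pfC_sound p14_23_0_7)) (pfC_sound p14_23_0_8)) (pfC_sound p14_23_0_9)) (pfC_sound p14_23_0_10)) (pfC_sound p14_23_0_11)) (pfC_sound p14_23_0_12)) (pfC_sound p14_23_0_13)) (pfC_sound p14_23_0_14)) (pfC_sound p14_23_0_15)) (pfC_sound p14_23_0_16)) (pfC_sound p14_23_0_17)) (pfC_sound p14_23_0_18)) (pfC_sound p14_23_0_19)) (pfC_sound p14_23_0_20)) (pfC_sound p14_23_0_21)) (pfC_sound p14_23_0_22)) (pfC_sound p14_23_0_23)) (pfC_sound p14_23_0_24)) (pfC_sound p14_23_0_25)) (pfC_sound p14_23_0_26)) (pfC_sound p14_23_0_27)) (pfC_sound p14_23_0_28)) (pfC_sound p14_23_0_29)) (pfC_sound p14_23_0_30)) (pfC_sound p14_23_0_31))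
 (pfC_sound p14_23_0_32)) (pfC_sound p14_23_0_33)) (pfC_sound p14_23_0_34)) (pfC_sound p14_23_0_35)) (pfC_sound p14_23_0_36)) (pfC_sound p14_23_0_37)) (pfC_sound p14_23_0_38)) (pfC_sound p14_23_0_39)) (pfC_sound p14_23_0_40)) (pfC_sound p14_23_0_41)) (pfC_sound p14_23_0_42)) (pfC_sound p14_23_0_43)) (pfC_sound p14_23_0_44)) (pfC_sound p14_23_0_45)) (pfC_sound p14_23_0_46)) (pfC_sound p14_23_0_47)) (pfC_sound p14_23_0_48)) (pfC_sound p14_23_0_49)) (pfC_sound p14_23_0_50)) (pfC_sound p14_23_0_51)) (pfC_sound p14_23_0_52)) (pfC_sound p14_23_0_53)) (pfC_sound p14_23_0_54)) (pfC_sound p14_23_0_55)) (pfC_sound p14_23_0_56)) (pfC_sound p14_23_0_57)) (pfC_sound p14_23_0_58)) (pfC_sound p14_23_0_59)) (pfC_sound p14_23_0_60)) (pfC_sound p14_23_0_61)) (pfC_sound p14_23_0_62)) (pfC_sound p14_23_0_63)) (pfC_sound p14_23_0_64)) (pfC_sound p14_23_0_65)) (pfC_sound p14_23_0_66)) (pfC_sound p14_23_0_67)) (pfC_sound p14_23_0_68)) (pfC_sound p14_23_0_69)) (pfC_sound p14_23_0_70))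 (pfC_sound p14_23_0_71)) (pfC_sound p14_23_0_72)) (pfC_sound p14_23_0_73)) (pfC_sound p14_23_0_74)) (pfC_sound p14_23_0_75)) (pfC_sound p14_23_0_76)) (pfC_sound p14_23_0_77)) (pfC_sound p14_23_0_78)) (pfC_sound p14_23_0_79))
 (pfC_sound p14_23_0_80)) (pfC_sound p14_23_0_81)) (pfC_sound p14_23_0_82)) (pfC_sound p14_23_0_83)) (pfC_sound p14_23_0_84)) (pfC_sound p14_23_0_85)) (pfC_sound p14_23_0_86)) (pfC_sound p14_23_0_87)) (pfC_sound p14_23_0_88)) (pfC_sound p14_23_0_89)) (pfC_sound p14_23_0_90)) (pfC_sound p14_23_0_91)) (pfC_sound p14_23_0_92)) (pfC_sound p14_23_0_93)) (pfC_sound p14_23_0_94)) (pfC_sound p14_23_0_95)) (pfC_sound p14_23_0_96)) (pfC_sound p14_23_0_97)) (pfC_sound p14_23_0_98)) (pfC_sound p14_23_0_99)) (pfC_sound p14_23_0_100)) (pfC_sound p14_23_0_101)) (pfC_sound p14_23_0_102)) (pfC_sound p14_23_0_103)) (pfC_sound p14_23_0_104)) (pfC_sound p14_23_0_105)) (pfC_sound p14_23_0_106)) (pfC_sound p14_23_0_107)) (pfC_sound p14_23_0_108)) (pfC_sound p14_23_0_109))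 (pfC_sound p14_23_0_110)) (pfC_sound p14_23_0_111)) (pfC_sound p14_23_0_112)) (pfC_sound p14_23_0_113)) (pfC_sound p14_23_0_114)) (pfC_sound p14_23_0_115)) (pfC_sound p14_23_0_116)) (pfC_sound p14_23_0_117)) (pfC_sound p14_23_0_118)) (pfC_sound p14_23_0_119)) (pfC_sound p14_23_0_120)) (pfC_sound p14_23_0_121)) (pfC_sound p14_23_0_122)) (pfC_sound p14_23_0_123)) (pfC_sound p14_23_0_124)) (pfC_sound p14_23_0_125)) (pfC_sound
 p14_23_0_126)) (pfC_sound p14_23_0_127)) (pfC_sound p14_23_0_128)) (pfC_sound p14_23_0_129)) (pfC_sound p14_23_0_130)) (pfC_sound p14_23_0_131)) (pfC_sound p14_23_0_132)) (pfC_sound p14_23_0_133)) (pfC_sound p14_23_0_134)) (pfC_sound p14_23_0_135)) (pfC_sound p14_23_0_136)) (pfC_sound p14_23_0_137)) (pfC_sound p14_23_0_138)) (pfC_sound p14_23_0_139)) (pfC_sound p14_23_0_140)) (pfC_sound p14_23_0_141)) (pfC_sound p14_23_0_142)) (pfC_sound p14_23_0_143)) (pfC_sound p14_23_0_144)) (pfC_sound p14_23_0_145)) (pfC_sound p14_23_0_146)) (pfC_sound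 p14_23_0_147)) (pfC_sound p14_23_0_148)) (pfC_sound p14_23_0_149)) (pfC_sound p14_23_0_150)) (pfC_sound p14_23_0_151)) (pfC_sound p14_23_0_152)) (pfC_sound p14_23_0_153)) (pfC_sound p14_23_0_154)) (pfC_sound p14_23_0_155)) (pfC_sound p14_23_0_156)) (pfC_sound p14_23_0_157)) (pfC_sound p14_23_0_158)) (pfC_sound p14_23_0_159)) (pfC_sound p14_23_0_160)) (pfC_sound p14_23_0_161)) (pfC_sound p14_23_0_162)) (pfC_sound p14_23_0_163)) (pfC_sound p14_23_0_164)) (pfC_sound p14_23_0_165)) (pfC_sound p14_23_0_166)) (pfC_sound p14_23_0_167)) (pfC_sound p14_23_0_168)) (pfC_sound p14_23_0_169)) (pfC_sound p14_23_0_170)) (pfC_sound p14_23_0_171)) (pfC_sound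
 p14_23_0_172)) (pfC_sound p14_23_0_173)) (pfC_sound p14_23_0_174)) (pfC_sound p14_23_0_175)) (pfC_sound p14_23_0_176)) (pfC_sound p14_23_0_177)) (pfC_sound p14_23_0_178)) (pfC_sound p14_23_0_179)) (pfC_sound p14_23_0_180)) (pfC_sound p14_23_0_181)) (pfC_sound p14_23_0_182)) (pfC_sound p14_23_0_183)) (pfC_sound p14_23_0_184)) (pfC_sound p14_23_0_185)) (pfC_sound p14_23_0_186)) (pfC_sound p14_23_0_187)) (pfC_sound p14_23_0_188)) (pfC_sound p14_23_0_189)) (pfC_sound p14_23_0_190)) (pfC_sound p14_23_0_191)) (pfC_sound p14_23_0_192)) (pfC_sound p14_23_0_193)) (pfC_sound p14_23_0_194)) (pfC_sound p14_23_0_195)) (pfC_sound p14_23_0_196)) (pfC_sound p14_23_0_197)) (pfC_sound p14_23_0_198)) (pfC_sound p14_23_0_199)) (pfC_sound p14_23_0_200)) (pfC_sound p14_23_0_201)) (pfC_sound p14_23_0_202)) (pfC_sound p14_23_0_203)) (pfC_sound p14_23_0_204)) (pfC_sound p14_23_0_205)) (pfC_sound p14_23_0_206)) (pfC_sound p14_23_0_207)) (pfC_sound p14_23_0_208)) (pfC_sound p14_23_0_209))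 (pfC_sound p14_23_0_210)) (pfC_sound p14_23_0_211)) (pfC_sound p14_23_0_212)) (pfC_sound p14_23_0_213)) (pfC_sound p14_23_0_214)) (pfC_sound p14_23_0_215)) (pfC_sound p14_23_0_216)) (pfC_sound p14_23_0_217)) (pfC_sound
 p14_23_0_218)) (pfC_sound p14_23_0_219)) (pfC_sound p14_23_0_220)) (pfC_sound p14_23_0_221)) (pfC_sound p14_23_0_222)) (pfC_sound p14_23_0_223)) (pfC_sound p14_23_0_224)) (pfC_sound p14_23_0_225)) (pfC_sound p14_23_0_226)) (pfC_sound p14_23_0_227)) (pfC_sound p14_23_0_228)) (pfC_sound p14_23_0_229)) (pfC_sound p14_23_0_230)) (pfC_sound p14_23_0_231)) (pfC_sound p14_23_0_232)) (pfC_sound p14_23_0_233)) (pfC_sound p14_23_0_234)) (pfC_sound p14_23_0_235)) (pfC_sound p14_23_0_236)) (pfC_sound p14_23_0_237)) (pfC_sound p14_23_0_238)) (pfC_sound p14_23_0_239)) (pfC_sound p14_23_0_240)) (pfC_sound p14_23_0_241)) (pfC_sound p14_23_0_242)) (pfC_sound p14_23_0_243)) (pfC_sound p14_23_0_244)) (pfC_sound p14_23_0_245)) (pfC_sound p14_23_0_246)) (pfC_sound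 p14_23_0_247)) (pfC_sound p14_23_0_248)) (pfC_sound p14_23_0_249)) (pfC_sound p14_23_0_250)) (pfC_sound p14_23_0_251)) (pfC_sound p14_23_0_252)) (pfC_sound p14_23_0_253)) (pfC_sound p14_23_0_254)) (pfC_sound p14_23_0_255)) (pfC_sound p14_23_0_256)) (pfC_sound p14_23_0_257)) (pfC_sound p14_23_0_258)) (pfC_sound p14_23_0_259)) (pfC_sound p14_23_0_260)) (pfC_sound p14_23_0_261)) (pfC_sound p14_23_0_262)) (pfC_sound p14_23_0_263)) (pfC_sound
 p14_23_0_264)) (pfC_sound p14_23_0_265)) (pfC_sound p14_23_0_266)) (pfC_sound p14_23_0_267)) (pfC_sound p14_23_0_268)) (pfC_sound p14_23_0_269)) (pfC_sound p14_23_0_270)) (pfC_sound p14_23_0_271)) (pfC_sound p14_23_0_272)) (pfC_sound p14_23_0_273)) (pfC_sound p14_23_0_274)) (pfC_sound p14_23_0_275)) (pfC_sound p14_23_0_276)) (pfC_sound p14_23_0_277)) (pfC_sound p14_23_0_278)) (pfC_sound p14_23_0_279)) (pfC_sound p14_23_0_280)) (pfC_sound p14_23_0_281)) (pfC_sound p14_23_0_282)) (pfC_sound p14_23_0_283)) (pfC_sound p14_23_0_284))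 (pfC_sound p14_23_0_285)) (pfC_sound p14_23_0_286)) (pfC_sound p14_23_0_287)) (pfC_sound p14_23_0_288)) (pfC_sound p14_23_0_289)) (pfC_sound p14_23_0_290)) (pfC_sound p14_23_0_291)) (pfC_sound p14_23_0_292)) (pfC_sound p14_23_0_293)) (pfC_sound p14_23_0_294)) (pfC_sound p14_23_0_295)) (pfC_sound p14_23_0_296)) (pfC_sound p14_23_0_297)) (pfC_sound p14_23_0_298)) (pfC_sound p14_23_0_299)) (pfC_sound p14_23_0_300)) (pfC_sound p14_23_0_301)) (pfC_sound p14_23_0_302)) (pfC_sound p14_23_0_303)) (pfC_sound p14_23_0_304)) (pfC_sound p14_23_0_305)) (pfC_sound p14_23_0_306)) (pfC_sound p14_23_0_307)) (pfC_sound p14_23_0_308)) (pfC_sound p14_23_0_309)) (pfC_sound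
 p14_23_0_310)) (pfC_sound p14_23_0_311)) (pfC_sound p14_23_0_312)) (pfC_sound p14_23_0_313)) (pfC_sound p14_23_0_314)) (pfC_sound p14_23_0_315)) (pfC_sound p14_23_0_316)) (pfC_sound p14_23_0_317)) (pfC_sound p14_23_0_318)) (pfC_sound p14_23_0_319)) (pfC_sound p14_23_0_320)) (pfC_sound p14_23_0_321)) (pfC_sound p14_23_0_322)) (pfC_sound p14_23_0_323)) (pfC_sound p14_23_0_324)) (pfC_sound p14_23_0_325)) (pfC_sound p14_23_0_326)) (pfC_sound p14_23_0_327)) (pfC_sound p14_23_0_328)) (pfC_sound p14_23_0_329)) (pfC_sound p14_23_0_330)) (pfC_sound p14_23_0_331)) (pfC_sound p14_23_0_332)) (pfC_sound p14_23_0_333)) (pfC_sound p14_23_0_334)) (pfC_sound p14_23_0_335)) (pfC_sound p14_23_0_336)) (pfC_sound p14_23_0_337)) (pfC_sound p14_23_0_338)) (pfC_sound p14_23_0_339)) (pfC_sound p14_23_0_340)) (pfC_sound p14_23_0_341)) (pfC_sound p14_23_0_342)) (pfC_sound p14_23_0_343)) (pfC_sound p14_23_0_344)) (pfC_sound p14_23_0_345)) (pfC_sound p14_23_0_346)) (pfC_sound p14_23_0_347))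 (pfC_sound p14_23_0_348)) (pfC_sound p14_23_0_349)) (pfC_sound p14_23_0_350)) (pfC_sound p14_23_0_351)) (pfC_sound p14_23_0_352)) (pfC_sound p14_23_0_353)) (pfC_sound p14_23_0_354)) (pfC_sound p14_23_0_355)) (pfC_sound
 p14_23_0_356)) (pfC_sound p14_23_0_357)) (pfC_sound p14_23_0_358)) (pfC_sound p14_23_0_359)) (pfC_sound p14_23_0_360)) (pfC_sound p14_23_0_361)) (pfC_sound p14_23_0_362)) (pfC_sound p14_23_0_363)) (pfC_sound p14_23_0_364)) (by decide +kernel)

def z14_23_0 : zOK yB14_23 (nat_lit 0) (nat_lit 0) (nat_lit 400) (nat_lit 13783263) (nat_lit 11208580) = true := by decide +kernel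
def g14_23_0 : gOK yB14_23.x P14_23 (nat_lit 1338) (q14_23 :: r14_23) (nat_lit 0) (nat_lit 0) (nat_lit 1) (nat_lit 400) (nat_lit 0) (nat_lit 11000000) (nat_lit 12712500) (nat_lit 12712500) [(nat_lit 800), (nat_lit 1600)] = true := by decide +kernel
def v14_23_0 : ivC P14_23 s14_23 w14_23 n14_23 (nat_lit 3) (nat_lit 5210) (nat_lit 0) (nat_lit 0) f192_0_0 f200_0_0 (nat_lit 1) (nat_lit 400) f192_0_400 f200_0_400 (nat_lit 13783263) (nat_lit 11208580) p14_23_0 = true := by decide +kernel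
def p14_23_1 : PF := (PF.cons (PF.cons (PF.cons (PF.leaf (nat_lit 1851390) (nat_lit 8166462) (nat_lit 58942350) (nat_lit 8166462) [(nat_lit 0), (nat_lit 0), (nat_lit 0)]) (PF.cons (PF.leaf (nat_lit 2310087) (nat_lit 972411) (nat_lit 57863036) (nat_lit 8273365) [(nat_lit 972411), (nat_lit 0), (nat_lit 0)]) (PF.cons (PF.leaf (nat_lit 2844926) (nat_lit 1056756) (nat_lit 56624170) (nat_lit 8371130) [(nat_lit 1056756), (nat_lit 0), (nat_lit 0)]) (PF.cons (PF.leaf (nat_lit 3438105) (nat_lit 1128494) (nat_lit 55271765) (nat_lit 8451563) [(nat_lit 1128494), (nat_lit 0), (nat_lit 0)]) (PF.cons (PF.leaf (nat_lit 4075678) (nat_lit 1189314) (nat_lit 53841060) (nat_lit 8510492) [(nat_lit 1189314), (nat_lit 0), (nat_lit 0)]) (PF.cons (PF.leaf (nat_lit 4746038) (nat_lit 1240418) (nat_lit 52360382) (nat_lit 8546340) [(nat_lit 1240418), (nat_lit 0), (nat_lit 0)]) (PF.cons (PF.leaf (nat_lit 5439333) (nat_lit 1282792) (nat_lit 50852848) (nat_lit 8559212) [(nat_lit 1282792), (nat_lit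 0), (nat_lit 0)]) (PF.cons (PF.leaf (nat_lit 6147218) (nat_lit 1317320) (nat_lit 49337298) (nat_lit 8550268) [(nat_lit 1317320), (nat_lit 0), (nat_lit 0)]) (PF.cons (PF.leaf (nat_lit 6862688) (nat_lit 1344823) (nat_lit 47828928) (nat_lit
 8521297) [(nat_lit 1344823), (nat_lit 0), (nat_lit 0)]) (PF.cons (PF.leaf (nat_lit 7579914) (nat_lit 1366067) (nat_lit 46339799) (nat_lit 8474409) [(nat_lit 1366067), (nat_lit 0), (nat_lit 0)]) (PF.cons (PF.leaf (nat_lit 8294125) (nat_lit 1381768) (nat_lit 44879288) (nat_lit 8411837) [(nat_lit 1381768), (nat_lit 0), (nat_lit 0)]) (PF.cons (PF.leaf (nat_lit 9001476) (nat_lit 1392592) (nat_lit 43454493) (nat_lit 8335797) [(nat_lit 1392592), (nat_lit 0), (nat_lit 0)]) (PF.cons (PF.leaf (nat_lit 9698956) (nat_lit 1399151) (nat_lit 42070599) (nat_lit 8248400) [(nat_lit 1399151), (nat_lit 0), (nat_lit 0)]) (PF.cons (PF.leaf (nat_lit 10384192) (nat_lit 1401999) (nat_lit 40731214) (nat_lit 8151607) [(nat_lit 1401999), (nat_lit 0),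 (nat_lit 0)]) (PF.cons (PF.leaf (nat_lit 11055429) (nat_lit 1401640) (nat_lit 39438651) (nat_lit 8047193) [(nat_lit 1401640), (nat_lit 0), (nat_lit 0)]) (PF.cons (PF.leaf (nat_lit 11711395) (nat_lit 1398525) (nat_lit 38194185) (nat_lit 7936747) [(nat_lit 1398525), (nat_lit 0), (nat_lit 0)]) (PF.cons PF.nil (PF.cons PF.nil (PF.cons PF.nil (PF.cons PF.nil PF.nil)))))))))))))))))))) (PF.cons (PF.cons (PF.leaf (nat_lit 2989921) (nat_lit 3279763) (nat_lit 55421902)
 (nat_lit 8407147) [(nat_lit 0), (nat_lit 3279763), (nat_lit 0)]) (PF.cons (PF.leaf (nat_lit 3548696) (nat_lit 1132735) (nat_lit 54139000) (nat_lit 8466142) [(nat_lit 1132735), (nat_lit 3370934), (nat_lit 0)]) (PF.cons (PF.leaf (nat_lit 4156153) (nat_lit 1191051) (nat_lit 52770208) (nat_lit 8507198) [(nat_lit 1191051), (nat_lit 3449303), (nat_lit 0)]) (PF.cons (PF.leaf (nat_lit 4799216) (nat_lit 1239810) (nat_lit 51347317) (nat_lit 8528262) [(nat_lit 1239810), (nat_lit 3513802), (nat_lit 0)]) (PF.cons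 (PF.leaf (nat_lit 5467407) (nat_lit 1280094) (nat_lit 49894899) (nat_lit 8529051) [(nat_lit 1280094), (nat_lit 3564485), (nat_lit 0)]) (PF.cons (PF.leaf (nat_lit 6152081) (nat_lit 1312815) (nat_lit 48432345) (nat_lit 8510380) [(nat_lit 1312815), (nat_lit 3602010), (nat_lit 0)]) (PF.cons (PF.leaf (nat_lit 6846080) (nat_lit 1338791) (nat_lit 46974988) (nat_lit 8473717) [(nat_lit 1338791), (nat_lit 3627359), (nat_lit 0)]) (PF.cons (PF.leaf (nat_lit 7543489) (nat_lit 1358772) (nat_lit 45534855) (nat_lit 8420882) [(nat_lit 1358772), (nat_lit 3641668), (nat_lit 0)]) (PF.cons (PF.leaf (nat_lit 8239489) (nat_lit 1373451) (nat_lit 44121230) (nat_lit 8353843) [(nat_lit 1373451), (nat_lit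
 3646126), (nat_lit 0)]) (PF.cons (PF.leaf (nat_lit 8930173) (nat_lit 1383466) (nat_lit 42741118) (nat_lit 8274580) [(nat_lit 1383466), (nat_lit 3641912), (nat_lit 0)]) (PF.cons (PF.leaf (nat_lit 9612459) (nat_lit 1389402) (nat_lit 41399638) (nat_lit 8184999) [(nat_lit 1389402), (nat_lit 3630150), (nat_lit 0)]) (PF.cons (PF.leaf (nat_lit 10283913) (nat_lit 1391789) (nat_lit 40100364) (nat_lit 8086877) [(nat_lit 1391789), (nat_lit 3611889), (nat_lit 0)]) (PF.cons (PF.leaf (nat_lit 10942713) (nat_lit 1391106) (nat_lit 38845611) (nat_lit 7981836) [(nat_lit 1391106), (nat_lit 3588090), (nat_lit 0)]) (PF.cons (PF.leaf (nat_lit 11587492) (nat_lit 1387782) (nat_lit 37636690) (nat_lit 7871329) [(nat_lit 1387782), (nat_lit 3559621), (nat_lit 0)]) (PF.cons (PF.leaf (nat_lit 12217280) (nat_lit 1382200) (nat_lit 36474110) (nat_lit 7756642) [(nat_lit 1382200), (nat_lit 3527256), (nat_lit 0)]) (PF.cons PF.nil (PF.cons PF.nil (PF.cons PF.nil PF.nil)))))))))))))))))) (PF.cons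 (PF.cons (PF.leaf (nat_lit 4242650) (nat_lit 3461844) (nat_lit 51690134) (nat_lit 8494989) [(nat_lit 0), (nat_lit 3461844), (nat_lit 0)]) (PF.cons (PF.leaf (nat_lit 4855860) (nat_lit 1236800) (nat_lit 50333894) (nat_lit
 8503016) [(nat_lit 1236800), (nat_lit 3517550), (nat_lit 0)]) (PF.cons (PF.leaf (nat_lit 5497582) (nat_lit 1275536) (nat_lit 48942146) (nat_lit 8493216) [(nat_lit 1275536), (nat_lit 3561188), (nat_lit 0)]) (PF.cons (PF.leaf (nat_lit 6158341) (nat_lit 1306857) (nat_lit 47536064) (nat_lit 8466068) [(nat_lit 1306857), (nat_lit 3593054), (nat_lit 0)]) (PF.cons (PF.leaf (nat_lit 6830564) (nat_lit 1331620) (nat_lit 46131833) (nat_lit 8422750) [(nat_lit 1331620), (nat_lit 3613873), (nat_lit 0)]) (PF.cons (PF.leaf (nat_lit 7508101) (nat_lit 1350586) (nat_lit 44741886) (nat_lit 8364820) [(nat_lit 1350586), (nat_lit 3624587), (nat_lit 0)]) (PF.cons (PF.leaf (nat_lit 8185970) (nat_lit 1364439) (nat_lit 43375706) (nat_lit 8294007) [(nat_lit 1364439), (nat_lit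 3626230), (nat_lit 0)]) (PF.cons (PF.leaf (nat_lit 8860149) (nat_lit 1373803) (nat_lit 42040401) (nat_lit 8212084) [(nat_lit 1373803), (nat_lit 3619851), (nat_lit 0)]) (PF.cons (PF.leaf (nat_lit 9527445) (nat_lit 1379243) (nat_lit 40741164) (nat_lit 8120768) [(nat_lit 1379243), (nat_lit 3606465), (nat_lit 0)]) (PF.cons (PF.leaf (nat_lit 10185343) (nat_lit 1381270) (nat_lit 39481634) (nat_lit 8021676) [(nat_lit 1381270), (nat_lit
 3587031), (nat_lit 0)]) (PF.cons (PF.leaf (nat_lit 10831916) (nat_lit 1380345) (nat_lit 38264201) (nat_lit 7916289) [(nat_lit 1380345), (nat_lit 3562431), (nat_lit 0)]) (PF.cons (PF.leaf (nat_lit 11465705) (nat_lit 1376879) (nat_lit 37090256) (nat_lit 7805943) [(nat_lit 1376879), (nat_lit 3533467), (nat_lit 0)]) (PF.cons (PF.leaf (nat_lit 12085677) (nat_lit 1371239) (nat_lit 35960406) (nat_lit 7691821) [(nat_lit 1371239), (nat_lit 3500857), (nat_lit 0)]) (PF.cons PF.nil (PF.cons PF.nil (PF.cons PF.nil PF.nil)))))))))))))))) (PF.cons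 (PF.cons (PF.leaf (nat_lit 5532433) (nat_lit 3555173) (nat_lit 47991330) (nat_lit 8451962) [(nat_lit 0), (nat_lit 3555173), (nat_lit 0)]) (PF.cons (PF.leaf (nat_lit 6167850) (nat_lit 1299382) (nat_lit 46646183) (nat_lit 8417554) [(nat_lit 1299382), (nat_lit 3581897), (nat_lit 0)]) (PF.cons (PF.leaf (nat_lit 6817551) (nat_lit 1323277) (nat_lit 45297763) (nat_lit 8368581) [(nat_lit 1323277), (nat_lit 3598637), (nat_lit 0)]) (PF.cons (PF.leaf (nat_lit 7474842) (nat_lit 1341491) (nat_lit 43959549) (nat_lit 8306370) [(nat_lit 1341491), (nat_lit 3606139), (nat_lit 0)]) (PF.cons (PF.leaf (nat_lit 8134433) (nat_lit 1354723) (nat_lit 42641608) (nat_lit 8232447)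
 [(nat_lit 1354723), (nat_lit 3605287), (nat_lit 0)]) (PF.cons (PF.leaf (nat_lit 8792096) (nat_lit 1363598) (nat_lit 41351403) (nat_lit 8148395) [(nat_lit 1363598), (nat_lit 3597007), (nat_lit 0)]) (PF.cons (PF.leaf (nat_lit 9444470) (nat_lit 1368671) (nat_lit 40094365) (nat_lit 8055772) [(nat_lit 1368671), (nat_lit 3582214), (nat_lit 0)]) (PF.cons (PF.leaf (nat_lit 10088923) (nat_lit 1370442) (nat_lit 38874313) (nat_lit 7956049) [(nat_lit 1370442), (nat_lit 3561783), (nat_lit 0)]) (PF.cons (PF.leaf (nat_lit 10723399) (nat_lit 1369358) (nat_lit 37693787) (nat_lit 7850585) [(nat_lit 1369358), (nat_lit 3536524), (nat_lit 0)]) (PF.cons (PF.leaf (nat_lit 11346345) (nat_lit 1365815) (nat_lit 36554321) (nat_lit 7740608) [(nat_lit 1365815), (nat_lit 3507180), (nat_lit 0)]) (PF.cons (PF.leaf (nat_lit 11956606) (nat_lit 1360169) (nat_lit 35456652) (nat_lit 7627212) [(nat_lit 1360169), (nat_lit 3474417), (nat_lit 0)]) (PF.cons PF.nil (PF.cons PF.nil (PF.cons PF.nil PF.nil))))))))))))))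 (PF.cons (PF.cons (PF.leaf (nat_lit 6808768) (nat_lit 3581751) (nat_lit 44470497) (nat_lit 8311307) [(nat_lit 0), (nat_lit 3581751), (nat_lit 0)]) (PF.cons (PF.leaf (nat_lit 7444974) (nat_lit 1331440) (nat_lit
 43186144) (nat_lit 8245621) [(nat_lit 1331440), (nat_lit 3586401), (nat_lit 0)]) (PF.cons (PF.leaf (nat_lit 8085850) (nat_lit 1344276) (nat_lit 41917605) (nat_lit 8169233) [(nat_lit 1344276), (nat_lit 3583355), (nat_lit 0)]) (PF.cons (PF.leaf (nat_lit 8726774) (nat_lit 1352833) (nat_lit 40673042) (nat_lit 8083571) [(nat_lit 1352833), (nat_lit 3573424), (nat_lit 0)]) (PF.cons (PF.leaf (nat_lit 9364145) (nat_lit 1357674) (nat_lit 39458336) (nat_lit 7990053) [(nat_lit 1357674), (nat_lit 3557431), (nat_lit 0)]) (PF.cons (PF.leaf (nat_lit 9995133) (nat_lit 1359295) (nat_lit 38277626) (nat_lit 7890026) [(nat_lit 1359295), (nat_lit 3536170), (nat_lit 0)]) (PF.cons (PF.leaf (nat_lit 10617548) (nat_lit 1358135) (nat_lit 37133701) (nat_lit 7784741) [(nat_lit 1358135),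 (nat_lit 3510388), (nat_lit 0)]) (PF.cons (PF.leaf (nat_lit 11229703) (nat_lit 1354584) (nat_lit 36028298) (nat_lit 7675334) [(nat_lit 1354584), (nat_lit 3480772), (nat_lit 0)]) (PF.cons (PF.leaf (nat_lit 11830333) (nat_lit 1348985) (nat_lit 34962333) (nat_lit 7562818) [(nat_lit 1348985), (nat_lit 3447943), (nat_lit 0)]) (PF.cons (PF.leaf (nat_lit 12418524) (nat_lit 1341644) (nat_lit 33936088) (nat_lit 7448088) [(nat_lit
 1341644), (nat_lit 3412460), (nat_lit 0)]) (PF.cons PF.nil (PF.cons PF.nil PF.nil)))))))))))) (PF.cons (PF.cons (PF.leaf (nat_lit 8041405) (nat_lit 3560475) (nat_lit 41202049) (nat_lit 8104386) [(nat_lit 0), (nat_lit 3560475), (nat_lit 0)]) (PF.cons (PF.leaf (nat_lit 8665051) (nat_lit 1341472) (nat_lit 40004034) (nat_lit 8017631) [(nat_lit 1341472), (nat_lit 3549134), (nat_lit 0)]) (PF.cons (PF.leaf (nat_lit 9287130) (nat_lit 1346227) (nat_lit 38832041) (nat_lit 7923625) [(nat_lit 1346227), (nat_lit 3532138), (nat_lit 0)]) (PF.cons (PF.leaf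 (nat_lit 9904506) (nat_lit 1347812) (nat_lit 37690717) (nat_lit 7823615) [(nat_lit 1347812), (nat_lit 3510208), (nat_lit 0)]) (PF.cons (PF.leaf (nat_lit 10514779) (nat_lit 1346665) (nat_lit 36583218) (nat_lit 7718761) [(nat_lit 1346665), (nat_lit 3484033), (nat_lit 0)]) (PF.cons (PF.leaf (nat_lit 11116107) (nat_lit 1343175) (nat_lit 35511565) (nat_lit 7610118) [(nat_lit 1343175), (nat_lit 3454250), (nat_lit 0)]) (PF.cons (PF.leaf (nat_lit 11707102) (nat_lit 1337679) (nat_lit 34476907) (nat_lit 7498633) [(nat_lit 1337679), (nat_lit 3421438), (nat_lit 0)]) (PF.cons (PF.leaf (nat_lit 12286724) (nat_lit 1330477) (nat_lit 33479725) (nat_lit 7385140)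
 [(nat_lit 1330477), (nat_lit 3386120), (nat_lit 0)]) (PF.cons PF.nil (PF.cons PF.nil PF.nil)))))))))) (PF.cons (PF.cons (PF.leaf (nat_lit 9214251) (nat_lit 3506345) (nat_lit 38214270) (nat_lit 7856469) [(nat_lit 0), (nat_lit 3506345), (nat_lit 0)]) (PF.cons (PF.leaf (nat_lit 9817628) (nat_lit 1335963) (nat_lit 37112616) (nat_lit 7756801) [(nat_lit 1335963), (nat_lit 3483905), (nat_lit 0)]) (PF.cons (PF.leaf (nat_lit 10415548) (nat_lit 1334926) (nat_lit 36041541) (nat_lit 7652629) [(nat_lit 1334926), (nat_lit 3457464), (nat_lit 0)]) (PF.cons (PF.leaf (nat_lit 11005929) (nat_lit 1331572) (nat_lit 35003453) (nat_lit 7544946) [(nat_lit 1331572), (nat_lit 3427615), (nat_lit 0)]) (PF.cons (PF.leaf (nat_lit 11587200) (nat_lit 1326238) (nat_lit 33999804) (nat_lit 7434640) [(nat_lit 1326238), (nat_lit 3394902), (nat_lit 0)]) (PF.cons (PF.leaf (nat_lit 12158199) (nat_lit 1319222) (nat_lit 33031319) (nat_lit 7322498) [(nat_lit 1319222), (nat_lit 3359813), (nat_lit 0)])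 (PF.cons PF.nil (PF.cons PF.nil PF.nil)))))))) (PF.cons (PF.cons (PF.leaf (nat_lit 10320450) (nat_lit 3430676) (nat_lit 35507766) (nat_lit 7586311) [(nat_lit 0), (nat_lit 3430676), (nat_lit 0)]) (PF.cons (PF.leaf (nat_lit
 10899573) (nat_lit 1319752) (nat_lit 34503224) (nat_lit 7479788) [(nat_lit 1319752), (nat_lit 3400864), (nat_lit 0)]) (PF.cons (PF.leaf (nat_lit 11470953) (nat_lit 1314644) (nat_lit 33530408) (nat_lit 7370814) [(nat_lit 1314644), (nat_lit 3368328), (nat_lit 0)]) (PF.cons (PF.leaf (nat_lit 12033211) (nat_lit 1307863) (nat_lit 32590349) (nat_lit 7260138) [(nat_lit 1307863), (nat_lit 3333533), (nat_lit 0)]) (PF.cons PF.nil (PF.cons PF.nil PF.nil)))))) (PF.cons (PF.cons (PF.leaf (nat_lit 11358777) (nat_lit 3341707) (nat_lit 33068041) (nat_lit 7307113) [(nat_lit 0), (nat_lit 3341707), (nat_lit 0)]) (PF.cons (PF.leaf (nat_lit 11912041) (nat_lit 1296383) (nat_lit 32156251) (nat_lit 7198023) [(nat_lit 1296383), (nat_lit 3307269), (nat_lit 0)]) (PF.cons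 (PF.leaf (nat_lit 12456319) (nat_lit 1288476) (nat_lit 31275394) (nat_lit 7087953) [(nat_lit 1288476), (nat_lit 3271063), (nat_lit 0)]) (PF.cons PF.nil PF.nil)))) (PF.cons (PF.cons (PF.leaf (nat_lit 12331245) (nat_lit 3245287) (nat_lit 30873437) (nat_lit 7027788) [(nat_lit 0), (nat_lit 3245287), (nat_lit 0)]) (PF.cons PF.nil PF.nil)) (PF.cons PF.nil (PF.cons PF.nil (PF.cons PF.nil PF.nil))))))))))))) (PF.cons (PF.cons (PF.cons (PF.leaf
 (nat_lit 3634874) (nat_lit 6465456) (nat_lit 52227113) (nat_lit 8416243) [(nat_lit 0), (nat_lit 0), (nat_lit 6465456)]) (PF.cons (PF.leaf (nat_lit 4191185) (nat_lit 1166590) (nat_lit 50993379) (nat_lit 8437942) [(nat_lit 1166590), (nat_lit 0), (nat_lit 6510900)]) (PF.cons (PF.leaf (nat_lit 4790029) (nat_lit 1216218) (nat_lit 49690352) (nat_lit 8443665) [(nat_lit 1216218), (nat_lit 0), (nat_lit 6542358)]) (PF.cons (PF.leaf (nat_lit 5418953) (nat_lit 1256718) (nat_lit 48347341) (nat_lit 8432551) [(nat_lit 1256718), (nat_lit 0),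 (nat_lit 6558763)]) (PF.cons (PF.leaf (nat_lit 6068342) (nat_lit 1289389) (nat_lit 46986106) (nat_lit 8404917) [(nat_lit 1289389), (nat_lit 0), (nat_lit 6560230)]) (PF.cons (PF.leaf (nat_lit 6730485) (nat_lit 1315245) (nat_lit 45623231) (nat_lit 8361790) [(nat_lit 1315245), (nat_lit 0), (nat_lit 6547563)]) (PF.cons (PF.leaf (nat_lit 7399124) (nat_lit 1335138) (nat_lit 44271445) (nat_lit 8304591) [(nat_lit 1335138), (nat_lit 0), (nat_lit 6521945)]) (PF.cons (PF.leaf (nat_lit 8069193) (nat_lit 1349809) (nat_lit 42940467) (nat_lit 8234933) [(nat_lit 1349809), (nat_lit 0), (nat_lit 6484744)]) (PF.cons (PF.leaf (nat_lit 8736579) (nat_lit 1359915) (nat_lit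
 41637614) (nat_lit 8154486) [(nat_lit 1359915), (nat_lit 0), (nat_lit 6437391)]) (PF.cons (PF.leaf (nat_lit 9398017) (nat_lit 1366041) (nat_lit 40368266) (nat_lit 8064883) [(nat_lit 1366041), (nat_lit 0), (nat_lit 6381291)]) (PF.cons (PF.leaf (nat_lit 10050905) (nat_lit 1368711) (nat_lit 39136242) (nat_lit 7967669) [(nat_lit 1368711), (nat_lit 0), (nat_lit 6317782)]) (PF.cons (PF.leaf (nat_lit 10693248) (nat_lit 1368394) (nat_lit 37944102) (nat_lit 7864268) [(nat_lit 1368394), (nat_lit 0), (nat_lit 6248103)]) (PF.cons (PF.leaf (nat_lit 11323526) (nat_lit 1365505) (nat_lit 36793403) (nat_lit 7755968) [(nat_lit 1365505), (nat_lit 0), (nat_lit 6173378)]) (PF.cons (PF.leaf (nat_lit 11940598) (nat_lit 1360413) (nat_lit 35684905) (nat_lit 7643916) [(nat_lit 1360413), (nat_lit 0), (nat_lit 6094616)]) (PF.cons PF.nil (PF.cons PF.nil PF.nil)))))))))))))))) (PF.cons (PF.cons (PF.leaf (nat_lit 4854913) (nat_lit 3482905) (nat_lit 48688939) (nat_lit 8410134) [(nat_lit 0),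 (nat_lit 3482905), (nat_lit 6526833)]) (PF.cons (PF.leaf (nat_lit 5454924) (nat_lit 1249658) (nat_lit 47412958) (nat_lit 8390473) [(nat_lit 1249658), (nat_lit 3521032), (nat_lit 6534688)]) (PF.cons (PF.leaf (nat_lit 6079164)
 (nat_lit 1281564) (nat_lit 46111602) (nat_lit 8356024) [(nat_lit 1281564), (nat_lit 3548720), (nat_lit 6529337)]) (PF.cons (PF.leaf (nat_lit 6718958) (nat_lit 1306675) (nat_lit 44803464) (nat_lit 8307579) [(nat_lit 1306675), (nat_lit 3566445), (nat_lit 6511297)]) (PF.cons (PF.leaf (nat_lit 7367533) (nat_lit 1325906) (nat_lit 43502344) (nat_lit 8246353) [(nat_lit 1325906), (nat_lit 3574964), (nat_lit 6481522)]) (PF.cons (PF.leaf (nat_lit 8019499) (nat_lit 1340024) (nat_lit 42218567) (nat_lit 8173770) [(nat_lit 1340024), (nat_lit 3575161), (nat_lit 6441189)]) (PF.cons (PF.leaf (nat_lit 8670530) (nat_lit 1349691) (nat_lit 40959820) (nat_lit 8091328) [(nat_lit 1349691), (nat_lit 3567956), (nat_lit 6391561)]) (PF.cons (PF.leaf (nat_lit 9317185)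 (nat_lit 1355487) (nat_lit 39731731) (nat_lit 8000508) [(nat_lit 1355487), (nat_lit 3554257), (nat_lit 6333901)]) (PF.cons (PF.leaf (nat_lit 9956744) (nat_lit 1357929) (nat_lit 38538304) (nat_lit 7902722) [(nat_lit 1357929), (nat_lit 3534927), (nat_lit 6269425)]) (PF.cons (PF.leaf (nat_lit 10587083) (nat_lit 1357471) (nat_lit 37382255) (nat_lit 7799278) [(nat_lit 1357471), (nat_lit 3510768), (nat_lit 6199265)]) (PF.cons (PF.leaf (nat_lit
 11206577) (nat_lit 1354519) (nat_lit 36265279) (nat_lit 7691363) [(nat_lit 1354519), (nat_lit 3482513), (nat_lit 6124458)]) (PF.cons (PF.leaf (nat_lit 11814006) (nat_lit 1349431) (nat_lit 35188270) (nat_lit 7580037) [(nat_lit 1349431), (nat_lit 3450822), (nat_lit 6045934)]) (PF.cons PF.nil (PF.cons PF.nil PF.nil)))))))))))))) (PF.cons (PF.cons (PF.leaf (nat_lit 6095905) (nat_lit 3535331) (nat_lit 45239817) (nat_lit 8303173) [(nat_lit 0), (nat_lit 3535331), (nat_lit 6495158)]) (PF.cons (PF.leaf (nat_lit 6711852) (nat_lit 1296837)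 (nat_lit 43990072) (nat_lit 8250372) [(nat_lit 1296837), (nat_lit 3549517), (nat_lit 6472496)]) (PF.cons (PF.leaf (nat_lit 7339521) (nat_lit 1315709) (nat_lit 42741753) (nat_lit 8185894) [(nat_lit 1315709), (nat_lit 3555282), (nat_lit 6439181)]) (PF.cons (PF.leaf (nat_lit 7972904) (nat_lit 1329501) (nat_lit 41506357) (nat_lit 8111008) [(nat_lit 1329501), (nat_lit 3553361), (nat_lit 6396219)]) (PF.cons (PF.leaf (nat_lit 8607320) (nat_lit 1338902) (nat_lit 40292279) (nat_lit 8027070) [(nat_lit 1338902), (nat_lit 3544564), (nat_lit 6344723)]) (PF.cons (PF.leaf (nat_lit 9239074) (nat_lit 1344504) (nat_lit 39105608) (nat_lit 7935433) [(nat_lit 1344504),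
 (nat_lit 3529707), (nat_lit 6285832)]) (PF.cons (PF.leaf (nat_lit 9865266) (nat_lit 1346823) (nat_lit 37950671) (nat_lit 7837392) [(nat_lit 1346823), (nat_lit 3509577), (nat_lit 6220652)]) (PF.cons (PF.leaf (nat_lit 10483615) (nat_lit 1346310) (nat_lit 36830433) (nat_lit 7734153) [(nat_lit 1346310), (nat_lit 3484914), (nat_lit 6150222)]) (PF.cons (PF.leaf (nat_lit 11092363) (nat_lit 1343363) (nat_lit 35746792) (nat_lit 7626816) [(nat_lit 1343363), (nat_lit 3456397), (nat_lit 6075497)]) (PF.cons (PF.leaf (nat_lit 11690201) (nat_lit 1338332) (nat_lit 34700820) (nat_lit 7516368) [(nat_lit 1338332), (nat_lit 3424644), (nat_lit 5997341)]) (PF.cons PF.nil (PF.cons PF.nil PF.nil)))))))))))) (PF.cons (PF.cons (PF.leaf (nat_lit 7316663) (nat_lit 3534392) (nat_lit 41987462) (nat_lit 8123215) [(nat_lit 0), (nat_lit 3534392), (nat_lit 6394957)]) (PF.cons (PF.leaf (nat_lit 7930538) (nat_lit 1318178) (nat_lit 40802201) (nat_lit 8046660) [(nat_lit 1318178), (nat_lit 3530635),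 (nat_lit 6349865)]) (PF.cons (PF.leaf (nat_lit 8547812) (nat_lit 1327509) (nat_lit 39633723) (nat_lit 7961727) [(nat_lit 1327509), (nat_lit 3520480), (nat_lit 6296904)]) (PF.cons (PF.leaf (nat_lit 9164356) (nat_lit 1333065)
 (nat_lit 38488876) (nat_lit 7869667) [(nat_lit 1333065), (nat_lit 3504655), (nat_lit 6237105)]) (PF.cons (PF.leaf (nat_lit 9776995) (nat_lit 1335376) (nat_lit 37372500) (nat_lit 7771681) [(nat_lit 1335376), (nat_lit 3483882), (nat_lit 6171478)]) (PF.cons (PF.leaf (nat_lit 10383256) (nat_lit 1334897) (nat_lit 36287924) (nat_lit 7668893) [(nat_lit 1334897), (nat_lit 3458842), (nat_lit 6100981)]) (PF.cons (PF.leaf (nat_lit 10981229) (nat_lit 1332025) (nat_lit 35237332) (nat_lit 7562325) [(nat_lit 1332025), (nat_lit 3430167), (nat_lit 6026499)]) (PF.cons (PF.leaf (nat_lit 11569440) (nat_lit 1327106) (nat_lit 34222025) (nat_lit 7452900) [(nat_lit 1327106), (nat_lit 3398434), (nat_lit 5948837)]) (PF.cons (PF.leaf (nat_lit 12146814) (nat_lit 1320445)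 (nat_lit 33242624) (nat_lit 7341434) [(nat_lit 1320445), (nat_lit 3364160), (nat_lit 5868711)]) (PF.cons PF.nil PF.nil)))))))))) (PF.cons (PF.cons (PF.leaf (nat_lit 8493087) (nat_lit 3495713) (nat_lit 38982595) (nat_lit 7895264) [(nat_lit 0), (nat_lit 3495713), (nat_lit 6248098)]) (PF.cons (PF.leaf (nat_lit 9093805) (nat_lit 1321125) (nat_lit 37880335) (nat_lit 7803187) [(nat_lit 1321125), (nat_lit 3479112), (nat_lit 6187715)]) (PF.cons
 (PF.leaf (nat_lit 9692534) (nat_lit 1323555) (nat_lit 36802829) (nat_lit 7705574) [(nat_lit 1323555), (nat_lit 3457849), (nat_lit 6121898)]) (PF.cons (PF.leaf (nat_lit 10286479) (nat_lit 1323208) (nat_lit 35753940) (nat_lit 7603481) [(nat_lit 1323208), (nat_lit 3432556), (nat_lit 6051537)]) (PF.cons (PF.leaf (nat_lit 10873518) (nat_lit 1320487) (nat_lit 34736238) (nat_lit 7497873) [(nat_lit 1320487), (nat_lit 3403823), (nat_lit 5977458)]) (PF.cons (PF.leaf (nat_lit 11452026) (nat_lit 1315741) (nat_lit 33751322) (nat_lit 7389617)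 [(nat_lit 1315741), (nat_lit 3372188), (nat_lit 5900412)]) (PF.cons (PF.leaf (nat_lit 12020774) (nat_lit 1309271) (nat_lit 32800054) (nat_lit 7279485) [(nat_lit 1309271), (nat_lit 3338142), (nat_lit 5821074)]) (PF.cons PF.nil PF.nil)))))))) (PF.cons (PF.cons (PF.leaf (nat_lit 9612631) (nat_lit 3431472) (nat_lit 36240539) (nat_lit 7639023) [(nat_lit 0), (nat_lit 3431472), (nat_lit 6071888)]) (PF.cons (PF.leaf (nat_lit 10193813) (nat_lit 1311211) (nat_lit 35227591) (nat_lit 7537882) [(nat_lit 1311211), (nat_lit 3406051), (nat_lit 6001870)]) (PF.cons (PF.leaf (nat_lit 10769650) (nat_lit 1308725) (nat_lit 34242783) (nat_lit 7433429) [(nat_lit 1308725),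
 (nat_lit 3377358), (nat_lit 5928354)]) (PF.cons (PF.leaf (nat_lit 11338264) (nat_lit 1304216) (nat_lit 33288105) (nat_lit 7326492) [(nat_lit 1304216), (nat_lit 3345903), (nat_lit 5852050)]) (PF.cons (PF.leaf (nat_lit 11898263) (nat_lit 1297989) (nat_lit 32364720) (nat_lit 7217807) [(nat_lit 1297989), (nat_lit 3312146), (nat_lit 5773595)]) (PF.cons PF.nil PF.nil)))))) (PF.cons (PF.cons (PF.leaf (nat_lit 10670163) (nat_lit 3350761) (nat_lit 33756141) (nat_lit 7368943) [(nat_lit 0), (nat_lit 3350761), (nat_lit 5879157)]) (PF.cons (PF.leaf (nat_lit 11228535) (nat_lit 1292507) (nat_lit 32831703) (nat_lit 7263484) [(nat_lit 1292507), (nat_lit 3319565), (nat_lit 5803725)]) (PF.cons (PF.leaf (nat_lit 11779564) (nat_lit 1286579) (nat_lit 31936065) (nat_lit 7156364) [(nat_lit 1286579), (nat_lit 3286161), (nat_lit 5726253)]) (PF.cons (PF.leaf (nat_lit 12322009) (nat_lit 1279194) (nat_lit 31070069) (nat_lit 7048202) [(nat_lit 1279194), (nat_lit 3250945), (nat_lit 5647283)])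 PF.nil)))) (PF.cons (PF.cons (PF.leaf (nat_lit 11665073) (nat_lit 3260173) (nat_lit 31513476) (nat_lit 7095109) [(nat_lit 0), (nat_lit 3260173), (nat_lit 5679014)]) (PF.cons (PF.leaf (nat_lit 12199327) (nat_lit 1267973)
 (nat_lit 30672914) (nat_lit 6988673) [(nat_lit 1267973), (nat_lit 3225437), (nat_lit 5601192)]) PF.nil)) (PF.cons PF.nil (PF.cons PF.nil (PF.cons PF.nil PF.nil))))))))))) (PF.cons (PF.cons (PF.cons (PF.leaf (nat_lit 5424795) (nat_lit 6455272) (nat_lit 45917650) (nat_lit 8280617) [(nat_lit 0), (nat_lit 0), (nat_lit 6455272)]) (PF.cons (PF.leaf (nat_lit 6010140) (nat_lit 1253037) (nat_lit 44725412) (nat_lit 8241156) [(nat_lit 1253037), (nat_lit 0), (nat_lit 6444603)]) (PF.cons (PF.leaf (nat_lit 6616373) (nat_lit 1279424) (nat_lit 43514901) (nat_lit 8189374) [(nat_lit 1279424), (nat_lit 0), (nat_lit 6422843)]) (PF.cons (PF.leaf (nat_lit 7235510) (nat_lit 1299582) (nat_lit 42302471) (nat_lit 8126244) [(nat_lit 1299582), (nat_lit 0), (nat_lit 6390674)])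 (PF.cons (PF.leaf (nat_lit 7861449) (nat_lit 1314447) (nat_lit 41099971) (nat_lit 8052962) [(nat_lit 1314447), (nat_lit 0), (nat_lit 6349043)]) (PF.cons (PF.leaf (nat_lit 8489403) (nat_lit 1324776) (nat_lit 39916076) (nat_lit 7970817) [(nat_lit 1324776), (nat_lit 0), (nat_lit 6299018)]) (PF.cons (PF.leaf (nat_lit 9115584) (nat_lit 1331199) (nat_lit 38757113) (nat_lit 7881107) [(nat_lit 1331199), (nat_lit 0), (nat_lit 6241696)]) (PF.cons
 (PF.leaf (nat_lit 9736996) (nat_lit 1334260) (nat_lit 37627618) (nat_lit 7785079) [(nat_lit 1334260), (nat_lit 0), (nat_lit 6178147)]) (PF.cons (PF.leaf (nat_lit 10351294) (nat_lit 1334426) (nat_lit 36530740) (nat_lit 7683900) [(nat_lit 1334426), (nat_lit 0), (nat_lit 6109380)]) (PF.cons (PF.leaf (nat_lit 10956655) (nat_lit 1332106) (nat_lit 35468553) (nat_lit 7578639) [(nat_lit 1332106), (nat_lit 0), (nat_lit 6036328)]) (PF.cons (PF.leaf (nat_lit 11551676) (nat_lit 1327660) (nat_lit 34442283) (nat_lit 7470255) [(nat_lit 1327660),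 (nat_lit 0), (nat_lit 5959834)]) (PF.cons PF.nil (PF.cons PF.nil (PF.cons PF.nil PF.nil)))))))))))))) (PF.cons (PF.cons (PF.leaf (nat_lit 6618001) (nat_lit 3498325) (nat_lit 42717794) (nat_lit 8129337) [(nat_lit 0), (nat_lit 3498325), (nat_lit 6381677)]) (PF.cons (PF.leaf (nat_lit 7214757) (nat_lit 1288137) (nat_lit 41560245) (nat_lit 8063940) [(nat_lit 1288137), (nat_lit 3503035), (nat_lit 6346727)]) (PF.cons (PF.leaf (nat_lit 7821293) (nat_lit 1303023) (nat_lit 40406914) (nat_lit 7989119) [(nat_lit 1303023), (nat_lit 3500594), (nat_lit 6303069)]) (PF.cons (PF.leaf (nat_lit 8432164) (nat_lit 1313339) (nat_lit 39267705) (nat_lit 7906071) [(nat_lit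
 1313339), (nat_lit 3491712), (nat_lit 6251651)]) (PF.cons (PF.leaf (nat_lit 9043190) (nat_lit 1319759) (nat_lit 38149708) (nat_lit 7815999) [(nat_lit 1319759), (nat_lit 3477124), (nat_lit 6193470)]) (PF.cons (PF.leaf (nat_lit 9651109) (nat_lit 1322842) (nat_lit 37057974) (nat_lit 7720063) [(nat_lit 1322842), (nat_lit 3457554), (nat_lit 6129504)]) (PF.cons (PF.leaf (nat_lit 10253361) (nat_lit 1323063) (nat_lit 35996022) (nat_lit 7619351) [(nat_lit 1323063), (nat_lit 3433681), (nat_lit 6060687)]) (PF.cons (PF.leaf (nat_lit 10847963) (nat_lit 1320834) (nat_lit 34966203) (nat_lit 7514862) [(nat_lit 1320834), (nat_lit 3406138), (nat_lit 5987883)]) (PF.cons (PF.leaf (nat_lit 11433390) (nat_lit 1316510) (nat_lit 33969975) (nat_lit 7407494) [(nat_lit 1316510), (nat_lit 3375499), (nat_lit 5911879)]) (PF.cons (PF.leaf (nat_lit 12008483) (nat_lit 1310402) (nat_lit 33008101) (nat_lit 7298047) [(nat_lit 1310402), (nat_lit 3342280), (nat_lit 5833380)]) (PF.cons PF.nil (PF.cons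 PF.nil PF.nil)))))))))))) (PF.cons (PF.cons (PF.leaf (nat_lit 7786963) (nat_lit 3477130) (nat_lit 39719424) (nat_lit 7923671) [(nat_lit 0), (nat_lit 3477130), (nat_lit 6255727)]) (PF.cons (PF.leaf (nat_lit 8379765)
 (nat_lit 1301217) (nat_lit 38626407) (nat_lit 7840229) [(nat_lit 1301217), (nat_lit 3467161), (nat_lit 6203317)]) (PF.cons (PF.leaf (nat_lit 8975043) (nat_lit 1307807) (nat_lit 37550166) (nat_lit 7750190) [(nat_lit 1307807), (nat_lit 3451826), (nat_lit 6144593)]) (PF.cons (PF.leaf (nat_lit 9569076) (nat_lit 1311042) (nat_lit 36496532) (nat_lit 7654655) [(nat_lit 1311042), (nat_lit 3431787), (nat_lit 6080462)]) (PF.cons (PF.leaf (nat_lit 10159032) (nat_lit 1311418) (nat_lit 35469553) (nat_lit 7554651) [(nat_lit 1311418), (nat_lit 3407674), (nat_lit 6011792)]) (PF.cons (PF.leaf (nat_lit 10742717) (nat_lit 1309356) (nat_lit 34471970) (nat_lit 7451120) [(nat_lit 1309356), (nat_lit 3380078), (nat_lit 5939391)]) (PF.cons (PF.leaf (nat_lit 11318442) (nat_lit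 1305215) (nat_lit 33505533) (nat_lit 7344911) [(nat_lit 1305215), (nat_lit 3349539), (nat_lit 5863998)]) (PF.cons (PF.leaf (nat_lit 11884917) (nat_lit 1299306) (nat_lit 32571246) (nat_lit 7236780) [(nat_lit 1299306), (nat_lit 3316545), (nat_lit 5786275)]) (PF.cons PF.nil (PF.cons PF.nil PF.nil)))))))))) (PF.cons (PF.cons (PF.leaf (nat_lit 8912131) (nat_lit 3426033) (nat_lit 36957039) (nat_lit 7683613) [(nat_lit 0), (nat_lit 3426033),
 (nat_lit 6095029)]) (PF.cons (PF.leaf (nat_lit 9491611) (nat_lit 1298811) (nat_lit 35942179) (nat_lit 7588805) [(nat_lit 1298811), (nat_lit 3405676), (nat_lit 6030992)]) (PF.cons (PF.leaf (nat_lit 10068855) (nat_lit 1299456) (nat_lit 34950454) (nat_lit 7489759) [(nat_lit 1299456), (nat_lit 3381446), (nat_lit 5962673)]) (PF.cons (PF.leaf (nat_lit 10641337) (nat_lit 1297646) (nat_lit 33985135) (nat_lit 7387379) [(nat_lit 1297646), (nat_lit 3353896), (nat_lit 5890834)]) (PF.cons (PF.leaf (nat_lit 11207155) (nat_lit 1293755) (nat_lit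 33048360) (nat_lit 7282476) [(nat_lit 1293755), (nat_lit 3323535), (nat_lit 5816174)]) (PF.cons (PF.leaf (nat_lit 11764865) (nat_lit 1288096) (nat_lit 32141429) (nat_lit 7175773) [(nat_lit 1288096), (nat_lit 3290827), (nat_lit 5739321)]) (PF.cons PF.nil (PF.cons PF.nil PF.nil)))))))) (PF.cons (PF.cons (PF.leaf (nat_lit 9983521) (nat_lit 3354981) (nat_lit 34437693) (nat_lit 7424613) [(nat_lit 0), (nat_lit 3354981), (nat_lit 5913289)]) (PF.cons (PF.leaf (nat_lit 10544307) (nat_lit 1285670) (nat_lit 33504883) (nat_lit 7323590) [(nat_lit 1285670), (nat_lit 3327577), (nat_lit 5842179)]) (PF.cons (PF.leaf (nat_lit 11099914) (nat_lit 1282102) (nat_lit 32597793)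
 (nat_lit 7220149) [(nat_lit 1282102), (nat_lit 3297475), (nat_lit 5768380)]) (PF.cons (PF.leaf (nat_lit 11648628) (nat_lit 1276752) (nat_lit 31718104) (nat_lit 7114991) [(nat_lit 1276752), (nat_lit 3265116), (nat_lit 5692495)]) (PF.cons (PF.leaf (nat_lit 12189203) (nat_lit 1269899) (nat_lit 30866776) (nat_lit 7008728) [(nat_lit 1269899), (nat_lit 3230897), (nat_lit 5615060)]) (PF.cons PF.nil PF.nil)))))) (PF.cons (PF.cons (PF.leaf (nat_lit 10997211) (nat_lit 3271340) (nat_lit 32153083) (nat_lit 7157871) [(nat_lit 0), (nat_lit 3271340), (nat_lit 5720576)]) (PF.cons (PF.leaf (nat_lit 11536551) (nat_lit 1265247) (nat_lit 31300662) (nat_lit 7054386) [(nat_lit 1265247), (nat_lit 3239396), (nat_lit 5645765)]) (PF.cons (PF.leaf (nat_lit 12068947) (nat_lit 1258743) (nat_lit 30474326) (nat_lit 6949824) [(nat_lit 1258743), (nat_lit 3205650), (nat_lit 5569460)]) (PF.cons PF.nil PF.nil)))) (PF.cons (PF.cons (PF.leaf (nat_lit 11952966) (nat_lit 3180427) (nat_lit 30087106)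 (nat_lit 6891142) [(nat_lit 0), (nat_lit 3180427), (nat_lit 5523998)]) (PF.cons PF.nil PF.nil)) (PF.cons PF.nil (PF.cons PF.nil (PF.cons PF.nil PF.nil)))))))))) (PF.cons (PF.cons (PF.cons (PF.leaf (nat_lit 7103478) (nat_lit
 6252931) (nat_lit 40409426) (nat_lit 7940591) [(nat_lit 0), (nat_lit 0), (nat_lit 6252931)]) (PF.cons (PF.leaf (nat_lit 7681644) (nat_lit 1275027) (nat_lit 39338847) (nat_lit 7866832) [(nat_lit 1275027), (nat_lit 0), (nat_lit 6209368)]) (PF.cons (PF.leaf (nat_lit 8268109) (nat_lit 1286733) (nat_lit 38274032) (nat_lit 7785415) [(nat_lit 1286733), (nat_lit 0), (nat_lit 6158632)]) (PF.cons (PF.leaf (nat_lit 8857891) (nat_lit 1294309) (nat_lit 37223587) (nat_lit 7697455) [(nat_lit 1294309), (nat_lit 0), (nat_lit 6101613)]) (PF.cons (PF.leaf (nat_lit 9447226) (nat_lit 1298403) (nat_lit 36193577) (nat_lit 7604022) [(nat_lit 1298403), (nat_lit 0), (nat_lit 6039199)]) (PF.cons (PF.leaf (nat_lit 10033186) (nat_lit 1299542) (nat_lit 35188258) (nat_lit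 7506121) [(nat_lit 1299542), (nat_lit 0), (nat_lit 5972241)]) (PF.cons (PF.leaf (nat_lit 10613504) (nat_lit 1298167) (nat_lit 34210545) (nat_lit 7404671) [(nat_lit 1298167), (nat_lit 0), (nat_lit 5901530)]) (PF.cons (PF.leaf (nat_lit 11186419) (nat_lit 1294653) (nat_lit 33262350) (nat_lit 7300507) [(nat_lit 1294653), (nat_lit 0), (nat_lit 5827794)]) (PF.cons (PF.leaf (nat_lit 11750598) (nat_lit 1289320) (nat_lit 32344819) (nat_lit 7194371)
 [(nat_lit 1289320), (nat_lit 0), (nat_lit 5751686)]) (PF.cons PF.nil PF.nil)))))))))) (PF.cons (PF.cons (PF.leaf (nat_lit 8224442) (nat_lit 3413443) (nat_lit 37647064) (nat_lit 7719011) [(nat_lit 0), (nat_lit 3413443), (nat_lit 6109764)]) (PF.cons (PF.leaf (nat_lit 8797450) (nat_lit 1281730) (nat_lit 36638915) (nat_lit 7631550) [(nat_lit 1281730), (nat_lit 3398912), (nat_lit 6052567)]) (PF.cons (PF.leaf (nat_lit 9372263) (nat_lit 1286169) (nat_lit 35646965) (nat_lit 7538865) [(nat_lit 1286169), (nat_lit 3379847), (nat_lit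 5990265)]) (PF.cons (PF.leaf (nat_lit 9945500) (nat_lit 1287605) (nat_lit 34676237) (nat_lit 7441927) [(nat_lit 1287605), (nat_lit 3356843), (nat_lit 5923662)]) (PF.cons (PF.leaf (nat_lit 10514603) (nat_lit 1286503) (nat_lit 33730180) (nat_lit 7341623) [(nat_lit 1286503), (nat_lit 3330461), (nat_lit 5853511)]) (PF.cons (PF.leaf (nat_lit 11077607) (nat_lit 1283251) (nat_lit 32811089) (nat_lit 7238752) [(nat_lit 1283251), (nat_lit 3301214), (nat_lit 5780499)]) (PF.cons (PF.leaf (nat_lit 11632993) (nat_lit 1278177) (nat_lit 31920405) (nat_lit 7134025) [(nat_lit 1278177), (nat_lit 3269567), (nat_lit 5705248)]) (PF.cons PF.nil PF.nil)))))))) (PF.cons (PF.cons (PF.leaf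
 (nat_lit 9302851) (nat_lit 3353634) (nat_lit 35105816) (nat_lit 7473179) [(nat_lit 0), (nat_lit 3353634), (nat_lit 5940849)]) (PF.cons (PF.leaf (nat_lit 9862650) (nat_lit 1275288) (nat_lit 34170304) (nat_lit 7377474) [(nat_lit 1275288), (nat_lit 3330647), (nat_lit 5874816)]) (PF.cons (PF.leaf (nat_lit 10420081) (nat_lit 1274561) (nat_lit 33256171) (nat_lit 7278519) [(nat_lit 1274561), (nat_lit 3304415), (nat_lit 5805389)]) (PF.cons (PF.leaf (nat_lit 10972840) (nat_lit 1271649) (nat_lit 32366229) (nat_lit 7177095) [(nat_lit 1271649), (nat_lit 3275426), (nat_lit 5733228)]) (PF.cons (PF.leaf (nat_lit 11519209) (nat_lit 1266894) (nat_lit 31502295) (nat_lit 7073893) [(nat_lit 1266894), (nat_lit 3244124), (nat_lit 5658931)]) (PF.cons (PF.leaf (nat_lit 12057877) (nat_lit 1260585) (nat_lit 30665456) (nat_lit 6969519) [(nat_lit 1260585), (nat_lit 3210910), (nat_lit 5583029)]) PF.nil)))))) (PF.cons (PF.cons (PF.leaf (nat_lit 10330587) (nat_lit 3278206) (nat_lit 32787572)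 (nat_lit 7215283) [(nat_lit 0), (nat_lit 3278206), (nat_lit 5757112)]) (PF.cons (PF.leaf (nat_lit 10872579) (nat_lit 1259810) (nat_lit 31927027) (nat_lit 7115477) [(nat_lit 1259810), (nat_lit 3249558), (nat_lit 5685941)])
 (PF.cons (PF.leaf (nat_lit 11409581) (nat_lit 1255442) (nat_lit 31089892) (nat_lit 7013927) [(nat_lit 1255442), (nat_lit 3218667), (nat_lit 5612701)]) (PF.cons (PF.leaf (nat_lit 11940031) (nat_lit 1249490) (nat_lit 30277614) (nat_lit 6911231) [(nat_lit 1249490), (nat_lit 3185919), (nat_lit 5537911)]) PF.nil)))) (PF.cons (PF.cons (PF.leaf (nat_lit 11304585) (nat_lit 3193173) (nat_lit 30682510) (nat_lit 6954065) [(nat_lit 0), (nat_lit 3193173), (nat_lit 5566514)]) (PF.cons (PF.leaf (nat_lit 11826406) (nat_lit 1238251) (nat_lit 29894848) (nat_lit 6853152) [(nat_lit 1238251), (nat_lit 3160947), (nat_lit 5492923)]) PF.nil)) (PF.cons PF.nil (PF.cons PF.nil (PF.cons PF.nil PF.nil)))))))) (PF.cons (PF.cons (PF.cons (PF.leaf (nat_lit 8633183) (nat_lit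 5960930) (nat_lit 35751501) (nat_lit 7513591) [(nat_lit 0), (nat_lit 0), (nat_lit 5960930)]) (PF.cons (PF.leaf (nat_lit 9187636) (nat_lit 1260579) (nat_lit 34820872) (nat_lit 7424174) [(nat_lit 1260579), (nat_lit 0), (nat_lit 5900796)]) (PF.cons (PF.leaf (nat_lit 9743414) (nat_lit 1263326) (nat_lit 33905545) (nat_lit 7330594) [(nat_lit 1263326), (nat_lit 0), (nat_lit 5836504)]) (PF.cons (PF.leaf (nat_lit 10297407) (nat_lit 1263366) (nat_lit
 33009905) (nat_lit 7233715) [(nat_lit 1263366), (nat_lit 0), (nat_lit 5768773)]) (PF.cons (PF.leaf (nat_lit 10847288) (nat_lit 1261136) (nat_lit 32136927) (nat_lit 7134308) [(nat_lit 1261136), (nat_lit 0), (nat_lit 5698257)]) (PF.cons (PF.leaf (nat_lit 11391280) (nat_lit 1256996) (nat_lit 31288570) (nat_lit 7033058) [(nat_lit 1256996), (nat_lit 0), (nat_lit 5625550)]) (PF.cons PF.nil (PF.cons PF.nil PF.nil)))))))) (PF.cons (PF.cons (PF.leaf (nat_lit 9668859) (nat_lit 3280081) (nat_lit 33410876) (nat_lit 7266455) [(nat_lit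 0), (nat_lit 3280081), (nat_lit 5787849)]) (PF.cons (PF.leaf (nat_lit 10210399) (nat_lit 1251108) (nat_lit 32547187) (nat_lit 7171144) [(nat_lit 1251108), (nat_lit 3255310), (nat_lit 5721015)]) (PF.cons (PF.leaf (nat_lit 10749515) (nat_lit 1249330) (nat_lit 31703109) (nat_lit 7073339) [(nat_lit 1249330), (nat_lit 3227795), (nat_lit 5651477)]) (PF.cons (PF.leaf (nat_lit 11284091) (nat_lit 1245590) (nat_lit 30881096) (nat_lit 6973720) [(nat_lit 1245590), (nat_lit 3197974), (nat_lit 5579812)]) (PF.cons (PF.leaf (nat_lit 11812560) (nat_lit 1240207) (nat_lit 30082721) (nat_lit 6872882) [(nat_lit 1240207), (nat_lit 3166235), (nat_lit 5506535)]) (PF.cons PF.nil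
 PF.nil)))))) (PF.cons (PF.cons (PF.leaf (nat_lit 10656876) (nat_lit 3202074) (nat_lit 31273888) (nat_lit 7012316) [(nat_lit 0), (nat_lit 3202074), (nat_lit 5604614)]) (PF.cons (PF.leaf (nat_lit 11181493) (nat_lit 1233969) (nat_lit 30478474) (nat_lit 6914474) [(nat_lit 1233969), (nat_lit 3172730), (nat_lit 5534108)]) (PF.cons (PF.leaf (nat_lit 11701329) (nat_lit 1229015) (nat_lit 29704315) (nat_lit 6815396) [(nat_lit 1229015), (nat_lit 3141508), (nat_lit 5462013)]) (PF.cons PF.nil PF.nil)))) (PF.cons (PF.cons (PF.leaf (nat_lit 11594770) (nat_lit 3116768) (nat_lit 29330209) (nat_lit 6758042) [(nat_lit 0), (nat_lit 3116768), (nat_lit 5417563)]) (PF.cons PF.nil PF.nil)) (PF.cons PF.nil (PF.cons PF.nil PF.nil)))))) (PF.cons (PF.cons (PF.cons (PF.leaf (nat_lit 10013200) (nat_lit 5637576) (nat_lit 31855867) (nat_lit 7065065) [(nat_lit 0), (nat_lit 0), (nat_lit 5637576)]) (PF.cons (PF.leaf (nat_lit 10537758) (nat_lit 1226673) (nat_lit 31057099) (nat_lit 6971045) [(nat_lit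 1226673), (nat_lit 0), (nat_lit 5570798)]) (PF.cons (PF.leaf (nat_lit 11059902) (nat_lit 1224090) (nat_lit 30276238) (nat_lit 6875112) [(nat_lit 1224090), (nat_lit 0), (nat_lit 5501856)]) (PF.cons (PF.leaf (nat_lit
 11577659) (nat_lit 1219736) (nat_lit 29515451) (nat_lit 6777864) [(nat_lit 1219736), (nat_lit 0), (nat_lit 5431257)]) (PF.cons PF.nil (PF.cons PF.nil PF.nil)))))) (PF.cons (PF.cons (PF.leaf (nat_lit 10964931) (nat_lit 3127225) (nat_lit 29882161) (nat_lit 6816467) [(nat_lit 0), (nat_lit 3127225), (nat_lit 5456591)]) (PF.cons (PF.leaf (nat_lit 11473436) (nat_lit 1208386) (nat_lit 29145468) (nat_lit 6721081) [(nat_lit 1208386), (nat_lit 3097592), (nat_lit 5387256)]) (PF.cons PF.nil (PF.cons PF.nil PF.nil)))) (PF.cons (PF.cons (PF.leaf (nat_lit 11869835) (nat_lit 3042455) (nat_lit 28083664) (nat_lit 6570015) [(nat_lit 0), (nat_lit 3042455), (nat_lit 5274044)]) (PF.cons PF.nil PF.nil)) (PF.cons PF.nil PF.nil)))) (PF.cons (PF.cons (PF.cons (PF.leaf (nat_lit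 11256893) (nat_lit 5313518) (nat_lit 28599580) (nat_lit 6628122) [(nat_lit 0), (nat_lit 0), (nat_lit 5313518)]) (PF.cons (PF.leaf (nat_lit 11750408) (nat_lit 1183229) (nat_lit 27915881) (nat_lit 6535503) [(nat_lit 1183229), (nat_lit 0), (nat_lit 5245699)]) PF.nil)) (PF.cons PF.nil PF.nil)) (PF.cons PF.nil (PF.cons PF.nil (PF.cons PF.nil PF.nil))))))))))

def p14_23_1_0 : pfC (piC [(nat_lit 28473124), (nat_lit 19449108), (nat_lit 12587812)] (nat_lit 11208580)) p14_23_1 (nat_lit 3) (nat_lit 0) (nat_lit 1) = true := by decide +kernel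
def p14_23_1_1 : pfC (piC [(nat_lit 28473124), (nat_lit 19449108), (nat_lit 12587812)] (nat_lit 11208580)) p14_23_1 (nat_lit 3) (nat_lit 1) (nat_lit 2) = true := by decide +kernel
def p14_23_1_2 : pfC (piC [(nat_lit 28473124), (nat_lit 19449108), (nat_lit 12587812)] (nat_lit 11208580)) p14_23_1 (nat_lit 3) (nat_lit 2) (nat_lit 3) = true := by decide +kernel
def p14_23_1_3 : pfC (piC [(nat_lit 28473124), (nat_lit 19449108), (nat_lit 12587812)] (nat_lit 11208580)) p14_23_1 (nat_lit 3) (nat_lit 3) (nat_lit 4) = true := by decide +kernel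
def p14_23_1_4 : pfC (piC [(nat_lit 28473124), (nat_lit 19449108), (nat_lit 12587812)] (nat_lit 11208580)) p14_23_1 (nat_lit 3) (nat_lit 4) (nat_lit 5) = true := by decide +kernel
def p14_23_1_5 : pfC (piC [(nat_lit 28473124), (nat_lit 19449108), (nat_lit 12587812)] (nat_lit 11208580)) p14_23_1 (nat_lit 3) (nat_lit 5) (nat_lit 6) = true := by decide +kernel
def p14_23_1_6 : pfC (piC [(nat_lit 28473124), (nat_lit 19449108), (nat_lit 12587812)] (nat_lit 11208580)) p14_23_1 (nat_lit 3) (nat_lit 6) (nat_lit 7) = true := by decide +kernel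
def p14_23_1_7 : pfC (piC [(nat_lit 28473124), (nat_lit 19449108), (nat_lit 12587812)] (nat_lit 11208580)) p14_23_1 (nat_lit 3) (nat_lit 7) (nat_lit 8) = true := by decide +kernel
def p14_23_1_8 : pfC (piC [(nat_lit 28473124), (nat_lit 19449108), (nat_lit 12587812)] (nat_lit 11208580)) p14_23_1 (nat_lit 3) (nat_lit 8) (nat_lit 9) = true := by decide +kernel
def p14_23_1_9 : pfC (piC [(nat_lit 28473124), (nat_lit 19449108), (nat_lit 12587812)] (nat_lit 11208580)) p14_23_1 (nat_lit 3) (nat_lit 9) (nat_lit 10) = true := by decide +kernel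
def p14_23_1_10 : pfC (piC [(nat_lit 28473124), (nat_lit 19449108), (nat_lit 12587812)] (nat_lit 11208580)) p14_23_1 (nat_lit 3) (nat_lit 10) (nat_lit 11) = true := by decide +kernel
def p14_23_1_11 : pfC (piC [(nat_lit 28473124), (nat_lit 19449108), (nat_lit 12587812)] (nat_lit 11208580)) p14_23_1 (nat_lit 3) (nat_lit 11) (nat_lit 12) = true := by decide +kernel
def p14_23_1_12 : pfC (piC [(nat_lit 28473124), (nat_lit 19449108), (nat_lit 12587812)] (nat_lit 11208580)) p14_23_1 (nat_lit 3) (nat_lit 12) (nat_lit 13) = true := by decide +kernel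
def p14_23_1_13 : pfC (piC [(nat_lit 28473124), (nat_lit 19449108), (nat_lit 12587812)] (nat_lit 11208580)) p14_23_1 (nat_lit 3) (nat_lit 13) (nat_lit 14) = true := by decide +kernel
def p14_23_1_14 : pfC (piC [(nat_lit 28473124), (nat_lit 19449108), (nat_lit 12587812)] (nat_lit 11208580)) p14_23_1 (nat_lit 3) (nat_lit 14) (nat_lit 15) = true := by decide +kernel
def p14_23_1_15 : pfC (piC [(nat_lit 28473124), (nat_lit 19449108), (nat_lit 12587812)] (nat_lit 11208580)) p14_23_1 (nat_lit 3) (nat_lit 15) (nat_lit 16) = true := by decide +kernel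
def p14_23_1_16 : pfC (piC [(nat_lit 28473124), (nat_lit 19449108), (nat_lit 12587812)] (nat_lit 11208580)) p14_23_1 (nat_lit 3) (nat_lit 16) (nat_lit 17) = true := by decide +kernel
def p14_23_1_17 : pfC (piC [(nat_lit 28473124), (nat_lit 19449108), (nat_lit 12587812)] (nat_lit 11208580)) p14_23_1 (nat_lit 3) (nat_lit 17) (nat_lit 18) = true := by decide +kernel
def p14_23_1_18 : pfC (piC [(nat_lit 28473124), (nat_lit 19449108), (nat_lit 12587812)] (nat_lit 11208580)) p14_23_1 (nat_lit 3) (nat_lit 18) (nat_lit 19) = true := by decide +kernel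
def p14_23_1_19 : pfC (piC [(nat_lit 28473124), (nat_lit 19449108), (nat_lit 12587812)] (nat_lit 11208580)) p14_23_1 (nat_lit 3) (nat_lit 19) (nat_lit 20) = true := by decide +kernel
def p14_23_1_20 : pfC (piC [(nat_lit 28473124), (nat_lit 19449108), (nat_lit 12587812)] (nat_lit 11208580)) p14_23_1 (nat_lit 3) (nat_lit 20) (nat_lit 21) = true := by decide +kernel
def p14_23_1_21 : pfC (piC [(nat_lit 28473124), (nat_lit 19449108), (nat_lit 12587812)] (nat_lit 11208580)) p14_23_1 (nat_lit 3) (nat_lit 21) (nat_lit 22) = true := by decide +kernel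
def p14_23_1_22 : pfC (piC [(nat_lit 28473124), (nat_lit 19449108), (nat_lit 12587812)] (nat_lit 11208580)) p14_23_1 (nat_lit 3) (nat_lit 22) (nat_lit 23) = true := by decide +kernel
def p14_23_1_23 : pfC (piC [(nat_lit 28473124), (nat_lit 19449108), (nat_lit 12587812)] (nat_lit 11208580)) p14_23_1 (nat_lit 3) (nat_lit 23) (nat_lit 24) = true := by decide +kernel
def p14_23_1_24 : pfC (piC [(nat_lit 28473124), (nat_lit 19449108), (nat_lit 12587812)] (nat_lit 11208580)) p14_23_1 (nat_lit 3) (nat_lit 24) (nat_lit 25) = true := by decide +kernel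
def p14_23_1_25 : pfC (piC [(nat_lit 28473124), (nat_lit 19449108), (nat_lit 12587812)] (nat_lit 11208580)) p14_23_1 (nat_lit 3) (nat_lit 25) (nat_lit 26) = true := by decide +kernel
def p14_23_1_26 : pfC (piC [(nat_lit 28473124), (nat_lit 19449108), (nat_lit 12587812)] (nat_lit 11208580)) p14_23_1 (nat_lit 3) (nat_lit 26) (nat_lit 27) = true := by decide +kernel
def p14_23_1_27 : pfC (piC [(nat_lit 28473124), (nat_lit 19449108), (nat_lit 12587812)] (nat_lit 11208580)) p14_23_1 (nat_lit 3) (nat_lit 27) (nat_lit 28) = true := by decide +kernel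
def p14_23_1_28 : pfC (piC [(nat_lit 28473124), (nat_lit 19449108), (nat_lit 12587812)] (nat_lit 11208580)) p14_23_1 (nat_lit 3) (nat_lit 28) (nat_lit 29) = true := by decide +kernel
def p14_23_1_29 : pfC (piC [(nat_lit 28473124), (nat_lit 19449108), (nat_lit 12587812)] (nat_lit 11208580)) p14_23_1 (nat_lit 3) (nat_lit 29) (nat_lit 30) = true := by decide +kernel
def p14_23_1_30 : pfC (piC [(nat_lit 28473124), (nat_lit 19449108), (nat_lit 12587812)] (nat_lit 11208580)) p14_23_1 (nat_lit 3) (nat_lit 30) (nat_lit 31) = true := by decide +kernel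
def p14_23_1_31 : pfC (piC [(nat_lit 28473124), (nat_lit 19449108), (nat_lit 12587812)] (nat_lit 11208580)) p14_23_1 (nat_lit 3) (nat_lit 31) (nat_lit 32) = true := by decide +kernel
def p14_23_1_32 : pfC (piC [(nat_lit 28473124), (nat_lit 19449108), (nat_lit 12587812)] (nat_lit 11208580)) p14_23_1 (nat_lit 3) (nat_lit 32) (nat_lit 33) = true := by decide +kernel
def p14_23_1_33 : pfC (piC [(nat_lit 28473124), (nat_lit 19449108), (nat_lit 12587812)] (nat_lit 11208580)) p14_23_1 (nat_lit 3) (nat_lit 33) (nat_lit 34) = true := by decide +kernel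
def p14_23_1_34 : pfC (piC [(nat_lit 28473124), (nat_lit 19449108), (nat_lit 12587812)] (nat_lit 11208580)) p14_23_1 (nat_lit 3) (nat_lit 34) (nat_lit 35) = true := by decide +kernel
def p14_23_1_35 : pfC (piC [(nat_lit 28473124), (nat_lit 19449108), (nat_lit 12587812)] (nat_lit 11208580)) p14_23_1 (nat_lit 3) (nat_lit 35) (nat_lit 36) = true := by decide +kernel
def p14_23_1_36 : pfC (piC [(nat_lit 28473124), (nat_lit 19449108), (nat_lit 12587812)] (nat_lit 11208580)) p14_23_1 (nat_lit 3) (nat_lit 36) (nat_lit 37) = true := by decide +kernel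
def p14_23_1_37 : pfC (piC [(nat_lit 28473124), (nat_lit 19449108), (nat_lit 12587812)] (nat_lit 11208580)) p14_23_1 (nat_lit 3) (nat_lit 37) (nat_lit 38) = true := by decide +kernel
def p14_23_1_38 : pfC (piC [(nat_lit 28473124), (nat_lit 19449108), (nat_lit 12587812)] (nat_lit 11208580)) p14_23_1 (nat_lit 3) (nat_lit 38) (nat_lit 39) = true := by decide +kernel
def p14_23_1_39 : pfC (piC [(nat_lit 28473124), (nat_lit 19449108), (nat_lit 12587812)] (nat_lit 11208580)) p14_23_1 (nat_lit 3) (nat_lit 39) (nat_lit 40) = true := by decide +kernel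
def p14_23_1_40 : pfC (piC [(nat_lit 28473124), (nat_lit 19449108), (nat_lit 12587812)] (nat_lit 11208580)) p14_23_1 (nat_lit 3) (nat_lit 40) (nat_lit 41) = true := by decide +kernel
def p14_23_1_41 : pfC (piC [(nat_lit 28473124), (nat_lit 19449108), (nat_lit 12587812)] (nat_lit 11208580)) p14_23_1 (nat_lit 3) (nat_lit 41) (nat_lit 42) = true := by decide +kernel
def p14_23_1_42 : pfC (piC [(nat_lit 28473124), (nat_lit 19449108), (nat_lit 12587812)] (nat_lit 11208580)) p14_23_1 (nat_lit 3) (nat_lit 42) (nat_lit 43) = true := by decide +kernel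
def p14_23_1_43 : pfC (piC [(nat_lit 28473124), (nat_lit 19449108), (nat_lit 12587812)] (nat_lit 11208580)) p14_23_1 (nat_lit 3) (nat_lit 43) (nat_lit 44) = true := by decide +kernel
def p14_23_1_44 : pfC (piC [(nat_lit 28473124), (nat_lit 19449108), (nat_lit 12587812)] (nat_lit 11208580)) p14_23_1 (nat_lit 3) (nat_lit 44) (nat_lit 45) = true := by decide +kernel
def p14_23_1_45 : pfC (piC [(nat_lit 28473124), (nat_lit 19449108), (nat_lit 12587812)] (nat_lit 11208580)) p14_23_1 (nat_lit 3) (nat_lit 45) (nat_lit 46) = true := by decide +kernel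
def p14_23_1_46 : pfC (piC [(nat_lit 28473124), (nat_lit 19449108), (nat_lit 12587812)] (nat_lit 11208580)) p14_23_1 (nat_lit 3) (nat_lit 46) (nat_lit 47) = true := by decide +kernel
def p14_23_1_47 : pfC (piC [(nat_lit 28473124), (nat_lit 19449108), (nat_lit 12587812)] (nat_lit 11208580)) p14_23_1 (nat_lit 3) (nat_lit 47) (nat_lit 48) = true := by decide +kernel
def p14_23_1_48 : pfC (piC [(nat_lit 28473124), (nat_lit 19449108), (nat_lit 12587812)] (nat_lit 11208580)) p14_23_1 (nat_lit 3) (nat_lit 48) (nat_lit 49) = true := by decide +kernel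
def p14_23_1_49 : pfC (piC [(nat_lit 28473124), (nat_lit 19449108), (nat_lit 12587812)] (nat_lit 11208580)) p14_23_1 (nat_lit 3) (nat_lit 49) (nat_lit 50) = true := by decide +kernel
def p14_23_1_50 : pfC (piC [(nat_lit 28473124), (nat_lit 19449108), (nat_lit 12587812)] (nat_lit 11208580)) p14_23_1 (nat_lit 3) (nat_lit 50) (nat_lit 51) = true := by decide +kernel
def p14_23_1_51 : pfC (piC [(nat_lit 28473124), (nat_lit 19449108), (nat_lit 12587812)] (nat_lit 11208580)) p14_23_1 (nat_lit 3) (nat_lit 51) (nat_lit 52) = true := by decide +kernel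
def p14_23_1_52 : pfC (piC [(nat_lit 28473124), (nat_lit 19449108), (nat_lit 12587812)] (nat_lit 11208580)) p14_23_1 (nat_lit 3) (nat_lit 52) (nat_lit 53) = true := by decide +kernel
def p14_23_1_53 : pfC (piC [(nat_lit 28473124), (nat_lit 19449108), (nat_lit 12587812)] (nat_lit 11208580)) p14_23_1 (nat_lit 3) (nat_lit 53) (nat_lit 54) = true := by decide +kernel
def p14_23_1_54 : pfC (piC [(nat_lit 28473124), (nat_lit 19449108), (nat_lit 12587812)] (nat_lit 11208580)) p14_23_1 (nat_lit 3) (nat_lit 54) (nat_lit 55) = true := by decide +kernel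
def p14_23_1_55 : pfC (piC [(nat_lit 28473124), (nat_lit 19449108), (nat_lit 12587812)] (nat_lit 11208580)) p14_23_1 (nat_lit 3) (nat_lit 55) (nat_lit 56) = true := by decide +kernel
def p14_23_1_56 : pfC (piC [(nat_lit 28473124), (nat_lit 19449108), (nat_lit 12587812)] (nat_lit 11208580)) p14_23_1 (nat_lit 3) (nat_lit 56) (nat_lit 57) = true := by decide +kernel
def p14_23_1_57 : pfC (piC [(nat_lit 28473124), (nat_lit 19449108), (nat_lit 12587812)] (nat_lit 11208580)) p14_23_1 (nat_lit 3) (nat_lit 57) (nat_lit 58) = true := by decide +kernel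
def p14_23_1_58 : pfC (piC [(nat_lit 28473124), (nat_lit 19449108), (nat_lit 12587812)] (nat_lit 11208580)) p14_23_1 (nat_lit 3) (nat_lit 58) (nat_lit 59) = true := by decide +kernel
def p14_23_1_59 : pfC (piC [(nat_lit 28473124), (nat_lit 19449108), (nat_lit 12587812)] (nat_lit 11208580)) p14_23_1 (nat_lit 3) (nat_lit 59) (nat_lit 60) = true := by decide +kernel
def p14_23_1_60 : pfC (piC [(nat_lit 28473124), (nat_lit 19449108), (nat_lit 12587812)] (nat_lit 11208580)) p14_23_1 (nat_lit 3) (nat_lit 60) (nat_lit 61) = true := by decide +kernel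
def p14_23_1_61 : pfC (piC [(nat_lit 28473124), (nat_lit 19449108), (nat_lit 12587812)] (nat_lit 11208580)) p14_23_1 (nat_lit 3) (nat_lit 61) (nat_lit 62) = true := by decide +kernel
def p14_23_1_62 : pfC (piC [(nat_lit 28473124), (nat_lit 19449108), (nat_lit 12587812)] (nat_lit 11208580)) p14_23_1 (nat_lit 3) (nat_lit 62) (nat_lit 63) = true := by decide +kernel
def p14_23_1_63 : pfC (piC [(nat_lit 28473124), (nat_lit 19449108), (nat_lit 12587812)] (nat_lit 11208580)) p14_23_1 (nat_lit 3) (nat_lit 63) (nat_lit 64) = true := by decide +kernel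
def p14_23_1_64 : pfC (piC [(nat_lit 28473124), (nat_lit 19449108), (nat_lit 12587812)] (nat_lit 11208580)) p14_23_1 (nat_lit 3) (nat_lit 64) (nat_lit 65) = true := by decide +kernel
def p14_23_1_65 : pfC (piC [(nat_lit 28473124), (nat_lit 19449108), (nat_lit 12587812)] (nat_lit 11208580)) p14_23_1 (nat_lit 3) (nat_lit 65) (nat_lit 66) = true := by decide +kernel
def p14_23_1_66 : pfC (piC [(nat_lit 28473124), (nat_lit 19449108), (nat_lit 12587812)] (nat_lit 11208580)) p14_23_1 (nat_lit 3) (nat_lit 66) (nat_lit 67) = true := by decide +kernel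
def p14_23_1_67 : pfC (piC [(nat_lit 28473124), (nat_lit 19449108), (nat_lit 12587812)] (nat_lit 11208580)) p14_23_1 (nat_lit 3) (nat_lit 67) (nat_lit 68) = true := by decide +kernel
def p14_23_1_68 : pfC (piC [(nat_lit 28473124), (nat_lit 19449108), (nat_lit 12587812)] (nat_lit 11208580)) p14_23_1 (nat_lit 3) (nat_lit 68) (nat_lit 69) = true := by decide +kernel
def p14_23_1_69 : pfC (piC [(nat_lit 28473124), (nat_lit 19449108), (nat_lit 12587812)] (nat_lit 11208580)) p14_23_1 (nat_lit 3) (nat_lit 69) (nat_lit 70) = true := by decide +kernel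
def p14_23_1_70 : pfC (piC [(nat_lit 28473124), (nat_lit 19449108), (nat_lit 12587812)] (nat_lit 11208580)) p14_23_1 (nat_lit 3) (nat_lit 70) (nat_lit 71) = true := by decide +kernel
def p14_23_1_71 : pfC (piC [(nat_lit 28473124), (nat_lit 19449108), (nat_lit 12587812)] (nat_lit 11208580)) p14_23_1 (nat_lit 3) (nat_lit 71) (nat_lit 72) = true := by decide +kernel
def p14_23_1_72 : pfC (piC [(nat_lit 28473124), (nat_lit 19449108), (nat_lit 12587812)] (nat_lit 11208580)) p14_23_1 (nat_lit 3) (nat_lit 72) (nat_lit 73) = true := by decide +kernel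
def p14_23_1_73 : pfC (piC [(nat_lit 28473124), (nat_lit 19449108), (nat_lit 12587812)] (nat_lit 11208580)) p14_23_1 (nat_lit 3) (nat_lit 73) (nat_lit 74) = true := by decide +kernel
def p14_23_1_74 : pfC (piC [(nat_lit 28473124), (nat_lit 19449108), (nat_lit 12587812)] (nat_lit 11208580)) p14_23_1 (nat_lit 3) (nat_lit 74) (nat_lit 75) = true := by decide +kernel
def p14_23_1_75 : pfC (piC [(nat_lit 28473124), (nat_lit 19449108), (nat_lit 12587812)] (nat_lit 11208580)) p14_23_1 (nat_lit 3) (nat_lit 75) (nat_lit 76) = true := by decide +kernel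
def p14_23_1_76 : pfC (piC [(nat_lit 28473124), (nat_lit 19449108), (nat_lit 12587812)] (nat_lit 11208580)) p14_23_1 (nat_lit 3) (nat_lit 76) (nat_lit 77) = true := by decide +kernel
def p14_23_1_77 : pfC (piC [(nat_lit 28473124), (nat_lit 19449108), (nat_lit 12587812)] (nat_lit 11208580)) p14_23_1 (nat_lit 3) (nat_lit 77) (nat_lit 78) = true := by decide +kernel
def p14_23_1_78 : pfC (piC [(nat_lit 28473124), (nat_lit 19449108), (nat_lit 12587812)] (nat_lit 11208580)) p14_23_1 (nat_lit 3) (nat_lit 78) (nat_lit 79) = true := by decide +kernel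
def p14_23_1_79 : pfC (piC [(nat_lit 28473124), (nat_lit 19449108), (nat_lit 12587812)] (nat_lit 11208580)) p14_23_1 (nat_lit 3) (nat_lit 79) (nat_lit 80) = true := by decide +kernel
def p14_23_1_80 : pfC (piC [(nat_lit 28473124), (nat_lit 19449108), (nat_lit 12587812)] (nat_lit 11208580)) p14_23_1 (nat_lit 3) (nat_lit 80) (nat_lit 81) = true := by decide +kernel
def p14_23_1_81 : pfC (piC [(nat_lit 28473124), (nat_lit 19449108), (nat_lit 12587812)] (nat_lit 11208580)) p14_23_1 (nat_lit 3) (nat_lit 81) (nat_lit 82) = true := by decide +kernel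
def p14_23_1_82 : pfC (piC [(nat_lit 28473124), (nat_lit 19449108), (nat_lit 12587812)] (nat_lit 11208580)) p14_23_1 (nat_lit 3) (nat_lit 82) (nat_lit 83) = true := by decide +kernel
def p14_23_1_83 : pfC (piC [(nat_lit 28473124), (nat_lit 19449108), (nat_lit 12587812)] (nat_lit 11208580)) p14_23_1 (nat_lit 3) (nat_lit 83) (nat_lit 84) = true := by decide +kernel
def p14_23_1_84 : pfC (piC [(nat_lit 28473124), (nat_lit 19449108), (nat_lit 12587812)] (nat_lit 11208580)) p14_23_1 (nat_lit 3) (nat_lit 84) (nat_lit 85) = true := by decide +kernel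
def p14_23_1_85 : pfC (piC [(nat_lit 28473124), (nat_lit 19449108), (nat_lit 12587812)] (nat_lit 11208580)) p14_23_1 (nat_lit 3) (nat_lit 85) (nat_lit 86) = true := by decide +kernel
def p14_23_1_86 : pfC (piC [(nat_lit 28473124), (nat_lit 19449108), (nat_lit 12587812)] (nat_lit 11208580)) p14_23_1 (nat_lit 3) (nat_lit 86) (nat_lit 87) = true := by decide +kernel
def p14_23_1_87 : pfC (piC [(nat_lit 28473124), (nat_lit 19449108), (nat_lit 12587812)] (nat_lit 11208580)) p14_23_1 (nat_lit 3) (nat_lit 87) (nat_lit 88) = true := by decide +kernel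
def p14_23_1_88 : pfC (piC [(nat_lit 28473124), (nat_lit 19449108), (nat_lit 12587812)] (nat_lit 11208580)) p14_23_1 (nat_lit 3) (nat_lit 88) (nat_lit 89) = true := by decide +kernel
def p14_23_1_89 : pfC (piC [(nat_lit 28473124), (nat_lit 19449108), (nat_lit 12587812)] (nat_lit 11208580)) p14_23_1 (nat_lit 3) (nat_lit 89) (nat_lit 90) = true := by decide +kernel
def p14_23_1_90 : pfC (piC [(nat_lit 28473124), (nat_lit 19449108), (nat_lit 12587812)] (nat_lit 11208580)) p14_23_1 (nat_lit 3) (nat_lit 90) (nat_lit 91) = true := by decide +kernel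
def p14_23_1_91 : pfC (piC [(nat_lit 28473124), (nat_lit 19449108), (nat_lit 12587812)] (nat_lit 11208580)) p14_23_1 (nat_lit 3) (nat_lit 91) (nat_lit 92) = true := by decide +kernel
def p14_23_1_92 : pfC (piC [(nat_lit 28473124), (nat_lit 19449108), (nat_lit 12587812)] (nat_lit 11208580)) p14_23_1 (nat_lit 3) (nat_lit 92) (nat_lit 93) = true := by decide +kernel
def p14_23_1_93 : pfC (piC [(nat_lit 28473124), (nat_lit 19449108), (nat_lit 12587812)] (nat_lit 11208580)) p14_23_1 (nat_lit 3) (nat_lit 93) (nat_lit 94) = true := by decide +kernel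
def p14_23_1_94 : pfC (piC [(nat_lit 28473124), (nat_lit 19449108), (nat_lit 12587812)] (nat_lit 11208580)) p14_23_1 (nat_lit 3) (nat_lit 94) (nat_lit 95) = true := by decide +kernel
def p14_23_1_95 : pfC (piC [(nat_lit 28473124), (nat_lit 19449108), (nat_lit 12587812)] (nat_lit 11208580)) p14_23_1 (nat_lit 3) (nat_lit 95) (nat_lit 96) = true := by decide +kernel
def p14_23_1_96 : pfC (piC [(nat_lit 28473124), (nat_lit 19449108), (nat_lit 12587812)] (nat_lit 11208580)) p14_23_1 (nat_lit 3) (nat_lit 96) (nat_lit 97) = true := by decide +kernel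
def p14_23_1_97 : pfC (piC [(nat_lit 28473124), (nat_lit 19449108), (nat_lit 12587812)] (nat_lit 11208580)) p14_23_1 (nat_lit 3) (nat_lit 97) (nat_lit 98) = true := by decide +kernel
def p14_23_1_98 : pfC (piC [(nat_lit 28473124), (nat_lit 19449108), (nat_lit 12587812)] (nat_lit 11208580)) p14_23_1 (nat_lit 3) (nat_lit 98) (nat_lit 99) = true := by decide +kernel
def p14_23_1_99 : pfC (piC [(nat_lit 28473124), (nat_lit 19449108), (nat_lit 12587812)] (nat_lit 11208580)) p14_23_1 (nat_lit 3) (nat_lit 99) (nat_lit 100) = true := by decide +kernel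
def p14_23_1_100 : pfC (piC [(nat_lit 28473124), (nat_lit 19449108), (nat_lit 12587812)] (nat_lit 11208580)) p14_23_1 (nat_lit 3) (nat_lit 100) (nat_lit 101) = true := by decide +kernel
def p14_23_1_101 : pfC (piC [(nat_lit 28473124), (nat_lit 19449108), (nat_lit 12587812)] (nat_lit 11208580)) p14_23_1 (nat_lit 3) (nat_lit 101) (nat_lit 102) = true := by decide +kernel
def p14_23_1_102 : pfC (piC [(nat_lit 28473124), (nat_lit 19449108), (nat_lit 12587812)] (nat_lit 11208580)) p14_23_1 (nat_lit 3) (nat_lit 102) (nat_lit 103) = true := by decide +kernel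
def p14_23_1_103 : pfC (piC [(nat_lit 28473124), (nat_lit 19449108), (nat_lit 12587812)] (nat_lit 11208580)) p14_23_1 (nat_lit 3) (nat_lit 103) (nat_lit 104) = true := by decide +kernel
def p14_23_1_104 : pfC (piC [(nat_lit 28473124), (nat_lit 19449108), (nat_lit 12587812)] (nat_lit 11208580)) p14_23_1 (nat_lit 3) (nat_lit 104) (nat_lit 105) = true := by decide +kernel
def p14_23_1_105 : pfC (piC [(nat_lit 28473124), (nat_lit 19449108), (nat_lit 12587812)] (nat_lit 11208580)) p14_23_1 (nat_lit 3) (nat_lit 105) (nat_lit 106) = true := by decide +kernel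
def p14_23_1_106 : pfC (piC [(nat_lit 28473124), (nat_lit 19449108), (nat_lit 12587812)] (nat_lit 11208580)) p14_23_1 (nat_lit 3) (nat_lit 106) (nat_lit 107) = true := by decide +kernel
def p14_23_1_107 : pfC (piC [(nat_lit 28473124), (nat_lit 19449108), (nat_lit 12587812)] (nat_lit 11208580)) p14_23_1 (nat_lit 3) (nat_lit 107) (nat_lit 108) = true := by decide +kernel
def p14_23_1_108 : pfC (piC [(nat_lit 28473124), (nat_lit 19449108), (nat_lit 12587812)] (nat_lit 11208580)) p14_23_1 (nat_lit 3) (nat_lit 108) (nat_lit 109) = true := by decide +kernel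
def p14_23_1_109 : pfC (piC [(nat_lit 28473124), (nat_lit 19449108), (nat_lit 12587812)] (nat_lit 11208580)) p14_23_1 (nat_lit 3) (nat_lit 109) (nat_lit 110) = true := by decide +kernel
def p14_23_1_110 : pfC (piC [(nat_lit 28473124), (nat_lit 19449108), (nat_lit 12587812)] (nat_lit 11208580)) p14_23_1 (nat_lit 3) (nat_lit 110) (nat_lit 111) = true := by decide +kernel
def p14_23_1_111 : pfC (piC [(nat_lit 28473124), (nat_lit 19449108), (nat_lit 12587812)] (nat_lit 11208580)) p14_23_1 (nat_lit 3) (nat_lit 111) (nat_lit 112) = true := by decide +kernel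
def p14_23_1_112 : pfC (piC [(nat_lit 28473124), (nat_lit 19449108), (nat_lit 12587812)] (nat_lit 11208580)) p14_23_1 (nat_lit 3) (nat_lit 112) (nat_lit 113) = true := by decide +kernel
def p14_23_1_113 : pfC (piC [(nat_lit 28473124), (nat_lit 19449108), (nat_lit 12587812)] (nat_lit 11208580)) p14_23_1 (nat_lit 3) (nat_lit 113) (nat_lit 114) = true := by decide +kernel
def p14_23_1_114 : pfC (piC [(nat_lit 28473124), (nat_lit 19449108), (nat_lit 12587812)] (nat_lit 11208580)) p14_23_1 (nat_lit 3) (nat_lit 114) (nat_lit 115) = true := by decide +kernel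
def p14_23_1_115 : pfC (piC [(nat_lit 28473124), (nat_lit 19449108), (nat_lit 12587812)] (nat_lit 11208580)) p14_23_1 (nat_lit 3) (nat_lit 115) (nat_lit 116) = true := by decide +kernel
def p14_23_1_116 : pfC (piC [(nat_lit 28473124), (nat_lit 19449108), (nat_lit 12587812)] (nat_lit 11208580)) p14_23_1 (nat_lit 3) (nat_lit 116) (nat_lit 117) = true := by decide +kernel
def p14_23_1_117 : pfC (piC [(nat_lit 28473124), (nat_lit 19449108), (nat_lit 12587812)] (nat_lit 11208580)) p14_23_1 (nat_lit 3) (nat_lit 117) (nat_lit 118) = true := by decide +kernel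
def p14_23_1_118 : pfC (piC [(nat_lit 28473124), (nat_lit 19449108), (nat_lit 12587812)] (nat_lit 11208580)) p14_23_1 (nat_lit 3) (nat_lit 118) (nat_lit 119) = true := by decide +kernel
def p14_23_1_119 : pfC (piC [(nat_lit 28473124), (nat_lit 19449108), (nat_lit 12587812)] (nat_lit 11208580)) p14_23_1 (nat_lit 3) (nat_lit 119) (nat_lit 120) = true := by decide +kernel
def p14_23_1_120 : pfC (piC [(nat_lit 28473124), (nat_lit 19449108), (nat_lit 12587812)] (nat_lit 11208580)) p14_23_1 (nat_lit 3) (nat_lit 120) (nat_lit 121) = true := by decide +kernel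
def p14_23_1_121 : pfC (piC [(nat_lit 28473124), (nat_lit 19449108), (nat_lit 12587812)] (nat_lit 11208580)) p14_23_1 (nat_lit 3) (nat_lit 121) (nat_lit 122) = true := by decide +kernel
def p14_23_1_122 : pfC (piC [(nat_lit 28473124), (nat_lit 19449108), (nat_lit 12587812)] (nat_lit 11208580)) p14_23_1 (nat_lit 3) (nat_lit 122) (nat_lit 123) = true := by decide +kernel
def p14_23_1_123 : pfC (piC [(nat_lit 28473124), (nat_lit 19449108), (nat_lit 12587812)] (nat_lit 11208580)) p14_23_1 (nat_lit 3) (nat_lit 123) (nat_lit 124) = true := by decide +kernel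
def p14_23_1_124 : pfC (piC [(nat_lit 28473124), (nat_lit 19449108), (nat_lit 12587812)] (nat_lit 11208580)) p14_23_1 (nat_lit 3) (nat_lit 124) (nat_lit 125) = true := by decide +kernel
def p14_23_1_125 : pfC (piC [(nat_lit 28473124), (nat_lit 19449108), (nat_lit 12587812)] (nat_lit 11208580)) p14_23_1 (nat_lit 3) (nat_lit 125) (nat_lit 126) = true := by decide +kernel
def p14_23_1_126 : pfC (piC [(nat_lit 28473124), (nat_lit 19449108), (nat_lit 12587812)] (nat_lit 11208580)) p14_23_1 (nat_lit 3) (nat_lit 126) (nat_lit 127) = true := by decide +kernel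
def p14_23_1_127 : pfC (piC [(nat_lit 28473124), (nat_lit 19449108), (nat_lit 12587812)] (nat_lit 11208580)) p14_23_1 (nat_lit 3) (nat_lit 127) (nat_lit 128) = true := by decide +kernel
def p14_23_1_128 : pfC (piC [(nat_lit 28473124), (nat_lit 19449108), (nat_lit 12587812)] (nat_lit 11208580)) p14_23_1 (nat_lit 3) (nat_lit 128) (nat_lit 129) = true := by decide +kernel
def p14_23_1_129 : pfC (piC [(nat_lit 28473124), (nat_lit 19449108), (nat_lit 12587812)] (nat_lit 11208580)) p14_23_1 (nat_lit 3) (nat_lit 129) (nat_lit 130) = true := by decide +kernel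
def p14_23_1_130 : pfC (piC [(nat_lit 28473124), (nat_lit 19449108), (nat_lit 12587812)] (nat_lit 11208580)) p14_23_1 (nat_lit 3) (nat_lit 130) (nat_lit 131) = true := by decide +kernel
def p14_23_1_131 : pfC (piC [(nat_lit 28473124), (nat_lit 19449108), (nat_lit 12587812)] (nat_lit 11208580)) p14_23_1 (nat_lit 3) (nat_lit 131) (nat_lit 132) = true := by decide +kernel
def p14_23_1_132 : pfC (piC [(nat_lit 28473124), (nat_lit 19449108), (nat_lit 12587812)] (nat_lit 11208580)) p14_23_1 (nat_lit 3) (nat_lit 132) (nat_lit 133) = true := by decide +kernel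
def p14_23_1_133 : pfC (piC [(nat_lit 28473124), (nat_lit 19449108), (nat_lit 12587812)] (nat_lit 11208580)) p14_23_1 (nat_lit 3) (nat_lit 133) (nat_lit 134) = true := by decide +kernel
def p14_23_1_134 : pfC (piC [(nat_lit 28473124), (nat_lit 19449108), (nat_lit 12587812)] (nat_lit 11208580)) p14_23_1 (nat_lit 3) (nat_lit 134) (nat_lit 135) = true := by decide +kernel
def p14_23_1_135 : pfC (piC [(nat_lit 28473124), (nat_lit 19449108), (nat_lit 12587812)] (nat_lit 11208580)) p14_23_1 (nat_lit 3) (nat_lit 135) (nat_lit 136) = true := by decide +kernel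
def p14_23_1_136 : pfC (piC [(nat_lit 28473124), (nat_lit 19449108), (nat_lit 12587812)] (nat_lit 11208580)) p14_23_1 (nat_lit 3) (nat_lit 136) (nat_lit 137) = true := by decide +kernel
def p14_23_1_137 : pfC (piC [(nat_lit 28473124), (nat_lit 19449108), (nat_lit 12587812)] (nat_lit 11208580)) p14_23_1 (nat_lit 3) (nat_lit 137) (nat_lit 138) = true := by decide +kernel
def p14_23_1_138 : pfC (piC [(nat_lit 28473124), (nat_lit 19449108), (nat_lit 12587812)] (nat_lit 11208580)) p14_23_1 (nat_lit 3) (nat_lit 138) (nat_lit 139) = true := by decide +kernel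
def p14_23_1_139 : pfC (piC [(nat_lit 28473124), (nat_lit 19449108), (nat_lit 12587812)] (nat_lit 11208580)) p14_23_1 (nat_lit 3) (nat_lit 139) (nat_lit 140) = true := by decide +kernel
def p14_23_1_140 : pfC (piC [(nat_lit 28473124), (nat_lit 19449108), (nat_lit 12587812)] (nat_lit 11208580)) p14_23_1 (nat_lit 3) (nat_lit 140) (nat_lit 141) = true := by decide +kernel
def p14_23_1_141 : pfC (piC [(nat_lit 28473124), (nat_lit 19449108), (nat_lit 12587812)] (nat_lit 11208580)) p14_23_1 (nat_lit 3) (nat_lit 141) (nat_lit 142) = true := by decide +kernel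
def p14_23_1_142 : pfC (piC [(nat_lit 28473124), (nat_lit 19449108), (nat_lit 12587812)] (nat_lit 11208580)) p14_23_1 (nat_lit 3) (nat_lit 142) (nat_lit 143) = true := by decide +kernel
def p14_23_1_143 : pfC (piC [(nat_lit 28473124), (nat_lit 19449108), (nat_lit 12587812)] (nat_lit 11208580)) p14_23_1 (nat_lit 3) (nat_lit 143) (nat_lit 144) = true := by decide +kernel
def p14_23_1_144 : pfC (piC [(nat_lit 28473124), (nat_lit 19449108), (nat_lit 12587812)] (nat_lit 11208580)) p14_23_1 (nat_lit 3) (nat_lit 144) (nat_lit 145) = true := by decide +kernel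
def p14_23_1_145 : pfC (piC [(nat_lit 28473124), (nat_lit 19449108), (nat_lit 12587812)] (nat_lit 11208580)) p14_23_1 (nat_lit 3) (nat_lit 145) (nat_lit 146) = true := by decide +kernel
def p14_23_1_146 : pfC (piC [(nat_lit 28473124), (nat_lit 19449108), (nat_lit 12587812)] (nat_lit 11208580)) p14_23_1 (nat_lit 3) (nat_lit 146) (nat_lit 147) = true := by decide +kernel
def p14_23_1_147 : pfC (piC [(nat_lit 28473124), (nat_lit 19449108), (nat_lit 12587812)] (nat_lit 11208580)) p14_23_1 (nat_lit 3) (nat_lit 147) (nat_lit 148) = true := by decide +kernel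
def p14_23_1_148 : pfC (piC [(nat_lit 28473124), (nat_lit 19449108), (nat_lit 12587812)] (nat_lit 11208580)) p14_23_1 (nat_lit 3) (nat_lit 148) (nat_lit 149) = true := by decide +kernel
def p14_23_1_149 : pfC (piC [(nat_lit 28473124), (nat_lit 19449108), (nat_lit 12587812)] (nat_lit 11208580)) p14_23_1 (nat_lit 3) (nat_lit 149) (nat_lit 150) = true := by decide +kernel
def p14_23_1_150 : pfC (piC [(nat_lit 28473124), (nat_lit 19449108), (nat_lit 12587812)] (nat_lit 11208580)) p14_23_1 (nat_lit 3) (nat_lit 150) (nat_lit 151) = true := by decide +kernel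
def p14_23_1_151 : pfC (piC [(nat_lit 28473124), (nat_lit 19449108), (nat_lit 12587812)] (nat_lit 11208580)) p14_23_1 (nat_lit 3) (nat_lit 151) (nat_lit 152) = true := by decide +kernel
def p14_23_1_152 : pfC (piC [(nat_lit 28473124), (nat_lit 19449108), (nat_lit 12587812)] (nat_lit 11208580)) p14_23_1 (nat_lit 3) (nat_lit 152) (nat_lit 153) = true := by decide +kernel
def p14_23_1_153 : pfC (piC [(nat_lit 28473124), (nat_lit 19449108), (nat_lit 12587812)] (nat_lit 11208580)) p14_23_1 (nat_lit 3) (nat_lit 153) (nat_lit 154) = true := by decide +kernel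
def p14_23_1_154 : pfC (piC [(nat_lit 28473124), (nat_lit 19449108), (nat_lit 12587812)] (nat_lit 11208580)) p14_23_1 (nat_lit 3) (nat_lit 154) (nat_lit 155) = true := by decide +kernel
def p14_23_1_155 : pfC (piC [(nat_lit 28473124), (nat_lit 19449108), (nat_lit 12587812)] (nat_lit 11208580)) p14_23_1 (nat_lit 3) (nat_lit 155) (nat_lit 156) = true := by decide +kernel
def p14_23_1_156 : pfC (piC [(nat_lit 28473124), (nat_lit 19449108), (nat_lit 12587812)] (nat_lit 11208580)) p14_23_1 (nat_lit 3) (nat_lit 156) (nat_lit 157) = true := by decide +kernel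
def p14_23_1_157 : pfC (piC [(nat_lit 28473124), (nat_lit 19449108), (nat_lit 12587812)] (nat_lit 11208580)) p14_23_1 (nat_lit 3) (nat_lit 157) (nat_lit 158) = true := by decide +kernel
def p14_23_1_158 : pfC (piC [(nat_lit 28473124), (nat_lit 19449108), (nat_lit 12587812)] (nat_lit 11208580)) p14_23_1 (nat_lit 3) (nat_lit 158) (nat_lit 159) = true := by decide +kernel
def p14_23_1_159 : pfC (piC [(nat_lit 28473124), (nat_lit 19449108), (nat_lit 12587812)] (nat_lit 11208580)) p14_23_1 (nat_lit 3) (nat_lit 159) (nat_lit 160) = true := by decide +kernel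
def p14_23_1_160 : pfC (piC [(nat_lit 28473124), (nat_lit 19449108), (nat_lit 12587812)] (nat_lit 11208580)) p14_23_1 (nat_lit 3) (nat_lit 160) (nat_lit 161) = true := by decide +kernel
def p14_23_1_161 : pfC (piC [(nat_lit 28473124), (nat_lit 19449108), (nat_lit 12587812)] (nat_lit 11208580)) p14_23_1 (nat_lit 3) (nat_lit 161) (nat_lit 162) = true := by decide +kernel
def p14_23_1_162 : pfC (piC [(nat_lit 28473124), (nat_lit 19449108), (nat_lit 12587812)] (nat_lit 11208580)) p14_23_1 (nat_lit 3) (nat_lit 162) (nat_lit 163) = true := by decide +kernel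
def p14_23_1_163 : pfC (piC [(nat_lit 28473124), (nat_lit 19449108), (nat_lit 12587812)] (nat_lit 11208580)) p14_23_1 (nat_lit 3) (nat_lit 163) (nat_lit 164) = true := by decide +kernel
def p14_23_1_164 : pfC (piC [(nat_lit 28473124), (nat_lit 19449108), (nat_lit 12587812)] (nat_lit 11208580)) p14_23_1 (nat_lit 3) (nat_lit 164) (nat_lit 165) = true := by decide +kernel
def p14_23_1_165 : pfC (piC [(nat_lit 28473124), (nat_lit 19449108), (nat_lit 12587812)] (nat_lit 11208580)) p14_23_1 (nat_lit 3) (nat_lit 165) (nat_lit 166) = true := by decide +kernel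
def p14_23_1_166 : pfC (piC [(nat_lit 28473124), (nat_lit 19449108), (nat_lit 12587812)] (nat_lit 11208580)) p14_23_1 (nat_lit 3) (nat_lit 166) (nat_lit 167) = true := by decide +kernel
def p14_23_1_167 : pfC (piC [(nat_lit 28473124), (nat_lit 19449108), (nat_lit 12587812)] (nat_lit 11208580)) p14_23_1 (nat_lit 3) (nat_lit 167) (nat_lit 168) = true := by decide +kernel
def p14_23_1_168 : pfC (piC [(nat_lit 28473124), (nat_lit 19449108), (nat_lit 12587812)] (nat_lit 11208580)) p14_23_1 (nat_lit 3) (nat_lit 168) (nat_lit 169) = true := by decide +kernel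
def p14_23_1_169 : pfC (piC [(nat_lit 28473124), (nat_lit 19449108), (nat_lit 12587812)] (nat_lit 11208580)) p14_23_1 (nat_lit 3) (nat_lit 169) (nat_lit 170) = true := by decide +kernel
def p14_23_1_170 : pfC (piC [(nat_lit 28473124), (nat_lit 19449108), (nat_lit 12587812)] (nat_lit 11208580)) p14_23_1 (nat_lit 3) (nat_lit 170) (nat_lit 171) = true := by decide +kernel
def p14_23_1_171 : pfC (piC [(nat_lit 28473124), (nat_lit 19449108), (nat_lit 12587812)] (nat_lit 11208580)) p14_23_1 (nat_lit 3) (nat_lit 171) (nat_lit 172) = true := by decide +kernel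
def p14_23_1_172 : pfC (piC [(nat_lit 28473124), (nat_lit 19449108), (nat_lit 12587812)] (nat_lit 11208580)) p14_23_1 (nat_lit 3) (nat_lit 172) (nat_lit 173) = true := by decide +kernel
def p14_23_1_173 : pfC (piC [(nat_lit 28473124), (nat_lit 19449108), (nat_lit 12587812)] (nat_lit 11208580)) p14_23_1 (nat_lit 3) (nat_lit 173) (nat_lit 174) = true := by decide +kernel
def p14_23_1_174 : pfC (piC [(nat_lit 28473124), (nat_lit 19449108), (nat_lit 12587812)] (nat_lit 11208580)) p14_23_1 (nat_lit 3) (nat_lit 174) (nat_lit 175) = true := by decide +kernel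
def p14_23_1_175 : pfC (piC [(nat_lit 28473124), (nat_lit 19449108), (nat_lit 12587812)] (nat_lit 11208580)) p14_23_1 (nat_lit 3) (nat_lit 175) (nat_lit 176) = true := by decide +kernel
def p14_23_1_176 : pfC (piC [(nat_lit 28473124), (nat_lit 19449108), (nat_lit 12587812)] (nat_lit 11208580)) p14_23_1 (nat_lit 3) (nat_lit 176) (nat_lit 177) = true := by decide +kernel
def p14_23_1_177 : pfC (piC [(nat_lit 28473124), (nat_lit 19449108), (nat_lit 12587812)] (nat_lit 11208580)) p14_23_1 (nat_lit 3) (nat_lit 177) (nat_lit 178) = true := by decide +kernel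
def p14_23_1_178 : pfC (piC [(nat_lit 28473124), (nat_lit 19449108), (nat_lit 12587812)] (nat_lit 11208580)) p14_23_1 (nat_lit 3) (nat_lit 178) (nat_lit 179) = true := by decide +kernel
def p14_23_1_179 : pfC (piC [(nat_lit 28473124), (nat_lit 19449108), (nat_lit 12587812)] (nat_lit 11208580)) p14_23_1 (nat_lit 3) (nat_lit 179) (nat_lit 180) = true := by decide +kernel
def p14_23_1_180 : pfC (piC [(nat_lit 28473124), (nat_lit 19449108), (nat_lit 12587812)] (nat_lit 11208580)) p14_23_1 (nat_lit 3) (nat_lit 180) (nat_lit 181) = true := by decide +kernel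
def p14_23_1_181 : pfC (piC [(nat_lit 28473124), (nat_lit 19449108), (nat_lit 12587812)] (nat_lit 11208580)) p14_23_1 (nat_lit 3) (nat_lit 181) (nat_lit 182) = true := by decide +kernel
def p14_23_1_182 : pfC (piC [(nat_lit 28473124), (nat_lit 19449108), (nat_lit 12587812)] (nat_lit 11208580)) p14_23_1 (nat_lit 3) (nat_lit 182) (nat_lit 183) = true := by decide +kernel
def p14_23_1_183 : pfC (piC [(nat_lit 28473124), (nat_lit 19449108), (nat_lit 12587812)] (nat_lit 11208580)) p14_23_1 (nat_lit 3) (nat_lit 183) (nat_lit 184) = true := by decide +kernel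
def p14_23_1_184 : pfC (piC [(nat_lit 28473124), (nat_lit 19449108), (nat_lit 12587812)] (nat_lit 11208580)) p14_23_1 (nat_lit 3) (nat_lit 184) (nat_lit 185) = true := by decide +kernel
def p14_23_1_185 : pfC (piC [(nat_lit 28473124), (nat_lit 19449108), (nat_lit 12587812)] (nat_lit 11208580)) p14_23_1 (nat_lit 3) (nat_lit 185) (nat_lit 186) = true := by decide +kernel
def p14_23_1_186 : pfC (piC [(nat_lit 28473124), (nat_lit 19449108), (nat_lit 12587812)] (nat_lit 11208580)) p14_23_1 (nat_lit 3) (nat_lit 186) (nat_lit 187) = true := by decide +kernel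
def p14_23_1_187 : pfC (piC [(nat_lit 28473124), (nat_lit 19449108), (nat_lit 12587812)] (nat_lit 11208580)) p14_23_1 (nat_lit 3) (nat_lit 187) (nat_lit 188) = true := by decide +kernel
def p14_23_1_188 : pfC (piC [(nat_lit 28473124), (nat_lit 19449108), (nat_lit 12587812)] (nat_lit 11208580)) p14_23_1 (nat_lit 3) (nat_lit 188) (nat_lit 189) = true := by decide +kernel
def p14_23_1_189 : pfC (piC [(nat_lit 28473124), (nat_lit 19449108), (nat_lit 12587812)] (nat_lit 11208580)) p14_23_1 (nat_lit 3) (nat_lit 189) (nat_lit 190) = true := by decide +kernel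
def p14_23_1_190 : pfC (piC [(nat_lit 28473124), (nat_lit 19449108), (nat_lit 12587812)] (nat_lit 11208580)) p14_23_1 (nat_lit 3) (nat_lit 190) (nat_lit 191) = true := by decide +kernel
def p14_23_1_191 : pfC (piC [(nat_lit 28473124), (nat_lit 19449108), (nat_lit 12587812)] (nat_lit 11208580)) p14_23_1 (nat_lit 3) (nat_lit 191) (nat_lit 192) = true := by decide +kernel
def p14_23_1_192 : pfC (piC [(nat_lit 28473124), (nat_lit 19449108), (nat_lit 12587812)] (nat_lit 11208580)) p14_23_1 (nat_lit 3) (nat_lit 192) (nat_lit 193) = true := by decide +kernel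
def p14_23_1_193 : pfC (piC [(nat_lit 28473124), (nat_lit 19449108), (nat_lit 12587812)] (nat_lit 11208580)) p14_23_1 (nat_lit 3) (nat_lit 193) (nat_lit 194) = true := by decide +kernel
def p14_23_1_194 : pfC (piC [(nat_lit 28473124), (nat_lit 19449108), (nat_lit 12587812)] (nat_lit 11208580)) p14_23_1 (nat_lit 3) (nat_lit 194) (nat_lit 195) = true := by decide +kernel
def p14_23_1_195 : pfC (piC [(nat_lit 28473124), (nat_lit 19449108), (nat_lit 12587812)] (nat_lit 11208580)) p14_23_1 (nat_lit 3) (nat_lit 195) (nat_lit 196) = true := by decide +kernel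
def p14_23_1_196 : pfC (piC [(nat_lit 28473124), (nat_lit 19449108), (nat_lit 12587812)] (nat_lit 11208580)) p14_23_1 (nat_lit 3) (nat_lit 196) (nat_lit 197) = true := by decide +kernel
def p14_23_1_197 : pfC (piC [(nat_lit 28473124), (nat_lit 19449108), (nat_lit 12587812)] (nat_lit 11208580)) p14_23_1 (nat_lit 3) (nat_lit 197) (nat_lit 198) = true := by decide +kernel
def p14_23_1_198 : pfC (piC [(nat_lit 28473124), (nat_lit 19449108), (nat_lit 12587812)] (nat_lit 11208580)) p14_23_1 (nat_lit 3) (nat_lit 198) (nat_lit 199) = true := by decide +kernel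
def p14_23_1_199 : pfC (piC [(nat_lit 28473124), (nat_lit 19449108), (nat_lit 12587812)] (nat_lit 11208580)) p14_23_1 (nat_lit 3) (nat_lit 199) (nat_lit 200) = true := by decide +kernel
def p14_23_1_200 : pfC (piC [(nat_lit 28473124), (nat_lit 19449108), (nat_lit 12587812)] (nat_lit 11208580)) p14_23_1 (nat_lit 3) (nat_lit 200) (nat_lit 201) = true := by decide +kernel
def p14_23_1_201 : pfC (piC [(nat_lit 28473124), (nat_lit 19449108), (nat_lit 12587812)] (nat_lit 11208580)) p14_23_1 (nat_lit 3) (nat_lit 201) (nat_lit 202) = true := by decide +kernel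
def p14_23_1_202 : pfC (piC [(nat_lit 28473124), (nat_lit 19449108), (nat_lit 12587812)] (nat_lit 11208580)) p14_23_1 (nat_lit 3) (nat_lit 202) (nat_lit 203) = true := by decide +kernel
def p14_23_1_203 : pfC (piC [(nat_lit 28473124), (nat_lit 19449108), (nat_lit 12587812)] (nat_lit 11208580)) p14_23_1 (nat_lit 3) (nat_lit 203) (nat_lit 204) = true := by decide +kernel
def p14_23_1_204 : pfC (piC [(nat_lit 28473124), (nat_lit 19449108), (nat_lit 12587812)] (nat_lit 11208580)) p14_23_1 (nat_lit 3) (nat_lit 204) (nat_lit 205) = true := by decide +kernel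
def p14_23_1_205 : pfC (piC [(nat_lit 28473124), (nat_lit 19449108), (nat_lit 12587812)] (nat_lit 11208580)) p14_23_1 (nat_lit 3) (nat_lit 205) (nat_lit 206) = true := by decide +kernel
def p14_23_1_206 : pfC (piC [(nat_lit 28473124), (nat_lit 19449108), (nat_lit 12587812)] (nat_lit 11208580)) p14_23_1 (nat_lit 3) (nat_lit 206) (nat_lit 207) = true := by decide +kernel
def p14_23_1_207 : pfC (piC [(nat_lit 28473124), (nat_lit 19449108), (nat_lit 12587812)] (nat_lit 11208580)) p14_23_1 (nat_lit 3) (nat_lit 207) (nat_lit 208) = true := by decide +kernel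
def p14_23_1_208 : pfC (piC [(nat_lit 28473124), (nat_lit 19449108), (nat_lit 12587812)] (nat_lit 11208580)) p14_23_1 (nat_lit 3) (nat_lit 208) (nat_lit 209) = true := by decide +kernel
def p14_23_1_209 : pfC (piC [(nat_lit 28473124), (nat_lit 19449108), (nat_lit 12587812)] (nat_lit 11208580)) p14_23_1 (nat_lit 3) (nat_lit 209) (nat_lit 210) = true := by decide +kernel
def p14_23_1_210 : pfC (piC [(nat_lit 28473124), (nat_lit 19449108), (nat_lit 12587812)] (nat_lit 11208580)) p14_23_1 (nat_lit 3) (nat_lit 210) (nat_lit 211) = true := by decide +kernel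
def p14_23_1_211 : pfC (piC [(nat_lit 28473124), (nat_lit 19449108), (nat_lit 12587812)] (nat_lit 11208580)) p14_23_1 (nat_lit 3) (nat_lit 211) (nat_lit 212) = true := by decide +kernel
def p14_23_1_212 : pfC (piC [(nat_lit 28473124), (nat_lit 19449108), (nat_lit 12587812)] (nat_lit 11208580)) p14_23_1 (nat_lit 3) (nat_lit 212) (nat_lit 213) = true := by decide +kernel
def p14_23_1_213 : pfC (piC [(nat_lit 28473124), (nat_lit 19449108), (nat_lit 12587812)] (nat_lit 11208580)) p14_23_1 (nat_lit 3) (nat_lit 213) (nat_lit 214) = true := by decide +kernel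
def p14_23_1_214 : pfC (piC [(nat_lit 28473124), (nat_lit 19449108), (nat_lit 12587812)] (nat_lit 11208580)) p14_23_1 (nat_lit 3) (nat_lit 214) (nat_lit 215) = true := by decide +kernel
def p14_23_1_215 : pfC (piC [(nat_lit 28473124), (nat_lit 19449108), (nat_lit 12587812)] (nat_lit 11208580)) p14_23_1 (nat_lit 3) (nat_lit 215) (nat_lit 216) = true := by decide +kernel
def p14_23_1_216 : pfC (piC [(nat_lit 28473124), (nat_lit 19449108), (nat_lit 12587812)] (nat_lit 11208580)) p14_23_1 (nat_lit 3) (nat_lit 216) (nat_lit 217) = true := by decide +kernel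
def p14_23_1_217 : pfC (piC [(nat_lit 28473124), (nat_lit 19449108), (nat_lit 12587812)] (nat_lit 11208580)) p14_23_1 (nat_lit 3) (nat_lit 217) (nat_lit 218) = true := by decide +kernel
def p14_23_1_218 : pfC (piC [(nat_lit 28473124), (nat_lit 19449108), (nat_lit 12587812)] (nat_lit 11208580)) p14_23_1 (nat_lit 3) (nat_lit 218) (nat_lit 219) = true := by decide +kernel
def p14_23_1_219 : pfC (piC [(nat_lit 28473124), (nat_lit 19449108), (nat_lit 12587812)] (nat_lit 11208580)) p14_23_1 (nat_lit 3) (nat_lit 219) (nat_lit 220) = true := by decide +kernel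
def p14_23_1_220 : pfC (piC [(nat_lit 28473124), (nat_lit 19449108), (nat_lit 12587812)] (nat_lit 11208580)) p14_23_1 (nat_lit 3) (nat_lit 220) (nat_lit 221) = true := by decide +kernel
def p14_23_1_221 : pfC (piC [(nat_lit 28473124), (nat_lit 19449108), (nat_lit 12587812)] (nat_lit 11208580)) p14_23_1 (nat_lit 3) (nat_lit 221) (nat_lit 222) = true := by decide +kernel
def p14_23_1_222 : pfC (piC [(nat_lit 28473124), (nat_lit 19449108), (nat_lit 12587812)] (nat_lit 11208580)) p14_23_1 (nat_lit 3) (nat_lit 222) (nat_lit 223) = true := by decide +kernel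
def p14_23_1_223 : pfC (piC [(nat_lit 28473124), (nat_lit 19449108), (nat_lit 12587812)] (nat_lit 11208580)) p14_23_1 (nat_lit 3) (nat_lit 223) (nat_lit 224) = true := by decide +kernel
def p14_23_1_224 : pfC (piC [(nat_lit 28473124), (nat_lit 19449108), (nat_lit 12587812)] (nat_lit 11208580)) p14_23_1 (nat_lit 3) (nat_lit 224) (nat_lit 225) = true := by decide +kernel
def p14_23_1_225 : pfC (piC [(nat_lit 28473124), (nat_lit 19449108), (nat_lit 12587812)] (nat_lit 11208580)) p14_23_1 (nat_lit 3) (nat_lit 225) (nat_lit 226) = true := by decide +kernel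
def p14_23_1_226 : pfC (piC [(nat_lit 28473124), (nat_lit 19449108), (nat_lit 12587812)] (nat_lit 11208580)) p14_23_1 (nat_lit 3) (nat_lit 226) (nat_lit 227) = true := by decide +kernel
def p14_23_1_227 : pfC (piC [(nat_lit 28473124), (nat_lit 19449108), (nat_lit 12587812)] (nat_lit 11208580)) p14_23_1 (nat_lit 3) (nat_lit 227) (nat_lit 228) = true := by decide +kernel
def p14_23_1_228 : pfC (piC [(nat_lit 28473124), (nat_lit 19449108), (nat_lit 12587812)] (nat_lit 11208580)) p14_23_1 (nat_lit 3) (nat_lit 228) (nat_lit 229) = true := by decide +kernel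
def p14_23_1_229 : pfC (piC [(nat_lit 28473124), (nat_lit 19449108), (nat_lit 12587812)] (nat_lit 11208580)) p14_23_1 (nat_lit 3) (nat_lit 229) (nat_lit 230) = true := by decide +kernel
def p14_23_1_230 : pfC (piC [(nat_lit 28473124), (nat_lit 19449108), (nat_lit 12587812)] (nat_lit 11208580)) p14_23_1 (nat_lit 3) (nat_lit 230) (nat_lit 231) = true := by decide +kernel
def p14_23_1_231 : pfC (piC [(nat_lit 28473124), (nat_lit 19449108), (nat_lit 12587812)] (nat_lit 11208580)) p14_23_1 (nat_lit 3) (nat_lit 231) (nat_lit 232) = true := by decide +kernel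
def p14_23_1_232 : pfC (piC [(nat_lit 28473124), (nat_lit 19449108), (nat_lit 12587812)] (nat_lit 11208580)) p14_23_1 (nat_lit 3) (nat_lit 232) (nat_lit 233) = true := by decide +kernel
def p14_23_1_233 : pfC (piC [(nat_lit 28473124), (nat_lit 19449108), (nat_lit 12587812)] (nat_lit 11208580)) p14_23_1 (nat_lit 3) (nat_lit 233) (nat_lit 234) = true := by decide +kernel
def p14_23_1_234 : pfC (piC [(nat_lit 28473124), (nat_lit 19449108), (nat_lit 12587812)] (nat_lit 11208580)) p14_23_1 (nat_lit 3) (nat_lit 234) (nat_lit 235) = true := by decide +kernel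
def p14_23_1_235 : pfC (piC [(nat_lit 28473124), (nat_lit 19449108), (nat_lit 12587812)] (nat_lit 11208580)) p14_23_1 (nat_lit 3) (nat_lit 235) (nat_lit 236) = true := by decide +kernel
def p14_23_1_236 : pfC (piC [(nat_lit 28473124), (nat_lit 19449108), (nat_lit 12587812)] (nat_lit 11208580)) p14_23_1 (nat_lit 3) (nat_lit 236) (nat_lit 237) = true := by decide +kernel
def p14_23_1_237 : pfC (piC [(nat_lit 28473124), (nat_lit 19449108), (nat_lit 12587812)] (nat_lit 11208580)) p14_23_1 (nat_lit 3) (nat_lit 237) (nat_lit 238) = true := by decide +kernel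
def p14_23_1_238 : pfC (piC [(nat_lit 28473124), (nat_lit 19449108), (nat_lit 12587812)] (nat_lit 11208580)) p14_23_1 (nat_lit 3) (nat_lit 238) (nat_lit 239) = true := by decide +kernel
def p14_23_1_239 : pfC (piC [(nat_lit 28473124), (nat_lit 19449108), (nat_lit 12587812)] (nat_lit 11208580)) p14_23_1 (nat_lit 3) (nat_lit 239) (nat_lit 240) = true := by decide +kernel
def p14_23_1_240 : pfC (piC [(nat_lit 28473124), (nat_lit 19449108), (nat_lit 12587812)] (nat_lit 11208580)) p14_23_1 (nat_lit 3) (nat_lit 240) (nat_lit 241) = true := by decide +kernel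
def p14_23_1_241 : pfC (piC [(nat_lit 28473124), (nat_lit 19449108), (nat_lit 12587812)] (nat_lit 11208580)) p14_23_1 (nat_lit 3) (nat_lit 241) (nat_lit 242) = true := by decide +kernel
def p14_23_1_242 : pfC (piC [(nat_lit 28473124), (nat_lit 19449108), (nat_lit 12587812)] (nat_lit 11208580)) p14_23_1 (nat_lit 3) (nat_lit 242) (nat_lit 243) = true := by decide +kernel
def p14_23_1_243 : pfC (piC [(nat_lit 28473124), (nat_lit 19449108), (nat_lit 12587812)] (nat_lit 11208580)) p14_23_1 (nat_lit 3) (nat_lit 243) (nat_lit 244) = true := by decide +kernel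
def p14_23_1_244 : pfC (piC [(nat_lit 28473124), (nat_lit 19449108), (nat_lit 12587812)] (nat_lit 11208580)) p14_23_1 (nat_lit 3) (nat_lit 244) (nat_lit 245) = true := by decide +kernel
def p14_23_1_245 : pfC (piC [(nat_lit 28473124), (nat_lit 19449108), (nat_lit 12587812)] (nat_lit 11208580)) p14_23_1 (nat_lit 3) (nat_lit 245) (nat_lit 246) = true := by decide +kernel
theorem p14_23_1_T : PfS (PiF n14_23.reverse (nat_lit 11208580)) p14_23_1 (nat_lit 3) [] 0 :=
  pftab_of (los := [(nat_lit 28473124), (nat_lit 19449108), (nat_lit 12587812)]) (by decide +kernel) (hi := (nat_lit 246)) (PfP.trans (PfP.trans (PfP.trans (PfP.trans (PfP.trans (PfP.trans (PfP.trans (PfP.trans (PfP.trans (PfP.trans (PfP.trans (PfP.trans (PfP.trans (PfP.trans (PfP.trans (PfP.trans (PfP.trans (PfP.trans (PfP.trans (PfP.trans (PfP.trans (PfP.trans (PfP.trans (PfP.trans (PfP.trans (PfP.trans (PfP.trans (PfP.trans (PfP.trans (PfP.trans (PfP.trans (PfP.trans (PfP.trans (PfP.trans (PfP.trans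 (PfP.trans (PfP.trans (PfP.trans (PfP.trans (PfP.trans (PfP.trans (PfP.trans (PfP.trans (PfP.trans (PfP.trans (PfP.trans (PfP.trans (PfP.trans (PfP.trans (PfP.trans (PfP.trans (PfP.trans (PfP.trans (PfP.trans (PfP.trans (PfP.trans (PfP.trans (PfP.trans (PfP.trans (PfP.trans (PfP.trans (PfP.trans (PfP.trans (PfP.trans (PfP.trans (PfP.trans (PfP.trans (PfP.trans (PfP.trans (PfP.trans (PfP.trans (PfP.trans (PfP.trans (PfP.trans (PfP.trans (PfP.trans (PfP.trans (PfP.trans (PfP.trans (PfP.trans (PfP.trans (PfP.trans (PfP.trans (PfP.trans (PfP.trans (PfP.trans (PfP.trans (PfP.trans (PfP.trans (PfP.trans (PfP.trans (PfP.trans (PfP.trans (PfP.trans (PfP.trans (PfP.trans (PfP.trans (PfP.trans (PfP.trans (PfP.trans (PfP.trans (PfP.trans (PfP.trans (PfP.trans (PfP.trans (PfP.trans (PfP.trans (PfP.trans (PfP.trans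
 (PfP.trans (PfP.trans (PfP.trans (PfP.trans (PfP.trans (PfP.trans (PfP.trans (PfP.trans (PfP.trans (PfP.trans (PfP.trans (PfP.trans (PfP.trans (PfP.trans (PfP.trans (PfP.trans (PfP.trans (PfP.trans (PfP.trans (PfP.trans (PfP.trans (PfP.trans (PfP.trans (PfP.trans (PfP.trans (PfP.trans (PfP.trans (PfP.trans (PfP.trans (PfP.trans (PfP.trans (PfP.trans (PfP.trans (PfP.trans (PfP.trans (PfP.trans (PfP.trans (PfP.trans (PfP.trans (PfP.trans (PfP.trans (PfP.trans (PfP.trans (PfP.trans (PfP.trans (PfP.trans (PfP.trans (PfP.trans (PfP.trans (PfP.trans (PfP.trans (PfP.trans (PfP.trans (PfP.trans (PfP.trans (PfP.trans (PfP.trans (PfP.trans (PfP.trans (PfP.trans (PfP.trans (PfP.trans (PfP.trans (PfP.trans (PfP.trans (PfP.trans (PfP.trans (PfP.trans (PfP.trans (PfP.trans (PfP.trans (PfP.trans (PfP.trans (PfP.trans (PfP.trans (PfP.trans (PfP.trans (PfP.trans (PfP.trans (PfP.trans (PfP.trans (PfP.trans (PfP.trans (PfP.trans (PfP.trans (PfP.trans (PfP.trans (PfP.trans (PfP.trans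 (PfP.trans (PfP.trans (PfP.trans (PfP.trans (PfP.trans (PfP.trans (PfP.trans (PfP.trans (PfP.trans (PfP.trans (PfP.trans (PfP.trans (PfP.trans (PfP.trans (PfP.trans (PfP.trans (PfP.trans (PfP.trans (PfP.trans (PfP.trans
 (PfP.trans (PfP.trans (PfP.trans (PfP.trans (PfP.trans (PfP.trans (PfP.trans (PfP.trans (PfP.trans (PfP.trans (PfP.trans (PfP.trans (PfP.trans (PfP.trans (PfP.trans (PfP.trans (PfP.trans (PfP.trans (PfP.trans (PfP.trans (PfP.trans (PfP.trans (PfP.trans (PfP.trans (PfP.trans (PfP.trans (PfP.trans (pfC_sound p14_23_1_0) (pfC_sound p14_23_1_1)) (pfC_sound p14_23_1_2)) (pfC_sound p14_23_1_3)) (pfC_sound p14_23_1_4)) (pfC_sound p14_23_1_5)) (pfC_sound p14_23_1_6)) (pfC_sound p14_23_1_7)) (pfC_sound p14_23_1_8)) (pfC_sound p14_23_1_9)) (pfC_sound p14_23_1_10)) (pfC_sound p14_23_1_11)) (pfC_sound p14_23_1_12)) (pfC_sound p14_23_1_13)) (pfC_sound p14_23_1_14)) (pfC_sound p14_23_1_15)) (pfC_sound p14_23_1_16)) (pfC_sound p14_23_1_17)) (pfC_sound p14_23_1_18))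 (pfC_sound p14_23_1_19)) (pfC_sound p14_23_1_20)) (pfC_sound p14_23_1_21)) (pfC_sound p14_23_1_22)) (pfC_sound p14_23_1_23)) (pfC_sound p14_23_1_24)) (pfC_sound p14_23_1_25)) (pfC_sound p14_23_1_26)) (pfC_sound p14_23_1_27)) (pfC_sound p14_23_1_28)) (pfC_sound p14_23_1_29)) (pfC_sound p14_23_1_30)) (pfC_sound p14_23_1_31)) (pfC_sound p14_23_1_32)) (pfC_sound p14_23_1_33)) (pfC_sound p14_23_1_34)) (pfC_sound p14_23_1_35)) (pfC_sound
 p14_23_1_36)) (pfC_sound p14_23_1_37)) (pfC_sound p14_23_1_38)) (pfC_sound p14_23_1_39)) (pfC_sound p14_23_1_40)) (pfC_sound p14_23_1_41)) (pfC_sound p14_23_1_42)) (pfC_sound p14_23_1_43)) (pfC_sound p14_23_1_44)) (pfC_sound p14_23_1_45)) (pfC_sound p14_23_1_46)) (pfC_sound p14_23_1_47)) (pfC_sound p14_23_1_48)) (pfC_sound p14_23_1_49)) (pfC_sound p14_23_1_50)) (pfC_sound p14_23_1_51)) (pfC_sound p14_23_1_52)) (pfC_sound p14_23_1_53)) (pfC_sound p14_23_1_54)) (pfC_sound p14_23_1_55)) (pfC_sound p14_23_1_56)) (pfC_sound p14_23_1_57))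 (pfC_sound p14_23_1_58)) (pfC_sound p14_23_1_59)) (pfC_sound p14_23_1_60)) (pfC_sound p14_23_1_61)) (pfC_sound p14_23_1_62)) (pfC_sound p14_23_1_63)) (pfC_sound p14_23_1_64)) (pfC_sound p14_23_1_65)) (pfC_sound p14_23_1_66)) (pfC_sound p14_23_1_67)) (pfC_sound p14_23_1_68)) (pfC_sound p14_23_1_69)) (pfC_sound p14_23_1_70)) (pfC_sound p14_23_1_71)) (pfC_sound p14_23_1_72)) (pfC_sound p14_23_1_73)) (pfC_sound p14_23_1_74)) (pfC_sound p14_23_1_75)) (pfC_sound p14_23_1_76)) (pfC_sound p14_23_1_77)) (pfC_sound p14_23_1_78)) (pfC_sound p14_23_1_79)) (pfC_sound p14_23_1_80)) (pfC_sound p14_23_1_81)) (pfC_sound p14_23_1_82)) (pfC_sound p14_23_1_83)) (pfC_sound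
 p14_23_1_84)) (pfC_sound p14_23_1_85)) (pfC_sound p14_23_1_86)) (pfC_sound p14_23_1_87)) (pfC_sound p14_23_1_88)) (pfC_sound p14_23_1_89)) (pfC_sound p14_23_1_90)) (pfC_sound p14_23_1_91)) (pfC_sound p14_23_1_92)) (pfC_sound p14_23_1_93)) (pfC_sound p14_23_1_94)) (pfC_sound p14_23_1_95)) (pfC_sound p14_23_1_96)) (pfC_sound p14_23_1_97)) (pfC_sound p14_23_1_98)) (pfC_sound p14_23_1_99)) (pfC_sound p14_23_1_100)) (pfC_sound p14_23_1_101)) (pfC_sound p14_23_1_102)) (pfC_sound p14_23_1_103)) (pfC_sound p14_23_1_104)) (pfC_sound p14_23_1_105)) (pfC_sound p14_23_1_106)) (pfC_sound p14_23_1_107)) (pfC_sound p14_23_1_108)) (pfC_sound p14_23_1_109)) (pfC_sound p14_23_1_110)) (pfC_sound p14_23_1_111)) (pfC_sound p14_23_1_112)) (pfC_sound p14_23_1_113)) (pfC_sound p14_23_1_114)) (pfC_sound p14_23_1_115)) (pfC_sound p14_23_1_116)) (pfC_sound p14_23_1_117)) (pfC_sound p14_23_1_118)) (pfC_sound p14_23_1_119)) (pfC_sound p14_23_1_120)) (pfC_sound p14_23_1_121)) (pfC_sound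 p14_23_1_122)) (pfC_sound p14_23_1_123)) (pfC_sound p14_23_1_124)) (pfC_sound p14_23_1_125)) (pfC_sound p14_23_1_126)) (pfC_sound p14_23_1_127)) (pfC_sound p14_23_1_128)) (pfC_sound p14_23_1_129)) (pfC_sound p14_23_1_130))
 (pfC_sound p14_23_1_131)) (pfC_sound p14_23_1_132)) (pfC_sound p14_23_1_133)) (pfC_sound p14_23_1_134)) (pfC_sound p14_23_1_135)) (pfC_sound p14_23_1_136)) (pfC_sound p14_23_1_137)) (pfC_sound p14_23_1_138)) (pfC_sound p14_23_1_139)) (pfC_sound p14_23_1_140)) (pfC_sound p14_23_1_141)) (pfC_sound p14_23_1_142)) (pfC_sound p14_23_1_143)) (pfC_sound p14_23_1_144)) (pfC_sound p14_23_1_145)) (pfC_sound p14_23_1_146)) (pfC_sound p14_23_1_147)) (pfC_sound p14_23_1_148)) (pfC_sound p14_23_1_149)) (pfC_sound p14_23_1_150)) (pfC_sound p14_23_1_151)) (pfC_sound p14_23_1_152)) (pfC_sound p14_23_1_153)) (pfC_sound p14_23_1_154)) (pfC_sound p14_23_1_155)) (pfC_sound p14_23_1_156)) (pfC_sound p14_23_1_157)) (pfC_sound p14_23_1_158)) (pfC_sound p14_23_1_159))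 (pfC_sound p14_23_1_160)) (pfC_sound p14_23_1_161)) (pfC_sound p14_23_1_162)) (pfC_sound p14_23_1_163)) (pfC_sound p14_23_1_164)) (pfC_sound p14_23_1_165)) (pfC_sound p14_23_1_166)) (pfC_sound p14_23_1_167)) (pfC_sound p14_23_1_168)) (pfC_sound p14_23_1_169)) (pfC_sound p14_23_1_170)) (pfC_sound p14_23_1_171)) (pfC_sound p14_23_1_172)) (pfC_sound p14_23_1_173)) (pfC_sound p14_23_1_174)) (pfC_sound p14_23_1_175)) (pfC_sound p14_23_1_176))
 (pfC_sound p14_23_1_177)) (pfC_sound p14_23_1_178)) (pfC_sound p14_23_1_179)) (pfC_sound p14_23_1_180)) (pfC_sound p14_23_1_181)) (pfC_sound p14_23_1_182)) (pfC_sound p14_23_1_183)) (pfC_sound p14_23_1_184)) (pfC_sound p14_23_1_185)) (pfC_sound p14_23_1_186)) (pfC_sound p14_23_1_187)) (pfC_sound p14_23_1_188)) (pfC_sound p14_23_1_189)) (pfC_sound p14_23_1_190)) (pfC_sound p14_23_1_191)) (pfC_sound p14_23_1_192)) (pfC_sound p14_23_1_193)) (pfC_sound p14_23_1_194)) (pfC_sound p14_23_1_195)) (pfC_sound p14_23_1_196)) (pfC_sound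 p14_23_1_197)) (pfC_sound p14_23_1_198)) (pfC_sound p14_23_1_199)) (pfC_sound p14_23_1_200)) (pfC_sound p14_23_1_201)) (pfC_sound p14_23_1_202)) (pfC_sound p14_23_1_203)) (pfC_sound p14_23_1_204)) (pfC_sound p14_23_1_205)) (pfC_sound p14_23_1_206)) (pfC_sound p14_23_1_207)) (pfC_sound p14_23_1_208)) (pfC_sound p14_23_1_209)) (pfC_sound p14_23_1_210)) (pfC_sound p14_23_1_211)) (pfC_sound p14_23_1_212)) (pfC_sound p14_23_1_213)) (pfC_sound p14_23_1_214)) (pfC_sound p14_23_1_215)) (pfC_sound p14_23_1_216)) (pfC_sound p14_23_1_217)) (pfC_sound p14_23_1_218)) (pfC_sound p14_23_1_219)) (pfC_sound p14_23_1_220)) (pfC_sound p14_23_1_221)) (pfC_sound p14_23_1_222))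
 (pfC_sound p14_23_1_223)) (pfC_sound p14_23_1_224)) (pfC_sound p14_23_1_225)) (pfC_sound p14_23_1_226)) (pfC_sound p14_23_1_227)) (pfC_sound p14_23_1_228)) (pfC_sound p14_23_1_229)) (pfC_sound p14_23_1_230)) (pfC_sound p14_23_1_231)) (pfC_sound p14_23_1_232)) (pfC_sound p14_23_1_233)) (pfC_sound p14_23_1_234)) (pfC_sound p14_23_1_235)) (pfC_sound p14_23_1_236)) (pfC_sound p14_23_1_237)) (pfC_sound p14_23_1_238)) (pfC_sound p14_23_1_239)) (pfC_sound p14_23_1_240)) (pfC_sound p14_23_1_241)) (pfC_sound p14_23_1_242)) (pfC_sound p14_23_1_243)) (pfC_sound p14_23_1_244)) (pfC_sound p14_23_1_245)) (by decide +kernel)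

def z14_23_1 : zOK yB14_23 (nat_lit 1) (nat_lit 400) (nat_lit 601) (nat_lit 11208580) (nat_lit 8556663) = true := by decide +kernel
def g14_23_1 : gOK yB14_23.x P14_23 (nat_lit 1338) (q14_23 :: r14_23) (nat_lit 1) (nat_lit 400) (nat_lit 2) (nat_lit 601) (nat_lit 11000000) (nat_lit 17884250) (nat_lit 12712500) (nat_lit 12712500) [(nat_lit 800), (nat_lit 1600)] = true := by decide +kernel
def v14_23_1 : ivC P14_23 s14_23 w14_23 n14_23 (nat_lit 3) (nat_lit 4810) (nat_lit 1) (nat_lit 400) f192_0_400 f200_0_400 (nat_lit 2) (nat_lit 601) f192_0_601 f200_0_601 (nat_lit 11208580) (nat_lit 8556663) p14_23_1 = true := by decide +kernel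
/-! box `yB15_0` -/

def P15_0 : BQ := ⟨(nat_lit 8), (nat_lit 4), (nat_lit 4), (nat_lit 0), (nat_lit 8), (nat_lit 540), (nat_lit 560), (nat_lit 120), [(nat_lit 200), (nat_lit 300), (nat_lit 450), (nat_lit 800)], (nat_lit 11840000), (nat_lit 16000000), (nat_lit 16000000000)⟩
def q15_0 : PC := ⟨(nat_lit 1000), [(nat_lit 120000), (nat_lit 200000), (nat_lit 300000), (nat_lit 450000), (nat_lit 800000)], (nat_lit 340282367000166625996085689103316680705000000), (nat_lit 15988160000000), (nat_lit 15988160000000), (nat_lit 10000000)⟩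
def r15_0 : List PC := [⟨(nat_lit 1251), [(nat_lit 120360), (nat_lit 200657), (nat_lit 301092), (nat_lit 452271), (nat_lit 799744)], (nat_lit 341827929511183507912823586222159139085176130), (nat_lit 16346791583520), (nat_lit 16357155594400), (nat_lit 10050467)⟩]
def s15_0 : List PB := [⟨(nat_lit 25020), (nat_lit 1925760000000), [(nat_lit 200657), (nat_lit 301092), (nat_lit 452271), (nat_lit 799744)], (nat_lit 341827929511183507912823586222159139085176130), (nat_lit 1142246698426144), (nat_lit 1142257062437024), (nat_lit 40160)⟩]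
def n15_0 : List KN := [⟨(nat_lit 800), (nat_lit 450), (nat_lit 14610181), (nat_lit 10817553)⟩, ⟨(nat_lit 450), (nat_lit 300), (nat_lit 20874739), (nat_lit 14610181)⟩, ⟨(nat_lit 300), (nat_lit 200), (nat_lit 24651042), (nat_lit 20874739)⟩, ⟨(nat_lit 200), (nat_lit 120), (nat_lit 31235658), (nat_lit 24651042)⟩]
def w15_0 : List ℕ := [(nat_lit 40160)]
def par15_0 : parC yB15_0 P15_0 s15_0 r15_0 q15_0 n15_0 w15_0 = true := by decide +kernel

def p15_0_0 : PF := (PF.cons (PF.cons (PF.cons (PF.cons (PF.leaf (nat_lit 0) (nat_lit 67108813) (nat_lit 67108813) (nat_lit 0) [(nat_lit 0), (nat_lit 0), (nat_lit 0), (nat_lit 0)]) (PF.cons (PF.leaf (nat_lit 121271) (nat_lit 250051) (nat_lit 66858761) (nat_lit 0) [(nat_lit 250051), (nat_lit 0), (nat_lit 0), (nat_lit 0)]) (PF.cons (PF.leaf (nat_lit 306393) (nat_lit 312786) (nat_lit 66483240) (nat_lit 0) [(nat_lit 312786), (nat_lit 0), (nat_lit 0), (nat_lit 0)]) (PF.cons PF.nil PF.nil)))) (PF.cons (PF.cons (PF.leaf (nat_lit 289649)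 (nat_lit 699949) (nat_lit 66408863) (nat_lit 0) [(nat_lit 0), (nat_lit 699949), (nat_lit 0), (nat_lit 0)]) (PF.cons PF.nil PF.nil)) (PF.cons PF.nil PF.nil))) (PF.cons (PF.cons (PF.cons (PF.leaf (nat_lit 637924) (nat_lit 1876600) (nat_lit 65232212) (nat_lit 0) [(nat_lit 0), (nat_lit 0), (nat_lit 1876600), (nat_lit 0)]) (PF.cons PF.nil PF.nil)) (PF.cons PF.nil PF.nil)) (PF.cons PF.nil PF.nil))) (PF.cons (PF.cons (PF.cons (PF.cons (PF.leaf (nat_lit 1305549) (nat_lit 4893138) (nat_lit 62215674) (nat_lit 0) [(nat_lit 0), (nat_lit 0), (nat_lit 0), (nat_lit 4893138)]) (PF.cons (PF.leaf (nat_lit 1580405) (nat_lit 499297) (nat_lit 61620109) (nat_lit 0) [(nat_lit 499297), (nat_lit 0),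
 (nat_lit 0), (nat_lit 4989406)]) (PF.cons (PF.leaf (nat_lit 1906879) (nat_lit 548343) (nat_lit 60921194) (nat_lit 0) [(nat_lit 548343), (nat_lit 0), (nat_lit 0), (nat_lit 5090931)]) (PF.cons PF.nil PF.nil)))) (PF.cons (PF.cons (PF.leaf (nat_lit 1826174) (nat_lit 1109095) (nat_lit 60914008) (nat_lit 0) [(nat_lit 0), (nat_lit 1109095), (nat_lit 0), (nat_lit 5085708)]) (PF.cons (PF.leaf (nat_lit 2169863) (nat_lit 580024) (nat_lit 60174869) (nat_lit 0) [(nat_lit 580024), (nat_lit 1172323), (nat_lit 0), (nat_lit 5181595)]) PF.nil)) (PF.cons PF.nil PF.nil))) (PF.cons (PF.cons (PF.cons (PF.leaf (nat_lit 2249234) (nat_lit 2436728) (nat_lit 59433678) (nat_lit 0) [(nat_lit 0), (nat_lit 0), (nat_lit 2436728), (nat_lit 5238405)]) (PF.cons PF.nil PF.nil)) (PF.cons PF.nil PF.nil)) (PF.cons PF.nil PF.nil))) (PF.cons (PF.cons (PF.cons (PF.cons (PF.leaf (nat_lit 2941656) (nat_lit 5409704) (nat_lit 56289403) (nat_lit 0) [(nat_lit 0), (nat_lit 0), (nat_lit 0), (nat_lit 5409704)])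 (PF.cons (PF.leaf (nat_lit 3311296) (nat_lit 661178) (nat_lit 55514432) (nat_lit 0) [(nat_lit 661178), (nat_lit 0), (nat_lit 0), (nat_lit 5466601)]) (PF.cons PF.nil PF.nil))) (PF.cons (PF.cons (PF.leaf (nat_lit 3584914)
 (nat_lit 1348549) (nat_lit 54737480) (nat_lit 0) [(nat_lit 0), (nat_lit 1348549), (nat_lit 0), (nat_lit 5511391)]) PF.nil) PF.nil)) (PF.cons PF.nil PF.nil)) (PF.cons PF.nil (PF.cons PF.nil (PF.cons PF.nil PF.nil))))))

def p15_0_0_0 : pfC (piC [(nat_lit 31235658), (nat_lit 24651042), (nat_lit 20874739), (nat_lit 14610181)] (nat_lit 0)) p15_0_0 (nat_lit 4) (nat_lit 0) (nat_lit 2) = true := by decide +kernel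
def p15_0_0_1 : pfC (piC [(nat_lit 31235658), (nat_lit 24651042), (nat_lit 20874739), (nat_lit 14610181)] (nat_lit 0)) p15_0_0 (nat_lit 4) (nat_lit 2) (nat_lit 3) = true := by decide +kernel
def p15_0_0_2 : pfC (piC [(nat_lit 31235658), (nat_lit 24651042), (nat_lit 20874739), (nat_lit 14610181)] (nat_lit 0)) p15_0_0 (nat_lit 4) (nat_lit 3) (nat_lit 5) = true := by decide +kernel
def p15_0_0_3 : pfC (piC [(nat_lit 31235658), (nat_lit 24651042), (nat_lit 20874739), (nat_lit 14610181)] (nat_lit 0)) p15_0_0 (nat_lit 4) (nat_lit 5) (nat_lit 6) = true := by decide +kernel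
def p15_0_0_4 : pfC (piC [(nat_lit 31235658), (nat_lit 24651042), (nat_lit 20874739), (nat_lit 14610181)] (nat_lit 0)) p15_0_0 (nat_lit 4) (nat_lit 6) (nat_lit 7) = true := by decide +kernel
def p15_0_0_5 : pfC (piC [(nat_lit 31235658), (nat_lit 24651042), (nat_lit 20874739), (nat_lit 14610181)] (nat_lit 0)) p15_0_0 (nat_lit 4) (nat_lit 7) (nat_lit 8) = true := by decide +kernel
def p15_0_0_6 : pfC (piC [(nat_lit 31235658), (nat_lit 24651042), (nat_lit 20874739), (nat_lit 14610181)] (nat_lit 0)) p15_0_0 (nat_lit 4) (nat_lit 8) (nat_lit 9) = true := by decide +kernel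
def p15_0_0_7 : pfC (piC [(nat_lit 31235658), (nat_lit 24651042), (nat_lit 20874739), (nat_lit 14610181)] (nat_lit 0)) p15_0_0 (nat_lit 4) (nat_lit 9) (nat_lit 10) = true := by decide +kernel
def p15_0_0_8 : pfC (piC [(nat_lit 31235658), (nat_lit 24651042), (nat_lit 20874739), (nat_lit 14610181)] (nat_lit 0)) p15_0_0 (nat_lit 4) (nat_lit 10) (nat_lit 11) = true := by decide +kernel
def p15_0_0_9 : pfC (piC [(nat_lit 31235658), (nat_lit 24651042), (nat_lit 20874739), (nat_lit 14610181)] (nat_lit 0)) p15_0_0 (nat_lit 4) (nat_lit 11) (nat_lit 12) = true := by decide +kernel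
def p15_0_0_10 : pfC (piC [(nat_lit 31235658), (nat_lit 24651042), (nat_lit 20874739), (nat_lit 14610181)] (nat_lit 0)) p15_0_0 (nat_lit 4) (nat_lit 12) (nat_lit 13) = true := by decide +kernel
def p15_0_0_11 : pfC (piC [(nat_lit 31235658), (nat_lit 24651042), (nat_lit 20874739), (nat_lit 14610181)] (nat_lit 0)) p15_0_0 (nat_lit 4) (nat_lit 13) (nat_lit 14) = true := by decide +kernel
theorem p15_0_0_T : PfS (PiF n15_0.reverse (nat_lit 0)) p15_0_0 (nat_lit 4) [] 0 :=
  pftab_of (los := [(nat_lit 31235658), (nat_lit 24651042), (nat_lit 20874739), (nat_lit 14610181)]) (by decide +kernel) (hi := (nat_lit 14)) (PfP.trans (PfP.trans (PfP.trans (PfP.trans (PfP.trans (PfP.trans (PfP.trans (PfP.trans (PfP.trans (PfP.trans (PfP.trans (pfC_sound p15_0_0_0) (pfC_sound p15_0_0_1)) (pfC_sound p15_0_0_2)) (pfC_sound p15_0_0_3)) (pfC_sound p15_0_0_4)) (pfC_sound p15_0_0_5)) (pfC_sound p15_0_0_6)) (pfC_sound p15_0_0_7)) (pfC_sound p15_0_0_8)) (pfC_sound p15_0_0_9)) (pfC_sound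 p15_0_0_10)) (pfC_sound p15_0_0_11)) (by decide +kernel)

def z15_0_0 : zOK yB15_0 (nat_lit 0) (nat_lit 0) (nat_lit 400) (nat_lit 0) (nat_lit 0) = true := by decide +kernel
def g15_0_0 : gOK yB15_0.x P15_0 (nat_lit 1434) (q15_0 :: r15_0) (nat_lit 0) (nat_lit 0) (nat_lit 1) (nat_lit 400) (nat_lit 0) (nat_lit 11000000) (nat_lit 12712500) (nat_lit 12712500) [(nat_lit 800), (nat_lit 1600)] = true := by decide +kernel
def v15_0_0 : ivC P15_0 s15_0 w15_0 n15_0 (nat_lit 4) (nat_lit 5660) (nat_lit 0) (nat_lit 0) f104_1_0 f112_1_0 (nat_lit 1) (nat_lit 400) f104_1_400 f112_1_400 (nat_lit 0) (nat_lit 0) p15_0_0 = true := by decide +kernel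
def p15_0_1 : PF := (PF.cons (PF.cons (PF.cons (PF.cons (PF.leaf (nat_lit 2112424) (nat_lit 10057661) (nat_lit 57051151) (nat_lit 10057661) [(nat_lit 0), (nat_lit 0), (nat_lit 0), (nat_lit 0)]) (PF.cons (PF.leaf (nat_lit 2395604) (nat_lit 539975) (nat_lit 56471128) (nat_lit 10097708) [(nat_lit 539975), (nat_lit 0), (nat_lit 0), (nat_lit 0)]) PF.nil)) (PF.cons PF.nil PF.nil)) (PF.cons PF.nil PF.nil)) (PF.cons (PF.cons (PF.cons (PF.cons (PF.leaf (nat_lit 3684540) (nat_lit 5425490) (nat_lit 51544731) (nat_lit 10138591) [(nat_lit 0), (nat_lit 0), (nat_lit 0), (nat_lit 5425490)]) (PF.cons PF.nil PF.nil)) (PF.cons PF.nil PF.nil)) (PF.cons PF.nil PF.nil)) (PF.cons PF.nil (PF.cons PF.nil PF.nil))))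

def p15_0_1_0 : pfC (piC [(nat_lit 31235658), (nat_lit 24651042), (nat_lit 20874739), (nat_lit 14610181)] (nat_lit 11026205)) p15_0_1 (nat_lit 4) (nat_lit 0) (nat_lit 1) = true := by decide +kernel
def p15_0_1_1 : pfC (piC [(nat_lit 31235658), (nat_lit 24651042), (nat_lit 20874739), (nat_lit 14610181)] (nat_lit 11026205)) p15_0_1 (nat_lit 4) (nat_lit 1) (nat_lit 2) = true := by decide +kernel
def p15_0_1_2 : pfC (piC [(nat_lit 31235658), (nat_lit 24651042), (nat_lit 20874739), (nat_lit 14610181)] (nat_lit 11026205)) p15_0_1 (nat_lit 4) (nat_lit 2) (nat_lit 3) = true := by decide +kernel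
theorem p15_0_1_T : PfS (PiF n15_0.reverse (nat_lit 11026205)) p15_0_1 (nat_lit 4) [] 0 :=
  pftab_of (los := [(nat_lit 31235658), (nat_lit 24651042), (nat_lit 20874739), (nat_lit 14610181)]) (by decide +kernel) (hi := (nat_lit 3)) (PfP.trans (PfP.trans (pfC_sound p15_0_1_0) (pfC_sound p15_0_1_1)) (pfC_sound p15_0_1_2)) (by decide +kernel)

def z15_0_1 : zOK yB15_0 (nat_lit 1) (nat_lit 400) (nat_lit 600) (nat_lit 11026205) (nat_lit 6329934) = true := by decide +kernel
def g15_0_1 : gOK yB15_0.x P15_0 (nat_lit 1434) (q15_0 :: r15_0) (nat_lit 1) (nat_lit 400) (nat_lit 2) (nat_lit 600) (nat_lit 11000000) (nat_lit 17850000) (nat_lit 12712500) (nat_lit 12712500) [(nat_lit 800), (nat_lit 1040)] = true := by decide +kernel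
def v15_0_1 : ivC P15_0 s15_0 w15_0 n15_0 (nat_lit 4) (nat_lit 5260) (nat_lit 1) (nat_lit 400) f104_1_400 f112_1_400 (nat_lit 2) (nat_lit 600) f104_1_600 f112_1_600 (nat_lit 11026205) (nat_lit 6329934) p15_0_1 = true := by decide +kernel
def p15_0_2 : PF := (PF.cons (PF.cons (PF.cons (PF.cons (PF.leaf (nat_lit 2842591) (nat_lit 17160196) (nat_lit 49948616) (nat_lit 17160196) [(nat_lit 0), (nat_lit 0), (nat_lit 0), (nat_lit 0)]) (PF.cons (PF.leaf (nat_lit 3114948) (nat_lit 536752) (nat_lit 49464089) (nat_lit 17107970) [(nat_lit 536752), (nat_lit 0), (nat_lit 0), (nat_lit 0)]) (PF.cons (PF.leaf (nat_lit 3432548) (nat_lit 580760) (nat_lit 48903871) (nat_lit 17043420) [(nat_lit 580760), (nat_lit 0), (nat_lit 0), (nat_lit 0)]) (PF.cons PF.nil PF.nil)))) (PF.cons (PF.cons (PF.leaf (nat_lit 3344517) (nat_lit 1166066) (nat_lit 48901795) (nat_lit 17040951) [(nat_lit 0), (nat_lit 1166066), (nat_lit 0), (nat_lit 0)]) (PF.cons PF.nil PF.nil)) (PF.cons PF.nil PF.nil))) (PF.cons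 (PF.cons (PF.cons (PF.leaf (nat_lit 3718911) (nat_lit 2467581) (nat_lit 47756771) (nat_lit 16884459) [(nat_lit 0), (nat_lit 0), (nat_lit 2467581), (nat_lit 0)]) (PF.cons PF.nil PF.nil)) (PF.cons PF.nil PF.nil)) (PF.cons PF.nil PF.nil))) (PF.cons (PF.cons (PF.cons (PF.cons (PF.leaf (nat_lit 4293130) (nat_lit 5189785) (nat_lit 45427370) (nat_lit 16491657) [(nat_lit 0), (nat_lit 0), (nat_lit 0), (nat_lit 5189785)]) (PF.cons (PF.leaf (nat_lit 4634809) (nat_lit 654196) (nat_lit
 44845193) (nat_lit 16396822) [(nat_lit 654196), (nat_lit 0), (nat_lit 0), (nat_lit 5212600)]) PF.nil)) (PF.cons PF.nil PF.nil)) (PF.cons PF.nil PF.nil)) (PF.cons PF.nil (PF.cons PF.nil PF.nil))))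

def p15_0_2_0 : pfC (piC [(nat_lit 31235658), (nat_lit 24651042), (nat_lit 20874739), (nat_lit 14610181)] (nat_lit 6329934)) p15_0_2 (nat_lit 4) (nat_lit 0) (nat_lit 1) = true := by decide +kernel
def p15_0_2_1 : pfC (piC [(nat_lit 31235658), (nat_lit 24651042), (nat_lit 20874739), (nat_lit 14610181)] (nat_lit 6329934)) p15_0_2 (nat_lit 4) (nat_lit 1) (nat_lit 2) = true := by decide +kernel
def p15_0_2_2 : pfC (piC [(nat_lit 31235658), (nat_lit 24651042), (nat_lit 20874739), (nat_lit 14610181)] (nat_lit 6329934)) p15_0_2 (nat_lit 4) (nat_lit 2) (nat_lit 3) = true := by decide +kernel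
def p15_0_2_3 : pfC (piC [(nat_lit 31235658), (nat_lit 24651042), (nat_lit 20874739), (nat_lit 14610181)] (nat_lit 6329934)) p15_0_2 (nat_lit 4) (nat_lit 3) (nat_lit 4) = true := by decide +kernel
def p15_0_2_4 : pfC (piC [(nat_lit 31235658), (nat_lit 24651042), (nat_lit 20874739), (nat_lit 14610181)] (nat_lit 6329934)) p15_0_2 (nat_lit 4) (nat_lit 4) (nat_lit 5) = true := by decide +kernel
def p15_0_2_5 : pfC (piC [(nat_lit 31235658), (nat_lit 24651042), (nat_lit 20874739), (nat_lit 14610181)] (nat_lit 6329934)) p15_0_2 (nat_lit 4) (nat_lit 5) (nat_lit 6) = true := by decide +kernel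
def p15_0_2_6 : pfC (piC [(nat_lit 31235658), (nat_lit 24651042), (nat_lit 20874739), (nat_lit 14610181)] (nat_lit 6329934)) p15_0_2 (nat_lit 4) (nat_lit 6) (nat_lit 7) = true := by decide +kernel
theorem p15_0_2_T : PfS (PiF n15_0.reverse (nat_lit 6329934)) p15_0_2 (nat_lit 4) [] 0 :=
  pftab_of (los := [(nat_lit 31235658), (nat_lit 24651042), (nat_lit 20874739), (nat_lit 14610181)]) (by decide +kernel) (hi := (nat_lit 7)) (PfP.trans (PfP.trans (PfP.trans (PfP.trans (PfP.trans (PfP.trans (pfC_sound p15_0_2_0) (pfC_sound p15_0_2_1)) (pfC_sound p15_0_2_2)) (pfC_sound p15_0_2_3)) (pfC_sound p15_0_2_4)) (pfC_sound p15_0_2_5)) (pfC_sound p15_0_2_6)) (by decide +kernel)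

def z15_0_2 : zOK yB15_0 (nat_lit 2) (nat_lit 600) (nat_lit 750) (nat_lit 6329934) (nat_lit 4354091) = true := by decide +kernel
def g15_0_2 : gOK yB15_0.x P15_0 (nat_lit 1434) (q15_0 :: r15_0) (nat_lit 2) (nat_lit 600) (nat_lit 3) (nat_lit 750) (nat_lit 12712500) (nat_lit 12712500) (nat_lit 12712500) (nat_lit 12712500) [(nat_lit 800), (nat_lit 1600)] = true := by decide +kernel
def v15_0_2 : ivC P15_0 s15_0 w15_0 n15_0 (nat_lit 4) (nat_lit 5060) (nat_lit 2) (nat_lit 600) f104_1_600 f112_1_600 (nat_lit 3) (nat_lit 750) f104_1_750 f112_1_750 (nat_lit 6329934) (nat_lit 4354091) p15_0_2 = true := by decide +kernel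
def p15_0_3 : PF := (PF.cons (PF.cons (PF.cons (PF.cons (PF.leaf (nat_lit 3261391) (nat_lit 24027212) (nat_lit 43081600) (nat_lit 24027212) [(nat_lit 0), (nat_lit 0), (nat_lit 0), (nat_lit 0)]) (PF.cons (PF.leaf (nat_lit 3514458) (nat_lit 502528) (nat_lit 42712450) (nat_lit 23893833) [(nat_lit 502528), (nat_lit 0), (nat_lit 0), (nat_lit 0)]) (PF.cons (PF.leaf (nat_lit 3809344) (nat_lit 543157) (nat_lit 42285232) (nat_lit 23737266) [(nat_lit 543157), (nat_lit 0), (nat_lit 0), (nat_lit 0)]) (PF.cons (PF.leaf (nat_lit 4137011) (nat_lit 577988) (nat_lit 41813234) (nat_lit 23561611) [(nat_lit 577988), (nat_lit 0), (nat_lit 0), (nat_lit 0)]) (PF.cons (PF.leaf (nat_lit 4491285) (nat_lit 608223) (nat_lit 41306094) (nat_lit 23369824) [(nat_lit 608223), (nat_lit 0), (nat_lit 0), (nat_lit 0)]) PF.nil))))) (PF.cons (PF.cons (PF.leaf (nat_lit 3726631) (nat_lit 1089205) (nat_lit 42283977) (nat_lit 23735630) [(nat_lit 0), (nat_lit 1089205), (nat_lit 0), (nat_lit 0)]) (PF.cons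 (PF.leaf (nat_lit 4032342) (nat_lit 566011) (nat_lit 41838099) (nat_lit 23569725) [(nat_lit 566011), (nat_lit 1134975), (nat_lit 0), (nat_lit 0)]) (PF.cons (PF.leaf (nat_lit 4368858) (nat_lit 597599) (nat_lit 41351608) (nat_lit 23385927)
 [(nat_lit 597599), (nat_lit 1176077), (nat_lit 0), (nat_lit 0)]) (PF.cons PF.nil PF.nil)))) (PF.cons (PF.cons (PF.leaf (nat_lit 4258676) (nat_lit 1164986) (nat_lit 41382407) (nat_lit 23396431) [(nat_lit 0), (nat_lit 1164986), (nat_lit 0), (nat_lit 0)]) (PF.cons (PF.leaf (nat_lit 4602738) (nat_lit 615167) (nat_lit 40884103) (nat_lit 23205382) [(nat_lit 615167), (nat_lit 1202079), (nat_lit 0), (nat_lit 0)]) PF.nil)) (PF.cons PF.nil (PF.cons PF.nil PF.nil))))) (PF.cons (PF.cons (PF.cons (PF.leaf (nat_lit 4070719) (nat_lit 2295384) (nat_lit 41410943) (nat_lit 23402485) [(nat_lit 0), (nat_lit 0), (nat_lit 2295384), (nat_lit 0)]) (PF.cons (PF.leaf (nat_lit 4385196) (nat_lit 590676) (nat_lit 40953383) (nat_lit 23227381) [(nat_lit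 590676), (nat_lit 0), (nat_lit 2337371), (nat_lit 0)]) (PF.cons (PF.leaf (nat_lit 4728411) (nat_lit 619167) (nat_lit 40458966) (nat_lit 23035404) [(nat_lit 619167), (nat_lit 0), (nat_lit 2376106), (nat_lit 0)]) (PF.cons PF.nil PF.nil)))) (PF.cons (PF.cons (PF.leaf (nat_lit 4612762) (nat_lit 1199675) (nat_lit 40494009) (nat_lit 23047895) [(nat_lit 0), (nat_lit 1199675), (nat_lit 2367232), (nat_lit 0)]) (PF.cons PF.nil PF.nil)) (PF.cons PF.nil PF.nil))) (PF.cons
 (PF.cons (PF.cons (PF.leaf (nat_lit 4964292) (nat_lit 2402218) (nat_lit 39611490) (nat_lit 22692885) [(nat_lit 0), (nat_lit 0), (nat_lit 2402218), (nat_lit 0)]) (PF.cons PF.nil PF.nil)) (PF.cons PF.nil PF.nil)) PF.nil))) (PF.cons (PF.cons (PF.cons (PF.cons (PF.leaf (nat_lit 4595766) (nat_lit 4796244) (nat_lit 39630839) (nat_lit 22681728) [(nat_lit 0), (nat_lit 0), (nat_lit 0), (nat_lit 4796244)]) (PF.cons (PF.leaf (nat_lit 4912908) (nat_lit 609201) (nat_lit 39181899) (nat_lit 22501424) [(nat_lit 609201),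 (nat_lit 0), (nat_lit 0), (nat_lit 4816287)]) (PF.cons (PF.leaf (nat_lit 5256724) (nat_lit 635060) (nat_lit 38699933) (nat_lit 22305370) [(nat_lit 635060), (nat_lit 0), (nat_lit 0), (nat_lit 4833388)]) (PF.cons PF.nil PF.nil)))) (PF.cons (PF.cons (PF.leaf (nat_lit 5137310) (nat_lit 1225007) (nat_lit 38736422) (nat_lit 22319149) [(nat_lit 0), (nat_lit 1225007), (nat_lit 0), (nat_lit 4828233)]) (PF.cons PF.nil PF.nil)) (PF.cons PF.nil PF.nil))) (PF.cons (PF.cons (PF.cons (PF.leaf (nat_lit 5478602) (nat_lit 2420407) (nat_lit 37890731) (nat_lit 21964109) [(nat_lit 0), (nat_lit 0), (nat_lit 2420407), (nat_lit 4833564)]) (PF.cons PF.nil PF.nil)) (PF.cons PF.nil PF.nil)) (PF.cons PF.nil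
 PF.nil))) (PF.cons (PF.cons (PF.cons (PF.cons (PF.leaf (nat_lit 5969818) (nat_lit 4796889) (nat_lit 36264989) (nat_lit 21250045) [(nat_lit 0), (nat_lit 0), (nat_lit 0), (nat_lit 4796889)]) (PF.cons PF.nil PF.nil)) (PF.cons PF.nil PF.nil)) (PF.cons PF.nil PF.nil)) (PF.cons PF.nil PF.nil))))

def p15_0_3_0 : pfC (piC [(nat_lit 31235658), (nat_lit 24651042), (nat_lit 20874739), (nat_lit 14610181)] (nat_lit 4354091)) p15_0_3 (nat_lit 4) (nat_lit 0) (nat_lit 1) = true := by decide +kernel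
def p15_0_3_1 : pfC (piC [(nat_lit 31235658), (nat_lit 24651042), (nat_lit 20874739), (nat_lit 14610181)] (nat_lit 4354091)) p15_0_3 (nat_lit 4) (nat_lit 1) (nat_lit 2) = true := by decide +kernel
def p15_0_3_2 : pfC (piC [(nat_lit 31235658), (nat_lit 24651042), (nat_lit 20874739), (nat_lit 14610181)] (nat_lit 4354091)) p15_0_3 (nat_lit 4) (nat_lit 2) (nat_lit 3) = true := by decide +kernel
def p15_0_3_3 : pfC (piC [(nat_lit 31235658), (nat_lit 24651042), (nat_lit 20874739), (nat_lit 14610181)] (nat_lit 4354091)) p15_0_3 (nat_lit 4) (nat_lit 3) (nat_lit 4) = true := by decide +kernel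
def p15_0_3_4 : pfC (piC [(nat_lit 31235658), (nat_lit 24651042), (nat_lit 20874739), (nat_lit 14610181)] (nat_lit 4354091)) p15_0_3 (nat_lit 4) (nat_lit 4) (nat_lit 5) = true := by decide +kernel
def p15_0_3_5 : pfC (piC [(nat_lit 31235658), (nat_lit 24651042), (nat_lit 20874739), (nat_lit 14610181)] (nat_lit 4354091)) p15_0_3 (nat_lit 4) (nat_lit 5) (nat_lit 6) = true := by decide +kernel
def p15_0_3_6 : pfC (piC [(nat_lit 31235658), (nat_lit 24651042), (nat_lit 20874739), (nat_lit 14610181)] (nat_lit 4354091)) p15_0_3 (nat_lit 4) (nat_lit 6) (nat_lit 7) = true := by decide +kernel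
def p15_0_3_7 : pfC (piC [(nat_lit 31235658), (nat_lit 24651042), (nat_lit 20874739), (nat_lit 14610181)] (nat_lit 4354091)) p15_0_3 (nat_lit 4) (nat_lit 7) (nat_lit 8) = true := by decide +kernel
def p15_0_3_8 : pfC (piC [(nat_lit 31235658), (nat_lit 24651042), (nat_lit 20874739), (nat_lit 14610181)] (nat_lit 4354091)) p15_0_3 (nat_lit 4) (nat_lit 8) (nat_lit 9) = true := by decide +kernel
def p15_0_3_9 : pfC (piC [(nat_lit 31235658), (nat_lit 24651042), (nat_lit 20874739), (nat_lit 14610181)] (nat_lit 4354091)) p15_0_3 (nat_lit 4) (nat_lit 9) (nat_lit 10) = true := by decide +kernel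
def p15_0_3_10 : pfC (piC [(nat_lit 31235658), (nat_lit 24651042), (nat_lit 20874739), (nat_lit 14610181)] (nat_lit 4354091)) p15_0_3 (nat_lit 4) (nat_lit 10) (nat_lit 11) = true := by decide +kernel
def p15_0_3_11 : pfC (piC [(nat_lit 31235658), (nat_lit 24651042), (nat_lit 20874739), (nat_lit 14610181)] (nat_lit 4354091)) p15_0_3 (nat_lit 4) (nat_lit 11) (nat_lit 12) = true := by decide +kernel
def p15_0_3_12 : pfC (piC [(nat_lit 31235658), (nat_lit 24651042), (nat_lit 20874739), (nat_lit 14610181)] (nat_lit 4354091)) p15_0_3 (nat_lit 4) (nat_lit 12) (nat_lit 13) = true := by decide +kernel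
def p15_0_3_13 : pfC (piC [(nat_lit 31235658), (nat_lit 24651042), (nat_lit 20874739), (nat_lit 14610181)] (nat_lit 4354091)) p15_0_3 (nat_lit 4) (nat_lit 13) (nat_lit 14) = true := by decide +kernel
def p15_0_3_14 : pfC (piC [(nat_lit 31235658), (nat_lit 24651042), (nat_lit 20874739), (nat_lit 14610181)] (nat_lit 4354091)) p15_0_3 (nat_lit 4) (nat_lit 14) (nat_lit 15) = true := by decide +kernel
def p15_0_3_15 : pfC (piC [(nat_lit 31235658), (nat_lit 24651042), (nat_lit 20874739), (nat_lit 14610181)] (nat_lit 4354091)) p15_0_3 (nat_lit 4) (nat_lit 15) (nat_lit 16) = true := by decide +kernel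
def p15_0_3_16 : pfC (piC [(nat_lit 31235658), (nat_lit 24651042), (nat_lit 20874739), (nat_lit 14610181)] (nat_lit 4354091)) p15_0_3 (nat_lit 4) (nat_lit 16) (nat_lit 17) = true := by decide +kernel
def p15_0_3_17 : pfC (piC [(nat_lit 31235658), (nat_lit 24651042), (nat_lit 20874739), (nat_lit 14610181)] (nat_lit 4354091)) p15_0_3 (nat_lit 4) (nat_lit 17) (nat_lit 18) = true := by decide +kernel
def p15_0_3_18 : pfC (piC [(nat_lit 31235658), (nat_lit 24651042), (nat_lit 20874739), (nat_lit 14610181)] (nat_lit 4354091)) p15_0_3 (nat_lit 4) (nat_lit 18) (nat_lit 19) = true := by decide +kernel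
def p15_0_3_19 : pfC (piC [(nat_lit 31235658), (nat_lit 24651042), (nat_lit 20874739), (nat_lit 14610181)] (nat_lit 4354091)) p15_0_3 (nat_lit 4) (nat_lit 19) (nat_lit 20) = true := by decide +kernel
def p15_0_3_20 : pfC (piC [(nat_lit 31235658), (nat_lit 24651042), (nat_lit 20874739), (nat_lit 14610181)] (nat_lit 4354091)) p15_0_3 (nat_lit 4) (nat_lit 20) (nat_lit 21) = true := by decide +kernel
theorem p15_0_3_T : PfS (PiF n15_0.reverse (nat_lit 4354091)) p15_0_3 (nat_lit 4) [] 0 :=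
  pftab_of (los := [(nat_lit 31235658), (nat_lit 24651042), (nat_lit 20874739), (nat_lit 14610181)]) (by decide +kernel) (hi := (nat_lit 21)) (PfP.trans (PfP.trans (PfP.trans (PfP.trans (PfP.trans (PfP.trans (PfP.trans (PfP.trans (PfP.trans (PfP.trans (PfP.trans (PfP.trans (PfP.trans (PfP.trans (PfP.trans (PfP.trans (PfP.trans (PfP.trans (PfP.trans (PfP.trans (pfC_sound p15_0_3_0) (pfC_sound p15_0_3_1)) (pfC_sound p15_0_3_2)) (pfC_sound p15_0_3_3)) (pfC_sound p15_0_3_4)) (pfC_sound p15_0_3_5)) (pfC_sound p15_0_3_6)) (pfC_sound p15_0_3_7)) (pfC_sound p15_0_3_8)) (pfC_sound p15_0_3_9)) (pfC_sound p15_0_3_10)) (pfC_sound p15_0_3_11)) (pfC_sound p15_0_3_12)) (pfC_sound p15_0_3_13)) (pfC_sound p15_0_3_14)) (pfC_sound p15_0_3_15)) (pfC_sound p15_0_3_16)) (pfC_sound p15_0_3_17)) (pfC_sound p15_0_3_18)) (pfC_sound p15_0_3_19)) (pfC_sound p15_0_3_20)) (by decide +kernel)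

def z15_0_3 : zOK yB15_0 (nat_lit 3) (nat_lit 750) (nat_lit 986) (nat_lit 4354091) (nat_lit 1485002) = true := by decide +kernel
def g15_0_3 : gOK yB15_0.x P15_0 (nat_lit 1434) (q15_0 :: r15_0) (nat_lit 3) (nat_lit 750) (nat_lit 4) (nat_lit 986) (nat_lit 12712500) (nat_lit 12712500) (nat_lit 12712500) (nat_lit 12712500) [(nat_lit 800)] = true := by decide +kernel
def v15_0_3 : ivC P15_0 s15_0 w15_0 n15_0 (nat_lit 4) (nat_lit 4910) (nat_lit 3) (nat_lit 750) f104_1_750 f112_1_750 (nat_lit 4) (nat_lit 986) f104_1_986 f112_1_986 (nat_lit 4354091) (nat_lit 1485002) p15_0_3 = true := by decide +kernel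
/-! box `yB15_1` -/

def P15_1 : BQ := ⟨(nat_lit 8), (nat_lit 8), (nat_lit 0), (nat_lit 4), (nat_lit 4), (nat_lit 560), (nat_lit 580), (nat_lit 120), [(nat_lit 200), (nat_lit 300), (nat_lit 450), (nat_lit 800)], (nat_lit 11728000), (nat_lit 16000000), (nat_lit 16000000000)⟩
def q15_1 : PC := ⟨(nat_lit 1000), [(nat_lit 120000), (nat_lit 200000), (nat_lit 300000), (nat_lit 450000), (nat_lit 800000)], (nat_lit 340282367000166625996085689103316680705000000), (nat_lit 15988272000000), (nat_lit 15988272000000), (nat_lit 10000000)⟩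
def r15_1 : List PC := [⟨(nat_lit 1428), [(nat_lit 120628), (nat_lit 201145), (nat_lit 301902), (nat_lit 453464), (nat_lit 799472)], (nat_lit 342986931253152007331069606702306207091086535), (nat_lit 16423473603200), (nat_lit 16440920937600), (nat_lit 10076978)⟩]
def s15_1 : List PB := [⟨(nat_lit 28560), (nat_lit 1930048000000), [(nat_lit 201145), (nat_lit 301902), (nat_lit 453464), (nat_lit 799472)], (nat_lit 342986931253152007331069606702306207091086535), (nat_lit 1142323380445824), (nat_lit 1142340827780224), (nat_lit 68480)⟩]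
def n15_1 : List KN := [⟨(nat_lit 800), (nat_lit 450), (nat_lit 14481699), (nat_lit 11363143)⟩, ⟨(nat_lit 450), (nat_lit 300), (nat_lit 20955711), (nat_lit 14481699)⟩, ⟨(nat_lit 300), (nat_lit 200), (nat_lit 24889148), (nat_lit 20955711)⟩, ⟨(nat_lit 200), (nat_lit 120), (nat_lit 31465553), (nat_lit 24889148)⟩]
def w15_1 : List ℕ := [(nat_lit 68480)]
def par15_1 : parC yB15_1 P15_1 s15_1 r15_1 q15_1 n15_1 w15_1 = true := by decide +kernel

def p15_1_0 : PF := (PF.cons (PF.cons (PF.cons (PF.cons (PF.leaf (nat_lit 193500) (nat_lit 430740) (nat_lit 66678072) (nat_lit 430740) [(nat_lit 0), (nat_lit 0), (nat_lit 0), (nat_lit 0)]) (PF.cons (PF.leaf (nat_lit 386118) (nat_lit 322858) (nat_lit 66281790) (nat_lit 504163) [(nat_lit 322858), (nat_lit 0), (nat_lit 0), (nat_lit 0)]) (PF.cons (PF.leaf (nat_lit 633074) (nat_lit 377536) (nat_lit 65777916) (nat_lit 575823) [(nat_lit 377536), (nat_lit 0), (nat_lit 0), (nat_lit 0)]) (PF.cons PF.nil PF.nil)))) (PF.cons (PF.cons (PF.leaf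 (nat_lit 589156) (nat_lit 567157) (nat_lit 65741548) (nat_lit 567157) [(nat_lit 0), (nat_lit 800106), (nat_lit 0), (nat_lit 0)]) (PF.cons PF.nil PF.nil)) (PF.cons PF.nil PF.nil))) (PF.cons (PF.cons (PF.cons (PF.leaf (nat_lit 990642) (nat_lit 658718) (nat_lit 64412908) (nat_lit 658718) [(nat_lit 0), (nat_lit 0), (nat_lit 2037186), (nat_lit 0)]) (PF.cons PF.nil PF.nil)) (PF.cons PF.nil PF.nil)) (PF.cons PF.nil PF.nil))) (PF.cons (PF.cons (PF.cons (PF.cons (PF.leaf (nat_lit 1654960) (nat_lit 755529) (nat_lit 61504075) (nat_lit 755529) [(nat_lit 0), (nat_lit 0), (nat_lit 0), (nat_lit 4849207)]) (PF.cons (PF.leaf (nat_lit 1980683) (nat_lit 542620) (nat_lit 60807990) (nat_lit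
 810952) [(nat_lit 542620), (nat_lit 0), (nat_lit 0), (nat_lit 4947249)]) (PF.cons (PF.leaf (nat_lit 2347378) (nat_lit 584012) (nat_lit 60033741) (nat_lit 862548) [(nat_lit 584012), (nat_lit 0), (nat_lit 0), (nat_lit 5044497)]) (PF.cons PF.nil PF.nil)))) (PF.cons (PF.cons (PF.leaf (nat_lit 2245618) (nat_lit 850881) (nat_lit 60060073) (nat_lit 850881) [(nat_lit 0), (nat_lit 1162333), (nat_lit 0), (nat_lit 5035525)]) (PF.cons (PF.leaf (nat_lit 2626429) (nat_lit 611183) (nat_lit 59254609) (nat_lit 898797) [(nat_lit 611183), (nat_lit 1218446), (nat_lit 0), (nat_lit 5125775)]) PF.nil)) (PF.cons PF.nil PF.nil))) (PF.cons (PF.cons (PF.cons (PF.leaf (nat_lit 2702372) (nat_lit 905316) (nat_lit 58490667) (nat_lit 905316) [(nat_lit 0), (nat_lit 0), (nat_lit 2538785), (nat_lit 5174043)]) (PF.cons PF.nil PF.nil)) (PF.cons PF.nil PF.nil)) (PF.cons PF.nil PF.nil))) (PF.cons (PF.cons (PF.cons (PF.cons (PF.leaf (nat_lit 3368729) (nat_lit 957720) (nat_lit 55530672) (nat_lit 957720)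 [(nat_lit 0), (nat_lit 0), (nat_lit 0), (nat_lit 5310209)]) (PF.cons (PF.leaf (nat_lit 3767971) (nat_lit 681197) (nat_lit 54707305) (nat_lit 995496) [(nat_lit 681197), (nat_lit 0), (nat_lit 0), (nat_lit 5362406)])
 (PF.cons PF.nil PF.nil))) (PF.cons (PF.cons (PF.leaf (nat_lit 4050660) (nat_lit 1019390) (nat_lit 53918164) (nat_lit 1019390) [(nat_lit 0), (nat_lit 1369285), (nat_lit 0), (nat_lit 5400985)]) PF.nil) PF.nil)) (PF.cons PF.nil PF.nil)) (PF.cons PF.nil (PF.cons PF.nil (PF.cons PF.nil PF.nil))))))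

def p15_1_0_0 : pfC (piC [(nat_lit 31465553), (nat_lit 24889148), (nat_lit 20955711), (nat_lit 14481699)] (nat_lit 39633164)) p15_1_0 (nat_lit 4) (nat_lit 0) (nat_lit 1) = true := by decide +kernel
def p15_1_0_1 : pfC (piC [(nat_lit 31465553), (nat_lit 24889148), (nat_lit 20955711), (nat_lit 14481699)] (nat_lit 39633164)) p15_1_0 (nat_lit 4) (nat_lit 1) (nat_lit 2) = true := by decide +kernel
def p15_1_0_2 : pfC (piC [(nat_lit 31465553), (nat_lit 24889148), (nat_lit 20955711), (nat_lit 14481699)] (nat_lit 39633164)) p15_1_0 (nat_lit 4) (nat_lit 2) (nat_lit 3) = true := by decide +kernel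
def p15_1_0_3 : pfC (piC [(nat_lit 31465553), (nat_lit 24889148), (nat_lit 20955711), (nat_lit 14481699)] (nat_lit 39633164)) p15_1_0 (nat_lit 4) (nat_lit 3) (nat_lit 4) = true := by decide +kernel
def p15_1_0_4 : pfC (piC [(nat_lit 31465553), (nat_lit 24889148), (nat_lit 20955711), (nat_lit 14481699)] (nat_lit 39633164)) p15_1_0 (nat_lit 4) (nat_lit 4) (nat_lit 5) = true := by decide +kernel
def p15_1_0_5 : pfC (piC [(nat_lit 31465553), (nat_lit 24889148), (nat_lit 20955711), (nat_lit 14481699)] (nat_lit 39633164)) p15_1_0 (nat_lit 4) (nat_lit 5) (nat_lit 6) = true := by decide +kernel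
def p15_1_0_6 : pfC (piC [(nat_lit 31465553), (nat_lit 24889148), (nat_lit 20955711), (nat_lit 14481699)] (nat_lit 39633164)) p15_1_0 (nat_lit 4) (nat_lit 6) (nat_lit 7) = true := by decide +kernel
def p15_1_0_7 : pfC (piC [(nat_lit 31465553), (nat_lit 24889148), (nat_lit 20955711), (nat_lit 14481699)] (nat_lit 39633164)) p15_1_0 (nat_lit 4) (nat_lit 7) (nat_lit 8) = true := by decide +kernel
def p15_1_0_8 : pfC (piC [(nat_lit 31465553), (nat_lit 24889148), (nat_lit 20955711), (nat_lit 14481699)] (nat_lit 39633164)) p15_1_0 (nat_lit 4) (nat_lit 8) (nat_lit 9) = true := by decide +kernel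
def p15_1_0_9 : pfC (piC [(nat_lit 31465553), (nat_lit 24889148), (nat_lit 20955711), (nat_lit 14481699)] (nat_lit 39633164)) p15_1_0 (nat_lit 4) (nat_lit 9) (nat_lit 10) = true := by decide +kernel
def p15_1_0_10 : pfC (piC [(nat_lit 31465553), (nat_lit 24889148), (nat_lit 20955711), (nat_lit 14481699)] (nat_lit 39633164)) p15_1_0 (nat_lit 4) (nat_lit 10) (nat_lit 11) = true := by decide +kernel
def p15_1_0_11 : pfC (piC [(nat_lit 31465553), (nat_lit 24889148), (nat_lit 20955711), (nat_lit 14481699)] (nat_lit 39633164)) p15_1_0 (nat_lit 4) (nat_lit 11) (nat_lit 12) = true := by decide +kernel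
def p15_1_0_12 : pfC (piC [(nat_lit 31465553), (nat_lit 24889148), (nat_lit 20955711), (nat_lit 14481699)] (nat_lit 39633164)) p15_1_0 (nat_lit 4) (nat_lit 12) (nat_lit 13) = true := by decide +kernel
def p15_1_0_13 : pfC (piC [(nat_lit 31465553), (nat_lit 24889148), (nat_lit 20955711), (nat_lit 14481699)] (nat_lit 39633164)) p15_1_0 (nat_lit 4) (nat_lit 13) (nat_lit 14) = true := by decide +kernel
theorem p15_1_0_T : PfS (PiF n15_1.reverse (nat_lit 39633164)) p15_1_0 (nat_lit 4) [] 0 :=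
  pftab_of (los := [(nat_lit 31465553), (nat_lit 24889148), (nat_lit 20955711), (nat_lit 14481699)]) (by decide +kernel) (hi := (nat_lit 14)) (PfP.trans (PfP.trans (PfP.trans (PfP.trans (PfP.trans (PfP.trans (PfP.trans (PfP.trans (PfP.trans (PfP.trans (PfP.trans (PfP.trans (PfP.trans (pfC_sound p15_1_0_0) (pfC_sound p15_1_0_1)) (pfC_sound p15_1_0_2)) (pfC_sound p15_1_0_3)) (pfC_sound p15_1_0_4)) (pfC_sound p15_1_0_5)) (pfC_sound p15_1_0_6)) (pfC_sound p15_1_0_7)) (pfC_sound p15_1_0_8)) (pfC_sound p15_1_0_9)) (pfC_sound p15_1_0_10)) (pfC_sound p15_1_0_11)) (pfC_sound p15_1_0_12)) (pfC_sound p15_1_0_13)) (by decide +kernel)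

def z15_1_0 : zOK yB15_1 (nat_lit 0) (nat_lit 0) (nat_lit 400) (nat_lit 39633164) (nat_lit 10788098) = true := by decide +kernel
def g15_1_0 : gOK yB15_1.x P15_1 (nat_lit 1413) (q15_1 :: r15_1) (nat_lit 0) (nat_lit 0) (nat_lit 1) (nat_lit 400) (nat_lit 0) (nat_lit 11000000) (nat_lit 12712500) (nat_lit 12712500) [(nat_lit 800), (nat_lit 1600)] = true := by decide +kernel
def v15_1_0 : ivC P15_1 s15_1 w15_1 n15_1 (nat_lit 4) (nat_lit 5640) (nat_lit 0) (nat_lit 0) f112_1_0 f120_1_0 (nat_lit 1) (nat_lit 400) f112_1_400 f120_1_400 (nat_lit 39633164) (nat_lit 10788098) p15_1_0 = true := by decide +kernel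
def p15_1_1 : PF := (PF.cons (PF.cons (PF.cons (PF.cons (PF.leaf (nat_lit 2134605) (nat_lit 10230189) (nat_lit 56878623) (nat_lit 10230189) [(nat_lit 0), (nat_lit 0), (nat_lit 0), (nat_lit 0)]) (PF.cons (PF.leaf (nat_lit 2409719) (nat_lit 521756) (nat_lit 56320152) (nat_lit 10266903) [(nat_lit 521756), (nat_lit 0), (nat_lit 0), (nat_lit 0)]) PF.nil)) (PF.cons PF.nil PF.nil)) (PF.cons PF.nil PF.nil)) (PF.cons (PF.cons (PF.cons (PF.cons (PF.leaf (nat_lit 3672678) (nat_lit 5254927) (nat_lit 51554168) (nat_lit 10299716) [(nat_lit 0), (nat_lit 0), (nat_lit 0), (nat_lit 5254927)]) (PF.cons PF.nil PF.nil)) (PF.cons PF.nil PF.nil)) (PF.cons PF.nil PF.nil)) (PF.cons PF.nil (PF.cons PF.nil PF.nil))))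

def p15_1_1_0 : pfC (piC [(nat_lit 31465553), (nat_lit 24889148), (nat_lit 20955711), (nat_lit 14481699)] (nat_lit 10788098)) p15_1_1 (nat_lit 4) (nat_lit 0) (nat_lit 1) = true := by decide +kernel
def p15_1_1_1 : pfC (piC [(nat_lit 31465553), (nat_lit 24889148), (nat_lit 20955711), (nat_lit 14481699)] (nat_lit 10788098)) p15_1_1 (nat_lit 4) (nat_lit 1) (nat_lit 2) = true := by decide +kernel
def p15_1_1_2 : pfC (piC [(nat_lit 31465553), (nat_lit 24889148), (nat_lit 20955711), (nat_lit 14481699)] (nat_lit 10788098)) p15_1_1 (nat_lit 4) (nat_lit 2) (nat_lit 3) = true := by decide +kernel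
theorem p15_1_1_T : PfS (PiF n15_1.reverse (nat_lit 10788098)) p15_1_1 (nat_lit 4) [] 0 :=
  pftab_of (los := [(nat_lit 31465553), (nat_lit 24889148), (nat_lit 20955711), (nat_lit 14481699)]) (by decide +kernel) (hi := (nat_lit 3)) (PfP.trans (PfP.trans (pfC_sound p15_1_1_0) (pfC_sound p15_1_1_1)) (pfC_sound p15_1_1_2)) (by decide +kernel)

def z15_1_1 : zOK yB15_1 (nat_lit 1) (nat_lit 400) (nat_lit 600) (nat_lit 10788098) (nat_lit 6367670) = true := by decide +kernel
def g15_1_1 : gOK yB15_1.x P15_1 (nat_lit 1413) (q15_1 :: r15_1) (nat_lit 1) (nat_lit 400) (nat_lit 2) (nat_lit 600) (nat_lit 11000000) (nat_lit 17850000) (nat_lit 12712500) (nat_lit 12712500) [(nat_lit 800), (nat_lit 1130)] = true := by decide +kernel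
def v15_1_1 : ivC P15_1 s15_1 w15_1 n15_1 (nat_lit 4) (nat_lit 5240) (nat_lit 1) (nat_lit 400) f112_1_400 f120_1_400 (nat_lit 2) (nat_lit 600) f112_1_600 f120_1_600 (nat_lit 10788098) (nat_lit 6367670) p15_1_1 = true := by decide +kernel
def p15_1_2 : PF := (PF.cons (PF.cons (PF.cons (PF.cons (PF.leaf (nat_lit 2830837) (nat_lit 17013328) (nat_lit 50095484) (nat_lit 17013328) [(nat_lit 0), (nat_lit 0), (nat_lit 0), (nat_lit 0)]) (PF.cons (PF.leaf (nat_lit 3095920) (nat_lit 518701) (nat_lit 49625316) (nat_lit 16964794) [(nat_lit 518701), (nat_lit 0), (nat_lit 0), (nat_lit 0)]) (PF.cons (PF.leaf (nat_lit 3405249) (nat_lit 561410) (nat_lit 49081295) (nat_lit 16904695) [(nat_lit 561410), (nat_lit 0), (nat_lit 0), (nat_lit 0)]) (PF.cons PF.nil PF.nil)))) (PF.cons (PF.cons (PF.leaf (nat_lit 3324318) (nat_lit 1139632) (nat_lit 49068153) (nat_lit 16901026) [(nat_lit 0), (nat_lit 1139632), (nat_lit 0), (nat_lit 0)]) (PF.cons PF.nil PF.nil)) (PF.cons PF.nil PF.nil))) (PF.cons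 (PF.cons (PF.cons (PF.leaf (nat_lit 3710736) (nat_lit 2479030) (nat_lit 47885265) (nat_lit 16744516) [(nat_lit 0), (nat_lit 0), (nat_lit 2479030), (nat_lit 0)]) (PF.cons PF.nil PF.nil)) (PF.cons PF.nil PF.nil)) (PF.cons PF.nil PF.nil))) (PF.cons (PF.cons (PF.cons (PF.cons (PF.leaf (nat_lit 4255998) (nat_lit 5040288) (nat_lit 45684049) (nat_lit 16384474) [(nat_lit 0), (nat_lit 0), (nat_lit 0), (nat_lit 5040288)]) (PF.cons (PF.leaf (nat_lit 4589919) (nat_lit 634106) (nat_lit
 45115438) (nat_lit 16294985) [(nat_lit 634106), (nat_lit 0), (nat_lit 0), (nat_lit 5064283)]) PF.nil)) (PF.cons PF.nil PF.nil)) (PF.cons PF.nil PF.nil)) (PF.cons PF.nil (PF.cons PF.nil PF.nil))))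

def p15_1_2_0 : pfC (piC [(nat_lit 31465553), (nat_lit 24889148), (nat_lit 20955711), (nat_lit 14481699)] (nat_lit 6367670)) p15_1_2 (nat_lit 4) (nat_lit 0) (nat_lit 1) = true := by decide +kernel
def p15_1_2_1 : pfC (piC [(nat_lit 31465553), (nat_lit 24889148), (nat_lit 20955711), (nat_lit 14481699)] (nat_lit 6367670)) p15_1_2 (nat_lit 4) (nat_lit 1) (nat_lit 2) = true := by decide +kernel
def p15_1_2_2 : pfC (piC [(nat_lit 31465553), (nat_lit 24889148), (nat_lit 20955711), (nat_lit 14481699)] (nat_lit 6367670)) p15_1_2 (nat_lit 4) (nat_lit 2) (nat_lit 3) = true := by decide +kernel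
def p15_1_2_3 : pfC (piC [(nat_lit 31465553), (nat_lit 24889148), (nat_lit 20955711), (nat_lit 14481699)] (nat_lit 6367670)) p15_1_2 (nat_lit 4) (nat_lit 3) (nat_lit 4) = true := by decide +kernel
def p15_1_2_4 : pfC (piC [(nat_lit 31465553), (nat_lit 24889148), (nat_lit 20955711), (nat_lit 14481699)] (nat_lit 6367670)) p15_1_2 (nat_lit 4) (nat_lit 4) (nat_lit 5) = true := by decide +kernel
def p15_1_2_5 : pfC (piC [(nat_lit 31465553), (nat_lit 24889148), (nat_lit 20955711), (nat_lit 14481699)] (nat_lit 6367670)) p15_1_2 (nat_lit 4) (nat_lit 5) (nat_lit 6) = true := by decide +kernel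
def p15_1_2_6 : pfC (piC [(nat_lit 31465553), (nat_lit 24889148), (nat_lit 20955711), (nat_lit 14481699)] (nat_lit 6367670)) p15_1_2 (nat_lit 4) (nat_lit 6) (nat_lit 7) = true := by decide +kernel
theorem p15_1_2_T : PfS (PiF n15_1.reverse (nat_lit 6367670)) p15_1_2 (nat_lit 4) [] 0 :=
  pftab_of (los := [(nat_lit 31465553), (nat_lit 24889148), (nat_lit 20955711), (nat_lit 14481699)]) (by decide +kernel) (hi := (nat_lit 7)) (PfP.trans (PfP.trans (PfP.trans (PfP.trans (PfP.trans (PfP.trans (pfC_sound p15_1_2_0) (pfC_sound p15_1_2_1)) (pfC_sound p15_1_2_2)) (pfC_sound p15_1_2_3)) (pfC_sound p15_1_2_4)) (pfC_sound p15_1_2_5)) (pfC_sound p15_1_2_6)) (by decide +kernel)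

def z15_1_2 : zOK yB15_1 (nat_lit 2) (nat_lit 600) (nat_lit 750) (nat_lit 6367670) (nat_lit 4431671) = true := by decide +kernel
def g15_1_2 : gOK yB15_1.x P15_1 (nat_lit 1413) (q15_1 :: r15_1) (nat_lit 2) (nat_lit 600) (nat_lit 3) (nat_lit 750) (nat_lit 12712500) (nat_lit 12712500) (nat_lit 12712500) (nat_lit 12712500) [(nat_lit 800), (nat_lit 1600)] = true := by decide +kernel
def v15_1_2 : ivC P15_1 s15_1 w15_1 n15_1 (nat_lit 4) (nat_lit 5040) (nat_lit 2) (nat_lit 600) f112_1_600 f120_1_600 (nat_lit 3) (nat_lit 750) f112_1_750 f120_1_750 (nat_lit 6367670) (nat_lit 4431671) p15_1_2 = true := by decide +kernel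
def p15_1_3 : PF := (PF.cons (PF.cons (PF.cons (PF.cons (PF.leaf (nat_lit 3242455) (nat_lit 23602007) (nat_lit 43506805) (nat_lit 23602007) [(nat_lit 0), (nat_lit 0), (nat_lit 0), (nat_lit 0)]) (PF.cons (PF.leaf (nat_lit 3489775) (nat_lit 487884) (nat_lit 43143282) (nat_lit 23477645) [(nat_lit 487884), (nat_lit 0), (nat_lit 0), (nat_lit 0)]) (PF.cons (PF.leaf (nat_lit 3778158) (nat_lit 527498) (nat_lit 42722339) (nat_lit 23331475) [(nat_lit 527498), (nat_lit 0), (nat_lit 0), (nat_lit 0)]) (PF.cons (PF.leaf (nat_lit 4098782) (nat_lit 561526) (nat_lit 42256978) (nat_lit 23167256) [(nat_lit 561526), (nat_lit 0), (nat_lit 0), (nat_lit 0)]) (PF.cons (PF.leaf (nat_lit 4445658) (nat_lit 591127) (nat_lit 41756618) (nat_lit 22987684) [(nat_lit 591127), (nat_lit 0), (nat_lit 0), (nat_lit 0)]) PF.nil))))) (PF.cons (PF.cons (PF.leaf (nat_lit 3701710) (nat_lit 1069480) (nat_lit 42712490) (nat_lit 23326842) [(nat_lit 0), (nat_lit 1069480), (nat_lit 0), (nat_lit 0)]) (PF.cons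 (PF.leaf (nat_lit 4000968) (nat_lit 550231) (nat_lit 42272645) (nat_lit 23171607) [(nat_lit 550231), (nat_lit 1114328), (nat_lit 0), (nat_lit 0)]) (PF.cons (PF.leaf (nat_lit 4330554) (nat_lit 581088) (nat_lit 41792498) (nat_lit 22999410)
 [(nat_lit 581088), (nat_lit 1154727), (nat_lit 0), (nat_lit 0)]) (PF.cons PF.nil PF.nil)))) (PF.cons (PF.cons (PF.leaf (nat_lit 4227289) (nat_lit 1144429) (nat_lit 41814001) (nat_lit 23005951) [(nat_lit 0), (nat_lit 1144429), (nat_lit 0), (nat_lit 0)]) (PF.cons (PF.leaf (nat_lit 4564518) (nat_lit 598616) (nat_lit 41321772) (nat_lit 22826623) [(nat_lit 598616), (nat_lit 1180900), (nat_lit 0), (nat_lit 0)]) PF.nil)) (PF.cons PF.nil (PF.cons PF.nil PF.nil))))) (PF.cons (PF.cons (PF.cons (PF.leaf (nat_lit 4058135) (nat_lit 2316478) (nat_lit 41797569) (nat_lit 22994765) [(nat_lit 0), (nat_lit 0), (nat_lit 2316478), (nat_lit 0)]) (PF.cons (PF.leaf (nat_lit 4366444) (nat_lit 575417) (nat_lit 41345643) (nat_lit 22830200) [(nat_lit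 575417), (nat_lit 0), (nat_lit 2357550), (nat_lit 0)]) (PF.cons (PF.leaf (nat_lit 4703019) (nat_lit 603202) (nat_lit 40857184) (nat_lit 22649611) [(nat_lit 603202), (nat_lit 0), (nat_lit 2395612), (nat_lit 0)]) (PF.cons PF.nil PF.nil)))) (PF.cons (PF.cons (PF.leaf (nat_lit 4594164) (nat_lit 1180281) (nat_lit 40882981) (nat_lit 22657993) [(nat_lit 0), (nat_lit 1180281), (nat_lit 2387555), (nat_lit 0)]) (PF.cons PF.nil PF.nil)) (PF.cons PF.nil PF.nil))) (PF.cons
 (PF.cons (PF.cons (PF.leaf (nat_lit 4958357) (nat_lit 2423869) (nat_lit 39958357) (nat_lit 22302716) [(nat_lit 0), (nat_lit 0), (nat_lit 2423869), (nat_lit 0)]) (PF.cons PF.nil PF.nil)) (PF.cons PF.nil PF.nil)) PF.nil))) (PF.cons (PF.cons (PF.cons (PF.cons (PF.leaf (nat_lit 4558284) (nat_lit 4680598) (nat_lit 40092108) (nat_lit 22336105) [(nat_lit 0), (nat_lit 0), (nat_lit 0), (nat_lit 4680598)]) (PF.cons (PF.leaf (nat_lit 4869323) (nat_lit 593088) (nat_lit 39647906) (nat_lit 22166210) [(nat_lit 593088),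 (nat_lit 0), (nat_lit 0), (nat_lit 4701606)]) (PF.cons (PF.leaf (nat_lit 5206731) (nat_lit 618479) (nat_lit 39170727) (nat_lit 21981242) [(nat_lit 618479), (nat_lit 0), (nat_lit 0), (nat_lit 4719884)]) (PF.cons PF.nil PF.nil)))) (PF.cons (PF.cons (PF.leaf (nat_lit 5094205) (nat_lit 1204913) (nat_lit 39198179) (nat_lit 21990780) [(nat_lit 0), (nat_lit 1204913), (nat_lit 0), (nat_lit 4714940)]) (PF.cons PF.nil PF.nil)) (PF.cons PF.nil PF.nil))) (PF.cons (PF.cons (PF.cons (PF.leaf (nat_lit 5448422) (nat_lit 2441907) (nat_lit 38309843) (nat_lit 21634357) [(nat_lit 0), (nat_lit 0), (nat_lit 2441907), (nat_lit 4722703)]) (PF.cons PF.nil PF.nil)) PF.nil) PF.nil)) (PF.cons PF.nil (PF.cons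
 PF.nil PF.nil))))

def p15_1_3_0 : pfC (piC [(nat_lit 31465553), (nat_lit 24889148), (nat_lit 20955711), (nat_lit 14481699)] (nat_lit 4431671)) p15_1_3 (nat_lit 4) (nat_lit 0) (nat_lit 1) = true := by decide +kernel
def p15_1_3_1 : pfC (piC [(nat_lit 31465553), (nat_lit 24889148), (nat_lit 20955711), (nat_lit 14481699)] (nat_lit 4431671)) p15_1_3 (nat_lit 4) (nat_lit 1) (nat_lit 2) = true := by decide +kernel
def p15_1_3_2 : pfC (piC [(nat_lit 31465553), (nat_lit 24889148), (nat_lit 20955711), (nat_lit 14481699)] (nat_lit 4431671)) p15_1_3 (nat_lit 4) (nat_lit 2) (nat_lit 3) = true := by decide +kernel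
def p15_1_3_3 : pfC (piC [(nat_lit 31465553), (nat_lit 24889148), (nat_lit 20955711), (nat_lit 14481699)] (nat_lit 4431671)) p15_1_3 (nat_lit 4) (nat_lit 3) (nat_lit 4) = true := by decide +kernel
def p15_1_3_4 : pfC (piC [(nat_lit 31465553), (nat_lit 24889148), (nat_lit 20955711), (nat_lit 14481699)] (nat_lit 4431671)) p15_1_3 (nat_lit 4) (nat_lit 4) (nat_lit 5) = true := by decide +kernel
def p15_1_3_5 : pfC (piC [(nat_lit 31465553), (nat_lit 24889148), (nat_lit 20955711), (nat_lit 14481699)] (nat_lit 4431671)) p15_1_3 (nat_lit 4) (nat_lit 5) (nat_lit 6) = true := by decide +kernel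
def p15_1_3_6 : pfC (piC [(nat_lit 31465553), (nat_lit 24889148), (nat_lit 20955711), (nat_lit 14481699)] (nat_lit 4431671)) p15_1_3 (nat_lit 4) (nat_lit 6) (nat_lit 7) = true := by decide +kernel
def p15_1_3_7 : pfC (piC [(nat_lit 31465553), (nat_lit 24889148), (nat_lit 20955711), (nat_lit 14481699)] (nat_lit 4431671)) p15_1_3 (nat_lit 4) (nat_lit 7) (nat_lit 8) = true := by decide +kernel
def p15_1_3_8 : pfC (piC [(nat_lit 31465553), (nat_lit 24889148), (nat_lit 20955711), (nat_lit 14481699)] (nat_lit 4431671)) p15_1_3 (nat_lit 4) (nat_lit 8) (nat_lit 9) = true := by decide +kernel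
def p15_1_3_9 : pfC (piC [(nat_lit 31465553), (nat_lit 24889148), (nat_lit 20955711), (nat_lit 14481699)] (nat_lit 4431671)) p15_1_3 (nat_lit 4) (nat_lit 9) (nat_lit 10) = true := by decide +kernel
def p15_1_3_10 : pfC (piC [(nat_lit 31465553), (nat_lit 24889148), (nat_lit 20955711), (nat_lit 14481699)] (nat_lit 4431671)) p15_1_3 (nat_lit 4) (nat_lit 10) (nat_lit 11) = true := by decide +kernel
def p15_1_3_11 : pfC (piC [(nat_lit 31465553), (nat_lit 24889148), (nat_lit 20955711), (nat_lit 14481699)] (nat_lit 4431671)) p15_1_3 (nat_lit 4) (nat_lit 11) (nat_lit 12) = true := by decide +kernel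
def p15_1_3_12 : pfC (piC [(nat_lit 31465553), (nat_lit 24889148), (nat_lit 20955711), (nat_lit 14481699)] (nat_lit 4431671)) p15_1_3 (nat_lit 4) (nat_lit 12) (nat_lit 13) = true := by decide +kernel
def p15_1_3_13 : pfC (piC [(nat_lit 31465553), (nat_lit 24889148), (nat_lit 20955711), (nat_lit 14481699)] (nat_lit 4431671)) p15_1_3 (nat_lit 4) (nat_lit 13) (nat_lit 14) = true := by decide +kernel
def p15_1_3_14 : pfC (piC [(nat_lit 31465553), (nat_lit 24889148), (nat_lit 20955711), (nat_lit 14481699)] (nat_lit 4431671)) p15_1_3 (nat_lit 4) (nat_lit 14) (nat_lit 15) = true := by decide +kernel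
def p15_1_3_15 : pfC (piC [(nat_lit 31465553), (nat_lit 24889148), (nat_lit 20955711), (nat_lit 14481699)] (nat_lit 4431671)) p15_1_3 (nat_lit 4) (nat_lit 15) (nat_lit 16) = true := by decide +kernel
def p15_1_3_16 : pfC (piC [(nat_lit 31465553), (nat_lit 24889148), (nat_lit 20955711), (nat_lit 14481699)] (nat_lit 4431671)) p15_1_3 (nat_lit 4) (nat_lit 16) (nat_lit 17) = true := by decide +kernel
def p15_1_3_17 : pfC (piC [(nat_lit 31465553), (nat_lit 24889148), (nat_lit 20955711), (nat_lit 14481699)] (nat_lit 4431671)) p15_1_3 (nat_lit 4) (nat_lit 17) (nat_lit 18) = true := by decide +kernel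
def p15_1_3_18 : pfC (piC [(nat_lit 31465553), (nat_lit 24889148), (nat_lit 20955711), (nat_lit 14481699)] (nat_lit 4431671)) p15_1_3 (nat_lit 4) (nat_lit 18) (nat_lit 19) = true := by decide +kernel
def p15_1_3_19 : pfC (piC [(nat_lit 31465553), (nat_lit 24889148), (nat_lit 20955711), (nat_lit 14481699)] (nat_lit 4431671)) p15_1_3 (nat_lit 4) (nat_lit 19) (nat_lit 20) = true := by decide +kernel
theorem p15_1_3_T : PfS (PiF n15_1.reverse (nat_lit 4431671)) p15_1_3 (nat_lit 4) [] 0 :=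
  pftab_of (los := [(nat_lit 31465553), (nat_lit 24889148), (nat_lit 20955711), (nat_lit 14481699)]) (by decide +kernel) (hi := (nat_lit 20)) (PfP.trans (PfP.trans (PfP.trans (PfP.trans (PfP.trans (PfP.trans (PfP.trans (PfP.trans (PfP.trans (PfP.trans (PfP.trans (PfP.trans (PfP.trans (PfP.trans (PfP.trans (PfP.trans (PfP.trans (PfP.trans (PfP.trans (pfC_sound p15_1_3_0) (pfC_sound p15_1_3_1)) (pfC_sound p15_1_3_2)) (pfC_sound p15_1_3_3)) (pfC_sound p15_1_3_4)) (pfC_sound p15_1_3_5)) (pfC_sound p15_1_3_6)) (pfC_sound p15_1_3_7)) (pfC_sound p15_1_3_8)) (pfC_sound p15_1_3_9)) (pfC_sound p15_1_3_10)) (pfC_sound p15_1_3_11)) (pfC_sound p15_1_3_12)) (pfC_sound p15_1_3_13)) (pfC_sound p15_1_3_14)) (pfC_sound p15_1_3_15)) (pfC_sound p15_1_3_16)) (pfC_sound p15_1_3_17)) (pfC_sound p15_1_3_18)) (pfC_sound p15_1_3_19)) (by decide +kernel)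

def z15_1_3 : zOK yB15_1 (nat_lit 3) (nat_lit 750) (nat_lit 975) (nat_lit 4431671) (nat_lit 1684188) = true := by decide +kernel
def g15_1_3 : gOK yB15_1.x P15_1 (nat_lit 1413) (q15_1 :: r15_1) (nat_lit 3) (nat_lit 750) (nat_lit 4) (nat_lit 975) (nat_lit 12712500) (nat_lit 12712500) (nat_lit 12712500) (nat_lit 12712500) [(nat_lit 800)] = true := by decide +kernel
def v15_1_3 : ivC P15_1 s15_1 w15_1 n15_1 (nat_lit 4) (nat_lit 4890) (nat_lit 3) (nat_lit 750) f112_1_750 f120_1_750 (nat_lit 4) (nat_lit 975) f112_1_975 f120_1_975 (nat_lit 4431671) (nat_lit 1684188) p15_1_3 = true := by decide +kernel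
/-! box `yB15_2` -/

def P15_2 : BQ := ⟨(nat_lit 8), (nat_lit 4), (nat_lit 4), (nat_lit 0), (nat_lit 8), (nat_lit 580), (nat_lit 600), (nat_lit 120), [(nat_lit 200), (nat_lit 300), (nat_lit 450), (nat_lit 800)], (nat_lit 23024000), (nat_lit 16000000), (nat_lit 16000000000)⟩
def q15_2 : PC := ⟨(nat_lit 1000), [(nat_lit 120000), (nat_lit 200000), (nat_lit 300000), (nat_lit 450000), (nat_lit 800000)], (nat_lit 340282367000166625996085689103316680705000000), (nat_lit 15976976000000), (nat_lit 15976976000000), (nat_lit 10000000)⟩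
def r15_2 : List PC := [⟨(nat_lit 1277), [(nat_lit 120418), (nat_lit 200761), (nat_lit 301264), (nat_lit 452211), (nat_lit 799510)], (nat_lit 342037883731621739211271658815111694226771458), (nat_lit 16274325298400), (nat_lit 16285475146720), (nat_lit 10049134)⟩]
def s15_2 : List PB := [⟨(nat_lit 25540), (nat_lit 1926688000000), [(nat_lit 200761), (nat_lit 301264), (nat_lit 452211), (nat_lit 799510)], (nat_lit 342037883731621739211271658815111694226771458), (nat_lit 1142174232141024), (nat_lit 1142185381989344), (nat_lit 44320)⟩]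
def n15_2 : List KN := [⟨(nat_lit 800), (nat_lit 450), (nat_lit 14146940), (nat_lit 10188775)⟩, ⟨(nat_lit 450), (nat_lit 300), (nat_lit 21370708), (nat_lit 14146940)⟩, ⟨(nat_lit 300), (nat_lit 200), (nat_lit 27488723), (nat_lit 21370708)⟩, ⟨(nat_lit 200), (nat_lit 120), (nat_lit 34420195), (nat_lit 27488723)⟩]
def w15_2 : List ℕ := [(nat_lit 44320)]
def par15_2 : parC yB15_2 P15_2 s15_2 r15_2 q15_2 n15_2 w15_2 = true := by decide +kernel

def p15_2_0 : PF := (PF.cons (PF.cons (PF.cons (PF.cons (PF.leaf (nat_lit 263755) (nat_lit 624684) (nat_lit 66484128) (nat_lit 624684) [(nat_lit 0), (nat_lit 0), (nat_lit 0), (nat_lit 0)]) (PF.cons (PF.leaf (nat_lit 402498) (nat_lit 216995) (nat_lit 66210395) (nat_lit 681421) [(nat_lit 216995), (nat_lit 0), (nat_lit 0), (nat_lit 0)]) (PF.cons (PF.leaf (nat_lit 577885) (nat_lit 247983) (nat_lit 65872407) (nat_lit 740439) [(nat_lit 247983), (nat_lit 0), (nat_lit 0), (nat_lit 0)]) (PF.cons PF.nil (PF.cons PF.nil PF.nil))))) (PF.cons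 (PF.cons (PF.leaf (nat_lit 601039) (nat_lit 640883) (nat_lit 65712617) (nat_lit 755312) [(nat_lit 0), (nat_lit 640883), (nat_lit 0), (nat_lit 0)]) (PF.cons (PF.leaf (nat_lit 796362) (nat_lit 279277) (nat_lit 65326919) (nat_lit 810876) [(nat_lit 279277), (nat_lit 691739), (nat_lit 0), (nat_lit 0)]) (PF.cons PF.nil (PF.cons PF.nil PF.nil)))) (PF.cons (PF.cons (PF.leaf (nat_lit 1031711) (nat_lit 750252) (nat_lit 64732255) (nat_lit 876053) [(nat_lit 0), (nat_lit 750252), (nat_lit 0), (nat_lit 0)]) (PF.cons PF.nil PF.nil)) PF.nil))) (PF.cons (PF.cons (PF.cons (PF.leaf (nat_lit 1081124) (nat_lit 889762) (nat_lit 64155452) (nat_lit 889762) [(nat_lit 0), (nat_lit 0), (nat_lit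
 2063597), (nat_lit 0)]) (PF.cons (PF.leaf (nat_lit 1304831) (nat_lit 331107) (nat_lit 63703939) (nat_lit 938794) [(nat_lit 331107), (nat_lit 0), (nat_lit 2134971), (nat_lit 0)]) PF.nil)) (PF.cons PF.nil PF.nil)) (PF.cons PF.nil PF.nil))) (PF.cons (PF.cons (PF.cons (PF.cons (PF.leaf (nat_lit 1890049) (nat_lit 1026789) (nat_lit 60499047) (nat_lit 1026789) [(nat_lit 0), (nat_lit 0), (nat_lit 0), (nat_lit 5582976)]) (PF.cons (PF.leaf (nat_lit 2133728) (nat_lit 381919) (nat_lit 60011121) (nat_lit 1069814) [(nat_lit 381919), (nat_lit 0), (nat_lit 0), (nat_lit 5645957)]) (PF.cons (PF.leaf (nat_lit 2405993) (nat_lit 407146) (nat_lit 59472668) (nat_lit 1111742) [(nat_lit 407146), (nat_lit 0), (nat_lit 0), (nat_lit 5710110)]) (PF.cons (PF.leaf (nat_lit 2702496) (nat_lit 430474) (nat_lit 58891801) (nat_lit 1152037) [(nat_lit 430474), (nat_lit 0), (nat_lit 0), (nat_lit 5773551)]) (PF.cons PF.nil PF.nil))))) (PF.cons (PF.cons (PF.leaf (nat_lit 2399162) (nat_lit 961440)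 (nat_lit 59307134) (nat_lit 1115609) [(nat_lit 0), (nat_lit 961440), (nat_lit 0), (nat_lit 5724628)]) (PF.cons (PF.leaf (nat_lit 2683596) (nat_lit 428495) (nat_lit 58743229) (nat_lit 1154529) [(nat_lit 428495), (nat_lit 997789),
 (nat_lit 0), (nat_lit 5784768)]) (PF.cons PF.nil (PF.cons PF.nil PF.nil)))) (PF.cons (PF.cons (PF.leaf (nat_lit 2968355) (nat_lit 1033698) (nat_lit 57994761) (nat_lit 1193816) [(nat_lit 0), (nat_lit 1033698), (nat_lit 0), (nat_lit 5852838)]) (PF.cons PF.nil PF.nil)) PF.nil))) (PF.cons (PF.cons (PF.cons (PF.leaf (nat_lit 2943397) (nat_lit 1190487) (nat_lit 57478669) (nat_lit 1190487) [(nat_lit 0), (nat_lit 0), (nat_lit 2567362), (nat_lit 5872293)]) (PF.cons (PF.leaf (nat_lit 3240943) (nat_lit 459924) (nat_lit 56892842) (nat_lit 1224316) [(nat_lit 459924), (nat_lit 0), (nat_lit 2611705), (nat_lit 5920023)]) PF.nil)) (PF.cons PF.nil PF.nil)) (PF.cons PF.nil PF.nil))) (PF.cons (PF.cons (PF.cons (PF.cons (PF.leaf (nat_lit 3730151) (nat_lit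 1255375) (nat_lit 53874314) (nat_lit 1255375) [(nat_lit 0), (nat_lit 0), (nat_lit 0), (nat_lit 5989561)]) (PF.cons (PF.leaf (nat_lit 4031114) (nat_lit 485707) (nat_lit 53302571) (nat_lit 1283780) [(nat_lit 485707), (nat_lit 0), (nat_lit 0), (nat_lit 6018376)]) (PF.cons (PF.leaf (nat_lit 4351417) (nat_lit 503593) (nat_lit 52701042) (nat_lit 1310462) [(nat_lit 503593), (nat_lit 0), (nat_lit 0), (nat_lit 6045060)]) (PF.cons PF.nil PF.nil)))) (PF.cons
 (PF.cons (PF.leaf (nat_lit 4315591) (nat_lit 1138117) (nat_lit 52566539) (nat_lit 1309983) [(nat_lit 0), (nat_lit 1138117), (nat_lit 0), (nat_lit 6047086)]) (PF.cons PF.nil PF.nil)) (PF.cons PF.nil PF.nil))) (PF.cons (PF.cons (PF.cons (PF.leaf (nat_lit 4848509) (nat_lit 1347129) (nat_lit 50805692) (nat_lit 1347129) [(nat_lit 0), (nat_lit 0), (nat_lit 2792360), (nat_lit 6081814)]) (PF.cons PF.nil PF.nil)) PF.nil) PF.nil)) (PF.cons PF.nil (PF.cons PF.nil (PF.cons PF.nil PF.nil))))))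

def p15_2_0_0 : pfC (piC [(nat_lit 34420195), (nat_lit 27488723), (nat_lit 21370708), (nat_lit 14146940)] (nat_lit 36119186)) p15_2_0 (nat_lit 4) (nat_lit 0) (nat_lit 1) = true := by decide +kernel
def p15_2_0_1 : pfC (piC [(nat_lit 34420195), (nat_lit 27488723), (nat_lit 21370708), (nat_lit 14146940)] (nat_lit 36119186)) p15_2_0 (nat_lit 4) (nat_lit 1) (nat_lit 2) = true := by decide +kernel
def p15_2_0_2 : pfC (piC [(nat_lit 34420195), (nat_lit 27488723), (nat_lit 21370708), (nat_lit 14146940)] (nat_lit 36119186)) p15_2_0 (nat_lit 4) (nat_lit 2) (nat_lit 3) = true := by decide +kernel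
def p15_2_0_3 : pfC (piC [(nat_lit 34420195), (nat_lit 27488723), (nat_lit 21370708), (nat_lit 14146940)] (nat_lit 36119186)) p15_2_0 (nat_lit 4) (nat_lit 3) (nat_lit 4) = true := by decide +kernel
def p15_2_0_4 : pfC (piC [(nat_lit 34420195), (nat_lit 27488723), (nat_lit 21370708), (nat_lit 14146940)] (nat_lit 36119186)) p15_2_0 (nat_lit 4) (nat_lit 4) (nat_lit 5) = true := by decide +kernel
def p15_2_0_5 : pfC (piC [(nat_lit 34420195), (nat_lit 27488723), (nat_lit 21370708), (nat_lit 14146940)] (nat_lit 36119186)) p15_2_0 (nat_lit 4) (nat_lit 5) (nat_lit 6) = true := by decide +kernel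
def p15_2_0_6 : pfC (piC [(nat_lit 34420195), (nat_lit 27488723), (nat_lit 21370708), (nat_lit 14146940)] (nat_lit 36119186)) p15_2_0 (nat_lit 4) (nat_lit 6) (nat_lit 7) = true := by decide +kernel
def p15_2_0_7 : pfC (piC [(nat_lit 34420195), (nat_lit 27488723), (nat_lit 21370708), (nat_lit 14146940)] (nat_lit 36119186)) p15_2_0 (nat_lit 4) (nat_lit 7) (nat_lit 8) = true := by decide +kernel
def p15_2_0_8 : pfC (piC [(nat_lit 34420195), (nat_lit 27488723), (nat_lit 21370708), (nat_lit 14146940)] (nat_lit 36119186)) p15_2_0 (nat_lit 4) (nat_lit 8) (nat_lit 9) = true := by decide +kernel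
def p15_2_0_9 : pfC (piC [(nat_lit 34420195), (nat_lit 27488723), (nat_lit 21370708), (nat_lit 14146940)] (nat_lit 36119186)) p15_2_0 (nat_lit 4) (nat_lit 9) (nat_lit 10) = true := by decide +kernel
def p15_2_0_10 : pfC (piC [(nat_lit 34420195), (nat_lit 27488723), (nat_lit 21370708), (nat_lit 14146940)] (nat_lit 36119186)) p15_2_0 (nat_lit 4) (nat_lit 10) (nat_lit 11) = true := by decide +kernel
def p15_2_0_11 : pfC (piC [(nat_lit 34420195), (nat_lit 27488723), (nat_lit 21370708), (nat_lit 14146940)] (nat_lit 36119186)) p15_2_0 (nat_lit 4) (nat_lit 11) (nat_lit 12) = true := by decide +kernel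
def p15_2_0_12 : pfC (piC [(nat_lit 34420195), (nat_lit 27488723), (nat_lit 21370708), (nat_lit 14146940)] (nat_lit 36119186)) p15_2_0 (nat_lit 4) (nat_lit 12) (nat_lit 13) = true := by decide +kernel
def p15_2_0_13 : pfC (piC [(nat_lit 34420195), (nat_lit 27488723), (nat_lit 21370708), (nat_lit 14146940)] (nat_lit 36119186)) p15_2_0 (nat_lit 4) (nat_lit 13) (nat_lit 14) = true := by decide +kernel
def p15_2_0_14 : pfC (piC [(nat_lit 34420195), (nat_lit 27488723), (nat_lit 21370708), (nat_lit 14146940)] (nat_lit 36119186)) p15_2_0 (nat_lit 4) (nat_lit 14) (nat_lit 15) = true := by decide +kernel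
def p15_2_0_15 : pfC (piC [(nat_lit 34420195), (nat_lit 27488723), (nat_lit 21370708), (nat_lit 14146940)] (nat_lit 36119186)) p15_2_0 (nat_lit 4) (nat_lit 15) (nat_lit 16) = true := by decide +kernel
def p15_2_0_16 : pfC (piC [(nat_lit 34420195), (nat_lit 27488723), (nat_lit 21370708), (nat_lit 14146940)] (nat_lit 36119186)) p15_2_0 (nat_lit 4) (nat_lit 16) (nat_lit 17) = true := by decide +kernel
def p15_2_0_17 : pfC (piC [(nat_lit 34420195), (nat_lit 27488723), (nat_lit 21370708), (nat_lit 14146940)] (nat_lit 36119186)) p15_2_0 (nat_lit 4) (nat_lit 17) (nat_lit 18) = true := by decide +kernel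
def p15_2_0_18 : pfC (piC [(nat_lit 34420195), (nat_lit 27488723), (nat_lit 21370708), (nat_lit 14146940)] (nat_lit 36119186)) p15_2_0 (nat_lit 4) (nat_lit 18) (nat_lit 19) = true := by decide +kernel
def p15_2_0_19 : pfC (piC [(nat_lit 34420195), (nat_lit 27488723), (nat_lit 21370708), (nat_lit 14146940)] (nat_lit 36119186)) p15_2_0 (nat_lit 4) (nat_lit 19) (nat_lit 20) = true := by decide +kernel
def p15_2_0_20 : pfC (piC [(nat_lit 34420195), (nat_lit 27488723), (nat_lit 21370708), (nat_lit 14146940)] (nat_lit 36119186)) p15_2_0 (nat_lit 4) (nat_lit 20) (nat_lit 21) = true := by decide +kernel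
def p15_2_0_21 : pfC (piC [(nat_lit 34420195), (nat_lit 27488723), (nat_lit 21370708), (nat_lit 14146940)] (nat_lit 36119186)) p15_2_0 (nat_lit 4) (nat_lit 21) (nat_lit 22) = true := by decide +kernel
theorem p15_2_0_T : PfS (PiF n15_2.reverse (nat_lit 36119186)) p15_2_0 (nat_lit 4) [] 0 :=
  pftab_of (los := [(nat_lit 34420195), (nat_lit 27488723), (nat_lit 21370708), (nat_lit 14146940)]) (by decide +kernel) (hi := (nat_lit 22)) (PfP.trans (PfP.trans (PfP.trans (PfP.trans (PfP.trans (PfP.trans (PfP.trans (PfP.trans (PfP.trans (PfP.trans (PfP.trans (PfP.trans (PfP.trans (PfP.trans (PfP.trans (PfP.trans (PfP.trans (PfP.trans (PfP.trans (PfP.trans (PfP.trans (pfC_sound p15_2_0_0) (pfC_sound p15_2_0_1)) (pfC_sound p15_2_0_2)) (pfC_sound p15_2_0_3)) (pfC_sound p15_2_0_4)) (pfC_sound p15_2_0_5)) (pfC_sound p15_2_0_6)) (pfC_sound p15_2_0_7)) (pfC_sound p15_2_0_8)) (pfC_sound p15_2_0_9)) (pfC_sound p15_2_0_10)) (pfC_sound p15_2_0_11)) (pfC_sound p15_2_0_12)) (pfC_sound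 p15_2_0_13)) (pfC_sound p15_2_0_14)) (pfC_sound p15_2_0_15)) (pfC_sound p15_2_0_16)) (pfC_sound p15_2_0_17)) (pfC_sound p15_2_0_18)) (pfC_sound p15_2_0_19)) (pfC_sound p15_2_0_20)) (pfC_sound p15_2_0_21)) (by decide +kernel)

def z15_2_0 : zOK yB15_2 (nat_lit 0) (nat_lit 0) (nat_lit 400) (nat_lit 36119186) (nat_lit 10555529) = true := by decide +kernel
def g15_2_0 : gOK yB15_2.x P15_2 (nat_lit 1421) (q15_2 :: r15_2) (nat_lit 0) (nat_lit 0) (nat_lit 1) (nat_lit 400) (nat_lit 0) (nat_lit 11000000) (nat_lit 12712500) (nat_lit 12712500) [(nat_lit 800), (nat_lit 1600)] = true := by decide +kernel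
def v15_2_0 : ivC P15_2 s15_2 w15_2 n15_2 (nat_lit 4) (nat_lit 5620) (nat_lit 0) (nat_lit 0) f112_1_0 f120_1_0 (nat_lit 1) (nat_lit 400) f112_1_400 f120_1_400 (nat_lit 36119186) (nat_lit 10555529) p15_2_0 = true := by decide +kernel
def p15_2_1 : PF := (PF.cons (PF.cons (PF.cons (PF.cons (PF.leaf (nat_lit 2158311) (nat_lit 10416814) (nat_lit 56691998) (nat_lit 10416814) [(nat_lit 0), (nat_lit 0), (nat_lit 0), (nat_lit 0)]) (PF.cons (PF.leaf (nat_lit 2353132) (nat_lit 343760) (nat_lit 56324583) (nat_lit 10440469) [(nat_lit 343760), (nat_lit 0), (nat_lit 0), (nat_lit 0)]) (PF.cons PF.nil (PF.cons PF.nil PF.nil)))) (PF.cons (PF.cons (PF.leaf (nat_lit 2590771) (nat_lit 919356) (nat_lit 55717702) (nat_lit 10471753) [(nat_lit 0), (nat_lit 919356), (nat_lit 0), (nat_lit 0)]) (PF.cons PF.nil PF.nil)) (PF.cons PF.nil PF.nil))) (PF.cons (PF.cons (PF.cons (PF.leaf (nat_lit 3087670) (nat_lit 2525526) (nat_lit 54070211) (nat_lit 10513075) [(nat_lit 0), (nat_lit 0), (nat_lit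 2525526), (nat_lit 0)]) (PF.cons PF.nil PF.nil)) (PF.cons PF.nil PF.nil)) (PF.cons PF.nil PF.nil))) (PF.cons (PF.cons (PF.cons (PF.cons (PF.leaf (nat_lit 3807906) (nat_lit 5882215) (nat_lit 50784980) (nat_lit 10441617) [(nat_lit 0), (nat_lit 0), (nat_lit 0), (nat_lit 5882215)]) (PF.cons (PF.leaf (nat_lit 4069055) (nat_lit 451422) (nat_lit 50317469) (nat_lit 10437027) [(nat_lit 451422), (nat_lit 0), (nat_lit 0), (nat_lit 5902893)]) (PF.cons PF.nil PF.nil))) (PF.cons
 (PF.cons (PF.leaf (nat_lit 4330755) (nat_lit 1090452) (nat_lit 49670289) (nat_lit 10424104) [(nat_lit 0), (nat_lit 1090452), (nat_lit 0), (nat_lit 5923966)]) PF.nil) PF.nil)) (PF.cons PF.nil PF.nil)) (PF.cons PF.nil (PF.cons PF.nil PF.nil))))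

def p15_2_1_0 : pfC (piC [(nat_lit 34420195), (nat_lit 27488723), (nat_lit 21370708), (nat_lit 14146940)] (nat_lit 10555529)) p15_2_1 (nat_lit 4) (nat_lit 0) (nat_lit 1) = true := by decide +kernel
def p15_2_1_1 : pfC (piC [(nat_lit 34420195), (nat_lit 27488723), (nat_lit 21370708), (nat_lit 14146940)] (nat_lit 10555529)) p15_2_1 (nat_lit 4) (nat_lit 1) (nat_lit 2) = true := by decide +kernel
def p15_2_1_2 : pfC (piC [(nat_lit 34420195), (nat_lit 27488723), (nat_lit 21370708), (nat_lit 14146940)] (nat_lit 10555529)) p15_2_1 (nat_lit 4) (nat_lit 2) (nat_lit 3) = true := by decide +kernel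
def p15_2_1_3 : pfC (piC [(nat_lit 34420195), (nat_lit 27488723), (nat_lit 21370708), (nat_lit 14146940)] (nat_lit 10555529)) p15_2_1 (nat_lit 4) (nat_lit 3) (nat_lit 4) = true := by decide +kernel
def p15_2_1_4 : pfC (piC [(nat_lit 34420195), (nat_lit 27488723), (nat_lit 21370708), (nat_lit 14146940)] (nat_lit 10555529)) p15_2_1 (nat_lit 4) (nat_lit 4) (nat_lit 5) = true := by decide +kernel
def p15_2_1_5 : pfC (piC [(nat_lit 34420195), (nat_lit 27488723), (nat_lit 21370708), (nat_lit 14146940)] (nat_lit 10555529)) p15_2_1 (nat_lit 4) (nat_lit 5) (nat_lit 6) = true := by decide +kernel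
def p15_2_1_6 : pfC (piC [(nat_lit 34420195), (nat_lit 27488723), (nat_lit 21370708), (nat_lit 14146940)] (nat_lit 10555529)) p15_2_1 (nat_lit 4) (nat_lit 6) (nat_lit 7) = true := by decide +kernel
theorem p15_2_1_T : PfS (PiF n15_2.reverse (nat_lit 10555529)) p15_2_1 (nat_lit 4) [] 0 :=
  pftab_of (los := [(nat_lit 34420195), (nat_lit 27488723), (nat_lit 21370708), (nat_lit 14146940)]) (by decide +kernel) (hi := (nat_lit 7)) (PfP.trans (PfP.trans (PfP.trans (PfP.trans (PfP.trans (PfP.trans (pfC_sound p15_2_1_0) (pfC_sound p15_2_1_1)) (pfC_sound p15_2_1_2)) (pfC_sound p15_2_1_3)) (pfC_sound p15_2_1_4)) (pfC_sound p15_2_1_5)) (pfC_sound p15_2_1_6)) (by decide +kernel)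

def z15_2_1 : zOK yB15_2 (nat_lit 1) (nat_lit 400) (nat_lit 600) (nat_lit 10555529) (nat_lit 6386591) = true := by decide +kernel
def g15_2_1 : gOK yB15_2.x P15_2 (nat_lit 1421) (q15_2 :: r15_2) (nat_lit 1) (nat_lit 400) (nat_lit 2) (nat_lit 600) (nat_lit 11000000) (nat_lit 17850000) (nat_lit 12712500) (nat_lit 12712500) [(nat_lit 800), (nat_lit 1130)] = true := by decide +kernel
def v15_2_1 : ivC P15_2 s15_2 w15_2 n15_2 (nat_lit 4) (nat_lit 5220) (nat_lit 1) (nat_lit 400) f112_1_400 f120_1_400 (nat_lit 2) (nat_lit 600) f112_1_600 f120_1_600 (nat_lit 10555529) (nat_lit 6386591) p15_2_1 = true := by decide +kernel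
def p15_2_2 : PF := (PF.cons (PF.cons (PF.cons (PF.cons (PF.leaf (nat_lit 2828903) (nat_lit 16989308) (nat_lit 50119504) (nat_lit 16989308) [(nat_lit 0), (nat_lit 0), (nat_lit 0), (nat_lit 0)]) (PF.cons (PF.leaf (nat_lit 3017360) (nat_lit 342117) (nat_lit 49808695) (nat_lit 16958000) [(nat_lit 342117), (nat_lit 0), (nat_lit 0), (nat_lit 0)]) (PF.cons (PF.leaf (nat_lit 3239068) (nat_lit 371257) (nat_lit 49446545) (nat_lit 16919753) [(nat_lit 371257), (nat_lit 0), (nat_lit 0), (nat_lit 0)]) (PF.cons PF.nil PF.nil)))) (PF.cons (PF.cons (PF.leaf (nat_lit 3243270) (nat_lit 909560) (nat_lit 49297398) (nat_lit 16901853) [(nat_lit 0), (nat_lit 909560), (nat_lit 0), (nat_lit 0)]) (PF.cons (PF.leaf (nat_lit 3476883) (nat_lit 393673) (nat_lit 48911907) (nat_lit 16858273) [(nat_lit 393673), (nat_lit 944958), (nat_lit 0), (nat_lit 0)]) PF.nil)) (PF.cons PF.nil PF.nil))) (PF.cons (PF.cons (PF.cons (PF.leaf (nat_lit 3705269) (nat_lit 2464701) (nat_lit 47920447) (nat_lit 16723664)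 [(nat_lit 0), (nat_lit 0), (nat_lit 2464701), (nat_lit 0)]) (PF.cons (PF.leaf (nat_lit 3950171) (nat_lit 421070) (nat_lit 47518842) (nat_lit 16671043) [(nat_lit 421070), (nat_lit 0), (nat_lit 2497855), (nat_lit 0)]) PF.nil)) (PF.cons
 PF.nil PF.nil)) (PF.cons PF.nil PF.nil))) (PF.cons (PF.cons (PF.cons (PF.cons (PF.leaf (nat_lit 4356974) (nat_lit 5629692) (nat_lit 45208234) (nat_lit 16270885) [(nat_lit 0), (nat_lit 0), (nat_lit 0), (nat_lit 5629692)]) (PF.cons (PF.leaf (nat_lit 4604624) (nat_lit 437871) (nat_lit 44819274) (nat_lit 16208707) [(nat_lit 437871), (nat_lit 0), (nat_lit 0), (nat_lit 5642960)]) (PF.cons PF.nil (PF.cons PF.nil PF.nil)))) (PF.cons (PF.cons (PF.leaf (nat_lit 4849689) (nat_lit 1053832) (nat_lit 44281897) (nat_lit 16118391) [(nat_lit 0), (nat_lit 1053832), (nat_lit 0), (nat_lit 5654691)]) (PF.cons PF.nil PF.nil)) (PF.cons PF.nil PF.nil))) (PF.cons (PF.cons (PF.cons (PF.leaf (nat_lit 5306966) (nat_lit 2606021) (nat_lit 42969105) (nat_lit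 15876968) [(nat_lit 0), (nat_lit 0), (nat_lit 2606021), (nat_lit 5656716)]) (PF.cons PF.nil PF.nil)) PF.nil) PF.nil)) (PF.cons PF.nil (PF.cons PF.nil PF.nil))))

def p15_2_2_0 : pfC (piC [(nat_lit 34420195), (nat_lit 27488723), (nat_lit 21370708), (nat_lit 14146940)] (nat_lit 6386591)) p15_2_2 (nat_lit 4) (nat_lit 0) (nat_lit 1) = true := by decide +kernel
def p15_2_2_1 : pfC (piC [(nat_lit 34420195), (nat_lit 27488723), (nat_lit 21370708), (nat_lit 14146940)] (nat_lit 6386591)) p15_2_2 (nat_lit 4) (nat_lit 1) (nat_lit 2) = true := by decide +kernel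
def p15_2_2_2 : pfC (piC [(nat_lit 34420195), (nat_lit 27488723), (nat_lit 21370708), (nat_lit 14146940)] (nat_lit 6386591)) p15_2_2 (nat_lit 4) (nat_lit 2) (nat_lit 3) = true := by decide +kernel
def p15_2_2_3 : pfC (piC [(nat_lit 34420195), (nat_lit 27488723), (nat_lit 21370708), (nat_lit 14146940)] (nat_lit 6386591)) p15_2_2 (nat_lit 4) (nat_lit 3) (nat_lit 4) = true := by decide +kernel
def p15_2_2_4 : pfC (piC [(nat_lit 34420195), (nat_lit 27488723), (nat_lit 21370708), (nat_lit 14146940)] (nat_lit 6386591)) p15_2_2 (nat_lit 4) (nat_lit 4) (nat_lit 5) = true := by decide +kernel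
def p15_2_2_5 : pfC (piC [(nat_lit 34420195), (nat_lit 27488723), (nat_lit 21370708), (nat_lit 14146940)] (nat_lit 6386591)) p15_2_2 (nat_lit 4) (nat_lit 5) (nat_lit 6) = true := by decide +kernel
def p15_2_2_6 : pfC (piC [(nat_lit 34420195), (nat_lit 27488723), (nat_lit 21370708), (nat_lit 14146940)] (nat_lit 6386591)) p15_2_2 (nat_lit 4) (nat_lit 6) (nat_lit 7) = true := by decide +kernel
def p15_2_2_7 : pfC (piC [(nat_lit 34420195), (nat_lit 27488723), (nat_lit 21370708), (nat_lit 14146940)] (nat_lit 6386591)) p15_2_2 (nat_lit 4) (nat_lit 7) (nat_lit 8) = true := by decide +kernel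
def p15_2_2_8 : pfC (piC [(nat_lit 34420195), (nat_lit 27488723), (nat_lit 21370708), (nat_lit 14146940)] (nat_lit 6386591)) p15_2_2 (nat_lit 4) (nat_lit 8) (nat_lit 9) = true := by decide +kernel
def p15_2_2_9 : pfC (piC [(nat_lit 34420195), (nat_lit 27488723), (nat_lit 21370708), (nat_lit 14146940)] (nat_lit 6386591)) p15_2_2 (nat_lit 4) (nat_lit 9) (nat_lit 10) = true := by decide +kernel
def p15_2_2_10 : pfC (piC [(nat_lit 34420195), (nat_lit 27488723), (nat_lit 21370708), (nat_lit 14146940)] (nat_lit 6386591)) p15_2_2 (nat_lit 4) (nat_lit 10) (nat_lit 11) = true := by decide +kernel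
theorem p15_2_2_T : PfS (PiF n15_2.reverse (nat_lit 6386591)) p15_2_2 (nat_lit 4) [] 0 :=
  pftab_of (los := [(nat_lit 34420195), (nat_lit 27488723), (nat_lit 21370708), (nat_lit 14146940)]) (by decide +kernel) (hi := (nat_lit 11)) (PfP.trans (PfP.trans (PfP.trans (PfP.trans (PfP.trans (PfP.trans (PfP.trans (PfP.trans (PfP.trans (PfP.trans (pfC_sound p15_2_2_0) (pfC_sound p15_2_2_1)) (pfC_sound p15_2_2_2)) (pfC_sound p15_2_2_3)) (pfC_sound p15_2_2_4)) (pfC_sound p15_2_2_5)) (pfC_sound p15_2_2_6)) (pfC_sound p15_2_2_7)) (pfC_sound p15_2_2_8)) (pfC_sound p15_2_2_9)) (pfC_sound p15_2_2_10)) (by decide +kernel)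

def z15_2_2 : zOK yB15_2 (nat_lit 2) (nat_lit 600) (nat_lit 750) (nat_lit 6386591) (nat_lit 4431671) = true := by decide +kernel
def g15_2_2 : gOK yB15_2.x P15_2 (nat_lit 1421) (q15_2 :: r15_2) (nat_lit 2) (nat_lit 600) (nat_lit 3) (nat_lit 750) (nat_lit 12712500) (nat_lit 12712500) (nat_lit 12712500) (nat_lit 12712500) [(nat_lit 800), (nat_lit 1600)] = true := by decide +kernel
def v15_2_2 : ivC P15_2 s15_2 w15_2 n15_2 (nat_lit 4) (nat_lit 5020) (nat_lit 2) (nat_lit 600) f112_1_600 f120_1_600 (nat_lit 3) (nat_lit 750) f112_1_750 f120_1_750 (nat_lit 6386591) (nat_lit 4431671) p15_2_2 = true := by decide +kernel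
def p15_2_3 : PF := (PF.cons (PF.cons (PF.cons (PF.cons (PF.leaf (nat_lit 3236623) (nat_lit 23474880) (nat_lit 43633932) (nat_lit 23474880) [(nat_lit 0), (nat_lit 0), (nat_lit 0), (nat_lit 0)]) (PF.cons (PF.leaf (nat_lit 3412792) (nat_lit 322479) (nat_lit 43392417) (nat_lit 23393916) [(nat_lit 322479), (nat_lit 0), (nat_lit 0), (nat_lit 0)]) (PF.cons (PF.leaf (nat_lit 3620026) (nat_lit 349686) (nat_lit 43110881) (nat_lit 23298558) [(nat_lit 349686), (nat_lit 0), (nat_lit 0), (nat_lit 0)]) (PF.cons (PF.leaf (nat_lit 3851730) (nat_lit 373480) (nat_lit 42797251) (nat_lit 23191120) [(nat_lit 373480), (nat_lit 0), (nat_lit 0), (nat_lit 0)]) (PF.cons (PF.leaf (nat_lit 4103978) (nat_lit 394602) (nat_lit 42457188) (nat_lit 23073213) [(nat_lit 394602), (nat_lit 0), (nat_lit 0), (nat_lit 0)]) (PF.cons PF.nil (PF.cons PF.nil PF.nil))))))) (PF.cons (PF.cons (PF.leaf (nat_lit 3623116) (nat_lit 855519) (nat_lit 42995129) (nat_lit 23258164) [(nat_lit 0), (nat_lit 855519),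 (nat_lit 0), (nat_lit 0)]) (PF.cons (PF.leaf (nat_lit 3841175) (nat_lit 370415) (nat_lit 42695216) (nat_lit 23154974) [(nat_lit 370415), (nat_lit 888205), (nat_lit 0), (nat_lit 0)]) (PF.cons (PF.leaf (nat_lit 4082658) (nat_lit 391826) (nat_lit
 42366051) (nat_lit 23040417) [(nat_lit 391826), (nat_lit 918691), (nat_lit 0), (nat_lit 0)]) (PF.cons (PF.leaf (nat_lit 4343263) (nat_lit 410970) (nat_lit 42012979) (nat_lit 22916046) [(nat_lit 410970), (nat_lit 946874), (nat_lit 0), (nat_lit 0)]) (PF.cons PF.nil PF.nil))))) (PF.cons (PF.cons (PF.leaf (nat_lit 4068298) (nat_lit 919000) (nat_lit 42266313) (nat_lit 23004499) [(nat_lit 0), (nat_lit 919000), (nat_lit 0), (nat_lit 0)]) (PF.cons (PF.leaf (nat_lit 4317910) (nat_lit 408177) (nat_lit 41924198) (nat_lit 22883566) [(nat_lit 408177), (nat_lit 946435), (nat_lit 0), (nat_lit 0)]) (PF.cons PF.nil (PF.cons PF.nil PF.nil)))) (PF.cons (PF.cons (PF.leaf (nat_lit 4557175) (nat_lit 971172) (nat_lit 41474004) (nat_lit 22721292)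 [(nat_lit 0), (nat_lit 971172), (nat_lit 0), (nat_lit 0)]) (PF.cons PF.nil PF.nil)) (PF.cons PF.nil PF.nil))))) (PF.cons (PF.cons (PF.cons (PF.leaf (nat_lit 4050133) (nat_lit 2306597) (nat_lit 41924937) (nat_lit 22877277) [(nat_lit 0), (nat_lit 0), (nat_lit 2306597), (nat_lit 0)]) (PF.cons (PF.leaf (nat_lit 4278483) (nat_lit 395338) (nat_lit 41611656) (nat_lit 22765328) [(nat_lit 395338), (nat_lit 0), (nat_lit 2336488), (nat_lit 0)]) (PF.cons (PF.leaf (nat_lit
 4528800) (nat_lit 414655) (nat_lit 41271519) (nat_lit 22642454) [(nat_lit 414655), (nat_lit 0), (nat_lit 2365527), (nat_lit 0)]) (PF.cons PF.nil PF.nil)))) (PF.cons (PF.cons (PF.leaf (nat_lit 4509328) (nat_lit 960965) (nat_lit 41173742) (nat_lit 22605930) [(nat_lit 0), (nat_lit 960965), (nat_lit 2368174), (nat_lit 0)]) (PF.cons (PF.leaf (nat_lit 4766407) (nat_lit 428634) (nat_lit 40823626) (nat_lit 22477610) [(nat_lit 428634), (nat_lit 984448), (nat_lit 2394493), (nat_lit 0)]) PF.nil)) (PF.cons PF.nil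 PF.nil))) (PF.cons (PF.cons (PF.cons (PF.leaf (nat_lit 4948272) (nat_lit 2414116) (nat_lit 40085323) (nat_lit 22195256) [(nat_lit 0), (nat_lit 0), (nat_lit 2414116), (nat_lit 0)]) (PF.cons PF.nil PF.nil)) (PF.cons PF.nil PF.nil)) (PF.cons PF.nil (PF.cons PF.nil PF.nil))))) (PF.cons (PF.cons (PF.cons (PF.cons (PF.leaf (nat_lit 4648535) (nat_lit 5229941) (nat_lit 39812775) (nat_lit 22066095) [(nat_lit 0), (nat_lit 0), (nat_lit 0), (nat_lit 5229941)]) (PF.cons (PF.leaf (nat_lit 4879657) (nat_lit 410223) (nat_lit 39507072) (nat_lit 21950001) [(nat_lit 410223), (nat_lit 0), (nat_lit 0), (nat_lit 5241516)]) (PF.cons (PF.leaf (nat_lit 5131504) (nat_lit 428259) (nat_lit 39176881) (nat_lit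
 21823434) [(nat_lit 428259), (nat_lit 0), (nat_lit 0), (nat_lit 5251978)]) (PF.cons PF.nil PF.nil)))) (PF.cons (PF.cons (PF.leaf (nat_lit 5107926) (nat_lit 985989) (nat_lit 39084377) (nat_lit 21786854) [(nat_lit 0), (nat_lit 985989), (nat_lit 0), (nat_lit 5251591)]) (PF.cons (PF.leaf (nat_lit 5365367) (nat_lit 440476) (nat_lit 38746399) (nat_lit 21655705) [(nat_lit 440476), (nat_lit 1006407), (nat_lit 0), (nat_lit 5259823)]) PF.nil)) (PF.cons PF.nil PF.nil))) (PF.cons (PF.cons (PF.cons (PF.leaf (nat_lit 5532726) (nat_lit 2431225) (nat_lit 38049878) (nat_lit 21374993) [(nat_lit 0), (nat_lit 0), (nat_lit 2431225), (nat_lit 5252715)]) (PF.cons PF.nil PF.nil)) (PF.cons PF.nil PF.nil)) (PF.cons PF.nil PF.nil))) (PF.cons (PF.cons (PF.cons (PF.cons (PF.leaf (nat_lit 6085941) (nat_lit 5191852) (nat_lit 36150304) (nat_lit 20574804) [(nat_lit 0), (nat_lit 0), (nat_lit 0), (nat_lit 5191852)]) (PF.cons PF.nil PF.nil)) (PF.cons PF.nil PF.nil)) (PF.cons PF.nil PF.nil)) (PF.cons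 PF.nil (PF.cons PF.nil (PF.cons PF.nil PF.nil))))))

def p15_2_3_0 : pfC (piC [(nat_lit 34420195), (nat_lit 27488723), (nat_lit 21370708), (nat_lit 14146940)] (nat_lit 4431671)) p15_2_3 (nat_lit 4) (nat_lit 0) (nat_lit 1) = true := by decide +kernel
def p15_2_3_1 : pfC (piC [(nat_lit 34420195), (nat_lit 27488723), (nat_lit 21370708), (nat_lit 14146940)] (nat_lit 4431671)) p15_2_3 (nat_lit 4) (nat_lit 1) (nat_lit 2) = true := by decide +kernel
def p15_2_3_2 : pfC (piC [(nat_lit 34420195), (nat_lit 27488723), (nat_lit 21370708), (nat_lit 14146940)] (nat_lit 4431671)) p15_2_3 (nat_lit 4) (nat_lit 2) (nat_lit 3) = true := by decide +kernel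
def p15_2_3_3 : pfC (piC [(nat_lit 34420195), (nat_lit 27488723), (nat_lit 21370708), (nat_lit 14146940)] (nat_lit 4431671)) p15_2_3 (nat_lit 4) (nat_lit 3) (nat_lit 4) = true := by decide +kernel
def p15_2_3_4 : pfC (piC [(nat_lit 34420195), (nat_lit 27488723), (nat_lit 21370708), (nat_lit 14146940)] (nat_lit 4431671)) p15_2_3 (nat_lit 4) (nat_lit 4) (nat_lit 5) = true := by decide +kernel
def p15_2_3_5 : pfC (piC [(nat_lit 34420195), (nat_lit 27488723), (nat_lit 21370708), (nat_lit 14146940)] (nat_lit 4431671)) p15_2_3 (nat_lit 4) (nat_lit 5) (nat_lit 6) = true := by decide +kernel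
def p15_2_3_6 : pfC (piC [(nat_lit 34420195), (nat_lit 27488723), (nat_lit 21370708), (nat_lit 14146940)] (nat_lit 4431671)) p15_2_3 (nat_lit 4) (nat_lit 6) (nat_lit 7) = true := by decide +kernel
def p15_2_3_7 : pfC (piC [(nat_lit 34420195), (nat_lit 27488723), (nat_lit 21370708), (nat_lit 14146940)] (nat_lit 4431671)) p15_2_3 (nat_lit 4) (nat_lit 7) (nat_lit 8) = true := by decide +kernel
def p15_2_3_8 : pfC (piC [(nat_lit 34420195), (nat_lit 27488723), (nat_lit 21370708), (nat_lit 14146940)] (nat_lit 4431671)) p15_2_3 (nat_lit 4) (nat_lit 8) (nat_lit 9) = true := by decide +kernel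
def p15_2_3_9 : pfC (piC [(nat_lit 34420195), (nat_lit 27488723), (nat_lit 21370708), (nat_lit 14146940)] (nat_lit 4431671)) p15_2_3 (nat_lit 4) (nat_lit 9) (nat_lit 10) = true := by decide +kernel
def p15_2_3_10 : pfC (piC [(nat_lit 34420195), (nat_lit 27488723), (nat_lit 21370708), (nat_lit 14146940)] (nat_lit 4431671)) p15_2_3 (nat_lit 4) (nat_lit 10) (nat_lit 11) = true := by decide +kernel
def p15_2_3_11 : pfC (piC [(nat_lit 34420195), (nat_lit 27488723), (nat_lit 21370708), (nat_lit 14146940)] (nat_lit 4431671)) p15_2_3 (nat_lit 4) (nat_lit 11) (nat_lit 12) = true := by decide +kernel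
def p15_2_3_12 : pfC (piC [(nat_lit 34420195), (nat_lit 27488723), (nat_lit 21370708), (nat_lit 14146940)] (nat_lit 4431671)) p15_2_3 (nat_lit 4) (nat_lit 12) (nat_lit 13) = true := by decide +kernel
def p15_2_3_13 : pfC (piC [(nat_lit 34420195), (nat_lit 27488723), (nat_lit 21370708), (nat_lit 14146940)] (nat_lit 4431671)) p15_2_3 (nat_lit 4) (nat_lit 13) (nat_lit 14) = true := by decide +kernel
def p15_2_3_14 : pfC (piC [(nat_lit 34420195), (nat_lit 27488723), (nat_lit 21370708), (nat_lit 14146940)] (nat_lit 4431671)) p15_2_3 (nat_lit 4) (nat_lit 14) (nat_lit 15) = true := by decide +kernel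
def p15_2_3_15 : pfC (piC [(nat_lit 34420195), (nat_lit 27488723), (nat_lit 21370708), (nat_lit 14146940)] (nat_lit 4431671)) p15_2_3 (nat_lit 4) (nat_lit 15) (nat_lit 16) = true := by decide +kernel
def p15_2_3_16 : pfC (piC [(nat_lit 34420195), (nat_lit 27488723), (nat_lit 21370708), (nat_lit 14146940)] (nat_lit 4431671)) p15_2_3 (nat_lit 4) (nat_lit 16) (nat_lit 17) = true := by decide +kernel
def p15_2_3_17 : pfC (piC [(nat_lit 34420195), (nat_lit 27488723), (nat_lit 21370708), (nat_lit 14146940)] (nat_lit 4431671)) p15_2_3 (nat_lit 4) (nat_lit 17) (nat_lit 18) = true := by decide +kernel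
def p15_2_3_18 : pfC (piC [(nat_lit 34420195), (nat_lit 27488723), (nat_lit 21370708), (nat_lit 14146940)] (nat_lit 4431671)) p15_2_3 (nat_lit 4) (nat_lit 18) (nat_lit 19) = true := by decide +kernel
def p15_2_3_19 : pfC (piC [(nat_lit 34420195), (nat_lit 27488723), (nat_lit 21370708), (nat_lit 14146940)] (nat_lit 4431671)) p15_2_3 (nat_lit 4) (nat_lit 19) (nat_lit 20) = true := by decide +kernel
def p15_2_3_20 : pfC (piC [(nat_lit 34420195), (nat_lit 27488723), (nat_lit 21370708), (nat_lit 14146940)] (nat_lit 4431671)) p15_2_3 (nat_lit 4) (nat_lit 20) (nat_lit 21) = true := by decide +kernel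
def p15_2_3_21 : pfC (piC [(nat_lit 34420195), (nat_lit 27488723), (nat_lit 21370708), (nat_lit 14146940)] (nat_lit 4431671)) p15_2_3 (nat_lit 4) (nat_lit 21) (nat_lit 22) = true := by decide +kernel
def p15_2_3_22 : pfC (piC [(nat_lit 34420195), (nat_lit 27488723), (nat_lit 21370708), (nat_lit 14146940)] (nat_lit 4431671)) p15_2_3 (nat_lit 4) (nat_lit 22) (nat_lit 23) = true := by decide +kernel
def p15_2_3_23 : pfC (piC [(nat_lit 34420195), (nat_lit 27488723), (nat_lit 21370708), (nat_lit 14146940)] (nat_lit 4431671)) p15_2_3 (nat_lit 4) (nat_lit 23) (nat_lit 24) = true := by decide +kernel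
def p15_2_3_24 : pfC (piC [(nat_lit 34420195), (nat_lit 27488723), (nat_lit 21370708), (nat_lit 14146940)] (nat_lit 4431671)) p15_2_3 (nat_lit 4) (nat_lit 24) (nat_lit 25) = true := by decide +kernel
theorem p15_2_3_T : PfS (PiF n15_2.reverse (nat_lit 4431671)) p15_2_3 (nat_lit 4) [] 0 :=
  pftab_of (los := [(nat_lit 34420195), (nat_lit 27488723), (nat_lit 21370708), (nat_lit 14146940)]) (by decide +kernel) (hi := (nat_lit 25)) (PfP.trans (PfP.trans (PfP.trans (PfP.trans (PfP.trans (PfP.trans (PfP.trans (PfP.trans (PfP.trans (PfP.trans (PfP.trans (PfP.trans (PfP.trans (PfP.trans (PfP.trans (PfP.trans (PfP.trans (PfP.trans (PfP.trans (PfP.trans (PfP.trans (PfP.trans (PfP.trans (PfP.trans (pfC_sound p15_2_3_0) (pfC_sound p15_2_3_1)) (pfC_sound p15_2_3_2)) (pfC_sound p15_2_3_3)) (pfC_sound p15_2_3_4)) (pfC_sound p15_2_3_5)) (pfC_sound p15_2_3_6)) (pfC_sound p15_2_3_7)) (pfC_sound p15_2_3_8)) (pfC_sound p15_2_3_9)) (pfC_sound p15_2_3_10)) (pfC_sound p15_2_3_11))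 (pfC_sound p15_2_3_12)) (pfC_sound p15_2_3_13)) (pfC_sound p15_2_3_14)) (pfC_sound p15_2_3_15)) (pfC_sound p15_2_3_16)) (pfC_sound p15_2_3_17)) (pfC_sound p15_2_3_18)) (pfC_sound p15_2_3_19)) (pfC_sound p15_2_3_20)) (pfC_sound p15_2_3_21)) (pfC_sound p15_2_3_22)) (pfC_sound p15_2_3_23)) (pfC_sound p15_2_3_24)) (by decide +kernel)

def z15_2_3 : zOK yB15_2 (nat_lit 3) (nat_lit 750) (nat_lit 975) (nat_lit 4431671) (nat_lit 1767373) = true := by decide +kernel
def g15_2_3 : gOK yB15_2.x P15_2 (nat_lit 1421) (q15_2 :: r15_2) (nat_lit 3) (nat_lit 750) (nat_lit 4) (nat_lit 975) (nat_lit 12712500) (nat_lit 12712500) (nat_lit 12712500) (nat_lit 12712500) [(nat_lit 800)] = true := by decide +kernel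
def v15_2_3 : ivC P15_2 s15_2 w15_2 n15_2 (nat_lit 4) (nat_lit 4870) (nat_lit 3) (nat_lit 750) f112_1_750 f120_1_750 (nat_lit 4) (nat_lit 975) f112_1_975 f120_1_975 (nat_lit 4431671) (nat_lit 1767373) p15_2_3 = true := by decide +kernel
/-! box `yB15_3` -/

def P15_3 : BQ := ⟨(nat_lit 8), (nat_lit 8), (nat_lit 0), (nat_lit 4), (nat_lit 4), (nat_lit 600), (nat_lit 620), (nat_lit 120), [(nat_lit 200), (nat_lit 300), (nat_lit 450), (nat_lit 800)], (nat_lit 33744000), (nat_lit 16000000), (nat_lit 16000000000)⟩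
def q15_3 : PC := ⟨(nat_lit 1000), [(nat_lit 120000), (nat_lit 200000), (nat_lit 300000), (nat_lit 450000), (nat_lit 800000)], (nat_lit 340282367000166625996085689103316680705000000), (nat_lit 15966256000000), (nat_lit 15966256000000), (nat_lit 10000000)⟩
def r15_3 : List PC := [⟨(nat_lit 1290), [(nat_lit 120448), (nat_lit 200816), (nat_lit 301459), (nat_lit 452132), (nat_lit 799557)], (nat_lit 342159704818991081721084943811472788932218477), (nat_lit 16286227294400), (nat_lit 16297755374400), (nat_lit 10048634)⟩]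
def s15_3 : List PB := [⟨(nat_lit 25800), (nat_lit 1927168000000), [(nat_lit 200816), (nat_lit 301459), (nat_lit 452132), (nat_lit 799557)], (nat_lit 342159704818991081721084943811472788932218477), (nat_lit 1142186134137024), (nat_lit 1142197662217024), (nat_lit 46400)⟩]
def n15_3 : List KN := [⟨(nat_lit 800), (nat_lit 450), (nat_lit 14105872), (nat_lit 9915534)⟩, ⟨(nat_lit 450), (nat_lit 300), (nat_lit 21119649), (nat_lit 14105872)⟩, ⟨(nat_lit 300), (nat_lit 200), (nat_lit 28302180), (nat_lit 21119649)⟩, ⟨(nat_lit 200), (nat_lit 120), (nat_lit 36119186), (nat_lit 28302180)⟩]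
def w15_3 : List ℕ := [(nat_lit 46400)]
def par15_3 : parC yB15_3 P15_3 s15_3 r15_3 q15_3 n15_3 w15_3 = true := by decide +kernel

def p15_3_0 : PF := (PF.cons (PF.cons (PF.cons (PF.cons (PF.leaf (nat_lit 331612) (nat_lit 825885) (nat_lit 66282927) (nat_lit 825885) [(nat_lit 0), (nat_lit 0), (nat_lit 0), (nat_lit 0)]) (PF.cons (PF.leaf (nat_lit 453426) (nat_lit 186995) (nat_lit 66044953) (nat_lit 876864) [(nat_lit 186995), (nat_lit 0), (nat_lit 0), (nat_lit 0)]) (PF.cons (PF.leaf (nat_lit 606884) (nat_lit 211125) (nat_lit 65755119) (nat_lit 931442) [(nat_lit 211125), (nat_lit 0), (nat_lit 0), (nat_lit 0)]) (PF.cons (PF.leaf (nat_lit 786364) (nat_lit 234426) (nat_lit 65418068) (nat_lit 987463) [(nat_lit 234426), (nat_lit 0), (nat_lit 0), (nat_lit 0)]) (PF.cons PF.nil PF.nil))))) (PF.cons (PF.cons (PF.leaf (nat_lit 668232) (nat_lit 633388) (nat_lit 65512437) (nat_lit 962987) [(nat_lit 0), (nat_lit 633388), (nat_lit 0), (nat_lit 0)]) (PF.cons (PF.leaf (nat_lit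 840078) (nat_lit 239960) (nat_lit 65178801) (nat_lit 1014861) [(nat_lit 239960), (nat_lit 675188), (nat_lit 0), (nat_lit 0)]) (PF.cons PF.nil (PF.cons PF.nil PF.nil)))) (PF.cons (PF.cons (PF.leaf (nat_lit 1092948) (nat_lit 734493) (nat_lit 64547679) (nat_lit 1092146) [(nat_lit 0), (nat_lit 734493), (nat_lit 0), (nat_lit 0)]) (PF.cons PF.nil PF.nil)) (PF.cons PF.nil (PF.cons
 PF.nil PF.nil))))) (PF.cons (PF.cons (PF.cons (PF.leaf (nat_lit 1184106) (nat_lit 1123912) (nat_lit 63829960) (nat_lit 1123912) [(nat_lit 0), (nat_lit 0), (nat_lit 2154939), (nat_lit 0)]) (PF.cons (PF.leaf (nat_lit 1381808) (nat_lit 286020) (nat_lit 63439245) (nat_lit 1169045) [(nat_lit 286020), (nat_lit 0), (nat_lit 2214501), (nat_lit 0)]) (PF.cons PF.nil (PF.cons PF.nil PF.nil)))) (PF.cons (PF.cons (PF.leaf (nat_lit 1656957) (nat_lit 839104) (nat_lit 62729668) (nat_lit 1234146) [(nat_lit 0), (nat_lit 839104), (nat_lit 2305893), (nat_lit 0)]) (PF.cons PF.nil PF.nil)) (PF.cons PF.nil PF.nil)))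 (PF.cons (PF.cons (PF.cons (PF.leaf (nat_lit 2241738) (nat_lit 1350398) (nat_lit 60798919) (nat_lit 1350398) [(nat_lit 0), (nat_lit 0), (nat_lit 2479747), (nat_lit 0)]) (PF.cons PF.nil PF.nil)) (PF.cons PF.nil PF.nil)) (PF.cons PF.nil (PF.cons PF.nil PF.nil))))) (PF.cons (PF.cons (PF.cons (PF.cons (PF.leaf (nat_lit 2009808) (nat_lit 1281399) (nat_lit 60055903) (nat_lit 1281399) [(nat_lit 0), (nat_lit 0), (nat_lit 0), (nat_lit 5771509)]) (PF.cons (PF.leaf (nat_lit 2224421) (nat_lit 328321) (nat_lit 59637745) (nat_lit 1319957) [(nat_lit 328321), (nat_lit 0), (nat_lit 0), (nat_lit 5822788)])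
 (PF.cons (PF.leaf (nat_lit 2463542) (nat_lit 348564) (nat_lit 59177857) (nat_lit 1358380) [(nat_lit 348564), (nat_lit 0), (nat_lit 0), (nat_lit 5875445)]) (PF.cons (PF.leaf (nat_lit 2723152) (nat_lit 367297) (nat_lit 58682883) (nat_lit 1395990) [(nat_lit 367297), (nat_lit 0), (nat_lit 0), (nat_lit 5928045)]) (PF.cons PF.nil PF.nil))))) (PF.cons (PF.cons (PF.leaf (nat_lit 2509403) (nat_lit 938949) (nat_lit 58895447) (nat_lit 1372546) [(nat_lit 0), (nat_lit 938949), (nat_lit 0), (nat_lit 5901870)]) (PF.cons (PF.leaf (nat_lit 2760266) (nat_lit 368719) (nat_lit 58411548) (nat_lit 1408192) [(nat_lit 368719), (nat_lit 969221), (nat_lit 0), (nat_lit 5951130)]) (PF.cons (PF.leaf (nat_lit 3031054) (nat_lit 386119) (nat_lit 57895445) (nat_lit 1442989) [(nat_lit 386119), (nat_lit 998452), (nat_lit 0), (nat_lit 5999686)]) (PF.cons PF.nil PF.nil)))) (PF.cons (PF.cons (PF.leaf (nat_lit 3065594) (nat_lit 1005869) (nat_lit 57623612) (nat_lit 1453728) [(nat_lit 0), (nat_lit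 1005869), (nat_lit 0), (nat_lit 6019733)]) (PF.cons PF.nil PF.nil)) (PF.cons PF.nil (PF.cons PF.nil PF.nil))))) (PF.cons (PF.cons (PF.cons (PF.leaf (nat_lit 3086450) (nat_lit 1459017) (nat_lit 56955237) (nat_lit 1459017)
 [(nat_lit 0), (nat_lit 0), (nat_lit 2647128), (nat_lit 6047429)]) (PF.cons (PF.leaf (nat_lit 3349282) (nat_lit 396831) (nat_lit 56453009) (nat_lit 1489469) [(nat_lit 396831), (nat_lit 0), (nat_lit 2683868), (nat_lit 6085633)]) (PF.cons PF.nil (PF.cons PF.nil PF.nil)))) (PF.cons (PF.cons (PF.leaf (nat_lit 3660031) (nat_lit 1062604) (nat_lit 55650314) (nat_lit 1527193) [(nat_lit 0), (nat_lit 1062604), (nat_lit 2732188), (nat_lit 6136511)]) (PF.cons PF.nil PF.nil)) (PF.cons PF.nil PF.nil))) (PF.cons (PF.cons (PF.cons (PF.leaf (nat_lit 4249104) (nat_lit 1585369) (nat_lit 53688814) (nat_lit 1585369) [(nat_lit 0), (nat_lit 0), (nat_lit 2810226), (nat_lit 6214176)]) (PF.cons PF.nil PF.nil)) (PF.cons PF.nil PF.nil)) PF.nil))) (PF.cons (PF.cons (PF.cons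 (PF.cons (PF.leaf (nat_lit 3878649) (nat_lit 1528578) (nat_lit 53287810) (nat_lit 1528578) [(nat_lit 0), (nat_lit 0), (nat_lit 0), (nat_lit 6146212)]) (PF.cons (PF.leaf (nat_lit 4144020) (nat_lit 417929) (nat_lit 52800583) (nat_lit 1553533) [(nat_lit 417929), (nat_lit 0), (nat_lit 0), (nat_lit 6168383)]) (PF.cons (PF.leaf (nat_lit 4426269) (nat_lit 432539) (nat_lit 52288085) (nat_lit 1577415) [(nat_lit 432539), (nat_lit 0), (nat_lit 0),
 (nat_lit 6189116)]) (PF.cons PF.nil PF.nil)))) (PF.cons (PF.cons (PF.leaf (nat_lit 4448785) (nat_lit 1105204) (nat_lit 52030527) (nat_lit 1582768) [(nat_lit 0), (nat_lit 1105204), (nat_lit 0), (nat_lit 6195156)]) (PF.cons (PF.leaf (nat_lit 4736834) (nat_lit 445247) (nat_lit 51509573) (nat_lit 1604455) [(nat_lit 445247), (nat_lit 1124667), (nat_lit 0), (nat_lit 6212434)]) PF.nil)) (PF.cons PF.nil PF.nil))) (PF.cons (PF.cons (PF.cons (PF.leaf (nat_lit 5009388) (nat_lit 1623324) (nat_lit 50183063) (nat_lit 1623324) [(nat_lit 0),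 (nat_lit 0), (nat_lit 2857147), (nat_lit 6222638)]) (PF.cons PF.nil PF.nil)) (PF.cons PF.nil PF.nil)) (PF.cons PF.nil PF.nil))) (PF.cons (PF.cons (PF.cons (PF.cons (PF.leaf (nat_lit 5709373) (nat_lit 1640067) (nat_lit 46958387) (nat_lit 1640067) [(nat_lit 0), (nat_lit 0), (nat_lit 0), (nat_lit 6170119)]) (PF.cons PF.nil PF.nil)) (PF.cons PF.nil PF.nil)) (PF.cons PF.nil PF.nil)) (PF.cons PF.nil (PF.cons PF.nil (PF.cons PF.nil (PF.cons PF.nil PF.nil))))))))

def p15_3_0_0 : pfC (piC [(nat_lit 36119186), (nat_lit 28302180), (nat_lit 21119649), (nat_lit 14105872)] (nat_lit 33524074)) p15_3_0 (nat_lit 4) (nat_lit 0) (nat_lit 1) = true := by decide +kernel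
def p15_3_0_1 : pfC (piC [(nat_lit 36119186), (nat_lit 28302180), (nat_lit 21119649), (nat_lit 14105872)] (nat_lit 33524074)) p15_3_0 (nat_lit 4) (nat_lit 1) (nat_lit 2) = true := by decide +kernel
def p15_3_0_2 : pfC (piC [(nat_lit 36119186), (nat_lit 28302180), (nat_lit 21119649), (nat_lit 14105872)] (nat_lit 33524074)) p15_3_0 (nat_lit 4) (nat_lit 2) (nat_lit 3) = true := by decide +kernel
def p15_3_0_3 : pfC (piC [(nat_lit 36119186), (nat_lit 28302180), (nat_lit 21119649), (nat_lit 14105872)] (nat_lit 33524074)) p15_3_0 (nat_lit 4) (nat_lit 3) (nat_lit 4) = true := by decide +kernel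
def p15_3_0_4 : pfC (piC [(nat_lit 36119186), (nat_lit 28302180), (nat_lit 21119649), (nat_lit 14105872)] (nat_lit 33524074)) p15_3_0 (nat_lit 4) (nat_lit 4) (nat_lit 5) = true := by decide +kernel
def p15_3_0_5 : pfC (piC [(nat_lit 36119186), (nat_lit 28302180), (nat_lit 21119649), (nat_lit 14105872)] (nat_lit 33524074)) p15_3_0 (nat_lit 4) (nat_lit 5) (nat_lit 6) = true := by decide +kernel
def p15_3_0_6 : pfC (piC [(nat_lit 36119186), (nat_lit 28302180), (nat_lit 21119649), (nat_lit 14105872)] (nat_lit 33524074)) p15_3_0 (nat_lit 4) (nat_lit 6) (nat_lit 7) = true := by decide +kernel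
def p15_3_0_7 : pfC (piC [(nat_lit 36119186), (nat_lit 28302180), (nat_lit 21119649), (nat_lit 14105872)] (nat_lit 33524074)) p15_3_0 (nat_lit 4) (nat_lit 7) (nat_lit 8) = true := by decide +kernel
def p15_3_0_8 : pfC (piC [(nat_lit 36119186), (nat_lit 28302180), (nat_lit 21119649), (nat_lit 14105872)] (nat_lit 33524074)) p15_3_0 (nat_lit 4) (nat_lit 8) (nat_lit 9) = true := by decide +kernel
def p15_3_0_9 : pfC (piC [(nat_lit 36119186), (nat_lit 28302180), (nat_lit 21119649), (nat_lit 14105872)] (nat_lit 33524074)) p15_3_0 (nat_lit 4) (nat_lit 9) (nat_lit 10) = true := by decide +kernel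
def p15_3_0_10 : pfC (piC [(nat_lit 36119186), (nat_lit 28302180), (nat_lit 21119649), (nat_lit 14105872)] (nat_lit 33524074)) p15_3_0 (nat_lit 4) (nat_lit 10) (nat_lit 11) = true := by decide +kernel
def p15_3_0_11 : pfC (piC [(nat_lit 36119186), (nat_lit 28302180), (nat_lit 21119649), (nat_lit 14105872)] (nat_lit 33524074)) p15_3_0 (nat_lit 4) (nat_lit 11) (nat_lit 12) = true := by decide +kernel
def p15_3_0_12 : pfC (piC [(nat_lit 36119186), (nat_lit 28302180), (nat_lit 21119649), (nat_lit 14105872)] (nat_lit 33524074)) p15_3_0 (nat_lit 4) (nat_lit 12) (nat_lit 13) = true := by decide +kernel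
def p15_3_0_13 : pfC (piC [(nat_lit 36119186), (nat_lit 28302180), (nat_lit 21119649), (nat_lit 14105872)] (nat_lit 33524074)) p15_3_0 (nat_lit 4) (nat_lit 13) (nat_lit 14) = true := by decide +kernel
def p15_3_0_14 : pfC (piC [(nat_lit 36119186), (nat_lit 28302180), (nat_lit 21119649), (nat_lit 14105872)] (nat_lit 33524074)) p15_3_0 (nat_lit 4) (nat_lit 14) (nat_lit 15) = true := by decide +kernel
def p15_3_0_15 : pfC (piC [(nat_lit 36119186), (nat_lit 28302180), (nat_lit 21119649), (nat_lit 14105872)] (nat_lit 33524074)) p15_3_0 (nat_lit 4) (nat_lit 15) (nat_lit 16) = true := by decide +kernel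
def p15_3_0_16 : pfC (piC [(nat_lit 36119186), (nat_lit 28302180), (nat_lit 21119649), (nat_lit 14105872)] (nat_lit 33524074)) p15_3_0 (nat_lit 4) (nat_lit 16) (nat_lit 17) = true := by decide +kernel
def p15_3_0_17 : pfC (piC [(nat_lit 36119186), (nat_lit 28302180), (nat_lit 21119649), (nat_lit 14105872)] (nat_lit 33524074)) p15_3_0 (nat_lit 4) (nat_lit 17) (nat_lit 18) = true := by decide +kernel
def p15_3_0_18 : pfC (piC [(nat_lit 36119186), (nat_lit 28302180), (nat_lit 21119649), (nat_lit 14105872)] (nat_lit 33524074)) p15_3_0 (nat_lit 4) (nat_lit 18) (nat_lit 19) = true := by decide +kernel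
def p15_3_0_19 : pfC (piC [(nat_lit 36119186), (nat_lit 28302180), (nat_lit 21119649), (nat_lit 14105872)] (nat_lit 33524074)) p15_3_0 (nat_lit 4) (nat_lit 19) (nat_lit 20) = true := by decide +kernel
def p15_3_0_20 : pfC (piC [(nat_lit 36119186), (nat_lit 28302180), (nat_lit 21119649), (nat_lit 14105872)] (nat_lit 33524074)) p15_3_0 (nat_lit 4) (nat_lit 20) (nat_lit 21) = true := by decide +kernel
def p15_3_0_21 : pfC (piC [(nat_lit 36119186), (nat_lit 28302180), (nat_lit 21119649), (nat_lit 14105872)] (nat_lit 33524074)) p15_3_0 (nat_lit 4) (nat_lit 21) (nat_lit 22) = true := by decide +kernel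
def p15_3_0_22 : pfC (piC [(nat_lit 36119186), (nat_lit 28302180), (nat_lit 21119649), (nat_lit 14105872)] (nat_lit 33524074)) p15_3_0 (nat_lit 4) (nat_lit 22) (nat_lit 23) = true := by decide +kernel
def p15_3_0_23 : pfC (piC [(nat_lit 36119186), (nat_lit 28302180), (nat_lit 21119649), (nat_lit 14105872)] (nat_lit 33524074)) p15_3_0 (nat_lit 4) (nat_lit 23) (nat_lit 24) = true := by decide +kernel
def p15_3_0_24 : pfC (piC [(nat_lit 36119186), (nat_lit 28302180), (nat_lit 21119649), (nat_lit 14105872)] (nat_lit 33524074)) p15_3_0 (nat_lit 4) (nat_lit 24) (nat_lit 25) = true := by decide +kernel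
def p15_3_0_25 : pfC (piC [(nat_lit 36119186), (nat_lit 28302180), (nat_lit 21119649), (nat_lit 14105872)] (nat_lit 33524074)) p15_3_0 (nat_lit 4) (nat_lit 25) (nat_lit 26) = true := by decide +kernel
def p15_3_0_26 : pfC (piC [(nat_lit 36119186), (nat_lit 28302180), (nat_lit 21119649), (nat_lit 14105872)] (nat_lit 33524074)) p15_3_0 (nat_lit 4) (nat_lit 26) (nat_lit 27) = true := by decide +kernel
def p15_3_0_27 : pfC (piC [(nat_lit 36119186), (nat_lit 28302180), (nat_lit 21119649), (nat_lit 14105872)] (nat_lit 33524074)) p15_3_0 (nat_lit 4) (nat_lit 27) (nat_lit 28) = true := by decide +kernel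
def p15_3_0_28 : pfC (piC [(nat_lit 36119186), (nat_lit 28302180), (nat_lit 21119649), (nat_lit 14105872)] (nat_lit 33524074)) p15_3_0 (nat_lit 4) (nat_lit 28) (nat_lit 29) = true := by decide +kernel
def p15_3_0_29 : pfC (piC [(nat_lit 36119186), (nat_lit 28302180), (nat_lit 21119649), (nat_lit 14105872)] (nat_lit 33524074)) p15_3_0 (nat_lit 4) (nat_lit 29) (nat_lit 30) = true := by decide +kernel
theorem p15_3_0_T : PfS (PiF n15_3.reverse (nat_lit 33524074)) p15_3_0 (nat_lit 4) [] 0 :=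
  pftab_of (los := [(nat_lit 36119186), (nat_lit 28302180), (nat_lit 21119649), (nat_lit 14105872)]) (by decide +kernel) (hi := (nat_lit 30)) (PfP.trans (PfP.trans (PfP.trans (PfP.trans (PfP.trans (PfP.trans (PfP.trans (PfP.trans (PfP.trans (PfP.trans (PfP.trans (PfP.trans (PfP.trans (PfP.trans (PfP.trans (PfP.trans (PfP.trans (PfP.trans (PfP.trans (PfP.trans (PfP.trans (PfP.trans (PfP.trans (PfP.trans (PfP.trans (PfP.trans (PfP.trans (PfP.trans (PfP.trans (pfC_sound p15_3_0_0) (pfC_sound p15_3_0_1)) (pfC_sound p15_3_0_2)) (pfC_sound p15_3_0_3)) (pfC_sound p15_3_0_4)) (pfC_sound p15_3_0_5)) (pfC_sound p15_3_0_6)) (pfC_sound p15_3_0_7)) (pfC_sound p15_3_0_8)) (pfC_sound p15_3_0_9)) (pfC_sound p15_3_0_10)) (pfC_sound p15_3_0_11)) (pfC_sound p15_3_0_12)) (pfC_sound p15_3_0_13)) (pfC_sound p15_3_0_14)) (pfC_sound p15_3_0_15)) (pfC_sound p15_3_0_16)) (pfC_sound p15_3_0_17)) (pfC_sound p15_3_0_18)) (pfC_sound p15_3_0_19)) (pfC_sound p15_3_0_20)) (pfC_sound p15_3_0_21))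 (pfC_sound p15_3_0_22)) (pfC_sound p15_3_0_23)) (pfC_sound p15_3_0_24)) (pfC_sound p15_3_0_25)) (pfC_sound p15_3_0_26)) (pfC_sound p15_3_0_27)) (pfC_sound p15_3_0_28)) (pfC_sound p15_3_0_29)) (by decide +kernel)

def z15_3_0 : zOK yB15_3 (nat_lit 0) (nat_lit 0) (nat_lit 400) (nat_lit 33524074) (nat_lit 10328247) = true := by decide +kernel
def g15_3_0 : gOK yB15_3.x P15_3 (nat_lit 1427) (q15_3 :: r15_3) (nat_lit 0) (nat_lit 0) (nat_lit 1) (nat_lit 400) (nat_lit 0) (nat_lit 11000000) (nat_lit 12712500) (nat_lit 12712500) [(nat_lit 800), (nat_lit 1600)] = true := by decide +kernel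
def v15_3_0 : ivC P15_3 s15_3 w15_3 n15_3 (nat_lit 4) (nat_lit 5600) (nat_lit 0) (nat_lit 0) f120_1_0 f128_1_0 (nat_lit 1) (nat_lit 400) f120_1_400 f128_1_400 (nat_lit 33524074) (nat_lit 10328247) p15_3_0 = true := by decide +kernel
def p15_3_1 : PF := (PF.cons (PF.cons (PF.cons (PF.cons (PF.leaf (nat_lit 2179361) (nat_lit 10584514) (nat_lit 56524298) (nat_lit 10584514) [(nat_lit 0), (nat_lit 0), (nat_lit 0), (nat_lit 0)]) (PF.cons (PF.leaf (nat_lit 2345475) (nat_lit 284815) (nat_lit 56220766) (nat_lit 10603230) [(nat_lit 284815), (nat_lit 0), (nat_lit 0), (nat_lit 0)]) (PF.cons (PF.leaf (nat_lit 2542358) (nat_lit 310027) (nat_lit 55865662) (nat_lit 10623096) [(nat_lit 310027), (nat_lit 0), (nat_lit 0), (nat_lit 0)]) (PF.cons PF.nil PF.nil)))) (PF.cons (PF.cons (PF.leaf (nat_lit 2597367) (nat_lit 881684) (nat_lit 55592860) (nat_lit 10634268) [(nat_lit 0), (nat_lit 881684), (nat_lit 0), (nat_lit 0)]) (PF.cons (PF.leaf (nat_lit 2807731) (nat_lit 333827) (nat_lit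 55208756) (nat_lit 10651666) [(nat_lit 333827), (nat_lit 914561), (nat_lit 0), (nat_lit 0)]) PF.nil)) (PF.cons PF.nil PF.nil))) (PF.cons (PF.cons (PF.cons (PF.leaf (nat_lit 3122589) (nat_lit 2582308) (nat_lit 53854460) (nat_lit 10672043) [(nat_lit 0), (nat_lit 0), (nat_lit 2582308), (nat_lit 0)]) (PF.cons PF.nil PF.nil)) (PF.cons PF.nil PF.nil)) (PF.cons PF.nil PF.nil))) (PF.cons (PF.cons (PF.cons (PF.cons (PF.leaf (nat_lit 3850300) (nat_lit 6018225) (nat_lit 50506422)
 (nat_lit 10584165) [(nat_lit 0), (nat_lit 0), (nat_lit 0), (nat_lit 6018225)]) (PF.cons (PF.leaf (nat_lit 4077567) (nat_lit 381510) (nat_lit 50113498) (nat_lit 10578910) [(nat_lit 381510), (nat_lit 0), (nat_lit 0), (nat_lit 6034893)]) (PF.cons PF.nil (PF.cons PF.nil PF.nil)))) (PF.cons (PF.cons (PF.leaf (nat_lit 4357111) (nat_lit 1049788) (nat_lit 49439747) (nat_lit 10563358) [(nat_lit 0), (nat_lit 1049788), (nat_lit 0), (nat_lit 6055918)]) (PF.cons PF.nil PF.nil)) (PF.cons PF.nil PF.nil))) (PF.cons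 (PF.cons (PF.cons (PF.leaf (nat_lit 4879513) (nat_lit 2771428) (nat_lit 47772344) (nat_lit 10491823) [(nat_lit 0), (nat_lit 0), (nat_lit 2771428), (nat_lit 6073216)]) (PF.cons PF.nil PF.nil)) PF.nil) PF.nil)) (PF.cons (PF.cons (PF.cons (PF.cons (PF.leaf (nat_lit 5537657) (nat_lit 6010735) (nat_lit 44822391) (nat_lit 10264949) [(nat_lit 0), (nat_lit 0), (nat_lit 0), (nat_lit 6010735)]) (PF.cons PF.nil PF.nil)) (PF.cons PF.nil PF.nil)) (PF.cons PF.nil PF.nil)) (PF.cons PF.nil (PF.cons PF.nil (PF.cons PF.nil PF.nil))))))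

def p15_3_1_0 : pfC (piC [(nat_lit 36119186), (nat_lit 28302180), (nat_lit 21119649), (nat_lit 14105872)] (nat_lit 10328247)) p15_3_1 (nat_lit 4) (nat_lit 0) (nat_lit 1) = true := by decide +kernel
def p15_3_1_1 : pfC (piC [(nat_lit 36119186), (nat_lit 28302180), (nat_lit 21119649), (nat_lit 14105872)] (nat_lit 10328247)) p15_3_1 (nat_lit 4) (nat_lit 1) (nat_lit 2) = true := by decide +kernel
def p15_3_1_2 : pfC (piC [(nat_lit 36119186), (nat_lit 28302180), (nat_lit 21119649), (nat_lit 14105872)] (nat_lit 10328247)) p15_3_1 (nat_lit 4) (nat_lit 2) (nat_lit 3) = true := by decide +kernel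
def p15_3_1_3 : pfC (piC [(nat_lit 36119186), (nat_lit 28302180), (nat_lit 21119649), (nat_lit 14105872)] (nat_lit 10328247)) p15_3_1 (nat_lit 4) (nat_lit 3) (nat_lit 4) = true := by decide +kernel
def p15_3_1_4 : pfC (piC [(nat_lit 36119186), (nat_lit 28302180), (nat_lit 21119649), (nat_lit 14105872)] (nat_lit 10328247)) p15_3_1 (nat_lit 4) (nat_lit 4) (nat_lit 5) = true := by decide +kernel
def p15_3_1_5 : pfC (piC [(nat_lit 36119186), (nat_lit 28302180), (nat_lit 21119649), (nat_lit 14105872)] (nat_lit 10328247)) p15_3_1 (nat_lit 4) (nat_lit 5) (nat_lit 6) = true := by decide +kernel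
def p15_3_1_6 : pfC (piC [(nat_lit 36119186), (nat_lit 28302180), (nat_lit 21119649), (nat_lit 14105872)] (nat_lit 10328247)) p15_3_1 (nat_lit 4) (nat_lit 6) (nat_lit 7) = true := by decide +kernel
def p15_3_1_7 : pfC (piC [(nat_lit 36119186), (nat_lit 28302180), (nat_lit 21119649), (nat_lit 14105872)] (nat_lit 10328247)) p15_3_1 (nat_lit 4) (nat_lit 7) (nat_lit 8) = true := by decide +kernel
def p15_3_1_8 : pfC (piC [(nat_lit 36119186), (nat_lit 28302180), (nat_lit 21119649), (nat_lit 14105872)] (nat_lit 10328247)) p15_3_1 (nat_lit 4) (nat_lit 8) (nat_lit 9) = true := by decide +kernel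
def p15_3_1_9 : pfC (piC [(nat_lit 36119186), (nat_lit 28302180), (nat_lit 21119649), (nat_lit 14105872)] (nat_lit 10328247)) p15_3_1 (nat_lit 4) (nat_lit 9) (nat_lit 10) = true := by decide +kernel
def p15_3_1_10 : pfC (piC [(nat_lit 36119186), (nat_lit 28302180), (nat_lit 21119649), (nat_lit 14105872)] (nat_lit 10328247)) p15_3_1 (nat_lit 4) (nat_lit 10) (nat_lit 11) = true := by decide +kernel
theorem p15_3_1_T : PfS (PiF n15_3.reverse (nat_lit 10328247)) p15_3_1 (nat_lit 4) [] 0 :=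
  pftab_of (los := [(nat_lit 36119186), (nat_lit 28302180), (nat_lit 21119649), (nat_lit 14105872)]) (by decide +kernel) (hi := (nat_lit 11)) (PfP.trans (PfP.trans (PfP.trans (PfP.trans (PfP.trans (PfP.trans (PfP.trans (PfP.trans (PfP.trans (PfP.trans (pfC_sound p15_3_1_0) (pfC_sound p15_3_1_1)) (pfC_sound p15_3_1_2)) (pfC_sound p15_3_1_3)) (pfC_sound p15_3_1_4)) (pfC_sound p15_3_1_5)) (pfC_sound p15_3_1_6)) (pfC_sound p15_3_1_7)) (pfC_sound p15_3_1_8)) (pfC_sound p15_3_1_9)) (pfC_sound p15_3_1_10)) (by decide +kernel)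

def z15_3_1 : zOK yB15_3 (nat_lit 1) (nat_lit 400) (nat_lit 600) (nat_lit 10328247) (nat_lit 6424542) = true := by decide +kernel
def g15_3_1 : gOK yB15_3.x P15_3 (nat_lit 1427) (q15_3 :: r15_3) (nat_lit 1) (nat_lit 400) (nat_lit 2) (nat_lit 600) (nat_lit 11000000) (nat_lit 17850000) (nat_lit 12712500) (nat_lit 12712500) [(nat_lit 800), (nat_lit 1040)] = true := by decide +kernel
def v15_3_1 : ivC P15_3 s15_3 w15_3 n15_3 (nat_lit 4) (nat_lit 5200) (nat_lit 1) (nat_lit 400) f120_1_400 f128_1_400 (nat_lit 2) (nat_lit 600) f120_1_600 f128_1_600 (nat_lit 10328247) (nat_lit 6424542) p15_3_1 = true := by decide +kernel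
def p15_3_2 : PF := (PF.cons (PF.cons (PF.cons (PF.cons (PF.leaf (nat_lit 2808884) (nat_lit 16743156) (nat_lit 50365656) (nat_lit 16743156) [(nat_lit 0), (nat_lit 0), (nat_lit 0), (nat_lit 0)]) (PF.cons (PF.leaf (nat_lit 2970114) (nat_lit 283757) (nat_lit 50106010) (nat_lit 16719045) [(nat_lit 283757), (nat_lit 0), (nat_lit 0), (nat_lit 0)]) (PF.cons (PF.leaf (nat_lit 3160721) (nat_lit 308204) (nat_lit 49802766) (nat_lit 16689637) [(nat_lit 308204), (nat_lit 0), (nat_lit 0), (nat_lit 0)]) (PF.cons (PF.leaf (nat_lit 3374383) (nat_lit 329772) (nat_lit 49464232) (nat_lit 16655263) [(nat_lit 329772), (nat_lit 0), (nat_lit 0), (nat_lit 0)]) (PF.cons PF.nil PF.nil))))) (PF.cons (PF.cons (PF.leaf (nat_lit 3210701) (nat_lit 873326) (nat_lit 49570862) (nat_lit 16664623) [(nat_lit 0), (nat_lit 873326), (nat_lit 0), (nat_lit 0)]) (PF.cons (PF.leaf (nat_lit 3413435) (nat_lit 330610) (nat_lit 49243852) (nat_lit 16630341) [(nat_lit 330610), (nat_lit 904008), (nat_lit 0),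 (nat_lit 0)]) (PF.cons PF.nil (PF.cons PF.nil PF.nil)))) (PF.cons (PF.cons (PF.leaf (nat_lit 3674722) (nat_lit 940302) (nat_lit 48663945) (nat_lit 16564262) [(nat_lit 0), (nat_lit 940302), (nat_lit 0), (nat_lit 0)]) (PF.cons PF.nil PF.nil))
 PF.nil))) (PF.cons (PF.cons (PF.cons (PF.leaf (nat_lit 3701282) (nat_lit 2523392) (nat_lit 48100977) (nat_lit 16484442) [(nat_lit 0), (nat_lit 0), (nat_lit 2523392), (nat_lit 0)]) (PF.cons (PF.leaf (nat_lit 3915103) (nat_lit 356329) (nat_lit 47758673) (nat_lit 16441974) [(nat_lit 356329), (nat_lit 0), (nat_lit 2551835), (nat_lit 0)]) (PF.cons PF.nil PF.nil))) (PF.cons (PF.cons (PF.leaf (nat_lit 4181669) (nat_lit 989128) (nat_lit 47166385) (nat_lit 16363314) [(nat_lit 0), (nat_lit 989128), (nat_lit 2589983), (nat_lit 0)]) PF.nil) PF.nil)) (PF.cons PF.nil PF.nil))) (PF.cons (PF.cons (PF.cons (PF.cons (PF.leaf (nat_lit 4363415) (nat_lit 5773198) (nat_lit 45303400) (nat_lit 16032214) [(nat_lit 0), (nat_lit 0), (nat_lit 0), (nat_lit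 5773198)]) (PF.cons (PF.leaf (nat_lit 4579833) (nat_lit 370856) (nat_lit 44972566) (nat_lit 15981402) [(nat_lit 370856), (nat_lit 0), (nat_lit 0), (nat_lit 5783987)]) (PF.cons (PF.leaf (nat_lit 4816134) (nat_lit 387459) (nat_lit 44614869) (nat_lit 15925058) [(nat_lit 387459), (nat_lit 0), (nat_lit 0), (nat_lit 5793966)]) (PF.cons PF.nil PF.nil)))) (PF.cons (PF.cons (PF.leaf (nat_lit 4842964) (nat_lit 1016797) (nat_lit 44406286) (nat_lit 15889922) [(nat_lit
 0), (nat_lit 1016797), (nat_lit 0), (nat_lit 5795806)]) (PF.cons PF.nil PF.nil)) (PF.cons PF.nil PF.nil))) (PF.cons (PF.cons (PF.cons (PF.leaf (nat_lit 5327851) (nat_lit 2663489) (nat_lit 43009326) (nat_lit 15640795) [(nat_lit 0), (nat_lit 0), (nat_lit 2663489), (nat_lit 5795202)]) (PF.cons PF.nil PF.nil)) (PF.cons PF.nil PF.nil)) (PF.cons PF.nil PF.nil))) (PF.cons (PF.cons (PF.cons (PF.cons (PF.leaf (nat_lit 5929723) (nat_lit 5717256) (nat_lit 40547386) (nat_lit 15126912) [(nat_lit 0), (nat_lit 0), (nat_lit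 0), (nat_lit 5717256)]) (PF.cons PF.nil PF.nil)) (PF.cons PF.nil PF.nil)) (PF.cons PF.nil PF.nil)) (PF.cons PF.nil (PF.cons PF.nil (PF.cons PF.nil PF.nil))))))

def p15_3_2_0 : pfC (piC [(nat_lit 36119186), (nat_lit 28302180), (nat_lit 21119649), (nat_lit 14105872)] (nat_lit 6424542)) p15_3_2 (nat_lit 4) (nat_lit 0) (nat_lit 1) = true := by decide +kernel
def p15_3_2_1 : pfC (piC [(nat_lit 36119186), (nat_lit 28302180), (nat_lit 21119649), (nat_lit 14105872)] (nat_lit 6424542)) p15_3_2 (nat_lit 4) (nat_lit 1) (nat_lit 2) = true := by decide +kernel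
def p15_3_2_2 : pfC (piC [(nat_lit 36119186), (nat_lit 28302180), (nat_lit 21119649), (nat_lit 14105872)] (nat_lit 6424542)) p15_3_2 (nat_lit 4) (nat_lit 2) (nat_lit 3) = true := by decide +kernel
def p15_3_2_3 : pfC (piC [(nat_lit 36119186), (nat_lit 28302180), (nat_lit 21119649), (nat_lit 14105872)] (nat_lit 6424542)) p15_3_2 (nat_lit 4) (nat_lit 3) (nat_lit 4) = true := by decide +kernel
def p15_3_2_4 : pfC (piC [(nat_lit 36119186), (nat_lit 28302180), (nat_lit 21119649), (nat_lit 14105872)] (nat_lit 6424542)) p15_3_2 (nat_lit 4) (nat_lit 4) (nat_lit 5) = true := by decide +kernel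
def p15_3_2_5 : pfC (piC [(nat_lit 36119186), (nat_lit 28302180), (nat_lit 21119649), (nat_lit 14105872)] (nat_lit 6424542)) p15_3_2 (nat_lit 4) (nat_lit 5) (nat_lit 6) = true := by decide +kernel
def p15_3_2_6 : pfC (piC [(nat_lit 36119186), (nat_lit 28302180), (nat_lit 21119649), (nat_lit 14105872)] (nat_lit 6424542)) p15_3_2 (nat_lit 4) (nat_lit 6) (nat_lit 7) = true := by decide +kernel
def p15_3_2_7 : pfC (piC [(nat_lit 36119186), (nat_lit 28302180), (nat_lit 21119649), (nat_lit 14105872)] (nat_lit 6424542)) p15_3_2 (nat_lit 4) (nat_lit 7) (nat_lit 8) = true := by decide +kernel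
def p15_3_2_8 : pfC (piC [(nat_lit 36119186), (nat_lit 28302180), (nat_lit 21119649), (nat_lit 14105872)] (nat_lit 6424542)) p15_3_2 (nat_lit 4) (nat_lit 8) (nat_lit 9) = true := by decide +kernel
def p15_3_2_9 : pfC (piC [(nat_lit 36119186), (nat_lit 28302180), (nat_lit 21119649), (nat_lit 14105872)] (nat_lit 6424542)) p15_3_2 (nat_lit 4) (nat_lit 9) (nat_lit 10) = true := by decide +kernel
def p15_3_2_10 : pfC (piC [(nat_lit 36119186), (nat_lit 28302180), (nat_lit 21119649), (nat_lit 14105872)] (nat_lit 6424542)) p15_3_2 (nat_lit 4) (nat_lit 10) (nat_lit 11) = true := by decide +kernel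
def p15_3_2_11 : pfC (piC [(nat_lit 36119186), (nat_lit 28302180), (nat_lit 21119649), (nat_lit 14105872)] (nat_lit 6424542)) p15_3_2 (nat_lit 4) (nat_lit 11) (nat_lit 12) = true := by decide +kernel
def p15_3_2_12 : pfC (piC [(nat_lit 36119186), (nat_lit 28302180), (nat_lit 21119649), (nat_lit 14105872)] (nat_lit 6424542)) p15_3_2 (nat_lit 4) (nat_lit 12) (nat_lit 13) = true := by decide +kernel
def p15_3_2_13 : pfC (piC [(nat_lit 36119186), (nat_lit 28302180), (nat_lit 21119649), (nat_lit 14105872)] (nat_lit 6424542)) p15_3_2 (nat_lit 4) (nat_lit 13) (nat_lit 14) = true := by decide +kernel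
def p15_3_2_14 : pfC (piC [(nat_lit 36119186), (nat_lit 28302180), (nat_lit 21119649), (nat_lit 14105872)] (nat_lit 6424542)) p15_3_2 (nat_lit 4) (nat_lit 14) (nat_lit 15) = true := by decide +kernel
def p15_3_2_15 : pfC (piC [(nat_lit 36119186), (nat_lit 28302180), (nat_lit 21119649), (nat_lit 14105872)] (nat_lit 6424542)) p15_3_2 (nat_lit 4) (nat_lit 15) (nat_lit 16) = true := by decide +kernel
theorem p15_3_2_T : PfS (PiF n15_3.reverse (nat_lit 6424542)) p15_3_2 (nat_lit 4) [] 0 :=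
  pftab_of (los := [(nat_lit 36119186), (nat_lit 28302180), (nat_lit 21119649), (nat_lit 14105872)]) (by decide +kernel) (hi := (nat_lit 16)) (PfP.trans (PfP.trans (PfP.trans (PfP.trans (PfP.trans (PfP.trans (PfP.trans (PfP.trans (PfP.trans (PfP.trans (PfP.trans (PfP.trans (PfP.trans (PfP.trans (PfP.trans (pfC_sound p15_3_2_0) (pfC_sound p15_3_2_1)) (pfC_sound p15_3_2_2)) (pfC_sound p15_3_2_3)) (pfC_sound p15_3_2_4)) (pfC_sound p15_3_2_5)) (pfC_sound p15_3_2_6)) (pfC_sound p15_3_2_7)) (pfC_sound p15_3_2_8)) (pfC_sound p15_3_2_9)) (pfC_sound p15_3_2_10)) (pfC_sound p15_3_2_11)) (pfC_sound p15_3_2_12)) (pfC_sound p15_3_2_13)) (pfC_sound p15_3_2_14)) (pfC_sound p15_3_2_15)) (by decide +kernel)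

def z15_3_2 : zOK yB15_3 (nat_lit 2) (nat_lit 600) (nat_lit 750) (nat_lit 6424542) (nat_lit 4588660) = true := by decide +kernel
def g15_3_2 : gOK yB15_3.x P15_3 (nat_lit 1427) (q15_3 :: r15_3) (nat_lit 2) (nat_lit 600) (nat_lit 3) (nat_lit 750) (nat_lit 12712500) (nat_lit 12712500) (nat_lit 12712500) (nat_lit 12712500) [(nat_lit 800), (nat_lit 1600)] = true := by decide +kernel
def v15_3_2 : ivC P15_3 s15_3 w15_3 n15_3 (nat_lit 4) (nat_lit 5000) (nat_lit 2) (nat_lit 600) f120_1_600 f128_1_600 (nat_lit 3) (nat_lit 750) f120_1_750 f128_1_750 (nat_lit 6424542) (nat_lit 4588660) p15_3_2 = true := by decide +kernel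
def p15_3_3 : PF := (PF.cons (PF.cons (PF.cons (PF.cons (PF.leaf (nat_lit 3208706) (nat_lit 22888689) (nat_lit 44220123) (nat_lit 22888689) [(nat_lit 0), (nat_lit 0), (nat_lit 0), (nat_lit 0)]) (PF.cons (PF.leaf (nat_lit 3360153) (nat_lit 269076) (nat_lit 44014646) (nat_lit 22825089) [(nat_lit 269076), (nat_lit 0), (nat_lit 0), (nat_lit 0)]) (PF.cons (PF.leaf (nat_lit 3539365) (nat_lit 292067) (nat_lit 43774606) (nat_lit 22750072) [(nat_lit 292067), (nat_lit 0), (nat_lit 0), (nat_lit 0)]) (PF.cons (PF.leaf (nat_lit 3740075) (nat_lit 312290) (nat_lit 43506541) (nat_lit 22665399) [(nat_lit 312290), (nat_lit 0), (nat_lit 0), (nat_lit 0)]) (PF.cons (PF.leaf (nat_lit 3958993) (nat_lit 330358) (nat_lit 43215090) (nat_lit 22572286) [(nat_lit 330358), (nat_lit 0), (nat_lit 0), (nat_lit 0)]) (PF.cons (PF.leaf (nat_lit 4193665) (nat_lit 346666) (nat_lit 42903829) (nat_lit 22471649) [(nat_lit 346666), (nat_lit 0), (nat_lit 0), (nat_lit 0)]) (PF.cons PF.nil PF.nil)))))))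 (PF.cons (PF.cons (PF.leaf (nat_lit 3585403) (nat_lit 826276) (nat_lit 43591230) (nat_lit 22691305) [(nat_lit 0), (nat_lit 826276), (nat_lit 0), (nat_lit 0)]) (PF.cons (PF.leaf (nat_lit 3775625) (nat_lit 312938) (nat_lit 43332228) (nat_lit
 22608862) [(nat_lit 312938), (nat_lit 854783), (nat_lit 0), (nat_lit 0)]) (PF.cons (PF.leaf (nat_lit 3986758) (nat_lit 330966) (nat_lit 43047748) (nat_lit 22517324) [(nat_lit 330966), (nat_lit 881807), (nat_lit 0), (nat_lit 0)]) (PF.cons (PF.leaf (nat_lit 4214783) (nat_lit 347199) (nat_lit 42742188) (nat_lit 22417870) [(nat_lit 347199), (nat_lit 907155), (nat_lit 0), (nat_lit 0)]) (PF.cons PF.nil PF.nil))))) (PF.cons (PF.cons (PF.leaf (nat_lit 4019768) (nat_lit 888176) (nat_lit 42872904) (nat_lit 22459555) [(nat_lit 0), (nat_lit 888176), (nat_lit 0), (nat_lit 0)]) (PF.cons (PF.leaf (nat_lit 4239304) (nat_lit 347440) (nat_lit 42574865) (nat_lit 22361887) [(nat_lit 347440), (nat_lit 912309), (nat_lit 0), (nat_lit 0)]) (PF.cons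 (PF.leaf (nat_lit 4475288) (nat_lit 362161) (nat_lit 42257698) (nat_lit 22256754) [(nat_lit 362161), (nat_lit 935019), (nat_lit 0), (nat_lit 0)]) (PF.cons PF.nil PF.nil)))) (PF.cons (PF.cons (PF.leaf (nat_lit 4497309) (nat_lit 939278) (nat_lit 42091011) (nat_lit 22199965) [(nat_lit 0), (nat_lit 939278), (nat_lit 0), (nat_lit 0)]) (PF.cons PF.nil PF.nil)) (PF.cons PF.nil PF.nil))))) (PF.cons (PF.cons (PF.cons (PF.leaf (nat_lit 4040845) (nat_lit 2374611)
 (nat_lit 42428362) (nat_lit 22305839) [(nat_lit 0), (nat_lit 0), (nat_lit 2374611), (nat_lit 0)]) (PF.cons (PF.leaf (nat_lit 4241201) (nat_lit 336460) (nat_lit 42156635) (nat_lit 22215392) [(nat_lit 336460), (nat_lit 0), (nat_lit 2400324), (nat_lit 0)]) (PF.cons (PF.leaf (nat_lit 4461275) (nat_lit 352866) (nat_lit 41861273) (nat_lit 22116069) [(nat_lit 352866), (nat_lit 0), (nat_lit 2425738), (nat_lit 0)]) (PF.cons (PF.leaf (nat_lit 4696949) (nat_lit 367486) (nat_lit 41546867) (nat_lit 22009201) [(nat_lit 367486),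 (nat_lit 0), (nat_lit 2450283), (nat_lit 0)]) (PF.cons PF.nil PF.nil))))) (PF.cons (PF.cons (PF.leaf (nat_lit 4490091) (nat_lit 932281) (nat_lit 41686319) (nat_lit 22055729) [(nat_lit 0), (nat_lit 932281), (nat_lit 2434482), (nat_lit 0)]) (PF.cons (PF.leaf (nat_lit 4717144) (nat_lit 366958) (nat_lit 41380431) (nat_lit 21951123) [(nat_lit 366958), (nat_lit 952840), (nat_lit 2457458), (nat_lit 0)]) (PF.cons PF.nil (PF.cons PF.nil PF.nil)))) (PF.cons (PF.cons (PF.leaf (nat_lit 4977172) (nat_lit 974983) (nat_lit 40892451) (nat_lit 21780951) [(nat_lit 0), (nat_lit 974983), (nat_lit 2485443), (nat_lit 0)]) (PF.cons PF.nil PF.nil)) PF.nil))) (PF.cons (PF.cons (PF.cons (PF.leaf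
 (nat_lit 4958039) (nat_lit 2483031) (nat_lit 40505147) (nat_lit 21637601) [(nat_lit 0), (nat_lit 0), (nat_lit 2483031), (nat_lit 0)]) (PF.cons (PF.leaf (nat_lit 5190574) (nat_lit 382829) (nat_lit 40195688) (nat_lit 21527619) [(nat_lit 382829), (nat_lit 0), (nat_lit 2501337), (nat_lit 0)]) PF.nil)) (PF.cons PF.nil PF.nil)) (PF.cons PF.nil (PF.cons PF.nil PF.nil))))) (PF.cons (PF.cons (PF.cons (PF.cons (PF.leaf (nat_lit 4650999) (nat_lit 5392050) (nat_lit 40212158) (nat_lit 21504604) [(nat_lit 0), (nat_lit 0), (nat_lit 0), (nat_lit 5392050)]) (PF.cons (PF.leaf (nat_lit 4853881) (nat_lit 349327) (nat_lit 39947761) (nat_lit 21410374) [(nat_lit 349327), (nat_lit 0), (nat_lit 0), (nat_lit 5401350)]) (PF.cons (PF.leaf (nat_lit 5075543) (nat_lit 364857) (nat_lit 39661649) (nat_lit 21307518) [(nat_lit 364857), (nat_lit 0), (nat_lit 0), (nat_lit 5409930)]) (PF.cons (PF.leaf (nat_lit 5311819) (nat_lit 378492) (nat_lit 39358384) (nat_lit 21197501) [(nat_lit 378492), (nat_lit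 0), (nat_lit 0), (nat_lit 5417448)]) (PF.cons PF.nil PF.nil))))) (PF.cons (PF.cons (PF.leaf (nat_lit 5100115) (nat_lit 956429) (nat_lit 39494916) (nat_lit 21246188) [(nat_lit 0), (nat_lit 956429), (nat_lit 0), (nat_lit
 5411279)]) (PF.cons (PF.leaf (nat_lit 5327652) (nat_lit 377347) (nat_lit 39200390) (nat_lit 21138804) [(nat_lit 377347), (nat_lit 974422), (nat_lit 0), (nat_lit 5417848)]) (PF.cons PF.nil (PF.cons PF.nil PF.nil)))) (PF.cons (PF.cons (PF.leaf (nat_lit 5582767) (nat_lit 992759) (nat_lit 38734603) (nat_lit 20966067) [(nat_lit 0), (nat_lit 992759), (nat_lit 0), (nat_lit 5422622)]) (PF.cons PF.nil PF.nil)) PF.nil))) (PF.cons (PF.cons (PF.cons (PF.leaf (nat_lit 5552303) (nat_lit 2497662) (nat_lit 38376021) (nat_lit 20825733) [(nat_lit 0), (nat_lit 0), (nat_lit 2497662), (nat_lit 5409395)]) (PF.cons (PF.leaf (nat_lit 5783735) (nat_lit 390100) (nat_lit 38080876) (nat_lit 20714627) [(nat_lit 390100), (nat_lit 0), (nat_lit 2511465), (nat_lit 5411743)])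 PF.nil)) (PF.cons PF.nil PF.nil)) (PF.cons PF.nil PF.nil))) (PF.cons (PF.cons (PF.cons (PF.cons (PF.leaf (nat_lit 6113365) (nat_lit 5339544) (nat_lit 36396434) (nat_lit 20033290) [(nat_lit 0), (nat_lit 0), (nat_lit 0), (nat_lit 5339544)]) (PF.cons PF.nil PF.nil)) (PF.cons PF.nil PF.nil)) (PF.cons PF.nil PF.nil)) (PF.cons PF.nil (PF.cons PF.nil (PF.cons PF.nil PF.nil))))))

def p15_3_3_0 : pfC (piC [(nat_lit 36119186), (nat_lit 28302180), (nat_lit 21119649), (nat_lit 14105872)] (nat_lit 4588660)) p15_3_3 (nat_lit 4) (nat_lit 0) (nat_lit 1) = true := by decide +kernel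
def p15_3_3_1 : pfC (piC [(nat_lit 36119186), (nat_lit 28302180), (nat_lit 21119649), (nat_lit 14105872)] (nat_lit 4588660)) p15_3_3 (nat_lit 4) (nat_lit 1) (nat_lit 2) = true := by decide +kernel
def p15_3_3_2 : pfC (piC [(nat_lit 36119186), (nat_lit 28302180), (nat_lit 21119649), (nat_lit 14105872)] (nat_lit 4588660)) p15_3_3 (nat_lit 4) (nat_lit 2) (nat_lit 3) = true := by decide +kernel
def p15_3_3_3 : pfC (piC [(nat_lit 36119186), (nat_lit 28302180), (nat_lit 21119649), (nat_lit 14105872)] (nat_lit 4588660)) p15_3_3 (nat_lit 4) (nat_lit 3) (nat_lit 4) = true := by decide +kernel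
def p15_3_3_4 : pfC (piC [(nat_lit 36119186), (nat_lit 28302180), (nat_lit 21119649), (nat_lit 14105872)] (nat_lit 4588660)) p15_3_3 (nat_lit 4) (nat_lit 4) (nat_lit 5) = true := by decide +kernel
def p15_3_3_5 : pfC (piC [(nat_lit 36119186), (nat_lit 28302180), (nat_lit 21119649), (nat_lit 14105872)] (nat_lit 4588660)) p15_3_3 (nat_lit 4) (nat_lit 5) (nat_lit 6) = true := by decide +kernel
def p15_3_3_6 : pfC (piC [(nat_lit 36119186), (nat_lit 28302180), (nat_lit 21119649), (nat_lit 14105872)] (nat_lit 4588660)) p15_3_3 (nat_lit 4) (nat_lit 6) (nat_lit 7) = true := by decide +kernel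
def p15_3_3_7 : pfC (piC [(nat_lit 36119186), (nat_lit 28302180), (nat_lit 21119649), (nat_lit 14105872)] (nat_lit 4588660)) p15_3_3 (nat_lit 4) (nat_lit 7) (nat_lit 8) = true := by decide +kernel
def p15_3_3_8 : pfC (piC [(nat_lit 36119186), (nat_lit 28302180), (nat_lit 21119649), (nat_lit 14105872)] (nat_lit 4588660)) p15_3_3 (nat_lit 4) (nat_lit 8) (nat_lit 9) = true := by decide +kernel
def p15_3_3_9 : pfC (piC [(nat_lit 36119186), (nat_lit 28302180), (nat_lit 21119649), (nat_lit 14105872)] (nat_lit 4588660)) p15_3_3 (nat_lit 4) (nat_lit 9) (nat_lit 10) = true := by decide +kernel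
def p15_3_3_10 : pfC (piC [(nat_lit 36119186), (nat_lit 28302180), (nat_lit 21119649), (nat_lit 14105872)] (nat_lit 4588660)) p15_3_3 (nat_lit 4) (nat_lit 10) (nat_lit 11) = true := by decide +kernel
def p15_3_3_11 : pfC (piC [(nat_lit 36119186), (nat_lit 28302180), (nat_lit 21119649), (nat_lit 14105872)] (nat_lit 4588660)) p15_3_3 (nat_lit 4) (nat_lit 11) (nat_lit 12) = true := by decide +kernel
def p15_3_3_12 : pfC (piC [(nat_lit 36119186), (nat_lit 28302180), (nat_lit 21119649), (nat_lit 14105872)] (nat_lit 4588660)) p15_3_3 (nat_lit 4) (nat_lit 12) (nat_lit 13) = true := by decide +kernel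
def p15_3_3_13 : pfC (piC [(nat_lit 36119186), (nat_lit 28302180), (nat_lit 21119649), (nat_lit 14105872)] (nat_lit 4588660)) p15_3_3 (nat_lit 4) (nat_lit 13) (nat_lit 14) = true := by decide +kernel
def p15_3_3_14 : pfC (piC [(nat_lit 36119186), (nat_lit 28302180), (nat_lit 21119649), (nat_lit 14105872)] (nat_lit 4588660)) p15_3_3 (nat_lit 4) (nat_lit 14) (nat_lit 15) = true := by decide +kernel
def p15_3_3_15 : pfC (piC [(nat_lit 36119186), (nat_lit 28302180), (nat_lit 21119649), (nat_lit 14105872)] (nat_lit 4588660)) p15_3_3 (nat_lit 4) (nat_lit 15) (nat_lit 16) = true := by decide +kernel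
def p15_3_3_16 : pfC (piC [(nat_lit 36119186), (nat_lit 28302180), (nat_lit 21119649), (nat_lit 14105872)] (nat_lit 4588660)) p15_3_3 (nat_lit 4) (nat_lit 16) (nat_lit 17) = true := by decide +kernel
def p15_3_3_17 : pfC (piC [(nat_lit 36119186), (nat_lit 28302180), (nat_lit 21119649), (nat_lit 14105872)] (nat_lit 4588660)) p15_3_3 (nat_lit 4) (nat_lit 17) (nat_lit 18) = true := by decide +kernel
def p15_3_3_18 : pfC (piC [(nat_lit 36119186), (nat_lit 28302180), (nat_lit 21119649), (nat_lit 14105872)] (nat_lit 4588660)) p15_3_3 (nat_lit 4) (nat_lit 18) (nat_lit 19) = true := by decide +kernel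
def p15_3_3_19 : pfC (piC [(nat_lit 36119186), (nat_lit 28302180), (nat_lit 21119649), (nat_lit 14105872)] (nat_lit 4588660)) p15_3_3 (nat_lit 4) (nat_lit 19) (nat_lit 20) = true := by decide +kernel
def p15_3_3_20 : pfC (piC [(nat_lit 36119186), (nat_lit 28302180), (nat_lit 21119649), (nat_lit 14105872)] (nat_lit 4588660)) p15_3_3 (nat_lit 4) (nat_lit 20) (nat_lit 21) = true := by decide +kernel
def p15_3_3_21 : pfC (piC [(nat_lit 36119186), (nat_lit 28302180), (nat_lit 21119649), (nat_lit 14105872)] (nat_lit 4588660)) p15_3_3 (nat_lit 4) (nat_lit 21) (nat_lit 22) = true := by decide +kernel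
def p15_3_3_22 : pfC (piC [(nat_lit 36119186), (nat_lit 28302180), (nat_lit 21119649), (nat_lit 14105872)] (nat_lit 4588660)) p15_3_3 (nat_lit 4) (nat_lit 22) (nat_lit 23) = true := by decide +kernel
def p15_3_3_23 : pfC (piC [(nat_lit 36119186), (nat_lit 28302180), (nat_lit 21119649), (nat_lit 14105872)] (nat_lit 4588660)) p15_3_3 (nat_lit 4) (nat_lit 23) (nat_lit 24) = true := by decide +kernel
def p15_3_3_24 : pfC (piC [(nat_lit 36119186), (nat_lit 28302180), (nat_lit 21119649), (nat_lit 14105872)] (nat_lit 4588660)) p15_3_3 (nat_lit 4) (nat_lit 24) (nat_lit 25) = true := by decide +kernel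
def p15_3_3_25 : pfC (piC [(nat_lit 36119186), (nat_lit 28302180), (nat_lit 21119649), (nat_lit 14105872)] (nat_lit 4588660)) p15_3_3 (nat_lit 4) (nat_lit 25) (nat_lit 26) = true := by decide +kernel
def p15_3_3_26 : pfC (piC [(nat_lit 36119186), (nat_lit 28302180), (nat_lit 21119649), (nat_lit 14105872)] (nat_lit 4588660)) p15_3_3 (nat_lit 4) (nat_lit 26) (nat_lit 27) = true := by decide +kernel
def p15_3_3_27 : pfC (piC [(nat_lit 36119186), (nat_lit 28302180), (nat_lit 21119649), (nat_lit 14105872)] (nat_lit 4588660)) p15_3_3 (nat_lit 4) (nat_lit 27) (nat_lit 28) = true := by decide +kernel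
def p15_3_3_28 : pfC (piC [(nat_lit 36119186), (nat_lit 28302180), (nat_lit 21119649), (nat_lit 14105872)] (nat_lit 4588660)) p15_3_3 (nat_lit 4) (nat_lit 28) (nat_lit 29) = true := by decide +kernel
def p15_3_3_29 : pfC (piC [(nat_lit 36119186), (nat_lit 28302180), (nat_lit 21119649), (nat_lit 14105872)] (nat_lit 4588660)) p15_3_3 (nat_lit 4) (nat_lit 29) (nat_lit 30) = true := by decide +kernel
def p15_3_3_30 : pfC (piC [(nat_lit 36119186), (nat_lit 28302180), (nat_lit 21119649), (nat_lit 14105872)] (nat_lit 4588660)) p15_3_3 (nat_lit 4) (nat_lit 30) (nat_lit 31) = true := by decide +kernel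
def p15_3_3_31 : pfC (piC [(nat_lit 36119186), (nat_lit 28302180), (nat_lit 21119649), (nat_lit 14105872)] (nat_lit 4588660)) p15_3_3 (nat_lit 4) (nat_lit 31) (nat_lit 32) = true := by decide +kernel
def p15_3_3_32 : pfC (piC [(nat_lit 36119186), (nat_lit 28302180), (nat_lit 21119649), (nat_lit 14105872)] (nat_lit 4588660)) p15_3_3 (nat_lit 4) (nat_lit 32) (nat_lit 33) = true := by decide +kernel
theorem p15_3_3_T : PfS (PiF n15_3.reverse (nat_lit 4588660)) p15_3_3 (nat_lit 4) [] 0 :=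
  pftab_of (los := [(nat_lit 36119186), (nat_lit 28302180), (nat_lit 21119649), (nat_lit 14105872)]) (by decide +kernel) (hi := (nat_lit 33)) (PfP.trans (PfP.trans (PfP.trans (PfP.trans (PfP.trans (PfP.trans (PfP.trans (PfP.trans (PfP.trans (PfP.trans (PfP.trans (PfP.trans (PfP.trans (PfP.trans (PfP.trans (PfP.trans (PfP.trans (PfP.trans (PfP.trans (PfP.trans (PfP.trans (PfP.trans (PfP.trans (PfP.trans (PfP.trans (PfP.trans (PfP.trans (PfP.trans (PfP.trans (PfP.trans (PfP.trans (PfP.trans (pfC_sound p15_3_3_0) (pfC_sound p15_3_3_1)) (pfC_sound p15_3_3_2)) (pfC_sound p15_3_3_3)) (pfC_sound p15_3_3_4)) (pfC_sound p15_3_3_5)) (pfC_sound p15_3_3_6)) (pfC_sound p15_3_3_7)) (pfC_sound p15_3_3_8)) (pfC_sound p15_3_3_9)) (pfC_sound p15_3_3_10)) (pfC_sound p15_3_3_11)) (pfC_sound p15_3_3_12)) (pfC_sound p15_3_3_13)) (pfC_sound p15_3_3_14)) (pfC_sound p15_3_3_15)) (pfC_sound p15_3_3_16)) (pfC_sound p15_3_3_17)) (pfC_sound p15_3_3_18)) (pfC_sound p15_3_3_19)) (pfC_sound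 p15_3_3_20)) (pfC_sound p15_3_3_21)) (pfC_sound p15_3_3_22)) (pfC_sound p15_3_3_23)) (pfC_sound p15_3_3_24)) (pfC_sound p15_3_3_25)) (pfC_sound p15_3_3_26)) (pfC_sound p15_3_3_27)) (pfC_sound p15_3_3_28)) (pfC_sound p15_3_3_29)) (pfC_sound p15_3_3_30)) (pfC_sound p15_3_3_31)) (pfC_sound p15_3_3_32)) (by decide +kernel)

def z15_3_3 : zOK yB15_3 (nat_lit 3) (nat_lit 750) (nat_lit 960) (nat_lit 4588660) (nat_lit 1996713) = true := by decide +kernel
def g15_3_3 : gOK yB15_3.x P15_3 (nat_lit 1427) (q15_3 :: r15_3) (nat_lit 3) (nat_lit 750) (nat_lit 4) (nat_lit 960) (nat_lit 12712500) (nat_lit 12712500) (nat_lit 12712500) (nat_lit 12712500) [(nat_lit 800)] = true := by decide +kernel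
def v15_3_3 : ivC P15_3 s15_3 w15_3 n15_3 (nat_lit 4) (nat_lit 4850) (nat_lit 3) (nat_lit 750) f120_1_750 f128_1_750 (nat_lit 4) (nat_lit 960) f120_1_960 f128_1_960 (nat_lit 4588660) (nat_lit 1996713) p15_3_3 = true := by decide +kernel
end CB
end Pool.Agent.Lib.MP_6947cd_al
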