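import Pool.Agent.Lib.MP_6947cd_al.L.BoxDataB
import Pool.Agent.Lib.MP_6947cd_al.L.TeD2
import Pool.Agent.Lib.MP_6947cd_al.L.TeD3

/-!
Problem MP_6947cd_al (Chollet).  CASE B, rows `j`: boxes (generated).
-/

set_option autoImplicit false
set_option linter.defProp false
set_option maxRecDepth 20000

namespace Pool.Agent.Lib.MP_6947cd_al
namespace CB

open Ent Ent.Pk Fr Fr.WT CA

/-! box `yB15_4` -/

def P15_4 : BQ := ⟨(nat_lit 8), (nat_lit 4), (nat_lit 4), (nat_lit 0), (nat_lit 8), (nat_lit 620), (nat_lit 640), (nat_lit 120), [(nat_lit 200), (nat_lit 300), (nat_lit 450), (nat_lit 800)], (nat_lit 43920000), (nat_lit 16000000), (nat_lit 16000000000)⟩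
def q15_4 : PC := ⟨(nat_lit 1000), [(nat_lit 120000), (nat_lit 200000), (nat_lit 300000), (nat_lit 450000), (nat_lit 800000)], (nat_lit 340282367000166625996085689103316680705000000), (nat_lit 15956080000000), (nat_lit 15956080000000), (nat_lit 10000000)⟩
def r15_4 : List PC := [⟨(nat_lit 1297), [(nat_lit 120469), (nat_lit 200854), (nat_lit 301688), (nat_lit 452033), (nat_lit 799392)], (nat_lit 342215170844798006268193973516718442101558912), (nat_lit 16291729717920), (nat_lit 16303391220960), (nat_lit 10056267)⟩]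
def s15_4 : List PB := [⟨(nat_lit 25940), (nat_lit 1927504000000), [(nat_lit 200854), (nat_lit 301688), (nat_lit 452033), (nat_lit 799392)], (nat_lit 342215170844798006268193973516718442101558912), (nat_lit 1142191636560544), (nat_lit 1142203298063584), (nat_lit 47520)⟩]
def n15_4 : List KN := [⟨(nat_lit 800), (nat_lit 450), (nat_lit 14064972), (nat_lit 9441761)⟩, ⟨(nat_lit 450), (nat_lit 300), (nat_lit 20874739), (nat_lit 14064972)⟩, ⟨(nat_lit 300), (nat_lit 200), (nat_lit 28473124), (nat_lit 20874739)⟩, ⟨(nat_lit 200), (nat_lit 120), (nat_lit 39633164), (nat_lit 28473124)⟩]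
def w15_4 : List ℕ := [(nat_lit 47520)]
def par15_4 : parC yB15_4 P15_4 s15_4 r15_4 q15_4 n15_4 w15_4 = true := by decide +kernel

def p15_4_0 : PF := (PF.cons (PF.cons (PF.cons (PF.cons (PF.leaf (nat_lit 389675) (nat_lit 1007776) (nat_lit 66101036) (nat_lit 1007776) [(nat_lit 0), (nat_lit 0), (nat_lit 0), (nat_lit 0)]) (PF.cons (PF.leaf (nat_lit 486050) (nat_lit 145694) (nat_lit 65914423) (nat_lit 1048694) [(nat_lit 145694), (nat_lit 0), (nat_lit 0), (nat_lit 0)]) (PF.cons (PF.leaf (nat_lit 609465) (nat_lit 162830) (nat_lit 65689466) (nat_lit 1093686) [(nat_lit 162830), (nat_lit 0), (nat_lit 0), (nat_lit 0)]) (PF.cons (PF.leaf (nat_lit 752431) (nat_lit 179280) (nat_lit 65430011) (nat_lit 1140959) [(nat_lit 179280), (nat_lit 0), (nat_lit 0), (nat_lit 0)]) (PF.cons PF.nil PF.nil))))) (PF.cons (PF.cons (PF.leaf (nat_lit 736729) (nat_lit 654957) (nat_lit 65301040) (nat_lit 1152814) [(nat_lit 0), (nat_lit 654957), (nat_lit 0), (nat_lit 0)]) (PF.cons (PF.leaf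 (nat_lit 876923) (nat_lit 190010) (nat_lit 65035014) (nat_lit 1196049) [(nat_lit 190010), (nat_lit 687738), (nat_lit 0), (nat_lit 0)]) (PF.cons (PF.leaf (nat_lit 1039121) (nat_lit 205570) (nat_lit 64735492) (nat_lit 1240922) [(nat_lit 205570), (nat_lit 721258), (nat_lit 0), (nat_lit 0)]) (PF.cons PF.nil PF.nil)))) (PF.cons (PF.cons (PF.leaf (nat_lit 1171152) (nat_lit 754740)
 (nat_lit 64308764) (nat_lit 1290568) [(nat_lit 0), (nat_lit 754740), (nat_lit 0), (nat_lit 0)]) (PF.cons (PF.leaf (nat_lit 1349102) (nat_lit 229956) (nat_lit 63973469) (nat_lit 1332958) [(nat_lit 229956), (nat_lit 786214), (nat_lit 0), (nat_lit 0)]) PF.nil)) (PF.cons PF.nil (PF.cons PF.nil PF.nil))))) (PF.cons (PF.cons (PF.cons (PF.leaf (nat_lit 1272150) (nat_lit 1330619) (nat_lit 63538759) (nat_lit 1330619) [(nat_lit 0), (nat_lit 0), (nat_lit 2239434), (nat_lit 0)]) (PF.cons (PF.leaf (nat_lit 1433993) (nat_lit 226820) (nat_lit 63228355) (nat_lit 1368020) [(nat_lit 226820), (nat_lit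 0), (nat_lit 2285617), (nat_lit 0)]) (PF.cons (PF.leaf (nat_lit 1617039) (nat_lit 241986) (nat_lit 62884458) (nat_lit 1406619) [(nat_lit 241986), (nat_lit 0), (nat_lit 2333761), (nat_lit 0)]) (PF.cons PF.nil PF.nil)))) (PF.cons (PF.cons (PF.leaf (nat_lit 1753784) (nat_lit 859160) (nat_lit 62414378) (nat_lit 1447168) [(nat_lit 0), (nat_lit 859160), (nat_lit 2388105), (nat_lit 0)]) (PF.cons (PF.leaf (nat_lit 1950587) (nat_lit 263894) (nat_lit 62040736) (nat_lit 1483493) [(nat_lit 263894), (nat_lit 886957), (nat_lit 2433731), (nat_lit 0)]) PF.nil)) (PF.cons PF.nil PF.nil))) (PF.cons (PF.cons (PF.cons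
 (PF.leaf (nat_lit 2355743) (nat_lit 1574045) (nat_lit 60412119) (nat_lit 1574045) [(nat_lit 0), (nat_lit 0), (nat_lit 2561324), (nat_lit 0)]) (PF.cons PF.nil PF.nil)) (PF.cons PF.nil PF.nil)) (PF.cons PF.nil (PF.cons PF.nil PF.nil))))) (PF.cons (PF.cons (PF.cons (PF.cons (PF.leaf (nat_lit 2132347) (nat_lit 1505484) (nat_lit 59543533) (nat_lit 1505484) [(nat_lit 0), (nat_lit 0), (nat_lit 0), (nat_lit 6059795)]) (PF.cons (PF.leaf (nat_lit 2308097) (nat_lit 260112) (nat_lit 59213970) (nat_lit 1536722) [(nat_lit 260112), (nat_lit 0), (nat_lit 0), (nat_lit 6098008)]) (PF.cons (PF.leaf (nat_lit 2504092) (nat_lit 275114) (nat_lit 58852342) (nat_lit 1568529) [(nat_lit 275114), (nat_lit 0), (nat_lit 0), (nat_lit 6137711)]) (PF.cons (PF.leaf (nat_lit 2716284) (nat_lit 288978) (nat_lit 58463682) (nat_lit 1600273) [(nat_lit 288978), (nat_lit 0), (nat_lit 0), (nat_lit 6177922)]) (PF.cons (PF.leaf (nat_lit 2942788) (nat_lit 301910) (nat_lit 58051714) (nat_lit 1631549)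 [(nat_lit 301910), (nat_lit 0), (nat_lit 0), (nat_lit 6217905)]) (PF.cons PF.nil (PF.cons PF.nil PF.nil))))))) (PF.cons (PF.cons (PF.leaf (nat_lit 2638427) (nat_lit 957771) (nat_lit 58368851) (nat_lit 1599339) [(nat_lit 0),
 (nat_lit 957771), (nat_lit 0), (nat_lit 6182850)]) (PF.cons (PF.leaf (nat_lit 2845825) (nat_lit 294684) (nat_lit 57983940) (nat_lit 1628703) [(nat_lit 294684), (nat_lit 981748), (nat_lit 0), (nat_lit 6219735)]) (PF.cons (PF.leaf (nat_lit 3069570) (nat_lit 307415) (nat_lit 57574331) (nat_lit 1657864) [(nat_lit 307415), (nat_lit 1005236), (nat_lit 0), (nat_lit 6256548)]) (PF.cons PF.nil (PF.cons PF.nil PF.nil))))) (PF.cons (PF.cons (PF.leaf (nat_lit 3199727) (nat_lit 1023011) (nat_lit 57086872) (nat_lit 1683056) [(nat_lit 0), (nat_lit 1023011), (nat_lit 0), (nat_lit 6292859)]) (PF.cons (PF.leaf (nat_lit 3432639) (nat_lit 324128) (nat_lit 56660106) (nat_lit 1709759) [(nat_lit 324128), (nat_lit 1044467), (nat_lit 0), (nat_lit 6325882)])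 (PF.cons PF.nil (PF.cons PF.nil PF.nil)))) (PF.cons (PF.cons (PF.leaf (nat_lit 3804268) (nat_lit 1079784) (nat_lit 55727260) (nat_lit 1756380) [(nat_lit 0), (nat_lit 1079784), (nat_lit 0), (nat_lit 6385818)]) (PF.cons PF.nil PF.nil)) (PF.cons PF.nil PF.nil))))) (PF.cons (PF.cons (PF.cons (PF.leaf (nat_lit 3228792) (nat_lit 1691122) (nat_lit 56374262) (nat_lit 1691122) [(nat_lit 0), (nat_lit 0), (nat_lit 2724397), (nat_lit 6319030)]) (PF.cons (PF.leaf
 (nat_lit 3446229) (nat_lit 317297) (nat_lit 55975827) (nat_lit 1715958) [(nat_lit 317297), (nat_lit 0), (nat_lit 2752695), (nat_lit 6347033)]) (PF.cons (PF.leaf (nat_lit 3679003) (nat_lit 329165) (nat_lit 55554652) (nat_lit 1740484) [(nat_lit 329165), (nat_lit 0), (nat_lit 2780812), (nat_lit 6374531)]) (PF.cons PF.nil PF.nil)))) (PF.cons (PF.cons (PF.leaf (nat_lit 3806109) (nat_lit 1078342) (nat_lit 55064375) (nat_lit 1760500) [(nat_lit 0), (nat_lit 1078342), (nat_lit 2805786), (nat_lit 6399807)]) (PF.cons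 (PF.leaf (nat_lit 4046347) (nat_lit 343788) (nat_lit 54630472) (nat_lit 1782802) [(nat_lit 343788), (nat_lit 1096836), (nat_lit 2831282), (nat_lit 6423629)]) PF.nil)) (PF.cons PF.nil PF.nil))) (PF.cons (PF.cons (PF.cons (PF.leaf (nat_lit 4405394) (nat_lit 1820679) (nat_lit 53061363) (nat_lit 1820679) [(nat_lit 0), (nat_lit 0), (nat_lit 2880063), (nat_lit 6466644)]) (PF.cons PF.nil PF.nil)) (PF.cons PF.nil PF.nil)) (PF.cons PF.nil (PF.cons PF.nil PF.nil))))) (PF.cons (PF.cons (PF.cons (PF.cons (PF.leaf (nat_lit 4041520) (nat_lit 1762154) (nat_lit 52555266) (nat_lit 1762154) [(nat_lit 0), (nat_lit 0), (nat_lit 0), (nat_lit 6395695)]) (PF.cons (PF.leaf (nat_lit 4260815) (nat_lit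
 333536) (nat_lit 52171624) (nat_lit 1782041) [(nat_lit 333536), (nat_lit 0), (nat_lit 0), (nat_lit 6410805)]) (PF.cons (PF.leaf (nat_lit 4494334) (nat_lit 344634) (nat_lit 51767845) (nat_lit 1801454) [(nat_lit 344634), (nat_lit 0), (nat_lit 0), (nat_lit 6425122)]) (PF.cons (PF.leaf (nat_lit 4739119) (nat_lit 354732) (nat_lit 51347730) (nat_lit 1820185) [(nat_lit 354732), (nat_lit 0), (nat_lit 0), (nat_lit 6438349)]) (PF.cons PF.nil PF.nil))))) (PF.cons (PF.cons (PF.leaf (nat_lit 4612974) (nat_lit 1117777) (nat_lit 51303563) (nat_lit 1815723) [(nat_lit 0), (nat_lit 1117777), (nat_lit 0), (nat_lit 6435873)]) (PF.cons (PF.leaf (nat_lit 4852325) (nat_lit 357194) (nat_lit 50891051) (nat_lit 1833090) [(nat_lit 357194), (nat_lit 1133188), (nat_lit 0), (nat_lit 6447144)]) (PF.cons PF.nil (PF.cons PF.nil PF.nil)))) (PF.cons (PF.cons (PF.leaf (nat_lit 5213977) (nat_lit 1156104) (nat_lit 50010797) (nat_lit 1860747) [(nat_lit 0), (nat_lit 1156104), (nat_lit 0),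 (nat_lit 6462529)]) (PF.cons PF.nil PF.nil)) PF.nil))) (PF.cons (PF.cons (PF.cons (PF.leaf (nat_lit 5180628) (nat_lit 1855877) (nat_lit 49431633) (nat_lit 1855877) [(nat_lit 0), (nat_lit 0), (nat_lit 2918424), (nat_lit 6451439)])
 (PF.cons (PF.leaf (nat_lit 5422659) (nat_lit 369322) (nat_lit 49023786) (nat_lit 1870054) [(nat_lit 369322), (nat_lit 0), (nat_lit 2932410), (nat_lit 6456619)]) PF.nil)) (PF.cons PF.nil PF.nil)) (PF.cons PF.nil PF.nil))) (PF.cons (PF.cons (PF.cons (PF.cons (PF.leaf (nat_lit 5890421) (nat_lit 1867096) (nat_lit 46117954) (nat_lit 1867096) [(nat_lit 0), (nat_lit 0), (nat_lit 0), (nat_lit 6374587)]) (PF.cons PF.nil PF.nil)) (PF.cons PF.nil PF.nil)) (PF.cons PF.nil PF.nil)) (PF.cons PF.nil (PF.cons PF.nil (PF.cons PF.nil (PF.cons PF.nil PF.nil))))))))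

def p15_4_0_0 : pfC (piC [(nat_lit 39633164), (nat_lit 28473124), (nat_lit 20874739), (nat_lit 14064972)] (nat_lit 31700858)) p15_4_0 (nat_lit 4) (nat_lit 0) (nat_lit 1) = true := by decide +kernel
def p15_4_0_1 : pfC (piC [(nat_lit 39633164), (nat_lit 28473124), (nat_lit 20874739), (nat_lit 14064972)] (nat_lit 31700858)) p15_4_0 (nat_lit 4) (nat_lit 1) (nat_lit 2) = true := by decide +kernel
def p15_4_0_2 : pfC (piC [(nat_lit 39633164), (nat_lit 28473124), (nat_lit 20874739), (nat_lit 14064972)] (nat_lit 31700858)) p15_4_0 (nat_lit 4) (nat_lit 2) (nat_lit 3) = true := by decide +kernel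
def p15_4_0_3 : pfC (piC [(nat_lit 39633164), (nat_lit 28473124), (nat_lit 20874739), (nat_lit 14064972)] (nat_lit 31700858)) p15_4_0 (nat_lit 4) (nat_lit 3) (nat_lit 4) = true := by decide +kernel
def p15_4_0_4 : pfC (piC [(nat_lit 39633164), (nat_lit 28473124), (nat_lit 20874739), (nat_lit 14064972)] (nat_lit 31700858)) p15_4_0 (nat_lit 4) (nat_lit 4) (nat_lit 5) = true := by decide +kernel
def p15_4_0_5 : pfC (piC [(nat_lit 39633164), (nat_lit 28473124), (nat_lit 20874739), (nat_lit 14064972)] (nat_lit 31700858)) p15_4_0 (nat_lit 4) (nat_lit 5) (nat_lit 6) = true := by decide +kernel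
def p15_4_0_6 : pfC (piC [(nat_lit 39633164), (nat_lit 28473124), (nat_lit 20874739), (nat_lit 14064972)] (nat_lit 31700858)) p15_4_0 (nat_lit 4) (nat_lit 6) (nat_lit 7) = true := by decide +kernel
def p15_4_0_7 : pfC (piC [(nat_lit 39633164), (nat_lit 28473124), (nat_lit 20874739), (nat_lit 14064972)] (nat_lit 31700858)) p15_4_0 (nat_lit 4) (nat_lit 7) (nat_lit 8) = true := by decide +kernel
def p15_4_0_8 : pfC (piC [(nat_lit 39633164), (nat_lit 28473124), (nat_lit 20874739), (nat_lit 14064972)] (nat_lit 31700858)) p15_4_0 (nat_lit 4) (nat_lit 8) (nat_lit 9) = true := by decide +kernel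
def p15_4_0_9 : pfC (piC [(nat_lit 39633164), (nat_lit 28473124), (nat_lit 20874739), (nat_lit 14064972)] (nat_lit 31700858)) p15_4_0 (nat_lit 4) (nat_lit 9) (nat_lit 10) = true := by decide +kernel
def p15_4_0_10 : pfC (piC [(nat_lit 39633164), (nat_lit 28473124), (nat_lit 20874739), (nat_lit 14064972)] (nat_lit 31700858)) p15_4_0 (nat_lit 4) (nat_lit 10) (nat_lit 11) = true := by decide +kernel
def p15_4_0_11 : pfC (piC [(nat_lit 39633164), (nat_lit 28473124), (nat_lit 20874739), (nat_lit 14064972)] (nat_lit 31700858)) p15_4_0 (nat_lit 4) (nat_lit 11) (nat_lit 12) = true := by decide +kernel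
def p15_4_0_12 : pfC (piC [(nat_lit 39633164), (nat_lit 28473124), (nat_lit 20874739), (nat_lit 14064972)] (nat_lit 31700858)) p15_4_0 (nat_lit 4) (nat_lit 12) (nat_lit 13) = true := by decide +kernel
def p15_4_0_13 : pfC (piC [(nat_lit 39633164), (nat_lit 28473124), (nat_lit 20874739), (nat_lit 14064972)] (nat_lit 31700858)) p15_4_0 (nat_lit 4) (nat_lit 13) (nat_lit 14) = true := by decide +kernel
def p15_4_0_14 : pfC (piC [(nat_lit 39633164), (nat_lit 28473124), (nat_lit 20874739), (nat_lit 14064972)] (nat_lit 31700858)) p15_4_0 (nat_lit 4) (nat_lit 14) (nat_lit 15) = true := by decide +kernel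
def p15_4_0_15 : pfC (piC [(nat_lit 39633164), (nat_lit 28473124), (nat_lit 20874739), (nat_lit 14064972)] (nat_lit 31700858)) p15_4_0 (nat_lit 4) (nat_lit 15) (nat_lit 16) = true := by decide +kernel
def p15_4_0_16 : pfC (piC [(nat_lit 39633164), (nat_lit 28473124), (nat_lit 20874739), (nat_lit 14064972)] (nat_lit 31700858)) p15_4_0 (nat_lit 4) (nat_lit 16) (nat_lit 17) = true := by decide +kernel
def p15_4_0_17 : pfC (piC [(nat_lit 39633164), (nat_lit 28473124), (nat_lit 20874739), (nat_lit 14064972)] (nat_lit 31700858)) p15_4_0 (nat_lit 4) (nat_lit 17) (nat_lit 18) = true := by decide +kernel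
def p15_4_0_18 : pfC (piC [(nat_lit 39633164), (nat_lit 28473124), (nat_lit 20874739), (nat_lit 14064972)] (nat_lit 31700858)) p15_4_0 (nat_lit 4) (nat_lit 18) (nat_lit 19) = true := by decide +kernel
def p15_4_0_19 : pfC (piC [(nat_lit 39633164), (nat_lit 28473124), (nat_lit 20874739), (nat_lit 14064972)] (nat_lit 31700858)) p15_4_0 (nat_lit 4) (nat_lit 19) (nat_lit 20) = true := by decide +kernel
def p15_4_0_20 : pfC (piC [(nat_lit 39633164), (nat_lit 28473124), (nat_lit 20874739), (nat_lit 14064972)] (nat_lit 31700858)) p15_4_0 (nat_lit 4) (nat_lit 20) (nat_lit 21) = true := by decide +kernel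
def p15_4_0_21 : pfC (piC [(nat_lit 39633164), (nat_lit 28473124), (nat_lit 20874739), (nat_lit 14064972)] (nat_lit 31700858)) p15_4_0 (nat_lit 4) (nat_lit 21) (nat_lit 22) = true := by decide +kernel
def p15_4_0_22 : pfC (piC [(nat_lit 39633164), (nat_lit 28473124), (nat_lit 20874739), (nat_lit 14064972)] (nat_lit 31700858)) p15_4_0 (nat_lit 4) (nat_lit 22) (nat_lit 23) = true := by decide +kernel
def p15_4_0_23 : pfC (piC [(nat_lit 39633164), (nat_lit 28473124), (nat_lit 20874739), (nat_lit 14064972)] (nat_lit 31700858)) p15_4_0 (nat_lit 4) (nat_lit 23) (nat_lit 24) = true := by decide +kernel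
def p15_4_0_24 : pfC (piC [(nat_lit 39633164), (nat_lit 28473124), (nat_lit 20874739), (nat_lit 14064972)] (nat_lit 31700858)) p15_4_0 (nat_lit 4) (nat_lit 24) (nat_lit 25) = true := by decide +kernel
def p15_4_0_25 : pfC (piC [(nat_lit 39633164), (nat_lit 28473124), (nat_lit 20874739), (nat_lit 14064972)] (nat_lit 31700858)) p15_4_0 (nat_lit 4) (nat_lit 25) (nat_lit 26) = true := by decide +kernel
def p15_4_0_26 : pfC (piC [(nat_lit 39633164), (nat_lit 28473124), (nat_lit 20874739), (nat_lit 14064972)] (nat_lit 31700858)) p15_4_0 (nat_lit 4) (nat_lit 26) (nat_lit 27) = true := by decide +kernel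
def p15_4_0_27 : pfC (piC [(nat_lit 39633164), (nat_lit 28473124), (nat_lit 20874739), (nat_lit 14064972)] (nat_lit 31700858)) p15_4_0 (nat_lit 4) (nat_lit 27) (nat_lit 28) = true := by decide +kernel
def p15_4_0_28 : pfC (piC [(nat_lit 39633164), (nat_lit 28473124), (nat_lit 20874739), (nat_lit 14064972)] (nat_lit 31700858)) p15_4_0 (nat_lit 4) (nat_lit 28) (nat_lit 29) = true := by decide +kernel
def p15_4_0_29 : pfC (piC [(nat_lit 39633164), (nat_lit 28473124), (nat_lit 20874739), (nat_lit 14064972)] (nat_lit 31700858)) p15_4_0 (nat_lit 4) (nat_lit 29) (nat_lit 30) = true := by decide +kernel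
def p15_4_0_30 : pfC (piC [(nat_lit 39633164), (nat_lit 28473124), (nat_lit 20874739), (nat_lit 14064972)] (nat_lit 31700858)) p15_4_0 (nat_lit 4) (nat_lit 30) (nat_lit 31) = true := by decide +kernel
def p15_4_0_31 : pfC (piC [(nat_lit 39633164), (nat_lit 28473124), (nat_lit 20874739), (nat_lit 14064972)] (nat_lit 31700858)) p15_4_0 (nat_lit 4) (nat_lit 31) (nat_lit 32) = true := by decide +kernel
def p15_4_0_32 : pfC (piC [(nat_lit 39633164), (nat_lit 28473124), (nat_lit 20874739), (nat_lit 14064972)] (nat_lit 31700858)) p15_4_0 (nat_lit 4) (nat_lit 32) (nat_lit 33) = true := by decide +kernel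
def p15_4_0_33 : pfC (piC [(nat_lit 39633164), (nat_lit 28473124), (nat_lit 20874739), (nat_lit 14064972)] (nat_lit 31700858)) p15_4_0 (nat_lit 4) (nat_lit 33) (nat_lit 34) = true := by decide +kernel
def p15_4_0_34 : pfC (piC [(nat_lit 39633164), (nat_lit 28473124), (nat_lit 20874739), (nat_lit 14064972)] (nat_lit 31700858)) p15_4_0 (nat_lit 4) (nat_lit 34) (nat_lit 35) = true := by decide +kernel
def p15_4_0_35 : pfC (piC [(nat_lit 39633164), (nat_lit 28473124), (nat_lit 20874739), (nat_lit 14064972)] (nat_lit 31700858)) p15_4_0 (nat_lit 4) (nat_lit 35) (nat_lit 36) = true := by decide +kernel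
def p15_4_0_36 : pfC (piC [(nat_lit 39633164), (nat_lit 28473124), (nat_lit 20874739), (nat_lit 14064972)] (nat_lit 31700858)) p15_4_0 (nat_lit 4) (nat_lit 36) (nat_lit 37) = true := by decide +kernel
def p15_4_0_37 : pfC (piC [(nat_lit 39633164), (nat_lit 28473124), (nat_lit 20874739), (nat_lit 14064972)] (nat_lit 31700858)) p15_4_0 (nat_lit 4) (nat_lit 37) (nat_lit 38) = true := by decide +kernel
def p15_4_0_38 : pfC (piC [(nat_lit 39633164), (nat_lit 28473124), (nat_lit 20874739), (nat_lit 14064972)] (nat_lit 31700858)) p15_4_0 (nat_lit 4) (nat_lit 38) (nat_lit 39) = true := by decide +kernel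
def p15_4_0_39 : pfC (piC [(nat_lit 39633164), (nat_lit 28473124), (nat_lit 20874739), (nat_lit 14064972)] (nat_lit 31700858)) p15_4_0 (nat_lit 4) (nat_lit 39) (nat_lit 40) = true := by decide +kernel
def p15_4_0_40 : pfC (piC [(nat_lit 39633164), (nat_lit 28473124), (nat_lit 20874739), (nat_lit 14064972)] (nat_lit 31700858)) p15_4_0 (nat_lit 4) (nat_lit 40) (nat_lit 41) = true := by decide +kernel
def p15_4_0_41 : pfC (piC [(nat_lit 39633164), (nat_lit 28473124), (nat_lit 20874739), (nat_lit 14064972)] (nat_lit 31700858)) p15_4_0 (nat_lit 4) (nat_lit 41) (nat_lit 42) = true := by decide +kernel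
theorem p15_4_0_T : PfS (PiF n15_4.reverse (nat_lit 31700858)) p15_4_0 (nat_lit 4) [] 0 :=
  pftab_of (los := [(nat_lit 39633164), (nat_lit 28473124), (nat_lit 20874739), (nat_lit 14064972)]) (by decide +kernel) (hi := (nat_lit 42)) (PfP.trans (PfP.trans (PfP.trans (PfP.trans (PfP.trans (PfP.trans (PfP.trans (PfP.trans (PfP.trans (PfP.trans (PfP.trans (PfP.trans (PfP.trans (PfP.trans (PfP.trans (PfP.trans (PfP.trans (PfP.trans (PfP.trans (PfP.trans (PfP.trans (PfP.trans (PfP.trans (PfP.trans (PfP.trans (PfP.trans (PfP.trans (PfP.trans (PfP.trans (PfP.trans (PfP.trans (PfP.trans (PfP.trans (PfP.trans (PfP.trans (PfP.trans (PfP.trans (PfP.trans (PfP.trans (PfP.trans (PfP.trans (pfC_sound p15_4_0_0) (pfC_sound p15_4_0_1)) (pfC_sound p15_4_0_2)) (pfC_sound p15_4_0_3)) (pfC_sound p15_4_0_4)) (pfC_sound p15_4_0_5)) (pfC_sound p15_4_0_6)) (pfC_sound p15_4_0_7)) (pfC_sound p15_4_0_8)) (pfC_sound p15_4_0_9)) (pfC_sound p15_4_0_10)) (pfC_sound p15_4_0_11)) (pfC_sound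 p15_4_0_12)) (pfC_sound p15_4_0_13)) (pfC_sound p15_4_0_14)) (pfC_sound p15_4_0_15)) (pfC_sound p15_4_0_16)) (pfC_sound p15_4_0_17)) (pfC_sound p15_4_0_18)) (pfC_sound p15_4_0_19)) (pfC_sound p15_4_0_20)) (pfC_sound p15_4_0_21)) (pfC_sound p15_4_0_22)) (pfC_sound p15_4_0_23)) (pfC_sound p15_4_0_24)) (pfC_sound p15_4_0_25)) (pfC_sound p15_4_0_26)) (pfC_sound p15_4_0_27)) (pfC_sound p15_4_0_28)) (pfC_sound p15_4_0_29)) (pfC_sound p15_4_0_30)) (pfC_sound
 p15_4_0_31)) (pfC_sound p15_4_0_32)) (pfC_sound p15_4_0_33)) (pfC_sound p15_4_0_34)) (pfC_sound p15_4_0_35)) (pfC_sound p15_4_0_36)) (pfC_sound p15_4_0_37)) (pfC_sound p15_4_0_38)) (pfC_sound p15_4_0_39)) (pfC_sound p15_4_0_40)) (pfC_sound p15_4_0_41)) (by decide +kernel)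

def z15_4_0 : zOK yB15_4 (nat_lit 0) (nat_lit 0) (nat_lit 400) (nat_lit 31700858) (nat_lit 10133526) = true := by decide +kernel
def g15_4_0 : gOK yB15_4.x P15_4 (nat_lit 1431) (q15_4 :: r15_4) (nat_lit 0) (nat_lit 0) (nat_lit 1) (nat_lit 400) (nat_lit 0) (nat_lit 11000000) (nat_lit 12712500) (nat_lit 12712500) [(nat_lit 800), (nat_lit 1400), (nat_lit 1530)] = true := by decide +kernel
def v15_4_0 : ivC P15_4 s15_4 w15_4 n15_4 (nat_lit 4) (nat_lit 5580) (nat_lit 0) (nat_lit 0) f120_1_0 f128_1_0 (nat_lit 1) (nat_lit 400) f120_1_400 f128_1_400 (nat_lit 31700858) (nat_lit 10133526) p15_4_0 = true := by decide +kernel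
def p15_4_1 : PF := (PF.cons (PF.cons (PF.cons (PF.cons (PF.leaf (nat_lit 2198925) (nat_lit 10742088) (nat_lit 56366724) (nat_lit 10742088) [(nat_lit 0), (nat_lit 0), (nat_lit 0), (nat_lit 0)]) (PF.cons (PF.leaf (nat_lit 2329693) (nat_lit 216077) (nat_lit 56137034) (nat_lit 10755700) [(nat_lit 216077), (nat_lit 0), (nat_lit 0), (nat_lit 0)]) (PF.cons (PF.leaf (nat_lit 2486240) (nat_lit 235303) (nat_lit 55867716) (nat_lit 10770489) [(nat_lit 235303), (nat_lit 0), (nat_lit 0), (nat_lit 0)]) (PF.cons PF.nil (PF.cons PF.nil PF.nil))))) (PF.cons (PF.cons (PF.leaf (nat_lit 2618556) (nat_lit 887110) (nat_lit 55432877) (nat_lit 10788825) [(nat_lit 0), (nat_lit 887110), (nat_lit 0), (nat_lit 0)]) (PF.cons (PF.leaf (nat_lit 2788691) (nat_lit 259312) (nat_lit 55134261) (nat_lit 10801650) [(nat_lit 259312), (nat_lit 913588), (nat_lit 0), (nat_lit 0)]) (PF.cons PF.nil (PF.cons PF.nil PF.nil)))) (PF.cons (PF.cons (PF.leaf (nat_lit 3106087) (nat_lit 960223) (nat_lit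 54362941) (nat_lit 10825424) [(nat_lit 0), (nat_lit 960223), (nat_lit 0), (nat_lit 0)]) (PF.cons PF.nil PF.nil)) PF.nil))) (PF.cons (PF.cons (PF.cons (PF.leaf (nat_lit 3155876) (nat_lit 2638900) (nat_lit 53648917) (nat_lit 10820995) [(nat_lit 0),
 (nat_lit 0), (nat_lit 2638900), (nat_lit 0)]) (PF.cons (PF.leaf (nat_lit 3337448) (nat_lit 283292) (nat_lit 53333712) (nat_lit 10826614) [(nat_lit 283292), (nat_lit 0), (nat_lit 2665192), (nat_lit 0)]) PF.nil)) (PF.cons PF.nil PF.nil)) (PF.cons PF.nil PF.nil))) (PF.cons (PF.cons (PF.cons (PF.cons (PF.leaf (nat_lit 3907115) (nat_lit 6249852) (nat_lit 50147494) (nat_lit 10711466) [(nat_lit 0), (nat_lit 0), (nat_lit 0), (nat_lit 6249852)]) (PF.cons (PF.leaf (nat_lit 4092078) (nat_lit 298249) (nat_lit 49842583) (nat_lit 10706170) [(nat_lit 298249), (nat_lit 0), (nat_lit 0), (nat_lit 6261809)]) (PF.cons (PF.leaf (nat_lit 4295083) (nat_lit 312057) (nat_lit 49511919) (nat_lit 10699232) [(nat_lit 312057), (nat_lit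 0), (nat_lit 0), (nat_lit 6273546)]) (PF.cons PF.nil PF.nil)))) (PF.cons (PF.cons (PF.leaf (nat_lit 4414623) (nat_lit 1055506) (nat_lit 49084532) (nat_lit 10685682) [(nat_lit 0), (nat_lit 1055506), (nat_lit 0), (nat_lit 6283092)]) (PF.cons (PF.leaf (nat_lit 4625137) (nat_lit 327142) (nat_lit 48740790) (nat_lit 10675587) [(nat_lit 327142), (nat_lit 1072819), (nat_lit 0), (nat_lit 6292472)]) PF.nil)) (PF.cons PF.nil PF.nil))) (PF.cons (PF.cons (PF.cons (PF.leaf (nat_lit 4946316)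
 (nat_lit 2824170) (nat_lit 47386483) (nat_lit 10604542) [(nat_lit 0), (nat_lit 0), (nat_lit 2824170), (nat_lit 6293616)]) (PF.cons PF.nil PF.nil)) (PF.cons PF.nil PF.nil)) (PF.cons PF.nil PF.nil))) (PF.cons (PF.cons (PF.cons (PF.cons (PF.leaf (nat_lit 5620247) (nat_lit 6213408) (nat_lit 44329874) (nat_lit 10352121) [(nat_lit 0), (nat_lit 0), (nat_lit 0), (nat_lit 6213408)]) (PF.cons PF.nil PF.nil)) (PF.cons PF.nil PF.nil)) (PF.cons PF.nil PF.nil)) (PF.cons PF.nil (PF.cons PF.nil (PF.cons PF.nil PF.nil))))))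

def p15_4_1_0 : pfC (piC [(nat_lit 39633164), (nat_lit 28473124), (nat_lit 20874739), (nat_lit 14064972)] (nat_lit 10133526)) p15_4_1 (nat_lit 4) (nat_lit 0) (nat_lit 1) = true := by decide +kernel
def p15_4_1_1 : pfC (piC [(nat_lit 39633164), (nat_lit 28473124), (nat_lit 20874739), (nat_lit 14064972)] (nat_lit 10133526)) p15_4_1 (nat_lit 4) (nat_lit 1) (nat_lit 2) = true := by decide +kernel
def p15_4_1_2 : pfC (piC [(nat_lit 39633164), (nat_lit 28473124), (nat_lit 20874739), (nat_lit 14064972)] (nat_lit 10133526)) p15_4_1 (nat_lit 4) (nat_lit 2) (nat_lit 3) = true := by decide +kernel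
def p15_4_1_3 : pfC (piC [(nat_lit 39633164), (nat_lit 28473124), (nat_lit 20874739), (nat_lit 14064972)] (nat_lit 10133526)) p15_4_1 (nat_lit 4) (nat_lit 3) (nat_lit 4) = true := by decide +kernel
def p15_4_1_4 : pfC (piC [(nat_lit 39633164), (nat_lit 28473124), (nat_lit 20874739), (nat_lit 14064972)] (nat_lit 10133526)) p15_4_1 (nat_lit 4) (nat_lit 4) (nat_lit 5) = true := by decide +kernel
def p15_4_1_5 : pfC (piC [(nat_lit 39633164), (nat_lit 28473124), (nat_lit 20874739), (nat_lit 14064972)] (nat_lit 10133526)) p15_4_1 (nat_lit 4) (nat_lit 5) (nat_lit 6) = true := by decide +kernel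
def p15_4_1_6 : pfC (piC [(nat_lit 39633164), (nat_lit 28473124), (nat_lit 20874739), (nat_lit 14064972)] (nat_lit 10133526)) p15_4_1 (nat_lit 4) (nat_lit 6) (nat_lit 7) = true := by decide +kernel
def p15_4_1_7 : pfC (piC [(nat_lit 39633164), (nat_lit 28473124), (nat_lit 20874739), (nat_lit 14064972)] (nat_lit 10133526)) p15_4_1 (nat_lit 4) (nat_lit 7) (nat_lit 8) = true := by decide +kernel
def p15_4_1_8 : pfC (piC [(nat_lit 39633164), (nat_lit 28473124), (nat_lit 20874739), (nat_lit 14064972)] (nat_lit 10133526)) p15_4_1 (nat_lit 4) (nat_lit 8) (nat_lit 9) = true := by decide +kernel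
def p15_4_1_9 : pfC (piC [(nat_lit 39633164), (nat_lit 28473124), (nat_lit 20874739), (nat_lit 14064972)] (nat_lit 10133526)) p15_4_1 (nat_lit 4) (nat_lit 9) (nat_lit 10) = true := by decide +kernel
def p15_4_1_10 : pfC (piC [(nat_lit 39633164), (nat_lit 28473124), (nat_lit 20874739), (nat_lit 14064972)] (nat_lit 10133526)) p15_4_1 (nat_lit 4) (nat_lit 10) (nat_lit 11) = true := by decide +kernel
def p15_4_1_11 : pfC (piC [(nat_lit 39633164), (nat_lit 28473124), (nat_lit 20874739), (nat_lit 14064972)] (nat_lit 10133526)) p15_4_1 (nat_lit 4) (nat_lit 11) (nat_lit 12) = true := by decide +kernel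
def p15_4_1_12 : pfC (piC [(nat_lit 39633164), (nat_lit 28473124), (nat_lit 20874739), (nat_lit 14064972)] (nat_lit 10133526)) p15_4_1 (nat_lit 4) (nat_lit 12) (nat_lit 13) = true := by decide +kernel
def p15_4_1_13 : pfC (piC [(nat_lit 39633164), (nat_lit 28473124), (nat_lit 20874739), (nat_lit 14064972)] (nat_lit 10133526)) p15_4_1 (nat_lit 4) (nat_lit 13) (nat_lit 14) = true := by decide +kernel
def p15_4_1_14 : pfC (piC [(nat_lit 39633164), (nat_lit 28473124), (nat_lit 20874739), (nat_lit 14064972)] (nat_lit 10133526)) p15_4_1 (nat_lit 4) (nat_lit 14) (nat_lit 15) = true := by decide +kernel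
theorem p15_4_1_T : PfS (PiF n15_4.reverse (nat_lit 10133526)) p15_4_1 (nat_lit 4) [] 0 :=
  pftab_of (los := [(nat_lit 39633164), (nat_lit 28473124), (nat_lit 20874739), (nat_lit 14064972)]) (by decide +kernel) (hi := (nat_lit 15)) (PfP.trans (PfP.trans (PfP.trans (PfP.trans (PfP.trans (PfP.trans (PfP.trans (PfP.trans (PfP.trans (PfP.trans (PfP.trans (PfP.trans (PfP.trans (PfP.trans (pfC_sound p15_4_1_0) (pfC_sound p15_4_1_1)) (pfC_sound p15_4_1_2)) (pfC_sound p15_4_1_3)) (pfC_sound p15_4_1_4)) (pfC_sound p15_4_1_5)) (pfC_sound p15_4_1_6)) (pfC_sound p15_4_1_7)) (pfC_sound p15_4_1_8)) (pfC_sound p15_4_1_9)) (pfC_sound p15_4_1_10)) (pfC_sound p15_4_1_11)) (pfC_sound p15_4_1_12)) (pfC_sound p15_4_1_13)) (pfC_sound p15_4_1_14)) (by decide +kernel)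

def z15_4_1 : zOK yB15_4 (nat_lit 1) (nat_lit 400) (nat_lit 600) (nat_lit 10133526) (nat_lit 6443572) = true := by decide +kernel
def g15_4_1 : gOK yB15_4.x P15_4 (nat_lit 1431) (q15_4 :: r15_4) (nat_lit 1) (nat_lit 400) (nat_lit 2) (nat_lit 600) (nat_lit 11000000) (nat_lit 17850000) (nat_lit 12712500) (nat_lit 12712500) [(nat_lit 800), (nat_lit 1040)] = true := by decide +kernel
def v15_4_1 : ivC P15_4 s15_4 w15_4 n15_4 (nat_lit 4) (nat_lit 5180) (nat_lit 1) (nat_lit 400) f120_1_400 f128_1_400 (nat_lit 2) (nat_lit 600) f120_1_600 f128_1_600 (nat_lit 10133526) (nat_lit 6443572) p15_4_1 = true := by decide +kernel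
def p15_4_2 : PF := (PF.cons (PF.cons (PF.cons (PF.cons (PF.leaf (nat_lit 2815040) (nat_lit 16818378) (nat_lit 50290434) (nat_lit 16818378) [(nat_lit 0), (nat_lit 0), (nat_lit 0), (nat_lit 0)]) (PF.cons (PF.leaf (nat_lit 2942084) (nat_lit 215170) (nat_lit 50093818) (nat_lit 16799824) [(nat_lit 215170), (nat_lit 0), (nat_lit 0), (nat_lit 0)]) (PF.cons (PF.leaf (nat_lit 3093928) (nat_lit 233934) (nat_lit 49863569) (nat_lit 16777374) [(nat_lit 233934), (nat_lit 0), (nat_lit 0), (nat_lit 0)]) (PF.cons (PF.leaf (nat_lit 3264457) (nat_lit 250586) (nat_lit 49605722) (nat_lit 16751331) [(nat_lit 250586), (nat_lit 0), (nat_lit 0), (nat_lit 0)]) (PF.cons PF.nil PF.nil))))) (PF.cons (PF.cons (PF.leaf (nat_lit 3218336) (nat_lit 877792) (nat_lit 49493200) (nat_lit 16737820) [(nat_lit 0), (nat_lit 877792), (nat_lit 0), (nat_lit 0)]) (PF.cons (PF.leaf (nat_lit 3382496) (nat_lit 256728) (nat_lit 49238749) (nat_lit 16710759) [(nat_lit 256728), (nat_lit 902575), (nat_lit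 0), (nat_lit 0)]) (PF.cons (PF.leaf (nat_lit 3565419) (nat_lit 271354) (nat_lit 48959355) (nat_lit 16680029) [(nat_lit 271354), (nat_lit 926719), (nat_lit 0), (nat_lit 0)]) (PF.cons PF.nil PF.nil)))) (PF.cons (PF.cons (PF.leaf (nat_lit 3683983)
 (nat_lit 945005) (nat_lit 48583684) (nat_lit 16635116) [(nat_lit 0), (nat_lit 945005), (nat_lit 0), (nat_lit 0)]) (PF.cons (PF.leaf (nat_lit 3876394) (nat_lit 289346) (nat_lit 48287019) (nat_lit 16599835) [(nat_lit 289346), (nat_lit 966305), (nat_lit 0), (nat_lit 0)]) PF.nil)) (PF.cons PF.nil (PF.cons PF.nil PF.nil))))) (PF.cons (PF.cons (PF.cons (PF.leaf (nat_lit 3720372) (nat_lit 2576267) (nat_lit 47983722) (nat_lit 16548823) [(nat_lit 0), (nat_lit 0), (nat_lit 2576267), (nat_lit 0)]) (PF.cons (PF.leaf (nat_lit 3894287) (nat_lit 278140) (nat_lit 47716746) (nat_lit 16515169) [(nat_lit 278140), (nat_lit 0), (nat_lit 2598755), (nat_lit 0)]) (PF.cons (PF.leaf (nat_lit 4086146) (nat_lit 291772) (nat_lit 47426237)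 (nat_lit 16477533) [(nat_lit 291772), (nat_lit 0), (nat_lit 2621496), (nat_lit 0)]) (PF.cons PF.nil PF.nil)))) (PF.cons (PF.cons (PF.leaf (nat_lit 4202464) (nat_lit 994616) (nat_lit 47046796) (nat_lit 16424857) [(nat_lit 0), (nat_lit 994616), (nat_lit 2642542), (nat_lit 0)]) (PF.cons PF.nil PF.nil)) (PF.cons PF.nil PF.nil))) (PF.cons (PF.cons (PF.cons (PF.leaf (nat_lit 4717422) (nat_lit 2698071) (nat_lit 45523417) (nat_lit 16189252) [(nat_lit 0), (nat_lit 0), (nat_lit
 2698071), (nat_lit 0)]) (PF.cons PF.nil PF.nil)) (PF.cons PF.nil PF.nil)) (PF.cons PF.nil (PF.cons PF.nil PF.nil))))) (PF.cons (PF.cons (PF.cons (PF.cons (PF.leaf (nat_lit 4404343) (nat_lit 5989731) (nat_lit 45055190) (nat_lit 16063890) [(nat_lit 0), (nat_lit 0), (nat_lit 0), (nat_lit 5989731)]) (PF.cons (PF.leaf (nat_lit 4580650) (nat_lit 289819) (nat_lit 44798106) (nat_lit 16023609) [(nat_lit 289819), (nat_lit 0), (nat_lit 0), (nat_lit 5997277)]) (PF.cons (PF.leaf (nat_lit 4774016) (nat_lit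 302937) (nat_lit 44519420) (nat_lit 15979090) [(nat_lit 302937), (nat_lit 0), (nat_lit 0), (nat_lit 6004425)]) (PF.cons PF.nil (PF.cons PF.nil PF.nil))))) (PF.cons (PF.cons (PF.leaf (nat_lit 4884766) (nat_lit 1021655) (nat_lit 44160017) (nat_lit 15918564) [(nat_lit 0), (nat_lit 1021655), (nat_lit 0), (nat_lit 6008575)]) (PF.cons (PF.leaf (nat_lit 5084870) (nat_lit 316898) (nat_lit 43870532) (nat_lit 15870228) [(nat_lit 316898), (nat_lit 1037483), (nat_lit 0), (nat_lit 6013669)]) (PF.cons PF.nil (PF.cons PF.nil PF.nil)))) (PF.cons (PF.cons (PF.leaf (nat_lit 5400704) (nat_lit 1060683) (nat_lit 43213881) (nat_lit 15755376) [(nat_lit 0), (nat_lit 1060683), (nat_lit 0), (nat_lit 6018187)])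
 (PF.cons PF.nil PF.nil)) PF.nil))) (PF.cons (PF.cons (PF.cons (PF.leaf (nat_lit 5378840) (nat_lit 2712851) (nat_lit 42735123) (nat_lit 15658873) [(nat_lit 0), (nat_lit 0), (nat_lit 2712851), (nat_lit 6001964)]) (PF.cons (PF.leaf (nat_lit 5582666) (nat_lit 328556) (nat_lit 42446154) (nat_lit 15606342) [(nat_lit 328556), (nat_lit 0), (nat_lit 2724710), (nat_lit 6003049)]) PF.nil)) (PF.cons PF.nil PF.nil)) (PF.cons PF.nil PF.nil))) (PF.cons (PF.cons (PF.cons (PF.cons (PF.leaf (nat_lit 5996209) (nat_lit 5908170) (nat_lit 40179190) (nat_lit 15113282) [(nat_lit 0), (nat_lit 0), (nat_lit 0), (nat_lit 5908170)]) (PF.cons PF.nil PF.nil)) (PF.cons PF.nil PF.nil)) (PF.cons PF.nil PF.nil)) (PF.cons PF.nil (PF.cons PF.nil (PF.cons PF.nil PF.nil))))))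

def p15_4_2_0 : pfC (piC [(nat_lit 39633164), (nat_lit 28473124), (nat_lit 20874739), (nat_lit 14064972)] (nat_lit 6443572)) p15_4_2 (nat_lit 4) (nat_lit 0) (nat_lit 1) = true := by decide +kernel
def p15_4_2_1 : pfC (piC [(nat_lit 39633164), (nat_lit 28473124), (nat_lit 20874739), (nat_lit 14064972)] (nat_lit 6443572)) p15_4_2 (nat_lit 4) (nat_lit 1) (nat_lit 2) = true := by decide +kernel
def p15_4_2_2 : pfC (piC [(nat_lit 39633164), (nat_lit 28473124), (nat_lit 20874739), (nat_lit 14064972)] (nat_lit 6443572)) p15_4_2 (nat_lit 4) (nat_lit 2) (nat_lit 3) = true := by decide +kernel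
def p15_4_2_3 : pfC (piC [(nat_lit 39633164), (nat_lit 28473124), (nat_lit 20874739), (nat_lit 14064972)] (nat_lit 6443572)) p15_4_2 (nat_lit 4) (nat_lit 3) (nat_lit 4) = true := by decide +kernel
def p15_4_2_4 : pfC (piC [(nat_lit 39633164), (nat_lit 28473124), (nat_lit 20874739), (nat_lit 14064972)] (nat_lit 6443572)) p15_4_2 (nat_lit 4) (nat_lit 4) (nat_lit 5) = true := by decide +kernel
def p15_4_2_5 : pfC (piC [(nat_lit 39633164), (nat_lit 28473124), (nat_lit 20874739), (nat_lit 14064972)] (nat_lit 6443572)) p15_4_2 (nat_lit 4) (nat_lit 5) (nat_lit 6) = true := by decide +kernel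
def p15_4_2_6 : pfC (piC [(nat_lit 39633164), (nat_lit 28473124), (nat_lit 20874739), (nat_lit 14064972)] (nat_lit 6443572)) p15_4_2 (nat_lit 4) (nat_lit 6) (nat_lit 7) = true := by decide +kernel
def p15_4_2_7 : pfC (piC [(nat_lit 39633164), (nat_lit 28473124), (nat_lit 20874739), (nat_lit 14064972)] (nat_lit 6443572)) p15_4_2 (nat_lit 4) (nat_lit 7) (nat_lit 8) = true := by decide +kernel
def p15_4_2_8 : pfC (piC [(nat_lit 39633164), (nat_lit 28473124), (nat_lit 20874739), (nat_lit 14064972)] (nat_lit 6443572)) p15_4_2 (nat_lit 4) (nat_lit 8) (nat_lit 9) = true := by decide +kernel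
def p15_4_2_9 : pfC (piC [(nat_lit 39633164), (nat_lit 28473124), (nat_lit 20874739), (nat_lit 14064972)] (nat_lit 6443572)) p15_4_2 (nat_lit 4) (nat_lit 9) (nat_lit 10) = true := by decide +kernel
def p15_4_2_10 : pfC (piC [(nat_lit 39633164), (nat_lit 28473124), (nat_lit 20874739), (nat_lit 14064972)] (nat_lit 6443572)) p15_4_2 (nat_lit 4) (nat_lit 10) (nat_lit 11) = true := by decide +kernel
def p15_4_2_11 : pfC (piC [(nat_lit 39633164), (nat_lit 28473124), (nat_lit 20874739), (nat_lit 14064972)] (nat_lit 6443572)) p15_4_2 (nat_lit 4) (nat_lit 11) (nat_lit 12) = true := by decide +kernel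
def p15_4_2_12 : pfC (piC [(nat_lit 39633164), (nat_lit 28473124), (nat_lit 20874739), (nat_lit 14064972)] (nat_lit 6443572)) p15_4_2 (nat_lit 4) (nat_lit 12) (nat_lit 13) = true := by decide +kernel
def p15_4_2_13 : pfC (piC [(nat_lit 39633164), (nat_lit 28473124), (nat_lit 20874739), (nat_lit 14064972)] (nat_lit 6443572)) p15_4_2 (nat_lit 4) (nat_lit 13) (nat_lit 14) = true := by decide +kernel
def p15_4_2_14 : pfC (piC [(nat_lit 39633164), (nat_lit 28473124), (nat_lit 20874739), (nat_lit 14064972)] (nat_lit 6443572)) p15_4_2 (nat_lit 4) (nat_lit 14) (nat_lit 15) = true := by decide +kernel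
def p15_4_2_15 : pfC (piC [(nat_lit 39633164), (nat_lit 28473124), (nat_lit 20874739), (nat_lit 14064972)] (nat_lit 6443572)) p15_4_2 (nat_lit 4) (nat_lit 15) (nat_lit 16) = true := by decide +kernel
def p15_4_2_16 : pfC (piC [(nat_lit 39633164), (nat_lit 28473124), (nat_lit 20874739), (nat_lit 14064972)] (nat_lit 6443572)) p15_4_2 (nat_lit 4) (nat_lit 16) (nat_lit 17) = true := by decide +kernel
def p15_4_2_17 : pfC (piC [(nat_lit 39633164), (nat_lit 28473124), (nat_lit 20874739), (nat_lit 14064972)] (nat_lit 6443572)) p15_4_2 (nat_lit 4) (nat_lit 17) (nat_lit 18) = true := by decide +kernel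
def p15_4_2_18 : pfC (piC [(nat_lit 39633164), (nat_lit 28473124), (nat_lit 20874739), (nat_lit 14064972)] (nat_lit 6443572)) p15_4_2 (nat_lit 4) (nat_lit 18) (nat_lit 19) = true := by decide +kernel
def p15_4_2_19 : pfC (piC [(nat_lit 39633164), (nat_lit 28473124), (nat_lit 20874739), (nat_lit 14064972)] (nat_lit 6443572)) p15_4_2 (nat_lit 4) (nat_lit 19) (nat_lit 20) = true := by decide +kernel
def p15_4_2_20 : pfC (piC [(nat_lit 39633164), (nat_lit 28473124), (nat_lit 20874739), (nat_lit 14064972)] (nat_lit 6443572)) p15_4_2 (nat_lit 4) (nat_lit 20) (nat_lit 21) = true := by decide +kernel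
def p15_4_2_21 : pfC (piC [(nat_lit 39633164), (nat_lit 28473124), (nat_lit 20874739), (nat_lit 14064972)] (nat_lit 6443572)) p15_4_2 (nat_lit 4) (nat_lit 21) (nat_lit 22) = true := by decide +kernel
def p15_4_2_22 : pfC (piC [(nat_lit 39633164), (nat_lit 28473124), (nat_lit 20874739), (nat_lit 14064972)] (nat_lit 6443572)) p15_4_2 (nat_lit 4) (nat_lit 22) (nat_lit 23) = true := by decide +kernel
theorem p15_4_2_T : PfS (PiF n15_4.reverse (nat_lit 6443572)) p15_4_2 (nat_lit 4) [] 0 :=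
  pftab_of (los := [(nat_lit 39633164), (nat_lit 28473124), (nat_lit 20874739), (nat_lit 14064972)]) (by decide +kernel) (hi := (nat_lit 23)) (PfP.trans (PfP.trans (PfP.trans (PfP.trans (PfP.trans (PfP.trans (PfP.trans (PfP.trans (PfP.trans (PfP.trans (PfP.trans (PfP.trans (PfP.trans (PfP.trans (PfP.trans (PfP.trans (PfP.trans (PfP.trans (PfP.trans (PfP.trans (PfP.trans (PfP.trans (pfC_sound p15_4_2_0) (pfC_sound p15_4_2_1)) (pfC_sound p15_4_2_2)) (pfC_sound p15_4_2_3)) (pfC_sound p15_4_2_4)) (pfC_sound p15_4_2_5)) (pfC_sound p15_4_2_6)) (pfC_sound p15_4_2_7)) (pfC_sound p15_4_2_8)) (pfC_sound p15_4_2_9)) (pfC_sound p15_4_2_10)) (pfC_sound p15_4_2_11)) (pfC_sound p15_4_2_12)) (pfC_sound p15_4_2_13)) (pfC_sound p15_4_2_14)) (pfC_sound p15_4_2_15)) (pfC_sound p15_4_2_16)) (pfC_sound p15_4_2_17)) (pfC_sound p15_4_2_18)) (pfC_sound p15_4_2_19)) (pfC_sound p15_4_2_20)) (pfC_sound p15_4_2_21)) (pfC_sound p15_4_2_22)) (by decide +kernel)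

def z15_4_2 : zOK yB15_4 (nat_lit 2) (nat_lit 600) (nat_lit 750) (nat_lit 6443572) (nat_lit 4509858) = true := by decide +kernel
def g15_4_2 : gOK yB15_4.x P15_4 (nat_lit 1431) (q15_4 :: r15_4) (nat_lit 2) (nat_lit 600) (nat_lit 3) (nat_lit 750) (nat_lit 12712500) (nat_lit 12712500) (nat_lit 12712500) (nat_lit 12712500) [(nat_lit 800), (nat_lit 1600)] = true := by decide +kernel
def v15_4_2 : ivC P15_4 s15_4 w15_4 n15_4 (nat_lit 4) (nat_lit 4980) (nat_lit 2) (nat_lit 600) f120_1_600 f128_1_600 (nat_lit 3) (nat_lit 750) f120_1_750 f128_1_750 (nat_lit 6443572) (nat_lit 4509858) p15_4_2 = true := by decide +kernel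
def p15_4_3 : PF := (PF.cons (PF.cons (PF.cons (PF.cons (PF.leaf (nat_lit 3207272) (nat_lit 22859503) (nat_lit 44249309) (nat_lit 22859503) [(nat_lit 0), (nat_lit 0), (nat_lit 0), (nat_lit 0)]) (PF.cons (PF.leaf (nat_lit 3326501) (nat_lit 204243) (nat_lit 44093133) (nat_lit 22811435) [(nat_lit 204243), (nat_lit 0), (nat_lit 0), (nat_lit 0)]) (PF.cons (PF.leaf (nat_lit 3469693) (nat_lit 221945) (nat_lit 43910206) (nat_lit 22754716) [(nat_lit 221945), (nat_lit 0), (nat_lit 0), (nat_lit 0)]) (PF.cons (PF.leaf (nat_lit 3630182) (nat_lit 237617) (nat_lit 43705303) (nat_lit 22690656) [(nat_lit 237617), (nat_lit 0), (nat_lit 0), (nat_lit 0)]) (PF.cons (PF.leaf (nat_lit 3805587) (nat_lit 251721) (nat_lit 43481776) (nat_lit 22620148) [(nat_lit 251721), (nat_lit 0), (nat_lit 0), (nat_lit 0)]) (PF.cons (PF.leaf (nat_lit 3994209) (nat_lit 264553) (nat_lit 43242186) (nat_lit 22543859) [(nat_lit 264553), (nat_lit 0), (nat_lit 0), (nat_lit 0)]) (PF.cons PF.nil PF.nil)))))))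 (PF.cons (PF.cons (PF.leaf (nat_lit 3585734) (nat_lit 831143) (nat_lit 43616139) (nat_lit 22661530) [(nat_lit 0), (nat_lit 831143), (nat_lit 0), (nat_lit 0)]) (PF.cons (PF.leaf (nat_lit 3739828) (nat_lit 243257) (nat_lit 43413857) (nat_lit
 22597487) [(nat_lit 243257), (nat_lit 854210), (nat_lit 0), (nat_lit 0)]) (PF.cons (PF.leaf (nat_lit 3911782) (nat_lit 256985) (nat_lit 43191670) (nat_lit 22526540) [(nat_lit 256985), (nat_lit 876630), (nat_lit 0), (nat_lit 0)]) (PF.cons (PF.leaf (nat_lit 4097422) (nat_lit 269439) (nat_lit 42952802) (nat_lit 22449572) [(nat_lit 269439), (nat_lit 898118), (nat_lit 0), (nat_lit 0)]) (PF.cons (PF.leaf (nat_lit 4295161) (nat_lit 280841) (nat_lit 42699666) (nat_lit 22367228) [(nat_lit 280841), (nat_lit 918554), (nat_lit 0), (nat_lit 0)]) PF.nil))))) (PF.cons (PF.cons (PF.leaf (nat_lit 4022068) (nat_lit 893337) (nat_lit 42893070) (nat_lit 22429068) [(nat_lit 0), (nat_lit 893337), (nat_lit 0), (nat_lit 0)]) (PF.cons (PF.leaf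 (nat_lit 4202531) (nat_lit 273707) (nat_lit 42656929) (nat_lit 22352076) [(nat_lit 273707), (nat_lit 913049), (nat_lit 0), (nat_lit 0)]) (PF.cons (PF.leaf (nat_lit 4396964) (nat_lit 284858) (nat_lit 42405709) (nat_lit 22269415) [(nat_lit 284858), (nat_lit 931985), (nat_lit 0), (nat_lit 0)]) (PF.cons PF.nil PF.nil)))) (PF.cons (PF.cons (PF.leaf (nat_lit 4501705) (nat_lit 944652) (nat_lit 42106190) (nat_lit 22168664) [(nat_lit 0), (nat_lit 944652), (nat_lit 0),
 (nat_lit 0)]) (PF.cons (PF.leaf (nat_lit 4702685) (nat_lit 298428) (nat_lit 41845040) (nat_lit 22080959) [(nat_lit 298428), (nat_lit 961461), (nat_lit 0), (nat_lit 0)]) PF.nil)) (PF.cons PF.nil (PF.cons PF.nil PF.nil)))))) (PF.cons (PF.cons (PF.cons (PF.leaf (nat_lit 4052328) (nat_lit 2426189) (nat_lit 42417460) (nat_lit 22265162) [(nat_lit 0), (nat_lit 0), (nat_lit 2426189), (nat_lit 0)]) (PF.cons (PF.leaf (nat_lit 4215474) (nat_lit 262896) (nat_lit 42204732) (nat_lit 22194625) [(nat_lit 262896),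 (nat_lit 0), (nat_lit 2446558), (nat_lit 0)]) (PF.cons (PF.leaf (nat_lit 4395506) (nat_lit 275671) (nat_lit 41973137) (nat_lit 22117213) [(nat_lit 275671), (nat_lit 0), (nat_lit 2467120), (nat_lit 0)]) (PF.cons (PF.leaf (nat_lit 4588551) (nat_lit 287111) (nat_lit 41726127) (nat_lit 22033942) [(nat_lit 287111), (nat_lit 0), (nat_lit 2487407), (nat_lit 0)]) (PF.cons PF.nil PF.nil))))) (PF.cons (PF.cons (PF.leaf (nat_lit 4503655) (nat_lit 938218) (nat_lit 41670736) (nat_lit 22014008) [(nat_lit 0), (nat_lit 938218), (nat_lit 2485850), (nat_lit 0)]) (PF.cons (PF.leaf (nat_lit 4690925) (nat_lit 290143) (nat_lit 41428050) (nat_lit 21931317) [(nat_lit 290143), (nat_lit 955020), (nat_lit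
 2504281), (nat_lit 0)]) (PF.cons (PF.leaf (nat_lit 4891264) (nat_lit 300387) (nat_lit 41171468) (nat_lit 21843144) [(nat_lit 300387), (nat_lit 971097), (nat_lit 2522327), (nat_lit 0)]) (PF.cons PF.nil PF.nil)))) (PF.cons (PF.cons (PF.leaf (nat_lit 4992814) (nat_lit 980940) (nat_lit 40872221) (nat_lit 21738157) [(nat_lit 0), (nat_lit 980940), (nat_lit 2536553), (nat_lit 0)]) (PF.cons PF.nil PF.nil)) (PF.cons PF.nil (PF.cons PF.nil PF.nil))))) (PF.cons (PF.cons (PF.cons (PF.leaf (nat_lit 4982404) (nat_lit 2534655) (nat_lit 40455278) (nat_lit 21584223) [(nat_lit 0), (nat_lit 0), (nat_lit 2534655), (nat_lit 0)]) (PF.cons (PF.leaf (nat_lit 5174672) (nat_lit 303520) (nat_lit 40209606) (nat_lit 21497127) [(nat_lit 303520), (nat_lit 0), (nat_lit 2549278), (nat_lit 0)]) (PF.cons PF.nil (PF.cons PF.nil PF.nil)))) (PF.cons (PF.cons (PF.leaf (nat_lit 5477378) (nat_lit 1009097) (nat_lit 39655241) (nat_lit 21296950) [(nat_lit 0), (nat_lit 1009097), (nat_lit 2573762),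 (nat_lit 0)]) (PF.cons PF.nil PF.nil)) (PF.cons PF.nil PF.nil))) (PF.cons (PF.cons (PF.cons (PF.leaf (nat_lit 5953778) (nat_lit 2598471) (nat_lit 38463697) (nat_lit 20849701) [(nat_lit 0), (nat_lit 0), (nat_lit 2598471), (nat_lit
 0)]) (PF.cons PF.nil PF.nil)) (PF.cons PF.nil PF.nil)) (PF.cons PF.nil PF.nil))))) (PF.cons (PF.cons (PF.cons (PF.cons (PF.leaf (nat_lit 4683434) (nat_lit 5598106) (nat_lit 40088451) (nat_lit 21422254) [(nat_lit 0), (nat_lit 0), (nat_lit 0), (nat_lit 5598106)]) (PF.cons (PF.leaf (nat_lit 4848860) (nat_lit 273271) (nat_lit 39882147) (nat_lit 21348782) [(nat_lit 273271), (nat_lit 0), (nat_lit 0), (nat_lit 5604612)]) (PF.cons (PF.leaf (nat_lit 5030514) (nat_lit 285576) (nat_lit 39658358) (nat_lit 21268540) [(nat_lit 285576), (nat_lit 0), (nat_lit 0), (nat_lit 5610761)]) (PF.cons (PF.leaf (nat_lit 5224505) (nat_lit 296444) (nat_lit 39420515) (nat_lit 21182648) [(nat_lit 296444), (nat_lit 0), (nat_lit 0), (nat_lit 5616315)]) (PF.cons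 PF.nil PF.nil))))) (PF.cons (PF.cons (PF.leaf (nat_lit 5133930) (nat_lit 961842) (nat_lit 39369768) (nat_lit 21163136) [(nat_lit 0), (nat_lit 961842), (nat_lit 0), (nat_lit 5614065)]) (PF.cons (PF.leaf (nat_lit 5321740) (nat_lit 298595) (nat_lit 39136916) (nat_lit 21078301) [(nat_lit 298595), (nat_lit 976569), (nat_lit 0), (nat_lit 5618430)]) (PF.cons (PF.leaf (nat_lit 5521887) (nat_lit 308247) (nat_lit 38891480) (nat_lit 20988240) [(nat_lit 308247),
 (nat_lit 990514), (nat_lit 0), (nat_lit 5622083)]) (PF.cons PF.nil PF.nil)))) (PF.cons (PF.cons (PF.leaf (nat_lit 5617851) (nat_lit 998044) (nat_lit 38608289) (nat_lit 20882400) [(nat_lit 0), (nat_lit 998044), (nat_lit 0), (nat_lit 5622035)]) (PF.cons PF.nil PF.nil)) PF.nil))) (PF.cons (PF.cons (PF.cons (PF.leaf (nat_lit 5595381) (nat_lit 2546301) (nat_lit 38223661) (nat_lit 20731910) [(nat_lit 0), (nat_lit 0), (nat_lit 2546301), (nat_lit 5606939)]) (PF.cons (PF.leaf (nat_lit 5786770) (nat_lit 309373) (nat_lit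 37990252) (nat_lit 20644050) [(nat_lit 309373), (nat_lit 0), (nat_lit 2557236), (nat_lit 5607900)]) (PF.cons PF.nil PF.nil))) (PF.cons (PF.cons (PF.leaf (nat_lit 6082299) (nat_lit 1018809) (nat_lit 37467366) (nat_lit 20444058) [(nat_lit 0), (nat_lit 1018809), (nat_lit 2574159), (nat_lit 5604418)]) PF.nil) PF.nil)) (PF.cons PF.nil PF.nil))) (PF.cons (PF.cons (PF.cons (PF.cons (PF.leaf (nat_lit 6172002) (nat_lit 5523225) (nat_lit 36159389) (nat_lit 19902971) [(nat_lit 0), (nat_lit 0), (nat_lit 0), (nat_lit 5523225)]) (PF.cons (PF.leaf (nat_lit 6361573) (nat_lit 312540) (nat_lit 35939283) (nat_lit 19815936) [(nat_lit 312540), (nat_lit 0), (nat_lit 0), (nat_lit 5520526)])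
 PF.nil)) (PF.cons PF.nil PF.nil)) (PF.cons PF.nil PF.nil)) (PF.cons PF.nil (PF.cons PF.nil (PF.cons PF.nil PF.nil))))))

def p15_4_3_0 : pfC (piC [(nat_lit 39633164), (nat_lit 28473124), (nat_lit 20874739), (nat_lit 14064972)] (nat_lit 4509858)) p15_4_3 (nat_lit 4) (nat_lit 0) (nat_lit 1) = true := by decide +kernel
def p15_4_3_1 : pfC (piC [(nat_lit 39633164), (nat_lit 28473124), (nat_lit 20874739), (nat_lit 14064972)] (nat_lit 4509858)) p15_4_3 (nat_lit 4) (nat_lit 1) (nat_lit 2) = true := by decide +kernel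
def p15_4_3_2 : pfC (piC [(nat_lit 39633164), (nat_lit 28473124), (nat_lit 20874739), (nat_lit 14064972)] (nat_lit 4509858)) p15_4_3 (nat_lit 4) (nat_lit 2) (nat_lit 3) = true := by decide +kernel
def p15_4_3_3 : pfC (piC [(nat_lit 39633164), (nat_lit 28473124), (nat_lit 20874739), (nat_lit 14064972)] (nat_lit 4509858)) p15_4_3 (nat_lit 4) (nat_lit 3) (nat_lit 4) = true := by decide +kernel
def p15_4_3_4 : pfC (piC [(nat_lit 39633164), (nat_lit 28473124), (nat_lit 20874739), (nat_lit 14064972)] (nat_lit 4509858)) p15_4_3 (nat_lit 4) (nat_lit 4) (nat_lit 5) = true := by decide +kernel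
def p15_4_3_5 : pfC (piC [(nat_lit 39633164), (nat_lit 28473124), (nat_lit 20874739), (nat_lit 14064972)] (nat_lit 4509858)) p15_4_3 (nat_lit 4) (nat_lit 5) (nat_lit 6) = true := by decide +kernel
def p15_4_3_6 : pfC (piC [(nat_lit 39633164), (nat_lit 28473124), (nat_lit 20874739), (nat_lit 14064972)] (nat_lit 4509858)) p15_4_3 (nat_lit 4) (nat_lit 6) (nat_lit 7) = true := by decide +kernel
def p15_4_3_7 : pfC (piC [(nat_lit 39633164), (nat_lit 28473124), (nat_lit 20874739), (nat_lit 14064972)] (nat_lit 4509858)) p15_4_3 (nat_lit 4) (nat_lit 7) (nat_lit 8) = true := by decide +kernel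
def p15_4_3_8 : pfC (piC [(nat_lit 39633164), (nat_lit 28473124), (nat_lit 20874739), (nat_lit 14064972)] (nat_lit 4509858)) p15_4_3 (nat_lit 4) (nat_lit 8) (nat_lit 9) = true := by decide +kernel
def p15_4_3_9 : pfC (piC [(nat_lit 39633164), (nat_lit 28473124), (nat_lit 20874739), (nat_lit 14064972)] (nat_lit 4509858)) p15_4_3 (nat_lit 4) (nat_lit 9) (nat_lit 10) = true := by decide +kernel
def p15_4_3_10 : pfC (piC [(nat_lit 39633164), (nat_lit 28473124), (nat_lit 20874739), (nat_lit 14064972)] (nat_lit 4509858)) p15_4_3 (nat_lit 4) (nat_lit 10) (nat_lit 11) = true := by decide +kernel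
def p15_4_3_11 : pfC (piC [(nat_lit 39633164), (nat_lit 28473124), (nat_lit 20874739), (nat_lit 14064972)] (nat_lit 4509858)) p15_4_3 (nat_lit 4) (nat_lit 11) (nat_lit 12) = true := by decide +kernel
def p15_4_3_12 : pfC (piC [(nat_lit 39633164), (nat_lit 28473124), (nat_lit 20874739), (nat_lit 14064972)] (nat_lit 4509858)) p15_4_3 (nat_lit 4) (nat_lit 12) (nat_lit 13) = true := by decide +kernel
def p15_4_3_13 : pfC (piC [(nat_lit 39633164), (nat_lit 28473124), (nat_lit 20874739), (nat_lit 14064972)] (nat_lit 4509858)) p15_4_3 (nat_lit 4) (nat_lit 13) (nat_lit 14) = true := by decide +kernel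
def p15_4_3_14 : pfC (piC [(nat_lit 39633164), (nat_lit 28473124), (nat_lit 20874739), (nat_lit 14064972)] (nat_lit 4509858)) p15_4_3 (nat_lit 4) (nat_lit 14) (nat_lit 15) = true := by decide +kernel
def p15_4_3_15 : pfC (piC [(nat_lit 39633164), (nat_lit 28473124), (nat_lit 20874739), (nat_lit 14064972)] (nat_lit 4509858)) p15_4_3 (nat_lit 4) (nat_lit 15) (nat_lit 16) = true := by decide +kernel
def p15_4_3_16 : pfC (piC [(nat_lit 39633164), (nat_lit 28473124), (nat_lit 20874739), (nat_lit 14064972)] (nat_lit 4509858)) p15_4_3 (nat_lit 4) (nat_lit 16) (nat_lit 17) = true := by decide +kernel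
def p15_4_3_17 : pfC (piC [(nat_lit 39633164), (nat_lit 28473124), (nat_lit 20874739), (nat_lit 14064972)] (nat_lit 4509858)) p15_4_3 (nat_lit 4) (nat_lit 17) (nat_lit 18) = true := by decide +kernel
def p15_4_3_18 : pfC (piC [(nat_lit 39633164), (nat_lit 28473124), (nat_lit 20874739), (nat_lit 14064972)] (nat_lit 4509858)) p15_4_3 (nat_lit 4) (nat_lit 18) (nat_lit 19) = true := by decide +kernel
def p15_4_3_19 : pfC (piC [(nat_lit 39633164), (nat_lit 28473124), (nat_lit 20874739), (nat_lit 14064972)] (nat_lit 4509858)) p15_4_3 (nat_lit 4) (nat_lit 19) (nat_lit 20) = true := by decide +kernel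
def p15_4_3_20 : pfC (piC [(nat_lit 39633164), (nat_lit 28473124), (nat_lit 20874739), (nat_lit 14064972)] (nat_lit 4509858)) p15_4_3 (nat_lit 4) (nat_lit 20) (nat_lit 21) = true := by decide +kernel
def p15_4_3_21 : pfC (piC [(nat_lit 39633164), (nat_lit 28473124), (nat_lit 20874739), (nat_lit 14064972)] (nat_lit 4509858)) p15_4_3 (nat_lit 4) (nat_lit 21) (nat_lit 22) = true := by decide +kernel
def p15_4_3_22 : pfC (piC [(nat_lit 39633164), (nat_lit 28473124), (nat_lit 20874739), (nat_lit 14064972)] (nat_lit 4509858)) p15_4_3 (nat_lit 4) (nat_lit 22) (nat_lit 23) = true := by decide +kernel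
def p15_4_3_23 : pfC (piC [(nat_lit 39633164), (nat_lit 28473124), (nat_lit 20874739), (nat_lit 14064972)] (nat_lit 4509858)) p15_4_3 (nat_lit 4) (nat_lit 23) (nat_lit 24) = true := by decide +kernel
def p15_4_3_24 : pfC (piC [(nat_lit 39633164), (nat_lit 28473124), (nat_lit 20874739), (nat_lit 14064972)] (nat_lit 4509858)) p15_4_3 (nat_lit 4) (nat_lit 24) (nat_lit 25) = true := by decide +kernel
def p15_4_3_25 : pfC (piC [(nat_lit 39633164), (nat_lit 28473124), (nat_lit 20874739), (nat_lit 14064972)] (nat_lit 4509858)) p15_4_3 (nat_lit 4) (nat_lit 25) (nat_lit 26) = true := by decide +kernel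
def p15_4_3_26 : pfC (piC [(nat_lit 39633164), (nat_lit 28473124), (nat_lit 20874739), (nat_lit 14064972)] (nat_lit 4509858)) p15_4_3 (nat_lit 4) (nat_lit 26) (nat_lit 27) = true := by decide +kernel
def p15_4_3_27 : pfC (piC [(nat_lit 39633164), (nat_lit 28473124), (nat_lit 20874739), (nat_lit 14064972)] (nat_lit 4509858)) p15_4_3 (nat_lit 4) (nat_lit 27) (nat_lit 28) = true := by decide +kernel
def p15_4_3_28 : pfC (piC [(nat_lit 39633164), (nat_lit 28473124), (nat_lit 20874739), (nat_lit 14064972)] (nat_lit 4509858)) p15_4_3 (nat_lit 4) (nat_lit 28) (nat_lit 29) = true := by decide +kernel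
def p15_4_3_29 : pfC (piC [(nat_lit 39633164), (nat_lit 28473124), (nat_lit 20874739), (nat_lit 14064972)] (nat_lit 4509858)) p15_4_3 (nat_lit 4) (nat_lit 29) (nat_lit 30) = true := by decide +kernel
def p15_4_3_30 : pfC (piC [(nat_lit 39633164), (nat_lit 28473124), (nat_lit 20874739), (nat_lit 14064972)] (nat_lit 4509858)) p15_4_3 (nat_lit 4) (nat_lit 30) (nat_lit 31) = true := by decide +kernel
def p15_4_3_31 : pfC (piC [(nat_lit 39633164), (nat_lit 28473124), (nat_lit 20874739), (nat_lit 14064972)] (nat_lit 4509858)) p15_4_3 (nat_lit 4) (nat_lit 31) (nat_lit 32) = true := by decide +kernel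
def p15_4_3_32 : pfC (piC [(nat_lit 39633164), (nat_lit 28473124), (nat_lit 20874739), (nat_lit 14064972)] (nat_lit 4509858)) p15_4_3 (nat_lit 4) (nat_lit 32) (nat_lit 33) = true := by decide +kernel
def p15_4_3_33 : pfC (piC [(nat_lit 39633164), (nat_lit 28473124), (nat_lit 20874739), (nat_lit 14064972)] (nat_lit 4509858)) p15_4_3 (nat_lit 4) (nat_lit 33) (nat_lit 34) = true := by decide +kernel
def p15_4_3_34 : pfC (piC [(nat_lit 39633164), (nat_lit 28473124), (nat_lit 20874739), (nat_lit 14064972)] (nat_lit 4509858)) p15_4_3 (nat_lit 4) (nat_lit 34) (nat_lit 35) = true := by decide +kernel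
def p15_4_3_35 : pfC (piC [(nat_lit 39633164), (nat_lit 28473124), (nat_lit 20874739), (nat_lit 14064972)] (nat_lit 4509858)) p15_4_3 (nat_lit 4) (nat_lit 35) (nat_lit 36) = true := by decide +kernel
def p15_4_3_36 : pfC (piC [(nat_lit 39633164), (nat_lit 28473124), (nat_lit 20874739), (nat_lit 14064972)] (nat_lit 4509858)) p15_4_3 (nat_lit 4) (nat_lit 36) (nat_lit 37) = true := by decide +kernel
def p15_4_3_37 : pfC (piC [(nat_lit 39633164), (nat_lit 28473124), (nat_lit 20874739), (nat_lit 14064972)] (nat_lit 4509858)) p15_4_3 (nat_lit 4) (nat_lit 37) (nat_lit 38) = true := by decide +kernel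
def p15_4_3_38 : pfC (piC [(nat_lit 39633164), (nat_lit 28473124), (nat_lit 20874739), (nat_lit 14064972)] (nat_lit 4509858)) p15_4_3 (nat_lit 4) (nat_lit 38) (nat_lit 39) = true := by decide +kernel
def p15_4_3_39 : pfC (piC [(nat_lit 39633164), (nat_lit 28473124), (nat_lit 20874739), (nat_lit 14064972)] (nat_lit 4509858)) p15_4_3 (nat_lit 4) (nat_lit 39) (nat_lit 40) = true := by decide +kernel
def p15_4_3_40 : pfC (piC [(nat_lit 39633164), (nat_lit 28473124), (nat_lit 20874739), (nat_lit 14064972)] (nat_lit 4509858)) p15_4_3 (nat_lit 4) (nat_lit 40) (nat_lit 41) = true := by decide +kernel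
theorem p15_4_3_T : PfS (PiF n15_4.reverse (nat_lit 4509858)) p15_4_3 (nat_lit 4) [] 0 :=
  pftab_of (los := [(nat_lit 39633164), (nat_lit 28473124), (nat_lit 20874739), (nat_lit 14064972)]) (by decide +kernel) (hi := (nat_lit 41)) (PfP.trans (PfP.trans (PfP.trans (PfP.trans (PfP.trans (PfP.trans (PfP.trans (PfP.trans (PfP.trans (PfP.trans (PfP.trans (PfP.trans (PfP.trans (PfP.trans (PfP.trans (PfP.trans (PfP.trans (PfP.trans (PfP.trans (PfP.trans (PfP.trans (PfP.trans (PfP.trans (PfP.trans (PfP.trans (PfP.trans (PfP.trans (PfP.trans (PfP.trans (PfP.trans (PfP.trans (PfP.trans (PfP.trans (PfP.trans (PfP.trans (PfP.trans (PfP.trans (PfP.trans (PfP.trans (PfP.trans (pfC_sound p15_4_3_0) (pfC_sound p15_4_3_1)) (pfC_sound p15_4_3_2)) (pfC_sound p15_4_3_3)) (pfC_sound p15_4_3_4)) (pfC_sound p15_4_3_5)) (pfC_sound p15_4_3_6)) (pfC_sound p15_4_3_7)) (pfC_sound p15_4_3_8)) (pfC_sound p15_4_3_9)) (pfC_sound p15_4_3_10)) (pfC_sound p15_4_3_11)) (pfC_sound p15_4_3_12))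 (pfC_sound p15_4_3_13)) (pfC_sound p15_4_3_14)) (pfC_sound p15_4_3_15)) (pfC_sound p15_4_3_16)) (pfC_sound p15_4_3_17)) (pfC_sound p15_4_3_18)) (pfC_sound p15_4_3_19)) (pfC_sound p15_4_3_20)) (pfC_sound p15_4_3_21)) (pfC_sound p15_4_3_22)) (pfC_sound p15_4_3_23)) (pfC_sound p15_4_3_24)) (pfC_sound p15_4_3_25)) (pfC_sound p15_4_3_26)) (pfC_sound p15_4_3_27)) (pfC_sound p15_4_3_28)) (pfC_sound p15_4_3_29)) (pfC_sound p15_4_3_30)) (pfC_sound p15_4_3_31))
 (pfC_sound p15_4_3_32)) (pfC_sound p15_4_3_33)) (pfC_sound p15_4_3_34)) (pfC_sound p15_4_3_35)) (pfC_sound p15_4_3_36)) (pfC_sound p15_4_3_37)) (pfC_sound p15_4_3_38)) (pfC_sound p15_4_3_39)) (pfC_sound p15_4_3_40)) (by decide +kernel)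

def z15_4_3 : zOK yB15_4 (nat_lit 3) (nat_lit 750) (nat_lit 960) (nat_lit 4509858) (nat_lit 2094874) = true := by decide +kernel
def g15_4_3 : gOK yB15_4.x P15_4 (nat_lit 1431) (q15_4 :: r15_4) (nat_lit 3) (nat_lit 750) (nat_lit 4) (nat_lit 960) (nat_lit 12712500) (nat_lit 12712500) (nat_lit 12712500) (nat_lit 12712500) [(nat_lit 800)] = true := by decide +kernel
def v15_4_3 : ivC P15_4 s15_4 w15_4 n15_4 (nat_lit 4) (nat_lit 4830) (nat_lit 3) (nat_lit 750) f120_1_750 f128_1_750 (nat_lit 4) (nat_lit 960) f120_1_960 f128_1_960 (nat_lit 4509858) (nat_lit 2094874) p15_4_3 = true := by decide +kernel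
/-! box `yB15_5` -/

def P15_5 : BQ := ⟨(nat_lit 8), (nat_lit 8), (nat_lit 0), (nat_lit 4), (nat_lit 4), (nat_lit 640), (nat_lit 660), (nat_lit 120), [(nat_lit 200), (nat_lit 300), (nat_lit 450), (nat_lit 800)], (nat_lit 53568000), (nat_lit 16000000), (nat_lit 16000000000)⟩
def q15_5 : PC := ⟨(nat_lit 1000), [(nat_lit 120000), (nat_lit 200000), (nat_lit 300000), (nat_lit 450000), (nat_lit 800000)], (nat_lit 340282367000166625996085689103316680705000000), (nat_lit 15946432000000), (nat_lit 15946432000000), (nat_lit 10000000)⟩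
def r15_5 : List PC := [⟨(nat_lit 1312), [(nat_lit 120504), (nat_lit 201302), (nat_lit 301780), (nat_lit 452044), (nat_lit 799204)], (nat_lit 342342436450046481978649793269141624283156193), (nat_lit 16306880636160), (nat_lit 16318982641920), (nat_lit 10065100)⟩]
def s15_5 : List PB := [⟨(nat_lit 26240), (nat_lit 1928064000000), [(nat_lit 201302), (nat_lit 301780), (nat_lit 452044), (nat_lit 799204)], (nat_lit 342342436450046481978649793269141624283156193), (nat_lit 1142206787478784), (nat_lit 1142218889484544), (nat_lit 49920)⟩]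
def n15_5 : List KN := [⟨(nat_lit 800), (nat_lit 450), (nat_lit 13943267), (nat_lit 8818895)⟩, ⟨(nat_lit 450), (nat_lit 300), (nat_lit 20714735), (nat_lit 13943267)⟩, ⟨(nat_lit 300), (nat_lit 200), (nat_lit 28134109), (nat_lit 20714735)⟩, ⟨(nat_lit 200), (nat_lit 120), (nat_lit 41997052), (nat_lit 28134109)⟩]
def w15_5 : List ℕ := [(nat_lit 49920)]
def par15_5 : parC yB15_5 P15_5 s15_5 r15_5 q15_5 n15_5 w15_5 = true := by decide +kernel

def p15_5_0 : PF := (PF.cons (PF.cons (PF.cons (PF.cons (PF.leaf (nat_lit 442070) (nat_lit 1179151) (nat_lit 65929661) (nat_lit 1179151) [(nat_lit 0), (nat_lit 0), (nat_lit 0), (nat_lit 0)]) (PF.cons (PF.leaf (nat_lit 526976) (nat_lit 128616) (nat_lit 65764683) (nat_lit 1215512) [(nat_lit 128616), (nat_lit 0), (nat_lit 0), (nat_lit 0)]) (PF.cons (PF.leaf (nat_lit 637742) (nat_lit 142976) (nat_lit 65566839) (nat_lit 1256019) [(nat_lit 142976), (nat_lit 0), (nat_lit 0), (nat_lit 0)]) (PF.cons (PF.leaf (nat_lit 765179)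 (nat_lit 156669) (nat_lit 65339706) (nat_lit 1299097) [(nat_lit 156669), (nat_lit 0), (nat_lit 0), (nat_lit 0)]) (PF.cons (PF.leaf (nat_lit 907965) (nat_lit 169859) (nat_lit 65085687) (nat_lit 1343689) [(nat_lit 169859), (nat_lit 0), (nat_lit 0), (nat_lit 0)]) (PF.cons PF.nil (PF.cons PF.nil PF.nil))))))) (PF.cons (PF.cons (PF.leaf (nat_lit 807915) (nat_lit 697824) (nat_lit 65076645) (nat_lit 1334342) [(nat_lit 0), (nat_lit 697824), (nat_lit 0), (nat_lit 0)]) (PF.cons (PF.leaf (nat_lit 934168) (nat_lit 169634) (nat_lit 64838815) (nat_lit 1373605) [(nat_lit 169634), (nat_lit 726757), (nat_lit 0), (nat_lit 0)]) (PF.cons (PF.leaf (nat_lit 1080811) (nat_lit 182533) (nat_lit 64572484) (nat_lit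
 1414701) [(nat_lit 182533), (nat_lit 756560), (nat_lit 0), (nat_lit 0)]) (PF.cons (PF.leaf (nat_lit 1242409) (nat_lit 194962) (nat_lit 64280448) (nat_lit 1456778) [(nat_lit 194962), (nat_lit 786699), (nat_lit 0), (nat_lit 0)]) (PF.cons PF.nil PF.nil))))) (PF.cons (PF.cons (PF.leaf (nat_lit 1263149) (nat_lit 800551) (nat_lit 64025832) (nat_lit 1481877) [(nat_lit 0), (nat_lit 800551), (nat_lit 0), (nat_lit 0)]) (PF.cons (PF.leaf (nat_lit 1424790) (nat_lit 206373) (nat_lit 63724882) (nat_lit 1520690) [(nat_lit 206373), (nat_lit 828433), (nat_lit 0), (nat_lit 0)]) (PF.cons PF.nil (PF.cons PF.nil PF.nil)))) (PF.cons (PF.cons (PF.leaf (nat_lit 1794745) (nat_lit 894052) (nat_lit 62809070) (nat_lit 1617586) [(nat_lit 0), (nat_lit 894052), (nat_lit 0), (nat_lit 0)]) (PF.cons PF.nil PF.nil)) (PF.cons PF.nil PF.nil))))) (PF.cons (PF.cons (PF.cons (PF.leaf (nat_lit 1351741) (nat_lit 1522278) (nat_lit 63266078) (nat_lit 1522278) [(nat_lit 0), (nat_lit 0), (nat_lit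 2320456), (nat_lit 0)]) (PF.cons (PF.leaf (nat_lit 1497278) (nat_lit 201396) (nat_lit 62990958) (nat_lit 1556121) [(nat_lit 201396), (nat_lit 0), (nat_lit 2360336), (nat_lit 0)]) (PF.cons (PF.leaf (nat_lit 1662181) (nat_lit 214159)
 (nat_lit 62686995) (nat_lit 1591355) [(nat_lit 214159), (nat_lit 0), (nat_lit 2402143), (nat_lit 0)]) (PF.cons PF.nil (PF.cons PF.nil PF.nil))))) (PF.cons (PF.cons (PF.leaf (nat_lit 1852851) (nat_lit 904787) (nat_lit 62086701) (nat_lit 1646457) [(nat_lit 0), (nat_lit 904787), (nat_lit 2470867), (nat_lit 0)]) (PF.cons (PF.leaf (nat_lit 2031001) (nat_lit 235730) (nat_lit 61753757) (nat_lit 1679548) [(nat_lit 235730), (nat_lit 929399), (nat_lit 2510376), (nat_lit 0)]) (PF.cons PF.nil (PF.cons PF.nil PF.nil)))) (PF.cons (PF.cons (PF.leaf (nat_lit 2420305) (nat_lit 985217) (nat_lit 60769411) (nat_lit 1759884) [(nat_lit 0), (nat_lit 985217), (nat_lit 2609081), (nat_lit 0)]) (PF.cons PF.nil PF.nil)) PF.nil))) (PF.cons (PF.cons (PF.cons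 (PF.leaf (nat_lit 2459188) (nat_lit 1778924) (nat_lit 60049789) (nat_lit 1778924) [(nat_lit 0), (nat_lit 0), (nat_lit 2640049), (nat_lit 0)]) (PF.cons (PF.leaf (nat_lit 2650026) (nat_lit 260596) (nat_lit 59695171) (nat_lit 1807070) [(nat_lit 260596), (nat_lit 0), (nat_lit 2672987), (nat_lit 0)]) (PF.cons PF.nil PF.nil))) (PF.cons (PF.cons (PF.leaf (nat_lit 3051729) (nat_lit 1059523) (nat_lit 58669944) (nat_lit 1873401) [(nat_lit 0), (nat_lit 1059523),
 (nat_lit 2752972), (nat_lit 0)]) PF.nil) PF.nil)) (PF.cons PF.nil (PF.cons PF.nil PF.nil))))) (PF.cons (PF.cons (PF.cons (PF.cons (PF.leaf (nat_lit 2268419) (nat_lit 1714256) (nat_lit 58915495) (nat_lit 1714256) [(nat_lit 0), (nat_lit 0), (nat_lit 0), (nat_lit 6479060)]) (PF.cons (PF.leaf (nat_lit 2426418) (nat_lit 230891) (nat_lit 58626084) (nat_lit 1741767) [(nat_lit 230891), (nat_lit 0), (nat_lit 0), (nat_lit 6510069)]) (PF.cons (PF.leaf (nat_lit 2602688) (nat_lit 243670) (nat_lit 58308993) (nat_lit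 1770065) [(nat_lit 243670), (nat_lit 0), (nat_lit 0), (nat_lit 6542412)]) (PF.cons (PF.leaf (nat_lit 2793269) (nat_lit 255439) (nat_lit 57968607) (nat_lit 1798574) [(nat_lit 255439), (nat_lit 0), (nat_lit 0), (nat_lit 6575312)]) (PF.cons (PF.leaf (nat_lit 2996349) (nat_lit 266395) (nat_lit 57608131) (nat_lit 1826907) [(nat_lit 266395), (nat_lit 0), (nat_lit 0), (nat_lit 6608191)]) (PF.cons PF.nil (PF.cons PF.nil PF.nil))))))) (PF.cons (PF.cons (PF.leaf (nat_lit 2791885) (nat_lit 1005877) (nat_lit 57696324) (nat_lit 1811193) [(nat_lit 0), (nat_lit 1005877), (nat_lit 0), (nat_lit 6595417)]) (PF.cons (PF.leaf (nat_lit 2979372) (nat_lit 262986) (nat_lit 57356690) (nat_lit 1837192)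
 [(nat_lit 262986), (nat_lit 1026870), (nat_lit 0), (nat_lit 6625072)]) (PF.cons (PF.leaf (nat_lit 3181471) (nat_lit 273695) (nat_lit 56995871) (nat_lit 1863212) [(nat_lit 273695), (nat_lit 1047580), (nat_lit 0), (nat_lit 6654757)]) (PF.cons (PF.leaf (nat_lit 3395251) (nat_lit 283688) (nat_lit 56616995) (nat_lit 1888935) [(nat_lit 283688), (nat_lit 1067825), (nat_lit 0), (nat_lit 6683990)]) (PF.cons PF.nil PF.nil))))) (PF.cons (PF.cons (PF.leaf (nat_lit 3370249) (nat_lit 1071406) (nat_lit 56371722) (nat_lit 1897157) [(nat_lit 0), (nat_lit 1071406), (nat_lit 0), (nat_lit 6697118)]) (PF.cons (PF.leaf (nat_lit 3581253) (nat_lit 290054) (nat_lit 55994547) (nat_lit 1920773) [(nat_lit 290054), (nat_lit 1090137), (nat_lit 0), (nat_lit 6723162)]) (PF.cons PF.nil (PF.cons PF.nil PF.nil)))) (PF.cons (PF.cons (PF.leaf (nat_lit 3990984) (nat_lit 1127962) (nat_lit 54972753) (nat_lit 1971781) [(nat_lit 0), (nat_lit 1127962), (nat_lit 0), (nat_lit 6780391)]) (PF.cons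 PF.nil PF.nil)) (PF.cons PF.nil PF.nil))))) (PF.cons (PF.cons (PF.cons (PF.leaf (nat_lit 3381881) (nat_lit 1903460) (nat_lit 55688812) (nat_lit 1903460) [(nat_lit 0), (nat_lit 0), (nat_lit 2800875), (nat_lit 6715664)]) (PF.cons
 (PF.leaf (nat_lit 3577905) (nat_lit 282246) (nat_lit 55339008) (nat_lit 1925281) [(nat_lit 282246), (nat_lit 0), (nat_lit 2824738), (nat_lit 6737537)]) (PF.cons (PF.leaf (nat_lit 3787785) (nat_lit 292335) (nat_lit 54969483) (nat_lit 1947003) [(nat_lit 292335), (nat_lit 0), (nat_lit 2848589), (nat_lit 6759065)]) (PF.cons (PF.leaf (nat_lit 4008577) (nat_lit 301643) (nat_lit 54583533) (nat_lit 1968364) [(nat_lit 301643), (nat_lit 0), (nat_lit 2872108), (nat_lit 6779875)]) (PF.cons PF.nil PF.nil))))) (PF.cons (PF.cons (PF.leaf (nat_lit 3974297) (nat_lit 1124557) (nat_lit 54342884) (nat_lit 1973979) [(nat_lit 0), (nat_lit 1124557), (nat_lit 2879877), (nat_lit 6787514)]) (PF.cons (PF.leaf (nat_lit 4191479) (nat_lit 306721) (nat_lit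 53961124) (nat_lit 1993522) [(nat_lit 306721), (nat_lit 1140671), (nat_lit 2901255), (nat_lit 6805516)]) (PF.cons PF.nil (PF.cons PF.nil PF.nil)))) (PF.cons (PF.cons (PF.leaf (nat_lit 4602104) (nat_lit 1171979) (nat_lit 52941636) (nat_lit 2034319) [(nat_lit 0), (nat_lit 1171979), (nat_lit 2947015), (nat_lit 6841882)]) (PF.cons PF.nil PF.nil)) PF.nil))) (PF.cons (PF.cons (PF.cons (PF.leaf (nat_lit 4569471) (nat_lit 2032690) (nat_lit 52341793) (nat_lit 2032690)
 [(nat_lit 0), (nat_lit 0), (nat_lit 2947921), (nat_lit 6838485)]) (PF.cons (PF.leaf (nat_lit 4790695) (nat_lit 320346) (nat_lit 51960782) (nat_lit 2048691) [(nat_lit 320346), (nat_lit 0), (nat_lit 2964773), (nat_lit 6849445)]) PF.nil)) (PF.cons PF.nil PF.nil)) (PF.cons PF.nil (PF.cons PF.nil PF.nil))))) (PF.cons (PF.cons (PF.cons (PF.cons (PF.leaf (nat_lit 4231901) (nat_lit 1973016) (nat_lit 51613766) (nat_lit 1973016) [(nat_lit 0), (nat_lit 0), (nat_lit 0), (nat_lit 6761015)]) (PF.cons (PF.leaf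 (nat_lit 4428994) (nat_lit 295854) (nat_lit 51280593) (nat_lit 1989977) [(nat_lit 295854), (nat_lit 0), (nat_lit 0), (nat_lit 6771193)]) (PF.cons (PF.leaf (nat_lit 4638978) (nat_lit 305361) (nat_lit 50929953) (nat_lit 2006676) [(nat_lit 305361), (nat_lit 0), (nat_lit 0), (nat_lit 6780730)]) (PF.cons (PF.leaf (nat_lit 4858974) (nat_lit 313999) (nat_lit 50565076) (nat_lit 2022918) [(nat_lit 313999), (nat_lit 0), (nat_lit 0), (nat_lit 6789409)]) (PF.cons PF.nil PF.nil))))) (PF.cons (PF.cons (PF.leaf (nat_lit 4814986) (nat_lit 1160990) (nat_lit 50342261) (nat_lit 2025515) [(nat_lit 0), (nat_lit 1160990), (nat_lit 0), (nat_lit 6790022)]) (PF.cons (PF.leaf (nat_lit 5030622) (nat_lit 317727)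
 (nat_lit 49983233) (nat_lit 2040237) [(nat_lit 317727), (nat_lit 1174261), (nat_lit 0), (nat_lit 6796676)]) (PF.cons (PF.leaf (nat_lit 5256394) (nat_lit 325501) (nat_lit 49611635) (nat_lit 2054479) [(nat_lit 325501), (nat_lit 1186990), (nat_lit 0), (nat_lit 6802351)]) (PF.cons PF.nil PF.nil)))) (PF.cons (PF.cons (PF.leaf (nat_lit 5426502) (nat_lit 1198276) (nat_lit 49033448) (nat_lit 2068950) [(nat_lit 0), (nat_lit 1198276), (nat_lit 0), (nat_lit 6804930)]) (PF.cons PF.nil PF.nil)) PF.nil))) (PF.cons (PF.cons (PF.cons (PF.leaf (nat_lit 5374918) (nat_lit 2062279) (nat_lit 48492956) (nat_lit 2062279) [(nat_lit 0), (nat_lit 0), (nat_lit 2975825), (nat_lit 6788875)]) (PF.cons (PF.leaf (nat_lit 5592693) (nat_lit 327794) (nat_lit 48139070) (nat_lit 2074127) [(nat_lit 327794), (nat_lit 0), (nat_lit 2987066), (nat_lit 6790376)]) (PF.cons PF.nil PF.nil))) (PF.cons (PF.cons (PF.leaf (nat_lit 5984146) (nat_lit 1220520) (nat_lit 47212628) (nat_lit 2095989) [(nat_lit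 0), (nat_lit 1220520), (nat_lit 3007819), (nat_lit 6785927)]) PF.nil) PF.nil)) (PF.cons PF.nil PF.nil))) (PF.cons (PF.cons (PF.cons (PF.cons (PF.leaf (nat_lit 6106262) (nat_lit 2064751) (nat_lit 45018572) (nat_lit 2064751)
 [(nat_lit 0), (nat_lit 0), (nat_lit 0), (nat_lit 6675162)]) (PF.cons (PF.leaf (nat_lit 6319238) (nat_lit 330810) (nat_lit 44693663) (nat_lit 2073482) [(nat_lit 330810), (nat_lit 0), (nat_lit 0), (nat_lit 6670285)]) PF.nil)) (PF.cons PF.nil PF.nil)) (PF.cons PF.nil PF.nil)) (PF.cons PF.nil (PF.cons PF.nil (PF.cons PF.nil (PF.cons PF.nil PF.nil))))))))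

def p15_5_0_0 : pfC (piC [(nat_lit 41997052), (nat_lit 28134109), (nat_lit 20714735), (nat_lit 13943267)] (nat_lit 30159351)) p15_5_0 (nat_lit 4) (nat_lit 0) (nat_lit 1) = true := by decide +kernel
def p15_5_0_1 : pfC (piC [(nat_lit 41997052), (nat_lit 28134109), (nat_lit 20714735), (nat_lit 13943267)] (nat_lit 30159351)) p15_5_0 (nat_lit 4) (nat_lit 1) (nat_lit 2) = true := by decide +kernel
def p15_5_0_2 : pfC (piC [(nat_lit 41997052), (nat_lit 28134109), (nat_lit 20714735), (nat_lit 13943267)] (nat_lit 30159351)) p15_5_0 (nat_lit 4) (nat_lit 2) (nat_lit 3) = true := by decide +kernel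
def p15_5_0_3 : pfC (piC [(nat_lit 41997052), (nat_lit 28134109), (nat_lit 20714735), (nat_lit 13943267)] (nat_lit 30159351)) p15_5_0 (nat_lit 4) (nat_lit 3) (nat_lit 4) = true := by decide +kernel
def p15_5_0_4 : pfC (piC [(nat_lit 41997052), (nat_lit 28134109), (nat_lit 20714735), (nat_lit 13943267)] (nat_lit 30159351)) p15_5_0 (nat_lit 4) (nat_lit 4) (nat_lit 5) = true := by decide +kernel
def p15_5_0_5 : pfC (piC [(nat_lit 41997052), (nat_lit 28134109), (nat_lit 20714735), (nat_lit 13943267)] (nat_lit 30159351)) p15_5_0 (nat_lit 4) (nat_lit 5) (nat_lit 6) = true := by decide +kernel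
def p15_5_0_6 : pfC (piC [(nat_lit 41997052), (nat_lit 28134109), (nat_lit 20714735), (nat_lit 13943267)] (nat_lit 30159351)) p15_5_0 (nat_lit 4) (nat_lit 6) (nat_lit 7) = true := by decide +kernel
def p15_5_0_7 : pfC (piC [(nat_lit 41997052), (nat_lit 28134109), (nat_lit 20714735), (nat_lit 13943267)] (nat_lit 30159351)) p15_5_0 (nat_lit 4) (nat_lit 7) (nat_lit 8) = true := by decide +kernel
def p15_5_0_8 : pfC (piC [(nat_lit 41997052), (nat_lit 28134109), (nat_lit 20714735), (nat_lit 13943267)] (nat_lit 30159351)) p15_5_0 (nat_lit 4) (nat_lit 8) (nat_lit 9) = true := by decide +kernel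
def p15_5_0_9 : pfC (piC [(nat_lit 41997052), (nat_lit 28134109), (nat_lit 20714735), (nat_lit 13943267)] (nat_lit 30159351)) p15_5_0 (nat_lit 4) (nat_lit 9) (nat_lit 10) = true := by decide +kernel
def p15_5_0_10 : pfC (piC [(nat_lit 41997052), (nat_lit 28134109), (nat_lit 20714735), (nat_lit 13943267)] (nat_lit 30159351)) p15_5_0 (nat_lit 4) (nat_lit 10) (nat_lit 11) = true := by decide +kernel
def p15_5_0_11 : pfC (piC [(nat_lit 41997052), (nat_lit 28134109), (nat_lit 20714735), (nat_lit 13943267)] (nat_lit 30159351)) p15_5_0 (nat_lit 4) (nat_lit 11) (nat_lit 12) = true := by decide +kernel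
def p15_5_0_12 : pfC (piC [(nat_lit 41997052), (nat_lit 28134109), (nat_lit 20714735), (nat_lit 13943267)] (nat_lit 30159351)) p15_5_0 (nat_lit 4) (nat_lit 12) (nat_lit 13) = true := by decide +kernel
def p15_5_0_13 : pfC (piC [(nat_lit 41997052), (nat_lit 28134109), (nat_lit 20714735), (nat_lit 13943267)] (nat_lit 30159351)) p15_5_0 (nat_lit 4) (nat_lit 13) (nat_lit 14) = true := by decide +kernel
def p15_5_0_14 : pfC (piC [(nat_lit 41997052), (nat_lit 28134109), (nat_lit 20714735), (nat_lit 13943267)] (nat_lit 30159351)) p15_5_0 (nat_lit 4) (nat_lit 14) (nat_lit 15) = true := by decide +kernel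
def p15_5_0_15 : pfC (piC [(nat_lit 41997052), (nat_lit 28134109), (nat_lit 20714735), (nat_lit 13943267)] (nat_lit 30159351)) p15_5_0 (nat_lit 4) (nat_lit 15) (nat_lit 16) = true := by decide +kernel
def p15_5_0_16 : pfC (piC [(nat_lit 41997052), (nat_lit 28134109), (nat_lit 20714735), (nat_lit 13943267)] (nat_lit 30159351)) p15_5_0 (nat_lit 4) (nat_lit 16) (nat_lit 17) = true := by decide +kernel
def p15_5_0_17 : pfC (piC [(nat_lit 41997052), (nat_lit 28134109), (nat_lit 20714735), (nat_lit 13943267)] (nat_lit 30159351)) p15_5_0 (nat_lit 4) (nat_lit 17) (nat_lit 18) = true := by decide +kernel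
def p15_5_0_18 : pfC (piC [(nat_lit 41997052), (nat_lit 28134109), (nat_lit 20714735), (nat_lit 13943267)] (nat_lit 30159351)) p15_5_0 (nat_lit 4) (nat_lit 18) (nat_lit 19) = true := by decide +kernel
def p15_5_0_19 : pfC (piC [(nat_lit 41997052), (nat_lit 28134109), (nat_lit 20714735), (nat_lit 13943267)] (nat_lit 30159351)) p15_5_0 (nat_lit 4) (nat_lit 19) (nat_lit 20) = true := by decide +kernel
def p15_5_0_20 : pfC (piC [(nat_lit 41997052), (nat_lit 28134109), (nat_lit 20714735), (nat_lit 13943267)] (nat_lit 30159351)) p15_5_0 (nat_lit 4) (nat_lit 20) (nat_lit 21) = true := by decide +kernel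
def p15_5_0_21 : pfC (piC [(nat_lit 41997052), (nat_lit 28134109), (nat_lit 20714735), (nat_lit 13943267)] (nat_lit 30159351)) p15_5_0 (nat_lit 4) (nat_lit 21) (nat_lit 22) = true := by decide +kernel
def p15_5_0_22 : pfC (piC [(nat_lit 41997052), (nat_lit 28134109), (nat_lit 20714735), (nat_lit 13943267)] (nat_lit 30159351)) p15_5_0 (nat_lit 4) (nat_lit 22) (nat_lit 23) = true := by decide +kernel
def p15_5_0_23 : pfC (piC [(nat_lit 41997052), (nat_lit 28134109), (nat_lit 20714735), (nat_lit 13943267)] (nat_lit 30159351)) p15_5_0 (nat_lit 4) (nat_lit 23) (nat_lit 24) = true := by decide +kernel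
def p15_5_0_24 : pfC (piC [(nat_lit 41997052), (nat_lit 28134109), (nat_lit 20714735), (nat_lit 13943267)] (nat_lit 30159351)) p15_5_0 (nat_lit 4) (nat_lit 24) (nat_lit 25) = true := by decide +kernel
def p15_5_0_25 : pfC (piC [(nat_lit 41997052), (nat_lit 28134109), (nat_lit 20714735), (nat_lit 13943267)] (nat_lit 30159351)) p15_5_0 (nat_lit 4) (nat_lit 25) (nat_lit 26) = true := by decide +kernel
def p15_5_0_26 : pfC (piC [(nat_lit 41997052), (nat_lit 28134109), (nat_lit 20714735), (nat_lit 13943267)] (nat_lit 30159351)) p15_5_0 (nat_lit 4) (nat_lit 26) (nat_lit 27) = true := by decide +kernel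
def p15_5_0_27 : pfC (piC [(nat_lit 41997052), (nat_lit 28134109), (nat_lit 20714735), (nat_lit 13943267)] (nat_lit 30159351)) p15_5_0 (nat_lit 4) (nat_lit 27) (nat_lit 28) = true := by decide +kernel
def p15_5_0_28 : pfC (piC [(nat_lit 41997052), (nat_lit 28134109), (nat_lit 20714735), (nat_lit 13943267)] (nat_lit 30159351)) p15_5_0 (nat_lit 4) (nat_lit 28) (nat_lit 29) = true := by decide +kernel
def p15_5_0_29 : pfC (piC [(nat_lit 41997052), (nat_lit 28134109), (nat_lit 20714735), (nat_lit 13943267)] (nat_lit 30159351)) p15_5_0 (nat_lit 4) (nat_lit 29) (nat_lit 30) = true := by decide +kernel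
def p15_5_0_30 : pfC (piC [(nat_lit 41997052), (nat_lit 28134109), (nat_lit 20714735), (nat_lit 13943267)] (nat_lit 30159351)) p15_5_0 (nat_lit 4) (nat_lit 30) (nat_lit 31) = true := by decide +kernel
def p15_5_0_31 : pfC (piC [(nat_lit 41997052), (nat_lit 28134109), (nat_lit 20714735), (nat_lit 13943267)] (nat_lit 30159351)) p15_5_0 (nat_lit 4) (nat_lit 31) (nat_lit 32) = true := by decide +kernel
def p15_5_0_32 : pfC (piC [(nat_lit 41997052), (nat_lit 28134109), (nat_lit 20714735), (nat_lit 13943267)] (nat_lit 30159351)) p15_5_0 (nat_lit 4) (nat_lit 32) (nat_lit 33) = true := by decide +kernel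
def p15_5_0_33 : pfC (piC [(nat_lit 41997052), (nat_lit 28134109), (nat_lit 20714735), (nat_lit 13943267)] (nat_lit 30159351)) p15_5_0 (nat_lit 4) (nat_lit 33) (nat_lit 34) = true := by decide +kernel
def p15_5_0_34 : pfC (piC [(nat_lit 41997052), (nat_lit 28134109), (nat_lit 20714735), (nat_lit 13943267)] (nat_lit 30159351)) p15_5_0 (nat_lit 4) (nat_lit 34) (nat_lit 35) = true := by decide +kernel
def p15_5_0_35 : pfC (piC [(nat_lit 41997052), (nat_lit 28134109), (nat_lit 20714735), (nat_lit 13943267)] (nat_lit 30159351)) p15_5_0 (nat_lit 4) (nat_lit 35) (nat_lit 36) = true := by decide +kernel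
def p15_5_0_36 : pfC (piC [(nat_lit 41997052), (nat_lit 28134109), (nat_lit 20714735), (nat_lit 13943267)] (nat_lit 30159351)) p15_5_0 (nat_lit 4) (nat_lit 36) (nat_lit 37) = true := by decide +kernel
def p15_5_0_37 : pfC (piC [(nat_lit 41997052), (nat_lit 28134109), (nat_lit 20714735), (nat_lit 13943267)] (nat_lit 30159351)) p15_5_0 (nat_lit 4) (nat_lit 37) (nat_lit 38) = true := by decide +kernel
def p15_5_0_38 : pfC (piC [(nat_lit 41997052), (nat_lit 28134109), (nat_lit 20714735), (nat_lit 13943267)] (nat_lit 30159351)) p15_5_0 (nat_lit 4) (nat_lit 38) (nat_lit 39) = true := by decide +kernel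
def p15_5_0_39 : pfC (piC [(nat_lit 41997052), (nat_lit 28134109), (nat_lit 20714735), (nat_lit 13943267)] (nat_lit 30159351)) p15_5_0 (nat_lit 4) (nat_lit 39) (nat_lit 40) = true := by decide +kernel
def p15_5_0_40 : pfC (piC [(nat_lit 41997052), (nat_lit 28134109), (nat_lit 20714735), (nat_lit 13943267)] (nat_lit 30159351)) p15_5_0 (nat_lit 4) (nat_lit 40) (nat_lit 41) = true := by decide +kernel
def p15_5_0_41 : pfC (piC [(nat_lit 41997052), (nat_lit 28134109), (nat_lit 20714735), (nat_lit 13943267)] (nat_lit 30159351)) p15_5_0 (nat_lit 4) (nat_lit 41) (nat_lit 42) = true := by decide +kernel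
def p15_5_0_42 : pfC (piC [(nat_lit 41997052), (nat_lit 28134109), (nat_lit 20714735), (nat_lit 13943267)] (nat_lit 30159351)) p15_5_0 (nat_lit 4) (nat_lit 42) (nat_lit 43) = true := by decide +kernel
def p15_5_0_43 : pfC (piC [(nat_lit 41997052), (nat_lit 28134109), (nat_lit 20714735), (nat_lit 13943267)] (nat_lit 30159351)) p15_5_0 (nat_lit 4) (nat_lit 43) (nat_lit 44) = true := by decide +kernel
def p15_5_0_44 : pfC (piC [(nat_lit 41997052), (nat_lit 28134109), (nat_lit 20714735), (nat_lit 13943267)] (nat_lit 30159351)) p15_5_0 (nat_lit 4) (nat_lit 44) (nat_lit 45) = true := by decide +kernel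
def p15_5_0_45 : pfC (piC [(nat_lit 41997052), (nat_lit 28134109), (nat_lit 20714735), (nat_lit 13943267)] (nat_lit 30159351)) p15_5_0 (nat_lit 4) (nat_lit 45) (nat_lit 46) = true := by decide +kernel
def p15_5_0_46 : pfC (piC [(nat_lit 41997052), (nat_lit 28134109), (nat_lit 20714735), (nat_lit 13943267)] (nat_lit 30159351)) p15_5_0 (nat_lit 4) (nat_lit 46) (nat_lit 47) = true := by decide +kernel
def p15_5_0_47 : pfC (piC [(nat_lit 41997052), (nat_lit 28134109), (nat_lit 20714735), (nat_lit 13943267)] (nat_lit 30159351)) p15_5_0 (nat_lit 4) (nat_lit 47) (nat_lit 48) = true := by decide +kernel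
def p15_5_0_48 : pfC (piC [(nat_lit 41997052), (nat_lit 28134109), (nat_lit 20714735), (nat_lit 13943267)] (nat_lit 30159351)) p15_5_0 (nat_lit 4) (nat_lit 48) (nat_lit 49) = true := by decide +kernel
def p15_5_0_49 : pfC (piC [(nat_lit 41997052), (nat_lit 28134109), (nat_lit 20714735), (nat_lit 13943267)] (nat_lit 30159351)) p15_5_0 (nat_lit 4) (nat_lit 49) (nat_lit 50) = true := by decide +kernel
def p15_5_0_50 : pfC (piC [(nat_lit 41997052), (nat_lit 28134109), (nat_lit 20714735), (nat_lit 13943267)] (nat_lit 30159351)) p15_5_0 (nat_lit 4) (nat_lit 50) (nat_lit 51) = true := by decide +kernel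
def p15_5_0_51 : pfC (piC [(nat_lit 41997052), (nat_lit 28134109), (nat_lit 20714735), (nat_lit 13943267)] (nat_lit 30159351)) p15_5_0 (nat_lit 4) (nat_lit 51) (nat_lit 52) = true := by decide +kernel
def p15_5_0_52 : pfC (piC [(nat_lit 41997052), (nat_lit 28134109), (nat_lit 20714735), (nat_lit 13943267)] (nat_lit 30159351)) p15_5_0 (nat_lit 4) (nat_lit 52) (nat_lit 53) = true := by decide +kernel
def p15_5_0_53 : pfC (piC [(nat_lit 41997052), (nat_lit 28134109), (nat_lit 20714735), (nat_lit 13943267)] (nat_lit 30159351)) p15_5_0 (nat_lit 4) (nat_lit 53) (nat_lit 54) = true := by decide +kernel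
def p15_5_0_54 : pfC (piC [(nat_lit 41997052), (nat_lit 28134109), (nat_lit 20714735), (nat_lit 13943267)] (nat_lit 30159351)) p15_5_0 (nat_lit 4) (nat_lit 54) (nat_lit 55) = true := by decide +kernel
theorem p15_5_0_T : PfS (PiF n15_5.reverse (nat_lit 30159351)) p15_5_0 (nat_lit 4) [] 0 :=
  pftab_of (los := [(nat_lit 41997052), (nat_lit 28134109), (nat_lit 20714735), (nat_lit 13943267)]) (by decide +kernel) (hi := (nat_lit 55)) (PfP.trans (PfP.trans (PfP.trans (PfP.trans (PfP.trans (PfP.trans (PfP.trans (PfP.trans (PfP.trans (PfP.trans (PfP.trans (PfP.trans (PfP.trans (PfP.trans (PfP.trans (PfP.trans (PfP.trans (PfP.trans (PfP.trans (PfP.trans (PfP.trans (PfP.trans (PfP.trans (PfP.trans (PfP.trans (PfP.trans (PfP.trans (PfP.trans (PfP.trans (PfP.trans (PfP.trans (PfP.trans (PfP.trans (PfP.trans (PfP.trans (PfP.trans (PfP.trans (PfP.trans (PfP.trans (PfP.trans (PfP.trans (PfP.trans (PfP.trans (PfP.trans (PfP.trans (PfP.trans (PfP.trans (PfP.trans (PfP.trans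 (PfP.trans (PfP.trans (PfP.trans (PfP.trans (PfP.trans (pfC_sound p15_5_0_0) (pfC_sound p15_5_0_1)) (pfC_sound p15_5_0_2)) (pfC_sound p15_5_0_3)) (pfC_sound p15_5_0_4)) (pfC_sound p15_5_0_5)) (pfC_sound p15_5_0_6)) (pfC_sound p15_5_0_7)) (pfC_sound p15_5_0_8)) (pfC_sound p15_5_0_9)) (pfC_sound p15_5_0_10)) (pfC_sound p15_5_0_11)) (pfC_sound p15_5_0_12)) (pfC_sound p15_5_0_13)) (pfC_sound p15_5_0_14)) (pfC_sound p15_5_0_15)) (pfC_sound p15_5_0_16)) (pfC_sound p15_5_0_17)) (pfC_sound p15_5_0_18)) (pfC_sound p15_5_0_19)) (pfC_sound p15_5_0_20)) (pfC_sound p15_5_0_21)) (pfC_sound p15_5_0_22)) (pfC_sound p15_5_0_23)) (pfC_sound p15_5_0_24)) (pfC_sound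
 p15_5_0_25)) (pfC_sound p15_5_0_26)) (pfC_sound p15_5_0_27)) (pfC_sound p15_5_0_28)) (pfC_sound p15_5_0_29)) (pfC_sound p15_5_0_30)) (pfC_sound p15_5_0_31)) (pfC_sound p15_5_0_32)) (pfC_sound p15_5_0_33)) (pfC_sound p15_5_0_34)) (pfC_sound p15_5_0_35)) (pfC_sound p15_5_0_36)) (pfC_sound p15_5_0_37)) (pfC_sound p15_5_0_38)) (pfC_sound p15_5_0_39)) (pfC_sound p15_5_0_40)) (pfC_sound p15_5_0_41)) (pfC_sound p15_5_0_42)) (pfC_sound p15_5_0_43)) (pfC_sound p15_5_0_44)) (pfC_sound p15_5_0_45)) (pfC_sound p15_5_0_46)) (pfC_sound p15_5_0_47)) (pfC_sound p15_5_0_48)) (pfC_sound p15_5_0_49)) (pfC_sound p15_5_0_50)) (pfC_sound p15_5_0_51)) (pfC_sound p15_5_0_52)) (pfC_sound p15_5_0_53)) (pfC_sound p15_5_0_54)) (by decide +kernel)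

def z15_5_0 : zOK yB15_5 (nat_lit 0) (nat_lit 0) (nat_lit 400) (nat_lit 30159351) (nat_lit 10078581) = true := by decide +kernel
def g15_5_0 : gOK yB15_5.x P15_5 (nat_lit 1435) (q15_5 :: r15_5) (nat_lit 0) (nat_lit 0) (nat_lit 1) (nat_lit 400) (nat_lit 0) (nat_lit 11000000) (nat_lit 12712500) (nat_lit 12712500) [(nat_lit 800), (nat_lit 1400), (nat_lit 1530)] = true := by decide +kernel
def v15_5_0 : ivC P15_5 s15_5 w15_5 n15_5 (nat_lit 4) (nat_lit 5560) (nat_lit 0) (nat_lit 0) f128_1_0 f136_1_0 (nat_lit 1) (nat_lit 400) f128_1_400 f136_1_400 (nat_lit 30159351) (nat_lit 10078581) p15_5_0 = true := by decide +kernel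
def p15_5_1 : PF := (PF.cons (PF.cons (PF.cons (PF.cons (PF.leaf (nat_lit 2200795) (nat_lit 10757234) (nat_lit 56351578) (nat_lit 10757234) [(nat_lit 0), (nat_lit 0), (nat_lit 0), (nat_lit 0)]) (PF.cons (PF.leaf (nat_lit 2314862) (nat_lit 185596) (nat_lit 56154267) (nat_lit 10768949) [(nat_lit 185596), (nat_lit 0), (nat_lit 0), (nat_lit 0)]) (PF.cons (PF.leaf (nat_lit 2452897) (nat_lit 202152) (nat_lit 55922678) (nat_lit 10781829) [(nat_lit 202152), (nat_lit 0), (nat_lit 0), (nat_lit 0)]) (PF.cons (PF.leaf (nat_lit 2608305) (nat_lit 216979) (nat_lit 55662664) (nat_lit 10795209) [(nat_lit 216979), (nat_lit 0), (nat_lit 0), (nat_lit 0)]) (PF.cons PF.nil PF.nil))))) (PF.cons (PF.cons (PF.leaf (nat_lit 2633034) (nat_lit 921212) (nat_lit 55382614) (nat_lit 10804985) [(nat_lit 0), (nat_lit 921212), (nat_lit 0), (nat_lit 0)]) (PF.cons (PF.leaf (nat_lit 2784518) (nat_lit 226442) (nat_lit 55121508) (nat_lit 10816084) [(nat_lit 226442), (nat_lit 944776), (nat_lit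 0), (nat_lit 0)]) (PF.cons (PF.leaf (nat_lit 2954189) (nat_lit 239463) (nat_lit 54834603) (nat_lit 10827068) [(nat_lit 239463), (nat_lit 968212), (nat_lit 0), (nat_lit 0)]) (PF.cons PF.nil PF.nil)))) (PF.cons (PF.cons (PF.leaf (nat_lit 3134804)
 (nat_lit 996752) (nat_lit 54273797) (nat_lit 10841509) [(nat_lit 0), (nat_lit 996752), (nat_lit 0), (nat_lit 0)]) (PF.cons PF.nil PF.nil)) (PF.cons PF.nil (PF.cons PF.nil PF.nil))))) (PF.cons (PF.cons (PF.cons (PF.leaf (nat_lit 3172388) (nat_lit 2695819) (nat_lit 53577787) (nat_lit 10835206) [(nat_lit 0), (nat_lit 0), (nat_lit 2695819), (nat_lit 0)]) (PF.cons (PF.leaf (nat_lit 3334263) (nat_lit 247529) (nat_lit 53302486) (nat_lit 10839949) [(nat_lit 247529), (nat_lit 0), (nat_lit 2718846), (nat_lit 0)]) (PF.cons PF.nil (PF.cons PF.nil PF.nil)))) (PF.cons (PF.cons (PF.leaf (nat_lit 3693991) (nat_lit 1055179) (nat_lit 52432025) (nat_lit 10844993) [(nat_lit 0), (nat_lit 1055179), (nat_lit 2776614), (nat_lit 0)])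 (PF.cons PF.nil PF.nil)) (PF.cons PF.nil PF.nil))) (PF.cons (PF.cons (PF.cons (PF.leaf (nat_lit 4250093) (nat_lit 2848069) (nat_lit 50602936) (nat_lit 10809737) [(nat_lit 0), (nat_lit 0), (nat_lit 2848069), (nat_lit 0)]) (PF.cons PF.nil PF.nil)) (PF.cons PF.nil PF.nil)) (PF.cons PF.nil (PF.cons PF.nil PF.nil))))) (PF.cons (PF.cons (PF.cons (PF.cons (PF.leaf (nat_lit 3967612) (nat_lit 6605984) (nat_lit 49798486) (nat_lit 10704342) [(nat_lit 0), (nat_lit 0), (nat_lit 0),
 (nat_lit 6605984)]) (PF.cons (PF.leaf (nat_lit 4132432) (nat_lit 260838) (nat_lit 49533993) (nat_lit 10699064) [(nat_lit 260838), (nat_lit 0), (nat_lit 0), (nat_lit 6614917)]) (PF.cons (PF.leaf (nat_lit 4313977) (nat_lit 272907) (nat_lit 49246867) (nat_lit 10692438) [(nat_lit 272907), (nat_lit 0), (nat_lit 0), (nat_lit 6623692)]) (PF.cons (PF.leaf (nat_lit 4508003) (nat_lit 283648) (nat_lit 48941467) (nat_lit 10684388) [(nat_lit 283648), (nat_lit 0), (nat_lit 0), (nat_lit 6632011)]) (PF.cons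 PF.nil PF.nil))))) (PF.cons (PF.cons (PF.leaf (nat_lit 4487255) (nat_lit 1092741) (nat_lit 48708124) (nat_lit 10674419) [(nat_lit 0), (nat_lit 1092741), (nat_lit 0), (nat_lit 6633527)]) (PF.cons (PF.leaf (nat_lit 4676372) (nat_lit 288257) (nat_lit 48407668) (nat_lit 10664761) [(nat_lit 288257), (nat_lit 1108094), (nat_lit 0), (nat_lit 6640030)]) (PF.cons PF.nil (PF.cons PF.nil PF.nil)))) (PF.cons (PF.cons (PF.leaf (nat_lit 5045860) (nat_lit 1136683) (nat_lit 47556674) (nat_lit 10629223) [(nat_lit 0), (nat_lit 1136683), (nat_lit 0), (nat_lit 6649546)]) (PF.cons PF.nil PF.nil)) PF.nil))) (PF.cons (PF.cons (PF.cons (PF.leaf (nat_lit 5016792) (nat_lit 2877841) (nat_lit 47009421) (nat_lit 10587638)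
 [(nat_lit 0), (nat_lit 0), (nat_lit 2877841), (nat_lit 6633911)]) (PF.cons (PF.leaf (nat_lit 5209721) (nat_lit 299882) (nat_lit 46709766) (nat_lit 10573118) [(nat_lit 299882), (nat_lit 0), (nat_lit 2890024), (nat_lit 6636021)]) PF.nil)) (PF.cons PF.nil PF.nil)) (PF.cons PF.nil PF.nil))) (PF.cons (PF.cons (PF.cons (PF.cons (PF.leaf (nat_lit 5721851) (nat_lit 6525178) (nat_lit 43753814) (nat_lit 10304641) [(nat_lit 0), (nat_lit 0), (nat_lit 0), (nat_lit 6525178)]) (PF.cons (PF.leaf (nat_lit 5912082) (nat_lit 303775) (nat_lit 43476764) (nat_lit 10284519) [(nat_lit 303775), (nat_lit 0), (nat_lit 0), (nat_lit 6521876)]) (PF.cons PF.nil PF.nil))) (PF.cons (PF.cons (PF.leaf (nat_lit 6267200) (nat_lit 1166254) (nat_lit 42708218) (nat_lit 10222437) [(nat_lit 0), (nat_lit 1166254), (nat_lit 0), (nat_lit 6505951)]) PF.nil) PF.nil)) (PF.cons PF.nil PF.nil)) (PF.cons PF.nil (PF.cons PF.nil (PF.cons PF.nil PF.nil))))))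

def p15_5_1_0 : pfC (piC [(nat_lit 41997052), (nat_lit 28134109), (nat_lit 20714735), (nat_lit 13943267)] (nat_lit 10078581)) p15_5_1 (nat_lit 4) (nat_lit 0) (nat_lit 1) = true := by decide +kernel
def p15_5_1_1 : pfC (piC [(nat_lit 41997052), (nat_lit 28134109), (nat_lit 20714735), (nat_lit 13943267)] (nat_lit 10078581)) p15_5_1 (nat_lit 4) (nat_lit 1) (nat_lit 2) = true := by decide +kernel
def p15_5_1_2 : pfC (piC [(nat_lit 41997052), (nat_lit 28134109), (nat_lit 20714735), (nat_lit 13943267)] (nat_lit 10078581)) p15_5_1 (nat_lit 4) (nat_lit 2) (nat_lit 3) = true := by decide +kernel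
def p15_5_1_3 : pfC (piC [(nat_lit 41997052), (nat_lit 28134109), (nat_lit 20714735), (nat_lit 13943267)] (nat_lit 10078581)) p15_5_1 (nat_lit 4) (nat_lit 3) (nat_lit 4) = true := by decide +kernel
def p15_5_1_4 : pfC (piC [(nat_lit 41997052), (nat_lit 28134109), (nat_lit 20714735), (nat_lit 13943267)] (nat_lit 10078581)) p15_5_1 (nat_lit 4) (nat_lit 4) (nat_lit 5) = true := by decide +kernel
def p15_5_1_5 : pfC (piC [(nat_lit 41997052), (nat_lit 28134109), (nat_lit 20714735), (nat_lit 13943267)] (nat_lit 10078581)) p15_5_1 (nat_lit 4) (nat_lit 5) (nat_lit 6) = true := by decide +kernel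
def p15_5_1_6 : pfC (piC [(nat_lit 41997052), (nat_lit 28134109), (nat_lit 20714735), (nat_lit 13943267)] (nat_lit 10078581)) p15_5_1 (nat_lit 4) (nat_lit 6) (nat_lit 7) = true := by decide +kernel
def p15_5_1_7 : pfC (piC [(nat_lit 41997052), (nat_lit 28134109), (nat_lit 20714735), (nat_lit 13943267)] (nat_lit 10078581)) p15_5_1 (nat_lit 4) (nat_lit 7) (nat_lit 8) = true := by decide +kernel
def p15_5_1_8 : pfC (piC [(nat_lit 41997052), (nat_lit 28134109), (nat_lit 20714735), (nat_lit 13943267)] (nat_lit 10078581)) p15_5_1 (nat_lit 4) (nat_lit 8) (nat_lit 9) = true := by decide +kernel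
def p15_5_1_9 : pfC (piC [(nat_lit 41997052), (nat_lit 28134109), (nat_lit 20714735), (nat_lit 13943267)] (nat_lit 10078581)) p15_5_1 (nat_lit 4) (nat_lit 9) (nat_lit 10) = true := by decide +kernel
def p15_5_1_10 : pfC (piC [(nat_lit 41997052), (nat_lit 28134109), (nat_lit 20714735), (nat_lit 13943267)] (nat_lit 10078581)) p15_5_1 (nat_lit 4) (nat_lit 10) (nat_lit 11) = true := by decide +kernel
def p15_5_1_11 : pfC (piC [(nat_lit 41997052), (nat_lit 28134109), (nat_lit 20714735), (nat_lit 13943267)] (nat_lit 10078581)) p15_5_1 (nat_lit 4) (nat_lit 11) (nat_lit 12) = true := by decide +kernel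
def p15_5_1_12 : pfC (piC [(nat_lit 41997052), (nat_lit 28134109), (nat_lit 20714735), (nat_lit 13943267)] (nat_lit 10078581)) p15_5_1 (nat_lit 4) (nat_lit 12) (nat_lit 13) = true := by decide +kernel
def p15_5_1_13 : pfC (piC [(nat_lit 41997052), (nat_lit 28134109), (nat_lit 20714735), (nat_lit 13943267)] (nat_lit 10078581)) p15_5_1 (nat_lit 4) (nat_lit 13) (nat_lit 14) = true := by decide +kernel
def p15_5_1_14 : pfC (piC [(nat_lit 41997052), (nat_lit 28134109), (nat_lit 20714735), (nat_lit 13943267)] (nat_lit 10078581)) p15_5_1 (nat_lit 4) (nat_lit 14) (nat_lit 15) = true := by decide +kernel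
def p15_5_1_15 : pfC (piC [(nat_lit 41997052), (nat_lit 28134109), (nat_lit 20714735), (nat_lit 13943267)] (nat_lit 10078581)) p15_5_1 (nat_lit 4) (nat_lit 15) (nat_lit 16) = true := by decide +kernel
def p15_5_1_16 : pfC (piC [(nat_lit 41997052), (nat_lit 28134109), (nat_lit 20714735), (nat_lit 13943267)] (nat_lit 10078581)) p15_5_1 (nat_lit 4) (nat_lit 16) (nat_lit 17) = true := by decide +kernel
def p15_5_1_17 : pfC (piC [(nat_lit 41997052), (nat_lit 28134109), (nat_lit 20714735), (nat_lit 13943267)] (nat_lit 10078581)) p15_5_1 (nat_lit 4) (nat_lit 17) (nat_lit 18) = true := by decide +kernel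
def p15_5_1_18 : pfC (piC [(nat_lit 41997052), (nat_lit 28134109), (nat_lit 20714735), (nat_lit 13943267)] (nat_lit 10078581)) p15_5_1 (nat_lit 4) (nat_lit 18) (nat_lit 19) = true := by decide +kernel
def p15_5_1_19 : pfC (piC [(nat_lit 41997052), (nat_lit 28134109), (nat_lit 20714735), (nat_lit 13943267)] (nat_lit 10078581)) p15_5_1 (nat_lit 4) (nat_lit 19) (nat_lit 20) = true := by decide +kernel
def p15_5_1_20 : pfC (piC [(nat_lit 41997052), (nat_lit 28134109), (nat_lit 20714735), (nat_lit 13943267)] (nat_lit 10078581)) p15_5_1 (nat_lit 4) (nat_lit 20) (nat_lit 21) = true := by decide +kernel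
def p15_5_1_21 : pfC (piC [(nat_lit 41997052), (nat_lit 28134109), (nat_lit 20714735), (nat_lit 13943267)] (nat_lit 10078581)) p15_5_1 (nat_lit 4) (nat_lit 21) (nat_lit 22) = true := by decide +kernel
def p15_5_1_22 : pfC (piC [(nat_lit 41997052), (nat_lit 28134109), (nat_lit 20714735), (nat_lit 13943267)] (nat_lit 10078581)) p15_5_1 (nat_lit 4) (nat_lit 22) (nat_lit 23) = true := by decide +kernel
def p15_5_1_23 : pfC (piC [(nat_lit 41997052), (nat_lit 28134109), (nat_lit 20714735), (nat_lit 13943267)] (nat_lit 10078581)) p15_5_1 (nat_lit 4) (nat_lit 23) (nat_lit 24) = true := by decide +kernel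
theorem p15_5_1_T : PfS (PiF n15_5.reverse (nat_lit 10078581)) p15_5_1 (nat_lit 4) [] 0 :=
  pftab_of (los := [(nat_lit 41997052), (nat_lit 28134109), (nat_lit 20714735), (nat_lit 13943267)]) (by decide +kernel) (hi := (nat_lit 24)) (PfP.trans (PfP.trans (PfP.trans (PfP.trans (PfP.trans (PfP.trans (PfP.trans (PfP.trans (PfP.trans (PfP.trans (PfP.trans (PfP.trans (PfP.trans (PfP.trans (PfP.trans (PfP.trans (PfP.trans (PfP.trans (PfP.trans (PfP.trans (PfP.trans (PfP.trans (PfP.trans (pfC_sound p15_5_1_0) (pfC_sound p15_5_1_1)) (pfC_sound p15_5_1_2)) (pfC_sound p15_5_1_3)) (pfC_sound p15_5_1_4)) (pfC_sound p15_5_1_5)) (pfC_sound p15_5_1_6)) (pfC_sound p15_5_1_7)) (pfC_sound p15_5_1_8)) (pfC_sound p15_5_1_9)) (pfC_sound p15_5_1_10)) (pfC_sound p15_5_1_11)) (pfC_sound p15_5_1_12)) (pfC_sound p15_5_1_13)) (pfC_sound p15_5_1_14)) (pfC_sound p15_5_1_15)) (pfC_sound p15_5_1_16)) (pfC_sound p15_5_1_17)) (pfC_sound p15_5_1_18)) (pfC_sound p15_5_1_19)) (pfC_sound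 p15_5_1_20)) (pfC_sound p15_5_1_21)) (pfC_sound p15_5_1_22)) (pfC_sound p15_5_1_23)) (by decide +kernel)

def z15_5_1 : zOK yB15_5 (nat_lit 1) (nat_lit 400) (nat_lit 600) (nat_lit 10078581) (nat_lit 6481740) = true := by decide +kernel
def g15_5_1 : gOK yB15_5.x P15_5 (nat_lit 1435) (q15_5 :: r15_5) (nat_lit 1) (nat_lit 400) (nat_lit 2) (nat_lit 600) (nat_lit 11000000) (nat_lit 17850000) (nat_lit 12712500) (nat_lit 12712500) [(nat_lit 800), (nat_lit 1040)] = true := by decide +kernel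
def v15_5_1 : ivC P15_5 s15_5 w15_5 n15_5 (nat_lit 4) (nat_lit 5160) (nat_lit 1) (nat_lit 400) f128_1_400 f136_1_400 (nat_lit 2) (nat_lit 600) f128_1_600 f136_1_600 (nat_lit 10078581) (nat_lit 6481740) p15_5_1 = true := by decide +kernel
def p15_5_2 : PF := (PF.cons (PF.cons (PF.cons (PF.cons (PF.leaf (nat_lit 2796410) (nat_lit 16591957) (nat_lit 50516855) (nat_lit 16591957) [(nat_lit 0), (nat_lit 0), (nat_lit 0), (nat_lit 0)]) (PF.cons (PF.leaf (nat_lit 2907487) (nat_lit 185071) (nat_lit 50346659) (nat_lit 16577081) [(nat_lit 185071), (nat_lit 0), (nat_lit 0), (nat_lit 0)]) (PF.cons (PF.leaf (nat_lit 3041761) (nat_lit 201304) (nat_lit 50147111) (nat_lit 16559093) [(nat_lit 201304), (nat_lit 0), (nat_lit 0), (nat_lit 0)]) (PF.cons (PF.leaf (nat_lit 3192628) (nat_lit 215748) (nat_lit 49923331) (nat_lit 16538236) [(nat_lit 215748), (nat_lit 0), (nat_lit 0), (nat_lit 0)]) (PF.cons (PF.leaf (nat_lit 3357701) (nat_lit 228816) (nat_lit 49678904) (nat_lit 16514643)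 [(nat_lit 228816), (nat_lit 0), (nat_lit 0), (nat_lit 0)]) (PF.cons PF.nil (PF.cons PF.nil PF.nil))))))) (PF.cons (PF.cons (PF.leaf (nat_lit 3212505) (nat_lit 912409) (nat_lit 49683460) (nat_lit 16512942) [(nat_lit 0), (nat_lit 912409), (nat_lit 0), (nat_lit 0)]) (PF.cons (PF.leaf (nat_lit 3359014) (nat_lit 224485) (nat_lit 49459285) (nat_lit 16490538) [(nat_lit 224485), (nat_lit 934503), (nat_lit 0), (nat_lit 0)]) (PF.cons (PF.leaf (nat_lit 3522768) (nat_lit 237048) (nat_lit
 49213230) (nat_lit 16465158) [(nat_lit 237048), (nat_lit 956328), (nat_lit 0), (nat_lit 0)]) (PF.cons (PF.leaf (nat_lit 3699805) (nat_lit 248498) (nat_lit 48948796) (nat_lit 16436974) [(nat_lit 248498), (nat_lit 977546), (nat_lit 0), (nat_lit 0)]) (PF.cons PF.nil PF.nil))))) (PF.cons (PF.cons (PF.leaf (nat_lit 3692542) (nat_lit 981885) (nat_lit 48733907) (nat_lit 16411134) [(nat_lit 0), (nat_lit 981885), (nat_lit 0), (nat_lit 0)]) (PF.cons (PF.leaf (nat_lit 3865912) (nat_lit 255247)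 (nat_lit 48470310) (nat_lit 16381336) [(nat_lit 255247), (nat_lit 1000959), (nat_lit 0), (nat_lit 0)]) (PF.cons PF.nil (PF.cons PF.nil PF.nil)))) (PF.cons (PF.cons (PF.leaf (nat_lit 4220320) (nat_lit 1039323) (nat_lit 47703549) (nat_lit 16287292) [(nat_lit 0), (nat_lit 1039323), (nat_lit 0), (nat_lit 0)]) (PF.cons PF.nil PF.nil)) (PF.cons PF.nil PF.nil))))) (PF.cons (PF.cons (PF.cons (PF.leaf (nat_lit 3717534) (nat_lit 2635136) (nat_lit 48144849) (nat_lit 16328826) [(nat_lit 0), (nat_lit 0), (nat_lit 2635136), (nat_lit 0)]) (PF.cons (PF.leaf (nat_lit 3872939) (nat_lit 243387) (nat_lit 47909889) (nat_lit 16300636) [(nat_lit 243387), (nat_lit 0), (nat_lit 2654899), (nat_lit 0)]) (PF.cons (PF.leaf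
 (nat_lit 4045007) (nat_lit 255271) (nat_lit 47654037) (nat_lit 16269150) [(nat_lit 255271), (nat_lit 0), (nat_lit 2675082), (nat_lit 0)]) (PF.cons PF.nil PF.nil)))) (PF.cons (PF.cons (PF.leaf (nat_lit 4213681) (nat_lit 1031883) (nat_lit 47168956) (nat_lit 16204988) [(nat_lit 0), (nat_lit 1031883), (nat_lit 2702984), (nat_lit 0)]) (PF.cons (PF.leaf (nat_lit 4393783) (nat_lit 271180) (nat_lit 46899176) (nat_lit 16169295) [(nat_lit 271180), (nat_lit 1048171), (nat_lit 2720989), (nat_lit 0)]) PF.nil)) (PF.cons PF.nil PF.nil))) (PF.cons (PF.cons (PF.cons (PF.leaf (nat_lit 4730567) (nat_lit 2757728) (nat_lit 45620315) (nat_lit 15973040) [(nat_lit 0), (nat_lit 0), (nat_lit 2757728), (nat_lit 0)]) (PF.cons (PF.leaf (nat_lit 4915483) (nat_lit 284158) (nat_lit 45348465) (nat_lit 15932288) [(nat_lit 284158), (nat_lit 0), (nat_lit 2771950), (nat_lit 0)]) PF.nil)) (PF.cons PF.nil PF.nil)) (PF.cons PF.nil (PF.cons PF.nil PF.nil))))) (PF.cons (PF.cons (PF.cons (PF.cons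 (PF.leaf (nat_lit 4443337) (nat_lit 6336192) (nat_lit 44960505) (nat_lit 15812115) [(nat_lit 0), (nat_lit 0), (nat_lit 0), (nat_lit 6336192)]) (PF.cons (PF.leaf (nat_lit 4600784) (nat_lit 253776) (nat_lit 44735793) (nat_lit
 15777791) [(nat_lit 253776), (nat_lit 0), (nat_lit 0), (nat_lit 6341451)]) (PF.cons (PF.leaf (nat_lit 4774246) (nat_lit 265300) (nat_lit 44491932) (nat_lit 15739893) [(nat_lit 265300), (nat_lit 0), (nat_lit 0), (nat_lit 6346385)]) (PF.cons (PF.leaf (nat_lit 4959441) (nat_lit 275510) (nat_lit 44232632) (nat_lit 15698864) [(nat_lit 275510), (nat_lit 0), (nat_lit 0), (nat_lit 6350783)]) (PF.cons PF.nil PF.nil))))) (PF.cons (PF.cons (PF.leaf (nat_lit 4936291) (nat_lit 1058811) (nat_lit 44035273) (nat_lit 15665045) [(nat_lit 0), (nat_lit 1058811), (nat_lit 0), (nat_lit 6349682)]) (PF.cons (PF.leaf (nat_lit 5116491) (nat_lit 279595) (nat_lit 43780289) (nat_lit 15623409) [(nat_lit 279595), (nat_lit 1072893), (nat_lit 0), (nat_lit 6352625)])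 (PF.cons (PF.leaf (nat_lit 5308711) (nat_lit 288571) (nat_lit 43511614) (nat_lit 15578771) [(nat_lit 288571), (nat_lit 1086389), (nat_lit 0), (nat_lit 6354893)]) (PF.cons PF.nil PF.nil)))) (PF.cons (PF.cons (PF.leaf (nat_lit 5465018) (nat_lit 1098418) (nat_lit 43059039) (nat_lit 15499742) [(nat_lit 0), (nat_lit 1098418), (nat_lit 0), (nat_lit 6353193)]) (PF.cons PF.nil PF.nil)) PF.nil))) (PF.cons (PF.cons (PF.cons (PF.leaf (nat_lit 5429786) (nat_lit
 2768316) (nat_lit 42598755) (nat_lit 15407683) [(nat_lit 0), (nat_lit 0), (nat_lit 2768316), (nat_lit 6334056)]) (PF.cons (PF.leaf (nat_lit 5613296) (nat_lit 289815) (nat_lit 42344563) (nat_lit 15362418) [(nat_lit 289815), (nat_lit 0), (nat_lit 2778534), (nat_lit 6333481)]) (PF.cons PF.nil PF.nil))) (PF.cons (PF.cons (PF.leaf (nat_lit 5960433) (nat_lit 1120261) (nat_lit 41635184) (nat_lit 15230547) [(nat_lit 0), (nat_lit 1120261), (nat_lit 2797911), (nat_lit 6324908)]) PF.nil) PF.nil)) (PF.cons PF.nil PF.nil)))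 (PF.cons (PF.cons (PF.cons (PF.cons (PF.leaf (nat_lit 6077916) (nat_lit 6213554) (nat_lit 39854715) (nat_lit 14826988) [(nat_lit 0), (nat_lit 0), (nat_lit 0), (nat_lit 6213554)]) (PF.cons (PF.leaf (nat_lit 6258851) (nat_lit 292387) (nat_lit 39619021) (nat_lit 14779462) [(nat_lit 292387), (nat_lit 0), (nat_lit 0), (nat_lit 6208970)]) PF.nil)) (PF.cons PF.nil PF.nil)) (PF.cons PF.nil PF.nil)) (PF.cons PF.nil (PF.cons PF.nil (PF.cons PF.nil PF.nil))))))

def p15_5_2_0 : pfC (piC [(nat_lit 41997052), (nat_lit 28134109), (nat_lit 20714735), (nat_lit 13943267)] (nat_lit 6481740)) p15_5_2 (nat_lit 4) (nat_lit 0) (nat_lit 1) = true := by decide +kernel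
def p15_5_2_1 : pfC (piC [(nat_lit 41997052), (nat_lit 28134109), (nat_lit 20714735), (nat_lit 13943267)] (nat_lit 6481740)) p15_5_2 (nat_lit 4) (nat_lit 1) (nat_lit 2) = true := by decide +kernel
def p15_5_2_2 : pfC (piC [(nat_lit 41997052), (nat_lit 28134109), (nat_lit 20714735), (nat_lit 13943267)] (nat_lit 6481740)) p15_5_2 (nat_lit 4) (nat_lit 2) (nat_lit 3) = true := by decide +kernel
def p15_5_2_3 : pfC (piC [(nat_lit 41997052), (nat_lit 28134109), (nat_lit 20714735), (nat_lit 13943267)] (nat_lit 6481740)) p15_5_2 (nat_lit 4) (nat_lit 3) (nat_lit 4) = true := by decide +kernel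
def p15_5_2_4 : pfC (piC [(nat_lit 41997052), (nat_lit 28134109), (nat_lit 20714735), (nat_lit 13943267)] (nat_lit 6481740)) p15_5_2 (nat_lit 4) (nat_lit 4) (nat_lit 5) = true := by decide +kernel
def p15_5_2_5 : pfC (piC [(nat_lit 41997052), (nat_lit 28134109), (nat_lit 20714735), (nat_lit 13943267)] (nat_lit 6481740)) p15_5_2 (nat_lit 4) (nat_lit 5) (nat_lit 6) = true := by decide +kernel
def p15_5_2_6 : pfC (piC [(nat_lit 41997052), (nat_lit 28134109), (nat_lit 20714735), (nat_lit 13943267)] (nat_lit 6481740)) p15_5_2 (nat_lit 4) (nat_lit 6) (nat_lit 7) = true := by decide +kernel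
def p15_5_2_7 : pfC (piC [(nat_lit 41997052), (nat_lit 28134109), (nat_lit 20714735), (nat_lit 13943267)] (nat_lit 6481740)) p15_5_2 (nat_lit 4) (nat_lit 7) (nat_lit 8) = true := by decide +kernel
def p15_5_2_8 : pfC (piC [(nat_lit 41997052), (nat_lit 28134109), (nat_lit 20714735), (nat_lit 13943267)] (nat_lit 6481740)) p15_5_2 (nat_lit 4) (nat_lit 8) (nat_lit 9) = true := by decide +kernel
def p15_5_2_9 : pfC (piC [(nat_lit 41997052), (nat_lit 28134109), (nat_lit 20714735), (nat_lit 13943267)] (nat_lit 6481740)) p15_5_2 (nat_lit 4) (nat_lit 9) (nat_lit 10) = true := by decide +kernel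
def p15_5_2_10 : pfC (piC [(nat_lit 41997052), (nat_lit 28134109), (nat_lit 20714735), (nat_lit 13943267)] (nat_lit 6481740)) p15_5_2 (nat_lit 4) (nat_lit 10) (nat_lit 11) = true := by decide +kernel
def p15_5_2_11 : pfC (piC [(nat_lit 41997052), (nat_lit 28134109), (nat_lit 20714735), (nat_lit 13943267)] (nat_lit 6481740)) p15_5_2 (nat_lit 4) (nat_lit 11) (nat_lit 12) = true := by decide +kernel
def p15_5_2_12 : pfC (piC [(nat_lit 41997052), (nat_lit 28134109), (nat_lit 20714735), (nat_lit 13943267)] (nat_lit 6481740)) p15_5_2 (nat_lit 4) (nat_lit 12) (nat_lit 13) = true := by decide +kernel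
def p15_5_2_13 : pfC (piC [(nat_lit 41997052), (nat_lit 28134109), (nat_lit 20714735), (nat_lit 13943267)] (nat_lit 6481740)) p15_5_2 (nat_lit 4) (nat_lit 13) (nat_lit 14) = true := by decide +kernel
def p15_5_2_14 : pfC (piC [(nat_lit 41997052), (nat_lit 28134109), (nat_lit 20714735), (nat_lit 13943267)] (nat_lit 6481740)) p15_5_2 (nat_lit 4) (nat_lit 14) (nat_lit 15) = true := by decide +kernel
def p15_5_2_15 : pfC (piC [(nat_lit 41997052), (nat_lit 28134109), (nat_lit 20714735), (nat_lit 13943267)] (nat_lit 6481740)) p15_5_2 (nat_lit 4) (nat_lit 15) (nat_lit 16) = true := by decide +kernel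
def p15_5_2_16 : pfC (piC [(nat_lit 41997052), (nat_lit 28134109), (nat_lit 20714735), (nat_lit 13943267)] (nat_lit 6481740)) p15_5_2 (nat_lit 4) (nat_lit 16) (nat_lit 17) = true := by decide +kernel
def p15_5_2_17 : pfC (piC [(nat_lit 41997052), (nat_lit 28134109), (nat_lit 20714735), (nat_lit 13943267)] (nat_lit 6481740)) p15_5_2 (nat_lit 4) (nat_lit 17) (nat_lit 18) = true := by decide +kernel
def p15_5_2_18 : pfC (piC [(nat_lit 41997052), (nat_lit 28134109), (nat_lit 20714735), (nat_lit 13943267)] (nat_lit 6481740)) p15_5_2 (nat_lit 4) (nat_lit 18) (nat_lit 19) = true := by decide +kernel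
def p15_5_2_19 : pfC (piC [(nat_lit 41997052), (nat_lit 28134109), (nat_lit 20714735), (nat_lit 13943267)] (nat_lit 6481740)) p15_5_2 (nat_lit 4) (nat_lit 19) (nat_lit 20) = true := by decide +kernel
def p15_5_2_20 : pfC (piC [(nat_lit 41997052), (nat_lit 28134109), (nat_lit 20714735), (nat_lit 13943267)] (nat_lit 6481740)) p15_5_2 (nat_lit 4) (nat_lit 20) (nat_lit 21) = true := by decide +kernel
def p15_5_2_21 : pfC (piC [(nat_lit 41997052), (nat_lit 28134109), (nat_lit 20714735), (nat_lit 13943267)] (nat_lit 6481740)) p15_5_2 (nat_lit 4) (nat_lit 21) (nat_lit 22) = true := by decide +kernel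
def p15_5_2_22 : pfC (piC [(nat_lit 41997052), (nat_lit 28134109), (nat_lit 20714735), (nat_lit 13943267)] (nat_lit 6481740)) p15_5_2 (nat_lit 4) (nat_lit 22) (nat_lit 23) = true := by decide +kernel
def p15_5_2_23 : pfC (piC [(nat_lit 41997052), (nat_lit 28134109), (nat_lit 20714735), (nat_lit 13943267)] (nat_lit 6481740)) p15_5_2 (nat_lit 4) (nat_lit 23) (nat_lit 24) = true := by decide +kernel
def p15_5_2_24 : pfC (piC [(nat_lit 41997052), (nat_lit 28134109), (nat_lit 20714735), (nat_lit 13943267)] (nat_lit 6481740)) p15_5_2 (nat_lit 4) (nat_lit 24) (nat_lit 25) = true := by decide +kernel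
def p15_5_2_25 : pfC (piC [(nat_lit 41997052), (nat_lit 28134109), (nat_lit 20714735), (nat_lit 13943267)] (nat_lit 6481740)) p15_5_2 (nat_lit 4) (nat_lit 25) (nat_lit 26) = true := by decide +kernel
def p15_5_2_26 : pfC (piC [(nat_lit 41997052), (nat_lit 28134109), (nat_lit 20714735), (nat_lit 13943267)] (nat_lit 6481740)) p15_5_2 (nat_lit 4) (nat_lit 26) (nat_lit 27) = true := by decide +kernel
def p15_5_2_27 : pfC (piC [(nat_lit 41997052), (nat_lit 28134109), (nat_lit 20714735), (nat_lit 13943267)] (nat_lit 6481740)) p15_5_2 (nat_lit 4) (nat_lit 27) (nat_lit 28) = true := by decide +kernel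
def p15_5_2_28 : pfC (piC [(nat_lit 41997052), (nat_lit 28134109), (nat_lit 20714735), (nat_lit 13943267)] (nat_lit 6481740)) p15_5_2 (nat_lit 4) (nat_lit 28) (nat_lit 29) = true := by decide +kernel
def p15_5_2_29 : pfC (piC [(nat_lit 41997052), (nat_lit 28134109), (nat_lit 20714735), (nat_lit 13943267)] (nat_lit 6481740)) p15_5_2 (nat_lit 4) (nat_lit 29) (nat_lit 30) = true := by decide +kernel
def p15_5_2_30 : pfC (piC [(nat_lit 41997052), (nat_lit 28134109), (nat_lit 20714735), (nat_lit 13943267)] (nat_lit 6481740)) p15_5_2 (nat_lit 4) (nat_lit 30) (nat_lit 31) = true := by decide +kernel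
def p15_5_2_31 : pfC (piC [(nat_lit 41997052), (nat_lit 28134109), (nat_lit 20714735), (nat_lit 13943267)] (nat_lit 6481740)) p15_5_2 (nat_lit 4) (nat_lit 31) (nat_lit 32) = true := by decide +kernel
theorem p15_5_2_T : PfS (PiF n15_5.reverse (nat_lit 6481740)) p15_5_2 (nat_lit 4) [] 0 :=
  pftab_of (los := [(nat_lit 41997052), (nat_lit 28134109), (nat_lit 20714735), (nat_lit 13943267)]) (by decide +kernel) (hi := (nat_lit 32)) (PfP.trans (PfP.trans (PfP.trans (PfP.trans (PfP.trans (PfP.trans (PfP.trans (PfP.trans (PfP.trans (PfP.trans (PfP.trans (PfP.trans (PfP.trans (PfP.trans (PfP.trans (PfP.trans (PfP.trans (PfP.trans (PfP.trans (PfP.trans (PfP.trans (PfP.trans (PfP.trans (PfP.trans (PfP.trans (PfP.trans (PfP.trans (PfP.trans (PfP.trans (PfP.trans (PfP.trans (pfC_sound p15_5_2_0) (pfC_sound p15_5_2_1)) (pfC_sound p15_5_2_2)) (pfC_sound p15_5_2_3)) (pfC_sound p15_5_2_4)) (pfC_sound p15_5_2_5)) (pfC_sound p15_5_2_6)) (pfC_sound p15_5_2_7)) (pfC_sound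 p15_5_2_8)) (pfC_sound p15_5_2_9)) (pfC_sound p15_5_2_10)) (pfC_sound p15_5_2_11)) (pfC_sound p15_5_2_12)) (pfC_sound p15_5_2_13)) (pfC_sound p15_5_2_14)) (pfC_sound p15_5_2_15)) (pfC_sound p15_5_2_16)) (pfC_sound p15_5_2_17)) (pfC_sound p15_5_2_18)) (pfC_sound p15_5_2_19)) (pfC_sound p15_5_2_20)) (pfC_sound p15_5_2_21)) (pfC_sound p15_5_2_22)) (pfC_sound p15_5_2_23)) (pfC_sound p15_5_2_24)) (pfC_sound p15_5_2_25)) (pfC_sound p15_5_2_26)) (pfC_sound p15_5_2_27)) (pfC_sound p15_5_2_28)) (pfC_sound p15_5_2_29)) (pfC_sound p15_5_2_30)) (pfC_sound p15_5_2_31)) (by decide +kernel)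

def z15_5_2 : zOK yB15_5 (nat_lit 2) (nat_lit 600) (nat_lit 750) (nat_lit 6481740) (nat_lit 4652153) = true := by decide +kernel
def g15_5_2 : gOK yB15_5.x P15_5 (nat_lit 1435) (q15_5 :: r15_5) (nat_lit 2) (nat_lit 600) (nat_lit 3) (nat_lit 750) (nat_lit 12712500) (nat_lit 12712500) (nat_lit 12712500) (nat_lit 12712500) [(nat_lit 800), (nat_lit 1600)] = true := by decide +kernel
def v15_5_2 : ivC P15_5 s15_5 w15_5 n15_5 (nat_lit 4) (nat_lit 4960) (nat_lit 2) (nat_lit 600) f128_1_600 f136_1_600 (nat_lit 3) (nat_lit 750) f128_1_750 f136_1_750 (nat_lit 6481740) (nat_lit 4652153) p15_5_2 = true := by decide +kernel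
def p15_5_3 : PF := (PF.cons (PF.cons (PF.cons (PF.cons (PF.leaf (nat_lit 3178505) (nat_lit 22291203) (nat_lit 44817609) (nat_lit 22291203) [(nat_lit 0), (nat_lit 0), (nat_lit 0), (nat_lit 0)]) (PF.cons (PF.leaf (nat_lit 3283283) (nat_lit 176639) (nat_lit 44680034) (nat_lit 22252138) [(nat_lit 176639), (nat_lit 0), (nat_lit 0), (nat_lit 0)]) (PF.cons (PF.leaf (nat_lit 3410453) (nat_lit 192047) (nat_lit 44518716) (nat_lit 22206002) [(nat_lit 192047), (nat_lit 0), (nat_lit 0), (nat_lit 0)]) (PF.cons (PF.leaf (nat_lit 3553214) (nat_lit 205728) (nat_lit 44337784) (nat_lit 22153841) [(nat_lit 205728), (nat_lit 0), (nat_lit 0), (nat_lit 0)]) (PF.cons (PF.leaf (nat_lit 3709309) (nat_lit 218080) (nat_lit 44140125) (nat_lit 22096364) [(nat_lit 218080), (nat_lit 0), (nat_lit 0), (nat_lit 0)]) (PF.cons (PF.leaf (nat_lit 3877260) (nat_lit 229357) (nat_lit 43927933) (nat_lit 22034093) [(nat_lit 229357), (nat_lit 0), (nat_lit 0), (nat_lit 0)]) (PF.cons PF.nil (PF.cons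 PF.nil (PF.cons PF.nil PF.nil))))))))) (PF.cons (PF.cons (PF.leaf (nat_lit 3570780) (nat_lit 868457) (nat_lit 44144124) (nat_lit 22096230) [(nat_lit 0), (nat_lit 868457), (nat_lit 0), (nat_lit 0)]) (PF.cons (PF.leaf (nat_lit 3709001) (nat_lit 213849)
 (nat_lit 43962814) (nat_lit 22043034) [(nat_lit 213849), (nat_lit 889114), (nat_lit 0), (nat_lit 0)]) (PF.cons (PF.leaf (nat_lit 3863700) (nat_lit 225713) (nat_lit 43763764) (nat_lit 21984148) [(nat_lit 225713), (nat_lit 909473), (nat_lit 0), (nat_lit 0)]) (PF.cons (PF.leaf (nat_lit 4030741) (nat_lit 236504) (nat_lit 43549791) (nat_lit 21920284) [(nat_lit 236504), (nat_lit 929223), (nat_lit 0), (nat_lit 0)]) (PF.cons (PF.leaf (nat_lit 4208695) (nat_lit 246415) (nat_lit 43322980) (nat_lit 21851959) [(nat_lit 246415), (nat_lit 948210), (nat_lit 0), (nat_lit 0)]) (PF.cons PF.nil (PF.cons PF.nil PF.nil))))))) (PF.cons (PF.cons (PF.leaf (nat_lit 4022610) (nat_lit 932978) (nat_lit 43376191) (nat_lit 21866665)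 [(nat_lit 0), (nat_lit 932978), (nat_lit 0), (nat_lit 0)]) (PF.cons (PF.leaf (nat_lit 4185910) (nat_lit 242722) (nat_lit 43162784) (nat_lit 21801905) [(nat_lit 242722), (nat_lit 950700), (nat_lit 0), (nat_lit 0)]) (PF.cons (PF.leaf (nat_lit 4362221) (nat_lit 252309) (nat_lit 42935922) (nat_lit 21732445) [(nat_lit 252309), (nat_lit 967912), (nat_lit 0), (nat_lit 0)]) (PF.cons (PF.leaf (nat_lit 4548436) (nat_lit 261140) (nat_lit 42697618) (nat_lit 21658804) [(nat_lit 261140),
 (nat_lit 984484), (nat_lit 0), (nat_lit 0)]) (PF.cons PF.nil PF.nil))))) (PF.cons (PF.cons (PF.leaf (nat_lit 4518752) (nat_lit 985998) (nat_lit 42541932) (nat_lit 21608883) [(nat_lit 0), (nat_lit 985998), (nat_lit 0), (nat_lit 0)]) (PF.cons (PF.leaf (nat_lit 4701604) (nat_lit 266059) (nat_lit 42304902) (nat_lit 21534486) [(nat_lit 266059), (nat_lit 1001121), (nat_lit 0), (nat_lit 0)]) (PF.cons PF.nil (PF.cons PF.nil PF.nil)))) (PF.cons (PF.cons (PF.leaf (nat_lit 5048154) (nat_lit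 1029796) (nat_lit 41661819) (nat_lit 21327807) [(nat_lit 0), (nat_lit 1029796), (nat_lit 0), (nat_lit 0)]) (PF.cons PF.nil PF.nil)) (PF.cons PF.nil PF.nil)))))) (PF.cons (PF.cons (PF.cons (PF.leaf (nat_lit 4042099) (nat_lit 2494554) (nat_lit 42901362) (nat_lit 21712896) [(nat_lit 0), (nat_lit 0), (nat_lit 2494554), (nat_lit 0)]) (PF.cons (PF.leaf (nat_lit 4188521) (nat_lit 231257) (nat_lit 42710979) (nat_lit 21654073) [(nat_lit 231257), (nat_lit 0), (nat_lit 2512502), (nat_lit 0)]) (PF.cons (PF.leaf (nat_lit 4350746) (nat_lit 242460) (nat_lit 42503594) (nat_lit 21589495) [(nat_lit 242460), (nat_lit 0), (nat_lit 2530801), (nat_lit 0)]) (PF.cons (PF.leaf (nat_lit 4524679) (nat_lit 252509) (nat_lit 42282245)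
 (nat_lit 21519999) [(nat_lit 252509), (nat_lit 0), (nat_lit 2549037), (nat_lit 0)]) (PF.cons (PF.leaf (nat_lit 4708708) (nat_lit 261640) (nat_lit 42049132) (nat_lit 21446179) [(nat_lit 261640), (nat_lit 0), (nat_lit 2566936), (nat_lit 0)]) PF.nil))))) (PF.cons (PF.cons (PF.leaf (nat_lit 4508615) (nat_lit 978295) (nat_lit 42110506) (nat_lit 21464280) [(nat_lit 0), (nat_lit 978295), (nat_lit 2555729), (nat_lit 0)]) (PF.cons (PF.leaf (nat_lit 4678149) (nat_lit 257309) (nat_lit 41891575) (nat_lit 21394507) [(nat_lit 257309), (nat_lit 993415), (nat_lit 2572003), (nat_lit 0)]) (PF.cons (PF.leaf (nat_lit 4859901) (nat_lit 266226) (nat_lit 41660109) (nat_lit 21320129) [(nat_lit 266226), (nat_lit 1008042), (nat_lit 2588079), (nat_lit 0)]) (PF.cons PF.nil PF.nil)))) (PF.cons (PF.cons (PF.leaf (nat_lit 5013748) (nat_lit 1022359) (nat_lit 41266140) (nat_lit 21190676) [(nat_lit 0), (nat_lit 1022359), (nat_lit 2607277), (nat_lit 0)]) (PF.cons (PF.leaf (nat_lit 5200869)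 (nat_lit 278167) (nat_lit 41026865) (nat_lit 21112036) [(nat_lit 278167), (nat_lit 1035212), (nat_lit 2621318), (nat_lit 0)]) PF.nil)) (PF.cons PF.nil (PF.cons PF.nil PF.nil))))) (PF.cons (PF.cons (PF.cons (PF.leaf (nat_lit
 4991029) (nat_lit 2603755) (nat_lit 40854555) (nat_lit 21046746) [(nat_lit 0), (nat_lit 0), (nat_lit 2603755), (nat_lit 0)]) (PF.cons (PF.leaf (nat_lit 5165071) (nat_lit 269197) (nat_lit 40633275) (nat_lit 20973067) [(nat_lit 269197), (nat_lit 0), (nat_lit 2616635), (nat_lit 0)]) (PF.cons (PF.leaf (nat_lit 5350780) (nat_lit 277523) (nat_lit 40400311) (nat_lit 20894906) [(nat_lit 277523), (nat_lit 0), (nat_lit 2629273), (nat_lit 0)]) (PF.cons PF.nil PF.nil)))) (PF.cons (PF.cons (PF.leaf (nat_lit 5501427) (nat_lit 1050416) (nat_lit 40010506) (nat_lit 20761371) [(nat_lit 0), (nat_lit 1050416), (nat_lit 2643259), (nat_lit 0)]) (PF.cons PF.nil PF.nil)) (PF.cons PF.nil PF.nil))) (PF.cons (PF.cons (PF.cons (PF.leaf (nat_lit 5980233) (nat_lit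 2666585) (nat_lit 38783409) (nat_lit 20325647) [(nat_lit 0), (nat_lit 0), (nat_lit 2666585), (nat_lit 0)]) (PF.cons PF.nil PF.nil)) (PF.cons PF.nil PF.nil)) (PF.cons PF.nil PF.nil))))) (PF.cons (PF.cons (PF.cons (PF.cons (PF.leaf (nat_lit 4714221) (nat_lit 5950169) (nat_lit 40326829) (nat_lit 20831813) [(nat_lit 0), (nat_lit 0), (nat_lit 0), (nat_lit 5950169)]) (PF.cons (PF.leaf (nat_lit 4862643) (nat_lit 240477) (nat_lit 40143510) (nat_lit 20770237)
 [(nat_lit 240477), (nat_lit 0), (nat_lit 0), (nat_lit 5954587)]) (PF.cons (PF.leaf (nat_lit 5026275) (nat_lit 251345) (nat_lit 39944467) (nat_lit 20702950) [(nat_lit 251345), (nat_lit 0), (nat_lit 0), (nat_lit 5958703)]) (PF.cons (PF.leaf (nat_lit 5201047) (nat_lit 260965) (nat_lit 39732701) (nat_lit 20630876) [(nat_lit 260965), (nat_lit 0), (nat_lit 0), (nat_lit 5962338)]) (PF.cons (PF.leaf (nat_lit 5385288) (nat_lit 269599) (nat_lit 39510378) (nat_lit 20554673) [(nat_lit 269599), (nat_lit 0), (nat_lit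 0), (nat_lit 5965362)]) PF.nil))))) (PF.cons (PF.cons (PF.leaf (nat_lit 5178493) (nat_lit 1001659) (nat_lit 39571724) (nat_lit 20574439) [(nat_lit 0), (nat_lit 1001659), (nat_lit 0), (nat_lit 5960989)]) (PF.cons (PF.leaf (nat_lit 5348333) (nat_lit 264744) (nat_lit 39363261) (nat_lit 20502624) [(nat_lit 264744), (nat_lit 1014816), (nat_lit 0), (nat_lit 5963365)]) (PF.cons (PF.leaf (nat_lit 5529725) (nat_lit 273197) (nat_lit 39143465) (nat_lit 20426391) [(nat_lit 273197), (nat_lit 1027415), (nat_lit 0), (nat_lit 5965145)]) (PF.cons PF.nil PF.nil)))) (PF.cons (PF.cons (PF.leaf (nat_lit 5676550) (nat_lit 1038527) (nat_lit 38773177) (nat_lit 20295454) [(nat_lit 0), (nat_lit 1038527),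
 (nat_lit 0), (nat_lit 5963127)]) (PF.cons (PF.leaf (nat_lit 5862321) (nat_lit 283724) (nat_lit 38547388) (nat_lit 20215691) [(nat_lit 283724), (nat_lit 1049469), (nat_lit 0), (nat_lit 5963069)]) PF.nil)) (PF.cons PF.nil (PF.cons PF.nil PF.nil))))) (PF.cons (PF.cons (PF.cons (PF.leaf (nat_lit 5641274) (nat_lit 2611074) (nat_lit 38397481) (nat_lit 20155043) [(nat_lit 0), (nat_lit 0), (nat_lit 2611074), (nat_lit 5945213)]) (PF.cons (PF.leaf (nat_lit 5814332) (nat_lit 274225) (nat_lit 38188878) (nat_lit 20080604) [(nat_lit 274225), (nat_lit 0), (nat_lit 2620512), (nat_lit 5944592)]) (PF.cons (PF.leaf (nat_lit 5998426) (nat_lit 282112) (nat_lit 37969727) (nat_lit 20001907) [(nat_lit 282112), (nat_lit 0), (nat_lit 2629651), (nat_lit 5943301)]) (PF.cons PF.nil PF.nil)))) (PF.cons (PF.cons (PF.leaf (nat_lit 6141665) (nat_lit 1058652) (nat_lit 37606220) (nat_lit 19868971) [(nat_lit 0), (nat_lit 1058652), (nat_lit 2638353), (nat_lit 5936614)]) (PF.cons PF.nil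 PF.nil)) (PF.cons PF.nil PF.nil))) (PF.cons (PF.cons (PF.cons (PF.leaf (nat_lit 6597250) (nat_lit 2648412) (nat_lit 36472132) (nat_lit 19441535) [(nat_lit 0), (nat_lit 0), (nat_lit 2648412), (nat_lit 5898321)]) (PF.cons PF.nil PF.nil))
 (PF.cons PF.nil PF.nil)) PF.nil))) (PF.cons (PF.cons (PF.cons (PF.cons (PF.leaf (nat_lit 6248912) (nat_lit 5836346) (nat_lit 36145961) (nat_lit 19290158) [(nat_lit 0), (nat_lit 0), (nat_lit 0), (nat_lit 5836346)]) (PF.cons (PF.leaf (nat_lit 6419954) (nat_lit 276654) (nat_lit 35950818) (nat_lit 19216526) [(nat_lit 276654), (nat_lit 0), (nat_lit 0), (nat_lit 5832406)]) (PF.cons PF.nil PF.nil))) (PF.cons (PF.cons (PF.leaf (nat_lit 6737753) (nat_lit 1058451) (nat_lit 35409174) (nat_lit 19008956) [(nat_lit 0), (nat_lit 1058451), (nat_lit 0), (nat_lit 5816114)]) PF.nil) PF.nil)) (PF.cons PF.nil PF.nil)) (PF.cons PF.nil (PF.cons PF.nil (PF.cons PF.nil PF.nil))))))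

def p15_5_3_0 : pfC (piC [(nat_lit 41997052), (nat_lit 28134109), (nat_lit 20714735), (nat_lit 13943267)] (nat_lit 4652153)) p15_5_3 (nat_lit 4) (nat_lit 0) (nat_lit 1) = true := by decide +kernel
def p15_5_3_1 : pfC (piC [(nat_lit 41997052), (nat_lit 28134109), (nat_lit 20714735), (nat_lit 13943267)] (nat_lit 4652153)) p15_5_3 (nat_lit 4) (nat_lit 1) (nat_lit 2) = true := by decide +kernel
def p15_5_3_2 : pfC (piC [(nat_lit 41997052), (nat_lit 28134109), (nat_lit 20714735), (nat_lit 13943267)] (nat_lit 4652153)) p15_5_3 (nat_lit 4) (nat_lit 2) (nat_lit 3) = true := by decide +kernel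
def p15_5_3_3 : pfC (piC [(nat_lit 41997052), (nat_lit 28134109), (nat_lit 20714735), (nat_lit 13943267)] (nat_lit 4652153)) p15_5_3 (nat_lit 4) (nat_lit 3) (nat_lit 4) = true := by decide +kernel
def p15_5_3_4 : pfC (piC [(nat_lit 41997052), (nat_lit 28134109), (nat_lit 20714735), (nat_lit 13943267)] (nat_lit 4652153)) p15_5_3 (nat_lit 4) (nat_lit 4) (nat_lit 5) = true := by decide +kernel
def p15_5_3_5 : pfC (piC [(nat_lit 41997052), (nat_lit 28134109), (nat_lit 20714735), (nat_lit 13943267)] (nat_lit 4652153)) p15_5_3 (nat_lit 4) (nat_lit 5) (nat_lit 6) = true := by decide +kernel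
def p15_5_3_6 : pfC (piC [(nat_lit 41997052), (nat_lit 28134109), (nat_lit 20714735), (nat_lit 13943267)] (nat_lit 4652153)) p15_5_3 (nat_lit 4) (nat_lit 6) (nat_lit 7) = true := by decide +kernel
def p15_5_3_7 : pfC (piC [(nat_lit 41997052), (nat_lit 28134109), (nat_lit 20714735), (nat_lit 13943267)] (nat_lit 4652153)) p15_5_3 (nat_lit 4) (nat_lit 7) (nat_lit 8) = true := by decide +kernel
def p15_5_3_8 : pfC (piC [(nat_lit 41997052), (nat_lit 28134109), (nat_lit 20714735), (nat_lit 13943267)] (nat_lit 4652153)) p15_5_3 (nat_lit 4) (nat_lit 8) (nat_lit 9) = true := by decide +kernel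
def p15_5_3_9 : pfC (piC [(nat_lit 41997052), (nat_lit 28134109), (nat_lit 20714735), (nat_lit 13943267)] (nat_lit 4652153)) p15_5_3 (nat_lit 4) (nat_lit 9) (nat_lit 10) = true := by decide +kernel
def p15_5_3_10 : pfC (piC [(nat_lit 41997052), (nat_lit 28134109), (nat_lit 20714735), (nat_lit 13943267)] (nat_lit 4652153)) p15_5_3 (nat_lit 4) (nat_lit 10) (nat_lit 11) = true := by decide +kernel
def p15_5_3_11 : pfC (piC [(nat_lit 41997052), (nat_lit 28134109), (nat_lit 20714735), (nat_lit 13943267)] (nat_lit 4652153)) p15_5_3 (nat_lit 4) (nat_lit 11) (nat_lit 12) = true := by decide +kernel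
def p15_5_3_12 : pfC (piC [(nat_lit 41997052), (nat_lit 28134109), (nat_lit 20714735), (nat_lit 13943267)] (nat_lit 4652153)) p15_5_3 (nat_lit 4) (nat_lit 12) (nat_lit 13) = true := by decide +kernel
def p15_5_3_13 : pfC (piC [(nat_lit 41997052), (nat_lit 28134109), (nat_lit 20714735), (nat_lit 13943267)] (nat_lit 4652153)) p15_5_3 (nat_lit 4) (nat_lit 13) (nat_lit 14) = true := by decide +kernel
def p15_5_3_14 : pfC (piC [(nat_lit 41997052), (nat_lit 28134109), (nat_lit 20714735), (nat_lit 13943267)] (nat_lit 4652153)) p15_5_3 (nat_lit 4) (nat_lit 14) (nat_lit 15) = true := by decide +kernel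
def p15_5_3_15 : pfC (piC [(nat_lit 41997052), (nat_lit 28134109), (nat_lit 20714735), (nat_lit 13943267)] (nat_lit 4652153)) p15_5_3 (nat_lit 4) (nat_lit 15) (nat_lit 16) = true := by decide +kernel
def p15_5_3_16 : pfC (piC [(nat_lit 41997052), (nat_lit 28134109), (nat_lit 20714735), (nat_lit 13943267)] (nat_lit 4652153)) p15_5_3 (nat_lit 4) (nat_lit 16) (nat_lit 17) = true := by decide +kernel
def p15_5_3_17 : pfC (piC [(nat_lit 41997052), (nat_lit 28134109), (nat_lit 20714735), (nat_lit 13943267)] (nat_lit 4652153)) p15_5_3 (nat_lit 4) (nat_lit 17) (nat_lit 18) = true := by decide +kernel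
def p15_5_3_18 : pfC (piC [(nat_lit 41997052), (nat_lit 28134109), (nat_lit 20714735), (nat_lit 13943267)] (nat_lit 4652153)) p15_5_3 (nat_lit 4) (nat_lit 18) (nat_lit 19) = true := by decide +kernel
def p15_5_3_19 : pfC (piC [(nat_lit 41997052), (nat_lit 28134109), (nat_lit 20714735), (nat_lit 13943267)] (nat_lit 4652153)) p15_5_3 (nat_lit 4) (nat_lit 19) (nat_lit 20) = true := by decide +kernel
def p15_5_3_20 : pfC (piC [(nat_lit 41997052), (nat_lit 28134109), (nat_lit 20714735), (nat_lit 13943267)] (nat_lit 4652153)) p15_5_3 (nat_lit 4) (nat_lit 20) (nat_lit 21) = true := by decide +kernel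
def p15_5_3_21 : pfC (piC [(nat_lit 41997052), (nat_lit 28134109), (nat_lit 20714735), (nat_lit 13943267)] (nat_lit 4652153)) p15_5_3 (nat_lit 4) (nat_lit 21) (nat_lit 22) = true := by decide +kernel
def p15_5_3_22 : pfC (piC [(nat_lit 41997052), (nat_lit 28134109), (nat_lit 20714735), (nat_lit 13943267)] (nat_lit 4652153)) p15_5_3 (nat_lit 4) (nat_lit 22) (nat_lit 23) = true := by decide +kernel
def p15_5_3_23 : pfC (piC [(nat_lit 41997052), (nat_lit 28134109), (nat_lit 20714735), (nat_lit 13943267)] (nat_lit 4652153)) p15_5_3 (nat_lit 4) (nat_lit 23) (nat_lit 24) = true := by decide +kernel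
def p15_5_3_24 : pfC (piC [(nat_lit 41997052), (nat_lit 28134109), (nat_lit 20714735), (nat_lit 13943267)] (nat_lit 4652153)) p15_5_3 (nat_lit 4) (nat_lit 24) (nat_lit 25) = true := by decide +kernel
def p15_5_3_25 : pfC (piC [(nat_lit 41997052), (nat_lit 28134109), (nat_lit 20714735), (nat_lit 13943267)] (nat_lit 4652153)) p15_5_3 (nat_lit 4) (nat_lit 25) (nat_lit 26) = true := by decide +kernel
def p15_5_3_26 : pfC (piC [(nat_lit 41997052), (nat_lit 28134109), (nat_lit 20714735), (nat_lit 13943267)] (nat_lit 4652153)) p15_5_3 (nat_lit 4) (nat_lit 26) (nat_lit 27) = true := by decide +kernel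
def p15_5_3_27 : pfC (piC [(nat_lit 41997052), (nat_lit 28134109), (nat_lit 20714735), (nat_lit 13943267)] (nat_lit 4652153)) p15_5_3 (nat_lit 4) (nat_lit 27) (nat_lit 28) = true := by decide +kernel
def p15_5_3_28 : pfC (piC [(nat_lit 41997052), (nat_lit 28134109), (nat_lit 20714735), (nat_lit 13943267)] (nat_lit 4652153)) p15_5_3 (nat_lit 4) (nat_lit 28) (nat_lit 29) = true := by decide +kernel
def p15_5_3_29 : pfC (piC [(nat_lit 41997052), (nat_lit 28134109), (nat_lit 20714735), (nat_lit 13943267)] (nat_lit 4652153)) p15_5_3 (nat_lit 4) (nat_lit 29) (nat_lit 30) = true := by decide +kernel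
def p15_5_3_30 : pfC (piC [(nat_lit 41997052), (nat_lit 28134109), (nat_lit 20714735), (nat_lit 13943267)] (nat_lit 4652153)) p15_5_3 (nat_lit 4) (nat_lit 30) (nat_lit 31) = true := by decide +kernel
def p15_5_3_31 : pfC (piC [(nat_lit 41997052), (nat_lit 28134109), (nat_lit 20714735), (nat_lit 13943267)] (nat_lit 4652153)) p15_5_3 (nat_lit 4) (nat_lit 31) (nat_lit 32) = true := by decide +kernel
def p15_5_3_32 : pfC (piC [(nat_lit 41997052), (nat_lit 28134109), (nat_lit 20714735), (nat_lit 13943267)] (nat_lit 4652153)) p15_5_3 (nat_lit 4) (nat_lit 32) (nat_lit 33) = true := by decide +kernel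
def p15_5_3_33 : pfC (piC [(nat_lit 41997052), (nat_lit 28134109), (nat_lit 20714735), (nat_lit 13943267)] (nat_lit 4652153)) p15_5_3 (nat_lit 4) (nat_lit 33) (nat_lit 34) = true := by decide +kernel
def p15_5_3_34 : pfC (piC [(nat_lit 41997052), (nat_lit 28134109), (nat_lit 20714735), (nat_lit 13943267)] (nat_lit 4652153)) p15_5_3 (nat_lit 4) (nat_lit 34) (nat_lit 35) = true := by decide +kernel
def p15_5_3_35 : pfC (piC [(nat_lit 41997052), (nat_lit 28134109), (nat_lit 20714735), (nat_lit 13943267)] (nat_lit 4652153)) p15_5_3 (nat_lit 4) (nat_lit 35) (nat_lit 36) = true := by decide +kernel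
def p15_5_3_36 : pfC (piC [(nat_lit 41997052), (nat_lit 28134109), (nat_lit 20714735), (nat_lit 13943267)] (nat_lit 4652153)) p15_5_3 (nat_lit 4) (nat_lit 36) (nat_lit 37) = true := by decide +kernel
def p15_5_3_37 : pfC (piC [(nat_lit 41997052), (nat_lit 28134109), (nat_lit 20714735), (nat_lit 13943267)] (nat_lit 4652153)) p15_5_3 (nat_lit 4) (nat_lit 37) (nat_lit 38) = true := by decide +kernel
def p15_5_3_38 : pfC (piC [(nat_lit 41997052), (nat_lit 28134109), (nat_lit 20714735), (nat_lit 13943267)] (nat_lit 4652153)) p15_5_3 (nat_lit 4) (nat_lit 38) (nat_lit 39) = true := by decide +kernel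
def p15_5_3_39 : pfC (piC [(nat_lit 41997052), (nat_lit 28134109), (nat_lit 20714735), (nat_lit 13943267)] (nat_lit 4652153)) p15_5_3 (nat_lit 4) (nat_lit 39) (nat_lit 40) = true := by decide +kernel
def p15_5_3_40 : pfC (piC [(nat_lit 41997052), (nat_lit 28134109), (nat_lit 20714735), (nat_lit 13943267)] (nat_lit 4652153)) p15_5_3 (nat_lit 4) (nat_lit 40) (nat_lit 41) = true := by decide +kernel
def p15_5_3_41 : pfC (piC [(nat_lit 41997052), (nat_lit 28134109), (nat_lit 20714735), (nat_lit 13943267)] (nat_lit 4652153)) p15_5_3 (nat_lit 4) (nat_lit 41) (nat_lit 42) = true := by decide +kernel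
def p15_5_3_42 : pfC (piC [(nat_lit 41997052), (nat_lit 28134109), (nat_lit 20714735), (nat_lit 13943267)] (nat_lit 4652153)) p15_5_3 (nat_lit 4) (nat_lit 42) (nat_lit 43) = true := by decide +kernel
def p15_5_3_43 : pfC (piC [(nat_lit 41997052), (nat_lit 28134109), (nat_lit 20714735), (nat_lit 13943267)] (nat_lit 4652153)) p15_5_3 (nat_lit 4) (nat_lit 43) (nat_lit 44) = true := by decide +kernel
def p15_5_3_44 : pfC (piC [(nat_lit 41997052), (nat_lit 28134109), (nat_lit 20714735), (nat_lit 13943267)] (nat_lit 4652153)) p15_5_3 (nat_lit 4) (nat_lit 44) (nat_lit 45) = true := by decide +kernel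
def p15_5_3_45 : pfC (piC [(nat_lit 41997052), (nat_lit 28134109), (nat_lit 20714735), (nat_lit 13943267)] (nat_lit 4652153)) p15_5_3 (nat_lit 4) (nat_lit 45) (nat_lit 46) = true := by decide +kernel
def p15_5_3_46 : pfC (piC [(nat_lit 41997052), (nat_lit 28134109), (nat_lit 20714735), (nat_lit 13943267)] (nat_lit 4652153)) p15_5_3 (nat_lit 4) (nat_lit 46) (nat_lit 47) = true := by decide +kernel
def p15_5_3_47 : pfC (piC [(nat_lit 41997052), (nat_lit 28134109), (nat_lit 20714735), (nat_lit 13943267)] (nat_lit 4652153)) p15_5_3 (nat_lit 4) (nat_lit 47) (nat_lit 48) = true := by decide +kernel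
def p15_5_3_48 : pfC (piC [(nat_lit 41997052), (nat_lit 28134109), (nat_lit 20714735), (nat_lit 13943267)] (nat_lit 4652153)) p15_5_3 (nat_lit 4) (nat_lit 48) (nat_lit 49) = true := by decide +kernel
def p15_5_3_49 : pfC (piC [(nat_lit 41997052), (nat_lit 28134109), (nat_lit 20714735), (nat_lit 13943267)] (nat_lit 4652153)) p15_5_3 (nat_lit 4) (nat_lit 49) (nat_lit 50) = true := by decide +kernel
def p15_5_3_50 : pfC (piC [(nat_lit 41997052), (nat_lit 28134109), (nat_lit 20714735), (nat_lit 13943267)] (nat_lit 4652153)) p15_5_3 (nat_lit 4) (nat_lit 50) (nat_lit 51) = true := by decide +kernel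
theorem p15_5_3_T : PfS (PiF n15_5.reverse (nat_lit 4652153)) p15_5_3 (nat_lit 4) [] 0 :=
  pftab_of (los := [(nat_lit 41997052), (nat_lit 28134109), (nat_lit 20714735), (nat_lit 13943267)]) (by decide +kernel) (hi := (nat_lit 51)) (PfP.trans (PfP.trans (PfP.trans (PfP.trans (PfP.trans (PfP.trans (PfP.trans (PfP.trans (PfP.trans (PfP.trans (PfP.trans (PfP.trans (PfP.trans (PfP.trans (PfP.trans (PfP.trans (PfP.trans (PfP.trans (PfP.trans (PfP.trans (PfP.trans (PfP.trans (PfP.trans (PfP.trans (PfP.trans (PfP.trans (PfP.trans (PfP.trans (PfP.trans (PfP.trans (PfP.trans (PfP.trans (PfP.trans (PfP.trans (PfP.trans (PfP.trans (PfP.trans (PfP.trans (PfP.trans (PfP.trans (PfP.trans (PfP.trans (PfP.trans (PfP.trans (PfP.trans (PfP.trans (PfP.trans (PfP.trans (PfP.trans (PfP.trans (pfC_sound p15_5_3_0) (pfC_sound p15_5_3_1)) (pfC_sound p15_5_3_2)) (pfC_sound p15_5_3_3)) (pfC_sound p15_5_3_4)) (pfC_sound p15_5_3_5)) (pfC_sound p15_5_3_6)) (pfC_sound p15_5_3_7))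 (pfC_sound p15_5_3_8)) (pfC_sound p15_5_3_9)) (pfC_sound p15_5_3_10)) (pfC_sound p15_5_3_11)) (pfC_sound p15_5_3_12)) (pfC_sound p15_5_3_13)) (pfC_sound p15_5_3_14)) (pfC_sound p15_5_3_15)) (pfC_sound p15_5_3_16)) (pfC_sound p15_5_3_17)) (pfC_sound p15_5_3_18)) (pfC_sound p15_5_3_19)) (pfC_sound p15_5_3_20)) (pfC_sound p15_5_3_21)) (pfC_sound p15_5_3_22)) (pfC_sound p15_5_3_23)) (pfC_sound p15_5_3_24)) (pfC_sound p15_5_3_25)) (pfC_sound p15_5_3_26)) (pfC_sound
 p15_5_3_27)) (pfC_sound p15_5_3_28)) (pfC_sound p15_5_3_29)) (pfC_sound p15_5_3_30)) (pfC_sound p15_5_3_31)) (pfC_sound p15_5_3_32)) (pfC_sound p15_5_3_33)) (pfC_sound p15_5_3_34)) (pfC_sound p15_5_3_35)) (pfC_sound p15_5_3_36)) (pfC_sound p15_5_3_37)) (pfC_sound p15_5_3_38)) (pfC_sound p15_5_3_39)) (pfC_sound p15_5_3_40)) (pfC_sound p15_5_3_41)) (pfC_sound p15_5_3_42)) (pfC_sound p15_5_3_43)) (pfC_sound p15_5_3_44)) (pfC_sound p15_5_3_45)) (pfC_sound p15_5_3_46)) (pfC_sound p15_5_3_47)) (pfC_sound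 p15_5_3_48)) (pfC_sound p15_5_3_49)) (pfC_sound p15_5_3_50)) (by decide +kernel)

def z15_5_3 : zOK yB15_5 (nat_lit 3) (nat_lit 750) (nat_lit 943) (nat_lit 4652153) (nat_lit 2331940) = true := by decide +kernel
def g15_5_3 : gOK yB15_5.x P15_5 (nat_lit 1435) (q15_5 :: r15_5) (nat_lit 3) (nat_lit 750) (nat_lit 4) (nat_lit 943) (nat_lit 12712500) (nat_lit 12712500) (nat_lit 12712500) (nat_lit 12712500) [(nat_lit 800)] = true := by decide +kernel
def v15_5_3 : ivC P15_5 s15_5 w15_5 n15_5 (nat_lit 4) (nat_lit 4810) (nat_lit 3) (nat_lit 750) f128_1_750 f136_1_750 (nat_lit 4) (nat_lit 943) f128_1_943 f136_1_943 (nat_lit 4652153) (nat_lit 2331940) p15_5_3 = true := by decide +kernel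
/-! box `yB15_6` -/

def P15_6 : BQ := ⟨(nat_lit 8), (nat_lit 4), (nat_lit 4), (nat_lit 2), (nat_lit 6), (nat_lit 660), (nat_lit 670), (nat_lit 120), [(nat_lit 200), (nat_lit 300), (nat_lit 450), (nat_lit 800)], (nat_lit 58256000), (nat_lit 16000000), (nat_lit 16000000000)⟩
def q15_6 : PC := ⟨(nat_lit 1000), [(nat_lit 120000), (nat_lit 200000), (nat_lit 300000), (nat_lit 450000), (nat_lit 800000)], (nat_lit 340282367000166625996085689103316680705000000), (nat_lit 15941744000000), (nat_lit 15941744000000), (nat_lit 10000000)⟩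
def r15_6 : List PC := [⟨(nat_lit 1334), [(nat_lit 120547), (nat_lit 200994), (nat_lit 301851), (nat_lit 452111), (nat_lit 798863)], (nat_lit 342492160691516810230096824210455145625898896), (nat_lit 16338166597440), (nat_lit 16344585810240), (nat_lit 10061700)⟩]
def s15_6 : List PB := [⟨(nat_lit 26680), (nat_lit 1928752000000), [(nat_lit 200994), (nat_lit 301851), (nat_lit 452111), (nat_lit 798863)], (nat_lit 342492160691516810230096824210455145625898896), (nat_lit 1142238073440064), (nat_lit 1142244492652864), (nat_lit 53440)⟩]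
def n15_6 : List KN := [⟨(nat_lit 800), (nat_lit 450), (nat_lit 13862945), (nat_lit 8794769)⟩, ⟨(nat_lit 450), (nat_lit 300), (nat_lit 20557252), (nat_lit 13862945)⟩, ⟨(nat_lit 300), (nat_lit 200), (nat_lit 27968816), (nat_lit 20557252)⟩, ⟨(nat_lit 200), (nat_lit 120), (nat_lit 42686981), (nat_lit 27968816)⟩]
def w15_6 : List ℕ := [(nat_lit 53440)]
def par15_6 : parC yB15_6 P15_6 s15_6 r15_6 q15_6 n15_6 w15_6 = true := by decide +kernel

def p15_6_0 : PF := (PF.cons (PF.cons (PF.cons (PF.cons (PF.leaf (nat_lit 498598) (nat_lit 1371413) (nat_lit 65737399) (nat_lit 1371413) [(nat_lit 0), (nat_lit 0), (nat_lit 0), (nat_lit 0)]) (PF.cons (PF.leaf (nat_lit 582708) (nat_lit 127450) (nat_lit 65574153) (nat_lit 1407209) [(nat_lit 127450), (nat_lit 0), (nat_lit 0), (nat_lit 0)]) (PF.cons (PF.leaf (nat_lit 692179) (nat_lit 141276) (nat_lit 65378953) (nat_lit 1447307) [(nat_lit 141276), (nat_lit 0), (nat_lit 0), (nat_lit 0)]) (PF.cons (PF.leaf (nat_lit 817341)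 (nat_lit 154389) (nat_lit 65155476) (nat_lit 1490167) [(nat_lit 154389), (nat_lit 0), (nat_lit 0), (nat_lit 0)]) (PF.cons (PF.leaf (nat_lit 958067) (nat_lit 166972) (nat_lit 64906187) (nat_lit 1534737) [(nat_lit 166972), (nat_lit 0), (nat_lit 0), (nat_lit 0)]) (PF.cons PF.nil (PF.cons PF.nil PF.nil))))))) (PF.cons (PF.cons (PF.leaf (nat_lit 879313) (nat_lit 732180) (nat_lit 64841834) (nat_lit 1534797) [(nat_lit 0), (nat_lit 732180), (nat_lit 0), (nat_lit 0)]) (PF.cons (PF.leaf (nat_lit 1004233) (nat_lit 167936) (nat_lit 64606909) (nat_lit 1573894) [(nat_lit 167936), (nat_lit 760072), (nat_lit 0), (nat_lit 0)]) (PF.cons (PF.leaf (nat_lit 1148964) (nat_lit 180239) (nat_lit 64344544)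
 (nat_lit 1614945) [(nat_lit 180239), (nat_lit 788844), (nat_lit 0), (nat_lit 0)]) (PF.cons (PF.leaf (nat_lit 1308069) (nat_lit 192056) (nat_lit 64057568) (nat_lit 1657098) [(nat_lit 192056), (nat_lit 817977), (nat_lit 0), (nat_lit 0)]) (PF.cons PF.nil PF.nil))))) (PF.cons (PF.cons (PF.leaf (nat_lit 1350309) (nat_lit 836161) (nat_lit 63746016) (nat_lit 1690472) [(nat_lit 0), (nat_lit 836161), (nat_lit 0), (nat_lit 0)]) (PF.cons (PF.leaf (nat_lit 1509740) (nat_lit 203975) (nat_lit 63449565) (nat_lit 1729251) [(nat_lit 203975), (nat_lit 863010), (nat_lit 0), (nat_lit 0)]) (PF.cons PF.nil (PF.cons PF.nil PF.nil)))) (PF.cons (PF.cons (PF.leaf (nat_lit 1897825) (nat_lit 930463) (nat_lit 62483985) (nat_lit 1833437) [(nat_lit 0), (nat_lit 930463), (nat_lit 0), (nat_lit 0)]) (PF.cons PF.nil PF.nil)) (PF.cons PF.nil PF.nil))))) (PF.cons (PF.cons (PF.cons (PF.leaf (nat_lit 1432795) (nat_lit 1733005) (nat_lit 62981112) (nat_lit 1733005) [(nat_lit 0), (nat_lit 0),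 (nat_lit 2394694), (nat_lit 0)]) (PF.cons (PF.leaf (nat_lit 1575997) (nat_lit 198133) (nat_lit 62711592) (nat_lit 1766535) [(nat_lit 198133), (nat_lit 0), (nat_lit 2432550), (nat_lit 0)]) (PF.cons (PF.leaf (nat_lit 1737856) (nat_lit
 210347) (nat_lit 62414294) (nat_lit 1801549) [(nat_lit 210347), (nat_lit 0), (nat_lit 2472275), (nat_lit 0)]) (PF.cons (PF.leaf (nat_lit 1914172) (nat_lit 221840) (nat_lit 62092929) (nat_lit 1837329) [(nat_lit 221840), (nat_lit 0), (nat_lit 2513033), (nat_lit 0)]) (PF.cons PF.nil PF.nil))))) (PF.cons (PF.cons (PF.leaf (nat_lit 1948336) (nat_lit 939750) (nat_lit 61760845) (nat_lit 1863310) [(nat_lit 0), (nat_lit 939750), (nat_lit 2544907), (nat_lit 0)]) (PF.cons (PF.leaf (nat_lit 2123489) (nat_lit 231845) (nat_lit 61435061) (nat_lit 1896156) [(nat_lit 231845), (nat_lit 963410), (nat_lit 2582338), (nat_lit 0)]) (PF.cons PF.nil (PF.cons PF.nil PF.nil)))) (PF.cons (PF.cons (PF.leaf (nat_lit 2530117) (nat_lit 1020653) (nat_lit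 60403332) (nat_lit 1981959) [(nat_lit 0), (nat_lit 1020653), (nat_lit 2682214), (nat_lit 0)]) (PF.cons PF.nil PF.nil)) (PF.cons PF.nil (PF.cons PF.nil PF.nil))))) (PF.cons (PF.cons (PF.cons (PF.leaf (nat_lit 2560807) (nat_lit 2001386) (nat_lit 59686569) (nat_lit 2001386) [(nat_lit 0), (nat_lit 0), (nat_lit 2710428), (nat_lit 0)]) (PF.cons (PF.leaf (nat_lit 2747826) (nat_lit 255396) (nat_lit 59341309) (nat_lit 2029099) [(nat_lit 255396), (nat_lit 0), (nat_lit
 2741503), (nat_lit 0)]) (PF.cons PF.nil (PF.cons PF.nil PF.nil)))) (PF.cons (PF.cons (PF.leaf (nat_lit 3166128) (nat_lit 1093822) (nat_lit 58271610) (nat_lit 2099349) [(nat_lit 0), (nat_lit 1093822), (nat_lit 2822015), (nat_lit 0)]) (PF.cons PF.nil PF.nil)) (PF.cons PF.nil PF.nil))) (PF.cons (PF.cons (PF.cons (PF.leaf (nat_lit 3797970) (nat_lit 2190801) (nat_lit 56131226) (nat_lit 2190801) [(nat_lit 0), (nat_lit 0), (nat_lit 2928928), (nat_lit 0)]) (PF.cons PF.nil PF.nil)) (PF.cons PF.nil PF.nil))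 (PF.cons PF.nil (PF.cons PF.nil PF.nil)))))) (PF.cons (PF.cons (PF.cons (PF.cons (PF.leaf (nat_lit 2346004) (nat_lit 1933133) (nat_lit 58618361) (nat_lit 1933133) [(nat_lit 0), (nat_lit 0), (nat_lit 0), (nat_lit 6557317)]) (PF.cons (PF.leaf (nat_lit 2500520) (nat_lit 225604) (nat_lit 58337106) (nat_lit 1959905) [(nat_lit 225604), (nat_lit 0), (nat_lit 0), (nat_lit 6586196)]) (PF.cons (PF.leaf (nat_lit 2673017) (nat_lit 237851) (nat_lit 58029232) (nat_lit 1987562) [(nat_lit 237851), (nat_lit 0), (nat_lit 0), (nat_lit 6616315)]) (PF.cons (PF.leaf (nat_lit 2859107) (nat_lit 249104) (nat_lit 57699010) (nat_lit 2015531) [(nat_lit 249104), (nat_lit 0), (nat_lit 0), (nat_lit 6646958)]) (PF.cons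
 (PF.leaf (nat_lit 3057312) (nat_lit 259562) (nat_lit 57349553) (nat_lit 2043420) [(nat_lit 259562), (nat_lit 0), (nat_lit 0), (nat_lit 6677587)]) (PF.cons (PF.leaf (nat_lit 3266395) (nat_lit 269357) (nat_lit 56983285) (nat_lit 2070954) [(nat_lit 269357), (nat_lit 0), (nat_lit 0), (nat_lit 6707785)]) (PF.cons PF.nil PF.nil))))))) (PF.cons (PF.cons (PF.leaf (nat_lit 2881571) (nat_lit 1038032) (nat_lit 57366703) (nat_lit 2033110) [(nat_lit 0), (nat_lit 1038032), (nat_lit 0), (nat_lit 6670967)]) (PF.cons (PF.leaf (nat_lit 3065015) (nat_lit 257123) (nat_lit 57036678) (nat_lit 2058491) [(nat_lit 257123), (nat_lit 1058163), (nat_lit 0), (nat_lit 6698356)]) (PF.cons (PF.leaf (nat_lit 3262668) (nat_lit 267324) (nat_lit 56686384) (nat_lit 2083961) [(nat_lit 267324), (nat_lit 1078055), (nat_lit 0), (nat_lit 6725761)]) (PF.cons (PF.leaf (nat_lit 3471538) (nat_lit 276829) (nat_lit 56318855) (nat_lit 2109200) [(nat_lit 276829), (nat_lit 1097530), (nat_lit 0), (nat_lit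 6752739)]) (PF.cons PF.nil PF.nil))))) (PF.cons (PF.cons (PF.leaf (nat_lit 3471810) (nat_lit 1103709) (nat_lit 56010854) (nat_lit 2121545) [(nat_lit 0), (nat_lit 1103709), (nat_lit 0), (nat_lit 6768994)]) (PF.cons (PF.leaf
 (nat_lit 3678186) (nat_lit 283574) (nat_lit 55644689) (nat_lit 2144559) [(nat_lit 283574), (nat_lit 1121621), (nat_lit 0), (nat_lit 6792746)]) (PF.cons (PF.leaf (nat_lit 3896128) (nat_lit 292249) (nat_lit 55263072) (nat_lit 2167233) [(nat_lit 292249), (nat_lit 1139118), (nat_lit 0), (nat_lit 6815771)]) (PF.cons PF.nil PF.nil)))) (PF.cons (PF.cons (PF.leaf (nat_lit 4103848) (nat_lit 1160118) (nat_lit 54582772) (nat_lit 2197863) [(nat_lit 0), (nat_lit 1160118), (nat_lit 0), (nat_lit 6847820)]) (PF.cons PF.nil PF.nil)) (PF.cons PF.nil PF.nil))))) (PF.cons (PF.cons (PF.cons (PF.leaf (nat_lit 3475257) (nat_lit 2127711) (nat_lit 55334474) (nat_lit 2127711) [(nat_lit 0), (nat_lit 0), (nat_lit 2862603), (nat_lit 6784023)]) (PF.cons (PF.leaf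 (nat_lit 3666660) (nat_lit 275328) (nat_lit 54995732) (nat_lit 2148828) [(nat_lit 275328), (nat_lit 0), (nat_lit 2885026), (nat_lit 6803897)]) (PF.cons (PF.leaf (nat_lit 3871548) (nat_lit 284965) (nat_lit 54638088) (nat_lit 2169900) [(nat_lit 284965), (nat_lit 0), (nat_lit 2907457), (nat_lit 6823434)]) (PF.cons (PF.leaf (nat_lit 4086943) (nat_lit 293842) (nat_lit 54264724) (nat_lit 2190667) [(nat_lit 293842), (nat_lit 0), (nat_lit 2929596), (nat_lit
 6842297)]) (PF.cons PF.nil PF.nil))))) (PF.cons (PF.cons (PF.leaf (nat_lit 4078317) (nat_lit 1155755) (nat_lit 53961542) (nat_lit 2199520) [(nat_lit 0), (nat_lit 1155755), (nat_lit 2940201), (nat_lit 6851792)]) (PF.cons (PF.leaf (nat_lit 4290356) (nat_lit 299261) (nat_lit 53592065) (nat_lit 2218365) [(nat_lit 299261), (nat_lit 1171127), (nat_lit 2960173), (nat_lit 6867819)]) (PF.cons PF.nil (PF.cons PF.nil PF.nil)))) (PF.cons (PF.cons (PF.leaf (nat_lit 4716147) (nat_lit 1202869) (nat_lit 52535547) (nat_lit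 2260464) [(nat_lit 0), (nat_lit 1202869), (nat_lit 3005545), (nat_lit 6901516)]) (PF.cons PF.nil PF.nil)) PF.nil))) (PF.cons (PF.cons (PF.cons (PF.leaf (nat_lit 4674649) (nat_lit 2258109) (nat_lit 51945662) (nat_lit 2258109) [(nat_lit 0), (nat_lit 0), (nat_lit 3004793), (nat_lit 6895454)]) (PF.cons (PF.leaf (nat_lit 4890319) (nat_lit 312032) (nat_lit 51577863) (nat_lit 2273337) [(nat_lit 312032), (nat_lit 0), (nat_lit 3020413), (nat_lit 6904753)]) (PF.cons PF.nil PF.nil))) (PF.cons (PF.cons (PF.leaf (nat_lit 5313181) (nat_lit 1235619) (nat_lit 50538603) (nat_lit 2305897) [(nat_lit 0), (nat_lit 1235619), (nat_lit 3054199), (nat_lit 6920294)]) PF.nil) PF.nil)) (PF.cons PF.nil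
 (PF.cons PF.nil PF.nil))))) (PF.cons (PF.cons (PF.cons (PF.cons (PF.leaf (nat_lit 4315955) (nat_lit 2195691) (nat_lit 51281205) (nat_lit 2195691) [(nat_lit 0), (nat_lit 0), (nat_lit 0), (nat_lit 6815957)]) (PF.cons (PF.leaf (nat_lit 4508030) (nat_lit 287738) (nat_lit 50959636) (nat_lit 2211794) [(nat_lit 287738), (nat_lit 0), (nat_lit 0), (nat_lit 6824822)]) (PF.cons (PF.leaf (nat_lit 4712669) (nat_lit 296844) (nat_lit 50621293) (nat_lit 2227691) [(nat_lit 296844), (nat_lit 0), (nat_lit 0), (nat_lit 6833069)]) (PF.cons (PF.leaf (nat_lit 4926977) (nat_lit 305110) (nat_lit 50269283) (nat_lit 2243189) [(nat_lit 305110), (nat_lit 0), (nat_lit 0), (nat_lit 6840504)]) (PF.cons PF.nil PF.nil))))) (PF.cons (PF.cons (PF.leaf (nat_lit 4908172) (nat_lit 1189669) (nat_lit 49988406) (nat_lit 2248019) [(nat_lit 0), (nat_lit 1189669), (nat_lit 0), (nat_lit 6841358)]) (PF.cons (PF.leaf (nat_lit 5118361) (nat_lit 309160) (nat_lit 49641936) (nat_lit 2261921) [(nat_lit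 309160), (nat_lit 1202311), (nat_lit 0), (nat_lit 6846741)]) (PF.cons (PF.leaf (nat_lit 5338412) (nat_lit 316572) (nat_lit 49283430) (nat_lit 2275386) [(nat_lit 316572), (nat_lit 1214455), (nat_lit 0), (nat_lit 6851197)]) (PF.cons
 PF.nil PF.nil)))) (PF.cons (PF.cons (PF.leaf (nat_lit 5528287) (nat_lit 1226583) (nat_lit 48660258) (nat_lit 2290819) [(nat_lit 0), (nat_lit 1226583), (nat_lit 0), (nat_lit 6852283)]) (PF.cons PF.nil PF.nil)) (PF.cons PF.nil (PF.cons PF.nil PF.nil))))) (PF.cons (PF.cons (PF.cons (PF.leaf (nat_lit 5468367) (nat_lit 2283335) (nat_lit 48130102) (nat_lit 2283335) [(nat_lit 0), (nat_lit 0), (nat_lit 3026536), (nat_lit 6834419)]) (PF.cons (PF.leaf (nat_lit 5680373) (nat_lit 318568) (nat_lit 47789268) (nat_lit 2294334) [(nat_lit 318568), (nat_lit 0), (nat_lit 3036854), (nat_lit 6834893)]) (PF.cons (PF.leaf (nat_lit 5901658) (nat_lit 325437) (nat_lit 47437551) (nat_lit 2304891) [(nat_lit 325437), (nat_lit 0), (nat_lit 3046690), (nat_lit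 6834402)]) (PF.cons PF.nil PF.nil)))) (PF.cons (PF.cons (PF.leaf (nat_lit 6085303) (nat_lit 1247686) (nat_lit 46833474) (nat_lit 2315808) [(nat_lit 0), (nat_lit 1247686), (nat_lit 3056786), (nat_lit 6827528)]) (PF.cons PF.nil PF.nil)) (PF.cons PF.nil PF.nil))) (PF.cons (PF.cons (PF.cons (PF.leaf (nat_lit 6624587) (nat_lit 2330176) (nat_lit 45078472) (nat_lit 2330176) [(nat_lit 0), (nat_lit 0), (nat_lit 3066804), (nat_lit 6783277)]) (PF.cons PF.nil PF.nil))
 (PF.cons PF.nil PF.nil)) PF.nil))) (PF.cons (PF.cons (PF.cons (PF.cons (PF.leaf (nat_lit 6188679) (nat_lit 2280379) (nat_lit 44690503) (nat_lit 2280379) [(nat_lit 0), (nat_lit 0), (nat_lit 0), (nat_lit 6712643)]) (PF.cons (PF.leaf (nat_lit 6395908) (nat_lit 320996) (nat_lit 44378017) (nat_lit 2288231) [(nat_lit 320996), (nat_lit 0), (nat_lit 0), (nat_lit 6707189)]) (PF.cons PF.nil PF.nil))) (PF.cons (PF.cons (PF.leaf (nat_lit 6782918) (nat_lit 1245991) (nat_lit 43506902) (nat_lit 2301648) [(nat_lit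 0), (nat_lit 1245991), (nat_lit 0), (nat_lit 6684757)]) PF.nil) PF.nil)) (PF.cons PF.nil PF.nil)) (PF.cons PF.nil (PF.cons PF.nil (PF.cons PF.nil (PF.cons PF.nil PF.nil))))))))

def p15_6_0_0 : pfC (piC [(nat_lit 42686981), (nat_lit 27968816), (nat_lit 20557252), (nat_lit 13862945)] (nat_lit 28647042)) p15_6_0 (nat_lit 4) (nat_lit 0) (nat_lit 1) = true := by decide +kernel
def p15_6_0_1 : pfC (piC [(nat_lit 42686981), (nat_lit 27968816), (nat_lit 20557252), (nat_lit 13862945)] (nat_lit 28647042)) p15_6_0 (nat_lit 4) (nat_lit 1) (nat_lit 2) = true := by decide +kernel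
def p15_6_0_2 : pfC (piC [(nat_lit 42686981), (nat_lit 27968816), (nat_lit 20557252), (nat_lit 13862945)] (nat_lit 28647042)) p15_6_0 (nat_lit 4) (nat_lit 2) (nat_lit 3) = true := by decide +kernel
def p15_6_0_3 : pfC (piC [(nat_lit 42686981), (nat_lit 27968816), (nat_lit 20557252), (nat_lit 13862945)] (nat_lit 28647042)) p15_6_0 (nat_lit 4) (nat_lit 3) (nat_lit 4) = true := by decide +kernel
def p15_6_0_4 : pfC (piC [(nat_lit 42686981), (nat_lit 27968816), (nat_lit 20557252), (nat_lit 13862945)] (nat_lit 28647042)) p15_6_0 (nat_lit 4) (nat_lit 4) (nat_lit 5) = true := by decide +kernel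
def p15_6_0_5 : pfC (piC [(nat_lit 42686981), (nat_lit 27968816), (nat_lit 20557252), (nat_lit 13862945)] (nat_lit 28647042)) p15_6_0 (nat_lit 4) (nat_lit 5) (nat_lit 6) = true := by decide +kernel
def p15_6_0_6 : pfC (piC [(nat_lit 42686981), (nat_lit 27968816), (nat_lit 20557252), (nat_lit 13862945)] (nat_lit 28647042)) p15_6_0 (nat_lit 4) (nat_lit 6) (nat_lit 7) = true := by decide +kernel
def p15_6_0_7 : pfC (piC [(nat_lit 42686981), (nat_lit 27968816), (nat_lit 20557252), (nat_lit 13862945)] (nat_lit 28647042)) p15_6_0 (nat_lit 4) (nat_lit 7) (nat_lit 8) = true := by decide +kernel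
def p15_6_0_8 : pfC (piC [(nat_lit 42686981), (nat_lit 27968816), (nat_lit 20557252), (nat_lit 13862945)] (nat_lit 28647042)) p15_6_0 (nat_lit 4) (nat_lit 8) (nat_lit 9) = true := by decide +kernel
def p15_6_0_9 : pfC (piC [(nat_lit 42686981), (nat_lit 27968816), (nat_lit 20557252), (nat_lit 13862945)] (nat_lit 28647042)) p15_6_0 (nat_lit 4) (nat_lit 9) (nat_lit 10) = true := by decide +kernel
def p15_6_0_10 : pfC (piC [(nat_lit 42686981), (nat_lit 27968816), (nat_lit 20557252), (nat_lit 13862945)] (nat_lit 28647042)) p15_6_0 (nat_lit 4) (nat_lit 10) (nat_lit 11) = true := by decide +kernel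
def p15_6_0_11 : pfC (piC [(nat_lit 42686981), (nat_lit 27968816), (nat_lit 20557252), (nat_lit 13862945)] (nat_lit 28647042)) p15_6_0 (nat_lit 4) (nat_lit 11) (nat_lit 12) = true := by decide +kernel
def p15_6_0_12 : pfC (piC [(nat_lit 42686981), (nat_lit 27968816), (nat_lit 20557252), (nat_lit 13862945)] (nat_lit 28647042)) p15_6_0 (nat_lit 4) (nat_lit 12) (nat_lit 13) = true := by decide +kernel
def p15_6_0_13 : pfC (piC [(nat_lit 42686981), (nat_lit 27968816), (nat_lit 20557252), (nat_lit 13862945)] (nat_lit 28647042)) p15_6_0 (nat_lit 4) (nat_lit 13) (nat_lit 14) = true := by decide +kernel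
def p15_6_0_14 : pfC (piC [(nat_lit 42686981), (nat_lit 27968816), (nat_lit 20557252), (nat_lit 13862945)] (nat_lit 28647042)) p15_6_0 (nat_lit 4) (nat_lit 14) (nat_lit 15) = true := by decide +kernel
def p15_6_0_15 : pfC (piC [(nat_lit 42686981), (nat_lit 27968816), (nat_lit 20557252), (nat_lit 13862945)] (nat_lit 28647042)) p15_6_0 (nat_lit 4) (nat_lit 15) (nat_lit 16) = true := by decide +kernel
def p15_6_0_16 : pfC (piC [(nat_lit 42686981), (nat_lit 27968816), (nat_lit 20557252), (nat_lit 13862945)] (nat_lit 28647042)) p15_6_0 (nat_lit 4) (nat_lit 16) (nat_lit 17) = true := by decide +kernel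
def p15_6_0_17 : pfC (piC [(nat_lit 42686981), (nat_lit 27968816), (nat_lit 20557252), (nat_lit 13862945)] (nat_lit 28647042)) p15_6_0 (nat_lit 4) (nat_lit 17) (nat_lit 18) = true := by decide +kernel
def p15_6_0_18 : pfC (piC [(nat_lit 42686981), (nat_lit 27968816), (nat_lit 20557252), (nat_lit 13862945)] (nat_lit 28647042)) p15_6_0 (nat_lit 4) (nat_lit 18) (nat_lit 19) = true := by decide +kernel
def p15_6_0_19 : pfC (piC [(nat_lit 42686981), (nat_lit 27968816), (nat_lit 20557252), (nat_lit 13862945)] (nat_lit 28647042)) p15_6_0 (nat_lit 4) (nat_lit 19) (nat_lit 20) = true := by decide +kernel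
def p15_6_0_20 : pfC (piC [(nat_lit 42686981), (nat_lit 27968816), (nat_lit 20557252), (nat_lit 13862945)] (nat_lit 28647042)) p15_6_0 (nat_lit 4) (nat_lit 20) (nat_lit 21) = true := by decide +kernel
def p15_6_0_21 : pfC (piC [(nat_lit 42686981), (nat_lit 27968816), (nat_lit 20557252), (nat_lit 13862945)] (nat_lit 28647042)) p15_6_0 (nat_lit 4) (nat_lit 21) (nat_lit 22) = true := by decide +kernel
def p15_6_0_22 : pfC (piC [(nat_lit 42686981), (nat_lit 27968816), (nat_lit 20557252), (nat_lit 13862945)] (nat_lit 28647042)) p15_6_0 (nat_lit 4) (nat_lit 22) (nat_lit 23) = true := by decide +kernel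
def p15_6_0_23 : pfC (piC [(nat_lit 42686981), (nat_lit 27968816), (nat_lit 20557252), (nat_lit 13862945)] (nat_lit 28647042)) p15_6_0 (nat_lit 4) (nat_lit 23) (nat_lit 24) = true := by decide +kernel
def p15_6_0_24 : pfC (piC [(nat_lit 42686981), (nat_lit 27968816), (nat_lit 20557252), (nat_lit 13862945)] (nat_lit 28647042)) p15_6_0 (nat_lit 4) (nat_lit 24) (nat_lit 25) = true := by decide +kernel
def p15_6_0_25 : pfC (piC [(nat_lit 42686981), (nat_lit 27968816), (nat_lit 20557252), (nat_lit 13862945)] (nat_lit 28647042)) p15_6_0 (nat_lit 4) (nat_lit 25) (nat_lit 26) = true := by decide +kernel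
def p15_6_0_26 : pfC (piC [(nat_lit 42686981), (nat_lit 27968816), (nat_lit 20557252), (nat_lit 13862945)] (nat_lit 28647042)) p15_6_0 (nat_lit 4) (nat_lit 26) (nat_lit 27) = true := by decide +kernel
def p15_6_0_27 : pfC (piC [(nat_lit 42686981), (nat_lit 27968816), (nat_lit 20557252), (nat_lit 13862945)] (nat_lit 28647042)) p15_6_0 (nat_lit 4) (nat_lit 27) (nat_lit 28) = true := by decide +kernel
def p15_6_0_28 : pfC (piC [(nat_lit 42686981), (nat_lit 27968816), (nat_lit 20557252), (nat_lit 13862945)] (nat_lit 28647042)) p15_6_0 (nat_lit 4) (nat_lit 28) (nat_lit 29) = true := by decide +kernel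
def p15_6_0_29 : pfC (piC [(nat_lit 42686981), (nat_lit 27968816), (nat_lit 20557252), (nat_lit 13862945)] (nat_lit 28647042)) p15_6_0 (nat_lit 4) (nat_lit 29) (nat_lit 30) = true := by decide +kernel
def p15_6_0_30 : pfC (piC [(nat_lit 42686981), (nat_lit 27968816), (nat_lit 20557252), (nat_lit 13862945)] (nat_lit 28647042)) p15_6_0 (nat_lit 4) (nat_lit 30) (nat_lit 31) = true := by decide +kernel
def p15_6_0_31 : pfC (piC [(nat_lit 42686981), (nat_lit 27968816), (nat_lit 20557252), (nat_lit 13862945)] (nat_lit 28647042)) p15_6_0 (nat_lit 4) (nat_lit 31) (nat_lit 32) = true := by decide +kernel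
def p15_6_0_32 : pfC (piC [(nat_lit 42686981), (nat_lit 27968816), (nat_lit 20557252), (nat_lit 13862945)] (nat_lit 28647042)) p15_6_0 (nat_lit 4) (nat_lit 32) (nat_lit 33) = true := by decide +kernel
def p15_6_0_33 : pfC (piC [(nat_lit 42686981), (nat_lit 27968816), (nat_lit 20557252), (nat_lit 13862945)] (nat_lit 28647042)) p15_6_0 (nat_lit 4) (nat_lit 33) (nat_lit 34) = true := by decide +kernel
def p15_6_0_34 : pfC (piC [(nat_lit 42686981), (nat_lit 27968816), (nat_lit 20557252), (nat_lit 13862945)] (nat_lit 28647042)) p15_6_0 (nat_lit 4) (nat_lit 34) (nat_lit 35) = true := by decide +kernel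
def p15_6_0_35 : pfC (piC [(nat_lit 42686981), (nat_lit 27968816), (nat_lit 20557252), (nat_lit 13862945)] (nat_lit 28647042)) p15_6_0 (nat_lit 4) (nat_lit 35) (nat_lit 36) = true := by decide +kernel
def p15_6_0_36 : pfC (piC [(nat_lit 42686981), (nat_lit 27968816), (nat_lit 20557252), (nat_lit 13862945)] (nat_lit 28647042)) p15_6_0 (nat_lit 4) (nat_lit 36) (nat_lit 37) = true := by decide +kernel
def p15_6_0_37 : pfC (piC [(nat_lit 42686981), (nat_lit 27968816), (nat_lit 20557252), (nat_lit 13862945)] (nat_lit 28647042)) p15_6_0 (nat_lit 4) (nat_lit 37) (nat_lit 38) = true := by decide +kernel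
def p15_6_0_38 : pfC (piC [(nat_lit 42686981), (nat_lit 27968816), (nat_lit 20557252), (nat_lit 13862945)] (nat_lit 28647042)) p15_6_0 (nat_lit 4) (nat_lit 38) (nat_lit 39) = true := by decide +kernel
def p15_6_0_39 : pfC (piC [(nat_lit 42686981), (nat_lit 27968816), (nat_lit 20557252), (nat_lit 13862945)] (nat_lit 28647042)) p15_6_0 (nat_lit 4) (nat_lit 39) (nat_lit 40) = true := by decide +kernel
def p15_6_0_40 : pfC (piC [(nat_lit 42686981), (nat_lit 27968816), (nat_lit 20557252), (nat_lit 13862945)] (nat_lit 28647042)) p15_6_0 (nat_lit 4) (nat_lit 40) (nat_lit 41) = true := by decide +kernel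
def p15_6_0_41 : pfC (piC [(nat_lit 42686981), (nat_lit 27968816), (nat_lit 20557252), (nat_lit 13862945)] (nat_lit 28647042)) p15_6_0 (nat_lit 4) (nat_lit 41) (nat_lit 42) = true := by decide +kernel
def p15_6_0_42 : pfC (piC [(nat_lit 42686981), (nat_lit 27968816), (nat_lit 20557252), (nat_lit 13862945)] (nat_lit 28647042)) p15_6_0 (nat_lit 4) (nat_lit 42) (nat_lit 43) = true := by decide +kernel
def p15_6_0_43 : pfC (piC [(nat_lit 42686981), (nat_lit 27968816), (nat_lit 20557252), (nat_lit 13862945)] (nat_lit 28647042)) p15_6_0 (nat_lit 4) (nat_lit 43) (nat_lit 44) = true := by decide +kernel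
def p15_6_0_44 : pfC (piC [(nat_lit 42686981), (nat_lit 27968816), (nat_lit 20557252), (nat_lit 13862945)] (nat_lit 28647042)) p15_6_0 (nat_lit 4) (nat_lit 44) (nat_lit 45) = true := by decide +kernel
def p15_6_0_45 : pfC (piC [(nat_lit 42686981), (nat_lit 27968816), (nat_lit 20557252), (nat_lit 13862945)] (nat_lit 28647042)) p15_6_0 (nat_lit 4) (nat_lit 45) (nat_lit 46) = true := by decide +kernel
def p15_6_0_46 : pfC (piC [(nat_lit 42686981), (nat_lit 27968816), (nat_lit 20557252), (nat_lit 13862945)] (nat_lit 28647042)) p15_6_0 (nat_lit 4) (nat_lit 46) (nat_lit 47) = true := by decide +kernel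
def p15_6_0_47 : pfC (piC [(nat_lit 42686981), (nat_lit 27968816), (nat_lit 20557252), (nat_lit 13862945)] (nat_lit 28647042)) p15_6_0 (nat_lit 4) (nat_lit 47) (nat_lit 48) = true := by decide +kernel
def p15_6_0_48 : pfC (piC [(nat_lit 42686981), (nat_lit 27968816), (nat_lit 20557252), (nat_lit 13862945)] (nat_lit 28647042)) p15_6_0 (nat_lit 4) (nat_lit 48) (nat_lit 49) = true := by decide +kernel
def p15_6_0_49 : pfC (piC [(nat_lit 42686981), (nat_lit 27968816), (nat_lit 20557252), (nat_lit 13862945)] (nat_lit 28647042)) p15_6_0 (nat_lit 4) (nat_lit 49) (nat_lit 50) = true := by decide +kernel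
def p15_6_0_50 : pfC (piC [(nat_lit 42686981), (nat_lit 27968816), (nat_lit 20557252), (nat_lit 13862945)] (nat_lit 28647042)) p15_6_0 (nat_lit 4) (nat_lit 50) (nat_lit 51) = true := by decide +kernel
def p15_6_0_51 : pfC (piC [(nat_lit 42686981), (nat_lit 27968816), (nat_lit 20557252), (nat_lit 13862945)] (nat_lit 28647042)) p15_6_0 (nat_lit 4) (nat_lit 51) (nat_lit 52) = true := by decide +kernel
def p15_6_0_52 : pfC (piC [(nat_lit 42686981), (nat_lit 27968816), (nat_lit 20557252), (nat_lit 13862945)] (nat_lit 28647042)) p15_6_0 (nat_lit 4) (nat_lit 52) (nat_lit 53) = true := by decide +kernel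
def p15_6_0_53 : pfC (piC [(nat_lit 42686981), (nat_lit 27968816), (nat_lit 20557252), (nat_lit 13862945)] (nat_lit 28647042)) p15_6_0 (nat_lit 4) (nat_lit 53) (nat_lit 54) = true := by decide +kernel
def p15_6_0_54 : pfC (piC [(nat_lit 42686981), (nat_lit 27968816), (nat_lit 20557252), (nat_lit 13862945)] (nat_lit 28647042)) p15_6_0 (nat_lit 4) (nat_lit 54) (nat_lit 55) = true := by decide +kernel
def p15_6_0_55 : pfC (piC [(nat_lit 42686981), (nat_lit 27968816), (nat_lit 20557252), (nat_lit 13862945)] (nat_lit 28647042)) p15_6_0 (nat_lit 4) (nat_lit 55) (nat_lit 56) = true := by decide +kernel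
def p15_6_0_56 : pfC (piC [(nat_lit 42686981), (nat_lit 27968816), (nat_lit 20557252), (nat_lit 13862945)] (nat_lit 28647042)) p15_6_0 (nat_lit 4) (nat_lit 56) (nat_lit 57) = true := by decide +kernel
def p15_6_0_57 : pfC (piC [(nat_lit 42686981), (nat_lit 27968816), (nat_lit 20557252), (nat_lit 13862945)] (nat_lit 28647042)) p15_6_0 (nat_lit 4) (nat_lit 57) (nat_lit 58) = true := by decide +kernel
def p15_6_0_58 : pfC (piC [(nat_lit 42686981), (nat_lit 27968816), (nat_lit 20557252), (nat_lit 13862945)] (nat_lit 28647042)) p15_6_0 (nat_lit 4) (nat_lit 58) (nat_lit 59) = true := by decide +kernel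
def p15_6_0_59 : pfC (piC [(nat_lit 42686981), (nat_lit 27968816), (nat_lit 20557252), (nat_lit 13862945)] (nat_lit 28647042)) p15_6_0 (nat_lit 4) (nat_lit 59) (nat_lit 60) = true := by decide +kernel
def p15_6_0_60 : pfC (piC [(nat_lit 42686981), (nat_lit 27968816), (nat_lit 20557252), (nat_lit 13862945)] (nat_lit 28647042)) p15_6_0 (nat_lit 4) (nat_lit 60) (nat_lit 61) = true := by decide +kernel
def p15_6_0_61 : pfC (piC [(nat_lit 42686981), (nat_lit 27968816), (nat_lit 20557252), (nat_lit 13862945)] (nat_lit 28647042)) p15_6_0 (nat_lit 4) (nat_lit 61) (nat_lit 62) = true := by decide +kernel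
def p15_6_0_62 : pfC (piC [(nat_lit 42686981), (nat_lit 27968816), (nat_lit 20557252), (nat_lit 13862945)] (nat_lit 28647042)) p15_6_0 (nat_lit 4) (nat_lit 62) (nat_lit 63) = true := by decide +kernel
theorem p15_6_0_T : PfS (PiF n15_6.reverse (nat_lit 28647042)) p15_6_0 (nat_lit 4) [] 0 :=
  pftab_of (los := [(nat_lit 42686981), (nat_lit 27968816), (nat_lit 20557252), (nat_lit 13862945)]) (by decide +kernel) (hi := (nat_lit 63)) (PfP.trans (PfP.trans (PfP.trans (PfP.trans (PfP.trans (PfP.trans (PfP.trans (PfP.trans (PfP.trans (PfP.trans (PfP.trans (PfP.trans (PfP.trans (PfP.trans (PfP.trans (PfP.trans (PfP.trans (PfP.trans (PfP.trans (PfP.trans (PfP.trans (PfP.trans (PfP.trans (PfP.trans (PfP.trans (PfP.trans (PfP.trans (PfP.trans (PfP.trans (PfP.trans (PfP.trans (PfP.trans (PfP.trans (PfP.trans (PfP.trans (PfP.trans (PfP.trans (PfP.trans (PfP.trans (PfP.trans (PfP.trans (PfP.trans (PfP.trans (PfP.trans (PfP.trans (PfP.trans (PfP.trans (PfP.trans (PfP.trans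 (PfP.trans (PfP.trans (PfP.trans (PfP.trans (PfP.trans (PfP.trans (PfP.trans (PfP.trans (PfP.trans (PfP.trans (PfP.trans (PfP.trans (PfP.trans (pfC_sound p15_6_0_0) (pfC_sound p15_6_0_1)) (pfC_sound p15_6_0_2)) (pfC_sound p15_6_0_3)) (pfC_sound p15_6_0_4)) (pfC_sound p15_6_0_5)) (pfC_sound p15_6_0_6)) (pfC_sound p15_6_0_7)) (pfC_sound p15_6_0_8)) (pfC_sound p15_6_0_9)) (pfC_sound p15_6_0_10)) (pfC_sound p15_6_0_11)) (pfC_sound p15_6_0_12)) (pfC_sound p15_6_0_13)) (pfC_sound p15_6_0_14)) (pfC_sound p15_6_0_15)) (pfC_sound p15_6_0_16)) (pfC_sound p15_6_0_17)) (pfC_sound p15_6_0_18)) (pfC_sound p15_6_0_19)) (pfC_sound p15_6_0_20)) (pfC_sound p15_6_0_21))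
 (pfC_sound p15_6_0_22)) (pfC_sound p15_6_0_23)) (pfC_sound p15_6_0_24)) (pfC_sound p15_6_0_25)) (pfC_sound p15_6_0_26)) (pfC_sound p15_6_0_27)) (pfC_sound p15_6_0_28)) (pfC_sound p15_6_0_29)) (pfC_sound p15_6_0_30)) (pfC_sound p15_6_0_31)) (pfC_sound p15_6_0_32)) (pfC_sound p15_6_0_33)) (pfC_sound p15_6_0_34)) (pfC_sound p15_6_0_35)) (pfC_sound p15_6_0_36)) (pfC_sound p15_6_0_37)) (pfC_sound p15_6_0_38)) (pfC_sound p15_6_0_39)) (pfC_sound p15_6_0_40)) (pfC_sound p15_6_0_41)) (pfC_sound p15_6_0_42)) (pfC_sound p15_6_0_43)) (pfC_sound p15_6_0_44)) (pfC_sound p15_6_0_45)) (pfC_sound p15_6_0_46)) (pfC_sound p15_6_0_47)) (pfC_sound p15_6_0_48)) (pfC_sound p15_6_0_49)) (pfC_sound p15_6_0_50)) (pfC_sound p15_6_0_51)) (pfC_sound p15_6_0_52)) (pfC_sound p15_6_0_53)) (pfC_sound p15_6_0_54)) (pfC_sound p15_6_0_55)) (pfC_sound p15_6_0_56)) (pfC_sound p15_6_0_57)) (pfC_sound p15_6_0_58)) (pfC_sound p15_6_0_59)) (pfC_sound p15_6_0_60)) (pfC_sound p15_6_0_61)) (pfC_sound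 p15_6_0_62)) (by decide +kernel)

def z15_6_0 : zOK yB15_6 (nat_lit 0) (nat_lit 0) (nat_lit 400) (nat_lit 28647042) (nat_lit 10051221) = true := by decide +kernel
def g15_6_0 : gOK yB15_6.x P15_6 (nat_lit 1426) (q15_6 :: r15_6) (nat_lit 0) (nat_lit 0) (nat_lit 1) (nat_lit 400) (nat_lit 0) (nat_lit 11000000) (nat_lit 12712500) (nat_lit 12712500) [(nat_lit 800), (nat_lit 1400), (nat_lit 1580)] = true := by decide +kernel
def v15_6_0 : ivC P15_6 s15_6 w15_6 n15_6 (nat_lit 4) (nat_lit 5540) (nat_lit 0) (nat_lit 0) f128_1_0 f136_1_0 (nat_lit 1) (nat_lit 400) f128_1_400 f136_1_400 (nat_lit 28647042) (nat_lit 10051221) p15_6_0 = true := by decide +kernel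
def p15_6_1 : PF := (PF.cons (PF.cons (PF.cons (PF.cons (PF.leaf (nat_lit 2203845) (nat_lit 10781971) (nat_lit 56326841) (nat_lit 10781971) [(nat_lit 0), (nat_lit 0), (nat_lit 0), (nat_lit 0)]) (PF.cons (PF.leaf (nat_lit 2313829) (nat_lit 178445) (nat_lit 56137220) (nat_lit 10793147) [(nat_lit 178445), (nat_lit 0), (nat_lit 0), (nat_lit 0)]) (PF.cons (PF.leaf (nat_lit 2447446) (nat_lit 194372) (nat_lit 55914604) (nat_lit 10805464) [(nat_lit 194372), (nat_lit 0), (nat_lit 0), (nat_lit 0)]) (PF.cons (PF.leaf (nat_lit 2597869) (nat_lit 208639) (nat_lit 55664596) (nat_lit 10818297) [(nat_lit 208639), (nat_lit 0), (nat_lit 0), (nat_lit 0)]) (PF.cons PF.nil PF.nil))))) (PF.cons (PF.cons (PF.leaf (nat_lit 2644400) (nat_lit 944012) (nat_lit 55334750) (nat_lit 10830050) [(nat_lit 0), (nat_lit 944012), (nat_lit 0), (nat_lit 0)]) (PF.cons (PF.leaf (nat_lit 2791478) (nat_lit 218932) (nat_lit 55082404) (nat_lit 10840579) [(nat_lit 218932), (nat_lit 966896), (nat_lit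 0), (nat_lit 0)]) (PF.cons (PF.leaf (nat_lit 2956403) (nat_lit 231423) (nat_lit 54805205) (nat_lit 10851017) [(nat_lit 231423), (nat_lit 989742), (nat_lit 0), (nat_lit 0)]) (PF.cons PF.nil PF.nil)))) (PF.cons (PF.cons (PF.leaf (nat_lit 3155532)
 (nat_lit 1021133) (nat_lit 54200419) (nat_lit 10866126) [(nat_lit 0), (nat_lit 1021133), (nat_lit 0), (nat_lit 0)]) (PF.cons (PF.leaf (nat_lit 3331159) (nat_lit 251046) (nat_lit 53901726) (nat_lit 10873441) [(nat_lit 251046), (nat_lit 1041299), (nat_lit 0), (nat_lit 0)]) PF.nil)) (PF.cons PF.nil (PF.cons PF.nil PF.nil))))) (PF.cons (PF.cons (PF.cons (PF.leaf (nat_lit 3187851) (nat_lit 2744803) (nat_lit 53505623) (nat_lit 10858385) [(nat_lit 0), (nat_lit 0), (nat_lit 2744803), (nat_lit 0)]) (PF.cons (PF.leaf (nat_lit 3345014) (nat_lit 239270) (nat_lit 53239878) (nat_lit 10862700) [(nat_lit 239270), (nat_lit 0), (nat_lit 2766963), (nat_lit 0)]) (PF.cons (PF.leaf (nat_lit 3519148) (nat_lit 251220) (nat_lit 52950250)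 (nat_lit 10866336) [(nat_lit 251220), (nat_lit 0), (nat_lit 2789786), (nat_lit 0)]) (PF.cons PF.nil PF.nil)))) (PF.cons (PF.cons (PF.leaf (nat_lit 3718554) (nat_lit 1080002) (nat_lit 52335365) (nat_lit 10866858) [(nat_lit 0), (nat_lit 1080002), (nat_lit 2826586), (nat_lit 0)]) (PF.cons PF.nil PF.nil)) (PF.cons PF.nil PF.nil))) (PF.cons (PF.cons (PF.cons (PF.leaf (nat_lit 4277786) (nat_lit 2897440) (nat_lit 50485679) (nat_lit 10828253) [(nat_lit 0), (nat_lit 0), (nat_lit
 2897440), (nat_lit 0)]) (PF.cons PF.nil PF.nil)) (PF.cons PF.nil PF.nil)) (PF.cons PF.nil (PF.cons PF.nil PF.nil))))) (PF.cons (PF.cons (PF.cons (PF.cons (PF.leaf (nat_lit 3978493) (nat_lit 6656708) (nat_lit 49729115) (nat_lit 10722989) [(nat_lit 0), (nat_lit 0), (nat_lit 0), (nat_lit 6656708)]) (PF.cons (PF.leaf (nat_lit 4138428) (nat_lit 251875) (nat_lit 49474123) (nat_lit 10717707) [(nat_lit 251875), (nat_lit 0), (nat_lit 0), (nat_lit 6665106)]) (PF.cons (PF.leaf (nat_lit 4314775)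 (nat_lit 263533) (nat_lit 49197238) (nat_lit 10711138) [(nat_lit 263533), (nat_lit 0), (nat_lit 0), (nat_lit 6673369)]) (PF.cons (PF.leaf (nat_lit 4503260) (nat_lit 273912) (nat_lit 48902644) (nat_lit 10703217) [(nat_lit 273912), (nat_lit 0), (nat_lit 0), (nat_lit 6681215)]) (PF.cons PF.nil PF.nil))))) (PF.cons (PF.cons (PF.leaf (nat_lit 4506583) (nat_lit 1116944) (nat_lit 48617012) (nat_lit 10691317) [(nat_lit 0), (nat_lit 1116944), (nat_lit 0), (nat_lit 6683537)]) (PF.cons (PF.leaf (nat_lit 4690565) (nat_lit 279080) (nat_lit 48326677) (nat_lit 10681702) [(nat_lit 279080), (nat_lit 1131834), (nat_lit 0), (nat_lit 6689518)]) (PF.cons PF.nil (PF.cons PF.nil PF.nil)))) (PF.cons (PF.cons (PF.leaf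
 (nat_lit 5073917) (nat_lit 1161496) (nat_lit 47443679) (nat_lit 10643819) [(nat_lit 0), (nat_lit 1161496), (nat_lit 0), (nat_lit 6698320)]) (PF.cons PF.nil PF.nil)) PF.nil))) (PF.cons (PF.cons (PF.cons (PF.leaf (nat_lit 5038593) (nat_lit 2924640) (nat_lit 46901215) (nat_lit 10601408) [(nat_lit 0), (nat_lit 0), (nat_lit 2924640), (nat_lit 6681548)]) (PF.cons (PF.leaf (nat_lit 5226227) (nat_lit 290257) (nat_lit 46611949) (nat_lit 10587081) [(nat_lit 290257), (nat_lit 0), (nat_lit 2936267), (nat_lit 6683257)]) (PF.cons PF.nil PF.nil))) (PF.cons (PF.cons (PF.leaf (nat_lit 5608040) (nat_lit 1187521) (nat_lit 45744345) (nat_lit 10536172) [(nat_lit 0), (nat_lit 1187521), (nat_lit 2960832), (nat_lit 6679940)]) PF.nil) PF.nil)) (PF.cons PF.nil PF.nil))) (PF.cons (PF.cons (PF.cons (PF.cons (PF.leaf (nat_lit 5737923) (nat_lit 6568822) (nat_lit 43655962) (nat_lit 10315205) [(nat_lit 0), (nat_lit 0), (nat_lit 0), (nat_lit 6568822)]) (PF.cons (PF.leaf (nat_lit 5922830)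 (nat_lit 293834) (nat_lit 43388696) (nat_lit 10295556) [(nat_lit 293834), (nat_lit 0), (nat_lit 0), (nat_lit 6565362)]) (PF.cons PF.nil PF.nil))) (PF.cons (PF.cons (PF.leaf (nat_lit 6290985) (nat_lit 1189941) (nat_lit 42592587)
 (nat_lit 10230424) [(nat_lit 0), (nat_lit 1189941), (nat_lit 0), (nat_lit 6547929)]) PF.nil) PF.nil)) (PF.cons PF.nil PF.nil)) (PF.cons PF.nil (PF.cons PF.nil (PF.cons PF.nil PF.nil))))))

def p15_6_1_0 : pfC (piC [(nat_lit 42686981), (nat_lit 27968816), (nat_lit 20557252), (nat_lit 13862945)] (nat_lit 10051221)) p15_6_1 (nat_lit 4) (nat_lit 0) (nat_lit 1) = true := by decide +kernel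
def p15_6_1_1 : pfC (piC [(nat_lit 42686981), (nat_lit 27968816), (nat_lit 20557252), (nat_lit 13862945)] (nat_lit 10051221)) p15_6_1 (nat_lit 4) (nat_lit 1) (nat_lit 2) = true := by decide +kernel
def p15_6_1_2 : pfC (piC [(nat_lit 42686981), (nat_lit 27968816), (nat_lit 20557252), (nat_lit 13862945)] (nat_lit 10051221)) p15_6_1 (nat_lit 4) (nat_lit 2) (nat_lit 3) = true := by decide +kernel
def p15_6_1_3 : pfC (piC [(nat_lit 42686981), (nat_lit 27968816), (nat_lit 20557252), (nat_lit 13862945)] (nat_lit 10051221)) p15_6_1 (nat_lit 4) (nat_lit 3) (nat_lit 4) = true := by decide +kernel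
def p15_6_1_4 : pfC (piC [(nat_lit 42686981), (nat_lit 27968816), (nat_lit 20557252), (nat_lit 13862945)] (nat_lit 10051221)) p15_6_1 (nat_lit 4) (nat_lit 4) (nat_lit 5) = true := by decide +kernel
def p15_6_1_5 : pfC (piC [(nat_lit 42686981), (nat_lit 27968816), (nat_lit 20557252), (nat_lit 13862945)] (nat_lit 10051221)) p15_6_1 (nat_lit 4) (nat_lit 5) (nat_lit 6) = true := by decide +kernel
def p15_6_1_6 : pfC (piC [(nat_lit 42686981), (nat_lit 27968816), (nat_lit 20557252), (nat_lit 13862945)] (nat_lit 10051221)) p15_6_1 (nat_lit 4) (nat_lit 6) (nat_lit 7) = true := by decide +kernel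
def p15_6_1_7 : pfC (piC [(nat_lit 42686981), (nat_lit 27968816), (nat_lit 20557252), (nat_lit 13862945)] (nat_lit 10051221)) p15_6_1 (nat_lit 4) (nat_lit 7) (nat_lit 8) = true := by decide +kernel
def p15_6_1_8 : pfC (piC [(nat_lit 42686981), (nat_lit 27968816), (nat_lit 20557252), (nat_lit 13862945)] (nat_lit 10051221)) p15_6_1 (nat_lit 4) (nat_lit 8) (nat_lit 9) = true := by decide +kernel
def p15_6_1_9 : pfC (piC [(nat_lit 42686981), (nat_lit 27968816), (nat_lit 20557252), (nat_lit 13862945)] (nat_lit 10051221)) p15_6_1 (nat_lit 4) (nat_lit 9) (nat_lit 10) = true := by decide +kernel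
def p15_6_1_10 : pfC (piC [(nat_lit 42686981), (nat_lit 27968816), (nat_lit 20557252), (nat_lit 13862945)] (nat_lit 10051221)) p15_6_1 (nat_lit 4) (nat_lit 10) (nat_lit 11) = true := by decide +kernel
def p15_6_1_11 : pfC (piC [(nat_lit 42686981), (nat_lit 27968816), (nat_lit 20557252), (nat_lit 13862945)] (nat_lit 10051221)) p15_6_1 (nat_lit 4) (nat_lit 11) (nat_lit 12) = true := by decide +kernel
def p15_6_1_12 : pfC (piC [(nat_lit 42686981), (nat_lit 27968816), (nat_lit 20557252), (nat_lit 13862945)] (nat_lit 10051221)) p15_6_1 (nat_lit 4) (nat_lit 12) (nat_lit 13) = true := by decide +kernel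
def p15_6_1_13 : pfC (piC [(nat_lit 42686981), (nat_lit 27968816), (nat_lit 20557252), (nat_lit 13862945)] (nat_lit 10051221)) p15_6_1 (nat_lit 4) (nat_lit 13) (nat_lit 14) = true := by decide +kernel
def p15_6_1_14 : pfC (piC [(nat_lit 42686981), (nat_lit 27968816), (nat_lit 20557252), (nat_lit 13862945)] (nat_lit 10051221)) p15_6_1 (nat_lit 4) (nat_lit 14) (nat_lit 15) = true := by decide +kernel
def p15_6_1_15 : pfC (piC [(nat_lit 42686981), (nat_lit 27968816), (nat_lit 20557252), (nat_lit 13862945)] (nat_lit 10051221)) p15_6_1 (nat_lit 4) (nat_lit 15) (nat_lit 16) = true := by decide +kernel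
def p15_6_1_16 : pfC (piC [(nat_lit 42686981), (nat_lit 27968816), (nat_lit 20557252), (nat_lit 13862945)] (nat_lit 10051221)) p15_6_1 (nat_lit 4) (nat_lit 16) (nat_lit 17) = true := by decide +kernel
def p15_6_1_17 : pfC (piC [(nat_lit 42686981), (nat_lit 27968816), (nat_lit 20557252), (nat_lit 13862945)] (nat_lit 10051221)) p15_6_1 (nat_lit 4) (nat_lit 17) (nat_lit 18) = true := by decide +kernel
def p15_6_1_18 : pfC (piC [(nat_lit 42686981), (nat_lit 27968816), (nat_lit 20557252), (nat_lit 13862945)] (nat_lit 10051221)) p15_6_1 (nat_lit 4) (nat_lit 18) (nat_lit 19) = true := by decide +kernel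
def p15_6_1_19 : pfC (piC [(nat_lit 42686981), (nat_lit 27968816), (nat_lit 20557252), (nat_lit 13862945)] (nat_lit 10051221)) p15_6_1 (nat_lit 4) (nat_lit 19) (nat_lit 20) = true := by decide +kernel
def p15_6_1_20 : pfC (piC [(nat_lit 42686981), (nat_lit 27968816), (nat_lit 20557252), (nat_lit 13862945)] (nat_lit 10051221)) p15_6_1 (nat_lit 4) (nat_lit 20) (nat_lit 21) = true := by decide +kernel
def p15_6_1_21 : pfC (piC [(nat_lit 42686981), (nat_lit 27968816), (nat_lit 20557252), (nat_lit 13862945)] (nat_lit 10051221)) p15_6_1 (nat_lit 4) (nat_lit 21) (nat_lit 22) = true := by decide +kernel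
def p15_6_1_22 : pfC (piC [(nat_lit 42686981), (nat_lit 27968816), (nat_lit 20557252), (nat_lit 13862945)] (nat_lit 10051221)) p15_6_1 (nat_lit 4) (nat_lit 22) (nat_lit 23) = true := by decide +kernel
def p15_6_1_23 : pfC (piC [(nat_lit 42686981), (nat_lit 27968816), (nat_lit 20557252), (nat_lit 13862945)] (nat_lit 10051221)) p15_6_1 (nat_lit 4) (nat_lit 23) (nat_lit 24) = true := by decide +kernel
def p15_6_1_24 : pfC (piC [(nat_lit 42686981), (nat_lit 27968816), (nat_lit 20557252), (nat_lit 13862945)] (nat_lit 10051221)) p15_6_1 (nat_lit 4) (nat_lit 24) (nat_lit 25) = true := by decide +kernel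
def p15_6_1_25 : pfC (piC [(nat_lit 42686981), (nat_lit 27968816), (nat_lit 20557252), (nat_lit 13862945)] (nat_lit 10051221)) p15_6_1 (nat_lit 4) (nat_lit 25) (nat_lit 26) = true := by decide +kernel
def p15_6_1_26 : pfC (piC [(nat_lit 42686981), (nat_lit 27968816), (nat_lit 20557252), (nat_lit 13862945)] (nat_lit 10051221)) p15_6_1 (nat_lit 4) (nat_lit 26) (nat_lit 27) = true := by decide +kernel
theorem p15_6_1_T : PfS (PiF n15_6.reverse (nat_lit 10051221)) p15_6_1 (nat_lit 4) [] 0 :=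
  pftab_of (los := [(nat_lit 42686981), (nat_lit 27968816), (nat_lit 20557252), (nat_lit 13862945)]) (by decide +kernel) (hi := (nat_lit 27)) (PfP.trans (PfP.trans (PfP.trans (PfP.trans (PfP.trans (PfP.trans (PfP.trans (PfP.trans (PfP.trans (PfP.trans (PfP.trans (PfP.trans (PfP.trans (PfP.trans (PfP.trans (PfP.trans (PfP.trans (PfP.trans (PfP.trans (PfP.trans (PfP.trans (PfP.trans (PfP.trans (PfP.trans (PfP.trans (PfP.trans (pfC_sound p15_6_1_0) (pfC_sound p15_6_1_1)) (pfC_sound p15_6_1_2)) (pfC_sound p15_6_1_3)) (pfC_sound p15_6_1_4)) (pfC_sound p15_6_1_5)) (pfC_sound p15_6_1_6)) (pfC_sound p15_6_1_7)) (pfC_sound p15_6_1_8)) (pfC_sound p15_6_1_9)) (pfC_sound p15_6_1_10)) (pfC_sound p15_6_1_11)) (pfC_sound p15_6_1_12)) (pfC_sound p15_6_1_13)) (pfC_sound p15_6_1_14)) (pfC_sound p15_6_1_15)) (pfC_sound p15_6_1_16)) (pfC_sound p15_6_1_17)) (pfC_sound p15_6_1_18)) (pfC_sound p15_6_1_19)) (pfC_sound p15_6_1_20)) (pfC_sound p15_6_1_21)) (pfC_sound p15_6_1_22))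 (pfC_sound p15_6_1_23)) (pfC_sound p15_6_1_24)) (pfC_sound p15_6_1_25)) (pfC_sound p15_6_1_26)) (by decide +kernel)

def z15_6_1 : zOK yB15_6 (nat_lit 1) (nat_lit 400) (nat_lit 600) (nat_lit 10051221) (nat_lit 6481740) = true := by decide +kernel
def g15_6_1 : gOK yB15_6.x P15_6 (nat_lit 1426) (q15_6 :: r15_6) (nat_lit 1) (nat_lit 400) (nat_lit 2) (nat_lit 600) (nat_lit 11000000) (nat_lit 17850000) (nat_lit 12712500) (nat_lit 12712500) [(nat_lit 800), (nat_lit 1040)] = true := by decide +kernel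
def v15_6_1 : ivC P15_6 s15_6 w15_6 n15_6 (nat_lit 4) (nat_lit 5140) (nat_lit 1) (nat_lit 400) f128_1_400 f136_1_400 (nat_lit 2) (nat_lit 600) f128_1_600 f136_1_600 (nat_lit 10051221) (nat_lit 6481740) p15_6_1 = true := by decide +kernel
def p15_6_2 : PF := (PF.cons (PF.cons (PF.cons (PF.cons (PF.leaf (nat_lit 2807869) (nat_lit 16730792) (nat_lit 50378020) (nat_lit 16730792) [(nat_lit 0), (nat_lit 0), (nat_lit 0), (nat_lit 0)]) (PF.cons (PF.leaf (nat_lit 2914872) (nat_lit 177808) (nat_lit 50215102) (nat_lit 16715901) [(nat_lit 177808), (nat_lit 0), (nat_lit 0), (nat_lit 0)]) (PF.cons (PF.leaf (nat_lit 3044747) (nat_lit 193419) (nat_lit 50024034) (nat_lit 16697938) [(nat_lit 193419), (nat_lit 0), (nat_lit 0), (nat_lit 0)]) (PF.cons (PF.leaf (nat_lit 3190671) (nat_lit 207318) (nat_lit 49809696) (nat_lit 16677161) [(nat_lit 207318), (nat_lit 0), (nat_lit 0), (nat_lit 0)]) (PF.cons (PF.leaf (nat_lit 3350335) (nat_lit 219899) (nat_lit 49575499) (nat_lit 16653714)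 [(nat_lit 219899), (nat_lit 0), (nat_lit 0), (nat_lit 0)]) (PF.cons PF.nil (PF.cons PF.nil PF.nil))))))) (PF.cons (PF.cons (PF.leaf (nat_lit 3231372) (nat_lit 933991) (nat_lit 49528201) (nat_lit 16646620) [(nat_lit 0), (nat_lit 933991), (nat_lit 0), (nat_lit 0)]) (PF.cons (PF.leaf (nat_lit 3373471) (nat_lit 216841) (nat_lit 49312421) (nat_lit 16624151) [(nat_lit 216841), (nat_lit 955398), (nat_lit 0), (nat_lit 0)]) (PF.cons (PF.leaf (nat_lit 3532473) (nat_lit 228889) (nat_lit
 49075639) (nat_lit 16598766) [(nat_lit 228889), (nat_lit 976628), (nat_lit 0), (nat_lit 0)]) (PF.cons (PF.leaf (nat_lit 3704341) (nat_lit 239872) (nat_lit 48821206) (nat_lit 16570650) [(nat_lit 239872), (nat_lit 997338), (nat_lit 0), (nat_lit 0)]) (PF.cons PF.nil PF.nil))))) (PF.cons (PF.cons (PF.leaf (nat_lit 3719616) (nat_lit 1004692) (nat_lit 48560812) (nat_lit 16538615) [(nat_lit 0), (nat_lit 1004692), (nat_lit 0), (nat_lit 0)]) (PF.cons (PF.leaf (nat_lit 3888242) (nat_lit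 247223) (nat_lit 48306489) (nat_lit 16508751) [(nat_lit 247223), (nat_lit 1023174), (nat_lit 0), (nat_lit 0)]) (PF.cons PF.nil (PF.cons PF.nil PF.nil)))) (PF.cons (PF.cons (PF.leaf (nat_lit 4255998) (nat_lit 1062968) (nat_lit 47512171) (nat_lit 16407735) [(nat_lit 0), (nat_lit 1062968), (nat_lit 0), (nat_lit 0)]) (PF.cons PF.nil PF.nil)) (PF.cons PF.nil PF.nil))))) (PF.cons (PF.cons (PF.cons (PF.leaf (nat_lit 3739278) (nat_lit 2679528) (nat_lit 47975421) (nat_lit 16453862) [(nat_lit 0), (nat_lit 0), (nat_lit 2679528), (nat_lit 0)]) (PF.cons (PF.leaf (nat_lit 3889978) (nat_lit 235021) (nat_lit 47749532) (nat_lit 16425791) [(nat_lit 235021), (nat_lit 0), (nat_lit 2698467), (nat_lit 0)]) (PF.cons (PF.leaf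
 (nat_lit 4057027) (nat_lit 246466) (nat_lit 47503532) (nat_lit 16394492) [(nat_lit 246466), (nat_lit 0), (nat_lit 2717854), (nat_lit 0)]) (PF.cons (PF.leaf (nat_lit 4236083) (nat_lit 256751) (nat_lit 47241034) (nat_lit 16360269) [(nat_lit 256751), (nat_lit 0), (nat_lit 2737253), (nat_lit 0)]) (PF.cons PF.nil PF.nil))))) (PF.cons (PF.cons (PF.leaf (nat_lit 4243320) (nat_lit 1054809) (nat_lit 46982753) (nat_lit 16323411) [(nat_lit 0), (nat_lit 1054809), (nat_lit 2747838), (nat_lit 0)]) (PF.cons (PF.leaf (nat_lit 4418420) (nat_lit 262525) (nat_lit 46722792) (nat_lit 16287857) [(nat_lit 262525), (nat_lit 1070578), (nat_lit 2765059), (nat_lit 0)]) (PF.cons PF.nil (PF.cons PF.nil PF.nil)))) (PF.cons (PF.cons (PF.leaf (nat_lit 4788995) (nat_lit 1103161) (nat_lit 45925714) (nat_lit 16171474) [(nat_lit 0), (nat_lit 1103161), (nat_lit 2805299), (nat_lit 0)]) (PF.cons PF.nil PF.nil)) PF.nil))) (PF.cons (PF.cons (PF.cons (PF.leaf (nat_lit 4762179) (nat_lit 2801599)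 (nat_lit 45423134) (nat_lit 16082479) [(nat_lit 0), (nat_lit 0), (nat_lit 2801599), (nat_lit 0)]) (PF.cons (PF.leaf (nat_lit 4941888) (nat_lit 274970) (nat_lit 45161473) (nat_lit 16042070) [(nat_lit 274970), (nat_lit 0), (nat_lit
 2815149), (nat_lit 0)]) PF.nil)) (PF.cons PF.nil PF.nil)) (PF.cons PF.nil (PF.cons PF.nil PF.nil))))) (PF.cons (PF.cons (PF.cons (PF.cons (PF.leaf (nat_lit 4459507) (nat_lit 6376243) (nat_lit 44806648) (nat_lit 15925921) [(nat_lit 0), (nat_lit 0), (nat_lit 0), (nat_lit 6376243)]) (PF.cons (PF.leaf (nat_lit 4612116) (nat_lit 244805) (nat_lit 44590834) (nat_lit 15892085) [(nat_lit 244805), (nat_lit 0), (nat_lit 0), (nat_lit 6381086)]) (PF.cons (PF.leaf (nat_lit 4780453) (nat_lit 255932) (nat_lit 44356564) (nat_lit 15854756) [(nat_lit 255932), (nat_lit 0), (nat_lit 0), (nat_lit 6385627)]) (PF.cons (PF.leaf (nat_lit 4960190) (nat_lit 265794) (nat_lit 44107384) (nat_lit 15814375) [(nat_lit 265794), (nat_lit 0), (nat_lit 0), (nat_lit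 6389669)]) (PF.cons PF.nil PF.nil))))) (PF.cons (PF.cons (PF.leaf (nat_lit 4959805) (nat_lit 1080956) (nat_lit 43866604) (nat_lit 15772506) [(nat_lit 0), (nat_lit 1080956), (nat_lit 0), (nat_lit 6388745)]) (PF.cons (PF.leaf (nat_lit 5134920) (nat_lit 270399) (nat_lit 43621142) (nat_lit 15731394) [(nat_lit 270399), (nat_lit 1094585), (nat_lit 0), (nat_lit 6391291)]) (PF.cons (PF.leaf (nat_lit 5321815) (nat_lit 279039) (nat_lit 43362479) (nat_lit 15687363)
 [(nat_lit 279039), (nat_lit 1107689), (nat_lit 0), (nat_lit 6393201)]) (PF.cons PF.nil PF.nil)))) (PF.cons (PF.cons (PF.leaf (nat_lit 5496080) (nat_lit 1120996) (nat_lit 42875599) (nat_lit 15600346) [(nat_lit 0), (nat_lit 1120996), (nat_lit 0), (nat_lit 6390874)]) (PF.cons PF.nil PF.nil)) (PF.cons PF.nil (PF.cons PF.nil PF.nil))))) (PF.cons (PF.cons (PF.cons (PF.leaf (nat_lit 5454852) (nat_lit 2809668) (nat_lit 42421206) (nat_lit 15507149) [(nat_lit 0), (nat_lit 0), (nat_lit 2809668), (nat_lit 6370788)])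 (PF.cons (PF.leaf (nat_lit 5633132) (nat_lit 280201) (nat_lit 42176729) (nat_lit 15462571) [(nat_lit 280201), (nat_lit 0), (nat_lit 2819378), (nat_lit 6369932)]) (PF.cons PF.nil (PF.cons PF.nil PF.nil)))) (PF.cons (PF.cons (PF.leaf (nat_lit 5992660) (nat_lit 1142540) (nat_lit 41444133) (nat_lit 15323183) [(nat_lit 0), (nat_lit 1142540), (nat_lit 2838906), (nat_lit 6360049)]) (PF.cons PF.nil PF.nil)) (PF.cons PF.nil PF.nil))) (PF.cons (PF.cons (PF.cons (PF.leaf (nat_lit 6477451) (nat_lit 2848470) (nat_lit 40060144) (nat_lit 15036621) [(nat_lit 0), (nat_lit 0), (nat_lit 2848470), (nat_lit 6315106)]) (PF.cons PF.nil PF.nil)) (PF.cons PF.nil PF.nil)) PF.nil))) (PF.cons (PF.cons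
 (PF.cons (PF.cons (PF.leaf (nat_lit 6096816) (nat_lit 6247043) (nat_lit 39696065) (nat_lit 14918659) [(nat_lit 0), (nat_lit 0), (nat_lit 0), (nat_lit 6247043)]) (PF.cons (PF.leaf (nat_lit 6272561) (nat_lit 282521) (nat_lit 39469477) (nat_lit 14872047) [(nat_lit 282521), (nat_lit 0), (nat_lit 0), (nat_lit 6242383)]) (PF.cons PF.nil PF.nil))) (PF.cons (PF.cons (PF.leaf (nat_lit 6620202) (nat_lit 1141139) (nat_lit 38794809) (nat_lit 14728347) [(nat_lit 0), (nat_lit 1141139), (nat_lit 0), (nat_lit 6222257)]) PF.nil) PF.nil)) (PF.cons PF.nil PF.nil)) (PF.cons PF.nil (PF.cons PF.nil (PF.cons PF.nil PF.nil))))))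

def p15_6_2_0 : pfC (piC [(nat_lit 42686981), (nat_lit 27968816), (nat_lit 20557252), (nat_lit 13862945)] (nat_lit 6481740)) p15_6_2 (nat_lit 4) (nat_lit 0) (nat_lit 1) = true := by decide +kernel
def p15_6_2_1 : pfC (piC [(nat_lit 42686981), (nat_lit 27968816), (nat_lit 20557252), (nat_lit 13862945)] (nat_lit 6481740)) p15_6_2 (nat_lit 4) (nat_lit 1) (nat_lit 2) = true := by decide +kernel
def p15_6_2_2 : pfC (piC [(nat_lit 42686981), (nat_lit 27968816), (nat_lit 20557252), (nat_lit 13862945)] (nat_lit 6481740)) p15_6_2 (nat_lit 4) (nat_lit 2) (nat_lit 3) = true := by decide +kernel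
def p15_6_2_3 : pfC (piC [(nat_lit 42686981), (nat_lit 27968816), (nat_lit 20557252), (nat_lit 13862945)] (nat_lit 6481740)) p15_6_2 (nat_lit 4) (nat_lit 3) (nat_lit 4) = true := by decide +kernel
def p15_6_2_4 : pfC (piC [(nat_lit 42686981), (nat_lit 27968816), (nat_lit 20557252), (nat_lit 13862945)] (nat_lit 6481740)) p15_6_2 (nat_lit 4) (nat_lit 4) (nat_lit 5) = true := by decide +kernel
def p15_6_2_5 : pfC (piC [(nat_lit 42686981), (nat_lit 27968816), (nat_lit 20557252), (nat_lit 13862945)] (nat_lit 6481740)) p15_6_2 (nat_lit 4) (nat_lit 5) (nat_lit 6) = true := by decide +kernel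
def p15_6_2_6 : pfC (piC [(nat_lit 42686981), (nat_lit 27968816), (nat_lit 20557252), (nat_lit 13862945)] (nat_lit 6481740)) p15_6_2 (nat_lit 4) (nat_lit 6) (nat_lit 7) = true := by decide +kernel
def p15_6_2_7 : pfC (piC [(nat_lit 42686981), (nat_lit 27968816), (nat_lit 20557252), (nat_lit 13862945)] (nat_lit 6481740)) p15_6_2 (nat_lit 4) (nat_lit 7) (nat_lit 8) = true := by decide +kernel
def p15_6_2_8 : pfC (piC [(nat_lit 42686981), (nat_lit 27968816), (nat_lit 20557252), (nat_lit 13862945)] (nat_lit 6481740)) p15_6_2 (nat_lit 4) (nat_lit 8) (nat_lit 9) = true := by decide +kernel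
def p15_6_2_9 : pfC (piC [(nat_lit 42686981), (nat_lit 27968816), (nat_lit 20557252), (nat_lit 13862945)] (nat_lit 6481740)) p15_6_2 (nat_lit 4) (nat_lit 9) (nat_lit 10) = true := by decide +kernel
def p15_6_2_10 : pfC (piC [(nat_lit 42686981), (nat_lit 27968816), (nat_lit 20557252), (nat_lit 13862945)] (nat_lit 6481740)) p15_6_2 (nat_lit 4) (nat_lit 10) (nat_lit 11) = true := by decide +kernel
def p15_6_2_11 : pfC (piC [(nat_lit 42686981), (nat_lit 27968816), (nat_lit 20557252), (nat_lit 13862945)] (nat_lit 6481740)) p15_6_2 (nat_lit 4) (nat_lit 11) (nat_lit 12) = true := by decide +kernel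
def p15_6_2_12 : pfC (piC [(nat_lit 42686981), (nat_lit 27968816), (nat_lit 20557252), (nat_lit 13862945)] (nat_lit 6481740)) p15_6_2 (nat_lit 4) (nat_lit 12) (nat_lit 13) = true := by decide +kernel
def p15_6_2_13 : pfC (piC [(nat_lit 42686981), (nat_lit 27968816), (nat_lit 20557252), (nat_lit 13862945)] (nat_lit 6481740)) p15_6_2 (nat_lit 4) (nat_lit 13) (nat_lit 14) = true := by decide +kernel
def p15_6_2_14 : pfC (piC [(nat_lit 42686981), (nat_lit 27968816), (nat_lit 20557252), (nat_lit 13862945)] (nat_lit 6481740)) p15_6_2 (nat_lit 4) (nat_lit 14) (nat_lit 15) = true := by decide +kernel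
def p15_6_2_15 : pfC (piC [(nat_lit 42686981), (nat_lit 27968816), (nat_lit 20557252), (nat_lit 13862945)] (nat_lit 6481740)) p15_6_2 (nat_lit 4) (nat_lit 15) (nat_lit 16) = true := by decide +kernel
def p15_6_2_16 : pfC (piC [(nat_lit 42686981), (nat_lit 27968816), (nat_lit 20557252), (nat_lit 13862945)] (nat_lit 6481740)) p15_6_2 (nat_lit 4) (nat_lit 16) (nat_lit 17) = true := by decide +kernel
def p15_6_2_17 : pfC (piC [(nat_lit 42686981), (nat_lit 27968816), (nat_lit 20557252), (nat_lit 13862945)] (nat_lit 6481740)) p15_6_2 (nat_lit 4) (nat_lit 17) (nat_lit 18) = true := by decide +kernel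
def p15_6_2_18 : pfC (piC [(nat_lit 42686981), (nat_lit 27968816), (nat_lit 20557252), (nat_lit 13862945)] (nat_lit 6481740)) p15_6_2 (nat_lit 4) (nat_lit 18) (nat_lit 19) = true := by decide +kernel
def p15_6_2_19 : pfC (piC [(nat_lit 42686981), (nat_lit 27968816), (nat_lit 20557252), (nat_lit 13862945)] (nat_lit 6481740)) p15_6_2 (nat_lit 4) (nat_lit 19) (nat_lit 20) = true := by decide +kernel
def p15_6_2_20 : pfC (piC [(nat_lit 42686981), (nat_lit 27968816), (nat_lit 20557252), (nat_lit 13862945)] (nat_lit 6481740)) p15_6_2 (nat_lit 4) (nat_lit 20) (nat_lit 21) = true := by decide +kernel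
def p15_6_2_21 : pfC (piC [(nat_lit 42686981), (nat_lit 27968816), (nat_lit 20557252), (nat_lit 13862945)] (nat_lit 6481740)) p15_6_2 (nat_lit 4) (nat_lit 21) (nat_lit 22) = true := by decide +kernel
def p15_6_2_22 : pfC (piC [(nat_lit 42686981), (nat_lit 27968816), (nat_lit 20557252), (nat_lit 13862945)] (nat_lit 6481740)) p15_6_2 (nat_lit 4) (nat_lit 22) (nat_lit 23) = true := by decide +kernel
def p15_6_2_23 : pfC (piC [(nat_lit 42686981), (nat_lit 27968816), (nat_lit 20557252), (nat_lit 13862945)] (nat_lit 6481740)) p15_6_2 (nat_lit 4) (nat_lit 23) (nat_lit 24) = true := by decide +kernel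
def p15_6_2_24 : pfC (piC [(nat_lit 42686981), (nat_lit 27968816), (nat_lit 20557252), (nat_lit 13862945)] (nat_lit 6481740)) p15_6_2 (nat_lit 4) (nat_lit 24) (nat_lit 25) = true := by decide +kernel
def p15_6_2_25 : pfC (piC [(nat_lit 42686981), (nat_lit 27968816), (nat_lit 20557252), (nat_lit 13862945)] (nat_lit 6481740)) p15_6_2 (nat_lit 4) (nat_lit 25) (nat_lit 26) = true := by decide +kernel
def p15_6_2_26 : pfC (piC [(nat_lit 42686981), (nat_lit 27968816), (nat_lit 20557252), (nat_lit 13862945)] (nat_lit 6481740)) p15_6_2 (nat_lit 4) (nat_lit 26) (nat_lit 27) = true := by decide +kernel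
def p15_6_2_27 : pfC (piC [(nat_lit 42686981), (nat_lit 27968816), (nat_lit 20557252), (nat_lit 13862945)] (nat_lit 6481740)) p15_6_2 (nat_lit 4) (nat_lit 27) (nat_lit 28) = true := by decide +kernel
def p15_6_2_28 : pfC (piC [(nat_lit 42686981), (nat_lit 27968816), (nat_lit 20557252), (nat_lit 13862945)] (nat_lit 6481740)) p15_6_2 (nat_lit 4) (nat_lit 28) (nat_lit 29) = true := by decide +kernel
def p15_6_2_29 : pfC (piC [(nat_lit 42686981), (nat_lit 27968816), (nat_lit 20557252), (nat_lit 13862945)] (nat_lit 6481740)) p15_6_2 (nat_lit 4) (nat_lit 29) (nat_lit 30) = true := by decide +kernel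
def p15_6_2_30 : pfC (piC [(nat_lit 42686981), (nat_lit 27968816), (nat_lit 20557252), (nat_lit 13862945)] (nat_lit 6481740)) p15_6_2 (nat_lit 4) (nat_lit 30) (nat_lit 31) = true := by decide +kernel
def p15_6_2_31 : pfC (piC [(nat_lit 42686981), (nat_lit 27968816), (nat_lit 20557252), (nat_lit 13862945)] (nat_lit 6481740)) p15_6_2 (nat_lit 4) (nat_lit 31) (nat_lit 32) = true := by decide +kernel
def p15_6_2_32 : pfC (piC [(nat_lit 42686981), (nat_lit 27968816), (nat_lit 20557252), (nat_lit 13862945)] (nat_lit 6481740)) p15_6_2 (nat_lit 4) (nat_lit 32) (nat_lit 33) = true := by decide +kernel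
def p15_6_2_33 : pfC (piC [(nat_lit 42686981), (nat_lit 27968816), (nat_lit 20557252), (nat_lit 13862945)] (nat_lit 6481740)) p15_6_2 (nat_lit 4) (nat_lit 33) (nat_lit 34) = true := by decide +kernel
def p15_6_2_34 : pfC (piC [(nat_lit 42686981), (nat_lit 27968816), (nat_lit 20557252), (nat_lit 13862945)] (nat_lit 6481740)) p15_6_2 (nat_lit 4) (nat_lit 34) (nat_lit 35) = true := by decide +kernel
def p15_6_2_35 : pfC (piC [(nat_lit 42686981), (nat_lit 27968816), (nat_lit 20557252), (nat_lit 13862945)] (nat_lit 6481740)) p15_6_2 (nat_lit 4) (nat_lit 35) (nat_lit 36) = true := by decide +kernel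
theorem p15_6_2_T : PfS (PiF n15_6.reverse (nat_lit 6481740)) p15_6_2 (nat_lit 4) [] 0 :=
  pftab_of (los := [(nat_lit 42686981), (nat_lit 27968816), (nat_lit 20557252), (nat_lit 13862945)]) (by decide +kernel) (hi := (nat_lit 36)) (PfP.trans (PfP.trans (PfP.trans (PfP.trans (PfP.trans (PfP.trans (PfP.trans (PfP.trans (PfP.trans (PfP.trans (PfP.trans (PfP.trans (PfP.trans (PfP.trans (PfP.trans (PfP.trans (PfP.trans (PfP.trans (PfP.trans (PfP.trans (PfP.trans (PfP.trans (PfP.trans (PfP.trans (PfP.trans (PfP.trans (PfP.trans (PfP.trans (PfP.trans (PfP.trans (PfP.trans (PfP.trans (PfP.trans (PfP.trans (PfP.trans (pfC_sound p15_6_2_0) (pfC_sound p15_6_2_1)) (pfC_sound p15_6_2_2)) (pfC_sound p15_6_2_3)) (pfC_sound p15_6_2_4)) (pfC_sound p15_6_2_5)) (pfC_sound p15_6_2_6)) (pfC_sound p15_6_2_7)) (pfC_sound p15_6_2_8)) (pfC_sound p15_6_2_9)) (pfC_sound p15_6_2_10)) (pfC_sound p15_6_2_11)) (pfC_sound p15_6_2_12)) (pfC_sound p15_6_2_13)) (pfC_sound p15_6_2_14))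 (pfC_sound p15_6_2_15)) (pfC_sound p15_6_2_16)) (pfC_sound p15_6_2_17)) (pfC_sound p15_6_2_18)) (pfC_sound p15_6_2_19)) (pfC_sound p15_6_2_20)) (pfC_sound p15_6_2_21)) (pfC_sound p15_6_2_22)) (pfC_sound p15_6_2_23)) (pfC_sound p15_6_2_24)) (pfC_sound p15_6_2_25)) (pfC_sound p15_6_2_26)) (pfC_sound p15_6_2_27)) (pfC_sound p15_6_2_28)) (pfC_sound p15_6_2_29)) (pfC_sound p15_6_2_30)) (pfC_sound p15_6_2_31)) (pfC_sound p15_6_2_32)) (pfC_sound p15_6_2_33))
 (pfC_sound p15_6_2_34)) (pfC_sound p15_6_2_35)) (by decide +kernel)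

def z15_6_2 : zOK yB15_6 (nat_lit 2) (nat_lit 600) (nat_lit 750) (nat_lit 6481740) (nat_lit 4541304) = true := by decide +kernel
def g15_6_2 : gOK yB15_6.x P15_6 (nat_lit 1426) (q15_6 :: r15_6) (nat_lit 2) (nat_lit 600) (nat_lit 3) (nat_lit 750) (nat_lit 12712500) (nat_lit 12712500) (nat_lit 12712500) (nat_lit 12712500) [(nat_lit 800), (nat_lit 1600)] = true := by decide +kernel
def v15_6_2 : ivC P15_6 s15_6 w15_6 n15_6 (nat_lit 4) (nat_lit 4940) (nat_lit 2) (nat_lit 600) f128_1_600 f136_1_600 (nat_lit 3) (nat_lit 750) f128_1_750 f136_1_750 (nat_lit 6481740) (nat_lit 4541304) p15_6_2 = true := by decide +kernel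
def p15_6_3 : PF := (PF.cons (PF.cons (PF.cons (PF.cons (PF.leaf (nat_lit 3183154) (nat_lit 22380935) (nat_lit 44727877) (nat_lit 22380935) [(nat_lit 0), (nat_lit 0), (nat_lit 0), (nat_lit 0)]) (PF.cons (PF.leaf (nat_lit 3284027) (nat_lit 169659) (nat_lit 44596110) (nat_lit 22343043) [(nat_lit 169659), (nat_lit 0), (nat_lit 0), (nat_lit 0)]) (PF.cons (PF.leaf (nat_lit 3407064) (nat_lit 184478) (nat_lit 44441557) (nat_lit 22298297) [(nat_lit 184478), (nat_lit 0), (nat_lit 0), (nat_lit 0)]) (PF.cons (PF.leaf (nat_lit 3545182) (nat_lit 197646) (nat_lit 44268158) (nat_lit 22247713) [(nat_lit 197646), (nat_lit 0), (nat_lit 0), (nat_lit 0)]) (PF.cons (PF.leaf (nat_lit 3696195) (nat_lit 209543) (nat_lit 44078658) (nat_lit 22191979) [(nat_lit 209543), (nat_lit 0), (nat_lit 0), (nat_lit 0)]) (PF.cons (PF.leaf (nat_lit 3858722) (nat_lit 220413) (nat_lit 43875144) (nat_lit 22131601) [(nat_lit 220413), (nat_lit 0), (nat_lit 0), (nat_lit 0)]) (PF.cons (PF.leaf (nat_lit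 4031675) (nat_lit 230423) (nat_lit 43659293) (nat_lit 22066977) [(nat_lit 230423), (nat_lit 0), (nat_lit 0), (nat_lit 0)]) (PF.cons PF.nil (PF.cons PF.nil PF.nil))))))))) (PF.cons (PF.cons (PF.leaf (nat_lit 3582444) (nat_lit 888719) (nat_lit
 44040708) (nat_lit 22179385) [(nat_lit 0), (nat_lit 888719), (nat_lit 0), (nat_lit 0)]) (PF.cons (PF.leaf (nat_lit 3716488) (nat_lit 206514) (nat_lit 43866073) (nat_lit 22127488) [(nat_lit 206514), (nat_lit 908736), (nat_lit 0), (nat_lit 0)]) (PF.cons (PF.leaf (nat_lit 3866727) (nat_lit 217895) (nat_lit 43674398) (nat_lit 22070078) [(nat_lit 217895), (nat_lit 928544), (nat_lit 0), (nat_lit 0)]) (PF.cons (PF.leaf (nat_lit 4028913) (nat_lit 228251) (nat_lit 43468379) (nat_lit 22007850) [(nat_lit 228251), (nat_lit 947829), (nat_lit 0), (nat_lit 0)]) (PF.cons (PF.leaf (nat_lit 4201683) (nat_lit 237768) (nat_lit 43250004) (nat_lit 21941308) [(nat_lit 237768), (nat_lit 966426), (nat_lit 0), (nat_lit 0)]) (PF.cons PF.nil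 (PF.cons PF.nil PF.nil))))))) (PF.cons (PF.cons (PF.leaf (nat_lit 4042061) (nat_lit 954382) (nat_lit 43257808) (nat_lit 21942239) [(nat_lit 0), (nat_lit 954382), (nat_lit 0), (nat_lit 0)]) (PF.cons (PF.leaf (nat_lit 4200889) (nat_lit 235039) (nat_lit 43051754) (nat_lit 21878898) [(nat_lit 235039), (nat_lit 971559), (nat_lit 0), (nat_lit 0)]) (PF.cons (PF.leaf (nat_lit 4372485) (nat_lit 244215) (nat_lit 42832780) (nat_lit 21811012) [(nat_lit 244215), (nat_lit 988294),
 (nat_lit 0), (nat_lit 0)]) (PF.cons (PF.leaf (nat_lit 4553662) (nat_lit 252670) (nat_lit 42602810) (nat_lit 21739087) [(nat_lit 252670), (nat_lit 1004451), (nat_lit 0), (nat_lit 0)]) (PF.cons PF.nil PF.nil))))) (PF.cons (PF.cons (PF.leaf (nat_lit 4546393) (nat_lit 1008193) (nat_lit 42408069) (nat_lit 21676164) [(nat_lit 0), (nat_lit 1008193), (nat_lit 0), (nat_lit 0)]) (PF.cons (PF.leaf (nat_lit 4724509) (nat_lit 258042) (nat_lit 42178951) (nat_lit 21603311) [(nat_lit 258042), (nat_lit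 1022835), (nat_lit 0), (nat_lit 0)]) (PF.cons PF.nil (PF.cons PF.nil PF.nil)))) (PF.cons (PF.cons (PF.leaf (nat_lit 5084131) (nat_lit 1052498) (nat_lit 41512502) (nat_lit 21386318) [(nat_lit 0), (nat_lit 1052498), (nat_lit 0), (nat_lit 0)]) (PF.cons PF.nil PF.nil)) (PF.cons PF.nil PF.nil)))))) (PF.cons (PF.cons (PF.cons (PF.leaf (nat_lit 4056620) (nat_lit 2536021) (nat_lit 42785591) (nat_lit 21787200) [(nat_lit 0), (nat_lit 0), (nat_lit 2536021), (nat_lit 0)]) (PF.cons (PF.leaf (nat_lit 4198615) (nat_lit 223269) (nat_lit 42602412) (nat_lit 21729892) [(nat_lit 223269), (nat_lit 0), (nat_lit 2553239), (nat_lit 0)]) (PF.cons (PF.leaf (nat_lit 4356139) (nat_lit 234062) (nat_lit 42402854) (nat_lit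
 21666996) [(nat_lit 234062), (nat_lit 0), (nat_lit 2570836), (nat_lit 0)]) (PF.cons (PF.leaf (nat_lit 4525031) (nat_lit 243745) (nat_lit 42189827) (nat_lit 21599329) [(nat_lit 243745), (nat_lit 0), (nat_lit 2588417), (nat_lit 0)]) (PF.cons (PF.leaf (nat_lit 4703734) (nat_lit 252547) (nat_lit 41965438) (nat_lit 21527469) [(nat_lit 252547), (nat_lit 0), (nat_lit 2605716), (nat_lit 0)]) (PF.cons PF.nil (PF.cons PF.nil PF.nil))))))) (PF.cons (PF.cons (PF.leaf (nat_lit 4530676) (nat_lit 999839) (nat_lit 41980466) (nat_lit 21530829) [(nat_lit 0), (nat_lit 999839), (nat_lit 2597677), (nat_lit 0)]) (PF.cons (PF.leaf (nat_lit 4695522) (nat_lit 249062) (nat_lit 41769315) (nat_lit 21462686) [(nat_lit 249062), (nat_lit 1014485), (nat_lit 2613263), (nat_lit 0)]) (PF.cons (PF.leaf (nat_lit 4872362) (nat_lit 257626) (nat_lit 41546091) (nat_lit 21390079) [(nat_lit 257626), (nat_lit 1028695), (nat_lit 2628691), (nat_lit 0)]) (PF.cons PF.nil (PF.cons PF.nil PF.nil)))))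 (PF.cons (PF.cons (PF.leaf (nat_lit 5043642) (nat_lit 1044480) (nat_lit 41121598) (nat_lit 21248916) [(nat_lit 0), (nat_lit 1044480), (nat_lit 2649336), (nat_lit 0)]) (PF.cons (PF.leaf (nat_lit 5225834) (nat_lit 269654) (nat_lit
 40890571) (nat_lit 21172026) [(nat_lit 269654), (nat_lit 1056912), (nat_lit 2662735), (nat_lit 0)]) (PF.cons PF.nil (PF.cons PF.nil PF.nil)))) (PF.cons (PF.cons (PF.leaf (nat_lit 5585048) (nat_lit 1081106) (nat_lit 40227750) (nat_lit 20946570) [(nat_lit 0), (nat_lit 1081106), (nat_lit 2691173), (nat_lit 0)]) (PF.cons PF.nil PF.nil)) (PF.cons PF.nil PF.nil))))) (PF.cons (PF.cons (PF.cons (PF.leaf (nat_lit 5015215) (nat_lit 2644925) (nat_lit 40714388) (nat_lit 21104574) [(nat_lit 0), (nat_lit 0), (nat_lit 2644925), (nat_lit 0)]) (PF.cons (PF.leaf (nat_lit 5184391) (nat_lit 260477) (nat_lit 40501181) (nat_lit 21032713) [(nat_lit 260477), (nat_lit 0), (nat_lit 2657220), (nat_lit 0)]) (PF.cons (PF.leaf (nat_lit 5365035) (nat_lit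 268500) (nat_lit 40276695) (nat_lit 20956501) [(nat_lit 268500), (nat_lit 0), (nat_lit 2669307), (nat_lit 0)]) (PF.cons PF.nil PF.nil)))) (PF.cons (PF.cons (PF.leaf (nat_lit 5533077) (nat_lit 1072349) (nat_lit 39856870) (nat_lit 20811000) [(nat_lit 0), (nat_lit 1072349), (nat_lit 2684296), (nat_lit 0)]) (PF.cons (PF.leaf (nat_lit 5718170) (nat_lit 279017) (nat_lit 39626450) (nat_lit 20731122) [(nat_lit 279017), (nat_lit 1082944), (nat_lit 2694639), (nat_lit
 0)]) PF.nil)) (PF.cons PF.nil PF.nil))) (PF.cons (PF.cons (PF.cons (PF.leaf (nat_lit 6013199) (nat_lit 2706501) (nat_lit 38622146) (nat_lit 20367160) [(nat_lit 0), (nat_lit 0), (nat_lit 2706501), (nat_lit 0)]) (PF.cons PF.nil PF.nil)) (PF.cons PF.nil PF.nil)) (PF.cons PF.nil PF.nil))))) (PF.cons (PF.cons (PF.cons (PF.cons (PF.leaf (nat_lit 4724141) (nat_lit 5988075) (nat_lit 40221236) (nat_lit 20899500) [(nat_lit 0), (nat_lit 0), (nat_lit 0), (nat_lit 5988075)]) (PF.cons (PF.leaf (nat_lit 4868024)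 (nat_lit 231974) (nat_lit 40045008) (nat_lit 20839657) [(nat_lit 231974), (nat_lit 0), (nat_lit 0), (nat_lit 5992172)]) (PF.cons (PF.leaf (nat_lit 5026868) (nat_lit 242472) (nat_lit 39853611) (nat_lit 20774267) [(nat_lit 242472), (nat_lit 0), (nat_lit 0), (nat_lit 5995989)]) (PF.cons (PF.leaf (nat_lit 5196550) (nat_lit 251768) (nat_lit 39649919) (nat_lit 20704226) [(nat_lit 251768), (nat_lit 0), (nat_lit 0), (nat_lit 5999360)]) (PF.cons (PF.leaf (nat_lit 5375457) (nat_lit 260118) (nat_lit 39436001) (nat_lit 20630175) [(nat_lit 260118), (nat_lit 0), (nat_lit 0), (nat_lit 6002161)]) (PF.cons PF.nil (PF.cons PF.nil PF.nil))))))) (PF.cons (PF.cons (PF.leaf (nat_lit 5195504) (nat_lit 1022589)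
 (nat_lit 39453277) (nat_lit 20634790) [(nat_lit 0), (nat_lit 1022589), (nat_lit 0), (nat_lit 5998155)]) (PF.cons (PF.leaf (nat_lit 5360584) (nat_lit 256042) (nat_lit 39252390) (nat_lit 20564820) [(nat_lit 256042), (nat_lit 1035330), (nat_lit 0), (nat_lit 6000228)]) (PF.cons (PF.leaf (nat_lit 5537019) (nat_lit 264182) (nat_lit 39040567) (nat_lit 20490564) [(nat_lit 264182), (nat_lit 1047574), (nat_lit 0), (nat_lit 6001740)]) (PF.cons (PF.leaf (nat_lit 5721863) (nat_lit 271528) (nat_lit 38819742) (nat_lit 20412635) [(nat_lit 271528), (nat_lit 1059246), (nat_lit 0), (nat_lit 6002603)]) (PF.cons PF.nil PF.nil))))) (PF.cons (PF.cons (PF.leaf (nat_lit 5700884) (nat_lit 1059891) (nat_lit 38641766) (nat_lit 20348054) [(nat_lit 0), (nat_lit 1059891), (nat_lit 0), (nat_lit 5999208)]) (PF.cons (PF.leaf (nat_lit 5881701) (nat_lit 274812) (nat_lit 38423929) (nat_lit 20270244) [(nat_lit 274812), (nat_lit 1070473), (nat_lit 0), (nat_lit 5998879)]) (PF.cons PF.nil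 (PF.cons PF.nil PF.nil)))) (PF.cons (PF.cons (PF.leaf (nat_lit 6230426) (nat_lit 1089821) (nat_lit 37803695) (nat_lit 20044560) [(nat_lit 0), (nat_lit 1089821), (nat_lit 0), (nat_lit 5991092)]) (PF.cons PF.nil PF.nil)) (PF.cons PF.nil
 PF.nil))))) (PF.cons (PF.cons (PF.cons (PF.leaf (nat_lit 5660043) (nat_lit 2650215) (nat_lit 38270476) (nat_lit 20207606) [(nat_lit 0), (nat_lit 0), (nat_lit 2650215), (nat_lit 5980514)]) (PF.cons (PF.leaf (nat_lit 5828215) (nat_lit 265148) (nat_lit 38069617) (nat_lit 20135155) [(nat_lit 265148), (nat_lit 0), (nat_lit 2659206), (nat_lit 5979685)]) (PF.cons (PF.leaf (nat_lit 6007249) (nat_lit 272769) (nat_lit 37858556) (nat_lit 20058565) [(nat_lit 272769), (nat_lit 0), (nat_lit 2667931), (nat_lit 5978220)]) (PF.cons PF.nil PF.nil)))) (PF.cons (PF.cons (PF.leaf (nat_lit 6167432) (nat_lit 1079790) (nat_lit 37467178) (nat_lit 19913956) [(nat_lit 0), (nat_lit 1079790), (nat_lit 2677250), (nat_lit 5970637)]) (PF.cons (PF.leaf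 (nat_lit 6350041) (nat_lit 282073) (nat_lit 37251582) (nat_lit 19834361) [(nat_lit 282073), (nat_lit 1088804), (nat_lit 2684478), (nat_lit 5967513)]) PF.nil)) (PF.cons PF.nil PF.nil))) (PF.cons (PF.cons (PF.cons (PF.leaf (nat_lit 6624092) (nat_lit 2686256) (nat_lit 36326658) (nat_lit 19479377) [(nat_lit 0), (nat_lit 0), (nat_lit 2686256), (nat_lit 5930263)]) (PF.cons PF.nil PF.nil)) (PF.cons PF.nil PF.nil)) PF.nil))) (PF.cons (PF.cons (PF.cons (PF.cons (PF.leaf
 (nat_lit 6262519) (nat_lit 5869094) (nat_lit 36031739) (nat_lit 19338885) [(nat_lit 0), (nat_lit 0), (nat_lit 0), (nat_lit 5869094)]) (PF.cons (PF.leaf (nat_lit 6428702) (nat_lit 267364) (nat_lit 35843912) (nat_lit 19267323) [(nat_lit 267364), (nat_lit 0), (nat_lit 0), (nat_lit 5865106)]) (PF.cons (PF.leaf (nat_lit 6605293) (nat_lit 274616) (nat_lit 35646844) (nat_lit 19191856) [(nat_lit 274616), (nat_lit 0), (nat_lit 0), (nat_lit 5860439)]) (PF.cons PF.nil PF.nil)))) (PF.cons (PF.cons (PF.leaf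 (nat_lit 6757977) (nat_lit 1078877) (nat_lit 35284082) (nat_lit 19050675) [(nat_lit 0), (nat_lit 1078877), (nat_lit 0), (nat_lit 5847588)]) (PF.cons PF.nil PF.nil)) (PF.cons PF.nil PF.nil))) (PF.cons (PF.cons (PF.cons (PF.leaf (nat_lit 7192582) (nat_lit 2652368) (nat_lit 34234556) (nat_lit 18631243) [(nat_lit 0), (nat_lit 0), (nat_lit 2652368), (nat_lit 5795321)]) (PF.cons PF.nil PF.nil)) PF.nil) PF.nil)) (PF.cons PF.nil (PF.cons PF.nil (PF.cons PF.nil PF.nil))))))

def p15_6_3_0 : pfC (piC [(nat_lit 42686981), (nat_lit 27968816), (nat_lit 20557252), (nat_lit 13862945)] (nat_lit 4541304)) p15_6_3 (nat_lit 4) (nat_lit 0) (nat_lit 1) = true := by decide +kernel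
def p15_6_3_1 : pfC (piC [(nat_lit 42686981), (nat_lit 27968816), (nat_lit 20557252), (nat_lit 13862945)] (nat_lit 4541304)) p15_6_3 (nat_lit 4) (nat_lit 1) (nat_lit 2) = true := by decide +kernel
def p15_6_3_2 : pfC (piC [(nat_lit 42686981), (nat_lit 27968816), (nat_lit 20557252), (nat_lit 13862945)] (nat_lit 4541304)) p15_6_3 (nat_lit 4) (nat_lit 2) (nat_lit 3) = true := by decide +kernel
def p15_6_3_3 : pfC (piC [(nat_lit 42686981), (nat_lit 27968816), (nat_lit 20557252), (nat_lit 13862945)] (nat_lit 4541304)) p15_6_3 (nat_lit 4) (nat_lit 3) (nat_lit 4) = true := by decide +kernel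
def p15_6_3_4 : pfC (piC [(nat_lit 42686981), (nat_lit 27968816), (nat_lit 20557252), (nat_lit 13862945)] (nat_lit 4541304)) p15_6_3 (nat_lit 4) (nat_lit 4) (nat_lit 5) = true := by decide +kernel
def p15_6_3_5 : pfC (piC [(nat_lit 42686981), (nat_lit 27968816), (nat_lit 20557252), (nat_lit 13862945)] (nat_lit 4541304)) p15_6_3 (nat_lit 4) (nat_lit 5) (nat_lit 6) = true := by decide +kernel
def p15_6_3_6 : pfC (piC [(nat_lit 42686981), (nat_lit 27968816), (nat_lit 20557252), (nat_lit 13862945)] (nat_lit 4541304)) p15_6_3 (nat_lit 4) (nat_lit 6) (nat_lit 7) = true := by decide +kernel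
def p15_6_3_7 : pfC (piC [(nat_lit 42686981), (nat_lit 27968816), (nat_lit 20557252), (nat_lit 13862945)] (nat_lit 4541304)) p15_6_3 (nat_lit 4) (nat_lit 7) (nat_lit 8) = true := by decide +kernel
def p15_6_3_8 : pfC (piC [(nat_lit 42686981), (nat_lit 27968816), (nat_lit 20557252), (nat_lit 13862945)] (nat_lit 4541304)) p15_6_3 (nat_lit 4) (nat_lit 8) (nat_lit 9) = true := by decide +kernel
def p15_6_3_9 : pfC (piC [(nat_lit 42686981), (nat_lit 27968816), (nat_lit 20557252), (nat_lit 13862945)] (nat_lit 4541304)) p15_6_3 (nat_lit 4) (nat_lit 9) (nat_lit 10) = true := by decide +kernel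
def p15_6_3_10 : pfC (piC [(nat_lit 42686981), (nat_lit 27968816), (nat_lit 20557252), (nat_lit 13862945)] (nat_lit 4541304)) p15_6_3 (nat_lit 4) (nat_lit 10) (nat_lit 11) = true := by decide +kernel
def p15_6_3_11 : pfC (piC [(nat_lit 42686981), (nat_lit 27968816), (nat_lit 20557252), (nat_lit 13862945)] (nat_lit 4541304)) p15_6_3 (nat_lit 4) (nat_lit 11) (nat_lit 12) = true := by decide +kernel
def p15_6_3_12 : pfC (piC [(nat_lit 42686981), (nat_lit 27968816), (nat_lit 20557252), (nat_lit 13862945)] (nat_lit 4541304)) p15_6_3 (nat_lit 4) (nat_lit 12) (nat_lit 13) = true := by decide +kernel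
def p15_6_3_13 : pfC (piC [(nat_lit 42686981), (nat_lit 27968816), (nat_lit 20557252), (nat_lit 13862945)] (nat_lit 4541304)) p15_6_3 (nat_lit 4) (nat_lit 13) (nat_lit 14) = true := by decide +kernel
def p15_6_3_14 : pfC (piC [(nat_lit 42686981), (nat_lit 27968816), (nat_lit 20557252), (nat_lit 13862945)] (nat_lit 4541304)) p15_6_3 (nat_lit 4) (nat_lit 14) (nat_lit 15) = true := by decide +kernel
def p15_6_3_15 : pfC (piC [(nat_lit 42686981), (nat_lit 27968816), (nat_lit 20557252), (nat_lit 13862945)] (nat_lit 4541304)) p15_6_3 (nat_lit 4) (nat_lit 15) (nat_lit 16) = true := by decide +kernel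
def p15_6_3_16 : pfC (piC [(nat_lit 42686981), (nat_lit 27968816), (nat_lit 20557252), (nat_lit 13862945)] (nat_lit 4541304)) p15_6_3 (nat_lit 4) (nat_lit 16) (nat_lit 17) = true := by decide +kernel
def p15_6_3_17 : pfC (piC [(nat_lit 42686981), (nat_lit 27968816), (nat_lit 20557252), (nat_lit 13862945)] (nat_lit 4541304)) p15_6_3 (nat_lit 4) (nat_lit 17) (nat_lit 18) = true := by decide +kernel
def p15_6_3_18 : pfC (piC [(nat_lit 42686981), (nat_lit 27968816), (nat_lit 20557252), (nat_lit 13862945)] (nat_lit 4541304)) p15_6_3 (nat_lit 4) (nat_lit 18) (nat_lit 19) = true := by decide +kernel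
def p15_6_3_19 : pfC (piC [(nat_lit 42686981), (nat_lit 27968816), (nat_lit 20557252), (nat_lit 13862945)] (nat_lit 4541304)) p15_6_3 (nat_lit 4) (nat_lit 19) (nat_lit 20) = true := by decide +kernel
def p15_6_3_20 : pfC (piC [(nat_lit 42686981), (nat_lit 27968816), (nat_lit 20557252), (nat_lit 13862945)] (nat_lit 4541304)) p15_6_3 (nat_lit 4) (nat_lit 20) (nat_lit 21) = true := by decide +kernel
def p15_6_3_21 : pfC (piC [(nat_lit 42686981), (nat_lit 27968816), (nat_lit 20557252), (nat_lit 13862945)] (nat_lit 4541304)) p15_6_3 (nat_lit 4) (nat_lit 21) (nat_lit 22) = true := by decide +kernel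
def p15_6_3_22 : pfC (piC [(nat_lit 42686981), (nat_lit 27968816), (nat_lit 20557252), (nat_lit 13862945)] (nat_lit 4541304)) p15_6_3 (nat_lit 4) (nat_lit 22) (nat_lit 23) = true := by decide +kernel
def p15_6_3_23 : pfC (piC [(nat_lit 42686981), (nat_lit 27968816), (nat_lit 20557252), (nat_lit 13862945)] (nat_lit 4541304)) p15_6_3 (nat_lit 4) (nat_lit 23) (nat_lit 24) = true := by decide +kernel
def p15_6_3_24 : pfC (piC [(nat_lit 42686981), (nat_lit 27968816), (nat_lit 20557252), (nat_lit 13862945)] (nat_lit 4541304)) p15_6_3 (nat_lit 4) (nat_lit 24) (nat_lit 25) = true := by decide +kernel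
def p15_6_3_25 : pfC (piC [(nat_lit 42686981), (nat_lit 27968816), (nat_lit 20557252), (nat_lit 13862945)] (nat_lit 4541304)) p15_6_3 (nat_lit 4) (nat_lit 25) (nat_lit 26) = true := by decide +kernel
def p15_6_3_26 : pfC (piC [(nat_lit 42686981), (nat_lit 27968816), (nat_lit 20557252), (nat_lit 13862945)] (nat_lit 4541304)) p15_6_3 (nat_lit 4) (nat_lit 26) (nat_lit 27) = true := by decide +kernel
def p15_6_3_27 : pfC (piC [(nat_lit 42686981), (nat_lit 27968816), (nat_lit 20557252), (nat_lit 13862945)] (nat_lit 4541304)) p15_6_3 (nat_lit 4) (nat_lit 27) (nat_lit 28) = true := by decide +kernel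
def p15_6_3_28 : pfC (piC [(nat_lit 42686981), (nat_lit 27968816), (nat_lit 20557252), (nat_lit 13862945)] (nat_lit 4541304)) p15_6_3 (nat_lit 4) (nat_lit 28) (nat_lit 29) = true := by decide +kernel
def p15_6_3_29 : pfC (piC [(nat_lit 42686981), (nat_lit 27968816), (nat_lit 20557252), (nat_lit 13862945)] (nat_lit 4541304)) p15_6_3 (nat_lit 4) (nat_lit 29) (nat_lit 30) = true := by decide +kernel
def p15_6_3_30 : pfC (piC [(nat_lit 42686981), (nat_lit 27968816), (nat_lit 20557252), (nat_lit 13862945)] (nat_lit 4541304)) p15_6_3 (nat_lit 4) (nat_lit 30) (nat_lit 31) = true := by decide +kernel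
def p15_6_3_31 : pfC (piC [(nat_lit 42686981), (nat_lit 27968816), (nat_lit 20557252), (nat_lit 13862945)] (nat_lit 4541304)) p15_6_3 (nat_lit 4) (nat_lit 31) (nat_lit 32) = true := by decide +kernel
def p15_6_3_32 : pfC (piC [(nat_lit 42686981), (nat_lit 27968816), (nat_lit 20557252), (nat_lit 13862945)] (nat_lit 4541304)) p15_6_3 (nat_lit 4) (nat_lit 32) (nat_lit 33) = true := by decide +kernel
def p15_6_3_33 : pfC (piC [(nat_lit 42686981), (nat_lit 27968816), (nat_lit 20557252), (nat_lit 13862945)] (nat_lit 4541304)) p15_6_3 (nat_lit 4) (nat_lit 33) (nat_lit 34) = true := by decide +kernel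
def p15_6_3_34 : pfC (piC [(nat_lit 42686981), (nat_lit 27968816), (nat_lit 20557252), (nat_lit 13862945)] (nat_lit 4541304)) p15_6_3 (nat_lit 4) (nat_lit 34) (nat_lit 35) = true := by decide +kernel
def p15_6_3_35 : pfC (piC [(nat_lit 42686981), (nat_lit 27968816), (nat_lit 20557252), (nat_lit 13862945)] (nat_lit 4541304)) p15_6_3 (nat_lit 4) (nat_lit 35) (nat_lit 36) = true := by decide +kernel
def p15_6_3_36 : pfC (piC [(nat_lit 42686981), (nat_lit 27968816), (nat_lit 20557252), (nat_lit 13862945)] (nat_lit 4541304)) p15_6_3 (nat_lit 4) (nat_lit 36) (nat_lit 37) = true := by decide +kernel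
def p15_6_3_37 : pfC (piC [(nat_lit 42686981), (nat_lit 27968816), (nat_lit 20557252), (nat_lit 13862945)] (nat_lit 4541304)) p15_6_3 (nat_lit 4) (nat_lit 37) (nat_lit 38) = true := by decide +kernel
def p15_6_3_38 : pfC (piC [(nat_lit 42686981), (nat_lit 27968816), (nat_lit 20557252), (nat_lit 13862945)] (nat_lit 4541304)) p15_6_3 (nat_lit 4) (nat_lit 38) (nat_lit 39) = true := by decide +kernel
def p15_6_3_39 : pfC (piC [(nat_lit 42686981), (nat_lit 27968816), (nat_lit 20557252), (nat_lit 13862945)] (nat_lit 4541304)) p15_6_3 (nat_lit 4) (nat_lit 39) (nat_lit 40) = true := by decide +kernel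
def p15_6_3_40 : pfC (piC [(nat_lit 42686981), (nat_lit 27968816), (nat_lit 20557252), (nat_lit 13862945)] (nat_lit 4541304)) p15_6_3 (nat_lit 4) (nat_lit 40) (nat_lit 41) = true := by decide +kernel
def p15_6_3_41 : pfC (piC [(nat_lit 42686981), (nat_lit 27968816), (nat_lit 20557252), (nat_lit 13862945)] (nat_lit 4541304)) p15_6_3 (nat_lit 4) (nat_lit 41) (nat_lit 42) = true := by decide +kernel
def p15_6_3_42 : pfC (piC [(nat_lit 42686981), (nat_lit 27968816), (nat_lit 20557252), (nat_lit 13862945)] (nat_lit 4541304)) p15_6_3 (nat_lit 4) (nat_lit 42) (nat_lit 43) = true := by decide +kernel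
def p15_6_3_43 : pfC (piC [(nat_lit 42686981), (nat_lit 27968816), (nat_lit 20557252), (nat_lit 13862945)] (nat_lit 4541304)) p15_6_3 (nat_lit 4) (nat_lit 43) (nat_lit 44) = true := by decide +kernel
def p15_6_3_44 : pfC (piC [(nat_lit 42686981), (nat_lit 27968816), (nat_lit 20557252), (nat_lit 13862945)] (nat_lit 4541304)) p15_6_3 (nat_lit 4) (nat_lit 44) (nat_lit 45) = true := by decide +kernel
def p15_6_3_45 : pfC (piC [(nat_lit 42686981), (nat_lit 27968816), (nat_lit 20557252), (nat_lit 13862945)] (nat_lit 4541304)) p15_6_3 (nat_lit 4) (nat_lit 45) (nat_lit 46) = true := by decide +kernel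
def p15_6_3_46 : pfC (piC [(nat_lit 42686981), (nat_lit 27968816), (nat_lit 20557252), (nat_lit 13862945)] (nat_lit 4541304)) p15_6_3 (nat_lit 4) (nat_lit 46) (nat_lit 47) = true := by decide +kernel
def p15_6_3_47 : pfC (piC [(nat_lit 42686981), (nat_lit 27968816), (nat_lit 20557252), (nat_lit 13862945)] (nat_lit 4541304)) p15_6_3 (nat_lit 4) (nat_lit 47) (nat_lit 48) = true := by decide +kernel
def p15_6_3_48 : pfC (piC [(nat_lit 42686981), (nat_lit 27968816), (nat_lit 20557252), (nat_lit 13862945)] (nat_lit 4541304)) p15_6_3 (nat_lit 4) (nat_lit 48) (nat_lit 49) = true := by decide +kernel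
def p15_6_3_49 : pfC (piC [(nat_lit 42686981), (nat_lit 27968816), (nat_lit 20557252), (nat_lit 13862945)] (nat_lit 4541304)) p15_6_3 (nat_lit 4) (nat_lit 49) (nat_lit 50) = true := by decide +kernel
def p15_6_3_50 : pfC (piC [(nat_lit 42686981), (nat_lit 27968816), (nat_lit 20557252), (nat_lit 13862945)] (nat_lit 4541304)) p15_6_3 (nat_lit 4) (nat_lit 50) (nat_lit 51) = true := by decide +kernel
def p15_6_3_51 : pfC (piC [(nat_lit 42686981), (nat_lit 27968816), (nat_lit 20557252), (nat_lit 13862945)] (nat_lit 4541304)) p15_6_3 (nat_lit 4) (nat_lit 51) (nat_lit 52) = true := by decide +kernel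
def p15_6_3_52 : pfC (piC [(nat_lit 42686981), (nat_lit 27968816), (nat_lit 20557252), (nat_lit 13862945)] (nat_lit 4541304)) p15_6_3 (nat_lit 4) (nat_lit 52) (nat_lit 53) = true := by decide +kernel
def p15_6_3_53 : pfC (piC [(nat_lit 42686981), (nat_lit 27968816), (nat_lit 20557252), (nat_lit 13862945)] (nat_lit 4541304)) p15_6_3 (nat_lit 4) (nat_lit 53) (nat_lit 54) = true := by decide +kernel
def p15_6_3_54 : pfC (piC [(nat_lit 42686981), (nat_lit 27968816), (nat_lit 20557252), (nat_lit 13862945)] (nat_lit 4541304)) p15_6_3 (nat_lit 4) (nat_lit 54) (nat_lit 55) = true := by decide +kernel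
def p15_6_3_55 : pfC (piC [(nat_lit 42686981), (nat_lit 27968816), (nat_lit 20557252), (nat_lit 13862945)] (nat_lit 4541304)) p15_6_3 (nat_lit 4) (nat_lit 55) (nat_lit 56) = true := by decide +kernel
def p15_6_3_56 : pfC (piC [(nat_lit 42686981), (nat_lit 27968816), (nat_lit 20557252), (nat_lit 13862945)] (nat_lit 4541304)) p15_6_3 (nat_lit 4) (nat_lit 56) (nat_lit 57) = true := by decide +kernel
def p15_6_3_57 : pfC (piC [(nat_lit 42686981), (nat_lit 27968816), (nat_lit 20557252), (nat_lit 13862945)] (nat_lit 4541304)) p15_6_3 (nat_lit 4) (nat_lit 57) (nat_lit 58) = true := by decide +kernel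
def p15_6_3_58 : pfC (piC [(nat_lit 42686981), (nat_lit 27968816), (nat_lit 20557252), (nat_lit 13862945)] (nat_lit 4541304)) p15_6_3 (nat_lit 4) (nat_lit 58) (nat_lit 59) = true := by decide +kernel
theorem p15_6_3_T : PfS (PiF n15_6.reverse (nat_lit 4541304)) p15_6_3 (nat_lit 4) [] 0 :=
  pftab_of (los := [(nat_lit 42686981), (nat_lit 27968816), (nat_lit 20557252), (nat_lit 13862945)]) (by decide +kernel) (hi := (nat_lit 59)) (PfP.trans (PfP.trans (PfP.trans (PfP.trans (PfP.trans (PfP.trans (PfP.trans (PfP.trans (PfP.trans (PfP.trans (PfP.trans (PfP.trans (PfP.trans (PfP.trans (PfP.trans (PfP.trans (PfP.trans (PfP.trans (PfP.trans (PfP.trans (PfP.trans (PfP.trans (PfP.trans (PfP.trans (PfP.trans (PfP.trans (PfP.trans (PfP.trans (PfP.trans (PfP.trans (PfP.trans (PfP.trans (PfP.trans (PfP.trans (PfP.trans (PfP.trans (PfP.trans (PfP.trans (PfP.trans (PfP.trans (PfP.trans (PfP.trans (PfP.trans (PfP.trans (PfP.trans (PfP.trans (PfP.trans (PfP.trans (PfP.trans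 (PfP.trans (PfP.trans (PfP.trans (PfP.trans (PfP.trans (PfP.trans (PfP.trans (PfP.trans (PfP.trans (pfC_sound p15_6_3_0) (pfC_sound p15_6_3_1)) (pfC_sound p15_6_3_2)) (pfC_sound p15_6_3_3)) (pfC_sound p15_6_3_4)) (pfC_sound p15_6_3_5)) (pfC_sound p15_6_3_6)) (pfC_sound p15_6_3_7)) (pfC_sound p15_6_3_8)) (pfC_sound p15_6_3_9)) (pfC_sound p15_6_3_10)) (pfC_sound p15_6_3_11)) (pfC_sound p15_6_3_12)) (pfC_sound p15_6_3_13)) (pfC_sound p15_6_3_14)) (pfC_sound p15_6_3_15)) (pfC_sound p15_6_3_16)) (pfC_sound p15_6_3_17)) (pfC_sound p15_6_3_18)) (pfC_sound p15_6_3_19)) (pfC_sound p15_6_3_20)) (pfC_sound p15_6_3_21)) (pfC_sound p15_6_3_22)) (pfC_sound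
 p15_6_3_23)) (pfC_sound p15_6_3_24)) (pfC_sound p15_6_3_25)) (pfC_sound p15_6_3_26)) (pfC_sound p15_6_3_27)) (pfC_sound p15_6_3_28)) (pfC_sound p15_6_3_29)) (pfC_sound p15_6_3_30)) (pfC_sound p15_6_3_31)) (pfC_sound p15_6_3_32)) (pfC_sound p15_6_3_33)) (pfC_sound p15_6_3_34)) (pfC_sound p15_6_3_35)) (pfC_sound p15_6_3_36)) (pfC_sound p15_6_3_37)) (pfC_sound p15_6_3_38)) (pfC_sound p15_6_3_39)) (pfC_sound p15_6_3_40)) (pfC_sound p15_6_3_41)) (pfC_sound p15_6_3_42)) (pfC_sound p15_6_3_43)) (pfC_sound p15_6_3_44)) (pfC_sound p15_6_3_45)) (pfC_sound p15_6_3_46)) (pfC_sound p15_6_3_47)) (pfC_sound p15_6_3_48)) (pfC_sound p15_6_3_49)) (pfC_sound p15_6_3_50)) (pfC_sound p15_6_3_51)) (pfC_sound p15_6_3_52)) (pfC_sound p15_6_3_53)) (pfC_sound p15_6_3_54)) (pfC_sound p15_6_3_55)) (pfC_sound p15_6_3_56)) (pfC_sound p15_6_3_57)) (pfC_sound p15_6_3_58)) (by decide +kernel)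

def z15_6_3 : zOK yB15_6 (nat_lit 3) (nat_lit 750) (nat_lit 943) (nat_lit 4541304) (nat_lit 2382573) = true := by decide +kernel
def g15_6_3 : gOK yB15_6.x P15_6 (nat_lit 1426) (q15_6 :: r15_6) (nat_lit 3) (nat_lit 750) (nat_lit 4) (nat_lit 943) (nat_lit 12712500) (nat_lit 12712500) (nat_lit 12712500) (nat_lit 12712500) [(nat_lit 800)] = true := by decide +kernel
def v15_6_3 : ivC P15_6 s15_6 w15_6 n15_6 (nat_lit 4) (nat_lit 4790) (nat_lit 3) (nat_lit 750) f128_1_750 f136_1_750 (nat_lit 4) (nat_lit 943) f128_1_943 f136_1_943 (nat_lit 4541304) (nat_lit 2382573) p15_6_3 = true := by decide +kernel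
/-! box `yB15_7` -/

def P15_7 : BQ := ⟨(nat_lit 8), (nat_lit 2), (nat_lit 6), (nat_lit 0), (nat_lit 8), (nat_lit 670), (nat_lit 680), (nat_lit 120), [(nat_lit 200), (nat_lit 300), (nat_lit 450), (nat_lit 800)], (nat_lit 62720000), (nat_lit 16000000), (nat_lit 16000000000)⟩
def q15_7 : PC := ⟨(nat_lit 1000), [(nat_lit 120000), (nat_lit 200000), (nat_lit 300000), (nat_lit 450000), (nat_lit 800000)], (nat_lit 340282367000166625996085689103316680705000000), (nat_lit 15937280000000), (nat_lit 15937280000000), (nat_lit 10000000)⟩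
def r15_7 : List PC := [⟨(nat_lit 1330), [(nat_lit 120546), (nat_lit 200994), (nat_lit 301787), (nat_lit 452061), (nat_lit 798789)], (nat_lit 342463917255060708546215679123233052979842888), (nat_lit 16333941668800), (nat_lit 16340246147200), (nat_lit 10059567)⟩]
def s15_7 : List PB := [⟨(nat_lit 26600), (nat_lit 1928736000000), [(nat_lit 200994), (nat_lit 301787), (nat_lit 452061), (nat_lit 798789)], (nat_lit 342463917255060708546215679123233052979842888), (nat_lit 1142233848511424), (nat_lit 1142240152989824), (nat_lit 52800)⟩]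
def n15_7 : List KN := [⟨(nat_lit 800), (nat_lit 450), (nat_lit 13783263), (nat_lit 8627501)⟩, ⟨(nat_lit 450), (nat_lit 300), (nat_lit 20479430), (nat_lit 13783263)⟩, ⟨(nat_lit 300), (nat_lit 200), (nat_lit 27806210), (nat_lit 20479430)⟩, ⟨(nat_lit 200), (nat_lit 120), (nat_lit 43428061), (nat_lit 27806210)⟩]
def w15_7 : List ℕ := [(nat_lit 52800)]
def par15_7 : parC yB15_7 P15_7 s15_7 r15_7 q15_7 n15_7 w15_7 = true := by decide +kernel

def p15_7_0 : PF := (PF.cons (PF.cons (PF.cons (PF.cons (PF.leaf (nat_lit 518831) (nat_lit 1442042) (nat_lit 65666770) (nat_lit 1442042) [(nat_lit 0), (nat_lit 0), (nat_lit 0), (nat_lit 0)]) (PF.cons (PF.leaf (nat_lit 600323) (nat_lit 123189) (nat_lit 65509028) (nat_lit 1476595) [(nat_lit 123189), (nat_lit 0), (nat_lit 0), (nat_lit 0)]) (PF.cons (PF.leaf (nat_lit 705938) (nat_lit 136379) (nat_lit 65320631) (nat_lit 1515422) [(nat_lit 136379), (nat_lit 0), (nat_lit 0), (nat_lit 0)]) (PF.cons (PF.leaf (nat_lit 827730)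 (nat_lit 148860) (nat_lit 65105182) (nat_lit 1557049) [(nat_lit 148860), (nat_lit 0), (nat_lit 0), (nat_lit 0)]) (PF.cons (PF.leaf (nat_lit 963522) (nat_lit 160816) (nat_lit 64865085) (nat_lit 1600461) [(nat_lit 160816), (nat_lit 0), (nat_lit 0), (nat_lit 0)]) (PF.cons PF.nil (PF.cons PF.nil PF.nil))))))) (PF.cons (PF.cons (PF.leaf (nat_lit 907904) (nat_lit 752121) (nat_lit 64747202) (nat_lit 1609489) [(nat_lit 0), (nat_lit 752121), (nat_lit 0), (nat_lit 0)]) (PF.cons (PF.leaf (nat_lit 1029175) (nat_lit 162972) (nat_lit 64519310) (nat_lit 1647450) [(nat_lit 162972), (nat_lit 779080), (nat_lit 0), (nat_lit 0)]) (PF.cons (PF.leaf (nat_lit 1170087) (nat_lit 174661) (nat_lit 64265155)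
 (nat_lit 1687388) [(nat_lit 174661), (nat_lit 806945), (nat_lit 0), (nat_lit 0)]) (PF.cons (PF.leaf (nat_lit 1324685) (nat_lit 185870) (nat_lit 63987506) (nat_lit 1728482) [(nat_lit 185870), (nat_lit 835212), (nat_lit 0), (nat_lit 0)]) (PF.cons PF.nil PF.nil))))) (PF.cons (PF.cons (PF.leaf (nat_lit 1388342) (nat_lit 857751) (nat_lit 63624435) (nat_lit 1768874) [(nat_lit 0), (nat_lit 857751), (nat_lit 0), (nat_lit 0)]) (PF.cons (PF.leaf (nat_lit 1543816) (nat_lit 198290) (nat_lit 63336513) (nat_lit 1806584) [(nat_lit 198290), (nat_lit 883712), (nat_lit 0), (nat_lit 0)]) (PF.cons (PF.leaf (nat_lit 1715196) (nat_lit 208833) (nat_lit 63026306) (nat_lit 1845010) [(nat_lit 208833), (nat_lit 909914), (nat_lit 0), (nat_lit 0)]) (PF.cons PF.nil PF.nil)))) (PF.cons (PF.cons (PF.leaf (nat_lit 1945895) (nat_lit 953316) (nat_lit 62333937) (nat_lit 1914926) [(nat_lit 0), (nat_lit 953316), (nat_lit 0), (nat_lit 0)]) (PF.cons PF.nil PF.nil)) (PF.cons PF.nil (PF.cons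 PF.nil PF.nil)))))) (PF.cons (PF.cons (PF.cons (PF.leaf (nat_lit 1465763) (nat_lit 1810970) (nat_lit 62861577) (nat_lit 1810970) [(nat_lit 0), (nat_lit 0), (nat_lit 2436265), (nat_lit 0)]) (PF.cons (PF.leaf (nat_lit 1604748) (nat_lit
 191882) (nat_lit 62600952) (nat_lit 1843464) [(nat_lit 191882), (nat_lit 0), (nat_lit 2472512), (nat_lit 0)]) (PF.cons (PF.leaf (nat_lit 1762020) (nat_lit 203534) (nat_lit 62313672) (nat_lit 1877468) [(nat_lit 203534), (nat_lit 0), (nat_lit 2510603), (nat_lit 0)]) (PF.cons (PF.leaf (nat_lit 1933223) (nat_lit 214480) (nat_lit 62003338) (nat_lit 1912286) [(nat_lit 214480), (nat_lit 0), (nat_lit 2549745), (nat_lit 0)]) (PF.cons PF.nil PF.nil))))) (PF.cons (PF.cons (PF.leaf (nat_lit 1990277) (nat_lit 961627) (nat_lit 61615540) (nat_lit 1944044) [(nat_lit 0), (nat_lit 961627), (nat_lit 2587600), (nat_lit 0)]) (PF.cons (PF.leaf (nat_lit 2160683) (nat_lit 224969) (nat_lit 61300017) (nat_lit 1975905) [(nat_lit 224969), (nat_lit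 984483), (nat_lit 2623437), (nat_lit 0)]) (PF.cons (PF.leaf (nat_lit 2346036) (nat_lit 235116) (nat_lit 60963078) (nat_lit 2008226) [(nat_lit 235116), (nat_lit 1007406), (nat_lit 2659867), (nat_lit 0)]) (PF.cons PF.nil PF.nil)))) (PF.cons (PF.cons (PF.leaf (nat_lit 2581387) (nat_lit 1043466) (nat_lit 60231548) (nat_lit 2064874) [(nat_lit 0), (nat_lit 1043466), (nat_lit 2725456), (nat_lit 0)]) (PF.cons PF.nil PF.nil)) (PF.cons PF.nil (PF.cons PF.nil PF.nil)))))
 (PF.cons (PF.cons (PF.cons (PF.leaf (nat_lit 2605537) (nat_lit 2083487) (nat_lit 59521558) (nat_lit 2083487) [(nat_lit 0), (nat_lit 0), (nat_lit 2751883), (nat_lit 0)]) (PF.cons (PF.leaf (nat_lit 2787307) (nat_lit 247488) (nat_lit 59187901) (nat_lit 2110287) [(nat_lit 247488), (nat_lit 0), (nat_lit 2781568), (nat_lit 0)]) (PF.cons PF.nil (PF.cons PF.nil PF.nil)))) (PF.cons (PF.cons (PF.leaf (nat_lit 3219460) (nat_lit 1116397) (nat_lit 58082398) (nat_lit 2182871) [(nat_lit 0), (nat_lit 1116397),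 (nat_lit 2863572), (nat_lit 0)]) (PF.cons PF.nil PF.nil)) (PF.cons PF.nil PF.nil))) (PF.cons (PF.cons (PF.cons (PF.leaf (nat_lit 3852381) (nat_lit 2274279) (nat_lit 55928540) (nat_lit 2274279) [(nat_lit 0), (nat_lit 0), (nat_lit 2968664), (nat_lit 0)]) (PF.cons PF.nil PF.nil)) (PF.cons PF.nil PF.nil)) (PF.cons PF.nil (PF.cons PF.nil PF.nil)))))) (PF.cons (PF.cons (PF.cons (PF.cons (PF.leaf (nat_lit 2393763) (nat_lit 2015039) (nat_lit 58391726) (nat_lit 2015039) [(nat_lit 0), (nat_lit 0), (nat_lit 0), (nat_lit 6702047)]) (PF.cons (PF.leaf (nat_lit 2543593) (nat_lit 218205) (nat_lit 58120864) (nat_lit 2040745) [(nat_lit 218205), (nat_lit 0), (nat_lit 0), (nat_lit 6728997)]) (PF.cons (PF.leaf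
 (nat_lit 2711018) (nat_lit 229923) (nat_lit 57824472) (nat_lit 2067368) [(nat_lit 229923), (nat_lit 0), (nat_lit 0), (nat_lit 6757125)]) (PF.cons (PF.leaf (nat_lit 2891519) (nat_lit 240677) (nat_lit 57506660) (nat_lit 2094352) [(nat_lit 240677), (nat_lit 0), (nat_lit 0), (nat_lit 6785766)]) (PF.cons (PF.leaf (nat_lit 3083687) (nat_lit 250663) (nat_lit 57170415) (nat_lit 2121320) [(nat_lit 250663), (nat_lit 0), (nat_lit 0), (nat_lit 6814422)]) (PF.cons (PF.leaf (nat_lit 3286331) (nat_lit 260010) (nat_lit 56818057) (nat_lit 2148000) [(nat_lit 260010), (nat_lit 0), (nat_lit 0), (nat_lit 6842704)]) (PF.cons PF.nil PF.nil))))))) (PF.cons (PF.cons (PF.leaf (nat_lit 2937215) (nat_lit 1060172) (nat_lit 57119272) (nat_lit 2116064) [(nat_lit 0), (nat_lit 1060172), (nat_lit 0), (nat_lit 6813302)]) (PF.cons (PF.leaf (nat_lit 3115450) (nat_lit 249146) (nat_lit 56800971) (nat_lit 2140444) [(nat_lit 249146), (nat_lit 1079540), (nat_lit 0), (nat_lit 6838710)]) (PF.cons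 (PF.leaf (nat_lit 3307520) (nat_lit 258866) (nat_lit 56463273) (nat_lit 2164952) [(nat_lit 258866), (nat_lit 1098715), (nat_lit 0), (nat_lit 6864138)]) (PF.cons (PF.leaf (nat_lit 3510377) (nat_lit 267913) (nat_lit 56109090)
 (nat_lit 2189282) [(nat_lit 267913), (nat_lit 1117521), (nat_lit 0), (nat_lit 6889178)]) (PF.cons PF.nil PF.nil))))) (PF.cons (PF.cons (PF.leaf (nat_lit 3535349) (nat_lit 1126213) (nat_lit 55743086) (nat_lit 2205108) [(nat_lit 0), (nat_lit 1126213), (nat_lit 0), (nat_lit 6908191)]) (PF.cons (PF.leaf (nat_lit 3736015) (nat_lit 275019) (nat_lit 55389805) (nat_lit 2227170) [(nat_lit 275019), (nat_lit 1143415), (nat_lit 0), (nat_lit 6929986)]) (PF.cons (PF.leaf (nat_lit 3947917) (nat_lit 283255) (nat_lit 55021768) (nat_lit 2248937) [(nat_lit 283255), (nat_lit 1160245), (nat_lit 0), (nat_lit 6951102)]) (PF.cons PF.nil PF.nil)))) (PF.cons (PF.cons (PF.leaf (nat_lit 4175015) (nat_lit 1182718) (nat_lit 54295842) (nat_lit 2281582) [(nat_lit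 0), (nat_lit 1182718), (nat_lit 0), (nat_lit 6983232)]) (PF.cons (PF.leaf (nat_lit 4393433) (nat_lit 296921) (nat_lit 53917474) (nat_lit 2300880) [(nat_lit 296921), (nat_lit 1197743), (nat_lit 0), (nat_lit 7000305)]) PF.nil)) (PF.cons PF.nil (PF.cons PF.nil PF.nil)))))) (PF.cons (PF.cons (PF.cons (PF.leaf (nat_lit 3531796) (nat_lit 2210299) (nat_lit 55076459) (nat_lit 2210299) [(nat_lit 0), (nat_lit 0), (nat_lit 2901619), (nat_lit 6920433)]) (PF.cons
 (PF.leaf (nat_lit 3717586) (nat_lit 266463) (nat_lit 54750379) (nat_lit 2230507) [(nat_lit 266463), (nat_lit 0), (nat_lit 2922866), (nat_lit 6938596)]) (PF.cons (PF.leaf (nat_lit 3916519) (nat_lit 275673) (nat_lit 54406163) (nat_lit 2250710) [(nat_lit 275673), (nat_lit 0), (nat_lit 2944151), (nat_lit 6956441)]) (PF.cons (PF.leaf (nat_lit 4125580) (nat_lit 284148) (nat_lit 54046864) (nat_lit 2270656) [(nat_lit 284148), (nat_lit 0), (nat_lit 2965189), (nat_lit 6973659)]) (PF.cons PF.nil PF.nil))))) (PF.cons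 (PF.cons (PF.leaf (nat_lit 4141994) (nat_lit 1177581) (nat_lit 53685799) (nat_lit 2282254) [(nat_lit 0), (nat_lit 1177581), (nat_lit 2978484), (nat_lit 6984694)]) (PF.cons (PF.leaf (nat_lit 4347984) (nat_lit 289900) (nat_lit 53329955) (nat_lit 2300237) [(nat_lit 289900), (nat_lit 1192323), (nat_lit 2997339), (nat_lit 6999056)]) (PF.cons (PF.leaf (nat_lit 4564417) (nat_lit 297568) (nat_lit 52960718) (nat_lit 2317876) [(nat_lit 297568), (nat_lit 1206667), (nat_lit 3015823), (nat_lit 7012589)]) (PF.cons PF.nil PF.nil)))) (PF.cons (PF.cons (PF.leaf (nat_lit 4786654) (nat_lit 1224653) (nat_lit 52243373) (nat_lit 2342958) [(nat_lit 0), (nat_lit 1224653), (nat_lit 3042779), (nat_lit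
 7030394)]) (PF.cons PF.nil PF.nil)) (PF.cons PF.nil (PF.cons PF.nil PF.nil))))) (PF.cons (PF.cons (PF.cons (PF.leaf (nat_lit 4737715) (nat_lit 2339696) (nat_lit 51665344) (nat_lit 2339696) [(nat_lit 0), (nat_lit 0), (nat_lit 3040789), (nat_lit 7022192)]) (PF.cons (PF.leaf (nat_lit 4947030) (nat_lit 301987) (nat_lit 51311640) (nat_lit 2354149) [(nat_lit 301987), (nat_lit 0), (nat_lit 3055466), (nat_lit 7030102)]) (PF.cons PF.nil (PF.cons PF.nil PF.nil)))) (PF.cons (PF.cons (PF.leaf (nat_lit 5382370) (nat_lit 1256575) (nat_lit 50244305) (nat_lit 2386936) [(nat_lit 0), (nat_lit 1256575), (nat_lit 3089052), (nat_lit 7042891)]) (PF.cons PF.nil PF.nil)) (PF.cons PF.nil PF.nil))) (PF.cons (PF.cons (PF.cons (PF.leaf (nat_lit 5959987) (nat_lit 2416422) (nat_lit 48312137) (nat_lit 2416422) [(nat_lit 0), (nat_lit 0), (nat_lit 3117749), (nat_lit 7027004)]) (PF.cons PF.nil PF.nil)) (PF.cons PF.nil PF.nil)) (PF.cons PF.nil PF.nil))))) (PF.cons (PF.cons (PF.cons (PF.cons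 (PF.leaf (nat_lit 4380424) (nat_lit 2276076) (nat_lit 50953964) (nat_lit 2276076) [(nat_lit 0), (nat_lit 0), (nat_lit 0), (nat_lit 6939386)]) (PF.cons (PF.leaf (nat_lit 4566555) (nat_lit 278072) (nat_lit 50645597) (nat_lit
 2291322) [(nat_lit 278072), (nat_lit 0), (nat_lit 0), (nat_lit 6946910)]) (PF.cons (PF.leaf (nat_lit 4765074) (nat_lit 286792) (nat_lit 50321145) (nat_lit 2306402) [(nat_lit 286792), (nat_lit 0), (nat_lit 0), (nat_lit 6953840)]) (PF.cons (PF.leaf (nat_lit 4972797) (nat_lit 294702) (nat_lit 49983573) (nat_lit 2321128) [(nat_lit 294702), (nat_lit 0), (nat_lit 0), (nat_lit 6960001)]) (PF.cons (PF.leaf (nat_lit 5188663) (nat_lit 301947) (nat_lit 49635116) (nat_lit 2335375) [(nat_lit 301947), (nat_lit 0), (nat_lit 0), (nat_lit 6965266)]) PF.nil))))) (PF.cons (PF.cons (PF.leaf (nat_lit 4978426) (nat_lit 1210014) (nat_lit 49649645) (nat_lit 2327798) [(nat_lit 0), (nat_lit 1210014), (nat_lit 0), (nat_lit 6960676)]) (PF.cons (PF.leaf (nat_lit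 5182353) (nat_lit 299053) (nat_lit 49317211) (nat_lit 2340901) [(nat_lit 299053), (nat_lit 1222090), (nat_lit 0), (nat_lit 6964778)]) (PF.cons (PF.leaf (nat_lit 5395885) (nat_lit 306124) (nat_lit 48973241) (nat_lit 2353607) [(nat_lit 306124), (nat_lit 1233713), (nat_lit 0), (nat_lit 6968001)]) (PF.cons PF.nil PF.nil)))) (PF.cons (PF.cons (PF.leaf (nat_lit 5603958) (nat_lit 1246658) (nat_lit 48311361) (nat_lit 2369735) [(nat_lit 0), (nat_lit 1246658),
 (nat_lit 0), (nat_lit 6967199)]) (PF.cons (PF.leaf (nat_lit 5821180) (nat_lit 316072) (nat_lit 47963524) (nat_lit 2380556) [(nat_lit 316072), (nat_lit 1256774), (nat_lit 0), (nat_lit 6967555)]) PF.nil)) (PF.cons PF.nil (PF.cons PF.nil PF.nil))))) (PF.cons (PF.cons (PF.cons (PF.leaf (nat_lit 5536791) (nat_lit 2361429) (nat_lit 47794151) (nat_lit 2361429) [(nat_lit 0), (nat_lit 0), (nat_lit 3057959), (nat_lit 6947636)]) (PF.cons (PF.leaf (nat_lit 5742363) (nat_lit 307899) (nat_lit 47467526) (nat_lit 2371719)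 [(nat_lit 307899), (nat_lit 0), (nat_lit 3067524), (nat_lit 6947071)]) (PF.cons (PF.leaf (nat_lit 5956991) (nat_lit 314472) (nat_lit 47130437) (nat_lit 2381603) [(nat_lit 314472), (nat_lit 0), (nat_lit 3076648), (nat_lit 6945589)]) (PF.cons PF.nil PF.nil)))) (PF.cons (PF.cons (PF.leaf (nat_lit 6158561) (nat_lit 1266861) (nat_lit 46489328) (nat_lit 2392882) [(nat_lit 0), (nat_lit 1266861), (nat_lit 3086876), (nat_lit 6936431)]) (PF.cons PF.nil PF.nil)) (PF.cons PF.nil PF.nil))) (PF.cons (PF.cons (PF.cons (PF.leaf (nat_lit 6695132) (nat_lit 2405381) (nat_lit 44740692) (nat_lit 2405381) [(nat_lit 0), (nat_lit 0), (nat_lit 3094769), (nat_lit 6886600)]) (PF.cons PF.nil PF.nil))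
 (PF.cons PF.nil PF.nil)) PF.nil))) (PF.cons (PF.cons (PF.cons (PF.cons (PF.leaf (nat_lit 6260177) (nat_lit 2354275) (nat_lit 44316819) (nat_lit 2354275) [(nat_lit 0), (nat_lit 0), (nat_lit 0), (nat_lit 6812572)]) (PF.cons (PF.leaf (nat_lit 6460862) (nat_lit 309845) (nat_lit 44018310) (nat_lit 2361495) [(nat_lit 309845), (nat_lit 0), (nat_lit 0), (nat_lit 6806387)]) (PF.cons PF.nil (PF.cons PF.nil PF.nil)))) (PF.cons (PF.cons (PF.leaf (nat_lit 6858214) (nat_lit 1263287) (nat_lit 43129573) (nat_lit 2374288) [(nat_lit 0), (nat_lit 1263287), (nat_lit 0), (nat_lit 6780554)]) (PF.cons PF.nil PF.nil)) (PF.cons PF.nil PF.nil))) (PF.cons (PF.cons (PF.cons (PF.leaf (nat_lit 7358105) (nat_lit 2375098) (nat_lit 41555855) (nat_lit 2375098) [(nat_lit 0), (nat_lit 0), (nat_lit 3048313), (nat_lit 6709848)]) (PF.cons PF.nil PF.nil)) PF.nil) PF.nil)) (PF.cons PF.nil (PF.cons PF.nil (PF.cons PF.nil (PF.cons PF.nil PF.nil))))))))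

def p15_7_0_0 : pfC (piC [(nat_lit 43428061), (nat_lit 27806210), (nat_lit 20479430), (nat_lit 13783263)] (nat_lit 28134109)) p15_7_0 (nat_lit 4) (nat_lit 0) (nat_lit 1) = true := by decide +kernel
def p15_7_0_1 : pfC (piC [(nat_lit 43428061), (nat_lit 27806210), (nat_lit 20479430), (nat_lit 13783263)] (nat_lit 28134109)) p15_7_0 (nat_lit 4) (nat_lit 1) (nat_lit 2) = true := by decide +kernel
def p15_7_0_2 : pfC (piC [(nat_lit 43428061), (nat_lit 27806210), (nat_lit 20479430), (nat_lit 13783263)] (nat_lit 28134109)) p15_7_0 (nat_lit 4) (nat_lit 2) (nat_lit 3) = true := by decide +kernel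
def p15_7_0_3 : pfC (piC [(nat_lit 43428061), (nat_lit 27806210), (nat_lit 20479430), (nat_lit 13783263)] (nat_lit 28134109)) p15_7_0 (nat_lit 4) (nat_lit 3) (nat_lit 4) = true := by decide +kernel
def p15_7_0_4 : pfC (piC [(nat_lit 43428061), (nat_lit 27806210), (nat_lit 20479430), (nat_lit 13783263)] (nat_lit 28134109)) p15_7_0 (nat_lit 4) (nat_lit 4) (nat_lit 5) = true := by decide +kernel
def p15_7_0_5 : pfC (piC [(nat_lit 43428061), (nat_lit 27806210), (nat_lit 20479430), (nat_lit 13783263)] (nat_lit 28134109)) p15_7_0 (nat_lit 4) (nat_lit 5) (nat_lit 6) = true := by decide +kernel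
def p15_7_0_6 : pfC (piC [(nat_lit 43428061), (nat_lit 27806210), (nat_lit 20479430), (nat_lit 13783263)] (nat_lit 28134109)) p15_7_0 (nat_lit 4) (nat_lit 6) (nat_lit 7) = true := by decide +kernel
def p15_7_0_7 : pfC (piC [(nat_lit 43428061), (nat_lit 27806210), (nat_lit 20479430), (nat_lit 13783263)] (nat_lit 28134109)) p15_7_0 (nat_lit 4) (nat_lit 7) (nat_lit 8) = true := by decide +kernel
def p15_7_0_8 : pfC (piC [(nat_lit 43428061), (nat_lit 27806210), (nat_lit 20479430), (nat_lit 13783263)] (nat_lit 28134109)) p15_7_0 (nat_lit 4) (nat_lit 8) (nat_lit 9) = true := by decide +kernel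
def p15_7_0_9 : pfC (piC [(nat_lit 43428061), (nat_lit 27806210), (nat_lit 20479430), (nat_lit 13783263)] (nat_lit 28134109)) p15_7_0 (nat_lit 4) (nat_lit 9) (nat_lit 10) = true := by decide +kernel
def p15_7_0_10 : pfC (piC [(nat_lit 43428061), (nat_lit 27806210), (nat_lit 20479430), (nat_lit 13783263)] (nat_lit 28134109)) p15_7_0 (nat_lit 4) (nat_lit 10) (nat_lit 11) = true := by decide +kernel
def p15_7_0_11 : pfC (piC [(nat_lit 43428061), (nat_lit 27806210), (nat_lit 20479430), (nat_lit 13783263)] (nat_lit 28134109)) p15_7_0 (nat_lit 4) (nat_lit 11) (nat_lit 12) = true := by decide +kernel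
def p15_7_0_12 : pfC (piC [(nat_lit 43428061), (nat_lit 27806210), (nat_lit 20479430), (nat_lit 13783263)] (nat_lit 28134109)) p15_7_0 (nat_lit 4) (nat_lit 12) (nat_lit 13) = true := by decide +kernel
def p15_7_0_13 : pfC (piC [(nat_lit 43428061), (nat_lit 27806210), (nat_lit 20479430), (nat_lit 13783263)] (nat_lit 28134109)) p15_7_0 (nat_lit 4) (nat_lit 13) (nat_lit 14) = true := by decide +kernel
def p15_7_0_14 : pfC (piC [(nat_lit 43428061), (nat_lit 27806210), (nat_lit 20479430), (nat_lit 13783263)] (nat_lit 28134109)) p15_7_0 (nat_lit 4) (nat_lit 14) (nat_lit 15) = true := by decide +kernel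
def p15_7_0_15 : pfC (piC [(nat_lit 43428061), (nat_lit 27806210), (nat_lit 20479430), (nat_lit 13783263)] (nat_lit 28134109)) p15_7_0 (nat_lit 4) (nat_lit 15) (nat_lit 16) = true := by decide +kernel
def p15_7_0_16 : pfC (piC [(nat_lit 43428061), (nat_lit 27806210), (nat_lit 20479430), (nat_lit 13783263)] (nat_lit 28134109)) p15_7_0 (nat_lit 4) (nat_lit 16) (nat_lit 17) = true := by decide +kernel
def p15_7_0_17 : pfC (piC [(nat_lit 43428061), (nat_lit 27806210), (nat_lit 20479430), (nat_lit 13783263)] (nat_lit 28134109)) p15_7_0 (nat_lit 4) (nat_lit 17) (nat_lit 18) = true := by decide +kernel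
def p15_7_0_18 : pfC (piC [(nat_lit 43428061), (nat_lit 27806210), (nat_lit 20479430), (nat_lit 13783263)] (nat_lit 28134109)) p15_7_0 (nat_lit 4) (nat_lit 18) (nat_lit 19) = true := by decide +kernel
def p15_7_0_19 : pfC (piC [(nat_lit 43428061), (nat_lit 27806210), (nat_lit 20479430), (nat_lit 13783263)] (nat_lit 28134109)) p15_7_0 (nat_lit 4) (nat_lit 19) (nat_lit 20) = true := by decide +kernel
def p15_7_0_20 : pfC (piC [(nat_lit 43428061), (nat_lit 27806210), (nat_lit 20479430), (nat_lit 13783263)] (nat_lit 28134109)) p15_7_0 (nat_lit 4) (nat_lit 20) (nat_lit 21) = true := by decide +kernel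
def p15_7_0_21 : pfC (piC [(nat_lit 43428061), (nat_lit 27806210), (nat_lit 20479430), (nat_lit 13783263)] (nat_lit 28134109)) p15_7_0 (nat_lit 4) (nat_lit 21) (nat_lit 22) = true := by decide +kernel
def p15_7_0_22 : pfC (piC [(nat_lit 43428061), (nat_lit 27806210), (nat_lit 20479430), (nat_lit 13783263)] (nat_lit 28134109)) p15_7_0 (nat_lit 4) (nat_lit 22) (nat_lit 23) = true := by decide +kernel
def p15_7_0_23 : pfC (piC [(nat_lit 43428061), (nat_lit 27806210), (nat_lit 20479430), (nat_lit 13783263)] (nat_lit 28134109)) p15_7_0 (nat_lit 4) (nat_lit 23) (nat_lit 24) = true := by decide +kernel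
def p15_7_0_24 : pfC (piC [(nat_lit 43428061), (nat_lit 27806210), (nat_lit 20479430), (nat_lit 13783263)] (nat_lit 28134109)) p15_7_0 (nat_lit 4) (nat_lit 24) (nat_lit 25) = true := by decide +kernel
def p15_7_0_25 : pfC (piC [(nat_lit 43428061), (nat_lit 27806210), (nat_lit 20479430), (nat_lit 13783263)] (nat_lit 28134109)) p15_7_0 (nat_lit 4) (nat_lit 25) (nat_lit 26) = true := by decide +kernel
def p15_7_0_26 : pfC (piC [(nat_lit 43428061), (nat_lit 27806210), (nat_lit 20479430), (nat_lit 13783263)] (nat_lit 28134109)) p15_7_0 (nat_lit 4) (nat_lit 26) (nat_lit 27) = true := by decide +kernel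
def p15_7_0_27 : pfC (piC [(nat_lit 43428061), (nat_lit 27806210), (nat_lit 20479430), (nat_lit 13783263)] (nat_lit 28134109)) p15_7_0 (nat_lit 4) (nat_lit 27) (nat_lit 28) = true := by decide +kernel
def p15_7_0_28 : pfC (piC [(nat_lit 43428061), (nat_lit 27806210), (nat_lit 20479430), (nat_lit 13783263)] (nat_lit 28134109)) p15_7_0 (nat_lit 4) (nat_lit 28) (nat_lit 29) = true := by decide +kernel
def p15_7_0_29 : pfC (piC [(nat_lit 43428061), (nat_lit 27806210), (nat_lit 20479430), (nat_lit 13783263)] (nat_lit 28134109)) p15_7_0 (nat_lit 4) (nat_lit 29) (nat_lit 30) = true := by decide +kernel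
def p15_7_0_30 : pfC (piC [(nat_lit 43428061), (nat_lit 27806210), (nat_lit 20479430), (nat_lit 13783263)] (nat_lit 28134109)) p15_7_0 (nat_lit 4) (nat_lit 30) (nat_lit 31) = true := by decide +kernel
def p15_7_0_31 : pfC (piC [(nat_lit 43428061), (nat_lit 27806210), (nat_lit 20479430), (nat_lit 13783263)] (nat_lit 28134109)) p15_7_0 (nat_lit 4) (nat_lit 31) (nat_lit 32) = true := by decide +kernel
def p15_7_0_32 : pfC (piC [(nat_lit 43428061), (nat_lit 27806210), (nat_lit 20479430), (nat_lit 13783263)] (nat_lit 28134109)) p15_7_0 (nat_lit 4) (nat_lit 32) (nat_lit 33) = true := by decide +kernel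
def p15_7_0_33 : pfC (piC [(nat_lit 43428061), (nat_lit 27806210), (nat_lit 20479430), (nat_lit 13783263)] (nat_lit 28134109)) p15_7_0 (nat_lit 4) (nat_lit 33) (nat_lit 34) = true := by decide +kernel
def p15_7_0_34 : pfC (piC [(nat_lit 43428061), (nat_lit 27806210), (nat_lit 20479430), (nat_lit 13783263)] (nat_lit 28134109)) p15_7_0 (nat_lit 4) (nat_lit 34) (nat_lit 35) = true := by decide +kernel
def p15_7_0_35 : pfC (piC [(nat_lit 43428061), (nat_lit 27806210), (nat_lit 20479430), (nat_lit 13783263)] (nat_lit 28134109)) p15_7_0 (nat_lit 4) (nat_lit 35) (nat_lit 36) = true := by decide +kernel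
def p15_7_0_36 : pfC (piC [(nat_lit 43428061), (nat_lit 27806210), (nat_lit 20479430), (nat_lit 13783263)] (nat_lit 28134109)) p15_7_0 (nat_lit 4) (nat_lit 36) (nat_lit 37) = true := by decide +kernel
def p15_7_0_37 : pfC (piC [(nat_lit 43428061), (nat_lit 27806210), (nat_lit 20479430), (nat_lit 13783263)] (nat_lit 28134109)) p15_7_0 (nat_lit 4) (nat_lit 37) (nat_lit 38) = true := by decide +kernel
def p15_7_0_38 : pfC (piC [(nat_lit 43428061), (nat_lit 27806210), (nat_lit 20479430), (nat_lit 13783263)] (nat_lit 28134109)) p15_7_0 (nat_lit 4) (nat_lit 38) (nat_lit 39) = true := by decide +kernel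
def p15_7_0_39 : pfC (piC [(nat_lit 43428061), (nat_lit 27806210), (nat_lit 20479430), (nat_lit 13783263)] (nat_lit 28134109)) p15_7_0 (nat_lit 4) (nat_lit 39) (nat_lit 40) = true := by decide +kernel
def p15_7_0_40 : pfC (piC [(nat_lit 43428061), (nat_lit 27806210), (nat_lit 20479430), (nat_lit 13783263)] (nat_lit 28134109)) p15_7_0 (nat_lit 4) (nat_lit 40) (nat_lit 41) = true := by decide +kernel
def p15_7_0_41 : pfC (piC [(nat_lit 43428061), (nat_lit 27806210), (nat_lit 20479430), (nat_lit 13783263)] (nat_lit 28134109)) p15_7_0 (nat_lit 4) (nat_lit 41) (nat_lit 42) = true := by decide +kernel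
def p15_7_0_42 : pfC (piC [(nat_lit 43428061), (nat_lit 27806210), (nat_lit 20479430), (nat_lit 13783263)] (nat_lit 28134109)) p15_7_0 (nat_lit 4) (nat_lit 42) (nat_lit 43) = true := by decide +kernel
def p15_7_0_43 : pfC (piC [(nat_lit 43428061), (nat_lit 27806210), (nat_lit 20479430), (nat_lit 13783263)] (nat_lit 28134109)) p15_7_0 (nat_lit 4) (nat_lit 43) (nat_lit 44) = true := by decide +kernel
def p15_7_0_44 : pfC (piC [(nat_lit 43428061), (nat_lit 27806210), (nat_lit 20479430), (nat_lit 13783263)] (nat_lit 28134109)) p15_7_0 (nat_lit 4) (nat_lit 44) (nat_lit 45) = true := by decide +kernel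
def p15_7_0_45 : pfC (piC [(nat_lit 43428061), (nat_lit 27806210), (nat_lit 20479430), (nat_lit 13783263)] (nat_lit 28134109)) p15_7_0 (nat_lit 4) (nat_lit 45) (nat_lit 46) = true := by decide +kernel
def p15_7_0_46 : pfC (piC [(nat_lit 43428061), (nat_lit 27806210), (nat_lit 20479430), (nat_lit 13783263)] (nat_lit 28134109)) p15_7_0 (nat_lit 4) (nat_lit 46) (nat_lit 47) = true := by decide +kernel
def p15_7_0_47 : pfC (piC [(nat_lit 43428061), (nat_lit 27806210), (nat_lit 20479430), (nat_lit 13783263)] (nat_lit 28134109)) p15_7_0 (nat_lit 4) (nat_lit 47) (nat_lit 48) = true := by decide +kernel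
def p15_7_0_48 : pfC (piC [(nat_lit 43428061), (nat_lit 27806210), (nat_lit 20479430), (nat_lit 13783263)] (nat_lit 28134109)) p15_7_0 (nat_lit 4) (nat_lit 48) (nat_lit 49) = true := by decide +kernel
def p15_7_0_49 : pfC (piC [(nat_lit 43428061), (nat_lit 27806210), (nat_lit 20479430), (nat_lit 13783263)] (nat_lit 28134109)) p15_7_0 (nat_lit 4) (nat_lit 49) (nat_lit 50) = true := by decide +kernel
def p15_7_0_50 : pfC (piC [(nat_lit 43428061), (nat_lit 27806210), (nat_lit 20479430), (nat_lit 13783263)] (nat_lit 28134109)) p15_7_0 (nat_lit 4) (nat_lit 50) (nat_lit 51) = true := by decide +kernel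
def p15_7_0_51 : pfC (piC [(nat_lit 43428061), (nat_lit 27806210), (nat_lit 20479430), (nat_lit 13783263)] (nat_lit 28134109)) p15_7_0 (nat_lit 4) (nat_lit 51) (nat_lit 52) = true := by decide +kernel
def p15_7_0_52 : pfC (piC [(nat_lit 43428061), (nat_lit 27806210), (nat_lit 20479430), (nat_lit 13783263)] (nat_lit 28134109)) p15_7_0 (nat_lit 4) (nat_lit 52) (nat_lit 53) = true := by decide +kernel
def p15_7_0_53 : pfC (piC [(nat_lit 43428061), (nat_lit 27806210), (nat_lit 20479430), (nat_lit 13783263)] (nat_lit 28134109)) p15_7_0 (nat_lit 4) (nat_lit 53) (nat_lit 54) = true := by decide +kernel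
def p15_7_0_54 : pfC (piC [(nat_lit 43428061), (nat_lit 27806210), (nat_lit 20479430), (nat_lit 13783263)] (nat_lit 28134109)) p15_7_0 (nat_lit 4) (nat_lit 54) (nat_lit 55) = true := by decide +kernel
def p15_7_0_55 : pfC (piC [(nat_lit 43428061), (nat_lit 27806210), (nat_lit 20479430), (nat_lit 13783263)] (nat_lit 28134109)) p15_7_0 (nat_lit 4) (nat_lit 55) (nat_lit 56) = true := by decide +kernel
def p15_7_0_56 : pfC (piC [(nat_lit 43428061), (nat_lit 27806210), (nat_lit 20479430), (nat_lit 13783263)] (nat_lit 28134109)) p15_7_0 (nat_lit 4) (nat_lit 56) (nat_lit 57) = true := by decide +kernel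
def p15_7_0_57 : pfC (piC [(nat_lit 43428061), (nat_lit 27806210), (nat_lit 20479430), (nat_lit 13783263)] (nat_lit 28134109)) p15_7_0 (nat_lit 4) (nat_lit 57) (nat_lit 58) = true := by decide +kernel
def p15_7_0_58 : pfC (piC [(nat_lit 43428061), (nat_lit 27806210), (nat_lit 20479430), (nat_lit 13783263)] (nat_lit 28134109)) p15_7_0 (nat_lit 4) (nat_lit 58) (nat_lit 59) = true := by decide +kernel
def p15_7_0_59 : pfC (piC [(nat_lit 43428061), (nat_lit 27806210), (nat_lit 20479430), (nat_lit 13783263)] (nat_lit 28134109)) p15_7_0 (nat_lit 4) (nat_lit 59) (nat_lit 60) = true := by decide +kernel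
def p15_7_0_60 : pfC (piC [(nat_lit 43428061), (nat_lit 27806210), (nat_lit 20479430), (nat_lit 13783263)] (nat_lit 28134109)) p15_7_0 (nat_lit 4) (nat_lit 60) (nat_lit 61) = true := by decide +kernel
def p15_7_0_61 : pfC (piC [(nat_lit 43428061), (nat_lit 27806210), (nat_lit 20479430), (nat_lit 13783263)] (nat_lit 28134109)) p15_7_0 (nat_lit 4) (nat_lit 61) (nat_lit 62) = true := by decide +kernel
def p15_7_0_62 : pfC (piC [(nat_lit 43428061), (nat_lit 27806210), (nat_lit 20479430), (nat_lit 13783263)] (nat_lit 28134109)) p15_7_0 (nat_lit 4) (nat_lit 62) (nat_lit 63) = true := by decide +kernel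
def p15_7_0_63 : pfC (piC [(nat_lit 43428061), (nat_lit 27806210), (nat_lit 20479430), (nat_lit 13783263)] (nat_lit 28134109)) p15_7_0 (nat_lit 4) (nat_lit 63) (nat_lit 64) = true := by decide +kernel
def p15_7_0_64 : pfC (piC [(nat_lit 43428061), (nat_lit 27806210), (nat_lit 20479430), (nat_lit 13783263)] (nat_lit 28134109)) p15_7_0 (nat_lit 4) (nat_lit 64) (nat_lit 65) = true := by decide +kernel
def p15_7_0_65 : pfC (piC [(nat_lit 43428061), (nat_lit 27806210), (nat_lit 20479430), (nat_lit 13783263)] (nat_lit 28134109)) p15_7_0 (nat_lit 4) (nat_lit 65) (nat_lit 66) = true := by decide +kernel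
def p15_7_0_66 : pfC (piC [(nat_lit 43428061), (nat_lit 27806210), (nat_lit 20479430), (nat_lit 13783263)] (nat_lit 28134109)) p15_7_0 (nat_lit 4) (nat_lit 66) (nat_lit 67) = true := by decide +kernel
def p15_7_0_67 : pfC (piC [(nat_lit 43428061), (nat_lit 27806210), (nat_lit 20479430), (nat_lit 13783263)] (nat_lit 28134109)) p15_7_0 (nat_lit 4) (nat_lit 67) (nat_lit 68) = true := by decide +kernel
def p15_7_0_68 : pfC (piC [(nat_lit 43428061), (nat_lit 27806210), (nat_lit 20479430), (nat_lit 13783263)] (nat_lit 28134109)) p15_7_0 (nat_lit 4) (nat_lit 68) (nat_lit 69) = true := by decide +kernel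
def p15_7_0_69 : pfC (piC [(nat_lit 43428061), (nat_lit 27806210), (nat_lit 20479430), (nat_lit 13783263)] (nat_lit 28134109)) p15_7_0 (nat_lit 4) (nat_lit 69) (nat_lit 70) = true := by decide +kernel
def p15_7_0_70 : pfC (piC [(nat_lit 43428061), (nat_lit 27806210), (nat_lit 20479430), (nat_lit 13783263)] (nat_lit 28134109)) p15_7_0 (nat_lit 4) (nat_lit 70) (nat_lit 71) = true := by decide +kernel
theorem p15_7_0_T : PfS (PiF n15_7.reverse (nat_lit 28134109)) p15_7_0 (nat_lit 4) [] 0 :=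
  pftab_of (los := [(nat_lit 43428061), (nat_lit 27806210), (nat_lit 20479430), (nat_lit 13783263)]) (by decide +kernel) (hi := (nat_lit 71)) (PfP.trans (PfP.trans (PfP.trans (PfP.trans (PfP.trans (PfP.trans (PfP.trans (PfP.trans (PfP.trans (PfP.trans (PfP.trans (PfP.trans (PfP.trans (PfP.trans (PfP.trans (PfP.trans (PfP.trans (PfP.trans (PfP.trans (PfP.trans (PfP.trans (PfP.trans (PfP.trans (PfP.trans (PfP.trans (PfP.trans (PfP.trans (PfP.trans (PfP.trans (PfP.trans (PfP.trans (PfP.trans (PfP.trans (PfP.trans (PfP.trans (PfP.trans (PfP.trans (PfP.trans (PfP.trans (PfP.trans (PfP.trans (PfP.trans (PfP.trans (PfP.trans (PfP.trans (PfP.trans (PfP.trans (PfP.trans (PfP.trans (PfP.trans (PfP.trans (PfP.trans (PfP.trans (PfP.trans (PfP.trans (PfP.trans (PfP.trans (PfP.trans (PfP.trans (PfP.trans (PfP.trans (PfP.trans (PfP.trans (PfP.trans (PfP.trans (PfP.trans (PfP.trans (PfP.trans (PfP.trans (PfP.trans (pfC_sound p15_7_0_0) (pfC_sound p15_7_0_1)) (pfC_sound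 p15_7_0_2)) (pfC_sound p15_7_0_3)) (pfC_sound p15_7_0_4)) (pfC_sound p15_7_0_5)) (pfC_sound p15_7_0_6)) (pfC_sound p15_7_0_7)) (pfC_sound p15_7_0_8)) (pfC_sound p15_7_0_9)) (pfC_sound p15_7_0_10)) (pfC_sound p15_7_0_11)) (pfC_sound p15_7_0_12)) (pfC_sound p15_7_0_13)) (pfC_sound p15_7_0_14)) (pfC_sound p15_7_0_15)) (pfC_sound p15_7_0_16)) (pfC_sound p15_7_0_17))
 (pfC_sound p15_7_0_18)) (pfC_sound p15_7_0_19)) (pfC_sound p15_7_0_20)) (pfC_sound p15_7_0_21)) (pfC_sound p15_7_0_22)) (pfC_sound p15_7_0_23)) (pfC_sound p15_7_0_24)) (pfC_sound p15_7_0_25)) (pfC_sound p15_7_0_26)) (pfC_sound p15_7_0_27)) (pfC_sound p15_7_0_28)) (pfC_sound p15_7_0_29)) (pfC_sound p15_7_0_30)) (pfC_sound p15_7_0_31)) (pfC_sound p15_7_0_32)) (pfC_sound p15_7_0_33)) (pfC_sound p15_7_0_34)) (pfC_sound p15_7_0_35)) (pfC_sound p15_7_0_36)) (pfC_sound p15_7_0_37)) (pfC_sound p15_7_0_38)) (pfC_sound p15_7_0_39)) (pfC_sound p15_7_0_40)) (pfC_sound p15_7_0_41)) (pfC_sound p15_7_0_42))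 (pfC_sound p15_7_0_43)) (pfC_sound p15_7_0_44)) (pfC_sound p15_7_0_45)) (pfC_sound p15_7_0_46)) (pfC_sound p15_7_0_47)) (pfC_sound p15_7_0_48)) (pfC_sound p15_7_0_49)) (pfC_sound p15_7_0_50)) (pfC_sound p15_7_0_51)) (pfC_sound p15_7_0_52)) (pfC_sound p15_7_0_53)) (pfC_sound p15_7_0_54)) (pfC_sound p15_7_0_55)) (pfC_sound p15_7_0_56)) (pfC_sound p15_7_0_57)) (pfC_sound p15_7_0_58)) (pfC_sound p15_7_0_59)) (pfC_sound p15_7_0_60)) (pfC_sound p15_7_0_61)) (pfC_sound p15_7_0_62)) (pfC_sound p15_7_0_63)) (pfC_sound p15_7_0_64)) (pfC_sound p15_7_0_65)) (pfC_sound p15_7_0_66)) (pfC_sound p15_7_0_67))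
 (pfC_sound p15_7_0_68)) (pfC_sound p15_7_0_69)) (pfC_sound p15_7_0_70)) (by decide +kernel)

def z15_7_0 : zOK yB15_7 (nat_lit 0) (nat_lit 0) (nat_lit 400) (nat_lit 28134109) (nat_lit 10051221) = true := by decide +kernel
def g15_7_0 : gOK yB15_7.x P15_7 (nat_lit 1427) (q15_7 :: r15_7) (nat_lit 0) (nat_lit 0) (nat_lit 1) (nat_lit 400) (nat_lit 0) (nat_lit 11000000) (nat_lit 12712500) (nat_lit 12712500) [(nat_lit 800), (nat_lit 1400), (nat_lit 1580)] = true := by decide +kernel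
def v15_7_0 : ivC P15_7 s15_7 w15_7 n15_7 (nat_lit 4) (nat_lit 5530) (nat_lit 0) (nat_lit 0) f128_1_0 f136_1_0 (nat_lit 1) (nat_lit 400) f128_1_400 f136_1_400 (nat_lit 28134109) (nat_lit 10051221) p15_7_0 = true := by decide +kernel
def p15_7_1 : PF := (PF.cons (PF.cons (PF.cons (PF.cons (PF.leaf (nat_lit 2201711) (nat_lit 10764662) (nat_lit 56344150) (nat_lit 10764662) [(nat_lit 0), (nat_lit 0), (nat_lit 0), (nat_lit 0)]) (PF.cons (PF.leaf (nat_lit 2307325) (nat_lit 170842) (nat_lit 56162514) (nat_lit 10775455) [(nat_lit 170842), (nat_lit 0), (nat_lit 0), (nat_lit 0)]) (PF.cons (PF.leaf (nat_lit 2436244) (nat_lit 186101) (nat_lit 55949217) (nat_lit 10787391) [(nat_lit 186101), (nat_lit 0), (nat_lit 0), (nat_lit 0)]) (PF.cons (PF.leaf (nat_lit 2581366) (nat_lit 199777) (nat_lit 55709602) (nat_lit 10799878) [(nat_lit 199777), (nat_lit 0), (nat_lit 0), (nat_lit 0)]) (PF.cons (PF.leaf (nat_lit 2740458) (nat_lit 212242) (nat_lit 55447384) (nat_lit 10812460)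 [(nat_lit 212242), (nat_lit 0), (nat_lit 0), (nat_lit 0)]) PF.nil))))) (PF.cons (PF.cons (PF.leaf (nat_lit 2648615) (nat_lit 961254) (nat_lit 55333791) (nat_lit 10813766) [(nat_lit 0), (nat_lit 961254), (nat_lit 0), (nat_lit 0)]) (PF.cons (PF.leaf (nat_lit 2790904) (nat_lit 210766) (nat_lit 55090695) (nat_lit 10823954) [(nat_lit 210766), (nat_lit 983396), (nat_lit 0), (nat_lit 0)]) (PF.cons (PF.leaf (nat_lit 2950689) (nat_lit 222709) (nat_lit 54823713) (nat_lit 10834097)
 [(nat_lit 222709), (nat_lit 1005583), (nat_lit 0), (nat_lit 0)]) (PF.cons PF.nil PF.nil)))) (PF.cons (PF.cons (PF.leaf (nat_lit 3166918) (nat_lit 1039615) (nat_lit 54179250) (nat_lit 10850331) [(nat_lit 0), (nat_lit 1039615), (nat_lit 0), (nat_lit 0)]) (PF.cons (PF.leaf (nat_lit 3337369) (nat_lit 242379) (nat_lit 53890762) (nat_lit 10857373) [(nat_lit 242379), (nat_lit 1059148), (nat_lit 0), (nat_lit 0)]) PF.nil)) (PF.cons PF.nil (PF.cons PF.nil PF.nil))))) (PF.cons (PF.cons (PF.cons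 (PF.leaf (nat_lit 3194259) (nat_lit 2777760) (nat_lit 53489092) (nat_lit 10841960) [(nat_lit 0), (nat_lit 0), (nat_lit 2777760), (nat_lit 0)]) (PF.cons (PF.leaf (nat_lit 3346346) (nat_lit 230334) (nat_lit 53233284) (nat_lit 10846124) [(nat_lit 230334), (nat_lit 0), (nat_lit 2799069), (nat_lit 0)]) (PF.cons (PF.leaf (nat_lit 3515045) (nat_lit 241808) (nat_lit 52954452) (nat_lit 10849675) [(nat_lit 241808), (nat_lit 0), (nat_lit 2821068), (nat_lit 0)]) (PF.cons PF.nil PF.nil)))) (PF.cons (PF.cons (PF.leaf (nat_lit 3731945) (nat_lit 1098789) (nat_lit 52299323) (nat_lit 10850289) [(nat_lit 0), (nat_lit 1098789), (nat_lit 2860409), (nat_lit 0)]) (PF.cons (PF.leaf (nat_lit 3909846) (nat_lit 259206) (nat_lit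
 52003317) (nat_lit 10850507) [(nat_lit 259206), (nat_lit 1115582), (nat_lit 2880199), (nat_lit 0)]) PF.nil)) (PF.cons PF.nil PF.nil))) (PF.cons (PF.cons (PF.cons (PF.leaf (nat_lit 4292703) (nat_lit 2930857) (nat_lit 50436554) (nat_lit 10810542) [(nat_lit 0), (nat_lit 0), (nat_lit 2930857), (nat_lit 0)]) (PF.cons PF.nil PF.nil)) (PF.cons PF.nil PF.nil)) (PF.cons PF.nil (PF.cons PF.nil PF.nil))))) (PF.cons (PF.cons (PF.cons (PF.cons (PF.leaf (nat_lit 3996502) (nat_lit 6780654) (nat_lit 49627897) (nat_lit 10700261) [(nat_lit 0), (nat_lit 0), (nat_lit 0), (nat_lit 6780654)]) (PF.cons (PF.leaf (nat_lit 4151218) (nat_lit 242431) (nat_lit 49383060) (nat_lit 10695074) [(nat_lit 242431), (nat_lit 0), (nat_lit 0), (nat_lit 6788247)]) (PF.cons (PF.leaf (nat_lit 4321914) (nat_lit 253650) (nat_lit 49117132) (nat_lit 10688673) [(nat_lit 253650), (nat_lit 0), (nat_lit 0), (nat_lit 6795705)]) (PF.cons (PF.leaf (nat_lit 4504561) (nat_lit 263641) (nat_lit 48834114) (nat_lit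 10681002) [(nat_lit 263641), (nat_lit 0), (nat_lit 0), (nat_lit 6802771)]) (PF.cons PF.nil PF.nil))))) (PF.cons (PF.cons (PF.leaf (nat_lit 4530821) (nat_lit 1135577) (nat_lit 48500418) (nat_lit 10667366) [(nat_lit 0), (nat_lit
 1135577), (nat_lit 0), (nat_lit 6805451)]) (PF.cons (PF.leaf (nat_lit 4709177) (nat_lit 269283) (nat_lit 48220999) (nat_lit 10657945) [(nat_lit 269283), (nat_lit 1149950), (nat_lit 0), (nat_lit 6810633)]) (PF.cons (PF.leaf (nat_lit 4899731) (nat_lit 278051) (nat_lit 47926473) (nat_lit 10647129) [(nat_lit 278051), (nat_lit 1163877), (nat_lit 0), (nat_lit 6815229)]) (PF.cons PF.nil PF.nil)))) (PF.cons (PF.cons (PF.leaf (nat_lit 5104515) (nat_lit 1180476) (nat_lit 47311812) (nat_lit 10618292) [(nat_lit 0), (nat_lit 1180476), (nat_lit 0), (nat_lit 6817755)]) (PF.cons PF.nil PF.nil)) PF.nil))) (PF.cons (PF.cons (PF.cons (PF.leaf (nat_lit 5063260) (nat_lit 2955965) (nat_lit 46777560) (nat_lit 10575641) [(nat_lit 0), (nat_lit 0), (nat_lit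 2955965), (nat_lit 6799645)]) (PF.cons (PF.leaf (nat_lit 5245192) (nat_lit 279985) (nat_lit 46499389) (nat_lit 10561702) [(nat_lit 279985), (nat_lit 0), (nat_lit 2967031), (nat_lit 6800704)]) (PF.cons PF.nil PF.nil))) (PF.cons (PF.cons (PF.leaf (nat_lit 5638691) (nat_lit 1206176) (nat_lit 45606756) (nat_lit 10508711) [(nat_lit 0), (nat_lit 1206176), (nat_lit 2991826), (nat_lit 6795341)]) PF.nil) PF.nil)) (PF.cons PF.nil PF.nil))) (PF.cons (PF.cons
 (PF.cons (PF.cons (PF.leaf (nat_lit 5769815) (nat_lit 6676486) (nat_lit 43475193) (nat_lit 10280646) [(nat_lit 0), (nat_lit 0), (nat_lit 0), (nat_lit 6676486)]) (PF.cons (PF.leaf (nat_lit 5948971) (nat_lit 283238) (nat_lit 43218880) (nat_lit 10261602) [(nat_lit 283238), (nat_lit 0), (nat_lit 0), (nat_lit 6672546)]) (PF.cons PF.nil (PF.cons PF.nil PF.nil)))) (PF.cons (PF.cons (PF.leaf (nat_lit 6327967) (nat_lit 1207439) (nat_lit 42402081) (nat_lit 10194064) [(nat_lit 0), (nat_lit 1207439), (nat_lit 0), (nat_lit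 6652613)]) (PF.cons PF.nil PF.nil)) (PF.cons PF.nil PF.nil))) (PF.cons (PF.cons (PF.cons (PF.leaf (nat_lit 6816909) (nat_lit 2969052) (nat_lit 40912795) (nat_lit 10045583) [(nat_lit 0), (nat_lit 0), (nat_lit 2969052), (nat_lit 6590690)]) (PF.cons PF.nil PF.nil)) PF.nil) PF.nil)) (PF.cons PF.nil (PF.cons PF.nil (PF.cons PF.nil PF.nil))))))

def p15_7_1_0 : pfC (piC [(nat_lit 43428061), (nat_lit 27806210), (nat_lit 20479430), (nat_lit 13783263)] (nat_lit 10051221)) p15_7_1 (nat_lit 4) (nat_lit 0) (nat_lit 1) = true := by decide +kernel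
def p15_7_1_1 : pfC (piC [(nat_lit 43428061), (nat_lit 27806210), (nat_lit 20479430), (nat_lit 13783263)] (nat_lit 10051221)) p15_7_1 (nat_lit 4) (nat_lit 1) (nat_lit 2) = true := by decide +kernel
def p15_7_1_2 : pfC (piC [(nat_lit 43428061), (nat_lit 27806210), (nat_lit 20479430), (nat_lit 13783263)] (nat_lit 10051221)) p15_7_1 (nat_lit 4) (nat_lit 2) (nat_lit 3) = true := by decide +kernel
def p15_7_1_3 : pfC (piC [(nat_lit 43428061), (nat_lit 27806210), (nat_lit 20479430), (nat_lit 13783263)] (nat_lit 10051221)) p15_7_1 (nat_lit 4) (nat_lit 3) (nat_lit 4) = true := by decide +kernel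
def p15_7_1_4 : pfC (piC [(nat_lit 43428061), (nat_lit 27806210), (nat_lit 20479430), (nat_lit 13783263)] (nat_lit 10051221)) p15_7_1 (nat_lit 4) (nat_lit 4) (nat_lit 5) = true := by decide +kernel
def p15_7_1_5 : pfC (piC [(nat_lit 43428061), (nat_lit 27806210), (nat_lit 20479430), (nat_lit 13783263)] (nat_lit 10051221)) p15_7_1 (nat_lit 4) (nat_lit 5) (nat_lit 6) = true := by decide +kernel
def p15_7_1_6 : pfC (piC [(nat_lit 43428061), (nat_lit 27806210), (nat_lit 20479430), (nat_lit 13783263)] (nat_lit 10051221)) p15_7_1 (nat_lit 4) (nat_lit 6) (nat_lit 7) = true := by decide +kernel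
def p15_7_1_7 : pfC (piC [(nat_lit 43428061), (nat_lit 27806210), (nat_lit 20479430), (nat_lit 13783263)] (nat_lit 10051221)) p15_7_1 (nat_lit 4) (nat_lit 7) (nat_lit 8) = true := by decide +kernel
def p15_7_1_8 : pfC (piC [(nat_lit 43428061), (nat_lit 27806210), (nat_lit 20479430), (nat_lit 13783263)] (nat_lit 10051221)) p15_7_1 (nat_lit 4) (nat_lit 8) (nat_lit 9) = true := by decide +kernel
def p15_7_1_9 : pfC (piC [(nat_lit 43428061), (nat_lit 27806210), (nat_lit 20479430), (nat_lit 13783263)] (nat_lit 10051221)) p15_7_1 (nat_lit 4) (nat_lit 9) (nat_lit 10) = true := by decide +kernel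
def p15_7_1_10 : pfC (piC [(nat_lit 43428061), (nat_lit 27806210), (nat_lit 20479430), (nat_lit 13783263)] (nat_lit 10051221)) p15_7_1 (nat_lit 4) (nat_lit 10) (nat_lit 11) = true := by decide +kernel
def p15_7_1_11 : pfC (piC [(nat_lit 43428061), (nat_lit 27806210), (nat_lit 20479430), (nat_lit 13783263)] (nat_lit 10051221)) p15_7_1 (nat_lit 4) (nat_lit 11) (nat_lit 12) = true := by decide +kernel
def p15_7_1_12 : pfC (piC [(nat_lit 43428061), (nat_lit 27806210), (nat_lit 20479430), (nat_lit 13783263)] (nat_lit 10051221)) p15_7_1 (nat_lit 4) (nat_lit 12) (nat_lit 13) = true := by decide +kernel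
def p15_7_1_13 : pfC (piC [(nat_lit 43428061), (nat_lit 27806210), (nat_lit 20479430), (nat_lit 13783263)] (nat_lit 10051221)) p15_7_1 (nat_lit 4) (nat_lit 13) (nat_lit 14) = true := by decide +kernel
def p15_7_1_14 : pfC (piC [(nat_lit 43428061), (nat_lit 27806210), (nat_lit 20479430), (nat_lit 13783263)] (nat_lit 10051221)) p15_7_1 (nat_lit 4) (nat_lit 14) (nat_lit 15) = true := by decide +kernel
def p15_7_1_15 : pfC (piC [(nat_lit 43428061), (nat_lit 27806210), (nat_lit 20479430), (nat_lit 13783263)] (nat_lit 10051221)) p15_7_1 (nat_lit 4) (nat_lit 15) (nat_lit 16) = true := by decide +kernel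
def p15_7_1_16 : pfC (piC [(nat_lit 43428061), (nat_lit 27806210), (nat_lit 20479430), (nat_lit 13783263)] (nat_lit 10051221)) p15_7_1 (nat_lit 4) (nat_lit 16) (nat_lit 17) = true := by decide +kernel
def p15_7_1_17 : pfC (piC [(nat_lit 43428061), (nat_lit 27806210), (nat_lit 20479430), (nat_lit 13783263)] (nat_lit 10051221)) p15_7_1 (nat_lit 4) (nat_lit 17) (nat_lit 18) = true := by decide +kernel
def p15_7_1_18 : pfC (piC [(nat_lit 43428061), (nat_lit 27806210), (nat_lit 20479430), (nat_lit 13783263)] (nat_lit 10051221)) p15_7_1 (nat_lit 4) (nat_lit 18) (nat_lit 19) = true := by decide +kernel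
def p15_7_1_19 : pfC (piC [(nat_lit 43428061), (nat_lit 27806210), (nat_lit 20479430), (nat_lit 13783263)] (nat_lit 10051221)) p15_7_1 (nat_lit 4) (nat_lit 19) (nat_lit 20) = true := by decide +kernel
def p15_7_1_20 : pfC (piC [(nat_lit 43428061), (nat_lit 27806210), (nat_lit 20479430), (nat_lit 13783263)] (nat_lit 10051221)) p15_7_1 (nat_lit 4) (nat_lit 20) (nat_lit 21) = true := by decide +kernel
def p15_7_1_21 : pfC (piC [(nat_lit 43428061), (nat_lit 27806210), (nat_lit 20479430), (nat_lit 13783263)] (nat_lit 10051221)) p15_7_1 (nat_lit 4) (nat_lit 21) (nat_lit 22) = true := by decide +kernel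
def p15_7_1_22 : pfC (piC [(nat_lit 43428061), (nat_lit 27806210), (nat_lit 20479430), (nat_lit 13783263)] (nat_lit 10051221)) p15_7_1 (nat_lit 4) (nat_lit 22) (nat_lit 23) = true := by decide +kernel
def p15_7_1_23 : pfC (piC [(nat_lit 43428061), (nat_lit 27806210), (nat_lit 20479430), (nat_lit 13783263)] (nat_lit 10051221)) p15_7_1 (nat_lit 4) (nat_lit 23) (nat_lit 24) = true := by decide +kernel
def p15_7_1_24 : pfC (piC [(nat_lit 43428061), (nat_lit 27806210), (nat_lit 20479430), (nat_lit 13783263)] (nat_lit 10051221)) p15_7_1 (nat_lit 4) (nat_lit 24) (nat_lit 25) = true := by decide +kernel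
def p15_7_1_25 : pfC (piC [(nat_lit 43428061), (nat_lit 27806210), (nat_lit 20479430), (nat_lit 13783263)] (nat_lit 10051221)) p15_7_1 (nat_lit 4) (nat_lit 25) (nat_lit 26) = true := by decide +kernel
def p15_7_1_26 : pfC (piC [(nat_lit 43428061), (nat_lit 27806210), (nat_lit 20479430), (nat_lit 13783263)] (nat_lit 10051221)) p15_7_1 (nat_lit 4) (nat_lit 26) (nat_lit 27) = true := by decide +kernel
def p15_7_1_27 : pfC (piC [(nat_lit 43428061), (nat_lit 27806210), (nat_lit 20479430), (nat_lit 13783263)] (nat_lit 10051221)) p15_7_1 (nat_lit 4) (nat_lit 27) (nat_lit 28) = true := by decide +kernel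
def p15_7_1_28 : pfC (piC [(nat_lit 43428061), (nat_lit 27806210), (nat_lit 20479430), (nat_lit 13783263)] (nat_lit 10051221)) p15_7_1 (nat_lit 4) (nat_lit 28) (nat_lit 29) = true := by decide +kernel
def p15_7_1_29 : pfC (piC [(nat_lit 43428061), (nat_lit 27806210), (nat_lit 20479430), (nat_lit 13783263)] (nat_lit 10051221)) p15_7_1 (nat_lit 4) (nat_lit 29) (nat_lit 30) = true := by decide +kernel
def p15_7_1_30 : pfC (piC [(nat_lit 43428061), (nat_lit 27806210), (nat_lit 20479430), (nat_lit 13783263)] (nat_lit 10051221)) p15_7_1 (nat_lit 4) (nat_lit 30) (nat_lit 31) = true := by decide +kernel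
theorem p15_7_1_T : PfS (PiF n15_7.reverse (nat_lit 10051221)) p15_7_1 (nat_lit 4) [] 0 :=
  pftab_of (los := [(nat_lit 43428061), (nat_lit 27806210), (nat_lit 20479430), (nat_lit 13783263)]) (by decide +kernel) (hi := (nat_lit 31)) (PfP.trans (PfP.trans (PfP.trans (PfP.trans (PfP.trans (PfP.trans (PfP.trans (PfP.trans (PfP.trans (PfP.trans (PfP.trans (PfP.trans (PfP.trans (PfP.trans (PfP.trans (PfP.trans (PfP.trans (PfP.trans (PfP.trans (PfP.trans (PfP.trans (PfP.trans (PfP.trans (PfP.trans (PfP.trans (PfP.trans (PfP.trans (PfP.trans (PfP.trans (PfP.trans (pfC_sound p15_7_1_0) (pfC_sound p15_7_1_1)) (pfC_sound p15_7_1_2)) (pfC_sound p15_7_1_3)) (pfC_sound p15_7_1_4)) (pfC_sound p15_7_1_5)) (pfC_sound p15_7_1_6)) (pfC_sound p15_7_1_7)) (pfC_sound p15_7_1_8)) (pfC_sound p15_7_1_9)) (pfC_sound p15_7_1_10)) (pfC_sound p15_7_1_11)) (pfC_sound p15_7_1_12)) (pfC_sound p15_7_1_13)) (pfC_sound p15_7_1_14)) (pfC_sound p15_7_1_15)) (pfC_sound p15_7_1_16)) (pfC_sound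 p15_7_1_17)) (pfC_sound p15_7_1_18)) (pfC_sound p15_7_1_19)) (pfC_sound p15_7_1_20)) (pfC_sound p15_7_1_21)) (pfC_sound p15_7_1_22)) (pfC_sound p15_7_1_23)) (pfC_sound p15_7_1_24)) (pfC_sound p15_7_1_25)) (pfC_sound p15_7_1_26)) (pfC_sound p15_7_1_27)) (pfC_sound p15_7_1_28)) (pfC_sound p15_7_1_29)) (pfC_sound p15_7_1_30)) (by decide +kernel)

def z15_7_1 : zOK yB15_7 (nat_lit 1) (nat_lit 400) (nat_lit 600) (nat_lit 10051221) (nat_lit 6500878) = true := by decide +kernel
def g15_7_1 : gOK yB15_7.x P15_7 (nat_lit 1427) (q15_7 :: r15_7) (nat_lit 1) (nat_lit 400) (nat_lit 2) (nat_lit 600) (nat_lit 11000000) (nat_lit 17850000) (nat_lit 12712500) (nat_lit 12712500) [(nat_lit 800), (nat_lit 1040)] = true := by decide +kernel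
def v15_7_1 : ivC P15_7 s15_7 w15_7 n15_7 (nat_lit 4) (nat_lit 5130) (nat_lit 1) (nat_lit 400) f128_1_400 f136_1_400 (nat_lit 2) (nat_lit 600) f128_1_600 f136_1_600 (nat_lit 10051221) (nat_lit 6500878) p15_7_1 = true := by decide +kernel
def p15_7_2 : PF := (PF.cons (PF.cons (PF.cons (PF.cons (PF.leaf (nat_lit 2809138) (nat_lit 16746255) (nat_lit 50362557) (nat_lit 16746255) [(nat_lit 0), (nat_lit 0), (nat_lit 0), (nat_lit 0)]) (PF.cons (PF.leaf (nat_lit 2911887) (nat_lit 170246) (nat_lit 50206621) (nat_lit 16731944) [(nat_lit 170246), (nat_lit 0), (nat_lit 0), (nat_lit 0)]) (PF.cons (PF.leaf (nat_lit 3037216) (nat_lit 185213) (nat_lit 50023687) (nat_lit 16714697) [(nat_lit 185213), (nat_lit 0), (nat_lit 0), (nat_lit 0)]) (PF.cons (PF.leaf (nat_lit 3178024) (nat_lit 198546) (nat_lit 49818404) (nat_lit 16694768) [(nat_lit 198546), (nat_lit 0), (nat_lit 0), (nat_lit 0)]) (PF.cons (PF.leaf (nat_lit 3332096) (nat_lit 210624) (nat_lit 49594015) (nat_lit 16672299)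 [(nat_lit 210624), (nat_lit 0), (nat_lit 0), (nat_lit 0)]) (PF.cons (PF.leaf (nat_lit 3498209) (nat_lit 221689) (nat_lit 49352983) (nat_lit 16647382) [(nat_lit 221689), (nat_lit 0), (nat_lit 0), (nat_lit 0)]) (PF.cons PF.nil PF.nil))))))) (PF.cons (PF.cons (PF.leaf (nat_lit 3238569) (nat_lit 950873) (nat_lit 49497861) (nat_lit 16660077) [(nat_lit 0), (nat_lit 950873), (nat_lit 0), (nat_lit 0)]) (PF.cons (PF.leaf (nat_lit 3376024) (nat_lit 208743) (nat_lit 49290174) (nat_lit
 16638331) [(nat_lit 208743), (nat_lit 971564), (nat_lit 0), (nat_lit 0)]) (PF.cons (PF.leaf (nat_lit 3530055) (nat_lit 220269) (nat_lit 49062314) (nat_lit 16613797) [(nat_lit 220269), (nat_lit 992162), (nat_lit 0), (nat_lit 0)]) (PF.cons (PF.leaf (nat_lit 3696525) (nat_lit 230780) (nat_lit 48817484) (nat_lit 16586660) [(nat_lit 230780), (nat_lit 1012326), (nat_lit 0), (nat_lit 0)]) (PF.cons PF.nil PF.nil))))) (PF.cons (PF.cons (PF.leaf (nat_lit 3733409) (nat_lit 1022577) (nat_lit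 48514200) (nat_lit 16549456) [(nat_lit 0), (nat_lit 1022577), (nat_lit 0), (nat_lit 0)]) (PF.cons (PF.leaf (nat_lit 3897030) (nat_lit 238649) (nat_lit 48268802) (nat_lit 16520450) [(nat_lit 238649), (nat_lit 1040455), (nat_lit 0), (nat_lit 0)]) (PF.cons (PF.leaf (nat_lit 4073632) (nat_lit 247964) (nat_lit 48008173) (nat_lit 16488799) [(nat_lit 247964), (nat_lit 1057955), (nat_lit 0), (nat_lit 0)]) (PF.cons PF.nil PF.nil)))) (PF.cons (PF.cons (PF.leaf (nat_lit 4276740) (nat_lit 1081555) (nat_lit 47448735) (nat_lit 16415412) [(nat_lit 0), (nat_lit 1081555), (nat_lit 0), (nat_lit 0)]) (PF.cons PF.nil PF.nil)) (PF.cons PF.nil PF.nil))))) (PF.cons (PF.cons (PF.cons (PF.leaf (nat_lit 3748158) (nat_lit 2710810)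
 (nat_lit 47933465) (nat_lit 16464536) [(nat_lit 0), (nat_lit 0), (nat_lit 2710810), (nat_lit 0)]) (PF.cons (PF.leaf (nat_lit 3893954) (nat_lit 226212) (nat_lit 47716227) (nat_lit 16437390) [(nat_lit 226212), (nat_lit 0), (nat_lit 2728982), (nat_lit 0)]) (PF.cons (PF.leaf (nat_lit 4055677) (nat_lit 237208) (nat_lit 47479612) (nat_lit 16407151) [(nat_lit 237208), (nat_lit 0), (nat_lit 2747631), (nat_lit 0)]) (PF.cons (PF.leaf (nat_lit 4229248) (nat_lit 247093) (nat_lit 47227080) (nat_lit 16374115) [(nat_lit 247093), (nat_lit 0), (nat_lit 2766338), (nat_lit 0)]) (PF.cons PF.nil PF.nil))))) (PF.cons (PF.cons (PF.leaf (nat_lit 4258574) (nat_lit 1072792) (nat_lit 46925261) (nat_lit 16331134) [(nat_lit 0), (nat_lit 1072792), (nat_lit 2779623), (nat_lit 0)]) (PF.cons (PF.leaf (nat_lit 4428359) (nat_lit 253347) (nat_lit 46674642) (nat_lit 16296643) [(nat_lit 253347), (nat_lit 1088041), (nat_lit 2796137), (nat_lit 0)]) (PF.cons PF.nil (PF.cons PF.nil PF.nil))))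 (PF.cons (PF.cons (PF.leaf (nat_lit 4810874) (nat_lit 1121666) (nat_lit 45852437) (nat_lit 16175788) [(nat_lit 0), (nat_lit 1121666), (nat_lit 2837254), (nat_lit 0)]) (PF.cons PF.nil PF.nil)) PF.nil))) (PF.cons (PF.cons (PF.cons
 (PF.leaf (nat_lit 4778493) (nat_lit 2832746) (nat_lit 45356272) (nat_lit 16087046) [(nat_lit 0), (nat_lit 0), (nat_lit 2832746), (nat_lit 0)]) (PF.cons (PF.leaf (nat_lit 4952814) (nat_lit 265296) (nat_lit 45104202) (nat_lit 16047889) [(nat_lit 265296), (nat_lit 0), (nat_lit 2845712), (nat_lit 0)]) (PF.cons PF.nil PF.nil))) (PF.cons (PF.cons (PF.leaf (nat_lit 5335408) (nat_lit 1152294) (nat_lit 44289701) (nat_lit 15914115) [(nat_lit 0), (nat_lit 1152294), (nat_lit 2876350), (nat_lit 0)]) PF.nil) PF.nil)) (PF.cons PF.nil (PF.cons PF.nil PF.nil))))) (PF.cons (PF.cons (PF.cons (PF.cons (PF.leaf (nat_lit 4478284) (nat_lit 6490581) (nat_lit 44697424) (nat_lit 15920807) [(nat_lit 0), (nat_lit 0), (nat_lit 0), (nat_lit 6490581)]) (PF.cons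 (PF.leaf (nat_lit 4625870) (nat_lit 235552) (nat_lit 44490390) (nat_lit 15888102) [(nat_lit 235552), (nat_lit 0), (nat_lit 0), (nat_lit 6494767)]) (PF.cons (PF.leaf (nat_lit 4788888) (nat_lit 246265) (nat_lit 44265588) (nat_lit 15852039) [(nat_lit 246265), (nat_lit 0), (nat_lit 0), (nat_lit 6498655)]) (PF.cons (PF.leaf (nat_lit 4962958) (nat_lit 255764) (nat_lit 44026403) (nat_lit 15813047) [(nat_lit 255764), (nat_lit 0), (nat_lit 0), (nat_lit 6502068)])
 (PF.cons PF.nil PF.nil))))) (PF.cons (PF.cons (PF.leaf (nat_lit 4984285) (nat_lit 1098503) (nat_lit 43745260) (nat_lit 15764110) [(nat_lit 0), (nat_lit 1098503), (nat_lit 0), (nat_lit 6500938)]) (PF.cons (PF.leaf (nat_lit 5153990) (nat_lit 260817) (nat_lit 43509233) (nat_lit 15724272) [(nat_lit 260817), (nat_lit 1111649), (nat_lit 0), (nat_lit 6502840)]) (PF.cons (PF.leaf (nat_lit 5335330) (nat_lit 269114) (nat_lit 43260489) (nat_lit 15681634) [(nat_lit 269114), (nat_lit 1124329), (nat_lit 0), (nat_lit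 6504131)]) (PF.cons PF.nil PF.nil)))) (PF.cons (PF.cons (PF.leaf (nat_lit 5526360) (nat_lit 1138797) (nat_lit 42742248) (nat_lit 15588386) [(nat_lit 0), (nat_lit 1138797), (nat_lit 0), (nat_lit 6500582)]) (PF.cons (PF.leaf (nat_lit 5712506) (nat_lit 280493) (nat_lit 42486676) (nat_lit 15542473) [(nat_lit 280493), (nat_lit 1149704), (nat_lit 0), (nat_lit 6499760)]) PF.nil)) (PF.cons PF.nil (PF.cons PF.nil PF.nil))))) (PF.cons (PF.cons (PF.cons (PF.leaf (nat_lit 5479516) (nat_lit 2838476) (nat_lit 42295233) (nat_lit 15495739) [(nat_lit 0), (nat_lit 0), (nat_lit 2838476), (nat_lit 6479364)]) (PF.cons (PF.leaf (nat_lit 5652261) (nat_lit 270195) (nat_lit 42060323) (nat_lit 15452600)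
 [(nat_lit 270195), (nat_lit 0), (nat_lit 2847698), (nat_lit 6477995)]) (PF.cons (PF.leaf (nat_lit 5836125) (nat_lit 277979) (nat_lit 41813592) (nat_lit 15406674) [(nat_lit 277979), (nat_lit 0), (nat_lit 2856660), (nat_lit 6475925)]) (PF.cons PF.nil PF.nil)))) (PF.cons (PF.cons (PF.leaf (nat_lit 6022798) (nat_lit 1159997) (nat_lit 41307197) (nat_lit 15308261) [(nat_lit 0), (nat_lit 1159997), (nat_lit 2867330), (nat_lit 6466025)]) (PF.cons PF.nil PF.nil)) (PF.cons PF.nil PF.nil))) (PF.cons (PF.cons (PF.cons (PF.leaf (nat_lit 6507179) (nat_lit 2875814) (nat_lit 39920726) (nat_lit 15019022) [(nat_lit 0), (nat_lit 0), (nat_lit 2875814), (nat_lit 6417435)]) (PF.cons PF.nil PF.nil)) (PF.cons PF.nil PF.nil)) PF.nil))) (PF.cons (PF.cons (PF.cons (PF.cons (PF.leaf (nat_lit 6127878) (nat_lit 6345965) (nat_lit 39524465) (nat_lit 14892417) [(nat_lit 0), (nat_lit 0), (nat_lit 0), (nat_lit 6345965)]) (PF.cons (PF.leaf (nat_lit 6298127) (nat_lit 272246) (nat_lit 39307289)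 (nat_lit 14847404) [(nat_lit 272246), (nat_lit 0), (nat_lit 0), (nat_lit 6340936)]) (PF.cons PF.nil PF.nil))) (PF.cons (PF.cons (PF.leaf (nat_lit 6655986) (nat_lit 1157480) (nat_lit 38615482) (nat_lit 14698930) [(nat_lit 0),
 (nat_lit 1157480), (nat_lit 0), (nat_lit 6318459)]) PF.nil) PF.nil)) (PF.cons PF.nil PF.nil)) (PF.cons PF.nil (PF.cons PF.nil (PF.cons PF.nil PF.nil))))))

def p15_7_2_0 : pfC (piC [(nat_lit 43428061), (nat_lit 27806210), (nat_lit 20479430), (nat_lit 13783263)] (nat_lit 6500878)) p15_7_2 (nat_lit 4) (nat_lit 0) (nat_lit 1) = true := by decide +kernel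
def p15_7_2_1 : pfC (piC [(nat_lit 43428061), (nat_lit 27806210), (nat_lit 20479430), (nat_lit 13783263)] (nat_lit 6500878)) p15_7_2 (nat_lit 4) (nat_lit 1) (nat_lit 2) = true := by decide +kernel
def p15_7_2_2 : pfC (piC [(nat_lit 43428061), (nat_lit 27806210), (nat_lit 20479430), (nat_lit 13783263)] (nat_lit 6500878)) p15_7_2 (nat_lit 4) (nat_lit 2) (nat_lit 3) = true := by decide +kernel
def p15_7_2_3 : pfC (piC [(nat_lit 43428061), (nat_lit 27806210), (nat_lit 20479430), (nat_lit 13783263)] (nat_lit 6500878)) p15_7_2 (nat_lit 4) (nat_lit 3) (nat_lit 4) = true := by decide +kernel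
def p15_7_2_4 : pfC (piC [(nat_lit 43428061), (nat_lit 27806210), (nat_lit 20479430), (nat_lit 13783263)] (nat_lit 6500878)) p15_7_2 (nat_lit 4) (nat_lit 4) (nat_lit 5) = true := by decide +kernel
def p15_7_2_5 : pfC (piC [(nat_lit 43428061), (nat_lit 27806210), (nat_lit 20479430), (nat_lit 13783263)] (nat_lit 6500878)) p15_7_2 (nat_lit 4) (nat_lit 5) (nat_lit 6) = true := by decide +kernel
def p15_7_2_6 : pfC (piC [(nat_lit 43428061), (nat_lit 27806210), (nat_lit 20479430), (nat_lit 13783263)] (nat_lit 6500878)) p15_7_2 (nat_lit 4) (nat_lit 6) (nat_lit 7) = true := by decide +kernel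
def p15_7_2_7 : pfC (piC [(nat_lit 43428061), (nat_lit 27806210), (nat_lit 20479430), (nat_lit 13783263)] (nat_lit 6500878)) p15_7_2 (nat_lit 4) (nat_lit 7) (nat_lit 8) = true := by decide +kernel
def p15_7_2_8 : pfC (piC [(nat_lit 43428061), (nat_lit 27806210), (nat_lit 20479430), (nat_lit 13783263)] (nat_lit 6500878)) p15_7_2 (nat_lit 4) (nat_lit 8) (nat_lit 9) = true := by decide +kernel
def p15_7_2_9 : pfC (piC [(nat_lit 43428061), (nat_lit 27806210), (nat_lit 20479430), (nat_lit 13783263)] (nat_lit 6500878)) p15_7_2 (nat_lit 4) (nat_lit 9) (nat_lit 10) = true := by decide +kernel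
def p15_7_2_10 : pfC (piC [(nat_lit 43428061), (nat_lit 27806210), (nat_lit 20479430), (nat_lit 13783263)] (nat_lit 6500878)) p15_7_2 (nat_lit 4) (nat_lit 10) (nat_lit 11) = true := by decide +kernel
def p15_7_2_11 : pfC (piC [(nat_lit 43428061), (nat_lit 27806210), (nat_lit 20479430), (nat_lit 13783263)] (nat_lit 6500878)) p15_7_2 (nat_lit 4) (nat_lit 11) (nat_lit 12) = true := by decide +kernel
def p15_7_2_12 : pfC (piC [(nat_lit 43428061), (nat_lit 27806210), (nat_lit 20479430), (nat_lit 13783263)] (nat_lit 6500878)) p15_7_2 (nat_lit 4) (nat_lit 12) (nat_lit 13) = true := by decide +kernel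
def p15_7_2_13 : pfC (piC [(nat_lit 43428061), (nat_lit 27806210), (nat_lit 20479430), (nat_lit 13783263)] (nat_lit 6500878)) p15_7_2 (nat_lit 4) (nat_lit 13) (nat_lit 14) = true := by decide +kernel
def p15_7_2_14 : pfC (piC [(nat_lit 43428061), (nat_lit 27806210), (nat_lit 20479430), (nat_lit 13783263)] (nat_lit 6500878)) p15_7_2 (nat_lit 4) (nat_lit 14) (nat_lit 15) = true := by decide +kernel
def p15_7_2_15 : pfC (piC [(nat_lit 43428061), (nat_lit 27806210), (nat_lit 20479430), (nat_lit 13783263)] (nat_lit 6500878)) p15_7_2 (nat_lit 4) (nat_lit 15) (nat_lit 16) = true := by decide +kernel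
def p15_7_2_16 : pfC (piC [(nat_lit 43428061), (nat_lit 27806210), (nat_lit 20479430), (nat_lit 13783263)] (nat_lit 6500878)) p15_7_2 (nat_lit 4) (nat_lit 16) (nat_lit 17) = true := by decide +kernel
def p15_7_2_17 : pfC (piC [(nat_lit 43428061), (nat_lit 27806210), (nat_lit 20479430), (nat_lit 13783263)] (nat_lit 6500878)) p15_7_2 (nat_lit 4) (nat_lit 17) (nat_lit 18) = true := by decide +kernel
def p15_7_2_18 : pfC (piC [(nat_lit 43428061), (nat_lit 27806210), (nat_lit 20479430), (nat_lit 13783263)] (nat_lit 6500878)) p15_7_2 (nat_lit 4) (nat_lit 18) (nat_lit 19) = true := by decide +kernel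
def p15_7_2_19 : pfC (piC [(nat_lit 43428061), (nat_lit 27806210), (nat_lit 20479430), (nat_lit 13783263)] (nat_lit 6500878)) p15_7_2 (nat_lit 4) (nat_lit 19) (nat_lit 20) = true := by decide +kernel
def p15_7_2_20 : pfC (piC [(nat_lit 43428061), (nat_lit 27806210), (nat_lit 20479430), (nat_lit 13783263)] (nat_lit 6500878)) p15_7_2 (nat_lit 4) (nat_lit 20) (nat_lit 21) = true := by decide +kernel
def p15_7_2_21 : pfC (piC [(nat_lit 43428061), (nat_lit 27806210), (nat_lit 20479430), (nat_lit 13783263)] (nat_lit 6500878)) p15_7_2 (nat_lit 4) (nat_lit 21) (nat_lit 22) = true := by decide +kernel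
def p15_7_2_22 : pfC (piC [(nat_lit 43428061), (nat_lit 27806210), (nat_lit 20479430), (nat_lit 13783263)] (nat_lit 6500878)) p15_7_2 (nat_lit 4) (nat_lit 22) (nat_lit 23) = true := by decide +kernel
def p15_7_2_23 : pfC (piC [(nat_lit 43428061), (nat_lit 27806210), (nat_lit 20479430), (nat_lit 13783263)] (nat_lit 6500878)) p15_7_2 (nat_lit 4) (nat_lit 23) (nat_lit 24) = true := by decide +kernel
def p15_7_2_24 : pfC (piC [(nat_lit 43428061), (nat_lit 27806210), (nat_lit 20479430), (nat_lit 13783263)] (nat_lit 6500878)) p15_7_2 (nat_lit 4) (nat_lit 24) (nat_lit 25) = true := by decide +kernel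
def p15_7_2_25 : pfC (piC [(nat_lit 43428061), (nat_lit 27806210), (nat_lit 20479430), (nat_lit 13783263)] (nat_lit 6500878)) p15_7_2 (nat_lit 4) (nat_lit 25) (nat_lit 26) = true := by decide +kernel
def p15_7_2_26 : pfC (piC [(nat_lit 43428061), (nat_lit 27806210), (nat_lit 20479430), (nat_lit 13783263)] (nat_lit 6500878)) p15_7_2 (nat_lit 4) (nat_lit 26) (nat_lit 27) = true := by decide +kernel
def p15_7_2_27 : pfC (piC [(nat_lit 43428061), (nat_lit 27806210), (nat_lit 20479430), (nat_lit 13783263)] (nat_lit 6500878)) p15_7_2 (nat_lit 4) (nat_lit 27) (nat_lit 28) = true := by decide +kernel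
def p15_7_2_28 : pfC (piC [(nat_lit 43428061), (nat_lit 27806210), (nat_lit 20479430), (nat_lit 13783263)] (nat_lit 6500878)) p15_7_2 (nat_lit 4) (nat_lit 28) (nat_lit 29) = true := by decide +kernel
def p15_7_2_29 : pfC (piC [(nat_lit 43428061), (nat_lit 27806210), (nat_lit 20479430), (nat_lit 13783263)] (nat_lit 6500878)) p15_7_2 (nat_lit 4) (nat_lit 29) (nat_lit 30) = true := by decide +kernel
def p15_7_2_30 : pfC (piC [(nat_lit 43428061), (nat_lit 27806210), (nat_lit 20479430), (nat_lit 13783263)] (nat_lit 6500878)) p15_7_2 (nat_lit 4) (nat_lit 30) (nat_lit 31) = true := by decide +kernel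
def p15_7_2_31 : pfC (piC [(nat_lit 43428061), (nat_lit 27806210), (nat_lit 20479430), (nat_lit 13783263)] (nat_lit 6500878)) p15_7_2 (nat_lit 4) (nat_lit 31) (nat_lit 32) = true := by decide +kernel
def p15_7_2_32 : pfC (piC [(nat_lit 43428061), (nat_lit 27806210), (nat_lit 20479430), (nat_lit 13783263)] (nat_lit 6500878)) p15_7_2 (nat_lit 4) (nat_lit 32) (nat_lit 33) = true := by decide +kernel
def p15_7_2_33 : pfC (piC [(nat_lit 43428061), (nat_lit 27806210), (nat_lit 20479430), (nat_lit 13783263)] (nat_lit 6500878)) p15_7_2 (nat_lit 4) (nat_lit 33) (nat_lit 34) = true := by decide +kernel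
def p15_7_2_34 : pfC (piC [(nat_lit 43428061), (nat_lit 27806210), (nat_lit 20479430), (nat_lit 13783263)] (nat_lit 6500878)) p15_7_2 (nat_lit 4) (nat_lit 34) (nat_lit 35) = true := by decide +kernel
def p15_7_2_35 : pfC (piC [(nat_lit 43428061), (nat_lit 27806210), (nat_lit 20479430), (nat_lit 13783263)] (nat_lit 6500878)) p15_7_2 (nat_lit 4) (nat_lit 35) (nat_lit 36) = true := by decide +kernel
def p15_7_2_36 : pfC (piC [(nat_lit 43428061), (nat_lit 27806210), (nat_lit 20479430), (nat_lit 13783263)] (nat_lit 6500878)) p15_7_2 (nat_lit 4) (nat_lit 36) (nat_lit 37) = true := by decide +kernel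
def p15_7_2_37 : pfC (piC [(nat_lit 43428061), (nat_lit 27806210), (nat_lit 20479430), (nat_lit 13783263)] (nat_lit 6500878)) p15_7_2 (nat_lit 4) (nat_lit 37) (nat_lit 38) = true := by decide +kernel
def p15_7_2_38 : pfC (piC [(nat_lit 43428061), (nat_lit 27806210), (nat_lit 20479430), (nat_lit 13783263)] (nat_lit 6500878)) p15_7_2 (nat_lit 4) (nat_lit 38) (nat_lit 39) = true := by decide +kernel
def p15_7_2_39 : pfC (piC [(nat_lit 43428061), (nat_lit 27806210), (nat_lit 20479430), (nat_lit 13783263)] (nat_lit 6500878)) p15_7_2 (nat_lit 4) (nat_lit 39) (nat_lit 40) = true := by decide +kernel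
def p15_7_2_40 : pfC (piC [(nat_lit 43428061), (nat_lit 27806210), (nat_lit 20479430), (nat_lit 13783263)] (nat_lit 6500878)) p15_7_2 (nat_lit 4) (nat_lit 40) (nat_lit 41) = true := by decide +kernel
theorem p15_7_2_T : PfS (PiF n15_7.reverse (nat_lit 6500878)) p15_7_2 (nat_lit 4) [] 0 :=
  pftab_of (los := [(nat_lit 43428061), (nat_lit 27806210), (nat_lit 20479430), (nat_lit 13783263)]) (by decide +kernel) (hi := (nat_lit 41)) (PfP.trans (PfP.trans (PfP.trans (PfP.trans (PfP.trans (PfP.trans (PfP.trans (PfP.trans (PfP.trans (PfP.trans (PfP.trans (PfP.trans (PfP.trans (PfP.trans (PfP.trans (PfP.trans (PfP.trans (PfP.trans (PfP.trans (PfP.trans (PfP.trans (PfP.trans (PfP.trans (PfP.trans (PfP.trans (PfP.trans (PfP.trans (PfP.trans (PfP.trans (PfP.trans (PfP.trans (PfP.trans (PfP.trans (PfP.trans (PfP.trans (PfP.trans (PfP.trans (PfP.trans (PfP.trans (PfP.trans (pfC_sound p15_7_2_0) (pfC_sound p15_7_2_1)) (pfC_sound p15_7_2_2)) (pfC_sound p15_7_2_3)) (pfC_sound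 p15_7_2_4)) (pfC_sound p15_7_2_5)) (pfC_sound p15_7_2_6)) (pfC_sound p15_7_2_7)) (pfC_sound p15_7_2_8)) (pfC_sound p15_7_2_9)) (pfC_sound p15_7_2_10)) (pfC_sound p15_7_2_11)) (pfC_sound p15_7_2_12)) (pfC_sound p15_7_2_13)) (pfC_sound p15_7_2_14)) (pfC_sound p15_7_2_15)) (pfC_sound p15_7_2_16)) (pfC_sound p15_7_2_17)) (pfC_sound p15_7_2_18)) (pfC_sound p15_7_2_19)) (pfC_sound p15_7_2_20)) (pfC_sound p15_7_2_21)) (pfC_sound p15_7_2_22)) (pfC_sound p15_7_2_23)) (pfC_sound p15_7_2_24)) (pfC_sound p15_7_2_25)) (pfC_sound p15_7_2_26)) (pfC_sound p15_7_2_27)) (pfC_sound p15_7_2_28)) (pfC_sound p15_7_2_29)) (pfC_sound p15_7_2_30)) (pfC_sound p15_7_2_31))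
 (pfC_sound p15_7_2_32)) (pfC_sound p15_7_2_33)) (pfC_sound p15_7_2_34)) (pfC_sound p15_7_2_35)) (pfC_sound p15_7_2_36)) (pfC_sound p15_7_2_37)) (pfC_sound p15_7_2_38)) (pfC_sound p15_7_2_39)) (pfC_sound p15_7_2_40)) (by decide +kernel)

def z15_7_2 : zOK yB15_7 (nat_lit 2) (nat_lit 600) (nat_lit 750) (nat_lit 6500878) (nat_lit 4509858) = true := by decide +kernel
def g15_7_2 : gOK yB15_7.x P15_7 (nat_lit 1427) (q15_7 :: r15_7) (nat_lit 2) (nat_lit 600) (nat_lit 3) (nat_lit 750) (nat_lit 12712500) (nat_lit 12712500) (nat_lit 12712500) (nat_lit 12712500) [(nat_lit 800), (nat_lit 1600)] = true := by decide +kernel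
def v15_7_2 : ivC P15_7 s15_7 w15_7 n15_7 (nat_lit 4) (nat_lit 4930) (nat_lit 2) (nat_lit 600) f128_1_600 f136_1_600 (nat_lit 3) (nat_lit 750) f128_1_750 f136_1_750 (nat_lit 6500878) (nat_lit 4509858) p15_7_2 = true := by decide +kernel
def p15_7_3 : PF := (PF.cons (PF.cons (PF.cons (PF.cons (PF.leaf (nat_lit 3180672) (nat_lit 22332917) (nat_lit 44775895) (nat_lit 22332917) [(nat_lit 0), (nat_lit 0), (nat_lit 0), (nat_lit 0)]) (PF.cons (PF.leaf (nat_lit 3277525) (nat_lit 162549) (nat_lit 44649450) (nat_lit 22296812) [(nat_lit 162549), (nat_lit 0), (nat_lit 0), (nat_lit 0)]) (PF.cons (PF.leaf (nat_lit 3396369) (nat_lit 176770) (nat_lit 44501099) (nat_lit 22254173) [(nat_lit 176770), (nat_lit 0), (nat_lit 0), (nat_lit 0)]) (PF.cons (PF.leaf (nat_lit 3529766) (nat_lit 189414) (nat_lit 44334601) (nat_lit 22205967) [(nat_lit 189414), (nat_lit 0), (nat_lit 0), (nat_lit 0)]) (PF.cons (PF.leaf (nat_lit 3675606) (nat_lit 200847) (nat_lit 44152576) (nat_lit 22152845)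 [(nat_lit 200847), (nat_lit 0), (nat_lit 0), (nat_lit 0)]) (PF.cons (PF.leaf (nat_lit 3832612) (nat_lit 211302) (nat_lit 43957011) (nat_lit 22095289) [(nat_lit 211302), (nat_lit 0), (nat_lit 0), (nat_lit 0)]) (PF.cons (PF.leaf (nat_lit 3999593) (nat_lit 220939) (nat_lit 43749501) (nat_lit 22033676) [(nat_lit 220939), (nat_lit 0), (nat_lit 0), (nat_lit 0)]) (PF.cons PF.nil (PF.cons PF.nil PF.nil))))))))) (PF.cons (PF.cons (PF.leaf (nat_lit 3585806) (nat_lit 905313) (nat_lit
 44074906) (nat_lit 22128592) [(nat_lit 0), (nat_lit 905313), (nat_lit 0), (nat_lit 0)]) (PF.cons (PF.leaf (nat_lit 3715529) (nat_lit 198927) (nat_lit 43906390) (nat_lit 22078824) [(nat_lit 198927), (nat_lit 924670), (nat_lit 0), (nat_lit 0)]) (PF.cons (PF.leaf (nat_lit 3861182) (nat_lit 209826) (nat_lit 43721465) (nat_lit 22023790) [(nat_lit 209826), (nat_lit 943903), (nat_lit 0), (nat_lit 0)]) (PF.cons (PF.leaf (nat_lit 4018388) (nat_lit 219747) (nat_lit 43522719) (nat_lit 21964158)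 [(nat_lit 219747), (nat_lit 962692), (nat_lit 0), (nat_lit 0)]) (PF.cons (PF.leaf (nat_lit 4185724) (nat_lit 228871) (nat_lit 43312053) (nat_lit 21900407) [(nat_lit 228871), (nat_lit 980867), (nat_lit 0), (nat_lit 0)]) (PF.cons (PF.leaf (nat_lit 4362071) (nat_lit 237320) (nat_lit 43090962) (nat_lit 21832905) [(nat_lit 237320), (nat_lit 998339), (nat_lit 0), (nat_lit 0)]) (PF.cons PF.nil PF.nil))))))) (PF.cons (PF.cons (PF.leaf (nat_lit 4051927) (nat_lit 971934) (nat_lit 43276798) (nat_lit 21888146) [(nat_lit 0), (nat_lit 971934), (nat_lit 0), (nat_lit 0)]) (PF.cons (PF.leaf (nat_lit 4206116) (nat_lit 227029) (nat_lit 43077464) (nat_lit 21827200) [(nat_lit 227029), (nat_lit 988559), (nat_lit 0),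
 (nat_lit 0)]) (PF.cons (PF.leaf (nat_lit 4372845) (nat_lit 235800) (nat_lit 42865687) (nat_lit 21761913) [(nat_lit 235800), (nat_lit 1004805), (nat_lit 0), (nat_lit 0)]) (PF.cons (PF.leaf (nat_lit 4548837) (nat_lit 243886) (nat_lit 42643314) (nat_lit 21692769) [(nat_lit 243886), (nat_lit 1020534), (nat_lit 0), (nat_lit 0)]) (PF.cons PF.nil PF.nil))))) (PF.cons (PF.cons (PF.leaf (nat_lit 4563125) (nat_lit 1026415) (nat_lit 42411204) (nat_lit 21618363) [(nat_lit 0), (nat_lit 1026415), (nat_lit 0), (nat_lit 0)]) (PF.cons (PF.leaf (nat_lit 4736325) (nat_lit 249652) (nat_lit 42189291) (nat_lit 21548126) [(nat_lit 249652), (nat_lit 1040580), (nat_lit 0), (nat_lit 0)]) (PF.cons (PF.leaf (nat_lit 4919566) (nat_lit 256884) (nat_lit 41957910) (nat_lit 21474270) [(nat_lit 256884), (nat_lit 1054287), (nat_lit 0), (nat_lit 0)]) (PF.cons PF.nil PF.nil)))) (PF.cons (PF.cons (PF.leaf (nat_lit 5107855) (nat_lit 1071158) (nat_lit 41499669) (nat_lit 21324511) [(nat_lit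 0), (nat_lit 1071158), (nat_lit 0), (nat_lit 0)]) (PF.cons PF.nil PF.nil)) (PF.cons PF.nil PF.nil)))))) (PF.cons (PF.cons (PF.cons (PF.leaf (nat_lit 4061868) (nat_lit 2567190) (nat_lit 42807170) (nat_lit 21734451) [(nat_lit 0),
 (nat_lit 0), (nat_lit 2567190), (nat_lit 0)]) (PF.cons (PF.leaf (nat_lit 4199315) (nat_lit 215038) (nat_lit 42630556) (nat_lit 21679497) [(nat_lit 215038), (nat_lit 0), (nat_lit 2583721), (nat_lit 0)]) (PF.cons (PF.leaf (nat_lit 4352034) (nat_lit 225419) (nat_lit 42438123) (nat_lit 21619190) [(nat_lit 225419), (nat_lit 0), (nat_lit 2600660), (nat_lit 0)]) (PF.cons (PF.leaf (nat_lit 4515776) (nat_lit 234734) (nat_lit 42232668) (nat_lit 21554311) [(nat_lit 234734), (nat_lit 0), (nat_lit 2617627), (nat_lit 0)]) (PF.cons (PF.leaf (nat_lit 4689039) (nat_lit 243205) (nat_lit 42016209) (nat_lit 21485415) [(nat_lit 243205), (nat_lit 0), (nat_lit 2634365), (nat_lit 0)]) (PF.cons PF.nil (PF.cons PF.nil PF.nil))))))) (PF.cons (PF.cons (PF.leaf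 (nat_lit 4542240) (nat_lit 1017494) (nat_lit 41987351) (nat_lit 21474638) [(nat_lit 0), (nat_lit 1017494), (nat_lit 2629328), (nat_lit 0)]) (PF.cons (PF.leaf (nat_lit 4702259) (nat_lit 240509) (nat_lit 41783266) (nat_lit 21409087) [(nat_lit 240509), (nat_lit 1031667), (nat_lit 2644283), (nat_lit 0)]) (PF.cons (PF.leaf (nat_lit 4874062) (nat_lit 248725) (nat_lit 41567519) (nat_lit 21339261) [(nat_lit 248725), (nat_lit 1045460), (nat_lit 2659120),
 (nat_lit 0)]) (PF.cons (PF.leaf (nat_lit 5054566) (nat_lit 256223) (nat_lit 41342028) (nat_lit 21265706) [(nat_lit 256223), (nat_lit 1058767), (nat_lit 2673640), (nat_lit 0)]) (PF.cons PF.nil PF.nil))))) (PF.cons (PF.cons (PF.leaf (nat_lit 5061786) (nat_lit 1062641) (nat_lit 41113414) (nat_lit 21188953) [(nat_lit 0), (nat_lit 1062641), (nat_lit 2681162), (nat_lit 0)]) (PF.cons (PF.leaf (nat_lit 5238912) (nat_lit 260797) (nat_lit 40889849) (nat_lit 21114852) [(nat_lit 260797), (nat_lit 1074662), (nat_lit 2693987),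 (nat_lit 0)]) (PF.cons PF.nil (PF.cons PF.nil PF.nil)))) (PF.cons (PF.cons (PF.leaf (nat_lit 5609846) (nat_lit 1099573) (nat_lit 40204573) (nat_lit 20882614) [(nat_lit 0), (nat_lit 1099573), (nat_lit 2722904), (nat_lit 0)]) (PF.cons PF.nil PF.nil)) (PF.cons PF.nil PF.nil))))) (PF.cons (PF.cons (PF.cons (PF.leaf (nat_lit 5028116) (nat_lit 2676016) (nat_lit 40710402) (nat_lit 21046376) [(nat_lit 0), (nat_lit 0), (nat_lit 2676016), (nat_lit 0)]) (PF.cons (PF.leaf (nat_lit 5192316) (nat_lit 251477) (nat_lit 40504486) (nat_lit 20977267) [(nat_lit 251477), (nat_lit 0), (nat_lit 2687790), (nat_lit 0)]) (PF.cons (PF.leaf (nat_lit 5367798) (nat_lit 259199) (nat_lit 40287647)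
 (nat_lit 20903980) [(nat_lit 259199), (nat_lit 0), (nat_lit 2699392), (nat_lit 0)]) (PF.cons PF.nil PF.nil)))) (PF.cons (PF.cons (PF.leaf (nat_lit 5552279) (nat_lit 1090371) (nat_lit 39838665) (nat_lit 20749031) [(nat_lit 0), (nat_lit 1090371), (nat_lit 2715372), (nat_lit 0)]) (PF.cons (PF.leaf (nat_lit 5732115) (nat_lit 269776) (nat_lit 39615861) (nat_lit 20672079) [(nat_lit 269776), (nat_lit 1100610), (nat_lit 2725242), (nat_lit 0)]) PF.nil)) (PF.cons PF.nil PF.nil))) (PF.cons (PF.cons (PF.cons (PF.leaf (nat_lit 6033135) (nat_lit 2736770) (nat_lit 38595130) (nat_lit 20303370) [(nat_lit 0), (nat_lit 0), (nat_lit 2736770), (nat_lit 0)]) (PF.cons (PF.leaf (nat_lit 6214630) (nat_lit 276964) (nat_lit 38374879) (nat_lit 20224441) [(nat_lit 276964), (nat_lit 0), (nat_lit 2744175), (nat_lit 0)]) PF.nil)) (PF.cons PF.nil PF.nil)) (PF.cons PF.nil PF.nil))))) (PF.cons (PF.cons (PF.cons (PF.cons (PF.leaf (nat_lit 4739080) (nat_lit 6099019) (nat_lit 40181616)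 (nat_lit 20828176) [(nat_lit 0), (nat_lit 0), (nat_lit 0), (nat_lit 6099019)]) (PF.cons (PF.leaf (nat_lit 4878308) (nat_lit 223352) (nat_lit 40012105) (nat_lit 20770814) [(nat_lit 223352), (nat_lit 0), (nat_lit 0), (nat_lit 6102540)])
 (PF.cons (PF.leaf (nat_lit 5032249) (nat_lit 233469) (nat_lit 39827957) (nat_lit 20708132) [(nat_lit 233469), (nat_lit 0), (nat_lit 0), (nat_lit 6105784)]) (PF.cons (PF.leaf (nat_lit 5196715) (nat_lit 242432) (nat_lit 39631924) (nat_lit 20640989) [(nat_lit 242432), (nat_lit 0), (nat_lit 0), (nat_lit 6108601)]) (PF.cons (PF.leaf (nat_lit 5370145) (nat_lit 250487) (nat_lit 39425986) (nat_lit 20569994) [(nat_lit 250487), (nat_lit 0), (nat_lit 0), (nat_lit 6110881)]) (PF.cons PF.nil (PF.cons PF.nil PF.nil))))))) (PF.cons (PF.cons (PF.leaf (nat_lit 5216172) (nat_lit 1039846) (nat_lit 39401668) (nat_lit 20560126) [(nat_lit 0), (nat_lit 1039846), (nat_lit 0), (nat_lit 6107172)]) (PF.cons (PF.leaf (nat_lit 5376332) (nat_lit 247133)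 (nat_lit 39207983) (nat_lit 20492869) [(nat_lit 247133), (nat_lit 1052147), (nat_lit 0), (nat_lit 6108678)]) (PF.cons (PF.leaf (nat_lit 5547649) (nat_lit 254957) (nat_lit 39003741) (nat_lit 20421504) [(nat_lit 254957), (nat_lit 1064005), (nat_lit 0), (nat_lit 6109645)]) (PF.cons (PF.leaf (nat_lit 5727038) (nat_lit 262020) (nat_lit 38790794) (nat_lit 20346617) [(nat_lit 262020), (nat_lit 1075343), (nat_lit 0), (nat_lit 6109995)]) (PF.cons PF.nil PF.nil)))))
 (PF.cons (PF.cons (PF.leaf (nat_lit 5727415) (nat_lit 1077418) (nat_lit 38578105) (nat_lit 20269872) [(nat_lit 0), (nat_lit 1077418), (nat_lit 0), (nat_lit 6105998)]) (PF.cons (PF.leaf (nat_lit 5903085) (nat_lit 265632) (nat_lit 38367839) (nat_lit 20194965) [(nat_lit 265632), (nat_lit 1087621), (nat_lit 0), (nat_lit 6105132)]) (PF.cons PF.nil (PF.cons PF.nil PF.nil)))) (PF.cons (PF.cons (PF.leaf (nat_lit 6262794) (nat_lit 1107455) (nat_lit 37728253) (nat_lit 19962784) [(nat_lit 0), (nat_lit 1107455),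 (nat_lit 0), (nat_lit 6095407)]) (PF.cons PF.nil PF.nil)) (PF.cons PF.nil PF.nil))))) (PF.cons (PF.cons (PF.cons (PF.leaf (nat_lit 5681278) (nat_lit 2679188) (nat_lit 38211884) (nat_lit 20131444) [(nat_lit 0), (nat_lit 0), (nat_lit 2679188), (nat_lit 6086295)]) (PF.cons (PF.leaf (nat_lit 5844409) (nat_lit 255855) (nat_lit 38018368) (nat_lit 20061838) [(nat_lit 255855), (nat_lit 0), (nat_lit 2687740), (nat_lit 6085009)]) (PF.cons (PF.leaf (nat_lit 6018226) (nat_lit 263203) (nat_lit 37814980) (nat_lit 19988256) [(nat_lit 263203), (nat_lit 0), (nat_lit 2696058), (nat_lit 6083109)]) (PF.cons PF.nil PF.nil)))) (PF.cons (PF.cons (PF.leaf (nat_lit 6194238) (nat_lit 1097024) (nat_lit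
 37397384) (nat_lit 19834404) [(nat_lit 0), (nat_lit 1097024), (nat_lit 2705911), (nat_lit 6074087)]) (PF.cons (PF.leaf (nat_lit 6371611) (nat_lit 272565) (nat_lit 37189433) (nat_lit 19757821) [(nat_lit 272565), (nat_lit 1105710), (nat_lit 2712745), (nat_lit 6070535)]) PF.nil)) (PF.cons PF.nil PF.nil))) (PF.cons (PF.cons (PF.cons (PF.leaf (nat_lit 6650918) (nat_lit 2713960) (nat_lit 36251737) (nat_lit 19398718) [(nat_lit 0), (nat_lit 0), (nat_lit 2713960), (nat_lit 6030437)]) (PF.cons PF.nil PF.nil)) (PF.cons PF.nil PF.nil)) PF.nil))) (PF.cons (PF.cons (PF.cons (PF.cons (PF.leaf (nat_lit 6290376) (nat_lit 5966214) (nat_lit 35929442) (nat_lit 19246941) [(nat_lit 0), (nat_lit 0), (nat_lit 0), (nat_lit 5966214)]) (PF.cons (PF.leaf (nat_lit 6451470) (nat_lit 257829) (nat_lit 35748916) (nat_lit 19178291) [(nat_lit 257829), (nat_lit 0), (nat_lit 0), (nat_lit 5961887)]) (PF.cons (PF.leaf (nat_lit 6622816) (nat_lit 264832) (nat_lit 35559454) (nat_lit 19105889)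 [(nat_lit 264832), (nat_lit 0), (nat_lit 0), (nat_lit 5956901)]) (PF.cons PF.nil PF.nil)))) (PF.cons (PF.cons (PF.leaf (nat_lit 6790729) (nat_lit 1095119) (nat_lit 35173259) (nat_lit 18955893) [(nat_lit 0), (nat_lit 1095119),
 (nat_lit 0), (nat_lit 5942270)]) (PF.cons PF.nil PF.nil)) (PF.cons PF.nil PF.nil))) (PF.cons (PF.cons (PF.cons (PF.leaf (nat_lit 7224784) (nat_lit 2677337) (nat_lit 34121646) (nat_lit 18536148) [(nat_lit 0), (nat_lit 0), (nat_lit 2677337), (nat_lit 5886840)]) (PF.cons PF.nil PF.nil)) PF.nil) PF.nil)) (PF.cons PF.nil (PF.cons PF.nil (PF.cons PF.nil PF.nil))))))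

def p15_7_3_0 : pfC (piC [(nat_lit 43428061), (nat_lit 27806210), (nat_lit 20479430), (nat_lit 13783263)] (nat_lit 4509858)) p15_7_3 (nat_lit 4) (nat_lit 0) (nat_lit 1) = true := by decide +kernel
def p15_7_3_1 : pfC (piC [(nat_lit 43428061), (nat_lit 27806210), (nat_lit 20479430), (nat_lit 13783263)] (nat_lit 4509858)) p15_7_3 (nat_lit 4) (nat_lit 1) (nat_lit 2) = true := by decide +kernel
def p15_7_3_2 : pfC (piC [(nat_lit 43428061), (nat_lit 27806210), (nat_lit 20479430), (nat_lit 13783263)] (nat_lit 4509858)) p15_7_3 (nat_lit 4) (nat_lit 2) (nat_lit 3) = true := by decide +kernel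
def p15_7_3_3 : pfC (piC [(nat_lit 43428061), (nat_lit 27806210), (nat_lit 20479430), (nat_lit 13783263)] (nat_lit 4509858)) p15_7_3 (nat_lit 4) (nat_lit 3) (nat_lit 4) = true := by decide +kernel
def p15_7_3_4 : pfC (piC [(nat_lit 43428061), (nat_lit 27806210), (nat_lit 20479430), (nat_lit 13783263)] (nat_lit 4509858)) p15_7_3 (nat_lit 4) (nat_lit 4) (nat_lit 5) = true := by decide +kernel
def p15_7_3_5 : pfC (piC [(nat_lit 43428061), (nat_lit 27806210), (nat_lit 20479430), (nat_lit 13783263)] (nat_lit 4509858)) p15_7_3 (nat_lit 4) (nat_lit 5) (nat_lit 6) = true := by decide +kernel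
def p15_7_3_6 : pfC (piC [(nat_lit 43428061), (nat_lit 27806210), (nat_lit 20479430), (nat_lit 13783263)] (nat_lit 4509858)) p15_7_3 (nat_lit 4) (nat_lit 6) (nat_lit 7) = true := by decide +kernel
def p15_7_3_7 : pfC (piC [(nat_lit 43428061), (nat_lit 27806210), (nat_lit 20479430), (nat_lit 13783263)] (nat_lit 4509858)) p15_7_3 (nat_lit 4) (nat_lit 7) (nat_lit 8) = true := by decide +kernel
def p15_7_3_8 : pfC (piC [(nat_lit 43428061), (nat_lit 27806210), (nat_lit 20479430), (nat_lit 13783263)] (nat_lit 4509858)) p15_7_3 (nat_lit 4) (nat_lit 8) (nat_lit 9) = true := by decide +kernel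
def p15_7_3_9 : pfC (piC [(nat_lit 43428061), (nat_lit 27806210), (nat_lit 20479430), (nat_lit 13783263)] (nat_lit 4509858)) p15_7_3 (nat_lit 4) (nat_lit 9) (nat_lit 10) = true := by decide +kernel
def p15_7_3_10 : pfC (piC [(nat_lit 43428061), (nat_lit 27806210), (nat_lit 20479430), (nat_lit 13783263)] (nat_lit 4509858)) p15_7_3 (nat_lit 4) (nat_lit 10) (nat_lit 11) = true := by decide +kernel
def p15_7_3_11 : pfC (piC [(nat_lit 43428061), (nat_lit 27806210), (nat_lit 20479430), (nat_lit 13783263)] (nat_lit 4509858)) p15_7_3 (nat_lit 4) (nat_lit 11) (nat_lit 12) = true := by decide +kernel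
def p15_7_3_12 : pfC (piC [(nat_lit 43428061), (nat_lit 27806210), (nat_lit 20479430), (nat_lit 13783263)] (nat_lit 4509858)) p15_7_3 (nat_lit 4) (nat_lit 12) (nat_lit 13) = true := by decide +kernel
def p15_7_3_13 : pfC (piC [(nat_lit 43428061), (nat_lit 27806210), (nat_lit 20479430), (nat_lit 13783263)] (nat_lit 4509858)) p15_7_3 (nat_lit 4) (nat_lit 13) (nat_lit 14) = true := by decide +kernel
def p15_7_3_14 : pfC (piC [(nat_lit 43428061), (nat_lit 27806210), (nat_lit 20479430), (nat_lit 13783263)] (nat_lit 4509858)) p15_7_3 (nat_lit 4) (nat_lit 14) (nat_lit 15) = true := by decide +kernel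
def p15_7_3_15 : pfC (piC [(nat_lit 43428061), (nat_lit 27806210), (nat_lit 20479430), (nat_lit 13783263)] (nat_lit 4509858)) p15_7_3 (nat_lit 4) (nat_lit 15) (nat_lit 16) = true := by decide +kernel
def p15_7_3_16 : pfC (piC [(nat_lit 43428061), (nat_lit 27806210), (nat_lit 20479430), (nat_lit 13783263)] (nat_lit 4509858)) p15_7_3 (nat_lit 4) (nat_lit 16) (nat_lit 17) = true := by decide +kernel
def p15_7_3_17 : pfC (piC [(nat_lit 43428061), (nat_lit 27806210), (nat_lit 20479430), (nat_lit 13783263)] (nat_lit 4509858)) p15_7_3 (nat_lit 4) (nat_lit 17) (nat_lit 18) = true := by decide +kernel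
def p15_7_3_18 : pfC (piC [(nat_lit 43428061), (nat_lit 27806210), (nat_lit 20479430), (nat_lit 13783263)] (nat_lit 4509858)) p15_7_3 (nat_lit 4) (nat_lit 18) (nat_lit 19) = true := by decide +kernel
def p15_7_3_19 : pfC (piC [(nat_lit 43428061), (nat_lit 27806210), (nat_lit 20479430), (nat_lit 13783263)] (nat_lit 4509858)) p15_7_3 (nat_lit 4) (nat_lit 19) (nat_lit 20) = true := by decide +kernel
def p15_7_3_20 : pfC (piC [(nat_lit 43428061), (nat_lit 27806210), (nat_lit 20479430), (nat_lit 13783263)] (nat_lit 4509858)) p15_7_3 (nat_lit 4) (nat_lit 20) (nat_lit 21) = true := by decide +kernel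
def p15_7_3_21 : pfC (piC [(nat_lit 43428061), (nat_lit 27806210), (nat_lit 20479430), (nat_lit 13783263)] (nat_lit 4509858)) p15_7_3 (nat_lit 4) (nat_lit 21) (nat_lit 22) = true := by decide +kernel
def p15_7_3_22 : pfC (piC [(nat_lit 43428061), (nat_lit 27806210), (nat_lit 20479430), (nat_lit 13783263)] (nat_lit 4509858)) p15_7_3 (nat_lit 4) (nat_lit 22) (nat_lit 23) = true := by decide +kernel
def p15_7_3_23 : pfC (piC [(nat_lit 43428061), (nat_lit 27806210), (nat_lit 20479430), (nat_lit 13783263)] (nat_lit 4509858)) p15_7_3 (nat_lit 4) (nat_lit 23) (nat_lit 24) = true := by decide +kernel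
def p15_7_3_24 : pfC (piC [(nat_lit 43428061), (nat_lit 27806210), (nat_lit 20479430), (nat_lit 13783263)] (nat_lit 4509858)) p15_7_3 (nat_lit 4) (nat_lit 24) (nat_lit 25) = true := by decide +kernel
def p15_7_3_25 : pfC (piC [(nat_lit 43428061), (nat_lit 27806210), (nat_lit 20479430), (nat_lit 13783263)] (nat_lit 4509858)) p15_7_3 (nat_lit 4) (nat_lit 25) (nat_lit 26) = true := by decide +kernel
def p15_7_3_26 : pfC (piC [(nat_lit 43428061), (nat_lit 27806210), (nat_lit 20479430), (nat_lit 13783263)] (nat_lit 4509858)) p15_7_3 (nat_lit 4) (nat_lit 26) (nat_lit 27) = true := by decide +kernel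
def p15_7_3_27 : pfC (piC [(nat_lit 43428061), (nat_lit 27806210), (nat_lit 20479430), (nat_lit 13783263)] (nat_lit 4509858)) p15_7_3 (nat_lit 4) (nat_lit 27) (nat_lit 28) = true := by decide +kernel
def p15_7_3_28 : pfC (piC [(nat_lit 43428061), (nat_lit 27806210), (nat_lit 20479430), (nat_lit 13783263)] (nat_lit 4509858)) p15_7_3 (nat_lit 4) (nat_lit 28) (nat_lit 29) = true := by decide +kernel
def p15_7_3_29 : pfC (piC [(nat_lit 43428061), (nat_lit 27806210), (nat_lit 20479430), (nat_lit 13783263)] (nat_lit 4509858)) p15_7_3 (nat_lit 4) (nat_lit 29) (nat_lit 30) = true := by decide +kernel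
def p15_7_3_30 : pfC (piC [(nat_lit 43428061), (nat_lit 27806210), (nat_lit 20479430), (nat_lit 13783263)] (nat_lit 4509858)) p15_7_3 (nat_lit 4) (nat_lit 30) (nat_lit 31) = true := by decide +kernel
def p15_7_3_31 : pfC (piC [(nat_lit 43428061), (nat_lit 27806210), (nat_lit 20479430), (nat_lit 13783263)] (nat_lit 4509858)) p15_7_3 (nat_lit 4) (nat_lit 31) (nat_lit 32) = true := by decide +kernel
def p15_7_3_32 : pfC (piC [(nat_lit 43428061), (nat_lit 27806210), (nat_lit 20479430), (nat_lit 13783263)] (nat_lit 4509858)) p15_7_3 (nat_lit 4) (nat_lit 32) (nat_lit 33) = true := by decide +kernel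
def p15_7_3_33 : pfC (piC [(nat_lit 43428061), (nat_lit 27806210), (nat_lit 20479430), (nat_lit 13783263)] (nat_lit 4509858)) p15_7_3 (nat_lit 4) (nat_lit 33) (nat_lit 34) = true := by decide +kernel
def p15_7_3_34 : pfC (piC [(nat_lit 43428061), (nat_lit 27806210), (nat_lit 20479430), (nat_lit 13783263)] (nat_lit 4509858)) p15_7_3 (nat_lit 4) (nat_lit 34) (nat_lit 35) = true := by decide +kernel
def p15_7_3_35 : pfC (piC [(nat_lit 43428061), (nat_lit 27806210), (nat_lit 20479430), (nat_lit 13783263)] (nat_lit 4509858)) p15_7_3 (nat_lit 4) (nat_lit 35) (nat_lit 36) = true := by decide +kernel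
def p15_7_3_36 : pfC (piC [(nat_lit 43428061), (nat_lit 27806210), (nat_lit 20479430), (nat_lit 13783263)] (nat_lit 4509858)) p15_7_3 (nat_lit 4) (nat_lit 36) (nat_lit 37) = true := by decide +kernel
def p15_7_3_37 : pfC (piC [(nat_lit 43428061), (nat_lit 27806210), (nat_lit 20479430), (nat_lit 13783263)] (nat_lit 4509858)) p15_7_3 (nat_lit 4) (nat_lit 37) (nat_lit 38) = true := by decide +kernel
def p15_7_3_38 : pfC (piC [(nat_lit 43428061), (nat_lit 27806210), (nat_lit 20479430), (nat_lit 13783263)] (nat_lit 4509858)) p15_7_3 (nat_lit 4) (nat_lit 38) (nat_lit 39) = true := by decide +kernel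
def p15_7_3_39 : pfC (piC [(nat_lit 43428061), (nat_lit 27806210), (nat_lit 20479430), (nat_lit 13783263)] (nat_lit 4509858)) p15_7_3 (nat_lit 4) (nat_lit 39) (nat_lit 40) = true := by decide +kernel
def p15_7_3_40 : pfC (piC [(nat_lit 43428061), (nat_lit 27806210), (nat_lit 20479430), (nat_lit 13783263)] (nat_lit 4509858)) p15_7_3 (nat_lit 4) (nat_lit 40) (nat_lit 41) = true := by decide +kernel
def p15_7_3_41 : pfC (piC [(nat_lit 43428061), (nat_lit 27806210), (nat_lit 20479430), (nat_lit 13783263)] (nat_lit 4509858)) p15_7_3 (nat_lit 4) (nat_lit 41) (nat_lit 42) = true := by decide +kernel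
def p15_7_3_42 : pfC (piC [(nat_lit 43428061), (nat_lit 27806210), (nat_lit 20479430), (nat_lit 13783263)] (nat_lit 4509858)) p15_7_3 (nat_lit 4) (nat_lit 42) (nat_lit 43) = true := by decide +kernel
def p15_7_3_43 : pfC (piC [(nat_lit 43428061), (nat_lit 27806210), (nat_lit 20479430), (nat_lit 13783263)] (nat_lit 4509858)) p15_7_3 (nat_lit 4) (nat_lit 43) (nat_lit 44) = true := by decide +kernel
def p15_7_3_44 : pfC (piC [(nat_lit 43428061), (nat_lit 27806210), (nat_lit 20479430), (nat_lit 13783263)] (nat_lit 4509858)) p15_7_3 (nat_lit 4) (nat_lit 44) (nat_lit 45) = true := by decide +kernel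
def p15_7_3_45 : pfC (piC [(nat_lit 43428061), (nat_lit 27806210), (nat_lit 20479430), (nat_lit 13783263)] (nat_lit 4509858)) p15_7_3 (nat_lit 4) (nat_lit 45) (nat_lit 46) = true := by decide +kernel
def p15_7_3_46 : pfC (piC [(nat_lit 43428061), (nat_lit 27806210), (nat_lit 20479430), (nat_lit 13783263)] (nat_lit 4509858)) p15_7_3 (nat_lit 4) (nat_lit 46) (nat_lit 47) = true := by decide +kernel
def p15_7_3_47 : pfC (piC [(nat_lit 43428061), (nat_lit 27806210), (nat_lit 20479430), (nat_lit 13783263)] (nat_lit 4509858)) p15_7_3 (nat_lit 4) (nat_lit 47) (nat_lit 48) = true := by decide +kernel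
def p15_7_3_48 : pfC (piC [(nat_lit 43428061), (nat_lit 27806210), (nat_lit 20479430), (nat_lit 13783263)] (nat_lit 4509858)) p15_7_3 (nat_lit 4) (nat_lit 48) (nat_lit 49) = true := by decide +kernel
def p15_7_3_49 : pfC (piC [(nat_lit 43428061), (nat_lit 27806210), (nat_lit 20479430), (nat_lit 13783263)] (nat_lit 4509858)) p15_7_3 (nat_lit 4) (nat_lit 49) (nat_lit 50) = true := by decide +kernel
def p15_7_3_50 : pfC (piC [(nat_lit 43428061), (nat_lit 27806210), (nat_lit 20479430), (nat_lit 13783263)] (nat_lit 4509858)) p15_7_3 (nat_lit 4) (nat_lit 50) (nat_lit 51) = true := by decide +kernel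
def p15_7_3_51 : pfC (piC [(nat_lit 43428061), (nat_lit 27806210), (nat_lit 20479430), (nat_lit 13783263)] (nat_lit 4509858)) p15_7_3 (nat_lit 4) (nat_lit 51) (nat_lit 52) = true := by decide +kernel
def p15_7_3_52 : pfC (piC [(nat_lit 43428061), (nat_lit 27806210), (nat_lit 20479430), (nat_lit 13783263)] (nat_lit 4509858)) p15_7_3 (nat_lit 4) (nat_lit 52) (nat_lit 53) = true := by decide +kernel
def p15_7_3_53 : pfC (piC [(nat_lit 43428061), (nat_lit 27806210), (nat_lit 20479430), (nat_lit 13783263)] (nat_lit 4509858)) p15_7_3 (nat_lit 4) (nat_lit 53) (nat_lit 54) = true := by decide +kernel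
def p15_7_3_54 : pfC (piC [(nat_lit 43428061), (nat_lit 27806210), (nat_lit 20479430), (nat_lit 13783263)] (nat_lit 4509858)) p15_7_3 (nat_lit 4) (nat_lit 54) (nat_lit 55) = true := by decide +kernel
def p15_7_3_55 : pfC (piC [(nat_lit 43428061), (nat_lit 27806210), (nat_lit 20479430), (nat_lit 13783263)] (nat_lit 4509858)) p15_7_3 (nat_lit 4) (nat_lit 55) (nat_lit 56) = true := by decide +kernel
def p15_7_3_56 : pfC (piC [(nat_lit 43428061), (nat_lit 27806210), (nat_lit 20479430), (nat_lit 13783263)] (nat_lit 4509858)) p15_7_3 (nat_lit 4) (nat_lit 56) (nat_lit 57) = true := by decide +kernel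
def p15_7_3_57 : pfC (piC [(nat_lit 43428061), (nat_lit 27806210), (nat_lit 20479430), (nat_lit 13783263)] (nat_lit 4509858)) p15_7_3 (nat_lit 4) (nat_lit 57) (nat_lit 58) = true := by decide +kernel
def p15_7_3_58 : pfC (piC [(nat_lit 43428061), (nat_lit 27806210), (nat_lit 20479430), (nat_lit 13783263)] (nat_lit 4509858)) p15_7_3 (nat_lit 4) (nat_lit 58) (nat_lit 59) = true := by decide +kernel
def p15_7_3_59 : pfC (piC [(nat_lit 43428061), (nat_lit 27806210), (nat_lit 20479430), (nat_lit 13783263)] (nat_lit 4509858)) p15_7_3 (nat_lit 4) (nat_lit 59) (nat_lit 60) = true := by decide +kernel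
def p15_7_3_60 : pfC (piC [(nat_lit 43428061), (nat_lit 27806210), (nat_lit 20479430), (nat_lit 13783263)] (nat_lit 4509858)) p15_7_3 (nat_lit 4) (nat_lit 60) (nat_lit 61) = true := by decide +kernel
def p15_7_3_61 : pfC (piC [(nat_lit 43428061), (nat_lit 27806210), (nat_lit 20479430), (nat_lit 13783263)] (nat_lit 4509858)) p15_7_3 (nat_lit 4) (nat_lit 61) (nat_lit 62) = true := by decide +kernel
def p15_7_3_62 : pfC (piC [(nat_lit 43428061), (nat_lit 27806210), (nat_lit 20479430), (nat_lit 13783263)] (nat_lit 4509858)) p15_7_3 (nat_lit 4) (nat_lit 62) (nat_lit 63) = true := by decide +kernel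
theorem p15_7_3_T : PfS (PiF n15_7.reverse (nat_lit 4509858)) p15_7_3 (nat_lit 4) [] 0 :=
  pftab_of (los := [(nat_lit 43428061), (nat_lit 27806210), (nat_lit 20479430), (nat_lit 13783263)]) (by decide +kernel) (hi := (nat_lit 63)) (PfP.trans (PfP.trans (PfP.trans (PfP.trans (PfP.trans (PfP.trans (PfP.trans (PfP.trans (PfP.trans (PfP.trans (PfP.trans (PfP.trans (PfP.trans (PfP.trans (PfP.trans (PfP.trans (PfP.trans (PfP.trans (PfP.trans (PfP.trans (PfP.trans (PfP.trans (PfP.trans (PfP.trans (PfP.trans (PfP.trans (PfP.trans (PfP.trans (PfP.trans (PfP.trans (PfP.trans (PfP.trans (PfP.trans (PfP.trans (PfP.trans (PfP.trans (PfP.trans (PfP.trans (PfP.trans (PfP.trans (PfP.trans (PfP.trans (PfP.trans (PfP.trans (PfP.trans (PfP.trans (PfP.trans (PfP.trans (PfP.trans (PfP.trans (PfP.trans (PfP.trans (PfP.trans (PfP.trans (PfP.trans (PfP.trans (PfP.trans (PfP.trans (PfP.trans (PfP.trans (PfP.trans (PfP.trans (pfC_sound p15_7_3_0) (pfC_sound p15_7_3_1)) (pfC_sound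 p15_7_3_2)) (pfC_sound p15_7_3_3)) (pfC_sound p15_7_3_4)) (pfC_sound p15_7_3_5)) (pfC_sound p15_7_3_6)) (pfC_sound p15_7_3_7)) (pfC_sound p15_7_3_8)) (pfC_sound p15_7_3_9)) (pfC_sound p15_7_3_10)) (pfC_sound p15_7_3_11)) (pfC_sound p15_7_3_12)) (pfC_sound p15_7_3_13)) (pfC_sound p15_7_3_14)) (pfC_sound p15_7_3_15)) (pfC_sound p15_7_3_16)) (pfC_sound p15_7_3_17)) (pfC_sound p15_7_3_18)) (pfC_sound p15_7_3_19)) (pfC_sound p15_7_3_20)) (pfC_sound p15_7_3_21))
 (pfC_sound p15_7_3_22)) (pfC_sound p15_7_3_23)) (pfC_sound p15_7_3_24)) (pfC_sound p15_7_3_25)) (pfC_sound p15_7_3_26)) (pfC_sound p15_7_3_27)) (pfC_sound p15_7_3_28)) (pfC_sound p15_7_3_29)) (pfC_sound p15_7_3_30)) (pfC_sound p15_7_3_31)) (pfC_sound p15_7_3_32)) (pfC_sound p15_7_3_33)) (pfC_sound p15_7_3_34)) (pfC_sound p15_7_3_35)) (pfC_sound p15_7_3_36)) (pfC_sound p15_7_3_37)) (pfC_sound p15_7_3_38)) (pfC_sound p15_7_3_39)) (pfC_sound p15_7_3_40)) (pfC_sound p15_7_3_41)) (pfC_sound p15_7_3_42))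 (pfC_sound p15_7_3_43)) (pfC_sound p15_7_3_44)) (pfC_sound p15_7_3_45)) (pfC_sound p15_7_3_46)) (pfC_sound p15_7_3_47)) (pfC_sound p15_7_3_48)) (pfC_sound p15_7_3_49)) (pfC_sound p15_7_3_50)) (pfC_sound p15_7_3_51)) (pfC_sound p15_7_3_52)) (pfC_sound p15_7_3_53)) (pfC_sound p15_7_3_54)) (pfC_sound p15_7_3_55)) (pfC_sound p15_7_3_56)) (pfC_sound p15_7_3_57)) (pfC_sound p15_7_3_58)) (pfC_sound p15_7_3_59)) (pfC_sound p15_7_3_60)) (pfC_sound p15_7_3_61)) (pfC_sound p15_7_3_62)) (by decide +kernel)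

def z15_7_3 : zOK yB15_7 (nat_lit 3) (nat_lit 750) (nat_lit 943) (nat_lit 4509858) (nat_lit 2446227) = true := by decide +kernel
def g15_7_3 : gOK yB15_7.x P15_7 (nat_lit 1427) (q15_7 :: r15_7) (nat_lit 3) (nat_lit 750) (nat_lit 4) (nat_lit 943) (nat_lit 12712500) (nat_lit 12712500) (nat_lit 12712500) (nat_lit 12712500) [(nat_lit 800)] = true := by decide +kernel
def v15_7_3 : ivC P15_7 s15_7 w15_7 n15_7 (nat_lit 4) (nat_lit 4780) (nat_lit 3) (nat_lit 750) f128_1_750 f136_1_750 (nat_lit 4) (nat_lit 943) f128_1_943 f136_1_943 (nat_lit 4509858) (nat_lit 2446227) p15_7_3 = true := by decide +kernel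
/-! box `yB15_8` -/

def P15_8 : BQ := ⟨(nat_lit 8), (nat_lit 8), (nat_lit 0), (nat_lit 6), (nat_lit 2), (nat_lit 680), (nat_lit 690), (nat_lit 120), [(nat_lit 200), (nat_lit 300), (nat_lit 450), (nat_lit 800)], (nat_lit 67168000), (nat_lit 16000000), (nat_lit 16000000000)⟩
def q15_8 : PC := ⟨(nat_lit 1000), [(nat_lit 120000), (nat_lit 200000), (nat_lit 300000), (nat_lit 450000), (nat_lit 800000)], (nat_lit 340282367000166625996085689103316680705000000), (nat_lit 15932832000000), (nat_lit 15932832000000), (nat_lit 10000000)⟩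
def r15_8 : List PC := [⟨(nat_lit 1319), [(nat_lit 120533), (nat_lit 200969), (nat_lit 301692), (nat_lit 451957), (nat_lit 798426)], (nat_lit 342416277723666741061973495242413214624861883), (nat_lit 16319664608960), (nat_lit 16325722801760), (nat_lit 10056400)⟩]
def s15_8 : List PB := [⟨(nat_lit 26380), (nat_lit 1928528000000), [(nat_lit 200969), (nat_lit 301692), (nat_lit 451957), (nat_lit 798426)], (nat_lit 342416277723666741061973495242413214624861883), (nat_lit 1142219571451584), (nat_lit 1142225629644384), (nat_lit 51040)⟩]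
def n15_8 : List KN := [⟨(nat_lit 800), (nat_lit 450), (nat_lit 13743659), (nat_lit 8439702)⟩, ⟨(nat_lit 450), (nat_lit 300), (nat_lit 20402210), (nat_lit 13743659)⟩, ⟨(nat_lit 300), (nat_lit 200), (nat_lit 27646207), (nat_lit 20402210)⟩, ⟨(nat_lit 200), (nat_lit 120), (nat_lit 44228488), (nat_lit 27646207)⟩]
def w15_8 : List ℕ := [(nat_lit 51040)]
def par15_8 : parC yB15_8 P15_8 s15_8 r15_8 q15_8 n15_8 w15_8 = true := by decide +kernel

def p15_8_0 : PF := (PF.cons (PF.cons (PF.cons (PF.cons (PF.leaf (nat_lit 545333) (nat_lit 1535978) (nat_lit 65572834) (nat_lit 1535978) [(nat_lit 0), (nat_lit 0), (nat_lit 0), (nat_lit 0)]) (PF.cons (PF.leaf (nat_lit 623297) (nat_lit 118836) (nat_lit 65420763) (nat_lit 1569212) [(nat_lit 118836), (nat_lit 0), (nat_lit 0), (nat_lit 0)]) (PF.cons (PF.leaf (nat_lit 726336) (nat_lit 131376) (nat_lit 65239377) (nat_lit 1606683) [(nat_lit 131376), (nat_lit 0), (nat_lit 0), (nat_lit 0)]) (PF.cons (PF.leaf (nat_lit 843583)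 (nat_lit 143206) (nat_lit 65032203) (nat_lit 1646989) [(nat_lit 143206), (nat_lit 0), (nat_lit 0), (nat_lit 0)]) (PF.cons (PF.leaf (nat_lit 974681) (nat_lit 154515) (nat_lit 64801593) (nat_lit 1689157) [(nat_lit 154515), (nat_lit 0), (nat_lit 0), (nat_lit 0)]) (PF.cons (PF.leaf (nat_lit 1119178) (nat_lit 165408) (nat_lit 64549298) (nat_lit 1732472) [(nat_lit 165408), (nat_lit 0), (nat_lit 0), (nat_lit 0)]) (PF.cons PF.nil PF.nil))))))) (PF.cons (PF.cons (PF.leaf (nat_lit 943439) (nat_lit 773797) (nat_lit 64627164) (nat_lit 1707850) [(nat_lit 0), (nat_lit 773797), (nat_lit 0), (nat_lit 0)]) (PF.cons (PF.leaf (nat_lit 1061237) (nat_lit 157804) (nat_lit 64406674) (nat_lit 1744621) [(nat_lit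
 157804), (nat_lit 799712), (nat_lit 0), (nat_lit 0)]) (PF.cons (PF.leaf (nat_lit 1197715) (nat_lit 168860) (nat_lit 64161146) (nat_lit 1783391) [(nat_lit 168860), (nat_lit 826553), (nat_lit 0), (nat_lit 0)]) (PF.cons (PF.leaf (nat_lit 1347579) (nat_lit 179441) (nat_lit 63893284) (nat_lit 1823370) [(nat_lit 179441), (nat_lit 853832), (nat_lit 0), (nat_lit 0)]) (PF.cons PF.nil PF.nil))))) (PF.cons (PF.cons (PF.leaf (nat_lit 1433850) (nat_lit 880871) (nat_lit 63475719) (nat_lit 1871350) [(nat_lit 0), (nat_lit 880871), (nat_lit 0), (nat_lit 0)]) (PF.cons (PF.leaf (nat_lit 1584888) (nat_lit 192287) (nat_lit 63196899) (nat_lit 1907951) [(nat_lit 192287), (nat_lit 905837), (nat_lit 0), (nat_lit 0)]) (PF.cons (PF.leaf (nat_lit 1751447) (nat_lit 202223) (nat_lit 62896907) (nat_lit 1945310) [(nat_lit 202223), (nat_lit 931073), (nat_lit 0), (nat_lit 0)]) (PF.cons PF.nil PF.nil)))) (PF.cons (PF.cons (PF.leaf (nat_lit 2001805) (nat_lit 977490) (nat_lit 62155490)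 (nat_lit 2020851) [(nat_lit 0), (nat_lit 977490), (nat_lit 0), (nat_lit 0)]) (PF.cons (PF.leaf (nat_lit 2181169) (nat_lit 223088) (nat_lit 61828111) (nat_lit 2055359) [(nat_lit 223088), (nat_lit 1000750), (nat_lit 0), (nat_lit 0)])
 PF.nil)) (PF.cons PF.nil (PF.cons PF.nil PF.nil)))))) (PF.cons (PF.cons (PF.cons (PF.leaf (nat_lit 1503600) (nat_lit 1912547) (nat_lit 62723969) (nat_lit 1912547) [(nat_lit 0), (nat_lit 0), (nat_lit 2472296), (nat_lit 0)]) (PF.cons (PF.leaf (nat_lit 1638052) (nat_lit 185231) (nat_lit 62472839) (nat_lit 1943972) [(nat_lit 185231), (nat_lit 0), (nat_lit 2506770), (nat_lit 0)]) (PF.cons (PF.leaf (nat_lit 1790423) (nat_lit 196298) (nat_lit 62196232) (nat_lit 1976931) [(nat_lit 196298), (nat_lit 0), (nat_lit 2543051), (nat_lit 0)]) (PF.cons (PF.leaf (nat_lit 1956170) (nat_lit 206677) (nat_lit 61897633) (nat_lit 2010754) [(nat_lit 206677), (nat_lit 0), (nat_lit 2580392), (nat_lit 0)]) (PF.cons PF.nil PF.nil))))) (PF.cons (PF.cons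 (PF.leaf (nat_lit 2037333) (nat_lit 984393) (nat_lit 61451395) (nat_lit 2048761) [(nat_lit 0), (nat_lit 984393), (nat_lit 2624263), (nat_lit 0)]) (PF.cons (PF.leaf (nat_lit 2202609) (nat_lit 217595) (nat_lit 61146900) (nat_lit 2079613) [(nat_lit 217595), (nat_lit 1006360), (nat_lit 2658343), (nat_lit 0)]) (PF.cons (PF.leaf (nat_lit 2382438) (nat_lit 227192) (nat_lit 60821996) (nat_lit 2110965) [(nat_lit 227192), (nat_lit 1028431), (nat_lit 2693034), (nat_lit
 0)]) (PF.cons PF.nil PF.nil)))) (PF.cons (PF.cons (PF.leaf (nat_lit 2637908) (nat_lit 1067031) (nat_lit 60040471) (nat_lit 2172088) [(nat_lit 0), (nat_lit 1067031), (nat_lit 2762190), (nat_lit 0)]) (PF.cons (PF.leaf (nat_lit 2828591) (nat_lit 245796) (nat_lit 59693868) (nat_lit 2200799) [(nat_lit 245796), (nat_lit 1087205), (nat_lit 2793936), (nat_lit 0)]) PF.nil)) (PF.cons PF.nil (PF.cons PF.nil PF.nil))))) (PF.cons (PF.cons (PF.cons (PF.leaf (nat_lit 2652907) (nat_lit 2189554) (nat_lit 59347021)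 (nat_lit 2189554) [(nat_lit 0), (nat_lit 0), (nat_lit 2786118), (nat_lit 0)]) (PF.cons (PF.leaf (nat_lit 2828995) (nat_lit 238948) (nat_lit 59025816) (nat_lit 2215427) [(nat_lit 238948), (nat_lit 0), (nat_lit 2814310), (nat_lit 0)]) (PF.cons (PF.leaf (nat_lit 3018832) (nat_lit 248160) (nat_lit 58685204) (nat_lit 2241585) [(nat_lit 248160), (nat_lit 0), (nat_lit 2842851), (nat_lit 0)]) (PF.cons PF.nil PF.nil)))) (PF.cons (PF.cons (PF.leaf (nat_lit 3275439) (nat_lit 1139324) (nat_lit 57883621) (nat_lit 2290616) [(nat_lit 0), (nat_lit 1139324), (nat_lit 2897625), (nat_lit 0)]) (PF.cons PF.nil PF.nil)) (PF.cons PF.nil PF.nil))) (PF.cons (PF.cons (PF.cons (PF.leaf (nat_lit 3906920) (nat_lit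
 2381939) (nat_lit 55726040) (nat_lit 2381939) [(nat_lit 0), (nat_lit 0), (nat_lit 3000277), (nat_lit 0)]) (PF.cons PF.nil PF.nil)) (PF.cons PF.nil PF.nil)) (PF.cons PF.nil (PF.cons PF.nil PF.nil)))))) (PF.cons (PF.cons (PF.cons (PF.cons (PF.leaf (nat_lit 2446705) (nat_lit 2121598) (nat_lit 58147429) (nat_lit 2121598) [(nat_lit 0), (nat_lit 0), (nat_lit 0), (nat_lit 6839785)]) (PF.cons (PF.leaf (nat_lit 2591525) (nat_lit 210330) (nat_lit 57887562) (nat_lit 2146172) [(nat_lit 210330), (nat_lit 0), (nat_lit 0), (nat_lit 6864748)]) (PF.cons (PF.leaf (nat_lit 2753541) (nat_lit 221496) (nat_lit 57603305) (nat_lit 2171691) [(nat_lit 221496), (nat_lit 0), (nat_lit 0), (nat_lit 6890822)]) (PF.cons (PF.leaf (nat_lit 2928089) (nat_lit 231729) (nat_lit 57298603) (nat_lit 2197625) [(nat_lit 231729), (nat_lit 0), (nat_lit 0), (nat_lit 6917397)]) (PF.cons (PF.leaf (nat_lit 3113830) (nat_lit 241221) (nat_lit 56976309) (nat_lit 2223605) [(nat_lit 241221), (nat_lit 0),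 (nat_lit 0), (nat_lit 6944011)]) (PF.cons (PF.leaf (nat_lit 3309616) (nat_lit 250099) (nat_lit 56638636) (nat_lit 2249370) [(nat_lit 250099), (nat_lit 0), (nat_lit 0), (nat_lit 6970307)]) (PF.cons PF.nil PF.nil))))))) (PF.cons
 (PF.cons (PF.leaf (nat_lit 2998183) (nat_lit 1083007) (nat_lit 56853907) (nat_lit 2223684) [(nat_lit 0), (nat_lit 1083007), (nat_lit 0), (nat_lit 6948214)]) (PF.cons (PF.leaf (nat_lit 3170822) (nat_lit 240605) (nat_lit 56548066) (nat_lit 2247007) [(nat_lit 240605), (nat_lit 1101541), (nat_lit 0), (nat_lit 6971591)]) (PF.cons (PF.leaf (nat_lit 3356909) (nat_lit 249823) (nat_lit 56223739) (nat_lit 2270501) [(nat_lit 249823), (nat_lit 1119931), (nat_lit 0), (nat_lit 6994993)]) (PF.cons (PF.leaf (nat_lit 3553330) (nat_lit 258396) (nat_lit 55883707) (nat_lit 2293870) [(nat_lit 258396), (nat_lit 1138000), (nat_lit 0), (nat_lit 7018045)]) (PF.cons (PF.leaf (nat_lit 3758960) (nat_lit 266426) (nat_lit 55530105) (nat_lit 2316900) [(nat_lit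 266426), (nat_lit 1155640), (nat_lit 0), (nat_lit 7040458)]) PF.nil))))) (PF.cons (PF.cons (PF.leaf (nat_lit 3604249) (nat_lit 1149270) (nat_lit 55457400) (nat_lit 2313334) [(nat_lit 0), (nat_lit 1149270), (nat_lit 0), (nat_lit 7039536)]) (PF.cons (PF.leaf (nat_lit 3798768) (nat_lit 265824) (nat_lit 55117838) (nat_lit 2334398) [(nat_lit 265824), (nat_lit 1165703), (nat_lit 0), (nat_lit 7059345)]) (PF.cons (PF.leaf (nat_lit 4004180) (nat_lit 273606)
 (nat_lit 54764242) (nat_lit 2355213) [(nat_lit 273606), (nat_lit 1181809), (nat_lit 0), (nat_lit 7078524)]) (PF.cons PF.nil PF.nil)))) (PF.cons (PF.cons (PF.leaf (nat_lit 4251488) (nat_lit 1205740) (nat_lit 53991274) (nat_lit 2389923) [(nat_lit 0), (nat_lit 1205740), (nat_lit 0), (nat_lit 7110392)]) (PF.cons (PF.leaf (nat_lit 4463261) (nat_lit 287099) (nat_lit 53627688) (nat_lit 2408272) [(nat_lit 287099), (nat_lit 1220056), (nat_lit 0), (nat_lit 7125583)]) PF.nil)) (PF.cons PF.nil (PF.cons PF.nil PF.nil))))))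 (PF.cons (PF.cons (PF.cons (PF.leaf (nat_lit 3591275) (nat_lit 2317325) (nat_lit 54809875) (nat_lit 2317325) [(nat_lit 0), (nat_lit 0), (nat_lit 2932955), (nat_lit 7048656)]) (PF.cons (PF.leaf (nat_lit 3771036) (nat_lit 256939) (nat_lit 54497196) (nat_lit 2336585) [(nat_lit 256939), (nat_lit 0), (nat_lit 2952973), (nat_lit 7065117)]) (PF.cons (PF.leaf (nat_lit 3963584) (nat_lit 265704) (nat_lit 54167184) (nat_lit 2355879) [(nat_lit 265704), (nat_lit 0), (nat_lit 2973057), (nat_lit 7081282)]) (PF.cons (PF.leaf (nat_lit 4165864) (nat_lit 273762) (nat_lit 53822749) (nat_lit 2374965) [(nat_lit 273762), (nat_lit 0), (nat_lit 2992941), (nat_lit 7096869)]) (PF.cons PF.nil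
 PF.nil))))) (PF.cons (PF.cons (PF.leaf (nat_lit 4208579) (nat_lit 1199668) (nat_lit 53401664) (nat_lit 2389410) [(nat_lit 0), (nat_lit 1199668), (nat_lit 3008893), (nat_lit 7109175)]) (PF.cons (PF.leaf (nat_lit 4408066) (nat_lit 279821) (nat_lit 53060257) (nat_lit 2406498) [(nat_lit 279821), (nat_lit 1213739), (nat_lit 3026592), (nat_lit 7121904)]) (PF.cons (PF.leaf (nat_lit 4617692) (nat_lit 287090) (nat_lit 52706064) (nat_lit 2423284) [(nat_lit 287090), (nat_lit 1227455), (nat_lit 3043967), (nat_lit 7133858)]) (PF.cons PF.nil PF.nil)))) (PF.cons (PF.cons (PF.leaf (nat_lit 4859981) (nat_lit 1246617) (nat_lit 51943137) (nat_lit 2449820) [(nat_lit 0), (nat_lit 1246617), (nat_lit 3071974), (nat_lit 7150646)]) (PF.cons (PF.leaf (nat_lit 5074575) (nat_lit 298829) (nat_lit 51582289) (nat_lit 2464403) [(nat_lit 298829), (nat_lit 1258704), (nat_lit 3086907), (nat_lit 7158973)]) PF.nil)) (PF.cons PF.nil (PF.cons PF.nil PF.nil))))) (PF.cons (PF.cons (PF.cons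 (PF.leaf (nat_lit 4801363) (nat_lit 2445516) (nat_lit 51385775) (nat_lit 2445516) [(nat_lit 0), (nat_lit 0), (nat_lit 3068587), (nat_lit 7140346)]) (PF.cons (PF.leaf (nat_lit 5003926) (nat_lit 291174) (nat_lit 51046896) (nat_lit
 2459167) [(nat_lit 291174), (nat_lit 0), (nat_lit 3082316), (nat_lit 7146942)]) (PF.cons (PF.leaf (nat_lit 5216055) (nat_lit 297960) (nat_lit 50696385) (nat_lit 2472481) [(nat_lit 297960), (nat_lit 0), (nat_lit 3095674), (nat_lit 7152677)]) (PF.cons PF.nil PF.nil)))) (PF.cons (PF.cons (PF.leaf (nat_lit 5452063) (nat_lit 1277562) (nat_lit 49950974) (nat_lit 2492134) [(nat_lit 0), (nat_lit 1277562), (nat_lit 3115649), (nat_lit 7156843)]) (PF.cons PF.nil PF.nil)) (PF.cons PF.nil PF.nil))) (PF.cons (PF.cons (PF.cons (PF.leaf (nat_lit 6025734) (nat_lit 2519828) (nat_lit 48027532) (nat_lit 2519828) [(nat_lit 0), (nat_lit 0), (nat_lit 3142074), (nat_lit 7135228)]) (PF.cons PF.nil PF.nil)) (PF.cons PF.nil PF.nil)) (PF.cons PF.nil PF.nil)))))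 (PF.cons (PF.cons (PF.cons (PF.cons (PF.leaf (nat_lit 4448099) (nat_lit 2380776) (nat_lit 50619681) (nat_lit 2380776) [(nat_lit 0), (nat_lit 0), (nat_lit 0), (nat_lit 7054177)]) (PF.cons (PF.leaf (nat_lit 4627964) (nat_lit 267746) (nat_lit 50325119) (nat_lit 2395109) [(nat_lit 267746), (nat_lit 0), (nat_lit 0), (nat_lit 7060418)]) (PF.cons (PF.leaf (nat_lit 4819828) (nat_lit 276064) (nat_lit 50015188) (nat_lit 2409316) [(nat_lit 276064), (nat_lit 0),
 (nat_lit 0), (nat_lit 7066088)]) (PF.cons (PF.leaf (nat_lit 5020682) (nat_lit 283605) (nat_lit 49692705) (nat_lit 2423218) [(nat_lit 283605), (nat_lit 0), (nat_lit 0), (nat_lit 7071036)]) (PF.cons (PF.leaf (nat_lit 5229305) (nat_lit 290508) (nat_lit 49359792) (nat_lit 2436690) [(nat_lit 290508), (nat_lit 0), (nat_lit 0), (nat_lit 7075147)]) (PF.cons PF.nil (PF.cons PF.nil PF.nil))))))) (PF.cons (PF.cons (PF.leaf (nat_lit 5051833) (nat_lit 1230539) (nat_lit 49304132) (nat_lit 2431714) [(nat_lit 0), (nat_lit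 1230539), (nat_lit 0), (nat_lit 7071213)]) (PF.cons (PF.leaf (nat_lit 5249074) (nat_lit 288236) (nat_lit 48986378) (nat_lit 2443969) [(nat_lit 288236), (nat_lit 1242017), (nat_lit 0), (nat_lit 7074105)]) (PF.cons (PF.leaf (nat_lit 5455652) (nat_lit 294955) (nat_lit 48657606) (nat_lit 2455868) [(nat_lit 294955), (nat_lit 1253088), (nat_lit 0), (nat_lit 7076169)]) (PF.cons PF.nil (PF.cons PF.nil PF.nil))))) (PF.cons (PF.cons (PF.leaf (nat_lit 5682681) (nat_lit 1266835) (nat_lit 47956114) (nat_lit 2472595) [(nat_lit 0), (nat_lit 1266835), (nat_lit 0), (nat_lit 7073215)]) (PF.cons (PF.leaf (nat_lit 5892862) (nat_lit 304792) (nat_lit 47623616) (nat_lit 2482625) [(nat_lit 304792),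
 (nat_lit 1276416), (nat_lit 0), (nat_lit 7072472)]) (PF.cons PF.nil (PF.cons PF.nil PF.nil)))) (PF.cons (PF.cons (PF.leaf (nat_lit 6331517) (nat_lit 1295966) (nat_lit 46595804) (nat_lit 2504024) [(nat_lit 0), (nat_lit 1295966), (nat_lit 0), (nat_lit 7060541)]) (PF.cons PF.nil PF.nil)) (PF.cons PF.nil PF.nil))))) (PF.cons (PF.cons (PF.cons (PF.leaf (nat_lit 5606231) (nat_lit 2463397) (nat_lit 47459763) (nat_lit 2463397) [(nat_lit 0), (nat_lit 0), (nat_lit 3081227), (nat_lit 7052212)]) (PF.cons (PF.leaf (nat_lit 5804952) (nat_lit 296492) (nat_lit 47147908) (nat_lit 2472936) [(nat_lit 296492), (nat_lit 0), (nat_lit 3090055), (nat_lit 7050709)]) (PF.cons (PF.leaf (nat_lit 6012444) (nat_lit 302759) (nat_lit 46826021) (nat_lit 2482109) [(nat_lit 302759), (nat_lit 0), (nat_lit 3098484), (nat_lit 7048339)]) (PF.cons PF.nil PF.nil)))) (PF.cons (PF.cons (PF.leaf (nat_lit 6232762) (nat_lit 1286044) (nat_lit 46146970) (nat_lit 2493635) [(nat_lit 0), (nat_lit 1286044),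 (nat_lit 3108796), (nat_lit 7036682)]) (PF.cons (PF.leaf (nat_lit 6442957) (nat_lit 311277) (nat_lit 45823237) (nat_lit 2501157) [(nat_lit 311277), (nat_lit 1294027), (nat_lit 3115443), (nat_lit 7031835)]) PF.nil)) (PF.cons
 PF.nil PF.nil))) (PF.cons (PF.cons (PF.cons (PF.leaf (nat_lit 6764686) (nat_lit 2504033) (nat_lit 44412103) (nat_lit 2504033) [(nat_lit 0), (nat_lit 0), (nat_lit 3114648), (nat_lit 6981689)]) (PF.cons PF.nil PF.nil)) (PF.cons PF.nil PF.nil)) PF.nil))) (PF.cons (PF.cons (PF.cons (PF.cons (PF.leaf (nat_lit 6333119) (nat_lit 2451464) (nat_lit 43945586) (nat_lit 2451464) [(nat_lit 0), (nat_lit 0), (nat_lit 0), (nat_lit 6903920)]) (PF.cons (PF.leaf (nat_lit 6526929) (nat_lit 297992) (nat_lit 43661467) (nat_lit 2458001) [(nat_lit 297992), (nat_lit 0), (nat_lit 0), (nat_lit 6897116)]) (PF.cons (PF.leaf (nat_lit 6729003) (nat_lit 303815) (nat_lit 43368619) (nat_lit 2464163) [(nat_lit 303815), (nat_lit 0), (nat_lit 0), (nat_lit 6889466)])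 (PF.cons PF.nil PF.nil)))) (PF.cons (PF.cons (PF.leaf (nat_lit 6934886) (nat_lit 1280572) (nat_lit 42754891) (nat_lit 2469958) [(nat_lit 0), (nat_lit 1280572), (nat_lit 0), (nat_lit 6867796)]) (PF.cons PF.nil PF.nil)) (PF.cons PF.nil PF.nil))) (PF.cons (PF.cons (PF.cons (PF.leaf (nat_lit 7429739) (nat_lit 2468597) (nat_lit 41198277) (nat_lit 2468597) [(nat_lit 0), (nat_lit 0), (nat_lit 3063955), (nat_lit 6792660)]) (PF.cons PF.nil PF.nil)) PF.nil)
 PF.nil)) (PF.cons PF.nil (PF.cons PF.nil (PF.cons PF.nil (PF.cons PF.nil PF.nil))))))))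

def p15_8_0_0 : pfC (piC [(nat_lit 44228488), (nat_lit 27646207), (nat_lit 20402210), (nat_lit 13743659)] (nat_lit 27488723)) p15_8_0 (nat_lit 4) (nat_lit 0) (nat_lit 1) = true := by decide +kernel
def p15_8_0_1 : pfC (piC [(nat_lit 44228488), (nat_lit 27646207), (nat_lit 20402210), (nat_lit 13743659)] (nat_lit 27488723)) p15_8_0 (nat_lit 4) (nat_lit 1) (nat_lit 2) = true := by decide +kernel
def p15_8_0_2 : pfC (piC [(nat_lit 44228488), (nat_lit 27646207), (nat_lit 20402210), (nat_lit 13743659)] (nat_lit 27488723)) p15_8_0 (nat_lit 4) (nat_lit 2) (nat_lit 3) = true := by decide +kernel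
def p15_8_0_3 : pfC (piC [(nat_lit 44228488), (nat_lit 27646207), (nat_lit 20402210), (nat_lit 13743659)] (nat_lit 27488723)) p15_8_0 (nat_lit 4) (nat_lit 3) (nat_lit 4) = true := by decide +kernel
def p15_8_0_4 : pfC (piC [(nat_lit 44228488), (nat_lit 27646207), (nat_lit 20402210), (nat_lit 13743659)] (nat_lit 27488723)) p15_8_0 (nat_lit 4) (nat_lit 4) (nat_lit 5) = true := by decide +kernel
def p15_8_0_5 : pfC (piC [(nat_lit 44228488), (nat_lit 27646207), (nat_lit 20402210), (nat_lit 13743659)] (nat_lit 27488723)) p15_8_0 (nat_lit 4) (nat_lit 5) (nat_lit 6) = true := by decide +kernel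
def p15_8_0_6 : pfC (piC [(nat_lit 44228488), (nat_lit 27646207), (nat_lit 20402210), (nat_lit 13743659)] (nat_lit 27488723)) p15_8_0 (nat_lit 4) (nat_lit 6) (nat_lit 7) = true := by decide +kernel
def p15_8_0_7 : pfC (piC [(nat_lit 44228488), (nat_lit 27646207), (nat_lit 20402210), (nat_lit 13743659)] (nat_lit 27488723)) p15_8_0 (nat_lit 4) (nat_lit 7) (nat_lit 8) = true := by decide +kernel
def p15_8_0_8 : pfC (piC [(nat_lit 44228488), (nat_lit 27646207), (nat_lit 20402210), (nat_lit 13743659)] (nat_lit 27488723)) p15_8_0 (nat_lit 4) (nat_lit 8) (nat_lit 9) = true := by decide +kernel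
def p15_8_0_9 : pfC (piC [(nat_lit 44228488), (nat_lit 27646207), (nat_lit 20402210), (nat_lit 13743659)] (nat_lit 27488723)) p15_8_0 (nat_lit 4) (nat_lit 9) (nat_lit 10) = true := by decide +kernel
def p15_8_0_10 : pfC (piC [(nat_lit 44228488), (nat_lit 27646207), (nat_lit 20402210), (nat_lit 13743659)] (nat_lit 27488723)) p15_8_0 (nat_lit 4) (nat_lit 10) (nat_lit 11) = true := by decide +kernel
def p15_8_0_11 : pfC (piC [(nat_lit 44228488), (nat_lit 27646207), (nat_lit 20402210), (nat_lit 13743659)] (nat_lit 27488723)) p15_8_0 (nat_lit 4) (nat_lit 11) (nat_lit 12) = true := by decide +kernel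
def p15_8_0_12 : pfC (piC [(nat_lit 44228488), (nat_lit 27646207), (nat_lit 20402210), (nat_lit 13743659)] (nat_lit 27488723)) p15_8_0 (nat_lit 4) (nat_lit 12) (nat_lit 13) = true := by decide +kernel
def p15_8_0_13 : pfC (piC [(nat_lit 44228488), (nat_lit 27646207), (nat_lit 20402210), (nat_lit 13743659)] (nat_lit 27488723)) p15_8_0 (nat_lit 4) (nat_lit 13) (nat_lit 14) = true := by decide +kernel
def p15_8_0_14 : pfC (piC [(nat_lit 44228488), (nat_lit 27646207), (nat_lit 20402210), (nat_lit 13743659)] (nat_lit 27488723)) p15_8_0 (nat_lit 4) (nat_lit 14) (nat_lit 15) = true := by decide +kernel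
def p15_8_0_15 : pfC (piC [(nat_lit 44228488), (nat_lit 27646207), (nat_lit 20402210), (nat_lit 13743659)] (nat_lit 27488723)) p15_8_0 (nat_lit 4) (nat_lit 15) (nat_lit 16) = true := by decide +kernel
def p15_8_0_16 : pfC (piC [(nat_lit 44228488), (nat_lit 27646207), (nat_lit 20402210), (nat_lit 13743659)] (nat_lit 27488723)) p15_8_0 (nat_lit 4) (nat_lit 16) (nat_lit 17) = true := by decide +kernel
def p15_8_0_17 : pfC (piC [(nat_lit 44228488), (nat_lit 27646207), (nat_lit 20402210), (nat_lit 13743659)] (nat_lit 27488723)) p15_8_0 (nat_lit 4) (nat_lit 17) (nat_lit 18) = true := by decide +kernel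
def p15_8_0_18 : pfC (piC [(nat_lit 44228488), (nat_lit 27646207), (nat_lit 20402210), (nat_lit 13743659)] (nat_lit 27488723)) p15_8_0 (nat_lit 4) (nat_lit 18) (nat_lit 19) = true := by decide +kernel
def p15_8_0_19 : pfC (piC [(nat_lit 44228488), (nat_lit 27646207), (nat_lit 20402210), (nat_lit 13743659)] (nat_lit 27488723)) p15_8_0 (nat_lit 4) (nat_lit 19) (nat_lit 20) = true := by decide +kernel
def p15_8_0_20 : pfC (piC [(nat_lit 44228488), (nat_lit 27646207), (nat_lit 20402210), (nat_lit 13743659)] (nat_lit 27488723)) p15_8_0 (nat_lit 4) (nat_lit 20) (nat_lit 21) = true := by decide +kernel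
def p15_8_0_21 : pfC (piC [(nat_lit 44228488), (nat_lit 27646207), (nat_lit 20402210), (nat_lit 13743659)] (nat_lit 27488723)) p15_8_0 (nat_lit 4) (nat_lit 21) (nat_lit 22) = true := by decide +kernel
def p15_8_0_22 : pfC (piC [(nat_lit 44228488), (nat_lit 27646207), (nat_lit 20402210), (nat_lit 13743659)] (nat_lit 27488723)) p15_8_0 (nat_lit 4) (nat_lit 22) (nat_lit 23) = true := by decide +kernel
def p15_8_0_23 : pfC (piC [(nat_lit 44228488), (nat_lit 27646207), (nat_lit 20402210), (nat_lit 13743659)] (nat_lit 27488723)) p15_8_0 (nat_lit 4) (nat_lit 23) (nat_lit 24) = true := by decide +kernel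
def p15_8_0_24 : pfC (piC [(nat_lit 44228488), (nat_lit 27646207), (nat_lit 20402210), (nat_lit 13743659)] (nat_lit 27488723)) p15_8_0 (nat_lit 4) (nat_lit 24) (nat_lit 25) = true := by decide +kernel
def p15_8_0_25 : pfC (piC [(nat_lit 44228488), (nat_lit 27646207), (nat_lit 20402210), (nat_lit 13743659)] (nat_lit 27488723)) p15_8_0 (nat_lit 4) (nat_lit 25) (nat_lit 26) = true := by decide +kernel
def p15_8_0_26 : pfC (piC [(nat_lit 44228488), (nat_lit 27646207), (nat_lit 20402210), (nat_lit 13743659)] (nat_lit 27488723)) p15_8_0 (nat_lit 4) (nat_lit 26) (nat_lit 27) = true := by decide +kernel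
def p15_8_0_27 : pfC (piC [(nat_lit 44228488), (nat_lit 27646207), (nat_lit 20402210), (nat_lit 13743659)] (nat_lit 27488723)) p15_8_0 (nat_lit 4) (nat_lit 27) (nat_lit 28) = true := by decide +kernel
def p15_8_0_28 : pfC (piC [(nat_lit 44228488), (nat_lit 27646207), (nat_lit 20402210), (nat_lit 13743659)] (nat_lit 27488723)) p15_8_0 (nat_lit 4) (nat_lit 28) (nat_lit 29) = true := by decide +kernel
def p15_8_0_29 : pfC (piC [(nat_lit 44228488), (nat_lit 27646207), (nat_lit 20402210), (nat_lit 13743659)] (nat_lit 27488723)) p15_8_0 (nat_lit 4) (nat_lit 29) (nat_lit 30) = true := by decide +kernel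
def p15_8_0_30 : pfC (piC [(nat_lit 44228488), (nat_lit 27646207), (nat_lit 20402210), (nat_lit 13743659)] (nat_lit 27488723)) p15_8_0 (nat_lit 4) (nat_lit 30) (nat_lit 31) = true := by decide +kernel
def p15_8_0_31 : pfC (piC [(nat_lit 44228488), (nat_lit 27646207), (nat_lit 20402210), (nat_lit 13743659)] (nat_lit 27488723)) p15_8_0 (nat_lit 4) (nat_lit 31) (nat_lit 32) = true := by decide +kernel
def p15_8_0_32 : pfC (piC [(nat_lit 44228488), (nat_lit 27646207), (nat_lit 20402210), (nat_lit 13743659)] (nat_lit 27488723)) p15_8_0 (nat_lit 4) (nat_lit 32) (nat_lit 33) = true := by decide +kernel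
def p15_8_0_33 : pfC (piC [(nat_lit 44228488), (nat_lit 27646207), (nat_lit 20402210), (nat_lit 13743659)] (nat_lit 27488723)) p15_8_0 (nat_lit 4) (nat_lit 33) (nat_lit 34) = true := by decide +kernel
def p15_8_0_34 : pfC (piC [(nat_lit 44228488), (nat_lit 27646207), (nat_lit 20402210), (nat_lit 13743659)] (nat_lit 27488723)) p15_8_0 (nat_lit 4) (nat_lit 34) (nat_lit 35) = true := by decide +kernel
def p15_8_0_35 : pfC (piC [(nat_lit 44228488), (nat_lit 27646207), (nat_lit 20402210), (nat_lit 13743659)] (nat_lit 27488723)) p15_8_0 (nat_lit 4) (nat_lit 35) (nat_lit 36) = true := by decide +kernel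
def p15_8_0_36 : pfC (piC [(nat_lit 44228488), (nat_lit 27646207), (nat_lit 20402210), (nat_lit 13743659)] (nat_lit 27488723)) p15_8_0 (nat_lit 4) (nat_lit 36) (nat_lit 37) = true := by decide +kernel
def p15_8_0_37 : pfC (piC [(nat_lit 44228488), (nat_lit 27646207), (nat_lit 20402210), (nat_lit 13743659)] (nat_lit 27488723)) p15_8_0 (nat_lit 4) (nat_lit 37) (nat_lit 38) = true := by decide +kernel
def p15_8_0_38 : pfC (piC [(nat_lit 44228488), (nat_lit 27646207), (nat_lit 20402210), (nat_lit 13743659)] (nat_lit 27488723)) p15_8_0 (nat_lit 4) (nat_lit 38) (nat_lit 39) = true := by decide +kernel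
def p15_8_0_39 : pfC (piC [(nat_lit 44228488), (nat_lit 27646207), (nat_lit 20402210), (nat_lit 13743659)] (nat_lit 27488723)) p15_8_0 (nat_lit 4) (nat_lit 39) (nat_lit 40) = true := by decide +kernel
def p15_8_0_40 : pfC (piC [(nat_lit 44228488), (nat_lit 27646207), (nat_lit 20402210), (nat_lit 13743659)] (nat_lit 27488723)) p15_8_0 (nat_lit 4) (nat_lit 40) (nat_lit 41) = true := by decide +kernel
def p15_8_0_41 : pfC (piC [(nat_lit 44228488), (nat_lit 27646207), (nat_lit 20402210), (nat_lit 13743659)] (nat_lit 27488723)) p15_8_0 (nat_lit 4) (nat_lit 41) (nat_lit 42) = true := by decide +kernel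
def p15_8_0_42 : pfC (piC [(nat_lit 44228488), (nat_lit 27646207), (nat_lit 20402210), (nat_lit 13743659)] (nat_lit 27488723)) p15_8_0 (nat_lit 4) (nat_lit 42) (nat_lit 43) = true := by decide +kernel
def p15_8_0_43 : pfC (piC [(nat_lit 44228488), (nat_lit 27646207), (nat_lit 20402210), (nat_lit 13743659)] (nat_lit 27488723)) p15_8_0 (nat_lit 4) (nat_lit 43) (nat_lit 44) = true := by decide +kernel
def p15_8_0_44 : pfC (piC [(nat_lit 44228488), (nat_lit 27646207), (nat_lit 20402210), (nat_lit 13743659)] (nat_lit 27488723)) p15_8_0 (nat_lit 4) (nat_lit 44) (nat_lit 45) = true := by decide +kernel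
def p15_8_0_45 : pfC (piC [(nat_lit 44228488), (nat_lit 27646207), (nat_lit 20402210), (nat_lit 13743659)] (nat_lit 27488723)) p15_8_0 (nat_lit 4) (nat_lit 45) (nat_lit 46) = true := by decide +kernel
def p15_8_0_46 : pfC (piC [(nat_lit 44228488), (nat_lit 27646207), (nat_lit 20402210), (nat_lit 13743659)] (nat_lit 27488723)) p15_8_0 (nat_lit 4) (nat_lit 46) (nat_lit 47) = true := by decide +kernel
def p15_8_0_47 : pfC (piC [(nat_lit 44228488), (nat_lit 27646207), (nat_lit 20402210), (nat_lit 13743659)] (nat_lit 27488723)) p15_8_0 (nat_lit 4) (nat_lit 47) (nat_lit 48) = true := by decide +kernel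
def p15_8_0_48 : pfC (piC [(nat_lit 44228488), (nat_lit 27646207), (nat_lit 20402210), (nat_lit 13743659)] (nat_lit 27488723)) p15_8_0 (nat_lit 4) (nat_lit 48) (nat_lit 49) = true := by decide +kernel
def p15_8_0_49 : pfC (piC [(nat_lit 44228488), (nat_lit 27646207), (nat_lit 20402210), (nat_lit 13743659)] (nat_lit 27488723)) p15_8_0 (nat_lit 4) (nat_lit 49) (nat_lit 50) = true := by decide +kernel
def p15_8_0_50 : pfC (piC [(nat_lit 44228488), (nat_lit 27646207), (nat_lit 20402210), (nat_lit 13743659)] (nat_lit 27488723)) p15_8_0 (nat_lit 4) (nat_lit 50) (nat_lit 51) = true := by decide +kernel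
def p15_8_0_51 : pfC (piC [(nat_lit 44228488), (nat_lit 27646207), (nat_lit 20402210), (nat_lit 13743659)] (nat_lit 27488723)) p15_8_0 (nat_lit 4) (nat_lit 51) (nat_lit 52) = true := by decide +kernel
def p15_8_0_52 : pfC (piC [(nat_lit 44228488), (nat_lit 27646207), (nat_lit 20402210), (nat_lit 13743659)] (nat_lit 27488723)) p15_8_0 (nat_lit 4) (nat_lit 52) (nat_lit 53) = true := by decide +kernel
def p15_8_0_53 : pfC (piC [(nat_lit 44228488), (nat_lit 27646207), (nat_lit 20402210), (nat_lit 13743659)] (nat_lit 27488723)) p15_8_0 (nat_lit 4) (nat_lit 53) (nat_lit 54) = true := by decide +kernel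
def p15_8_0_54 : pfC (piC [(nat_lit 44228488), (nat_lit 27646207), (nat_lit 20402210), (nat_lit 13743659)] (nat_lit 27488723)) p15_8_0 (nat_lit 4) (nat_lit 54) (nat_lit 55) = true := by decide +kernel
def p15_8_0_55 : pfC (piC [(nat_lit 44228488), (nat_lit 27646207), (nat_lit 20402210), (nat_lit 13743659)] (nat_lit 27488723)) p15_8_0 (nat_lit 4) (nat_lit 55) (nat_lit 56) = true := by decide +kernel
def p15_8_0_56 : pfC (piC [(nat_lit 44228488), (nat_lit 27646207), (nat_lit 20402210), (nat_lit 13743659)] (nat_lit 27488723)) p15_8_0 (nat_lit 4) (nat_lit 56) (nat_lit 57) = true := by decide +kernel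
def p15_8_0_57 : pfC (piC [(nat_lit 44228488), (nat_lit 27646207), (nat_lit 20402210), (nat_lit 13743659)] (nat_lit 27488723)) p15_8_0 (nat_lit 4) (nat_lit 57) (nat_lit 58) = true := by decide +kernel
def p15_8_0_58 : pfC (piC [(nat_lit 44228488), (nat_lit 27646207), (nat_lit 20402210), (nat_lit 13743659)] (nat_lit 27488723)) p15_8_0 (nat_lit 4) (nat_lit 58) (nat_lit 59) = true := by decide +kernel
def p15_8_0_59 : pfC (piC [(nat_lit 44228488), (nat_lit 27646207), (nat_lit 20402210), (nat_lit 13743659)] (nat_lit 27488723)) p15_8_0 (nat_lit 4) (nat_lit 59) (nat_lit 60) = true := by decide +kernel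
def p15_8_0_60 : pfC (piC [(nat_lit 44228488), (nat_lit 27646207), (nat_lit 20402210), (nat_lit 13743659)] (nat_lit 27488723)) p15_8_0 (nat_lit 4) (nat_lit 60) (nat_lit 61) = true := by decide +kernel
def p15_8_0_61 : pfC (piC [(nat_lit 44228488), (nat_lit 27646207), (nat_lit 20402210), (nat_lit 13743659)] (nat_lit 27488723)) p15_8_0 (nat_lit 4) (nat_lit 61) (nat_lit 62) = true := by decide +kernel
def p15_8_0_62 : pfC (piC [(nat_lit 44228488), (nat_lit 27646207), (nat_lit 20402210), (nat_lit 13743659)] (nat_lit 27488723)) p15_8_0 (nat_lit 4) (nat_lit 62) (nat_lit 63) = true := by decide +kernel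
def p15_8_0_63 : pfC (piC [(nat_lit 44228488), (nat_lit 27646207), (nat_lit 20402210), (nat_lit 13743659)] (nat_lit 27488723)) p15_8_0 (nat_lit 4) (nat_lit 63) (nat_lit 64) = true := by decide +kernel
def p15_8_0_64 : pfC (piC [(nat_lit 44228488), (nat_lit 27646207), (nat_lit 20402210), (nat_lit 13743659)] (nat_lit 27488723)) p15_8_0 (nat_lit 4) (nat_lit 64) (nat_lit 65) = true := by decide +kernel
def p15_8_0_65 : pfC (piC [(nat_lit 44228488), (nat_lit 27646207), (nat_lit 20402210), (nat_lit 13743659)] (nat_lit 27488723)) p15_8_0 (nat_lit 4) (nat_lit 65) (nat_lit 66) = true := by decide +kernel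
def p15_8_0_66 : pfC (piC [(nat_lit 44228488), (nat_lit 27646207), (nat_lit 20402210), (nat_lit 13743659)] (nat_lit 27488723)) p15_8_0 (nat_lit 4) (nat_lit 66) (nat_lit 67) = true := by decide +kernel
def p15_8_0_67 : pfC (piC [(nat_lit 44228488), (nat_lit 27646207), (nat_lit 20402210), (nat_lit 13743659)] (nat_lit 27488723)) p15_8_0 (nat_lit 4) (nat_lit 67) (nat_lit 68) = true := by decide +kernel
def p15_8_0_68 : pfC (piC [(nat_lit 44228488), (nat_lit 27646207), (nat_lit 20402210), (nat_lit 13743659)] (nat_lit 27488723)) p15_8_0 (nat_lit 4) (nat_lit 68) (nat_lit 69) = true := by decide +kernel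
def p15_8_0_69 : pfC (piC [(nat_lit 44228488), (nat_lit 27646207), (nat_lit 20402210), (nat_lit 13743659)] (nat_lit 27488723)) p15_8_0 (nat_lit 4) (nat_lit 69) (nat_lit 70) = true := by decide +kernel
def p15_8_0_70 : pfC (piC [(nat_lit 44228488), (nat_lit 27646207), (nat_lit 20402210), (nat_lit 13743659)] (nat_lit 27488723)) p15_8_0 (nat_lit 4) (nat_lit 70) (nat_lit 71) = true := by decide +kernel
def p15_8_0_71 : pfC (piC [(nat_lit 44228488), (nat_lit 27646207), (nat_lit 20402210), (nat_lit 13743659)] (nat_lit 27488723)) p15_8_0 (nat_lit 4) (nat_lit 71) (nat_lit 72) = true := by decide +kernel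
def p15_8_0_72 : pfC (piC [(nat_lit 44228488), (nat_lit 27646207), (nat_lit 20402210), (nat_lit 13743659)] (nat_lit 27488723)) p15_8_0 (nat_lit 4) (nat_lit 72) (nat_lit 73) = true := by decide +kernel
def p15_8_0_73 : pfC (piC [(nat_lit 44228488), (nat_lit 27646207), (nat_lit 20402210), (nat_lit 13743659)] (nat_lit 27488723)) p15_8_0 (nat_lit 4) (nat_lit 73) (nat_lit 74) = true := by decide +kernel
def p15_8_0_74 : pfC (piC [(nat_lit 44228488), (nat_lit 27646207), (nat_lit 20402210), (nat_lit 13743659)] (nat_lit 27488723)) p15_8_0 (nat_lit 4) (nat_lit 74) (nat_lit 75) = true := by decide +kernel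
def p15_8_0_75 : pfC (piC [(nat_lit 44228488), (nat_lit 27646207), (nat_lit 20402210), (nat_lit 13743659)] (nat_lit 27488723)) p15_8_0 (nat_lit 4) (nat_lit 75) (nat_lit 76) = true := by decide +kernel
def p15_8_0_76 : pfC (piC [(nat_lit 44228488), (nat_lit 27646207), (nat_lit 20402210), (nat_lit 13743659)] (nat_lit 27488723)) p15_8_0 (nat_lit 4) (nat_lit 76) (nat_lit 77) = true := by decide +kernel
def p15_8_0_77 : pfC (piC [(nat_lit 44228488), (nat_lit 27646207), (nat_lit 20402210), (nat_lit 13743659)] (nat_lit 27488723)) p15_8_0 (nat_lit 4) (nat_lit 77) (nat_lit 78) = true := by decide +kernel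
def p15_8_0_78 : pfC (piC [(nat_lit 44228488), (nat_lit 27646207), (nat_lit 20402210), (nat_lit 13743659)] (nat_lit 27488723)) p15_8_0 (nat_lit 4) (nat_lit 78) (nat_lit 79) = true := by decide +kernel
def p15_8_0_79 : pfC (piC [(nat_lit 44228488), (nat_lit 27646207), (nat_lit 20402210), (nat_lit 13743659)] (nat_lit 27488723)) p15_8_0 (nat_lit 4) (nat_lit 79) (nat_lit 80) = true := by decide +kernel
def p15_8_0_80 : pfC (piC [(nat_lit 44228488), (nat_lit 27646207), (nat_lit 20402210), (nat_lit 13743659)] (nat_lit 27488723)) p15_8_0 (nat_lit 4) (nat_lit 80) (nat_lit 81) = true := by decide +kernel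
theorem p15_8_0_T : PfS (PiF n15_8.reverse (nat_lit 27488723)) p15_8_0 (nat_lit 4) [] 0 :=
  pftab_of (los := [(nat_lit 44228488), (nat_lit 27646207), (nat_lit 20402210), (nat_lit 13743659)]) (by decide +kernel) (hi := (nat_lit 81)) (PfP.trans (PfP.trans (PfP.trans (PfP.trans (PfP.trans (PfP.trans (PfP.trans (PfP.trans (PfP.trans (PfP.trans (PfP.trans (PfP.trans (PfP.trans (PfP.trans (PfP.trans (PfP.trans (PfP.trans (PfP.trans (PfP.trans (PfP.trans (PfP.trans (PfP.trans (PfP.trans (PfP.trans (PfP.trans (PfP.trans (PfP.trans (PfP.trans (PfP.trans (PfP.trans (PfP.trans (PfP.trans (PfP.trans (PfP.trans (PfP.trans (PfP.trans (PfP.trans (PfP.trans (PfP.trans (PfP.trans (PfP.trans (PfP.trans (PfP.trans (PfP.trans (PfP.trans (PfP.trans (PfP.trans (PfP.trans (PfP.trans (PfP.trans (PfP.trans (PfP.trans (PfP.trans (PfP.trans (PfP.trans (PfP.trans (PfP.trans (PfP.trans (PfP.trans (PfP.trans (PfP.trans (PfP.trans (PfP.trans (PfP.trans (PfP.trans (PfP.trans (PfP.trans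 (PfP.trans (PfP.trans (PfP.trans (PfP.trans (PfP.trans (PfP.trans (PfP.trans (PfP.trans (PfP.trans (PfP.trans (PfP.trans (PfP.trans (PfP.trans (pfC_sound p15_8_0_0) (pfC_sound p15_8_0_1)) (pfC_sound p15_8_0_2)) (pfC_sound p15_8_0_3)) (pfC_sound p15_8_0_4)) (pfC_sound p15_8_0_5)) (pfC_sound p15_8_0_6)) (pfC_sound p15_8_0_7)) (pfC_sound p15_8_0_8)) (pfC_sound p15_8_0_9)) (pfC_sound p15_8_0_10)) (pfC_sound p15_8_0_11)) (pfC_sound p15_8_0_12)) (pfC_sound
 p15_8_0_13)) (pfC_sound p15_8_0_14)) (pfC_sound p15_8_0_15)) (pfC_sound p15_8_0_16)) (pfC_sound p15_8_0_17)) (pfC_sound p15_8_0_18)) (pfC_sound p15_8_0_19)) (pfC_sound p15_8_0_20)) (pfC_sound p15_8_0_21)) (pfC_sound p15_8_0_22)) (pfC_sound p15_8_0_23)) (pfC_sound p15_8_0_24)) (pfC_sound p15_8_0_25)) (pfC_sound p15_8_0_26)) (pfC_sound p15_8_0_27)) (pfC_sound p15_8_0_28)) (pfC_sound p15_8_0_29)) (pfC_sound p15_8_0_30)) (pfC_sound p15_8_0_31)) (pfC_sound p15_8_0_32)) (pfC_sound p15_8_0_33)) (pfC_sound p15_8_0_34))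 (pfC_sound p15_8_0_35)) (pfC_sound p15_8_0_36)) (pfC_sound p15_8_0_37)) (pfC_sound p15_8_0_38)) (pfC_sound p15_8_0_39)) (pfC_sound p15_8_0_40)) (pfC_sound p15_8_0_41)) (pfC_sound p15_8_0_42)) (pfC_sound p15_8_0_43)) (pfC_sound p15_8_0_44)) (pfC_sound p15_8_0_45)) (pfC_sound p15_8_0_46)) (pfC_sound p15_8_0_47)) (pfC_sound p15_8_0_48)) (pfC_sound p15_8_0_49)) (pfC_sound p15_8_0_50)) (pfC_sound p15_8_0_51)) (pfC_sound p15_8_0_52)) (pfC_sound p15_8_0_53)) (pfC_sound p15_8_0_54)) (pfC_sound p15_8_0_55)) (pfC_sound p15_8_0_56)) (pfC_sound p15_8_0_57)) (pfC_sound p15_8_0_58)) (pfC_sound p15_8_0_59)) (pfC_sound p15_8_0_60)) (pfC_sound p15_8_0_61)) (pfC_sound p15_8_0_62)) (pfC_sound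
 p15_8_0_63)) (pfC_sound p15_8_0_64)) (pfC_sound p15_8_0_65)) (pfC_sound p15_8_0_66)) (pfC_sound p15_8_0_67)) (pfC_sound p15_8_0_68)) (pfC_sound p15_8_0_69)) (pfC_sound p15_8_0_70)) (pfC_sound p15_8_0_71)) (pfC_sound p15_8_0_72)) (pfC_sound p15_8_0_73)) (pfC_sound p15_8_0_74)) (pfC_sound p15_8_0_75)) (pfC_sound p15_8_0_76)) (pfC_sound p15_8_0_77)) (pfC_sound p15_8_0_78)) (pfC_sound p15_8_0_79)) (pfC_sound p15_8_0_80)) (by decide +kernel)

def z15_8_0 : zOK yB15_8 (nat_lit 0) (nat_lit 0) (nat_lit 400) (nat_lit 27488723) (nat_lit 10051221) = true := by decide +kernel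
def g15_8_0 : gOK yB15_8.x P15_8 (nat_lit 1428) (q15_8 :: r15_8) (nat_lit 0) (nat_lit 0) (nat_lit 1) (nat_lit 400) (nat_lit 0) (nat_lit 11000000) (nat_lit 12712500) (nat_lit 12712500) [(nat_lit 800), (nat_lit 1400), (nat_lit 1530)] = true := by decide +kernel
def v15_8_0 : ivC P15_8 s15_8 w15_8 n15_8 (nat_lit 4) (nat_lit 5520) (nat_lit 0) (nat_lit 0) f136_1_0 f144_1_0 (nat_lit 1) (nat_lit 400) f136_1_400 f144_1_400 (nat_lit 27488723) (nat_lit 10051221) p15_8_0 = true := by decide +kernel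
def p15_8_1 : PF := (PF.cons (PF.cons (PF.cons (PF.cons (PF.leaf (nat_lit 2199574) (nat_lit 10747343) (nat_lit 56361469) (nat_lit 10747343) [(nat_lit 0), (nat_lit 0), (nat_lit 0), (nat_lit 0)]) (PF.cons (PF.leaf (nat_lit 2300499) (nat_lit 162804) (nat_lit 56188289) (nat_lit 10757718) [(nat_lit 162804), (nat_lit 0), (nat_lit 0), (nat_lit 0)]) (PF.cons (PF.leaf (nat_lit 2424416) (nat_lit 177356) (nat_lit 55984866) (nat_lit 10769233) [(nat_lit 177356), (nat_lit 0), (nat_lit 0), (nat_lit 0)]) (PF.cons (PF.leaf (nat_lit 2563880) (nat_lit 190404) (nat_lit 55756268) (nat_lit 10781332) [(nat_lit 190404), (nat_lit 0), (nat_lit 0), (nat_lit 0)]) (PF.cons (PF.leaf (nat_lit 2716763) (nat_lit 202302) (nat_lit 55506015) (nat_lit 10793585) [(nat_lit 202302), (nat_lit 0), (nat_lit 0), (nat_lit 0)]) (PF.cons PF.nil (PF.cons PF.nil PF.nil))))))) (PF.cons (PF.cons (PF.leaf (nat_lit 2652826) (nat_lit 978577) (nat_lit 55332754) (nat_lit 10797480) [(nat_lit 0), (nat_lit 978577),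 (nat_lit 0), (nat_lit 0)]) (PF.cons (PF.leaf (nat_lit 2789954) (nat_lit 202057) (nat_lit 55099542) (nat_lit 10807298) [(nat_lit 202057), (nat_lit 999914), (nat_lit 0), (nat_lit 0)]) (PF.cons (PF.leaf (nat_lit 2944216) (nat_lit 213424) (nat_lit
 54843469) (nat_lit 10817116) [(nat_lit 213424), (nat_lit 1021377), (nat_lit 0), (nat_lit 0)]) (PF.cons (PF.leaf (nat_lit 3110870) (nat_lit 223858) (nat_lit 54568063) (nat_lit 10826578) [(nat_lit 223858), (nat_lit 1042596), (nat_lit 0), (nat_lit 0)]) (PF.cons PF.nil PF.nil))))) (PF.cons (PF.cons (PF.leaf (nat_lit 3178294) (nat_lit 1058176) (nat_lit 54157929) (nat_lit 10834529) [(nat_lit 0), (nat_lit 1058176), (nat_lit 0), (nat_lit 0)]) (PF.cons (PF.leaf (nat_lit 3343147) (nat_lit 233088) (nat_lit 53880389) (nat_lit 10841283) [(nat_lit 233088), (nat_lit 1077025), (nat_lit 0), (nat_lit 0)]) (PF.cons PF.nil (PF.cons PF.nil PF.nil)))) (PF.cons (PF.cons (PF.leaf (nat_lit 3758235) (nat_lit 1124903) (nat_lit 52881253)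 (nat_lit 10852848) [(nat_lit 0), (nat_lit 1124903), (nat_lit 0), (nat_lit 0)]) (PF.cons PF.nil PF.nil)) (PF.cons PF.nil PF.nil))))) (PF.cons (PF.cons (PF.cons (PF.leaf (nat_lit 3198532) (nat_lit 2802466) (nat_lit 53480787) (nat_lit 10825559) [(nat_lit 0), (nat_lit 0), (nat_lit 2802466), (nat_lit 0)]) (PF.cons (PF.leaf (nat_lit 3345000) (nat_lit 220760) (nat_lit 53235573) (nat_lit 10829587) [(nat_lit 220760), (nat_lit 0), (nat_lit 2822891), (nat_lit 0)]) (PF.cons (PF.leaf
 (nat_lit 3507987) (nat_lit 231732) (nat_lit 52968249) (nat_lit 10833069) [(nat_lit 231732), (nat_lit 0), (nat_lit 2844028), (nat_lit 0)]) (PF.cons PF.nil PF.nil)))) (PF.cons (PF.cons (PF.leaf (nat_lit 3743154) (nat_lit 1117475) (nat_lit 52271456) (nat_lit 10833852) [(nat_lit 0), (nat_lit 1117475), (nat_lit 2886028), (nat_lit 0)]) (PF.cons (PF.leaf (nat_lit 3915186) (nat_lit 249174) (nat_lit 51986917) (nat_lit 10834042) [(nat_lit 249174), (nat_lit 1133680), (nat_lit 2904997), (nat_lit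 0)]) PF.nil)) (PF.cons PF.nil PF.nil))) (PF.cons (PF.cons (PF.cons (PF.leaf (nat_lit 4303363) (nat_lit 2955919) (nat_lit 50403558) (nat_lit 10793414) [(nat_lit 0), (nat_lit 0), (nat_lit 2955919), (nat_lit 0)]) (PF.cons (PF.leaf (nat_lit 4480578) (nat_lit 262375) (nat_lit 50116757) (nat_lit 10787697) [(nat_lit 262375), (nat_lit 0), (nat_lit 2970990), (nat_lit 0)]) PF.nil)) (PF.cons PF.nil PF.nil)) (PF.cons PF.nil (PF.cons PF.nil PF.nil))))) (PF.cons (PF.cons (PF.cons (PF.cons (PF.leaf (nat_lit 4013037) (nat_lit 6896794) (nat_lit 49534109) (nat_lit 10677909) [(nat_lit 0), (nat_lit 0), (nat_lit 0), (nat_lit 6896794)]) (PF.cons (PF.leaf (nat_lit 4162160) (nat_lit 232361) (nat_lit 49299963) (nat_lit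
 10672855) [(nat_lit 232361), (nat_lit 0), (nat_lit 0), (nat_lit 6903631)]) (PF.cons (PF.leaf (nat_lit 4326911) (nat_lit 243116) (nat_lit 49045575) (nat_lit 10666665) [(nat_lit 243116), (nat_lit 0), (nat_lit 0), (nat_lit 6910339)]) (PF.cons (PF.leaf (nat_lit 4503120) (nat_lit 252697) (nat_lit 48774750) (nat_lit 10659288) [(nat_lit 252697), (nat_lit 0), (nat_lit 0), (nat_lit 6916683)]) (PF.cons PF.nil PF.nil))))) (PF.cons (PF.cons (PF.leaf (nat_lit 4553574) (nat_lit 1154213) (nat_lit 48391141) (nat_lit 10643843) [(nat_lit 0), (nat_lit 1154213), (nat_lit 0), (nat_lit 6919614)]) (PF.cons (PF.leaf (nat_lit 4725969) (nat_lit 258803) (nat_lit 48123237) (nat_lit 10634669) [(nat_lit 258803), (nat_lit 1168039), (nat_lit 0), (nat_lit 6924062)]) (PF.cons (PF.leaf (nat_lit 4910285) (nat_lit 267185) (nat_lit 47840820) (nat_lit 10624185) [(nat_lit 267185), (nat_lit 1181480), (nat_lit 0), (nat_lit 6927956)]) (PF.cons PF.nil PF.nil)))) (PF.cons (PF.cons (PF.leaf (nat_lit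 5133615) (nat_lit 1199459) (nat_lit 47187157) (nat_lit 10593240) [(nat_lit 0), (nat_lit 1199459), (nat_lit 0), (nat_lit 6929495)]) (PF.cons PF.nil PF.nil)) (PF.cons PF.nil (PF.cons PF.nil PF.nil))))) (PF.cons (PF.cons (PF.cons
 (PF.leaf (nat_lit 5084516) (nat_lit 2979251) (nat_lit 46668413) (nat_lit 10550885) [(nat_lit 0), (nat_lit 0), (nat_lit 2979251), (nat_lit 6910262)]) (PF.cons (PF.leaf (nat_lit 5260263) (nat_lit 268994) (nat_lit 46401877) (nat_lit 10537408) [(nat_lit 268994), (nat_lit 0), (nat_lit 2989771), (nat_lit 6910761)]) (PF.cons (PF.leaf (nat_lit 5447409) (nat_lit 276895) (nat_lit 46121852) (nat_lit 10522505) [(nat_lit 276895), (nat_lit 0), (nat_lit 3000086), (nat_lit 6910577)]) (PF.cons PF.nil PF.nil)))) (PF.cons (PF.cons (PF.leaf (nat_lit 5665940) (nat_lit 1224783) (nat_lit 45483410) (nat_lit 10482367) [(nat_lit 0), (nat_lit 1224783), (nat_lit 3014872), (nat_lit 6903379)]) (PF.cons PF.nil PF.nil)) (PF.cons PF.nil PF.nil))) (PF.cons (PF.cons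 (PF.cons (PF.leaf (nat_lit 6184326) (nat_lit 3028971) (nat_lit 43839899) (nat_lit 10352321) [(nat_lit 0), (nat_lit 0), (nat_lit 3028971), (nat_lit 6858649)]) (PF.cons PF.nil PF.nil)) (PF.cons PF.nil PF.nil)) PF.nil))) (PF.cons (PF.cons (PF.cons (PF.cons (PF.leaf (nat_lit 5799076) (nat_lit 6776921) (nat_lit 43307625) (nat_lit 10247344) [(nat_lit 0), (nat_lit 0), (nat_lit 0), (nat_lit 6776921)]) (PF.cons (PF.leaf (nat_lit 5972102) (nat_lit 271961)
 (nat_lit 43062680) (nat_lit 10228978) [(nat_lit 271961), (nat_lit 0), (nat_lit 0), (nat_lit 6772596)]) (PF.cons (PF.leaf (nat_lit 6155886) (nat_lit 279462) (nat_lit 42805762) (nat_lit 10209129) [(nat_lit 279462), (nat_lit 0), (nat_lit 0), (nat_lit 6767498)]) (PF.cons PF.nil PF.nil)))) (PF.cons (PF.cons (PF.leaf (nat_lit 6362338) (nat_lit 1224946) (nat_lit 42224519) (nat_lit 10159025) [(nat_lit 0), (nat_lit 1224946), (nat_lit 0), (nat_lit 6750160)]) (PF.cons PF.nil PF.nil)) (PF.cons PF.nil PF.nil))) (PF.cons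 (PF.cons (PF.cons (PF.leaf (nat_lit 6848606) (nat_lit 2988076) (nat_lit 40741350) (nat_lit 10009815) [(nat_lit 0), (nat_lit 0), (nat_lit 2988076), (nat_lit 6684785)]) (PF.cons PF.nil PF.nil)) PF.nil) PF.nil)) (PF.cons PF.nil (PF.cons PF.nil (PF.cons PF.nil PF.nil))))))

def p15_8_1_0 : pfC (piC [(nat_lit 44228488), (nat_lit 27646207), (nat_lit 20402210), (nat_lit 13743659)] (nat_lit 10051221)) p15_8_1 (nat_lit 4) (nat_lit 0) (nat_lit 1) = true := by decide +kernel
def p15_8_1_1 : pfC (piC [(nat_lit 44228488), (nat_lit 27646207), (nat_lit 20402210), (nat_lit 13743659)] (nat_lit 10051221)) p15_8_1 (nat_lit 4) (nat_lit 1) (nat_lit 2) = true := by decide +kernel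
def p15_8_1_2 : pfC (piC [(nat_lit 44228488), (nat_lit 27646207), (nat_lit 20402210), (nat_lit 13743659)] (nat_lit 10051221)) p15_8_1 (nat_lit 4) (nat_lit 2) (nat_lit 3) = true := by decide +kernel
def p15_8_1_3 : pfC (piC [(nat_lit 44228488), (nat_lit 27646207), (nat_lit 20402210), (nat_lit 13743659)] (nat_lit 10051221)) p15_8_1 (nat_lit 4) (nat_lit 3) (nat_lit 4) = true := by decide +kernel
def p15_8_1_4 : pfC (piC [(nat_lit 44228488), (nat_lit 27646207), (nat_lit 20402210), (nat_lit 13743659)] (nat_lit 10051221)) p15_8_1 (nat_lit 4) (nat_lit 4) (nat_lit 5) = true := by decide +kernel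
def p15_8_1_5 : pfC (piC [(nat_lit 44228488), (nat_lit 27646207), (nat_lit 20402210), (nat_lit 13743659)] (nat_lit 10051221)) p15_8_1 (nat_lit 4) (nat_lit 5) (nat_lit 6) = true := by decide +kernel
def p15_8_1_6 : pfC (piC [(nat_lit 44228488), (nat_lit 27646207), (nat_lit 20402210), (nat_lit 13743659)] (nat_lit 10051221)) p15_8_1 (nat_lit 4) (nat_lit 6) (nat_lit 7) = true := by decide +kernel
def p15_8_1_7 : pfC (piC [(nat_lit 44228488), (nat_lit 27646207), (nat_lit 20402210), (nat_lit 13743659)] (nat_lit 10051221)) p15_8_1 (nat_lit 4) (nat_lit 7) (nat_lit 8) = true := by decide +kernel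
def p15_8_1_8 : pfC (piC [(nat_lit 44228488), (nat_lit 27646207), (nat_lit 20402210), (nat_lit 13743659)] (nat_lit 10051221)) p15_8_1 (nat_lit 4) (nat_lit 8) (nat_lit 9) = true := by decide +kernel
def p15_8_1_9 : pfC (piC [(nat_lit 44228488), (nat_lit 27646207), (nat_lit 20402210), (nat_lit 13743659)] (nat_lit 10051221)) p15_8_1 (nat_lit 4) (nat_lit 9) (nat_lit 10) = true := by decide +kernel
def p15_8_1_10 : pfC (piC [(nat_lit 44228488), (nat_lit 27646207), (nat_lit 20402210), (nat_lit 13743659)] (nat_lit 10051221)) p15_8_1 (nat_lit 4) (nat_lit 10) (nat_lit 11) = true := by decide +kernel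
def p15_8_1_11 : pfC (piC [(nat_lit 44228488), (nat_lit 27646207), (nat_lit 20402210), (nat_lit 13743659)] (nat_lit 10051221)) p15_8_1 (nat_lit 4) (nat_lit 11) (nat_lit 12) = true := by decide +kernel
def p15_8_1_12 : pfC (piC [(nat_lit 44228488), (nat_lit 27646207), (nat_lit 20402210), (nat_lit 13743659)] (nat_lit 10051221)) p15_8_1 (nat_lit 4) (nat_lit 12) (nat_lit 13) = true := by decide +kernel
def p15_8_1_13 : pfC (piC [(nat_lit 44228488), (nat_lit 27646207), (nat_lit 20402210), (nat_lit 13743659)] (nat_lit 10051221)) p15_8_1 (nat_lit 4) (nat_lit 13) (nat_lit 14) = true := by decide +kernel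
def p15_8_1_14 : pfC (piC [(nat_lit 44228488), (nat_lit 27646207), (nat_lit 20402210), (nat_lit 13743659)] (nat_lit 10051221)) p15_8_1 (nat_lit 4) (nat_lit 14) (nat_lit 15) = true := by decide +kernel
def p15_8_1_15 : pfC (piC [(nat_lit 44228488), (nat_lit 27646207), (nat_lit 20402210), (nat_lit 13743659)] (nat_lit 10051221)) p15_8_1 (nat_lit 4) (nat_lit 15) (nat_lit 16) = true := by decide +kernel
def p15_8_1_16 : pfC (piC [(nat_lit 44228488), (nat_lit 27646207), (nat_lit 20402210), (nat_lit 13743659)] (nat_lit 10051221)) p15_8_1 (nat_lit 4) (nat_lit 16) (nat_lit 17) = true := by decide +kernel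
def p15_8_1_17 : pfC (piC [(nat_lit 44228488), (nat_lit 27646207), (nat_lit 20402210), (nat_lit 13743659)] (nat_lit 10051221)) p15_8_1 (nat_lit 4) (nat_lit 17) (nat_lit 18) = true := by decide +kernel
def p15_8_1_18 : pfC (piC [(nat_lit 44228488), (nat_lit 27646207), (nat_lit 20402210), (nat_lit 13743659)] (nat_lit 10051221)) p15_8_1 (nat_lit 4) (nat_lit 18) (nat_lit 19) = true := by decide +kernel
def p15_8_1_19 : pfC (piC [(nat_lit 44228488), (nat_lit 27646207), (nat_lit 20402210), (nat_lit 13743659)] (nat_lit 10051221)) p15_8_1 (nat_lit 4) (nat_lit 19) (nat_lit 20) = true := by decide +kernel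
def p15_8_1_20 : pfC (piC [(nat_lit 44228488), (nat_lit 27646207), (nat_lit 20402210), (nat_lit 13743659)] (nat_lit 10051221)) p15_8_1 (nat_lit 4) (nat_lit 20) (nat_lit 21) = true := by decide +kernel
def p15_8_1_21 : pfC (piC [(nat_lit 44228488), (nat_lit 27646207), (nat_lit 20402210), (nat_lit 13743659)] (nat_lit 10051221)) p15_8_1 (nat_lit 4) (nat_lit 21) (nat_lit 22) = true := by decide +kernel
def p15_8_1_22 : pfC (piC [(nat_lit 44228488), (nat_lit 27646207), (nat_lit 20402210), (nat_lit 13743659)] (nat_lit 10051221)) p15_8_1 (nat_lit 4) (nat_lit 22) (nat_lit 23) = true := by decide +kernel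
def p15_8_1_23 : pfC (piC [(nat_lit 44228488), (nat_lit 27646207), (nat_lit 20402210), (nat_lit 13743659)] (nat_lit 10051221)) p15_8_1 (nat_lit 4) (nat_lit 23) (nat_lit 24) = true := by decide +kernel
def p15_8_1_24 : pfC (piC [(nat_lit 44228488), (nat_lit 27646207), (nat_lit 20402210), (nat_lit 13743659)] (nat_lit 10051221)) p15_8_1 (nat_lit 4) (nat_lit 24) (nat_lit 25) = true := by decide +kernel
def p15_8_1_25 : pfC (piC [(nat_lit 44228488), (nat_lit 27646207), (nat_lit 20402210), (nat_lit 13743659)] (nat_lit 10051221)) p15_8_1 (nat_lit 4) (nat_lit 25) (nat_lit 26) = true := by decide +kernel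
def p15_8_1_26 : pfC (piC [(nat_lit 44228488), (nat_lit 27646207), (nat_lit 20402210), (nat_lit 13743659)] (nat_lit 10051221)) p15_8_1 (nat_lit 4) (nat_lit 26) (nat_lit 27) = true := by decide +kernel
def p15_8_1_27 : pfC (piC [(nat_lit 44228488), (nat_lit 27646207), (nat_lit 20402210), (nat_lit 13743659)] (nat_lit 10051221)) p15_8_1 (nat_lit 4) (nat_lit 27) (nat_lit 28) = true := by decide +kernel
def p15_8_1_28 : pfC (piC [(nat_lit 44228488), (nat_lit 27646207), (nat_lit 20402210), (nat_lit 13743659)] (nat_lit 10051221)) p15_8_1 (nat_lit 4) (nat_lit 28) (nat_lit 29) = true := by decide +kernel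
def p15_8_1_29 : pfC (piC [(nat_lit 44228488), (nat_lit 27646207), (nat_lit 20402210), (nat_lit 13743659)] (nat_lit 10051221)) p15_8_1 (nat_lit 4) (nat_lit 29) (nat_lit 30) = true := by decide +kernel
def p15_8_1_30 : pfC (piC [(nat_lit 44228488), (nat_lit 27646207), (nat_lit 20402210), (nat_lit 13743659)] (nat_lit 10051221)) p15_8_1 (nat_lit 4) (nat_lit 30) (nat_lit 31) = true := by decide +kernel
def p15_8_1_31 : pfC (piC [(nat_lit 44228488), (nat_lit 27646207), (nat_lit 20402210), (nat_lit 13743659)] (nat_lit 10051221)) p15_8_1 (nat_lit 4) (nat_lit 31) (nat_lit 32) = true := by decide +kernel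
def p15_8_1_32 : pfC (piC [(nat_lit 44228488), (nat_lit 27646207), (nat_lit 20402210), (nat_lit 13743659)] (nat_lit 10051221)) p15_8_1 (nat_lit 4) (nat_lit 32) (nat_lit 33) = true := by decide +kernel
def p15_8_1_33 : pfC (piC [(nat_lit 44228488), (nat_lit 27646207), (nat_lit 20402210), (nat_lit 13743659)] (nat_lit 10051221)) p15_8_1 (nat_lit 4) (nat_lit 33) (nat_lit 34) = true := by decide +kernel
def p15_8_1_34 : pfC (piC [(nat_lit 44228488), (nat_lit 27646207), (nat_lit 20402210), (nat_lit 13743659)] (nat_lit 10051221)) p15_8_1 (nat_lit 4) (nat_lit 34) (nat_lit 35) = true := by decide +kernel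
def p15_8_1_35 : pfC (piC [(nat_lit 44228488), (nat_lit 27646207), (nat_lit 20402210), (nat_lit 13743659)] (nat_lit 10051221)) p15_8_1 (nat_lit 4) (nat_lit 35) (nat_lit 36) = true := by decide +kernel
def p15_8_1_36 : pfC (piC [(nat_lit 44228488), (nat_lit 27646207), (nat_lit 20402210), (nat_lit 13743659)] (nat_lit 10051221)) p15_8_1 (nat_lit 4) (nat_lit 36) (nat_lit 37) = true := by decide +kernel
theorem p15_8_1_T : PfS (PiF n15_8.reverse (nat_lit 10051221)) p15_8_1 (nat_lit 4) [] 0 :=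
  pftab_of (los := [(nat_lit 44228488), (nat_lit 27646207), (nat_lit 20402210), (nat_lit 13743659)]) (by decide +kernel) (hi := (nat_lit 37)) (PfP.trans (PfP.trans (PfP.trans (PfP.trans (PfP.trans (PfP.trans (PfP.trans (PfP.trans (PfP.trans (PfP.trans (PfP.trans (PfP.trans (PfP.trans (PfP.trans (PfP.trans (PfP.trans (PfP.trans (PfP.trans (PfP.trans (PfP.trans (PfP.trans (PfP.trans (PfP.trans (PfP.trans (PfP.trans (PfP.trans (PfP.trans (PfP.trans (PfP.trans (PfP.trans (PfP.trans (PfP.trans (PfP.trans (PfP.trans (PfP.trans (PfP.trans (pfC_sound p15_8_1_0) (pfC_sound p15_8_1_1)) (pfC_sound p15_8_1_2)) (pfC_sound p15_8_1_3)) (pfC_sound p15_8_1_4)) (pfC_sound p15_8_1_5)) (pfC_sound p15_8_1_6)) (pfC_sound p15_8_1_7)) (pfC_sound p15_8_1_8)) (pfC_sound p15_8_1_9)) (pfC_sound p15_8_1_10)) (pfC_sound p15_8_1_11)) (pfC_sound p15_8_1_12)) (pfC_sound p15_8_1_13)) (pfC_sound p15_8_1_14)) (pfC_sound p15_8_1_15)) (pfC_sound p15_8_1_16)) (pfC_sound p15_8_1_17)) (pfC_sound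 p15_8_1_18)) (pfC_sound p15_8_1_19)) (pfC_sound p15_8_1_20)) (pfC_sound p15_8_1_21)) (pfC_sound p15_8_1_22)) (pfC_sound p15_8_1_23)) (pfC_sound p15_8_1_24)) (pfC_sound p15_8_1_25)) (pfC_sound p15_8_1_26)) (pfC_sound p15_8_1_27)) (pfC_sound p15_8_1_28)) (pfC_sound p15_8_1_29)) (pfC_sound p15_8_1_30)) (pfC_sound p15_8_1_31)) (pfC_sound p15_8_1_32)) (pfC_sound
 p15_8_1_33)) (pfC_sound p15_8_1_34)) (pfC_sound p15_8_1_35)) (pfC_sound p15_8_1_36)) (by decide +kernel)

def z15_8_1 : zOK yB15_8 (nat_lit 1) (nat_lit 400) (nat_lit 600) (nat_lit 10051221) (nat_lit 6520054) = true := by decide +kernel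
def g15_8_1 : gOK yB15_8.x P15_8 (nat_lit 1428) (q15_8 :: r15_8) (nat_lit 1) (nat_lit 400) (nat_lit 2) (nat_lit 600) (nat_lit 11000000) (nat_lit 17850000) (nat_lit 12712500) (nat_lit 12712500) [(nat_lit 800), (nat_lit 1040)] = true := by decide +kernel
def v15_8_1 : ivC P15_8 s15_8 w15_8 n15_8 (nat_lit 4) (nat_lit 5120) (nat_lit 1) (nat_lit 400) f136_1_400 f144_1_400 (nat_lit 2) (nat_lit 600) f136_1_600 f144_1_600 (nat_lit 10051221) (nat_lit 6520054) p15_8_1 = true := by decide +kernel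
def p15_8_2 : PF := (PF.cons (PF.cons (PF.cons (PF.cons (PF.leaf (nat_lit 2787464) (nat_lit 16484531) (nat_lit 50624281) (nat_lit 16484531) [(nat_lit 0), (nat_lit 0), (nat_lit 0), (nat_lit 0)]) (PF.cons (PF.leaf (nat_lit 2885857) (nat_lit 162473) (nat_lit 50474404) (nat_lit 16471934) [(nat_lit 162473), (nat_lit 0), (nat_lit 0), (nat_lit 0)]) (PF.cons (PF.leaf (nat_lit 3006599) (nat_lit 176782) (nat_lit 50298520) (nat_lit 16456727) [(nat_lit 176782), (nat_lit 0), (nat_lit 0), (nat_lit 0)]) (PF.cons (PF.leaf (nat_lit 3142240) (nat_lit 189539) (nat_lit 50101074) (nat_lit 16439119) [(nat_lit 189539), (nat_lit 0), (nat_lit 0), (nat_lit 0)]) (PF.cons (PF.leaf (nat_lit 3290665) (nat_lit 201106) (nat_lit 49885159) (nat_lit 16419228) [(nat_lit 201106), (nat_lit 0), (nat_lit 0), (nat_lit 0)]) (PF.cons (PF.leaf (nat_lit 3450595) (nat_lit 211713) (nat_lit 49653125) (nat_lit 16397122) [(nat_lit 211713), (nat_lit 0), (nat_lit 0), (nat_lit 0)]) (PF.cons PF.nil PF.nil)))))))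 (PF.cons (PF.cons (PF.leaf (nat_lit 3223890) (nat_lit 969366) (nat_lit 49736815) (nat_lit 16402630) [(nat_lit 0), (nat_lit 969366), (nat_lit 0), (nat_lit 0)]) (PF.cons (PF.leaf (nat_lit 3356648) (nat_lit 200416) (nat_lit 49535971) (nat_lit
 16383077) [(nat_lit 200416), (nat_lit 989347), (nat_lit 0), (nat_lit 0)]) (PF.cons (PF.leaf (nat_lit 3505683) (nat_lit 211418) (nat_lit 49315655) (nat_lit 16360997) [(nat_lit 211418), (nat_lit 1009323), (nat_lit 0), (nat_lit 0)]) (PF.cons (PF.leaf (nat_lit 3666733) (nat_lit 221457) (nat_lit 49078942) (nat_lit 16336545) [(nat_lit 221457), (nat_lit 1028951), (nat_lit 0), (nat_lit 0)]) (PF.cons PF.nil PF.nil))))) (PF.cons (PF.cons (PF.leaf (nat_lit 3726631) (nat_lit 1042343) (nat_lit 48727876) (nat_lit 16296249) [(nat_lit 0), (nat_lit 1042343), (nat_lit 0), (nat_lit 0)]) (PF.cons (PF.leaf (nat_lit 3885234) (nat_lit 229853) (nat_lit 48489901) (nat_lit 16269787) [(nat_lit 229853), (nat_lit 1059635), (nat_lit 0), (nat_lit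 0)]) (PF.cons (PF.leaf (nat_lit 4056548) (nat_lit 238733) (nat_lit 48237216) (nat_lit 16240894) [(nat_lit 238733), (nat_lit 1076617), (nat_lit 0), (nat_lit 0)]) (PF.cons PF.nil PF.nil)))) (PF.cons (PF.cons (PF.leaf (nat_lit 4278410) (nat_lit 1102274) (nat_lit 47635829) (nat_lit 16166160) [(nat_lit 0), (nat_lit 1102274), (nat_lit 0), (nat_lit 0)]) (PF.cons (PF.leaf (nat_lit 4456897) (nat_lit 253631) (nat_lit 47370949) (nat_lit 16132999) [(nat_lit 253631), (nat_lit
 1117077), (nat_lit 0), (nat_lit 0)]) PF.nil)) (PF.cons PF.nil (PF.cons PF.nil PF.nil)))))) (PF.cons (PF.cons (PF.cons (PF.leaf (nat_lit 3734887) (nat_lit 2739612) (nat_lit 48153555) (nat_lit 16215644) [(nat_lit 0), (nat_lit 0), (nat_lit 2739612), (nat_lit 0)]) (PF.cons (PF.leaf (nat_lit 3875743) (nat_lit 217169) (nat_lit 47943636) (nat_lit 16190907) [(nat_lit 217169), (nat_lit 0), (nat_lit 2757100), (nat_lit 0)]) (PF.cons (PF.leaf (nat_lit 4032240) (nat_lit 227717) (nat_lit 47714950) (nat_lit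 16163330) [(nat_lit 227717), (nat_lit 0), (nat_lit 2775096), (nat_lit 0)]) (PF.cons (PF.leaf (nat_lit 4200096) (nat_lit 237202) (nat_lit 47470825) (nat_lit 16133177) [(nat_lit 237202), (nat_lit 0), (nat_lit 2793201), (nat_lit 0)]) (PF.cons PF.nil PF.nil))))) (PF.cons (PF.cons (PF.leaf (nat_lit 4253062) (nat_lit 1092811) (nat_lit 47120556) (nat_lit 16085996) [(nat_lit 0), (nat_lit 1092811), (nat_lit 2809447), (nat_lit 0)]) (PF.cons (PF.leaf (nat_lit 4417625) (nat_lit 243956) (nat_lit 46877714) (nat_lit 16054231) [(nat_lit 243956), (nat_lit 1107567), (nat_lit 2825343), (nat_lit 0)]) (PF.cons (PF.leaf (nat_lit 4594280) (nat_lit 252314) (nat_lit 46621112) (nat_lit 16019905) [(nat_lit 252314),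
 (nat_lit 1121995), (nat_lit 2841171), (nat_lit 0)]) (PF.cons PF.nil PF.nil)))) (PF.cons (PF.cons (PF.leaf (nat_lit 4813546) (nat_lit 1142452) (nat_lit 46022083) (nat_lit 15934107) [(nat_lit 0), (nat_lit 1142452), (nat_lit 2867717), (nat_lit 0)]) (PF.cons PF.nil PF.nil)) (PF.cons PF.nil (PF.cons PF.nil PF.nil))))) (PF.cons (PF.cons (PF.cons (PF.leaf (nat_lit 4773923) (nat_lit 2862376) (nat_lit 45534565) (nat_lit 15849493) [(nat_lit 0), (nat_lit 0), (nat_lit 2862376), (nat_lit 0)]) (PF.cons (PF.leaf (nat_lit 4942881) (nat_lit 255427) (nat_lit 45290478) (nat_lit 15813207) [(nat_lit 255427), (nat_lit 0), (nat_lit 2874850), (nat_lit 0)]) (PF.cons PF.nil (PF.cons PF.nil PF.nil)))) (PF.cons (PF.cons (PF.leaf (nat_lit 5338744) (nat_lit 1173068) (nat_lit 44443419) (nat_lit 15679581) [(nat_lit 0), (nat_lit 1173068), (nat_lit 2906371), (nat_lit 0)]) (PF.cons PF.nil PF.nil)) (PF.cons PF.nil PF.nil))) (PF.cons (PF.cons (PF.cons (PF.leaf (nat_lit 5852179) (nat_lit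 2930197) (nat_lit 42910270) (nat_lit 15407951) [(nat_lit 0), (nat_lit 0), (nat_lit 2930197), (nat_lit 0)]) (PF.cons PF.nil PF.nil)) (PF.cons PF.nil PF.nil)) (PF.cons PF.nil PF.nil))))) (PF.cons (PF.cons (PF.cons (PF.cons (PF.leaf
 (nat_lit 4478548) (nat_lit 6614572) (nat_lit 44818960) (nat_lit 15675279) [(nat_lit 0), (nat_lit 0), (nat_lit 0), (nat_lit 6614572)]) (PF.cons (PF.leaf (nat_lit 4621118) (nat_lit 226163) (nat_lit 44619391) (nat_lit 15645021) [(nat_lit 226163), (nat_lit 0), (nat_lit 0), (nat_lit 6618237)]) (PF.cons (PF.leaf (nat_lit 4778736) (nat_lit 236462) (nat_lit 44402629) (nat_lit 15611644) [(nat_lit 236462), (nat_lit 0), (nat_lit 0), (nat_lit 6621614)]) (PF.cons (PF.leaf (nat_lit 4947173) (nat_lit 245600) (nat_lit 44171924) (nat_lit 15575542) [(nat_lit 245600), (nat_lit 0), (nat_lit 0), (nat_lit 6624542)]) (PF.cons (PF.leaf (nat_lit 5124841) (nat_lit 253825) (nat_lit 43929616) (nat_lit 15536991) [(nat_lit 253825), (nat_lit 0), (nat_lit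 0), (nat_lit 6626903)]) PF.nil))))) (PF.cons (PF.cons (PF.leaf (nat_lit 4991639) (nat_lit 1118482) (nat_lit 43846052) (nat_lit 15521102) [(nat_lit 0), (nat_lit 1118482), (nat_lit 0), (nat_lit 6623175)]) (PF.cons (PF.leaf (nat_lit 5156053) (nat_lit 251117) (nat_lit 43617955) (nat_lit 15484006) [(nat_lit 251117), (nat_lit 1131163), (nat_lit 0), (nat_lit 6624570)]) (PF.cons (PF.leaf (nat_lit 5331888) (nat_lit 259074) (nat_lit 43377545) (nat_lit 15444299) [(nat_lit
 259074), (nat_lit 1143438), (nat_lit 0), (nat_lit 6625381)]) (PF.cons PF.nil PF.nil)))) (PF.cons (PF.cons (PF.leaf (nat_lit 5541022) (nat_lit 1159195) (nat_lit 42822019) (nat_lit 15347754) [(nat_lit 0), (nat_lit 1159195), (nat_lit 0), (nat_lit 6620647)]) (PF.cons (PF.leaf (nat_lit 5721648) (nat_lit 270505) (nat_lit 42574736) (nat_lit 15304808) [(nat_lit 270505), (nat_lit 1169707), (nat_lit 0), (nat_lit 6619348)]) PF.nil)) (PF.cons PF.nil (PF.cons PF.nil PF.nil))))) (PF.cons (PF.cons (PF.cons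 (PF.leaf (nat_lit 5486870) (nat_lit 2866505) (nat_lit 42384573) (nat_lit 15259168) [(nat_lit 0), (nat_lit 0), (nat_lit 2866505), (nat_lit 6598566)]) (PF.cons (PF.leaf (nat_lit 5654207) (nat_lit 260082) (nat_lit 42157714) (nat_lit 15218895) [(nat_lit 260082), (nat_lit 0), (nat_lit 2875310), (nat_lit 6596809)]) (PF.cons (PF.leaf (nat_lit 5832474) (nat_lit 267575) (nat_lit 41919377) (nat_lit 15176012) [(nat_lit 267575), (nat_lit 0), (nat_lit 2883890), (nat_lit 6594381)]) (PF.cons PF.nil PF.nil)))) (PF.cons (PF.cons (PF.leaf (nat_lit 6037144) (nat_lit 1180140) (nat_lit 41376686) (nat_lit 15073866) [(nat_lit 0), (nat_lit 1180140), (nat_lit 2895258), (nat_lit 6582860)]) (PF.cons PF.nil PF.nil))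
 (PF.cons PF.nil PF.nil))) (PF.cons (PF.cons (PF.cons (PF.leaf (nat_lit 6520975) (nat_lit 2902941) (nat_lit 39981158) (nat_lit 14790703) [(nat_lit 0), (nat_lit 0), (nat_lit 2902941), (nat_lit 6531068)]) (PF.cons PF.nil PF.nil)) (PF.cons PF.nil PF.nil)) PF.nil))) (PF.cons (PF.cons (PF.cons (PF.cons (PF.leaf (nat_lit 6144653) (nat_lit 6455497) (nat_lit 39542277) (nat_lit 14655541) [(nat_lit 0), (nat_lit 0), (nat_lit 0), (nat_lit 6455497)]) (PF.cons (PF.leaf (nat_lit 6309377) (nat_lit 261925) (nat_lit 39333119) (nat_lit 14613394) [(nat_lit 261925), (nat_lit 0), (nat_lit 0), (nat_lit 6450186)]) (PF.cons (PF.leaf (nat_lit 6484550) (nat_lit 269054) (nat_lit 39113696) (nat_lit 14568715) [(nat_lit 269054), (nat_lit 0), (nat_lit 0), (nat_lit 6444145)]) (PF.cons PF.nil PF.nil)))) (PF.cons (PF.cons (PF.leaf (nat_lit 6678886) (nat_lit 1176604) (nat_lit 38617706) (nat_lit 14463881) [(nat_lit 0), (nat_lit 1176604), (nat_lit 0), (nat_lit 6425310)]) (PF.cons PF.nil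 PF.nil)) (PF.cons PF.nil PF.nil))) (PF.cons (PF.cons (PF.cons (PF.leaf (nat_lit 7135409) (nat_lit 2858476) (nat_lit 37352322) (nat_lit 14179752) [(nat_lit 0), (nat_lit 0), (nat_lit 2858476), (nat_lit 6359131)]) (PF.cons PF.nil PF.nil))
 PF.nil) PF.nil)) (PF.cons PF.nil (PF.cons PF.nil (PF.cons PF.nil PF.nil))))))

def p15_8_2_0 : pfC (piC [(nat_lit 44228488), (nat_lit 27646207), (nat_lit 20402210), (nat_lit 13743659)] (nat_lit 6520054)) p15_8_2 (nat_lit 4) (nat_lit 0) (nat_lit 1) = true := by decide +kernel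
def p15_8_2_1 : pfC (piC [(nat_lit 44228488), (nat_lit 27646207), (nat_lit 20402210), (nat_lit 13743659)] (nat_lit 6520054)) p15_8_2 (nat_lit 4) (nat_lit 1) (nat_lit 2) = true := by decide +kernel
def p15_8_2_2 : pfC (piC [(nat_lit 44228488), (nat_lit 27646207), (nat_lit 20402210), (nat_lit 13743659)] (nat_lit 6520054)) p15_8_2 (nat_lit 4) (nat_lit 2) (nat_lit 3) = true := by decide +kernel
def p15_8_2_3 : pfC (piC [(nat_lit 44228488), (nat_lit 27646207), (nat_lit 20402210), (nat_lit 13743659)] (nat_lit 6520054)) p15_8_2 (nat_lit 4) (nat_lit 3) (nat_lit 4) = true := by decide +kernel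
def p15_8_2_4 : pfC (piC [(nat_lit 44228488), (nat_lit 27646207), (nat_lit 20402210), (nat_lit 13743659)] (nat_lit 6520054)) p15_8_2 (nat_lit 4) (nat_lit 4) (nat_lit 5) = true := by decide +kernel
def p15_8_2_5 : pfC (piC [(nat_lit 44228488), (nat_lit 27646207), (nat_lit 20402210), (nat_lit 13743659)] (nat_lit 6520054)) p15_8_2 (nat_lit 4) (nat_lit 5) (nat_lit 6) = true := by decide +kernel
def p15_8_2_6 : pfC (piC [(nat_lit 44228488), (nat_lit 27646207), (nat_lit 20402210), (nat_lit 13743659)] (nat_lit 6520054)) p15_8_2 (nat_lit 4) (nat_lit 6) (nat_lit 7) = true := by decide +kernel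
def p15_8_2_7 : pfC (piC [(nat_lit 44228488), (nat_lit 27646207), (nat_lit 20402210), (nat_lit 13743659)] (nat_lit 6520054)) p15_8_2 (nat_lit 4) (nat_lit 7) (nat_lit 8) = true := by decide +kernel
def p15_8_2_8 : pfC (piC [(nat_lit 44228488), (nat_lit 27646207), (nat_lit 20402210), (nat_lit 13743659)] (nat_lit 6520054)) p15_8_2 (nat_lit 4) (nat_lit 8) (nat_lit 9) = true := by decide +kernel
def p15_8_2_9 : pfC (piC [(nat_lit 44228488), (nat_lit 27646207), (nat_lit 20402210), (nat_lit 13743659)] (nat_lit 6520054)) p15_8_2 (nat_lit 4) (nat_lit 9) (nat_lit 10) = true := by decide +kernel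
def p15_8_2_10 : pfC (piC [(nat_lit 44228488), (nat_lit 27646207), (nat_lit 20402210), (nat_lit 13743659)] (nat_lit 6520054)) p15_8_2 (nat_lit 4) (nat_lit 10) (nat_lit 11) = true := by decide +kernel
def p15_8_2_11 : pfC (piC [(nat_lit 44228488), (nat_lit 27646207), (nat_lit 20402210), (nat_lit 13743659)] (nat_lit 6520054)) p15_8_2 (nat_lit 4) (nat_lit 11) (nat_lit 12) = true := by decide +kernel
def p15_8_2_12 : pfC (piC [(nat_lit 44228488), (nat_lit 27646207), (nat_lit 20402210), (nat_lit 13743659)] (nat_lit 6520054)) p15_8_2 (nat_lit 4) (nat_lit 12) (nat_lit 13) = true := by decide +kernel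
def p15_8_2_13 : pfC (piC [(nat_lit 44228488), (nat_lit 27646207), (nat_lit 20402210), (nat_lit 13743659)] (nat_lit 6520054)) p15_8_2 (nat_lit 4) (nat_lit 13) (nat_lit 14) = true := by decide +kernel
def p15_8_2_14 : pfC (piC [(nat_lit 44228488), (nat_lit 27646207), (nat_lit 20402210), (nat_lit 13743659)] (nat_lit 6520054)) p15_8_2 (nat_lit 4) (nat_lit 14) (nat_lit 15) = true := by decide +kernel
def p15_8_2_15 : pfC (piC [(nat_lit 44228488), (nat_lit 27646207), (nat_lit 20402210), (nat_lit 13743659)] (nat_lit 6520054)) p15_8_2 (nat_lit 4) (nat_lit 15) (nat_lit 16) = true := by decide +kernel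
def p15_8_2_16 : pfC (piC [(nat_lit 44228488), (nat_lit 27646207), (nat_lit 20402210), (nat_lit 13743659)] (nat_lit 6520054)) p15_8_2 (nat_lit 4) (nat_lit 16) (nat_lit 17) = true := by decide +kernel
def p15_8_2_17 : pfC (piC [(nat_lit 44228488), (nat_lit 27646207), (nat_lit 20402210), (nat_lit 13743659)] (nat_lit 6520054)) p15_8_2 (nat_lit 4) (nat_lit 17) (nat_lit 18) = true := by decide +kernel
def p15_8_2_18 : pfC (piC [(nat_lit 44228488), (nat_lit 27646207), (nat_lit 20402210), (nat_lit 13743659)] (nat_lit 6520054)) p15_8_2 (nat_lit 4) (nat_lit 18) (nat_lit 19) = true := by decide +kernel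
def p15_8_2_19 : pfC (piC [(nat_lit 44228488), (nat_lit 27646207), (nat_lit 20402210), (nat_lit 13743659)] (nat_lit 6520054)) p15_8_2 (nat_lit 4) (nat_lit 19) (nat_lit 20) = true := by decide +kernel
def p15_8_2_20 : pfC (piC [(nat_lit 44228488), (nat_lit 27646207), (nat_lit 20402210), (nat_lit 13743659)] (nat_lit 6520054)) p15_8_2 (nat_lit 4) (nat_lit 20) (nat_lit 21) = true := by decide +kernel
def p15_8_2_21 : pfC (piC [(nat_lit 44228488), (nat_lit 27646207), (nat_lit 20402210), (nat_lit 13743659)] (nat_lit 6520054)) p15_8_2 (nat_lit 4) (nat_lit 21) (nat_lit 22) = true := by decide +kernel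
def p15_8_2_22 : pfC (piC [(nat_lit 44228488), (nat_lit 27646207), (nat_lit 20402210), (nat_lit 13743659)] (nat_lit 6520054)) p15_8_2 (nat_lit 4) (nat_lit 22) (nat_lit 23) = true := by decide +kernel
def p15_8_2_23 : pfC (piC [(nat_lit 44228488), (nat_lit 27646207), (nat_lit 20402210), (nat_lit 13743659)] (nat_lit 6520054)) p15_8_2 (nat_lit 4) (nat_lit 23) (nat_lit 24) = true := by decide +kernel
def p15_8_2_24 : pfC (piC [(nat_lit 44228488), (nat_lit 27646207), (nat_lit 20402210), (nat_lit 13743659)] (nat_lit 6520054)) p15_8_2 (nat_lit 4) (nat_lit 24) (nat_lit 25) = true := by decide +kernel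
def p15_8_2_25 : pfC (piC [(nat_lit 44228488), (nat_lit 27646207), (nat_lit 20402210), (nat_lit 13743659)] (nat_lit 6520054)) p15_8_2 (nat_lit 4) (nat_lit 25) (nat_lit 26) = true := by decide +kernel
def p15_8_2_26 : pfC (piC [(nat_lit 44228488), (nat_lit 27646207), (nat_lit 20402210), (nat_lit 13743659)] (nat_lit 6520054)) p15_8_2 (nat_lit 4) (nat_lit 26) (nat_lit 27) = true := by decide +kernel
def p15_8_2_27 : pfC (piC [(nat_lit 44228488), (nat_lit 27646207), (nat_lit 20402210), (nat_lit 13743659)] (nat_lit 6520054)) p15_8_2 (nat_lit 4) (nat_lit 27) (nat_lit 28) = true := by decide +kernel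
def p15_8_2_28 : pfC (piC [(nat_lit 44228488), (nat_lit 27646207), (nat_lit 20402210), (nat_lit 13743659)] (nat_lit 6520054)) p15_8_2 (nat_lit 4) (nat_lit 28) (nat_lit 29) = true := by decide +kernel
def p15_8_2_29 : pfC (piC [(nat_lit 44228488), (nat_lit 27646207), (nat_lit 20402210), (nat_lit 13743659)] (nat_lit 6520054)) p15_8_2 (nat_lit 4) (nat_lit 29) (nat_lit 30) = true := by decide +kernel
def p15_8_2_30 : pfC (piC [(nat_lit 44228488), (nat_lit 27646207), (nat_lit 20402210), (nat_lit 13743659)] (nat_lit 6520054)) p15_8_2 (nat_lit 4) (nat_lit 30) (nat_lit 31) = true := by decide +kernel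
def p15_8_2_31 : pfC (piC [(nat_lit 44228488), (nat_lit 27646207), (nat_lit 20402210), (nat_lit 13743659)] (nat_lit 6520054)) p15_8_2 (nat_lit 4) (nat_lit 31) (nat_lit 32) = true := by decide +kernel
def p15_8_2_32 : pfC (piC [(nat_lit 44228488), (nat_lit 27646207), (nat_lit 20402210), (nat_lit 13743659)] (nat_lit 6520054)) p15_8_2 (nat_lit 4) (nat_lit 32) (nat_lit 33) = true := by decide +kernel
def p15_8_2_33 : pfC (piC [(nat_lit 44228488), (nat_lit 27646207), (nat_lit 20402210), (nat_lit 13743659)] (nat_lit 6520054)) p15_8_2 (nat_lit 4) (nat_lit 33) (nat_lit 34) = true := by decide +kernel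
def p15_8_2_34 : pfC (piC [(nat_lit 44228488), (nat_lit 27646207), (nat_lit 20402210), (nat_lit 13743659)] (nat_lit 6520054)) p15_8_2 (nat_lit 4) (nat_lit 34) (nat_lit 35) = true := by decide +kernel
def p15_8_2_35 : pfC (piC [(nat_lit 44228488), (nat_lit 27646207), (nat_lit 20402210), (nat_lit 13743659)] (nat_lit 6520054)) p15_8_2 (nat_lit 4) (nat_lit 35) (nat_lit 36) = true := by decide +kernel
def p15_8_2_36 : pfC (piC [(nat_lit 44228488), (nat_lit 27646207), (nat_lit 20402210), (nat_lit 13743659)] (nat_lit 6520054)) p15_8_2 (nat_lit 4) (nat_lit 36) (nat_lit 37) = true := by decide +kernel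
def p15_8_2_37 : pfC (piC [(nat_lit 44228488), (nat_lit 27646207), (nat_lit 20402210), (nat_lit 13743659)] (nat_lit 6520054)) p15_8_2 (nat_lit 4) (nat_lit 37) (nat_lit 38) = true := by decide +kernel
def p15_8_2_38 : pfC (piC [(nat_lit 44228488), (nat_lit 27646207), (nat_lit 20402210), (nat_lit 13743659)] (nat_lit 6520054)) p15_8_2 (nat_lit 4) (nat_lit 38) (nat_lit 39) = true := by decide +kernel
def p15_8_2_39 : pfC (piC [(nat_lit 44228488), (nat_lit 27646207), (nat_lit 20402210), (nat_lit 13743659)] (nat_lit 6520054)) p15_8_2 (nat_lit 4) (nat_lit 39) (nat_lit 40) = true := by decide +kernel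
def p15_8_2_40 : pfC (piC [(nat_lit 44228488), (nat_lit 27646207), (nat_lit 20402210), (nat_lit 13743659)] (nat_lit 6520054)) p15_8_2 (nat_lit 4) (nat_lit 40) (nat_lit 41) = true := by decide +kernel
def p15_8_2_41 : pfC (piC [(nat_lit 44228488), (nat_lit 27646207), (nat_lit 20402210), (nat_lit 13743659)] (nat_lit 6520054)) p15_8_2 (nat_lit 4) (nat_lit 41) (nat_lit 42) = true := by decide +kernel
def p15_8_2_42 : pfC (piC [(nat_lit 44228488), (nat_lit 27646207), (nat_lit 20402210), (nat_lit 13743659)] (nat_lit 6520054)) p15_8_2 (nat_lit 4) (nat_lit 42) (nat_lit 43) = true := by decide +kernel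
def p15_8_2_43 : pfC (piC [(nat_lit 44228488), (nat_lit 27646207), (nat_lit 20402210), (nat_lit 13743659)] (nat_lit 6520054)) p15_8_2 (nat_lit 4) (nat_lit 43) (nat_lit 44) = true := by decide +kernel
def p15_8_2_44 : pfC (piC [(nat_lit 44228488), (nat_lit 27646207), (nat_lit 20402210), (nat_lit 13743659)] (nat_lit 6520054)) p15_8_2 (nat_lit 4) (nat_lit 44) (nat_lit 45) = true := by decide +kernel
def p15_8_2_45 : pfC (piC [(nat_lit 44228488), (nat_lit 27646207), (nat_lit 20402210), (nat_lit 13743659)] (nat_lit 6520054)) p15_8_2 (nat_lit 4) (nat_lit 45) (nat_lit 46) = true := by decide +kernel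
def p15_8_2_46 : pfC (piC [(nat_lit 44228488), (nat_lit 27646207), (nat_lit 20402210), (nat_lit 13743659)] (nat_lit 6520054)) p15_8_2 (nat_lit 4) (nat_lit 46) (nat_lit 47) = true := by decide +kernel
theorem p15_8_2_T : PfS (PiF n15_8.reverse (nat_lit 6520054)) p15_8_2 (nat_lit 4) [] 0 :=
  pftab_of (los := [(nat_lit 44228488), (nat_lit 27646207), (nat_lit 20402210), (nat_lit 13743659)]) (by decide +kernel) (hi := (nat_lit 47)) (PfP.trans (PfP.trans (PfP.trans (PfP.trans (PfP.trans (PfP.trans (PfP.trans (PfP.trans (PfP.trans (PfP.trans (PfP.trans (PfP.trans (PfP.trans (PfP.trans (PfP.trans (PfP.trans (PfP.trans (PfP.trans (PfP.trans (PfP.trans (PfP.trans (PfP.trans (PfP.trans (PfP.trans (PfP.trans (PfP.trans (PfP.trans (PfP.trans (PfP.trans (PfP.trans (PfP.trans (PfP.trans (PfP.trans (PfP.trans (PfP.trans (PfP.trans (PfP.trans (PfP.trans (PfP.trans (PfP.trans (PfP.trans (PfP.trans (PfP.trans (PfP.trans (PfP.trans (PfP.trans (pfC_sound p15_8_2_0) (pfC_sound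 p15_8_2_1)) (pfC_sound p15_8_2_2)) (pfC_sound p15_8_2_3)) (pfC_sound p15_8_2_4)) (pfC_sound p15_8_2_5)) (pfC_sound p15_8_2_6)) (pfC_sound p15_8_2_7)) (pfC_sound p15_8_2_8)) (pfC_sound p15_8_2_9)) (pfC_sound p15_8_2_10)) (pfC_sound p15_8_2_11)) (pfC_sound p15_8_2_12)) (pfC_sound p15_8_2_13)) (pfC_sound p15_8_2_14)) (pfC_sound p15_8_2_15)) (pfC_sound p15_8_2_16)) (pfC_sound p15_8_2_17)) (pfC_sound p15_8_2_18)) (pfC_sound p15_8_2_19)) (pfC_sound p15_8_2_20)) (pfC_sound p15_8_2_21)) (pfC_sound p15_8_2_22)) (pfC_sound p15_8_2_23)) (pfC_sound p15_8_2_24)) (pfC_sound p15_8_2_25)) (pfC_sound p15_8_2_26)) (pfC_sound p15_8_2_27)) (pfC_sound p15_8_2_28))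
 (pfC_sound p15_8_2_29)) (pfC_sound p15_8_2_30)) (pfC_sound p15_8_2_31)) (pfC_sound p15_8_2_32)) (pfC_sound p15_8_2_33)) (pfC_sound p15_8_2_34)) (pfC_sound p15_8_2_35)) (pfC_sound p15_8_2_36)) (pfC_sound p15_8_2_37)) (pfC_sound p15_8_2_38)) (pfC_sound p15_8_2_39)) (pfC_sound p15_8_2_40)) (pfC_sound p15_8_2_41)) (pfC_sound p15_8_2_42)) (pfC_sound p15_8_2_43)) (pfC_sound p15_8_2_44)) (pfC_sound p15_8_2_45)) (pfC_sound p15_8_2_46)) (by decide +kernel)

def z15_8_2 : zOK yB15_8 (nat_lit 2) (nat_lit 600) (nat_lit 750) (nat_lit 6520054) (nat_lit 4700038) = true := by decide +kernel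
def g15_8_2 : gOK yB15_8.x P15_8 (nat_lit 1428) (q15_8 :: r15_8) (nat_lit 2) (nat_lit 600) (nat_lit 3) (nat_lit 750) (nat_lit 12712500) (nat_lit 12712500) (nat_lit 12712500) (nat_lit 12712500) [(nat_lit 800), (nat_lit 1600)] = true := by decide +kernel
def v15_8_2 : ivC P15_8 s15_8 w15_8 n15_8 (nat_lit 4) (nat_lit 4920) (nat_lit 2) (nat_lit 600) f136_1_600 f144_1_600 (nat_lit 3) (nat_lit 750) f136_1_750 f144_1_750 (nat_lit 6520054) (nat_lit 4700038) p15_8_2 = true := by decide +kernel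
def p15_8_3 : PF := (PF.cons (PF.cons (PF.cons (PF.cons (PF.leaf (nat_lit 3149381) (nat_lit 21745863) (nat_lit 45362949) (nat_lit 21745863) [(nat_lit 0), (nat_lit 0), (nat_lit 0), (nat_lit 0)]) (PF.cons (PF.leaf (nat_lit 3242902) (nat_lit 155928) (nat_lit 45239384) (nat_lit 21713499) [(nat_lit 155928), (nat_lit 0), (nat_lit 0), (nat_lit 0)]) (PF.cons (PF.leaf (nat_lit 3357556) (nat_lit 169595) (nat_lit 45094373) (nat_lit 21675249) [(nat_lit 169595), (nat_lit 0), (nat_lit 0), (nat_lit 0)]) (PF.cons (PF.leaf (nat_lit 3486696) (nat_lit 181757) (nat_lit 44931572) (nat_lit 21631968) [(nat_lit 181757), (nat_lit 0), (nat_lit 0), (nat_lit 0)]) (PF.cons (PF.leaf (nat_lit 3627855) (nat_lit 192763) (nat_lit 44753529) (nat_lit 21584229) [(nat_lit 192763), (nat_lit 0), (nat_lit 0), (nat_lit 0)]) (PF.cons (PF.leaf (nat_lit 3779870) (nat_lit 202837) (nat_lit 44562170) (nat_lit 21532452) [(nat_lit 202837), (nat_lit 0), (nat_lit 0), (nat_lit 0)]) (PF.cons (PF.leaf (nat_lit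 3941599) (nat_lit 212133) (nat_lit 44359041) (nat_lit 21476968) [(nat_lit 212133), (nat_lit 0), (nat_lit 0), (nat_lit 0)]) (PF.cons PF.nil (PF.cons PF.nil PF.nil))))))))) (PF.cons (PF.cons (PF.leaf (nat_lit 3562950) (nat_lit 927592) (nat_lit
 44631557) (nat_lit 21549663) [(nat_lit 0), (nat_lit 927592), (nat_lit 0), (nat_lit 0)]) (PF.cons (PF.leaf (nat_lit 3688789) (nat_lit 191960) (nat_lit 44465914) (nat_lit 21504574) [(nat_lit 191960), (nat_lit 946363), (nat_lit 0), (nat_lit 0)]) (PF.cons (PF.leaf (nat_lit 3830371) (nat_lit 202416) (nat_lit 44284186) (nat_lit 21454699) [(nat_lit 202416), (nat_lit 965092), (nat_lit 0), (nat_lit 0)]) (PF.cons (PF.leaf (nat_lit 3983153) (nat_lit 211939) (nat_lit 44088901) (nat_lit 21400632) [(nat_lit 211939), (nat_lit 983459), (nat_lit 0), (nat_lit 0)]) (PF.cons (PF.leaf (nat_lit 4145768) (nat_lit 220703) (nat_lit 43881915) (nat_lit 21342798) [(nat_lit 220703), (nat_lit 1001285), (nat_lit 0), (nat_lit 0)]) (PF.cons (PF.leaf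 (nat_lit 4317143) (nat_lit 228827) (nat_lit 43664681) (nat_lit 21281521) [(nat_lit 228827), (nat_lit 1018474), (nat_lit 0), (nat_lit 0)]) (PF.cons PF.nil PF.nil))))))) (PF.cons (PF.cons (PF.leaf (nat_lit 4038559) (nat_lit 995646) (nat_lit 43799584) (nat_lit 21317934) [(nat_lit 0), (nat_lit 995646), (nat_lit 0), (nat_lit 0)]) (PF.cons (PF.leaf (nat_lit 4188655) (nat_lit 219750) (nat_lit 43603162) (nat_lit 21262323) [(nat_lit 219750), (nat_lit 1011788), (nat_lit 0),
 (nat_lit 0)]) (PF.cons (PF.leaf (nat_lit 4351125) (nat_lit 228151) (nat_lit 43394546) (nat_lit 21202736) [(nat_lit 228151), (nat_lit 1027613), (nat_lit 0), (nat_lit 0)]) (PF.cons (PF.leaf (nat_lit 4522574) (nat_lit 235900) (nat_lit 43175541) (nat_lit 21139608) [(nat_lit 235900), (nat_lit 1042980), (nat_lit 0), (nat_lit 0)]) (PF.cons PF.nil PF.nil))))) (PF.cons (PF.cons (PF.leaf (nat_lit 4559882) (nat_lit 1051188) (nat_lit 42898193) (nat_lit 21057053) [(nat_lit 0), (nat_lit 1051188), (nat_lit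 0), (nat_lit 0)]) (PF.cons (PF.leaf (nat_lit 4728802) (nat_lit 242086) (nat_lit 42679293) (nat_lit 20992617) [(nat_lit 242086), (nat_lit 1064938), (nat_lit 0), (nat_lit 0)]) (PF.cons (PF.leaf (nat_lit 4907614) (nat_lit 249003) (nat_lit 42451122) (nat_lit 20924844) [(nat_lit 249003), (nat_lit 1078279), (nat_lit 0), (nat_lit 0)]) (PF.cons PF.nil PF.nil)))) (PF.cons (PF.cons (PF.leaf (nat_lit 5115052) (nat_lit 1096683) (nat_lit 41950033) (nat_lit 20772046) [(nat_lit 0), (nat_lit 1096683), (nat_lit 0), (nat_lit 0)]) (PF.cons PF.nil PF.nil)) (PF.cons PF.nil PF.nil)))))) (PF.cons (PF.cons (PF.cons (PF.leaf (nat_lit 4042253) (nat_lit 2607531) (nat_lit 43327724) (nat_lit 21173556) [(nat_lit 0),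
 (nat_lit 0), (nat_lit 2607531), (nat_lit 0)]) (PF.cons (PF.leaf (nat_lit 4175617) (nat_lit 207466) (nat_lit 43154339) (nat_lit 21123526) [(nat_lit 207466), (nat_lit 0), (nat_lit 2623480), (nat_lit 0)]) (PF.cons (PF.leaf (nat_lit 4324062) (nat_lit 217473) (nat_lit 42965406) (nat_lit 21068592) [(nat_lit 217473), (nat_lit 0), (nat_lit 2639867), (nat_lit 0)]) (PF.cons (PF.leaf (nat_lit 4483229) (nat_lit 226456) (nat_lit 42763659) (nat_lit 21009458) [(nat_lit 226456), (nat_lit 0), (nat_lit 2656327), (nat_lit 0)]) (PF.cons (PF.leaf (nat_lit 4651662) (nat_lit 234628) (nat_lit 42551070) (nat_lit 20946619) [(nat_lit 234628), (nat_lit 0), (nat_lit 2672609), (nat_lit 0)]) (PF.cons PF.nil (PF.cons PF.nil PF.nil))))))) (PF.cons (PF.cons (PF.leaf (nat_lit 4531967) (nat_lit 1041536) (nat_lit 42474450) (nat_lit 20922120) [(nat_lit 0), (nat_lit 1041536), (nat_lit 2670705), (nat_lit 0)]) (PF.cons (PF.leaf (nat_lit 4687725) (nat_lit 232722) (nat_lit 42273605) (nat_lit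 20862060) [(nat_lit 232722), (nat_lit 1055298), (nat_lit 2685126), (nat_lit 0)]) (PF.cons (PF.leaf (nat_lit 4855108) (nat_lit 240623) (nat_lit 42061302) (nat_lit 20798059) [(nat_lit 240623), (nat_lit 1068736), (nat_lit 2699467),
 (nat_lit 0)]) (PF.cons (PF.leaf (nat_lit 5030948) (nat_lit 247837) (nat_lit 41839416) (nat_lit 20730610) [(nat_lit 247837), (nat_lit 1081738), (nat_lit 2713535), (nat_lit 0)]) (PF.cons PF.nil PF.nil))))) (PF.cons (PF.cons (PF.leaf (nat_lit 5061352) (nat_lit 1087523) (nat_lit 41565727) (nat_lit 20644880) [(nat_lit 0), (nat_lit 1087523), (nat_lit 2723157), (nat_lit 0)]) (PF.cons (PF.leaf (nat_lit 5234047) (nat_lit 252796) (nat_lit 41345481) (nat_lit 20576663) [(nat_lit 252796), (nat_lit 1099189), (nat_lit 2735492), (nat_lit 0)]) (PF.cons PF.nil (PF.cons PF.nil PF.nil)))) (PF.cons (PF.cons (PF.leaf (nat_lit 5619459) (nat_lit 1125024) (nat_lit 40621722) (nat_lit 20346876) [(nat_lit 0), (nat_lit 1125024), (nat_lit 2765139), (nat_lit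 0)]) (PF.cons PF.nil PF.nil)) (PF.cons PF.nil PF.nil))))) (PF.cons (PF.cons (PF.cons (PF.leaf (nat_lit 5020532) (nat_lit 2717143) (nat_lit 41163727) (nat_lit 20510799) [(nat_lit 0), (nat_lit 0), (nat_lit 2717143), (nat_lit 0)]) (PF.cons (PF.leaf (nat_lit 5180330) (nat_lit 243278) (nat_lit 40961309) (nat_lit 20447266) [(nat_lit 243278), (nat_lit 0), (nat_lit 2728479), (nat_lit 0)]) (PF.cons (PF.leaf (nat_lit 5351272) (nat_lit 250731) (nat_lit 40748134)
 (nat_lit 20379862) [(nat_lit 250731), (nat_lit 0), (nat_lit 2739676), (nat_lit 0)]) (PF.cons PF.nil (PF.cons PF.nil PF.nil))))) (PF.cons (PF.cons (PF.leaf (nat_lit 5554220) (nat_lit 1115251) (nat_lit 40258482) (nat_lit 20221416) [(nat_lit 0), (nat_lit 1115251), (nat_lit 2756831), (nat_lit 0)]) (PF.cons (PF.leaf (nat_lit 5729511) (nat_lit 261419) (nat_lit 40039237) (nat_lit 20150377) [(nat_lit 261419), (nat_lit 1125181), (nat_lit 2766298), (nat_lit 0)]) (PF.cons PF.nil (PF.cons PF.nil PF.nil)))) (PF.cons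 (PF.cons (PF.leaf (nat_lit 6112386) (nat_lit 1146164) (nat_lit 39327016) (nat_lit 19914308) [(nat_lit 0), (nat_lit 1146164), (nat_lit 2787579), (nat_lit 0)]) (PF.cons PF.nil PF.nil)) PF.nil))) (PF.cons (PF.cons (PF.cons (PF.leaf (nat_lit 6037043) (nat_lit 2777571) (nat_lit 38984651) (nat_lit 19791448) [(nat_lit 0), (nat_lit 0), (nat_lit 2777571), (nat_lit 0)]) (PF.cons (PF.leaf (nat_lit 6213910) (nat_lit 268314) (nat_lit 38768146) (nat_lit 19718418) [(nat_lit 268314), (nat_lit 0), (nat_lit 2784644), (nat_lit 0)]) PF.nil)) (PF.cons PF.nil PF.nil)) (PF.cons PF.nil (PF.cons PF.nil PF.nil)))))) (PF.cons (PF.cons (PF.cons (PF.cons (PF.leaf (nat_lit 4734412) (nat_lit 6245913) (nat_lit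
 40580138) (nat_lit 20282760) [(nat_lit 0), (nat_lit 0), (nat_lit 0), (nat_lit 6245913)]) (PF.cons (PF.leaf (nat_lit 4869457) (nat_lit 215462) (nat_lit 40414270) (nat_lit 20230181) [(nat_lit 215462), (nat_lit 0), (nat_lit 0), (nat_lit 6248898)]) (PF.cons (PF.leaf (nat_lit 5019026) (nat_lit 225233) (nat_lit 40234041) (nat_lit 20172697) [(nat_lit 225233), (nat_lit 0), (nat_lit 0), (nat_lit 6251607)]) (PF.cons (PF.leaf (nat_lit 5178839) (nat_lit 233894) (nat_lit 40042134) (nat_lit 20111089) [(nat_lit 233894), (nat_lit 0), (nat_lit 0), (nat_lit 6253903)]) (PF.cons (PF.leaf (nat_lit 5347389) (nat_lit 241683) (nat_lit 39840479) (nat_lit 20045911) [(nat_lit 241683), (nat_lit 0), (nat_lit 0), (nat_lit 6255687)]) (PF.cons PF.nil (PF.cons PF.nil PF.nil))))))) (PF.cons (PF.cons (PF.leaf (nat_lit 5220113) (nat_lit 1063696) (nat_lit 39771236) (nat_lit 20021820) [(nat_lit 0), (nat_lit 1063696), (nat_lit 0), (nat_lit 6252059)]) (PF.cons (PF.leaf (nat_lit 5375905) (nat_lit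 239049) (nat_lit 39581282) (nat_lit 19959859) [(nat_lit 239049), (nat_lit 1075601), (nat_lit 0), (nat_lit 6253019)]) (PF.cons (PF.leaf (nat_lit 5542702) (nat_lit 246585) (nat_lit 39380973) (nat_lit 19894094) [(nat_lit 246585),
 (nat_lit 1087118), (nat_lit 0), (nat_lit 6253454)]) (PF.cons (PF.leaf (nat_lit 5717342) (nat_lit 253392) (nat_lit 39172115) (nat_lit 19825059) [(nat_lit 253392), (nat_lit 1098162), (nat_lit 0), (nat_lit 6253297)]) (PF.cons PF.nil PF.nil))))) (PF.cons (PF.cons (PF.leaf (nat_lit 5740250) (nat_lit 1101761) (nat_lit 38918020) (nat_lit 19738827) [(nat_lit 0), (nat_lit 1101761), (nat_lit 0), (nat_lit 6248442)]) (PF.cons (PF.leaf (nat_lit 5911379) (nat_lit 257347) (nat_lit 38711612) (nat_lit 19669572) [(nat_lit 257347), (nat_lit 1111622), (nat_lit 0), (nat_lit 6247035)]) (PF.cons PF.nil (PF.cons PF.nil PF.nil)))) (PF.cons (PF.cons (PF.leaf (nat_lit 6284571) (nat_lit 1132065) (nat_lit 38038570) (nat_lit 19439017) [(nat_lit 0), (nat_lit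 1132065), (nat_lit 0), (nat_lit 6235027)]) (PF.cons PF.nil PF.nil)) (PF.cons PF.nil PF.nil))))) (PF.cons (PF.cons (PF.cons (PF.leaf (nat_lit 5686844) (nat_lit 2718249) (nat_lit 38554465) (nat_lit 19608413) [(nat_lit 0), (nat_lit 0), (nat_lit 2718249), (nat_lit 6227684)]) (PF.cons (PF.leaf (nat_lit 5845484) (nat_lit 247404) (nat_lit 38364890) (nat_lit 19544165) [(nat_lit 247404), (nat_lit 0), (nat_lit 2726411), (nat_lit 6225940)]) (PF.cons (PF.leaf (nat_lit
 6014675) (nat_lit 254506) (nat_lit 38165613) (nat_lit 19476218) [(nat_lit 254506), (nat_lit 0), (nat_lit 2734368), (nat_lit 6223598)]) (PF.cons PF.nil (PF.cons PF.nil PF.nil))))) (PF.cons (PF.cons (PF.leaf (nat_lit 6208343) (nat_lit 1121116) (nat_lit 37711716) (nat_lit 19318342) [(nat_lit 0), (nat_lit 1121116), (nat_lit 2744820), (nat_lit 6212816)]) (PF.cons (PF.leaf (nat_lit 6381080) (nat_lit 263966) (nat_lit 37507807) (nat_lit 19247423) [(nat_lit 263966), (nat_lit 1129505), (nat_lit 2751298), (nat_lit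 6208811)]) (PF.cons PF.nil (PF.cons PF.nil PF.nil)))) (PF.cons (PF.cons (PF.leaf (nat_lit 6750591) (nat_lit 1145980) (nat_lit 36849676) (nat_lit 19014076) [(nat_lit 0), (nat_lit 1145980), (nat_lit 2763877), (nat_lit 6189221)]) (PF.cons PF.nil PF.nil)) PF.nil))) (PF.cons (PF.cons (PF.cons (PF.leaf (nat_lit 6665948) (nat_lit 2751908) (nat_lit 36542477) (nat_lit 18897089) [(nat_lit 0), (nat_lit 0), (nat_lit 2751908), (nat_lit 6165429)]) (PF.cons (PF.leaf (nat_lit 6839413) (nat_lit 269186) (nat_lit 36342245) (nat_lit 18825150) [(nat_lit 269186), (nat_lit 0), (nat_lit 2756497), (nat_lit 6159235)]) PF.nil)) (PF.cons PF.nil PF.nil)) (PF.cons PF.nil (PF.cons PF.nil PF.nil))))) (PF.cons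
 (PF.cons (PF.cons (PF.cons (PF.leaf (nat_lit 6306539) (nat_lit 6097029) (nat_lit 36180021) (nat_lit 18734733) [(nat_lit 0), (nat_lit 0), (nat_lit 0), (nat_lit 6097029)]) (PF.cons (PF.leaf (nat_lit 6463058) (nat_lit 249145) (nat_lit 36003775) (nat_lit 18671245) [(nat_lit 249145), (nat_lit 0), (nat_lit 0), (nat_lit 6092323)]) (PF.cons (PF.leaf (nat_lit 6629706) (nat_lit 255921) (nat_lit 35818765) (nat_lit 18604262) [(nat_lit 255921), (nat_lit 0), (nat_lit 0), (nat_lit 6086970)]) (PF.cons PF.nil PF.nil)))) (PF.cons (PF.cons (PF.leaf (nat_lit 6814491) (nat_lit 1118066) (nat_lit 35400385) (nat_lit 18450095) [(nat_lit 0), (nat_lit 1118066), (nat_lit 0), (nat_lit 6070132)]) (PF.cons (PF.leaf (nat_lit 6983969) (nat_lit 264368) (nat_lit 35211770) (nat_lit 18380666) [(nat_lit 264368), (nat_lit 1125226), (nat_lit 0), (nat_lit 6063390)]) PF.nil)) (PF.cons PF.nil PF.nil))) (PF.cons (PF.cons (PF.cons (PF.leaf (nat_lit 7248626) (nat_lit 2712029) (nat_lit 34330925)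 (nat_lit 18043967) [(nat_lit 0), (nat_lit 0), (nat_lit 2712029), (nat_lit 6010944)]) (PF.cons PF.nil PF.nil)) (PF.cons PF.nil PF.nil)) (PF.cons PF.nil PF.nil))) (PF.cons (PF.cons (PF.cons (PF.cons (PF.leaf (nat_lit 7790548) (nat_lit
 5847324) (nat_lit 32328999) (nat_lit 17237840) [(nat_lit 0), (nat_lit 0), (nat_lit 0), (nat_lit 5847324)]) (PF.cons PF.nil PF.nil)) (PF.cons PF.nil PF.nil)) (PF.cons PF.nil PF.nil)) (PF.cons PF.nil (PF.cons PF.nil PF.nil))))))

def p15_8_3_0 : pfC (piC [(nat_lit 44228488), (nat_lit 27646207), (nat_lit 20402210), (nat_lit 13743659)] (nat_lit 4700038)) p15_8_3 (nat_lit 4) (nat_lit 0) (nat_lit 1) = true := by decide +kernel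
def p15_8_3_1 : pfC (piC [(nat_lit 44228488), (nat_lit 27646207), (nat_lit 20402210), (nat_lit 13743659)] (nat_lit 4700038)) p15_8_3 (nat_lit 4) (nat_lit 1) (nat_lit 2) = true := by decide +kernel
def p15_8_3_2 : pfC (piC [(nat_lit 44228488), (nat_lit 27646207), (nat_lit 20402210), (nat_lit 13743659)] (nat_lit 4700038)) p15_8_3 (nat_lit 4) (nat_lit 2) (nat_lit 3) = true := by decide +kernel
def p15_8_3_3 : pfC (piC [(nat_lit 44228488), (nat_lit 27646207), (nat_lit 20402210), (nat_lit 13743659)] (nat_lit 4700038)) p15_8_3 (nat_lit 4) (nat_lit 3) (nat_lit 4) = true := by decide +kernel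
def p15_8_3_4 : pfC (piC [(nat_lit 44228488), (nat_lit 27646207), (nat_lit 20402210), (nat_lit 13743659)] (nat_lit 4700038)) p15_8_3 (nat_lit 4) (nat_lit 4) (nat_lit 5) = true := by decide +kernel
def p15_8_3_5 : pfC (piC [(nat_lit 44228488), (nat_lit 27646207), (nat_lit 20402210), (nat_lit 13743659)] (nat_lit 4700038)) p15_8_3 (nat_lit 4) (nat_lit 5) (nat_lit 6) = true := by decide +kernel
def p15_8_3_6 : pfC (piC [(nat_lit 44228488), (nat_lit 27646207), (nat_lit 20402210), (nat_lit 13743659)] (nat_lit 4700038)) p15_8_3 (nat_lit 4) (nat_lit 6) (nat_lit 7) = true := by decide +kernel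
def p15_8_3_7 : pfC (piC [(nat_lit 44228488), (nat_lit 27646207), (nat_lit 20402210), (nat_lit 13743659)] (nat_lit 4700038)) p15_8_3 (nat_lit 4) (nat_lit 7) (nat_lit 8) = true := by decide +kernel
def p15_8_3_8 : pfC (piC [(nat_lit 44228488), (nat_lit 27646207), (nat_lit 20402210), (nat_lit 13743659)] (nat_lit 4700038)) p15_8_3 (nat_lit 4) (nat_lit 8) (nat_lit 9) = true := by decide +kernel
def p15_8_3_9 : pfC (piC [(nat_lit 44228488), (nat_lit 27646207), (nat_lit 20402210), (nat_lit 13743659)] (nat_lit 4700038)) p15_8_3 (nat_lit 4) (nat_lit 9) (nat_lit 10) = true := by decide +kernel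
def p15_8_3_10 : pfC (piC [(nat_lit 44228488), (nat_lit 27646207), (nat_lit 20402210), (nat_lit 13743659)] (nat_lit 4700038)) p15_8_3 (nat_lit 4) (nat_lit 10) (nat_lit 11) = true := by decide +kernel
def p15_8_3_11 : pfC (piC [(nat_lit 44228488), (nat_lit 27646207), (nat_lit 20402210), (nat_lit 13743659)] (nat_lit 4700038)) p15_8_3 (nat_lit 4) (nat_lit 11) (nat_lit 12) = true := by decide +kernel
def p15_8_3_12 : pfC (piC [(nat_lit 44228488), (nat_lit 27646207), (nat_lit 20402210), (nat_lit 13743659)] (nat_lit 4700038)) p15_8_3 (nat_lit 4) (nat_lit 12) (nat_lit 13) = true := by decide +kernel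
def p15_8_3_13 : pfC (piC [(nat_lit 44228488), (nat_lit 27646207), (nat_lit 20402210), (nat_lit 13743659)] (nat_lit 4700038)) p15_8_3 (nat_lit 4) (nat_lit 13) (nat_lit 14) = true := by decide +kernel
def p15_8_3_14 : pfC (piC [(nat_lit 44228488), (nat_lit 27646207), (nat_lit 20402210), (nat_lit 13743659)] (nat_lit 4700038)) p15_8_3 (nat_lit 4) (nat_lit 14) (nat_lit 15) = true := by decide +kernel
def p15_8_3_15 : pfC (piC [(nat_lit 44228488), (nat_lit 27646207), (nat_lit 20402210), (nat_lit 13743659)] (nat_lit 4700038)) p15_8_3 (nat_lit 4) (nat_lit 15) (nat_lit 16) = true := by decide +kernel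
def p15_8_3_16 : pfC (piC [(nat_lit 44228488), (nat_lit 27646207), (nat_lit 20402210), (nat_lit 13743659)] (nat_lit 4700038)) p15_8_3 (nat_lit 4) (nat_lit 16) (nat_lit 17) = true := by decide +kernel
def p15_8_3_17 : pfC (piC [(nat_lit 44228488), (nat_lit 27646207), (nat_lit 20402210), (nat_lit 13743659)] (nat_lit 4700038)) p15_8_3 (nat_lit 4) (nat_lit 17) (nat_lit 18) = true := by decide +kernel
def p15_8_3_18 : pfC (piC [(nat_lit 44228488), (nat_lit 27646207), (nat_lit 20402210), (nat_lit 13743659)] (nat_lit 4700038)) p15_8_3 (nat_lit 4) (nat_lit 18) (nat_lit 19) = true := by decide +kernel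
def p15_8_3_19 : pfC (piC [(nat_lit 44228488), (nat_lit 27646207), (nat_lit 20402210), (nat_lit 13743659)] (nat_lit 4700038)) p15_8_3 (nat_lit 4) (nat_lit 19) (nat_lit 20) = true := by decide +kernel
def p15_8_3_20 : pfC (piC [(nat_lit 44228488), (nat_lit 27646207), (nat_lit 20402210), (nat_lit 13743659)] (nat_lit 4700038)) p15_8_3 (nat_lit 4) (nat_lit 20) (nat_lit 21) = true := by decide +kernel
def p15_8_3_21 : pfC (piC [(nat_lit 44228488), (nat_lit 27646207), (nat_lit 20402210), (nat_lit 13743659)] (nat_lit 4700038)) p15_8_3 (nat_lit 4) (nat_lit 21) (nat_lit 22) = true := by decide +kernel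
def p15_8_3_22 : pfC (piC [(nat_lit 44228488), (nat_lit 27646207), (nat_lit 20402210), (nat_lit 13743659)] (nat_lit 4700038)) p15_8_3 (nat_lit 4) (nat_lit 22) (nat_lit 23) = true := by decide +kernel
def p15_8_3_23 : pfC (piC [(nat_lit 44228488), (nat_lit 27646207), (nat_lit 20402210), (nat_lit 13743659)] (nat_lit 4700038)) p15_8_3 (nat_lit 4) (nat_lit 23) (nat_lit 24) = true := by decide +kernel
def p15_8_3_24 : pfC (piC [(nat_lit 44228488), (nat_lit 27646207), (nat_lit 20402210), (nat_lit 13743659)] (nat_lit 4700038)) p15_8_3 (nat_lit 4) (nat_lit 24) (nat_lit 25) = true := by decide +kernel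
def p15_8_3_25 : pfC (piC [(nat_lit 44228488), (nat_lit 27646207), (nat_lit 20402210), (nat_lit 13743659)] (nat_lit 4700038)) p15_8_3 (nat_lit 4) (nat_lit 25) (nat_lit 26) = true := by decide +kernel
def p15_8_3_26 : pfC (piC [(nat_lit 44228488), (nat_lit 27646207), (nat_lit 20402210), (nat_lit 13743659)] (nat_lit 4700038)) p15_8_3 (nat_lit 4) (nat_lit 26) (nat_lit 27) = true := by decide +kernel
def p15_8_3_27 : pfC (piC [(nat_lit 44228488), (nat_lit 27646207), (nat_lit 20402210), (nat_lit 13743659)] (nat_lit 4700038)) p15_8_3 (nat_lit 4) (nat_lit 27) (nat_lit 28) = true := by decide +kernel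
def p15_8_3_28 : pfC (piC [(nat_lit 44228488), (nat_lit 27646207), (nat_lit 20402210), (nat_lit 13743659)] (nat_lit 4700038)) p15_8_3 (nat_lit 4) (nat_lit 28) (nat_lit 29) = true := by decide +kernel
def p15_8_3_29 : pfC (piC [(nat_lit 44228488), (nat_lit 27646207), (nat_lit 20402210), (nat_lit 13743659)] (nat_lit 4700038)) p15_8_3 (nat_lit 4) (nat_lit 29) (nat_lit 30) = true := by decide +kernel
def p15_8_3_30 : pfC (piC [(nat_lit 44228488), (nat_lit 27646207), (nat_lit 20402210), (nat_lit 13743659)] (nat_lit 4700038)) p15_8_3 (nat_lit 4) (nat_lit 30) (nat_lit 31) = true := by decide +kernel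
def p15_8_3_31 : pfC (piC [(nat_lit 44228488), (nat_lit 27646207), (nat_lit 20402210), (nat_lit 13743659)] (nat_lit 4700038)) p15_8_3 (nat_lit 4) (nat_lit 31) (nat_lit 32) = true := by decide +kernel
def p15_8_3_32 : pfC (piC [(nat_lit 44228488), (nat_lit 27646207), (nat_lit 20402210), (nat_lit 13743659)] (nat_lit 4700038)) p15_8_3 (nat_lit 4) (nat_lit 32) (nat_lit 33) = true := by decide +kernel
def p15_8_3_33 : pfC (piC [(nat_lit 44228488), (nat_lit 27646207), (nat_lit 20402210), (nat_lit 13743659)] (nat_lit 4700038)) p15_8_3 (nat_lit 4) (nat_lit 33) (nat_lit 34) = true := by decide +kernel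
def p15_8_3_34 : pfC (piC [(nat_lit 44228488), (nat_lit 27646207), (nat_lit 20402210), (nat_lit 13743659)] (nat_lit 4700038)) p15_8_3 (nat_lit 4) (nat_lit 34) (nat_lit 35) = true := by decide +kernel
def p15_8_3_35 : pfC (piC [(nat_lit 44228488), (nat_lit 27646207), (nat_lit 20402210), (nat_lit 13743659)] (nat_lit 4700038)) p15_8_3 (nat_lit 4) (nat_lit 35) (nat_lit 36) = true := by decide +kernel
def p15_8_3_36 : pfC (piC [(nat_lit 44228488), (nat_lit 27646207), (nat_lit 20402210), (nat_lit 13743659)] (nat_lit 4700038)) p15_8_3 (nat_lit 4) (nat_lit 36) (nat_lit 37) = true := by decide +kernel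
def p15_8_3_37 : pfC (piC [(nat_lit 44228488), (nat_lit 27646207), (nat_lit 20402210), (nat_lit 13743659)] (nat_lit 4700038)) p15_8_3 (nat_lit 4) (nat_lit 37) (nat_lit 38) = true := by decide +kernel
def p15_8_3_38 : pfC (piC [(nat_lit 44228488), (nat_lit 27646207), (nat_lit 20402210), (nat_lit 13743659)] (nat_lit 4700038)) p15_8_3 (nat_lit 4) (nat_lit 38) (nat_lit 39) = true := by decide +kernel
def p15_8_3_39 : pfC (piC [(nat_lit 44228488), (nat_lit 27646207), (nat_lit 20402210), (nat_lit 13743659)] (nat_lit 4700038)) p15_8_3 (nat_lit 4) (nat_lit 39) (nat_lit 40) = true := by decide +kernel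
def p15_8_3_40 : pfC (piC [(nat_lit 44228488), (nat_lit 27646207), (nat_lit 20402210), (nat_lit 13743659)] (nat_lit 4700038)) p15_8_3 (nat_lit 4) (nat_lit 40) (nat_lit 41) = true := by decide +kernel
def p15_8_3_41 : pfC (piC [(nat_lit 44228488), (nat_lit 27646207), (nat_lit 20402210), (nat_lit 13743659)] (nat_lit 4700038)) p15_8_3 (nat_lit 4) (nat_lit 41) (nat_lit 42) = true := by decide +kernel
def p15_8_3_42 : pfC (piC [(nat_lit 44228488), (nat_lit 27646207), (nat_lit 20402210), (nat_lit 13743659)] (nat_lit 4700038)) p15_8_3 (nat_lit 4) (nat_lit 42) (nat_lit 43) = true := by decide +kernel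
def p15_8_3_43 : pfC (piC [(nat_lit 44228488), (nat_lit 27646207), (nat_lit 20402210), (nat_lit 13743659)] (nat_lit 4700038)) p15_8_3 (nat_lit 4) (nat_lit 43) (nat_lit 44) = true := by decide +kernel
def p15_8_3_44 : pfC (piC [(nat_lit 44228488), (nat_lit 27646207), (nat_lit 20402210), (nat_lit 13743659)] (nat_lit 4700038)) p15_8_3 (nat_lit 4) (nat_lit 44) (nat_lit 45) = true := by decide +kernel
def p15_8_3_45 : pfC (piC [(nat_lit 44228488), (nat_lit 27646207), (nat_lit 20402210), (nat_lit 13743659)] (nat_lit 4700038)) p15_8_3 (nat_lit 4) (nat_lit 45) (nat_lit 46) = true := by decide +kernel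
def p15_8_3_46 : pfC (piC [(nat_lit 44228488), (nat_lit 27646207), (nat_lit 20402210), (nat_lit 13743659)] (nat_lit 4700038)) p15_8_3 (nat_lit 4) (nat_lit 46) (nat_lit 47) = true := by decide +kernel
def p15_8_3_47 : pfC (piC [(nat_lit 44228488), (nat_lit 27646207), (nat_lit 20402210), (nat_lit 13743659)] (nat_lit 4700038)) p15_8_3 (nat_lit 4) (nat_lit 47) (nat_lit 48) = true := by decide +kernel
def p15_8_3_48 : pfC (piC [(nat_lit 44228488), (nat_lit 27646207), (nat_lit 20402210), (nat_lit 13743659)] (nat_lit 4700038)) p15_8_3 (nat_lit 4) (nat_lit 48) (nat_lit 49) = true := by decide +kernel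
def p15_8_3_49 : pfC (piC [(nat_lit 44228488), (nat_lit 27646207), (nat_lit 20402210), (nat_lit 13743659)] (nat_lit 4700038)) p15_8_3 (nat_lit 4) (nat_lit 49) (nat_lit 50) = true := by decide +kernel
def p15_8_3_50 : pfC (piC [(nat_lit 44228488), (nat_lit 27646207), (nat_lit 20402210), (nat_lit 13743659)] (nat_lit 4700038)) p15_8_3 (nat_lit 4) (nat_lit 50) (nat_lit 51) = true := by decide +kernel
def p15_8_3_51 : pfC (piC [(nat_lit 44228488), (nat_lit 27646207), (nat_lit 20402210), (nat_lit 13743659)] (nat_lit 4700038)) p15_8_3 (nat_lit 4) (nat_lit 51) (nat_lit 52) = true := by decide +kernel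
def p15_8_3_52 : pfC (piC [(nat_lit 44228488), (nat_lit 27646207), (nat_lit 20402210), (nat_lit 13743659)] (nat_lit 4700038)) p15_8_3 (nat_lit 4) (nat_lit 52) (nat_lit 53) = true := by decide +kernel
def p15_8_3_53 : pfC (piC [(nat_lit 44228488), (nat_lit 27646207), (nat_lit 20402210), (nat_lit 13743659)] (nat_lit 4700038)) p15_8_3 (nat_lit 4) (nat_lit 53) (nat_lit 54) = true := by decide +kernel
def p15_8_3_54 : pfC (piC [(nat_lit 44228488), (nat_lit 27646207), (nat_lit 20402210), (nat_lit 13743659)] (nat_lit 4700038)) p15_8_3 (nat_lit 4) (nat_lit 54) (nat_lit 55) = true := by decide +kernel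
def p15_8_3_55 : pfC (piC [(nat_lit 44228488), (nat_lit 27646207), (nat_lit 20402210), (nat_lit 13743659)] (nat_lit 4700038)) p15_8_3 (nat_lit 4) (nat_lit 55) (nat_lit 56) = true := by decide +kernel
def p15_8_3_56 : pfC (piC [(nat_lit 44228488), (nat_lit 27646207), (nat_lit 20402210), (nat_lit 13743659)] (nat_lit 4700038)) p15_8_3 (nat_lit 4) (nat_lit 56) (nat_lit 57) = true := by decide +kernel
def p15_8_3_57 : pfC (piC [(nat_lit 44228488), (nat_lit 27646207), (nat_lit 20402210), (nat_lit 13743659)] (nat_lit 4700038)) p15_8_3 (nat_lit 4) (nat_lit 57) (nat_lit 58) = true := by decide +kernel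
def p15_8_3_58 : pfC (piC [(nat_lit 44228488), (nat_lit 27646207), (nat_lit 20402210), (nat_lit 13743659)] (nat_lit 4700038)) p15_8_3 (nat_lit 4) (nat_lit 58) (nat_lit 59) = true := by decide +kernel
def p15_8_3_59 : pfC (piC [(nat_lit 44228488), (nat_lit 27646207), (nat_lit 20402210), (nat_lit 13743659)] (nat_lit 4700038)) p15_8_3 (nat_lit 4) (nat_lit 59) (nat_lit 60) = true := by decide +kernel
def p15_8_3_60 : pfC (piC [(nat_lit 44228488), (nat_lit 27646207), (nat_lit 20402210), (nat_lit 13743659)] (nat_lit 4700038)) p15_8_3 (nat_lit 4) (nat_lit 60) (nat_lit 61) = true := by decide +kernel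
def p15_8_3_61 : pfC (piC [(nat_lit 44228488), (nat_lit 27646207), (nat_lit 20402210), (nat_lit 13743659)] (nat_lit 4700038)) p15_8_3 (nat_lit 4) (nat_lit 61) (nat_lit 62) = true := by decide +kernel
def p15_8_3_62 : pfC (piC [(nat_lit 44228488), (nat_lit 27646207), (nat_lit 20402210), (nat_lit 13743659)] (nat_lit 4700038)) p15_8_3 (nat_lit 4) (nat_lit 62) (nat_lit 63) = true := by decide +kernel
def p15_8_3_63 : pfC (piC [(nat_lit 44228488), (nat_lit 27646207), (nat_lit 20402210), (nat_lit 13743659)] (nat_lit 4700038)) p15_8_3 (nat_lit 4) (nat_lit 63) (nat_lit 64) = true := by decide +kernel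
def p15_8_3_64 : pfC (piC [(nat_lit 44228488), (nat_lit 27646207), (nat_lit 20402210), (nat_lit 13743659)] (nat_lit 4700038)) p15_8_3 (nat_lit 4) (nat_lit 64) (nat_lit 65) = true := by decide +kernel
def p15_8_3_65 : pfC (piC [(nat_lit 44228488), (nat_lit 27646207), (nat_lit 20402210), (nat_lit 13743659)] (nat_lit 4700038)) p15_8_3 (nat_lit 4) (nat_lit 65) (nat_lit 66) = true := by decide +kernel
def p15_8_3_66 : pfC (piC [(nat_lit 44228488), (nat_lit 27646207), (nat_lit 20402210), (nat_lit 13743659)] (nat_lit 4700038)) p15_8_3 (nat_lit 4) (nat_lit 66) (nat_lit 67) = true := by decide +kernel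
def p15_8_3_67 : pfC (piC [(nat_lit 44228488), (nat_lit 27646207), (nat_lit 20402210), (nat_lit 13743659)] (nat_lit 4700038)) p15_8_3 (nat_lit 4) (nat_lit 67) (nat_lit 68) = true := by decide +kernel
theorem p15_8_3_T : PfS (PiF n15_8.reverse (nat_lit 4700038)) p15_8_3 (nat_lit 4) [] 0 :=
  pftab_of (los := [(nat_lit 44228488), (nat_lit 27646207), (nat_lit 20402210), (nat_lit 13743659)]) (by decide +kernel) (hi := (nat_lit 68)) (PfP.trans (PfP.trans (PfP.trans (PfP.trans (PfP.trans (PfP.trans (PfP.trans (PfP.trans (PfP.trans (PfP.trans (PfP.trans (PfP.trans (PfP.trans (PfP.trans (PfP.trans (PfP.trans (PfP.trans (PfP.trans (PfP.trans (PfP.trans (PfP.trans (PfP.trans (PfP.trans (PfP.trans (PfP.trans (PfP.trans (PfP.trans (PfP.trans (PfP.trans (PfP.trans (PfP.trans (PfP.trans (PfP.trans (PfP.trans (PfP.trans (PfP.trans (PfP.trans (PfP.trans (PfP.trans (PfP.trans (PfP.trans (PfP.trans (PfP.trans (PfP.trans (PfP.trans (PfP.trans (PfP.trans (PfP.trans (PfP.trans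 (PfP.trans (PfP.trans (PfP.trans (PfP.trans (PfP.trans (PfP.trans (PfP.trans (PfP.trans (PfP.trans (PfP.trans (PfP.trans (PfP.trans (PfP.trans (PfP.trans (PfP.trans (PfP.trans (PfP.trans (PfP.trans (pfC_sound p15_8_3_0) (pfC_sound p15_8_3_1)) (pfC_sound p15_8_3_2)) (pfC_sound p15_8_3_3)) (pfC_sound p15_8_3_4)) (pfC_sound p15_8_3_5)) (pfC_sound p15_8_3_6)) (pfC_sound p15_8_3_7)) (pfC_sound p15_8_3_8)) (pfC_sound p15_8_3_9)) (pfC_sound p15_8_3_10)) (pfC_sound p15_8_3_11)) (pfC_sound p15_8_3_12)) (pfC_sound p15_8_3_13)) (pfC_sound p15_8_3_14)) (pfC_sound p15_8_3_15)) (pfC_sound p15_8_3_16)) (pfC_sound p15_8_3_17)) (pfC_sound p15_8_3_18)) (pfC_sound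
 p15_8_3_19)) (pfC_sound p15_8_3_20)) (pfC_sound p15_8_3_21)) (pfC_sound p15_8_3_22)) (pfC_sound p15_8_3_23)) (pfC_sound p15_8_3_24)) (pfC_sound p15_8_3_25)) (pfC_sound p15_8_3_26)) (pfC_sound p15_8_3_27)) (pfC_sound p15_8_3_28)) (pfC_sound p15_8_3_29)) (pfC_sound p15_8_3_30)) (pfC_sound p15_8_3_31)) (pfC_sound p15_8_3_32)) (pfC_sound p15_8_3_33)) (pfC_sound p15_8_3_34)) (pfC_sound p15_8_3_35)) (pfC_sound p15_8_3_36)) (pfC_sound p15_8_3_37)) (pfC_sound p15_8_3_38)) (pfC_sound p15_8_3_39)) (pfC_sound p15_8_3_40)) (pfC_sound p15_8_3_41)) (pfC_sound p15_8_3_42)) (pfC_sound p15_8_3_43)) (pfC_sound p15_8_3_44)) (pfC_sound p15_8_3_45)) (pfC_sound p15_8_3_46)) (pfC_sound p15_8_3_47)) (pfC_sound p15_8_3_48)) (pfC_sound p15_8_3_49)) (pfC_sound p15_8_3_50)) (pfC_sound p15_8_3_51)) (pfC_sound p15_8_3_52)) (pfC_sound p15_8_3_53)) (pfC_sound p15_8_3_54)) (pfC_sound p15_8_3_55)) (pfC_sound p15_8_3_56)) (pfC_sound p15_8_3_57)) (pfC_sound p15_8_3_58)) (pfC_sound p15_8_3_59))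 (pfC_sound p15_8_3_60)) (pfC_sound p15_8_3_61)) (pfC_sound p15_8_3_62)) (pfC_sound p15_8_3_63)) (pfC_sound p15_8_3_64)) (pfC_sound p15_8_3_65)) (pfC_sound p15_8_3_66)) (pfC_sound p15_8_3_67)) (by decide +kernel)

def z15_8_3 : zOK yB15_8 (nat_lit 3) (nat_lit 750) (nat_lit 922) (nat_lit 4700038) (nat_lit 2652686) = true := by decide +kernel
def g15_8_3 : gOK yB15_8.x P15_8 (nat_lit 1428) (q15_8 :: r15_8) (nat_lit 3) (nat_lit 750) (nat_lit 4) (nat_lit 922) (nat_lit 12712500) (nat_lit 12712500) (nat_lit 12712500) (nat_lit 12712500) [(nat_lit 800)] = true := by decide +kernel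
def v15_8_3 : ivC P15_8 s15_8 w15_8 n15_8 (nat_lit 4) (nat_lit 4770) (nat_lit 3) (nat_lit 750) f136_1_750 f144_1_750 (nat_lit 4) (nat_lit 922) f136_1_922 f144_1_922 (nat_lit 4700038) (nat_lit 2652686) p15_8_3 = true := by decide +kernel
/-! box `yB15_9` -/

def P15_9 : BQ := ⟨(nat_lit 8), (nat_lit 6), (nat_lit 2), (nat_lit 4), (nat_lit 4), (nat_lit 690), (nat_lit 700), (nat_lit 120), [(nat_lit 200), (nat_lit 300), (nat_lit 450), (nat_lit 800)], (nat_lit 71408000), (nat_lit 16000000), (nat_lit 16000000000)⟩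
def q15_9 : PC := ⟨(nat_lit 1000), [(nat_lit 120000), (nat_lit 200000), (nat_lit 300000), (nat_lit 450000), (nat_lit 800000)], (nat_lit 340282367000166625996085689103316680705000000), (nat_lit 15928592000000), (nat_lit 15928592000000), (nat_lit 10000000)⟩
def r15_9 : List PC := [⟨(nat_lit 1320), [(nat_lit 120543), (nat_lit 200987), (nat_lit 301672), (nat_lit 451936), (nat_lit 799108)], (nat_lit 342420361112079933528337324294772155678150311), (nat_lit 16321001932800), (nat_lit 16327043276800), (nat_lit 10055734)⟩]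
def s15_9 : List PB := [⟨(nat_lit 26400), (nat_lit 1928688000000), [(nat_lit 200987), (nat_lit 301672), (nat_lit 451936), (nat_lit 799108)], (nat_lit 342420361112079933528337324294772155678150311), (nat_lit 1142220908775424), (nat_lit 1142226950119424), (nat_lit 51200)⟩]
def n15_9 : List KN := [⟨(nat_lit 800), (nat_lit 450), (nat_lit 13664919), (nat_lit 7743574)⟩, ⟨(nat_lit 450), (nat_lit 300), (nat_lit 20325581), (nat_lit 13664919)⟩, ⟨(nat_lit 300), (nat_lit 200), (nat_lit 27488723), (nat_lit 20325581)⟩, ⟨(nat_lit 200), (nat_lit 120), (nat_lit 44228488), (nat_lit 27488723)⟩]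
def w15_9 : List ℕ := [(nat_lit 51200)]
def par15_9 : parC yB15_9 P15_9 s15_9 r15_9 q15_9 n15_9 w15_9 = true := by decide +kernel

def p15_9_0 : PF := (PF.cons (PF.cons (PF.cons (PF.cons (PF.leaf (nat_lit 571322) (nat_lit 1629645) (nat_lit 65479167) (nat_lit 1629645) [(nat_lit 0), (nat_lit 0), (nat_lit 0), (nat_lit 0)]) (PF.cons (PF.leaf (nat_lit 651010) (nat_lit 121763) (nat_lit 65323571) (nat_lit 1663477) [(nat_lit 121763), (nat_lit 0), (nat_lit 0), (nat_lit 0)]) (PF.cons (PF.leaf (nat_lit 756066) (nat_lit 134530) (nat_lit 65138107) (nat_lit 1701644) [(nat_lit 134530), (nat_lit 0), (nat_lit 0), (nat_lit 0)]) (PF.cons (PF.leaf (nat_lit 875503) (nat_lit 146556) (nat_lit 64926425) (nat_lit 1742718) [(nat_lit 146556), (nat_lit 0), (nat_lit 0), (nat_lit 0)]) (PF.cons (PF.leaf (nat_lit 1009418) (nat_lit 158036) (nat_lit 64690963) (nat_lit 1785703) [(nat_lit 158036), (nat_lit 0), (nat_lit 0), (nat_lit 0)]) (PF.cons (PF.leaf (nat_lit 1156028) (nat_lit 169080)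 (nat_lit 64433541) (nat_lit 1829868) [(nat_lit 169080), (nat_lit 0), (nat_lit 0), (nat_lit 0)]) (PF.cons PF.nil (PF.cons PF.nil (PF.cons PF.nil PF.nil))))))))) (PF.cons (PF.cons (PF.leaf (nat_lit 978332) (nat_lit 795411) (nat_lit 64507628) (nat_lit 1805772) [(nat_lit 0), (nat_lit 795411), (nat_lit 0), (nat_lit 0)]) (PF.cons (PF.leaf (nat_lit 1098336) (nat_lit 161398) (nat_lit
 64282570) (nat_lit 1843231) [(nat_lit 161398), (nat_lit 821612), (nat_lit 0), (nat_lit 0)]) (PF.cons (PF.leaf (nat_lit 1237508) (nat_lit 172614) (nat_lit 64032118) (nat_lit 1882730) [(nat_lit 172614), (nat_lit 848736), (nat_lit 0), (nat_lit 0)]) (PF.cons (PF.leaf (nat_lit 1389886) (nat_lit 183334) (nat_lit 63759062) (nat_lit 1923459) [(nat_lit 183334), (nat_lit 876288), (nat_lit 0), (nat_lit 0)]) (PF.cons (PF.leaf (nat_lit 1554799) (nat_lit 193649) (nat_lit 63465440) (nat_lit 1964834) [(nat_lit 193649), (nat_lit 903941), (nat_lit 0), (nat_lit 0)]) (PF.cons PF.nil (PF.cons PF.nil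 PF.nil))))))) (PF.cons (PF.cons (PF.leaf (nat_lit 1478577) (nat_lit 903934) (nat_lit 63327766) (nat_lit 1973177) [(nat_lit 0), (nat_lit 903934), (nat_lit 0), (nat_lit 0)]) (PF.cons (PF.leaf (nat_lit 1632113) (nat_lit 196359) (nat_lit 63043807) (nat_lit 2010416) [(nat_lit 196359), (nat_lit 929114), (nat_lit 0), (nat_lit 0)]) (PF.cons (PF.leaf (nat_lit 1801475) (nat_lit 206408) (nat_lit 62738473) (nat_lit 2048414) [(nat_lit 206408), (nat_lit 954553), (nat_lit 0), (nat_lit 0)]) (PF.cons PF.nil (PF.cons PF.nil PF.nil))))) (PF.cons (PF.cons (PF.leaf (nat_lit 2056781) (nat_lit 1001599) (nat_lit 61978115)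
 (nat_lit 2125899) [(nat_lit 0), (nat_lit 1001599), (nat_lit 0), (nat_lit 0)]) (PF.cons (PF.leaf (nat_lit 2238787) (nat_lit 227498) (nat_lit 61645407) (nat_lit 2160917) [(nat_lit 227498), (nat_lit 1024996), (nat_lit 0), (nat_lit 0)]) (PF.cons PF.nil (PF.cons PF.nil PF.nil)))) (PF.cons (PF.cons (PF.leaf (nat_lit 2698680) (nat_lit 1088227) (nat_lit 60494472) (nat_lit 2261432) [(nat_lit 0), (nat_lit 1088227), (nat_lit 0), (nat_lit 0)]) (PF.cons PF.nil PF.nil)) (PF.cons PF.nil PF.nil)))))) (PF.cons (PF.cons (PF.cons (PF.leaf (nat_lit 1542936) (nat_lit 2014021) (nat_lit 62578439) (nat_lit 2014021) [(nat_lit 0), (nat_lit 0), (nat_lit 2516351), (nat_lit 0)]) (PF.cons (PF.leaf (nat_lit 1679694) (nat_lit 188827) (nat_lit 62323142) (nat_lit 2045949) [(nat_lit 188827), (nat_lit 0), (nat_lit 2550894), (nat_lit 0)]) (PF.cons (PF.leaf (nat_lit 1834285) (nat_lit 200039) (nat_lit 62042075) (nat_lit 2079433) [(nat_lit 200039), (nat_lit 0), (nat_lit 2587225), (nat_lit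 0)]) (PF.cons (PF.leaf (nat_lit 2002177) (nat_lit 210542) (nat_lit 61738803) (nat_lit 2113788) [(nat_lit 210542), (nat_lit 0), (nat_lit 2624593), (nat_lit 0)]) (PF.cons (PF.leaf (nat_lit 2182094) (nat_lit 220481) (nat_lit 61415901)
 (nat_lit 2148529) [(nat_lit 220481), (nat_lit 0), (nat_lit 2662456), (nat_lit 0)]) (PF.cons PF.nil (PF.cons PF.nil PF.nil))))))) (PF.cons (PF.cons (PF.leaf (nat_lit 2085863) (nat_lit 1007447) (nat_lit 61279289) (nat_lit 2153084) [(nat_lit 0), (nat_lit 1007447), (nat_lit 2668992), (nat_lit 0)]) (PF.cons (PF.leaf (nat_lit 2253581) (nat_lit 221599) (nat_lit 60970249) (nat_lit 2184366) [(nat_lit 221599), (nat_lit 1029567), (nat_lit 2703029), (nat_lit 0)]) (PF.cons (PF.leaf (nat_lit 2435795) (nat_lit 231294) (nat_lit 60640649) (nat_lit 2216142) [(nat_lit 231294), (nat_lit 1051779), (nat_lit 2737651), (nat_lit 0)]) (PF.cons PF.nil (PF.cons PF.nil PF.nil))))) (PF.cons (PF.cons (PF.leaf (nat_lit 2695832) (nat_lit 1090824) (nat_lit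 59841545) (nat_lit 2278602) [(nat_lit 0), (nat_lit 1090824), (nat_lit 2807016), (nat_lit 0)]) (PF.cons (PF.leaf (nat_lit 2888905) (nat_lit 250072) (nat_lit 59490359) (nat_lit 2307618) [(nat_lit 250072), (nat_lit 1111079), (nat_lit 2838602), (nat_lit 0)]) (PF.cons PF.nil (PF.cons PF.nil PF.nil)))) (PF.cons (PF.cons (PF.leaf (nat_lit 3358672) (nat_lit 1163914) (nat_lit 58300737) (nat_lit 2388607) [(nat_lit 0), (nat_lit 1163914), (nat_lit 2927724), (nat_lit 0)])
 (PF.cons PF.nil PF.nil)) (PF.cons PF.nil PF.nil))))) (PF.cons (PF.cons (PF.cons (PF.leaf (nat_lit 2704041) (nat_lit 2295259) (nat_lit 59155403) (nat_lit 2295259) [(nat_lit 0), (nat_lit 0), (nat_lit 2829075), (nat_lit 0)]) (PF.cons (PF.leaf (nat_lit 2882228) (nat_lit 242852) (nat_lit 58830270) (nat_lit 2321383) [(nat_lit 242852), (nat_lit 0), (nat_lit 2857153), (nat_lit 0)]) (PF.cons (PF.leaf (nat_lit 3074238) (nat_lit 252148) (nat_lit 58485624) (nat_lit 2347782) [(nat_lit 252148), (nat_lit 0),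 (nat_lit 2885555), (nat_lit 0)]) (PF.cons PF.nil PF.nil)))) (PF.cons (PF.cons (PF.leaf (nat_lit 3335120) (nat_lit 1162643) (nat_lit 57667939) (nat_lit 2397646) [(nat_lit 0), (nat_lit 1162643), (nat_lit 2940291), (nat_lit 0)]) (PF.cons (PF.leaf (nat_lit 3536104) (nat_lit 268805) (nat_lit 57306719) (nat_lit 2421472) [(nat_lit 268805), (nat_lit 1180097), (nat_lit 2965858), (nat_lit 0)]) PF.nil)) (PF.cons PF.nil PF.nil))) (PF.cons (PF.cons (PF.cons (PF.leaf (nat_lit 3967352) (nat_lit 2488733) (nat_lit 55497887) (nat_lit 2488733) [(nat_lit 0), (nat_lit 0), (nat_lit 3040730), (nat_lit 0)]) (PF.cons PF.nil PF.nil)) (PF.cons PF.nil PF.nil)) (PF.cons PF.nil (PF.cons PF.nil PF.nil)))))) (PF.cons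
 (PF.cons (PF.cons (PF.cons (PF.leaf (nat_lit 2553205) (nat_lit 2233773) (nat_lit 57571005) (nat_lit 2233773) [(nat_lit 0), (nat_lit 0), (nat_lit 0), (nat_lit 7304034)]) (PF.cons (PF.leaf (nat_lit 2700145) (nat_lit 214738) (nat_lit 57309001) (nat_lit 2258119) [(nat_lit 214738), (nat_lit 0), (nat_lit 0), (nat_lit 7326953)]) (PF.cons (PF.leaf (nat_lit 2864058) (nat_lit 226019) (nat_lit 57022591) (nat_lit 2283383) [(nat_lit 226019), (nat_lit 0), (nat_lit 0), (nat_lit 7350799)]) (PF.cons (PF.leaf (nat_lit 3040682) (nat_lit 236335) (nat_lit 56715781) (nat_lit 2309035) [(nat_lit 236335), (nat_lit 0), (nat_lit 0), (nat_lit 7374990)]) (PF.cons (PF.leaf (nat_lit 3228608) (nat_lit 245884) (nat_lit 56391472) (nat_lit 2334708) [(nat_lit 245884), (nat_lit 0), (nat_lit 0), (nat_lit 7399092)]) (PF.cons (PF.leaf (nat_lit 3426460) (nat_lit 254799) (nat_lit 56051914) (nat_lit 2360138) [(nat_lit 254799), (nat_lit 0), (nat_lit 0), (nat_lit 7422762)]) (PF.cons PF.nil (PF.cons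 PF.nil (PF.cons PF.nil PF.nil))))))))) (PF.cons (PF.cons (PF.leaf (nat_lit 3112114) (nat_lit 1108802) (nat_lit 56262106) (nat_lit 2335072) [(nat_lit 0), (nat_lit 1108802), (nat_lit 0), (nat_lit 7402831)]) (PF.cons (PF.leaf
 (nat_lit 3286672) (nat_lit 245185) (nat_lit 55954539) (nat_lit 2358067) [(nat_lit 245185), (nat_lit 1127211), (nat_lit 0), (nat_lit 7423808)]) (PF.cons (PF.leaf (nat_lit 3474785) (nat_lit 254451) (nat_lit 55628587) (nat_lit 2381203) [(nat_lit 254451), (nat_lit 1145448), (nat_lit 0), (nat_lit 7444671)]) (PF.cons (PF.leaf (nat_lit 3673112) (nat_lit 263049) (nat_lit 55287068) (nat_lit 2404186) [(nat_lit 263049), (nat_lit 1163342), (nat_lit 0), (nat_lit 7465066)]) (PF.cons (PF.leaf (nat_lit 3880609) (nat_lit 271089) (nat_lit 54932143) (nat_lit 2426804) [(nat_lit 271089), (nat_lit 1180783), (nat_lit 0), (nat_lit 7484723)]) (PF.cons PF.nil (PF.cons PF.nil PF.nil))))))) (PF.cons (PF.cons (PF.leaf (nat_lit 3724920) (nat_lit 1174482) (nat_lit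 54852756) (nat_lit 2423480) [(nat_lit 0), (nat_lit 1174482), (nat_lit 0), (nat_lit 7483611)]) (PF.cons (PF.leaf (nat_lit 3921266) (nat_lit 270407) (nat_lit 54512110) (nat_lit 2444116) [(nat_lit 270407), (nat_lit 1190712), (nat_lit 0), (nat_lit 7500753)]) (PF.cons (PF.leaf (nat_lit 4128317) (nat_lit 278192) (nat_lit 54157598) (nat_lit 2464476) [(nat_lit 278192), (nat_lit 1206596), (nat_lit 0), (nat_lit 7517159)]) (PF.cons (PF.leaf (nat_lit 4343837)
 (nat_lit 285471) (nat_lit 53791305) (nat_lit 2484389) [(nat_lit 285471), (nat_lit 1222041), (nat_lit 0), (nat_lit 7532619)]) (PF.cons PF.nil PF.nil))))) (PF.cons (PF.cons (PF.leaf (nat_lit 4377987) (nat_lit 1230115) (nat_lit 53376798) (nat_lit 2498421) [(nat_lit 0), (nat_lit 1230115), (nat_lit 0), (nat_lit 7543247)]) (PF.cons (PF.leaf (nat_lit 4591271) (nat_lit 291575) (nat_lit 53012883) (nat_lit 2516254) [(nat_lit 291575), (nat_lit 1244173), (nat_lit 0), (nat_lit 7555576)]) (PF.cons PF.nil (PF.cons PF.nil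 PF.nil)))) (PF.cons (PF.cons (PF.leaf (nat_lit 5060088) (nat_lit 1276651) (nat_lit 51861193) (nat_lit 2560163) [(nat_lit 0), (nat_lit 1276651), (nat_lit 0), (nat_lit 7580851)]) (PF.cons PF.nil PF.nil)) (PF.cons PF.nil PF.nil)))))) (PF.cons (PF.cons (PF.cons (PF.leaf (nat_lit 3703458) (nat_lit 2425881) (nat_lit 54219872) (nat_lit 2425881) [(nat_lit 0), (nat_lit 0), (nat_lit 2975539), (nat_lit 7487519)]) (PF.cons (PF.leaf (nat_lit 3884777) (nat_lit 261099) (nat_lit 53906485) (nat_lit 2444750) [(nat_lit 261099), (nat_lit 0), (nat_lit 2994912), (nat_lit 7501565)]) (PF.cons (PF.leaf (nat_lit 4078880) (nat_lit 269897) (nat_lit 53575890) (nat_lit 2463628) [(nat_lit 269897), (nat_lit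
 0), (nat_lit 3014313), (nat_lit 7515185)]) (PF.cons (PF.leaf (nat_lit 4282690) (nat_lit 277970) (nat_lit 53231023) (nat_lit 2482272) [(nat_lit 277970), (nat_lit 0), (nat_lit 3033483), (nat_lit 7528120)]) (PF.cons (PF.leaf (nat_lit 4495010) (nat_lit 285445) (nat_lit 52874107) (nat_lit 2500514) [(nat_lit 285445), (nat_lit 0), (nat_lit 3052236), (nat_lit 7540171)]) PF.nil))))) (PF.cons (PF.cons (PF.leaf (nat_lit 4326271) (nat_lit 1223019) (nat_lit 52803151) (nat_lit 2496438) [(nat_lit 0), (nat_lit 1223019), (nat_lit 3048778), (nat_lit 7537424)]) (PF.cons (PF.leaf (nat_lit 4527150) (nat_lit 283952) (nat_lit 52461652) (nat_lit 2513053) [(nat_lit 283952), (nat_lit 1236882), (nat_lit 3065763), (nat_lit 7547508)]) (PF.cons (PF.leaf (nat_lit 4738137) (nat_lit 291217) (nat_lit 52107537) (nat_lit 2529345) [(nat_lit 291217), (nat_lit 1250373), (nat_lit 3082400), (nat_lit 7556721)]) (PF.cons PF.nil PF.nil)))) (PF.cons (PF.cons (PF.leaf (nat_lit 4982353) (nat_lit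 1269113) (nat_lit 51338833) (nat_lit 2555002) [(nat_lit 0), (nat_lit 1269113), (nat_lit 3108998), (nat_lit 7567752)]) (PF.cons (PF.leaf (nat_lit 5198114) (nat_lit 302840) (nat_lit 50978571) (nat_lit 2569044) [(nat_lit 302840), (nat_lit
 1280951), (nat_lit 3123180), (nat_lit 7573273)]) PF.nil)) (PF.cons PF.nil (PF.cons PF.nil PF.nil))))) (PF.cons (PF.cons (PF.cons (PF.leaf (nat_lit 4915222) (nat_lit 2549416) (nat_lit 50798050) (nat_lit 2549416) [(nat_lit 0), (nat_lit 0), (nat_lit 3103986), (nat_lit 7553373)]) (PF.cons (PF.leaf (nat_lit 5118874) (nat_lit 294889) (nat_lit 50459869) (nat_lit 2562569) [(nat_lit 294889), (nat_lit 0), (nat_lit 3117057), (nat_lit 7557368)]) (PF.cons (PF.leaf (nat_lit 5332057) (nat_lit 301666) (nat_lit 50110221) (nat_lit 2575365) [(nat_lit 301666), (nat_lit 0), (nat_lit 3129739), (nat_lit 7560415)]) (PF.cons PF.nil PF.nil)))) (PF.cons (PF.cons (PF.leaf (nat_lit 5569679) (nat_lit 1298354) (nat_lit 49360689) (nat_lit 2594064) [(nat_lit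 0), (nat_lit 1298354), (nat_lit 3148401), (nat_lit 7558900)]) (PF.cons PF.nil PF.nil)) (PF.cons PF.nil PF.nil))) (PF.cons (PF.cons (PF.cons (PF.leaf (nat_lit 6138187) (nat_lit 2618608) (nat_lit 47453984) (nat_lit 2618608) [(nat_lit 0), (nat_lit 0), (nat_lit 3171087), (nat_lit 7522958)]) (PF.cons PF.nil PF.nil)) (PF.cons PF.nil PF.nil)) (PF.cons PF.nil PF.nil))))) (PF.cons (PF.cons (PF.cons (PF.cons (PF.leaf (nat_lit 4605651) (nat_lit 2482889) (nat_lit
 49721757) (nat_lit 2482889) [(nat_lit 0), (nat_lit 0), (nat_lit 0), (nat_lit 7452083)]) (PF.cons (PF.leaf (nat_lit 4786378) (nat_lit 271323) (nat_lit 49430046) (nat_lit 2496513) [(nat_lit 271323), (nat_lit 0), (nat_lit 0), (nat_lit 7455464)]) (PF.cons (PF.leaf (nat_lit 4978964) (nat_lit 279631) (nat_lit 49123266) (nat_lit 2509982) [(nat_lit 279631), (nat_lit 0), (nat_lit 0), (nat_lit 7458150)]) (PF.cons (PF.leaf (nat_lit 5180459) (nat_lit 287145) (nat_lit 48804220) (nat_lit 2523122) [(nat_lit 287145),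 (nat_lit 0), (nat_lit 0), (nat_lit 7460016)]) (PF.cons (PF.leaf (nat_lit 5389583) (nat_lit 294008) (nat_lit 48475015) (nat_lit 2535816) [(nat_lit 294008), (nat_lit 0), (nat_lit 0), (nat_lit 7460972)]) (PF.cons PF.nil (PF.cons PF.nil PF.nil))))))) (PF.cons (PF.cons (PF.leaf (nat_lit 5211646) (nat_lit 1250517) (nat_lit 48414185) (nat_lit 2530928) [(nat_lit 0), (nat_lit 1250517), (nat_lit 0), (nat_lit 7456590)]) (PF.cons (PF.leaf (nat_lit 5409401) (nat_lit 291631) (nat_lit 48100124) (nat_lit 2542429) [(nat_lit 291631), (nat_lit 1261665), (nat_lit 0), (nat_lit 7456481)]) (PF.cons (PF.leaf (nat_lit 5616418) (nat_lit 298308) (nat_lit 47775323) (nat_lit 2553555) [(nat_lit 298308), (nat_lit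
 1272392), (nat_lit 0), (nat_lit 7455462)]) (PF.cons (PF.leaf (nat_lit 5830405) (nat_lit 304414) (nat_lit 47441750) (nat_lit 2564214) [(nat_lit 304414), (nat_lit 1282651), (nat_lit 0), (nat_lit 7453476)]) (PF.cons PF.nil PF.nil))))) (PF.cons (PF.cons (PF.leaf (nat_lit 5843758) (nat_lit 1285475) (nat_lit 47077011) (nat_lit 2568815) [(nat_lit 0), (nat_lit 1285475), (nat_lit 0), (nat_lit 7446017)]) (PF.cons (PF.leaf (nat_lit 6054161) (nat_lit 307937) (nat_lit 46748971) (nat_lit 2578066) [(nat_lit 307937), (nat_lit 1294705), (nat_lit 0), (nat_lit 7442213)]) (PF.cons PF.nil (PF.cons PF.nil PF.nil)))) (PF.cons (PF.cons (PF.leaf (nat_lit 6492906) (nat_lit 1313238) (nat_lit 45730077) (nat_lit 2597214) [(nat_lit 0), (nat_lit 1313238), (nat_lit 0), (nat_lit 7420902)]) (PF.cons PF.nil PF.nil)) (PF.cons PF.nil PF.nil))))) (PF.cons (PF.cons (PF.cons (PF.leaf (nat_lit 5758710) (nat_lit 2558389) (nat_lit 46601962) (nat_lit 2558389) [(nat_lit 0), (nat_lit 0), (nat_lit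 3105961), (nat_lit 7421249)]) (PF.cons (PF.leaf (nat_lit 5957664) (nat_lit 299385) (nat_lit 46294367) (nat_lit 2567211) [(nat_lit 299385), (nat_lit 0), (nat_lit 3114005), (nat_lit 7416921)]) (PF.cons (PF.leaf (nat_lit 6165371)
 (nat_lit 305610) (nat_lit 45976994) (nat_lit 2575651) [(nat_lit 305610), (nat_lit 0), (nat_lit 3121635), (nat_lit 7411655)]) (PF.cons PF.nil PF.nil)))) (PF.cons (PF.cons (PF.leaf (nat_lit 6385754) (nat_lit 1302702) (nat_lit 45302198) (nat_lit 2585778) [(nat_lit 0), (nat_lit 1302702), (nat_lit 3130365), (nat_lit 7393884)]) (PF.cons (PF.leaf (nat_lit 6595980) (nat_lit 313937) (nat_lit 44983359) (nat_lit 2592568) [(nat_lit 313937), (nat_lit 1310368), (nat_lit 3136237), (nat_lit 7386170)]) PF.nil)) (PF.cons PF.nil PF.nil))) (PF.cons (PF.cons (PF.cons (PF.leaf (nat_lit 6909543) (nat_lit 2592455) (nat_lit 43602593) (nat_lit 2592455) [(nat_lit 0), (nat_lit 0), (nat_lit 3132340), (nat_lit 7324541)]) (PF.cons PF.nil PF.nil)) (PF.cons PF.nil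 PF.nil)) (PF.cons PF.nil (PF.cons PF.nil PF.nil))))) (PF.cons (PF.cons (PF.cons (PF.cons (PF.leaf (nat_lit 6513520) (nat_lit 2535155) (nat_lit 42893940) (nat_lit 2535155) [(nat_lit 0), (nat_lit 0), (nat_lit 0), (nat_lit 7226572)]) (PF.cons (PF.leaf (nat_lit 6706779) (nat_lit 299822) (nat_lit 42616852) (nat_lit 2540910) [(nat_lit 299822), (nat_lit 0), (nat_lit 0), (nat_lit 7217075)]) (PF.cons (PF.leaf (nat_lit 6908208) (nat_lit 305581) (nat_lit 42331340)
 (nat_lit 2546279) [(nat_lit 305581), (nat_lit 0), (nat_lit 0), (nat_lit 7206676)]) (PF.cons PF.nil PF.nil)))) (PF.cons (PF.cons (PF.leaf (nat_lit 7113149) (nat_lit 1292314) (nat_lit 41728304) (nat_lit 2550562) [(nat_lit 0), (nat_lit 1292314), (nat_lit 0), (nat_lit 7179210)]) (PF.cons PF.nil PF.nil)) (PF.cons PF.nil PF.nil))) (PF.cons (PF.cons (PF.cons (PF.leaf (nat_lit 7597936) (nat_lit 2545551) (nat_lit 40220234) (nat_lit 2545551) [(nat_lit 0), (nat_lit 0), (nat_lit 3069673), (nat_lit 7091117)]) (PF.cons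 PF.nil PF.nil)) (PF.cons PF.nil PF.nil)) (PF.cons PF.nil PF.nil))) (PF.cons (PF.cons (PF.cons (PF.cons (PF.leaf (nat_lit 8218117) (nat_lit 2486670) (nat_lit 37249847) (nat_lit 2486670) [(nat_lit 0), (nat_lit 0), (nat_lit 0), (nat_lit 6843073)]) (PF.cons PF.nil PF.nil)) (PF.cons PF.nil PF.nil)) (PF.cons PF.nil PF.nil)) (PF.cons PF.nil (PF.cons PF.nil (PF.cons PF.nil PF.nil))))))))

def p15_9_0_0 : pfC (piC [(nat_lit 44228488), (nat_lit 27488723), (nat_lit 20325581), (nat_lit 13664919)] (nat_lit 26882477)) p15_9_0 (nat_lit 4) (nat_lit 0) (nat_lit 1) = true := by decide +kernel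
def p15_9_0_1 : pfC (piC [(nat_lit 44228488), (nat_lit 27488723), (nat_lit 20325581), (nat_lit 13664919)] (nat_lit 26882477)) p15_9_0 (nat_lit 4) (nat_lit 1) (nat_lit 2) = true := by decide +kernel
def p15_9_0_2 : pfC (piC [(nat_lit 44228488), (nat_lit 27488723), (nat_lit 20325581), (nat_lit 13664919)] (nat_lit 26882477)) p15_9_0 (nat_lit 4) (nat_lit 2) (nat_lit 3) = true := by decide +kernel
def p15_9_0_3 : pfC (piC [(nat_lit 44228488), (nat_lit 27488723), (nat_lit 20325581), (nat_lit 13664919)] (nat_lit 26882477)) p15_9_0 (nat_lit 4) (nat_lit 3) (nat_lit 4) = true := by decide +kernel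
def p15_9_0_4 : pfC (piC [(nat_lit 44228488), (nat_lit 27488723), (nat_lit 20325581), (nat_lit 13664919)] (nat_lit 26882477)) p15_9_0 (nat_lit 4) (nat_lit 4) (nat_lit 5) = true := by decide +kernel
def p15_9_0_5 : pfC (piC [(nat_lit 44228488), (nat_lit 27488723), (nat_lit 20325581), (nat_lit 13664919)] (nat_lit 26882477)) p15_9_0 (nat_lit 4) (nat_lit 5) (nat_lit 6) = true := by decide +kernel
def p15_9_0_6 : pfC (piC [(nat_lit 44228488), (nat_lit 27488723), (nat_lit 20325581), (nat_lit 13664919)] (nat_lit 26882477)) p15_9_0 (nat_lit 4) (nat_lit 6) (nat_lit 7) = true := by decide +kernel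
def p15_9_0_7 : pfC (piC [(nat_lit 44228488), (nat_lit 27488723), (nat_lit 20325581), (nat_lit 13664919)] (nat_lit 26882477)) p15_9_0 (nat_lit 4) (nat_lit 7) (nat_lit 8) = true := by decide +kernel
def p15_9_0_8 : pfC (piC [(nat_lit 44228488), (nat_lit 27488723), (nat_lit 20325581), (nat_lit 13664919)] (nat_lit 26882477)) p15_9_0 (nat_lit 4) (nat_lit 8) (nat_lit 9) = true := by decide +kernel
def p15_9_0_9 : pfC (piC [(nat_lit 44228488), (nat_lit 27488723), (nat_lit 20325581), (nat_lit 13664919)] (nat_lit 26882477)) p15_9_0 (nat_lit 4) (nat_lit 9) (nat_lit 10) = true := by decide +kernel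
def p15_9_0_10 : pfC (piC [(nat_lit 44228488), (nat_lit 27488723), (nat_lit 20325581), (nat_lit 13664919)] (nat_lit 26882477)) p15_9_0 (nat_lit 4) (nat_lit 10) (nat_lit 11) = true := by decide +kernel
def p15_9_0_11 : pfC (piC [(nat_lit 44228488), (nat_lit 27488723), (nat_lit 20325581), (nat_lit 13664919)] (nat_lit 26882477)) p15_9_0 (nat_lit 4) (nat_lit 11) (nat_lit 12) = true := by decide +kernel
def p15_9_0_12 : pfC (piC [(nat_lit 44228488), (nat_lit 27488723), (nat_lit 20325581), (nat_lit 13664919)] (nat_lit 26882477)) p15_9_0 (nat_lit 4) (nat_lit 12) (nat_lit 13) = true := by decide +kernel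
def p15_9_0_13 : pfC (piC [(nat_lit 44228488), (nat_lit 27488723), (nat_lit 20325581), (nat_lit 13664919)] (nat_lit 26882477)) p15_9_0 (nat_lit 4) (nat_lit 13) (nat_lit 14) = true := by decide +kernel
def p15_9_0_14 : pfC (piC [(nat_lit 44228488), (nat_lit 27488723), (nat_lit 20325581), (nat_lit 13664919)] (nat_lit 26882477)) p15_9_0 (nat_lit 4) (nat_lit 14) (nat_lit 15) = true := by decide +kernel
def p15_9_0_15 : pfC (piC [(nat_lit 44228488), (nat_lit 27488723), (nat_lit 20325581), (nat_lit 13664919)] (nat_lit 26882477)) p15_9_0 (nat_lit 4) (nat_lit 15) (nat_lit 16) = true := by decide +kernel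
def p15_9_0_16 : pfC (piC [(nat_lit 44228488), (nat_lit 27488723), (nat_lit 20325581), (nat_lit 13664919)] (nat_lit 26882477)) p15_9_0 (nat_lit 4) (nat_lit 16) (nat_lit 17) = true := by decide +kernel
def p15_9_0_17 : pfC (piC [(nat_lit 44228488), (nat_lit 27488723), (nat_lit 20325581), (nat_lit 13664919)] (nat_lit 26882477)) p15_9_0 (nat_lit 4) (nat_lit 17) (nat_lit 18) = true := by decide +kernel
def p15_9_0_18 : pfC (piC [(nat_lit 44228488), (nat_lit 27488723), (nat_lit 20325581), (nat_lit 13664919)] (nat_lit 26882477)) p15_9_0 (nat_lit 4) (nat_lit 18) (nat_lit 19) = true := by decide +kernel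
def p15_9_0_19 : pfC (piC [(nat_lit 44228488), (nat_lit 27488723), (nat_lit 20325581), (nat_lit 13664919)] (nat_lit 26882477)) p15_9_0 (nat_lit 4) (nat_lit 19) (nat_lit 20) = true := by decide +kernel
def p15_9_0_20 : pfC (piC [(nat_lit 44228488), (nat_lit 27488723), (nat_lit 20325581), (nat_lit 13664919)] (nat_lit 26882477)) p15_9_0 (nat_lit 4) (nat_lit 20) (nat_lit 21) = true := by decide +kernel
def p15_9_0_21 : pfC (piC [(nat_lit 44228488), (nat_lit 27488723), (nat_lit 20325581), (nat_lit 13664919)] (nat_lit 26882477)) p15_9_0 (nat_lit 4) (nat_lit 21) (nat_lit 22) = true := by decide +kernel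
def p15_9_0_22 : pfC (piC [(nat_lit 44228488), (nat_lit 27488723), (nat_lit 20325581), (nat_lit 13664919)] (nat_lit 26882477)) p15_9_0 (nat_lit 4) (nat_lit 22) (nat_lit 23) = true := by decide +kernel
def p15_9_0_23 : pfC (piC [(nat_lit 44228488), (nat_lit 27488723), (nat_lit 20325581), (nat_lit 13664919)] (nat_lit 26882477)) p15_9_0 (nat_lit 4) (nat_lit 23) (nat_lit 24) = true := by decide +kernel
def p15_9_0_24 : pfC (piC [(nat_lit 44228488), (nat_lit 27488723), (nat_lit 20325581), (nat_lit 13664919)] (nat_lit 26882477)) p15_9_0 (nat_lit 4) (nat_lit 24) (nat_lit 25) = true := by decide +kernel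
def p15_9_0_25 : pfC (piC [(nat_lit 44228488), (nat_lit 27488723), (nat_lit 20325581), (nat_lit 13664919)] (nat_lit 26882477)) p15_9_0 (nat_lit 4) (nat_lit 25) (nat_lit 26) = true := by decide +kernel
def p15_9_0_26 : pfC (piC [(nat_lit 44228488), (nat_lit 27488723), (nat_lit 20325581), (nat_lit 13664919)] (nat_lit 26882477)) p15_9_0 (nat_lit 4) (nat_lit 26) (nat_lit 27) = true := by decide +kernel
def p15_9_0_27 : pfC (piC [(nat_lit 44228488), (nat_lit 27488723), (nat_lit 20325581), (nat_lit 13664919)] (nat_lit 26882477)) p15_9_0 (nat_lit 4) (nat_lit 27) (nat_lit 28) = true := by decide +kernel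
def p15_9_0_28 : pfC (piC [(nat_lit 44228488), (nat_lit 27488723), (nat_lit 20325581), (nat_lit 13664919)] (nat_lit 26882477)) p15_9_0 (nat_lit 4) (nat_lit 28) (nat_lit 29) = true := by decide +kernel
def p15_9_0_29 : pfC (piC [(nat_lit 44228488), (nat_lit 27488723), (nat_lit 20325581), (nat_lit 13664919)] (nat_lit 26882477)) p15_9_0 (nat_lit 4) (nat_lit 29) (nat_lit 30) = true := by decide +kernel
def p15_9_0_30 : pfC (piC [(nat_lit 44228488), (nat_lit 27488723), (nat_lit 20325581), (nat_lit 13664919)] (nat_lit 26882477)) p15_9_0 (nat_lit 4) (nat_lit 30) (nat_lit 31) = true := by decide +kernel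
def p15_9_0_31 : pfC (piC [(nat_lit 44228488), (nat_lit 27488723), (nat_lit 20325581), (nat_lit 13664919)] (nat_lit 26882477)) p15_9_0 (nat_lit 4) (nat_lit 31) (nat_lit 32) = true := by decide +kernel
def p15_9_0_32 : pfC (piC [(nat_lit 44228488), (nat_lit 27488723), (nat_lit 20325581), (nat_lit 13664919)] (nat_lit 26882477)) p15_9_0 (nat_lit 4) (nat_lit 32) (nat_lit 33) = true := by decide +kernel
def p15_9_0_33 : pfC (piC [(nat_lit 44228488), (nat_lit 27488723), (nat_lit 20325581), (nat_lit 13664919)] (nat_lit 26882477)) p15_9_0 (nat_lit 4) (nat_lit 33) (nat_lit 34) = true := by decide +kernel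
def p15_9_0_34 : pfC (piC [(nat_lit 44228488), (nat_lit 27488723), (nat_lit 20325581), (nat_lit 13664919)] (nat_lit 26882477)) p15_9_0 (nat_lit 4) (nat_lit 34) (nat_lit 35) = true := by decide +kernel
def p15_9_0_35 : pfC (piC [(nat_lit 44228488), (nat_lit 27488723), (nat_lit 20325581), (nat_lit 13664919)] (nat_lit 26882477)) p15_9_0 (nat_lit 4) (nat_lit 35) (nat_lit 36) = true := by decide +kernel
def p15_9_0_36 : pfC (piC [(nat_lit 44228488), (nat_lit 27488723), (nat_lit 20325581), (nat_lit 13664919)] (nat_lit 26882477)) p15_9_0 (nat_lit 4) (nat_lit 36) (nat_lit 37) = true := by decide +kernel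
def p15_9_0_37 : pfC (piC [(nat_lit 44228488), (nat_lit 27488723), (nat_lit 20325581), (nat_lit 13664919)] (nat_lit 26882477)) p15_9_0 (nat_lit 4) (nat_lit 37) (nat_lit 38) = true := by decide +kernel
def p15_9_0_38 : pfC (piC [(nat_lit 44228488), (nat_lit 27488723), (nat_lit 20325581), (nat_lit 13664919)] (nat_lit 26882477)) p15_9_0 (nat_lit 4) (nat_lit 38) (nat_lit 39) = true := by decide +kernel
def p15_9_0_39 : pfC (piC [(nat_lit 44228488), (nat_lit 27488723), (nat_lit 20325581), (nat_lit 13664919)] (nat_lit 26882477)) p15_9_0 (nat_lit 4) (nat_lit 39) (nat_lit 40) = true := by decide +kernel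
def p15_9_0_40 : pfC (piC [(nat_lit 44228488), (nat_lit 27488723), (nat_lit 20325581), (nat_lit 13664919)] (nat_lit 26882477)) p15_9_0 (nat_lit 4) (nat_lit 40) (nat_lit 41) = true := by decide +kernel
def p15_9_0_41 : pfC (piC [(nat_lit 44228488), (nat_lit 27488723), (nat_lit 20325581), (nat_lit 13664919)] (nat_lit 26882477)) p15_9_0 (nat_lit 4) (nat_lit 41) (nat_lit 42) = true := by decide +kernel
def p15_9_0_42 : pfC (piC [(nat_lit 44228488), (nat_lit 27488723), (nat_lit 20325581), (nat_lit 13664919)] (nat_lit 26882477)) p15_9_0 (nat_lit 4) (nat_lit 42) (nat_lit 43) = true := by decide +kernel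
def p15_9_0_43 : pfC (piC [(nat_lit 44228488), (nat_lit 27488723), (nat_lit 20325581), (nat_lit 13664919)] (nat_lit 26882477)) p15_9_0 (nat_lit 4) (nat_lit 43) (nat_lit 44) = true := by decide +kernel
def p15_9_0_44 : pfC (piC [(nat_lit 44228488), (nat_lit 27488723), (nat_lit 20325581), (nat_lit 13664919)] (nat_lit 26882477)) p15_9_0 (nat_lit 4) (nat_lit 44) (nat_lit 45) = true := by decide +kernel
def p15_9_0_45 : pfC (piC [(nat_lit 44228488), (nat_lit 27488723), (nat_lit 20325581), (nat_lit 13664919)] (nat_lit 26882477)) p15_9_0 (nat_lit 4) (nat_lit 45) (nat_lit 46) = true := by decide +kernel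
def p15_9_0_46 : pfC (piC [(nat_lit 44228488), (nat_lit 27488723), (nat_lit 20325581), (nat_lit 13664919)] (nat_lit 26882477)) p15_9_0 (nat_lit 4) (nat_lit 46) (nat_lit 47) = true := by decide +kernel
def p15_9_0_47 : pfC (piC [(nat_lit 44228488), (nat_lit 27488723), (nat_lit 20325581), (nat_lit 13664919)] (nat_lit 26882477)) p15_9_0 (nat_lit 4) (nat_lit 47) (nat_lit 48) = true := by decide +kernel
def p15_9_0_48 : pfC (piC [(nat_lit 44228488), (nat_lit 27488723), (nat_lit 20325581), (nat_lit 13664919)] (nat_lit 26882477)) p15_9_0 (nat_lit 4) (nat_lit 48) (nat_lit 49) = true := by decide +kernel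
def p15_9_0_49 : pfC (piC [(nat_lit 44228488), (nat_lit 27488723), (nat_lit 20325581), (nat_lit 13664919)] (nat_lit 26882477)) p15_9_0 (nat_lit 4) (nat_lit 49) (nat_lit 50) = true := by decide +kernel
def p15_9_0_50 : pfC (piC [(nat_lit 44228488), (nat_lit 27488723), (nat_lit 20325581), (nat_lit 13664919)] (nat_lit 26882477)) p15_9_0 (nat_lit 4) (nat_lit 50) (nat_lit 51) = true := by decide +kernel
def p15_9_0_51 : pfC (piC [(nat_lit 44228488), (nat_lit 27488723), (nat_lit 20325581), (nat_lit 13664919)] (nat_lit 26882477)) p15_9_0 (nat_lit 4) (nat_lit 51) (nat_lit 52) = true := by decide +kernel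
def p15_9_0_52 : pfC (piC [(nat_lit 44228488), (nat_lit 27488723), (nat_lit 20325581), (nat_lit 13664919)] (nat_lit 26882477)) p15_9_0 (nat_lit 4) (nat_lit 52) (nat_lit 53) = true := by decide +kernel
def p15_9_0_53 : pfC (piC [(nat_lit 44228488), (nat_lit 27488723), (nat_lit 20325581), (nat_lit 13664919)] (nat_lit 26882477)) p15_9_0 (nat_lit 4) (nat_lit 53) (nat_lit 54) = true := by decide +kernel
def p15_9_0_54 : pfC (piC [(nat_lit 44228488), (nat_lit 27488723), (nat_lit 20325581), (nat_lit 13664919)] (nat_lit 26882477)) p15_9_0 (nat_lit 4) (nat_lit 54) (nat_lit 55) = true := by decide +kernel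
def p15_9_0_55 : pfC (piC [(nat_lit 44228488), (nat_lit 27488723), (nat_lit 20325581), (nat_lit 13664919)] (nat_lit 26882477)) p15_9_0 (nat_lit 4) (nat_lit 55) (nat_lit 56) = true := by decide +kernel
def p15_9_0_56 : pfC (piC [(nat_lit 44228488), (nat_lit 27488723), (nat_lit 20325581), (nat_lit 13664919)] (nat_lit 26882477)) p15_9_0 (nat_lit 4) (nat_lit 56) (nat_lit 57) = true := by decide +kernel
def p15_9_0_57 : pfC (piC [(nat_lit 44228488), (nat_lit 27488723), (nat_lit 20325581), (nat_lit 13664919)] (nat_lit 26882477)) p15_9_0 (nat_lit 4) (nat_lit 57) (nat_lit 58) = true := by decide +kernel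
def p15_9_0_58 : pfC (piC [(nat_lit 44228488), (nat_lit 27488723), (nat_lit 20325581), (nat_lit 13664919)] (nat_lit 26882477)) p15_9_0 (nat_lit 4) (nat_lit 58) (nat_lit 59) = true := by decide +kernel
def p15_9_0_59 : pfC (piC [(nat_lit 44228488), (nat_lit 27488723), (nat_lit 20325581), (nat_lit 13664919)] (nat_lit 26882477)) p15_9_0 (nat_lit 4) (nat_lit 59) (nat_lit 60) = true := by decide +kernel
def p15_9_0_60 : pfC (piC [(nat_lit 44228488), (nat_lit 27488723), (nat_lit 20325581), (nat_lit 13664919)] (nat_lit 26882477)) p15_9_0 (nat_lit 4) (nat_lit 60) (nat_lit 61) = true := by decide +kernel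
def p15_9_0_61 : pfC (piC [(nat_lit 44228488), (nat_lit 27488723), (nat_lit 20325581), (nat_lit 13664919)] (nat_lit 26882477)) p15_9_0 (nat_lit 4) (nat_lit 61) (nat_lit 62) = true := by decide +kernel
def p15_9_0_62 : pfC (piC [(nat_lit 44228488), (nat_lit 27488723), (nat_lit 20325581), (nat_lit 13664919)] (nat_lit 26882477)) p15_9_0 (nat_lit 4) (nat_lit 62) (nat_lit 63) = true := by decide +kernel
def p15_9_0_63 : pfC (piC [(nat_lit 44228488), (nat_lit 27488723), (nat_lit 20325581), (nat_lit 13664919)] (nat_lit 26882477)) p15_9_0 (nat_lit 4) (nat_lit 63) (nat_lit 64) = true := by decide +kernel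
def p15_9_0_64 : pfC (piC [(nat_lit 44228488), (nat_lit 27488723), (nat_lit 20325581), (nat_lit 13664919)] (nat_lit 26882477)) p15_9_0 (nat_lit 4) (nat_lit 64) (nat_lit 65) = true := by decide +kernel
def p15_9_0_65 : pfC (piC [(nat_lit 44228488), (nat_lit 27488723), (nat_lit 20325581), (nat_lit 13664919)] (nat_lit 26882477)) p15_9_0 (nat_lit 4) (nat_lit 65) (nat_lit 66) = true := by decide +kernel
def p15_9_0_66 : pfC (piC [(nat_lit 44228488), (nat_lit 27488723), (nat_lit 20325581), (nat_lit 13664919)] (nat_lit 26882477)) p15_9_0 (nat_lit 4) (nat_lit 66) (nat_lit 67) = true := by decide +kernel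
def p15_9_0_67 : pfC (piC [(nat_lit 44228488), (nat_lit 27488723), (nat_lit 20325581), (nat_lit 13664919)] (nat_lit 26882477)) p15_9_0 (nat_lit 4) (nat_lit 67) (nat_lit 68) = true := by decide +kernel
def p15_9_0_68 : pfC (piC [(nat_lit 44228488), (nat_lit 27488723), (nat_lit 20325581), (nat_lit 13664919)] (nat_lit 26882477)) p15_9_0 (nat_lit 4) (nat_lit 68) (nat_lit 69) = true := by decide +kernel
def p15_9_0_69 : pfC (piC [(nat_lit 44228488), (nat_lit 27488723), (nat_lit 20325581), (nat_lit 13664919)] (nat_lit 26882477)) p15_9_0 (nat_lit 4) (nat_lit 69) (nat_lit 70) = true := by decide +kernel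
def p15_9_0_70 : pfC (piC [(nat_lit 44228488), (nat_lit 27488723), (nat_lit 20325581), (nat_lit 13664919)] (nat_lit 26882477)) p15_9_0 (nat_lit 4) (nat_lit 70) (nat_lit 71) = true := by decide +kernel
def p15_9_0_71 : pfC (piC [(nat_lit 44228488), (nat_lit 27488723), (nat_lit 20325581), (nat_lit 13664919)] (nat_lit 26882477)) p15_9_0 (nat_lit 4) (nat_lit 71) (nat_lit 72) = true := by decide +kernel
def p15_9_0_72 : pfC (piC [(nat_lit 44228488), (nat_lit 27488723), (nat_lit 20325581), (nat_lit 13664919)] (nat_lit 26882477)) p15_9_0 (nat_lit 4) (nat_lit 72) (nat_lit 73) = true := by decide +kernel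
def p15_9_0_73 : pfC (piC [(nat_lit 44228488), (nat_lit 27488723), (nat_lit 20325581), (nat_lit 13664919)] (nat_lit 26882477)) p15_9_0 (nat_lit 4) (nat_lit 73) (nat_lit 74) = true := by decide +kernel
def p15_9_0_74 : pfC (piC [(nat_lit 44228488), (nat_lit 27488723), (nat_lit 20325581), (nat_lit 13664919)] (nat_lit 26882477)) p15_9_0 (nat_lit 4) (nat_lit 74) (nat_lit 75) = true := by decide +kernel
def p15_9_0_75 : pfC (piC [(nat_lit 44228488), (nat_lit 27488723), (nat_lit 20325581), (nat_lit 13664919)] (nat_lit 26882477)) p15_9_0 (nat_lit 4) (nat_lit 75) (nat_lit 76) = true := by decide +kernel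
def p15_9_0_76 : pfC (piC [(nat_lit 44228488), (nat_lit 27488723), (nat_lit 20325581), (nat_lit 13664919)] (nat_lit 26882477)) p15_9_0 (nat_lit 4) (nat_lit 76) (nat_lit 77) = true := by decide +kernel
def p15_9_0_77 : pfC (piC [(nat_lit 44228488), (nat_lit 27488723), (nat_lit 20325581), (nat_lit 13664919)] (nat_lit 26882477)) p15_9_0 (nat_lit 4) (nat_lit 77) (nat_lit 78) = true := by decide +kernel
def p15_9_0_78 : pfC (piC [(nat_lit 44228488), (nat_lit 27488723), (nat_lit 20325581), (nat_lit 13664919)] (nat_lit 26882477)) p15_9_0 (nat_lit 4) (nat_lit 78) (nat_lit 79) = true := by decide +kernel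
def p15_9_0_79 : pfC (piC [(nat_lit 44228488), (nat_lit 27488723), (nat_lit 20325581), (nat_lit 13664919)] (nat_lit 26882477)) p15_9_0 (nat_lit 4) (nat_lit 79) (nat_lit 80) = true := by decide +kernel
def p15_9_0_80 : pfC (piC [(nat_lit 44228488), (nat_lit 27488723), (nat_lit 20325581), (nat_lit 13664919)] (nat_lit 26882477)) p15_9_0 (nat_lit 4) (nat_lit 80) (nat_lit 81) = true := by decide +kernel
def p15_9_0_81 : pfC (piC [(nat_lit 44228488), (nat_lit 27488723), (nat_lit 20325581), (nat_lit 13664919)] (nat_lit 26882477)) p15_9_0 (nat_lit 4) (nat_lit 81) (nat_lit 82) = true := by decide +kernel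
def p15_9_0_82 : pfC (piC [(nat_lit 44228488), (nat_lit 27488723), (nat_lit 20325581), (nat_lit 13664919)] (nat_lit 26882477)) p15_9_0 (nat_lit 4) (nat_lit 82) (nat_lit 83) = true := by decide +kernel
def p15_9_0_83 : pfC (piC [(nat_lit 44228488), (nat_lit 27488723), (nat_lit 20325581), (nat_lit 13664919)] (nat_lit 26882477)) p15_9_0 (nat_lit 4) (nat_lit 83) (nat_lit 84) = true := by decide +kernel
def p15_9_0_84 : pfC (piC [(nat_lit 44228488), (nat_lit 27488723), (nat_lit 20325581), (nat_lit 13664919)] (nat_lit 26882477)) p15_9_0 (nat_lit 4) (nat_lit 84) (nat_lit 85) = true := by decide +kernel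
def p15_9_0_85 : pfC (piC [(nat_lit 44228488), (nat_lit 27488723), (nat_lit 20325581), (nat_lit 13664919)] (nat_lit 26882477)) p15_9_0 (nat_lit 4) (nat_lit 85) (nat_lit 86) = true := by decide +kernel
def p15_9_0_86 : pfC (piC [(nat_lit 44228488), (nat_lit 27488723), (nat_lit 20325581), (nat_lit 13664919)] (nat_lit 26882477)) p15_9_0 (nat_lit 4) (nat_lit 86) (nat_lit 87) = true := by decide +kernel
def p15_9_0_87 : pfC (piC [(nat_lit 44228488), (nat_lit 27488723), (nat_lit 20325581), (nat_lit 13664919)] (nat_lit 26882477)) p15_9_0 (nat_lit 4) (nat_lit 87) (nat_lit 88) = true := by decide +kernel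
def p15_9_0_88 : pfC (piC [(nat_lit 44228488), (nat_lit 27488723), (nat_lit 20325581), (nat_lit 13664919)] (nat_lit 26882477)) p15_9_0 (nat_lit 4) (nat_lit 88) (nat_lit 89) = true := by decide +kernel
def p15_9_0_89 : pfC (piC [(nat_lit 44228488), (nat_lit 27488723), (nat_lit 20325581), (nat_lit 13664919)] (nat_lit 26882477)) p15_9_0 (nat_lit 4) (nat_lit 89) (nat_lit 90) = true := by decide +kernel
def p15_9_0_90 : pfC (piC [(nat_lit 44228488), (nat_lit 27488723), (nat_lit 20325581), (nat_lit 13664919)] (nat_lit 26882477)) p15_9_0 (nat_lit 4) (nat_lit 90) (nat_lit 91) = true := by decide +kernel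
theorem p15_9_0_T : PfS (PiF n15_9.reverse (nat_lit 26882477)) p15_9_0 (nat_lit 4) [] 0 :=
  pftab_of (los := [(nat_lit 44228488), (nat_lit 27488723), (nat_lit 20325581), (nat_lit 13664919)]) (by decide +kernel) (hi := (nat_lit 91)) (PfP.trans (PfP.trans (PfP.trans (PfP.trans (PfP.trans (PfP.trans (PfP.trans (PfP.trans (PfP.trans (PfP.trans (PfP.trans (PfP.trans (PfP.trans (PfP.trans (PfP.trans (PfP.trans (PfP.trans (PfP.trans (PfP.trans (PfP.trans (PfP.trans (PfP.trans (PfP.trans (PfP.trans (PfP.trans (PfP.trans (PfP.trans (PfP.trans (PfP.trans (PfP.trans (PfP.trans (PfP.trans (PfP.trans (PfP.trans (PfP.trans (PfP.trans (PfP.trans (PfP.trans (PfP.trans (PfP.trans (PfP.trans (PfP.trans (PfP.trans (PfP.trans (PfP.trans (PfP.trans (PfP.trans (PfP.trans (PfP.trans (PfP.trans (PfP.trans (PfP.trans (PfP.trans (PfP.trans (PfP.trans (PfP.trans (PfP.trans (PfP.trans (PfP.trans (PfP.trans (PfP.trans (PfP.trans (PfP.trans (PfP.trans (PfP.trans (PfP.trans (PfP.trans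 (PfP.trans (PfP.trans (PfP.trans (PfP.trans (PfP.trans (PfP.trans (PfP.trans (PfP.trans (PfP.trans (PfP.trans (PfP.trans (PfP.trans (PfP.trans (PfP.trans (PfP.trans (PfP.trans (PfP.trans (PfP.trans (PfP.trans (PfP.trans (PfP.trans (PfP.trans (PfP.trans (pfC_sound p15_9_0_0) (pfC_sound p15_9_0_1)) (pfC_sound p15_9_0_2)) (pfC_sound p15_9_0_3)) (pfC_sound p15_9_0_4)) (pfC_sound p15_9_0_5)) (pfC_sound p15_9_0_6)) (pfC_sound p15_9_0_7)) (pfC_sound p15_9_0_8))
 (pfC_sound p15_9_0_9)) (pfC_sound p15_9_0_10)) (pfC_sound p15_9_0_11)) (pfC_sound p15_9_0_12)) (pfC_sound p15_9_0_13)) (pfC_sound p15_9_0_14)) (pfC_sound p15_9_0_15)) (pfC_sound p15_9_0_16)) (pfC_sound p15_9_0_17)) (pfC_sound p15_9_0_18)) (pfC_sound p15_9_0_19)) (pfC_sound p15_9_0_20)) (pfC_sound p15_9_0_21)) (pfC_sound p15_9_0_22)) (pfC_sound p15_9_0_23)) (pfC_sound p15_9_0_24)) (pfC_sound p15_9_0_25)) (pfC_sound p15_9_0_26)) (pfC_sound p15_9_0_27)) (pfC_sound p15_9_0_28)) (pfC_sound p15_9_0_29)) (pfC_sound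 p15_9_0_30)) (pfC_sound p15_9_0_31)) (pfC_sound p15_9_0_32)) (pfC_sound p15_9_0_33)) (pfC_sound p15_9_0_34)) (pfC_sound p15_9_0_35)) (pfC_sound p15_9_0_36)) (pfC_sound p15_9_0_37)) (pfC_sound p15_9_0_38)) (pfC_sound p15_9_0_39)) (pfC_sound p15_9_0_40)) (pfC_sound p15_9_0_41)) (pfC_sound p15_9_0_42)) (pfC_sound p15_9_0_43)) (pfC_sound p15_9_0_44)) (pfC_sound p15_9_0_45)) (pfC_sound p15_9_0_46)) (pfC_sound p15_9_0_47)) (pfC_sound p15_9_0_48)) (pfC_sound p15_9_0_49)) (pfC_sound p15_9_0_50)) (pfC_sound p15_9_0_51)) (pfC_sound p15_9_0_52)) (pfC_sound p15_9_0_53)) (pfC_sound p15_9_0_54)) (pfC_sound p15_9_0_55)) (pfC_sound p15_9_0_56)) (pfC_sound p15_9_0_57)) (pfC_sound p15_9_0_58))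
 (pfC_sound p15_9_0_59)) (pfC_sound p15_9_0_60)) (pfC_sound p15_9_0_61)) (pfC_sound p15_9_0_62)) (pfC_sound p15_9_0_63)) (pfC_sound p15_9_0_64)) (pfC_sound p15_9_0_65)) (pfC_sound p15_9_0_66)) (pfC_sound p15_9_0_67)) (pfC_sound p15_9_0_68)) (pfC_sound p15_9_0_69)) (pfC_sound p15_9_0_70)) (pfC_sound p15_9_0_71)) (pfC_sound p15_9_0_72)) (pfC_sound p15_9_0_73)) (pfC_sound p15_9_0_74)) (pfC_sound p15_9_0_75)) (pfC_sound p15_9_0_76)) (pfC_sound p15_9_0_77)) (pfC_sound p15_9_0_78)) (pfC_sound p15_9_0_79)) (pfC_sound p15_9_0_80)) (pfC_sound p15_9_0_81)) (pfC_sound p15_9_0_82)) (pfC_sound p15_9_0_83)) (pfC_sound p15_9_0_84)) (pfC_sound p15_9_0_85)) (pfC_sound p15_9_0_86)) (pfC_sound p15_9_0_87)) (pfC_sound p15_9_0_88)) (pfC_sound p15_9_0_89)) (pfC_sound p15_9_0_90)) (by decide +kernel)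

def z15_9_0 : zOK yB15_9 (nat_lit 0) (nat_lit 0) (nat_lit 400) (nat_lit 26882477) (nat_lit 10051221) = true := by decide +kernel
def g15_9_0 : gOK yB15_9.x P15_9 (nat_lit 1429) (q15_9 :: r15_9) (nat_lit 0) (nat_lit 0) (nat_lit 1) (nat_lit 400) (nat_lit 0) (nat_lit 11000000) (nat_lit 12712500) (nat_lit 12712500) [(nat_lit 800), (nat_lit 1400), (nat_lit 1530)] = true := by decide +kernel
def v15_9_0 : ivC P15_9 s15_9 w15_9 n15_9 (nat_lit 4) (nat_lit 5510) (nat_lit 0) (nat_lit 0) f136_1_0 f144_1_0 (nat_lit 1) (nat_lit 400) f136_1_400 f144_1_400 (nat_lit 26882477) (nat_lit 10051221) p15_9_0 = true := by decide +kernel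
def p15_9_1 : PF := (PF.cons (PF.cons (PF.cons (PF.cons (PF.leaf (nat_lit 2199574) (nat_lit 10747343) (nat_lit 56361469) (nat_lit 10747343) [(nat_lit 0), (nat_lit 0), (nat_lit 0), (nat_lit 0)]) (PF.cons (PF.leaf (nat_lit 2301902) (nat_lit 164741) (nat_lit 56186233) (nat_lit 10757837) [(nat_lit 164741), (nat_lit 0), (nat_lit 0), (nat_lit 0)]) (PF.cons (PF.leaf (nat_lit 2426695) (nat_lit 179464) (nat_lit 55980409) (nat_lit 10769473) [(nat_lit 179464), (nat_lit 0), (nat_lit 0), (nat_lit 0)]) (PF.cons (PF.leaf (nat_lit 2567553) (nat_lit 192663) (nat_lit 55749131) (nat_lit 10781689) [(nat_lit 192663), (nat_lit 0), (nat_lit 0), (nat_lit 0)]) (PF.cons (PF.leaf (nat_lit 2721933) (nat_lit 204699) (nat_lit 55495966) (nat_lit 10794047) [(nat_lit 204699), (nat_lit 0), (nat_lit 0), (nat_lit 0)]) (PF.cons PF.nil (PF.cons PF.nil PF.nil))))))) (PF.cons (PF.cons (PF.leaf (nat_lit 2659142) (nat_lit 996033) (nat_lit 55314654) (nat_lit 10798124) [(nat_lit 0), (nat_lit 996033),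 (nat_lit 0), (nat_lit 0)]) (PF.cons (PF.leaf (nat_lit 2797687) (nat_lit 204545) (nat_lit 55078668) (nat_lit 10807985) [(nat_lit 204545), (nat_lit 1017613), (nat_lit 0), (nat_lit 0)]) (PF.cons (PF.leaf (nat_lit 2953514) (nat_lit 216038) (nat_lit
 54819587) (nat_lit 10817827) [(nat_lit 216038), (nat_lit 1039321), (nat_lit 0), (nat_lit 0)]) (PF.cons (PF.leaf (nat_lit 3121828) (nat_lit 226584) (nat_lit 54540986) (nat_lit 10827291) [(nat_lit 226584), (nat_lit 1060782), (nat_lit 0), (nat_lit 0)]) (PF.cons PF.nil PF.nil))))) (PF.cons (PF.cons (PF.leaf (nat_lit 3191718) (nat_lit 1076846) (nat_lit 54119895) (nat_lit 10835225) [(nat_lit 0), (nat_lit 1076846), (nat_lit 0), (nat_lit 0)]) (PF.cons (PF.leaf (nat_lit 3358237) (nat_lit 235980) (nat_lit 53839164) (nat_lit 10841898) [(nat_lit 235980), (nat_lit 1095884), (nat_lit 0), (nat_lit 0)]) (PF.cons PF.nil (PF.cons PF.nil PF.nil)))) (PF.cons (PF.cons (PF.leaf (nat_lit 3779196) (nat_lit 1144457) (nat_lit 52822513)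 (nat_lit 10852926) [(nat_lit 0), (nat_lit 1144457), (nat_lit 0), (nat_lit 0)]) (PF.cons PF.nil PF.nil)) (PF.cons PF.nil PF.nil))))) (PF.cons (PF.cons (PF.cons (PF.leaf (nat_lit 3206936) (nat_lit 2835644) (nat_lit 53447753) (nat_lit 10825415) [(nat_lit 0), (nat_lit 0), (nat_lit 2835644), (nat_lit 0)]) (PF.cons (PF.leaf (nat_lit 3354943) (nat_lit 223315) (nat_lit 53199909) (nat_lit 10829380) [(nat_lit 223315), (nat_lit 0), (nat_lit 2856207), (nat_lit 0)]) (PF.cons (PF.leaf
 (nat_lit 3519303) (nat_lit 234406) (nat_lit 52929745) (nat_lit 10832777) [(nat_lit 234406), (nat_lit 0), (nat_lit 2877476), (nat_lit 0)]) (PF.cons (PF.leaf (nat_lit 3695813) (nat_lit 244432) (nat_lit 52641168) (nat_lit 10835361) [(nat_lit 244432), (nat_lit 0), (nat_lit 2898986), (nat_lit 0)]) (PF.cons PF.nil PF.nil))))) (PF.cons (PF.cons (PF.leaf (nat_lit 3758443) (nat_lit 1136393) (nat_lit 52219296) (nat_lit 10833138) [(nat_lit 0), (nat_lit 1136393), (nat_lit 2919985), (nat_lit 0)])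 (PF.cons (PF.leaf (nat_lit 3932077) (nat_lit 252086) (nat_lit 51931809) (nat_lit 10833149) [(nat_lit 252086), (nat_lit 1152745), (nat_lit 2939022), (nat_lit 0)]) (PF.cons PF.nil (PF.cons PF.nil PF.nil)))) (PF.cons (PF.cons (PF.leaf (nat_lit 4357054) (nat_lit 1192770) (nat_lit 50910390) (nat_lit 10821188) [(nat_lit 0), (nat_lit 1192770), (nat_lit 2991691), (nat_lit 0)]) (PF.cons PF.nil PF.nil)) PF.nil))) (PF.cons (PF.cons (PF.cons (PF.leaf (nat_lit 4320039) (nat_lit 2989363) (nat_lit 50339118) (nat_lit 10790966) [(nat_lit 0), (nat_lit 0), (nat_lit 2989363), (nat_lit 0)]) (PF.cons (PF.leaf (nat_lit 4498787) (nat_lit 265282) (nat_lit 50049633) (nat_lit 10785004) [(nat_lit 265282), (nat_lit 0), (nat_lit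
 3004446), (nat_lit 0)]) PF.nil)) (PF.cons PF.nil PF.nil)) (PF.cons PF.nil (PF.cons PF.nil PF.nil))))) (PF.cons (PF.cons (PF.cons (PF.cons (PF.leaf (nat_lit 4075992) (nat_lit 7304633) (nat_lit 49152710) (nat_lit 10651468) [(nat_lit 0), (nat_lit 0), (nat_lit 0), (nat_lit 7304633)]) (PF.cons (PF.leaf (nat_lit 4226228) (nat_lit 235105) (nat_lit 48918163) (nat_lit 10645745) [(nat_lit 235105), (nat_lit 0), (nat_lit 0), (nat_lit 7309798)]) (PF.cons (PF.leaf (nat_lit 4392253) (nat_lit 245945) (nat_lit 48663395) (nat_lit 10638830) [(nat_lit 245945), (nat_lit 0), (nat_lit 0), (nat_lit 7314695)]) (PF.cons (PF.leaf (nat_lit 4569674) (nat_lit 255593) (nat_lit 48392230) (nat_lit 10630688) [(nat_lit 255593), (nat_lit 0), (nat_lit 0), (nat_lit 7319114)]) (PF.cons (PF.leaf (nat_lit 4756923) (nat_lit 264301) (nat_lit 48107424) (nat_lit 10621283) [(nat_lit 264301), (nat_lit 0), (nat_lit 0), (nat_lit 7322900)]) PF.nil))))) (PF.cons (PF.cons (PF.leaf (nat_lit 4621501) (nat_lit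 1172990) (nat_lit 48002502) (nat_lit 10613881) [(nat_lit 0), (nat_lit 1172990), (nat_lit 0), (nat_lit 7319437)]) (PF.cons (PF.leaf (nat_lit 4795036) (nat_lit 261725) (nat_lit 47734384) (nat_lit 10603951) [(nat_lit 261725),
 (nat_lit 1186782), (nat_lit 0), (nat_lit 7321969)]) (PF.cons (PF.leaf (nat_lit 4980517) (nat_lit 270150) (nat_lit 47451813) (nat_lit 10592678) [(nat_lit 270150), (nat_lit 1200176), (nat_lit 0), (nat_lit 7323844)]) (PF.cons PF.nil PF.nil)))) (PF.cons (PF.cons (PF.leaf (nat_lit 5206286) (nat_lit 1218078) (nat_lit 46792322) (nat_lit 10559588) [(nat_lit 0), (nat_lit 1218078), (nat_lit 0), (nat_lit 7320745)]) (PF.cons (PF.leaf (nat_lit 5397164) (nat_lit 282549) (nat_lit 46501785) (nat_lit 10545245) [(nat_lit 282549), (nat_lit 1229593), (nat_lit 0), (nat_lit 7320046)]) PF.nil)) (PF.cons PF.nil (PF.cons PF.nil PF.nil))))) (PF.cons (PF.cons (PF.cons (PF.leaf (nat_lit 5150542) (nat_lit 3007931) (nat_lit 46286182) (nat_lit 10516427) [(nat_lit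 0), (nat_lit 0), (nat_lit 3007931), (nat_lit 7298272)]) (PF.cons (PF.leaf (nat_lit 5327357) (nat_lit 271720) (nat_lit 46019799) (nat_lit 10502273) [(nat_lit 271720), (nat_lit 0), (nat_lit 3018162), (nat_lit 7296857)]) (PF.cons (PF.leaf (nat_lit 5515502) (nat_lit 279658) (nat_lit 45739993) (nat_lit 10486667) [(nat_lit 279658), (nat_lit 0), (nat_lit 3028170), (nat_lit 7294662)]) (PF.cons PF.nil PF.nil)))) (PF.cons (PF.cons (PF.leaf (nat_lit 5736178)
 (nat_lit 1242516) (nat_lit 45096625) (nat_lit 10444539) [(nat_lit 0), (nat_lit 1242516), (nat_lit 3042305), (nat_lit 7282826)]) (PF.cons PF.nil PF.nil)) (PF.cons PF.nil PF.nil))) (PF.cons (PF.cons (PF.cons (PF.leaf (nat_lit 6251842) (nat_lit 3054301) (nat_lit 43462511) (nat_lit 10311044) [(nat_lit 0), (nat_lit 0), (nat_lit 3054301), (nat_lit 7226654)]) (PF.cons PF.nil PF.nil)) (PF.cons PF.nil PF.nil)) PF.nil))) (PF.cons (PF.cons (PF.cons (PF.cons (PF.leaf (nat_lit 5903288) (nat_lit 7124905) (nat_lit 42682895)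 (nat_lit 10176107) [(nat_lit 0), (nat_lit 0), (nat_lit 0), (nat_lit 7124905)]) (PF.cons (PF.leaf (nat_lit 6076702) (nat_lit 274094) (nat_lit 42440625) (nat_lit 10157046) [(nat_lit 274094), (nat_lit 0), (nat_lit 0), (nat_lit 7118523)]) (PF.cons (PF.leaf (nat_lit 6260851) (nat_lit 281600) (nat_lit 42186567) (nat_lit 10136488) [(nat_lit 281600), (nat_lit 0), (nat_lit 0), (nat_lit 7111278)]) (PF.cons PF.nil PF.nil)))) (PF.cons (PF.cons (PF.leaf (nat_lit 6468321) (nat_lit 1239382) (nat_lit 41607024) (nat_lit 10084385) [(nat_lit 0), (nat_lit 1239382), (nat_lit 0), (nat_lit 7089010)]) (PF.cons (PF.leaf (nat_lit 6655845) (nat_lit 291067) (nat_lit 41348944) (nat_lit 10061622)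
 [(nat_lit 291067), (nat_lit 1247405), (nat_lit 0), (nat_lit 7079886)]) PF.nil)) (PF.cons PF.nil PF.nil))) (PF.cons (PF.cons (PF.cons (PF.leaf (nat_lit 6949399) (nat_lit 3003921) (nat_lit 40148093) (nat_lit 9932370) [(nat_lit 0), (nat_lit 0), (nat_lit 3003921), (nat_lit 7012213)]) (PF.cons PF.nil PF.nil)) (PF.cons PF.nil PF.nil)) (PF.cons PF.nil PF.nil))) (PF.cons (PF.cons (PF.cons (PF.cons (PF.leaf (nat_lit 7582717) (nat_lit 6779730) (nat_lit 37225531) (nat_lit 9544090) [(nat_lit 0), (nat_lit 0), (nat_lit 0), (nat_lit 6779730)]) (PF.cons PF.nil PF.nil)) (PF.cons PF.nil PF.nil)) (PF.cons PF.nil PF.nil)) (PF.cons PF.nil (PF.cons PF.nil (PF.cons PF.nil (PF.cons PF.nil PF.nil))))))))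

def p15_9_1_0 : pfC (piC [(nat_lit 44228488), (nat_lit 27488723), (nat_lit 20325581), (nat_lit 13664919)] (nat_lit 10051221)) p15_9_1 (nat_lit 4) (nat_lit 0) (nat_lit 1) = true := by decide +kernel
def p15_9_1_1 : pfC (piC [(nat_lit 44228488), (nat_lit 27488723), (nat_lit 20325581), (nat_lit 13664919)] (nat_lit 10051221)) p15_9_1 (nat_lit 4) (nat_lit 1) (nat_lit 2) = true := by decide +kernel
def p15_9_1_2 : pfC (piC [(nat_lit 44228488), (nat_lit 27488723), (nat_lit 20325581), (nat_lit 13664919)] (nat_lit 10051221)) p15_9_1 (nat_lit 4) (nat_lit 2) (nat_lit 3) = true := by decide +kernel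
def p15_9_1_3 : pfC (piC [(nat_lit 44228488), (nat_lit 27488723), (nat_lit 20325581), (nat_lit 13664919)] (nat_lit 10051221)) p15_9_1 (nat_lit 4) (nat_lit 3) (nat_lit 4) = true := by decide +kernel
def p15_9_1_4 : pfC (piC [(nat_lit 44228488), (nat_lit 27488723), (nat_lit 20325581), (nat_lit 13664919)] (nat_lit 10051221)) p15_9_1 (nat_lit 4) (nat_lit 4) (nat_lit 5) = true := by decide +kernel
def p15_9_1_5 : pfC (piC [(nat_lit 44228488), (nat_lit 27488723), (nat_lit 20325581), (nat_lit 13664919)] (nat_lit 10051221)) p15_9_1 (nat_lit 4) (nat_lit 5) (nat_lit 6) = true := by decide +kernel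
def p15_9_1_6 : pfC (piC [(nat_lit 44228488), (nat_lit 27488723), (nat_lit 20325581), (nat_lit 13664919)] (nat_lit 10051221)) p15_9_1 (nat_lit 4) (nat_lit 6) (nat_lit 7) = true := by decide +kernel
def p15_9_1_7 : pfC (piC [(nat_lit 44228488), (nat_lit 27488723), (nat_lit 20325581), (nat_lit 13664919)] (nat_lit 10051221)) p15_9_1 (nat_lit 4) (nat_lit 7) (nat_lit 8) = true := by decide +kernel
def p15_9_1_8 : pfC (piC [(nat_lit 44228488), (nat_lit 27488723), (nat_lit 20325581), (nat_lit 13664919)] (nat_lit 10051221)) p15_9_1 (nat_lit 4) (nat_lit 8) (nat_lit 9) = true := by decide +kernel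
def p15_9_1_9 : pfC (piC [(nat_lit 44228488), (nat_lit 27488723), (nat_lit 20325581), (nat_lit 13664919)] (nat_lit 10051221)) p15_9_1 (nat_lit 4) (nat_lit 9) (nat_lit 10) = true := by decide +kernel
def p15_9_1_10 : pfC (piC [(nat_lit 44228488), (nat_lit 27488723), (nat_lit 20325581), (nat_lit 13664919)] (nat_lit 10051221)) p15_9_1 (nat_lit 4) (nat_lit 10) (nat_lit 11) = true := by decide +kernel
def p15_9_1_11 : pfC (piC [(nat_lit 44228488), (nat_lit 27488723), (nat_lit 20325581), (nat_lit 13664919)] (nat_lit 10051221)) p15_9_1 (nat_lit 4) (nat_lit 11) (nat_lit 12) = true := by decide +kernel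
def p15_9_1_12 : pfC (piC [(nat_lit 44228488), (nat_lit 27488723), (nat_lit 20325581), (nat_lit 13664919)] (nat_lit 10051221)) p15_9_1 (nat_lit 4) (nat_lit 12) (nat_lit 13) = true := by decide +kernel
def p15_9_1_13 : pfC (piC [(nat_lit 44228488), (nat_lit 27488723), (nat_lit 20325581), (nat_lit 13664919)] (nat_lit 10051221)) p15_9_1 (nat_lit 4) (nat_lit 13) (nat_lit 14) = true := by decide +kernel
def p15_9_1_14 : pfC (piC [(nat_lit 44228488), (nat_lit 27488723), (nat_lit 20325581), (nat_lit 13664919)] (nat_lit 10051221)) p15_9_1 (nat_lit 4) (nat_lit 14) (nat_lit 15) = true := by decide +kernel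
def p15_9_1_15 : pfC (piC [(nat_lit 44228488), (nat_lit 27488723), (nat_lit 20325581), (nat_lit 13664919)] (nat_lit 10051221)) p15_9_1 (nat_lit 4) (nat_lit 15) (nat_lit 16) = true := by decide +kernel
def p15_9_1_16 : pfC (piC [(nat_lit 44228488), (nat_lit 27488723), (nat_lit 20325581), (nat_lit 13664919)] (nat_lit 10051221)) p15_9_1 (nat_lit 4) (nat_lit 16) (nat_lit 17) = true := by decide +kernel
def p15_9_1_17 : pfC (piC [(nat_lit 44228488), (nat_lit 27488723), (nat_lit 20325581), (nat_lit 13664919)] (nat_lit 10051221)) p15_9_1 (nat_lit 4) (nat_lit 17) (nat_lit 18) = true := by decide +kernel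
def p15_9_1_18 : pfC (piC [(nat_lit 44228488), (nat_lit 27488723), (nat_lit 20325581), (nat_lit 13664919)] (nat_lit 10051221)) p15_9_1 (nat_lit 4) (nat_lit 18) (nat_lit 19) = true := by decide +kernel
def p15_9_1_19 : pfC (piC [(nat_lit 44228488), (nat_lit 27488723), (nat_lit 20325581), (nat_lit 13664919)] (nat_lit 10051221)) p15_9_1 (nat_lit 4) (nat_lit 19) (nat_lit 20) = true := by decide +kernel
def p15_9_1_20 : pfC (piC [(nat_lit 44228488), (nat_lit 27488723), (nat_lit 20325581), (nat_lit 13664919)] (nat_lit 10051221)) p15_9_1 (nat_lit 4) (nat_lit 20) (nat_lit 21) = true := by decide +kernel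
def p15_9_1_21 : pfC (piC [(nat_lit 44228488), (nat_lit 27488723), (nat_lit 20325581), (nat_lit 13664919)] (nat_lit 10051221)) p15_9_1 (nat_lit 4) (nat_lit 21) (nat_lit 22) = true := by decide +kernel
def p15_9_1_22 : pfC (piC [(nat_lit 44228488), (nat_lit 27488723), (nat_lit 20325581), (nat_lit 13664919)] (nat_lit 10051221)) p15_9_1 (nat_lit 4) (nat_lit 22) (nat_lit 23) = true := by decide +kernel
def p15_9_1_23 : pfC (piC [(nat_lit 44228488), (nat_lit 27488723), (nat_lit 20325581), (nat_lit 13664919)] (nat_lit 10051221)) p15_9_1 (nat_lit 4) (nat_lit 23) (nat_lit 24) = true := by decide +kernel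
def p15_9_1_24 : pfC (piC [(nat_lit 44228488), (nat_lit 27488723), (nat_lit 20325581), (nat_lit 13664919)] (nat_lit 10051221)) p15_9_1 (nat_lit 4) (nat_lit 24) (nat_lit 25) = true := by decide +kernel
def p15_9_1_25 : pfC (piC [(nat_lit 44228488), (nat_lit 27488723), (nat_lit 20325581), (nat_lit 13664919)] (nat_lit 10051221)) p15_9_1 (nat_lit 4) (nat_lit 25) (nat_lit 26) = true := by decide +kernel
def p15_9_1_26 : pfC (piC [(nat_lit 44228488), (nat_lit 27488723), (nat_lit 20325581), (nat_lit 13664919)] (nat_lit 10051221)) p15_9_1 (nat_lit 4) (nat_lit 26) (nat_lit 27) = true := by decide +kernel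
def p15_9_1_27 : pfC (piC [(nat_lit 44228488), (nat_lit 27488723), (nat_lit 20325581), (nat_lit 13664919)] (nat_lit 10051221)) p15_9_1 (nat_lit 4) (nat_lit 27) (nat_lit 28) = true := by decide +kernel
def p15_9_1_28 : pfC (piC [(nat_lit 44228488), (nat_lit 27488723), (nat_lit 20325581), (nat_lit 13664919)] (nat_lit 10051221)) p15_9_1 (nat_lit 4) (nat_lit 28) (nat_lit 29) = true := by decide +kernel
def p15_9_1_29 : pfC (piC [(nat_lit 44228488), (nat_lit 27488723), (nat_lit 20325581), (nat_lit 13664919)] (nat_lit 10051221)) p15_9_1 (nat_lit 4) (nat_lit 29) (nat_lit 30) = true := by decide +kernel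
def p15_9_1_30 : pfC (piC [(nat_lit 44228488), (nat_lit 27488723), (nat_lit 20325581), (nat_lit 13664919)] (nat_lit 10051221)) p15_9_1 (nat_lit 4) (nat_lit 30) (nat_lit 31) = true := by decide +kernel
def p15_9_1_31 : pfC (piC [(nat_lit 44228488), (nat_lit 27488723), (nat_lit 20325581), (nat_lit 13664919)] (nat_lit 10051221)) p15_9_1 (nat_lit 4) (nat_lit 31) (nat_lit 32) = true := by decide +kernel
def p15_9_1_32 : pfC (piC [(nat_lit 44228488), (nat_lit 27488723), (nat_lit 20325581), (nat_lit 13664919)] (nat_lit 10051221)) p15_9_1 (nat_lit 4) (nat_lit 32) (nat_lit 33) = true := by decide +kernel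
def p15_9_1_33 : pfC (piC [(nat_lit 44228488), (nat_lit 27488723), (nat_lit 20325581), (nat_lit 13664919)] (nat_lit 10051221)) p15_9_1 (nat_lit 4) (nat_lit 33) (nat_lit 34) = true := by decide +kernel
def p15_9_1_34 : pfC (piC [(nat_lit 44228488), (nat_lit 27488723), (nat_lit 20325581), (nat_lit 13664919)] (nat_lit 10051221)) p15_9_1 (nat_lit 4) (nat_lit 34) (nat_lit 35) = true := by decide +kernel
def p15_9_1_35 : pfC (piC [(nat_lit 44228488), (nat_lit 27488723), (nat_lit 20325581), (nat_lit 13664919)] (nat_lit 10051221)) p15_9_1 (nat_lit 4) (nat_lit 35) (nat_lit 36) = true := by decide +kernel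
def p15_9_1_36 : pfC (piC [(nat_lit 44228488), (nat_lit 27488723), (nat_lit 20325581), (nat_lit 13664919)] (nat_lit 10051221)) p15_9_1 (nat_lit 4) (nat_lit 36) (nat_lit 37) = true := by decide +kernel
def p15_9_1_37 : pfC (piC [(nat_lit 44228488), (nat_lit 27488723), (nat_lit 20325581), (nat_lit 13664919)] (nat_lit 10051221)) p15_9_1 (nat_lit 4) (nat_lit 37) (nat_lit 38) = true := by decide +kernel
def p15_9_1_38 : pfC (piC [(nat_lit 44228488), (nat_lit 27488723), (nat_lit 20325581), (nat_lit 13664919)] (nat_lit 10051221)) p15_9_1 (nat_lit 4) (nat_lit 38) (nat_lit 39) = true := by decide +kernel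
def p15_9_1_39 : pfC (piC [(nat_lit 44228488), (nat_lit 27488723), (nat_lit 20325581), (nat_lit 13664919)] (nat_lit 10051221)) p15_9_1 (nat_lit 4) (nat_lit 39) (nat_lit 40) = true := by decide +kernel
def p15_9_1_40 : pfC (piC [(nat_lit 44228488), (nat_lit 27488723), (nat_lit 20325581), (nat_lit 13664919)] (nat_lit 10051221)) p15_9_1 (nat_lit 4) (nat_lit 40) (nat_lit 41) = true := by decide +kernel
def p15_9_1_41 : pfC (piC [(nat_lit 44228488), (nat_lit 27488723), (nat_lit 20325581), (nat_lit 13664919)] (nat_lit 10051221)) p15_9_1 (nat_lit 4) (nat_lit 41) (nat_lit 42) = true := by decide +kernel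
def p15_9_1_42 : pfC (piC [(nat_lit 44228488), (nat_lit 27488723), (nat_lit 20325581), (nat_lit 13664919)] (nat_lit 10051221)) p15_9_1 (nat_lit 4) (nat_lit 42) (nat_lit 43) = true := by decide +kernel
theorem p15_9_1_T : PfS (PiF n15_9.reverse (nat_lit 10051221)) p15_9_1 (nat_lit 4) [] 0 :=
  pftab_of (los := [(nat_lit 44228488), (nat_lit 27488723), (nat_lit 20325581), (nat_lit 13664919)]) (by decide +kernel) (hi := (nat_lit 43)) (PfP.trans (PfP.trans (PfP.trans (PfP.trans (PfP.trans (PfP.trans (PfP.trans (PfP.trans (PfP.trans (PfP.trans (PfP.trans (PfP.trans (PfP.trans (PfP.trans (PfP.trans (PfP.trans (PfP.trans (PfP.trans (PfP.trans (PfP.trans (PfP.trans (PfP.trans (PfP.trans (PfP.trans (PfP.trans (PfP.trans (PfP.trans (PfP.trans (PfP.trans (PfP.trans (PfP.trans (PfP.trans (PfP.trans (PfP.trans (PfP.trans (PfP.trans (PfP.trans (PfP.trans (PfP.trans (PfP.trans (PfP.trans (PfP.trans (pfC_sound p15_9_1_0) (pfC_sound p15_9_1_1)) (pfC_sound p15_9_1_2))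 (pfC_sound p15_9_1_3)) (pfC_sound p15_9_1_4)) (pfC_sound p15_9_1_5)) (pfC_sound p15_9_1_6)) (pfC_sound p15_9_1_7)) (pfC_sound p15_9_1_8)) (pfC_sound p15_9_1_9)) (pfC_sound p15_9_1_10)) (pfC_sound p15_9_1_11)) (pfC_sound p15_9_1_12)) (pfC_sound p15_9_1_13)) (pfC_sound p15_9_1_14)) (pfC_sound p15_9_1_15)) (pfC_sound p15_9_1_16)) (pfC_sound p15_9_1_17)) (pfC_sound p15_9_1_18)) (pfC_sound p15_9_1_19)) (pfC_sound p15_9_1_20)) (pfC_sound p15_9_1_21)) (pfC_sound p15_9_1_22)) (pfC_sound p15_9_1_23)) (pfC_sound p15_9_1_24)) (pfC_sound p15_9_1_25)) (pfC_sound p15_9_1_26)) (pfC_sound p15_9_1_27)) (pfC_sound p15_9_1_28)) (pfC_sound p15_9_1_29)) (pfC_sound p15_9_1_30))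
 (pfC_sound p15_9_1_31)) (pfC_sound p15_9_1_32)) (pfC_sound p15_9_1_33)) (pfC_sound p15_9_1_34)) (pfC_sound p15_9_1_35)) (pfC_sound p15_9_1_36)) (pfC_sound p15_9_1_37)) (pfC_sound p15_9_1_38)) (pfC_sound p15_9_1_39)) (pfC_sound p15_9_1_40)) (pfC_sound p15_9_1_41)) (pfC_sound p15_9_1_42)) (by decide +kernel)

def z15_9_1 : zOK yB15_9 (nat_lit 1) (nat_lit 400) (nat_lit 600) (nat_lit 10051221) (nat_lit 6520054) = true := by decide +kernel
def g15_9_1 : gOK yB15_9.x P15_9 (nat_lit 1429) (q15_9 :: r15_9) (nat_lit 1) (nat_lit 400) (nat_lit 2) (nat_lit 600) (nat_lit 11000000) (nat_lit 17850000) (nat_lit 12712500) (nat_lit 12712500) [(nat_lit 800), (nat_lit 1040)] = true := by decide +kernel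
def v15_9_1 : ivC P15_9 s15_9 w15_9 n15_9 (nat_lit 4) (nat_lit 5110) (nat_lit 1) (nat_lit 400) f136_1_400 f144_1_400 (nat_lit 2) (nat_lit 600) f136_1_600 f144_1_600 (nat_lit 10051221) (nat_lit 6520054) p15_9_1 = true := by decide +kernel
def p15_9_2 : PF := (PF.cons (PF.cons (PF.cons (PF.cons (PF.leaf (nat_lit 2792437) (nat_lit 16544150) (nat_lit 50564662) (nat_lit 16544150) [(nat_lit 0), (nat_lit 0), (nat_lit 0), (nat_lit 0)]) (PF.cons (PF.leaf (nat_lit 2892156) (nat_lit 164356) (nat_lit 50413292) (nat_lit 16531163) [(nat_lit 164356), (nat_lit 0), (nat_lit 0), (nat_lit 0)]) (PF.cons (PF.leaf (nat_lit 3013682) (nat_lit 178825) (nat_lit 50235671) (nat_lit 16515490) [(nat_lit 178825), (nat_lit 0), (nat_lit 0), (nat_lit 0)]) (PF.cons (PF.leaf (nat_lit 3150608) (nat_lit 191722) (nat_lit 50036293) (nat_lit 16497352) [(nat_lit 191722), (nat_lit 0), (nat_lit 0), (nat_lit 0)]) (PF.cons (PF.leaf (nat_lit 3300401) (nat_lit 203413) (nat_lit 49818288) (nat_lit 16476871)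 [(nat_lit 203413), (nat_lit 0), (nat_lit 0), (nat_lit 0)]) (PF.cons (PF.leaf (nat_lit 3461976) (nat_lit 214131) (nat_lit 49584032) (nat_lit 16454120) [(nat_lit 214131), (nat_lit 0), (nat_lit 0), (nat_lit 0)]) (PF.cons PF.nil PF.nil))))))) (PF.cons (PF.cons (PF.leaf (nat_lit 3234624) (nat_lit 986183) (nat_lit 49663351) (nat_lit 16459278) [(nat_lit 0), (nat_lit 986183), (nat_lit 0), (nat_lit 0)]) (PF.cons (PF.leaf (nat_lit 3368670) (nat_lit 202795) (nat_lit 49460520) (nat_lit
 16439140) [(nat_lit 202795), (nat_lit 1006356), (nat_lit 0), (nat_lit 0)]) (PF.cons (PF.leaf (nat_lit 3519272) (nat_lit 213910) (nat_lit 49238058) (nat_lit 16416409) [(nat_lit 213910), (nat_lit 1026524), (nat_lit 0), (nat_lit 0)]) (PF.cons (PF.leaf (nat_lit 3681672) (nat_lit 224047) (nat_lit 48999079) (nat_lit 16391250) [(nat_lit 224047), (nat_lit 1046338), (nat_lit 0), (nat_lit 0)]) (PF.cons (PF.leaf (nat_lit 3854589) (nat_lit 233392) (nat_lit 48745872) (nat_lit 16363767) [(nat_lit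 233392), (nat_lit 1065604), (nat_lit 0), (nat_lit 0)]) PF.nil))))) (PF.cons (PF.cons (PF.leaf (nat_lit 3743742) (nat_lit 1060111) (nat_lit 48639377) (nat_lit 16349213) [(nat_lit 0), (nat_lit 1060111), (nat_lit 0), (nat_lit 0)]) (PF.cons (PF.leaf (nat_lit 3903839) (nat_lit 232577) (nat_lit 48399156) (nat_lit 16321994) [(nat_lit 232577), (nat_lit 1077542), (nat_lit 0), (nat_lit 0)]) (PF.cons (PF.leaf (nat_lit 4076724) (nat_lit 241537) (nat_lit 48144133) (nat_lit 16292291) [(nat_lit 241537), (nat_lit 1094657), (nat_lit 0), (nat_lit 0)]) (PF.cons PF.nil PF.nil)))) (PF.cons (PF.cons (PF.leaf (nat_lit 4302197) (nat_lit 1120686) (nat_lit 47531917) (nat_lit 16214836) [(nat_lit 0), (nat_lit 1120686), (nat_lit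
 0), (nat_lit 0)]) (PF.cons (PF.leaf (nat_lit 4482386) (nat_lit 256596) (nat_lit 47264706) (nat_lit 16180778) [(nat_lit 256596), (nat_lit 1135577), (nat_lit 0), (nat_lit 0)]) PF.nil)) (PF.cons PF.nil (PF.cons PF.nil PF.nil)))))) (PF.cons (PF.cons (PF.cons (PF.leaf (nat_lit 3747034) (nat_lit 2770301) (nat_lit 48070635) (nat_lit 16267875) [(nat_lit 0), (nat_lit 0), (nat_lit 2770301), (nat_lit 0)]) (PF.cons (PF.leaf (nat_lit 3889136) (nat_lit 219570) (nat_lit 47858887) (nat_lit 16242499) [(nat_lit 219570), (nat_lit 0), (nat_lit 2787855), (nat_lit 0)]) (PF.cons (PF.leaf (nat_lit 4047115) (nat_lit 230224) (nat_lit 47628235) (nat_lit 16214218) [(nat_lit 230224), (nat_lit 0), (nat_lit 2805910), (nat_lit 0)]) (PF.cons (PF.leaf (nat_lit 4216404) (nat_lit 239800) (nat_lit 47382040) (nat_lit 16183307) [(nat_lit 239800), (nat_lit 0), (nat_lit 2824062), (nat_lit 0)]) (PF.cons PF.nil PF.nil))))) (PF.cons (PF.cons (PF.leaf (nat_lit 4271335) (nat_lit 1110609) (nat_lit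 47023428) (nat_lit 16134238) [(nat_lit 0), (nat_lit 1110609), (nat_lit 2840535), (nat_lit 0)]) (PF.cons (PF.leaf (nat_lit 4437419) (nat_lit 246660) (nat_lit 46778565) (nat_lit 16101682) [(nat_lit 246660), (nat_lit 1125470), (nat_lit
 2856434), (nat_lit 0)]) (PF.cons (PF.leaf (nat_lit 4615550) (nat_lit 255091) (nat_lit 46519866) (nat_lit 16066513) [(nat_lit 255091), (nat_lit 1139996), (nat_lit 2872251), (nat_lit 0)]) (PF.cons PF.nil PF.nil)))) (PF.cons (PF.cons (PF.leaf (nat_lit 4838150) (nat_lit 1160717) (nat_lit 45910643) (nat_lit 15977869) [(nat_lit 0), (nat_lit 1160717), (nat_lit 2898864), (nat_lit 0)]) (PF.cons (PF.leaf (nat_lit 5022268) (nat_lit 268235) (nat_lit 45642747) (nat_lit 15938728) [(nat_lit 268235), (nat_lit 1173326), (nat_lit 2912448), (nat_lit 0)]) PF.nil)) (PF.cons PF.nil (PF.cons PF.nil PF.nil))))) (PF.cons (PF.cons (PF.cons (PF.leaf (nat_lit 4792959) (nat_lit 2892714) (nat_lit 45430306) (nat_lit 15893077) [(nat_lit 0), (nat_lit 0),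 (nat_lit 2892714), (nat_lit 0)]) (PF.cons (PF.leaf (nat_lit 4963264) (nat_lit 258097) (nat_lit 45184419) (nat_lit 15855986) [(nat_lit 258097), (nat_lit 0), (nat_lit 2905154), (nat_lit 0)]) (PF.cons (PF.leaf (nat_lit 5145100) (nat_lit 266048) (nat_lit 44925618) (nat_lit 15816219) [(nat_lit 266048), (nat_lit 0), (nat_lit 2917439), (nat_lit 0)]) (PF.cons PF.nil PF.nil)))) (PF.cons (PF.cons (PF.leaf (nat_lit 5363774) (nat_lit 1191109) (nat_lit 44325961) (nat_lit
 15718603) [(nat_lit 0), (nat_lit 1191109), (nat_lit 2936569), (nat_lit 0)]) (PF.cons PF.nil PF.nil)) (PF.cons PF.nil PF.nil))) (PF.cons (PF.cons (PF.cons (PF.leaf (nat_lit 5877299) (nat_lit 2959403) (nat_lit 42788127) (nat_lit 15442475) [(nat_lit 0), (nat_lit 0), (nat_lit 2959403), (nat_lit 0)]) (PF.cons PF.nil PF.nil)) (PF.cons PF.nil PF.nil)) (PF.cons PF.nil PF.nil))))) (PF.cons (PF.cons (PF.cons (PF.cons (PF.leaf (nat_lit 4539078) (nat_lit 6992256) (nat_lit 44450800) (nat_lit 15665756) [(nat_lit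 0), (nat_lit 0), (nat_lit 0), (nat_lit 6992256)]) (PF.cons (PF.leaf (nat_lit 4682609) (nat_lit 228580) (nat_lit 44251255) (nat_lit 15634643) [(nat_lit 228580), (nat_lit 0), (nat_lit 0), (nat_lit 6994334)]) (PF.cons (PF.leaf (nat_lit 4841362) (nat_lit 238952) (nat_lit 44034562) (nat_lit 15600347) [(nat_lit 238952), (nat_lit 0), (nat_lit 0), (nat_lit 6995997)]) (PF.cons (PF.leaf (nat_lit 5010844) (nat_lit 248147) (nat_lit 43803978) (nat_lit 15563278) [(nat_lit 248147), (nat_lit 0), (nat_lit 0), (nat_lit 6997112)]) (PF.cons (PF.leaf (nat_lit 5189571) (nat_lit 256416) (nat_lit 43561848) (nat_lit 15523722) [(nat_lit 256416), (nat_lit 0), (nat_lit 0), (nat_lit 6997577)]) (PF.cons PF.nil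
 (PF.cons PF.nil PF.nil))))))) (PF.cons (PF.cons (PF.leaf (nat_lit 5056576) (nat_lit 1135428) (nat_lit 43473489) (nat_lit 15506638) [(nat_lit 0), (nat_lit 1135428), (nat_lit 0), (nat_lit 6993256)]) (PF.cons (PF.leaf (nat_lit 5221974) (nat_lit 253684) (nat_lit 43245599) (nat_lit 15468598) [(nat_lit 253684), (nat_lit 1148070), (nat_lit 0), (nat_lit 6992859)]) (PF.cons (PF.leaf (nat_lit 5398814) (nat_lit 261678) (nat_lit 43005460) (nat_lit 15427908) [(nat_lit 261678), (nat_lit 1160295), (nat_lit 0), (nat_lit 6991790)]) (PF.cons (PF.leaf (nat_lit 5584039) (nat_lit 268896) (nat_lit 42755263) (nat_lit 15384860) [(nat_lit 268896), (nat_lit 1172014), (nat_lit 0), (nat_lit 6989985)]) (PF.cons PF.nil PF.nil))))) (PF.cons (PF.cons (PF.leaf (nat_lit 5610170) (nat_lit 1175972) (nat_lit 42445896) (nat_lit 15328246) [(nat_lit 0), (nat_lit 1175972), (nat_lit 0), (nat_lit 6982725)]) (PF.cons (PF.leaf (nat_lit 5791749) (nat_lit 273127) (nat_lit 42199052) (nat_lit 15284322)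 [(nat_lit 273127), (nat_lit 1186407), (nat_lit 0), (nat_lit 6979495)]) (PF.cons PF.nil (PF.cons PF.nil PF.nil)))) (PF.cons (PF.cons (PF.leaf (nat_lit 6188739) (nat_lit 1208068) (nat_lit 41390353) (nat_lit 15133585) [(nat_lit 0),
 (nat_lit 1208068), (nat_lit 0), (nat_lit 6960667)]) (PF.cons PF.nil PF.nil)) (PF.cons PF.nil PF.nil))))) (PF.cons (PF.cons (PF.cons (PF.leaf (nat_lit 5549877) (nat_lit 2891242) (nat_lit 42019846) (nat_lit 15239866) [(nat_lit 0), (nat_lit 0), (nat_lit 2891242), (nat_lit 6957856)]) (PF.cons (PF.leaf (nat_lit 5718156) (nat_lit 262474) (nat_lit 41793458) (nat_lit 15198746) [(nat_lit 262474), (nat_lit 0), (nat_lit 2899797), (nat_lit 6954336)]) (PF.cons (PF.leaf (nat_lit 5897206) (nat_lit 269999) (nat_lit 41555658) (nat_lit 15154984) [(nat_lit 269999), (nat_lit 0), (nat_lit 2908110), (nat_lit 6950060)]) (PF.cons PF.nil PF.nil)))) (PF.cons (PF.cons (PF.leaf (nat_lit 6103922) (nat_lit 1196136) (nat_lit 41009566) (nat_lit 15049936) [(nat_lit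 0), (nat_lit 1196136), (nat_lit 2918905), (nat_lit 6934268)]) (PF.cons (PF.leaf (nat_lit 6286907) (nat_lit 280030) (nat_lit 40766861) (nat_lit 15003342) [(nat_lit 280030), (nat_lit 1204964), (nat_lit 2925573), (nat_lit 6928041)]) PF.nil)) (PF.cons PF.nil PF.nil))) (PF.cons (PF.cons (PF.cons (PF.leaf (nat_lit 6585171) (nat_lit 2924821) (nat_lit 39623864) (nat_lit 14763087) [(nat_lit 0), (nat_lit 0), (nat_lit 2924821), (nat_lit 6872218)]) (PF.cons PF.nil
 PF.nil)) (PF.cons PF.nil PF.nil)) PF.nil))) (PF.cons (PF.cons (PF.cons (PF.cons (PF.leaf (nat_lit 6242705) (nat_lit 6777693) (nat_lit 38976779) (nat_lit 14576647) [(nat_lit 0), (nat_lit 0), (nat_lit 0), (nat_lit 6777693)]) (PF.cons (PF.leaf (nat_lit 6407851) (nat_lit 263749) (nat_lit 38770051) (nat_lit 14533878) [(nat_lit 263749), (nat_lit 0), (nat_lit 0), (nat_lit 6770566)]) (PF.cons (PF.leaf (nat_lit 6583325) (nat_lit 270882) (nat_lit 38553214) (nat_lit 14488567) [(nat_lit 270882), (nat_lit 0), (nat_lit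 0), (nat_lit 6762632)]) (PF.cons PF.nil PF.nil)))) (PF.cons (PF.cons (PF.leaf (nat_lit 6778629) (nat_lit 1189493) (nat_lit 38058981) (nat_lit 14381455) [(nat_lit 0), (nat_lit 1189493), (nat_lit 0), (nat_lit 6739441)]) (PF.cons PF.nil PF.nil)) (PF.cons PF.nil PF.nil))) (PF.cons (PF.cons (PF.cons (PF.leaf (nat_lit 7230525) (nat_lit 2871666) (nat_lit 36814904) (nat_lit 14095580) [(nat_lit 0), (nat_lit 0), (nat_lit 2871666), (nat_lit 6663330)]) (PF.cons PF.nil PF.nil)) PF.nil) PF.nil)) (PF.cons PF.nil (PF.cons PF.nil (PF.cons PF.nil PF.nil))))))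

def p15_9_2_0 : pfC (piC [(nat_lit 44228488), (nat_lit 27488723), (nat_lit 20325581), (nat_lit 13664919)] (nat_lit 6520054)) p15_9_2 (nat_lit 4) (nat_lit 0) (nat_lit 1) = true := by decide +kernel
def p15_9_2_1 : pfC (piC [(nat_lit 44228488), (nat_lit 27488723), (nat_lit 20325581), (nat_lit 13664919)] (nat_lit 6520054)) p15_9_2 (nat_lit 4) (nat_lit 1) (nat_lit 2) = true := by decide +kernel
def p15_9_2_2 : pfC (piC [(nat_lit 44228488), (nat_lit 27488723), (nat_lit 20325581), (nat_lit 13664919)] (nat_lit 6520054)) p15_9_2 (nat_lit 4) (nat_lit 2) (nat_lit 3) = true := by decide +kernel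
def p15_9_2_3 : pfC (piC [(nat_lit 44228488), (nat_lit 27488723), (nat_lit 20325581), (nat_lit 13664919)] (nat_lit 6520054)) p15_9_2 (nat_lit 4) (nat_lit 3) (nat_lit 4) = true := by decide +kernel
def p15_9_2_4 : pfC (piC [(nat_lit 44228488), (nat_lit 27488723), (nat_lit 20325581), (nat_lit 13664919)] (nat_lit 6520054)) p15_9_2 (nat_lit 4) (nat_lit 4) (nat_lit 5) = true := by decide +kernel
def p15_9_2_5 : pfC (piC [(nat_lit 44228488), (nat_lit 27488723), (nat_lit 20325581), (nat_lit 13664919)] (nat_lit 6520054)) p15_9_2 (nat_lit 4) (nat_lit 5) (nat_lit 6) = true := by decide +kernel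
def p15_9_2_6 : pfC (piC [(nat_lit 44228488), (nat_lit 27488723), (nat_lit 20325581), (nat_lit 13664919)] (nat_lit 6520054)) p15_9_2 (nat_lit 4) (nat_lit 6) (nat_lit 7) = true := by decide +kernel
def p15_9_2_7 : pfC (piC [(nat_lit 44228488), (nat_lit 27488723), (nat_lit 20325581), (nat_lit 13664919)] (nat_lit 6520054)) p15_9_2 (nat_lit 4) (nat_lit 7) (nat_lit 8) = true := by decide +kernel
def p15_9_2_8 : pfC (piC [(nat_lit 44228488), (nat_lit 27488723), (nat_lit 20325581), (nat_lit 13664919)] (nat_lit 6520054)) p15_9_2 (nat_lit 4) (nat_lit 8) (nat_lit 9) = true := by decide +kernel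
def p15_9_2_9 : pfC (piC [(nat_lit 44228488), (nat_lit 27488723), (nat_lit 20325581), (nat_lit 13664919)] (nat_lit 6520054)) p15_9_2 (nat_lit 4) (nat_lit 9) (nat_lit 10) = true := by decide +kernel
def p15_9_2_10 : pfC (piC [(nat_lit 44228488), (nat_lit 27488723), (nat_lit 20325581), (nat_lit 13664919)] (nat_lit 6520054)) p15_9_2 (nat_lit 4) (nat_lit 10) (nat_lit 11) = true := by decide +kernel
def p15_9_2_11 : pfC (piC [(nat_lit 44228488), (nat_lit 27488723), (nat_lit 20325581), (nat_lit 13664919)] (nat_lit 6520054)) p15_9_2 (nat_lit 4) (nat_lit 11) (nat_lit 12) = true := by decide +kernel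
def p15_9_2_12 : pfC (piC [(nat_lit 44228488), (nat_lit 27488723), (nat_lit 20325581), (nat_lit 13664919)] (nat_lit 6520054)) p15_9_2 (nat_lit 4) (nat_lit 12) (nat_lit 13) = true := by decide +kernel
def p15_9_2_13 : pfC (piC [(nat_lit 44228488), (nat_lit 27488723), (nat_lit 20325581), (nat_lit 13664919)] (nat_lit 6520054)) p15_9_2 (nat_lit 4) (nat_lit 13) (nat_lit 14) = true := by decide +kernel
def p15_9_2_14 : pfC (piC [(nat_lit 44228488), (nat_lit 27488723), (nat_lit 20325581), (nat_lit 13664919)] (nat_lit 6520054)) p15_9_2 (nat_lit 4) (nat_lit 14) (nat_lit 15) = true := by decide +kernel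
def p15_9_2_15 : pfC (piC [(nat_lit 44228488), (nat_lit 27488723), (nat_lit 20325581), (nat_lit 13664919)] (nat_lit 6520054)) p15_9_2 (nat_lit 4) (nat_lit 15) (nat_lit 16) = true := by decide +kernel
def p15_9_2_16 : pfC (piC [(nat_lit 44228488), (nat_lit 27488723), (nat_lit 20325581), (nat_lit 13664919)] (nat_lit 6520054)) p15_9_2 (nat_lit 4) (nat_lit 16) (nat_lit 17) = true := by decide +kernel
def p15_9_2_17 : pfC (piC [(nat_lit 44228488), (nat_lit 27488723), (nat_lit 20325581), (nat_lit 13664919)] (nat_lit 6520054)) p15_9_2 (nat_lit 4) (nat_lit 17) (nat_lit 18) = true := by decide +kernel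
def p15_9_2_18 : pfC (piC [(nat_lit 44228488), (nat_lit 27488723), (nat_lit 20325581), (nat_lit 13664919)] (nat_lit 6520054)) p15_9_2 (nat_lit 4) (nat_lit 18) (nat_lit 19) = true := by decide +kernel
def p15_9_2_19 : pfC (piC [(nat_lit 44228488), (nat_lit 27488723), (nat_lit 20325581), (nat_lit 13664919)] (nat_lit 6520054)) p15_9_2 (nat_lit 4) (nat_lit 19) (nat_lit 20) = true := by decide +kernel
def p15_9_2_20 : pfC (piC [(nat_lit 44228488), (nat_lit 27488723), (nat_lit 20325581), (nat_lit 13664919)] (nat_lit 6520054)) p15_9_2 (nat_lit 4) (nat_lit 20) (nat_lit 21) = true := by decide +kernel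
def p15_9_2_21 : pfC (piC [(nat_lit 44228488), (nat_lit 27488723), (nat_lit 20325581), (nat_lit 13664919)] (nat_lit 6520054)) p15_9_2 (nat_lit 4) (nat_lit 21) (nat_lit 22) = true := by decide +kernel
def p15_9_2_22 : pfC (piC [(nat_lit 44228488), (nat_lit 27488723), (nat_lit 20325581), (nat_lit 13664919)] (nat_lit 6520054)) p15_9_2 (nat_lit 4) (nat_lit 22) (nat_lit 23) = true := by decide +kernel
def p15_9_2_23 : pfC (piC [(nat_lit 44228488), (nat_lit 27488723), (nat_lit 20325581), (nat_lit 13664919)] (nat_lit 6520054)) p15_9_2 (nat_lit 4) (nat_lit 23) (nat_lit 24) = true := by decide +kernel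
def p15_9_2_24 : pfC (piC [(nat_lit 44228488), (nat_lit 27488723), (nat_lit 20325581), (nat_lit 13664919)] (nat_lit 6520054)) p15_9_2 (nat_lit 4) (nat_lit 24) (nat_lit 25) = true := by decide +kernel
def p15_9_2_25 : pfC (piC [(nat_lit 44228488), (nat_lit 27488723), (nat_lit 20325581), (nat_lit 13664919)] (nat_lit 6520054)) p15_9_2 (nat_lit 4) (nat_lit 25) (nat_lit 26) = true := by decide +kernel
def p15_9_2_26 : pfC (piC [(nat_lit 44228488), (nat_lit 27488723), (nat_lit 20325581), (nat_lit 13664919)] (nat_lit 6520054)) p15_9_2 (nat_lit 4) (nat_lit 26) (nat_lit 27) = true := by decide +kernel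
def p15_9_2_27 : pfC (piC [(nat_lit 44228488), (nat_lit 27488723), (nat_lit 20325581), (nat_lit 13664919)] (nat_lit 6520054)) p15_9_2 (nat_lit 4) (nat_lit 27) (nat_lit 28) = true := by decide +kernel
def p15_9_2_28 : pfC (piC [(nat_lit 44228488), (nat_lit 27488723), (nat_lit 20325581), (nat_lit 13664919)] (nat_lit 6520054)) p15_9_2 (nat_lit 4) (nat_lit 28) (nat_lit 29) = true := by decide +kernel
def p15_9_2_29 : pfC (piC [(nat_lit 44228488), (nat_lit 27488723), (nat_lit 20325581), (nat_lit 13664919)] (nat_lit 6520054)) p15_9_2 (nat_lit 4) (nat_lit 29) (nat_lit 30) = true := by decide +kernel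
def p15_9_2_30 : pfC (piC [(nat_lit 44228488), (nat_lit 27488723), (nat_lit 20325581), (nat_lit 13664919)] (nat_lit 6520054)) p15_9_2 (nat_lit 4) (nat_lit 30) (nat_lit 31) = true := by decide +kernel
def p15_9_2_31 : pfC (piC [(nat_lit 44228488), (nat_lit 27488723), (nat_lit 20325581), (nat_lit 13664919)] (nat_lit 6520054)) p15_9_2 (nat_lit 4) (nat_lit 31) (nat_lit 32) = true := by decide +kernel
def p15_9_2_32 : pfC (piC [(nat_lit 44228488), (nat_lit 27488723), (nat_lit 20325581), (nat_lit 13664919)] (nat_lit 6520054)) p15_9_2 (nat_lit 4) (nat_lit 32) (nat_lit 33) = true := by decide +kernel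
def p15_9_2_33 : pfC (piC [(nat_lit 44228488), (nat_lit 27488723), (nat_lit 20325581), (nat_lit 13664919)] (nat_lit 6520054)) p15_9_2 (nat_lit 4) (nat_lit 33) (nat_lit 34) = true := by decide +kernel
def p15_9_2_34 : pfC (piC [(nat_lit 44228488), (nat_lit 27488723), (nat_lit 20325581), (nat_lit 13664919)] (nat_lit 6520054)) p15_9_2 (nat_lit 4) (nat_lit 34) (nat_lit 35) = true := by decide +kernel
def p15_9_2_35 : pfC (piC [(nat_lit 44228488), (nat_lit 27488723), (nat_lit 20325581), (nat_lit 13664919)] (nat_lit 6520054)) p15_9_2 (nat_lit 4) (nat_lit 35) (nat_lit 36) = true := by decide +kernel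
def p15_9_2_36 : pfC (piC [(nat_lit 44228488), (nat_lit 27488723), (nat_lit 20325581), (nat_lit 13664919)] (nat_lit 6520054)) p15_9_2 (nat_lit 4) (nat_lit 36) (nat_lit 37) = true := by decide +kernel
def p15_9_2_37 : pfC (piC [(nat_lit 44228488), (nat_lit 27488723), (nat_lit 20325581), (nat_lit 13664919)] (nat_lit 6520054)) p15_9_2 (nat_lit 4) (nat_lit 37) (nat_lit 38) = true := by decide +kernel
def p15_9_2_38 : pfC (piC [(nat_lit 44228488), (nat_lit 27488723), (nat_lit 20325581), (nat_lit 13664919)] (nat_lit 6520054)) p15_9_2 (nat_lit 4) (nat_lit 38) (nat_lit 39) = true := by decide +kernel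
def p15_9_2_39 : pfC (piC [(nat_lit 44228488), (nat_lit 27488723), (nat_lit 20325581), (nat_lit 13664919)] (nat_lit 6520054)) p15_9_2 (nat_lit 4) (nat_lit 39) (nat_lit 40) = true := by decide +kernel
def p15_9_2_40 : pfC (piC [(nat_lit 44228488), (nat_lit 27488723), (nat_lit 20325581), (nat_lit 13664919)] (nat_lit 6520054)) p15_9_2 (nat_lit 4) (nat_lit 40) (nat_lit 41) = true := by decide +kernel
def p15_9_2_41 : pfC (piC [(nat_lit 44228488), (nat_lit 27488723), (nat_lit 20325581), (nat_lit 13664919)] (nat_lit 6520054)) p15_9_2 (nat_lit 4) (nat_lit 41) (nat_lit 42) = true := by decide +kernel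
def p15_9_2_42 : pfC (piC [(nat_lit 44228488), (nat_lit 27488723), (nat_lit 20325581), (nat_lit 13664919)] (nat_lit 6520054)) p15_9_2 (nat_lit 4) (nat_lit 42) (nat_lit 43) = true := by decide +kernel
def p15_9_2_43 : pfC (piC [(nat_lit 44228488), (nat_lit 27488723), (nat_lit 20325581), (nat_lit 13664919)] (nat_lit 6520054)) p15_9_2 (nat_lit 4) (nat_lit 43) (nat_lit 44) = true := by decide +kernel
def p15_9_2_44 : pfC (piC [(nat_lit 44228488), (nat_lit 27488723), (nat_lit 20325581), (nat_lit 13664919)] (nat_lit 6520054)) p15_9_2 (nat_lit 4) (nat_lit 44) (nat_lit 45) = true := by decide +kernel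
def p15_9_2_45 : pfC (piC [(nat_lit 44228488), (nat_lit 27488723), (nat_lit 20325581), (nat_lit 13664919)] (nat_lit 6520054)) p15_9_2 (nat_lit 4) (nat_lit 45) (nat_lit 46) = true := by decide +kernel
def p15_9_2_46 : pfC (piC [(nat_lit 44228488), (nat_lit 27488723), (nat_lit 20325581), (nat_lit 13664919)] (nat_lit 6520054)) p15_9_2 (nat_lit 4) (nat_lit 46) (nat_lit 47) = true := by decide +kernel
def p15_9_2_47 : pfC (piC [(nat_lit 44228488), (nat_lit 27488723), (nat_lit 20325581), (nat_lit 13664919)] (nat_lit 6520054)) p15_9_2 (nat_lit 4) (nat_lit 47) (nat_lit 48) = true := by decide +kernel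
def p15_9_2_48 : pfC (piC [(nat_lit 44228488), (nat_lit 27488723), (nat_lit 20325581), (nat_lit 13664919)] (nat_lit 6520054)) p15_9_2 (nat_lit 4) (nat_lit 48) (nat_lit 49) = true := by decide +kernel
def p15_9_2_49 : pfC (piC [(nat_lit 44228488), (nat_lit 27488723), (nat_lit 20325581), (nat_lit 13664919)] (nat_lit 6520054)) p15_9_2 (nat_lit 4) (nat_lit 49) (nat_lit 50) = true := by decide +kernel
def p15_9_2_50 : pfC (piC [(nat_lit 44228488), (nat_lit 27488723), (nat_lit 20325581), (nat_lit 13664919)] (nat_lit 6520054)) p15_9_2 (nat_lit 4) (nat_lit 50) (nat_lit 51) = true := by decide +kernel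
def p15_9_2_51 : pfC (piC [(nat_lit 44228488), (nat_lit 27488723), (nat_lit 20325581), (nat_lit 13664919)] (nat_lit 6520054)) p15_9_2 (nat_lit 4) (nat_lit 51) (nat_lit 52) = true := by decide +kernel
def p15_9_2_52 : pfC (piC [(nat_lit 44228488), (nat_lit 27488723), (nat_lit 20325581), (nat_lit 13664919)] (nat_lit 6520054)) p15_9_2 (nat_lit 4) (nat_lit 52) (nat_lit 53) = true := by decide +kernel
theorem p15_9_2_T : PfS (PiF n15_9.reverse (nat_lit 6520054)) p15_9_2 (nat_lit 4) [] 0 :=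
  pftab_of (los := [(nat_lit 44228488), (nat_lit 27488723), (nat_lit 20325581), (nat_lit 13664919)]) (by decide +kernel) (hi := (nat_lit 53)) (PfP.trans (PfP.trans (PfP.trans (PfP.trans (PfP.trans (PfP.trans (PfP.trans (PfP.trans (PfP.trans (PfP.trans (PfP.trans (PfP.trans (PfP.trans (PfP.trans (PfP.trans (PfP.trans (PfP.trans (PfP.trans (PfP.trans (PfP.trans (PfP.trans (PfP.trans (PfP.trans (PfP.trans (PfP.trans (PfP.trans (PfP.trans (PfP.trans (PfP.trans (PfP.trans (PfP.trans (PfP.trans (PfP.trans (PfP.trans (PfP.trans (PfP.trans (PfP.trans (PfP.trans (PfP.trans (PfP.trans (PfP.trans (PfP.trans (PfP.trans (PfP.trans (PfP.trans (PfP.trans (PfP.trans (PfP.trans (PfP.trans (PfP.trans (PfP.trans (PfP.trans (pfC_sound p15_9_2_0) (pfC_sound p15_9_2_1)) (pfC_sound p15_9_2_2)) (pfC_sound p15_9_2_3)) (pfC_sound p15_9_2_4)) (pfC_sound p15_9_2_5)) (pfC_sound p15_9_2_6)) (pfC_sound p15_9_2_7)) (pfC_sound p15_9_2_8)) (pfC_sound p15_9_2_9)) (pfC_sound p15_9_2_10))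 (pfC_sound p15_9_2_11)) (pfC_sound p15_9_2_12)) (pfC_sound p15_9_2_13)) (pfC_sound p15_9_2_14)) (pfC_sound p15_9_2_15)) (pfC_sound p15_9_2_16)) (pfC_sound p15_9_2_17)) (pfC_sound p15_9_2_18)) (pfC_sound p15_9_2_19)) (pfC_sound p15_9_2_20)) (pfC_sound p15_9_2_21)) (pfC_sound p15_9_2_22)) (pfC_sound p15_9_2_23)) (pfC_sound p15_9_2_24)) (pfC_sound p15_9_2_25)) (pfC_sound
 p15_9_2_26)) (pfC_sound p15_9_2_27)) (pfC_sound p15_9_2_28)) (pfC_sound p15_9_2_29)) (pfC_sound p15_9_2_30)) (pfC_sound p15_9_2_31)) (pfC_sound p15_9_2_32)) (pfC_sound p15_9_2_33)) (pfC_sound p15_9_2_34)) (pfC_sound p15_9_2_35)) (pfC_sound p15_9_2_36)) (pfC_sound p15_9_2_37)) (pfC_sound p15_9_2_38)) (pfC_sound p15_9_2_39)) (pfC_sound p15_9_2_40)) (pfC_sound p15_9_2_41)) (pfC_sound p15_9_2_42)) (pfC_sound p15_9_2_43)) (pfC_sound p15_9_2_44)) (pfC_sound p15_9_2_45)) (pfC_sound p15_9_2_46)) (pfC_sound p15_9_2_47)) (pfC_sound p15_9_2_48)) (pfC_sound p15_9_2_49)) (pfC_sound p15_9_2_50)) (pfC_sound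 p15_9_2_51)) (pfC_sound p15_9_2_52)) (by decide +kernel)

def z15_9_2 : zOK yB15_9 (nat_lit 2) (nat_lit 600) (nat_lit 750) (nat_lit 6520054) (nat_lit 4652153) = true := by decide +kernel
def g15_9_2 : gOK yB15_9.x P15_9 (nat_lit 1429) (q15_9 :: r15_9) (nat_lit 2) (nat_lit 600) (nat_lit 3) (nat_lit 750) (nat_lit 12712500) (nat_lit 12712500) (nat_lit 12712500) (nat_lit 12712500) [(nat_lit 800), (nat_lit 1600)] = true := by decide +kernel
def v15_9_2 : ivC P15_9 s15_9 w15_9 n15_9 (nat_lit 4) (nat_lit 4910) (nat_lit 2) (nat_lit 600) f136_1_600 f144_1_600 (nat_lit 3) (nat_lit 750) f136_1_750 f144_1_750 (nat_lit 6520054) (nat_lit 4652153) p15_9_2 = true := by decide +kernel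
def p15_9_3 : PF := (PF.cons (PF.cons (PF.cons (PF.cons (PF.leaf (nat_lit 3149026) (nat_lit 21739392) (nat_lit 45369420) (nat_lit 21739392) [(nat_lit 0), (nat_lit 0), (nat_lit 0), (nat_lit 0)]) (PF.cons (PF.leaf (nat_lit 3243527) (nat_lit 157790) (nat_lit 45244356) (nat_lit 21706666) [(nat_lit 157790), (nat_lit 0), (nat_lit 0), (nat_lit 0)]) (PF.cons (PF.leaf (nat_lit 3359312) (nat_lit 171615) (nat_lit 45097596) (nat_lit 21667986) [(nat_lit 171615), (nat_lit 0), (nat_lit 0), (nat_lit 0)]) (PF.cons (PF.leaf (nat_lit 3489740) (nat_lit 183915) (nat_lit 44932847) (nat_lit 21624218) [(nat_lit 183915), (nat_lit 0), (nat_lit 0), (nat_lit 0)]) (PF.cons (PF.leaf (nat_lit 3632275) (nat_lit 195045) (nat_lit 44752690) (nat_lit 21575942) [(nat_lit 195045), (nat_lit 0), (nat_lit 0), (nat_lit 0)]) (PF.cons (PF.leaf (nat_lit 3785949) (nat_lit 205229) (nat_lit 44559080) (nat_lit 21523584) [(nat_lit 205229), (nat_lit 0), (nat_lit 0), (nat_lit 0)]) (PF.cons (PF.leaf (nat_lit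 3949245) (nat_lit 214625) (nat_lit 44353585) (nat_lit 21467475) [(nat_lit 214625), (nat_lit 0), (nat_lit 0), (nat_lit 0)]) (PF.cons PF.nil (PF.cons PF.nil PF.nil))))))))) (PF.cons (PF.cons (PF.leaf (nat_lit 3568276) (nat_lit 944011) (nat_lit
 44625010) (nat_lit 21539790) [(nat_lit 0), (nat_lit 944011), (nat_lit 0), (nat_lit 0)]) (PF.cons (PF.leaf (nat_lit 3695405) (nat_lit 194308) (nat_lit 44457364) (nat_lit 21494167) [(nat_lit 194308), (nat_lit 962972), (nat_lit 0), (nat_lit 0)]) (PF.cons (PF.leaf (nat_lit 3838570) (nat_lit 204875) (nat_lit 44273467) (nat_lit 21443703) [(nat_lit 204875), (nat_lit 981890), (nat_lit 0), (nat_lit 0)]) (PF.cons (PF.leaf (nat_lit 3992846) (nat_lit 214496) (nat_lit 44075880) (nat_lit 21389001) [(nat_lit 214496), (nat_lit 1000440), (nat_lit 0), (nat_lit 0)]) (PF.cons (PF.leaf (nat_lit 4157034) (nat_lit 223348) (nat_lit 43866487) (nat_lit 21330491) [(nat_lit 223348), (nat_lit 1018441), (nat_lit 0), (nat_lit 0)]) (PF.cons (PF.leaf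 (nat_lit 4330040) (nat_lit 231550) (nat_lit 43646762) (nat_lit 21268501) [(nat_lit 231550), (nat_lit 1035794), (nat_lit 0), (nat_lit 0)]) (PF.cons PF.nil PF.nil))))))) (PF.cons (PF.cons (PF.leaf (nat_lit 4050185) (nat_lit 1012985) (nat_lit 43778790) (nat_lit 21304052) [(nat_lit 0), (nat_lit 1012985), (nat_lit 0), (nat_lit 0)]) (PF.cons (PF.leaf (nat_lit 4201919) (nat_lit 222437) (nat_lit 43580076) (nat_lit 21247770) [(nat_lit 222437), (nat_lit 1029264), (nat_lit 0),
 (nat_lit 0)]) (PF.cons (PF.leaf (nat_lit 4365953) (nat_lit 230917) (nat_lit 43369064) (nat_lit 21187470) [(nat_lit 230917), (nat_lit 1045221), (nat_lit 0), (nat_lit 0)]) (PF.cons (PF.leaf (nat_lit 4539026) (nat_lit 238736) (nat_lit 43147583) (nat_lit 21123592) [(nat_lit 238736), (nat_lit 1060712), (nat_lit 0), (nat_lit 0)]) (PF.cons (PF.leaf (nat_lit 4720095) (nat_lit 245996) (nat_lit 42917045) (nat_lit 21056468) [(nat_lit 245996), (nat_lit 1075656), (nat_lit 0), (nat_lit 0)]) PF.nil)))))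 (PF.cons (PF.cons (PF.leaf (nat_lit 4578127) (nat_lit 1069154) (nat_lit 42862644) (nat_lit 21038703) [(nat_lit 0), (nat_lit 1069154), (nat_lit 0), (nat_lit 0)]) (PF.cons (PF.leaf (nat_lit 4748662) (nat_lit 245011) (nat_lit 42641322) (nat_lit 20973494) [(nat_lit 245011), (nat_lit 1082994), (nat_lit 0), (nat_lit 0)]) (PF.cons (PF.leaf (nat_lit 4929141) (nat_lit 251984) (nat_lit 42410672) (nat_lit 20904915) [(nat_lit 251984), (nat_lit 1096418), (nat_lit 0), (nat_lit 0)]) (PF.cons PF.nil PF.nil)))) (PF.cons (PF.cons (PF.leaf (nat_lit 5140014) (nat_lit 1115043) (nat_lit 41899734) (nat_lit 20748904) [(nat_lit 0), (nat_lit 1115043), (nat_lit 0), (nat_lit 0)]) (PF.cons (PF.leaf (nat_lit 5325270) (nat_lit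
 263472) (nat_lit 41662296) (nat_lit 20676221) [(nat_lit 263472), (nat_lit 1126705), (nat_lit 0), (nat_lit 0)]) PF.nil)) (PF.cons PF.nil PF.nil)))))) (PF.cons (PF.cons (PF.cons (PF.leaf (nat_lit 4049228) (nat_lit 2637833) (nat_lit 43310503) (nat_lit 21160476) [(nat_lit 0), (nat_lit 0), (nat_lit 2637833), (nat_lit 0)]) (PF.cons (PF.leaf (nat_lit 4183852) (nat_lit 209844) (nat_lit 43135220) (nat_lit 21109891) [(nat_lit 209844), (nat_lit 0), (nat_lit 2653856), (nat_lit 0)]) (PF.cons (PF.leaf (nat_lit 4333661) (nat_lit 219956) (nat_lit 42944239) (nat_lit 21054350) [(nat_lit 219956), (nat_lit 0), (nat_lit 2670310), (nat_lit 0)]) (PF.cons (PF.leaf (nat_lit 4494275) (nat_lit 229030) (nat_lit 42740329) (nat_lit 20994563) [(nat_lit 229030), (nat_lit 0), (nat_lit 2686827), (nat_lit 0)]) (PF.cons (PF.leaf (nat_lit 4664228) (nat_lit 237283) (nat_lit 42525487) (nat_lit 20931034) [(nat_lit 237283), (nat_lit 0), (nat_lit 2703156), (nat_lit 0)]) (PF.cons (PF.leaf (nat_lit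 4842392) (nat_lit 244859) (nat_lit 42301250) (nat_lit 20864144) [(nat_lit 244859), (nat_lit 0), (nat_lit 2719120), (nat_lit 0)]) (PF.cons PF.nil PF.nil))))))) (PF.cons (PF.cons (PF.leaf (nat_lit 4545035) (nat_lit 1058933)
 (nat_lit 42443567) (nat_lit 20904889) [(nat_lit 0), (nat_lit 1058933), (nat_lit 2701422), (nat_lit 0)]) (PF.cons (PF.leaf (nat_lit 4702228) (nat_lit 235401) (nat_lit 42240595) (nat_lit 20844153) [(nat_lit 235401), (nat_lit 1072802), (nat_lit 2715859), (nat_lit 0)]) (PF.cons (PF.leaf (nat_lit 4871120) (nat_lit 243375) (nat_lit 42026076) (nat_lit 20779438) [(nat_lit 243375), (nat_lit 1086340), (nat_lit 2730206), (nat_lit 0)]) (PF.cons (PF.leaf (nat_lit 5048529) (nat_lit 250653) (nat_lit 41801907) (nat_lit 20711240) [(nat_lit 250653), (nat_lit 1099436), (nat_lit 2744268), (nat_lit 0)]) (PF.cons PF.nil PF.nil))))) (PF.cons (PF.cons (PF.leaf (nat_lit 5080743) (nat_lit 1105386) (nat_lit 41520924) (nat_lit 20623134) [(nat_lit 0), (nat_lit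 1105386), (nat_lit 2753980), (nat_lit 0)]) (PF.cons (PF.leaf (nat_lit 5255070) (nat_lit 255680) (nat_lit 41298466) (nat_lit 20554156) [(nat_lit 255680), (nat_lit 1117116), (nat_lit 2766275), (nat_lit 0)]) (PF.cons (PF.leaf (nat_lit 5438633) (nat_lit 262158) (nat_lit 41067440) (nat_lit 20481928) [(nat_lit 262158), (nat_lit 1128449), (nat_lit 2778227), (nat_lit 0)]) (PF.cons PF.nil PF.nil)))) (PF.cons (PF.cons (PF.leaf (nat_lit 5645215) (nat_lit 1143154)
 (nat_lit 40563171) (nat_lit 20320379) [(nat_lit 0), (nat_lit 1143154), (nat_lit 2795800), (nat_lit 0)]) (PF.cons PF.nil PF.nil)) (PF.cons PF.nil PF.nil))))) (PF.cons (PF.cons (PF.cons (PF.leaf (nat_lit 5034693) (nat_lit 2747243) (nat_lit 41123968) (nat_lit 20490357) [(nat_lit 0), (nat_lit 0), (nat_lit 2747243), (nat_lit 0)]) (PF.cons (PF.leaf (nat_lit 5195967) (nat_lit 245934) (nat_lit 40919594) (nat_lit 20426157) [(nat_lit 245934), (nat_lit 0), (nat_lit 2758562), (nat_lit 0)]) (PF.cons (PF.leaf (nat_lit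 5368242) (nat_lit 253455) (nat_lit 40704386) (nat_lit 20358049) [(nat_lit 253455), (nat_lit 0), (nat_lit 2769732), (nat_lit 0)]) (PF.cons (PF.leaf (nat_lit 5548668) (nat_lit 260254) (nat_lit 40480272) (nat_lit 20286576) [(nat_lit 260254), (nat_lit 0), (nat_lit 2780600), (nat_lit 0)]) (PF.cons PF.nil PF.nil))))) (PF.cons (PF.cons (PF.leaf (nat_lit 5574414) (nat_lit 1132940) (nat_lit 40205678) (nat_lit 20196484) [(nat_lit 0), (nat_lit 1132940), (nat_lit 2786854), (nat_lit 0)]) (PF.cons (PF.leaf (nat_lit 5751249) (nat_lit 264254) (nat_lit 39984426) (nat_lit 20124708) [(nat_lit 264254), (nat_lit 1142913), (nat_lit 2796255), (nat_lit 0)]) (PF.cons PF.nil (PF.cons PF.nil PF.nil))))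
 (PF.cons (PF.cons (PF.leaf (nat_lit 6138605) (nat_lit 1164013) (nat_lit 39261456) (nat_lit 19884726) [(nat_lit 0), (nat_lit 1164013), (nat_lit 2817301), (nat_lit 0)]) (PF.cons PF.nil PF.nil)) PF.nil))) (PF.cons (PF.cons (PF.cons (PF.leaf (nat_lit 6057734) (nat_lit 2806748) (nat_lit 38924992) (nat_lit 19763574) [(nat_lit 0), (nat_lit 0), (nat_lit 2806748), (nat_lit 0)]) (PF.cons (PF.leaf (nat_lit 6236060) (nat_lit 271092) (nat_lit 38706675) (nat_lit 19689839) [(nat_lit 271092), (nat_lit 0), (nat_lit 2813735), (nat_lit 0)]) PF.nil)) (PF.cons PF.nil PF.nil)) (PF.cons PF.nil (PF.cons PF.nil PF.nil)))))) (PF.cons (PF.cons (PF.cons (PF.cons (PF.leaf (nat_lit 4787045) (nat_lit 6603065) (nat_lit 40320748) (nat_lit 20184998) [(nat_lit 0), (nat_lit 0), (nat_lit 0), (nat_lit 6603065)]) (PF.cons (PF.leaf (nat_lit 4923110) (nat_lit 217851) (nat_lit 40154414) (nat_lit 20131916) [(nat_lit 217851), (nat_lit 0), (nat_lit 0), (nat_lit 6604629)]) (PF.cons (PF.leaf (nat_lit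 5073756) (nat_lit 227698) (nat_lit 39973713) (nat_lit 20073896) [(nat_lit 227698), (nat_lit 0), (nat_lit 0), (nat_lit 6605806)]) (PF.cons (PF.leaf (nat_lit 5234688) (nat_lit 236420) (nat_lit 39781340) (nat_lit 20011728) [(nat_lit
 236420), (nat_lit 0), (nat_lit 0), (nat_lit 6606481)]) (PF.cons (PF.leaf (nat_lit 5404385) (nat_lit 244257) (nat_lit 39579236) (nat_lit 19945975) [(nat_lit 244257), (nat_lit 0), (nat_lit 0), (nat_lit 6606572)]) (PF.cons (PF.leaf (nat_lit 5581682) (nat_lit 251370) (nat_lit 39368884) (nat_lit 19877062) [(nat_lit 251370), (nat_lit 0), (nat_lit 0), (nat_lit 6606015)]) (PF.cons PF.nil PF.nil))))))) (PF.cons (PF.cons (PF.leaf (nat_lit 5277367) (nat_lit 1080291) (nat_lit 39505783) (nat_lit 19920320) [(nat_lit 0), (nat_lit 1080291), (nat_lit 0), (nat_lit 6602417)]) (PF.cons (PF.leaf (nat_lit 5434227) (nat_lit 241602) (nat_lit 39315434) (nat_lit 19857819) [(nat_lit 241602), (nat_lit 1092177), (nat_lit 0), (nat_lit 6601778)]) (PF.cons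 (PF.leaf (nat_lit 5602125) (nat_lit 249180) (nat_lit 39114751) (nat_lit 19791498) [(nat_lit 249180), (nat_lit 1103664), (nat_lit 0), (nat_lit 6600537)]) (PF.cons (PF.leaf (nat_lit 5777971) (nat_lit 256018) (nat_lit 38905548) (nat_lit 19721899) [(nat_lit 256018), (nat_lit 1114669), (nat_lit 0), (nat_lit 6598639)]) (PF.cons PF.nil PF.nil))))) (PF.cons (PF.cons (PF.leaf (nat_lit 5802001) (nat_lit 1118264) (nat_lit 38647022) (nat_lit 19633595) [(nat_lit 0),
 (nat_lit 1118264), (nat_lit 0), (nat_lit 6591666)]) (PF.cons (PF.leaf (nat_lit 5974185) (nat_lit 259974) (nat_lit 38440354) (nat_lit 19563803) [(nat_lit 259974), (nat_lit 1128070), (nat_lit 0), (nat_lit 6588539)]) (PF.cons (PF.leaf (nat_lit 6155073) (nat_lit 266008) (nat_lit 38226165) (nat_lit 19490995) [(nat_lit 266008), (nat_lit 1137460), (nat_lit 0), (nat_lit 6584714)]) (PF.cons PF.nil PF.nil)))) (PF.cons (PF.cons (PF.leaf (nat_lit 6350581) (nat_lit 1148342) (nat_lit 37762717) (nat_lit 19330173) [(nat_lit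 0), (nat_lit 1148342), (nat_lit 0), (nat_lit 6570895)]) (PF.cons PF.nil PF.nil)) (PF.cons PF.nil PF.nil))))) (PF.cons (PF.cons (PF.cons (PF.leaf (nat_lit 5742867) (nat_lit 2743246) (nat_lit 38291875) (nat_lit 19505216) [(nat_lit 0), (nat_lit 0), (nat_lit 2743246), (nat_lit 6568473)]) (PF.cons (PF.leaf (nat_lit 5902464) (nat_lit 249812) (nat_lit 38102122) (nat_lit 19440516) [(nat_lit 249812), (nat_lit 0), (nat_lit 2751204), (nat_lit 6565156)]) (PF.cons (PF.leaf (nat_lit 6072640) (nat_lit 256952) (nat_lit 37902689) (nat_lit 19372108) [(nat_lit 256952), (nat_lit 0), (nat_lit 2758942), (nat_lit 6561167)]) (PF.cons (PF.leaf (nat_lit 6250328) (nat_lit 263339) (nat_lit 37695391)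
 (nat_lit 19300562) [(nat_lit 263339), (nat_lit 0), (nat_lit 2766353), (nat_lit 6556488)]) (PF.cons PF.nil PF.nil))))) (PF.cons (PF.cons (PF.leaf (nat_lit 6268476) (nat_lit 1136963) (nat_lit 37444552) (nat_lit 19211795) [(nat_lit 0), (nat_lit 1136963), (nat_lit 2768920), (nat_lit 6546581)]) (PF.cons (PF.leaf (nat_lit 6442154) (nat_lit 266434) (nat_lit 37240593) (nat_lit 19140437) [(nat_lit 266434), (nat_lit 1145294), (nat_lit 2775161), (nat_lit 6540891)]) (PF.cons PF.nil (PF.cons PF.nil PF.nil)))) (PF.cons (PF.cons (PF.leaf (nat_lit 6814606) (nat_lit 1161580) (nat_lit 36578579) (nat_lit 18904322) [(nat_lit 0), (nat_lit 1161580), (nat_lit 2786977), (nat_lit 6515773)]) (PF.cons PF.nil PF.nil)) PF.nil))) (PF.cons (PF.cons (PF.cons (PF.leaf (nat_lit 6724249) (nat_lit 2774497) (nat_lit 36279961) (nat_lit 18789778) [(nat_lit 0), (nat_lit 0), (nat_lit 2774497), (nat_lit 6490078)]) (PF.cons (PF.leaf (nat_lit 6898634) (nat_lit 271508) (nat_lit 36079850) (nat_lit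 18717490) [(nat_lit 271508), (nat_lit 0), (nat_lit 2778862), (nat_lit 6482238)]) PF.nil)) (PF.cons PF.nil PF.nil)) (PF.cons PF.nil (PF.cons PF.nil PF.nil))))) (PF.cons (PF.cons (PF.cons (PF.cons (PF.leaf (nat_lit 6396786) (nat_lit
 6404739) (nat_lit 35741273) (nat_lit 18558060) [(nat_lit 0), (nat_lit 0), (nat_lit 0), (nat_lit 6404739)]) (PF.cons (PF.leaf (nat_lit 6553800) (nat_lit 251060) (nat_lit 35566416) (nat_lit 18494498) [(nat_lit 251060), (nat_lit 0), (nat_lit 0), (nat_lit 6398418)]) (PF.cons (PF.leaf (nat_lit 6720938) (nat_lit 257848) (nat_lit 35382896) (nat_lit 18427455) [(nat_lit 257848), (nat_lit 0), (nat_lit 0), (nat_lit 6391381)]) (PF.cons PF.nil PF.nil)))) (PF.cons (PF.cons (PF.leaf (nat_lit 6907008) (nat_lit 1131178) (nat_lit 34964416) (nat_lit 18271875) [(nat_lit 0), (nat_lit 1131178), (nat_lit 0), (nat_lit 6370671)]) (PF.cons (PF.leaf (nat_lit 7076905) (nat_lit 266260) (nat_lit 34777422) (nat_lit 18202440) [(nat_lit 266260), (nat_lit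 1138222), (nat_lit 0), (nat_lit 6362233)]) PF.nil)) (PF.cons PF.nil PF.nil))) (PF.cons (PF.cons (PF.cons (PF.leaf (nat_lit 7337467) (nat_lit 2726893) (nat_lit 33908958) (nat_lit 17867676) [(nat_lit 0), (nat_lit 0), (nat_lit 2726893), (nat_lit 6302641)]) (PF.cons PF.nil PF.nil)) (PF.cons PF.nil PF.nil)) (PF.cons PF.nil PF.nil))) (PF.cons (PF.cons (PF.cons (PF.cons (PF.leaf (nat_lit 7904409) (nat_lit 6107454) (nat_lit 31783249) (nat_lit 17003201) [(nat_lit 0),
 (nat_lit 0), (nat_lit 0), (nat_lit 6107454)]) (PF.cons PF.nil PF.nil)) (PF.cons PF.nil PF.nil)) (PF.cons PF.nil PF.nil)) (PF.cons PF.nil (PF.cons PF.nil PF.nil))))))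

def p15_9_3_0 : pfC (piC [(nat_lit 44228488), (nat_lit 27488723), (nat_lit 20325581), (nat_lit 13664919)] (nat_lit 4652153)) p15_9_3 (nat_lit 4) (nat_lit 0) (nat_lit 1) = true := by decide +kernel
def p15_9_3_1 : pfC (piC [(nat_lit 44228488), (nat_lit 27488723), (nat_lit 20325581), (nat_lit 13664919)] (nat_lit 4652153)) p15_9_3 (nat_lit 4) (nat_lit 1) (nat_lit 2) = true := by decide +kernel
def p15_9_3_2 : pfC (piC [(nat_lit 44228488), (nat_lit 27488723), (nat_lit 20325581), (nat_lit 13664919)] (nat_lit 4652153)) p15_9_3 (nat_lit 4) (nat_lit 2) (nat_lit 3) = true := by decide +kernel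
def p15_9_3_3 : pfC (piC [(nat_lit 44228488), (nat_lit 27488723), (nat_lit 20325581), (nat_lit 13664919)] (nat_lit 4652153)) p15_9_3 (nat_lit 4) (nat_lit 3) (nat_lit 4) = true := by decide +kernel
def p15_9_3_4 : pfC (piC [(nat_lit 44228488), (nat_lit 27488723), (nat_lit 20325581), (nat_lit 13664919)] (nat_lit 4652153)) p15_9_3 (nat_lit 4) (nat_lit 4) (nat_lit 5) = true := by decide +kernel
def p15_9_3_5 : pfC (piC [(nat_lit 44228488), (nat_lit 27488723), (nat_lit 20325581), (nat_lit 13664919)] (nat_lit 4652153)) p15_9_3 (nat_lit 4) (nat_lit 5) (nat_lit 6) = true := by decide +kernel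
def p15_9_3_6 : pfC (piC [(nat_lit 44228488), (nat_lit 27488723), (nat_lit 20325581), (nat_lit 13664919)] (nat_lit 4652153)) p15_9_3 (nat_lit 4) (nat_lit 6) (nat_lit 7) = true := by decide +kernel
def p15_9_3_7 : pfC (piC [(nat_lit 44228488), (nat_lit 27488723), (nat_lit 20325581), (nat_lit 13664919)] (nat_lit 4652153)) p15_9_3 (nat_lit 4) (nat_lit 7) (nat_lit 8) = true := by decide +kernel
def p15_9_3_8 : pfC (piC [(nat_lit 44228488), (nat_lit 27488723), (nat_lit 20325581), (nat_lit 13664919)] (nat_lit 4652153)) p15_9_3 (nat_lit 4) (nat_lit 8) (nat_lit 9) = true := by decide +kernel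
def p15_9_3_9 : pfC (piC [(nat_lit 44228488), (nat_lit 27488723), (nat_lit 20325581), (nat_lit 13664919)] (nat_lit 4652153)) p15_9_3 (nat_lit 4) (nat_lit 9) (nat_lit 10) = true := by decide +kernel
def p15_9_3_10 : pfC (piC [(nat_lit 44228488), (nat_lit 27488723), (nat_lit 20325581), (nat_lit 13664919)] (nat_lit 4652153)) p15_9_3 (nat_lit 4) (nat_lit 10) (nat_lit 11) = true := by decide +kernel
def p15_9_3_11 : pfC (piC [(nat_lit 44228488), (nat_lit 27488723), (nat_lit 20325581), (nat_lit 13664919)] (nat_lit 4652153)) p15_9_3 (nat_lit 4) (nat_lit 11) (nat_lit 12) = true := by decide +kernel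
def p15_9_3_12 : pfC (piC [(nat_lit 44228488), (nat_lit 27488723), (nat_lit 20325581), (nat_lit 13664919)] (nat_lit 4652153)) p15_9_3 (nat_lit 4) (nat_lit 12) (nat_lit 13) = true := by decide +kernel
def p15_9_3_13 : pfC (piC [(nat_lit 44228488), (nat_lit 27488723), (nat_lit 20325581), (nat_lit 13664919)] (nat_lit 4652153)) p15_9_3 (nat_lit 4) (nat_lit 13) (nat_lit 14) = true := by decide +kernel
def p15_9_3_14 : pfC (piC [(nat_lit 44228488), (nat_lit 27488723), (nat_lit 20325581), (nat_lit 13664919)] (nat_lit 4652153)) p15_9_3 (nat_lit 4) (nat_lit 14) (nat_lit 15) = true := by decide +kernel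
def p15_9_3_15 : pfC (piC [(nat_lit 44228488), (nat_lit 27488723), (nat_lit 20325581), (nat_lit 13664919)] (nat_lit 4652153)) p15_9_3 (nat_lit 4) (nat_lit 15) (nat_lit 16) = true := by decide +kernel
def p15_9_3_16 : pfC (piC [(nat_lit 44228488), (nat_lit 27488723), (nat_lit 20325581), (nat_lit 13664919)] (nat_lit 4652153)) p15_9_3 (nat_lit 4) (nat_lit 16) (nat_lit 17) = true := by decide +kernel
def p15_9_3_17 : pfC (piC [(nat_lit 44228488), (nat_lit 27488723), (nat_lit 20325581), (nat_lit 13664919)] (nat_lit 4652153)) p15_9_3 (nat_lit 4) (nat_lit 17) (nat_lit 18) = true := by decide +kernel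
def p15_9_3_18 : pfC (piC [(nat_lit 44228488), (nat_lit 27488723), (nat_lit 20325581), (nat_lit 13664919)] (nat_lit 4652153)) p15_9_3 (nat_lit 4) (nat_lit 18) (nat_lit 19) = true := by decide +kernel
def p15_9_3_19 : pfC (piC [(nat_lit 44228488), (nat_lit 27488723), (nat_lit 20325581), (nat_lit 13664919)] (nat_lit 4652153)) p15_9_3 (nat_lit 4) (nat_lit 19) (nat_lit 20) = true := by decide +kernel
def p15_9_3_20 : pfC (piC [(nat_lit 44228488), (nat_lit 27488723), (nat_lit 20325581), (nat_lit 13664919)] (nat_lit 4652153)) p15_9_3 (nat_lit 4) (nat_lit 20) (nat_lit 21) = true := by decide +kernel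
def p15_9_3_21 : pfC (piC [(nat_lit 44228488), (nat_lit 27488723), (nat_lit 20325581), (nat_lit 13664919)] (nat_lit 4652153)) p15_9_3 (nat_lit 4) (nat_lit 21) (nat_lit 22) = true := by decide +kernel
def p15_9_3_22 : pfC (piC [(nat_lit 44228488), (nat_lit 27488723), (nat_lit 20325581), (nat_lit 13664919)] (nat_lit 4652153)) p15_9_3 (nat_lit 4) (nat_lit 22) (nat_lit 23) = true := by decide +kernel
def p15_9_3_23 : pfC (piC [(nat_lit 44228488), (nat_lit 27488723), (nat_lit 20325581), (nat_lit 13664919)] (nat_lit 4652153)) p15_9_3 (nat_lit 4) (nat_lit 23) (nat_lit 24) = true := by decide +kernel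
def p15_9_3_24 : pfC (piC [(nat_lit 44228488), (nat_lit 27488723), (nat_lit 20325581), (nat_lit 13664919)] (nat_lit 4652153)) p15_9_3 (nat_lit 4) (nat_lit 24) (nat_lit 25) = true := by decide +kernel
def p15_9_3_25 : pfC (piC [(nat_lit 44228488), (nat_lit 27488723), (nat_lit 20325581), (nat_lit 13664919)] (nat_lit 4652153)) p15_9_3 (nat_lit 4) (nat_lit 25) (nat_lit 26) = true := by decide +kernel
def p15_9_3_26 : pfC (piC [(nat_lit 44228488), (nat_lit 27488723), (nat_lit 20325581), (nat_lit 13664919)] (nat_lit 4652153)) p15_9_3 (nat_lit 4) (nat_lit 26) (nat_lit 27) = true := by decide +kernel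
def p15_9_3_27 : pfC (piC [(nat_lit 44228488), (nat_lit 27488723), (nat_lit 20325581), (nat_lit 13664919)] (nat_lit 4652153)) p15_9_3 (nat_lit 4) (nat_lit 27) (nat_lit 28) = true := by decide +kernel
def p15_9_3_28 : pfC (piC [(nat_lit 44228488), (nat_lit 27488723), (nat_lit 20325581), (nat_lit 13664919)] (nat_lit 4652153)) p15_9_3 (nat_lit 4) (nat_lit 28) (nat_lit 29) = true := by decide +kernel
def p15_9_3_29 : pfC (piC [(nat_lit 44228488), (nat_lit 27488723), (nat_lit 20325581), (nat_lit 13664919)] (nat_lit 4652153)) p15_9_3 (nat_lit 4) (nat_lit 29) (nat_lit 30) = true := by decide +kernel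
def p15_9_3_30 : pfC (piC [(nat_lit 44228488), (nat_lit 27488723), (nat_lit 20325581), (nat_lit 13664919)] (nat_lit 4652153)) p15_9_3 (nat_lit 4) (nat_lit 30) (nat_lit 31) = true := by decide +kernel
def p15_9_3_31 : pfC (piC [(nat_lit 44228488), (nat_lit 27488723), (nat_lit 20325581), (nat_lit 13664919)] (nat_lit 4652153)) p15_9_3 (nat_lit 4) (nat_lit 31) (nat_lit 32) = true := by decide +kernel
def p15_9_3_32 : pfC (piC [(nat_lit 44228488), (nat_lit 27488723), (nat_lit 20325581), (nat_lit 13664919)] (nat_lit 4652153)) p15_9_3 (nat_lit 4) (nat_lit 32) (nat_lit 33) = true := by decide +kernel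
def p15_9_3_33 : pfC (piC [(nat_lit 44228488), (nat_lit 27488723), (nat_lit 20325581), (nat_lit 13664919)] (nat_lit 4652153)) p15_9_3 (nat_lit 4) (nat_lit 33) (nat_lit 34) = true := by decide +kernel
def p15_9_3_34 : pfC (piC [(nat_lit 44228488), (nat_lit 27488723), (nat_lit 20325581), (nat_lit 13664919)] (nat_lit 4652153)) p15_9_3 (nat_lit 4) (nat_lit 34) (nat_lit 35) = true := by decide +kernel
def p15_9_3_35 : pfC (piC [(nat_lit 44228488), (nat_lit 27488723), (nat_lit 20325581), (nat_lit 13664919)] (nat_lit 4652153)) p15_9_3 (nat_lit 4) (nat_lit 35) (nat_lit 36) = true := by decide +kernel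
def p15_9_3_36 : pfC (piC [(nat_lit 44228488), (nat_lit 27488723), (nat_lit 20325581), (nat_lit 13664919)] (nat_lit 4652153)) p15_9_3 (nat_lit 4) (nat_lit 36) (nat_lit 37) = true := by decide +kernel
def p15_9_3_37 : pfC (piC [(nat_lit 44228488), (nat_lit 27488723), (nat_lit 20325581), (nat_lit 13664919)] (nat_lit 4652153)) p15_9_3 (nat_lit 4) (nat_lit 37) (nat_lit 38) = true := by decide +kernel
def p15_9_3_38 : pfC (piC [(nat_lit 44228488), (nat_lit 27488723), (nat_lit 20325581), (nat_lit 13664919)] (nat_lit 4652153)) p15_9_3 (nat_lit 4) (nat_lit 38) (nat_lit 39) = true := by decide +kernel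
def p15_9_3_39 : pfC (piC [(nat_lit 44228488), (nat_lit 27488723), (nat_lit 20325581), (nat_lit 13664919)] (nat_lit 4652153)) p15_9_3 (nat_lit 4) (nat_lit 39) (nat_lit 40) = true := by decide +kernel
def p15_9_3_40 : pfC (piC [(nat_lit 44228488), (nat_lit 27488723), (nat_lit 20325581), (nat_lit 13664919)] (nat_lit 4652153)) p15_9_3 (nat_lit 4) (nat_lit 40) (nat_lit 41) = true := by decide +kernel
def p15_9_3_41 : pfC (piC [(nat_lit 44228488), (nat_lit 27488723), (nat_lit 20325581), (nat_lit 13664919)] (nat_lit 4652153)) p15_9_3 (nat_lit 4) (nat_lit 41) (nat_lit 42) = true := by decide +kernel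
def p15_9_3_42 : pfC (piC [(nat_lit 44228488), (nat_lit 27488723), (nat_lit 20325581), (nat_lit 13664919)] (nat_lit 4652153)) p15_9_3 (nat_lit 4) (nat_lit 42) (nat_lit 43) = true := by decide +kernel
def p15_9_3_43 : pfC (piC [(nat_lit 44228488), (nat_lit 27488723), (nat_lit 20325581), (nat_lit 13664919)] (nat_lit 4652153)) p15_9_3 (nat_lit 4) (nat_lit 43) (nat_lit 44) = true := by decide +kernel
def p15_9_3_44 : pfC (piC [(nat_lit 44228488), (nat_lit 27488723), (nat_lit 20325581), (nat_lit 13664919)] (nat_lit 4652153)) p15_9_3 (nat_lit 4) (nat_lit 44) (nat_lit 45) = true := by decide +kernel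
def p15_9_3_45 : pfC (piC [(nat_lit 44228488), (nat_lit 27488723), (nat_lit 20325581), (nat_lit 13664919)] (nat_lit 4652153)) p15_9_3 (nat_lit 4) (nat_lit 45) (nat_lit 46) = true := by decide +kernel
def p15_9_3_46 : pfC (piC [(nat_lit 44228488), (nat_lit 27488723), (nat_lit 20325581), (nat_lit 13664919)] (nat_lit 4652153)) p15_9_3 (nat_lit 4) (nat_lit 46) (nat_lit 47) = true := by decide +kernel
def p15_9_3_47 : pfC (piC [(nat_lit 44228488), (nat_lit 27488723), (nat_lit 20325581), (nat_lit 13664919)] (nat_lit 4652153)) p15_9_3 (nat_lit 4) (nat_lit 47) (nat_lit 48) = true := by decide +kernel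
def p15_9_3_48 : pfC (piC [(nat_lit 44228488), (nat_lit 27488723), (nat_lit 20325581), (nat_lit 13664919)] (nat_lit 4652153)) p15_9_3 (nat_lit 4) (nat_lit 48) (nat_lit 49) = true := by decide +kernel
def p15_9_3_49 : pfC (piC [(nat_lit 44228488), (nat_lit 27488723), (nat_lit 20325581), (nat_lit 13664919)] (nat_lit 4652153)) p15_9_3 (nat_lit 4) (nat_lit 49) (nat_lit 50) = true := by decide +kernel
def p15_9_3_50 : pfC (piC [(nat_lit 44228488), (nat_lit 27488723), (nat_lit 20325581), (nat_lit 13664919)] (nat_lit 4652153)) p15_9_3 (nat_lit 4) (nat_lit 50) (nat_lit 51) = true := by decide +kernel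
def p15_9_3_51 : pfC (piC [(nat_lit 44228488), (nat_lit 27488723), (nat_lit 20325581), (nat_lit 13664919)] (nat_lit 4652153)) p15_9_3 (nat_lit 4) (nat_lit 51) (nat_lit 52) = true := by decide +kernel
def p15_9_3_52 : pfC (piC [(nat_lit 44228488), (nat_lit 27488723), (nat_lit 20325581), (nat_lit 13664919)] (nat_lit 4652153)) p15_9_3 (nat_lit 4) (nat_lit 52) (nat_lit 53) = true := by decide +kernel
def p15_9_3_53 : pfC (piC [(nat_lit 44228488), (nat_lit 27488723), (nat_lit 20325581), (nat_lit 13664919)] (nat_lit 4652153)) p15_9_3 (nat_lit 4) (nat_lit 53) (nat_lit 54) = true := by decide +kernel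
def p15_9_3_54 : pfC (piC [(nat_lit 44228488), (nat_lit 27488723), (nat_lit 20325581), (nat_lit 13664919)] (nat_lit 4652153)) p15_9_3 (nat_lit 4) (nat_lit 54) (nat_lit 55) = true := by decide +kernel
def p15_9_3_55 : pfC (piC [(nat_lit 44228488), (nat_lit 27488723), (nat_lit 20325581), (nat_lit 13664919)] (nat_lit 4652153)) p15_9_3 (nat_lit 4) (nat_lit 55) (nat_lit 56) = true := by decide +kernel
def p15_9_3_56 : pfC (piC [(nat_lit 44228488), (nat_lit 27488723), (nat_lit 20325581), (nat_lit 13664919)] (nat_lit 4652153)) p15_9_3 (nat_lit 4) (nat_lit 56) (nat_lit 57) = true := by decide +kernel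
def p15_9_3_57 : pfC (piC [(nat_lit 44228488), (nat_lit 27488723), (nat_lit 20325581), (nat_lit 13664919)] (nat_lit 4652153)) p15_9_3 (nat_lit 4) (nat_lit 57) (nat_lit 58) = true := by decide +kernel
def p15_9_3_58 : pfC (piC [(nat_lit 44228488), (nat_lit 27488723), (nat_lit 20325581), (nat_lit 13664919)] (nat_lit 4652153)) p15_9_3 (nat_lit 4) (nat_lit 58) (nat_lit 59) = true := by decide +kernel
def p15_9_3_59 : pfC (piC [(nat_lit 44228488), (nat_lit 27488723), (nat_lit 20325581), (nat_lit 13664919)] (nat_lit 4652153)) p15_9_3 (nat_lit 4) (nat_lit 59) (nat_lit 60) = true := by decide +kernel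
def p15_9_3_60 : pfC (piC [(nat_lit 44228488), (nat_lit 27488723), (nat_lit 20325581), (nat_lit 13664919)] (nat_lit 4652153)) p15_9_3 (nat_lit 4) (nat_lit 60) (nat_lit 61) = true := by decide +kernel
def p15_9_3_61 : pfC (piC [(nat_lit 44228488), (nat_lit 27488723), (nat_lit 20325581), (nat_lit 13664919)] (nat_lit 4652153)) p15_9_3 (nat_lit 4) (nat_lit 61) (nat_lit 62) = true := by decide +kernel
def p15_9_3_62 : pfC (piC [(nat_lit 44228488), (nat_lit 27488723), (nat_lit 20325581), (nat_lit 13664919)] (nat_lit 4652153)) p15_9_3 (nat_lit 4) (nat_lit 62) (nat_lit 63) = true := by decide +kernel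
def p15_9_3_63 : pfC (piC [(nat_lit 44228488), (nat_lit 27488723), (nat_lit 20325581), (nat_lit 13664919)] (nat_lit 4652153)) p15_9_3 (nat_lit 4) (nat_lit 63) (nat_lit 64) = true := by decide +kernel
def p15_9_3_64 : pfC (piC [(nat_lit 44228488), (nat_lit 27488723), (nat_lit 20325581), (nat_lit 13664919)] (nat_lit 4652153)) p15_9_3 (nat_lit 4) (nat_lit 64) (nat_lit 65) = true := by decide +kernel
def p15_9_3_65 : pfC (piC [(nat_lit 44228488), (nat_lit 27488723), (nat_lit 20325581), (nat_lit 13664919)] (nat_lit 4652153)) p15_9_3 (nat_lit 4) (nat_lit 65) (nat_lit 66) = true := by decide +kernel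
def p15_9_3_66 : pfC (piC [(nat_lit 44228488), (nat_lit 27488723), (nat_lit 20325581), (nat_lit 13664919)] (nat_lit 4652153)) p15_9_3 (nat_lit 4) (nat_lit 66) (nat_lit 67) = true := by decide +kernel
def p15_9_3_67 : pfC (piC [(nat_lit 44228488), (nat_lit 27488723), (nat_lit 20325581), (nat_lit 13664919)] (nat_lit 4652153)) p15_9_3 (nat_lit 4) (nat_lit 67) (nat_lit 68) = true := by decide +kernel
def p15_9_3_68 : pfC (piC [(nat_lit 44228488), (nat_lit 27488723), (nat_lit 20325581), (nat_lit 13664919)] (nat_lit 4652153)) p15_9_3 (nat_lit 4) (nat_lit 68) (nat_lit 69) = true := by decide +kernel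
def p15_9_3_69 : pfC (piC [(nat_lit 44228488), (nat_lit 27488723), (nat_lit 20325581), (nat_lit 13664919)] (nat_lit 4652153)) p15_9_3 (nat_lit 4) (nat_lit 69) (nat_lit 70) = true := by decide +kernel
def p15_9_3_70 : pfC (piC [(nat_lit 44228488), (nat_lit 27488723), (nat_lit 20325581), (nat_lit 13664919)] (nat_lit 4652153)) p15_9_3 (nat_lit 4) (nat_lit 70) (nat_lit 71) = true := by decide +kernel
def p15_9_3_71 : pfC (piC [(nat_lit 44228488), (nat_lit 27488723), (nat_lit 20325581), (nat_lit 13664919)] (nat_lit 4652153)) p15_9_3 (nat_lit 4) (nat_lit 71) (nat_lit 72) = true := by decide +kernel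
def p15_9_3_72 : pfC (piC [(nat_lit 44228488), (nat_lit 27488723), (nat_lit 20325581), (nat_lit 13664919)] (nat_lit 4652153)) p15_9_3 (nat_lit 4) (nat_lit 72) (nat_lit 73) = true := by decide +kernel
def p15_9_3_73 : pfC (piC [(nat_lit 44228488), (nat_lit 27488723), (nat_lit 20325581), (nat_lit 13664919)] (nat_lit 4652153)) p15_9_3 (nat_lit 4) (nat_lit 73) (nat_lit 74) = true := by decide +kernel
def p15_9_3_74 : pfC (piC [(nat_lit 44228488), (nat_lit 27488723), (nat_lit 20325581), (nat_lit 13664919)] (nat_lit 4652153)) p15_9_3 (nat_lit 4) (nat_lit 74) (nat_lit 75) = true := by decide +kernel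
def p15_9_3_75 : pfC (piC [(nat_lit 44228488), (nat_lit 27488723), (nat_lit 20325581), (nat_lit 13664919)] (nat_lit 4652153)) p15_9_3 (nat_lit 4) (nat_lit 75) (nat_lit 76) = true := by decide +kernel
theorem p15_9_3_T : PfS (PiF n15_9.reverse (nat_lit 4652153)) p15_9_3 (nat_lit 4) [] 0 :=
  pftab_of (los := [(nat_lit 44228488), (nat_lit 27488723), (nat_lit 20325581), (nat_lit 13664919)]) (by decide +kernel) (hi := (nat_lit 76)) (PfP.trans (PfP.trans (PfP.trans (PfP.trans (PfP.trans (PfP.trans (PfP.trans (PfP.trans (PfP.trans (PfP.trans (PfP.trans (PfP.trans (PfP.trans (PfP.trans (PfP.trans (PfP.trans (PfP.trans (PfP.trans (PfP.trans (PfP.trans (PfP.trans (PfP.trans (PfP.trans (PfP.trans (PfP.trans (PfP.trans (PfP.trans (PfP.trans (PfP.trans (PfP.trans (PfP.trans (PfP.trans (PfP.trans (PfP.trans (PfP.trans (PfP.trans (PfP.trans (PfP.trans (PfP.trans (PfP.trans (PfP.trans (PfP.trans (PfP.trans (PfP.trans (PfP.trans (PfP.trans (PfP.trans (PfP.trans (PfP.trans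 (PfP.trans (PfP.trans (PfP.trans (PfP.trans (PfP.trans (PfP.trans (PfP.trans (PfP.trans (PfP.trans (PfP.trans (PfP.trans (PfP.trans (PfP.trans (PfP.trans (PfP.trans (PfP.trans (PfP.trans (PfP.trans (PfP.trans (PfP.trans (PfP.trans (PfP.trans (PfP.trans (PfP.trans (PfP.trans (PfP.trans (pfC_sound p15_9_3_0) (pfC_sound p15_9_3_1)) (pfC_sound p15_9_3_2)) (pfC_sound p15_9_3_3)) (pfC_sound p15_9_3_4)) (pfC_sound p15_9_3_5)) (pfC_sound p15_9_3_6)) (pfC_sound p15_9_3_7)) (pfC_sound p15_9_3_8)) (pfC_sound p15_9_3_9)) (pfC_sound p15_9_3_10)) (pfC_sound p15_9_3_11)) (pfC_sound p15_9_3_12)) (pfC_sound p15_9_3_13)) (pfC_sound p15_9_3_14)) (pfC_sound p15_9_3_15))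
 (pfC_sound p15_9_3_16)) (pfC_sound p15_9_3_17)) (pfC_sound p15_9_3_18)) (pfC_sound p15_9_3_19)) (pfC_sound p15_9_3_20)) (pfC_sound p15_9_3_21)) (pfC_sound p15_9_3_22)) (pfC_sound p15_9_3_23)) (pfC_sound p15_9_3_24)) (pfC_sound p15_9_3_25)) (pfC_sound p15_9_3_26)) (pfC_sound p15_9_3_27)) (pfC_sound p15_9_3_28)) (pfC_sound p15_9_3_29)) (pfC_sound p15_9_3_30)) (pfC_sound p15_9_3_31)) (pfC_sound p15_9_3_32)) (pfC_sound p15_9_3_33)) (pfC_sound p15_9_3_34)) (pfC_sound p15_9_3_35)) (pfC_sound p15_9_3_36)) (pfC_sound p15_9_3_37)) (pfC_sound p15_9_3_38)) (pfC_sound p15_9_3_39)) (pfC_sound p15_9_3_40)) (pfC_sound p15_9_3_41)) (pfC_sound p15_9_3_42)) (pfC_sound p15_9_3_43)) (pfC_sound p15_9_3_44)) (pfC_sound p15_9_3_45)) (pfC_sound p15_9_3_46)) (pfC_sound p15_9_3_47)) (pfC_sound p15_9_3_48)) (pfC_sound p15_9_3_49)) (pfC_sound p15_9_3_50)) (pfC_sound p15_9_3_51)) (pfC_sound p15_9_3_52)) (pfC_sound p15_9_3_53)) (pfC_sound p15_9_3_54)) (pfC_sound p15_9_3_55)) (pfC_sound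 p15_9_3_56)) (pfC_sound p15_9_3_57)) (pfC_sound p15_9_3_58)) (pfC_sound p15_9_3_59)) (pfC_sound p15_9_3_60)) (pfC_sound p15_9_3_61)) (pfC_sound p15_9_3_62)) (pfC_sound p15_9_3_63)) (pfC_sound p15_9_3_64)) (pfC_sound p15_9_3_65))
 (pfC_sound p15_9_3_66)) (pfC_sound p15_9_3_67)) (pfC_sound p15_9_3_68)) (pfC_sound p15_9_3_69)) (pfC_sound p15_9_3_70)) (pfC_sound p15_9_3_71)) (pfC_sound p15_9_3_72)) (pfC_sound p15_9_3_73)) (pfC_sound p15_9_3_74)) (pfC_sound p15_9_3_75)) (by decide +kernel)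

def z15_9_3 : zOK yB15_9 (nat_lit 3) (nat_lit 750) (nat_lit 922) (nat_lit 4652153) (nat_lit 2704974) = true := by decide +kernel
def g15_9_3 : gOK yB15_9.x P15_9 (nat_lit 1429) (q15_9 :: r15_9) (nat_lit 3) (nat_lit 750) (nat_lit 4) (nat_lit 922) (nat_lit 12712500) (nat_lit 12712500) (nat_lit 12712500) (nat_lit 12712500) [(nat_lit 800)] = true := by decide +kernel
def v15_9_3 : ivC P15_9 s15_9 w15_9 n15_9 (nat_lit 4) (nat_lit 4760) (nat_lit 3) (nat_lit 750) f136_1_750 f144_1_750 (nat_lit 4) (nat_lit 922) f136_1_922 f144_1_922 (nat_lit 4652153) (nat_lit 2704974) p15_9_3 = true := by decide +kernel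
/-! box `yB15_10` -/

def P15_10 : BQ := ⟨(nat_lit 8), (nat_lit 4), (nat_lit 4), (nat_lit 2), (nat_lit 6), (nat_lit 700), (nat_lit 710), (nat_lit 120), [(nat_lit 200), (nat_lit 300), (nat_lit 450), (nat_lit 800)], (nat_lit 75616000), (nat_lit 16000000), (nat_lit 16000000000)⟩
def q15_10 : PC := ⟨(nat_lit 1000), [(nat_lit 120000), (nat_lit 200000), (nat_lit 300000), (nat_lit 450000), (nat_lit 800000)], (nat_lit 340282367000166625996085689103316680705000000), (nat_lit 15924384000000), (nat_lit 15924384000000), (nat_lit 10000000)⟩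
def r15_10 : List PC := [⟨(nat_lit 1322), [(nat_lit 120552), (nat_lit 201297), (nat_lit 301642), (nat_lit 451930), (nat_lit 799060)], (nat_lit 342430909865454482620705426777365561889214108), (nat_lit 16322791297280), (nat_lit 16328834696320), (nat_lit 10064850)⟩]
def s15_10 : List PB := [⟨(nat_lit 26440), (nat_lit 1928832000000), [(nat_lit 201297), (nat_lit 301642), (nat_lit 451930), (nat_lit 799060)], (nat_lit 342430909865454482620705426777365561889214108), (nat_lit 1142222698139904), (nat_lit 1142228741538944), (nat_lit 51520)⟩]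
def n15_10 : List KN := [⟨(nat_lit 800), (nat_lit 450), (nat_lit 13625780), (nat_lit 7614262)⟩, ⟨(nat_lit 450), (nat_lit 300), (nat_lit 20249535), (nat_lit 13625780)⟩, ⟨(nat_lit 300), (nat_lit 200), (nat_lit 27333682), (nat_lit 20249535)⟩, ⟨(nat_lit 200), (nat_lit 120), (nat_lit 43428061), (nat_lit 27333682)⟩]
def w15_10 : List ℕ := [(nat_lit 51520)]
def par15_10 : parC yB15_10 P15_10 s15_10 r15_10 q15_10 n15_10 w15_10 = true := by decide +kernel

def p15_10_0 : PF := (PF.cons (PF.cons (PF.cons (PF.cons (PF.leaf (nat_lit 589262) (nat_lit 1695193) (nat_lit 65413619) (nat_lit 1695193) [(nat_lit 0), (nat_lit 0), (nat_lit 0), (nat_lit 0)]) (PF.cons (PF.leaf (nat_lit 676645) (nat_lit 132069) (nat_lit 65245145) (nat_lit 1731598) [(nat_lit 132069), (nat_lit 0), (nat_lit 0), (nat_lit 0)]) (PF.cons (PF.leaf (nat_lit 788177) (nat_lit 145962) (nat_lit 65044321) (nat_lit 1772565) [(nat_lit 145962), (nat_lit 0), (nat_lit 0), (nat_lit 0)]) (PF.cons (PF.leaf (nat_lit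 916504) (nat_lit 159050) (nat_lit 64815122) (nat_lit 1816540) [(nat_lit 159050), (nat_lit 0), (nat_lit 0), (nat_lit 0)]) (PF.cons (PF.leaf (nat_lit 1059423) (nat_lit 171540) (nat_lit 64560215) (nat_lit 1862436) [(nat_lit 171540), (nat_lit 0), (nat_lit 0), (nat_lit 0)]) (PF.cons (PF.leaf (nat_lit 1216771) (nat_lit 183548) (nat_lit 64281612) (nat_lit 1909458) [(nat_lit 183548), (nat_lit 0), (nat_lit 0), (nat_lit 0)]) (PF.cons PF.nil (PF.cons PF.nil (PF.cons PF.nil PF.nil))))))))) (PF.cons (PF.cons (PF.leaf (nat_lit 1004269) (nat_lit 815080) (nat_lit 64418745) (nat_lit 1874986) [(nat_lit 0), (nat_lit 815080), (nat_lit 0), (nat_lit 0)]) (PF.cons (PF.leaf (nat_lit 1132879) (nat_lit 173916) (nat_lit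
 64176880) (nat_lit 1915033) [(nat_lit 173916), (nat_lit 842982), (nat_lit 0), (nat_lit 0)]) (PF.cons (PF.leaf (nat_lit 1280661) (nat_lit 186106) (nat_lit 63907652) (nat_lit 1957166) [(nat_lit 186106), (nat_lit 871782), (nat_lit 0), (nat_lit 0)]) (PF.cons (PF.leaf (nat_lit 1443124) (nat_lit 197754) (nat_lit 63614090) (nat_lit 2000506) [(nat_lit 197754), (nat_lit 900953), (nat_lit 0), (nat_lit 0)]) (PF.cons (PF.leaf (nat_lit 1618768) (nat_lit 208953) (nat_lit 63298426) (nat_lit 2044420) [(nat_lit 208953), (nat_lit 930151), (nat_lit 0), (nat_lit 0)]) (PF.cons PF.nil (PF.cons PF.nil PF.nil))))))) (PF.cons (PF.cons (PF.leaf (nat_lit 1513576) (nat_lit 925287) (nat_lit 63212636) (nat_lit 2045601) [(nat_lit 0), (nat_lit 925287), (nat_lit 0), (nat_lit 0)]) (PF.cons (PF.leaf (nat_lit 1676848) (nat_lit 210740) (nat_lit 62908912) (nat_lit 2085215) [(nat_lit 210740), (nat_lit 951972), (nat_lit 0), (nat_lit 0)]) (PF.cons (PF.leaf (nat_lit 1856328) (nat_lit 221642)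 (nat_lit 62582266) (nat_lit 2125541) [(nat_lit 221642), (nat_lit 978859), (nat_lit 0), (nat_lit 0)]) (PF.cons (PF.leaf (nat_lit 2048302) (nat_lit 232106) (nat_lit 62235121) (nat_lit 2166057) [(nat_lit 232106), (nat_lit 1005657),
 (nat_lit 0), (nat_lit 0)]) (PF.cons PF.nil PF.nil))))) (PF.cons (PF.cons (PF.leaf (nat_lit 2101411) (nat_lit 1024219) (nat_lit 61835300) (nat_lit 2200852) [(nat_lit 0), (nat_lit 1024219), (nat_lit 0), (nat_lit 0)]) (PF.cons (PF.leaf (nat_lit 2294066) (nat_lit 243450) (nat_lit 61480704) (nat_lit 2237927) [(nat_lit 243450), (nat_lit 1048909), (nat_lit 0), (nat_lit 0)]) (PF.cons PF.nil (PF.cons PF.nil PF.nil)))) (PF.cons (PF.cons (PF.leaf (nat_lit 2753078) (nat_lit 1111719) (nat_lit 60323770) (nat_lit 2338165) [(nat_lit 0), (nat_lit 1111719), (nat_lit 0), (nat_lit 0)]) (PF.cons PF.nil PF.nil)) (PF.cons PF.nil PF.nil)))))) (PF.cons (PF.cons (PF.cons (PF.leaf (nat_lit 1570486) (nat_lit 2084878) (nat_lit 62475315) (nat_lit 2084878)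 [(nat_lit 0), (nat_lit 0), (nat_lit 2548618), (nat_lit 0)]) (PF.cons (PF.leaf (nat_lit 1715906) (nat_lit 202713) (nat_lit 62202003) (nat_lit 2118939) [(nat_lit 202713), (nat_lit 0), (nat_lit 2585156), (nat_lit 0)]) (PF.cons (PF.leaf (nat_lit 1880039) (nat_lit 214818) (nat_lit 61901121) (nat_lit 2154572) [(nat_lit 214818), (nat_lit 0), (nat_lit 2623482), (nat_lit 0)]) (PF.cons (PF.leaf (nat_lit 2058140) (nat_lit 226157) (nat_lit 61576518) (nat_lit 2191036)
 [(nat_lit 226157), (nat_lit 0), (nat_lit 2662787), (nat_lit 0)]) (PF.cons (PF.leaf (nat_lit 2248998) (nat_lit 236881) (nat_lit 61230989) (nat_lit 2227804) [(nat_lit 236881), (nat_lit 0), (nat_lit 2702491), (nat_lit 0)]) (PF.cons PF.nil (PF.cons PF.nil PF.nil))))))) (PF.cons (PF.cons (PF.leaf (nat_lit 2121927) (nat_lit 1028766) (nat_lit 61151353) (nat_lit 2226359) [(nat_lit 0), (nat_lit 1028766), (nat_lit 2702333), (nat_lit 0)]) (PF.cons (PF.leaf (nat_lit 2299414) (nat_lit 237097) (nat_lit 60821874)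 (nat_lit 2259555) [(nat_lit 237097), (nat_lit 1052168), (nat_lit 2738116), (nat_lit 0)]) (PF.cons (PF.leaf (nat_lit 2492121) (nat_lit 247558) (nat_lit 60470498) (nat_lit 2293186) [(nat_lit 247558), (nat_lit 1075599), (nat_lit 2774411), (nat_lit 0)]) (PF.cons (PF.leaf (nat_lit 2696645) (nat_lit 257455) (nat_lit 60100069) (nat_lit 2326819) [(nat_lit 257455), (nat_lit 1098818), (nat_lit 2810739), (nat_lit 0)]) (PF.cons PF.nil PF.nil))))) (PF.cons (PF.cons (PF.leaf (nat_lit 2740773) (nat_lit 1113117) (nat_lit 59688070) (nat_lit 2353666) [(nat_lit 0), (nat_lit 1113117), (nat_lit 2840840), (nat_lit 0)]) (PF.cons (PF.leaf (nat_lit 2944534) (nat_lit 266908) (nat_lit 59314834) (nat_lit 2384298)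
 [(nat_lit 266908), (nat_lit 1134454), (nat_lit 2873863), (nat_lit 0)]) (PF.cons PF.nil (PF.cons PF.nil PF.nil)))) (PF.cons (PF.cons (PF.leaf (nat_lit 3412491) (nat_lit 1186831) (nat_lit 58122045) (nat_lit 2464796) [(nat_lit 0), (nat_lit 1186831), (nat_lit 2961477), (nat_lit 0)]) (PF.cons PF.nil PF.nil)) (PF.cons PF.nil PF.nil))))) (PF.cons (PF.cons (PF.cons (PF.leaf (nat_lit 2740158) (nat_lit 2368843) (nat_lit 59018616) (nat_lit 2368843) [(nat_lit 0), (nat_lit 0), (nat_lit 2860676), (nat_lit 0)]) (PF.cons (PF.leaf (nat_lit 2928356) (nat_lit 259244) (nat_lit 58672815) (nat_lit 2396484) [(nat_lit 259244), (nat_lit 0), (nat_lit 2890134), (nat_lit 0)]) (PF.cons (PF.leaf (nat_lit 3130825) (nat_lit 269223) (nat_lit 58306354) (nat_lit 2424331) [(nat_lit 269223), (nat_lit 0), (nat_lit 2919839), (nat_lit 0)]) (PF.cons PF.nil (PF.cons PF.nil PF.nil))))) (PF.cons (PF.cons (PF.leaf (nat_lit 3379419) (nat_lit 1184533) (nat_lit 57507775) (nat_lit 2472390) [(nat_lit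 0), (nat_lit 1184533), (nat_lit 2972056), (nat_lit 0)]) (PF.cons (PF.leaf (nat_lit 3591061) (nat_lit 286329) (nat_lit 57124701) (nat_lit 2497456) [(nat_lit 286329), (nat_lit 1202883), (nat_lit 2998720), (nat_lit 0)]) (PF.cons PF.nil
 (PF.cons PF.nil PF.nil)))) (PF.cons (PF.cons (PF.leaf (nat_lit 4062214) (nat_lit 1246238) (nat_lit 55920725) (nat_lit 2561237) [(nat_lit 0), (nat_lit 1246238), (nat_lit 3067185), (nat_lit 0)]) (PF.cons PF.nil PF.nil)) PF.nil))) (PF.cons (PF.cons (PF.cons (PF.leaf (nat_lit 4010263) (nat_lit 2562819) (nat_lit 55334267) (nat_lit 2562819) [(nat_lit 0), (nat_lit 0), (nat_lit 3070575), (nat_lit 0)]) (PF.cons (PF.leaf (nat_lit 4227200) (nat_lit 302249) (nat_lit 54948307) (nat_lit 2583052) [(nat_lit 302249), (nat_lit 0), (nat_lit 3091734), (nat_lit 0)]) PF.nil)) (PF.cons PF.nil PF.nil)) (PF.cons PF.nil (PF.cons PF.nil PF.nil)))))) (PF.cons (PF.cons (PF.cons (PF.cons (PF.leaf (nat_lit 2590288) (nat_lit 2306771) (nat_lit 57390346)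 (nat_lit 2306771) [(nat_lit 0), (nat_lit 0), (nat_lit 0), (nat_lit 7411695)]) (PF.cons (PF.leaf (nat_lit 2746086) (nat_lit 229994) (nat_lit 57110988) (nat_lit 2332502) [(nat_lit 229994), (nat_lit 0), (nat_lit 0), (nat_lit 7435328)]) (PF.cons (PF.leaf (nat_lit 2919394) (nat_lit 242080) (nat_lit 56805731) (nat_lit 2359122) [(nat_lit 242080), (nat_lit 0), (nat_lit 0), (nat_lit 7459798)]) (PF.cons (PF.leaf (nat_lit 3106107) (nat_lit 253123) (nat_lit 56478889) (nat_lit
 2386064) [(nat_lit 253123), (nat_lit 0), (nat_lit 0), (nat_lit 7484487)]) (PF.cons (PF.leaf (nat_lit 3304705) (nat_lit 263336) (nat_lit 56133595) (nat_lit 2412937) [(nat_lit 263336), (nat_lit 0), (nat_lit 0), (nat_lit 7508931)]) (PF.cons (PF.leaf (nat_lit 3513744) (nat_lit 272858) (nat_lit 55772286) (nat_lit 2439462) [(nat_lit 272858), (nat_lit 0), (nat_lit 0), (nat_lit 7532769)]) (PF.cons (PF.leaf (nat_lit 3732276) (nat_lit 281786) (nat_lit 55396948) (nat_lit 2465433) [(nat_lit 281786), (nat_lit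 0), (nat_lit 0), (nat_lit 7555711)]) (PF.cons PF.nil (PF.cons PF.nil PF.nil))))))))) (PF.cons (PF.cons (PF.leaf (nat_lit 3156622) (nat_lit 1130048) (nat_lit 56061576) (nat_lit 2408869) [(nat_lit 0), (nat_lit 1130048), (nat_lit 0), (nat_lit 7508318)]) (PF.cons (PF.leaf (nat_lit 3340874) (nat_lit 261732) (nat_lit 55734990) (nat_lit 2433030) [(nat_lit 261732), (nat_lit 1149420), (nat_lit 0), (nat_lit 7529639)]) (PF.cons (PF.leaf (nat_lit 3539078) (nat_lit 271651) (nat_lit 55389000) (nat_lit 2457261) [(nat_lit 271651), (nat_lit 1168543), (nat_lit 0), (nat_lit 7550706)]) (PF.cons (PF.leaf (nat_lit 3748039) (nat_lit 280846) (nat_lit 55026640) (nat_lit 2481247) [(nat_lit 280846), (nat_lit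
 1187241), (nat_lit 0), (nat_lit 7571144)]) (PF.cons (PF.leaf (nat_lit 3966612) (nat_lit 289431) (nat_lit 54650245) (nat_lit 2504767) [(nat_lit 289431), (nat_lit 1205405), (nat_lit 0), (nat_lit 7590668)]) (PF.cons PF.nil (PF.cons PF.nil PF.nil))))))) (PF.cons (PF.cons (PF.leaf (nat_lit 3776908) (nat_lit 1196144) (nat_lit 54632694) (nat_lit 2497622) [(nat_lit 0), (nat_lit 1196144), (nat_lit 0), (nat_lit 7586206)]) (PF.cons (PF.leaf (nat_lit 3983497) (nat_lit 287966) (nat_lit 54272097) (nat_lit 2519173) [(nat_lit 287966), (nat_lit 1213143), (nat_lit 0), (nat_lit 7603288)]) (PF.cons (PF.leaf (nat_lit 4201182) (nat_lit 296287) (nat_lit 53896962) (nat_lit 2540358) [(nat_lit 296287), (nat_lit 1229721), (nat_lit 0), (nat_lit 7619473)]) (PF.cons (PF.leaf (nat_lit 4427642) (nat_lit 304055) (nat_lit 53509536) (nat_lit 2560998) [(nat_lit 304055), (nat_lit 1245786), (nat_lit 0), (nat_lit 7634539)]) (PF.cons PF.nil PF.nil))))) (PF.cons (PF.cons (PF.leaf (nat_lit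 4437243) (nat_lit 1251922) (nat_lit 53138248) (nat_lit 2572460) [(nat_lit 0), (nat_lit 1251922), (nat_lit 0), (nat_lit 7642336)]) (PF.cons (PF.leaf (nat_lit 4661125) (nat_lit 309923) (nat_lit 52753992) (nat_lit 2590955) [(nat_lit
 309923), (nat_lit 1266577), (nat_lit 0), (nat_lit 7654210)]) (PF.cons PF.nil (PF.cons PF.nil PF.nil)))) (PF.cons (PF.cons (PF.leaf (nat_lit 5126206) (nat_lit 1298377) (nat_lit 51605667) (nat_lit 2633689) [(nat_lit 0), (nat_lit 1298377), (nat_lit 0), (nat_lit 7675943)]) (PF.cons PF.nil PF.nil)) (PF.cons PF.nil PF.nil)))))) (PF.cons (PF.cons (PF.cons (PF.leaf (nat_lit 3746561) (nat_lit 2498742) (nat_lit 54018181) (nat_lit 2498742) [(nat_lit 0), (nat_lit 0), (nat_lit 3004218), (nat_lit 7587670)]) (PF.cons (PF.leaf (nat_lit 3937554) (nat_lit 278198) (nat_lit 53686059) (nat_lit 2518495) [(nat_lit 278198), (nat_lit 0), (nat_lit 3024391), (nat_lit 7601667)]) (PF.cons (PF.leaf (nat_lit 4141775) (nat_lit 287575) (nat_lit 53335865) (nat_lit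 2538184) [(nat_lit 287575), (nat_lit 0), (nat_lit 3044515), (nat_lit 7615096)]) (PF.cons (PF.leaf (nat_lit 4356084) (nat_lit 296170) (nat_lit 52970748) (nat_lit 2557555) [(nat_lit 296170), (nat_lit 0), (nat_lit 3064315), (nat_lit 7627683)]) (PF.cons (PF.leaf (nat_lit 4579270) (nat_lit 304116) (nat_lit 52593095) (nat_lit 2576428) [(nat_lit 304116), (nat_lit 0), (nat_lit 3083597), (nat_lit 7639223)]) (PF.cons PF.nil (PF.cons PF.nil PF.nil))))))) (PF.cons
 (PF.cons (PF.leaf (nat_lit 4376204) (nat_lit 1243996) (nat_lit 52584109) (nat_lit 2569294) [(nat_lit 0), (nat_lit 1243996), (nat_lit 3076942), (nat_lit 7634469)]) (PF.cons (PF.leaf (nat_lit 4587212) (nat_lit 301897) (nat_lit 52223223) (nat_lit 2586567) [(nat_lit 301897), (nat_lit 1258488), (nat_lit 3094497), (nat_lit 7644138)]) (PF.cons (PF.leaf (nat_lit 4808597) (nat_lit 309630) (nat_lit 51849179) (nat_lit 2603431) [(nat_lit 309630), (nat_lit 1272540), (nat_lit 3111615), (nat_lit 7652785)]) (PF.cons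 (PF.leaf (nat_lit 5038063) (nat_lit 316782) (nat_lit 51464243) (nat_lit 2619745) [(nat_lit 316782), (nat_lit 1286079), (nat_lit 3128141), (nat_lit 7660257)]) (PF.cons PF.nil PF.nil))))) (PF.cons (PF.cons (PF.leaf (nat_lit 5038880) (nat_lit 1290124) (nat_lit 51103558) (nat_lit 2627469) [(nat_lit 0), (nat_lit 1290124), (nat_lit 3136333), (nat_lit 7661201)]) (PF.cons (PF.leaf (nat_lit 5265084) (nat_lit 321431) (nat_lit 50723728) (nat_lit 2641946) [(nat_lit 321431), (nat_lit 1302437), (nat_lit 3150867), (nat_lit 7665964)]) (PF.cons PF.nil (PF.cons PF.nil PF.nil)))) (PF.cons (PF.cons (PF.leaf (nat_lit 5724096) (nat_lit 1327912) (nat_lit 49600795) (nat_lit 2673682) [(nat_lit 0), (nat_lit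
 1327912), (nat_lit 3182663), (nat_lit 7667933)]) (PF.cons PF.nil PF.nil)) (PF.cons PF.nil PF.nil))))) (PF.cons (PF.cons (PF.cons (PF.leaf (nat_lit 4962623) (nat_lit 2620886) (nat_lit 50582300) (nat_lit 2620886) [(nat_lit 0), (nat_lit 0), (nat_lit 3130165), (nat_lit 7645294)]) (PF.cons (PF.leaf (nat_lit 5176314) (nat_lit 313108) (nat_lit 50225405) (nat_lit 2634480) [(nat_lit 313108), (nat_lit 0), (nat_lit 3143615), (nat_lit 7648587)]) (PF.cons (PF.leaf (nat_lit 5399698) (nat_lit 320292) (nat_lit 49856610) (nat_lit 2647639) [(nat_lit 320292), (nat_lit 0), (nat_lit 3156593), (nat_lit 7650792)]) (PF.cons PF.nil PF.nil)))) (PF.cons (PF.cons (PF.leaf (nat_lit 5623097) (nat_lit 1318611) (nat_lit 49130647) (nat_lit 2664922) [(nat_lit 0), (nat_lit 1318611), (nat_lit 3173709), (nat_lit 7647211)]) (PF.cons (PF.leaf (nat_lit 5850125) (nat_lit 330477) (nat_lit 48758703) (nat_lit 2675965) [(nat_lit 330477), (nat_lit 1328885), (nat_lit 3184400), (nat_lit 7645979)])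 PF.nil)) (PF.cons PF.nil PF.nil))) (PF.cons (PF.cons (PF.cons (PF.leaf (nat_lit 6188258) (nat_lit 2687846) (nat_lit 47230564) (nat_lit 2687846) [(nat_lit 0), (nat_lit 0), (nat_lit 3194598), (nat_lit 7606606)]) (PF.cons PF.nil PF.nil))
 (PF.cons PF.nil PF.nil)) (PF.cons PF.nil (PF.cons PF.nil PF.nil)))))) (PF.cons (PF.cons (PF.cons (PF.cons (PF.leaf (nat_lit 4652759) (nat_lit 2552882) (nat_lit 49475827) (nat_lit 2552882) [(nat_lit 0), (nat_lit 0), (nat_lit 0), (nat_lit 7540051)]) (PF.cons (PF.leaf (nat_lit 4842716) (nat_lit 288597) (nat_lit 49167662) (nat_lit 2566980) [(nat_lit 288597), (nat_lit 0), (nat_lit 0), (nat_lit 7542786)]) (PF.cons (PF.leaf (nat_lit 5044849) (nat_lit 297400) (nat_lit 48843770) (nat_lit 2580852) [(nat_lit 297400), (nat_lit 0), (nat_lit 0), (nat_lit 7544694)]) (PF.cons (PF.leaf (nat_lit 5256261) (nat_lit 305349) (nat_lit 48507141) (nat_lit 2594316) [(nat_lit 305349), (nat_lit 0), (nat_lit 0), (nat_lit 7545652)]) (PF.cons (PF.leaf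 (nat_lit 5475649) (nat_lit 312598) (nat_lit 48160029) (nat_lit 2607252) [(nat_lit 312598), (nat_lit 0), (nat_lit 0), (nat_lit 7545569)]) (PF.cons PF.nil (PF.cons PF.nil PF.nil))))))) (PF.cons (PF.cons (PF.leaf (nat_lit 5264421) (nat_lit 1270051) (nat_lit 48156290) (nat_lit 2600277) [(nat_lit 0), (nat_lit 1270051), (nat_lit 0), (nat_lit 7541097)]) (PF.cons (PF.leaf (nat_lit 5471741) (nat_lit 309545) (nat_lit 47825425) (nat_lit 2612066) [(nat_lit 309545), (nat_lit
 1281646), (nat_lit 0), (nat_lit 7540064)]) (PF.cons (PF.leaf (nat_lit 5688529) (nat_lit 316609) (nat_lit 47483436) (nat_lit 2623406) [(nat_lit 316609), (nat_lit 1292754), (nat_lit 0), (nat_lit 7537998)]) (PF.cons (PF.leaf (nat_lit 5912549) (nat_lit 323057) (nat_lit 47132423) (nat_lit 2634202) [(nat_lit 323057), (nat_lit 1303330), (nat_lit 0), (nat_lit 7534841)]) (PF.cons PF.nil PF.nil))))) (PF.cons (PF.cons (PF.leaf (nat_lit 5901918) (nat_lit 1304834) (nat_lit 46808304) (nat_lit 2637267) [(nat_lit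 0), (nat_lit 1304834), (nat_lit 0), (nat_lit 7526785)]) (PF.cons (PF.leaf (nat_lit 6122056) (nat_lit 326316) (nat_lit 46463473) (nat_lit 2646633) [(nat_lit 326316), (nat_lit 1314379), (nat_lit 0), (nat_lit 7521815)]) (PF.cons (PF.leaf (nat_lit 6349657) (nat_lit 332072) (nat_lit 46110870) (nat_lit 2655453) [(nat_lit 332072), (nat_lit 1323434), (nat_lit 0), (nat_lit 7515737)]) (PF.cons PF.nil PF.nil)))) (PF.cons (PF.cons (PF.leaf (nat_lit 6556065) (nat_lit 1332287) (nat_lit 45451893) (nat_lit 2664553) [(nat_lit 0), (nat_lit 1332287), (nat_lit 0), (nat_lit 7497751)]) (PF.cons PF.nil PF.nil)) (PF.cons PF.nil PF.nil))))) (PF.cons (PF.cons (PF.cons (PF.leaf (nat_lit 5808245) (nat_lit 2626078)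
 (nat_lit 46352230) (nat_lit 2626078) [(nat_lit 0), (nat_lit 0), (nat_lit 3128176), (nat_lit 7501163)]) (PF.cons (PF.leaf (nat_lit 6016596) (nat_lit 317418) (nat_lit 46028523) (nat_lit 2635040) [(nat_lit 317418), (nat_lit 0), (nat_lit 3136334), (nat_lit 7495747)]) (PF.cons (PF.leaf (nat_lit 6233875) (nat_lit 323980) (nat_lit 45694729) (nat_lit 2643552) [(nat_lit 323980), (nat_lit 0), (nat_lit 3144009), (nat_lit 7489279)]) (PF.cons (PF.leaf (nat_lit 6457853) (nat_lit 329921) (nat_lit 45352896) (nat_lit 2651542) [(nat_lit 329921), (nat_lit 0), (nat_lit 3151127), (nat_lit 7481740)]) (PF.cons PF.nil PF.nil))))) (PF.cons (PF.cons (PF.leaf (nat_lit 6440228) (nat_lit 1321306) (nat_lit 45043085) (nat_lit 2652470) [(nat_lit 0), (nat_lit 1321306), (nat_lit 3151582), (nat_lit 7470183)]) (PF.cons (PF.leaf (nat_lit 6659975) (nat_lit 332343) (nat_lit 44708238) (nat_lit 2659249) [(nat_lit 332343), (nat_lit 1329211), (nat_lit 3157422), (nat_lit 7461173)]) (PF.cons PF.nil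 (PF.cons PF.nil PF.nil)))) (PF.cons (PF.cons (PF.leaf (nat_lit 7085225) (nat_lit 1342954) (nat_lit 43733659) (nat_lit 2670409) [(nat_lit 0), (nat_lit 1342954), (nat_lit 3165949), (nat_lit 7426443)]) (PF.cons PF.nil PF.nil))
 PF.nil))) (PF.cons (PF.cons (PF.cons (PF.leaf (nat_lit 6960244) (nat_lit 2657451) (nat_lit 43353686) (nat_lit 2657451) [(nat_lit 0), (nat_lit 0), (nat_lit 3151999), (nat_lit 7396838)]) (PF.cons (PF.leaf (nat_lit 7178789) (nat_lit 336770) (nat_lit 43030114) (nat_lit 2662038) [(nat_lit 336770), (nat_lit 0), (nat_lit 3155438), (nat_lit 7384506)]) PF.nil)) (PF.cons PF.nil PF.nil)) (PF.cons PF.nil (PF.cons PF.nil PF.nil))))) (PF.cons (PF.cons (PF.cons (PF.cons (PF.leaf (nat_lit 6563725) (nat_lit 2598687) (nat_lit 42623848) (nat_lit 2598687) [(nat_lit 0), (nat_lit 0), (nat_lit 0), (nat_lit 7295425)]) (PF.cons (PF.leaf (nat_lit 6765842) (nat_lit 317473) (nat_lit 42332950) (nat_lit 2604396) [(nat_lit 317473), (nat_lit 0), (nat_lit 0), (nat_lit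 7284664)]) (PF.cons (PF.leaf (nat_lit 6976258) (nat_lit 323515) (nat_lit 42033400) (nat_lit 2609659) [(nat_lit 323515), (nat_lit 0), (nat_lit 0), (nat_lit 7272907)]) (PF.cons PF.nil PF.nil)))) (PF.cons (PF.cons (PF.leaf (nat_lit 7167453) (nat_lit 1309259) (nat_lit 41452530) (nat_lit 2612928) [(nat_lit 0), (nat_lit 1309259), (nat_lit 0), (nat_lit 7244698)]) (PF.cons (PF.leaf (nat_lit 7379534) (nat_lit 330498) (nat_lit 41153023) (nat_lit 2616757)
 [(nat_lit 330498), (nat_lit 1315426), (nat_lit 0), (nat_lit 7231035)]) PF.nil)) (PF.cons PF.nil PF.nil))) (PF.cons (PF.cons (PF.cons (PF.leaf (nat_lit 7648282) (nat_lit 2606284) (nat_lit 39956786) (nat_lit 2606284) [(nat_lit 0), (nat_lit 0), (nat_lit 3085832), (nat_lit 7153303)]) (PF.cons PF.nil PF.nil)) (PF.cons PF.nil PF.nil)) (PF.cons PF.nil PF.nil))) (PF.cons (PF.cons (PF.cons (PF.cons (PF.leaf (nat_lit 8267574) (nat_lit 2543345) (nat_lit 36979513) (nat_lit 2543345) [(nat_lit 0), (nat_lit 0), (nat_lit 0),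 (nat_lit 6896488)]) (PF.cons PF.nil PF.nil)) (PF.cons PF.nil PF.nil)) (PF.cons PF.nil PF.nil)) (PF.cons PF.nil (PF.cons PF.nil (PF.cons PF.nil PF.nil))))))))

def p15_10_0_0 : pfC (piC [(nat_lit 43428061), (nat_lit 27333682), (nat_lit 20249535), (nat_lit 13625780)] (nat_lit 26450756)) p15_10_0 (nat_lit 4) (nat_lit 0) (nat_lit 1) = true := by decide +kernel
def p15_10_0_1 : pfC (piC [(nat_lit 43428061), (nat_lit 27333682), (nat_lit 20249535), (nat_lit 13625780)] (nat_lit 26450756)) p15_10_0 (nat_lit 4) (nat_lit 1) (nat_lit 2) = true := by decide +kernel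
def p15_10_0_2 : pfC (piC [(nat_lit 43428061), (nat_lit 27333682), (nat_lit 20249535), (nat_lit 13625780)] (nat_lit 26450756)) p15_10_0 (nat_lit 4) (nat_lit 2) (nat_lit 3) = true := by decide +kernel
def p15_10_0_3 : pfC (piC [(nat_lit 43428061), (nat_lit 27333682), (nat_lit 20249535), (nat_lit 13625780)] (nat_lit 26450756)) p15_10_0 (nat_lit 4) (nat_lit 3) (nat_lit 4) = true := by decide +kernel
def p15_10_0_4 : pfC (piC [(nat_lit 43428061), (nat_lit 27333682), (nat_lit 20249535), (nat_lit 13625780)] (nat_lit 26450756)) p15_10_0 (nat_lit 4) (nat_lit 4) (nat_lit 5) = true := by decide +kernel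
def p15_10_0_5 : pfC (piC [(nat_lit 43428061), (nat_lit 27333682), (nat_lit 20249535), (nat_lit 13625780)] (nat_lit 26450756)) p15_10_0 (nat_lit 4) (nat_lit 5) (nat_lit 6) = true := by decide +kernel
def p15_10_0_6 : pfC (piC [(nat_lit 43428061), (nat_lit 27333682), (nat_lit 20249535), (nat_lit 13625780)] (nat_lit 26450756)) p15_10_0 (nat_lit 4) (nat_lit 6) (nat_lit 7) = true := by decide +kernel
def p15_10_0_7 : pfC (piC [(nat_lit 43428061), (nat_lit 27333682), (nat_lit 20249535), (nat_lit 13625780)] (nat_lit 26450756)) p15_10_0 (nat_lit 4) (nat_lit 7) (nat_lit 8) = true := by decide +kernel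
def p15_10_0_8 : pfC (piC [(nat_lit 43428061), (nat_lit 27333682), (nat_lit 20249535), (nat_lit 13625780)] (nat_lit 26450756)) p15_10_0 (nat_lit 4) (nat_lit 8) (nat_lit 9) = true := by decide +kernel
def p15_10_0_9 : pfC (piC [(nat_lit 43428061), (nat_lit 27333682), (nat_lit 20249535), (nat_lit 13625780)] (nat_lit 26450756)) p15_10_0 (nat_lit 4) (nat_lit 9) (nat_lit 10) = true := by decide +kernel
def p15_10_0_10 : pfC (piC [(nat_lit 43428061), (nat_lit 27333682), (nat_lit 20249535), (nat_lit 13625780)] (nat_lit 26450756)) p15_10_0 (nat_lit 4) (nat_lit 10) (nat_lit 11) = true := by decide +kernel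
def p15_10_0_11 : pfC (piC [(nat_lit 43428061), (nat_lit 27333682), (nat_lit 20249535), (nat_lit 13625780)] (nat_lit 26450756)) p15_10_0 (nat_lit 4) (nat_lit 11) (nat_lit 12) = true := by decide +kernel
def p15_10_0_12 : pfC (piC [(nat_lit 43428061), (nat_lit 27333682), (nat_lit 20249535), (nat_lit 13625780)] (nat_lit 26450756)) p15_10_0 (nat_lit 4) (nat_lit 12) (nat_lit 13) = true := by decide +kernel
def p15_10_0_13 : pfC (piC [(nat_lit 43428061), (nat_lit 27333682), (nat_lit 20249535), (nat_lit 13625780)] (nat_lit 26450756)) p15_10_0 (nat_lit 4) (nat_lit 13) (nat_lit 14) = true := by decide +kernel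
def p15_10_0_14 : pfC (piC [(nat_lit 43428061), (nat_lit 27333682), (nat_lit 20249535), (nat_lit 13625780)] (nat_lit 26450756)) p15_10_0 (nat_lit 4) (nat_lit 14) (nat_lit 15) = true := by decide +kernel
def p15_10_0_15 : pfC (piC [(nat_lit 43428061), (nat_lit 27333682), (nat_lit 20249535), (nat_lit 13625780)] (nat_lit 26450756)) p15_10_0 (nat_lit 4) (nat_lit 15) (nat_lit 16) = true := by decide +kernel
def p15_10_0_16 : pfC (piC [(nat_lit 43428061), (nat_lit 27333682), (nat_lit 20249535), (nat_lit 13625780)] (nat_lit 26450756)) p15_10_0 (nat_lit 4) (nat_lit 16) (nat_lit 17) = true := by decide +kernel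
def p15_10_0_17 : pfC (piC [(nat_lit 43428061), (nat_lit 27333682), (nat_lit 20249535), (nat_lit 13625780)] (nat_lit 26450756)) p15_10_0 (nat_lit 4) (nat_lit 17) (nat_lit 18) = true := by decide +kernel
def p15_10_0_18 : pfC (piC [(nat_lit 43428061), (nat_lit 27333682), (nat_lit 20249535), (nat_lit 13625780)] (nat_lit 26450756)) p15_10_0 (nat_lit 4) (nat_lit 18) (nat_lit 19) = true := by decide +kernel
def p15_10_0_19 : pfC (piC [(nat_lit 43428061), (nat_lit 27333682), (nat_lit 20249535), (nat_lit 13625780)] (nat_lit 26450756)) p15_10_0 (nat_lit 4) (nat_lit 19) (nat_lit 20) = true := by decide +kernel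
def p15_10_0_20 : pfC (piC [(nat_lit 43428061), (nat_lit 27333682), (nat_lit 20249535), (nat_lit 13625780)] (nat_lit 26450756)) p15_10_0 (nat_lit 4) (nat_lit 20) (nat_lit 21) = true := by decide +kernel
def p15_10_0_21 : pfC (piC [(nat_lit 43428061), (nat_lit 27333682), (nat_lit 20249535), (nat_lit 13625780)] (nat_lit 26450756)) p15_10_0 (nat_lit 4) (nat_lit 21) (nat_lit 22) = true := by decide +kernel
def p15_10_0_22 : pfC (piC [(nat_lit 43428061), (nat_lit 27333682), (nat_lit 20249535), (nat_lit 13625780)] (nat_lit 26450756)) p15_10_0 (nat_lit 4) (nat_lit 22) (nat_lit 23) = true := by decide +kernel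
def p15_10_0_23 : pfC (piC [(nat_lit 43428061), (nat_lit 27333682), (nat_lit 20249535), (nat_lit 13625780)] (nat_lit 26450756)) p15_10_0 (nat_lit 4) (nat_lit 23) (nat_lit 24) = true := by decide +kernel
def p15_10_0_24 : pfC (piC [(nat_lit 43428061), (nat_lit 27333682), (nat_lit 20249535), (nat_lit 13625780)] (nat_lit 26450756)) p15_10_0 (nat_lit 4) (nat_lit 24) (nat_lit 25) = true := by decide +kernel
def p15_10_0_25 : pfC (piC [(nat_lit 43428061), (nat_lit 27333682), (nat_lit 20249535), (nat_lit 13625780)] (nat_lit 26450756)) p15_10_0 (nat_lit 4) (nat_lit 25) (nat_lit 26) = true := by decide +kernel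
def p15_10_0_26 : pfC (piC [(nat_lit 43428061), (nat_lit 27333682), (nat_lit 20249535), (nat_lit 13625780)] (nat_lit 26450756)) p15_10_0 (nat_lit 4) (nat_lit 26) (nat_lit 27) = true := by decide +kernel
def p15_10_0_27 : pfC (piC [(nat_lit 43428061), (nat_lit 27333682), (nat_lit 20249535), (nat_lit 13625780)] (nat_lit 26450756)) p15_10_0 (nat_lit 4) (nat_lit 27) (nat_lit 28) = true := by decide +kernel
def p15_10_0_28 : pfC (piC [(nat_lit 43428061), (nat_lit 27333682), (nat_lit 20249535), (nat_lit 13625780)] (nat_lit 26450756)) p15_10_0 (nat_lit 4) (nat_lit 28) (nat_lit 29) = true := by decide +kernel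
def p15_10_0_29 : pfC (piC [(nat_lit 43428061), (nat_lit 27333682), (nat_lit 20249535), (nat_lit 13625780)] (nat_lit 26450756)) p15_10_0 (nat_lit 4) (nat_lit 29) (nat_lit 30) = true := by decide +kernel
def p15_10_0_30 : pfC (piC [(nat_lit 43428061), (nat_lit 27333682), (nat_lit 20249535), (nat_lit 13625780)] (nat_lit 26450756)) p15_10_0 (nat_lit 4) (nat_lit 30) (nat_lit 31) = true := by decide +kernel
def p15_10_0_31 : pfC (piC [(nat_lit 43428061), (nat_lit 27333682), (nat_lit 20249535), (nat_lit 13625780)] (nat_lit 26450756)) p15_10_0 (nat_lit 4) (nat_lit 31) (nat_lit 32) = true := by decide +kernel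
def p15_10_0_32 : pfC (piC [(nat_lit 43428061), (nat_lit 27333682), (nat_lit 20249535), (nat_lit 13625780)] (nat_lit 26450756)) p15_10_0 (nat_lit 4) (nat_lit 32) (nat_lit 33) = true := by decide +kernel
def p15_10_0_33 : pfC (piC [(nat_lit 43428061), (nat_lit 27333682), (nat_lit 20249535), (nat_lit 13625780)] (nat_lit 26450756)) p15_10_0 (nat_lit 4) (nat_lit 33) (nat_lit 34) = true := by decide +kernel
def p15_10_0_34 : pfC (piC [(nat_lit 43428061), (nat_lit 27333682), (nat_lit 20249535), (nat_lit 13625780)] (nat_lit 26450756)) p15_10_0 (nat_lit 4) (nat_lit 34) (nat_lit 35) = true := by decide +kernel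
def p15_10_0_35 : pfC (piC [(nat_lit 43428061), (nat_lit 27333682), (nat_lit 20249535), (nat_lit 13625780)] (nat_lit 26450756)) p15_10_0 (nat_lit 4) (nat_lit 35) (nat_lit 36) = true := by decide +kernel
def p15_10_0_36 : pfC (piC [(nat_lit 43428061), (nat_lit 27333682), (nat_lit 20249535), (nat_lit 13625780)] (nat_lit 26450756)) p15_10_0 (nat_lit 4) (nat_lit 36) (nat_lit 37) = true := by decide +kernel
def p15_10_0_37 : pfC (piC [(nat_lit 43428061), (nat_lit 27333682), (nat_lit 20249535), (nat_lit 13625780)] (nat_lit 26450756)) p15_10_0 (nat_lit 4) (nat_lit 37) (nat_lit 38) = true := by decide +kernel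
def p15_10_0_38 : pfC (piC [(nat_lit 43428061), (nat_lit 27333682), (nat_lit 20249535), (nat_lit 13625780)] (nat_lit 26450756)) p15_10_0 (nat_lit 4) (nat_lit 38) (nat_lit 39) = true := by decide +kernel
def p15_10_0_39 : pfC (piC [(nat_lit 43428061), (nat_lit 27333682), (nat_lit 20249535), (nat_lit 13625780)] (nat_lit 26450756)) p15_10_0 (nat_lit 4) (nat_lit 39) (nat_lit 40) = true := by decide +kernel
def p15_10_0_40 : pfC (piC [(nat_lit 43428061), (nat_lit 27333682), (nat_lit 20249535), (nat_lit 13625780)] (nat_lit 26450756)) p15_10_0 (nat_lit 4) (nat_lit 40) (nat_lit 41) = true := by decide +kernel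
def p15_10_0_41 : pfC (piC [(nat_lit 43428061), (nat_lit 27333682), (nat_lit 20249535), (nat_lit 13625780)] (nat_lit 26450756)) p15_10_0 (nat_lit 4) (nat_lit 41) (nat_lit 42) = true := by decide +kernel
def p15_10_0_42 : pfC (piC [(nat_lit 43428061), (nat_lit 27333682), (nat_lit 20249535), (nat_lit 13625780)] (nat_lit 26450756)) p15_10_0 (nat_lit 4) (nat_lit 42) (nat_lit 43) = true := by decide +kernel
def p15_10_0_43 : pfC (piC [(nat_lit 43428061), (nat_lit 27333682), (nat_lit 20249535), (nat_lit 13625780)] (nat_lit 26450756)) p15_10_0 (nat_lit 4) (nat_lit 43) (nat_lit 44) = true := by decide +kernel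
def p15_10_0_44 : pfC (piC [(nat_lit 43428061), (nat_lit 27333682), (nat_lit 20249535), (nat_lit 13625780)] (nat_lit 26450756)) p15_10_0 (nat_lit 4) (nat_lit 44) (nat_lit 45) = true := by decide +kernel
def p15_10_0_45 : pfC (piC [(nat_lit 43428061), (nat_lit 27333682), (nat_lit 20249535), (nat_lit 13625780)] (nat_lit 26450756)) p15_10_0 (nat_lit 4) (nat_lit 45) (nat_lit 46) = true := by decide +kernel
def p15_10_0_46 : pfC (piC [(nat_lit 43428061), (nat_lit 27333682), (nat_lit 20249535), (nat_lit 13625780)] (nat_lit 26450756)) p15_10_0 (nat_lit 4) (nat_lit 46) (nat_lit 47) = true := by decide +kernel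
def p15_10_0_47 : pfC (piC [(nat_lit 43428061), (nat_lit 27333682), (nat_lit 20249535), (nat_lit 13625780)] (nat_lit 26450756)) p15_10_0 (nat_lit 4) (nat_lit 47) (nat_lit 48) = true := by decide +kernel
def p15_10_0_48 : pfC (piC [(nat_lit 43428061), (nat_lit 27333682), (nat_lit 20249535), (nat_lit 13625780)] (nat_lit 26450756)) p15_10_0 (nat_lit 4) (nat_lit 48) (nat_lit 49) = true := by decide +kernel
def p15_10_0_49 : pfC (piC [(nat_lit 43428061), (nat_lit 27333682), (nat_lit 20249535), (nat_lit 13625780)] (nat_lit 26450756)) p15_10_0 (nat_lit 4) (nat_lit 49) (nat_lit 50) = true := by decide +kernel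
def p15_10_0_50 : pfC (piC [(nat_lit 43428061), (nat_lit 27333682), (nat_lit 20249535), (nat_lit 13625780)] (nat_lit 26450756)) p15_10_0 (nat_lit 4) (nat_lit 50) (nat_lit 51) = true := by decide +kernel
def p15_10_0_51 : pfC (piC [(nat_lit 43428061), (nat_lit 27333682), (nat_lit 20249535), (nat_lit 13625780)] (nat_lit 26450756)) p15_10_0 (nat_lit 4) (nat_lit 51) (nat_lit 52) = true := by decide +kernel
def p15_10_0_52 : pfC (piC [(nat_lit 43428061), (nat_lit 27333682), (nat_lit 20249535), (nat_lit 13625780)] (nat_lit 26450756)) p15_10_0 (nat_lit 4) (nat_lit 52) (nat_lit 53) = true := by decide +kernel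
def p15_10_0_53 : pfC (piC [(nat_lit 43428061), (nat_lit 27333682), (nat_lit 20249535), (nat_lit 13625780)] (nat_lit 26450756)) p15_10_0 (nat_lit 4) (nat_lit 53) (nat_lit 54) = true := by decide +kernel
def p15_10_0_54 : pfC (piC [(nat_lit 43428061), (nat_lit 27333682), (nat_lit 20249535), (nat_lit 13625780)] (nat_lit 26450756)) p15_10_0 (nat_lit 4) (nat_lit 54) (nat_lit 55) = true := by decide +kernel
def p15_10_0_55 : pfC (piC [(nat_lit 43428061), (nat_lit 27333682), (nat_lit 20249535), (nat_lit 13625780)] (nat_lit 26450756)) p15_10_0 (nat_lit 4) (nat_lit 55) (nat_lit 56) = true := by decide +kernel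
def p15_10_0_56 : pfC (piC [(nat_lit 43428061), (nat_lit 27333682), (nat_lit 20249535), (nat_lit 13625780)] (nat_lit 26450756)) p15_10_0 (nat_lit 4) (nat_lit 56) (nat_lit 57) = true := by decide +kernel
def p15_10_0_57 : pfC (piC [(nat_lit 43428061), (nat_lit 27333682), (nat_lit 20249535), (nat_lit 13625780)] (nat_lit 26450756)) p15_10_0 (nat_lit 4) (nat_lit 57) (nat_lit 58) = true := by decide +kernel
def p15_10_0_58 : pfC (piC [(nat_lit 43428061), (nat_lit 27333682), (nat_lit 20249535), (nat_lit 13625780)] (nat_lit 26450756)) p15_10_0 (nat_lit 4) (nat_lit 58) (nat_lit 59) = true := by decide +kernel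
def p15_10_0_59 : pfC (piC [(nat_lit 43428061), (nat_lit 27333682), (nat_lit 20249535), (nat_lit 13625780)] (nat_lit 26450756)) p15_10_0 (nat_lit 4) (nat_lit 59) (nat_lit 60) = true := by decide +kernel
def p15_10_0_60 : pfC (piC [(nat_lit 43428061), (nat_lit 27333682), (nat_lit 20249535), (nat_lit 13625780)] (nat_lit 26450756)) p15_10_0 (nat_lit 4) (nat_lit 60) (nat_lit 61) = true := by decide +kernel
def p15_10_0_61 : pfC (piC [(nat_lit 43428061), (nat_lit 27333682), (nat_lit 20249535), (nat_lit 13625780)] (nat_lit 26450756)) p15_10_0 (nat_lit 4) (nat_lit 61) (nat_lit 62) = true := by decide +kernel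
def p15_10_0_62 : pfC (piC [(nat_lit 43428061), (nat_lit 27333682), (nat_lit 20249535), (nat_lit 13625780)] (nat_lit 26450756)) p15_10_0 (nat_lit 4) (nat_lit 62) (nat_lit 63) = true := by decide +kernel
def p15_10_0_63 : pfC (piC [(nat_lit 43428061), (nat_lit 27333682), (nat_lit 20249535), (nat_lit 13625780)] (nat_lit 26450756)) p15_10_0 (nat_lit 4) (nat_lit 63) (nat_lit 64) = true := by decide +kernel
def p15_10_0_64 : pfC (piC [(nat_lit 43428061), (nat_lit 27333682), (nat_lit 20249535), (nat_lit 13625780)] (nat_lit 26450756)) p15_10_0 (nat_lit 4) (nat_lit 64) (nat_lit 65) = true := by decide +kernel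
def p15_10_0_65 : pfC (piC [(nat_lit 43428061), (nat_lit 27333682), (nat_lit 20249535), (nat_lit 13625780)] (nat_lit 26450756)) p15_10_0 (nat_lit 4) (nat_lit 65) (nat_lit 66) = true := by decide +kernel
def p15_10_0_66 : pfC (piC [(nat_lit 43428061), (nat_lit 27333682), (nat_lit 20249535), (nat_lit 13625780)] (nat_lit 26450756)) p15_10_0 (nat_lit 4) (nat_lit 66) (nat_lit 67) = true := by decide +kernel
def p15_10_0_67 : pfC (piC [(nat_lit 43428061), (nat_lit 27333682), (nat_lit 20249535), (nat_lit 13625780)] (nat_lit 26450756)) p15_10_0 (nat_lit 4) (nat_lit 67) (nat_lit 68) = true := by decide +kernel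
def p15_10_0_68 : pfC (piC [(nat_lit 43428061), (nat_lit 27333682), (nat_lit 20249535), (nat_lit 13625780)] (nat_lit 26450756)) p15_10_0 (nat_lit 4) (nat_lit 68) (nat_lit 69) = true := by decide +kernel
def p15_10_0_69 : pfC (piC [(nat_lit 43428061), (nat_lit 27333682), (nat_lit 20249535), (nat_lit 13625780)] (nat_lit 26450756)) p15_10_0 (nat_lit 4) (nat_lit 69) (nat_lit 70) = true := by decide +kernel
def p15_10_0_70 : pfC (piC [(nat_lit 43428061), (nat_lit 27333682), (nat_lit 20249535), (nat_lit 13625780)] (nat_lit 26450756)) p15_10_0 (nat_lit 4) (nat_lit 70) (nat_lit 71) = true := by decide +kernel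
def p15_10_0_71 : pfC (piC [(nat_lit 43428061), (nat_lit 27333682), (nat_lit 20249535), (nat_lit 13625780)] (nat_lit 26450756)) p15_10_0 (nat_lit 4) (nat_lit 71) (nat_lit 72) = true := by decide +kernel
def p15_10_0_72 : pfC (piC [(nat_lit 43428061), (nat_lit 27333682), (nat_lit 20249535), (nat_lit 13625780)] (nat_lit 26450756)) p15_10_0 (nat_lit 4) (nat_lit 72) (nat_lit 73) = true := by decide +kernel
def p15_10_0_73 : pfC (piC [(nat_lit 43428061), (nat_lit 27333682), (nat_lit 20249535), (nat_lit 13625780)] (nat_lit 26450756)) p15_10_0 (nat_lit 4) (nat_lit 73) (nat_lit 74) = true := by decide +kernel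
def p15_10_0_74 : pfC (piC [(nat_lit 43428061), (nat_lit 27333682), (nat_lit 20249535), (nat_lit 13625780)] (nat_lit 26450756)) p15_10_0 (nat_lit 4) (nat_lit 74) (nat_lit 75) = true := by decide +kernel
def p15_10_0_75 : pfC (piC [(nat_lit 43428061), (nat_lit 27333682), (nat_lit 20249535), (nat_lit 13625780)] (nat_lit 26450756)) p15_10_0 (nat_lit 4) (nat_lit 75) (nat_lit 76) = true := by decide +kernel
def p15_10_0_76 : pfC (piC [(nat_lit 43428061), (nat_lit 27333682), (nat_lit 20249535), (nat_lit 13625780)] (nat_lit 26450756)) p15_10_0 (nat_lit 4) (nat_lit 76) (nat_lit 77) = true := by decide +kernel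
def p15_10_0_77 : pfC (piC [(nat_lit 43428061), (nat_lit 27333682), (nat_lit 20249535), (nat_lit 13625780)] (nat_lit 26450756)) p15_10_0 (nat_lit 4) (nat_lit 77) (nat_lit 78) = true := by decide +kernel
def p15_10_0_78 : pfC (piC [(nat_lit 43428061), (nat_lit 27333682), (nat_lit 20249535), (nat_lit 13625780)] (nat_lit 26450756)) p15_10_0 (nat_lit 4) (nat_lit 78) (nat_lit 79) = true := by decide +kernel
def p15_10_0_79 : pfC (piC [(nat_lit 43428061), (nat_lit 27333682), (nat_lit 20249535), (nat_lit 13625780)] (nat_lit 26450756)) p15_10_0 (nat_lit 4) (nat_lit 79) (nat_lit 80) = true := by decide +kernel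
def p15_10_0_80 : pfC (piC [(nat_lit 43428061), (nat_lit 27333682), (nat_lit 20249535), (nat_lit 13625780)] (nat_lit 26450756)) p15_10_0 (nat_lit 4) (nat_lit 80) (nat_lit 81) = true := by decide +kernel
def p15_10_0_81 : pfC (piC [(nat_lit 43428061), (nat_lit 27333682), (nat_lit 20249535), (nat_lit 13625780)] (nat_lit 26450756)) p15_10_0 (nat_lit 4) (nat_lit 81) (nat_lit 82) = true := by decide +kernel
def p15_10_0_82 : pfC (piC [(nat_lit 43428061), (nat_lit 27333682), (nat_lit 20249535), (nat_lit 13625780)] (nat_lit 26450756)) p15_10_0 (nat_lit 4) (nat_lit 82) (nat_lit 83) = true := by decide +kernel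
def p15_10_0_83 : pfC (piC [(nat_lit 43428061), (nat_lit 27333682), (nat_lit 20249535), (nat_lit 13625780)] (nat_lit 26450756)) p15_10_0 (nat_lit 4) (nat_lit 83) (nat_lit 84) = true := by decide +kernel
def p15_10_0_84 : pfC (piC [(nat_lit 43428061), (nat_lit 27333682), (nat_lit 20249535), (nat_lit 13625780)] (nat_lit 26450756)) p15_10_0 (nat_lit 4) (nat_lit 84) (nat_lit 85) = true := by decide +kernel
def p15_10_0_85 : pfC (piC [(nat_lit 43428061), (nat_lit 27333682), (nat_lit 20249535), (nat_lit 13625780)] (nat_lit 26450756)) p15_10_0 (nat_lit 4) (nat_lit 85) (nat_lit 86) = true := by decide +kernel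
def p15_10_0_86 : pfC (piC [(nat_lit 43428061), (nat_lit 27333682), (nat_lit 20249535), (nat_lit 13625780)] (nat_lit 26450756)) p15_10_0 (nat_lit 4) (nat_lit 86) (nat_lit 87) = true := by decide +kernel
def p15_10_0_87 : pfC (piC [(nat_lit 43428061), (nat_lit 27333682), (nat_lit 20249535), (nat_lit 13625780)] (nat_lit 26450756)) p15_10_0 (nat_lit 4) (nat_lit 87) (nat_lit 88) = true := by decide +kernel
def p15_10_0_88 : pfC (piC [(nat_lit 43428061), (nat_lit 27333682), (nat_lit 20249535), (nat_lit 13625780)] (nat_lit 26450756)) p15_10_0 (nat_lit 4) (nat_lit 88) (nat_lit 89) = true := by decide +kernel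
def p15_10_0_89 : pfC (piC [(nat_lit 43428061), (nat_lit 27333682), (nat_lit 20249535), (nat_lit 13625780)] (nat_lit 26450756)) p15_10_0 (nat_lit 4) (nat_lit 89) (nat_lit 90) = true := by decide +kernel
def p15_10_0_90 : pfC (piC [(nat_lit 43428061), (nat_lit 27333682), (nat_lit 20249535), (nat_lit 13625780)] (nat_lit 26450756)) p15_10_0 (nat_lit 4) (nat_lit 90) (nat_lit 91) = true := by decide +kernel
def p15_10_0_91 : pfC (piC [(nat_lit 43428061), (nat_lit 27333682), (nat_lit 20249535), (nat_lit 13625780)] (nat_lit 26450756)) p15_10_0 (nat_lit 4) (nat_lit 91) (nat_lit 92) = true := by decide +kernel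
def p15_10_0_92 : pfC (piC [(nat_lit 43428061), (nat_lit 27333682), (nat_lit 20249535), (nat_lit 13625780)] (nat_lit 26450756)) p15_10_0 (nat_lit 4) (nat_lit 92) (nat_lit 93) = true := by decide +kernel
def p15_10_0_93 : pfC (piC [(nat_lit 43428061), (nat_lit 27333682), (nat_lit 20249535), (nat_lit 13625780)] (nat_lit 26450756)) p15_10_0 (nat_lit 4) (nat_lit 93) (nat_lit 94) = true := by decide +kernel
def p15_10_0_94 : pfC (piC [(nat_lit 43428061), (nat_lit 27333682), (nat_lit 20249535), (nat_lit 13625780)] (nat_lit 26450756)) p15_10_0 (nat_lit 4) (nat_lit 94) (nat_lit 95) = true := by decide +kernel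
def p15_10_0_95 : pfC (piC [(nat_lit 43428061), (nat_lit 27333682), (nat_lit 20249535), (nat_lit 13625780)] (nat_lit 26450756)) p15_10_0 (nat_lit 4) (nat_lit 95) (nat_lit 96) = true := by decide +kernel
def p15_10_0_96 : pfC (piC [(nat_lit 43428061), (nat_lit 27333682), (nat_lit 20249535), (nat_lit 13625780)] (nat_lit 26450756)) p15_10_0 (nat_lit 4) (nat_lit 96) (nat_lit 97) = true := by decide +kernel
def p15_10_0_97 : pfC (piC [(nat_lit 43428061), (nat_lit 27333682), (nat_lit 20249535), (nat_lit 13625780)] (nat_lit 26450756)) p15_10_0 (nat_lit 4) (nat_lit 97) (nat_lit 98) = true := by decide +kernel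
def p15_10_0_98 : pfC (piC [(nat_lit 43428061), (nat_lit 27333682), (nat_lit 20249535), (nat_lit 13625780)] (nat_lit 26450756)) p15_10_0 (nat_lit 4) (nat_lit 98) (nat_lit 99) = true := by decide +kernel
def p15_10_0_99 : pfC (piC [(nat_lit 43428061), (nat_lit 27333682), (nat_lit 20249535), (nat_lit 13625780)] (nat_lit 26450756)) p15_10_0 (nat_lit 4) (nat_lit 99) (nat_lit 100) = true := by decide +kernel
def p15_10_0_100 : pfC (piC [(nat_lit 43428061), (nat_lit 27333682), (nat_lit 20249535), (nat_lit 13625780)] (nat_lit 26450756)) p15_10_0 (nat_lit 4) (nat_lit 100) (nat_lit 101) = true := by decide +kernel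
def p15_10_0_101 : pfC (piC [(nat_lit 43428061), (nat_lit 27333682), (nat_lit 20249535), (nat_lit 13625780)] (nat_lit 26450756)) p15_10_0 (nat_lit 4) (nat_lit 101) (nat_lit 102) = true := by decide +kernel
def p15_10_0_102 : pfC (piC [(nat_lit 43428061), (nat_lit 27333682), (nat_lit 20249535), (nat_lit 13625780)] (nat_lit 26450756)) p15_10_0 (nat_lit 4) (nat_lit 102) (nat_lit 103) = true := by decide +kernel
def p15_10_0_103 : pfC (piC [(nat_lit 43428061), (nat_lit 27333682), (nat_lit 20249535), (nat_lit 13625780)] (nat_lit 26450756)) p15_10_0 (nat_lit 4) (nat_lit 103) (nat_lit 104) = true := by decide +kernel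
theorem p15_10_0_T : PfS (PiF n15_10.reverse (nat_lit 26450756)) p15_10_0 (nat_lit 4) [] 0 :=
  pftab_of (los := [(nat_lit 43428061), (nat_lit 27333682), (nat_lit 20249535), (nat_lit 13625780)]) (by decide +kernel) (hi := (nat_lit 104)) (PfP.trans (PfP.trans (PfP.trans (PfP.trans (PfP.trans (PfP.trans (PfP.trans (PfP.trans (PfP.trans (PfP.trans (PfP.trans (PfP.trans (PfP.trans (PfP.trans (PfP.trans (PfP.trans (PfP.trans (PfP.trans (PfP.trans (PfP.trans (PfP.trans (PfP.trans (PfP.trans (PfP.trans (PfP.trans (PfP.trans (PfP.trans (PfP.trans (PfP.trans (PfP.trans (PfP.trans (PfP.trans (PfP.trans (PfP.trans (PfP.trans (PfP.trans (PfP.trans (PfP.trans (PfP.trans (PfP.trans (PfP.trans (PfP.trans (PfP.trans (PfP.trans (PfP.trans (PfP.trans (PfP.trans (PfP.trans (PfP.trans (PfP.trans (PfP.trans (PfP.trans (PfP.trans (PfP.trans (PfP.trans (PfP.trans (PfP.trans (PfP.trans (PfP.trans (PfP.trans (PfP.trans (PfP.trans (PfP.trans (PfP.trans (PfP.trans (PfP.trans (PfP.trans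 (PfP.trans (PfP.trans (PfP.trans (PfP.trans (PfP.trans (PfP.trans (PfP.trans (PfP.trans (PfP.trans (PfP.trans (PfP.trans (PfP.trans (PfP.trans (PfP.trans (PfP.trans (PfP.trans (PfP.trans (PfP.trans (PfP.trans (PfP.trans (PfP.trans (PfP.trans (PfP.trans (PfP.trans (PfP.trans (PfP.trans (PfP.trans (PfP.trans (PfP.trans (PfP.trans (PfP.trans (PfP.trans (PfP.trans (PfP.trans (PfP.trans (PfP.trans (pfC_sound p15_10_0_0) (pfC_sound p15_10_0_1)) (pfC_sound
 p15_10_0_2)) (pfC_sound p15_10_0_3)) (pfC_sound p15_10_0_4)) (pfC_sound p15_10_0_5)) (pfC_sound p15_10_0_6)) (pfC_sound p15_10_0_7)) (pfC_sound p15_10_0_8)) (pfC_sound p15_10_0_9)) (pfC_sound p15_10_0_10)) (pfC_sound p15_10_0_11)) (pfC_sound p15_10_0_12)) (pfC_sound p15_10_0_13)) (pfC_sound p15_10_0_14)) (pfC_sound p15_10_0_15)) (pfC_sound p15_10_0_16)) (pfC_sound p15_10_0_17)) (pfC_sound p15_10_0_18)) (pfC_sound p15_10_0_19)) (pfC_sound p15_10_0_20)) (pfC_sound p15_10_0_21)) (pfC_sound p15_10_0_22)) (pfC_sound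 p15_10_0_23)) (pfC_sound p15_10_0_24)) (pfC_sound p15_10_0_25)) (pfC_sound p15_10_0_26)) (pfC_sound p15_10_0_27)) (pfC_sound p15_10_0_28)) (pfC_sound p15_10_0_29)) (pfC_sound p15_10_0_30)) (pfC_sound p15_10_0_31)) (pfC_sound p15_10_0_32)) (pfC_sound p15_10_0_33)) (pfC_sound p15_10_0_34)) (pfC_sound p15_10_0_35)) (pfC_sound p15_10_0_36)) (pfC_sound p15_10_0_37)) (pfC_sound p15_10_0_38)) (pfC_sound p15_10_0_39)) (pfC_sound p15_10_0_40)) (pfC_sound p15_10_0_41)) (pfC_sound p15_10_0_42)) (pfC_sound p15_10_0_43)) (pfC_sound p15_10_0_44)) (pfC_sound p15_10_0_45)) (pfC_sound p15_10_0_46)) (pfC_sound p15_10_0_47)) (pfC_sound p15_10_0_48)) (pfC_sound p15_10_0_49)) (pfC_sound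
 p15_10_0_50)) (pfC_sound p15_10_0_51)) (pfC_sound p15_10_0_52)) (pfC_sound p15_10_0_53)) (pfC_sound p15_10_0_54)) (pfC_sound p15_10_0_55)) (pfC_sound p15_10_0_56)) (pfC_sound p15_10_0_57)) (pfC_sound p15_10_0_58)) (pfC_sound p15_10_0_59)) (pfC_sound p15_10_0_60)) (pfC_sound p15_10_0_61)) (pfC_sound p15_10_0_62)) (pfC_sound p15_10_0_63)) (pfC_sound p15_10_0_64)) (pfC_sound p15_10_0_65)) (pfC_sound p15_10_0_66)) (pfC_sound p15_10_0_67)) (pfC_sound p15_10_0_68)) (pfC_sound p15_10_0_69)) (pfC_sound p15_10_0_70)) (pfC_sound p15_10_0_71)) (pfC_sound p15_10_0_72)) (pfC_sound p15_10_0_73)) (pfC_sound p15_10_0_74)) (pfC_sound p15_10_0_75)) (pfC_sound p15_10_0_76)) (pfC_sound p15_10_0_77)) (pfC_sound p15_10_0_78)) (pfC_sound p15_10_0_79)) (pfC_sound p15_10_0_80)) (pfC_sound p15_10_0_81)) (pfC_sound p15_10_0_82)) (pfC_sound p15_10_0_83)) (pfC_sound p15_10_0_84)) (pfC_sound p15_10_0_85)) (pfC_sound p15_10_0_86)) (pfC_sound p15_10_0_87)) (pfC_sound p15_10_0_88))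 (pfC_sound p15_10_0_89)) (pfC_sound p15_10_0_90)) (pfC_sound p15_10_0_91)) (pfC_sound p15_10_0_92)) (pfC_sound p15_10_0_93)) (pfC_sound p15_10_0_94)) (pfC_sound p15_10_0_95)) (pfC_sound p15_10_0_96)) (pfC_sound p15_10_0_97)) (pfC_sound
 p15_10_0_98)) (pfC_sound p15_10_0_99)) (pfC_sound p15_10_0_100)) (pfC_sound p15_10_0_101)) (pfC_sound p15_10_0_102)) (pfC_sound p15_10_0_103)) (by decide +kernel)

def z15_10_0 : zOK yB15_10 (nat_lit 0) (nat_lit 0) (nat_lit 400) (nat_lit 26450756) (nat_lit 10078581) = true := by decide +kernel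
def g15_10_0 : gOK yB15_10.x P15_10 (nat_lit 1429) (q15_10 :: r15_10) (nat_lit 0) (nat_lit 0) (nat_lit 1) (nat_lit 400) (nat_lit 0) (nat_lit 11000000) (nat_lit 12712500) (nat_lit 12712500) [(nat_lit 800), (nat_lit 1400), (nat_lit 1530)] = true := by decide +kernel
def v15_10_0 : ivC P15_10 s15_10 w15_10 n15_10 (nat_lit 4) (nat_lit 5500) (nat_lit 0) (nat_lit 0) f136_1_0 f144_1_0 (nat_lit 1) (nat_lit 400) f136_1_400 f144_1_400 (nat_lit 26450756) (nat_lit 10078581) p15_10_0 = true := by decide +kernel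
def p15_10_1 : PF := (PF.cons (PF.cons (PF.cons (PF.cons (PF.leaf (nat_lit 2194385) (nat_lit 10705372) (nat_lit 56403440) (nat_lit 10705372) [(nat_lit 0), (nat_lit 0), (nat_lit 0), (nat_lit 0)]) (PF.cons (PF.leaf (nat_lit 2303620) (nat_lit 176962) (nat_lit 56215058) (nat_lit 10716792) [(nat_lit 176962), (nat_lit 0), (nat_lit 0), (nat_lit 0)]) (PF.cons (PF.leaf (nat_lit 2436361) (nat_lit 192764) (nat_lit 55993881) (nat_lit 10729403) [(nat_lit 192764), (nat_lit 0), (nat_lit 0), (nat_lit 0)]) (PF.cons (PF.leaf (nat_lit 2585801) (nat_lit 206922) (nat_lit 55745468) (nat_lit 10742576) [(nat_lit 206922), (nat_lit 0), (nat_lit 0), (nat_lit 0)]) (PF.cons (PF.leaf (nat_lit 2749665) (nat_lit 219823) (nat_lit 55473693) (nat_lit 10755824) [(nat_lit 219823), (nat_lit 0), (nat_lit 0), (nat_lit 0)]) (PF.cons PF.nil (PF.cons PF.nil PF.nil))))))) (PF.cons (PF.cons (PF.leaf (nat_lit 2660342) (nat_lit 1013440) (nat_lit 55337601) (nat_lit 10757770) [(nat_lit 0), (nat_lit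 1013440), (nat_lit 0), (nat_lit 0)]) (PF.cons (PF.leaf (nat_lit 2807263) (nat_lit 218604) (nat_lit 55085435) (nat_lit 10768408) [(nat_lit 218604), (nat_lit 1036364), (nat_lit 0), (nat_lit 0)]) (PF.cons (PF.leaf (nat_lit 2971917) (nat_lit 230946) (nat_lit
 54808613) (nat_lit 10778965) [(nat_lit 230946), (nat_lit 1059339), (nat_lit 0), (nat_lit 0)]) (PF.cons (PF.leaf (nat_lit 3149845) (nat_lit 242267) (nat_lit 54510995) (nat_lit 10789040) [(nat_lit 242267), (nat_lit 1081975), (nat_lit 0), (nat_lit 0)]) (PF.cons PF.nil PF.nil))))) (PF.cons (PF.cons (PF.leaf (nat_lit 3200141) (nat_lit 1095525) (nat_lit 54121805) (nat_lit 10795957) [(nat_lit 0), (nat_lit 1095525), (nat_lit 0), (nat_lit 0)]) (PF.cons (PF.leaf (nat_lit 3375956) (nat_lit 251483) (nat_lit 53822878) (nat_lit 10803099) [(nat_lit 251483), (nat_lit 1115676), (nat_lit 0), (nat_lit 0)]) (PF.cons (PF.leaf (nat_lit 3565693) (nat_lit 261583) (nat_lit 53505277) (nat_lit 10809346) [(nat_lit 261583), (nat_lit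 1135511), (nat_lit 0), (nat_lit 0)]) (PF.cons PF.nil PF.nil)))) (PF.cons (PF.cons (PF.leaf (nat_lit 3795317) (nat_lit 1164080) (nat_lit 52802476) (nat_lit 10814095) [(nat_lit 0), (nat_lit 1164080), (nat_lit 0), (nat_lit 0)]) (PF.cons PF.nil PF.nil)) (PF.cons PF.nil PF.nil))))) (PF.cons (PF.cons (PF.cons (PF.leaf (nat_lit 3208337) (nat_lit 2860540) (nat_lit 53462435) (nat_lit 10785836) [(nat_lit 0), (nat_lit 0), (nat_lit 2860540), (nat_lit 0)]) (PF.cons (PF.leaf (nat_lit 3364904)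
 (nat_lit 238303) (nat_lit 53197984) (nat_lit 10790161) [(nat_lit 238303), (nat_lit 0), (nat_lit 2882364), (nat_lit 0)]) (PF.cons (PF.leaf (nat_lit 3538349) (nat_lit 250157) (nat_lit 52909815) (nat_lit 10793822) [(nat_lit 250157), (nat_lit 0), (nat_lit 2904859), (nat_lit 0)]) (PF.cons (PF.leaf (nat_lit 3724599) (nat_lit 260868) (nat_lit 52602130) (nat_lit 10796548) [(nat_lit 260868), (nat_lit 0), (nat_lit 2927527), (nat_lit 0)]) (PF.cons PF.nil PF.nil))))) (PF.cons (PF.cons (PF.leaf (nat_lit 3766853) (nat_lit 1155229) (nat_lit 52213632) (nat_lit 10794096) [(nat_lit 0), (nat_lit 1155229), (nat_lit 2945854), (nat_lit 0)]) (PF.cons (PF.leaf (nat_lit 3949876) (nat_lit 268307) (nat_lit 51907903) (nat_lit 10794147) [(nat_lit 268307), (nat_lit 1172518), (nat_lit 2965936), (nat_lit 0)]) (PF.cons PF.nil (PF.cons PF.nil PF.nil)))) (PF.cons (PF.cons (PF.leaf (nat_lit 4372822) (nat_lit 1212351) (nat_lit 50883874) (nat_lit 10782121) [(nat_lit 0), (nat_lit 1212351),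 (nat_lit 3018114), (nat_lit 0)]) (PF.cons PF.nil PF.nil)) PF.nil))) (PF.cons (PF.cons (PF.cons (PF.leaf (nat_lit 4328070) (nat_lit 3014763) (nat_lit 50327239) (nat_lit 10752045) [(nat_lit 0), (nat_lit 0), (nat_lit 3014763), (nat_lit
 0)]) (PF.cons (PF.leaf (nat_lit 4516238) (nat_lit 282065) (nat_lit 50019702) (nat_lit 10745757) [(nat_lit 282065), (nat_lit 0), (nat_lit 3030643), (nat_lit 0)]) (PF.cons PF.nil PF.nil))) (PF.cons (PF.cons (PF.leaf (nat_lit 4939305) (nat_lit 1249456) (nat_lit 49005600) (nat_lit 10713929) [(nat_lit 0), (nat_lit 1249456), (nat_lit 3069913), (nat_lit 0)]) PF.nil) PF.nil)) (PF.cons PF.nil (PF.cons PF.nil PF.nil))))) (PF.cons (PF.cons (PF.cons (PF.cons (PF.leaf (nat_lit 4085553) (nat_lit 7397972) (nat_lit 49101986) (nat_lit 10608854) [(nat_lit 0), (nat_lit 0), (nat_lit 0), (nat_lit 7397972)]) (PF.cons (PF.leaf (nat_lit 4244230) (nat_lit 250704) (nat_lit 48852283) (nat_lit 10602771) [(nat_lit 250704), (nat_lit 0), (nat_lit 0),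 (nat_lit 7403053)]) (PF.cons (PF.leaf (nat_lit 4419138) (nat_lit 262233) (nat_lit 48581199) (nat_lit 10595380) [(nat_lit 262233), (nat_lit 0), (nat_lit 0), (nat_lit 7407765)]) (PF.cons (PF.leaf (nat_lit 4606025) (nat_lit 272483) (nat_lit 48292839) (nat_lit 10586635) [(nat_lit 272483), (nat_lit 0), (nat_lit 0), (nat_lit 7411886)]) (PF.cons (PF.leaf (nat_lit 4803199) (nat_lit 281724) (nat_lit 47990167) (nat_lit 10576497) [(nat_lit 281724), (nat_lit 0), (nat_lit 0),
 (nat_lit 7415251)]) (PF.cons PF.nil (PF.cons PF.nil PF.nil))))))) (PF.cons (PF.cons (PF.leaf (nat_lit 4637368) (nat_lit 1191659) (nat_lit 47935301) (nat_lit 10570769) [(nat_lit 0), (nat_lit 1191659), (nat_lit 0), (nat_lit 7411081)]) (PF.cons (PF.leaf (nat_lit 4820001) (nat_lit 278331) (nat_lit 47650844) (nat_lit 10560205) [(nat_lit 278331), (nat_lit 1206176), (nat_lit 0), (nat_lit 7413254)]) (PF.cons (PF.leaf (nat_lit 5014976) (nat_lit 287292) (nat_lit 47351184) (nat_lit 10548171) [(nat_lit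 287292), (nat_lit 1220216), (nat_lit 0), (nat_lit 7414654)]) (PF.cons PF.nil (PF.cons PF.nil PF.nil))))) (PF.cons (PF.cons (PF.leaf (nat_lit 5228611) (nat_lit 1237129) (nat_lit 46708689) (nat_lit 10515623) [(nat_lit 0), (nat_lit 1237129), (nat_lit 0), (nat_lit 7410242)]) (PF.cons (PF.leaf (nat_lit 5429015) (nat_lit 299918) (nat_lit 46401211) (nat_lit 10500376) [(nat_lit 299918), (nat_lit 1249198), (nat_lit 0), (nat_lit 7408909)]) (PF.cons PF.nil (PF.cons PF.nil PF.nil)))) (PF.cons (PF.cons (PF.leaf (nat_lit 5847098) (nat_lit 1273440) (nat_lit 45449527) (nat_lit 10443859) [(nat_lit 0), (nat_lit 1273440), (nat_lit 0), (nat_lit 7395105)]) (PF.cons PF.nil PF.nil)) (PF.cons PF.nil PF.nil)))))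
 (PF.cons (PF.cons (PF.cons (PF.leaf (nat_lit 5165241) (nat_lit 3031537) (nat_lit 46217239) (nat_lit 10473063) [(nat_lit 0), (nat_lit 0), (nat_lit 3031537), (nat_lit 7386973)]) (PF.cons (PF.leaf (nat_lit 5351110) (nat_lit 288680) (nat_lit 45934894) (nat_lit 10458049) [(nat_lit 288680), (nat_lit 0), (nat_lit 3042221), (nat_lit 7384967)]) (PF.cons (PF.leaf (nat_lit 5548614) (nat_lit 297092) (nat_lit 45638480) (nat_lit 10441461) [(nat_lit 297092), (nat_lit 0), (nat_lit 3052616), (nat_lit 7382068)]) (PF.cons PF.nil PF.nil)))) (PF.cons (PF.cons (PF.leaf (nat_lit 5757007) (nat_lit 1261249) (nat_lit 45012394) (nat_lit 10400213) [(nat_lit 0), (nat_lit 1261249), (nat_lit 3065749), (nat_lit 7369207)]) (PF.cons (PF.leaf (nat_lit 5958933) (nat_lit 308115) (nat_lit 44710497) (nat_lit 10380727) [(nat_lit 308115), (nat_lit 1271438), (nat_lit 3074204), (nat_lit 7363829)]) PF.nil)) (PF.cons PF.nil PF.nil))) (PF.cons (PF.cons (PF.cons (PF.leaf (nat_lit 6270991) (nat_lit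 3076850) (nat_lit 43378521) (nat_lit 10266544) [(nat_lit 0), (nat_lit 0), (nat_lit 3076850), (nat_lit 7310044)]) (PF.cons PF.nil PF.nil)) (PF.cons PF.nil PF.nil)) (PF.cons PF.nil (PF.cons PF.nil PF.nil))))) (PF.cons (PF.cons (PF.cons
 (PF.cons (PF.leaf (nat_lit 5922630) (nat_lit 7204569) (nat_lit 42571861) (nat_lit 10127811) [(nat_lit 0), (nat_lit 0), (nat_lit 0), (nat_lit 7204569)]) (PF.cons (PF.leaf (nat_lit 6104704) (nat_lit 290944) (nat_lit 42315644) (nat_lit 10107620) [(nat_lit 290944), (nat_lit 0), (nat_lit 0), (nat_lit 7197301)]) (PF.cons (PF.leaf (nat_lit 6297757) (nat_lit 298864) (nat_lit 42047123) (nat_lit 10085825) [(nat_lit 298864), (nat_lit 0), (nat_lit 0), (nat_lit 7189067)]) (PF.cons PF.nil PF.nil)))) (PF.cons (PF.cons (PF.leaf (nat_lit 6492997) (nat_lit 1257047) (nat_lit 41484526) (nat_lit 10034985) [(nat_lit 0), (nat_lit 1257047), (nat_lit 0), (nat_lit 7166127)]) (PF.cons (PF.leaf (nat_lit 6689457) (nat_lit 308416) (nat_lit 41212232)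 (nat_lit 10010913) [(nat_lit 308416), (nat_lit 1265403), (nat_lit 0), (nat_lit 7155924)]) PF.nil)) (PF.cons PF.nil PF.nil))) (PF.cons (PF.cons (PF.cons (PF.leaf (nat_lit 6971934) (nat_lit 3023785) (nat_lit 40028939) (nat_lit 9883045) [(nat_lit 0), (nat_lit 0), (nat_lit 3023785), (nat_lit 7086521)]) (PF.cons PF.nil PF.nil)) (PF.cons PF.nil PF.nil)) (PF.cons PF.nil PF.nil))) (PF.cons (PF.cons (PF.cons (PF.cons (PF.leaf (nat_lit 7607482) (nat_lit 6845553) (nat_lit
 37081514) (nat_lit 9490638) [(nat_lit 0), (nat_lit 0), (nat_lit 0), (nat_lit 6845553)]) (PF.cons PF.nil PF.nil)) (PF.cons PF.nil PF.nil)) (PF.cons PF.nil PF.nil)) (PF.cons PF.nil (PF.cons PF.nil (PF.cons PF.nil (PF.cons PF.nil PF.nil))))))))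

def p15_10_1_0 : pfC (piC [(nat_lit 43428061), (nat_lit 27333682), (nat_lit 20249535), (nat_lit 13625780)] (nat_lit 10078581)) p15_10_1 (nat_lit 4) (nat_lit 0) (nat_lit 1) = true := by decide +kernel
def p15_10_1_1 : pfC (piC [(nat_lit 43428061), (nat_lit 27333682), (nat_lit 20249535), (nat_lit 13625780)] (nat_lit 10078581)) p15_10_1 (nat_lit 4) (nat_lit 1) (nat_lit 2) = true := by decide +kernel
def p15_10_1_2 : pfC (piC [(nat_lit 43428061), (nat_lit 27333682), (nat_lit 20249535), (nat_lit 13625780)] (nat_lit 10078581)) p15_10_1 (nat_lit 4) (nat_lit 2) (nat_lit 3) = true := by decide +kernel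
def p15_10_1_3 : pfC (piC [(nat_lit 43428061), (nat_lit 27333682), (nat_lit 20249535), (nat_lit 13625780)] (nat_lit 10078581)) p15_10_1 (nat_lit 4) (nat_lit 3) (nat_lit 4) = true := by decide +kernel
def p15_10_1_4 : pfC (piC [(nat_lit 43428061), (nat_lit 27333682), (nat_lit 20249535), (nat_lit 13625780)] (nat_lit 10078581)) p15_10_1 (nat_lit 4) (nat_lit 4) (nat_lit 5) = true := by decide +kernel
def p15_10_1_5 : pfC (piC [(nat_lit 43428061), (nat_lit 27333682), (nat_lit 20249535), (nat_lit 13625780)] (nat_lit 10078581)) p15_10_1 (nat_lit 4) (nat_lit 5) (nat_lit 6) = true := by decide +kernel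
def p15_10_1_6 : pfC (piC [(nat_lit 43428061), (nat_lit 27333682), (nat_lit 20249535), (nat_lit 13625780)] (nat_lit 10078581)) p15_10_1 (nat_lit 4) (nat_lit 6) (nat_lit 7) = true := by decide +kernel
def p15_10_1_7 : pfC (piC [(nat_lit 43428061), (nat_lit 27333682), (nat_lit 20249535), (nat_lit 13625780)] (nat_lit 10078581)) p15_10_1 (nat_lit 4) (nat_lit 7) (nat_lit 8) = true := by decide +kernel
def p15_10_1_8 : pfC (piC [(nat_lit 43428061), (nat_lit 27333682), (nat_lit 20249535), (nat_lit 13625780)] (nat_lit 10078581)) p15_10_1 (nat_lit 4) (nat_lit 8) (nat_lit 9) = true := by decide +kernel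
def p15_10_1_9 : pfC (piC [(nat_lit 43428061), (nat_lit 27333682), (nat_lit 20249535), (nat_lit 13625780)] (nat_lit 10078581)) p15_10_1 (nat_lit 4) (nat_lit 9) (nat_lit 10) = true := by decide +kernel
def p15_10_1_10 : pfC (piC [(nat_lit 43428061), (nat_lit 27333682), (nat_lit 20249535), (nat_lit 13625780)] (nat_lit 10078581)) p15_10_1 (nat_lit 4) (nat_lit 10) (nat_lit 11) = true := by decide +kernel
def p15_10_1_11 : pfC (piC [(nat_lit 43428061), (nat_lit 27333682), (nat_lit 20249535), (nat_lit 13625780)] (nat_lit 10078581)) p15_10_1 (nat_lit 4) (nat_lit 11) (nat_lit 12) = true := by decide +kernel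
def p15_10_1_12 : pfC (piC [(nat_lit 43428061), (nat_lit 27333682), (nat_lit 20249535), (nat_lit 13625780)] (nat_lit 10078581)) p15_10_1 (nat_lit 4) (nat_lit 12) (nat_lit 13) = true := by decide +kernel
def p15_10_1_13 : pfC (piC [(nat_lit 43428061), (nat_lit 27333682), (nat_lit 20249535), (nat_lit 13625780)] (nat_lit 10078581)) p15_10_1 (nat_lit 4) (nat_lit 13) (nat_lit 14) = true := by decide +kernel
def p15_10_1_14 : pfC (piC [(nat_lit 43428061), (nat_lit 27333682), (nat_lit 20249535), (nat_lit 13625780)] (nat_lit 10078581)) p15_10_1 (nat_lit 4) (nat_lit 14) (nat_lit 15) = true := by decide +kernel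
def p15_10_1_15 : pfC (piC [(nat_lit 43428061), (nat_lit 27333682), (nat_lit 20249535), (nat_lit 13625780)] (nat_lit 10078581)) p15_10_1 (nat_lit 4) (nat_lit 15) (nat_lit 16) = true := by decide +kernel
def p15_10_1_16 : pfC (piC [(nat_lit 43428061), (nat_lit 27333682), (nat_lit 20249535), (nat_lit 13625780)] (nat_lit 10078581)) p15_10_1 (nat_lit 4) (nat_lit 16) (nat_lit 17) = true := by decide +kernel
def p15_10_1_17 : pfC (piC [(nat_lit 43428061), (nat_lit 27333682), (nat_lit 20249535), (nat_lit 13625780)] (nat_lit 10078581)) p15_10_1 (nat_lit 4) (nat_lit 17) (nat_lit 18) = true := by decide +kernel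
def p15_10_1_18 : pfC (piC [(nat_lit 43428061), (nat_lit 27333682), (nat_lit 20249535), (nat_lit 13625780)] (nat_lit 10078581)) p15_10_1 (nat_lit 4) (nat_lit 18) (nat_lit 19) = true := by decide +kernel
def p15_10_1_19 : pfC (piC [(nat_lit 43428061), (nat_lit 27333682), (nat_lit 20249535), (nat_lit 13625780)] (nat_lit 10078581)) p15_10_1 (nat_lit 4) (nat_lit 19) (nat_lit 20) = true := by decide +kernel
def p15_10_1_20 : pfC (piC [(nat_lit 43428061), (nat_lit 27333682), (nat_lit 20249535), (nat_lit 13625780)] (nat_lit 10078581)) p15_10_1 (nat_lit 4) (nat_lit 20) (nat_lit 21) = true := by decide +kernel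
def p15_10_1_21 : pfC (piC [(nat_lit 43428061), (nat_lit 27333682), (nat_lit 20249535), (nat_lit 13625780)] (nat_lit 10078581)) p15_10_1 (nat_lit 4) (nat_lit 21) (nat_lit 22) = true := by decide +kernel
def p15_10_1_22 : pfC (piC [(nat_lit 43428061), (nat_lit 27333682), (nat_lit 20249535), (nat_lit 13625780)] (nat_lit 10078581)) p15_10_1 (nat_lit 4) (nat_lit 22) (nat_lit 23) = true := by decide +kernel
def p15_10_1_23 : pfC (piC [(nat_lit 43428061), (nat_lit 27333682), (nat_lit 20249535), (nat_lit 13625780)] (nat_lit 10078581)) p15_10_1 (nat_lit 4) (nat_lit 23) (nat_lit 24) = true := by decide +kernel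
def p15_10_1_24 : pfC (piC [(nat_lit 43428061), (nat_lit 27333682), (nat_lit 20249535), (nat_lit 13625780)] (nat_lit 10078581)) p15_10_1 (nat_lit 4) (nat_lit 24) (nat_lit 25) = true := by decide +kernel
def p15_10_1_25 : pfC (piC [(nat_lit 43428061), (nat_lit 27333682), (nat_lit 20249535), (nat_lit 13625780)] (nat_lit 10078581)) p15_10_1 (nat_lit 4) (nat_lit 25) (nat_lit 26) = true := by decide +kernel
def p15_10_1_26 : pfC (piC [(nat_lit 43428061), (nat_lit 27333682), (nat_lit 20249535), (nat_lit 13625780)] (nat_lit 10078581)) p15_10_1 (nat_lit 4) (nat_lit 26) (nat_lit 27) = true := by decide +kernel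
def p15_10_1_27 : pfC (piC [(nat_lit 43428061), (nat_lit 27333682), (nat_lit 20249535), (nat_lit 13625780)] (nat_lit 10078581)) p15_10_1 (nat_lit 4) (nat_lit 27) (nat_lit 28) = true := by decide +kernel
def p15_10_1_28 : pfC (piC [(nat_lit 43428061), (nat_lit 27333682), (nat_lit 20249535), (nat_lit 13625780)] (nat_lit 10078581)) p15_10_1 (nat_lit 4) (nat_lit 28) (nat_lit 29) = true := by decide +kernel
def p15_10_1_29 : pfC (piC [(nat_lit 43428061), (nat_lit 27333682), (nat_lit 20249535), (nat_lit 13625780)] (nat_lit 10078581)) p15_10_1 (nat_lit 4) (nat_lit 29) (nat_lit 30) = true := by decide +kernel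
def p15_10_1_30 : pfC (piC [(nat_lit 43428061), (nat_lit 27333682), (nat_lit 20249535), (nat_lit 13625780)] (nat_lit 10078581)) p15_10_1 (nat_lit 4) (nat_lit 30) (nat_lit 31) = true := by decide +kernel
def p15_10_1_31 : pfC (piC [(nat_lit 43428061), (nat_lit 27333682), (nat_lit 20249535), (nat_lit 13625780)] (nat_lit 10078581)) p15_10_1 (nat_lit 4) (nat_lit 31) (nat_lit 32) = true := by decide +kernel
def p15_10_1_32 : pfC (piC [(nat_lit 43428061), (nat_lit 27333682), (nat_lit 20249535), (nat_lit 13625780)] (nat_lit 10078581)) p15_10_1 (nat_lit 4) (nat_lit 32) (nat_lit 33) = true := by decide +kernel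
def p15_10_1_33 : pfC (piC [(nat_lit 43428061), (nat_lit 27333682), (nat_lit 20249535), (nat_lit 13625780)] (nat_lit 10078581)) p15_10_1 (nat_lit 4) (nat_lit 33) (nat_lit 34) = true := by decide +kernel
def p15_10_1_34 : pfC (piC [(nat_lit 43428061), (nat_lit 27333682), (nat_lit 20249535), (nat_lit 13625780)] (nat_lit 10078581)) p15_10_1 (nat_lit 4) (nat_lit 34) (nat_lit 35) = true := by decide +kernel
def p15_10_1_35 : pfC (piC [(nat_lit 43428061), (nat_lit 27333682), (nat_lit 20249535), (nat_lit 13625780)] (nat_lit 10078581)) p15_10_1 (nat_lit 4) (nat_lit 35) (nat_lit 36) = true := by decide +kernel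
def p15_10_1_36 : pfC (piC [(nat_lit 43428061), (nat_lit 27333682), (nat_lit 20249535), (nat_lit 13625780)] (nat_lit 10078581)) p15_10_1 (nat_lit 4) (nat_lit 36) (nat_lit 37) = true := by decide +kernel
def p15_10_1_37 : pfC (piC [(nat_lit 43428061), (nat_lit 27333682), (nat_lit 20249535), (nat_lit 13625780)] (nat_lit 10078581)) p15_10_1 (nat_lit 4) (nat_lit 37) (nat_lit 38) = true := by decide +kernel
def p15_10_1_38 : pfC (piC [(nat_lit 43428061), (nat_lit 27333682), (nat_lit 20249535), (nat_lit 13625780)] (nat_lit 10078581)) p15_10_1 (nat_lit 4) (nat_lit 38) (nat_lit 39) = true := by decide +kernel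
def p15_10_1_39 : pfC (piC [(nat_lit 43428061), (nat_lit 27333682), (nat_lit 20249535), (nat_lit 13625780)] (nat_lit 10078581)) p15_10_1 (nat_lit 4) (nat_lit 39) (nat_lit 40) = true := by decide +kernel
def p15_10_1_40 : pfC (piC [(nat_lit 43428061), (nat_lit 27333682), (nat_lit 20249535), (nat_lit 13625780)] (nat_lit 10078581)) p15_10_1 (nat_lit 4) (nat_lit 40) (nat_lit 41) = true := by decide +kernel
def p15_10_1_41 : pfC (piC [(nat_lit 43428061), (nat_lit 27333682), (nat_lit 20249535), (nat_lit 13625780)] (nat_lit 10078581)) p15_10_1 (nat_lit 4) (nat_lit 41) (nat_lit 42) = true := by decide +kernel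
def p15_10_1_42 : pfC (piC [(nat_lit 43428061), (nat_lit 27333682), (nat_lit 20249535), (nat_lit 13625780)] (nat_lit 10078581)) p15_10_1 (nat_lit 4) (nat_lit 42) (nat_lit 43) = true := by decide +kernel
def p15_10_1_43 : pfC (piC [(nat_lit 43428061), (nat_lit 27333682), (nat_lit 20249535), (nat_lit 13625780)] (nat_lit 10078581)) p15_10_1 (nat_lit 4) (nat_lit 43) (nat_lit 44) = true := by decide +kernel
def p15_10_1_44 : pfC (piC [(nat_lit 43428061), (nat_lit 27333682), (nat_lit 20249535), (nat_lit 13625780)] (nat_lit 10078581)) p15_10_1 (nat_lit 4) (nat_lit 44) (nat_lit 45) = true := by decide +kernel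
def p15_10_1_45 : pfC (piC [(nat_lit 43428061), (nat_lit 27333682), (nat_lit 20249535), (nat_lit 13625780)] (nat_lit 10078581)) p15_10_1 (nat_lit 4) (nat_lit 45) (nat_lit 46) = true := by decide +kernel
def p15_10_1_46 : pfC (piC [(nat_lit 43428061), (nat_lit 27333682), (nat_lit 20249535), (nat_lit 13625780)] (nat_lit 10078581)) p15_10_1 (nat_lit 4) (nat_lit 46) (nat_lit 47) = true := by decide +kernel
theorem p15_10_1_T : PfS (PiF n15_10.reverse (nat_lit 10078581)) p15_10_1 (nat_lit 4) [] 0 :=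
  pftab_of (los := [(nat_lit 43428061), (nat_lit 27333682), (nat_lit 20249535), (nat_lit 13625780)]) (by decide +kernel) (hi := (nat_lit 47)) (PfP.trans (PfP.trans (PfP.trans (PfP.trans (PfP.trans (PfP.trans (PfP.trans (PfP.trans (PfP.trans (PfP.trans (PfP.trans (PfP.trans (PfP.trans (PfP.trans (PfP.trans (PfP.trans (PfP.trans (PfP.trans (PfP.trans (PfP.trans (PfP.trans (PfP.trans (PfP.trans (PfP.trans (PfP.trans (PfP.trans (PfP.trans (PfP.trans (PfP.trans (PfP.trans (PfP.trans (PfP.trans (PfP.trans (PfP.trans (PfP.trans (PfP.trans (PfP.trans (PfP.trans (PfP.trans (PfP.trans (PfP.trans (PfP.trans (PfP.trans (PfP.trans (PfP.trans (PfP.trans (pfC_sound p15_10_1_0) (pfC_sound p15_10_1_1)) (pfC_sound p15_10_1_2)) (pfC_sound p15_10_1_3)) (pfC_sound p15_10_1_4)) (pfC_sound p15_10_1_5)) (pfC_sound p15_10_1_6)) (pfC_sound p15_10_1_7)) (pfC_sound p15_10_1_8)) (pfC_sound p15_10_1_9)) (pfC_sound p15_10_1_10)) (pfC_sound p15_10_1_11)) (pfC_sound p15_10_1_12)) (pfC_sound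 p15_10_1_13)) (pfC_sound p15_10_1_14)) (pfC_sound p15_10_1_15)) (pfC_sound p15_10_1_16)) (pfC_sound p15_10_1_17)) (pfC_sound p15_10_1_18)) (pfC_sound p15_10_1_19)) (pfC_sound p15_10_1_20)) (pfC_sound p15_10_1_21)) (pfC_sound p15_10_1_22)) (pfC_sound p15_10_1_23)) (pfC_sound p15_10_1_24)) (pfC_sound p15_10_1_25)) (pfC_sound p15_10_1_26)) (pfC_sound p15_10_1_27))
 (pfC_sound p15_10_1_28)) (pfC_sound p15_10_1_29)) (pfC_sound p15_10_1_30)) (pfC_sound p15_10_1_31)) (pfC_sound p15_10_1_32)) (pfC_sound p15_10_1_33)) (pfC_sound p15_10_1_34)) (pfC_sound p15_10_1_35)) (pfC_sound p15_10_1_36)) (pfC_sound p15_10_1_37)) (pfC_sound p15_10_1_38)) (pfC_sound p15_10_1_39)) (pfC_sound p15_10_1_40)) (pfC_sound p15_10_1_41)) (pfC_sound p15_10_1_42)) (pfC_sound p15_10_1_43)) (pfC_sound p15_10_1_44)) (pfC_sound p15_10_1_45)) (pfC_sound p15_10_1_46)) (by decide +kernel)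

def z15_10_1 : zOK yB15_10 (nat_lit 1) (nat_lit 400) (nat_lit 600) (nat_lit 10078581) (nat_lit 6539266) = true := by decide +kernel
def g15_10_1 : gOK yB15_10.x P15_10 (nat_lit 1429) (q15_10 :: r15_10) (nat_lit 1) (nat_lit 400) (nat_lit 2) (nat_lit 600) (nat_lit 11000000) (nat_lit 17850000) (nat_lit 12712500) (nat_lit 12712500) [(nat_lit 800), (nat_lit 1040)] = true := by decide +kernel
def v15_10_1 : ivC P15_10 s15_10 w15_10 n15_10 (nat_lit 4) (nat_lit 5100) (nat_lit 1) (nat_lit 400) f136_1_400 f144_1_400 (nat_lit 2) (nat_lit 600) f136_1_600 f144_1_600 (nat_lit 10078581) (nat_lit 6539266) p15_10_1 = true := by decide +kernel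
def p15_10_2 : PF := (PF.cons (PF.cons (PF.cons (PF.cons (PF.leaf (nat_lit 2792094) (nat_lit 16540035) (nat_lit 50568777) (nat_lit 16540035) [(nat_lit 0), (nat_lit 0), (nat_lit 0), (nat_lit 0)]) (PF.cons (PF.leaf (nat_lit 2898522) (nat_lit 176568) (nat_lit 50406162) (nat_lit 16526082) [(nat_lit 176568), (nat_lit 0), (nat_lit 0), (nat_lit 0)]) (PF.cons (PF.leaf (nat_lit 3027729) (nat_lit 192079) (nat_lit 50215436) (nat_lit 16509217) [(nat_lit 192079), (nat_lit 0), (nat_lit 0), (nat_lit 0)]) (PF.cons (PF.leaf (nat_lit 3172907) (nat_lit 205892) (nat_lit 50001466) (nat_lit 16489669) [(nat_lit 205892), (nat_lit 0), (nat_lit 0), (nat_lit 0)]) (PF.cons (PF.leaf (nat_lit 3331786) (nat_lit 218398) (nat_lit 49767652) (nat_lit 16467565) [(nat_lit 218398), (nat_lit 0), (nat_lit 0), (nat_lit 0)]) (PF.cons (PF.leaf (nat_lit 3503028) (nat_lit 229850) (nat_lit 49516580) (nat_lit 16442979) [(nat_lit 229850), (nat_lit 0), (nat_lit 0), (nat_lit 0)]) (PF.cons PF.nil (PF.cons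 PF.nil (PF.cons PF.nil PF.nil))))))))) (PF.cons (PF.cons (PF.leaf (nat_lit 3240283) (nat_lit 1003421) (nat_lit 49651754) (nat_lit 16453636) [(nat_lit 0), (nat_lit 1003421), (nat_lit 0), (nat_lit 0)]) (PF.cons (PF.leaf (nat_lit 3382374) (nat_lit
 216722) (nat_lit 49435193) (nat_lit 16432084) [(nat_lit 216722), (nat_lit 1024812), (nat_lit 0), (nat_lit 0)]) (PF.cons (PF.leaf (nat_lit 3541284) (nat_lit 228638) (nat_lit 49197710) (nat_lit 16407716) [(nat_lit 228638), (nat_lit 1046109), (nat_lit 0), (nat_lit 0)]) (PF.cons (PF.leaf (nat_lit 3712959) (nat_lit 239496) (nat_lit 48942664) (nat_lit 16380705) [(nat_lit 239496), (nat_lit 1066953), (nat_lit 0), (nat_lit 0)]) (PF.cons (PF.leaf (nat_lit 3895597) (nat_lit 249493) (nat_lit 48672533) (nat_lit 16351159) [(nat_lit 249493), (nat_lit 1087147), (nat_lit 0), (nat_lit 0)]) (PF.cons PF.nil (PF.cons PF.nil PF.nil))))))) (PF.cons (PF.cons (PF.leaf (nat_lit 3756070) (nat_lit 1078360) (nat_lit 48610636) (nat_lit 16341456)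 [(nat_lit 0), (nat_lit 1078360), (nat_lit 0), (nat_lit 0)]) (PF.cons (PF.leaf (nat_lit 3925006) (nat_lit 247810) (nat_lit 48355081) (nat_lit 16312385) [(nat_lit 247810), (nat_lit 1096767), (nat_lit 0), (nat_lit 0)]) (PF.cons (PF.leaf (nat_lit 4107098) (nat_lit 257410) (nat_lit 48083821) (nat_lit 16280616) [(nat_lit 257410), (nat_lit 1114776), (nat_lit 0), (nat_lit 0)]) (PF.cons (PF.leaf (nat_lit 4299300) (nat_lit 266267) (nat_lit 47799261) (nat_lit 16246292) [(nat_lit
 266267), (nat_lit 1132228), (nat_lit 0), (nat_lit 0)]) (PF.cons PF.nil PF.nil))))) (PF.cons (PF.cons (PF.leaf (nat_lit 4321529) (nat_lit 1139630) (nat_lit 47485503) (nat_lit 16204419) [(nat_lit 0), (nat_lit 1139630), (nat_lit 0), (nat_lit 0)]) (PF.cons (PF.leaf (nat_lit 4511141) (nat_lit 272846) (nat_lit 47201972) (nat_lit 16168099) [(nat_lit 272846), (nat_lit 1155297), (nat_lit 0), (nat_lit 0)]) (PF.cons PF.nil (PF.cons PF.nil PF.nil)))) (PF.cons (PF.cons (PF.leaf (nat_lit 4923438) (nat_lit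 1189776) (nat_lit 46305639) (nat_lit 16044067) [(nat_lit 0), (nat_lit 1189776), (nat_lit 0), (nat_lit 0)]) (PF.cons PF.nil PF.nil)) (PF.cons PF.nil PF.nil)))))) (PF.cons (PF.cons (PF.cons (PF.leaf (nat_lit 3752524) (nat_lit 2794228) (nat_lit 48053423) (nat_lit 16261161) [(nat_lit 0), (nat_lit 0), (nat_lit 2794228), (nat_lit 0)]) (PF.cons (PF.leaf (nat_lit 3902817) (nat_lit 234276) (nat_lit 47827685) (nat_lit 16234048) [(nat_lit 234276), (nat_lit 0), (nat_lit 2812802), (nat_lit 0)]) (PF.cons (PF.leaf (nat_lit 4069282) (nat_lit 245644) (nat_lit 47581890) (nat_lit 16203801) [(nat_lit 245644), (nat_lit 0), (nat_lit 2831832), (nat_lit 0)]) (PF.cons (PF.leaf (nat_lit 4247897) (nat_lit 255854)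
 (nat_lit 47319650) (nat_lit 16170710) [(nat_lit 255854), (nat_lit 0), (nat_lit 2850889), (nat_lit 0)]) (PF.cons (PF.leaf (nat_lit 4436802) (nat_lit 265145) (nat_lit 47043583) (nat_lit 16134970) [(nat_lit 265145), (nat_lit 0), (nat_lit 2869677), (nat_lit 0)]) PF.nil))))) (PF.cons (PF.cons (PF.leaf (nat_lit 4283242) (nat_lit 1128811) (nat_lit 46989833) (nat_lit 16125134) [(nat_lit 0), (nat_lit 1128811), (nat_lit 2865033), (nat_lit 0)]) (PF.cons (PF.leaf (nat_lit 4458211) (nat_lit 262473) (nat_lit 46729678) (nat_lit 16090427) [(nat_lit 262473), (nat_lit 1144488), (nat_lit 2881745), (nat_lit 0)]) (PF.cons (PF.leaf (nat_lit 4645575) (nat_lit 271469) (nat_lit 46454910) (nat_lit 16052902) [(nat_lit 271469), (nat_lit 1159755), (nat_lit 2898305), (nat_lit 0)]) (PF.cons PF.nil PF.nil)))) (PF.cons (PF.cons (PF.leaf (nat_lit 4856724) (nat_lit 1179459) (nat_lit 45860402) (nat_lit 15965914) [(nat_lit 0), (nat_lit 1179459), (nat_lit 2923577), (nat_lit 0)]) (PF.cons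 (PF.leaf (nat_lit 5050237) (nat_lit 284904) (nat_lit 45576470) (nat_lit 15924255) [(nat_lit 284904), (nat_lit 1192710), (nat_lit 2937762), (nat_lit 0)]) PF.nil)) (PF.cons PF.nil (PF.cons PF.nil PF.nil))))) (PF.cons (PF.cons (PF.cons
 (PF.leaf (nat_lit 4804138) (nat_lit 2916526) (nat_lit 45393031) (nat_lit 15882728) [(nat_lit 0), (nat_lit 0), (nat_lit 2916526), (nat_lit 0)]) (PF.cons (PF.leaf (nat_lit 4983345) (nat_lit 274357) (nat_lit 45132058) (nat_lit 15843246) [(nat_lit 274357), (nat_lit 0), (nat_lit 2929575), (nat_lit 0)]) (PF.cons (PF.leaf (nat_lit 5174387) (nat_lit 282808) (nat_lit 44857499) (nat_lit 15800891) [(nat_lit 282808), (nat_lit 0), (nat_lit 2942402), (nat_lit 0)]) (PF.cons PF.nil PF.nil)))) (PF.cons (PF.cons (PF.leaf (nat_lit 5381312) (nat_lit 1209623) (nat_lit 44273039) (nat_lit 15705289) [(nat_lit 0), (nat_lit 1209623), (nat_lit 2960430), (nat_lit 0)]) (PF.cons PF.nil PF.nil)) (PF.cons PF.nil PF.nil))) (PF.cons (PF.cons (PF.cons (PF.leaf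 (nat_lit 5893577) (nat_lit 2982456) (nat_lit 42733449) (nat_lit 15427992) [(nat_lit 0), (nat_lit 0), (nat_lit 2982456), (nat_lit 0)]) (PF.cons PF.nil PF.nil)) (PF.cons PF.nil PF.nil)) (PF.cons PF.nil PF.nil))))) (PF.cons (PF.cons (PF.cons (PF.cons (PF.leaf (nat_lit 4551262) (nat_lit 7078122) (nat_lit 44382447) (nat_lit 15648243) [(nat_lit 0), (nat_lit 0), (nat_lit 0), (nat_lit 7078122)]) (PF.cons (PF.leaf (nat_lit 4702831) (nat_lit 243679) (nat_lit 44170195)
 (nat_lit 15615021) [(nat_lit 243679), (nat_lit 0), (nat_lit 0), (nat_lit 7079915)]) (PF.cons (PF.leaf (nat_lit 4869979) (nat_lit 254696) (nat_lit 43939831) (nat_lit 15578391) [(nat_lit 254696), (nat_lit 0), (nat_lit 0), (nat_lit 7081196)]) (PF.cons (PF.leaf (nat_lit 5048402) (nat_lit 264450) (nat_lit 43694846) (nat_lit 15538789) [(nat_lit 264450), (nat_lit 0), (nat_lit 0), (nat_lit 7081824)]) (PF.cons (PF.leaf (nat_lit 5236487) (nat_lit 273209) (nat_lit 43437761) (nat_lit 15496521) [(nat_lit 273209),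 (nat_lit 0), (nat_lit 0), (nat_lit 7081694)]) (PF.cons PF.nil (PF.cons PF.nil PF.nil))))))) (PF.cons (PF.cons (PF.leaf (nat_lit 5074537) (nat_lit 1153156) (nat_lit 43392012) (nat_lit 15486395) [(nat_lit 0), (nat_lit 1153156), (nat_lit 0), (nat_lit 7077247)]) (PF.cons (PF.leaf (nat_lit 5248554) (nat_lit 269695) (nat_lit 43150448) (nat_lit 15445897) [(nat_lit 269695), (nat_lit 1166441), (nat_lit 0), (nat_lit 7076329)]) (PF.cons (PF.leaf (nat_lit 5434281) (nat_lit 278184) (nat_lit 42896012) (nat_lit 15402563) [(nat_lit 278184), (nat_lit 1179232), (nat_lit 0), (nat_lit 7074635)]) (PF.cons (PF.leaf (nat_lit 5628768) (nat_lit 285837) (nat_lit 42631051) (nat_lit 15356704) [(nat_lit 285837),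
 (nat_lit 1191443), (nat_lit 0), (nat_lit 7072099)]) (PF.cons PF.nil PF.nil))))) (PF.cons (PF.cons (PF.leaf (nat_lit 5634019) (nat_lit 1193971) (nat_lit 42351382) (nat_lit 15304992) [(nat_lit 0), (nat_lit 1193971), (nat_lit 0), (nat_lit 7064493)]) (PF.cons (PF.leaf (nat_lit 5824589) (nat_lit 289817) (nat_lit 42090370) (nat_lit 15258328) [(nat_lit 289817), (nat_lit 1204889), (nat_lit 0), (nat_lit 7060517)]) (PF.cons PF.nil (PF.cons PF.nil PF.nil)))) (PF.cons (PF.cons (PF.leaf (nat_lit 6218419) (nat_lit 1226159) (nat_lit 41283271) (nat_lit 15107132) [(nat_lit 0), (nat_lit 1226159), (nat_lit 0), (nat_lit 7039930)]) (PF.cons PF.nil PF.nil)) (PF.cons PF.nil PF.nil))))) (PF.cons (PF.cons (PF.cons (PF.leaf (nat_lit 5566498) (nat_lit 2912984) (nat_lit 41938218) (nat_lit 15218578) [(nat_lit 0), (nat_lit 0), (nat_lit 2912984), (nat_lit 7039030)]) (PF.cons (PF.leaf (nat_lit 5743339) (nat_lit 278771) (nat_lit 41698466) (nat_lit 15174866) [(nat_lit 278771), (nat_lit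 0), (nat_lit 2921887), (nat_lit 7034820)]) (PF.cons (PF.leaf (nat_lit 5931286) (nat_lit 286734) (nat_lit 41446764) (nat_lit 15128339) [(nat_lit 286734), (nat_lit 0), (nat_lit 2930487), (nat_lit 7029752)]) (PF.cons PF.nil PF.nil))))
 (PF.cons (PF.cons (PF.leaf (nat_lit 6126139) (nat_lit 1213784) (nat_lit 40915816) (nat_lit 15025679) [(nat_lit 0), (nat_lit 1213784), (nat_lit 2940389), (nat_lit 7013143)]) (PF.cons (PF.leaf (nat_lit 6318011) (nat_lit 296894) (nat_lit 40659387) (nat_lit 14976248) [(nat_lit 296894), (nat_lit 1223006), (nat_lit 2947253), (nat_lit 7006022)]) PF.nil)) (PF.cons PF.nil PF.nil))) (PF.cons (PF.cons (PF.cons (PF.leaf (nat_lit 6605615) (nat_lit 2945446) (nat_lit 39531488) (nat_lit 14738072) [(nat_lit 0), (nat_lit 0), (nat_lit 2945446), (nat_lit 6948358)]) (PF.cons (PF.leaf (nat_lit 6797861) (nat_lit 302376) (nat_lit 39281048) (nat_lit 14686559) [(nat_lit 302376), (nat_lit 0), (nat_lit 2950109), (nat_lit 6938609)]) PF.nil)) (PF.cons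 PF.nil PF.nil)) (PF.cons PF.nil (PF.cons PF.nil PF.nil))))) (PF.cons (PF.cons (PF.cons (PF.cons (PF.leaf (nat_lit 6263241) (nat_lit 6850482) (nat_lit 38862359) (nat_lit 14545489) [(nat_lit 0), (nat_lit 0), (nat_lit 0), (nat_lit 6850482)]) (PF.cons (PF.leaf (nat_lit 6436599) (nat_lit 279880) (nat_lit 38643878) (nat_lit 14500108) [(nat_lit 279880), (nat_lit 0), (nat_lit 0), (nat_lit 6842472)]) (PF.cons (PF.leaf (nat_lit 6620493) (nat_lit 287399) (nat_lit 38414849)
 (nat_lit 14452033) [(nat_lit 287399), (nat_lit 0), (nat_lit 0), (nat_lit 6833565)]) (PF.cons PF.nil PF.nil)))) (PF.cons (PF.cons (PF.leaf (nat_lit 6804086) (nat_lit 1206088) (nat_lit 37935408) (nat_lit 14347595) [(nat_lit 0), (nat_lit 1206088), (nat_lit 0), (nat_lit 6809860)]) (PF.cons (PF.leaf (nat_lit 6991055) (nat_lit 296299) (nat_lit 37702947) (nat_lit 14297212) [(nat_lit 296299), (nat_lit 1213766), (nat_lit 0), (nat_lit 6799293)]) PF.nil)) (PF.cons PF.nil PF.nil))) (PF.cons (PF.cons (PF.cons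 (PF.leaf (nat_lit 7253856) (nat_lit 2889796) (nat_lit 36695007) (nat_lit 14061481) [(nat_lit 0), (nat_lit 0), (nat_lit 2889796), (nat_lit 6731264)]) (PF.cons PF.nil PF.nil)) (PF.cons PF.nil PF.nil)) (PF.cons PF.nil PF.nil))) (PF.cons (PF.cons (PF.cons (PF.cons (PF.leaf (nat_lit 7847731) (nat_lit 6504979) (nat_lit 34180996) (nat_lit 13412878) [(nat_lit 0), (nat_lit 0), (nat_lit 0), (nat_lit 6504979)]) (PF.cons PF.nil PF.nil)) (PF.cons PF.nil PF.nil)) (PF.cons PF.nil PF.nil)) (PF.cons PF.nil (PF.cons PF.nil PF.nil))))))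

def p15_10_2_0 : pfC (piC [(nat_lit 43428061), (nat_lit 27333682), (nat_lit 20249535), (nat_lit 13625780)] (nat_lit 6539266)) p15_10_2 (nat_lit 4) (nat_lit 0) (nat_lit 1) = true := by decide +kernel
def p15_10_2_1 : pfC (piC [(nat_lit 43428061), (nat_lit 27333682), (nat_lit 20249535), (nat_lit 13625780)] (nat_lit 6539266)) p15_10_2 (nat_lit 4) (nat_lit 1) (nat_lit 2) = true := by decide +kernel
def p15_10_2_2 : pfC (piC [(nat_lit 43428061), (nat_lit 27333682), (nat_lit 20249535), (nat_lit 13625780)] (nat_lit 6539266)) p15_10_2 (nat_lit 4) (nat_lit 2) (nat_lit 3) = true := by decide +kernel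
def p15_10_2_3 : pfC (piC [(nat_lit 43428061), (nat_lit 27333682), (nat_lit 20249535), (nat_lit 13625780)] (nat_lit 6539266)) p15_10_2 (nat_lit 4) (nat_lit 3) (nat_lit 4) = true := by decide +kernel
def p15_10_2_4 : pfC (piC [(nat_lit 43428061), (nat_lit 27333682), (nat_lit 20249535), (nat_lit 13625780)] (nat_lit 6539266)) p15_10_2 (nat_lit 4) (nat_lit 4) (nat_lit 5) = true := by decide +kernel
def p15_10_2_5 : pfC (piC [(nat_lit 43428061), (nat_lit 27333682), (nat_lit 20249535), (nat_lit 13625780)] (nat_lit 6539266)) p15_10_2 (nat_lit 4) (nat_lit 5) (nat_lit 6) = true := by decide +kernel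
def p15_10_2_6 : pfC (piC [(nat_lit 43428061), (nat_lit 27333682), (nat_lit 20249535), (nat_lit 13625780)] (nat_lit 6539266)) p15_10_2 (nat_lit 4) (nat_lit 6) (nat_lit 7) = true := by decide +kernel
def p15_10_2_7 : pfC (piC [(nat_lit 43428061), (nat_lit 27333682), (nat_lit 20249535), (nat_lit 13625780)] (nat_lit 6539266)) p15_10_2 (nat_lit 4) (nat_lit 7) (nat_lit 8) = true := by decide +kernel
def p15_10_2_8 : pfC (piC [(nat_lit 43428061), (nat_lit 27333682), (nat_lit 20249535), (nat_lit 13625780)] (nat_lit 6539266)) p15_10_2 (nat_lit 4) (nat_lit 8) (nat_lit 9) = true := by decide +kernel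
def p15_10_2_9 : pfC (piC [(nat_lit 43428061), (nat_lit 27333682), (nat_lit 20249535), (nat_lit 13625780)] (nat_lit 6539266)) p15_10_2 (nat_lit 4) (nat_lit 9) (nat_lit 10) = true := by decide +kernel
def p15_10_2_10 : pfC (piC [(nat_lit 43428061), (nat_lit 27333682), (nat_lit 20249535), (nat_lit 13625780)] (nat_lit 6539266)) p15_10_2 (nat_lit 4) (nat_lit 10) (nat_lit 11) = true := by decide +kernel
def p15_10_2_11 : pfC (piC [(nat_lit 43428061), (nat_lit 27333682), (nat_lit 20249535), (nat_lit 13625780)] (nat_lit 6539266)) p15_10_2 (nat_lit 4) (nat_lit 11) (nat_lit 12) = true := by decide +kernel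
def p15_10_2_12 : pfC (piC [(nat_lit 43428061), (nat_lit 27333682), (nat_lit 20249535), (nat_lit 13625780)] (nat_lit 6539266)) p15_10_2 (nat_lit 4) (nat_lit 12) (nat_lit 13) = true := by decide +kernel
def p15_10_2_13 : pfC (piC [(nat_lit 43428061), (nat_lit 27333682), (nat_lit 20249535), (nat_lit 13625780)] (nat_lit 6539266)) p15_10_2 (nat_lit 4) (nat_lit 13) (nat_lit 14) = true := by decide +kernel
def p15_10_2_14 : pfC (piC [(nat_lit 43428061), (nat_lit 27333682), (nat_lit 20249535), (nat_lit 13625780)] (nat_lit 6539266)) p15_10_2 (nat_lit 4) (nat_lit 14) (nat_lit 15) = true := by decide +kernel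
def p15_10_2_15 : pfC (piC [(nat_lit 43428061), (nat_lit 27333682), (nat_lit 20249535), (nat_lit 13625780)] (nat_lit 6539266)) p15_10_2 (nat_lit 4) (nat_lit 15) (nat_lit 16) = true := by decide +kernel
def p15_10_2_16 : pfC (piC [(nat_lit 43428061), (nat_lit 27333682), (nat_lit 20249535), (nat_lit 13625780)] (nat_lit 6539266)) p15_10_2 (nat_lit 4) (nat_lit 16) (nat_lit 17) = true := by decide +kernel
def p15_10_2_17 : pfC (piC [(nat_lit 43428061), (nat_lit 27333682), (nat_lit 20249535), (nat_lit 13625780)] (nat_lit 6539266)) p15_10_2 (nat_lit 4) (nat_lit 17) (nat_lit 18) = true := by decide +kernel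
def p15_10_2_18 : pfC (piC [(nat_lit 43428061), (nat_lit 27333682), (nat_lit 20249535), (nat_lit 13625780)] (nat_lit 6539266)) p15_10_2 (nat_lit 4) (nat_lit 18) (nat_lit 19) = true := by decide +kernel
def p15_10_2_19 : pfC (piC [(nat_lit 43428061), (nat_lit 27333682), (nat_lit 20249535), (nat_lit 13625780)] (nat_lit 6539266)) p15_10_2 (nat_lit 4) (nat_lit 19) (nat_lit 20) = true := by decide +kernel
def p15_10_2_20 : pfC (piC [(nat_lit 43428061), (nat_lit 27333682), (nat_lit 20249535), (nat_lit 13625780)] (nat_lit 6539266)) p15_10_2 (nat_lit 4) (nat_lit 20) (nat_lit 21) = true := by decide +kernel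
def p15_10_2_21 : pfC (piC [(nat_lit 43428061), (nat_lit 27333682), (nat_lit 20249535), (nat_lit 13625780)] (nat_lit 6539266)) p15_10_2 (nat_lit 4) (nat_lit 21) (nat_lit 22) = true := by decide +kernel
def p15_10_2_22 : pfC (piC [(nat_lit 43428061), (nat_lit 27333682), (nat_lit 20249535), (nat_lit 13625780)] (nat_lit 6539266)) p15_10_2 (nat_lit 4) (nat_lit 22) (nat_lit 23) = true := by decide +kernel
def p15_10_2_23 : pfC (piC [(nat_lit 43428061), (nat_lit 27333682), (nat_lit 20249535), (nat_lit 13625780)] (nat_lit 6539266)) p15_10_2 (nat_lit 4) (nat_lit 23) (nat_lit 24) = true := by decide +kernel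
def p15_10_2_24 : pfC (piC [(nat_lit 43428061), (nat_lit 27333682), (nat_lit 20249535), (nat_lit 13625780)] (nat_lit 6539266)) p15_10_2 (nat_lit 4) (nat_lit 24) (nat_lit 25) = true := by decide +kernel
def p15_10_2_25 : pfC (piC [(nat_lit 43428061), (nat_lit 27333682), (nat_lit 20249535), (nat_lit 13625780)] (nat_lit 6539266)) p15_10_2 (nat_lit 4) (nat_lit 25) (nat_lit 26) = true := by decide +kernel
def p15_10_2_26 : pfC (piC [(nat_lit 43428061), (nat_lit 27333682), (nat_lit 20249535), (nat_lit 13625780)] (nat_lit 6539266)) p15_10_2 (nat_lit 4) (nat_lit 26) (nat_lit 27) = true := by decide +kernel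
def p15_10_2_27 : pfC (piC [(nat_lit 43428061), (nat_lit 27333682), (nat_lit 20249535), (nat_lit 13625780)] (nat_lit 6539266)) p15_10_2 (nat_lit 4) (nat_lit 27) (nat_lit 28) = true := by decide +kernel
def p15_10_2_28 : pfC (piC [(nat_lit 43428061), (nat_lit 27333682), (nat_lit 20249535), (nat_lit 13625780)] (nat_lit 6539266)) p15_10_2 (nat_lit 4) (nat_lit 28) (nat_lit 29) = true := by decide +kernel
def p15_10_2_29 : pfC (piC [(nat_lit 43428061), (nat_lit 27333682), (nat_lit 20249535), (nat_lit 13625780)] (nat_lit 6539266)) p15_10_2 (nat_lit 4) (nat_lit 29) (nat_lit 30) = true := by decide +kernel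
def p15_10_2_30 : pfC (piC [(nat_lit 43428061), (nat_lit 27333682), (nat_lit 20249535), (nat_lit 13625780)] (nat_lit 6539266)) p15_10_2 (nat_lit 4) (nat_lit 30) (nat_lit 31) = true := by decide +kernel
def p15_10_2_31 : pfC (piC [(nat_lit 43428061), (nat_lit 27333682), (nat_lit 20249535), (nat_lit 13625780)] (nat_lit 6539266)) p15_10_2 (nat_lit 4) (nat_lit 31) (nat_lit 32) = true := by decide +kernel
def p15_10_2_32 : pfC (piC [(nat_lit 43428061), (nat_lit 27333682), (nat_lit 20249535), (nat_lit 13625780)] (nat_lit 6539266)) p15_10_2 (nat_lit 4) (nat_lit 32) (nat_lit 33) = true := by decide +kernel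
def p15_10_2_33 : pfC (piC [(nat_lit 43428061), (nat_lit 27333682), (nat_lit 20249535), (nat_lit 13625780)] (nat_lit 6539266)) p15_10_2 (nat_lit 4) (nat_lit 33) (nat_lit 34) = true := by decide +kernel
def p15_10_2_34 : pfC (piC [(nat_lit 43428061), (nat_lit 27333682), (nat_lit 20249535), (nat_lit 13625780)] (nat_lit 6539266)) p15_10_2 (nat_lit 4) (nat_lit 34) (nat_lit 35) = true := by decide +kernel
def p15_10_2_35 : pfC (piC [(nat_lit 43428061), (nat_lit 27333682), (nat_lit 20249535), (nat_lit 13625780)] (nat_lit 6539266)) p15_10_2 (nat_lit 4) (nat_lit 35) (nat_lit 36) = true := by decide +kernel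
def p15_10_2_36 : pfC (piC [(nat_lit 43428061), (nat_lit 27333682), (nat_lit 20249535), (nat_lit 13625780)] (nat_lit 6539266)) p15_10_2 (nat_lit 4) (nat_lit 36) (nat_lit 37) = true := by decide +kernel
def p15_10_2_37 : pfC (piC [(nat_lit 43428061), (nat_lit 27333682), (nat_lit 20249535), (nat_lit 13625780)] (nat_lit 6539266)) p15_10_2 (nat_lit 4) (nat_lit 37) (nat_lit 38) = true := by decide +kernel
def p15_10_2_38 : pfC (piC [(nat_lit 43428061), (nat_lit 27333682), (nat_lit 20249535), (nat_lit 13625780)] (nat_lit 6539266)) p15_10_2 (nat_lit 4) (nat_lit 38) (nat_lit 39) = true := by decide +kernel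
def p15_10_2_39 : pfC (piC [(nat_lit 43428061), (nat_lit 27333682), (nat_lit 20249535), (nat_lit 13625780)] (nat_lit 6539266)) p15_10_2 (nat_lit 4) (nat_lit 39) (nat_lit 40) = true := by decide +kernel
def p15_10_2_40 : pfC (piC [(nat_lit 43428061), (nat_lit 27333682), (nat_lit 20249535), (nat_lit 13625780)] (nat_lit 6539266)) p15_10_2 (nat_lit 4) (nat_lit 40) (nat_lit 41) = true := by decide +kernel
def p15_10_2_41 : pfC (piC [(nat_lit 43428061), (nat_lit 27333682), (nat_lit 20249535), (nat_lit 13625780)] (nat_lit 6539266)) p15_10_2 (nat_lit 4) (nat_lit 41) (nat_lit 42) = true := by decide +kernel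
def p15_10_2_42 : pfC (piC [(nat_lit 43428061), (nat_lit 27333682), (nat_lit 20249535), (nat_lit 13625780)] (nat_lit 6539266)) p15_10_2 (nat_lit 4) (nat_lit 42) (nat_lit 43) = true := by decide +kernel
def p15_10_2_43 : pfC (piC [(nat_lit 43428061), (nat_lit 27333682), (nat_lit 20249535), (nat_lit 13625780)] (nat_lit 6539266)) p15_10_2 (nat_lit 4) (nat_lit 43) (nat_lit 44) = true := by decide +kernel
def p15_10_2_44 : pfC (piC [(nat_lit 43428061), (nat_lit 27333682), (nat_lit 20249535), (nat_lit 13625780)] (nat_lit 6539266)) p15_10_2 (nat_lit 4) (nat_lit 44) (nat_lit 45) = true := by decide +kernel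
def p15_10_2_45 : pfC (piC [(nat_lit 43428061), (nat_lit 27333682), (nat_lit 20249535), (nat_lit 13625780)] (nat_lit 6539266)) p15_10_2 (nat_lit 4) (nat_lit 45) (nat_lit 46) = true := by decide +kernel
def p15_10_2_46 : pfC (piC [(nat_lit 43428061), (nat_lit 27333682), (nat_lit 20249535), (nat_lit 13625780)] (nat_lit 6539266)) p15_10_2 (nat_lit 4) (nat_lit 46) (nat_lit 47) = true := by decide +kernel
def p15_10_2_47 : pfC (piC [(nat_lit 43428061), (nat_lit 27333682), (nat_lit 20249535), (nat_lit 13625780)] (nat_lit 6539266)) p15_10_2 (nat_lit 4) (nat_lit 47) (nat_lit 48) = true := by decide +kernel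
def p15_10_2_48 : pfC (piC [(nat_lit 43428061), (nat_lit 27333682), (nat_lit 20249535), (nat_lit 13625780)] (nat_lit 6539266)) p15_10_2 (nat_lit 4) (nat_lit 48) (nat_lit 49) = true := by decide +kernel
def p15_10_2_49 : pfC (piC [(nat_lit 43428061), (nat_lit 27333682), (nat_lit 20249535), (nat_lit 13625780)] (nat_lit 6539266)) p15_10_2 (nat_lit 4) (nat_lit 49) (nat_lit 50) = true := by decide +kernel
def p15_10_2_50 : pfC (piC [(nat_lit 43428061), (nat_lit 27333682), (nat_lit 20249535), (nat_lit 13625780)] (nat_lit 6539266)) p15_10_2 (nat_lit 4) (nat_lit 50) (nat_lit 51) = true := by decide +kernel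
def p15_10_2_51 : pfC (piC [(nat_lit 43428061), (nat_lit 27333682), (nat_lit 20249535), (nat_lit 13625780)] (nat_lit 6539266)) p15_10_2 (nat_lit 4) (nat_lit 51) (nat_lit 52) = true := by decide +kernel
def p15_10_2_52 : pfC (piC [(nat_lit 43428061), (nat_lit 27333682), (nat_lit 20249535), (nat_lit 13625780)] (nat_lit 6539266)) p15_10_2 (nat_lit 4) (nat_lit 52) (nat_lit 53) = true := by decide +kernel
def p15_10_2_53 : pfC (piC [(nat_lit 43428061), (nat_lit 27333682), (nat_lit 20249535), (nat_lit 13625780)] (nat_lit 6539266)) p15_10_2 (nat_lit 4) (nat_lit 53) (nat_lit 54) = true := by decide +kernel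
def p15_10_2_54 : pfC (piC [(nat_lit 43428061), (nat_lit 27333682), (nat_lit 20249535), (nat_lit 13625780)] (nat_lit 6539266)) p15_10_2 (nat_lit 4) (nat_lit 54) (nat_lit 55) = true := by decide +kernel
def p15_10_2_55 : pfC (piC [(nat_lit 43428061), (nat_lit 27333682), (nat_lit 20249535), (nat_lit 13625780)] (nat_lit 6539266)) p15_10_2 (nat_lit 4) (nat_lit 55) (nat_lit 56) = true := by decide +kernel
def p15_10_2_56 : pfC (piC [(nat_lit 43428061), (nat_lit 27333682), (nat_lit 20249535), (nat_lit 13625780)] (nat_lit 6539266)) p15_10_2 (nat_lit 4) (nat_lit 56) (nat_lit 57) = true := by decide +kernel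
def p15_10_2_57 : pfC (piC [(nat_lit 43428061), (nat_lit 27333682), (nat_lit 20249535), (nat_lit 13625780)] (nat_lit 6539266)) p15_10_2 (nat_lit 4) (nat_lit 57) (nat_lit 58) = true := by decide +kernel
def p15_10_2_58 : pfC (piC [(nat_lit 43428061), (nat_lit 27333682), (nat_lit 20249535), (nat_lit 13625780)] (nat_lit 6539266)) p15_10_2 (nat_lit 4) (nat_lit 58) (nat_lit 59) = true := by decide +kernel
theorem p15_10_2_T : PfS (PiF n15_10.reverse (nat_lit 6539266)) p15_10_2 (nat_lit 4) [] 0 :=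
  pftab_of (los := [(nat_lit 43428061), (nat_lit 27333682), (nat_lit 20249535), (nat_lit 13625780)]) (by decide +kernel) (hi := (nat_lit 59)) (PfP.trans (PfP.trans (PfP.trans (PfP.trans (PfP.trans (PfP.trans (PfP.trans (PfP.trans (PfP.trans (PfP.trans (PfP.trans (PfP.trans (PfP.trans (PfP.trans (PfP.trans (PfP.trans (PfP.trans (PfP.trans (PfP.trans (PfP.trans (PfP.trans (PfP.trans (PfP.trans (PfP.trans (PfP.trans (PfP.trans (PfP.trans (PfP.trans (PfP.trans (PfP.trans (PfP.trans (PfP.trans (PfP.trans (PfP.trans (PfP.trans (PfP.trans (PfP.trans (PfP.trans (PfP.trans (PfP.trans (PfP.trans (PfP.trans (PfP.trans (PfP.trans (PfP.trans (PfP.trans (PfP.trans (PfP.trans (PfP.trans (PfP.trans (PfP.trans (PfP.trans (PfP.trans (PfP.trans (PfP.trans (PfP.trans (PfP.trans (PfP.trans (pfC_sound p15_10_2_0) (pfC_sound p15_10_2_1)) (pfC_sound p15_10_2_2)) (pfC_sound p15_10_2_3)) (pfC_sound p15_10_2_4)) (pfC_sound p15_10_2_5)) (pfC_sound p15_10_2_6)) (pfC_sound p15_10_2_7))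 (pfC_sound p15_10_2_8)) (pfC_sound p15_10_2_9)) (pfC_sound p15_10_2_10)) (pfC_sound p15_10_2_11)) (pfC_sound p15_10_2_12)) (pfC_sound p15_10_2_13)) (pfC_sound p15_10_2_14)) (pfC_sound p15_10_2_15)) (pfC_sound p15_10_2_16)) (pfC_sound p15_10_2_17)) (pfC_sound p15_10_2_18)) (pfC_sound p15_10_2_19)) (pfC_sound p15_10_2_20)) (pfC_sound p15_10_2_21)) (pfC_sound
 p15_10_2_22)) (pfC_sound p15_10_2_23)) (pfC_sound p15_10_2_24)) (pfC_sound p15_10_2_25)) (pfC_sound p15_10_2_26)) (pfC_sound p15_10_2_27)) (pfC_sound p15_10_2_28)) (pfC_sound p15_10_2_29)) (pfC_sound p15_10_2_30)) (pfC_sound p15_10_2_31)) (pfC_sound p15_10_2_32)) (pfC_sound p15_10_2_33)) (pfC_sound p15_10_2_34)) (pfC_sound p15_10_2_35)) (pfC_sound p15_10_2_36)) (pfC_sound p15_10_2_37)) (pfC_sound p15_10_2_38)) (pfC_sound p15_10_2_39)) (pfC_sound p15_10_2_40)) (pfC_sound p15_10_2_41)) (pfC_sound p15_10_2_42)) (pfC_sound p15_10_2_43)) (pfC_sound p15_10_2_44)) (pfC_sound p15_10_2_45)) (pfC_sound p15_10_2_46))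 (pfC_sound p15_10_2_47)) (pfC_sound p15_10_2_48)) (pfC_sound p15_10_2_49)) (pfC_sound p15_10_2_50)) (pfC_sound p15_10_2_51)) (pfC_sound p15_10_2_52)) (pfC_sound p15_10_2_53)) (pfC_sound p15_10_2_54)) (pfC_sound p15_10_2_55)) (pfC_sound p15_10_2_56)) (pfC_sound p15_10_2_57)) (pfC_sound p15_10_2_58)) (by decide +kernel)

def z15_10_2 : zOK yB15_10 (nat_lit 2) (nat_lit 600) (nat_lit 750) (nat_lit 6539266) (nat_lit 4636242) = true := by decide +kernel
def g15_10_2 : gOK yB15_10.x P15_10 (nat_lit 1429) (q15_10 :: r15_10) (nat_lit 2) (nat_lit 600) (nat_lit 3) (nat_lit 750) (nat_lit 12712500) (nat_lit 12712500) (nat_lit 12712500) (nat_lit 12712500) [(nat_lit 800), (nat_lit 1600)] = true := by decide +kernel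
def v15_10_2 : ivC P15_10 s15_10 w15_10 n15_10 (nat_lit 4) (nat_lit 4900) (nat_lit 2) (nat_lit 600) f136_1_600 f144_1_600 (nat_lit 3) (nat_lit 750) f136_1_750 f144_1_750 (nat_lit 6539266) (nat_lit 4636242) p15_10_2 = true := by decide +kernel
def p15_10_3 : PF := (PF.cons (PF.cons (PF.cons (PF.cons (PF.leaf (nat_lit 3146068) (nat_lit 21685560) (nat_lit 45423252) (nat_lit 21685560) [(nat_lit 0), (nat_lit 0), (nat_lit 0), (nat_lit 0)]) (PF.cons (PF.leaf (nat_lit 3247066) (nat_lit 169600) (nat_lit 45288613) (nat_lit 21650599) [(nat_lit 169600), (nat_lit 0), (nat_lit 0), (nat_lit 0)]) (PF.cons (PF.leaf (nat_lit 3370259) (nat_lit 184423) (nat_lit 45130691) (nat_lit 21609274) [(nat_lit 184423), (nat_lit 0), (nat_lit 0), (nat_lit 0)]) (PF.cons (PF.leaf (nat_lit 3508560) (nat_lit 197597) (nat_lit 44953511) (nat_lit 21562508) [(nat_lit 197597), (nat_lit 0), (nat_lit 0), (nat_lit 0)]) (PF.cons (PF.leaf (nat_lit 3659788) (nat_lit 209503) (nat_lit 44759880) (nat_lit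 21510920) [(nat_lit 209503), (nat_lit 0), (nat_lit 0), (nat_lit 0)]) (PF.cons (PF.leaf (nat_lit 3822556) (nat_lit 220383) (nat_lit 44551929) (nat_lit 21454967) [(nat_lit 220383), (nat_lit 0), (nat_lit 0), (nat_lit 0)]) (PF.cons (PF.leaf (nat_lit 3995780) (nat_lit 230405) (nat_lit 44331370) (nat_lit 21395006) [(nat_lit 230405), (nat_lit 0), (nat_lit 0), (nat_lit 0)]) (PF.cons (PF.leaf (nat_lit 4178145) (nat_lit 239692) (nat_lit 44099632) (nat_lit 21331330) [(nat_lit 239692), (nat_lit 0),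
 (nat_lit 0), (nat_lit 0)]) (PF.cons PF.nil PF.nil))))))))) (PF.cons (PF.cons (PF.leaf (nat_lit 3571227) (nat_lit 961002) (nat_lit 44664268) (nat_lit 21483541) [(nat_lit 0), (nat_lit 961002), (nat_lit 0), (nat_lit 0)]) (PF.cons (PF.leaf (nat_lit 3706122) (nat_lit 207753) (nat_lit 44484897) (nat_lit 21435051) [(nat_lit 207753), (nat_lit 981110), (nat_lit 0), (nat_lit 0)]) (PF.cons (PF.leaf (nat_lit 3857217) (nat_lit 219082) (nat_lit 44288167) (nat_lit 21381390) [(nat_lit 219082), (nat_lit 1001089), (nat_lit 0), (nat_lit 0)]) (PF.cons (PF.leaf (nat_lit 4020369) (nat_lit 229387) (nat_lit 44076849) (nat_lit 21323200) [(nat_lit 229387), (nat_lit 1020601), (nat_lit 0), (nat_lit 0)]) (PF.cons (PF.leaf (nat_lit 4193844) (nat_lit 238855) (nat_lit 43852984) (nat_lit 21260939) [(nat_lit 238855), (nat_lit 1039467), (nat_lit 0), (nat_lit 0)]) (PF.cons (PF.leaf (nat_lit 4376596) (nat_lit 247616) (nat_lit 43618178) (nat_lit 21194959) [(nat_lit 247616), (nat_lit 1057591),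 (nat_lit 0), (nat_lit 0)]) (PF.cons PF.nil PF.nil))))))) (PF.cons (PF.cons (PF.leaf (nat_lit 4059691) (nat_lit 1030931) (nat_lit 43802072) (nat_lit 21244876) [(nat_lit 0), (nat_lit 1030931), (nat_lit 0), (nat_lit 0)]) (PF.cons
 (PF.leaf (nat_lit 4219805) (nat_lit 237117) (nat_lit 43590228) (nat_lit 21185215) [(nat_lit 237117), (nat_lit 1048125), (nat_lit 0), (nat_lit 0)]) (PF.cons (PF.leaf (nat_lit 4392755) (nat_lit 246203) (nat_lit 43365305) (nat_lit 21121264) [(nat_lit 246203), (nat_lit 1064917), (nat_lit 0), (nat_lit 0)]) (PF.cons (PF.leaf (nat_lit 4575116) (nat_lit 254571) (nat_lit 43129283) (nat_lit 21053491) [(nat_lit 254571), (nat_lit 1081161), (nat_lit 0), (nat_lit 0)]) (PF.cons (PF.leaf (nat_lit 4765883) (nat_lit 262329) (nat_lit 42883689) (nat_lit 20982252) [(nat_lit 262329), (nat_lit 1096776), (nat_lit 0), (nat_lit 0)]) PF.nil))))) (PF.cons (PF.cons (PF.leaf (nat_lit 4594526) (nat_lit 1087756) (nat_lit 42869348) (nat_lit 20976195) [(nat_lit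 0), (nat_lit 1087756), (nat_lit 0), (nat_lit 0)]) (PF.cons (PF.leaf (nat_lit 4774123) (nat_lit 260649) (nat_lit 42634012) (nat_lit 20907188) [(nat_lit 260649), (nat_lit 1102320), (nat_lit 0), (nat_lit 0)]) (PF.cons (PF.leaf (nat_lit 4963877) (nat_lit 268111) (nat_lit 42388809) (nat_lit 20834588) [(nat_lit 268111), (nat_lit 1116397), (nat_lit 0), (nat_lit 0)]) (PF.cons PF.nil PF.nil)))) (PF.cons (PF.cons (PF.leaf (nat_lit 5163411) (nat_lit 1134056) (nat_lit
 41889825) (nat_lit 20682759) [(nat_lit 0), (nat_lit 1134056), (nat_lit 0), (nat_lit 0)]) (PF.cons (PF.leaf (nat_lit 5358082) (nat_lit 279855) (nat_lit 41637876) (nat_lit 20605945) [(nat_lit 279855), (nat_lit 1146283), (nat_lit 0), (nat_lit 0)]) PF.nil)) (PF.cons PF.nil PF.nil)))))) (PF.cons (PF.cons (PF.cons (PF.leaf (nat_lit 4052266) (nat_lit 2662035) (nat_lit 43342370) (nat_lit 21104407) [(nat_lit 0), (nat_lit 0), (nat_lit 2662035), (nat_lit 0)]) (PF.cons (PF.leaf (nat_lit 4194775) (nat_lit 224010)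 (nat_lit 43155117) (nat_lit 21050691) [(nat_lit 224010), (nat_lit 0), (nat_lit 2678992), (nat_lit 0)]) (PF.cons (PF.leaf (nat_lit 4352830) (nat_lit 234800) (nat_lit 42951170) (nat_lit 20991702) [(nat_lit 234800), (nat_lit 0), (nat_lit 2696338), (nat_lit 0)]) (PF.cons (PF.leaf (nat_lit 4522259) (nat_lit 244476) (nat_lit 42733510) (nat_lit 20928195) [(nat_lit 244476), (nat_lit 0), (nat_lit 2713678), (nat_lit 0)]) (PF.cons (PF.leaf (nat_lit 4701494) (nat_lit 253266) (nat_lit 42504295) (nat_lit 20860704) [(nat_lit 253266), (nat_lit 0), (nat_lit 2730747), (nat_lit 0)]) (PF.cons (PF.leaf (nat_lit 4889333) (nat_lit 261325) (nat_lit 42265185) (nat_lit 20789638) [(nat_lit 261325), (nat_lit 0),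
 (nat_lit 2747360), (nat_lit 0)]) (PF.cons PF.nil PF.nil))))))) (PF.cons (PF.cons (PF.leaf (nat_lit 4554406) (nat_lit 1076838) (nat_lit 42460037) (nat_lit 20845783) [(nat_lit 0), (nat_lit 1076838), (nat_lit 2726153), (nat_lit 0)]) (PF.cons (PF.leaf (nat_lit 4720152) (nat_lit 250614) (nat_lit 42243939) (nat_lit 20781454) [(nat_lit 250614), (nat_lit 1091473), (nat_lit 2741331), (nat_lit 0)]) (PF.cons (PF.leaf (nat_lit 4897871) (nat_lit 259124) (nat_lit 42015614) (nat_lit 20712892) [(nat_lit 259124), (nat_lit 1105704), (nat_lit 2756352), (nat_lit 0)]) (PF.cons (PF.leaf (nat_lit 5084533) (nat_lit 266882) (nat_lit 41777105) (nat_lit 20640627) [(nat_lit 266882), (nat_lit 1119419), (nat_lit 2771012), (nat_lit 0)]) (PF.cons PF.nil PF.nil))))) (PF.cons (PF.cons (PF.leaf (nat_lit 5096708) (nat_lit 1123805) (nat_lit 41521638) (nat_lit 20560651) [(nat_lit 0), (nat_lit 1123805), (nat_lit 2778911), (nat_lit 0)]) (PF.cons (PF.leaf (nat_lit 5280045) (nat_lit 271701)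 (nat_lit 41285370) (nat_lit 20487716) [(nat_lit 271701), (nat_lit 1136135), (nat_lit 2791753), (nat_lit 0)]) (PF.cons (PF.leaf (nat_lit 5472825) (nat_lit 278608) (nat_lit 41040077) (nat_lit 20411328) [(nat_lit 278608), (nat_lit
 1148004), (nat_lit 2804180), (nat_lit 0)]) (PF.cons PF.nil PF.nil)))) (PF.cons (PF.cons (PF.leaf (nat_lit 5667825) (nat_lit 1161875) (nat_lit 40548254) (nat_lit 20254284) [(nat_lit 0), (nat_lit 1161875), (nat_lit 2820648), (nat_lit 0)]) (PF.cons PF.nil PF.nil)) (PF.cons PF.nil PF.nil))))) (PF.cons (PF.cons (PF.cons (PF.leaf (nat_lit 5043647) (nat_lit 2771354) (nat_lit 41134651) (nat_lit 20431453) [(nat_lit 0), (nat_lit 0), (nat_lit 2771354), (nat_lit 0)]) (PF.cons (PF.leaf (nat_lit 5213386) (nat_lit 261561) (nat_lit 40917289) (nat_lit 20363502) [(nat_lit 261561), (nat_lit 0), (nat_lit 2783229), (nat_lit 0)]) (PF.cons (PF.leaf (nat_lit 5394577) (nat_lit 269557) (nat_lit 40688500) (nat_lit 20291409) [(nat_lit 269557), (nat_lit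 0), (nat_lit 2794894), (nat_lit 0)]) (PF.cons (PF.leaf (nat_lit 5584186) (nat_lit 276777) (nat_lit 40450352) (nat_lit 20215749) [(nat_lit 276777), (nat_lit 0), (nat_lit 2806188), (nat_lit 0)]) (PF.cons PF.nil PF.nil))))) (PF.cons (PF.cons (PF.leaf (nat_lit 5589683) (nat_lit 1151153) (nat_lit 40201428) (nat_lit 20134198) [(nat_lit 0), (nat_lit 1151153), (nat_lit 2811015), (nat_lit 0)]) (PF.cons (PF.leaf (nat_lit 5775469) (nat_lit 280562) (nat_lit 39966662)
 (nat_lit 20058357) [(nat_lit 280562), (nat_lit 1161622), (nat_lit 2820804), (nat_lit 0)]) (PF.cons (PF.leaf (nat_lit 5970141) (nat_lit 286977) (nat_lit 39723625) (nat_lit 19979214) [(nat_lit 286977), (nat_lit 1171650), (nat_lit 2830183), (nat_lit 0)]) (PF.cons PF.nil PF.nil)))) (PF.cons (PF.cons (PF.leaf (nat_lit 6160204) (nat_lit 1182435) (nat_lit 39242513) (nat_lit 19818884) [(nat_lit 0), (nat_lit 1182435), (nat_lit 2841271), (nat_lit 0)]) (PF.cons PF.nil PF.nil)) PF.nil))) (PF.cons (PF.cons (PF.cons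 (PF.leaf (nat_lit 6072100) (nat_lit 2830176) (nat_lit 38916643) (nat_lit 19701640) [(nat_lit 0), (nat_lit 0), (nat_lit 2830176), (nat_lit 0)]) (PF.cons (PF.leaf (nat_lit 6259294) (nat_lit 287607) (nat_lit 38685175) (nat_lit 19623776) [(nat_lit 287607), (nat_lit 0), (nat_lit 2837417), (nat_lit 0)]) (PF.cons PF.nil PF.nil))) (PF.cons (PF.cons (PF.leaf (nat_lit 6639729) (nat_lit 1197065) (nat_lit 37978146) (nat_lit 19380762) [(nat_lit 0), (nat_lit 1197065), (nat_lit 2850946), (nat_lit 0)]) PF.nil) PF.nil)) (PF.cons PF.nil (PF.cons PF.nil PF.nil)))))) (PF.cons (PF.cons (PF.cons (PF.cons (PF.leaf (nat_lit 4796750) (nat_lit 6687627) (nat_lit 40304064) (nat_lit 20117120) [(nat_lit 0),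
 (nat_lit 0), (nat_lit 0), (nat_lit 6687627)]) (PF.cons (PF.leaf (nat_lit 4940564) (nat_lit 232362) (nat_lit 40126760) (nat_lit 20060778) [(nat_lit 232362), (nat_lit 0), (nat_lit 0), (nat_lit 6688912)]) (PF.cons (PF.leaf (nat_lit 5099285) (nat_lit 242824) (nat_lit 39934243) (nat_lit 19999200) [(nat_lit 242824), (nat_lit 0), (nat_lit 0), (nat_lit 6689719)]) (PF.cons (PF.leaf (nat_lit 5268788) (nat_lit 252079) (nat_lit 39729410) (nat_lit 19933230) [(nat_lit 252079), (nat_lit 0), (nat_lit 0), (nat_lit 6689932)]) (PF.cons (PF.leaf (nat_lit 5447454) (nat_lit 260382) (nat_lit 39514349) (nat_lit 19863468) [(nat_lit 260382), (nat_lit 0), (nat_lit 0), (nat_lit 6689464)]) (PF.cons (PF.leaf (nat_lit 5634048) (nat_lit 267907) (nat_lit 39290656) (nat_lit 19790368) [(nat_lit 267907), (nat_lit 0), (nat_lit 0), (nat_lit 6688251)]) (PF.cons PF.nil PF.nil))))))) (PF.cons (PF.cons (PF.leaf (nat_lit 5292837) (nat_lit 1097744) (nat_lit 39476395) (nat_lit 19849424) [(nat_lit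 0), (nat_lit 1097744), (nat_lit 0), (nat_lit 6685249)]) (PF.cons (PF.leaf (nat_lit 5457994) (nat_lit 256984) (nat_lit 39274192) (nat_lit 19783277) [(nat_lit 256984), (nat_lit 1110239), (nat_lit 0), (nat_lit 6684119)]) (PF.cons
 (PF.leaf (nat_lit 5634423) (nat_lit 265034) (nat_lit 39061098) (nat_lit 19713087) [(nat_lit 265034), (nat_lit 1122263), (nat_lit 0), (nat_lit 6682294)]) (PF.cons (PF.leaf (nat_lit 5819166) (nat_lit 272287) (nat_lit 38839061) (nat_lit 19639432) [(nat_lit 272287), (nat_lit 1133736), (nat_lit 0), (nat_lit 6679720)]) (PF.cons PF.nil PF.nil))))) (PF.cons (PF.cons (PF.leaf (nat_lit 5823366) (nat_lit 1135990) (nat_lit 38604877) (nat_lit 19559495) [(nat_lit 0), (nat_lit 1135990), (nat_lit 0), (nat_lit 6672459)]) (PF.cons (PF.leaf (nat_lit 6004221) (nat_lit 276005) (nat_lit 38385874) (nat_lit 19485778) [(nat_lit 276005), (nat_lit 1146256), (nat_lit 0), (nat_lit 6668641)]) (PF.cons (PF.leaf (nat_lit 6193930) (nat_lit 282408) (nat_lit 38158993)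 (nat_lit 19408874) [(nat_lit 282408), (nat_lit 1156045), (nat_lit 0), (nat_lit 6664037)]) (PF.cons PF.nil PF.nil)))) (PF.cons (PF.cons (PF.leaf (nat_lit 6377813) (nat_lit 1166173) (nat_lit 37708114) (nat_lit 19252779) [(nat_lit 0), (nat_lit 1166173), (nat_lit 0), (nat_lit 6649396)]) (PF.cons PF.nil PF.nil)) (PF.cons PF.nil PF.nil))))) (PF.cons (PF.cons (PF.cons (PF.leaf (nat_lit 5757362) (nat_lit 2765433) (nat_lit 38259782) (nat_lit 19434865)
 [(nat_lit 0), (nat_lit 0), (nat_lit 2765433), (nat_lit 6648731)]) (PF.cons (PF.leaf (nat_lit 5925225) (nat_lit 265466) (nat_lit 38058402) (nat_lit 19366446) [(nat_lit 265466), (nat_lit 0), (nat_lit 2773721), (nat_lit 6644776)]) (PF.cons (PF.leaf (nat_lit 6103874) (nat_lit 273023) (nat_lit 37846855) (nat_lit 19294115) [(nat_lit 273023), (nat_lit 0), (nat_lit 2781733), (nat_lit 6640060)]) (PF.cons (PF.leaf (nat_lit 6290358) (nat_lit 279775) (nat_lit 37627084) (nat_lit 19218478) [(nat_lit 279775), (nat_lit 0), (nat_lit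 2789356), (nat_lit 6634566)]) (PF.cons PF.nil PF.nil))))) (PF.cons (PF.cons (PF.leaf (nat_lit 6288600) (nat_lit 1154376) (nat_lit 37400479) (nat_lit 19138339) [(nat_lit 0), (nat_lit 1154376), (nat_lit 2790889), (nat_lit 6624728)]) (PF.cons (PF.leaf (nat_lit 6470857) (nat_lit 282633) (nat_lit 37184527) (nat_lit 19063024) [(nat_lit 282633), (nat_lit 1163085), (nat_lit 2797319), (nat_lit 6618221)]) (PF.cons PF.nil (PF.cons PF.nil PF.nil)))) (PF.cons (PF.cons (PF.leaf (nat_lit 6840308) (nat_lit 1179039) (nat_lit 36522875) (nat_lit 18827708) [(nat_lit 0), (nat_lit 1179039), (nat_lit 2808550), (nat_lit 6591599)]) (PF.cons PF.nil PF.nil)) PF.nil))) (PF.cons (PF.cons (PF.cons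
 (PF.leaf (nat_lit 6742986) (nat_lit 2795682) (nat_lit 36234593) (nat_lit 18717144) [(nat_lit 0), (nat_lit 0), (nat_lit 2795682), (nat_lit 6565710)]) (PF.cons (PF.leaf (nat_lit 6925848) (nat_lit 287817) (nat_lit 36022863) (nat_lit 18640897) [(nat_lit 287817), (nat_lit 0), (nat_lit 2800141), (nat_lit 6556951)]) (PF.cons PF.nil PF.nil))) (PF.cons (PF.cons (PF.leaf (nat_lit 7290327) (nat_lit 1187393) (nat_lit 35379790) (nat_lit 18405054) [(nat_lit 0), (nat_lit 1187393), (nat_lit 2806139), (nat_lit 6524294)]) PF.nil) PF.nil)) (PF.cons PF.nil (PF.cons PF.nil PF.nil))))) (PF.cons (PF.cons (PF.cons (PF.cons (PF.leaf (nat_lit 6415445) (nat_lit 6477311) (nat_lit 35676214) (nat_lit 18477974) [(nat_lit 0), (nat_lit 0), (nat_lit 0), (nat_lit 6477311)]) (PF.cons (PF.leaf (nat_lit 6580420) (nat_lit 266567) (nat_lit 35491017) (nat_lit 18410843) [(nat_lit 266567), (nat_lit 0), (nat_lit 0), (nat_lit 6470192)]) (PF.cons (PF.leaf (nat_lit 6755681) (nat_lit 273727) (nat_lit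 35296753) (nat_lit 18340055) [(nat_lit 273727), (nat_lit 0), (nat_lit 0), (nat_lit 6462275)]) (PF.cons (PF.leaf (nat_lit 6938276) (nat_lit 280065) (nat_lit 35095220) (nat_lit 18266218) [(nat_lit 280065), (nat_lit 0), (nat_lit 0),
 (nat_lit 6453589)]) (PF.cons PF.nil PF.nil))))) (PF.cons (PF.cons (PF.leaf (nat_lit 6930679) (nat_lit 1147630) (nat_lit 34889920) (nat_lit 18189120) [(nat_lit 0), (nat_lit 1147630), (nat_lit 0), (nat_lit 6441070)]) (PF.cons (PF.leaf (nat_lit 7108785) (nat_lit 282209) (nat_lit 34692325) (nat_lit 18115935) [(nat_lit 282209), (nat_lit 1154964), (nat_lit 0), (nat_lit 6431688)]) (PF.cons PF.nil (PF.cons PF.nil PF.nil)))) (PF.cons (PF.cons (PF.leaf (nat_lit 7463358) (nat_lit 1167257) (nat_lit 34090224) (nat_lit 17889133) [(nat_lit 0), (nat_lit 1167257), (nat_lit 0), (nat_lit 6397470)]) (PF.cons PF.nil PF.nil)) PF.nil))) (PF.cons (PF.cons (PF.cons (PF.leaf (nat_lit 7359402) (nat_lit 2745775) (nat_lit 33835329) (nat_lit 17786250) [(nat_lit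 0), (nat_lit 0), (nat_lit 2745775), (nat_lit 6370728)]) (PF.cons (PF.leaf (nat_lit 7537501) (nat_lit 286008) (nat_lit 33642276) (nat_lit 17712850) [(nat_lit 286008), (nat_lit 0), (nat_lit 2748231), (nat_lit 6359723)]) PF.nil)) (PF.cons PF.nil PF.nil)) (PF.cons PF.nil PF.nil))) (PF.cons (PF.cons (PF.cons (PF.cons (PF.leaf (nat_lit 7928678) (nat_lit 6168562) (nat_lit 31688306) (nat_lit 16914820) [(nat_lit 0), (nat_lit 0), (nat_lit 0), (nat_lit 6168562)])
 (PF.cons PF.nil PF.nil)) (PF.cons PF.nil PF.nil)) (PF.cons PF.nil PF.nil)) (PF.cons PF.nil (PF.cons PF.nil PF.nil))))))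

def p15_10_3_0 : pfC (piC [(nat_lit 43428061), (nat_lit 27333682), (nat_lit 20249535), (nat_lit 13625780)] (nat_lit 4636242)) p15_10_3 (nat_lit 4) (nat_lit 0) (nat_lit 1) = true := by decide +kernel
def p15_10_3_1 : pfC (piC [(nat_lit 43428061), (nat_lit 27333682), (nat_lit 20249535), (nat_lit 13625780)] (nat_lit 4636242)) p15_10_3 (nat_lit 4) (nat_lit 1) (nat_lit 2) = true := by decide +kernel
def p15_10_3_2 : pfC (piC [(nat_lit 43428061), (nat_lit 27333682), (nat_lit 20249535), (nat_lit 13625780)] (nat_lit 4636242)) p15_10_3 (nat_lit 4) (nat_lit 2) (nat_lit 3) = true := by decide +kernel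
def p15_10_3_3 : pfC (piC [(nat_lit 43428061), (nat_lit 27333682), (nat_lit 20249535), (nat_lit 13625780)] (nat_lit 4636242)) p15_10_3 (nat_lit 4) (nat_lit 3) (nat_lit 4) = true := by decide +kernel
def p15_10_3_4 : pfC (piC [(nat_lit 43428061), (nat_lit 27333682), (nat_lit 20249535), (nat_lit 13625780)] (nat_lit 4636242)) p15_10_3 (nat_lit 4) (nat_lit 4) (nat_lit 5) = true := by decide +kernel
def p15_10_3_5 : pfC (piC [(nat_lit 43428061), (nat_lit 27333682), (nat_lit 20249535), (nat_lit 13625780)] (nat_lit 4636242)) p15_10_3 (nat_lit 4) (nat_lit 5) (nat_lit 6) = true := by decide +kernel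
def p15_10_3_6 : pfC (piC [(nat_lit 43428061), (nat_lit 27333682), (nat_lit 20249535), (nat_lit 13625780)] (nat_lit 4636242)) p15_10_3 (nat_lit 4) (nat_lit 6) (nat_lit 7) = true := by decide +kernel
def p15_10_3_7 : pfC (piC [(nat_lit 43428061), (nat_lit 27333682), (nat_lit 20249535), (nat_lit 13625780)] (nat_lit 4636242)) p15_10_3 (nat_lit 4) (nat_lit 7) (nat_lit 8) = true := by decide +kernel
def p15_10_3_8 : pfC (piC [(nat_lit 43428061), (nat_lit 27333682), (nat_lit 20249535), (nat_lit 13625780)] (nat_lit 4636242)) p15_10_3 (nat_lit 4) (nat_lit 8) (nat_lit 9) = true := by decide +kernel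
def p15_10_3_9 : pfC (piC [(nat_lit 43428061), (nat_lit 27333682), (nat_lit 20249535), (nat_lit 13625780)] (nat_lit 4636242)) p15_10_3 (nat_lit 4) (nat_lit 9) (nat_lit 10) = true := by decide +kernel
def p15_10_3_10 : pfC (piC [(nat_lit 43428061), (nat_lit 27333682), (nat_lit 20249535), (nat_lit 13625780)] (nat_lit 4636242)) p15_10_3 (nat_lit 4) (nat_lit 10) (nat_lit 11) = true := by decide +kernel
def p15_10_3_11 : pfC (piC [(nat_lit 43428061), (nat_lit 27333682), (nat_lit 20249535), (nat_lit 13625780)] (nat_lit 4636242)) p15_10_3 (nat_lit 4) (nat_lit 11) (nat_lit 12) = true := by decide +kernel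
def p15_10_3_12 : pfC (piC [(nat_lit 43428061), (nat_lit 27333682), (nat_lit 20249535), (nat_lit 13625780)] (nat_lit 4636242)) p15_10_3 (nat_lit 4) (nat_lit 12) (nat_lit 13) = true := by decide +kernel
def p15_10_3_13 : pfC (piC [(nat_lit 43428061), (nat_lit 27333682), (nat_lit 20249535), (nat_lit 13625780)] (nat_lit 4636242)) p15_10_3 (nat_lit 4) (nat_lit 13) (nat_lit 14) = true := by decide +kernel
def p15_10_3_14 : pfC (piC [(nat_lit 43428061), (nat_lit 27333682), (nat_lit 20249535), (nat_lit 13625780)] (nat_lit 4636242)) p15_10_3 (nat_lit 4) (nat_lit 14) (nat_lit 15) = true := by decide +kernel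
def p15_10_3_15 : pfC (piC [(nat_lit 43428061), (nat_lit 27333682), (nat_lit 20249535), (nat_lit 13625780)] (nat_lit 4636242)) p15_10_3 (nat_lit 4) (nat_lit 15) (nat_lit 16) = true := by decide +kernel
def p15_10_3_16 : pfC (piC [(nat_lit 43428061), (nat_lit 27333682), (nat_lit 20249535), (nat_lit 13625780)] (nat_lit 4636242)) p15_10_3 (nat_lit 4) (nat_lit 16) (nat_lit 17) = true := by decide +kernel
def p15_10_3_17 : pfC (piC [(nat_lit 43428061), (nat_lit 27333682), (nat_lit 20249535), (nat_lit 13625780)] (nat_lit 4636242)) p15_10_3 (nat_lit 4) (nat_lit 17) (nat_lit 18) = true := by decide +kernel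
def p15_10_3_18 : pfC (piC [(nat_lit 43428061), (nat_lit 27333682), (nat_lit 20249535), (nat_lit 13625780)] (nat_lit 4636242)) p15_10_3 (nat_lit 4) (nat_lit 18) (nat_lit 19) = true := by decide +kernel
def p15_10_3_19 : pfC (piC [(nat_lit 43428061), (nat_lit 27333682), (nat_lit 20249535), (nat_lit 13625780)] (nat_lit 4636242)) p15_10_3 (nat_lit 4) (nat_lit 19) (nat_lit 20) = true := by decide +kernel
def p15_10_3_20 : pfC (piC [(nat_lit 43428061), (nat_lit 27333682), (nat_lit 20249535), (nat_lit 13625780)] (nat_lit 4636242)) p15_10_3 (nat_lit 4) (nat_lit 20) (nat_lit 21) = true := by decide +kernel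
def p15_10_3_21 : pfC (piC [(nat_lit 43428061), (nat_lit 27333682), (nat_lit 20249535), (nat_lit 13625780)] (nat_lit 4636242)) p15_10_3 (nat_lit 4) (nat_lit 21) (nat_lit 22) = true := by decide +kernel
def p15_10_3_22 : pfC (piC [(nat_lit 43428061), (nat_lit 27333682), (nat_lit 20249535), (nat_lit 13625780)] (nat_lit 4636242)) p15_10_3 (nat_lit 4) (nat_lit 22) (nat_lit 23) = true := by decide +kernel
def p15_10_3_23 : pfC (piC [(nat_lit 43428061), (nat_lit 27333682), (nat_lit 20249535), (nat_lit 13625780)] (nat_lit 4636242)) p15_10_3 (nat_lit 4) (nat_lit 23) (nat_lit 24) = true := by decide +kernel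
def p15_10_3_24 : pfC (piC [(nat_lit 43428061), (nat_lit 27333682), (nat_lit 20249535), (nat_lit 13625780)] (nat_lit 4636242)) p15_10_3 (nat_lit 4) (nat_lit 24) (nat_lit 25) = true := by decide +kernel
def p15_10_3_25 : pfC (piC [(nat_lit 43428061), (nat_lit 27333682), (nat_lit 20249535), (nat_lit 13625780)] (nat_lit 4636242)) p15_10_3 (nat_lit 4) (nat_lit 25) (nat_lit 26) = true := by decide +kernel
def p15_10_3_26 : pfC (piC [(nat_lit 43428061), (nat_lit 27333682), (nat_lit 20249535), (nat_lit 13625780)] (nat_lit 4636242)) p15_10_3 (nat_lit 4) (nat_lit 26) (nat_lit 27) = true := by decide +kernel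
def p15_10_3_27 : pfC (piC [(nat_lit 43428061), (nat_lit 27333682), (nat_lit 20249535), (nat_lit 13625780)] (nat_lit 4636242)) p15_10_3 (nat_lit 4) (nat_lit 27) (nat_lit 28) = true := by decide +kernel
def p15_10_3_28 : pfC (piC [(nat_lit 43428061), (nat_lit 27333682), (nat_lit 20249535), (nat_lit 13625780)] (nat_lit 4636242)) p15_10_3 (nat_lit 4) (nat_lit 28) (nat_lit 29) = true := by decide +kernel
def p15_10_3_29 : pfC (piC [(nat_lit 43428061), (nat_lit 27333682), (nat_lit 20249535), (nat_lit 13625780)] (nat_lit 4636242)) p15_10_3 (nat_lit 4) (nat_lit 29) (nat_lit 30) = true := by decide +kernel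
def p15_10_3_30 : pfC (piC [(nat_lit 43428061), (nat_lit 27333682), (nat_lit 20249535), (nat_lit 13625780)] (nat_lit 4636242)) p15_10_3 (nat_lit 4) (nat_lit 30) (nat_lit 31) = true := by decide +kernel
def p15_10_3_31 : pfC (piC [(nat_lit 43428061), (nat_lit 27333682), (nat_lit 20249535), (nat_lit 13625780)] (nat_lit 4636242)) p15_10_3 (nat_lit 4) (nat_lit 31) (nat_lit 32) = true := by decide +kernel
def p15_10_3_32 : pfC (piC [(nat_lit 43428061), (nat_lit 27333682), (nat_lit 20249535), (nat_lit 13625780)] (nat_lit 4636242)) p15_10_3 (nat_lit 4) (nat_lit 32) (nat_lit 33) = true := by decide +kernel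
def p15_10_3_33 : pfC (piC [(nat_lit 43428061), (nat_lit 27333682), (nat_lit 20249535), (nat_lit 13625780)] (nat_lit 4636242)) p15_10_3 (nat_lit 4) (nat_lit 33) (nat_lit 34) = true := by decide +kernel
def p15_10_3_34 : pfC (piC [(nat_lit 43428061), (nat_lit 27333682), (nat_lit 20249535), (nat_lit 13625780)] (nat_lit 4636242)) p15_10_3 (nat_lit 4) (nat_lit 34) (nat_lit 35) = true := by decide +kernel
def p15_10_3_35 : pfC (piC [(nat_lit 43428061), (nat_lit 27333682), (nat_lit 20249535), (nat_lit 13625780)] (nat_lit 4636242)) p15_10_3 (nat_lit 4) (nat_lit 35) (nat_lit 36) = true := by decide +kernel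
def p15_10_3_36 : pfC (piC [(nat_lit 43428061), (nat_lit 27333682), (nat_lit 20249535), (nat_lit 13625780)] (nat_lit 4636242)) p15_10_3 (nat_lit 4) (nat_lit 36) (nat_lit 37) = true := by decide +kernel
def p15_10_3_37 : pfC (piC [(nat_lit 43428061), (nat_lit 27333682), (nat_lit 20249535), (nat_lit 13625780)] (nat_lit 4636242)) p15_10_3 (nat_lit 4) (nat_lit 37) (nat_lit 38) = true := by decide +kernel
def p15_10_3_38 : pfC (piC [(nat_lit 43428061), (nat_lit 27333682), (nat_lit 20249535), (nat_lit 13625780)] (nat_lit 4636242)) p15_10_3 (nat_lit 4) (nat_lit 38) (nat_lit 39) = true := by decide +kernel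
def p15_10_3_39 : pfC (piC [(nat_lit 43428061), (nat_lit 27333682), (nat_lit 20249535), (nat_lit 13625780)] (nat_lit 4636242)) p15_10_3 (nat_lit 4) (nat_lit 39) (nat_lit 40) = true := by decide +kernel
def p15_10_3_40 : pfC (piC [(nat_lit 43428061), (nat_lit 27333682), (nat_lit 20249535), (nat_lit 13625780)] (nat_lit 4636242)) p15_10_3 (nat_lit 4) (nat_lit 40) (nat_lit 41) = true := by decide +kernel
def p15_10_3_41 : pfC (piC [(nat_lit 43428061), (nat_lit 27333682), (nat_lit 20249535), (nat_lit 13625780)] (nat_lit 4636242)) p15_10_3 (nat_lit 4) (nat_lit 41) (nat_lit 42) = true := by decide +kernel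
def p15_10_3_42 : pfC (piC [(nat_lit 43428061), (nat_lit 27333682), (nat_lit 20249535), (nat_lit 13625780)] (nat_lit 4636242)) p15_10_3 (nat_lit 4) (nat_lit 42) (nat_lit 43) = true := by decide +kernel
def p15_10_3_43 : pfC (piC [(nat_lit 43428061), (nat_lit 27333682), (nat_lit 20249535), (nat_lit 13625780)] (nat_lit 4636242)) p15_10_3 (nat_lit 4) (nat_lit 43) (nat_lit 44) = true := by decide +kernel
def p15_10_3_44 : pfC (piC [(nat_lit 43428061), (nat_lit 27333682), (nat_lit 20249535), (nat_lit 13625780)] (nat_lit 4636242)) p15_10_3 (nat_lit 4) (nat_lit 44) (nat_lit 45) = true := by decide +kernel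
def p15_10_3_45 : pfC (piC [(nat_lit 43428061), (nat_lit 27333682), (nat_lit 20249535), (nat_lit 13625780)] (nat_lit 4636242)) p15_10_3 (nat_lit 4) (nat_lit 45) (nat_lit 46) = true := by decide +kernel
def p15_10_3_46 : pfC (piC [(nat_lit 43428061), (nat_lit 27333682), (nat_lit 20249535), (nat_lit 13625780)] (nat_lit 4636242)) p15_10_3 (nat_lit 4) (nat_lit 46) (nat_lit 47) = true := by decide +kernel
def p15_10_3_47 : pfC (piC [(nat_lit 43428061), (nat_lit 27333682), (nat_lit 20249535), (nat_lit 13625780)] (nat_lit 4636242)) p15_10_3 (nat_lit 4) (nat_lit 47) (nat_lit 48) = true := by decide +kernel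
def p15_10_3_48 : pfC (piC [(nat_lit 43428061), (nat_lit 27333682), (nat_lit 20249535), (nat_lit 13625780)] (nat_lit 4636242)) p15_10_3 (nat_lit 4) (nat_lit 48) (nat_lit 49) = true := by decide +kernel
def p15_10_3_49 : pfC (piC [(nat_lit 43428061), (nat_lit 27333682), (nat_lit 20249535), (nat_lit 13625780)] (nat_lit 4636242)) p15_10_3 (nat_lit 4) (nat_lit 49) (nat_lit 50) = true := by decide +kernel
def p15_10_3_50 : pfC (piC [(nat_lit 43428061), (nat_lit 27333682), (nat_lit 20249535), (nat_lit 13625780)] (nat_lit 4636242)) p15_10_3 (nat_lit 4) (nat_lit 50) (nat_lit 51) = true := by decide +kernel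
def p15_10_3_51 : pfC (piC [(nat_lit 43428061), (nat_lit 27333682), (nat_lit 20249535), (nat_lit 13625780)] (nat_lit 4636242)) p15_10_3 (nat_lit 4) (nat_lit 51) (nat_lit 52) = true := by decide +kernel
def p15_10_3_52 : pfC (piC [(nat_lit 43428061), (nat_lit 27333682), (nat_lit 20249535), (nat_lit 13625780)] (nat_lit 4636242)) p15_10_3 (nat_lit 4) (nat_lit 52) (nat_lit 53) = true := by decide +kernel
def p15_10_3_53 : pfC (piC [(nat_lit 43428061), (nat_lit 27333682), (nat_lit 20249535), (nat_lit 13625780)] (nat_lit 4636242)) p15_10_3 (nat_lit 4) (nat_lit 53) (nat_lit 54) = true := by decide +kernel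
def p15_10_3_54 : pfC (piC [(nat_lit 43428061), (nat_lit 27333682), (nat_lit 20249535), (nat_lit 13625780)] (nat_lit 4636242)) p15_10_3 (nat_lit 4) (nat_lit 54) (nat_lit 55) = true := by decide +kernel
def p15_10_3_55 : pfC (piC [(nat_lit 43428061), (nat_lit 27333682), (nat_lit 20249535), (nat_lit 13625780)] (nat_lit 4636242)) p15_10_3 (nat_lit 4) (nat_lit 55) (nat_lit 56) = true := by decide +kernel
def p15_10_3_56 : pfC (piC [(nat_lit 43428061), (nat_lit 27333682), (nat_lit 20249535), (nat_lit 13625780)] (nat_lit 4636242)) p15_10_3 (nat_lit 4) (nat_lit 56) (nat_lit 57) = true := by decide +kernel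
def p15_10_3_57 : pfC (piC [(nat_lit 43428061), (nat_lit 27333682), (nat_lit 20249535), (nat_lit 13625780)] (nat_lit 4636242)) p15_10_3 (nat_lit 4) (nat_lit 57) (nat_lit 58) = true := by decide +kernel
def p15_10_3_58 : pfC (piC [(nat_lit 43428061), (nat_lit 27333682), (nat_lit 20249535), (nat_lit 13625780)] (nat_lit 4636242)) p15_10_3 (nat_lit 4) (nat_lit 58) (nat_lit 59) = true := by decide +kernel
def p15_10_3_59 : pfC (piC [(nat_lit 43428061), (nat_lit 27333682), (nat_lit 20249535), (nat_lit 13625780)] (nat_lit 4636242)) p15_10_3 (nat_lit 4) (nat_lit 59) (nat_lit 60) = true := by decide +kernel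
def p15_10_3_60 : pfC (piC [(nat_lit 43428061), (nat_lit 27333682), (nat_lit 20249535), (nat_lit 13625780)] (nat_lit 4636242)) p15_10_3 (nat_lit 4) (nat_lit 60) (nat_lit 61) = true := by decide +kernel
def p15_10_3_61 : pfC (piC [(nat_lit 43428061), (nat_lit 27333682), (nat_lit 20249535), (nat_lit 13625780)] (nat_lit 4636242)) p15_10_3 (nat_lit 4) (nat_lit 61) (nat_lit 62) = true := by decide +kernel
def p15_10_3_62 : pfC (piC [(nat_lit 43428061), (nat_lit 27333682), (nat_lit 20249535), (nat_lit 13625780)] (nat_lit 4636242)) p15_10_3 (nat_lit 4) (nat_lit 62) (nat_lit 63) = true := by decide +kernel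
def p15_10_3_63 : pfC (piC [(nat_lit 43428061), (nat_lit 27333682), (nat_lit 20249535), (nat_lit 13625780)] (nat_lit 4636242)) p15_10_3 (nat_lit 4) (nat_lit 63) (nat_lit 64) = true := by decide +kernel
def p15_10_3_64 : pfC (piC [(nat_lit 43428061), (nat_lit 27333682), (nat_lit 20249535), (nat_lit 13625780)] (nat_lit 4636242)) p15_10_3 (nat_lit 4) (nat_lit 64) (nat_lit 65) = true := by decide +kernel
def p15_10_3_65 : pfC (piC [(nat_lit 43428061), (nat_lit 27333682), (nat_lit 20249535), (nat_lit 13625780)] (nat_lit 4636242)) p15_10_3 (nat_lit 4) (nat_lit 65) (nat_lit 66) = true := by decide +kernel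
def p15_10_3_66 : pfC (piC [(nat_lit 43428061), (nat_lit 27333682), (nat_lit 20249535), (nat_lit 13625780)] (nat_lit 4636242)) p15_10_3 (nat_lit 4) (nat_lit 66) (nat_lit 67) = true := by decide +kernel
def p15_10_3_67 : pfC (piC [(nat_lit 43428061), (nat_lit 27333682), (nat_lit 20249535), (nat_lit 13625780)] (nat_lit 4636242)) p15_10_3 (nat_lit 4) (nat_lit 67) (nat_lit 68) = true := by decide +kernel
def p15_10_3_68 : pfC (piC [(nat_lit 43428061), (nat_lit 27333682), (nat_lit 20249535), (nat_lit 13625780)] (nat_lit 4636242)) p15_10_3 (nat_lit 4) (nat_lit 68) (nat_lit 69) = true := by decide +kernel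
def p15_10_3_69 : pfC (piC [(nat_lit 43428061), (nat_lit 27333682), (nat_lit 20249535), (nat_lit 13625780)] (nat_lit 4636242)) p15_10_3 (nat_lit 4) (nat_lit 69) (nat_lit 70) = true := by decide +kernel
def p15_10_3_70 : pfC (piC [(nat_lit 43428061), (nat_lit 27333682), (nat_lit 20249535), (nat_lit 13625780)] (nat_lit 4636242)) p15_10_3 (nat_lit 4) (nat_lit 70) (nat_lit 71) = true := by decide +kernel
def p15_10_3_71 : pfC (piC [(nat_lit 43428061), (nat_lit 27333682), (nat_lit 20249535), (nat_lit 13625780)] (nat_lit 4636242)) p15_10_3 (nat_lit 4) (nat_lit 71) (nat_lit 72) = true := by decide +kernel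
def p15_10_3_72 : pfC (piC [(nat_lit 43428061), (nat_lit 27333682), (nat_lit 20249535), (nat_lit 13625780)] (nat_lit 4636242)) p15_10_3 (nat_lit 4) (nat_lit 72) (nat_lit 73) = true := by decide +kernel
def p15_10_3_73 : pfC (piC [(nat_lit 43428061), (nat_lit 27333682), (nat_lit 20249535), (nat_lit 13625780)] (nat_lit 4636242)) p15_10_3 (nat_lit 4) (nat_lit 73) (nat_lit 74) = true := by decide +kernel
def p15_10_3_74 : pfC (piC [(nat_lit 43428061), (nat_lit 27333682), (nat_lit 20249535), (nat_lit 13625780)] (nat_lit 4636242)) p15_10_3 (nat_lit 4) (nat_lit 74) (nat_lit 75) = true := by decide +kernel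
def p15_10_3_75 : pfC (piC [(nat_lit 43428061), (nat_lit 27333682), (nat_lit 20249535), (nat_lit 13625780)] (nat_lit 4636242)) p15_10_3 (nat_lit 4) (nat_lit 75) (nat_lit 76) = true := by decide +kernel
def p15_10_3_76 : pfC (piC [(nat_lit 43428061), (nat_lit 27333682), (nat_lit 20249535), (nat_lit 13625780)] (nat_lit 4636242)) p15_10_3 (nat_lit 4) (nat_lit 76) (nat_lit 77) = true := by decide +kernel
def p15_10_3_77 : pfC (piC [(nat_lit 43428061), (nat_lit 27333682), (nat_lit 20249535), (nat_lit 13625780)] (nat_lit 4636242)) p15_10_3 (nat_lit 4) (nat_lit 77) (nat_lit 78) = true := by decide +kernel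
def p15_10_3_78 : pfC (piC [(nat_lit 43428061), (nat_lit 27333682), (nat_lit 20249535), (nat_lit 13625780)] (nat_lit 4636242)) p15_10_3 (nat_lit 4) (nat_lit 78) (nat_lit 79) = true := by decide +kernel
def p15_10_3_79 : pfC (piC [(nat_lit 43428061), (nat_lit 27333682), (nat_lit 20249535), (nat_lit 13625780)] (nat_lit 4636242)) p15_10_3 (nat_lit 4) (nat_lit 79) (nat_lit 80) = true := by decide +kernel
def p15_10_3_80 : pfC (piC [(nat_lit 43428061), (nat_lit 27333682), (nat_lit 20249535), (nat_lit 13625780)] (nat_lit 4636242)) p15_10_3 (nat_lit 4) (nat_lit 80) (nat_lit 81) = true := by decide +kernel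
def p15_10_3_81 : pfC (piC [(nat_lit 43428061), (nat_lit 27333682), (nat_lit 20249535), (nat_lit 13625780)] (nat_lit 4636242)) p15_10_3 (nat_lit 4) (nat_lit 81) (nat_lit 82) = true := by decide +kernel
def p15_10_3_82 : pfC (piC [(nat_lit 43428061), (nat_lit 27333682), (nat_lit 20249535), (nat_lit 13625780)] (nat_lit 4636242)) p15_10_3 (nat_lit 4) (nat_lit 82) (nat_lit 83) = true := by decide +kernel
theorem p15_10_3_T : PfS (PiF n15_10.reverse (nat_lit 4636242)) p15_10_3 (nat_lit 4) [] 0 :=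
  pftab_of (los := [(nat_lit 43428061), (nat_lit 27333682), (nat_lit 20249535), (nat_lit 13625780)]) (by decide +kernel) (hi := (nat_lit 83)) (PfP.trans (PfP.trans (PfP.trans (PfP.trans (PfP.trans (PfP.trans (PfP.trans (PfP.trans (PfP.trans (PfP.trans (PfP.trans (PfP.trans (PfP.trans (PfP.trans (PfP.trans (PfP.trans (PfP.trans (PfP.trans (PfP.trans (PfP.trans (PfP.trans (PfP.trans (PfP.trans (PfP.trans (PfP.trans (PfP.trans (PfP.trans (PfP.trans (PfP.trans (PfP.trans (PfP.trans (PfP.trans (PfP.trans (PfP.trans (PfP.trans (PfP.trans (PfP.trans (PfP.trans (PfP.trans (PfP.trans (PfP.trans (PfP.trans (PfP.trans (PfP.trans (PfP.trans (PfP.trans (PfP.trans (PfP.trans (PfP.trans (PfP.trans (PfP.trans (PfP.trans (PfP.trans (PfP.trans (PfP.trans (PfP.trans (PfP.trans (PfP.trans (PfP.trans (PfP.trans (PfP.trans (PfP.trans (PfP.trans (PfP.trans (PfP.trans (PfP.trans (PfP.trans (PfP.trans (PfP.trans (PfP.trans (PfP.trans (PfP.trans (PfP.trans (PfP.trans (PfP.trans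 (PfP.trans (PfP.trans (PfP.trans (PfP.trans (PfP.trans (PfP.trans (PfP.trans (pfC_sound p15_10_3_0) (pfC_sound p15_10_3_1)) (pfC_sound p15_10_3_2)) (pfC_sound p15_10_3_3)) (pfC_sound p15_10_3_4)) (pfC_sound p15_10_3_5)) (pfC_sound p15_10_3_6)) (pfC_sound p15_10_3_7)) (pfC_sound p15_10_3_8)) (pfC_sound p15_10_3_9)) (pfC_sound p15_10_3_10)) (pfC_sound p15_10_3_11))
 (pfC_sound p15_10_3_12)) (pfC_sound p15_10_3_13)) (pfC_sound p15_10_3_14)) (pfC_sound p15_10_3_15)) (pfC_sound p15_10_3_16)) (pfC_sound p15_10_3_17)) (pfC_sound p15_10_3_18)) (pfC_sound p15_10_3_19)) (pfC_sound p15_10_3_20)) (pfC_sound p15_10_3_21)) (pfC_sound p15_10_3_22)) (pfC_sound p15_10_3_23)) (pfC_sound p15_10_3_24)) (pfC_sound p15_10_3_25)) (pfC_sound p15_10_3_26)) (pfC_sound p15_10_3_27)) (pfC_sound p15_10_3_28)) (pfC_sound p15_10_3_29)) (pfC_sound p15_10_3_30)) (pfC_sound p15_10_3_31)) (pfC_sound p15_10_3_32)) (pfC_sound p15_10_3_33)) (pfC_sound p15_10_3_34)) (pfC_sound p15_10_3_35))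 (pfC_sound p15_10_3_36)) (pfC_sound p15_10_3_37)) (pfC_sound p15_10_3_38)) (pfC_sound p15_10_3_39)) (pfC_sound p15_10_3_40)) (pfC_sound p15_10_3_41)) (pfC_sound p15_10_3_42)) (pfC_sound p15_10_3_43)) (pfC_sound p15_10_3_44)) (pfC_sound p15_10_3_45)) (pfC_sound p15_10_3_46)) (pfC_sound p15_10_3_47)) (pfC_sound p15_10_3_48)) (pfC_sound p15_10_3_49)) (pfC_sound p15_10_3_50)) (pfC_sound p15_10_3_51)) (pfC_sound p15_10_3_52)) (pfC_sound p15_10_3_53)) (pfC_sound p15_10_3_54)) (pfC_sound p15_10_3_55)) (pfC_sound p15_10_3_56)) (pfC_sound p15_10_3_57)) (pfC_sound p15_10_3_58)) (pfC_sound p15_10_3_59))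
 (pfC_sound p15_10_3_60)) (pfC_sound p15_10_3_61)) (pfC_sound p15_10_3_62)) (pfC_sound p15_10_3_63)) (pfC_sound p15_10_3_64)) (pfC_sound p15_10_3_65)) (pfC_sound p15_10_3_66)) (pfC_sound p15_10_3_67)) (pfC_sound p15_10_3_68)) (pfC_sound p15_10_3_69)) (pfC_sound p15_10_3_70)) (pfC_sound p15_10_3_71)) (pfC_sound p15_10_3_72)) (pfC_sound p15_10_3_73)) (pfC_sound p15_10_3_74)) (pfC_sound p15_10_3_75)) (pfC_sound p15_10_3_76)) (pfC_sound p15_10_3_77)) (pfC_sound p15_10_3_78)) (pfC_sound p15_10_3_79)) (pfC_sound p15_10_3_80)) (pfC_sound p15_10_3_81)) (pfC_sound p15_10_3_82)) (by decide +kernel)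

def z15_10_3 : zOK yB15_10 (nat_lit 3) (nat_lit 750) (nat_lit 922) (nat_lit 4636242) (nat_lit 2757537) = true := by decide +kernel
def g15_10_3 : gOK yB15_10.x P15_10 (nat_lit 1429) (q15_10 :: r15_10) (nat_lit 3) (nat_lit 750) (nat_lit 4) (nat_lit 922) (nat_lit 12712500) (nat_lit 12712500) (nat_lit 12712500) (nat_lit 12712500) [(nat_lit 800)] = true := by decide +kernel
def v15_10_3 : ivC P15_10 s15_10 w15_10 n15_10 (nat_lit 4) (nat_lit 4750) (nat_lit 3) (nat_lit 750) f136_1_750 f144_1_750 (nat_lit 4) (nat_lit 922) f136_1_922 f144_1_922 (nat_lit 4636242) (nat_lit 2757537) p15_10_3 = true := by decide +kernel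
/-! box `yB15_11` -/

def P15_11 : BQ := ⟨(nat_lit 8), (nat_lit 2), (nat_lit 6), (nat_lit 0), (nat_lit 8), (nat_lit 710), (nat_lit 720), (nat_lit 120), [(nat_lit 200), (nat_lit 300), (nat_lit 450), (nat_lit 800)], (nat_lit 79648000), (nat_lit 16000000), (nat_lit 16000000000)⟩
def q15_11 : PC := ⟨(nat_lit 1000), [(nat_lit 120000), (nat_lit 200000), (nat_lit 300000), (nat_lit 450000), (nat_lit 800000)], (nat_lit 340282367000166625996085689103316680705000000), (nat_lit 15920352000000), (nat_lit 15920352000000), (nat_lit 10000000)⟩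
def r15_11 : List PC := [⟨(nat_lit 1322), [(nat_lit 120559), (nat_lit 201169), (nat_lit 301617), (nat_lit 451879), (nat_lit 799141)], (nat_lit 342422743088653213015495841932077034659335805), (nat_lit 16322962696320), (nat_lit 16328970855680), (nat_lit 10058450)⟩]
def s15_11 : List PB := [⟨(nat_lit 26440), (nat_lit 1928944000000), [(nat_lit 201169), (nat_lit 301617), (nat_lit 451879), (nat_lit 799141)], (nat_lit 342422743088653213015495841932077034659335805), (nat_lit 1142222869538944), (nat_lit 1142228877698304), (nat_lit 51520)⟩]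
def n15_11 : List KN := [⟨(nat_lit 800), (nat_lit 450), (nat_lit 13547958), (nat_lit 7339693)⟩, ⟨(nat_lit 450), (nat_lit 300), (nat_lit 20099156), (nat_lit 13547958)⟩, ⟨(nat_lit 300), (nat_lit 200), (nat_lit 27181007), (nat_lit 20099156)⟩, ⟨(nat_lit 200), (nat_lit 120), (nat_lit 43428061), (nat_lit 27181007)⟩]
def w15_11 : List ℕ := [(nat_lit 51520)]
def par15_11 : parC yB15_11 P15_11 s15_11 r15_11 q15_11 n15_11 w15_11 = true := by decide +kernel

def p15_11_0 : PF := (PF.cons (PF.cons (PF.cons (PF.cons (PF.leaf (nat_lit 613096) (nat_lit 1783384) (nat_lit 65325428) (nat_lit 1783384) [(nat_lit 0), (nat_lit 0), (nat_lit 0), (nat_lit 0)]) (PF.cons (PF.leaf (nat_lit 702185) (nat_lit 135015) (nat_lit 65153434) (nat_lit 1820362) [(nat_lit 135015), (nat_lit 0), (nat_lit 0), (nat_lit 0)]) (PF.cons (PF.leaf (nat_lit 816174) (nat_lit 149142) (nat_lit 64948535) (nat_lit 1861992) [(nat_lit 149142), (nat_lit 0), (nat_lit 0), (nat_lit 0)]) (PF.cons (PF.leaf (nat_lit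 946195) (nat_lit 162430) (nat_lit 64714829) (nat_lit 1906690) [(nat_lit 162430), (nat_lit 0), (nat_lit 0), (nat_lit 0)]) (PF.cons (PF.leaf (nat_lit 1091804) (nat_lit 175097) (nat_lit 64455072) (nat_lit 1953351) [(nat_lit 175097), (nat_lit 0), (nat_lit 0), (nat_lit 0)]) (PF.cons (PF.leaf (nat_lit 1251313) (nat_lit 187261) (nat_lit 64171344) (nat_lit 2001160) [(nat_lit 187261), (nat_lit 0), (nat_lit 0), (nat_lit 0)]) (PF.cons (PF.leaf (nat_lit 1424500) (nat_lit 198995) (nat_lit 63865341) (nat_lit 2049500) [(nat_lit 198995), (nat_lit 0), (nat_lit 0), (nat_lit 0)]) (PF.cons PF.nil (PF.cons PF.nil PF.nil))))))))) (PF.cons (PF.cons (PF.leaf (nat_lit 1038718) (nat_lit 841438) (nat_lit 64299399) (nat_lit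
 1967974) [(nat_lit 0), (nat_lit 841438), (nat_lit 0), (nat_lit 0)]) (PF.cons (PF.leaf (nat_lit 1169598) (nat_lit 177681) (nat_lit 64052793) (nat_lit 2008635) [(nat_lit 177681), (nat_lit 869702), (nat_lit 0), (nat_lit 0)]) (PF.cons (PF.leaf (nat_lit 1320063) (nat_lit 190033) (nat_lit 63778469) (nat_lit 2051411) [(nat_lit 190033), (nat_lit 898865), (nat_lit 0), (nat_lit 0)]) (PF.cons (PF.leaf (nat_lit 1484898) (nat_lit 201822) (nat_lit 63479547) (nat_lit 2095403) [(nat_lit 201822), (nat_lit 928393), (nat_lit 0), (nat_lit 0)]) (PF.cons (PF.leaf (nat_lit 1663376) (nat_lit 213145) (nat_lit 63158328) (nat_lit 2139966) [(nat_lit 213145), (nat_lit 957934), (nat_lit 0), (nat_lit 0)]) (PF.cons PF.nil (PF.cons PF.nil PF.nil))))))) (PF.cons (PF.cons (PF.leaf (nat_lit 1560036) (nat_lit 953871) (nat_lit 63058329) (nat_lit 2142740) [(nat_lit 0), (nat_lit 953871), (nat_lit 0), (nat_lit 0)]) (PF.cons (PF.leaf (nat_lit 1726089) (nat_lit 215104) (nat_lit 62749180) (nat_lit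 2182869) [(nat_lit 215104), (nat_lit 980829), (nat_lit 0), (nat_lit 0)]) (PF.cons (PF.leaf (nat_lit 1908150) (nat_lit 226117) (nat_lit 62416920) (nat_lit 2223701) [(nat_lit 226117), (nat_lit 1007977), (nat_lit 0), (nat_lit 0)])
 (PF.cons (PF.leaf (nat_lit 2102924) (nat_lit 236675) (nat_lit 62064037) (nat_lit 2264704) [(nat_lit 236675), (nat_lit 1035021), (nat_lit 0), (nat_lit 0)]) (PF.cons PF.nil PF.nil))))) (PF.cons (PF.cons (PF.leaf (nat_lit 2160594) (nat_lit 1054459) (nat_lit 61644225) (nat_lit 2301209) [(nat_lit 0), (nat_lit 1054459), (nat_lit 0), (nat_lit 0)]) (PF.cons (PF.leaf (nat_lit 2356147) (nat_lit 248239) (nat_lit 61283979) (nat_lit 2338629) [(nat_lit 248239), (nat_lit 1079321), (nat_lit 0), (nat_lit 0)]) (PF.cons (PF.leaf (nat_lit 2565151) (nat_lit 258068) (nat_lit 60904806) (nat_lit 2375935) [(nat_lit 258068), (nat_lit 1103978), (nat_lit 0), (nat_lit 0)]) (PF.cons PF.nil PF.nil)))) (PF.cons (PF.cons (PF.leaf (nat_lit 2825121) (nat_lit 1143077)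 (nat_lit 60095785) (nat_lit 2440719) [(nat_lit 0), (nat_lit 1143077), (nat_lit 0), (nat_lit 0)]) (PF.cons PF.nil PF.nil)) (PF.cons PF.nil PF.nil)))))) (PF.cons (PF.cons (PF.cons (PF.leaf (nat_lit 1611533) (nat_lit 2181273) (nat_lit 62319296) (nat_lit 2181273) [(nat_lit 0), (nat_lit 0), (nat_lit 2608242), (nat_lit 0)]) (PF.cons (PF.leaf (nat_lit 1759276) (nat_lit 206534) (nat_lit 62041665) (nat_lit 2215737) [(nat_lit 206534), (nat_lit 0), (nat_lit
 2644874), (nat_lit 0)]) (PF.cons (PF.leaf (nat_lit 1925531) (nat_lit 218788) (nat_lit 61736175) (nat_lit 2251784) [(nat_lit 218788), (nat_lit 0), (nat_lit 2683275), (nat_lit 0)]) (PF.cons (PF.leaf (nat_lit 2106164) (nat_lit 230252) (nat_lit 61406761) (nat_lit 2288659) [(nat_lit 230252), (nat_lit 0), (nat_lit 2722634), (nat_lit 0)]) (PF.cons (PF.leaf (nat_lit 2299527) (nat_lit 241084) (nat_lit 61056284) (nat_lit 2325825) [(nat_lit 241084), (nat_lit 0), (nat_lit 2762364), (nat_lit 0)]) (PF.cons PF.nil (PF.cons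 PF.nil PF.nil))))))) (PF.cons (PF.cons (PF.leaf (nat_lit 2174433) (nat_lit 1057943) (nat_lit 60961818) (nat_lit 2325631) [(nat_lit 0), (nat_lit 1057943), (nat_lit 2763419), (nat_lit 0)]) (PF.cons (PF.leaf (nat_lit 2354442) (nat_lit 241425) (nat_lit 60627587) (nat_lit 2359117) [(nat_lit 241425), (nat_lit 1081527), (nat_lit 2799155), (nat_lit 0)]) (PF.cons (PF.leaf (nat_lit 2549524) (nat_lit 251980) (nat_lit 60271328) (nat_lit 2393022) [(nat_lit 251980), (nat_lit 1105126), (nat_lit 2835374), (nat_lit 0)]) (PF.cons (PF.leaf (nat_lit 2756585) (nat_lit 261955) (nat_lit 59895948) (nat_lit 2426905) [(nat_lit 261955), (nat_lit 1128498), (nat_lit 2871594), (nat_lit 0)]) (PF.cons PF.nil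
 PF.nil))))) (PF.cons (PF.cons (PF.leaf (nat_lit 2805120) (nat_lit 1143456) (nat_lit 59464370) (nat_lit 2454960) [(nat_lit 0), (nat_lit 1143456), (nat_lit 2902569), (nat_lit 0)]) (PF.cons (PF.leaf (nat_lit 3011453) (nat_lit 271569) (nat_lit 59086365) (nat_lit 2485723) [(nat_lit 271569), (nat_lit 1164881), (nat_lit 2935391), (nat_lit 0)]) (PF.cons PF.nil (PF.cons PF.nil PF.nil)))) (PF.cons (PF.cons (PF.leaf (nat_lit 3488562) (nat_lit 1217859) (nat_lit 57864935) (nat_lit 2567228) [(nat_lit 0), (nat_lit 1217859), (nat_lit 3023069), (nat_lit 0)]) (PF.cons PF.nil PF.nil)) (PF.cons PF.nil PF.nil))))) (PF.cons (PF.cons (PF.cons (PF.leaf (nat_lit 2797347) (nat_lit 2468977) (nat_lit 58798700) (nat_lit 2468977) [(nat_lit 0), (nat_lit 0), (nat_lit 2920567), (nat_lit 0)]) (PF.cons (PF.leaf (nat_lit 2987798) (nat_lit 263471) (nat_lit 58448898) (nat_lit 2496720) [(nat_lit 263471), (nat_lit 0), (nat_lit 2949861), (nat_lit 0)]) (PF.cons (PF.leaf (nat_lit 3192502) (nat_lit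 273530) (nat_lit 58078355) (nat_lit 2524650) [(nat_lit 273530), (nat_lit 0), (nat_lit 2979373), (nat_lit 0)]) (PF.cons (PF.leaf (nat_lit 3408451) (nat_lit 282912) (nat_lit 57690251) (nat_lit 2552405) [(nat_lit 282912), (nat_lit
 0), (nat_lit 3008709), (nat_lit 0)]) (PF.cons PF.nil PF.nil))))) (PF.cons (PF.cons (PF.leaf (nat_lit 3447500) (nat_lit 1214617) (nat_lit 57256826) (nat_lit 2573569) [(nat_lit 0), (nat_lit 1214617), (nat_lit 3031899), (nat_lit 0)]) (PF.cons (PF.leaf (nat_lit 3661416) (nat_lit 290812) (nat_lit 56869883) (nat_lit 2598595) [(nat_lit 290812), (nat_lit 1232989), (nat_lit 3058266), (nat_lit 0)]) (PF.cons PF.nil (PF.cons PF.nil PF.nil)))) (PF.cons (PF.cons (PF.leaf (nat_lit 4140900) (nat_lit 1276668) (nat_lit 55640096) (nat_lit 2662710) [(nat_lit 0), (nat_lit 1276668), (nat_lit 3126334), (nat_lit 0)]) (PF.cons PF.nil PF.nil)) PF.nil))) (PF.cons (PF.cons (PF.cons (PF.leaf (nat_lit 4080811) (nat_lit 2663082) (nat_lit 55061252) (nat_lit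 2663082) [(nat_lit 0), (nat_lit 0), (nat_lit 3128159), (nat_lit 0)]) (PF.cons (PF.leaf (nat_lit 4299731) (nat_lit 306518) (nat_lit 54672290) (nat_lit 2683141) [(nat_lit 306518), (nat_lit 0), (nat_lit 3148954), (nat_lit 0)]) (PF.cons PF.nil PF.nil))) (PF.cons (PF.cons (PF.leaf (nat_lit 4777134) (nat_lit 1322031) (nat_lit 53452947) (nat_lit 2732512) [(nat_lit 0), (nat_lit 1322031), (nat_lit 3200440), (nat_lit 0)]) PF.nil) PF.nil)) (PF.cons PF.nil (PF.cons
 PF.nil PF.nil)))))) (PF.cons (PF.cons (PF.cons (PF.cons (PF.leaf (nat_lit 2652320) (nat_lit 2405638) (nat_lit 57066447) (nat_lit 2405638) [(nat_lit 0), (nat_lit 0), (nat_lit 0), (nat_lit 7636726)]) (PF.cons (PF.leaf (nat_lit 2809906) (nat_lit 233759) (nat_lit 56784537) (nat_lit 2431321) [(nat_lit 233759), (nat_lit 0), (nat_lit 0), (nat_lit 7659194)]) (PF.cons (PF.leaf (nat_lit 2985197) (nat_lit 245962) (nat_lit 56476624) (nat_lit 2457880) [(nat_lit 245962), (nat_lit 0), (nat_lit 0), (nat_lit 7682382)])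 (PF.cons (PF.leaf (nat_lit 3173867) (nat_lit 257097) (nat_lit 56147084) (nat_lit 2484745) [(nat_lit 257097), (nat_lit 0), (nat_lit 0), (nat_lit 7705689)]) (PF.cons (PF.leaf (nat_lit 3374358) (nat_lit 267382) (nat_lit 55799095) (nat_lit 2511522) [(nat_lit 267382), (nat_lit 0), (nat_lit 0), (nat_lit 7728665)]) (PF.cons (PF.leaf (nat_lit 3585386) (nat_lit 276959) (nat_lit 55435128) (nat_lit 2537929) [(nat_lit 276959), (nat_lit 0), (nat_lit 0), (nat_lit 7750956)]) (PF.cons (PF.leaf (nat_lit 3805906) (nat_lit 285928) (nat_lit 55057199) (nat_lit 2563759) [(nat_lit 285928), (nat_lit 0), (nat_lit 0), (nat_lit 7772284)]) (PF.cons PF.nil (PF.cons PF.nil PF.nil))))))))) (PF.cons (PF.cons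
 (PF.leaf (nat_lit 3228251) (nat_lit 1158983) (nat_lit 55713130) (nat_lit 2508239) [(nat_lit 0), (nat_lit 1158983), (nat_lit 0), (nat_lit 7728459)]) (PF.cons (PF.leaf (nat_lit 3414483) (nat_lit 265833) (nat_lit 55384028) (nat_lit 2532249) [(nat_lit 265833), (nat_lit 1178367), (nat_lit 0), (nat_lit 7748333)]) (PF.cons (PF.leaf (nat_lit 3614533) (nat_lit 275811) (nat_lit 55035535) (nat_lit 2556306) [(nat_lit 275811), (nat_lit 1197488), (nat_lit 0), (nat_lit 7767859)]) (PF.cons (PF.leaf (nat_lit 3825435) (nat_lit 285049) (nat_lit 54670725) (nat_lit 2580095) [(nat_lit 285049), (nat_lit 1216167), (nat_lit 0), (nat_lit 7786676)]) (PF.cons (PF.leaf (nat_lit 4045941) (nat_lit 293663) (nat_lit 54291959) (nat_lit 2603394) [(nat_lit 293663), (nat_lit 1234295), (nat_lit 0), (nat_lit 7804509)]) (PF.cons (PF.leaf (nat_lit 4275037) (nat_lit 301735) (nat_lit 53901148) (nat_lit 2626039) [(nat_lit 301735), (nat_lit 1251802), (nat_lit 0), (nat_lit 7821145)]) (PF.cons PF.nil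 PF.nil))))))) (PF.cons (PF.cons (PF.leaf (nat_lit 3858034) (nat_lit 1225398) (nat_lit 54260668) (nat_lit 2596886) [(nat_lit 0), (nat_lit 1225398), (nat_lit 0), (nat_lit 7800460)]) (PF.cons (PF.leaf (nat_lit 4066489) (nat_lit
 292236) (nat_lit 53897876) (nat_lit 2618171) [(nat_lit 292236), (nat_lit 1242331), (nat_lit 0), (nat_lit 7815864)]) (PF.cons (PF.leaf (nat_lit 4286033) (nat_lit 300576) (nat_lit 53520637) (nat_lit 2639064) [(nat_lit 300576), (nat_lit 1258829), (nat_lit 0), (nat_lit 7830298)]) (PF.cons (PF.leaf (nat_lit 4514330) (nat_lit 308351) (nat_lit 53131219) (nat_lit 2659387) [(nat_lit 308351), (nat_lit 1274799), (nat_lit 0), (nat_lit 7843551)]) (PF.cons PF.nil PF.nil))))) (PF.cons (PF.cons (PF.leaf (nat_lit 4527429) (nat_lit 1281137) (nat_lit 52744474) (nat_lit 2671042) [(nat_lit 0), (nat_lit 1281137), (nat_lit 0), (nat_lit 7849884)]) (PF.cons (PF.leaf (nat_lit 4753099) (nat_lit 314239) (nat_lit 52358528) (nat_lit 2689161) [(nat_lit 314239),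 (nat_lit 1295660), (nat_lit 0), (nat_lit 7859902)]) (PF.cons (PF.leaf (nat_lit 4987679) (nat_lit 321265) (nat_lit 51961982) (nat_lit 2706661) [(nat_lit 321265), (nat_lit 1309672), (nat_lit 0), (nat_lit 7868618)]) (PF.cons PF.nil PF.nil)))) (PF.cons (PF.cons (PF.leaf (nat_lit 5224778) (nat_lit 1327264) (nat_lit 51192512) (nat_lit 2731083) [(nat_lit 0), (nat_lit 1327264), (nat_lit 0), (nat_lit 7876158)]) (PF.cons PF.nil PF.nil)) (PF.cons PF.nil
 PF.nil)))))) (PF.cons (PF.cons (PF.cons (PF.leaf (nat_lit 3819993) (nat_lit 2596675) (nat_lit 53654229) (nat_lit 2596675) [(nat_lit 0), (nat_lit 0), (nat_lit 3059401), (nat_lit 7798505)]) (PF.cons (PF.leaf (nat_lit 4012693) (nat_lit 282061) (nat_lit 53320389) (nat_lit 2616182) [(nat_lit 282061), (nat_lit 0), (nat_lit 3079186), (nat_lit 7810993)]) (PF.cons (PF.leaf (nat_lit 4218500) (nat_lit 291486) (nat_lit 52968518) (nat_lit 2635603) [(nat_lit 291486), (nat_lit 0), (nat_lit 3098891), (nat_lit 7822827)]) (PF.cons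 (PF.leaf (nat_lit 4434470) (nat_lit 300114) (nat_lit 52601792) (nat_lit 2654682) [(nat_lit 300114), (nat_lit 0), (nat_lit 3118248), (nat_lit 7833746)]) (PF.cons (PF.leaf (nat_lit 4659306) (nat_lit 308081) (nat_lit 52222622) (nat_lit 2673243) [(nat_lit 308081), (nat_lit 0), (nat_lit 3137063), (nat_lit 7843559)]) (PF.cons PF.nil (PF.cons PF.nil PF.nil))))))) (PF.cons (PF.cons (PF.leaf (nat_lit 4458174) (nat_lit 1272334) (nat_lit 52200030) (nat_lit 2666600) [(nat_lit 0), (nat_lit 1272334), (nat_lit 3130864), (nat_lit 7838983)]) (PF.cons (PF.leaf (nat_lit 4670816) (nat_lit 305878) (nat_lit 51837789) (nat_lit 2683527) [(nat_lit 305878), (nat_lit 1286727), (nat_lit 3147937),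
 (nat_lit 7846952)]) (PF.cons (PF.leaf (nat_lit 4893762) (nat_lit 313623) (nat_lit 51462489) (nat_lit 2700023) [(nat_lit 313623), (nat_lit 1300667), (nat_lit 3164550), (nat_lit 7853835)]) (PF.cons (PF.leaf (nat_lit 5124760) (nat_lit 320776) (nat_lit 51076410) (nat_lit 2715947) [(nat_lit 320776), (nat_lit 1314082), (nat_lit 3180550), (nat_lit 7859491)]) (PF.cons PF.nil PF.nil))))) (PF.cons (PF.cons (PF.leaf (nat_lit 5128900) (nat_lit 1318240) (nat_lit 50701293) (nat_lit 2723675) [(nat_lit 0), (nat_lit 1318240), (nat_lit 3188598), (nat_lit 7858765)]) (PF.cons (PF.leaf (nat_lit 5356553) (nat_lit 325423) (nat_lit 50320605) (nat_lit 2737715) [(nat_lit 325423), (nat_lit 1330399), (nat_lit 3202577), (nat_lit 7861690)]) (PF.cons PF.nil (PF.cons PF.nil PF.nil)))) (PF.cons (PF.cons (PF.leaf (nat_lit 5821509) (nat_lit 1355571) (nat_lit 49182651) (nat_lit 2768382) [(nat_lit 0), (nat_lit 1355571), (nat_lit 3232965), (nat_lit 7858098)]) (PF.cons PF.nil PF.nil)) (PF.cons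 PF.nil PF.nil))))) (PF.cons (PF.cons (PF.cons (PF.leaf (nat_lit 5044512) (nat_lit 2715929) (nat_lit 50190501) (nat_lit 2715929) [(nat_lit 0), (nat_lit 0), (nat_lit 3181085), (nat_lit 7840210)]) (PF.cons (PF.leaf (nat_lit 5259526)
 (nat_lit 316799) (nat_lit 49832982) (nat_lit 2729121) [(nat_lit 316799), (nat_lit 0), (nat_lit 3194045), (nat_lit 7841818)]) (PF.cons (PF.leaf (nat_lit 5484223) (nat_lit 323990) (nat_lit 49463663) (nat_lit 2741858) [(nat_lit 323990), (nat_lit 0), (nat_lit 3206514), (nat_lit 7842281)]) (PF.cons PF.nil (PF.cons PF.nil PF.nil))))) (PF.cons (PF.cons (PF.leaf (nat_lit 5712145) (nat_lit 1345594) (nat_lit 48723858) (nat_lit 2758557) [(nat_lit 0), (nat_lit 1345594), (nat_lit 3222848), (nat_lit 7835104)]) (PF.cons (PF.leaf (nat_lit 5940363) (nat_lit 334153) (nat_lit 48351759) (nat_lit 2769125) [(nat_lit 334153), (nat_lit 1355703), (nat_lit 3232994), (nat_lit 7832082)]) (PF.cons PF.nil (PF.cons PF.nil PF.nil)))) (PF.cons (PF.cons (PF.leaf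 (nat_lit 6396714) (nat_lit 1375401) (nat_lit 47249572) (nat_lit 2790366) [(nat_lit 0), (nat_lit 1375401), (nat_lit 3252935), (nat_lit 7812199)]) (PF.cons PF.nil PF.nil)) PF.nil))) (PF.cons (PF.cons (PF.cons (PF.leaf (nat_lit 6275696) (nat_lit 2778807) (nat_lit 46822528) (nat_lit 2778807) [(nat_lit 0), (nat_lit 0), (nat_lit 3240745), (nat_lit 7785240)]) (PF.cons (PF.leaf (nat_lit 6503337) (nat_lit 340793) (nat_lit 46461354) (nat_lit 2786427) [(nat_lit
 340793), (nat_lit 0), (nat_lit 3247648), (nat_lit 7777293)]) PF.nil)) (PF.cons PF.nil PF.nil)) (PF.cons PF.nil (PF.cons PF.nil PF.nil)))))) (PF.cons (PF.cons (PF.cons (PF.cons (PF.leaf (nat_lit 4736042) (nat_lit 2645026) (nat_lit 49011659) (nat_lit 2645026) [(nat_lit 0), (nat_lit 0), (nat_lit 0), (nat_lit 7726063)]) (PF.cons (PF.leaf (nat_lit 4927120) (nat_lit 291867) (nat_lit 48703761) (nat_lit 2658712) [(nat_lit 291867), (nat_lit 0), (nat_lit 0), (nat_lit 7727235)]) (PF.cons (PF.leaf (nat_lit 5130372)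 (nat_lit 300697) (nat_lit 48380251) (nat_lit 2672150) [(nat_lit 300697), (nat_lit 0), (nat_lit 0), (nat_lit 7727508)]) (PF.cons (PF.leaf (nat_lit 5342887) (nat_lit 308658) (nat_lit 48044126) (nat_lit 2685164) [(nat_lit 308658), (nat_lit 0), (nat_lit 0), (nat_lit 7726773)]) (PF.cons (PF.leaf (nat_lit 5563353) (nat_lit 315908) (nat_lit 47697645) (nat_lit 2697633) [(nat_lit 315908), (nat_lit 0), (nat_lit 0), (nat_lit 7724950)]) (PF.cons (PF.leaf (nat_lit 5790724) (nat_lit 322556) (nat_lit 47342590) (nat_lit 2709474) [(nat_lit 322556), (nat_lit 0), (nat_lit 0), (nat_lit 7721983)]) (PF.cons PF.nil PF.nil))))))) (PF.cons (PF.cons (PF.leaf (nat_lit 5354215) (nat_lit 1295622) (nat_lit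
 47681617) (nat_lit 2690973) [(nat_lit 0), (nat_lit 1295622), (nat_lit 0), (nat_lit 7720300)]) (PF.cons (PF.leaf (nat_lit 5562612) (nat_lit 312851) (nat_lit 47351447) (nat_lit 2702284) [(nat_lit 312851), (nat_lit 1307063), (nat_lit 0), (nat_lit 7717583)]) (PF.cons (PF.leaf (nat_lit 5780392) (nat_lit 319910) (nat_lit 47010286) (nat_lit 2713129) [(nat_lit 319910), (nat_lit 1318006), (nat_lit 0), (nat_lit 7713784)]) (PF.cons (PF.leaf (nat_lit 6005327) (nat_lit 326345) (nat_lit 46660237) (nat_lit 2723415) [(nat_lit 326345), (nat_lit 1328409), (nat_lit 0), (nat_lit 7708857)]) (PF.cons PF.nil PF.nil))))) (PF.cons (PF.cons (PF.leaf (nat_lit 5997702) (nat_lit 1329913) (nat_lit 46324986) (nat_lit 2726229) [(nat_lit 0), (nat_lit 1329913), (nat_lit 0), (nat_lit 7698885)]) (PF.cons (PF.leaf (nat_lit 6218767) (nat_lit 329571) (nat_lit 45981324) (nat_lit 2735063) [(nat_lit 329571), (nat_lit 1339266), (nat_lit 0), (nat_lit 7692160)]) (PF.cons (PF.leaf (nat_lit 6447159)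 (nat_lit 335302) (nat_lit 45630026) (nat_lit 2743338) [(nat_lit 335302), (nat_lit 1348123), (nat_lit 0), (nat_lit 7684298)]) (PF.cons PF.nil PF.nil)))) (PF.cons (PF.cons (PF.leaf (nat_lit 6657219) (nat_lit 1356718) (nat_lit
 44961903) (nat_lit 2751553) [(nat_lit 0), (nat_lit 1356718), (nat_lit 0), (nat_lit 7662600)]) (PF.cons PF.nil PF.nil)) (PF.cons PF.nil PF.nil))))) (PF.cons (PF.cons (PF.cons (PF.leaf (nat_lit 5896253) (nat_lit 2714041) (nat_lit 45880995) (nat_lit 2714041) [(nat_lit 0), (nat_lit 0), (nat_lit 3171396), (nat_lit 7671189)]) (PF.cons (PF.leaf (nat_lit 6105468) (nat_lit 320423) (nat_lit 45558494) (nat_lit 2722513) [(nat_lit 320423), (nat_lit 0), (nat_lit 3179052), (nat_lit 7664164)]) (PF.cons (PF.leaf (nat_lit 6323487) (nat_lit 326979) (nat_lit 45226034) (nat_lit 2730520) [(nat_lit 326979), (nat_lit 0), (nat_lit 3186210), (nat_lit 7656044)]) (PF.cons (PF.leaf (nat_lit 6548226) (nat_lit 332905) (nat_lit 44885656) (nat_lit 2737991) [(nat_lit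 332905), (nat_lit 0), (nat_lit 3192800), (nat_lit 7646823)]) (PF.cons PF.nil PF.nil))))) (PF.cons (PF.cons (PF.leaf (nat_lit 6533529) (nat_lit 1345189) (nat_lit 44565521) (nat_lit 2738589) [(nat_lit 0), (nat_lit 1345189), (nat_lit 3192858), (nat_lit 7633326)]) (PF.cons (PF.leaf (nat_lit 6753958) (nat_lit 335287) (nat_lit 44232302) (nat_lit 2744835) [(nat_lit 335287), (nat_lit 1352906), (nat_lit 3198166), (nat_lit 7622657)]) (PF.cons PF.nil (PF.cons
 PF.nil PF.nil)))) (PF.cons (PF.cons (PF.leaf (nat_lit 7183252) (nat_lit 1366169) (nat_lit 43251525) (nat_lit 2754508) [(nat_lit 0), (nat_lit 1366169), (nat_lit 3205171), (nat_lit 7582634)]) (PF.cons PF.nil PF.nil)) PF.nil))) (PF.cons (PF.cons (PF.cons (PF.leaf (nat_lit 7050709) (nat_lit 2740783) (nat_lit 42883810) (nat_lit 2740783) [(nat_lit 0), (nat_lit 0), (nat_lit 3190489), (nat_lit 7551620)]) (PF.cons (PF.leaf (nat_lit 7269770) (nat_lit 339426) (nat_lit 42562223) (nat_lit 2744842) [(nat_lit 339426), (nat_lit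 0), (nat_lit 3193431), (nat_lit 7537728)]) PF.nil)) (PF.cons PF.nil PF.nil)) (PF.cons PF.nil (PF.cons PF.nil PF.nil))))) (PF.cons (PF.cons (PF.cons (PF.cons (PF.leaf (nat_lit 6654568) (nat_lit 2679159) (nat_lit 42103092) (nat_lit 2679159) [(nat_lit 0), (nat_lit 0), (nat_lit 0), (nat_lit 7442187)]) (PF.cons (PF.leaf (nat_lit 6857142) (nat_lit 319796) (nat_lit 41814671) (nat_lit 2684362) [(nat_lit 319796), (nat_lit 0), (nat_lit 0), (nat_lit 7429994)]) (PF.cons (PF.leaf (nat_lit 7067891) (nat_lit 325824) (nat_lit 41517733) (nat_lit 2689107) [(nat_lit 325824), (nat_lit 0), (nat_lit 0), (nat_lit 7416774)]) (PF.cons PF.nil PF.nil)))) (PF.cons (PF.cons (PF.leaf (nat_lit 7262173)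
 (nat_lit 1330068) (nat_lit 40931715) (nat_lit 2691440) [(nat_lit 0), (nat_lit 1330068), (nat_lit 0), (nat_lit 7385196)]) (PF.cons (PF.leaf (nat_lit 7474539) (nat_lit 332741) (nat_lit 40635037) (nat_lit 2694739) [(nat_lit 332741), (nat_lit 1336046), (nat_lit 0), (nat_lit 7370082)]) PF.nil)) (PF.cons PF.nil PF.nil))) (PF.cons (PF.cons (PF.cons (PF.leaf (nat_lit 7739458) (nat_lit 2682152) (nat_lit 39449530) (nat_lit 2682152) [(nat_lit 0), (nat_lit 0), (nat_lit 3117254), (nat_lit 7286625)]) (PF.cons PF.nil PF.nil)) (PF.cons PF.nil PF.nil)) (PF.cons PF.nil PF.nil))) (PF.cons (PF.cons (PF.cons (PF.cons (PF.leaf (nat_lit 8358146) (nat_lit 2612288) (nat_lit 36452157) (nat_lit 2612288) [(nat_lit 0), (nat_lit 0), (nat_lit 0), (nat_lit 7011091)]) (PF.cons PF.nil PF.nil)) (PF.cons PF.nil PF.nil)) (PF.cons PF.nil PF.nil)) (PF.cons PF.nil (PF.cons PF.nil (PF.cons PF.nil PF.nil))))))))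

def p15_11_0_0 : pfC (piC [(nat_lit 43428061), (nat_lit 27181007), (nat_lit 20099156), (nat_lit 13547958)] (nat_lit 25902673)) p15_11_0 (nat_lit 4) (nat_lit 0) (nat_lit 1) = true := by decide +kernel
def p15_11_0_1 : pfC (piC [(nat_lit 43428061), (nat_lit 27181007), (nat_lit 20099156), (nat_lit 13547958)] (nat_lit 25902673)) p15_11_0 (nat_lit 4) (nat_lit 1) (nat_lit 2) = true := by decide +kernel
def p15_11_0_2 : pfC (piC [(nat_lit 43428061), (nat_lit 27181007), (nat_lit 20099156), (nat_lit 13547958)] (nat_lit 25902673)) p15_11_0 (nat_lit 4) (nat_lit 2) (nat_lit 3) = true := by decide +kernel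
def p15_11_0_3 : pfC (piC [(nat_lit 43428061), (nat_lit 27181007), (nat_lit 20099156), (nat_lit 13547958)] (nat_lit 25902673)) p15_11_0 (nat_lit 4) (nat_lit 3) (nat_lit 4) = true := by decide +kernel
def p15_11_0_4 : pfC (piC [(nat_lit 43428061), (nat_lit 27181007), (nat_lit 20099156), (nat_lit 13547958)] (nat_lit 25902673)) p15_11_0 (nat_lit 4) (nat_lit 4) (nat_lit 5) = true := by decide +kernel
def p15_11_0_5 : pfC (piC [(nat_lit 43428061), (nat_lit 27181007), (nat_lit 20099156), (nat_lit 13547958)] (nat_lit 25902673)) p15_11_0 (nat_lit 4) (nat_lit 5) (nat_lit 6) = true := by decide +kernel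
def p15_11_0_6 : pfC (piC [(nat_lit 43428061), (nat_lit 27181007), (nat_lit 20099156), (nat_lit 13547958)] (nat_lit 25902673)) p15_11_0 (nat_lit 4) (nat_lit 6) (nat_lit 7) = true := by decide +kernel
def p15_11_0_7 : pfC (piC [(nat_lit 43428061), (nat_lit 27181007), (nat_lit 20099156), (nat_lit 13547958)] (nat_lit 25902673)) p15_11_0 (nat_lit 4) (nat_lit 7) (nat_lit 8) = true := by decide +kernel
def p15_11_0_8 : pfC (piC [(nat_lit 43428061), (nat_lit 27181007), (nat_lit 20099156), (nat_lit 13547958)] (nat_lit 25902673)) p15_11_0 (nat_lit 4) (nat_lit 8) (nat_lit 9) = true := by decide +kernel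
def p15_11_0_9 : pfC (piC [(nat_lit 43428061), (nat_lit 27181007), (nat_lit 20099156), (nat_lit 13547958)] (nat_lit 25902673)) p15_11_0 (nat_lit 4) (nat_lit 9) (nat_lit 10) = true := by decide +kernel
def p15_11_0_10 : pfC (piC [(nat_lit 43428061), (nat_lit 27181007), (nat_lit 20099156), (nat_lit 13547958)] (nat_lit 25902673)) p15_11_0 (nat_lit 4) (nat_lit 10) (nat_lit 11) = true := by decide +kernel
def p15_11_0_11 : pfC (piC [(nat_lit 43428061), (nat_lit 27181007), (nat_lit 20099156), (nat_lit 13547958)] (nat_lit 25902673)) p15_11_0 (nat_lit 4) (nat_lit 11) (nat_lit 12) = true := by decide +kernel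
def p15_11_0_12 : pfC (piC [(nat_lit 43428061), (nat_lit 27181007), (nat_lit 20099156), (nat_lit 13547958)] (nat_lit 25902673)) p15_11_0 (nat_lit 4) (nat_lit 12) (nat_lit 13) = true := by decide +kernel
def p15_11_0_13 : pfC (piC [(nat_lit 43428061), (nat_lit 27181007), (nat_lit 20099156), (nat_lit 13547958)] (nat_lit 25902673)) p15_11_0 (nat_lit 4) (nat_lit 13) (nat_lit 14) = true := by decide +kernel
def p15_11_0_14 : pfC (piC [(nat_lit 43428061), (nat_lit 27181007), (nat_lit 20099156), (nat_lit 13547958)] (nat_lit 25902673)) p15_11_0 (nat_lit 4) (nat_lit 14) (nat_lit 15) = true := by decide +kernel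
def p15_11_0_15 : pfC (piC [(nat_lit 43428061), (nat_lit 27181007), (nat_lit 20099156), (nat_lit 13547958)] (nat_lit 25902673)) p15_11_0 (nat_lit 4) (nat_lit 15) (nat_lit 16) = true := by decide +kernel
def p15_11_0_16 : pfC (piC [(nat_lit 43428061), (nat_lit 27181007), (nat_lit 20099156), (nat_lit 13547958)] (nat_lit 25902673)) p15_11_0 (nat_lit 4) (nat_lit 16) (nat_lit 17) = true := by decide +kernel
def p15_11_0_17 : pfC (piC [(nat_lit 43428061), (nat_lit 27181007), (nat_lit 20099156), (nat_lit 13547958)] (nat_lit 25902673)) p15_11_0 (nat_lit 4) (nat_lit 17) (nat_lit 18) = true := by decide +kernel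
def p15_11_0_18 : pfC (piC [(nat_lit 43428061), (nat_lit 27181007), (nat_lit 20099156), (nat_lit 13547958)] (nat_lit 25902673)) p15_11_0 (nat_lit 4) (nat_lit 18) (nat_lit 19) = true := by decide +kernel
def p15_11_0_19 : pfC (piC [(nat_lit 43428061), (nat_lit 27181007), (nat_lit 20099156), (nat_lit 13547958)] (nat_lit 25902673)) p15_11_0 (nat_lit 4) (nat_lit 19) (nat_lit 20) = true := by decide +kernel
def p15_11_0_20 : pfC (piC [(nat_lit 43428061), (nat_lit 27181007), (nat_lit 20099156), (nat_lit 13547958)] (nat_lit 25902673)) p15_11_0 (nat_lit 4) (nat_lit 20) (nat_lit 21) = true := by decide +kernel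
def p15_11_0_21 : pfC (piC [(nat_lit 43428061), (nat_lit 27181007), (nat_lit 20099156), (nat_lit 13547958)] (nat_lit 25902673)) p15_11_0 (nat_lit 4) (nat_lit 21) (nat_lit 22) = true := by decide +kernel
def p15_11_0_22 : pfC (piC [(nat_lit 43428061), (nat_lit 27181007), (nat_lit 20099156), (nat_lit 13547958)] (nat_lit 25902673)) p15_11_0 (nat_lit 4) (nat_lit 22) (nat_lit 23) = true := by decide +kernel
def p15_11_0_23 : pfC (piC [(nat_lit 43428061), (nat_lit 27181007), (nat_lit 20099156), (nat_lit 13547958)] (nat_lit 25902673)) p15_11_0 (nat_lit 4) (nat_lit 23) (nat_lit 24) = true := by decide +kernel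
def p15_11_0_24 : pfC (piC [(nat_lit 43428061), (nat_lit 27181007), (nat_lit 20099156), (nat_lit 13547958)] (nat_lit 25902673)) p15_11_0 (nat_lit 4) (nat_lit 24) (nat_lit 25) = true := by decide +kernel
def p15_11_0_25 : pfC (piC [(nat_lit 43428061), (nat_lit 27181007), (nat_lit 20099156), (nat_lit 13547958)] (nat_lit 25902673)) p15_11_0 (nat_lit 4) (nat_lit 25) (nat_lit 26) = true := by decide +kernel
def p15_11_0_26 : pfC (piC [(nat_lit 43428061), (nat_lit 27181007), (nat_lit 20099156), (nat_lit 13547958)] (nat_lit 25902673)) p15_11_0 (nat_lit 4) (nat_lit 26) (nat_lit 27) = true := by decide +kernel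
def p15_11_0_27 : pfC (piC [(nat_lit 43428061), (nat_lit 27181007), (nat_lit 20099156), (nat_lit 13547958)] (nat_lit 25902673)) p15_11_0 (nat_lit 4) (nat_lit 27) (nat_lit 28) = true := by decide +kernel
def p15_11_0_28 : pfC (piC [(nat_lit 43428061), (nat_lit 27181007), (nat_lit 20099156), (nat_lit 13547958)] (nat_lit 25902673)) p15_11_0 (nat_lit 4) (nat_lit 28) (nat_lit 29) = true := by decide +kernel
def p15_11_0_29 : pfC (piC [(nat_lit 43428061), (nat_lit 27181007), (nat_lit 20099156), (nat_lit 13547958)] (nat_lit 25902673)) p15_11_0 (nat_lit 4) (nat_lit 29) (nat_lit 30) = true := by decide +kernel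
def p15_11_0_30 : pfC (piC [(nat_lit 43428061), (nat_lit 27181007), (nat_lit 20099156), (nat_lit 13547958)] (nat_lit 25902673)) p15_11_0 (nat_lit 4) (nat_lit 30) (nat_lit 31) = true := by decide +kernel
def p15_11_0_31 : pfC (piC [(nat_lit 43428061), (nat_lit 27181007), (nat_lit 20099156), (nat_lit 13547958)] (nat_lit 25902673)) p15_11_0 (nat_lit 4) (nat_lit 31) (nat_lit 32) = true := by decide +kernel
def p15_11_0_32 : pfC (piC [(nat_lit 43428061), (nat_lit 27181007), (nat_lit 20099156), (nat_lit 13547958)] (nat_lit 25902673)) p15_11_0 (nat_lit 4) (nat_lit 32) (nat_lit 33) = true := by decide +kernel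
def p15_11_0_33 : pfC (piC [(nat_lit 43428061), (nat_lit 27181007), (nat_lit 20099156), (nat_lit 13547958)] (nat_lit 25902673)) p15_11_0 (nat_lit 4) (nat_lit 33) (nat_lit 34) = true := by decide +kernel
def p15_11_0_34 : pfC (piC [(nat_lit 43428061), (nat_lit 27181007), (nat_lit 20099156), (nat_lit 13547958)] (nat_lit 25902673)) p15_11_0 (nat_lit 4) (nat_lit 34) (nat_lit 35) = true := by decide +kernel
def p15_11_0_35 : pfC (piC [(nat_lit 43428061), (nat_lit 27181007), (nat_lit 20099156), (nat_lit 13547958)] (nat_lit 25902673)) p15_11_0 (nat_lit 4) (nat_lit 35) (nat_lit 36) = true := by decide +kernel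
def p15_11_0_36 : pfC (piC [(nat_lit 43428061), (nat_lit 27181007), (nat_lit 20099156), (nat_lit 13547958)] (nat_lit 25902673)) p15_11_0 (nat_lit 4) (nat_lit 36) (nat_lit 37) = true := by decide +kernel
def p15_11_0_37 : pfC (piC [(nat_lit 43428061), (nat_lit 27181007), (nat_lit 20099156), (nat_lit 13547958)] (nat_lit 25902673)) p15_11_0 (nat_lit 4) (nat_lit 37) (nat_lit 38) = true := by decide +kernel
def p15_11_0_38 : pfC (piC [(nat_lit 43428061), (nat_lit 27181007), (nat_lit 20099156), (nat_lit 13547958)] (nat_lit 25902673)) p15_11_0 (nat_lit 4) (nat_lit 38) (nat_lit 39) = true := by decide +kernel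
def p15_11_0_39 : pfC (piC [(nat_lit 43428061), (nat_lit 27181007), (nat_lit 20099156), (nat_lit 13547958)] (nat_lit 25902673)) p15_11_0 (nat_lit 4) (nat_lit 39) (nat_lit 40) = true := by decide +kernel
def p15_11_0_40 : pfC (piC [(nat_lit 43428061), (nat_lit 27181007), (nat_lit 20099156), (nat_lit 13547958)] (nat_lit 25902673)) p15_11_0 (nat_lit 4) (nat_lit 40) (nat_lit 41) = true := by decide +kernel
def p15_11_0_41 : pfC (piC [(nat_lit 43428061), (nat_lit 27181007), (nat_lit 20099156), (nat_lit 13547958)] (nat_lit 25902673)) p15_11_0 (nat_lit 4) (nat_lit 41) (nat_lit 42) = true := by decide +kernel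
def p15_11_0_42 : pfC (piC [(nat_lit 43428061), (nat_lit 27181007), (nat_lit 20099156), (nat_lit 13547958)] (nat_lit 25902673)) p15_11_0 (nat_lit 4) (nat_lit 42) (nat_lit 43) = true := by decide +kernel
def p15_11_0_43 : pfC (piC [(nat_lit 43428061), (nat_lit 27181007), (nat_lit 20099156), (nat_lit 13547958)] (nat_lit 25902673)) p15_11_0 (nat_lit 4) (nat_lit 43) (nat_lit 44) = true := by decide +kernel
def p15_11_0_44 : pfC (piC [(nat_lit 43428061), (nat_lit 27181007), (nat_lit 20099156), (nat_lit 13547958)] (nat_lit 25902673)) p15_11_0 (nat_lit 4) (nat_lit 44) (nat_lit 45) = true := by decide +kernel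
def p15_11_0_45 : pfC (piC [(nat_lit 43428061), (nat_lit 27181007), (nat_lit 20099156), (nat_lit 13547958)] (nat_lit 25902673)) p15_11_0 (nat_lit 4) (nat_lit 45) (nat_lit 46) = true := by decide +kernel
def p15_11_0_46 : pfC (piC [(nat_lit 43428061), (nat_lit 27181007), (nat_lit 20099156), (nat_lit 13547958)] (nat_lit 25902673)) p15_11_0 (nat_lit 4) (nat_lit 46) (nat_lit 47) = true := by decide +kernel
def p15_11_0_47 : pfC (piC [(nat_lit 43428061), (nat_lit 27181007), (nat_lit 20099156), (nat_lit 13547958)] (nat_lit 25902673)) p15_11_0 (nat_lit 4) (nat_lit 47) (nat_lit 48) = true := by decide +kernel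
def p15_11_0_48 : pfC (piC [(nat_lit 43428061), (nat_lit 27181007), (nat_lit 20099156), (nat_lit 13547958)] (nat_lit 25902673)) p15_11_0 (nat_lit 4) (nat_lit 48) (nat_lit 49) = true := by decide +kernel
def p15_11_0_49 : pfC (piC [(nat_lit 43428061), (nat_lit 27181007), (nat_lit 20099156), (nat_lit 13547958)] (nat_lit 25902673)) p15_11_0 (nat_lit 4) (nat_lit 49) (nat_lit 50) = true := by decide +kernel
def p15_11_0_50 : pfC (piC [(nat_lit 43428061), (nat_lit 27181007), (nat_lit 20099156), (nat_lit 13547958)] (nat_lit 25902673)) p15_11_0 (nat_lit 4) (nat_lit 50) (nat_lit 51) = true := by decide +kernel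
def p15_11_0_51 : pfC (piC [(nat_lit 43428061), (nat_lit 27181007), (nat_lit 20099156), (nat_lit 13547958)] (nat_lit 25902673)) p15_11_0 (nat_lit 4) (nat_lit 51) (nat_lit 52) = true := by decide +kernel
def p15_11_0_52 : pfC (piC [(nat_lit 43428061), (nat_lit 27181007), (nat_lit 20099156), (nat_lit 13547958)] (nat_lit 25902673)) p15_11_0 (nat_lit 4) (nat_lit 52) (nat_lit 53) = true := by decide +kernel
def p15_11_0_53 : pfC (piC [(nat_lit 43428061), (nat_lit 27181007), (nat_lit 20099156), (nat_lit 13547958)] (nat_lit 25902673)) p15_11_0 (nat_lit 4) (nat_lit 53) (nat_lit 54) = true := by decide +kernel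
def p15_11_0_54 : pfC (piC [(nat_lit 43428061), (nat_lit 27181007), (nat_lit 20099156), (nat_lit 13547958)] (nat_lit 25902673)) p15_11_0 (nat_lit 4) (nat_lit 54) (nat_lit 55) = true := by decide +kernel
def p15_11_0_55 : pfC (piC [(nat_lit 43428061), (nat_lit 27181007), (nat_lit 20099156), (nat_lit 13547958)] (nat_lit 25902673)) p15_11_0 (nat_lit 4) (nat_lit 55) (nat_lit 56) = true := by decide +kernel
def p15_11_0_56 : pfC (piC [(nat_lit 43428061), (nat_lit 27181007), (nat_lit 20099156), (nat_lit 13547958)] (nat_lit 25902673)) p15_11_0 (nat_lit 4) (nat_lit 56) (nat_lit 57) = true := by decide +kernel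
def p15_11_0_57 : pfC (piC [(nat_lit 43428061), (nat_lit 27181007), (nat_lit 20099156), (nat_lit 13547958)] (nat_lit 25902673)) p15_11_0 (nat_lit 4) (nat_lit 57) (nat_lit 58) = true := by decide +kernel
def p15_11_0_58 : pfC (piC [(nat_lit 43428061), (nat_lit 27181007), (nat_lit 20099156), (nat_lit 13547958)] (nat_lit 25902673)) p15_11_0 (nat_lit 4) (nat_lit 58) (nat_lit 59) = true := by decide +kernel
def p15_11_0_59 : pfC (piC [(nat_lit 43428061), (nat_lit 27181007), (nat_lit 20099156), (nat_lit 13547958)] (nat_lit 25902673)) p15_11_0 (nat_lit 4) (nat_lit 59) (nat_lit 60) = true := by decide +kernel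
def p15_11_0_60 : pfC (piC [(nat_lit 43428061), (nat_lit 27181007), (nat_lit 20099156), (nat_lit 13547958)] (nat_lit 25902673)) p15_11_0 (nat_lit 4) (nat_lit 60) (nat_lit 61) = true := by decide +kernel
def p15_11_0_61 : pfC (piC [(nat_lit 43428061), (nat_lit 27181007), (nat_lit 20099156), (nat_lit 13547958)] (nat_lit 25902673)) p15_11_0 (nat_lit 4) (nat_lit 61) (nat_lit 62) = true := by decide +kernel
def p15_11_0_62 : pfC (piC [(nat_lit 43428061), (nat_lit 27181007), (nat_lit 20099156), (nat_lit 13547958)] (nat_lit 25902673)) p15_11_0 (nat_lit 4) (nat_lit 62) (nat_lit 63) = true := by decide +kernel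
def p15_11_0_63 : pfC (piC [(nat_lit 43428061), (nat_lit 27181007), (nat_lit 20099156), (nat_lit 13547958)] (nat_lit 25902673)) p15_11_0 (nat_lit 4) (nat_lit 63) (nat_lit 64) = true := by decide +kernel
def p15_11_0_64 : pfC (piC [(nat_lit 43428061), (nat_lit 27181007), (nat_lit 20099156), (nat_lit 13547958)] (nat_lit 25902673)) p15_11_0 (nat_lit 4) (nat_lit 64) (nat_lit 65) = true := by decide +kernel
def p15_11_0_65 : pfC (piC [(nat_lit 43428061), (nat_lit 27181007), (nat_lit 20099156), (nat_lit 13547958)] (nat_lit 25902673)) p15_11_0 (nat_lit 4) (nat_lit 65) (nat_lit 66) = true := by decide +kernel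
def p15_11_0_66 : pfC (piC [(nat_lit 43428061), (nat_lit 27181007), (nat_lit 20099156), (nat_lit 13547958)] (nat_lit 25902673)) p15_11_0 (nat_lit 4) (nat_lit 66) (nat_lit 67) = true := by decide +kernel
def p15_11_0_67 : pfC (piC [(nat_lit 43428061), (nat_lit 27181007), (nat_lit 20099156), (nat_lit 13547958)] (nat_lit 25902673)) p15_11_0 (nat_lit 4) (nat_lit 67) (nat_lit 68) = true := by decide +kernel
def p15_11_0_68 : pfC (piC [(nat_lit 43428061), (nat_lit 27181007), (nat_lit 20099156), (nat_lit 13547958)] (nat_lit 25902673)) p15_11_0 (nat_lit 4) (nat_lit 68) (nat_lit 69) = true := by decide +kernel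
def p15_11_0_69 : pfC (piC [(nat_lit 43428061), (nat_lit 27181007), (nat_lit 20099156), (nat_lit 13547958)] (nat_lit 25902673)) p15_11_0 (nat_lit 4) (nat_lit 69) (nat_lit 70) = true := by decide +kernel
def p15_11_0_70 : pfC (piC [(nat_lit 43428061), (nat_lit 27181007), (nat_lit 20099156), (nat_lit 13547958)] (nat_lit 25902673)) p15_11_0 (nat_lit 4) (nat_lit 70) (nat_lit 71) = true := by decide +kernel
def p15_11_0_71 : pfC (piC [(nat_lit 43428061), (nat_lit 27181007), (nat_lit 20099156), (nat_lit 13547958)] (nat_lit 25902673)) p15_11_0 (nat_lit 4) (nat_lit 71) (nat_lit 72) = true := by decide +kernel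
def p15_11_0_72 : pfC (piC [(nat_lit 43428061), (nat_lit 27181007), (nat_lit 20099156), (nat_lit 13547958)] (nat_lit 25902673)) p15_11_0 (nat_lit 4) (nat_lit 72) (nat_lit 73) = true := by decide +kernel
def p15_11_0_73 : pfC (piC [(nat_lit 43428061), (nat_lit 27181007), (nat_lit 20099156), (nat_lit 13547958)] (nat_lit 25902673)) p15_11_0 (nat_lit 4) (nat_lit 73) (nat_lit 74) = true := by decide +kernel
def p15_11_0_74 : pfC (piC [(nat_lit 43428061), (nat_lit 27181007), (nat_lit 20099156), (nat_lit 13547958)] (nat_lit 25902673)) p15_11_0 (nat_lit 4) (nat_lit 74) (nat_lit 75) = true := by decide +kernel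
def p15_11_0_75 : pfC (piC [(nat_lit 43428061), (nat_lit 27181007), (nat_lit 20099156), (nat_lit 13547958)] (nat_lit 25902673)) p15_11_0 (nat_lit 4) (nat_lit 75) (nat_lit 76) = true := by decide +kernel
def p15_11_0_76 : pfC (piC [(nat_lit 43428061), (nat_lit 27181007), (nat_lit 20099156), (nat_lit 13547958)] (nat_lit 25902673)) p15_11_0 (nat_lit 4) (nat_lit 76) (nat_lit 77) = true := by decide +kernel
def p15_11_0_77 : pfC (piC [(nat_lit 43428061), (nat_lit 27181007), (nat_lit 20099156), (nat_lit 13547958)] (nat_lit 25902673)) p15_11_0 (nat_lit 4) (nat_lit 77) (nat_lit 78) = true := by decide +kernel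
def p15_11_0_78 : pfC (piC [(nat_lit 43428061), (nat_lit 27181007), (nat_lit 20099156), (nat_lit 13547958)] (nat_lit 25902673)) p15_11_0 (nat_lit 4) (nat_lit 78) (nat_lit 79) = true := by decide +kernel
def p15_11_0_79 : pfC (piC [(nat_lit 43428061), (nat_lit 27181007), (nat_lit 20099156), (nat_lit 13547958)] (nat_lit 25902673)) p15_11_0 (nat_lit 4) (nat_lit 79) (nat_lit 80) = true := by decide +kernel
def p15_11_0_80 : pfC (piC [(nat_lit 43428061), (nat_lit 27181007), (nat_lit 20099156), (nat_lit 13547958)] (nat_lit 25902673)) p15_11_0 (nat_lit 4) (nat_lit 80) (nat_lit 81) = true := by decide +kernel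
def p15_11_0_81 : pfC (piC [(nat_lit 43428061), (nat_lit 27181007), (nat_lit 20099156), (nat_lit 13547958)] (nat_lit 25902673)) p15_11_0 (nat_lit 4) (nat_lit 81) (nat_lit 82) = true := by decide +kernel
def p15_11_0_82 : pfC (piC [(nat_lit 43428061), (nat_lit 27181007), (nat_lit 20099156), (nat_lit 13547958)] (nat_lit 25902673)) p15_11_0 (nat_lit 4) (nat_lit 82) (nat_lit 83) = true := by decide +kernel
def p15_11_0_83 : pfC (piC [(nat_lit 43428061), (nat_lit 27181007), (nat_lit 20099156), (nat_lit 13547958)] (nat_lit 25902673)) p15_11_0 (nat_lit 4) (nat_lit 83) (nat_lit 84) = true := by decide +kernel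
def p15_11_0_84 : pfC (piC [(nat_lit 43428061), (nat_lit 27181007), (nat_lit 20099156), (nat_lit 13547958)] (nat_lit 25902673)) p15_11_0 (nat_lit 4) (nat_lit 84) (nat_lit 85) = true := by decide +kernel
def p15_11_0_85 : pfC (piC [(nat_lit 43428061), (nat_lit 27181007), (nat_lit 20099156), (nat_lit 13547958)] (nat_lit 25902673)) p15_11_0 (nat_lit 4) (nat_lit 85) (nat_lit 86) = true := by decide +kernel
def p15_11_0_86 : pfC (piC [(nat_lit 43428061), (nat_lit 27181007), (nat_lit 20099156), (nat_lit 13547958)] (nat_lit 25902673)) p15_11_0 (nat_lit 4) (nat_lit 86) (nat_lit 87) = true := by decide +kernel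
def p15_11_0_87 : pfC (piC [(nat_lit 43428061), (nat_lit 27181007), (nat_lit 20099156), (nat_lit 13547958)] (nat_lit 25902673)) p15_11_0 (nat_lit 4) (nat_lit 87) (nat_lit 88) = true := by decide +kernel
def p15_11_0_88 : pfC (piC [(nat_lit 43428061), (nat_lit 27181007), (nat_lit 20099156), (nat_lit 13547958)] (nat_lit 25902673)) p15_11_0 (nat_lit 4) (nat_lit 88) (nat_lit 89) = true := by decide +kernel
def p15_11_0_89 : pfC (piC [(nat_lit 43428061), (nat_lit 27181007), (nat_lit 20099156), (nat_lit 13547958)] (nat_lit 25902673)) p15_11_0 (nat_lit 4) (nat_lit 89) (nat_lit 90) = true := by decide +kernel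
def p15_11_0_90 : pfC (piC [(nat_lit 43428061), (nat_lit 27181007), (nat_lit 20099156), (nat_lit 13547958)] (nat_lit 25902673)) p15_11_0 (nat_lit 4) (nat_lit 90) (nat_lit 91) = true := by decide +kernel
def p15_11_0_91 : pfC (piC [(nat_lit 43428061), (nat_lit 27181007), (nat_lit 20099156), (nat_lit 13547958)] (nat_lit 25902673)) p15_11_0 (nat_lit 4) (nat_lit 91) (nat_lit 92) = true := by decide +kernel
def p15_11_0_92 : pfC (piC [(nat_lit 43428061), (nat_lit 27181007), (nat_lit 20099156), (nat_lit 13547958)] (nat_lit 25902673)) p15_11_0 (nat_lit 4) (nat_lit 92) (nat_lit 93) = true := by decide +kernel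
def p15_11_0_93 : pfC (piC [(nat_lit 43428061), (nat_lit 27181007), (nat_lit 20099156), (nat_lit 13547958)] (nat_lit 25902673)) p15_11_0 (nat_lit 4) (nat_lit 93) (nat_lit 94) = true := by decide +kernel
def p15_11_0_94 : pfC (piC [(nat_lit 43428061), (nat_lit 27181007), (nat_lit 20099156), (nat_lit 13547958)] (nat_lit 25902673)) p15_11_0 (nat_lit 4) (nat_lit 94) (nat_lit 95) = true := by decide +kernel
def p15_11_0_95 : pfC (piC [(nat_lit 43428061), (nat_lit 27181007), (nat_lit 20099156), (nat_lit 13547958)] (nat_lit 25902673)) p15_11_0 (nat_lit 4) (nat_lit 95) (nat_lit 96) = true := by decide +kernel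
def p15_11_0_96 : pfC (piC [(nat_lit 43428061), (nat_lit 27181007), (nat_lit 20099156), (nat_lit 13547958)] (nat_lit 25902673)) p15_11_0 (nat_lit 4) (nat_lit 96) (nat_lit 97) = true := by decide +kernel
def p15_11_0_97 : pfC (piC [(nat_lit 43428061), (nat_lit 27181007), (nat_lit 20099156), (nat_lit 13547958)] (nat_lit 25902673)) p15_11_0 (nat_lit 4) (nat_lit 97) (nat_lit 98) = true := by decide +kernel
def p15_11_0_98 : pfC (piC [(nat_lit 43428061), (nat_lit 27181007), (nat_lit 20099156), (nat_lit 13547958)] (nat_lit 25902673)) p15_11_0 (nat_lit 4) (nat_lit 98) (nat_lit 99) = true := by decide +kernel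
def p15_11_0_99 : pfC (piC [(nat_lit 43428061), (nat_lit 27181007), (nat_lit 20099156), (nat_lit 13547958)] (nat_lit 25902673)) p15_11_0 (nat_lit 4) (nat_lit 99) (nat_lit 100) = true := by decide +kernel
def p15_11_0_100 : pfC (piC [(nat_lit 43428061), (nat_lit 27181007), (nat_lit 20099156), (nat_lit 13547958)] (nat_lit 25902673)) p15_11_0 (nat_lit 4) (nat_lit 100) (nat_lit 101) = true := by decide +kernel
def p15_11_0_101 : pfC (piC [(nat_lit 43428061), (nat_lit 27181007), (nat_lit 20099156), (nat_lit 13547958)] (nat_lit 25902673)) p15_11_0 (nat_lit 4) (nat_lit 101) (nat_lit 102) = true := by decide +kernel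
def p15_11_0_102 : pfC (piC [(nat_lit 43428061), (nat_lit 27181007), (nat_lit 20099156), (nat_lit 13547958)] (nat_lit 25902673)) p15_11_0 (nat_lit 4) (nat_lit 102) (nat_lit 103) = true := by decide +kernel
def p15_11_0_103 : pfC (piC [(nat_lit 43428061), (nat_lit 27181007), (nat_lit 20099156), (nat_lit 13547958)] (nat_lit 25902673)) p15_11_0 (nat_lit 4) (nat_lit 103) (nat_lit 104) = true := by decide +kernel
def p15_11_0_104 : pfC (piC [(nat_lit 43428061), (nat_lit 27181007), (nat_lit 20099156), (nat_lit 13547958)] (nat_lit 25902673)) p15_11_0 (nat_lit 4) (nat_lit 104) (nat_lit 105) = true := by decide +kernel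
def p15_11_0_105 : pfC (piC [(nat_lit 43428061), (nat_lit 27181007), (nat_lit 20099156), (nat_lit 13547958)] (nat_lit 25902673)) p15_11_0 (nat_lit 4) (nat_lit 105) (nat_lit 106) = true := by decide +kernel
def p15_11_0_106 : pfC (piC [(nat_lit 43428061), (nat_lit 27181007), (nat_lit 20099156), (nat_lit 13547958)] (nat_lit 25902673)) p15_11_0 (nat_lit 4) (nat_lit 106) (nat_lit 107) = true := by decide +kernel
def p15_11_0_107 : pfC (piC [(nat_lit 43428061), (nat_lit 27181007), (nat_lit 20099156), (nat_lit 13547958)] (nat_lit 25902673)) p15_11_0 (nat_lit 4) (nat_lit 107) (nat_lit 108) = true := by decide +kernel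
def p15_11_0_108 : pfC (piC [(nat_lit 43428061), (nat_lit 27181007), (nat_lit 20099156), (nat_lit 13547958)] (nat_lit 25902673)) p15_11_0 (nat_lit 4) (nat_lit 108) (nat_lit 109) = true := by decide +kernel
def p15_11_0_109 : pfC (piC [(nat_lit 43428061), (nat_lit 27181007), (nat_lit 20099156), (nat_lit 13547958)] (nat_lit 25902673)) p15_11_0 (nat_lit 4) (nat_lit 109) (nat_lit 110) = true := by decide +kernel
def p15_11_0_110 : pfC (piC [(nat_lit 43428061), (nat_lit 27181007), (nat_lit 20099156), (nat_lit 13547958)] (nat_lit 25902673)) p15_11_0 (nat_lit 4) (nat_lit 110) (nat_lit 111) = true := by decide +kernel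
def p15_11_0_111 : pfC (piC [(nat_lit 43428061), (nat_lit 27181007), (nat_lit 20099156), (nat_lit 13547958)] (nat_lit 25902673)) p15_11_0 (nat_lit 4) (nat_lit 111) (nat_lit 112) = true := by decide +kernel
def p15_11_0_112 : pfC (piC [(nat_lit 43428061), (nat_lit 27181007), (nat_lit 20099156), (nat_lit 13547958)] (nat_lit 25902673)) p15_11_0 (nat_lit 4) (nat_lit 112) (nat_lit 113) = true := by decide +kernel
theorem p15_11_0_T : PfS (PiF n15_11.reverse (nat_lit 25902673)) p15_11_0 (nat_lit 4) [] 0 :=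
  pftab_of (los := [(nat_lit 43428061), (nat_lit 27181007), (nat_lit 20099156), (nat_lit 13547958)]) (by decide +kernel) (hi := (nat_lit 113)) (PfP.trans (PfP.trans (PfP.trans (PfP.trans (PfP.trans (PfP.trans (PfP.trans (PfP.trans (PfP.trans (PfP.trans (PfP.trans (PfP.trans (PfP.trans (PfP.trans (PfP.trans (PfP.trans (PfP.trans (PfP.trans (PfP.trans (PfP.trans (PfP.trans (PfP.trans (PfP.trans (PfP.trans (PfP.trans (PfP.trans (PfP.trans (PfP.trans (PfP.trans (PfP.trans (PfP.trans (PfP.trans (PfP.trans (PfP.trans (PfP.trans (PfP.trans (PfP.trans (PfP.trans (PfP.trans (PfP.trans (PfP.trans (PfP.trans (PfP.trans (PfP.trans (PfP.trans (PfP.trans (PfP.trans (PfP.trans (PfP.trans (PfP.trans (PfP.trans (PfP.trans (PfP.trans (PfP.trans (PfP.trans (PfP.trans (PfP.trans (PfP.trans (PfP.trans (PfP.trans (PfP.trans (PfP.trans (PfP.trans (PfP.trans (PfP.trans (PfP.trans (PfP.trans (PfP.trans (PfP.trans (PfP.trans (PfP.trans (PfP.trans (PfP.trans (PfP.trans (PfP.trans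 (PfP.trans (PfP.trans (PfP.trans (PfP.trans (PfP.trans (PfP.trans (PfP.trans (PfP.trans (PfP.trans (PfP.trans (PfP.trans (PfP.trans (PfP.trans (PfP.trans (PfP.trans (PfP.trans (PfP.trans (PfP.trans (PfP.trans (PfP.trans (PfP.trans (PfP.trans (PfP.trans (PfP.trans (PfP.trans (PfP.trans (PfP.trans (PfP.trans (PfP.trans (PfP.trans (PfP.trans (PfP.trans (PfP.trans (PfP.trans
 (PfP.trans (PfP.trans (PfP.trans (pfC_sound p15_11_0_0) (pfC_sound p15_11_0_1)) (pfC_sound p15_11_0_2)) (pfC_sound p15_11_0_3)) (pfC_sound p15_11_0_4)) (pfC_sound p15_11_0_5)) (pfC_sound p15_11_0_6)) (pfC_sound p15_11_0_7)) (pfC_sound p15_11_0_8)) (pfC_sound p15_11_0_9)) (pfC_sound p15_11_0_10)) (pfC_sound p15_11_0_11)) (pfC_sound p15_11_0_12)) (pfC_sound p15_11_0_13)) (pfC_sound p15_11_0_14)) (pfC_sound p15_11_0_15)) (pfC_sound p15_11_0_16)) (pfC_sound p15_11_0_17)) (pfC_sound p15_11_0_18)) (pfC_sound p15_11_0_19)) (pfC_sound p15_11_0_20)) (pfC_sound p15_11_0_21)) (pfC_sound p15_11_0_22))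 (pfC_sound p15_11_0_23)) (pfC_sound p15_11_0_24)) (pfC_sound p15_11_0_25)) (pfC_sound p15_11_0_26)) (pfC_sound p15_11_0_27)) (pfC_sound p15_11_0_28)) (pfC_sound p15_11_0_29)) (pfC_sound p15_11_0_30)) (pfC_sound p15_11_0_31)) (pfC_sound p15_11_0_32)) (pfC_sound p15_11_0_33)) (pfC_sound p15_11_0_34)) (pfC_sound p15_11_0_35)) (pfC_sound p15_11_0_36)) (pfC_sound p15_11_0_37)) (pfC_sound p15_11_0_38)) (pfC_sound p15_11_0_39)) (pfC_sound p15_11_0_40)) (pfC_sound p15_11_0_41)) (pfC_sound p15_11_0_42)) (pfC_sound p15_11_0_43)) (pfC_sound p15_11_0_44)) (pfC_sound p15_11_0_45)) (pfC_sound p15_11_0_46))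
 (pfC_sound p15_11_0_47)) (pfC_sound p15_11_0_48)) (pfC_sound p15_11_0_49)) (pfC_sound p15_11_0_50)) (pfC_sound p15_11_0_51)) (pfC_sound p15_11_0_52)) (pfC_sound p15_11_0_53)) (pfC_sound p15_11_0_54)) (pfC_sound p15_11_0_55)) (pfC_sound p15_11_0_56)) (pfC_sound p15_11_0_57)) (pfC_sound p15_11_0_58)) (pfC_sound p15_11_0_59)) (pfC_sound p15_11_0_60)) (pfC_sound p15_11_0_61)) (pfC_sound p15_11_0_62)) (pfC_sound p15_11_0_63)) (pfC_sound p15_11_0_64)) (pfC_sound p15_11_0_65)) (pfC_sound p15_11_0_66)) (pfC_sound p15_11_0_67)) (pfC_sound p15_11_0_68)) (pfC_sound p15_11_0_69)) (pfC_sound p15_11_0_70)) (pfC_sound p15_11_0_71)) (pfC_sound p15_11_0_72)) (pfC_sound p15_11_0_73)) (pfC_sound p15_11_0_74)) (pfC_sound p15_11_0_75)) (pfC_sound p15_11_0_76)) (pfC_sound p15_11_0_77)) (pfC_sound p15_11_0_78)) (pfC_sound p15_11_0_79)) (pfC_sound p15_11_0_80)) (pfC_sound p15_11_0_81)) (pfC_sound p15_11_0_82)) (pfC_sound p15_11_0_83)) (pfC_sound p15_11_0_84)) (pfC_sound p15_11_0_85))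 (pfC_sound p15_11_0_86)) (pfC_sound p15_11_0_87)) (pfC_sound p15_11_0_88)) (pfC_sound p15_11_0_89)) (pfC_sound p15_11_0_90)) (pfC_sound p15_11_0_91)) (pfC_sound p15_11_0_92)) (pfC_sound p15_11_0_93)) (pfC_sound p15_11_0_94))
 (pfC_sound p15_11_0_95)) (pfC_sound p15_11_0_96)) (pfC_sound p15_11_0_97)) (pfC_sound p15_11_0_98)) (pfC_sound p15_11_0_99)) (pfC_sound p15_11_0_100)) (pfC_sound p15_11_0_101)) (pfC_sound p15_11_0_102)) (pfC_sound p15_11_0_103)) (pfC_sound p15_11_0_104)) (pfC_sound p15_11_0_105)) (pfC_sound p15_11_0_106)) (pfC_sound p15_11_0_107)) (pfC_sound p15_11_0_108)) (pfC_sound p15_11_0_109)) (pfC_sound p15_11_0_110)) (pfC_sound p15_11_0_111)) (pfC_sound p15_11_0_112)) (by decide +kernel)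

def z15_11_0 : zOK yB15_11 (nat_lit 0) (nat_lit 0) (nat_lit 400) (nat_lit 25902673) (nat_lit 10106016) = true := by decide +kernel
def g15_11_0 : gOK yB15_11.x P15_11 (nat_lit 1429) (q15_11 :: r15_11) (nat_lit 0) (nat_lit 0) (nat_lit 1) (nat_lit 400) (nat_lit 0) (nat_lit 11000000) (nat_lit 12712500) (nat_lit 12712500) [(nat_lit 800), (nat_lit 1400), (nat_lit 1530)] = true := by decide +kernel
def v15_11_0 : ivC P15_11 s15_11 w15_11 n15_11 (nat_lit 4) (nat_lit 5490) (nat_lit 0) (nat_lit 0) f136_1_0 f144_1_0 (nat_lit 1) (nat_lit 400) f136_1_400 f144_1_400 (nat_lit 25902673) (nat_lit 10106016) p15_11_0 = true := by decide +kernel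
def p15_11_1 : PF := (PF.cons (PF.cons (PF.cons (PF.cons (PF.leaf (nat_lit 2189185) (nat_lit 10663435) (nat_lit 56445377) (nat_lit 10663435) [(nat_lit 0), (nat_lit 0), (nat_lit 0), (nat_lit 0)]) (PF.cons (PF.leaf (nat_lit 2299510) (nat_lit 178964) (nat_lit 56254686) (nat_lit 10675161) [(nat_lit 178964), (nat_lit 0), (nat_lit 0), (nat_lit 0)]) (PF.cons (PF.leaf (nat_lit 2433535) (nat_lit 194945) (nat_lit 56030810) (nat_lit 10688111) [(nat_lit 194945), (nat_lit 0), (nat_lit 0), (nat_lit 0)]) (PF.cons (PF.leaf (nat_lit 2584427) (nat_lit 209263) (nat_lit 55779381) (nat_lit 10701639) [(nat_lit 209263), (nat_lit 0), (nat_lit 0), (nat_lit 0)]) (PF.cons (PF.leaf (nat_lit 2750015) (nat_lit 222310) (nat_lit 55504327) (nat_lit 10715243) [(nat_lit 222310), (nat_lit 0), (nat_lit 0), (nat_lit 0)]) (PF.cons (PF.leaf (nat_lit 2928586) (nat_lit 234332) (nat_lit 55208633) (nat_lit 10728517) [(nat_lit 234332), (nat_lit 0), (nat_lit 0), (nat_lit 0)]) (PF.cons PF.nil PF.nil)))))))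 (PF.cons (PF.cons (PF.leaf (nat_lit 2663624) (nat_lit 1036775) (nat_lit 55354344) (nat_lit 10717693) [(nat_lit 0), (nat_lit 1036775), (nat_lit 0), (nat_lit 0)]) (PF.cons (PF.leaf (nat_lit 2812222) (nat_lit 221288) (nat_lit 55098967) (nat_lit
 10728581) [(nat_lit 221288), (nat_lit 1059975), (nat_lit 0), (nat_lit 0)]) (PF.cons (PF.leaf (nat_lit 2978420) (nat_lit 233759) (nat_lit 54818674) (nat_lit 10739383) [(nat_lit 233759), (nat_lit 1083235), (nat_lit 0), (nat_lit 0)]) (PF.cons (PF.leaf (nat_lit 3158127) (nat_lit 245194) (nat_lit 54517380) (nat_lit 10749690) [(nat_lit 245194), (nat_lit 1106156), (nat_lit 0), (nat_lit 0)]) (PF.cons PF.nil PF.nil))))) (PF.cons (PF.cons (PF.leaf (nat_lit 3212988) (nat_lit 1120533) (nat_lit 54110756) (nat_lit 10756989) [(nat_lit 0), (nat_lit 1120533), (nat_lit 0), (nat_lit 0)]) (PF.cons (PF.leaf (nat_lit 3390732) (nat_lit 254662) (nat_lit 53808106) (nat_lit 10764246) [(nat_lit 254662), (nat_lit 1140898), (nat_lit 0), (nat_lit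 0)]) (PF.cons (PF.leaf (nat_lit 3582399) (nat_lit 264855) (nat_lit 53486628) (nat_lit 10770584) [(nat_lit 264855), (nat_lit 1160944), (nat_lit 0), (nat_lit 0)]) (PF.cons PF.nil PF.nil)))) (PF.cons (PF.cons (PF.leaf (nat_lit 3818329) (nat_lit 1190314) (nat_lit 52762523) (nat_lit 10775345) [(nat_lit 0), (nat_lit 1190314), (nat_lit 0), (nat_lit 0)]) (PF.cons (PF.leaf (nat_lit 4018804) (nat_lit 281962) (nat_lit 52425703) (nat_lit 10777364) [(nat_lit 281962), (nat_lit
 1207927), (nat_lit 0), (nat_lit 0)]) PF.nil)) (PF.cons PF.nil (PF.cons PF.nil PF.nil)))))) (PF.cons (PF.cons (PF.cons (PF.leaf (nat_lit 3215984) (nat_lit 2910474) (nat_lit 53452134) (nat_lit 10746204) [(nat_lit 0), (nat_lit 0), (nat_lit 2910474), (nat_lit 0)]) (PF.cons (PF.leaf (nat_lit 3374056) (nat_lit 241072) (nat_lit 53184681) (nat_lit 10750628) [(nat_lit 241072), (nat_lit 0), (nat_lit 2932430), (nat_lit 0)]) (PF.cons (PF.leaf (nat_lit 3549126) (nat_lit 253050) (nat_lit 52893280) (nat_lit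 10754376) [(nat_lit 253050), (nat_lit 0), (nat_lit 2955054), (nat_lit 0)]) (PF.cons (PF.leaf (nat_lit 3737204) (nat_lit 263871) (nat_lit 52582187) (nat_lit 10757172) [(nat_lit 263871), (nat_lit 0), (nat_lit 2977839), (nat_lit 0)]) (PF.cons PF.nil PF.nil))))) (PF.cons (PF.cons (PF.leaf (nat_lit 3783813) (nat_lit 1180742) (nat_lit 52176573) (nat_lit 10754610) [(nat_lit 0), (nat_lit 1180742), (nat_lit 2996886), (nat_lit 0)]) (PF.cons (PF.leaf (nat_lit 3968660) (nat_lit 271512) (nat_lit 51867468) (nat_lit 10754633) [(nat_lit 271512), (nat_lit 1198186), (nat_lit 3017011), (nat_lit 0)]) (PF.cons (PF.leaf (nat_lit 4166651) (nat_lit 281104) (nat_lit 51540857) (nat_lit 10753416) [(nat_lit 281104),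
 (nat_lit 1215268), (nat_lit 3037061), (nat_lit 0)]) (PF.cons PF.nil PF.nil)))) (PF.cons (PF.cons (PF.leaf (nat_lit 4399485) (nat_lit 1238753) (nat_lit 50819605) (nat_lit 10742020) [(nat_lit 0), (nat_lit 1238753), (nat_lit 3069680), (nat_lit 0)]) (PF.cons PF.nil PF.nil)) (PF.cons PF.nil (PF.cons PF.nil PF.nil))))) (PF.cons (PF.cons (PF.cons (PF.leaf (nat_lit 4348457) (nat_lit 3065322) (nat_lit 50266843) (nat_lit 10711324) [(nat_lit 0), (nat_lit 0), (nat_lit 3065322), (nat_lit 0)]) (PF.cons (PF.leaf (nat_lit 4538268) (nat_lit 285254) (nat_lit 49956315) (nat_lit 10704913) [(nat_lit 285254), (nat_lit 0), (nat_lit 3081164), (nat_lit 0)]) (PF.cons PF.nil (PF.cons PF.nil PF.nil)))) (PF.cons (PF.cons (PF.leaf (nat_lit 4968880) (nat_lit 1275784) (nat_lit 48919950) (nat_lit 10672000) [(nat_lit 0), (nat_lit 1275784), (nat_lit 3120538), (nat_lit 0)]) (PF.cons PF.nil PF.nil)) (PF.cons PF.nil PF.nil))) (PF.cons (PF.cons (PF.cons (PF.leaf (nat_lit 5523963) (nat_lit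 3152823) (nat_lit 47078217) (nat_lit 10572125) [(nat_lit 0), (nat_lit 0), (nat_lit 3152823), (nat_lit 0)]) (PF.cons PF.nil PF.nil)) (PF.cons PF.nil PF.nil)) (PF.cons PF.nil PF.nil))))) (PF.cons (PF.cons (PF.cons (PF.cons (PF.leaf
 (nat_lit 4110323) (nat_lit 7595022) (nat_lit 48954567) (nat_lit 10559222) [(nat_lit 0), (nat_lit 0), (nat_lit 0), (nat_lit 7595022)]) (PF.cons (PF.leaf (nat_lit 4270264) (nat_lit 253395) (nat_lit 48703172) (nat_lit 10552971) [(nat_lit 253395), (nat_lit 0), (nat_lit 0), (nat_lit 7599273)]) (PF.cons (PF.leaf (nat_lit 4446539) (nat_lit 265027) (nat_lit 48430291) (nat_lit 10545390) [(nat_lit 265027), (nat_lit 0), (nat_lit 0), (nat_lit 7603075)]) (PF.cons (PF.leaf (nat_lit 4634851) (nat_lit 275363) (nat_lit 48140064) (nat_lit 10536436) [(nat_lit 275363), (nat_lit 0), (nat_lit 0), (nat_lit 7606221)]) (PF.cons (PF.leaf (nat_lit 4833498) (nat_lit 284676) (nat_lit 47835481) (nat_lit 10526071) [(nat_lit 284676), (nat_lit 0), (nat_lit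 0), (nat_lit 7608554)]) (PF.cons PF.nil (PF.cons PF.nil PF.nil))))))) (PF.cons (PF.cons (PF.leaf (nat_lit 4670111) (nat_lit 1216480) (nat_lit 47768463) (nat_lit 10519715) [(nat_lit 0), (nat_lit 1216480), (nat_lit 0), (nat_lit 7604153)]) (PF.cons (PF.leaf (nat_lit 4854229) (nat_lit 281344) (nat_lit 47482216) (nat_lit 10508895) [(nat_lit 281344), (nat_lit 1231044), (nat_lit 0), (nat_lit 7605311)]) (PF.cons (PF.leaf (nat_lit 5050597) (nat_lit 290366) (nat_lit
 47180733) (nat_lit 10496587) [(nat_lit 290366), (nat_lit 1245125), (nat_lit 0), (nat_lit 7605633)]) (PF.cons (PF.leaf (nat_lit 5256333) (nat_lit 298527) (nat_lit 46866807) (nat_lit 10482792) [(nat_lit 298527), (nat_lit 1258617), (nat_lit 0), (nat_lit 7605013)]) (PF.cons PF.nil PF.nil))))) (PF.cons (PF.cons (PF.leaf (nat_lit 5269425) (nat_lit 1262307) (nat_lit 46522778) (nat_lit 10462718) [(nat_lit 0), (nat_lit 1262307), (nat_lit 0), (nat_lit 7598701)]) (PF.cons (PF.leaf (nat_lit 5471338) (nat_lit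 303121) (nat_lit 46213603) (nat_lit 10447144) [(nat_lit 303121), (nat_lit 1274370), (nat_lit 0), (nat_lit 7596202)]) (PF.cons PF.nil (PF.cons PF.nil PF.nil)))) (PF.cons (PF.cons (PF.leaf (nat_lit 5895828) (nat_lit 1298708) (nat_lit 45245486) (nat_lit 10388765) [(nat_lit 0), (nat_lit 1298708), (nat_lit 0), (nat_lit 7578435)]) (PF.cons PF.nil PF.nil)) (PF.cons PF.nil PF.nil))))) (PF.cons (PF.cons (PF.cons (PF.leaf (nat_lit 5199579) (nat_lit 3077950) (nat_lit 46037610) (nat_lit 10419741) [(nat_lit 0), (nat_lit 0), (nat_lit 3077950), (nat_lit 7573509)]) (PF.cons (PF.leaf (nat_lit 5386734) (nat_lit 291586) (nat_lit 45753861) (nat_lit 10404465) [(nat_lit 291586), (nat_lit 0), (nat_lit 3088453),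
 (nat_lit 7570445)]) (PF.cons (PF.leaf (nat_lit 5585569) (nat_lit 300054) (nat_lit 45456024) (nat_lit 10387600) [(nat_lit 300054), (nat_lit 0), (nat_lit 3098649), (nat_lit 7566430)]) (PF.cons PF.nil PF.nil)))) (PF.cons (PF.cons (PF.leaf (nat_lit 5798889) (nat_lit 1285943) (nat_lit 44815624) (nat_lit 10344897) [(nat_lit 0), (nat_lit 1285943), (nat_lit 3111487), (nat_lit 7550859)]) (PF.cons (PF.leaf (nat_lit 6002125) (nat_lit 311177) (nat_lit 44512445) (nat_lit 10325097) [(nat_lit 311177), (nat_lit 1296102), (nat_lit 3119696), (nat_lit 7544294)]) PF.nil)) (PF.cons PF.nil PF.nil))) (PF.cons (PF.cons (PF.cons (PF.leaf (nat_lit 6313444) (nat_lit 3120875) (nat_lit 43173167) (nat_lit 10208978) [(nat_lit 0), (nat_lit 0), (nat_lit 3120875), (nat_lit 7484916)]) (PF.cons PF.nil PF.nil)) (PF.cons PF.nil PF.nil)) (PF.cons PF.nil (PF.cons PF.nil PF.nil))))) (PF.cons (PF.cons (PF.cons (PF.cons (PF.leaf (nat_lit 5966597) (nat_lit 7370940) (nat_lit 42305675) (nat_lit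 10061256) [(nat_lit 0), (nat_lit 0), (nat_lit 0), (nat_lit 7370940)]) (PF.cons (PF.leaf (nat_lit 6149615) (nat_lit 293438) (nat_lit 42049357) (nat_lit 10040830) [(nat_lit 293438), (nat_lit 0), (nat_lit 0), (nat_lit 7362593)]) (PF.cons
 (PF.leaf (nat_lit 6343635) (nat_lit 301396) (nat_lit 41780769) (nat_lit 10018791) [(nat_lit 301396), (nat_lit 0), (nat_lit 0), (nat_lit 7353229)]) (PF.cons PF.nil (PF.cons PF.nil PF.nil))))) (PF.cons (PF.cons (PF.leaf (nat_lit 6543090) (nat_lit 1279574) (nat_lit 41207930) (nat_lit 9966446) [(nat_lit 0), (nat_lit 1279574), (nat_lit 0), (nat_lit 7327430)]) (PF.cons (PF.leaf (nat_lit 6740485) (nat_lit 311005) (nat_lit 40935711) (nat_lit 9942121) [(nat_lit 311005), (nat_lit 1287859), (nat_lit 0), (nat_lit 7316057)]) (PF.cons PF.nil (PF.cons PF.nil PF.nil)))) (PF.cons (PF.cons (PF.leaf (nat_lit 7138048) (nat_lit 1301987) (nat_lit 40097246) (nat_lit 9860157) [(nat_lit 0), (nat_lit 1301987), (nat_lit 0), (nat_lit 7273716)]) (PF.cons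 PF.nil PF.nil)) PF.nil))) (PF.cons (PF.cons (PF.cons (PF.leaf (nat_lit 7021428) (nat_lit 3061981) (nat_lit 39751345) (nat_lit 9812761) [(nat_lit 0), (nat_lit 0), (nat_lit 3061981), (nat_lit 7241362)]) (PF.cons (PF.leaf (nat_lit 7218470) (nat_lit 315286) (nat_lit 39487291) (nat_lit 9786203) [(nat_lit 315286), (nat_lit 0), (nat_lit 3064689), (nat_lit 7227670)]) PF.nil)) (PF.cons PF.nil PF.nil)) (PF.cons PF.nil PF.nil))) (PF.cons (PF.cons (PF.cons (PF.cons
 (PF.leaf (nat_lit 7661594) (nat_lit 6981867) (nat_lit 36753754) (nat_lit 9409454) [(nat_lit 0), (nat_lit 0), (nat_lit 0), (nat_lit 6981867)]) (PF.cons PF.nil PF.nil)) (PF.cons PF.nil PF.nil)) (PF.cons PF.nil PF.nil)) (PF.cons PF.nil (PF.cons PF.nil (PF.cons PF.nil (PF.cons PF.nil PF.nil))))))))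

def p15_11_1_0 : pfC (piC [(nat_lit 43428061), (nat_lit 27181007), (nat_lit 20099156), (nat_lit 13547958)] (nat_lit 10106016)) p15_11_1 (nat_lit 4) (nat_lit 0) (nat_lit 1) = true := by decide +kernel
def p15_11_1_1 : pfC (piC [(nat_lit 43428061), (nat_lit 27181007), (nat_lit 20099156), (nat_lit 13547958)] (nat_lit 10106016)) p15_11_1 (nat_lit 4) (nat_lit 1) (nat_lit 2) = true := by decide +kernel
def p15_11_1_2 : pfC (piC [(nat_lit 43428061), (nat_lit 27181007), (nat_lit 20099156), (nat_lit 13547958)] (nat_lit 10106016)) p15_11_1 (nat_lit 4) (nat_lit 2) (nat_lit 3) = true := by decide +kernel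
def p15_11_1_3 : pfC (piC [(nat_lit 43428061), (nat_lit 27181007), (nat_lit 20099156), (nat_lit 13547958)] (nat_lit 10106016)) p15_11_1 (nat_lit 4) (nat_lit 3) (nat_lit 4) = true := by decide +kernel
def p15_11_1_4 : pfC (piC [(nat_lit 43428061), (nat_lit 27181007), (nat_lit 20099156), (nat_lit 13547958)] (nat_lit 10106016)) p15_11_1 (nat_lit 4) (nat_lit 4) (nat_lit 5) = true := by decide +kernel
def p15_11_1_5 : pfC (piC [(nat_lit 43428061), (nat_lit 27181007), (nat_lit 20099156), (nat_lit 13547958)] (nat_lit 10106016)) p15_11_1 (nat_lit 4) (nat_lit 5) (nat_lit 6) = true := by decide +kernel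
def p15_11_1_6 : pfC (piC [(nat_lit 43428061), (nat_lit 27181007), (nat_lit 20099156), (nat_lit 13547958)] (nat_lit 10106016)) p15_11_1 (nat_lit 4) (nat_lit 6) (nat_lit 7) = true := by decide +kernel
def p15_11_1_7 : pfC (piC [(nat_lit 43428061), (nat_lit 27181007), (nat_lit 20099156), (nat_lit 13547958)] (nat_lit 10106016)) p15_11_1 (nat_lit 4) (nat_lit 7) (nat_lit 8) = true := by decide +kernel
def p15_11_1_8 : pfC (piC [(nat_lit 43428061), (nat_lit 27181007), (nat_lit 20099156), (nat_lit 13547958)] (nat_lit 10106016)) p15_11_1 (nat_lit 4) (nat_lit 8) (nat_lit 9) = true := by decide +kernel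
def p15_11_1_9 : pfC (piC [(nat_lit 43428061), (nat_lit 27181007), (nat_lit 20099156), (nat_lit 13547958)] (nat_lit 10106016)) p15_11_1 (nat_lit 4) (nat_lit 9) (nat_lit 10) = true := by decide +kernel
def p15_11_1_10 : pfC (piC [(nat_lit 43428061), (nat_lit 27181007), (nat_lit 20099156), (nat_lit 13547958)] (nat_lit 10106016)) p15_11_1 (nat_lit 4) (nat_lit 10) (nat_lit 11) = true := by decide +kernel
def p15_11_1_11 : pfC (piC [(nat_lit 43428061), (nat_lit 27181007), (nat_lit 20099156), (nat_lit 13547958)] (nat_lit 10106016)) p15_11_1 (nat_lit 4) (nat_lit 11) (nat_lit 12) = true := by decide +kernel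
def p15_11_1_12 : pfC (piC [(nat_lit 43428061), (nat_lit 27181007), (nat_lit 20099156), (nat_lit 13547958)] (nat_lit 10106016)) p15_11_1 (nat_lit 4) (nat_lit 12) (nat_lit 13) = true := by decide +kernel
def p15_11_1_13 : pfC (piC [(nat_lit 43428061), (nat_lit 27181007), (nat_lit 20099156), (nat_lit 13547958)] (nat_lit 10106016)) p15_11_1 (nat_lit 4) (nat_lit 13) (nat_lit 14) = true := by decide +kernel
def p15_11_1_14 : pfC (piC [(nat_lit 43428061), (nat_lit 27181007), (nat_lit 20099156), (nat_lit 13547958)] (nat_lit 10106016)) p15_11_1 (nat_lit 4) (nat_lit 14) (nat_lit 15) = true := by decide +kernel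
def p15_11_1_15 : pfC (piC [(nat_lit 43428061), (nat_lit 27181007), (nat_lit 20099156), (nat_lit 13547958)] (nat_lit 10106016)) p15_11_1 (nat_lit 4) (nat_lit 15) (nat_lit 16) = true := by decide +kernel
def p15_11_1_16 : pfC (piC [(nat_lit 43428061), (nat_lit 27181007), (nat_lit 20099156), (nat_lit 13547958)] (nat_lit 10106016)) p15_11_1 (nat_lit 4) (nat_lit 16) (nat_lit 17) = true := by decide +kernel
def p15_11_1_17 : pfC (piC [(nat_lit 43428061), (nat_lit 27181007), (nat_lit 20099156), (nat_lit 13547958)] (nat_lit 10106016)) p15_11_1 (nat_lit 4) (nat_lit 17) (nat_lit 18) = true := by decide +kernel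
def p15_11_1_18 : pfC (piC [(nat_lit 43428061), (nat_lit 27181007), (nat_lit 20099156), (nat_lit 13547958)] (nat_lit 10106016)) p15_11_1 (nat_lit 4) (nat_lit 18) (nat_lit 19) = true := by decide +kernel
def p15_11_1_19 : pfC (piC [(nat_lit 43428061), (nat_lit 27181007), (nat_lit 20099156), (nat_lit 13547958)] (nat_lit 10106016)) p15_11_1 (nat_lit 4) (nat_lit 19) (nat_lit 20) = true := by decide +kernel
def p15_11_1_20 : pfC (piC [(nat_lit 43428061), (nat_lit 27181007), (nat_lit 20099156), (nat_lit 13547958)] (nat_lit 10106016)) p15_11_1 (nat_lit 4) (nat_lit 20) (nat_lit 21) = true := by decide +kernel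
def p15_11_1_21 : pfC (piC [(nat_lit 43428061), (nat_lit 27181007), (nat_lit 20099156), (nat_lit 13547958)] (nat_lit 10106016)) p15_11_1 (nat_lit 4) (nat_lit 21) (nat_lit 22) = true := by decide +kernel
def p15_11_1_22 : pfC (piC [(nat_lit 43428061), (nat_lit 27181007), (nat_lit 20099156), (nat_lit 13547958)] (nat_lit 10106016)) p15_11_1 (nat_lit 4) (nat_lit 22) (nat_lit 23) = true := by decide +kernel
def p15_11_1_23 : pfC (piC [(nat_lit 43428061), (nat_lit 27181007), (nat_lit 20099156), (nat_lit 13547958)] (nat_lit 10106016)) p15_11_1 (nat_lit 4) (nat_lit 23) (nat_lit 24) = true := by decide +kernel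
def p15_11_1_24 : pfC (piC [(nat_lit 43428061), (nat_lit 27181007), (nat_lit 20099156), (nat_lit 13547958)] (nat_lit 10106016)) p15_11_1 (nat_lit 4) (nat_lit 24) (nat_lit 25) = true := by decide +kernel
def p15_11_1_25 : pfC (piC [(nat_lit 43428061), (nat_lit 27181007), (nat_lit 20099156), (nat_lit 13547958)] (nat_lit 10106016)) p15_11_1 (nat_lit 4) (nat_lit 25) (nat_lit 26) = true := by decide +kernel
def p15_11_1_26 : pfC (piC [(nat_lit 43428061), (nat_lit 27181007), (nat_lit 20099156), (nat_lit 13547958)] (nat_lit 10106016)) p15_11_1 (nat_lit 4) (nat_lit 26) (nat_lit 27) = true := by decide +kernel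
def p15_11_1_27 : pfC (piC [(nat_lit 43428061), (nat_lit 27181007), (nat_lit 20099156), (nat_lit 13547958)] (nat_lit 10106016)) p15_11_1 (nat_lit 4) (nat_lit 27) (nat_lit 28) = true := by decide +kernel
def p15_11_1_28 : pfC (piC [(nat_lit 43428061), (nat_lit 27181007), (nat_lit 20099156), (nat_lit 13547958)] (nat_lit 10106016)) p15_11_1 (nat_lit 4) (nat_lit 28) (nat_lit 29) = true := by decide +kernel
def p15_11_1_29 : pfC (piC [(nat_lit 43428061), (nat_lit 27181007), (nat_lit 20099156), (nat_lit 13547958)] (nat_lit 10106016)) p15_11_1 (nat_lit 4) (nat_lit 29) (nat_lit 30) = true := by decide +kernel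
def p15_11_1_30 : pfC (piC [(nat_lit 43428061), (nat_lit 27181007), (nat_lit 20099156), (nat_lit 13547958)] (nat_lit 10106016)) p15_11_1 (nat_lit 4) (nat_lit 30) (nat_lit 31) = true := by decide +kernel
def p15_11_1_31 : pfC (piC [(nat_lit 43428061), (nat_lit 27181007), (nat_lit 20099156), (nat_lit 13547958)] (nat_lit 10106016)) p15_11_1 (nat_lit 4) (nat_lit 31) (nat_lit 32) = true := by decide +kernel
def p15_11_1_32 : pfC (piC [(nat_lit 43428061), (nat_lit 27181007), (nat_lit 20099156), (nat_lit 13547958)] (nat_lit 10106016)) p15_11_1 (nat_lit 4) (nat_lit 32) (nat_lit 33) = true := by decide +kernel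
def p15_11_1_33 : pfC (piC [(nat_lit 43428061), (nat_lit 27181007), (nat_lit 20099156), (nat_lit 13547958)] (nat_lit 10106016)) p15_11_1 (nat_lit 4) (nat_lit 33) (nat_lit 34) = true := by decide +kernel
def p15_11_1_34 : pfC (piC [(nat_lit 43428061), (nat_lit 27181007), (nat_lit 20099156), (nat_lit 13547958)] (nat_lit 10106016)) p15_11_1 (nat_lit 4) (nat_lit 34) (nat_lit 35) = true := by decide +kernel
def p15_11_1_35 : pfC (piC [(nat_lit 43428061), (nat_lit 27181007), (nat_lit 20099156), (nat_lit 13547958)] (nat_lit 10106016)) p15_11_1 (nat_lit 4) (nat_lit 35) (nat_lit 36) = true := by decide +kernel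
def p15_11_1_36 : pfC (piC [(nat_lit 43428061), (nat_lit 27181007), (nat_lit 20099156), (nat_lit 13547958)] (nat_lit 10106016)) p15_11_1 (nat_lit 4) (nat_lit 36) (nat_lit 37) = true := by decide +kernel
def p15_11_1_37 : pfC (piC [(nat_lit 43428061), (nat_lit 27181007), (nat_lit 20099156), (nat_lit 13547958)] (nat_lit 10106016)) p15_11_1 (nat_lit 4) (nat_lit 37) (nat_lit 38) = true := by decide +kernel
def p15_11_1_38 : pfC (piC [(nat_lit 43428061), (nat_lit 27181007), (nat_lit 20099156), (nat_lit 13547958)] (nat_lit 10106016)) p15_11_1 (nat_lit 4) (nat_lit 38) (nat_lit 39) = true := by decide +kernel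
def p15_11_1_39 : pfC (piC [(nat_lit 43428061), (nat_lit 27181007), (nat_lit 20099156), (nat_lit 13547958)] (nat_lit 10106016)) p15_11_1 (nat_lit 4) (nat_lit 39) (nat_lit 40) = true := by decide +kernel
def p15_11_1_40 : pfC (piC [(nat_lit 43428061), (nat_lit 27181007), (nat_lit 20099156), (nat_lit 13547958)] (nat_lit 10106016)) p15_11_1 (nat_lit 4) (nat_lit 40) (nat_lit 41) = true := by decide +kernel
def p15_11_1_41 : pfC (piC [(nat_lit 43428061), (nat_lit 27181007), (nat_lit 20099156), (nat_lit 13547958)] (nat_lit 10106016)) p15_11_1 (nat_lit 4) (nat_lit 41) (nat_lit 42) = true := by decide +kernel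
def p15_11_1_42 : pfC (piC [(nat_lit 43428061), (nat_lit 27181007), (nat_lit 20099156), (nat_lit 13547958)] (nat_lit 10106016)) p15_11_1 (nat_lit 4) (nat_lit 42) (nat_lit 43) = true := by decide +kernel
def p15_11_1_43 : pfC (piC [(nat_lit 43428061), (nat_lit 27181007), (nat_lit 20099156), (nat_lit 13547958)] (nat_lit 10106016)) p15_11_1 (nat_lit 4) (nat_lit 43) (nat_lit 44) = true := by decide +kernel
def p15_11_1_44 : pfC (piC [(nat_lit 43428061), (nat_lit 27181007), (nat_lit 20099156), (nat_lit 13547958)] (nat_lit 10106016)) p15_11_1 (nat_lit 4) (nat_lit 44) (nat_lit 45) = true := by decide +kernel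
def p15_11_1_45 : pfC (piC [(nat_lit 43428061), (nat_lit 27181007), (nat_lit 20099156), (nat_lit 13547958)] (nat_lit 10106016)) p15_11_1 (nat_lit 4) (nat_lit 45) (nat_lit 46) = true := by decide +kernel
def p15_11_1_46 : pfC (piC [(nat_lit 43428061), (nat_lit 27181007), (nat_lit 20099156), (nat_lit 13547958)] (nat_lit 10106016)) p15_11_1 (nat_lit 4) (nat_lit 46) (nat_lit 47) = true := by decide +kernel
def p15_11_1_47 : pfC (piC [(nat_lit 43428061), (nat_lit 27181007), (nat_lit 20099156), (nat_lit 13547958)] (nat_lit 10106016)) p15_11_1 (nat_lit 4) (nat_lit 47) (nat_lit 48) = true := by decide +kernel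
def p15_11_1_48 : pfC (piC [(nat_lit 43428061), (nat_lit 27181007), (nat_lit 20099156), (nat_lit 13547958)] (nat_lit 10106016)) p15_11_1 (nat_lit 4) (nat_lit 48) (nat_lit 49) = true := by decide +kernel
def p15_11_1_49 : pfC (piC [(nat_lit 43428061), (nat_lit 27181007), (nat_lit 20099156), (nat_lit 13547958)] (nat_lit 10106016)) p15_11_1 (nat_lit 4) (nat_lit 49) (nat_lit 50) = true := by decide +kernel
def p15_11_1_50 : pfC (piC [(nat_lit 43428061), (nat_lit 27181007), (nat_lit 20099156), (nat_lit 13547958)] (nat_lit 10106016)) p15_11_1 (nat_lit 4) (nat_lit 50) (nat_lit 51) = true := by decide +kernel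
def p15_11_1_51 : pfC (piC [(nat_lit 43428061), (nat_lit 27181007), (nat_lit 20099156), (nat_lit 13547958)] (nat_lit 10106016)) p15_11_1 (nat_lit 4) (nat_lit 51) (nat_lit 52) = true := by decide +kernel
def p15_11_1_52 : pfC (piC [(nat_lit 43428061), (nat_lit 27181007), (nat_lit 20099156), (nat_lit 13547958)] (nat_lit 10106016)) p15_11_1 (nat_lit 4) (nat_lit 52) (nat_lit 53) = true := by decide +kernel
def p15_11_1_53 : pfC (piC [(nat_lit 43428061), (nat_lit 27181007), (nat_lit 20099156), (nat_lit 13547958)] (nat_lit 10106016)) p15_11_1 (nat_lit 4) (nat_lit 53) (nat_lit 54) = true := by decide +kernel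
theorem p15_11_1_T : PfS (PiF n15_11.reverse (nat_lit 10106016)) p15_11_1 (nat_lit 4) [] 0 :=
  pftab_of (los := [(nat_lit 43428061), (nat_lit 27181007), (nat_lit 20099156), (nat_lit 13547958)]) (by decide +kernel) (hi := (nat_lit 54)) (PfP.trans (PfP.trans (PfP.trans (PfP.trans (PfP.trans (PfP.trans (PfP.trans (PfP.trans (PfP.trans (PfP.trans (PfP.trans (PfP.trans (PfP.trans (PfP.trans (PfP.trans (PfP.trans (PfP.trans (PfP.trans (PfP.trans (PfP.trans (PfP.trans (PfP.trans (PfP.trans (PfP.trans (PfP.trans (PfP.trans (PfP.trans (PfP.trans (PfP.trans (PfP.trans (PfP.trans (PfP.trans (PfP.trans (PfP.trans (PfP.trans (PfP.trans (PfP.trans (PfP.trans (PfP.trans (PfP.trans (PfP.trans (PfP.trans (PfP.trans (PfP.trans (PfP.trans (PfP.trans (PfP.trans (PfP.trans (PfP.trans (PfP.trans (PfP.trans (PfP.trans (PfP.trans (pfC_sound p15_11_1_0) (pfC_sound p15_11_1_1)) (pfC_sound p15_11_1_2)) (pfC_sound p15_11_1_3)) (pfC_sound p15_11_1_4)) (pfC_sound p15_11_1_5)) (pfC_sound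 p15_11_1_6)) (pfC_sound p15_11_1_7)) (pfC_sound p15_11_1_8)) (pfC_sound p15_11_1_9)) (pfC_sound p15_11_1_10)) (pfC_sound p15_11_1_11)) (pfC_sound p15_11_1_12)) (pfC_sound p15_11_1_13)) (pfC_sound p15_11_1_14)) (pfC_sound p15_11_1_15)) (pfC_sound p15_11_1_16)) (pfC_sound p15_11_1_17)) (pfC_sound p15_11_1_18)) (pfC_sound p15_11_1_19)) (pfC_sound p15_11_1_20)) (pfC_sound p15_11_1_21)) (pfC_sound p15_11_1_22)) (pfC_sound p15_11_1_23)) (pfC_sound p15_11_1_24))
 (pfC_sound p15_11_1_25)) (pfC_sound p15_11_1_26)) (pfC_sound p15_11_1_27)) (pfC_sound p15_11_1_28)) (pfC_sound p15_11_1_29)) (pfC_sound p15_11_1_30)) (pfC_sound p15_11_1_31)) (pfC_sound p15_11_1_32)) (pfC_sound p15_11_1_33)) (pfC_sound p15_11_1_34)) (pfC_sound p15_11_1_35)) (pfC_sound p15_11_1_36)) (pfC_sound p15_11_1_37)) (pfC_sound p15_11_1_38)) (pfC_sound p15_11_1_39)) (pfC_sound p15_11_1_40)) (pfC_sound p15_11_1_41)) (pfC_sound p15_11_1_42)) (pfC_sound p15_11_1_43)) (pfC_sound p15_11_1_44)) (pfC_sound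 p15_11_1_45)) (pfC_sound p15_11_1_46)) (pfC_sound p15_11_1_47)) (pfC_sound p15_11_1_48)) (pfC_sound p15_11_1_49)) (pfC_sound p15_11_1_50)) (pfC_sound p15_11_1_51)) (pfC_sound p15_11_1_52)) (pfC_sound p15_11_1_53)) (by decide +kernel)

def z15_11_1 : zOK yB15_11 (nat_lit 1) (nat_lit 400) (nat_lit 600) (nat_lit 10106016) (nat_lit 6558515) = true := by decide +kernel
def g15_11_1 : gOK yB15_11.x P15_11 (nat_lit 1429) (q15_11 :: r15_11) (nat_lit 1) (nat_lit 400) (nat_lit 2) (nat_lit 600) (nat_lit 11000000) (nat_lit 17850000) (nat_lit 12712500) (nat_lit 12712500) [(nat_lit 800), (nat_lit 1040)] = true := by decide +kernel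
def v15_11_1 : ivC P15_11 s15_11 w15_11 n15_11 (nat_lit 4) (nat_lit 5090) (nat_lit 1) (nat_lit 400) f136_1_400 f144_1_400 (nat_lit 2) (nat_lit 600) f136_1_600 f144_1_600 (nat_lit 10106016) (nat_lit 6558515) p15_11_1 = true := by decide +kernel
def p15_11_2 : PF := (PF.cons (PF.cons (PF.cons (PF.cons (PF.leaf (nat_lit 2790096) (nat_lit 16516056) (nat_lit 50592756) (nat_lit 16516056) [(nat_lit 0), (nat_lit 0), (nat_lit 0), (nat_lit 0)]) (PF.cons (PF.leaf (nat_lit 2897598) (nat_lit 178622) (nat_lit 50428147) (nat_lit 16502042) [(nat_lit 178622), (nat_lit 0), (nat_lit 0), (nat_lit 0)]) (PF.cons (PF.leaf (nat_lit 3028066) (nat_lit 194309) (nat_lit 50235098) (nat_lit 16485096) [(nat_lit 194309), (nat_lit 0), (nat_lit 0), (nat_lit 0)]) (PF.cons (PF.leaf (nat_lit 3174660) (nat_lit 208275) (nat_lit 50018541) (nat_lit 16465444) [(nat_lit 208275), (nat_lit 0), (nat_lit 0), (nat_lit 0)]) (PF.cons (PF.leaf (nat_lit 3335052) (nat_lit 220919) (nat_lit 49781924) (nat_lit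 16443209) [(nat_lit 220919), (nat_lit 0), (nat_lit 0), (nat_lit 0)]) (PF.cons (PF.leaf (nat_lit 3507967) (nat_lit 232495) (nat_lit 49527871) (nat_lit 16418465) [(nat_lit 232495), (nat_lit 0), (nat_lit 0), (nat_lit 0)]) (PF.cons (PF.leaf (nat_lit 3691761) (nat_lit 243177) (nat_lit 49258490) (nat_lit 16391259) [(nat_lit 243177), (nat_lit 0), (nat_lit 0), (nat_lit 0)]) (PF.cons PF.nil (PF.cons PF.nil PF.nil))))))))) (PF.cons (PF.cons (PF.leaf (nat_lit 3246345) (nat_lit 1026594) (nat_lit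
 49654162) (nat_lit 16428056) [(nat_lit 0), (nat_lit 1026594), (nat_lit 0), (nat_lit 0)]) (PF.cons (PF.leaf (nat_lit 3389909) (nat_lit 219411) (nat_lit 49434880) (nat_lit 16406313) [(nat_lit 219411), (nat_lit 1048207), (nat_lit 0), (nat_lit 0)]) (PF.cons (PF.leaf (nat_lit 3550556) (nat_lit 231446) (nat_lit 49194463) (nat_lit 16381725) [(nat_lit 231446), (nat_lit 1069732), (nat_lit 0), (nat_lit 0)]) (PF.cons (PF.leaf (nat_lit 3723805) (nat_lit 242409) (nat_lit 48936319) (nat_lit 16354462) [(nat_lit 242409), (nat_lit 1090800), (nat_lit 0), (nat_lit 0)]) (PF.cons (PF.leaf (nat_lit 3908218) (nat_lit 252500) (nat_lit 48662964) (nat_lit 16324634) [(nat_lit 252500), (nat_lit 1111212), (nat_lit 0), (nat_lit 0)]) (PF.cons PF.nil (PF.cons PF.nil PF.nil))))))) (PF.cons (PF.cons (PF.leaf (nat_lit 3771080) (nat_lit 1102887) (nat_lit 48589516) (nat_lit 16313521) [(nat_lit 0), (nat_lit 1102887), (nat_lit 0), (nat_lit 0)]) (PF.cons (PF.leaf (nat_lit 3941745) (nat_lit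 250937) (nat_lit 48330852) (nat_lit 16284117) [(nat_lit 250937), (nat_lit 1121453), (nat_lit 0), (nat_lit 0)]) (PF.cons (PF.leaf (nat_lit 4125644) (nat_lit 260618) (nat_lit 48056362) (nat_lit 16251981) [(nat_lit 260618), (nat_lit
 1139615), (nat_lit 0), (nat_lit 0)]) (PF.cons (PF.leaf (nat_lit 4319713) (nat_lit 269546) (nat_lit 47768486) (nat_lit 16217260) [(nat_lit 269546), (nat_lit 1157213), (nat_lit 0), (nat_lit 0)]) (PF.cons PF.nil PF.nil))))) (PF.cons (PF.cons (PF.leaf (nat_lit 4345938) (nat_lit 1165087) (nat_lit 47440136) (nat_lit 16173414) [(nat_lit 0), (nat_lit 1165087), (nat_lit 0), (nat_lit 0)]) (PF.cons (PF.leaf (nat_lit 4537413) (nat_lit 276274) (nat_lit 47153365) (nat_lit 16136625) [(nat_lit 276274), (nat_lit 1180848), (nat_lit 0), (nat_lit 0)]) (PF.cons PF.nil (PF.cons PF.nil PF.nil)))) (PF.cons (PF.cons (PF.leaf (nat_lit 4957353) (nat_lit 1215811) (nat_lit 46236193) (nat_lit 16009371) [(nat_lit 0), (nat_lit 1215811), (nat_lit 0), (nat_lit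 0)]) (PF.cons PF.nil PF.nil)) (PF.cons PF.nil PF.nil)))))) (PF.cons (PF.cons (PF.cons (PF.leaf (nat_lit 3762329) (nat_lit 2842556) (nat_lit 48033320) (nat_lit 16232935) [(nat_lit 0), (nat_lit 0), (nat_lit 2842556), (nat_lit 0)]) (PF.cons (PF.leaf (nat_lit 3914042) (nat_lit 236997) (nat_lit 47805080) (nat_lit 16205554) [(nat_lit 236997), (nat_lit 0), (nat_lit 2861179), (nat_lit 0)]) (PF.cons (PF.leaf (nat_lit 4082159) (nat_lit 248479) (nat_lit 47556596)
 (nat_lit 16175006) [(nat_lit 248479), (nat_lit 0), (nat_lit 2880250), (nat_lit 0)]) (PF.cons (PF.leaf (nat_lit 4262296) (nat_lit 258789) (nat_lit 47291528) (nat_lit 16141582) [(nat_lit 258789), (nat_lit 0), (nat_lit 2899334), (nat_lit 0)]) (PF.cons (PF.leaf (nat_lit 4452897) (nat_lit 268167) (nat_lit 47012528) (nat_lit 16105478) [(nat_lit 268167), (nat_lit 0), (nat_lit 2918136), (nat_lit 0)]) (PF.cons PF.nil (PF.cons PF.nil PF.nil))))))) (PF.cons (PF.cons (PF.leaf (nat_lit 4301700) (nat_lit 1153550) (nat_lit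 46947296) (nat_lit 16094006) [(nat_lit 0), (nat_lit 1153550), (nat_lit 2913959), (nat_lit 0)]) (PF.cons (PF.leaf (nat_lit 4478302) (nat_lit 265578) (nat_lit 46684356) (nat_lit 16058901) [(nat_lit 265578), (nat_lit 1169338), (nat_lit 2930637), (nat_lit 0)]) (PF.cons (PF.leaf (nat_lit 4667373) (nat_lit 274650) (nat_lit 46406703) (nat_lit 16020947) [(nat_lit 274650), (nat_lit 1184711), (nat_lit 2947150), (nat_lit 0)]) (PF.cons (PF.leaf (nat_lit 4865968) (nat_lit 282928) (nat_lit 46116851) (nat_lit 15980365) [(nat_lit 282928), (nat_lit 1199542), (nat_lit 2963269), (nat_lit 0)]) (PF.cons PF.nil PF.nil))))) (PF.cons (PF.cons (PF.leaf (nat_lit 4884129) (nat_lit 1204855) (nat_lit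
 45795185) (nat_lit 15931291) [(nat_lit 0), (nat_lit 1204855), (nat_lit 2972624), (nat_lit 0)]) (PF.cons (PF.leaf (nat_lit 5079440) (nat_lit 288263) (nat_lit 45508411) (nat_lit 15889123) [(nat_lit 288263), (nat_lit 1218160), (nat_lit 2986693), (nat_lit 0)]) (PF.cons PF.nil (PF.cons PF.nil PF.nil)))) (PF.cons (PF.cons (PF.leaf (nat_lit 5497108) (nat_lit 1246373) (nat_lit 44603715) (nat_lit 15747197) [(nat_lit 0), (nat_lit 1246373), (nat_lit 3018780), (nat_lit 0)]) (PF.cons PF.nil PF.nil)) (PF.cons PF.nil PF.nil))))) (PF.cons (PF.cons (PF.cons (PF.leaf (nat_lit 4825452) (nat_lit 2964621) (nat_lit 45331423) (nat_lit 15848145) [(nat_lit 0), (nat_lit 0), (nat_lit 2964621), (nat_lit 0)]) (PF.cons (PF.leaf (nat_lit 5006187) (nat_lit 277414) (nat_lit 45068001) (nat_lit 15808231) [(nat_lit 277414), (nat_lit 0), (nat_lit 2977582), (nat_lit 0)]) (PF.cons (PF.leaf (nat_lit 5198819) (nat_lit 285935) (nat_lit 44790912) (nat_lit 15765416) [(nat_lit 285935), (nat_lit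 0), (nat_lit 2990306), (nat_lit 0)]) (PF.cons PF.nil PF.nil)))) (PF.cons (PF.cons (PF.leaf (nat_lit 5411103) (nat_lit 1234794) (nat_lit 44190440) (nat_lit 15666954) [(nat_lit 0), (nat_lit 1234794), (nat_lit 3008311), (nat_lit 0)])
 (PF.cons (PF.leaf (nat_lit 5608796) (nat_lit 297812) (nat_lit 43906733) (nat_lit 15620402) [(nat_lit 297812), (nat_lit 1246035), (nat_lit 3018914), (nat_lit 0)]) PF.nil)) (PF.cons PF.nil PF.nil))) (PF.cons (PF.cons (PF.cons (PF.leaf (nat_lit 5925204) (nat_lit 3029003) (nat_lit 42635802) (nat_lit 15385999) [(nat_lit 0), (nat_lit 0), (nat_lit 3029003), (nat_lit 0)]) (PF.cons PF.nil PF.nil)) (PF.cons PF.nil PF.nil)) (PF.cons PF.nil (PF.cons PF.nil PF.nil)))))) (PF.cons (PF.cons (PF.cons (PF.cons (PF.leaf (nat_lit 4575909) (nat_lit 7262022) (nat_lit 44249096) (nat_lit 15597693) [(nat_lit 0), (nat_lit 0), (nat_lit 0), (nat_lit 7262022)]) (PF.cons (PF.leaf (nat_lit 4728774) (nat_lit 246242) (nat_lit 44035449) (nat_lit 15564121)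 [(nat_lit 246242), (nat_lit 0), (nat_lit 0), (nat_lit 7263000)]) (PF.cons (PF.leaf (nat_lit 4897103) (nat_lit 257354) (nat_lit 43803601) (nat_lit 15527109) [(nat_lit 257354), (nat_lit 0), (nat_lit 0), (nat_lit 7263392)]) (PF.cons (PF.leaf (nat_lit 5076865) (nat_lit 267187) (nat_lit 43557076) (nat_lit 15487100) [(nat_lit 267187), (nat_lit 0), (nat_lit 0), (nat_lit 7263072)]) (PF.cons (PF.leaf (nat_lit 5266335) (nat_lit 276012) (nat_lit 43298415) (nat_lit 15444405)
 [(nat_lit 276012), (nat_lit 0), (nat_lit 0), (nat_lit 7261943)]) (PF.cons (PF.leaf (nat_lit 5464194) (nat_lit 284010) (nat_lit 43029565) (nat_lit 15399259) [(nat_lit 284010), (nat_lit 0), (nat_lit 0), (nat_lit 7259934)]) (PF.cons PF.nil PF.nil))))))) (PF.cons (PF.cons (PF.leaf (nat_lit 5106642) (nat_lit 1176827) (nat_lit 43242392) (nat_lit 15432431) [(nat_lit 0), (nat_lit 1176827), (nat_lit 0), (nat_lit 7257161)]) (PF.cons (PF.leaf (nat_lit 5282060) (nat_lit 272548) (nat_lit 42999351) (nat_lit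 15391499) [(nat_lit 272548), (nat_lit 1190141), (nat_lit 0), (nat_lit 7255271)]) (PF.cons (PF.leaf (nat_lit 5469154) (nat_lit 281092) (nat_lit 42743408) (nat_lit 15347710) [(nat_lit 281092), (nat_lit 1202956), (nat_lit 0), (nat_lit 7252551)]) (PF.cons (PF.leaf (nat_lit 5665036) (nat_lit 288791) (nat_lit 42476932) (nat_lit 15301381) [(nat_lit 288791), (nat_lit 1215182), (nat_lit 0), (nat_lit 7248942)]) (PF.cons PF.nil PF.nil))))) (PF.cons (PF.cons (PF.leaf (nat_lit 5673660) (nat_lit 1217900) (nat_lit 42185772) (nat_lit 15247305) [(nat_lit 0), (nat_lit 1217900), (nat_lit 0), (nat_lit 7239934)]) (PF.cons (PF.leaf (nat_lit 5865591) (nat_lit 292837) (nat_lit 41923354) (nat_lit 15200154) [(nat_lit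
 292837), (nat_lit 1228800), (nat_lit 0), (nat_lit 7234865)]) (PF.cons (PF.leaf (nat_lit 6066648) (nat_lit 299623) (nat_lit 41651727) (nat_lit 15150600) [(nat_lit 299623), (nat_lit 1239186), (nat_lit 0), (nat_lit 7228864)]) (PF.cons PF.nil PF.nil)))) (PF.cons (PF.cons (PF.leaf (nat_lit 6265453) (nat_lit 1250112) (nat_lit 41102424) (nat_lit 15045534) [(nat_lit 0), (nat_lit 1250112), (nat_lit 0), (nat_lit 7210516)]) (PF.cons PF.nil PF.nil)) (PF.cons PF.nil PF.nil))))) (PF.cons (PF.cons (PF.cons (PF.leaf (nat_lit 5599977) (nat_lit 2956649) (nat_lit 41778086) (nat_lit 15161272) [(nat_lit 0), (nat_lit 0), (nat_lit 2956649), (nat_lit 7212804)]) (PF.cons (PF.leaf (nat_lit 5778031) (nat_lit 281515) (nat_lit 41537167) (nat_lit 15117155) [(nat_lit 281515), (nat_lit 0), (nat_lit 2965369), (nat_lit 7207605)]) (PF.cons (PF.leaf (nat_lit 5967232) (nat_lit 289529) (nat_lit 41284279) (nat_lit 15070205) [(nat_lit 289529), (nat_lit 0), (nat_lit 2973772), (nat_lit 7201497)])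 (PF.cons (PF.leaf (nat_lit 6164691) (nat_lit 296685) (nat_lit 41021769) (nat_lit 15020781) [(nat_lit 296685), (nat_lit 0), (nat_lit 2981735), (nat_lit 7194468)]) (PF.cons PF.nil PF.nil))))) (PF.cons (PF.cons (PF.leaf (nat_lit
 6166691) (nat_lit 1237214) (nat_lit 40741246) (nat_lit 14964707) [(nat_lit 0), (nat_lit 1237214), (nat_lit 2983340), (nat_lit 7182303)]) (PF.cons (PF.leaf (nat_lit 6359800) (nat_lit 299778) (nat_lit 40483741) (nat_lit 14914834) [(nat_lit 299778), (nat_lit 1246401), (nat_lit 2989968), (nat_lit 7174089)]) (PF.cons PF.nil (PF.cons PF.nil PF.nil)))) (PF.cons (PF.cons (PF.leaf (nat_lit 6754311) (nat_lit 1263271) (nat_lit 39686263) (nat_lit 14753799) [(nat_lit 0), (nat_lit 1263271), (nat_lit 3001202), (nat_lit 7141004)]) (PF.cons PF.nil PF.nil)) PF.nil))) (PF.cons (PF.cons (PF.cons (PF.leaf (nat_lit 6646667) (nat_lit 2986796) (nat_lit 39349746) (nat_lit 14674123) [(nat_lit 0), (nat_lit 0), (nat_lit 2986796), (nat_lit 7111349)]) (PF.cons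 (PF.leaf (nat_lit 6840090) (nat_lit 305121) (nat_lit 39098525) (nat_lit 14622220) [(nat_lit 305121), (nat_lit 0), (nat_lit 2991214), (nat_lit 7100517)]) PF.nil)) (PF.cons PF.nil PF.nil)) (PF.cons PF.nil (PF.cons PF.nil PF.nil))))) (PF.cons (PF.cons (PF.cons (PF.cons (PF.leaf (nat_lit 6305492) (nat_lit 7005751) (nat_lit 38629613) (nat_lit 14467696) [(nat_lit 0), (nat_lit 0), (nat_lit 0), (nat_lit 7005751)]) (PF.cons (PF.leaf (nat_lit 6479763) (nat_lit
 282232) (nat_lit 38410998) (nat_lit 14422038) [(nat_lit 282232), (nat_lit 0), (nat_lit 0), (nat_lit 6996771)]) (PF.cons (PF.leaf (nat_lit 6664595) (nat_lit 289788) (nat_lit 38181860) (nat_lit 14373680) [(nat_lit 289788), (nat_lit 0), (nat_lit 0), (nat_lit 6986847)]) (PF.cons PF.nil PF.nil)))) (PF.cons (PF.cons (PF.leaf (nat_lit 6852192) (nat_lit 1227466) (nat_lit 37693577) (nat_lit 14266712) [(nat_lit 0), (nat_lit 1227466), (nat_lit 0), (nat_lit 6960528)]) (PF.cons (PF.leaf (nat_lit 7040072) (nat_lit 298742)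 (nat_lit 37461115) (nat_lit 14216048) [(nat_lit 298742), (nat_lit 1235078), (nat_lit 0), (nat_lit 6948914)]) PF.nil)) (PF.cons PF.nil PF.nil))) (PF.cons (PF.cons (PF.cons (PF.leaf (nat_lit 7301495) (nat_lit 2925799) (nat_lit 36451997) (nat_lit 13978652) [(nat_lit 0), (nat_lit 0), (nat_lit 2925799), (nat_lit 6876181)]) (PF.cons PF.nil PF.nil)) (PF.cons PF.nil PF.nil)) (PF.cons PF.nil PF.nil))) (PF.cons (PF.cons (PF.cons (PF.cons (PF.leaf (nat_lit 7899971) (nat_lit 6633347) (nat_lit 33894247) (nat_lit 13314524) [(nat_lit 0), (nat_lit 0), (nat_lit 0), (nat_lit 6633347)]) (PF.cons PF.nil PF.nil)) (PF.cons PF.nil PF.nil)) (PF.cons PF.nil PF.nil)) (PF.cons PF.nil (PF.cons PF.nil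
 (PF.cons PF.nil (PF.cons PF.nil PF.nil))))))))

def p15_11_2_0 : pfC (piC [(nat_lit 43428061), (nat_lit 27181007), (nat_lit 20099156), (nat_lit 13547958)] (nat_lit 6558515)) p15_11_2 (nat_lit 4) (nat_lit 0) (nat_lit 1) = true := by decide +kernel
def p15_11_2_1 : pfC (piC [(nat_lit 43428061), (nat_lit 27181007), (nat_lit 20099156), (nat_lit 13547958)] (nat_lit 6558515)) p15_11_2 (nat_lit 4) (nat_lit 1) (nat_lit 2) = true := by decide +kernel
def p15_11_2_2 : pfC (piC [(nat_lit 43428061), (nat_lit 27181007), (nat_lit 20099156), (nat_lit 13547958)] (nat_lit 6558515)) p15_11_2 (nat_lit 4) (nat_lit 2) (nat_lit 3) = true := by decide +kernel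
def p15_11_2_3 : pfC (piC [(nat_lit 43428061), (nat_lit 27181007), (nat_lit 20099156), (nat_lit 13547958)] (nat_lit 6558515)) p15_11_2 (nat_lit 4) (nat_lit 3) (nat_lit 4) = true := by decide +kernel
def p15_11_2_4 : pfC (piC [(nat_lit 43428061), (nat_lit 27181007), (nat_lit 20099156), (nat_lit 13547958)] (nat_lit 6558515)) p15_11_2 (nat_lit 4) (nat_lit 4) (nat_lit 5) = true := by decide +kernel
def p15_11_2_5 : pfC (piC [(nat_lit 43428061), (nat_lit 27181007), (nat_lit 20099156), (nat_lit 13547958)] (nat_lit 6558515)) p15_11_2 (nat_lit 4) (nat_lit 5) (nat_lit 6) = true := by decide +kernel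
def p15_11_2_6 : pfC (piC [(nat_lit 43428061), (nat_lit 27181007), (nat_lit 20099156), (nat_lit 13547958)] (nat_lit 6558515)) p15_11_2 (nat_lit 4) (nat_lit 6) (nat_lit 7) = true := by decide +kernel
def p15_11_2_7 : pfC (piC [(nat_lit 43428061), (nat_lit 27181007), (nat_lit 20099156), (nat_lit 13547958)] (nat_lit 6558515)) p15_11_2 (nat_lit 4) (nat_lit 7) (nat_lit 8) = true := by decide +kernel
def p15_11_2_8 : pfC (piC [(nat_lit 43428061), (nat_lit 27181007), (nat_lit 20099156), (nat_lit 13547958)] (nat_lit 6558515)) p15_11_2 (nat_lit 4) (nat_lit 8) (nat_lit 9) = true := by decide +kernel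
def p15_11_2_9 : pfC (piC [(nat_lit 43428061), (nat_lit 27181007), (nat_lit 20099156), (nat_lit 13547958)] (nat_lit 6558515)) p15_11_2 (nat_lit 4) (nat_lit 9) (nat_lit 10) = true := by decide +kernel
def p15_11_2_10 : pfC (piC [(nat_lit 43428061), (nat_lit 27181007), (nat_lit 20099156), (nat_lit 13547958)] (nat_lit 6558515)) p15_11_2 (nat_lit 4) (nat_lit 10) (nat_lit 11) = true := by decide +kernel
def p15_11_2_11 : pfC (piC [(nat_lit 43428061), (nat_lit 27181007), (nat_lit 20099156), (nat_lit 13547958)] (nat_lit 6558515)) p15_11_2 (nat_lit 4) (nat_lit 11) (nat_lit 12) = true := by decide +kernel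
def p15_11_2_12 : pfC (piC [(nat_lit 43428061), (nat_lit 27181007), (nat_lit 20099156), (nat_lit 13547958)] (nat_lit 6558515)) p15_11_2 (nat_lit 4) (nat_lit 12) (nat_lit 13) = true := by decide +kernel
def p15_11_2_13 : pfC (piC [(nat_lit 43428061), (nat_lit 27181007), (nat_lit 20099156), (nat_lit 13547958)] (nat_lit 6558515)) p15_11_2 (nat_lit 4) (nat_lit 13) (nat_lit 14) = true := by decide +kernel
def p15_11_2_14 : pfC (piC [(nat_lit 43428061), (nat_lit 27181007), (nat_lit 20099156), (nat_lit 13547958)] (nat_lit 6558515)) p15_11_2 (nat_lit 4) (nat_lit 14) (nat_lit 15) = true := by decide +kernel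
def p15_11_2_15 : pfC (piC [(nat_lit 43428061), (nat_lit 27181007), (nat_lit 20099156), (nat_lit 13547958)] (nat_lit 6558515)) p15_11_2 (nat_lit 4) (nat_lit 15) (nat_lit 16) = true := by decide +kernel
def p15_11_2_16 : pfC (piC [(nat_lit 43428061), (nat_lit 27181007), (nat_lit 20099156), (nat_lit 13547958)] (nat_lit 6558515)) p15_11_2 (nat_lit 4) (nat_lit 16) (nat_lit 17) = true := by decide +kernel
def p15_11_2_17 : pfC (piC [(nat_lit 43428061), (nat_lit 27181007), (nat_lit 20099156), (nat_lit 13547958)] (nat_lit 6558515)) p15_11_2 (nat_lit 4) (nat_lit 17) (nat_lit 18) = true := by decide +kernel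
def p15_11_2_18 : pfC (piC [(nat_lit 43428061), (nat_lit 27181007), (nat_lit 20099156), (nat_lit 13547958)] (nat_lit 6558515)) p15_11_2 (nat_lit 4) (nat_lit 18) (nat_lit 19) = true := by decide +kernel
def p15_11_2_19 : pfC (piC [(nat_lit 43428061), (nat_lit 27181007), (nat_lit 20099156), (nat_lit 13547958)] (nat_lit 6558515)) p15_11_2 (nat_lit 4) (nat_lit 19) (nat_lit 20) = true := by decide +kernel
def p15_11_2_20 : pfC (piC [(nat_lit 43428061), (nat_lit 27181007), (nat_lit 20099156), (nat_lit 13547958)] (nat_lit 6558515)) p15_11_2 (nat_lit 4) (nat_lit 20) (nat_lit 21) = true := by decide +kernel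
def p15_11_2_21 : pfC (piC [(nat_lit 43428061), (nat_lit 27181007), (nat_lit 20099156), (nat_lit 13547958)] (nat_lit 6558515)) p15_11_2 (nat_lit 4) (nat_lit 21) (nat_lit 22) = true := by decide +kernel
def p15_11_2_22 : pfC (piC [(nat_lit 43428061), (nat_lit 27181007), (nat_lit 20099156), (nat_lit 13547958)] (nat_lit 6558515)) p15_11_2 (nat_lit 4) (nat_lit 22) (nat_lit 23) = true := by decide +kernel
def p15_11_2_23 : pfC (piC [(nat_lit 43428061), (nat_lit 27181007), (nat_lit 20099156), (nat_lit 13547958)] (nat_lit 6558515)) p15_11_2 (nat_lit 4) (nat_lit 23) (nat_lit 24) = true := by decide +kernel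
def p15_11_2_24 : pfC (piC [(nat_lit 43428061), (nat_lit 27181007), (nat_lit 20099156), (nat_lit 13547958)] (nat_lit 6558515)) p15_11_2 (nat_lit 4) (nat_lit 24) (nat_lit 25) = true := by decide +kernel
def p15_11_2_25 : pfC (piC [(nat_lit 43428061), (nat_lit 27181007), (nat_lit 20099156), (nat_lit 13547958)] (nat_lit 6558515)) p15_11_2 (nat_lit 4) (nat_lit 25) (nat_lit 26) = true := by decide +kernel
def p15_11_2_26 : pfC (piC [(nat_lit 43428061), (nat_lit 27181007), (nat_lit 20099156), (nat_lit 13547958)] (nat_lit 6558515)) p15_11_2 (nat_lit 4) (nat_lit 26) (nat_lit 27) = true := by decide +kernel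
def p15_11_2_27 : pfC (piC [(nat_lit 43428061), (nat_lit 27181007), (nat_lit 20099156), (nat_lit 13547958)] (nat_lit 6558515)) p15_11_2 (nat_lit 4) (nat_lit 27) (nat_lit 28) = true := by decide +kernel
def p15_11_2_28 : pfC (piC [(nat_lit 43428061), (nat_lit 27181007), (nat_lit 20099156), (nat_lit 13547958)] (nat_lit 6558515)) p15_11_2 (nat_lit 4) (nat_lit 28) (nat_lit 29) = true := by decide +kernel
def p15_11_2_29 : pfC (piC [(nat_lit 43428061), (nat_lit 27181007), (nat_lit 20099156), (nat_lit 13547958)] (nat_lit 6558515)) p15_11_2 (nat_lit 4) (nat_lit 29) (nat_lit 30) = true := by decide +kernel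
def p15_11_2_30 : pfC (piC [(nat_lit 43428061), (nat_lit 27181007), (nat_lit 20099156), (nat_lit 13547958)] (nat_lit 6558515)) p15_11_2 (nat_lit 4) (nat_lit 30) (nat_lit 31) = true := by decide +kernel
def p15_11_2_31 : pfC (piC [(nat_lit 43428061), (nat_lit 27181007), (nat_lit 20099156), (nat_lit 13547958)] (nat_lit 6558515)) p15_11_2 (nat_lit 4) (nat_lit 31) (nat_lit 32) = true := by decide +kernel
def p15_11_2_32 : pfC (piC [(nat_lit 43428061), (nat_lit 27181007), (nat_lit 20099156), (nat_lit 13547958)] (nat_lit 6558515)) p15_11_2 (nat_lit 4) (nat_lit 32) (nat_lit 33) = true := by decide +kernel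
def p15_11_2_33 : pfC (piC [(nat_lit 43428061), (nat_lit 27181007), (nat_lit 20099156), (nat_lit 13547958)] (nat_lit 6558515)) p15_11_2 (nat_lit 4) (nat_lit 33) (nat_lit 34) = true := by decide +kernel
def p15_11_2_34 : pfC (piC [(nat_lit 43428061), (nat_lit 27181007), (nat_lit 20099156), (nat_lit 13547958)] (nat_lit 6558515)) p15_11_2 (nat_lit 4) (nat_lit 34) (nat_lit 35) = true := by decide +kernel
def p15_11_2_35 : pfC (piC [(nat_lit 43428061), (nat_lit 27181007), (nat_lit 20099156), (nat_lit 13547958)] (nat_lit 6558515)) p15_11_2 (nat_lit 4) (nat_lit 35) (nat_lit 36) = true := by decide +kernel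
def p15_11_2_36 : pfC (piC [(nat_lit 43428061), (nat_lit 27181007), (nat_lit 20099156), (nat_lit 13547958)] (nat_lit 6558515)) p15_11_2 (nat_lit 4) (nat_lit 36) (nat_lit 37) = true := by decide +kernel
def p15_11_2_37 : pfC (piC [(nat_lit 43428061), (nat_lit 27181007), (nat_lit 20099156), (nat_lit 13547958)] (nat_lit 6558515)) p15_11_2 (nat_lit 4) (nat_lit 37) (nat_lit 38) = true := by decide +kernel
def p15_11_2_38 : pfC (piC [(nat_lit 43428061), (nat_lit 27181007), (nat_lit 20099156), (nat_lit 13547958)] (nat_lit 6558515)) p15_11_2 (nat_lit 4) (nat_lit 38) (nat_lit 39) = true := by decide +kernel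
def p15_11_2_39 : pfC (piC [(nat_lit 43428061), (nat_lit 27181007), (nat_lit 20099156), (nat_lit 13547958)] (nat_lit 6558515)) p15_11_2 (nat_lit 4) (nat_lit 39) (nat_lit 40) = true := by decide +kernel
def p15_11_2_40 : pfC (piC [(nat_lit 43428061), (nat_lit 27181007), (nat_lit 20099156), (nat_lit 13547958)] (nat_lit 6558515)) p15_11_2 (nat_lit 4) (nat_lit 40) (nat_lit 41) = true := by decide +kernel
def p15_11_2_41 : pfC (piC [(nat_lit 43428061), (nat_lit 27181007), (nat_lit 20099156), (nat_lit 13547958)] (nat_lit 6558515)) p15_11_2 (nat_lit 4) (nat_lit 41) (nat_lit 42) = true := by decide +kernel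
def p15_11_2_42 : pfC (piC [(nat_lit 43428061), (nat_lit 27181007), (nat_lit 20099156), (nat_lit 13547958)] (nat_lit 6558515)) p15_11_2 (nat_lit 4) (nat_lit 42) (nat_lit 43) = true := by decide +kernel
def p15_11_2_43 : pfC (piC [(nat_lit 43428061), (nat_lit 27181007), (nat_lit 20099156), (nat_lit 13547958)] (nat_lit 6558515)) p15_11_2 (nat_lit 4) (nat_lit 43) (nat_lit 44) = true := by decide +kernel
def p15_11_2_44 : pfC (piC [(nat_lit 43428061), (nat_lit 27181007), (nat_lit 20099156), (nat_lit 13547958)] (nat_lit 6558515)) p15_11_2 (nat_lit 4) (nat_lit 44) (nat_lit 45) = true := by decide +kernel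
def p15_11_2_45 : pfC (piC [(nat_lit 43428061), (nat_lit 27181007), (nat_lit 20099156), (nat_lit 13547958)] (nat_lit 6558515)) p15_11_2 (nat_lit 4) (nat_lit 45) (nat_lit 46) = true := by decide +kernel
def p15_11_2_46 : pfC (piC [(nat_lit 43428061), (nat_lit 27181007), (nat_lit 20099156), (nat_lit 13547958)] (nat_lit 6558515)) p15_11_2 (nat_lit 4) (nat_lit 46) (nat_lit 47) = true := by decide +kernel
def p15_11_2_47 : pfC (piC [(nat_lit 43428061), (nat_lit 27181007), (nat_lit 20099156), (nat_lit 13547958)] (nat_lit 6558515)) p15_11_2 (nat_lit 4) (nat_lit 47) (nat_lit 48) = true := by decide +kernel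
def p15_11_2_48 : pfC (piC [(nat_lit 43428061), (nat_lit 27181007), (nat_lit 20099156), (nat_lit 13547958)] (nat_lit 6558515)) p15_11_2 (nat_lit 4) (nat_lit 48) (nat_lit 49) = true := by decide +kernel
def p15_11_2_49 : pfC (piC [(nat_lit 43428061), (nat_lit 27181007), (nat_lit 20099156), (nat_lit 13547958)] (nat_lit 6558515)) p15_11_2 (nat_lit 4) (nat_lit 49) (nat_lit 50) = true := by decide +kernel
def p15_11_2_50 : pfC (piC [(nat_lit 43428061), (nat_lit 27181007), (nat_lit 20099156), (nat_lit 13547958)] (nat_lit 6558515)) p15_11_2 (nat_lit 4) (nat_lit 50) (nat_lit 51) = true := by decide +kernel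
def p15_11_2_51 : pfC (piC [(nat_lit 43428061), (nat_lit 27181007), (nat_lit 20099156), (nat_lit 13547958)] (nat_lit 6558515)) p15_11_2 (nat_lit 4) (nat_lit 51) (nat_lit 52) = true := by decide +kernel
def p15_11_2_52 : pfC (piC [(nat_lit 43428061), (nat_lit 27181007), (nat_lit 20099156), (nat_lit 13547958)] (nat_lit 6558515)) p15_11_2 (nat_lit 4) (nat_lit 52) (nat_lit 53) = true := by decide +kernel
def p15_11_2_53 : pfC (piC [(nat_lit 43428061), (nat_lit 27181007), (nat_lit 20099156), (nat_lit 13547958)] (nat_lit 6558515)) p15_11_2 (nat_lit 4) (nat_lit 53) (nat_lit 54) = true := by decide +kernel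
def p15_11_2_54 : pfC (piC [(nat_lit 43428061), (nat_lit 27181007), (nat_lit 20099156), (nat_lit 13547958)] (nat_lit 6558515)) p15_11_2 (nat_lit 4) (nat_lit 54) (nat_lit 55) = true := by decide +kernel
def p15_11_2_55 : pfC (piC [(nat_lit 43428061), (nat_lit 27181007), (nat_lit 20099156), (nat_lit 13547958)] (nat_lit 6558515)) p15_11_2 (nat_lit 4) (nat_lit 55) (nat_lit 56) = true := by decide +kernel
def p15_11_2_56 : pfC (piC [(nat_lit 43428061), (nat_lit 27181007), (nat_lit 20099156), (nat_lit 13547958)] (nat_lit 6558515)) p15_11_2 (nat_lit 4) (nat_lit 56) (nat_lit 57) = true := by decide +kernel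
def p15_11_2_57 : pfC (piC [(nat_lit 43428061), (nat_lit 27181007), (nat_lit 20099156), (nat_lit 13547958)] (nat_lit 6558515)) p15_11_2 (nat_lit 4) (nat_lit 57) (nat_lit 58) = true := by decide +kernel
def p15_11_2_58 : pfC (piC [(nat_lit 43428061), (nat_lit 27181007), (nat_lit 20099156), (nat_lit 13547958)] (nat_lit 6558515)) p15_11_2 (nat_lit 4) (nat_lit 58) (nat_lit 59) = true := by decide +kernel
def p15_11_2_59 : pfC (piC [(nat_lit 43428061), (nat_lit 27181007), (nat_lit 20099156), (nat_lit 13547958)] (nat_lit 6558515)) p15_11_2 (nat_lit 4) (nat_lit 59) (nat_lit 60) = true := by decide +kernel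
def p15_11_2_60 : pfC (piC [(nat_lit 43428061), (nat_lit 27181007), (nat_lit 20099156), (nat_lit 13547958)] (nat_lit 6558515)) p15_11_2 (nat_lit 4) (nat_lit 60) (nat_lit 61) = true := by decide +kernel
def p15_11_2_61 : pfC (piC [(nat_lit 43428061), (nat_lit 27181007), (nat_lit 20099156), (nat_lit 13547958)] (nat_lit 6558515)) p15_11_2 (nat_lit 4) (nat_lit 61) (nat_lit 62) = true := by decide +kernel
def p15_11_2_62 : pfC (piC [(nat_lit 43428061), (nat_lit 27181007), (nat_lit 20099156), (nat_lit 13547958)] (nat_lit 6558515)) p15_11_2 (nat_lit 4) (nat_lit 62) (nat_lit 63) = true := by decide +kernel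
def p15_11_2_63 : pfC (piC [(nat_lit 43428061), (nat_lit 27181007), (nat_lit 20099156), (nat_lit 13547958)] (nat_lit 6558515)) p15_11_2 (nat_lit 4) (nat_lit 63) (nat_lit 64) = true := by decide +kernel
def p15_11_2_64 : pfC (piC [(nat_lit 43428061), (nat_lit 27181007), (nat_lit 20099156), (nat_lit 13547958)] (nat_lit 6558515)) p15_11_2 (nat_lit 4) (nat_lit 64) (nat_lit 65) = true := by decide +kernel
def p15_11_2_65 : pfC (piC [(nat_lit 43428061), (nat_lit 27181007), (nat_lit 20099156), (nat_lit 13547958)] (nat_lit 6558515)) p15_11_2 (nat_lit 4) (nat_lit 65) (nat_lit 66) = true := by decide +kernel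
def p15_11_2_66 : pfC (piC [(nat_lit 43428061), (nat_lit 27181007), (nat_lit 20099156), (nat_lit 13547958)] (nat_lit 6558515)) p15_11_2 (nat_lit 4) (nat_lit 66) (nat_lit 67) = true := by decide +kernel
theorem p15_11_2_T : PfS (PiF n15_11.reverse (nat_lit 6558515)) p15_11_2 (nat_lit 4) [] 0 :=
  pftab_of (los := [(nat_lit 43428061), (nat_lit 27181007), (nat_lit 20099156), (nat_lit 13547958)]) (by decide +kernel) (hi := (nat_lit 67)) (PfP.trans (PfP.trans (PfP.trans (PfP.trans (PfP.trans (PfP.trans (PfP.trans (PfP.trans (PfP.trans (PfP.trans (PfP.trans (PfP.trans (PfP.trans (PfP.trans (PfP.trans (PfP.trans (PfP.trans (PfP.trans (PfP.trans (PfP.trans (PfP.trans (PfP.trans (PfP.trans (PfP.trans (PfP.trans (PfP.trans (PfP.trans (PfP.trans (PfP.trans (PfP.trans (PfP.trans (PfP.trans (PfP.trans (PfP.trans (PfP.trans (PfP.trans (PfP.trans (PfP.trans (PfP.trans (PfP.trans (PfP.trans (PfP.trans (PfP.trans (PfP.trans (PfP.trans (PfP.trans (PfP.trans (PfP.trans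 (PfP.trans (PfP.trans (PfP.trans (PfP.trans (PfP.trans (PfP.trans (PfP.trans (PfP.trans (PfP.trans (PfP.trans (PfP.trans (PfP.trans (PfP.trans (PfP.trans (PfP.trans (PfP.trans (PfP.trans (PfP.trans (pfC_sound p15_11_2_0) (pfC_sound p15_11_2_1)) (pfC_sound p15_11_2_2)) (pfC_sound p15_11_2_3)) (pfC_sound p15_11_2_4)) (pfC_sound p15_11_2_5)) (pfC_sound p15_11_2_6)) (pfC_sound p15_11_2_7)) (pfC_sound p15_11_2_8)) (pfC_sound p15_11_2_9)) (pfC_sound p15_11_2_10)) (pfC_sound p15_11_2_11)) (pfC_sound p15_11_2_12)) (pfC_sound p15_11_2_13)) (pfC_sound p15_11_2_14)) (pfC_sound p15_11_2_15)) (pfC_sound p15_11_2_16)) (pfC_sound p15_11_2_17)) (pfC_sound p15_11_2_18))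
 (pfC_sound p15_11_2_19)) (pfC_sound p15_11_2_20)) (pfC_sound p15_11_2_21)) (pfC_sound p15_11_2_22)) (pfC_sound p15_11_2_23)) (pfC_sound p15_11_2_24)) (pfC_sound p15_11_2_25)) (pfC_sound p15_11_2_26)) (pfC_sound p15_11_2_27)) (pfC_sound p15_11_2_28)) (pfC_sound p15_11_2_29)) (pfC_sound p15_11_2_30)) (pfC_sound p15_11_2_31)) (pfC_sound p15_11_2_32)) (pfC_sound p15_11_2_33)) (pfC_sound p15_11_2_34)) (pfC_sound p15_11_2_35)) (pfC_sound p15_11_2_36)) (pfC_sound p15_11_2_37)) (pfC_sound p15_11_2_38)) (pfC_sound p15_11_2_39)) (pfC_sound p15_11_2_40)) (pfC_sound p15_11_2_41)) (pfC_sound p15_11_2_42)) (pfC_sound p15_11_2_43)) (pfC_sound p15_11_2_44)) (pfC_sound p15_11_2_45)) (pfC_sound p15_11_2_46)) (pfC_sound p15_11_2_47)) (pfC_sound p15_11_2_48)) (pfC_sound p15_11_2_49)) (pfC_sound p15_11_2_50)) (pfC_sound p15_11_2_51)) (pfC_sound p15_11_2_52)) (pfC_sound p15_11_2_53)) (pfC_sound p15_11_2_54)) (pfC_sound p15_11_2_55)) (pfC_sound p15_11_2_56)) (pfC_sound p15_11_2_57))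 (pfC_sound p15_11_2_58)) (pfC_sound p15_11_2_59)) (pfC_sound p15_11_2_60)) (pfC_sound p15_11_2_61)) (pfC_sound p15_11_2_62)) (pfC_sound p15_11_2_63)) (pfC_sound p15_11_2_64)) (pfC_sound p15_11_2_65)) (pfC_sound p15_11_2_66)) (by decide +kernel)

def z15_11_2 : zOK yB15_11 (nat_lit 2) (nat_lit 600) (nat_lit 750) (nat_lit 6558515) (nat_lit 4636242) = true := by decide +kernel
def g15_11_2 : gOK yB15_11.x P15_11 (nat_lit 1429) (q15_11 :: r15_11) (nat_lit 2) (nat_lit 600) (nat_lit 3) (nat_lit 750) (nat_lit 12712500) (nat_lit 12712500) (nat_lit 12712500) (nat_lit 12712500) [(nat_lit 800), (nat_lit 1600)] = true := by decide +kernel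
def v15_11_2 : ivC P15_11 s15_11 w15_11 n15_11 (nat_lit 4) (nat_lit 4890) (nat_lit 2) (nat_lit 600) f136_1_600 f144_1_600 (nat_lit 3) (nat_lit 750) f136_1_750 f144_1_750 (nat_lit 6558515) (nat_lit 4636242) p15_11_2 = true := by decide +kernel
def p15_11_3 : PF := (PF.cons (PF.cons (PF.cons (PF.cons (PF.leaf (nat_lit 3140706) (nat_lit 21588660) (nat_lit 45520152) (nat_lit 21588660) [(nat_lit 0), (nat_lit 0), (nat_lit 0), (nat_lit 0)]) (PF.cons (PF.leaf (nat_lit 3242819) (nat_lit 171726) (nat_lit 45383415) (nat_lit 21553671) [(nat_lit 171726), (nat_lit 0), (nat_lit 0), (nat_lit 0)]) (PF.cons (PF.leaf (nat_lit 3367319) (nat_lit 186730) (nat_lit 45223046) (nat_lit 21512305) [(nat_lit 186730), (nat_lit 0), (nat_lit 0), (nat_lit 0)]) (PF.cons (PF.leaf (nat_lit 3507095) (nat_lit 200062) (nat_lit 45043139) (nat_lit 21465485) [(nat_lit 200062), (nat_lit 0), (nat_lit 0), (nat_lit 0)]) (PF.cons (PF.leaf (nat_lit 3659891) (nat_lit 212108) (nat_lit 44846548) (nat_lit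 21413829) [(nat_lit 212108), (nat_lit 0), (nat_lit 0), (nat_lit 0)]) (PF.cons (PF.leaf (nat_lit 3824525) (nat_lit 223115) (nat_lit 44635444) (nat_lit 21357792) [(nat_lit 223115), (nat_lit 0), (nat_lit 0), (nat_lit 0)]) (PF.cons (PF.leaf (nat_lit 3999406) (nat_lit 233251) (nat_lit 44411571) (nat_lit 21297730) [(nat_lit 233251), (nat_lit 0), (nat_lit 0), (nat_lit 0)]) (PF.cons (PF.leaf (nat_lit 4183633) (nat_lit 242641) (nat_lit 44176382) (nat_lit 21233936) [(nat_lit 242641), (nat_lit 0),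
 (nat_lit 0), (nat_lit 0)]) (PF.cons PF.nil (PF.cons PF.nil PF.nil)))))))))) (PF.cons (PF.cons (PF.leaf (nat_lit 3573860) (nat_lit 984024) (nat_lit 44740783) (nat_lit 21384004) [(nat_lit 0), (nat_lit 984024), (nat_lit 0), (nat_lit 0)]) (PF.cons (PF.leaf (nat_lit 3710273) (nat_lit 210511) (nat_lit 44558568) (nat_lit 21335380) [(nat_lit 210511), (nat_lit 1004352), (nat_lit 0), (nat_lit 0)]) (PF.cons (PF.leaf (nat_lit 3863159) (nat_lit 221963) (nat_lit 44358762) (nat_lit 21281569) [(nat_lit 221963), (nat_lit 1024553), (nat_lit 0), (nat_lit 0)]) (PF.cons (PF.leaf (nat_lit 4027940) (nat_lit 232375) (nat_lit 44144186) (nat_lit 21223213) [(nat_lit 232375), (nat_lit 1044286), (nat_lit 0), (nat_lit 0)]) (PF.cons (PF.leaf (nat_lit 4203254) (nat_lit 241940) (nat_lit 43916917) (nat_lit 21160769) [(nat_lit 241940), (nat_lit 1063364), (nat_lit 0), (nat_lit 0)]) (PF.cons (PF.leaf (nat_lit 4387914) (nat_lit 250787) (nat_lit 43678590) (nat_lit 21094592) [(nat_lit 250787),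 (nat_lit 1081689), (nat_lit 0), (nat_lit 0)]) (PF.cons PF.nil (PF.cons PF.nil (PF.cons PF.nil PF.nil))))))))) (PF.cons (PF.cons (PF.leaf (nat_lit 4071190) (nat_lit 1055243) (nat_lit 43856250) (nat_lit 21142075) [(nat_lit 0),
 (nat_lit 1055243), (nat_lit 0), (nat_lit 0)]) (PF.cons (PF.leaf (nat_lit 4233195) (nat_lit 240308) (nat_lit 43641136) (nat_lit 21082182) [(nat_lit 240308), (nat_lit 1072592), (nat_lit 0), (nat_lit 0)]) (PF.cons (PF.leaf (nat_lit 4407896) (nat_lit 249479) (nat_lit 43412802) (nat_lit 21017983) [(nat_lit 249479), (nat_lit 1089534), (nat_lit 0), (nat_lit 0)]) (PF.cons (PF.leaf (nat_lit 4592186) (nat_lit 257920) (nat_lit 43173261) (nat_lit 20949948) [(nat_lit 257920), (nat_lit 1105920), (nat_lit 0), (nat_lit 0)]) (PF.cons (PF.leaf (nat_lit 4784936) (nat_lit 265743) (nat_lit 42924069) (nat_lit 20878433) [(nat_lit 265743), (nat_lit 1121667), (nat_lit 0), (nat_lit 0)]) (PF.cons PF.nil (PF.cons PF.nil PF.nil))))))) (PF.cons (PF.cons (PF.leaf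 (nat_lit 4615337) (nat_lit 1112946) (nat_lit 42900358) (nat_lit 20869614) [(nat_lit 0), (nat_lit 1112946), (nat_lit 0), (nat_lit 0)]) (PF.cons (PF.leaf (nat_lit 4796938) (nat_lit 264139) (nat_lit 42661566) (nat_lit 20800294) [(nat_lit 264139), (nat_lit 1127604), (nat_lit 0), (nat_lit 0)]) (PF.cons (PF.leaf (nat_lit 4988651) (nat_lit 271657) (nat_lit 42412831) (nat_lit 20727368) [(nat_lit 271657), (nat_lit 1141766), (nat_lit 0), (nat_lit 0)]) (PF.cons
 (PF.leaf (nat_lit 5188044) (nat_lit 278626) (nat_lit 42155642) (nat_lit 20651198) [(nat_lit 278626), (nat_lit 1155363), (nat_lit 0), (nat_lit 0)]) (PF.cons PF.nil PF.nil))))) (PF.cons (PF.cons (PF.leaf (nat_lit 5193667) (nat_lit 1159793) (nat_lit 41897631) (nat_lit 20572006) [(nat_lit 0), (nat_lit 1159793), (nat_lit 0), (nat_lit 0)]) (PF.cons (PF.leaf (nat_lit 5390311) (nat_lit 283543) (nat_lit 41642215) (nat_lit 20494820) [(nat_lit 283543), (nat_lit 1172058), (nat_lit 0), (nat_lit 0)]) (PF.cons PF.nil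 (PF.cons PF.nil PF.nil)))) (PF.cons (PF.cons (PF.leaf (nat_lit 5796358) (nat_lit 1197634) (nat_lit 40866728) (nat_lit 20253914) [(nat_lit 0), (nat_lit 1197634), (nat_lit 0), (nat_lit 0)]) (PF.cons PF.nil PF.nil)) (PF.cons PF.nil (PF.cons PF.nil PF.nil)))))))) (PF.cons (PF.cons (PF.cons (PF.leaf (nat_lit 4058773) (nat_lit 2710314) (nat_lit 43395962) (nat_lit 21002536) [(nat_lit 0), (nat_lit 0), (nat_lit 2710314), (nat_lit 0)]) (PF.cons (PF.leaf (nat_lit 4202757) (nat_lit 226804) (nat_lit 43206025) (nat_lit 20948664) [(nat_lit 226804), (nat_lit 0), (nat_lit 2727319), (nat_lit 0)]) (PF.cons (PF.leaf (nat_lit 4362516) (nat_lit 237712) (nat_lit 42999185) (nat_lit 20889499) [(nat_lit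
 237712), (nat_lit 0), (nat_lit 2744702), (nat_lit 0)]) (PF.cons (PF.leaf (nat_lit 4533633) (nat_lit 247490) (nat_lit 42778474) (nat_lit 20825798) [(nat_lit 247490), (nat_lit 0), (nat_lit 2762070), (nat_lit 0)]) (PF.cons (PF.leaf (nat_lit 4714632) (nat_lit 256369) (nat_lit 42546082) (nat_lit 20758099) [(nat_lit 256369), (nat_lit 0), (nat_lit 2779153), (nat_lit 0)]) (PF.cons (PF.leaf (nat_lit 4904293) (nat_lit 264507) (nat_lit 42303700) (nat_lit 20686809) [(nat_lit 264507), (nat_lit 0), (nat_lit 2795766), (nat_lit 0)]) (PF.cons PF.nil PF.nil))))))) (PF.cons (PF.cons (PF.leaf (nat_lit 4569513) (nat_lit 1101338) (nat_lit 42492131) (nat_lit 20740375) [(nat_lit 0), (nat_lit 1101338), (nat_lit 2774967), (nat_lit 0)]) (PF.cons (PF.leaf (nat_lit 4736943) (nat_lit 253790) (nat_lit 42273019) (nat_lit 20675802) [(nat_lit 253790), (nat_lit 1116083), (nat_lit 2790116), (nat_lit 0)]) (PF.cons (PF.leaf (nat_lit 4916512) (nat_lit 262378) (nat_lit 42041558) (nat_lit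 20606981) [(nat_lit 262378), (nat_lit 1130420), (nat_lit 2805094), (nat_lit 0)]) (PF.cons (PF.leaf (nat_lit 5104909) (nat_lit 270203) (nat_lit 41799825) (nat_lit 20534443) [(nat_lit 270203), (nat_lit 1144234), (nat_lit 2819697),
 (nat_lit 0)]) (PF.cons (PF.leaf (nat_lit 5301242) (nat_lit 277393) (nat_lit 41549403) (nat_lit 20458589) [(nat_lit 277393), (nat_lit 1157461), (nat_lit 2833784), (nat_lit 0)]) PF.nil))))) (PF.cons (PF.cons (PF.leaf (nat_lit 5120723) (nat_lit 1148932) (nat_lit 41531826) (nat_lit 20451297) [(nat_lit 0), (nat_lit 1148932), (nat_lit 2827823), (nat_lit 0)]) (PF.cons (PF.leaf (nat_lit 5305861) (nat_lit 275132) (nat_lit 41292427) (nat_lit 20378053) [(nat_lit 275132), (nat_lit 1161319), (nat_lit 2840559), (nat_lit 0)]) (PF.cons (PF.leaf (nat_lit 5500493) (nat_lit 282088) (nat_lit 41043946) (nat_lit 20301346) [(nat_lit 282088), (nat_lit 1173237), (nat_lit 2852866), (nat_lit 0)]) (PF.cons PF.nil PF.nil)))) (PF.cons (PF.cons (PF.leaf (nat_lit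 5700781) (nat_lit 1187349) (nat_lit 40536788) (nat_lit 20140701) [(nat_lit 0), (nat_lit 1187349), (nat_lit 2869274), (nat_lit 0)]) (PF.cons (PF.leaf (nat_lit 5899311) (nat_lit 292351) (nat_lit 40283671) (nat_lit 20060423) [(nat_lit 292351), (nat_lit 1197633), (nat_lit 2879465), (nat_lit 0)]) PF.nil)) (PF.cons PF.nil (PF.cons PF.nil PF.nil)))))) (PF.cons (PF.cons (PF.cons (PF.leaf (nat_lit 5061828) (nat_lit 2819375) (nat_lit 41146649) (nat_lit 20323412)
 [(nat_lit 0), (nat_lit 0), (nat_lit 2819375), (nat_lit 0)]) (PF.cons (PF.leaf (nat_lit 5233253) (nat_lit 264697) (nat_lit 40926548) (nat_lit 20255221) [(nat_lit 264697), (nat_lit 0), (nat_lit 2831172), (nat_lit 0)]) (PF.cons (PF.leaf (nat_lit 5416105) (nat_lit 272765) (nat_lit 40694916) (nat_lit 20182873) [(nat_lit 272765), (nat_lit 0), (nat_lit 2842745), (nat_lit 0)]) (PF.cons (PF.leaf (nat_lit 5607423) (nat_lit 280047) (nat_lit 40453852) (nat_lit 20106949) [(nat_lit 280047), (nat_lit 0), (nat_lit 2853934),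 (nat_lit 0)]) (PF.cons PF.nil PF.nil))))) (PF.cons (PF.cons (PF.leaf (nat_lit 5616350) (nat_lit 1176073) (nat_lit 40192909) (nat_lit 20022154) [(nat_lit 0), (nat_lit 1176073), (nat_lit 2858837), (nat_lit 0)]) (PF.cons (PF.leaf (nat_lit 5803820) (nat_lit 283913) (nat_lit 39955342) (nat_lit 19946024) [(nat_lit 283913), (nat_lit 1186569), (nat_lit 2868481), (nat_lit 0)]) (PF.cons (PF.leaf (nat_lit 6000220) (nat_lit 290373) (nat_lit 39709457) (nat_lit 19866586) [(nat_lit 290373), (nat_lit 1196616), (nat_lit 2877702), (nat_lit 0)]) (PF.cons PF.nil PF.nil)))) (PF.cons (PF.cons (PF.leaf (nat_lit 6195316) (nat_lit 1207540) (nat_lit 39213929) (nat_lit 19702652) [(nat_lit 0), (nat_lit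
 1207540), (nat_lit 2888575), (nat_lit 0)]) (PF.cons PF.nil PF.nil)) (PF.cons PF.nil (PF.cons PF.nil PF.nil))))) (PF.cons (PF.cons (PF.cons (PF.leaf (nat_lit 6100914) (nat_lit 2876761) (nat_lit 38891454) (nat_lit 19587074) [(nat_lit 0), (nat_lit 0), (nat_lit 2876761), (nat_lit 0)]) (PF.cons (PF.leaf (nat_lit 6289681) (nat_lit 290866) (nat_lit 38657505) (nat_lit 19508954) [(nat_lit 290866), (nat_lit 0), (nat_lit 2883828), (nat_lit 0)]) (PF.cons PF.nil (PF.cons PF.nil PF.nil)))) (PF.cons (PF.cons (PF.leaf (nat_lit 6676509) (nat_lit 1221721) (nat_lit 37934465) (nat_lit 19262124) [(nat_lit 0), (nat_lit 1221721), (nat_lit 2896834), (nat_lit 0)]) (PF.cons PF.nil PF.nil)) (PF.cons PF.nil PF.nil))) (PF.cons (PF.cons (PF.cons (PF.leaf (nat_lit 7143970) (nat_lit 2896136) (nat_lit 36701677) (nat_lit 18822589) [(nat_lit 0), (nat_lit 0), (nat_lit 2896136), (nat_lit 0)]) (PF.cons PF.nil PF.nil)) (PF.cons PF.nil PF.nil)) (PF.cons PF.nil PF.nil)))))) (PF.cons (PF.cons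 (PF.cons (PF.cons (PF.leaf (nat_lit 4817696) (nat_lit 6866482) (nat_lit 40253919) (nat_lit 19988411) [(nat_lit 0), (nat_lit 0), (nat_lit 0), (nat_lit 6866482)]) (PF.cons (PF.leaf (nat_lit 4962776) (nat_lit 235004) (nat_lit 40074851)
 (nat_lit 19931940) [(nat_lit 235004), (nat_lit 0), (nat_lit 0), (nat_lit 6867016)]) (PF.cons (PF.leaf (nat_lit 5122852) (nat_lit 245566) (nat_lit 39880446) (nat_lit 19870224) [(nat_lit 245566), (nat_lit 0), (nat_lit 0), (nat_lit 6867008)]) (PF.cons (PF.leaf (nat_lit 5293885) (nat_lit 254905) (nat_lit 39673637) (nat_lit 19804109) [(nat_lit 254905), (nat_lit 0), (nat_lit 0), (nat_lit 6866350)]) (PF.cons (PF.leaf (nat_lit 5474028) (nat_lit 263279) (nat_lit 39456534) (nat_lit 19734196) [(nat_lit 263279), (nat_lit 0), (nat_lit 0), (nat_lit 6864965)]) (PF.cons (PF.leaf (nat_lit 5662128) (nat_lit 270863) (nat_lit 39230756) (nat_lit 19660943) [(nat_lit 270863), (nat_lit 0), (nat_lit 0), (nat_lit 6862794)]) (PF.cons PF.nil PF.nil)))))))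 (PF.cons (PF.cons (PF.leaf (nat_lit 5321317) (nat_lit 1121216) (nat_lit 39409836) (nat_lit 19717330) [(nat_lit 0), (nat_lit 1121216), (nat_lit 0), (nat_lit 6860429)]) (PF.cons (PF.leaf (nat_lit 5487884) (nat_lit 259924) (nat_lit 39205713) (nat_lit 19651014) [(nat_lit 259924), (nat_lit 1133751), (nat_lit 0), (nat_lit 6858409)]) (PF.cons (PF.leaf (nat_lit 5665778) (nat_lit 268033) (nat_lit 38990640) (nat_lit 19580652) [(nat_lit 268033), (nat_lit 1145808),
 (nat_lit 0), (nat_lit 6855643)]) (PF.cons (PF.leaf (nat_lit 5852027) (nat_lit 275336) (nat_lit 38766586) (nat_lit 19506823) [(nat_lit 275336), (nat_lit 1157306), (nat_lit 0), (nat_lit 6852086)]) (PF.cons (PF.leaf (nat_lit 6045462) (nat_lit 281973) (nat_lit 38535041) (nat_lit 19429962) [(nat_lit 281973), (nat_lit 1168209), (nat_lit 0), (nat_lit 6847705)]) PF.nil))))) (PF.cons (PF.cons (PF.leaf (nat_lit 5859496) (nat_lit 1159739) (nat_lit 38521956) (nat_lit 19423844) [(nat_lit 0), (nat_lit 1159739), (nat_lit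 0), (nat_lit 6843532)]) (PF.cons (PF.leaf (nat_lit 6041887) (nat_lit 279121) (nat_lit 38301033) (nat_lit 19349943) [(nat_lit 279121), (nat_lit 1169999), (nat_lit 0), (nat_lit 6838715)]) (PF.cons (PF.leaf (nat_lit 6233016) (nat_lit 285558) (nat_lit 38072214) (nat_lit 19272858) [(nat_lit 285558), (nat_lit 1179774), (nat_lit 0), (nat_lit 6833073)]) (PF.cons PF.nil PF.nil)))) (PF.cons (PF.cons (PF.leaf (nat_lit 6421496) (nat_lit 1189978) (nat_lit 37609340) (nat_lit 19113513) [(nat_lit 0), (nat_lit 1189978), (nat_lit 0), (nat_lit 6816025)]) (PF.cons (PF.leaf (nat_lit 6615562) (nat_lit 294280) (nat_lit 37377500) (nat_lit 19033737) [(nat_lit 294280), (nat_lit 1198293), (nat_lit 0),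
 (nat_lit 6808414)]) PF.nil)) (PF.cons PF.nil PF.nil))))) (PF.cons (PF.cons (PF.cons (PF.leaf (nat_lit 5787595) (nat_lit 2809318) (nat_lit 38180332) (nat_lit 19300876) [(nat_lit 0), (nat_lit 0), (nat_lit 2809318), (nat_lit 6818285)]) (PF.cons (PF.leaf (nat_lit 5956767) (nat_lit 268312) (nat_lit 37977295) (nat_lit 19232334) [(nat_lit 268312), (nat_lit 0), (nat_lit 2817445), (nat_lit 6813426)]) (PF.cons (PF.leaf (nat_lit 6136775) (nat_lit 275926) (nat_lit 37764043) (nat_lit 19159877) [(nat_lit 275926), (nat_lit 0), (nat_lit 2825282), (nat_lit 6807756)]) (PF.cons (PF.leaf (nat_lit 6324655) (nat_lit 282723) (nat_lit 37542537) (nat_lit 19084115) [(nat_lit 282723), (nat_lit 0), (nat_lit 2832719), (nat_lit 6801269)]) (PF.cons PF.nil PF.nil))))) (PF.cons (PF.cons (PF.leaf (nat_lit 6326063) (nat_lit 1177683) (nat_lit 37305981) (nat_lit 19000948) [(nat_lit 0), (nat_lit 1177683), (nat_lit 2834143), (nat_lit 6790056)]) (PF.cons (PF.leaf (nat_lit 6509667) (nat_lit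 285629) (nat_lit 37088398) (nat_lit 18925505) [(nat_lit 285629), (nat_lit 1186368), (nat_lit 2840362), (nat_lit 6782548)]) (PF.cons (PF.leaf (nat_lit 6701646) (nat_lit 291615) (nat_lit 36863564) (nat_lit 18847040) [(nat_lit 291615),
 (nat_lit 1194597), (nat_lit 2846165), (nat_lit 6774212)]) (PF.cons PF.nil PF.nil)))) (PF.cons (PF.cons (PF.leaf (nat_lit 6884867) (nat_lit 1202301) (nat_lit 36413918) (nat_lit 18686913) [(nat_lit 0), (nat_lit 1202301), (nat_lit 2850952), (nat_lit 6752426)]) (PF.cons PF.nil PF.nil)) PF.nil))) (PF.cons (PF.cons (PF.cons (PF.leaf (nat_lit 6781387) (nat_lit 2837472) (nat_lit 36130151) (nat_lit 18578330) [(nat_lit 0), (nat_lit 0), (nat_lit 2837472), (nat_lit 6725384)]) (PF.cons (PF.leaf (nat_lit 6965492) (nat_lit 290690) (nat_lit 35917055) (nat_lit 18502011) [(nat_lit 290690), (nat_lit 0), (nat_lit 2841711), (nat_lit 6715632)]) (PF.cons PF.nil PF.nil))) (PF.cons (PF.cons (PF.leaf (nat_lit 7335398) (nat_lit 1210084) (nat_lit 35262203)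 (nat_lit 18263069) [(nat_lit 0), (nat_lit 1210084), (nat_lit 2846996), (nat_lit 6679462)]) PF.nil) PF.nil)) (PF.cons PF.nil (PF.cons PF.nil PF.nil))))) (PF.cons (PF.cons (PF.cons (PF.cons (PF.leaf (nat_lit 6454734) (nat_lit 6629988) (nat_lit 35526850) (nat_lit 18321984) [(nat_lit 0), (nat_lit 0), (nat_lit 0), (nat_lit 6629988)]) (PF.cons (PF.leaf (nat_lit 6620742) (nat_lit 269057) (nat_lit 35340894) (nat_lit 18254902) [(nat_lit 269057), (nat_lit 0),
 (nat_lit 0), (nat_lit 6621978)]) (PF.cons (PF.leaf (nat_lit 6797070) (nat_lit 276259) (nat_lit 35145861) (nat_lit 18184172) [(nat_lit 276259), (nat_lit 0), (nat_lit 0), (nat_lit 6613129)]) (PF.cons (PF.leaf (nat_lit 6980757) (nat_lit 282631) (nat_lit 34943560) (nat_lit 18110405) [(nat_lit 282631), (nat_lit 0), (nat_lit 0), (nat_lit 6603475)]) (PF.cons PF.nil PF.nil))))) (PF.cons (PF.cons (PF.leaf (nat_lit 6976082) (nat_lit 1169062) (nat_lit 34730085) (nat_lit 18030597) [(nat_lit 0), (nat_lit 1169062), (nat_lit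 0), (nat_lit 6589534)]) (PF.cons (PF.leaf (nat_lit 7155234) (nat_lit 284802) (nat_lit 34531802) (nat_lit 17957485) [(nat_lit 284802), (nat_lit 1176343), (nat_lit 0), (nat_lit 6579189)]) (PF.cons PF.nil (PF.cons PF.nil PF.nil)))) (PF.cons (PF.cons (PF.leaf (nat_lit 7514699) (nat_lit 1188511) (nat_lit 33920512) (nat_lit 17728171) [(nat_lit 0), (nat_lit 1188511), (nat_lit 0), (nat_lit 6541553)]) (PF.cons PF.nil PF.nil)) PF.nil))) (PF.cons (PF.cons (PF.cons (PF.leaf (nat_lit 7404831) (nat_lit 2782653) (nat_lit 33670838) (nat_lit 17627530) [(nat_lit 0), (nat_lit 0), (nat_lit 2782653), (nat_lit 6513895)]) (PF.cons (PF.leaf (nat_lit 7583948) (nat_lit 288469) (nat_lit 33477297)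
 (nat_lit 17554262) [(nat_lit 288469), (nat_lit 0), (nat_lit 2784877), (nat_lit 6501952)]) PF.nil)) (PF.cons PF.nil PF.nil)) (PF.cons PF.nil PF.nil))) (PF.cons (PF.cons (PF.cons (PF.cons (PF.leaf (nat_lit 7979271) (nat_lit 6296527) (nat_lit 31478889) (nat_lit 16740342) [(nat_lit 0), (nat_lit 0), (nat_lit 0), (nat_lit 6296527)]) (PF.cons PF.nil PF.nil)) (PF.cons PF.nil PF.nil)) (PF.cons PF.nil PF.nil)) (PF.cons PF.nil (PF.cons PF.nil PF.nil))))))

def p15_11_3_0 : pfC (piC [(nat_lit 43428061), (nat_lit 27181007), (nat_lit 20099156), (nat_lit 13547958)] (nat_lit 4636242)) p15_11_3 (nat_lit 4) (nat_lit 0) (nat_lit 1) = true := by decide +kernel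
def p15_11_3_1 : pfC (piC [(nat_lit 43428061), (nat_lit 27181007), (nat_lit 20099156), (nat_lit 13547958)] (nat_lit 4636242)) p15_11_3 (nat_lit 4) (nat_lit 1) (nat_lit 2) = true := by decide +kernel
def p15_11_3_2 : pfC (piC [(nat_lit 43428061), (nat_lit 27181007), (nat_lit 20099156), (nat_lit 13547958)] (nat_lit 4636242)) p15_11_3 (nat_lit 4) (nat_lit 2) (nat_lit 3) = true := by decide +kernel
def p15_11_3_3 : pfC (piC [(nat_lit 43428061), (nat_lit 27181007), (nat_lit 20099156), (nat_lit 13547958)] (nat_lit 4636242)) p15_11_3 (nat_lit 4) (nat_lit 3) (nat_lit 4) = true := by decide +kernel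
def p15_11_3_4 : pfC (piC [(nat_lit 43428061), (nat_lit 27181007), (nat_lit 20099156), (nat_lit 13547958)] (nat_lit 4636242)) p15_11_3 (nat_lit 4) (nat_lit 4) (nat_lit 5) = true := by decide +kernel
def p15_11_3_5 : pfC (piC [(nat_lit 43428061), (nat_lit 27181007), (nat_lit 20099156), (nat_lit 13547958)] (nat_lit 4636242)) p15_11_3 (nat_lit 4) (nat_lit 5) (nat_lit 6) = true := by decide +kernel
def p15_11_3_6 : pfC (piC [(nat_lit 43428061), (nat_lit 27181007), (nat_lit 20099156), (nat_lit 13547958)] (nat_lit 4636242)) p15_11_3 (nat_lit 4) (nat_lit 6) (nat_lit 7) = true := by decide +kernel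
def p15_11_3_7 : pfC (piC [(nat_lit 43428061), (nat_lit 27181007), (nat_lit 20099156), (nat_lit 13547958)] (nat_lit 4636242)) p15_11_3 (nat_lit 4) (nat_lit 7) (nat_lit 8) = true := by decide +kernel
def p15_11_3_8 : pfC (piC [(nat_lit 43428061), (nat_lit 27181007), (nat_lit 20099156), (nat_lit 13547958)] (nat_lit 4636242)) p15_11_3 (nat_lit 4) (nat_lit 8) (nat_lit 9) = true := by decide +kernel
def p15_11_3_9 : pfC (piC [(nat_lit 43428061), (nat_lit 27181007), (nat_lit 20099156), (nat_lit 13547958)] (nat_lit 4636242)) p15_11_3 (nat_lit 4) (nat_lit 9) (nat_lit 10) = true := by decide +kernel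
def p15_11_3_10 : pfC (piC [(nat_lit 43428061), (nat_lit 27181007), (nat_lit 20099156), (nat_lit 13547958)] (nat_lit 4636242)) p15_11_3 (nat_lit 4) (nat_lit 10) (nat_lit 11) = true := by decide +kernel
def p15_11_3_11 : pfC (piC [(nat_lit 43428061), (nat_lit 27181007), (nat_lit 20099156), (nat_lit 13547958)] (nat_lit 4636242)) p15_11_3 (nat_lit 4) (nat_lit 11) (nat_lit 12) = true := by decide +kernel
def p15_11_3_12 : pfC (piC [(nat_lit 43428061), (nat_lit 27181007), (nat_lit 20099156), (nat_lit 13547958)] (nat_lit 4636242)) p15_11_3 (nat_lit 4) (nat_lit 12) (nat_lit 13) = true := by decide +kernel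
def p15_11_3_13 : pfC (piC [(nat_lit 43428061), (nat_lit 27181007), (nat_lit 20099156), (nat_lit 13547958)] (nat_lit 4636242)) p15_11_3 (nat_lit 4) (nat_lit 13) (nat_lit 14) = true := by decide +kernel
def p15_11_3_14 : pfC (piC [(nat_lit 43428061), (nat_lit 27181007), (nat_lit 20099156), (nat_lit 13547958)] (nat_lit 4636242)) p15_11_3 (nat_lit 4) (nat_lit 14) (nat_lit 15) = true := by decide +kernel
def p15_11_3_15 : pfC (piC [(nat_lit 43428061), (nat_lit 27181007), (nat_lit 20099156), (nat_lit 13547958)] (nat_lit 4636242)) p15_11_3 (nat_lit 4) (nat_lit 15) (nat_lit 16) = true := by decide +kernel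
def p15_11_3_16 : pfC (piC [(nat_lit 43428061), (nat_lit 27181007), (nat_lit 20099156), (nat_lit 13547958)] (nat_lit 4636242)) p15_11_3 (nat_lit 4) (nat_lit 16) (nat_lit 17) = true := by decide +kernel
def p15_11_3_17 : pfC (piC [(nat_lit 43428061), (nat_lit 27181007), (nat_lit 20099156), (nat_lit 13547958)] (nat_lit 4636242)) p15_11_3 (nat_lit 4) (nat_lit 17) (nat_lit 18) = true := by decide +kernel
def p15_11_3_18 : pfC (piC [(nat_lit 43428061), (nat_lit 27181007), (nat_lit 20099156), (nat_lit 13547958)] (nat_lit 4636242)) p15_11_3 (nat_lit 4) (nat_lit 18) (nat_lit 19) = true := by decide +kernel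
def p15_11_3_19 : pfC (piC [(nat_lit 43428061), (nat_lit 27181007), (nat_lit 20099156), (nat_lit 13547958)] (nat_lit 4636242)) p15_11_3 (nat_lit 4) (nat_lit 19) (nat_lit 20) = true := by decide +kernel
def p15_11_3_20 : pfC (piC [(nat_lit 43428061), (nat_lit 27181007), (nat_lit 20099156), (nat_lit 13547958)] (nat_lit 4636242)) p15_11_3 (nat_lit 4) (nat_lit 20) (nat_lit 21) = true := by decide +kernel
def p15_11_3_21 : pfC (piC [(nat_lit 43428061), (nat_lit 27181007), (nat_lit 20099156), (nat_lit 13547958)] (nat_lit 4636242)) p15_11_3 (nat_lit 4) (nat_lit 21) (nat_lit 22) = true := by decide +kernel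
def p15_11_3_22 : pfC (piC [(nat_lit 43428061), (nat_lit 27181007), (nat_lit 20099156), (nat_lit 13547958)] (nat_lit 4636242)) p15_11_3 (nat_lit 4) (nat_lit 22) (nat_lit 23) = true := by decide +kernel
def p15_11_3_23 : pfC (piC [(nat_lit 43428061), (nat_lit 27181007), (nat_lit 20099156), (nat_lit 13547958)] (nat_lit 4636242)) p15_11_3 (nat_lit 4) (nat_lit 23) (nat_lit 24) = true := by decide +kernel
def p15_11_3_24 : pfC (piC [(nat_lit 43428061), (nat_lit 27181007), (nat_lit 20099156), (nat_lit 13547958)] (nat_lit 4636242)) p15_11_3 (nat_lit 4) (nat_lit 24) (nat_lit 25) = true := by decide +kernel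
def p15_11_3_25 : pfC (piC [(nat_lit 43428061), (nat_lit 27181007), (nat_lit 20099156), (nat_lit 13547958)] (nat_lit 4636242)) p15_11_3 (nat_lit 4) (nat_lit 25) (nat_lit 26) = true := by decide +kernel
def p15_11_3_26 : pfC (piC [(nat_lit 43428061), (nat_lit 27181007), (nat_lit 20099156), (nat_lit 13547958)] (nat_lit 4636242)) p15_11_3 (nat_lit 4) (nat_lit 26) (nat_lit 27) = true := by decide +kernel
def p15_11_3_27 : pfC (piC [(nat_lit 43428061), (nat_lit 27181007), (nat_lit 20099156), (nat_lit 13547958)] (nat_lit 4636242)) p15_11_3 (nat_lit 4) (nat_lit 27) (nat_lit 28) = true := by decide +kernel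
def p15_11_3_28 : pfC (piC [(nat_lit 43428061), (nat_lit 27181007), (nat_lit 20099156), (nat_lit 13547958)] (nat_lit 4636242)) p15_11_3 (nat_lit 4) (nat_lit 28) (nat_lit 29) = true := by decide +kernel
def p15_11_3_29 : pfC (piC [(nat_lit 43428061), (nat_lit 27181007), (nat_lit 20099156), (nat_lit 13547958)] (nat_lit 4636242)) p15_11_3 (nat_lit 4) (nat_lit 29) (nat_lit 30) = true := by decide +kernel
def p15_11_3_30 : pfC (piC [(nat_lit 43428061), (nat_lit 27181007), (nat_lit 20099156), (nat_lit 13547958)] (nat_lit 4636242)) p15_11_3 (nat_lit 4) (nat_lit 30) (nat_lit 31) = true := by decide +kernel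
def p15_11_3_31 : pfC (piC [(nat_lit 43428061), (nat_lit 27181007), (nat_lit 20099156), (nat_lit 13547958)] (nat_lit 4636242)) p15_11_3 (nat_lit 4) (nat_lit 31) (nat_lit 32) = true := by decide +kernel
def p15_11_3_32 : pfC (piC [(nat_lit 43428061), (nat_lit 27181007), (nat_lit 20099156), (nat_lit 13547958)] (nat_lit 4636242)) p15_11_3 (nat_lit 4) (nat_lit 32) (nat_lit 33) = true := by decide +kernel
def p15_11_3_33 : pfC (piC [(nat_lit 43428061), (nat_lit 27181007), (nat_lit 20099156), (nat_lit 13547958)] (nat_lit 4636242)) p15_11_3 (nat_lit 4) (nat_lit 33) (nat_lit 34) = true := by decide +kernel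
def p15_11_3_34 : pfC (piC [(nat_lit 43428061), (nat_lit 27181007), (nat_lit 20099156), (nat_lit 13547958)] (nat_lit 4636242)) p15_11_3 (nat_lit 4) (nat_lit 34) (nat_lit 35) = true := by decide +kernel
def p15_11_3_35 : pfC (piC [(nat_lit 43428061), (nat_lit 27181007), (nat_lit 20099156), (nat_lit 13547958)] (nat_lit 4636242)) p15_11_3 (nat_lit 4) (nat_lit 35) (nat_lit 36) = true := by decide +kernel
def p15_11_3_36 : pfC (piC [(nat_lit 43428061), (nat_lit 27181007), (nat_lit 20099156), (nat_lit 13547958)] (nat_lit 4636242)) p15_11_3 (nat_lit 4) (nat_lit 36) (nat_lit 37) = true := by decide +kernel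
def p15_11_3_37 : pfC (piC [(nat_lit 43428061), (nat_lit 27181007), (nat_lit 20099156), (nat_lit 13547958)] (nat_lit 4636242)) p15_11_3 (nat_lit 4) (nat_lit 37) (nat_lit 38) = true := by decide +kernel
def p15_11_3_38 : pfC (piC [(nat_lit 43428061), (nat_lit 27181007), (nat_lit 20099156), (nat_lit 13547958)] (nat_lit 4636242)) p15_11_3 (nat_lit 4) (nat_lit 38) (nat_lit 39) = true := by decide +kernel
def p15_11_3_39 : pfC (piC [(nat_lit 43428061), (nat_lit 27181007), (nat_lit 20099156), (nat_lit 13547958)] (nat_lit 4636242)) p15_11_3 (nat_lit 4) (nat_lit 39) (nat_lit 40) = true := by decide +kernel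
def p15_11_3_40 : pfC (piC [(nat_lit 43428061), (nat_lit 27181007), (nat_lit 20099156), (nat_lit 13547958)] (nat_lit 4636242)) p15_11_3 (nat_lit 4) (nat_lit 40) (nat_lit 41) = true := by decide +kernel
def p15_11_3_41 : pfC (piC [(nat_lit 43428061), (nat_lit 27181007), (nat_lit 20099156), (nat_lit 13547958)] (nat_lit 4636242)) p15_11_3 (nat_lit 4) (nat_lit 41) (nat_lit 42) = true := by decide +kernel
def p15_11_3_42 : pfC (piC [(nat_lit 43428061), (nat_lit 27181007), (nat_lit 20099156), (nat_lit 13547958)] (nat_lit 4636242)) p15_11_3 (nat_lit 4) (nat_lit 42) (nat_lit 43) = true := by decide +kernel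
def p15_11_3_43 : pfC (piC [(nat_lit 43428061), (nat_lit 27181007), (nat_lit 20099156), (nat_lit 13547958)] (nat_lit 4636242)) p15_11_3 (nat_lit 4) (nat_lit 43) (nat_lit 44) = true := by decide +kernel
def p15_11_3_44 : pfC (piC [(nat_lit 43428061), (nat_lit 27181007), (nat_lit 20099156), (nat_lit 13547958)] (nat_lit 4636242)) p15_11_3 (nat_lit 4) (nat_lit 44) (nat_lit 45) = true := by decide +kernel
def p15_11_3_45 : pfC (piC [(nat_lit 43428061), (nat_lit 27181007), (nat_lit 20099156), (nat_lit 13547958)] (nat_lit 4636242)) p15_11_3 (nat_lit 4) (nat_lit 45) (nat_lit 46) = true := by decide +kernel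
def p15_11_3_46 : pfC (piC [(nat_lit 43428061), (nat_lit 27181007), (nat_lit 20099156), (nat_lit 13547958)] (nat_lit 4636242)) p15_11_3 (nat_lit 4) (nat_lit 46) (nat_lit 47) = true := by decide +kernel
def p15_11_3_47 : pfC (piC [(nat_lit 43428061), (nat_lit 27181007), (nat_lit 20099156), (nat_lit 13547958)] (nat_lit 4636242)) p15_11_3 (nat_lit 4) (nat_lit 47) (nat_lit 48) = true := by decide +kernel
def p15_11_3_48 : pfC (piC [(nat_lit 43428061), (nat_lit 27181007), (nat_lit 20099156), (nat_lit 13547958)] (nat_lit 4636242)) p15_11_3 (nat_lit 4) (nat_lit 48) (nat_lit 49) = true := by decide +kernel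
def p15_11_3_49 : pfC (piC [(nat_lit 43428061), (nat_lit 27181007), (nat_lit 20099156), (nat_lit 13547958)] (nat_lit 4636242)) p15_11_3 (nat_lit 4) (nat_lit 49) (nat_lit 50) = true := by decide +kernel
def p15_11_3_50 : pfC (piC [(nat_lit 43428061), (nat_lit 27181007), (nat_lit 20099156), (nat_lit 13547958)] (nat_lit 4636242)) p15_11_3 (nat_lit 4) (nat_lit 50) (nat_lit 51) = true := by decide +kernel
def p15_11_3_51 : pfC (piC [(nat_lit 43428061), (nat_lit 27181007), (nat_lit 20099156), (nat_lit 13547958)] (nat_lit 4636242)) p15_11_3 (nat_lit 4) (nat_lit 51) (nat_lit 52) = true := by decide +kernel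
def p15_11_3_52 : pfC (piC [(nat_lit 43428061), (nat_lit 27181007), (nat_lit 20099156), (nat_lit 13547958)] (nat_lit 4636242)) p15_11_3 (nat_lit 4) (nat_lit 52) (nat_lit 53) = true := by decide +kernel
def p15_11_3_53 : pfC (piC [(nat_lit 43428061), (nat_lit 27181007), (nat_lit 20099156), (nat_lit 13547958)] (nat_lit 4636242)) p15_11_3 (nat_lit 4) (nat_lit 53) (nat_lit 54) = true := by decide +kernel
def p15_11_3_54 : pfC (piC [(nat_lit 43428061), (nat_lit 27181007), (nat_lit 20099156), (nat_lit 13547958)] (nat_lit 4636242)) p15_11_3 (nat_lit 4) (nat_lit 54) (nat_lit 55) = true := by decide +kernel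
def p15_11_3_55 : pfC (piC [(nat_lit 43428061), (nat_lit 27181007), (nat_lit 20099156), (nat_lit 13547958)] (nat_lit 4636242)) p15_11_3 (nat_lit 4) (nat_lit 55) (nat_lit 56) = true := by decide +kernel
def p15_11_3_56 : pfC (piC [(nat_lit 43428061), (nat_lit 27181007), (nat_lit 20099156), (nat_lit 13547958)] (nat_lit 4636242)) p15_11_3 (nat_lit 4) (nat_lit 56) (nat_lit 57) = true := by decide +kernel
def p15_11_3_57 : pfC (piC [(nat_lit 43428061), (nat_lit 27181007), (nat_lit 20099156), (nat_lit 13547958)] (nat_lit 4636242)) p15_11_3 (nat_lit 4) (nat_lit 57) (nat_lit 58) = true := by decide +kernel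
def p15_11_3_58 : pfC (piC [(nat_lit 43428061), (nat_lit 27181007), (nat_lit 20099156), (nat_lit 13547958)] (nat_lit 4636242)) p15_11_3 (nat_lit 4) (nat_lit 58) (nat_lit 59) = true := by decide +kernel
def p15_11_3_59 : pfC (piC [(nat_lit 43428061), (nat_lit 27181007), (nat_lit 20099156), (nat_lit 13547958)] (nat_lit 4636242)) p15_11_3 (nat_lit 4) (nat_lit 59) (nat_lit 60) = true := by decide +kernel
def p15_11_3_60 : pfC (piC [(nat_lit 43428061), (nat_lit 27181007), (nat_lit 20099156), (nat_lit 13547958)] (nat_lit 4636242)) p15_11_3 (nat_lit 4) (nat_lit 60) (nat_lit 61) = true := by decide +kernel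
def p15_11_3_61 : pfC (piC [(nat_lit 43428061), (nat_lit 27181007), (nat_lit 20099156), (nat_lit 13547958)] (nat_lit 4636242)) p15_11_3 (nat_lit 4) (nat_lit 61) (nat_lit 62) = true := by decide +kernel
def p15_11_3_62 : pfC (piC [(nat_lit 43428061), (nat_lit 27181007), (nat_lit 20099156), (nat_lit 13547958)] (nat_lit 4636242)) p15_11_3 (nat_lit 4) (nat_lit 62) (nat_lit 63) = true := by decide +kernel
def p15_11_3_63 : pfC (piC [(nat_lit 43428061), (nat_lit 27181007), (nat_lit 20099156), (nat_lit 13547958)] (nat_lit 4636242)) p15_11_3 (nat_lit 4) (nat_lit 63) (nat_lit 64) = true := by decide +kernel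
def p15_11_3_64 : pfC (piC [(nat_lit 43428061), (nat_lit 27181007), (nat_lit 20099156), (nat_lit 13547958)] (nat_lit 4636242)) p15_11_3 (nat_lit 4) (nat_lit 64) (nat_lit 65) = true := by decide +kernel
def p15_11_3_65 : pfC (piC [(nat_lit 43428061), (nat_lit 27181007), (nat_lit 20099156), (nat_lit 13547958)] (nat_lit 4636242)) p15_11_3 (nat_lit 4) (nat_lit 65) (nat_lit 66) = true := by decide +kernel
def p15_11_3_66 : pfC (piC [(nat_lit 43428061), (nat_lit 27181007), (nat_lit 20099156), (nat_lit 13547958)] (nat_lit 4636242)) p15_11_3 (nat_lit 4) (nat_lit 66) (nat_lit 67) = true := by decide +kernel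
def p15_11_3_67 : pfC (piC [(nat_lit 43428061), (nat_lit 27181007), (nat_lit 20099156), (nat_lit 13547958)] (nat_lit 4636242)) p15_11_3 (nat_lit 4) (nat_lit 67) (nat_lit 68) = true := by decide +kernel
def p15_11_3_68 : pfC (piC [(nat_lit 43428061), (nat_lit 27181007), (nat_lit 20099156), (nat_lit 13547958)] (nat_lit 4636242)) p15_11_3 (nat_lit 4) (nat_lit 68) (nat_lit 69) = true := by decide +kernel
def p15_11_3_69 : pfC (piC [(nat_lit 43428061), (nat_lit 27181007), (nat_lit 20099156), (nat_lit 13547958)] (nat_lit 4636242)) p15_11_3 (nat_lit 4) (nat_lit 69) (nat_lit 70) = true := by decide +kernel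
def p15_11_3_70 : pfC (piC [(nat_lit 43428061), (nat_lit 27181007), (nat_lit 20099156), (nat_lit 13547958)] (nat_lit 4636242)) p15_11_3 (nat_lit 4) (nat_lit 70) (nat_lit 71) = true := by decide +kernel
def p15_11_3_71 : pfC (piC [(nat_lit 43428061), (nat_lit 27181007), (nat_lit 20099156), (nat_lit 13547958)] (nat_lit 4636242)) p15_11_3 (nat_lit 4) (nat_lit 71) (nat_lit 72) = true := by decide +kernel
def p15_11_3_72 : pfC (piC [(nat_lit 43428061), (nat_lit 27181007), (nat_lit 20099156), (nat_lit 13547958)] (nat_lit 4636242)) p15_11_3 (nat_lit 4) (nat_lit 72) (nat_lit 73) = true := by decide +kernel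
def p15_11_3_73 : pfC (piC [(nat_lit 43428061), (nat_lit 27181007), (nat_lit 20099156), (nat_lit 13547958)] (nat_lit 4636242)) p15_11_3 (nat_lit 4) (nat_lit 73) (nat_lit 74) = true := by decide +kernel
def p15_11_3_74 : pfC (piC [(nat_lit 43428061), (nat_lit 27181007), (nat_lit 20099156), (nat_lit 13547958)] (nat_lit 4636242)) p15_11_3 (nat_lit 4) (nat_lit 74) (nat_lit 75) = true := by decide +kernel
def p15_11_3_75 : pfC (piC [(nat_lit 43428061), (nat_lit 27181007), (nat_lit 20099156), (nat_lit 13547958)] (nat_lit 4636242)) p15_11_3 (nat_lit 4) (nat_lit 75) (nat_lit 76) = true := by decide +kernel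
def p15_11_3_76 : pfC (piC [(nat_lit 43428061), (nat_lit 27181007), (nat_lit 20099156), (nat_lit 13547958)] (nat_lit 4636242)) p15_11_3 (nat_lit 4) (nat_lit 76) (nat_lit 77) = true := by decide +kernel
def p15_11_3_77 : pfC (piC [(nat_lit 43428061), (nat_lit 27181007), (nat_lit 20099156), (nat_lit 13547958)] (nat_lit 4636242)) p15_11_3 (nat_lit 4) (nat_lit 77) (nat_lit 78) = true := by decide +kernel
def p15_11_3_78 : pfC (piC [(nat_lit 43428061), (nat_lit 27181007), (nat_lit 20099156), (nat_lit 13547958)] (nat_lit 4636242)) p15_11_3 (nat_lit 4) (nat_lit 78) (nat_lit 79) = true := by decide +kernel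
def p15_11_3_79 : pfC (piC [(nat_lit 43428061), (nat_lit 27181007), (nat_lit 20099156), (nat_lit 13547958)] (nat_lit 4636242)) p15_11_3 (nat_lit 4) (nat_lit 79) (nat_lit 80) = true := by decide +kernel
def p15_11_3_80 : pfC (piC [(nat_lit 43428061), (nat_lit 27181007), (nat_lit 20099156), (nat_lit 13547958)] (nat_lit 4636242)) p15_11_3 (nat_lit 4) (nat_lit 80) (nat_lit 81) = true := by decide +kernel
def p15_11_3_81 : pfC (piC [(nat_lit 43428061), (nat_lit 27181007), (nat_lit 20099156), (nat_lit 13547958)] (nat_lit 4636242)) p15_11_3 (nat_lit 4) (nat_lit 81) (nat_lit 82) = true := by decide +kernel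
def p15_11_3_82 : pfC (piC [(nat_lit 43428061), (nat_lit 27181007), (nat_lit 20099156), (nat_lit 13547958)] (nat_lit 4636242)) p15_11_3 (nat_lit 4) (nat_lit 82) (nat_lit 83) = true := by decide +kernel
def p15_11_3_83 : pfC (piC [(nat_lit 43428061), (nat_lit 27181007), (nat_lit 20099156), (nat_lit 13547958)] (nat_lit 4636242)) p15_11_3 (nat_lit 4) (nat_lit 83) (nat_lit 84) = true := by decide +kernel
def p15_11_3_84 : pfC (piC [(nat_lit 43428061), (nat_lit 27181007), (nat_lit 20099156), (nat_lit 13547958)] (nat_lit 4636242)) p15_11_3 (nat_lit 4) (nat_lit 84) (nat_lit 85) = true := by decide +kernel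
def p15_11_3_85 : pfC (piC [(nat_lit 43428061), (nat_lit 27181007), (nat_lit 20099156), (nat_lit 13547958)] (nat_lit 4636242)) p15_11_3 (nat_lit 4) (nat_lit 85) (nat_lit 86) = true := by decide +kernel
def p15_11_3_86 : pfC (piC [(nat_lit 43428061), (nat_lit 27181007), (nat_lit 20099156), (nat_lit 13547958)] (nat_lit 4636242)) p15_11_3 (nat_lit 4) (nat_lit 86) (nat_lit 87) = true := by decide +kernel
def p15_11_3_87 : pfC (piC [(nat_lit 43428061), (nat_lit 27181007), (nat_lit 20099156), (nat_lit 13547958)] (nat_lit 4636242)) p15_11_3 (nat_lit 4) (nat_lit 87) (nat_lit 88) = true := by decide +kernel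
def p15_11_3_88 : pfC (piC [(nat_lit 43428061), (nat_lit 27181007), (nat_lit 20099156), (nat_lit 13547958)] (nat_lit 4636242)) p15_11_3 (nat_lit 4) (nat_lit 88) (nat_lit 89) = true := by decide +kernel
def p15_11_3_89 : pfC (piC [(nat_lit 43428061), (nat_lit 27181007), (nat_lit 20099156), (nat_lit 13547958)] (nat_lit 4636242)) p15_11_3 (nat_lit 4) (nat_lit 89) (nat_lit 90) = true := by decide +kernel
def p15_11_3_90 : pfC (piC [(nat_lit 43428061), (nat_lit 27181007), (nat_lit 20099156), (nat_lit 13547958)] (nat_lit 4636242)) p15_11_3 (nat_lit 4) (nat_lit 90) (nat_lit 91) = true := by decide +kernel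
theorem p15_11_3_T : PfS (PiF n15_11.reverse (nat_lit 4636242)) p15_11_3 (nat_lit 4) [] 0 :=
  pftab_of (los := [(nat_lit 43428061), (nat_lit 27181007), (nat_lit 20099156), (nat_lit 13547958)]) (by decide +kernel) (hi := (nat_lit 91)) (PfP.trans (PfP.trans (PfP.trans (PfP.trans (PfP.trans (PfP.trans (PfP.trans (PfP.trans (PfP.trans (PfP.trans (PfP.trans (PfP.trans (PfP.trans (PfP.trans (PfP.trans (PfP.trans (PfP.trans (PfP.trans (PfP.trans (PfP.trans (PfP.trans (PfP.trans (PfP.trans (PfP.trans (PfP.trans (PfP.trans (PfP.trans (PfP.trans (PfP.trans (PfP.trans (PfP.trans (PfP.trans (PfP.trans (PfP.trans (PfP.trans (PfP.trans (PfP.trans (PfP.trans (PfP.trans (PfP.trans (PfP.trans (PfP.trans (PfP.trans (PfP.trans (PfP.trans (PfP.trans (PfP.trans (PfP.trans (PfP.trans (PfP.trans (PfP.trans (PfP.trans (PfP.trans (PfP.trans (PfP.trans (PfP.trans (PfP.trans (PfP.trans (PfP.trans (PfP.trans (PfP.trans (PfP.trans (PfP.trans (PfP.trans (PfP.trans (PfP.trans (PfP.trans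 (PfP.trans (PfP.trans (PfP.trans (PfP.trans (PfP.trans (PfP.trans (PfP.trans (PfP.trans (PfP.trans (PfP.trans (PfP.trans (PfP.trans (PfP.trans (PfP.trans (PfP.trans (PfP.trans (PfP.trans (PfP.trans (PfP.trans (PfP.trans (PfP.trans (PfP.trans (PfP.trans (pfC_sound p15_11_3_0) (pfC_sound p15_11_3_1)) (pfC_sound p15_11_3_2)) (pfC_sound p15_11_3_3)) (pfC_sound p15_11_3_4)) (pfC_sound p15_11_3_5)) (pfC_sound p15_11_3_6)) (pfC_sound p15_11_3_7)) (pfC_sound
 p15_11_3_8)) (pfC_sound p15_11_3_9)) (pfC_sound p15_11_3_10)) (pfC_sound p15_11_3_11)) (pfC_sound p15_11_3_12)) (pfC_sound p15_11_3_13)) (pfC_sound p15_11_3_14)) (pfC_sound p15_11_3_15)) (pfC_sound p15_11_3_16)) (pfC_sound p15_11_3_17)) (pfC_sound p15_11_3_18)) (pfC_sound p15_11_3_19)) (pfC_sound p15_11_3_20)) (pfC_sound p15_11_3_21)) (pfC_sound p15_11_3_22)) (pfC_sound p15_11_3_23)) (pfC_sound p15_11_3_24)) (pfC_sound p15_11_3_25)) (pfC_sound p15_11_3_26)) (pfC_sound p15_11_3_27)) (pfC_sound p15_11_3_28))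 (pfC_sound p15_11_3_29)) (pfC_sound p15_11_3_30)) (pfC_sound p15_11_3_31)) (pfC_sound p15_11_3_32)) (pfC_sound p15_11_3_33)) (pfC_sound p15_11_3_34)) (pfC_sound p15_11_3_35)) (pfC_sound p15_11_3_36)) (pfC_sound p15_11_3_37)) (pfC_sound p15_11_3_38)) (pfC_sound p15_11_3_39)) (pfC_sound p15_11_3_40)) (pfC_sound p15_11_3_41)) (pfC_sound p15_11_3_42)) (pfC_sound p15_11_3_43)) (pfC_sound p15_11_3_44)) (pfC_sound p15_11_3_45)) (pfC_sound p15_11_3_46)) (pfC_sound p15_11_3_47)) (pfC_sound p15_11_3_48)) (pfC_sound p15_11_3_49)) (pfC_sound p15_11_3_50)) (pfC_sound p15_11_3_51)) (pfC_sound p15_11_3_52)) (pfC_sound p15_11_3_53)) (pfC_sound p15_11_3_54)) (pfC_sound p15_11_3_55)) (pfC_sound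
 p15_11_3_56)) (pfC_sound p15_11_3_57)) (pfC_sound p15_11_3_58)) (pfC_sound p15_11_3_59)) (pfC_sound p15_11_3_60)) (pfC_sound p15_11_3_61)) (pfC_sound p15_11_3_62)) (pfC_sound p15_11_3_63)) (pfC_sound p15_11_3_64)) (pfC_sound p15_11_3_65)) (pfC_sound p15_11_3_66)) (pfC_sound p15_11_3_67)) (pfC_sound p15_11_3_68)) (pfC_sound p15_11_3_69)) (pfC_sound p15_11_3_70)) (pfC_sound p15_11_3_71)) (pfC_sound p15_11_3_72)) (pfC_sound p15_11_3_73)) (pfC_sound p15_11_3_74)) (pfC_sound p15_11_3_75)) (pfC_sound p15_11_3_76)) (pfC_sound p15_11_3_77)) (pfC_sound p15_11_3_78)) (pfC_sound p15_11_3_79)) (pfC_sound p15_11_3_80)) (pfC_sound p15_11_3_81)) (pfC_sound p15_11_3_82)) (pfC_sound p15_11_3_83)) (pfC_sound p15_11_3_84)) (pfC_sound p15_11_3_85)) (pfC_sound p15_11_3_86)) (pfC_sound p15_11_3_87)) (pfC_sound p15_11_3_88)) (pfC_sound p15_11_3_89)) (pfC_sound p15_11_3_90)) (by decide +kernel)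

def z15_11_3 : zOK yB15_11 (nat_lit 3) (nat_lit 750) (nat_lit 922) (nat_lit 4636242) (nat_lit 2823631) = true := by decide +kernel
def g15_11_3 : gOK yB15_11.x P15_11 (nat_lit 1429) (q15_11 :: r15_11) (nat_lit 3) (nat_lit 750) (nat_lit 4) (nat_lit 922) (nat_lit 12712500) (nat_lit 12712500) (nat_lit 12712500) (nat_lit 12712500) [(nat_lit 800)] = true := by decide +kernel
def v15_11_3 : ivC P15_11 s15_11 w15_11 n15_11 (nat_lit 4) (nat_lit 4740) (nat_lit 3) (nat_lit 750) f136_1_750 f144_1_750 (nat_lit 4) (nat_lit 922) f136_1_922 f144_1_922 (nat_lit 4636242) (nat_lit 2823631) p15_11_3 = true := by decide +kernel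
end CB
end Pool.Agent.Lib.MP_6947cd_al
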