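import Pool.Agent.Lib.MP_6947cd_al.L.BoxDataB
import Pool.Agent.Lib.MP_6947cd_al.L.TeD4
import Pool.Agent.Lib.MP_6947cd_al.L.TeD5

/-!
Problem MP_6947cd_al (Chollet).  CASE B, rows `j`: boxes (generated).
-/

set_option autoImplicit false
set_option linter.defProp false
set_option maxRecDepth 20000

namespace Pool.Agent.Lib.MP_6947cd_al
namespace CB

open Ent Ent.Pk Fr Fr.WT CA

/-! box `yB12_14` -/

def P12_14 : BQ := ⟨(nat_lit 8), (nat_lit 4), (nat_lit 4), (nat_lit 0), (nat_lit 8), (nat_lit 820), (nat_lit 840), (nat_lit 120), [(nat_lit 200), (nat_lit 300), (nat_lit 450), (nat_lit 800)], (nat_lit 116096000), (nat_lit 16000000), (nat_lit 16000000000)⟩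
def q12_14 : PC := ⟨(nat_lit 1000), [(nat_lit 120000), (nat_lit 200000), (nat_lit 300000), (nat_lit 450000), (nat_lit 800000)], (nat_lit 340282367000166625996085689103316680705000000), (nat_lit 15883904000000), (nat_lit 15883904000000), (nat_lit 10000000)⟩
def r12_14 : List PC := [⟨(nat_lit 1337), [(nat_lit 120687), (nat_lit 201119), (nat_lit 301364), (nat_lit 451720), (nat_lit 801652)], (nat_lit 238197656924331854565594453006584074132736835), (nat_lit 16350393227680), (nat_lit 16362179115200), (nat_lit 10057250)⟩]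
def s12_14 : List PB := [⟨(nat_lit 26740), (nat_lit 1930992000000), [(nat_lit 201119), (nat_lit 301364), (nat_lit 451720), (nat_lit 801652)], (nat_lit 238197656924331854565594453006584074132736835), (nat_lit 1142250300070304), (nat_lit 1142262085957824), (nat_lit 53920)⟩]
def n12_14 : List KN := [⟨(nat_lit 800), (nat_lit 450), (nat_lit 12552662), (nat_lit 5762536)⟩, ⟨(nat_lit 450), (nat_lit 300), (nat_lit 18643303), (nat_lit 12552662)⟩, ⟨(nat_lit 300), (nat_lit 200), (nat_lit 25010362), (nat_lit 18643303)⟩, ⟨(nat_lit 200), (nat_lit 120), (nat_lit 38167130), (nat_lit 25010362)⟩]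
def w12_14 : List ℕ := [(nat_lit 53920)]
def par12_14 : parC yB12_14 P12_14 s12_14 r12_14 q12_14 n12_14 w12_14 = true := by decide +kernel

def p12_14_0 : PF := (PF.cons (PF.cons (PF.cons (PF.cons (PF.leaf (nat_lit 601789) (nat_lit 1741388) (nat_lit 65367424) (nat_lit 1741388) [(nat_lit 0), (nat_lit 0), (nat_lit 0), (nat_lit 0)]) (PF.cons (PF.leaf (nat_lit 752509) (nat_lit 238100) (nat_lit 65066421) (nat_lit 1804290) [(nat_lit 238100), (nat_lit 0), (nat_lit 0), (nat_lit 0)]) (PF.cons (PF.leaf (nat_lit 936775) (nat_lit 265044) (nat_lit 64705899) (nat_lit 1872825) [(nat_lit 265044), (nat_lit 0), (nat_lit 0), (nat_lit 0)]) (PF.cons (PF.leaf (nat_lit 1149371) (nat_lit 290570) (nat_lit 64293083) (nat_lit 1944018) [(nat_lit 290570), (nat_lit 0), (nat_lit 0), (nat_lit 0)]) (PF.cons (PF.leaf (nat_lit 1387922) (nat_lit 314910) (nat_lit 63833238) (nat_lit 2015931) [(nat_lit 314910), (nat_lit 0), (nat_lit 0), (nat_lit 0)]) (PF.cons (PF.leaf (nat_lit 1650423) (nat_lit 338172)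 (nat_lit 63330710) (nat_lit 2087240) [(nat_lit 338172), (nat_lit 0), (nat_lit 0), (nat_lit 0)]) (PF.cons (PF.leaf (nat_lit 1935003) (nat_lit 360403) (nat_lit 62789367) (nat_lit 2157021) [(nat_lit 360403), (nat_lit 0), (nat_lit 0), (nat_lit 0)]) (PF.cons (PF.leaf (nat_lit 2240046) (nat_lit 381626) (nat_lit 62212808) (nat_lit 2224615) [(nat_lit 381626), (nat_lit 0), (nat_lit 0),
 (nat_lit 0)]) (PF.cons (PF.leaf (nat_lit 2563770) (nat_lit 401851) (nat_lit 61604451) (nat_lit 2289551) [(nat_lit 401851), (nat_lit 0), (nat_lit 0), (nat_lit 0)]) (PF.cons (PF.leaf (nat_lit 2904580) (nat_lit 421081) (nat_lit 60967581) (nat_lit 2351495) [(nat_lit 421081), (nat_lit 0), (nat_lit 0), (nat_lit 0)]) (PF.cons PF.nil (PF.cons PF.nil PF.nil)))))))))))) (PF.cons (PF.cons (PF.leaf (nat_lit 1136557) (nat_lit 1128017) (nat_lit 64009489) (nat_lit 1971305) [(nat_lit 0), (nat_lit 1128017), (nat_lit 0), (nat_lit 0)]) (PF.cons (PF.leaf (nat_lit 1347633) (nat_lit 308488) (nat_lit 63587882) (nat_lit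 2034782) [(nat_lit 308488), (nat_lit 1177659), (nat_lit 0), (nat_lit 0)]) (PF.cons (PF.leaf (nat_lit 1586703) (nat_lit 332011) (nat_lit 63117321) (nat_lit 2099708) [(nat_lit 332011), (nat_lit 1227760), (nat_lit 0), (nat_lit 0)]) (PF.cons (PF.leaf (nat_lit 1849955) (nat_lit 354386) (nat_lit 62603753) (nat_lit 2164562) [(nat_lit 354386), (nat_lit 1277336), (nat_lit 0), (nat_lit 0)]) (PF.cons (PF.leaf (nat_lit 2135159) (nat_lit 375703) (nat_lit 62051933) (nat_lit 2228309) [(nat_lit 375703), (nat_lit 1325756), (nat_lit 0), (nat_lit 0)]) (PF.cons (PF.leaf (nat_lit 2440443) (nat_lit 396003)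
 (nat_lit 61465969) (nat_lit 2290226) [(nat_lit 396003), (nat_lit 1372600), (nat_lit 0), (nat_lit 0)]) (PF.cons (PF.leaf (nat_lit 2763937) (nat_lit 415308) (nat_lit 60849580) (nat_lit 2349798) [(nat_lit 415308), (nat_lit 1417580), (nat_lit 0), (nat_lit 0)]) (PF.cons (PF.leaf (nat_lit 3103971) (nat_lit 433632) (nat_lit 60206216) (nat_lit 2406665) [(nat_lit 433632), (nat_lit 1460500), (nat_lit 0), (nat_lit 0)]) (PF.cons (PF.leaf (nat_lit 3458954) (nat_lit 450985) (nat_lit 59539125) (nat_lit 2460576) [(nat_lit 450985), (nat_lit 1501228), (nat_lit 0), (nat_lit 0)]) (PF.cons PF.nil PF.nil)))))))))) (PF.cons (PF.cons (PF.leaf (nat_lit 1791408) (nat_lit 1282119) (nat_lit 62366984) (nat_lit 2177589) [(nat_lit 0), (nat_lit 1282119), (nat_lit 0), (nat_lit 0)]) (PF.cons (PF.leaf (nat_lit 2052356) (nat_lit 369044) (nat_lit 61848969) (nat_lit 2236187) [(nat_lit 369044), (nat_lit 1327305), (nat_lit 0), (nat_lit 0)]) (PF.cons (PF.leaf (nat_lit 2336423) (nat_lit 389601) (nat_lit 61291970)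 (nat_lit 2294157) [(nat_lit 389601), (nat_lit 1371740), (nat_lit 0), (nat_lit 0)]) (PF.cons (PF.leaf (nat_lit 2640552) (nat_lit 409099) (nat_lit 60701034) (nat_lit 2350675) [(nat_lit 409099), (nat_lit 1414902),
 (nat_lit 0), (nat_lit 0)]) (PF.cons (PF.leaf (nat_lit 2962752) (nat_lit 427585) (nat_lit 60080414) (nat_lit 2405167) [(nat_lit 427585), (nat_lit 1456444), (nat_lit 0), (nat_lit 0)]) (PF.cons (PF.leaf (nat_lit 3301142) (nat_lit 445087) (nat_lit 59433874) (nat_lit 2457234) [(nat_lit 445087), (nat_lit 1496132), (nat_lit 0), (nat_lit 0)]) (PF.cons (PF.leaf (nat_lit 3654048) (nat_lit 461625) (nat_lit 58764831) (nat_lit 2506601) [(nat_lit 461625), (nat_lit 1533812), (nat_lit 0), (nat_lit 0)]) (PF.cons PF.nil (PF.cons PF.nil PF.nil))))))))) (PF.cons (PF.cons (PF.leaf (nat_lit 2540296) (nat_lit 1414475) (nat_lit 60510319) (nat_lit 2355067) [(nat_lit 0), (nat_lit 1414475), (nat_lit 0), (nat_lit 0)]) (PF.cons (PF.leaf (nat_lit 2841146) (nat_lit 420949) (nat_lit 59919213)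 (nat_lit 2406386) [(nat_lit 420949), (nat_lit 1454087), (nat_lit 0), (nat_lit 0)]) (PF.cons (PF.leaf (nat_lit 3160738) (nat_lit 438720) (nat_lit 59298326) (nat_lit 2456024) [(nat_lit 438720), (nat_lit 1492340), (nat_lit 0), (nat_lit 0)]) (PF.cons (PF.leaf (nat_lit 3496474) (nat_lit 455487) (nat_lit 58651966) (nat_lit 2503529) [(nat_lit 455487), (nat_lit 1528951), (nat_lit 0), (nat_lit 0)]) (PF.cons (PF.leaf (nat_lit
 3846519) (nat_lit 471286) (nat_lit 57983866) (nat_lit 2548590) [(nat_lit 471286), (nat_lit 1563736), (nat_lit 0), (nat_lit 0)]) (PF.cons (PF.leaf (nat_lit 4209208) (nat_lit 486144) (nat_lit 57297354) (nat_lit 2591005) [(nat_lit 486144), (nat_lit 1596576), (nat_lit 0), (nat_lit 0)]) (PF.cons PF.nil PF.nil))))))) (PF.cons (PF.cons (PF.leaf (nat_lit 3359077) (nat_lit 1525494) (nat_lit 58504127) (nat_lit 2502706) [(nat_lit 0), (nat_lit 1525494), (nat_lit 0), (nat_lit 0)]) (PF.cons (PF.leaf (nat_lit 3690570) (nat_lit 464860) (nat_lit 57861488) (nat_lit 2545847)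 [(nat_lit 464860), (nat_lit 1559154), (nat_lit 0), (nat_lit 0)]) (PF.cons (PF.leaf (nat_lit 4036855) (nat_lit 479998) (nat_lit 57197289) (nat_lit 2586814) [(nat_lit 479998), (nat_lit 1591177), (nat_lit 0), (nat_lit 0)]) (PF.cons (PF.leaf (nat_lit 4395693) (nat_lit 494192) (nat_lit 56515173) (nat_lit 2625372) [(nat_lit 494192), (nat_lit 1621422), (nat_lit 0), (nat_lit 0)]) (PF.cons (PF.leaf (nat_lit 4765446) (nat_lit 507473) (nat_lit 55818335) (nat_lit 2661373) [(nat_lit 507473), (nat_lit 1649802), (nat_lit 0), (nat_lit 0)]) PF.nil))))) (PF.cons (PF.cons (PF.leaf (nat_lit 4226020) (nat_lit 1616303) (nat_lit 56405774) (nat_lit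
 2621522) [(nat_lit 0), (nat_lit 1616303), (nat_lit 0), (nat_lit 0)]) (PF.cons (PF.leaf (nat_lit 4579836) (nat_lit 501384) (nat_lit 55730649) (nat_lit 2656416) [(nat_lit 501384), (nat_lit 1644072), (nat_lit 0), (nat_lit 0)]) (PF.cons (PF.leaf (nat_lit 4944943) (nat_lit 514071) (nat_lit 55041055) (nat_lit 2688974) [(nat_lit 514071), (nat_lit 1670128), (nat_lit 0), (nat_lit 0)]) (PF.cons PF.nil PF.nil)))) (PF.cons (PF.cons (PF.leaf (nat_lit 5122296) (nat_lit 1688511) (nat_lit 54264102) (nat_lit 2713643) [(nat_lit 0), (nat_lit 1688511), (nat_lit 0), (nat_lit 0)]) (PF.cons (PF.leaf (nat_lit 5491193) (nat_lit 531177) (nat_lit 53572612) (nat_lit 2740702) [(nat_lit 531177), (nat_lit 1710720), (nat_lit 0), (nat_lit 0)]) PF.nil)) (PF.cons PF.nil (PF.cons PF.nil PF.nil))))))))) (PF.cons (PF.cons (PF.cons (PF.leaf (nat_lit 1756328) (nat_lit 2184515) (nat_lit 61719453) (nat_lit 2184515) [(nat_lit 0), (nat_lit 0), (nat_lit 3204843), (nat_lit 0)]) (PF.cons (PF.leaf (nat_lit 1988231)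 (nat_lit 352440) (nat_lit 61254947) (nat_lit 2237144) [(nat_lit 352440), (nat_lit 0), (nat_lit 3264280), (nat_lit 0)]) (PF.cons (PF.leaf (nat_lit 2246698) (nat_lit 374692) (nat_lit 60743929) (nat_lit 2290557)
 [(nat_lit 374692), (nat_lit 0), (nat_lit 3324940), (nat_lit 0)]) (PF.cons (PF.leaf (nat_lit 2527663) (nat_lit 395438) (nat_lit 60193659) (nat_lit 2343522) [(nat_lit 395438), (nat_lit 0), (nat_lit 3385315), (nat_lit 0)]) (PF.cons (PF.leaf (nat_lit 2828517) (nat_lit 414882) (nat_lit 59609707) (nat_lit 2395216) [(nat_lit 414882), (nat_lit 0), (nat_lit 3444359), (nat_lit 0)]) (PF.cons (PF.leaf (nat_lit 3147128) (nat_lit 433147) (nat_lit 58996672) (nat_lit 2445074) [(nat_lit 433147), (nat_lit 0), (nat_lit 3501325), (nat_lit 0)]) (PF.cons (PF.leaf (nat_lit 3481609) (nat_lit 450316) (nat_lit 58358534) (nat_lit 2492701) [(nat_lit 450316), (nat_lit 0), (nat_lit 3555681), (nat_lit 0)]) (PF.cons (PF.leaf (nat_lit 3830231) (nat_lit 466443) (nat_lit 57698836) (nat_lit 2537826)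 [(nat_lit 466443), (nat_lit 0), (nat_lit 3607048), (nat_lit 0)]) (PF.cons (PF.leaf (nat_lit 4191397) (nat_lit 481573) (nat_lit 57020793) (nat_lit 2580269) [(nat_lit 481573), (nat_lit 0), (nat_lit 3655166), (nat_lit 0)]) (PF.cons PF.nil PF.nil)))))))))) (PF.cons (PF.cons (PF.leaf (nat_lit 2450607) (nat_lit 1402277) (nat_lit 59958402) (nat_lit 2350924) [(nat_lit 0), (nat_lit 1402277), (nat_lit 3397209), (nat_lit 0)])
 (PF.cons (PF.leaf (nat_lit 2726879) (nat_lit 406797) (nat_lit 59411467) (nat_lit 2398672) [(nat_lit 406797), (nat_lit 1440548), (nat_lit 3451327), (nat_lit 0)]) (PF.cons (PF.leaf (nat_lit 3024371) (nat_lit 425646) (nat_lit 58829581) (nat_lit 2445558) [(nat_lit 425646), (nat_lit 1477862), (nat_lit 3504516), (nat_lit 0)]) (PF.cons (PF.leaf (nat_lit 3339929) (nat_lit 443264) (nat_lit 58218322) (nat_lit 2490927) [(nat_lit 443264), (nat_lit 1513817), (nat_lit 3555952), (nat_lit 0)]) (PF.cons (PF.leaf (nat_lit 3671356) (nat_lit 459759) (nat_lit 57582224) (nat_lit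 2534334) [(nat_lit 459759), (nat_lit 1548156), (nat_lit 3605060), (nat_lit 0)]) (PF.cons (PF.leaf (nat_lit 4016791) (nat_lit 475205) (nat_lit 56925152) (nat_lit 2575477) [(nat_lit 475205), (nat_lit 1580714), (nat_lit 3651441), (nat_lit 0)]) (PF.cons (PF.leaf (nat_lit 4374552) (nat_lit 489657) (nat_lit 56250500) (nat_lit 2614157) [(nat_lit 489657), (nat_lit 1611388), (nat_lit 3694822), (nat_lit 0)]) (PF.cons PF.nil (PF.cons PF.nil PF.nil))))))))) (PF.cons (PF.cons (PF.leaf (nat_lit 3222257) (nat_lit 1511132) (nat_lit 58035134) (nat_lit 2491908) [(nat_lit 0), (nat_lit 1511132), (nat_lit 3559504), (nat_lit 0)]) (PF.cons (PF.leaf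
 (nat_lit 3532770) (nat_lit 452292) (nat_lit 57429810) (nat_lit 2532943) [(nat_lit 452292), (nat_lit 1544083), (nat_lit 3605600), (nat_lit 0)]) (PF.cons (PF.leaf (nat_lit 3860017) (nat_lit 468215) (nat_lit 56799093) (nat_lit 2572310) [(nat_lit 468215), (nat_lit 1575645), (nat_lit 3649688), (nat_lit 0)]) (PF.cons (PF.leaf (nat_lit 4201389) (nat_lit 483062) (nat_lit 56147411) (nat_lit 2609663) [(nat_lit 483062), (nat_lit 1605611), (nat_lit 3691327), (nat_lit 0)]) (PF.cons (PF.leaf (nat_lit 4555092) (nat_lit 496906) (nat_lit 55478483) (nat_lit 2644773) [(nat_lit 496906), (nat_lit 1633854), (nat_lit 3730221), (nat_lit 0)]) (PF.cons (PF.leaf (nat_lit 4919463) (nat_lit 509801) (nat_lit 54795530) (nat_lit 2677498) [(nat_lit 509801), (nat_lit 1660299), (nat_lit 3766179), (nat_lit 0)]) (PF.cons PF.nil PF.nil))))))) (PF.cons (PF.cons (PF.leaf (nat_lit 4048754) (nat_lit 1600875) (nat_lit 56009438) (nat_lit 2606878) [(nat_lit 0), (nat_lit 1600875), (nat_lit 3689870), (nat_lit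 0)]) (PF.cons (PF.leaf (nat_lit 4384671) (nat_lit 490027) (nat_lit 55366117) (nat_lit 2640607) [(nat_lit 490027), (nat_lit 1628356), (nat_lit 3726989), (nat_lit 0)]) (PF.cons (PF.leaf (nat_lit 4733510) (nat_lit 503339)
 (nat_lit 54705334) (nat_lit 2672325) [(nat_lit 503339), (nat_lit 1654281), (nat_lit 3761629), (nat_lit 0)]) (PF.cons (PF.leaf (nat_lit 5093079) (nat_lit 515692) (nat_lit 54030635) (nat_lit 2701863) [(nat_lit 515692), (nat_lit 1678553), (nat_lit 3793576), (nat_lit 0)]) (PF.cons PF.nil PF.nil))))) (PF.cons (PF.cons (PF.leaf (nat_lit 4910756) (nat_lit 1672799) (nat_lit 53931315) (nat_lit 2697008) [(nat_lit 0), (nat_lit 1672799), (nat_lit 3789291), (nat_lit 0)]) (PF.cons (PF.leaf (nat_lit 5264504) (nat_lit 520848) (nat_lit 53266984) (nat_lit 2723522) [(nat_lit 520848), (nat_lit 1695002), (nat_lit 3817447), (nat_lit 0)]) (PF.cons (PF.leaf (nat_lit 5627916) (nat_lit 531820) (nat_lit 52591678) (nat_lit 2747946) [(nat_lit 531820), (nat_lit 1715634), (nat_lit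 3843011), (nat_lit 0)]) (PF.cons PF.nil PF.nil)))) (PF.cons (PF.cons (PF.leaf (nat_lit 5792057) (nat_lit 1728551) (nat_lit 51841448) (nat_lit 2764388) [(nat_lit 0), (nat_lit 1728551), (nat_lit 3860217), (nat_lit 0)]) (PF.cons (PF.leaf (nat_lit 6157250) (nat_lit 545528) (nat_lit 51169861) (nat_lit 2784151) [(nat_lit 545528), (nat_lit 1745861), (nat_lit 3879963), (nat_lit 0)]) PF.nil)) (PF.cons PF.nil (PF.cons PF.nil PF.nil))))))))
 (PF.cons (PF.cons (PF.cons (PF.leaf (nat_lit 3106442) (nat_lit 2481644) (nat_lit 57519095) (nat_lit 2481644) [(nat_lit 0), (nat_lit 0), (nat_lit 3554036), (nat_lit 0)]) (PF.cons (PF.leaf (nat_lit 3393098) (nat_lit 437134) (nat_lit 56958705) (nat_lit 2520244) [(nat_lit 437134), (nat_lit 0), (nat_lit 3596364), (nat_lit 0)]) (PF.cons (PF.leaf (nat_lit 3699250) (nat_lit 454371) (nat_lit 56367199) (nat_lit 2557810) [(nat_lit 454371), (nat_lit 0), (nat_lit 3637529), (nat_lit 0)]) (PF.cons (PF.leaf (nat_lit 4021629) (nat_lit 470258) (nat_lit 55750411)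 (nat_lit 2593829) [(nat_lit 470258), (nat_lit 0), (nat_lit 3676897), (nat_lit 0)]) (PF.cons (PF.leaf (nat_lit 4358012) (nat_lit 484953) (nat_lit 55112958) (nat_lit 2627967) [(nat_lit 484953), (nat_lit 0), (nat_lit 3714037), (nat_lit 0)]) (PF.cons (PF.leaf (nat_lit 4706509) (nat_lit 498565) (nat_lit 54458669) (nat_lit 2660002) [(nat_lit 498565), (nat_lit 0), (nat_lit 3748657), (nat_lit 0)]) (PF.cons (PF.leaf (nat_lit 5065506) (nat_lit 511175) (nat_lit 53790823) (nat_lit 2689797) [(nat_lit 511175), (nat_lit 0), (nat_lit 3780569), (nat_lit 0)]) (PF.cons PF.nil (PF.cons PF.nil PF.nil))))))))) (PF.cons (PF.cons (PF.leaf (nat_lit 3889085)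
 (nat_lit 1584493) (nat_lit 55577615) (nat_lit 2592360) [(nat_lit 0), (nat_lit 1584493), (nat_lit 3677172), (nat_lit 0)]) (PF.cons (PF.leaf (nat_lit 4205143) (nat_lit 476924) (nat_lit 54971182) (nat_lit 2624754) [(nat_lit 476924), (nat_lit 1611726), (nat_lit 3712112), (nat_lit 0)]) (PF.cons (PF.leaf (nat_lit 4536171) (nat_lit 491173) (nat_lit 54343164) (nat_lit 2655522) [(nat_lit 491173), (nat_lit 1637576), (nat_lit 3745100), (nat_lit 0)]) (PF.cons (PF.leaf (nat_lit 4879640) (nat_lit 504306) (nat_lit 53697964) (nat_lit 2684405) [(nat_lit 504306), (nat_lit 1661897), (nat_lit 3775812), (nat_lit 0)]) (PF.cons (PF.leaf (nat_lit 5233705) (nat_lit 516423) (nat_lit 53039191) (nat_lit 2711241) [(nat_lit 516423), (nat_lit 1684606), (nat_lit 3804038), (nat_lit 0)]) (PF.cons PF.nil (PF.cons PF.nil PF.nil))))))) (PF.cons (PF.cons (PF.leaf (nat_lit 4714345) (nat_lit 1656307) (nat_lit 53570887) (nat_lit 2680274) [(nat_lit 0), (nat_lit 1656307), (nat_lit 3772517), (nat_lit 0)]) (PF.cons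 (PF.leaf (nat_lit 5051478) (nat_lit 509269) (nat_lit 52937270) (nat_lit 2706152) [(nat_lit 509269), (nat_lit 1678541), (nat_lit 3799518), (nat_lit 0)]) (PF.cons (PF.leaf (nat_lit 5399927) (nat_lit 520967) (nat_lit
 52289552) (nat_lit 2730181) [(nat_lit 520967), (nat_lit 1699309), (nat_lit 3824262), (nat_lit 0)]) (PF.cons (PF.leaf (nat_lit 5757605) (nat_lit 531711) (nat_lit 51631122) (nat_lit 2752246) [(nat_lit 531711), (nat_lit 1718552), (nat_lit 3846602), (nat_lit 0)]) (PF.cons PF.nil PF.nil))))) (PF.cons (PF.cons (PF.leaf (nat_lit 5565098) (nat_lit 1712434) (nat_lit 51541863) (nat_lit 2746773) [(nat_lit 0), (nat_lit 1712434), (nat_lit 3841435), (nat_lit 0)]) (PF.cons (PF.leaf (nat_lit 5916428) (nat_lit 535187) (nat_lit 50896017) (nat_lit 2766352) [(nat_lit 535187), (nat_lit 1729955), (nat_lit 3860694), (nat_lit 0)]) (PF.cons (PF.leaf (nat_lit 6276068) (nat_lit 544670) (nat_lit 50241944) (nat_lit 2784067) [(nat_lit 544670), (nat_lit 1746043), (nat_lit 3877664), (nat_lit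 0)]) (PF.cons PF.nil PF.nil)))) (PF.cons (PF.cons (PF.leaf (nat_lit 6427432) (nat_lit 1754530) (nat_lit 49524057) (nat_lit 2793911) [(nat_lit 0), (nat_lit 1754530), (nat_lit 3886360), (nat_lit 0)]) (PF.cons PF.nil PF.nil)) (PF.cons PF.nil PF.nil)))))) (PF.cons (PF.cons (PF.cons (PF.leaf (nat_lit 4535574) (nat_lit 2663433) (nat_lit 53176867) (nat_lit 2663433) [(nat_lit 0), (nat_lit 0), (nat_lit 3756170), (nat_lit 0)])
 (PF.cons (PF.leaf (nat_lit 4853990) (nat_lit 495943) (nat_lit 52578883) (nat_lit 2688553) [(nat_lit 495943), (nat_lit 0), (nat_lit 3781810), (nat_lit 0)]) (PF.cons (PF.leaf (nat_lit 5185898) (nat_lit 508686) (nat_lit 51962558) (nat_lit 2712113) [(nat_lit 508686), (nat_lit 0), (nat_lit 3805589), (nat_lit 0)]) (PF.cons (PF.leaf (nat_lit 5528746) (nat_lit 520296) (nat_lit 51332176) (nat_lit 2733927) [(nat_lit 520296), (nat_lit 0), (nat_lit 3827273), (nat_lit 0)]) (PF.cons (PF.leaf (nat_lit 5880768) (nat_lit 530895) (nat_lit 50691177) (nat_lit 2753883) [(nat_lit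 530895), (nat_lit 0), (nat_lit 3846723), (nat_lit 0)]) (PF.cons PF.nil (PF.cons PF.nil PF.nil))))))) (PF.cons (PF.cons (PF.leaf (nat_lit 5353081) (nat_lit 1695483) (nat_lit 51216238) (nat_lit 2728898) [(nat_lit 0), (nat_lit 1695483), (nat_lit 3822730), (nat_lit 0)]) (PF.cons (PF.leaf (nat_lit 5689014) (nat_lit 523597) (nat_lit 50599553) (nat_lit 2748232) [(nat_lit 523597), (nat_lit 1713265), (nat_lit 3841388), (nat_lit 0)]) (PF.cons (PF.leaf (nat_lit 6034942) (nat_lit 533876) (nat_lit 49971489) (nat_lit 2765878) [(nat_lit 533876), (nat_lit 1729680), (nat_lit 3858003), (nat_lit 0)]) (PF.cons (PF.leaf (nat_lit 6388839) (nat_lit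
 543217) (nat_lit 49335241) (nat_lit 2781763) [(nat_lit 543217), (nat_lit 1744699), (nat_lit 3872485), (nat_lit 0)]) (PF.cons PF.nil PF.nil))))) (PF.cons (PF.cons (PF.leaf (nat_lit 6188258) (nat_lit 1738413) (nat_lit 49255627) (nat_lit 2775951) [(nat_lit 0), (nat_lit 1738413), (nat_lit 3866802), (nat_lit 0)]) (PF.cons (PF.leaf (nat_lit 6535479) (nat_lit 545310) (nat_lit 48633302) (nat_lit 2789803) [(nat_lit 545310), (nat_lit 1752005), (nat_lit 3878795), (nat_lit 0)]) (PF.cons PF.nil (PF.cons PF.nil PF.nil)))) (PF.cons (PF.cons (PF.leaf (nat_lit 7029145) (nat_lit 1769201) (nat_lit 47322426) (nat_lit 2806569) [(nat_lit 0), (nat_lit 1769201), (nat_lit 3890737), (nat_lit 0)]) (PF.cons PF.nil PF.nil)) (PF.cons PF.nil PF.nil))))) (PF.cons (PF.cons (PF.cons (PF.leaf (nat_lit 5963705) (nat_lit 2757603) (nat_lit 48962776) (nat_lit 2757603) [(nat_lit 0), (nat_lit 0), (nat_lit 3847108), (nat_lit 0)]) (PF.cons (PF.leaf (nat_lit 6296684) (nat_lit 533858) (nat_lit 48367810) (nat_lit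 2771498) [(nat_lit 533858), (nat_lit 0), (nat_lit 3858911), (nat_lit 0)]) (PF.cons (PF.leaf (nat_lit 6638537) (nat_lit 542895) (nat_lit 47763648) (nat_lit 2783862) [(nat_lit 542895), (nat_lit 0), (nat_lit 3868877),
 (nat_lit 0)]) (PF.cons PF.nil (PF.cons PF.nil PF.nil))))) (PF.cons (PF.cons (PF.leaf (nat_lit 6780469) (nat_lit 1753361) (nat_lit 47082669) (nat_lit 2788702) [(nat_lit 0), (nat_lit 1753361), (nat_lit 3871019), (nat_lit 0)]) (PF.cons (PF.leaf (nat_lit 7122414) (nat_lit 551977) (nat_lit 46486904) (nat_lit 2797841) [(nat_lit 551977), (nat_lit 1763665), (nat_lit 3877106), (nat_lit 0)]) (PF.cons PF.nil (PF.cons PF.nil PF.nil)))) (PF.cons (PF.cons (PF.leaf (nat_lit 7598549) (nat_lit 1774813) (nat_lit 45240943) (nat_lit 2805886) [(nat_lit 0), (nat_lit 1774813), (nat_lit 3878088), (nat_lit 0)]) (PF.cons PF.nil PF.nil)) PF.nil))) (PF.cons (PF.cons (PF.cons (PF.leaf (nat_lit 7342662) (nat_lit 2788408) (nat_lit 45027225) (nat_lit 2788408) [(nat_lit 0), (nat_lit 0),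 (nat_lit 3858635), (nat_lit 0)]) (PF.cons (PF.leaf (nat_lit 7678528) (nat_lit 555821) (nat_lit 44459593) (nat_lit 2793682) [(nat_lit 555821), (nat_lit 0), (nat_lit 3859942), (nat_lit 0)]) PF.nil)) (PF.cons PF.nil PF.nil)) (PF.cons PF.nil (PF.cons PF.nil (PF.cons PF.nil PF.nil))))))))) (PF.cons (PF.cons (PF.cons (PF.cons (PF.leaf (nat_lit 2905745) (nat_lit 2383124) (nat_lit 55308460) (nat_lit 2383124) [(nat_lit 0), (nat_lit 0),
 (nat_lit 0), (nat_lit 9417227)]) (PF.cons (PF.leaf (nat_lit 3145653) (nat_lit 391031) (nat_lit 54857991) (nat_lit 2421233) [(nat_lit 391031), (nat_lit 0), (nat_lit 0), (nat_lit 9438556)]) (PF.cons (PF.leaf (nat_lit 3409850) (nat_lit 411718) (nat_lit 54367661) (nat_lit 2459133) [(nat_lit 411718), (nat_lit 0), (nat_lit 0), (nat_lit 9458580)]) (PF.cons (PF.leaf (nat_lit 3693857) (nat_lit 430414) (nat_lit 53845179) (nat_lit 2495982) [(nat_lit 430414), (nat_lit 0), (nat_lit 0), (nat_lit 9476408)]) (PF.cons (PF.leaf (nat_lit 3994849) (nat_lit 447458)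 (nat_lit 53296323) (nat_lit 2531258) [(nat_lit 447458), (nat_lit 0), (nat_lit 0), (nat_lit 9491395)]) (PF.cons (PF.leaf (nat_lit 4310544) (nat_lit 463080) (nat_lit 52725702) (nat_lit 2564633) [(nat_lit 463080), (nat_lit 0), (nat_lit 0), (nat_lit 9503075)]) (PF.cons (PF.leaf (nat_lit 4638995) (nat_lit 477439) (nat_lit 52137150) (nat_lit 2595905) [(nat_lit 477439), (nat_lit 0), (nat_lit 0), (nat_lit 9511118)]) (PF.cons (PF.leaf (nat_lit 4978510) (nat_lit 490658) (nat_lit 51533944) (nat_lit 2624955) [(nat_lit 490658), (nat_lit 0), (nat_lit 0), (nat_lit 9515302)]) (PF.cons (PF.leaf (nat_lit 5327640) (nat_lit 502832) (nat_lit 50918937) (nat_lit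
 2651724) [(nat_lit 502832), (nat_lit 0), (nat_lit 0), (nat_lit 9515494)]) (PF.cons (PF.leaf (nat_lit 5684980) (nat_lit 514037) (nat_lit 50294646) (nat_lit 2676193) [(nat_lit 514037), (nat_lit 0), (nat_lit 0), (nat_lit 9511632)]) (PF.cons PF.nil (PF.cons PF.nil PF.nil)))))))))))) (PF.cons (PF.cons (PF.leaf (nat_lit 3596547) (nat_lit 1504230) (nat_lit 53632646) (nat_lit 2496577) [(nat_lit 0), (nat_lit 1504230), (nat_lit 0), (nat_lit 9475359)]) (PF.cons (PF.leaf (nat_lit 3873562) (nat_lit 437699) (nat_lit 53120063) (nat_lit 2529374) [(nat_lit 437699), (nat_lit 1533488), (nat_lit 0), (nat_lit 9488186)]) (PF.cons (PF.leaf (nat_lit 4169060) (nat_lit 454274) (nat_lit 52579558) (nat_lit 2560981) [(nat_lit 454274), (nat_lit 1561433), (nat_lit 0), (nat_lit 9498289)]) (PF.cons (PF.leaf (nat_lit 4479803) (nat_lit 469385) (nat_lit 52016612) (nat_lit 2590990) [(nat_lit 469385), (nat_lit 1587839), (nat_lit 0), (nat_lit 9505214)]) (PF.cons (PF.leaf (nat_lit 4803575) (nat_lit 483220)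 (nat_lit 51435546) (nat_lit 2619151) [(nat_lit 483220), (nat_lit 1612586), (nat_lit 0), (nat_lit 9508648)]) (PF.cons (PF.leaf (nat_lit 5138587) (nat_lit 495915) (nat_lit 50839912) (nat_lit 2645309) [(nat_lit 495915),
 (nat_lit 1635624), (nat_lit 0), (nat_lit 9508388)]) (PF.cons (PF.leaf (nat_lit 5483191) (nat_lit 507575) (nat_lit 50232720) (nat_lit 2669384) [(nat_lit 507575), (nat_lit 1656938), (nat_lit 0), (nat_lit 9504319)]) (PF.cons (PF.leaf (nat_lit 5836043) (nat_lit 518281) (nat_lit 49616569) (nat_lit 2691337) [(nat_lit 518281), (nat_lit 1676541), (nat_lit 0), (nat_lit 9496393)]) (PF.cons PF.nil (PF.cons PF.nil PF.nil)))))))))) (PF.cons (PF.cons (PF.leaf (nat_lit 4344801) (nat_lit 1582322) (nat_lit 51856775) (nat_lit 2587808) [(nat_lit 0), (nat_lit 1582322), (nat_lit 0), (nat_lit 9499582)]) (PF.cons (PF.leaf (nat_lit 4648949) (nat_lit 474783) (nat_lit 51304611) (nat_lit 2614620) [(nat_lit 474783), (nat_lit 1606367), (nat_lit 0), (nat_lit 9502063)]) (PF.cons (PF.leaf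 (nat_lit 4967199) (nat_lit 488203) (nat_lit 50733414) (nat_lit 2639840) [(nat_lit 488203), (nat_lit 1628974), (nat_lit 0), (nat_lit 9501203)]) (PF.cons (PF.leaf (nat_lit 5297012) (nat_lit 500460) (nat_lit 50147240) (nat_lit 2663276) [(nat_lit 500460), (nat_lit 1650048), (nat_lit 0), (nat_lit 9496816)]) (PF.cons (PF.leaf (nat_lit 5636642) (nat_lit 511675) (nat_lit 49549391) (nat_lit 2684818) [(nat_lit 511675), (nat_lit 1669550),
 (nat_lit 0), (nat_lit 9488799)]) (PF.cons (PF.leaf (nat_lit 5984586) (nat_lit 521941) (nat_lit 48942633) (nat_lit 2704410) [(nat_lit 521941), (nat_lit 1687473), (nat_lit 0), (nat_lit 9477114)]) (PF.cons (PF.leaf (nat_lit 6339538) (nat_lit 531333) (nat_lit 48329332) (nat_lit 2722037) [(nat_lit 531333), (nat_lit 1703832), (nat_lit 0), (nat_lit 9461777)]) (PF.cons PF.nil (PF.cons PF.nil PF.nil))))))))) (PF.cons (PF.cons (PF.leaf (nat_lit 5130987) (nat_lit 1643724) (nat_lit 50030496) (nat_lit 2658155) [(nat_lit 0), (nat_lit 1643724), (nat_lit 0),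 (nat_lit 9488987)]) (PF.cons (PF.leaf (nat_lit 5454422) (nat_lit 504298) (nat_lit 49455878) (nat_lit 2679016) [(nat_lit 504298), (nat_lit 1662938), (nat_lit 0), (nat_lit 9480802)]) (PF.cons (PF.leaf (nat_lit 5788452) (nat_lit 515145) (nat_lit 48869005) (nat_lit 2698172) [(nat_lit 515145), (nat_lit 1680729), (nat_lit 0), (nat_lit 9469154)]) (PF.cons (PF.leaf (nat_lit 6131069) (nat_lit 525032) (nat_lit 48272942) (nat_lit 2715546) [(nat_lit 525032), (nat_lit 1697069), (nat_lit 0), (nat_lit 9454018)]) (PF.cons (PF.leaf (nat_lit 6480843) (nat_lit 534046) (nat_lit 47670229) (nat_lit 2731105) [(nat_lit 534046), (nat_lit 1711958), (nat_lit 0),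
 (nat_lit 9435416)]) (PF.cons (PF.leaf (nat_lit 6836551) (nat_lit 542254) (nat_lit 47063023) (nat_lit 2744851) [(nat_lit 542254), (nat_lit 1725418), (nat_lit 0), (nat_lit 9413410)]) (PF.cons PF.nil PF.nil))))))) (PF.cons (PF.cons (PF.leaf (nat_lit 5939595) (nat_lit 1690570) (nat_lit 48191368) (nat_lit 2709581) [(nat_lit 0), (nat_lit 1690570), (nat_lit 0), (nat_lit 9445581)]) (PF.cons (PF.leaf (nat_lit 6275984) (nat_lit 527562) (nat_lit 47607416) (nat_lit 2724867) [(nat_lit 527562), (nat_lit 1705415), (nat_lit 0), (nat_lit 9427305)]) (PF.cons (PF.leaf (nat_lit 6620160) (nat_lit 536253) (nat_lit 47016404) (nat_lit 2738486) [(nat_lit 536253), (nat_lit 1718920), (nat_lit 0), (nat_lit 9405733)]) (PF.cons (PF.leaf (nat_lit 6970473) (nat_lit 544136) (nat_lit 46420664) (nat_lit 2750425) [(nat_lit 544136), (nat_lit 1731094), (nat_lit 0), (nat_lit 9380934)]) (PF.cons PF.nil PF.nil))))) (PF.cons (PF.cons (PF.leaf (nat_lit 6758286) (nat_lit 1724790) (nat_lit 46367671) (nat_lit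 2744283) [(nat_lit 0), (nat_lit 1724790), (nat_lit 0), (nat_lit 9372907)]) (PF.cons (PF.leaf (nat_lit 7102527) (nat_lit 545568) (nat_lit 45784347) (nat_lit 2754529) [(nat_lit 545568), (nat_lit 1735754), (nat_lit 0),
 (nat_lit 9345592)]) (PF.cons (PF.leaf (nat_lit 7452295) (nat_lit 552431) (nat_lit 45197921) (nat_lit 2763226) [(nat_lit 552431), (nat_lit 1745498), (nat_lit 0), (nat_lit 9315307)]) (PF.cons PF.nil PF.nil)))) (PF.cons (PF.cons (PF.leaf (nat_lit 7577365) (nat_lit 1748150) (nat_lit 44580271) (nat_lit 2764478) [(nat_lit 0), (nat_lit 1748150), (nat_lit 0), (nat_lit 9275160)]) (PF.cons PF.nil PF.nil)) (PF.cons PF.nil (PF.cons PF.nil PF.nil))))))))) (PF.cons (PF.cons (PF.cons (PF.leaf (nat_lit 4198698) (nat_lit 2569049) (nat_lit 51419351) (nat_lit 2569049) [(nat_lit 0), (nat_lit 0), (nat_lit 3648486), (nat_lit 9471925)]) (PF.cons (PF.leaf (nat_lit 4480808) (nat_lit 457911) (nat_lit 50909191) (nat_lit 2595042) [(nat_lit 457911), (nat_lit 0), (nat_lit 3673823),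 (nat_lit 9472843)]) (PF.cons (PF.leaf (nat_lit 4779989) (nat_lit 473016) (nat_lit 50374237) (nat_lit 2619825) [(nat_lit 473016), (nat_lit 0), (nat_lit 3697861), (nat_lit 9470854)]) (PF.cons (PF.leaf (nat_lit 5092972) (nat_lit 486621) (nat_lit 49819928) (nat_lit 2643089) [(nat_lit 486621), (nat_lit 0), (nat_lit 3720225), (nat_lit 9465703)]) (PF.cons (PF.leaf (nat_lit 5417554) (nat_lit 498946) (nat_lit 49250470) (nat_lit 2664648)
 [(nat_lit 498946), (nat_lit 0), (nat_lit 3740678), (nat_lit 9457231)]) (PF.cons (PF.leaf (nat_lit 5751976) (nat_lit 510145) (nat_lit 48669255) (nat_lit 2684397) [(nat_lit 510145), (nat_lit 0), (nat_lit 3759073), (nat_lit 9445357)]) (PF.cons (PF.leaf (nat_lit 6094682) (nat_lit 520339) (nat_lit 48079103) (nat_lit 2702285) [(nat_lit 520339), (nat_lit 0), (nat_lit 3775329), (nat_lit 9430056)]) (PF.cons (PF.leaf (nat_lit 6444358) (nat_lit 529620) (nat_lit 47482407) (nat_lit 2718300) [(nat_lit 529620), (nat_lit 0), (nat_lit 3789413), (nat_lit 9411351)])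 (PF.cons PF.nil (PF.cons PF.nil PF.nil)))))))))) (PF.cons (PF.cons (PF.leaf (nat_lit 4947043) (nat_lit 1624150) (nat_lit 49672107) (nat_lit 2638627) [(nat_lit 0), (nat_lit 1624150), (nat_lit 3716566), (nat_lit 9457360)]) (PF.cons (PF.leaf (nat_lit 5252732) (nat_lit 490286) (nat_lit 49130820) (nat_lit 2659259) [(nat_lit 490286), (nat_lit 1643847), (nat_lit 3735890), (nat_lit 9448707)]) (PF.cons (PF.leaf (nat_lit 5571181) (nat_lit 502313) (nat_lit 48573231) (nat_lit 2678400) [(nat_lit 502313), (nat_lit 1662181), (nat_lit 3753514), (nat_lit 9436858)]) (PF.cons (PF.leaf (nat_lit 5899905) (nat_lit 513182) (nat_lit 48003243) (nat_lit 2695912)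
 [(nat_lit 513182), (nat_lit 1679094), (nat_lit 3769265), (nat_lit 9421747)]) (PF.cons (PF.leaf (nat_lit 6237220) (nat_lit 523032) (nat_lit 47423976) (nat_lit 2711723) [(nat_lit 523032), (nat_lit 1694569), (nat_lit 3783049), (nat_lit 9403364)]) (PF.cons (PF.leaf (nat_lit 6581693) (nat_lit 531965) (nat_lit 46838004) (nat_lit 2725804) [(nat_lit 531965), (nat_lit 1708618), (nat_lit 3794818), (nat_lit 9381741)]) (PF.cons (PF.leaf (nat_lit 6932091) (nat_lit 540064) (nat_lit 46247492) (nat_lit 2738156) [(nat_lit 540064), (nat_lit 1721266), (nat_lit 3804565), (nat_lit 9356943)]) (PF.cons PF.nil (PF.cons PF.nil PF.nil))))))))) (PF.cons (PF.cons (PF.leaf (nat_lit 5725089) (nat_lit 1672457) (nat_lit 47897222) (nat_lit 2690211) [(nat_lit 0), (nat_lit 1672457), (nat_lit 3763897), (nat_lit 9412567)]) (PF.cons (PF.leaf (nat_lit 6047016) (nat_lit 515604) (nat_lit 47340235) (nat_lit 2705612) [(nat_lit 515604), (nat_lit 1687828), (nat_lit 3777168), (nat_lit 9394535)]) (PF.cons (PF.leaf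 (nat_lit 6378397) (nat_lit 525179) (nat_lit 46773205) (nat_lit 2719470) [(nat_lit 525179), (nat_lit 1701887), (nat_lit 3788637), (nat_lit 9373365)]) (PF.cons (PF.leaf (nat_lit 6717265) (nat_lit 533822) (nat_lit
 46199007) (nat_lit 2731736) [(nat_lit 533822), (nat_lit 1714628), (nat_lit 3798244), (nat_lit 9349100)]) (PF.cons (PF.leaf (nat_lit 7062283) (nat_lit 541626) (nat_lit 45619989) (nat_lit 2742401) [(nat_lit 541626), (nat_lit 1726064), (nat_lit 3805971), (nat_lit 9321816)]) (PF.cons PF.nil (PF.cons PF.nil PF.nil))))))) (PF.cons (PF.cons (PF.leaf (nat_lit 6519098) (nat_lit 1708106) (nat_lit 46126436) (nat_lit 2725629) [(nat_lit 0), (nat_lit 1708106), (nat_lit 3792218), (nat_lit 9340209)]) (PF.cons (PF.leaf (nat_lit 6851527) (nat_lit 535193) (nat_lit 45565188) (nat_lit 2736193) [(nat_lit 535193), (nat_lit 1719613), (nat_lit 3799809), (nat_lit 9313587)]) (PF.cons (PF.leaf (nat_lit 7190789) (nat_lit 542753) (nat_lit 44998564) (nat_lit 2745277) [(nat_lit 542753), (nat_lit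 1729909), (nat_lit 3805656), (nat_lit 9284078)]) (PF.cons (PF.leaf (nat_lit 7535309) (nat_lit 549542) (nat_lit 44428710) (nat_lit 2752885) [(nat_lit 549542), (nat_lit 1739013), (nat_lit 3809760), (nat_lit 9251786)]) (PF.cons PF.nil PF.nil))))) (PF.cons (PF.cons (PF.leaf (nat_lit 7318383) (nat_lit 1732860) (nat_lit 44382917) (nat_lit 2746868) [(nat_lit 0), (nat_lit 1732860), (nat_lit 3803720), (nat_lit 9243864)]) (PF.cons
 (PF.leaf (nat_lit 7656774) (nat_lit 550032) (nat_lit 43825854) (nat_lit 2753104) [(nat_lit 550032), (nat_lit 1740972), (nat_lit 3806199), (nat_lit 9209734)]) (PF.cons PF.nil (PF.cons PF.nil PF.nil)))) (PF.cons (PF.cons (PF.leaf (nat_lit 8114692) (nat_lit 1748311) (nat_lit 42683243) (nat_lit 2755897) [(nat_lit 0), (nat_lit 1748311), (nat_lit 3800706), (nat_lit 9127409)]) (PF.cons PF.nil PF.nil)) (PF.cons PF.nil (PF.cons PF.nil PF.nil)))))))) (PF.cons (PF.cons (PF.cons (PF.leaf (nat_lit 5527954) (nat_lit 2670303) (nat_lit 47573663) (nat_lit 2670303)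 [(nat_lit 0), (nat_lit 0), (nat_lit 3743252), (nat_lit 9378340)]) (PF.cons (PF.leaf (nat_lit 5833258) (nat_lit 501838) (nat_lit 47048005) (nat_lit 2685776) [(nat_lit 501838), (nat_lit 0), (nat_lit 3756270), (nat_lit 9360651)]) (PF.cons (PF.leaf (nat_lit 6150162) (nat_lit 512630) (nat_lit 46508332) (nat_lit 2699857) [(nat_lit 512630), (nat_lit 0), (nat_lit 3767701), (nat_lit 9339959)]) (PF.cons (PF.leaf (nat_lit 6476257) (nat_lit 522281) (nat_lit 45958362) (nat_lit 2712454) [(nat_lit 522281), (nat_lit 0), (nat_lit 3777431), (nat_lit 9316290)]) (PF.cons (PF.leaf (nat_lit 6809903) (nat_lit 530939) (nat_lit 45401022) (nat_lit 2723524)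
 [(nat_lit 530939), (nat_lit 0), (nat_lit 3785402), (nat_lit 9289703)]) (PF.cons (PF.leaf (nat_lit 7149741) (nat_lit 538717) (nat_lit 44838692) (nat_lit 2733058) [(nat_lit 538717), (nat_lit 0), (nat_lit 3791598), (nat_lit 9260277)]) (PF.cons PF.nil PF.nil))))))) (PF.cons (PF.cons (PF.leaf (nat_lit 6294336) (nat_lit 1690414) (nat_lit 45862550) (nat_lit 2706422) [(nat_lit 0), (nat_lit 1690414), (nat_lit 3771549), (nat_lit 9306325)]) (PF.cons (PF.leaf (nat_lit 6613375) (nat_lit 523536) (nat_lit 45326393) (nat_lit 2717294) [(nat_lit 523536), (nat_lit 1702545), (nat_lit 3779278), (nat_lit 9280485)]) (PF.cons (PF.leaf (nat_lit 6940874) (nat_lit 532001) (nat_lit 44781972) (nat_lit 2726770) [(nat_lit 532001), (nat_lit 1713470), (nat_lit 3785386), (nat_lit 9251825)]) (PF.cons (PF.leaf (nat_lit 7274962) (nat_lit 539563) (nat_lit 44231970) (nat_lit 2734826) [(nat_lit 539563), (nat_lit 1723198), (nat_lit 3789843), (nat_lit 9220439)]) (PF.cons (PF.leaf (nat_lit 7614364) (nat_lit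 546323) (nat_lit 43678553) (nat_lit 2741468) [(nat_lit 546323), (nat_lit 1731752), (nat_lit 3792653), (nat_lit 9186436)]) PF.nil))))) (PF.cons (PF.cons (PF.leaf (nat_lit 7071618) (nat_lit 1716753) (nat_lit 44167681)
 (nat_lit 2728719) [(nat_lit 0), (nat_lit 1716753), (nat_lit 3783737), (nat_lit 9211430)]) (PF.cons (PF.leaf (nat_lit 7399161) (nat_lit 539986) (nat_lit 43630994) (nat_lit 2735394) [(nat_lit 539986), (nat_lit 1725466), (nat_lit 3786583), (nat_lit 9178338)]) (PF.cons (PF.leaf (nat_lit 7732748) (nat_lit 546569) (nat_lit 43090235) (nat_lit 2740755) [(nat_lit 546569), (nat_lit 1733085), (nat_lit 3787891), (nat_lit 9142728)]) (PF.cons PF.nil PF.nil)))) (PF.cons (PF.cons (PF.leaf (nat_lit 7850499) (nat_lit 1733684) (nat_lit 42508024) (nat_lit 2738998) [(nat_lit 0), (nat_lit 1733684), (nat_lit 3781822), (nat_lit 9097089)]) (PF.cons (PF.leaf (nat_lit 8182501) (nat_lit 552140) (nat_lit 41977987) (nat_lit 2741955) [(nat_lit 552140), (nat_lit 1739424), (nat_lit 3780325),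 (nat_lit 9057805)]) PF.nil)) (PF.cons PF.nil (PF.cons PF.nil PF.nil)))))) (PF.cons (PF.cons (PF.cons (PF.leaf (nat_lit 6838779) (nat_lit 2709955) (nat_lit 43931323) (nat_lit 2709955) [(nat_lit 0), (nat_lit 0), (nat_lit 3763305), (nat_lit 9177617)]) (PF.cons (PF.leaf (nat_lit 7153912) (nat_lit 528687) (nat_lit 43417864) (nat_lit 2717076) [(nat_lit 528687), (nat_lit 0), (nat_lit 3766498), (nat_lit 9145688)]) (PF.cons (PF.leaf
 (nat_lit 7476686) (nat_lit 536182) (nat_lit 42897569) (nat_lit 2722935) [(nat_lit 536182), (nat_lit 0), (nat_lit 3768234), (nat_lit 9111237)]) (PF.cons (PF.leaf (nat_lit 7805283) (nat_lit 542808) (nat_lit 42372934) (nat_lit 2727529) [(nat_lit 542808), (nat_lit 0), (nat_lit 3768509), (nat_lit 9074395)]) (PF.cons PF.nil PF.nil))))) (PF.cons (PF.cons (PF.leaf (nat_lit 7598019) (nat_lit 1718246) (nat_lit 42316168) (nat_lit 2721522) [(nat_lit 0), (nat_lit 1718246), (nat_lit 3762456), (nat_lit 9065505)]) (PF.cons (PF.leaf (nat_lit 7920065) (nat_lit 542457)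 (nat_lit 41804872) (nat_lit 2725001) [(nat_lit 542457), (nat_lit 1724624), (nat_lit 3761454), (nat_lit 9027493)]) (PF.cons (PF.leaf (nat_lit 8247468) (nat_lit 548196) (nat_lit 41290508) (nat_lit 2727313) [(nat_lit 548196), (nat_lit 1730011), (nat_lit 3759098), (nat_lit 8987290)]) (PF.cons PF.nil PF.nil)))) (PF.cons (PF.cons (PF.leaf (nat_lit 8356088) (nat_lit 1728724) (nat_lit 40741251) (nat_lit 2722906) [(nat_lit 0), (nat_lit 1728724), (nat_lit 3749803), (nat_lit 8937796)]) (PF.cons PF.nil PF.nil)) (PF.cons PF.nil (PF.cons PF.nil PF.nil))))) (PF.cons (PF.cons (PF.cons (PF.leaf (nat_lit 8099472) (nat_lit 2706205) (nat_lit 40570300)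
 (nat_lit 2706205) [(nat_lit 0), (nat_lit 0), (nat_lit 3731216), (nat_lit 8907439)]) (PF.cons (PF.leaf (nat_lit 8415592) (nat_lit 543033) (nat_lit 40084493) (nat_lit 2707065) [(nat_lit 543033), (nat_lit 0), (nat_lit 3727110), (nat_lit 8865777)]) (PF.cons (PF.leaf (nat_lit 8736533) (nat_lit 548042) (nat_lit 39596386) (nat_lit 2706887) [(nat_lit 548042), (nat_lit 0), (nat_lit 3721810), (nat_lit 8822209)]) (PF.cons PF.nil PF.nil)))) (PF.cons (PF.cons (PF.leaf (nat_lit 8836725) (nat_lit 1719173) (nat_lit 39079050) (nat_lit 2700397) [(nat_lit 0), (nat_lit 1719173), (nat_lit 3710021), (nat_lit 8770105)]) (PF.cons PF.nil PF.nil)) (PF.cons PF.nil PF.nil))) (PF.cons (PF.cons (PF.cons (PF.leaf (nat_lit 9294032) (nat_lit 2672933) (nat_lit 37516755) (nat_lit 2672933) [(nat_lit 0), (nat_lit 0), (nat_lit 3664373), (nat_lit 8597254)]) (PF.cons PF.nil PF.nil)) (PF.cons PF.nil PF.nil)) (PF.cons PF.nil (PF.cons PF.nil PF.nil)))))))) (PF.cons (PF.cons (PF.cons (PF.cons (PF.leaf (nat_lit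 5143092) (nat_lit 2575535) (nat_lit 46162195) (nat_lit 2575535) [(nat_lit 0), (nat_lit 0), (nat_lit 0), (nat_lit 9185540)]) (PF.cons (PF.leaf (nat_lit 5416704) (nat_lit 464279) (nat_lit 45711085) (nat_lit 2593227)
 [(nat_lit 464279), (nat_lit 0), (nat_lit 0), (nat_lit 9170110)]) (PF.cons (PF.leaf (nat_lit 5705555) (nat_lit 477706) (nat_lit 45239825) (nat_lit 2609675) [(nat_lit 477706), (nat_lit 0), (nat_lit 0), (nat_lit 9151949)]) (PF.cons (PF.leaf (nat_lit 6006437) (nat_lit 489577) (nat_lit 44753257) (nat_lit 2624699) [(nat_lit 489577), (nat_lit 0), (nat_lit 0), (nat_lit 9131062)]) (PF.cons (PF.leaf (nat_lit 6317272) (nat_lit 500147) (nat_lit 44255061) (nat_lit 2638203) [(nat_lit 500147), (nat_lit 0), (nat_lit 0), (nat_lit 9107477)]) (PF.cons (PF.leaf (nat_lit 6636357) (nat_lit 509601) (nat_lit 43748158) (nat_lit 2650153) [(nat_lit 509601), (nat_lit 0), (nat_lit 0), (nat_lit 9081247)]) (PF.cons (PF.leaf (nat_lit 6962282) (nat_lit 518075) (nat_lit 43234932) (nat_lit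 2660545) [(nat_lit 518075), (nat_lit 0), (nat_lit 0), (nat_lit 9052441)]) (PF.cons (PF.leaf (nat_lit 7293852) (nat_lit 525678) (nat_lit 42717370) (nat_lit 2669402) [(nat_lit 525678), (nat_lit 0), (nat_lit 0), (nat_lit 9021145)]) (PF.cons PF.nil (PF.cons PF.nil PF.nil)))))))))) (PF.cons (PF.cons (PF.leaf (nat_lit 5853362) (nat_lit 1621361) (nat_lit 44629025) (nat_lit 2618766) [(nat_lit 0), (nat_lit 1621361), (nat_lit 0), (nat_lit
 9119829)]) (PF.cons (PF.leaf (nat_lit 6146625) (nat_lit 491292) (nat_lit 44155581) (nat_lit 2631851) [(nat_lit 491292), (nat_lit 1635971), (nat_lit 0), (nat_lit 9097057)]) (PF.cons (PF.leaf (nat_lit 6451070) (nat_lit 501678) (nat_lit 43669311) (nat_lit 2643594) [(nat_lit 501678), (nat_lit 1649286), (nat_lit 0), (nat_lit 9071631)]) (PF.cons (PF.leaf (nat_lit 6764321) (nat_lit 510913) (nat_lit 43173587) (nat_lit 2653928) [(nat_lit 510913), (nat_lit 1661301), (nat_lit 0), (nat_lit 9043628)]) (PF.cons (PF.leaf (nat_lit 7084806) (nat_lit 519151)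 (nat_lit 42671062) (nat_lit 2662835) [(nat_lit 519151), (nat_lit 1672039), (nat_lit 0), (nat_lit 9013134)]) (PF.cons (PF.leaf (nat_lit 7411215) (nat_lit 526513) (nat_lit 42163889) (nat_lit 2670321) [(nat_lit 526513), (nat_lit 1681538), (nat_lit 0), (nat_lit 8980247)]) (PF.cons (PF.leaf (nat_lit 7742433) (nat_lit 533092) (nat_lit 41653849) (nat_lit 2676413) [(nat_lit 533092), (nat_lit 1689845), (nat_lit 0), (nat_lit 8945074)]) (PF.cons PF.nil (PF.cons PF.nil PF.nil))))))))) (PF.cons (PF.cons (PF.leaf (nat_lit 6585517) (nat_lit 1654293) (nat_lit 43086030) (nat_lit 2647610) [(nat_lit 0), (nat_lit 1654293), (nat_lit 0), (nat_lit 9033292)]) (PF.cons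
 (PF.leaf (nat_lit 6891923) (nat_lit 511725) (nat_lit 42602809) (nat_lit 2656435) [(nat_lit 511725), (nat_lit 1665151), (nat_lit 0), (nat_lit 9003769)]) (PF.cons (PF.leaf (nat_lit 7206488) (nat_lit 519794) (nat_lit 42111961) (nat_lit 2663955) [(nat_lit 519794), (nat_lit 1674838), (nat_lit 0), (nat_lit 8971814)]) (PF.cons (PF.leaf (nat_lit 7527390) (nat_lit 526967) (nat_lit 41615909) (nat_lit 2670163) [(nat_lit 526967), (nat_lit 1683376), (nat_lit 0), (nat_lit 8937541)]) (PF.cons (PF.leaf (nat_lit 7853404) (nat_lit 533349) (nat_lit 41116604) (nat_lit 2675075) [(nat_lit 533349), (nat_lit 1690800), (nat_lit 0), (nat_lit 8901067)]) (PF.cons PF.nil (PF.cons PF.nil PF.nil))))))) (PF.cons (PF.cons (PF.leaf (nat_lit 7328208) (nat_lit 1676853) (nat_lit 41557172) (nat_lit 2663975) [(nat_lit 0), (nat_lit 1676853), (nat_lit 0), (nat_lit 8928552)]) (PF.cons (PF.leaf (nat_lit 7642831) (nat_lit 527037) (nat_lit 41073096) (nat_lit 2668992) [(nat_lit 527037), (nat_lit 1684490), (nat_lit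 0), (nat_lit 8893107)]) (PF.cons (PF.leaf (nat_lit 7963311) (nat_lit 533268) (nat_lit 40585156) (nat_lit 2672807) [(nat_lit 533268), (nat_lit 1691088), (nat_lit 0), (nat_lit 8855523)]) (PF.cons (PF.leaf (nat_lit
 8288184) (nat_lit 538781) (nat_lit 40095122) (nat_lit 2675439) [(nat_lit 538781), (nat_lit 1696680), (nat_lit 0), (nat_lit 8815932)]) (PF.cons PF.nil PF.nil))))) (PF.cons (PF.cons (PF.leaf (nat_lit 8072888) (nat_lit 1690748) (nat_lit 40059136) (nat_lit 2669663) [(nat_lit 0), (nat_lit 1690748), (nat_lit 0), (nat_lit 8808510)]) (PF.cons (PF.leaf (nat_lit 8391936) (nat_lit 538239) (nat_lit 39580572) (nat_lit 2671355) [(nat_lit 538239), (nat_lit 1695630), (nat_lit 0), (nat_lit 8768061)]) (PF.cons PF.nil (PF.cons PF.nil PF.nil)))) (PF.cons (PF.cons (PF.leaf (nat_lit 8813095) (nat_lit 1697402) (nat_lit 38603373) (nat_lit 2666326) [(nat_lit 0), (nat_lit 1697402), (nat_lit 0), (nat_lit 8676050)]) (PF.cons PF.nil PF.nil)) PF.nil)))))) (PF.cons (PF.cons (PF.cons (PF.leaf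 (nat_lit 6378956) (nat_lit 2627113) (nat_lit 42822078) (nat_lit 2627113) [(nat_lit 0), (nat_lit 0), (nat_lit 3664544), (nat_lit 8997538)]) (PF.cons (PF.leaf (nat_lit 6670463) (nat_lit 498121) (nat_lit 42365661) (nat_lit 2636453) [(nat_lit 498121), (nat_lit 0), (nat_lit 3669876), (nat_lit 8969350)]) (PF.cons (PF.leaf (nat_lit 6972244) (nat_lit 507482) (nat_lit 41898073) (nat_lit 2644556) [(nat_lit 507482), (nat_lit 0),
 (nat_lit 3673842), (nat_lit 8938687)]) (PF.cons (PF.leaf (nat_lit 7281994) (nat_lit 515723) (nat_lit 41422497) (nat_lit 2651387) [(nat_lit 515723), (nat_lit 0), (nat_lit 3676401), (nat_lit 8905677)]) (PF.cons (PF.leaf (nat_lit 7598196) (nat_lit 523007) (nat_lit 40941408) (nat_lit 2656941) [(nat_lit 523007), (nat_lit 0), (nat_lit 3677542), (nat_lit 8870445)]) (PF.cons (PF.leaf (nat_lit 7919601) (nat_lit 529455) (nat_lit 40456789) (nat_lit 2661236) [(nat_lit 529455), (nat_lit 0), (nat_lit 3677281), (nat_lit 8833113)]) (PF.cons PF.nil PF.nil))))))) (PF.cons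 (PF.cons (PF.leaf (nat_lit 7098281) (nat_lit 1659529) (nat_lit 41343664) (nat_lit 2645045) [(nat_lit 0), (nat_lit 1659529), (nat_lit 3670077), (nat_lit 8895247)]) (PF.cons (PF.leaf (nat_lit 7401094) (nat_lit 515699) (nat_lit 40880793) (nat_lit 2650652) [(nat_lit 515699), (nat_lit 1667969), (nat_lit 3671292), (nat_lit 8861202)]) (PF.cons (PF.leaf (nat_lit 7711323) (nat_lit 522878) (nat_lit 40411513) (nat_lit 2655083) [(nat_lit 522878), (nat_lit 1675337), (nat_lit 3671187), (nat_lit 8824966)]) (PF.cons (PF.leaf (nat_lit 8027207) (nat_lit 529197) (nat_lit 39938078) (nat_lit 2658344) [(nat_lit 529197), (nat_lit 1681665), (nat_lit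
 3669769), (nat_lit 8786680)]) (PF.cons (PF.leaf (nat_lit 8347578) (nat_lit 534764) (nat_lit 39462286) (nat_lit 2660460) [(nat_lit 534764), (nat_lit 1686991), (nat_lit 3667062), (nat_lit 8746477)]) PF.nil))))) (PF.cons (PF.cons (PF.leaf (nat_lit 7824709) (nat_lit 1675343) (nat_lit 39886176) (nat_lit 2652327) [(nat_lit 0), (nat_lit 1675343), (nat_lit 3663728), (nat_lit 8777946)]) (PF.cons (PF.leaf (nat_lit 8134316) (nat_lit 528601) (nat_lit 39424661) (nat_lit 2654629) [(nat_lit 528601), (nat_lit 1680935), (nat_lit 3661250), (nat_lit 8738899)]) (PF.cons (PF.leaf (nat_lit 8449187) (nat_lit 534069) (nat_lit 38960129) (nat_lit 2655861) [(nat_lit 534069), (nat_lit 1685587), (nat_lit 3657560), (nat_lit 8697974)]) (PF.cons PF.nil PF.nil)))) (PF.cons (PF.cons (PF.leaf (nat_lit 8550701) (nat_lit 1683668) (nat_lit 38463397) (nat_lit 2650550) [(nat_lit 0), (nat_lit 1683668), (nat_lit 3647189), (nat_lit 8648334)]) (PF.cons (PF.leaf (nat_lit 8863677) (nat_lit 537782) (nat_lit 38008708)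 (nat_lit 2649987) [(nat_lit 537782), (nat_lit 1686841), (nat_lit 3641491), (nat_lit 8605158)]) PF.nil)) (PF.cons PF.nil PF.nil))))) (PF.cons (PF.cons (PF.cons (PF.leaf (nat_lit 7589614) (nat_lit 2634246) (nat_lit
 39695001) (nat_lit 2634246) [(nat_lit 0), (nat_lit 0), (nat_lit 3644000), (nat_lit 8745781)]) (PF.cons (PF.leaf (nat_lit 7888235) (nat_lit 517720) (nat_lit 39253018) (nat_lit 2637194) [(nat_lit 517720), (nat_lit 0), (nat_lit 3642136), (nat_lit 8708303)]) (PF.cons (PF.leaf (nat_lit 8193627) (nat_lit 524122) (nat_lit 38805611) (nat_lit 2639079) [(nat_lit 524122), (nat_lit 0), (nat_lit 3639083), (nat_lit 8668855)]) (PF.cons (PF.leaf (nat_lit 8504105) (nat_lit 529698) (nat_lit 38354877) (nat_lit 2639919) [(nat_lit 529698), (nat_lit 0), (nat_lit 3634863), (nat_lit 8627596)]) (PF.cons PF.nil PF.nil))))) (PF.cons (PF.cons (PF.leaf (nat_lit 8299213) (nat_lit 1669086) (nat_lit 38309108) (nat_lit 2634118) [(nat_lit 0), (nat_lit 1669086), (nat_lit 3629024), (nat_lit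 8619225)]) (PF.cons (PF.leaf (nat_lit 8603469) (nat_lit 528561) (nat_lit 37870060) (nat_lit 2634191) [(nat_lit 528561), (nat_lit 1672966), (nat_lit 3623976), (nat_lit 8577539)]) (PF.cons (PF.leaf (nat_lit 8912482) (nat_lit 533366) (nat_lit 37428651) (nat_lit 2633309) [(nat_lit 533366), (nat_lit 1675996), (nat_lit 3617855), (nat_lit 8534205)]) (PF.cons PF.nil PF.nil)))) (PF.cons (PF.cons (PF.leaf (nat_lit 9006538) (nat_lit
 1672814) (nat_lit 36960135) (nat_lit 2626295) [(nat_lit 0), (nat_lit 1672814), (nat_lit 3605500), (nat_lit 8482875)]) (PF.cons PF.nil PF.nil)) PF.nil))) (PF.cons (PF.cons (PF.cons (PF.leaf (nat_lit 8752851) (nat_lit 2610774) (nat_lit 36822445) (nat_lit 2610774) [(nat_lit 0), (nat_lit 0), (nat_lit 3588303), (nat_lit 8455340)]) (PF.cons (PF.leaf (nat_lit 9051533) (nat_lit 527214) (nat_lit 36405398) (nat_lit 2609020) [(nat_lit 527214), (nat_lit 0), (nat_lit 3581190), (nat_lit 8411803)]) (PF.cons PF.nil PF.nil))) (PF.cons (PF.cons (PF.leaf (nat_lit 9441739)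 (nat_lit 1658983) (nat_lit 35544902) (nat_lit 2598073) [(nat_lit 0), (nat_lit 1658983), (nat_lit 3559260), (nat_lit 8314535)]) PF.nil) PF.nil)) (PF.cons PF.nil (PF.cons PF.nil PF.nil)))))) (PF.cons (PF.cons (PF.cons (PF.cons (PF.leaf (nat_lit 7121266) (nat_lit 2558247) (nat_lit 38803443) (nat_lit 2558247) [(nat_lit 0), (nat_lit 0), (nat_lit 0), (nat_lit 8582373)]) (PF.cons (PF.leaf (nat_lit 7399412) (nat_lit 489128) (nat_lit 38408072) (nat_lit 2563620) [(nat_lit 489128), (nat_lit 0), (nat_lit 0), (nat_lit 8549330)]) (PF.cons (PF.leaf (nat_lit 7686842) (nat_lit 497406) (nat_lit 38003504) (nat_lit 2567890) [(nat_lit 497406), (nat_lit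
 0), (nat_lit 0), (nat_lit 8514201)]) (PF.cons (PF.leaf (nat_lit 7981351) (nat_lit 504599) (nat_lit 37592456) (nat_lit 2571056) [(nat_lit 504599), (nat_lit 0), (nat_lit 0), (nat_lit 8477167)]) (PF.cons (PF.leaf (nat_lit 8281520) (nat_lit 510877) (nat_lit 37177024) (nat_lit 2573137) [(nat_lit 510877), (nat_lit 0), (nat_lit 0), (nat_lit 8438380)]) (PF.cons (PF.leaf (nat_lit 8586194) (nat_lit 516366) (nat_lit 36758875) (nat_lit 2574166) [(nat_lit 516366), (nat_lit 0), (nat_lit 0), (nat_lit 8397979)]) (PF.cons PF.nil PF.nil))))))) (PF.cons (PF.cons (PF.leaf (nat_lit 7798480) (nat_lit 1615482) (nat_lit 37527419) (nat_lit 2564761) [(nat_lit 0), (nat_lit 1615482), (nat_lit 0), (nat_lit 8467049)]) (PF.cons (PF.leaf (nat_lit 8086279) (nat_lit 503769) (nat_lit 37127622) (nat_lit 2567044) [(nat_lit 503769), (nat_lit 1621451), (nat_lit 0), (nat_lit 8429641)]) (PF.cons (PF.leaf (nat_lit 8380739) (nat_lit 510005) (nat_lit 36722602) (nat_lit 2568319) [(nat_lit 510005), (nat_lit 1626462),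 (nat_lit 0), (nat_lit 8390472)]) (PF.cons (PF.leaf (nat_lit 8680170) (nat_lit 515424) (nat_lit 36314261) (nat_lit 2568610) [(nat_lit 515424), (nat_lit 1630558), (nat_lit 0), (nat_lit 8349702)]) (PF.cons PF.nil
 PF.nil))))) (PF.cons (PF.cons (PF.leaf (nat_lit 8480588) (nat_lit 1624492) (nat_lit 36272161) (nat_lit 2562861) [(nat_lit 0), (nat_lit 1624492), (nat_lit 0), (nat_lit 8341601)]) (PF.cons (PF.leaf (nat_lit 8774057) (nat_lit 514204) (nat_lit 35874209) (nat_lit 2562474) [(nat_lit 514204), (nat_lit 1628043), (nat_lit 0), (nat_lit 8300612)]) (PF.cons (PF.leaf (nat_lit 9072257) (nat_lit 518873) (nat_lit 35473823) (nat_lit 2561194) [(nat_lit 518873), (nat_lit 1630775), (nat_lit 0), (nat_lit 8258166)]) (PF.cons PF.nil PF.nil)))) (PF.cons (PF.cons (PF.leaf (nat_lit 9161277) (nat_lit 1627393) (nat_lit 35048131) (nat_lit 2553939) [(nat_lit 0), (nat_lit 1627393), (nat_lit 0), (nat_lit 8208187)]) (PF.cons PF.nil PF.nil)) (PF.cons PF.nil PF.nil))))) (PF.cons (PF.cons (PF.cons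 (PF.leaf (nat_lit 8246776) (nat_lit 2545922) (nat_lit 36116514) (nat_lit 2545922) [(nat_lit 0), (nat_lit 0), (nat_lit 3510033), (nat_lit 8312114)]) (PF.cons (PF.leaf (nat_lit 8530392) (nat_lit 503851) (nat_lit 35734992) (nat_lit 2546268) [(nat_lit 503851), (nat_lit 0), (nat_lit 3505210), (nat_lit 8272829)]) (PF.cons (PF.leaf (nat_lit 8820174) (nat_lit 509449) (nat_lit 35348961) (nat_lit 2545703) [(nat_lit 509449), (nat_lit
 0), (nat_lit 3499394), (nat_lit 8231951)]) (PF.cons (PF.leaf (nat_lit 9114471) (nat_lit 514265) (nat_lit 34960194) (nat_lit 2544256) [(nat_lit 514265), (nat_lit 0), (nat_lit 3492621), (nat_lit 8189647)]) (PF.cons PF.nil PF.nil))))) (PF.cons (PF.cons (PF.leaf (nat_lit 8913481) (nat_lit 1613825) (nat_lit 34923065) (nat_lit 2538775) [(nat_lit 0), (nat_lit 1613825), (nat_lit 3487135), (nat_lit 8182003)]) (PF.cons (PF.leaf (nat_lit 9201903) (nat_lit 512658) (nat_lit 34544370) (nat_lit 2536791) [(nat_lit 512658), (nat_lit 1616086), (nat_lit 3479822),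 (nat_lit 8139694)]) (PF.cons PF.nil (PF.cons PF.nil PF.nil)))) (PF.cons (PF.cons (PF.leaf (nat_lit 9577487) (nat_lit 1613359) (nat_lit 33761729) (nat_lit 2525642) [(nat_lit 0), (nat_lit 1613359), (nat_lit 3457858), (nat_lit 8045621)]) (PF.cons PF.nil PF.nil)) PF.nil))) (PF.cons (PF.cons (PF.cons (PF.leaf (nat_lit 9328737) (nat_lit 2511406) (nat_lit 33649847) (nat_lit 2511406) [(nat_lit 0), (nat_lit 0), (nat_lit 3442189), (nat_lit 8021059)]) (PF.cons (PF.leaf (nat_lit 9611989) (nat_lit 510186) (nat_lit 33289779) (nat_lit 2508113) [(nat_lit 510186), (nat_lit 0), (nat_lit 3433471), (nat_lit 7977929)]) PF.nil)) (PF.cons PF.nil PF.nil)) (PF.cons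
 PF.nil (PF.cons PF.nil PF.nil))))) (PF.cons (PF.cons (PF.cons (PF.cons (PF.leaf (nat_lit 8831822) (nat_lit 2453388) (nat_lit 33074342) (nat_lit 2453388) [(nat_lit 0), (nat_lit 0), (nat_lit 0), (nat_lit 7895270)]) (PF.cons (PF.leaf (nat_lit 9101885) (nat_lit 488711) (nat_lit 32743281) (nat_lit 2452105) [(nat_lit 488711), (nat_lit 0), (nat_lit 0), (nat_lit 7856178)]) (PF.cons (PF.leaf (nat_lit 9377646) (nat_lit 493697) (nat_lit 32408349) (nat_lit 2450028) [(nat_lit 493697), (nat_lit 0), (nat_lit 0), (nat_lit 7815759)]) (PF.cons PF.nil PF.nil)))) (PF.cons (PF.cons (PF.leaf (nat_lit 9461223) (nat_lit 1556806) (nat_lit 32040714) (nat_lit 2442070) [(nat_lit 0), (nat_lit 1556806), (nat_lit 0), (nat_lit 7767305)]) (PF.cons (PF.leaf (nat_lit 9735522) (nat_lit 496062) (nat_lit 31712066) (nat_lit 2438853) [(nat_lit 496062), (nat_lit 1557998), (nat_lit 0), (nat_lit 7725957)]) PF.nil)) (PF.cons PF.nil PF.nil))) (PF.cons (PF.cons (PF.cons (PF.leaf (nat_lit 9845063) (nat_lit 2412995)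 (nat_lit 30942620) (nat_lit 2412995) [(nat_lit 0), (nat_lit 0), (nat_lit 3299173), (nat_lit 7613505)]) (PF.cons PF.nil PF.nil)) (PF.cons PF.nil PF.nil)) (PF.cons PF.nil PF.nil))) (PF.cons (PF.cons (PF.cons (PF.cons
 (PF.leaf (nat_lit 10314501) (nat_lit 2318042) (nat_lit 28613218) (nat_lit 2318042) [(nat_lit 0), (nat_lit 0), (nat_lit 0), (nat_lit 7235510)]) (PF.cons PF.nil PF.nil)) (PF.cons PF.nil PF.nil)) (PF.cons PF.nil PF.nil)) (PF.cons PF.nil (PF.cons PF.nil (PF.cons PF.nil PF.nil)))))))))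

def p12_14_0_0 : pfC (piC [(nat_lit 38167130), (nat_lit 25010362), (nat_lit 18643303), (nat_lit 12552662)] (nat_lit 25257288)) p12_14_0 (nat_lit 4) (nat_lit 0) (nat_lit 1) = true := by decide +kernel
def p12_14_0_1 : pfC (piC [(nat_lit 38167130), (nat_lit 25010362), (nat_lit 18643303), (nat_lit 12552662)] (nat_lit 25257288)) p12_14_0 (nat_lit 4) (nat_lit 1) (nat_lit 2) = true := by decide +kernel
def p12_14_0_2 : pfC (piC [(nat_lit 38167130), (nat_lit 25010362), (nat_lit 18643303), (nat_lit 12552662)] (nat_lit 25257288)) p12_14_0 (nat_lit 4) (nat_lit 2) (nat_lit 3) = true := by decide +kernel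
def p12_14_0_3 : pfC (piC [(nat_lit 38167130), (nat_lit 25010362), (nat_lit 18643303), (nat_lit 12552662)] (nat_lit 25257288)) p12_14_0 (nat_lit 4) (nat_lit 3) (nat_lit 4) = true := by decide +kernel
def p12_14_0_4 : pfC (piC [(nat_lit 38167130), (nat_lit 25010362), (nat_lit 18643303), (nat_lit 12552662)] (nat_lit 25257288)) p12_14_0 (nat_lit 4) (nat_lit 4) (nat_lit 5) = true := by decide +kernel
def p12_14_0_5 : pfC (piC [(nat_lit 38167130), (nat_lit 25010362), (nat_lit 18643303), (nat_lit 12552662)] (nat_lit 25257288)) p12_14_0 (nat_lit 4) (nat_lit 5) (nat_lit 6) = true := by decide +kernel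
def p12_14_0_6 : pfC (piC [(nat_lit 38167130), (nat_lit 25010362), (nat_lit 18643303), (nat_lit 12552662)] (nat_lit 25257288)) p12_14_0 (nat_lit 4) (nat_lit 6) (nat_lit 7) = true := by decide +kernel
def p12_14_0_7 : pfC (piC [(nat_lit 38167130), (nat_lit 25010362), (nat_lit 18643303), (nat_lit 12552662)] (nat_lit 25257288)) p12_14_0 (nat_lit 4) (nat_lit 7) (nat_lit 8) = true := by decide +kernel
def p12_14_0_8 : pfC (piC [(nat_lit 38167130), (nat_lit 25010362), (nat_lit 18643303), (nat_lit 12552662)] (nat_lit 25257288)) p12_14_0 (nat_lit 4) (nat_lit 8) (nat_lit 9) = true := by decide +kernel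
def p12_14_0_9 : pfC (piC [(nat_lit 38167130), (nat_lit 25010362), (nat_lit 18643303), (nat_lit 12552662)] (nat_lit 25257288)) p12_14_0 (nat_lit 4) (nat_lit 9) (nat_lit 10) = true := by decide +kernel
def p12_14_0_10 : pfC (piC [(nat_lit 38167130), (nat_lit 25010362), (nat_lit 18643303), (nat_lit 12552662)] (nat_lit 25257288)) p12_14_0 (nat_lit 4) (nat_lit 10) (nat_lit 11) = true := by decide +kernel
def p12_14_0_11 : pfC (piC [(nat_lit 38167130), (nat_lit 25010362), (nat_lit 18643303), (nat_lit 12552662)] (nat_lit 25257288)) p12_14_0 (nat_lit 4) (nat_lit 11) (nat_lit 12) = true := by decide +kernel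
def p12_14_0_12 : pfC (piC [(nat_lit 38167130), (nat_lit 25010362), (nat_lit 18643303), (nat_lit 12552662)] (nat_lit 25257288)) p12_14_0 (nat_lit 4) (nat_lit 12) (nat_lit 13) = true := by decide +kernel
def p12_14_0_13 : pfC (piC [(nat_lit 38167130), (nat_lit 25010362), (nat_lit 18643303), (nat_lit 12552662)] (nat_lit 25257288)) p12_14_0 (nat_lit 4) (nat_lit 13) (nat_lit 14) = true := by decide +kernel
def p12_14_0_14 : pfC (piC [(nat_lit 38167130), (nat_lit 25010362), (nat_lit 18643303), (nat_lit 12552662)] (nat_lit 25257288)) p12_14_0 (nat_lit 4) (nat_lit 14) (nat_lit 15) = true := by decide +kernel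
def p12_14_0_15 : pfC (piC [(nat_lit 38167130), (nat_lit 25010362), (nat_lit 18643303), (nat_lit 12552662)] (nat_lit 25257288)) p12_14_0 (nat_lit 4) (nat_lit 15) (nat_lit 16) = true := by decide +kernel
def p12_14_0_16 : pfC (piC [(nat_lit 38167130), (nat_lit 25010362), (nat_lit 18643303), (nat_lit 12552662)] (nat_lit 25257288)) p12_14_0 (nat_lit 4) (nat_lit 16) (nat_lit 17) = true := by decide +kernel
def p12_14_0_17 : pfC (piC [(nat_lit 38167130), (nat_lit 25010362), (nat_lit 18643303), (nat_lit 12552662)] (nat_lit 25257288)) p12_14_0 (nat_lit 4) (nat_lit 17) (nat_lit 18) = true := by decide +kernel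
def p12_14_0_18 : pfC (piC [(nat_lit 38167130), (nat_lit 25010362), (nat_lit 18643303), (nat_lit 12552662)] (nat_lit 25257288)) p12_14_0 (nat_lit 4) (nat_lit 18) (nat_lit 19) = true := by decide +kernel
def p12_14_0_19 : pfC (piC [(nat_lit 38167130), (nat_lit 25010362), (nat_lit 18643303), (nat_lit 12552662)] (nat_lit 25257288)) p12_14_0 (nat_lit 4) (nat_lit 19) (nat_lit 20) = true := by decide +kernel
def p12_14_0_20 : pfC (piC [(nat_lit 38167130), (nat_lit 25010362), (nat_lit 18643303), (nat_lit 12552662)] (nat_lit 25257288)) p12_14_0 (nat_lit 4) (nat_lit 20) (nat_lit 21) = true := by decide +kernel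
def p12_14_0_21 : pfC (piC [(nat_lit 38167130), (nat_lit 25010362), (nat_lit 18643303), (nat_lit 12552662)] (nat_lit 25257288)) p12_14_0 (nat_lit 4) (nat_lit 21) (nat_lit 22) = true := by decide +kernel
def p12_14_0_22 : pfC (piC [(nat_lit 38167130), (nat_lit 25010362), (nat_lit 18643303), (nat_lit 12552662)] (nat_lit 25257288)) p12_14_0 (nat_lit 4) (nat_lit 22) (nat_lit 23) = true := by decide +kernel
def p12_14_0_23 : pfC (piC [(nat_lit 38167130), (nat_lit 25010362), (nat_lit 18643303), (nat_lit 12552662)] (nat_lit 25257288)) p12_14_0 (nat_lit 4) (nat_lit 23) (nat_lit 24) = true := by decide +kernel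
def p12_14_0_24 : pfC (piC [(nat_lit 38167130), (nat_lit 25010362), (nat_lit 18643303), (nat_lit 12552662)] (nat_lit 25257288)) p12_14_0 (nat_lit 4) (nat_lit 24) (nat_lit 25) = true := by decide +kernel
def p12_14_0_25 : pfC (piC [(nat_lit 38167130), (nat_lit 25010362), (nat_lit 18643303), (nat_lit 12552662)] (nat_lit 25257288)) p12_14_0 (nat_lit 4) (nat_lit 25) (nat_lit 26) = true := by decide +kernel
def p12_14_0_26 : pfC (piC [(nat_lit 38167130), (nat_lit 25010362), (nat_lit 18643303), (nat_lit 12552662)] (nat_lit 25257288)) p12_14_0 (nat_lit 4) (nat_lit 26) (nat_lit 27) = true := by decide +kernel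
def p12_14_0_27 : pfC (piC [(nat_lit 38167130), (nat_lit 25010362), (nat_lit 18643303), (nat_lit 12552662)] (nat_lit 25257288)) p12_14_0 (nat_lit 4) (nat_lit 27) (nat_lit 28) = true := by decide +kernel
def p12_14_0_28 : pfC (piC [(nat_lit 38167130), (nat_lit 25010362), (nat_lit 18643303), (nat_lit 12552662)] (nat_lit 25257288)) p12_14_0 (nat_lit 4) (nat_lit 28) (nat_lit 29) = true := by decide +kernel
def p12_14_0_29 : pfC (piC [(nat_lit 38167130), (nat_lit 25010362), (nat_lit 18643303), (nat_lit 12552662)] (nat_lit 25257288)) p12_14_0 (nat_lit 4) (nat_lit 29) (nat_lit 30) = true := by decide +kernel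
def p12_14_0_30 : pfC (piC [(nat_lit 38167130), (nat_lit 25010362), (nat_lit 18643303), (nat_lit 12552662)] (nat_lit 25257288)) p12_14_0 (nat_lit 4) (nat_lit 30) (nat_lit 31) = true := by decide +kernel
def p12_14_0_31 : pfC (piC [(nat_lit 38167130), (nat_lit 25010362), (nat_lit 18643303), (nat_lit 12552662)] (nat_lit 25257288)) p12_14_0 (nat_lit 4) (nat_lit 31) (nat_lit 32) = true := by decide +kernel
def p12_14_0_32 : pfC (piC [(nat_lit 38167130), (nat_lit 25010362), (nat_lit 18643303), (nat_lit 12552662)] (nat_lit 25257288)) p12_14_0 (nat_lit 4) (nat_lit 32) (nat_lit 33) = true := by decide +kernel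
def p12_14_0_33 : pfC (piC [(nat_lit 38167130), (nat_lit 25010362), (nat_lit 18643303), (nat_lit 12552662)] (nat_lit 25257288)) p12_14_0 (nat_lit 4) (nat_lit 33) (nat_lit 34) = true := by decide +kernel
def p12_14_0_34 : pfC (piC [(nat_lit 38167130), (nat_lit 25010362), (nat_lit 18643303), (nat_lit 12552662)] (nat_lit 25257288)) p12_14_0 (nat_lit 4) (nat_lit 34) (nat_lit 35) = true := by decide +kernel
def p12_14_0_35 : pfC (piC [(nat_lit 38167130), (nat_lit 25010362), (nat_lit 18643303), (nat_lit 12552662)] (nat_lit 25257288)) p12_14_0 (nat_lit 4) (nat_lit 35) (nat_lit 36) = true := by decide +kernel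
def p12_14_0_36 : pfC (piC [(nat_lit 38167130), (nat_lit 25010362), (nat_lit 18643303), (nat_lit 12552662)] (nat_lit 25257288)) p12_14_0 (nat_lit 4) (nat_lit 36) (nat_lit 37) = true := by decide +kernel
def p12_14_0_37 : pfC (piC [(nat_lit 38167130), (nat_lit 25010362), (nat_lit 18643303), (nat_lit 12552662)] (nat_lit 25257288)) p12_14_0 (nat_lit 4) (nat_lit 37) (nat_lit 38) = true := by decide +kernel
def p12_14_0_38 : pfC (piC [(nat_lit 38167130), (nat_lit 25010362), (nat_lit 18643303), (nat_lit 12552662)] (nat_lit 25257288)) p12_14_0 (nat_lit 4) (nat_lit 38) (nat_lit 39) = true := by decide +kernel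
def p12_14_0_39 : pfC (piC [(nat_lit 38167130), (nat_lit 25010362), (nat_lit 18643303), (nat_lit 12552662)] (nat_lit 25257288)) p12_14_0 (nat_lit 4) (nat_lit 39) (nat_lit 40) = true := by decide +kernel
def p12_14_0_40 : pfC (piC [(nat_lit 38167130), (nat_lit 25010362), (nat_lit 18643303), (nat_lit 12552662)] (nat_lit 25257288)) p12_14_0 (nat_lit 4) (nat_lit 40) (nat_lit 41) = true := by decide +kernel
def p12_14_0_41 : pfC (piC [(nat_lit 38167130), (nat_lit 25010362), (nat_lit 18643303), (nat_lit 12552662)] (nat_lit 25257288)) p12_14_0 (nat_lit 4) (nat_lit 41) (nat_lit 42) = true := by decide +kernel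
def p12_14_0_42 : pfC (piC [(nat_lit 38167130), (nat_lit 25010362), (nat_lit 18643303), (nat_lit 12552662)] (nat_lit 25257288)) p12_14_0 (nat_lit 4) (nat_lit 42) (nat_lit 43) = true := by decide +kernel
def p12_14_0_43 : pfC (piC [(nat_lit 38167130), (nat_lit 25010362), (nat_lit 18643303), (nat_lit 12552662)] (nat_lit 25257288)) p12_14_0 (nat_lit 4) (nat_lit 43) (nat_lit 44) = true := by decide +kernel
def p12_14_0_44 : pfC (piC [(nat_lit 38167130), (nat_lit 25010362), (nat_lit 18643303), (nat_lit 12552662)] (nat_lit 25257288)) p12_14_0 (nat_lit 4) (nat_lit 44) (nat_lit 45) = true := by decide +kernel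
def p12_14_0_45 : pfC (piC [(nat_lit 38167130), (nat_lit 25010362), (nat_lit 18643303), (nat_lit 12552662)] (nat_lit 25257288)) p12_14_0 (nat_lit 4) (nat_lit 45) (nat_lit 46) = true := by decide +kernel
def p12_14_0_46 : pfC (piC [(nat_lit 38167130), (nat_lit 25010362), (nat_lit 18643303), (nat_lit 12552662)] (nat_lit 25257288)) p12_14_0 (nat_lit 4) (nat_lit 46) (nat_lit 47) = true := by decide +kernel
def p12_14_0_47 : pfC (piC [(nat_lit 38167130), (nat_lit 25010362), (nat_lit 18643303), (nat_lit 12552662)] (nat_lit 25257288)) p12_14_0 (nat_lit 4) (nat_lit 47) (nat_lit 48) = true := by decide +kernel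
def p12_14_0_48 : pfC (piC [(nat_lit 38167130), (nat_lit 25010362), (nat_lit 18643303), (nat_lit 12552662)] (nat_lit 25257288)) p12_14_0 (nat_lit 4) (nat_lit 48) (nat_lit 49) = true := by decide +kernel
def p12_14_0_49 : pfC (piC [(nat_lit 38167130), (nat_lit 25010362), (nat_lit 18643303), (nat_lit 12552662)] (nat_lit 25257288)) p12_14_0 (nat_lit 4) (nat_lit 49) (nat_lit 50) = true := by decide +kernel
def p12_14_0_50 : pfC (piC [(nat_lit 38167130), (nat_lit 25010362), (nat_lit 18643303), (nat_lit 12552662)] (nat_lit 25257288)) p12_14_0 (nat_lit 4) (nat_lit 50) (nat_lit 51) = true := by decide +kernel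
def p12_14_0_51 : pfC (piC [(nat_lit 38167130), (nat_lit 25010362), (nat_lit 18643303), (nat_lit 12552662)] (nat_lit 25257288)) p12_14_0 (nat_lit 4) (nat_lit 51) (nat_lit 52) = true := by decide +kernel
def p12_14_0_52 : pfC (piC [(nat_lit 38167130), (nat_lit 25010362), (nat_lit 18643303), (nat_lit 12552662)] (nat_lit 25257288)) p12_14_0 (nat_lit 4) (nat_lit 52) (nat_lit 53) = true := by decide +kernel
def p12_14_0_53 : pfC (piC [(nat_lit 38167130), (nat_lit 25010362), (nat_lit 18643303), (nat_lit 12552662)] (nat_lit 25257288)) p12_14_0 (nat_lit 4) (nat_lit 53) (nat_lit 54) = true := by decide +kernel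
def p12_14_0_54 : pfC (piC [(nat_lit 38167130), (nat_lit 25010362), (nat_lit 18643303), (nat_lit 12552662)] (nat_lit 25257288)) p12_14_0 (nat_lit 4) (nat_lit 54) (nat_lit 55) = true := by decide +kernel
def p12_14_0_55 : pfC (piC [(nat_lit 38167130), (nat_lit 25010362), (nat_lit 18643303), (nat_lit 12552662)] (nat_lit 25257288)) p12_14_0 (nat_lit 4) (nat_lit 55) (nat_lit 56) = true := by decide +kernel
def p12_14_0_56 : pfC (piC [(nat_lit 38167130), (nat_lit 25010362), (nat_lit 18643303), (nat_lit 12552662)] (nat_lit 25257288)) p12_14_0 (nat_lit 4) (nat_lit 56) (nat_lit 57) = true := by decide +kernel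
def p12_14_0_57 : pfC (piC [(nat_lit 38167130), (nat_lit 25010362), (nat_lit 18643303), (nat_lit 12552662)] (nat_lit 25257288)) p12_14_0 (nat_lit 4) (nat_lit 57) (nat_lit 58) = true := by decide +kernel
def p12_14_0_58 : pfC (piC [(nat_lit 38167130), (nat_lit 25010362), (nat_lit 18643303), (nat_lit 12552662)] (nat_lit 25257288)) p12_14_0 (nat_lit 4) (nat_lit 58) (nat_lit 59) = true := by decide +kernel
def p12_14_0_59 : pfC (piC [(nat_lit 38167130), (nat_lit 25010362), (nat_lit 18643303), (nat_lit 12552662)] (nat_lit 25257288)) p12_14_0 (nat_lit 4) (nat_lit 59) (nat_lit 60) = true := by decide +kernel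
def p12_14_0_60 : pfC (piC [(nat_lit 38167130), (nat_lit 25010362), (nat_lit 18643303), (nat_lit 12552662)] (nat_lit 25257288)) p12_14_0 (nat_lit 4) (nat_lit 60) (nat_lit 61) = true := by decide +kernel
def p12_14_0_61 : pfC (piC [(nat_lit 38167130), (nat_lit 25010362), (nat_lit 18643303), (nat_lit 12552662)] (nat_lit 25257288)) p12_14_0 (nat_lit 4) (nat_lit 61) (nat_lit 62) = true := by decide +kernel
def p12_14_0_62 : pfC (piC [(nat_lit 38167130), (nat_lit 25010362), (nat_lit 18643303), (nat_lit 12552662)] (nat_lit 25257288)) p12_14_0 (nat_lit 4) (nat_lit 62) (nat_lit 63) = true := by decide +kernel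
def p12_14_0_63 : pfC (piC [(nat_lit 38167130), (nat_lit 25010362), (nat_lit 18643303), (nat_lit 12552662)] (nat_lit 25257288)) p12_14_0 (nat_lit 4) (nat_lit 63) (nat_lit 64) = true := by decide +kernel
def p12_14_0_64 : pfC (piC [(nat_lit 38167130), (nat_lit 25010362), (nat_lit 18643303), (nat_lit 12552662)] (nat_lit 25257288)) p12_14_0 (nat_lit 4) (nat_lit 64) (nat_lit 65) = true := by decide +kernel
def p12_14_0_65 : pfC (piC [(nat_lit 38167130), (nat_lit 25010362), (nat_lit 18643303), (nat_lit 12552662)] (nat_lit 25257288)) p12_14_0 (nat_lit 4) (nat_lit 65) (nat_lit 66) = true := by decide +kernel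
def p12_14_0_66 : pfC (piC [(nat_lit 38167130), (nat_lit 25010362), (nat_lit 18643303), (nat_lit 12552662)] (nat_lit 25257288)) p12_14_0 (nat_lit 4) (nat_lit 66) (nat_lit 67) = true := by decide +kernel
def p12_14_0_67 : pfC (piC [(nat_lit 38167130), (nat_lit 25010362), (nat_lit 18643303), (nat_lit 12552662)] (nat_lit 25257288)) p12_14_0 (nat_lit 4) (nat_lit 67) (nat_lit 68) = true := by decide +kernel
def p12_14_0_68 : pfC (piC [(nat_lit 38167130), (nat_lit 25010362), (nat_lit 18643303), (nat_lit 12552662)] (nat_lit 25257288)) p12_14_0 (nat_lit 4) (nat_lit 68) (nat_lit 69) = true := by decide +kernel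
def p12_14_0_69 : pfC (piC [(nat_lit 38167130), (nat_lit 25010362), (nat_lit 18643303), (nat_lit 12552662)] (nat_lit 25257288)) p12_14_0 (nat_lit 4) (nat_lit 69) (nat_lit 70) = true := by decide +kernel
def p12_14_0_70 : pfC (piC [(nat_lit 38167130), (nat_lit 25010362), (nat_lit 18643303), (nat_lit 12552662)] (nat_lit 25257288)) p12_14_0 (nat_lit 4) (nat_lit 70) (nat_lit 71) = true := by decide +kernel
def p12_14_0_71 : pfC (piC [(nat_lit 38167130), (nat_lit 25010362), (nat_lit 18643303), (nat_lit 12552662)] (nat_lit 25257288)) p12_14_0 (nat_lit 4) (nat_lit 71) (nat_lit 72) = true := by decide +kernel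
def p12_14_0_72 : pfC (piC [(nat_lit 38167130), (nat_lit 25010362), (nat_lit 18643303), (nat_lit 12552662)] (nat_lit 25257288)) p12_14_0 (nat_lit 4) (nat_lit 72) (nat_lit 73) = true := by decide +kernel
def p12_14_0_73 : pfC (piC [(nat_lit 38167130), (nat_lit 25010362), (nat_lit 18643303), (nat_lit 12552662)] (nat_lit 25257288)) p12_14_0 (nat_lit 4) (nat_lit 73) (nat_lit 74) = true := by decide +kernel
def p12_14_0_74 : pfC (piC [(nat_lit 38167130), (nat_lit 25010362), (nat_lit 18643303), (nat_lit 12552662)] (nat_lit 25257288)) p12_14_0 (nat_lit 4) (nat_lit 74) (nat_lit 75) = true := by decide +kernel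
def p12_14_0_75 : pfC (piC [(nat_lit 38167130), (nat_lit 25010362), (nat_lit 18643303), (nat_lit 12552662)] (nat_lit 25257288)) p12_14_0 (nat_lit 4) (nat_lit 75) (nat_lit 76) = true := by decide +kernel
def p12_14_0_76 : pfC (piC [(nat_lit 38167130), (nat_lit 25010362), (nat_lit 18643303), (nat_lit 12552662)] (nat_lit 25257288)) p12_14_0 (nat_lit 4) (nat_lit 76) (nat_lit 77) = true := by decide +kernel
def p12_14_0_77 : pfC (piC [(nat_lit 38167130), (nat_lit 25010362), (nat_lit 18643303), (nat_lit 12552662)] (nat_lit 25257288)) p12_14_0 (nat_lit 4) (nat_lit 77) (nat_lit 78) = true := by decide +kernel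
def p12_14_0_78 : pfC (piC [(nat_lit 38167130), (nat_lit 25010362), (nat_lit 18643303), (nat_lit 12552662)] (nat_lit 25257288)) p12_14_0 (nat_lit 4) (nat_lit 78) (nat_lit 79) = true := by decide +kernel
def p12_14_0_79 : pfC (piC [(nat_lit 38167130), (nat_lit 25010362), (nat_lit 18643303), (nat_lit 12552662)] (nat_lit 25257288)) p12_14_0 (nat_lit 4) (nat_lit 79) (nat_lit 80) = true := by decide +kernel
def p12_14_0_80 : pfC (piC [(nat_lit 38167130), (nat_lit 25010362), (nat_lit 18643303), (nat_lit 12552662)] (nat_lit 25257288)) p12_14_0 (nat_lit 4) (nat_lit 80) (nat_lit 81) = true := by decide +kernel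
def p12_14_0_81 : pfC (piC [(nat_lit 38167130), (nat_lit 25010362), (nat_lit 18643303), (nat_lit 12552662)] (nat_lit 25257288)) p12_14_0 (nat_lit 4) (nat_lit 81) (nat_lit 82) = true := by decide +kernel
def p12_14_0_82 : pfC (piC [(nat_lit 38167130), (nat_lit 25010362), (nat_lit 18643303), (nat_lit 12552662)] (nat_lit 25257288)) p12_14_0 (nat_lit 4) (nat_lit 82) (nat_lit 83) = true := by decide +kernel
def p12_14_0_83 : pfC (piC [(nat_lit 38167130), (nat_lit 25010362), (nat_lit 18643303), (nat_lit 12552662)] (nat_lit 25257288)) p12_14_0 (nat_lit 4) (nat_lit 83) (nat_lit 84) = true := by decide +kernel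
def p12_14_0_84 : pfC (piC [(nat_lit 38167130), (nat_lit 25010362), (nat_lit 18643303), (nat_lit 12552662)] (nat_lit 25257288)) p12_14_0 (nat_lit 4) (nat_lit 84) (nat_lit 85) = true := by decide +kernel
def p12_14_0_85 : pfC (piC [(nat_lit 38167130), (nat_lit 25010362), (nat_lit 18643303), (nat_lit 12552662)] (nat_lit 25257288)) p12_14_0 (nat_lit 4) (nat_lit 85) (nat_lit 86) = true := by decide +kernel
def p12_14_0_86 : pfC (piC [(nat_lit 38167130), (nat_lit 25010362), (nat_lit 18643303), (nat_lit 12552662)] (nat_lit 25257288)) p12_14_0 (nat_lit 4) (nat_lit 86) (nat_lit 87) = true := by decide +kernel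
def p12_14_0_87 : pfC (piC [(nat_lit 38167130), (nat_lit 25010362), (nat_lit 18643303), (nat_lit 12552662)] (nat_lit 25257288)) p12_14_0 (nat_lit 4) (nat_lit 87) (nat_lit 88) = true := by decide +kernel
def p12_14_0_88 : pfC (piC [(nat_lit 38167130), (nat_lit 25010362), (nat_lit 18643303), (nat_lit 12552662)] (nat_lit 25257288)) p12_14_0 (nat_lit 4) (nat_lit 88) (nat_lit 89) = true := by decide +kernel
def p12_14_0_89 : pfC (piC [(nat_lit 38167130), (nat_lit 25010362), (nat_lit 18643303), (nat_lit 12552662)] (nat_lit 25257288)) p12_14_0 (nat_lit 4) (nat_lit 89) (nat_lit 90) = true := by decide +kernel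
def p12_14_0_90 : pfC (piC [(nat_lit 38167130), (nat_lit 25010362), (nat_lit 18643303), (nat_lit 12552662)] (nat_lit 25257288)) p12_14_0 (nat_lit 4) (nat_lit 90) (nat_lit 91) = true := by decide +kernel
def p12_14_0_91 : pfC (piC [(nat_lit 38167130), (nat_lit 25010362), (nat_lit 18643303), (nat_lit 12552662)] (nat_lit 25257288)) p12_14_0 (nat_lit 4) (nat_lit 91) (nat_lit 92) = true := by decide +kernel
def p12_14_0_92 : pfC (piC [(nat_lit 38167130), (nat_lit 25010362), (nat_lit 18643303), (nat_lit 12552662)] (nat_lit 25257288)) p12_14_0 (nat_lit 4) (nat_lit 92) (nat_lit 93) = true := by decide +kernel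
def p12_14_0_93 : pfC (piC [(nat_lit 38167130), (nat_lit 25010362), (nat_lit 18643303), (nat_lit 12552662)] (nat_lit 25257288)) p12_14_0 (nat_lit 4) (nat_lit 93) (nat_lit 94) = true := by decide +kernel
def p12_14_0_94 : pfC (piC [(nat_lit 38167130), (nat_lit 25010362), (nat_lit 18643303), (nat_lit 12552662)] (nat_lit 25257288)) p12_14_0 (nat_lit 4) (nat_lit 94) (nat_lit 95) = true := by decide +kernel
def p12_14_0_95 : pfC (piC [(nat_lit 38167130), (nat_lit 25010362), (nat_lit 18643303), (nat_lit 12552662)] (nat_lit 25257288)) p12_14_0 (nat_lit 4) (nat_lit 95) (nat_lit 96) = true := by decide +kernel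
def p12_14_0_96 : pfC (piC [(nat_lit 38167130), (nat_lit 25010362), (nat_lit 18643303), (nat_lit 12552662)] (nat_lit 25257288)) p12_14_0 (nat_lit 4) (nat_lit 96) (nat_lit 97) = true := by decide +kernel
def p12_14_0_97 : pfC (piC [(nat_lit 38167130), (nat_lit 25010362), (nat_lit 18643303), (nat_lit 12552662)] (nat_lit 25257288)) p12_14_0 (nat_lit 4) (nat_lit 97) (nat_lit 98) = true := by decide +kernel
def p12_14_0_98 : pfC (piC [(nat_lit 38167130), (nat_lit 25010362), (nat_lit 18643303), (nat_lit 12552662)] (nat_lit 25257288)) p12_14_0 (nat_lit 4) (nat_lit 98) (nat_lit 99) = true := by decide +kernel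
def p12_14_0_99 : pfC (piC [(nat_lit 38167130), (nat_lit 25010362), (nat_lit 18643303), (nat_lit 12552662)] (nat_lit 25257288)) p12_14_0 (nat_lit 4) (nat_lit 99) (nat_lit 100) = true := by decide +kernel
def p12_14_0_100 : pfC (piC [(nat_lit 38167130), (nat_lit 25010362), (nat_lit 18643303), (nat_lit 12552662)] (nat_lit 25257288)) p12_14_0 (nat_lit 4) (nat_lit 100) (nat_lit 101) = true := by decide +kernel
def p12_14_0_101 : pfC (piC [(nat_lit 38167130), (nat_lit 25010362), (nat_lit 18643303), (nat_lit 12552662)] (nat_lit 25257288)) p12_14_0 (nat_lit 4) (nat_lit 101) (nat_lit 102) = true := by decide +kernel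
def p12_14_0_102 : pfC (piC [(nat_lit 38167130), (nat_lit 25010362), (nat_lit 18643303), (nat_lit 12552662)] (nat_lit 25257288)) p12_14_0 (nat_lit 4) (nat_lit 102) (nat_lit 103) = true := by decide +kernel
def p12_14_0_103 : pfC (piC [(nat_lit 38167130), (nat_lit 25010362), (nat_lit 18643303), (nat_lit 12552662)] (nat_lit 25257288)) p12_14_0 (nat_lit 4) (nat_lit 103) (nat_lit 104) = true := by decide +kernel
def p12_14_0_104 : pfC (piC [(nat_lit 38167130), (nat_lit 25010362), (nat_lit 18643303), (nat_lit 12552662)] (nat_lit 25257288)) p12_14_0 (nat_lit 4) (nat_lit 104) (nat_lit 105) = true := by decide +kernel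
def p12_14_0_105 : pfC (piC [(nat_lit 38167130), (nat_lit 25010362), (nat_lit 18643303), (nat_lit 12552662)] (nat_lit 25257288)) p12_14_0 (nat_lit 4) (nat_lit 105) (nat_lit 106) = true := by decide +kernel
def p12_14_0_106 : pfC (piC [(nat_lit 38167130), (nat_lit 25010362), (nat_lit 18643303), (nat_lit 12552662)] (nat_lit 25257288)) p12_14_0 (nat_lit 4) (nat_lit 106) (nat_lit 107) = true := by decide +kernel
def p12_14_0_107 : pfC (piC [(nat_lit 38167130), (nat_lit 25010362), (nat_lit 18643303), (nat_lit 12552662)] (nat_lit 25257288)) p12_14_0 (nat_lit 4) (nat_lit 107) (nat_lit 108) = true := by decide +kernel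
def p12_14_0_108 : pfC (piC [(nat_lit 38167130), (nat_lit 25010362), (nat_lit 18643303), (nat_lit 12552662)] (nat_lit 25257288)) p12_14_0 (nat_lit 4) (nat_lit 108) (nat_lit 109) = true := by decide +kernel
def p12_14_0_109 : pfC (piC [(nat_lit 38167130), (nat_lit 25010362), (nat_lit 18643303), (nat_lit 12552662)] (nat_lit 25257288)) p12_14_0 (nat_lit 4) (nat_lit 109) (nat_lit 110) = true := by decide +kernel
def p12_14_0_110 : pfC (piC [(nat_lit 38167130), (nat_lit 25010362), (nat_lit 18643303), (nat_lit 12552662)] (nat_lit 25257288)) p12_14_0 (nat_lit 4) (nat_lit 110) (nat_lit 111) = true := by decide +kernel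
def p12_14_0_111 : pfC (piC [(nat_lit 38167130), (nat_lit 25010362), (nat_lit 18643303), (nat_lit 12552662)] (nat_lit 25257288)) p12_14_0 (nat_lit 4) (nat_lit 111) (nat_lit 112) = true := by decide +kernel
def p12_14_0_112 : pfC (piC [(nat_lit 38167130), (nat_lit 25010362), (nat_lit 18643303), (nat_lit 12552662)] (nat_lit 25257288)) p12_14_0 (nat_lit 4) (nat_lit 112) (nat_lit 113) = true := by decide +kernel
def p12_14_0_113 : pfC (piC [(nat_lit 38167130), (nat_lit 25010362), (nat_lit 18643303), (nat_lit 12552662)] (nat_lit 25257288)) p12_14_0 (nat_lit 4) (nat_lit 113) (nat_lit 114) = true := by decide +kernel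
def p12_14_0_114 : pfC (piC [(nat_lit 38167130), (nat_lit 25010362), (nat_lit 18643303), (nat_lit 12552662)] (nat_lit 25257288)) p12_14_0 (nat_lit 4) (nat_lit 114) (nat_lit 115) = true := by decide +kernel
def p12_14_0_115 : pfC (piC [(nat_lit 38167130), (nat_lit 25010362), (nat_lit 18643303), (nat_lit 12552662)] (nat_lit 25257288)) p12_14_0 (nat_lit 4) (nat_lit 115) (nat_lit 116) = true := by decide +kernel
def p12_14_0_116 : pfC (piC [(nat_lit 38167130), (nat_lit 25010362), (nat_lit 18643303), (nat_lit 12552662)] (nat_lit 25257288)) p12_14_0 (nat_lit 4) (nat_lit 116) (nat_lit 117) = true := by decide +kernel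
def p12_14_0_117 : pfC (piC [(nat_lit 38167130), (nat_lit 25010362), (nat_lit 18643303), (nat_lit 12552662)] (nat_lit 25257288)) p12_14_0 (nat_lit 4) (nat_lit 117) (nat_lit 118) = true := by decide +kernel
def p12_14_0_118 : pfC (piC [(nat_lit 38167130), (nat_lit 25010362), (nat_lit 18643303), (nat_lit 12552662)] (nat_lit 25257288)) p12_14_0 (nat_lit 4) (nat_lit 118) (nat_lit 119) = true := by decide +kernel
def p12_14_0_119 : pfC (piC [(nat_lit 38167130), (nat_lit 25010362), (nat_lit 18643303), (nat_lit 12552662)] (nat_lit 25257288)) p12_14_0 (nat_lit 4) (nat_lit 119) (nat_lit 120) = true := by decide +kernel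
def p12_14_0_120 : pfC (piC [(nat_lit 38167130), (nat_lit 25010362), (nat_lit 18643303), (nat_lit 12552662)] (nat_lit 25257288)) p12_14_0 (nat_lit 4) (nat_lit 120) (nat_lit 121) = true := by decide +kernel
def p12_14_0_121 : pfC (piC [(nat_lit 38167130), (nat_lit 25010362), (nat_lit 18643303), (nat_lit 12552662)] (nat_lit 25257288)) p12_14_0 (nat_lit 4) (nat_lit 121) (nat_lit 122) = true := by decide +kernel
def p12_14_0_122 : pfC (piC [(nat_lit 38167130), (nat_lit 25010362), (nat_lit 18643303), (nat_lit 12552662)] (nat_lit 25257288)) p12_14_0 (nat_lit 4) (nat_lit 122) (nat_lit 123) = true := by decide +kernel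
def p12_14_0_123 : pfC (piC [(nat_lit 38167130), (nat_lit 25010362), (nat_lit 18643303), (nat_lit 12552662)] (nat_lit 25257288)) p12_14_0 (nat_lit 4) (nat_lit 123) (nat_lit 124) = true := by decide +kernel
def p12_14_0_124 : pfC (piC [(nat_lit 38167130), (nat_lit 25010362), (nat_lit 18643303), (nat_lit 12552662)] (nat_lit 25257288)) p12_14_0 (nat_lit 4) (nat_lit 124) (nat_lit 125) = true := by decide +kernel
def p12_14_0_125 : pfC (piC [(nat_lit 38167130), (nat_lit 25010362), (nat_lit 18643303), (nat_lit 12552662)] (nat_lit 25257288)) p12_14_0 (nat_lit 4) (nat_lit 125) (nat_lit 126) = true := by decide +kernel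
def p12_14_0_126 : pfC (piC [(nat_lit 38167130), (nat_lit 25010362), (nat_lit 18643303), (nat_lit 12552662)] (nat_lit 25257288)) p12_14_0 (nat_lit 4) (nat_lit 126) (nat_lit 127) = true := by decide +kernel
def p12_14_0_127 : pfC (piC [(nat_lit 38167130), (nat_lit 25010362), (nat_lit 18643303), (nat_lit 12552662)] (nat_lit 25257288)) p12_14_0 (nat_lit 4) (nat_lit 127) (nat_lit 128) = true := by decide +kernel
def p12_14_0_128 : pfC (piC [(nat_lit 38167130), (nat_lit 25010362), (nat_lit 18643303), (nat_lit 12552662)] (nat_lit 25257288)) p12_14_0 (nat_lit 4) (nat_lit 128) (nat_lit 129) = true := by decide +kernel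
def p12_14_0_129 : pfC (piC [(nat_lit 38167130), (nat_lit 25010362), (nat_lit 18643303), (nat_lit 12552662)] (nat_lit 25257288)) p12_14_0 (nat_lit 4) (nat_lit 129) (nat_lit 130) = true := by decide +kernel
def p12_14_0_130 : pfC (piC [(nat_lit 38167130), (nat_lit 25010362), (nat_lit 18643303), (nat_lit 12552662)] (nat_lit 25257288)) p12_14_0 (nat_lit 4) (nat_lit 130) (nat_lit 131) = true := by decide +kernel
def p12_14_0_131 : pfC (piC [(nat_lit 38167130), (nat_lit 25010362), (nat_lit 18643303), (nat_lit 12552662)] (nat_lit 25257288)) p12_14_0 (nat_lit 4) (nat_lit 131) (nat_lit 132) = true := by decide +kernel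
def p12_14_0_132 : pfC (piC [(nat_lit 38167130), (nat_lit 25010362), (nat_lit 18643303), (nat_lit 12552662)] (nat_lit 25257288)) p12_14_0 (nat_lit 4) (nat_lit 132) (nat_lit 133) = true := by decide +kernel
def p12_14_0_133 : pfC (piC [(nat_lit 38167130), (nat_lit 25010362), (nat_lit 18643303), (nat_lit 12552662)] (nat_lit 25257288)) p12_14_0 (nat_lit 4) (nat_lit 133) (nat_lit 134) = true := by decide +kernel
def p12_14_0_134 : pfC (piC [(nat_lit 38167130), (nat_lit 25010362), (nat_lit 18643303), (nat_lit 12552662)] (nat_lit 25257288)) p12_14_0 (nat_lit 4) (nat_lit 134) (nat_lit 135) = true := by decide +kernel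
def p12_14_0_135 : pfC (piC [(nat_lit 38167130), (nat_lit 25010362), (nat_lit 18643303), (nat_lit 12552662)] (nat_lit 25257288)) p12_14_0 (nat_lit 4) (nat_lit 135) (nat_lit 136) = true := by decide +kernel
def p12_14_0_136 : pfC (piC [(nat_lit 38167130), (nat_lit 25010362), (nat_lit 18643303), (nat_lit 12552662)] (nat_lit 25257288)) p12_14_0 (nat_lit 4) (nat_lit 136) (nat_lit 137) = true := by decide +kernel
def p12_14_0_137 : pfC (piC [(nat_lit 38167130), (nat_lit 25010362), (nat_lit 18643303), (nat_lit 12552662)] (nat_lit 25257288)) p12_14_0 (nat_lit 4) (nat_lit 137) (nat_lit 138) = true := by decide +kernel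
def p12_14_0_138 : pfC (piC [(nat_lit 38167130), (nat_lit 25010362), (nat_lit 18643303), (nat_lit 12552662)] (nat_lit 25257288)) p12_14_0 (nat_lit 4) (nat_lit 138) (nat_lit 139) = true := by decide +kernel
def p12_14_0_139 : pfC (piC [(nat_lit 38167130), (nat_lit 25010362), (nat_lit 18643303), (nat_lit 12552662)] (nat_lit 25257288)) p12_14_0 (nat_lit 4) (nat_lit 139) (nat_lit 140) = true := by decide +kernel
def p12_14_0_140 : pfC (piC [(nat_lit 38167130), (nat_lit 25010362), (nat_lit 18643303), (nat_lit 12552662)] (nat_lit 25257288)) p12_14_0 (nat_lit 4) (nat_lit 140) (nat_lit 141) = true := by decide +kernel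
def p12_14_0_141 : pfC (piC [(nat_lit 38167130), (nat_lit 25010362), (nat_lit 18643303), (nat_lit 12552662)] (nat_lit 25257288)) p12_14_0 (nat_lit 4) (nat_lit 141) (nat_lit 142) = true := by decide +kernel
def p12_14_0_142 : pfC (piC [(nat_lit 38167130), (nat_lit 25010362), (nat_lit 18643303), (nat_lit 12552662)] (nat_lit 25257288)) p12_14_0 (nat_lit 4) (nat_lit 142) (nat_lit 143) = true := by decide +kernel
def p12_14_0_143 : pfC (piC [(nat_lit 38167130), (nat_lit 25010362), (nat_lit 18643303), (nat_lit 12552662)] (nat_lit 25257288)) p12_14_0 (nat_lit 4) (nat_lit 143) (nat_lit 144) = true := by decide +kernel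
def p12_14_0_144 : pfC (piC [(nat_lit 38167130), (nat_lit 25010362), (nat_lit 18643303), (nat_lit 12552662)] (nat_lit 25257288)) p12_14_0 (nat_lit 4) (nat_lit 144) (nat_lit 145) = true := by decide +kernel
def p12_14_0_145 : pfC (piC [(nat_lit 38167130), (nat_lit 25010362), (nat_lit 18643303), (nat_lit 12552662)] (nat_lit 25257288)) p12_14_0 (nat_lit 4) (nat_lit 145) (nat_lit 146) = true := by decide +kernel
def p12_14_0_146 : pfC (piC [(nat_lit 38167130), (nat_lit 25010362), (nat_lit 18643303), (nat_lit 12552662)] (nat_lit 25257288)) p12_14_0 (nat_lit 4) (nat_lit 146) (nat_lit 147) = true := by decide +kernel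
def p12_14_0_147 : pfC (piC [(nat_lit 38167130), (nat_lit 25010362), (nat_lit 18643303), (nat_lit 12552662)] (nat_lit 25257288)) p12_14_0 (nat_lit 4) (nat_lit 147) (nat_lit 148) = true := by decide +kernel
def p12_14_0_148 : pfC (piC [(nat_lit 38167130), (nat_lit 25010362), (nat_lit 18643303), (nat_lit 12552662)] (nat_lit 25257288)) p12_14_0 (nat_lit 4) (nat_lit 148) (nat_lit 149) = true := by decide +kernel
def p12_14_0_149 : pfC (piC [(nat_lit 38167130), (nat_lit 25010362), (nat_lit 18643303), (nat_lit 12552662)] (nat_lit 25257288)) p12_14_0 (nat_lit 4) (nat_lit 149) (nat_lit 150) = true := by decide +kernel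
def p12_14_0_150 : pfC (piC [(nat_lit 38167130), (nat_lit 25010362), (nat_lit 18643303), (nat_lit 12552662)] (nat_lit 25257288)) p12_14_0 (nat_lit 4) (nat_lit 150) (nat_lit 151) = true := by decide +kernel
def p12_14_0_151 : pfC (piC [(nat_lit 38167130), (nat_lit 25010362), (nat_lit 18643303), (nat_lit 12552662)] (nat_lit 25257288)) p12_14_0 (nat_lit 4) (nat_lit 151) (nat_lit 152) = true := by decide +kernel
def p12_14_0_152 : pfC (piC [(nat_lit 38167130), (nat_lit 25010362), (nat_lit 18643303), (nat_lit 12552662)] (nat_lit 25257288)) p12_14_0 (nat_lit 4) (nat_lit 152) (nat_lit 153) = true := by decide +kernel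
def p12_14_0_153 : pfC (piC [(nat_lit 38167130), (nat_lit 25010362), (nat_lit 18643303), (nat_lit 12552662)] (nat_lit 25257288)) p12_14_0 (nat_lit 4) (nat_lit 153) (nat_lit 154) = true := by decide +kernel
def p12_14_0_154 : pfC (piC [(nat_lit 38167130), (nat_lit 25010362), (nat_lit 18643303), (nat_lit 12552662)] (nat_lit 25257288)) p12_14_0 (nat_lit 4) (nat_lit 154) (nat_lit 155) = true := by decide +kernel
def p12_14_0_155 : pfC (piC [(nat_lit 38167130), (nat_lit 25010362), (nat_lit 18643303), (nat_lit 12552662)] (nat_lit 25257288)) p12_14_0 (nat_lit 4) (nat_lit 155) (nat_lit 156) = true := by decide +kernel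
def p12_14_0_156 : pfC (piC [(nat_lit 38167130), (nat_lit 25010362), (nat_lit 18643303), (nat_lit 12552662)] (nat_lit 25257288)) p12_14_0 (nat_lit 4) (nat_lit 156) (nat_lit 157) = true := by decide +kernel
def p12_14_0_157 : pfC (piC [(nat_lit 38167130), (nat_lit 25010362), (nat_lit 18643303), (nat_lit 12552662)] (nat_lit 25257288)) p12_14_0 (nat_lit 4) (nat_lit 157) (nat_lit 158) = true := by decide +kernel
def p12_14_0_158 : pfC (piC [(nat_lit 38167130), (nat_lit 25010362), (nat_lit 18643303), (nat_lit 12552662)] (nat_lit 25257288)) p12_14_0 (nat_lit 4) (nat_lit 158) (nat_lit 159) = true := by decide +kernel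
def p12_14_0_159 : pfC (piC [(nat_lit 38167130), (nat_lit 25010362), (nat_lit 18643303), (nat_lit 12552662)] (nat_lit 25257288)) p12_14_0 (nat_lit 4) (nat_lit 159) (nat_lit 160) = true := by decide +kernel
def p12_14_0_160 : pfC (piC [(nat_lit 38167130), (nat_lit 25010362), (nat_lit 18643303), (nat_lit 12552662)] (nat_lit 25257288)) p12_14_0 (nat_lit 4) (nat_lit 160) (nat_lit 161) = true := by decide +kernel
def p12_14_0_161 : pfC (piC [(nat_lit 38167130), (nat_lit 25010362), (nat_lit 18643303), (nat_lit 12552662)] (nat_lit 25257288)) p12_14_0 (nat_lit 4) (nat_lit 161) (nat_lit 162) = true := by decide +kernel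
def p12_14_0_162 : pfC (piC [(nat_lit 38167130), (nat_lit 25010362), (nat_lit 18643303), (nat_lit 12552662)] (nat_lit 25257288)) p12_14_0 (nat_lit 4) (nat_lit 162) (nat_lit 163) = true := by decide +kernel
def p12_14_0_163 : pfC (piC [(nat_lit 38167130), (nat_lit 25010362), (nat_lit 18643303), (nat_lit 12552662)] (nat_lit 25257288)) p12_14_0 (nat_lit 4) (nat_lit 163) (nat_lit 164) = true := by decide +kernel
def p12_14_0_164 : pfC (piC [(nat_lit 38167130), (nat_lit 25010362), (nat_lit 18643303), (nat_lit 12552662)] (nat_lit 25257288)) p12_14_0 (nat_lit 4) (nat_lit 164) (nat_lit 165) = true := by decide +kernel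
def p12_14_0_165 : pfC (piC [(nat_lit 38167130), (nat_lit 25010362), (nat_lit 18643303), (nat_lit 12552662)] (nat_lit 25257288)) p12_14_0 (nat_lit 4) (nat_lit 165) (nat_lit 166) = true := by decide +kernel
def p12_14_0_166 : pfC (piC [(nat_lit 38167130), (nat_lit 25010362), (nat_lit 18643303), (nat_lit 12552662)] (nat_lit 25257288)) p12_14_0 (nat_lit 4) (nat_lit 166) (nat_lit 167) = true := by decide +kernel
def p12_14_0_167 : pfC (piC [(nat_lit 38167130), (nat_lit 25010362), (nat_lit 18643303), (nat_lit 12552662)] (nat_lit 25257288)) p12_14_0 (nat_lit 4) (nat_lit 167) (nat_lit 168) = true := by decide +kernel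
def p12_14_0_168 : pfC (piC [(nat_lit 38167130), (nat_lit 25010362), (nat_lit 18643303), (nat_lit 12552662)] (nat_lit 25257288)) p12_14_0 (nat_lit 4) (nat_lit 168) (nat_lit 169) = true := by decide +kernel
def p12_14_0_169 : pfC (piC [(nat_lit 38167130), (nat_lit 25010362), (nat_lit 18643303), (nat_lit 12552662)] (nat_lit 25257288)) p12_14_0 (nat_lit 4) (nat_lit 169) (nat_lit 170) = true := by decide +kernel
def p12_14_0_170 : pfC (piC [(nat_lit 38167130), (nat_lit 25010362), (nat_lit 18643303), (nat_lit 12552662)] (nat_lit 25257288)) p12_14_0 (nat_lit 4) (nat_lit 170) (nat_lit 171) = true := by decide +kernel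
def p12_14_0_171 : pfC (piC [(nat_lit 38167130), (nat_lit 25010362), (nat_lit 18643303), (nat_lit 12552662)] (nat_lit 25257288)) p12_14_0 (nat_lit 4) (nat_lit 171) (nat_lit 172) = true := by decide +kernel
def p12_14_0_172 : pfC (piC [(nat_lit 38167130), (nat_lit 25010362), (nat_lit 18643303), (nat_lit 12552662)] (nat_lit 25257288)) p12_14_0 (nat_lit 4) (nat_lit 172) (nat_lit 173) = true := by decide +kernel
def p12_14_0_173 : pfC (piC [(nat_lit 38167130), (nat_lit 25010362), (nat_lit 18643303), (nat_lit 12552662)] (nat_lit 25257288)) p12_14_0 (nat_lit 4) (nat_lit 173) (nat_lit 174) = true := by decide +kernel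
def p12_14_0_174 : pfC (piC [(nat_lit 38167130), (nat_lit 25010362), (nat_lit 18643303), (nat_lit 12552662)] (nat_lit 25257288)) p12_14_0 (nat_lit 4) (nat_lit 174) (nat_lit 175) = true := by decide +kernel
def p12_14_0_175 : pfC (piC [(nat_lit 38167130), (nat_lit 25010362), (nat_lit 18643303), (nat_lit 12552662)] (nat_lit 25257288)) p12_14_0 (nat_lit 4) (nat_lit 175) (nat_lit 176) = true := by decide +kernel
def p12_14_0_176 : pfC (piC [(nat_lit 38167130), (nat_lit 25010362), (nat_lit 18643303), (nat_lit 12552662)] (nat_lit 25257288)) p12_14_0 (nat_lit 4) (nat_lit 176) (nat_lit 177) = true := by decide +kernel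
def p12_14_0_177 : pfC (piC [(nat_lit 38167130), (nat_lit 25010362), (nat_lit 18643303), (nat_lit 12552662)] (nat_lit 25257288)) p12_14_0 (nat_lit 4) (nat_lit 177) (nat_lit 178) = true := by decide +kernel
def p12_14_0_178 : pfC (piC [(nat_lit 38167130), (nat_lit 25010362), (nat_lit 18643303), (nat_lit 12552662)] (nat_lit 25257288)) p12_14_0 (nat_lit 4) (nat_lit 178) (nat_lit 179) = true := by decide +kernel
def p12_14_0_179 : pfC (piC [(nat_lit 38167130), (nat_lit 25010362), (nat_lit 18643303), (nat_lit 12552662)] (nat_lit 25257288)) p12_14_0 (nat_lit 4) (nat_lit 179) (nat_lit 180) = true := by decide +kernel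
def p12_14_0_180 : pfC (piC [(nat_lit 38167130), (nat_lit 25010362), (nat_lit 18643303), (nat_lit 12552662)] (nat_lit 25257288)) p12_14_0 (nat_lit 4) (nat_lit 180) (nat_lit 181) = true := by decide +kernel
def p12_14_0_181 : pfC (piC [(nat_lit 38167130), (nat_lit 25010362), (nat_lit 18643303), (nat_lit 12552662)] (nat_lit 25257288)) p12_14_0 (nat_lit 4) (nat_lit 181) (nat_lit 182) = true := by decide +kernel
def p12_14_0_182 : pfC (piC [(nat_lit 38167130), (nat_lit 25010362), (nat_lit 18643303), (nat_lit 12552662)] (nat_lit 25257288)) p12_14_0 (nat_lit 4) (nat_lit 182) (nat_lit 183) = true := by decide +kernel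
def p12_14_0_183 : pfC (piC [(nat_lit 38167130), (nat_lit 25010362), (nat_lit 18643303), (nat_lit 12552662)] (nat_lit 25257288)) p12_14_0 (nat_lit 4) (nat_lit 183) (nat_lit 184) = true := by decide +kernel
def p12_14_0_184 : pfC (piC [(nat_lit 38167130), (nat_lit 25010362), (nat_lit 18643303), (nat_lit 12552662)] (nat_lit 25257288)) p12_14_0 (nat_lit 4) (nat_lit 184) (nat_lit 185) = true := by decide +kernel
def p12_14_0_185 : pfC (piC [(nat_lit 38167130), (nat_lit 25010362), (nat_lit 18643303), (nat_lit 12552662)] (nat_lit 25257288)) p12_14_0 (nat_lit 4) (nat_lit 185) (nat_lit 186) = true := by decide +kernel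
def p12_14_0_186 : pfC (piC [(nat_lit 38167130), (nat_lit 25010362), (nat_lit 18643303), (nat_lit 12552662)] (nat_lit 25257288)) p12_14_0 (nat_lit 4) (nat_lit 186) (nat_lit 187) = true := by decide +kernel
def p12_14_0_187 : pfC (piC [(nat_lit 38167130), (nat_lit 25010362), (nat_lit 18643303), (nat_lit 12552662)] (nat_lit 25257288)) p12_14_0 (nat_lit 4) (nat_lit 187) (nat_lit 188) = true := by decide +kernel
def p12_14_0_188 : pfC (piC [(nat_lit 38167130), (nat_lit 25010362), (nat_lit 18643303), (nat_lit 12552662)] (nat_lit 25257288)) p12_14_0 (nat_lit 4) (nat_lit 188) (nat_lit 189) = true := by decide +kernel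
def p12_14_0_189 : pfC (piC [(nat_lit 38167130), (nat_lit 25010362), (nat_lit 18643303), (nat_lit 12552662)] (nat_lit 25257288)) p12_14_0 (nat_lit 4) (nat_lit 189) (nat_lit 190) = true := by decide +kernel
def p12_14_0_190 : pfC (piC [(nat_lit 38167130), (nat_lit 25010362), (nat_lit 18643303), (nat_lit 12552662)] (nat_lit 25257288)) p12_14_0 (nat_lit 4) (nat_lit 190) (nat_lit 191) = true := by decide +kernel
def p12_14_0_191 : pfC (piC [(nat_lit 38167130), (nat_lit 25010362), (nat_lit 18643303), (nat_lit 12552662)] (nat_lit 25257288)) p12_14_0 (nat_lit 4) (nat_lit 191) (nat_lit 192) = true := by decide +kernel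
def p12_14_0_192 : pfC (piC [(nat_lit 38167130), (nat_lit 25010362), (nat_lit 18643303), (nat_lit 12552662)] (nat_lit 25257288)) p12_14_0 (nat_lit 4) (nat_lit 192) (nat_lit 193) = true := by decide +kernel
def p12_14_0_193 : pfC (piC [(nat_lit 38167130), (nat_lit 25010362), (nat_lit 18643303), (nat_lit 12552662)] (nat_lit 25257288)) p12_14_0 (nat_lit 4) (nat_lit 193) (nat_lit 194) = true := by decide +kernel
def p12_14_0_194 : pfC (piC [(nat_lit 38167130), (nat_lit 25010362), (nat_lit 18643303), (nat_lit 12552662)] (nat_lit 25257288)) p12_14_0 (nat_lit 4) (nat_lit 194) (nat_lit 195) = true := by decide +kernel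
def p12_14_0_195 : pfC (piC [(nat_lit 38167130), (nat_lit 25010362), (nat_lit 18643303), (nat_lit 12552662)] (nat_lit 25257288)) p12_14_0 (nat_lit 4) (nat_lit 195) (nat_lit 196) = true := by decide +kernel
def p12_14_0_196 : pfC (piC [(nat_lit 38167130), (nat_lit 25010362), (nat_lit 18643303), (nat_lit 12552662)] (nat_lit 25257288)) p12_14_0 (nat_lit 4) (nat_lit 196) (nat_lit 197) = true := by decide +kernel
def p12_14_0_197 : pfC (piC [(nat_lit 38167130), (nat_lit 25010362), (nat_lit 18643303), (nat_lit 12552662)] (nat_lit 25257288)) p12_14_0 (nat_lit 4) (nat_lit 197) (nat_lit 198) = true := by decide +kernel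
def p12_14_0_198 : pfC (piC [(nat_lit 38167130), (nat_lit 25010362), (nat_lit 18643303), (nat_lit 12552662)] (nat_lit 25257288)) p12_14_0 (nat_lit 4) (nat_lit 198) (nat_lit 199) = true := by decide +kernel
def p12_14_0_199 : pfC (piC [(nat_lit 38167130), (nat_lit 25010362), (nat_lit 18643303), (nat_lit 12552662)] (nat_lit 25257288)) p12_14_0 (nat_lit 4) (nat_lit 199) (nat_lit 200) = true := by decide +kernel
def p12_14_0_200 : pfC (piC [(nat_lit 38167130), (nat_lit 25010362), (nat_lit 18643303), (nat_lit 12552662)] (nat_lit 25257288)) p12_14_0 (nat_lit 4) (nat_lit 200) (nat_lit 201) = true := by decide +kernel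
def p12_14_0_201 : pfC (piC [(nat_lit 38167130), (nat_lit 25010362), (nat_lit 18643303), (nat_lit 12552662)] (nat_lit 25257288)) p12_14_0 (nat_lit 4) (nat_lit 201) (nat_lit 202) = true := by decide +kernel
def p12_14_0_202 : pfC (piC [(nat_lit 38167130), (nat_lit 25010362), (nat_lit 18643303), (nat_lit 12552662)] (nat_lit 25257288)) p12_14_0 (nat_lit 4) (nat_lit 202) (nat_lit 203) = true := by decide +kernel
def p12_14_0_203 : pfC (piC [(nat_lit 38167130), (nat_lit 25010362), (nat_lit 18643303), (nat_lit 12552662)] (nat_lit 25257288)) p12_14_0 (nat_lit 4) (nat_lit 203) (nat_lit 204) = true := by decide +kernel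
def p12_14_0_204 : pfC (piC [(nat_lit 38167130), (nat_lit 25010362), (nat_lit 18643303), (nat_lit 12552662)] (nat_lit 25257288)) p12_14_0 (nat_lit 4) (nat_lit 204) (nat_lit 205) = true := by decide +kernel
def p12_14_0_205 : pfC (piC [(nat_lit 38167130), (nat_lit 25010362), (nat_lit 18643303), (nat_lit 12552662)] (nat_lit 25257288)) p12_14_0 (nat_lit 4) (nat_lit 205) (nat_lit 206) = true := by decide +kernel
def p12_14_0_206 : pfC (piC [(nat_lit 38167130), (nat_lit 25010362), (nat_lit 18643303), (nat_lit 12552662)] (nat_lit 25257288)) p12_14_0 (nat_lit 4) (nat_lit 206) (nat_lit 207) = true := by decide +kernel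
def p12_14_0_207 : pfC (piC [(nat_lit 38167130), (nat_lit 25010362), (nat_lit 18643303), (nat_lit 12552662)] (nat_lit 25257288)) p12_14_0 (nat_lit 4) (nat_lit 207) (nat_lit 208) = true := by decide +kernel
def p12_14_0_208 : pfC (piC [(nat_lit 38167130), (nat_lit 25010362), (nat_lit 18643303), (nat_lit 12552662)] (nat_lit 25257288)) p12_14_0 (nat_lit 4) (nat_lit 208) (nat_lit 209) = true := by decide +kernel
def p12_14_0_209 : pfC (piC [(nat_lit 38167130), (nat_lit 25010362), (nat_lit 18643303), (nat_lit 12552662)] (nat_lit 25257288)) p12_14_0 (nat_lit 4) (nat_lit 209) (nat_lit 210) = true := by decide +kernel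
def p12_14_0_210 : pfC (piC [(nat_lit 38167130), (nat_lit 25010362), (nat_lit 18643303), (nat_lit 12552662)] (nat_lit 25257288)) p12_14_0 (nat_lit 4) (nat_lit 210) (nat_lit 211) = true := by decide +kernel
def p12_14_0_211 : pfC (piC [(nat_lit 38167130), (nat_lit 25010362), (nat_lit 18643303), (nat_lit 12552662)] (nat_lit 25257288)) p12_14_0 (nat_lit 4) (nat_lit 211) (nat_lit 212) = true := by decide +kernel
def p12_14_0_212 : pfC (piC [(nat_lit 38167130), (nat_lit 25010362), (nat_lit 18643303), (nat_lit 12552662)] (nat_lit 25257288)) p12_14_0 (nat_lit 4) (nat_lit 212) (nat_lit 213) = true := by decide +kernel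
def p12_14_0_213 : pfC (piC [(nat_lit 38167130), (nat_lit 25010362), (nat_lit 18643303), (nat_lit 12552662)] (nat_lit 25257288)) p12_14_0 (nat_lit 4) (nat_lit 213) (nat_lit 214) = true := by decide +kernel
def p12_14_0_214 : pfC (piC [(nat_lit 38167130), (nat_lit 25010362), (nat_lit 18643303), (nat_lit 12552662)] (nat_lit 25257288)) p12_14_0 (nat_lit 4) (nat_lit 214) (nat_lit 215) = true := by decide +kernel
def p12_14_0_215 : pfC (piC [(nat_lit 38167130), (nat_lit 25010362), (nat_lit 18643303), (nat_lit 12552662)] (nat_lit 25257288)) p12_14_0 (nat_lit 4) (nat_lit 215) (nat_lit 216) = true := by decide +kernel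
def p12_14_0_216 : pfC (piC [(nat_lit 38167130), (nat_lit 25010362), (nat_lit 18643303), (nat_lit 12552662)] (nat_lit 25257288)) p12_14_0 (nat_lit 4) (nat_lit 216) (nat_lit 217) = true := by decide +kernel
def p12_14_0_217 : pfC (piC [(nat_lit 38167130), (nat_lit 25010362), (nat_lit 18643303), (nat_lit 12552662)] (nat_lit 25257288)) p12_14_0 (nat_lit 4) (nat_lit 217) (nat_lit 218) = true := by decide +kernel
def p12_14_0_218 : pfC (piC [(nat_lit 38167130), (nat_lit 25010362), (nat_lit 18643303), (nat_lit 12552662)] (nat_lit 25257288)) p12_14_0 (nat_lit 4) (nat_lit 218) (nat_lit 219) = true := by decide +kernel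
def p12_14_0_219 : pfC (piC [(nat_lit 38167130), (nat_lit 25010362), (nat_lit 18643303), (nat_lit 12552662)] (nat_lit 25257288)) p12_14_0 (nat_lit 4) (nat_lit 219) (nat_lit 220) = true := by decide +kernel
def p12_14_0_220 : pfC (piC [(nat_lit 38167130), (nat_lit 25010362), (nat_lit 18643303), (nat_lit 12552662)] (nat_lit 25257288)) p12_14_0 (nat_lit 4) (nat_lit 220) (nat_lit 221) = true := by decide +kernel
def p12_14_0_221 : pfC (piC [(nat_lit 38167130), (nat_lit 25010362), (nat_lit 18643303), (nat_lit 12552662)] (nat_lit 25257288)) p12_14_0 (nat_lit 4) (nat_lit 221) (nat_lit 222) = true := by decide +kernel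
def p12_14_0_222 : pfC (piC [(nat_lit 38167130), (nat_lit 25010362), (nat_lit 18643303), (nat_lit 12552662)] (nat_lit 25257288)) p12_14_0 (nat_lit 4) (nat_lit 222) (nat_lit 223) = true := by decide +kernel
def p12_14_0_223 : pfC (piC [(nat_lit 38167130), (nat_lit 25010362), (nat_lit 18643303), (nat_lit 12552662)] (nat_lit 25257288)) p12_14_0 (nat_lit 4) (nat_lit 223) (nat_lit 224) = true := by decide +kernel
def p12_14_0_224 : pfC (piC [(nat_lit 38167130), (nat_lit 25010362), (nat_lit 18643303), (nat_lit 12552662)] (nat_lit 25257288)) p12_14_0 (nat_lit 4) (nat_lit 224) (nat_lit 225) = true := by decide +kernel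
def p12_14_0_225 : pfC (piC [(nat_lit 38167130), (nat_lit 25010362), (nat_lit 18643303), (nat_lit 12552662)] (nat_lit 25257288)) p12_14_0 (nat_lit 4) (nat_lit 225) (nat_lit 226) = true := by decide +kernel
def p12_14_0_226 : pfC (piC [(nat_lit 38167130), (nat_lit 25010362), (nat_lit 18643303), (nat_lit 12552662)] (nat_lit 25257288)) p12_14_0 (nat_lit 4) (nat_lit 226) (nat_lit 227) = true := by decide +kernel
def p12_14_0_227 : pfC (piC [(nat_lit 38167130), (nat_lit 25010362), (nat_lit 18643303), (nat_lit 12552662)] (nat_lit 25257288)) p12_14_0 (nat_lit 4) (nat_lit 227) (nat_lit 228) = true := by decide +kernel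
def p12_14_0_228 : pfC (piC [(nat_lit 38167130), (nat_lit 25010362), (nat_lit 18643303), (nat_lit 12552662)] (nat_lit 25257288)) p12_14_0 (nat_lit 4) (nat_lit 228) (nat_lit 229) = true := by decide +kernel
def p12_14_0_229 : pfC (piC [(nat_lit 38167130), (nat_lit 25010362), (nat_lit 18643303), (nat_lit 12552662)] (nat_lit 25257288)) p12_14_0 (nat_lit 4) (nat_lit 229) (nat_lit 230) = true := by decide +kernel
def p12_14_0_230 : pfC (piC [(nat_lit 38167130), (nat_lit 25010362), (nat_lit 18643303), (nat_lit 12552662)] (nat_lit 25257288)) p12_14_0 (nat_lit 4) (nat_lit 230) (nat_lit 231) = true := by decide +kernel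
def p12_14_0_231 : pfC (piC [(nat_lit 38167130), (nat_lit 25010362), (nat_lit 18643303), (nat_lit 12552662)] (nat_lit 25257288)) p12_14_0 (nat_lit 4) (nat_lit 231) (nat_lit 232) = true := by decide +kernel
def p12_14_0_232 : pfC (piC [(nat_lit 38167130), (nat_lit 25010362), (nat_lit 18643303), (nat_lit 12552662)] (nat_lit 25257288)) p12_14_0 (nat_lit 4) (nat_lit 232) (nat_lit 233) = true := by decide +kernel
def p12_14_0_233 : pfC (piC [(nat_lit 38167130), (nat_lit 25010362), (nat_lit 18643303), (nat_lit 12552662)] (nat_lit 25257288)) p12_14_0 (nat_lit 4) (nat_lit 233) (nat_lit 234) = true := by decide +kernel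
def p12_14_0_234 : pfC (piC [(nat_lit 38167130), (nat_lit 25010362), (nat_lit 18643303), (nat_lit 12552662)] (nat_lit 25257288)) p12_14_0 (nat_lit 4) (nat_lit 234) (nat_lit 235) = true := by decide +kernel
def p12_14_0_235 : pfC (piC [(nat_lit 38167130), (nat_lit 25010362), (nat_lit 18643303), (nat_lit 12552662)] (nat_lit 25257288)) p12_14_0 (nat_lit 4) (nat_lit 235) (nat_lit 236) = true := by decide +kernel
def p12_14_0_236 : pfC (piC [(nat_lit 38167130), (nat_lit 25010362), (nat_lit 18643303), (nat_lit 12552662)] (nat_lit 25257288)) p12_14_0 (nat_lit 4) (nat_lit 236) (nat_lit 237) = true := by decide +kernel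
def p12_14_0_237 : pfC (piC [(nat_lit 38167130), (nat_lit 25010362), (nat_lit 18643303), (nat_lit 12552662)] (nat_lit 25257288)) p12_14_0 (nat_lit 4) (nat_lit 237) (nat_lit 238) = true := by decide +kernel
def p12_14_0_238 : pfC (piC [(nat_lit 38167130), (nat_lit 25010362), (nat_lit 18643303), (nat_lit 12552662)] (nat_lit 25257288)) p12_14_0 (nat_lit 4) (nat_lit 238) (nat_lit 239) = true := by decide +kernel
def p12_14_0_239 : pfC (piC [(nat_lit 38167130), (nat_lit 25010362), (nat_lit 18643303), (nat_lit 12552662)] (nat_lit 25257288)) p12_14_0 (nat_lit 4) (nat_lit 239) (nat_lit 240) = true := by decide +kernel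
def p12_14_0_240 : pfC (piC [(nat_lit 38167130), (nat_lit 25010362), (nat_lit 18643303), (nat_lit 12552662)] (nat_lit 25257288)) p12_14_0 (nat_lit 4) (nat_lit 240) (nat_lit 241) = true := by decide +kernel
def p12_14_0_241 : pfC (piC [(nat_lit 38167130), (nat_lit 25010362), (nat_lit 18643303), (nat_lit 12552662)] (nat_lit 25257288)) p12_14_0 (nat_lit 4) (nat_lit 241) (nat_lit 242) = true := by decide +kernel
def p12_14_0_242 : pfC (piC [(nat_lit 38167130), (nat_lit 25010362), (nat_lit 18643303), (nat_lit 12552662)] (nat_lit 25257288)) p12_14_0 (nat_lit 4) (nat_lit 242) (nat_lit 243) = true := by decide +kernel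
def p12_14_0_243 : pfC (piC [(nat_lit 38167130), (nat_lit 25010362), (nat_lit 18643303), (nat_lit 12552662)] (nat_lit 25257288)) p12_14_0 (nat_lit 4) (nat_lit 243) (nat_lit 244) = true := by decide +kernel
def p12_14_0_244 : pfC (piC [(nat_lit 38167130), (nat_lit 25010362), (nat_lit 18643303), (nat_lit 12552662)] (nat_lit 25257288)) p12_14_0 (nat_lit 4) (nat_lit 244) (nat_lit 245) = true := by decide +kernel
def p12_14_0_245 : pfC (piC [(nat_lit 38167130), (nat_lit 25010362), (nat_lit 18643303), (nat_lit 12552662)] (nat_lit 25257288)) p12_14_0 (nat_lit 4) (nat_lit 245) (nat_lit 246) = true := by decide +kernel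
def p12_14_0_246 : pfC (piC [(nat_lit 38167130), (nat_lit 25010362), (nat_lit 18643303), (nat_lit 12552662)] (nat_lit 25257288)) p12_14_0 (nat_lit 4) (nat_lit 246) (nat_lit 247) = true := by decide +kernel
def p12_14_0_247 : pfC (piC [(nat_lit 38167130), (nat_lit 25010362), (nat_lit 18643303), (nat_lit 12552662)] (nat_lit 25257288)) p12_14_0 (nat_lit 4) (nat_lit 247) (nat_lit 248) = true := by decide +kernel
def p12_14_0_248 : pfC (piC [(nat_lit 38167130), (nat_lit 25010362), (nat_lit 18643303), (nat_lit 12552662)] (nat_lit 25257288)) p12_14_0 (nat_lit 4) (nat_lit 248) (nat_lit 249) = true := by decide +kernel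
def p12_14_0_249 : pfC (piC [(nat_lit 38167130), (nat_lit 25010362), (nat_lit 18643303), (nat_lit 12552662)] (nat_lit 25257288)) p12_14_0 (nat_lit 4) (nat_lit 249) (nat_lit 250) = true := by decide +kernel
def p12_14_0_250 : pfC (piC [(nat_lit 38167130), (nat_lit 25010362), (nat_lit 18643303), (nat_lit 12552662)] (nat_lit 25257288)) p12_14_0 (nat_lit 4) (nat_lit 250) (nat_lit 251) = true := by decide +kernel
def p12_14_0_251 : pfC (piC [(nat_lit 38167130), (nat_lit 25010362), (nat_lit 18643303), (nat_lit 12552662)] (nat_lit 25257288)) p12_14_0 (nat_lit 4) (nat_lit 251) (nat_lit 252) = true := by decide +kernel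
def p12_14_0_252 : pfC (piC [(nat_lit 38167130), (nat_lit 25010362), (nat_lit 18643303), (nat_lit 12552662)] (nat_lit 25257288)) p12_14_0 (nat_lit 4) (nat_lit 252) (nat_lit 253) = true := by decide +kernel
def p12_14_0_253 : pfC (piC [(nat_lit 38167130), (nat_lit 25010362), (nat_lit 18643303), (nat_lit 12552662)] (nat_lit 25257288)) p12_14_0 (nat_lit 4) (nat_lit 253) (nat_lit 254) = true := by decide +kernel
def p12_14_0_254 : pfC (piC [(nat_lit 38167130), (nat_lit 25010362), (nat_lit 18643303), (nat_lit 12552662)] (nat_lit 25257288)) p12_14_0 (nat_lit 4) (nat_lit 254) (nat_lit 255) = true := by decide +kernel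
def p12_14_0_255 : pfC (piC [(nat_lit 38167130), (nat_lit 25010362), (nat_lit 18643303), (nat_lit 12552662)] (nat_lit 25257288)) p12_14_0 (nat_lit 4) (nat_lit 255) (nat_lit 256) = true := by decide +kernel
def p12_14_0_256 : pfC (piC [(nat_lit 38167130), (nat_lit 25010362), (nat_lit 18643303), (nat_lit 12552662)] (nat_lit 25257288)) p12_14_0 (nat_lit 4) (nat_lit 256) (nat_lit 257) = true := by decide +kernel
def p12_14_0_257 : pfC (piC [(nat_lit 38167130), (nat_lit 25010362), (nat_lit 18643303), (nat_lit 12552662)] (nat_lit 25257288)) p12_14_0 (nat_lit 4) (nat_lit 257) (nat_lit 258) = true := by decide +kernel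
def p12_14_0_258 : pfC (piC [(nat_lit 38167130), (nat_lit 25010362), (nat_lit 18643303), (nat_lit 12552662)] (nat_lit 25257288)) p12_14_0 (nat_lit 4) (nat_lit 258) (nat_lit 259) = true := by decide +kernel
def p12_14_0_259 : pfC (piC [(nat_lit 38167130), (nat_lit 25010362), (nat_lit 18643303), (nat_lit 12552662)] (nat_lit 25257288)) p12_14_0 (nat_lit 4) (nat_lit 259) (nat_lit 260) = true := by decide +kernel
def p12_14_0_260 : pfC (piC [(nat_lit 38167130), (nat_lit 25010362), (nat_lit 18643303), (nat_lit 12552662)] (nat_lit 25257288)) p12_14_0 (nat_lit 4) (nat_lit 260) (nat_lit 261) = true := by decide +kernel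
def p12_14_0_261 : pfC (piC [(nat_lit 38167130), (nat_lit 25010362), (nat_lit 18643303), (nat_lit 12552662)] (nat_lit 25257288)) p12_14_0 (nat_lit 4) (nat_lit 261) (nat_lit 262) = true := by decide +kernel
def p12_14_0_262 : pfC (piC [(nat_lit 38167130), (nat_lit 25010362), (nat_lit 18643303), (nat_lit 12552662)] (nat_lit 25257288)) p12_14_0 (nat_lit 4) (nat_lit 262) (nat_lit 263) = true := by decide +kernel
def p12_14_0_263 : pfC (piC [(nat_lit 38167130), (nat_lit 25010362), (nat_lit 18643303), (nat_lit 12552662)] (nat_lit 25257288)) p12_14_0 (nat_lit 4) (nat_lit 263) (nat_lit 264) = true := by decide +kernel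
def p12_14_0_264 : pfC (piC [(nat_lit 38167130), (nat_lit 25010362), (nat_lit 18643303), (nat_lit 12552662)] (nat_lit 25257288)) p12_14_0 (nat_lit 4) (nat_lit 264) (nat_lit 265) = true := by decide +kernel
def p12_14_0_265 : pfC (piC [(nat_lit 38167130), (nat_lit 25010362), (nat_lit 18643303), (nat_lit 12552662)] (nat_lit 25257288)) p12_14_0 (nat_lit 4) (nat_lit 265) (nat_lit 266) = true := by decide +kernel
def p12_14_0_266 : pfC (piC [(nat_lit 38167130), (nat_lit 25010362), (nat_lit 18643303), (nat_lit 12552662)] (nat_lit 25257288)) p12_14_0 (nat_lit 4) (nat_lit 266) (nat_lit 267) = true := by decide +kernel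
def p12_14_0_267 : pfC (piC [(nat_lit 38167130), (nat_lit 25010362), (nat_lit 18643303), (nat_lit 12552662)] (nat_lit 25257288)) p12_14_0 (nat_lit 4) (nat_lit 267) (nat_lit 268) = true := by decide +kernel
def p12_14_0_268 : pfC (piC [(nat_lit 38167130), (nat_lit 25010362), (nat_lit 18643303), (nat_lit 12552662)] (nat_lit 25257288)) p12_14_0 (nat_lit 4) (nat_lit 268) (nat_lit 269) = true := by decide +kernel
def p12_14_0_269 : pfC (piC [(nat_lit 38167130), (nat_lit 25010362), (nat_lit 18643303), (nat_lit 12552662)] (nat_lit 25257288)) p12_14_0 (nat_lit 4) (nat_lit 269) (nat_lit 270) = true := by decide +kernel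
def p12_14_0_270 : pfC (piC [(nat_lit 38167130), (nat_lit 25010362), (nat_lit 18643303), (nat_lit 12552662)] (nat_lit 25257288)) p12_14_0 (nat_lit 4) (nat_lit 270) (nat_lit 271) = true := by decide +kernel
def p12_14_0_271 : pfC (piC [(nat_lit 38167130), (nat_lit 25010362), (nat_lit 18643303), (nat_lit 12552662)] (nat_lit 25257288)) p12_14_0 (nat_lit 4) (nat_lit 271) (nat_lit 272) = true := by decide +kernel
def p12_14_0_272 : pfC (piC [(nat_lit 38167130), (nat_lit 25010362), (nat_lit 18643303), (nat_lit 12552662)] (nat_lit 25257288)) p12_14_0 (nat_lit 4) (nat_lit 272) (nat_lit 273) = true := by decide +kernel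
def p12_14_0_273 : pfC (piC [(nat_lit 38167130), (nat_lit 25010362), (nat_lit 18643303), (nat_lit 12552662)] (nat_lit 25257288)) p12_14_0 (nat_lit 4) (nat_lit 273) (nat_lit 274) = true := by decide +kernel
def p12_14_0_274 : pfC (piC [(nat_lit 38167130), (nat_lit 25010362), (nat_lit 18643303), (nat_lit 12552662)] (nat_lit 25257288)) p12_14_0 (nat_lit 4) (nat_lit 274) (nat_lit 275) = true := by decide +kernel
def p12_14_0_275 : pfC (piC [(nat_lit 38167130), (nat_lit 25010362), (nat_lit 18643303), (nat_lit 12552662)] (nat_lit 25257288)) p12_14_0 (nat_lit 4) (nat_lit 275) (nat_lit 276) = true := by decide +kernel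
def p12_14_0_276 : pfC (piC [(nat_lit 38167130), (nat_lit 25010362), (nat_lit 18643303), (nat_lit 12552662)] (nat_lit 25257288)) p12_14_0 (nat_lit 4) (nat_lit 276) (nat_lit 277) = true := by decide +kernel
def p12_14_0_277 : pfC (piC [(nat_lit 38167130), (nat_lit 25010362), (nat_lit 18643303), (nat_lit 12552662)] (nat_lit 25257288)) p12_14_0 (nat_lit 4) (nat_lit 277) (nat_lit 278) = true := by decide +kernel
def p12_14_0_278 : pfC (piC [(nat_lit 38167130), (nat_lit 25010362), (nat_lit 18643303), (nat_lit 12552662)] (nat_lit 25257288)) p12_14_0 (nat_lit 4) (nat_lit 278) (nat_lit 279) = true := by decide +kernel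
def p12_14_0_279 : pfC (piC [(nat_lit 38167130), (nat_lit 25010362), (nat_lit 18643303), (nat_lit 12552662)] (nat_lit 25257288)) p12_14_0 (nat_lit 4) (nat_lit 279) (nat_lit 280) = true := by decide +kernel
def p12_14_0_280 : pfC (piC [(nat_lit 38167130), (nat_lit 25010362), (nat_lit 18643303), (nat_lit 12552662)] (nat_lit 25257288)) p12_14_0 (nat_lit 4) (nat_lit 280) (nat_lit 281) = true := by decide +kernel
def p12_14_0_281 : pfC (piC [(nat_lit 38167130), (nat_lit 25010362), (nat_lit 18643303), (nat_lit 12552662)] (nat_lit 25257288)) p12_14_0 (nat_lit 4) (nat_lit 281) (nat_lit 282) = true := by decide +kernel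
def p12_14_0_282 : pfC (piC [(nat_lit 38167130), (nat_lit 25010362), (nat_lit 18643303), (nat_lit 12552662)] (nat_lit 25257288)) p12_14_0 (nat_lit 4) (nat_lit 282) (nat_lit 283) = true := by decide +kernel
def p12_14_0_283 : pfC (piC [(nat_lit 38167130), (nat_lit 25010362), (nat_lit 18643303), (nat_lit 12552662)] (nat_lit 25257288)) p12_14_0 (nat_lit 4) (nat_lit 283) (nat_lit 284) = true := by decide +kernel
def p12_14_0_284 : pfC (piC [(nat_lit 38167130), (nat_lit 25010362), (nat_lit 18643303), (nat_lit 12552662)] (nat_lit 25257288)) p12_14_0 (nat_lit 4) (nat_lit 284) (nat_lit 285) = true := by decide +kernel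
def p12_14_0_285 : pfC (piC [(nat_lit 38167130), (nat_lit 25010362), (nat_lit 18643303), (nat_lit 12552662)] (nat_lit 25257288)) p12_14_0 (nat_lit 4) (nat_lit 285) (nat_lit 286) = true := by decide +kernel
def p12_14_0_286 : pfC (piC [(nat_lit 38167130), (nat_lit 25010362), (nat_lit 18643303), (nat_lit 12552662)] (nat_lit 25257288)) p12_14_0 (nat_lit 4) (nat_lit 286) (nat_lit 287) = true := by decide +kernel
def p12_14_0_287 : pfC (piC [(nat_lit 38167130), (nat_lit 25010362), (nat_lit 18643303), (nat_lit 12552662)] (nat_lit 25257288)) p12_14_0 (nat_lit 4) (nat_lit 287) (nat_lit 288) = true := by decide +kernel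
def p12_14_0_288 : pfC (piC [(nat_lit 38167130), (nat_lit 25010362), (nat_lit 18643303), (nat_lit 12552662)] (nat_lit 25257288)) p12_14_0 (nat_lit 4) (nat_lit 288) (nat_lit 289) = true := by decide +kernel
def p12_14_0_289 : pfC (piC [(nat_lit 38167130), (nat_lit 25010362), (nat_lit 18643303), (nat_lit 12552662)] (nat_lit 25257288)) p12_14_0 (nat_lit 4) (nat_lit 289) (nat_lit 290) = true := by decide +kernel
def p12_14_0_290 : pfC (piC [(nat_lit 38167130), (nat_lit 25010362), (nat_lit 18643303), (nat_lit 12552662)] (nat_lit 25257288)) p12_14_0 (nat_lit 4) (nat_lit 290) (nat_lit 291) = true := by decide +kernel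
def p12_14_0_291 : pfC (piC [(nat_lit 38167130), (nat_lit 25010362), (nat_lit 18643303), (nat_lit 12552662)] (nat_lit 25257288)) p12_14_0 (nat_lit 4) (nat_lit 291) (nat_lit 292) = true := by decide +kernel
theorem p12_14_0_T : PfS (PiF n12_14.reverse (nat_lit 25257288)) p12_14_0 (nat_lit 4) [] 0 :=
  pftab_of (los := [(nat_lit 38167130), (nat_lit 25010362), (nat_lit 18643303), (nat_lit 12552662)]) (by decide +kernel) (hi := (nat_lit 292)) (PfP.trans (PfP.trans (PfP.trans (PfP.trans (PfP.trans (PfP.trans (PfP.trans (PfP.trans (PfP.trans (PfP.trans (PfP.trans (PfP.trans (PfP.trans (PfP.trans (PfP.trans (PfP.trans (PfP.trans (PfP.trans (PfP.trans (PfP.trans (PfP.trans (PfP.trans (PfP.trans (PfP.trans (PfP.trans (PfP.trans (PfP.trans (PfP.trans (PfP.trans (PfP.trans (PfP.trans (PfP.trans (PfP.trans (PfP.trans (PfP.trans (PfP.trans (PfP.trans (PfP.trans (PfP.trans (PfP.trans (PfP.trans (PfP.trans (PfP.trans (PfP.trans (PfP.trans (PfP.trans (PfP.trans (PfP.trans (PfP.trans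 (PfP.trans (PfP.trans (PfP.trans (PfP.trans (PfP.trans (PfP.trans (PfP.trans (PfP.trans (PfP.trans (PfP.trans (PfP.trans (PfP.trans (PfP.trans (PfP.trans (PfP.trans (PfP.trans (PfP.trans (PfP.trans (PfP.trans (PfP.trans (PfP.trans (PfP.trans (PfP.trans (PfP.trans (PfP.trans (PfP.trans (PfP.trans (PfP.trans (PfP.trans (PfP.trans (PfP.trans (PfP.trans (PfP.trans (PfP.trans (PfP.trans (PfP.trans (PfP.trans (PfP.trans (PfP.trans (PfP.trans (PfP.trans (PfP.trans (PfP.trans (PfP.trans (PfP.trans (PfP.trans (PfP.trans (PfP.trans (PfP.trans (PfP.trans (PfP.trans (PfP.trans (PfP.trans (PfP.trans (PfP.trans (PfP.trans (PfP.trans (PfP.trans (PfP.trans (PfP.trans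
 (PfP.trans (PfP.trans (PfP.trans (PfP.trans (PfP.trans (PfP.trans (PfP.trans (PfP.trans (PfP.trans (PfP.trans (PfP.trans (PfP.trans (PfP.trans (PfP.trans (PfP.trans (PfP.trans (PfP.trans (PfP.trans (PfP.trans (PfP.trans (PfP.trans (PfP.trans (PfP.trans (PfP.trans (PfP.trans (PfP.trans (PfP.trans (PfP.trans (PfP.trans (PfP.trans (PfP.trans (PfP.trans (PfP.trans (PfP.trans (PfP.trans (PfP.trans (PfP.trans (PfP.trans (PfP.trans (PfP.trans (PfP.trans (PfP.trans (PfP.trans (PfP.trans (PfP.trans (PfP.trans (PfP.trans (PfP.trans (PfP.trans (PfP.trans (PfP.trans (PfP.trans (PfP.trans (PfP.trans (PfP.trans (PfP.trans (PfP.trans (PfP.trans (PfP.trans (PfP.trans (PfP.trans (PfP.trans (PfP.trans (PfP.trans (PfP.trans (PfP.trans (PfP.trans (PfP.trans (PfP.trans (PfP.trans (PfP.trans (PfP.trans (PfP.trans (PfP.trans (PfP.trans (PfP.trans (PfP.trans (PfP.trans (PfP.trans (PfP.trans (PfP.trans (PfP.trans (PfP.trans (PfP.trans (PfP.trans (PfP.trans (PfP.trans (PfP.trans (PfP.trans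 (PfP.trans (PfP.trans (PfP.trans (PfP.trans (PfP.trans (PfP.trans (PfP.trans (PfP.trans (PfP.trans (PfP.trans (PfP.trans (PfP.trans (PfP.trans (PfP.trans (PfP.trans (PfP.trans (PfP.trans (PfP.trans (PfP.trans (PfP.trans
 (PfP.trans (PfP.trans (PfP.trans (PfP.trans (PfP.trans (PfP.trans (PfP.trans (PfP.trans (PfP.trans (PfP.trans (PfP.trans (PfP.trans (PfP.trans (PfP.trans (PfP.trans (PfP.trans (PfP.trans (PfP.trans (PfP.trans (PfP.trans (PfP.trans (PfP.trans (PfP.trans (PfP.trans (PfP.trans (PfP.trans (PfP.trans (PfP.trans (PfP.trans (PfP.trans (PfP.trans (PfP.trans (PfP.trans (PfP.trans (PfP.trans (PfP.trans (PfP.trans (PfP.trans (PfP.trans (PfP.trans (PfP.trans (PfP.trans (PfP.trans (PfP.trans (PfP.trans (PfP.trans (PfP.trans (PfP.trans (PfP.trans (PfP.trans (PfP.trans (PfP.trans (PfP.trans (PfP.trans (PfP.trans (PfP.trans (PfP.trans (PfP.trans (PfP.trans (PfP.trans (PfP.trans (PfP.trans (PfP.trans (PfP.trans (PfP.trans (PfP.trans (PfP.trans (PfP.trans (PfP.trans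 (PfP.trans (PfP.trans (PfP.trans (PfP.trans (pfC_sound p12_14_0_0) (pfC_sound p12_14_0_1)) (pfC_sound p12_14_0_2)) (pfC_sound p12_14_0_3)) (pfC_sound p12_14_0_4)) (pfC_sound p12_14_0_5)) (pfC_sound p12_14_0_6)) (pfC_sound p12_14_0_7)) (pfC_sound p12_14_0_8)) (pfC_sound p12_14_0_9)) (pfC_sound p12_14_0_10)) (pfC_sound p12_14_0_11)) (pfC_sound p12_14_0_12)) (pfC_sound p12_14_0_13)) (pfC_sound p12_14_0_14)) (pfC_sound p12_14_0_15))
 (pfC_sound p12_14_0_16)) (pfC_sound p12_14_0_17)) (pfC_sound p12_14_0_18)) (pfC_sound p12_14_0_19)) (pfC_sound p12_14_0_20)) (pfC_sound p12_14_0_21)) (pfC_sound p12_14_0_22)) (pfC_sound p12_14_0_23)) (pfC_sound p12_14_0_24)) (pfC_sound p12_14_0_25)) (pfC_sound p12_14_0_26)) (pfC_sound p12_14_0_27)) (pfC_sound p12_14_0_28)) (pfC_sound p12_14_0_29)) (pfC_sound p12_14_0_30)) (pfC_sound p12_14_0_31)) (pfC_sound p12_14_0_32)) (pfC_sound p12_14_0_33)) (pfC_sound p12_14_0_34)) (pfC_sound p12_14_0_35)) (pfC_sound p12_14_0_36)) (pfC_sound p12_14_0_37))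 (pfC_sound p12_14_0_38)) (pfC_sound p12_14_0_39)) (pfC_sound p12_14_0_40)) (pfC_sound p12_14_0_41)) (pfC_sound p12_14_0_42)) (pfC_sound p12_14_0_43)) (pfC_sound p12_14_0_44)) (pfC_sound p12_14_0_45)) (pfC_sound p12_14_0_46)) (pfC_sound p12_14_0_47)) (pfC_sound p12_14_0_48)) (pfC_sound p12_14_0_49)) (pfC_sound p12_14_0_50)) (pfC_sound p12_14_0_51)) (pfC_sound p12_14_0_52)) (pfC_sound p12_14_0_53)) (pfC_sound p12_14_0_54)) (pfC_sound p12_14_0_55)) (pfC_sound p12_14_0_56)) (pfC_sound p12_14_0_57)) (pfC_sound p12_14_0_58)) (pfC_sound p12_14_0_59)) (pfC_sound p12_14_0_60)) (pfC_sound p12_14_0_61)) (pfC_sound p12_14_0_62)) (pfC_sound p12_14_0_63))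
 (pfC_sound p12_14_0_64)) (pfC_sound p12_14_0_65)) (pfC_sound p12_14_0_66)) (pfC_sound p12_14_0_67)) (pfC_sound p12_14_0_68)) (pfC_sound p12_14_0_69)) (pfC_sound p12_14_0_70)) (pfC_sound p12_14_0_71)) (pfC_sound p12_14_0_72)) (pfC_sound p12_14_0_73)) (pfC_sound p12_14_0_74)) (pfC_sound p12_14_0_75)) (pfC_sound p12_14_0_76)) (pfC_sound p12_14_0_77)) (pfC_sound p12_14_0_78)) (pfC_sound p12_14_0_79)) (pfC_sound p12_14_0_80)) (pfC_sound p12_14_0_81)) (pfC_sound p12_14_0_82)) (pfC_sound p12_14_0_83)) (pfC_sound p12_14_0_84)) (pfC_sound p12_14_0_85)) (pfC_sound p12_14_0_86)) (pfC_sound p12_14_0_87)) (pfC_sound p12_14_0_88)) (pfC_sound p12_14_0_89)) (pfC_sound p12_14_0_90)) (pfC_sound p12_14_0_91)) (pfC_sound p12_14_0_92)) (pfC_sound p12_14_0_93)) (pfC_sound p12_14_0_94)) (pfC_sound p12_14_0_95)) (pfC_sound p12_14_0_96)) (pfC_sound p12_14_0_97)) (pfC_sound p12_14_0_98)) (pfC_sound p12_14_0_99)) (pfC_sound p12_14_0_100)) (pfC_sound p12_14_0_101)) (pfC_sound p12_14_0_102))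 (pfC_sound p12_14_0_103)) (pfC_sound p12_14_0_104)) (pfC_sound p12_14_0_105)) (pfC_sound p12_14_0_106)) (pfC_sound p12_14_0_107)) (pfC_sound p12_14_0_108)) (pfC_sound p12_14_0_109)) (pfC_sound p12_14_0_110)) (pfC_sound
 p12_14_0_111)) (pfC_sound p12_14_0_112)) (pfC_sound p12_14_0_113)) (pfC_sound p12_14_0_114)) (pfC_sound p12_14_0_115)) (pfC_sound p12_14_0_116)) (pfC_sound p12_14_0_117)) (pfC_sound p12_14_0_118)) (pfC_sound p12_14_0_119)) (pfC_sound p12_14_0_120)) (pfC_sound p12_14_0_121)) (pfC_sound p12_14_0_122)) (pfC_sound p12_14_0_123)) (pfC_sound p12_14_0_124)) (pfC_sound p12_14_0_125)) (pfC_sound p12_14_0_126)) (pfC_sound p12_14_0_127)) (pfC_sound p12_14_0_128)) (pfC_sound p12_14_0_129)) (pfC_sound p12_14_0_130)) (pfC_sound p12_14_0_131)) (pfC_sound p12_14_0_132)) (pfC_sound p12_14_0_133)) (pfC_sound p12_14_0_134)) (pfC_sound p12_14_0_135)) (pfC_sound p12_14_0_136)) (pfC_sound p12_14_0_137)) (pfC_sound p12_14_0_138)) (pfC_sound p12_14_0_139)) (pfC_sound p12_14_0_140))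 (pfC_sound p12_14_0_141)) (pfC_sound p12_14_0_142)) (pfC_sound p12_14_0_143)) (pfC_sound p12_14_0_144)) (pfC_sound p12_14_0_145)) (pfC_sound p12_14_0_146)) (pfC_sound p12_14_0_147)) (pfC_sound p12_14_0_148)) (pfC_sound p12_14_0_149)) (pfC_sound p12_14_0_150)) (pfC_sound p12_14_0_151)) (pfC_sound p12_14_0_152)) (pfC_sound p12_14_0_153)) (pfC_sound p12_14_0_154)) (pfC_sound p12_14_0_155)) (pfC_sound p12_14_0_156)) (pfC_sound
 p12_14_0_157)) (pfC_sound p12_14_0_158)) (pfC_sound p12_14_0_159)) (pfC_sound p12_14_0_160)) (pfC_sound p12_14_0_161)) (pfC_sound p12_14_0_162)) (pfC_sound p12_14_0_163)) (pfC_sound p12_14_0_164)) (pfC_sound p12_14_0_165)) (pfC_sound p12_14_0_166)) (pfC_sound p12_14_0_167)) (pfC_sound p12_14_0_168)) (pfC_sound p12_14_0_169)) (pfC_sound p12_14_0_170)) (pfC_sound p12_14_0_171)) (pfC_sound p12_14_0_172)) (pfC_sound p12_14_0_173)) (pfC_sound p12_14_0_174)) (pfC_sound p12_14_0_175)) (pfC_sound p12_14_0_176)) (pfC_sound p12_14_0_177)) (pfC_sound p12_14_0_178))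 (pfC_sound p12_14_0_179)) (pfC_sound p12_14_0_180)) (pfC_sound p12_14_0_181)) (pfC_sound p12_14_0_182)) (pfC_sound p12_14_0_183)) (pfC_sound p12_14_0_184)) (pfC_sound p12_14_0_185)) (pfC_sound p12_14_0_186)) (pfC_sound p12_14_0_187)) (pfC_sound p12_14_0_188)) (pfC_sound p12_14_0_189)) (pfC_sound p12_14_0_190)) (pfC_sound p12_14_0_191)) (pfC_sound p12_14_0_192)) (pfC_sound p12_14_0_193)) (pfC_sound p12_14_0_194)) (pfC_sound p12_14_0_195)) (pfC_sound p12_14_0_196)) (pfC_sound p12_14_0_197)) (pfC_sound p12_14_0_198)) (pfC_sound p12_14_0_199)) (pfC_sound p12_14_0_200)) (pfC_sound p12_14_0_201)) (pfC_sound p12_14_0_202)) (pfC_sound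
 p12_14_0_203)) (pfC_sound p12_14_0_204)) (pfC_sound p12_14_0_205)) (pfC_sound p12_14_0_206)) (pfC_sound p12_14_0_207)) (pfC_sound p12_14_0_208)) (pfC_sound p12_14_0_209)) (pfC_sound p12_14_0_210)) (pfC_sound p12_14_0_211)) (pfC_sound p12_14_0_212)) (pfC_sound p12_14_0_213)) (pfC_sound p12_14_0_214)) (pfC_sound p12_14_0_215)) (pfC_sound p12_14_0_216)) (pfC_sound p12_14_0_217)) (pfC_sound p12_14_0_218)) (pfC_sound p12_14_0_219)) (pfC_sound p12_14_0_220)) (pfC_sound p12_14_0_221)) (pfC_sound p12_14_0_222)) (pfC_sound p12_14_0_223)) (pfC_sound p12_14_0_224)) (pfC_sound p12_14_0_225)) (pfC_sound p12_14_0_226)) (pfC_sound p12_14_0_227)) (pfC_sound p12_14_0_228)) (pfC_sound p12_14_0_229)) (pfC_sound p12_14_0_230)) (pfC_sound p12_14_0_231)) (pfC_sound p12_14_0_232)) (pfC_sound p12_14_0_233)) (pfC_sound p12_14_0_234)) (pfC_sound p12_14_0_235)) (pfC_sound p12_14_0_236)) (pfC_sound p12_14_0_237)) (pfC_sound p12_14_0_238)) (pfC_sound p12_14_0_239)) (pfC_sound p12_14_0_240)) (pfC_sound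 p12_14_0_241)) (pfC_sound p12_14_0_242)) (pfC_sound p12_14_0_243)) (pfC_sound p12_14_0_244)) (pfC_sound p12_14_0_245)) (pfC_sound p12_14_0_246)) (pfC_sound p12_14_0_247)) (pfC_sound p12_14_0_248)) (pfC_sound
 p12_14_0_249)) (pfC_sound p12_14_0_250)) (pfC_sound p12_14_0_251)) (pfC_sound p12_14_0_252)) (pfC_sound p12_14_0_253)) (pfC_sound p12_14_0_254)) (pfC_sound p12_14_0_255)) (pfC_sound p12_14_0_256)) (pfC_sound p12_14_0_257)) (pfC_sound p12_14_0_258)) (pfC_sound p12_14_0_259)) (pfC_sound p12_14_0_260)) (pfC_sound p12_14_0_261)) (pfC_sound p12_14_0_262)) (pfC_sound p12_14_0_263)) (pfC_sound p12_14_0_264)) (pfC_sound p12_14_0_265)) (pfC_sound p12_14_0_266)) (pfC_sound p12_14_0_267)) (pfC_sound p12_14_0_268)) (pfC_sound p12_14_0_269)) (pfC_sound p12_14_0_270)) (pfC_sound p12_14_0_271)) (pfC_sound p12_14_0_272)) (pfC_sound p12_14_0_273)) (pfC_sound p12_14_0_274)) (pfC_sound p12_14_0_275)) (pfC_sound p12_14_0_276)) (pfC_sound p12_14_0_277)) (pfC_sound p12_14_0_278)) (pfC_sound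 p12_14_0_279)) (pfC_sound p12_14_0_280)) (pfC_sound p12_14_0_281)) (pfC_sound p12_14_0_282)) (pfC_sound p12_14_0_283)) (pfC_sound p12_14_0_284)) (pfC_sound p12_14_0_285)) (pfC_sound p12_14_0_286)) (pfC_sound p12_14_0_287)) (pfC_sound p12_14_0_288)) (pfC_sound p12_14_0_289)) (pfC_sound p12_14_0_290)) (pfC_sound p12_14_0_291)) (by decide +kernel)

def z12_14_0 : zOK yB12_14 (nat_lit 0) (nat_lit 0) (nat_lit 400) (nat_lit 25257288) (nat_lit 10996129) = true := by decide +kernel
def g12_14_0 : gOK yB12_14.x P12_14 (nat_lit 1409) (q12_14 :: r12_14) (nat_lit 0) (nat_lit 0) (nat_lit 1) (nat_lit 400) (nat_lit 0) (nat_lit 11000000) (nat_lit 12712500) (nat_lit 12712500) [(nat_lit 800), (nat_lit 1600)] = true := by decide +kernel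
def v12_14_0 : ivC P12_14 s12_14 w12_14 n12_14 (nat_lit 4) (nat_lit 5380) (nat_lit 0) (nat_lit 0) f160_1_0 f168_1_0 (nat_lit 1) (nat_lit 400) f160_1_400 f168_1_400 (nat_lit 25257288) (nat_lit 10996129) p12_14_0 = true := by decide +kernel
def p12_14_1 : PF := (PF.cons (PF.cons (PF.cons (PF.cons (PF.leaf (nat_lit 1981967) (nat_lit 9081806) (nat_lit 58027006) (nat_lit 9081806) [(nat_lit 0), (nat_lit 0), (nat_lit 0), (nat_lit 0)]) (PF.cons (PF.leaf (nat_lit 2161649) (nat_lit 309456) (nat_lit 57686112) (nat_lit 9113243) [(nat_lit 309456), (nat_lit 0), (nat_lit 0), (nat_lit 0)]) (PF.cons (PF.leaf (nat_lit 2374467) (nat_lit 337148) (nat_lit 57287245) (nat_lit 9147270) [(nat_lit 337148), (nat_lit 0), (nat_lit 0), (nat_lit 0)]) (PF.cons (PF.leaf (nat_lit 2613896) (nat_lit 361888) (nat_lit 56841144) (nat_lit 9182003) [(nat_lit 361888), (nat_lit 0), (nat_lit 0), (nat_lit 0)]) (PF.cons (PF.leaf (nat_lit 2876243) (nat_lit 384321) (nat_lit 56355488) (nat_lit 9216039) [(nat_lit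 384321), (nat_lit 0), (nat_lit 0), (nat_lit 0)]) (PF.cons (PF.leaf (nat_lit 3158698) (nat_lit 404849) (nat_lit 55836263) (nat_lit 9248303) [(nat_lit 404849), (nat_lit 0), (nat_lit 0), (nat_lit 0)]) (PF.cons (PF.leaf (nat_lit 3458805) (nat_lit 423742) (nat_lit 55288399) (nat_lit 9277960) [(nat_lit 423742), (nat_lit 0), (nat_lit 0), (nat_lit 0)]) (PF.cons (PF.leaf (nat_lit 3774543) (nat_lit 441190) (nat_lit 54716103) (nat_lit 9304372) [(nat_lit 441190), (nat_lit 0), (nat_lit
 0), (nat_lit 0)]) (PF.cons (PF.leaf (nat_lit 4104110) (nat_lit 457337) (nat_lit 54123053) (nat_lit 9327060) [(nat_lit 457337), (nat_lit 0), (nat_lit 0), (nat_lit 0)]) (PF.cons PF.nil PF.nil)))))))))) (PF.cons (PF.cons (PF.leaf (nat_lit 2571721) (nat_lit 1355004) (nat_lit 56559447) (nat_lit 9194361) [(nat_lit 0), (nat_lit 1355004), (nat_lit 0), (nat_lit 0)]) (PF.cons (PF.leaf (nat_lit 2804412) (nat_lit 373476) (nat_lit 56118716) (nat_lit 9223413) [(nat_lit 373476), (nat_lit 1393206), (nat_lit 0),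 (nat_lit 0)]) (PF.cons (PF.leaf (nat_lit 3062247) (nat_lit 395147) (nat_lit 55636144) (nat_lit 9251806) [(nat_lit 395147), (nat_lit 1430567), (nat_lit 0), (nat_lit 0)]) (PF.cons (PF.leaf (nat_lit 3340850) (nat_lit 414892) (nat_lit 55119200) (nat_lit 9278442) [(nat_lit 414892), (nat_lit 1466494), (nat_lit 0), (nat_lit 0)]) (PF.cons (PF.leaf (nat_lit 3637459) (nat_lit 433012) (nat_lit 54573577) (nat_lit 9302509) [(nat_lit 433012), (nat_lit 1500675), (nat_lit 0), (nat_lit 0)]) (PF.cons (PF.leaf (nat_lit 3949804) (nat_lit 449712) (nat_lit 54003895) (nat_lit 9323404) [(nat_lit 449712), (nat_lit 1532949), (nat_lit 0), (nat_lit 0)]) (PF.cons (PF.leaf (nat_lit 4275940) (nat_lit 465139) (nat_lit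
 53414054) (nat_lit 9340684) [(nat_lit 465139), (nat_lit 1563237), (nat_lit 0), (nat_lit 0)]) (PF.cons (PF.leaf (nat_lit 4614143) (nat_lit 479404) (nat_lit 52807432) (nat_lit 9354034) [(nat_lit 479404), (nat_lit 1591514), (nat_lit 0), (nat_lit 0)]) (PF.cons PF.nil PF.nil))))))))) (PF.cons (PF.cons (PF.leaf (nat_lit 3251977) (nat_lit 1463996) (nat_lit 54899839) (nat_lit 9280979) [(nat_lit 0), (nat_lit 1463996), (nat_lit 0), (nat_lit 0)]) (PF.cons (PF.leaf (nat_lit 3524351) (nat_lit 423602) (nat_lit 54390275) (nat_lit 9302116) [(nat_lit 423602), (nat_lit 1496409), (nat_lit 0), (nat_lit 0)]) (PF.cons (PF.leaf (nat_lit 3816143) (nat_lit 441139) (nat_lit 53850745) (nat_lit 9320797) [(nat_lit 441139), (nat_lit 1527495), (nat_lit 0), (nat_lit 0)]) (PF.cons (PF.leaf (nat_lit 4124116) (nat_lit 457232) (nat_lit 53286712) (nat_lit 9336425) [(nat_lit 457232), (nat_lit 1556989), (nat_lit 0), (nat_lit 0)]) (PF.cons (PF.leaf (nat_lit 4446076) (nat_lit 472048) (nat_lit 52702544) (nat_lit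 9348577) [(nat_lit 472048), (nat_lit 1584748), (nat_lit 0), (nat_lit 0)]) (PF.cons (PF.leaf (nat_lit 4780152) (nat_lit 485712) (nat_lit 52101879) (nat_lit 9356961) [(nat_lit 485712), (nat_lit 1610703), (nat_lit
 0), (nat_lit 0)]) (PF.cons PF.nil PF.nil))))))) (PF.cons (PF.cons (PF.leaf (nat_lit 3996410) (nat_lit 1552031) (nat_lit 53119698) (nat_lit 9333019) [(nat_lit 0), (nat_lit 1552031), (nat_lit 0), (nat_lit 0)]) (PF.cons (PF.leaf (nat_lit 4298307) (nat_lit 463766) (nat_lit 52564703) (nat_lit 9343661) [(nat_lit 463766), (nat_lit 1578893), (nat_lit 0), (nat_lit 0)]) (PF.cons (PF.leaf (nat_lit 4615168) (nat_lit 478088) (nat_lit 51988844) (nat_lit 9350986) [(nat_lit 478088), (nat_lit 1604268), (nat_lit 0), (nat_lit 0)]) (PF.cons (PF.leaf (nat_lit 4944418) (nat_lit 491242) (nat_lit 51396251) (nat_lit 9354716) [(nat_lit 491242), (nat_lit 1628038), (nat_lit 0), (nat_lit 0)]) (PF.cons (PF.leaf (nat_lit 5284326) (nat_lit 503340) (nat_lit 50790325) (nat_lit 9354677) [(nat_lit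 503340), (nat_lit 1650149), (nat_lit 0), (nat_lit 0)]) PF.nil))))) (PF.cons (PF.cons (PF.leaf (nat_lit 4784391) (nat_lit 1621954) (nat_lit 51272856) (nat_lit 9348136) [(nat_lit 0), (nat_lit 1621954), (nat_lit 0), (nat_lit 0)]) (PF.cons (PF.leaf (nat_lit 5107613) (nat_lit 496006) (nat_lit 50690645) (nat_lit 9347538) [(nat_lit 496006), (nat_lit 1643655), (nat_lit 0), (nat_lit 0)]) (PF.cons (PF.leaf (nat_lit 5442181) (nat_lit
 507673) (nat_lit 50094659) (nat_lit 9343354) [(nat_lit 507673), (nat_lit 1663862), (nat_lit 0), (nat_lit 0)]) (PF.cons PF.nil PF.nil)))) (PF.cons (PF.cons (PF.leaf (nat_lit 5599277) (nat_lit 1676081) (nat_lit 49400762) (nat_lit 9327644) [(nat_lit 0), (nat_lit 1676081), (nat_lit 0), (nat_lit 0)]) (PF.cons (PF.leaf (nat_lit 5937113) (nat_lit 521652) (nat_lit 48805546) (nat_lit 9316165) [(nat_lit 521652), (nat_lit 1693089), (nat_lit 0), (nat_lit 0)]) PF.nil)) (PF.cons PF.nil (PF.cons PF.nil PF.nil)))))))) (PF.cons (PF.cons (PF.cons (PF.leaf (nat_lit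 3165822) (nat_lit 3504862) (nat_lit 54335472) (nat_lit 9268478) [(nat_lit 0), (nat_lit 0), (nat_lit 3504862), (nat_lit 0)]) (PF.cons (PF.leaf (nat_lit 3409618) (nat_lit 402207) (nat_lit 53881607) (nat_lit 9285143) [(nat_lit 402207), (nat_lit 0), (nat_lit 3539854), (nat_lit 0)]) (PF.cons (PF.leaf (nat_lit 3677127) (nat_lit 422361) (nat_lit 53389105) (nat_lit 9300243) [(nat_lit 422361), (nat_lit 0), (nat_lit 3574740), (nat_lit 0)]) (PF.cons (PF.leaf (nat_lit 3963846) (nat_lit 440442) (nat_lit 52865835) (nat_lit 9313017) [(nat_lit 440442), (nat_lit 0), (nat_lit 3608631), (nat_lit 0)]) (PF.cons (PF.leaf (nat_lit 4266887) (nat_lit 456826)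
 (nat_lit 52317636) (nat_lit 9322923) [(nat_lit 456826), (nat_lit 0), (nat_lit 3640945), (nat_lit 0)]) (PF.cons (PF.leaf (nat_lit 4583940) (nat_lit 471762) (nat_lit 51749125) (nat_lit 9329579) [(nat_lit 471762), (nat_lit 0), (nat_lit 3671294), (nat_lit 0)]) (PF.cons (PF.leaf (nat_lit 4913069) (nat_lit 485427) (nat_lit 51164101) (nat_lit 9332722) [(nat_lit 485427), (nat_lit 0), (nat_lit 3699425), (nat_lit 0)]) (PF.cons PF.nil (PF.cons PF.nil PF.nil))))))))) (PF.cons (PF.cons (PF.leaf (nat_lit 3861020) (nat_lit 1531038) (nat_lit 52657712) (nat_lit 9310032) [(nat_lit 0), (nat_lit 1531038), (nat_lit 3610028), (nat_lit 0)]) (PF.cons (PF.leaf (nat_lit 4140232) (nat_lit 446759) (nat_lit 52145883) (nat_lit 9318240) [(nat_lit 446759), (nat_lit 1558167), (nat_lit 3639760), (nat_lit 0)]) (PF.cons (PF.leaf (nat_lit 4437322) (nat_lit 462738) (nat_lit 51607440) (nat_lit 9323697) [(nat_lit 462738), (nat_lit 1583966), (nat_lit 3668231), (nat_lit 0)]) (PF.cons (PF.leaf (nat_lit 4749037)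 (nat_lit 477222) (nat_lit 51047876) (nat_lit 9326030) [(nat_lit 477222), (nat_lit 1608240), (nat_lit 3694998), (nat_lit 0)]) (PF.cons (PF.leaf (nat_lit 5073164) (nat_lit 490416) (nat_lit 50471480) (nat_lit 9324995)
 [(nat_lit 490416), (nat_lit 1630897), (nat_lit 3719774), (nat_lit 0)]) (PF.cons (PF.leaf (nat_lit 5407913) (nat_lit 502468) (nat_lit 49881754) (nat_lit 9320440) [(nat_lit 502468), (nat_lit 1651897), (nat_lit 3742377), (nat_lit 0)]) (PF.cons PF.nil PF.nil))))))) (PF.cons (PF.cons (PF.leaf (nat_lit 4609269) (nat_lit 1602295) (nat_lit 50892683) (nat_lit 9319315) [(nat_lit 0), (nat_lit 1602295), (nat_lit 3692223), (nat_lit 0)]) (PF.cons (PF.leaf (nat_lit 4914054) (nat_lit 481826) (nat_lit 50344978) (nat_lit 9317641) [(nat_lit 481826), (nat_lit 1624387), (nat_lit 3715590), (nat_lit 0)]) (PF.cons (PF.leaf (nat_lit 5232358) (nat_lit 494656) (nat_lit 49779424) (nat_lit 9312740) [(nat_lit 494656), (nat_lit 1645067), (nat_lit 3737199), (nat_lit 0)]) (PF.cons (PF.leaf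 (nat_lit 5561659) (nat_lit 506317) (nat_lit 49200024) (nat_lit 9304476) [(nat_lit 506317), (nat_lit 1664257), (nat_lit 3756842), (nat_lit 0)]) (PF.cons PF.nil PF.nil))))) (PF.cons (PF.cons (PF.leaf (nat_lit 5391765) (nat_lit 1657737) (nat_lit 49087571) (nat_lit 9296142) [(nat_lit 0), (nat_lit 1657737), (nat_lit 3751885), (nat_lit 0)]) (PF.cons (PF.leaf (nat_lit 5714497) (nat_lit 509502) (nat_lit 48520443) (nat_lit 9284488)
 [(nat_lit 509502), (nat_lit 1675212), (nat_lit 3768742), (nat_lit 0)]) (PF.cons (PF.leaf (nat_lit 6047310) (nat_lit 519798) (nat_lit 47942039) (nat_lit 9269558) [(nat_lit 519798), (nat_lit 1691308), (nat_lit 3783692), (nat_lit 0)]) (PF.cons PF.nil PF.nil)))) (PF.cons (PF.cons (PF.leaf (nat_lit 6193782) (nat_lit 1699459) (nat_lit 47277445) (nat_lit 9242788) [(nat_lit 0), (nat_lit 1699459), (nat_lit 3790741), (nat_lit 0)]) (PF.cons (PF.leaf (nat_lit 6528360) (nat_lit 531135) (nat_lit 46703299) (nat_lit 9221809) [(nat_lit 531135), (nat_lit 1712785),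 (nat_lit 3801428), (nat_lit 0)]) PF.nil)) (PF.cons PF.nil PF.nil)))))) (PF.cons (PF.cons (PF.cons (PF.leaf (nat_lit 4455918) (nat_lit 3673879) (nat_lit 50471388) (nat_lit 9289665) [(nat_lit 0), (nat_lit 0), (nat_lit 3673879), (nat_lit 0)]) (PF.cons (PF.leaf (nat_lit 4739102) (nat_lit 464881) (nat_lit 49965023) (nat_lit 9286948) [(nat_lit 464881), (nat_lit 0), (nat_lit 3695980), (nat_lit 0)]) (PF.cons (PF.leaf (nat_lit 5038816) (nat_lit 479449) (nat_lit 49435016) (nat_lit 9281355) [(nat_lit 479449), (nat_lit 0), (nat_lit 3716770), (nat_lit 0)]) (PF.cons (PF.leaf (nat_lit 5351786) (nat_lit 492497) (nat_lit 48886775) (nat_lit 9272698)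
 [(nat_lit 492497), (nat_lit 0), (nat_lit 3735922), (nat_lit 0)]) (PF.cons (PF.leaf (nat_lit 5675837) (nat_lit 504259) (nat_lit 48324445) (nat_lit 9260865) [(nat_lit 504259), (nat_lit 0), (nat_lit 3753232), (nat_lit 0)]) (PF.cons PF.nil (PF.cons PF.nil PF.nil))))))) (PF.cons (PF.cons (PF.leaf (nat_lit 5201903) (nat_lit 1638081) (nat_lit 48743720) (nat_lit 9263684) [(nat_lit 0), (nat_lit 1638081), (nat_lit 3731663), (nat_lit 0)]) (PF.cons (PF.leaf (nat_lit 5507358) (nat_lit 495506) (nat_lit 48209185) (nat_lit 9251907) [(nat_lit 495506), (nat_lit 1656130), (nat_lit 3748041), (nat_lit 0)]) (PF.cons (PF.leaf (nat_lit 5825052) (nat_lit 507014) (nat_lit 47659336) (nat_lit 9237066) [(nat_lit 507014), (nat_lit 1672841), (nat_lit 3762770), (nat_lit 0)]) (PF.cons (PF.leaf (nat_lit 6152572) (nat_lit 517363) (nat_lit 47098004) (nat_lit 9219133) [(nat_lit 517363), (nat_lit 1688172), (nat_lit 3775705), (nat_lit 0)]) (PF.cons PF.nil PF.nil))))) (PF.cons (PF.cons (PF.leaf (nat_lit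 5974644) (nat_lit 1681424) (nat_lit 46996121) (nat_lit 9209713) [(nat_lit 0), (nat_lit 1681424), (nat_lit 3770064), (nat_lit 0)]) (PF.cons (PF.leaf (nat_lit 6295231) (nat_lit 519247) (nat_lit 46448207) (nat_lit 9189201)
 [(nat_lit 519247), (nat_lit 1695334), (nat_lit 3780744), (nat_lit 0)]) (PF.cons (PF.leaf (nat_lit 6624828) (nat_lit 528344) (nat_lit 45891030) (nat_lit 9165732) [(nat_lit 528344), (nat_lit 1707975), (nat_lit 3789704), (nat_lit 0)]) (PF.cons PF.nil PF.nil)))) (PF.cons (PF.cons (PF.leaf (nat_lit 6761072) (nat_lit 1712826) (nat_lit 45258218) (nat_lit 9130499) [(nat_lit 0), (nat_lit 1712826), (nat_lit 3790808), (nat_lit 0)]) (PF.cons PF.nil PF.nil)) (PF.cons PF.nil PF.nil))))) (PF.cons (PF.cons (PF.cons (PF.leaf (nat_lit 5772704) (nat_lit 3749125) (nat_lit 46686100) (nat_lit 9175336) [(nat_lit 0), (nat_lit 0), (nat_lit 3749125), (nat_lit 0)]) (PF.cons (PF.leaf (nat_lit 6077096) (nat_lit 505550) (nat_lit 46168706) (nat_lit 9155408) [(nat_lit 505550), (nat_lit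 0), (nat_lit 3759715), (nat_lit 0)]) (PF.cons (PF.leaf (nat_lit 6392670) (nat_lit 515885) (nat_lit 45638117) (nat_lit 9132614) [(nat_lit 515885), (nat_lit 0), (nat_lit 3768770), (nat_lit 0)]) (PF.cons (PF.leaf (nat_lit 6717042) (nat_lit 525082) (nat_lit 45097970) (nat_lit 9107008) [(nat_lit 525082), (nat_lit 0), (nat_lit 3776195), (nat_lit 0)]) (PF.cons PF.nil PF.nil))))) (PF.cons (PF.cons (PF.leaf (nat_lit 6532666) (nat_lit
 1695299) (nat_lit 45006055) (nat_lit 9096994) [(nat_lit 0), (nat_lit 1695299), (nat_lit 3770154), (nat_lit 0)]) (PF.cons (PF.leaf (nat_lit 6849906) (nat_lit 525895) (nat_lit 44479914) (nat_lit 9069498) [(nat_lit 525895), (nat_lit 1706204), (nat_lit 3775766), (nat_lit 0)]) (PF.cons PF.nil (PF.cons PF.nil PF.nil)))) (PF.cons (PF.cons (PF.leaf (nat_lit 7301768) (nat_lit 1718119) (nat_lit 43346125) (nat_lit 8997773) [(nat_lit 0), (nat_lit 1718119), (nat_lit 3776224), (nat_lit 0)]) (PF.cons PF.nil PF.nil)) PF.nil))) (PF.cons (PF.cons (PF.cons (PF.leaf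 (nat_lit 7066127) (nat_lit 3755950) (nat_lit 43120381) (nat_lit 8964629) [(nat_lit 0), (nat_lit 0), (nat_lit 3755950), (nat_lit 0)]) (PF.cons (PF.leaf (nat_lit 7379123) (nat_lit 529993) (nat_lit 42617417) (nat_lit 8931719) [(nat_lit 529993), (nat_lit 0), (nat_lit 3757420), (nat_lit 0)]) PF.nil)) (PF.cons PF.nil PF.nil)) (PF.cons PF.nil (PF.cons PF.nil (PF.cons PF.nil PF.nil)))))))) (PF.cons (PF.cons (PF.cons (PF.cons (PF.leaf (nat_lit 4162134) (nat_lit 9098200) (nat_lit 48746677) (nat_lit 9098200) [(nat_lit 0), (nat_lit 0), (nat_lit 0), (nat_lit 9263934)]) (PF.cons (PF.leaf (nat_lit 4403963) (nat_lit 417923) (nat_lit 48335507) (nat_lit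
 9095311) [(nat_lit 417923), (nat_lit 0), (nat_lit 0), (nat_lit 9260071)]) (PF.cons (PF.leaf (nat_lit 4667540) (nat_lit 436545) (nat_lit 47891746) (nat_lit 9090132) [(nat_lit 436545), (nat_lit 0), (nat_lit 0), (nat_lit 9253843)]) (PF.cons (PF.leaf (nat_lit 4948282) (nat_lit 452879) (nat_lit 47422744) (nat_lit 9082414) [(nat_lit 452879), (nat_lit 0), (nat_lit 0), (nat_lit 9245015)]) (PF.cons (PF.leaf (nat_lit 5243256) (nat_lit 467378) (nat_lit 46933879) (nat_lit 9071988) [(nat_lit 467378), (nat_lit 0), (nat_lit 0), (nat_lit 9233429)]) (PF.cons (PF.leaf (nat_lit 5550183) (nat_lit 480348) (nat_lit 46429323) (nat_lit 9058753) [(nat_lit 480348), (nat_lit 0), (nat_lit 0), (nat_lit 9218993)]) (PF.cons (PF.leaf (nat_lit 5867201) (nat_lit 492008) (nat_lit 45912437) (nat_lit 9042661) [(nat_lit 492008), (nat_lit 0), (nat_lit 0), (nat_lit 9201665)]) (PF.cons (PF.leaf (nat_lit 6192751) (nat_lit 502522) (nat_lit 45386007) (nat_lit 9023705) [(nat_lit 502522), (nat_lit 0), (nat_lit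 0), (nat_lit 9181443)]) (PF.cons PF.nil (PF.cons PF.nil PF.nil)))))))))) (PF.cons (PF.cons (PF.leaf (nat_lit 4833697) (nat_lit 1557811) (nat_lit 47243523) (nat_lit 9072620) [(nat_lit 0), (nat_lit 1557811), (nat_lit 0),
 (nat_lit 9234858)]) (PF.cons (PF.leaf (nat_lit 5105968) (nat_lit 456629) (nat_lit 46787544) (nat_lit 9062258) [(nat_lit 456629), (nat_lit 1578970), (nat_lit 0), (nat_lit 9223409)]) (PF.cons (PF.leaf (nat_lit 5394164) (nat_lit 470844) (nat_lit 46309972) (nat_lit 9049224) [(nat_lit 470844), (nat_lit 1598692), (nat_lit 0), (nat_lit 9209233)]) (PF.cons (PF.leaf (nat_lit 5695071) (nat_lit 483484) (nat_lit 45815754) (nat_lit 9033447) [(nat_lit 483484), (nat_lit 1616887), (nat_lit 0), (nat_lit 9192269)]) (PF.cons (PF.leaf (nat_lit 6006561) (nat_lit 494796) (nat_lit 45308685) (nat_lit 9014902) [(nat_lit 494796), (nat_lit 1633537), (nat_lit 0), (nat_lit 9172500)]) (PF.cons (PF.leaf (nat_lit 6326896) (nat_lit 504960) (nat_lit 44791804) (nat_lit 8993599) [(nat_lit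 504960), (nat_lit 1648664), (nat_lit 0), (nat_lit 9149941)]) (PF.cons PF.nil (PF.cons PF.nil (PF.cons PF.nil PF.nil))))))))) (PF.cons (PF.cons (PF.leaf (nat_lit 5546641) (nat_lit 1609729) (nat_lit 45684729) (nat_lit 9023033) [(nat_lit 0), (nat_lit 1609729), (nat_lit 0), (nat_lit 9181590)]) (PF.cons (PF.leaf (nat_lit 5840109) (nat_lit 485904) (nat_lit 45203077) (nat_lit 9005007) [(nat_lit 485904), (nat_lit 1626213), (nat_lit 0),
 (nat_lit 9162396)]) (PF.cons (PF.leaf (nat_lit 6145343) (nat_lit 496973) (nat_lit 44707461) (nat_lit 8984275) [(nat_lit 496973), (nat_lit 1641337), (nat_lit 0), (nat_lit 9140455)]) (PF.cons (PF.leaf (nat_lit 6459952) (nat_lit 506865) (nat_lit 44201367) (nat_lit 8960870) [(nat_lit 506865), (nat_lit 1655085), (nat_lit 0), (nat_lit 9115807)]) (PF.cons (PF.leaf (nat_lit 6782321) (nat_lit 515734) (nat_lit 43687559) (nat_lit 8934847) [(nat_lit 515734), (nat_lit 1667475), (nat_lit 0), (nat_lit 9088514)]) (PF.cons PF.nil (PF.cons PF.nil PF.nil)))))))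 (PF.cons (PF.cons (PF.leaf (nat_lit 6284678) (nat_lit 1648036) (nat_lit 44108209) (nat_lit 8950872) [(nat_lit 0), (nat_lit 1648036), (nat_lit 0), (nat_lit 9105621)]) (PF.cons (PF.leaf (nat_lit 6592537) (nat_lit 508232) (nat_lit 43614342) (nat_lit 8925625) [(nat_lit 508232), (nat_lit 1660488), (nat_lit 0), (nat_lit 9079147)]) (PF.cons (PF.leaf (nat_lit 6909050) (nat_lit 516889) (nat_lit 43111992) (nat_lit 8897835) [(nat_lit 516889), (nat_lit 1671701), (nat_lit 0), (nat_lit 9050101)]) (PF.cons PF.nil (PF.cons PF.nil PF.nil))))) (PF.cons (PF.cons (PF.leaf (nat_lit 7035679) (nat_lit 1675050) (nat_lit 42540491) (nat_lit 8858630) [(nat_lit 0),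
 (nat_lit 1675050), (nat_lit 0), (nat_lit 9009490)]) (PF.cons (PF.leaf (nat_lit 7352732) (nat_lit 525134) (nat_lit 42044083) (nat_lit 8826934) [(nat_lit 525134), (nat_lit 1684032), (nat_lit 0), (nat_lit 8976530)]) (PF.cons PF.nil (PF.cons PF.nil PF.nil)))) (PF.cons (PF.cons (PF.leaf (nat_lit 7790415) (nat_lit 1692621) (nat_lit 41000281) (nat_lit 8749246) [(nat_lit 0), (nat_lit 1692621), (nat_lit 0), (nat_lit 8896177)]) (PF.cons PF.nil PF.nil)) PF.nil)))))) (PF.cons (PF.cons (PF.cons (PF.leaf (nat_lit 5376787) (nat_lit 3641263) (nat_lit 45336485) (nat_lit 8986591) [(nat_lit 0), (nat_lit 0), (nat_lit 3641263), (nat_lit 9144471)]) (PF.cons (PF.leaf (nat_lit 5650502) (nat_lit 468671) (nat_lit 44891021) (nat_lit 8969353) [(nat_lit 468671), (nat_lit 0), (nat_lit 3653632), (nat_lit 9126133)]) (PF.cons (PF.leaf (nat_lit 5938999) (nat_lit 481637) (nat_lit 44426295) (nat_lit 8949451) [(nat_lit 481637), (nat_lit 0), (nat_lit 3664710), (nat_lit 9105080)]) (PF.cons (PF.leaf (nat_lit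 6239128) (nat_lit 493044) (nat_lit 43947076) (nat_lit 8926925) [(nat_lit 493044), (nat_lit 0), (nat_lit 3674317), (nat_lit 9081359)]) (PF.cons (PF.leaf (nat_lit 6548781) (nat_lit 503155) (nat_lit 43456973) (nat_lit
 8901828) [(nat_lit 503155), (nat_lit 0), (nat_lit 3682352), (nat_lit 9055034)]) (PF.cons (PF.leaf (nat_lit 6866297) (nat_lit 512160) (nat_lit 42958832) (nat_lit 8874229) [(nat_lit 512160), (nat_lit 0), (nat_lit 3688768), (nat_lit 9026179)]) (PF.cons PF.nil PF.nil))))))) (PF.cons (PF.cons (PF.leaf (nat_lit 6083210) (nat_lit 1627877) (nat_lit 43827201) (nat_lit 8915560) [(nat_lit 0), (nat_lit 1627877), (nat_lit 3668435), (nat_lit 9069738)]) (PF.cons (PF.leaf (nat_lit 6375598) (nat_lit 494281) (nat_lit 43361385) (nat_lit 8891389) [(nat_lit 494281), (nat_lit 1641242), (nat_lit 3676117), (nat_lit 9044396)]) (PF.cons (PF.leaf (nat_lit 6678761) (nat_lit 504244) (nat_lit 42883444) (nat_lit 8864681) [(nat_lit 504244), (nat_lit 1653346), (nat_lit 3682373), (nat_lit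 9016477)]) (PF.cons (PF.leaf (nat_lit 6990380) (nat_lit 513063) (nat_lit 42396675) (nat_lit 8835529) [(nat_lit 513063), (nat_lit 1664193), (nat_lit 3687138), (nat_lit 8986085)]) (PF.cons (PF.leaf (nat_lit 7308896) (nat_lit 520897) (nat_lit 41903661) (nat_lit 8804033) [(nat_lit 520897), (nat_lit 1673810), (nat_lit 3690391), (nat_lit 8953324)]) PF.nil))))) (PF.cons (PF.cons (PF.leaf (nat_lit 6809483) (nat_lit 1657179) (nat_lit
 42312689) (nat_lit 8825270) [(nat_lit 0), (nat_lit 1657179), (nat_lit 3680845), (nat_lit 8975647)]) (PF.cons (PF.leaf (nat_lit 7114204) (nat_lit 513493) (nat_lit 41838539) (nat_lit 8794806) [(nat_lit 513493), (nat_lit 1666963), (nat_lit 3684083), (nat_lit 8943963)]) (PF.cons (PF.leaf (nat_lit 7426766) (nat_lit 521186) (nat_lit 41357286) (nat_lit 8762046) [(nat_lit 521186), (nat_lit 1675614), (nat_lit 3685920), (nat_lit 8909956)]) (PF.cons PF.nil PF.nil)))) (PF.cons (PF.cons (PF.leaf (nat_lit 7544774) (nat_lit 1676698) (nat_lit 40815359) (nat_lit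 8718312) [(nat_lit 0), (nat_lit 1676698), (nat_lit 3680211), (nat_lit 8864835)]) (PF.cons (PF.leaf (nat_lit 7857093) (nat_lit 527759) (nat_lit 40341328) (nat_lit 8682380) [(nat_lit 527759), (nat_lit 1683419), (nat_lit 3679432), (nat_lit 8827653)]) PF.nil)) (PF.cons PF.nil PF.nil))))) (PF.cons (PF.cons (PF.cons (PF.leaf (nat_lit 6599680) (nat_lit 3659310) (nat_lit 42060023) (nat_lit 8790167) [(nat_lit 0), (nat_lit 0), (nat_lit 3659310), (nat_lit 8940001)]) (PF.cons (PF.leaf (nat_lit 6889903) (nat_lit 500041) (nat_lit 41611881) (nat_lit 8761133) [(nat_lit 500041), (nat_lit 0), (nat_lit 3662977), (nat_lit 8909801)]) (PF.cons (PF.leaf (nat_lit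
 7190064) (nat_lit 509031) (nat_lit 41153153) (nat_lit 8729738) [(nat_lit 509031), (nat_lit 0), (nat_lit 3665326), (nat_lit 8877204)]) (PF.cons (PF.leaf (nat_lit 7497883) (nat_lit 516911) (nat_lit 40686943) (nat_lit 8696122) [(nat_lit 516911), (nat_lit 0), (nat_lit 3666327), (nat_lit 8842358)]) (PF.cons PF.nil PF.nil))))) (PF.cons (PF.cons (PF.leaf (nat_lit 7312545) (nat_lit 1659675) (nat_lit 40611389) (nat_lit 8685861) [(nat_lit 0), (nat_lit 1659675), (nat_lit 3659978), (nat_lit 8831929)]) (PF.cons (PF.leaf (nat_lit 7613419) (nat_lit 516574) (nat_lit 40157876) (nat_lit 8651375) [(nat_lit 516574), (nat_lit 1667214), (nat_lit 3659767), (nat_lit 8796236)]) (PF.cons (PF.leaf (nat_lit 7921414) (nat_lit 523427) (nat_lit 39698374) (nat_lit 8614823) [(nat_lit 523427), (nat_lit 1673717), (nat_lit 3658294), (nat_lit 8758453)]) (PF.cons PF.nil PF.nil)))) (PF.cons (PF.cons (PF.leaf (nat_lit 8031329) (nat_lit 1672973) (nat_lit 39185698) (nat_lit 8567845) [(nat_lit 0), (nat_lit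 1672973), (nat_lit 3649602), (nat_lit 8710117)]) (PF.cons PF.nil PF.nil)) PF.nil))) (PF.cons (PF.cons (PF.cons (PF.leaf (nat_lit 7794532) (nat_lit 3630211) (nat_lit 39003058) (nat_lit 8536636) [(nat_lit 0), (nat_lit 0),
 (nat_lit 3630211), (nat_lit 8678483)]) (PF.cons (PF.leaf (nat_lit 8091015) (nat_lit 517863) (nat_lit 38570473) (nat_lit 8499123) [(nat_lit 517863), (nat_lit 0), (nat_lit 3627190), (nat_lit 8639782)]) (PF.cons PF.nil PF.nil))) (PF.cons (PF.cons (PF.leaf (nat_lit 8496397) (nat_lit 1664950) (nat_lit 37648566) (nat_lit 8410562) [(nat_lit 0), (nat_lit 1664950), (nat_lit 3612014), (nat_lit 8548690)]) PF.nil) PF.nil)) (PF.cons PF.nil (PF.cons PF.nil PF.nil)))))) (PF.cons (PF.cons (PF.cons (PF.cons (PF.leaf (nat_lit 6182133) (nat_lit 8613106) (nat_lit 40974871) (nat_lit 8613106) [(nat_lit 0), (nat_lit 0), (nat_lit 0), (nat_lit 8760417)]) (PF.cons (PF.leaf (nat_lit 6445355) (nat_lit 464998) (nat_lit 40586301) (nat_lit 8588339) [(nat_lit 464998), (nat_lit 0),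 (nat_lit 0), (nat_lit 8734586)]) (PF.cons (PF.leaf (nat_lit 6722051) (nat_lit 476685) (nat_lit 40181733) (nat_lit 8561144) [(nat_lit 476685), (nat_lit 0), (nat_lit 0), (nat_lit 8706282)]) (PF.cons (PF.leaf (nat_lit 7009116) (nat_lit 486819) (nat_lit 39765314) (nat_lit 8531684) [(nat_lit 486819), (nat_lit 0), (nat_lit 0), (nat_lit 8675677)]) (PF.cons (PF.leaf (nat_lit 7304581) (nat_lit 495681) (nat_lit 39340153) (nat_lit 8500097)
 [(nat_lit 495681), (nat_lit 0), (nat_lit 0), (nat_lit 8642918)]) (PF.cons (PF.leaf (nat_lit 7606880) (nat_lit 503469) (nat_lit 38908675) (nat_lit 8466512) [(nat_lit 503469), (nat_lit 0), (nat_lit 0), (nat_lit 8608138)]) (PF.cons PF.nil PF.nil))))))) (PF.cons (PF.cons (PF.leaf (nat_lit 6850757) (nat_lit 1597174) (nat_lit 39665099) (nat_lit 8519674) [(nat_lit 0), (nat_lit 1597174), (nat_lit 0), (nat_lit 8663432)]) (PF.cons (PF.leaf (nat_lit 7130131) (nat_lit 486896) (nat_lit 39260958) (nat_lit 8489455) [(nat_lit 486896), (nat_lit 1607313), (nat_lit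 0), (nat_lit 8632094)]) (PF.cons (PF.leaf (nat_lit 7419196) (nat_lit 495689) (nat_lit 38846898) (nat_lit 8457093) [(nat_lit 495689), (nat_lit 1616276), (nat_lit 0), (nat_lit 8598583)]) (PF.cons (PF.leaf (nat_lit 7715731) (nat_lit 503368) (nat_lit 38425740) (nat_lit 8422746) [(nat_lit 503368), (nat_lit 1624096), (nat_lit 0), (nat_lit 8563062)]) (PF.cons PF.nil PF.nil))))) (PF.cons (PF.cons (PF.leaf (nat_lit 7534878) (nat_lit 1617127) (nat_lit 38356425) (nat_lit 8412607) [(nat_lit 0), (nat_lit 1617127), (nat_lit 0), (nat_lit 8552762)]) (PF.cons (PF.leaf (nat_lit 7824694) (nat_lit 502872) (nat_lit 37946569) (nat_lit 8377695) [(nat_lit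
 502872), (nat_lit 1624138), (nat_lit 0), (nat_lit 8516699)]) (PF.cons (PF.leaf (nat_lit 8121510) (nat_lit 509535) (nat_lit 37530983) (nat_lit 8340941) [(nat_lit 509535), (nat_lit 1630135), (nat_lit 0), (nat_lit 8478772)]) (PF.cons PF.nil PF.nil)))) (PF.cons (PF.cons (PF.leaf (nat_lit 8225269) (nat_lit 1628922) (nat_lit 37066276) (nat_lit 8294229) [(nat_lit 0), (nat_lit 1628922), (nat_lit 0), (nat_lit 8430770)]) (PF.cons PF.nil PF.nil)) (PF.cons PF.nil PF.nil))))) (PF.cons (PF.cons (PF.cons (PF.leaf (nat_lit 7322232) (nat_lit 3542133) (nat_lit 38149806) (nat_lit 8379176) [(nat_lit 0), (nat_lit 0), (nat_lit 3542133), (nat_lit 8518847)]) (PF.cons (PF.leaf (nat_lit 7598931) (nat_lit 489912) (nat_lit 37761985) (nat_lit 8346067) [(nat_lit 489912), (nat_lit 0), (nat_lit 3541571), (nat_lit 8484638)]) (PF.cons (PF.leaf (nat_lit 7884652) (nat_lit 497884) (nat_lit 37365397) (nat_lit 8310965) [(nat_lit 497884), (nat_lit 0), (nat_lit 3539864), (nat_lit 8448408)]) (PF.cons (PF.leaf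 (nat_lit 8177207) (nat_lit 504783) (nat_lit 36962693) (nat_lit 8274055) [(nat_lit 504783), (nat_lit 0), (nat_lit 3537019), (nat_lit 8410347)]) (PF.cons PF.nil PF.nil))))) (PF.cons (PF.cons (PF.leaf (nat_lit 7993284)
 (nat_lit 1612815) (nat_lit 36900358) (nat_lit 8264199) [(nat_lit 0), (nat_lit 1612815), (nat_lit 3530752), (nat_lit 8400343)]) (PF.cons (PF.leaf (nat_lit 8279142) (nat_lit 503726) (nat_lit 36508815) (nat_lit 8227014) [(nat_lit 503726), (nat_lit 1618104), (nat_lit 3527088), (nat_lit 8362031)]) (PF.cons PF.nil (PF.cons PF.nil PF.nil)))) (PF.cons (PF.cons (PF.leaf (nat_lit 8668397) (nat_lit 1619979) (nat_lit 35672744) (nat_lit 8139962) [(nat_lit 0), (nat_lit 1619979), (nat_lit 3510981), (nat_lit 8272582)]) (PF.cons PF.nil PF.nil)) PF.nil))) (PF.cons (PF.cons (PF.cons (PF.leaf (nat_lit 8433605) (nat_lit 3492957) (nat_lit 35523915) (nat_lit 8111492) [(nat_lit 0), (nat_lit 0), (nat_lit 3492957), (nat_lit 8243744)]) (PF.cons (PF.leaf (nat_lit 8715168) (nat_lit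 503288) (nat_lit 35150510) (nat_lit 8072674) [(nat_lit 503288), (nat_lit 0), (nat_lit 3487341), (nat_lit 8203828)]) (PF.cons PF.nil PF.nil))) (PF.cons (PF.cons (PF.leaf (nat_lit 9093334) (nat_lit 1608129) (nat_lit 34357312) (nat_lit 7983297) [(nat_lit 0), (nat_lit 1608129), (nat_lit 3467912), (nat_lit 8112124)]) PF.nil) PF.nil)) (PF.cons PF.nil (PF.cons PF.nil PF.nil))))) (PF.cons (PF.cons (PF.cons (PF.cons (PF.leaf (nat_lit
 7963658) (nat_lit 7971775) (nat_lit 34830582) (nat_lit 7971775) [(nat_lit 0), (nat_lit 0), (nat_lit 0), (nat_lit 8102151)]) (PF.cons (PF.leaf (nat_lit 8227796) (nat_lit 477405) (nat_lit 34493871) (nat_lit 7937364) [(nat_lit 477405), (nat_lit 0), (nat_lit 0), (nat_lit 8066723)]) (PF.cons (PF.leaf (nat_lit 8500241) (nat_lit 484582) (nat_lit 34149728) (nat_lit 7901241) [(nat_lit 484582), (nat_lit 0), (nat_lit 0), (nat_lit 8029559)]) (PF.cons PF.nil PF.nil)))) (PF.cons (PF.cons (PF.leaf (nat_lit 8597748) (nat_lit 1561032) (nat_lit 33748669) (nat_lit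 7854432) [(nat_lit 0), (nat_lit 1561032), (nat_lit 0), (nat_lit 7981559)]) (PF.cons (PF.leaf (nat_lit 8869969) (nat_lit 489221) (nat_lit 33409061) (nat_lit 7816866) [(nat_lit 489221), (nat_lit 1564786), (nat_lit 0), (nat_lit 7942958)]) PF.nil)) (PF.cons PF.nil PF.nil))) (PF.cons (PF.cons (PF.cons (PF.leaf (nat_lit 9003831) (nat_lit 3353966) (nat_lit 32563795) (nat_lit 7705075) [(nat_lit 0), (nat_lit 0), (nat_lit 3353966), (nat_lit 7828658)]) (PF.cons (PF.leaf (nat_lit 9271957) (nat_lit 487721) (nat_lit 32239644) (nat_lit 7666705) [(nat_lit 487721), (nat_lit 0), (nat_lit 3346893), (nat_lit 7789282)]) PF.nil)) (PF.cons PF.nil PF.nil))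
 (PF.cons PF.nil PF.nil))) (PF.cons (PF.cons (PF.cons (PF.cons (PF.leaf (nat_lit 9519833) (nat_lit 7324028) (nat_lit 30025500) (nat_lit 7324028) [(nat_lit 0), (nat_lit 0), (nat_lit 0), (nat_lit 7439820)]) (PF.cons PF.nil PF.nil)) (PF.cons PF.nil PF.nil)) (PF.cons PF.nil PF.nil)) (PF.cons PF.nil (PF.cons PF.nil (PF.cons PF.nil PF.nil))))))))

def p12_14_1_0 : pfC (piC [(nat_lit 38167130), (nat_lit 25010362), (nat_lit 18643303), (nat_lit 12552662)] (nat_lit 10996129)) p12_14_1 (nat_lit 4) (nat_lit 0) (nat_lit 1) = true := by decide +kernel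
def p12_14_1_1 : pfC (piC [(nat_lit 38167130), (nat_lit 25010362), (nat_lit 18643303), (nat_lit 12552662)] (nat_lit 10996129)) p12_14_1 (nat_lit 4) (nat_lit 1) (nat_lit 2) = true := by decide +kernel
def p12_14_1_2 : pfC (piC [(nat_lit 38167130), (nat_lit 25010362), (nat_lit 18643303), (nat_lit 12552662)] (nat_lit 10996129)) p12_14_1 (nat_lit 4) (nat_lit 2) (nat_lit 3) = true := by decide +kernel
def p12_14_1_3 : pfC (piC [(nat_lit 38167130), (nat_lit 25010362), (nat_lit 18643303), (nat_lit 12552662)] (nat_lit 10996129)) p12_14_1 (nat_lit 4) (nat_lit 3) (nat_lit 4) = true := by decide +kernel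
def p12_14_1_4 : pfC (piC [(nat_lit 38167130), (nat_lit 25010362), (nat_lit 18643303), (nat_lit 12552662)] (nat_lit 10996129)) p12_14_1 (nat_lit 4) (nat_lit 4) (nat_lit 5) = true := by decide +kernel
def p12_14_1_5 : pfC (piC [(nat_lit 38167130), (nat_lit 25010362), (nat_lit 18643303), (nat_lit 12552662)] (nat_lit 10996129)) p12_14_1 (nat_lit 4) (nat_lit 5) (nat_lit 6) = true := by decide +kernel
def p12_14_1_6 : pfC (piC [(nat_lit 38167130), (nat_lit 25010362), (nat_lit 18643303), (nat_lit 12552662)] (nat_lit 10996129)) p12_14_1 (nat_lit 4) (nat_lit 6) (nat_lit 7) = true := by decide +kernel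
def p12_14_1_7 : pfC (piC [(nat_lit 38167130), (nat_lit 25010362), (nat_lit 18643303), (nat_lit 12552662)] (nat_lit 10996129)) p12_14_1 (nat_lit 4) (nat_lit 7) (nat_lit 8) = true := by decide +kernel
def p12_14_1_8 : pfC (piC [(nat_lit 38167130), (nat_lit 25010362), (nat_lit 18643303), (nat_lit 12552662)] (nat_lit 10996129)) p12_14_1 (nat_lit 4) (nat_lit 8) (nat_lit 9) = true := by decide +kernel
def p12_14_1_9 : pfC (piC [(nat_lit 38167130), (nat_lit 25010362), (nat_lit 18643303), (nat_lit 12552662)] (nat_lit 10996129)) p12_14_1 (nat_lit 4) (nat_lit 9) (nat_lit 10) = true := by decide +kernel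
def p12_14_1_10 : pfC (piC [(nat_lit 38167130), (nat_lit 25010362), (nat_lit 18643303), (nat_lit 12552662)] (nat_lit 10996129)) p12_14_1 (nat_lit 4) (nat_lit 10) (nat_lit 11) = true := by decide +kernel
def p12_14_1_11 : pfC (piC [(nat_lit 38167130), (nat_lit 25010362), (nat_lit 18643303), (nat_lit 12552662)] (nat_lit 10996129)) p12_14_1 (nat_lit 4) (nat_lit 11) (nat_lit 12) = true := by decide +kernel
def p12_14_1_12 : pfC (piC [(nat_lit 38167130), (nat_lit 25010362), (nat_lit 18643303), (nat_lit 12552662)] (nat_lit 10996129)) p12_14_1 (nat_lit 4) (nat_lit 12) (nat_lit 13) = true := by decide +kernel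
def p12_14_1_13 : pfC (piC [(nat_lit 38167130), (nat_lit 25010362), (nat_lit 18643303), (nat_lit 12552662)] (nat_lit 10996129)) p12_14_1 (nat_lit 4) (nat_lit 13) (nat_lit 14) = true := by decide +kernel
def p12_14_1_14 : pfC (piC [(nat_lit 38167130), (nat_lit 25010362), (nat_lit 18643303), (nat_lit 12552662)] (nat_lit 10996129)) p12_14_1 (nat_lit 4) (nat_lit 14) (nat_lit 15) = true := by decide +kernel
def p12_14_1_15 : pfC (piC [(nat_lit 38167130), (nat_lit 25010362), (nat_lit 18643303), (nat_lit 12552662)] (nat_lit 10996129)) p12_14_1 (nat_lit 4) (nat_lit 15) (nat_lit 16) = true := by decide +kernel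
def p12_14_1_16 : pfC (piC [(nat_lit 38167130), (nat_lit 25010362), (nat_lit 18643303), (nat_lit 12552662)] (nat_lit 10996129)) p12_14_1 (nat_lit 4) (nat_lit 16) (nat_lit 17) = true := by decide +kernel
def p12_14_1_17 : pfC (piC [(nat_lit 38167130), (nat_lit 25010362), (nat_lit 18643303), (nat_lit 12552662)] (nat_lit 10996129)) p12_14_1 (nat_lit 4) (nat_lit 17) (nat_lit 18) = true := by decide +kernel
def p12_14_1_18 : pfC (piC [(nat_lit 38167130), (nat_lit 25010362), (nat_lit 18643303), (nat_lit 12552662)] (nat_lit 10996129)) p12_14_1 (nat_lit 4) (nat_lit 18) (nat_lit 19) = true := by decide +kernel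
def p12_14_1_19 : pfC (piC [(nat_lit 38167130), (nat_lit 25010362), (nat_lit 18643303), (nat_lit 12552662)] (nat_lit 10996129)) p12_14_1 (nat_lit 4) (nat_lit 19) (nat_lit 20) = true := by decide +kernel
def p12_14_1_20 : pfC (piC [(nat_lit 38167130), (nat_lit 25010362), (nat_lit 18643303), (nat_lit 12552662)] (nat_lit 10996129)) p12_14_1 (nat_lit 4) (nat_lit 20) (nat_lit 21) = true := by decide +kernel
def p12_14_1_21 : pfC (piC [(nat_lit 38167130), (nat_lit 25010362), (nat_lit 18643303), (nat_lit 12552662)] (nat_lit 10996129)) p12_14_1 (nat_lit 4) (nat_lit 21) (nat_lit 22) = true := by decide +kernel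
def p12_14_1_22 : pfC (piC [(nat_lit 38167130), (nat_lit 25010362), (nat_lit 18643303), (nat_lit 12552662)] (nat_lit 10996129)) p12_14_1 (nat_lit 4) (nat_lit 22) (nat_lit 23) = true := by decide +kernel
def p12_14_1_23 : pfC (piC [(nat_lit 38167130), (nat_lit 25010362), (nat_lit 18643303), (nat_lit 12552662)] (nat_lit 10996129)) p12_14_1 (nat_lit 4) (nat_lit 23) (nat_lit 24) = true := by decide +kernel
def p12_14_1_24 : pfC (piC [(nat_lit 38167130), (nat_lit 25010362), (nat_lit 18643303), (nat_lit 12552662)] (nat_lit 10996129)) p12_14_1 (nat_lit 4) (nat_lit 24) (nat_lit 25) = true := by decide +kernel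
def p12_14_1_25 : pfC (piC [(nat_lit 38167130), (nat_lit 25010362), (nat_lit 18643303), (nat_lit 12552662)] (nat_lit 10996129)) p12_14_1 (nat_lit 4) (nat_lit 25) (nat_lit 26) = true := by decide +kernel
def p12_14_1_26 : pfC (piC [(nat_lit 38167130), (nat_lit 25010362), (nat_lit 18643303), (nat_lit 12552662)] (nat_lit 10996129)) p12_14_1 (nat_lit 4) (nat_lit 26) (nat_lit 27) = true := by decide +kernel
def p12_14_1_27 : pfC (piC [(nat_lit 38167130), (nat_lit 25010362), (nat_lit 18643303), (nat_lit 12552662)] (nat_lit 10996129)) p12_14_1 (nat_lit 4) (nat_lit 27) (nat_lit 28) = true := by decide +kernel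
def p12_14_1_28 : pfC (piC [(nat_lit 38167130), (nat_lit 25010362), (nat_lit 18643303), (nat_lit 12552662)] (nat_lit 10996129)) p12_14_1 (nat_lit 4) (nat_lit 28) (nat_lit 29) = true := by decide +kernel
def p12_14_1_29 : pfC (piC [(nat_lit 38167130), (nat_lit 25010362), (nat_lit 18643303), (nat_lit 12552662)] (nat_lit 10996129)) p12_14_1 (nat_lit 4) (nat_lit 29) (nat_lit 30) = true := by decide +kernel
def p12_14_1_30 : pfC (piC [(nat_lit 38167130), (nat_lit 25010362), (nat_lit 18643303), (nat_lit 12552662)] (nat_lit 10996129)) p12_14_1 (nat_lit 4) (nat_lit 30) (nat_lit 31) = true := by decide +kernel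
def p12_14_1_31 : pfC (piC [(nat_lit 38167130), (nat_lit 25010362), (nat_lit 18643303), (nat_lit 12552662)] (nat_lit 10996129)) p12_14_1 (nat_lit 4) (nat_lit 31) (nat_lit 32) = true := by decide +kernel
def p12_14_1_32 : pfC (piC [(nat_lit 38167130), (nat_lit 25010362), (nat_lit 18643303), (nat_lit 12552662)] (nat_lit 10996129)) p12_14_1 (nat_lit 4) (nat_lit 32) (nat_lit 33) = true := by decide +kernel
def p12_14_1_33 : pfC (piC [(nat_lit 38167130), (nat_lit 25010362), (nat_lit 18643303), (nat_lit 12552662)] (nat_lit 10996129)) p12_14_1 (nat_lit 4) (nat_lit 33) (nat_lit 34) = true := by decide +kernel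
def p12_14_1_34 : pfC (piC [(nat_lit 38167130), (nat_lit 25010362), (nat_lit 18643303), (nat_lit 12552662)] (nat_lit 10996129)) p12_14_1 (nat_lit 4) (nat_lit 34) (nat_lit 35) = true := by decide +kernel
def p12_14_1_35 : pfC (piC [(nat_lit 38167130), (nat_lit 25010362), (nat_lit 18643303), (nat_lit 12552662)] (nat_lit 10996129)) p12_14_1 (nat_lit 4) (nat_lit 35) (nat_lit 36) = true := by decide +kernel
def p12_14_1_36 : pfC (piC [(nat_lit 38167130), (nat_lit 25010362), (nat_lit 18643303), (nat_lit 12552662)] (nat_lit 10996129)) p12_14_1 (nat_lit 4) (nat_lit 36) (nat_lit 37) = true := by decide +kernel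
def p12_14_1_37 : pfC (piC [(nat_lit 38167130), (nat_lit 25010362), (nat_lit 18643303), (nat_lit 12552662)] (nat_lit 10996129)) p12_14_1 (nat_lit 4) (nat_lit 37) (nat_lit 38) = true := by decide +kernel
def p12_14_1_38 : pfC (piC [(nat_lit 38167130), (nat_lit 25010362), (nat_lit 18643303), (nat_lit 12552662)] (nat_lit 10996129)) p12_14_1 (nat_lit 4) (nat_lit 38) (nat_lit 39) = true := by decide +kernel
def p12_14_1_39 : pfC (piC [(nat_lit 38167130), (nat_lit 25010362), (nat_lit 18643303), (nat_lit 12552662)] (nat_lit 10996129)) p12_14_1 (nat_lit 4) (nat_lit 39) (nat_lit 40) = true := by decide +kernel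
def p12_14_1_40 : pfC (piC [(nat_lit 38167130), (nat_lit 25010362), (nat_lit 18643303), (nat_lit 12552662)] (nat_lit 10996129)) p12_14_1 (nat_lit 4) (nat_lit 40) (nat_lit 41) = true := by decide +kernel
def p12_14_1_41 : pfC (piC [(nat_lit 38167130), (nat_lit 25010362), (nat_lit 18643303), (nat_lit 12552662)] (nat_lit 10996129)) p12_14_1 (nat_lit 4) (nat_lit 41) (nat_lit 42) = true := by decide +kernel
def p12_14_1_42 : pfC (piC [(nat_lit 38167130), (nat_lit 25010362), (nat_lit 18643303), (nat_lit 12552662)] (nat_lit 10996129)) p12_14_1 (nat_lit 4) (nat_lit 42) (nat_lit 43) = true := by decide +kernel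
def p12_14_1_43 : pfC (piC [(nat_lit 38167130), (nat_lit 25010362), (nat_lit 18643303), (nat_lit 12552662)] (nat_lit 10996129)) p12_14_1 (nat_lit 4) (nat_lit 43) (nat_lit 44) = true := by decide +kernel
def p12_14_1_44 : pfC (piC [(nat_lit 38167130), (nat_lit 25010362), (nat_lit 18643303), (nat_lit 12552662)] (nat_lit 10996129)) p12_14_1 (nat_lit 4) (nat_lit 44) (nat_lit 45) = true := by decide +kernel
def p12_14_1_45 : pfC (piC [(nat_lit 38167130), (nat_lit 25010362), (nat_lit 18643303), (nat_lit 12552662)] (nat_lit 10996129)) p12_14_1 (nat_lit 4) (nat_lit 45) (nat_lit 46) = true := by decide +kernel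
def p12_14_1_46 : pfC (piC [(nat_lit 38167130), (nat_lit 25010362), (nat_lit 18643303), (nat_lit 12552662)] (nat_lit 10996129)) p12_14_1 (nat_lit 4) (nat_lit 46) (nat_lit 47) = true := by decide +kernel
def p12_14_1_47 : pfC (piC [(nat_lit 38167130), (nat_lit 25010362), (nat_lit 18643303), (nat_lit 12552662)] (nat_lit 10996129)) p12_14_1 (nat_lit 4) (nat_lit 47) (nat_lit 48) = true := by decide +kernel
def p12_14_1_48 : pfC (piC [(nat_lit 38167130), (nat_lit 25010362), (nat_lit 18643303), (nat_lit 12552662)] (nat_lit 10996129)) p12_14_1 (nat_lit 4) (nat_lit 48) (nat_lit 49) = true := by decide +kernel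
def p12_14_1_49 : pfC (piC [(nat_lit 38167130), (nat_lit 25010362), (nat_lit 18643303), (nat_lit 12552662)] (nat_lit 10996129)) p12_14_1 (nat_lit 4) (nat_lit 49) (nat_lit 50) = true := by decide +kernel
def p12_14_1_50 : pfC (piC [(nat_lit 38167130), (nat_lit 25010362), (nat_lit 18643303), (nat_lit 12552662)] (nat_lit 10996129)) p12_14_1 (nat_lit 4) (nat_lit 50) (nat_lit 51) = true := by decide +kernel
def p12_14_1_51 : pfC (piC [(nat_lit 38167130), (nat_lit 25010362), (nat_lit 18643303), (nat_lit 12552662)] (nat_lit 10996129)) p12_14_1 (nat_lit 4) (nat_lit 51) (nat_lit 52) = true := by decide +kernel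
def p12_14_1_52 : pfC (piC [(nat_lit 38167130), (nat_lit 25010362), (nat_lit 18643303), (nat_lit 12552662)] (nat_lit 10996129)) p12_14_1 (nat_lit 4) (nat_lit 52) (nat_lit 53) = true := by decide +kernel
def p12_14_1_53 : pfC (piC [(nat_lit 38167130), (nat_lit 25010362), (nat_lit 18643303), (nat_lit 12552662)] (nat_lit 10996129)) p12_14_1 (nat_lit 4) (nat_lit 53) (nat_lit 54) = true := by decide +kernel
def p12_14_1_54 : pfC (piC [(nat_lit 38167130), (nat_lit 25010362), (nat_lit 18643303), (nat_lit 12552662)] (nat_lit 10996129)) p12_14_1 (nat_lit 4) (nat_lit 54) (nat_lit 55) = true := by decide +kernel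
def p12_14_1_55 : pfC (piC [(nat_lit 38167130), (nat_lit 25010362), (nat_lit 18643303), (nat_lit 12552662)] (nat_lit 10996129)) p12_14_1 (nat_lit 4) (nat_lit 55) (nat_lit 56) = true := by decide +kernel
def p12_14_1_56 : pfC (piC [(nat_lit 38167130), (nat_lit 25010362), (nat_lit 18643303), (nat_lit 12552662)] (nat_lit 10996129)) p12_14_1 (nat_lit 4) (nat_lit 56) (nat_lit 57) = true := by decide +kernel
def p12_14_1_57 : pfC (piC [(nat_lit 38167130), (nat_lit 25010362), (nat_lit 18643303), (nat_lit 12552662)] (nat_lit 10996129)) p12_14_1 (nat_lit 4) (nat_lit 57) (nat_lit 58) = true := by decide +kernel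
def p12_14_1_58 : pfC (piC [(nat_lit 38167130), (nat_lit 25010362), (nat_lit 18643303), (nat_lit 12552662)] (nat_lit 10996129)) p12_14_1 (nat_lit 4) (nat_lit 58) (nat_lit 59) = true := by decide +kernel
def p12_14_1_59 : pfC (piC [(nat_lit 38167130), (nat_lit 25010362), (nat_lit 18643303), (nat_lit 12552662)] (nat_lit 10996129)) p12_14_1 (nat_lit 4) (nat_lit 59) (nat_lit 60) = true := by decide +kernel
def p12_14_1_60 : pfC (piC [(nat_lit 38167130), (nat_lit 25010362), (nat_lit 18643303), (nat_lit 12552662)] (nat_lit 10996129)) p12_14_1 (nat_lit 4) (nat_lit 60) (nat_lit 61) = true := by decide +kernel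
def p12_14_1_61 : pfC (piC [(nat_lit 38167130), (nat_lit 25010362), (nat_lit 18643303), (nat_lit 12552662)] (nat_lit 10996129)) p12_14_1 (nat_lit 4) (nat_lit 61) (nat_lit 62) = true := by decide +kernel
def p12_14_1_62 : pfC (piC [(nat_lit 38167130), (nat_lit 25010362), (nat_lit 18643303), (nat_lit 12552662)] (nat_lit 10996129)) p12_14_1 (nat_lit 4) (nat_lit 62) (nat_lit 63) = true := by decide +kernel
def p12_14_1_63 : pfC (piC [(nat_lit 38167130), (nat_lit 25010362), (nat_lit 18643303), (nat_lit 12552662)] (nat_lit 10996129)) p12_14_1 (nat_lit 4) (nat_lit 63) (nat_lit 64) = true := by decide +kernel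
def p12_14_1_64 : pfC (piC [(nat_lit 38167130), (nat_lit 25010362), (nat_lit 18643303), (nat_lit 12552662)] (nat_lit 10996129)) p12_14_1 (nat_lit 4) (nat_lit 64) (nat_lit 65) = true := by decide +kernel
def p12_14_1_65 : pfC (piC [(nat_lit 38167130), (nat_lit 25010362), (nat_lit 18643303), (nat_lit 12552662)] (nat_lit 10996129)) p12_14_1 (nat_lit 4) (nat_lit 65) (nat_lit 66) = true := by decide +kernel
def p12_14_1_66 : pfC (piC [(nat_lit 38167130), (nat_lit 25010362), (nat_lit 18643303), (nat_lit 12552662)] (nat_lit 10996129)) p12_14_1 (nat_lit 4) (nat_lit 66) (nat_lit 67) = true := by decide +kernel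
def p12_14_1_67 : pfC (piC [(nat_lit 38167130), (nat_lit 25010362), (nat_lit 18643303), (nat_lit 12552662)] (nat_lit 10996129)) p12_14_1 (nat_lit 4) (nat_lit 67) (nat_lit 68) = true := by decide +kernel
def p12_14_1_68 : pfC (piC [(nat_lit 38167130), (nat_lit 25010362), (nat_lit 18643303), (nat_lit 12552662)] (nat_lit 10996129)) p12_14_1 (nat_lit 4) (nat_lit 68) (nat_lit 69) = true := by decide +kernel
def p12_14_1_69 : pfC (piC [(nat_lit 38167130), (nat_lit 25010362), (nat_lit 18643303), (nat_lit 12552662)] (nat_lit 10996129)) p12_14_1 (nat_lit 4) (nat_lit 69) (nat_lit 70) = true := by decide +kernel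
def p12_14_1_70 : pfC (piC [(nat_lit 38167130), (nat_lit 25010362), (nat_lit 18643303), (nat_lit 12552662)] (nat_lit 10996129)) p12_14_1 (nat_lit 4) (nat_lit 70) (nat_lit 71) = true := by decide +kernel
def p12_14_1_71 : pfC (piC [(nat_lit 38167130), (nat_lit 25010362), (nat_lit 18643303), (nat_lit 12552662)] (nat_lit 10996129)) p12_14_1 (nat_lit 4) (nat_lit 71) (nat_lit 72) = true := by decide +kernel
def p12_14_1_72 : pfC (piC [(nat_lit 38167130), (nat_lit 25010362), (nat_lit 18643303), (nat_lit 12552662)] (nat_lit 10996129)) p12_14_1 (nat_lit 4) (nat_lit 72) (nat_lit 73) = true := by decide +kernel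
def p12_14_1_73 : pfC (piC [(nat_lit 38167130), (nat_lit 25010362), (nat_lit 18643303), (nat_lit 12552662)] (nat_lit 10996129)) p12_14_1 (nat_lit 4) (nat_lit 73) (nat_lit 74) = true := by decide +kernel
def p12_14_1_74 : pfC (piC [(nat_lit 38167130), (nat_lit 25010362), (nat_lit 18643303), (nat_lit 12552662)] (nat_lit 10996129)) p12_14_1 (nat_lit 4) (nat_lit 74) (nat_lit 75) = true := by decide +kernel
def p12_14_1_75 : pfC (piC [(nat_lit 38167130), (nat_lit 25010362), (nat_lit 18643303), (nat_lit 12552662)] (nat_lit 10996129)) p12_14_1 (nat_lit 4) (nat_lit 75) (nat_lit 76) = true := by decide +kernel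
def p12_14_1_76 : pfC (piC [(nat_lit 38167130), (nat_lit 25010362), (nat_lit 18643303), (nat_lit 12552662)] (nat_lit 10996129)) p12_14_1 (nat_lit 4) (nat_lit 76) (nat_lit 77) = true := by decide +kernel
def p12_14_1_77 : pfC (piC [(nat_lit 38167130), (nat_lit 25010362), (nat_lit 18643303), (nat_lit 12552662)] (nat_lit 10996129)) p12_14_1 (nat_lit 4) (nat_lit 77) (nat_lit 78) = true := by decide +kernel
def p12_14_1_78 : pfC (piC [(nat_lit 38167130), (nat_lit 25010362), (nat_lit 18643303), (nat_lit 12552662)] (nat_lit 10996129)) p12_14_1 (nat_lit 4) (nat_lit 78) (nat_lit 79) = true := by decide +kernel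
def p12_14_1_79 : pfC (piC [(nat_lit 38167130), (nat_lit 25010362), (nat_lit 18643303), (nat_lit 12552662)] (nat_lit 10996129)) p12_14_1 (nat_lit 4) (nat_lit 79) (nat_lit 80) = true := by decide +kernel
def p12_14_1_80 : pfC (piC [(nat_lit 38167130), (nat_lit 25010362), (nat_lit 18643303), (nat_lit 12552662)] (nat_lit 10996129)) p12_14_1 (nat_lit 4) (nat_lit 80) (nat_lit 81) = true := by decide +kernel
def p12_14_1_81 : pfC (piC [(nat_lit 38167130), (nat_lit 25010362), (nat_lit 18643303), (nat_lit 12552662)] (nat_lit 10996129)) p12_14_1 (nat_lit 4) (nat_lit 81) (nat_lit 82) = true := by decide +kernel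
def p12_14_1_82 : pfC (piC [(nat_lit 38167130), (nat_lit 25010362), (nat_lit 18643303), (nat_lit 12552662)] (nat_lit 10996129)) p12_14_1 (nat_lit 4) (nat_lit 82) (nat_lit 83) = true := by decide +kernel
def p12_14_1_83 : pfC (piC [(nat_lit 38167130), (nat_lit 25010362), (nat_lit 18643303), (nat_lit 12552662)] (nat_lit 10996129)) p12_14_1 (nat_lit 4) (nat_lit 83) (nat_lit 84) = true := by decide +kernel
def p12_14_1_84 : pfC (piC [(nat_lit 38167130), (nat_lit 25010362), (nat_lit 18643303), (nat_lit 12552662)] (nat_lit 10996129)) p12_14_1 (nat_lit 4) (nat_lit 84) (nat_lit 85) = true := by decide +kernel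
def p12_14_1_85 : pfC (piC [(nat_lit 38167130), (nat_lit 25010362), (nat_lit 18643303), (nat_lit 12552662)] (nat_lit 10996129)) p12_14_1 (nat_lit 4) (nat_lit 85) (nat_lit 86) = true := by decide +kernel
def p12_14_1_86 : pfC (piC [(nat_lit 38167130), (nat_lit 25010362), (nat_lit 18643303), (nat_lit 12552662)] (nat_lit 10996129)) p12_14_1 (nat_lit 4) (nat_lit 86) (nat_lit 87) = true := by decide +kernel
def p12_14_1_87 : pfC (piC [(nat_lit 38167130), (nat_lit 25010362), (nat_lit 18643303), (nat_lit 12552662)] (nat_lit 10996129)) p12_14_1 (nat_lit 4) (nat_lit 87) (nat_lit 88) = true := by decide +kernel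
def p12_14_1_88 : pfC (piC [(nat_lit 38167130), (nat_lit 25010362), (nat_lit 18643303), (nat_lit 12552662)] (nat_lit 10996129)) p12_14_1 (nat_lit 4) (nat_lit 88) (nat_lit 89) = true := by decide +kernel
def p12_14_1_89 : pfC (piC [(nat_lit 38167130), (nat_lit 25010362), (nat_lit 18643303), (nat_lit 12552662)] (nat_lit 10996129)) p12_14_1 (nat_lit 4) (nat_lit 89) (nat_lit 90) = true := by decide +kernel
def p12_14_1_90 : pfC (piC [(nat_lit 38167130), (nat_lit 25010362), (nat_lit 18643303), (nat_lit 12552662)] (nat_lit 10996129)) p12_14_1 (nat_lit 4) (nat_lit 90) (nat_lit 91) = true := by decide +kernel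
def p12_14_1_91 : pfC (piC [(nat_lit 38167130), (nat_lit 25010362), (nat_lit 18643303), (nat_lit 12552662)] (nat_lit 10996129)) p12_14_1 (nat_lit 4) (nat_lit 91) (nat_lit 92) = true := by decide +kernel
def p12_14_1_92 : pfC (piC [(nat_lit 38167130), (nat_lit 25010362), (nat_lit 18643303), (nat_lit 12552662)] (nat_lit 10996129)) p12_14_1 (nat_lit 4) (nat_lit 92) (nat_lit 93) = true := by decide +kernel
def p12_14_1_93 : pfC (piC [(nat_lit 38167130), (nat_lit 25010362), (nat_lit 18643303), (nat_lit 12552662)] (nat_lit 10996129)) p12_14_1 (nat_lit 4) (nat_lit 93) (nat_lit 94) = true := by decide +kernel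
def p12_14_1_94 : pfC (piC [(nat_lit 38167130), (nat_lit 25010362), (nat_lit 18643303), (nat_lit 12552662)] (nat_lit 10996129)) p12_14_1 (nat_lit 4) (nat_lit 94) (nat_lit 95) = true := by decide +kernel
def p12_14_1_95 : pfC (piC [(nat_lit 38167130), (nat_lit 25010362), (nat_lit 18643303), (nat_lit 12552662)] (nat_lit 10996129)) p12_14_1 (nat_lit 4) (nat_lit 95) (nat_lit 96) = true := by decide +kernel
def p12_14_1_96 : pfC (piC [(nat_lit 38167130), (nat_lit 25010362), (nat_lit 18643303), (nat_lit 12552662)] (nat_lit 10996129)) p12_14_1 (nat_lit 4) (nat_lit 96) (nat_lit 97) = true := by decide +kernel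
def p12_14_1_97 : pfC (piC [(nat_lit 38167130), (nat_lit 25010362), (nat_lit 18643303), (nat_lit 12552662)] (nat_lit 10996129)) p12_14_1 (nat_lit 4) (nat_lit 97) (nat_lit 98) = true := by decide +kernel
def p12_14_1_98 : pfC (piC [(nat_lit 38167130), (nat_lit 25010362), (nat_lit 18643303), (nat_lit 12552662)] (nat_lit 10996129)) p12_14_1 (nat_lit 4) (nat_lit 98) (nat_lit 99) = true := by decide +kernel
def p12_14_1_99 : pfC (piC [(nat_lit 38167130), (nat_lit 25010362), (nat_lit 18643303), (nat_lit 12552662)] (nat_lit 10996129)) p12_14_1 (nat_lit 4) (nat_lit 99) (nat_lit 100) = true := by decide +kernel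
def p12_14_1_100 : pfC (piC [(nat_lit 38167130), (nat_lit 25010362), (nat_lit 18643303), (nat_lit 12552662)] (nat_lit 10996129)) p12_14_1 (nat_lit 4) (nat_lit 100) (nat_lit 101) = true := by decide +kernel
def p12_14_1_101 : pfC (piC [(nat_lit 38167130), (nat_lit 25010362), (nat_lit 18643303), (nat_lit 12552662)] (nat_lit 10996129)) p12_14_1 (nat_lit 4) (nat_lit 101) (nat_lit 102) = true := by decide +kernel
def p12_14_1_102 : pfC (piC [(nat_lit 38167130), (nat_lit 25010362), (nat_lit 18643303), (nat_lit 12552662)] (nat_lit 10996129)) p12_14_1 (nat_lit 4) (nat_lit 102) (nat_lit 103) = true := by decide +kernel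
def p12_14_1_103 : pfC (piC [(nat_lit 38167130), (nat_lit 25010362), (nat_lit 18643303), (nat_lit 12552662)] (nat_lit 10996129)) p12_14_1 (nat_lit 4) (nat_lit 103) (nat_lit 104) = true := by decide +kernel
def p12_14_1_104 : pfC (piC [(nat_lit 38167130), (nat_lit 25010362), (nat_lit 18643303), (nat_lit 12552662)] (nat_lit 10996129)) p12_14_1 (nat_lit 4) (nat_lit 104) (nat_lit 105) = true := by decide +kernel
def p12_14_1_105 : pfC (piC [(nat_lit 38167130), (nat_lit 25010362), (nat_lit 18643303), (nat_lit 12552662)] (nat_lit 10996129)) p12_14_1 (nat_lit 4) (nat_lit 105) (nat_lit 106) = true := by decide +kernel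
def p12_14_1_106 : pfC (piC [(nat_lit 38167130), (nat_lit 25010362), (nat_lit 18643303), (nat_lit 12552662)] (nat_lit 10996129)) p12_14_1 (nat_lit 4) (nat_lit 106) (nat_lit 107) = true := by decide +kernel
def p12_14_1_107 : pfC (piC [(nat_lit 38167130), (nat_lit 25010362), (nat_lit 18643303), (nat_lit 12552662)] (nat_lit 10996129)) p12_14_1 (nat_lit 4) (nat_lit 107) (nat_lit 108) = true := by decide +kernel
def p12_14_1_108 : pfC (piC [(nat_lit 38167130), (nat_lit 25010362), (nat_lit 18643303), (nat_lit 12552662)] (nat_lit 10996129)) p12_14_1 (nat_lit 4) (nat_lit 108) (nat_lit 109) = true := by decide +kernel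
def p12_14_1_109 : pfC (piC [(nat_lit 38167130), (nat_lit 25010362), (nat_lit 18643303), (nat_lit 12552662)] (nat_lit 10996129)) p12_14_1 (nat_lit 4) (nat_lit 109) (nat_lit 110) = true := by decide +kernel
def p12_14_1_110 : pfC (piC [(nat_lit 38167130), (nat_lit 25010362), (nat_lit 18643303), (nat_lit 12552662)] (nat_lit 10996129)) p12_14_1 (nat_lit 4) (nat_lit 110) (nat_lit 111) = true := by decide +kernel
def p12_14_1_111 : pfC (piC [(nat_lit 38167130), (nat_lit 25010362), (nat_lit 18643303), (nat_lit 12552662)] (nat_lit 10996129)) p12_14_1 (nat_lit 4) (nat_lit 111) (nat_lit 112) = true := by decide +kernel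
def p12_14_1_112 : pfC (piC [(nat_lit 38167130), (nat_lit 25010362), (nat_lit 18643303), (nat_lit 12552662)] (nat_lit 10996129)) p12_14_1 (nat_lit 4) (nat_lit 112) (nat_lit 113) = true := by decide +kernel
def p12_14_1_113 : pfC (piC [(nat_lit 38167130), (nat_lit 25010362), (nat_lit 18643303), (nat_lit 12552662)] (nat_lit 10996129)) p12_14_1 (nat_lit 4) (nat_lit 113) (nat_lit 114) = true := by decide +kernel
def p12_14_1_114 : pfC (piC [(nat_lit 38167130), (nat_lit 25010362), (nat_lit 18643303), (nat_lit 12552662)] (nat_lit 10996129)) p12_14_1 (nat_lit 4) (nat_lit 114) (nat_lit 115) = true := by decide +kernel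
def p12_14_1_115 : pfC (piC [(nat_lit 38167130), (nat_lit 25010362), (nat_lit 18643303), (nat_lit 12552662)] (nat_lit 10996129)) p12_14_1 (nat_lit 4) (nat_lit 115) (nat_lit 116) = true := by decide +kernel
def p12_14_1_116 : pfC (piC [(nat_lit 38167130), (nat_lit 25010362), (nat_lit 18643303), (nat_lit 12552662)] (nat_lit 10996129)) p12_14_1 (nat_lit 4) (nat_lit 116) (nat_lit 117) = true := by decide +kernel
def p12_14_1_117 : pfC (piC [(nat_lit 38167130), (nat_lit 25010362), (nat_lit 18643303), (nat_lit 12552662)] (nat_lit 10996129)) p12_14_1 (nat_lit 4) (nat_lit 117) (nat_lit 118) = true := by decide +kernel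
def p12_14_1_118 : pfC (piC [(nat_lit 38167130), (nat_lit 25010362), (nat_lit 18643303), (nat_lit 12552662)] (nat_lit 10996129)) p12_14_1 (nat_lit 4) (nat_lit 118) (nat_lit 119) = true := by decide +kernel
def p12_14_1_119 : pfC (piC [(nat_lit 38167130), (nat_lit 25010362), (nat_lit 18643303), (nat_lit 12552662)] (nat_lit 10996129)) p12_14_1 (nat_lit 4) (nat_lit 119) (nat_lit 120) = true := by decide +kernel
def p12_14_1_120 : pfC (piC [(nat_lit 38167130), (nat_lit 25010362), (nat_lit 18643303), (nat_lit 12552662)] (nat_lit 10996129)) p12_14_1 (nat_lit 4) (nat_lit 120) (nat_lit 121) = true := by decide +kernel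
def p12_14_1_121 : pfC (piC [(nat_lit 38167130), (nat_lit 25010362), (nat_lit 18643303), (nat_lit 12552662)] (nat_lit 10996129)) p12_14_1 (nat_lit 4) (nat_lit 121) (nat_lit 122) = true := by decide +kernel
def p12_14_1_122 : pfC (piC [(nat_lit 38167130), (nat_lit 25010362), (nat_lit 18643303), (nat_lit 12552662)] (nat_lit 10996129)) p12_14_1 (nat_lit 4) (nat_lit 122) (nat_lit 123) = true := by decide +kernel
def p12_14_1_123 : pfC (piC [(nat_lit 38167130), (nat_lit 25010362), (nat_lit 18643303), (nat_lit 12552662)] (nat_lit 10996129)) p12_14_1 (nat_lit 4) (nat_lit 123) (nat_lit 124) = true := by decide +kernel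
def p12_14_1_124 : pfC (piC [(nat_lit 38167130), (nat_lit 25010362), (nat_lit 18643303), (nat_lit 12552662)] (nat_lit 10996129)) p12_14_1 (nat_lit 4) (nat_lit 124) (nat_lit 125) = true := by decide +kernel
def p12_14_1_125 : pfC (piC [(nat_lit 38167130), (nat_lit 25010362), (nat_lit 18643303), (nat_lit 12552662)] (nat_lit 10996129)) p12_14_1 (nat_lit 4) (nat_lit 125) (nat_lit 126) = true := by decide +kernel
def p12_14_1_126 : pfC (piC [(nat_lit 38167130), (nat_lit 25010362), (nat_lit 18643303), (nat_lit 12552662)] (nat_lit 10996129)) p12_14_1 (nat_lit 4) (nat_lit 126) (nat_lit 127) = true := by decide +kernel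
def p12_14_1_127 : pfC (piC [(nat_lit 38167130), (nat_lit 25010362), (nat_lit 18643303), (nat_lit 12552662)] (nat_lit 10996129)) p12_14_1 (nat_lit 4) (nat_lit 127) (nat_lit 128) = true := by decide +kernel
def p12_14_1_128 : pfC (piC [(nat_lit 38167130), (nat_lit 25010362), (nat_lit 18643303), (nat_lit 12552662)] (nat_lit 10996129)) p12_14_1 (nat_lit 4) (nat_lit 128) (nat_lit 129) = true := by decide +kernel
def p12_14_1_129 : pfC (piC [(nat_lit 38167130), (nat_lit 25010362), (nat_lit 18643303), (nat_lit 12552662)] (nat_lit 10996129)) p12_14_1 (nat_lit 4) (nat_lit 129) (nat_lit 130) = true := by decide +kernel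
def p12_14_1_130 : pfC (piC [(nat_lit 38167130), (nat_lit 25010362), (nat_lit 18643303), (nat_lit 12552662)] (nat_lit 10996129)) p12_14_1 (nat_lit 4) (nat_lit 130) (nat_lit 131) = true := by decide +kernel
def p12_14_1_131 : pfC (piC [(nat_lit 38167130), (nat_lit 25010362), (nat_lit 18643303), (nat_lit 12552662)] (nat_lit 10996129)) p12_14_1 (nat_lit 4) (nat_lit 131) (nat_lit 132) = true := by decide +kernel
def p12_14_1_132 : pfC (piC [(nat_lit 38167130), (nat_lit 25010362), (nat_lit 18643303), (nat_lit 12552662)] (nat_lit 10996129)) p12_14_1 (nat_lit 4) (nat_lit 132) (nat_lit 133) = true := by decide +kernel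
def p12_14_1_133 : pfC (piC [(nat_lit 38167130), (nat_lit 25010362), (nat_lit 18643303), (nat_lit 12552662)] (nat_lit 10996129)) p12_14_1 (nat_lit 4) (nat_lit 133) (nat_lit 134) = true := by decide +kernel
def p12_14_1_134 : pfC (piC [(nat_lit 38167130), (nat_lit 25010362), (nat_lit 18643303), (nat_lit 12552662)] (nat_lit 10996129)) p12_14_1 (nat_lit 4) (nat_lit 134) (nat_lit 135) = true := by decide +kernel
def p12_14_1_135 : pfC (piC [(nat_lit 38167130), (nat_lit 25010362), (nat_lit 18643303), (nat_lit 12552662)] (nat_lit 10996129)) p12_14_1 (nat_lit 4) (nat_lit 135) (nat_lit 136) = true := by decide +kernel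
def p12_14_1_136 : pfC (piC [(nat_lit 38167130), (nat_lit 25010362), (nat_lit 18643303), (nat_lit 12552662)] (nat_lit 10996129)) p12_14_1 (nat_lit 4) (nat_lit 136) (nat_lit 137) = true := by decide +kernel
def p12_14_1_137 : pfC (piC [(nat_lit 38167130), (nat_lit 25010362), (nat_lit 18643303), (nat_lit 12552662)] (nat_lit 10996129)) p12_14_1 (nat_lit 4) (nat_lit 137) (nat_lit 138) = true := by decide +kernel
def p12_14_1_138 : pfC (piC [(nat_lit 38167130), (nat_lit 25010362), (nat_lit 18643303), (nat_lit 12552662)] (nat_lit 10996129)) p12_14_1 (nat_lit 4) (nat_lit 138) (nat_lit 139) = true := by decide +kernel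
def p12_14_1_139 : pfC (piC [(nat_lit 38167130), (nat_lit 25010362), (nat_lit 18643303), (nat_lit 12552662)] (nat_lit 10996129)) p12_14_1 (nat_lit 4) (nat_lit 139) (nat_lit 140) = true := by decide +kernel
def p12_14_1_140 : pfC (piC [(nat_lit 38167130), (nat_lit 25010362), (nat_lit 18643303), (nat_lit 12552662)] (nat_lit 10996129)) p12_14_1 (nat_lit 4) (nat_lit 140) (nat_lit 141) = true := by decide +kernel
def p12_14_1_141 : pfC (piC [(nat_lit 38167130), (nat_lit 25010362), (nat_lit 18643303), (nat_lit 12552662)] (nat_lit 10996129)) p12_14_1 (nat_lit 4) (nat_lit 141) (nat_lit 142) = true := by decide +kernel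
def p12_14_1_142 : pfC (piC [(nat_lit 38167130), (nat_lit 25010362), (nat_lit 18643303), (nat_lit 12552662)] (nat_lit 10996129)) p12_14_1 (nat_lit 4) (nat_lit 142) (nat_lit 143) = true := by decide +kernel
def p12_14_1_143 : pfC (piC [(nat_lit 38167130), (nat_lit 25010362), (nat_lit 18643303), (nat_lit 12552662)] (nat_lit 10996129)) p12_14_1 (nat_lit 4) (nat_lit 143) (nat_lit 144) = true := by decide +kernel
def p12_14_1_144 : pfC (piC [(nat_lit 38167130), (nat_lit 25010362), (nat_lit 18643303), (nat_lit 12552662)] (nat_lit 10996129)) p12_14_1 (nat_lit 4) (nat_lit 144) (nat_lit 145) = true := by decide +kernel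
def p12_14_1_145 : pfC (piC [(nat_lit 38167130), (nat_lit 25010362), (nat_lit 18643303), (nat_lit 12552662)] (nat_lit 10996129)) p12_14_1 (nat_lit 4) (nat_lit 145) (nat_lit 146) = true := by decide +kernel
def p12_14_1_146 : pfC (piC [(nat_lit 38167130), (nat_lit 25010362), (nat_lit 18643303), (nat_lit 12552662)] (nat_lit 10996129)) p12_14_1 (nat_lit 4) (nat_lit 146) (nat_lit 147) = true := by decide +kernel
def p12_14_1_147 : pfC (piC [(nat_lit 38167130), (nat_lit 25010362), (nat_lit 18643303), (nat_lit 12552662)] (nat_lit 10996129)) p12_14_1 (nat_lit 4) (nat_lit 147) (nat_lit 148) = true := by decide +kernel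
def p12_14_1_148 : pfC (piC [(nat_lit 38167130), (nat_lit 25010362), (nat_lit 18643303), (nat_lit 12552662)] (nat_lit 10996129)) p12_14_1 (nat_lit 4) (nat_lit 148) (nat_lit 149) = true := by decide +kernel
def p12_14_1_149 : pfC (piC [(nat_lit 38167130), (nat_lit 25010362), (nat_lit 18643303), (nat_lit 12552662)] (nat_lit 10996129)) p12_14_1 (nat_lit 4) (nat_lit 149) (nat_lit 150) = true := by decide +kernel
def p12_14_1_150 : pfC (piC [(nat_lit 38167130), (nat_lit 25010362), (nat_lit 18643303), (nat_lit 12552662)] (nat_lit 10996129)) p12_14_1 (nat_lit 4) (nat_lit 150) (nat_lit 151) = true := by decide +kernel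
def p12_14_1_151 : pfC (piC [(nat_lit 38167130), (nat_lit 25010362), (nat_lit 18643303), (nat_lit 12552662)] (nat_lit 10996129)) p12_14_1 (nat_lit 4) (nat_lit 151) (nat_lit 152) = true := by decide +kernel
def p12_14_1_152 : pfC (piC [(nat_lit 38167130), (nat_lit 25010362), (nat_lit 18643303), (nat_lit 12552662)] (nat_lit 10996129)) p12_14_1 (nat_lit 4) (nat_lit 152) (nat_lit 153) = true := by decide +kernel
def p12_14_1_153 : pfC (piC [(nat_lit 38167130), (nat_lit 25010362), (nat_lit 18643303), (nat_lit 12552662)] (nat_lit 10996129)) p12_14_1 (nat_lit 4) (nat_lit 153) (nat_lit 154) = true := by decide +kernel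
def p12_14_1_154 : pfC (piC [(nat_lit 38167130), (nat_lit 25010362), (nat_lit 18643303), (nat_lit 12552662)] (nat_lit 10996129)) p12_14_1 (nat_lit 4) (nat_lit 154) (nat_lit 155) = true := by decide +kernel
def p12_14_1_155 : pfC (piC [(nat_lit 38167130), (nat_lit 25010362), (nat_lit 18643303), (nat_lit 12552662)] (nat_lit 10996129)) p12_14_1 (nat_lit 4) (nat_lit 155) (nat_lit 156) = true := by decide +kernel
def p12_14_1_156 : pfC (piC [(nat_lit 38167130), (nat_lit 25010362), (nat_lit 18643303), (nat_lit 12552662)] (nat_lit 10996129)) p12_14_1 (nat_lit 4) (nat_lit 156) (nat_lit 157) = true := by decide +kernel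
def p12_14_1_157 : pfC (piC [(nat_lit 38167130), (nat_lit 25010362), (nat_lit 18643303), (nat_lit 12552662)] (nat_lit 10996129)) p12_14_1 (nat_lit 4) (nat_lit 157) (nat_lit 158) = true := by decide +kernel
def p12_14_1_158 : pfC (piC [(nat_lit 38167130), (nat_lit 25010362), (nat_lit 18643303), (nat_lit 12552662)] (nat_lit 10996129)) p12_14_1 (nat_lit 4) (nat_lit 158) (nat_lit 159) = true := by decide +kernel
def p12_14_1_159 : pfC (piC [(nat_lit 38167130), (nat_lit 25010362), (nat_lit 18643303), (nat_lit 12552662)] (nat_lit 10996129)) p12_14_1 (nat_lit 4) (nat_lit 159) (nat_lit 160) = true := by decide +kernel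
def p12_14_1_160 : pfC (piC [(nat_lit 38167130), (nat_lit 25010362), (nat_lit 18643303), (nat_lit 12552662)] (nat_lit 10996129)) p12_14_1 (nat_lit 4) (nat_lit 160) (nat_lit 161) = true := by decide +kernel
theorem p12_14_1_T : PfS (PiF n12_14.reverse (nat_lit 10996129)) p12_14_1 (nat_lit 4) [] 0 :=
  pftab_of (los := [(nat_lit 38167130), (nat_lit 25010362), (nat_lit 18643303), (nat_lit 12552662)]) (by decide +kernel) (hi := (nat_lit 161)) (PfP.trans (PfP.trans (PfP.trans (PfP.trans (PfP.trans (PfP.trans (PfP.trans (PfP.trans (PfP.trans (PfP.trans (PfP.trans (PfP.trans (PfP.trans (PfP.trans (PfP.trans (PfP.trans (PfP.trans (PfP.trans (PfP.trans (PfP.trans (PfP.trans (PfP.trans (PfP.trans (PfP.trans (PfP.trans (PfP.trans (PfP.trans (PfP.trans (PfP.trans (PfP.trans (PfP.trans (PfP.trans (PfP.trans (PfP.trans (PfP.trans (PfP.trans (PfP.trans (PfP.trans (PfP.trans (PfP.trans (PfP.trans (PfP.trans (PfP.trans (PfP.trans (PfP.trans (PfP.trans (PfP.trans (PfP.trans (PfP.trans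 (PfP.trans (PfP.trans (PfP.trans (PfP.trans (PfP.trans (PfP.trans (PfP.trans (PfP.trans (PfP.trans (PfP.trans (PfP.trans (PfP.trans (PfP.trans (PfP.trans (PfP.trans (PfP.trans (PfP.trans (PfP.trans (PfP.trans (PfP.trans (PfP.trans (PfP.trans (PfP.trans (PfP.trans (PfP.trans (PfP.trans (PfP.trans (PfP.trans (PfP.trans (PfP.trans (PfP.trans (PfP.trans (PfP.trans (PfP.trans (PfP.trans (PfP.trans (PfP.trans (PfP.trans (PfP.trans (PfP.trans (PfP.trans (PfP.trans (PfP.trans (PfP.trans (PfP.trans (PfP.trans (PfP.trans (PfP.trans (PfP.trans (PfP.trans (PfP.trans (PfP.trans (PfP.trans (PfP.trans (PfP.trans (PfP.trans (PfP.trans (PfP.trans (PfP.trans (PfP.trans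
 (PfP.trans (PfP.trans (PfP.trans (PfP.trans (PfP.trans (PfP.trans (PfP.trans (PfP.trans (PfP.trans (PfP.trans (PfP.trans (PfP.trans (PfP.trans (PfP.trans (PfP.trans (PfP.trans (PfP.trans (PfP.trans (PfP.trans (PfP.trans (PfP.trans (PfP.trans (PfP.trans (PfP.trans (PfP.trans (PfP.trans (PfP.trans (PfP.trans (PfP.trans (PfP.trans (PfP.trans (PfP.trans (PfP.trans (PfP.trans (PfP.trans (PfP.trans (PfP.trans (PfP.trans (PfP.trans (PfP.trans (PfP.trans (PfP.trans (PfP.trans (PfP.trans (PfP.trans (PfP.trans (PfP.trans (PfP.trans (PfP.trans (PfP.trans (PfP.trans (pfC_sound p12_14_1_0) (pfC_sound p12_14_1_1)) (pfC_sound p12_14_1_2)) (pfC_sound p12_14_1_3)) (pfC_sound p12_14_1_4)) (pfC_sound p12_14_1_5)) (pfC_sound p12_14_1_6)) (pfC_sound p12_14_1_7)) (pfC_sound p12_14_1_8)) (pfC_sound p12_14_1_9)) (pfC_sound p12_14_1_10)) (pfC_sound p12_14_1_11)) (pfC_sound p12_14_1_12)) (pfC_sound p12_14_1_13)) (pfC_sound p12_14_1_14)) (pfC_sound p12_14_1_15)) (pfC_sound p12_14_1_16)) (pfC_sound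 p12_14_1_17)) (pfC_sound p12_14_1_18)) (pfC_sound p12_14_1_19)) (pfC_sound p12_14_1_20)) (pfC_sound p12_14_1_21)) (pfC_sound p12_14_1_22)) (pfC_sound p12_14_1_23)) (pfC_sound p12_14_1_24)) (pfC_sound p12_14_1_25))
 (pfC_sound p12_14_1_26)) (pfC_sound p12_14_1_27)) (pfC_sound p12_14_1_28)) (pfC_sound p12_14_1_29)) (pfC_sound p12_14_1_30)) (pfC_sound p12_14_1_31)) (pfC_sound p12_14_1_32)) (pfC_sound p12_14_1_33)) (pfC_sound p12_14_1_34)) (pfC_sound p12_14_1_35)) (pfC_sound p12_14_1_36)) (pfC_sound p12_14_1_37)) (pfC_sound p12_14_1_38)) (pfC_sound p12_14_1_39)) (pfC_sound p12_14_1_40)) (pfC_sound p12_14_1_41)) (pfC_sound p12_14_1_42)) (pfC_sound p12_14_1_43)) (pfC_sound p12_14_1_44)) (pfC_sound p12_14_1_45)) (pfC_sound p12_14_1_46)) (pfC_sound p12_14_1_47)) (pfC_sound p12_14_1_48)) (pfC_sound p12_14_1_49)) (pfC_sound p12_14_1_50)) (pfC_sound p12_14_1_51)) (pfC_sound p12_14_1_52)) (pfC_sound p12_14_1_53)) (pfC_sound p12_14_1_54)) (pfC_sound p12_14_1_55)) (pfC_sound p12_14_1_56))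 (pfC_sound p12_14_1_57)) (pfC_sound p12_14_1_58)) (pfC_sound p12_14_1_59)) (pfC_sound p12_14_1_60)) (pfC_sound p12_14_1_61)) (pfC_sound p12_14_1_62)) (pfC_sound p12_14_1_63)) (pfC_sound p12_14_1_64)) (pfC_sound p12_14_1_65)) (pfC_sound p12_14_1_66)) (pfC_sound p12_14_1_67)) (pfC_sound p12_14_1_68)) (pfC_sound p12_14_1_69)) (pfC_sound p12_14_1_70)) (pfC_sound p12_14_1_71)) (pfC_sound p12_14_1_72)) (pfC_sound p12_14_1_73))
 (pfC_sound p12_14_1_74)) (pfC_sound p12_14_1_75)) (pfC_sound p12_14_1_76)) (pfC_sound p12_14_1_77)) (pfC_sound p12_14_1_78)) (pfC_sound p12_14_1_79)) (pfC_sound p12_14_1_80)) (pfC_sound p12_14_1_81)) (pfC_sound p12_14_1_82)) (pfC_sound p12_14_1_83)) (pfC_sound p12_14_1_84)) (pfC_sound p12_14_1_85)) (pfC_sound p12_14_1_86)) (pfC_sound p12_14_1_87)) (pfC_sound p12_14_1_88)) (pfC_sound p12_14_1_89)) (pfC_sound p12_14_1_90)) (pfC_sound p12_14_1_91)) (pfC_sound p12_14_1_92)) (pfC_sound p12_14_1_93)) (pfC_sound p12_14_1_94)) (pfC_sound p12_14_1_95)) (pfC_sound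 p12_14_1_96)) (pfC_sound p12_14_1_97)) (pfC_sound p12_14_1_98)) (pfC_sound p12_14_1_99)) (pfC_sound p12_14_1_100)) (pfC_sound p12_14_1_101)) (pfC_sound p12_14_1_102)) (pfC_sound p12_14_1_103)) (pfC_sound p12_14_1_104)) (pfC_sound p12_14_1_105)) (pfC_sound p12_14_1_106)) (pfC_sound p12_14_1_107)) (pfC_sound p12_14_1_108)) (pfC_sound p12_14_1_109)) (pfC_sound p12_14_1_110)) (pfC_sound p12_14_1_111)) (pfC_sound p12_14_1_112)) (pfC_sound p12_14_1_113)) (pfC_sound p12_14_1_114)) (pfC_sound p12_14_1_115)) (pfC_sound p12_14_1_116)) (pfC_sound p12_14_1_117)) (pfC_sound p12_14_1_118)) (pfC_sound p12_14_1_119)) (pfC_sound p12_14_1_120))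
 (pfC_sound p12_14_1_121)) (pfC_sound p12_14_1_122)) (pfC_sound p12_14_1_123)) (pfC_sound p12_14_1_124)) (pfC_sound p12_14_1_125)) (pfC_sound p12_14_1_126)) (pfC_sound p12_14_1_127)) (pfC_sound p12_14_1_128)) (pfC_sound p12_14_1_129)) (pfC_sound p12_14_1_130)) (pfC_sound p12_14_1_131)) (pfC_sound p12_14_1_132)) (pfC_sound p12_14_1_133)) (pfC_sound p12_14_1_134)) (pfC_sound p12_14_1_135)) (pfC_sound p12_14_1_136)) (pfC_sound p12_14_1_137)) (pfC_sound p12_14_1_138)) (pfC_sound p12_14_1_139)) (pfC_sound p12_14_1_140)) (pfC_sound p12_14_1_141)) (pfC_sound p12_14_1_142)) (pfC_sound p12_14_1_143)) (pfC_sound p12_14_1_144)) (pfC_sound p12_14_1_145)) (pfC_sound p12_14_1_146)) (pfC_sound p12_14_1_147)) (pfC_sound p12_14_1_148)) (pfC_sound p12_14_1_149)) (pfC_sound p12_14_1_150)) (pfC_sound p12_14_1_151)) (pfC_sound p12_14_1_152)) (pfC_sound p12_14_1_153)) (pfC_sound p12_14_1_154)) (pfC_sound p12_14_1_155)) (pfC_sound p12_14_1_156)) (pfC_sound p12_14_1_157)) (pfC_sound p12_14_1_158))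 (pfC_sound p12_14_1_159)) (pfC_sound p12_14_1_160)) (by decide +kernel)

def z12_14_1 : zOK yB12_14 (nat_lit 1) (nat_lit 400) (nat_lit 600) (nat_lit 10996129) (nat_lit 7550227) = true := by decide +kernel
def g12_14_1 : gOK yB12_14.x P12_14 (nat_lit 1409) (q12_14 :: r12_14) (nat_lit 1) (nat_lit 400) (nat_lit 2) (nat_lit 600) (nat_lit 11000000) (nat_lit 17850000) (nat_lit 12712500) (nat_lit 12712500) [(nat_lit 800), (nat_lit 1130)] = true := by decide +kernel
def v12_14_1 : ivC P12_14 s12_14 w12_14 n12_14 (nat_lit 4) (nat_lit 4980) (nat_lit 1) (nat_lit 400) f160_1_400 f168_1_400 (nat_lit 2) (nat_lit 600) f160_1_600 f168_1_600 (nat_lit 10996129) (nat_lit 7550227) p12_14_1 = true := by decide +kernel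
def p12_14_2 : PF := (PF.cons (PF.cons (PF.cons (PF.cons (PF.leaf (nat_lit 2595499) (nat_lit 14355703) (nat_lit 52753109) (nat_lit 14355703) [(nat_lit 0), (nat_lit 0), (nat_lit 0), (nat_lit 0)]) (PF.cons (PF.leaf (nat_lit 2772860) (nat_lit 314238) (nat_lit 52447252) (nat_lit 14347321) [(nat_lit 314238), (nat_lit 0), (nat_lit 0), (nat_lit 0)]) (PF.cons (PF.leaf (nat_lit 2982076) (nat_lit 341392) (nat_lit 52090296) (nat_lit 14335731) [(nat_lit 341392), (nat_lit 0), (nat_lit 0), (nat_lit 0)]) (PF.cons (PF.leaf (nat_lit 3216621) (nat_lit 365357) (nat_lit 51692152) (nat_lit 14320587) [(nat_lit 365357), (nat_lit 0), (nat_lit 0), (nat_lit 0)]) (PF.cons (PF.leaf (nat_lit 3472666) (nat_lit 386830) (nat_lit 51259906) (nat_lit 14301582) [(nat_lit 386830), (nat_lit 0), (nat_lit 0), (nat_lit 0)]) (PF.cons (PF.leaf (nat_lit 3747255) (nat_lit 406258) (nat_lit 50799054) (nat_lit 14278467) [(nat_lit 406258), (nat_lit 0), (nat_lit 0), (nat_lit 0)]) (PF.cons (PF.leaf (nat_lit 4037994)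 (nat_lit 423944) (nat_lit 50314087) (nat_lit 14251056) [(nat_lit 423944), (nat_lit 0), (nat_lit 0), (nat_lit 0)]) (PF.cons (PF.leaf (nat_lit 4342861) (nat_lit 440113) (nat_lit 49808795) (nat_lit 14219224) [(nat_lit 440113), (nat_lit 0),
 (nat_lit 0), (nat_lit 0)]) (PF.cons (PF.leaf (nat_lit 4660078) (nat_lit 454932) (nat_lit 49286448) (nat_lit 14182906) [(nat_lit 454932), (nat_lit 0), (nat_lit 0), (nat_lit 0)]) (PF.cons (PF.leaf (nat_lit 4988060) (nat_lit 468534) (nat_lit 48749915) (nat_lit 14142088) [(nat_lit 468534), (nat_lit 0), (nat_lit 0), (nat_lit 0)]) (PF.cons PF.nil (PF.cons PF.nil PF.nil)))))))))))) (PF.cons (PF.cons (PF.leaf (nat_lit 3168070) (nat_lit 1360515) (nat_lit 51443529) (nat_lit 14304768) [(nat_lit 0), (nat_lit 1360515), (nat_lit 0), (nat_lit 0)]) (PF.cons (PF.leaf (nat_lit 3395044) (nat_lit 375384) (nat_lit 51051827) (nat_lit 14286242) [(nat_lit 375384), (nat_lit 1395358), (nat_lit 0), (nat_lit 0)]) (PF.cons (PF.leaf (nat_lit 3645749) (nat_lit 396083)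 (nat_lit 50623976) (nat_lit 14263624) [(nat_lit 396083), (nat_lit 1429044), (nat_lit 0), (nat_lit 0)]) (PF.cons (PF.leaf (nat_lit 3915774) (nat_lit 414733) (nat_lit 50166755) (nat_lit 14236777) [(nat_lit 414733), (nat_lit 1461078), (nat_lit 0), (nat_lit 0)]) (PF.cons (PF.leaf (nat_lit 4202363) (nat_lit 431670) (nat_lit 49685306) (nat_lit 14205596) [(nat_lit 431670), (nat_lit 1491230), (nat_lit 0), (nat_lit 0)]) (PF.cons (PF.leaf (nat_lit 4503266)
 (nat_lit 447125) (nat_lit 49183762) (nat_lit 14170016) [(nat_lit 447125), (nat_lit 1519407), (nat_lit 0), (nat_lit 0)]) (PF.cons (PF.leaf (nat_lit 4816577) (nat_lit 461270) (nat_lit 48665574) (nat_lit 14130022) [(nat_lit 461270), (nat_lit 1545590), (nat_lit 0), (nat_lit 0)]) (PF.cons (PF.leaf (nat_lit 5140641) (nat_lit 474239) (nat_lit 48133698) (nat_lit 14085637) [(nat_lit 474239), (nat_lit 1569802), (nat_lit 0), (nat_lit 0)]) (PF.cons PF.nil (PF.cons PF.nil PF.nil)))))))))) (PF.cons (PF.cons (PF.leaf (nat_lit 3822075) (nat_lit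 1457057) (nat_lit 49975192) (nat_lit 14219506) [(nat_lit 0), (nat_lit 1457057), (nat_lit 0), (nat_lit 0)]) (PF.cons (PF.leaf (nat_lit 4085322) (nat_lit 421931) (nat_lit 49525912) (nat_lit 14189392) [(nat_lit 421931), (nat_lit 1485788), (nat_lit 0), (nat_lit 0)]) (PF.cons (PF.leaf (nat_lit 4366595) (nat_lit 438317) (nat_lit 49051184) (nat_lit 14154855) [(nat_lit 438317), (nat_lit 1513068), (nat_lit 0), (nat_lit 0)]) (PF.cons (PF.leaf (nat_lit 4662700) (nat_lit 453208) (nat_lit 48555872) (nat_lit 14115912) [(nat_lit 453208), (nat_lit 1538701), (nat_lit 0), (nat_lit 0)]) (PF.cons (PF.leaf (nat_lit 4971480) (nat_lit 466795) (nat_lit 48043825) (nat_lit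
 14072603) [(nat_lit 466795), (nat_lit 1562600), (nat_lit 0), (nat_lit 0)]) (PF.cons (PF.leaf (nat_lit 5291206) (nat_lit 479221) (nat_lit 47518220) (nat_lit 14024997) [(nat_lit 479221), (nat_lit 1584743), (nat_lit 0), (nat_lit 0)]) (PF.cons (PF.leaf (nat_lit 5620279) (nat_lit 490598) (nat_lit 46981752) (nat_lit 13973187) [(nat_lit 490598), (nat_lit 1605142), (nat_lit 0), (nat_lit 0)]) (PF.cons PF.nil (PF.cons PF.nil PF.nil))))))))) (PF.cons (PF.cons (PF.leaf (nat_lit 4532278) (nat_lit 1532855) (nat_lit 48411371) (nat_lit 14098875) [(nat_lit 0), (nat_lit 1532855), (nat_lit 0), (nat_lit 0)]) (PF.cons (PF.leaf (nat_lit 4822013) (nat_lit 458383) (nat_lit 47925082) (nat_lit 14057015) [(nat_lit 458383), (nat_lit 1556110), (nat_lit 0), (nat_lit 0)]) (PF.cons (PF.leaf (nat_lit 5125510) (nat_lit 471531) (nat_lit 47421312) (nat_lit 14010795) [(nat_lit 471531), (nat_lit 1577880), (nat_lit 0), (nat_lit 0)]) (PF.cons (PF.leaf (nat_lit 5440266) (nat_lit 483507) (nat_lit 46903664)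 (nat_lit 13960338) [(nat_lit 483507), (nat_lit 1598095), (nat_lit 0), (nat_lit 0)]) (PF.cons (PF.leaf (nat_lit 5764609) (nat_lit 494438) (nat_lit 46375075) (nat_lit 13905777) [(nat_lit 494438), (nat_lit 1616734),
 (nat_lit 0), (nat_lit 0)]) (PF.cons PF.nil (PF.cons PF.nil PF.nil))))))) (PF.cons (PF.cons (PF.leaf (nat_lit 5279815) (nat_lit 1591581) (nat_lit 46797792) (nat_lit 13944695) [(nat_lit 0), (nat_lit 1591581), (nat_lit 0), (nat_lit 0)]) (PF.cons (PF.leaf (nat_lit 5588478) (nat_lit 487109) (nat_lit 46289963) (nat_lit 13891794) [(nat_lit 487109), (nat_lit 1609986), (nat_lit 0), (nat_lit 0)]) (PF.cons (PF.leaf (nat_lit 5907519) (nat_lit 497674) (nat_lit 45770702) (nat_lit 13834852) [(nat_lit 497674), (nat_lit 1626977), (nat_lit 0), (nat_lit 0)]) (PF.cons (PF.leaf (nat_lit 6234966) (nat_lit 507286) (nat_lit 45242727) (nat_lit 13774054) [(nat_lit 507286), (nat_lit 1642542), (nat_lit 0), (nat_lit 0)]) (PF.cons PF.nil PF.nil))))) (PF.cons (PF.cons (PF.leaf (nat_lit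 6049988) (nat_lit 1635969) (nat_lit 45168436) (nat_lit 13760530) [(nat_lit 0), (nat_lit 1635969), (nat_lit 0), (nat_lit 0)]) (PF.cons (PF.leaf (nat_lit 6371549) (nat_lit 509619) (nat_lit 44650807) (nat_lit 13697806) [(nat_lit 509619), (nat_lit 1650115), (nat_lit 0), (nat_lit 0)]) (PF.cons PF.nil (PF.cons PF.nil PF.nil)))) (PF.cons (PF.cons (PF.leaf (nat_lit 6831240) (nat_lit 1668232) (nat_lit 43548589) (nat_lit 13550825)
 [(nat_lit 0), (nat_lit 1668232), (nat_lit 0), (nat_lit 0)]) (PF.cons PF.nil PF.nil)) (PF.cons PF.nil PF.nil)))))))) (PF.cons (PF.cons (PF.cons (PF.leaf (nat_lit 3724556) (nat_lit 3458906) (nat_lit 49487781) (nat_lit 14162125) [(nat_lit 0), (nat_lit 0), (nat_lit 3458906), (nat_lit 0)]) (PF.cons (PF.leaf (nat_lit 3960464) (nat_lit 399960) (nat_lit 49088112) (nat_lit 14133528) [(nat_lit 399960), (nat_lit 0), (nat_lit 3487211), (nat_lit 0)]) (PF.cons (PF.leaf (nat_lit 4218748) (nat_lit 419094) (nat_lit 48655171) (nat_lit 14100351) [(nat_lit 419094), (nat_lit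 0), (nat_lit 3515102), (nat_lit 0)]) (PF.cons (PF.leaf (nat_lit 4494891) (nat_lit 436089) (nat_lit 48195962) (nat_lit 14062718) [(nat_lit 436089), (nat_lit 0), (nat_lit 3541863), (nat_lit 0)]) (PF.cons (PF.leaf (nat_lit 4786075) (nat_lit 451345) (nat_lit 47715661) (nat_lit 14020724) [(nat_lit 451345), (nat_lit 0), (nat_lit 3567044), (nat_lit 0)]) (PF.cons (PF.leaf (nat_lit 5090054) (nat_lit 465132) (nat_lit 47218325) (nat_lit 13974466) [(nat_lit 465132), (nat_lit 0), (nat_lit 3590360), (nat_lit 0)]) (PF.cons (PF.leaf (nat_lit 5405000) (nat_lit 477643) (nat_lit 46707266) (nat_lit 13924051) [(nat_lit 477643), (nat_lit 0), (nat_lit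
 3611635), (nat_lit 0)]) (PF.cons (PF.leaf (nat_lit 5729305) (nat_lit 489024) (nat_lit 46185263) (nat_lit 13869605) [(nat_lit 489024), (nat_lit 0), (nat_lit 3630772), (nat_lit 0)]) (PF.cons PF.nil (PF.cons PF.nil PF.nil)))))))))) (PF.cons (PF.cons (PF.leaf (nat_lit 4388864) (nat_lit 1510234) (nat_lit 48015450) (nat_lit 14042259) [(nat_lit 0), (nat_lit 1510234), (nat_lit 3540869), (nat_lit 0)]) (PF.cons (PF.leaf (nat_lit 4657249) (nat_lit 441134) (nat_lit 47567222) (nat_lit 14002235) [(nat_lit 441134), (nat_lit 1534141), (nat_lit 3564079), (nat_lit 0)]) (PF.cons (PF.leaf (nat_lit 4942288) (nat_lit 456029) (nat_lit 47096341) (nat_lit 13957742) [(nat_lit 456029), (nat_lit 1556664), (nat_lit 3586006), (nat_lit 0)]) (PF.cons (PF.leaf (nat_lit 5240799) (nat_lit 469414) (nat_lit 46607625) (nat_lit 13908964) [(nat_lit 469414), (nat_lit 1577664), (nat_lit 3606315), (nat_lit 0)]) (PF.cons (PF.leaf (nat_lit 5550652) (nat_lit 481509) (nat_lit 46104813) (nat_lit 13856070) [(nat_lit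 481509), (nat_lit 1597090), (nat_lit 3624798), (nat_lit 0)]) (PF.cons (PF.leaf (nat_lit 5870145) (nat_lit 492476) (nat_lit 45590926) (nat_lit 13799225) [(nat_lit 492476), (nat_lit 1614938), (nat_lit 3641337),
 (nat_lit 0)]) (PF.cons PF.nil (PF.cons PF.nil (PF.cons PF.nil PF.nil))))))))) (PF.cons (PF.cons (PF.leaf (nat_lit 5100064) (nat_lit 1571146) (nat_lit 46473964) (nat_lit 13890331) [(nat_lit 0), (nat_lit 1571146), (nat_lit 3602225), (nat_lit 0)]) (PF.cons (PF.leaf (nat_lit 5391600) (nat_lit 472917) (nat_lit 45996270) (nat_lit 13839493) [(nat_lit 472917), (nat_lit 1590209), (nat_lit 3619710), (nat_lit 0)]) (PF.cons (PF.leaf (nat_lit 5695639) (nat_lit 484704) (nat_lit 45503501) (nat_lit 13784519) [(nat_lit 484704), (nat_lit 1607899), (nat_lit 3635584), (nat_lit 0)]) (PF.cons (PF.leaf (nat_lit 6009752) (nat_lit 495338) (nat_lit 44999117) (nat_lit 13725631) [(nat_lit 495338), (nat_lit 1624174), (nat_lit 3649699), (nat_lit 0)]) (PF.cons (PF.leaf (nat_lit 6332314) (nat_lit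 504959) (nat_lit 44485894) (nat_lit 13663041) [(nat_lit 504959), (nat_lit 1639030), (nat_lit 3661977), (nat_lit 0)]) (PF.cons PF.nil (PF.cons PF.nil PF.nil))))))) (PF.cons (PF.cons (PF.leaf (nat_lit 5841074) (nat_lit 1617436) (nat_lit 44902894) (nat_lit 13709460) [(nat_lit 0), (nat_lit 1617436), (nat_lit 3644148), (nat_lit 0)]) (PF.cons (PF.leaf (nat_lit 6148730) (nat_lit 497611) (nat_lit 44409594) (nat_lit 13648921)
 [(nat_lit 497611), (nat_lit 1632228), (nat_lit 3655999), (nat_lit 0)]) (PF.cons (PF.leaf (nat_lit 6465697) (nat_lit 506963) (nat_lit 43906793) (nat_lit 13584711) [(nat_lit 506963), (nat_lit 1645734), (nat_lit 3666175), (nat_lit 0)]) (PF.cons PF.nil (PF.cons PF.nil PF.nil))))) (PF.cons (PF.cons (PF.leaf (nat_lit 6598871) (nat_lit 1651421) (nat_lit 43330849) (nat_lit 13503693) [(nat_lit 0), (nat_lit 1651421), (nat_lit 3668583), (nat_lit 0)]) (PF.cons (PF.leaf (nat_lit 6917179) (nat_lit 516662) (nat_lit 42832174) (nat_lit 13434831) [(nat_lit 516662), (nat_lit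 1662481), (nat_lit 3675219), (nat_lit 0)]) (PF.cons PF.nil (PF.cons PF.nil PF.nil)))) (PF.cons (PF.cons (PF.leaf (nat_lit 7363378) (nat_lit 1675011) (nat_lit 41778603) (nat_lit 13277434) [(nat_lit 0), (nat_lit 1675011), (nat_lit 3677716), (nat_lit 0)]) (PF.cons PF.nil PF.nil)) PF.nil)))))) (PF.cons (PF.cons (PF.cons (PF.leaf (nat_lit 4941594) (nat_lit 3581527) (nat_lit 46114163) (nat_lit 13831595) [(nat_lit 0), (nat_lit 0), (nat_lit 3581527), (nat_lit 0)]) (PF.cons (PF.leaf (nat_lit 5212874) (nat_lit 455997) (nat_lit 45672567) (nat_lit 13783475) [(nat_lit 455997), (nat_lit 0), (nat_lit 3598386), (nat_lit 0)]) (PF.cons (PF.leaf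
 (nat_lit 5499607) (nat_lit 469573) (nat_lit 45210756) (nat_lit 13730959) [(nat_lit 469573), (nat_lit 0), (nat_lit 3613974), (nat_lit 0)]) (PF.cons (PF.leaf (nat_lit 5798606) (nat_lit 481640) (nat_lit 44733433) (nat_lit 13674362) [(nat_lit 481640), (nat_lit 0), (nat_lit 3628046), (nat_lit 0)]) (PF.cons (PF.leaf (nat_lit 6107827) (nat_lit 492440) (nat_lit 44244183) (nat_lit 13613949) [(nat_lit 492440), (nat_lit 0), (nat_lit 3640460), (nat_lit 0)]) (PF.cons (PF.leaf (nat_lit 6425564) (nat_lit 502144) (nat_lit 43745861) (nat_lit 13549953) [(nat_lit 502144), (nat_lit 0), (nat_lit 3651136), (nat_lit 0)]) (PF.cons PF.nil PF.nil))))))) (PF.cons (PF.cons (PF.leaf (nat_lit 5649283) (nat_lit 1597532) (nat_lit 44610522) (nat_lit 13654864) [(nat_lit 0), (nat_lit 1597532), (nat_lit 3622946), (nat_lit 0)]) (PF.cons (PF.leaf (nat_lit 5940912) (nat_lit 483783) (nat_lit 44145483) (nat_lit 13596970) [(nat_lit 483783), (nat_lit 1613090), (nat_lit 3634742), (nat_lit 0)]) (PF.cons (PF.leaf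 (nat_lit 6243940) (nat_lit 494379) (nat_lit 43667378) (nat_lit 13535204) [(nat_lit 494379), (nat_lit 1627371), (nat_lit 3645050), (nat_lit 0)]) (PF.cons (PF.leaf (nat_lit 6556031) (nat_lit 503846) (nat_lit 43179507)
 (nat_lit 13469867) [(nat_lit 503846), (nat_lit 1640356), (nat_lit 3653771), (nat_lit 0)]) (PF.cons (PF.leaf (nat_lit 6875610) (nat_lit 512333) (nat_lit 42684475) (nat_lit 13401220) [(nat_lit 512333), (nat_lit 1652060), (nat_lit 3660860), (nat_lit 0)]) PF.nil))))) (PF.cons (PF.cons (PF.leaf (nat_lit 6380689) (nat_lit 1633548) (nat_lit 43092418) (nat_lit 13453629) [(nat_lit 0), (nat_lit 1633548), (nat_lit 3647833), (nat_lit 0)]) (PF.cons (PF.leaf (nat_lit 6686096) (nat_lit 505032) (nat_lit 42616356) (nat_lit 13387318) [(nat_lit 505032), (nat_lit 1645316), (nat_lit 3654735), (nat_lit 0)]) (PF.cons (PF.leaf (nat_lit 6999906) (nat_lit 513333) (nat_lit 42132356) (nat_lit 13317696) [(nat_lit 513333), (nat_lit 1655911), (nat_lit 3660135), (nat_lit 0)]) (PF.cons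 PF.nil PF.nil)))) (PF.cons (PF.cons (PF.leaf (nat_lit 7124206) (nat_lit 1658929) (nat_lit 41584034) (nat_lit 13232074) [(nat_lit 0), (nat_lit 1658929), (nat_lit 3657958), (nat_lit 0)]) (PF.cons (PF.leaf (nat_lit 7438413) (nat_lit 521142) (nat_lit 41105893) (nat_lit 13158784) [(nat_lit 521142), (nat_lit 1667410), (nat_lit 3660381), (nat_lit 0)]) PF.nil)) (PF.cons PF.nil PF.nil))))) (PF.cons (PF.cons (PF.cons (PF.leaf (nat_lit
 6179084) (nat_lit 3626670) (nat_lit 42828885) (nat_lit 13399916) [(nat_lit 0), (nat_lit 0), (nat_lit 3626670), (nat_lit 0)]) (PF.cons (PF.leaf (nat_lit 6469454) (nat_lit 491629) (nat_lit 42379177) (nat_lit 13336646) [(nat_lit 491629), (nat_lit 0), (nat_lit 3633786), (nat_lit 0)]) (PF.cons (PF.leaf (nat_lit 6770309) (nat_lit 501177) (nat_lit 41918086) (nat_lit 13269786) [(nat_lit 501177), (nat_lit 0), (nat_lit 3639527), (nat_lit 0)]) (PF.cons (PF.leaf (nat_lit 7079349) (nat_lit 509625) (nat_lit 41448739) (nat_lit 13199689) [(nat_lit 509625), (nat_lit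 0), (nat_lit 3643835), (nat_lit 0)]) (PF.cons PF.nil PF.nil))))) (PF.cons (PF.cons (PF.leaf (nat_lit 6898670) (nat_lit 1641803) (nat_lit 41370155) (nat_lit 13183714) [(nat_lit 0), (nat_lit 1641803), (nat_lit 3637713), (nat_lit 0)]) (PF.cons (PF.leaf (nat_lit 7200908) (nat_lit 509923) (nat_lit 40912949) (nat_lit 13113209) [(nat_lit 509923), (nat_lit 1651031), (nat_lit 3640566), (nat_lit 0)]) (PF.cons (PF.leaf (nat_lit 7510759) (nat_lit 517307) (nat_lit 40449070) (nat_lit 13039730) [(nat_lit 517307), (nat_lit 1659185), (nat_lit 3642070), (nat_lit 0)]) (PF.cons PF.nil PF.nil)))) (PF.cons (PF.cons (PF.leaf (nat_lit 7626671) (nat_lit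
 1660047) (nat_lit 39928716) (nat_lit 12951197) [(nat_lit 0), (nat_lit 1660047), (nat_lit 3636268), (nat_lit 0)]) (PF.cons PF.nil PF.nil)) PF.nil))) (PF.cons (PF.cons (PF.cons (PF.leaf (nat_lit 7395436) (nat_lit 3616722) (nat_lit 39736937) (nat_lit 12904985) [(nat_lit 0), (nat_lit 0), (nat_lit 3616722), (nat_lit 0)]) (PF.cons (PF.leaf (nat_lit 7693793) (nat_lit 512733) (nat_lit 39299411) (nat_lit 12831596) [(nat_lit 512733), (nat_lit 0), (nat_lit 3616267), (nat_lit 0)]) (PF.cons PF.nil PF.nil))) (PF.cons (PF.cons (PF.leaf (nat_lit 8107171) (nat_lit 1656033) (nat_lit 38363535) (nat_lit 12665449) [(nat_lit 0), (nat_lit 1656033), (nat_lit 3605948), (nat_lit 0)]) PF.nil) PF.nil)) (PF.cons PF.nil (PF.cons PF.nil (PF.cons PF.nil PF.nil)))))))) (PF.cons (PF.cons (PF.cons (PF.cons (PF.leaf (nat_lit 4630769) (nat_lit 8910946) (nat_lit 44659518) (nat_lit 13538348) [(nat_lit 0), (nat_lit 0), (nat_lit 0), (nat_lit 8910946)]) (PF.cons (PF.leaf (nat_lit 4863598) (nat_lit 409832)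 (nat_lit 44299962) (nat_lit 13497508) [(nat_lit 409832), (nat_lit 0), (nat_lit 0), (nat_lit 8901509)]) (PF.cons (PF.leaf (nat_lit 5117045) (nat_lit 427543) (nat_lit 43912173) (nat_lit 13451879) [(nat_lit 427543),
 (nat_lit 0), (nat_lit 0), (nat_lit 8889672)]) (PF.cons (PF.leaf (nat_lit 5386618) (nat_lit 442973) (nat_lit 43502590) (nat_lit 13401937) [(nat_lit 442973), (nat_lit 0), (nat_lit 0), (nat_lit 8875364)]) (PF.cons (PF.leaf (nat_lit 5669482) (nat_lit 456581) (nat_lit 43075905) (nat_lit 13348033) [(nat_lit 456581), (nat_lit 0), (nat_lit 0), (nat_lit 8858548)]) (PF.cons (PF.leaf (nat_lit 5963463) (nat_lit 468679) (nat_lit 42635743) (nat_lit 13290454) [(nat_lit 468679), (nat_lit 0), (nat_lit 0), (nat_lit 8839219)]) (PF.cons (PF.leaf (nat_lit 6266766) (nat_lit 479492) (nat_lit 42185012) (nat_lit 13229450) [(nat_lit 479492), (nat_lit 0), (nat_lit 0), (nat_lit 8817396)]) (PF.cons (PF.leaf (nat_lit 6577915) (nat_lit 489190) (nat_lit 41726109) (nat_lit 13165247) [(nat_lit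 489190), (nat_lit 0), (nat_lit 0), (nat_lit 8793124)]) (PF.cons PF.nil (PF.cons PF.nil PF.nil)))))))))) (PF.cons (PF.cons (PF.leaf (nat_lit 5271666) (nat_lit 1519178) (nat_lit 43347622) (nat_lit 13378226) [(nat_lit 0), (nat_lit 1519178), (nat_lit 0), (nat_lit 8863785)]) (PF.cons (PF.leaf (nat_lit 5532842) (nat_lit 445941) (nat_lit 42949678) (nat_lit 13327405) [(nat_lit 445941), (nat_lit 1538169), (nat_lit 0), (nat_lit
 8847618)]) (PF.cons (PF.leaf (nat_lit 5809016) (nat_lit 459302) (nat_lit 42533072) (nat_lit 13272458) [(nat_lit 459302), (nat_lit 1555733), (nat_lit 0), (nat_lit 8828942)]) (PF.cons (PF.leaf (nat_lit 6097068) (nat_lit 471111) (nat_lit 42102105) (nat_lit 13213769) [(nat_lit 471111), (nat_lit 1571813), (nat_lit 0), (nat_lit 8807789)]) (PF.cons (PF.leaf (nat_lit 6394964) (nat_lit 481620) (nat_lit 41660062) (nat_lit 13151649) [(nat_lit 481620), (nat_lit 1586415), (nat_lit 0), (nat_lit 8784204)]) (PF.cons (PF.leaf (nat_lit 6701065) (nat_lit 491012) (nat_lit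 41209562) (nat_lit 13086363) [(nat_lit 491012), (nat_lit 1599579), (nat_lit 0), (nat_lit 8758245)]) (PF.cons (PF.leaf (nat_lit 7014010) (nat_lit 499427) (nat_lit 40752748) (nat_lit 13018153) [(nat_lit 499427), (nat_lit 1611359), (nat_lit 0), (nat_lit 8729987)]) (PF.cons PF.nil (PF.cons PF.nil PF.nil))))))))) (PF.cons (PF.cons (PF.leaf (nat_lit 5950215) (nat_lit 1564511) (nat_lit 41989232) (nat_lit 13193918) [(nat_lit 0), (nat_lit 1564511), (nat_lit 0), (nat_lit 8796639)]) (PF.cons (PF.leaf (nat_lit 6230989) (nat_lit 472888) (nat_lit 41569337) (nat_lit 13134533) [(nat_lit 472888), (nat_lit 1579061), (nat_lit 0), (nat_lit 8773929)])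
 (PF.cons (PF.leaf (nat_lit 6522824) (nat_lit 483194) (nat_lit 41137349) (nat_lit 13071638) [(nat_lit 483194), (nat_lit 1592310), (nat_lit 0), (nat_lit 8748815)]) (PF.cons (PF.leaf (nat_lit 6823427) (nat_lit 492356) (nat_lit 40696277) (nat_lit 13005560) [(nat_lit 492356), (nat_lit 1604261), (nat_lit 0), (nat_lit 8721381)]) (PF.cons (PF.leaf (nat_lit 7131236) (nat_lit 500531) (nat_lit 40248498) (nat_lit 12936579) [(nat_lit 500531), (nat_lit 1614945), (nat_lit 0), (nat_lit 8691716)]) (PF.cons PF.nil (PF.cons PF.nil PF.nil))))))) (PF.cons (PF.cons (PF.leaf (nat_lit 6651466) (nat_lit 1597260) (nat_lit 40616330) (nat_lit 12989413) [(nat_lit 0), (nat_lit 1597260), (nat_lit 0), (nat_lit 8711286)]) (PF.cons (PF.leaf (nat_lit 6945541) (nat_lit 493217) (nat_lit 40185894) (nat_lit 12922868) [(nat_lit 493217), (nat_lit 1608076), (nat_lit 0), (nat_lit 8682602)]) (PF.cons (PF.leaf (nat_lit 7247763) (nat_lit 501218) (nat_lit 39748043) (nat_lit 12853392) [(nat_lit 501218), (nat_lit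 1617736), (nat_lit 0), (nat_lit 8651730)]) (PF.cons (PF.leaf (nat_lit 7556336) (nat_lit 508336) (nat_lit 39304947) (nat_lit 12781272) [(nat_lit 508336), (nat_lit 1626267), (nat_lit 0), (nat_lit 8618781)]) (PF.cons
 PF.nil PF.nil))))) (PF.cons (PF.cons (PF.leaf (nat_lit 7364484) (nat_lit 1619786) (nat_lit 39250976) (nat_lit 12768608) [(nat_lit 0), (nat_lit 1619786), (nat_lit 0), (nat_lit 8610082)]) (PF.cons (PF.leaf (nat_lit 7667099) (nat_lit 508466) (nat_lit 38818122) (nat_lit 12696262) [(nat_lit 508466), (nat_lit 1627447), (nat_lit 0), (nat_lit 8576173)]) (PF.cons PF.nil (PF.cons PF.nil PF.nil)))) (PF.cons (PF.cons (PF.leaf (nat_lit 8081039) (nat_lit 1633896) (nat_lit 37908569) (nat_lit 12535191) [(nat_lit 0), (nat_lit 1633896), (nat_lit 0), (nat_lit 8495570)]) (PF.cons PF.nil PF.nil)) PF.nil)))))) (PF.cons (PF.cons (PF.cons (PF.leaf (nat_lit 5779694) (nat_lit 3523076) (nat_lit 41691294) (nat_lit 13134847) [(nat_lit 0), (nat_lit 0), (nat_lit 3523076), (nat_lit 8759594)])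 (PF.cons (PF.leaf (nat_lit 6041876) (nat_lit 456027) (nat_lit 41302791) (nat_lit 13079250) [(nat_lit 456027), (nat_lit 0), (nat_lit 3532511), (nat_lit 8738232)]) (PF.cons (PF.leaf (nat_lit 6318059) (nat_lit 468225) (nat_lit 40897550) (nat_lit 13019683) [(nat_lit 468225), (nat_lit 0), (nat_lit 3540724), (nat_lit 8714403)]) (PF.cons (PF.leaf (nat_lit 6605144) (nat_lit 478900) (nat_lit 40479707) (nat_lit 12956603) [(nat_lit
 478900), (nat_lit 0), (nat_lit 3547581), (nat_lit 8688218)]) (PF.cons (PF.leaf (nat_lit 6901155) (nat_lit 488316) (nat_lit 40052382) (nat_lit 12890370) [(nat_lit 488316), (nat_lit 0), (nat_lit 3553015), (nat_lit 8659779)]) (PF.cons (PF.leaf (nat_lit 7204516) (nat_lit 496663) (nat_lit 39618024) (nat_lit 12821283) [(nat_lit 496663), (nat_lit 0), (nat_lit 3557001), (nat_lit 8629187)]) (PF.cons PF.nil PF.nil))))))) (PF.cons (PF.cons (PF.leaf (nat_lit 6451811) (nat_lit 1577518) (nat_lit 40376405) (nat_lit 12936837) [(nat_lit 0), (nat_lit 1577518), (nat_lit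 3541469), (nat_lit 8676581)]) (PF.cons (PF.leaf (nat_lit 6731412) (nat_lit 479653) (nat_lit 39970221) (nat_lit 12873577) [(nat_lit 479653), (nat_lit 1589328), (nat_lit 3546718), (nat_lit 8649313)]) (PF.cons (PF.leaf (nat_lit 7021204) (nat_lit 488956) (nat_lit 39553437) (nat_lit 12807054) [(nat_lit 488956), (nat_lit 1599942), (nat_lit 3550671), (nat_lit 8619793)]) (PF.cons (PF.leaf (nat_lit 7318941) (nat_lit 497152) (nat_lit 39128900) (nat_lit 12737637) [(nat_lit 497152), (nat_lit 1609377), (nat_lit 3553291), (nat_lit 8588150)]) (PF.cons (PF.leaf (nat_lit 7623152) (nat_lit 504403) (nat_lit 38698830) (nat_lit 12665626) [(nat_lit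
 504403), (nat_lit 1617670), (nat_lit 3554571), (nat_lit 8554502)]) PF.nil))))) (PF.cons (PF.cons (PF.leaf (nat_lit 7142220) (nat_lit 1602491) (nat_lit 39056749) (nat_lit 12721967) [(nat_lit 0), (nat_lit 1602491), (nat_lit 3547054), (nat_lit 8578058)]) (PF.cons (PF.leaf (nat_lit 7433351) (nat_lit 497215) (nat_lit 38643089) (nat_lit 12652520) [(nat_lit 497215), (nat_lit 1610999), (nat_lit 3548416), (nat_lit 8545571)]) (PF.cons (PF.leaf (nat_lit 7731922) (nat_lit 504358) (nat_lit 38223122) (nat_lit 12580427) [(nat_lit 504358), (nat_lit 1618455), (nat_lit 3548533), (nat_lit 8511101)]) (PF.cons PF.nil PF.nil)))) (PF.cons (PF.cons (PF.leaf (nat_lit 7841100) (nat_lit 1618633) (nat_lit 37751047) (nat_lit 12494003) [(nat_lit 0), (nat_lit 1618633), (nat_lit 3541488), (nat_lit 8466372)]) (PF.cons (PF.leaf (nat_lit 8139410) (nat_lit 510157) (nat_lit 37337044) (nat_lit 12419704) [(nat_lit 510157), (nat_lit 1624361), (nat_lit 3539384), (nat_lit 8429436)]) PF.nil)) (PF.cons PF.nil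 PF.nil))))) (PF.cons (PF.cons (PF.cons (PF.leaf (nat_lit 6935671) (nat_lit 3526173) (nat_lit 38840683) (nat_lit 12671578) [(nat_lit 0), (nat_lit 0), (nat_lit 3526173), (nat_lit 8544204)]) (PF.cons (PF.leaf (nat_lit
 7213217) (nat_lit 484202) (nat_lit 38449501) (nat_lit 12605550) [(nat_lit 484202), (nat_lit 0), (nat_lit 3528100), (nat_lit 8513358)]) (PF.cons (PF.leaf (nat_lit 7500213) (nat_lit 492624) (nat_lit 38048975) (nat_lit 12536505) [(nat_lit 492624), (nat_lit 0), (nat_lit 3528834), (nat_lit 8480414)]) (PF.cons (PF.leaf (nat_lit 7794452) (nat_lit 499977) (nat_lit 37641788) (nat_lit 12464831) [(nat_lit 499977), (nat_lit 0), (nat_lit 3528364), (nat_lit 8445532)]) (PF.cons PF.nil PF.nil))))) (PF.cons (PF.cons (PF.leaf (nat_lit 7613971) (nat_lit 1602277) (nat_lit 37576774) (nat_lit 12449792) [(nat_lit 0), (nat_lit 1602277), (nat_lit 3522176), (nat_lit 8435616)]) (PF.cons (PF.leaf (nat_lit 7901582) (nat_lit 499390) (nat_lit 37180476) (nat_lit 12378446) [(nat_lit 499390),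 (nat_lit 1608845), (nat_lit 3520711), (nat_lit 8400229)]) (PF.cons (PF.leaf (nat_lit 8196021) (nat_lit 505784) (nat_lit 36778777) (nat_lit 12304714) [(nat_lit 505784), (nat_lit 1614453), (nat_lit 3518126), (nat_lit 8363046)]) (PF.cons PF.nil PF.nil)))) (PF.cons (PF.cons (PF.leaf (nat_lit 8298122) (nat_lit 1613122) (nat_lit 36331262) (nat_lit 12217658) [(nat_lit 0), (nat_lit 1613122), (nat_lit 3508732), (nat_lit 8316182)])
 (PF.cons PF.nil PF.nil)) PF.nil))) (PF.cons (PF.cons (PF.cons (PF.leaf (nat_lit 8067341) (nat_lit 3490375) (nat_lit 36174823) (nat_lit 12175991) [(nat_lit 0), (nat_lit 0), (nat_lit 3490375), (nat_lit 8286870)]) (PF.cons (PF.leaf (nat_lit 8351001) (nat_lit 500065) (nat_lit 35796026) (nat_lit 12103569) [(nat_lit 500065), (nat_lit 0), (nat_lit 3486606), (nat_lit 8249331)]) (PF.cons PF.nil PF.nil))) (PF.cons (PF.cons (PF.leaf (nat_lit 8736446) (nat_lit 1604121) (nat_lit 34988856) (nat_lit 11942100) [(nat_lit 0), (nat_lit 1604121), (nat_lit 3470602),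 (nat_lit 8161926)]) PF.nil) PF.nil)) (PF.cons PF.nil (PF.cons PF.nil PF.nil)))))) (PF.cons (PF.cons (PF.cons (PF.cons (PF.leaf (nat_lit 6522659) (nat_lit 8378434) (nat_lit 37918617) (nat_lit 12433327) [(nat_lit 0), (nat_lit 0), (nat_lit 0), (nat_lit 8378434)]) (PF.cons (PF.leaf (nat_lit 6775181) (nat_lit 450713) (nat_lit 37578222) (nat_lit 12375506) [(nat_lit 450713), (nat_lit 0), (nat_lit 0), (nat_lit 8352185)]) (PF.cons (PF.leaf (nat_lit 7040539) (nat_lit 461791) (nat_lit 37223741) (nat_lit 12314120) [(nat_lit 461791), (nat_lit 0), (nat_lit 0), (nat_lit 8323683)]) (PF.cons (PF.leaf (nat_lit 7315748) (nat_lit 471365) (nat_lit 36858782)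
 (nat_lit 12249685) [(nat_lit 471365), (nat_lit 0), (nat_lit 0), (nat_lit 8293124)]) (PF.cons (PF.leaf (nat_lit 7598918) (nat_lit 479709) (nat_lit 36486044) (nat_lit 12182600) [(nat_lit 479709), (nat_lit 0), (nat_lit 0), (nat_lit 8260665)]) (PF.cons (PF.leaf (nat_lit 7888567) (nat_lit 487021) (nat_lit 36107628) (nat_lit 12113185) [(nat_lit 487021), (nat_lit 0), (nat_lit 0), (nat_lit 8226447)]) (PF.cons PF.nil PF.nil))))))) (PF.cons (PF.cons (PF.leaf (nat_lit 7161079) (nat_lit 1543380) (nat_lit 36771885) (nat_lit 12230773) [(nat_lit 0), (nat_lit 1543380), (nat_lit 0), (nat_lit 8281386)]) (PF.cons (PF.leaf (nat_lit 7428881) (nat_lit 471189) (nat_lit 36417523) (nat_lit 12166792) [(nat_lit 471189), (nat_lit 1552542), (nat_lit 0), (nat_lit 8250382)]) (PF.cons (PF.leaf (nat_lit 7705946) (nat_lit 479487) (nat_lit 36054334) (nat_lit 12100022) [(nat_lit 479487), (nat_lit 1560591), (nat_lit 0), (nat_lit 8217445)]) (PF.cons (PF.leaf (nat_lit 7990115) (nat_lit 486713) (nat_lit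 35684768) (nat_lit 12030847) [(nat_lit 486713), (nat_lit 1567565), (nat_lit 0), (nat_lit 8182745)]) (PF.cons PF.nil PF.nil))))) (PF.cons (PF.cons (PF.leaf (nat_lit 7814210) (nat_lit 1560812) (nat_lit 35624792) (nat_lit
 12016307) [(nat_lit 0), (nat_lit 1560812), (nat_lit 0), (nat_lit 8173043)]) (PF.cons (PF.leaf (nat_lit 8091953) (nat_lit 486045) (nat_lit 35264931) (nat_lit 11947625) [(nat_lit 486045), (nat_lit 1567070), (nat_lit 0), (nat_lit 8138034)]) (PF.cons (PF.leaf (nat_lit 8376417) (nat_lit 492315) (nat_lit 34899859) (nat_lit 11876767) [(nat_lit 492315), (nat_lit 1572380), (nat_lit 0), (nat_lit 8101396)]) (PF.cons PF.nil PF.nil)))) (PF.cons (PF.cons (PF.leaf (nat_lit 8473553) (nat_lit 1570790) (nat_lit 34492190) (nat_lit 11793239) [(nat_lit 0), (nat_lit 1570790), (nat_lit 0), (nat_lit 8055506)]) (PF.cons PF.nil PF.nil)) (PF.cons PF.nil PF.nil))))) (PF.cons (PF.cons (PF.cons (PF.leaf (nat_lit 7606382) (nat_lit 3408710) (nat_lit 35446712) (nat_lit 11970467) [(nat_lit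 0), (nat_lit 0), (nat_lit 3408710), (nat_lit 8141460)]) (PF.cons (PF.leaf (nat_lit 7871739) (nat_lit 473573) (nat_lit 35105997) (nat_lit 11905244) [(nat_lit 473573), (nat_lit 0), (nat_lit 3407397), (nat_lit 8108300)]) (PF.cons (PF.leaf (nat_lit 8145762) (nat_lit 481119) (nat_lit 34757419) (nat_lit 11837436) [(nat_lit 481119), (nat_lit 0), (nat_lit 3405038), (nat_lit 8073339)]) (PF.cons (PF.leaf (nat_lit 8426316) (nat_lit 487635)
 (nat_lit 34403284) (nat_lit 11767439) [(nat_lit 487635), (nat_lit 0), (nat_lit 3401648), (nat_lit 8036766)]) (PF.cons PF.nil PF.nil))))) (PF.cons (PF.cons (PF.leaf (nat_lit 8247753) (nat_lit 1555430) (nat_lit 34349226) (nat_lit 11753670) [(nat_lit 0), (nat_lit 1555430), (nat_lit 3395645), (nat_lit 8027419)]) (PF.cons (PF.leaf (nat_lit 8521917) (nat_lit 486483) (nat_lit 34004666) (nat_lit 11684393) [(nat_lit 486483), (nat_lit 1560171), (nat_lit 3391570), (nat_lit 7990763)]) (PF.cons PF.nil (PF.cons PF.nil PF.nil)))) (PF.cons (PF.cons (PF.leaf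 (nat_lit 8893408) (nat_lit 1561379) (nat_lit 33268950) (nat_lit 11530190) [(nat_lit 0), (nat_lit 1561379), (nat_lit 3375248), (nat_lit 7905831)]) (PF.cons PF.nil PF.nil)) PF.nil))) (PF.cons (PF.cons (PF.cons (PF.leaf (nat_lit 8665341) (nat_lit 3358321) (nat_lit 33140351) (nat_lit 11493172) [(nat_lit 0), (nat_lit 0), (nat_lit 3358321), (nat_lit 7879323)]) (PF.cons (PF.leaf (nat_lit 8935630) (nat_lit 485813) (nat_lit 32810937) (nat_lit 11423821) [(nat_lit 485813), (nat_lit 0), (nat_lit 3352603), (nat_lit 7841516)]) PF.nil)) (PF.cons PF.nil PF.nil)) (PF.cons PF.nil (PF.cons PF.nil PF.nil))))) (PF.cons (PF.cons (PF.cons (PF.cons (PF.leaf (nat_lit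
 8208942) (nat_lit 7750783) (nat_lit 32542971) (nat_lit 11313490) [(nat_lit 0), (nat_lit 0), (nat_lit 0), (nat_lit 7750783)]) (PF.cons (PF.leaf (nat_lit 8462947) (nat_lit 461313) (nat_lit 32245042) (nat_lit 11250852) [(nat_lit 461313), (nat_lit 0), (nat_lit 0), (nat_lit 7717201)]) (PF.cons (PF.leaf (nat_lit 8724986) (nat_lit 468161) (nat_lit 31940369) (nat_lit 11185966) [(nat_lit 468161), (nat_lit 0), (nat_lit 0), (nat_lit 7682050)]) (PF.cons PF.nil PF.nil)))) (PF.cons (PF.cons (PF.leaf (nat_lit 8817357) (nat_lit 1505621) (nat_lit 31585701) (nat_lit 11106787) [(nat_lit 0), (nat_lit 1505621), (nat_lit 0), (nat_lit 7636900)]) (PF.cons (PF.leaf (nat_lit 9079219) (nat_lit 472505) (nat_lit 31284636) (nat_lit 11040952) [(nat_lit 472505), (nat_lit 1509081), (nat_lit 0), (nat_lit 7600545)]) PF.nil)) (PF.cons PF.nil PF.nil))) (PF.cons (PF.cons (PF.cons (PF.leaf (nat_lit 9205035) (nat_lit 3227089) (nat_lit 30537064) (nat_lit 10863011) [(nat_lit 0), (nat_lit 0), (nat_lit 3227089),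 (nat_lit 7493882)]) (PF.cons PF.nil PF.nil)) (PF.cons PF.nil PF.nil)) (PF.cons PF.nil PF.nil))) (PF.cons (PF.cons (PF.cons (PF.cons (PF.leaf (nat_lit 9697842) (nat_lit 7134092) (nat_lit 28286880) (nat_lit 10285563)
 [(nat_lit 0), (nat_lit 0), (nat_lit 0), (nat_lit 7134092)]) (PF.cons PF.nil PF.nil)) (PF.cons PF.nil PF.nil)) (PF.cons PF.nil PF.nil)) (PF.cons PF.nil (PF.cons PF.nil (PF.cons PF.nil PF.nil))))))))

def p12_14_2_0 : pfC (piC [(nat_lit 38167130), (nat_lit 25010362), (nat_lit 18643303), (nat_lit 12552662)] (nat_lit 7550227)) p12_14_2 (nat_lit 4) (nat_lit 0) (nat_lit 1) = true := by decide +kernel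
def p12_14_2_1 : pfC (piC [(nat_lit 38167130), (nat_lit 25010362), (nat_lit 18643303), (nat_lit 12552662)] (nat_lit 7550227)) p12_14_2 (nat_lit 4) (nat_lit 1) (nat_lit 2) = true := by decide +kernel
def p12_14_2_2 : pfC (piC [(nat_lit 38167130), (nat_lit 25010362), (nat_lit 18643303), (nat_lit 12552662)] (nat_lit 7550227)) p12_14_2 (nat_lit 4) (nat_lit 2) (nat_lit 3) = true := by decide +kernel
def p12_14_2_3 : pfC (piC [(nat_lit 38167130), (nat_lit 25010362), (nat_lit 18643303), (nat_lit 12552662)] (nat_lit 7550227)) p12_14_2 (nat_lit 4) (nat_lit 3) (nat_lit 4) = true := by decide +kernel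
def p12_14_2_4 : pfC (piC [(nat_lit 38167130), (nat_lit 25010362), (nat_lit 18643303), (nat_lit 12552662)] (nat_lit 7550227)) p12_14_2 (nat_lit 4) (nat_lit 4) (nat_lit 5) = true := by decide +kernel
def p12_14_2_5 : pfC (piC [(nat_lit 38167130), (nat_lit 25010362), (nat_lit 18643303), (nat_lit 12552662)] (nat_lit 7550227)) p12_14_2 (nat_lit 4) (nat_lit 5) (nat_lit 6) = true := by decide +kernel
def p12_14_2_6 : pfC (piC [(nat_lit 38167130), (nat_lit 25010362), (nat_lit 18643303), (nat_lit 12552662)] (nat_lit 7550227)) p12_14_2 (nat_lit 4) (nat_lit 6) (nat_lit 7) = true := by decide +kernel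
def p12_14_2_7 : pfC (piC [(nat_lit 38167130), (nat_lit 25010362), (nat_lit 18643303), (nat_lit 12552662)] (nat_lit 7550227)) p12_14_2 (nat_lit 4) (nat_lit 7) (nat_lit 8) = true := by decide +kernel
def p12_14_2_8 : pfC (piC [(nat_lit 38167130), (nat_lit 25010362), (nat_lit 18643303), (nat_lit 12552662)] (nat_lit 7550227)) p12_14_2 (nat_lit 4) (nat_lit 8) (nat_lit 9) = true := by decide +kernel
def p12_14_2_9 : pfC (piC [(nat_lit 38167130), (nat_lit 25010362), (nat_lit 18643303), (nat_lit 12552662)] (nat_lit 7550227)) p12_14_2 (nat_lit 4) (nat_lit 9) (nat_lit 10) = true := by decide +kernel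
def p12_14_2_10 : pfC (piC [(nat_lit 38167130), (nat_lit 25010362), (nat_lit 18643303), (nat_lit 12552662)] (nat_lit 7550227)) p12_14_2 (nat_lit 4) (nat_lit 10) (nat_lit 11) = true := by decide +kernel
def p12_14_2_11 : pfC (piC [(nat_lit 38167130), (nat_lit 25010362), (nat_lit 18643303), (nat_lit 12552662)] (nat_lit 7550227)) p12_14_2 (nat_lit 4) (nat_lit 11) (nat_lit 12) = true := by decide +kernel
def p12_14_2_12 : pfC (piC [(nat_lit 38167130), (nat_lit 25010362), (nat_lit 18643303), (nat_lit 12552662)] (nat_lit 7550227)) p12_14_2 (nat_lit 4) (nat_lit 12) (nat_lit 13) = true := by decide +kernel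
def p12_14_2_13 : pfC (piC [(nat_lit 38167130), (nat_lit 25010362), (nat_lit 18643303), (nat_lit 12552662)] (nat_lit 7550227)) p12_14_2 (nat_lit 4) (nat_lit 13) (nat_lit 14) = true := by decide +kernel
def p12_14_2_14 : pfC (piC [(nat_lit 38167130), (nat_lit 25010362), (nat_lit 18643303), (nat_lit 12552662)] (nat_lit 7550227)) p12_14_2 (nat_lit 4) (nat_lit 14) (nat_lit 15) = true := by decide +kernel
def p12_14_2_15 : pfC (piC [(nat_lit 38167130), (nat_lit 25010362), (nat_lit 18643303), (nat_lit 12552662)] (nat_lit 7550227)) p12_14_2 (nat_lit 4) (nat_lit 15) (nat_lit 16) = true := by decide +kernel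
def p12_14_2_16 : pfC (piC [(nat_lit 38167130), (nat_lit 25010362), (nat_lit 18643303), (nat_lit 12552662)] (nat_lit 7550227)) p12_14_2 (nat_lit 4) (nat_lit 16) (nat_lit 17) = true := by decide +kernel
def p12_14_2_17 : pfC (piC [(nat_lit 38167130), (nat_lit 25010362), (nat_lit 18643303), (nat_lit 12552662)] (nat_lit 7550227)) p12_14_2 (nat_lit 4) (nat_lit 17) (nat_lit 18) = true := by decide +kernel
def p12_14_2_18 : pfC (piC [(nat_lit 38167130), (nat_lit 25010362), (nat_lit 18643303), (nat_lit 12552662)] (nat_lit 7550227)) p12_14_2 (nat_lit 4) (nat_lit 18) (nat_lit 19) = true := by decide +kernel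
def p12_14_2_19 : pfC (piC [(nat_lit 38167130), (nat_lit 25010362), (nat_lit 18643303), (nat_lit 12552662)] (nat_lit 7550227)) p12_14_2 (nat_lit 4) (nat_lit 19) (nat_lit 20) = true := by decide +kernel
def p12_14_2_20 : pfC (piC [(nat_lit 38167130), (nat_lit 25010362), (nat_lit 18643303), (nat_lit 12552662)] (nat_lit 7550227)) p12_14_2 (nat_lit 4) (nat_lit 20) (nat_lit 21) = true := by decide +kernel
def p12_14_2_21 : pfC (piC [(nat_lit 38167130), (nat_lit 25010362), (nat_lit 18643303), (nat_lit 12552662)] (nat_lit 7550227)) p12_14_2 (nat_lit 4) (nat_lit 21) (nat_lit 22) = true := by decide +kernel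
def p12_14_2_22 : pfC (piC [(nat_lit 38167130), (nat_lit 25010362), (nat_lit 18643303), (nat_lit 12552662)] (nat_lit 7550227)) p12_14_2 (nat_lit 4) (nat_lit 22) (nat_lit 23) = true := by decide +kernel
def p12_14_2_23 : pfC (piC [(nat_lit 38167130), (nat_lit 25010362), (nat_lit 18643303), (nat_lit 12552662)] (nat_lit 7550227)) p12_14_2 (nat_lit 4) (nat_lit 23) (nat_lit 24) = true := by decide +kernel
def p12_14_2_24 : pfC (piC [(nat_lit 38167130), (nat_lit 25010362), (nat_lit 18643303), (nat_lit 12552662)] (nat_lit 7550227)) p12_14_2 (nat_lit 4) (nat_lit 24) (nat_lit 25) = true := by decide +kernel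
def p12_14_2_25 : pfC (piC [(nat_lit 38167130), (nat_lit 25010362), (nat_lit 18643303), (nat_lit 12552662)] (nat_lit 7550227)) p12_14_2 (nat_lit 4) (nat_lit 25) (nat_lit 26) = true := by decide +kernel
def p12_14_2_26 : pfC (piC [(nat_lit 38167130), (nat_lit 25010362), (nat_lit 18643303), (nat_lit 12552662)] (nat_lit 7550227)) p12_14_2 (nat_lit 4) (nat_lit 26) (nat_lit 27) = true := by decide +kernel
def p12_14_2_27 : pfC (piC [(nat_lit 38167130), (nat_lit 25010362), (nat_lit 18643303), (nat_lit 12552662)] (nat_lit 7550227)) p12_14_2 (nat_lit 4) (nat_lit 27) (nat_lit 28) = true := by decide +kernel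
def p12_14_2_28 : pfC (piC [(nat_lit 38167130), (nat_lit 25010362), (nat_lit 18643303), (nat_lit 12552662)] (nat_lit 7550227)) p12_14_2 (nat_lit 4) (nat_lit 28) (nat_lit 29) = true := by decide +kernel
def p12_14_2_29 : pfC (piC [(nat_lit 38167130), (nat_lit 25010362), (nat_lit 18643303), (nat_lit 12552662)] (nat_lit 7550227)) p12_14_2 (nat_lit 4) (nat_lit 29) (nat_lit 30) = true := by decide +kernel
def p12_14_2_30 : pfC (piC [(nat_lit 38167130), (nat_lit 25010362), (nat_lit 18643303), (nat_lit 12552662)] (nat_lit 7550227)) p12_14_2 (nat_lit 4) (nat_lit 30) (nat_lit 31) = true := by decide +kernel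
def p12_14_2_31 : pfC (piC [(nat_lit 38167130), (nat_lit 25010362), (nat_lit 18643303), (nat_lit 12552662)] (nat_lit 7550227)) p12_14_2 (nat_lit 4) (nat_lit 31) (nat_lit 32) = true := by decide +kernel
def p12_14_2_32 : pfC (piC [(nat_lit 38167130), (nat_lit 25010362), (nat_lit 18643303), (nat_lit 12552662)] (nat_lit 7550227)) p12_14_2 (nat_lit 4) (nat_lit 32) (nat_lit 33) = true := by decide +kernel
def p12_14_2_33 : pfC (piC [(nat_lit 38167130), (nat_lit 25010362), (nat_lit 18643303), (nat_lit 12552662)] (nat_lit 7550227)) p12_14_2 (nat_lit 4) (nat_lit 33) (nat_lit 34) = true := by decide +kernel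
def p12_14_2_34 : pfC (piC [(nat_lit 38167130), (nat_lit 25010362), (nat_lit 18643303), (nat_lit 12552662)] (nat_lit 7550227)) p12_14_2 (nat_lit 4) (nat_lit 34) (nat_lit 35) = true := by decide +kernel
def p12_14_2_35 : pfC (piC [(nat_lit 38167130), (nat_lit 25010362), (nat_lit 18643303), (nat_lit 12552662)] (nat_lit 7550227)) p12_14_2 (nat_lit 4) (nat_lit 35) (nat_lit 36) = true := by decide +kernel
def p12_14_2_36 : pfC (piC [(nat_lit 38167130), (nat_lit 25010362), (nat_lit 18643303), (nat_lit 12552662)] (nat_lit 7550227)) p12_14_2 (nat_lit 4) (nat_lit 36) (nat_lit 37) = true := by decide +kernel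
def p12_14_2_37 : pfC (piC [(nat_lit 38167130), (nat_lit 25010362), (nat_lit 18643303), (nat_lit 12552662)] (nat_lit 7550227)) p12_14_2 (nat_lit 4) (nat_lit 37) (nat_lit 38) = true := by decide +kernel
def p12_14_2_38 : pfC (piC [(nat_lit 38167130), (nat_lit 25010362), (nat_lit 18643303), (nat_lit 12552662)] (nat_lit 7550227)) p12_14_2 (nat_lit 4) (nat_lit 38) (nat_lit 39) = true := by decide +kernel
def p12_14_2_39 : pfC (piC [(nat_lit 38167130), (nat_lit 25010362), (nat_lit 18643303), (nat_lit 12552662)] (nat_lit 7550227)) p12_14_2 (nat_lit 4) (nat_lit 39) (nat_lit 40) = true := by decide +kernel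
def p12_14_2_40 : pfC (piC [(nat_lit 38167130), (nat_lit 25010362), (nat_lit 18643303), (nat_lit 12552662)] (nat_lit 7550227)) p12_14_2 (nat_lit 4) (nat_lit 40) (nat_lit 41) = true := by decide +kernel
def p12_14_2_41 : pfC (piC [(nat_lit 38167130), (nat_lit 25010362), (nat_lit 18643303), (nat_lit 12552662)] (nat_lit 7550227)) p12_14_2 (nat_lit 4) (nat_lit 41) (nat_lit 42) = true := by decide +kernel
def p12_14_2_42 : pfC (piC [(nat_lit 38167130), (nat_lit 25010362), (nat_lit 18643303), (nat_lit 12552662)] (nat_lit 7550227)) p12_14_2 (nat_lit 4) (nat_lit 42) (nat_lit 43) = true := by decide +kernel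
def p12_14_2_43 : pfC (piC [(nat_lit 38167130), (nat_lit 25010362), (nat_lit 18643303), (nat_lit 12552662)] (nat_lit 7550227)) p12_14_2 (nat_lit 4) (nat_lit 43) (nat_lit 44) = true := by decide +kernel
def p12_14_2_44 : pfC (piC [(nat_lit 38167130), (nat_lit 25010362), (nat_lit 18643303), (nat_lit 12552662)] (nat_lit 7550227)) p12_14_2 (nat_lit 4) (nat_lit 44) (nat_lit 45) = true := by decide +kernel
def p12_14_2_45 : pfC (piC [(nat_lit 38167130), (nat_lit 25010362), (nat_lit 18643303), (nat_lit 12552662)] (nat_lit 7550227)) p12_14_2 (nat_lit 4) (nat_lit 45) (nat_lit 46) = true := by decide +kernel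
def p12_14_2_46 : pfC (piC [(nat_lit 38167130), (nat_lit 25010362), (nat_lit 18643303), (nat_lit 12552662)] (nat_lit 7550227)) p12_14_2 (nat_lit 4) (nat_lit 46) (nat_lit 47) = true := by decide +kernel
def p12_14_2_47 : pfC (piC [(nat_lit 38167130), (nat_lit 25010362), (nat_lit 18643303), (nat_lit 12552662)] (nat_lit 7550227)) p12_14_2 (nat_lit 4) (nat_lit 47) (nat_lit 48) = true := by decide +kernel
def p12_14_2_48 : pfC (piC [(nat_lit 38167130), (nat_lit 25010362), (nat_lit 18643303), (nat_lit 12552662)] (nat_lit 7550227)) p12_14_2 (nat_lit 4) (nat_lit 48) (nat_lit 49) = true := by decide +kernel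
def p12_14_2_49 : pfC (piC [(nat_lit 38167130), (nat_lit 25010362), (nat_lit 18643303), (nat_lit 12552662)] (nat_lit 7550227)) p12_14_2 (nat_lit 4) (nat_lit 49) (nat_lit 50) = true := by decide +kernel
def p12_14_2_50 : pfC (piC [(nat_lit 38167130), (nat_lit 25010362), (nat_lit 18643303), (nat_lit 12552662)] (nat_lit 7550227)) p12_14_2 (nat_lit 4) (nat_lit 50) (nat_lit 51) = true := by decide +kernel
def p12_14_2_51 : pfC (piC [(nat_lit 38167130), (nat_lit 25010362), (nat_lit 18643303), (nat_lit 12552662)] (nat_lit 7550227)) p12_14_2 (nat_lit 4) (nat_lit 51) (nat_lit 52) = true := by decide +kernel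
def p12_14_2_52 : pfC (piC [(nat_lit 38167130), (nat_lit 25010362), (nat_lit 18643303), (nat_lit 12552662)] (nat_lit 7550227)) p12_14_2 (nat_lit 4) (nat_lit 52) (nat_lit 53) = true := by decide +kernel
def p12_14_2_53 : pfC (piC [(nat_lit 38167130), (nat_lit 25010362), (nat_lit 18643303), (nat_lit 12552662)] (nat_lit 7550227)) p12_14_2 (nat_lit 4) (nat_lit 53) (nat_lit 54) = true := by decide +kernel
def p12_14_2_54 : pfC (piC [(nat_lit 38167130), (nat_lit 25010362), (nat_lit 18643303), (nat_lit 12552662)] (nat_lit 7550227)) p12_14_2 (nat_lit 4) (nat_lit 54) (nat_lit 55) = true := by decide +kernel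
def p12_14_2_55 : pfC (piC [(nat_lit 38167130), (nat_lit 25010362), (nat_lit 18643303), (nat_lit 12552662)] (nat_lit 7550227)) p12_14_2 (nat_lit 4) (nat_lit 55) (nat_lit 56) = true := by decide +kernel
def p12_14_2_56 : pfC (piC [(nat_lit 38167130), (nat_lit 25010362), (nat_lit 18643303), (nat_lit 12552662)] (nat_lit 7550227)) p12_14_2 (nat_lit 4) (nat_lit 56) (nat_lit 57) = true := by decide +kernel
def p12_14_2_57 : pfC (piC [(nat_lit 38167130), (nat_lit 25010362), (nat_lit 18643303), (nat_lit 12552662)] (nat_lit 7550227)) p12_14_2 (nat_lit 4) (nat_lit 57) (nat_lit 58) = true := by decide +kernel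
def p12_14_2_58 : pfC (piC [(nat_lit 38167130), (nat_lit 25010362), (nat_lit 18643303), (nat_lit 12552662)] (nat_lit 7550227)) p12_14_2 (nat_lit 4) (nat_lit 58) (nat_lit 59) = true := by decide +kernel
def p12_14_2_59 : pfC (piC [(nat_lit 38167130), (nat_lit 25010362), (nat_lit 18643303), (nat_lit 12552662)] (nat_lit 7550227)) p12_14_2 (nat_lit 4) (nat_lit 59) (nat_lit 60) = true := by decide +kernel
def p12_14_2_60 : pfC (piC [(nat_lit 38167130), (nat_lit 25010362), (nat_lit 18643303), (nat_lit 12552662)] (nat_lit 7550227)) p12_14_2 (nat_lit 4) (nat_lit 60) (nat_lit 61) = true := by decide +kernel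
def p12_14_2_61 : pfC (piC [(nat_lit 38167130), (nat_lit 25010362), (nat_lit 18643303), (nat_lit 12552662)] (nat_lit 7550227)) p12_14_2 (nat_lit 4) (nat_lit 61) (nat_lit 62) = true := by decide +kernel
def p12_14_2_62 : pfC (piC [(nat_lit 38167130), (nat_lit 25010362), (nat_lit 18643303), (nat_lit 12552662)] (nat_lit 7550227)) p12_14_2 (nat_lit 4) (nat_lit 62) (nat_lit 63) = true := by decide +kernel
def p12_14_2_63 : pfC (piC [(nat_lit 38167130), (nat_lit 25010362), (nat_lit 18643303), (nat_lit 12552662)] (nat_lit 7550227)) p12_14_2 (nat_lit 4) (nat_lit 63) (nat_lit 64) = true := by decide +kernel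
def p12_14_2_64 : pfC (piC [(nat_lit 38167130), (nat_lit 25010362), (nat_lit 18643303), (nat_lit 12552662)] (nat_lit 7550227)) p12_14_2 (nat_lit 4) (nat_lit 64) (nat_lit 65) = true := by decide +kernel
def p12_14_2_65 : pfC (piC [(nat_lit 38167130), (nat_lit 25010362), (nat_lit 18643303), (nat_lit 12552662)] (nat_lit 7550227)) p12_14_2 (nat_lit 4) (nat_lit 65) (nat_lit 66) = true := by decide +kernel
def p12_14_2_66 : pfC (piC [(nat_lit 38167130), (nat_lit 25010362), (nat_lit 18643303), (nat_lit 12552662)] (nat_lit 7550227)) p12_14_2 (nat_lit 4) (nat_lit 66) (nat_lit 67) = true := by decide +kernel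
def p12_14_2_67 : pfC (piC [(nat_lit 38167130), (nat_lit 25010362), (nat_lit 18643303), (nat_lit 12552662)] (nat_lit 7550227)) p12_14_2 (nat_lit 4) (nat_lit 67) (nat_lit 68) = true := by decide +kernel
def p12_14_2_68 : pfC (piC [(nat_lit 38167130), (nat_lit 25010362), (nat_lit 18643303), (nat_lit 12552662)] (nat_lit 7550227)) p12_14_2 (nat_lit 4) (nat_lit 68) (nat_lit 69) = true := by decide +kernel
def p12_14_2_69 : pfC (piC [(nat_lit 38167130), (nat_lit 25010362), (nat_lit 18643303), (nat_lit 12552662)] (nat_lit 7550227)) p12_14_2 (nat_lit 4) (nat_lit 69) (nat_lit 70) = true := by decide +kernel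
def p12_14_2_70 : pfC (piC [(nat_lit 38167130), (nat_lit 25010362), (nat_lit 18643303), (nat_lit 12552662)] (nat_lit 7550227)) p12_14_2 (nat_lit 4) (nat_lit 70) (nat_lit 71) = true := by decide +kernel
def p12_14_2_71 : pfC (piC [(nat_lit 38167130), (nat_lit 25010362), (nat_lit 18643303), (nat_lit 12552662)] (nat_lit 7550227)) p12_14_2 (nat_lit 4) (nat_lit 71) (nat_lit 72) = true := by decide +kernel
def p12_14_2_72 : pfC (piC [(nat_lit 38167130), (nat_lit 25010362), (nat_lit 18643303), (nat_lit 12552662)] (nat_lit 7550227)) p12_14_2 (nat_lit 4) (nat_lit 72) (nat_lit 73) = true := by decide +kernel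
def p12_14_2_73 : pfC (piC [(nat_lit 38167130), (nat_lit 25010362), (nat_lit 18643303), (nat_lit 12552662)] (nat_lit 7550227)) p12_14_2 (nat_lit 4) (nat_lit 73) (nat_lit 74) = true := by decide +kernel
def p12_14_2_74 : pfC (piC [(nat_lit 38167130), (nat_lit 25010362), (nat_lit 18643303), (nat_lit 12552662)] (nat_lit 7550227)) p12_14_2 (nat_lit 4) (nat_lit 74) (nat_lit 75) = true := by decide +kernel
def p12_14_2_75 : pfC (piC [(nat_lit 38167130), (nat_lit 25010362), (nat_lit 18643303), (nat_lit 12552662)] (nat_lit 7550227)) p12_14_2 (nat_lit 4) (nat_lit 75) (nat_lit 76) = true := by decide +kernel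
def p12_14_2_76 : pfC (piC [(nat_lit 38167130), (nat_lit 25010362), (nat_lit 18643303), (nat_lit 12552662)] (nat_lit 7550227)) p12_14_2 (nat_lit 4) (nat_lit 76) (nat_lit 77) = true := by decide +kernel
def p12_14_2_77 : pfC (piC [(nat_lit 38167130), (nat_lit 25010362), (nat_lit 18643303), (nat_lit 12552662)] (nat_lit 7550227)) p12_14_2 (nat_lit 4) (nat_lit 77) (nat_lit 78) = true := by decide +kernel
def p12_14_2_78 : pfC (piC [(nat_lit 38167130), (nat_lit 25010362), (nat_lit 18643303), (nat_lit 12552662)] (nat_lit 7550227)) p12_14_2 (nat_lit 4) (nat_lit 78) (nat_lit 79) = true := by decide +kernel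
def p12_14_2_79 : pfC (piC [(nat_lit 38167130), (nat_lit 25010362), (nat_lit 18643303), (nat_lit 12552662)] (nat_lit 7550227)) p12_14_2 (nat_lit 4) (nat_lit 79) (nat_lit 80) = true := by decide +kernel
def p12_14_2_80 : pfC (piC [(nat_lit 38167130), (nat_lit 25010362), (nat_lit 18643303), (nat_lit 12552662)] (nat_lit 7550227)) p12_14_2 (nat_lit 4) (nat_lit 80) (nat_lit 81) = true := by decide +kernel
def p12_14_2_81 : pfC (piC [(nat_lit 38167130), (nat_lit 25010362), (nat_lit 18643303), (nat_lit 12552662)] (nat_lit 7550227)) p12_14_2 (nat_lit 4) (nat_lit 81) (nat_lit 82) = true := by decide +kernel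
def p12_14_2_82 : pfC (piC [(nat_lit 38167130), (nat_lit 25010362), (nat_lit 18643303), (nat_lit 12552662)] (nat_lit 7550227)) p12_14_2 (nat_lit 4) (nat_lit 82) (nat_lit 83) = true := by decide +kernel
def p12_14_2_83 : pfC (piC [(nat_lit 38167130), (nat_lit 25010362), (nat_lit 18643303), (nat_lit 12552662)] (nat_lit 7550227)) p12_14_2 (nat_lit 4) (nat_lit 83) (nat_lit 84) = true := by decide +kernel
def p12_14_2_84 : pfC (piC [(nat_lit 38167130), (nat_lit 25010362), (nat_lit 18643303), (nat_lit 12552662)] (nat_lit 7550227)) p12_14_2 (nat_lit 4) (nat_lit 84) (nat_lit 85) = true := by decide +kernel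
def p12_14_2_85 : pfC (piC [(nat_lit 38167130), (nat_lit 25010362), (nat_lit 18643303), (nat_lit 12552662)] (nat_lit 7550227)) p12_14_2 (nat_lit 4) (nat_lit 85) (nat_lit 86) = true := by decide +kernel
def p12_14_2_86 : pfC (piC [(nat_lit 38167130), (nat_lit 25010362), (nat_lit 18643303), (nat_lit 12552662)] (nat_lit 7550227)) p12_14_2 (nat_lit 4) (nat_lit 86) (nat_lit 87) = true := by decide +kernel
def p12_14_2_87 : pfC (piC [(nat_lit 38167130), (nat_lit 25010362), (nat_lit 18643303), (nat_lit 12552662)] (nat_lit 7550227)) p12_14_2 (nat_lit 4) (nat_lit 87) (nat_lit 88) = true := by decide +kernel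
def p12_14_2_88 : pfC (piC [(nat_lit 38167130), (nat_lit 25010362), (nat_lit 18643303), (nat_lit 12552662)] (nat_lit 7550227)) p12_14_2 (nat_lit 4) (nat_lit 88) (nat_lit 89) = true := by decide +kernel
def p12_14_2_89 : pfC (piC [(nat_lit 38167130), (nat_lit 25010362), (nat_lit 18643303), (nat_lit 12552662)] (nat_lit 7550227)) p12_14_2 (nat_lit 4) (nat_lit 89) (nat_lit 90) = true := by decide +kernel
def p12_14_2_90 : pfC (piC [(nat_lit 38167130), (nat_lit 25010362), (nat_lit 18643303), (nat_lit 12552662)] (nat_lit 7550227)) p12_14_2 (nat_lit 4) (nat_lit 90) (nat_lit 91) = true := by decide +kernel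
def p12_14_2_91 : pfC (piC [(nat_lit 38167130), (nat_lit 25010362), (nat_lit 18643303), (nat_lit 12552662)] (nat_lit 7550227)) p12_14_2 (nat_lit 4) (nat_lit 91) (nat_lit 92) = true := by decide +kernel
def p12_14_2_92 : pfC (piC [(nat_lit 38167130), (nat_lit 25010362), (nat_lit 18643303), (nat_lit 12552662)] (nat_lit 7550227)) p12_14_2 (nat_lit 4) (nat_lit 92) (nat_lit 93) = true := by decide +kernel
def p12_14_2_93 : pfC (piC [(nat_lit 38167130), (nat_lit 25010362), (nat_lit 18643303), (nat_lit 12552662)] (nat_lit 7550227)) p12_14_2 (nat_lit 4) (nat_lit 93) (nat_lit 94) = true := by decide +kernel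
def p12_14_2_94 : pfC (piC [(nat_lit 38167130), (nat_lit 25010362), (nat_lit 18643303), (nat_lit 12552662)] (nat_lit 7550227)) p12_14_2 (nat_lit 4) (nat_lit 94) (nat_lit 95) = true := by decide +kernel
def p12_14_2_95 : pfC (piC [(nat_lit 38167130), (nat_lit 25010362), (nat_lit 18643303), (nat_lit 12552662)] (nat_lit 7550227)) p12_14_2 (nat_lit 4) (nat_lit 95) (nat_lit 96) = true := by decide +kernel
def p12_14_2_96 : pfC (piC [(nat_lit 38167130), (nat_lit 25010362), (nat_lit 18643303), (nat_lit 12552662)] (nat_lit 7550227)) p12_14_2 (nat_lit 4) (nat_lit 96) (nat_lit 97) = true := by decide +kernel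
def p12_14_2_97 : pfC (piC [(nat_lit 38167130), (nat_lit 25010362), (nat_lit 18643303), (nat_lit 12552662)] (nat_lit 7550227)) p12_14_2 (nat_lit 4) (nat_lit 97) (nat_lit 98) = true := by decide +kernel
def p12_14_2_98 : pfC (piC [(nat_lit 38167130), (nat_lit 25010362), (nat_lit 18643303), (nat_lit 12552662)] (nat_lit 7550227)) p12_14_2 (nat_lit 4) (nat_lit 98) (nat_lit 99) = true := by decide +kernel
def p12_14_2_99 : pfC (piC [(nat_lit 38167130), (nat_lit 25010362), (nat_lit 18643303), (nat_lit 12552662)] (nat_lit 7550227)) p12_14_2 (nat_lit 4) (nat_lit 99) (nat_lit 100) = true := by decide +kernel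
def p12_14_2_100 : pfC (piC [(nat_lit 38167130), (nat_lit 25010362), (nat_lit 18643303), (nat_lit 12552662)] (nat_lit 7550227)) p12_14_2 (nat_lit 4) (nat_lit 100) (nat_lit 101) = true := by decide +kernel
def p12_14_2_101 : pfC (piC [(nat_lit 38167130), (nat_lit 25010362), (nat_lit 18643303), (nat_lit 12552662)] (nat_lit 7550227)) p12_14_2 (nat_lit 4) (nat_lit 101) (nat_lit 102) = true := by decide +kernel
def p12_14_2_102 : pfC (piC [(nat_lit 38167130), (nat_lit 25010362), (nat_lit 18643303), (nat_lit 12552662)] (nat_lit 7550227)) p12_14_2 (nat_lit 4) (nat_lit 102) (nat_lit 103) = true := by decide +kernel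
def p12_14_2_103 : pfC (piC [(nat_lit 38167130), (nat_lit 25010362), (nat_lit 18643303), (nat_lit 12552662)] (nat_lit 7550227)) p12_14_2 (nat_lit 4) (nat_lit 103) (nat_lit 104) = true := by decide +kernel
def p12_14_2_104 : pfC (piC [(nat_lit 38167130), (nat_lit 25010362), (nat_lit 18643303), (nat_lit 12552662)] (nat_lit 7550227)) p12_14_2 (nat_lit 4) (nat_lit 104) (nat_lit 105) = true := by decide +kernel
def p12_14_2_105 : pfC (piC [(nat_lit 38167130), (nat_lit 25010362), (nat_lit 18643303), (nat_lit 12552662)] (nat_lit 7550227)) p12_14_2 (nat_lit 4) (nat_lit 105) (nat_lit 106) = true := by decide +kernel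
def p12_14_2_106 : pfC (piC [(nat_lit 38167130), (nat_lit 25010362), (nat_lit 18643303), (nat_lit 12552662)] (nat_lit 7550227)) p12_14_2 (nat_lit 4) (nat_lit 106) (nat_lit 107) = true := by decide +kernel
def p12_14_2_107 : pfC (piC [(nat_lit 38167130), (nat_lit 25010362), (nat_lit 18643303), (nat_lit 12552662)] (nat_lit 7550227)) p12_14_2 (nat_lit 4) (nat_lit 107) (nat_lit 108) = true := by decide +kernel
def p12_14_2_108 : pfC (piC [(nat_lit 38167130), (nat_lit 25010362), (nat_lit 18643303), (nat_lit 12552662)] (nat_lit 7550227)) p12_14_2 (nat_lit 4) (nat_lit 108) (nat_lit 109) = true := by decide +kernel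
def p12_14_2_109 : pfC (piC [(nat_lit 38167130), (nat_lit 25010362), (nat_lit 18643303), (nat_lit 12552662)] (nat_lit 7550227)) p12_14_2 (nat_lit 4) (nat_lit 109) (nat_lit 110) = true := by decide +kernel
def p12_14_2_110 : pfC (piC [(nat_lit 38167130), (nat_lit 25010362), (nat_lit 18643303), (nat_lit 12552662)] (nat_lit 7550227)) p12_14_2 (nat_lit 4) (nat_lit 110) (nat_lit 111) = true := by decide +kernel
def p12_14_2_111 : pfC (piC [(nat_lit 38167130), (nat_lit 25010362), (nat_lit 18643303), (nat_lit 12552662)] (nat_lit 7550227)) p12_14_2 (nat_lit 4) (nat_lit 111) (nat_lit 112) = true := by decide +kernel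
def p12_14_2_112 : pfC (piC [(nat_lit 38167130), (nat_lit 25010362), (nat_lit 18643303), (nat_lit 12552662)] (nat_lit 7550227)) p12_14_2 (nat_lit 4) (nat_lit 112) (nat_lit 113) = true := by decide +kernel
def p12_14_2_113 : pfC (piC [(nat_lit 38167130), (nat_lit 25010362), (nat_lit 18643303), (nat_lit 12552662)] (nat_lit 7550227)) p12_14_2 (nat_lit 4) (nat_lit 113) (nat_lit 114) = true := by decide +kernel
def p12_14_2_114 : pfC (piC [(nat_lit 38167130), (nat_lit 25010362), (nat_lit 18643303), (nat_lit 12552662)] (nat_lit 7550227)) p12_14_2 (nat_lit 4) (nat_lit 114) (nat_lit 115) = true := by decide +kernel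
def p12_14_2_115 : pfC (piC [(nat_lit 38167130), (nat_lit 25010362), (nat_lit 18643303), (nat_lit 12552662)] (nat_lit 7550227)) p12_14_2 (nat_lit 4) (nat_lit 115) (nat_lit 116) = true := by decide +kernel
def p12_14_2_116 : pfC (piC [(nat_lit 38167130), (nat_lit 25010362), (nat_lit 18643303), (nat_lit 12552662)] (nat_lit 7550227)) p12_14_2 (nat_lit 4) (nat_lit 116) (nat_lit 117) = true := by decide +kernel
def p12_14_2_117 : pfC (piC [(nat_lit 38167130), (nat_lit 25010362), (nat_lit 18643303), (nat_lit 12552662)] (nat_lit 7550227)) p12_14_2 (nat_lit 4) (nat_lit 117) (nat_lit 118) = true := by decide +kernel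
def p12_14_2_118 : pfC (piC [(nat_lit 38167130), (nat_lit 25010362), (nat_lit 18643303), (nat_lit 12552662)] (nat_lit 7550227)) p12_14_2 (nat_lit 4) (nat_lit 118) (nat_lit 119) = true := by decide +kernel
def p12_14_2_119 : pfC (piC [(nat_lit 38167130), (nat_lit 25010362), (nat_lit 18643303), (nat_lit 12552662)] (nat_lit 7550227)) p12_14_2 (nat_lit 4) (nat_lit 119) (nat_lit 120) = true := by decide +kernel
def p12_14_2_120 : pfC (piC [(nat_lit 38167130), (nat_lit 25010362), (nat_lit 18643303), (nat_lit 12552662)] (nat_lit 7550227)) p12_14_2 (nat_lit 4) (nat_lit 120) (nat_lit 121) = true := by decide +kernel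
def p12_14_2_121 : pfC (piC [(nat_lit 38167130), (nat_lit 25010362), (nat_lit 18643303), (nat_lit 12552662)] (nat_lit 7550227)) p12_14_2 (nat_lit 4) (nat_lit 121) (nat_lit 122) = true := by decide +kernel
def p12_14_2_122 : pfC (piC [(nat_lit 38167130), (nat_lit 25010362), (nat_lit 18643303), (nat_lit 12552662)] (nat_lit 7550227)) p12_14_2 (nat_lit 4) (nat_lit 122) (nat_lit 123) = true := by decide +kernel
def p12_14_2_123 : pfC (piC [(nat_lit 38167130), (nat_lit 25010362), (nat_lit 18643303), (nat_lit 12552662)] (nat_lit 7550227)) p12_14_2 (nat_lit 4) (nat_lit 123) (nat_lit 124) = true := by decide +kernel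
def p12_14_2_124 : pfC (piC [(nat_lit 38167130), (nat_lit 25010362), (nat_lit 18643303), (nat_lit 12552662)] (nat_lit 7550227)) p12_14_2 (nat_lit 4) (nat_lit 124) (nat_lit 125) = true := by decide +kernel
def p12_14_2_125 : pfC (piC [(nat_lit 38167130), (nat_lit 25010362), (nat_lit 18643303), (nat_lit 12552662)] (nat_lit 7550227)) p12_14_2 (nat_lit 4) (nat_lit 125) (nat_lit 126) = true := by decide +kernel
def p12_14_2_126 : pfC (piC [(nat_lit 38167130), (nat_lit 25010362), (nat_lit 18643303), (nat_lit 12552662)] (nat_lit 7550227)) p12_14_2 (nat_lit 4) (nat_lit 126) (nat_lit 127) = true := by decide +kernel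
def p12_14_2_127 : pfC (piC [(nat_lit 38167130), (nat_lit 25010362), (nat_lit 18643303), (nat_lit 12552662)] (nat_lit 7550227)) p12_14_2 (nat_lit 4) (nat_lit 127) (nat_lit 128) = true := by decide +kernel
def p12_14_2_128 : pfC (piC [(nat_lit 38167130), (nat_lit 25010362), (nat_lit 18643303), (nat_lit 12552662)] (nat_lit 7550227)) p12_14_2 (nat_lit 4) (nat_lit 128) (nat_lit 129) = true := by decide +kernel
def p12_14_2_129 : pfC (piC [(nat_lit 38167130), (nat_lit 25010362), (nat_lit 18643303), (nat_lit 12552662)] (nat_lit 7550227)) p12_14_2 (nat_lit 4) (nat_lit 129) (nat_lit 130) = true := by decide +kernel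
def p12_14_2_130 : pfC (piC [(nat_lit 38167130), (nat_lit 25010362), (nat_lit 18643303), (nat_lit 12552662)] (nat_lit 7550227)) p12_14_2 (nat_lit 4) (nat_lit 130) (nat_lit 131) = true := by decide +kernel
def p12_14_2_131 : pfC (piC [(nat_lit 38167130), (nat_lit 25010362), (nat_lit 18643303), (nat_lit 12552662)] (nat_lit 7550227)) p12_14_2 (nat_lit 4) (nat_lit 131) (nat_lit 132) = true := by decide +kernel
def p12_14_2_132 : pfC (piC [(nat_lit 38167130), (nat_lit 25010362), (nat_lit 18643303), (nat_lit 12552662)] (nat_lit 7550227)) p12_14_2 (nat_lit 4) (nat_lit 132) (nat_lit 133) = true := by decide +kernel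
def p12_14_2_133 : pfC (piC [(nat_lit 38167130), (nat_lit 25010362), (nat_lit 18643303), (nat_lit 12552662)] (nat_lit 7550227)) p12_14_2 (nat_lit 4) (nat_lit 133) (nat_lit 134) = true := by decide +kernel
def p12_14_2_134 : pfC (piC [(nat_lit 38167130), (nat_lit 25010362), (nat_lit 18643303), (nat_lit 12552662)] (nat_lit 7550227)) p12_14_2 (nat_lit 4) (nat_lit 134) (nat_lit 135) = true := by decide +kernel
def p12_14_2_135 : pfC (piC [(nat_lit 38167130), (nat_lit 25010362), (nat_lit 18643303), (nat_lit 12552662)] (nat_lit 7550227)) p12_14_2 (nat_lit 4) (nat_lit 135) (nat_lit 136) = true := by decide +kernel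
def p12_14_2_136 : pfC (piC [(nat_lit 38167130), (nat_lit 25010362), (nat_lit 18643303), (nat_lit 12552662)] (nat_lit 7550227)) p12_14_2 (nat_lit 4) (nat_lit 136) (nat_lit 137) = true := by decide +kernel
def p12_14_2_137 : pfC (piC [(nat_lit 38167130), (nat_lit 25010362), (nat_lit 18643303), (nat_lit 12552662)] (nat_lit 7550227)) p12_14_2 (nat_lit 4) (nat_lit 137) (nat_lit 138) = true := by decide +kernel
def p12_14_2_138 : pfC (piC [(nat_lit 38167130), (nat_lit 25010362), (nat_lit 18643303), (nat_lit 12552662)] (nat_lit 7550227)) p12_14_2 (nat_lit 4) (nat_lit 138) (nat_lit 139) = true := by decide +kernel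
def p12_14_2_139 : pfC (piC [(nat_lit 38167130), (nat_lit 25010362), (nat_lit 18643303), (nat_lit 12552662)] (nat_lit 7550227)) p12_14_2 (nat_lit 4) (nat_lit 139) (nat_lit 140) = true := by decide +kernel
def p12_14_2_140 : pfC (piC [(nat_lit 38167130), (nat_lit 25010362), (nat_lit 18643303), (nat_lit 12552662)] (nat_lit 7550227)) p12_14_2 (nat_lit 4) (nat_lit 140) (nat_lit 141) = true := by decide +kernel
def p12_14_2_141 : pfC (piC [(nat_lit 38167130), (nat_lit 25010362), (nat_lit 18643303), (nat_lit 12552662)] (nat_lit 7550227)) p12_14_2 (nat_lit 4) (nat_lit 141) (nat_lit 142) = true := by decide +kernel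
def p12_14_2_142 : pfC (piC [(nat_lit 38167130), (nat_lit 25010362), (nat_lit 18643303), (nat_lit 12552662)] (nat_lit 7550227)) p12_14_2 (nat_lit 4) (nat_lit 142) (nat_lit 143) = true := by decide +kernel
def p12_14_2_143 : pfC (piC [(nat_lit 38167130), (nat_lit 25010362), (nat_lit 18643303), (nat_lit 12552662)] (nat_lit 7550227)) p12_14_2 (nat_lit 4) (nat_lit 143) (nat_lit 144) = true := by decide +kernel
def p12_14_2_144 : pfC (piC [(nat_lit 38167130), (nat_lit 25010362), (nat_lit 18643303), (nat_lit 12552662)] (nat_lit 7550227)) p12_14_2 (nat_lit 4) (nat_lit 144) (nat_lit 145) = true := by decide +kernel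
def p12_14_2_145 : pfC (piC [(nat_lit 38167130), (nat_lit 25010362), (nat_lit 18643303), (nat_lit 12552662)] (nat_lit 7550227)) p12_14_2 (nat_lit 4) (nat_lit 145) (nat_lit 146) = true := by decide +kernel
def p12_14_2_146 : pfC (piC [(nat_lit 38167130), (nat_lit 25010362), (nat_lit 18643303), (nat_lit 12552662)] (nat_lit 7550227)) p12_14_2 (nat_lit 4) (nat_lit 146) (nat_lit 147) = true := by decide +kernel
def p12_14_2_147 : pfC (piC [(nat_lit 38167130), (nat_lit 25010362), (nat_lit 18643303), (nat_lit 12552662)] (nat_lit 7550227)) p12_14_2 (nat_lit 4) (nat_lit 147) (nat_lit 148) = true := by decide +kernel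
def p12_14_2_148 : pfC (piC [(nat_lit 38167130), (nat_lit 25010362), (nat_lit 18643303), (nat_lit 12552662)] (nat_lit 7550227)) p12_14_2 (nat_lit 4) (nat_lit 148) (nat_lit 149) = true := by decide +kernel
def p12_14_2_149 : pfC (piC [(nat_lit 38167130), (nat_lit 25010362), (nat_lit 18643303), (nat_lit 12552662)] (nat_lit 7550227)) p12_14_2 (nat_lit 4) (nat_lit 149) (nat_lit 150) = true := by decide +kernel
def p12_14_2_150 : pfC (piC [(nat_lit 38167130), (nat_lit 25010362), (nat_lit 18643303), (nat_lit 12552662)] (nat_lit 7550227)) p12_14_2 (nat_lit 4) (nat_lit 150) (nat_lit 151) = true := by decide +kernel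
def p12_14_2_151 : pfC (piC [(nat_lit 38167130), (nat_lit 25010362), (nat_lit 18643303), (nat_lit 12552662)] (nat_lit 7550227)) p12_14_2 (nat_lit 4) (nat_lit 151) (nat_lit 152) = true := by decide +kernel
def p12_14_2_152 : pfC (piC [(nat_lit 38167130), (nat_lit 25010362), (nat_lit 18643303), (nat_lit 12552662)] (nat_lit 7550227)) p12_14_2 (nat_lit 4) (nat_lit 152) (nat_lit 153) = true := by decide +kernel
def p12_14_2_153 : pfC (piC [(nat_lit 38167130), (nat_lit 25010362), (nat_lit 18643303), (nat_lit 12552662)] (nat_lit 7550227)) p12_14_2 (nat_lit 4) (nat_lit 153) (nat_lit 154) = true := by decide +kernel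
def p12_14_2_154 : pfC (piC [(nat_lit 38167130), (nat_lit 25010362), (nat_lit 18643303), (nat_lit 12552662)] (nat_lit 7550227)) p12_14_2 (nat_lit 4) (nat_lit 154) (nat_lit 155) = true := by decide +kernel
def p12_14_2_155 : pfC (piC [(nat_lit 38167130), (nat_lit 25010362), (nat_lit 18643303), (nat_lit 12552662)] (nat_lit 7550227)) p12_14_2 (nat_lit 4) (nat_lit 155) (nat_lit 156) = true := by decide +kernel
def p12_14_2_156 : pfC (piC [(nat_lit 38167130), (nat_lit 25010362), (nat_lit 18643303), (nat_lit 12552662)] (nat_lit 7550227)) p12_14_2 (nat_lit 4) (nat_lit 156) (nat_lit 157) = true := by decide +kernel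
def p12_14_2_157 : pfC (piC [(nat_lit 38167130), (nat_lit 25010362), (nat_lit 18643303), (nat_lit 12552662)] (nat_lit 7550227)) p12_14_2 (nat_lit 4) (nat_lit 157) (nat_lit 158) = true := by decide +kernel
def p12_14_2_158 : pfC (piC [(nat_lit 38167130), (nat_lit 25010362), (nat_lit 18643303), (nat_lit 12552662)] (nat_lit 7550227)) p12_14_2 (nat_lit 4) (nat_lit 158) (nat_lit 159) = true := by decide +kernel
def p12_14_2_159 : pfC (piC [(nat_lit 38167130), (nat_lit 25010362), (nat_lit 18643303), (nat_lit 12552662)] (nat_lit 7550227)) p12_14_2 (nat_lit 4) (nat_lit 159) (nat_lit 160) = true := by decide +kernel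
def p12_14_2_160 : pfC (piC [(nat_lit 38167130), (nat_lit 25010362), (nat_lit 18643303), (nat_lit 12552662)] (nat_lit 7550227)) p12_14_2 (nat_lit 4) (nat_lit 160) (nat_lit 161) = true := by decide +kernel
def p12_14_2_161 : pfC (piC [(nat_lit 38167130), (nat_lit 25010362), (nat_lit 18643303), (nat_lit 12552662)] (nat_lit 7550227)) p12_14_2 (nat_lit 4) (nat_lit 161) (nat_lit 162) = true := by decide +kernel
def p12_14_2_162 : pfC (piC [(nat_lit 38167130), (nat_lit 25010362), (nat_lit 18643303), (nat_lit 12552662)] (nat_lit 7550227)) p12_14_2 (nat_lit 4) (nat_lit 162) (nat_lit 163) = true := by decide +kernel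
def p12_14_2_163 : pfC (piC [(nat_lit 38167130), (nat_lit 25010362), (nat_lit 18643303), (nat_lit 12552662)] (nat_lit 7550227)) p12_14_2 (nat_lit 4) (nat_lit 163) (nat_lit 164) = true := by decide +kernel
def p12_14_2_164 : pfC (piC [(nat_lit 38167130), (nat_lit 25010362), (nat_lit 18643303), (nat_lit 12552662)] (nat_lit 7550227)) p12_14_2 (nat_lit 4) (nat_lit 164) (nat_lit 165) = true := by decide +kernel
def p12_14_2_165 : pfC (piC [(nat_lit 38167130), (nat_lit 25010362), (nat_lit 18643303), (nat_lit 12552662)] (nat_lit 7550227)) p12_14_2 (nat_lit 4) (nat_lit 165) (nat_lit 166) = true := by decide +kernel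
def p12_14_2_166 : pfC (piC [(nat_lit 38167130), (nat_lit 25010362), (nat_lit 18643303), (nat_lit 12552662)] (nat_lit 7550227)) p12_14_2 (nat_lit 4) (nat_lit 166) (nat_lit 167) = true := by decide +kernel
def p12_14_2_167 : pfC (piC [(nat_lit 38167130), (nat_lit 25010362), (nat_lit 18643303), (nat_lit 12552662)] (nat_lit 7550227)) p12_14_2 (nat_lit 4) (nat_lit 167) (nat_lit 168) = true := by decide +kernel
def p12_14_2_168 : pfC (piC [(nat_lit 38167130), (nat_lit 25010362), (nat_lit 18643303), (nat_lit 12552662)] (nat_lit 7550227)) p12_14_2 (nat_lit 4) (nat_lit 168) (nat_lit 169) = true := by decide +kernel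
def p12_14_2_169 : pfC (piC [(nat_lit 38167130), (nat_lit 25010362), (nat_lit 18643303), (nat_lit 12552662)] (nat_lit 7550227)) p12_14_2 (nat_lit 4) (nat_lit 169) (nat_lit 170) = true := by decide +kernel
def p12_14_2_170 : pfC (piC [(nat_lit 38167130), (nat_lit 25010362), (nat_lit 18643303), (nat_lit 12552662)] (nat_lit 7550227)) p12_14_2 (nat_lit 4) (nat_lit 170) (nat_lit 171) = true := by decide +kernel
def p12_14_2_171 : pfC (piC [(nat_lit 38167130), (nat_lit 25010362), (nat_lit 18643303), (nat_lit 12552662)] (nat_lit 7550227)) p12_14_2 (nat_lit 4) (nat_lit 171) (nat_lit 172) = true := by decide +kernel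
def p12_14_2_172 : pfC (piC [(nat_lit 38167130), (nat_lit 25010362), (nat_lit 18643303), (nat_lit 12552662)] (nat_lit 7550227)) p12_14_2 (nat_lit 4) (nat_lit 172) (nat_lit 173) = true := by decide +kernel
theorem p12_14_2_T : PfS (PiF n12_14.reverse (nat_lit 7550227)) p12_14_2 (nat_lit 4) [] 0 :=
  pftab_of (los := [(nat_lit 38167130), (nat_lit 25010362), (nat_lit 18643303), (nat_lit 12552662)]) (by decide +kernel) (hi := (nat_lit 173)) (PfP.trans (PfP.trans (PfP.trans (PfP.trans (PfP.trans (PfP.trans (PfP.trans (PfP.trans (PfP.trans (PfP.trans (PfP.trans (PfP.trans (PfP.trans (PfP.trans (PfP.trans (PfP.trans (PfP.trans (PfP.trans (PfP.trans (PfP.trans (PfP.trans (PfP.trans (PfP.trans (PfP.trans (PfP.trans (PfP.trans (PfP.trans (PfP.trans (PfP.trans (PfP.trans (PfP.trans (PfP.trans (PfP.trans (PfP.trans (PfP.trans (PfP.trans (PfP.trans (PfP.trans (PfP.trans (PfP.trans (PfP.trans (PfP.trans (PfP.trans (PfP.trans (PfP.trans (PfP.trans (PfP.trans (PfP.trans (PfP.trans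 (PfP.trans (PfP.trans (PfP.trans (PfP.trans (PfP.trans (PfP.trans (PfP.trans (PfP.trans (PfP.trans (PfP.trans (PfP.trans (PfP.trans (PfP.trans (PfP.trans (PfP.trans (PfP.trans (PfP.trans (PfP.trans (PfP.trans (PfP.trans (PfP.trans (PfP.trans (PfP.trans (PfP.trans (PfP.trans (PfP.trans (PfP.trans (PfP.trans (PfP.trans (PfP.trans (PfP.trans (PfP.trans (PfP.trans (PfP.trans (PfP.trans (PfP.trans (PfP.trans (PfP.trans (PfP.trans (PfP.trans (PfP.trans (PfP.trans (PfP.trans (PfP.trans (PfP.trans (PfP.trans (PfP.trans (PfP.trans (PfP.trans (PfP.trans (PfP.trans (PfP.trans (PfP.trans (PfP.trans (PfP.trans (PfP.trans (PfP.trans (PfP.trans (PfP.trans (PfP.trans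
 (PfP.trans (PfP.trans (PfP.trans (PfP.trans (PfP.trans (PfP.trans (PfP.trans (PfP.trans (PfP.trans (PfP.trans (PfP.trans (PfP.trans (PfP.trans (PfP.trans (PfP.trans (PfP.trans (PfP.trans (PfP.trans (PfP.trans (PfP.trans (PfP.trans (PfP.trans (PfP.trans (PfP.trans (PfP.trans (PfP.trans (PfP.trans (PfP.trans (PfP.trans (PfP.trans (PfP.trans (PfP.trans (PfP.trans (PfP.trans (PfP.trans (PfP.trans (PfP.trans (PfP.trans (PfP.trans (PfP.trans (PfP.trans (PfP.trans (PfP.trans (PfP.trans (PfP.trans (PfP.trans (PfP.trans (PfP.trans (PfP.trans (PfP.trans (PfP.trans (PfP.trans (PfP.trans (PfP.trans (PfP.trans (PfP.trans (PfP.trans (PfP.trans (PfP.trans (PfP.trans (PfP.trans (PfP.trans (PfP.trans (pfC_sound p12_14_2_0) (pfC_sound p12_14_2_1)) (pfC_sound p12_14_2_2)) (pfC_sound p12_14_2_3)) (pfC_sound p12_14_2_4)) (pfC_sound p12_14_2_5)) (pfC_sound p12_14_2_6)) (pfC_sound p12_14_2_7)) (pfC_sound p12_14_2_8)) (pfC_sound p12_14_2_9)) (pfC_sound p12_14_2_10)) (pfC_sound p12_14_2_11))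 (pfC_sound p12_14_2_12)) (pfC_sound p12_14_2_13)) (pfC_sound p12_14_2_14)) (pfC_sound p12_14_2_15)) (pfC_sound p12_14_2_16)) (pfC_sound p12_14_2_17)) (pfC_sound p12_14_2_18)) (pfC_sound p12_14_2_19)) (pfC_sound
 p12_14_2_20)) (pfC_sound p12_14_2_21)) (pfC_sound p12_14_2_22)) (pfC_sound p12_14_2_23)) (pfC_sound p12_14_2_24)) (pfC_sound p12_14_2_25)) (pfC_sound p12_14_2_26)) (pfC_sound p12_14_2_27)) (pfC_sound p12_14_2_28)) (pfC_sound p12_14_2_29)) (pfC_sound p12_14_2_30)) (pfC_sound p12_14_2_31)) (pfC_sound p12_14_2_32)) (pfC_sound p12_14_2_33)) (pfC_sound p12_14_2_34)) (pfC_sound p12_14_2_35)) (pfC_sound p12_14_2_36)) (pfC_sound p12_14_2_37)) (pfC_sound p12_14_2_38)) (pfC_sound p12_14_2_39)) (pfC_sound p12_14_2_40)) (pfC_sound p12_14_2_41)) (pfC_sound p12_14_2_42)) (pfC_sound p12_14_2_43)) (pfC_sound p12_14_2_44)) (pfC_sound p12_14_2_45)) (pfC_sound p12_14_2_46)) (pfC_sound p12_14_2_47)) (pfC_sound p12_14_2_48)) (pfC_sound p12_14_2_49)) (pfC_sound p12_14_2_50)) (pfC_sound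 p12_14_2_51)) (pfC_sound p12_14_2_52)) (pfC_sound p12_14_2_53)) (pfC_sound p12_14_2_54)) (pfC_sound p12_14_2_55)) (pfC_sound p12_14_2_56)) (pfC_sound p12_14_2_57)) (pfC_sound p12_14_2_58)) (pfC_sound p12_14_2_59)) (pfC_sound p12_14_2_60)) (pfC_sound p12_14_2_61)) (pfC_sound p12_14_2_62)) (pfC_sound p12_14_2_63)) (pfC_sound p12_14_2_64)) (pfC_sound p12_14_2_65)) (pfC_sound p12_14_2_66)) (pfC_sound p12_14_2_67)) (pfC_sound
 p12_14_2_68)) (pfC_sound p12_14_2_69)) (pfC_sound p12_14_2_70)) (pfC_sound p12_14_2_71)) (pfC_sound p12_14_2_72)) (pfC_sound p12_14_2_73)) (pfC_sound p12_14_2_74)) (pfC_sound p12_14_2_75)) (pfC_sound p12_14_2_76)) (pfC_sound p12_14_2_77)) (pfC_sound p12_14_2_78)) (pfC_sound p12_14_2_79)) (pfC_sound p12_14_2_80)) (pfC_sound p12_14_2_81)) (pfC_sound p12_14_2_82)) (pfC_sound p12_14_2_83)) (pfC_sound p12_14_2_84)) (pfC_sound p12_14_2_85)) (pfC_sound p12_14_2_86)) (pfC_sound p12_14_2_87)) (pfC_sound p12_14_2_88)) (pfC_sound p12_14_2_89)) (pfC_sound p12_14_2_90))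 (pfC_sound p12_14_2_91)) (pfC_sound p12_14_2_92)) (pfC_sound p12_14_2_93)) (pfC_sound p12_14_2_94)) (pfC_sound p12_14_2_95)) (pfC_sound p12_14_2_96)) (pfC_sound p12_14_2_97)) (pfC_sound p12_14_2_98)) (pfC_sound p12_14_2_99)) (pfC_sound p12_14_2_100)) (pfC_sound p12_14_2_101)) (pfC_sound p12_14_2_102)) (pfC_sound p12_14_2_103)) (pfC_sound p12_14_2_104)) (pfC_sound p12_14_2_105)) (pfC_sound p12_14_2_106)) (pfC_sound p12_14_2_107)) (pfC_sound p12_14_2_108)) (pfC_sound p12_14_2_109)) (pfC_sound p12_14_2_110)) (pfC_sound p12_14_2_111)) (pfC_sound p12_14_2_112)) (pfC_sound p12_14_2_113)) (pfC_sound p12_14_2_114)) (pfC_sound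
 p12_14_2_115)) (pfC_sound p12_14_2_116)) (pfC_sound p12_14_2_117)) (pfC_sound p12_14_2_118)) (pfC_sound p12_14_2_119)) (pfC_sound p12_14_2_120)) (pfC_sound p12_14_2_121)) (pfC_sound p12_14_2_122)) (pfC_sound p12_14_2_123)) (pfC_sound p12_14_2_124)) (pfC_sound p12_14_2_125)) (pfC_sound p12_14_2_126)) (pfC_sound p12_14_2_127)) (pfC_sound p12_14_2_128)) (pfC_sound p12_14_2_129)) (pfC_sound p12_14_2_130)) (pfC_sound p12_14_2_131)) (pfC_sound p12_14_2_132)) (pfC_sound p12_14_2_133)) (pfC_sound p12_14_2_134)) (pfC_sound p12_14_2_135)) (pfC_sound p12_14_2_136)) (pfC_sound p12_14_2_137)) (pfC_sound p12_14_2_138)) (pfC_sound p12_14_2_139)) (pfC_sound p12_14_2_140)) (pfC_sound p12_14_2_141)) (pfC_sound p12_14_2_142)) (pfC_sound p12_14_2_143)) (pfC_sound p12_14_2_144)) (pfC_sound p12_14_2_145)) (pfC_sound p12_14_2_146)) (pfC_sound p12_14_2_147)) (pfC_sound p12_14_2_148)) (pfC_sound p12_14_2_149)) (pfC_sound p12_14_2_150)) (pfC_sound p12_14_2_151)) (pfC_sound p12_14_2_152)) (pfC_sound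 p12_14_2_153)) (pfC_sound p12_14_2_154)) (pfC_sound p12_14_2_155)) (pfC_sound p12_14_2_156)) (pfC_sound p12_14_2_157)) (pfC_sound p12_14_2_158)) (pfC_sound p12_14_2_159)) (pfC_sound p12_14_2_160)) (pfC_sound
 p12_14_2_161)) (pfC_sound p12_14_2_162)) (pfC_sound p12_14_2_163)) (pfC_sound p12_14_2_164)) (pfC_sound p12_14_2_165)) (pfC_sound p12_14_2_166)) (pfC_sound p12_14_2_167)) (pfC_sound p12_14_2_168)) (pfC_sound p12_14_2_169)) (pfC_sound p12_14_2_170)) (pfC_sound p12_14_2_171)) (pfC_sound p12_14_2_172)) (by decide +kernel)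

def z12_14_2 : zOK yB12_14 (nat_lit 2) (nat_lit 600) (nat_lit 750) (nat_lit 7550227) (nat_lit 5464530) = true := by decide +kernel
def g12_14_2 : gOK yB12_14.x P12_14 (nat_lit 1409) (q12_14 :: r12_14) (nat_lit 2) (nat_lit 600) (nat_lit 3) (nat_lit 750) (nat_lit 12712500) (nat_lit 12712500) (nat_lit 12712500) (nat_lit 12712500) [(nat_lit 800), (nat_lit 1600)] = true := by decide +kernel
def v12_14_2 : ivC P12_14 s12_14 w12_14 n12_14 (nat_lit 4) (nat_lit 4780) (nat_lit 2) (nat_lit 600) f160_1_600 f168_1_600 (nat_lit 3) (nat_lit 750) f160_1_750 f168_1_750 (nat_lit 7550227) (nat_lit 5464530) p12_14_2 = true := by decide +kernel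
def p12_14_3 : PF := (PF.cons (PF.cons (PF.cons (PF.cons (PF.leaf (nat_lit 2829862) (nat_lit 17001209) (nat_lit 50107603) (nat_lit 17001209) [(nat_lit 0), (nat_lit 0), (nat_lit 0), (nat_lit 0)]) (PF.cons (PF.leaf (nat_lit 3003892) (nat_lit 311060) (nat_lit 49825019) (nat_lit 16972733) [(nat_lit 311060), (nat_lit 0), (nat_lit 0), (nat_lit 0)]) (PF.cons (PF.leaf (nat_lit 3209140) (nat_lit 337706) (nat_lit 49495353) (nat_lit 16938045) [(nat_lit 337706), (nat_lit 0), (nat_lit 0), (nat_lit 0)]) (PF.cons (PF.leaf (nat_lit 3438965) (nat_lit 361151) (nat_lit 49127795) (nat_lit 16897563) [(nat_lit 361151), (nat_lit 0), (nat_lit 0), (nat_lit 0)]) (PF.cons (PF.leaf (nat_lit 3689616) (nat_lit 382093) (nat_lit 48728910) (nat_lit 16851528) [(nat_lit 382093), (nat_lit 0), (nat_lit 0), (nat_lit 0)]) (PF.cons (PF.leaf (nat_lit 3958193) (nat_lit 400983) (nat_lit 48303783) (nat_lit 16800113) [(nat_lit 400983), (nat_lit 0), (nat_lit 0), (nat_lit 0)]) (PF.cons (PF.leaf (nat_lit 4242364)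 (nat_lit 418131) (nat_lit 47856560) (nat_lit 16743466) [(nat_lit 418131), (nat_lit 0), (nat_lit 0), (nat_lit 0)]) (PF.cons (PF.leaf (nat_lit 4540058) (nat_lit 433764) (nat_lit 47390729) (nat_lit 16681733) [(nat_lit 433764), (nat_lit 0),
 (nat_lit 0), (nat_lit 0)]) (PF.cons (PF.leaf (nat_lit 4849619) (nat_lit 448055) (nat_lit 46909295) (nat_lit 16615071) [(nat_lit 448055), (nat_lit 0), (nat_lit 0), (nat_lit 0)]) (PF.cons (PF.leaf (nat_lit 5169479) (nat_lit 461142) (nat_lit 46414881) (nat_lit 16543650) [(nat_lit 461142), (nat_lit 0), (nat_lit 0), (nat_lit 0)]) (PF.cons PF.nil (PF.cons PF.nil PF.nil)))))))))))) (PF.cons (PF.cons (PF.leaf (nat_lit 3389278) (nat_lit 1342717) (nat_lit 48898921) (nat_lit 16867173) [(nat_lit 0), (nat_lit 1342717), (nat_lit 0), (nat_lit 0)]) (PF.cons (PF.leaf (nat_lit 3611450) (nat_lit 370653) (nat_lit 48537525) (nat_lit 16824381) [(nat_lit 370653), (nat_lit 1376252), (nat_lit 0), (nat_lit 0)]) (PF.cons (PF.leaf (nat_lit 3856654) (nat_lit 390829)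 (nat_lit 48142898) (nat_lit 16775685) [(nat_lit 390829), (nat_lit 1408569), (nat_lit 0), (nat_lit 0)]) (PF.cons (PF.leaf (nat_lit 4120580) (nat_lit 408954) (nat_lit 47721304) (nat_lit 16721438) [(nat_lit 408954), (nat_lit 1439205), (nat_lit 0), (nat_lit 0)]) (PF.cons (PF.leaf (nat_lit 4400499) (nat_lit 425369) (nat_lit 47277484) (nat_lit 16661898) [(nat_lit 425369), (nat_lit 1467953), (nat_lit 0), (nat_lit 0)]) (PF.cons (PF.leaf (nat_lit 4694202)
 (nat_lit 440308) (nat_lit 46815240) (nat_lit 16597287) [(nat_lit 440308), (nat_lit 1494741), (nat_lit 0), (nat_lit 0)]) (PF.cons (PF.leaf (nat_lit 4999833) (nat_lit 453949) (nat_lit 46337739) (nat_lit 16527813) [(nat_lit 453949), (nat_lit 1519564), (nat_lit 0), (nat_lit 0)]) (PF.cons (PF.leaf (nat_lit 5315762) (nat_lit 466426) (nat_lit 45847686) (nat_lit 16453683) [(nat_lit 466426), (nat_lit 1542459), (nat_lit 0), (nat_lit 0)]) (PF.cons (PF.leaf (nat_lit 5640654) (nat_lit 477848) (nat_lit 45347429) (nat_lit 16375111) [(nat_lit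 477848), (nat_lit 1563482), (nat_lit 0), (nat_lit 0)]) (PF.cons PF.nil PF.nil)))))))))) (PF.cons (PF.cons (PF.leaf (nat_lit 4026827) (nat_lit 1434857) (nat_lit 47545268) (nat_lit 16693828) [(nat_lit 0), (nat_lit 1434857), (nat_lit 0), (nat_lit 0)]) (PF.cons (PF.leaf (nat_lit 4283937) (nat_lit 415681) (nat_lit 47131136) (nat_lit 16637410) [(nat_lit 415681), (nat_lit 1462292), (nat_lit 0), (nat_lit 0)]) (PF.cons (PF.leaf (nat_lit 4558523) (nat_lit 431562) (nat_lit 46693628) (nat_lit 16575521) [(nat_lit 431562), (nat_lit 1488268), (nat_lit 0), (nat_lit 0)]) (PF.cons (PF.leaf (nat_lit 4847425) (nat_lit 445957) (nat_lit 46237217) (nat_lit 16508499) [(nat_lit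
 445957), (nat_lit 1512611), (nat_lit 0), (nat_lit 0)]) (PF.cons (PF.leaf (nat_lit 5148548) (nat_lit 459061) (nat_lit 45765435) (nat_lit 16436631) [(nat_lit 459061), (nat_lit 1535249), (nat_lit 0), (nat_lit 0)]) (PF.cons (PF.leaf (nat_lit 5460168) (nat_lit 471020) (nat_lit 45281192) (nat_lit 16360174) [(nat_lit 471020), (nat_lit 1556172), (nat_lit 0), (nat_lit 0)]) (PF.cons (PF.leaf (nat_lit 5780786) (nat_lit 481947) (nat_lit 44786945) (nat_lit 16279378) [(nat_lit 481947), (nat_lit 1575402), (nat_lit 0), (nat_lit 0)]) (PF.cons PF.nil (PF.cons PF.nil PF.nil))))))))) (PF.cons (PF.cons (PF.leaf (nat_lit 4718001) (nat_lit 1506626) (nat_lit 46104621) (nat_lit 16484310) [(nat_lit 0), (nat_lit 1506626), (nat_lit 0), (nat_lit 0)]) (PF.cons (PF.leaf (nat_lit 5000583) (nat_lit 450732) (nat_lit 45656575) (nat_lit 16415426) [(nat_lit 450732), (nat_lit 1528692), (nat_lit 0), (nat_lit 0)]) (PF.cons (PF.leaf (nat_lit 5296448) (nat_lit 463418) (nat_lit 45192445) (nat_lit 16341628)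 [(nat_lit 463418), (nat_lit 1549300), (nat_lit 0), (nat_lit 0)]) (PF.cons (PF.leaf (nat_lit 5603179) (nat_lit 474950) (nat_lit 44715528) (nat_lit 16263254) [(nat_lit 474950), (nat_lit 1568392), (nat_lit 0), (nat_lit 0)])
 (PF.cons (PF.leaf (nat_lit 5919170) (nat_lit 485456) (nat_lit 44228510) (nat_lit 16180603) [(nat_lit 485456), (nat_lit 1585957), (nat_lit 0), (nat_lit 0)]) (PF.cons (PF.leaf (nat_lit 6242991) (nat_lit 495034) (nat_lit 43733636) (nat_lit 16093954) [(nat_lit 495034), (nat_lit 1602016), (nat_lit 0), (nat_lit 0)]) (PF.cons PF.nil PF.nil))))))) (PF.cons (PF.cons (PF.leaf (nat_lit 5444739) (nat_lit 1561866) (nat_lit 44618501) (nat_lit 16242847) [(nat_lit 0), (nat_lit 1561866), (nat_lit 0), (nat_lit 0)]) (PF.cons (PF.leaf (nat_lit 5745485) (nat_lit 478229) (nat_lit 44150596) (nat_lit 16163012) [(nat_lit 478229), (nat_lit 1579243), (nat_lit 0), (nat_lit 0)]) (PF.cons (PF.leaf (nat_lit 6056285) (nat_lit 488391) (nat_lit 43672112) (nat_lit 16078903) [(nat_lit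 488391), (nat_lit 1595253), (nat_lit 0), (nat_lit 0)]) (PF.cons (PF.leaf (nat_lit 6375207) (nat_lit 497622) (nat_lit 43185531) (nat_lit 15990848) [(nat_lit 497622), (nat_lit 1609891), (nat_lit 0), (nat_lit 0)]) (PF.cons PF.nil PF.nil))))) (PF.cons (PF.cons (PF.leaf (nat_lit 6193109) (nat_lit 1603385) (nat_lit 43117540) (nat_lit 15974347) [(nat_lit 0), (nat_lit 1603385), (nat_lit 0), (nat_lit 0)]) (PF.cons (PF.leaf (nat_lit 6506277)
 (nat_lit 499707) (nat_lit 42640386) (nat_lit 15885266) [(nat_lit 499707), (nat_lit 1616690), (nat_lit 0), (nat_lit 0)]) (PF.cons (PF.leaf (nat_lit 6826939) (nat_lit 507811) (nat_lit 42156843) (nat_lit 15792580) [(nat_lit 507811), (nat_lit 1628753), (nat_lit 0), (nat_lit 0)]) (PF.cons PF.nil PF.nil)))) (PF.cons (PF.cons (PF.leaf (nat_lit 6952239) (nat_lit 1633406) (nat_lit 41624427) (nat_lit 15683945) [(nat_lit 0), (nat_lit 1633406), (nat_lit 0), (nat_lit 0)]) (PF.cons PF.nil PF.nil)) (PF.cons PF.nil (PF.cons PF.nil PF.nil))))))))) (PF.cons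 (PF.cons (PF.cons (PF.leaf (nat_lit 3927351) (nat_lit 3397422) (nat_lit 47098737) (nat_lit 16612652) [(nat_lit 0), (nat_lit 0), (nat_lit 3397422), (nat_lit 0)]) (PF.cons (PF.leaf (nat_lit 4157872) (nat_lit 393871) (nat_lit 46730336) (nat_lit 16560888) [(nat_lit 393871), (nat_lit 0), (nat_lit 3423716), (nat_lit 0)]) (PF.cons (PF.leaf (nat_lit 4410116) (nat_lit 412495) (nat_lit 46331320) (nat_lit 16502967) [(nat_lit 412495), (nat_lit 0), (nat_lit 3449534), (nat_lit 0)]) (PF.cons (PF.leaf (nat_lit 4679681) (nat_lit 428995) (nat_lit 45908139) (nat_lit 16439470) [(nat_lit 428995), (nat_lit 0), (nat_lit 3474217), (nat_lit 0)]) (PF.cons (PF.leaf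
 (nat_lit 4963787) (nat_lit 443771) (nat_lit 45465552) (nat_lit 16370822) [(nat_lit 443771), (nat_lit 0), (nat_lit 3497352), (nat_lit 0)]) (PF.cons (PF.leaf (nat_lit 5260237) (nat_lit 457094) (nat_lit 45007282) (nat_lit 16297370) [(nat_lit 457094), (nat_lit 0), (nat_lit 3518686), (nat_lit 0)]) (PF.cons (PF.leaf (nat_lit 5567264) (nat_lit 469160) (nat_lit 44536362) (nat_lit 16219418) [(nat_lit 469160), (nat_lit 0), (nat_lit 3538066), (nat_lit 0)]) (PF.cons (PF.leaf (nat_lit 5883309) (nat_lit 480117) (nat_lit 44055332) (nat_lit 16137248) [(nat_lit 480117), (nat_lit 0), (nat_lit 3555412), (nat_lit 0)]) (PF.cons PF.nil (PF.cons PF.nil PF.nil)))))))))) (PF.cons (PF.cons (PF.leaf (nat_lit 4574196) (nat_lit 1483935) (nat_lit 45742325) (nat_lit 16409884) [(nat_lit 0), (nat_lit 1483935), (nat_lit 3472667), (nat_lit 0)]) (PF.cons (PF.leaf (nat_lit 4836061) (nat_lit 433665) (nat_lit 45329294) (nat_lit 16345099) [(nat_lit 433665), (nat_lit 1506743), (nat_lit 3494010), (nat_lit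 0)]) (PF.cons (PF.leaf (nat_lit 5114097) (nat_lit 448097) (nat_lit 44895396) (nat_lit 16274947) [(nat_lit 448097), (nat_lit 1528177), (nat_lit 3514096), (nat_lit 0)]) (PF.cons (PF.leaf (nat_lit 5405161) (nat_lit 461038)
 (nat_lit 44445054) (nat_lit 16199904) [(nat_lit 461038), (nat_lit 1548116), (nat_lit 3532620), (nat_lit 0)]) (PF.cons (PF.leaf (nat_lit 5707190) (nat_lit 472711) (nat_lit 43981693) (nat_lit 16120353) [(nat_lit 472711), (nat_lit 1566520), (nat_lit 3549401), (nat_lit 0)]) (PF.cons (PF.leaf (nat_lit 6018503) (nat_lit 483275) (nat_lit 43508078) (nat_lit 16036629) [(nat_lit 483275), (nat_lit 1583394), (nat_lit 3564335), (nat_lit 0)]) (PF.cons (PF.leaf (nat_lit 6337716) (nat_lit 492854) (nat_lit 43026505) (nat_lit 15949033) [(nat_lit 492854), (nat_lit 1598769), (nat_lit 3577376), (nat_lit 0)]) (PF.cons PF.nil (PF.cons PF.nil PF.nil))))))))) (PF.cons (PF.cons (PF.leaf (nat_lit 5266021) (nat_lit 1541553) (nat_lit 44322383) (nat_lit 16175030) [(nat_lit 0),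 (nat_lit 1541553), (nat_lit 3528292), (nat_lit 0)]) (PF.cons (PF.leaf (nat_lit 5550221) (nat_lit 464236) (nat_lit 43882154) (nat_lit 16098934) [(nat_lit 464236), (nat_lit 1559649), (nat_lit 3544188), (nat_lit 0)]) (PF.cons (PF.leaf (nat_lit 5846554) (nat_lit 475619) (nat_lit 43427981) (nat_lit 16018233) [(nat_lit 475619), (nat_lit 1576406), (nat_lit 3558545), (nat_lit 0)]) (PF.cons (PF.leaf (nat_lit 6152640) (nat_lit 485872) (nat_lit
 42963035) (nat_lit 15933340) [(nat_lit 485872), (nat_lit 1591792), (nat_lit 3571236), (nat_lit 0)]) (PF.cons (PF.leaf (nat_lit 6466904) (nat_lit 495133) (nat_lit 42489852) (nat_lit 15844609) [(nat_lit 495133), (nat_lit 1605811), (nat_lit 3582193), (nat_lit 0)]) (PF.cons PF.nil (PF.cons PF.nil PF.nil))))))) (PF.cons (PF.cons (PF.leaf (nat_lit 5986485) (nat_lit 1585102) (nat_lit 42874793) (nat_lit 15913064) [(nat_lit 0), (nat_lit 1585102), (nat_lit 3565648), (nat_lit 0)]) (PF.cons (PF.leaf (nat_lit 6286262) (nat_lit 487908) (nat_lit 42419954)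 (nat_lit 15827433) [(nat_lit 487908), (nat_lit 1599089), (nat_lit 3576247), (nat_lit 0)]) (PF.cons (PF.leaf (nat_lit 6595099) (nat_lit 496921) (nat_lit 41956250) (nat_lit 15737935) [(nat_lit 496921), (nat_lit 1611838), (nat_lit 3585267), (nat_lit 0)]) (PF.cons (PF.leaf (nat_lit 6911133) (nat_lit 505039) (nat_lit 41486015) (nat_lit 15644939) [(nat_lit 505039), (nat_lit 1623357), (nat_lit 3592669), (nat_lit 0)]) (PF.cons PF.nil PF.nil))))) (PF.cons (PF.cons (PF.leaf (nat_lit 6723229) (nat_lit 1616921) (nat_lit 41425374) (nat_lit 15629046) [(nat_lit 0), (nat_lit 1616921), (nat_lit 3586704), (nat_lit 0)]) (PF.cons (PF.leaf (nat_lit 7033357)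
 (nat_lit 506134) (nat_lit 40965190) (nat_lit 15535651) [(nat_lit 506134), (nat_lit 1627349), (nat_lit 3592437), (nat_lit 0)]) (PF.cons PF.nil (PF.cons PF.nil PF.nil)))) (PF.cons (PF.cons (PF.leaf (nat_lit 7466737) (nat_lit 1638902) (nat_lit 39992828) (nat_lit 15327888) [(nat_lit 0), (nat_lit 1638902), (nat_lit 3593580), (nat_lit 0)]) (PF.cons PF.nil PF.nil)) (PF.cons PF.nil (PF.cons PF.nil PF.nil)))))))) (PF.cons (PF.cons (PF.cons (PF.leaf (nat_lit 5108178) (nat_lit 3507415) (nat_lit 43993001) (nat_lit 16100980) [(nat_lit 0), (nat_lit 0), (nat_lit 3507415), (nat_lit 0)]) (PF.cons (PF.leaf (nat_lit 5372748) (nat_lit 447562) (nat_lit 43585945) (nat_lit 16029595) [(nat_lit 447562), (nat_lit 0), (nat_lit 3522854), (nat_lit 0)]) (PF.cons (PF.leaf (nat_lit 5652352) (nat_lit 460724) (nat_lit 43160205) (nat_lit 15953030) [(nat_lit 460724), (nat_lit 0), (nat_lit 3537063), (nat_lit 0)]) (PF.cons (PF.leaf (nat_lit 5943851) (nat_lit 472401) (nat_lit 42720095) (nat_lit 15871864)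 [(nat_lit 472401), (nat_lit 0), (nat_lit 3549823), (nat_lit 0)]) (PF.cons (PF.leaf (nat_lit 6245240) (nat_lit 482835) (nat_lit 42268901) (nat_lit 15786554) [(nat_lit 482835), (nat_lit 0), (nat_lit 3561007), (nat_lit
 0)]) (PF.cons (PF.leaf (nat_lit 6554915) (nat_lit 492198) (nat_lit 41809235) (nat_lit 15697482) [(nat_lit 492198), (nat_lit 0), (nat_lit 3570550), (nat_lit 0)]) (PF.cons PF.nil (PF.cons PF.nil (PF.cons PF.nil PF.nil))))))))) (PF.cons (PF.cons (PF.leaf (nat_lit 5796623) (nat_lit 1565455) (nat_lit 42607209) (nat_lit 15846897) [(nat_lit 0), (nat_lit 1565455), (nat_lit 3544625), (nat_lit 0)]) (PF.cons (PF.leaf (nat_lit 6080895) (nat_lit 474321) (nat_lit 42178313) (nat_lit 15765381) [(nat_lit 474321), (nat_lit 1580245), (nat_lit 3555275), (nat_lit 0)]) (PF.cons (PF.leaf (nat_lit 6376292) (nat_lit 484569) (nat_lit 41737267) (nat_lit 15679586) [(nat_lit 484569), (nat_lit 1593797), (nat_lit 3564511), (nat_lit 0)]) (PF.cons (PF.leaf (nat_lit 6680480) (nat_lit 493713)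 (nat_lit 41287093) (nat_lit 15589982) [(nat_lit 493713), (nat_lit 1606100), (nat_lit 3572248), (nat_lit 0)]) (PF.cons (PF.leaf (nat_lit 6991949) (nat_lit 501901) (nat_lit 40830176) (nat_lit 15496960) [(nat_lit 501901), (nat_lit 1617171), (nat_lit 3578449), (nat_lit 0)]) (PF.cons PF.nil (PF.cons PF.nil PF.nil))))))) (PF.cons (PF.cons (PF.leaf (nat_lit 6508083) (nat_lit 1599382) (nat_lit 41207143) (nat_lit 15570190) [(nat_lit
 0), (nat_lit 1599382), (nat_lit 3566356), (nat_lit 0)]) (PF.cons (PF.leaf (nat_lit 6805771) (nat_lit 494737) (nat_lit 40767705) (nat_lit 15480456) [(nat_lit 494737), (nat_lit 1610539), (nat_lit 3572417), (nat_lit 0)]) (PF.cons (PF.leaf (nat_lit 7111660) (nat_lit 502755) (nat_lit 40320794) (nat_lit 15387242) [(nat_lit 502755), (nat_lit 1620568), (nat_lit 3577063), (nat_lit 0)]) (PF.cons PF.nil (PF.cons PF.nil PF.nil))))) (PF.cons (PF.cons (PF.leaf (nat_lit 7231516) (nat_lit 1623194) (nat_lit 39814689) (nat_lit 15275837) [(nat_lit 0), (nat_lit 1623194),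 (nat_lit 3574351), (nat_lit 0)]) (PF.cons (PF.leaf (nat_lit 7537839) (nat_lit 510199) (nat_lit 39372832) (nat_lit 15179651) [(nat_lit 510199), (nat_lit 1631220), (nat_lit 3576234), (nat_lit 0)]) (PF.cons PF.nil (PF.cons PF.nil PF.nil)))) (PF.cons (PF.cons (PF.leaf (nat_lit 7958556) (nat_lit 1638537) (nat_lit 38445343) (nat_lit 14968412) [(nat_lit 0), (nat_lit 1638537), (nat_lit 3570452), (nat_lit 0)]) (PF.cons PF.nil PF.nil)) (PF.cons PF.nil PF.nil)))))) (PF.cons (PF.cons (PF.cons (PF.leaf (nat_lit 6309142) (nat_lit 3545572) (nat_lit 40965648) (nat_lit 15506447) [(nat_lit 0), (nat_lit 0), (nat_lit 3545572), (nat_lit 0)]) (PF.cons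
 (PF.leaf (nat_lit 6592267) (nat_lit 481601) (nat_lit 40550412) (nat_lit 15421055) [(nat_lit 481601), (nat_lit 0), (nat_lit 3551914), (nat_lit 0)]) (PF.cons (PF.leaf (nat_lit 6885640) (nat_lit 490852) (nat_lit 40124532) (nat_lit 15331711) [(nat_lit 490852), (nat_lit 0), (nat_lit 3556954), (nat_lit 0)]) (PF.cons (PF.leaf (nat_lit 7186997) (nat_lit 499030) (nat_lit 39690873) (nat_lit 15238921) [(nat_lit 499030), (nat_lit 0), (nat_lit 3560642), (nat_lit 0)]) (PF.cons (PF.leaf (nat_lit 7494865) (nat_lit 506287) (nat_lit 39251673) (nat_lit 15143098) [(nat_lit 506287), (nat_lit 0), (nat_lit 3562963), (nat_lit 0)]) PF.nil))))) (PF.cons (PF.cons (PF.leaf (nat_lit 7009605) (nat_lit 1606453) (nat_lit 39618631) (nat_lit 15219854) [(nat_lit 0), (nat_lit 1606453), (nat_lit 3554624), (nat_lit 0)]) (PF.cons (PF.leaf (nat_lit 7304345) (nat_lit 499228) (nat_lit 39195998) (nat_lit 15127433) [(nat_lit 499228), (nat_lit 1615234), (nat_lit 3556972), (nat_lit 0)]) (PF.cons (PF.leaf (nat_lit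 7606562) (nat_lit 506378) (nat_lit 38767026) (nat_lit 15031888) [(nat_lit 506378), (nat_lit 1622985), (nat_lit 3558051), (nat_lit 0)]) (PF.cons PF.nil PF.nil)))) (PF.cons (PF.cons (PF.leaf (nat_lit 7718613) (nat_lit
 1623625) (nat_lit 38285964) (nat_lit 14919423) [(nat_lit 0), (nat_lit 1623625), (nat_lit 3552058), (nat_lit 0)]) (PF.cons (PF.leaf (nat_lit 8020574) (nat_lit 512330) (nat_lit 37863085) (nat_lit 14821688) [(nat_lit 512330), (nat_lit 1629640), (nat_lit 3550809), (nat_lit 0)]) PF.nil)) (PF.cons PF.nil (PF.cons PF.nil PF.nil))))) (PF.cons (PF.cons (PF.cons (PF.leaf (nat_lit 7491453) (nat_lit 3533098) (nat_lit 38109862) (nat_lit 14866556) [(nat_lit 0), (nat_lit 0), (nat_lit 3533098), (nat_lit 0)]) (PF.cons (PF.leaf (nat_lit 7782612) (nat_lit 501793) (nat_lit 37704760) (nat_lit 14772613) [(nat_lit 501793), (nat_lit 0), (nat_lit 3532411), (nat_lit 0)]) (PF.cons (PF.leaf (nat_lit 8080631) (nat_lit 508187) (nat_lit 37294245) (nat_lit 14675868) [(nat_lit 508187),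 (nat_lit 0), (nat_lit 3530581), (nat_lit 0)]) (PF.cons PF.nil PF.nil)))) (PF.cons (PF.cons (PF.leaf (nat_lit 8185334) (nat_lit 1619359) (nat_lit 36837941) (nat_lit 14563487) [(nat_lit 0), (nat_lit 1619359), (nat_lit 3522006), (nat_lit 0)]) (PF.cons PF.nil PF.nil)) (PF.cons PF.nil PF.nil))) (PF.cons (PF.cons (PF.cons (PF.leaf (nat_lit 8632635) (nat_lit 3485945) (nat_lit 35468208) (nat_lit 14210874) [(nat_lit 0), (nat_lit 0),
 (nat_lit 3485945), (nat_lit 0)]) (PF.cons PF.nil PF.nil)) (PF.cons PF.nil PF.nil)) (PF.cons PF.nil (PF.cons PF.nil PF.nil)))))))) (PF.cons (PF.cons (PF.cons (PF.cons (PF.leaf (nat_lit 4796667) (nat_lit 8687901) (nat_lit 42666239) (nat_lit 15754671) [(nat_lit 0), (nat_lit 0), (nat_lit 0), (nat_lit 8687901)]) (PF.cons (PF.leaf (nat_lit 5024120) (nat_lit 402304) (nat_lit 42334193) (nat_lit 15694692) [(nat_lit 402304), (nat_lit 0), (nat_lit 0), (nat_lit 8677622)]) (PF.cons (PF.leaf (nat_lit 5271688) (nat_lit 419567) (nat_lit 41976032) (nat_lit 15628629)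 [(nat_lit 419567), (nat_lit 0), (nat_lit 0), (nat_lit 8665015)]) (PF.cons (PF.leaf (nat_lit 5534943) (nat_lit 434584) (nat_lit 41597682) (nat_lit 15557329) [(nat_lit 434584), (nat_lit 0), (nat_lit 0), (nat_lit 8650048)]) (PF.cons (PF.leaf (nat_lit 5811115) (nat_lit 447808) (nat_lit 41203460) (nat_lit 15481407) [(nat_lit 447808), (nat_lit 0), (nat_lit 0), (nat_lit 8632709)]) (PF.cons (PF.leaf (nat_lit 6098086) (nat_lit 459551) (nat_lit 40796696) (nat_lit 15401350) [(nat_lit 459551), (nat_lit 0), (nat_lit 0), (nat_lit 8613011)]) (PF.cons (PF.leaf (nat_lit 6394118) (nat_lit 470034) (nat_lit 40380058) (nat_lit 15317561) [(nat_lit 470034),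
 (nat_lit 0), (nat_lit 0), (nat_lit 8590987)]) (PF.cons (PF.leaf (nat_lit 6697773) (nat_lit 479426) (nat_lit 39955745) (nat_lit 15230391) [(nat_lit 479426), (nat_lit 0), (nat_lit 0), (nat_lit 8566687)]) (PF.cons PF.nil (PF.cons PF.nil PF.nil)))))))))) (PF.cons (PF.cons (PF.leaf (nat_lit 5421397) (nat_lit 1488982) (nat_lit 41454928) (nat_lit 15526407) [(nat_lit 0), (nat_lit 1488982), (nat_lit 0), (nat_lit 8638494)]) (PF.cons (PF.leaf (nat_lit 5676398) (nat_lit 437341) (nat_lit 41087229) (nat_lit 15455106) [(nat_lit 437341), (nat_lit 1507244), (nat_lit 0), (nat_lit 8621890)]) (PF.cons (PF.leaf (nat_lit 5946008) (nat_lit 450333) (nat_lit 40702204) (nat_lit 15378925) [(nat_lit 450333), (nat_lit 1524106), (nat_lit 0), (nat_lit 8602908)]) (PF.cons (PF.leaf (nat_lit 6227211) (nat_lit 461802) (nat_lit 40303806) (nat_lit 15298479) [(nat_lit 461802), (nat_lit 1539521), (nat_lit 0), (nat_lit 8581597)]) (PF.cons (PF.leaf (nat_lit 6517977) (nat_lit 471997) (nat_lit 39895056) (nat_lit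 15214252) [(nat_lit 471997), (nat_lit 1553500), (nat_lit 0), (nat_lit 8558013)]) (PF.cons (PF.leaf (nat_lit 6816730) (nat_lit 481100) (nat_lit 39478355) (nat_lit 15126644) [(nat_lit 481100), (nat_lit 1566087),
 (nat_lit 0), (nat_lit 8532223)]) (PF.cons (PF.leaf (nat_lit 7122151) (nat_lit 489250) (nat_lit 39055670) (nat_lit 15035999) [(nat_lit 489250), (nat_lit 1577339), (nat_lit 0), (nat_lit 8504302)]) (PF.cons PF.nil (PF.cons PF.nil PF.nil))))))))) (PF.cons (PF.cons (PF.leaf (nat_lit 6082660) (nat_lit 1532296) (nat_lit 40199836) (nat_lit 15273718) [(nat_lit 0), (nat_lit 1532296), (nat_lit 0), (nat_lit 8570664)]) (PF.cons (PF.leaf (nat_lit 6356725) (nat_lit 463423) (nat_lit 39811532) (nat_lit 15193363) [(nat_lit 463423), (nat_lit 1546250), (nat_lit 0), (nat_lit 8547991)]) (PF.cons (PF.leaf (nat_lit 6641593) (nat_lit 473429) (nat_lit 39411923) (nat_lit 15109080) [(nat_lit 473429), (nat_lit 1558941), (nat_lit 0), (nat_lit 8523067)]) (PF.cons (PF.leaf (nat_lit 6934991)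 (nat_lit 482317) (nat_lit 39003776) (nat_lit 15021351) [(nat_lit 482317), (nat_lit 1570375), (nat_lit 0), (nat_lit 8495980)]) (PF.cons (PF.leaf (nat_lit 7235437) (nat_lit 490242) (nat_lit 38589273) (nat_lit 14930570) [(nat_lit 490242), (nat_lit 1580588), (nat_lit 0), (nat_lit 8466823)]) (PF.cons PF.nil (PF.cons PF.nil PF.nil))))))) (PF.cons (PF.cons (PF.leaf (nat_lit 6766084) (nat_lit 1563493) (nat_lit 38930145) (nat_lit
 15001995) [(nat_lit 0), (nat_lit 1563493), (nat_lit 0), (nat_lit 8486190)]) (PF.cons (PF.leaf (nat_lit 7053123) (nat_lit 483072) (nat_lit 38531666) (nat_lit 14914505) [(nat_lit 483072), (nat_lit 1573851), (nat_lit 0), (nat_lit 8458016)]) (PF.cons (PF.leaf (nat_lit 7348157) (nat_lit 490836) (nat_lit 38126168) (nat_lit 14823884) [(nat_lit 490836), (nat_lit 1583093), (nat_lit 0), (nat_lit 8427806)]) (PF.cons (PF.leaf (nat_lit 7649411) (nat_lit 497740) (nat_lit 37715647) (nat_lit 14730521) [(nat_lit 497740), (nat_lit 1591250), (nat_lit 0), (nat_lit 8395670)])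 (PF.cons PF.nil PF.nil))))) (PF.cons (PF.cons (PF.leaf (nat_lit 7461204) (nat_lit 1584906) (nat_lit 37665969) (nat_lit 14715921) [(nat_lit 0), (nat_lit 1584906), (nat_lit 0), (nat_lit 8387297)]) (PF.cons (PF.leaf (nat_lit 7756659) (nat_lit 497808) (nat_lit 37264739) (nat_lit 14622967) [(nat_lit 497808), (nat_lit 1592241), (nat_lit 0), (nat_lit 8354332)]) (PF.cons PF.nil (PF.cons PF.nil PF.nil)))) (PF.cons (PF.cons (PF.leaf (nat_lit 8160160) (nat_lit 1598300) (nat_lit 36421368) (nat_lit 14419603) [(nat_lit 0), (nat_lit 1598300), (nat_lit 0), (nat_lit 8276336)]) (PF.cons PF.nil PF.nil)) PF.nil)))))) (PF.cons (PF.cons (PF.cons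
 (PF.leaf (nat_lit 5914124) (nat_lit 3445340) (nat_lit 39925983) (nat_lit 15202802) [(nat_lit 0), (nat_lit 0), (nat_lit 3445340), (nat_lit 8534686)]) (PF.cons (PF.leaf (nat_lit 6170126) (nat_lit 446891) (nat_lit 39566589) (nat_lit 15127808) [(nat_lit 446891), (nat_lit 0), (nat_lit 3454094), (nat_lit 8513428)]) (PF.cons (PF.leaf (nat_lit 6439808) (nat_lit 458762) (nat_lit 39191602) (nat_lit 15048172) [(nat_lit 458762), (nat_lit 0), (nat_lit 3461674), (nat_lit 8489838)]) (PF.cons (PF.leaf (nat_lit 6720122) (nat_lit 469141) (nat_lit 38804830) (nat_lit 14964563) [(nat_lit 469141), (nat_lit 0), (nat_lit 3467957), (nat_lit 8464035)]) (PF.cons (PF.leaf (nat_lit 7009147) (nat_lit 478290) (nat_lit 38409142) (nat_lit 14877499) [(nat_lit 478290), (nat_lit 0), (nat_lit 3472884), (nat_lit 8436125)]) (PF.cons (PF.leaf (nat_lit 7305348) (nat_lit 486394) (nat_lit 38006792) (nat_lit 14787399) [(nat_lit 486394), (nat_lit 0), (nat_lit 3476437), (nat_lit 8406210)]) (PF.cons PF.nil PF.nil)))))))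 (PF.cons (PF.cons (PF.leaf (nat_lit 6569416) (nat_lit 1544171) (nat_lit 38709544) (nat_lit 14940441) [(nat_lit 0), (nat_lit 1544171), (nat_lit 3461921), (nat_lit 8452734)]) (PF.cons (PF.leaf (nat_lit 6842427)
 (nat_lit 469796) (nat_lit 38333396) (nat_lit 14857396) [(nat_lit 469796), (nat_lit 1555527), (nat_lit 3466700), (nat_lit 8425995)]) (PF.cons (PF.leaf (nat_lit 7125414) (nat_lit 478842) (nat_lit 37947291) (nat_lit 14770719) [(nat_lit 478842), (nat_lit 1565725), (nat_lit 3470244), (nat_lit 8397146)]) (PF.cons (PF.leaf (nat_lit 7416168) (nat_lit 486808) (nat_lit 37553850) (nat_lit 14680915) [(nat_lit 486808), (nat_lit 1574783), (nat_lit 3472522), (nat_lit 8366315)]) (PF.cons (PF.leaf (nat_lit 7713260) (nat_lit 493852) (nat_lit 37155116) (nat_lit 14588391) [(nat_lit 493852), (nat_lit 1582742), (nat_lit 3473531), (nat_lit 8333620)]) PF.nil))))) (PF.cons (PF.cons (PF.leaf (nat_lit 7242736) (nat_lit 1568035) (nat_lit 37487298) (nat_lit 14662433) [(nat_lit 0), (nat_lit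 1568035), (nat_lit 3466423), (nat_lit 8356587)]) (PF.cons (PF.leaf (nat_lit 7527066) (nat_lit 486814) (nat_lit 37103746) (nat_lit 14573259) [(nat_lit 486814), (nat_lit 1576214), (nat_lit 3467530), (nat_lit 8325033)]) (PF.cons (PF.leaf (nat_lit 7818706) (nat_lit 493761) (nat_lit 36714180) (nat_lit 14481261) [(nat_lit 493761), (nat_lit 1583380), (nat_lit 3467457), (nat_lit 8291629)]) (PF.cons PF.nil PF.nil)))) (PF.cons
 (PF.cons (PF.leaf (nat_lit 7924661) (nat_lit 1583451) (nat_lit 36276375) (nat_lit 14373189) [(nat_lit 0), (nat_lit 1583451), (nat_lit 3460453), (nat_lit 8248440)]) (PF.cons (PF.leaf (nat_lit 8216105) (nat_lit 499365) (nat_lit 35891964) (nat_lit 14279490) [(nat_lit 499365), (nat_lit 1588968), (nat_lit 3458296), (nat_lit 8212792)]) PF.nil)) (PF.cons PF.nil PF.nil))))) (PF.cons (PF.cons (PF.cons (PF.leaf (nat_lit 7039620) (nat_lit 3446129) (nat_lit 37288304) (nat_lit 14604149) [(nat_lit 0), (nat_lit 0), (nat_lit 3446129), (nat_lit 8324099)]) (PF.cons (PF.leaf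 (nat_lit 7310739) (nat_lit 474092) (nat_lit 36925478) (nat_lit 14519436) [(nat_lit 474092), (nat_lit 0), (nat_lit 3447818), (nat_lit 8294169)]) (PF.cons (PF.leaf (nat_lit 7591146) (nat_lit 482296) (nat_lit 36553833) (nat_lit 14431372) [(nat_lit 482296), (nat_lit 0), (nat_lit 3448372), (nat_lit 8262268)]) (PF.cons (PF.leaf (nat_lit 7878659) (nat_lit 489457) (nat_lit 36175844) (nat_lit 14340473) [(nat_lit 489457), (nat_lit 0), (nat_lit 3447783), (nat_lit 8228556)]) (PF.cons PF.nil PF.nil))))) (PF.cons (PF.cons (PF.leaf (nat_lit 7701661) (nat_lit 1567526) (nat_lit 36115775) (nat_lit 14322960) [(nat_lit 0), (nat_lit 1567526),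
 (nat_lit 3441757), (nat_lit 8219035)]) (PF.cons (PF.leaf (nat_lit 7982728) (nat_lit 488853) (nat_lit 35747696) (nat_lit 14233003) [(nat_lit 488853), (nat_lit 1573874), (nat_lit 3440242), (nat_lit 8184901)]) (PF.cons (PF.leaf (nat_lit 8270523) (nat_lit 495085) (nat_lit 35374427) (nat_lit 14140500) [(nat_lit 495085), (nat_lit 1579298), (nat_lit 3437663), (nat_lit 8149086)]) (PF.cons PF.nil PF.nil)))) (PF.cons (PF.cons (PF.leaf (nat_lit 8369833) (nat_lit 1577963) (nat_lit 34958652) (nat_lit 14033173) [(nat_lit 0), (nat_lit 1577963), (nat_lit 3428505), (nat_lit 8104049)]) (PF.cons PF.nil PF.nil)) PF.nil))) (PF.cons (PF.cons (PF.cons (PF.leaf (nat_lit 8143425) (nat_lit 3410773) (nat_lit 34814219) (nat_lit 13986190) [(nat_lit 0), (nat_lit 0), (nat_lit 3410773), (nat_lit 8076082)]) (PF.cons (PF.leaf (nat_lit 8420804) (nat_lit 489488) (nat_lit 34461767) (nat_lit 13896180) [(nat_lit 489488), (nat_lit 0), (nat_lit 3407115), (nat_lit 8040031)]) (PF.cons PF.nil PF.nil))) (PF.cons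 (PF.cons (PF.leaf (nat_lit 8797521) (nat_lit 1569238) (nat_lit 33710413) (nat_lit 13697950) [(nat_lit 0), (nat_lit 1569238), (nat_lit 3391657), (nat_lit 7956237)]) PF.nil) PF.nil)) (PF.cons PF.nil (PF.cons PF.nil
 PF.nil)))))) (PF.cons (PF.cons (PF.cons (PF.cons (PF.leaf (nat_lit 6633253) (nat_lit 8166346) (nat_lit 36440894) (nat_lit 14335226) [(nat_lit 0), (nat_lit 0), (nat_lit 0), (nat_lit 8166346)]) (PF.cons (PF.leaf (nat_lit 6880169) (nat_lit 441514) (nat_lit 36124607) (nat_lit 14260844) [(nat_lit 441514), (nat_lit 0), (nat_lit 0), (nat_lit 8140923)]) (PF.cons (PF.leaf (nat_lit 7139705) (nat_lit 452329) (nat_lit 35795112) (nat_lit 14182311) [(nat_lit 452329), (nat_lit 0), (nat_lit 0), (nat_lit 8113364)]) (PF.cons (PF.leaf (nat_lit 7408869) (nat_lit 461673) (nat_lit 35455747) (nat_lit 14100323) [(nat_lit 461673), (nat_lit 0), (nat_lit 0), (nat_lit 8083860)]) (PF.cons (PF.leaf (nat_lit 7685836) (nat_lit 469815) (nat_lit 35109005) (nat_lit 14015407) [(nat_lit 469815),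 (nat_lit 0), (nat_lit 0), (nat_lit 8052568)]) (PF.cons (PF.leaf (nat_lit 7969160) (nat_lit 476950) (nat_lit 34756831) (nat_lit 13927986) [(nat_lit 476950), (nat_lit 0), (nat_lit 0), (nat_lit 8019621)]) (PF.cons PF.nil PF.nil))))))) (PF.cons (PF.cons (PF.leaf (nat_lit 7257051) (nat_lit 1510615) (nat_lit 35375205) (nat_lit 14077841) [(nat_lit 0), (nat_lit 1510615), (nat_lit 0), (nat_lit 8072574)]) (PF.cons (PF.leaf (nat_lit
 7518985) (nat_lit 461471) (nat_lit 35045524) (nat_lit 13996913) [(nat_lit 461471), (nat_lit 1519516), (nat_lit 0), (nat_lit 8042693)]) (PF.cons (PF.leaf (nat_lit 7790023) (nat_lit 469574) (nat_lit 34707490) (nat_lit 13912860) [(nat_lit 469574), (nat_lit 1527337), (nat_lit 0), (nat_lit 8010987)]) (PF.cons (PF.leaf (nat_lit 8068036) (nat_lit 476631) (nat_lit 34363372) (nat_lit 13826184) [(nat_lit 476631), (nat_lit 1534118), (nat_lit 0), (nat_lit 7977621)]) (PF.cons PF.nil PF.nil))))) (PF.cons (PF.cons (PF.leaf (nat_lit 7895512) (nat_lit 1527518) (nat_lit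 34307772) (nat_lit 13809359) [(nat_lit 0), (nat_lit 1527518), (nat_lit 0), (nat_lit 7968322)]) (PF.cons (PF.leaf (nat_lit 8167267) (nat_lit 475965) (nat_lit 33972509) (nat_lit 13723709) [(nat_lit 475965), (nat_lit 1533615), (nat_lit 0), (nat_lit 7934698)]) (PF.cons (PF.leaf (nat_lit 8445645) (nat_lit 482094) (nat_lit 33632237) (nat_lit 13635710) [(nat_lit 482094), (nat_lit 1538797), (nat_lit 0), (nat_lit 7899540)]) (PF.cons PF.nil PF.nil)))) (PF.cons (PF.cons (PF.leaf (nat_lit 8540427) (nat_lit 1537254) (nat_lit 33252313) (nat_lit 13533622) [(nat_lit 0), (nat_lit 1537254), (nat_lit 0), (nat_lit 7855556)]) (PF.cons PF.nil PF.nil))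
 (PF.cons PF.nil PF.nil))))) (PF.cons (PF.cons (PF.cons (PF.leaf (nat_lit 7691446) (nat_lit 3332503) (nat_lit 34142908) (nat_lit 13757122) [(nat_lit 0), (nat_lit 0), (nat_lit 3332503), (nat_lit 7938139)]) (PF.cons (PF.leaf (nat_lit 7951127) (nat_lit 463781) (nat_lit 33825385) (nat_lit 13675793) [(nat_lit 463781), (nat_lit 0), (nat_lit 3331244), (nat_lit 7906303)]) (PF.cons (PF.leaf (nat_lit 8219344) (nat_lit 471162) (nat_lit 33500392) (nat_lit 13591575) [(nat_lit 471162), (nat_lit 0), (nat_lit 3328987), (nat_lit 7872766)]) (PF.cons (PF.leaf (nat_lit 8493989) (nat_lit 477538) (nat_lit 33170068) (nat_lit 13504971) [(nat_lit 477538), (nat_lit 0), (nat_lit 3325745), (nat_lit 7837706)]) (PF.cons PF.nil PF.nil))))) (PF.cons (PF.cons (PF.leaf (nat_lit 8318900) (nat_lit 1522320) (nat_lit 33119869) (nat_lit 13489175) [(nat_lit 0), (nat_lit 1522320), (nat_lit 3319922), (nat_lit 7828762)]) (PF.cons (PF.leaf (nat_lit 8587320) (nat_lit 476412) (nat_lit 32798299) (nat_lit 13403793)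 [(nat_lit 476412), (nat_lit 1526973), (nat_lit 3316035), (nat_lit 7793649)]) (PF.cons PF.nil (PF.cons PF.nil PF.nil)))) (PF.cons (PF.cons (PF.leaf (nat_lit 8950964) (nat_lit 1528233) (nat_lit 32111384) (nat_lit
 13215837) [(nat_lit 0), (nat_lit 1528233), (nat_lit 3300384), (nat_lit 7712369)]) (PF.cons PF.nil PF.nil)) PF.nil))) (PF.cons (PF.cons (PF.cons (PF.leaf (nat_lit 8727289) (nat_lit 3284054) (nat_lit 31992032) (nat_lit 13174472) [(nat_lit 0), (nat_lit 0), (nat_lit 3284054), (nat_lit 7687099)]) (PF.cons (PF.leaf (nat_lit 8992082) (nat_lit 475812) (nat_lit 31684053) (nat_lit 13089817) [(nat_lit 475812), (nat_lit 0), (nat_lit 3278621), (nat_lit 7650943)]) PF.nil)) (PF.cons PF.nil PF.nil)) (PF.cons PF.nil (PF.cons PF.nil PF.nil))))) (PF.cons (PF.cons (PF.cons (PF.cons (PF.leaf (nat_lit 8280134) (nat_lit 7565113) (nat_lit 31438224) (nat_lit 12975248) [(nat_lit 0), (nat_lit 0), (nat_lit 0), (nat_lit 7565113)]) (PF.cons (PF.leaf (nat_lit 8529101) (nat_lit 452028) (nat_lit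 31159289) (nat_lit 12898519) [(nat_lit 452028), (nat_lit 0), (nat_lit 0), (nat_lit 7532991)]) (PF.cons (PF.leaf (nat_lit 8785988) (nat_lit 458746) (nat_lit 30873917) (nat_lit 12819265) [(nat_lit 458746), (nat_lit 0), (nat_lit 0), (nat_lit 7499378)]) (PF.cons PF.nil PF.nil)))) (PF.cons (PF.cons (PF.leaf (nat_lit 8876531) (nat_lit 1474586) (nat_lit 30541750) (nat_lit 12723845) [(nat_lit 0), (nat_lit 1474586), (nat_lit 0),
 (nat_lit 7456210)]) (PF.cons (PF.leaf (nat_lit 9133325) (nat_lit 463034) (nat_lit 30259481) (nat_lit 12643879) [(nat_lit 463034), (nat_lit 1478035), (nat_lit 0), (nat_lit 7421460)]) PF.nil)) (PF.cons PF.nil PF.nil))) (PF.cons (PF.cons (PF.cons (PF.leaf (nat_lit 9256783) (nat_lit 3158502) (nat_lit 29558859) (nat_lit 12432741) [(nat_lit 0), (nat_lit 0), (nat_lit 3158502), (nat_lit 7319569)]) (PF.cons (PF.leaf (nat_lit 9510085) (nat_lit 461645) (nat_lit 29288289) (nat_lit 12353894) [(nat_lit 461645), (nat_lit 0), (nat_lit 3152042), (nat_lit 7284313)])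 PF.nil)) (PF.cons PF.nil PF.nil)) (PF.cons PF.nil PF.nil))) (PF.cons (PF.cons (PF.cons (PF.cons (PF.leaf (nat_lit 9742097) (nat_lit 6976292) (nat_lit 27446110) (nat_lit 11757530) [(nat_lit 0), (nat_lit 0), (nat_lit 0), (nat_lit 6976292)]) (PF.cons PF.nil PF.nil)) (PF.cons PF.nil PF.nil)) (PF.cons PF.nil PF.nil)) (PF.cons PF.nil (PF.cons PF.nil (PF.cons PF.nil PF.nil))))))))

def p12_14_3_0 : pfC (piC [(nat_lit 38167130), (nat_lit 25010362), (nat_lit 18643303), (nat_lit 12552662)] (nat_lit 5464530)) p12_14_3 (nat_lit 4) (nat_lit 0) (nat_lit 1) = true := by decide +kernel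
def p12_14_3_1 : pfC (piC [(nat_lit 38167130), (nat_lit 25010362), (nat_lit 18643303), (nat_lit 12552662)] (nat_lit 5464530)) p12_14_3 (nat_lit 4) (nat_lit 1) (nat_lit 2) = true := by decide +kernel
def p12_14_3_2 : pfC (piC [(nat_lit 38167130), (nat_lit 25010362), (nat_lit 18643303), (nat_lit 12552662)] (nat_lit 5464530)) p12_14_3 (nat_lit 4) (nat_lit 2) (nat_lit 3) = true := by decide +kernel
def p12_14_3_3 : pfC (piC [(nat_lit 38167130), (nat_lit 25010362), (nat_lit 18643303), (nat_lit 12552662)] (nat_lit 5464530)) p12_14_3 (nat_lit 4) (nat_lit 3) (nat_lit 4) = true := by decide +kernel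
def p12_14_3_4 : pfC (piC [(nat_lit 38167130), (nat_lit 25010362), (nat_lit 18643303), (nat_lit 12552662)] (nat_lit 5464530)) p12_14_3 (nat_lit 4) (nat_lit 4) (nat_lit 5) = true := by decide +kernel
def p12_14_3_5 : pfC (piC [(nat_lit 38167130), (nat_lit 25010362), (nat_lit 18643303), (nat_lit 12552662)] (nat_lit 5464530)) p12_14_3 (nat_lit 4) (nat_lit 5) (nat_lit 6) = true := by decide +kernel
def p12_14_3_6 : pfC (piC [(nat_lit 38167130), (nat_lit 25010362), (nat_lit 18643303), (nat_lit 12552662)] (nat_lit 5464530)) p12_14_3 (nat_lit 4) (nat_lit 6) (nat_lit 7) = true := by decide +kernel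
def p12_14_3_7 : pfC (piC [(nat_lit 38167130), (nat_lit 25010362), (nat_lit 18643303), (nat_lit 12552662)] (nat_lit 5464530)) p12_14_3 (nat_lit 4) (nat_lit 7) (nat_lit 8) = true := by decide +kernel
def p12_14_3_8 : pfC (piC [(nat_lit 38167130), (nat_lit 25010362), (nat_lit 18643303), (nat_lit 12552662)] (nat_lit 5464530)) p12_14_3 (nat_lit 4) (nat_lit 8) (nat_lit 9) = true := by decide +kernel
def p12_14_3_9 : pfC (piC [(nat_lit 38167130), (nat_lit 25010362), (nat_lit 18643303), (nat_lit 12552662)] (nat_lit 5464530)) p12_14_3 (nat_lit 4) (nat_lit 9) (nat_lit 10) = true := by decide +kernel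
def p12_14_3_10 : pfC (piC [(nat_lit 38167130), (nat_lit 25010362), (nat_lit 18643303), (nat_lit 12552662)] (nat_lit 5464530)) p12_14_3 (nat_lit 4) (nat_lit 10) (nat_lit 11) = true := by decide +kernel
def p12_14_3_11 : pfC (piC [(nat_lit 38167130), (nat_lit 25010362), (nat_lit 18643303), (nat_lit 12552662)] (nat_lit 5464530)) p12_14_3 (nat_lit 4) (nat_lit 11) (nat_lit 12) = true := by decide +kernel
def p12_14_3_12 : pfC (piC [(nat_lit 38167130), (nat_lit 25010362), (nat_lit 18643303), (nat_lit 12552662)] (nat_lit 5464530)) p12_14_3 (nat_lit 4) (nat_lit 12) (nat_lit 13) = true := by decide +kernel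
def p12_14_3_13 : pfC (piC [(nat_lit 38167130), (nat_lit 25010362), (nat_lit 18643303), (nat_lit 12552662)] (nat_lit 5464530)) p12_14_3 (nat_lit 4) (nat_lit 13) (nat_lit 14) = true := by decide +kernel
def p12_14_3_14 : pfC (piC [(nat_lit 38167130), (nat_lit 25010362), (nat_lit 18643303), (nat_lit 12552662)] (nat_lit 5464530)) p12_14_3 (nat_lit 4) (nat_lit 14) (nat_lit 15) = true := by decide +kernel
def p12_14_3_15 : pfC (piC [(nat_lit 38167130), (nat_lit 25010362), (nat_lit 18643303), (nat_lit 12552662)] (nat_lit 5464530)) p12_14_3 (nat_lit 4) (nat_lit 15) (nat_lit 16) = true := by decide +kernel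
def p12_14_3_16 : pfC (piC [(nat_lit 38167130), (nat_lit 25010362), (nat_lit 18643303), (nat_lit 12552662)] (nat_lit 5464530)) p12_14_3 (nat_lit 4) (nat_lit 16) (nat_lit 17) = true := by decide +kernel
def p12_14_3_17 : pfC (piC [(nat_lit 38167130), (nat_lit 25010362), (nat_lit 18643303), (nat_lit 12552662)] (nat_lit 5464530)) p12_14_3 (nat_lit 4) (nat_lit 17) (nat_lit 18) = true := by decide +kernel
def p12_14_3_18 : pfC (piC [(nat_lit 38167130), (nat_lit 25010362), (nat_lit 18643303), (nat_lit 12552662)] (nat_lit 5464530)) p12_14_3 (nat_lit 4) (nat_lit 18) (nat_lit 19) = true := by decide +kernel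
def p12_14_3_19 : pfC (piC [(nat_lit 38167130), (nat_lit 25010362), (nat_lit 18643303), (nat_lit 12552662)] (nat_lit 5464530)) p12_14_3 (nat_lit 4) (nat_lit 19) (nat_lit 20) = true := by decide +kernel
def p12_14_3_20 : pfC (piC [(nat_lit 38167130), (nat_lit 25010362), (nat_lit 18643303), (nat_lit 12552662)] (nat_lit 5464530)) p12_14_3 (nat_lit 4) (nat_lit 20) (nat_lit 21) = true := by decide +kernel
def p12_14_3_21 : pfC (piC [(nat_lit 38167130), (nat_lit 25010362), (nat_lit 18643303), (nat_lit 12552662)] (nat_lit 5464530)) p12_14_3 (nat_lit 4) (nat_lit 21) (nat_lit 22) = true := by decide +kernel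
def p12_14_3_22 : pfC (piC [(nat_lit 38167130), (nat_lit 25010362), (nat_lit 18643303), (nat_lit 12552662)] (nat_lit 5464530)) p12_14_3 (nat_lit 4) (nat_lit 22) (nat_lit 23) = true := by decide +kernel
def p12_14_3_23 : pfC (piC [(nat_lit 38167130), (nat_lit 25010362), (nat_lit 18643303), (nat_lit 12552662)] (nat_lit 5464530)) p12_14_3 (nat_lit 4) (nat_lit 23) (nat_lit 24) = true := by decide +kernel
def p12_14_3_24 : pfC (piC [(nat_lit 38167130), (nat_lit 25010362), (nat_lit 18643303), (nat_lit 12552662)] (nat_lit 5464530)) p12_14_3 (nat_lit 4) (nat_lit 24) (nat_lit 25) = true := by decide +kernel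
def p12_14_3_25 : pfC (piC [(nat_lit 38167130), (nat_lit 25010362), (nat_lit 18643303), (nat_lit 12552662)] (nat_lit 5464530)) p12_14_3 (nat_lit 4) (nat_lit 25) (nat_lit 26) = true := by decide +kernel
def p12_14_3_26 : pfC (piC [(nat_lit 38167130), (nat_lit 25010362), (nat_lit 18643303), (nat_lit 12552662)] (nat_lit 5464530)) p12_14_3 (nat_lit 4) (nat_lit 26) (nat_lit 27) = true := by decide +kernel
def p12_14_3_27 : pfC (piC [(nat_lit 38167130), (nat_lit 25010362), (nat_lit 18643303), (nat_lit 12552662)] (nat_lit 5464530)) p12_14_3 (nat_lit 4) (nat_lit 27) (nat_lit 28) = true := by decide +kernel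
def p12_14_3_28 : pfC (piC [(nat_lit 38167130), (nat_lit 25010362), (nat_lit 18643303), (nat_lit 12552662)] (nat_lit 5464530)) p12_14_3 (nat_lit 4) (nat_lit 28) (nat_lit 29) = true := by decide +kernel
def p12_14_3_29 : pfC (piC [(nat_lit 38167130), (nat_lit 25010362), (nat_lit 18643303), (nat_lit 12552662)] (nat_lit 5464530)) p12_14_3 (nat_lit 4) (nat_lit 29) (nat_lit 30) = true := by decide +kernel
def p12_14_3_30 : pfC (piC [(nat_lit 38167130), (nat_lit 25010362), (nat_lit 18643303), (nat_lit 12552662)] (nat_lit 5464530)) p12_14_3 (nat_lit 4) (nat_lit 30) (nat_lit 31) = true := by decide +kernel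
def p12_14_3_31 : pfC (piC [(nat_lit 38167130), (nat_lit 25010362), (nat_lit 18643303), (nat_lit 12552662)] (nat_lit 5464530)) p12_14_3 (nat_lit 4) (nat_lit 31) (nat_lit 32) = true := by decide +kernel
def p12_14_3_32 : pfC (piC [(nat_lit 38167130), (nat_lit 25010362), (nat_lit 18643303), (nat_lit 12552662)] (nat_lit 5464530)) p12_14_3 (nat_lit 4) (nat_lit 32) (nat_lit 33) = true := by decide +kernel
def p12_14_3_33 : pfC (piC [(nat_lit 38167130), (nat_lit 25010362), (nat_lit 18643303), (nat_lit 12552662)] (nat_lit 5464530)) p12_14_3 (nat_lit 4) (nat_lit 33) (nat_lit 34) = true := by decide +kernel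
def p12_14_3_34 : pfC (piC [(nat_lit 38167130), (nat_lit 25010362), (nat_lit 18643303), (nat_lit 12552662)] (nat_lit 5464530)) p12_14_3 (nat_lit 4) (nat_lit 34) (nat_lit 35) = true := by decide +kernel
def p12_14_3_35 : pfC (piC [(nat_lit 38167130), (nat_lit 25010362), (nat_lit 18643303), (nat_lit 12552662)] (nat_lit 5464530)) p12_14_3 (nat_lit 4) (nat_lit 35) (nat_lit 36) = true := by decide +kernel
def p12_14_3_36 : pfC (piC [(nat_lit 38167130), (nat_lit 25010362), (nat_lit 18643303), (nat_lit 12552662)] (nat_lit 5464530)) p12_14_3 (nat_lit 4) (nat_lit 36) (nat_lit 37) = true := by decide +kernel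
def p12_14_3_37 : pfC (piC [(nat_lit 38167130), (nat_lit 25010362), (nat_lit 18643303), (nat_lit 12552662)] (nat_lit 5464530)) p12_14_3 (nat_lit 4) (nat_lit 37) (nat_lit 38) = true := by decide +kernel
def p12_14_3_38 : pfC (piC [(nat_lit 38167130), (nat_lit 25010362), (nat_lit 18643303), (nat_lit 12552662)] (nat_lit 5464530)) p12_14_3 (nat_lit 4) (nat_lit 38) (nat_lit 39) = true := by decide +kernel
def p12_14_3_39 : pfC (piC [(nat_lit 38167130), (nat_lit 25010362), (nat_lit 18643303), (nat_lit 12552662)] (nat_lit 5464530)) p12_14_3 (nat_lit 4) (nat_lit 39) (nat_lit 40) = true := by decide +kernel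
def p12_14_3_40 : pfC (piC [(nat_lit 38167130), (nat_lit 25010362), (nat_lit 18643303), (nat_lit 12552662)] (nat_lit 5464530)) p12_14_3 (nat_lit 4) (nat_lit 40) (nat_lit 41) = true := by decide +kernel
def p12_14_3_41 : pfC (piC [(nat_lit 38167130), (nat_lit 25010362), (nat_lit 18643303), (nat_lit 12552662)] (nat_lit 5464530)) p12_14_3 (nat_lit 4) (nat_lit 41) (nat_lit 42) = true := by decide +kernel
def p12_14_3_42 : pfC (piC [(nat_lit 38167130), (nat_lit 25010362), (nat_lit 18643303), (nat_lit 12552662)] (nat_lit 5464530)) p12_14_3 (nat_lit 4) (nat_lit 42) (nat_lit 43) = true := by decide +kernel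
def p12_14_3_43 : pfC (piC [(nat_lit 38167130), (nat_lit 25010362), (nat_lit 18643303), (nat_lit 12552662)] (nat_lit 5464530)) p12_14_3 (nat_lit 4) (nat_lit 43) (nat_lit 44) = true := by decide +kernel
def p12_14_3_44 : pfC (piC [(nat_lit 38167130), (nat_lit 25010362), (nat_lit 18643303), (nat_lit 12552662)] (nat_lit 5464530)) p12_14_3 (nat_lit 4) (nat_lit 44) (nat_lit 45) = true := by decide +kernel
def p12_14_3_45 : pfC (piC [(nat_lit 38167130), (nat_lit 25010362), (nat_lit 18643303), (nat_lit 12552662)] (nat_lit 5464530)) p12_14_3 (nat_lit 4) (nat_lit 45) (nat_lit 46) = true := by decide +kernel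
def p12_14_3_46 : pfC (piC [(nat_lit 38167130), (nat_lit 25010362), (nat_lit 18643303), (nat_lit 12552662)] (nat_lit 5464530)) p12_14_3 (nat_lit 4) (nat_lit 46) (nat_lit 47) = true := by decide +kernel
def p12_14_3_47 : pfC (piC [(nat_lit 38167130), (nat_lit 25010362), (nat_lit 18643303), (nat_lit 12552662)] (nat_lit 5464530)) p12_14_3 (nat_lit 4) (nat_lit 47) (nat_lit 48) = true := by decide +kernel
def p12_14_3_48 : pfC (piC [(nat_lit 38167130), (nat_lit 25010362), (nat_lit 18643303), (nat_lit 12552662)] (nat_lit 5464530)) p12_14_3 (nat_lit 4) (nat_lit 48) (nat_lit 49) = true := by decide +kernel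
def p12_14_3_49 : pfC (piC [(nat_lit 38167130), (nat_lit 25010362), (nat_lit 18643303), (nat_lit 12552662)] (nat_lit 5464530)) p12_14_3 (nat_lit 4) (nat_lit 49) (nat_lit 50) = true := by decide +kernel
def p12_14_3_50 : pfC (piC [(nat_lit 38167130), (nat_lit 25010362), (nat_lit 18643303), (nat_lit 12552662)] (nat_lit 5464530)) p12_14_3 (nat_lit 4) (nat_lit 50) (nat_lit 51) = true := by decide +kernel
def p12_14_3_51 : pfC (piC [(nat_lit 38167130), (nat_lit 25010362), (nat_lit 18643303), (nat_lit 12552662)] (nat_lit 5464530)) p12_14_3 (nat_lit 4) (nat_lit 51) (nat_lit 52) = true := by decide +kernel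
def p12_14_3_52 : pfC (piC [(nat_lit 38167130), (nat_lit 25010362), (nat_lit 18643303), (nat_lit 12552662)] (nat_lit 5464530)) p12_14_3 (nat_lit 4) (nat_lit 52) (nat_lit 53) = true := by decide +kernel
def p12_14_3_53 : pfC (piC [(nat_lit 38167130), (nat_lit 25010362), (nat_lit 18643303), (nat_lit 12552662)] (nat_lit 5464530)) p12_14_3 (nat_lit 4) (nat_lit 53) (nat_lit 54) = true := by decide +kernel
def p12_14_3_54 : pfC (piC [(nat_lit 38167130), (nat_lit 25010362), (nat_lit 18643303), (nat_lit 12552662)] (nat_lit 5464530)) p12_14_3 (nat_lit 4) (nat_lit 54) (nat_lit 55) = true := by decide +kernel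
def p12_14_3_55 : pfC (piC [(nat_lit 38167130), (nat_lit 25010362), (nat_lit 18643303), (nat_lit 12552662)] (nat_lit 5464530)) p12_14_3 (nat_lit 4) (nat_lit 55) (nat_lit 56) = true := by decide +kernel
def p12_14_3_56 : pfC (piC [(nat_lit 38167130), (nat_lit 25010362), (nat_lit 18643303), (nat_lit 12552662)] (nat_lit 5464530)) p12_14_3 (nat_lit 4) (nat_lit 56) (nat_lit 57) = true := by decide +kernel
def p12_14_3_57 : pfC (piC [(nat_lit 38167130), (nat_lit 25010362), (nat_lit 18643303), (nat_lit 12552662)] (nat_lit 5464530)) p12_14_3 (nat_lit 4) (nat_lit 57) (nat_lit 58) = true := by decide +kernel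
def p12_14_3_58 : pfC (piC [(nat_lit 38167130), (nat_lit 25010362), (nat_lit 18643303), (nat_lit 12552662)] (nat_lit 5464530)) p12_14_3 (nat_lit 4) (nat_lit 58) (nat_lit 59) = true := by decide +kernel
def p12_14_3_59 : pfC (piC [(nat_lit 38167130), (nat_lit 25010362), (nat_lit 18643303), (nat_lit 12552662)] (nat_lit 5464530)) p12_14_3 (nat_lit 4) (nat_lit 59) (nat_lit 60) = true := by decide +kernel
def p12_14_3_60 : pfC (piC [(nat_lit 38167130), (nat_lit 25010362), (nat_lit 18643303), (nat_lit 12552662)] (nat_lit 5464530)) p12_14_3 (nat_lit 4) (nat_lit 60) (nat_lit 61) = true := by decide +kernel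
def p12_14_3_61 : pfC (piC [(nat_lit 38167130), (nat_lit 25010362), (nat_lit 18643303), (nat_lit 12552662)] (nat_lit 5464530)) p12_14_3 (nat_lit 4) (nat_lit 61) (nat_lit 62) = true := by decide +kernel
def p12_14_3_62 : pfC (piC [(nat_lit 38167130), (nat_lit 25010362), (nat_lit 18643303), (nat_lit 12552662)] (nat_lit 5464530)) p12_14_3 (nat_lit 4) (nat_lit 62) (nat_lit 63) = true := by decide +kernel
def p12_14_3_63 : pfC (piC [(nat_lit 38167130), (nat_lit 25010362), (nat_lit 18643303), (nat_lit 12552662)] (nat_lit 5464530)) p12_14_3 (nat_lit 4) (nat_lit 63) (nat_lit 64) = true := by decide +kernel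
def p12_14_3_64 : pfC (piC [(nat_lit 38167130), (nat_lit 25010362), (nat_lit 18643303), (nat_lit 12552662)] (nat_lit 5464530)) p12_14_3 (nat_lit 4) (nat_lit 64) (nat_lit 65) = true := by decide +kernel
def p12_14_3_65 : pfC (piC [(nat_lit 38167130), (nat_lit 25010362), (nat_lit 18643303), (nat_lit 12552662)] (nat_lit 5464530)) p12_14_3 (nat_lit 4) (nat_lit 65) (nat_lit 66) = true := by decide +kernel
def p12_14_3_66 : pfC (piC [(nat_lit 38167130), (nat_lit 25010362), (nat_lit 18643303), (nat_lit 12552662)] (nat_lit 5464530)) p12_14_3 (nat_lit 4) (nat_lit 66) (nat_lit 67) = true := by decide +kernel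
def p12_14_3_67 : pfC (piC [(nat_lit 38167130), (nat_lit 25010362), (nat_lit 18643303), (nat_lit 12552662)] (nat_lit 5464530)) p12_14_3 (nat_lit 4) (nat_lit 67) (nat_lit 68) = true := by decide +kernel
def p12_14_3_68 : pfC (piC [(nat_lit 38167130), (nat_lit 25010362), (nat_lit 18643303), (nat_lit 12552662)] (nat_lit 5464530)) p12_14_3 (nat_lit 4) (nat_lit 68) (nat_lit 69) = true := by decide +kernel
def p12_14_3_69 : pfC (piC [(nat_lit 38167130), (nat_lit 25010362), (nat_lit 18643303), (nat_lit 12552662)] (nat_lit 5464530)) p12_14_3 (nat_lit 4) (nat_lit 69) (nat_lit 70) = true := by decide +kernel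
def p12_14_3_70 : pfC (piC [(nat_lit 38167130), (nat_lit 25010362), (nat_lit 18643303), (nat_lit 12552662)] (nat_lit 5464530)) p12_14_3 (nat_lit 4) (nat_lit 70) (nat_lit 71) = true := by decide +kernel
def p12_14_3_71 : pfC (piC [(nat_lit 38167130), (nat_lit 25010362), (nat_lit 18643303), (nat_lit 12552662)] (nat_lit 5464530)) p12_14_3 (nat_lit 4) (nat_lit 71) (nat_lit 72) = true := by decide +kernel
def p12_14_3_72 : pfC (piC [(nat_lit 38167130), (nat_lit 25010362), (nat_lit 18643303), (nat_lit 12552662)] (nat_lit 5464530)) p12_14_3 (nat_lit 4) (nat_lit 72) (nat_lit 73) = true := by decide +kernel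
def p12_14_3_73 : pfC (piC [(nat_lit 38167130), (nat_lit 25010362), (nat_lit 18643303), (nat_lit 12552662)] (nat_lit 5464530)) p12_14_3 (nat_lit 4) (nat_lit 73) (nat_lit 74) = true := by decide +kernel
def p12_14_3_74 : pfC (piC [(nat_lit 38167130), (nat_lit 25010362), (nat_lit 18643303), (nat_lit 12552662)] (nat_lit 5464530)) p12_14_3 (nat_lit 4) (nat_lit 74) (nat_lit 75) = true := by decide +kernel
def p12_14_3_75 : pfC (piC [(nat_lit 38167130), (nat_lit 25010362), (nat_lit 18643303), (nat_lit 12552662)] (nat_lit 5464530)) p12_14_3 (nat_lit 4) (nat_lit 75) (nat_lit 76) = true := by decide +kernel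
def p12_14_3_76 : pfC (piC [(nat_lit 38167130), (nat_lit 25010362), (nat_lit 18643303), (nat_lit 12552662)] (nat_lit 5464530)) p12_14_3 (nat_lit 4) (nat_lit 76) (nat_lit 77) = true := by decide +kernel
def p12_14_3_77 : pfC (piC [(nat_lit 38167130), (nat_lit 25010362), (nat_lit 18643303), (nat_lit 12552662)] (nat_lit 5464530)) p12_14_3 (nat_lit 4) (nat_lit 77) (nat_lit 78) = true := by decide +kernel
def p12_14_3_78 : pfC (piC [(nat_lit 38167130), (nat_lit 25010362), (nat_lit 18643303), (nat_lit 12552662)] (nat_lit 5464530)) p12_14_3 (nat_lit 4) (nat_lit 78) (nat_lit 79) = true := by decide +kernel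
def p12_14_3_79 : pfC (piC [(nat_lit 38167130), (nat_lit 25010362), (nat_lit 18643303), (nat_lit 12552662)] (nat_lit 5464530)) p12_14_3 (nat_lit 4) (nat_lit 79) (nat_lit 80) = true := by decide +kernel
def p12_14_3_80 : pfC (piC [(nat_lit 38167130), (nat_lit 25010362), (nat_lit 18643303), (nat_lit 12552662)] (nat_lit 5464530)) p12_14_3 (nat_lit 4) (nat_lit 80) (nat_lit 81) = true := by decide +kernel
def p12_14_3_81 : pfC (piC [(nat_lit 38167130), (nat_lit 25010362), (nat_lit 18643303), (nat_lit 12552662)] (nat_lit 5464530)) p12_14_3 (nat_lit 4) (nat_lit 81) (nat_lit 82) = true := by decide +kernel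
def p12_14_3_82 : pfC (piC [(nat_lit 38167130), (nat_lit 25010362), (nat_lit 18643303), (nat_lit 12552662)] (nat_lit 5464530)) p12_14_3 (nat_lit 4) (nat_lit 82) (nat_lit 83) = true := by decide +kernel
def p12_14_3_83 : pfC (piC [(nat_lit 38167130), (nat_lit 25010362), (nat_lit 18643303), (nat_lit 12552662)] (nat_lit 5464530)) p12_14_3 (nat_lit 4) (nat_lit 83) (nat_lit 84) = true := by decide +kernel
def p12_14_3_84 : pfC (piC [(nat_lit 38167130), (nat_lit 25010362), (nat_lit 18643303), (nat_lit 12552662)] (nat_lit 5464530)) p12_14_3 (nat_lit 4) (nat_lit 84) (nat_lit 85) = true := by decide +kernel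
def p12_14_3_85 : pfC (piC [(nat_lit 38167130), (nat_lit 25010362), (nat_lit 18643303), (nat_lit 12552662)] (nat_lit 5464530)) p12_14_3 (nat_lit 4) (nat_lit 85) (nat_lit 86) = true := by decide +kernel
def p12_14_3_86 : pfC (piC [(nat_lit 38167130), (nat_lit 25010362), (nat_lit 18643303), (nat_lit 12552662)] (nat_lit 5464530)) p12_14_3 (nat_lit 4) (nat_lit 86) (nat_lit 87) = true := by decide +kernel
def p12_14_3_87 : pfC (piC [(nat_lit 38167130), (nat_lit 25010362), (nat_lit 18643303), (nat_lit 12552662)] (nat_lit 5464530)) p12_14_3 (nat_lit 4) (nat_lit 87) (nat_lit 88) = true := by decide +kernel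
def p12_14_3_88 : pfC (piC [(nat_lit 38167130), (nat_lit 25010362), (nat_lit 18643303), (nat_lit 12552662)] (nat_lit 5464530)) p12_14_3 (nat_lit 4) (nat_lit 88) (nat_lit 89) = true := by decide +kernel
def p12_14_3_89 : pfC (piC [(nat_lit 38167130), (nat_lit 25010362), (nat_lit 18643303), (nat_lit 12552662)] (nat_lit 5464530)) p12_14_3 (nat_lit 4) (nat_lit 89) (nat_lit 90) = true := by decide +kernel
def p12_14_3_90 : pfC (piC [(nat_lit 38167130), (nat_lit 25010362), (nat_lit 18643303), (nat_lit 12552662)] (nat_lit 5464530)) p12_14_3 (nat_lit 4) (nat_lit 90) (nat_lit 91) = true := by decide +kernel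
def p12_14_3_91 : pfC (piC [(nat_lit 38167130), (nat_lit 25010362), (nat_lit 18643303), (nat_lit 12552662)] (nat_lit 5464530)) p12_14_3 (nat_lit 4) (nat_lit 91) (nat_lit 92) = true := by decide +kernel
def p12_14_3_92 : pfC (piC [(nat_lit 38167130), (nat_lit 25010362), (nat_lit 18643303), (nat_lit 12552662)] (nat_lit 5464530)) p12_14_3 (nat_lit 4) (nat_lit 92) (nat_lit 93) = true := by decide +kernel
def p12_14_3_93 : pfC (piC [(nat_lit 38167130), (nat_lit 25010362), (nat_lit 18643303), (nat_lit 12552662)] (nat_lit 5464530)) p12_14_3 (nat_lit 4) (nat_lit 93) (nat_lit 94) = true := by decide +kernel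
def p12_14_3_94 : pfC (piC [(nat_lit 38167130), (nat_lit 25010362), (nat_lit 18643303), (nat_lit 12552662)] (nat_lit 5464530)) p12_14_3 (nat_lit 4) (nat_lit 94) (nat_lit 95) = true := by decide +kernel
def p12_14_3_95 : pfC (piC [(nat_lit 38167130), (nat_lit 25010362), (nat_lit 18643303), (nat_lit 12552662)] (nat_lit 5464530)) p12_14_3 (nat_lit 4) (nat_lit 95) (nat_lit 96) = true := by decide +kernel
def p12_14_3_96 : pfC (piC [(nat_lit 38167130), (nat_lit 25010362), (nat_lit 18643303), (nat_lit 12552662)] (nat_lit 5464530)) p12_14_3 (nat_lit 4) (nat_lit 96) (nat_lit 97) = true := by decide +kernel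
def p12_14_3_97 : pfC (piC [(nat_lit 38167130), (nat_lit 25010362), (nat_lit 18643303), (nat_lit 12552662)] (nat_lit 5464530)) p12_14_3 (nat_lit 4) (nat_lit 97) (nat_lit 98) = true := by decide +kernel
def p12_14_3_98 : pfC (piC [(nat_lit 38167130), (nat_lit 25010362), (nat_lit 18643303), (nat_lit 12552662)] (nat_lit 5464530)) p12_14_3 (nat_lit 4) (nat_lit 98) (nat_lit 99) = true := by decide +kernel
def p12_14_3_99 : pfC (piC [(nat_lit 38167130), (nat_lit 25010362), (nat_lit 18643303), (nat_lit 12552662)] (nat_lit 5464530)) p12_14_3 (nat_lit 4) (nat_lit 99) (nat_lit 100) = true := by decide +kernel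
def p12_14_3_100 : pfC (piC [(nat_lit 38167130), (nat_lit 25010362), (nat_lit 18643303), (nat_lit 12552662)] (nat_lit 5464530)) p12_14_3 (nat_lit 4) (nat_lit 100) (nat_lit 101) = true := by decide +kernel
def p12_14_3_101 : pfC (piC [(nat_lit 38167130), (nat_lit 25010362), (nat_lit 18643303), (nat_lit 12552662)] (nat_lit 5464530)) p12_14_3 (nat_lit 4) (nat_lit 101) (nat_lit 102) = true := by decide +kernel
def p12_14_3_102 : pfC (piC [(nat_lit 38167130), (nat_lit 25010362), (nat_lit 18643303), (nat_lit 12552662)] (nat_lit 5464530)) p12_14_3 (nat_lit 4) (nat_lit 102) (nat_lit 103) = true := by decide +kernel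
def p12_14_3_103 : pfC (piC [(nat_lit 38167130), (nat_lit 25010362), (nat_lit 18643303), (nat_lit 12552662)] (nat_lit 5464530)) p12_14_3 (nat_lit 4) (nat_lit 103) (nat_lit 104) = true := by decide +kernel
def p12_14_3_104 : pfC (piC [(nat_lit 38167130), (nat_lit 25010362), (nat_lit 18643303), (nat_lit 12552662)] (nat_lit 5464530)) p12_14_3 (nat_lit 4) (nat_lit 104) (nat_lit 105) = true := by decide +kernel
def p12_14_3_105 : pfC (piC [(nat_lit 38167130), (nat_lit 25010362), (nat_lit 18643303), (nat_lit 12552662)] (nat_lit 5464530)) p12_14_3 (nat_lit 4) (nat_lit 105) (nat_lit 106) = true := by decide +kernel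
def p12_14_3_106 : pfC (piC [(nat_lit 38167130), (nat_lit 25010362), (nat_lit 18643303), (nat_lit 12552662)] (nat_lit 5464530)) p12_14_3 (nat_lit 4) (nat_lit 106) (nat_lit 107) = true := by decide +kernel
def p12_14_3_107 : pfC (piC [(nat_lit 38167130), (nat_lit 25010362), (nat_lit 18643303), (nat_lit 12552662)] (nat_lit 5464530)) p12_14_3 (nat_lit 4) (nat_lit 107) (nat_lit 108) = true := by decide +kernel
def p12_14_3_108 : pfC (piC [(nat_lit 38167130), (nat_lit 25010362), (nat_lit 18643303), (nat_lit 12552662)] (nat_lit 5464530)) p12_14_3 (nat_lit 4) (nat_lit 108) (nat_lit 109) = true := by decide +kernel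
def p12_14_3_109 : pfC (piC [(nat_lit 38167130), (nat_lit 25010362), (nat_lit 18643303), (nat_lit 12552662)] (nat_lit 5464530)) p12_14_3 (nat_lit 4) (nat_lit 109) (nat_lit 110) = true := by decide +kernel
def p12_14_3_110 : pfC (piC [(nat_lit 38167130), (nat_lit 25010362), (nat_lit 18643303), (nat_lit 12552662)] (nat_lit 5464530)) p12_14_3 (nat_lit 4) (nat_lit 110) (nat_lit 111) = true := by decide +kernel
def p12_14_3_111 : pfC (piC [(nat_lit 38167130), (nat_lit 25010362), (nat_lit 18643303), (nat_lit 12552662)] (nat_lit 5464530)) p12_14_3 (nat_lit 4) (nat_lit 111) (nat_lit 112) = true := by decide +kernel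
def p12_14_3_112 : pfC (piC [(nat_lit 38167130), (nat_lit 25010362), (nat_lit 18643303), (nat_lit 12552662)] (nat_lit 5464530)) p12_14_3 (nat_lit 4) (nat_lit 112) (nat_lit 113) = true := by decide +kernel
def p12_14_3_113 : pfC (piC [(nat_lit 38167130), (nat_lit 25010362), (nat_lit 18643303), (nat_lit 12552662)] (nat_lit 5464530)) p12_14_3 (nat_lit 4) (nat_lit 113) (nat_lit 114) = true := by decide +kernel
def p12_14_3_114 : pfC (piC [(nat_lit 38167130), (nat_lit 25010362), (nat_lit 18643303), (nat_lit 12552662)] (nat_lit 5464530)) p12_14_3 (nat_lit 4) (nat_lit 114) (nat_lit 115) = true := by decide +kernel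
def p12_14_3_115 : pfC (piC [(nat_lit 38167130), (nat_lit 25010362), (nat_lit 18643303), (nat_lit 12552662)] (nat_lit 5464530)) p12_14_3 (nat_lit 4) (nat_lit 115) (nat_lit 116) = true := by decide +kernel
def p12_14_3_116 : pfC (piC [(nat_lit 38167130), (nat_lit 25010362), (nat_lit 18643303), (nat_lit 12552662)] (nat_lit 5464530)) p12_14_3 (nat_lit 4) (nat_lit 116) (nat_lit 117) = true := by decide +kernel
def p12_14_3_117 : pfC (piC [(nat_lit 38167130), (nat_lit 25010362), (nat_lit 18643303), (nat_lit 12552662)] (nat_lit 5464530)) p12_14_3 (nat_lit 4) (nat_lit 117) (nat_lit 118) = true := by decide +kernel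
def p12_14_3_118 : pfC (piC [(nat_lit 38167130), (nat_lit 25010362), (nat_lit 18643303), (nat_lit 12552662)] (nat_lit 5464530)) p12_14_3 (nat_lit 4) (nat_lit 118) (nat_lit 119) = true := by decide +kernel
def p12_14_3_119 : pfC (piC [(nat_lit 38167130), (nat_lit 25010362), (nat_lit 18643303), (nat_lit 12552662)] (nat_lit 5464530)) p12_14_3 (nat_lit 4) (nat_lit 119) (nat_lit 120) = true := by decide +kernel
def p12_14_3_120 : pfC (piC [(nat_lit 38167130), (nat_lit 25010362), (nat_lit 18643303), (nat_lit 12552662)] (nat_lit 5464530)) p12_14_3 (nat_lit 4) (nat_lit 120) (nat_lit 121) = true := by decide +kernel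
def p12_14_3_121 : pfC (piC [(nat_lit 38167130), (nat_lit 25010362), (nat_lit 18643303), (nat_lit 12552662)] (nat_lit 5464530)) p12_14_3 (nat_lit 4) (nat_lit 121) (nat_lit 122) = true := by decide +kernel
def p12_14_3_122 : pfC (piC [(nat_lit 38167130), (nat_lit 25010362), (nat_lit 18643303), (nat_lit 12552662)] (nat_lit 5464530)) p12_14_3 (nat_lit 4) (nat_lit 122) (nat_lit 123) = true := by decide +kernel
def p12_14_3_123 : pfC (piC [(nat_lit 38167130), (nat_lit 25010362), (nat_lit 18643303), (nat_lit 12552662)] (nat_lit 5464530)) p12_14_3 (nat_lit 4) (nat_lit 123) (nat_lit 124) = true := by decide +kernel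
def p12_14_3_124 : pfC (piC [(nat_lit 38167130), (nat_lit 25010362), (nat_lit 18643303), (nat_lit 12552662)] (nat_lit 5464530)) p12_14_3 (nat_lit 4) (nat_lit 124) (nat_lit 125) = true := by decide +kernel
def p12_14_3_125 : pfC (piC [(nat_lit 38167130), (nat_lit 25010362), (nat_lit 18643303), (nat_lit 12552662)] (nat_lit 5464530)) p12_14_3 (nat_lit 4) (nat_lit 125) (nat_lit 126) = true := by decide +kernel
def p12_14_3_126 : pfC (piC [(nat_lit 38167130), (nat_lit 25010362), (nat_lit 18643303), (nat_lit 12552662)] (nat_lit 5464530)) p12_14_3 (nat_lit 4) (nat_lit 126) (nat_lit 127) = true := by decide +kernel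
def p12_14_3_127 : pfC (piC [(nat_lit 38167130), (nat_lit 25010362), (nat_lit 18643303), (nat_lit 12552662)] (nat_lit 5464530)) p12_14_3 (nat_lit 4) (nat_lit 127) (nat_lit 128) = true := by decide +kernel
def p12_14_3_128 : pfC (piC [(nat_lit 38167130), (nat_lit 25010362), (nat_lit 18643303), (nat_lit 12552662)] (nat_lit 5464530)) p12_14_3 (nat_lit 4) (nat_lit 128) (nat_lit 129) = true := by decide +kernel
def p12_14_3_129 : pfC (piC [(nat_lit 38167130), (nat_lit 25010362), (nat_lit 18643303), (nat_lit 12552662)] (nat_lit 5464530)) p12_14_3 (nat_lit 4) (nat_lit 129) (nat_lit 130) = true := by decide +kernel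
def p12_14_3_130 : pfC (piC [(nat_lit 38167130), (nat_lit 25010362), (nat_lit 18643303), (nat_lit 12552662)] (nat_lit 5464530)) p12_14_3 (nat_lit 4) (nat_lit 130) (nat_lit 131) = true := by decide +kernel
def p12_14_3_131 : pfC (piC [(nat_lit 38167130), (nat_lit 25010362), (nat_lit 18643303), (nat_lit 12552662)] (nat_lit 5464530)) p12_14_3 (nat_lit 4) (nat_lit 131) (nat_lit 132) = true := by decide +kernel
def p12_14_3_132 : pfC (piC [(nat_lit 38167130), (nat_lit 25010362), (nat_lit 18643303), (nat_lit 12552662)] (nat_lit 5464530)) p12_14_3 (nat_lit 4) (nat_lit 132) (nat_lit 133) = true := by decide +kernel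
def p12_14_3_133 : pfC (piC [(nat_lit 38167130), (nat_lit 25010362), (nat_lit 18643303), (nat_lit 12552662)] (nat_lit 5464530)) p12_14_3 (nat_lit 4) (nat_lit 133) (nat_lit 134) = true := by decide +kernel
def p12_14_3_134 : pfC (piC [(nat_lit 38167130), (nat_lit 25010362), (nat_lit 18643303), (nat_lit 12552662)] (nat_lit 5464530)) p12_14_3 (nat_lit 4) (nat_lit 134) (nat_lit 135) = true := by decide +kernel
def p12_14_3_135 : pfC (piC [(nat_lit 38167130), (nat_lit 25010362), (nat_lit 18643303), (nat_lit 12552662)] (nat_lit 5464530)) p12_14_3 (nat_lit 4) (nat_lit 135) (nat_lit 136) = true := by decide +kernel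
def p12_14_3_136 : pfC (piC [(nat_lit 38167130), (nat_lit 25010362), (nat_lit 18643303), (nat_lit 12552662)] (nat_lit 5464530)) p12_14_3 (nat_lit 4) (nat_lit 136) (nat_lit 137) = true := by decide +kernel
def p12_14_3_137 : pfC (piC [(nat_lit 38167130), (nat_lit 25010362), (nat_lit 18643303), (nat_lit 12552662)] (nat_lit 5464530)) p12_14_3 (nat_lit 4) (nat_lit 137) (nat_lit 138) = true := by decide +kernel
def p12_14_3_138 : pfC (piC [(nat_lit 38167130), (nat_lit 25010362), (nat_lit 18643303), (nat_lit 12552662)] (nat_lit 5464530)) p12_14_3 (nat_lit 4) (nat_lit 138) (nat_lit 139) = true := by decide +kernel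
def p12_14_3_139 : pfC (piC [(nat_lit 38167130), (nat_lit 25010362), (nat_lit 18643303), (nat_lit 12552662)] (nat_lit 5464530)) p12_14_3 (nat_lit 4) (nat_lit 139) (nat_lit 140) = true := by decide +kernel
def p12_14_3_140 : pfC (piC [(nat_lit 38167130), (nat_lit 25010362), (nat_lit 18643303), (nat_lit 12552662)] (nat_lit 5464530)) p12_14_3 (nat_lit 4) (nat_lit 140) (nat_lit 141) = true := by decide +kernel
def p12_14_3_141 : pfC (piC [(nat_lit 38167130), (nat_lit 25010362), (nat_lit 18643303), (nat_lit 12552662)] (nat_lit 5464530)) p12_14_3 (nat_lit 4) (nat_lit 141) (nat_lit 142) = true := by decide +kernel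
def p12_14_3_142 : pfC (piC [(nat_lit 38167130), (nat_lit 25010362), (nat_lit 18643303), (nat_lit 12552662)] (nat_lit 5464530)) p12_14_3 (nat_lit 4) (nat_lit 142) (nat_lit 143) = true := by decide +kernel
def p12_14_3_143 : pfC (piC [(nat_lit 38167130), (nat_lit 25010362), (nat_lit 18643303), (nat_lit 12552662)] (nat_lit 5464530)) p12_14_3 (nat_lit 4) (nat_lit 143) (nat_lit 144) = true := by decide +kernel
def p12_14_3_144 : pfC (piC [(nat_lit 38167130), (nat_lit 25010362), (nat_lit 18643303), (nat_lit 12552662)] (nat_lit 5464530)) p12_14_3 (nat_lit 4) (nat_lit 144) (nat_lit 145) = true := by decide +kernel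
def p12_14_3_145 : pfC (piC [(nat_lit 38167130), (nat_lit 25010362), (nat_lit 18643303), (nat_lit 12552662)] (nat_lit 5464530)) p12_14_3 (nat_lit 4) (nat_lit 145) (nat_lit 146) = true := by decide +kernel
def p12_14_3_146 : pfC (piC [(nat_lit 38167130), (nat_lit 25010362), (nat_lit 18643303), (nat_lit 12552662)] (nat_lit 5464530)) p12_14_3 (nat_lit 4) (nat_lit 146) (nat_lit 147) = true := by decide +kernel
def p12_14_3_147 : pfC (piC [(nat_lit 38167130), (nat_lit 25010362), (nat_lit 18643303), (nat_lit 12552662)] (nat_lit 5464530)) p12_14_3 (nat_lit 4) (nat_lit 147) (nat_lit 148) = true := by decide +kernel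
def p12_14_3_148 : pfC (piC [(nat_lit 38167130), (nat_lit 25010362), (nat_lit 18643303), (nat_lit 12552662)] (nat_lit 5464530)) p12_14_3 (nat_lit 4) (nat_lit 148) (nat_lit 149) = true := by decide +kernel
def p12_14_3_149 : pfC (piC [(nat_lit 38167130), (nat_lit 25010362), (nat_lit 18643303), (nat_lit 12552662)] (nat_lit 5464530)) p12_14_3 (nat_lit 4) (nat_lit 149) (nat_lit 150) = true := by decide +kernel
def p12_14_3_150 : pfC (piC [(nat_lit 38167130), (nat_lit 25010362), (nat_lit 18643303), (nat_lit 12552662)] (nat_lit 5464530)) p12_14_3 (nat_lit 4) (nat_lit 150) (nat_lit 151) = true := by decide +kernel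
def p12_14_3_151 : pfC (piC [(nat_lit 38167130), (nat_lit 25010362), (nat_lit 18643303), (nat_lit 12552662)] (nat_lit 5464530)) p12_14_3 (nat_lit 4) (nat_lit 151) (nat_lit 152) = true := by decide +kernel
def p12_14_3_152 : pfC (piC [(nat_lit 38167130), (nat_lit 25010362), (nat_lit 18643303), (nat_lit 12552662)] (nat_lit 5464530)) p12_14_3 (nat_lit 4) (nat_lit 152) (nat_lit 153) = true := by decide +kernel
def p12_14_3_153 : pfC (piC [(nat_lit 38167130), (nat_lit 25010362), (nat_lit 18643303), (nat_lit 12552662)] (nat_lit 5464530)) p12_14_3 (nat_lit 4) (nat_lit 153) (nat_lit 154) = true := by decide +kernel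
def p12_14_3_154 : pfC (piC [(nat_lit 38167130), (nat_lit 25010362), (nat_lit 18643303), (nat_lit 12552662)] (nat_lit 5464530)) p12_14_3 (nat_lit 4) (nat_lit 154) (nat_lit 155) = true := by decide +kernel
def p12_14_3_155 : pfC (piC [(nat_lit 38167130), (nat_lit 25010362), (nat_lit 18643303), (nat_lit 12552662)] (nat_lit 5464530)) p12_14_3 (nat_lit 4) (nat_lit 155) (nat_lit 156) = true := by decide +kernel
def p12_14_3_156 : pfC (piC [(nat_lit 38167130), (nat_lit 25010362), (nat_lit 18643303), (nat_lit 12552662)] (nat_lit 5464530)) p12_14_3 (nat_lit 4) (nat_lit 156) (nat_lit 157) = true := by decide +kernel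
def p12_14_3_157 : pfC (piC [(nat_lit 38167130), (nat_lit 25010362), (nat_lit 18643303), (nat_lit 12552662)] (nat_lit 5464530)) p12_14_3 (nat_lit 4) (nat_lit 157) (nat_lit 158) = true := by decide +kernel
def p12_14_3_158 : pfC (piC [(nat_lit 38167130), (nat_lit 25010362), (nat_lit 18643303), (nat_lit 12552662)] (nat_lit 5464530)) p12_14_3 (nat_lit 4) (nat_lit 158) (nat_lit 159) = true := by decide +kernel
def p12_14_3_159 : pfC (piC [(nat_lit 38167130), (nat_lit 25010362), (nat_lit 18643303), (nat_lit 12552662)] (nat_lit 5464530)) p12_14_3 (nat_lit 4) (nat_lit 159) (nat_lit 160) = true := by decide +kernel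
def p12_14_3_160 : pfC (piC [(nat_lit 38167130), (nat_lit 25010362), (nat_lit 18643303), (nat_lit 12552662)] (nat_lit 5464530)) p12_14_3 (nat_lit 4) (nat_lit 160) (nat_lit 161) = true := by decide +kernel
def p12_14_3_161 : pfC (piC [(nat_lit 38167130), (nat_lit 25010362), (nat_lit 18643303), (nat_lit 12552662)] (nat_lit 5464530)) p12_14_3 (nat_lit 4) (nat_lit 161) (nat_lit 162) = true := by decide +kernel
def p12_14_3_162 : pfC (piC [(nat_lit 38167130), (nat_lit 25010362), (nat_lit 18643303), (nat_lit 12552662)] (nat_lit 5464530)) p12_14_3 (nat_lit 4) (nat_lit 162) (nat_lit 163) = true := by decide +kernel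
def p12_14_3_163 : pfC (piC [(nat_lit 38167130), (nat_lit 25010362), (nat_lit 18643303), (nat_lit 12552662)] (nat_lit 5464530)) p12_14_3 (nat_lit 4) (nat_lit 163) (nat_lit 164) = true := by decide +kernel
def p12_14_3_164 : pfC (piC [(nat_lit 38167130), (nat_lit 25010362), (nat_lit 18643303), (nat_lit 12552662)] (nat_lit 5464530)) p12_14_3 (nat_lit 4) (nat_lit 164) (nat_lit 165) = true := by decide +kernel
def p12_14_3_165 : pfC (piC [(nat_lit 38167130), (nat_lit 25010362), (nat_lit 18643303), (nat_lit 12552662)] (nat_lit 5464530)) p12_14_3 (nat_lit 4) (nat_lit 165) (nat_lit 166) = true := by decide +kernel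
def p12_14_3_166 : pfC (piC [(nat_lit 38167130), (nat_lit 25010362), (nat_lit 18643303), (nat_lit 12552662)] (nat_lit 5464530)) p12_14_3 (nat_lit 4) (nat_lit 166) (nat_lit 167) = true := by decide +kernel
def p12_14_3_167 : pfC (piC [(nat_lit 38167130), (nat_lit 25010362), (nat_lit 18643303), (nat_lit 12552662)] (nat_lit 5464530)) p12_14_3 (nat_lit 4) (nat_lit 167) (nat_lit 168) = true := by decide +kernel
def p12_14_3_168 : pfC (piC [(nat_lit 38167130), (nat_lit 25010362), (nat_lit 18643303), (nat_lit 12552662)] (nat_lit 5464530)) p12_14_3 (nat_lit 4) (nat_lit 168) (nat_lit 169) = true := by decide +kernel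
def p12_14_3_169 : pfC (piC [(nat_lit 38167130), (nat_lit 25010362), (nat_lit 18643303), (nat_lit 12552662)] (nat_lit 5464530)) p12_14_3 (nat_lit 4) (nat_lit 169) (nat_lit 170) = true := by decide +kernel
def p12_14_3_170 : pfC (piC [(nat_lit 38167130), (nat_lit 25010362), (nat_lit 18643303), (nat_lit 12552662)] (nat_lit 5464530)) p12_14_3 (nat_lit 4) (nat_lit 170) (nat_lit 171) = true := by decide +kernel
def p12_14_3_171 : pfC (piC [(nat_lit 38167130), (nat_lit 25010362), (nat_lit 18643303), (nat_lit 12552662)] (nat_lit 5464530)) p12_14_3 (nat_lit 4) (nat_lit 171) (nat_lit 172) = true := by decide +kernel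
def p12_14_3_172 : pfC (piC [(nat_lit 38167130), (nat_lit 25010362), (nat_lit 18643303), (nat_lit 12552662)] (nat_lit 5464530)) p12_14_3 (nat_lit 4) (nat_lit 172) (nat_lit 173) = true := by decide +kernel
def p12_14_3_173 : pfC (piC [(nat_lit 38167130), (nat_lit 25010362), (nat_lit 18643303), (nat_lit 12552662)] (nat_lit 5464530)) p12_14_3 (nat_lit 4) (nat_lit 173) (nat_lit 174) = true := by decide +kernel
def p12_14_3_174 : pfC (piC [(nat_lit 38167130), (nat_lit 25010362), (nat_lit 18643303), (nat_lit 12552662)] (nat_lit 5464530)) p12_14_3 (nat_lit 4) (nat_lit 174) (nat_lit 175) = true := by decide +kernel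
def p12_14_3_175 : pfC (piC [(nat_lit 38167130), (nat_lit 25010362), (nat_lit 18643303), (nat_lit 12552662)] (nat_lit 5464530)) p12_14_3 (nat_lit 4) (nat_lit 175) (nat_lit 176) = true := by decide +kernel
def p12_14_3_176 : pfC (piC [(nat_lit 38167130), (nat_lit 25010362), (nat_lit 18643303), (nat_lit 12552662)] (nat_lit 5464530)) p12_14_3 (nat_lit 4) (nat_lit 176) (nat_lit 177) = true := by decide +kernel
def p12_14_3_177 : pfC (piC [(nat_lit 38167130), (nat_lit 25010362), (nat_lit 18643303), (nat_lit 12552662)] (nat_lit 5464530)) p12_14_3 (nat_lit 4) (nat_lit 177) (nat_lit 178) = true := by decide +kernel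
def p12_14_3_178 : pfC (piC [(nat_lit 38167130), (nat_lit 25010362), (nat_lit 18643303), (nat_lit 12552662)] (nat_lit 5464530)) p12_14_3 (nat_lit 4) (nat_lit 178) (nat_lit 179) = true := by decide +kernel
def p12_14_3_179 : pfC (piC [(nat_lit 38167130), (nat_lit 25010362), (nat_lit 18643303), (nat_lit 12552662)] (nat_lit 5464530)) p12_14_3 (nat_lit 4) (nat_lit 179) (nat_lit 180) = true := by decide +kernel
def p12_14_3_180 : pfC (piC [(nat_lit 38167130), (nat_lit 25010362), (nat_lit 18643303), (nat_lit 12552662)] (nat_lit 5464530)) p12_14_3 (nat_lit 4) (nat_lit 180) (nat_lit 181) = true := by decide +kernel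
def p12_14_3_181 : pfC (piC [(nat_lit 38167130), (nat_lit 25010362), (nat_lit 18643303), (nat_lit 12552662)] (nat_lit 5464530)) p12_14_3 (nat_lit 4) (nat_lit 181) (nat_lit 182) = true := by decide +kernel
def p12_14_3_182 : pfC (piC [(nat_lit 38167130), (nat_lit 25010362), (nat_lit 18643303), (nat_lit 12552662)] (nat_lit 5464530)) p12_14_3 (nat_lit 4) (nat_lit 182) (nat_lit 183) = true := by decide +kernel
def p12_14_3_183 : pfC (piC [(nat_lit 38167130), (nat_lit 25010362), (nat_lit 18643303), (nat_lit 12552662)] (nat_lit 5464530)) p12_14_3 (nat_lit 4) (nat_lit 183) (nat_lit 184) = true := by decide +kernel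
theorem p12_14_3_T : PfS (PiF n12_14.reverse (nat_lit 5464530)) p12_14_3 (nat_lit 4) [] 0 :=
  pftab_of (los := [(nat_lit 38167130), (nat_lit 25010362), (nat_lit 18643303), (nat_lit 12552662)]) (by decide +kernel) (hi := (nat_lit 184)) (PfP.trans (PfP.trans (PfP.trans (PfP.trans (PfP.trans (PfP.trans (PfP.trans (PfP.trans (PfP.trans (PfP.trans (PfP.trans (PfP.trans (PfP.trans (PfP.trans (PfP.trans (PfP.trans (PfP.trans (PfP.trans (PfP.trans (PfP.trans (PfP.trans (PfP.trans (PfP.trans (PfP.trans (PfP.trans (PfP.trans (PfP.trans (PfP.trans (PfP.trans (PfP.trans (PfP.trans (PfP.trans (PfP.trans (PfP.trans (PfP.trans (PfP.trans (PfP.trans (PfP.trans (PfP.trans (PfP.trans (PfP.trans (PfP.trans (PfP.trans (PfP.trans (PfP.trans (PfP.trans (PfP.trans (PfP.trans (PfP.trans (PfP.trans (PfP.trans (PfP.trans (PfP.trans (PfP.trans (PfP.trans (PfP.trans (PfP.trans (PfP.trans (PfP.trans (PfP.trans (PfP.trans (PfP.trans (PfP.trans (PfP.trans (PfP.trans (PfP.trans (PfP.trans (PfP.trans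 (PfP.trans (PfP.trans (PfP.trans (PfP.trans (PfP.trans (PfP.trans (PfP.trans (PfP.trans (PfP.trans (PfP.trans (PfP.trans (PfP.trans (PfP.trans (PfP.trans (PfP.trans (PfP.trans (PfP.trans (PfP.trans (PfP.trans (PfP.trans (PfP.trans (PfP.trans (PfP.trans (PfP.trans (PfP.trans (PfP.trans (PfP.trans (PfP.trans (PfP.trans (PfP.trans (PfP.trans (PfP.trans (PfP.trans (PfP.trans (PfP.trans (PfP.trans (PfP.trans (PfP.trans (PfP.trans (PfP.trans (PfP.trans
 (PfP.trans (PfP.trans (PfP.trans (PfP.trans (PfP.trans (PfP.trans (PfP.trans (PfP.trans (PfP.trans (PfP.trans (PfP.trans (PfP.trans (PfP.trans (PfP.trans (PfP.trans (PfP.trans (PfP.trans (PfP.trans (PfP.trans (PfP.trans (PfP.trans (PfP.trans (PfP.trans (PfP.trans (PfP.trans (PfP.trans (PfP.trans (PfP.trans (PfP.trans (PfP.trans (PfP.trans (PfP.trans (PfP.trans (PfP.trans (PfP.trans (PfP.trans (PfP.trans (PfP.trans (PfP.trans (PfP.trans (PfP.trans (PfP.trans (PfP.trans (PfP.trans (PfP.trans (PfP.trans (PfP.trans (PfP.trans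 (PfP.trans (PfP.trans (PfP.trans (PfP.trans (PfP.trans (PfP.trans (PfP.trans (PfP.trans (PfP.trans (PfP.trans (PfP.trans (PfP.trans (PfP.trans (PfP.trans (PfP.trans (PfP.trans (PfP.trans (PfP.trans (PfP.trans (PfP.trans (PfP.trans (PfP.trans (PfP.trans (PfP.trans (PfP.trans (PfP.trans (pfC_sound p12_14_3_0) (pfC_sound p12_14_3_1)) (pfC_sound p12_14_3_2)) (pfC_sound p12_14_3_3)) (pfC_sound p12_14_3_4)) (pfC_sound p12_14_3_5)) (pfC_sound p12_14_3_6)) (pfC_sound p12_14_3_7)) (pfC_sound p12_14_3_8)) (pfC_sound p12_14_3_9)) (pfC_sound p12_14_3_10)) (pfC_sound p12_14_3_11)) (pfC_sound p12_14_3_12)) (pfC_sound p12_14_3_13)) (pfC_sound p12_14_3_14)) (pfC_sound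
 p12_14_3_15)) (pfC_sound p12_14_3_16)) (pfC_sound p12_14_3_17)) (pfC_sound p12_14_3_18)) (pfC_sound p12_14_3_19)) (pfC_sound p12_14_3_20)) (pfC_sound p12_14_3_21)) (pfC_sound p12_14_3_22)) (pfC_sound p12_14_3_23)) (pfC_sound p12_14_3_24)) (pfC_sound p12_14_3_25)) (pfC_sound p12_14_3_26)) (pfC_sound p12_14_3_27)) (pfC_sound p12_14_3_28)) (pfC_sound p12_14_3_29)) (pfC_sound p12_14_3_30)) (pfC_sound p12_14_3_31)) (pfC_sound p12_14_3_32)) (pfC_sound p12_14_3_33)) (pfC_sound p12_14_3_34)) (pfC_sound p12_14_3_35)) (pfC_sound p12_14_3_36)) (pfC_sound p12_14_3_37)) (pfC_sound p12_14_3_38)) (pfC_sound p12_14_3_39)) (pfC_sound p12_14_3_40)) (pfC_sound p12_14_3_41)) (pfC_sound p12_14_3_42)) (pfC_sound p12_14_3_43)) (pfC_sound p12_14_3_44)) (pfC_sound p12_14_3_45)) (pfC_sound p12_14_3_46)) (pfC_sound p12_14_3_47)) (pfC_sound p12_14_3_48)) (pfC_sound p12_14_3_49)) (pfC_sound p12_14_3_50)) (pfC_sound p12_14_3_51)) (pfC_sound p12_14_3_52)) (pfC_sound p12_14_3_53)) (pfC_sound p12_14_3_54))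 (pfC_sound p12_14_3_55)) (pfC_sound p12_14_3_56)) (pfC_sound p12_14_3_57)) (pfC_sound p12_14_3_58)) (pfC_sound p12_14_3_59)) (pfC_sound p12_14_3_60)) (pfC_sound p12_14_3_61)) (pfC_sound p12_14_3_62)) (pfC_sound
 p12_14_3_63)) (pfC_sound p12_14_3_64)) (pfC_sound p12_14_3_65)) (pfC_sound p12_14_3_66)) (pfC_sound p12_14_3_67)) (pfC_sound p12_14_3_68)) (pfC_sound p12_14_3_69)) (pfC_sound p12_14_3_70)) (pfC_sound p12_14_3_71)) (pfC_sound p12_14_3_72)) (pfC_sound p12_14_3_73)) (pfC_sound p12_14_3_74)) (pfC_sound p12_14_3_75)) (pfC_sound p12_14_3_76)) (pfC_sound p12_14_3_77)) (pfC_sound p12_14_3_78)) (pfC_sound p12_14_3_79)) (pfC_sound p12_14_3_80)) (pfC_sound p12_14_3_81)) (pfC_sound p12_14_3_82)) (pfC_sound p12_14_3_83)) (pfC_sound p12_14_3_84)) (pfC_sound p12_14_3_85)) (pfC_sound p12_14_3_86)) (pfC_sound p12_14_3_87)) (pfC_sound p12_14_3_88)) (pfC_sound p12_14_3_89)) (pfC_sound p12_14_3_90)) (pfC_sound p12_14_3_91)) (pfC_sound p12_14_3_92)) (pfC_sound p12_14_3_93)) (pfC_sound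 p12_14_3_94)) (pfC_sound p12_14_3_95)) (pfC_sound p12_14_3_96)) (pfC_sound p12_14_3_97)) (pfC_sound p12_14_3_98)) (pfC_sound p12_14_3_99)) (pfC_sound p12_14_3_100)) (pfC_sound p12_14_3_101)) (pfC_sound p12_14_3_102)) (pfC_sound p12_14_3_103)) (pfC_sound p12_14_3_104)) (pfC_sound p12_14_3_105)) (pfC_sound p12_14_3_106)) (pfC_sound p12_14_3_107)) (pfC_sound p12_14_3_108)) (pfC_sound p12_14_3_109)) (pfC_sound p12_14_3_110))
 (pfC_sound p12_14_3_111)) (pfC_sound p12_14_3_112)) (pfC_sound p12_14_3_113)) (pfC_sound p12_14_3_114)) (pfC_sound p12_14_3_115)) (pfC_sound p12_14_3_116)) (pfC_sound p12_14_3_117)) (pfC_sound p12_14_3_118)) (pfC_sound p12_14_3_119)) (pfC_sound p12_14_3_120)) (pfC_sound p12_14_3_121)) (pfC_sound p12_14_3_122)) (pfC_sound p12_14_3_123)) (pfC_sound p12_14_3_124)) (pfC_sound p12_14_3_125)) (pfC_sound p12_14_3_126)) (pfC_sound p12_14_3_127)) (pfC_sound p12_14_3_128)) (pfC_sound p12_14_3_129)) (pfC_sound p12_14_3_130)) (pfC_sound p12_14_3_131)) (pfC_sound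 p12_14_3_132)) (pfC_sound p12_14_3_133)) (pfC_sound p12_14_3_134)) (pfC_sound p12_14_3_135)) (pfC_sound p12_14_3_136)) (pfC_sound p12_14_3_137)) (pfC_sound p12_14_3_138)) (pfC_sound p12_14_3_139)) (pfC_sound p12_14_3_140)) (pfC_sound p12_14_3_141)) (pfC_sound p12_14_3_142)) (pfC_sound p12_14_3_143)) (pfC_sound p12_14_3_144)) (pfC_sound p12_14_3_145)) (pfC_sound p12_14_3_146)) (pfC_sound p12_14_3_147)) (pfC_sound p12_14_3_148)) (pfC_sound p12_14_3_149)) (pfC_sound p12_14_3_150)) (pfC_sound p12_14_3_151)) (pfC_sound p12_14_3_152)) (pfC_sound p12_14_3_153)) (pfC_sound p12_14_3_154)) (pfC_sound p12_14_3_155)) (pfC_sound p12_14_3_156))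
 (pfC_sound p12_14_3_157)) (pfC_sound p12_14_3_158)) (pfC_sound p12_14_3_159)) (pfC_sound p12_14_3_160)) (pfC_sound p12_14_3_161)) (pfC_sound p12_14_3_162)) (pfC_sound p12_14_3_163)) (pfC_sound p12_14_3_164)) (pfC_sound p12_14_3_165)) (pfC_sound p12_14_3_166)) (pfC_sound p12_14_3_167)) (pfC_sound p12_14_3_168)) (pfC_sound p12_14_3_169)) (pfC_sound p12_14_3_170)) (pfC_sound p12_14_3_171)) (pfC_sound p12_14_3_172)) (pfC_sound p12_14_3_173)) (pfC_sound p12_14_3_174)) (pfC_sound p12_14_3_175)) (pfC_sound p12_14_3_176)) (pfC_sound p12_14_3_177)) (pfC_sound p12_14_3_178)) (pfC_sound p12_14_3_179)) (pfC_sound p12_14_3_180)) (pfC_sound p12_14_3_181)) (pfC_sound p12_14_3_182)) (pfC_sound p12_14_3_183)) (by decide +kernel)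

def z12_14_3 : zOK yB12_14 (nat_lit 3) (nat_lit 750) (nat_lit 832) (nat_lit 5464530) (nat_lit 5344356) = true := by decide +kernel
def g12_14_3 : gOK yB12_14.x P12_14 (nat_lit 1409) (q12_14 :: r12_14) (nat_lit 3) (nat_lit 750) (nat_lit 4) (nat_lit 832) (nat_lit 12712500) (nat_lit 12712500) (nat_lit 12712500) (nat_lit 12712500) [(nat_lit 800)] = true := by decide +kernel
def v12_14_3 : ivC P12_14 s12_14 w12_14 n12_14 (nat_lit 4) (nat_lit 4630) (nat_lit 3) (nat_lit 750) f160_1_750 f168_1_750 (nat_lit 4) (nat_lit 832) f160_1_832 f168_1_832 (nat_lit 5464530) (nat_lit 5344356) p12_14_3 = true := by decide +kernel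
end CB
end Pool.Agent.Lib.MP_6947cd_al
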