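import Pool.Agent.Lib.MP_6947cd_al.L.BoxDataB
import Pool.Agent.Lib.MP_6947cd_al.L.TeD3
import Pool.Agent.Lib.MP_6947cd_al.L.TeD4

/-!
Problem MP_6947cd_al (Chollet).  CASE B, rows `j`: boxes (generated).
-/

set_option autoImplicit false
set_option linter.defProp false
set_option maxRecDepth 20000

namespace Pool.Agent.Lib.MP_6947cd_al
namespace CB

open Ent Ent.Pk Fr Fr.WT CA

/-! box `yB15_12` -/

def P15_12 : BQ := ⟨(nat_lit 8), (nat_lit 8), (nat_lit 0), (nat_lit 6), (nat_lit 2), (nat_lit 720), (nat_lit 730), (nat_lit 120), [(nat_lit 200), (nat_lit 300), (nat_lit 450), (nat_lit 800)], (nat_lit 83632000), (nat_lit 16000000), (nat_lit 16000000000)⟩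
def q15_12 : PC := ⟨(nat_lit 1000), [(nat_lit 120000), (nat_lit 200000), (nat_lit 300000), (nat_lit 450000), (nat_lit 800000)], (nat_lit 340282367000166625996085689103316680705000000), (nat_lit 15916368000000), (nat_lit 15916368000000), (nat_lit 10000000)⟩
def r15_12 : List PC := [⟨(nat_lit 1328), [(nat_lit 120576), (nat_lit 201167), (nat_lit 301618), (nat_lit 451873), (nat_lit 799357)], (nat_lit 342491820409129923794679268160683609458429591), (nat_lit 16330151480320), (nat_lit 16336236168960), (nat_lit 10058350)⟩]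
def s15_12 : List PB := [⟨(nat_lit 26560), (nat_lit 1929216000000), [(nat_lit 201167), (nat_lit 301618), (nat_lit 451873), (nat_lit 799357)], (nat_lit 342491820409129923794679268160683609458429591), (nat_lit 1142230058322944), (nat_lit 1142236143011584), (nat_lit 52480)⟩]
def n15_12 : List KN := [⟨(nat_lit 800), (nat_lit 450), (nat_lit 13470738), (nat_lit 7133500)⟩, ⟨(nat_lit 450), (nat_lit 300), (nat_lit 20024807), (nat_lit 13470738)⟩, ⟨(nat_lit 300), (nat_lit 200), (nat_lit 27030628), (nat_lit 20024807)⟩, ⟨(nat_lit 200), (nat_lit 120), (nat_lit 42686981), (nat_lit 27030628)⟩]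
def w15_12 : List ℕ := [(nat_lit 52480)]
def par15_12 : parC yB15_12 P15_12 s15_12 r15_12 q15_12 n15_12 w15_12 = true := by decide +kernel

def p15_12_0 : PF := (PF.cons (PF.cons (PF.cons (PF.cons (PF.leaf (nat_lit 631606) (nat_lit 1852750) (nat_lit 65256062) (nat_lit 1852750) [(nat_lit 0), (nat_lit 0), (nat_lit 0), (nat_lit 0)]) (PF.cons (PF.leaf (nat_lit 727527) (nat_lit 145673) (nat_lit 65070819) (nat_lit 1892320) [(nat_lit 145673), (nat_lit 0), (nat_lit 0), (nat_lit 0)]) (PF.cons (PF.leaf (nat_lit 848886) (nat_lit 160954) (nat_lit 64850142) (nat_lit 1936760) [(nat_lit 160954), (nat_lit 0), (nat_lit 0), (nat_lit 0)]) (PF.cons (PF.leaf (nat_lit 987807) (nat_lit 175328) (nat_lit 64598472) (nat_lit 1984354) [(nat_lit 175328), (nat_lit 0), (nat_lit 0), (nat_lit 0)]) (PF.cons (PF.leaf (nat_lit 1142896) (nat_lit 189023) (nat_lit 64318817) (nat_lit 2033903) [(nat_lit 189023), (nat_lit 0), (nat_lit 0), (nat_lit 0)]) (PF.cons (PF.leaf (nat_lit 1312954) (nat_lit 202164)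 (nat_lit 64013461) (nat_lit 2084529) [(nat_lit 202164), (nat_lit 0), (nat_lit 0), (nat_lit 0)]) (PF.cons (PF.leaf (nat_lit 1497449) (nat_lit 214825) (nat_lit 63684287) (nat_lit 2135569) [(nat_lit 214825), (nat_lit 0), (nat_lit 0), (nat_lit 0)]) (PF.cons PF.nil (PF.cons PF.nil PF.nil))))))))) (PF.cons (PF.cons (PF.leaf (nat_lit 1065258) (nat_lit 861557) (nat_lit 64206338) (nat_lit
 2040916) [(nat_lit 0), (nat_lit 861557), (nat_lit 0), (nat_lit 0)]) (PF.cons (PF.leaf (nat_lit 1204634) (nat_lit 190545) (nat_lit 63942592) (nat_lit 2084157) [(nat_lit 190545), (nat_lit 891517), (nat_lit 0), (nat_lit 0)]) (PF.cons (PF.leaf (nat_lit 1363847) (nat_lit 203889) (nat_lit 63649149) (nat_lit 2129544) [(nat_lit 203889), (nat_lit 922339), (nat_lit 0), (nat_lit 0)]) (PF.cons (PF.leaf (nat_lit 1538786) (nat_lit 216619) (nat_lit 63329385) (nat_lit 2176108) [(nat_lit 216619), (nat_lit 953459), (nat_lit 0), (nat_lit 0)]) (PF.cons (PF.leaf (nat_lit 1727864) (nat_lit 228836) (nat_lit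 62985809) (nat_lit 2223151) [(nat_lit 228836), (nat_lit 984507), (nat_lit 0), (nat_lit 0)]) (PF.cons (PF.leaf (nat_lit 1930426) (nat_lit 240596) (nat_lit 62620448) (nat_lit 2270154) [(nat_lit 240596), (nat_lit 1015228), (nat_lit 0), (nat_lit 0)]) (PF.cons PF.nil PF.nil))))))) (PF.cons (PF.cons (PF.leaf (nat_lit 1595616) (nat_lit 975632) (nat_lit 62938797) (nat_lit 2218751) [(nat_lit 0), (nat_lit 975632), (nat_lit 0), (nat_lit 0)]) (PF.cons (PF.leaf (nat_lit 1771285) (nat_lit 229809) (nat_lit 62609642) (nat_lit 2261217) [(nat_lit 229809), (nat_lit 1004071), (nat_lit 0), (nat_lit 0)]) (PF.cons (PF.leaf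
 (nat_lit 1963511) (nat_lit 241684) (nat_lit 62255851) (nat_lit 2304320) [(nat_lit 241684), (nat_lit 1032636), (nat_lit 0), (nat_lit 0)]) (PF.cons (PF.leaf (nat_lit 2169191) (nat_lit 253057) (nat_lit 61880122) (nat_lit 2347491) [(nat_lit 253057), (nat_lit 1061013), (nat_lit 0), (nat_lit 0)]) (PF.cons PF.nil PF.nil))))) (PF.cons (PF.cons (PF.leaf (nat_lit 2205713) (nat_lit 1077422) (nat_lit 61496984) (nat_lit 2379559) [(nat_lit 0), (nat_lit 1077422), (nat_lit 0), (nat_lit 0)]) (PF.cons (PF.leaf (nat_lit 2411786) (nat_lit 264479) (nat_lit 61114743) (nat_lit 2418968) [(nat_lit 264479), (nat_lit 1103540), (nat_lit 0), (nat_lit 0)]) (PF.cons (PF.leaf (nat_lit 2631778) (nat_lit 275050) (nat_lit 60712443) (nat_lit 2458149) [(nat_lit 275050), (nat_lit 1129373), (nat_lit 0), (nat_lit 0)]) (PF.cons PF.nil PF.nil)))) (PF.cons (PF.cons (PF.leaf (nat_lit 2879833) (nat_lit 1166831) (nat_lit 59920869) (nat_lit 2520618) [(nat_lit 0), (nat_lit 1166831), (nat_lit 0), (nat_lit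 0)]) (PF.cons (PF.leaf (nat_lit 3110941) (nat_lit 294964) (nat_lit 59497157) (nat_lit 2555804) [(nat_lit 294964), (nat_lit 1190221), (nat_lit 0), (nat_lit 0)]) PF.nil)) (PF.cons PF.nil (PF.cons PF.nil (PF.cons PF.nil
 PF.nil)))))))) (PF.cons (PF.cons (PF.cons (PF.leaf (nat_lit 1641854) (nat_lit 2256332) (nat_lit 62203086) (nat_lit 2256332) [(nat_lit 0), (nat_lit 0), (nat_lit 2649393), (nat_lit 0)]) (PF.cons (PF.leaf (nat_lit 1798251) (nat_lit 220798) (nat_lit 61907170) (nat_lit 2292878) [(nat_lit 220798), (nat_lit 0), (nat_lit 2687966), (nat_lit 0)]) (PF.cons (PF.leaf (nat_lit 1974055) (nat_lit 233954) (nat_lit 61581607) (nat_lit 2331004) [(nat_lit 233954), (nat_lit 0), (nat_lit 2728290), (nat_lit 0)]) (PF.cons (PF.leaf (nat_lit 2164882) (nat_lit 246259) (nat_lit 61230635) (nat_lit 2369901) [(nat_lit 246259), (nat_lit 0), (nat_lit 2769499), (nat_lit 0)]) (PF.cons (PF.leaf (nat_lit 2369183) (nat_lit 257876) (nat_lit 60857346) (nat_lit 2408991) [(nat_lit 257876),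 (nat_lit 0), (nat_lit 2810967), (nat_lit 0)]) (PF.cons (PF.leaf (nat_lit 2585848) (nat_lit 268909) (nat_lit 60464183) (nat_lit 2447850) [(nat_lit 268909), (nat_lit 0), (nat_lit 2852229), (nat_lit 0)]) (PF.cons PF.nil PF.nil))))))) (PF.cons (PF.cons (PF.leaf (nat_lit 2213301) (nat_lit 1079929) (nat_lit 60820492) (nat_lit 2402834) [(nat_lit 0), (nat_lit 1079929), (nat_lit 2805557), (nat_lit 0)]) (PF.cons (PF.leaf (nat_lit 2403127) (nat_lit
 257262) (nat_lit 60465684) (nat_lit 2438151) [(nat_lit 257262), (nat_lit 1104754), (nat_lit 2842960), (nat_lit 0)]) (PF.cons (PF.leaf (nat_lit 2608544) (nat_lit 268583) (nat_lit 60087550) (nat_lit 2473813) [(nat_lit 268583), (nat_lit 1129524), (nat_lit 2880758), (nat_lit 0)]) (PF.cons (PF.leaf (nat_lit 2826651) (nat_lit 279272) (nat_lit 59689222) (nat_lit 2509347) [(nat_lit 279272), (nat_lit 1153983), (nat_lit 2918442), (nat_lit 0)]) (PF.cons PF.nil PF.nil))))) (PF.cons (PF.cons (PF.leaf (nat_lit 2852801) (nat_lit 1166297) (nat_lit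 59297504) (nat_lit 2533639) [(nat_lit 0), (nat_lit 1166297), (nat_lit 2945073), (nat_lit 0)]) (PF.cons (PF.leaf (nat_lit 3069680) (nat_lit 288692) (nat_lit 58897472) (nat_lit 2565911) [(nat_lit 288692), (nat_lit 1188751), (nat_lit 2979232), (nat_lit 0)]) (PF.cons (PF.leaf (nat_lit 3299375) (nat_lit 298528) (nat_lit 58479249) (nat_lit 2597828) [(nat_lit 298528), (nat_lit 1210832), (nat_lit 3013012), (nat_lit 0)]) (PF.cons PF.nil PF.nil)))) (PF.cons (PF.cons (PF.leaf (nat_lit 3544949) (nat_lit 1241195) (nat_lit 57673167) (nat_lit 2646697) [(nat_lit 0), (nat_lit 1241195), (nat_lit 3065360), (nat_lit 0)]) (PF.cons PF.nil PF.nil)) (PF.cons PF.nil (PF.cons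
 PF.nil PF.nil)))))) (PF.cons (PF.cons (PF.cons (PF.leaf (nat_lit 2838484) (nat_lit 2546547) (nat_lit 58639414) (nat_lit 2546547) [(nat_lit 0), (nat_lit 0), (nat_lit 2961425), (nat_lit 0)]) (PF.cons (PF.leaf (nat_lit 3038832) (nat_lit 280188) (nat_lit 58268955) (nat_lit 2575692) [(nat_lit 280188), (nat_lit 0), (nat_lit 2991987), (nat_lit 0)]) (PF.cons (PF.leaf (nat_lit 3253910) (nat_lit 290924) (nat_lit 57876664) (nat_lit 2604944) [(nat_lit 290924), (nat_lit 0), (nat_lit 3022677), (nat_lit 0)]) (PF.cons (PF.leaf (nat_lit 3480772) (nat_lit 300929) (nat_lit 57465951) (nat_lit 2633916) [(nat_lit 300929), (nat_lit 0), (nat_lit 3053078), (nat_lit 0)]) (PF.cons PF.nil PF.nil))))) (PF.cons (PF.cons (PF.leaf (nat_lit 3496718) (nat_lit 1237138) (nat_lit 57074408) (nat_lit 2651908) [(nat_lit 0), (nat_lit 1237138), (nat_lit 3072678), (nat_lit 0)]) (PF.cons (PF.leaf (nat_lit 3721118) (nat_lit 308597) (nat_lit 56665798) (nat_lit 2678040) [(nat_lit 308597), (nat_lit 1256344),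 (nat_lit 3100015), (nat_lit 0)]) (PF.cons (PF.leaf (nat_lit 3957370) (nat_lit 317723) (nat_lit 56240792) (nat_lit 2703724) [(nat_lit 317723), (nat_lit 1275115), (nat_lit 3126866), (nat_lit 0)]) (PF.cons PF.nil PF.nil))))
 (PF.cons (PF.cons (PF.leaf (nat_lit 4197983) (nat_lit 1299446) (nat_lit 55435580) (nat_lit 2741234) [(nat_lit 0), (nat_lit 1299446), (nat_lit 3166552), (nat_lit 0)]) (PF.cons PF.nil PF.nil)) (PF.cons PF.nil (PF.cons PF.nil PF.nil))))) (PF.cons (PF.cons (PF.cons (PF.leaf (nat_lit 4130697) (nat_lit 2740571) (nat_lit 54866984) (nat_lit 2740571) [(nat_lit 0), (nat_lit 0), (nat_lit 3167085), (nat_lit 0)]) (PF.cons (PF.leaf (nat_lit 4359967) (nat_lit 324782) (nat_lit 54456988) (nat_lit 2761402) [(nat_lit 324782), (nat_lit 0), (nat_lit 3188546), (nat_lit 0)]) (PF.cons PF.nil (PF.cons PF.nil PF.nil)))) (PF.cons (PF.cons (PF.leaf (nat_lit 4834109) (nat_lit 1344158) (nat_lit 53239279) (nat_lit 2809713) [(nat_lit 0), (nat_lit 1344158), (nat_lit 3238553),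 (nat_lit 0)]) (PF.cons PF.nil PF.nil)) (PF.cons PF.nil PF.nil))) (PF.cons (PF.cons (PF.cons (PF.leaf (nat_lit 5450184) (nat_lit 2856656) (nat_lit 51106163) (nat_lit 2856656) [(nat_lit 0), (nat_lit 0), (nat_lit 3286498), (nat_lit 0)]) (PF.cons PF.nil PF.nil)) (PF.cons PF.nil PF.nil)) (PF.cons PF.nil PF.nil)))))) (PF.cons (PF.cons (PF.cons (PF.cons (PF.leaf (nat_lit 2701404) (nat_lit 2482741) (nat_lit 56804889) (nat_lit 2482741) [(nat_lit 0),
 (nat_lit 0), (nat_lit 0), (nat_lit 7821182)]) (PF.cons (PF.leaf (nat_lit 2867713) (nat_lit 249375) (nat_lit 56506041) (nat_lit 2509641) [(nat_lit 249375), (nat_lit 0), (nat_lit 0), (nat_lit 7843754)]) (PF.cons (PF.leaf (nat_lit 3052266) (nat_lit 262375) (nat_lit 56179790) (nat_lit 2537368) [(nat_lit 262375), (nat_lit 0), (nat_lit 0), (nat_lit 7866902)]) (PF.cons (PF.leaf (nat_lit 3250876) (nat_lit 274224) (nat_lit 55830823) (nat_lit 2565318) [(nat_lit 274224), (nat_lit 0), (nat_lit 0), (nat_lit 7889998)]) (PF.cons (PF.leaf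 (nat_lit 3461846) (nat_lit 285153) (nat_lit 55462554) (nat_lit 2593075) [(nat_lit 285153), (nat_lit 0), (nat_lit 0), (nat_lit 7912569)]) (PF.cons (PF.leaf (nat_lit 3683870) (nat_lit 295314) (nat_lit 55077648) (nat_lit 2620343) [(nat_lit 295314), (nat_lit 0), (nat_lit 0), (nat_lit 7934250)]) (PF.cons (PF.leaf (nat_lit 3915711) (nat_lit 304812) (nat_lit 54678278) (nat_lit 2646907) [(nat_lit 304812), (nat_lit 0), (nat_lit 0), (nat_lit 7954753)]) (PF.cons PF.nil (PF.cons PF.nil PF.nil))))))))) (PF.cons (PF.cons (PF.leaf (nat_lit 3284412) (nat_lit 1180866) (nat_lit 55433799) (nat_lit 2585524) [(nat_lit 0), (nat_lit 1180866), (nat_lit 0), (nat_lit 7908622)]) (PF.cons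
 (PF.leaf (nat_lit 3480102) (nat_lit 282655) (nat_lit 55086354) (nat_lit 2610507) [(nat_lit 282655), (nat_lit 1201129), (nat_lit 0), (nat_lit 7928166)]) (PF.cons (PF.leaf (nat_lit 3690033) (nat_lit 293270) (nat_lit 54718596) (nat_lit 2635451) [(nat_lit 293270), (nat_lit 1221041), (nat_lit 0), (nat_lit 7947182)]) (PF.cons (PF.leaf (nat_lit 3911294) (nat_lit 303082) (nat_lit 54333818) (nat_lit 2660026) [(nat_lit 303082), (nat_lit 1240425), (nat_lit 0), (nat_lit 7965296)]) (PF.cons (PF.leaf (nat_lit 4142616) (nat_lit 312216) (nat_lit 53934556) (nat_lit 2683995) [(nat_lit 312216), (nat_lit 1259167), (nat_lit 0), (nat_lit 7982227)]) (PF.cons (PF.leaf (nat_lit 4382790) (nat_lit 320759) (nat_lit 53522867) (nat_lit 2707192) [(nat_lit 320759), (nat_lit 1277201), (nat_lit 0), (nat_lit 7997755)]) (PF.cons PF.nil PF.nil))))))) (PF.cons (PF.cons (PF.leaf (nat_lit 3921145) (nat_lit 1247443) (nat_lit 53964455) (nat_lit 2673891) [(nat_lit 0), (nat_lit 1247443), (nat_lit 0),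 (nat_lit 7975578)]) (PF.cons (PF.leaf (nat_lit 4139531) (nat_lit 309976) (nat_lit 53582632) (nat_lit 2695886) [(nat_lit 309976), (nat_lit 1265052), (nat_lit 0), (nat_lit 7990212)]) (PF.cons (PF.leaf (nat_lit 4369305) (nat_lit
 318827) (nat_lit 53185787) (nat_lit 2717389) [(nat_lit 318827), (nat_lit 1282146), (nat_lit 0), (nat_lit 8003687)]) (PF.cons (PF.leaf (nat_lit 4608174) (nat_lit 327065) (nat_lit 52776350) (nat_lit 2738214) [(nat_lit 327065), (nat_lit 1298631), (nat_lit 0), (nat_lit 8015789)]) (PF.cons PF.nil PF.nil))))) (PF.cons (PF.cons (PF.leaf (nat_lit 4597111) (nat_lit 1303075) (nat_lit 52432892) (nat_lit 2747338) [(nat_lit 0), (nat_lit 1303075), (nat_lit 0), (nat_lit 8019354)]) (PF.cons (PF.leaf (nat_lit 4832970) (nat_lit 332667) (nat_lit 52027744) (nat_lit 2765910) [(nat_lit 332667), (nat_lit 1318099), (nat_lit 0), (nat_lit 8028190)]) (PF.cons (PF.leaf (nat_lit 5077942) (nat_lit 340103) (nat_lit 51611680) (nat_lit 2783762) [(nat_lit 340103), (nat_lit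 1332539), (nat_lit 0), (nat_lit 8035544)]) (PF.cons PF.nil PF.nil)))) (PF.cons (PF.cons (PF.leaf (nat_lit 5300494) (nat_lit 1348884) (nat_lit 50867445) (nat_lit 2806297) [(nat_lit 0), (nat_lit 1348884), (nat_lit 0), (nat_lit 8039531)]) (PF.cons (PF.leaf (nat_lit 5549465) (nat_lit 351522) (nat_lit 50447780) (nat_lit 2821358) [(nat_lit 351522), (nat_lit 1361457), (nat_lit 0), (nat_lit 8042323)]) PF.nil)) (PF.cons PF.nil PF.nil)))))) (PF.cons
 (PF.cons (PF.cons (PF.leaf (nat_lit 3876202) (nat_lit 2672520) (nat_lit 53368712) (nat_lit 2672520) [(nat_lit 0), (nat_lit 0), (nat_lit 3096682), (nat_lit 7970896)]) (PF.cons (PF.leaf (nat_lit 4078290) (nat_lit 299358) (nat_lit 53017009) (nat_lit 2692714) [(nat_lit 299358), (nat_lit 0), (nat_lit 3117069), (nat_lit 7982659)]) (PF.cons (PF.leaf (nat_lit 4293859) (nat_lit 309340) (nat_lit 52646514) (nat_lit 2712738) [(nat_lit 309340), (nat_lit 0), (nat_lit 3137288), (nat_lit 7993590)]) (PF.cons (PF.leaf (nat_lit 4519998) (nat_lit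 318464) (nat_lit 52260612) (nat_lit 2732324) [(nat_lit 318464), (nat_lit 0), (nat_lit 3157056), (nat_lit 8003425)]) (PF.cons (PF.leaf (nat_lit 4755329) (nat_lit 326874) (nat_lit 51861879) (nat_lit 2751288) [(nat_lit 326874), (nat_lit 0), (nat_lit 3176176), (nat_lit 8011969)]) (PF.cons (PF.leaf (nat_lit 4998744) (nat_lit 334672) (nat_lit 51452370) (nat_lit 2769498) [(nat_lit 334672), (nat_lit 0), (nat_lit 3194505), (nat_lit 8019074)]) (PF.cons PF.nil PF.nil))))))) (PF.cons (PF.cons (PF.leaf (nat_lit 4520592) (nat_lit 1293547) (nat_lit 51900252) (nat_lit 2741822) [(nat_lit 0), (nat_lit 1293547), (nat_lit 3167083), (nat_lit 8006106)]) (PF.cons (PF.leaf (nat_lit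
 4742993) (nat_lit 323923) (nat_lit 51519726) (nat_lit 2759203) [(nat_lit 323923), (nat_lit 1308476), (nat_lit 3184525), (nat_lit 8012958)]) (PF.cons (PF.leaf (nat_lit 4975954) (nat_lit 332109) (nat_lit 51125695) (nat_lit 2776060) [(nat_lit 332109), (nat_lit 1322877), (nat_lit 3201411), (nat_lit 8018549)]) (PF.cons (PF.leaf (nat_lit 5217251) (nat_lit 339655) (nat_lit 50720590) (nat_lit 2792247) [(nat_lit 339655), (nat_lit 1336681), (nat_lit 3217585), (nat_lit 8022740)]) (PF.cons PF.nil PF.nil))))) (PF.cons (PF.cons (PF.leaf (nat_lit 5197140) (nat_lit 1339236) (nat_lit 50388784) (nat_lit 2797921) [(nat_lit 0), (nat_lit 1339236), (nat_lit 3223474), (nat_lit 8020159)]) (PF.cons (PF.leaf (nat_lit 5434732) (nat_lit 344015) (nat_lit 49989826) (nat_lit 2812193) [(nat_lit 344015), (nat_lit 1351777), (nat_lit 3237606), (nat_lit 8021617)]) (PF.cons (PF.leaf (nat_lit 5680696) (nat_lit 350795) (nat_lit 49581331) (nat_lit 2825770) [(nat_lit 350795), (nat_lit 1363751), (nat_lit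 3250993), (nat_lit 8021622)]) (PF.cons PF.nil PF.nil)))) (PF.cons (PF.cons (PF.leaf (nat_lit 5895049) (nat_lit 1376177) (nat_lit 48859192) (nat_lit 2841354) [(nat_lit 0), (nat_lit 1376177), (nat_lit 3266288), (nat_lit
 8013445)]) (PF.cons PF.nil PF.nil)) (PF.cons PF.nil PF.nil))))) (PF.cons (PF.cons (PF.cons (PF.leaf (nat_lit 5105637) (nat_lit 2789236) (nat_lit 49890114) (nat_lit 2789236) [(nat_lit 0), (nat_lit 0), (nat_lit 3214909), (nat_lit 7999643)]) (PF.cons (PF.leaf (nat_lit 5330214) (nat_lit 335034) (nat_lit 49515138) (nat_lit 2802672) [(nat_lit 335034), (nat_lit 0), (nat_lit 3228052), (nat_lit 7999863)]) (PF.cons (PF.leaf (nat_lit 5564682) (nat_lit 342604) (nat_lit 49128022) (nat_lit 2815568) [(nat_lit 342604), (nat_lit 0), (nat_lit 3240617), (nat_lit 7998779)]) (PF.cons (PF.leaf (nat_lit 5806809) (nat_lit 349519) (nat_lit 48731155) (nat_lit 2827811) [(nat_lit 349519), (nat_lit 0), (nat_lit 3252487), (nat_lit 7996312)]) (PF.cons PF.nil PF.nil))))) (PF.cons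 (PF.cons (PF.leaf (nat_lit 5778442) (nat_lit 1365669) (nat_lit 48413025) (nat_lit 2830696) [(nat_lit 0), (nat_lit 1365669), (nat_lit 3255294), (nat_lit 7988832)]) (PF.cons (PF.leaf (nat_lit 6016378) (nat_lit 352815) (nat_lit 48023617) (nat_lit 2841316) [(nat_lit 352815), (nat_lit 1376060), (nat_lit 3265438), (nat_lit 7984126)]) (PF.cons PF.nil (PF.cons PF.nil PF.nil)))) (PF.cons (PF.cons (PF.leaf (nat_lit 6467701) (nat_lit 1395038)
 (nat_lit 46929936) (nat_lit 2861099) [(nat_lit 0), (nat_lit 1395038), (nat_lit 3283845), (nat_lit 7960006)]) (PF.cons PF.nil PF.nil)) PF.nil))) (PF.cons (PF.cons (PF.cons (PF.leaf (nat_lit 6339688) (nat_lit 2848828) (nat_lit 46515396) (nat_lit 2848828) [(nat_lit 0), (nat_lit 0), (nat_lit 3270948), (nat_lit 7931742)]) (PF.cons (PF.leaf (nat_lit 6576749) (nat_lit 359451) (nat_lit 46137872) (nat_lit 2856354) [(nat_lit 359451), (nat_lit 0), (nat_lit 3277727), (nat_lit 7921952)]) (PF.cons PF.nil PF.nil))) (PF.cons (PF.cons (PF.leaf (nat_lit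 7017975) (nat_lit 1406897) (nat_lit 45085816) (nat_lit 2868325) [(nat_lit 0), (nat_lit 1406897), (nat_lit 3287602), (nat_lit 7884966)]) PF.nil) PF.nil)) (PF.cons PF.nil (PF.cons PF.nil PF.nil)))))) (PF.cons (PF.cons (PF.cons (PF.cons (PF.leaf (nat_lit 4801755) (nat_lit 2715982) (nat_lit 48638056) (nat_lit 2715982) [(nat_lit 0), (nat_lit 0), (nat_lit 0), (nat_lit 7877386)]) (PF.cons (PF.leaf (nat_lit 5001610) (nat_lit 309091) (nat_lit 48315330) (nat_lit 2729928) [(nat_lit 309091), (nat_lit 0), (nat_lit 0), (nat_lit 7877231)]) (PF.cons (PF.leaf (nat_lit 5213927) (nat_lit 318383) (nat_lit 47976457) (nat_lit 2743547) [(nat_lit 318383), (nat_lit 0),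
 (nat_lit 0), (nat_lit 7876020)]) (PF.cons (PF.leaf (nat_lit 5435827) (nat_lit 326746) (nat_lit 47624613) (nat_lit 2756656) [(nat_lit 326746), (nat_lit 0), (nat_lit 0), (nat_lit 7873651)]) (PF.cons (PF.leaf (nat_lit 5665922) (nat_lit 334344) (nat_lit 47262193) (nat_lit 2769134) [(nat_lit 334344), (nat_lit 0), (nat_lit 0), (nat_lit 7870052)]) (PF.cons (PF.leaf (nat_lit 5903110) (nat_lit 341296) (nat_lit 46891090) (nat_lit 2780898) [(nat_lit 341296), (nat_lit 0), (nat_lit 0), (nat_lit 7865172)]) (PF.cons PF.nil PF.nil))))))) (PF.cons (PF.cons (PF.leaf (nat_lit 5424511) (nat_lit 1314595) (nat_lit 47301604) (nat_lit 2760654) [(nat_lit 0), (nat_lit 1314595), (nat_lit 0), (nat_lit 7865979)]) (PF.cons (PF.leaf (nat_lit 5641922) (nat_lit 330602) (nat_lit 46956477) (nat_lit 2772041) [(nat_lit 330602), (nat_lit 1326382), (nat_lit 0), (nat_lit 7861653)]) (PF.cons (PF.leaf (nat_lit 5868905) (nat_lit 338015) (nat_lit 46600079) (nat_lit 2782884) [(nat_lit 338015), (nat_lit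 1337604), (nat_lit 0), (nat_lit 7856106)]) (PF.cons (PF.leaf (nat_lit 6103289) (nat_lit 344756) (nat_lit 46234634) (nat_lit 2793089) [(nat_lit 344756), (nat_lit 1348219), (nat_lit 0), (nat_lit 7849299)]) (PF.cons PF.nil
 PF.nil))))) (PF.cons (PF.cons (PF.leaf (nat_lit 6072161) (nat_lit 1348450) (nat_lit 45940020) (nat_lit 2794432) [(nat_lit 0), (nat_lit 1348450), (nat_lit 0), (nat_lit 7838729)]) (PF.cons (PF.leaf (nat_lit 6302331) (nat_lit 347680) (nat_lit 45581581) (nat_lit 2803179) [(nat_lit 347680), (nat_lit 1358021), (nat_lit 0), (nat_lit 7830164)]) (PF.cons (PF.leaf (nat_lit 6539970) (nat_lit 353679) (nat_lit 45215401) (nat_lit 2811293) [(nat_lit 353679), (nat_lit 1367039), (nat_lit 0), (nat_lit 7820340)]) (PF.cons PF.nil PF.nil)))) (PF.cons (PF.cons (PF.leaf (nat_lit 6735354) (nat_lit 1374711) (nat_lit 44573488) (nat_lit 2818122) [(nat_lit 0), (nat_lit 1374711), (nat_lit 0), (nat_lit 7796532)]) (PF.cons (PF.leaf (nat_lit 6974644) (nat_lit 361303) (nat_lit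 44208447) (nat_lit 2824318) [(nat_lit 361303), (nat_lit 1382306), (nat_lit 0), (nat_lit 7783911)]) PF.nil)) (PF.cons PF.nil PF.nil))))) (PF.cons (PF.cons (PF.cons (PF.leaf (nat_lit 5963968) (nat_lit 2781479) (nat_lit 45509019) (nat_lit 2781479) [(nat_lit 0), (nat_lit 0), (nat_lit 3199116), (nat_lit 7809598)]) (PF.cons (PF.leaf (nat_lit 6181992) (nat_lit 338201) (nat_lit 45172339) (nat_lit 2789897) [(nat_lit 338201), (nat_lit 0), (nat_lit
 3206693), (nat_lit 7800840)]) (PF.cons (PF.leaf (nat_lit 6409014) (nat_lit 345060) (nat_lit 44825485) (nat_lit 2797777) [(nat_lit 345060), (nat_lit 0), (nat_lit 3213702), (nat_lit 7790862)]) (PF.cons (PF.leaf (nat_lit 6642844) (nat_lit 351247) (nat_lit 44470615) (nat_lit 2805050) [(nat_lit 351247), (nat_lit 0), (nat_lit 3220072), (nat_lit 7779666)]) (PF.cons PF.nil PF.nil))))) (PF.cons (PF.cons (PF.leaf (nat_lit 6604914) (nat_lit 1362771) (nat_lit 44190166) (nat_lit 2804508) [(nat_lit 0), (nat_lit 1362771), (nat_lit 3219075),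 (nat_lit 7766145)]) (PF.cons (PF.leaf (nat_lit 6834243) (nat_lit 353336) (nat_lit 43843008) (nat_lit 2810557) [(nat_lit 353336), (nat_lit 1370639), (nat_lit 3224170), (nat_lit 7753549)]) (PF.cons (PF.leaf (nat_lit 7070464) (nat_lit 358825) (nat_lit 43489009) (nat_lit 2816013) [(nat_lit 358825), (nat_lit 1377983), (nat_lit 3228634), (nat_lit 7739760)]) (PF.cons PF.nil PF.nil)))) (PF.cons (PF.cons (PF.leaf (nat_lit 7257870) (nat_lit 1383211) (nat_lit 42874104) (nat_lit 2818787) [(nat_lit 0), (nat_lit 1383211), (nat_lit 3229821), (nat_lit 7709838)]) (PF.cons PF.nil PF.nil)) PF.nil))) (PF.cons (PF.cons (PF.cons (PF.leaf (nat_lit 7118863) (nat_lit 2804517)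
 (nat_lit 42519047) (nat_lit 2804517) [(nat_lit 0), (nat_lit 0), (nat_lit 3214655), (nat_lit 7677967)]) (PF.cons (PF.leaf (nat_lit 7346551) (nat_lit 357374) (nat_lit 42184321) (nat_lit 2808295) [(nat_lit 357374), (nat_lit 0), (nat_lit 3217315), (nat_lit 7662095)]) (PF.cons PF.nil PF.nil))) (PF.cons (PF.cons (PF.leaf (nat_lit 7760228) (nat_lit 1386721) (nat_lit 41256399) (nat_lit 2810958) [(nat_lit 0), (nat_lit 1386721), (nat_lit 3216972), (nat_lit 7610393)]) PF.nil) PF.nil)) (PF.cons PF.nil (PF.cons PF.nil PF.nil))))) (PF.cons (PF.cons (PF.cons (PF.cons (PF.leaf (nat_lit 6725930) (nat_lit 2740358) (nat_lit 41685856) (nat_lit 2740358) [(nat_lit 0), (nat_lit 0), (nat_lit 0), (nat_lit 7560865)]) (PF.cons (PF.leaf (nat_lit 6936638) (nat_lit 336917) (nat_lit 41385987) (nat_lit 2745342) [(nat_lit 336917), (nat_lit 0), (nat_lit 0), (nat_lit 7546854)]) (PF.cons (PF.leaf (nat_lit 7155629) (nat_lit 343194) (nat_lit 41077467) (nat_lit 2749808) [(nat_lit 343194), (nat_lit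 0), (nat_lit 0), (nat_lit 7531716)]) (PF.cons (PF.leaf (nat_lit 7380870) (nat_lit 348794) (nat_lit 40762213) (nat_lit 2753716) [(nat_lit 348794), (nat_lit 0), (nat_lit 0), (nat_lit 7515499)]) (PF.cons PF.nil PF.nil)))))
 (PF.cons (PF.cons (PF.leaf (nat_lit 7336064) (nat_lit 1345149) (nat_lit 40516166) (nat_lit 2751040) [(nat_lit 0), (nat_lit 1345149), (nat_lit 0), (nat_lit 7498818)]) (PF.cons (PF.leaf (nat_lit 7556582) (nat_lit 350032) (nat_lit 40208293) (nat_lit 2754016) [(nat_lit 350032), (nat_lit 1351200), (nat_lit 0), (nat_lit 7481756)]) (PF.cons PF.nil (PF.cons PF.nil PF.nil)))) (PF.cons (PF.cons (PF.leaf (nat_lit 7955315) (nat_lit 1359333) (nat_lit 39353119) (nat_lit 2754697) [(nat_lit 0), (nat_lit 1359333), (nat_lit 0), (nat_lit 7427442)]) (PF.cons PF.nil PF.nil)) PF.nil))) (PF.cons (PF.cons (PF.cons (PF.leaf (nat_lit 7809609) (nat_lit 2739712) (nat_lit 39048960) (nat_lit 2739712) [(nat_lit 0), (nat_lit 0), (nat_lit 3135818), (nat_lit 7394773)]) (PF.cons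 (PF.leaf (nat_lit 8028129) (nat_lit 352300) (nat_lit 38752910) (nat_lit 2740992) [(nat_lit 352300), (nat_lit 0), (nat_lit 3135781), (nat_lit 7375609)]) PF.nil)) (PF.cons PF.nil PF.nil)) (PF.cons PF.nil PF.nil))) (PF.cons (PF.cons (PF.cons (PF.cons (PF.leaf (nat_lit 8429027) (nat_lit 2664127) (nat_lit 36031241) (nat_lit 2664127) [(nat_lit 0), (nat_lit 0), (nat_lit 0), (nat_lit 7103360)]) (PF.cons PF.nil PF.nil)) (PF.cons PF.nil PF.nil))
 (PF.cons PF.nil PF.nil)) (PF.cons PF.nil (PF.cons PF.nil (PF.cons PF.nil (PF.cons PF.nil PF.nil)))))))))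

def p15_12_0_0 : pfC (piC [(nat_lit 42686981), (nat_lit 27030628), (nat_lit 20024807), (nat_lit 13470738)] (nat_lit 25510466)) p15_12_0 (nat_lit 4) (nat_lit 0) (nat_lit 1) = true := by decide +kernel
def p15_12_0_1 : pfC (piC [(nat_lit 42686981), (nat_lit 27030628), (nat_lit 20024807), (nat_lit 13470738)] (nat_lit 25510466)) p15_12_0 (nat_lit 4) (nat_lit 1) (nat_lit 2) = true := by decide +kernel
def p15_12_0_2 : pfC (piC [(nat_lit 42686981), (nat_lit 27030628), (nat_lit 20024807), (nat_lit 13470738)] (nat_lit 25510466)) p15_12_0 (nat_lit 4) (nat_lit 2) (nat_lit 3) = true := by decide +kernel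
def p15_12_0_3 : pfC (piC [(nat_lit 42686981), (nat_lit 27030628), (nat_lit 20024807), (nat_lit 13470738)] (nat_lit 25510466)) p15_12_0 (nat_lit 4) (nat_lit 3) (nat_lit 4) = true := by decide +kernel
def p15_12_0_4 : pfC (piC [(nat_lit 42686981), (nat_lit 27030628), (nat_lit 20024807), (nat_lit 13470738)] (nat_lit 25510466)) p15_12_0 (nat_lit 4) (nat_lit 4) (nat_lit 5) = true := by decide +kernel
def p15_12_0_5 : pfC (piC [(nat_lit 42686981), (nat_lit 27030628), (nat_lit 20024807), (nat_lit 13470738)] (nat_lit 25510466)) p15_12_0 (nat_lit 4) (nat_lit 5) (nat_lit 6) = true := by decide +kernel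
def p15_12_0_6 : pfC (piC [(nat_lit 42686981), (nat_lit 27030628), (nat_lit 20024807), (nat_lit 13470738)] (nat_lit 25510466)) p15_12_0 (nat_lit 4) (nat_lit 6) (nat_lit 7) = true := by decide +kernel
def p15_12_0_7 : pfC (piC [(nat_lit 42686981), (nat_lit 27030628), (nat_lit 20024807), (nat_lit 13470738)] (nat_lit 25510466)) p15_12_0 (nat_lit 4) (nat_lit 7) (nat_lit 8) = true := by decide +kernel
def p15_12_0_8 : pfC (piC [(nat_lit 42686981), (nat_lit 27030628), (nat_lit 20024807), (nat_lit 13470738)] (nat_lit 25510466)) p15_12_0 (nat_lit 4) (nat_lit 8) (nat_lit 9) = true := by decide +kernel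
def p15_12_0_9 : pfC (piC [(nat_lit 42686981), (nat_lit 27030628), (nat_lit 20024807), (nat_lit 13470738)] (nat_lit 25510466)) p15_12_0 (nat_lit 4) (nat_lit 9) (nat_lit 10) = true := by decide +kernel
def p15_12_0_10 : pfC (piC [(nat_lit 42686981), (nat_lit 27030628), (nat_lit 20024807), (nat_lit 13470738)] (nat_lit 25510466)) p15_12_0 (nat_lit 4) (nat_lit 10) (nat_lit 11) = true := by decide +kernel
def p15_12_0_11 : pfC (piC [(nat_lit 42686981), (nat_lit 27030628), (nat_lit 20024807), (nat_lit 13470738)] (nat_lit 25510466)) p15_12_0 (nat_lit 4) (nat_lit 11) (nat_lit 12) = true := by decide +kernel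
def p15_12_0_12 : pfC (piC [(nat_lit 42686981), (nat_lit 27030628), (nat_lit 20024807), (nat_lit 13470738)] (nat_lit 25510466)) p15_12_0 (nat_lit 4) (nat_lit 12) (nat_lit 13) = true := by decide +kernel
def p15_12_0_13 : pfC (piC [(nat_lit 42686981), (nat_lit 27030628), (nat_lit 20024807), (nat_lit 13470738)] (nat_lit 25510466)) p15_12_0 (nat_lit 4) (nat_lit 13) (nat_lit 14) = true := by decide +kernel
def p15_12_0_14 : pfC (piC [(nat_lit 42686981), (nat_lit 27030628), (nat_lit 20024807), (nat_lit 13470738)] (nat_lit 25510466)) p15_12_0 (nat_lit 4) (nat_lit 14) (nat_lit 15) = true := by decide +kernel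
def p15_12_0_15 : pfC (piC [(nat_lit 42686981), (nat_lit 27030628), (nat_lit 20024807), (nat_lit 13470738)] (nat_lit 25510466)) p15_12_0 (nat_lit 4) (nat_lit 15) (nat_lit 16) = true := by decide +kernel
def p15_12_0_16 : pfC (piC [(nat_lit 42686981), (nat_lit 27030628), (nat_lit 20024807), (nat_lit 13470738)] (nat_lit 25510466)) p15_12_0 (nat_lit 4) (nat_lit 16) (nat_lit 17) = true := by decide +kernel
def p15_12_0_17 : pfC (piC [(nat_lit 42686981), (nat_lit 27030628), (nat_lit 20024807), (nat_lit 13470738)] (nat_lit 25510466)) p15_12_0 (nat_lit 4) (nat_lit 17) (nat_lit 18) = true := by decide +kernel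
def p15_12_0_18 : pfC (piC [(nat_lit 42686981), (nat_lit 27030628), (nat_lit 20024807), (nat_lit 13470738)] (nat_lit 25510466)) p15_12_0 (nat_lit 4) (nat_lit 18) (nat_lit 19) = true := by decide +kernel
def p15_12_0_19 : pfC (piC [(nat_lit 42686981), (nat_lit 27030628), (nat_lit 20024807), (nat_lit 13470738)] (nat_lit 25510466)) p15_12_0 (nat_lit 4) (nat_lit 19) (nat_lit 20) = true := by decide +kernel
def p15_12_0_20 : pfC (piC [(nat_lit 42686981), (nat_lit 27030628), (nat_lit 20024807), (nat_lit 13470738)] (nat_lit 25510466)) p15_12_0 (nat_lit 4) (nat_lit 20) (nat_lit 21) = true := by decide +kernel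
def p15_12_0_21 : pfC (piC [(nat_lit 42686981), (nat_lit 27030628), (nat_lit 20024807), (nat_lit 13470738)] (nat_lit 25510466)) p15_12_0 (nat_lit 4) (nat_lit 21) (nat_lit 22) = true := by decide +kernel
def p15_12_0_22 : pfC (piC [(nat_lit 42686981), (nat_lit 27030628), (nat_lit 20024807), (nat_lit 13470738)] (nat_lit 25510466)) p15_12_0 (nat_lit 4) (nat_lit 22) (nat_lit 23) = true := by decide +kernel
def p15_12_0_23 : pfC (piC [(nat_lit 42686981), (nat_lit 27030628), (nat_lit 20024807), (nat_lit 13470738)] (nat_lit 25510466)) p15_12_0 (nat_lit 4) (nat_lit 23) (nat_lit 24) = true := by decide +kernel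
def p15_12_0_24 : pfC (piC [(nat_lit 42686981), (nat_lit 27030628), (nat_lit 20024807), (nat_lit 13470738)] (nat_lit 25510466)) p15_12_0 (nat_lit 4) (nat_lit 24) (nat_lit 25) = true := by decide +kernel
def p15_12_0_25 : pfC (piC [(nat_lit 42686981), (nat_lit 27030628), (nat_lit 20024807), (nat_lit 13470738)] (nat_lit 25510466)) p15_12_0 (nat_lit 4) (nat_lit 25) (nat_lit 26) = true := by decide +kernel
def p15_12_0_26 : pfC (piC [(nat_lit 42686981), (nat_lit 27030628), (nat_lit 20024807), (nat_lit 13470738)] (nat_lit 25510466)) p15_12_0 (nat_lit 4) (nat_lit 26) (nat_lit 27) = true := by decide +kernel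
def p15_12_0_27 : pfC (piC [(nat_lit 42686981), (nat_lit 27030628), (nat_lit 20024807), (nat_lit 13470738)] (nat_lit 25510466)) p15_12_0 (nat_lit 4) (nat_lit 27) (nat_lit 28) = true := by decide +kernel
def p15_12_0_28 : pfC (piC [(nat_lit 42686981), (nat_lit 27030628), (nat_lit 20024807), (nat_lit 13470738)] (nat_lit 25510466)) p15_12_0 (nat_lit 4) (nat_lit 28) (nat_lit 29) = true := by decide +kernel
def p15_12_0_29 : pfC (piC [(nat_lit 42686981), (nat_lit 27030628), (nat_lit 20024807), (nat_lit 13470738)] (nat_lit 25510466)) p15_12_0 (nat_lit 4) (nat_lit 29) (nat_lit 30) = true := by decide +kernel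
def p15_12_0_30 : pfC (piC [(nat_lit 42686981), (nat_lit 27030628), (nat_lit 20024807), (nat_lit 13470738)] (nat_lit 25510466)) p15_12_0 (nat_lit 4) (nat_lit 30) (nat_lit 31) = true := by decide +kernel
def p15_12_0_31 : pfC (piC [(nat_lit 42686981), (nat_lit 27030628), (nat_lit 20024807), (nat_lit 13470738)] (nat_lit 25510466)) p15_12_0 (nat_lit 4) (nat_lit 31) (nat_lit 32) = true := by decide +kernel
def p15_12_0_32 : pfC (piC [(nat_lit 42686981), (nat_lit 27030628), (nat_lit 20024807), (nat_lit 13470738)] (nat_lit 25510466)) p15_12_0 (nat_lit 4) (nat_lit 32) (nat_lit 33) = true := by decide +kernel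
def p15_12_0_33 : pfC (piC [(nat_lit 42686981), (nat_lit 27030628), (nat_lit 20024807), (nat_lit 13470738)] (nat_lit 25510466)) p15_12_0 (nat_lit 4) (nat_lit 33) (nat_lit 34) = true := by decide +kernel
def p15_12_0_34 : pfC (piC [(nat_lit 42686981), (nat_lit 27030628), (nat_lit 20024807), (nat_lit 13470738)] (nat_lit 25510466)) p15_12_0 (nat_lit 4) (nat_lit 34) (nat_lit 35) = true := by decide +kernel
def p15_12_0_35 : pfC (piC [(nat_lit 42686981), (nat_lit 27030628), (nat_lit 20024807), (nat_lit 13470738)] (nat_lit 25510466)) p15_12_0 (nat_lit 4) (nat_lit 35) (nat_lit 36) = true := by decide +kernel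
def p15_12_0_36 : pfC (piC [(nat_lit 42686981), (nat_lit 27030628), (nat_lit 20024807), (nat_lit 13470738)] (nat_lit 25510466)) p15_12_0 (nat_lit 4) (nat_lit 36) (nat_lit 37) = true := by decide +kernel
def p15_12_0_37 : pfC (piC [(nat_lit 42686981), (nat_lit 27030628), (nat_lit 20024807), (nat_lit 13470738)] (nat_lit 25510466)) p15_12_0 (nat_lit 4) (nat_lit 37) (nat_lit 38) = true := by decide +kernel
def p15_12_0_38 : pfC (piC [(nat_lit 42686981), (nat_lit 27030628), (nat_lit 20024807), (nat_lit 13470738)] (nat_lit 25510466)) p15_12_0 (nat_lit 4) (nat_lit 38) (nat_lit 39) = true := by decide +kernel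
def p15_12_0_39 : pfC (piC [(nat_lit 42686981), (nat_lit 27030628), (nat_lit 20024807), (nat_lit 13470738)] (nat_lit 25510466)) p15_12_0 (nat_lit 4) (nat_lit 39) (nat_lit 40) = true := by decide +kernel
def p15_12_0_40 : pfC (piC [(nat_lit 42686981), (nat_lit 27030628), (nat_lit 20024807), (nat_lit 13470738)] (nat_lit 25510466)) p15_12_0 (nat_lit 4) (nat_lit 40) (nat_lit 41) = true := by decide +kernel
def p15_12_0_41 : pfC (piC [(nat_lit 42686981), (nat_lit 27030628), (nat_lit 20024807), (nat_lit 13470738)] (nat_lit 25510466)) p15_12_0 (nat_lit 4) (nat_lit 41) (nat_lit 42) = true := by decide +kernel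
def p15_12_0_42 : pfC (piC [(nat_lit 42686981), (nat_lit 27030628), (nat_lit 20024807), (nat_lit 13470738)] (nat_lit 25510466)) p15_12_0 (nat_lit 4) (nat_lit 42) (nat_lit 43) = true := by decide +kernel
def p15_12_0_43 : pfC (piC [(nat_lit 42686981), (nat_lit 27030628), (nat_lit 20024807), (nat_lit 13470738)] (nat_lit 25510466)) p15_12_0 (nat_lit 4) (nat_lit 43) (nat_lit 44) = true := by decide +kernel
def p15_12_0_44 : pfC (piC [(nat_lit 42686981), (nat_lit 27030628), (nat_lit 20024807), (nat_lit 13470738)] (nat_lit 25510466)) p15_12_0 (nat_lit 4) (nat_lit 44) (nat_lit 45) = true := by decide +kernel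
def p15_12_0_45 : pfC (piC [(nat_lit 42686981), (nat_lit 27030628), (nat_lit 20024807), (nat_lit 13470738)] (nat_lit 25510466)) p15_12_0 (nat_lit 4) (nat_lit 45) (nat_lit 46) = true := by decide +kernel
def p15_12_0_46 : pfC (piC [(nat_lit 42686981), (nat_lit 27030628), (nat_lit 20024807), (nat_lit 13470738)] (nat_lit 25510466)) p15_12_0 (nat_lit 4) (nat_lit 46) (nat_lit 47) = true := by decide +kernel
def p15_12_0_47 : pfC (piC [(nat_lit 42686981), (nat_lit 27030628), (nat_lit 20024807), (nat_lit 13470738)] (nat_lit 25510466)) p15_12_0 (nat_lit 4) (nat_lit 47) (nat_lit 48) = true := by decide +kernel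
def p15_12_0_48 : pfC (piC [(nat_lit 42686981), (nat_lit 27030628), (nat_lit 20024807), (nat_lit 13470738)] (nat_lit 25510466)) p15_12_0 (nat_lit 4) (nat_lit 48) (nat_lit 49) = true := by decide +kernel
def p15_12_0_49 : pfC (piC [(nat_lit 42686981), (nat_lit 27030628), (nat_lit 20024807), (nat_lit 13470738)] (nat_lit 25510466)) p15_12_0 (nat_lit 4) (nat_lit 49) (nat_lit 50) = true := by decide +kernel
def p15_12_0_50 : pfC (piC [(nat_lit 42686981), (nat_lit 27030628), (nat_lit 20024807), (nat_lit 13470738)] (nat_lit 25510466)) p15_12_0 (nat_lit 4) (nat_lit 50) (nat_lit 51) = true := by decide +kernel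
def p15_12_0_51 : pfC (piC [(nat_lit 42686981), (nat_lit 27030628), (nat_lit 20024807), (nat_lit 13470738)] (nat_lit 25510466)) p15_12_0 (nat_lit 4) (nat_lit 51) (nat_lit 52) = true := by decide +kernel
def p15_12_0_52 : pfC (piC [(nat_lit 42686981), (nat_lit 27030628), (nat_lit 20024807), (nat_lit 13470738)] (nat_lit 25510466)) p15_12_0 (nat_lit 4) (nat_lit 52) (nat_lit 53) = true := by decide +kernel
def p15_12_0_53 : pfC (piC [(nat_lit 42686981), (nat_lit 27030628), (nat_lit 20024807), (nat_lit 13470738)] (nat_lit 25510466)) p15_12_0 (nat_lit 4) (nat_lit 53) (nat_lit 54) = true := by decide +kernel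
def p15_12_0_54 : pfC (piC [(nat_lit 42686981), (nat_lit 27030628), (nat_lit 20024807), (nat_lit 13470738)] (nat_lit 25510466)) p15_12_0 (nat_lit 4) (nat_lit 54) (nat_lit 55) = true := by decide +kernel
def p15_12_0_55 : pfC (piC [(nat_lit 42686981), (nat_lit 27030628), (nat_lit 20024807), (nat_lit 13470738)] (nat_lit 25510466)) p15_12_0 (nat_lit 4) (nat_lit 55) (nat_lit 56) = true := by decide +kernel
def p15_12_0_56 : pfC (piC [(nat_lit 42686981), (nat_lit 27030628), (nat_lit 20024807), (nat_lit 13470738)] (nat_lit 25510466)) p15_12_0 (nat_lit 4) (nat_lit 56) (nat_lit 57) = true := by decide +kernel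
def p15_12_0_57 : pfC (piC [(nat_lit 42686981), (nat_lit 27030628), (nat_lit 20024807), (nat_lit 13470738)] (nat_lit 25510466)) p15_12_0 (nat_lit 4) (nat_lit 57) (nat_lit 58) = true := by decide +kernel
def p15_12_0_58 : pfC (piC [(nat_lit 42686981), (nat_lit 27030628), (nat_lit 20024807), (nat_lit 13470738)] (nat_lit 25510466)) p15_12_0 (nat_lit 4) (nat_lit 58) (nat_lit 59) = true := by decide +kernel
def p15_12_0_59 : pfC (piC [(nat_lit 42686981), (nat_lit 27030628), (nat_lit 20024807), (nat_lit 13470738)] (nat_lit 25510466)) p15_12_0 (nat_lit 4) (nat_lit 59) (nat_lit 60) = true := by decide +kernel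
def p15_12_0_60 : pfC (piC [(nat_lit 42686981), (nat_lit 27030628), (nat_lit 20024807), (nat_lit 13470738)] (nat_lit 25510466)) p15_12_0 (nat_lit 4) (nat_lit 60) (nat_lit 61) = true := by decide +kernel
def p15_12_0_61 : pfC (piC [(nat_lit 42686981), (nat_lit 27030628), (nat_lit 20024807), (nat_lit 13470738)] (nat_lit 25510466)) p15_12_0 (nat_lit 4) (nat_lit 61) (nat_lit 62) = true := by decide +kernel
def p15_12_0_62 : pfC (piC [(nat_lit 42686981), (nat_lit 27030628), (nat_lit 20024807), (nat_lit 13470738)] (nat_lit 25510466)) p15_12_0 (nat_lit 4) (nat_lit 62) (nat_lit 63) = true := by decide +kernel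
def p15_12_0_63 : pfC (piC [(nat_lit 42686981), (nat_lit 27030628), (nat_lit 20024807), (nat_lit 13470738)] (nat_lit 25510466)) p15_12_0 (nat_lit 4) (nat_lit 63) (nat_lit 64) = true := by decide +kernel
def p15_12_0_64 : pfC (piC [(nat_lit 42686981), (nat_lit 27030628), (nat_lit 20024807), (nat_lit 13470738)] (nat_lit 25510466)) p15_12_0 (nat_lit 4) (nat_lit 64) (nat_lit 65) = true := by decide +kernel
def p15_12_0_65 : pfC (piC [(nat_lit 42686981), (nat_lit 27030628), (nat_lit 20024807), (nat_lit 13470738)] (nat_lit 25510466)) p15_12_0 (nat_lit 4) (nat_lit 65) (nat_lit 66) = true := by decide +kernel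
def p15_12_0_66 : pfC (piC [(nat_lit 42686981), (nat_lit 27030628), (nat_lit 20024807), (nat_lit 13470738)] (nat_lit 25510466)) p15_12_0 (nat_lit 4) (nat_lit 66) (nat_lit 67) = true := by decide +kernel
def p15_12_0_67 : pfC (piC [(nat_lit 42686981), (nat_lit 27030628), (nat_lit 20024807), (nat_lit 13470738)] (nat_lit 25510466)) p15_12_0 (nat_lit 4) (nat_lit 67) (nat_lit 68) = true := by decide +kernel
def p15_12_0_68 : pfC (piC [(nat_lit 42686981), (nat_lit 27030628), (nat_lit 20024807), (nat_lit 13470738)] (nat_lit 25510466)) p15_12_0 (nat_lit 4) (nat_lit 68) (nat_lit 69) = true := by decide +kernel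
def p15_12_0_69 : pfC (piC [(nat_lit 42686981), (nat_lit 27030628), (nat_lit 20024807), (nat_lit 13470738)] (nat_lit 25510466)) p15_12_0 (nat_lit 4) (nat_lit 69) (nat_lit 70) = true := by decide +kernel
def p15_12_0_70 : pfC (piC [(nat_lit 42686981), (nat_lit 27030628), (nat_lit 20024807), (nat_lit 13470738)] (nat_lit 25510466)) p15_12_0 (nat_lit 4) (nat_lit 70) (nat_lit 71) = true := by decide +kernel
def p15_12_0_71 : pfC (piC [(nat_lit 42686981), (nat_lit 27030628), (nat_lit 20024807), (nat_lit 13470738)] (nat_lit 25510466)) p15_12_0 (nat_lit 4) (nat_lit 71) (nat_lit 72) = true := by decide +kernel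
def p15_12_0_72 : pfC (piC [(nat_lit 42686981), (nat_lit 27030628), (nat_lit 20024807), (nat_lit 13470738)] (nat_lit 25510466)) p15_12_0 (nat_lit 4) (nat_lit 72) (nat_lit 73) = true := by decide +kernel
def p15_12_0_73 : pfC (piC [(nat_lit 42686981), (nat_lit 27030628), (nat_lit 20024807), (nat_lit 13470738)] (nat_lit 25510466)) p15_12_0 (nat_lit 4) (nat_lit 73) (nat_lit 74) = true := by decide +kernel
def p15_12_0_74 : pfC (piC [(nat_lit 42686981), (nat_lit 27030628), (nat_lit 20024807), (nat_lit 13470738)] (nat_lit 25510466)) p15_12_0 (nat_lit 4) (nat_lit 74) (nat_lit 75) = true := by decide +kernel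
def p15_12_0_75 : pfC (piC [(nat_lit 42686981), (nat_lit 27030628), (nat_lit 20024807), (nat_lit 13470738)] (nat_lit 25510466)) p15_12_0 (nat_lit 4) (nat_lit 75) (nat_lit 76) = true := by decide +kernel
def p15_12_0_76 : pfC (piC [(nat_lit 42686981), (nat_lit 27030628), (nat_lit 20024807), (nat_lit 13470738)] (nat_lit 25510466)) p15_12_0 (nat_lit 4) (nat_lit 76) (nat_lit 77) = true := by decide +kernel
def p15_12_0_77 : pfC (piC [(nat_lit 42686981), (nat_lit 27030628), (nat_lit 20024807), (nat_lit 13470738)] (nat_lit 25510466)) p15_12_0 (nat_lit 4) (nat_lit 77) (nat_lit 78) = true := by decide +kernel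
def p15_12_0_78 : pfC (piC [(nat_lit 42686981), (nat_lit 27030628), (nat_lit 20024807), (nat_lit 13470738)] (nat_lit 25510466)) p15_12_0 (nat_lit 4) (nat_lit 78) (nat_lit 79) = true := by decide +kernel
def p15_12_0_79 : pfC (piC [(nat_lit 42686981), (nat_lit 27030628), (nat_lit 20024807), (nat_lit 13470738)] (nat_lit 25510466)) p15_12_0 (nat_lit 4) (nat_lit 79) (nat_lit 80) = true := by decide +kernel
def p15_12_0_80 : pfC (piC [(nat_lit 42686981), (nat_lit 27030628), (nat_lit 20024807), (nat_lit 13470738)] (nat_lit 25510466)) p15_12_0 (nat_lit 4) (nat_lit 80) (nat_lit 81) = true := by decide +kernel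
def p15_12_0_81 : pfC (piC [(nat_lit 42686981), (nat_lit 27030628), (nat_lit 20024807), (nat_lit 13470738)] (nat_lit 25510466)) p15_12_0 (nat_lit 4) (nat_lit 81) (nat_lit 82) = true := by decide +kernel
def p15_12_0_82 : pfC (piC [(nat_lit 42686981), (nat_lit 27030628), (nat_lit 20024807), (nat_lit 13470738)] (nat_lit 25510466)) p15_12_0 (nat_lit 4) (nat_lit 82) (nat_lit 83) = true := by decide +kernel
def p15_12_0_83 : pfC (piC [(nat_lit 42686981), (nat_lit 27030628), (nat_lit 20024807), (nat_lit 13470738)] (nat_lit 25510466)) p15_12_0 (nat_lit 4) (nat_lit 83) (nat_lit 84) = true := by decide +kernel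
def p15_12_0_84 : pfC (piC [(nat_lit 42686981), (nat_lit 27030628), (nat_lit 20024807), (nat_lit 13470738)] (nat_lit 25510466)) p15_12_0 (nat_lit 4) (nat_lit 84) (nat_lit 85) = true := by decide +kernel
def p15_12_0_85 : pfC (piC [(nat_lit 42686981), (nat_lit 27030628), (nat_lit 20024807), (nat_lit 13470738)] (nat_lit 25510466)) p15_12_0 (nat_lit 4) (nat_lit 85) (nat_lit 86) = true := by decide +kernel
def p15_12_0_86 : pfC (piC [(nat_lit 42686981), (nat_lit 27030628), (nat_lit 20024807), (nat_lit 13470738)] (nat_lit 25510466)) p15_12_0 (nat_lit 4) (nat_lit 86) (nat_lit 87) = true := by decide +kernel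
def p15_12_0_87 : pfC (piC [(nat_lit 42686981), (nat_lit 27030628), (nat_lit 20024807), (nat_lit 13470738)] (nat_lit 25510466)) p15_12_0 (nat_lit 4) (nat_lit 87) (nat_lit 88) = true := by decide +kernel
def p15_12_0_88 : pfC (piC [(nat_lit 42686981), (nat_lit 27030628), (nat_lit 20024807), (nat_lit 13470738)] (nat_lit 25510466)) p15_12_0 (nat_lit 4) (nat_lit 88) (nat_lit 89) = true := by decide +kernel
def p15_12_0_89 : pfC (piC [(nat_lit 42686981), (nat_lit 27030628), (nat_lit 20024807), (nat_lit 13470738)] (nat_lit 25510466)) p15_12_0 (nat_lit 4) (nat_lit 89) (nat_lit 90) = true := by decide +kernel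
def p15_12_0_90 : pfC (piC [(nat_lit 42686981), (nat_lit 27030628), (nat_lit 20024807), (nat_lit 13470738)] (nat_lit 25510466)) p15_12_0 (nat_lit 4) (nat_lit 90) (nat_lit 91) = true := by decide +kernel
def p15_12_0_91 : pfC (piC [(nat_lit 42686981), (nat_lit 27030628), (nat_lit 20024807), (nat_lit 13470738)] (nat_lit 25510466)) p15_12_0 (nat_lit 4) (nat_lit 91) (nat_lit 92) = true := by decide +kernel
def p15_12_0_92 : pfC (piC [(nat_lit 42686981), (nat_lit 27030628), (nat_lit 20024807), (nat_lit 13470738)] (nat_lit 25510466)) p15_12_0 (nat_lit 4) (nat_lit 92) (nat_lit 93) = true := by decide +kernel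
def p15_12_0_93 : pfC (piC [(nat_lit 42686981), (nat_lit 27030628), (nat_lit 20024807), (nat_lit 13470738)] (nat_lit 25510466)) p15_12_0 (nat_lit 4) (nat_lit 93) (nat_lit 94) = true := by decide +kernel
def p15_12_0_94 : pfC (piC [(nat_lit 42686981), (nat_lit 27030628), (nat_lit 20024807), (nat_lit 13470738)] (nat_lit 25510466)) p15_12_0 (nat_lit 4) (nat_lit 94) (nat_lit 95) = true := by decide +kernel
def p15_12_0_95 : pfC (piC [(nat_lit 42686981), (nat_lit 27030628), (nat_lit 20024807), (nat_lit 13470738)] (nat_lit 25510466)) p15_12_0 (nat_lit 4) (nat_lit 95) (nat_lit 96) = true := by decide +kernel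
def p15_12_0_96 : pfC (piC [(nat_lit 42686981), (nat_lit 27030628), (nat_lit 20024807), (nat_lit 13470738)] (nat_lit 25510466)) p15_12_0 (nat_lit 4) (nat_lit 96) (nat_lit 97) = true := by decide +kernel
def p15_12_0_97 : pfC (piC [(nat_lit 42686981), (nat_lit 27030628), (nat_lit 20024807), (nat_lit 13470738)] (nat_lit 25510466)) p15_12_0 (nat_lit 4) (nat_lit 97) (nat_lit 98) = true := by decide +kernel
def p15_12_0_98 : pfC (piC [(nat_lit 42686981), (nat_lit 27030628), (nat_lit 20024807), (nat_lit 13470738)] (nat_lit 25510466)) p15_12_0 (nat_lit 4) (nat_lit 98) (nat_lit 99) = true := by decide +kernel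
def p15_12_0_99 : pfC (piC [(nat_lit 42686981), (nat_lit 27030628), (nat_lit 20024807), (nat_lit 13470738)] (nat_lit 25510466)) p15_12_0 (nat_lit 4) (nat_lit 99) (nat_lit 100) = true := by decide +kernel
def p15_12_0_100 : pfC (piC [(nat_lit 42686981), (nat_lit 27030628), (nat_lit 20024807), (nat_lit 13470738)] (nat_lit 25510466)) p15_12_0 (nat_lit 4) (nat_lit 100) (nat_lit 101) = true := by decide +kernel
def p15_12_0_101 : pfC (piC [(nat_lit 42686981), (nat_lit 27030628), (nat_lit 20024807), (nat_lit 13470738)] (nat_lit 25510466)) p15_12_0 (nat_lit 4) (nat_lit 101) (nat_lit 102) = true := by decide +kernel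
def p15_12_0_102 : pfC (piC [(nat_lit 42686981), (nat_lit 27030628), (nat_lit 20024807), (nat_lit 13470738)] (nat_lit 25510466)) p15_12_0 (nat_lit 4) (nat_lit 102) (nat_lit 103) = true := by decide +kernel
def p15_12_0_103 : pfC (piC [(nat_lit 42686981), (nat_lit 27030628), (nat_lit 20024807), (nat_lit 13470738)] (nat_lit 25510466)) p15_12_0 (nat_lit 4) (nat_lit 103) (nat_lit 104) = true := by decide +kernel
def p15_12_0_104 : pfC (piC [(nat_lit 42686981), (nat_lit 27030628), (nat_lit 20024807), (nat_lit 13470738)] (nat_lit 25510466)) p15_12_0 (nat_lit 4) (nat_lit 104) (nat_lit 105) = true := by decide +kernel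
def p15_12_0_105 : pfC (piC [(nat_lit 42686981), (nat_lit 27030628), (nat_lit 20024807), (nat_lit 13470738)] (nat_lit 25510466)) p15_12_0 (nat_lit 4) (nat_lit 105) (nat_lit 106) = true := by decide +kernel
def p15_12_0_106 : pfC (piC [(nat_lit 42686981), (nat_lit 27030628), (nat_lit 20024807), (nat_lit 13470738)] (nat_lit 25510466)) p15_12_0 (nat_lit 4) (nat_lit 106) (nat_lit 107) = true := by decide +kernel
def p15_12_0_107 : pfC (piC [(nat_lit 42686981), (nat_lit 27030628), (nat_lit 20024807), (nat_lit 13470738)] (nat_lit 25510466)) p15_12_0 (nat_lit 4) (nat_lit 107) (nat_lit 108) = true := by decide +kernel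
def p15_12_0_108 : pfC (piC [(nat_lit 42686981), (nat_lit 27030628), (nat_lit 20024807), (nat_lit 13470738)] (nat_lit 25510466)) p15_12_0 (nat_lit 4) (nat_lit 108) (nat_lit 109) = true := by decide +kernel
def p15_12_0_109 : pfC (piC [(nat_lit 42686981), (nat_lit 27030628), (nat_lit 20024807), (nat_lit 13470738)] (nat_lit 25510466)) p15_12_0 (nat_lit 4) (nat_lit 109) (nat_lit 110) = true := by decide +kernel
def p15_12_0_110 : pfC (piC [(nat_lit 42686981), (nat_lit 27030628), (nat_lit 20024807), (nat_lit 13470738)] (nat_lit 25510466)) p15_12_0 (nat_lit 4) (nat_lit 110) (nat_lit 111) = true := by decide +kernel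
def p15_12_0_111 : pfC (piC [(nat_lit 42686981), (nat_lit 27030628), (nat_lit 20024807), (nat_lit 13470738)] (nat_lit 25510466)) p15_12_0 (nat_lit 4) (nat_lit 111) (nat_lit 112) = true := by decide +kernel
def p15_12_0_112 : pfC (piC [(nat_lit 42686981), (nat_lit 27030628), (nat_lit 20024807), (nat_lit 13470738)] (nat_lit 25510466)) p15_12_0 (nat_lit 4) (nat_lit 112) (nat_lit 113) = true := by decide +kernel
def p15_12_0_113 : pfC (piC [(nat_lit 42686981), (nat_lit 27030628), (nat_lit 20024807), (nat_lit 13470738)] (nat_lit 25510466)) p15_12_0 (nat_lit 4) (nat_lit 113) (nat_lit 114) = true := by decide +kernel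
def p15_12_0_114 : pfC (piC [(nat_lit 42686981), (nat_lit 27030628), (nat_lit 20024807), (nat_lit 13470738)] (nat_lit 25510466)) p15_12_0 (nat_lit 4) (nat_lit 114) (nat_lit 115) = true := by decide +kernel
def p15_12_0_115 : pfC (piC [(nat_lit 42686981), (nat_lit 27030628), (nat_lit 20024807), (nat_lit 13470738)] (nat_lit 25510466)) p15_12_0 (nat_lit 4) (nat_lit 115) (nat_lit 116) = true := by decide +kernel
def p15_12_0_116 : pfC (piC [(nat_lit 42686981), (nat_lit 27030628), (nat_lit 20024807), (nat_lit 13470738)] (nat_lit 25510466)) p15_12_0 (nat_lit 4) (nat_lit 116) (nat_lit 117) = true := by decide +kernel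
def p15_12_0_117 : pfC (piC [(nat_lit 42686981), (nat_lit 27030628), (nat_lit 20024807), (nat_lit 13470738)] (nat_lit 25510466)) p15_12_0 (nat_lit 4) (nat_lit 117) (nat_lit 118) = true := by decide +kernel
def p15_12_0_118 : pfC (piC [(nat_lit 42686981), (nat_lit 27030628), (nat_lit 20024807), (nat_lit 13470738)] (nat_lit 25510466)) p15_12_0 (nat_lit 4) (nat_lit 118) (nat_lit 119) = true := by decide +kernel
def p15_12_0_119 : pfC (piC [(nat_lit 42686981), (nat_lit 27030628), (nat_lit 20024807), (nat_lit 13470738)] (nat_lit 25510466)) p15_12_0 (nat_lit 4) (nat_lit 119) (nat_lit 120) = true := by decide +kernel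
def p15_12_0_120 : pfC (piC [(nat_lit 42686981), (nat_lit 27030628), (nat_lit 20024807), (nat_lit 13470738)] (nat_lit 25510466)) p15_12_0 (nat_lit 4) (nat_lit 120) (nat_lit 121) = true := by decide +kernel
def p15_12_0_121 : pfC (piC [(nat_lit 42686981), (nat_lit 27030628), (nat_lit 20024807), (nat_lit 13470738)] (nat_lit 25510466)) p15_12_0 (nat_lit 4) (nat_lit 121) (nat_lit 122) = true := by decide +kernel
def p15_12_0_122 : pfC (piC [(nat_lit 42686981), (nat_lit 27030628), (nat_lit 20024807), (nat_lit 13470738)] (nat_lit 25510466)) p15_12_0 (nat_lit 4) (nat_lit 122) (nat_lit 123) = true := by decide +kernel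
def p15_12_0_123 : pfC (piC [(nat_lit 42686981), (nat_lit 27030628), (nat_lit 20024807), (nat_lit 13470738)] (nat_lit 25510466)) p15_12_0 (nat_lit 4) (nat_lit 123) (nat_lit 124) = true := by decide +kernel
def p15_12_0_124 : pfC (piC [(nat_lit 42686981), (nat_lit 27030628), (nat_lit 20024807), (nat_lit 13470738)] (nat_lit 25510466)) p15_12_0 (nat_lit 4) (nat_lit 124) (nat_lit 125) = true := by decide +kernel
def p15_12_0_125 : pfC (piC [(nat_lit 42686981), (nat_lit 27030628), (nat_lit 20024807), (nat_lit 13470738)] (nat_lit 25510466)) p15_12_0 (nat_lit 4) (nat_lit 125) (nat_lit 126) = true := by decide +kernel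
def p15_12_0_126 : pfC (piC [(nat_lit 42686981), (nat_lit 27030628), (nat_lit 20024807), (nat_lit 13470738)] (nat_lit 25510466)) p15_12_0 (nat_lit 4) (nat_lit 126) (nat_lit 127) = true := by decide +kernel
def p15_12_0_127 : pfC (piC [(nat_lit 42686981), (nat_lit 27030628), (nat_lit 20024807), (nat_lit 13470738)] (nat_lit 25510466)) p15_12_0 (nat_lit 4) (nat_lit 127) (nat_lit 128) = true := by decide +kernel
def p15_12_0_128 : pfC (piC [(nat_lit 42686981), (nat_lit 27030628), (nat_lit 20024807), (nat_lit 13470738)] (nat_lit 25510466)) p15_12_0 (nat_lit 4) (nat_lit 128) (nat_lit 129) = true := by decide +kernel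
def p15_12_0_129 : pfC (piC [(nat_lit 42686981), (nat_lit 27030628), (nat_lit 20024807), (nat_lit 13470738)] (nat_lit 25510466)) p15_12_0 (nat_lit 4) (nat_lit 129) (nat_lit 130) = true := by decide +kernel
theorem p15_12_0_T : PfS (PiF n15_12.reverse (nat_lit 25510466)) p15_12_0 (nat_lit 4) [] 0 :=
  pftab_of (los := [(nat_lit 42686981), (nat_lit 27030628), (nat_lit 20024807), (nat_lit 13470738)]) (by decide +kernel) (hi := (nat_lit 130)) (PfP.trans (PfP.trans (PfP.trans (PfP.trans (PfP.trans (PfP.trans (PfP.trans (PfP.trans (PfP.trans (PfP.trans (PfP.trans (PfP.trans (PfP.trans (PfP.trans (PfP.trans (PfP.trans (PfP.trans (PfP.trans (PfP.trans (PfP.trans (PfP.trans (PfP.trans (PfP.trans (PfP.trans (PfP.trans (PfP.trans (PfP.trans (PfP.trans (PfP.trans (PfP.trans (PfP.trans (PfP.trans (PfP.trans (PfP.trans (PfP.trans (PfP.trans (PfP.trans (PfP.trans (PfP.trans (PfP.trans (PfP.trans (PfP.trans (PfP.trans (PfP.trans (PfP.trans (PfP.trans (PfP.trans (PfP.trans (PfP.trans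 (PfP.trans (PfP.trans (PfP.trans (PfP.trans (PfP.trans (PfP.trans (PfP.trans (PfP.trans (PfP.trans (PfP.trans (PfP.trans (PfP.trans (PfP.trans (PfP.trans (PfP.trans (PfP.trans (PfP.trans (PfP.trans (PfP.trans (PfP.trans (PfP.trans (PfP.trans (PfP.trans (PfP.trans (PfP.trans (PfP.trans (PfP.trans (PfP.trans (PfP.trans (PfP.trans (PfP.trans (PfP.trans (PfP.trans (PfP.trans (PfP.trans (PfP.trans (PfP.trans (PfP.trans (PfP.trans (PfP.trans (PfP.trans (PfP.trans (PfP.trans (PfP.trans (PfP.trans (PfP.trans (PfP.trans (PfP.trans (PfP.trans (PfP.trans (PfP.trans (PfP.trans (PfP.trans (PfP.trans (PfP.trans (PfP.trans (PfP.trans (PfP.trans (PfP.trans (PfP.trans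
 (PfP.trans (PfP.trans (PfP.trans (PfP.trans (PfP.trans (PfP.trans (PfP.trans (PfP.trans (PfP.trans (PfP.trans (PfP.trans (PfP.trans (PfP.trans (PfP.trans (PfP.trans (PfP.trans (PfP.trans (PfP.trans (PfP.trans (PfP.trans (pfC_sound p15_12_0_0) (pfC_sound p15_12_0_1)) (pfC_sound p15_12_0_2)) (pfC_sound p15_12_0_3)) (pfC_sound p15_12_0_4)) (pfC_sound p15_12_0_5)) (pfC_sound p15_12_0_6)) (pfC_sound p15_12_0_7)) (pfC_sound p15_12_0_8)) (pfC_sound p15_12_0_9)) (pfC_sound p15_12_0_10)) (pfC_sound p15_12_0_11)) (pfC_sound p15_12_0_12)) (pfC_sound p15_12_0_13)) (pfC_sound p15_12_0_14)) (pfC_sound p15_12_0_15)) (pfC_sound p15_12_0_16)) (pfC_sound p15_12_0_17)) (pfC_sound p15_12_0_18)) (pfC_sound p15_12_0_19)) (pfC_sound p15_12_0_20)) (pfC_sound p15_12_0_21)) (pfC_sound p15_12_0_22)) (pfC_sound p15_12_0_23)) (pfC_sound p15_12_0_24)) (pfC_sound p15_12_0_25)) (pfC_sound p15_12_0_26)) (pfC_sound p15_12_0_27)) (pfC_sound p15_12_0_28)) (pfC_sound p15_12_0_29)) (pfC_sound p15_12_0_30))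 (pfC_sound p15_12_0_31)) (pfC_sound p15_12_0_32)) (pfC_sound p15_12_0_33)) (pfC_sound p15_12_0_34)) (pfC_sound p15_12_0_35)) (pfC_sound p15_12_0_36)) (pfC_sound p15_12_0_37)) (pfC_sound p15_12_0_38)) (pfC_sound
 p15_12_0_39)) (pfC_sound p15_12_0_40)) (pfC_sound p15_12_0_41)) (pfC_sound p15_12_0_42)) (pfC_sound p15_12_0_43)) (pfC_sound p15_12_0_44)) (pfC_sound p15_12_0_45)) (pfC_sound p15_12_0_46)) (pfC_sound p15_12_0_47)) (pfC_sound p15_12_0_48)) (pfC_sound p15_12_0_49)) (pfC_sound p15_12_0_50)) (pfC_sound p15_12_0_51)) (pfC_sound p15_12_0_52)) (pfC_sound p15_12_0_53)) (pfC_sound p15_12_0_54)) (pfC_sound p15_12_0_55)) (pfC_sound p15_12_0_56)) (pfC_sound p15_12_0_57)) (pfC_sound p15_12_0_58)) (pfC_sound p15_12_0_59)) (pfC_sound p15_12_0_60)) (pfC_sound p15_12_0_61)) (pfC_sound p15_12_0_62)) (pfC_sound p15_12_0_63)) (pfC_sound p15_12_0_64)) (pfC_sound p15_12_0_65)) (pfC_sound p15_12_0_66)) (pfC_sound p15_12_0_67)) (pfC_sound p15_12_0_68)) (pfC_sound p15_12_0_69))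 (pfC_sound p15_12_0_70)) (pfC_sound p15_12_0_71)) (pfC_sound p15_12_0_72)) (pfC_sound p15_12_0_73)) (pfC_sound p15_12_0_74)) (pfC_sound p15_12_0_75)) (pfC_sound p15_12_0_76)) (pfC_sound p15_12_0_77)) (pfC_sound p15_12_0_78)) (pfC_sound p15_12_0_79)) (pfC_sound p15_12_0_80)) (pfC_sound p15_12_0_81)) (pfC_sound p15_12_0_82)) (pfC_sound p15_12_0_83)) (pfC_sound p15_12_0_84)) (pfC_sound p15_12_0_85)) (pfC_sound p15_12_0_86)) (pfC_sound
 p15_12_0_87)) (pfC_sound p15_12_0_88)) (pfC_sound p15_12_0_89)) (pfC_sound p15_12_0_90)) (pfC_sound p15_12_0_91)) (pfC_sound p15_12_0_92)) (pfC_sound p15_12_0_93)) (pfC_sound p15_12_0_94)) (pfC_sound p15_12_0_95)) (pfC_sound p15_12_0_96)) (pfC_sound p15_12_0_97)) (pfC_sound p15_12_0_98)) (pfC_sound p15_12_0_99)) (pfC_sound p15_12_0_100)) (pfC_sound p15_12_0_101)) (pfC_sound p15_12_0_102)) (pfC_sound p15_12_0_103)) (pfC_sound p15_12_0_104)) (pfC_sound p15_12_0_105)) (pfC_sound p15_12_0_106)) (pfC_sound p15_12_0_107)) (pfC_sound p15_12_0_108))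 (pfC_sound p15_12_0_109)) (pfC_sound p15_12_0_110)) (pfC_sound p15_12_0_111)) (pfC_sound p15_12_0_112)) (pfC_sound p15_12_0_113)) (pfC_sound p15_12_0_114)) (pfC_sound p15_12_0_115)) (pfC_sound p15_12_0_116)) (pfC_sound p15_12_0_117)) (pfC_sound p15_12_0_118)) (pfC_sound p15_12_0_119)) (pfC_sound p15_12_0_120)) (pfC_sound p15_12_0_121)) (pfC_sound p15_12_0_122)) (pfC_sound p15_12_0_123)) (pfC_sound p15_12_0_124)) (pfC_sound p15_12_0_125)) (pfC_sound p15_12_0_126)) (pfC_sound p15_12_0_127)) (pfC_sound p15_12_0_128)) (pfC_sound p15_12_0_129)) (by decide +kernel)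

def z15_12_0 : zOK yB15_12 (nat_lit 0) (nat_lit 0) (nat_lit 400) (nat_lit 25510466) (nat_lit 10106016) = true := by decide +kernel
def g15_12_0 : gOK yB15_12.x P15_12 (nat_lit 1429) (q15_12 :: r15_12) (nat_lit 0) (nat_lit 0) (nat_lit 1) (nat_lit 400) (nat_lit 0) (nat_lit 11000000) (nat_lit 12712500) (nat_lit 12712500) [(nat_lit 800), (nat_lit 1400), (nat_lit 1530)] = true := by decide +kernel
def v15_12_0 : ivC P15_12 s15_12 w15_12 n15_12 (nat_lit 4) (nat_lit 5480) (nat_lit 0) (nat_lit 0) f144_1_0 f152_1_0 (nat_lit 1) (nat_lit 400) f144_1_400 f152_1_400 (nat_lit 25510466) (nat_lit 10106016) p15_12_0 = true := by decide +kernel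
def p15_12_1 : PF := (PF.cons (PF.cons (PF.cons (PF.cons (PF.leaf (nat_lit 2187038) (nat_lit 10646148) (nat_lit 56462664) (nat_lit 10646148) [(nat_lit 0), (nat_lit 0), (nat_lit 0), (nat_lit 0)]) (PF.cons (PF.leaf (nat_lit 2304438) (nat_lit 191344) (nat_lit 56258740) (nat_lit 10658727) [(nat_lit 191344), (nat_lit 0), (nat_lit 0), (nat_lit 0)]) (PF.cons (PF.leaf (nat_lit 2446071) (nat_lit 208414) (nat_lit 56019426) (nat_lit 10672557) [(nat_lit 208414), (nat_lit 0), (nat_lit 0), (nat_lit 0)]) (PF.cons (PF.leaf (nat_lit 2605537) (nat_lit 223698) (nat_lit 55750790) (nat_lit 10686925) [(nat_lit 223698), (nat_lit 0), (nat_lit 0), (nat_lit 0)]) (PF.cons (PF.leaf (nat_lit 2780518) (nat_lit 237615) (nat_lit 55457073) (nat_lit 10701277) [(nat_lit 237615), (nat_lit 0), (nat_lit 0), (nat_lit 0)]) (PF.cons (PF.leaf (nat_lit 2969214) (nat_lit 250427) (nat_lit 55141508) (nat_lit 10715166) [(nat_lit 250427), (nat_lit 0), (nat_lit 0), (nat_lit 0)]) (PF.cons PF.nil (PF.cons PF.nil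 (PF.cons PF.nil PF.nil))))))))) (PF.cons (PF.cons (PF.leaf (nat_lit 2667832) (nat_lit 1054473) (nat_lit 55352855) (nat_lit 10701483) [(nat_lit 0), (nat_lit 1054473), (nat_lit 0), (nat_lit 0)]) (PF.cons (PF.leaf (nat_lit 2824531) (nat_lit
 235485) (nat_lit 55081287) (nat_lit 10713031) [(nat_lit 235485), (nat_lit 1079009), (nat_lit 0), (nat_lit 0)]) (PF.cons (PF.leaf (nat_lit 2999644) (nat_lit 248812) (nat_lit 54783258) (nat_lit 10724409) [(nat_lit 248812), (nat_lit 1103519), (nat_lit 0), (nat_lit 0)]) (PF.cons (PF.leaf (nat_lit 3188884) (nat_lit 261025) (nat_lit 54462976) (nat_lit 10735167) [(nat_lit 261025), (nat_lit 1127592), (nat_lit 0), (nat_lit 0)]) (PF.cons (PF.leaf (nat_lit 3390768) (nat_lit 272327) (nat_lit 54123555) (nat_lit 10744952) [(nat_lit 272327), (nat_lit 1150995), (nat_lit 0), (nat_lit 0)]) (PF.cons PF.nil (PF.cons PF.nil PF.nil))))))) (PF.cons (PF.cons (PF.leaf (nat_lit 3224344) (nat_lit 1139468) (nat_lit 54088625) (nat_lit 10741250) [(nat_lit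 0), (nat_lit 1139468), (nat_lit 0), (nat_lit 0)]) (PF.cons (PF.leaf (nat_lit 3411141) (nat_lit 270278) (nat_lit 53767856) (nat_lit 10748822) [(nat_lit 270278), (nat_lit 1160927), (nat_lit 0), (nat_lit 0)]) (PF.cons (PF.leaf (nat_lit 3612494) (nat_lit 281167) (nat_lit 53427179) (nat_lit 10755332) [(nat_lit 281167), (nat_lit 1181982), (nat_lit 0), (nat_lit 0)]) (PF.cons PF.nil (PF.cons PF.nil PF.nil))))) (PF.cons (PF.cons (PF.leaf (nat_lit 3837250) (nat_lit
 1210140) (nat_lit 52719005) (nat_lit 10759384) [(nat_lit 0), (nat_lit 1210140), (nat_lit 0), (nat_lit 0)]) (PF.cons (PF.leaf (nat_lit 4047518) (nat_lit 298703) (nat_lit 52362888) (nat_lit 10761312) [(nat_lit 298703), (nat_lit 1228636), (nat_lit 0), (nat_lit 0)]) (PF.cons PF.nil (PF.cons PF.nil PF.nil)))) (PF.cons (PF.cons (PF.leaf (nat_lit 4491752) (nat_lit 1268715) (nat_lit 51280710) (nat_lit 10753239) [(nat_lit 0), (nat_lit 1268715), (nat_lit 0), (nat_lit 0)]) (PF.cons PF.nil PF.nil)) (PF.cons PF.nil PF.nil))))))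 (PF.cons (PF.cons (PF.cons (PF.leaf (nat_lit 3222362) (nat_lit 2944113) (nat_lit 53434885) (nat_lit 10729814) [(nat_lit 0), (nat_lit 0), (nat_lit 2944113), (nat_lit 0)]) (PF.cons (PF.leaf (nat_lit 3388872) (nat_lit 256209) (nat_lit 53150882) (nat_lit 10734446) [(nat_lit 256209), (nat_lit 0), (nat_lit 2967274), (nat_lit 0)]) (PF.cons (PF.leaf (nat_lit 3572939) (nat_lit 268952) (nat_lit 52841563) (nat_lit 10738286) [(nat_lit 268952), (nat_lit 0), (nat_lit 2991057), (nat_lit 0)]) (PF.cons (PF.leaf (nat_lit 3770633) (nat_lit 280456) (nat_lit 52511487) (nat_lit 10741033) [(nat_lit 280456), (nat_lit 0), (nat_lit 3014923), (nat_lit 0)]) (PF.cons PF.nil PF.nil))))) (PF.cons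
 (PF.cons (PF.leaf (nat_lit 3797110) (nat_lit 1199930) (nat_lit 52139531) (nat_lit 10738035) [(nat_lit 0), (nat_lit 1199930), (nat_lit 3031314), (nat_lit 0)]) (PF.cons (PF.leaf (nat_lit 3991177) (nat_lit 287847) (nat_lit 51812350) (nat_lit 10737918) [(nat_lit 287847), (nat_lit 1218282), (nat_lit 3052413), (nat_lit 0)]) (PF.cons (PF.leaf (nat_lit 4198813) (nat_lit 298052) (nat_lit 51466748) (nat_lit 10736409) [(nat_lit 298052), (nat_lit 1236190), (nat_lit 3073358), (nat_lit 0)]) (PF.cons PF.nil PF.nil)))) (PF.cons (PF.cons (PF.leaf (nat_lit 4419979) (nat_lit 1258595) (nat_lit 50762482) (nat_lit 10724673) [(nat_lit 0), (nat_lit 1258595), (nat_lit 3104466), (nat_lit 0)]) (PF.cons (PF.leaf (nat_lit 4634947) (nat_lit 313311) (nat_lit 50405620) (nat_lit 10718818) [(nat_lit 313311), (nat_lit 1274248), (nat_lit 3122564), (nat_lit 0)]) PF.nil)) (PF.cons PF.nil (PF.cons PF.nil PF.nil))))) (PF.cons (PF.cons (PF.cons (PF.leaf (nat_lit 4363223) (nat_lit 3099249) (nat_lit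 50216753) (nat_lit 10693560) [(nat_lit 0), (nat_lit 0), (nat_lit 3099249), (nat_lit 0)]) (PF.cons (PF.leaf (nat_lit 4562274) (nat_lit 302135) (nat_lit 49888445) (nat_lit 10686629) [(nat_lit 302135), (nat_lit 0), (nat_lit
 3115801), (nat_lit 0)]) (PF.cons (PF.leaf (nat_lit 4774277) (nat_lit 311704) (nat_lit 49543132) (nat_lit 10678090) [(nat_lit 311704), (nat_lit 0), (nat_lit 3132090), (nat_lit 0)]) (PF.cons PF.nil PF.nil)))) (PF.cons (PF.cons (PF.leaf (nat_lit 4990456) (nat_lit 1295503) (nat_lit 48851210) (nat_lit 10653075) [(nat_lit 0), (nat_lit 1295503), (nat_lit 3154511), (nat_lit 0)]) (PF.cons PF.nil PF.nil)) (PF.cons PF.nil PF.nil))) (PF.cons (PF.cons (PF.cons (PF.leaf (nat_lit 5546188) (nat_lit 3185846) (nat_lit 46999713) (nat_lit 10551561) [(nat_lit 0), (nat_lit 0), (nat_lit 3185846), (nat_lit 0)]) (PF.cons PF.nil PF.nil)) (PF.cons PF.nil PF.nil)) (PF.cons PF.nil (PF.cons PF.nil PF.nil)))))) (PF.cons (PF.cons (PF.cons (PF.cons (PF.leaf (nat_lit 4132024)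 (nat_lit 7756387) (nat_lit 48819283) (nat_lit 10533142) [(nat_lit 0), (nat_lit 0), (nat_lit 0), (nat_lit 7756387)]) (PF.cons (PF.leaf (nat_lit 4300169) (nat_lit 269049) (nat_lit 48553388) (nat_lit 10526307) [(nat_lit 269049), (nat_lit 0), (nat_lit 0), (nat_lit 7760067)]) (PF.cons (PF.leaf (nat_lit 4485103) (nat_lit 281357) (nat_lit 48264934) (nat_lit 10518005) [(nat_lit 281357), (nat_lit 0), (nat_lit 0), (nat_lit 7763158)]) (PF.cons (PF.leaf
 (nat_lit 4682617) (nat_lit 292279) (nat_lit 47958335) (nat_lit 10508192) [(nat_lit 292279), (nat_lit 0), (nat_lit 0), (nat_lit 7765446)]) (PF.cons (PF.leaf (nat_lit 4890886) (nat_lit 302106) (nat_lit 47636786) (nat_lit 10496825) [(nat_lit 302106), (nat_lit 0), (nat_lit 0), (nat_lit 7766773)]) (PF.cons PF.nil (PF.cons PF.nil PF.nil))))))) (PF.cons (PF.cons (PF.leaf (nat_lit 4697633) (nat_lit 1235084) (nat_lit 47619514) (nat_lit 10492184) [(nat_lit 0), (nat_lit 1235084), (nat_lit 0), (nat_lit 7762029)]) (PF.cons (PF.leaf (nat_lit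 4890537) (nat_lit 297937) (nat_lit 47317769) (nat_lit 10480493) [(nat_lit 297937), (nat_lit 1250317), (nat_lit 0), (nat_lit 7762294)]) (PF.cons (PF.leaf (nat_lit 5096033) (nat_lit 307479) (nat_lit 47000112) (nat_lit 10467178) [(nat_lit 307479), (nat_lit 1264982), (nat_lit 0), (nat_lit 7761580)]) (PF.cons (PF.leaf (nat_lit 5311272) (nat_lit 316096) (nat_lit 46669523) (nat_lit 10452239) [(nat_lit 316096), (nat_lit 1278977), (nat_lit 0), (nat_lit 7759781)]) (PF.cons PF.nil PF.nil))))) (PF.cons (PF.cons (PF.leaf (nat_lit 5302805) (nat_lit 1281128) (nat_lit 46360525) (nat_lit 10433421) [(nat_lit 0), (nat_lit 1281128), (nat_lit 0), (nat_lit 7752609)]) (PF.cons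
 (PF.leaf (nat_lit 5513874) (nat_lit 320409) (nat_lit 46035400) (nat_lit 10416710) [(nat_lit 320409), (nat_lit 1293686), (nat_lit 0), (nat_lit 7748918)]) (PF.cons (PF.leaf (nat_lit 5734701) (nat_lit 328032) (nat_lit 45699023) (nat_lit 10398351) [(nat_lit 328032), (nat_lit 1305651), (nat_lit 0), (nat_lit 7744070)]) (PF.cons PF.nil PF.nil)))) (PF.cons (PF.cons (PF.leaf (nat_lit 5934918) (nat_lit 1317546) (nat_lit 45070712) (nat_lit 10357464) [(nat_lit 0), (nat_lit 1317546), (nat_lit 0), (nat_lit 7727994)]) (PF.cons PF.nil PF.nil)) (PF.cons PF.nil PF.nil))))) (PF.cons (PF.cons (PF.cons (PF.leaf (nat_lit 5227139) (nat_lit 3108538) (nat_lit 45883996) (nat_lit 10390282) [(nat_lit 0), (nat_lit 0), (nat_lit 3108538), (nat_lit 7725995)]) (PF.cons (PF.leaf (nat_lit 5423016) (nat_lit 308481) (nat_lit 45585222) (nat_lit 10373929) [(nat_lit 308481), (nat_lit 0), (nat_lit 3119364), (nat_lit 7721814)]) (PF.cons (PF.leaf (nat_lit 5630866) (nat_lit 317404) (nat_lit 45271792)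 (nat_lit 10355858) [(nat_lit 317404), (nat_lit 0), (nat_lit 3129811), (nat_lit 7716541)]) (PF.cons (PF.leaf (nat_lit 5847828) (nat_lit 325387) (nat_lit 44946656) (nat_lit 10336135) [(nat_lit 325387), (nat_lit 0), (nat_lit
 3139724), (nat_lit 7710134)]) (PF.cons PF.nil PF.nil))))) (PF.cons (PF.cons (PF.leaf (nat_lit 5831915) (nat_lit 1304326) (nat_lit 44650091) (nat_lit 10313633) [(nat_lit 0), (nat_lit 1304326), (nat_lit 3141523), (nat_lit 7699238)]) (PF.cons (PF.leaf (nat_lit 6044219) (nat_lit 328639) (nat_lit 44331599) (nat_lit 10292526) [(nat_lit 328639), (nat_lit 1314876), (nat_lit 3149881), (nat_lit 7691288)]) (PF.cons PF.nil (PF.cons PF.nil PF.nil)))) (PF.cons (PF.cons (PF.leaf (nat_lit 6459073) (nat_lit 1333700) (nat_lit 43396339) (nat_lit 10221779) [(nat_lit 0), (nat_lit 1333700), (nat_lit 3164308), (nat_lit 7658984)]) (PF.cons PF.nil PF.nil)) PF.nil))) (PF.cons (PF.cons (PF.cons (PF.leaf (nat_lit 6345821) (nat_lit 3149613) (nat_lit 43005714) (nat_lit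 10175976) [(nat_lit 0), (nat_lit 0), (nat_lit 3149613), (nat_lit 7627895)]) (PF.cons (PF.leaf (nat_lit 6558281) (nat_lit 334952) (nat_lit 42695719) (nat_lit 10151270) [(nat_lit 334952), (nat_lit 0), (nat_lit 3155235), (nat_lit 7616399)]) PF.nil)) (PF.cons PF.nil PF.nil)) (PF.cons PF.nil (PF.cons PF.nil PF.nil))))) (PF.cons (PF.cons (PF.cons (PF.cons (PF.leaf (nat_lit 6003139) (nat_lit 7505914) (nat_lit 42077449) (nat_lit 10019534) [(nat_lit 0),
 (nat_lit 0), (nat_lit 0), (nat_lit 7505914)]) (PF.cons (PF.leaf (nat_lit 6194346) (nat_lit 310011) (nat_lit 41808625) (nat_lit 9997811) [(nat_lit 310011), (nat_lit 0), (nat_lit 0), (nat_lit 7496182)]) (PF.cons (PF.leaf (nat_lit 6396785) (nat_lit 318357) (nat_lit 41527109) (nat_lit 9974365) [(nat_lit 318357), (nat_lit 0), (nat_lit 0), (nat_lit 7485311)]) (PF.cons (PF.leaf (nat_lit 6607609) (nat_lit 325740) (nat_lit 41235574) (nat_lit 9949344) [(nat_lit 325740), (nat_lit 0), (nat_lit 0), (nat_lit 7473335)]) (PF.cons PF.nil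 PF.nil))))) (PF.cons (PF.cons (PF.leaf (nat_lit 6583938) (nat_lit 1296150) (nat_lit 40973312) (nat_lit 9922967) [(nat_lit 0), (nat_lit 1296150), (nat_lit 0), (nat_lit 7458191)]) (PF.cons (PF.leaf (nat_lit 6789780) (nat_lit 327997) (nat_lit 40688459) (nat_lit 9897184) [(nat_lit 327997), (nat_lit 1304704), (nat_lit 0), (nat_lit 7445234)]) (PF.cons PF.nil (PF.cons PF.nil PF.nil)))) (PF.cons (PF.cons (PF.leaf (nat_lit 7182996) (nat_lit 1318342) (nat_lit 39857008) (nat_lit 9814886) [(nat_lit 0), (nat_lit 1318342), (nat_lit 0), (nat_lit 7400116)]) (PF.cons PF.nil PF.nil)) PF.nil))) (PF.cons (PF.cons (PF.cons (PF.leaf (nat_lit 7060738) (nat_lit 3086016) (nat_lit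
 39520666) (nat_lit 9768014) [(nat_lit 0), (nat_lit 0), (nat_lit 3086016), (nat_lit 7367057)]) (PF.cons (PF.leaf (nat_lit 7266020) (nat_lit 332273) (nat_lit 39244569) (nat_lit 9739947) [(nat_lit 332273), (nat_lit 0), (nat_lit 3088597), (nat_lit 7351712)]) PF.nil)) (PF.cons PF.nil PF.nil)) (PF.cons PF.nil PF.nil))) (PF.cons (PF.cons (PF.cons (PF.cons (PF.leaf (nat_lit 7705672) (nat_lit 7091628) (nat_lit 36479353) (nat_lit 9354573) [(nat_lit 0), (nat_lit 0), (nat_lit 0), (nat_lit 7091628)]) (PF.cons PF.nil PF.nil)) (PF.cons PF.nil PF.nil)) (PF.cons PF.nil PF.nil)) (PF.cons PF.nil (PF.cons PF.nil (PF.cons PF.nil (PF.cons PF.nil PF.nil))))))))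

def p15_12_1_0 : pfC (piC [(nat_lit 42686981), (nat_lit 27030628), (nat_lit 20024807), (nat_lit 13470738)] (nat_lit 10106016)) p15_12_1 (nat_lit 4) (nat_lit 0) (nat_lit 1) = true := by decide +kernel
def p15_12_1_1 : pfC (piC [(nat_lit 42686981), (nat_lit 27030628), (nat_lit 20024807), (nat_lit 13470738)] (nat_lit 10106016)) p15_12_1 (nat_lit 4) (nat_lit 1) (nat_lit 2) = true := by decide +kernel
def p15_12_1_2 : pfC (piC [(nat_lit 42686981), (nat_lit 27030628), (nat_lit 20024807), (nat_lit 13470738)] (nat_lit 10106016)) p15_12_1 (nat_lit 4) (nat_lit 2) (nat_lit 3) = true := by decide +kernel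
def p15_12_1_3 : pfC (piC [(nat_lit 42686981), (nat_lit 27030628), (nat_lit 20024807), (nat_lit 13470738)] (nat_lit 10106016)) p15_12_1 (nat_lit 4) (nat_lit 3) (nat_lit 4) = true := by decide +kernel
def p15_12_1_4 : pfC (piC [(nat_lit 42686981), (nat_lit 27030628), (nat_lit 20024807), (nat_lit 13470738)] (nat_lit 10106016)) p15_12_1 (nat_lit 4) (nat_lit 4) (nat_lit 5) = true := by decide +kernel
def p15_12_1_5 : pfC (piC [(nat_lit 42686981), (nat_lit 27030628), (nat_lit 20024807), (nat_lit 13470738)] (nat_lit 10106016)) p15_12_1 (nat_lit 4) (nat_lit 5) (nat_lit 6) = true := by decide +kernel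
def p15_12_1_6 : pfC (piC [(nat_lit 42686981), (nat_lit 27030628), (nat_lit 20024807), (nat_lit 13470738)] (nat_lit 10106016)) p15_12_1 (nat_lit 4) (nat_lit 6) (nat_lit 7) = true := by decide +kernel
def p15_12_1_7 : pfC (piC [(nat_lit 42686981), (nat_lit 27030628), (nat_lit 20024807), (nat_lit 13470738)] (nat_lit 10106016)) p15_12_1 (nat_lit 4) (nat_lit 7) (nat_lit 8) = true := by decide +kernel
def p15_12_1_8 : pfC (piC [(nat_lit 42686981), (nat_lit 27030628), (nat_lit 20024807), (nat_lit 13470738)] (nat_lit 10106016)) p15_12_1 (nat_lit 4) (nat_lit 8) (nat_lit 9) = true := by decide +kernel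
def p15_12_1_9 : pfC (piC [(nat_lit 42686981), (nat_lit 27030628), (nat_lit 20024807), (nat_lit 13470738)] (nat_lit 10106016)) p15_12_1 (nat_lit 4) (nat_lit 9) (nat_lit 10) = true := by decide +kernel
def p15_12_1_10 : pfC (piC [(nat_lit 42686981), (nat_lit 27030628), (nat_lit 20024807), (nat_lit 13470738)] (nat_lit 10106016)) p15_12_1 (nat_lit 4) (nat_lit 10) (nat_lit 11) = true := by decide +kernel
def p15_12_1_11 : pfC (piC [(nat_lit 42686981), (nat_lit 27030628), (nat_lit 20024807), (nat_lit 13470738)] (nat_lit 10106016)) p15_12_1 (nat_lit 4) (nat_lit 11) (nat_lit 12) = true := by decide +kernel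
def p15_12_1_12 : pfC (piC [(nat_lit 42686981), (nat_lit 27030628), (nat_lit 20024807), (nat_lit 13470738)] (nat_lit 10106016)) p15_12_1 (nat_lit 4) (nat_lit 12) (nat_lit 13) = true := by decide +kernel
def p15_12_1_13 : pfC (piC [(nat_lit 42686981), (nat_lit 27030628), (nat_lit 20024807), (nat_lit 13470738)] (nat_lit 10106016)) p15_12_1 (nat_lit 4) (nat_lit 13) (nat_lit 14) = true := by decide +kernel
def p15_12_1_14 : pfC (piC [(nat_lit 42686981), (nat_lit 27030628), (nat_lit 20024807), (nat_lit 13470738)] (nat_lit 10106016)) p15_12_1 (nat_lit 4) (nat_lit 14) (nat_lit 15) = true := by decide +kernel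
def p15_12_1_15 : pfC (piC [(nat_lit 42686981), (nat_lit 27030628), (nat_lit 20024807), (nat_lit 13470738)] (nat_lit 10106016)) p15_12_1 (nat_lit 4) (nat_lit 15) (nat_lit 16) = true := by decide +kernel
def p15_12_1_16 : pfC (piC [(nat_lit 42686981), (nat_lit 27030628), (nat_lit 20024807), (nat_lit 13470738)] (nat_lit 10106016)) p15_12_1 (nat_lit 4) (nat_lit 16) (nat_lit 17) = true := by decide +kernel
def p15_12_1_17 : pfC (piC [(nat_lit 42686981), (nat_lit 27030628), (nat_lit 20024807), (nat_lit 13470738)] (nat_lit 10106016)) p15_12_1 (nat_lit 4) (nat_lit 17) (nat_lit 18) = true := by decide +kernel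
def p15_12_1_18 : pfC (piC [(nat_lit 42686981), (nat_lit 27030628), (nat_lit 20024807), (nat_lit 13470738)] (nat_lit 10106016)) p15_12_1 (nat_lit 4) (nat_lit 18) (nat_lit 19) = true := by decide +kernel
def p15_12_1_19 : pfC (piC [(nat_lit 42686981), (nat_lit 27030628), (nat_lit 20024807), (nat_lit 13470738)] (nat_lit 10106016)) p15_12_1 (nat_lit 4) (nat_lit 19) (nat_lit 20) = true := by decide +kernel
def p15_12_1_20 : pfC (piC [(nat_lit 42686981), (nat_lit 27030628), (nat_lit 20024807), (nat_lit 13470738)] (nat_lit 10106016)) p15_12_1 (nat_lit 4) (nat_lit 20) (nat_lit 21) = true := by decide +kernel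
def p15_12_1_21 : pfC (piC [(nat_lit 42686981), (nat_lit 27030628), (nat_lit 20024807), (nat_lit 13470738)] (nat_lit 10106016)) p15_12_1 (nat_lit 4) (nat_lit 21) (nat_lit 22) = true := by decide +kernel
def p15_12_1_22 : pfC (piC [(nat_lit 42686981), (nat_lit 27030628), (nat_lit 20024807), (nat_lit 13470738)] (nat_lit 10106016)) p15_12_1 (nat_lit 4) (nat_lit 22) (nat_lit 23) = true := by decide +kernel
def p15_12_1_23 : pfC (piC [(nat_lit 42686981), (nat_lit 27030628), (nat_lit 20024807), (nat_lit 13470738)] (nat_lit 10106016)) p15_12_1 (nat_lit 4) (nat_lit 23) (nat_lit 24) = true := by decide +kernel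
def p15_12_1_24 : pfC (piC [(nat_lit 42686981), (nat_lit 27030628), (nat_lit 20024807), (nat_lit 13470738)] (nat_lit 10106016)) p15_12_1 (nat_lit 4) (nat_lit 24) (nat_lit 25) = true := by decide +kernel
def p15_12_1_25 : pfC (piC [(nat_lit 42686981), (nat_lit 27030628), (nat_lit 20024807), (nat_lit 13470738)] (nat_lit 10106016)) p15_12_1 (nat_lit 4) (nat_lit 25) (nat_lit 26) = true := by decide +kernel
def p15_12_1_26 : pfC (piC [(nat_lit 42686981), (nat_lit 27030628), (nat_lit 20024807), (nat_lit 13470738)] (nat_lit 10106016)) p15_12_1 (nat_lit 4) (nat_lit 26) (nat_lit 27) = true := by decide +kernel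
def p15_12_1_27 : pfC (piC [(nat_lit 42686981), (nat_lit 27030628), (nat_lit 20024807), (nat_lit 13470738)] (nat_lit 10106016)) p15_12_1 (nat_lit 4) (nat_lit 27) (nat_lit 28) = true := by decide +kernel
def p15_12_1_28 : pfC (piC [(nat_lit 42686981), (nat_lit 27030628), (nat_lit 20024807), (nat_lit 13470738)] (nat_lit 10106016)) p15_12_1 (nat_lit 4) (nat_lit 28) (nat_lit 29) = true := by decide +kernel
def p15_12_1_29 : pfC (piC [(nat_lit 42686981), (nat_lit 27030628), (nat_lit 20024807), (nat_lit 13470738)] (nat_lit 10106016)) p15_12_1 (nat_lit 4) (nat_lit 29) (nat_lit 30) = true := by decide +kernel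
def p15_12_1_30 : pfC (piC [(nat_lit 42686981), (nat_lit 27030628), (nat_lit 20024807), (nat_lit 13470738)] (nat_lit 10106016)) p15_12_1 (nat_lit 4) (nat_lit 30) (nat_lit 31) = true := by decide +kernel
def p15_12_1_31 : pfC (piC [(nat_lit 42686981), (nat_lit 27030628), (nat_lit 20024807), (nat_lit 13470738)] (nat_lit 10106016)) p15_12_1 (nat_lit 4) (nat_lit 31) (nat_lit 32) = true := by decide +kernel
def p15_12_1_32 : pfC (piC [(nat_lit 42686981), (nat_lit 27030628), (nat_lit 20024807), (nat_lit 13470738)] (nat_lit 10106016)) p15_12_1 (nat_lit 4) (nat_lit 32) (nat_lit 33) = true := by decide +kernel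
def p15_12_1_33 : pfC (piC [(nat_lit 42686981), (nat_lit 27030628), (nat_lit 20024807), (nat_lit 13470738)] (nat_lit 10106016)) p15_12_1 (nat_lit 4) (nat_lit 33) (nat_lit 34) = true := by decide +kernel
def p15_12_1_34 : pfC (piC [(nat_lit 42686981), (nat_lit 27030628), (nat_lit 20024807), (nat_lit 13470738)] (nat_lit 10106016)) p15_12_1 (nat_lit 4) (nat_lit 34) (nat_lit 35) = true := by decide +kernel
def p15_12_1_35 : pfC (piC [(nat_lit 42686981), (nat_lit 27030628), (nat_lit 20024807), (nat_lit 13470738)] (nat_lit 10106016)) p15_12_1 (nat_lit 4) (nat_lit 35) (nat_lit 36) = true := by decide +kernel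
def p15_12_1_36 : pfC (piC [(nat_lit 42686981), (nat_lit 27030628), (nat_lit 20024807), (nat_lit 13470738)] (nat_lit 10106016)) p15_12_1 (nat_lit 4) (nat_lit 36) (nat_lit 37) = true := by decide +kernel
def p15_12_1_37 : pfC (piC [(nat_lit 42686981), (nat_lit 27030628), (nat_lit 20024807), (nat_lit 13470738)] (nat_lit 10106016)) p15_12_1 (nat_lit 4) (nat_lit 37) (nat_lit 38) = true := by decide +kernel
def p15_12_1_38 : pfC (piC [(nat_lit 42686981), (nat_lit 27030628), (nat_lit 20024807), (nat_lit 13470738)] (nat_lit 10106016)) p15_12_1 (nat_lit 4) (nat_lit 38) (nat_lit 39) = true := by decide +kernel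
def p15_12_1_39 : pfC (piC [(nat_lit 42686981), (nat_lit 27030628), (nat_lit 20024807), (nat_lit 13470738)] (nat_lit 10106016)) p15_12_1 (nat_lit 4) (nat_lit 39) (nat_lit 40) = true := by decide +kernel
def p15_12_1_40 : pfC (piC [(nat_lit 42686981), (nat_lit 27030628), (nat_lit 20024807), (nat_lit 13470738)] (nat_lit 10106016)) p15_12_1 (nat_lit 4) (nat_lit 40) (nat_lit 41) = true := by decide +kernel
def p15_12_1_41 : pfC (piC [(nat_lit 42686981), (nat_lit 27030628), (nat_lit 20024807), (nat_lit 13470738)] (nat_lit 10106016)) p15_12_1 (nat_lit 4) (nat_lit 41) (nat_lit 42) = true := by decide +kernel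
def p15_12_1_42 : pfC (piC [(nat_lit 42686981), (nat_lit 27030628), (nat_lit 20024807), (nat_lit 13470738)] (nat_lit 10106016)) p15_12_1 (nat_lit 4) (nat_lit 42) (nat_lit 43) = true := by decide +kernel
def p15_12_1_43 : pfC (piC [(nat_lit 42686981), (nat_lit 27030628), (nat_lit 20024807), (nat_lit 13470738)] (nat_lit 10106016)) p15_12_1 (nat_lit 4) (nat_lit 43) (nat_lit 44) = true := by decide +kernel
def p15_12_1_44 : pfC (piC [(nat_lit 42686981), (nat_lit 27030628), (nat_lit 20024807), (nat_lit 13470738)] (nat_lit 10106016)) p15_12_1 (nat_lit 4) (nat_lit 44) (nat_lit 45) = true := by decide +kernel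
def p15_12_1_45 : pfC (piC [(nat_lit 42686981), (nat_lit 27030628), (nat_lit 20024807), (nat_lit 13470738)] (nat_lit 10106016)) p15_12_1 (nat_lit 4) (nat_lit 45) (nat_lit 46) = true := by decide +kernel
def p15_12_1_46 : pfC (piC [(nat_lit 42686981), (nat_lit 27030628), (nat_lit 20024807), (nat_lit 13470738)] (nat_lit 10106016)) p15_12_1 (nat_lit 4) (nat_lit 46) (nat_lit 47) = true := by decide +kernel
def p15_12_1_47 : pfC (piC [(nat_lit 42686981), (nat_lit 27030628), (nat_lit 20024807), (nat_lit 13470738)] (nat_lit 10106016)) p15_12_1 (nat_lit 4) (nat_lit 47) (nat_lit 48) = true := by decide +kernel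
def p15_12_1_48 : pfC (piC [(nat_lit 42686981), (nat_lit 27030628), (nat_lit 20024807), (nat_lit 13470738)] (nat_lit 10106016)) p15_12_1 (nat_lit 4) (nat_lit 48) (nat_lit 49) = true := by decide +kernel
def p15_12_1_49 : pfC (piC [(nat_lit 42686981), (nat_lit 27030628), (nat_lit 20024807), (nat_lit 13470738)] (nat_lit 10106016)) p15_12_1 (nat_lit 4) (nat_lit 49) (nat_lit 50) = true := by decide +kernel
def p15_12_1_50 : pfC (piC [(nat_lit 42686981), (nat_lit 27030628), (nat_lit 20024807), (nat_lit 13470738)] (nat_lit 10106016)) p15_12_1 (nat_lit 4) (nat_lit 50) (nat_lit 51) = true := by decide +kernel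
def p15_12_1_51 : pfC (piC [(nat_lit 42686981), (nat_lit 27030628), (nat_lit 20024807), (nat_lit 13470738)] (nat_lit 10106016)) p15_12_1 (nat_lit 4) (nat_lit 51) (nat_lit 52) = true := by decide +kernel
def p15_12_1_52 : pfC (piC [(nat_lit 42686981), (nat_lit 27030628), (nat_lit 20024807), (nat_lit 13470738)] (nat_lit 10106016)) p15_12_1 (nat_lit 4) (nat_lit 52) (nat_lit 53) = true := by decide +kernel
def p15_12_1_53 : pfC (piC [(nat_lit 42686981), (nat_lit 27030628), (nat_lit 20024807), (nat_lit 13470738)] (nat_lit 10106016)) p15_12_1 (nat_lit 4) (nat_lit 53) (nat_lit 54) = true := by decide +kernel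
def p15_12_1_54 : pfC (piC [(nat_lit 42686981), (nat_lit 27030628), (nat_lit 20024807), (nat_lit 13470738)] (nat_lit 10106016)) p15_12_1 (nat_lit 4) (nat_lit 54) (nat_lit 55) = true := by decide +kernel
def p15_12_1_55 : pfC (piC [(nat_lit 42686981), (nat_lit 27030628), (nat_lit 20024807), (nat_lit 13470738)] (nat_lit 10106016)) p15_12_1 (nat_lit 4) (nat_lit 55) (nat_lit 56) = true := by decide +kernel
def p15_12_1_56 : pfC (piC [(nat_lit 42686981), (nat_lit 27030628), (nat_lit 20024807), (nat_lit 13470738)] (nat_lit 10106016)) p15_12_1 (nat_lit 4) (nat_lit 56) (nat_lit 57) = true := by decide +kernel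
def p15_12_1_57 : pfC (piC [(nat_lit 42686981), (nat_lit 27030628), (nat_lit 20024807), (nat_lit 13470738)] (nat_lit 10106016)) p15_12_1 (nat_lit 4) (nat_lit 57) (nat_lit 58) = true := by decide +kernel
def p15_12_1_58 : pfC (piC [(nat_lit 42686981), (nat_lit 27030628), (nat_lit 20024807), (nat_lit 13470738)] (nat_lit 10106016)) p15_12_1 (nat_lit 4) (nat_lit 58) (nat_lit 59) = true := by decide +kernel
def p15_12_1_59 : pfC (piC [(nat_lit 42686981), (nat_lit 27030628), (nat_lit 20024807), (nat_lit 13470738)] (nat_lit 10106016)) p15_12_1 (nat_lit 4) (nat_lit 59) (nat_lit 60) = true := by decide +kernel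
def p15_12_1_60 : pfC (piC [(nat_lit 42686981), (nat_lit 27030628), (nat_lit 20024807), (nat_lit 13470738)] (nat_lit 10106016)) p15_12_1 (nat_lit 4) (nat_lit 60) (nat_lit 61) = true := by decide +kernel
def p15_12_1_61 : pfC (piC [(nat_lit 42686981), (nat_lit 27030628), (nat_lit 20024807), (nat_lit 13470738)] (nat_lit 10106016)) p15_12_1 (nat_lit 4) (nat_lit 61) (nat_lit 62) = true := by decide +kernel
def p15_12_1_62 : pfC (piC [(nat_lit 42686981), (nat_lit 27030628), (nat_lit 20024807), (nat_lit 13470738)] (nat_lit 10106016)) p15_12_1 (nat_lit 4) (nat_lit 62) (nat_lit 63) = true := by decide +kernel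
theorem p15_12_1_T : PfS (PiF n15_12.reverse (nat_lit 10106016)) p15_12_1 (nat_lit 4) [] 0 :=
  pftab_of (los := [(nat_lit 42686981), (nat_lit 27030628), (nat_lit 20024807), (nat_lit 13470738)]) (by decide +kernel) (hi := (nat_lit 63)) (PfP.trans (PfP.trans (PfP.trans (PfP.trans (PfP.trans (PfP.trans (PfP.trans (PfP.trans (PfP.trans (PfP.trans (PfP.trans (PfP.trans (PfP.trans (PfP.trans (PfP.trans (PfP.trans (PfP.trans (PfP.trans (PfP.trans (PfP.trans (PfP.trans (PfP.trans (PfP.trans (PfP.trans (PfP.trans (PfP.trans (PfP.trans (PfP.trans (PfP.trans (PfP.trans (PfP.trans (PfP.trans (PfP.trans (PfP.trans (PfP.trans (PfP.trans (PfP.trans (PfP.trans (PfP.trans (PfP.trans (PfP.trans (PfP.trans (PfP.trans (PfP.trans (PfP.trans (PfP.trans (PfP.trans (PfP.trans (PfP.trans (PfP.trans (PfP.trans (PfP.trans (PfP.trans (PfP.trans (PfP.trans (PfP.trans (PfP.trans (PfP.trans (PfP.trans (PfP.trans (PfP.trans (PfP.trans (pfC_sound p15_12_1_0) (pfC_sound p15_12_1_1)) (pfC_sound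 p15_12_1_2)) (pfC_sound p15_12_1_3)) (pfC_sound p15_12_1_4)) (pfC_sound p15_12_1_5)) (pfC_sound p15_12_1_6)) (pfC_sound p15_12_1_7)) (pfC_sound p15_12_1_8)) (pfC_sound p15_12_1_9)) (pfC_sound p15_12_1_10)) (pfC_sound p15_12_1_11)) (pfC_sound p15_12_1_12)) (pfC_sound p15_12_1_13)) (pfC_sound p15_12_1_14)) (pfC_sound p15_12_1_15)) (pfC_sound p15_12_1_16)) (pfC_sound p15_12_1_17)) (pfC_sound p15_12_1_18)) (pfC_sound p15_12_1_19)) (pfC_sound p15_12_1_20))
 (pfC_sound p15_12_1_21)) (pfC_sound p15_12_1_22)) (pfC_sound p15_12_1_23)) (pfC_sound p15_12_1_24)) (pfC_sound p15_12_1_25)) (pfC_sound p15_12_1_26)) (pfC_sound p15_12_1_27)) (pfC_sound p15_12_1_28)) (pfC_sound p15_12_1_29)) (pfC_sound p15_12_1_30)) (pfC_sound p15_12_1_31)) (pfC_sound p15_12_1_32)) (pfC_sound p15_12_1_33)) (pfC_sound p15_12_1_34)) (pfC_sound p15_12_1_35)) (pfC_sound p15_12_1_36)) (pfC_sound p15_12_1_37)) (pfC_sound p15_12_1_38)) (pfC_sound p15_12_1_39)) (pfC_sound p15_12_1_40)) (pfC_sound p15_12_1_41))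 (pfC_sound p15_12_1_42)) (pfC_sound p15_12_1_43)) (pfC_sound p15_12_1_44)) (pfC_sound p15_12_1_45)) (pfC_sound p15_12_1_46)) (pfC_sound p15_12_1_47)) (pfC_sound p15_12_1_48)) (pfC_sound p15_12_1_49)) (pfC_sound p15_12_1_50)) (pfC_sound p15_12_1_51)) (pfC_sound p15_12_1_52)) (pfC_sound p15_12_1_53)) (pfC_sound p15_12_1_54)) (pfC_sound p15_12_1_55)) (pfC_sound p15_12_1_56)) (pfC_sound p15_12_1_57)) (pfC_sound p15_12_1_58)) (pfC_sound p15_12_1_59)) (pfC_sound p15_12_1_60)) (pfC_sound p15_12_1_61)) (pfC_sound p15_12_1_62)) (by decide +kernel)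

def z15_12_1 : zOK yB15_12 (nat_lit 1) (nat_lit 400) (nat_lit 600) (nat_lit 10106016) (nat_lit 6577802) = true := by decide +kernel
def g15_12_1 : gOK yB15_12.x P15_12 (nat_lit 1429) (q15_12 :: r15_12) (nat_lit 1) (nat_lit 400) (nat_lit 2) (nat_lit 600) (nat_lit 11000000) (nat_lit 17850000) (nat_lit 12712500) (nat_lit 12712500) [(nat_lit 800), (nat_lit 1040)] = true := by decide +kernel
def v15_12_1 : ivC P15_12 s15_12 w15_12 n15_12 (nat_lit 4) (nat_lit 5080) (nat_lit 1) (nat_lit 400) f144_1_400 f152_1_400 (nat_lit 2) (nat_lit 600) f144_1_600 f152_1_600 (nat_lit 10106016) (nat_lit 6577802) p15_12_1 = true := by decide +kernel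
def p15_12_2 : PF := (PF.cons (PF.cons (PF.cons (PF.cons (PF.leaf (nat_lit 2771386) (nat_lit 16293517) (nat_lit 50815295) (nat_lit 16293517) [(nat_lit 0), (nat_lit 0), (nat_lit 0), (nat_lit 0)]) (PF.cons (PF.leaf (nat_lit 2885949) (nat_lit 191171) (nat_lit 50638093) (nat_lit 16279547) [(nat_lit 191171), (nat_lit 0), (nat_lit 0), (nat_lit 0)]) (PF.cons (PF.leaf (nat_lit 3023982) (nat_lit 207930) (nat_lit 50430374) (nat_lit 16262577) [(nat_lit 207930), (nat_lit 0), (nat_lit 0), (nat_lit 0)]) (PF.cons (PF.leaf (nat_lit 3179079) (nat_lit 222839) (nat_lit 50197488) (nat_lit 16242807) [(nat_lit 222839), (nat_lit 0), (nat_lit 0), (nat_lit 0)]) (PF.cons (PF.leaf (nat_lit 3348799) (nat_lit 236322) (nat_lit 49943185) (nat_lit 16220337) [(nat_lit 236322), (nat_lit 0), (nat_lit 0), (nat_lit 0)]) (PF.cons (PF.leaf (nat_lit 3531645) (nat_lit 248652) (nat_lit 49670325) (nat_lit 16195222) [(nat_lit 248652), (nat_lit 0), (nat_lit 0), (nat_lit 0)]) (PF.cons (PF.leaf (nat_lit 3725961)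 (nat_lit 260017) (nat_lit 49381213) (nat_lit 16167497) [(nat_lit 260017), (nat_lit 0), (nat_lit 0), (nat_lit 0)]) (PF.cons PF.nil (PF.cons PF.nil PF.nil))))))))) (PF.cons (PF.cons (PF.leaf (nat_lit 3234534) (nat_lit 1045307) (nat_lit
 49854179) (nat_lit 16209326) [(nat_lit 0), (nat_lit 1045307), (nat_lit 0), (nat_lit 0)]) (PF.cons (PF.leaf (nat_lit 3386286) (nat_lit 233728) (nat_lit 49619453) (nat_lit 16187442) [(nat_lit 233728), (nat_lit 1068188), (nat_lit 0), (nat_lit 0)]) (PF.cons (PF.leaf (nat_lit 3555617) (nat_lit 246591) (nat_lit 49362149) (nat_lit 16162592) [(nat_lit 246591), (nat_lit 1090888), (nat_lit 0), (nat_lit 0)]) (PF.cons (PF.leaf (nat_lit 3738277) (nat_lit 258299) (nat_lit 49085953) (nat_lit 16134932) [(nat_lit 258299), (nat_lit 1113029), (nat_lit 0), (nat_lit 0)]) (PF.cons (PF.leaf (nat_lit 3932676) (nat_lit 269062) (nat_lit 48793595) (nat_lit 16104557) [(nat_lit 269062), (nat_lit 1134408), (nat_lit 0), (nat_lit 0)]) (PF.cons (PF.leaf (nat_lit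 4137570) (nat_lit 279025) (nat_lit 48487233) (nat_lit 16071535) [(nat_lit 279025), (nat_lit 1154918), (nat_lit 0), (nat_lit 0)]) (PF.cons PF.nil PF.nil))))))) (PF.cons (PF.cons (PF.leaf (nat_lit 3767026) (nat_lit 1122842) (nat_lit 48764675) (nat_lit 16098452) [(nat_lit 0), (nat_lit 1122842), (nat_lit 0), (nat_lit 0)]) (PF.cons (PF.leaf (nat_lit 3946745) (nat_lit 266611) (nat_lit 48488720) (nat_lit 16068621) [(nat_lit 266611), (nat_lit 1142429), (nat_lit
 0), (nat_lit 0)]) (PF.cons (PF.leaf (nat_lit 4140123) (nat_lit 276955) (nat_lit 48195935) (nat_lit 16035911) [(nat_lit 276955), (nat_lit 1161527), (nat_lit 0), (nat_lit 0)]) (PF.cons (PF.leaf (nat_lit 4344188) (nat_lit 286484) (nat_lit 47888959) (nat_lit 16000459) [(nat_lit 286484), (nat_lit 1179970), (nat_lit 0), (nat_lit 0)]) (PF.cons PF.nil PF.nil))))) (PF.cons (PF.cons (PF.leaf (nat_lit 4350125) (nat_lit 1185945) (nat_lit 47589334) (nat_lit 15961641) [(nat_lit 0), (nat_lit 1185945), (nat_lit 0), (nat_lit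 0)]) (PF.cons (PF.leaf (nat_lit 4551279) (nat_lit 293010) (nat_lit 47284140) (nat_lit 15924097) [(nat_lit 293010), (nat_lit 1202521), (nat_lit 0), (nat_lit 0)]) (PF.cons (PF.leaf (nat_lit 4763315) (nat_lit 301513) (nat_lit 46966440) (nat_lit 15883825) [(nat_lit 301513), (nat_lit 1218506), (nat_lit 0), (nat_lit 0)]) (PF.cons PF.nil PF.nil)))) (PF.cons (PF.cons (PF.leaf (nat_lit 4969974) (nat_lit 1237286) (nat_lit 46359223) (nat_lit 15800445) [(nat_lit 0), (nat_lit 1237286), (nat_lit 0), (nat_lit 0)]) (PF.cons PF.nil PF.nil)) (PF.cons PF.nil PF.nil)))))) (PF.cons (PF.cons (PF.cons (PF.leaf (nat_lit 3753667) (nat_lit 2879314) (nat_lit 48208951) (nat_lit 16020547) [(nat_lit 0),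
 (nat_lit 0), (nat_lit 2879314), (nat_lit 0)]) (PF.cons (PF.leaf (nat_lit 3913757) (nat_lit 252174) (nat_lit 47964982) (nat_lit 15992653) [(nat_lit 252174), (nat_lit 0), (nat_lit 2899002), (nat_lit 0)]) (PF.cons (PF.leaf (nat_lit 4090735) (nat_lit 264392) (nat_lit 47699482) (nat_lit 15961455) [(nat_lit 264392), (nat_lit 0), (nat_lit 2919090), (nat_lit 0)]) (PF.cons (PF.leaf (nat_lit 4280365) (nat_lit 275354) (nat_lit 47416397) (nat_lit 15927237) [(nat_lit 275354), (nat_lit 0), (nat_lit 2939114), (nat_lit 0)]) (PF.cons (PF.leaf (nat_lit 4480962) (nat_lit 285316) (nat_lit 47118593) (nat_lit 15890192) [(nat_lit 285316), (nat_lit 0), (nat_lit 2958762), (nat_lit 0)]) (PF.cons PF.nil (PF.cons PF.nil PF.nil))))))) (PF.cons (PF.cons (PF.leaf (nat_lit 4300635) (nat_lit 1173828) (nat_lit 47098737) (nat_lit 15884690) [(nat_lit 0), (nat_lit 1173828), (nat_lit 2951557), (nat_lit 0)]) (PF.cons (PF.leaf (nat_lit 4486358) (nat_lit 281899) (nat_lit 46818581) (nat_lit 15848786)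 [(nat_lit 281899), (nat_lit 1190462), (nat_lit 2969083), (nat_lit 0)]) (PF.cons (PF.leaf (nat_lit 4684938) (nat_lit 291554) (nat_lit 46522852) (nat_lit 15809883) [(nat_lit 291554), (nat_lit 1206600), (nat_lit 2986367),
 (nat_lit 0)]) (PF.cons (PF.leaf (nat_lit 4893495) (nat_lit 300354) (nat_lit 46214260) (nat_lit 15768204) [(nat_lit 300354), (nat_lit 1222115), (nat_lit 3003168), (nat_lit 0)]) (PF.cons PF.nil PF.nil))))) (PF.cons (PF.cons (PF.leaf (nat_lit 4891008) (nat_lit 1225814) (nat_lit 45921821) (nat_lit 15724700) [(nat_lit 0), (nat_lit 1225814), (nat_lit 3010661), (nat_lit 0)]) (PF.cons (PF.leaf (nat_lit 5095955) (nat_lit 305470) (nat_lit 45616993) (nat_lit 15681433) [(nat_lit 305470), (nat_lit 1239781), (nat_lit 3025352), (nat_lit 0)]) (PF.cons PF.nil (PF.cons PF.nil PF.nil)))) (PF.cons (PF.cons (PF.leaf (nat_lit 5512018) (nat_lit 1267760) (nat_lit 44705691) (nat_lit 15542951) [(nat_lit 0), (nat_lit 1267760), (nat_lit 3056888), (nat_lit 0)]) (PF.cons PF.nil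 PF.nil)) (PF.cons PF.nil PF.nil))))) (PF.cons (PF.cons (PF.cons (PF.leaf (nat_lit 4826960) (nat_lit 3001950) (nat_lit 45460946) (nat_lit 15643966) [(nat_lit 0), (nat_lit 0), (nat_lit 3001950), (nat_lit 0)]) (PF.cons (PF.leaf (nat_lit 5016830) (nat_lit 294225) (nat_lit 45180601) (nat_lit 15602942) [(nat_lit 294225), (nat_lit 0), (nat_lit 3015521), (nat_lit 0)]) (PF.cons (PF.leaf (nat_lit 5218994) (nat_lit 303259) (nat_lit 44885851)
 (nat_lit 15558873) [(nat_lit 303259), (nat_lit 0), (nat_lit 3028784), (nat_lit 0)]) (PF.cons PF.nil (PF.cons PF.nil PF.nil))))) (PF.cons (PF.cons (PF.leaf (nat_lit 5420224) (nat_lit 1255714) (nat_lit 44296500) (nat_lit 15465039) [(nat_lit 0), (nat_lit 1255714), (nat_lit 3045778), (nat_lit 0)]) (PF.cons (PF.leaf (nat_lit 5627472) (nat_lit 315359) (nat_lit 43995265) (nat_lit 15417111) [(nat_lit 315359), (nat_lit 1267490), (nat_lit 3056793), (nat_lit 0)]) (PF.cons PF.nil (PF.cons PF.nil PF.nil)))) (PF.cons (PF.cons (PF.leaf (nat_lit 6039070)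 (nat_lit 1289856) (nat_lit 43104969) (nat_lit 15267053) [(nat_lit 0), (nat_lit 1289856), (nat_lit 3078538), (nat_lit 0)]) (PF.cons PF.nil PF.nil)) PF.nil))) (PF.cons (PF.cons (PF.cons (PF.leaf (nat_lit 5936149) (nat_lit 3065732) (nat_lit 42723244) (nat_lit 15188372) [(nat_lit 0), (nat_lit 0), (nat_lit 3065732), (nat_lit 0)]) (PF.cons (PF.leaf (nat_lit 6144497) (nat_lit 323107) (nat_lit 42427929) (nat_lit 15136763) [(nat_lit 323107), (nat_lit 0), (nat_lit 3073670), (nat_lit 0)]) PF.nil)) (PF.cons PF.nil PF.nil)) (PF.cons PF.nil (PF.cons PF.nil PF.nil)))))) (PF.cons (PF.cons (PF.cons (PF.cons (PF.leaf (nat_lit 4583353) (nat_lit 7427513) (nat_lit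
 44299317) (nat_lit 15381981) [(nat_lit 0), (nat_lit 0), (nat_lit 0), (nat_lit 7427513)]) (PF.cons (PF.leaf (nat_lit 4744247) (nat_lit 261789) (nat_lit 44071853) (nat_lit 15347326) [(nat_lit 261789), (nat_lit 0), (nat_lit 0), (nat_lit 7427843)]) (PF.cons (PF.leaf (nat_lit 4921233) (nat_lit 273556) (nat_lit 43825157) (nat_lit 15309085) [(nat_lit 273556), (nat_lit 0), (nat_lit 0), (nat_lit 7427456)]) (PF.cons (PF.leaf (nat_lit 5110082) (nat_lit 283955) (nat_lit 43563009) (nat_lit 15267713) [(nat_lit 283955), (nat_lit 0), (nat_lit 0), (nat_lit 7426224)]) (PF.cons (PF.leaf (nat_lit 5309045) (nat_lit 293272) (nat_lit 43288142) (nat_lit 15223527) [(nat_lit 293272), (nat_lit 0), (nat_lit 0), (nat_lit 7424052)]) (PF.cons (PF.leaf (nat_lit 5516727) (nat_lit 301703) (nat_lit 43002653) (nat_lit 15176770) [(nat_lit 301703), (nat_lit 0), (nat_lit 0), (nat_lit 7420869)]) (PF.cons PF.nil PF.nil))))))) (PF.cons (PF.cons (PF.leaf (nat_lit 5120670) (nat_lit 1196510) (nat_lit 43274258)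 (nat_lit 15218564) [(nat_lit 0), (nat_lit 1196510), (nat_lit 0), (nat_lit 7419478)]) (PF.cons (PF.leaf (nat_lit 5304797) (nat_lit 289010) (nat_lit 43016365) (nat_lit 15176322) [(nat_lit 289010), (nat_lit 1210461),
 (nat_lit 0), (nat_lit 7416653)]) (PF.cons (PF.leaf (nat_lit 5500918) (nat_lit 298054) (nat_lit 42744912) (nat_lit 15131091) [(nat_lit 298054), (nat_lit 1223832), (nat_lit 0), (nat_lit 7412867)]) (PF.cons (PF.leaf (nat_lit 5706194) (nat_lit 306190) (nat_lit 42462440) (nat_lit 15083198) [(nat_lit 306190), (nat_lit 1236535), (nat_lit 0), (nat_lit 7408068)]) (PF.cons PF.nil PF.nil))))) (PF.cons (PF.cons (PF.leaf (nat_lit 5694392) (nat_lit 1237872) (nat_lit 42199277) (nat_lit 15035155) [(nat_lit 0), (nat_lit 1237872), (nat_lit 0), (nat_lit 7398634)]) (PF.cons (PF.leaf (nat_lit 5895414) (nat_lit 309973) (nat_lit 41921499) (nat_lit 14986486) [(nat_lit 309973), (nat_lit 1249243), (nat_lit 0), (nat_lit 7392366)]) (PF.cons (PF.leaf (nat_lit 6105763) (nat_lit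 317146) (nat_lit 41634111) (nat_lit 14935299) [(nat_lit 317146), (nat_lit 1260031), (nat_lit 0), (nat_lit 7385045)]) (PF.cons PF.nil PF.nil)))) (PF.cons (PF.cons (PF.leaf (nat_lit 6292820) (nat_lit 1270177) (nat_lit 41098072) (nat_lit 14834965) [(nat_lit 0), (nat_lit 1270177), (nat_lit 0), (nat_lit 7365241)]) (PF.cons PF.nil PF.nil)) (PF.cons PF.nil PF.nil))))) (PF.cons (PF.cons (PF.cons (PF.leaf (nat_lit 5615228) (nat_lit 2990809)
 (nat_lit 41796208) (nat_lit 14951496) [(nat_lit 0), (nat_lit 0), (nat_lit 2990809), (nat_lit 7370298)]) (PF.cons (PF.leaf (nat_lit 5801934) (nat_lit 298259) (nat_lit 41540860) (nat_lit 14905903) [(nat_lit 298259), (nat_lit 0), (nat_lit 2999816), (nat_lit 7363973)]) (PF.cons (PF.leaf (nat_lit 6000063) (nat_lit 306711) (nat_lit 41272979) (nat_lit 14857356) [(nat_lit 306711), (nat_lit 0), (nat_lit 3008438), (nat_lit 7356614)]) (PF.cons (PF.leaf (nat_lit 6206774) (nat_lit 314247) (nat_lit 40995076) (nat_lit 14806226) [(nat_lit 314247),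 (nat_lit 0), (nat_lit 3016548), (nat_lit 7348216)]) (PF.cons PF.nil PF.nil))))) (PF.cons (PF.cons (PF.leaf (nat_lit 6188294) (nat_lit 1256858) (nat_lit 40742341) (nat_lit 14756499) [(nat_lit 0), (nat_lit 1256858), (nat_lit 3017096), (nat_lit 7336016)]) (PF.cons (PF.leaf (nat_lit 6390362) (nat_lit 317075) (nat_lit 40470053) (nat_lit 14704973) [(nat_lit 317075), (nat_lit 1266419), (nat_lit 3023850), (nat_lit 7326440)]) (PF.cons PF.nil (PF.cons PF.nil PF.nil)))) (PF.cons (PF.cons (PF.leaf (nat_lit 6782158) (nat_lit 1282915) (nat_lit 39670931) (nat_lit 14547063) [(nat_lit 0), (nat_lit 1282915), (nat_lit 3034344), (nat_lit 7290642)]) (PF.cons PF.nil PF.nil))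
 PF.nil))) (PF.cons (PF.cons (PF.cons (PF.leaf (nat_lit 6668822) (nat_lit 3019465) (nat_lit 39340004) (nat_lit 14469766) [(nat_lit 0), (nat_lit 0), (nat_lit 3019465), (nat_lit 7260111)]) (PF.cons (PF.leaf (nat_lit 6871060) (nat_lit 322507) (nat_lit 39074612) (nat_lit 14416114) [(nat_lit 322507), (nat_lit 0), (nat_lit 3023893), (nat_lit 7247791)]) (PF.cons PF.nil PF.nil))) (PF.cons (PF.cons (PF.leaf (nat_lit 7256378) (nat_lit 1290557) (nat_lit 38302486) (nat_lit 14253852) [(nat_lit 0), (nat_lit 1290557), (nat_lit 3028463), (nat_lit 7204990)]) PF.nil) PF.nil)) (PF.cons PF.nil (PF.cons PF.nil PF.nil))))) (PF.cons (PF.cons (PF.cons (PF.cons (PF.leaf (nat_lit 6330956) (nat_lit 7146792) (nat_lit 38563247) (nat_lit 14251980) [(nat_lit 0), (nat_lit 0), (nat_lit 0), (nat_lit 7146792)]) (PF.cons (PF.leaf (nat_lit 6513387) (nat_lit 298640) (nat_lit 38332456) (nat_lit 14204751) [(nat_lit 298640), (nat_lit 0), (nat_lit 0), (nat_lit 7136482)]) (PF.cons (PF.leaf (nat_lit 6706596)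 (nat_lit 306575) (nat_lit 38090707) (nat_lit 14154721) [(nat_lit 306575), (nat_lit 0), (nat_lit 0), (nat_lit 7125116)]) (PF.cons (PF.leaf (nat_lit 6907753) (nat_lit 313578) (nat_lit 37840284) (nat_lit 14102299) [(nat_lit
 313578), (nat_lit 0), (nat_lit 0), (nat_lit 7112746)]) (PF.cons PF.nil PF.nil))))) (PF.cons (PF.cons (PF.leaf (nat_lit 6882891) (nat_lit 1245432) (nat_lit 37615563) (nat_lit 14052476) [(nat_lit 0), (nat_lit 1245432), (nat_lit 0), (nat_lit 7097670)]) (PF.cons (PF.leaf (nat_lit 7079156) (nat_lit 315570) (nat_lit 37370720) (nat_lit 14000125) [(nat_lit 315570), (nat_lit 1253308), (nat_lit 0), (nat_lit 7084543)]) (PF.cons PF.nil (PF.cons PF.nil PF.nil)))) (PF.cons (PF.cons (PF.leaf (nat_lit 7452174) (nat_lit 1265520) (nat_lit 36656138) (nat_lit 13841905) [(nat_lit 0), (nat_lit 1265520), (nat_lit 0), (nat_lit 7039864)]) (PF.cons PF.nil PF.nil)) PF.nil))) (PF.cons (PF.cons (PF.cons (PF.leaf (nat_lit 7331815) (nat_lit 2954043) (nat_lit 36369206) (nat_lit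 13768365) [(nat_lit 0), (nat_lit 0), (nat_lit 2954043), (nat_lit 7008599)]) (PF.cons (PF.leaf (nat_lit 7527614) (nat_lit 319337) (nat_lit 36131355) (nat_lit 13714901) [(nat_lit 319337), (nat_lit 0), (nat_lit 2956044), (nat_lit 6993586)]) PF.nil)) (PF.cons PF.nil PF.nil)) (PF.cons PF.nil PF.nil))) (PF.cons (PF.cons (PF.cons (PF.cons (PF.leaf (nat_lit 7936293) (nat_lit 6750604) (nat_lit 33757176) (nat_lit 13099822) [(nat_lit 0), (nat_lit
 0), (nat_lit 0), (nat_lit 6750604)]) (PF.cons PF.nil PF.nil)) (PF.cons PF.nil PF.nil)) (PF.cons PF.nil PF.nil)) (PF.cons PF.nil (PF.cons PF.nil (PF.cons PF.nil (PF.cons PF.nil PF.nil))))))))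

def p15_12_2_0 : pfC (piC [(nat_lit 42686981), (nat_lit 27030628), (nat_lit 20024807), (nat_lit 13470738)] (nat_lit 6577802)) p15_12_2 (nat_lit 4) (nat_lit 0) (nat_lit 1) = true := by decide +kernel
def p15_12_2_1 : pfC (piC [(nat_lit 42686981), (nat_lit 27030628), (nat_lit 20024807), (nat_lit 13470738)] (nat_lit 6577802)) p15_12_2 (nat_lit 4) (nat_lit 1) (nat_lit 2) = true := by decide +kernel
def p15_12_2_2 : pfC (piC [(nat_lit 42686981), (nat_lit 27030628), (nat_lit 20024807), (nat_lit 13470738)] (nat_lit 6577802)) p15_12_2 (nat_lit 4) (nat_lit 2) (nat_lit 3) = true := by decide +kernel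
def p15_12_2_3 : pfC (piC [(nat_lit 42686981), (nat_lit 27030628), (nat_lit 20024807), (nat_lit 13470738)] (nat_lit 6577802)) p15_12_2 (nat_lit 4) (nat_lit 3) (nat_lit 4) = true := by decide +kernel
def p15_12_2_4 : pfC (piC [(nat_lit 42686981), (nat_lit 27030628), (nat_lit 20024807), (nat_lit 13470738)] (nat_lit 6577802)) p15_12_2 (nat_lit 4) (nat_lit 4) (nat_lit 5) = true := by decide +kernel
def p15_12_2_5 : pfC (piC [(nat_lit 42686981), (nat_lit 27030628), (nat_lit 20024807), (nat_lit 13470738)] (nat_lit 6577802)) p15_12_2 (nat_lit 4) (nat_lit 5) (nat_lit 6) = true := by decide +kernel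
def p15_12_2_6 : pfC (piC [(nat_lit 42686981), (nat_lit 27030628), (nat_lit 20024807), (nat_lit 13470738)] (nat_lit 6577802)) p15_12_2 (nat_lit 4) (nat_lit 6) (nat_lit 7) = true := by decide +kernel
def p15_12_2_7 : pfC (piC [(nat_lit 42686981), (nat_lit 27030628), (nat_lit 20024807), (nat_lit 13470738)] (nat_lit 6577802)) p15_12_2 (nat_lit 4) (nat_lit 7) (nat_lit 8) = true := by decide +kernel
def p15_12_2_8 : pfC (piC [(nat_lit 42686981), (nat_lit 27030628), (nat_lit 20024807), (nat_lit 13470738)] (nat_lit 6577802)) p15_12_2 (nat_lit 4) (nat_lit 8) (nat_lit 9) = true := by decide +kernel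
def p15_12_2_9 : pfC (piC [(nat_lit 42686981), (nat_lit 27030628), (nat_lit 20024807), (nat_lit 13470738)] (nat_lit 6577802)) p15_12_2 (nat_lit 4) (nat_lit 9) (nat_lit 10) = true := by decide +kernel
def p15_12_2_10 : pfC (piC [(nat_lit 42686981), (nat_lit 27030628), (nat_lit 20024807), (nat_lit 13470738)] (nat_lit 6577802)) p15_12_2 (nat_lit 4) (nat_lit 10) (nat_lit 11) = true := by decide +kernel
def p15_12_2_11 : pfC (piC [(nat_lit 42686981), (nat_lit 27030628), (nat_lit 20024807), (nat_lit 13470738)] (nat_lit 6577802)) p15_12_2 (nat_lit 4) (nat_lit 11) (nat_lit 12) = true := by decide +kernel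
def p15_12_2_12 : pfC (piC [(nat_lit 42686981), (nat_lit 27030628), (nat_lit 20024807), (nat_lit 13470738)] (nat_lit 6577802)) p15_12_2 (nat_lit 4) (nat_lit 12) (nat_lit 13) = true := by decide +kernel
def p15_12_2_13 : pfC (piC [(nat_lit 42686981), (nat_lit 27030628), (nat_lit 20024807), (nat_lit 13470738)] (nat_lit 6577802)) p15_12_2 (nat_lit 4) (nat_lit 13) (nat_lit 14) = true := by decide +kernel
def p15_12_2_14 : pfC (piC [(nat_lit 42686981), (nat_lit 27030628), (nat_lit 20024807), (nat_lit 13470738)] (nat_lit 6577802)) p15_12_2 (nat_lit 4) (nat_lit 14) (nat_lit 15) = true := by decide +kernel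
def p15_12_2_15 : pfC (piC [(nat_lit 42686981), (nat_lit 27030628), (nat_lit 20024807), (nat_lit 13470738)] (nat_lit 6577802)) p15_12_2 (nat_lit 4) (nat_lit 15) (nat_lit 16) = true := by decide +kernel
def p15_12_2_16 : pfC (piC [(nat_lit 42686981), (nat_lit 27030628), (nat_lit 20024807), (nat_lit 13470738)] (nat_lit 6577802)) p15_12_2 (nat_lit 4) (nat_lit 16) (nat_lit 17) = true := by decide +kernel
def p15_12_2_17 : pfC (piC [(nat_lit 42686981), (nat_lit 27030628), (nat_lit 20024807), (nat_lit 13470738)] (nat_lit 6577802)) p15_12_2 (nat_lit 4) (nat_lit 17) (nat_lit 18) = true := by decide +kernel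
def p15_12_2_18 : pfC (piC [(nat_lit 42686981), (nat_lit 27030628), (nat_lit 20024807), (nat_lit 13470738)] (nat_lit 6577802)) p15_12_2 (nat_lit 4) (nat_lit 18) (nat_lit 19) = true := by decide +kernel
def p15_12_2_19 : pfC (piC [(nat_lit 42686981), (nat_lit 27030628), (nat_lit 20024807), (nat_lit 13470738)] (nat_lit 6577802)) p15_12_2 (nat_lit 4) (nat_lit 19) (nat_lit 20) = true := by decide +kernel
def p15_12_2_20 : pfC (piC [(nat_lit 42686981), (nat_lit 27030628), (nat_lit 20024807), (nat_lit 13470738)] (nat_lit 6577802)) p15_12_2 (nat_lit 4) (nat_lit 20) (nat_lit 21) = true := by decide +kernel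
def p15_12_2_21 : pfC (piC [(nat_lit 42686981), (nat_lit 27030628), (nat_lit 20024807), (nat_lit 13470738)] (nat_lit 6577802)) p15_12_2 (nat_lit 4) (nat_lit 21) (nat_lit 22) = true := by decide +kernel
def p15_12_2_22 : pfC (piC [(nat_lit 42686981), (nat_lit 27030628), (nat_lit 20024807), (nat_lit 13470738)] (nat_lit 6577802)) p15_12_2 (nat_lit 4) (nat_lit 22) (nat_lit 23) = true := by decide +kernel
def p15_12_2_23 : pfC (piC [(nat_lit 42686981), (nat_lit 27030628), (nat_lit 20024807), (nat_lit 13470738)] (nat_lit 6577802)) p15_12_2 (nat_lit 4) (nat_lit 23) (nat_lit 24) = true := by decide +kernel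
def p15_12_2_24 : pfC (piC [(nat_lit 42686981), (nat_lit 27030628), (nat_lit 20024807), (nat_lit 13470738)] (nat_lit 6577802)) p15_12_2 (nat_lit 4) (nat_lit 24) (nat_lit 25) = true := by decide +kernel
def p15_12_2_25 : pfC (piC [(nat_lit 42686981), (nat_lit 27030628), (nat_lit 20024807), (nat_lit 13470738)] (nat_lit 6577802)) p15_12_2 (nat_lit 4) (nat_lit 25) (nat_lit 26) = true := by decide +kernel
def p15_12_2_26 : pfC (piC [(nat_lit 42686981), (nat_lit 27030628), (nat_lit 20024807), (nat_lit 13470738)] (nat_lit 6577802)) p15_12_2 (nat_lit 4) (nat_lit 26) (nat_lit 27) = true := by decide +kernel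
def p15_12_2_27 : pfC (piC [(nat_lit 42686981), (nat_lit 27030628), (nat_lit 20024807), (nat_lit 13470738)] (nat_lit 6577802)) p15_12_2 (nat_lit 4) (nat_lit 27) (nat_lit 28) = true := by decide +kernel
def p15_12_2_28 : pfC (piC [(nat_lit 42686981), (nat_lit 27030628), (nat_lit 20024807), (nat_lit 13470738)] (nat_lit 6577802)) p15_12_2 (nat_lit 4) (nat_lit 28) (nat_lit 29) = true := by decide +kernel
def p15_12_2_29 : pfC (piC [(nat_lit 42686981), (nat_lit 27030628), (nat_lit 20024807), (nat_lit 13470738)] (nat_lit 6577802)) p15_12_2 (nat_lit 4) (nat_lit 29) (nat_lit 30) = true := by decide +kernel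
def p15_12_2_30 : pfC (piC [(nat_lit 42686981), (nat_lit 27030628), (nat_lit 20024807), (nat_lit 13470738)] (nat_lit 6577802)) p15_12_2 (nat_lit 4) (nat_lit 30) (nat_lit 31) = true := by decide +kernel
def p15_12_2_31 : pfC (piC [(nat_lit 42686981), (nat_lit 27030628), (nat_lit 20024807), (nat_lit 13470738)] (nat_lit 6577802)) p15_12_2 (nat_lit 4) (nat_lit 31) (nat_lit 32) = true := by decide +kernel
def p15_12_2_32 : pfC (piC [(nat_lit 42686981), (nat_lit 27030628), (nat_lit 20024807), (nat_lit 13470738)] (nat_lit 6577802)) p15_12_2 (nat_lit 4) (nat_lit 32) (nat_lit 33) = true := by decide +kernel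
def p15_12_2_33 : pfC (piC [(nat_lit 42686981), (nat_lit 27030628), (nat_lit 20024807), (nat_lit 13470738)] (nat_lit 6577802)) p15_12_2 (nat_lit 4) (nat_lit 33) (nat_lit 34) = true := by decide +kernel
def p15_12_2_34 : pfC (piC [(nat_lit 42686981), (nat_lit 27030628), (nat_lit 20024807), (nat_lit 13470738)] (nat_lit 6577802)) p15_12_2 (nat_lit 4) (nat_lit 34) (nat_lit 35) = true := by decide +kernel
def p15_12_2_35 : pfC (piC [(nat_lit 42686981), (nat_lit 27030628), (nat_lit 20024807), (nat_lit 13470738)] (nat_lit 6577802)) p15_12_2 (nat_lit 4) (nat_lit 35) (nat_lit 36) = true := by decide +kernel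
def p15_12_2_36 : pfC (piC [(nat_lit 42686981), (nat_lit 27030628), (nat_lit 20024807), (nat_lit 13470738)] (nat_lit 6577802)) p15_12_2 (nat_lit 4) (nat_lit 36) (nat_lit 37) = true := by decide +kernel
def p15_12_2_37 : pfC (piC [(nat_lit 42686981), (nat_lit 27030628), (nat_lit 20024807), (nat_lit 13470738)] (nat_lit 6577802)) p15_12_2 (nat_lit 4) (nat_lit 37) (nat_lit 38) = true := by decide +kernel
def p15_12_2_38 : pfC (piC [(nat_lit 42686981), (nat_lit 27030628), (nat_lit 20024807), (nat_lit 13470738)] (nat_lit 6577802)) p15_12_2 (nat_lit 4) (nat_lit 38) (nat_lit 39) = true := by decide +kernel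
def p15_12_2_39 : pfC (piC [(nat_lit 42686981), (nat_lit 27030628), (nat_lit 20024807), (nat_lit 13470738)] (nat_lit 6577802)) p15_12_2 (nat_lit 4) (nat_lit 39) (nat_lit 40) = true := by decide +kernel
def p15_12_2_40 : pfC (piC [(nat_lit 42686981), (nat_lit 27030628), (nat_lit 20024807), (nat_lit 13470738)] (nat_lit 6577802)) p15_12_2 (nat_lit 4) (nat_lit 40) (nat_lit 41) = true := by decide +kernel
def p15_12_2_41 : pfC (piC [(nat_lit 42686981), (nat_lit 27030628), (nat_lit 20024807), (nat_lit 13470738)] (nat_lit 6577802)) p15_12_2 (nat_lit 4) (nat_lit 41) (nat_lit 42) = true := by decide +kernel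
def p15_12_2_42 : pfC (piC [(nat_lit 42686981), (nat_lit 27030628), (nat_lit 20024807), (nat_lit 13470738)] (nat_lit 6577802)) p15_12_2 (nat_lit 4) (nat_lit 42) (nat_lit 43) = true := by decide +kernel
def p15_12_2_43 : pfC (piC [(nat_lit 42686981), (nat_lit 27030628), (nat_lit 20024807), (nat_lit 13470738)] (nat_lit 6577802)) p15_12_2 (nat_lit 4) (nat_lit 43) (nat_lit 44) = true := by decide +kernel
def p15_12_2_44 : pfC (piC [(nat_lit 42686981), (nat_lit 27030628), (nat_lit 20024807), (nat_lit 13470738)] (nat_lit 6577802)) p15_12_2 (nat_lit 4) (nat_lit 44) (nat_lit 45) = true := by decide +kernel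
def p15_12_2_45 : pfC (piC [(nat_lit 42686981), (nat_lit 27030628), (nat_lit 20024807), (nat_lit 13470738)] (nat_lit 6577802)) p15_12_2 (nat_lit 4) (nat_lit 45) (nat_lit 46) = true := by decide +kernel
def p15_12_2_46 : pfC (piC [(nat_lit 42686981), (nat_lit 27030628), (nat_lit 20024807), (nat_lit 13470738)] (nat_lit 6577802)) p15_12_2 (nat_lit 4) (nat_lit 46) (nat_lit 47) = true := by decide +kernel
def p15_12_2_47 : pfC (piC [(nat_lit 42686981), (nat_lit 27030628), (nat_lit 20024807), (nat_lit 13470738)] (nat_lit 6577802)) p15_12_2 (nat_lit 4) (nat_lit 47) (nat_lit 48) = true := by decide +kernel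
def p15_12_2_48 : pfC (piC [(nat_lit 42686981), (nat_lit 27030628), (nat_lit 20024807), (nat_lit 13470738)] (nat_lit 6577802)) p15_12_2 (nat_lit 4) (nat_lit 48) (nat_lit 49) = true := by decide +kernel
def p15_12_2_49 : pfC (piC [(nat_lit 42686981), (nat_lit 27030628), (nat_lit 20024807), (nat_lit 13470738)] (nat_lit 6577802)) p15_12_2 (nat_lit 4) (nat_lit 49) (nat_lit 50) = true := by decide +kernel
def p15_12_2_50 : pfC (piC [(nat_lit 42686981), (nat_lit 27030628), (nat_lit 20024807), (nat_lit 13470738)] (nat_lit 6577802)) p15_12_2 (nat_lit 4) (nat_lit 50) (nat_lit 51) = true := by decide +kernel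
def p15_12_2_51 : pfC (piC [(nat_lit 42686981), (nat_lit 27030628), (nat_lit 20024807), (nat_lit 13470738)] (nat_lit 6577802)) p15_12_2 (nat_lit 4) (nat_lit 51) (nat_lit 52) = true := by decide +kernel
def p15_12_2_52 : pfC (piC [(nat_lit 42686981), (nat_lit 27030628), (nat_lit 20024807), (nat_lit 13470738)] (nat_lit 6577802)) p15_12_2 (nat_lit 4) (nat_lit 52) (nat_lit 53) = true := by decide +kernel
def p15_12_2_53 : pfC (piC [(nat_lit 42686981), (nat_lit 27030628), (nat_lit 20024807), (nat_lit 13470738)] (nat_lit 6577802)) p15_12_2 (nat_lit 4) (nat_lit 53) (nat_lit 54) = true := by decide +kernel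
def p15_12_2_54 : pfC (piC [(nat_lit 42686981), (nat_lit 27030628), (nat_lit 20024807), (nat_lit 13470738)] (nat_lit 6577802)) p15_12_2 (nat_lit 4) (nat_lit 54) (nat_lit 55) = true := by decide +kernel
def p15_12_2_55 : pfC (piC [(nat_lit 42686981), (nat_lit 27030628), (nat_lit 20024807), (nat_lit 13470738)] (nat_lit 6577802)) p15_12_2 (nat_lit 4) (nat_lit 55) (nat_lit 56) = true := by decide +kernel
def p15_12_2_56 : pfC (piC [(nat_lit 42686981), (nat_lit 27030628), (nat_lit 20024807), (nat_lit 13470738)] (nat_lit 6577802)) p15_12_2 (nat_lit 4) (nat_lit 56) (nat_lit 57) = true := by decide +kernel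
def p15_12_2_57 : pfC (piC [(nat_lit 42686981), (nat_lit 27030628), (nat_lit 20024807), (nat_lit 13470738)] (nat_lit 6577802)) p15_12_2 (nat_lit 4) (nat_lit 57) (nat_lit 58) = true := by decide +kernel
def p15_12_2_58 : pfC (piC [(nat_lit 42686981), (nat_lit 27030628), (nat_lit 20024807), (nat_lit 13470738)] (nat_lit 6577802)) p15_12_2 (nat_lit 4) (nat_lit 58) (nat_lit 59) = true := by decide +kernel
def p15_12_2_59 : pfC (piC [(nat_lit 42686981), (nat_lit 27030628), (nat_lit 20024807), (nat_lit 13470738)] (nat_lit 6577802)) p15_12_2 (nat_lit 4) (nat_lit 59) (nat_lit 60) = true := by decide +kernel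
def p15_12_2_60 : pfC (piC [(nat_lit 42686981), (nat_lit 27030628), (nat_lit 20024807), (nat_lit 13470738)] (nat_lit 6577802)) p15_12_2 (nat_lit 4) (nat_lit 60) (nat_lit 61) = true := by decide +kernel
def p15_12_2_61 : pfC (piC [(nat_lit 42686981), (nat_lit 27030628), (nat_lit 20024807), (nat_lit 13470738)] (nat_lit 6577802)) p15_12_2 (nat_lit 4) (nat_lit 61) (nat_lit 62) = true := by decide +kernel
def p15_12_2_62 : pfC (piC [(nat_lit 42686981), (nat_lit 27030628), (nat_lit 20024807), (nat_lit 13470738)] (nat_lit 6577802)) p15_12_2 (nat_lit 4) (nat_lit 62) (nat_lit 63) = true := by decide +kernel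
def p15_12_2_63 : pfC (piC [(nat_lit 42686981), (nat_lit 27030628), (nat_lit 20024807), (nat_lit 13470738)] (nat_lit 6577802)) p15_12_2 (nat_lit 4) (nat_lit 63) (nat_lit 64) = true := by decide +kernel
def p15_12_2_64 : pfC (piC [(nat_lit 42686981), (nat_lit 27030628), (nat_lit 20024807), (nat_lit 13470738)] (nat_lit 6577802)) p15_12_2 (nat_lit 4) (nat_lit 64) (nat_lit 65) = true := by decide +kernel
def p15_12_2_65 : pfC (piC [(nat_lit 42686981), (nat_lit 27030628), (nat_lit 20024807), (nat_lit 13470738)] (nat_lit 6577802)) p15_12_2 (nat_lit 4) (nat_lit 65) (nat_lit 66) = true := by decide +kernel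
def p15_12_2_66 : pfC (piC [(nat_lit 42686981), (nat_lit 27030628), (nat_lit 20024807), (nat_lit 13470738)] (nat_lit 6577802)) p15_12_2 (nat_lit 4) (nat_lit 66) (nat_lit 67) = true := by decide +kernel
def p15_12_2_67 : pfC (piC [(nat_lit 42686981), (nat_lit 27030628), (nat_lit 20024807), (nat_lit 13470738)] (nat_lit 6577802)) p15_12_2 (nat_lit 4) (nat_lit 67) (nat_lit 68) = true := by decide +kernel
def p15_12_2_68 : pfC (piC [(nat_lit 42686981), (nat_lit 27030628), (nat_lit 20024807), (nat_lit 13470738)] (nat_lit 6577802)) p15_12_2 (nat_lit 4) (nat_lit 68) (nat_lit 69) = true := by decide +kernel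
def p15_12_2_69 : pfC (piC [(nat_lit 42686981), (nat_lit 27030628), (nat_lit 20024807), (nat_lit 13470738)] (nat_lit 6577802)) p15_12_2 (nat_lit 4) (nat_lit 69) (nat_lit 70) = true := by decide +kernel
def p15_12_2_70 : pfC (piC [(nat_lit 42686981), (nat_lit 27030628), (nat_lit 20024807), (nat_lit 13470738)] (nat_lit 6577802)) p15_12_2 (nat_lit 4) (nat_lit 70) (nat_lit 71) = true := by decide +kernel
def p15_12_2_71 : pfC (piC [(nat_lit 42686981), (nat_lit 27030628), (nat_lit 20024807), (nat_lit 13470738)] (nat_lit 6577802)) p15_12_2 (nat_lit 4) (nat_lit 71) (nat_lit 72) = true := by decide +kernel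
def p15_12_2_72 : pfC (piC [(nat_lit 42686981), (nat_lit 27030628), (nat_lit 20024807), (nat_lit 13470738)] (nat_lit 6577802)) p15_12_2 (nat_lit 4) (nat_lit 72) (nat_lit 73) = true := by decide +kernel
def p15_12_2_73 : pfC (piC [(nat_lit 42686981), (nat_lit 27030628), (nat_lit 20024807), (nat_lit 13470738)] (nat_lit 6577802)) p15_12_2 (nat_lit 4) (nat_lit 73) (nat_lit 74) = true := by decide +kernel
def p15_12_2_74 : pfC (piC [(nat_lit 42686981), (nat_lit 27030628), (nat_lit 20024807), (nat_lit 13470738)] (nat_lit 6577802)) p15_12_2 (nat_lit 4) (nat_lit 74) (nat_lit 75) = true := by decide +kernel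
theorem p15_12_2_T : PfS (PiF n15_12.reverse (nat_lit 6577802)) p15_12_2 (nat_lit 4) [] 0 :=
  pftab_of (los := [(nat_lit 42686981), (nat_lit 27030628), (nat_lit 20024807), (nat_lit 13470738)]) (by decide +kernel) (hi := (nat_lit 75)) (PfP.trans (PfP.trans (PfP.trans (PfP.trans (PfP.trans (PfP.trans (PfP.trans (PfP.trans (PfP.trans (PfP.trans (PfP.trans (PfP.trans (PfP.trans (PfP.trans (PfP.trans (PfP.trans (PfP.trans (PfP.trans (PfP.trans (PfP.trans (PfP.trans (PfP.trans (PfP.trans (PfP.trans (PfP.trans (PfP.trans (PfP.trans (PfP.trans (PfP.trans (PfP.trans (PfP.trans (PfP.trans (PfP.trans (PfP.trans (PfP.trans (PfP.trans (PfP.trans (PfP.trans (PfP.trans (PfP.trans (PfP.trans (PfP.trans (PfP.trans (PfP.trans (PfP.trans (PfP.trans (PfP.trans (PfP.trans (PfP.trans (PfP.trans (PfP.trans (PfP.trans (PfP.trans (PfP.trans (PfP.trans (PfP.trans (PfP.trans (PfP.trans (PfP.trans (PfP.trans (PfP.trans (PfP.trans (PfP.trans (PfP.trans (PfP.trans (PfP.trans (PfP.trans (PfP.trans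 (PfP.trans (PfP.trans (PfP.trans (PfP.trans (PfP.trans (PfP.trans (pfC_sound p15_12_2_0) (pfC_sound p15_12_2_1)) (pfC_sound p15_12_2_2)) (pfC_sound p15_12_2_3)) (pfC_sound p15_12_2_4)) (pfC_sound p15_12_2_5)) (pfC_sound p15_12_2_6)) (pfC_sound p15_12_2_7)) (pfC_sound p15_12_2_8)) (pfC_sound p15_12_2_9)) (pfC_sound p15_12_2_10)) (pfC_sound p15_12_2_11)) (pfC_sound p15_12_2_12)) (pfC_sound p15_12_2_13)) (pfC_sound p15_12_2_14)) (pfC_sound
 p15_12_2_15)) (pfC_sound p15_12_2_16)) (pfC_sound p15_12_2_17)) (pfC_sound p15_12_2_18)) (pfC_sound p15_12_2_19)) (pfC_sound p15_12_2_20)) (pfC_sound p15_12_2_21)) (pfC_sound p15_12_2_22)) (pfC_sound p15_12_2_23)) (pfC_sound p15_12_2_24)) (pfC_sound p15_12_2_25)) (pfC_sound p15_12_2_26)) (pfC_sound p15_12_2_27)) (pfC_sound p15_12_2_28)) (pfC_sound p15_12_2_29)) (pfC_sound p15_12_2_30)) (pfC_sound p15_12_2_31)) (pfC_sound p15_12_2_32)) (pfC_sound p15_12_2_33)) (pfC_sound p15_12_2_34)) (pfC_sound p15_12_2_35)) (pfC_sound p15_12_2_36))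 (pfC_sound p15_12_2_37)) (pfC_sound p15_12_2_38)) (pfC_sound p15_12_2_39)) (pfC_sound p15_12_2_40)) (pfC_sound p15_12_2_41)) (pfC_sound p15_12_2_42)) (pfC_sound p15_12_2_43)) (pfC_sound p15_12_2_44)) (pfC_sound p15_12_2_45)) (pfC_sound p15_12_2_46)) (pfC_sound p15_12_2_47)) (pfC_sound p15_12_2_48)) (pfC_sound p15_12_2_49)) (pfC_sound p15_12_2_50)) (pfC_sound p15_12_2_51)) (pfC_sound p15_12_2_52)) (pfC_sound p15_12_2_53)) (pfC_sound p15_12_2_54)) (pfC_sound p15_12_2_55)) (pfC_sound p15_12_2_56)) (pfC_sound p15_12_2_57)) (pfC_sound p15_12_2_58)) (pfC_sound p15_12_2_59)) (pfC_sound p15_12_2_60)) (pfC_sound p15_12_2_61)) (pfC_sound p15_12_2_62)) (pfC_sound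
 p15_12_2_63)) (pfC_sound p15_12_2_64)) (pfC_sound p15_12_2_65)) (pfC_sound p15_12_2_66)) (pfC_sound p15_12_2_67)) (pfC_sound p15_12_2_68)) (pfC_sound p15_12_2_69)) (pfC_sound p15_12_2_70)) (pfC_sound p15_12_2_71)) (pfC_sound p15_12_2_72)) (pfC_sound p15_12_2_73)) (pfC_sound p15_12_2_74)) (by decide +kernel)

def z15_12_2 : zOK yB15_12 (nat_lit 2) (nat_lit 600) (nat_lit 750) (nat_lit 6577802) (nat_lit 4796502) = true := by decide +kernel
def g15_12_2 : gOK yB15_12.x P15_12 (nat_lit 1429) (q15_12 :: r15_12) (nat_lit 2) (nat_lit 600) (nat_lit 3) (nat_lit 750) (nat_lit 12712500) (nat_lit 12712500) (nat_lit 12712500) (nat_lit 12712500) [(nat_lit 800), (nat_lit 1600)] = true := by decide +kernel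
def v15_12_2 : ivC P15_12 s15_12 w15_12 n15_12 (nat_lit 4) (nat_lit 4880) (nat_lit 2) (nat_lit 600) f144_1_600 f152_1_600 (nat_lit 3) (nat_lit 750) f144_1_750 f152_1_750 (nat_lit 6577802) (nat_lit 4796502) p15_12_2 = true := by decide +kernel
def p15_12_3 : PF := (PF.cons (PF.cons (PF.cons (PF.cons (PF.leaf (nat_lit 3107362) (nat_lit 21004422) (nat_lit 46104390) (nat_lit 21004422) [(nat_lit 0), (nat_lit 0), (nat_lit 0), (nat_lit 0)]) (PF.cons (PF.leaf (nat_lit 3216822) (nat_lit 184686) (nat_lit 45954678) (nat_lit 20969447) [(nat_lit 184686), (nat_lit 0), (nat_lit 0), (nat_lit 0)]) (PF.cons (PF.leaf (nat_lit 3349108) (nat_lit 200787) (nat_lit 45779184) (nat_lit 20928052) [(nat_lit 200787), (nat_lit 0), (nat_lit 0), (nat_lit 0)]) (PF.cons (PF.leaf (nat_lit 3497633) (nat_lit 215081) (nat_lit 45582426) (nat_lit 20881142) [(nat_lit 215081), (nat_lit 0), (nat_lit 0), (nat_lit 0)]) (PF.cons (PF.leaf (nat_lit 3660025) (nat_lit 227980) (nat_lit 45367566) (nat_lit 20829323)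 [(nat_lit 227980), (nat_lit 0), (nat_lit 0), (nat_lit 0)]) (PF.cons (PF.leaf (nat_lit 3834879) (nat_lit 239752) (nat_lit 45137013) (nat_lit 20773038) [(nat_lit 239752), (nat_lit 0), (nat_lit 0), (nat_lit 0)]) (PF.cons (PF.leaf (nat_lit 4020574) (nat_lit 250578) (nat_lit 44892704) (nat_lit 20712636) [(nat_lit 250578), (nat_lit 0), (nat_lit 0), (nat_lit 0)]) (PF.cons (PF.leaf (nat_lit 4216087) (nat_lit 260592) (nat_lit 44636260) (nat_lit 20648403) [(nat_lit 260592), (nat_lit 0),
 (nat_lit 0), (nat_lit 0)]) (PF.cons PF.nil (PF.cons PF.nil PF.nil)))))))))) (PF.cons (PF.cons (PF.leaf (nat_lit 3549085) (nat_lit 1006875) (nat_lit 45292765) (nat_lit 20809171) [(nat_lit 0), (nat_lit 1006875), (nat_lit 0), (nat_lit 0)]) (PF.cons (PF.leaf (nat_lit 3693997) (nat_lit 225329) (nat_lit 45094436) (nat_lit 20760560) [(nat_lit 225329), (nat_lit 1028486), (nat_lit 0), (nat_lit 0)]) (PF.cons (PF.leaf (nat_lit 3855859) (nat_lit 237621) (nat_lit 44877010) (nat_lit 20706681) [(nat_lit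 237621), (nat_lit 1049878), (nat_lit 0), (nat_lit 0)]) (PF.cons (PF.leaf (nat_lit 4030356) (nat_lit 248786) (nat_lit 44643593) (nat_lit 20648164) [(nat_lit 248786), (nat_lit 1070696), (nat_lit 0), (nat_lit 0)]) (PF.cons (PF.leaf (nat_lit 4215973) (nat_lit 259029) (nat_lit 44396480) (nat_lit 20585460) [(nat_lit 259029), (nat_lit 1090754), (nat_lit 0), (nat_lit 0)]) (PF.cons (PF.leaf (nat_lit 4411439) (nat_lit 268491) (nat_lit 44137483) (nat_lit 20518916) [(nat_lit 268491), (nat_lit 1109955), (nat_lit 0), (nat_lit 0)]) (PF.cons (PF.leaf (nat_lit 4615700) (nat_lit 277273) (nat_lit 43868096) (nat_lit 20448817) [(nat_lit 277273), (nat_lit 1128256), (nat_lit 0), (nat_lit 0)]) (PF.cons PF.nil (PF.cons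
 PF.nil PF.nil))))))))) (PF.cons (PF.cons (PF.leaf (nat_lit 4056044) (nat_lit 1079552) (nat_lit 44372448) (nat_lit 20577259) [(nat_lit 0), (nat_lit 1079552), (nat_lit 0), (nat_lit 0)]) (PF.cons (PF.leaf (nat_lit 4227443) (nat_lit 256538) (nat_lit 44139159) (nat_lit 20517256) [(nat_lit 256538), (nat_lit 1097929), (nat_lit 0), (nat_lit 0)]) (PF.cons (PF.leaf (nat_lit 4411956) (nat_lit 266375) (nat_lit 43891593) (nat_lit 20452844) [(nat_lit 266375), (nat_lit 1115811), (nat_lit 0), (nat_lit 0)]) (PF.cons (PF.leaf (nat_lit 4606588) (nat_lit 275420) (nat_lit 43631967) (nat_lit 20384486) [(nat_lit 275420), (nat_lit 1133048), (nat_lit 0), (nat_lit 0)]) (PF.cons (PF.leaf (nat_lit 4810125) (nat_lit 283790) (nat_lit 43361999) (nat_lit 20312537) [(nat_lit 283790), (nat_lit 1149556), (nat_lit 0), (nat_lit 0)]) (PF.cons PF.nil (PF.cons PF.nil PF.nil))))))) (PF.cons (PF.cons (PF.leaf (nat_lit 4610432) (nat_lit 1138318) (nat_lit 43378908) (nat_lit 20314949) [(nat_lit 0), (nat_lit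 1138318), (nat_lit 0), (nat_lit 0)]) (PF.cons (PF.leaf (nat_lit 4802076) (nat_lit 281464) (nat_lit 43120648) (nat_lit 20245330) [(nat_lit 281464), (nat_lit 1153789), (nat_lit 0), (nat_lit 0)]) (PF.cons (PF.leaf (nat_lit
 5004150) (nat_lit 289519) (nat_lit 42851720) (nat_lit 20171992) [(nat_lit 289519), (nat_lit 1168686), (nat_lit 0), (nat_lit 0)]) (PF.cons (PF.leaf (nat_lit 5214304) (nat_lit 296976) (nat_lit 42573765) (nat_lit 20095296) [(nat_lit 296976), (nat_lit 1182940), (nat_lit 0), (nat_lit 0)]) (PF.cons PF.nil PF.nil))))) (PF.cons (PF.cons (PF.leaf (nat_lit 5199280) (nat_lit 1185898) (nat_lit 42337865) (nat_lit 20027354) [(nat_lit 0), (nat_lit 1185898), (nat_lit 0), (nat_lit 0)]) (PF.cons (PF.leaf (nat_lit 5406408) (nat_lit 301719) (nat_lit 42062262) (nat_lit 19949651) [(nat_lit 301719), (nat_lit 1198794), (nat_lit 0), (nat_lit 0)]) (PF.cons PF.nil (PF.cons PF.nil PF.nil)))) (PF.cons (PF.cons (PF.leaf (nat_lit 5812498) (nat_lit 1224192) (nat_lit 41268860)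 (nat_lit 19718992) [(nat_lit 0), (nat_lit 1224192), (nat_lit 0), (nat_lit 0)]) (PF.cons PF.nil PF.nil)) (PF.cons PF.nil (PF.cons PF.nil PF.nil)))))))) (PF.cons (PF.cons (PF.cons (PF.leaf (nat_lit 4039117) (nat_lit 2758970) (nat_lit 43904959) (nat_lit 20444882) [(nat_lit 0), (nat_lit 0), (nat_lit 2758970), (nat_lit 0)]) (PF.cons (PF.leaf (nat_lit 4191780) (nat_lit 242481) (nat_lit 43698604) (nat_lit 20390721) [(nat_lit 242481), (nat_lit 0),
 (nat_lit 2777005), (nat_lit 0)]) (PF.cons (PF.leaf (nat_lit 4360695) (nat_lit 254137) (nat_lit 43473990) (nat_lit 20331176) [(nat_lit 254137), (nat_lit 0), (nat_lit 2795370), (nat_lit 0)]) (PF.cons (PF.leaf (nat_lit 4541617) (nat_lit 264576) (nat_lit 43234438) (nat_lit 20267002) [(nat_lit 264576), (nat_lit 0), (nat_lit 2813643), (nat_lit 0)]) (PF.cons (PF.leaf (nat_lit 4732937) (nat_lit 274045) (nat_lit 42982359) (nat_lit 20198731) [(nat_lit 274045), (nat_lit 0), (nat_lit 2831539), (nat_lit 0)]) (PF.cons (PF.leaf (nat_lit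 4933346) (nat_lit 282712) (nat_lit 42719612) (nat_lit 20126771) [(nat_lit 282712), (nat_lit 0), (nat_lit 2848864), (nat_lit 0)]) (PF.cons PF.nil PF.nil))))))) (PF.cons (PF.cons (PF.leaf (nat_lit 4559335) (nat_lit 1126086) (nat_lit 42965950) (nat_lit 20192206) [(nat_lit 0), (nat_lit 1126086), (nat_lit 2824569), (nat_lit 0)]) (PF.cons (PF.leaf (nat_lit 4736317) (nat_lit 270661) (nat_lit 42728733) (nat_lit 20127208) [(nat_lit 270661), (nat_lit 1141680), (nat_lit 2840529), (nat_lit 0)]) (PF.cons (PF.leaf (nat_lit 4925638) (nat_lit 279837) (nat_lit 42478246) (nat_lit 20057860) [(nat_lit 279837), (nat_lit 1156785), (nat_lit 2856243), (nat_lit 0)]) (PF.cons (PF.leaf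
 (nat_lit 5124423) (nat_lit 288189) (nat_lit 42216769) (nat_lit 19984693) [(nat_lit 288189), (nat_lit 1171286), (nat_lit 2871495), (nat_lit 0)]) (PF.cons (PF.leaf (nat_lit 5331431) (nat_lit 295851) (nat_lit 41946039) (nat_lit 19908109) [(nat_lit 295851), (nat_lit 1185122), (nat_lit 2886136), (nat_lit 0)]) PF.nil))))) (PF.cons (PF.cons (PF.leaf (nat_lit 5120474) (nat_lit 1174482) (nat_lit 41969280) (nat_lit 19912639) [(nat_lit 0), (nat_lit 1174482), (nat_lit 2877927), (nat_lit 0)]) (PF.cons (PF.leaf (nat_lit 5315619) (nat_lit 292920) (nat_lit 41710788) (nat_lit 19838793) [(nat_lit 292920), (nat_lit 1187530), (nat_lit 2891248), (nat_lit 0)]) (PF.cons (PF.leaf (nat_lit 5520531) (nat_lit 300346) (nat_lit 41442604) (nat_lit 19761380) [(nat_lit 300346), (nat_lit 1200038), (nat_lit 2904058), (nat_lit 0)]) (PF.cons PF.nil PF.nil)))) (PF.cons (PF.cons (PF.leaf (nat_lit 5710611) (nat_lit 1213414) (nat_lit 40937710) (nat_lit 19611386) [(nat_lit 0), (nat_lit 1213414), (nat_lit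 2919473), (nat_lit 0)]) (PF.cons (PF.leaf (nat_lit 5919494) (nat_lit 310842) (nat_lit 40665018) (nat_lit 19530316) [(nat_lit 310842), (nat_lit 1224199), (nat_lit 2930036), (nat_lit 0)]) PF.nil)) (PF.cons PF.nil (PF.cons
 PF.nil PF.nil)))))) (PF.cons (PF.cons (PF.cons (PF.leaf (nat_lit 5056125) (nat_lit 2868728) (nat_lit 41580458) (nat_lit 19790896) [(nat_lit 0), (nat_lit 0), (nat_lit 2868728), (nat_lit 0)]) (PF.cons (PF.leaf (nat_lit 5237021) (nat_lit 282051) (nat_lit 41342546) (nat_lit 19722009) [(nat_lit 282051), (nat_lit 0), (nat_lit 2881102), (nat_lit 0)]) (PF.cons (PF.leaf (nat_lit 5429683) (nat_lit 290639) (nat_lit 41092301) (nat_lit 19648869) [(nat_lit 290639), (nat_lit 0), (nat_lit 2893181), (nat_lit 0)]) (PF.cons (PF.leaf (nat_lit 5631219) (nat_lit 298380) (nat_lit 40832017) (nat_lit 19572059) [(nat_lit 298380), (nat_lit 0), (nat_lit 2904797), (nat_lit 0)]) (PF.cons PF.nil PF.nil))))) (PF.cons (PF.cons (PF.leaf (nat_lit 5620214) (nat_lit 1201626) (nat_lit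 40591959) (nat_lit 19498541) [(nat_lit 0), (nat_lit 1201626), (nat_lit 2908342), (nat_lit 0)]) (PF.cons (PF.leaf (nat_lit 5817605) (nat_lit 302034) (nat_lit 40335835) (nat_lit 19421557) [(nat_lit 302034), (nat_lit 1212655), (nat_lit 2918365), (nat_lit 0)]) (PF.cons (PF.leaf (nat_lit 6024159) (nat_lit 308903) (nat_lit 40070882) (nat_lit 19341173) [(nat_lit 308903), (nat_lit 1223170), (nat_lit 2927889), (nat_lit 0)]) (PF.cons PF.nil
 PF.nil)))) (PF.cons (PF.cons (PF.leaf (nat_lit 6208794) (nat_lit 1233426) (nat_lit 39578418) (nat_lit 19187773) [(nat_lit 0), (nat_lit 1233426), (nat_lit 2937884), (nat_lit 0)]) (PF.cons PF.nil PF.nil)) (PF.cons PF.nil (PF.cons PF.nil PF.nil))))) (PF.cons (PF.cons (PF.cons (PF.leaf (nat_lit 6108367) (nat_lit 2925439) (nat_lit 39254856) (nat_lit 19077637) [(nat_lit 0), (nat_lit 0), (nat_lit 2925439), (nat_lit 0)]) (PF.cons (PF.leaf (nat_lit 6306933) (nat_lit 309210) (nat_lit 39002995) (nat_lit 18998461) [(nat_lit 309210), (nat_lit 0),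 (nat_lit 2932715), (nat_lit 0)]) (PF.cons PF.nil (PF.cons PF.nil PF.nil)))) (PF.cons (PF.cons (PF.leaf (nat_lit 6693104) (nat_lit 1247316) (nat_lit 38265364) (nat_lit 18760881) [(nat_lit 0), (nat_lit 1247316), (nat_lit 2945083), (nat_lit 0)]) (PF.cons PF.nil PF.nil)) (PF.cons PF.nil PF.nil))) (PF.cons (PF.cons (PF.cons (PF.leaf (nat_lit 7163188) (nat_lit 2943200) (nat_lit 37001734) (nat_lit 18334275) [(nat_lit 0), (nat_lit 0), (nat_lit 2943200), (nat_lit 0)]) (PF.cons PF.nil PF.nil)) (PF.cons PF.nil PF.nil)) (PF.cons PF.nil PF.nil)))))) (PF.cons (PF.cons (PF.cons (PF.cons (PF.leaf (nat_lit 4816209) (nat_lit 7057719) (nat_lit 40606655) (nat_lit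
 19444438) [(nat_lit 0), (nat_lit 0), (nat_lit 0), (nat_lit 7057719)]) (PF.cons (PF.leaf (nat_lit 4969717) (nat_lit 250996) (nat_lit 40413045) (nat_lit 19387215) [(nat_lit 250996), (nat_lit 0), (nat_lit 0), (nat_lit 7057555)]) (PF.cons (PF.leaf (nat_lit 5138742) (nat_lit 262228) (nat_lit 40202984) (nat_lit 19324653) [(nat_lit 262228), (nat_lit 0), (nat_lit 0), (nat_lit 7056717)]) (PF.cons (PF.leaf (nat_lit 5319071) (nat_lit 272144) (nat_lit 39979670) (nat_lit 19257606) [(nat_lit 272144), (nat_lit 0), (nat_lit 0), (nat_lit 7055102)]) (PF.cons (PF.leaf (nat_lit 5509040) (nat_lit 281021) (nat_lit 39745410) (nat_lit 19186682) [(nat_lit 281021), (nat_lit 0), (nat_lit 0), (nat_lit 7052632)]) (PF.cons (PF.leaf (nat_lit 5707316) (nat_lit 289048) (nat_lit 39501974) (nat_lit 19112345) [(nat_lit 289048), (nat_lit 0), (nat_lit 0), (nat_lit 7049250)]) (PF.cons PF.nil PF.nil))))))) (PF.cons (PF.cons (PF.leaf (nat_lit 5328223) (nat_lit 1145273) (nat_lit 39733914) (nat_lit 19181307)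 [(nat_lit 0), (nat_lit 1145273), (nat_lit 0), (nat_lit 7048317)]) (PF.cons (PF.leaf (nat_lit 5503845) (nat_lit 276887) (nat_lit 39514009) (nat_lit 19114147) [(nat_lit 276887), (nat_lit 1158454), (nat_lit 0), (nat_lit
 7045313)]) (PF.cons (PF.leaf (nat_lit 5691097) (nat_lit 285505) (nat_lit 39282428) (nat_lit 19042856) [(nat_lit 285505), (nat_lit 1171078), (nat_lit 0), (nat_lit 7041438)]) (PF.cons (PF.leaf (nat_lit 5887087) (nat_lit 293253) (nat_lit 39041318) (nat_lit 18968018) [(nat_lit 293253), (nat_lit 1183065), (nat_lit 0), (nat_lit 7036650)]) (PF.cons (PF.leaf (nat_lit 6090571) (nat_lit 300281) (nat_lit 38792307) (nat_lit 18890077) [(nat_lit 300281), (nat_lit 1194381), (nat_lit 0), (nat_lit 7030919)]) PF.nil))))) (PF.cons (PF.cons (PF.leaf (nat_lit 5875006) (nat_lit 1184193) (nat_lit 38816901) (nat_lit 18895933) [(nat_lit 0), (nat_lit 1184193), (nat_lit 0), (nat_lit 7027591)]) (PF.cons (PF.leaf (nat_lit 6066851) (nat_lit 296797) (nat_lit 38579541) (nat_lit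 18821084) [(nat_lit 296797), (nat_lit 1194929), (nat_lit 0), (nat_lit 7021530)]) (PF.cons (PF.leaf (nat_lit 6267702) (nat_lit 303627) (nat_lit 38333824) (nat_lit 18742975) [(nat_lit 303627), (nat_lit 1205114), (nat_lit 0), (nat_lit 7014528)]) (PF.cons PF.nil PF.nil)))) (PF.cons (PF.cons (PF.leaf (nat_lit 6445586) (nat_lit 1214598) (nat_lit 37875430) (nat_lit 18593728) [(nat_lit 0), (nat_lit 1214598), (nat_lit 0), (nat_lit 6995856)])
 (PF.cons (PF.leaf (nat_lit 6649398) (nat_lit 312475) (nat_lit 37626900) (nat_lit 18512904) [(nat_lit 312475), (nat_lit 1223252), (nat_lit 0), (nat_lit 6986773)]) PF.nil)) (PF.cons PF.nil PF.nil))))) (PF.cons (PF.cons (PF.cons (PF.leaf (nat_lit 5797483) (nat_lit 2855120) (nat_lit 38474083) (nat_lit 18778645) [(nat_lit 0), (nat_lit 0), (nat_lit 2855120), (nat_lit 7000963)]) (PF.cons (PF.leaf (nat_lit 5975650) (nat_lit 285559) (nat_lit 38255685) (nat_lit 18709110) [(nat_lit 285559), (nat_lit 0), (nat_lit 2863519), (nat_lit 6994937)])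 (PF.cons (PF.leaf (nat_lit 6164920) (nat_lit 293622) (nat_lit 38026441) (nat_lit 18635585) [(nat_lit 293622), (nat_lit 0), (nat_lit 2871562), (nat_lit 6987979)]) (PF.cons (PF.leaf (nat_lit 6362399) (nat_lit 300807) (nat_lit 37788479) (nat_lit 18558686) [(nat_lit 300807), (nat_lit 0), (nat_lit 2879133), (nat_lit 6980089)]) (PF.cons PF.nil PF.nil))))) (PF.cons (PF.cons (PF.leaf (nat_lit 6344157) (nat_lit 1201831) (nat_lit 37572252) (nat_lit 18486500) [(nat_lit 0), (nat_lit 1201831), (nat_lit 2879536), (nat_lit 6968691)]) (PF.cons (PF.leaf (nat_lit 6537146) (nat_lit 303467) (nat_lit 37338820) (nat_lit 18409980) [(nat_lit 303467), (nat_lit 1210895), (nat_lit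
 2885865), (nat_lit 6959783)]) (PF.cons (PF.leaf (nat_lit 6738565) (nat_lit 309796) (nat_lit 37097750) (nat_lit 18330373) [(nat_lit 309796), (nat_lit 1219442), (nat_lit 2891712), (nat_lit 6949939)]) (PF.cons PF.nil PF.nil)))) (PF.cons (PF.cons (PF.leaf (nat_lit 6911088) (nat_lit 1226500) (nat_lit 36653177) (nat_lit 18180254) [(nat_lit 0), (nat_lit 1226500), (nat_lit 2895692), (nat_lit 6926688)]) (PF.cons PF.nil PF.nil)) PF.nil))) (PF.cons (PF.cons (PF.cons (PF.leaf (nat_lit 6801634) (nat_lit 2881654) (nat_lit 36370131) (nat_lit 18076804) [(nat_lit 0), (nat_lit 0), (nat_lit 2881654), (nat_lit 6898567)]) (PF.cons (PF.leaf (nat_lit 6994919) (nat_lit 308614) (nat_lit 36141821) (nat_lit 17999310) [(nat_lit 308614), (nat_lit 0), (nat_lit 2885886), (nat_lit 6887292)]) (PF.cons PF.nil PF.nil))) (PF.cons (PF.cons (PF.leaf (nat_lit 7363336) (nat_lit 1233811) (nat_lit 35476983) (nat_lit 17769021) [(nat_lit 0), (nat_lit 1233811), (nat_lit 2890404), (nat_lit 6848188)]) PF.nil)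 PF.nil)) (PF.cons PF.nil (PF.cons PF.nil PF.nil))))) (PF.cons (PF.cons (PF.cons (PF.cons (PF.leaf (nat_lit 6476544) (nat_lit 6795314) (nat_lit 35709558) (nat_lit 17808626) [(nat_lit 0), (nat_lit 0), (nat_lit 0), (nat_lit
 6795314)]) (PF.cons (PF.leaf (nat_lit 6651054) (nat_lit 285952) (nat_lit 35510471) (nat_lit 17740483) [(nat_lit 285952), (nat_lit 0), (nat_lit 0), (nat_lit 6785953)]) (PF.cons (PF.leaf (nat_lit 6836092) (nat_lit 293544) (nat_lit 35301804) (nat_lit 17668634) [(nat_lit 293544), (nat_lit 0), (nat_lit 0), (nat_lit 6775642)]) (PF.cons (PF.leaf (nat_lit 7028774) (nat_lit 300247) (nat_lit 35085512) (nat_lit 17593699) [(nat_lit 300247), (nat_lit 0), (nat_lit 0), (nat_lit 6764428)]) (PF.cons PF.nil PF.nil))))) (PF.cons (PF.cons (PF.leaf (nat_lit 7004868) (nat_lit 1191411) (nat_lit 34891560) (nat_lit 17524496) [(nat_lit 0), (nat_lit 1191411), (nat_lit 0), (nat_lit 6750672)]) (PF.cons (PF.leaf (nat_lit 7192772) (nat_lit 302156) (nat_lit 34679820) (nat_lit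 17450288) [(nat_lit 302156), (nat_lit 1198964), (nat_lit 0), (nat_lit 6738791)]) (PF.cons PF.nil (PF.cons PF.nil PF.nil)))) (PF.cons (PF.cons (PF.leaf (nat_lit 7550320) (nat_lit 1210745) (nat_lit 34061295) (nat_lit 17229427) [(nat_lit 0), (nat_lit 1210745), (nat_lit 0), (nat_lit 6698299)]) (PF.cons PF.nil PF.nil)) PF.nil))) (PF.cons (PF.cons (PF.cons (PF.leaf (nat_lit 7434666) (nat_lit 2821977) (nat_lit 33813626) (nat_lit 17133689)
 [(nat_lit 0), (nat_lit 0), (nat_lit 2821977), (nat_lit 6669759)]) (PF.cons (PF.leaf (nat_lit 7622378) (nat_lit 305823) (nat_lit 33607203) (nat_lit 17059283) [(nat_lit 305823), (nat_lit 0), (nat_lit 2824067), (nat_lit 6656217)]) PF.nil)) (PF.cons PF.nil PF.nil)) (PF.cons PF.nil PF.nil))) (PF.cons (PF.cons (PF.cons (PF.cons (PF.leaf (nat_lit 8016331) (nat_lit 6436220) (nat_lit 31545451) (nat_lit 16254699) [(nat_lit 0), (nat_lit 0), (nat_lit 0), (nat_lit 6436220)]) (PF.cons PF.nil PF.nil)) (PF.cons PF.nil PF.nil)) (PF.cons PF.nil PF.nil))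 (PF.cons PF.nil (PF.cons PF.nil (PF.cons PF.nil (PF.cons PF.nil PF.nil))))))))

def p15_12_3_0 : pfC (piC [(nat_lit 42686981), (nat_lit 27030628), (nat_lit 20024807), (nat_lit 13470738)] (nat_lit 4796502)) p15_12_3 (nat_lit 4) (nat_lit 0) (nat_lit 1) = true := by decide +kernel
def p15_12_3_1 : pfC (piC [(nat_lit 42686981), (nat_lit 27030628), (nat_lit 20024807), (nat_lit 13470738)] (nat_lit 4796502)) p15_12_3 (nat_lit 4) (nat_lit 1) (nat_lit 2) = true := by decide +kernel
def p15_12_3_2 : pfC (piC [(nat_lit 42686981), (nat_lit 27030628), (nat_lit 20024807), (nat_lit 13470738)] (nat_lit 4796502)) p15_12_3 (nat_lit 4) (nat_lit 2) (nat_lit 3) = true := by decide +kernel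
def p15_12_3_3 : pfC (piC [(nat_lit 42686981), (nat_lit 27030628), (nat_lit 20024807), (nat_lit 13470738)] (nat_lit 4796502)) p15_12_3 (nat_lit 4) (nat_lit 3) (nat_lit 4) = true := by decide +kernel
def p15_12_3_4 : pfC (piC [(nat_lit 42686981), (nat_lit 27030628), (nat_lit 20024807), (nat_lit 13470738)] (nat_lit 4796502)) p15_12_3 (nat_lit 4) (nat_lit 4) (nat_lit 5) = true := by decide +kernel
def p15_12_3_5 : pfC (piC [(nat_lit 42686981), (nat_lit 27030628), (nat_lit 20024807), (nat_lit 13470738)] (nat_lit 4796502)) p15_12_3 (nat_lit 4) (nat_lit 5) (nat_lit 6) = true := by decide +kernel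
def p15_12_3_6 : pfC (piC [(nat_lit 42686981), (nat_lit 27030628), (nat_lit 20024807), (nat_lit 13470738)] (nat_lit 4796502)) p15_12_3 (nat_lit 4) (nat_lit 6) (nat_lit 7) = true := by decide +kernel
def p15_12_3_7 : pfC (piC [(nat_lit 42686981), (nat_lit 27030628), (nat_lit 20024807), (nat_lit 13470738)] (nat_lit 4796502)) p15_12_3 (nat_lit 4) (nat_lit 7) (nat_lit 8) = true := by decide +kernel
def p15_12_3_8 : pfC (piC [(nat_lit 42686981), (nat_lit 27030628), (nat_lit 20024807), (nat_lit 13470738)] (nat_lit 4796502)) p15_12_3 (nat_lit 4) (nat_lit 8) (nat_lit 9) = true := by decide +kernel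
def p15_12_3_9 : pfC (piC [(nat_lit 42686981), (nat_lit 27030628), (nat_lit 20024807), (nat_lit 13470738)] (nat_lit 4796502)) p15_12_3 (nat_lit 4) (nat_lit 9) (nat_lit 10) = true := by decide +kernel
def p15_12_3_10 : pfC (piC [(nat_lit 42686981), (nat_lit 27030628), (nat_lit 20024807), (nat_lit 13470738)] (nat_lit 4796502)) p15_12_3 (nat_lit 4) (nat_lit 10) (nat_lit 11) = true := by decide +kernel
def p15_12_3_11 : pfC (piC [(nat_lit 42686981), (nat_lit 27030628), (nat_lit 20024807), (nat_lit 13470738)] (nat_lit 4796502)) p15_12_3 (nat_lit 4) (nat_lit 11) (nat_lit 12) = true := by decide +kernel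
def p15_12_3_12 : pfC (piC [(nat_lit 42686981), (nat_lit 27030628), (nat_lit 20024807), (nat_lit 13470738)] (nat_lit 4796502)) p15_12_3 (nat_lit 4) (nat_lit 12) (nat_lit 13) = true := by decide +kernel
def p15_12_3_13 : pfC (piC [(nat_lit 42686981), (nat_lit 27030628), (nat_lit 20024807), (nat_lit 13470738)] (nat_lit 4796502)) p15_12_3 (nat_lit 4) (nat_lit 13) (nat_lit 14) = true := by decide +kernel
def p15_12_3_14 : pfC (piC [(nat_lit 42686981), (nat_lit 27030628), (nat_lit 20024807), (nat_lit 13470738)] (nat_lit 4796502)) p15_12_3 (nat_lit 4) (nat_lit 14) (nat_lit 15) = true := by decide +kernel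
def p15_12_3_15 : pfC (piC [(nat_lit 42686981), (nat_lit 27030628), (nat_lit 20024807), (nat_lit 13470738)] (nat_lit 4796502)) p15_12_3 (nat_lit 4) (nat_lit 15) (nat_lit 16) = true := by decide +kernel
def p15_12_3_16 : pfC (piC [(nat_lit 42686981), (nat_lit 27030628), (nat_lit 20024807), (nat_lit 13470738)] (nat_lit 4796502)) p15_12_3 (nat_lit 4) (nat_lit 16) (nat_lit 17) = true := by decide +kernel
def p15_12_3_17 : pfC (piC [(nat_lit 42686981), (nat_lit 27030628), (nat_lit 20024807), (nat_lit 13470738)] (nat_lit 4796502)) p15_12_3 (nat_lit 4) (nat_lit 17) (nat_lit 18) = true := by decide +kernel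
def p15_12_3_18 : pfC (piC [(nat_lit 42686981), (nat_lit 27030628), (nat_lit 20024807), (nat_lit 13470738)] (nat_lit 4796502)) p15_12_3 (nat_lit 4) (nat_lit 18) (nat_lit 19) = true := by decide +kernel
def p15_12_3_19 : pfC (piC [(nat_lit 42686981), (nat_lit 27030628), (nat_lit 20024807), (nat_lit 13470738)] (nat_lit 4796502)) p15_12_3 (nat_lit 4) (nat_lit 19) (nat_lit 20) = true := by decide +kernel
def p15_12_3_20 : pfC (piC [(nat_lit 42686981), (nat_lit 27030628), (nat_lit 20024807), (nat_lit 13470738)] (nat_lit 4796502)) p15_12_3 (nat_lit 4) (nat_lit 20) (nat_lit 21) = true := by decide +kernel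
def p15_12_3_21 : pfC (piC [(nat_lit 42686981), (nat_lit 27030628), (nat_lit 20024807), (nat_lit 13470738)] (nat_lit 4796502)) p15_12_3 (nat_lit 4) (nat_lit 21) (nat_lit 22) = true := by decide +kernel
def p15_12_3_22 : pfC (piC [(nat_lit 42686981), (nat_lit 27030628), (nat_lit 20024807), (nat_lit 13470738)] (nat_lit 4796502)) p15_12_3 (nat_lit 4) (nat_lit 22) (nat_lit 23) = true := by decide +kernel
def p15_12_3_23 : pfC (piC [(nat_lit 42686981), (nat_lit 27030628), (nat_lit 20024807), (nat_lit 13470738)] (nat_lit 4796502)) p15_12_3 (nat_lit 4) (nat_lit 23) (nat_lit 24) = true := by decide +kernel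
def p15_12_3_24 : pfC (piC [(nat_lit 42686981), (nat_lit 27030628), (nat_lit 20024807), (nat_lit 13470738)] (nat_lit 4796502)) p15_12_3 (nat_lit 4) (nat_lit 24) (nat_lit 25) = true := by decide +kernel
def p15_12_3_25 : pfC (piC [(nat_lit 42686981), (nat_lit 27030628), (nat_lit 20024807), (nat_lit 13470738)] (nat_lit 4796502)) p15_12_3 (nat_lit 4) (nat_lit 25) (nat_lit 26) = true := by decide +kernel
def p15_12_3_26 : pfC (piC [(nat_lit 42686981), (nat_lit 27030628), (nat_lit 20024807), (nat_lit 13470738)] (nat_lit 4796502)) p15_12_3 (nat_lit 4) (nat_lit 26) (nat_lit 27) = true := by decide +kernel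
def p15_12_3_27 : pfC (piC [(nat_lit 42686981), (nat_lit 27030628), (nat_lit 20024807), (nat_lit 13470738)] (nat_lit 4796502)) p15_12_3 (nat_lit 4) (nat_lit 27) (nat_lit 28) = true := by decide +kernel
def p15_12_3_28 : pfC (piC [(nat_lit 42686981), (nat_lit 27030628), (nat_lit 20024807), (nat_lit 13470738)] (nat_lit 4796502)) p15_12_3 (nat_lit 4) (nat_lit 28) (nat_lit 29) = true := by decide +kernel
def p15_12_3_29 : pfC (piC [(nat_lit 42686981), (nat_lit 27030628), (nat_lit 20024807), (nat_lit 13470738)] (nat_lit 4796502)) p15_12_3 (nat_lit 4) (nat_lit 29) (nat_lit 30) = true := by decide +kernel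
def p15_12_3_30 : pfC (piC [(nat_lit 42686981), (nat_lit 27030628), (nat_lit 20024807), (nat_lit 13470738)] (nat_lit 4796502)) p15_12_3 (nat_lit 4) (nat_lit 30) (nat_lit 31) = true := by decide +kernel
def p15_12_3_31 : pfC (piC [(nat_lit 42686981), (nat_lit 27030628), (nat_lit 20024807), (nat_lit 13470738)] (nat_lit 4796502)) p15_12_3 (nat_lit 4) (nat_lit 31) (nat_lit 32) = true := by decide +kernel
def p15_12_3_32 : pfC (piC [(nat_lit 42686981), (nat_lit 27030628), (nat_lit 20024807), (nat_lit 13470738)] (nat_lit 4796502)) p15_12_3 (nat_lit 4) (nat_lit 32) (nat_lit 33) = true := by decide +kernel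
def p15_12_3_33 : pfC (piC [(nat_lit 42686981), (nat_lit 27030628), (nat_lit 20024807), (nat_lit 13470738)] (nat_lit 4796502)) p15_12_3 (nat_lit 4) (nat_lit 33) (nat_lit 34) = true := by decide +kernel
def p15_12_3_34 : pfC (piC [(nat_lit 42686981), (nat_lit 27030628), (nat_lit 20024807), (nat_lit 13470738)] (nat_lit 4796502)) p15_12_3 (nat_lit 4) (nat_lit 34) (nat_lit 35) = true := by decide +kernel
def p15_12_3_35 : pfC (piC [(nat_lit 42686981), (nat_lit 27030628), (nat_lit 20024807), (nat_lit 13470738)] (nat_lit 4796502)) p15_12_3 (nat_lit 4) (nat_lit 35) (nat_lit 36) = true := by decide +kernel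
def p15_12_3_36 : pfC (piC [(nat_lit 42686981), (nat_lit 27030628), (nat_lit 20024807), (nat_lit 13470738)] (nat_lit 4796502)) p15_12_3 (nat_lit 4) (nat_lit 36) (nat_lit 37) = true := by decide +kernel
def p15_12_3_37 : pfC (piC [(nat_lit 42686981), (nat_lit 27030628), (nat_lit 20024807), (nat_lit 13470738)] (nat_lit 4796502)) p15_12_3 (nat_lit 4) (nat_lit 37) (nat_lit 38) = true := by decide +kernel
def p15_12_3_38 : pfC (piC [(nat_lit 42686981), (nat_lit 27030628), (nat_lit 20024807), (nat_lit 13470738)] (nat_lit 4796502)) p15_12_3 (nat_lit 4) (nat_lit 38) (nat_lit 39) = true := by decide +kernel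
def p15_12_3_39 : pfC (piC [(nat_lit 42686981), (nat_lit 27030628), (nat_lit 20024807), (nat_lit 13470738)] (nat_lit 4796502)) p15_12_3 (nat_lit 4) (nat_lit 39) (nat_lit 40) = true := by decide +kernel
def p15_12_3_40 : pfC (piC [(nat_lit 42686981), (nat_lit 27030628), (nat_lit 20024807), (nat_lit 13470738)] (nat_lit 4796502)) p15_12_3 (nat_lit 4) (nat_lit 40) (nat_lit 41) = true := by decide +kernel
def p15_12_3_41 : pfC (piC [(nat_lit 42686981), (nat_lit 27030628), (nat_lit 20024807), (nat_lit 13470738)] (nat_lit 4796502)) p15_12_3 (nat_lit 4) (nat_lit 41) (nat_lit 42) = true := by decide +kernel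
def p15_12_3_42 : pfC (piC [(nat_lit 42686981), (nat_lit 27030628), (nat_lit 20024807), (nat_lit 13470738)] (nat_lit 4796502)) p15_12_3 (nat_lit 4) (nat_lit 42) (nat_lit 43) = true := by decide +kernel
def p15_12_3_43 : pfC (piC [(nat_lit 42686981), (nat_lit 27030628), (nat_lit 20024807), (nat_lit 13470738)] (nat_lit 4796502)) p15_12_3 (nat_lit 4) (nat_lit 43) (nat_lit 44) = true := by decide +kernel
def p15_12_3_44 : pfC (piC [(nat_lit 42686981), (nat_lit 27030628), (nat_lit 20024807), (nat_lit 13470738)] (nat_lit 4796502)) p15_12_3 (nat_lit 4) (nat_lit 44) (nat_lit 45) = true := by decide +kernel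
def p15_12_3_45 : pfC (piC [(nat_lit 42686981), (nat_lit 27030628), (nat_lit 20024807), (nat_lit 13470738)] (nat_lit 4796502)) p15_12_3 (nat_lit 4) (nat_lit 45) (nat_lit 46) = true := by decide +kernel
def p15_12_3_46 : pfC (piC [(nat_lit 42686981), (nat_lit 27030628), (nat_lit 20024807), (nat_lit 13470738)] (nat_lit 4796502)) p15_12_3 (nat_lit 4) (nat_lit 46) (nat_lit 47) = true := by decide +kernel
def p15_12_3_47 : pfC (piC [(nat_lit 42686981), (nat_lit 27030628), (nat_lit 20024807), (nat_lit 13470738)] (nat_lit 4796502)) p15_12_3 (nat_lit 4) (nat_lit 47) (nat_lit 48) = true := by decide +kernel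
def p15_12_3_48 : pfC (piC [(nat_lit 42686981), (nat_lit 27030628), (nat_lit 20024807), (nat_lit 13470738)] (nat_lit 4796502)) p15_12_3 (nat_lit 4) (nat_lit 48) (nat_lit 49) = true := by decide +kernel
def p15_12_3_49 : pfC (piC [(nat_lit 42686981), (nat_lit 27030628), (nat_lit 20024807), (nat_lit 13470738)] (nat_lit 4796502)) p15_12_3 (nat_lit 4) (nat_lit 49) (nat_lit 50) = true := by decide +kernel
def p15_12_3_50 : pfC (piC [(nat_lit 42686981), (nat_lit 27030628), (nat_lit 20024807), (nat_lit 13470738)] (nat_lit 4796502)) p15_12_3 (nat_lit 4) (nat_lit 50) (nat_lit 51) = true := by decide +kernel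
def p15_12_3_51 : pfC (piC [(nat_lit 42686981), (nat_lit 27030628), (nat_lit 20024807), (nat_lit 13470738)] (nat_lit 4796502)) p15_12_3 (nat_lit 4) (nat_lit 51) (nat_lit 52) = true := by decide +kernel
def p15_12_3_52 : pfC (piC [(nat_lit 42686981), (nat_lit 27030628), (nat_lit 20024807), (nat_lit 13470738)] (nat_lit 4796502)) p15_12_3 (nat_lit 4) (nat_lit 52) (nat_lit 53) = true := by decide +kernel
def p15_12_3_53 : pfC (piC [(nat_lit 42686981), (nat_lit 27030628), (nat_lit 20024807), (nat_lit 13470738)] (nat_lit 4796502)) p15_12_3 (nat_lit 4) (nat_lit 53) (nat_lit 54) = true := by decide +kernel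
def p15_12_3_54 : pfC (piC [(nat_lit 42686981), (nat_lit 27030628), (nat_lit 20024807), (nat_lit 13470738)] (nat_lit 4796502)) p15_12_3 (nat_lit 4) (nat_lit 54) (nat_lit 55) = true := by decide +kernel
def p15_12_3_55 : pfC (piC [(nat_lit 42686981), (nat_lit 27030628), (nat_lit 20024807), (nat_lit 13470738)] (nat_lit 4796502)) p15_12_3 (nat_lit 4) (nat_lit 55) (nat_lit 56) = true := by decide +kernel
def p15_12_3_56 : pfC (piC [(nat_lit 42686981), (nat_lit 27030628), (nat_lit 20024807), (nat_lit 13470738)] (nat_lit 4796502)) p15_12_3 (nat_lit 4) (nat_lit 56) (nat_lit 57) = true := by decide +kernel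
def p15_12_3_57 : pfC (piC [(nat_lit 42686981), (nat_lit 27030628), (nat_lit 20024807), (nat_lit 13470738)] (nat_lit 4796502)) p15_12_3 (nat_lit 4) (nat_lit 57) (nat_lit 58) = true := by decide +kernel
def p15_12_3_58 : pfC (piC [(nat_lit 42686981), (nat_lit 27030628), (nat_lit 20024807), (nat_lit 13470738)] (nat_lit 4796502)) p15_12_3 (nat_lit 4) (nat_lit 58) (nat_lit 59) = true := by decide +kernel
def p15_12_3_59 : pfC (piC [(nat_lit 42686981), (nat_lit 27030628), (nat_lit 20024807), (nat_lit 13470738)] (nat_lit 4796502)) p15_12_3 (nat_lit 4) (nat_lit 59) (nat_lit 60) = true := by decide +kernel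
def p15_12_3_60 : pfC (piC [(nat_lit 42686981), (nat_lit 27030628), (nat_lit 20024807), (nat_lit 13470738)] (nat_lit 4796502)) p15_12_3 (nat_lit 4) (nat_lit 60) (nat_lit 61) = true := by decide +kernel
def p15_12_3_61 : pfC (piC [(nat_lit 42686981), (nat_lit 27030628), (nat_lit 20024807), (nat_lit 13470738)] (nat_lit 4796502)) p15_12_3 (nat_lit 4) (nat_lit 61) (nat_lit 62) = true := by decide +kernel
def p15_12_3_62 : pfC (piC [(nat_lit 42686981), (nat_lit 27030628), (nat_lit 20024807), (nat_lit 13470738)] (nat_lit 4796502)) p15_12_3 (nat_lit 4) (nat_lit 62) (nat_lit 63) = true := by decide +kernel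
def p15_12_3_63 : pfC (piC [(nat_lit 42686981), (nat_lit 27030628), (nat_lit 20024807), (nat_lit 13470738)] (nat_lit 4796502)) p15_12_3 (nat_lit 4) (nat_lit 63) (nat_lit 64) = true := by decide +kernel
def p15_12_3_64 : pfC (piC [(nat_lit 42686981), (nat_lit 27030628), (nat_lit 20024807), (nat_lit 13470738)] (nat_lit 4796502)) p15_12_3 (nat_lit 4) (nat_lit 64) (nat_lit 65) = true := by decide +kernel
def p15_12_3_65 : pfC (piC [(nat_lit 42686981), (nat_lit 27030628), (nat_lit 20024807), (nat_lit 13470738)] (nat_lit 4796502)) p15_12_3 (nat_lit 4) (nat_lit 65) (nat_lit 66) = true := by decide +kernel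
def p15_12_3_66 : pfC (piC [(nat_lit 42686981), (nat_lit 27030628), (nat_lit 20024807), (nat_lit 13470738)] (nat_lit 4796502)) p15_12_3 (nat_lit 4) (nat_lit 66) (nat_lit 67) = true := by decide +kernel
def p15_12_3_67 : pfC (piC [(nat_lit 42686981), (nat_lit 27030628), (nat_lit 20024807), (nat_lit 13470738)] (nat_lit 4796502)) p15_12_3 (nat_lit 4) (nat_lit 67) (nat_lit 68) = true := by decide +kernel
def p15_12_3_68 : pfC (piC [(nat_lit 42686981), (nat_lit 27030628), (nat_lit 20024807), (nat_lit 13470738)] (nat_lit 4796502)) p15_12_3 (nat_lit 4) (nat_lit 68) (nat_lit 69) = true := by decide +kernel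
def p15_12_3_69 : pfC (piC [(nat_lit 42686981), (nat_lit 27030628), (nat_lit 20024807), (nat_lit 13470738)] (nat_lit 4796502)) p15_12_3 (nat_lit 4) (nat_lit 69) (nat_lit 70) = true := by decide +kernel
def p15_12_3_70 : pfC (piC [(nat_lit 42686981), (nat_lit 27030628), (nat_lit 20024807), (nat_lit 13470738)] (nat_lit 4796502)) p15_12_3 (nat_lit 4) (nat_lit 70) (nat_lit 71) = true := by decide +kernel
def p15_12_3_71 : pfC (piC [(nat_lit 42686981), (nat_lit 27030628), (nat_lit 20024807), (nat_lit 13470738)] (nat_lit 4796502)) p15_12_3 (nat_lit 4) (nat_lit 71) (nat_lit 72) = true := by decide +kernel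
def p15_12_3_72 : pfC (piC [(nat_lit 42686981), (nat_lit 27030628), (nat_lit 20024807), (nat_lit 13470738)] (nat_lit 4796502)) p15_12_3 (nat_lit 4) (nat_lit 72) (nat_lit 73) = true := by decide +kernel
def p15_12_3_73 : pfC (piC [(nat_lit 42686981), (nat_lit 27030628), (nat_lit 20024807), (nat_lit 13470738)] (nat_lit 4796502)) p15_12_3 (nat_lit 4) (nat_lit 73) (nat_lit 74) = true := by decide +kernel
def p15_12_3_74 : pfC (piC [(nat_lit 42686981), (nat_lit 27030628), (nat_lit 20024807), (nat_lit 13470738)] (nat_lit 4796502)) p15_12_3 (nat_lit 4) (nat_lit 74) (nat_lit 75) = true := by decide +kernel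
def p15_12_3_75 : pfC (piC [(nat_lit 42686981), (nat_lit 27030628), (nat_lit 20024807), (nat_lit 13470738)] (nat_lit 4796502)) p15_12_3 (nat_lit 4) (nat_lit 75) (nat_lit 76) = true := by decide +kernel
def p15_12_3_76 : pfC (piC [(nat_lit 42686981), (nat_lit 27030628), (nat_lit 20024807), (nat_lit 13470738)] (nat_lit 4796502)) p15_12_3 (nat_lit 4) (nat_lit 76) (nat_lit 77) = true := by decide +kernel
def p15_12_3_77 : pfC (piC [(nat_lit 42686981), (nat_lit 27030628), (nat_lit 20024807), (nat_lit 13470738)] (nat_lit 4796502)) p15_12_3 (nat_lit 4) (nat_lit 77) (nat_lit 78) = true := by decide +kernel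
def p15_12_3_78 : pfC (piC [(nat_lit 42686981), (nat_lit 27030628), (nat_lit 20024807), (nat_lit 13470738)] (nat_lit 4796502)) p15_12_3 (nat_lit 4) (nat_lit 78) (nat_lit 79) = true := by decide +kernel
def p15_12_3_79 : pfC (piC [(nat_lit 42686981), (nat_lit 27030628), (nat_lit 20024807), (nat_lit 13470738)] (nat_lit 4796502)) p15_12_3 (nat_lit 4) (nat_lit 79) (nat_lit 80) = true := by decide +kernel
def p15_12_3_80 : pfC (piC [(nat_lit 42686981), (nat_lit 27030628), (nat_lit 20024807), (nat_lit 13470738)] (nat_lit 4796502)) p15_12_3 (nat_lit 4) (nat_lit 80) (nat_lit 81) = true := by decide +kernel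
def p15_12_3_81 : pfC (piC [(nat_lit 42686981), (nat_lit 27030628), (nat_lit 20024807), (nat_lit 13470738)] (nat_lit 4796502)) p15_12_3 (nat_lit 4) (nat_lit 81) (nat_lit 82) = true := by decide +kernel
def p15_12_3_82 : pfC (piC [(nat_lit 42686981), (nat_lit 27030628), (nat_lit 20024807), (nat_lit 13470738)] (nat_lit 4796502)) p15_12_3 (nat_lit 4) (nat_lit 82) (nat_lit 83) = true := by decide +kernel
def p15_12_3_83 : pfC (piC [(nat_lit 42686981), (nat_lit 27030628), (nat_lit 20024807), (nat_lit 13470738)] (nat_lit 4796502)) p15_12_3 (nat_lit 4) (nat_lit 83) (nat_lit 84) = true := by decide +kernel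
def p15_12_3_84 : pfC (piC [(nat_lit 42686981), (nat_lit 27030628), (nat_lit 20024807), (nat_lit 13470738)] (nat_lit 4796502)) p15_12_3 (nat_lit 4) (nat_lit 84) (nat_lit 85) = true := by decide +kernel
def p15_12_3_85 : pfC (piC [(nat_lit 42686981), (nat_lit 27030628), (nat_lit 20024807), (nat_lit 13470738)] (nat_lit 4796502)) p15_12_3 (nat_lit 4) (nat_lit 85) (nat_lit 86) = true := by decide +kernel
def p15_12_3_86 : pfC (piC [(nat_lit 42686981), (nat_lit 27030628), (nat_lit 20024807), (nat_lit 13470738)] (nat_lit 4796502)) p15_12_3 (nat_lit 4) (nat_lit 86) (nat_lit 87) = true := by decide +kernel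
def p15_12_3_87 : pfC (piC [(nat_lit 42686981), (nat_lit 27030628), (nat_lit 20024807), (nat_lit 13470738)] (nat_lit 4796502)) p15_12_3 (nat_lit 4) (nat_lit 87) (nat_lit 88) = true := by decide +kernel
def p15_12_3_88 : pfC (piC [(nat_lit 42686981), (nat_lit 27030628), (nat_lit 20024807), (nat_lit 13470738)] (nat_lit 4796502)) p15_12_3 (nat_lit 4) (nat_lit 88) (nat_lit 89) = true := by decide +kernel
def p15_12_3_89 : pfC (piC [(nat_lit 42686981), (nat_lit 27030628), (nat_lit 20024807), (nat_lit 13470738)] (nat_lit 4796502)) p15_12_3 (nat_lit 4) (nat_lit 89) (nat_lit 90) = true := by decide +kernel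
def p15_12_3_90 : pfC (piC [(nat_lit 42686981), (nat_lit 27030628), (nat_lit 20024807), (nat_lit 13470738)] (nat_lit 4796502)) p15_12_3 (nat_lit 4) (nat_lit 90) (nat_lit 91) = true := by decide +kernel
def p15_12_3_91 : pfC (piC [(nat_lit 42686981), (nat_lit 27030628), (nat_lit 20024807), (nat_lit 13470738)] (nat_lit 4796502)) p15_12_3 (nat_lit 4) (nat_lit 91) (nat_lit 92) = true := by decide +kernel
theorem p15_12_3_T : PfS (PiF n15_12.reverse (nat_lit 4796502)) p15_12_3 (nat_lit 4) [] 0 :=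
  pftab_of (los := [(nat_lit 42686981), (nat_lit 27030628), (nat_lit 20024807), (nat_lit 13470738)]) (by decide +kernel) (hi := (nat_lit 92)) (PfP.trans (PfP.trans (PfP.trans (PfP.trans (PfP.trans (PfP.trans (PfP.trans (PfP.trans (PfP.trans (PfP.trans (PfP.trans (PfP.trans (PfP.trans (PfP.trans (PfP.trans (PfP.trans (PfP.trans (PfP.trans (PfP.trans (PfP.trans (PfP.trans (PfP.trans (PfP.trans (PfP.trans (PfP.trans (PfP.trans (PfP.trans (PfP.trans (PfP.trans (PfP.trans (PfP.trans (PfP.trans (PfP.trans (PfP.trans (PfP.trans (PfP.trans (PfP.trans (PfP.trans (PfP.trans (PfP.trans (PfP.trans (PfP.trans (PfP.trans (PfP.trans (PfP.trans (PfP.trans (PfP.trans (PfP.trans (PfP.trans (PfP.trans (PfP.trans (PfP.trans (PfP.trans (PfP.trans (PfP.trans (PfP.trans (PfP.trans (PfP.trans (PfP.trans (PfP.trans (PfP.trans (PfP.trans (PfP.trans (PfP.trans (PfP.trans (PfP.trans (PfP.trans (PfP.trans (PfP.trans (PfP.trans (PfP.trans (PfP.trans (PfP.trans (PfP.trans (PfP.trans (PfP.trans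 (PfP.trans (PfP.trans (PfP.trans (PfP.trans (PfP.trans (PfP.trans (PfP.trans (PfP.trans (PfP.trans (PfP.trans (PfP.trans (PfP.trans (PfP.trans (PfP.trans (PfP.trans (pfC_sound p15_12_3_0) (pfC_sound p15_12_3_1)) (pfC_sound p15_12_3_2)) (pfC_sound p15_12_3_3)) (pfC_sound p15_12_3_4)) (pfC_sound p15_12_3_5)) (pfC_sound p15_12_3_6)) (pfC_sound p15_12_3_7))
 (pfC_sound p15_12_3_8)) (pfC_sound p15_12_3_9)) (pfC_sound p15_12_3_10)) (pfC_sound p15_12_3_11)) (pfC_sound p15_12_3_12)) (pfC_sound p15_12_3_13)) (pfC_sound p15_12_3_14)) (pfC_sound p15_12_3_15)) (pfC_sound p15_12_3_16)) (pfC_sound p15_12_3_17)) (pfC_sound p15_12_3_18)) (pfC_sound p15_12_3_19)) (pfC_sound p15_12_3_20)) (pfC_sound p15_12_3_21)) (pfC_sound p15_12_3_22)) (pfC_sound p15_12_3_23)) (pfC_sound p15_12_3_24)) (pfC_sound p15_12_3_25)) (pfC_sound p15_12_3_26)) (pfC_sound p15_12_3_27)) (pfC_sound p15_12_3_28)) (pfC_sound p15_12_3_29)) (pfC_sound p15_12_3_30)) (pfC_sound p15_12_3_31)) (pfC_sound p15_12_3_32))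 (pfC_sound p15_12_3_33)) (pfC_sound p15_12_3_34)) (pfC_sound p15_12_3_35)) (pfC_sound p15_12_3_36)) (pfC_sound p15_12_3_37)) (pfC_sound p15_12_3_38)) (pfC_sound p15_12_3_39)) (pfC_sound p15_12_3_40)) (pfC_sound p15_12_3_41)) (pfC_sound p15_12_3_42)) (pfC_sound p15_12_3_43)) (pfC_sound p15_12_3_44)) (pfC_sound p15_12_3_45)) (pfC_sound p15_12_3_46)) (pfC_sound p15_12_3_47)) (pfC_sound p15_12_3_48)) (pfC_sound p15_12_3_49)) (pfC_sound p15_12_3_50)) (pfC_sound p15_12_3_51)) (pfC_sound p15_12_3_52)) (pfC_sound p15_12_3_53)) (pfC_sound p15_12_3_54)) (pfC_sound p15_12_3_55))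
 (pfC_sound p15_12_3_56)) (pfC_sound p15_12_3_57)) (pfC_sound p15_12_3_58)) (pfC_sound p15_12_3_59)) (pfC_sound p15_12_3_60)) (pfC_sound p15_12_3_61)) (pfC_sound p15_12_3_62)) (pfC_sound p15_12_3_63)) (pfC_sound p15_12_3_64)) (pfC_sound p15_12_3_65)) (pfC_sound p15_12_3_66)) (pfC_sound p15_12_3_67)) (pfC_sound p15_12_3_68)) (pfC_sound p15_12_3_69)) (pfC_sound p15_12_3_70)) (pfC_sound p15_12_3_71)) (pfC_sound p15_12_3_72)) (pfC_sound p15_12_3_73)) (pfC_sound p15_12_3_74)) (pfC_sound p15_12_3_75)) (pfC_sound p15_12_3_76)) (pfC_sound p15_12_3_77)) (pfC_sound p15_12_3_78)) (pfC_sound p15_12_3_79)) (pfC_sound p15_12_3_80)) (pfC_sound p15_12_3_81)) (pfC_sound p15_12_3_82)) (pfC_sound p15_12_3_83)) (pfC_sound p15_12_3_84)) (pfC_sound p15_12_3_85)) (pfC_sound p15_12_3_86)) (pfC_sound p15_12_3_87)) (pfC_sound p15_12_3_88)) (pfC_sound p15_12_3_89)) (pfC_sound p15_12_3_90)) (pfC_sound p15_12_3_91)) (by decide +kernel)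

def z15_12_3 : zOK yB15_12 (nat_lit 3) (nat_lit 750) (nat_lit 896) (nat_lit 4796502) (nat_lit 3065253) = true := by decide +kernel
def g15_12_3 : gOK yB15_12.x P15_12 (nat_lit 1429) (q15_12 :: r15_12) (nat_lit 3) (nat_lit 750) (nat_lit 4) (nat_lit 896) (nat_lit 12712500) (nat_lit 12712500) (nat_lit 12712500) (nat_lit 12712500) [(nat_lit 800)] = true := by decide +kernel
def v15_12_3 : ivC P15_12 s15_12 w15_12 n15_12 (nat_lit 4) (nat_lit 4730) (nat_lit 3) (nat_lit 750) f144_1_750 f152_1_750 (nat_lit 4) (nat_lit 896) f144_1_896 f152_1_896 (nat_lit 4796502) (nat_lit 3065253) p15_12_3 = true := by decide +kernel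
/-! box `yB15_13` -/

def P15_13 : BQ := ⟨(nat_lit 8), (nat_lit 6), (nat_lit 2), (nat_lit 4), (nat_lit 4), (nat_lit 730), (nat_lit 740), (nat_lit 120), [(nat_lit 200), (nat_lit 300), (nat_lit 450), (nat_lit 800)], (nat_lit 87440000), (nat_lit 16000000), (nat_lit 16000000000)⟩
def q15_13 : PC := ⟨(nat_lit 1000), [(nat_lit 120000), (nat_lit 200000), (nat_lit 300000), (nat_lit 450000), (nat_lit 800000)], (nat_lit 340282367000166625996085689103316680705000000), (nat_lit 15912560000000), (nat_lit 15912560000000), (nat_lit 10000000)⟩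
def r15_13 : List PC := [⟨(nat_lit 1325), [(nat_lit 120577), (nat_lit 201092), (nat_lit 301600), (nat_lit 451736), (nat_lit 799601)], (nat_lit 342463917255044942141875082265634424763666010), (nat_lit 16326062204000), (nat_lit 16332056452000), (nat_lit 10054600)⟩]
def s15_13 : List PB := [⟨(nat_lit 26500), (nat_lit 1929232000000), [(nat_lit 201092), (nat_lit 301600), (nat_lit 451736), (nat_lit 799601)], (nat_lit 342463917255044942141875082265634424763666010), (nat_lit 1142225969046624), (nat_lit 1142231963294624), (nat_lit 52000)⟩]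
def n15_13 : List KN := [⟨(nat_lit 800), (nat_lit 450), (nat_lit 13394109), (nat_lit 6772740)⟩, ⟨(nat_lit 450), (nat_lit 300), (nat_lit 19877745), (nat_lit 13394109)⟩, ⟨(nat_lit 300), (nat_lit 200), (nat_lit 26736489), (nat_lit 19877745)⟩, ⟨(nat_lit 200), (nat_lit 120), (nat_lit 42686981), (nat_lit 26736489)⟩]
def w15_13 : List ℕ := [(nat_lit 52000)]
def par15_13 : parC yB15_13 P15_13 s15_13 r15_13 q15_13 n15_13 w15_13 = true := by decide +kernel

def p15_13_0 : PF := (PF.cons (PF.cons (PF.cons (PF.cons (PF.leaf (nat_lit 654559) (nat_lit 1939820) (nat_lit 65168992) (nat_lit 1939820) [(nat_lit 0), (nat_lit 0), (nat_lit 0), (nat_lit 0)]) (PF.cons (PF.leaf (nat_lit 753660) (nat_lit 150377) (nat_lit 64978059) (nat_lit 1980376) [(nat_lit 150377), (nat_lit 0), (nat_lit 0), (nat_lit 0)]) (PF.cons (PF.leaf (nat_lit 878064) (nat_lit 166093) (nat_lit 64750712) (nat_lit 2025913) [(nat_lit 166093), (nat_lit 0), (nat_lit 0), (nat_lit 0)]) (PF.cons (PF.leaf (nat_lit 1020466)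 (nat_lit 180859) (nat_lit 64491570) (nat_lit 2074664) [(nat_lit 180859), (nat_lit 0), (nat_lit 0), (nat_lit 0)]) (PF.cons (PF.leaf (nat_lit 1179230) (nat_lit 194912) (nat_lit 64203768) (nat_lit 2125394) [(nat_lit 194912), (nat_lit 0), (nat_lit 0), (nat_lit 0)]) (PF.cons (PF.leaf (nat_lit 1353682) (nat_lit 208383) (nat_lit 63889696) (nat_lit 2177196) [(nat_lit 208383), (nat_lit 0), (nat_lit 0), (nat_lit 0)]) (PF.cons (PF.leaf (nat_lit 1542597) (nat_lit 221350) (nat_lit 63551323) (nat_lit 2229385) [(nat_lit 221350), (nat_lit 0), (nat_lit 0), (nat_lit 0)]) (PF.cons PF.nil (PF.cons PF.nil PF.nil))))))))) (PF.cons (PF.cons (PF.leaf (nat_lit 1102856) (nat_lit 898690) (nat_lit 64075758)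
 (nat_lit 2134364) [(nat_lit 0), (nat_lit 898690), (nat_lit 0), (nat_lit 0)]) (PF.cons (PF.leaf (nat_lit 1246120) (nat_lit 196680) (nat_lit 63804164) (nat_lit 2178550) [(nat_lit 196680), (nat_lit 929417), (nat_lit 0), (nat_lit 0)]) (PF.cons (PF.leaf (nat_lit 1409368) (nat_lit 210359) (nat_lit 63502182) (nat_lit 2224898) [(nat_lit 210359), (nat_lit 961013), (nat_lit 0), (nat_lit 0)]) (PF.cons (PF.leaf (nat_lit 1588602) (nat_lit 223392) (nat_lit 63173331) (nat_lit 2272411) [(nat_lit 223392), (nat_lit 992892), (nat_lit 0), (nat_lit 0)]) (PF.cons (PF.leaf (nat_lit 1782257) (nat_lit 235885) (nat_lit 62820228) (nat_lit 2320370) [(nat_lit 235885), (nat_lit 1024674), (nat_lit 0), (nat_lit 0)]) (PF.cons (PF.leaf (nat_lit 1989562) (nat_lit 247897) (nat_lit 62444991) (nat_lit 2368239) [(nat_lit 247897), (nat_lit 1056093), (nat_lit 0), (nat_lit 0)]) (PF.cons PF.nil PF.nil))))))) (PF.cons (PF.cons (PF.leaf (nat_lit 1650117) (nat_lit 1016466) (nat_lit 62758504) (nat_lit 2317375)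 [(nat_lit 0), (nat_lit 1016466), (nat_lit 0), (nat_lit 0)]) (PF.cons (PF.leaf (nat_lit 1830152) (nat_lit 237046) (nat_lit 62420151) (nat_lit 2360571) [(nat_lit 237046), (nat_lit 1045521), (nat_lit 0), (nat_lit 0)])
 (PF.cons (PF.leaf (nat_lit 2027093) (nat_lit 249174) (nat_lit 62056735) (nat_lit 2404370) [(nat_lit 249174), (nat_lit 1074679), (nat_lit 0), (nat_lit 0)]) (PF.cons (PF.leaf (nat_lit 2237564) (nat_lit 260774) (nat_lit 61671065) (nat_lit 2448186) [(nat_lit 260774), (nat_lit 1103619), (nat_lit 0), (nat_lit 0)]) (PF.cons (PF.leaf (nat_lit 2460658) (nat_lit 271901) (nat_lit 61265383) (nat_lit 2491587) [(nat_lit 271901), (nat_lit 1132118), (nat_lit 0), (nat_lit 0)]) PF.nil))))) (PF.cons (PF.cons (PF.leaf (nat_lit 2278362) (nat_lit 1121046) (nat_lit 61263767) (nat_lit 2481907) [(nat_lit 0), (nat_lit 1121046), (nat_lit 0), (nat_lit 0)]) (PF.cons (PF.leaf (nat_lit 2489258) (nat_lit 272537) (nat_lit 60871713) (nat_lit 2521757) [(nat_lit 272537), (nat_lit 1147601),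 (nat_lit 0), (nat_lit 0)]) (PF.cons (PF.leaf (nat_lit 2714133) (nat_lit 283289) (nat_lit 60459401) (nat_lit 2561320) [(nat_lit 283289), (nat_lit 1173837), (nat_lit 0), (nat_lit 0)]) (PF.cons PF.nil PF.nil)))) (PF.cons (PF.cons (PF.leaf (nat_lit 2970977) (nat_lit 1212377) (nat_lit 59634085) (nat_lit 2625217) [(nat_lit 0), (nat_lit 1212377), (nat_lit 0), (nat_lit 0)]) (PF.cons (PF.leaf (nat_lit 3207008) (nat_lit 303595) (nat_lit
 59200578) (nat_lit 2660537) [(nat_lit 303595), (nat_lit 1236025), (nat_lit 0), (nat_lit 0)]) PF.nil)) (PF.cons PF.nil (PF.cons PF.nil (PF.cons PF.nil PF.nil)))))))) (PF.cons (PF.cons (PF.cons (PF.leaf (nat_lit 1681624) (nat_lit 2350919) (nat_lit 62048850) (nat_lit 2350919) [(nat_lit 0), (nat_lit 0), (nat_lit 2709042), (nat_lit 0)]) (PF.cons (PF.leaf (nat_lit 1841663) (nat_lit 226975) (nat_lit 61745607) (nat_lit 2388167) [(nat_lit 226975), (nat_lit 0), (nat_lit 2748062), (nat_lit 0)]) (PF.cons (PF.leaf (nat_lit 2021248) (nat_lit 240439)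 (nat_lit 61412127) (nat_lit 2426995) [(nat_lit 240439), (nat_lit 0), (nat_lit 2788811), (nat_lit 0)]) (PF.cons (PF.leaf (nat_lit 2216023) (nat_lit 253017) (nat_lit 61052784) (nat_lit 2466572) [(nat_lit 253017), (nat_lit 0), (nat_lit 2830404), (nat_lit 0)]) (PF.cons (PF.leaf (nat_lit 2424673) (nat_lit 264880) (nat_lit 60670777) (nat_lit 2506306) [(nat_lit 264880), (nat_lit 0), (nat_lit 2872208), (nat_lit 0)]) (PF.cons (PF.leaf (nat_lit 2645766) (nat_lit 276134) (nat_lit 60268634) (nat_lit 2545758) [(nat_lit 276134), (nat_lit 0), (nat_lit 2913748), (nat_lit 0)]) (PF.cons PF.nil PF.nil))))))) (PF.cons (PF.cons (PF.leaf (nat_lit 2269101) (nat_lit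
 1121060) (nat_lit 60618624) (nat_lit 2501236) [(nat_lit 0), (nat_lit 1121060), (nat_lit 2867890), (nat_lit 0)]) (PF.cons (PF.leaf (nat_lit 2463053) (nat_lit 264396) (nat_lit 60255501) (nat_lit 2537044) [(nat_lit 264396), (nat_lit 1146365), (nat_lit 2905504), (nat_lit 0)]) (PF.cons (PF.leaf (nat_lit 2672713) (nat_lit 275940) (nat_lit 59868716) (nat_lit 2573157) [(nat_lit 275940), (nat_lit 1171592), (nat_lit 2943464), (nat_lit 0)]) (PF.cons (PF.leaf (nat_lit 2895205) (nat_lit 286827) (nat_lit 59461504) (nat_lit 2609094) [(nat_lit 286827), (nat_lit 1196479), (nat_lit 2981253), (nat_lit 0)]) (PF.cons PF.nil PF.nil))))) (PF.cons (PF.cons (PF.leaf (nat_lit 2925457) (nat_lit 1209565) (nat_lit 59046306) (nat_lit 2634562) [(nat_lit 0), (nat_lit 1209565), (nat_lit 3008812), (nat_lit 0)]) (PF.cons (PF.leaf (nat_lit 3146717) (nat_lit 296513) (nat_lit 58637637) (nat_lit 2667063) [(nat_lit 296513), (nat_lit 1232337), (nat_lit 3042921), (nat_lit 0)]) (PF.cons (PF.leaf (nat_lit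 3380839) (nat_lit 306503) (nat_lit 58210645) (nat_lit 2699154) [(nat_lit 306503), (nat_lit 1254705), (nat_lit 3076594), (nat_lit 0)]) (PF.cons PF.nil PF.nil)))) (PF.cons (PF.cons (PF.leaf (nat_lit 3634524) (nat_lit
 1285841) (nat_lit 57373113) (nat_lit 2748869) [(nat_lit 0), (nat_lit 1285841), (nat_lit 3129305), (nat_lit 0)]) (PF.cons (PF.leaf (nat_lit 3877441) (nat_lit 324093) (nat_lit 56931197) (nat_lit 2777165) [(nat_lit 324093), (nat_lit 1305822), (nat_lit 3158889), (nat_lit 0)]) PF.nil)) (PF.cons PF.nil (PF.cons PF.nil PF.nil)))))) (PF.cons (PF.cons (PF.cons (PF.leaf (nat_lit 2893919) (nat_lit 2644131) (nat_lit 58422372) (nat_lit 2644131) [(nat_lit 0), (nat_lit 0), (nat_lit 3021154), (nat_lit 0)]) (PF.cons (PF.leaf (nat_lit 3098069) (nat_lit 287180) (nat_lit 58044481) (nat_lit 2673565) [(nat_lit 287180), (nat_lit 0), (nat_lit 3051792), (nat_lit 0)]) (PF.cons (PF.leaf (nat_lit 3317053) (nat_lit 298114) (nat_lit 57644495) (nat_lit 2703067) [(nat_lit 298114),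 (nat_lit 0), (nat_lit 3082510), (nat_lit 0)]) (PF.cons (PF.leaf (nat_lit 3547950) (nat_lit 308292) (nat_lit 57225914) (nat_lit 2732243) [(nat_lit 308292), (nat_lit 0), (nat_lit 3112889), (nat_lit 0)]) (PF.cons PF.nil PF.nil))))) (PF.cons (PF.cons (PF.leaf (nat_lit 3567794) (nat_lit 1279839) (nat_lit 56811796) (nat_lit 2751019) [(nat_lit 0), (nat_lit 1279839), (nat_lit 3133078), (nat_lit 0)]) (PF.cons (PF.leaf (nat_lit 3796179) (nat_lit
 316162) (nat_lit 56395644) (nat_lit 2777210) [(nat_lit 316162), (nat_lit 1299266), (nat_lit 3160264), (nat_lit 0)]) (PF.cons (PF.leaf (nat_lit 4036455) (nat_lit 325420) (nat_lit 55963011) (nat_lit 2802902) [(nat_lit 325420), (nat_lit 1318228), (nat_lit 3186914), (nat_lit 0)]) (PF.cons PF.nil PF.nil)))) (PF.cons (PF.cons (PF.leaf (nat_lit 4284555) (nat_lit 1343079) (nat_lit 55128637) (nat_lit 2840788) [(nat_lit 0), (nat_lit 1343079), (nat_lit 3226613), (nat_lit 0)]) (PF.cons PF.nil PF.nil)) (PF.cons PF.nil (PF.cons PF.nil PF.nil)))))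 (PF.cons (PF.cons (PF.cons (PF.leaf (nat_lit 4198965) (nat_lit 2837597) (nat_lit 54598316) (nat_lit 2837597) [(nat_lit 0), (nat_lit 0), (nat_lit 3224299), (nat_lit 0)]) (PF.cons (PF.leaf (nat_lit 4431875) (nat_lit 332082) (nat_lit 54181767) (nat_lit 2858352) [(nat_lit 332082), (nat_lit 0), (nat_lit 3245536), (nat_lit 0)]) (PF.cons (PF.leaf (nat_lit 4675826) (nat_lit 340645) (nat_lit 53750440) (nat_lit 2878552) [(nat_lit 340645), (nat_lit 0), (nat_lit 3266176), (nat_lit 0)]) (PF.cons PF.nil PF.nil)))) (PF.cons (PF.cons (PF.leaf (nat_lit 4916620) (nat_lit 1386711) (nat_lit 52930494) (nat_lit 2906550) [(nat_lit 0), (nat_lit 1386711), (nat_lit 3295018),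
 (nat_lit 0)]) (PF.cons PF.nil PF.nil)) (PF.cons PF.nil PF.nil))) (PF.cons (PF.cons (PF.cons (PF.leaf (nat_lit 5527876) (nat_lit 2950744) (nat_lit 50799430) (nat_lit 2950744) [(nat_lit 0), (nat_lit 0), (nat_lit 3339659), (nat_lit 0)]) (PF.cons PF.nil PF.nil)) (PF.cons PF.nil PF.nil)) (PF.cons PF.nil (PF.cons PF.nil (PF.cons PF.nil PF.nil)))))))) (PF.cons (PF.cons (PF.cons (PF.cons (PF.leaf (nat_lit 2770933) (nat_lit 2579412) (nat_lit 56418202) (nat_lit 2579412) [(nat_lit 0), (nat_lit 0), (nat_lit 0), (nat_lit 8111198)]) (PF.cons (PF.leaf (nat_lit 2940466) (nat_lit 255812) (nat_lit 56114313) (nat_lit 2606377) [(nat_lit 255812), (nat_lit 0), (nat_lit 0), (nat_lit 8132309)]) (PF.cons (PF.leaf (nat_lit 3128287) (nat_lit 269062) (nat_lit 55782720) (nat_lit 2634135) [(nat_lit 269062), (nat_lit 0), (nat_lit 0), (nat_lit 8153832)]) (PF.cons (PF.leaf (nat_lit 3330481) (nat_lit 281119) (nat_lit 55428222) (nat_lit 2662075) [(nat_lit 281119), (nat_lit 0), (nat_lit 0), (nat_lit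 8175155)]) (PF.cons (PF.leaf (nat_lit 3545085) (nat_lit 292224) (nat_lit 55054317) (nat_lit 2689777) [(nat_lit 292224), (nat_lit 0), (nat_lit 0), (nat_lit 8195819)]) (PF.cons (PF.leaf (nat_lit 3770755) (nat_lit 302533)
 (nat_lit 54663732) (nat_lit 2716943) [(nat_lit 302533), (nat_lit 0), (nat_lit 0), (nat_lit 8215470)]) (PF.cons (PF.leaf (nat_lit 4006402) (nat_lit 312155) (nat_lit 54258697) (nat_lit 2743355) [(nat_lit 312155), (nat_lit 0), (nat_lit 0), (nat_lit 8233827)]) (PF.cons (PF.leaf (nat_lit 4250924) (nat_lit 321170) (nat_lit 53841093) (nat_lit 2768854) [(nat_lit 321170), (nat_lit 0), (nat_lit 0), (nat_lit 8250671)]) (PF.cons PF.nil PF.nil))))))))) (PF.cons (PF.cons (PF.leaf (nat_lit 3367644) (nat_lit 1222414) (nat_lit 55011304) (nat_lit 2682852) [(nat_lit 0), (nat_lit 1222414), (nat_lit 0), (nat_lit 8192241)]) (PF.cons (PF.leaf (nat_lit 3566809) (nat_lit 289745) (nat_lit 54658615) (nat_lit 2707708) [(nat_lit 289745), (nat_lit 1242845), (nat_lit 0), (nat_lit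 8209897)]) (PF.cons (PF.leaf (nat_lit 3780268) (nat_lit 300515) (nat_lit 54285519) (nat_lit 2732480) [(nat_lit 300515), (nat_lit 1262898), (nat_lit 0), (nat_lit 8226883)]) (PF.cons (PF.leaf (nat_lit 4005133) (nat_lit 310455) (nat_lit 53895380) (nat_lit 2756835) [(nat_lit 310455), (nat_lit 1282390), (nat_lit 0), (nat_lit 8242841)]) (PF.cons (PF.leaf (nat_lit 4240086) (nat_lit 319692) (nat_lit 53490792) (nat_lit 2780539) [(nat_lit
 319692), (nat_lit 1301208), (nat_lit 0), (nat_lit 8257501)]) (PF.cons (PF.leaf (nat_lit 4483919) (nat_lit 328318) (nat_lit 53073855) (nat_lit 2803423) [(nat_lit 328318), (nat_lit 1319285), (nat_lit 0), (nat_lit 8270655)]) (PF.cons PF.nil PF.nil))))))) (PF.cons (PF.cons (PF.leaf (nat_lit 4018121) (nat_lit 1289726) (nat_lit 53507093) (nat_lit 2770954) [(nat_lit 0), (nat_lit 1289726), (nat_lit 0), (nat_lit 8251312)]) (PF.cons (PF.leaf (nat_lit 4240025) (nat_lit 317451) (nat_lit 53120304) (nat_lit 2792629) [(nat_lit 317451), (nat_lit 1307367),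 (nat_lit 0), (nat_lit 8263691)]) (PF.cons (PF.leaf (nat_lit 4473309) (nat_lit 326391) (nat_lit 52718536) (nat_lit 2813769) [(nat_lit 326391), (nat_lit 1324465), (nat_lit 0), (nat_lit 8274795)]) (PF.cons (PF.leaf (nat_lit 4715697) (nat_lit 334695) (nat_lit 52304268) (nat_lit 2834185) [(nat_lit 334695), (nat_lit 1340924), (nat_lit 0), (nat_lit 8284423)]) (PF.cons (PF.leaf (nat_lit 4966116) (nat_lit 342443) (nat_lit 51879488) (nat_lit 2853748) [(nat_lit 342443), (nat_lit 1356687), (nat_lit 0), (nat_lit 8292427)]) PF.nil))))) (PF.cons (PF.cons (PF.leaf (nat_lit 4707347) (nat_lit 1345527) (nat_lit 51942949) (nat_lit 2843318) [(nat_lit 0), (nat_lit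
 1345527), (nat_lit 0), (nat_lit 8285963)]) (PF.cons (PF.leaf (nat_lit 4946608) (nat_lit 340329) (nat_lit 51533431) (nat_lit 2861400) [(nat_lit 340329), (nat_lit 1360465), (nat_lit 0), (nat_lit 8292253)]) (PF.cons (PF.leaf (nat_lit 5194931) (nat_lit 347802) (nat_lit 51113133) (nat_lit 2878722) [(nat_lit 347802), (nat_lit 1374794), (nat_lit 0), (nat_lit 8296969)]) (PF.cons PF.nil PF.nil)))) (PF.cons (PF.cons (PF.leaf (nat_lit 5423136) (nat_lit 1391043) (nat_lit 50348064) (nat_lit 2900511) [(nat_lit 0), (nat_lit 1391043), (nat_lit 0), (nat_lit 8296062)]) (PF.cons (PF.leaf (nat_lit 5675291) (nat_lit 359218) (nat_lit 49924824) (nat_lit 2914939) [(nat_lit 359218), (nat_lit 1403434), (nat_lit 0), (nat_lit 8296093)]) PF.nil)) (PF.cons PF.nil PF.nil)))))) (PF.cons (PF.cons (PF.cons (PF.leaf (nat_lit 3955791) (nat_lit 2766845) (nat_lit 52948769) (nat_lit 2766845) [(nat_lit 0), (nat_lit 0), (nat_lit 3151099), (nat_lit 8242098)]) (PF.cons (PF.leaf (nat_lit 4161001) (nat_lit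 306107) (nat_lit 52592791) (nat_lit 2786829) [(nat_lit 306107), (nat_lit 0), (nat_lit 3171163), (nat_lit 8251920)]) (PF.cons (PF.leaf (nat_lit 4379737) (nat_lit 316227) (nat_lit 52217962) (nat_lit 2806600) [(nat_lit
 316227), (nat_lit 0), (nat_lit 3191012), (nat_lit 8260781)]) (PF.cons (PF.leaf (nat_lit 4609105) (nat_lit 325462) (nat_lit 51827728) (nat_lit 2825893) [(nat_lit 325462), (nat_lit 0), (nat_lit 3210368), (nat_lit 8268434)]) (PF.cons (PF.leaf (nat_lit 4847700) (nat_lit 333962) (nat_lit 51424710) (nat_lit 2844522) [(nat_lit 333962), (nat_lit 0), (nat_lit 3229034), (nat_lit 8274696)]) (PF.cons (PF.leaf (nat_lit 5094387) (nat_lit 341830) (nat_lit 51011001) (nat_lit 2862356) [(nat_lit 341830), (nat_lit 0), (nat_lit 3246870), (nat_lit 8279433)]) (PF.cons PF.nil PF.nil))))))) (PF.cons (PF.cons (PF.leaf (nat_lit 4612714) (nat_lit 1334425) (nat_lit 51449564) (nat_lit 2835442) [(nat_lit 0), (nat_lit 1334425), (nat_lit 3220307), (nat_lit 8269072)]) (PF.cons (PF.leaf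 (nat_lit 4838255) (nat_lit 330989) (nat_lit 51065087) (nat_lit 2852449) [(nat_lit 330989), (nat_lit 1349341), (nat_lit 3237268), (nat_lit 8273676)]) (PF.cons (PF.leaf (nat_lit 5074344) (nat_lit 339250) (nat_lit 50667162) (nat_lit 2868892) [(nat_lit 339250), (nat_lit 1363705), (nat_lit 3253633), (nat_lit 8276917)]) (PF.cons (PF.leaf (nat_lit 5318777) (nat_lit 346853) (nat_lit 50258256) (nat_lit 2884626) [(nat_lit 346853), (nat_lit
 1377446), (nat_lit 3269250), (nat_lit 8278671)]) (PF.cons PF.nil PF.nil))))) (PF.cons (PF.cons (PF.leaf (nat_lit 5301283) (nat_lit 1380072) (nat_lit 49909713) (nat_lit 2890158) [(nat_lit 0), (nat_lit 1380072), (nat_lit 3274888), (nat_lit 8273908)]) (PF.cons (PF.leaf (nat_lit 5541902) (nat_lit 351221) (nat_lit 49507382) (nat_lit 2903911) [(nat_lit 351221), (nat_lit 1392501), (nat_lit 3288412), (nat_lit 8272883)]) (PF.cons (PF.leaf (nat_lit 5790842) (nat_lit 358030) (nat_lit 49095643) (nat_lit 2916937) [(nat_lit 358030), (nat_lit 1404341),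 (nat_lit 3301159), (nat_lit 8270329)]) (PF.cons PF.nil PF.nil)))) (PF.cons (PF.cons (PF.leaf (nat_lit 6010402) (nat_lit 1416585) (nat_lit 48354739) (nat_lit 2931647) [(nat_lit 0), (nat_lit 1416585), (nat_lit 3315414), (nat_lit 8257254)]) (PF.cons PF.nil PF.nil)) (PF.cons PF.nil PF.nil))))) (PF.cons (PF.cons (PF.cons (PF.leaf (nat_lit 5192160) (nat_lit 2879575) (nat_lit 49449887) (nat_lit 2879575) [(nat_lit 0), (nat_lit 0), (nat_lit 3264310), (nat_lit 8250729)]) (PF.cons (PF.leaf (nat_lit 5419564) (nat_lit 341722) (nat_lit 49071794) (nat_lit 2892599) [(nat_lit 341722), (nat_lit 0), (nat_lit 3276979), (nat_lit 8248738)]) (PF.cons (PF.leaf (nat_lit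
 5656846) (nat_lit 349358) (nat_lit 48681620) (nat_lit 2905047) [(nat_lit 349358), (nat_lit 0), (nat_lit 3289036), (nat_lit 8245355)]) (PF.cons (PF.leaf (nat_lit 5901791) (nat_lit 356322) (nat_lit 48281787) (nat_lit 2916809) [(nat_lit 356322), (nat_lit 0), (nat_lit 3300367), (nat_lit 8240514)]) (PF.cons PF.nil PF.nil))))) (PF.cons (PF.cons (PF.leaf (nat_lit 5875948) (nat_lit 1404992) (nat_lit 47947970) (nat_lit 2919434) [(nat_lit 0), (nat_lit 1404992), (nat_lit 3302833), (nat_lit 8230748)]) (PF.cons (PF.leaf (nat_lit 6116564) (nat_lit 359606) (nat_lit 47555988) (nat_lit 2929522) [(nat_lit 359606), (nat_lit 1415252), (nat_lit 3312399), (nat_lit 8223643)]) (PF.cons (PF.leaf (nat_lit 6364842) (nat_lit 365817) (nat_lit 47155772) (nat_lit 2938919) [(nat_lit 365817), (nat_lit 1424948), (nat_lit 3321229), (nat_lit 8215080)]) (PF.cons PF.nil PF.nil)))) (PF.cons (PF.cons (PF.leaf (nat_lit 6575427) (nat_lit 1433835) (nat_lit 46442865) (nat_lit 2947780) [(nat_lit 0), (nat_lit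 1433835), (nat_lit 3329139), (nat_lit 8192216)]) (PF.cons PF.nil PF.nil)) PF.nil))) (PF.cons (PF.cons (PF.cons (PF.leaf (nat_lit 6430243) (nat_lit 2934308) (nat_lit 46066467) (nat_lit 2934308) [(nat_lit 0), (nat_lit 0),
 (nat_lit 3315080), (nat_lit 8162794)]) (PF.cons (PF.leaf (nat_lit 6669767) (nat_lit 365868) (nat_lit 45687000) (nat_lit 2941299) [(nat_lit 365868), (nat_lit 0), (nat_lit 3321313), (nat_lit 8150702)]) (PF.cons PF.nil PF.nil))) (PF.cons (PF.cons (PF.leaf (nat_lit 7117938) (nat_lit 1444213) (nat_lit 44617647) (nat_lit 2951683) [(nat_lit 0), (nat_lit 1444213), (nat_lit 3329554), (nat_lit 8106605)]) PF.nil) PF.nil)) (PF.cons PF.nil (PF.cons PF.nil PF.nil)))))) (PF.cons (PF.cons (PF.cons (PF.cons (PF.leaf (nat_lit 4896537) (nat_lit 2802468) (nat_lit 48077617) (nat_lit 2802468) [(nat_lit 0), (nat_lit 0), (nat_lit 0), (nat_lit 8114363)]) (PF.cons (PF.leaf (nat_lit 5098831) (nat_lit 315152) (nat_lit 47753469) (nat_lit 2815975) [(nat_lit 315152), (nat_lit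 0), (nat_lit 0), (nat_lit 8112107)]) (PF.cons (PF.leaf (nat_lit 5313589) (nat_lit 324538) (nat_lit 47413245) (nat_lit 2829117) [(nat_lit 324538), (nat_lit 0), (nat_lit 0), (nat_lit 8108686)]) (PF.cons (PF.leaf (nat_lit 5537953) (nat_lit 332970) (nat_lit 47060146) (nat_lit 2841716) [(nat_lit 332970), (nat_lit 0), (nat_lit 0), (nat_lit 8104019)]) (PF.cons (PF.leaf (nat_lit 5770512) (nat_lit 340618) (nat_lit 46696588) (nat_lit 2853653)
 [(nat_lit 340618), (nat_lit 0), (nat_lit 0), (nat_lit 8098048)]) (PF.cons (PF.leaf (nat_lit 6010140) (nat_lit 347602) (nat_lit 46324478) (nat_lit 2864848) [(nat_lit 347602), (nat_lit 0), (nat_lit 0), (nat_lit 8090737)]) (PF.cons PF.nil PF.nil))))))) (PF.cons (PF.cons (PF.leaf (nat_lit 5529106) (nat_lit 1351914) (nat_lit 46723716) (nat_lit 2845410) [(nat_lit 0), (nat_lit 1351914), (nat_lit 0), (nat_lit 8093885)]) (PF.cons (PF.leaf (nat_lit 5748892) (nat_lit 336823) (nat_lit 46377641) (nat_lit 2856246) [(nat_lit 336823), (nat_lit 1363572),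 (nat_lit 0), (nat_lit 8087264)]) (PF.cons (PF.leaf (nat_lit 5978208) (nat_lit 344276) (nat_lit 46020419) (nat_lit 2866507) [(nat_lit 344276), (nat_lit 1374643), (nat_lit 0), (nat_lit 8079345)]) (PF.cons (PF.leaf (nat_lit 6214882) (nat_lit 351040) (nat_lit 45654288) (nat_lit 2876103) [(nat_lit 351040), (nat_lit 1385089), (nat_lit 0), (nat_lit 8070105)]) (PF.cons (PF.leaf (nat_lit 6457929) (nat_lit 357217) (nat_lit 45281006) (nat_lit 2884975) [(nat_lit 357217), (nat_lit 1394892), (nat_lit 0), (nat_lit 8059534)]) PF.nil))))) (PF.cons (PF.cons (PF.leaf (nat_lit 6185954) (nat_lit 1385247) (nat_lit 45347067) (nat_lit 2877045) [(nat_lit 0), (nat_lit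
 1385247), (nat_lit 0), (nat_lit 8057102)]) (PF.cons (PF.leaf (nat_lit 6418347) (nat_lit 353917) (nat_lit 44988266) (nat_lit 2885153) [(nat_lit 353917), (nat_lit 1394619), (nat_lit 0), (nat_lit 8046118)]) (PF.cons (PF.leaf (nat_lit 6658109) (nat_lit 359918) (nat_lit 44621876) (nat_lit 2892604) [(nat_lit 359918), (nat_lit 1403420), (nat_lit 0), (nat_lit 8033826)]) (PF.cons PF.nil PF.nil)))) (PF.cons (PF.cons (PF.leaf (nat_lit 6857556) (nat_lit 1410732) (nat_lit 43968095) (nat_lit 2898280) [(nat_lit 0), (nat_lit 1410732), (nat_lit 0), (nat_lit 8005119)]) (PF.cons (PF.leaf (nat_lit 7098827) (nat_lit 367455) (nat_lit 43603325) (nat_lit 2903773) [(nat_lit 367455), (nat_lit 1418074), (nat_lit 0), (nat_lit 7990017)]) PF.nil)) (PF.cons PF.nil PF.nil))))) (PF.cons (PF.cons (PF.cons (PF.leaf (nat_lit 6061244) (nat_lit 2862771) (nat_lit 44953799) (nat_lit 2862771) [(nat_lit 0), (nat_lit 0), (nat_lit 3239035), (nat_lit 8026603)]) (PF.cons (PF.leaf (nat_lit 6281348) (nat_lit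 344027) (nat_lit 44616725) (nat_lit 2870649) [(nat_lit 344027), (nat_lit 0), (nat_lit 3246076), (nat_lit 8015667)]) (PF.cons (PF.leaf (nat_lit 6510458) (nat_lit 350922) (nat_lit 44269590) (nat_lit 2877963) [(nat_lit
 350922), (nat_lit 0), (nat_lit 3252523), (nat_lit 8003444)]) (PF.cons (PF.leaf (nat_lit 6746401) (nat_lit 357129) (nat_lit 43914561) (nat_lit 2884646) [(nat_lit 357129), (nat_lit 0), (nat_lit 3258310), (nat_lit 7989952)]) (PF.cons PF.nil PF.nil))))) (PF.cons (PF.cons (PF.leaf (nat_lit 6710607) (nat_lit 1398011) (nat_lit 43622298) (nat_lit 2883651) [(nat_lit 0), (nat_lit 1398011), (nat_lit 3256814), (nat_lit 7974018)]) (PF.cons (PF.leaf (nat_lit 6941887) (nat_lit 359167) (nat_lit 43275261) (nat_lit 2889089) [(nat_lit 359167), (nat_lit 1405683), (nat_lit 3261311), (nat_lit 7959149)]) (PF.cons (PF.leaf (nat_lit 7180072) (nat_lit 364658) (nat_lit 42921517) (nat_lit 2893912) [(nat_lit 364658), (nat_lit 1412817), (nat_lit 3265160), (nat_lit 7943044)])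 (PF.cons PF.nil PF.nil)))) (PF.cons (PF.cons (PF.leaf (nat_lit 7371267) (nat_lit 1417667) (nat_lit 42295921) (nat_lit 2895531) [(nat_lit 0), (nat_lit 1417667), (nat_lit 3265181), (nat_lit 7908421)]) (PF.cons PF.nil PF.nil)) PF.nil))) (PF.cons (PF.cons (PF.cons (PF.leaf (nat_lit 7216446) (nat_lit 2880521) (nat_lit 41976763) (nat_lit 2880521) [(nat_lit 0), (nat_lit 0), (nat_lit 3249392), (nat_lit 7876371)]) (PF.cons (PF.leaf (nat_lit
 7445928) (nat_lit 362845) (nat_lit 41642507) (nat_lit 2883714) [(nat_lit 362845), (nat_lit 0), (nat_lit 3251507), (nat_lit 7858364)]) (PF.cons PF.nil PF.nil))) (PF.cons (PF.cons (PF.leaf (nat_lit 7864952) (nat_lit 1419775) (nat_lit 40705452) (nat_lit 2884629) [(nat_lit 0), (nat_lit 1419775), (nat_lit 3249489), (nat_lit 7799988)]) PF.nil) PF.nil)) (PF.cons PF.nil (PF.cons PF.nil PF.nil))))) (PF.cons (PF.cons (PF.cons (PF.cons (PF.leaf (nat_lit 6829272) (nat_lit 2812266) (nat_lit 41058349) (nat_lit 2812266) [(nat_lit 0), (nat_lit 0),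 (nat_lit 0), (nat_lit 7746065)]) (PF.cons (PF.leaf (nat_lit 7041487) (nat_lit 341837) (nat_lit 40760016) (nat_lit 2816688) [(nat_lit 341837), (nat_lit 0), (nat_lit 0), (nat_lit 7730090)]) (PF.cons (PF.leaf (nat_lit 7262015) (nat_lit 348131) (nat_lit 40453168) (nat_lit 2820572) [(nat_lit 348131), (nat_lit 0), (nat_lit 0), (nat_lit 7712936)]) (PF.cons (PF.leaf (nat_lit 7488719) (nat_lit 353735) (nat_lit 40139718) (nat_lit 2823881) [(nat_lit 353735), (nat_lit 0), (nat_lit 0), (nat_lit 7694668)]) (PF.cons PF.nil PF.nil))))) (PF.cons (PF.cons (PF.leaf (nat_lit 7445858) (nat_lit 1376234) (nat_lit 39884846) (nat_lit 2820686) [(nat_lit 0), (nat_lit 1376234),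
 (nat_lit 0), (nat_lit 7675681)]) (PF.cons (PF.leaf (nat_lit 7667787) (nat_lit 354905) (nat_lit 39578951) (nat_lit 2823055) [(nat_lit 354905), (nat_lit 1382069), (nat_lit 0), (nat_lit 7656610)]) (PF.cons PF.nil (PF.cons PF.nil PF.nil)))) (PF.cons (PF.cons (PF.leaf (nat_lit 8070939) (nat_lit 1389558) (nat_lit 38719769) (nat_lit 2821948) [(nat_lit 0), (nat_lit 1389558), (nat_lit 0), (nat_lit 7595992)]) (PF.cons PF.nil PF.nil)) PF.nil))) (PF.cons (PF.cons (PF.cons (PF.leaf (nat_lit 7910755) (nat_lit 2806580) (nat_lit 38448810) (nat_lit 2806580) [(nat_lit 0), (nat_lit 0), (nat_lit 3161862), (nat_lit 7563853)]) (PF.cons (PF.leaf (nat_lit 8130515) (nat_lit 356855) (nat_lit 38154867) (nat_lit 2807293) [(nat_lit 356855), (nat_lit 0), (nat_lit 3161334), (nat_lit 7542820)]) PF.nil)) (PF.cons PF.nil PF.nil)) (PF.cons PF.nil PF.nil))) (PF.cons (PF.cons (PF.cons (PF.cons (PF.leaf (nat_lit 8531727) (nat_lit 2722677) (nat_lit 35398145) (nat_lit 2722677) [(nat_lit 0), (nat_lit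 0), (nat_lit 0), (nat_lit 7246997)]) (PF.cons (PF.leaf (nat_lit 8742326) (nat_lit 349181) (nat_lit 35139211) (nat_lit 2721770) [(nat_lit 349181), (nat_lit 0), (nat_lit 0), (nat_lit 7224662)]) PF.nil)) (PF.cons PF.nil
 PF.nil)) (PF.cons PF.nil PF.nil)) (PF.cons PF.nil (PF.cons PF.nil (PF.cons PF.nil (PF.cons PF.nil PF.nil)))))))))

def p15_13_0_0 : pfC (piC [(nat_lit 42686981), (nat_lit 26736489), (nat_lit 19877745), (nat_lit 13394109)] (nat_lit 25010362)) p15_13_0 (nat_lit 4) (nat_lit 0) (nat_lit 1) = true := by decide +kernel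
def p15_13_0_1 : pfC (piC [(nat_lit 42686981), (nat_lit 26736489), (nat_lit 19877745), (nat_lit 13394109)] (nat_lit 25010362)) p15_13_0 (nat_lit 4) (nat_lit 1) (nat_lit 2) = true := by decide +kernel
def p15_13_0_2 : pfC (piC [(nat_lit 42686981), (nat_lit 26736489), (nat_lit 19877745), (nat_lit 13394109)] (nat_lit 25010362)) p15_13_0 (nat_lit 4) (nat_lit 2) (nat_lit 3) = true := by decide +kernel
def p15_13_0_3 : pfC (piC [(nat_lit 42686981), (nat_lit 26736489), (nat_lit 19877745), (nat_lit 13394109)] (nat_lit 25010362)) p15_13_0 (nat_lit 4) (nat_lit 3) (nat_lit 4) = true := by decide +kernel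
def p15_13_0_4 : pfC (piC [(nat_lit 42686981), (nat_lit 26736489), (nat_lit 19877745), (nat_lit 13394109)] (nat_lit 25010362)) p15_13_0 (nat_lit 4) (nat_lit 4) (nat_lit 5) = true := by decide +kernel
def p15_13_0_5 : pfC (piC [(nat_lit 42686981), (nat_lit 26736489), (nat_lit 19877745), (nat_lit 13394109)] (nat_lit 25010362)) p15_13_0 (nat_lit 4) (nat_lit 5) (nat_lit 6) = true := by decide +kernel
def p15_13_0_6 : pfC (piC [(nat_lit 42686981), (nat_lit 26736489), (nat_lit 19877745), (nat_lit 13394109)] (nat_lit 25010362)) p15_13_0 (nat_lit 4) (nat_lit 6) (nat_lit 7) = true := by decide +kernel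
def p15_13_0_7 : pfC (piC [(nat_lit 42686981), (nat_lit 26736489), (nat_lit 19877745), (nat_lit 13394109)] (nat_lit 25010362)) p15_13_0 (nat_lit 4) (nat_lit 7) (nat_lit 8) = true := by decide +kernel
def p15_13_0_8 : pfC (piC [(nat_lit 42686981), (nat_lit 26736489), (nat_lit 19877745), (nat_lit 13394109)] (nat_lit 25010362)) p15_13_0 (nat_lit 4) (nat_lit 8) (nat_lit 9) = true := by decide +kernel
def p15_13_0_9 : pfC (piC [(nat_lit 42686981), (nat_lit 26736489), (nat_lit 19877745), (nat_lit 13394109)] (nat_lit 25010362)) p15_13_0 (nat_lit 4) (nat_lit 9) (nat_lit 10) = true := by decide +kernel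
def p15_13_0_10 : pfC (piC [(nat_lit 42686981), (nat_lit 26736489), (nat_lit 19877745), (nat_lit 13394109)] (nat_lit 25010362)) p15_13_0 (nat_lit 4) (nat_lit 10) (nat_lit 11) = true := by decide +kernel
def p15_13_0_11 : pfC (piC [(nat_lit 42686981), (nat_lit 26736489), (nat_lit 19877745), (nat_lit 13394109)] (nat_lit 25010362)) p15_13_0 (nat_lit 4) (nat_lit 11) (nat_lit 12) = true := by decide +kernel
def p15_13_0_12 : pfC (piC [(nat_lit 42686981), (nat_lit 26736489), (nat_lit 19877745), (nat_lit 13394109)] (nat_lit 25010362)) p15_13_0 (nat_lit 4) (nat_lit 12) (nat_lit 13) = true := by decide +kernel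
def p15_13_0_13 : pfC (piC [(nat_lit 42686981), (nat_lit 26736489), (nat_lit 19877745), (nat_lit 13394109)] (nat_lit 25010362)) p15_13_0 (nat_lit 4) (nat_lit 13) (nat_lit 14) = true := by decide +kernel
def p15_13_0_14 : pfC (piC [(nat_lit 42686981), (nat_lit 26736489), (nat_lit 19877745), (nat_lit 13394109)] (nat_lit 25010362)) p15_13_0 (nat_lit 4) (nat_lit 14) (nat_lit 15) = true := by decide +kernel
def p15_13_0_15 : pfC (piC [(nat_lit 42686981), (nat_lit 26736489), (nat_lit 19877745), (nat_lit 13394109)] (nat_lit 25010362)) p15_13_0 (nat_lit 4) (nat_lit 15) (nat_lit 16) = true := by decide +kernel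
def p15_13_0_16 : pfC (piC [(nat_lit 42686981), (nat_lit 26736489), (nat_lit 19877745), (nat_lit 13394109)] (nat_lit 25010362)) p15_13_0 (nat_lit 4) (nat_lit 16) (nat_lit 17) = true := by decide +kernel
def p15_13_0_17 : pfC (piC [(nat_lit 42686981), (nat_lit 26736489), (nat_lit 19877745), (nat_lit 13394109)] (nat_lit 25010362)) p15_13_0 (nat_lit 4) (nat_lit 17) (nat_lit 18) = true := by decide +kernel
def p15_13_0_18 : pfC (piC [(nat_lit 42686981), (nat_lit 26736489), (nat_lit 19877745), (nat_lit 13394109)] (nat_lit 25010362)) p15_13_0 (nat_lit 4) (nat_lit 18) (nat_lit 19) = true := by decide +kernel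
def p15_13_0_19 : pfC (piC [(nat_lit 42686981), (nat_lit 26736489), (nat_lit 19877745), (nat_lit 13394109)] (nat_lit 25010362)) p15_13_0 (nat_lit 4) (nat_lit 19) (nat_lit 20) = true := by decide +kernel
def p15_13_0_20 : pfC (piC [(nat_lit 42686981), (nat_lit 26736489), (nat_lit 19877745), (nat_lit 13394109)] (nat_lit 25010362)) p15_13_0 (nat_lit 4) (nat_lit 20) (nat_lit 21) = true := by decide +kernel
def p15_13_0_21 : pfC (piC [(nat_lit 42686981), (nat_lit 26736489), (nat_lit 19877745), (nat_lit 13394109)] (nat_lit 25010362)) p15_13_0 (nat_lit 4) (nat_lit 21) (nat_lit 22) = true := by decide +kernel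
def p15_13_0_22 : pfC (piC [(nat_lit 42686981), (nat_lit 26736489), (nat_lit 19877745), (nat_lit 13394109)] (nat_lit 25010362)) p15_13_0 (nat_lit 4) (nat_lit 22) (nat_lit 23) = true := by decide +kernel
def p15_13_0_23 : pfC (piC [(nat_lit 42686981), (nat_lit 26736489), (nat_lit 19877745), (nat_lit 13394109)] (nat_lit 25010362)) p15_13_0 (nat_lit 4) (nat_lit 23) (nat_lit 24) = true := by decide +kernel
def p15_13_0_24 : pfC (piC [(nat_lit 42686981), (nat_lit 26736489), (nat_lit 19877745), (nat_lit 13394109)] (nat_lit 25010362)) p15_13_0 (nat_lit 4) (nat_lit 24) (nat_lit 25) = true := by decide +kernel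
def p15_13_0_25 : pfC (piC [(nat_lit 42686981), (nat_lit 26736489), (nat_lit 19877745), (nat_lit 13394109)] (nat_lit 25010362)) p15_13_0 (nat_lit 4) (nat_lit 25) (nat_lit 26) = true := by decide +kernel
def p15_13_0_26 : pfC (piC [(nat_lit 42686981), (nat_lit 26736489), (nat_lit 19877745), (nat_lit 13394109)] (nat_lit 25010362)) p15_13_0 (nat_lit 4) (nat_lit 26) (nat_lit 27) = true := by decide +kernel
def p15_13_0_27 : pfC (piC [(nat_lit 42686981), (nat_lit 26736489), (nat_lit 19877745), (nat_lit 13394109)] (nat_lit 25010362)) p15_13_0 (nat_lit 4) (nat_lit 27) (nat_lit 28) = true := by decide +kernel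
def p15_13_0_28 : pfC (piC [(nat_lit 42686981), (nat_lit 26736489), (nat_lit 19877745), (nat_lit 13394109)] (nat_lit 25010362)) p15_13_0 (nat_lit 4) (nat_lit 28) (nat_lit 29) = true := by decide +kernel
def p15_13_0_29 : pfC (piC [(nat_lit 42686981), (nat_lit 26736489), (nat_lit 19877745), (nat_lit 13394109)] (nat_lit 25010362)) p15_13_0 (nat_lit 4) (nat_lit 29) (nat_lit 30) = true := by decide +kernel
def p15_13_0_30 : pfC (piC [(nat_lit 42686981), (nat_lit 26736489), (nat_lit 19877745), (nat_lit 13394109)] (nat_lit 25010362)) p15_13_0 (nat_lit 4) (nat_lit 30) (nat_lit 31) = true := by decide +kernel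
def p15_13_0_31 : pfC (piC [(nat_lit 42686981), (nat_lit 26736489), (nat_lit 19877745), (nat_lit 13394109)] (nat_lit 25010362)) p15_13_0 (nat_lit 4) (nat_lit 31) (nat_lit 32) = true := by decide +kernel
def p15_13_0_32 : pfC (piC [(nat_lit 42686981), (nat_lit 26736489), (nat_lit 19877745), (nat_lit 13394109)] (nat_lit 25010362)) p15_13_0 (nat_lit 4) (nat_lit 32) (nat_lit 33) = true := by decide +kernel
def p15_13_0_33 : pfC (piC [(nat_lit 42686981), (nat_lit 26736489), (nat_lit 19877745), (nat_lit 13394109)] (nat_lit 25010362)) p15_13_0 (nat_lit 4) (nat_lit 33) (nat_lit 34) = true := by decide +kernel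
def p15_13_0_34 : pfC (piC [(nat_lit 42686981), (nat_lit 26736489), (nat_lit 19877745), (nat_lit 13394109)] (nat_lit 25010362)) p15_13_0 (nat_lit 4) (nat_lit 34) (nat_lit 35) = true := by decide +kernel
def p15_13_0_35 : pfC (piC [(nat_lit 42686981), (nat_lit 26736489), (nat_lit 19877745), (nat_lit 13394109)] (nat_lit 25010362)) p15_13_0 (nat_lit 4) (nat_lit 35) (nat_lit 36) = true := by decide +kernel
def p15_13_0_36 : pfC (piC [(nat_lit 42686981), (nat_lit 26736489), (nat_lit 19877745), (nat_lit 13394109)] (nat_lit 25010362)) p15_13_0 (nat_lit 4) (nat_lit 36) (nat_lit 37) = true := by decide +kernel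
def p15_13_0_37 : pfC (piC [(nat_lit 42686981), (nat_lit 26736489), (nat_lit 19877745), (nat_lit 13394109)] (nat_lit 25010362)) p15_13_0 (nat_lit 4) (nat_lit 37) (nat_lit 38) = true := by decide +kernel
def p15_13_0_38 : pfC (piC [(nat_lit 42686981), (nat_lit 26736489), (nat_lit 19877745), (nat_lit 13394109)] (nat_lit 25010362)) p15_13_0 (nat_lit 4) (nat_lit 38) (nat_lit 39) = true := by decide +kernel
def p15_13_0_39 : pfC (piC [(nat_lit 42686981), (nat_lit 26736489), (nat_lit 19877745), (nat_lit 13394109)] (nat_lit 25010362)) p15_13_0 (nat_lit 4) (nat_lit 39) (nat_lit 40) = true := by decide +kernel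
def p15_13_0_40 : pfC (piC [(nat_lit 42686981), (nat_lit 26736489), (nat_lit 19877745), (nat_lit 13394109)] (nat_lit 25010362)) p15_13_0 (nat_lit 4) (nat_lit 40) (nat_lit 41) = true := by decide +kernel
def p15_13_0_41 : pfC (piC [(nat_lit 42686981), (nat_lit 26736489), (nat_lit 19877745), (nat_lit 13394109)] (nat_lit 25010362)) p15_13_0 (nat_lit 4) (nat_lit 41) (nat_lit 42) = true := by decide +kernel
def p15_13_0_42 : pfC (piC [(nat_lit 42686981), (nat_lit 26736489), (nat_lit 19877745), (nat_lit 13394109)] (nat_lit 25010362)) p15_13_0 (nat_lit 4) (nat_lit 42) (nat_lit 43) = true := by decide +kernel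
def p15_13_0_43 : pfC (piC [(nat_lit 42686981), (nat_lit 26736489), (nat_lit 19877745), (nat_lit 13394109)] (nat_lit 25010362)) p15_13_0 (nat_lit 4) (nat_lit 43) (nat_lit 44) = true := by decide +kernel
def p15_13_0_44 : pfC (piC [(nat_lit 42686981), (nat_lit 26736489), (nat_lit 19877745), (nat_lit 13394109)] (nat_lit 25010362)) p15_13_0 (nat_lit 4) (nat_lit 44) (nat_lit 45) = true := by decide +kernel
def p15_13_0_45 : pfC (piC [(nat_lit 42686981), (nat_lit 26736489), (nat_lit 19877745), (nat_lit 13394109)] (nat_lit 25010362)) p15_13_0 (nat_lit 4) (nat_lit 45) (nat_lit 46) = true := by decide +kernel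
def p15_13_0_46 : pfC (piC [(nat_lit 42686981), (nat_lit 26736489), (nat_lit 19877745), (nat_lit 13394109)] (nat_lit 25010362)) p15_13_0 (nat_lit 4) (nat_lit 46) (nat_lit 47) = true := by decide +kernel
def p15_13_0_47 : pfC (piC [(nat_lit 42686981), (nat_lit 26736489), (nat_lit 19877745), (nat_lit 13394109)] (nat_lit 25010362)) p15_13_0 (nat_lit 4) (nat_lit 47) (nat_lit 48) = true := by decide +kernel
def p15_13_0_48 : pfC (piC [(nat_lit 42686981), (nat_lit 26736489), (nat_lit 19877745), (nat_lit 13394109)] (nat_lit 25010362)) p15_13_0 (nat_lit 4) (nat_lit 48) (nat_lit 49) = true := by decide +kernel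
def p15_13_0_49 : pfC (piC [(nat_lit 42686981), (nat_lit 26736489), (nat_lit 19877745), (nat_lit 13394109)] (nat_lit 25010362)) p15_13_0 (nat_lit 4) (nat_lit 49) (nat_lit 50) = true := by decide +kernel
def p15_13_0_50 : pfC (piC [(nat_lit 42686981), (nat_lit 26736489), (nat_lit 19877745), (nat_lit 13394109)] (nat_lit 25010362)) p15_13_0 (nat_lit 4) (nat_lit 50) (nat_lit 51) = true := by decide +kernel
def p15_13_0_51 : pfC (piC [(nat_lit 42686981), (nat_lit 26736489), (nat_lit 19877745), (nat_lit 13394109)] (nat_lit 25010362)) p15_13_0 (nat_lit 4) (nat_lit 51) (nat_lit 52) = true := by decide +kernel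
def p15_13_0_52 : pfC (piC [(nat_lit 42686981), (nat_lit 26736489), (nat_lit 19877745), (nat_lit 13394109)] (nat_lit 25010362)) p15_13_0 (nat_lit 4) (nat_lit 52) (nat_lit 53) = true := by decide +kernel
def p15_13_0_53 : pfC (piC [(nat_lit 42686981), (nat_lit 26736489), (nat_lit 19877745), (nat_lit 13394109)] (nat_lit 25010362)) p15_13_0 (nat_lit 4) (nat_lit 53) (nat_lit 54) = true := by decide +kernel
def p15_13_0_54 : pfC (piC [(nat_lit 42686981), (nat_lit 26736489), (nat_lit 19877745), (nat_lit 13394109)] (nat_lit 25010362)) p15_13_0 (nat_lit 4) (nat_lit 54) (nat_lit 55) = true := by decide +kernel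
def p15_13_0_55 : pfC (piC [(nat_lit 42686981), (nat_lit 26736489), (nat_lit 19877745), (nat_lit 13394109)] (nat_lit 25010362)) p15_13_0 (nat_lit 4) (nat_lit 55) (nat_lit 56) = true := by decide +kernel
def p15_13_0_56 : pfC (piC [(nat_lit 42686981), (nat_lit 26736489), (nat_lit 19877745), (nat_lit 13394109)] (nat_lit 25010362)) p15_13_0 (nat_lit 4) (nat_lit 56) (nat_lit 57) = true := by decide +kernel
def p15_13_0_57 : pfC (piC [(nat_lit 42686981), (nat_lit 26736489), (nat_lit 19877745), (nat_lit 13394109)] (nat_lit 25010362)) p15_13_0 (nat_lit 4) (nat_lit 57) (nat_lit 58) = true := by decide +kernel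
def p15_13_0_58 : pfC (piC [(nat_lit 42686981), (nat_lit 26736489), (nat_lit 19877745), (nat_lit 13394109)] (nat_lit 25010362)) p15_13_0 (nat_lit 4) (nat_lit 58) (nat_lit 59) = true := by decide +kernel
def p15_13_0_59 : pfC (piC [(nat_lit 42686981), (nat_lit 26736489), (nat_lit 19877745), (nat_lit 13394109)] (nat_lit 25010362)) p15_13_0 (nat_lit 4) (nat_lit 59) (nat_lit 60) = true := by decide +kernel
def p15_13_0_60 : pfC (piC [(nat_lit 42686981), (nat_lit 26736489), (nat_lit 19877745), (nat_lit 13394109)] (nat_lit 25010362)) p15_13_0 (nat_lit 4) (nat_lit 60) (nat_lit 61) = true := by decide +kernel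
def p15_13_0_61 : pfC (piC [(nat_lit 42686981), (nat_lit 26736489), (nat_lit 19877745), (nat_lit 13394109)] (nat_lit 25010362)) p15_13_0 (nat_lit 4) (nat_lit 61) (nat_lit 62) = true := by decide +kernel
def p15_13_0_62 : pfC (piC [(nat_lit 42686981), (nat_lit 26736489), (nat_lit 19877745), (nat_lit 13394109)] (nat_lit 25010362)) p15_13_0 (nat_lit 4) (nat_lit 62) (nat_lit 63) = true := by decide +kernel
def p15_13_0_63 : pfC (piC [(nat_lit 42686981), (nat_lit 26736489), (nat_lit 19877745), (nat_lit 13394109)] (nat_lit 25010362)) p15_13_0 (nat_lit 4) (nat_lit 63) (nat_lit 64) = true := by decide +kernel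
def p15_13_0_64 : pfC (piC [(nat_lit 42686981), (nat_lit 26736489), (nat_lit 19877745), (nat_lit 13394109)] (nat_lit 25010362)) p15_13_0 (nat_lit 4) (nat_lit 64) (nat_lit 65) = true := by decide +kernel
def p15_13_0_65 : pfC (piC [(nat_lit 42686981), (nat_lit 26736489), (nat_lit 19877745), (nat_lit 13394109)] (nat_lit 25010362)) p15_13_0 (nat_lit 4) (nat_lit 65) (nat_lit 66) = true := by decide +kernel
def p15_13_0_66 : pfC (piC [(nat_lit 42686981), (nat_lit 26736489), (nat_lit 19877745), (nat_lit 13394109)] (nat_lit 25010362)) p15_13_0 (nat_lit 4) (nat_lit 66) (nat_lit 67) = true := by decide +kernel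
def p15_13_0_67 : pfC (piC [(nat_lit 42686981), (nat_lit 26736489), (nat_lit 19877745), (nat_lit 13394109)] (nat_lit 25010362)) p15_13_0 (nat_lit 4) (nat_lit 67) (nat_lit 68) = true := by decide +kernel
def p15_13_0_68 : pfC (piC [(nat_lit 42686981), (nat_lit 26736489), (nat_lit 19877745), (nat_lit 13394109)] (nat_lit 25010362)) p15_13_0 (nat_lit 4) (nat_lit 68) (nat_lit 69) = true := by decide +kernel
def p15_13_0_69 : pfC (piC [(nat_lit 42686981), (nat_lit 26736489), (nat_lit 19877745), (nat_lit 13394109)] (nat_lit 25010362)) p15_13_0 (nat_lit 4) (nat_lit 69) (nat_lit 70) = true := by decide +kernel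
def p15_13_0_70 : pfC (piC [(nat_lit 42686981), (nat_lit 26736489), (nat_lit 19877745), (nat_lit 13394109)] (nat_lit 25010362)) p15_13_0 (nat_lit 4) (nat_lit 70) (nat_lit 71) = true := by decide +kernel
def p15_13_0_71 : pfC (piC [(nat_lit 42686981), (nat_lit 26736489), (nat_lit 19877745), (nat_lit 13394109)] (nat_lit 25010362)) p15_13_0 (nat_lit 4) (nat_lit 71) (nat_lit 72) = true := by decide +kernel
def p15_13_0_72 : pfC (piC [(nat_lit 42686981), (nat_lit 26736489), (nat_lit 19877745), (nat_lit 13394109)] (nat_lit 25010362)) p15_13_0 (nat_lit 4) (nat_lit 72) (nat_lit 73) = true := by decide +kernel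
def p15_13_0_73 : pfC (piC [(nat_lit 42686981), (nat_lit 26736489), (nat_lit 19877745), (nat_lit 13394109)] (nat_lit 25010362)) p15_13_0 (nat_lit 4) (nat_lit 73) (nat_lit 74) = true := by decide +kernel
def p15_13_0_74 : pfC (piC [(nat_lit 42686981), (nat_lit 26736489), (nat_lit 19877745), (nat_lit 13394109)] (nat_lit 25010362)) p15_13_0 (nat_lit 4) (nat_lit 74) (nat_lit 75) = true := by decide +kernel
def p15_13_0_75 : pfC (piC [(nat_lit 42686981), (nat_lit 26736489), (nat_lit 19877745), (nat_lit 13394109)] (nat_lit 25010362)) p15_13_0 (nat_lit 4) (nat_lit 75) (nat_lit 76) = true := by decide +kernel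
def p15_13_0_76 : pfC (piC [(nat_lit 42686981), (nat_lit 26736489), (nat_lit 19877745), (nat_lit 13394109)] (nat_lit 25010362)) p15_13_0 (nat_lit 4) (nat_lit 76) (nat_lit 77) = true := by decide +kernel
def p15_13_0_77 : pfC (piC [(nat_lit 42686981), (nat_lit 26736489), (nat_lit 19877745), (nat_lit 13394109)] (nat_lit 25010362)) p15_13_0 (nat_lit 4) (nat_lit 77) (nat_lit 78) = true := by decide +kernel
def p15_13_0_78 : pfC (piC [(nat_lit 42686981), (nat_lit 26736489), (nat_lit 19877745), (nat_lit 13394109)] (nat_lit 25010362)) p15_13_0 (nat_lit 4) (nat_lit 78) (nat_lit 79) = true := by decide +kernel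
def p15_13_0_79 : pfC (piC [(nat_lit 42686981), (nat_lit 26736489), (nat_lit 19877745), (nat_lit 13394109)] (nat_lit 25010362)) p15_13_0 (nat_lit 4) (nat_lit 79) (nat_lit 80) = true := by decide +kernel
def p15_13_0_80 : pfC (piC [(nat_lit 42686981), (nat_lit 26736489), (nat_lit 19877745), (nat_lit 13394109)] (nat_lit 25010362)) p15_13_0 (nat_lit 4) (nat_lit 80) (nat_lit 81) = true := by decide +kernel
def p15_13_0_81 : pfC (piC [(nat_lit 42686981), (nat_lit 26736489), (nat_lit 19877745), (nat_lit 13394109)] (nat_lit 25010362)) p15_13_0 (nat_lit 4) (nat_lit 81) (nat_lit 82) = true := by decide +kernel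
def p15_13_0_82 : pfC (piC [(nat_lit 42686981), (nat_lit 26736489), (nat_lit 19877745), (nat_lit 13394109)] (nat_lit 25010362)) p15_13_0 (nat_lit 4) (nat_lit 82) (nat_lit 83) = true := by decide +kernel
def p15_13_0_83 : pfC (piC [(nat_lit 42686981), (nat_lit 26736489), (nat_lit 19877745), (nat_lit 13394109)] (nat_lit 25010362)) p15_13_0 (nat_lit 4) (nat_lit 83) (nat_lit 84) = true := by decide +kernel
def p15_13_0_84 : pfC (piC [(nat_lit 42686981), (nat_lit 26736489), (nat_lit 19877745), (nat_lit 13394109)] (nat_lit 25010362)) p15_13_0 (nat_lit 4) (nat_lit 84) (nat_lit 85) = true := by decide +kernel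
def p15_13_0_85 : pfC (piC [(nat_lit 42686981), (nat_lit 26736489), (nat_lit 19877745), (nat_lit 13394109)] (nat_lit 25010362)) p15_13_0 (nat_lit 4) (nat_lit 85) (nat_lit 86) = true := by decide +kernel
def p15_13_0_86 : pfC (piC [(nat_lit 42686981), (nat_lit 26736489), (nat_lit 19877745), (nat_lit 13394109)] (nat_lit 25010362)) p15_13_0 (nat_lit 4) (nat_lit 86) (nat_lit 87) = true := by decide +kernel
def p15_13_0_87 : pfC (piC [(nat_lit 42686981), (nat_lit 26736489), (nat_lit 19877745), (nat_lit 13394109)] (nat_lit 25010362)) p15_13_0 (nat_lit 4) (nat_lit 87) (nat_lit 88) = true := by decide +kernel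
def p15_13_0_88 : pfC (piC [(nat_lit 42686981), (nat_lit 26736489), (nat_lit 19877745), (nat_lit 13394109)] (nat_lit 25010362)) p15_13_0 (nat_lit 4) (nat_lit 88) (nat_lit 89) = true := by decide +kernel
def p15_13_0_89 : pfC (piC [(nat_lit 42686981), (nat_lit 26736489), (nat_lit 19877745), (nat_lit 13394109)] (nat_lit 25010362)) p15_13_0 (nat_lit 4) (nat_lit 89) (nat_lit 90) = true := by decide +kernel
def p15_13_0_90 : pfC (piC [(nat_lit 42686981), (nat_lit 26736489), (nat_lit 19877745), (nat_lit 13394109)] (nat_lit 25010362)) p15_13_0 (nat_lit 4) (nat_lit 90) (nat_lit 91) = true := by decide +kernel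
def p15_13_0_91 : pfC (piC [(nat_lit 42686981), (nat_lit 26736489), (nat_lit 19877745), (nat_lit 13394109)] (nat_lit 25010362)) p15_13_0 (nat_lit 4) (nat_lit 91) (nat_lit 92) = true := by decide +kernel
def p15_13_0_92 : pfC (piC [(nat_lit 42686981), (nat_lit 26736489), (nat_lit 19877745), (nat_lit 13394109)] (nat_lit 25010362)) p15_13_0 (nat_lit 4) (nat_lit 92) (nat_lit 93) = true := by decide +kernel
def p15_13_0_93 : pfC (piC [(nat_lit 42686981), (nat_lit 26736489), (nat_lit 19877745), (nat_lit 13394109)] (nat_lit 25010362)) p15_13_0 (nat_lit 4) (nat_lit 93) (nat_lit 94) = true := by decide +kernel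
def p15_13_0_94 : pfC (piC [(nat_lit 42686981), (nat_lit 26736489), (nat_lit 19877745), (nat_lit 13394109)] (nat_lit 25010362)) p15_13_0 (nat_lit 4) (nat_lit 94) (nat_lit 95) = true := by decide +kernel
def p15_13_0_95 : pfC (piC [(nat_lit 42686981), (nat_lit 26736489), (nat_lit 19877745), (nat_lit 13394109)] (nat_lit 25010362)) p15_13_0 (nat_lit 4) (nat_lit 95) (nat_lit 96) = true := by decide +kernel
def p15_13_0_96 : pfC (piC [(nat_lit 42686981), (nat_lit 26736489), (nat_lit 19877745), (nat_lit 13394109)] (nat_lit 25010362)) p15_13_0 (nat_lit 4) (nat_lit 96) (nat_lit 97) = true := by decide +kernel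
def p15_13_0_97 : pfC (piC [(nat_lit 42686981), (nat_lit 26736489), (nat_lit 19877745), (nat_lit 13394109)] (nat_lit 25010362)) p15_13_0 (nat_lit 4) (nat_lit 97) (nat_lit 98) = true := by decide +kernel
def p15_13_0_98 : pfC (piC [(nat_lit 42686981), (nat_lit 26736489), (nat_lit 19877745), (nat_lit 13394109)] (nat_lit 25010362)) p15_13_0 (nat_lit 4) (nat_lit 98) (nat_lit 99) = true := by decide +kernel
def p15_13_0_99 : pfC (piC [(nat_lit 42686981), (nat_lit 26736489), (nat_lit 19877745), (nat_lit 13394109)] (nat_lit 25010362)) p15_13_0 (nat_lit 4) (nat_lit 99) (nat_lit 100) = true := by decide +kernel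
def p15_13_0_100 : pfC (piC [(nat_lit 42686981), (nat_lit 26736489), (nat_lit 19877745), (nat_lit 13394109)] (nat_lit 25010362)) p15_13_0 (nat_lit 4) (nat_lit 100) (nat_lit 101) = true := by decide +kernel
def p15_13_0_101 : pfC (piC [(nat_lit 42686981), (nat_lit 26736489), (nat_lit 19877745), (nat_lit 13394109)] (nat_lit 25010362)) p15_13_0 (nat_lit 4) (nat_lit 101) (nat_lit 102) = true := by decide +kernel
def p15_13_0_102 : pfC (piC [(nat_lit 42686981), (nat_lit 26736489), (nat_lit 19877745), (nat_lit 13394109)] (nat_lit 25010362)) p15_13_0 (nat_lit 4) (nat_lit 102) (nat_lit 103) = true := by decide +kernel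
def p15_13_0_103 : pfC (piC [(nat_lit 42686981), (nat_lit 26736489), (nat_lit 19877745), (nat_lit 13394109)] (nat_lit 25010362)) p15_13_0 (nat_lit 4) (nat_lit 103) (nat_lit 104) = true := by decide +kernel
def p15_13_0_104 : pfC (piC [(nat_lit 42686981), (nat_lit 26736489), (nat_lit 19877745), (nat_lit 13394109)] (nat_lit 25010362)) p15_13_0 (nat_lit 4) (nat_lit 104) (nat_lit 105) = true := by decide +kernel
def p15_13_0_105 : pfC (piC [(nat_lit 42686981), (nat_lit 26736489), (nat_lit 19877745), (nat_lit 13394109)] (nat_lit 25010362)) p15_13_0 (nat_lit 4) (nat_lit 105) (nat_lit 106) = true := by decide +kernel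
def p15_13_0_106 : pfC (piC [(nat_lit 42686981), (nat_lit 26736489), (nat_lit 19877745), (nat_lit 13394109)] (nat_lit 25010362)) p15_13_0 (nat_lit 4) (nat_lit 106) (nat_lit 107) = true := by decide +kernel
def p15_13_0_107 : pfC (piC [(nat_lit 42686981), (nat_lit 26736489), (nat_lit 19877745), (nat_lit 13394109)] (nat_lit 25010362)) p15_13_0 (nat_lit 4) (nat_lit 107) (nat_lit 108) = true := by decide +kernel
def p15_13_0_108 : pfC (piC [(nat_lit 42686981), (nat_lit 26736489), (nat_lit 19877745), (nat_lit 13394109)] (nat_lit 25010362)) p15_13_0 (nat_lit 4) (nat_lit 108) (nat_lit 109) = true := by decide +kernel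
def p15_13_0_109 : pfC (piC [(nat_lit 42686981), (nat_lit 26736489), (nat_lit 19877745), (nat_lit 13394109)] (nat_lit 25010362)) p15_13_0 (nat_lit 4) (nat_lit 109) (nat_lit 110) = true := by decide +kernel
def p15_13_0_110 : pfC (piC [(nat_lit 42686981), (nat_lit 26736489), (nat_lit 19877745), (nat_lit 13394109)] (nat_lit 25010362)) p15_13_0 (nat_lit 4) (nat_lit 110) (nat_lit 111) = true := by decide +kernel
def p15_13_0_111 : pfC (piC [(nat_lit 42686981), (nat_lit 26736489), (nat_lit 19877745), (nat_lit 13394109)] (nat_lit 25010362)) p15_13_0 (nat_lit 4) (nat_lit 111) (nat_lit 112) = true := by decide +kernel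
def p15_13_0_112 : pfC (piC [(nat_lit 42686981), (nat_lit 26736489), (nat_lit 19877745), (nat_lit 13394109)] (nat_lit 25010362)) p15_13_0 (nat_lit 4) (nat_lit 112) (nat_lit 113) = true := by decide +kernel
def p15_13_0_113 : pfC (piC [(nat_lit 42686981), (nat_lit 26736489), (nat_lit 19877745), (nat_lit 13394109)] (nat_lit 25010362)) p15_13_0 (nat_lit 4) (nat_lit 113) (nat_lit 114) = true := by decide +kernel
def p15_13_0_114 : pfC (piC [(nat_lit 42686981), (nat_lit 26736489), (nat_lit 19877745), (nat_lit 13394109)] (nat_lit 25010362)) p15_13_0 (nat_lit 4) (nat_lit 114) (nat_lit 115) = true := by decide +kernel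
def p15_13_0_115 : pfC (piC [(nat_lit 42686981), (nat_lit 26736489), (nat_lit 19877745), (nat_lit 13394109)] (nat_lit 25010362)) p15_13_0 (nat_lit 4) (nat_lit 115) (nat_lit 116) = true := by decide +kernel
def p15_13_0_116 : pfC (piC [(nat_lit 42686981), (nat_lit 26736489), (nat_lit 19877745), (nat_lit 13394109)] (nat_lit 25010362)) p15_13_0 (nat_lit 4) (nat_lit 116) (nat_lit 117) = true := by decide +kernel
def p15_13_0_117 : pfC (piC [(nat_lit 42686981), (nat_lit 26736489), (nat_lit 19877745), (nat_lit 13394109)] (nat_lit 25010362)) p15_13_0 (nat_lit 4) (nat_lit 117) (nat_lit 118) = true := by decide +kernel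
def p15_13_0_118 : pfC (piC [(nat_lit 42686981), (nat_lit 26736489), (nat_lit 19877745), (nat_lit 13394109)] (nat_lit 25010362)) p15_13_0 (nat_lit 4) (nat_lit 118) (nat_lit 119) = true := by decide +kernel
def p15_13_0_119 : pfC (piC [(nat_lit 42686981), (nat_lit 26736489), (nat_lit 19877745), (nat_lit 13394109)] (nat_lit 25010362)) p15_13_0 (nat_lit 4) (nat_lit 119) (nat_lit 120) = true := by decide +kernel
def p15_13_0_120 : pfC (piC [(nat_lit 42686981), (nat_lit 26736489), (nat_lit 19877745), (nat_lit 13394109)] (nat_lit 25010362)) p15_13_0 (nat_lit 4) (nat_lit 120) (nat_lit 121) = true := by decide +kernel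
def p15_13_0_121 : pfC (piC [(nat_lit 42686981), (nat_lit 26736489), (nat_lit 19877745), (nat_lit 13394109)] (nat_lit 25010362)) p15_13_0 (nat_lit 4) (nat_lit 121) (nat_lit 122) = true := by decide +kernel
def p15_13_0_122 : pfC (piC [(nat_lit 42686981), (nat_lit 26736489), (nat_lit 19877745), (nat_lit 13394109)] (nat_lit 25010362)) p15_13_0 (nat_lit 4) (nat_lit 122) (nat_lit 123) = true := by decide +kernel
def p15_13_0_123 : pfC (piC [(nat_lit 42686981), (nat_lit 26736489), (nat_lit 19877745), (nat_lit 13394109)] (nat_lit 25010362)) p15_13_0 (nat_lit 4) (nat_lit 123) (nat_lit 124) = true := by decide +kernel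
def p15_13_0_124 : pfC (piC [(nat_lit 42686981), (nat_lit 26736489), (nat_lit 19877745), (nat_lit 13394109)] (nat_lit 25010362)) p15_13_0 (nat_lit 4) (nat_lit 124) (nat_lit 125) = true := by decide +kernel
def p15_13_0_125 : pfC (piC [(nat_lit 42686981), (nat_lit 26736489), (nat_lit 19877745), (nat_lit 13394109)] (nat_lit 25010362)) p15_13_0 (nat_lit 4) (nat_lit 125) (nat_lit 126) = true := by decide +kernel
def p15_13_0_126 : pfC (piC [(nat_lit 42686981), (nat_lit 26736489), (nat_lit 19877745), (nat_lit 13394109)] (nat_lit 25010362)) p15_13_0 (nat_lit 4) (nat_lit 126) (nat_lit 127) = true := by decide +kernel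
def p15_13_0_127 : pfC (piC [(nat_lit 42686981), (nat_lit 26736489), (nat_lit 19877745), (nat_lit 13394109)] (nat_lit 25010362)) p15_13_0 (nat_lit 4) (nat_lit 127) (nat_lit 128) = true := by decide +kernel
def p15_13_0_128 : pfC (piC [(nat_lit 42686981), (nat_lit 26736489), (nat_lit 19877745), (nat_lit 13394109)] (nat_lit 25010362)) p15_13_0 (nat_lit 4) (nat_lit 128) (nat_lit 129) = true := by decide +kernel
def p15_13_0_129 : pfC (piC [(nat_lit 42686981), (nat_lit 26736489), (nat_lit 19877745), (nat_lit 13394109)] (nat_lit 25010362)) p15_13_0 (nat_lit 4) (nat_lit 129) (nat_lit 130) = true := by decide +kernel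
def p15_13_0_130 : pfC (piC [(nat_lit 42686981), (nat_lit 26736489), (nat_lit 19877745), (nat_lit 13394109)] (nat_lit 25010362)) p15_13_0 (nat_lit 4) (nat_lit 130) (nat_lit 131) = true := by decide +kernel
def p15_13_0_131 : pfC (piC [(nat_lit 42686981), (nat_lit 26736489), (nat_lit 19877745), (nat_lit 13394109)] (nat_lit 25010362)) p15_13_0 (nat_lit 4) (nat_lit 131) (nat_lit 132) = true := by decide +kernel
def p15_13_0_132 : pfC (piC [(nat_lit 42686981), (nat_lit 26736489), (nat_lit 19877745), (nat_lit 13394109)] (nat_lit 25010362)) p15_13_0 (nat_lit 4) (nat_lit 132) (nat_lit 133) = true := by decide +kernel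
def p15_13_0_133 : pfC (piC [(nat_lit 42686981), (nat_lit 26736489), (nat_lit 19877745), (nat_lit 13394109)] (nat_lit 25010362)) p15_13_0 (nat_lit 4) (nat_lit 133) (nat_lit 134) = true := by decide +kernel
def p15_13_0_134 : pfC (piC [(nat_lit 42686981), (nat_lit 26736489), (nat_lit 19877745), (nat_lit 13394109)] (nat_lit 25010362)) p15_13_0 (nat_lit 4) (nat_lit 134) (nat_lit 135) = true := by decide +kernel
def p15_13_0_135 : pfC (piC [(nat_lit 42686981), (nat_lit 26736489), (nat_lit 19877745), (nat_lit 13394109)] (nat_lit 25010362)) p15_13_0 (nat_lit 4) (nat_lit 135) (nat_lit 136) = true := by decide +kernel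
def p15_13_0_136 : pfC (piC [(nat_lit 42686981), (nat_lit 26736489), (nat_lit 19877745), (nat_lit 13394109)] (nat_lit 25010362)) p15_13_0 (nat_lit 4) (nat_lit 136) (nat_lit 137) = true := by decide +kernel
def p15_13_0_137 : pfC (piC [(nat_lit 42686981), (nat_lit 26736489), (nat_lit 19877745), (nat_lit 13394109)] (nat_lit 25010362)) p15_13_0 (nat_lit 4) (nat_lit 137) (nat_lit 138) = true := by decide +kernel
theorem p15_13_0_T : PfS (PiF n15_13.reverse (nat_lit 25010362)) p15_13_0 (nat_lit 4) [] 0 :=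
  pftab_of (los := [(nat_lit 42686981), (nat_lit 26736489), (nat_lit 19877745), (nat_lit 13394109)]) (by decide +kernel) (hi := (nat_lit 138)) (PfP.trans (PfP.trans (PfP.trans (PfP.trans (PfP.trans (PfP.trans (PfP.trans (PfP.trans (PfP.trans (PfP.trans (PfP.trans (PfP.trans (PfP.trans (PfP.trans (PfP.trans (PfP.trans (PfP.trans (PfP.trans (PfP.trans (PfP.trans (PfP.trans (PfP.trans (PfP.trans (PfP.trans (PfP.trans (PfP.trans (PfP.trans (PfP.trans (PfP.trans (PfP.trans (PfP.trans (PfP.trans (PfP.trans (PfP.trans (PfP.trans (PfP.trans (PfP.trans (PfP.trans (PfP.trans (PfP.trans (PfP.trans (PfP.trans (PfP.trans (PfP.trans (PfP.trans (PfP.trans (PfP.trans (PfP.trans (PfP.trans (PfP.trans (PfP.trans (PfP.trans (PfP.trans (PfP.trans (PfP.trans (PfP.trans (PfP.trans (PfP.trans (PfP.trans (PfP.trans (PfP.trans (PfP.trans (PfP.trans (PfP.trans (PfP.trans (PfP.trans (PfP.trans (PfP.trans (PfP.trans (PfP.trans (PfP.trans (PfP.trans (PfP.trans (PfP.trans (PfP.trans (PfP.trans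 (PfP.trans (PfP.trans (PfP.trans (PfP.trans (PfP.trans (PfP.trans (PfP.trans (PfP.trans (PfP.trans (PfP.trans (PfP.trans (PfP.trans (PfP.trans (PfP.trans (PfP.trans (PfP.trans (PfP.trans (PfP.trans (PfP.trans (PfP.trans (PfP.trans (PfP.trans (PfP.trans (PfP.trans (PfP.trans (PfP.trans (PfP.trans (PfP.trans (PfP.trans (PfP.trans (PfP.trans (PfP.trans (PfP.trans
 (PfP.trans (PfP.trans (PfP.trans (PfP.trans (PfP.trans (PfP.trans (PfP.trans (PfP.trans (PfP.trans (PfP.trans (PfP.trans (PfP.trans (PfP.trans (PfP.trans (PfP.trans (PfP.trans (PfP.trans (PfP.trans (PfP.trans (PfP.trans (PfP.trans (PfP.trans (PfP.trans (PfP.trans (PfP.trans (PfP.trans (PfP.trans (PfP.trans (pfC_sound p15_13_0_0) (pfC_sound p15_13_0_1)) (pfC_sound p15_13_0_2)) (pfC_sound p15_13_0_3)) (pfC_sound p15_13_0_4)) (pfC_sound p15_13_0_5)) (pfC_sound p15_13_0_6)) (pfC_sound p15_13_0_7)) (pfC_sound p15_13_0_8)) (pfC_sound p15_13_0_9)) (pfC_sound p15_13_0_10)) (pfC_sound p15_13_0_11)) (pfC_sound p15_13_0_12))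 (pfC_sound p15_13_0_13)) (pfC_sound p15_13_0_14)) (pfC_sound p15_13_0_15)) (pfC_sound p15_13_0_16)) (pfC_sound p15_13_0_17)) (pfC_sound p15_13_0_18)) (pfC_sound p15_13_0_19)) (pfC_sound p15_13_0_20)) (pfC_sound p15_13_0_21)) (pfC_sound p15_13_0_22)) (pfC_sound p15_13_0_23)) (pfC_sound p15_13_0_24)) (pfC_sound p15_13_0_25)) (pfC_sound p15_13_0_26)) (pfC_sound p15_13_0_27)) (pfC_sound p15_13_0_28)) (pfC_sound p15_13_0_29)) (pfC_sound p15_13_0_30)) (pfC_sound p15_13_0_31)) (pfC_sound p15_13_0_32)) (pfC_sound p15_13_0_33)) (pfC_sound p15_13_0_34)) (pfC_sound p15_13_0_35))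
 (pfC_sound p15_13_0_36)) (pfC_sound p15_13_0_37)) (pfC_sound p15_13_0_38)) (pfC_sound p15_13_0_39)) (pfC_sound p15_13_0_40)) (pfC_sound p15_13_0_41)) (pfC_sound p15_13_0_42)) (pfC_sound p15_13_0_43)) (pfC_sound p15_13_0_44)) (pfC_sound p15_13_0_45)) (pfC_sound p15_13_0_46)) (pfC_sound p15_13_0_47)) (pfC_sound p15_13_0_48)) (pfC_sound p15_13_0_49)) (pfC_sound p15_13_0_50)) (pfC_sound p15_13_0_51)) (pfC_sound p15_13_0_52)) (pfC_sound p15_13_0_53)) (pfC_sound p15_13_0_54)) (pfC_sound p15_13_0_55)) (pfC_sound p15_13_0_56)) (pfC_sound p15_13_0_57)) (pfC_sound p15_13_0_58)) (pfC_sound p15_13_0_59)) (pfC_sound p15_13_0_60)) (pfC_sound p15_13_0_61)) (pfC_sound p15_13_0_62)) (pfC_sound p15_13_0_63)) (pfC_sound p15_13_0_64)) (pfC_sound p15_13_0_65)) (pfC_sound p15_13_0_66)) (pfC_sound p15_13_0_67)) (pfC_sound p15_13_0_68)) (pfC_sound p15_13_0_69)) (pfC_sound p15_13_0_70)) (pfC_sound p15_13_0_71)) (pfC_sound p15_13_0_72)) (pfC_sound p15_13_0_73)) (pfC_sound p15_13_0_74))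 (pfC_sound p15_13_0_75)) (pfC_sound p15_13_0_76)) (pfC_sound p15_13_0_77)) (pfC_sound p15_13_0_78)) (pfC_sound p15_13_0_79)) (pfC_sound p15_13_0_80)) (pfC_sound p15_13_0_81)) (pfC_sound p15_13_0_82)) (pfC_sound p15_13_0_83))
 (pfC_sound p15_13_0_84)) (pfC_sound p15_13_0_85)) (pfC_sound p15_13_0_86)) (pfC_sound p15_13_0_87)) (pfC_sound p15_13_0_88)) (pfC_sound p15_13_0_89)) (pfC_sound p15_13_0_90)) (pfC_sound p15_13_0_91)) (pfC_sound p15_13_0_92)) (pfC_sound p15_13_0_93)) (pfC_sound p15_13_0_94)) (pfC_sound p15_13_0_95)) (pfC_sound p15_13_0_96)) (pfC_sound p15_13_0_97)) (pfC_sound p15_13_0_98)) (pfC_sound p15_13_0_99)) (pfC_sound p15_13_0_100)) (pfC_sound p15_13_0_101)) (pfC_sound p15_13_0_102)) (pfC_sound p15_13_0_103)) (pfC_sound p15_13_0_104)) (pfC_sound p15_13_0_105)) (pfC_sound p15_13_0_106)) (pfC_sound p15_13_0_107)) (pfC_sound p15_13_0_108)) (pfC_sound p15_13_0_109)) (pfC_sound p15_13_0_110)) (pfC_sound p15_13_0_111)) (pfC_sound p15_13_0_112)) (pfC_sound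 p15_13_0_113)) (pfC_sound p15_13_0_114)) (pfC_sound p15_13_0_115)) (pfC_sound p15_13_0_116)) (pfC_sound p15_13_0_117)) (pfC_sound p15_13_0_118)) (pfC_sound p15_13_0_119)) (pfC_sound p15_13_0_120)) (pfC_sound p15_13_0_121)) (pfC_sound p15_13_0_122)) (pfC_sound p15_13_0_123)) (pfC_sound p15_13_0_124)) (pfC_sound p15_13_0_125)) (pfC_sound p15_13_0_126)) (pfC_sound p15_13_0_127)) (pfC_sound p15_13_0_128)) (pfC_sound p15_13_0_129)) (pfC_sound
 p15_13_0_130)) (pfC_sound p15_13_0_131)) (pfC_sound p15_13_0_132)) (pfC_sound p15_13_0_133)) (pfC_sound p15_13_0_134)) (pfC_sound p15_13_0_135)) (pfC_sound p15_13_0_136)) (pfC_sound p15_13_0_137)) (by decide +kernel)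

def z15_13_0 : zOK yB15_13 (nat_lit 0) (nat_lit 0) (nat_lit 400) (nat_lit 25010362) (nat_lit 10133526) = true := by decide +kernel
def g15_13_0 : gOK yB15_13.x P15_13 (nat_lit 1428) (q15_13 :: r15_13) (nat_lit 0) (nat_lit 0) (nat_lit 1) (nat_lit 400) (nat_lit 0) (nat_lit 11000000) (nat_lit 12712500) (nat_lit 12712500) [(nat_lit 800), (nat_lit 1400), (nat_lit 1530)] = true := by decide +kernel
def v15_13_0 : ivC P15_13 s15_13 w15_13 n15_13 (nat_lit 4) (nat_lit 5470) (nat_lit 0) (nat_lit 0) f144_1_0 f152_1_0 (nat_lit 1) (nat_lit 400) f144_1_400 f152_1_400 (nat_lit 25010362) (nat_lit 10133526) p15_13_0 = true := by decide +kernel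
def p15_13_1 : PF := (PF.cons (PF.cons (PF.cons (PF.cons (PF.leaf (nat_lit 2183975) (nat_lit 10621529) (nat_lit 56487283) (nat_lit 10621529) [(nat_lit 0), (nat_lit 0), (nat_lit 0), (nat_lit 0)]) (PF.cons (PF.leaf (nat_lit 2303624) (nat_lit 195594) (nat_lit 56278725) (nat_lit 10634492) [(nat_lit 195594), (nat_lit 0), (nat_lit 0), (nat_lit 0)]) (PF.cons (PF.leaf (nat_lit 2448053) (nat_lit 213039) (nat_lit 56034005) (nat_lit 10648727) [(nat_lit 213039), (nat_lit 0), (nat_lit 0), (nat_lit 0)]) (PF.cons (PF.leaf (nat_lit 2610326) (nat_lit 228657) (nat_lit 55759345) (nat_lit 10663494) [(nat_lit 228657), (nat_lit 0), (nat_lit 0), (nat_lit 0)]) (PF.cons (PF.leaf (nat_lit 2788566) (nat_lit 242873) (nat_lit 55459096) (nat_lit 10678220) [(nat_lit 242873), (nat_lit 0), (nat_lit 0), (nat_lit 0)]) (PF.cons (PF.leaf (nat_lit 2980811) (nat_lit 255958) (nat_lit 55136578) (nat_lit 10692441) [(nat_lit 255958), (nat_lit 0), (nat_lit 0), (nat_lit 0)]) (PF.cons PF.nil (PF.cons PF.nil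 (PF.cons PF.nil PF.nil))))))))) (PF.cons (PF.cons (PF.leaf (nat_lit 2677461) (nat_lit 1090141) (nat_lit 55339876) (nat_lit 10678794) [(nat_lit 0), (nat_lit 1090141), (nat_lit 0), (nat_lit 0)]) (PF.cons (PF.leaf (nat_lit 2837293) (nat_lit
 240909) (nat_lit 55062133) (nat_lit 10690566) [(nat_lit 240909), (nat_lit 1115203), (nat_lit 0), (nat_lit 0)]) (PF.cons (PF.leaf (nat_lit 3015681) (nat_lit 254509) (nat_lit 54757420) (nat_lit 10702132) [(nat_lit 254509), (nat_lit 1140241), (nat_lit 0), (nat_lit 0)]) (PF.cons (PF.leaf (nat_lit 3208454) (nat_lit 266967) (nat_lit 54430054) (nat_lit 10713028) [(nat_lit 266967), (nat_lit 1164827), (nat_lit 0), (nat_lit 0)]) (PF.cons (PF.leaf (nat_lit 3413952) (nat_lit 278489) (nat_lit 54083239) (nat_lit 10722891) [(nat_lit 278489), (nat_lit 1188723), (nat_lit 0), (nat_lit 0)]) (PF.cons PF.nil (PF.cons PF.nil PF.nil))))))) (PF.cons (PF.cons (PF.leaf (nat_lit 3248211) (nat_lit 1177587) (nat_lit 54034416) (nat_lit 10719221) [(nat_lit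 0), (nat_lit 1177587), (nat_lit 0), (nat_lit 0)]) (PF.cons (PF.leaf (nat_lit 3438611) (nat_lit 276553) (nat_lit 53706617) (nat_lit 10726746) [(nat_lit 276553), (nat_lit 1199447), (nat_lit 0), (nat_lit 0)]) (PF.cons (PF.leaf (nat_lit 3643659) (nat_lit 287642) (nat_lit 53358606) (nat_lit 10733146) [(nat_lit 287642), (nat_lit 1220887), (nat_lit 0), (nat_lit 0)]) (PF.cons (PF.leaf (nat_lit 3860273) (nat_lit 297915) (nat_lit 52993502) (nat_lit 10738146) [(nat_lit
 297915), (nat_lit 1241709), (nat_lit 0), (nat_lit 0)]) (PF.cons PF.nil PF.nil))))) (PF.cons (PF.cons (PF.leaf (nat_lit 3876149) (nat_lit 1250003) (nat_lit 52622210) (nat_lit 10736591) [(nat_lit 0), (nat_lit 1250003), (nat_lit 0), (nat_lit 0)]) (PF.cons (PF.leaf (nat_lit 4090277) (nat_lit 305589) (nat_lit 52258740) (nat_lit 10738172) [(nat_lit 305589), (nat_lit 1268770), (nat_lit 0), (nat_lit 0)]) (PF.cons PF.nil (PF.cons PF.nil PF.nil)))) (PF.cons (PF.cons (PF.leaf (nat_lit 4545868) (nat_lit 1309704) (nat_lit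 51141662) (nat_lit 10728331) [(nat_lit 0), (nat_lit 1309704), (nat_lit 0), (nat_lit 0)]) (PF.cons PF.nil PF.nil)) (PF.cons PF.nil PF.nil)))))) (PF.cons (PF.cons (PF.cons (PF.leaf (nat_lit 3231982) (nat_lit 2994473) (nat_lit 53407880) (nat_lit 10706458) [(nat_lit 0), (nat_lit 0), (nat_lit 2994473), (nat_lit 0)]) (PF.cons (PF.leaf (nat_lit 3401405) (nat_lit 261663) (nat_lit 53118051) (nat_lit 10711134) [(nat_lit 261663), (nat_lit 0), (nat_lit 3017964), (nat_lit 0)]) (PF.cons (PF.leaf (nat_lit 3588728) (nat_lit 274664) (nat_lit 52802449) (nat_lit 10714975) [(nat_lit 274664), (nat_lit 0), (nat_lit 3042059), (nat_lit 0)]) (PF.cons (PF.leaf (nat_lit 3789714) (nat_lit 286396)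
 (nat_lit 52465741) (nat_lit 10717671) [(nat_lit 286396), (nat_lit 0), (nat_lit 3066209), (nat_lit 0)]) (PF.cons (PF.leaf (nat_lit 4002688) (nat_lit 297117) (nat_lit 52111324) (nat_lit 10718983) [(nat_lit 297117), (nat_lit 0), (nat_lit 3090036), (nat_lit 0)]) (PF.cons PF.nil (PF.cons PF.nil PF.nil))))))) (PF.cons (PF.cons (PF.leaf (nat_lit 3820435) (nat_lit 1238159) (nat_lit 52073044) (nat_lit 10714289) [(nat_lit 0), (nat_lit 1238159), (nat_lit 3083319), (nat_lit 0)]) (PF.cons (PF.leaf (nat_lit 4017844) (nat_lit 294060) (nat_lit 51739370) (nat_lit 10713970) [(nat_lit 294060), (nat_lit 1256832), (nat_lit 3104578), (nat_lit 0)]) (PF.cons (PF.leaf (nat_lit 4229051) (nat_lit 304449) (nat_lit 51387016) (nat_lit 10712201) [(nat_lit 304449), (nat_lit 1275044), (nat_lit 3125650), (nat_lit 0)]) (PF.cons PF.nil (PF.cons PF.nil PF.nil))))) (PF.cons (PF.cons (PF.leaf (nat_lit 4457569) (nat_lit 1298165) (nat_lit 50655924) (nat_lit 10699327) [(nat_lit 0), (nat_lit 1298165),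 (nat_lit 3157230), (nat_lit 0)]) (PF.cons (PF.leaf (nat_lit 4676154) (nat_lit 320054) (nat_lit 50292384) (nat_lit 10693018) [(nat_lit 320054), (nat_lit 1314020), (nat_lit 3175313), (nat_lit 0)]) (PF.cons PF.nil (PF.cons
 PF.nil PF.nil)))) (PF.cons (PF.cons (PF.leaf (nat_lit 5129068) (nat_lit 1347071) (nat_lit 49190850) (nat_lit 10660736) [(nat_lit 0), (nat_lit 1347071), (nat_lit 3216010), (nat_lit 0)]) (PF.cons PF.nil PF.nil)) (PF.cons PF.nil PF.nil))))) (PF.cons (PF.cons (PF.cons (PF.leaf (nat_lit 4385276) (nat_lit 3149960) (nat_lit 50140838) (nat_lit 10668053) [(nat_lit 0), (nat_lit 0), (nat_lit 3149960), (nat_lit 0)]) (PF.cons (PF.leaf (nat_lit 4587562) (nat_lit 308270) (nat_lit 49806554) (nat_lit 10660815) [(nat_lit 308270), (nat_lit 0), (nat_lit 3166585), (nat_lit 0)]) (PF.cons (PF.leaf (nat_lit 4802844) (nat_lit 318010) (nat_lit 49455042) (nat_lit 10651917) [(nat_lit 318010), (nat_lit 0), (nat_lit 3182915), (nat_lit 0)]) (PF.cons PF.nil PF.nil)))) (PF.cons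 (PF.cons (PF.leaf (nat_lit 5026048) (nat_lit 1334662) (nat_lit 48737745) (nat_lit 10625376) [(nat_lit 0), (nat_lit 1334662), (nat_lit 3205513), (nat_lit 0)]) (PF.cons (PF.leaf (nat_lit 5247289) (nat_lit 331583) (nat_lit 48378457) (nat_lit 10612339) [(nat_lit 331583), (nat_lit 1348025), (nat_lit 3219203), (nat_lit 0)]) PF.nil)) (PF.cons PF.nil PF.nil))) (PF.cons (PF.cons (PF.cons (PF.leaf (nat_lit 5579249) (nat_lit 3235116) (nat_lit
 46881673) (nat_lit 10521789) [(nat_lit 0), (nat_lit 0), (nat_lit 3235116), (nat_lit 0)]) (PF.cons PF.nil PF.nil)) (PF.cons PF.nil PF.nil)) (PF.cons PF.nil (PF.cons PF.nil PF.nil)))))) (PF.cons (PF.cons (PF.cons (PF.cons (PF.leaf (nat_lit 4165909) (nat_lit 8011670) (nat_lit 48603276) (nat_lit 10493865) [(nat_lit 0), (nat_lit 0), (nat_lit 0), (nat_lit 8011670)]) (PF.cons (PF.leaf (nat_lit 4336712) (nat_lit 274482) (nat_lit 48333589) (nat_lit 10486618) [(nat_lit 274482), (nat_lit 0), (nat_lit 0), (nat_lit 8014122)]) (PF.cons (PF.leaf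 (nat_lit 4524400) (nat_lit 287003) (nat_lit 48041095) (nat_lit 10477851) [(nat_lit 287003), (nat_lit 0), (nat_lit 0), (nat_lit 8015859)]) (PF.cons (PF.leaf (nat_lit 4724836) (nat_lit 298106) (nat_lit 47730288) (nat_lit 10467520) [(nat_lit 298106), (nat_lit 0), (nat_lit 0), (nat_lit 8016684)]) (PF.cons (PF.leaf (nat_lit 4936139) (nat_lit 308086) (nat_lit 47404422) (nat_lit 10455590) [(nat_lit 308086), (nat_lit 0), (nat_lit 0), (nat_lit 8016452)]) (PF.cons (PF.leaf (nat_lit 5156827) (nat_lit 317145) (nat_lit 47066000) (nat_lit 10442031) [(nat_lit 317145), (nat_lit 0), (nat_lit 0), (nat_lit 8015051)]) (PF.cons PF.nil PF.nil))))))) (PF.cons (PF.cons (PF.leaf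
 (nat_lit 4743281) (nat_lit 1272305) (nat_lit 47374862) (nat_lit 10450223) [(nat_lit 0), (nat_lit 1272305), (nat_lit 0), (nat_lit 8011421)]) (PF.cons (PF.leaf (nat_lit 4939076) (nat_lit 303919) (nat_lit 47069116) (nat_lit 10437948) [(nat_lit 303919), (nat_lit 1287664), (nat_lit 0), (nat_lit 8010163)]) (PF.cons (PF.leaf (nat_lit 5147522) (nat_lit 313597) (nat_lit 46747355) (nat_lit 10424001) [(nat_lit 313597), (nat_lit 1302437), (nat_lit 0), (nat_lit 8007824)]) (PF.cons (PF.leaf (nat_lit 5365794) (nat_lit 322329) (nat_lit 46412608) (nat_lit 10408388) [(nat_lit 322329), (nat_lit 1316517), (nat_lit 0), (nat_lit 8004309)]) (PF.cons PF.nil PF.nil))))) (PF.cons (PF.cons (PF.leaf (nat_lit 5360326) (nat_lit 1318839) (nat_lit 46087860) (nat_lit 10388099) [(nat_lit 0), (nat_lit 1318839), (nat_lit 0), (nat_lit 7995174)]) (PF.cons (PF.leaf (nat_lit 5574330) (nat_lit 326724) (nat_lit 45758852) (nat_lit 10370663) [(nat_lit 326724), (nat_lit 1331426), (nat_lit 0), (nat_lit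 7989718)]) (PF.cons (PF.leaf (nat_lit 5798146) (nat_lit 334429) (nat_lit 45418585) (nat_lit 10351540) [(nat_lit 334429), (nat_lit 1343400), (nat_lit 0), (nat_lit 7983024)]) (PF.cons PF.nil PF.nil)))) (PF.cons (PF.cons (PF.leaf
 (nat_lit 6004053) (nat_lit 1355340) (nat_lit 44771548) (nat_lit 10308257) [(nat_lit 0), (nat_lit 1355340), (nat_lit 0), (nat_lit 7962985)]) (PF.cons PF.nil PF.nil)) (PF.cons PF.nil PF.nil))))) (PF.cons (PF.cons (PF.cons (PF.leaf (nat_lit 5269426) (nat_lit 3153749) (nat_lit 45642442) (nat_lit 10345796) [(nat_lit 0), (nat_lit 0), (nat_lit 3153749), (nat_lit 7966825)]) (PF.cons (PF.leaf (nat_lit 5468006) (nat_lit 314266) (nat_lit 45340166) (nat_lit 10328875) [(nat_lit 314266), (nat_lit 0), (nat_lit 3164411), (nat_lit 7961092)]) (PF.cons (PF.leaf (nat_lit 5678610) (nat_lit 323316) (nat_lit 45023147) (nat_lit 10310196) [(nat_lit 323316), (nat_lit 0), (nat_lit 3174662), (nat_lit 7954174)]) (PF.cons (PF.leaf (nat_lit 5898398) (nat_lit 331404)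 (nat_lit 44694380) (nat_lit 10289828) [(nat_lit 331404), (nat_lit 0), (nat_lit 3184350), (nat_lit 7946039)]) (PF.cons PF.nil PF.nil))))) (PF.cons (PF.cons (PF.leaf (nat_lit 5885376) (nat_lit 1341149) (nat_lit 44382881) (nat_lit 10265761) [(nat_lit 0), (nat_lit 1341149), (nat_lit 3185956), (nat_lit 7933064)]) (PF.cons (PF.leaf (nat_lit 6100406) (nat_lit 334713) (nat_lit 44061028) (nat_lit 10243973) [(nat_lit 334713), (nat_lit 1351702), (nat_lit
 3194039), (nat_lit 7923355)]) (PF.cons PF.nil (PF.cons PF.nil PF.nil)))) (PF.cons (PF.cons (PF.leaf (nat_lit 6523417) (nat_lit 1370467) (nat_lit 43105022) (nat_lit 10170123) [(nat_lit 0), (nat_lit 1370467), (nat_lit 3207527), (nat_lit 7885203)]) (PF.cons PF.nil PF.nil)) PF.nil))) (PF.cons (PF.cons (PF.cons (PF.leaf (nat_lit 6394929) (nat_lit 3191932) (nat_lit 42745359) (nat_lit 10126145) [(nat_lit 0), (nat_lit 0), (nat_lit 3191932), (nat_lit 7853442)]) (PF.cons (PF.leaf (nat_lit 6609983) (nat_lit 340804) (nat_lit 42432441)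 (nat_lit 10100811) [(nat_lit 340804), (nat_lit 0), (nat_lit 3197273), (nat_lit 7840208)]) (PF.cons PF.nil PF.nil))) (PF.cons (PF.cons (PF.leaf (nat_lit 7025228) (nat_lit 1379616) (nat_lit 41511196) (nat_lit 10017941) [(nat_lit 0), (nat_lit 1379616), (nat_lit 3203608), (nat_lit 7792840)]) PF.nil) PF.nil)) (PF.cons PF.nil (PF.cons PF.nil PF.nil))))) (PF.cons (PF.cons (PF.cons (PF.cons (PF.leaf (nat_lit 6059481) (nat_lit 7717683) (nat_lit 41718091) (nat_lit 9955354) [(nat_lit 0), (nat_lit 0), (nat_lit 0), (nat_lit 7717683)]) (PF.cons (PF.leaf (nat_lit 6252887) (nat_lit 315216) (nat_lit 41447793) (nat_lit 9933078) [(nat_lit 315216), (nat_lit 0), (nat_lit 0),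
 (nat_lit 7706362)]) (PF.cons (PF.leaf (nat_lit 6457540) (nat_lit 323656) (nat_lit 41164805) (nat_lit 9909053) [(nat_lit 323656), (nat_lit 0), (nat_lit 0), (nat_lit 7693820)]) (PF.cons (PF.leaf (nat_lit 6670620) (nat_lit 331113) (nat_lit 40871824) (nat_lit 9883431) [(nat_lit 331113), (nat_lit 0), (nat_lit 0), (nat_lit 7680108)]) (PF.cons PF.nil PF.nil))))) (PF.cons (PF.cons (PF.leaf (nat_lit 6649428) (nat_lit 1329824) (nat_lit 40598036) (nat_lit 9855422) [(nat_lit 0), (nat_lit 1329824), (nat_lit 0), (nat_lit 7662764)]) (PF.cons (PF.leaf (nat_lit 6857433) (nat_lit 333380) (nat_lit 40311942) (nat_lit 9829034) [(nat_lit 333380), (nat_lit 1338302), (nat_lit 0), (nat_lit 7648076)]) (PF.cons PF.nil (PF.cons PF.nil PF.nil)))) (PF.cons (PF.cons (PF.leaf (nat_lit 7257270) (nat_lit 1351657) (nat_lit 39467293) (nat_lit 9743838) [(nat_lit 0), (nat_lit 1351657), (nat_lit 0), (nat_lit 7597182)]) (PF.cons PF.nil PF.nil)) PF.nil))) (PF.cons (PF.cons (PF.cons (PF.leaf (nat_lit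 7120706) (nat_lit 3120785) (nat_lit 39160406) (nat_lit 9699405) [(nat_lit 0), (nat_lit 0), (nat_lit 3120785), (nat_lit 7564107)]) (PF.cons (PF.leaf (nat_lit 7328043) (nat_lit 337418) (nat_lit 38883349) (nat_lit 9670811)
 [(nat_lit 337418), (nat_lit 0), (nat_lit 3123039), (nat_lit 7547096)]) (PF.cons PF.nil PF.nil))) (PF.cons (PF.cons (PF.leaf (nat_lit 7720037) (nat_lit 1354254) (nat_lit 38071848) (nat_lit 9580400) [(nat_lit 0), (nat_lit 1354254), (nat_lit 3121454), (nat_lit 7490427)]) PF.nil) PF.nil)) (PF.cons PF.nil PF.nil))) (PF.cons (PF.cons (PF.cons (PF.cons (PF.leaf (nat_lit 7773068) (nat_lit 7262656) (nat_lit 36050926) (nat_lit 9269918) [(nat_lit 0), (nat_lit 0), (nat_lit 0), (nat_lit 7262656)]) (PF.cons (PF.leaf (nat_lit 7972739) (nat_lit 331884) (nat_lit 35805640) (nat_lit 9240101) [(nat_lit 331884), (nat_lit 0), (nat_lit 0), (nat_lit 7243728)]) PF.nil)) (PF.cons PF.nil PF.nil)) (PF.cons PF.nil PF.nil)) (PF.cons PF.nil (PF.cons PF.nil (PF.cons PF.nil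 (PF.cons PF.nil PF.nil))))))))

def p15_13_1_0 : pfC (piC [(nat_lit 42686981), (nat_lit 26736489), (nat_lit 19877745), (nat_lit 13394109)] (nat_lit 10133526)) p15_13_1 (nat_lit 4) (nat_lit 0) (nat_lit 1) = true := by decide +kernel
def p15_13_1_1 : pfC (piC [(nat_lit 42686981), (nat_lit 26736489), (nat_lit 19877745), (nat_lit 13394109)] (nat_lit 10133526)) p15_13_1 (nat_lit 4) (nat_lit 1) (nat_lit 2) = true := by decide +kernel
def p15_13_1_2 : pfC (piC [(nat_lit 42686981), (nat_lit 26736489), (nat_lit 19877745), (nat_lit 13394109)] (nat_lit 10133526)) p15_13_1 (nat_lit 4) (nat_lit 2) (nat_lit 3) = true := by decide +kernel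
def p15_13_1_3 : pfC (piC [(nat_lit 42686981), (nat_lit 26736489), (nat_lit 19877745), (nat_lit 13394109)] (nat_lit 10133526)) p15_13_1 (nat_lit 4) (nat_lit 3) (nat_lit 4) = true := by decide +kernel
def p15_13_1_4 : pfC (piC [(nat_lit 42686981), (nat_lit 26736489), (nat_lit 19877745), (nat_lit 13394109)] (nat_lit 10133526)) p15_13_1 (nat_lit 4) (nat_lit 4) (nat_lit 5) = true := by decide +kernel
def p15_13_1_5 : pfC (piC [(nat_lit 42686981), (nat_lit 26736489), (nat_lit 19877745), (nat_lit 13394109)] (nat_lit 10133526)) p15_13_1 (nat_lit 4) (nat_lit 5) (nat_lit 6) = true := by decide +kernel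
def p15_13_1_6 : pfC (piC [(nat_lit 42686981), (nat_lit 26736489), (nat_lit 19877745), (nat_lit 13394109)] (nat_lit 10133526)) p15_13_1 (nat_lit 4) (nat_lit 6) (nat_lit 7) = true := by decide +kernel
def p15_13_1_7 : pfC (piC [(nat_lit 42686981), (nat_lit 26736489), (nat_lit 19877745), (nat_lit 13394109)] (nat_lit 10133526)) p15_13_1 (nat_lit 4) (nat_lit 7) (nat_lit 8) = true := by decide +kernel
def p15_13_1_8 : pfC (piC [(nat_lit 42686981), (nat_lit 26736489), (nat_lit 19877745), (nat_lit 13394109)] (nat_lit 10133526)) p15_13_1 (nat_lit 4) (nat_lit 8) (nat_lit 9) = true := by decide +kernel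
def p15_13_1_9 : pfC (piC [(nat_lit 42686981), (nat_lit 26736489), (nat_lit 19877745), (nat_lit 13394109)] (nat_lit 10133526)) p15_13_1 (nat_lit 4) (nat_lit 9) (nat_lit 10) = true := by decide +kernel
def p15_13_1_10 : pfC (piC [(nat_lit 42686981), (nat_lit 26736489), (nat_lit 19877745), (nat_lit 13394109)] (nat_lit 10133526)) p15_13_1 (nat_lit 4) (nat_lit 10) (nat_lit 11) = true := by decide +kernel
def p15_13_1_11 : pfC (piC [(nat_lit 42686981), (nat_lit 26736489), (nat_lit 19877745), (nat_lit 13394109)] (nat_lit 10133526)) p15_13_1 (nat_lit 4) (nat_lit 11) (nat_lit 12) = true := by decide +kernel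
def p15_13_1_12 : pfC (piC [(nat_lit 42686981), (nat_lit 26736489), (nat_lit 19877745), (nat_lit 13394109)] (nat_lit 10133526)) p15_13_1 (nat_lit 4) (nat_lit 12) (nat_lit 13) = true := by decide +kernel
def p15_13_1_13 : pfC (piC [(nat_lit 42686981), (nat_lit 26736489), (nat_lit 19877745), (nat_lit 13394109)] (nat_lit 10133526)) p15_13_1 (nat_lit 4) (nat_lit 13) (nat_lit 14) = true := by decide +kernel
def p15_13_1_14 : pfC (piC [(nat_lit 42686981), (nat_lit 26736489), (nat_lit 19877745), (nat_lit 13394109)] (nat_lit 10133526)) p15_13_1 (nat_lit 4) (nat_lit 14) (nat_lit 15) = true := by decide +kernel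
def p15_13_1_15 : pfC (piC [(nat_lit 42686981), (nat_lit 26736489), (nat_lit 19877745), (nat_lit 13394109)] (nat_lit 10133526)) p15_13_1 (nat_lit 4) (nat_lit 15) (nat_lit 16) = true := by decide +kernel
def p15_13_1_16 : pfC (piC [(nat_lit 42686981), (nat_lit 26736489), (nat_lit 19877745), (nat_lit 13394109)] (nat_lit 10133526)) p15_13_1 (nat_lit 4) (nat_lit 16) (nat_lit 17) = true := by decide +kernel
def p15_13_1_17 : pfC (piC [(nat_lit 42686981), (nat_lit 26736489), (nat_lit 19877745), (nat_lit 13394109)] (nat_lit 10133526)) p15_13_1 (nat_lit 4) (nat_lit 17) (nat_lit 18) = true := by decide +kernel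
def p15_13_1_18 : pfC (piC [(nat_lit 42686981), (nat_lit 26736489), (nat_lit 19877745), (nat_lit 13394109)] (nat_lit 10133526)) p15_13_1 (nat_lit 4) (nat_lit 18) (nat_lit 19) = true := by decide +kernel
def p15_13_1_19 : pfC (piC [(nat_lit 42686981), (nat_lit 26736489), (nat_lit 19877745), (nat_lit 13394109)] (nat_lit 10133526)) p15_13_1 (nat_lit 4) (nat_lit 19) (nat_lit 20) = true := by decide +kernel
def p15_13_1_20 : pfC (piC [(nat_lit 42686981), (nat_lit 26736489), (nat_lit 19877745), (nat_lit 13394109)] (nat_lit 10133526)) p15_13_1 (nat_lit 4) (nat_lit 20) (nat_lit 21) = true := by decide +kernel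
def p15_13_1_21 : pfC (piC [(nat_lit 42686981), (nat_lit 26736489), (nat_lit 19877745), (nat_lit 13394109)] (nat_lit 10133526)) p15_13_1 (nat_lit 4) (nat_lit 21) (nat_lit 22) = true := by decide +kernel
def p15_13_1_22 : pfC (piC [(nat_lit 42686981), (nat_lit 26736489), (nat_lit 19877745), (nat_lit 13394109)] (nat_lit 10133526)) p15_13_1 (nat_lit 4) (nat_lit 22) (nat_lit 23) = true := by decide +kernel
def p15_13_1_23 : pfC (piC [(nat_lit 42686981), (nat_lit 26736489), (nat_lit 19877745), (nat_lit 13394109)] (nat_lit 10133526)) p15_13_1 (nat_lit 4) (nat_lit 23) (nat_lit 24) = true := by decide +kernel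
def p15_13_1_24 : pfC (piC [(nat_lit 42686981), (nat_lit 26736489), (nat_lit 19877745), (nat_lit 13394109)] (nat_lit 10133526)) p15_13_1 (nat_lit 4) (nat_lit 24) (nat_lit 25) = true := by decide +kernel
def p15_13_1_25 : pfC (piC [(nat_lit 42686981), (nat_lit 26736489), (nat_lit 19877745), (nat_lit 13394109)] (nat_lit 10133526)) p15_13_1 (nat_lit 4) (nat_lit 25) (nat_lit 26) = true := by decide +kernel
def p15_13_1_26 : pfC (piC [(nat_lit 42686981), (nat_lit 26736489), (nat_lit 19877745), (nat_lit 13394109)] (nat_lit 10133526)) p15_13_1 (nat_lit 4) (nat_lit 26) (nat_lit 27) = true := by decide +kernel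
def p15_13_1_27 : pfC (piC [(nat_lit 42686981), (nat_lit 26736489), (nat_lit 19877745), (nat_lit 13394109)] (nat_lit 10133526)) p15_13_1 (nat_lit 4) (nat_lit 27) (nat_lit 28) = true := by decide +kernel
def p15_13_1_28 : pfC (piC [(nat_lit 42686981), (nat_lit 26736489), (nat_lit 19877745), (nat_lit 13394109)] (nat_lit 10133526)) p15_13_1 (nat_lit 4) (nat_lit 28) (nat_lit 29) = true := by decide +kernel
def p15_13_1_29 : pfC (piC [(nat_lit 42686981), (nat_lit 26736489), (nat_lit 19877745), (nat_lit 13394109)] (nat_lit 10133526)) p15_13_1 (nat_lit 4) (nat_lit 29) (nat_lit 30) = true := by decide +kernel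
def p15_13_1_30 : pfC (piC [(nat_lit 42686981), (nat_lit 26736489), (nat_lit 19877745), (nat_lit 13394109)] (nat_lit 10133526)) p15_13_1 (nat_lit 4) (nat_lit 30) (nat_lit 31) = true := by decide +kernel
def p15_13_1_31 : pfC (piC [(nat_lit 42686981), (nat_lit 26736489), (nat_lit 19877745), (nat_lit 13394109)] (nat_lit 10133526)) p15_13_1 (nat_lit 4) (nat_lit 31) (nat_lit 32) = true := by decide +kernel
def p15_13_1_32 : pfC (piC [(nat_lit 42686981), (nat_lit 26736489), (nat_lit 19877745), (nat_lit 13394109)] (nat_lit 10133526)) p15_13_1 (nat_lit 4) (nat_lit 32) (nat_lit 33) = true := by decide +kernel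
def p15_13_1_33 : pfC (piC [(nat_lit 42686981), (nat_lit 26736489), (nat_lit 19877745), (nat_lit 13394109)] (nat_lit 10133526)) p15_13_1 (nat_lit 4) (nat_lit 33) (nat_lit 34) = true := by decide +kernel
def p15_13_1_34 : pfC (piC [(nat_lit 42686981), (nat_lit 26736489), (nat_lit 19877745), (nat_lit 13394109)] (nat_lit 10133526)) p15_13_1 (nat_lit 4) (nat_lit 34) (nat_lit 35) = true := by decide +kernel
def p15_13_1_35 : pfC (piC [(nat_lit 42686981), (nat_lit 26736489), (nat_lit 19877745), (nat_lit 13394109)] (nat_lit 10133526)) p15_13_1 (nat_lit 4) (nat_lit 35) (nat_lit 36) = true := by decide +kernel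
def p15_13_1_36 : pfC (piC [(nat_lit 42686981), (nat_lit 26736489), (nat_lit 19877745), (nat_lit 13394109)] (nat_lit 10133526)) p15_13_1 (nat_lit 4) (nat_lit 36) (nat_lit 37) = true := by decide +kernel
def p15_13_1_37 : pfC (piC [(nat_lit 42686981), (nat_lit 26736489), (nat_lit 19877745), (nat_lit 13394109)] (nat_lit 10133526)) p15_13_1 (nat_lit 4) (nat_lit 37) (nat_lit 38) = true := by decide +kernel
def p15_13_1_38 : pfC (piC [(nat_lit 42686981), (nat_lit 26736489), (nat_lit 19877745), (nat_lit 13394109)] (nat_lit 10133526)) p15_13_1 (nat_lit 4) (nat_lit 38) (nat_lit 39) = true := by decide +kernel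
def p15_13_1_39 : pfC (piC [(nat_lit 42686981), (nat_lit 26736489), (nat_lit 19877745), (nat_lit 13394109)] (nat_lit 10133526)) p15_13_1 (nat_lit 4) (nat_lit 39) (nat_lit 40) = true := by decide +kernel
def p15_13_1_40 : pfC (piC [(nat_lit 42686981), (nat_lit 26736489), (nat_lit 19877745), (nat_lit 13394109)] (nat_lit 10133526)) p15_13_1 (nat_lit 4) (nat_lit 40) (nat_lit 41) = true := by decide +kernel
def p15_13_1_41 : pfC (piC [(nat_lit 42686981), (nat_lit 26736489), (nat_lit 19877745), (nat_lit 13394109)] (nat_lit 10133526)) p15_13_1 (nat_lit 4) (nat_lit 41) (nat_lit 42) = true := by decide +kernel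
def p15_13_1_42 : pfC (piC [(nat_lit 42686981), (nat_lit 26736489), (nat_lit 19877745), (nat_lit 13394109)] (nat_lit 10133526)) p15_13_1 (nat_lit 4) (nat_lit 42) (nat_lit 43) = true := by decide +kernel
def p15_13_1_43 : pfC (piC [(nat_lit 42686981), (nat_lit 26736489), (nat_lit 19877745), (nat_lit 13394109)] (nat_lit 10133526)) p15_13_1 (nat_lit 4) (nat_lit 43) (nat_lit 44) = true := by decide +kernel
def p15_13_1_44 : pfC (piC [(nat_lit 42686981), (nat_lit 26736489), (nat_lit 19877745), (nat_lit 13394109)] (nat_lit 10133526)) p15_13_1 (nat_lit 4) (nat_lit 44) (nat_lit 45) = true := by decide +kernel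
def p15_13_1_45 : pfC (piC [(nat_lit 42686981), (nat_lit 26736489), (nat_lit 19877745), (nat_lit 13394109)] (nat_lit 10133526)) p15_13_1 (nat_lit 4) (nat_lit 45) (nat_lit 46) = true := by decide +kernel
def p15_13_1_46 : pfC (piC [(nat_lit 42686981), (nat_lit 26736489), (nat_lit 19877745), (nat_lit 13394109)] (nat_lit 10133526)) p15_13_1 (nat_lit 4) (nat_lit 46) (nat_lit 47) = true := by decide +kernel
def p15_13_1_47 : pfC (piC [(nat_lit 42686981), (nat_lit 26736489), (nat_lit 19877745), (nat_lit 13394109)] (nat_lit 10133526)) p15_13_1 (nat_lit 4) (nat_lit 47) (nat_lit 48) = true := by decide +kernel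
def p15_13_1_48 : pfC (piC [(nat_lit 42686981), (nat_lit 26736489), (nat_lit 19877745), (nat_lit 13394109)] (nat_lit 10133526)) p15_13_1 (nat_lit 4) (nat_lit 48) (nat_lit 49) = true := by decide +kernel
def p15_13_1_49 : pfC (piC [(nat_lit 42686981), (nat_lit 26736489), (nat_lit 19877745), (nat_lit 13394109)] (nat_lit 10133526)) p15_13_1 (nat_lit 4) (nat_lit 49) (nat_lit 50) = true := by decide +kernel
def p15_13_1_50 : pfC (piC [(nat_lit 42686981), (nat_lit 26736489), (nat_lit 19877745), (nat_lit 13394109)] (nat_lit 10133526)) p15_13_1 (nat_lit 4) (nat_lit 50) (nat_lit 51) = true := by decide +kernel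
def p15_13_1_51 : pfC (piC [(nat_lit 42686981), (nat_lit 26736489), (nat_lit 19877745), (nat_lit 13394109)] (nat_lit 10133526)) p15_13_1 (nat_lit 4) (nat_lit 51) (nat_lit 52) = true := by decide +kernel
def p15_13_1_52 : pfC (piC [(nat_lit 42686981), (nat_lit 26736489), (nat_lit 19877745), (nat_lit 13394109)] (nat_lit 10133526)) p15_13_1 (nat_lit 4) (nat_lit 52) (nat_lit 53) = true := by decide +kernel
def p15_13_1_53 : pfC (piC [(nat_lit 42686981), (nat_lit 26736489), (nat_lit 19877745), (nat_lit 13394109)] (nat_lit 10133526)) p15_13_1 (nat_lit 4) (nat_lit 53) (nat_lit 54) = true := by decide +kernel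
def p15_13_1_54 : pfC (piC [(nat_lit 42686981), (nat_lit 26736489), (nat_lit 19877745), (nat_lit 13394109)] (nat_lit 10133526)) p15_13_1 (nat_lit 4) (nat_lit 54) (nat_lit 55) = true := by decide +kernel
def p15_13_1_55 : pfC (piC [(nat_lit 42686981), (nat_lit 26736489), (nat_lit 19877745), (nat_lit 13394109)] (nat_lit 10133526)) p15_13_1 (nat_lit 4) (nat_lit 55) (nat_lit 56) = true := by decide +kernel
def p15_13_1_56 : pfC (piC [(nat_lit 42686981), (nat_lit 26736489), (nat_lit 19877745), (nat_lit 13394109)] (nat_lit 10133526)) p15_13_1 (nat_lit 4) (nat_lit 56) (nat_lit 57) = true := by decide +kernel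
def p15_13_1_57 : pfC (piC [(nat_lit 42686981), (nat_lit 26736489), (nat_lit 19877745), (nat_lit 13394109)] (nat_lit 10133526)) p15_13_1 (nat_lit 4) (nat_lit 57) (nat_lit 58) = true := by decide +kernel
def p15_13_1_58 : pfC (piC [(nat_lit 42686981), (nat_lit 26736489), (nat_lit 19877745), (nat_lit 13394109)] (nat_lit 10133526)) p15_13_1 (nat_lit 4) (nat_lit 58) (nat_lit 59) = true := by decide +kernel
def p15_13_1_59 : pfC (piC [(nat_lit 42686981), (nat_lit 26736489), (nat_lit 19877745), (nat_lit 13394109)] (nat_lit 10133526)) p15_13_1 (nat_lit 4) (nat_lit 59) (nat_lit 60) = true := by decide +kernel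
def p15_13_1_60 : pfC (piC [(nat_lit 42686981), (nat_lit 26736489), (nat_lit 19877745), (nat_lit 13394109)] (nat_lit 10133526)) p15_13_1 (nat_lit 4) (nat_lit 60) (nat_lit 61) = true := by decide +kernel
def p15_13_1_61 : pfC (piC [(nat_lit 42686981), (nat_lit 26736489), (nat_lit 19877745), (nat_lit 13394109)] (nat_lit 10133526)) p15_13_1 (nat_lit 4) (nat_lit 61) (nat_lit 62) = true := by decide +kernel
def p15_13_1_62 : pfC (piC [(nat_lit 42686981), (nat_lit 26736489), (nat_lit 19877745), (nat_lit 13394109)] (nat_lit 10133526)) p15_13_1 (nat_lit 4) (nat_lit 62) (nat_lit 63) = true := by decide +kernel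
def p15_13_1_63 : pfC (piC [(nat_lit 42686981), (nat_lit 26736489), (nat_lit 19877745), (nat_lit 13394109)] (nat_lit 10133526)) p15_13_1 (nat_lit 4) (nat_lit 63) (nat_lit 64) = true := by decide +kernel
def p15_13_1_64 : pfC (piC [(nat_lit 42686981), (nat_lit 26736489), (nat_lit 19877745), (nat_lit 13394109)] (nat_lit 10133526)) p15_13_1 (nat_lit 4) (nat_lit 64) (nat_lit 65) = true := by decide +kernel
def p15_13_1_65 : pfC (piC [(nat_lit 42686981), (nat_lit 26736489), (nat_lit 19877745), (nat_lit 13394109)] (nat_lit 10133526)) p15_13_1 (nat_lit 4) (nat_lit 65) (nat_lit 66) = true := by decide +kernel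
def p15_13_1_66 : pfC (piC [(nat_lit 42686981), (nat_lit 26736489), (nat_lit 19877745), (nat_lit 13394109)] (nat_lit 10133526)) p15_13_1 (nat_lit 4) (nat_lit 66) (nat_lit 67) = true := by decide +kernel
def p15_13_1_67 : pfC (piC [(nat_lit 42686981), (nat_lit 26736489), (nat_lit 19877745), (nat_lit 13394109)] (nat_lit 10133526)) p15_13_1 (nat_lit 4) (nat_lit 67) (nat_lit 68) = true := by decide +kernel
def p15_13_1_68 : pfC (piC [(nat_lit 42686981), (nat_lit 26736489), (nat_lit 19877745), (nat_lit 13394109)] (nat_lit 10133526)) p15_13_1 (nat_lit 4) (nat_lit 68) (nat_lit 69) = true := by decide +kernel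
def p15_13_1_69 : pfC (piC [(nat_lit 42686981), (nat_lit 26736489), (nat_lit 19877745), (nat_lit 13394109)] (nat_lit 10133526)) p15_13_1 (nat_lit 4) (nat_lit 69) (nat_lit 70) = true := by decide +kernel
def p15_13_1_70 : pfC (piC [(nat_lit 42686981), (nat_lit 26736489), (nat_lit 19877745), (nat_lit 13394109)] (nat_lit 10133526)) p15_13_1 (nat_lit 4) (nat_lit 70) (nat_lit 71) = true := by decide +kernel
theorem p15_13_1_T : PfS (PiF n15_13.reverse (nat_lit 10133526)) p15_13_1 (nat_lit 4) [] 0 :=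
  pftab_of (los := [(nat_lit 42686981), (nat_lit 26736489), (nat_lit 19877745), (nat_lit 13394109)]) (by decide +kernel) (hi := (nat_lit 71)) (PfP.trans (PfP.trans (PfP.trans (PfP.trans (PfP.trans (PfP.trans (PfP.trans (PfP.trans (PfP.trans (PfP.trans (PfP.trans (PfP.trans (PfP.trans (PfP.trans (PfP.trans (PfP.trans (PfP.trans (PfP.trans (PfP.trans (PfP.trans (PfP.trans (PfP.trans (PfP.trans (PfP.trans (PfP.trans (PfP.trans (PfP.trans (PfP.trans (PfP.trans (PfP.trans (PfP.trans (PfP.trans (PfP.trans (PfP.trans (PfP.trans (PfP.trans (PfP.trans (PfP.trans (PfP.trans (PfP.trans (PfP.trans (PfP.trans (PfP.trans (PfP.trans (PfP.trans (PfP.trans (PfP.trans (PfP.trans (PfP.trans (PfP.trans (PfP.trans (PfP.trans (PfP.trans (PfP.trans (PfP.trans (PfP.trans (PfP.trans (PfP.trans (PfP.trans (PfP.trans (PfP.trans (PfP.trans (PfP.trans (PfP.trans (PfP.trans (PfP.trans (PfP.trans (PfP.trans (PfP.trans (PfP.trans (pfC_sound p15_13_1_0) (pfC_sound p15_13_1_1)) (pfC_sound p15_13_1_2))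 (pfC_sound p15_13_1_3)) (pfC_sound p15_13_1_4)) (pfC_sound p15_13_1_5)) (pfC_sound p15_13_1_6)) (pfC_sound p15_13_1_7)) (pfC_sound p15_13_1_8)) (pfC_sound p15_13_1_9)) (pfC_sound p15_13_1_10)) (pfC_sound p15_13_1_11)) (pfC_sound p15_13_1_12)) (pfC_sound p15_13_1_13)) (pfC_sound p15_13_1_14)) (pfC_sound p15_13_1_15)) (pfC_sound p15_13_1_16)) (pfC_sound
 p15_13_1_17)) (pfC_sound p15_13_1_18)) (pfC_sound p15_13_1_19)) (pfC_sound p15_13_1_20)) (pfC_sound p15_13_1_21)) (pfC_sound p15_13_1_22)) (pfC_sound p15_13_1_23)) (pfC_sound p15_13_1_24)) (pfC_sound p15_13_1_25)) (pfC_sound p15_13_1_26)) (pfC_sound p15_13_1_27)) (pfC_sound p15_13_1_28)) (pfC_sound p15_13_1_29)) (pfC_sound p15_13_1_30)) (pfC_sound p15_13_1_31)) (pfC_sound p15_13_1_32)) (pfC_sound p15_13_1_33)) (pfC_sound p15_13_1_34)) (pfC_sound p15_13_1_35)) (pfC_sound p15_13_1_36)) (pfC_sound p15_13_1_37)) (pfC_sound p15_13_1_38)) (pfC_sound p15_13_1_39)) (pfC_sound p15_13_1_40)) (pfC_sound p15_13_1_41)) (pfC_sound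 p15_13_1_42)) (pfC_sound p15_13_1_43)) (pfC_sound p15_13_1_44)) (pfC_sound p15_13_1_45)) (pfC_sound p15_13_1_46)) (pfC_sound p15_13_1_47)) (pfC_sound p15_13_1_48)) (pfC_sound p15_13_1_49)) (pfC_sound p15_13_1_50)) (pfC_sound p15_13_1_51)) (pfC_sound p15_13_1_52)) (pfC_sound p15_13_1_53)) (pfC_sound p15_13_1_54)) (pfC_sound p15_13_1_55)) (pfC_sound p15_13_1_56)) (pfC_sound p15_13_1_57)) (pfC_sound p15_13_1_58)) (pfC_sound p15_13_1_59)) (pfC_sound p15_13_1_60)) (pfC_sound p15_13_1_61)) (pfC_sound p15_13_1_62)) (pfC_sound p15_13_1_63)) (pfC_sound p15_13_1_64)) (pfC_sound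
 p15_13_1_65)) (pfC_sound p15_13_1_66)) (pfC_sound p15_13_1_67)) (pfC_sound p15_13_1_68)) (pfC_sound p15_13_1_69)) (pfC_sound p15_13_1_70)) (by decide +kernel)

def z15_13_1 : zOK yB15_13 (nat_lit 1) (nat_lit 400) (nat_lit 600) (nat_lit 10133526) (nat_lit 6577802) = true := by decide +kernel
def g15_13_1 : gOK yB15_13.x P15_13 (nat_lit 1428) (q15_13 :: r15_13) (nat_lit 1) (nat_lit 400) (nat_lit 2) (nat_lit 600) (nat_lit 11000000) (nat_lit 17850000) (nat_lit 12712500) (nat_lit 12712500) [(nat_lit 800), (nat_lit 1040)] = true := by decide +kernel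
def v15_13_1 : ivC P15_13 s15_13 w15_13 n15_13 (nat_lit 4) (nat_lit 5070) (nat_lit 1) (nat_lit 400) f144_1_400 f152_1_400 (nat_lit 2) (nat_lit 600) f144_1_600 f152_1_600 (nat_lit 10133526) (nat_lit 6577802) p15_13_1 = true := by decide +kernel
def p15_13_2 : PF := (PF.cons (PF.cons (PF.cons (PF.cons (PF.leaf (nat_lit 2774757) (nat_lit 16333349) (nat_lit 50775463) (nat_lit 16333349) [(nat_lit 0), (nat_lit 0), (nat_lit 0), (nat_lit 0)]) (PF.cons (PF.leaf (nat_lit 2891466) (nat_lit 195399) (nat_lit 50594542) (nat_lit 16318871) [(nat_lit 195399), (nat_lit 0), (nat_lit 0), (nat_lit 0)]) (PF.cons (PF.leaf (nat_lit 3032005) (nat_lit 212515) (nat_lit 50382498) (nat_lit 16301283) [(nat_lit 212515), (nat_lit 0), (nat_lit 0), (nat_lit 0)]) (PF.cons (PF.leaf (nat_lit 3189907) (nat_lit 227735) (nat_lit 50144811) (nat_lit 16280794) [(nat_lit 227735), (nat_lit 0), (nat_lit 0), (nat_lit 0)]) (PF.cons (PF.leaf (nat_lit 3362795) (nat_lit 241495) (nat_lit 49885322) (nat_lit 16257509)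 [(nat_lit 241495), (nat_lit 0), (nat_lit 0), (nat_lit 0)]) (PF.cons (PF.leaf (nat_lit 3548838) (nat_lit 254072) (nat_lit 49606964) (nat_lit 16231488) [(nat_lit 254072), (nat_lit 0), (nat_lit 0), (nat_lit 0)]) (PF.cons (PF.leaf (nat_lit 3746578) (nat_lit 265657) (nat_lit 49312101) (nat_lit 16202765) [(nat_lit 265657), (nat_lit 0), (nat_lit 0), (nat_lit 0)]) (PF.cons PF.nil (PF.cons PF.nil PF.nil))))))))) (PF.cons (PF.cons (PF.leaf (nat_lit 3249730) (nat_lit 1080190) (nat_lit
 49783620) (nat_lit 16245002) [(nat_lit 0), (nat_lit 1080190), (nat_lit 0), (nat_lit 0)]) (PF.cons (PF.leaf (nat_lit 3404413) (nat_lit 239026) (nat_lit 49544013) (nat_lit 16222277) [(nat_lit 239026), (nat_lit 1103494), (nat_lit 0), (nat_lit 0)]) (PF.cons (PF.leaf (nat_lit 3576702) (nat_lit 252137) (nat_lit 49281445) (nat_lit 16196481) [(nat_lit 252137), (nat_lit 1126611), (nat_lit 0), (nat_lit 0)]) (PF.cons (PF.leaf (nat_lit 3762707) (nat_lit 264063) (nat_lit 48999694) (nat_lit 16167776) [(nat_lit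 264063), (nat_lit 1149152), (nat_lit 0), (nat_lit 0)]) (PF.cons (PF.leaf (nat_lit 3960533) (nat_lit 275020) (nat_lit 48701558) (nat_lit 16136266) [(nat_lit 275020), (nat_lit 1170908), (nat_lit 0), (nat_lit 0)]) (PF.cons (PF.leaf (nat_lit 4168901) (nat_lit 285154) (nat_lit 48389250) (nat_lit 16102023) [(nat_lit 285154), (nat_lit 1191766), (nat_lit 0), (nat_lit 0)]) (PF.cons PF.nil PF.nil))))))) (PF.cons (PF.cons (PF.leaf (nat_lit 3795280) (nat_lit 1159659) (nat_lit 48660848) (nat_lit 16128645) [(nat_lit 0), (nat_lit 1159659), (nat_lit 0), (nat_lit 0)]) (PF.cons (PF.leaf (nat_lit 3978307) (nat_lit 272645) (nat_lit 48379421) (nat_lit 16097659) [(nat_lit 272645), (nat_lit 1179543), (nat_lit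
 0), (nat_lit 0)]) (PF.cons (PF.leaf (nat_lit 4175080) (nat_lit 283162) (nat_lit 48080949) (nat_lit 16063698) [(nat_lit 283162), (nat_lit 1198920), (nat_lit 0), (nat_lit 0)]) (PF.cons (PF.leaf (nat_lit 4382664) (nat_lit 292843) (nat_lit 47768133) (nat_lit 16026910) [(nat_lit 292843), (nat_lit 1217619), (nat_lit 0), (nat_lit 0)]) (PF.cons PF.nil PF.nil))))) (PF.cons (PF.cons (PF.leaf (nat_lit 4391997) (nat_lit 1224037) (nat_lit 47451527) (nat_lit 15985174) [(nat_lit 0), (nat_lit 1224037), (nat_lit 0), (nat_lit 0)]) (PF.cons (PF.leaf (nat_lit 4596662) (nat_lit 299547) (nat_lit 47140687) (nat_lit 15946204) [(nat_lit 299547), (nat_lit 1240791), (nat_lit 0), (nat_lit 0)]) (PF.cons (PF.leaf (nat_lit 4812242) (nat_lit 308167) (nat_lit 46817250) (nat_lit 15904427) [(nat_lit 308167), (nat_lit 1256933), (nat_lit 0), (nat_lit 0)]) (PF.cons PF.nil PF.nil)))) (PF.cons (PF.cons (PF.leaf (nat_lit 5025518) (nat_lit 1276112) (nat_lit 46188002) (nat_lit 15816361) [(nat_lit 0),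 (nat_lit 1276112), (nat_lit 0), (nat_lit 0)]) (PF.cons (PF.leaf (nat_lit 5246685) (nat_lit 321406) (nat_lit 45857259) (nat_lit 15769945) [(nat_lit 321406), (nat_lit 1290050), (nat_lit 0), (nat_lit 0)]) PF.nil)) (PF.cons PF.nil
 PF.nil)))))) (PF.cons (PF.cons (PF.cons (PF.leaf (nat_lit 3768163) (nat_lit 2926816) (nat_lit 48129764) (nat_lit 16052232) [(nat_lit 0), (nat_lit 0), (nat_lit 2926816), (nat_lit 0)]) (PF.cons (PF.leaf (nat_lit 3931043) (nat_lit 257429) (nat_lit 47881270) (nat_lit 16023415) [(nat_lit 257429), (nat_lit 0), (nat_lit 2946697), (nat_lit 0)]) (PF.cons (PF.leaf (nat_lit 4110843) (nat_lit 269881) (nat_lit 47610904) (nat_lit 15991190) [(nat_lit 269881), (nat_lit 0), (nat_lit 2966955), (nat_lit 0)]) (PF.cons (PF.leaf (nat_lit 4303651) (nat_lit 281047) (nat_lit 47322696) (nat_lit 15955853) [(nat_lit 281047), (nat_lit 0), (nat_lit 2987120), (nat_lit 0)]) (PF.cons (PF.leaf (nat_lit 4507495) (nat_lit 291188) (nat_lit 47019579) (nat_lit 15917604) [(nat_lit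 291188), (nat_lit 0), (nat_lit 3006875), (nat_lit 0)]) (PF.cons PF.nil (PF.cons PF.nil PF.nil))))))) (PF.cons (PF.cons (PF.leaf (nat_lit 4327630) (nat_lit 1210417) (nat_lit 46988008) (nat_lit 15910384) [(nat_lit 0), (nat_lit 1210417), (nat_lit 3000003), (nat_lit 0)]) (PF.cons (PF.leaf (nat_lit 4516469) (nat_lit 287812) (nat_lit 46702865) (nat_lit 15873277) [(nat_lit 287812), (nat_lit 1227287), (nat_lit 3017569), (nat_lit 0)]) (PF.cons (PF.leaf
 (nat_lit 4718246) (nat_lit 297628) (nat_lit 46401963) (nat_lit 15833085) [(nat_lit 297628), (nat_lit 1243645), (nat_lit 3034862), (nat_lit 0)]) (PF.cons (PF.leaf (nat_lit 4930113) (nat_lit 306568) (nat_lit 46088071) (nat_lit 15790039) [(nat_lit 306568), (nat_lit 1259358), (nat_lit 3051637), (nat_lit 0)]) (PF.cons PF.nil PF.nil))))) (PF.cons (PF.cons (PF.leaf (nat_lit 4930906) (nat_lit 1263370) (nat_lit 45779331) (nat_lit 15743433) [(nat_lit 0), (nat_lit 1263370), (nat_lit 3059306), (nat_lit 0)]) (PF.cons (PF.leaf (nat_lit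 5139135) (nat_lit 311823) (nat_lit 45469425) (nat_lit 15698736) [(nat_lit 311823), (nat_lit 1277468), (nat_lit 3073891), (nat_lit 0)]) (PF.cons (PF.leaf (nat_lit 5357500) (nat_lit 319764) (nat_lit 45148154) (nat_lit 15651268) [(nat_lit 319764), (nat_lit 1290982), (nat_lit 3087896), (nat_lit 0)]) (PF.cons PF.nil PF.nil)))) (PF.cons (PF.cons (PF.leaf (nat_lit 5564783) (nat_lit 1305815) (nat_lit 44532292) (nat_lit 15553975) [(nat_lit 0), (nat_lit 1305815), (nat_lit 3105099), (nat_lit 0)]) (PF.cons PF.nil PF.nil)) (PF.cons PF.nil PF.nil))))) (PF.cons (PF.cons (PF.cons (PF.leaf (nat_lit 4852111) (nat_lit 3048847) (nat_lit 45345621) (nat_lit 15665497) [(nat_lit 0),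
 (nat_lit 0), (nat_lit 3048847), (nat_lit 0)]) (PF.cons (PF.leaf (nat_lit 5044937) (nat_lit 300020) (nat_lit 45060728) (nat_lit 15623255) [(nat_lit 300020), (nat_lit 0), (nat_lit 3062404), (nat_lit 0)]) (PF.cons (PF.leaf (nat_lit 5250070) (nat_lit 309203) (nat_lit 44761270) (nat_lit 15577889) [(nat_lit 309203), (nat_lit 0), (nat_lit 3075623), (nat_lit 0)]) (PF.cons (PF.leaf (nat_lit 5464637) (nat_lit 317484) (nat_lit 44450026) (nat_lit 15529702) [(nat_lit 317484), (nat_lit 0), (nat_lit 3088315), (nat_lit 0)]) (PF.cons PF.nil PF.nil))))) (PF.cons (PF.cons (PF.leaf (nat_lit 5457627) (nat_lit 1292699) (nat_lit 44151519) (nat_lit 15479466) [(nat_lit 0), (nat_lit 1292699), (nat_lit 3092563), (nat_lit 0)]) (PF.cons (PF.leaf (nat_lit 5667962) (nat_lit 321537) (nat_lit 43845707) (nat_lit 15430131) [(nat_lit 321537), (nat_lit 1304563), (nat_lit 3103436), (nat_lit 0)]) (PF.cons PF.nil (PF.cons PF.nil PF.nil)))) (PF.cons (PF.cons (PF.leaf (nat_lit 6088614) (nat_lit 1327139)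 (nat_lit 42931377) (nat_lit 15273807) [(nat_lit 0), (nat_lit 1327139), (nat_lit 3124674), (nat_lit 0)]) (PF.cons PF.nil PF.nil)) PF.nil))) (PF.cons (PF.cons (PF.cons (PF.leaf (nat_lit 5970659) (nat_lit 3110775) (nat_lit
 42577489) (nat_lit 15198998) [(nat_lit 0), (nat_lit 0), (nat_lit 3110775), (nat_lit 0)]) (PF.cons (PF.leaf (nat_lit 6181923) (nat_lit 329119) (nat_lit 42278039) (nat_lit 15146024) [(nat_lit 329119), (nat_lit 0), (nat_lit 3118543), (nat_lit 0)]) (PF.cons PF.nil PF.nil))) (PF.cons (PF.cons (PF.leaf (nat_lit 6596219) (nat_lit 1341601) (nat_lit 41391415) (nat_lit 14981091) [(nat_lit 0), (nat_lit 1341601), (nat_lit 3131568), (nat_lit 0)]) PF.nil) PF.nil)) (PF.cons PF.nil (PF.cons PF.nil PF.nil)))))) (PF.cons (PF.cons (PF.cons (PF.cons (PF.leaf (nat_lit 4618588) (nat_lit 7662077) (nat_lit 44069361) (nat_lit 15377373) [(nat_lit 0), (nat_lit 0), (nat_lit 0), (nat_lit 7662077)]) (PF.cons (PF.leaf (nat_lit 4781939) (nat_lit 266883) (nat_lit 43839054) (nat_lit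 15341674) [(nat_lit 266883), (nat_lit 0), (nat_lit 0), (nat_lit 7661199)]) (PF.cons (PF.leaf (nat_lit 4961447) (nat_lit 278844) (nat_lit 43589336) (nat_lit 15302297) [(nat_lit 278844), (nat_lit 0), (nat_lit 0), (nat_lit 7659490)]) (PF.cons (PF.leaf (nat_lit 5152969) (nat_lit 289404) (nat_lit 43324046) (nat_lit 15259711) [(nat_lit 289404), (nat_lit 0), (nat_lit 0), (nat_lit 7656839)]) (PF.cons (PF.leaf (nat_lit 5354706) (nat_lit 298859)
 (nat_lit 43045962) (nat_lit 15214249) [(nat_lit 298859), (nat_lit 0), (nat_lit 0), (nat_lit 7653164)]) (PF.cons (PF.leaf (nat_lit 5565231) (nat_lit 307406) (nat_lit 42757214) (nat_lit 15166162) [(nat_lit 307406), (nat_lit 0), (nat_lit 0), (nat_lit 7648405)]) (PF.cons PF.nil PF.nil))))))) (PF.cons (PF.cons (PF.leaf (nat_lit 5166691) (nat_lit 1231540) (nat_lit 43021672) (nat_lit 15207385) [(nat_lit 0), (nat_lit 1231540), (nat_lit 0), (nat_lit 7648214)]) (PF.cons (PF.leaf (nat_lit 5353409) (nat_lit 294589) (nat_lit 42760798) (nat_lit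 15163908) [(nat_lit 294589), (nat_lit 1245579), (nat_lit 0), (nat_lit 7643936)]) (PF.cons (PF.leaf (nat_lit 5552281) (nat_lit 303754) (nat_lit 42486296) (nat_lit 15117378) [(nat_lit 303754), (nat_lit 1259020), (nat_lit 0), (nat_lit 7638609)]) (PF.cons (PF.leaf (nat_lit 5760319) (nat_lit 311990) (nat_lit 42200742) (nat_lit 15068132) [(nat_lit 311990), (nat_lit 1271773), (nat_lit 0), (nat_lit 7632192)]) (PF.cons (PF.leaf (nat_lit 5976204) (nat_lit 319458) (nat_lit 41906094) (nat_lit 15016425) [(nat_lit 319458), (nat_lit 1283802), (nat_lit 0), (nat_lit 7624656)]) PF.nil))))) (PF.cons (PF.cons (PF.leaf (nat_lit 5751274) (nat_lit 1273231) (nat_lit 41924620)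
 (nat_lit 15016895) [(nat_lit 0), (nat_lit 1273231), (nat_lit 0), (nat_lit 7620832)]) (PF.cons (PF.leaf (nat_lit 5955021) (nat_lit 315837) (nat_lit 41643975) (nat_lit 14966868) [(nat_lit 315837), (nat_lit 1284604), (nat_lit 0), (nat_lit 7612921)]) (PF.cons (PF.leaf (nat_lit 6168092) (nat_lit 323082) (nat_lit 41353721) (nat_lit 14914280) [(nat_lit 323082), (nat_lit 1295378), (nat_lit 0), (nat_lit 7603890)]) (PF.cons PF.nil PF.nil)))) (PF.cons (PF.cons (PF.leaf (nat_lit 6360319) (nat_lit 1305514) (nat_lit 40802572) (nat_lit 14809334) [(nat_lit 0), (nat_lit 1305514), (nat_lit 0), (nat_lit 7580362)]) (PF.cons (PF.leaf (nat_lit 6576484) (nat_lit 332493) (nat_lit 40509817) (nat_lit 14753818) [(nat_lit 332493), (nat_lit 1314600), (nat_lit 0), (nat_lit 7568880)]) PF.nil)) (PF.cons PF.nil PF.nil))))) (PF.cons (PF.cons (PF.cons (PF.leaf (nat_lit 5657767) (nat_lit 3031884) (nat_lit 41548788) (nat_lit 14936880) [(nat_lit 0), (nat_lit 0), (nat_lit 3031884), (nat_lit 7591260)])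 (PF.cons (PF.leaf (nat_lit 5846953) (nat_lit 303641) (nat_lit 41290848) (nat_lit 14890119) [(nat_lit 303641), (nat_lit 0), (nat_lit 3040718), (nat_lit 7583485)]) (PF.cons (PF.leaf (nat_lit 6047598) (nat_lit 312207)
 (nat_lit 41020316) (nat_lit 14840346) [(nat_lit 312207), (nat_lit 0), (nat_lit 3049139), (nat_lit 7574595)]) (PF.cons (PF.leaf (nat_lit 6256890) (nat_lit 319837) (nat_lit 40739736) (nat_lit 14787944) [(nat_lit 319837), (nat_lit 0), (nat_lit 3057022), (nat_lit 7564596)]) (PF.cons PF.nil PF.nil))))) (PF.cons (PF.cons (PF.leaf (nat_lit 6241087) (nat_lit 1291347) (nat_lit 40474676) (nat_lit 14735037) [(nat_lit 0), (nat_lit 1291347), (nat_lit 3057341), (nat_lit 7550409)]) (PF.cons (PF.leaf (nat_lit 6445696) (nat_lit 322709) (nat_lit 40199917) (nat_lit 14682245) [(nat_lit 322709), (nat_lit 1300892), (nat_lit 3063828), (nat_lit 7539219)]) (PF.cons (PF.leaf (nat_lit 6659057) (nat_lit 329412) (nat_lit 39916432) (nat_lit 14626998) [(nat_lit 329412), (nat_lit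 1309872), (nat_lit 3069765), (nat_lit 7526919)]) (PF.cons PF.nil PF.nil)))) (PF.cons (PF.cons (PF.leaf (nat_lit 6844946) (nat_lit 1317283) (nat_lit 39384245) (nat_lit 14518565) [(nat_lit 0), (nat_lit 1317283), (nat_lit 3073404), (nat_lit 7498030)]) (PF.cons PF.nil PF.nil)) PF.nil))) (PF.cons (PF.cons (PF.cons (PF.leaf (nat_lit 6717315) (nat_lit 3057815) (nat_lit 39080260) (nat_lit 14445753) [(nat_lit 0), (nat_lit 0), (nat_lit 3057815),
 (nat_lit 7467167)]) (PF.cons (PF.leaf (nat_lit 6921935) (nat_lit 327931) (nat_lit 38812727) (nat_lit 14390924) [(nat_lit 327931), (nat_lit 0), (nat_lit 3061979), (nat_lit 7453269)]) (PF.cons PF.nil PF.nil))) (PF.cons (PF.cons (PF.leaf (nat_lit 7314330) (nat_lit 1324017) (nat_lit 38025304) (nat_lit 14223144) [(nat_lit 0), (nat_lit 1324017), (nat_lit 3065597), (nat_lit 7405151)]) PF.nil) PF.nil)) (PF.cons PF.nil (PF.cons PF.nil PF.nil))))) (PF.cons (PF.cons (PF.cons (PF.cons (PF.leaf (nat_lit 6386092) (nat_lit 7341350) (nat_lit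 38220955) (nat_lit 14205155) [(nat_lit 0), (nat_lit 0), (nat_lit 0), (nat_lit 7341350)]) (PF.cons (PF.leaf (nat_lit 6570565) (nat_lit 303468) (nat_lit 37989139) (nat_lit 14156972) [(nat_lit 303468), (nat_lit 0), (nat_lit 0), (nat_lit 7329616)]) (PF.cons (PF.leaf (nat_lit 6765819) (nat_lit 311488) (nat_lit 37746374) (nat_lit 14105951) [(nat_lit 311488), (nat_lit 0), (nat_lit 0), (nat_lit 7316754)]) (PF.cons (PF.leaf (nat_lit 6969023) (nat_lit 318560) (nat_lit 37494958) (nat_lit 14052509) [(nat_lit 318560), (nat_lit 0), (nat_lit 0), (nat_lit 7302832)]) (PF.cons PF.nil PF.nil))))) (PF.cons (PF.cons (PF.leaf (nat_lit 6946562) (nat_lit 1276952) (nat_lit 37260590)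
 (nat_lit 13999778) [(nat_lit 0), (nat_lit 1276952), (nat_lit 0), (nat_lit 7285745)]) (PF.cons (PF.leaf (nat_lit 7144878) (nat_lit 320559) (nat_lit 37014910) (nat_lit 13946433) [(nat_lit 320559), (nat_lit 1284754), (nat_lit 0), (nat_lit 7271077)]) (PF.cons PF.nil (PF.cons PF.nil PF.nil)))) (PF.cons (PF.cons (PF.leaf (nat_lit 7524065) (nat_lit 1296693) (nat_lit 36289640) (nat_lit 13783343) [(nat_lit 0), (nat_lit 1296693), (nat_lit 0), (nat_lit 7221221)]) (PF.cons PF.nil PF.nil)) PF.nil))) (PF.cons (PF.cons (PF.cons (PF.leaf (nat_lit 7390254) (nat_lit 2985543) (nat_lit 36028288) (nat_lit 13714684) [(nat_lit 0), (nat_lit 0), (nat_lit 2985543), (nat_lit 7190147)]) (PF.cons (PF.leaf (nat_lit 7587981) (nat_lit 324111) (nat_lit 35789810) (nat_lit 13660325) [(nat_lit 324111), (nat_lit 0), (nat_lit 2987254), (nat_lit 7173655)]) PF.nil)) (PF.cons PF.nil PF.nil)) (PF.cons PF.nil PF.nil))) (PF.cons (PF.cons (PF.cons (PF.cons (PF.leaf (nat_lit 8001902) (nat_lit 6909097) (nat_lit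 33359778) (nat_lit 13021740) [(nat_lit 0), (nat_lit 0), (nat_lit 0), (nat_lit 6909097)]) (PF.cons PF.nil PF.nil)) (PF.cons PF.nil PF.nil)) (PF.cons PF.nil PF.nil)) (PF.cons PF.nil (PF.cons PF.nil (PF.cons PF.nil
 (PF.cons PF.nil PF.nil))))))))

def p15_13_2_0 : pfC (piC [(nat_lit 42686981), (nat_lit 26736489), (nat_lit 19877745), (nat_lit 13394109)] (nat_lit 6577802)) p15_13_2 (nat_lit 4) (nat_lit 0) (nat_lit 1) = true := by decide +kernel
def p15_13_2_1 : pfC (piC [(nat_lit 42686981), (nat_lit 26736489), (nat_lit 19877745), (nat_lit 13394109)] (nat_lit 6577802)) p15_13_2 (nat_lit 4) (nat_lit 1) (nat_lit 2) = true := by decide +kernel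
def p15_13_2_2 : pfC (piC [(nat_lit 42686981), (nat_lit 26736489), (nat_lit 19877745), (nat_lit 13394109)] (nat_lit 6577802)) p15_13_2 (nat_lit 4) (nat_lit 2) (nat_lit 3) = true := by decide +kernel
def p15_13_2_3 : pfC (piC [(nat_lit 42686981), (nat_lit 26736489), (nat_lit 19877745), (nat_lit 13394109)] (nat_lit 6577802)) p15_13_2 (nat_lit 4) (nat_lit 3) (nat_lit 4) = true := by decide +kernel
def p15_13_2_4 : pfC (piC [(nat_lit 42686981), (nat_lit 26736489), (nat_lit 19877745), (nat_lit 13394109)] (nat_lit 6577802)) p15_13_2 (nat_lit 4) (nat_lit 4) (nat_lit 5) = true := by decide +kernel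
def p15_13_2_5 : pfC (piC [(nat_lit 42686981), (nat_lit 26736489), (nat_lit 19877745), (nat_lit 13394109)] (nat_lit 6577802)) p15_13_2 (nat_lit 4) (nat_lit 5) (nat_lit 6) = true := by decide +kernel
def p15_13_2_6 : pfC (piC [(nat_lit 42686981), (nat_lit 26736489), (nat_lit 19877745), (nat_lit 13394109)] (nat_lit 6577802)) p15_13_2 (nat_lit 4) (nat_lit 6) (nat_lit 7) = true := by decide +kernel
def p15_13_2_7 : pfC (piC [(nat_lit 42686981), (nat_lit 26736489), (nat_lit 19877745), (nat_lit 13394109)] (nat_lit 6577802)) p15_13_2 (nat_lit 4) (nat_lit 7) (nat_lit 8) = true := by decide +kernel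
def p15_13_2_8 : pfC (piC [(nat_lit 42686981), (nat_lit 26736489), (nat_lit 19877745), (nat_lit 13394109)] (nat_lit 6577802)) p15_13_2 (nat_lit 4) (nat_lit 8) (nat_lit 9) = true := by decide +kernel
def p15_13_2_9 : pfC (piC [(nat_lit 42686981), (nat_lit 26736489), (nat_lit 19877745), (nat_lit 13394109)] (nat_lit 6577802)) p15_13_2 (nat_lit 4) (nat_lit 9) (nat_lit 10) = true := by decide +kernel
def p15_13_2_10 : pfC (piC [(nat_lit 42686981), (nat_lit 26736489), (nat_lit 19877745), (nat_lit 13394109)] (nat_lit 6577802)) p15_13_2 (nat_lit 4) (nat_lit 10) (nat_lit 11) = true := by decide +kernel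
def p15_13_2_11 : pfC (piC [(nat_lit 42686981), (nat_lit 26736489), (nat_lit 19877745), (nat_lit 13394109)] (nat_lit 6577802)) p15_13_2 (nat_lit 4) (nat_lit 11) (nat_lit 12) = true := by decide +kernel
def p15_13_2_12 : pfC (piC [(nat_lit 42686981), (nat_lit 26736489), (nat_lit 19877745), (nat_lit 13394109)] (nat_lit 6577802)) p15_13_2 (nat_lit 4) (nat_lit 12) (nat_lit 13) = true := by decide +kernel
def p15_13_2_13 : pfC (piC [(nat_lit 42686981), (nat_lit 26736489), (nat_lit 19877745), (nat_lit 13394109)] (nat_lit 6577802)) p15_13_2 (nat_lit 4) (nat_lit 13) (nat_lit 14) = true := by decide +kernel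
def p15_13_2_14 : pfC (piC [(nat_lit 42686981), (nat_lit 26736489), (nat_lit 19877745), (nat_lit 13394109)] (nat_lit 6577802)) p15_13_2 (nat_lit 4) (nat_lit 14) (nat_lit 15) = true := by decide +kernel
def p15_13_2_15 : pfC (piC [(nat_lit 42686981), (nat_lit 26736489), (nat_lit 19877745), (nat_lit 13394109)] (nat_lit 6577802)) p15_13_2 (nat_lit 4) (nat_lit 15) (nat_lit 16) = true := by decide +kernel
def p15_13_2_16 : pfC (piC [(nat_lit 42686981), (nat_lit 26736489), (nat_lit 19877745), (nat_lit 13394109)] (nat_lit 6577802)) p15_13_2 (nat_lit 4) (nat_lit 16) (nat_lit 17) = true := by decide +kernel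
def p15_13_2_17 : pfC (piC [(nat_lit 42686981), (nat_lit 26736489), (nat_lit 19877745), (nat_lit 13394109)] (nat_lit 6577802)) p15_13_2 (nat_lit 4) (nat_lit 17) (nat_lit 18) = true := by decide +kernel
def p15_13_2_18 : pfC (piC [(nat_lit 42686981), (nat_lit 26736489), (nat_lit 19877745), (nat_lit 13394109)] (nat_lit 6577802)) p15_13_2 (nat_lit 4) (nat_lit 18) (nat_lit 19) = true := by decide +kernel
def p15_13_2_19 : pfC (piC [(nat_lit 42686981), (nat_lit 26736489), (nat_lit 19877745), (nat_lit 13394109)] (nat_lit 6577802)) p15_13_2 (nat_lit 4) (nat_lit 19) (nat_lit 20) = true := by decide +kernel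
def p15_13_2_20 : pfC (piC [(nat_lit 42686981), (nat_lit 26736489), (nat_lit 19877745), (nat_lit 13394109)] (nat_lit 6577802)) p15_13_2 (nat_lit 4) (nat_lit 20) (nat_lit 21) = true := by decide +kernel
def p15_13_2_21 : pfC (piC [(nat_lit 42686981), (nat_lit 26736489), (nat_lit 19877745), (nat_lit 13394109)] (nat_lit 6577802)) p15_13_2 (nat_lit 4) (nat_lit 21) (nat_lit 22) = true := by decide +kernel
def p15_13_2_22 : pfC (piC [(nat_lit 42686981), (nat_lit 26736489), (nat_lit 19877745), (nat_lit 13394109)] (nat_lit 6577802)) p15_13_2 (nat_lit 4) (nat_lit 22) (nat_lit 23) = true := by decide +kernel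
def p15_13_2_23 : pfC (piC [(nat_lit 42686981), (nat_lit 26736489), (nat_lit 19877745), (nat_lit 13394109)] (nat_lit 6577802)) p15_13_2 (nat_lit 4) (nat_lit 23) (nat_lit 24) = true := by decide +kernel
def p15_13_2_24 : pfC (piC [(nat_lit 42686981), (nat_lit 26736489), (nat_lit 19877745), (nat_lit 13394109)] (nat_lit 6577802)) p15_13_2 (nat_lit 4) (nat_lit 24) (nat_lit 25) = true := by decide +kernel
def p15_13_2_25 : pfC (piC [(nat_lit 42686981), (nat_lit 26736489), (nat_lit 19877745), (nat_lit 13394109)] (nat_lit 6577802)) p15_13_2 (nat_lit 4) (nat_lit 25) (nat_lit 26) = true := by decide +kernel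
def p15_13_2_26 : pfC (piC [(nat_lit 42686981), (nat_lit 26736489), (nat_lit 19877745), (nat_lit 13394109)] (nat_lit 6577802)) p15_13_2 (nat_lit 4) (nat_lit 26) (nat_lit 27) = true := by decide +kernel
def p15_13_2_27 : pfC (piC [(nat_lit 42686981), (nat_lit 26736489), (nat_lit 19877745), (nat_lit 13394109)] (nat_lit 6577802)) p15_13_2 (nat_lit 4) (nat_lit 27) (nat_lit 28) = true := by decide +kernel
def p15_13_2_28 : pfC (piC [(nat_lit 42686981), (nat_lit 26736489), (nat_lit 19877745), (nat_lit 13394109)] (nat_lit 6577802)) p15_13_2 (nat_lit 4) (nat_lit 28) (nat_lit 29) = true := by decide +kernel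
def p15_13_2_29 : pfC (piC [(nat_lit 42686981), (nat_lit 26736489), (nat_lit 19877745), (nat_lit 13394109)] (nat_lit 6577802)) p15_13_2 (nat_lit 4) (nat_lit 29) (nat_lit 30) = true := by decide +kernel
def p15_13_2_30 : pfC (piC [(nat_lit 42686981), (nat_lit 26736489), (nat_lit 19877745), (nat_lit 13394109)] (nat_lit 6577802)) p15_13_2 (nat_lit 4) (nat_lit 30) (nat_lit 31) = true := by decide +kernel
def p15_13_2_31 : pfC (piC [(nat_lit 42686981), (nat_lit 26736489), (nat_lit 19877745), (nat_lit 13394109)] (nat_lit 6577802)) p15_13_2 (nat_lit 4) (nat_lit 31) (nat_lit 32) = true := by decide +kernel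
def p15_13_2_32 : pfC (piC [(nat_lit 42686981), (nat_lit 26736489), (nat_lit 19877745), (nat_lit 13394109)] (nat_lit 6577802)) p15_13_2 (nat_lit 4) (nat_lit 32) (nat_lit 33) = true := by decide +kernel
def p15_13_2_33 : pfC (piC [(nat_lit 42686981), (nat_lit 26736489), (nat_lit 19877745), (nat_lit 13394109)] (nat_lit 6577802)) p15_13_2 (nat_lit 4) (nat_lit 33) (nat_lit 34) = true := by decide +kernel
def p15_13_2_34 : pfC (piC [(nat_lit 42686981), (nat_lit 26736489), (nat_lit 19877745), (nat_lit 13394109)] (nat_lit 6577802)) p15_13_2 (nat_lit 4) (nat_lit 34) (nat_lit 35) = true := by decide +kernel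
def p15_13_2_35 : pfC (piC [(nat_lit 42686981), (nat_lit 26736489), (nat_lit 19877745), (nat_lit 13394109)] (nat_lit 6577802)) p15_13_2 (nat_lit 4) (nat_lit 35) (nat_lit 36) = true := by decide +kernel
def p15_13_2_36 : pfC (piC [(nat_lit 42686981), (nat_lit 26736489), (nat_lit 19877745), (nat_lit 13394109)] (nat_lit 6577802)) p15_13_2 (nat_lit 4) (nat_lit 36) (nat_lit 37) = true := by decide +kernel
def p15_13_2_37 : pfC (piC [(nat_lit 42686981), (nat_lit 26736489), (nat_lit 19877745), (nat_lit 13394109)] (nat_lit 6577802)) p15_13_2 (nat_lit 4) (nat_lit 37) (nat_lit 38) = true := by decide +kernel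
def p15_13_2_38 : pfC (piC [(nat_lit 42686981), (nat_lit 26736489), (nat_lit 19877745), (nat_lit 13394109)] (nat_lit 6577802)) p15_13_2 (nat_lit 4) (nat_lit 38) (nat_lit 39) = true := by decide +kernel
def p15_13_2_39 : pfC (piC [(nat_lit 42686981), (nat_lit 26736489), (nat_lit 19877745), (nat_lit 13394109)] (nat_lit 6577802)) p15_13_2 (nat_lit 4) (nat_lit 39) (nat_lit 40) = true := by decide +kernel
def p15_13_2_40 : pfC (piC [(nat_lit 42686981), (nat_lit 26736489), (nat_lit 19877745), (nat_lit 13394109)] (nat_lit 6577802)) p15_13_2 (nat_lit 4) (nat_lit 40) (nat_lit 41) = true := by decide +kernel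
def p15_13_2_41 : pfC (piC [(nat_lit 42686981), (nat_lit 26736489), (nat_lit 19877745), (nat_lit 13394109)] (nat_lit 6577802)) p15_13_2 (nat_lit 4) (nat_lit 41) (nat_lit 42) = true := by decide +kernel
def p15_13_2_42 : pfC (piC [(nat_lit 42686981), (nat_lit 26736489), (nat_lit 19877745), (nat_lit 13394109)] (nat_lit 6577802)) p15_13_2 (nat_lit 4) (nat_lit 42) (nat_lit 43) = true := by decide +kernel
def p15_13_2_43 : pfC (piC [(nat_lit 42686981), (nat_lit 26736489), (nat_lit 19877745), (nat_lit 13394109)] (nat_lit 6577802)) p15_13_2 (nat_lit 4) (nat_lit 43) (nat_lit 44) = true := by decide +kernel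
def p15_13_2_44 : pfC (piC [(nat_lit 42686981), (nat_lit 26736489), (nat_lit 19877745), (nat_lit 13394109)] (nat_lit 6577802)) p15_13_2 (nat_lit 4) (nat_lit 44) (nat_lit 45) = true := by decide +kernel
def p15_13_2_45 : pfC (piC [(nat_lit 42686981), (nat_lit 26736489), (nat_lit 19877745), (nat_lit 13394109)] (nat_lit 6577802)) p15_13_2 (nat_lit 4) (nat_lit 45) (nat_lit 46) = true := by decide +kernel
def p15_13_2_46 : pfC (piC [(nat_lit 42686981), (nat_lit 26736489), (nat_lit 19877745), (nat_lit 13394109)] (nat_lit 6577802)) p15_13_2 (nat_lit 4) (nat_lit 46) (nat_lit 47) = true := by decide +kernel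
def p15_13_2_47 : pfC (piC [(nat_lit 42686981), (nat_lit 26736489), (nat_lit 19877745), (nat_lit 13394109)] (nat_lit 6577802)) p15_13_2 (nat_lit 4) (nat_lit 47) (nat_lit 48) = true := by decide +kernel
def p15_13_2_48 : pfC (piC [(nat_lit 42686981), (nat_lit 26736489), (nat_lit 19877745), (nat_lit 13394109)] (nat_lit 6577802)) p15_13_2 (nat_lit 4) (nat_lit 48) (nat_lit 49) = true := by decide +kernel
def p15_13_2_49 : pfC (piC [(nat_lit 42686981), (nat_lit 26736489), (nat_lit 19877745), (nat_lit 13394109)] (nat_lit 6577802)) p15_13_2 (nat_lit 4) (nat_lit 49) (nat_lit 50) = true := by decide +kernel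
def p15_13_2_50 : pfC (piC [(nat_lit 42686981), (nat_lit 26736489), (nat_lit 19877745), (nat_lit 13394109)] (nat_lit 6577802)) p15_13_2 (nat_lit 4) (nat_lit 50) (nat_lit 51) = true := by decide +kernel
def p15_13_2_51 : pfC (piC [(nat_lit 42686981), (nat_lit 26736489), (nat_lit 19877745), (nat_lit 13394109)] (nat_lit 6577802)) p15_13_2 (nat_lit 4) (nat_lit 51) (nat_lit 52) = true := by decide +kernel
def p15_13_2_52 : pfC (piC [(nat_lit 42686981), (nat_lit 26736489), (nat_lit 19877745), (nat_lit 13394109)] (nat_lit 6577802)) p15_13_2 (nat_lit 4) (nat_lit 52) (nat_lit 53) = true := by decide +kernel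
def p15_13_2_53 : pfC (piC [(nat_lit 42686981), (nat_lit 26736489), (nat_lit 19877745), (nat_lit 13394109)] (nat_lit 6577802)) p15_13_2 (nat_lit 4) (nat_lit 53) (nat_lit 54) = true := by decide +kernel
def p15_13_2_54 : pfC (piC [(nat_lit 42686981), (nat_lit 26736489), (nat_lit 19877745), (nat_lit 13394109)] (nat_lit 6577802)) p15_13_2 (nat_lit 4) (nat_lit 54) (nat_lit 55) = true := by decide +kernel
def p15_13_2_55 : pfC (piC [(nat_lit 42686981), (nat_lit 26736489), (nat_lit 19877745), (nat_lit 13394109)] (nat_lit 6577802)) p15_13_2 (nat_lit 4) (nat_lit 55) (nat_lit 56) = true := by decide +kernel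
def p15_13_2_56 : pfC (piC [(nat_lit 42686981), (nat_lit 26736489), (nat_lit 19877745), (nat_lit 13394109)] (nat_lit 6577802)) p15_13_2 (nat_lit 4) (nat_lit 56) (nat_lit 57) = true := by decide +kernel
def p15_13_2_57 : pfC (piC [(nat_lit 42686981), (nat_lit 26736489), (nat_lit 19877745), (nat_lit 13394109)] (nat_lit 6577802)) p15_13_2 (nat_lit 4) (nat_lit 57) (nat_lit 58) = true := by decide +kernel
def p15_13_2_58 : pfC (piC [(nat_lit 42686981), (nat_lit 26736489), (nat_lit 19877745), (nat_lit 13394109)] (nat_lit 6577802)) p15_13_2 (nat_lit 4) (nat_lit 58) (nat_lit 59) = true := by decide +kernel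
def p15_13_2_59 : pfC (piC [(nat_lit 42686981), (nat_lit 26736489), (nat_lit 19877745), (nat_lit 13394109)] (nat_lit 6577802)) p15_13_2 (nat_lit 4) (nat_lit 59) (nat_lit 60) = true := by decide +kernel
def p15_13_2_60 : pfC (piC [(nat_lit 42686981), (nat_lit 26736489), (nat_lit 19877745), (nat_lit 13394109)] (nat_lit 6577802)) p15_13_2 (nat_lit 4) (nat_lit 60) (nat_lit 61) = true := by decide +kernel
def p15_13_2_61 : pfC (piC [(nat_lit 42686981), (nat_lit 26736489), (nat_lit 19877745), (nat_lit 13394109)] (nat_lit 6577802)) p15_13_2 (nat_lit 4) (nat_lit 61) (nat_lit 62) = true := by decide +kernel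
def p15_13_2_62 : pfC (piC [(nat_lit 42686981), (nat_lit 26736489), (nat_lit 19877745), (nat_lit 13394109)] (nat_lit 6577802)) p15_13_2 (nat_lit 4) (nat_lit 62) (nat_lit 63) = true := by decide +kernel
def p15_13_2_63 : pfC (piC [(nat_lit 42686981), (nat_lit 26736489), (nat_lit 19877745), (nat_lit 13394109)] (nat_lit 6577802)) p15_13_2 (nat_lit 4) (nat_lit 63) (nat_lit 64) = true := by decide +kernel
def p15_13_2_64 : pfC (piC [(nat_lit 42686981), (nat_lit 26736489), (nat_lit 19877745), (nat_lit 13394109)] (nat_lit 6577802)) p15_13_2 (nat_lit 4) (nat_lit 64) (nat_lit 65) = true := by decide +kernel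
def p15_13_2_65 : pfC (piC [(nat_lit 42686981), (nat_lit 26736489), (nat_lit 19877745), (nat_lit 13394109)] (nat_lit 6577802)) p15_13_2 (nat_lit 4) (nat_lit 65) (nat_lit 66) = true := by decide +kernel
def p15_13_2_66 : pfC (piC [(nat_lit 42686981), (nat_lit 26736489), (nat_lit 19877745), (nat_lit 13394109)] (nat_lit 6577802)) p15_13_2 (nat_lit 4) (nat_lit 66) (nat_lit 67) = true := by decide +kernel
def p15_13_2_67 : pfC (piC [(nat_lit 42686981), (nat_lit 26736489), (nat_lit 19877745), (nat_lit 13394109)] (nat_lit 6577802)) p15_13_2 (nat_lit 4) (nat_lit 67) (nat_lit 68) = true := by decide +kernel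
def p15_13_2_68 : pfC (piC [(nat_lit 42686981), (nat_lit 26736489), (nat_lit 19877745), (nat_lit 13394109)] (nat_lit 6577802)) p15_13_2 (nat_lit 4) (nat_lit 68) (nat_lit 69) = true := by decide +kernel
def p15_13_2_69 : pfC (piC [(nat_lit 42686981), (nat_lit 26736489), (nat_lit 19877745), (nat_lit 13394109)] (nat_lit 6577802)) p15_13_2 (nat_lit 4) (nat_lit 69) (nat_lit 70) = true := by decide +kernel
def p15_13_2_70 : pfC (piC [(nat_lit 42686981), (nat_lit 26736489), (nat_lit 19877745), (nat_lit 13394109)] (nat_lit 6577802)) p15_13_2 (nat_lit 4) (nat_lit 70) (nat_lit 71) = true := by decide +kernel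
def p15_13_2_71 : pfC (piC [(nat_lit 42686981), (nat_lit 26736489), (nat_lit 19877745), (nat_lit 13394109)] (nat_lit 6577802)) p15_13_2 (nat_lit 4) (nat_lit 71) (nat_lit 72) = true := by decide +kernel
def p15_13_2_72 : pfC (piC [(nat_lit 42686981), (nat_lit 26736489), (nat_lit 19877745), (nat_lit 13394109)] (nat_lit 6577802)) p15_13_2 (nat_lit 4) (nat_lit 72) (nat_lit 73) = true := by decide +kernel
def p15_13_2_73 : pfC (piC [(nat_lit 42686981), (nat_lit 26736489), (nat_lit 19877745), (nat_lit 13394109)] (nat_lit 6577802)) p15_13_2 (nat_lit 4) (nat_lit 73) (nat_lit 74) = true := by decide +kernel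
def p15_13_2_74 : pfC (piC [(nat_lit 42686981), (nat_lit 26736489), (nat_lit 19877745), (nat_lit 13394109)] (nat_lit 6577802)) p15_13_2 (nat_lit 4) (nat_lit 74) (nat_lit 75) = true := by decide +kernel
def p15_13_2_75 : pfC (piC [(nat_lit 42686981), (nat_lit 26736489), (nat_lit 19877745), (nat_lit 13394109)] (nat_lit 6577802)) p15_13_2 (nat_lit 4) (nat_lit 75) (nat_lit 76) = true := by decide +kernel
def p15_13_2_76 : pfC (piC [(nat_lit 42686981), (nat_lit 26736489), (nat_lit 19877745), (nat_lit 13394109)] (nat_lit 6577802)) p15_13_2 (nat_lit 4) (nat_lit 76) (nat_lit 77) = true := by decide +kernel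
def p15_13_2_77 : pfC (piC [(nat_lit 42686981), (nat_lit 26736489), (nat_lit 19877745), (nat_lit 13394109)] (nat_lit 6577802)) p15_13_2 (nat_lit 4) (nat_lit 77) (nat_lit 78) = true := by decide +kernel
def p15_13_2_78 : pfC (piC [(nat_lit 42686981), (nat_lit 26736489), (nat_lit 19877745), (nat_lit 13394109)] (nat_lit 6577802)) p15_13_2 (nat_lit 4) (nat_lit 78) (nat_lit 79) = true := by decide +kernel
def p15_13_2_79 : pfC (piC [(nat_lit 42686981), (nat_lit 26736489), (nat_lit 19877745), (nat_lit 13394109)] (nat_lit 6577802)) p15_13_2 (nat_lit 4) (nat_lit 79) (nat_lit 80) = true := by decide +kernel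
def p15_13_2_80 : pfC (piC [(nat_lit 42686981), (nat_lit 26736489), (nat_lit 19877745), (nat_lit 13394109)] (nat_lit 6577802)) p15_13_2 (nat_lit 4) (nat_lit 80) (nat_lit 81) = true := by decide +kernel
def p15_13_2_81 : pfC (piC [(nat_lit 42686981), (nat_lit 26736489), (nat_lit 19877745), (nat_lit 13394109)] (nat_lit 6577802)) p15_13_2 (nat_lit 4) (nat_lit 81) (nat_lit 82) = true := by decide +kernel
theorem p15_13_2_T : PfS (PiF n15_13.reverse (nat_lit 6577802)) p15_13_2 (nat_lit 4) [] 0 :=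
  pftab_of (los := [(nat_lit 42686981), (nat_lit 26736489), (nat_lit 19877745), (nat_lit 13394109)]) (by decide +kernel) (hi := (nat_lit 82)) (PfP.trans (PfP.trans (PfP.trans (PfP.trans (PfP.trans (PfP.trans (PfP.trans (PfP.trans (PfP.trans (PfP.trans (PfP.trans (PfP.trans (PfP.trans (PfP.trans (PfP.trans (PfP.trans (PfP.trans (PfP.trans (PfP.trans (PfP.trans (PfP.trans (PfP.trans (PfP.trans (PfP.trans (PfP.trans (PfP.trans (PfP.trans (PfP.trans (PfP.trans (PfP.trans (PfP.trans (PfP.trans (PfP.trans (PfP.trans (PfP.trans (PfP.trans (PfP.trans (PfP.trans (PfP.trans (PfP.trans (PfP.trans (PfP.trans (PfP.trans (PfP.trans (PfP.trans (PfP.trans (PfP.trans (PfP.trans (PfP.trans (PfP.trans (PfP.trans (PfP.trans (PfP.trans (PfP.trans (PfP.trans (PfP.trans (PfP.trans (PfP.trans (PfP.trans (PfP.trans (PfP.trans (PfP.trans (PfP.trans (PfP.trans (PfP.trans (PfP.trans (PfP.trans (PfP.trans (PfP.trans (PfP.trans (PfP.trans (PfP.trans (PfP.trans (PfP.trans (PfP.trans (PfP.trans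 (PfP.trans (PfP.trans (PfP.trans (PfP.trans (PfP.trans (pfC_sound p15_13_2_0) (pfC_sound p15_13_2_1)) (pfC_sound p15_13_2_2)) (pfC_sound p15_13_2_3)) (pfC_sound p15_13_2_4)) (pfC_sound p15_13_2_5)) (pfC_sound p15_13_2_6)) (pfC_sound p15_13_2_7)) (pfC_sound p15_13_2_8)) (pfC_sound p15_13_2_9)) (pfC_sound p15_13_2_10)) (pfC_sound p15_13_2_11)) (pfC_sound
 p15_13_2_12)) (pfC_sound p15_13_2_13)) (pfC_sound p15_13_2_14)) (pfC_sound p15_13_2_15)) (pfC_sound p15_13_2_16)) (pfC_sound p15_13_2_17)) (pfC_sound p15_13_2_18)) (pfC_sound p15_13_2_19)) (pfC_sound p15_13_2_20)) (pfC_sound p15_13_2_21)) (pfC_sound p15_13_2_22)) (pfC_sound p15_13_2_23)) (pfC_sound p15_13_2_24)) (pfC_sound p15_13_2_25)) (pfC_sound p15_13_2_26)) (pfC_sound p15_13_2_27)) (pfC_sound p15_13_2_28)) (pfC_sound p15_13_2_29)) (pfC_sound p15_13_2_30)) (pfC_sound p15_13_2_31)) (pfC_sound p15_13_2_32)) (pfC_sound p15_13_2_33)) (pfC_sound p15_13_2_34)) (pfC_sound p15_13_2_35)) (pfC_sound p15_13_2_36)) (pfC_sound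 p15_13_2_37)) (pfC_sound p15_13_2_38)) (pfC_sound p15_13_2_39)) (pfC_sound p15_13_2_40)) (pfC_sound p15_13_2_41)) (pfC_sound p15_13_2_42)) (pfC_sound p15_13_2_43)) (pfC_sound p15_13_2_44)) (pfC_sound p15_13_2_45)) (pfC_sound p15_13_2_46)) (pfC_sound p15_13_2_47)) (pfC_sound p15_13_2_48)) (pfC_sound p15_13_2_49)) (pfC_sound p15_13_2_50)) (pfC_sound p15_13_2_51)) (pfC_sound p15_13_2_52)) (pfC_sound p15_13_2_53)) (pfC_sound p15_13_2_54)) (pfC_sound p15_13_2_55)) (pfC_sound p15_13_2_56)) (pfC_sound p15_13_2_57)) (pfC_sound p15_13_2_58)) (pfC_sound p15_13_2_59)) (pfC_sound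
 p15_13_2_60)) (pfC_sound p15_13_2_61)) (pfC_sound p15_13_2_62)) (pfC_sound p15_13_2_63)) (pfC_sound p15_13_2_64)) (pfC_sound p15_13_2_65)) (pfC_sound p15_13_2_66)) (pfC_sound p15_13_2_67)) (pfC_sound p15_13_2_68)) (pfC_sound p15_13_2_69)) (pfC_sound p15_13_2_70)) (pfC_sound p15_13_2_71)) (pfC_sound p15_13_2_72)) (pfC_sound p15_13_2_73)) (pfC_sound p15_13_2_74)) (pfC_sound p15_13_2_75)) (pfC_sound p15_13_2_76)) (pfC_sound p15_13_2_77)) (pfC_sound p15_13_2_78)) (pfC_sound p15_13_2_79)) (pfC_sound p15_13_2_80)) (pfC_sound p15_13_2_81)) (by decide +kernel)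

def z15_13_2 : zOK yB15_13 (nat_lit 2) (nat_lit 600) (nat_lit 750) (nat_lit 6577802) (nat_lit 4764243) = true := by decide +kernel
def g15_13_2 : gOK yB15_13.x P15_13 (nat_lit 1428) (q15_13 :: r15_13) (nat_lit 2) (nat_lit 600) (nat_lit 3) (nat_lit 750) (nat_lit 12712500) (nat_lit 12712500) (nat_lit 12712500) (nat_lit 12712500) [(nat_lit 800), (nat_lit 1600)] = true := by decide +kernel
def v15_13_2 : ivC P15_13 s15_13 w15_13 n15_13 (nat_lit 4) (nat_lit 4870) (nat_lit 2) (nat_lit 600) f144_1_600 f152_1_600 (nat_lit 3) (nat_lit 750) f144_1_750 f152_1_750 (nat_lit 6577802) (nat_lit 4764243) p15_13_2 = true := by decide +kernel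
def p15_13_3 : PF := (PF.cons (PF.cons (PF.cons (PF.cons (PF.leaf (nat_lit 3106636) (nat_lit 20992034) (nat_lit 46116778) (nat_lit 20992034) [(nat_lit 0), (nat_lit 0), (nat_lit 0), (nat_lit 0)]) (PF.cons (PF.leaf (nat_lit 3218427) (nat_lit 188825) (nat_lit 45963657) (nat_lit 20956329) [(nat_lit 188825), (nat_lit 0), (nat_lit 0), (nat_lit 0)]) (PF.cons (PF.leaf (nat_lit 3353113) (nat_lit 205274) (nat_lit 45784197) (nat_lit 20914066) [(nat_lit 205274), (nat_lit 0), (nat_lit 0), (nat_lit 0)]) (PF.cons (PF.leaf (nat_lit 3504198) (nat_lit 219869) (nat_lit 45583032) (nat_lit 20866171) [(nat_lit 219869), (nat_lit 0), (nat_lit 0), (nat_lit 0)]) (PF.cons (PF.leaf (nat_lit 3669703) (nat_lit 233036) (nat_lit 45363406) (nat_lit 20813260) [(nat_lit 233036), (nat_lit 0), (nat_lit 0), (nat_lit 0)]) (PF.cons (PF.leaf (nat_lit 3847578) (nat_lit 245046) (nat_lit 45127795) (nat_lit 20755787) [(nat_lit 245046), (nat_lit 0), (nat_lit 0), (nat_lit 0)]) (PF.cons (PF.leaf (nat_lit 4036705)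 (nat_lit 256085) (nat_lit 44878188) (nat_lit 20694109) [(nat_lit 256085), (nat_lit 0), (nat_lit 0), (nat_lit 0)]) (PF.cons (PF.leaf (nat_lit 4235698) (nat_lit 266291) (nat_lit 44616252) (nat_lit 20628518) [(nat_lit 266291), (nat_lit 0),
 (nat_lit 0), (nat_lit 0)]) (PF.cons PF.nil (PF.cons PF.nil PF.nil)))))))))) (PF.cons (PF.cons (PF.leaf (nat_lit 3559798) (nat_lit 1040717) (nat_lit 45277750) (nat_lit 20790344) [(nat_lit 0), (nat_lit 1040717), (nat_lit 0), (nat_lit 0)]) (PF.cons (PF.leaf (nat_lit 3707583) (nat_lit 230497) (nat_lit 45074940) (nat_lit 20740647) [(nat_lit 230497), (nat_lit 1062727), (nat_lit 0), (nat_lit 0)]) (PF.cons (PF.leaf (nat_lit 3872319) (nat_lit 243028) (nat_lit 44852675) (nat_lit 20685569) [(nat_lit 243028), (nat_lit 1084510), (nat_lit 0), (nat_lit 0)]) (PF.cons (PF.leaf (nat_lit 4050078) (nat_lit 254403) (nat_lit 44614140) (nat_lit 20625756) [(nat_lit 254403), (nat_lit 1105704), (nat_lit 0), (nat_lit 0)]) (PF.cons (PF.leaf (nat_lit 4239037)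 (nat_lit 264833) (nat_lit 44361694) (nat_lit 20561669) [(nat_lit 264833), (nat_lit 1126114), (nat_lit 0), (nat_lit 0)]) (PF.cons (PF.leaf (nat_lit 4437968) (nat_lit 274461) (nat_lit 44097197) (nat_lit 20493665) [(nat_lit 274461), (nat_lit 1145641), (nat_lit 0), (nat_lit 0)]) (PF.cons (PF.leaf (nat_lit 4645799) (nat_lit 283392) (nat_lit 43822184) (nat_lit 20422035) [(nat_lit 283392), (nat_lit 1164240), (nat_lit 0), (nat_lit 0)]) (PF.cons PF.nil (PF.cons
 PF.nil PF.nil))))))))) (PF.cons (PF.cons (PF.leaf (nat_lit 4079371) (nat_lit 1115195) (nat_lit 44327656) (nat_lit 20550766) [(nat_lit 0), (nat_lit 1115195), (nat_lit 0), (nat_lit 0)]) (PF.cons (PF.leaf (nat_lit 4254006) (nat_lit 262409) (nat_lit 44089313) (nat_lit 20489391) [(nat_lit 262409), (nat_lit 1133849), (nat_lit 0), (nat_lit 0)]) (PF.cons (PF.leaf (nat_lit 4441824) (nat_lit 272413) (nat_lit 43836480) (nat_lit 20423519) [(nat_lit 272413), (nat_lit 1151992), (nat_lit 0), (nat_lit 0)]) (PF.cons (PF.leaf (nat_lit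 4639886) (nat_lit 281605) (nat_lit 43571433) (nat_lit 20353624) [(nat_lit 281605), (nat_lit 1169469), (nat_lit 0), (nat_lit 0)]) (PF.cons (PF.leaf (nat_lit 4846948) (nat_lit 290104) (nat_lit 43295935) (nat_lit 20280072) [(nat_lit 290104), (nat_lit 1186194), (nat_lit 0), (nat_lit 0)]) (PF.cons PF.nil (PF.cons PF.nil PF.nil))))))) (PF.cons (PF.cons (PF.leaf (nat_lit 4646928) (nat_lit 1175139) (nat_lit 43303536) (nat_lit 20279857) [(nat_lit 0), (nat_lit 1175139), (nat_lit 0), (nat_lit 0)]) (PF.cons (PF.leaf (nat_lit 4842004) (nat_lit 287814) (nat_lit 43040010) (nat_lit 20208651) [(nat_lit 287814), (nat_lit 1190778), (nat_lit 0), (nat_lit 0)]) (PF.cons (PF.leaf (nat_lit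
 5047537) (nat_lit 295984) (nat_lit 42765713) (nat_lit 20133660) [(nat_lit 295984), (nat_lit 1205823), (nat_lit 0), (nat_lit 0)]) (PF.cons (PF.leaf (nat_lit 5261219) (nat_lit 303539) (nat_lit 42482326) (nat_lit 20055256) [(nat_lit 303539), (nat_lit 1220204), (nat_lit 0), (nat_lit 0)]) (PF.cons PF.nil PF.nil))))) (PF.cons (PF.cons (PF.leaf (nat_lit 5249029) (nat_lit 1223400) (nat_lit 42232205) (nat_lit 19983005) [(nat_lit 0), (nat_lit 1223400), (nat_lit 0), (nat_lit 0)]) (PF.cons (PF.leaf (nat_lit 5459658) (nat_lit 308382) (nat_lit 41951389) (nat_lit 19903569) [(nat_lit 308382), (nat_lit 1236367), (nat_lit 0), (nat_lit 0)]) (PF.cons PF.nil (PF.cons PF.nil PF.nil)))) (PF.cons (PF.cons (PF.leaf (nat_lit 5875245) (nat_lit 1261970) (nat_lit 41133973) (nat_lit 19664988) [(nat_lit 0), (nat_lit 1261970), (nat_lit 0), (nat_lit 0)]) (PF.cons PF.nil PF.nil)) (PF.cons PF.nil (PF.cons PF.nil PF.nil)))))))) (PF.cons (PF.cons (PF.cons (PF.leaf (nat_lit 4049380) (nat_lit 2805318)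 (nat_lit 43880210) (nat_lit 20423284) [(nat_lit 0), (nat_lit 0), (nat_lit 2805318), (nat_lit 0)]) (PF.cons (PF.leaf (nat_lit 4204785) (nat_lit 247610) (nat_lit 43669650) (nat_lit 20368016) [(nat_lit 247610), (nat_lit 0),
 (nat_lit 2823535), (nat_lit 0)]) (PF.cons (PF.leaf (nat_lit 4376465) (nat_lit 259493) (nat_lit 43440506) (nat_lit 20307258) [(nat_lit 259493), (nat_lit 0), (nat_lit 2842061), (nat_lit 0)]) (PF.cons (PF.leaf (nat_lit 4560411) (nat_lit 270129) (nat_lit 43196179) (nat_lit 20241777) [(nat_lit 270129), (nat_lit 0), (nat_lit 2860467), (nat_lit 0)]) (PF.cons (PF.leaf (nat_lit 4754987) (nat_lit 279772) (nat_lit 42939135) (nat_lit 20172119) [(nat_lit 279772), (nat_lit 0), (nat_lit 2878467), (nat_lit 0)]) (PF.cons (PF.leaf (nat_lit 4958692) (nat_lit 288593) (nat_lit 42671283) (nat_lit 20098702) [(nat_lit 288593), (nat_lit 0), (nat_lit 2895861), (nat_lit 0)]) (PF.cons PF.nil (PF.cons PF.nil (PF.cons PF.nil PF.nil))))))))) (PF.cons (PF.cons (PF.leaf (nat_lit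 4581715) (nat_lit 1161507) (nat_lit 42912779) (nat_lit 20162745) [(nat_lit 0), (nat_lit 1161507), (nat_lit 2871781), (nat_lit 0)]) (PF.cons (PF.leaf (nat_lit 4761690) (nat_lit 276422) (nat_lit 42670894) (nat_lit 20096388) [(nat_lit 276422), (nat_lit 1177325), (nat_lit 2887782), (nat_lit 0)]) (PF.cons (PF.leaf (nat_lit 4954147) (nat_lit 285754) (nat_lit 42415554) (nat_lit 20025600) [(nat_lit 285754), (nat_lit 1192638), (nat_lit 2903509),
 (nat_lit 0)]) (PF.cons (PF.leaf (nat_lit 5156182) (nat_lit 294242) (nat_lit 42149090) (nat_lit 19950924) [(nat_lit 294242), (nat_lit 1207327), (nat_lit 2918743), (nat_lit 0)]) (PF.cons (PF.leaf (nat_lit 5366529) (nat_lit 302022) (nat_lit 41873284) (nat_lit 19872771) [(nat_lit 302022), (nat_lit 1221329), (nat_lit 2933335), (nat_lit 0)]) (PF.cons PF.nil (PF.cons PF.nil PF.nil))))))) (PF.cons (PF.cons (PF.leaf (nat_lit 5155386) (nat_lit 1210809) (nat_lit 41887309) (nat_lit 19874561) [(nat_lit 0), (nat_lit 1210809), (nat_lit 2925323),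 (nat_lit 0)]) (PF.cons (PF.leaf (nat_lit 5353770) (nat_lit 299104) (nat_lit 41624011) (nat_lit 19799176) [(nat_lit 299104), (nat_lit 1223982), (nat_lit 2938554), (nat_lit 0)]) (PF.cons (PF.leaf (nat_lit 5561940) (nat_lit 306635) (nat_lit 41350934) (nat_lit 19720167) [(nat_lit 306635), (nat_lit 1236597), (nat_lit 2951243), (nat_lit 0)]) (PF.cons (PF.leaf (nat_lit 5777643) (nat_lit 313543) (nat_lit 41069753) (nat_lit 19637944) [(nat_lit 313543), (nat_lit 1248602), (nat_lit 2963279), (nat_lit 0)]) (PF.cons PF.nil PF.nil))))) (PF.cons (PF.cons (PF.leaf (nat_lit 5758065) (nat_lit 1250213) (nat_lit 40827486) (nat_lit 19564200) [(nat_lit 0), (nat_lit 1250213),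
 (nat_lit 2966484), (nat_lit 0)]) (PF.cons (PF.leaf (nat_lit 5970234) (nat_lit 317295) (nat_lit 40550079) (nat_lit 19481480) [(nat_lit 317295), (nat_lit 1261039), (nat_lit 2976840), (nat_lit 0)]) (PF.cons PF.nil (PF.cons PF.nil PF.nil)))) (PF.cons (PF.cons (PF.leaf (nat_lit 6380359) (nat_lit 1281328) (nat_lit 39750875) (nat_lit 19236334) [(nat_lit 0), (nat_lit 1281328), (nat_lit 2996290), (nat_lit 0)]) (PF.cons PF.nil PF.nil)) (PF.cons PF.nil PF.nil)))))) (PF.cons (PF.cons (PF.cons (PF.leaf (nat_lit 5077041) (nat_lit 2914545) (nat_lit 41520837) (nat_lit 19758883) [(nat_lit 0), (nat_lit 0), (nat_lit 2914545), (nat_lit 0)]) (PF.cons (PF.leaf (nat_lit 5260850) (nat_lit 287706) (nat_lit 41278614) (nat_lit 19688664) [(nat_lit 287706), (nat_lit 0), (nat_lit 2926913), (nat_lit 0)]) (PF.cons (PF.leaf (nat_lit 5456491) (nat_lit 296440) (nat_lit 41023893) (nat_lit 19614118) [(nat_lit 296440), (nat_lit 0), (nat_lit 2938959), (nat_lit 0)]) (PF.cons (PF.leaf (nat_lit 5661106)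 (nat_lit 304307) (nat_lit 40759019) (nat_lit 19535840) [(nat_lit 304307), (nat_lit 0), (nat_lit 2950514), (nat_lit 0)]) (PF.cons (PF.leaf (nat_lit 5873419) (nat_lit 311460) (nat_lit 40485761) (nat_lit 19454278) [(nat_lit
 311460), (nat_lit 0), (nat_lit 2961464), (nat_lit 0)]) PF.nil))))) (PF.cons (PF.cons (PF.leaf (nat_lit 5653085) (nat_lit 1237433) (nat_lit 40505248) (nat_lit 19457984) [(nat_lit 0), (nat_lit 1237433), (nat_lit 2954072), (nat_lit 0)]) (PF.cons (PF.leaf (nat_lit 5853537) (nat_lit 308062) (nat_lit 40244730) (nat_lit 19379521) [(nat_lit 308062), (nat_lit 1248551), (nat_lit 2963973), (nat_lit 0)]) (PF.cons (PF.leaf (nat_lit 6063173) (nat_lit 315029) (nat_lit 39975309) (nat_lit 19297607) [(nat_lit 315029), (nat_lit 1259138), (nat_lit 2973349), (nat_lit 0)]) (PF.cons PF.nil PF.nil)))) (PF.cons (PF.cons (PF.leaf (nat_lit 6253557) (nat_lit 1269528) (nat_lit 39465343) (nat_lit 19138326) [(nat_lit 0), (nat_lit 1269528), (nat_lit 2983042), (nat_lit 0)])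 (PF.cons (PF.leaf (nat_lit 6466281) (nat_lit 324213) (nat_lit 39193297) (nat_lit 19053358) [(nat_lit 324213), (nat_lit 1278552), (nat_lit 2990419), (nat_lit 0)]) PF.nil)) (PF.cons PF.nil (PF.cons PF.nil PF.nil))))) (PF.cons (PF.cons (PF.cons (PF.leaf (nat_lit 6138832) (nat_lit 2969609) (nat_lit 39164906) (nat_lit 19035076) [(nat_lit 0), (nat_lit 0), (nat_lit 2969609), (nat_lit 0)]) (PF.cons (PF.leaf (nat_lit 6340305) (nat_lit 315090) (nat_lit
 38909021) (nat_lit 18954486) [(nat_lit 315090), (nat_lit 0), (nat_lit 2976737), (nat_lit 0)]) (PF.cons (PF.leaf (nat_lit 6550462) (nat_lit 321553) (nat_lit 38645009) (nat_lit 18870623) [(nat_lit 321553), (nat_lit 0), (nat_lit 2983357), (nat_lit 0)]) (PF.cons PF.nil PF.nil)))) (PF.cons (PF.cons (PF.leaf (nat_lit 6734883) (nat_lit 1282725) (nat_lit 38150799) (nat_lit 18709694) [(nat_lit 0), (nat_lit 1282725), (nat_lit 2988531), (nat_lit 0)]) (PF.cons PF.nil PF.nil)) (PF.cons PF.nil PF.nil))) (PF.cons (PF.cons (PF.cons (PF.leaf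 (nat_lit 7201762) (nat_lit 2985061) (nat_lit 36886756) (nat_lit 18281809) [(nat_lit 0), (nat_lit 0), (nat_lit 2985061), (nat_lit 0)]) (PF.cons PF.nil PF.nil)) (PF.cons PF.nil PF.nil)) (PF.cons PF.nil PF.nil)))))) (PF.cons (PF.cons (PF.cons (PF.cons (PF.leaf (nat_lit 4846437) (nat_lit 7282282) (nat_lit 40448271) (nat_lit 19378259) [(nat_lit 0), (nat_lit 0), (nat_lit 0), (nat_lit 7282282)]) (PF.cons (PF.leaf (nat_lit 5002391) (nat_lit 255973) (nat_lit 40251820) (nat_lit 19319996) [(nat_lit 255973), (nat_lit 0), (nat_lit 0), (nat_lit 7281022)]) (PF.cons (PF.leaf (nat_lit 5173858) (nat_lit 267396) (nat_lit 40038726) (nat_lit 19256308) [(nat_lit 267396), (nat_lit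
 0), (nat_lit 0), (nat_lit 7278985)]) (PF.cons (PF.leaf (nat_lit 5356839) (nat_lit 277471) (nat_lit 39812245) (nat_lit 19188067) [(nat_lit 277471), (nat_lit 0), (nat_lit 0), (nat_lit 7276084)]) (PF.cons (PF.leaf (nat_lit 5549563) (nat_lit 286484) (nat_lit 39574726) (nat_lit 19115894) [(nat_lit 286484), (nat_lit 0), (nat_lit 0), (nat_lit 7272254)]) (PF.cons (PF.leaf (nat_lit 5750674) (nat_lit 294626) (nat_lit 39327972) (nat_lit 19040263) [(nat_lit 294626), (nat_lit 0), (nat_lit 0), (nat_lit 7267446)]) (PF.cons (PF.leaf (nat_lit 5959085) (nat_lit 302034) (nat_lit 39073424) (nat_lit 18961553) [(nat_lit 302034), (nat_lit 0), (nat_lit 0), (nat_lit 7261627)]) (PF.cons PF.nil (PF.cons PF.nil PF.nil))))))))) (PF.cons (PF.cons (PF.leaf (nat_lit 5369060) (nat_lit 1179227) (nat_lit 39554327) (nat_lit 19107679) [(nat_lit 0), (nat_lit 1179227), (nat_lit 0), (nat_lit 7267579)]) (PF.cons (PF.leaf (nat_lit 5547340) (nat_lit 282340) (nat_lit 39331389) (nat_lit 19039319) [(nat_lit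 282340), (nat_lit 1192501), (nat_lit 0), (nat_lit 7263261)]) (PF.cons (PF.leaf (nat_lit 5737283) (nat_lit 291080) (nat_lit 39096684) (nat_lit 18966772) [(nat_lit 291080), (nat_lit 1205202), (nat_lit 0), (nat_lit 7257992)])
 (PF.cons (PF.leaf (nat_lit 5936036) (nat_lit 298928) (nat_lit 38852399) (nat_lit 18890636) [(nat_lit 298928), (nat_lit 1217247), (nat_lit 0), (nat_lit 7251742)]) (PF.cons (PF.leaf (nat_lit 6142332) (nat_lit 306040) (nat_lit 38600189) (nat_lit 18811364) [(nat_lit 306040), (nat_lit 1228604), (nat_lit 0), (nat_lit 7244490)]) (PF.cons PF.nil (PF.cons PF.nil PF.nil))))))) (PF.cons (PF.cons (PF.leaf (nat_lit 5926575) (nat_lit 1218492) (nat_lit 38616395) (nat_lit 18814504) [(nat_lit 0), (nat_lit 1218492), (nat_lit 0), (nat_lit 7240927)]) (PF.cons (PF.leaf (nat_lit 6121098) (nat_lit 302536) (nat_lit 38376037) (nat_lit 18738369) [(nat_lit 302536), (nat_lit 1229242), (nat_lit 0), (nat_lit 7233384)]) (PF.cons (PF.leaf (nat_lit 6324693) (nat_lit 309440)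 (nat_lit 38127301) (nat_lit 18658943) [(nat_lit 309440), (nat_lit 1239424), (nat_lit 0), (nat_lit 7224837)]) (PF.cons (PF.leaf (nat_lit 6535113) (nat_lit 315704) (nat_lit 37871727) (nat_lit 18576662) [(nat_lit 315704), (nat_lit 1249009), (nat_lit 0), (nat_lit 7215290)]) (PF.cons PF.nil PF.nil))))) (PF.cons (PF.cons (PF.leaf (nat_lit 6507706) (nat_lit 1248915) (nat_lit 37654894) (nat_lit 18504378) [(nat_lit 0), (nat_lit 1248915), (nat_lit 0),
 (nat_lit 7202792)]) (PF.cons (PF.leaf (nat_lit 6714193) (nat_lit 318368) (nat_lit 37403552) (nat_lit 18422240) [(nat_lit 318368), (nat_lit 1257517), (nat_lit 0), (nat_lit 7192099)]) (PF.cons PF.nil (PF.cons PF.nil PF.nil)))) (PF.cons (PF.cons (PF.leaf (nat_lit 7104165) (nat_lit 1272143) (nat_lit 36684386) (nat_lit 18181762) [(nat_lit 0), (nat_lit 1272143), (nat_lit 0), (nat_lit 7154090)]) (PF.cons PF.nil PF.nil)) (PF.cons PF.nil PF.nil)))))) (PF.cons (PF.cons (PF.cons (PF.leaf (nat_lit 5835410) (nat_lit 2895603) (nat_lit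 38296118) (nat_lit 18703847) [(nat_lit 0), (nat_lit 0), (nat_lit 2895603), (nat_lit 7213243)]) (PF.cons (PF.leaf (nat_lit 6016080) (nat_lit 290839) (nat_lit 38075012) (nat_lit 18633196) [(nat_lit 290839), (nat_lit 0), (nat_lit 2903858), (nat_lit 7205906)]) (PF.cons (PF.leaf (nat_lit 6207880) (nat_lit 299016) (nat_lit 37842980) (nat_lit 18558505) [(nat_lit 299016), (nat_lit 0), (nat_lit 2911732), (nat_lit 7197562)]) (PF.cons (PF.leaf (nat_lit 6407958) (nat_lit 306296) (nat_lit 37602186) (nat_lit 18480403) [(nat_lit 306296), (nat_lit 0), (nat_lit 2919109), (nat_lit 7188224)]) (PF.cons (PF.leaf (nat_lit 6615050) (nat_lit 312844) (nat_lit 37354250) (nat_lit 18399360)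
 [(nat_lit 312844), (nat_lit 0), (nat_lit 2925918), (nat_lit 7177903)]) PF.nil))))) (PF.cons (PF.cons (PF.leaf (nat_lit 6392266) (nat_lit 1235355) (nat_lit 37374894) (nat_lit 18404232) [(nat_lit 0), (nat_lit 1235355), (nat_lit 2919311), (nat_lit 7175019)]) (PF.cons (PF.leaf (nat_lit 6587773) (nat_lit 309001) (nat_lit 37138804) (nat_lit 18326529) [(nat_lit 309001), (nat_lit 1244415), (nat_lit 2925409), (nat_lit 7164651)]) (PF.cons (PF.leaf (nat_lit 6791814) (nat_lit 315400) (nat_lit 36895059) (nat_lit 18245712) [(nat_lit 315400), (nat_lit 1252943), (nat_lit 2931004), (nat_lit 7153292)]) (PF.cons PF.nil PF.nil)))) (PF.cons (PF.cons (PF.leaf (nat_lit 6969181) (nat_lit 1259950) (nat_lit 36437340) (nat_lit 18090469) [(nat_lit 0), (nat_lit 1259950), (nat_lit 2934428), (nat_lit 7126674)]) (PF.cons (PF.leaf (nat_lit 7175419) (nat_lit 323103) (nat_lit 36192194) (nat_lit 18007463) [(nat_lit 323103), (nat_lit 1267098), (nat_lit 2938406), (nat_lit 7113447)]) PF.nil)) (PF.cons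 PF.nil (PF.cons PF.nil PF.nil))))) (PF.cons (PF.cons (PF.cons (PF.leaf (nat_lit 6846071) (nat_lit 2919736) (nat_lit 36176831) (nat_lit 17994226) [(nat_lit 0), (nat_lit 0), (nat_lit 2919736), (nat_lit 7098281)]) (PF.cons
 (PF.leaf (nat_lit 7041783) (nat_lit 313962) (nat_lit 35946153) (nat_lit 17915644) [(nat_lit 313962), (nat_lit 0), (nat_lit 2923737), (nat_lit 7085576)]) (PF.cons (PF.leaf (nat_lit 7245590) (nat_lit 319911) (nat_lit 35708457) (nat_lit 17834120) [(nat_lit 319911), (nat_lit 0), (nat_lit 2927256), (nat_lit 7071899)]) (PF.cons PF.nil PF.nil)))) (PF.cons (PF.cons (PF.leaf (nat_lit 7417262) (nat_lit 1266445) (nat_lit 35266578) (nat_lit 17679318) [(nat_lit 0), (nat_lit 1266445), (nat_lit 2927411), (nat_lit 7041647)]) (PF.cons PF.nil PF.nil)) (PF.cons PF.nil PF.nil))) (PF.cons (PF.cons (PF.cons (PF.leaf (nat_lit 7851965) (nat_lit 2914143) (nat_lit 34143470) (nat_lit 17273130) [(nat_lit 0), (nat_lit 0), (nat_lit 2914143), (nat_lit 6949781)]) (PF.cons PF.nil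 PF.nil)) (PF.cons PF.nil PF.nil)) (PF.cons PF.nil PF.nil))))) (PF.cons (PF.cons (PF.cons (PF.cons (PF.leaf (nat_lit 6527265) (nat_lit 6983715) (nat_lit 35443778) (nat_lit 17697602) [(nat_lit 0), (nat_lit 0), (nat_lit 0), (nat_lit 6983715)]) (PF.cons (PF.leaf (nat_lit 6703884) (nat_lit 290735) (nat_lit 35243297) (nat_lit 17628650) [(nat_lit 290735), (nat_lit 0), (nat_lit 0), (nat_lit 6973064)]) (PF.cons (PF.leaf (nat_lit 6891027) (nat_lit
 298416) (nat_lit 35033217) (nat_lit 17555964) [(nat_lit 298416), (nat_lit 0), (nat_lit 0), (nat_lit 6961398)]) (PF.cons (PF.leaf (nat_lit 7085858) (nat_lit 305190) (nat_lit 34815512) (nat_lit 17480174) [(nat_lit 305190), (nat_lit 0), (nat_lit 0), (nat_lit 6948777)]) (PF.cons PF.nil PF.nil))))) (PF.cons (PF.cons (PF.leaf (nat_lit 7064217) (nat_lit 1222252) (nat_lit 34612707) (nat_lit 17407459) [(nat_lit 0), (nat_lit 1222252), (nat_lit 0), (nat_lit 6933197)]) (PF.cons (PF.leaf (nat_lit 7254250) (nat_lit 307111) (nat_lit 34399692)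 (nat_lit 17332427) [(nat_lit 307111), (nat_lit 1229747), (nat_lit 0), (nat_lit 6919917)]) (PF.cons (PF.leaf (nat_lit 7452268) (nat_lit 313031) (nat_lit 34180025) (nat_lit 17254585) [(nat_lit 313031), (nat_lit 1236719), (nat_lit 0), (nat_lit 6905709)]) (PF.cons PF.nil PF.nil)))) (PF.cons (PF.cons (PF.leaf (nat_lit 7618034) (nat_lit 1241302) (nat_lit 33770275) (nat_lit 17106485) [(nat_lit 0), (nat_lit 1241302), (nat_lit 0), (nat_lit 6874722)]) (PF.cons PF.nil PF.nil)) PF.nil))) (PF.cons (PF.cons (PF.cons (PF.leaf (nat_lit 7489459) (nat_lit 2853840) (nat_lit 33544177) (nat_lit 17018088) [(nat_lit 0), (nat_lit 0), (nat_lit 2853840), (nat_lit 6846353)]) (PF.cons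
 (PF.leaf (nat_lit 7679119) (nat_lit 310584) (nat_lit 33336678) (nat_lit 16942953) [(nat_lit 310584), (nat_lit 0), (nat_lit 2855672), (nat_lit 6831461)]) (PF.cons PF.nil PF.nil))) (PF.cons (PF.cons (PF.leaf (nat_lit 8036910) (nat_lit 1243210) (nat_lit 32728273) (nat_lit 16718709) [(nat_lit 0), (nat_lit 1243210), (nat_lit 2853889), (nat_lit 6782365)]) PF.nil) PF.nil)) (PF.cons PF.nil PF.nil))) (PF.cons (PF.cons (PF.cons (PF.cons (PF.leaf (nat_lit 8078890) (nat_lit 6591791) (nat_lit 31220801) (nat_lit 16112637) [(nat_lit 0), (nat_lit 0), (nat_lit 0), (nat_lit 6591791)]) (PF.cons (PF.leaf (nat_lit 8262560) (nat_lit 305788) (nat_lit 31034092) (nat_lit 16041629) [(nat_lit 305788), (nat_lit 0), (nat_lit 0), (nat_lit 6575767)]) PF.nil)) (PF.cons PF.nil PF.nil)) (PF.cons PF.nil PF.nil)) (PF.cons PF.nil (PF.cons PF.nil (PF.cons PF.nil (PF.cons PF.nil PF.nil))))))))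

def p15_13_3_0 : pfC (piC [(nat_lit 42686981), (nat_lit 26736489), (nat_lit 19877745), (nat_lit 13394109)] (nat_lit 4764243)) p15_13_3 (nat_lit 4) (nat_lit 0) (nat_lit 1) = true := by decide +kernel
def p15_13_3_1 : pfC (piC [(nat_lit 42686981), (nat_lit 26736489), (nat_lit 19877745), (nat_lit 13394109)] (nat_lit 4764243)) p15_13_3 (nat_lit 4) (nat_lit 1) (nat_lit 2) = true := by decide +kernel
def p15_13_3_2 : pfC (piC [(nat_lit 42686981), (nat_lit 26736489), (nat_lit 19877745), (nat_lit 13394109)] (nat_lit 4764243)) p15_13_3 (nat_lit 4) (nat_lit 2) (nat_lit 3) = true := by decide +kernel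
def p15_13_3_3 : pfC (piC [(nat_lit 42686981), (nat_lit 26736489), (nat_lit 19877745), (nat_lit 13394109)] (nat_lit 4764243)) p15_13_3 (nat_lit 4) (nat_lit 3) (nat_lit 4) = true := by decide +kernel
def p15_13_3_4 : pfC (piC [(nat_lit 42686981), (nat_lit 26736489), (nat_lit 19877745), (nat_lit 13394109)] (nat_lit 4764243)) p15_13_3 (nat_lit 4) (nat_lit 4) (nat_lit 5) = true := by decide +kernel
def p15_13_3_5 : pfC (piC [(nat_lit 42686981), (nat_lit 26736489), (nat_lit 19877745), (nat_lit 13394109)] (nat_lit 4764243)) p15_13_3 (nat_lit 4) (nat_lit 5) (nat_lit 6) = true := by decide +kernel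
def p15_13_3_6 : pfC (piC [(nat_lit 42686981), (nat_lit 26736489), (nat_lit 19877745), (nat_lit 13394109)] (nat_lit 4764243)) p15_13_3 (nat_lit 4) (nat_lit 6) (nat_lit 7) = true := by decide +kernel
def p15_13_3_7 : pfC (piC [(nat_lit 42686981), (nat_lit 26736489), (nat_lit 19877745), (nat_lit 13394109)] (nat_lit 4764243)) p15_13_3 (nat_lit 4) (nat_lit 7) (nat_lit 8) = true := by decide +kernel
def p15_13_3_8 : pfC (piC [(nat_lit 42686981), (nat_lit 26736489), (nat_lit 19877745), (nat_lit 13394109)] (nat_lit 4764243)) p15_13_3 (nat_lit 4) (nat_lit 8) (nat_lit 9) = true := by decide +kernel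
def p15_13_3_9 : pfC (piC [(nat_lit 42686981), (nat_lit 26736489), (nat_lit 19877745), (nat_lit 13394109)] (nat_lit 4764243)) p15_13_3 (nat_lit 4) (nat_lit 9) (nat_lit 10) = true := by decide +kernel
def p15_13_3_10 : pfC (piC [(nat_lit 42686981), (nat_lit 26736489), (nat_lit 19877745), (nat_lit 13394109)] (nat_lit 4764243)) p15_13_3 (nat_lit 4) (nat_lit 10) (nat_lit 11) = true := by decide +kernel
def p15_13_3_11 : pfC (piC [(nat_lit 42686981), (nat_lit 26736489), (nat_lit 19877745), (nat_lit 13394109)] (nat_lit 4764243)) p15_13_3 (nat_lit 4) (nat_lit 11) (nat_lit 12) = true := by decide +kernel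
def p15_13_3_12 : pfC (piC [(nat_lit 42686981), (nat_lit 26736489), (nat_lit 19877745), (nat_lit 13394109)] (nat_lit 4764243)) p15_13_3 (nat_lit 4) (nat_lit 12) (nat_lit 13) = true := by decide +kernel
def p15_13_3_13 : pfC (piC [(nat_lit 42686981), (nat_lit 26736489), (nat_lit 19877745), (nat_lit 13394109)] (nat_lit 4764243)) p15_13_3 (nat_lit 4) (nat_lit 13) (nat_lit 14) = true := by decide +kernel
def p15_13_3_14 : pfC (piC [(nat_lit 42686981), (nat_lit 26736489), (nat_lit 19877745), (nat_lit 13394109)] (nat_lit 4764243)) p15_13_3 (nat_lit 4) (nat_lit 14) (nat_lit 15) = true := by decide +kernel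
def p15_13_3_15 : pfC (piC [(nat_lit 42686981), (nat_lit 26736489), (nat_lit 19877745), (nat_lit 13394109)] (nat_lit 4764243)) p15_13_3 (nat_lit 4) (nat_lit 15) (nat_lit 16) = true := by decide +kernel
def p15_13_3_16 : pfC (piC [(nat_lit 42686981), (nat_lit 26736489), (nat_lit 19877745), (nat_lit 13394109)] (nat_lit 4764243)) p15_13_3 (nat_lit 4) (nat_lit 16) (nat_lit 17) = true := by decide +kernel
def p15_13_3_17 : pfC (piC [(nat_lit 42686981), (nat_lit 26736489), (nat_lit 19877745), (nat_lit 13394109)] (nat_lit 4764243)) p15_13_3 (nat_lit 4) (nat_lit 17) (nat_lit 18) = true := by decide +kernel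
def p15_13_3_18 : pfC (piC [(nat_lit 42686981), (nat_lit 26736489), (nat_lit 19877745), (nat_lit 13394109)] (nat_lit 4764243)) p15_13_3 (nat_lit 4) (nat_lit 18) (nat_lit 19) = true := by decide +kernel
def p15_13_3_19 : pfC (piC [(nat_lit 42686981), (nat_lit 26736489), (nat_lit 19877745), (nat_lit 13394109)] (nat_lit 4764243)) p15_13_3 (nat_lit 4) (nat_lit 19) (nat_lit 20) = true := by decide +kernel
def p15_13_3_20 : pfC (piC [(nat_lit 42686981), (nat_lit 26736489), (nat_lit 19877745), (nat_lit 13394109)] (nat_lit 4764243)) p15_13_3 (nat_lit 4) (nat_lit 20) (nat_lit 21) = true := by decide +kernel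
def p15_13_3_21 : pfC (piC [(nat_lit 42686981), (nat_lit 26736489), (nat_lit 19877745), (nat_lit 13394109)] (nat_lit 4764243)) p15_13_3 (nat_lit 4) (nat_lit 21) (nat_lit 22) = true := by decide +kernel
def p15_13_3_22 : pfC (piC [(nat_lit 42686981), (nat_lit 26736489), (nat_lit 19877745), (nat_lit 13394109)] (nat_lit 4764243)) p15_13_3 (nat_lit 4) (nat_lit 22) (nat_lit 23) = true := by decide +kernel
def p15_13_3_23 : pfC (piC [(nat_lit 42686981), (nat_lit 26736489), (nat_lit 19877745), (nat_lit 13394109)] (nat_lit 4764243)) p15_13_3 (nat_lit 4) (nat_lit 23) (nat_lit 24) = true := by decide +kernel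
def p15_13_3_24 : pfC (piC [(nat_lit 42686981), (nat_lit 26736489), (nat_lit 19877745), (nat_lit 13394109)] (nat_lit 4764243)) p15_13_3 (nat_lit 4) (nat_lit 24) (nat_lit 25) = true := by decide +kernel
def p15_13_3_25 : pfC (piC [(nat_lit 42686981), (nat_lit 26736489), (nat_lit 19877745), (nat_lit 13394109)] (nat_lit 4764243)) p15_13_3 (nat_lit 4) (nat_lit 25) (nat_lit 26) = true := by decide +kernel
def p15_13_3_26 : pfC (piC [(nat_lit 42686981), (nat_lit 26736489), (nat_lit 19877745), (nat_lit 13394109)] (nat_lit 4764243)) p15_13_3 (nat_lit 4) (nat_lit 26) (nat_lit 27) = true := by decide +kernel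
def p15_13_3_27 : pfC (piC [(nat_lit 42686981), (nat_lit 26736489), (nat_lit 19877745), (nat_lit 13394109)] (nat_lit 4764243)) p15_13_3 (nat_lit 4) (nat_lit 27) (nat_lit 28) = true := by decide +kernel
def p15_13_3_28 : pfC (piC [(nat_lit 42686981), (nat_lit 26736489), (nat_lit 19877745), (nat_lit 13394109)] (nat_lit 4764243)) p15_13_3 (nat_lit 4) (nat_lit 28) (nat_lit 29) = true := by decide +kernel
def p15_13_3_29 : pfC (piC [(nat_lit 42686981), (nat_lit 26736489), (nat_lit 19877745), (nat_lit 13394109)] (nat_lit 4764243)) p15_13_3 (nat_lit 4) (nat_lit 29) (nat_lit 30) = true := by decide +kernel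
def p15_13_3_30 : pfC (piC [(nat_lit 42686981), (nat_lit 26736489), (nat_lit 19877745), (nat_lit 13394109)] (nat_lit 4764243)) p15_13_3 (nat_lit 4) (nat_lit 30) (nat_lit 31) = true := by decide +kernel
def p15_13_3_31 : pfC (piC [(nat_lit 42686981), (nat_lit 26736489), (nat_lit 19877745), (nat_lit 13394109)] (nat_lit 4764243)) p15_13_3 (nat_lit 4) (nat_lit 31) (nat_lit 32) = true := by decide +kernel
def p15_13_3_32 : pfC (piC [(nat_lit 42686981), (nat_lit 26736489), (nat_lit 19877745), (nat_lit 13394109)] (nat_lit 4764243)) p15_13_3 (nat_lit 4) (nat_lit 32) (nat_lit 33) = true := by decide +kernel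
def p15_13_3_33 : pfC (piC [(nat_lit 42686981), (nat_lit 26736489), (nat_lit 19877745), (nat_lit 13394109)] (nat_lit 4764243)) p15_13_3 (nat_lit 4) (nat_lit 33) (nat_lit 34) = true := by decide +kernel
def p15_13_3_34 : pfC (piC [(nat_lit 42686981), (nat_lit 26736489), (nat_lit 19877745), (nat_lit 13394109)] (nat_lit 4764243)) p15_13_3 (nat_lit 4) (nat_lit 34) (nat_lit 35) = true := by decide +kernel
def p15_13_3_35 : pfC (piC [(nat_lit 42686981), (nat_lit 26736489), (nat_lit 19877745), (nat_lit 13394109)] (nat_lit 4764243)) p15_13_3 (nat_lit 4) (nat_lit 35) (nat_lit 36) = true := by decide +kernel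
def p15_13_3_36 : pfC (piC [(nat_lit 42686981), (nat_lit 26736489), (nat_lit 19877745), (nat_lit 13394109)] (nat_lit 4764243)) p15_13_3 (nat_lit 4) (nat_lit 36) (nat_lit 37) = true := by decide +kernel
def p15_13_3_37 : pfC (piC [(nat_lit 42686981), (nat_lit 26736489), (nat_lit 19877745), (nat_lit 13394109)] (nat_lit 4764243)) p15_13_3 (nat_lit 4) (nat_lit 37) (nat_lit 38) = true := by decide +kernel
def p15_13_3_38 : pfC (piC [(nat_lit 42686981), (nat_lit 26736489), (nat_lit 19877745), (nat_lit 13394109)] (nat_lit 4764243)) p15_13_3 (nat_lit 4) (nat_lit 38) (nat_lit 39) = true := by decide +kernel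
def p15_13_3_39 : pfC (piC [(nat_lit 42686981), (nat_lit 26736489), (nat_lit 19877745), (nat_lit 13394109)] (nat_lit 4764243)) p15_13_3 (nat_lit 4) (nat_lit 39) (nat_lit 40) = true := by decide +kernel
def p15_13_3_40 : pfC (piC [(nat_lit 42686981), (nat_lit 26736489), (nat_lit 19877745), (nat_lit 13394109)] (nat_lit 4764243)) p15_13_3 (nat_lit 4) (nat_lit 40) (nat_lit 41) = true := by decide +kernel
def p15_13_3_41 : pfC (piC [(nat_lit 42686981), (nat_lit 26736489), (nat_lit 19877745), (nat_lit 13394109)] (nat_lit 4764243)) p15_13_3 (nat_lit 4) (nat_lit 41) (nat_lit 42) = true := by decide +kernel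
def p15_13_3_42 : pfC (piC [(nat_lit 42686981), (nat_lit 26736489), (nat_lit 19877745), (nat_lit 13394109)] (nat_lit 4764243)) p15_13_3 (nat_lit 4) (nat_lit 42) (nat_lit 43) = true := by decide +kernel
def p15_13_3_43 : pfC (piC [(nat_lit 42686981), (nat_lit 26736489), (nat_lit 19877745), (nat_lit 13394109)] (nat_lit 4764243)) p15_13_3 (nat_lit 4) (nat_lit 43) (nat_lit 44) = true := by decide +kernel
def p15_13_3_44 : pfC (piC [(nat_lit 42686981), (nat_lit 26736489), (nat_lit 19877745), (nat_lit 13394109)] (nat_lit 4764243)) p15_13_3 (nat_lit 4) (nat_lit 44) (nat_lit 45) = true := by decide +kernel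
def p15_13_3_45 : pfC (piC [(nat_lit 42686981), (nat_lit 26736489), (nat_lit 19877745), (nat_lit 13394109)] (nat_lit 4764243)) p15_13_3 (nat_lit 4) (nat_lit 45) (nat_lit 46) = true := by decide +kernel
def p15_13_3_46 : pfC (piC [(nat_lit 42686981), (nat_lit 26736489), (nat_lit 19877745), (nat_lit 13394109)] (nat_lit 4764243)) p15_13_3 (nat_lit 4) (nat_lit 46) (nat_lit 47) = true := by decide +kernel
def p15_13_3_47 : pfC (piC [(nat_lit 42686981), (nat_lit 26736489), (nat_lit 19877745), (nat_lit 13394109)] (nat_lit 4764243)) p15_13_3 (nat_lit 4) (nat_lit 47) (nat_lit 48) = true := by decide +kernel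
def p15_13_3_48 : pfC (piC [(nat_lit 42686981), (nat_lit 26736489), (nat_lit 19877745), (nat_lit 13394109)] (nat_lit 4764243)) p15_13_3 (nat_lit 4) (nat_lit 48) (nat_lit 49) = true := by decide +kernel
def p15_13_3_49 : pfC (piC [(nat_lit 42686981), (nat_lit 26736489), (nat_lit 19877745), (nat_lit 13394109)] (nat_lit 4764243)) p15_13_3 (nat_lit 4) (nat_lit 49) (nat_lit 50) = true := by decide +kernel
def p15_13_3_50 : pfC (piC [(nat_lit 42686981), (nat_lit 26736489), (nat_lit 19877745), (nat_lit 13394109)] (nat_lit 4764243)) p15_13_3 (nat_lit 4) (nat_lit 50) (nat_lit 51) = true := by decide +kernel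
def p15_13_3_51 : pfC (piC [(nat_lit 42686981), (nat_lit 26736489), (nat_lit 19877745), (nat_lit 13394109)] (nat_lit 4764243)) p15_13_3 (nat_lit 4) (nat_lit 51) (nat_lit 52) = true := by decide +kernel
def p15_13_3_52 : pfC (piC [(nat_lit 42686981), (nat_lit 26736489), (nat_lit 19877745), (nat_lit 13394109)] (nat_lit 4764243)) p15_13_3 (nat_lit 4) (nat_lit 52) (nat_lit 53) = true := by decide +kernel
def p15_13_3_53 : pfC (piC [(nat_lit 42686981), (nat_lit 26736489), (nat_lit 19877745), (nat_lit 13394109)] (nat_lit 4764243)) p15_13_3 (nat_lit 4) (nat_lit 53) (nat_lit 54) = true := by decide +kernel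
def p15_13_3_54 : pfC (piC [(nat_lit 42686981), (nat_lit 26736489), (nat_lit 19877745), (nat_lit 13394109)] (nat_lit 4764243)) p15_13_3 (nat_lit 4) (nat_lit 54) (nat_lit 55) = true := by decide +kernel
def p15_13_3_55 : pfC (piC [(nat_lit 42686981), (nat_lit 26736489), (nat_lit 19877745), (nat_lit 13394109)] (nat_lit 4764243)) p15_13_3 (nat_lit 4) (nat_lit 55) (nat_lit 56) = true := by decide +kernel
def p15_13_3_56 : pfC (piC [(nat_lit 42686981), (nat_lit 26736489), (nat_lit 19877745), (nat_lit 13394109)] (nat_lit 4764243)) p15_13_3 (nat_lit 4) (nat_lit 56) (nat_lit 57) = true := by decide +kernel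
def p15_13_3_57 : pfC (piC [(nat_lit 42686981), (nat_lit 26736489), (nat_lit 19877745), (nat_lit 13394109)] (nat_lit 4764243)) p15_13_3 (nat_lit 4) (nat_lit 57) (nat_lit 58) = true := by decide +kernel
def p15_13_3_58 : pfC (piC [(nat_lit 42686981), (nat_lit 26736489), (nat_lit 19877745), (nat_lit 13394109)] (nat_lit 4764243)) p15_13_3 (nat_lit 4) (nat_lit 58) (nat_lit 59) = true := by decide +kernel
def p15_13_3_59 : pfC (piC [(nat_lit 42686981), (nat_lit 26736489), (nat_lit 19877745), (nat_lit 13394109)] (nat_lit 4764243)) p15_13_3 (nat_lit 4) (nat_lit 59) (nat_lit 60) = true := by decide +kernel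
def p15_13_3_60 : pfC (piC [(nat_lit 42686981), (nat_lit 26736489), (nat_lit 19877745), (nat_lit 13394109)] (nat_lit 4764243)) p15_13_3 (nat_lit 4) (nat_lit 60) (nat_lit 61) = true := by decide +kernel
def p15_13_3_61 : pfC (piC [(nat_lit 42686981), (nat_lit 26736489), (nat_lit 19877745), (nat_lit 13394109)] (nat_lit 4764243)) p15_13_3 (nat_lit 4) (nat_lit 61) (nat_lit 62) = true := by decide +kernel
def p15_13_3_62 : pfC (piC [(nat_lit 42686981), (nat_lit 26736489), (nat_lit 19877745), (nat_lit 13394109)] (nat_lit 4764243)) p15_13_3 (nat_lit 4) (nat_lit 62) (nat_lit 63) = true := by decide +kernel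
def p15_13_3_63 : pfC (piC [(nat_lit 42686981), (nat_lit 26736489), (nat_lit 19877745), (nat_lit 13394109)] (nat_lit 4764243)) p15_13_3 (nat_lit 4) (nat_lit 63) (nat_lit 64) = true := by decide +kernel
def p15_13_3_64 : pfC (piC [(nat_lit 42686981), (nat_lit 26736489), (nat_lit 19877745), (nat_lit 13394109)] (nat_lit 4764243)) p15_13_3 (nat_lit 4) (nat_lit 64) (nat_lit 65) = true := by decide +kernel
def p15_13_3_65 : pfC (piC [(nat_lit 42686981), (nat_lit 26736489), (nat_lit 19877745), (nat_lit 13394109)] (nat_lit 4764243)) p15_13_3 (nat_lit 4) (nat_lit 65) (nat_lit 66) = true := by decide +kernel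
def p15_13_3_66 : pfC (piC [(nat_lit 42686981), (nat_lit 26736489), (nat_lit 19877745), (nat_lit 13394109)] (nat_lit 4764243)) p15_13_3 (nat_lit 4) (nat_lit 66) (nat_lit 67) = true := by decide +kernel
def p15_13_3_67 : pfC (piC [(nat_lit 42686981), (nat_lit 26736489), (nat_lit 19877745), (nat_lit 13394109)] (nat_lit 4764243)) p15_13_3 (nat_lit 4) (nat_lit 67) (nat_lit 68) = true := by decide +kernel
def p15_13_3_68 : pfC (piC [(nat_lit 42686981), (nat_lit 26736489), (nat_lit 19877745), (nat_lit 13394109)] (nat_lit 4764243)) p15_13_3 (nat_lit 4) (nat_lit 68) (nat_lit 69) = true := by decide +kernel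
def p15_13_3_69 : pfC (piC [(nat_lit 42686981), (nat_lit 26736489), (nat_lit 19877745), (nat_lit 13394109)] (nat_lit 4764243)) p15_13_3 (nat_lit 4) (nat_lit 69) (nat_lit 70) = true := by decide +kernel
def p15_13_3_70 : pfC (piC [(nat_lit 42686981), (nat_lit 26736489), (nat_lit 19877745), (nat_lit 13394109)] (nat_lit 4764243)) p15_13_3 (nat_lit 4) (nat_lit 70) (nat_lit 71) = true := by decide +kernel
def p15_13_3_71 : pfC (piC [(nat_lit 42686981), (nat_lit 26736489), (nat_lit 19877745), (nat_lit 13394109)] (nat_lit 4764243)) p15_13_3 (nat_lit 4) (nat_lit 71) (nat_lit 72) = true := by decide +kernel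
def p15_13_3_72 : pfC (piC [(nat_lit 42686981), (nat_lit 26736489), (nat_lit 19877745), (nat_lit 13394109)] (nat_lit 4764243)) p15_13_3 (nat_lit 4) (nat_lit 72) (nat_lit 73) = true := by decide +kernel
def p15_13_3_73 : pfC (piC [(nat_lit 42686981), (nat_lit 26736489), (nat_lit 19877745), (nat_lit 13394109)] (nat_lit 4764243)) p15_13_3 (nat_lit 4) (nat_lit 73) (nat_lit 74) = true := by decide +kernel
def p15_13_3_74 : pfC (piC [(nat_lit 42686981), (nat_lit 26736489), (nat_lit 19877745), (nat_lit 13394109)] (nat_lit 4764243)) p15_13_3 (nat_lit 4) (nat_lit 74) (nat_lit 75) = true := by decide +kernel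
def p15_13_3_75 : pfC (piC [(nat_lit 42686981), (nat_lit 26736489), (nat_lit 19877745), (nat_lit 13394109)] (nat_lit 4764243)) p15_13_3 (nat_lit 4) (nat_lit 75) (nat_lit 76) = true := by decide +kernel
def p15_13_3_76 : pfC (piC [(nat_lit 42686981), (nat_lit 26736489), (nat_lit 19877745), (nat_lit 13394109)] (nat_lit 4764243)) p15_13_3 (nat_lit 4) (nat_lit 76) (nat_lit 77) = true := by decide +kernel
def p15_13_3_77 : pfC (piC [(nat_lit 42686981), (nat_lit 26736489), (nat_lit 19877745), (nat_lit 13394109)] (nat_lit 4764243)) p15_13_3 (nat_lit 4) (nat_lit 77) (nat_lit 78) = true := by decide +kernel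
def p15_13_3_78 : pfC (piC [(nat_lit 42686981), (nat_lit 26736489), (nat_lit 19877745), (nat_lit 13394109)] (nat_lit 4764243)) p15_13_3 (nat_lit 4) (nat_lit 78) (nat_lit 79) = true := by decide +kernel
def p15_13_3_79 : pfC (piC [(nat_lit 42686981), (nat_lit 26736489), (nat_lit 19877745), (nat_lit 13394109)] (nat_lit 4764243)) p15_13_3 (nat_lit 4) (nat_lit 79) (nat_lit 80) = true := by decide +kernel
def p15_13_3_80 : pfC (piC [(nat_lit 42686981), (nat_lit 26736489), (nat_lit 19877745), (nat_lit 13394109)] (nat_lit 4764243)) p15_13_3 (nat_lit 4) (nat_lit 80) (nat_lit 81) = true := by decide +kernel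
def p15_13_3_81 : pfC (piC [(nat_lit 42686981), (nat_lit 26736489), (nat_lit 19877745), (nat_lit 13394109)] (nat_lit 4764243)) p15_13_3 (nat_lit 4) (nat_lit 81) (nat_lit 82) = true := by decide +kernel
def p15_13_3_82 : pfC (piC [(nat_lit 42686981), (nat_lit 26736489), (nat_lit 19877745), (nat_lit 13394109)] (nat_lit 4764243)) p15_13_3 (nat_lit 4) (nat_lit 82) (nat_lit 83) = true := by decide +kernel
def p15_13_3_83 : pfC (piC [(nat_lit 42686981), (nat_lit 26736489), (nat_lit 19877745), (nat_lit 13394109)] (nat_lit 4764243)) p15_13_3 (nat_lit 4) (nat_lit 83) (nat_lit 84) = true := by decide +kernel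
def p15_13_3_84 : pfC (piC [(nat_lit 42686981), (nat_lit 26736489), (nat_lit 19877745), (nat_lit 13394109)] (nat_lit 4764243)) p15_13_3 (nat_lit 4) (nat_lit 84) (nat_lit 85) = true := by decide +kernel
def p15_13_3_85 : pfC (piC [(nat_lit 42686981), (nat_lit 26736489), (nat_lit 19877745), (nat_lit 13394109)] (nat_lit 4764243)) p15_13_3 (nat_lit 4) (nat_lit 85) (nat_lit 86) = true := by decide +kernel
def p15_13_3_86 : pfC (piC [(nat_lit 42686981), (nat_lit 26736489), (nat_lit 19877745), (nat_lit 13394109)] (nat_lit 4764243)) p15_13_3 (nat_lit 4) (nat_lit 86) (nat_lit 87) = true := by decide +kernel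
def p15_13_3_87 : pfC (piC [(nat_lit 42686981), (nat_lit 26736489), (nat_lit 19877745), (nat_lit 13394109)] (nat_lit 4764243)) p15_13_3 (nat_lit 4) (nat_lit 87) (nat_lit 88) = true := by decide +kernel
def p15_13_3_88 : pfC (piC [(nat_lit 42686981), (nat_lit 26736489), (nat_lit 19877745), (nat_lit 13394109)] (nat_lit 4764243)) p15_13_3 (nat_lit 4) (nat_lit 88) (nat_lit 89) = true := by decide +kernel
def p15_13_3_89 : pfC (piC [(nat_lit 42686981), (nat_lit 26736489), (nat_lit 19877745), (nat_lit 13394109)] (nat_lit 4764243)) p15_13_3 (nat_lit 4) (nat_lit 89) (nat_lit 90) = true := by decide +kernel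
def p15_13_3_90 : pfC (piC [(nat_lit 42686981), (nat_lit 26736489), (nat_lit 19877745), (nat_lit 13394109)] (nat_lit 4764243)) p15_13_3 (nat_lit 4) (nat_lit 90) (nat_lit 91) = true := by decide +kernel
def p15_13_3_91 : pfC (piC [(nat_lit 42686981), (nat_lit 26736489), (nat_lit 19877745), (nat_lit 13394109)] (nat_lit 4764243)) p15_13_3 (nat_lit 4) (nat_lit 91) (nat_lit 92) = true := by decide +kernel
def p15_13_3_92 : pfC (piC [(nat_lit 42686981), (nat_lit 26736489), (nat_lit 19877745), (nat_lit 13394109)] (nat_lit 4764243)) p15_13_3 (nat_lit 4) (nat_lit 92) (nat_lit 93) = true := by decide +kernel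
def p15_13_3_93 : pfC (piC [(nat_lit 42686981), (nat_lit 26736489), (nat_lit 19877745), (nat_lit 13394109)] (nat_lit 4764243)) p15_13_3 (nat_lit 4) (nat_lit 93) (nat_lit 94) = true := by decide +kernel
def p15_13_3_94 : pfC (piC [(nat_lit 42686981), (nat_lit 26736489), (nat_lit 19877745), (nat_lit 13394109)] (nat_lit 4764243)) p15_13_3 (nat_lit 4) (nat_lit 94) (nat_lit 95) = true := by decide +kernel
def p15_13_3_95 : pfC (piC [(nat_lit 42686981), (nat_lit 26736489), (nat_lit 19877745), (nat_lit 13394109)] (nat_lit 4764243)) p15_13_3 (nat_lit 4) (nat_lit 95) (nat_lit 96) = true := by decide +kernel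
def p15_13_3_96 : pfC (piC [(nat_lit 42686981), (nat_lit 26736489), (nat_lit 19877745), (nat_lit 13394109)] (nat_lit 4764243)) p15_13_3 (nat_lit 4) (nat_lit 96) (nat_lit 97) = true := by decide +kernel
def p15_13_3_97 : pfC (piC [(nat_lit 42686981), (nat_lit 26736489), (nat_lit 19877745), (nat_lit 13394109)] (nat_lit 4764243)) p15_13_3 (nat_lit 4) (nat_lit 97) (nat_lit 98) = true := by decide +kernel
def p15_13_3_98 : pfC (piC [(nat_lit 42686981), (nat_lit 26736489), (nat_lit 19877745), (nat_lit 13394109)] (nat_lit 4764243)) p15_13_3 (nat_lit 4) (nat_lit 98) (nat_lit 99) = true := by decide +kernel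
def p15_13_3_99 : pfC (piC [(nat_lit 42686981), (nat_lit 26736489), (nat_lit 19877745), (nat_lit 13394109)] (nat_lit 4764243)) p15_13_3 (nat_lit 4) (nat_lit 99) (nat_lit 100) = true := by decide +kernel
def p15_13_3_100 : pfC (piC [(nat_lit 42686981), (nat_lit 26736489), (nat_lit 19877745), (nat_lit 13394109)] (nat_lit 4764243)) p15_13_3 (nat_lit 4) (nat_lit 100) (nat_lit 101) = true := by decide +kernel
def p15_13_3_101 : pfC (piC [(nat_lit 42686981), (nat_lit 26736489), (nat_lit 19877745), (nat_lit 13394109)] (nat_lit 4764243)) p15_13_3 (nat_lit 4) (nat_lit 101) (nat_lit 102) = true := by decide +kernel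
def p15_13_3_102 : pfC (piC [(nat_lit 42686981), (nat_lit 26736489), (nat_lit 19877745), (nat_lit 13394109)] (nat_lit 4764243)) p15_13_3 (nat_lit 4) (nat_lit 102) (nat_lit 103) = true := by decide +kernel
def p15_13_3_103 : pfC (piC [(nat_lit 42686981), (nat_lit 26736489), (nat_lit 19877745), (nat_lit 13394109)] (nat_lit 4764243)) p15_13_3 (nat_lit 4) (nat_lit 103) (nat_lit 104) = true := by decide +kernel
def p15_13_3_104 : pfC (piC [(nat_lit 42686981), (nat_lit 26736489), (nat_lit 19877745), (nat_lit 13394109)] (nat_lit 4764243)) p15_13_3 (nat_lit 4) (nat_lit 104) (nat_lit 105) = true := by decide +kernel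
def p15_13_3_105 : pfC (piC [(nat_lit 42686981), (nat_lit 26736489), (nat_lit 19877745), (nat_lit 13394109)] (nat_lit 4764243)) p15_13_3 (nat_lit 4) (nat_lit 105) (nat_lit 106) = true := by decide +kernel
def p15_13_3_106 : pfC (piC [(nat_lit 42686981), (nat_lit 26736489), (nat_lit 19877745), (nat_lit 13394109)] (nat_lit 4764243)) p15_13_3 (nat_lit 4) (nat_lit 106) (nat_lit 107) = true := by decide +kernel
theorem p15_13_3_T : PfS (PiF n15_13.reverse (nat_lit 4764243)) p15_13_3 (nat_lit 4) [] 0 :=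
  pftab_of (los := [(nat_lit 42686981), (nat_lit 26736489), (nat_lit 19877745), (nat_lit 13394109)]) (by decide +kernel) (hi := (nat_lit 107)) (PfP.trans (PfP.trans (PfP.trans (PfP.trans (PfP.trans (PfP.trans (PfP.trans (PfP.trans (PfP.trans (PfP.trans (PfP.trans (PfP.trans (PfP.trans (PfP.trans (PfP.trans (PfP.trans (PfP.trans (PfP.trans (PfP.trans (PfP.trans (PfP.trans (PfP.trans (PfP.trans (PfP.trans (PfP.trans (PfP.trans (PfP.trans (PfP.trans (PfP.trans (PfP.trans (PfP.trans (PfP.trans (PfP.trans (PfP.trans (PfP.trans (PfP.trans (PfP.trans (PfP.trans (PfP.trans (PfP.trans (PfP.trans (PfP.trans (PfP.trans (PfP.trans (PfP.trans (PfP.trans (PfP.trans (PfP.trans (PfP.trans (PfP.trans (PfP.trans (PfP.trans (PfP.trans (PfP.trans (PfP.trans (PfP.trans (PfP.trans (PfP.trans (PfP.trans (PfP.trans (PfP.trans (PfP.trans (PfP.trans (PfP.trans (PfP.trans (PfP.trans (PfP.trans (PfP.trans (PfP.trans (PfP.trans (PfP.trans (PfP.trans (PfP.trans (PfP.trans (PfP.trans (PfP.trans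 (PfP.trans (PfP.trans (PfP.trans (PfP.trans (PfP.trans (PfP.trans (PfP.trans (PfP.trans (PfP.trans (PfP.trans (PfP.trans (PfP.trans (PfP.trans (PfP.trans (PfP.trans (PfP.trans (PfP.trans (PfP.trans (PfP.trans (PfP.trans (PfP.trans (PfP.trans (PfP.trans (PfP.trans (PfP.trans (PfP.trans (PfP.trans (PfP.trans (PfP.trans (PfP.trans (pfC_sound p15_13_3_0) (pfC_sound
 p15_13_3_1)) (pfC_sound p15_13_3_2)) (pfC_sound p15_13_3_3)) (pfC_sound p15_13_3_4)) (pfC_sound p15_13_3_5)) (pfC_sound p15_13_3_6)) (pfC_sound p15_13_3_7)) (pfC_sound p15_13_3_8)) (pfC_sound p15_13_3_9)) (pfC_sound p15_13_3_10)) (pfC_sound p15_13_3_11)) (pfC_sound p15_13_3_12)) (pfC_sound p15_13_3_13)) (pfC_sound p15_13_3_14)) (pfC_sound p15_13_3_15)) (pfC_sound p15_13_3_16)) (pfC_sound p15_13_3_17)) (pfC_sound p15_13_3_18)) (pfC_sound p15_13_3_19)) (pfC_sound p15_13_3_20)) (pfC_sound p15_13_3_21)) (pfC_sound p15_13_3_22)) (pfC_sound p15_13_3_23)) (pfC_sound p15_13_3_24)) (pfC_sound p15_13_3_25)) (pfC_sound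 p15_13_3_26)) (pfC_sound p15_13_3_27)) (pfC_sound p15_13_3_28)) (pfC_sound p15_13_3_29)) (pfC_sound p15_13_3_30)) (pfC_sound p15_13_3_31)) (pfC_sound p15_13_3_32)) (pfC_sound p15_13_3_33)) (pfC_sound p15_13_3_34)) (pfC_sound p15_13_3_35)) (pfC_sound p15_13_3_36)) (pfC_sound p15_13_3_37)) (pfC_sound p15_13_3_38)) (pfC_sound p15_13_3_39)) (pfC_sound p15_13_3_40)) (pfC_sound p15_13_3_41)) (pfC_sound p15_13_3_42)) (pfC_sound p15_13_3_43)) (pfC_sound p15_13_3_44)) (pfC_sound p15_13_3_45)) (pfC_sound p15_13_3_46)) (pfC_sound p15_13_3_47)) (pfC_sound p15_13_3_48)) (pfC_sound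
 p15_13_3_49)) (pfC_sound p15_13_3_50)) (pfC_sound p15_13_3_51)) (pfC_sound p15_13_3_52)) (pfC_sound p15_13_3_53)) (pfC_sound p15_13_3_54)) (pfC_sound p15_13_3_55)) (pfC_sound p15_13_3_56)) (pfC_sound p15_13_3_57)) (pfC_sound p15_13_3_58)) (pfC_sound p15_13_3_59)) (pfC_sound p15_13_3_60)) (pfC_sound p15_13_3_61)) (pfC_sound p15_13_3_62)) (pfC_sound p15_13_3_63)) (pfC_sound p15_13_3_64)) (pfC_sound p15_13_3_65)) (pfC_sound p15_13_3_66)) (pfC_sound p15_13_3_67)) (pfC_sound p15_13_3_68)) (pfC_sound p15_13_3_69)) (pfC_sound p15_13_3_70)) (pfC_sound p15_13_3_71)) (pfC_sound p15_13_3_72)) (pfC_sound p15_13_3_73)) (pfC_sound p15_13_3_74)) (pfC_sound p15_13_3_75)) (pfC_sound p15_13_3_76)) (pfC_sound p15_13_3_77)) (pfC_sound p15_13_3_78)) (pfC_sound p15_13_3_79)) (pfC_sound p15_13_3_80)) (pfC_sound p15_13_3_81)) (pfC_sound p15_13_3_82)) (pfC_sound p15_13_3_83)) (pfC_sound p15_13_3_84)) (pfC_sound p15_13_3_85)) (pfC_sound p15_13_3_86)) (pfC_sound p15_13_3_87)) (pfC_sound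 p15_13_3_88)) (pfC_sound p15_13_3_89)) (pfC_sound p15_13_3_90)) (pfC_sound p15_13_3_91)) (pfC_sound p15_13_3_92)) (pfC_sound p15_13_3_93)) (pfC_sound p15_13_3_94)) (pfC_sound p15_13_3_95)) (pfC_sound p15_13_3_96)) (pfC_sound
 p15_13_3_97)) (pfC_sound p15_13_3_98)) (pfC_sound p15_13_3_99)) (pfC_sound p15_13_3_100)) (pfC_sound p15_13_3_101)) (pfC_sound p15_13_3_102)) (pfC_sound p15_13_3_103)) (pfC_sound p15_13_3_104)) (pfC_sound p15_13_3_105)) (pfC_sound p15_13_3_106)) (by decide +kernel)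

def z15_13_3 : zOK yB15_13 (nat_lit 3) (nat_lit 750) (nat_lit 896) (nat_lit 4764243) (nat_lit 3106097) = true := by decide +kernel
def g15_13_3 : gOK yB15_13.x P15_13 (nat_lit 1428) (q15_13 :: r15_13) (nat_lit 3) (nat_lit 750) (nat_lit 4) (nat_lit 896) (nat_lit 12712500) (nat_lit 12712500) (nat_lit 12712500) (nat_lit 12712500) [(nat_lit 800)] = true := by decide +kernel
def v15_13_3 : ivC P15_13 s15_13 w15_13 n15_13 (nat_lit 4) (nat_lit 4720) (nat_lit 3) (nat_lit 750) f144_1_750 f152_1_750 (nat_lit 4) (nat_lit 896) f144_1_896 f152_1_896 (nat_lit 4764243) (nat_lit 3106097) p15_13_3 = true := by decide +kernel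
/-! box `yB15_14` -/

def P15_14 : BQ := ⟨(nat_lit 8), (nat_lit 4), (nat_lit 4), (nat_lit 2), (nat_lit 6), (nat_lit 740), (nat_lit 750), (nat_lit 120), [(nat_lit 200), (nat_lit 300), (nat_lit 450), (nat_lit 800)], (nat_lit 91216000), (nat_lit 16000000), (nat_lit 16000000000)⟩
def q15_14 : PC := ⟨(nat_lit 1000), [(nat_lit 120000), (nat_lit 200000), (nat_lit 300000), (nat_lit 450000), (nat_lit 800000)], (nat_lit 340282367000166625996085689103316680705000000), (nat_lit 15908784000000), (nat_lit 15908784000000), (nat_lit 10000000)⟩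
def r15_14 : List PC := [⟨(nat_lit 1332), [(nat_lit 120598), (nat_lit 201143), (nat_lit 301601), (nat_lit 451749), (nat_lit 799911)], (nat_lit 342502369162514931004499972958858311157894780), (nat_lit 16335135477120), (nat_lit 16341223719680), (nat_lit 10057150)⟩, ⟨(nat_lit 1276), [(nat_lit 120492), (nat_lit 201014), (nat_lit 301299), (nat_lit 451461), (nat_lit 798549)], (nat_lit 342120232064386895758489049272330894302989420), (nat_lit 16262935276160), (nat_lit 16267996586240), (nat_lit 10050700)⟩]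
def s15_14 : List PB := [⟨(nat_lit 26640), (nat_lit 1929568000000), [(nat_lit 201143), (nat_lit 301601), (nat_lit 451749), (nat_lit 799911)], (nat_lit 342502369162514931004499972958858311157894780), (nat_lit 1142235042319744), (nat_lit 1142241130562304), (nat_lit 53120)⟩, ⟨(nat_lit 25520), (nat_lit 1927872000000), [(nat_lit 201014), (nat_lit 301299), (nat_lit 451461), (nat_lit 798549)], (nat_lit 342120232064386895758489049272330894302989420), (nat_lit 1142162842118784), (nat_lit 1142167903428864), (nat_lit 44160)⟩]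
def n15_14 : List KN := [⟨(nat_lit 800), (nat_lit 450), (nat_lit 13318063), (nat_lit 6558515)⟩, ⟨(nat_lit 450), (nat_lit 300), (nat_lit 19805017), (nat_lit 13318063)⟩, ⟨(nat_lit 300), (nat_lit 200), (nat_lit 26592602), (nat_lit 19805017)⟩, ⟨(nat_lit 200), (nat_lit 120), (nat_lit 41997052), (nat_lit 26592602)⟩]
def w15_14 : List ℕ := [(nat_lit 53120), (nat_lit 44160)]
def par15_14 : parC yB15_14 P15_14 s15_14 r15_14 q15_14 n15_14 w15_14 = true := by decide +kernel

def p15_14_0 : PF := (PF.cons (PF.cons (PF.cons (PF.cons (PF.leaf (nat_lit 671103) (nat_lit 2003296) (nat_lit 65105516) (nat_lit 2003296) [(nat_lit 0), (nat_lit 0), (nat_lit 0), (nat_lit 0)]) (PF.cons (PF.leaf (nat_lit 776921) (nat_lit 161324) (nat_lit 64901024) (nat_lit 2046463) [(nat_lit 161324), (nat_lit 0), (nat_lit 0), (nat_lit 0)]) (PF.cons (PF.leaf (nat_lit 908801) (nat_lit 178229) (nat_lit 64657541) (nat_lit 2094813) [(nat_lit 178229), (nat_lit 0), (nat_lit 0), (nat_lit 0)]) (PF.cons (PF.leaf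 (nat_lit 1059849) (nat_lit 194111) (nat_lit 64380041) (nat_lit 2146437) [(nat_lit 194111), (nat_lit 0), (nat_lit 0), (nat_lit 0)]) (PF.cons (PF.leaf (nat_lit 1228485) (nat_lit 209218) (nat_lit 64071930) (nat_lit 2200008) [(nat_lit 209218), (nat_lit 0), (nat_lit 0), (nat_lit 0)]) (PF.cons (PF.leaf (nat_lit 1413482) (nat_lit 223688) (nat_lit 63735816) (nat_lit 2254553) [(nat_lit 223688), (nat_lit 0), (nat_lit 0), (nat_lit 0)]) (PF.cons (PF.leaf (nat_lit 1613802) (nat_lit 237600) (nat_lit 63373870) (nat_lit 2309341) [(nat_lit 237600), (nat_lit 0), (nat_lit 0), (nat_lit 0)]) (PF.cons (PF.leaf (nat_lit 1828489) (nat_lit 251000) (nat_lit 62987996) (nat_lit 2363811) [(nat_lit 251000), (nat_lit 0), (nat_lit 0),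
 (nat_lit 0)]) (PF.cons PF.nil (PF.cons PF.nil PF.nil)))))))))) (PF.cons (PF.cons (PF.leaf (nat_lit 1127217) (nat_lit 918702) (nat_lit 63988897) (nat_lit 2201213) [(nat_lit 0), (nat_lit 918702), (nat_lit 0), (nat_lit 0)]) (PF.cons (PF.leaf (nat_lit 1278692) (nat_lit 209850) (nat_lit 63699860) (nat_lit 2247951) [(nat_lit 209850), (nat_lit 951150), (nat_lit 0), (nat_lit 0)]) (PF.cons (PF.leaf (nat_lit 1451124) (nat_lit 224547) (nat_lit 63378437) (nat_lit 2296861) [(nat_lit 224547), (nat_lit 984418), (nat_lit 0), (nat_lit 0)]) (PF.cons (PF.leaf (nat_lit 1640274) (nat_lit 238542) (nat_lit 63028419) (nat_lit 2346872) [(nat_lit 238542), (nat_lit 1017892), (nat_lit 0), (nat_lit 0)]) (PF.cons (PF.leaf (nat_lit 1844711) (nat_lit 251944) (nat_lit 62652645) (nat_lit 2397216) [(nat_lit 251944), (nat_lit 1051172), (nat_lit 0), (nat_lit 0)]) (PF.cons (PF.leaf (nat_lit 2063506) (nat_lit 264815) (nat_lit 62253434) (nat_lit 2447320) [(nat_lit 264815), (nat_lit 1083981), (nat_lit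 0), (nat_lit 0)]) (PF.cons PF.nil (PF.cons PF.nil (PF.cons PF.nil PF.nil))))))))) (PF.cons (PF.cons (PF.leaf (nat_lit 1683292) (nat_lit 1038147) (nat_lit 62645510) (nat_lit 2387007) [(nat_lit 0), (nat_lit 1038147), (nat_lit
 0), (nat_lit 0)]) (PF.cons (PF.leaf (nat_lit 1872884) (nat_lit 252059) (nat_lit 62286903) (nat_lit 2432470) [(nat_lit 252059), (nat_lit 1068689), (nat_lit 0), (nat_lit 0)]) (PF.cons (PF.leaf (nat_lit 2079949) (nat_lit 265064) (nat_lit 61901716) (nat_lit 2478451) [(nat_lit 265064), (nat_lit 1099257), (nat_lit 0), (nat_lit 0)]) (PF.cons (PF.leaf (nat_lit 2301296) (nat_lit 277491) (nat_lit 61492984) (nat_lit 2524324) [(nat_lit 277491), (nat_lit 1129514), (nat_lit 0), (nat_lit 0)]) (PF.cons (PF.leaf (nat_lit 2535901) (nat_lit 289395) (nat_lit 61063146) (nat_lit 2569628) [(nat_lit 289395), (nat_lit 1159228), (nat_lit 0), (nat_lit 0)]) (PF.cons PF.nil (PF.cons PF.nil PF.nil))))))) (PF.cons (PF.cons (PF.leaf (nat_lit 2320820) (nat_lit 1143927) (nat_lit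 61123482) (nat_lit 2553547) [(nat_lit 0), (nat_lit 1143927), (nat_lit 0), (nat_lit 0)]) (PF.cons (PF.leaf (nat_lit 2542133) (nat_lit 289072) (nat_lit 60709278) (nat_lit 2595284) [(nat_lit 289072), (nat_lit 1171725), (nat_lit 0), (nat_lit 0)]) (PF.cons (PF.leaf (nat_lit 2777923) (nat_lit 300572) (nat_lit 60273718) (nat_lit 2636601) [(nat_lit 300572), (nat_lit 1199115), (nat_lit 0), (nat_lit 0)]) (PF.cons (PF.leaf (nat_lit 3025865) (nat_lit
 311555) (nat_lit 59819319) (nat_lit 2677125) [(nat_lit 311555), (nat_lit 1225900), (nat_lit 0), (nat_lit 0)]) (PF.cons PF.nil PF.nil))))) (PF.cons (PF.cons (PF.leaf (nat_lit 3022738) (nat_lit 1236025) (nat_lit 59466656) (nat_lit 2698053) [(nat_lit 0), (nat_lit 1236025), (nat_lit 0), (nat_lit 0)]) (PF.cons (PF.leaf (nat_lit 3269776) (nat_lit 321361) (nat_lit 59009889) (nat_lit 2734852) [(nat_lit 321361), (nat_lit 1260677), (nat_lit 0), (nat_lit 0)]) (PF.cons PF.nil (PF.cons PF.nil PF.nil)))) (PF.cons (PF.cons (PF.leaf (nat_lit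 3773301) (nat_lit 1314801) (nat_lit 57714870) (nat_lit 2819935) [(nat_lit 0), (nat_lit 1314801), (nat_lit 0), (nat_lit 0)]) (PF.cons PF.nil PF.nil)) (PF.cons PF.nil (PF.cons PF.nil PF.nil)))))))) (PF.cons (PF.cons (PF.cons (PF.leaf (nat_lit 1709527) (nat_lit 2419414) (nat_lit 61939715) (nat_lit 2419414) [(nat_lit 0), (nat_lit 0), (nat_lit 2749682), (nat_lit 0)]) (PF.cons (PF.leaf (nat_lit 1878289) (nat_lit 241510) (nat_lit 61617973) (nat_lit 2458701) [(nat_lit 241510), (nat_lit 0), (nat_lit 2790627), (nat_lit 0)]) (PF.cons (PF.leaf (nat_lit 2067239) (nat_lit 255893) (nat_lit 61264209) (nat_lit 2499550) [(nat_lit 255893), (nat_lit 0), (nat_lit 2833266),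
 (nat_lit 0)]) (PF.cons (PF.leaf (nat_lit 2272209) (nat_lit 269324) (nat_lit 60883112) (nat_lit 2541067) [(nat_lit 269324), (nat_lit 0), (nat_lit 2876658), (nat_lit 0)]) (PF.cons (PF.leaf (nat_lit 2491735) (nat_lit 281982) (nat_lit 60478126) (nat_lit 2582623) [(nat_lit 281982), (nat_lit 0), (nat_lit 2920133), (nat_lit 0)]) (PF.cons (PF.leaf (nat_lit 2724313) (nat_lit 293976) (nat_lit 60051986) (nat_lit 2623754) [(nat_lit 293976), (nat_lit 0), (nat_lit 2963189), (nat_lit 0)]) (PF.cons PF.nil (PF.cons PF.nil (PF.cons PF.nil PF.nil))))))))) (PF.cons (PF.cons (PF.leaf (nat_lit 2305335) (nat_lit 1142976) (nat_lit 60484703) (nat_lit 2571611) [(nat_lit 0), (nat_lit 1142976), (nat_lit 2909521), (nat_lit 0)]) (PF.cons (PF.leaf (nat_lit 2508998) (nat_lit 280496) (nat_lit 60100865) (nat_lit 2609175) [(nat_lit 280496), (nat_lit 1169518), (nat_lit 2948757), (nat_lit 0)]) (PF.cons (PF.leaf (nat_lit 2728928) (nat_lit 292814) (nat_lit 59692091) (nat_lit 2646952) [(nat_lit 292814),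 (nat_lit 1195901), (nat_lit 2988238), (nat_lit 0)]) (PF.cons (PF.leaf (nat_lit 2962303) (nat_lit 304420) (nat_lit 59261854) (nat_lit 2684429) [(nat_lit 304420), (nat_lit 1221851), (nat_lit 3027416), (nat_lit 0)])
 (PF.cons (PF.leaf (nat_lit 3207671) (nat_lit 315405) (nat_lit 58812882) (nat_lit 2721233) [(nat_lit 315405), (nat_lit 1247184), (nat_lit 3065892), (nat_lit 0)]) (PF.cons PF.nil (PF.cons PF.nil PF.nil))))))) (PF.cons (PF.cons (PF.leaf (nat_lit 2970260) (nat_lit 1232322) (nat_lit 58887264) (nat_lit 2706120) [(nat_lit 0), (nat_lit 1232322), (nat_lit 3050783), (nat_lit 0)]) (PF.cons (PF.leaf (nat_lit 3201931) (nat_lit 313877) (nat_lit 58456533) (nat_lit 2740029) [(nat_lit 313877), (nat_lit 1256103), (nat_lit 3086164), (nat_lit 0)]) (PF.cons (PF.leaf (nat_lit 3446893) (nat_lit 324515) (nat_lit 58006615) (nat_lit 2773402) [(nat_lit 324515), (nat_lit 1279393), (nat_lit 3120976), (nat_lit 0)]) (PF.cons PF.nil (PF.cons PF.nil PF.nil))))) (PF.cons (PF.cons (PF.leaf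 (nat_lit 3687756) (nat_lit 1309061) (nat_lit 57189697) (nat_lit 2820916) [(nat_lit 0), (nat_lit 1309061), (nat_lit 3171015), (nat_lit 0)]) (PF.cons (PF.leaf (nat_lit 3941519) (nat_lit 342458) (nat_lit 56725072) (nat_lit 2850259) [(nat_lit 342458), (nat_lit 1329835), (nat_lit 3201516), (nat_lit 0)]) (PF.cons PF.nil (PF.cons PF.nil PF.nil)))) (PF.cons (PF.cons (PF.leaf (nat_lit 4443315) (nat_lit 1373728) (nat_lit 55428270) (nat_lit
 2915784) [(nat_lit 0), (nat_lit 1373728), (nat_lit 3269844), (nat_lit 0)]) (PF.cons PF.nil PF.nil)) (PF.cons PF.nil PF.nil)))))) (PF.cons (PF.cons (PF.cons (PF.leaf (nat_lit 2932256) (nat_lit 2714507) (nat_lit 58271152) (nat_lit 2714507) [(nat_lit 0), (nat_lit 0), (nat_lit 3061576), (nat_lit 0)]) (PF.cons (PF.leaf (nat_lit 3146176) (nat_lit 304114) (nat_lit 57872566) (nat_lit 2745267) [(nat_lit 304114), (nat_lit 0), (nat_lit 3093432), (nat_lit 0)]) (PF.cons (PF.leaf (nat_lit 3375426) (nat_lit 315728) (nat_lit 57450828) (nat_lit 2775997)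 [(nat_lit 315728), (nat_lit 0), (nat_lit 3125264), (nat_lit 0)]) (PF.cons (PF.leaf (nat_lit 3617104) (nat_lit 326528) (nat_lit 57009680) (nat_lit 2806282) [(nat_lit 326528), (nat_lit 0), (nat_lit 3156632), (nat_lit 0)]) (PF.cons (PF.leaf (nat_lit 3869814) (nat_lit 336634) (nat_lit 56552013) (nat_lit 2835825) [(nat_lit 336634), (nat_lit 0), (nat_lit 3187217), (nat_lit 0)]) PF.nil))))) (PF.cons (PF.cons (PF.leaf (nat_lit 3613980) (nat_lit 1302267) (nat_lit 56637862) (nat_lit 2821913) [(nat_lit 0), (nat_lit 1302267), (nat_lit 3173384), (nat_lit 0)]) (PF.cons (PF.leaf (nat_lit 3852686) (nat_lit 334137) (nat_lit 56200109) (nat_lit 2849113) [(nat_lit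
 334137), (nat_lit 1322504), (nat_lit 3201473), (nat_lit 0)]) (PF.cons (PF.leaf (nat_lit 4103637) (nat_lit 343953) (nat_lit 55745207) (nat_lit 2875696) [(nat_lit 343953), (nat_lit 1342194), (nat_lit 3228904), (nat_lit 0)]) (PF.cons PF.nil PF.nil)))) (PF.cons (PF.cons (PF.leaf (nat_lit 4338349) (nat_lit 1365730) (nat_lit 54933118) (nat_lit 2911615) [(nat_lit 0), (nat_lit 1365730), (nat_lit 3266308), (nat_lit 0)]) (PF.cons (PF.leaf (nat_lit 4596058) (nat_lit 359371) (nat_lit 54468779) (nat_lit 2934611) [(nat_lit 359371), (nat_lit 1383118), (nat_lit 3289907), (nat_lit 0)]) PF.nil)) (PF.cons PF.nil (PF.cons PF.nil PF.nil))))) (PF.cons (PF.cons (PF.cons (PF.leaf (nat_lit 4245725) (nat_lit 2907395) (nat_lit 54413007) (nat_lit 2907395) [(nat_lit 0), (nat_lit 0), (nat_lit 3262803), (nat_lit 0)]) (PF.cons (PF.leaf (nat_lit 4488797) (nat_lit 350487) (nat_lit 53975572) (nat_lit 2928830) [(nat_lit 350487), (nat_lit 0), (nat_lit 3284640), (nat_lit 0)]) (PF.cons (PF.leaf (nat_lit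 4743205) (nat_lit 359528) (nat_lit 53522850) (nat_lit 2949602) [(nat_lit 359528), (nat_lit 0), (nat_lit 3305767), (nat_lit 0)]) (PF.cons PF.nil PF.nil)))) (PF.cons (PF.cons (PF.leaf (nat_lit 4970231) (nat_lit 1408700)
 (nat_lit 52726275) (nat_lit 2975855) [(nat_lit 0), (nat_lit 1408700), (nat_lit 3332660), (nat_lit 0)]) (PF.cons PF.nil PF.nil)) (PF.cons PF.nil PF.nil))) (PF.cons (PF.cons (PF.cons (PF.leaf (nat_lit 5580717) (nat_lit 3018332) (nat_lit 50589417) (nat_lit 3018332) [(nat_lit 0), (nat_lit 0), (nat_lit 3375265), (nat_lit 0)]) (PF.cons PF.nil PF.nil)) (PF.cons PF.nil PF.nil)) (PF.cons PF.nil (PF.cons PF.nil (PF.cons PF.nil PF.nil)))))))) (PF.cons (PF.cons (PF.cons (PF.cons (PF.leaf (nat_lit 2818461) (nat_lit 2648869) (nat_lit 56151475) (nat_lit 2648869) [(nat_lit 0), (nat_lit 0), (nat_lit 0), (nat_lit 8308467)]) (PF.cons (PF.leaf (nat_lit 2996549) (nat_lit 271636) (nat_lit 55830881) (nat_lit 2676956) [(nat_lit 271636), (nat_lit 0), (nat_lit 0), (nat_lit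 8329337)]) (PF.cons (PF.leaf (nat_lit 3193520) (nat_lit 285680) (nat_lit 55481241) (nat_lit 2705770) [(nat_lit 285680), (nat_lit 0), (nat_lit 0), (nat_lit 8350439)]) (PF.cons (PF.leaf (nat_lit 3405483) (nat_lit 298445) (nat_lit 55107671) (nat_lit 2734667) [(nat_lit 298445), (nat_lit 0), (nat_lit 0), (nat_lit 8371139)]) (PF.cons (PF.leaf (nat_lit 3630373) (nat_lit 310183) (nat_lit 54713909) (nat_lit 2763206) [(nat_lit 310183), (nat_lit
 0), (nat_lit 0), (nat_lit 8390964)]) (PF.cons (PF.leaf (nat_lit 3866814) (nat_lit 321061) (nat_lit 54302880) (nat_lit 2791078) [(nat_lit 321061), (nat_lit 0), (nat_lit 0), (nat_lit 8409547)]) (PF.cons (PF.leaf (nat_lit 4113463) (nat_lit 331195) (nat_lit 53876976) (nat_lit 2818059) [(nat_lit 331195), (nat_lit 0), (nat_lit 0), (nat_lit 8426604)]) (PF.cons (PF.leaf (nat_lit 4369297) (nat_lit 340669) (nat_lit 53438222) (nat_lit 2843987) [(nat_lit 340669), (nat_lit 0), (nat_lit 0), (nat_lit 8441913)]) (PF.cons PF.nil (PF.cons PF.nil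 PF.nil)))))))))) (PF.cons (PF.cons (PF.leaf (nat_lit 3421874) (nat_lit 1244011) (nat_lit 54728147) (nat_lit 2752205) [(nat_lit 0), (nat_lit 1244011), (nat_lit 0), (nat_lit 8384447)]) (PF.cons (PF.leaf (nat_lit 3630293) (nat_lit 306728) (nat_lit 54357494) (nat_lit 2777918) [(nat_lit 306728), (nat_lit 1265283), (nat_lit 0), (nat_lit 8401388)]) (PF.cons (PF.leaf (nat_lit 3853435) (nat_lit 318125) (nat_lit 53965574) (nat_lit 2803449) [(nat_lit 318125), (nat_lit 1286082), (nat_lit 0), (nat_lit 8417454)]) (PF.cons (PF.leaf (nat_lit 4088484) (nat_lit 328627) (nat_lit 53555975) (nat_lit 2828448) [(nat_lit 328627), (nat_lit 1306225), (nat_lit 0), (nat_lit 8432281)])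
 (PF.cons (PF.leaf (nat_lit 4333896) (nat_lit 338369) (nat_lit 53131468) (nat_lit 2852672) [(nat_lit 338369), (nat_lit 1325601), (nat_lit 0), (nat_lit 8445591)]) (PF.cons (PF.leaf (nat_lit 4588519) (nat_lit 347447) (nat_lit 52694302) (nat_lit 2875949) [(nat_lit 347447), (nat_lit 1344142), (nat_lit 0), (nat_lit 8457178)]) (PF.cons PF.nil (PF.cons PF.nil (PF.cons PF.nil PF.nil))))))))) (PF.cons (PF.cons (PF.leaf (nat_lit 4078884) (nat_lit 1311418) (nat_lit 53208534) (nat_lit 2839740) [(nat_lit 0), (nat_lit 1311418), (nat_lit 0), (nat_lit 8437700)]) (PF.cons (PF.leaf (nat_lit 4310467) (nat_lit 335299) (nat_lit 52803228) (nat_lit 2861999) [(nat_lit 335299), (nat_lit 1329690), (nat_lit 0), (nat_lit 8448904)]) (PF.cons (PF.leaf (nat_lit 4553764) (nat_lit 344736) (nat_lit 52382433) (nat_lit 2883611) [(nat_lit 344736), (nat_lit 1347332), (nat_lit 0), (nat_lit 8458629)]) (PF.cons (PF.leaf (nat_lit 4806441) (nat_lit 353486) (nat_lit 51948791) (nat_lit 2904386) [(nat_lit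 353486), (nat_lit 1364251), (nat_lit 0), (nat_lit 8466672)]) (PF.cons (PF.leaf (nat_lit 5067385) (nat_lit 361632) (nat_lit 51504423) (nat_lit 2924188) [(nat_lit 361632), (nat_lit 1380391), (nat_lit 0), (nat_lit 8472889)])
 (PF.cons PF.nil (PF.cons PF.nil PF.nil))))))) (PF.cons (PF.cons (PF.leaf (nat_lit 4774236) (nat_lit 1367045) (nat_lit 51630597) (nat_lit 2911126) [(nat_lit 0), (nat_lit 1367045), (nat_lit 0), (nat_lit 8465953)]) (PF.cons (PF.leaf (nat_lit 5023387) (nat_lit 358810) (nat_lit 51202513) (nat_lit 2929532) [(nat_lit 358810), (nat_lit 1382434), (nat_lit 0), (nat_lit 8470653)]) (PF.cons (PF.leaf (nat_lit 5281786) (nat_lit 366675) (nat_lit 50763395) (nat_lit 2947068) [(nat_lit 366675), (nat_lit 1397136), (nat_lit 0), (nat_lit 8473588)]) (PF.cons (PF.leaf (nat_lit 5547594) (nat_lit 373982) (nat_lit 50315250) (nat_lit 2963632) [(nat_lit 373982), (nat_lit 1411105), (nat_lit 0), (nat_lit 8474663)]) (PF.cons PF.nil PF.nil))))) (PF.cons (PF.cons (PF.leaf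 (nat_lit 5495593) (nat_lit 1412178) (nat_lit 50023853) (nat_lit 2967000) [(nat_lit 0), (nat_lit 1412178), (nat_lit 0), (nat_lit 8469246)]) (PF.cons (PF.leaf (nat_lit 5757711) (nat_lit 378143) (nat_lit 49582353) (nat_lit 2981518) [(nat_lit 378143), (nat_lit 1424866), (nat_lit 0), (nat_lit 8467331)]) (PF.cons PF.nil (PF.cons PF.nil PF.nil)))) (PF.cons (PF.cons (PF.leaf (nat_lit 6232801) (nat_lit 1447966) (nat_lit 48411495) (nat_lit 3008487)
 [(nat_lit 0), (nat_lit 1447966), (nat_lit 0), (nat_lit 8448996)]) (PF.cons PF.nil PF.nil)) (PF.cons PF.nil (PF.cons PF.nil PF.nil)))))))) (PF.cons (PF.cons (PF.cons (PF.leaf (nat_lit 4009820) (nat_lit 2834478) (nat_lit 52660989) (nat_lit 2834478) [(nat_lit 0), (nat_lit 0), (nat_lit 3187408), (nat_lit 8425935)]) (PF.cons (PF.leaf (nat_lit 4224191) (nat_lit 323503) (nat_lit 52287605) (nat_lit 2855044) [(nat_lit 323503), (nat_lit 0), (nat_lit 3207991), (nat_lit 8434668)]) (PF.cons (PF.leaf (nat_lit 4452459) (nat_lit 334168) (nat_lit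 51894670) (nat_lit 2875303) [(nat_lit 334168), (nat_lit 0), (nat_lit 3228260), (nat_lit 8442241)]) (PF.cons (PF.leaf (nat_lit 4691739) (nat_lit 343885) (nat_lit 51485843) (nat_lit 2894978) [(nat_lit 343885), (nat_lit 0), (nat_lit 3247928), (nat_lit 8448408)]) (PF.cons (PF.leaf (nat_lit 4940580) (nat_lit 352811) (nat_lit 51063908) (nat_lit 2913878) [(nat_lit 352811), (nat_lit 0), (nat_lit 3266793), (nat_lit 8452987)]) (PF.cons (PF.leaf (nat_lit 5197701) (nat_lit 361057) (nat_lit 50631094) (nat_lit 2931872) [(nat_lit 361057), (nat_lit 0), (nat_lit 3284713), (nat_lit 8455847)]) (PF.cons PF.nil PF.nil))))))) (PF.cons (PF.cons (PF.leaf (nat_lit 4672566)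
 (nat_lit 1355258) (nat_lit 51148932) (nat_lit 2902223) [(nat_lit 0), (nat_lit 1355258), (nat_lit 3255467), (nat_lit 8446931)]) (PF.cons (PF.leaf (nat_lit 4907591) (nat_lit 349081) (nat_lit 50746744) (nat_lit 2919570) [(nat_lit 349081), (nat_lit 1370667), (nat_lit 3272707), (nat_lit 8450041)]) (PF.cons (PF.leaf (nat_lit 5153413) (nat_lit 357769) (nat_lit 50330722) (nat_lit 2936254) [(nat_lit 357769), (nat_lit 1385445), (nat_lit 3289251), (nat_lit 8451600)]) (PF.cons (PF.leaf (nat_lit 5407837) (nat_lit 365748) (nat_lit 49903485) (nat_lit 2952128) [(nat_lit 365748), (nat_lit 1399523), (nat_lit 3304943), (nat_lit 8451488)]) (PF.cons (PF.leaf (nat_lit 5669711) (nat_lit 373113) (nat_lit 49467111) (nat_lit 2967088) [(nat_lit 373113), (nat_lit 1412861), (nat_lit 3319674), (nat_lit 8449622)]) PF.nil))))) (PF.cons (PF.cons (PF.leaf (nat_lit 5366542) (nat_lit 1400629) (nat_lit 49597818) (nat_lit 2955753) [(nat_lit 0), (nat_lit 1400629), (nat_lit 3308628), (nat_lit 8445354)])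 (PF.cons (PF.leaf (nat_lit 5616823) (nat_lit 369807) (nat_lit 49177892) (nat_lit 2969625) [(nat_lit 369807), (nat_lit 1413393), (nat_lit 3322216), (nat_lit 8442483)]) (PF.cons (PF.leaf (nat_lit 5875526) (nat_lit 376947)
 (nat_lit 48748397) (nat_lit 2982673) [(nat_lit 376947), (nat_lit 1425499), (nat_lit 3334932), (nat_lit 8437915)]) (PF.cons PF.nil PF.nil)))) (PF.cons (PF.cons (PF.leaf (nat_lit 6080550) (nat_lit 1436697) (nat_lit 48033382) (nat_lit 2995788) [(nat_lit 0), (nat_lit 1436697), (nat_lit 3347539), (nat_lit 8422008)]) (PF.cons (PF.leaf (nat_lit 6341775) (nat_lit 386601) (nat_lit 47604169) (nat_lit 3006219) [(nat_lit 386601), (nat_lit 1447018), (nat_lit 3357490), (nat_lit 8413277)]) PF.nil)) (PF.cons PF.nil (PF.cons PF.nil PF.nil)))))) (PF.cons (PF.cons (PF.cons (PF.leaf (nat_lit 5250566) (nat_lit 2944292) (nat_lit 49149873) (nat_lit 2944292) [(nat_lit 0), (nat_lit 0), (nat_lit 3297113), (nat_lit 8420420)]) (PF.cons (PF.leaf (nat_lit 5487243) (nat_lit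 359950) (nat_lit 48754937) (nat_lit 2957461) [(nat_lit 359950), (nat_lit 0), (nat_lit 3309886), (nat_lit 8416690)]) (PF.cons (PF.leaf (nat_lit 5734000) (nat_lit 367950) (nat_lit 48347633) (nat_lit 2969964) [(nat_lit 367950), (nat_lit 0), (nat_lit 3321957), (nat_lit 8411398)]) (PF.cons (PF.leaf (nat_lit 5988631) (nat_lit 375231) (nat_lit 47930521) (nat_lit 2981690) [(nat_lit 375231), (nat_lit 0), (nat_lit 3333209), (nat_lit 8404487)])
 (PF.cons PF.nil PF.nil))))) (PF.cons (PF.cons (PF.leaf (nat_lit 5939152) (nat_lit 1424616) (nat_lit 47638864) (nat_lit 2982825) [(nat_lit 0), (nat_lit 1424616), (nat_lit 3334198), (nat_lit 8394109)]) (PF.cons (PF.leaf (nat_lit 6189157) (nat_lit 378214) (nat_lit 47230269) (nat_lit 2992867) [(nat_lit 378214), (nat_lit 1435117), (nat_lit 3343685), (nat_lit 8384971)]) (PF.cons (PF.leaf (nat_lit 6446871) (nat_lit 384702) (nat_lit 46813350) (nat_lit 3002134) [(nat_lit 384702), (nat_lit 1444991), (nat_lit 3352352), (nat_lit 8374228)])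 (PF.cons PF.nil PF.nil)))) (PF.cons (PF.cons (PF.leaf (nat_lit 6642945) (nat_lit 1452977) (nat_lit 46126308) (nat_lit 3009636) [(nat_lit 0), (nat_lit 1452977), (nat_lit 3358921), (nat_lit 8349069)]) (PF.cons PF.nil PF.nil)) (PF.cons PF.nil (PF.cons PF.nil PF.nil))))) (PF.cons (PF.cons (PF.cons (PF.leaf (nat_lit 6491088) (nat_lit 2995539) (nat_lit 45761939) (nat_lit 2995539) [(nat_lit 0), (nat_lit 0), (nat_lit 3344260), (nat_lit 8318551)]) (PF.cons (PF.leaf (nat_lit 6739702) (nat_lit 384432) (nat_lit 45366823) (nat_lit 3002353) [(nat_lit 384432), (nat_lit 0), (nat_lit 3350302), (nat_lit 8304296)]) (PF.cons PF.nil (PF.cons PF.nil PF.nil)))) (PF.cons (PF.cons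
 (PF.leaf (nat_lit 7182616) (nat_lit 1462443) (nat_lit 44307336) (nat_lit 3011336) [(nat_lit 0), (nat_lit 1462443), (nat_lit 3357204), (nat_lit 8256084)]) (PF.cons PF.nil PF.nil)) (PF.cons PF.nil PF.nil))) (PF.cons (PF.cons (PF.cons (PF.leaf (nat_lit 7699896) (nat_lit 3003208) (nat_lit 42578166) (nat_lit 3003208) [(nat_lit 0), (nat_lit 0), (nat_lit 3344924), (nat_lit 8147741)]) (PF.cons PF.nil PF.nil)) (PF.cons PF.nil PF.nil)) (PF.cons PF.nil PF.nil)))))) (PF.cons (PF.cons (PF.cons (PF.cons (PF.leaf (nat_lit 4960141) (nat_lit 2864261) (nat_lit 47697398) (nat_lit 2864261) [(nat_lit 0), (nat_lit 0), (nat_lit 0), (nat_lit 8273576)]) (PF.cons (PF.leaf (nat_lit 5170901) (nat_lit 332316) (nat_lit 47359223) (nat_lit 2877932) [(nat_lit 332316), (nat_lit 0), (nat_lit 0), (nat_lit 8269670)]) (PF.cons (PF.leaf (nat_lit 5394409) (nat_lit 342146) (nat_lit 47004506) (nat_lit 2891152) [(nat_lit 342146), (nat_lit 0), (nat_lit 0), (nat_lit 8264431)]) (PF.cons (PF.leaf (nat_lit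 5627812) (nat_lit 350958) (nat_lit 46636622) (nat_lit 2903739) [(nat_lit 350958), (nat_lit 0), (nat_lit 0), (nat_lit 8257788)]) (PF.cons (PF.leaf (nat_lit 5869621) (nat_lit 358932) (nat_lit 46258118) (nat_lit 2915573)
 [(nat_lit 358932), (nat_lit 0), (nat_lit 0), (nat_lit 8249694)]) (PF.cons (PF.leaf (nat_lit 6118659) (nat_lit 366196) (nat_lit 45871008) (nat_lit 2926578) [(nat_lit 366196), (nat_lit 0), (nat_lit 0), (nat_lit 8240120)]) (PF.cons PF.nil (PF.cons PF.nil (PF.cons PF.nil PF.nil))))))))) (PF.cons (PF.cons (PF.leaf (nat_lit 5596825) (nat_lit 1370183) (nat_lit 46339030) (nat_lit 2905783) [(nat_lit 0), (nat_lit 1370183), (nat_lit 0), (nat_lit 8246907)]) (PF.cons (PF.leaf (nat_lit 5825273) (nat_lit 354458) (nat_lit 45978897) (nat_lit 2916600) [(nat_lit 354458), (nat_lit 1382142), (nat_lit 0), (nat_lit 8238357)]) (PF.cons (PF.leaf (nat_lit 6063429) (nat_lit 362243) (nat_lit 45607393) (nat_lit 2926759) [(nat_lit 362243), (nat_lit 1393443), (nat_lit 0), (nat_lit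 8228364)]) (PF.cons (PF.leaf (nat_lit 6309158) (nat_lit 369293) (nat_lit 45226875) (nat_lit 2936172) [(nat_lit 369293), (nat_lit 1404052), (nat_lit 0), (nat_lit 8216916)]) (PF.cons (PF.leaf (nat_lit 6561321) (nat_lit 375714) (nat_lit 44839194) (nat_lit 2944780) [(nat_lit 375714), (nat_lit 1413955), (nat_lit 0), (nat_lit 8204012)]) (PF.cons PF.nil (PF.cons PF.nil PF.nil))))))) (PF.cons (PF.cons (PF.leaf (nat_lit 6257360) (nat_lit
 1403031) (nat_lit 44959354) (nat_lit 2935822) [(nat_lit 0), (nat_lit 1403031), (nat_lit 0), (nat_lit 8203785)]) (PF.cons (PF.leaf (nat_lit 6498471) (nat_lit 371855) (nat_lit 44586745) (nat_lit 2943751) [(nat_lit 371855), (nat_lit 1412577), (nat_lit 0), (nat_lit 8190652)]) (PF.cons (PF.leaf (nat_lit 6747076) (nat_lit 378104) (nat_lit 44206488) (nat_lit 2950949) [(nat_lit 378104), (nat_lit 1421493), (nat_lit 0), (nat_lit 8176089)]) (PF.cons PF.nil (PF.cons PF.nil PF.nil))))) (PF.cons (PF.cons (PF.leaf (nat_lit 6932170) (nat_lit 1427933)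 (nat_lit 43578803) (nat_lit 2955336) [(nat_lit 0), (nat_lit 1427933), (nat_lit 0), (nat_lit 8145436)]) (PF.cons (PF.leaf (nat_lit 7182138) (nat_lit 385567) (nat_lit 43200654) (nat_lit 2960515) [(nat_lit 385567), (nat_lit 1435346), (nat_lit 0), (nat_lit 8128017)]) (PF.cons PF.nil (PF.cons PF.nil PF.nil)))) (PF.cons (PF.cons (PF.leaf (nat_lit 7613848) (nat_lit 1446033) (nat_lit 42212266) (nat_lit 2965421) [(nat_lit 0), (nat_lit 1446033), (nat_lit 0), (nat_lit 8073494)]) (PF.cons PF.nil PF.nil)) (PF.cons PF.nil PF.nil)))))) (PF.cons (PF.cons (PF.cons (PF.leaf (nat_lit 6126252) (nat_lit 2920877) (nat_lit 44578609) (nat_lit 2920877) [(nat_lit 0), (nat_lit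
 0), (nat_lit 3265167), (nat_lit 8172079)]) (PF.cons (PF.leaf (nat_lit 6354846) (nat_lit 361644) (nat_lit 44228244) (nat_lit 2928619) [(nat_lit 361644), (nat_lit 0), (nat_lit 3272063), (nat_lit 8159120)]) (PF.cons (PF.leaf (nat_lit 6592544) (nat_lit 368823) (nat_lit 43867657) (nat_lit 2935723) [(nat_lit 368823), (nat_lit 0), (nat_lit 3278292), (nat_lit 8144745)]) (PF.cons (PF.leaf (nat_lit 6837202) (nat_lit 375270) (nat_lit 43499121) (nat_lit 2942125) [(nat_lit 375270), (nat_lit 0), (nat_lit 3283789), (nat_lit 8128982)]) (PF.cons (PF.leaf (nat_lit 7087778) (nat_lit 381096) (nat_lit 43124401) (nat_lit 2947786) [(nat_lit 381096), (nat_lit 0), (nat_lit 3288514), (nat_lit 8111861)]) PF.nil))))) (PF.cons (PF.cons (PF.leaf (nat_lit 6778855) (nat_lit 1414849) (nat_lit 43245470) (nat_lit 2940162) [(nat_lit 0), (nat_lit 1414849), (nat_lit 3281417), (nat_lit 8113456)]) (PF.cons (PF.leaf (nat_lit 7018639) (nat_lit 377006) (nat_lit 42885439) (nat_lit 2945327) [(nat_lit 377006),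 (nat_lit 1422633), (nat_lit 3285641), (nat_lit 8096381)]) (PF.cons (PF.leaf (nat_lit 7265335) (nat_lit 382705) (nat_lit 42518680) (nat_lit 2949813) [(nat_lit 382705), (nat_lit 1429826), (nat_lit 3289151), (nat_lit
 8077964)]) (PF.cons PF.nil PF.nil)))) (PF.cons (PF.cons (PF.leaf (nat_lit 7442327) (nat_lit 1433933) (nat_lit 41918705) (nat_lit 2950353) [(nat_lit 0), (nat_lit 1433933), (nat_lit 3288209), (nat_lit 8041838)]) (PF.cons (PF.leaf (nat_lit 7689707) (nat_lit 388938) (nat_lit 41555228) (nat_lit 2953097) [(nat_lit 388938), (nat_lit 1439802), (nat_lit 3289908), (nat_lit 8021017)]) PF.nil)) (PF.cons PF.nil (PF.cons PF.nil PF.nil))))) (PF.cons (PF.cons (PF.cons (PF.leaf (nat_lit 7281432) (nat_lit 2934902) (nat_lit 41611547) (nat_lit 2934902) [(nat_lit 0), (nat_lit 0), (nat_lit 3272038), (nat_lit 8009142)]) (PF.cons (PF.leaf (nat_lit 7519157) (nat_lit 380551) (nat_lit 41265064) (nat_lit 2937750) [(nat_lit 380551), (nat_lit 0), (nat_lit 3273819), (nat_lit 7988903)])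 (PF.cons (PF.leaf (nat_lit 7763377) (nat_lit 385759) (nat_lit 40912634) (nat_lit 2939965) [(nat_lit 385759), (nat_lit 0), (nat_lit 3274937), (nat_lit 7967410)]) (PF.cons PF.nil PF.nil)))) (PF.cons (PF.cons (PF.leaf (nat_lit 7932432) (nat_lit 1435190) (nat_lit 40340761) (nat_lit 2937366) [(nat_lit 0), (nat_lit 1435190), (nat_lit 3270668), (nat_lit 7927078)]) (PF.cons PF.nil PF.nil)) (PF.cons PF.nil PF.nil))) (PF.cons (PF.cons
 (PF.cons (PF.leaf (nat_lit 8403084) (nat_lit 2917953) (nat_lit 38843725) (nat_lit 2917953) [(nat_lit 0), (nat_lit 0), (nat_lit 3246305), (nat_lit 7804108)]) (PF.cons PF.nil PF.nil)) (PF.cons PF.nil PF.nil)) (PF.cons PF.nil PF.nil))))) (PF.cons (PF.cons (PF.cons (PF.cons (PF.leaf (nat_lit 6897823) (nat_lit 2863642) (nat_lit 40637185) (nat_lit 2863642) [(nat_lit 0), (nat_lit 0), (nat_lit 0), (nat_lit 7869328)]) (PF.cons (PF.leaf (nat_lit 7117776) (nat_lit 358660) (nat_lit 40328421) (nat_lit 2867786) [(nat_lit 358660), (nat_lit 0), (nat_lit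 0), (nat_lit 7851314)]) (PF.cons (PF.leaf (nat_lit 7346136) (nat_lit 365181) (nat_lit 40011050) (nat_lit 2871332) [(nat_lit 365181), (nat_lit 0), (nat_lit 0), (nat_lit 7832021)]) (PF.cons (PF.leaf (nat_lit 7580792) (nat_lit 370972) (nat_lit 39687069) (nat_lit 2874246) [(nat_lit 370972), (nat_lit 0), (nat_lit 0), (nat_lit 7811526)]) (PF.cons PF.nil PF.nil))))) (PF.cons (PF.cons (PF.leaf (nat_lit 7516498) (nat_lit 1390346) (nat_lit 39467170) (nat_lit 2870462) [(nat_lit 0), (nat_lit 1390346), (nat_lit 0), (nat_lit 7793611)]) (PF.cons (PF.leaf (nat_lit 7746153) (nat_lit 371853) (nat_lit 39151127) (nat_lit 2872455) [(nat_lit 371853), (nat_lit 1396220),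
 (nat_lit 0), (nat_lit 7772385)]) (PF.cons (PF.leaf (nat_lit 7982155) (nat_lit 376943) (nat_lit 38829487) (nat_lit 2873848) [(nat_lit 376943), (nat_lit 1401543), (nat_lit 0), (nat_lit 7750015)]) (PF.cons PF.nil PF.nil)))) (PF.cons (PF.cons (PF.leaf (nat_lit 8143308) (nat_lit 1403103) (nat_lit 38306445) (nat_lit 2870096) [(nat_lit 0), (nat_lit 1403103), (nat_lit 0), (nat_lit 7708688)]) (PF.cons PF.nil PF.nil)) PF.nil))) (PF.cons (PF.cons (PF.cons (PF.leaf (nat_lit 7977665) (nat_lit 2854444) (nat_lit 38047013) (nat_lit 2854444) [(nat_lit 0), (nat_lit 0), (nat_lit 3178561), (nat_lit 7676264)]) (PF.cons (PF.leaf (nat_lit 8204955) (nat_lit 373632) (nat_lit 37743500) (nat_lit 2854741) [(nat_lit 373632), (nat_lit 0), (nat_lit 3177646), (nat_lit 7653097)]) (PF.cons PF.nil PF.nil))) (PF.cons (PF.cons (PF.leaf (nat_lit 8592431) (nat_lit 1399242) (nat_lit 36936999) (nat_lit 2848562) [(nat_lit 0), (nat_lit 1399242), (nat_lit 3168376), (nat_lit 7585210)]) PF.nil) PF.nil))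 (PF.cons PF.nil PF.nil))) (PF.cons (PF.cons (PF.cons (PF.cons (PF.leaf (nat_lit 8599321) (nat_lit 2764665) (nat_lit 34976391) (nat_lit 2764665) [(nat_lit 0), (nat_lit 0), (nat_lit 0), (nat_lit 7341939)]) (PF.cons (PF.leaf
 (nat_lit 8816852) (nat_lit 365039) (nat_lit 34709918) (nat_lit 2763321) [(nat_lit 365039), (nat_lit 0), (nat_lit 0), (nat_lit 7317633)]) PF.nil)) (PF.cons PF.nil PF.nil)) (PF.cons PF.nil PF.nil)) (PF.cons PF.nil (PF.cons PF.nil (PF.cons PF.nil (PF.cons PF.nil PF.nil)))))))))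

def p15_14_0_0 : pfC (piC [(nat_lit 41997052), (nat_lit 26592602), (nat_lit 19805017), (nat_lit 13318063)] (nat_lit 24651042)) p15_14_0 (nat_lit 4) (nat_lit 0) (nat_lit 1) = true := by decide +kernel
def p15_14_0_1 : pfC (piC [(nat_lit 41997052), (nat_lit 26592602), (nat_lit 19805017), (nat_lit 13318063)] (nat_lit 24651042)) p15_14_0 (nat_lit 4) (nat_lit 1) (nat_lit 2) = true := by decide +kernel
def p15_14_0_2 : pfC (piC [(nat_lit 41997052), (nat_lit 26592602), (nat_lit 19805017), (nat_lit 13318063)] (nat_lit 24651042)) p15_14_0 (nat_lit 4) (nat_lit 2) (nat_lit 3) = true := by decide +kernel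
def p15_14_0_3 : pfC (piC [(nat_lit 41997052), (nat_lit 26592602), (nat_lit 19805017), (nat_lit 13318063)] (nat_lit 24651042)) p15_14_0 (nat_lit 4) (nat_lit 3) (nat_lit 4) = true := by decide +kernel
def p15_14_0_4 : pfC (piC [(nat_lit 41997052), (nat_lit 26592602), (nat_lit 19805017), (nat_lit 13318063)] (nat_lit 24651042)) p15_14_0 (nat_lit 4) (nat_lit 4) (nat_lit 5) = true := by decide +kernel
def p15_14_0_5 : pfC (piC [(nat_lit 41997052), (nat_lit 26592602), (nat_lit 19805017), (nat_lit 13318063)] (nat_lit 24651042)) p15_14_0 (nat_lit 4) (nat_lit 5) (nat_lit 6) = true := by decide +kernel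
def p15_14_0_6 : pfC (piC [(nat_lit 41997052), (nat_lit 26592602), (nat_lit 19805017), (nat_lit 13318063)] (nat_lit 24651042)) p15_14_0 (nat_lit 4) (nat_lit 6) (nat_lit 7) = true := by decide +kernel
def p15_14_0_7 : pfC (piC [(nat_lit 41997052), (nat_lit 26592602), (nat_lit 19805017), (nat_lit 13318063)] (nat_lit 24651042)) p15_14_0 (nat_lit 4) (nat_lit 7) (nat_lit 8) = true := by decide +kernel
def p15_14_0_8 : pfC (piC [(nat_lit 41997052), (nat_lit 26592602), (nat_lit 19805017), (nat_lit 13318063)] (nat_lit 24651042)) p15_14_0 (nat_lit 4) (nat_lit 8) (nat_lit 9) = true := by decide +kernel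
def p15_14_0_9 : pfC (piC [(nat_lit 41997052), (nat_lit 26592602), (nat_lit 19805017), (nat_lit 13318063)] (nat_lit 24651042)) p15_14_0 (nat_lit 4) (nat_lit 9) (nat_lit 10) = true := by decide +kernel
def p15_14_0_10 : pfC (piC [(nat_lit 41997052), (nat_lit 26592602), (nat_lit 19805017), (nat_lit 13318063)] (nat_lit 24651042)) p15_14_0 (nat_lit 4) (nat_lit 10) (nat_lit 11) = true := by decide +kernel
def p15_14_0_11 : pfC (piC [(nat_lit 41997052), (nat_lit 26592602), (nat_lit 19805017), (nat_lit 13318063)] (nat_lit 24651042)) p15_14_0 (nat_lit 4) (nat_lit 11) (nat_lit 12) = true := by decide +kernel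
def p15_14_0_12 : pfC (piC [(nat_lit 41997052), (nat_lit 26592602), (nat_lit 19805017), (nat_lit 13318063)] (nat_lit 24651042)) p15_14_0 (nat_lit 4) (nat_lit 12) (nat_lit 13) = true := by decide +kernel
def p15_14_0_13 : pfC (piC [(nat_lit 41997052), (nat_lit 26592602), (nat_lit 19805017), (nat_lit 13318063)] (nat_lit 24651042)) p15_14_0 (nat_lit 4) (nat_lit 13) (nat_lit 14) = true := by decide +kernel
def p15_14_0_14 : pfC (piC [(nat_lit 41997052), (nat_lit 26592602), (nat_lit 19805017), (nat_lit 13318063)] (nat_lit 24651042)) p15_14_0 (nat_lit 4) (nat_lit 14) (nat_lit 15) = true := by decide +kernel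
def p15_14_0_15 : pfC (piC [(nat_lit 41997052), (nat_lit 26592602), (nat_lit 19805017), (nat_lit 13318063)] (nat_lit 24651042)) p15_14_0 (nat_lit 4) (nat_lit 15) (nat_lit 16) = true := by decide +kernel
def p15_14_0_16 : pfC (piC [(nat_lit 41997052), (nat_lit 26592602), (nat_lit 19805017), (nat_lit 13318063)] (nat_lit 24651042)) p15_14_0 (nat_lit 4) (nat_lit 16) (nat_lit 17) = true := by decide +kernel
def p15_14_0_17 : pfC (piC [(nat_lit 41997052), (nat_lit 26592602), (nat_lit 19805017), (nat_lit 13318063)] (nat_lit 24651042)) p15_14_0 (nat_lit 4) (nat_lit 17) (nat_lit 18) = true := by decide +kernel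
def p15_14_0_18 : pfC (piC [(nat_lit 41997052), (nat_lit 26592602), (nat_lit 19805017), (nat_lit 13318063)] (nat_lit 24651042)) p15_14_0 (nat_lit 4) (nat_lit 18) (nat_lit 19) = true := by decide +kernel
def p15_14_0_19 : pfC (piC [(nat_lit 41997052), (nat_lit 26592602), (nat_lit 19805017), (nat_lit 13318063)] (nat_lit 24651042)) p15_14_0 (nat_lit 4) (nat_lit 19) (nat_lit 20) = true := by decide +kernel
def p15_14_0_20 : pfC (piC [(nat_lit 41997052), (nat_lit 26592602), (nat_lit 19805017), (nat_lit 13318063)] (nat_lit 24651042)) p15_14_0 (nat_lit 4) (nat_lit 20) (nat_lit 21) = true := by decide +kernel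
def p15_14_0_21 : pfC (piC [(nat_lit 41997052), (nat_lit 26592602), (nat_lit 19805017), (nat_lit 13318063)] (nat_lit 24651042)) p15_14_0 (nat_lit 4) (nat_lit 21) (nat_lit 22) = true := by decide +kernel
def p15_14_0_22 : pfC (piC [(nat_lit 41997052), (nat_lit 26592602), (nat_lit 19805017), (nat_lit 13318063)] (nat_lit 24651042)) p15_14_0 (nat_lit 4) (nat_lit 22) (nat_lit 23) = true := by decide +kernel
def p15_14_0_23 : pfC (piC [(nat_lit 41997052), (nat_lit 26592602), (nat_lit 19805017), (nat_lit 13318063)] (nat_lit 24651042)) p15_14_0 (nat_lit 4) (nat_lit 23) (nat_lit 24) = true := by decide +kernel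
def p15_14_0_24 : pfC (piC [(nat_lit 41997052), (nat_lit 26592602), (nat_lit 19805017), (nat_lit 13318063)] (nat_lit 24651042)) p15_14_0 (nat_lit 4) (nat_lit 24) (nat_lit 25) = true := by decide +kernel
def p15_14_0_25 : pfC (piC [(nat_lit 41997052), (nat_lit 26592602), (nat_lit 19805017), (nat_lit 13318063)] (nat_lit 24651042)) p15_14_0 (nat_lit 4) (nat_lit 25) (nat_lit 26) = true := by decide +kernel
def p15_14_0_26 : pfC (piC [(nat_lit 41997052), (nat_lit 26592602), (nat_lit 19805017), (nat_lit 13318063)] (nat_lit 24651042)) p15_14_0 (nat_lit 4) (nat_lit 26) (nat_lit 27) = true := by decide +kernel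
def p15_14_0_27 : pfC (piC [(nat_lit 41997052), (nat_lit 26592602), (nat_lit 19805017), (nat_lit 13318063)] (nat_lit 24651042)) p15_14_0 (nat_lit 4) (nat_lit 27) (nat_lit 28) = true := by decide +kernel
def p15_14_0_28 : pfC (piC [(nat_lit 41997052), (nat_lit 26592602), (nat_lit 19805017), (nat_lit 13318063)] (nat_lit 24651042)) p15_14_0 (nat_lit 4) (nat_lit 28) (nat_lit 29) = true := by decide +kernel
def p15_14_0_29 : pfC (piC [(nat_lit 41997052), (nat_lit 26592602), (nat_lit 19805017), (nat_lit 13318063)] (nat_lit 24651042)) p15_14_0 (nat_lit 4) (nat_lit 29) (nat_lit 30) = true := by decide +kernel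
def p15_14_0_30 : pfC (piC [(nat_lit 41997052), (nat_lit 26592602), (nat_lit 19805017), (nat_lit 13318063)] (nat_lit 24651042)) p15_14_0 (nat_lit 4) (nat_lit 30) (nat_lit 31) = true := by decide +kernel
def p15_14_0_31 : pfC (piC [(nat_lit 41997052), (nat_lit 26592602), (nat_lit 19805017), (nat_lit 13318063)] (nat_lit 24651042)) p15_14_0 (nat_lit 4) (nat_lit 31) (nat_lit 32) = true := by decide +kernel
def p15_14_0_32 : pfC (piC [(nat_lit 41997052), (nat_lit 26592602), (nat_lit 19805017), (nat_lit 13318063)] (nat_lit 24651042)) p15_14_0 (nat_lit 4) (nat_lit 32) (nat_lit 33) = true := by decide +kernel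
def p15_14_0_33 : pfC (piC [(nat_lit 41997052), (nat_lit 26592602), (nat_lit 19805017), (nat_lit 13318063)] (nat_lit 24651042)) p15_14_0 (nat_lit 4) (nat_lit 33) (nat_lit 34) = true := by decide +kernel
def p15_14_0_34 : pfC (piC [(nat_lit 41997052), (nat_lit 26592602), (nat_lit 19805017), (nat_lit 13318063)] (nat_lit 24651042)) p15_14_0 (nat_lit 4) (nat_lit 34) (nat_lit 35) = true := by decide +kernel
def p15_14_0_35 : pfC (piC [(nat_lit 41997052), (nat_lit 26592602), (nat_lit 19805017), (nat_lit 13318063)] (nat_lit 24651042)) p15_14_0 (nat_lit 4) (nat_lit 35) (nat_lit 36) = true := by decide +kernel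
def p15_14_0_36 : pfC (piC [(nat_lit 41997052), (nat_lit 26592602), (nat_lit 19805017), (nat_lit 13318063)] (nat_lit 24651042)) p15_14_0 (nat_lit 4) (nat_lit 36) (nat_lit 37) = true := by decide +kernel
def p15_14_0_37 : pfC (piC [(nat_lit 41997052), (nat_lit 26592602), (nat_lit 19805017), (nat_lit 13318063)] (nat_lit 24651042)) p15_14_0 (nat_lit 4) (nat_lit 37) (nat_lit 38) = true := by decide +kernel
def p15_14_0_38 : pfC (piC [(nat_lit 41997052), (nat_lit 26592602), (nat_lit 19805017), (nat_lit 13318063)] (nat_lit 24651042)) p15_14_0 (nat_lit 4) (nat_lit 38) (nat_lit 39) = true := by decide +kernel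
def p15_14_0_39 : pfC (piC [(nat_lit 41997052), (nat_lit 26592602), (nat_lit 19805017), (nat_lit 13318063)] (nat_lit 24651042)) p15_14_0 (nat_lit 4) (nat_lit 39) (nat_lit 40) = true := by decide +kernel
def p15_14_0_40 : pfC (piC [(nat_lit 41997052), (nat_lit 26592602), (nat_lit 19805017), (nat_lit 13318063)] (nat_lit 24651042)) p15_14_0 (nat_lit 4) (nat_lit 40) (nat_lit 41) = true := by decide +kernel
def p15_14_0_41 : pfC (piC [(nat_lit 41997052), (nat_lit 26592602), (nat_lit 19805017), (nat_lit 13318063)] (nat_lit 24651042)) p15_14_0 (nat_lit 4) (nat_lit 41) (nat_lit 42) = true := by decide +kernel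
def p15_14_0_42 : pfC (piC [(nat_lit 41997052), (nat_lit 26592602), (nat_lit 19805017), (nat_lit 13318063)] (nat_lit 24651042)) p15_14_0 (nat_lit 4) (nat_lit 42) (nat_lit 43) = true := by decide +kernel
def p15_14_0_43 : pfC (piC [(nat_lit 41997052), (nat_lit 26592602), (nat_lit 19805017), (nat_lit 13318063)] (nat_lit 24651042)) p15_14_0 (nat_lit 4) (nat_lit 43) (nat_lit 44) = true := by decide +kernel
def p15_14_0_44 : pfC (piC [(nat_lit 41997052), (nat_lit 26592602), (nat_lit 19805017), (nat_lit 13318063)] (nat_lit 24651042)) p15_14_0 (nat_lit 4) (nat_lit 44) (nat_lit 45) = true := by decide +kernel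
def p15_14_0_45 : pfC (piC [(nat_lit 41997052), (nat_lit 26592602), (nat_lit 19805017), (nat_lit 13318063)] (nat_lit 24651042)) p15_14_0 (nat_lit 4) (nat_lit 45) (nat_lit 46) = true := by decide +kernel
def p15_14_0_46 : pfC (piC [(nat_lit 41997052), (nat_lit 26592602), (nat_lit 19805017), (nat_lit 13318063)] (nat_lit 24651042)) p15_14_0 (nat_lit 4) (nat_lit 46) (nat_lit 47) = true := by decide +kernel
def p15_14_0_47 : pfC (piC [(nat_lit 41997052), (nat_lit 26592602), (nat_lit 19805017), (nat_lit 13318063)] (nat_lit 24651042)) p15_14_0 (nat_lit 4) (nat_lit 47) (nat_lit 48) = true := by decide +kernel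
def p15_14_0_48 : pfC (piC [(nat_lit 41997052), (nat_lit 26592602), (nat_lit 19805017), (nat_lit 13318063)] (nat_lit 24651042)) p15_14_0 (nat_lit 4) (nat_lit 48) (nat_lit 49) = true := by decide +kernel
def p15_14_0_49 : pfC (piC [(nat_lit 41997052), (nat_lit 26592602), (nat_lit 19805017), (nat_lit 13318063)] (nat_lit 24651042)) p15_14_0 (nat_lit 4) (nat_lit 49) (nat_lit 50) = true := by decide +kernel
def p15_14_0_50 : pfC (piC [(nat_lit 41997052), (nat_lit 26592602), (nat_lit 19805017), (nat_lit 13318063)] (nat_lit 24651042)) p15_14_0 (nat_lit 4) (nat_lit 50) (nat_lit 51) = true := by decide +kernel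
def p15_14_0_51 : pfC (piC [(nat_lit 41997052), (nat_lit 26592602), (nat_lit 19805017), (nat_lit 13318063)] (nat_lit 24651042)) p15_14_0 (nat_lit 4) (nat_lit 51) (nat_lit 52) = true := by decide +kernel
def p15_14_0_52 : pfC (piC [(nat_lit 41997052), (nat_lit 26592602), (nat_lit 19805017), (nat_lit 13318063)] (nat_lit 24651042)) p15_14_0 (nat_lit 4) (nat_lit 52) (nat_lit 53) = true := by decide +kernel
def p15_14_0_53 : pfC (piC [(nat_lit 41997052), (nat_lit 26592602), (nat_lit 19805017), (nat_lit 13318063)] (nat_lit 24651042)) p15_14_0 (nat_lit 4) (nat_lit 53) (nat_lit 54) = true := by decide +kernel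
def p15_14_0_54 : pfC (piC [(nat_lit 41997052), (nat_lit 26592602), (nat_lit 19805017), (nat_lit 13318063)] (nat_lit 24651042)) p15_14_0 (nat_lit 4) (nat_lit 54) (nat_lit 55) = true := by decide +kernel
def p15_14_0_55 : pfC (piC [(nat_lit 41997052), (nat_lit 26592602), (nat_lit 19805017), (nat_lit 13318063)] (nat_lit 24651042)) p15_14_0 (nat_lit 4) (nat_lit 55) (nat_lit 56) = true := by decide +kernel
def p15_14_0_56 : pfC (piC [(nat_lit 41997052), (nat_lit 26592602), (nat_lit 19805017), (nat_lit 13318063)] (nat_lit 24651042)) p15_14_0 (nat_lit 4) (nat_lit 56) (nat_lit 57) = true := by decide +kernel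
def p15_14_0_57 : pfC (piC [(nat_lit 41997052), (nat_lit 26592602), (nat_lit 19805017), (nat_lit 13318063)] (nat_lit 24651042)) p15_14_0 (nat_lit 4) (nat_lit 57) (nat_lit 58) = true := by decide +kernel
def p15_14_0_58 : pfC (piC [(nat_lit 41997052), (nat_lit 26592602), (nat_lit 19805017), (nat_lit 13318063)] (nat_lit 24651042)) p15_14_0 (nat_lit 4) (nat_lit 58) (nat_lit 59) = true := by decide +kernel
def p15_14_0_59 : pfC (piC [(nat_lit 41997052), (nat_lit 26592602), (nat_lit 19805017), (nat_lit 13318063)] (nat_lit 24651042)) p15_14_0 (nat_lit 4) (nat_lit 59) (nat_lit 60) = true := by decide +kernel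
def p15_14_0_60 : pfC (piC [(nat_lit 41997052), (nat_lit 26592602), (nat_lit 19805017), (nat_lit 13318063)] (nat_lit 24651042)) p15_14_0 (nat_lit 4) (nat_lit 60) (nat_lit 61) = true := by decide +kernel
def p15_14_0_61 : pfC (piC [(nat_lit 41997052), (nat_lit 26592602), (nat_lit 19805017), (nat_lit 13318063)] (nat_lit 24651042)) p15_14_0 (nat_lit 4) (nat_lit 61) (nat_lit 62) = true := by decide +kernel
def p15_14_0_62 : pfC (piC [(nat_lit 41997052), (nat_lit 26592602), (nat_lit 19805017), (nat_lit 13318063)] (nat_lit 24651042)) p15_14_0 (nat_lit 4) (nat_lit 62) (nat_lit 63) = true := by decide +kernel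
def p15_14_0_63 : pfC (piC [(nat_lit 41997052), (nat_lit 26592602), (nat_lit 19805017), (nat_lit 13318063)] (nat_lit 24651042)) p15_14_0 (nat_lit 4) (nat_lit 63) (nat_lit 64) = true := by decide +kernel
def p15_14_0_64 : pfC (piC [(nat_lit 41997052), (nat_lit 26592602), (nat_lit 19805017), (nat_lit 13318063)] (nat_lit 24651042)) p15_14_0 (nat_lit 4) (nat_lit 64) (nat_lit 65) = true := by decide +kernel
def p15_14_0_65 : pfC (piC [(nat_lit 41997052), (nat_lit 26592602), (nat_lit 19805017), (nat_lit 13318063)] (nat_lit 24651042)) p15_14_0 (nat_lit 4) (nat_lit 65) (nat_lit 66) = true := by decide +kernel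
def p15_14_0_66 : pfC (piC [(nat_lit 41997052), (nat_lit 26592602), (nat_lit 19805017), (nat_lit 13318063)] (nat_lit 24651042)) p15_14_0 (nat_lit 4) (nat_lit 66) (nat_lit 67) = true := by decide +kernel
def p15_14_0_67 : pfC (piC [(nat_lit 41997052), (nat_lit 26592602), (nat_lit 19805017), (nat_lit 13318063)] (nat_lit 24651042)) p15_14_0 (nat_lit 4) (nat_lit 67) (nat_lit 68) = true := by decide +kernel
def p15_14_0_68 : pfC (piC [(nat_lit 41997052), (nat_lit 26592602), (nat_lit 19805017), (nat_lit 13318063)] (nat_lit 24651042)) p15_14_0 (nat_lit 4) (nat_lit 68) (nat_lit 69) = true := by decide +kernel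
def p15_14_0_69 : pfC (piC [(nat_lit 41997052), (nat_lit 26592602), (nat_lit 19805017), (nat_lit 13318063)] (nat_lit 24651042)) p15_14_0 (nat_lit 4) (nat_lit 69) (nat_lit 70) = true := by decide +kernel
def p15_14_0_70 : pfC (piC [(nat_lit 41997052), (nat_lit 26592602), (nat_lit 19805017), (nat_lit 13318063)] (nat_lit 24651042)) p15_14_0 (nat_lit 4) (nat_lit 70) (nat_lit 71) = true := by decide +kernel
def p15_14_0_71 : pfC (piC [(nat_lit 41997052), (nat_lit 26592602), (nat_lit 19805017), (nat_lit 13318063)] (nat_lit 24651042)) p15_14_0 (nat_lit 4) (nat_lit 71) (nat_lit 72) = true := by decide +kernel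
def p15_14_0_72 : pfC (piC [(nat_lit 41997052), (nat_lit 26592602), (nat_lit 19805017), (nat_lit 13318063)] (nat_lit 24651042)) p15_14_0 (nat_lit 4) (nat_lit 72) (nat_lit 73) = true := by decide +kernel
def p15_14_0_73 : pfC (piC [(nat_lit 41997052), (nat_lit 26592602), (nat_lit 19805017), (nat_lit 13318063)] (nat_lit 24651042)) p15_14_0 (nat_lit 4) (nat_lit 73) (nat_lit 74) = true := by decide +kernel
def p15_14_0_74 : pfC (piC [(nat_lit 41997052), (nat_lit 26592602), (nat_lit 19805017), (nat_lit 13318063)] (nat_lit 24651042)) p15_14_0 (nat_lit 4) (nat_lit 74) (nat_lit 75) = true := by decide +kernel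
def p15_14_0_75 : pfC (piC [(nat_lit 41997052), (nat_lit 26592602), (nat_lit 19805017), (nat_lit 13318063)] (nat_lit 24651042)) p15_14_0 (nat_lit 4) (nat_lit 75) (nat_lit 76) = true := by decide +kernel
def p15_14_0_76 : pfC (piC [(nat_lit 41997052), (nat_lit 26592602), (nat_lit 19805017), (nat_lit 13318063)] (nat_lit 24651042)) p15_14_0 (nat_lit 4) (nat_lit 76) (nat_lit 77) = true := by decide +kernel
def p15_14_0_77 : pfC (piC [(nat_lit 41997052), (nat_lit 26592602), (nat_lit 19805017), (nat_lit 13318063)] (nat_lit 24651042)) p15_14_0 (nat_lit 4) (nat_lit 77) (nat_lit 78) = true := by decide +kernel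
def p15_14_0_78 : pfC (piC [(nat_lit 41997052), (nat_lit 26592602), (nat_lit 19805017), (nat_lit 13318063)] (nat_lit 24651042)) p15_14_0 (nat_lit 4) (nat_lit 78) (nat_lit 79) = true := by decide +kernel
def p15_14_0_79 : pfC (piC [(nat_lit 41997052), (nat_lit 26592602), (nat_lit 19805017), (nat_lit 13318063)] (nat_lit 24651042)) p15_14_0 (nat_lit 4) (nat_lit 79) (nat_lit 80) = true := by decide +kernel
def p15_14_0_80 : pfC (piC [(nat_lit 41997052), (nat_lit 26592602), (nat_lit 19805017), (nat_lit 13318063)] (nat_lit 24651042)) p15_14_0 (nat_lit 4) (nat_lit 80) (nat_lit 81) = true := by decide +kernel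
def p15_14_0_81 : pfC (piC [(nat_lit 41997052), (nat_lit 26592602), (nat_lit 19805017), (nat_lit 13318063)] (nat_lit 24651042)) p15_14_0 (nat_lit 4) (nat_lit 81) (nat_lit 82) = true := by decide +kernel
def p15_14_0_82 : pfC (piC [(nat_lit 41997052), (nat_lit 26592602), (nat_lit 19805017), (nat_lit 13318063)] (nat_lit 24651042)) p15_14_0 (nat_lit 4) (nat_lit 82) (nat_lit 83) = true := by decide +kernel
def p15_14_0_83 : pfC (piC [(nat_lit 41997052), (nat_lit 26592602), (nat_lit 19805017), (nat_lit 13318063)] (nat_lit 24651042)) p15_14_0 (nat_lit 4) (nat_lit 83) (nat_lit 84) = true := by decide +kernel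
def p15_14_0_84 : pfC (piC [(nat_lit 41997052), (nat_lit 26592602), (nat_lit 19805017), (nat_lit 13318063)] (nat_lit 24651042)) p15_14_0 (nat_lit 4) (nat_lit 84) (nat_lit 85) = true := by decide +kernel
def p15_14_0_85 : pfC (piC [(nat_lit 41997052), (nat_lit 26592602), (nat_lit 19805017), (nat_lit 13318063)] (nat_lit 24651042)) p15_14_0 (nat_lit 4) (nat_lit 85) (nat_lit 86) = true := by decide +kernel
def p15_14_0_86 : pfC (piC [(nat_lit 41997052), (nat_lit 26592602), (nat_lit 19805017), (nat_lit 13318063)] (nat_lit 24651042)) p15_14_0 (nat_lit 4) (nat_lit 86) (nat_lit 87) = true := by decide +kernel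
def p15_14_0_87 : pfC (piC [(nat_lit 41997052), (nat_lit 26592602), (nat_lit 19805017), (nat_lit 13318063)] (nat_lit 24651042)) p15_14_0 (nat_lit 4) (nat_lit 87) (nat_lit 88) = true := by decide +kernel
def p15_14_0_88 : pfC (piC [(nat_lit 41997052), (nat_lit 26592602), (nat_lit 19805017), (nat_lit 13318063)] (nat_lit 24651042)) p15_14_0 (nat_lit 4) (nat_lit 88) (nat_lit 89) = true := by decide +kernel
def p15_14_0_89 : pfC (piC [(nat_lit 41997052), (nat_lit 26592602), (nat_lit 19805017), (nat_lit 13318063)] (nat_lit 24651042)) p15_14_0 (nat_lit 4) (nat_lit 89) (nat_lit 90) = true := by decide +kernel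
def p15_14_0_90 : pfC (piC [(nat_lit 41997052), (nat_lit 26592602), (nat_lit 19805017), (nat_lit 13318063)] (nat_lit 24651042)) p15_14_0 (nat_lit 4) (nat_lit 90) (nat_lit 91) = true := by decide +kernel
def p15_14_0_91 : pfC (piC [(nat_lit 41997052), (nat_lit 26592602), (nat_lit 19805017), (nat_lit 13318063)] (nat_lit 24651042)) p15_14_0 (nat_lit 4) (nat_lit 91) (nat_lit 92) = true := by decide +kernel
def p15_14_0_92 : pfC (piC [(nat_lit 41997052), (nat_lit 26592602), (nat_lit 19805017), (nat_lit 13318063)] (nat_lit 24651042)) p15_14_0 (nat_lit 4) (nat_lit 92) (nat_lit 93) = true := by decide +kernel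
def p15_14_0_93 : pfC (piC [(nat_lit 41997052), (nat_lit 26592602), (nat_lit 19805017), (nat_lit 13318063)] (nat_lit 24651042)) p15_14_0 (nat_lit 4) (nat_lit 93) (nat_lit 94) = true := by decide +kernel
def p15_14_0_94 : pfC (piC [(nat_lit 41997052), (nat_lit 26592602), (nat_lit 19805017), (nat_lit 13318063)] (nat_lit 24651042)) p15_14_0 (nat_lit 4) (nat_lit 94) (nat_lit 95) = true := by decide +kernel
def p15_14_0_95 : pfC (piC [(nat_lit 41997052), (nat_lit 26592602), (nat_lit 19805017), (nat_lit 13318063)] (nat_lit 24651042)) p15_14_0 (nat_lit 4) (nat_lit 95) (nat_lit 96) = true := by decide +kernel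
def p15_14_0_96 : pfC (piC [(nat_lit 41997052), (nat_lit 26592602), (nat_lit 19805017), (nat_lit 13318063)] (nat_lit 24651042)) p15_14_0 (nat_lit 4) (nat_lit 96) (nat_lit 97) = true := by decide +kernel
def p15_14_0_97 : pfC (piC [(nat_lit 41997052), (nat_lit 26592602), (nat_lit 19805017), (nat_lit 13318063)] (nat_lit 24651042)) p15_14_0 (nat_lit 4) (nat_lit 97) (nat_lit 98) = true := by decide +kernel
def p15_14_0_98 : pfC (piC [(nat_lit 41997052), (nat_lit 26592602), (nat_lit 19805017), (nat_lit 13318063)] (nat_lit 24651042)) p15_14_0 (nat_lit 4) (nat_lit 98) (nat_lit 99) = true := by decide +kernel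
def p15_14_0_99 : pfC (piC [(nat_lit 41997052), (nat_lit 26592602), (nat_lit 19805017), (nat_lit 13318063)] (nat_lit 24651042)) p15_14_0 (nat_lit 4) (nat_lit 99) (nat_lit 100) = true := by decide +kernel
def p15_14_0_100 : pfC (piC [(nat_lit 41997052), (nat_lit 26592602), (nat_lit 19805017), (nat_lit 13318063)] (nat_lit 24651042)) p15_14_0 (nat_lit 4) (nat_lit 100) (nat_lit 101) = true := by decide +kernel
def p15_14_0_101 : pfC (piC [(nat_lit 41997052), (nat_lit 26592602), (nat_lit 19805017), (nat_lit 13318063)] (nat_lit 24651042)) p15_14_0 (nat_lit 4) (nat_lit 101) (nat_lit 102) = true := by decide +kernel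
def p15_14_0_102 : pfC (piC [(nat_lit 41997052), (nat_lit 26592602), (nat_lit 19805017), (nat_lit 13318063)] (nat_lit 24651042)) p15_14_0 (nat_lit 4) (nat_lit 102) (nat_lit 103) = true := by decide +kernel
def p15_14_0_103 : pfC (piC [(nat_lit 41997052), (nat_lit 26592602), (nat_lit 19805017), (nat_lit 13318063)] (nat_lit 24651042)) p15_14_0 (nat_lit 4) (nat_lit 103) (nat_lit 104) = true := by decide +kernel
def p15_14_0_104 : pfC (piC [(nat_lit 41997052), (nat_lit 26592602), (nat_lit 19805017), (nat_lit 13318063)] (nat_lit 24651042)) p15_14_0 (nat_lit 4) (nat_lit 104) (nat_lit 105) = true := by decide +kernel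
def p15_14_0_105 : pfC (piC [(nat_lit 41997052), (nat_lit 26592602), (nat_lit 19805017), (nat_lit 13318063)] (nat_lit 24651042)) p15_14_0 (nat_lit 4) (nat_lit 105) (nat_lit 106) = true := by decide +kernel
def p15_14_0_106 : pfC (piC [(nat_lit 41997052), (nat_lit 26592602), (nat_lit 19805017), (nat_lit 13318063)] (nat_lit 24651042)) p15_14_0 (nat_lit 4) (nat_lit 106) (nat_lit 107) = true := by decide +kernel
def p15_14_0_107 : pfC (piC [(nat_lit 41997052), (nat_lit 26592602), (nat_lit 19805017), (nat_lit 13318063)] (nat_lit 24651042)) p15_14_0 (nat_lit 4) (nat_lit 107) (nat_lit 108) = true := by decide +kernel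
def p15_14_0_108 : pfC (piC [(nat_lit 41997052), (nat_lit 26592602), (nat_lit 19805017), (nat_lit 13318063)] (nat_lit 24651042)) p15_14_0 (nat_lit 4) (nat_lit 108) (nat_lit 109) = true := by decide +kernel
def p15_14_0_109 : pfC (piC [(nat_lit 41997052), (nat_lit 26592602), (nat_lit 19805017), (nat_lit 13318063)] (nat_lit 24651042)) p15_14_0 (nat_lit 4) (nat_lit 109) (nat_lit 110) = true := by decide +kernel
def p15_14_0_110 : pfC (piC [(nat_lit 41997052), (nat_lit 26592602), (nat_lit 19805017), (nat_lit 13318063)] (nat_lit 24651042)) p15_14_0 (nat_lit 4) (nat_lit 110) (nat_lit 111) = true := by decide +kernel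
def p15_14_0_111 : pfC (piC [(nat_lit 41997052), (nat_lit 26592602), (nat_lit 19805017), (nat_lit 13318063)] (nat_lit 24651042)) p15_14_0 (nat_lit 4) (nat_lit 111) (nat_lit 112) = true := by decide +kernel
def p15_14_0_112 : pfC (piC [(nat_lit 41997052), (nat_lit 26592602), (nat_lit 19805017), (nat_lit 13318063)] (nat_lit 24651042)) p15_14_0 (nat_lit 4) (nat_lit 112) (nat_lit 113) = true := by decide +kernel
def p15_14_0_113 : pfC (piC [(nat_lit 41997052), (nat_lit 26592602), (nat_lit 19805017), (nat_lit 13318063)] (nat_lit 24651042)) p15_14_0 (nat_lit 4) (nat_lit 113) (nat_lit 114) = true := by decide +kernel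
def p15_14_0_114 : pfC (piC [(nat_lit 41997052), (nat_lit 26592602), (nat_lit 19805017), (nat_lit 13318063)] (nat_lit 24651042)) p15_14_0 (nat_lit 4) (nat_lit 114) (nat_lit 115) = true := by decide +kernel
def p15_14_0_115 : pfC (piC [(nat_lit 41997052), (nat_lit 26592602), (nat_lit 19805017), (nat_lit 13318063)] (nat_lit 24651042)) p15_14_0 (nat_lit 4) (nat_lit 115) (nat_lit 116) = true := by decide +kernel
def p15_14_0_116 : pfC (piC [(nat_lit 41997052), (nat_lit 26592602), (nat_lit 19805017), (nat_lit 13318063)] (nat_lit 24651042)) p15_14_0 (nat_lit 4) (nat_lit 116) (nat_lit 117) = true := by decide +kernel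
def p15_14_0_117 : pfC (piC [(nat_lit 41997052), (nat_lit 26592602), (nat_lit 19805017), (nat_lit 13318063)] (nat_lit 24651042)) p15_14_0 (nat_lit 4) (nat_lit 117) (nat_lit 118) = true := by decide +kernel
def p15_14_0_118 : pfC (piC [(nat_lit 41997052), (nat_lit 26592602), (nat_lit 19805017), (nat_lit 13318063)] (nat_lit 24651042)) p15_14_0 (nat_lit 4) (nat_lit 118) (nat_lit 119) = true := by decide +kernel
def p15_14_0_119 : pfC (piC [(nat_lit 41997052), (nat_lit 26592602), (nat_lit 19805017), (nat_lit 13318063)] (nat_lit 24651042)) p15_14_0 (nat_lit 4) (nat_lit 119) (nat_lit 120) = true := by decide +kernel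
def p15_14_0_120 : pfC (piC [(nat_lit 41997052), (nat_lit 26592602), (nat_lit 19805017), (nat_lit 13318063)] (nat_lit 24651042)) p15_14_0 (nat_lit 4) (nat_lit 120) (nat_lit 121) = true := by decide +kernel
def p15_14_0_121 : pfC (piC [(nat_lit 41997052), (nat_lit 26592602), (nat_lit 19805017), (nat_lit 13318063)] (nat_lit 24651042)) p15_14_0 (nat_lit 4) (nat_lit 121) (nat_lit 122) = true := by decide +kernel
def p15_14_0_122 : pfC (piC [(nat_lit 41997052), (nat_lit 26592602), (nat_lit 19805017), (nat_lit 13318063)] (nat_lit 24651042)) p15_14_0 (nat_lit 4) (nat_lit 122) (nat_lit 123) = true := by decide +kernel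
def p15_14_0_123 : pfC (piC [(nat_lit 41997052), (nat_lit 26592602), (nat_lit 19805017), (nat_lit 13318063)] (nat_lit 24651042)) p15_14_0 (nat_lit 4) (nat_lit 123) (nat_lit 124) = true := by decide +kernel
def p15_14_0_124 : pfC (piC [(nat_lit 41997052), (nat_lit 26592602), (nat_lit 19805017), (nat_lit 13318063)] (nat_lit 24651042)) p15_14_0 (nat_lit 4) (nat_lit 124) (nat_lit 125) = true := by decide +kernel
def p15_14_0_125 : pfC (piC [(nat_lit 41997052), (nat_lit 26592602), (nat_lit 19805017), (nat_lit 13318063)] (nat_lit 24651042)) p15_14_0 (nat_lit 4) (nat_lit 125) (nat_lit 126) = true := by decide +kernel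
def p15_14_0_126 : pfC (piC [(nat_lit 41997052), (nat_lit 26592602), (nat_lit 19805017), (nat_lit 13318063)] (nat_lit 24651042)) p15_14_0 (nat_lit 4) (nat_lit 126) (nat_lit 127) = true := by decide +kernel
def p15_14_0_127 : pfC (piC [(nat_lit 41997052), (nat_lit 26592602), (nat_lit 19805017), (nat_lit 13318063)] (nat_lit 24651042)) p15_14_0 (nat_lit 4) (nat_lit 127) (nat_lit 128) = true := by decide +kernel
def p15_14_0_128 : pfC (piC [(nat_lit 41997052), (nat_lit 26592602), (nat_lit 19805017), (nat_lit 13318063)] (nat_lit 24651042)) p15_14_0 (nat_lit 4) (nat_lit 128) (nat_lit 129) = true := by decide +kernel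
def p15_14_0_129 : pfC (piC [(nat_lit 41997052), (nat_lit 26592602), (nat_lit 19805017), (nat_lit 13318063)] (nat_lit 24651042)) p15_14_0 (nat_lit 4) (nat_lit 129) (nat_lit 130) = true := by decide +kernel
def p15_14_0_130 : pfC (piC [(nat_lit 41997052), (nat_lit 26592602), (nat_lit 19805017), (nat_lit 13318063)] (nat_lit 24651042)) p15_14_0 (nat_lit 4) (nat_lit 130) (nat_lit 131) = true := by decide +kernel
def p15_14_0_131 : pfC (piC [(nat_lit 41997052), (nat_lit 26592602), (nat_lit 19805017), (nat_lit 13318063)] (nat_lit 24651042)) p15_14_0 (nat_lit 4) (nat_lit 131) (nat_lit 132) = true := by decide +kernel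
def p15_14_0_132 : pfC (piC [(nat_lit 41997052), (nat_lit 26592602), (nat_lit 19805017), (nat_lit 13318063)] (nat_lit 24651042)) p15_14_0 (nat_lit 4) (nat_lit 132) (nat_lit 133) = true := by decide +kernel
def p15_14_0_133 : pfC (piC [(nat_lit 41997052), (nat_lit 26592602), (nat_lit 19805017), (nat_lit 13318063)] (nat_lit 24651042)) p15_14_0 (nat_lit 4) (nat_lit 133) (nat_lit 134) = true := by decide +kernel
def p15_14_0_134 : pfC (piC [(nat_lit 41997052), (nat_lit 26592602), (nat_lit 19805017), (nat_lit 13318063)] (nat_lit 24651042)) p15_14_0 (nat_lit 4) (nat_lit 134) (nat_lit 135) = true := by decide +kernel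
def p15_14_0_135 : pfC (piC [(nat_lit 41997052), (nat_lit 26592602), (nat_lit 19805017), (nat_lit 13318063)] (nat_lit 24651042)) p15_14_0 (nat_lit 4) (nat_lit 135) (nat_lit 136) = true := by decide +kernel
def p15_14_0_136 : pfC (piC [(nat_lit 41997052), (nat_lit 26592602), (nat_lit 19805017), (nat_lit 13318063)] (nat_lit 24651042)) p15_14_0 (nat_lit 4) (nat_lit 136) (nat_lit 137) = true := by decide +kernel
def p15_14_0_137 : pfC (piC [(nat_lit 41997052), (nat_lit 26592602), (nat_lit 19805017), (nat_lit 13318063)] (nat_lit 24651042)) p15_14_0 (nat_lit 4) (nat_lit 137) (nat_lit 138) = true := by decide +kernel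
def p15_14_0_138 : pfC (piC [(nat_lit 41997052), (nat_lit 26592602), (nat_lit 19805017), (nat_lit 13318063)] (nat_lit 24651042)) p15_14_0 (nat_lit 4) (nat_lit 138) (nat_lit 139) = true := by decide +kernel
def p15_14_0_139 : pfC (piC [(nat_lit 41997052), (nat_lit 26592602), (nat_lit 19805017), (nat_lit 13318063)] (nat_lit 24651042)) p15_14_0 (nat_lit 4) (nat_lit 139) (nat_lit 140) = true := by decide +kernel
def p15_14_0_140 : pfC (piC [(nat_lit 41997052), (nat_lit 26592602), (nat_lit 19805017), (nat_lit 13318063)] (nat_lit 24651042)) p15_14_0 (nat_lit 4) (nat_lit 140) (nat_lit 141) = true := by decide +kernel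
def p15_14_0_141 : pfC (piC [(nat_lit 41997052), (nat_lit 26592602), (nat_lit 19805017), (nat_lit 13318063)] (nat_lit 24651042)) p15_14_0 (nat_lit 4) (nat_lit 141) (nat_lit 142) = true := by decide +kernel
def p15_14_0_142 : pfC (piC [(nat_lit 41997052), (nat_lit 26592602), (nat_lit 19805017), (nat_lit 13318063)] (nat_lit 24651042)) p15_14_0 (nat_lit 4) (nat_lit 142) (nat_lit 143) = true := by decide +kernel
def p15_14_0_143 : pfC (piC [(nat_lit 41997052), (nat_lit 26592602), (nat_lit 19805017), (nat_lit 13318063)] (nat_lit 24651042)) p15_14_0 (nat_lit 4) (nat_lit 143) (nat_lit 144) = true := by decide +kernel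
def p15_14_0_144 : pfC (piC [(nat_lit 41997052), (nat_lit 26592602), (nat_lit 19805017), (nat_lit 13318063)] (nat_lit 24651042)) p15_14_0 (nat_lit 4) (nat_lit 144) (nat_lit 145) = true := by decide +kernel
def p15_14_0_145 : pfC (piC [(nat_lit 41997052), (nat_lit 26592602), (nat_lit 19805017), (nat_lit 13318063)] (nat_lit 24651042)) p15_14_0 (nat_lit 4) (nat_lit 145) (nat_lit 146) = true := by decide +kernel
def p15_14_0_146 : pfC (piC [(nat_lit 41997052), (nat_lit 26592602), (nat_lit 19805017), (nat_lit 13318063)] (nat_lit 24651042)) p15_14_0 (nat_lit 4) (nat_lit 146) (nat_lit 147) = true := by decide +kernel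
def p15_14_0_147 : pfC (piC [(nat_lit 41997052), (nat_lit 26592602), (nat_lit 19805017), (nat_lit 13318063)] (nat_lit 24651042)) p15_14_0 (nat_lit 4) (nat_lit 147) (nat_lit 148) = true := by decide +kernel
def p15_14_0_148 : pfC (piC [(nat_lit 41997052), (nat_lit 26592602), (nat_lit 19805017), (nat_lit 13318063)] (nat_lit 24651042)) p15_14_0 (nat_lit 4) (nat_lit 148) (nat_lit 149) = true := by decide +kernel
def p15_14_0_149 : pfC (piC [(nat_lit 41997052), (nat_lit 26592602), (nat_lit 19805017), (nat_lit 13318063)] (nat_lit 24651042)) p15_14_0 (nat_lit 4) (nat_lit 149) (nat_lit 150) = true := by decide +kernel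
def p15_14_0_150 : pfC (piC [(nat_lit 41997052), (nat_lit 26592602), (nat_lit 19805017), (nat_lit 13318063)] (nat_lit 24651042)) p15_14_0 (nat_lit 4) (nat_lit 150) (nat_lit 151) = true := by decide +kernel
def p15_14_0_151 : pfC (piC [(nat_lit 41997052), (nat_lit 26592602), (nat_lit 19805017), (nat_lit 13318063)] (nat_lit 24651042)) p15_14_0 (nat_lit 4) (nat_lit 151) (nat_lit 152) = true := by decide +kernel
def p15_14_0_152 : pfC (piC [(nat_lit 41997052), (nat_lit 26592602), (nat_lit 19805017), (nat_lit 13318063)] (nat_lit 24651042)) p15_14_0 (nat_lit 4) (nat_lit 152) (nat_lit 153) = true := by decide +kernel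
def p15_14_0_153 : pfC (piC [(nat_lit 41997052), (nat_lit 26592602), (nat_lit 19805017), (nat_lit 13318063)] (nat_lit 24651042)) p15_14_0 (nat_lit 4) (nat_lit 153) (nat_lit 154) = true := by decide +kernel
def p15_14_0_154 : pfC (piC [(nat_lit 41997052), (nat_lit 26592602), (nat_lit 19805017), (nat_lit 13318063)] (nat_lit 24651042)) p15_14_0 (nat_lit 4) (nat_lit 154) (nat_lit 155) = true := by decide +kernel
def p15_14_0_155 : pfC (piC [(nat_lit 41997052), (nat_lit 26592602), (nat_lit 19805017), (nat_lit 13318063)] (nat_lit 24651042)) p15_14_0 (nat_lit 4) (nat_lit 155) (nat_lit 156) = true := by decide +kernel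
def p15_14_0_156 : pfC (piC [(nat_lit 41997052), (nat_lit 26592602), (nat_lit 19805017), (nat_lit 13318063)] (nat_lit 24651042)) p15_14_0 (nat_lit 4) (nat_lit 156) (nat_lit 157) = true := by decide +kernel
theorem p15_14_0_T : PfS (PiF n15_14.reverse (nat_lit 24651042)) p15_14_0 (nat_lit 4) [] 0 :=
  pftab_of (los := [(nat_lit 41997052), (nat_lit 26592602), (nat_lit 19805017), (nat_lit 13318063)]) (by decide +kernel) (hi := (nat_lit 157)) (PfP.trans (PfP.trans (PfP.trans (PfP.trans (PfP.trans (PfP.trans (PfP.trans (PfP.trans (PfP.trans (PfP.trans (PfP.trans (PfP.trans (PfP.trans (PfP.trans (PfP.trans (PfP.trans (PfP.trans (PfP.trans (PfP.trans (PfP.trans (PfP.trans (PfP.trans (PfP.trans (PfP.trans (PfP.trans (PfP.trans (PfP.trans (PfP.trans (PfP.trans (PfP.trans (PfP.trans (PfP.trans (PfP.trans (PfP.trans (PfP.trans (PfP.trans (PfP.trans (PfP.trans (PfP.trans (PfP.trans (PfP.trans (PfP.trans (PfP.trans (PfP.trans (PfP.trans (PfP.trans (PfP.trans (PfP.trans (PfP.trans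 (PfP.trans (PfP.trans (PfP.trans (PfP.trans (PfP.trans (PfP.trans (PfP.trans (PfP.trans (PfP.trans (PfP.trans (PfP.trans (PfP.trans (PfP.trans (PfP.trans (PfP.trans (PfP.trans (PfP.trans (PfP.trans (PfP.trans (PfP.trans (PfP.trans (PfP.trans (PfP.trans (PfP.trans (PfP.trans (PfP.trans (PfP.trans (PfP.trans (PfP.trans (PfP.trans (PfP.trans (PfP.trans (PfP.trans (PfP.trans (PfP.trans (PfP.trans (PfP.trans (PfP.trans (PfP.trans (PfP.trans (PfP.trans (PfP.trans (PfP.trans (PfP.trans (PfP.trans (PfP.trans (PfP.trans (PfP.trans (PfP.trans (PfP.trans (PfP.trans (PfP.trans (PfP.trans (PfP.trans (PfP.trans (PfP.trans (PfP.trans (PfP.trans (PfP.trans (PfP.trans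
 (PfP.trans (PfP.trans (PfP.trans (PfP.trans (PfP.trans (PfP.trans (PfP.trans (PfP.trans (PfP.trans (PfP.trans (PfP.trans (PfP.trans (PfP.trans (PfP.trans (PfP.trans (PfP.trans (PfP.trans (PfP.trans (PfP.trans (PfP.trans (PfP.trans (PfP.trans (PfP.trans (PfP.trans (PfP.trans (PfP.trans (PfP.trans (PfP.trans (PfP.trans (PfP.trans (PfP.trans (PfP.trans (PfP.trans (PfP.trans (PfP.trans (PfP.trans (PfP.trans (PfP.trans (PfP.trans (PfP.trans (PfP.trans (PfP.trans (PfP.trans (PfP.trans (PfP.trans (PfP.trans (PfP.trans (pfC_sound p15_14_0_0) (pfC_sound p15_14_0_1)) (pfC_sound p15_14_0_2)) (pfC_sound p15_14_0_3)) (pfC_sound p15_14_0_4)) (pfC_sound p15_14_0_5)) (pfC_sound p15_14_0_6)) (pfC_sound p15_14_0_7)) (pfC_sound p15_14_0_8)) (pfC_sound p15_14_0_9)) (pfC_sound p15_14_0_10)) (pfC_sound p15_14_0_11)) (pfC_sound p15_14_0_12)) (pfC_sound p15_14_0_13)) (pfC_sound p15_14_0_14)) (pfC_sound p15_14_0_15)) (pfC_sound p15_14_0_16)) (pfC_sound p15_14_0_17)) (pfC_sound p15_14_0_18))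 (pfC_sound p15_14_0_19)) (pfC_sound p15_14_0_20)) (pfC_sound p15_14_0_21)) (pfC_sound p15_14_0_22)) (pfC_sound p15_14_0_23)) (pfC_sound p15_14_0_24)) (pfC_sound p15_14_0_25)) (pfC_sound p15_14_0_26)) (pfC_sound
 p15_14_0_27)) (pfC_sound p15_14_0_28)) (pfC_sound p15_14_0_29)) (pfC_sound p15_14_0_30)) (pfC_sound p15_14_0_31)) (pfC_sound p15_14_0_32)) (pfC_sound p15_14_0_33)) (pfC_sound p15_14_0_34)) (pfC_sound p15_14_0_35)) (pfC_sound p15_14_0_36)) (pfC_sound p15_14_0_37)) (pfC_sound p15_14_0_38)) (pfC_sound p15_14_0_39)) (pfC_sound p15_14_0_40)) (pfC_sound p15_14_0_41)) (pfC_sound p15_14_0_42)) (pfC_sound p15_14_0_43)) (pfC_sound p15_14_0_44)) (pfC_sound p15_14_0_45)) (pfC_sound p15_14_0_46)) (pfC_sound p15_14_0_47)) (pfC_sound p15_14_0_48)) (pfC_sound p15_14_0_49)) (pfC_sound p15_14_0_50)) (pfC_sound p15_14_0_51)) (pfC_sound p15_14_0_52)) (pfC_sound p15_14_0_53)) (pfC_sound p15_14_0_54)) (pfC_sound p15_14_0_55)) (pfC_sound p15_14_0_56)) (pfC_sound p15_14_0_57))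 (pfC_sound p15_14_0_58)) (pfC_sound p15_14_0_59)) (pfC_sound p15_14_0_60)) (pfC_sound p15_14_0_61)) (pfC_sound p15_14_0_62)) (pfC_sound p15_14_0_63)) (pfC_sound p15_14_0_64)) (pfC_sound p15_14_0_65)) (pfC_sound p15_14_0_66)) (pfC_sound p15_14_0_67)) (pfC_sound p15_14_0_68)) (pfC_sound p15_14_0_69)) (pfC_sound p15_14_0_70)) (pfC_sound p15_14_0_71)) (pfC_sound p15_14_0_72)) (pfC_sound p15_14_0_73)) (pfC_sound p15_14_0_74)) (pfC_sound
 p15_14_0_75)) (pfC_sound p15_14_0_76)) (pfC_sound p15_14_0_77)) (pfC_sound p15_14_0_78)) (pfC_sound p15_14_0_79)) (pfC_sound p15_14_0_80)) (pfC_sound p15_14_0_81)) (pfC_sound p15_14_0_82)) (pfC_sound p15_14_0_83)) (pfC_sound p15_14_0_84)) (pfC_sound p15_14_0_85)) (pfC_sound p15_14_0_86)) (pfC_sound p15_14_0_87)) (pfC_sound p15_14_0_88)) (pfC_sound p15_14_0_89)) (pfC_sound p15_14_0_90)) (pfC_sound p15_14_0_91)) (pfC_sound p15_14_0_92)) (pfC_sound p15_14_0_93)) (pfC_sound p15_14_0_94)) (pfC_sound p15_14_0_95)) (pfC_sound p15_14_0_96))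 (pfC_sound p15_14_0_97)) (pfC_sound p15_14_0_98)) (pfC_sound p15_14_0_99)) (pfC_sound p15_14_0_100)) (pfC_sound p15_14_0_101)) (pfC_sound p15_14_0_102)) (pfC_sound p15_14_0_103)) (pfC_sound p15_14_0_104)) (pfC_sound p15_14_0_105)) (pfC_sound p15_14_0_106)) (pfC_sound p15_14_0_107)) (pfC_sound p15_14_0_108)) (pfC_sound p15_14_0_109)) (pfC_sound p15_14_0_110)) (pfC_sound p15_14_0_111)) (pfC_sound p15_14_0_112)) (pfC_sound p15_14_0_113)) (pfC_sound p15_14_0_114)) (pfC_sound p15_14_0_115)) (pfC_sound p15_14_0_116)) (pfC_sound p15_14_0_117)) (pfC_sound p15_14_0_118)) (pfC_sound p15_14_0_119)) (pfC_sound p15_14_0_120)) (pfC_sound p15_14_0_121)) (pfC_sound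
 p15_14_0_122)) (pfC_sound p15_14_0_123)) (pfC_sound p15_14_0_124)) (pfC_sound p15_14_0_125)) (pfC_sound p15_14_0_126)) (pfC_sound p15_14_0_127)) (pfC_sound p15_14_0_128)) (pfC_sound p15_14_0_129)) (pfC_sound p15_14_0_130)) (pfC_sound p15_14_0_131)) (pfC_sound p15_14_0_132)) (pfC_sound p15_14_0_133)) (pfC_sound p15_14_0_134)) (pfC_sound p15_14_0_135)) (pfC_sound p15_14_0_136)) (pfC_sound p15_14_0_137)) (pfC_sound p15_14_0_138)) (pfC_sound p15_14_0_139)) (pfC_sound p15_14_0_140)) (pfC_sound p15_14_0_141)) (pfC_sound p15_14_0_142)) (pfC_sound p15_14_0_143)) (pfC_sound p15_14_0_144)) (pfC_sound p15_14_0_145)) (pfC_sound p15_14_0_146)) (pfC_sound p15_14_0_147)) (pfC_sound p15_14_0_148)) (pfC_sound p15_14_0_149)) (pfC_sound p15_14_0_150)) (pfC_sound p15_14_0_151)) (pfC_sound p15_14_0_152)) (pfC_sound p15_14_0_153)) (pfC_sound p15_14_0_154)) (pfC_sound p15_14_0_155)) (pfC_sound p15_14_0_156)) (by decide +kernel)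

def z15_14_0 : zOK yB15_14 (nat_lit 0) (nat_lit 0) (nat_lit 400) (nat_lit 24651042) (nat_lit 10161112) = true := by decide +kernel
def g15_14_0 : gOK yB15_14.x P15_14 (nat_lit 1428) (q15_14 :: r15_14) (nat_lit 0) (nat_lit 0) (nat_lit 1) (nat_lit 400) (nat_lit 0) (nat_lit 11000000) (nat_lit 12712500) (nat_lit 12712500) [(nat_lit 800), (nat_lit 1400), (nat_lit 1530)] = true := by decide +kernel
def v15_14_0 : ivC P15_14 s15_14 w15_14 n15_14 (nat_lit 4) (nat_lit 5460) (nat_lit 0) (nat_lit 0) f144_1_0 f152_1_0 (nat_lit 1) (nat_lit 400) f144_1_400 f152_1_400 (nat_lit 24651042) (nat_lit 10161112) p15_14_0 = true := by decide +kernel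
def p15_14_1 : PF := (PF.cons (PF.cons (PF.cons (PF.cons (PF.leaf (nat_lit 2178754) (nat_lit 10579657) (nat_lit 56529155) (nat_lit 10579657) [(nat_lit 0), (nat_lit 0), (nat_lit 0), (nat_lit 0)]) (PF.cons (PF.leaf (nat_lit 2305392) (nat_lit 208195) (nat_lit 56306992) (nat_lit 10593625) [(nat_lit 208195), (nat_lit 0), (nat_lit 0), (nat_lit 0)]) (PF.cons (PF.leaf (nat_lit 2457333) (nat_lit 226748) (nat_lit 56046413) (nat_lit 10608902) [(nat_lit 226748), (nat_lit 0), (nat_lit 0), (nat_lit 0)]) (PF.cons (PF.leaf (nat_lit 2628394) (nat_lit 243348) (nat_lit 55754095) (nat_lit 10624671) [(nat_lit 243348), (nat_lit 0), (nat_lit 0), (nat_lit 0)]) (PF.cons (PF.leaf (nat_lit 2816067) (nat_lit 258448) (nat_lit 55434718) (nat_lit 10640302) [(nat_lit 258448), (nat_lit 0), (nat_lit 0), (nat_lit 0)]) (PF.cons (PF.leaf (nat_lit 3018432) (nat_lit 272332) (nat_lit 55091862) (nat_lit 10655285) [(nat_lit 272332), (nat_lit 0), (nat_lit 0), (nat_lit 0)]) (PF.cons (PF.leaf (nat_lit 3233904)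 (nat_lit 285196) (nat_lit 54728428) (nat_lit 10669202) [(nat_lit 285196), (nat_lit 0), (nat_lit 0), (nat_lit 0)]) (PF.cons PF.nil (PF.cons PF.nil PF.nil))))))))) (PF.cons (PF.cons (PF.leaf (nat_lit 2678643) (nat_lit 1107993) (nat_lit
 55362180) (nat_lit 10638639) [(nat_lit 0), (nat_lit 1107993), (nat_lit 0), (nat_lit 0)]) (PF.cons (PF.leaf (nat_lit 2846654) (nat_lit 255330) (nat_lit 55067849) (nat_lit 10651225) [(nat_lit 255330), (nat_lit 1134406), (nat_lit 0), (nat_lit 0)]) (PF.cons (PF.leaf (nat_lit 3033767) (nat_lit 269802) (nat_lit 54744983) (nat_lit 10663521) [(nat_lit 269802), (nat_lit 1160702), (nat_lit 0), (nat_lit 0)]) (PF.cons (PF.leaf (nat_lit 3236157) (nat_lit 283049) (nat_lit 54398206) (nat_lit 10675016) [(nat_lit 283049), (nat_lit 1186442), (nat_lit 0), (nat_lit 0)]) (PF.cons (PF.leaf (nat_lit 3451867) (nat_lit 295289) (nat_lit 54030957) (nat_lit 10685314) [(nat_lit 295289), (nat_lit 1211382), (nat_lit 0), (nat_lit 0)]) (PF.cons PF.nil (PF.cons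 PF.nil PF.nil))))))) (PF.cons (PF.cons (PF.leaf (nat_lit 3256598) (nat_lit 1196712) (nat_lit 54035206) (nat_lit 10680180) [(nat_lit 0), (nat_lit 1196712), (nat_lit 0), (nat_lit 0)]) (PF.cons (PF.leaf (nat_lit 3456097) (nat_lit 292393) (nat_lit 53688905) (nat_lit 10688166) [(nat_lit 292393), (nat_lit 1219673), (nat_lit 0), (nat_lit 0)]) (PF.cons (PF.leaf (nat_lit 3670734) (nat_lit 304188) (nat_lit 53321313) (nat_lit 10694876) [(nat_lit 304188), (nat_lit
 1242122), (nat_lit 0), (nat_lit 0)]) (PF.cons (PF.leaf (nat_lit 3897486) (nat_lit 315105) (nat_lit 52935772) (nat_lit 10700010) [(nat_lit 315105), (nat_lit 1263856), (nat_lit 0), (nat_lit 0)]) (PF.cons PF.nil PF.nil))))) (PF.cons (PF.cons (PF.leaf (nat_lit 3892163) (nat_lit 1270043) (nat_lit 52600726) (nat_lit 10697955) [(nat_lit 0), (nat_lit 1270043), (nat_lit 0), (nat_lit 0)]) (PF.cons (PF.leaf (nat_lit 4116029) (nat_lit 322548) (nat_lit 52217618) (nat_lit 10699577) [(nat_lit 322548), (nat_lit 1289689), (nat_lit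 0), (nat_lit 0)]) (PF.cons PF.nil (PF.cons PF.nil PF.nil)))) (PF.cons (PF.cons (PF.leaf (nat_lit 4569624) (nat_lit 1330343) (nat_lit 51098027) (nat_lit 10689412) [(nat_lit 0), (nat_lit 1330343), (nat_lit 0), (nat_lit 0)]) (PF.cons PF.nil PF.nil)) (PF.cons PF.nil PF.nil)))))) (PF.cons (PF.cons (PF.cons (PF.leaf (nat_lit 3235477) (nat_lit 3028482) (nat_lit 53413310) (nat_lit 10667020) [(nat_lit 0), (nat_lit 0), (nat_lit 3028482), (nat_lit 0)]) (PF.cons (PF.leaf (nat_lit 3413296) (nat_lit 277007) (nat_lit 53106577) (nat_lit 10672041) [(nat_lit 277007), (nat_lit 0), (nat_lit 3053185), (nat_lit 0)]) (PF.cons (PF.leaf (nat_lit 3609591) (nat_lit 290783) (nat_lit 52772694)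
 (nat_lit 10676112) [(nat_lit 290783), (nat_lit 0), (nat_lit 3078438), (nat_lit 0)]) (PF.cons (PF.leaf (nat_lit 3820249) (nat_lit 303206) (nat_lit 52416644) (nat_lit 10678892) [(nat_lit 303206), (nat_lit 0), (nat_lit 3103655), (nat_lit 0)]) (PF.cons (PF.leaf (nat_lit 4043296) (nat_lit 314548) (nat_lit 52042059) (nat_lit 10680120) [(nat_lit 314548), (nat_lit 0), (nat_lit 3128439), (nat_lit 0)]) (PF.cons PF.nil (PF.cons PF.nil PF.nil))))))) (PF.cons (PF.cons (PF.leaf (nat_lit 3830916) (nat_lit 1257568) (nat_lit 52057808) (nat_lit 10675269) [(nat_lit 0), (nat_lit 1257568), (nat_lit 3118167), (nat_lit 0)]) (PF.cons (PF.leaf (nat_lit 4037494) (nat_lit 310598) (nat_lit 51705730) (nat_lit 10674942) [(nat_lit 310598), (nat_lit 1277149), (nat_lit 3140391), (nat_lit 0)]) (PF.cons (PF.leaf (nat_lit 4258304) (nat_lit 321606) (nat_lit 51334067) (nat_lit 10673010) [(nat_lit 321606), (nat_lit 1296183), (nat_lit 3162338), (nat_lit 0)]) (PF.cons (PF.leaf (nat_lit 4490366) (nat_lit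 331681) (nat_lit 50946266) (nat_lit 10669294) [(nat_lit 331681), (nat_lit 1314512), (nat_lit 3183695), (nat_lit 0)]) (PF.cons PF.nil PF.nil))))) (PF.cons (PF.cons (PF.leaf (nat_lit 4475307) (nat_lit 1318240) (nat_lit
 50619743) (nat_lit 10660127) [(nat_lit 0), (nat_lit 1318240), (nat_lit 3192460), (nat_lit 0)]) (PF.cons (PF.leaf (nat_lit 4703574) (nat_lit 337518) (nat_lit 50237004) (nat_lit 10653431) [(nat_lit 337518), (nat_lit 1334806), (nat_lit 3211247), (nat_lit 0)]) (PF.cons PF.nil (PF.cons PF.nil PF.nil)))) (PF.cons (PF.cons (PF.leaf (nat_lit 5154067) (nat_lit 1367536) (nat_lit 49134187) (nat_lit 10620810) [(nat_lit 0), (nat_lit 1367536), (nat_lit 3251203), (nat_lit 0)]) (PF.cons PF.nil PF.nil)) (PF.cons PF.nil PF.nil))))) (PF.cons (PF.cons (PF.cons (PF.leaf (nat_lit 4397388) (nat_lit 3184375) (nat_lit 50111412) (nat_lit 10628649) [(nat_lit 0), (nat_lit 0), (nat_lit 3184375), (nat_lit 0)]) (PF.cons (PF.leaf (nat_lit 4608837) (nat_lit 325332) (nat_lit 49759076)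 (nat_lit 10621017) [(nat_lit 325332), (nat_lit 0), (nat_lit 3201693), (nat_lit 0)]) (PF.cons (PF.leaf (nat_lit 4833668) (nat_lit 335612) (nat_lit 49388754) (nat_lit 10611572) [(nat_lit 335612), (nat_lit 0), (nat_lit 3218630), (nat_lit 0)]) (PF.cons PF.nil PF.nil)))) (PF.cons (PF.cons (PF.leaf (nat_lit 5045030) (nat_lit 1354623) (nat_lit 48688849) (nat_lit 10585378) [(nat_lit 0), (nat_lit 1354623), (nat_lit 3239980), (nat_lit 0)])
 (PF.cons (PF.leaf (nat_lit 5275842) (nat_lit 349405) (nat_lit 48310979) (nat_lit 10571611) [(nat_lit 349405), (nat_lit 1368553), (nat_lit 3254131), (nat_lit 0)]) PF.nil)) (PF.cons PF.nil PF.nil))) (PF.cons (PF.cons (PF.cons (PF.leaf (nat_lit 5599042) (nat_lit 3268663) (nat_lit 46821931) (nat_lit 10480890) [(nat_lit 0), (nat_lit 0), (nat_lit 3268663), (nat_lit 0)]) (PF.cons (PF.leaf (nat_lit 5830917) (nat_lit 358691) (nat_lit 46452185) (nat_lit 10461237) [(nat_lit 358691), (nat_lit 0), (nat_lit 3278899), (nat_lit 0)]) PF.nil)) (PF.cons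 PF.nil PF.nil)) (PF.cons PF.nil (PF.cons PF.nil PF.nil)))))) (PF.cons (PF.cons (PF.cons (PF.cons (PF.leaf (nat_lit 4185965) (nat_lit 8186678) (nat_lit 48476798) (nat_lit 10445335) [(nat_lit 0), (nat_lit 0), (nat_lit 0), (nat_lit 8186678)]) (PF.cons (PF.leaf (nat_lit 4364847) (nat_lit 290289) (nat_lit 48192620) (nat_lit 10437586) [(nat_lit 290289), (nat_lit 0), (nat_lit 0), (nat_lit 8188316)]) (PF.cons (PF.leaf (nat_lit 4561107) (nat_lit 303483) (nat_lit 47884588) (nat_lit 10428181) [(nat_lit 303483), (nat_lit 0), (nat_lit 0), (nat_lit 8189074)]) (PF.cons (PF.leaf (nat_lit 4770636) (nat_lit 315167) (nat_lit 47557479) (nat_lit 10417076) [(nat_lit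
 315167), (nat_lit 0), (nat_lit 0), (nat_lit 8188755)]) (PF.cons (PF.leaf (nat_lit 4991429) (nat_lit 325653) (nat_lit 47214754) (nat_lit 10404229) [(nat_lit 325653), (nat_lit 0), (nat_lit 0), (nat_lit 8187213)]) (PF.cons (PF.leaf (nat_lit 5221923) (nat_lit 335155) (nat_lit 46859082) (nat_lit 10389612) [(nat_lit 335155), (nat_lit 0), (nat_lit 0), (nat_lit 8184339)]) (PF.cons PF.nil PF.nil))))))) (PF.cons (PF.cons (PF.leaf (nat_lit 4769075) (nat_lit 1290957) (nat_lit 47234753) (nat_lit 10400718) [(nat_lit 0), (nat_lit 1290957), (nat_lit 0), (nat_lit 8182383)]) (PF.cons (PF.leaf (nat_lit 4973515) (nat_lit 320635) (nat_lit 46913589) (nat_lit 10387663) [(nat_lit 320635), (nat_lit 1306962), (nat_lit 0), (nat_lit 8179961)]) (PF.cons (PF.leaf (nat_lit 5190957) (nat_lit 330826) (nat_lit 46575769) (nat_lit 10372800) [(nat_lit 330826), (nat_lit 1322292), (nat_lit 0), (nat_lit 8176296)]) (PF.cons (PF.leaf (nat_lit 5418582) (nat_lit 340006) (nat_lit 46224511) (nat_lit 10356137)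 [(nat_lit 340006), (nat_lit 1336844), (nat_lit 0), (nat_lit 8171300)]) (PF.cons PF.nil PF.nil))))) (PF.cons (PF.cons (PF.leaf (nat_lit 5391877) (nat_lit 1337675) (nat_lit 45934543) (nat_lit 10337328) [(nat_lit 0),
 (nat_lit 1337675), (nat_lit 0), (nat_lit 8161589)]) (PF.cons (PF.leaf (nat_lit 5614906) (nat_lit 344101) (nat_lit 45589740) (nat_lit 10318855) [(nat_lit 344101), (nat_lit 1350731), (nat_lit 0), (nat_lit 8154652)]) (PF.cons (PF.leaf (nat_lit 5847905) (nat_lit 352203) (nat_lit 45233312) (nat_lit 10298568) [(nat_lit 352203), (nat_lit 1363098), (nat_lit 0), (nat_lit 8146328)]) (PF.cons PF.nil PF.nil)))) (PF.cons (PF.cons (PF.leaf (nat_lit 6041187) (nat_lit 1374157) (nat_lit 44605866) (nat_lit 10256005) [(nat_lit 0), (nat_lit 1374157), (nat_lit 0), (nat_lit 8124467)]) (PF.cons (PF.leaf (nat_lit 6277729) (nat_lit 362596) (nat_lit 44246965) (nat_lit 10232337) [(nat_lit 362596), (nat_lit 1384637), (nat_lit 0), (nat_lit 8113002)]) PF.nil)) (PF.cons PF.nil PF.nil)))))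 (PF.cons (PF.cons (PF.cons (PF.leaf (nat_lit 5295296) (nat_lit 3184355) (nat_lit 45497486) (nat_lit 10295073) [(nat_lit 0), (nat_lit 0), (nat_lit 3184355), (nat_lit 8131897)]) (PF.cons (PF.leaf (nat_lit 5502440) (nat_lit 331249) (nat_lit 45180309) (nat_lit 10277174) [(nat_lit 331249), (nat_lit 0), (nat_lit 3195298), (nat_lit 8124781)]) (PF.cons (PF.leaf (nat_lit 5721909) (nat_lit 340745) (nat_lit 44847855) (nat_lit 10257390)
 [(nat_lit 340745), (nat_lit 0), (nat_lit 3205749), (nat_lit 8116326)]) (PF.cons (PF.leaf (nat_lit 5950870) (nat_lit 349218) (nat_lit 44503297) (nat_lit 10235796) [(nat_lit 349218), (nat_lit 0), (nat_lit 3215554), (nat_lit 8106509)]) (PF.cons PF.nil PF.nil))))) (PF.cons (PF.cons (PF.leaf (nat_lit 5916609) (nat_lit 1359531) (nat_lit 44226112) (nat_lit 10213737) [(nat_lit 0), (nat_lit 1359531), (nat_lit 3215964), (nat_lit 8093468)]) (PF.cons (PF.leaf (nat_lit 6140476) (nat_lit 352230) (nat_lit 43889137) (nat_lit 10190751) [(nat_lit 352230),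 (nat_lit 1370449), (nat_lit 3224147), (nat_lit 8082096)]) (PF.cons (PF.leaf (nat_lit 6373722) (nat_lit 359691) (nat_lit 43541714) (nat_lit 10165985) [(nat_lit 359691), (nat_lit 1380714), (nat_lit 3231664), (nat_lit 8069350)]) (PF.cons PF.nil PF.nil)))) (PF.cons (PF.cons (PF.leaf (nat_lit 6559827) (nat_lit 1388747) (nat_lit 42937306) (nat_lit 10116649) [(nat_lit 0), (nat_lit 1388747), (nat_lit 3236726), (nat_lit 8040637)]) (PF.cons PF.nil PF.nil)) PF.nil))) (PF.cons (PF.cons (PF.cons (PF.leaf (nat_lit 6425569) (nat_lit 3220645) (nat_lit 42586461) (nat_lit 10073075) [(nat_lit 0), (nat_lit 0), (nat_lit 3220645), (nat_lit 8007985)]) (PF.cons (PF.leaf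
 (nat_lit 6649291) (nat_lit 358384) (nat_lit 42259123) (nat_lit 10046423) [(nat_lit 358384), (nat_lit 0), (nat_lit 3225964), (nat_lit 7992952)]) (PF.cons PF.nil PF.nil))) (PF.cons (PF.cons (PF.leaf (nat_lit 7060675) (nat_lit 1397350) (nat_lit 41342627) (nat_lit 9963487) [(nat_lit 0), (nat_lit 1397350), (nat_lit 3231455), (nat_lit 7942436)]) PF.nil) PF.nil)) (PF.cons PF.nil (PF.cons PF.nil PF.nil))))) (PF.cons (PF.cons (PF.cons (PF.cons (PF.leaf (nat_lit 6094783) (nat_lit 7862175) (nat_lit 41491710) (nat_lit 9892751) [(nat_lit 0), (nat_lit 0), (nat_lit 0), (nat_lit 7862175)]) (PF.cons (PF.leaf (nat_lit 6296152) (nat_lit 331757) (nat_lit 41209307) (nat_lit 9869290) [(nat_lit 331757), (nat_lit 0), (nat_lit 0), (nat_lit 7849228)]) (PF.cons (PF.leaf (nat_lit 6509002) (nat_lit 340571) (nat_lit 40913833) (nat_lit 9843976) [(nat_lit 340571), (nat_lit 0), (nat_lit 0), (nat_lit 7834930)]) (PF.cons (PF.leaf (nat_lit 6730525) (nat_lit 348342) (nat_lit 40608128) (nat_lit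 9816972) [(nat_lit 348342), (nat_lit 0), (nat_lit 0), (nat_lit 7819343)]) (PF.cons PF.nil PF.nil))))) (PF.cons (PF.cons (PF.leaf (nat_lit 6688832) (nat_lit 1346130) (nat_lit 40365945) (nat_lit 9791584) [(nat_lit 0), (nat_lit
 1346130), (nat_lit 0), (nat_lit 7802576)]) (PF.cons (PF.leaf (nat_lit 6904985) (nat_lit 350301) (nat_lit 40067678) (nat_lit 9763864) [(nat_lit 350301), (nat_lit 1354847), (nat_lit 0), (nat_lit 7786060)]) (PF.cons (PF.leaf (nat_lit 7129765) (nat_lit 357094) (nat_lit 39760599) (nat_lit 9734529) [(nat_lit 357094), (nat_lit 1362920), (nat_lit 0), (nat_lit 7768288)]) (PF.cons PF.nil PF.nil)))) (PF.cons (PF.cons (PF.leaf (nat_lit 7300555) (nat_lit 1367708) (nat_lit 39230281) (nat_lit 9678751) [(nat_lit 0), (nat_lit 1367708), (nat_lit 0), (nat_lit 7732181)]) (PF.cons PF.nil PF.nil)) PF.nil))) (PF.cons (PF.cons (PF.cons (PF.leaf (nat_lit 7158584) (nat_lit 3144270) (nat_lit 38932511) (nat_lit 9634992) [(nat_lit 0), (nat_lit 0), (nat_lit 3144270),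 (nat_lit 7698519)]) (PF.cons (PF.leaf (nat_lit 7373902) (nat_lit 354306) (nat_lit 38643872) (nat_lit 9605022) [(nat_lit 354306), (nat_lit 0), (nat_lit 3146354), (nat_lit 7679627)]) (PF.cons PF.nil PF.nil))) (PF.cons (PF.cons (PF.leaf (nat_lit 7761515) (nat_lit 1369729) (nat_lit 37839852) (nat_lit 9514887) [(nat_lit 0), (nat_lit 1369729), (nat_lit 3143984), (nat_lit 7620179)]) PF.nil) PF.nil)) (PF.cons PF.nil PF.nil))) (PF.cons (PF.cons (PF.cons
 (PF.cons (PF.leaf (nat_lit 7815839) (nat_lit 7378829) (nat_lit 35776343) (nat_lit 9195980) [(nat_lit 0), (nat_lit 0), (nat_lit 0), (nat_lit 7378829)]) (PF.cons (PF.leaf (nat_lit 8022893) (nat_lit 348000) (nat_lit 35521737) (nat_lit 9164851) [(nat_lit 348000), (nat_lit 0), (nat_lit 0), (nat_lit 7358074)]) PF.nil)) (PF.cons PF.nil PF.nil)) (PF.cons PF.nil PF.nil)) (PF.cons PF.nil (PF.cons PF.nil (PF.cons PF.nil (PF.cons PF.nil PF.nil))))))))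

def p15_14_1_0 : pfC (piC [(nat_lit 41997052), (nat_lit 26592602), (nat_lit 19805017), (nat_lit 13318063)] (nat_lit 10161112)) p15_14_1 (nat_lit 4) (nat_lit 0) (nat_lit 1) = true := by decide +kernel
def p15_14_1_1 : pfC (piC [(nat_lit 41997052), (nat_lit 26592602), (nat_lit 19805017), (nat_lit 13318063)] (nat_lit 10161112)) p15_14_1 (nat_lit 4) (nat_lit 1) (nat_lit 2) = true := by decide +kernel
def p15_14_1_2 : pfC (piC [(nat_lit 41997052), (nat_lit 26592602), (nat_lit 19805017), (nat_lit 13318063)] (nat_lit 10161112)) p15_14_1 (nat_lit 4) (nat_lit 2) (nat_lit 3) = true := by decide +kernel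
def p15_14_1_3 : pfC (piC [(nat_lit 41997052), (nat_lit 26592602), (nat_lit 19805017), (nat_lit 13318063)] (nat_lit 10161112)) p15_14_1 (nat_lit 4) (nat_lit 3) (nat_lit 4) = true := by decide +kernel
def p15_14_1_4 : pfC (piC [(nat_lit 41997052), (nat_lit 26592602), (nat_lit 19805017), (nat_lit 13318063)] (nat_lit 10161112)) p15_14_1 (nat_lit 4) (nat_lit 4) (nat_lit 5) = true := by decide +kernel
def p15_14_1_5 : pfC (piC [(nat_lit 41997052), (nat_lit 26592602), (nat_lit 19805017), (nat_lit 13318063)] (nat_lit 10161112)) p15_14_1 (nat_lit 4) (nat_lit 5) (nat_lit 6) = true := by decide +kernel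
def p15_14_1_6 : pfC (piC [(nat_lit 41997052), (nat_lit 26592602), (nat_lit 19805017), (nat_lit 13318063)] (nat_lit 10161112)) p15_14_1 (nat_lit 4) (nat_lit 6) (nat_lit 7) = true := by decide +kernel
def p15_14_1_7 : pfC (piC [(nat_lit 41997052), (nat_lit 26592602), (nat_lit 19805017), (nat_lit 13318063)] (nat_lit 10161112)) p15_14_1 (nat_lit 4) (nat_lit 7) (nat_lit 8) = true := by decide +kernel
def p15_14_1_8 : pfC (piC [(nat_lit 41997052), (nat_lit 26592602), (nat_lit 19805017), (nat_lit 13318063)] (nat_lit 10161112)) p15_14_1 (nat_lit 4) (nat_lit 8) (nat_lit 9) = true := by decide +kernel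
def p15_14_1_9 : pfC (piC [(nat_lit 41997052), (nat_lit 26592602), (nat_lit 19805017), (nat_lit 13318063)] (nat_lit 10161112)) p15_14_1 (nat_lit 4) (nat_lit 9) (nat_lit 10) = true := by decide +kernel
def p15_14_1_10 : pfC (piC [(nat_lit 41997052), (nat_lit 26592602), (nat_lit 19805017), (nat_lit 13318063)] (nat_lit 10161112)) p15_14_1 (nat_lit 4) (nat_lit 10) (nat_lit 11) = true := by decide +kernel
def p15_14_1_11 : pfC (piC [(nat_lit 41997052), (nat_lit 26592602), (nat_lit 19805017), (nat_lit 13318063)] (nat_lit 10161112)) p15_14_1 (nat_lit 4) (nat_lit 11) (nat_lit 12) = true := by decide +kernel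
def p15_14_1_12 : pfC (piC [(nat_lit 41997052), (nat_lit 26592602), (nat_lit 19805017), (nat_lit 13318063)] (nat_lit 10161112)) p15_14_1 (nat_lit 4) (nat_lit 12) (nat_lit 13) = true := by decide +kernel
def p15_14_1_13 : pfC (piC [(nat_lit 41997052), (nat_lit 26592602), (nat_lit 19805017), (nat_lit 13318063)] (nat_lit 10161112)) p15_14_1 (nat_lit 4) (nat_lit 13) (nat_lit 14) = true := by decide +kernel
def p15_14_1_14 : pfC (piC [(nat_lit 41997052), (nat_lit 26592602), (nat_lit 19805017), (nat_lit 13318063)] (nat_lit 10161112)) p15_14_1 (nat_lit 4) (nat_lit 14) (nat_lit 15) = true := by decide +kernel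
def p15_14_1_15 : pfC (piC [(nat_lit 41997052), (nat_lit 26592602), (nat_lit 19805017), (nat_lit 13318063)] (nat_lit 10161112)) p15_14_1 (nat_lit 4) (nat_lit 15) (nat_lit 16) = true := by decide +kernel
def p15_14_1_16 : pfC (piC [(nat_lit 41997052), (nat_lit 26592602), (nat_lit 19805017), (nat_lit 13318063)] (nat_lit 10161112)) p15_14_1 (nat_lit 4) (nat_lit 16) (nat_lit 17) = true := by decide +kernel
def p15_14_1_17 : pfC (piC [(nat_lit 41997052), (nat_lit 26592602), (nat_lit 19805017), (nat_lit 13318063)] (nat_lit 10161112)) p15_14_1 (nat_lit 4) (nat_lit 17) (nat_lit 18) = true := by decide +kernel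
def p15_14_1_18 : pfC (piC [(nat_lit 41997052), (nat_lit 26592602), (nat_lit 19805017), (nat_lit 13318063)] (nat_lit 10161112)) p15_14_1 (nat_lit 4) (nat_lit 18) (nat_lit 19) = true := by decide +kernel
def p15_14_1_19 : pfC (piC [(nat_lit 41997052), (nat_lit 26592602), (nat_lit 19805017), (nat_lit 13318063)] (nat_lit 10161112)) p15_14_1 (nat_lit 4) (nat_lit 19) (nat_lit 20) = true := by decide +kernel
def p15_14_1_20 : pfC (piC [(nat_lit 41997052), (nat_lit 26592602), (nat_lit 19805017), (nat_lit 13318063)] (nat_lit 10161112)) p15_14_1 (nat_lit 4) (nat_lit 20) (nat_lit 21) = true := by decide +kernel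
def p15_14_1_21 : pfC (piC [(nat_lit 41997052), (nat_lit 26592602), (nat_lit 19805017), (nat_lit 13318063)] (nat_lit 10161112)) p15_14_1 (nat_lit 4) (nat_lit 21) (nat_lit 22) = true := by decide +kernel
def p15_14_1_22 : pfC (piC [(nat_lit 41997052), (nat_lit 26592602), (nat_lit 19805017), (nat_lit 13318063)] (nat_lit 10161112)) p15_14_1 (nat_lit 4) (nat_lit 22) (nat_lit 23) = true := by decide +kernel
def p15_14_1_23 : pfC (piC [(nat_lit 41997052), (nat_lit 26592602), (nat_lit 19805017), (nat_lit 13318063)] (nat_lit 10161112)) p15_14_1 (nat_lit 4) (nat_lit 23) (nat_lit 24) = true := by decide +kernel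
def p15_14_1_24 : pfC (piC [(nat_lit 41997052), (nat_lit 26592602), (nat_lit 19805017), (nat_lit 13318063)] (nat_lit 10161112)) p15_14_1 (nat_lit 4) (nat_lit 24) (nat_lit 25) = true := by decide +kernel
def p15_14_1_25 : pfC (piC [(nat_lit 41997052), (nat_lit 26592602), (nat_lit 19805017), (nat_lit 13318063)] (nat_lit 10161112)) p15_14_1 (nat_lit 4) (nat_lit 25) (nat_lit 26) = true := by decide +kernel
def p15_14_1_26 : pfC (piC [(nat_lit 41997052), (nat_lit 26592602), (nat_lit 19805017), (nat_lit 13318063)] (nat_lit 10161112)) p15_14_1 (nat_lit 4) (nat_lit 26) (nat_lit 27) = true := by decide +kernel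
def p15_14_1_27 : pfC (piC [(nat_lit 41997052), (nat_lit 26592602), (nat_lit 19805017), (nat_lit 13318063)] (nat_lit 10161112)) p15_14_1 (nat_lit 4) (nat_lit 27) (nat_lit 28) = true := by decide +kernel
def p15_14_1_28 : pfC (piC [(nat_lit 41997052), (nat_lit 26592602), (nat_lit 19805017), (nat_lit 13318063)] (nat_lit 10161112)) p15_14_1 (nat_lit 4) (nat_lit 28) (nat_lit 29) = true := by decide +kernel
def p15_14_1_29 : pfC (piC [(nat_lit 41997052), (nat_lit 26592602), (nat_lit 19805017), (nat_lit 13318063)] (nat_lit 10161112)) p15_14_1 (nat_lit 4) (nat_lit 29) (nat_lit 30) = true := by decide +kernel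
def p15_14_1_30 : pfC (piC [(nat_lit 41997052), (nat_lit 26592602), (nat_lit 19805017), (nat_lit 13318063)] (nat_lit 10161112)) p15_14_1 (nat_lit 4) (nat_lit 30) (nat_lit 31) = true := by decide +kernel
def p15_14_1_31 : pfC (piC [(nat_lit 41997052), (nat_lit 26592602), (nat_lit 19805017), (nat_lit 13318063)] (nat_lit 10161112)) p15_14_1 (nat_lit 4) (nat_lit 31) (nat_lit 32) = true := by decide +kernel
def p15_14_1_32 : pfC (piC [(nat_lit 41997052), (nat_lit 26592602), (nat_lit 19805017), (nat_lit 13318063)] (nat_lit 10161112)) p15_14_1 (nat_lit 4) (nat_lit 32) (nat_lit 33) = true := by decide +kernel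
def p15_14_1_33 : pfC (piC [(nat_lit 41997052), (nat_lit 26592602), (nat_lit 19805017), (nat_lit 13318063)] (nat_lit 10161112)) p15_14_1 (nat_lit 4) (nat_lit 33) (nat_lit 34) = true := by decide +kernel
def p15_14_1_34 : pfC (piC [(nat_lit 41997052), (nat_lit 26592602), (nat_lit 19805017), (nat_lit 13318063)] (nat_lit 10161112)) p15_14_1 (nat_lit 4) (nat_lit 34) (nat_lit 35) = true := by decide +kernel
def p15_14_1_35 : pfC (piC [(nat_lit 41997052), (nat_lit 26592602), (nat_lit 19805017), (nat_lit 13318063)] (nat_lit 10161112)) p15_14_1 (nat_lit 4) (nat_lit 35) (nat_lit 36) = true := by decide +kernel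
def p15_14_1_36 : pfC (piC [(nat_lit 41997052), (nat_lit 26592602), (nat_lit 19805017), (nat_lit 13318063)] (nat_lit 10161112)) p15_14_1 (nat_lit 4) (nat_lit 36) (nat_lit 37) = true := by decide +kernel
def p15_14_1_37 : pfC (piC [(nat_lit 41997052), (nat_lit 26592602), (nat_lit 19805017), (nat_lit 13318063)] (nat_lit 10161112)) p15_14_1 (nat_lit 4) (nat_lit 37) (nat_lit 38) = true := by decide +kernel
def p15_14_1_38 : pfC (piC [(nat_lit 41997052), (nat_lit 26592602), (nat_lit 19805017), (nat_lit 13318063)] (nat_lit 10161112)) p15_14_1 (nat_lit 4) (nat_lit 38) (nat_lit 39) = true := by decide +kernel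
def p15_14_1_39 : pfC (piC [(nat_lit 41997052), (nat_lit 26592602), (nat_lit 19805017), (nat_lit 13318063)] (nat_lit 10161112)) p15_14_1 (nat_lit 4) (nat_lit 39) (nat_lit 40) = true := by decide +kernel
def p15_14_1_40 : pfC (piC [(nat_lit 41997052), (nat_lit 26592602), (nat_lit 19805017), (nat_lit 13318063)] (nat_lit 10161112)) p15_14_1 (nat_lit 4) (nat_lit 40) (nat_lit 41) = true := by decide +kernel
def p15_14_1_41 : pfC (piC [(nat_lit 41997052), (nat_lit 26592602), (nat_lit 19805017), (nat_lit 13318063)] (nat_lit 10161112)) p15_14_1 (nat_lit 4) (nat_lit 41) (nat_lit 42) = true := by decide +kernel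
def p15_14_1_42 : pfC (piC [(nat_lit 41997052), (nat_lit 26592602), (nat_lit 19805017), (nat_lit 13318063)] (nat_lit 10161112)) p15_14_1 (nat_lit 4) (nat_lit 42) (nat_lit 43) = true := by decide +kernel
def p15_14_1_43 : pfC (piC [(nat_lit 41997052), (nat_lit 26592602), (nat_lit 19805017), (nat_lit 13318063)] (nat_lit 10161112)) p15_14_1 (nat_lit 4) (nat_lit 43) (nat_lit 44) = true := by decide +kernel
def p15_14_1_44 : pfC (piC [(nat_lit 41997052), (nat_lit 26592602), (nat_lit 19805017), (nat_lit 13318063)] (nat_lit 10161112)) p15_14_1 (nat_lit 4) (nat_lit 44) (nat_lit 45) = true := by decide +kernel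
def p15_14_1_45 : pfC (piC [(nat_lit 41997052), (nat_lit 26592602), (nat_lit 19805017), (nat_lit 13318063)] (nat_lit 10161112)) p15_14_1 (nat_lit 4) (nat_lit 45) (nat_lit 46) = true := by decide +kernel
def p15_14_1_46 : pfC (piC [(nat_lit 41997052), (nat_lit 26592602), (nat_lit 19805017), (nat_lit 13318063)] (nat_lit 10161112)) p15_14_1 (nat_lit 4) (nat_lit 46) (nat_lit 47) = true := by decide +kernel
def p15_14_1_47 : pfC (piC [(nat_lit 41997052), (nat_lit 26592602), (nat_lit 19805017), (nat_lit 13318063)] (nat_lit 10161112)) p15_14_1 (nat_lit 4) (nat_lit 47) (nat_lit 48) = true := by decide +kernel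
def p15_14_1_48 : pfC (piC [(nat_lit 41997052), (nat_lit 26592602), (nat_lit 19805017), (nat_lit 13318063)] (nat_lit 10161112)) p15_14_1 (nat_lit 4) (nat_lit 48) (nat_lit 49) = true := by decide +kernel
def p15_14_1_49 : pfC (piC [(nat_lit 41997052), (nat_lit 26592602), (nat_lit 19805017), (nat_lit 13318063)] (nat_lit 10161112)) p15_14_1 (nat_lit 4) (nat_lit 49) (nat_lit 50) = true := by decide +kernel
def p15_14_1_50 : pfC (piC [(nat_lit 41997052), (nat_lit 26592602), (nat_lit 19805017), (nat_lit 13318063)] (nat_lit 10161112)) p15_14_1 (nat_lit 4) (nat_lit 50) (nat_lit 51) = true := by decide +kernel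
def p15_14_1_51 : pfC (piC [(nat_lit 41997052), (nat_lit 26592602), (nat_lit 19805017), (nat_lit 13318063)] (nat_lit 10161112)) p15_14_1 (nat_lit 4) (nat_lit 51) (nat_lit 52) = true := by decide +kernel
def p15_14_1_52 : pfC (piC [(nat_lit 41997052), (nat_lit 26592602), (nat_lit 19805017), (nat_lit 13318063)] (nat_lit 10161112)) p15_14_1 (nat_lit 4) (nat_lit 52) (nat_lit 53) = true := by decide +kernel
def p15_14_1_53 : pfC (piC [(nat_lit 41997052), (nat_lit 26592602), (nat_lit 19805017), (nat_lit 13318063)] (nat_lit 10161112)) p15_14_1 (nat_lit 4) (nat_lit 53) (nat_lit 54) = true := by decide +kernel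
def p15_14_1_54 : pfC (piC [(nat_lit 41997052), (nat_lit 26592602), (nat_lit 19805017), (nat_lit 13318063)] (nat_lit 10161112)) p15_14_1 (nat_lit 4) (nat_lit 54) (nat_lit 55) = true := by decide +kernel
def p15_14_1_55 : pfC (piC [(nat_lit 41997052), (nat_lit 26592602), (nat_lit 19805017), (nat_lit 13318063)] (nat_lit 10161112)) p15_14_1 (nat_lit 4) (nat_lit 55) (nat_lit 56) = true := by decide +kernel
def p15_14_1_56 : pfC (piC [(nat_lit 41997052), (nat_lit 26592602), (nat_lit 19805017), (nat_lit 13318063)] (nat_lit 10161112)) p15_14_1 (nat_lit 4) (nat_lit 56) (nat_lit 57) = true := by decide +kernel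
def p15_14_1_57 : pfC (piC [(nat_lit 41997052), (nat_lit 26592602), (nat_lit 19805017), (nat_lit 13318063)] (nat_lit 10161112)) p15_14_1 (nat_lit 4) (nat_lit 57) (nat_lit 58) = true := by decide +kernel
def p15_14_1_58 : pfC (piC [(nat_lit 41997052), (nat_lit 26592602), (nat_lit 19805017), (nat_lit 13318063)] (nat_lit 10161112)) p15_14_1 (nat_lit 4) (nat_lit 58) (nat_lit 59) = true := by decide +kernel
def p15_14_1_59 : pfC (piC [(nat_lit 41997052), (nat_lit 26592602), (nat_lit 19805017), (nat_lit 13318063)] (nat_lit 10161112)) p15_14_1 (nat_lit 4) (nat_lit 59) (nat_lit 60) = true := by decide +kernel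
def p15_14_1_60 : pfC (piC [(nat_lit 41997052), (nat_lit 26592602), (nat_lit 19805017), (nat_lit 13318063)] (nat_lit 10161112)) p15_14_1 (nat_lit 4) (nat_lit 60) (nat_lit 61) = true := by decide +kernel
def p15_14_1_61 : pfC (piC [(nat_lit 41997052), (nat_lit 26592602), (nat_lit 19805017), (nat_lit 13318063)] (nat_lit 10161112)) p15_14_1 (nat_lit 4) (nat_lit 61) (nat_lit 62) = true := by decide +kernel
def p15_14_1_62 : pfC (piC [(nat_lit 41997052), (nat_lit 26592602), (nat_lit 19805017), (nat_lit 13318063)] (nat_lit 10161112)) p15_14_1 (nat_lit 4) (nat_lit 62) (nat_lit 63) = true := by decide +kernel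
def p15_14_1_63 : pfC (piC [(nat_lit 41997052), (nat_lit 26592602), (nat_lit 19805017), (nat_lit 13318063)] (nat_lit 10161112)) p15_14_1 (nat_lit 4) (nat_lit 63) (nat_lit 64) = true := by decide +kernel
def p15_14_1_64 : pfC (piC [(nat_lit 41997052), (nat_lit 26592602), (nat_lit 19805017), (nat_lit 13318063)] (nat_lit 10161112)) p15_14_1 (nat_lit 4) (nat_lit 64) (nat_lit 65) = true := by decide +kernel
def p15_14_1_65 : pfC (piC [(nat_lit 41997052), (nat_lit 26592602), (nat_lit 19805017), (nat_lit 13318063)] (nat_lit 10161112)) p15_14_1 (nat_lit 4) (nat_lit 65) (nat_lit 66) = true := by decide +kernel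
def p15_14_1_66 : pfC (piC [(nat_lit 41997052), (nat_lit 26592602), (nat_lit 19805017), (nat_lit 13318063)] (nat_lit 10161112)) p15_14_1 (nat_lit 4) (nat_lit 66) (nat_lit 67) = true := by decide +kernel
def p15_14_1_67 : pfC (piC [(nat_lit 41997052), (nat_lit 26592602), (nat_lit 19805017), (nat_lit 13318063)] (nat_lit 10161112)) p15_14_1 (nat_lit 4) (nat_lit 67) (nat_lit 68) = true := by decide +kernel
def p15_14_1_68 : pfC (piC [(nat_lit 41997052), (nat_lit 26592602), (nat_lit 19805017), (nat_lit 13318063)] (nat_lit 10161112)) p15_14_1 (nat_lit 4) (nat_lit 68) (nat_lit 69) = true := by decide +kernel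
def p15_14_1_69 : pfC (piC [(nat_lit 41997052), (nat_lit 26592602), (nat_lit 19805017), (nat_lit 13318063)] (nat_lit 10161112)) p15_14_1 (nat_lit 4) (nat_lit 69) (nat_lit 70) = true := by decide +kernel
def p15_14_1_70 : pfC (piC [(nat_lit 41997052), (nat_lit 26592602), (nat_lit 19805017), (nat_lit 13318063)] (nat_lit 10161112)) p15_14_1 (nat_lit 4) (nat_lit 70) (nat_lit 71) = true := by decide +kernel
def p15_14_1_71 : pfC (piC [(nat_lit 41997052), (nat_lit 26592602), (nat_lit 19805017), (nat_lit 13318063)] (nat_lit 10161112)) p15_14_1 (nat_lit 4) (nat_lit 71) (nat_lit 72) = true := by decide +kernel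
def p15_14_1_72 : pfC (piC [(nat_lit 41997052), (nat_lit 26592602), (nat_lit 19805017), (nat_lit 13318063)] (nat_lit 10161112)) p15_14_1 (nat_lit 4) (nat_lit 72) (nat_lit 73) = true := by decide +kernel
def p15_14_1_73 : pfC (piC [(nat_lit 41997052), (nat_lit 26592602), (nat_lit 19805017), (nat_lit 13318063)] (nat_lit 10161112)) p15_14_1 (nat_lit 4) (nat_lit 73) (nat_lit 74) = true := by decide +kernel
def p15_14_1_74 : pfC (piC [(nat_lit 41997052), (nat_lit 26592602), (nat_lit 19805017), (nat_lit 13318063)] (nat_lit 10161112)) p15_14_1 (nat_lit 4) (nat_lit 74) (nat_lit 75) = true := by decide +kernel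
def p15_14_1_75 : pfC (piC [(nat_lit 41997052), (nat_lit 26592602), (nat_lit 19805017), (nat_lit 13318063)] (nat_lit 10161112)) p15_14_1 (nat_lit 4) (nat_lit 75) (nat_lit 76) = true := by decide +kernel
def p15_14_1_76 : pfC (piC [(nat_lit 41997052), (nat_lit 26592602), (nat_lit 19805017), (nat_lit 13318063)] (nat_lit 10161112)) p15_14_1 (nat_lit 4) (nat_lit 76) (nat_lit 77) = true := by decide +kernel
theorem p15_14_1_T : PfS (PiF n15_14.reverse (nat_lit 10161112)) p15_14_1 (nat_lit 4) [] 0 :=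
  pftab_of (los := [(nat_lit 41997052), (nat_lit 26592602), (nat_lit 19805017), (nat_lit 13318063)]) (by decide +kernel) (hi := (nat_lit 77)) (PfP.trans (PfP.trans (PfP.trans (PfP.trans (PfP.trans (PfP.trans (PfP.trans (PfP.trans (PfP.trans (PfP.trans (PfP.trans (PfP.trans (PfP.trans (PfP.trans (PfP.trans (PfP.trans (PfP.trans (PfP.trans (PfP.trans (PfP.trans (PfP.trans (PfP.trans (PfP.trans (PfP.trans (PfP.trans (PfP.trans (PfP.trans (PfP.trans (PfP.trans (PfP.trans (PfP.trans (PfP.trans (PfP.trans (PfP.trans (PfP.trans (PfP.trans (PfP.trans (PfP.trans (PfP.trans (PfP.trans (PfP.trans (PfP.trans (PfP.trans (PfP.trans (PfP.trans (PfP.trans (PfP.trans (PfP.trans (PfP.trans (PfP.trans (PfP.trans (PfP.trans (PfP.trans (PfP.trans (PfP.trans (PfP.trans (PfP.trans (PfP.trans (PfP.trans (PfP.trans (PfP.trans (PfP.trans (PfP.trans (PfP.trans (PfP.trans (PfP.trans (PfP.trans (PfP.trans (PfP.trans (PfP.trans (PfP.trans (PfP.trans (PfP.trans (PfP.trans (PfP.trans (PfP.trans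 (pfC_sound p15_14_1_0) (pfC_sound p15_14_1_1)) (pfC_sound p15_14_1_2)) (pfC_sound p15_14_1_3)) (pfC_sound p15_14_1_4)) (pfC_sound p15_14_1_5)) (pfC_sound p15_14_1_6)) (pfC_sound p15_14_1_7)) (pfC_sound p15_14_1_8)) (pfC_sound p15_14_1_9)) (pfC_sound p15_14_1_10)) (pfC_sound p15_14_1_11)) (pfC_sound p15_14_1_12)) (pfC_sound p15_14_1_13)) (pfC_sound p15_14_1_14))
 (pfC_sound p15_14_1_15)) (pfC_sound p15_14_1_16)) (pfC_sound p15_14_1_17)) (pfC_sound p15_14_1_18)) (pfC_sound p15_14_1_19)) (pfC_sound p15_14_1_20)) (pfC_sound p15_14_1_21)) (pfC_sound p15_14_1_22)) (pfC_sound p15_14_1_23)) (pfC_sound p15_14_1_24)) (pfC_sound p15_14_1_25)) (pfC_sound p15_14_1_26)) (pfC_sound p15_14_1_27)) (pfC_sound p15_14_1_28)) (pfC_sound p15_14_1_29)) (pfC_sound p15_14_1_30)) (pfC_sound p15_14_1_31)) (pfC_sound p15_14_1_32)) (pfC_sound p15_14_1_33)) (pfC_sound p15_14_1_34)) (pfC_sound p15_14_1_35)) (pfC_sound p15_14_1_36)) (pfC_sound p15_14_1_37)) (pfC_sound p15_14_1_38)) (pfC_sound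 p15_14_1_39)) (pfC_sound p15_14_1_40)) (pfC_sound p15_14_1_41)) (pfC_sound p15_14_1_42)) (pfC_sound p15_14_1_43)) (pfC_sound p15_14_1_44)) (pfC_sound p15_14_1_45)) (pfC_sound p15_14_1_46)) (pfC_sound p15_14_1_47)) (pfC_sound p15_14_1_48)) (pfC_sound p15_14_1_49)) (pfC_sound p15_14_1_50)) (pfC_sound p15_14_1_51)) (pfC_sound p15_14_1_52)) (pfC_sound p15_14_1_53)) (pfC_sound p15_14_1_54)) (pfC_sound p15_14_1_55)) (pfC_sound p15_14_1_56)) (pfC_sound p15_14_1_57)) (pfC_sound p15_14_1_58)) (pfC_sound p15_14_1_59)) (pfC_sound p15_14_1_60)) (pfC_sound p15_14_1_61)) (pfC_sound p15_14_1_62))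
 (pfC_sound p15_14_1_63)) (pfC_sound p15_14_1_64)) (pfC_sound p15_14_1_65)) (pfC_sound p15_14_1_66)) (pfC_sound p15_14_1_67)) (pfC_sound p15_14_1_68)) (pfC_sound p15_14_1_69)) (pfC_sound p15_14_1_70)) (pfC_sound p15_14_1_71)) (pfC_sound p15_14_1_72)) (pfC_sound p15_14_1_73)) (pfC_sound p15_14_1_74)) (pfC_sound p15_14_1_75)) (pfC_sound p15_14_1_76)) (by decide +kernel)

def z15_14_1 : zOK yB15_14 (nat_lit 1) (nat_lit 400) (nat_lit 600) (nat_lit 10161112) (nat_lit 6597126) = true := by decide +kernel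
def g15_14_1 : gOK yB15_14.x P15_14 (nat_lit 1428) (q15_14 :: r15_14) (nat_lit 1) (nat_lit 400) (nat_lit 2) (nat_lit 600) (nat_lit 11000000) (nat_lit 17850000) (nat_lit 12712500) (nat_lit 12712500) [(nat_lit 800), (nat_lit 1040)] = true := by decide +kernel
def v15_14_1 : ivC P15_14 s15_14 w15_14 n15_14 (nat_lit 4) (nat_lit 5060) (nat_lit 1) (nat_lit 400) f144_1_400 f152_1_400 (nat_lit 2) (nat_lit 600) f144_1_600 f152_1_600 (nat_lit 10161112) (nat_lit 6597126) p15_14_1 = true := by decide +kernel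
def p15_14_2 : PF := (PF.cons (PF.cons (PF.cons (PF.cons (PF.leaf (nat_lit 2776096) (nat_lit 16349210) (nat_lit 50759602) (nat_lit 16349210) [(nat_lit 0), (nat_lit 0), (nat_lit 0), (nat_lit 0)]) (PF.cons (PF.leaf (nat_lit 2899578) (nat_lit 207992) (nat_lit 50567126) (nat_lit 16333694) [(nat_lit 207992), (nat_lit 0), (nat_lit 0), (nat_lit 0)]) (PF.cons (PF.leaf (nat_lit 3047499) (nat_lit 226171) (nat_lit 50341650) (nat_lit 16314819) [(nat_lit 226171), (nat_lit 0), (nat_lit 0), (nat_lit 0)]) (PF.cons (PF.leaf (nat_lit 3213663) (nat_lit 242319) (nat_lit 50089053) (nat_lit 16292800) [(nat_lit 242319), (nat_lit 0), (nat_lit 0), (nat_lit 0)]) (PF.cons (PF.leaf (nat_lit 3395536) (nat_lit 256900) (nat_lit 49813463) (nat_lit 16267746) [(nat_lit 256900), (nat_lit 0), (nat_lit 0), (nat_lit 0)]) (PF.cons (PF.leaf (nat_lit 3591105) (nat_lit 270211) (nat_lit 49518039) (nat_lit 16239717) [(nat_lit 270211), (nat_lit 0), (nat_lit 0), (nat_lit 0)]) (PF.cons (PF.leaf (nat_lit 3799047)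 (nat_lit 282454) (nat_lit 49205334) (nat_lit 16208751) [(nat_lit 282454), (nat_lit 0), (nat_lit 0), (nat_lit 0)]) (PF.cons (PF.leaf (nat_lit 4017853) (nat_lit 293778) (nat_lit 48877485) (nat_lit 16174878) [(nat_lit 293778), (nat_lit 0),
 (nat_lit 0), (nat_lit 0)]) (PF.cons PF.nil PF.nil))))))))) (PF.cons (PF.cons (PF.leaf (nat_lit 3256991) (nat_lit 1097759) (nat_lit 49752203) (nat_lit 16258850) [(nat_lit 0), (nat_lit 1097759), (nat_lit 0), (nat_lit 0)]) (PF.cons (PF.leaf (nat_lit 3419396) (nat_lit 253294) (nat_lit 49498652) (nat_lit 16234598) [(nat_lit 253294), (nat_lit 1122267), (nat_lit 0), (nat_lit 0)]) (PF.cons (PF.leaf (nat_lit 3600165) (nat_lit 267216) (nat_lit 49220865) (nat_lit 16207029) [(nat_lit 267216), (nat_lit 1146483), (nat_lit 0), (nat_lit 0)]) (PF.cons (PF.leaf (nat_lit 3795181) (nat_lit 279868) (nat_lit 48922882) (nat_lit 16176314) [(nat_lit 279868), (nat_lit 1170011), (nat_lit 0), (nat_lit 0)]) (PF.cons (PF.leaf (nat_lit 4002574) (nat_lit 291476)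 (nat_lit 48607707) (nat_lit 16142560) [(nat_lit 291476), (nat_lit 1192640), (nat_lit 0), (nat_lit 0)]) (PF.cons (PF.leaf (nat_lit 4220948) (nat_lit 302196) (nat_lit 48277721) (nat_lit 16105847) [(nat_lit 302196), (nat_lit 1214262), (nat_lit 0), (nat_lit 0)]) (PF.cons PF.nil PF.nil))))))) (PF.cons (PF.cons (PF.leaf (nat_lit 3809066) (nat_lit 1178189) (nat_lit 48612621) (nat_lit 16139812) [(nat_lit 0), (nat_lit 1178189), (nat_lit 0), (nat_lit 0)]) (PF.cons
 (PF.leaf (nat_lit 4000699) (nat_lit 288172) (nat_lit 48315771) (nat_lit 16106829) [(nat_lit 288172), (nat_lit 1199019), (nat_lit 0), (nat_lit 0)]) (PF.cons (PF.leaf (nat_lit 4206503) (nat_lit 299331) (nat_lit 48001014) (nat_lit 16070639) [(nat_lit 299331), (nat_lit 1219247), (nat_lit 0), (nat_lit 0)]) (PF.cons (PF.leaf (nat_lit 4423596) (nat_lit 309590) (nat_lit 47671241) (nat_lit 16031397) [(nat_lit 309590), (nat_lit 1238701), (nat_lit 0), (nat_lit 0)]) (PF.cons (PF.leaf (nat_lit 4650595) (nat_lit 319077) (nat_lit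 47328705) (nat_lit 15989221) [(nat_lit 319077), (nat_lit 1257288), (nat_lit 0), (nat_lit 0)]) PF.nil))))) (PF.cons (PF.cons (PF.leaf (nat_lit 4412576) (nat_lit 1243191) (nat_lit 47386164) (nat_lit 15993072) [(nat_lit 0), (nat_lit 1243191), (nat_lit 0), (nat_lit 0)]) (PF.cons (PF.leaf (nat_lit 4626380) (nat_lit 316037) (nat_lit 47059062) (nat_lit 15951676) [(nat_lit 316037), (nat_lit 1260678), (nat_lit 0), (nat_lit 0)]) (PF.cons (PF.leaf (nat_lit 4851407) (nat_lit 325170) (nat_lit 46718802) (nat_lit 15907261) [(nat_lit 325170), (nat_lit 1277469), (nat_lit 0), (nat_lit 0)]) (PF.cons PF.nil PF.nil)))) (PF.cons (PF.cons (PF.leaf (nat_lit 5052904) (nat_lit 1295617) (nat_lit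
 46105828) (nat_lit 15820513) [(nat_lit 0), (nat_lit 1295617), (nat_lit 0), (nat_lit 0)]) (PF.cons (PF.leaf (nat_lit 5283537) (nat_lit 338628) (nat_lit 45758450) (nat_lit 15771299) [(nat_lit 338628), (nat_lit 1310108), (nat_lit 0), (nat_lit 0)]) PF.nil)) (PF.cons PF.nil PF.nil)))))) (PF.cons (PF.cons (PF.cons (PF.leaf (nat_lit 3777067) (nat_lit 2959051) (nat_lit 48086509) (nat_lit 16063252) [(nat_lit 0), (nat_lit 0), (nat_lit 2959051), (nat_lit 0)]) (PF.cons (PF.leaf (nat_lit 3947907) (nat_lit 272448) (nat_lit 47823924) (nat_lit 16032565) [(nat_lit 272448), (nat_lit 0), (nat_lit 2979874), (nat_lit 0)]) (PF.cons (PF.leaf (nat_lit 4136191) (nat_lit 285616) (nat_lit 47538349) (nat_lit 15998220) [(nat_lit 285616), (nat_lit 0), (nat_lit 3001010), (nat_lit 0)]) (PF.cons (PF.leaf (nat_lit 4338030) (nat_lit 297412) (nat_lit 47234082) (nat_lit 15960530) [(nat_lit 297412), (nat_lit 0), (nat_lit 3021962), (nat_lit 0)]) (PF.cons (PF.leaf (nat_lit 4551378) (nat_lit 308112)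 (nat_lit 46914252) (nat_lit 15919710) [(nat_lit 308112), (nat_lit 0), (nat_lit 3042398), (nat_lit 0)]) (PF.cons (PF.leaf (nat_lit 4774813) (nat_lit 317902) (nat_lit 46581287) (nat_lit 15875923) [(nat_lit 317902), (nat_lit 0),
 (nat_lit 3062092), (nat_lit 0)]) (PF.cons PF.nil PF.nil))))))) (PF.cons (PF.cons (PF.leaf (nat_lit 4342793) (nat_lit 1228958) (nat_lit 46928878) (nat_lit 15918381) [(nat_lit 0), (nat_lit 1228958), (nat_lit 3032594), (nat_lit 0)]) (PF.cons (PF.leaf (nat_lit 4540255) (nat_lit 303880) (nat_lit 46628487) (nat_lit 15878969) [(nat_lit 303880), (nat_lit 1246603), (nat_lit 3050871), (nat_lit 0)]) (PF.cons (PF.leaf (nat_lit 4751040) (nat_lit 314256) (nat_lit 46311613) (nat_lit 15836249) [(nat_lit 314256), (nat_lit 1263649), (nat_lit 3068787), (nat_lit 0)]) (PF.cons (PF.leaf (nat_lit 4972324) (nat_lit 323694) (nat_lit 45981205) (nat_lit 15790469) [(nat_lit 323694), (nat_lit 1279964), (nat_lit 3086089), (nat_lit 0)]) (PF.cons PF.nil PF.nil))))) (PF.cons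 (PF.cons (PF.leaf (nat_lit 4952495) (nat_lit 1282347) (nat_lit 45704305) (nat_lit 15747932) [(nat_lit 0), (nat_lit 1282347), (nat_lit 3091879), (nat_lit 0)]) (PF.cons (PF.leaf (nat_lit 5169784) (nat_lit 328683) (nat_lit 45378560) (nat_lit 15700554) [(nat_lit 328683), (nat_lit 1297034), (nat_lit 3106946), (nat_lit 0)]) (PF.cons (PF.leaf (nat_lit 5397474) (nat_lit 337067) (nat_lit 45041003) (nat_lit 15650211) [(nat_lit 337067), (nat_lit
 1311060), (nat_lit 3121342), (nat_lit 0)]) (PF.cons PF.nil PF.nil)))) (PF.cons (PF.cons (PF.leaf (nat_lit 5592746) (nat_lit 1324993) (nat_lit 44441881) (nat_lit 15554619) [(nat_lit 0), (nat_lit 1324993), (nat_lit 3137330), (nat_lit 0)]) (PF.cons PF.nil PF.nil)) (PF.cons PF.nil PF.nil))))) (PF.cons (PF.cons (PF.cons (PF.leaf (nat_lit 4868258) (nat_lit 3080667) (nat_lit 45277173) (nat_lit 15670305) [(nat_lit 0), (nat_lit 0), (nat_lit 3080667), (nat_lit 0)]) (PF.cons (PF.leaf (nat_lit 5069685) (nat_lit 316485) (nat_lit 44977372) (nat_lit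 15625519) [(nat_lit 316485), (nat_lit 0), (nat_lit 3094717), (nat_lit 0)]) (PF.cons (PF.leaf (nat_lit 5283749) (nat_lit 326158) (nat_lit 44662396) (nat_lit 15577401) [(nat_lit 326158), (nat_lit 0), (nat_lit 3108349), (nat_lit 0)]) (PF.cons (PF.leaf (nat_lit 5507598) (nat_lit 334868) (nat_lit 44335199) (nat_lit 15526275) [(nat_lit 334868), (nat_lit 0), (nat_lit 3121366), (nat_lit 0)]) (PF.cons PF.nil PF.nil))))) (PF.cons (PF.cons (PF.leaf (nat_lit 5479840) (nat_lit 1311413) (nat_lit 44068433) (nat_lit 15480661) [(nat_lit 0), (nat_lit 1311413), (nat_lit 3124151), (nat_lit 0)]) (PF.cons (PF.leaf (nat_lit 5699124) (nat_lit 338652) (nat_lit 43747314)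
 (nat_lit 15428459) [(nat_lit 338652), (nat_lit 1323747), (nat_lit 3135318), (nat_lit 0)]) (PF.cons (PF.leaf (nat_lit 5928116) (nat_lit 346370) (nat_lit 43415561) (nat_lit 15373388) [(nat_lit 346370), (nat_lit 1335452), (nat_lit 3145834), (nat_lit 0)]) (PF.cons PF.nil PF.nil)))) (PF.cons (PF.cons (PF.leaf (nat_lit 6116795) (nat_lit 1345936) (nat_lit 42834279) (nat_lit 15271134) [(nat_lit 0), (nat_lit 1345936), (nat_lit 3155763), (nat_lit 0)]) (PF.cons PF.nil PF.nil)) PF.nil))) (PF.cons (PF.cons (PF.cons (PF.leaf (nat_lit 5993163) (nat_lit 3141324) (nat_lit 42487781) (nat_lit 15197057) [(nat_lit 0), (nat_lit 0), (nat_lit 3141324), (nat_lit 0)]) (PF.cons (PF.leaf (nat_lit 6213241) (nat_lit 346395) (nat_lit 42173626) (nat_lit 15141088) [(nat_lit 346395), (nat_lit 0), (nat_lit 3149234), (nat_lit 0)]) (PF.cons PF.nil PF.nil))) (PF.cons (PF.cons (PF.leaf (nat_lit 6624311) (nat_lit 1359976) (nat_lit 41288994) (nat_lit 14975341) [(nat_lit 0), (nat_lit 1359976), (nat_lit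 3161500), (nat_lit 0)]) PF.nil) PF.nil)) (PF.cons PF.nil (PF.cons PF.nil PF.nil)))))) (PF.cons (PF.cons (PF.cons (PF.cons (PF.leaf (nat_lit 4641377) (nat_lit 7822278) (nat_lit 43922276) (nat_lit 15364257) [(nat_lit 0),
 (nat_lit 0), (nat_lit 0), (nat_lit 7822278)]) (PF.cons (PF.leaf (nat_lit 4812374) (nat_lit 282108) (nat_lit 43679943) (nat_lit 15326312) [(nat_lit 282108), (nat_lit 0), (nat_lit 0), (nat_lit 7820447)]) (PF.cons (PF.leaf (nat_lit 4999892) (nat_lit 294693) (nat_lit 43417339) (nat_lit 15284454) [(nat_lit 294693), (nat_lit 0), (nat_lit 0), (nat_lit 7817631)]) (PF.cons (PF.leaf (nat_lit 5200022) (nat_lit 305787) (nat_lit 43138538) (nat_lit 15239185) [(nat_lit 305787), (nat_lit 0), (nat_lit 0), (nat_lit 7813726)]) (PF.cons (PF.leaf (nat_lit 5410668) (nat_lit 315702) (nat_lit 42846488) (nat_lit 15190859) [(nat_lit 315702), (nat_lit 0), (nat_lit 0), (nat_lit 7808654)]) (PF.cons (PF.leaf (nat_lit 5630387) (nat_lit 324649) (nat_lit 42543457) (nat_lit 15139748)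 [(nat_lit 324649), (nat_lit 0), (nat_lit 0), (nat_lit 7802361)]) (PF.cons PF.nil PF.nil))))))) (PF.cons (PF.cons (PF.leaf (nat_lit 5194634) (nat_lit 1248933) (nat_lit 42864481) (nat_lit 15190977) [(nat_lit 0), (nat_lit 1248933), (nat_lit 0), (nat_lit 7804420)]) (PF.cons (PF.leaf (nat_lit 5389504) (nat_lit 310625) (nat_lit 42590838) (nat_lit 15144917) [(nat_lit 310625), (nat_lit 1263538), (nat_lit 0), (nat_lit 7798892)]) (PF.cons
 (PF.leaf (nat_lit 5596810) (nat_lit 320260) (nat_lit 42303040) (nat_lit 15095616) [(nat_lit 320260), (nat_lit 1277459), (nat_lit 0), (nat_lit 7792176)]) (PF.cons (PF.leaf (nat_lit 5813620) (nat_lit 328903) (nat_lit 42003818) (nat_lit 15043435) [(nat_lit 328903), (nat_lit 1290612), (nat_lit 0), (nat_lit 7784235)]) (PF.cons (PF.leaf (nat_lit 6038576) (nat_lit 336724) (nat_lit 41695251) (nat_lit 14988649) [(nat_lit 336724), (nat_lit 1302964), (nat_lit 0), (nat_lit 7775049)]) PF.nil))))) (PF.cons (PF.cons (PF.leaf (nat_lit 5784360) (nat_lit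 1290714) (nat_lit 41757721) (nat_lit 14996985) [(nat_lit 0), (nat_lit 1290714), (nat_lit 0), (nat_lit 7772676)]) (PF.cons (PF.leaf (nat_lit 5996552) (nat_lit 332452) (nat_lit 41464002) (nat_lit 14944118) [(nat_lit 332452), (nat_lit 1302489), (nat_lit 0), (nat_lit 7763261)]) (PF.cons (PF.leaf (nat_lit 6218263) (nat_lit 340055) (nat_lit 41160372) (nat_lit 14888539) [(nat_lit 340055), (nat_lit 1313594), (nat_lit 0), (nat_lit 7752600)]) (PF.cons PF.nil PF.nil)))) (PF.cons (PF.cons (PF.leaf (nat_lit 6398384) (nat_lit 1322915) (nat_lit 40626660) (nat_lit 14785824) [(nat_lit 0), (nat_lit 1322915), (nat_lit 0), (nat_lit 7727582)]) (PF.cons (PF.leaf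
 (nat_lit 6623147) (nat_lit 349515) (nat_lit 40320821) (nat_lit 14727275) [(nat_lit 349515), (nat_lit 1332272), (nat_lit 0), (nat_lit 7714383)]) PF.nil)) (PF.cons PF.nil (PF.cons PF.nil PF.nil)))))) (PF.cons (PF.cons (PF.cons (PF.leaf (nat_lit 5685476) (nat_lit 3059572) (nat_lit 41389596) (nat_lit 14917652) [(nat_lit 0), (nat_lit 0), (nat_lit 3059572), (nat_lit 7741991)]) (PF.cons (PF.leaf (nat_lit 5882723) (nat_lit 319882) (nat_lit 41119304) (nat_lit 14868210) [(nat_lit 319882), (nat_lit 0), (nat_lit 3068599), (nat_lit 7732817)]) (PF.cons (PF.leaf (nat_lit 6091692) (nat_lit 328857) (nat_lit 40835976) (nat_lit 14815585) [(nat_lit 328857), (nat_lit 0), (nat_lit 3077140), (nat_lit 7722394)]) (PF.cons (PF.leaf (nat_lit 6309592) (nat_lit 336838) (nat_lit 40542302) (nat_lit 14760185) [(nat_lit 336838), (nat_lit 0), (nat_lit 3085069), (nat_lit 7710740)]) (PF.cons PF.nil PF.nil))))) (PF.cons (PF.cons (PF.leaf (nat_lit 6273598) (nat_lit 1308361) (nat_lit 40306850) (nat_lit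 14712444) [(nat_lit 0), (nat_lit 1308361), (nat_lit 3084390), (nat_lit 7696767)]) (PF.cons (PF.leaf (nat_lit 6486512) (nat_lit 339418) (nat_lit 40019551) (nat_lit 14656755) [(nat_lit 339418), (nat_lit 1318220), (nat_lit
 3090914), (nat_lit 7683952)]) (PF.cons (PF.leaf (nat_lit 6708340) (nat_lit 346431) (nat_lit 39723285) (nat_lit 14598478) [(nat_lit 346431), (nat_lit 1327452), (nat_lit 3096820), (nat_lit 7669914)]) (PF.cons PF.nil PF.nil)))) (PF.cons (PF.cons (PF.leaf (nat_lit 6882085) (nat_lit 1334157) (nat_lit 39208477) (nat_lit 14492562) [(nat_lit 0), (nat_lit 1334157), (nat_lit 3099648), (nat_lit 7639811)]) (PF.cons PF.nil PF.nil)) (PF.cons PF.nil (PF.cons PF.nil PF.nil))))) (PF.cons (PF.cons (PF.cons (PF.leaf (nat_lit 6749036) (nat_lit 3083655) (nat_lit 38912442) (nat_lit 14420811) [(nat_lit 0), (nat_lit 0), (nat_lit 3083655), (nat_lit 7608248)]) (PF.cons (PF.leaf (nat_lit 6961812) (nat_lit 344674) (nat_lit 38632919) (nat_lit 14363061) [(nat_lit 344674),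 (nat_lit 0), (nat_lit 3087759), (nat_lit 7592638)]) (PF.cons PF.nil (PF.cons PF.nil PF.nil)))) (PF.cons (PF.cons (PF.leaf (nat_lit 7350368) (nat_lit 1340372) (nat_lit 37850492) (nat_lit 14194996) [(nat_lit 0), (nat_lit 1340372), (nat_lit 3090608), (nat_lit 7541735)]) (PF.cons PF.nil PF.nil)) (PF.cons PF.nil PF.nil))) (PF.cons (PF.cons (PF.cons (PF.leaf (nat_lit 7803316) (nat_lit 3074591) (nat_lit 36553257) (nat_lit 13895930) [(nat_lit 0),
 (nat_lit 0), (nat_lit 3074591), (nat_lit 7435850)]) (PF.cons PF.nil PF.nil)) (PF.cons PF.nil PF.nil)) (PF.cons PF.nil PF.nil))))) (PF.cons (PF.cons (PF.cons (PF.cons (PF.leaf (nat_lit 6422063) (nat_lit 7473365) (nat_lit 37997358) (nat_lit 14164722) [(nat_lit 0), (nat_lit 0), (nat_lit 0), (nat_lit 7473365)]) (PF.cons (PF.leaf (nat_lit 6614023) (nat_lit 319241) (nat_lit 37755399) (nat_lit 14113962) [(nat_lit 319241), (nat_lit 0), (nat_lit 0), (nat_lit 7460104)]) (PF.cons (PF.leaf (nat_lit 6817020) (nat_lit 327608) (nat_lit 37502164)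 (nat_lit 14060224) [(nat_lit 327608), (nat_lit 0), (nat_lit 0), (nat_lit 7445603)]) (PF.cons (PF.leaf (nat_lit 7028243) (nat_lit 334969) (nat_lit 37240072) (nat_lit 14003953) [(nat_lit 334969), (nat_lit 0), (nat_lit 0), (nat_lit 7429938)]) (PF.cons PF.nil PF.nil))))) (PF.cons (PF.cons (PF.leaf (nat_lit 6986270) (nat_lit 1292007) (nat_lit 37033034) (nat_lit 13956657) [(nat_lit 0), (nat_lit 1292007), (nat_lit 0), (nat_lit 7413556)]) (PF.cons (PF.leaf (nat_lit 7192292) (nat_lit 336674) (nat_lit 36777136) (nat_lit 13900590) [(nat_lit 336674), (nat_lit 1300022), (nat_lit 0), (nat_lit 7397194)]) (PF.cons (PF.leaf (nat_lit 7406544) (nat_lit 343103) (nat_lit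
 36513570) (nat_lit 13842193) [(nat_lit 343103), (nat_lit 1307426), (nat_lit 0), (nat_lit 7379707)]) (PF.cons PF.nil PF.nil)))) (PF.cons (PF.cons (PF.leaf (nat_lit 7567313) (nat_lit 1311500) (nat_lit 36058744) (nat_lit 13737592) [(nat_lit 0), (nat_lit 1311500), (nat_lit 0), (nat_lit 7344737)]) (PF.cons PF.nil PF.nil)) PF.nil))) (PF.cons (PF.cons (PF.cons (PF.leaf (nat_lit 7428434) (nat_lit 3006616) (nat_lit 35805481) (nat_lit 13670262) [(nat_lit 0), (nat_lit 0), (nat_lit 3006616), (nat_lit 7313226)]) (PF.cons (PF.leaf (nat_lit 7633727) (nat_lit 340187) (nat_lit 35557245) (nat_lit 13613205) [(nat_lit 340187), (nat_lit 0), (nat_lit 3008160), (nat_lit 7295006)]) (PF.cons PF.nil PF.nil))) (PF.cons (PF.cons (PF.leaf (nat_lit 8001782) (nat_lit 1312526) (nat_lit 34865697) (nat_lit 13449084) [(nat_lit 0), (nat_lit 1312526), (nat_lit 3004893), (nat_lit 7238305)]) PF.nil) PF.nil)) (PF.cons PF.nil PF.nil))) (PF.cons (PF.cons (PF.cons (PF.cons (PF.leaf (nat_lit 8044677)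 (nat_lit 7016049) (nat_lit 33099159) (nat_lit 12961503) [(nat_lit 0), (nat_lit 0), (nat_lit 0), (nat_lit 7016049)]) (PF.cons (PF.leaf (nat_lit 8242626) (nat_lit 334038) (nat_lit 32878469) (nat_lit 12906475) [(nat_lit 334038),
 (nat_lit 0), (nat_lit 0), (nat_lit 6996609)]) PF.nil)) (PF.cons PF.nil PF.nil)) (PF.cons PF.nil PF.nil)) (PF.cons PF.nil (PF.cons PF.nil (PF.cons PF.nil (PF.cons PF.nil PF.nil))))))))

def p15_14_2_0 : pfC (piC [(nat_lit 41997052), (nat_lit 26592602), (nat_lit 19805017), (nat_lit 13318063)] (nat_lit 6597126)) p15_14_2 (nat_lit 4) (nat_lit 0) (nat_lit 1) = true := by decide +kernel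
def p15_14_2_1 : pfC (piC [(nat_lit 41997052), (nat_lit 26592602), (nat_lit 19805017), (nat_lit 13318063)] (nat_lit 6597126)) p15_14_2 (nat_lit 4) (nat_lit 1) (nat_lit 2) = true := by decide +kernel
def p15_14_2_2 : pfC (piC [(nat_lit 41997052), (nat_lit 26592602), (nat_lit 19805017), (nat_lit 13318063)] (nat_lit 6597126)) p15_14_2 (nat_lit 4) (nat_lit 2) (nat_lit 3) = true := by decide +kernel
def p15_14_2_3 : pfC (piC [(nat_lit 41997052), (nat_lit 26592602), (nat_lit 19805017), (nat_lit 13318063)] (nat_lit 6597126)) p15_14_2 (nat_lit 4) (nat_lit 3) (nat_lit 4) = true := by decide +kernel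
def p15_14_2_4 : pfC (piC [(nat_lit 41997052), (nat_lit 26592602), (nat_lit 19805017), (nat_lit 13318063)] (nat_lit 6597126)) p15_14_2 (nat_lit 4) (nat_lit 4) (nat_lit 5) = true := by decide +kernel
def p15_14_2_5 : pfC (piC [(nat_lit 41997052), (nat_lit 26592602), (nat_lit 19805017), (nat_lit 13318063)] (nat_lit 6597126)) p15_14_2 (nat_lit 4) (nat_lit 5) (nat_lit 6) = true := by decide +kernel
def p15_14_2_6 : pfC (piC [(nat_lit 41997052), (nat_lit 26592602), (nat_lit 19805017), (nat_lit 13318063)] (nat_lit 6597126)) p15_14_2 (nat_lit 4) (nat_lit 6) (nat_lit 7) = true := by decide +kernel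
def p15_14_2_7 : pfC (piC [(nat_lit 41997052), (nat_lit 26592602), (nat_lit 19805017), (nat_lit 13318063)] (nat_lit 6597126)) p15_14_2 (nat_lit 4) (nat_lit 7) (nat_lit 8) = true := by decide +kernel
def p15_14_2_8 : pfC (piC [(nat_lit 41997052), (nat_lit 26592602), (nat_lit 19805017), (nat_lit 13318063)] (nat_lit 6597126)) p15_14_2 (nat_lit 4) (nat_lit 8) (nat_lit 9) = true := by decide +kernel
def p15_14_2_9 : pfC (piC [(nat_lit 41997052), (nat_lit 26592602), (nat_lit 19805017), (nat_lit 13318063)] (nat_lit 6597126)) p15_14_2 (nat_lit 4) (nat_lit 9) (nat_lit 10) = true := by decide +kernel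
def p15_14_2_10 : pfC (piC [(nat_lit 41997052), (nat_lit 26592602), (nat_lit 19805017), (nat_lit 13318063)] (nat_lit 6597126)) p15_14_2 (nat_lit 4) (nat_lit 10) (nat_lit 11) = true := by decide +kernel
def p15_14_2_11 : pfC (piC [(nat_lit 41997052), (nat_lit 26592602), (nat_lit 19805017), (nat_lit 13318063)] (nat_lit 6597126)) p15_14_2 (nat_lit 4) (nat_lit 11) (nat_lit 12) = true := by decide +kernel
def p15_14_2_12 : pfC (piC [(nat_lit 41997052), (nat_lit 26592602), (nat_lit 19805017), (nat_lit 13318063)] (nat_lit 6597126)) p15_14_2 (nat_lit 4) (nat_lit 12) (nat_lit 13) = true := by decide +kernel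
def p15_14_2_13 : pfC (piC [(nat_lit 41997052), (nat_lit 26592602), (nat_lit 19805017), (nat_lit 13318063)] (nat_lit 6597126)) p15_14_2 (nat_lit 4) (nat_lit 13) (nat_lit 14) = true := by decide +kernel
def p15_14_2_14 : pfC (piC [(nat_lit 41997052), (nat_lit 26592602), (nat_lit 19805017), (nat_lit 13318063)] (nat_lit 6597126)) p15_14_2 (nat_lit 4) (nat_lit 14) (nat_lit 15) = true := by decide +kernel
def p15_14_2_15 : pfC (piC [(nat_lit 41997052), (nat_lit 26592602), (nat_lit 19805017), (nat_lit 13318063)] (nat_lit 6597126)) p15_14_2 (nat_lit 4) (nat_lit 15) (nat_lit 16) = true := by decide +kernel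
def p15_14_2_16 : pfC (piC [(nat_lit 41997052), (nat_lit 26592602), (nat_lit 19805017), (nat_lit 13318063)] (nat_lit 6597126)) p15_14_2 (nat_lit 4) (nat_lit 16) (nat_lit 17) = true := by decide +kernel
def p15_14_2_17 : pfC (piC [(nat_lit 41997052), (nat_lit 26592602), (nat_lit 19805017), (nat_lit 13318063)] (nat_lit 6597126)) p15_14_2 (nat_lit 4) (nat_lit 17) (nat_lit 18) = true := by decide +kernel
def p15_14_2_18 : pfC (piC [(nat_lit 41997052), (nat_lit 26592602), (nat_lit 19805017), (nat_lit 13318063)] (nat_lit 6597126)) p15_14_2 (nat_lit 4) (nat_lit 18) (nat_lit 19) = true := by decide +kernel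
def p15_14_2_19 : pfC (piC [(nat_lit 41997052), (nat_lit 26592602), (nat_lit 19805017), (nat_lit 13318063)] (nat_lit 6597126)) p15_14_2 (nat_lit 4) (nat_lit 19) (nat_lit 20) = true := by decide +kernel
def p15_14_2_20 : pfC (piC [(nat_lit 41997052), (nat_lit 26592602), (nat_lit 19805017), (nat_lit 13318063)] (nat_lit 6597126)) p15_14_2 (nat_lit 4) (nat_lit 20) (nat_lit 21) = true := by decide +kernel
def p15_14_2_21 : pfC (piC [(nat_lit 41997052), (nat_lit 26592602), (nat_lit 19805017), (nat_lit 13318063)] (nat_lit 6597126)) p15_14_2 (nat_lit 4) (nat_lit 21) (nat_lit 22) = true := by decide +kernel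
def p15_14_2_22 : pfC (piC [(nat_lit 41997052), (nat_lit 26592602), (nat_lit 19805017), (nat_lit 13318063)] (nat_lit 6597126)) p15_14_2 (nat_lit 4) (nat_lit 22) (nat_lit 23) = true := by decide +kernel
def p15_14_2_23 : pfC (piC [(nat_lit 41997052), (nat_lit 26592602), (nat_lit 19805017), (nat_lit 13318063)] (nat_lit 6597126)) p15_14_2 (nat_lit 4) (nat_lit 23) (nat_lit 24) = true := by decide +kernel
def p15_14_2_24 : pfC (piC [(nat_lit 41997052), (nat_lit 26592602), (nat_lit 19805017), (nat_lit 13318063)] (nat_lit 6597126)) p15_14_2 (nat_lit 4) (nat_lit 24) (nat_lit 25) = true := by decide +kernel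
def p15_14_2_25 : pfC (piC [(nat_lit 41997052), (nat_lit 26592602), (nat_lit 19805017), (nat_lit 13318063)] (nat_lit 6597126)) p15_14_2 (nat_lit 4) (nat_lit 25) (nat_lit 26) = true := by decide +kernel
def p15_14_2_26 : pfC (piC [(nat_lit 41997052), (nat_lit 26592602), (nat_lit 19805017), (nat_lit 13318063)] (nat_lit 6597126)) p15_14_2 (nat_lit 4) (nat_lit 26) (nat_lit 27) = true := by decide +kernel
def p15_14_2_27 : pfC (piC [(nat_lit 41997052), (nat_lit 26592602), (nat_lit 19805017), (nat_lit 13318063)] (nat_lit 6597126)) p15_14_2 (nat_lit 4) (nat_lit 27) (nat_lit 28) = true := by decide +kernel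
def p15_14_2_28 : pfC (piC [(nat_lit 41997052), (nat_lit 26592602), (nat_lit 19805017), (nat_lit 13318063)] (nat_lit 6597126)) p15_14_2 (nat_lit 4) (nat_lit 28) (nat_lit 29) = true := by decide +kernel
def p15_14_2_29 : pfC (piC [(nat_lit 41997052), (nat_lit 26592602), (nat_lit 19805017), (nat_lit 13318063)] (nat_lit 6597126)) p15_14_2 (nat_lit 4) (nat_lit 29) (nat_lit 30) = true := by decide +kernel
def p15_14_2_30 : pfC (piC [(nat_lit 41997052), (nat_lit 26592602), (nat_lit 19805017), (nat_lit 13318063)] (nat_lit 6597126)) p15_14_2 (nat_lit 4) (nat_lit 30) (nat_lit 31) = true := by decide +kernel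
def p15_14_2_31 : pfC (piC [(nat_lit 41997052), (nat_lit 26592602), (nat_lit 19805017), (nat_lit 13318063)] (nat_lit 6597126)) p15_14_2 (nat_lit 4) (nat_lit 31) (nat_lit 32) = true := by decide +kernel
def p15_14_2_32 : pfC (piC [(nat_lit 41997052), (nat_lit 26592602), (nat_lit 19805017), (nat_lit 13318063)] (nat_lit 6597126)) p15_14_2 (nat_lit 4) (nat_lit 32) (nat_lit 33) = true := by decide +kernel
def p15_14_2_33 : pfC (piC [(nat_lit 41997052), (nat_lit 26592602), (nat_lit 19805017), (nat_lit 13318063)] (nat_lit 6597126)) p15_14_2 (nat_lit 4) (nat_lit 33) (nat_lit 34) = true := by decide +kernel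
def p15_14_2_34 : pfC (piC [(nat_lit 41997052), (nat_lit 26592602), (nat_lit 19805017), (nat_lit 13318063)] (nat_lit 6597126)) p15_14_2 (nat_lit 4) (nat_lit 34) (nat_lit 35) = true := by decide +kernel
def p15_14_2_35 : pfC (piC [(nat_lit 41997052), (nat_lit 26592602), (nat_lit 19805017), (nat_lit 13318063)] (nat_lit 6597126)) p15_14_2 (nat_lit 4) (nat_lit 35) (nat_lit 36) = true := by decide +kernel
def p15_14_2_36 : pfC (piC [(nat_lit 41997052), (nat_lit 26592602), (nat_lit 19805017), (nat_lit 13318063)] (nat_lit 6597126)) p15_14_2 (nat_lit 4) (nat_lit 36) (nat_lit 37) = true := by decide +kernel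
def p15_14_2_37 : pfC (piC [(nat_lit 41997052), (nat_lit 26592602), (nat_lit 19805017), (nat_lit 13318063)] (nat_lit 6597126)) p15_14_2 (nat_lit 4) (nat_lit 37) (nat_lit 38) = true := by decide +kernel
def p15_14_2_38 : pfC (piC [(nat_lit 41997052), (nat_lit 26592602), (nat_lit 19805017), (nat_lit 13318063)] (nat_lit 6597126)) p15_14_2 (nat_lit 4) (nat_lit 38) (nat_lit 39) = true := by decide +kernel
def p15_14_2_39 : pfC (piC [(nat_lit 41997052), (nat_lit 26592602), (nat_lit 19805017), (nat_lit 13318063)] (nat_lit 6597126)) p15_14_2 (nat_lit 4) (nat_lit 39) (nat_lit 40) = true := by decide +kernel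
def p15_14_2_40 : pfC (piC [(nat_lit 41997052), (nat_lit 26592602), (nat_lit 19805017), (nat_lit 13318063)] (nat_lit 6597126)) p15_14_2 (nat_lit 4) (nat_lit 40) (nat_lit 41) = true := by decide +kernel
def p15_14_2_41 : pfC (piC [(nat_lit 41997052), (nat_lit 26592602), (nat_lit 19805017), (nat_lit 13318063)] (nat_lit 6597126)) p15_14_2 (nat_lit 4) (nat_lit 41) (nat_lit 42) = true := by decide +kernel
def p15_14_2_42 : pfC (piC [(nat_lit 41997052), (nat_lit 26592602), (nat_lit 19805017), (nat_lit 13318063)] (nat_lit 6597126)) p15_14_2 (nat_lit 4) (nat_lit 42) (nat_lit 43) = true := by decide +kernel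
def p15_14_2_43 : pfC (piC [(nat_lit 41997052), (nat_lit 26592602), (nat_lit 19805017), (nat_lit 13318063)] (nat_lit 6597126)) p15_14_2 (nat_lit 4) (nat_lit 43) (nat_lit 44) = true := by decide +kernel
def p15_14_2_44 : pfC (piC [(nat_lit 41997052), (nat_lit 26592602), (nat_lit 19805017), (nat_lit 13318063)] (nat_lit 6597126)) p15_14_2 (nat_lit 4) (nat_lit 44) (nat_lit 45) = true := by decide +kernel
def p15_14_2_45 : pfC (piC [(nat_lit 41997052), (nat_lit 26592602), (nat_lit 19805017), (nat_lit 13318063)] (nat_lit 6597126)) p15_14_2 (nat_lit 4) (nat_lit 45) (nat_lit 46) = true := by decide +kernel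
def p15_14_2_46 : pfC (piC [(nat_lit 41997052), (nat_lit 26592602), (nat_lit 19805017), (nat_lit 13318063)] (nat_lit 6597126)) p15_14_2 (nat_lit 4) (nat_lit 46) (nat_lit 47) = true := by decide +kernel
def p15_14_2_47 : pfC (piC [(nat_lit 41997052), (nat_lit 26592602), (nat_lit 19805017), (nat_lit 13318063)] (nat_lit 6597126)) p15_14_2 (nat_lit 4) (nat_lit 47) (nat_lit 48) = true := by decide +kernel
def p15_14_2_48 : pfC (piC [(nat_lit 41997052), (nat_lit 26592602), (nat_lit 19805017), (nat_lit 13318063)] (nat_lit 6597126)) p15_14_2 (nat_lit 4) (nat_lit 48) (nat_lit 49) = true := by decide +kernel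
def p15_14_2_49 : pfC (piC [(nat_lit 41997052), (nat_lit 26592602), (nat_lit 19805017), (nat_lit 13318063)] (nat_lit 6597126)) p15_14_2 (nat_lit 4) (nat_lit 49) (nat_lit 50) = true := by decide +kernel
def p15_14_2_50 : pfC (piC [(nat_lit 41997052), (nat_lit 26592602), (nat_lit 19805017), (nat_lit 13318063)] (nat_lit 6597126)) p15_14_2 (nat_lit 4) (nat_lit 50) (nat_lit 51) = true := by decide +kernel
def p15_14_2_51 : pfC (piC [(nat_lit 41997052), (nat_lit 26592602), (nat_lit 19805017), (nat_lit 13318063)] (nat_lit 6597126)) p15_14_2 (nat_lit 4) (nat_lit 51) (nat_lit 52) = true := by decide +kernel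
def p15_14_2_52 : pfC (piC [(nat_lit 41997052), (nat_lit 26592602), (nat_lit 19805017), (nat_lit 13318063)] (nat_lit 6597126)) p15_14_2 (nat_lit 4) (nat_lit 52) (nat_lit 53) = true := by decide +kernel
def p15_14_2_53 : pfC (piC [(nat_lit 41997052), (nat_lit 26592602), (nat_lit 19805017), (nat_lit 13318063)] (nat_lit 6597126)) p15_14_2 (nat_lit 4) (nat_lit 53) (nat_lit 54) = true := by decide +kernel
def p15_14_2_54 : pfC (piC [(nat_lit 41997052), (nat_lit 26592602), (nat_lit 19805017), (nat_lit 13318063)] (nat_lit 6597126)) p15_14_2 (nat_lit 4) (nat_lit 54) (nat_lit 55) = true := by decide +kernel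
def p15_14_2_55 : pfC (piC [(nat_lit 41997052), (nat_lit 26592602), (nat_lit 19805017), (nat_lit 13318063)] (nat_lit 6597126)) p15_14_2 (nat_lit 4) (nat_lit 55) (nat_lit 56) = true := by decide +kernel
def p15_14_2_56 : pfC (piC [(nat_lit 41997052), (nat_lit 26592602), (nat_lit 19805017), (nat_lit 13318063)] (nat_lit 6597126)) p15_14_2 (nat_lit 4) (nat_lit 56) (nat_lit 57) = true := by decide +kernel
def p15_14_2_57 : pfC (piC [(nat_lit 41997052), (nat_lit 26592602), (nat_lit 19805017), (nat_lit 13318063)] (nat_lit 6597126)) p15_14_2 (nat_lit 4) (nat_lit 57) (nat_lit 58) = true := by decide +kernel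
def p15_14_2_58 : pfC (piC [(nat_lit 41997052), (nat_lit 26592602), (nat_lit 19805017), (nat_lit 13318063)] (nat_lit 6597126)) p15_14_2 (nat_lit 4) (nat_lit 58) (nat_lit 59) = true := by decide +kernel
def p15_14_2_59 : pfC (piC [(nat_lit 41997052), (nat_lit 26592602), (nat_lit 19805017), (nat_lit 13318063)] (nat_lit 6597126)) p15_14_2 (nat_lit 4) (nat_lit 59) (nat_lit 60) = true := by decide +kernel
def p15_14_2_60 : pfC (piC [(nat_lit 41997052), (nat_lit 26592602), (nat_lit 19805017), (nat_lit 13318063)] (nat_lit 6597126)) p15_14_2 (nat_lit 4) (nat_lit 60) (nat_lit 61) = true := by decide +kernel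
def p15_14_2_61 : pfC (piC [(nat_lit 41997052), (nat_lit 26592602), (nat_lit 19805017), (nat_lit 13318063)] (nat_lit 6597126)) p15_14_2 (nat_lit 4) (nat_lit 61) (nat_lit 62) = true := by decide +kernel
def p15_14_2_62 : pfC (piC [(nat_lit 41997052), (nat_lit 26592602), (nat_lit 19805017), (nat_lit 13318063)] (nat_lit 6597126)) p15_14_2 (nat_lit 4) (nat_lit 62) (nat_lit 63) = true := by decide +kernel
def p15_14_2_63 : pfC (piC [(nat_lit 41997052), (nat_lit 26592602), (nat_lit 19805017), (nat_lit 13318063)] (nat_lit 6597126)) p15_14_2 (nat_lit 4) (nat_lit 63) (nat_lit 64) = true := by decide +kernel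
def p15_14_2_64 : pfC (piC [(nat_lit 41997052), (nat_lit 26592602), (nat_lit 19805017), (nat_lit 13318063)] (nat_lit 6597126)) p15_14_2 (nat_lit 4) (nat_lit 64) (nat_lit 65) = true := by decide +kernel
def p15_14_2_65 : pfC (piC [(nat_lit 41997052), (nat_lit 26592602), (nat_lit 19805017), (nat_lit 13318063)] (nat_lit 6597126)) p15_14_2 (nat_lit 4) (nat_lit 65) (nat_lit 66) = true := by decide +kernel
def p15_14_2_66 : pfC (piC [(nat_lit 41997052), (nat_lit 26592602), (nat_lit 19805017), (nat_lit 13318063)] (nat_lit 6597126)) p15_14_2 (nat_lit 4) (nat_lit 66) (nat_lit 67) = true := by decide +kernel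
def p15_14_2_67 : pfC (piC [(nat_lit 41997052), (nat_lit 26592602), (nat_lit 19805017), (nat_lit 13318063)] (nat_lit 6597126)) p15_14_2 (nat_lit 4) (nat_lit 67) (nat_lit 68) = true := by decide +kernel
def p15_14_2_68 : pfC (piC [(nat_lit 41997052), (nat_lit 26592602), (nat_lit 19805017), (nat_lit 13318063)] (nat_lit 6597126)) p15_14_2 (nat_lit 4) (nat_lit 68) (nat_lit 69) = true := by decide +kernel
def p15_14_2_69 : pfC (piC [(nat_lit 41997052), (nat_lit 26592602), (nat_lit 19805017), (nat_lit 13318063)] (nat_lit 6597126)) p15_14_2 (nat_lit 4) (nat_lit 69) (nat_lit 70) = true := by decide +kernel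
def p15_14_2_70 : pfC (piC [(nat_lit 41997052), (nat_lit 26592602), (nat_lit 19805017), (nat_lit 13318063)] (nat_lit 6597126)) p15_14_2 (nat_lit 4) (nat_lit 70) (nat_lit 71) = true := by decide +kernel
def p15_14_2_71 : pfC (piC [(nat_lit 41997052), (nat_lit 26592602), (nat_lit 19805017), (nat_lit 13318063)] (nat_lit 6597126)) p15_14_2 (nat_lit 4) (nat_lit 71) (nat_lit 72) = true := by decide +kernel
def p15_14_2_72 : pfC (piC [(nat_lit 41997052), (nat_lit 26592602), (nat_lit 19805017), (nat_lit 13318063)] (nat_lit 6597126)) p15_14_2 (nat_lit 4) (nat_lit 72) (nat_lit 73) = true := by decide +kernel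
def p15_14_2_73 : pfC (piC [(nat_lit 41997052), (nat_lit 26592602), (nat_lit 19805017), (nat_lit 13318063)] (nat_lit 6597126)) p15_14_2 (nat_lit 4) (nat_lit 73) (nat_lit 74) = true := by decide +kernel
def p15_14_2_74 : pfC (piC [(nat_lit 41997052), (nat_lit 26592602), (nat_lit 19805017), (nat_lit 13318063)] (nat_lit 6597126)) p15_14_2 (nat_lit 4) (nat_lit 74) (nat_lit 75) = true := by decide +kernel
def p15_14_2_75 : pfC (piC [(nat_lit 41997052), (nat_lit 26592602), (nat_lit 19805017), (nat_lit 13318063)] (nat_lit 6597126)) p15_14_2 (nat_lit 4) (nat_lit 75) (nat_lit 76) = true := by decide +kernel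
def p15_14_2_76 : pfC (piC [(nat_lit 41997052), (nat_lit 26592602), (nat_lit 19805017), (nat_lit 13318063)] (nat_lit 6597126)) p15_14_2 (nat_lit 4) (nat_lit 76) (nat_lit 77) = true := by decide +kernel
def p15_14_2_77 : pfC (piC [(nat_lit 41997052), (nat_lit 26592602), (nat_lit 19805017), (nat_lit 13318063)] (nat_lit 6597126)) p15_14_2 (nat_lit 4) (nat_lit 77) (nat_lit 78) = true := by decide +kernel
def p15_14_2_78 : pfC (piC [(nat_lit 41997052), (nat_lit 26592602), (nat_lit 19805017), (nat_lit 13318063)] (nat_lit 6597126)) p15_14_2 (nat_lit 4) (nat_lit 78) (nat_lit 79) = true := by decide +kernel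
def p15_14_2_79 : pfC (piC [(nat_lit 41997052), (nat_lit 26592602), (nat_lit 19805017), (nat_lit 13318063)] (nat_lit 6597126)) p15_14_2 (nat_lit 4) (nat_lit 79) (nat_lit 80) = true := by decide +kernel
def p15_14_2_80 : pfC (piC [(nat_lit 41997052), (nat_lit 26592602), (nat_lit 19805017), (nat_lit 13318063)] (nat_lit 6597126)) p15_14_2 (nat_lit 4) (nat_lit 80) (nat_lit 81) = true := by decide +kernel
def p15_14_2_81 : pfC (piC [(nat_lit 41997052), (nat_lit 26592602), (nat_lit 19805017), (nat_lit 13318063)] (nat_lit 6597126)) p15_14_2 (nat_lit 4) (nat_lit 81) (nat_lit 82) = true := by decide +kernel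
def p15_14_2_82 : pfC (piC [(nat_lit 41997052), (nat_lit 26592602), (nat_lit 19805017), (nat_lit 13318063)] (nat_lit 6597126)) p15_14_2 (nat_lit 4) (nat_lit 82) (nat_lit 83) = true := by decide +kernel
def p15_14_2_83 : pfC (piC [(nat_lit 41997052), (nat_lit 26592602), (nat_lit 19805017), (nat_lit 13318063)] (nat_lit 6597126)) p15_14_2 (nat_lit 4) (nat_lit 83) (nat_lit 84) = true := by decide +kernel
def p15_14_2_84 : pfC (piC [(nat_lit 41997052), (nat_lit 26592602), (nat_lit 19805017), (nat_lit 13318063)] (nat_lit 6597126)) p15_14_2 (nat_lit 4) (nat_lit 84) (nat_lit 85) = true := by decide +kernel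
def p15_14_2_85 : pfC (piC [(nat_lit 41997052), (nat_lit 26592602), (nat_lit 19805017), (nat_lit 13318063)] (nat_lit 6597126)) p15_14_2 (nat_lit 4) (nat_lit 85) (nat_lit 86) = true := by decide +kernel
def p15_14_2_86 : pfC (piC [(nat_lit 41997052), (nat_lit 26592602), (nat_lit 19805017), (nat_lit 13318063)] (nat_lit 6597126)) p15_14_2 (nat_lit 4) (nat_lit 86) (nat_lit 87) = true := by decide +kernel
def p15_14_2_87 : pfC (piC [(nat_lit 41997052), (nat_lit 26592602), (nat_lit 19805017), (nat_lit 13318063)] (nat_lit 6597126)) p15_14_2 (nat_lit 4) (nat_lit 87) (nat_lit 88) = true := by decide +kernel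
def p15_14_2_88 : pfC (piC [(nat_lit 41997052), (nat_lit 26592602), (nat_lit 19805017), (nat_lit 13318063)] (nat_lit 6597126)) p15_14_2 (nat_lit 4) (nat_lit 88) (nat_lit 89) = true := by decide +kernel
def p15_14_2_89 : pfC (piC [(nat_lit 41997052), (nat_lit 26592602), (nat_lit 19805017), (nat_lit 13318063)] (nat_lit 6597126)) p15_14_2 (nat_lit 4) (nat_lit 89) (nat_lit 90) = true := by decide +kernel
theorem p15_14_2_T : PfS (PiF n15_14.reverse (nat_lit 6597126)) p15_14_2 (nat_lit 4) [] 0 :=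
  pftab_of (los := [(nat_lit 41997052), (nat_lit 26592602), (nat_lit 19805017), (nat_lit 13318063)]) (by decide +kernel) (hi := (nat_lit 90)) (PfP.trans (PfP.trans (PfP.trans (PfP.trans (PfP.trans (PfP.trans (PfP.trans (PfP.trans (PfP.trans (PfP.trans (PfP.trans (PfP.trans (PfP.trans (PfP.trans (PfP.trans (PfP.trans (PfP.trans (PfP.trans (PfP.trans (PfP.trans (PfP.trans (PfP.trans (PfP.trans (PfP.trans (PfP.trans (PfP.trans (PfP.trans (PfP.trans (PfP.trans (PfP.trans (PfP.trans (PfP.trans (PfP.trans (PfP.trans (PfP.trans (PfP.trans (PfP.trans (PfP.trans (PfP.trans (PfP.trans (PfP.trans (PfP.trans (PfP.trans (PfP.trans (PfP.trans (PfP.trans (PfP.trans (PfP.trans (PfP.trans (PfP.trans (PfP.trans (PfP.trans (PfP.trans (PfP.trans (PfP.trans (PfP.trans (PfP.trans (PfP.trans (PfP.trans (PfP.trans (PfP.trans (PfP.trans (PfP.trans (PfP.trans (PfP.trans (PfP.trans (PfP.trans (PfP.trans (PfP.trans (PfP.trans (PfP.trans (PfP.trans (PfP.trans (PfP.trans (PfP.trans (PfP.trans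 (PfP.trans (PfP.trans (PfP.trans (PfP.trans (PfP.trans (PfP.trans (PfP.trans (PfP.trans (PfP.trans (PfP.trans (PfP.trans (PfP.trans (PfP.trans (pfC_sound p15_14_2_0) (pfC_sound p15_14_2_1)) (pfC_sound p15_14_2_2)) (pfC_sound p15_14_2_3)) (pfC_sound p15_14_2_4)) (pfC_sound p15_14_2_5)) (pfC_sound p15_14_2_6)) (pfC_sound p15_14_2_7)) (pfC_sound p15_14_2_8))
 (pfC_sound p15_14_2_9)) (pfC_sound p15_14_2_10)) (pfC_sound p15_14_2_11)) (pfC_sound p15_14_2_12)) (pfC_sound p15_14_2_13)) (pfC_sound p15_14_2_14)) (pfC_sound p15_14_2_15)) (pfC_sound p15_14_2_16)) (pfC_sound p15_14_2_17)) (pfC_sound p15_14_2_18)) (pfC_sound p15_14_2_19)) (pfC_sound p15_14_2_20)) (pfC_sound p15_14_2_21)) (pfC_sound p15_14_2_22)) (pfC_sound p15_14_2_23)) (pfC_sound p15_14_2_24)) (pfC_sound p15_14_2_25)) (pfC_sound p15_14_2_26)) (pfC_sound p15_14_2_27)) (pfC_sound p15_14_2_28)) (pfC_sound p15_14_2_29)) (pfC_sound p15_14_2_30)) (pfC_sound p15_14_2_31)) (pfC_sound p15_14_2_32)) (pfC_sound p15_14_2_33))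 (pfC_sound p15_14_2_34)) (pfC_sound p15_14_2_35)) (pfC_sound p15_14_2_36)) (pfC_sound p15_14_2_37)) (pfC_sound p15_14_2_38)) (pfC_sound p15_14_2_39)) (pfC_sound p15_14_2_40)) (pfC_sound p15_14_2_41)) (pfC_sound p15_14_2_42)) (pfC_sound p15_14_2_43)) (pfC_sound p15_14_2_44)) (pfC_sound p15_14_2_45)) (pfC_sound p15_14_2_46)) (pfC_sound p15_14_2_47)) (pfC_sound p15_14_2_48)) (pfC_sound p15_14_2_49)) (pfC_sound p15_14_2_50)) (pfC_sound p15_14_2_51)) (pfC_sound p15_14_2_52)) (pfC_sound p15_14_2_53)) (pfC_sound p15_14_2_54)) (pfC_sound p15_14_2_55)) (pfC_sound p15_14_2_56))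
 (pfC_sound p15_14_2_57)) (pfC_sound p15_14_2_58)) (pfC_sound p15_14_2_59)) (pfC_sound p15_14_2_60)) (pfC_sound p15_14_2_61)) (pfC_sound p15_14_2_62)) (pfC_sound p15_14_2_63)) (pfC_sound p15_14_2_64)) (pfC_sound p15_14_2_65)) (pfC_sound p15_14_2_66)) (pfC_sound p15_14_2_67)) (pfC_sound p15_14_2_68)) (pfC_sound p15_14_2_69)) (pfC_sound p15_14_2_70)) (pfC_sound p15_14_2_71)) (pfC_sound p15_14_2_72)) (pfC_sound p15_14_2_73)) (pfC_sound p15_14_2_74)) (pfC_sound p15_14_2_75)) (pfC_sound p15_14_2_76)) (pfC_sound p15_14_2_77)) (pfC_sound p15_14_2_78)) (pfC_sound p15_14_2_79)) (pfC_sound p15_14_2_80)) (pfC_sound p15_14_2_81)) (pfC_sound p15_14_2_82)) (pfC_sound p15_14_2_83)) (pfC_sound p15_14_2_84)) (pfC_sound p15_14_2_85)) (pfC_sound p15_14_2_86)) (pfC_sound p15_14_2_87)) (pfC_sound p15_14_2_88)) (pfC_sound p15_14_2_89)) (by decide +kernel)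

def z15_14_2 : zOK yB15_14 (nat_lit 2) (nat_lit 600) (nat_lit 750) (nat_lit 6597126) (nat_lit 4732089) = true := by decide +kernel
def g15_14_2 : gOK yB15_14.x P15_14 (nat_lit 1428) (q15_14 :: r15_14) (nat_lit 2) (nat_lit 600) (nat_lit 3) (nat_lit 750) (nat_lit 12712500) (nat_lit 12712500) (nat_lit 12712500) (nat_lit 12712500) [(nat_lit 800), (nat_lit 1600)] = true := by decide +kernel
def v15_14_2 : ivC P15_14 s15_14 w15_14 n15_14 (nat_lit 4) (nat_lit 4860) (nat_lit 2) (nat_lit 600) f144_1_600 f152_1_600 (nat_lit 3) (nat_lit 750) f144_1_750 f152_1_750 (nat_lit 6597126) (nat_lit 4732089) p15_14_2 = true := by decide +kernel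
def p15_14_3 : PF := (PF.cons (PF.cons (PF.cons (PF.cons (PF.leaf (nat_lit 3104725) (nat_lit 20959496) (nat_lit 46149316) (nat_lit 20959496) [(nat_lit 0), (nat_lit 0), (nat_lit 0), (nat_lit 0)]) (PF.cons (PF.leaf (nat_lit 3222889) (nat_lit 201065) (nat_lit 45986123) (nat_lit 20921624) [(nat_lit 201065), (nat_lit 0), (nat_lit 0), (nat_lit 0)]) (PF.cons (PF.leaf (nat_lit 3364725) (nat_lit 218535) (nat_lit 45794952) (nat_lit 20876788) [(nat_lit 218535), (nat_lit 0), (nat_lit 0), (nat_lit 0)]) (PF.cons (PF.leaf (nat_lit 3523940) (nat_lit 234020) (nat_lit 45580782) (nat_lit 20825967) [(nat_lit 234020), (nat_lit 0), (nat_lit 0), (nat_lit 0)]) (PF.cons (PF.leaf (nat_lit 3698082) (nat_lit 247972) (nat_lit 45347107) (nat_lit 20769817) [(nat_lit 247972), (nat_lit 0), (nat_lit 0), (nat_lit 0)]) (PF.cons (PF.leaf (nat_lit 3885211) (nat_lit 260679) (nat_lit 45096596) (nat_lit 20708820) [(nat_lit 260679), (nat_lit 0), (nat_lit 0), (nat_lit 0)]) (PF.cons (PF.leaf (nat_lit 4084035)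 (nat_lit 272342) (nat_lit 44831402) (nat_lit 20643355) [(nat_lit 272342), (nat_lit 0), (nat_lit 0), (nat_lit 0)]) (PF.cons (PF.leaf (nat_lit 4293143) (nat_lit 283106) (nat_lit 44553326) (nat_lit 20573737) [(nat_lit 283106), (nat_lit 0),
 (nat_lit 0), (nat_lit 0)]) (PF.cons (PF.leaf (nat_lit 4511538) (nat_lit 293082) (nat_lit 44263913) (nat_lit 20500236) [(nat_lit 293082), (nat_lit 0), (nat_lit 0), (nat_lit 0)]) (PF.cons PF.nil PF.nil)))))))))) (PF.cons (PF.cons (PF.leaf (nat_lit 3563736) (nat_lit 1058033) (nat_lit 45295593) (nat_lit 20755186) [(nat_lit 0), (nat_lit 1058033), (nat_lit 0), (nat_lit 0)]) (PF.cons (PF.leaf (nat_lit 3718980) (nat_lit 244339) (nat_lit 45080593) (nat_lit 20702697) [(nat_lit 244339), (nat_lit 1081182), (nat_lit 0), (nat_lit 0)]) (PF.cons (PF.leaf (nat_lit 3891891) (nat_lit 257646) (nat_lit 44845018) (nat_lit 20644497) [(nat_lit 257646), (nat_lit 1104003), (nat_lit 0), (nat_lit 0)]) (PF.cons (PF.leaf (nat_lit 4078240) (nat_lit 269712)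 (nat_lit 44592283) (nat_lit 20581268) [(nat_lit 269712), (nat_lit 1126124), (nat_lit 0), (nat_lit 0)]) (PF.cons (PF.leaf (nat_lit 4276465) (nat_lit 280759) (nat_lit 44324921) (nat_lit 20513500) [(nat_lit 280759), (nat_lit 1147352), (nat_lit 0), (nat_lit 0)]) (PF.cons (PF.leaf (nat_lit 4485015) (nat_lit 290941) (nat_lit 44044937) (nat_lit 20441573) [(nat_lit 290941), (nat_lit 1167592), (nat_lit 0), (nat_lit 0)]) (PF.cons (PF.leaf (nat_lit 4702811) (nat_lit
 300370) (nat_lit 43753986) (nat_lit 20365800) [(nat_lit 300370), (nat_lit 1186805), (nat_lit 0), (nat_lit 0)]) (PF.cons PF.nil (PF.cons PF.nil PF.nil))))))))) (PF.cons (PF.cons (PF.leaf (nat_lit 4089757) (nat_lit 1133427) (nat_lit 44329530) (nat_lit 20512427) [(nat_lit 0), (nat_lit 1133427), (nat_lit 0), (nat_lit 0)]) (PF.cons (PF.leaf (nat_lit 4272623) (nat_lit 277447) (nat_lit 44077669) (nat_lit 20447751) [(nat_lit 277447), (nat_lit 1152972), (nat_lit 0), (nat_lit 0)]) (PF.cons (PF.leaf (nat_lit 4469199)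 (nat_lit 288062) (nat_lit 43810555) (nat_lit 20378302) [(nat_lit 288062), (nat_lit 1171914), (nat_lit 0), (nat_lit 0)]) (PF.cons (PF.leaf (nat_lit 4676408) (nat_lit 297802) (nat_lit 43530624) (nat_lit 20304587) [(nat_lit 297802), (nat_lit 1190097), (nat_lit 0), (nat_lit 0)]) (PF.cons (PF.leaf (nat_lit 4892988) (nat_lit 306792) (nat_lit 43239772) (nat_lit 20226991) [(nat_lit 306792), (nat_lit 1207438), (nat_lit 0), (nat_lit 0)]) (PF.cons (PF.leaf (nat_lit 5117859) (nat_lit 315126) (nat_lit 42939546) (nat_lit 20145833) [(nat_lit 315126), (nat_lit 1223899), (nat_lit 0), (nat_lit 0)]) (PF.cons PF.nil PF.nil))))))) (PF.cons (PF.cons (PF.leaf (nat_lit 4664037) (nat_lit 1193968)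
 (nat_lit 43289009) (nat_lit 20237897) [(nat_lit 0), (nat_lit 1193968), (nat_lit 0), (nat_lit 0)]) (PF.cons (PF.leaf (nat_lit 4867924) (nat_lit 303764) (nat_lit 43011188) (nat_lit 20162975) [(nat_lit 303764), (nat_lit 1210295), (nat_lit 0), (nat_lit 0)]) (PF.cons (PF.leaf (nat_lit 5082548) (nat_lit 312419) (nat_lit 42722090) (nat_lit 20084042) [(nat_lit 312419), (nat_lit 1225946), (nat_lit 0), (nat_lit 0)]) (PF.cons (PF.leaf (nat_lit 5305652) (nat_lit 320410) (nat_lit 42423519) (nat_lit 20001495) [(nat_lit 320410), (nat_lit 1240855), (nat_lit 0), (nat_lit 0)]) (PF.cons PF.nil PF.nil))))) (PF.cons (PF.cons (PF.leaf (nat_lit 5272902) (nat_lit 1242568) (nat_lit 42201431) (nat_lit 19937106) [(nat_lit 0), (nat_lit 1242568), (nat_lit 0), (nat_lit 0)]) (PF.cons (PF.leaf (nat_lit 5492667) (nat_lit 325023) (nat_lit 41905943) (nat_lit 19853628) [(nat_lit 325023), (nat_lit 1256054), (nat_lit 0), (nat_lit 0)]) (PF.cons (PF.leaf (nat_lit 5721008) (nat_lit 332153) (nat_lit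 41602234) (nat_lit 19766790) [(nat_lit 332153), (nat_lit 1268870), (nat_lit 0), (nat_lit 0)]) (PF.cons PF.nil PF.nil)))) (PF.cons (PF.cons (PF.leaf (nat_lit 5905747) (nat_lit 1281269) (nat_lit 41087514) (nat_lit 19614951)
 [(nat_lit 0), (nat_lit 1281269), (nat_lit 0), (nat_lit 0)]) (PF.cons PF.nil PF.nil)) (PF.cons PF.nil (PF.cons PF.nil PF.nil)))))))) (PF.cons (PF.cons (PF.cons (PF.leaf (nat_lit 4055107) (nat_lit 2837329) (nat_lit 43885507) (nat_lit 20385976) [(nat_lit 0), (nat_lit 0), (nat_lit 2837329), (nat_lit 0)]) (PF.cons (PF.leaf (nat_lit 4218199) (nat_lit 262151) (nat_lit 43662604) (nat_lit 20327643) [(nat_lit 262151), (nat_lit 0), (nat_lit 2856413), (nat_lit 0)]) (PF.cons (PF.leaf (nat_lit 4398046) (nat_lit 274718) (nat_lit 43420129) (nat_lit 20263502) [(nat_lit 274718), (nat_lit 0), (nat_lit 2875744), (nat_lit 0)]) (PF.cons (PF.leaf (nat_lit 4590697) (nat_lit 285954) (nat_lit 43161712) (nat_lit 20194366) [(nat_lit 285954), (nat_lit 0), (nat_lit 2894870),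 (nat_lit 0)]) (PF.cons (PF.leaf (nat_lit 4794399) (nat_lit 296128) (nat_lit 42889992) (nat_lit 20120814) [(nat_lit 296128), (nat_lit 0), (nat_lit 2913490), (nat_lit 0)]) (PF.cons (PF.leaf (nat_lit 5007606) (nat_lit 305422) (nat_lit 42607012) (nat_lit 20043289) [(nat_lit 305422), (nat_lit 0), (nat_lit 2931400), (nat_lit 0)]) (PF.cons (PF.leaf (nat_lit 5229221) (nat_lit 313962) (nat_lit 42314426) (nat_lit 19962149) [(nat_lit 313962),
 (nat_lit 0), (nat_lit 2948461), (nat_lit 0)]) (PF.cons PF.nil (PF.cons PF.nil PF.nil))))))))) (PF.cons (PF.cons (PF.leaf (nat_lit 4593654) (nat_lit 1179756) (nat_lit 42902844) (nat_lit 20122081) [(nat_lit 0), (nat_lit 1179756), (nat_lit 2904130), (nat_lit 0)]) (PF.cons (PF.leaf (nat_lit 4781960) (nat_lit 291961) (nat_lit 42647558) (nat_lit 20052205) [(nat_lit 291961), (nat_lit 1196305), (nat_lit 2920782), (nat_lit 0)]) (PF.cons (PF.leaf (nat_lit 4983087) (nat_lit 301826) (nat_lit 42378168) (nat_lit 19977644) [(nat_lit 301826), (nat_lit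 1212266), (nat_lit 2937079), (nat_lit 0)]) (PF.cons (PF.leaf (nat_lit 5194183) (nat_lit 310787) (nat_lit 42097161) (nat_lit 19898975) [(nat_lit 310787), (nat_lit 1227521), (nat_lit 2952792), (nat_lit 0)]) (PF.cons (PF.leaf (nat_lit 5413909) (nat_lit 318988) (nat_lit 41806442) (nat_lit 19816636) [(nat_lit 318988), (nat_lit 1242009), (nat_lit 2967769), (nat_lit 0)]) (PF.cons PF.nil (PF.cons PF.nil PF.nil))))))) (PF.cons (PF.cons (PF.leaf (nat_lit 5173722) (nat_lit 1229481) (nat_lit 41861986) (nat_lit 19830196) [(nat_lit 0), (nat_lit 1229481), (nat_lit 2957668), (nat_lit 0)]) (PF.cons (PF.leaf (nat_lit 5380853) (nat_lit 315396) (nat_lit 41584719)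
 (nat_lit 19750937) [(nat_lit 315396), (nat_lit 1243209), (nat_lit 2971339), (nat_lit 0)]) (PF.cons (PF.leaf (nat_lit 5598008) (nat_lit 323347) (nat_lit 41297262) (nat_lit 19667854) [(nat_lit 323347), (nat_lit 1256307), (nat_lit 2984385), (nat_lit 0)]) (PF.cons (PF.leaf (nat_lit 5822973) (nat_lit 330629) (nat_lit 41001403) (nat_lit 19581381) [(nat_lit 330629), (nat_lit 1268724), (nat_lit 2996690), (nat_lit 0)]) (PF.cons PF.nil PF.nil))))) (PF.cons (PF.cons (PF.leaf (nat_lit 5782777) (nat_lit 1269090) (nat_lit 40787102) (nat_lit 19515908) [(nat_lit 0), (nat_lit 1269090), (nat_lit 2998529), (nat_lit 0)]) (PF.cons (PF.leaf (nat_lit 6003947) (nat_lit 334149) (nat_lit 40495508) (nat_lit 19429047) [(nat_lit 334149), (nat_lit 1280324), (nat_lit 3009135), (nat_lit 0)]) (PF.cons PF.nil (PF.cons PF.nil PF.nil)))) (PF.cons (PF.cons (PF.leaf (nat_lit 6411279) (nat_lit 1300231) (nat_lit 39696090) (nat_lit 19184000) [(nat_lit 0), (nat_lit 1300231), (nat_lit 3027795), (nat_lit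 0)]) (PF.cons PF.nil PF.nil)) (PF.cons PF.nil PF.nil)))))) (PF.cons (PF.cons (PF.cons (PF.leaf (nat_lit 5090179) (nat_lit 2946199) (nat_lit 41500448) (nat_lit 19715965) [(nat_lit 0), (nat_lit 0), (nat_lit 2946199), (nat_lit
 0)]) (PF.cons (PF.leaf (nat_lit 5282291) (nat_lit 303615) (nat_lit 41245081) (nat_lit 19642072) [(nat_lit 303615), (nat_lit 0), (nat_lit 2959021), (nat_lit 0)]) (PF.cons (PF.leaf (nat_lit 5486541) (nat_lit 312816) (nat_lit 40976663) (nat_lit 19563622) [(nat_lit 312816), (nat_lit 0), (nat_lit 2971447), (nat_lit 0)]) (PF.cons (PF.leaf (nat_lit 5700108) (nat_lit 321093) (nat_lit 40697687) (nat_lit 19481244) [(nat_lit 321093), (nat_lit 0), (nat_lit 2983301), (nat_lit 0)]) (PF.cons (PF.leaf (nat_lit 5921644) (nat_lit 328606) (nat_lit 40410040) (nat_lit 19395414) [(nat_lit 328606), (nat_lit 0), (nat_lit 2994466), (nat_lit 0)]) (PF.cons PF.nil (PF.cons PF.nil PF.nil))))))) (PF.cons (PF.cons (PF.leaf (nat_lit 5672299) (nat_lit 1255873) (nat_lit 40470519)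 (nat_lit 19411362) [(nat_lit 0), (nat_lit 1255873), (nat_lit 2985528), (nat_lit 0)]) (PF.cons (PF.leaf (nat_lit 5881402) (nat_lit 324591) (nat_lit 40196454) (nat_lit 19328927) [(nat_lit 324591), (nat_lit 1267436), (nat_lit 2995701), (nat_lit 0)]) (PF.cons (PF.leaf (nat_lit 6099887) (nat_lit 331922) (nat_lit 39913150) (nat_lit 19242864) [(nat_lit 331922), (nat_lit 1278403), (nat_lit 3005274), (nat_lit 0)]) (PF.cons PF.nil (PF.cons PF.nil
 PF.nil))))) (PF.cons (PF.cons (PF.leaf (nat_lit 6278783) (nat_lit 1288063) (nat_lit 39416719) (nat_lit 19087852) [(nat_lit 0), (nat_lit 1288063), (nat_lit 3014056), (nat_lit 0)]) (PF.cons (PF.leaf (nat_lit 6500348) (nat_lit 341196) (nat_lit 39131026) (nat_lit 18998699) [(nat_lit 341196), (nat_lit 1297404), (nat_lit 3021540), (nat_lit 0)]) (PF.cons PF.nil (PF.cons PF.nil PF.nil)))) (PF.cons (PF.cons (PF.leaf (nat_lit 6900940) (nat_lit 1312911) (nat_lit 38354623) (nat_lit 18750034) [(nat_lit 0), (nat_lit 1312911), (nat_lit 3032710),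 (nat_lit 0)]) (PF.cons PF.nil PF.nil)) (PF.cons PF.nil PF.nil))))) (PF.cons (PF.cons (PF.cons (PF.leaf (nat_lit 6158617) (nat_lit 3000126) (nat_lit 39122049) (nat_lit 18986383) [(nat_lit 0), (nat_lit 0), (nat_lit 3000126), (nat_lit 0)]) (PF.cons (PF.leaf (nat_lit 6368621) (nat_lit 331771) (nat_lit 38853098) (nat_lit 18901774) [(nat_lit 331771), (nat_lit 0), (nat_lit 3007389), (nat_lit 0)]) (PF.cons (PF.leaf (nat_lit 6587477) (nat_lit 338549) (nat_lit 38575746) (nat_lit 18813736) [(nat_lit 338549), (nat_lit 0), (nat_lit 3014077), (nat_lit 0)]) (PF.cons PF.nil PF.nil)))) (PF.cons (PF.cons (PF.leaf (nat_lit 6760332) (nat_lit 1300882) (nat_lit 38095168)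
 (nat_lit 18657273) [(nat_lit 0), (nat_lit 1300882), (nat_lit 3018496), (nat_lit 0)]) (PF.cons (PF.leaf (nat_lit 6981489) (nat_lit 346515) (nat_lit 37816781) (nat_lit 18566752) [(nat_lit 346515), (nat_lit 1308616), (nat_lit 3023382), (nat_lit 0)]) PF.nil)) (PF.cons PF.nil PF.nil))) (PF.cons (PF.cons (PF.cons (PF.leaf (nat_lit 7227192) (nat_lit 3013978) (nat_lit 36825214) (nat_lit 18227685) [(nat_lit 0), (nat_lit 0), (nat_lit 3013978), (nat_lit 0)]) (PF.cons PF.nil PF.nil)) (PF.cons PF.nil PF.nil)) (PF.cons PF.nil PF.nil)))))) (PF.cons (PF.cons (PF.cons (PF.cons (PF.leaf (nat_lit 4865674) (nat_lit 7437190) (nat_lit 40359271) (nat_lit 19312351) [(nat_lit 0), (nat_lit 0), (nat_lit 0), (nat_lit 7437190)]) (PF.cons (PF.leaf (nat_lit 5029036) (nat_lit 270685) (nat_lit 40152146) (nat_lit 19250940) [(nat_lit 270685), (nat_lit 0), (nat_lit 0), (nat_lit 7435040)]) (PF.cons (PF.leaf (nat_lit 5208316) (nat_lit 282707) (nat_lit 39927600) (nat_lit 19183821) [(nat_lit 282707),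 (nat_lit 0), (nat_lit 0), (nat_lit 7431975)]) (PF.cons (PF.leaf (nat_lit 5399561) (nat_lit 293295) (nat_lit 39689094) (nat_lit 19111918) [(nat_lit 293295), (nat_lit 0), (nat_lit 0), (nat_lit 7427912)]) (PF.cons (PF.leaf
 (nat_lit 5600898) (nat_lit 302750) (nat_lit 39439127) (nat_lit 19035891) [(nat_lit 302750), (nat_lit 0), (nat_lit 0), (nat_lit 7422791)]) (PF.cons (PF.leaf (nat_lit 5810897) (nat_lit 311275) (nat_lit 39179619) (nat_lit 18956242) [(nat_lit 311275), (nat_lit 0), (nat_lit 0), (nat_lit 7416571)]) (PF.cons (PF.leaf (nat_lit 6028417) (nat_lit 319018) (nat_lit 38912106) (nat_lit 18873376) [(nat_lit 319018), (nat_lit 0), (nat_lit 0), (nat_lit 7409222)]) (PF.cons PF.nil (PF.cons PF.nil PF.nil))))))))) (PF.cons (PF.cons (PF.leaf (nat_lit 5393526) (nat_lit 1196402) (nat_lit 39454884) (nat_lit 19038685) [(nat_lit 0), (nat_lit 1196402), (nat_lit 0), (nat_lit 7418840)]) (PF.cons (PF.leaf (nat_lit 5579706) (nat_lit 297835) (nat_lit 39220558) (nat_lit 18966830)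 [(nat_lit 297835), (nat_lit 1210220), (nat_lit 0), (nat_lit 7413368)]) (PF.cons (PF.leaf (nat_lit 5777821) (nat_lit 307026) (nat_lit 38973979) (nat_lit 18890579) [(nat_lit 307026), (nat_lit 1223383), (nat_lit 0), (nat_lit 7406817)]) (PF.cons (PF.leaf (nat_lit 5985063) (nat_lit 315265) (nat_lit 38717467) (nat_lit 18810566) [(nat_lit 315265), (nat_lit 1235814), (nat_lit 0), (nat_lit 7399166)]) (PF.cons (PF.leaf (nat_lit 6200097) (nat_lit
 322717) (nat_lit 38452783) (nat_lit 18727272) [(nat_lit 322717), (nat_lit 1247485), (nat_lit 0), (nat_lit 7390400)]) (PF.cons PF.nil (PF.cons PF.nil PF.nil))))))) (PF.cons (PF.cons (PF.leaf (nat_lit 5956290) (nat_lit 1235783) (nat_lit 38506726) (nat_lit 18742305) [(nat_lit 0), (nat_lit 1235783), (nat_lit 0), (nat_lit 7388214)]) (PF.cons (PF.leaf (nat_lit 6159017) (nat_lit 318592) (nat_lit 38254655) (nat_lit 18662435) [(nat_lit 318592), (nat_lit 1246921), (nat_lit 0), (nat_lit 7379287)]) (PF.cons (PF.leaf (nat_lit 6370984) (nat_lit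 325841) (nat_lit 37993915) (nat_lit 18579118) [(nat_lit 325841), (nat_lit 1257424), (nat_lit 0), (nat_lit 7369246)]) (PF.cons (PF.leaf (nat_lit 6589995) (nat_lit 332405) (nat_lit 37726140) (nat_lit 18492817) [(nat_lit 332405), (nat_lit 1267269), (nat_lit 0), (nat_lit 7358099)]) (PF.cons PF.nil PF.nil))))) (PF.cons (PF.cons (PF.leaf (nat_lit 6542545) (nat_lit 1266158) (nat_lit 37535511) (nat_lit 18428958) [(nat_lit 0), (nat_lit 1266158), (nat_lit 0), (nat_lit 7345866)]) (PF.cons (PF.leaf (nat_lit 6757392) (nat_lit 334821) (nat_lit 37272391) (nat_lit 18342924) [(nat_lit 334821), (nat_lit 1275025), (nat_lit 0), (nat_lit 7333600)]) (PF.cons PF.nil (PF.cons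
 PF.nil PF.nil)))) (PF.cons (PF.cons (PF.leaf (nat_lit 7143902) (nat_lit 1289214) (nat_lit 36555979) (nat_lit 18103182) [(nat_lit 0), (nat_lit 1289214), (nat_lit 0), (nat_lit 7292793)]) (PF.cons PF.nil PF.nil)) (PF.cons PF.nil PF.nil)))))) (PF.cons (PF.cons (PF.cons (PF.leaf (nat_lit 5859982) (nat_lit 2923442) (nat_lit 38192407) (nat_lit 18633429) [(nat_lit 0), (nat_lit 0), (nat_lit 2923442), (nat_lit 7359532)]) (PF.cons (PF.leaf (nat_lit 6048485) (nat_lit 306534) (nat_lit 37960240) (nat_lit 18559240) [(nat_lit 306534), (nat_lit 0), (nat_lit 2931889), (nat_lit 7350908)]) (PF.cons (PF.leaf (nat_lit 6248352) (nat_lit 315105) (nat_lit 37716731) (nat_lit 18480822) [(nat_lit 315105), (nat_lit 0), (nat_lit 2939887), (nat_lit 7341159)]) (PF.cons (PF.leaf (nat_lit 6456776) (nat_lit 322723) (nat_lit 37464172) (nat_lit 18398842) [(nat_lit 322723), (nat_lit 0), (nat_lit 2947320), (nat_lit 7330306)]) (PF.cons (PF.leaf (nat_lit 6672426) (nat_lit 329562) (nat_lit 37204282)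 (nat_lit 18313797) [(nat_lit 329562), (nat_lit 0), (nat_lit 2954114), (nat_lit 7318366)]) PF.nil))))) (PF.cons (PF.cons (PF.leaf (nat_lit 6421776) (nat_lit 1252231) (nat_lit 37261886) (nat_lit 18330782) [(nat_lit 0), (nat_lit
 1252231), (nat_lit 2946593), (nat_lit 7317318)]) (PF.cons (PF.leaf (nat_lit 6625362) (nat_lit 325154) (nat_lit 37014514) (nat_lit 18249343) [(nat_lit 325154), (nat_lit 1261599), (nat_lit 2952739), (nat_lit 7305462)]) (PF.cons (PF.leaf (nat_lit 6837626) (nat_lit 331852) (nat_lit 36759248) (nat_lit 18164653) [(nat_lit 331852), (nat_lit 1270375), (nat_lit 2958318), (nat_lit 7292512)]) (PF.cons PF.nil PF.nil)))) (PF.cons (PF.cons (PF.leaf (nat_lit 7003490) (nat_lit 1276722) (nat_lit 36315565) (nat_lit 18014010) [(nat_lit 0), (nat_lit 1276722), (nat_lit 2960997), (nat_lit 7264794)]) (PF.cons (PF.leaf (nat_lit 7217925) (nat_lit 339572) (nat_lit 36059142) (nat_lit 17927142) [(nat_lit 339572), (nat_lit 1284070), (nat_lit 2964899), (nat_lit 7249915)])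 PF.nil)) (PF.cons PF.nil (PF.cons PF.nil PF.nil))))) (PF.cons (PF.cons (PF.cons (PF.leaf (nat_lit 6875166) (nat_lit 2945927) (nat_lit 36061380) (nat_lit 17919811) [(nat_lit 0), (nat_lit 0), (nat_lit 2945927), (nat_lit 7235765)]) (PF.cons (PF.leaf (nat_lit 7078822) (nat_lit 330155) (nat_lit 35819870) (nat_lit 17837519) [(nat_lit 330155), (nat_lit 0), (nat_lit 2949886), (nat_lit 7221494)]) (PF.cons (PF.leaf (nat_lit 7290693) (nat_lit 336363)
 (nat_lit 35571148) (nat_lit 17752167) [(nat_lit 336363), (nat_lit 0), (nat_lit 2953306), (nat_lit 7206158)]) (PF.cons PF.nil PF.nil)))) (PF.cons (PF.cons (PF.leaf (nat_lit 7450862) (nat_lit 1282750) (nat_lit 35143221) (nat_lit 17602107) [(nat_lit 0), (nat_lit 1282750), (nat_lit 2952859), (nat_lit 7175014)]) (PF.cons PF.nil PF.nil)) (PF.cons PF.nil PF.nil))) (PF.cons (PF.cons (PF.cons (PF.leaf (nat_lit 7884709) (nat_lit 2938524) (nat_lit 34019212) (nat_lit 17195428) [(nat_lit 0), (nat_lit 0), (nat_lit 2938524), (nat_lit 7078598)])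 (PF.cons PF.nil PF.nil)) (PF.cons PF.nil PF.nil)) (PF.cons PF.nil PF.nil))))) (PF.cons (PF.cons (PF.cons (PF.cons (PF.leaf (nat_lit 6560333) (nat_lit 7112943) (nat_lit 35278762) (nat_lit 17604162) [(nat_lit 0), (nat_lit 0), (nat_lit 0), (nat_lit 7112943)]) (PF.cons (PF.leaf (nat_lit 6744312) (nat_lit 306007) (nat_lit 35069045) (nat_lit 17531958) [(nat_lit 306007), (nat_lit 0), (nat_lit 0), (nat_lit 7100900)]) (PF.cons (PF.leaf (nat_lit 6938999) (nat_lit 314026) (nat_lit 34849416) (nat_lit 17455867) [(nat_lit 314026), (nat_lit 0), (nat_lit 0), (nat_lit 7087738)]) (PF.cons (PF.leaf (nat_lit 7141601) (nat_lit 321082) (nat_lit 34621952) (nat_lit 17376555)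
 [(nat_lit 321082), (nat_lit 0), (nat_lit 0), (nat_lit 7073528)]) (PF.cons PF.nil PF.nil))))) (PF.cons (PF.cons (PF.leaf (nat_lit 7101242) (nat_lit 1237342) (nat_lit 34442424) (nat_lit 17311891) [(nat_lit 0), (nat_lit 1237342), (nat_lit 0), (nat_lit 7058577)]) (PF.cons (PF.leaf (nat_lit 7298812) (nat_lit 322724) (nat_lit 34220058) (nat_lit 17233475) [(nat_lit 322724), (nat_lit 1245052), (nat_lit 0), (nat_lit 7043750)]) (PF.cons (PF.leaf (nat_lit 7504471) (nat_lit 328894) (nat_lit 33990868) (nat_lit 17152145) [(nat_lit 328894), (nat_lit 1252185), (nat_lit 0), (nat_lit 7027911)]) (PF.cons PF.nil PF.nil)))) (PF.cons (PF.cons (PF.leaf (nat_lit 7658849) (nat_lit 1256186) (nat_lit 33595228) (nat_lit 17008890) [(nat_lit 0), (nat_lit 1256186), (nat_lit 0), (nat_lit 6996160)]) (PF.cons PF.nil PF.nil)) PF.nil))) (PF.cons (PF.cons (PF.cons (PF.leaf (nat_lit 7525362) (nat_lit 2875658) (nat_lit 33375668) (nat_lit 16922729) [(nat_lit 0), (nat_lit 0), (nat_lit 2875658), (nat_lit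 6967377)]) (PF.cons (PF.leaf (nat_lit 7722435) (nat_lit 326172) (nat_lit 33159205) (nat_lit 16844270) [(nat_lit 326172), (nat_lit 0), (nat_lit 2877349), (nat_lit 6950907)]) (PF.cons PF.nil PF.nil))) (PF.cons (PF.cons
 (PF.leaf (nat_lit 8076368) (nat_lit 1257618) (nat_lit 32555593) (nat_lit 16621539) [(nat_lit 0), (nat_lit 1257618), (nat_lit 2874922), (nat_lit 6899569)]) PF.nil) PF.nil)) (PF.cons PF.nil PF.nil))) (PF.cons (PF.cons (PF.cons (PF.cons (PF.leaf (nat_lit 8119839) (nat_lit 6697971) (nat_lit 31014113) (nat_lit 16000783) [(nat_lit 0), (nat_lit 0), (nat_lit 0), (nat_lit 6697971)]) (PF.cons (PF.leaf (nat_lit 8310433) (nat_lit 320726) (nat_lit 30819969) (nat_lit 15926841) [(nat_lit 320726), (nat_lit 0), (nat_lit 0), (nat_lit 6680425)]) PF.nil)) (PF.cons PF.nil PF.nil)) (PF.cons PF.nil PF.nil)) (PF.cons PF.nil (PF.cons PF.nil (PF.cons PF.nil (PF.cons PF.nil PF.nil))))))))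

def p15_14_3_0 : pfC (piC [(nat_lit 41997052), (nat_lit 26592602), (nat_lit 19805017), (nat_lit 13318063)] (nat_lit 4732089)) p15_14_3 (nat_lit 4) (nat_lit 0) (nat_lit 1) = true := by decide +kernel
def p15_14_3_1 : pfC (piC [(nat_lit 41997052), (nat_lit 26592602), (nat_lit 19805017), (nat_lit 13318063)] (nat_lit 4732089)) p15_14_3 (nat_lit 4) (nat_lit 1) (nat_lit 2) = true := by decide +kernel
def p15_14_3_2 : pfC (piC [(nat_lit 41997052), (nat_lit 26592602), (nat_lit 19805017), (nat_lit 13318063)] (nat_lit 4732089)) p15_14_3 (nat_lit 4) (nat_lit 2) (nat_lit 3) = true := by decide +kernel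
def p15_14_3_3 : pfC (piC [(nat_lit 41997052), (nat_lit 26592602), (nat_lit 19805017), (nat_lit 13318063)] (nat_lit 4732089)) p15_14_3 (nat_lit 4) (nat_lit 3) (nat_lit 4) = true := by decide +kernel
def p15_14_3_4 : pfC (piC [(nat_lit 41997052), (nat_lit 26592602), (nat_lit 19805017), (nat_lit 13318063)] (nat_lit 4732089)) p15_14_3 (nat_lit 4) (nat_lit 4) (nat_lit 5) = true := by decide +kernel
def p15_14_3_5 : pfC (piC [(nat_lit 41997052), (nat_lit 26592602), (nat_lit 19805017), (nat_lit 13318063)] (nat_lit 4732089)) p15_14_3 (nat_lit 4) (nat_lit 5) (nat_lit 6) = true := by decide +kernel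
def p15_14_3_6 : pfC (piC [(nat_lit 41997052), (nat_lit 26592602), (nat_lit 19805017), (nat_lit 13318063)] (nat_lit 4732089)) p15_14_3 (nat_lit 4) (nat_lit 6) (nat_lit 7) = true := by decide +kernel
def p15_14_3_7 : pfC (piC [(nat_lit 41997052), (nat_lit 26592602), (nat_lit 19805017), (nat_lit 13318063)] (nat_lit 4732089)) p15_14_3 (nat_lit 4) (nat_lit 7) (nat_lit 8) = true := by decide +kernel
def p15_14_3_8 : pfC (piC [(nat_lit 41997052), (nat_lit 26592602), (nat_lit 19805017), (nat_lit 13318063)] (nat_lit 4732089)) p15_14_3 (nat_lit 4) (nat_lit 8) (nat_lit 9) = true := by decide +kernel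
def p15_14_3_9 : pfC (piC [(nat_lit 41997052), (nat_lit 26592602), (nat_lit 19805017), (nat_lit 13318063)] (nat_lit 4732089)) p15_14_3 (nat_lit 4) (nat_lit 9) (nat_lit 10) = true := by decide +kernel
def p15_14_3_10 : pfC (piC [(nat_lit 41997052), (nat_lit 26592602), (nat_lit 19805017), (nat_lit 13318063)] (nat_lit 4732089)) p15_14_3 (nat_lit 4) (nat_lit 10) (nat_lit 11) = true := by decide +kernel
def p15_14_3_11 : pfC (piC [(nat_lit 41997052), (nat_lit 26592602), (nat_lit 19805017), (nat_lit 13318063)] (nat_lit 4732089)) p15_14_3 (nat_lit 4) (nat_lit 11) (nat_lit 12) = true := by decide +kernel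
def p15_14_3_12 : pfC (piC [(nat_lit 41997052), (nat_lit 26592602), (nat_lit 19805017), (nat_lit 13318063)] (nat_lit 4732089)) p15_14_3 (nat_lit 4) (nat_lit 12) (nat_lit 13) = true := by decide +kernel
def p15_14_3_13 : pfC (piC [(nat_lit 41997052), (nat_lit 26592602), (nat_lit 19805017), (nat_lit 13318063)] (nat_lit 4732089)) p15_14_3 (nat_lit 4) (nat_lit 13) (nat_lit 14) = true := by decide +kernel
def p15_14_3_14 : pfC (piC [(nat_lit 41997052), (nat_lit 26592602), (nat_lit 19805017), (nat_lit 13318063)] (nat_lit 4732089)) p15_14_3 (nat_lit 4) (nat_lit 14) (nat_lit 15) = true := by decide +kernel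
def p15_14_3_15 : pfC (piC [(nat_lit 41997052), (nat_lit 26592602), (nat_lit 19805017), (nat_lit 13318063)] (nat_lit 4732089)) p15_14_3 (nat_lit 4) (nat_lit 15) (nat_lit 16) = true := by decide +kernel
def p15_14_3_16 : pfC (piC [(nat_lit 41997052), (nat_lit 26592602), (nat_lit 19805017), (nat_lit 13318063)] (nat_lit 4732089)) p15_14_3 (nat_lit 4) (nat_lit 16) (nat_lit 17) = true := by decide +kernel
def p15_14_3_17 : pfC (piC [(nat_lit 41997052), (nat_lit 26592602), (nat_lit 19805017), (nat_lit 13318063)] (nat_lit 4732089)) p15_14_3 (nat_lit 4) (nat_lit 17) (nat_lit 18) = true := by decide +kernel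
def p15_14_3_18 : pfC (piC [(nat_lit 41997052), (nat_lit 26592602), (nat_lit 19805017), (nat_lit 13318063)] (nat_lit 4732089)) p15_14_3 (nat_lit 4) (nat_lit 18) (nat_lit 19) = true := by decide +kernel
def p15_14_3_19 : pfC (piC [(nat_lit 41997052), (nat_lit 26592602), (nat_lit 19805017), (nat_lit 13318063)] (nat_lit 4732089)) p15_14_3 (nat_lit 4) (nat_lit 19) (nat_lit 20) = true := by decide +kernel
def p15_14_3_20 : pfC (piC [(nat_lit 41997052), (nat_lit 26592602), (nat_lit 19805017), (nat_lit 13318063)] (nat_lit 4732089)) p15_14_3 (nat_lit 4) (nat_lit 20) (nat_lit 21) = true := by decide +kernel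
def p15_14_3_21 : pfC (piC [(nat_lit 41997052), (nat_lit 26592602), (nat_lit 19805017), (nat_lit 13318063)] (nat_lit 4732089)) p15_14_3 (nat_lit 4) (nat_lit 21) (nat_lit 22) = true := by decide +kernel
def p15_14_3_22 : pfC (piC [(nat_lit 41997052), (nat_lit 26592602), (nat_lit 19805017), (nat_lit 13318063)] (nat_lit 4732089)) p15_14_3 (nat_lit 4) (nat_lit 22) (nat_lit 23) = true := by decide +kernel
def p15_14_3_23 : pfC (piC [(nat_lit 41997052), (nat_lit 26592602), (nat_lit 19805017), (nat_lit 13318063)] (nat_lit 4732089)) p15_14_3 (nat_lit 4) (nat_lit 23) (nat_lit 24) = true := by decide +kernel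
def p15_14_3_24 : pfC (piC [(nat_lit 41997052), (nat_lit 26592602), (nat_lit 19805017), (nat_lit 13318063)] (nat_lit 4732089)) p15_14_3 (nat_lit 4) (nat_lit 24) (nat_lit 25) = true := by decide +kernel
def p15_14_3_25 : pfC (piC [(nat_lit 41997052), (nat_lit 26592602), (nat_lit 19805017), (nat_lit 13318063)] (nat_lit 4732089)) p15_14_3 (nat_lit 4) (nat_lit 25) (nat_lit 26) = true := by decide +kernel
def p15_14_3_26 : pfC (piC [(nat_lit 41997052), (nat_lit 26592602), (nat_lit 19805017), (nat_lit 13318063)] (nat_lit 4732089)) p15_14_3 (nat_lit 4) (nat_lit 26) (nat_lit 27) = true := by decide +kernel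
def p15_14_3_27 : pfC (piC [(nat_lit 41997052), (nat_lit 26592602), (nat_lit 19805017), (nat_lit 13318063)] (nat_lit 4732089)) p15_14_3 (nat_lit 4) (nat_lit 27) (nat_lit 28) = true := by decide +kernel
def p15_14_3_28 : pfC (piC [(nat_lit 41997052), (nat_lit 26592602), (nat_lit 19805017), (nat_lit 13318063)] (nat_lit 4732089)) p15_14_3 (nat_lit 4) (nat_lit 28) (nat_lit 29) = true := by decide +kernel
def p15_14_3_29 : pfC (piC [(nat_lit 41997052), (nat_lit 26592602), (nat_lit 19805017), (nat_lit 13318063)] (nat_lit 4732089)) p15_14_3 (nat_lit 4) (nat_lit 29) (nat_lit 30) = true := by decide +kernel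
def p15_14_3_30 : pfC (piC [(nat_lit 41997052), (nat_lit 26592602), (nat_lit 19805017), (nat_lit 13318063)] (nat_lit 4732089)) p15_14_3 (nat_lit 4) (nat_lit 30) (nat_lit 31) = true := by decide +kernel
def p15_14_3_31 : pfC (piC [(nat_lit 41997052), (nat_lit 26592602), (nat_lit 19805017), (nat_lit 13318063)] (nat_lit 4732089)) p15_14_3 (nat_lit 4) (nat_lit 31) (nat_lit 32) = true := by decide +kernel
def p15_14_3_32 : pfC (piC [(nat_lit 41997052), (nat_lit 26592602), (nat_lit 19805017), (nat_lit 13318063)] (nat_lit 4732089)) p15_14_3 (nat_lit 4) (nat_lit 32) (nat_lit 33) = true := by decide +kernel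
def p15_14_3_33 : pfC (piC [(nat_lit 41997052), (nat_lit 26592602), (nat_lit 19805017), (nat_lit 13318063)] (nat_lit 4732089)) p15_14_3 (nat_lit 4) (nat_lit 33) (nat_lit 34) = true := by decide +kernel
def p15_14_3_34 : pfC (piC [(nat_lit 41997052), (nat_lit 26592602), (nat_lit 19805017), (nat_lit 13318063)] (nat_lit 4732089)) p15_14_3 (nat_lit 4) (nat_lit 34) (nat_lit 35) = true := by decide +kernel
def p15_14_3_35 : pfC (piC [(nat_lit 41997052), (nat_lit 26592602), (nat_lit 19805017), (nat_lit 13318063)] (nat_lit 4732089)) p15_14_3 (nat_lit 4) (nat_lit 35) (nat_lit 36) = true := by decide +kernel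
def p15_14_3_36 : pfC (piC [(nat_lit 41997052), (nat_lit 26592602), (nat_lit 19805017), (nat_lit 13318063)] (nat_lit 4732089)) p15_14_3 (nat_lit 4) (nat_lit 36) (nat_lit 37) = true := by decide +kernel
def p15_14_3_37 : pfC (piC [(nat_lit 41997052), (nat_lit 26592602), (nat_lit 19805017), (nat_lit 13318063)] (nat_lit 4732089)) p15_14_3 (nat_lit 4) (nat_lit 37) (nat_lit 38) = true := by decide +kernel
def p15_14_3_38 : pfC (piC [(nat_lit 41997052), (nat_lit 26592602), (nat_lit 19805017), (nat_lit 13318063)] (nat_lit 4732089)) p15_14_3 (nat_lit 4) (nat_lit 38) (nat_lit 39) = true := by decide +kernel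
def p15_14_3_39 : pfC (piC [(nat_lit 41997052), (nat_lit 26592602), (nat_lit 19805017), (nat_lit 13318063)] (nat_lit 4732089)) p15_14_3 (nat_lit 4) (nat_lit 39) (nat_lit 40) = true := by decide +kernel
def p15_14_3_40 : pfC (piC [(nat_lit 41997052), (nat_lit 26592602), (nat_lit 19805017), (nat_lit 13318063)] (nat_lit 4732089)) p15_14_3 (nat_lit 4) (nat_lit 40) (nat_lit 41) = true := by decide +kernel
def p15_14_3_41 : pfC (piC [(nat_lit 41997052), (nat_lit 26592602), (nat_lit 19805017), (nat_lit 13318063)] (nat_lit 4732089)) p15_14_3 (nat_lit 4) (nat_lit 41) (nat_lit 42) = true := by decide +kernel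
def p15_14_3_42 : pfC (piC [(nat_lit 41997052), (nat_lit 26592602), (nat_lit 19805017), (nat_lit 13318063)] (nat_lit 4732089)) p15_14_3 (nat_lit 4) (nat_lit 42) (nat_lit 43) = true := by decide +kernel
def p15_14_3_43 : pfC (piC [(nat_lit 41997052), (nat_lit 26592602), (nat_lit 19805017), (nat_lit 13318063)] (nat_lit 4732089)) p15_14_3 (nat_lit 4) (nat_lit 43) (nat_lit 44) = true := by decide +kernel
def p15_14_3_44 : pfC (piC [(nat_lit 41997052), (nat_lit 26592602), (nat_lit 19805017), (nat_lit 13318063)] (nat_lit 4732089)) p15_14_3 (nat_lit 4) (nat_lit 44) (nat_lit 45) = true := by decide +kernel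
def p15_14_3_45 : pfC (piC [(nat_lit 41997052), (nat_lit 26592602), (nat_lit 19805017), (nat_lit 13318063)] (nat_lit 4732089)) p15_14_3 (nat_lit 4) (nat_lit 45) (nat_lit 46) = true := by decide +kernel
def p15_14_3_46 : pfC (piC [(nat_lit 41997052), (nat_lit 26592602), (nat_lit 19805017), (nat_lit 13318063)] (nat_lit 4732089)) p15_14_3 (nat_lit 4) (nat_lit 46) (nat_lit 47) = true := by decide +kernel
def p15_14_3_47 : pfC (piC [(nat_lit 41997052), (nat_lit 26592602), (nat_lit 19805017), (nat_lit 13318063)] (nat_lit 4732089)) p15_14_3 (nat_lit 4) (nat_lit 47) (nat_lit 48) = true := by decide +kernel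
def p15_14_3_48 : pfC (piC [(nat_lit 41997052), (nat_lit 26592602), (nat_lit 19805017), (nat_lit 13318063)] (nat_lit 4732089)) p15_14_3 (nat_lit 4) (nat_lit 48) (nat_lit 49) = true := by decide +kernel
def p15_14_3_49 : pfC (piC [(nat_lit 41997052), (nat_lit 26592602), (nat_lit 19805017), (nat_lit 13318063)] (nat_lit 4732089)) p15_14_3 (nat_lit 4) (nat_lit 49) (nat_lit 50) = true := by decide +kernel
def p15_14_3_50 : pfC (piC [(nat_lit 41997052), (nat_lit 26592602), (nat_lit 19805017), (nat_lit 13318063)] (nat_lit 4732089)) p15_14_3 (nat_lit 4) (nat_lit 50) (nat_lit 51) = true := by decide +kernel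
def p15_14_3_51 : pfC (piC [(nat_lit 41997052), (nat_lit 26592602), (nat_lit 19805017), (nat_lit 13318063)] (nat_lit 4732089)) p15_14_3 (nat_lit 4) (nat_lit 51) (nat_lit 52) = true := by decide +kernel
def p15_14_3_52 : pfC (piC [(nat_lit 41997052), (nat_lit 26592602), (nat_lit 19805017), (nat_lit 13318063)] (nat_lit 4732089)) p15_14_3 (nat_lit 4) (nat_lit 52) (nat_lit 53) = true := by decide +kernel
def p15_14_3_53 : pfC (piC [(nat_lit 41997052), (nat_lit 26592602), (nat_lit 19805017), (nat_lit 13318063)] (nat_lit 4732089)) p15_14_3 (nat_lit 4) (nat_lit 53) (nat_lit 54) = true := by decide +kernel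
def p15_14_3_54 : pfC (piC [(nat_lit 41997052), (nat_lit 26592602), (nat_lit 19805017), (nat_lit 13318063)] (nat_lit 4732089)) p15_14_3 (nat_lit 4) (nat_lit 54) (nat_lit 55) = true := by decide +kernel
def p15_14_3_55 : pfC (piC [(nat_lit 41997052), (nat_lit 26592602), (nat_lit 19805017), (nat_lit 13318063)] (nat_lit 4732089)) p15_14_3 (nat_lit 4) (nat_lit 55) (nat_lit 56) = true := by decide +kernel
def p15_14_3_56 : pfC (piC [(nat_lit 41997052), (nat_lit 26592602), (nat_lit 19805017), (nat_lit 13318063)] (nat_lit 4732089)) p15_14_3 (nat_lit 4) (nat_lit 56) (nat_lit 57) = true := by decide +kernel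
def p15_14_3_57 : pfC (piC [(nat_lit 41997052), (nat_lit 26592602), (nat_lit 19805017), (nat_lit 13318063)] (nat_lit 4732089)) p15_14_3 (nat_lit 4) (nat_lit 57) (nat_lit 58) = true := by decide +kernel
def p15_14_3_58 : pfC (piC [(nat_lit 41997052), (nat_lit 26592602), (nat_lit 19805017), (nat_lit 13318063)] (nat_lit 4732089)) p15_14_3 (nat_lit 4) (nat_lit 58) (nat_lit 59) = true := by decide +kernel
def p15_14_3_59 : pfC (piC [(nat_lit 41997052), (nat_lit 26592602), (nat_lit 19805017), (nat_lit 13318063)] (nat_lit 4732089)) p15_14_3 (nat_lit 4) (nat_lit 59) (nat_lit 60) = true := by decide +kernel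
def p15_14_3_60 : pfC (piC [(nat_lit 41997052), (nat_lit 26592602), (nat_lit 19805017), (nat_lit 13318063)] (nat_lit 4732089)) p15_14_3 (nat_lit 4) (nat_lit 60) (nat_lit 61) = true := by decide +kernel
def p15_14_3_61 : pfC (piC [(nat_lit 41997052), (nat_lit 26592602), (nat_lit 19805017), (nat_lit 13318063)] (nat_lit 4732089)) p15_14_3 (nat_lit 4) (nat_lit 61) (nat_lit 62) = true := by decide +kernel
def p15_14_3_62 : pfC (piC [(nat_lit 41997052), (nat_lit 26592602), (nat_lit 19805017), (nat_lit 13318063)] (nat_lit 4732089)) p15_14_3 (nat_lit 4) (nat_lit 62) (nat_lit 63) = true := by decide +kernel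
def p15_14_3_63 : pfC (piC [(nat_lit 41997052), (nat_lit 26592602), (nat_lit 19805017), (nat_lit 13318063)] (nat_lit 4732089)) p15_14_3 (nat_lit 4) (nat_lit 63) (nat_lit 64) = true := by decide +kernel
def p15_14_3_64 : pfC (piC [(nat_lit 41997052), (nat_lit 26592602), (nat_lit 19805017), (nat_lit 13318063)] (nat_lit 4732089)) p15_14_3 (nat_lit 4) (nat_lit 64) (nat_lit 65) = true := by decide +kernel
def p15_14_3_65 : pfC (piC [(nat_lit 41997052), (nat_lit 26592602), (nat_lit 19805017), (nat_lit 13318063)] (nat_lit 4732089)) p15_14_3 (nat_lit 4) (nat_lit 65) (nat_lit 66) = true := by decide +kernel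
def p15_14_3_66 : pfC (piC [(nat_lit 41997052), (nat_lit 26592602), (nat_lit 19805017), (nat_lit 13318063)] (nat_lit 4732089)) p15_14_3 (nat_lit 4) (nat_lit 66) (nat_lit 67) = true := by decide +kernel
def p15_14_3_67 : pfC (piC [(nat_lit 41997052), (nat_lit 26592602), (nat_lit 19805017), (nat_lit 13318063)] (nat_lit 4732089)) p15_14_3 (nat_lit 4) (nat_lit 67) (nat_lit 68) = true := by decide +kernel
def p15_14_3_68 : pfC (piC [(nat_lit 41997052), (nat_lit 26592602), (nat_lit 19805017), (nat_lit 13318063)] (nat_lit 4732089)) p15_14_3 (nat_lit 4) (nat_lit 68) (nat_lit 69) = true := by decide +kernel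
def p15_14_3_69 : pfC (piC [(nat_lit 41997052), (nat_lit 26592602), (nat_lit 19805017), (nat_lit 13318063)] (nat_lit 4732089)) p15_14_3 (nat_lit 4) (nat_lit 69) (nat_lit 70) = true := by decide +kernel
def p15_14_3_70 : pfC (piC [(nat_lit 41997052), (nat_lit 26592602), (nat_lit 19805017), (nat_lit 13318063)] (nat_lit 4732089)) p15_14_3 (nat_lit 4) (nat_lit 70) (nat_lit 71) = true := by decide +kernel
def p15_14_3_71 : pfC (piC [(nat_lit 41997052), (nat_lit 26592602), (nat_lit 19805017), (nat_lit 13318063)] (nat_lit 4732089)) p15_14_3 (nat_lit 4) (nat_lit 71) (nat_lit 72) = true := by decide +kernel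
def p15_14_3_72 : pfC (piC [(nat_lit 41997052), (nat_lit 26592602), (nat_lit 19805017), (nat_lit 13318063)] (nat_lit 4732089)) p15_14_3 (nat_lit 4) (nat_lit 72) (nat_lit 73) = true := by decide +kernel
def p15_14_3_73 : pfC (piC [(nat_lit 41997052), (nat_lit 26592602), (nat_lit 19805017), (nat_lit 13318063)] (nat_lit 4732089)) p15_14_3 (nat_lit 4) (nat_lit 73) (nat_lit 74) = true := by decide +kernel
def p15_14_3_74 : pfC (piC [(nat_lit 41997052), (nat_lit 26592602), (nat_lit 19805017), (nat_lit 13318063)] (nat_lit 4732089)) p15_14_3 (nat_lit 4) (nat_lit 74) (nat_lit 75) = true := by decide +kernel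
def p15_14_3_75 : pfC (piC [(nat_lit 41997052), (nat_lit 26592602), (nat_lit 19805017), (nat_lit 13318063)] (nat_lit 4732089)) p15_14_3 (nat_lit 4) (nat_lit 75) (nat_lit 76) = true := by decide +kernel
def p15_14_3_76 : pfC (piC [(nat_lit 41997052), (nat_lit 26592602), (nat_lit 19805017), (nat_lit 13318063)] (nat_lit 4732089)) p15_14_3 (nat_lit 4) (nat_lit 76) (nat_lit 77) = true := by decide +kernel
def p15_14_3_77 : pfC (piC [(nat_lit 41997052), (nat_lit 26592602), (nat_lit 19805017), (nat_lit 13318063)] (nat_lit 4732089)) p15_14_3 (nat_lit 4) (nat_lit 77) (nat_lit 78) = true := by decide +kernel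
def p15_14_3_78 : pfC (piC [(nat_lit 41997052), (nat_lit 26592602), (nat_lit 19805017), (nat_lit 13318063)] (nat_lit 4732089)) p15_14_3 (nat_lit 4) (nat_lit 78) (nat_lit 79) = true := by decide +kernel
def p15_14_3_79 : pfC (piC [(nat_lit 41997052), (nat_lit 26592602), (nat_lit 19805017), (nat_lit 13318063)] (nat_lit 4732089)) p15_14_3 (nat_lit 4) (nat_lit 79) (nat_lit 80) = true := by decide +kernel
def p15_14_3_80 : pfC (piC [(nat_lit 41997052), (nat_lit 26592602), (nat_lit 19805017), (nat_lit 13318063)] (nat_lit 4732089)) p15_14_3 (nat_lit 4) (nat_lit 80) (nat_lit 81) = true := by decide +kernel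
def p15_14_3_81 : pfC (piC [(nat_lit 41997052), (nat_lit 26592602), (nat_lit 19805017), (nat_lit 13318063)] (nat_lit 4732089)) p15_14_3 (nat_lit 4) (nat_lit 81) (nat_lit 82) = true := by decide +kernel
def p15_14_3_82 : pfC (piC [(nat_lit 41997052), (nat_lit 26592602), (nat_lit 19805017), (nat_lit 13318063)] (nat_lit 4732089)) p15_14_3 (nat_lit 4) (nat_lit 82) (nat_lit 83) = true := by decide +kernel
def p15_14_3_83 : pfC (piC [(nat_lit 41997052), (nat_lit 26592602), (nat_lit 19805017), (nat_lit 13318063)] (nat_lit 4732089)) p15_14_3 (nat_lit 4) (nat_lit 83) (nat_lit 84) = true := by decide +kernel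
def p15_14_3_84 : pfC (piC [(nat_lit 41997052), (nat_lit 26592602), (nat_lit 19805017), (nat_lit 13318063)] (nat_lit 4732089)) p15_14_3 (nat_lit 4) (nat_lit 84) (nat_lit 85) = true := by decide +kernel
def p15_14_3_85 : pfC (piC [(nat_lit 41997052), (nat_lit 26592602), (nat_lit 19805017), (nat_lit 13318063)] (nat_lit 4732089)) p15_14_3 (nat_lit 4) (nat_lit 85) (nat_lit 86) = true := by decide +kernel
def p15_14_3_86 : pfC (piC [(nat_lit 41997052), (nat_lit 26592602), (nat_lit 19805017), (nat_lit 13318063)] (nat_lit 4732089)) p15_14_3 (nat_lit 4) (nat_lit 86) (nat_lit 87) = true := by decide +kernel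
def p15_14_3_87 : pfC (piC [(nat_lit 41997052), (nat_lit 26592602), (nat_lit 19805017), (nat_lit 13318063)] (nat_lit 4732089)) p15_14_3 (nat_lit 4) (nat_lit 87) (nat_lit 88) = true := by decide +kernel
def p15_14_3_88 : pfC (piC [(nat_lit 41997052), (nat_lit 26592602), (nat_lit 19805017), (nat_lit 13318063)] (nat_lit 4732089)) p15_14_3 (nat_lit 4) (nat_lit 88) (nat_lit 89) = true := by decide +kernel
def p15_14_3_89 : pfC (piC [(nat_lit 41997052), (nat_lit 26592602), (nat_lit 19805017), (nat_lit 13318063)] (nat_lit 4732089)) p15_14_3 (nat_lit 4) (nat_lit 89) (nat_lit 90) = true := by decide +kernel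
def p15_14_3_90 : pfC (piC [(nat_lit 41997052), (nat_lit 26592602), (nat_lit 19805017), (nat_lit 13318063)] (nat_lit 4732089)) p15_14_3 (nat_lit 4) (nat_lit 90) (nat_lit 91) = true := by decide +kernel
def p15_14_3_91 : pfC (piC [(nat_lit 41997052), (nat_lit 26592602), (nat_lit 19805017), (nat_lit 13318063)] (nat_lit 4732089)) p15_14_3 (nat_lit 4) (nat_lit 91) (nat_lit 92) = true := by decide +kernel
def p15_14_3_92 : pfC (piC [(nat_lit 41997052), (nat_lit 26592602), (nat_lit 19805017), (nat_lit 13318063)] (nat_lit 4732089)) p15_14_3 (nat_lit 4) (nat_lit 92) (nat_lit 93) = true := by decide +kernel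
def p15_14_3_93 : pfC (piC [(nat_lit 41997052), (nat_lit 26592602), (nat_lit 19805017), (nat_lit 13318063)] (nat_lit 4732089)) p15_14_3 (nat_lit 4) (nat_lit 93) (nat_lit 94) = true := by decide +kernel
def p15_14_3_94 : pfC (piC [(nat_lit 41997052), (nat_lit 26592602), (nat_lit 19805017), (nat_lit 13318063)] (nat_lit 4732089)) p15_14_3 (nat_lit 4) (nat_lit 94) (nat_lit 95) = true := by decide +kernel
def p15_14_3_95 : pfC (piC [(nat_lit 41997052), (nat_lit 26592602), (nat_lit 19805017), (nat_lit 13318063)] (nat_lit 4732089)) p15_14_3 (nat_lit 4) (nat_lit 95) (nat_lit 96) = true := by decide +kernel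
def p15_14_3_96 : pfC (piC [(nat_lit 41997052), (nat_lit 26592602), (nat_lit 19805017), (nat_lit 13318063)] (nat_lit 4732089)) p15_14_3 (nat_lit 4) (nat_lit 96) (nat_lit 97) = true := by decide +kernel
def p15_14_3_97 : pfC (piC [(nat_lit 41997052), (nat_lit 26592602), (nat_lit 19805017), (nat_lit 13318063)] (nat_lit 4732089)) p15_14_3 (nat_lit 4) (nat_lit 97) (nat_lit 98) = true := by decide +kernel
def p15_14_3_98 : pfC (piC [(nat_lit 41997052), (nat_lit 26592602), (nat_lit 19805017), (nat_lit 13318063)] (nat_lit 4732089)) p15_14_3 (nat_lit 4) (nat_lit 98) (nat_lit 99) = true := by decide +kernel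
def p15_14_3_99 : pfC (piC [(nat_lit 41997052), (nat_lit 26592602), (nat_lit 19805017), (nat_lit 13318063)] (nat_lit 4732089)) p15_14_3 (nat_lit 4) (nat_lit 99) (nat_lit 100) = true := by decide +kernel
def p15_14_3_100 : pfC (piC [(nat_lit 41997052), (nat_lit 26592602), (nat_lit 19805017), (nat_lit 13318063)] (nat_lit 4732089)) p15_14_3 (nat_lit 4) (nat_lit 100) (nat_lit 101) = true := by decide +kernel
def p15_14_3_101 : pfC (piC [(nat_lit 41997052), (nat_lit 26592602), (nat_lit 19805017), (nat_lit 13318063)] (nat_lit 4732089)) p15_14_3 (nat_lit 4) (nat_lit 101) (nat_lit 102) = true := by decide +kernel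
def p15_14_3_102 : pfC (piC [(nat_lit 41997052), (nat_lit 26592602), (nat_lit 19805017), (nat_lit 13318063)] (nat_lit 4732089)) p15_14_3 (nat_lit 4) (nat_lit 102) (nat_lit 103) = true := by decide +kernel
def p15_14_3_103 : pfC (piC [(nat_lit 41997052), (nat_lit 26592602), (nat_lit 19805017), (nat_lit 13318063)] (nat_lit 4732089)) p15_14_3 (nat_lit 4) (nat_lit 103) (nat_lit 104) = true := by decide +kernel
def p15_14_3_104 : pfC (piC [(nat_lit 41997052), (nat_lit 26592602), (nat_lit 19805017), (nat_lit 13318063)] (nat_lit 4732089)) p15_14_3 (nat_lit 4) (nat_lit 104) (nat_lit 105) = true := by decide +kernel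
def p15_14_3_105 : pfC (piC [(nat_lit 41997052), (nat_lit 26592602), (nat_lit 19805017), (nat_lit 13318063)] (nat_lit 4732089)) p15_14_3 (nat_lit 4) (nat_lit 105) (nat_lit 106) = true := by decide +kernel
def p15_14_3_106 : pfC (piC [(nat_lit 41997052), (nat_lit 26592602), (nat_lit 19805017), (nat_lit 13318063)] (nat_lit 4732089)) p15_14_3 (nat_lit 4) (nat_lit 106) (nat_lit 107) = true := by decide +kernel
def p15_14_3_107 : pfC (piC [(nat_lit 41997052), (nat_lit 26592602), (nat_lit 19805017), (nat_lit 13318063)] (nat_lit 4732089)) p15_14_3 (nat_lit 4) (nat_lit 107) (nat_lit 108) = true := by decide +kernel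
def p15_14_3_108 : pfC (piC [(nat_lit 41997052), (nat_lit 26592602), (nat_lit 19805017), (nat_lit 13318063)] (nat_lit 4732089)) p15_14_3 (nat_lit 4) (nat_lit 108) (nat_lit 109) = true := by decide +kernel
def p15_14_3_109 : pfC (piC [(nat_lit 41997052), (nat_lit 26592602), (nat_lit 19805017), (nat_lit 13318063)] (nat_lit 4732089)) p15_14_3 (nat_lit 4) (nat_lit 109) (nat_lit 110) = true := by decide +kernel
def p15_14_3_110 : pfC (piC [(nat_lit 41997052), (nat_lit 26592602), (nat_lit 19805017), (nat_lit 13318063)] (nat_lit 4732089)) p15_14_3 (nat_lit 4) (nat_lit 110) (nat_lit 111) = true := by decide +kernel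
def p15_14_3_111 : pfC (piC [(nat_lit 41997052), (nat_lit 26592602), (nat_lit 19805017), (nat_lit 13318063)] (nat_lit 4732089)) p15_14_3 (nat_lit 4) (nat_lit 111) (nat_lit 112) = true := by decide +kernel
def p15_14_3_112 : pfC (piC [(nat_lit 41997052), (nat_lit 26592602), (nat_lit 19805017), (nat_lit 13318063)] (nat_lit 4732089)) p15_14_3 (nat_lit 4) (nat_lit 112) (nat_lit 113) = true := by decide +kernel
theorem p15_14_3_T : PfS (PiF n15_14.reverse (nat_lit 4732089)) p15_14_3 (nat_lit 4) [] 0 :=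
  pftab_of (los := [(nat_lit 41997052), (nat_lit 26592602), (nat_lit 19805017), (nat_lit 13318063)]) (by decide +kernel) (hi := (nat_lit 113)) (PfP.trans (PfP.trans (PfP.trans (PfP.trans (PfP.trans (PfP.trans (PfP.trans (PfP.trans (PfP.trans (PfP.trans (PfP.trans (PfP.trans (PfP.trans (PfP.trans (PfP.trans (PfP.trans (PfP.trans (PfP.trans (PfP.trans (PfP.trans (PfP.trans (PfP.trans (PfP.trans (PfP.trans (PfP.trans (PfP.trans (PfP.trans (PfP.trans (PfP.trans (PfP.trans (PfP.trans (PfP.trans (PfP.trans (PfP.trans (PfP.trans (PfP.trans (PfP.trans (PfP.trans (PfP.trans (PfP.trans (PfP.trans (PfP.trans (PfP.trans (PfP.trans (PfP.trans (PfP.trans (PfP.trans (PfP.trans (PfP.trans (PfP.trans (PfP.trans (PfP.trans (PfP.trans (PfP.trans (PfP.trans (PfP.trans (PfP.trans (PfP.trans (PfP.trans (PfP.trans (PfP.trans (PfP.trans (PfP.trans (PfP.trans (PfP.trans (PfP.trans (PfP.trans (PfP.trans (PfP.trans (PfP.trans (PfP.trans (PfP.trans (PfP.trans (PfP.trans (PfP.trans (PfP.trans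 (PfP.trans (PfP.trans (PfP.trans (PfP.trans (PfP.trans (PfP.trans (PfP.trans (PfP.trans (PfP.trans (PfP.trans (PfP.trans (PfP.trans (PfP.trans (PfP.trans (PfP.trans (PfP.trans (PfP.trans (PfP.trans (PfP.trans (PfP.trans (PfP.trans (PfP.trans (PfP.trans (PfP.trans (PfP.trans (PfP.trans (PfP.trans (PfP.trans (PfP.trans (PfP.trans (PfP.trans (PfP.trans (PfP.trans
 (PfP.trans (PfP.trans (PfP.trans (pfC_sound p15_14_3_0) (pfC_sound p15_14_3_1)) (pfC_sound p15_14_3_2)) (pfC_sound p15_14_3_3)) (pfC_sound p15_14_3_4)) (pfC_sound p15_14_3_5)) (pfC_sound p15_14_3_6)) (pfC_sound p15_14_3_7)) (pfC_sound p15_14_3_8)) (pfC_sound p15_14_3_9)) (pfC_sound p15_14_3_10)) (pfC_sound p15_14_3_11)) (pfC_sound p15_14_3_12)) (pfC_sound p15_14_3_13)) (pfC_sound p15_14_3_14)) (pfC_sound p15_14_3_15)) (pfC_sound p15_14_3_16)) (pfC_sound p15_14_3_17)) (pfC_sound p15_14_3_18)) (pfC_sound p15_14_3_19)) (pfC_sound p15_14_3_20)) (pfC_sound p15_14_3_21)) (pfC_sound p15_14_3_22)) (pfC_sound p15_14_3_23))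 (pfC_sound p15_14_3_24)) (pfC_sound p15_14_3_25)) (pfC_sound p15_14_3_26)) (pfC_sound p15_14_3_27)) (pfC_sound p15_14_3_28)) (pfC_sound p15_14_3_29)) (pfC_sound p15_14_3_30)) (pfC_sound p15_14_3_31)) (pfC_sound p15_14_3_32)) (pfC_sound p15_14_3_33)) (pfC_sound p15_14_3_34)) (pfC_sound p15_14_3_35)) (pfC_sound p15_14_3_36)) (pfC_sound p15_14_3_37)) (pfC_sound p15_14_3_38)) (pfC_sound p15_14_3_39)) (pfC_sound p15_14_3_40)) (pfC_sound p15_14_3_41)) (pfC_sound p15_14_3_42)) (pfC_sound p15_14_3_43)) (pfC_sound p15_14_3_44)) (pfC_sound p15_14_3_45)) (pfC_sound p15_14_3_46))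
 (pfC_sound p15_14_3_47)) (pfC_sound p15_14_3_48)) (pfC_sound p15_14_3_49)) (pfC_sound p15_14_3_50)) (pfC_sound p15_14_3_51)) (pfC_sound p15_14_3_52)) (pfC_sound p15_14_3_53)) (pfC_sound p15_14_3_54)) (pfC_sound p15_14_3_55)) (pfC_sound p15_14_3_56)) (pfC_sound p15_14_3_57)) (pfC_sound p15_14_3_58)) (pfC_sound p15_14_3_59)) (pfC_sound p15_14_3_60)) (pfC_sound p15_14_3_61)) (pfC_sound p15_14_3_62)) (pfC_sound p15_14_3_63)) (pfC_sound p15_14_3_64)) (pfC_sound p15_14_3_65)) (pfC_sound p15_14_3_66)) (pfC_sound p15_14_3_67)) (pfC_sound p15_14_3_68)) (pfC_sound p15_14_3_69)) (pfC_sound p15_14_3_70)) (pfC_sound p15_14_3_71)) (pfC_sound p15_14_3_72)) (pfC_sound p15_14_3_73)) (pfC_sound p15_14_3_74)) (pfC_sound p15_14_3_75)) (pfC_sound p15_14_3_76)) (pfC_sound p15_14_3_77)) (pfC_sound p15_14_3_78)) (pfC_sound p15_14_3_79)) (pfC_sound p15_14_3_80)) (pfC_sound p15_14_3_81)) (pfC_sound p15_14_3_82)) (pfC_sound p15_14_3_83)) (pfC_sound p15_14_3_84)) (pfC_sound p15_14_3_85))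 (pfC_sound p15_14_3_86)) (pfC_sound p15_14_3_87)) (pfC_sound p15_14_3_88)) (pfC_sound p15_14_3_89)) (pfC_sound p15_14_3_90)) (pfC_sound p15_14_3_91)) (pfC_sound p15_14_3_92)) (pfC_sound p15_14_3_93)) (pfC_sound p15_14_3_94))
 (pfC_sound p15_14_3_95)) (pfC_sound p15_14_3_96)) (pfC_sound p15_14_3_97)) (pfC_sound p15_14_3_98)) (pfC_sound p15_14_3_99)) (pfC_sound p15_14_3_100)) (pfC_sound p15_14_3_101)) (pfC_sound p15_14_3_102)) (pfC_sound p15_14_3_103)) (pfC_sound p15_14_3_104)) (pfC_sound p15_14_3_105)) (pfC_sound p15_14_3_106)) (pfC_sound p15_14_3_107)) (pfC_sound p15_14_3_108)) (pfC_sound p15_14_3_109)) (pfC_sound p15_14_3_110)) (pfC_sound p15_14_3_111)) (pfC_sound p15_14_3_112)) (by decide +kernel)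

def z15_14_3 : zOK yB15_14 (nat_lit 3) (nat_lit 750) (nat_lit 896) (nat_lit 4732089) (nat_lit 3160817) = true := by decide +kernel
def g15_14_3 : gOK yB15_14.x P15_14 (nat_lit 1428) (q15_14 :: r15_14) (nat_lit 3) (nat_lit 750) (nat_lit 4) (nat_lit 896) (nat_lit 12712500) (nat_lit 12712500) (nat_lit 12712500) (nat_lit 12712500) [(nat_lit 800)] = true := by decide +kernel
def v15_14_3 : ivC P15_14 s15_14 w15_14 n15_14 (nat_lit 4) (nat_lit 4710) (nat_lit 3) (nat_lit 750) f144_1_750 f152_1_750 (nat_lit 4) (nat_lit 896) f144_1_896 f152_1_896 (nat_lit 4732089) (nat_lit 3160817) p15_14_3 = true := by decide +kernel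
end CB
end Pool.Agent.Lib.MP_6947cd_al
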