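import Pool.Agent.Lib.MP_6947cd_al.L.BoxDataB
import Pool.Agent.Lib.MP_6947cd_al.L.TeD3
import Pool.Agent.Lib.MP_6947cd_al.L.TeD4

/-!
Problem MP_6947cd_al (Chollet).  CASE B, rows `j`: boxes (generated).
-/

set_option autoImplicit false
set_option linter.defProp false
set_option maxRecDepth 20000

namespace Pool.Agent.Lib.MP_6947cd_al
namespace CB

open Ent Ent.Pk Fr Fr.WT CA

/-! box `yB15_15` -/

def P15_15 : BQ := ⟨(nat_lit 8), (nat_lit 2), (nat_lit 6), (nat_lit 0), (nat_lit 8), (nat_lit 750), (nat_lit 760), (nat_lit 120), [(nat_lit 200), (nat_lit 300), (nat_lit 450), (nat_lit 800)], (nat_lit 94832000), (nat_lit 16000000), (nat_lit 16000000000)⟩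
def q15_15 : PC := ⟨(nat_lit 1000), [(nat_lit 120000), (nat_lit 200000), (nat_lit 300000), (nat_lit 450000), (nat_lit 800000)], (nat_lit 340282367000166625996085689103316680705000000), (nat_lit 15905168000000), (nat_lit 15905168000000), (nat_lit 10000000)⟩
def r15_15 : List PC := [⟨(nat_lit 1281), [(nat_lit 120507), (nat_lit 200995), (nat_lit 301315), (nat_lit 451348), (nat_lit 799110)], (nat_lit 342140308724040697871048403693221677276023934), (nat_lit 16268646437440), (nat_lit 16273770124000), (nat_lit 10049750)⟩, ⟨(nat_lit 1370), [(nat_lit 120684), (nat_lit 201314), (nat_lit 301731), (nat_lit 452072), (nat_lit 800849)], (nat_lit 342740566819424951163009283927395876180283324), (nat_lit 16384344988800), (nat_lit 16391091480000), (nat_lit 10065700)⟩, ⟨(nat_lit 1199), [(nat_lit 120354), (nat_lit 200726), (nat_lit 300918), (nat_lit 450716), (nat_lit 797495)], (nat_lit 341583947054003823622778841882907423718459779), (nat_lit 16162683277760), (nat_lit 16166311796000),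 (nat_lit 10036300)⟩]
def s15_15 : List PB := [⟨(nat_lit 25620), (nat_lit 1928112000000), [(nat_lit 200995), (nat_lit 301315), (nat_lit 451348), (nat_lit 799110)], (nat_lit 342140308724040697871048403693221677276023934), (nat_lit 1142168553280064), (nat_lit 1142173676966624), (nat_lit 44960)⟩, ⟨(nat_lit 27400), (nat_lit 1930944000000), [(nat_lit 201314), (nat_lit 301731), (nat_lit 452072), (nat_lit 800849)], (nat_lit 342740566819424951163009283927395876180283324), (nat_lit 1142284251831424), (nat_lit 1142290998322624), (nat_lit 59200)⟩, ⟨(nat_lit 23980), (nat_lit 1925664000000), [(nat_lit 200726), (nat_lit 300918), (nat_lit 450716), (nat_lit 797495)], (nat_lit 341583947054003823622778841882907423718459779), (nat_lit 1142062590120384), (nat_lit 1142066218638624), (nat_lit 31840)⟩]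
def n15_15 : List KN := [⟨(nat_lit 800), (nat_lit 450), (nat_lit 13242591), (nat_lit 6143362)⟩, ⟨(nat_lit 450), (nat_lit 300), (nat_lit 19661130), (nat_lit 13242591)⟩, ⟨(nat_lit 300), (nat_lit 200), (nat_lit 26450756), (nat_lit 19661130)⟩, ⟨(nat_lit 200), (nat_lit 120), (nat_lit 41351667), (nat_lit 26450756)⟩]
def w15_15 : List ℕ := [(nat_lit 44960), (nat_lit 59200), (nat_lit 31840)]
def par15_15 : parC yB15_15 P15_15 s15_15 r15_15 q15_15 n15_15 w15_15 = true := by decide +kernel

def p15_15_0 : PF := (PF.cons (PF.cons (PF.cons (PF.cons (PF.leaf (nat_lit 691763) (nat_lit 2083413) (nat_lit 65025399) (nat_lit 2083413) [(nat_lit 0), (nat_lit 0), (nat_lit 0), (nat_lit 0)]) (PF.cons (PF.leaf (nat_lit 804683) (nat_lit 172687) (nat_lit 64806918) (nat_lit 2129206) [(nat_lit 172687), (nat_lit 0), (nat_lit 0), (nat_lit 0)]) (PF.cons (PF.leaf (nat_lit 944140) (nat_lit 190804) (nat_lit 64546824) (nat_lit 2180379) [(nat_lit 190804), (nat_lit 0), (nat_lit 0), (nat_lit 0)]) (PF.cons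 (PF.leaf (nat_lit 1103931) (nat_lit 207817) (nat_lit 64250479) (nat_lit 2234880) [(nat_lit 207817), (nat_lit 0), (nat_lit 0), (nat_lit 0)]) (PF.cons (PF.leaf (nat_lit 1282337) (nat_lit 223987) (nat_lit 63921577) (nat_lit 2291287) [(nat_lit 223987), (nat_lit 0), (nat_lit 0), (nat_lit 0)]) (PF.cons (PF.leaf (nat_lit 1478021) (nat_lit 239457) (nat_lit 63562968) (nat_lit 2348559) [(nat_lit 239457), (nat_lit 0), (nat_lit 0), (nat_lit 0)]) (PF.cons (PF.leaf (nat_lit 1689845) (nat_lit 254309) (nat_lit 63177038) (nat_lit 2405918) [(nat_lit 254309), (nat_lit 0), (nat_lit 0), (nat_lit 0)]) (PF.cons (PF.leaf (nat_lit 1916744) (nat_lit 268592) (nat_lit 62765893) (nat_lit 2462770) [(nat_lit 268592), (nat_lit 0), (nat_lit 0),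
 (nat_lit 0)]) (PF.cons PF.nil (PF.cons PF.nil PF.nil)))))))))) (PF.cons (PF.cons (PF.leaf (nat_lit 1158178) (nat_lit 945300) (nat_lit 63877800) (nat_lit 2285712) [(nat_lit 0), (nat_lit 945300), (nat_lit 0), (nat_lit 0)]) (PF.cons (PF.leaf (nat_lit 1318166) (nat_lit 223555) (nat_lit 63570779) (nat_lit 2334988) [(nat_lit 223555), (nat_lit 979488), (nat_lit 0), (nat_lit 0)]) (PF.cons (PF.leaf (nat_lit 1499776) (nat_lit 239276) (nat_lit 63229379) (nat_lit 2386435) [(nat_lit 239276), (nat_lit 1014444), (nat_lit 0), (nat_lit 0)]) (PF.cons (PF.leaf (nat_lit 1699017) (nat_lit 254233) (nat_lit 62857684) (nat_lit 2438907) [(nat_lit 254233), (nat_lit 1049521), (nat_lit 0), (nat_lit 0)]) (PF.cons (PF.leaf (nat_lit 1914363) (nat_lit 268538) (nat_lit 62458777) (nat_lit 2491582) [(nat_lit 268538), (nat_lit 1084300), (nat_lit 0), (nat_lit 0)]) (PF.cons (PF.leaf (nat_lit 2144747) (nat_lit 282255) (nat_lit 62035191) (nat_lit 2543852) [(nat_lit 282255), (nat_lit 1118493), (nat_lit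 0), (nat_lit 0)]) (PF.cons (PF.leaf (nat_lit 2388971) (nat_lit 295422) (nat_lit 61589125) (nat_lit 2595255) [(nat_lit 295422), (nat_lit 1151897), (nat_lit 0), (nat_lit 0)]) (PF.cons PF.nil (PF.cons PF.nil PF.nil)))))))))
 (PF.cons (PF.cons (PF.leaf (nat_lit 1725889) (nat_lit 1067003) (nat_lit 62499750) (nat_lit 2475055) [(nat_lit 0), (nat_lit 1067003), (nat_lit 0), (nat_lit 0)]) (PF.cons (PF.leaf (nat_lit 1925178) (nat_lit 267673) (nat_lit 62120366) (nat_lit 2522723) [(nat_lit 267673), (nat_lit 1099024), (nat_lit 0), (nat_lit 0)]) (PF.cons (PF.leaf (nat_lit 2142532) (nat_lit 281547) (nat_lit 61712933) (nat_lit 2570808) [(nat_lit 281547), (nat_lit 1130987), (nat_lit 0), (nat_lit 0)]) (PF.cons (PF.leaf (nat_lit 2374874) (nat_lit 294786) (nat_lit 61280728) (nat_lit 2618644) [(nat_lit 294786), (nat_lit 1162539), (nat_lit 0), (nat_lit 0)]) (PF.cons (PF.leaf (nat_lit 2621069) (nat_lit 307448) (nat_lit 60826400) (nat_lit 2665743) [(nat_lit 307448), (nat_lit 1193437),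 (nat_lit 0), (nat_lit 0)]) (PF.cons PF.nil (PF.cons PF.nil PF.nil))))))) (PF.cons (PF.cons (PF.leaf (nat_lit 2375677) (nat_lit 1174402) (nat_lit 60941520) (nat_lit 2644084) [(nat_lit 0), (nat_lit 1174402), (nat_lit 0), (nat_lit 0)]) (PF.cons (PF.leaf (nat_lit 2607521) (nat_lit 306227) (nat_lit 60504774) (nat_lit 2687590) [(nat_lit 306227), (nat_lit 1203406), (nat_lit 0), (nat_lit 0)]) (PF.cons (PF.leaf (nat_lit 2854319) (nat_lit 318456)
 (nat_lit 60045656) (nat_lit 2730530) [(nat_lit 318456), (nat_lit 1231904), (nat_lit 0), (nat_lit 0)]) (PF.cons (PF.leaf (nat_lit 3113781) (nat_lit 330113) (nat_lit 59566885) (nat_lit 2772507) [(nat_lit 330113), (nat_lit 1259692), (nat_lit 0), (nat_lit 0)]) (PF.cons PF.nil PF.nil))))) (PF.cons (PF.cons (PF.leaf (nat_lit 3089872) (nat_lit 1267525) (nat_lit 59248717) (nat_lit 2789991) [(nat_lit 0), (nat_lit 1267525), (nat_lit 0), (nat_lit 0)]) (PF.cons (PF.leaf (nat_lit 3347955) (nat_lit 339729) (nat_lit 58768517) (nat_lit 2828098)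 [(nat_lit 339729), (nat_lit 1293116), (nat_lit 0), (nat_lit 0)]) (PF.cons PF.nil (PF.cons PF.nil PF.nil)))) (PF.cons (PF.cons (PF.leaf (nat_lit 3852243) (nat_lit 1346797) (nat_lit 57462564) (nat_lit 2912260) [(nat_lit 0), (nat_lit 1346797), (nat_lit 0), (nat_lit 0)]) (PF.cons PF.nil PF.nil)) (PF.cons PF.nil (PF.cons PF.nil PF.nil)))))))) (PF.cons (PF.cons (PF.cons (PF.leaf (nat_lit 1746476) (nat_lit 2506278) (nat_lit 61793694) (nat_lit 2506278) [(nat_lit 0), (nat_lit 0), (nat_lit 2808839), (nat_lit 0)]) (PF.cons (PF.leaf (nat_lit 1924029) (nat_lit 256540) (nat_lit 61453131) (nat_lit 2547535) [(nat_lit 256540), (nat_lit 0), (nat_lit 2851606), (nat_lit 0)])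
 (PF.cons (PF.leaf (nat_lit 2122448) (nat_lit 271842) (nat_lit 61078794) (nat_lit 2590317) [(nat_lit 271842), (nat_lit 0), (nat_lit 2896016), (nat_lit 0)]) (PF.cons (PF.leaf (nat_lit 2337681) (nat_lit 286119) (nat_lit 60675701) (nat_lit 2633676) [(nat_lit 286119), (nat_lit 0), (nat_lit 2941075), (nat_lit 0)]) (PF.cons (PF.leaf (nat_lit 2568122) (nat_lit 299559) (nat_lit 60247560) (nat_lit 2676943) [(nat_lit 299559), (nat_lit 0), (nat_lit 2986071), (nat_lit 0)]) (PF.cons (PF.leaf (nat_lit 2812240) (nat_lit 312275) (nat_lit 59797325) (nat_lit 2719625) [(nat_lit 312275), (nat_lit 0), (nat_lit 3030482), (nat_lit 0)]) (PF.cons PF.nil (PF.cons PF.nil (PF.cons PF.nil PF.nil))))))))) (PF.cons (PF.cons (PF.leaf (nat_lit 2353341) (nat_lit 1172371) (nat_lit 60305642) (nat_lit 2660755) [(nat_lit 0), (nat_lit 1172371), (nat_lit 2970043), (nat_lit 0)]) (PF.cons (PF.leaf (nat_lit 2566777) (nat_lit 297129) (nat_lit 59900857) (nat_lit 2699958) [(nat_lit 297129), (nat_lit 1200113),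 (nat_lit 3010753), (nat_lit 0)]) (PF.cons (PF.leaf (nat_lit 2797031) (nat_lit 310208) (nat_lit 59469928) (nat_lit 2739267) [(nat_lit 310208), (nat_lit 1227610), (nat_lit 3051590), (nat_lit 0)]) (PF.cons (PF.leaf (nat_lit
 3041303) (nat_lit 322512) (nat_lit 59016580) (nat_lit 2778138) [(nat_lit 322512), (nat_lit 1254575), (nat_lit 3091979), (nat_lit 0)]) (PF.cons (PF.leaf (nat_lit 3298045) (nat_lit 334140) (nat_lit 58543749) (nat_lit 2816179) [(nat_lit 334140), (nat_lit 1280819), (nat_lit 3131501), (nat_lit 0)]) (PF.cons PF.nil (PF.cons PF.nil PF.nil))))))) (PF.cons (PF.cons (PF.leaf (nat_lit 3029609) (nat_lit 1262808) (nat_lit 58674813) (nat_lit 2796606) [(nat_lit 0), (nat_lit 1262808), (nat_lit 3111775), (nat_lit 0)]) (PF.cons (PF.leaf (nat_lit 3271701) (nat_lit 331770) (nat_lit 58221969) (nat_lit 2831760) [(nat_lit 331770), (nat_lit 1287538), (nat_lit 3148234), (nat_lit 0)]) (PF.cons (PF.leaf (nat_lit 3527480) (nat_lit 343031) (nat_lit 57749164) (nat_lit 2866238)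 [(nat_lit 343031), (nat_lit 1311683), (nat_lit 3183980), (nat_lit 0)]) (PF.cons (PF.leaf (nat_lit 3794698) (nat_lit 353647) (nat_lit 57259301) (nat_lit 2899726) [(nat_lit 353647), (nat_lit 1335083), (nat_lit 3218676), (nat_lit 0)]) (PF.cons PF.nil PF.nil))))) (PF.cons (PF.cons (PF.leaf (nat_lit 3758233) (nat_lit 1340128) (nat_lit 56944956) (nat_lit 2911823) [(nat_lit 0), (nat_lit 1340128), (nat_lit 3231647), (nat_lit 0)]) (PF.cons
 (PF.leaf (nat_lit 4022798) (nat_lit 361312) (nat_lit 56457814) (nat_lit 2942011) [(nat_lit 361312), (nat_lit 1361612), (nat_lit 3262835), (nat_lit 0)]) (PF.cons PF.nil (PF.cons PF.nil PF.nil)))) (PF.cons (PF.cons (PF.leaf (nat_lit 4524319) (nat_lit 1404933) (nat_lit 55153395) (nat_lit 3006284) [(nat_lit 0), (nat_lit 1404933), (nat_lit 3329401), (nat_lit 0)]) (PF.cons PF.nil PF.nil)) (PF.cons PF.nil PF.nil)))))) (PF.cons (PF.cons (PF.cons (PF.leaf (nat_lit 2984388) (nat_lit 2803624) (nat_lit 58063515) (nat_lit 2803624) [(nat_lit 0), (nat_lit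 0), (nat_lit 3120836), (nat_lit 0)]) (PF.cons (PF.leaf (nat_lit 3208046) (nat_lit 321492) (nat_lit 57644314) (nat_lit 2835552) [(nat_lit 321492), (nat_lit 0), (nat_lit 3153727), (nat_lit 0)]) (PF.cons (PF.leaf (nat_lit 3447512) (nat_lit 333767) (nat_lit 57200981) (nat_lit 2867341) [(nat_lit 333767), (nat_lit 0), (nat_lit 3186477), (nat_lit 0)]) (PF.cons (PF.leaf (nat_lit 3699923) (nat_lit 345165) (nat_lit 56737511) (nat_lit 2898553) [(nat_lit 345165), (nat_lit 0), (nat_lit 3218626), (nat_lit 0)]) (PF.cons (PF.leaf (nat_lit 3963676) (nat_lit 355813) (nat_lit 56256994) (nat_lit 2928878) [(nat_lit 355813), (nat_lit 0), (nat_lit 3249843), (nat_lit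
 0)]) (PF.cons PF.nil (PF.cons PF.nil PF.nil))))))) (PF.cons (PF.cons (PF.leaf (nat_lit 3676497) (nat_lit 1332409) (nat_lit 56400127) (nat_lit 2911459) [(nat_lit 0), (nat_lit 1332409), (nat_lit 3232408), (nat_lit 0)]) (PF.cons (PF.leaf (nat_lit 3925458) (nat_lit 352532) (nat_lit 55941062) (nat_lit 2939475) [(nat_lit 352532), (nat_lit 1353378), (nat_lit 3261182), (nat_lit 0)]) (PF.cons (PF.leaf (nat_lit 4186962) (nat_lit 362877) (nat_lit 55464272) (nat_lit 2966744) [(nat_lit 362877), (nat_lit 1373712), (nat_lit 3289164), (nat_lit 0)]) (PF.cons PF.nil (PF.cons PF.nil PF.nil))))) (PF.cons (PF.cons (PF.leaf (nat_lit 4410878) (nat_lit 1396103) (nat_lit 54666938) (nat_lit 3000828) [(nat_lit 0), (nat_lit 1396103), (nat_lit 3324420), (nat_lit 0)]) (PF.cons (PF.leaf (nat_lit 4679057) (nat_lit 378515) (nat_lit 54181238) (nat_lit 3024295) [(nat_lit 378515), (nat_lit 1414012), (nat_lit 3348368), (nat_lit 0)]) (PF.cons PF.nil (PF.cons PF.nil PF.nil)))) (PF.cons (PF.cons (PF.leaf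 (nat_lit 5173938) (nat_lit 1448520) (nat_lit 52897162) (nat_lit 3071983) [(nat_lit 0), (nat_lit 1448520), (nat_lit 3397052), (nat_lit 0)]) (PF.cons PF.nil PF.nil)) (PF.cons PF.nil PF.nil))))) (PF.cons (PF.cons (PF.cons
 (PF.leaf (nat_lit 4310243) (nat_lit 2995356) (nat_lit 54154959) (nat_lit 2995356) [(nat_lit 0), (nat_lit 0), (nat_lit 3319498), (nat_lit 0)]) (PF.cons (PF.leaf (nat_lit 4563311) (nat_lit 369195) (nat_lit 53697242) (nat_lit 3017260) [(nat_lit 369195), (nat_lit 0), (nat_lit 3341704), (nat_lit 0)]) (PF.cons (PF.leaf (nat_lit 4827949) (nat_lit 378684) (nat_lit 53223823) (nat_lit 3038381) [(nat_lit 378684), (nat_lit 0), (nat_lit 3363080), (nat_lit 0)]) (PF.cons PF.nil PF.nil)))) (PF.cons (PF.cons (PF.leaf (nat_lit 5043722) (nat_lit 1438200) (nat_lit 52443546) (nat_lit 3062916) [(nat_lit 0), (nat_lit 1438200), (nat_lit 3388049), (nat_lit 0)]) (PF.cons (PF.leaf (nat_lit 5313277) (nat_lit 391994) (nat_lit 51965496) (nat_lit 3080685) [(nat_lit 391994), (nat_lit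 1453004), (nat_lit 3405877), (nat_lit 0)]) PF.nil)) (PF.cons PF.nil PF.nil))) (PF.cons (PF.cons (PF.cons (PF.leaf (nat_lit 5654274) (nat_lit 3102944) (nat_lit 50294463) (nat_lit 3102944) [(nat_lit 0), (nat_lit 0), (nat_lit 3427851), (nat_lit 0)]) (PF.cons PF.nil PF.nil)) (PF.cons PF.nil PF.nil)) (PF.cons PF.nil (PF.cons PF.nil (PF.cons PF.nil PF.nil)))))))) (PF.cons (PF.cons (PF.cons (PF.cons (PF.leaf (nat_lit 2890916) (nat_lit
 2736656) (nat_lit 55723067) (nat_lit 2736656) [(nat_lit 0), (nat_lit 0), (nat_lit 0), (nat_lit 8649089)]) (PF.cons (PF.leaf (nat_lit 3077409) (nat_lit 287873) (nat_lit 55386756) (nat_lit 2765593) [(nat_lit 287873), (nat_lit 0), (nat_lit 0), (nat_lit 8668589)]) (PF.cons (PF.leaf (nat_lit 3283354) (nat_lit 302686) (nat_lit 55020218) (nat_lit 2795168) [(nat_lit 302686), (nat_lit 0), (nat_lit 0), (nat_lit 8688052)]) (PF.cons (PF.leaf (nat_lit 3504854) (nat_lit 316124) (nat_lit 54628884) (nat_lit 2824710) [(nat_lit 316124), (nat_lit 0), (nat_lit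 0), (nat_lit 8706843)]) (PF.cons (PF.leaf (nat_lit 3739784) (nat_lit 328457) (nat_lit 54216731) (nat_lit 2853763) [(nat_lit 328457), (nat_lit 0), (nat_lit 0), (nat_lit 8724488)]) (PF.cons (PF.leaf (nat_lit 3986531) (nat_lit 339860) (nat_lit 53786876) (nat_lit 2882007) [(nat_lit 339860), (nat_lit 0), (nat_lit 0), (nat_lit 8740624)]) (PF.cons (PF.leaf (nat_lit 4243790) (nat_lit 350458) (nat_lit 53341872) (nat_lit 2909216) [(nat_lit 350458), (nat_lit 0), (nat_lit 0), (nat_lit 8754970)]) (PF.cons (PF.leaf (nat_lit 4510434) (nat_lit 360341) (nat_lit 52883882) (nat_lit 2935227) [(nat_lit 360341), (nat_lit 0), (nat_lit 0), (nat_lit 8767311)]) (PF.cons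
 PF.nil (PF.cons PF.nil PF.nil)))))))))) (PF.cons (PF.cons (PF.leaf (nat_lit 3502823) (nat_lit 1272956) (nat_lit 54280443) (nat_lit 2839338) [(nat_lit 0), (nat_lit 1272956), (nat_lit 0), (nat_lit 8716073)]) (PF.cons (PF.leaf (nat_lit 3720245) (nat_lit 324070) (nat_lit 53893161) (nat_lit 2865599) [(nat_lit 324070), (nat_lit 1294939), (nat_lit 0), (nat_lit 8731042)]) (PF.cons (PF.leaf (nat_lit 3952823) (nat_lit 336054) (nat_lit 53483914) (nat_lit 2891563) [(nat_lit 336054), (nat_lit 1316351), (nat_lit 0), (nat_lit 8744874)]) (PF.cons (PF.leaf (nat_lit 4197615) (nat_lit 347073) (nat_lit 53056505) (nat_lit 2916872) [(nat_lit 347073), (nat_lit 1337004), (nat_lit 0), (nat_lit 8757210)]) (PF.cons (PF.leaf (nat_lit 4453102) (nat_lit 357270) (nat_lit 52613881) (nat_lit 2941275) [(nat_lit 357270), (nat_lit 1356791), (nat_lit 0), (nat_lit 8767780)]) (PF.cons (PF.leaf (nat_lit 4718021) (nat_lit 366749) (nat_lit 52158434) (nat_lit 2964599) [(nat_lit 366749), (nat_lit 1375649),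 (nat_lit 0), (nat_lit 8776384)]) (PF.cons (PF.leaf (nat_lit 4991291) (nat_lit 375583) (nat_lit 51692174) (nat_lit 2986720) [(nat_lit 375583), (nat_lit 1393543), (nat_lit 0), (nat_lit 8782876)]) (PF.cons PF.nil (PF.cons
 PF.nil PF.nil))))))))) (PF.cons (PF.cons (PF.leaf (nat_lit 4167971) (nat_lit 1340297) (nat_lit 52743302) (nat_lit 2925617) [(nat_lit 0), (nat_lit 1340297), (nat_lit 0), (nat_lit 8759298)]) (PF.cons (PF.leaf (nat_lit 4408900) (nat_lit 353412) (nat_lit 52321170) (nat_lit 2948126) [(nat_lit 353412), (nat_lit 1359054), (nat_lit 0), (nat_lit 8767995)]) (PF.cons (PF.leaf (nat_lit 4661718) (nat_lit 363297) (nat_lit 51883189) (nat_lit 2969872) [(nat_lit 363297), (nat_lit 1377091), (nat_lit 0), (nat_lit 8774972)]) (PF.cons (PF.leaf (nat_lit 4924202) (nat_lit 372441) (nat_lit 51432156) (nat_lit 2990660) [(nat_lit 372441), (nat_lit 1394317), (nat_lit 0), (nat_lit 8780037)]) (PF.cons (PF.leaf (nat_lit 5195128) (nat_lit 380929) (nat_lit 50970324) (nat_lit 3010355)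 [(nat_lit 380929), (nat_lit 1410679), (nat_lit 0), (nat_lit 8783055)]) (PF.cons PF.nil (PF.cons PF.nil PF.nil))))))) (PF.cons (PF.cons (PF.leaf (nat_lit 4870811) (nat_lit 1395504) (nat_lit 51150285) (nat_lit 2995241) [(nat_lit 0), (nat_lit 1395504), (nat_lit 0), (nat_lit 8776770)]) (PF.cons (PF.leaf (nat_lit 5129385) (nat_lit 377437) (nat_lit 50705661) (nat_lit 3013629) [(nat_lit 377437), (nat_lit 1411190), (nat_lit 0), (nat_lit
 8778512)]) (PF.cons (PF.leaf (nat_lit 5397311) (nat_lit 385640) (nat_lit 50249886) (nat_lit 3031036) [(nat_lit 385640), (nat_lit 1426110), (nat_lit 0), (nat_lit 8778278)]) (PF.cons (PF.leaf (nat_lit 5672784) (nat_lit 393240) (nat_lit 49785081) (nat_lit 3047362) [(nat_lit 393240), (nat_lit 1440221), (nat_lit 0), (nat_lit 8775983)]) (PF.cons PF.nil PF.nil))))) (PF.cons (PF.cons (PF.leaf (nat_lit 5598827) (nat_lit 1439955) (nat_lit 49531246) (nat_lit 3048955) [(nat_lit 0), (nat_lit 1439955), (nat_lit 0), (nat_lit 8768787)]) (PF.cons (PF.leaf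 (nat_lit 5870267) (nat_lit 397082) (nat_lit 49073814) (nat_lit 3063224) [(nat_lit 397082), (nat_lit 1452784), (nat_lit 0), (nat_lit 8763552)]) (PF.cons PF.nil (PF.cons PF.nil PF.nil)))) (PF.cons (PF.cons (PF.leaf (nat_lit 6341783) (nat_lit 1474870) (nat_lit 47909473) (nat_lit 3087989) [(nat_lit 0), (nat_lit 1474870), (nat_lit 0), (nat_lit 8736997)]) (PF.cons PF.nil PF.nil)) (PF.cons PF.nil (PF.cons PF.nil PF.nil)))))))) (PF.cons (PF.cons (PF.cons (PF.leaf (nat_lit 4091072) (nat_lit 2918853) (nat_lit 52205934) (nat_lit 2918853) [(nat_lit 0), (nat_lit 0), (nat_lit 3240352), (nat_lit 8743672)]) (PF.cons (PF.leaf (nat_lit 4314235) (nat_lit 341076)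
 (nat_lit 51816818) (nat_lit 2939698) [(nat_lit 341076), (nat_lit 0), (nat_lit 3261130), (nat_lit 8750088)]) (PF.cons (PF.leaf (nat_lit 4551626) (nat_lit 352245) (nat_lit 51407609) (nat_lit 2960130) [(nat_lit 352245), (nat_lit 0), (nat_lit 3281485), (nat_lit 8755097)]) (PF.cons (PF.leaf (nat_lit 4800390) (nat_lit 362398) (nat_lit 50982164) (nat_lit 2979865) [(nat_lit 362398), (nat_lit 0), (nat_lit 3301123), (nat_lit 8758464)]) (PF.cons (PF.leaf (nat_lit 5058876) (nat_lit 371703) (nat_lit 50543426) (nat_lit 2998711) [(nat_lit 371703), (nat_lit 0), (nat_lit 3319841), (nat_lit 8760019)]) (PF.cons (PF.leaf (nat_lit 5325844) (nat_lit 380276) (nat_lit 50093750) (nat_lit 3016535) [(nat_lit 380276), (nat_lit 0), (nat_lit 3337498), (nat_lit 8759645)]) (PF.cons PF.nil (PF.cons PF.nil (PF.cons PF.nil PF.nil))))))))) (PF.cons (PF.cons (PF.leaf (nat_lit 4760952) (nat_lit 1382857) (nat_lit 50679998) (nat_lit 2985010) [(nat_lit 0), (nat_lit 1382857), (nat_lit 3306471), (nat_lit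 8754474)]) (PF.cons (PF.leaf (nat_lit 5004983) (nat_lit 367254) (nat_lit 50262095) (nat_lit 3002382) [(nat_lit 367254), (nat_lit 1398616), (nat_lit 3323656), (nat_lit 8754806)]) (PF.cons (PF.leaf (nat_lit 5260010) (nat_lit
 376319) (nat_lit 49830112) (nat_lit 3018986) [(nat_lit 376319), (nat_lit 1413664), (nat_lit 3340040), (nat_lit 8753370)]) (PF.cons (PF.leaf (nat_lit 5523833) (nat_lit 384624) (nat_lit 49386808) (nat_lit 3034674) [(nat_lit 384624), (nat_lit 1427932), (nat_lit 3355464), (nat_lit 8750059)]) (PF.cons (PF.leaf (nat_lit 5795239) (nat_lit 392268) (nat_lit 48934373) (nat_lit 3049344) [(nat_lit 392268), (nat_lit 1441387), (nat_lit 3369826), (nat_lit 8744805)]) (PF.cons PF.nil (PF.cons PF.nil PF.nil))))))) (PF.cons (PF.cons (PF.leaf (nat_lit 5461425) (nat_lit 1427681) (nat_lit 49117365) (nat_lit 3036559) [(nat_lit 0), (nat_lit 1427681), (nat_lit 3357365), (nat_lit 8742157)]) (PF.cons (PF.leaf (nat_lit 5720736) (nat_lit 388358) (nat_lit 48682131) (nat_lit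 3050231) [(nat_lit 388358), (nat_lit 1440634), (nat_lit 3370684), (nat_lit 8736136)]) (PF.cons (PF.leaf (nat_lit 5988579) (nat_lit 395777) (nat_lit 48237287) (nat_lit 3062982) [(nat_lit 395777), (nat_lit 1452859), (nat_lit 3383036), (nat_lit 8728233)]) (PF.cons PF.nil (PF.cons PF.nil PF.nil))))) (PF.cons (PF.cons (PF.leaf (nat_lit 6181160) (nat_lit 1462997) (nat_lit 47543958) (nat_lit 3074315) [(nat_lit 0), (nat_lit 1462997), (nat_lit
 3393790), (nat_lit 8707756)]) (PF.cons (PF.leaf (nat_lit 6451310) (nat_lit 405359) (nat_lit 47100091) (nat_lit 3084354) [(nat_lit 405359), (nat_lit 1473374), (nat_lit 3403295), (nat_lit 8695588)]) (PF.cons PF.nil (PF.cons PF.nil PF.nil)))) (PF.cons (PF.cons (PF.leaf (nat_lit 6911111) (nat_lit 1489942) (nat_lit 45979434) (nat_lit 3099462) [(nat_lit 0), (nat_lit 1489942), (nat_lit 3416945), (nat_lit 8653200)]) (PF.cons PF.nil PF.nil)) (PF.cons PF.nil PF.nil)))))) (PF.cons (PF.cons (PF.cons (PF.leaf (nat_lit 5337482) (nat_lit 3023952)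 (nat_lit 48681188) (nat_lit 3023952) [(nat_lit 0), (nat_lit 0), (nat_lit 3344636), (nat_lit 8714399)]) (PF.cons (PF.leaf (nat_lit 5582895) (nat_lit 378088) (nat_lit 48271639) (nat_lit 3036969) [(nat_lit 378088), (nat_lit 0), (nat_lit 3357204), (nat_lit 8707707)]) (PF.cons (PF.leaf (nat_lit 5838512) (nat_lit 386405) (nat_lit 47849563) (nat_lit 3049227) [(nat_lit 386405), (nat_lit 0), (nat_lit 3368976), (nat_lit 8699257)]) (PF.cons (PF.leaf (nat_lit 6102153) (nat_lit 393954) (nat_lit 47417645) (nat_lit 3060616) [(nat_lit 393954), (nat_lit 0), (nat_lit 3379838), (nat_lit 8689010)]) (PF.cons (PF.leaf (nat_lit 6372600) (nat_lit 400844) (nat_lit 46977992)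
 (nat_lit 3071063) [(nat_lit 400844), (nat_lit 0), (nat_lit 3389715), (nat_lit 8676949)]) PF.nil))))) (PF.cons (PF.cons (PF.leaf (nat_lit 6031718) (nat_lit 1450297) (nat_lit 47161697) (nat_lit 3060374) [(nat_lit 0), (nat_lit 1450297), (nat_lit 3379453), (nat_lit 8677536)]) (PF.cons (PF.leaf (nat_lit 6290409) (nat_lit 396620) (nat_lit 46738965) (nat_lit 3070076) [(nat_lit 396620), (nat_lit 1460902), (nat_lit 3388558), (nat_lit 8665131)]) (PF.cons (PF.leaf (nat_lit 6556906) (nat_lit 403336) (nat_lit 46307924) (nat_lit 3078918) [(nat_lit 403336), (nat_lit 1470817), (nat_lit 3396759), (nat_lit 8650960)]) (PF.cons PF.nil PF.nil)))) (PF.cons (PF.cons (PF.leaf (nat_lit 6740456) (nat_lit 1477868) (nat_lit 45642938) (nat_lit 3084852) [(nat_lit 0), (nat_lit 1477868), (nat_lit 3401758), (nat_lit 8621769)]) (PF.cons (PF.leaf (nat_lit 7008295) (nat_lit 411314) (nat_lit 45214813) (nat_lit 3091355) [(nat_lit 411314), (nat_lit 1486151), (nat_lit 3407510), (nat_lit 8604004)]) PF.nil))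 (PF.cons PF.nil (PF.cons PF.nil PF.nil))))) (PF.cons (PF.cons (PF.cons (PF.leaf (nat_lit 6580880) (nat_lit 3069928) (nat_lit 45290727) (nat_lit 3069928) [(nat_lit 0), (nat_lit 0), (nat_lit 3386286), (nat_lit
 8589297)]) (PF.cons (PF.leaf (nat_lit 6837879) (nat_lit 402642) (nat_lit 44882569) (nat_lit 3076297) [(nat_lit 402642), (nat_lit 0), (nat_lit 3391862), (nat_lit 8571716)]) (PF.cons (PF.leaf (nat_lit 7102061) (nat_lit 408730) (nat_lit 44467194) (nat_lit 3081867) [(nat_lit 408730), (nat_lit 0), (nat_lit 3396598), (nat_lit 8552495)]) (PF.cons PF.nil PF.nil)))) (PF.cons (PF.cons (PF.leaf (nat_lit 7276704) (nat_lit 1486006) (nat_lit 43832192) (nat_lit 3083389) [(nat_lit 0), (nat_lit 1486006), (nat_lit 3396907), (nat_lit 8516502)]) (PF.cons PF.nil PF.nil)) (PF.cons PF.nil PF.nil))) (PF.cons (PF.cons (PF.cons (PF.leaf (nat_lit 7790353) (nat_lit 3072262) (nat_lit 42112846) (nat_lit 3072262) [(nat_lit 0), (nat_lit 0), (nat_lit 3381766), (nat_lit 8396639)]) (PF.cons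 PF.nil PF.nil)) (PF.cons PF.nil PF.nil)) (PF.cons PF.nil PF.nil)))))) (PF.cons (PF.cons (PF.cons (PF.cons (PF.leaf (nat_lit 5059431) (nat_lit 2938828) (nat_lit 47075437) (nat_lit 2938828) [(nat_lit 0), (nat_lit 0), (nat_lit 0), (nat_lit 8547273)]) (PF.cons (PF.leaf (nat_lit 5277975) (nat_lit 349190) (nat_lit 46726197) (nat_lit 2952338) [(nat_lit 349190), (nat_lit 0), (nat_lit 0), (nat_lit 8540543)]) (PF.cons (PF.leaf (nat_lit
 5509494) (nat_lit 359409) (nat_lit 46360141) (nat_lit 2965304) [(nat_lit 359409), (nat_lit 0), (nat_lit 0), (nat_lit 8532274)]) (PF.cons (PF.leaf (nat_lit 5751127) (nat_lit 368546) (nat_lit 45980789) (nat_lit 2977545) [(nat_lit 368546), (nat_lit 0), (nat_lit 0), (nat_lit 8522419)]) (PF.cons (PF.leaf (nat_lit 6001315) (nat_lit 376790) (nat_lit 45590801) (nat_lit 2988943) [(nat_lit 376790), (nat_lit 0), (nat_lit 0), (nat_lit 8510952)]) (PF.cons (PF.leaf (nat_lit 6258824) (nat_lit 384277) (nat_lit 45192276) (nat_lit 2999425) [(nat_lit 384277),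 (nat_lit 0), (nat_lit 0), (nat_lit 8497861)]) (PF.cons (PF.leaf (nat_lit 6522624) (nat_lit 391106) (nat_lit 44786931) (nat_lit 3008946) [(nat_lit 391106), (nat_lit 0), (nat_lit 0), (nat_lit 8483147)]) (PF.cons PF.nil (PF.cons PF.nil PF.nil))))))))) (PF.cons (PF.cons (PF.leaf (nat_lit 5700523) (nat_lit 1393514) (nat_lit 45716815) (nat_lit 2978040) [(nat_lit 0), (nat_lit 1393514), (nat_lit 0), (nat_lit 8510220)]) (PF.cons (PF.leaf (nat_lit 5936832) (nat_lit 371675) (nat_lit 45345902) (nat_lit 2988516) [(nat_lit 371675), (nat_lit 1405619), (nat_lit 0), (nat_lit 8498549)]) (PF.cons (PF.leaf (nat_lit 6182969) (nat_lit 379737) (nat_lit 44963543)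
 (nat_lit 2998251) [(nat_lit 379737), (nat_lit 1416993), (nat_lit 0), (nat_lit 8485274)]) (PF.cons (PF.leaf (nat_lit 6436804) (nat_lit 387016) (nat_lit 44572193) (nat_lit 3007158) [(nat_lit 387016), (nat_lit 1427609), (nat_lit 0), (nat_lit 8470400)]) (PF.cons (PF.leaf (nat_lit 6697162) (nat_lit 393623) (nat_lit 44173780) (nat_lit 3015185) [(nat_lit 393623), (nat_lit 1437460), (nat_lit 0), (nat_lit 8453945)]) (PF.cons PF.nil (PF.cons PF.nil PF.nil))))))) (PF.cons (PF.cons (PF.leaf (nat_lit 6364812) (nat_lit 1425525) (nat_lit 44338950) (nat_lit 3005597) [(nat_lit 0), (nat_lit 1425525), (nat_lit 0), (nat_lit 8456606)]) (PF.cons (PF.leaf (nat_lit 6613728) (nat_lit 389241) (nat_lit 43956053) (nat_lit 3013038) [(nat_lit 389241), (nat_lit 1435093), (nat_lit 0), (nat_lit 8440146)]) (PF.cons (PF.leaf (nat_lit 6870181) (nat_lit 395683) (nat_lit 43565563) (nat_lit 3019675) [(nat_lit 395683), (nat_lit 1443972), (nat_lit 0), (nat_lit 8422130)]) (PF.cons (PF.leaf (nat_lit 7132461)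 (nat_lit 401523) (nat_lit 43169258) (nat_lit 3025473) [(nat_lit 401523), (nat_lit 1452158), (nat_lit 0), (nat_lit 8402596)]) (PF.cons PF.nil PF.nil))))) (PF.cons (PF.cons (PF.leaf (nat_lit 7042682) (nat_lit 1449483)
 (nat_lit 42962163) (nat_lit 3022529) [(nat_lit 0), (nat_lit 1449483), (nat_lit 0), (nat_lit 8387835)]) (PF.cons (PF.leaf (nat_lit 7300313) (nat_lit 402994) (nat_lit 42574330) (nat_lit 3027103) [(nat_lit 402994), (nat_lit 1456823), (nat_lit 0), (nat_lit 8366956)]) (PF.cons PF.nil (PF.cons PF.nil PF.nil)))) (PF.cons (PF.cons (PF.leaf (nat_lit 7726738) (nat_lit 1466580) (nat_lit 41601155) (nat_lit 3029991) [(nat_lit 0), (nat_lit 1466580), (nat_lit 0), (nat_lit 8305671)]) (PF.cons PF.nil PF.nil)) (PF.cons PF.nil PF.nil)))))) (PF.cons (PF.cons (PF.cons (PF.leaf (nat_lit 6226304) (nat_lit 2989760) (nat_lit 43971920) (nat_lit 2989760) [(nat_lit 0), (nat_lit 0), (nat_lit 3301568), (nat_lit 8422781)]) (PF.cons (PF.leaf (nat_lit 6462479) (nat_lit 378673) (nat_lit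 43611635) (nat_lit 2997077) [(nat_lit 378673), (nat_lit 0), (nat_lit 3308027), (nat_lit 8406698)]) (PF.cons (PF.leaf (nat_lit 6707855) (nat_lit 386085) (nat_lit 43241098) (nat_lit 3003684) [(nat_lit 386085), (nat_lit 0), (nat_lit 3313747), (nat_lit 8389056)]) (PF.cons (PF.leaf (nat_lit 6960282) (nat_lit 392719) (nat_lit 42862668) (nat_lit 3009518) [(nat_lit 392719), (nat_lit 0), (nat_lit 3318665), (nat_lit 8369901)]) (PF.cons
 (PF.leaf (nat_lit 7218680) (nat_lit 398694) (nat_lit 42478177) (nat_lit 3014546) [(nat_lit 398694), (nat_lit 0), (nat_lit 3322748), (nat_lit 8349280)]) PF.nil))))) (PF.cons (PF.cons (PF.leaf (nat_lit 6882058) (nat_lit 1435937) (nat_lit 42642381) (nat_lit 3006633) [(nat_lit 0), (nat_lit 1435937), (nat_lit 3315441), (nat_lit 8354209)]) (PF.cons (PF.leaf (nat_lit 7129352) (nat_lit 394137) (nat_lit 42272918) (nat_lit 3011252) [(nat_lit 394137), (nat_lit 1443696), (nat_lit 3319114), (nat_lit 8333846)]) (PF.cons (PF.leaf (nat_lit 7383581) (nat_lit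 399993) (nat_lit 41896806) (nat_lit 3015128) [(nat_lit 399993), (nat_lit 1450813), (nat_lit 3322013), (nat_lit 8312031)]) (PF.cons PF.nil PF.nil)))) (PF.cons (PF.cons (PF.leaf (nat_lit 7548075) (nat_lit 1454116) (nat_lit 41320849) (nat_lit 3014351) [(nat_lit 0), (nat_lit 1454116), (nat_lit 3319844), (nat_lit 8272767)]) (PF.cons (PF.leaf (nat_lit 7802818) (nat_lit 406061) (nat_lit 40948511) (nat_lit 3016453) [(nat_lit 406061), (nat_lit 1459879), (nat_lit 3320908), (nat_lit 8248559)]) PF.nil)) (PF.cons PF.nil (PF.cons PF.nil PF.nil))))) (PF.cons (PF.cons (PF.cons (PF.leaf (nat_lit 7380242) (nat_lit 2998310) (nat_lit 41026755) (nat_lit 2998310)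
 [(nat_lit 0), (nat_lit 0), (nat_lit 3303135), (nat_lit 8238738)]) (PF.cons (PF.leaf (nat_lit 7625206) (nat_lit 397410) (nat_lit 40671606) (nat_lit 3000570) [(nat_lit 397410), (nat_lit 0), (nat_lit 3304342), (nat_lit 8215270)]) (PF.cons (PF.leaf (nat_lit 7876674) (nat_lit 402744) (nat_lit 40310602) (nat_lit 3002144) [(nat_lit 402744), (nat_lit 0), (nat_lit 3304832), (nat_lit 8190454)]) (PF.cons PF.nil PF.nil)))) (PF.cons (PF.cons (PF.leaf (nat_lit 8033376) (nat_lit 1454131) (nat_lit 39762273) (nat_lit 2998418) [(nat_lit 0), (nat_lit 1454131), (nat_lit 3299563), (nat_lit 8147431)]) (PF.cons PF.nil PF.nil)) (PF.cons PF.nil PF.nil))) (PF.cons (PF.cons (PF.cons (PF.leaf (nat_lit 8499259) (nat_lit 2976291) (nat_lit 38284810) (nat_lit 2976291) [(nat_lit 0), (nat_lit 0), (nat_lit 3272767), (nat_lit 8014704)]) (PF.cons PF.nil PF.nil)) (PF.cons PF.nil PF.nil)) (PF.cons PF.nil PF.nil))))) (PF.cons (PF.cons (PF.cons (PF.cons (PF.leaf (nat_lit 7005426) (nat_lit 2921729) (nat_lit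 39945830) (nat_lit 2921729) [(nat_lit 0), (nat_lit 0), (nat_lit 0), (nat_lit 8080417)]) (PF.cons (PF.leaf (nat_lit 7232021) (nat_lit 374416) (nat_lit 39630667) (nat_lit 2925350) [(nat_lit 374416), (nat_lit 0), (nat_lit
 0), (nat_lit 8059459)]) (PF.cons (PF.leaf (nat_lit 7467070) (nat_lit 381111) (nat_lit 39306932) (nat_lit 2928314) [(nat_lit 381111), (nat_lit 0), (nat_lit 0), (nat_lit 8037114)]) (PF.cons (PF.leaf (nat_lit 7708477) (nat_lit 387036) (nat_lit 38976678) (nat_lit 2930593) [(nat_lit 387036), (nat_lit 0), (nat_lit 0), (nat_lit 8013476)]) (PF.cons PF.nil PF.nil))))) (PF.cons (PF.cons (PF.leaf (nat_lit 7625434) (nat_lit 1406950) (nat_lit 38787452) (nat_lit 2926236) [(nat_lit 0), (nat_lit 1406950), (nat_lit 0), (nat_lit 7996057)]) (PF.cons (PF.leaf (nat_lit 7861639) (nat_lit 387618) (nat_lit 38465432) (nat_lit 2927625) [(nat_lit 387618), (nat_lit 1412743), (nat_lit 0), (nat_lit 7971797)]) (PF.cons (PF.leaf (nat_lit 8104160) (nat_lit 392819) (nat_lit 38137914)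 (nat_lit 2928365) [(nat_lit 392819), (nat_lit 1417940), (nat_lit 0), (nat_lit 7946317)]) (PF.cons PF.nil PF.nil)))) (PF.cons (PF.cons (PF.leaf (nat_lit 8253085) (nat_lit 1418839) (nat_lit 37639390) (nat_lit 2923575) [(nat_lit 0), (nat_lit 1418839), (nat_lit 0), (nat_lit 7902722)]) (PF.cons PF.nil PF.nil)) PF.nil))) (PF.cons (PF.cons (PF.cons (PF.leaf (nat_lit 8081349) (nat_lit 2907547) (nat_lit 37393060) (nat_lit 2907547) [(nat_lit
 0), (nat_lit 0), (nat_lit 3199699), (nat_lit 7869501)]) (PF.cons (PF.leaf (nat_lit 8314973) (nat_lit 389112) (nat_lit 37084053) (nat_lit 2907231) [(nat_lit 389112), (nat_lit 0), (nat_lit 3198209), (nat_lit 7843401)]) (PF.cons PF.nil PF.nil))) (PF.cons (PF.cons (PF.leaf (nat_lit 8696721) (nat_lit 1413921) (nat_lit 36295896) (nat_lit 2899526) [(nat_lit 0), (nat_lit 1413921), (nat_lit 3187626), (nat_lit 7770614)]) PF.nil) PF.nil)) (PF.cons PF.nil PF.nil))) (PF.cons (PF.cons (PF.cons (PF.cons (PF.leaf (nat_lit 8705538) (nat_lit 2808632)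 (nat_lit 34283741) (nat_lit 2808632) [(nat_lit 0), (nat_lit 0), (nat_lit 0), (nat_lit 7504109)]) (PF.cons (PF.leaf (nat_lit 8928669) (nat_lit 379217) (nat_lit 34014014) (nat_lit 2806701) [(nat_lit 379217), (nat_lit 0), (nat_lit 0), (nat_lit 7477219)]) PF.nil)) (PF.cons PF.nil PF.nil)) (PF.cons PF.nil PF.nil)) (PF.cons PF.nil (PF.cons PF.nil (PF.cons PF.nil (PF.cons PF.nil PF.nil)))))))))

def p15_15_0_0 : pfC (piC [(nat_lit 41351667), (nat_lit 26450756), (nat_lit 19661130), (nat_lit 13242591)] (nat_lit 24191191)) p15_15_0 (nat_lit 4) (nat_lit 0) (nat_lit 1) = true := by decide +kernel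
def p15_15_0_1 : pfC (piC [(nat_lit 41351667), (nat_lit 26450756), (nat_lit 19661130), (nat_lit 13242591)] (nat_lit 24191191)) p15_15_0 (nat_lit 4) (nat_lit 1) (nat_lit 2) = true := by decide +kernel
def p15_15_0_2 : pfC (piC [(nat_lit 41351667), (nat_lit 26450756), (nat_lit 19661130), (nat_lit 13242591)] (nat_lit 24191191)) p15_15_0 (nat_lit 4) (nat_lit 2) (nat_lit 3) = true := by decide +kernel
def p15_15_0_3 : pfC (piC [(nat_lit 41351667), (nat_lit 26450756), (nat_lit 19661130), (nat_lit 13242591)] (nat_lit 24191191)) p15_15_0 (nat_lit 4) (nat_lit 3) (nat_lit 4) = true := by decide +kernel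
def p15_15_0_4 : pfC (piC [(nat_lit 41351667), (nat_lit 26450756), (nat_lit 19661130), (nat_lit 13242591)] (nat_lit 24191191)) p15_15_0 (nat_lit 4) (nat_lit 4) (nat_lit 5) = true := by decide +kernel
def p15_15_0_5 : pfC (piC [(nat_lit 41351667), (nat_lit 26450756), (nat_lit 19661130), (nat_lit 13242591)] (nat_lit 24191191)) p15_15_0 (nat_lit 4) (nat_lit 5) (nat_lit 6) = true := by decide +kernel
def p15_15_0_6 : pfC (piC [(nat_lit 41351667), (nat_lit 26450756), (nat_lit 19661130), (nat_lit 13242591)] (nat_lit 24191191)) p15_15_0 (nat_lit 4) (nat_lit 6) (nat_lit 7) = true := by decide +kernel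
def p15_15_0_7 : pfC (piC [(nat_lit 41351667), (nat_lit 26450756), (nat_lit 19661130), (nat_lit 13242591)] (nat_lit 24191191)) p15_15_0 (nat_lit 4) (nat_lit 7) (nat_lit 8) = true := by decide +kernel
def p15_15_0_8 : pfC (piC [(nat_lit 41351667), (nat_lit 26450756), (nat_lit 19661130), (nat_lit 13242591)] (nat_lit 24191191)) p15_15_0 (nat_lit 4) (nat_lit 8) (nat_lit 9) = true := by decide +kernel
def p15_15_0_9 : pfC (piC [(nat_lit 41351667), (nat_lit 26450756), (nat_lit 19661130), (nat_lit 13242591)] (nat_lit 24191191)) p15_15_0 (nat_lit 4) (nat_lit 9) (nat_lit 10) = true := by decide +kernel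
def p15_15_0_10 : pfC (piC [(nat_lit 41351667), (nat_lit 26450756), (nat_lit 19661130), (nat_lit 13242591)] (nat_lit 24191191)) p15_15_0 (nat_lit 4) (nat_lit 10) (nat_lit 11) = true := by decide +kernel
def p15_15_0_11 : pfC (piC [(nat_lit 41351667), (nat_lit 26450756), (nat_lit 19661130), (nat_lit 13242591)] (nat_lit 24191191)) p15_15_0 (nat_lit 4) (nat_lit 11) (nat_lit 12) = true := by decide +kernel
def p15_15_0_12 : pfC (piC [(nat_lit 41351667), (nat_lit 26450756), (nat_lit 19661130), (nat_lit 13242591)] (nat_lit 24191191)) p15_15_0 (nat_lit 4) (nat_lit 12) (nat_lit 13) = true := by decide +kernel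
def p15_15_0_13 : pfC (piC [(nat_lit 41351667), (nat_lit 26450756), (nat_lit 19661130), (nat_lit 13242591)] (nat_lit 24191191)) p15_15_0 (nat_lit 4) (nat_lit 13) (nat_lit 14) = true := by decide +kernel
def p15_15_0_14 : pfC (piC [(nat_lit 41351667), (nat_lit 26450756), (nat_lit 19661130), (nat_lit 13242591)] (nat_lit 24191191)) p15_15_0 (nat_lit 4) (nat_lit 14) (nat_lit 15) = true := by decide +kernel
def p15_15_0_15 : pfC (piC [(nat_lit 41351667), (nat_lit 26450756), (nat_lit 19661130), (nat_lit 13242591)] (nat_lit 24191191)) p15_15_0 (nat_lit 4) (nat_lit 15) (nat_lit 16) = true := by decide +kernel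
def p15_15_0_16 : pfC (piC [(nat_lit 41351667), (nat_lit 26450756), (nat_lit 19661130), (nat_lit 13242591)] (nat_lit 24191191)) p15_15_0 (nat_lit 4) (nat_lit 16) (nat_lit 17) = true := by decide +kernel
def p15_15_0_17 : pfC (piC [(nat_lit 41351667), (nat_lit 26450756), (nat_lit 19661130), (nat_lit 13242591)] (nat_lit 24191191)) p15_15_0 (nat_lit 4) (nat_lit 17) (nat_lit 18) = true := by decide +kernel
def p15_15_0_18 : pfC (piC [(nat_lit 41351667), (nat_lit 26450756), (nat_lit 19661130), (nat_lit 13242591)] (nat_lit 24191191)) p15_15_0 (nat_lit 4) (nat_lit 18) (nat_lit 19) = true := by decide +kernel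
def p15_15_0_19 : pfC (piC [(nat_lit 41351667), (nat_lit 26450756), (nat_lit 19661130), (nat_lit 13242591)] (nat_lit 24191191)) p15_15_0 (nat_lit 4) (nat_lit 19) (nat_lit 20) = true := by decide +kernel
def p15_15_0_20 : pfC (piC [(nat_lit 41351667), (nat_lit 26450756), (nat_lit 19661130), (nat_lit 13242591)] (nat_lit 24191191)) p15_15_0 (nat_lit 4) (nat_lit 20) (nat_lit 21) = true := by decide +kernel
def p15_15_0_21 : pfC (piC [(nat_lit 41351667), (nat_lit 26450756), (nat_lit 19661130), (nat_lit 13242591)] (nat_lit 24191191)) p15_15_0 (nat_lit 4) (nat_lit 21) (nat_lit 22) = true := by decide +kernel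
def p15_15_0_22 : pfC (piC [(nat_lit 41351667), (nat_lit 26450756), (nat_lit 19661130), (nat_lit 13242591)] (nat_lit 24191191)) p15_15_0 (nat_lit 4) (nat_lit 22) (nat_lit 23) = true := by decide +kernel
def p15_15_0_23 : pfC (piC [(nat_lit 41351667), (nat_lit 26450756), (nat_lit 19661130), (nat_lit 13242591)] (nat_lit 24191191)) p15_15_0 (nat_lit 4) (nat_lit 23) (nat_lit 24) = true := by decide +kernel
def p15_15_0_24 : pfC (piC [(nat_lit 41351667), (nat_lit 26450756), (nat_lit 19661130), (nat_lit 13242591)] (nat_lit 24191191)) p15_15_0 (nat_lit 4) (nat_lit 24) (nat_lit 25) = true := by decide +kernel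
def p15_15_0_25 : pfC (piC [(nat_lit 41351667), (nat_lit 26450756), (nat_lit 19661130), (nat_lit 13242591)] (nat_lit 24191191)) p15_15_0 (nat_lit 4) (nat_lit 25) (nat_lit 26) = true := by decide +kernel
def p15_15_0_26 : pfC (piC [(nat_lit 41351667), (nat_lit 26450756), (nat_lit 19661130), (nat_lit 13242591)] (nat_lit 24191191)) p15_15_0 (nat_lit 4) (nat_lit 26) (nat_lit 27) = true := by decide +kernel
def p15_15_0_27 : pfC (piC [(nat_lit 41351667), (nat_lit 26450756), (nat_lit 19661130), (nat_lit 13242591)] (nat_lit 24191191)) p15_15_0 (nat_lit 4) (nat_lit 27) (nat_lit 28) = true := by decide +kernel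
def p15_15_0_28 : pfC (piC [(nat_lit 41351667), (nat_lit 26450756), (nat_lit 19661130), (nat_lit 13242591)] (nat_lit 24191191)) p15_15_0 (nat_lit 4) (nat_lit 28) (nat_lit 29) = true := by decide +kernel
def p15_15_0_29 : pfC (piC [(nat_lit 41351667), (nat_lit 26450756), (nat_lit 19661130), (nat_lit 13242591)] (nat_lit 24191191)) p15_15_0 (nat_lit 4) (nat_lit 29) (nat_lit 30) = true := by decide +kernel
def p15_15_0_30 : pfC (piC [(nat_lit 41351667), (nat_lit 26450756), (nat_lit 19661130), (nat_lit 13242591)] (nat_lit 24191191)) p15_15_0 (nat_lit 4) (nat_lit 30) (nat_lit 31) = true := by decide +kernel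
def p15_15_0_31 : pfC (piC [(nat_lit 41351667), (nat_lit 26450756), (nat_lit 19661130), (nat_lit 13242591)] (nat_lit 24191191)) p15_15_0 (nat_lit 4) (nat_lit 31) (nat_lit 32) = true := by decide +kernel
def p15_15_0_32 : pfC (piC [(nat_lit 41351667), (nat_lit 26450756), (nat_lit 19661130), (nat_lit 13242591)] (nat_lit 24191191)) p15_15_0 (nat_lit 4) (nat_lit 32) (nat_lit 33) = true := by decide +kernel
def p15_15_0_33 : pfC (piC [(nat_lit 41351667), (nat_lit 26450756), (nat_lit 19661130), (nat_lit 13242591)] (nat_lit 24191191)) p15_15_0 (nat_lit 4) (nat_lit 33) (nat_lit 34) = true := by decide +kernel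
def p15_15_0_34 : pfC (piC [(nat_lit 41351667), (nat_lit 26450756), (nat_lit 19661130), (nat_lit 13242591)] (nat_lit 24191191)) p15_15_0 (nat_lit 4) (nat_lit 34) (nat_lit 35) = true := by decide +kernel
def p15_15_0_35 : pfC (piC [(nat_lit 41351667), (nat_lit 26450756), (nat_lit 19661130), (nat_lit 13242591)] (nat_lit 24191191)) p15_15_0 (nat_lit 4) (nat_lit 35) (nat_lit 36) = true := by decide +kernel
def p15_15_0_36 : pfC (piC [(nat_lit 41351667), (nat_lit 26450756), (nat_lit 19661130), (nat_lit 13242591)] (nat_lit 24191191)) p15_15_0 (nat_lit 4) (nat_lit 36) (nat_lit 37) = true := by decide +kernel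
def p15_15_0_37 : pfC (piC [(nat_lit 41351667), (nat_lit 26450756), (nat_lit 19661130), (nat_lit 13242591)] (nat_lit 24191191)) p15_15_0 (nat_lit 4) (nat_lit 37) (nat_lit 38) = true := by decide +kernel
def p15_15_0_38 : pfC (piC [(nat_lit 41351667), (nat_lit 26450756), (nat_lit 19661130), (nat_lit 13242591)] (nat_lit 24191191)) p15_15_0 (nat_lit 4) (nat_lit 38) (nat_lit 39) = true := by decide +kernel
def p15_15_0_39 : pfC (piC [(nat_lit 41351667), (nat_lit 26450756), (nat_lit 19661130), (nat_lit 13242591)] (nat_lit 24191191)) p15_15_0 (nat_lit 4) (nat_lit 39) (nat_lit 40) = true := by decide +kernel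
def p15_15_0_40 : pfC (piC [(nat_lit 41351667), (nat_lit 26450756), (nat_lit 19661130), (nat_lit 13242591)] (nat_lit 24191191)) p15_15_0 (nat_lit 4) (nat_lit 40) (nat_lit 41) = true := by decide +kernel
def p15_15_0_41 : pfC (piC [(nat_lit 41351667), (nat_lit 26450756), (nat_lit 19661130), (nat_lit 13242591)] (nat_lit 24191191)) p15_15_0 (nat_lit 4) (nat_lit 41) (nat_lit 42) = true := by decide +kernel
def p15_15_0_42 : pfC (piC [(nat_lit 41351667), (nat_lit 26450756), (nat_lit 19661130), (nat_lit 13242591)] (nat_lit 24191191)) p15_15_0 (nat_lit 4) (nat_lit 42) (nat_lit 43) = true := by decide +kernel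
def p15_15_0_43 : pfC (piC [(nat_lit 41351667), (nat_lit 26450756), (nat_lit 19661130), (nat_lit 13242591)] (nat_lit 24191191)) p15_15_0 (nat_lit 4) (nat_lit 43) (nat_lit 44) = true := by decide +kernel
def p15_15_0_44 : pfC (piC [(nat_lit 41351667), (nat_lit 26450756), (nat_lit 19661130), (nat_lit 13242591)] (nat_lit 24191191)) p15_15_0 (nat_lit 4) (nat_lit 44) (nat_lit 45) = true := by decide +kernel
def p15_15_0_45 : pfC (piC [(nat_lit 41351667), (nat_lit 26450756), (nat_lit 19661130), (nat_lit 13242591)] (nat_lit 24191191)) p15_15_0 (nat_lit 4) (nat_lit 45) (nat_lit 46) = true := by decide +kernel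
def p15_15_0_46 : pfC (piC [(nat_lit 41351667), (nat_lit 26450756), (nat_lit 19661130), (nat_lit 13242591)] (nat_lit 24191191)) p15_15_0 (nat_lit 4) (nat_lit 46) (nat_lit 47) = true := by decide +kernel
def p15_15_0_47 : pfC (piC [(nat_lit 41351667), (nat_lit 26450756), (nat_lit 19661130), (nat_lit 13242591)] (nat_lit 24191191)) p15_15_0 (nat_lit 4) (nat_lit 47) (nat_lit 48) = true := by decide +kernel
def p15_15_0_48 : pfC (piC [(nat_lit 41351667), (nat_lit 26450756), (nat_lit 19661130), (nat_lit 13242591)] (nat_lit 24191191)) p15_15_0 (nat_lit 4) (nat_lit 48) (nat_lit 49) = true := by decide +kernel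
def p15_15_0_49 : pfC (piC [(nat_lit 41351667), (nat_lit 26450756), (nat_lit 19661130), (nat_lit 13242591)] (nat_lit 24191191)) p15_15_0 (nat_lit 4) (nat_lit 49) (nat_lit 50) = true := by decide +kernel
def p15_15_0_50 : pfC (piC [(nat_lit 41351667), (nat_lit 26450756), (nat_lit 19661130), (nat_lit 13242591)] (nat_lit 24191191)) p15_15_0 (nat_lit 4) (nat_lit 50) (nat_lit 51) = true := by decide +kernel
def p15_15_0_51 : pfC (piC [(nat_lit 41351667), (nat_lit 26450756), (nat_lit 19661130), (nat_lit 13242591)] (nat_lit 24191191)) p15_15_0 (nat_lit 4) (nat_lit 51) (nat_lit 52) = true := by decide +kernel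
def p15_15_0_52 : pfC (piC [(nat_lit 41351667), (nat_lit 26450756), (nat_lit 19661130), (nat_lit 13242591)] (nat_lit 24191191)) p15_15_0 (nat_lit 4) (nat_lit 52) (nat_lit 53) = true := by decide +kernel
def p15_15_0_53 : pfC (piC [(nat_lit 41351667), (nat_lit 26450756), (nat_lit 19661130), (nat_lit 13242591)] (nat_lit 24191191)) p15_15_0 (nat_lit 4) (nat_lit 53) (nat_lit 54) = true := by decide +kernel
def p15_15_0_54 : pfC (piC [(nat_lit 41351667), (nat_lit 26450756), (nat_lit 19661130), (nat_lit 13242591)] (nat_lit 24191191)) p15_15_0 (nat_lit 4) (nat_lit 54) (nat_lit 55) = true := by decide +kernel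
def p15_15_0_55 : pfC (piC [(nat_lit 41351667), (nat_lit 26450756), (nat_lit 19661130), (nat_lit 13242591)] (nat_lit 24191191)) p15_15_0 (nat_lit 4) (nat_lit 55) (nat_lit 56) = true := by decide +kernel
def p15_15_0_56 : pfC (piC [(nat_lit 41351667), (nat_lit 26450756), (nat_lit 19661130), (nat_lit 13242591)] (nat_lit 24191191)) p15_15_0 (nat_lit 4) (nat_lit 56) (nat_lit 57) = true := by decide +kernel
def p15_15_0_57 : pfC (piC [(nat_lit 41351667), (nat_lit 26450756), (nat_lit 19661130), (nat_lit 13242591)] (nat_lit 24191191)) p15_15_0 (nat_lit 4) (nat_lit 57) (nat_lit 58) = true := by decide +kernel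
def p15_15_0_58 : pfC (piC [(nat_lit 41351667), (nat_lit 26450756), (nat_lit 19661130), (nat_lit 13242591)] (nat_lit 24191191)) p15_15_0 (nat_lit 4) (nat_lit 58) (nat_lit 59) = true := by decide +kernel
def p15_15_0_59 : pfC (piC [(nat_lit 41351667), (nat_lit 26450756), (nat_lit 19661130), (nat_lit 13242591)] (nat_lit 24191191)) p15_15_0 (nat_lit 4) (nat_lit 59) (nat_lit 60) = true := by decide +kernel
def p15_15_0_60 : pfC (piC [(nat_lit 41351667), (nat_lit 26450756), (nat_lit 19661130), (nat_lit 13242591)] (nat_lit 24191191)) p15_15_0 (nat_lit 4) (nat_lit 60) (nat_lit 61) = true := by decide +kernel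
def p15_15_0_61 : pfC (piC [(nat_lit 41351667), (nat_lit 26450756), (nat_lit 19661130), (nat_lit 13242591)] (nat_lit 24191191)) p15_15_0 (nat_lit 4) (nat_lit 61) (nat_lit 62) = true := by decide +kernel
def p15_15_0_62 : pfC (piC [(nat_lit 41351667), (nat_lit 26450756), (nat_lit 19661130), (nat_lit 13242591)] (nat_lit 24191191)) p15_15_0 (nat_lit 4) (nat_lit 62) (nat_lit 63) = true := by decide +kernel
def p15_15_0_63 : pfC (piC [(nat_lit 41351667), (nat_lit 26450756), (nat_lit 19661130), (nat_lit 13242591)] (nat_lit 24191191)) p15_15_0 (nat_lit 4) (nat_lit 63) (nat_lit 64) = true := by decide +kernel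
def p15_15_0_64 : pfC (piC [(nat_lit 41351667), (nat_lit 26450756), (nat_lit 19661130), (nat_lit 13242591)] (nat_lit 24191191)) p15_15_0 (nat_lit 4) (nat_lit 64) (nat_lit 65) = true := by decide +kernel
def p15_15_0_65 : pfC (piC [(nat_lit 41351667), (nat_lit 26450756), (nat_lit 19661130), (nat_lit 13242591)] (nat_lit 24191191)) p15_15_0 (nat_lit 4) (nat_lit 65) (nat_lit 66) = true := by decide +kernel
def p15_15_0_66 : pfC (piC [(nat_lit 41351667), (nat_lit 26450756), (nat_lit 19661130), (nat_lit 13242591)] (nat_lit 24191191)) p15_15_0 (nat_lit 4) (nat_lit 66) (nat_lit 67) = true := by decide +kernel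
def p15_15_0_67 : pfC (piC [(nat_lit 41351667), (nat_lit 26450756), (nat_lit 19661130), (nat_lit 13242591)] (nat_lit 24191191)) p15_15_0 (nat_lit 4) (nat_lit 67) (nat_lit 68) = true := by decide +kernel
def p15_15_0_68 : pfC (piC [(nat_lit 41351667), (nat_lit 26450756), (nat_lit 19661130), (nat_lit 13242591)] (nat_lit 24191191)) p15_15_0 (nat_lit 4) (nat_lit 68) (nat_lit 69) = true := by decide +kernel
def p15_15_0_69 : pfC (piC [(nat_lit 41351667), (nat_lit 26450756), (nat_lit 19661130), (nat_lit 13242591)] (nat_lit 24191191)) p15_15_0 (nat_lit 4) (nat_lit 69) (nat_lit 70) = true := by decide +kernel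
def p15_15_0_70 : pfC (piC [(nat_lit 41351667), (nat_lit 26450756), (nat_lit 19661130), (nat_lit 13242591)] (nat_lit 24191191)) p15_15_0 (nat_lit 4) (nat_lit 70) (nat_lit 71) = true := by decide +kernel
def p15_15_0_71 : pfC (piC [(nat_lit 41351667), (nat_lit 26450756), (nat_lit 19661130), (nat_lit 13242591)] (nat_lit 24191191)) p15_15_0 (nat_lit 4) (nat_lit 71) (nat_lit 72) = true := by decide +kernel
def p15_15_0_72 : pfC (piC [(nat_lit 41351667), (nat_lit 26450756), (nat_lit 19661130), (nat_lit 13242591)] (nat_lit 24191191)) p15_15_0 (nat_lit 4) (nat_lit 72) (nat_lit 73) = true := by decide +kernel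
def p15_15_0_73 : pfC (piC [(nat_lit 41351667), (nat_lit 26450756), (nat_lit 19661130), (nat_lit 13242591)] (nat_lit 24191191)) p15_15_0 (nat_lit 4) (nat_lit 73) (nat_lit 74) = true := by decide +kernel
def p15_15_0_74 : pfC (piC [(nat_lit 41351667), (nat_lit 26450756), (nat_lit 19661130), (nat_lit 13242591)] (nat_lit 24191191)) p15_15_0 (nat_lit 4) (nat_lit 74) (nat_lit 75) = true := by decide +kernel
def p15_15_0_75 : pfC (piC [(nat_lit 41351667), (nat_lit 26450756), (nat_lit 19661130), (nat_lit 13242591)] (nat_lit 24191191)) p15_15_0 (nat_lit 4) (nat_lit 75) (nat_lit 76) = true := by decide +kernel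
def p15_15_0_76 : pfC (piC [(nat_lit 41351667), (nat_lit 26450756), (nat_lit 19661130), (nat_lit 13242591)] (nat_lit 24191191)) p15_15_0 (nat_lit 4) (nat_lit 76) (nat_lit 77) = true := by decide +kernel
def p15_15_0_77 : pfC (piC [(nat_lit 41351667), (nat_lit 26450756), (nat_lit 19661130), (nat_lit 13242591)] (nat_lit 24191191)) p15_15_0 (nat_lit 4) (nat_lit 77) (nat_lit 78) = true := by decide +kernel
def p15_15_0_78 : pfC (piC [(nat_lit 41351667), (nat_lit 26450756), (nat_lit 19661130), (nat_lit 13242591)] (nat_lit 24191191)) p15_15_0 (nat_lit 4) (nat_lit 78) (nat_lit 79) = true := by decide +kernel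
def p15_15_0_79 : pfC (piC [(nat_lit 41351667), (nat_lit 26450756), (nat_lit 19661130), (nat_lit 13242591)] (nat_lit 24191191)) p15_15_0 (nat_lit 4) (nat_lit 79) (nat_lit 80) = true := by decide +kernel
def p15_15_0_80 : pfC (piC [(nat_lit 41351667), (nat_lit 26450756), (nat_lit 19661130), (nat_lit 13242591)] (nat_lit 24191191)) p15_15_0 (nat_lit 4) (nat_lit 80) (nat_lit 81) = true := by decide +kernel
def p15_15_0_81 : pfC (piC [(nat_lit 41351667), (nat_lit 26450756), (nat_lit 19661130), (nat_lit 13242591)] (nat_lit 24191191)) p15_15_0 (nat_lit 4) (nat_lit 81) (nat_lit 82) = true := by decide +kernel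
def p15_15_0_82 : pfC (piC [(nat_lit 41351667), (nat_lit 26450756), (nat_lit 19661130), (nat_lit 13242591)] (nat_lit 24191191)) p15_15_0 (nat_lit 4) (nat_lit 82) (nat_lit 83) = true := by decide +kernel
def p15_15_0_83 : pfC (piC [(nat_lit 41351667), (nat_lit 26450756), (nat_lit 19661130), (nat_lit 13242591)] (nat_lit 24191191)) p15_15_0 (nat_lit 4) (nat_lit 83) (nat_lit 84) = true := by decide +kernel
def p15_15_0_84 : pfC (piC [(nat_lit 41351667), (nat_lit 26450756), (nat_lit 19661130), (nat_lit 13242591)] (nat_lit 24191191)) p15_15_0 (nat_lit 4) (nat_lit 84) (nat_lit 85) = true := by decide +kernel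
def p15_15_0_85 : pfC (piC [(nat_lit 41351667), (nat_lit 26450756), (nat_lit 19661130), (nat_lit 13242591)] (nat_lit 24191191)) p15_15_0 (nat_lit 4) (nat_lit 85) (nat_lit 86) = true := by decide +kernel
def p15_15_0_86 : pfC (piC [(nat_lit 41351667), (nat_lit 26450756), (nat_lit 19661130), (nat_lit 13242591)] (nat_lit 24191191)) p15_15_0 (nat_lit 4) (nat_lit 86) (nat_lit 87) = true := by decide +kernel
def p15_15_0_87 : pfC (piC [(nat_lit 41351667), (nat_lit 26450756), (nat_lit 19661130), (nat_lit 13242591)] (nat_lit 24191191)) p15_15_0 (nat_lit 4) (nat_lit 87) (nat_lit 88) = true := by decide +kernel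
def p15_15_0_88 : pfC (piC [(nat_lit 41351667), (nat_lit 26450756), (nat_lit 19661130), (nat_lit 13242591)] (nat_lit 24191191)) p15_15_0 (nat_lit 4) (nat_lit 88) (nat_lit 89) = true := by decide +kernel
def p15_15_0_89 : pfC (piC [(nat_lit 41351667), (nat_lit 26450756), (nat_lit 19661130), (nat_lit 13242591)] (nat_lit 24191191)) p15_15_0 (nat_lit 4) (nat_lit 89) (nat_lit 90) = true := by decide +kernel
def p15_15_0_90 : pfC (piC [(nat_lit 41351667), (nat_lit 26450756), (nat_lit 19661130), (nat_lit 13242591)] (nat_lit 24191191)) p15_15_0 (nat_lit 4) (nat_lit 90) (nat_lit 91) = true := by decide +kernel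
def p15_15_0_91 : pfC (piC [(nat_lit 41351667), (nat_lit 26450756), (nat_lit 19661130), (nat_lit 13242591)] (nat_lit 24191191)) p15_15_0 (nat_lit 4) (nat_lit 91) (nat_lit 92) = true := by decide +kernel
def p15_15_0_92 : pfC (piC [(nat_lit 41351667), (nat_lit 26450756), (nat_lit 19661130), (nat_lit 13242591)] (nat_lit 24191191)) p15_15_0 (nat_lit 4) (nat_lit 92) (nat_lit 93) = true := by decide +kernel
def p15_15_0_93 : pfC (piC [(nat_lit 41351667), (nat_lit 26450756), (nat_lit 19661130), (nat_lit 13242591)] (nat_lit 24191191)) p15_15_0 (nat_lit 4) (nat_lit 93) (nat_lit 94) = true := by decide +kernel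
def p15_15_0_94 : pfC (piC [(nat_lit 41351667), (nat_lit 26450756), (nat_lit 19661130), (nat_lit 13242591)] (nat_lit 24191191)) p15_15_0 (nat_lit 4) (nat_lit 94) (nat_lit 95) = true := by decide +kernel
def p15_15_0_95 : pfC (piC [(nat_lit 41351667), (nat_lit 26450756), (nat_lit 19661130), (nat_lit 13242591)] (nat_lit 24191191)) p15_15_0 (nat_lit 4) (nat_lit 95) (nat_lit 96) = true := by decide +kernel
def p15_15_0_96 : pfC (piC [(nat_lit 41351667), (nat_lit 26450756), (nat_lit 19661130), (nat_lit 13242591)] (nat_lit 24191191)) p15_15_0 (nat_lit 4) (nat_lit 96) (nat_lit 97) = true := by decide +kernel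
def p15_15_0_97 : pfC (piC [(nat_lit 41351667), (nat_lit 26450756), (nat_lit 19661130), (nat_lit 13242591)] (nat_lit 24191191)) p15_15_0 (nat_lit 4) (nat_lit 97) (nat_lit 98) = true := by decide +kernel
def p15_15_0_98 : pfC (piC [(nat_lit 41351667), (nat_lit 26450756), (nat_lit 19661130), (nat_lit 13242591)] (nat_lit 24191191)) p15_15_0 (nat_lit 4) (nat_lit 98) (nat_lit 99) = true := by decide +kernel
def p15_15_0_99 : pfC (piC [(nat_lit 41351667), (nat_lit 26450756), (nat_lit 19661130), (nat_lit 13242591)] (nat_lit 24191191)) p15_15_0 (nat_lit 4) (nat_lit 99) (nat_lit 100) = true := by decide +kernel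
def p15_15_0_100 : pfC (piC [(nat_lit 41351667), (nat_lit 26450756), (nat_lit 19661130), (nat_lit 13242591)] (nat_lit 24191191)) p15_15_0 (nat_lit 4) (nat_lit 100) (nat_lit 101) = true := by decide +kernel
def p15_15_0_101 : pfC (piC [(nat_lit 41351667), (nat_lit 26450756), (nat_lit 19661130), (nat_lit 13242591)] (nat_lit 24191191)) p15_15_0 (nat_lit 4) (nat_lit 101) (nat_lit 102) = true := by decide +kernel
def p15_15_0_102 : pfC (piC [(nat_lit 41351667), (nat_lit 26450756), (nat_lit 19661130), (nat_lit 13242591)] (nat_lit 24191191)) p15_15_0 (nat_lit 4) (nat_lit 102) (nat_lit 103) = true := by decide +kernel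
def p15_15_0_103 : pfC (piC [(nat_lit 41351667), (nat_lit 26450756), (nat_lit 19661130), (nat_lit 13242591)] (nat_lit 24191191)) p15_15_0 (nat_lit 4) (nat_lit 103) (nat_lit 104) = true := by decide +kernel
def p15_15_0_104 : pfC (piC [(nat_lit 41351667), (nat_lit 26450756), (nat_lit 19661130), (nat_lit 13242591)] (nat_lit 24191191)) p15_15_0 (nat_lit 4) (nat_lit 104) (nat_lit 105) = true := by decide +kernel
def p15_15_0_105 : pfC (piC [(nat_lit 41351667), (nat_lit 26450756), (nat_lit 19661130), (nat_lit 13242591)] (nat_lit 24191191)) p15_15_0 (nat_lit 4) (nat_lit 105) (nat_lit 106) = true := by decide +kernel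
def p15_15_0_106 : pfC (piC [(nat_lit 41351667), (nat_lit 26450756), (nat_lit 19661130), (nat_lit 13242591)] (nat_lit 24191191)) p15_15_0 (nat_lit 4) (nat_lit 106) (nat_lit 107) = true := by decide +kernel
def p15_15_0_107 : pfC (piC [(nat_lit 41351667), (nat_lit 26450756), (nat_lit 19661130), (nat_lit 13242591)] (nat_lit 24191191)) p15_15_0 (nat_lit 4) (nat_lit 107) (nat_lit 108) = true := by decide +kernel
def p15_15_0_108 : pfC (piC [(nat_lit 41351667), (nat_lit 26450756), (nat_lit 19661130), (nat_lit 13242591)] (nat_lit 24191191)) p15_15_0 (nat_lit 4) (nat_lit 108) (nat_lit 109) = true := by decide +kernel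
def p15_15_0_109 : pfC (piC [(nat_lit 41351667), (nat_lit 26450756), (nat_lit 19661130), (nat_lit 13242591)] (nat_lit 24191191)) p15_15_0 (nat_lit 4) (nat_lit 109) (nat_lit 110) = true := by decide +kernel
def p15_15_0_110 : pfC (piC [(nat_lit 41351667), (nat_lit 26450756), (nat_lit 19661130), (nat_lit 13242591)] (nat_lit 24191191)) p15_15_0 (nat_lit 4) (nat_lit 110) (nat_lit 111) = true := by decide +kernel
def p15_15_0_111 : pfC (piC [(nat_lit 41351667), (nat_lit 26450756), (nat_lit 19661130), (nat_lit 13242591)] (nat_lit 24191191)) p15_15_0 (nat_lit 4) (nat_lit 111) (nat_lit 112) = true := by decide +kernel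
def p15_15_0_112 : pfC (piC [(nat_lit 41351667), (nat_lit 26450756), (nat_lit 19661130), (nat_lit 13242591)] (nat_lit 24191191)) p15_15_0 (nat_lit 4) (nat_lit 112) (nat_lit 113) = true := by decide +kernel
def p15_15_0_113 : pfC (piC [(nat_lit 41351667), (nat_lit 26450756), (nat_lit 19661130), (nat_lit 13242591)] (nat_lit 24191191)) p15_15_0 (nat_lit 4) (nat_lit 113) (nat_lit 114) = true := by decide +kernel
def p15_15_0_114 : pfC (piC [(nat_lit 41351667), (nat_lit 26450756), (nat_lit 19661130), (nat_lit 13242591)] (nat_lit 24191191)) p15_15_0 (nat_lit 4) (nat_lit 114) (nat_lit 115) = true := by decide +kernel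
def p15_15_0_115 : pfC (piC [(nat_lit 41351667), (nat_lit 26450756), (nat_lit 19661130), (nat_lit 13242591)] (nat_lit 24191191)) p15_15_0 (nat_lit 4) (nat_lit 115) (nat_lit 116) = true := by decide +kernel
def p15_15_0_116 : pfC (piC [(nat_lit 41351667), (nat_lit 26450756), (nat_lit 19661130), (nat_lit 13242591)] (nat_lit 24191191)) p15_15_0 (nat_lit 4) (nat_lit 116) (nat_lit 117) = true := by decide +kernel
def p15_15_0_117 : pfC (piC [(nat_lit 41351667), (nat_lit 26450756), (nat_lit 19661130), (nat_lit 13242591)] (nat_lit 24191191)) p15_15_0 (nat_lit 4) (nat_lit 117) (nat_lit 118) = true := by decide +kernel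
def p15_15_0_118 : pfC (piC [(nat_lit 41351667), (nat_lit 26450756), (nat_lit 19661130), (nat_lit 13242591)] (nat_lit 24191191)) p15_15_0 (nat_lit 4) (nat_lit 118) (nat_lit 119) = true := by decide +kernel
def p15_15_0_119 : pfC (piC [(nat_lit 41351667), (nat_lit 26450756), (nat_lit 19661130), (nat_lit 13242591)] (nat_lit 24191191)) p15_15_0 (nat_lit 4) (nat_lit 119) (nat_lit 120) = true := by decide +kernel
def p15_15_0_120 : pfC (piC [(nat_lit 41351667), (nat_lit 26450756), (nat_lit 19661130), (nat_lit 13242591)] (nat_lit 24191191)) p15_15_0 (nat_lit 4) (nat_lit 120) (nat_lit 121) = true := by decide +kernel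
def p15_15_0_121 : pfC (piC [(nat_lit 41351667), (nat_lit 26450756), (nat_lit 19661130), (nat_lit 13242591)] (nat_lit 24191191)) p15_15_0 (nat_lit 4) (nat_lit 121) (nat_lit 122) = true := by decide +kernel
def p15_15_0_122 : pfC (piC [(nat_lit 41351667), (nat_lit 26450756), (nat_lit 19661130), (nat_lit 13242591)] (nat_lit 24191191)) p15_15_0 (nat_lit 4) (nat_lit 122) (nat_lit 123) = true := by decide +kernel
def p15_15_0_123 : pfC (piC [(nat_lit 41351667), (nat_lit 26450756), (nat_lit 19661130), (nat_lit 13242591)] (nat_lit 24191191)) p15_15_0 (nat_lit 4) (nat_lit 123) (nat_lit 124) = true := by decide +kernel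
def p15_15_0_124 : pfC (piC [(nat_lit 41351667), (nat_lit 26450756), (nat_lit 19661130), (nat_lit 13242591)] (nat_lit 24191191)) p15_15_0 (nat_lit 4) (nat_lit 124) (nat_lit 125) = true := by decide +kernel
def p15_15_0_125 : pfC (piC [(nat_lit 41351667), (nat_lit 26450756), (nat_lit 19661130), (nat_lit 13242591)] (nat_lit 24191191)) p15_15_0 (nat_lit 4) (nat_lit 125) (nat_lit 126) = true := by decide +kernel
def p15_15_0_126 : pfC (piC [(nat_lit 41351667), (nat_lit 26450756), (nat_lit 19661130), (nat_lit 13242591)] (nat_lit 24191191)) p15_15_0 (nat_lit 4) (nat_lit 126) (nat_lit 127) = true := by decide +kernel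
def p15_15_0_127 : pfC (piC [(nat_lit 41351667), (nat_lit 26450756), (nat_lit 19661130), (nat_lit 13242591)] (nat_lit 24191191)) p15_15_0 (nat_lit 4) (nat_lit 127) (nat_lit 128) = true := by decide +kernel
def p15_15_0_128 : pfC (piC [(nat_lit 41351667), (nat_lit 26450756), (nat_lit 19661130), (nat_lit 13242591)] (nat_lit 24191191)) p15_15_0 (nat_lit 4) (nat_lit 128) (nat_lit 129) = true := by decide +kernel
def p15_15_0_129 : pfC (piC [(nat_lit 41351667), (nat_lit 26450756), (nat_lit 19661130), (nat_lit 13242591)] (nat_lit 24191191)) p15_15_0 (nat_lit 4) (nat_lit 129) (nat_lit 130) = true := by decide +kernel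
def p15_15_0_130 : pfC (piC [(nat_lit 41351667), (nat_lit 26450756), (nat_lit 19661130), (nat_lit 13242591)] (nat_lit 24191191)) p15_15_0 (nat_lit 4) (nat_lit 130) (nat_lit 131) = true := by decide +kernel
def p15_15_0_131 : pfC (piC [(nat_lit 41351667), (nat_lit 26450756), (nat_lit 19661130), (nat_lit 13242591)] (nat_lit 24191191)) p15_15_0 (nat_lit 4) (nat_lit 131) (nat_lit 132) = true := by decide +kernel
def p15_15_0_132 : pfC (piC [(nat_lit 41351667), (nat_lit 26450756), (nat_lit 19661130), (nat_lit 13242591)] (nat_lit 24191191)) p15_15_0 (nat_lit 4) (nat_lit 132) (nat_lit 133) = true := by decide +kernel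
def p15_15_0_133 : pfC (piC [(nat_lit 41351667), (nat_lit 26450756), (nat_lit 19661130), (nat_lit 13242591)] (nat_lit 24191191)) p15_15_0 (nat_lit 4) (nat_lit 133) (nat_lit 134) = true := by decide +kernel
def p15_15_0_134 : pfC (piC [(nat_lit 41351667), (nat_lit 26450756), (nat_lit 19661130), (nat_lit 13242591)] (nat_lit 24191191)) p15_15_0 (nat_lit 4) (nat_lit 134) (nat_lit 135) = true := by decide +kernel
def p15_15_0_135 : pfC (piC [(nat_lit 41351667), (nat_lit 26450756), (nat_lit 19661130), (nat_lit 13242591)] (nat_lit 24191191)) p15_15_0 (nat_lit 4) (nat_lit 135) (nat_lit 136) = true := by decide +kernel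
def p15_15_0_136 : pfC (piC [(nat_lit 41351667), (nat_lit 26450756), (nat_lit 19661130), (nat_lit 13242591)] (nat_lit 24191191)) p15_15_0 (nat_lit 4) (nat_lit 136) (nat_lit 137) = true := by decide +kernel
def p15_15_0_137 : pfC (piC [(nat_lit 41351667), (nat_lit 26450756), (nat_lit 19661130), (nat_lit 13242591)] (nat_lit 24191191)) p15_15_0 (nat_lit 4) (nat_lit 137) (nat_lit 138) = true := by decide +kernel
def p15_15_0_138 : pfC (piC [(nat_lit 41351667), (nat_lit 26450756), (nat_lit 19661130), (nat_lit 13242591)] (nat_lit 24191191)) p15_15_0 (nat_lit 4) (nat_lit 138) (nat_lit 139) = true := by decide +kernel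
def p15_15_0_139 : pfC (piC [(nat_lit 41351667), (nat_lit 26450756), (nat_lit 19661130), (nat_lit 13242591)] (nat_lit 24191191)) p15_15_0 (nat_lit 4) (nat_lit 139) (nat_lit 140) = true := by decide +kernel
def p15_15_0_140 : pfC (piC [(nat_lit 41351667), (nat_lit 26450756), (nat_lit 19661130), (nat_lit 13242591)] (nat_lit 24191191)) p15_15_0 (nat_lit 4) (nat_lit 140) (nat_lit 141) = true := by decide +kernel
def p15_15_0_141 : pfC (piC [(nat_lit 41351667), (nat_lit 26450756), (nat_lit 19661130), (nat_lit 13242591)] (nat_lit 24191191)) p15_15_0 (nat_lit 4) (nat_lit 141) (nat_lit 142) = true := by decide +kernel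
def p15_15_0_142 : pfC (piC [(nat_lit 41351667), (nat_lit 26450756), (nat_lit 19661130), (nat_lit 13242591)] (nat_lit 24191191)) p15_15_0 (nat_lit 4) (nat_lit 142) (nat_lit 143) = true := by decide +kernel
def p15_15_0_143 : pfC (piC [(nat_lit 41351667), (nat_lit 26450756), (nat_lit 19661130), (nat_lit 13242591)] (nat_lit 24191191)) p15_15_0 (nat_lit 4) (nat_lit 143) (nat_lit 144) = true := by decide +kernel
def p15_15_0_144 : pfC (piC [(nat_lit 41351667), (nat_lit 26450756), (nat_lit 19661130), (nat_lit 13242591)] (nat_lit 24191191)) p15_15_0 (nat_lit 4) (nat_lit 144) (nat_lit 145) = true := by decide +kernel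
def p15_15_0_145 : pfC (piC [(nat_lit 41351667), (nat_lit 26450756), (nat_lit 19661130), (nat_lit 13242591)] (nat_lit 24191191)) p15_15_0 (nat_lit 4) (nat_lit 145) (nat_lit 146) = true := by decide +kernel
def p15_15_0_146 : pfC (piC [(nat_lit 41351667), (nat_lit 26450756), (nat_lit 19661130), (nat_lit 13242591)] (nat_lit 24191191)) p15_15_0 (nat_lit 4) (nat_lit 146) (nat_lit 147) = true := by decide +kernel
def p15_15_0_147 : pfC (piC [(nat_lit 41351667), (nat_lit 26450756), (nat_lit 19661130), (nat_lit 13242591)] (nat_lit 24191191)) p15_15_0 (nat_lit 4) (nat_lit 147) (nat_lit 148) = true := by decide +kernel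
def p15_15_0_148 : pfC (piC [(nat_lit 41351667), (nat_lit 26450756), (nat_lit 19661130), (nat_lit 13242591)] (nat_lit 24191191)) p15_15_0 (nat_lit 4) (nat_lit 148) (nat_lit 149) = true := by decide +kernel
def p15_15_0_149 : pfC (piC [(nat_lit 41351667), (nat_lit 26450756), (nat_lit 19661130), (nat_lit 13242591)] (nat_lit 24191191)) p15_15_0 (nat_lit 4) (nat_lit 149) (nat_lit 150) = true := by decide +kernel
def p15_15_0_150 : pfC (piC [(nat_lit 41351667), (nat_lit 26450756), (nat_lit 19661130), (nat_lit 13242591)] (nat_lit 24191191)) p15_15_0 (nat_lit 4) (nat_lit 150) (nat_lit 151) = true := by decide +kernel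
def p15_15_0_151 : pfC (piC [(nat_lit 41351667), (nat_lit 26450756), (nat_lit 19661130), (nat_lit 13242591)] (nat_lit 24191191)) p15_15_0 (nat_lit 4) (nat_lit 151) (nat_lit 152) = true := by decide +kernel
def p15_15_0_152 : pfC (piC [(nat_lit 41351667), (nat_lit 26450756), (nat_lit 19661130), (nat_lit 13242591)] (nat_lit 24191191)) p15_15_0 (nat_lit 4) (nat_lit 152) (nat_lit 153) = true := by decide +kernel
def p15_15_0_153 : pfC (piC [(nat_lit 41351667), (nat_lit 26450756), (nat_lit 19661130), (nat_lit 13242591)] (nat_lit 24191191)) p15_15_0 (nat_lit 4) (nat_lit 153) (nat_lit 154) = true := by decide +kernel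
def p15_15_0_154 : pfC (piC [(nat_lit 41351667), (nat_lit 26450756), (nat_lit 19661130), (nat_lit 13242591)] (nat_lit 24191191)) p15_15_0 (nat_lit 4) (nat_lit 154) (nat_lit 155) = true := by decide +kernel
def p15_15_0_155 : pfC (piC [(nat_lit 41351667), (nat_lit 26450756), (nat_lit 19661130), (nat_lit 13242591)] (nat_lit 24191191)) p15_15_0 (nat_lit 4) (nat_lit 155) (nat_lit 156) = true := by decide +kernel
def p15_15_0_156 : pfC (piC [(nat_lit 41351667), (nat_lit 26450756), (nat_lit 19661130), (nat_lit 13242591)] (nat_lit 24191191)) p15_15_0 (nat_lit 4) (nat_lit 156) (nat_lit 157) = true := by decide +kernel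
def p15_15_0_157 : pfC (piC [(nat_lit 41351667), (nat_lit 26450756), (nat_lit 19661130), (nat_lit 13242591)] (nat_lit 24191191)) p15_15_0 (nat_lit 4) (nat_lit 157) (nat_lit 158) = true := by decide +kernel
def p15_15_0_158 : pfC (piC [(nat_lit 41351667), (nat_lit 26450756), (nat_lit 19661130), (nat_lit 13242591)] (nat_lit 24191191)) p15_15_0 (nat_lit 4) (nat_lit 158) (nat_lit 159) = true := by decide +kernel
def p15_15_0_159 : pfC (piC [(nat_lit 41351667), (nat_lit 26450756), (nat_lit 19661130), (nat_lit 13242591)] (nat_lit 24191191)) p15_15_0 (nat_lit 4) (nat_lit 159) (nat_lit 160) = true := by decide +kernel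
def p15_15_0_160 : pfC (piC [(nat_lit 41351667), (nat_lit 26450756), (nat_lit 19661130), (nat_lit 13242591)] (nat_lit 24191191)) p15_15_0 (nat_lit 4) (nat_lit 160) (nat_lit 161) = true := by decide +kernel
def p15_15_0_161 : pfC (piC [(nat_lit 41351667), (nat_lit 26450756), (nat_lit 19661130), (nat_lit 13242591)] (nat_lit 24191191)) p15_15_0 (nat_lit 4) (nat_lit 161) (nat_lit 162) = true := by decide +kernel
def p15_15_0_162 : pfC (piC [(nat_lit 41351667), (nat_lit 26450756), (nat_lit 19661130), (nat_lit 13242591)] (nat_lit 24191191)) p15_15_0 (nat_lit 4) (nat_lit 162) (nat_lit 163) = true := by decide +kernel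
def p15_15_0_163 : pfC (piC [(nat_lit 41351667), (nat_lit 26450756), (nat_lit 19661130), (nat_lit 13242591)] (nat_lit 24191191)) p15_15_0 (nat_lit 4) (nat_lit 163) (nat_lit 164) = true := by decide +kernel
def p15_15_0_164 : pfC (piC [(nat_lit 41351667), (nat_lit 26450756), (nat_lit 19661130), (nat_lit 13242591)] (nat_lit 24191191)) p15_15_0 (nat_lit 4) (nat_lit 164) (nat_lit 165) = true := by decide +kernel
def p15_15_0_165 : pfC (piC [(nat_lit 41351667), (nat_lit 26450756), (nat_lit 19661130), (nat_lit 13242591)] (nat_lit 24191191)) p15_15_0 (nat_lit 4) (nat_lit 165) (nat_lit 166) = true := by decide +kernel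
def p15_15_0_166 : pfC (piC [(nat_lit 41351667), (nat_lit 26450756), (nat_lit 19661130), (nat_lit 13242591)] (nat_lit 24191191)) p15_15_0 (nat_lit 4) (nat_lit 166) (nat_lit 167) = true := by decide +kernel
def p15_15_0_167 : pfC (piC [(nat_lit 41351667), (nat_lit 26450756), (nat_lit 19661130), (nat_lit 13242591)] (nat_lit 24191191)) p15_15_0 (nat_lit 4) (nat_lit 167) (nat_lit 168) = true := by decide +kernel
theorem p15_15_0_T : PfS (PiF n15_15.reverse (nat_lit 24191191)) p15_15_0 (nat_lit 4) [] 0 :=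
  pftab_of (los := [(nat_lit 41351667), (nat_lit 26450756), (nat_lit 19661130), (nat_lit 13242591)]) (by decide +kernel) (hi := (nat_lit 168)) (PfP.trans (PfP.trans (PfP.trans (PfP.trans (PfP.trans (PfP.trans (PfP.trans (PfP.trans (PfP.trans (PfP.trans (PfP.trans (PfP.trans (PfP.trans (PfP.trans (PfP.trans (PfP.trans (PfP.trans (PfP.trans (PfP.trans (PfP.trans (PfP.trans (PfP.trans (PfP.trans (PfP.trans (PfP.trans (PfP.trans (PfP.trans (PfP.trans (PfP.trans (PfP.trans (PfP.trans (PfP.trans (PfP.trans (PfP.trans (PfP.trans (PfP.trans (PfP.trans (PfP.trans (PfP.trans (PfP.trans (PfP.trans (PfP.trans (PfP.trans (PfP.trans (PfP.trans (PfP.trans (PfP.trans (PfP.trans (PfP.trans (PfP.trans (PfP.trans (PfP.trans (PfP.trans (PfP.trans (PfP.trans (PfP.trans (PfP.trans (PfP.trans (PfP.trans (PfP.trans (PfP.trans (PfP.trans (PfP.trans (PfP.trans (PfP.trans (PfP.trans (PfP.trans (PfP.trans (PfP.trans (PfP.trans (PfP.trans (PfP.trans (PfP.trans (PfP.trans (PfP.trans (PfP.trans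 (PfP.trans (PfP.trans (PfP.trans (PfP.trans (PfP.trans (PfP.trans (PfP.trans (PfP.trans (PfP.trans (PfP.trans (PfP.trans (PfP.trans (PfP.trans (PfP.trans (PfP.trans (PfP.trans (PfP.trans (PfP.trans (PfP.trans (PfP.trans (PfP.trans (PfP.trans (PfP.trans (PfP.trans (PfP.trans (PfP.trans (PfP.trans (PfP.trans (PfP.trans (PfP.trans (PfP.trans (PfP.trans (PfP.trans
 (PfP.trans (PfP.trans (PfP.trans (PfP.trans (PfP.trans (PfP.trans (PfP.trans (PfP.trans (PfP.trans (PfP.trans (PfP.trans (PfP.trans (PfP.trans (PfP.trans (PfP.trans (PfP.trans (PfP.trans (PfP.trans (PfP.trans (PfP.trans (PfP.trans (PfP.trans (PfP.trans (PfP.trans (PfP.trans (PfP.trans (PfP.trans (PfP.trans (PfP.trans (PfP.trans (PfP.trans (PfP.trans (PfP.trans (PfP.trans (PfP.trans (PfP.trans (PfP.trans (PfP.trans (PfP.trans (PfP.trans (PfP.trans (PfP.trans (PfP.trans (PfP.trans (PfP.trans (PfP.trans (PfP.trans (PfP.trans (PfP.trans (PfP.trans (PfP.trans (PfP.trans (PfP.trans (PfP.trans (PfP.trans (PfP.trans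 (PfP.trans (PfP.trans (pfC_sound p15_15_0_0) (pfC_sound p15_15_0_1)) (pfC_sound p15_15_0_2)) (pfC_sound p15_15_0_3)) (pfC_sound p15_15_0_4)) (pfC_sound p15_15_0_5)) (pfC_sound p15_15_0_6)) (pfC_sound p15_15_0_7)) (pfC_sound p15_15_0_8)) (pfC_sound p15_15_0_9)) (pfC_sound p15_15_0_10)) (pfC_sound p15_15_0_11)) (pfC_sound p15_15_0_12)) (pfC_sound p15_15_0_13)) (pfC_sound p15_15_0_14)) (pfC_sound p15_15_0_15)) (pfC_sound p15_15_0_16)) (pfC_sound p15_15_0_17)) (pfC_sound p15_15_0_18)) (pfC_sound p15_15_0_19)) (pfC_sound p15_15_0_20)) (pfC_sound p15_15_0_21)) (pfC_sound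
 p15_15_0_22)) (pfC_sound p15_15_0_23)) (pfC_sound p15_15_0_24)) (pfC_sound p15_15_0_25)) (pfC_sound p15_15_0_26)) (pfC_sound p15_15_0_27)) (pfC_sound p15_15_0_28)) (pfC_sound p15_15_0_29)) (pfC_sound p15_15_0_30)) (pfC_sound p15_15_0_31)) (pfC_sound p15_15_0_32)) (pfC_sound p15_15_0_33)) (pfC_sound p15_15_0_34)) (pfC_sound p15_15_0_35)) (pfC_sound p15_15_0_36)) (pfC_sound p15_15_0_37)) (pfC_sound p15_15_0_38)) (pfC_sound p15_15_0_39)) (pfC_sound p15_15_0_40)) (pfC_sound p15_15_0_41)) (pfC_sound p15_15_0_42)) (pfC_sound p15_15_0_43)) (pfC_sound p15_15_0_44)) (pfC_sound p15_15_0_45)) (pfC_sound p15_15_0_46)) (pfC_sound p15_15_0_47)) (pfC_sound p15_15_0_48)) (pfC_sound p15_15_0_49)) (pfC_sound p15_15_0_50)) (pfC_sound p15_15_0_51)) (pfC_sound p15_15_0_52)) (pfC_sound p15_15_0_53)) (pfC_sound p15_15_0_54)) (pfC_sound p15_15_0_55)) (pfC_sound p15_15_0_56)) (pfC_sound p15_15_0_57)) (pfC_sound p15_15_0_58)) (pfC_sound p15_15_0_59)) (pfC_sound p15_15_0_60)) (pfC_sound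 p15_15_0_61)) (pfC_sound p15_15_0_62)) (pfC_sound p15_15_0_63)) (pfC_sound p15_15_0_64)) (pfC_sound p15_15_0_65)) (pfC_sound p15_15_0_66)) (pfC_sound p15_15_0_67)) (pfC_sound p15_15_0_68)) (pfC_sound p15_15_0_69)) (pfC_sound
 p15_15_0_70)) (pfC_sound p15_15_0_71)) (pfC_sound p15_15_0_72)) (pfC_sound p15_15_0_73)) (pfC_sound p15_15_0_74)) (pfC_sound p15_15_0_75)) (pfC_sound p15_15_0_76)) (pfC_sound p15_15_0_77)) (pfC_sound p15_15_0_78)) (pfC_sound p15_15_0_79)) (pfC_sound p15_15_0_80)) (pfC_sound p15_15_0_81)) (pfC_sound p15_15_0_82)) (pfC_sound p15_15_0_83)) (pfC_sound p15_15_0_84)) (pfC_sound p15_15_0_85)) (pfC_sound p15_15_0_86)) (pfC_sound p15_15_0_87)) (pfC_sound p15_15_0_88)) (pfC_sound p15_15_0_89)) (pfC_sound p15_15_0_90)) (pfC_sound p15_15_0_91)) (pfC_sound p15_15_0_92)) (pfC_sound p15_15_0_93)) (pfC_sound p15_15_0_94)) (pfC_sound p15_15_0_95)) (pfC_sound p15_15_0_96)) (pfC_sound p15_15_0_97)) (pfC_sound p15_15_0_98)) (pfC_sound p15_15_0_99)) (pfC_sound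 p15_15_0_100)) (pfC_sound p15_15_0_101)) (pfC_sound p15_15_0_102)) (pfC_sound p15_15_0_103)) (pfC_sound p15_15_0_104)) (pfC_sound p15_15_0_105)) (pfC_sound p15_15_0_106)) (pfC_sound p15_15_0_107)) (pfC_sound p15_15_0_108)) (pfC_sound p15_15_0_109)) (pfC_sound p15_15_0_110)) (pfC_sound p15_15_0_111)) (pfC_sound p15_15_0_112)) (pfC_sound p15_15_0_113)) (pfC_sound p15_15_0_114)) (pfC_sound p15_15_0_115)) (pfC_sound p15_15_0_116)) (pfC_sound
 p15_15_0_117)) (pfC_sound p15_15_0_118)) (pfC_sound p15_15_0_119)) (pfC_sound p15_15_0_120)) (pfC_sound p15_15_0_121)) (pfC_sound p15_15_0_122)) (pfC_sound p15_15_0_123)) (pfC_sound p15_15_0_124)) (pfC_sound p15_15_0_125)) (pfC_sound p15_15_0_126)) (pfC_sound p15_15_0_127)) (pfC_sound p15_15_0_128)) (pfC_sound p15_15_0_129)) (pfC_sound p15_15_0_130)) (pfC_sound p15_15_0_131)) (pfC_sound p15_15_0_132)) (pfC_sound p15_15_0_133)) (pfC_sound p15_15_0_134)) (pfC_sound p15_15_0_135)) (pfC_sound p15_15_0_136)) (pfC_sound p15_15_0_137))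 (pfC_sound p15_15_0_138)) (pfC_sound p15_15_0_139)) (pfC_sound p15_15_0_140)) (pfC_sound p15_15_0_141)) (pfC_sound p15_15_0_142)) (pfC_sound p15_15_0_143)) (pfC_sound p15_15_0_144)) (pfC_sound p15_15_0_145)) (pfC_sound p15_15_0_146)) (pfC_sound p15_15_0_147)) (pfC_sound p15_15_0_148)) (pfC_sound p15_15_0_149)) (pfC_sound p15_15_0_150)) (pfC_sound p15_15_0_151)) (pfC_sound p15_15_0_152)) (pfC_sound p15_15_0_153)) (pfC_sound p15_15_0_154)) (pfC_sound p15_15_0_155)) (pfC_sound p15_15_0_156)) (pfC_sound p15_15_0_157)) (pfC_sound p15_15_0_158)) (pfC_sound p15_15_0_159)) (pfC_sound p15_15_0_160)) (pfC_sound p15_15_0_161)) (pfC_sound p15_15_0_162)) (pfC_sound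
 p15_15_0_163)) (pfC_sound p15_15_0_164)) (pfC_sound p15_15_0_165)) (pfC_sound p15_15_0_166)) (pfC_sound p15_15_0_167)) (by decide +kernel)

def z15_15_0 : zOK yB15_15 (nat_lit 0) (nat_lit 0) (nat_lit 400) (nat_lit 24191191) (nat_lit 10216514) = true := by decide +kernel
def g15_15_0 : gOK yB15_15.x P15_15 (nat_lit 1426) (q15_15 :: r15_15) (nat_lit 0) (nat_lit 0) (nat_lit 1) (nat_lit 400) (nat_lit 0) (nat_lit 11000000) (nat_lit 12712500) (nat_lit 12712500) [(nat_lit 800), (nat_lit 1400), (nat_lit 1530)] = true := by decide +kernel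
def v15_15_0 : ivC P15_15 s15_15 w15_15 n15_15 (nat_lit 4) (nat_lit 5450) (nat_lit 0) (nat_lit 0) f144_1_0 f152_1_0 (nat_lit 1) (nat_lit 400) f144_1_400 f152_1_400 (nat_lit 24191191) (nat_lit 10216514) p15_15_0 = true := by decide +kernel
def p15_15_1 : PF := (PF.cons (PF.cons (PF.cons (PF.cons (PF.leaf (nat_lit 2170438) (nat_lit 10513200) (nat_lit 56595612) (nat_lit 10513200) [(nat_lit 0), (nat_lit 0), (nat_lit 0), (nat_lit 0)]) (PF.cons (PF.leaf (nat_lit 2303785) (nat_lit 220804) (nat_lit 56359681) (nat_lit 10528326) [(nat_lit 220804), (nat_lit 0), (nat_lit 0), (nat_lit 0)]) (PF.cons (PF.leaf (nat_lit 2463499) (nat_lit 240468) (nat_lit 56083063) (nat_lit 10544813) [(nat_lit 240468), (nat_lit 0), (nat_lit 0), (nat_lit 0)]) (PF.cons (PF.leaf (nat_lit 2643133) (nat_lit 258051) (nat_lit 55772898) (nat_lit 10561758) [(nat_lit 258051), (nat_lit 0), (nat_lit 0), (nat_lit 0)]) (PF.cons (PF.leaf (nat_lit 2840169) (nat_lit 274034) (nat_lit 55434205) (nat_lit 10578469)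 [(nat_lit 274034), (nat_lit 0), (nat_lit 0), (nat_lit 0)]) (PF.cons (PF.leaf (nat_lit 3052576) (nat_lit 288718) (nat_lit 55070831) (nat_lit 10594387) [(nat_lit 288718), (nat_lit 0), (nat_lit 0), (nat_lit 0)]) (PF.cons (PF.leaf (nat_lit 3278666) (nat_lit 302309) (nat_lit 54685900) (nat_lit 10609056) [(nat_lit 302309), (nat_lit 0), (nat_lit 0), (nat_lit 0)]) (PF.cons PF.nil (PF.cons PF.nil PF.nil))))))))) (PF.cons (PF.cons (PF.leaf (nat_lit 2678912) (nat_lit 1131949) (nat_lit
 55402075) (nat_lit 10574788) [(nat_lit 0), (nat_lit 1131949), (nat_lit 0), (nat_lit 0)]) (PF.cons (PF.leaf (nat_lit 2854975) (nat_lit 269856) (nat_lit 55090892) (nat_lit 10588336) [(nat_lit 269856), (nat_lit 1159727), (nat_lit 0), (nat_lit 0)]) (PF.cons (PF.leaf (nat_lit 3050970) (nat_lit 285198) (nat_lit 54749609) (nat_lit 10601508) [(nat_lit 285198), (nat_lit 1187298), (nat_lit 0), (nat_lit 0)]) (PF.cons (PF.leaf (nat_lit 3262849) (nat_lit 299230) (nat_lit 54383165) (nat_lit 10613748) [(nat_lit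 299230), (nat_lit 1214207), (nat_lit 0), (nat_lit 0)]) (PF.cons (PF.leaf (nat_lit 3488650) (nat_lit 312183) (nat_lit 53995248) (nat_lit 10624621) [(nat_lit 312183), (nat_lit 1240207), (nat_lit 0), (nat_lit 0)]) (PF.cons (PF.leaf (nat_lit 3726804) (nat_lit 324213) (nat_lit 53588798) (nat_lit 10633784) [(nat_lit 324213), (nat_lit 1265159), (nat_lit 0), (nat_lit 0)]) (PF.cons PF.nil PF.nil))))))) (PF.cons (PF.cons (PF.leaf (nat_lit 3266537) (nat_lit 1222393) (nat_lit 54045900) (nat_lit 10618125) [(nat_lit 0), (nat_lit 1222393), (nat_lit 0), (nat_lit 0)]) (PF.cons (PF.leaf (nat_lit 3475113) (nat_lit 308400) (nat_lit 53680811) (nat_lit 10626688) [(nat_lit 308400), (nat_lit 1246456), (nat_lit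
 0), (nat_lit 0)]) (PF.cons (PF.leaf (nat_lit 3699324) (nat_lit 320895) (nat_lit 53293370) (nat_lit 10633820) [(nat_lit 320895), (nat_lit 1269915), (nat_lit 0), (nat_lit 0)]) (PF.cons (PF.leaf (nat_lit 3936183) (nat_lit 332446) (nat_lit 52887154) (nat_lit 10639196) [(nat_lit 332446), (nat_lit 1292561), (nat_lit 0), (nat_lit 0)]) (PF.cons PF.nil PF.nil))))) (PF.cons (PF.cons (PF.leaf (nat_lit 3912334) (nat_lit 1296960) (nat_lit 52581196) (nat_lit 10636734) [(nat_lit 0), (nat_lit 1296960), (nat_lit 0), (nat_lit 0)]) (PF.cons (PF.leaf (nat_lit 4145909) (nat_lit 339707) (nat_lit 52178211) (nat_lit 10638478) [(nat_lit 339707), (nat_lit 1317472), (nat_lit 0), (nat_lit 0)]) (PF.cons (PF.leaf (nat_lit 4391854) (nat_lit 350063) (nat_lit 51758794) (nat_lit 10638213) [(nat_lit 350063), (nat_lit 1337226), (nat_lit 0), (nat_lit 0)]) (PF.cons PF.nil PF.nil)))) (PF.cons (PF.cons (PF.leaf (nat_lit 4600165) (nat_lit 1358064) (nat_lit 51048463) (nat_lit 10628092) [(nat_lit 0), (nat_lit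 1358064), (nat_lit 0), (nat_lit 0)]) (PF.cons PF.nil PF.nil)) (PF.cons PF.nil PF.nil)))))) (PF.cons (PF.cons (PF.cons (PF.leaf (nat_lit 3240164) (nat_lit 3079346) (nat_lit 53424969) (nat_lit 10604496) [(nat_lit 0),
 (nat_lit 0), (nat_lit 3079346), (nat_lit 0)]) (PF.cons (PF.leaf (nat_lit 3426308) (nat_lit 292444) (nat_lit 53101183) (nat_lit 10609963) [(nat_lit 292444), (nat_lit 0), (nat_lit 3105221), (nat_lit 0)]) (PF.cons (PF.leaf (nat_lit 3631522) (nat_lit 306991) (nat_lit 52748883) (nat_lit 10614363) [(nat_lit 306991), (nat_lit 0), (nat_lit 3131583), (nat_lit 0)]) (PF.cons (PF.leaf (nat_lit 3851718) (nat_lit 320101) (nat_lit 52373371) (nat_lit 10617323) [(nat_lit 320101), (nat_lit 0), (nat_lit 3157813), (nat_lit 0)]) (PF.cons (PF.leaf (nat_lit 4084810) (nat_lit 332057) (nat_lit 51978526) (nat_lit 10618563) [(nat_lit 332057), (nat_lit 0), (nat_lit 3183492), (nat_lit 0)]) (PF.cons PF.nil (PF.cons PF.nil PF.nil))))))) (PF.cons (PF.cons (PF.leaf (nat_lit 3844990)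 (nat_lit 1283744) (nat_lit 52041436) (nat_lit 10613506) [(nat_lit 0), (nat_lit 1283744), (nat_lit 3170126), (nat_lit 0)]) (PF.cons (PF.leaf (nat_lit 4060675) (nat_lit 327275) (nat_lit 51670822) (nat_lit 10613247) [(nat_lit 327275), (nat_lit 1304218), (nat_lit 3193248), (nat_lit 0)]) (PF.cons (PF.leaf (nat_lit 4291030) (nat_lit 338894) (nat_lit 51279745) (nat_lit 10611225) [(nat_lit 338894), (nat_lit 1324057), (nat_lit 3215995),
 (nat_lit 0)]) (PF.cons (PF.leaf (nat_lit 4533079) (nat_lit 349514) (nat_lit 50871880) (nat_lit 10607248) [(nat_lit 349514), (nat_lit 1343101), (nat_lit 3238038), (nat_lit 0)]) (PF.cons PF.nil PF.nil))))) (PF.cons (PF.cons (PF.leaf (nat_lit 4499114) (nat_lit 1345288) (nat_lit 50575024) (nat_lit 10598323) [(nat_lit 0), (nat_lit 1345288), (nat_lit 3244888), (nat_lit 0)]) (PF.cons (PF.leaf (nat_lit 4736983) (nat_lit 355140) (nat_lit 50173027) (nat_lit 10591291) [(nat_lit 355140), (nat_lit 1362535), (nat_lit 3264283), (nat_lit 0)]) (PF.cons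 PF.nil (PF.cons PF.nil PF.nil)))) (PF.cons (PF.cons (PF.leaf (nat_lit 5187588) (nat_lit 1395082) (nat_lit 49061806) (nat_lit 10558234) [(nat_lit 0), (nat_lit 1395082), (nat_lit 3303524), (nat_lit 0)]) (PF.cons PF.nil PF.nil)) (PF.cons PF.nil PF.nil))))) (PF.cons (PF.cons (PF.cons (PF.leaf (nat_lit 4414910) (nat_lit 3235822) (nat_lit 50070738) (nat_lit 10566428) [(nat_lit 0), (nat_lit 0), (nat_lit 3235822), (nat_lit 0)]) (PF.cons (PF.leaf (nat_lit 4635415) (nat_lit 342491) (nat_lit 49700382) (nat_lit 10558455) [(nat_lit 342491), (nat_lit 0), (nat_lit 3253741), (nat_lit 0)]) (PF.cons (PF.leaf (nat_lit 4869725) (nat_lit 353303) (nat_lit 49311317)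
 (nat_lit 10548516) [(nat_lit 353303), (nat_lit 0), (nat_lit 3271186), (nat_lit 0)]) (PF.cons (PF.leaf (nat_lit 5114878) (nat_lit 363080) (nat_lit 48907235) (nat_lit 10536534) [(nat_lit 363080), (nat_lit 0), (nat_lit 3287901), (nat_lit 0)]) (PF.cons PF.nil PF.nil))))) (PF.cons (PF.cons (PF.leaf (nat_lit 5071736) (nat_lit 1381548) (nat_lit 48621970) (nat_lit 10522498) [(nat_lit 0), (nat_lit 1381548), (nat_lit 3291397), (nat_lit 0)]) (PF.cons (PF.leaf (nat_lit 5311988) (nat_lit 367331) (nat_lit 48225642) (nat_lit 10508041) [(nat_lit 367331), (nat_lit 1396005), (nat_lit 3305895), (nat_lit 0)]) (PF.cons PF.nil (PF.cons PF.nil PF.nil)))) (PF.cons (PF.cons (PF.leaf (nat_lit 5756569) (nat_lit 1421806) (nat_lit 47142979) (nat_lit 10456381) [(nat_lit 0), (nat_lit 1421806), (nat_lit 3332918), (nat_lit 0)]) (PF.cons PF.nil PF.nil)) PF.nil))) (PF.cons (PF.cons (PF.cons (PF.leaf (nat_lit 5627976) (nat_lit 3318764) (nat_lit 46735846) (nat_lit 10416672) [(nat_lit 0), (nat_lit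 0), (nat_lit 3318764), (nat_lit 0)]) (PF.cons (PF.leaf (nat_lit 5869090) (nat_lit 376793) (nat_lit 46348548) (nat_lit 10396062) [(nat_lit 376793), (nat_lit 0), (nat_lit 3329136), (nat_lit 0)]) PF.nil)) (PF.cons PF.nil
 PF.nil)) (PF.cons PF.nil (PF.cons PF.nil PF.nil)))))) (PF.cons (PF.cons (PF.cons (PF.cons (PF.leaf (nat_lit 4220498) (nat_lit 8490506) (nat_lit 48252107) (nat_lit 10366199) [(nat_lit 0), (nat_lit 0), (nat_lit 0), (nat_lit 8490506)]) (PF.cons (PF.leaf (nat_lit 4407189) (nat_lit 306043) (nat_lit 47954384) (nat_lit 10357885) [(nat_lit 306043), (nat_lit 0), (nat_lit 0), (nat_lit 8490499)]) (PF.cons (PF.leaf (nat_lit 4611737) (nat_lit 319888) (nat_lit 47631870) (nat_lit 10347781) [(nat_lit 319888), (nat_lit 0), (nat_lit 0), (nat_lit 8489383)]) (PF.cons (PF.leaf (nat_lit 4830030) (nat_lit 332128) (nat_lit 47289610) (nat_lit 10335840) [(nat_lit 332128), (nat_lit 0), (nat_lit 0), (nat_lit 8486976)]) (PF.cons (PF.leaf (nat_lit 5059948) (nat_lit 343094) (nat_lit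 46931269) (nat_lit 10322021) [(nat_lit 343094), (nat_lit 0), (nat_lit 0), (nat_lit 8483141)]) (PF.cons (PF.leaf (nat_lit 5299894) (nat_lit 353012) (nat_lit 46559670) (nat_lit 10306297) [(nat_lit 353012), (nat_lit 0), (nat_lit 0), (nat_lit 8477783)]) (PF.cons PF.nil PF.nil))))))) (PF.cons (PF.cons (PF.leaf (nat_lit 4810904) (nat_lit 1315723) (nat_lit 46993994) (nat_lit 10320135) [(nat_lit 0), (nat_lit 1315723), (nat_lit 0), (nat_lit
 8478959)]) (PF.cons (PF.leaf (nat_lit 5023669) (nat_lit 337278) (nat_lit 46658544) (nat_lit 10306243) [(nat_lit 337278), (nat_lit 1332298), (nat_lit 0), (nat_lit 8474447)]) (PF.cons (PF.leaf (nat_lit 5249763) (nat_lit 347955) (nat_lit 46305890) (nat_lit 10290411) [(nat_lit 347955), (nat_lit 1348108), (nat_lit 0), (nat_lit 8468490)]) (PF.cons (PF.leaf (nat_lit 5486357) (nat_lit 357553) (nat_lit 45939433) (nat_lit 10272651) [(nat_lit 357553), (nat_lit 1363053), (nat_lit 0), (nat_lit 8461012)]) (PF.cons (PF.leaf (nat_lit 5731906) (nat_lit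 366254) (nat_lit 45561762) (nat_lit 10252976) [(nat_lit 366254), (nat_lit 1377093), (nat_lit 0), (nat_lit 8451962)]) PF.nil))))) (PF.cons (PF.cons (PF.leaf (nat_lit 5440943) (nat_lit 1362569) (nat_lit 45678487) (nat_lit 10254974) [(nat_lit 0), (nat_lit 1362569), (nat_lit 0), (nat_lit 8450212)]) (PF.cons (PF.leaf (nat_lit 5672580) (nat_lit 361361) (nat_lit 45319196) (nat_lit 10235422) [(nat_lit 361361), (nat_lit 1376010), (nat_lit 0), (nat_lit 8440811)]) (PF.cons (PF.leaf (nat_lit 5914428) (nat_lit 369827) (nat_lit 44947998) (nat_lit 10213938) [(nat_lit 369827), (nat_lit 1388686), (nat_lit 0), (nat_lit 8429848)]) (PF.cons PF.nil PF.nil)))) (PF.cons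
 (PF.cons (PF.leaf (nat_lit 6097206) (nat_lit 1398915) (nat_lit 44335776) (nat_lit 10171661) [(nat_lit 0), (nat_lit 1398915), (nat_lit 0), (nat_lit 8404626)]) (PF.cons (PF.leaf (nat_lit 6342463) (nat_lit 380269) (nat_lit 43962545) (nat_lit 10146715) [(nat_lit 380269), (nat_lit 1409629), (nat_lit 0), (nat_lit 8390392)]) PF.nil)) (PF.cons PF.nil (PF.cons PF.nil PF.nil)))))) (PF.cons (PF.cons (PF.cons (PF.leaf (nat_lit 5337846) (nat_lit 3229156) (nat_lit 45249025) (nat_lit 10212484) [(nat_lit 0), (nat_lit 0), (nat_lit 3229156), (nat_lit 8418146)]) (PF.cons (PF.leaf (nat_lit 5553174) (nat_lit 348058) (nat_lit 44918226) (nat_lit 10193586) [(nat_lit 348058), (nat_lit 0), (nat_lit 3240202), (nat_lit 8408738)]) (PF.cons (PF.leaf (nat_lit 5781105) (nat_lit 357974) (nat_lit 44571709) (nat_lit 10172681) [(nat_lit 357974), (nat_lit 0), (nat_lit 3250672), (nat_lit 8397801)]) (PF.cons (PF.leaf (nat_lit 6018797) (nat_lit 366803) (nat_lit 44212810) (nat_lit 10149853) [(nat_lit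 366803), (nat_lit 0), (nat_lit 3260408), (nat_lit 8385328)]) (PF.cons PF.nil PF.nil))))) (PF.cons (PF.cons (PF.leaf (nat_lit 5965837) (nat_lit 1383728) (nat_lit 43964352) (nat_lit 10129385) [(nat_lit 0), (nat_lit 1383728),
 (nat_lit 3259699), (nat_lit 8371646)]) (PF.cons (PF.leaf (nat_lit 6198135) (nat_lit 369528) (nat_lit 43613696) (nat_lit 10105199) [(nat_lit 369528), (nat_lit 1394930), (nat_lit 3267800), (nat_lit 8357657)]) (PF.cons (PF.leaf (nat_lit 6439943) (nat_lit 377300) (nat_lit 43252383) (nat_lit 10079130) [(nat_lit 377300), (nat_lit 1405410), (nat_lit 3275153), (nat_lit 8342135)]) (PF.cons PF.nil PF.nil)))) (PF.cons (PF.cons (PF.leaf (nat_lit 6615425) (nat_lit 1412699) (nat_lit 42663514) (nat_lit 10030405) [(nat_lit 0), (nat_lit 1412699), (nat_lit 3279137), (nat_lit 8310356)]) (PF.cons PF.nil PF.nil)) (PF.cons PF.nil (PF.cons PF.nil PF.nil))))) (PF.cons (PF.cons (PF.cons (PF.leaf (nat_lit 6474526) (nat_lit 3262377) (nat_lit 42321057) (nat_lit 9987034)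 [(nat_lit 0), (nat_lit 0), (nat_lit 3262377), (nat_lit 8275966)]) (PF.cons (PF.leaf (nat_lit 6706428) (nat_lit 375649) (nat_lit 41980843) (nat_lit 9959102) [(nat_lit 375649), (nat_lit 0), (nat_lit 3267501), (nat_lit 8258213)]) (PF.cons PF.nil (PF.cons PF.nil PF.nil)))) (PF.cons (PF.cons (PF.leaf (nat_lit 7115481) (nat_lit 1420485) (nat_lit 41066976) (nat_lit 9875694) [(nat_lit 0), (nat_lit 1420485), (nat_lit 3271800), (nat_lit 8202055)])
 (PF.cons PF.nil PF.nil)) (PF.cons PF.nil PF.nil))) (PF.cons (PF.cons (PF.cons (PF.leaf (nat_lit 7597473) (nat_lit 3255842) (nat_lit 39546960) (nat_lit 9711185) [(nat_lit 0), (nat_lit 0), (nat_lit 3255842), (nat_lit 8083139)]) (PF.cons PF.nil PF.nil)) (PF.cons PF.nil PF.nil)) (PF.cons PF.nil PF.nil))))) (PF.cons (PF.cons (PF.cons (PF.cons (PF.leaf (nat_lit 6154461) (nat_lit 8110638) (nat_lit 41098679) (nat_lit 9788856) [(nat_lit 0), (nat_lit 0), (nat_lit 0), (nat_lit 8110638)]) (PF.cons (PF.leaf (nat_lit 6363173) (nat_lit 347757)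 (nat_lit 40806362) (nat_lit 9764250) [(nat_lit 347757), (nat_lit 0), (nat_lit 0), (nat_lit 8095221)]) (PF.cons (PF.leaf (nat_lit 6583564) (nat_lit 356907) (nat_lit 40500712) (nat_lit 9737700) [(nat_lit 356907), (nat_lit 0), (nat_lit 0), (nat_lit 8078292)]) (PF.cons (PF.leaf (nat_lit 6812828) (nat_lit 364954) (nat_lit 40184692) (nat_lit 9709381) [(nat_lit 364954), (nat_lit 0), (nat_lit 0), (nat_lit 8059937)]) (PF.cons PF.nil PF.nil))))) (PF.cons (PF.cons (PF.leaf (nat_lit 6753117) (nat_lit 1366770) (nat_lit 39969638) (nat_lit 9686145) [(nat_lit 0), (nat_lit 1366770), (nat_lit 0), (nat_lit 8043128)]) (PF.cons (PF.leaf (nat_lit 6976728) (nat_lit 366609)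
 (nat_lit 39661560) (nat_lit 9657170) [(nat_lit 366609), (nat_lit 1375631), (nat_lit 0), (nat_lit 8023920)]) (PF.cons (PF.leaf (nat_lit 7209071) (nat_lit 373641) (nat_lit 39344571) (nat_lit 9626508) [(nat_lit 373641), (nat_lit 1383788), (nat_lit 0), (nat_lit 8003331)]) (PF.cons PF.nil PF.nil)))) (PF.cons (PF.cons (PF.leaf (nat_lit 7369104) (nat_lit 1387890) (nat_lit 38831803) (nat_lit 9571831) [(nat_lit 0), (nat_lit 1387890), (nat_lit 0), (nat_lit 7964697)]) (PF.cons PF.nil PF.nil)) (PF.cons PF.nil (PF.cons PF.nil PF.nil))))) (PF.cons (PF.cons (PF.cons (PF.leaf (nat_lit 7220955) (nat_lit 3176957) (nat_lit 38543705) (nat_lit 9528657) [(nat_lit 0), (nat_lit 0), (nat_lit 3176957), (nat_lit 7929746)]) (PF.cons (PF.leaf (nat_lit 7443530) (nat_lit 370484) (nat_lit 38245866) (nat_lit 9497433) [(nat_lit 370484), (nat_lit 0), (nat_lit 3178705), (nat_lit 7908161)]) (PF.cons (PF.leaf (nat_lit 7674333) (nat_lit 376971) (nat_lit 37939968) (nat_lit 9464599) [(nat_lit 376971),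 (nat_lit 0), (nat_lit 3179797), (nat_lit 7885252)]) (PF.cons PF.nil PF.nil)))) (PF.cons (PF.cons (PF.leaf (nat_lit 7827765) (nat_lit 1389050) (nat_lit 37449899) (nat_lit 9407334) [(nat_lit 0), (nat_lit 1389050), (nat_lit
 3175184), (nat_lit 7843671)]) (PF.cons PF.nil PF.nil)) (PF.cons PF.nil PF.nil))) (PF.cons (PF.cons (PF.cons (PF.leaf (nat_lit 8270434) (nat_lit 3150175) (nat_lit 36135590) (nat_lit 9238516) [(nat_lit 0), (nat_lit 0), (nat_lit 3150175), (nat_lit 7717177)]) (PF.cons PF.nil PF.nil)) (PF.cons PF.nil PF.nil)) PF.nil))) (PF.cons (PF.cons (PF.cons (PF.cons (PF.leaf (nat_lit 7887385) (nat_lit 7577042) (nat_lit 35304978) (nat_lit 9072705) [(nat_lit 0), (nat_lit 0), (nat_lit 0), (nat_lit 7577042)]) (PF.cons (PF.leaf (nat_lit 8100910) (nat_lit 363032) (nat_lit 35043939) (nat_lit 9040483) [(nat_lit 363032), (nat_lit 0), (nat_lit 0), (nat_lit 7553785)]) (PF.cons PF.nil PF.nil))) (PF.cons (PF.cons (PF.leaf (nat_lit 8463181) (nat_lit 1351464) (nat_lit 34349171)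 (nat_lit 8949303) [(nat_lit 0), (nat_lit 1351464), (nat_lit 0), (nat_lit 7486291)]) PF.nil) PF.nil)) (PF.cons PF.nil PF.nil)) (PF.cons PF.nil (PF.cons PF.nil (PF.cons PF.nil (PF.cons PF.nil PF.nil))))))))

def p15_15_1_0 : pfC (piC [(nat_lit 41351667), (nat_lit 26450756), (nat_lit 19661130), (nat_lit 13242591)] (nat_lit 10216514)) p15_15_1 (nat_lit 4) (nat_lit 0) (nat_lit 1) = true := by decide +kernel
def p15_15_1_1 : pfC (piC [(nat_lit 41351667), (nat_lit 26450756), (nat_lit 19661130), (nat_lit 13242591)] (nat_lit 10216514)) p15_15_1 (nat_lit 4) (nat_lit 1) (nat_lit 2) = true := by decide +kernel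
def p15_15_1_2 : pfC (piC [(nat_lit 41351667), (nat_lit 26450756), (nat_lit 19661130), (nat_lit 13242591)] (nat_lit 10216514)) p15_15_1 (nat_lit 4) (nat_lit 2) (nat_lit 3) = true := by decide +kernel
def p15_15_1_3 : pfC (piC [(nat_lit 41351667), (nat_lit 26450756), (nat_lit 19661130), (nat_lit 13242591)] (nat_lit 10216514)) p15_15_1 (nat_lit 4) (nat_lit 3) (nat_lit 4) = true := by decide +kernel
def p15_15_1_4 : pfC (piC [(nat_lit 41351667), (nat_lit 26450756), (nat_lit 19661130), (nat_lit 13242591)] (nat_lit 10216514)) p15_15_1 (nat_lit 4) (nat_lit 4) (nat_lit 5) = true := by decide +kernel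
def p15_15_1_5 : pfC (piC [(nat_lit 41351667), (nat_lit 26450756), (nat_lit 19661130), (nat_lit 13242591)] (nat_lit 10216514)) p15_15_1 (nat_lit 4) (nat_lit 5) (nat_lit 6) = true := by decide +kernel
def p15_15_1_6 : pfC (piC [(nat_lit 41351667), (nat_lit 26450756), (nat_lit 19661130), (nat_lit 13242591)] (nat_lit 10216514)) p15_15_1 (nat_lit 4) (nat_lit 6) (nat_lit 7) = true := by decide +kernel
def p15_15_1_7 : pfC (piC [(nat_lit 41351667), (nat_lit 26450756), (nat_lit 19661130), (nat_lit 13242591)] (nat_lit 10216514)) p15_15_1 (nat_lit 4) (nat_lit 7) (nat_lit 8) = true := by decide +kernel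
def p15_15_1_8 : pfC (piC [(nat_lit 41351667), (nat_lit 26450756), (nat_lit 19661130), (nat_lit 13242591)] (nat_lit 10216514)) p15_15_1 (nat_lit 4) (nat_lit 8) (nat_lit 9) = true := by decide +kernel
def p15_15_1_9 : pfC (piC [(nat_lit 41351667), (nat_lit 26450756), (nat_lit 19661130), (nat_lit 13242591)] (nat_lit 10216514)) p15_15_1 (nat_lit 4) (nat_lit 9) (nat_lit 10) = true := by decide +kernel
def p15_15_1_10 : pfC (piC [(nat_lit 41351667), (nat_lit 26450756), (nat_lit 19661130), (nat_lit 13242591)] (nat_lit 10216514)) p15_15_1 (nat_lit 4) (nat_lit 10) (nat_lit 11) = true := by decide +kernel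
def p15_15_1_11 : pfC (piC [(nat_lit 41351667), (nat_lit 26450756), (nat_lit 19661130), (nat_lit 13242591)] (nat_lit 10216514)) p15_15_1 (nat_lit 4) (nat_lit 11) (nat_lit 12) = true := by decide +kernel
def p15_15_1_12 : pfC (piC [(nat_lit 41351667), (nat_lit 26450756), (nat_lit 19661130), (nat_lit 13242591)] (nat_lit 10216514)) p15_15_1 (nat_lit 4) (nat_lit 12) (nat_lit 13) = true := by decide +kernel
def p15_15_1_13 : pfC (piC [(nat_lit 41351667), (nat_lit 26450756), (nat_lit 19661130), (nat_lit 13242591)] (nat_lit 10216514)) p15_15_1 (nat_lit 4) (nat_lit 13) (nat_lit 14) = true := by decide +kernel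
def p15_15_1_14 : pfC (piC [(nat_lit 41351667), (nat_lit 26450756), (nat_lit 19661130), (nat_lit 13242591)] (nat_lit 10216514)) p15_15_1 (nat_lit 4) (nat_lit 14) (nat_lit 15) = true := by decide +kernel
def p15_15_1_15 : pfC (piC [(nat_lit 41351667), (nat_lit 26450756), (nat_lit 19661130), (nat_lit 13242591)] (nat_lit 10216514)) p15_15_1 (nat_lit 4) (nat_lit 15) (nat_lit 16) = true := by decide +kernel
def p15_15_1_16 : pfC (piC [(nat_lit 41351667), (nat_lit 26450756), (nat_lit 19661130), (nat_lit 13242591)] (nat_lit 10216514)) p15_15_1 (nat_lit 4) (nat_lit 16) (nat_lit 17) = true := by decide +kernel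
def p15_15_1_17 : pfC (piC [(nat_lit 41351667), (nat_lit 26450756), (nat_lit 19661130), (nat_lit 13242591)] (nat_lit 10216514)) p15_15_1 (nat_lit 4) (nat_lit 17) (nat_lit 18) = true := by decide +kernel
def p15_15_1_18 : pfC (piC [(nat_lit 41351667), (nat_lit 26450756), (nat_lit 19661130), (nat_lit 13242591)] (nat_lit 10216514)) p15_15_1 (nat_lit 4) (nat_lit 18) (nat_lit 19) = true := by decide +kernel
def p15_15_1_19 : pfC (piC [(nat_lit 41351667), (nat_lit 26450756), (nat_lit 19661130), (nat_lit 13242591)] (nat_lit 10216514)) p15_15_1 (nat_lit 4) (nat_lit 19) (nat_lit 20) = true := by decide +kernel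
def p15_15_1_20 : pfC (piC [(nat_lit 41351667), (nat_lit 26450756), (nat_lit 19661130), (nat_lit 13242591)] (nat_lit 10216514)) p15_15_1 (nat_lit 4) (nat_lit 20) (nat_lit 21) = true := by decide +kernel
def p15_15_1_21 : pfC (piC [(nat_lit 41351667), (nat_lit 26450756), (nat_lit 19661130), (nat_lit 13242591)] (nat_lit 10216514)) p15_15_1 (nat_lit 4) (nat_lit 21) (nat_lit 22) = true := by decide +kernel
def p15_15_1_22 : pfC (piC [(nat_lit 41351667), (nat_lit 26450756), (nat_lit 19661130), (nat_lit 13242591)] (nat_lit 10216514)) p15_15_1 (nat_lit 4) (nat_lit 22) (nat_lit 23) = true := by decide +kernel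
def p15_15_1_23 : pfC (piC [(nat_lit 41351667), (nat_lit 26450756), (nat_lit 19661130), (nat_lit 13242591)] (nat_lit 10216514)) p15_15_1 (nat_lit 4) (nat_lit 23) (nat_lit 24) = true := by decide +kernel
def p15_15_1_24 : pfC (piC [(nat_lit 41351667), (nat_lit 26450756), (nat_lit 19661130), (nat_lit 13242591)] (nat_lit 10216514)) p15_15_1 (nat_lit 4) (nat_lit 24) (nat_lit 25) = true := by decide +kernel
def p15_15_1_25 : pfC (piC [(nat_lit 41351667), (nat_lit 26450756), (nat_lit 19661130), (nat_lit 13242591)] (nat_lit 10216514)) p15_15_1 (nat_lit 4) (nat_lit 25) (nat_lit 26) = true := by decide +kernel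
def p15_15_1_26 : pfC (piC [(nat_lit 41351667), (nat_lit 26450756), (nat_lit 19661130), (nat_lit 13242591)] (nat_lit 10216514)) p15_15_1 (nat_lit 4) (nat_lit 26) (nat_lit 27) = true := by decide +kernel
def p15_15_1_27 : pfC (piC [(nat_lit 41351667), (nat_lit 26450756), (nat_lit 19661130), (nat_lit 13242591)] (nat_lit 10216514)) p15_15_1 (nat_lit 4) (nat_lit 27) (nat_lit 28) = true := by decide +kernel
def p15_15_1_28 : pfC (piC [(nat_lit 41351667), (nat_lit 26450756), (nat_lit 19661130), (nat_lit 13242591)] (nat_lit 10216514)) p15_15_1 (nat_lit 4) (nat_lit 28) (nat_lit 29) = true := by decide +kernel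
def p15_15_1_29 : pfC (piC [(nat_lit 41351667), (nat_lit 26450756), (nat_lit 19661130), (nat_lit 13242591)] (nat_lit 10216514)) p15_15_1 (nat_lit 4) (nat_lit 29) (nat_lit 30) = true := by decide +kernel
def p15_15_1_30 : pfC (piC [(nat_lit 41351667), (nat_lit 26450756), (nat_lit 19661130), (nat_lit 13242591)] (nat_lit 10216514)) p15_15_1 (nat_lit 4) (nat_lit 30) (nat_lit 31) = true := by decide +kernel
def p15_15_1_31 : pfC (piC [(nat_lit 41351667), (nat_lit 26450756), (nat_lit 19661130), (nat_lit 13242591)] (nat_lit 10216514)) p15_15_1 (nat_lit 4) (nat_lit 31) (nat_lit 32) = true := by decide +kernel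
def p15_15_1_32 : pfC (piC [(nat_lit 41351667), (nat_lit 26450756), (nat_lit 19661130), (nat_lit 13242591)] (nat_lit 10216514)) p15_15_1 (nat_lit 4) (nat_lit 32) (nat_lit 33) = true := by decide +kernel
def p15_15_1_33 : pfC (piC [(nat_lit 41351667), (nat_lit 26450756), (nat_lit 19661130), (nat_lit 13242591)] (nat_lit 10216514)) p15_15_1 (nat_lit 4) (nat_lit 33) (nat_lit 34) = true := by decide +kernel
def p15_15_1_34 : pfC (piC [(nat_lit 41351667), (nat_lit 26450756), (nat_lit 19661130), (nat_lit 13242591)] (nat_lit 10216514)) p15_15_1 (nat_lit 4) (nat_lit 34) (nat_lit 35) = true := by decide +kernel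
def p15_15_1_35 : pfC (piC [(nat_lit 41351667), (nat_lit 26450756), (nat_lit 19661130), (nat_lit 13242591)] (nat_lit 10216514)) p15_15_1 (nat_lit 4) (nat_lit 35) (nat_lit 36) = true := by decide +kernel
def p15_15_1_36 : pfC (piC [(nat_lit 41351667), (nat_lit 26450756), (nat_lit 19661130), (nat_lit 13242591)] (nat_lit 10216514)) p15_15_1 (nat_lit 4) (nat_lit 36) (nat_lit 37) = true := by decide +kernel
def p15_15_1_37 : pfC (piC [(nat_lit 41351667), (nat_lit 26450756), (nat_lit 19661130), (nat_lit 13242591)] (nat_lit 10216514)) p15_15_1 (nat_lit 4) (nat_lit 37) (nat_lit 38) = true := by decide +kernel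
def p15_15_1_38 : pfC (piC [(nat_lit 41351667), (nat_lit 26450756), (nat_lit 19661130), (nat_lit 13242591)] (nat_lit 10216514)) p15_15_1 (nat_lit 4) (nat_lit 38) (nat_lit 39) = true := by decide +kernel
def p15_15_1_39 : pfC (piC [(nat_lit 41351667), (nat_lit 26450756), (nat_lit 19661130), (nat_lit 13242591)] (nat_lit 10216514)) p15_15_1 (nat_lit 4) (nat_lit 39) (nat_lit 40) = true := by decide +kernel
def p15_15_1_40 : pfC (piC [(nat_lit 41351667), (nat_lit 26450756), (nat_lit 19661130), (nat_lit 13242591)] (nat_lit 10216514)) p15_15_1 (nat_lit 4) (nat_lit 40) (nat_lit 41) = true := by decide +kernel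
def p15_15_1_41 : pfC (piC [(nat_lit 41351667), (nat_lit 26450756), (nat_lit 19661130), (nat_lit 13242591)] (nat_lit 10216514)) p15_15_1 (nat_lit 4) (nat_lit 41) (nat_lit 42) = true := by decide +kernel
def p15_15_1_42 : pfC (piC [(nat_lit 41351667), (nat_lit 26450756), (nat_lit 19661130), (nat_lit 13242591)] (nat_lit 10216514)) p15_15_1 (nat_lit 4) (nat_lit 42) (nat_lit 43) = true := by decide +kernel
def p15_15_1_43 : pfC (piC [(nat_lit 41351667), (nat_lit 26450756), (nat_lit 19661130), (nat_lit 13242591)] (nat_lit 10216514)) p15_15_1 (nat_lit 4) (nat_lit 43) (nat_lit 44) = true := by decide +kernel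
def p15_15_1_44 : pfC (piC [(nat_lit 41351667), (nat_lit 26450756), (nat_lit 19661130), (nat_lit 13242591)] (nat_lit 10216514)) p15_15_1 (nat_lit 4) (nat_lit 44) (nat_lit 45) = true := by decide +kernel
def p15_15_1_45 : pfC (piC [(nat_lit 41351667), (nat_lit 26450756), (nat_lit 19661130), (nat_lit 13242591)] (nat_lit 10216514)) p15_15_1 (nat_lit 4) (nat_lit 45) (nat_lit 46) = true := by decide +kernel
def p15_15_1_46 : pfC (piC [(nat_lit 41351667), (nat_lit 26450756), (nat_lit 19661130), (nat_lit 13242591)] (nat_lit 10216514)) p15_15_1 (nat_lit 4) (nat_lit 46) (nat_lit 47) = true := by decide +kernel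
def p15_15_1_47 : pfC (piC [(nat_lit 41351667), (nat_lit 26450756), (nat_lit 19661130), (nat_lit 13242591)] (nat_lit 10216514)) p15_15_1 (nat_lit 4) (nat_lit 47) (nat_lit 48) = true := by decide +kernel
def p15_15_1_48 : pfC (piC [(nat_lit 41351667), (nat_lit 26450756), (nat_lit 19661130), (nat_lit 13242591)] (nat_lit 10216514)) p15_15_1 (nat_lit 4) (nat_lit 48) (nat_lit 49) = true := by decide +kernel
def p15_15_1_49 : pfC (piC [(nat_lit 41351667), (nat_lit 26450756), (nat_lit 19661130), (nat_lit 13242591)] (nat_lit 10216514)) p15_15_1 (nat_lit 4) (nat_lit 49) (nat_lit 50) = true := by decide +kernel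
def p15_15_1_50 : pfC (piC [(nat_lit 41351667), (nat_lit 26450756), (nat_lit 19661130), (nat_lit 13242591)] (nat_lit 10216514)) p15_15_1 (nat_lit 4) (nat_lit 50) (nat_lit 51) = true := by decide +kernel
def p15_15_1_51 : pfC (piC [(nat_lit 41351667), (nat_lit 26450756), (nat_lit 19661130), (nat_lit 13242591)] (nat_lit 10216514)) p15_15_1 (nat_lit 4) (nat_lit 51) (nat_lit 52) = true := by decide +kernel
def p15_15_1_52 : pfC (piC [(nat_lit 41351667), (nat_lit 26450756), (nat_lit 19661130), (nat_lit 13242591)] (nat_lit 10216514)) p15_15_1 (nat_lit 4) (nat_lit 52) (nat_lit 53) = true := by decide +kernel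
def p15_15_1_53 : pfC (piC [(nat_lit 41351667), (nat_lit 26450756), (nat_lit 19661130), (nat_lit 13242591)] (nat_lit 10216514)) p15_15_1 (nat_lit 4) (nat_lit 53) (nat_lit 54) = true := by decide +kernel
def p15_15_1_54 : pfC (piC [(nat_lit 41351667), (nat_lit 26450756), (nat_lit 19661130), (nat_lit 13242591)] (nat_lit 10216514)) p15_15_1 (nat_lit 4) (nat_lit 54) (nat_lit 55) = true := by decide +kernel
def p15_15_1_55 : pfC (piC [(nat_lit 41351667), (nat_lit 26450756), (nat_lit 19661130), (nat_lit 13242591)] (nat_lit 10216514)) p15_15_1 (nat_lit 4) (nat_lit 55) (nat_lit 56) = true := by decide +kernel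
def p15_15_1_56 : pfC (piC [(nat_lit 41351667), (nat_lit 26450756), (nat_lit 19661130), (nat_lit 13242591)] (nat_lit 10216514)) p15_15_1 (nat_lit 4) (nat_lit 56) (nat_lit 57) = true := by decide +kernel
def p15_15_1_57 : pfC (piC [(nat_lit 41351667), (nat_lit 26450756), (nat_lit 19661130), (nat_lit 13242591)] (nat_lit 10216514)) p15_15_1 (nat_lit 4) (nat_lit 57) (nat_lit 58) = true := by decide +kernel
def p15_15_1_58 : pfC (piC [(nat_lit 41351667), (nat_lit 26450756), (nat_lit 19661130), (nat_lit 13242591)] (nat_lit 10216514)) p15_15_1 (nat_lit 4) (nat_lit 58) (nat_lit 59) = true := by decide +kernel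
def p15_15_1_59 : pfC (piC [(nat_lit 41351667), (nat_lit 26450756), (nat_lit 19661130), (nat_lit 13242591)] (nat_lit 10216514)) p15_15_1 (nat_lit 4) (nat_lit 59) (nat_lit 60) = true := by decide +kernel
def p15_15_1_60 : pfC (piC [(nat_lit 41351667), (nat_lit 26450756), (nat_lit 19661130), (nat_lit 13242591)] (nat_lit 10216514)) p15_15_1 (nat_lit 4) (nat_lit 60) (nat_lit 61) = true := by decide +kernel
def p15_15_1_61 : pfC (piC [(nat_lit 41351667), (nat_lit 26450756), (nat_lit 19661130), (nat_lit 13242591)] (nat_lit 10216514)) p15_15_1 (nat_lit 4) (nat_lit 61) (nat_lit 62) = true := by decide +kernel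
def p15_15_1_62 : pfC (piC [(nat_lit 41351667), (nat_lit 26450756), (nat_lit 19661130), (nat_lit 13242591)] (nat_lit 10216514)) p15_15_1 (nat_lit 4) (nat_lit 62) (nat_lit 63) = true := by decide +kernel
def p15_15_1_63 : pfC (piC [(nat_lit 41351667), (nat_lit 26450756), (nat_lit 19661130), (nat_lit 13242591)] (nat_lit 10216514)) p15_15_1 (nat_lit 4) (nat_lit 63) (nat_lit 64) = true := by decide +kernel
def p15_15_1_64 : pfC (piC [(nat_lit 41351667), (nat_lit 26450756), (nat_lit 19661130), (nat_lit 13242591)] (nat_lit 10216514)) p15_15_1 (nat_lit 4) (nat_lit 64) (nat_lit 65) = true := by decide +kernel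
def p15_15_1_65 : pfC (piC [(nat_lit 41351667), (nat_lit 26450756), (nat_lit 19661130), (nat_lit 13242591)] (nat_lit 10216514)) p15_15_1 (nat_lit 4) (nat_lit 65) (nat_lit 66) = true := by decide +kernel
def p15_15_1_66 : pfC (piC [(nat_lit 41351667), (nat_lit 26450756), (nat_lit 19661130), (nat_lit 13242591)] (nat_lit 10216514)) p15_15_1 (nat_lit 4) (nat_lit 66) (nat_lit 67) = true := by decide +kernel
def p15_15_1_67 : pfC (piC [(nat_lit 41351667), (nat_lit 26450756), (nat_lit 19661130), (nat_lit 13242591)] (nat_lit 10216514)) p15_15_1 (nat_lit 4) (nat_lit 67) (nat_lit 68) = true := by decide +kernel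
def p15_15_1_68 : pfC (piC [(nat_lit 41351667), (nat_lit 26450756), (nat_lit 19661130), (nat_lit 13242591)] (nat_lit 10216514)) p15_15_1 (nat_lit 4) (nat_lit 68) (nat_lit 69) = true := by decide +kernel
def p15_15_1_69 : pfC (piC [(nat_lit 41351667), (nat_lit 26450756), (nat_lit 19661130), (nat_lit 13242591)] (nat_lit 10216514)) p15_15_1 (nat_lit 4) (nat_lit 69) (nat_lit 70) = true := by decide +kernel
def p15_15_1_70 : pfC (piC [(nat_lit 41351667), (nat_lit 26450756), (nat_lit 19661130), (nat_lit 13242591)] (nat_lit 10216514)) p15_15_1 (nat_lit 4) (nat_lit 70) (nat_lit 71) = true := by decide +kernel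
def p15_15_1_71 : pfC (piC [(nat_lit 41351667), (nat_lit 26450756), (nat_lit 19661130), (nat_lit 13242591)] (nat_lit 10216514)) p15_15_1 (nat_lit 4) (nat_lit 71) (nat_lit 72) = true := by decide +kernel
def p15_15_1_72 : pfC (piC [(nat_lit 41351667), (nat_lit 26450756), (nat_lit 19661130), (nat_lit 13242591)] (nat_lit 10216514)) p15_15_1 (nat_lit 4) (nat_lit 72) (nat_lit 73) = true := by decide +kernel
def p15_15_1_73 : pfC (piC [(nat_lit 41351667), (nat_lit 26450756), (nat_lit 19661130), (nat_lit 13242591)] (nat_lit 10216514)) p15_15_1 (nat_lit 4) (nat_lit 73) (nat_lit 74) = true := by decide +kernel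
def p15_15_1_74 : pfC (piC [(nat_lit 41351667), (nat_lit 26450756), (nat_lit 19661130), (nat_lit 13242591)] (nat_lit 10216514)) p15_15_1 (nat_lit 4) (nat_lit 74) (nat_lit 75) = true := by decide +kernel
def p15_15_1_75 : pfC (piC [(nat_lit 41351667), (nat_lit 26450756), (nat_lit 19661130), (nat_lit 13242591)] (nat_lit 10216514)) p15_15_1 (nat_lit 4) (nat_lit 75) (nat_lit 76) = true := by decide +kernel
def p15_15_1_76 : pfC (piC [(nat_lit 41351667), (nat_lit 26450756), (nat_lit 19661130), (nat_lit 13242591)] (nat_lit 10216514)) p15_15_1 (nat_lit 4) (nat_lit 76) (nat_lit 77) = true := by decide +kernel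
def p15_15_1_77 : pfC (piC [(nat_lit 41351667), (nat_lit 26450756), (nat_lit 19661130), (nat_lit 13242591)] (nat_lit 10216514)) p15_15_1 (nat_lit 4) (nat_lit 77) (nat_lit 78) = true := by decide +kernel
def p15_15_1_78 : pfC (piC [(nat_lit 41351667), (nat_lit 26450756), (nat_lit 19661130), (nat_lit 13242591)] (nat_lit 10216514)) p15_15_1 (nat_lit 4) (nat_lit 78) (nat_lit 79) = true := by decide +kernel
def p15_15_1_79 : pfC (piC [(nat_lit 41351667), (nat_lit 26450756), (nat_lit 19661130), (nat_lit 13242591)] (nat_lit 10216514)) p15_15_1 (nat_lit 4) (nat_lit 79) (nat_lit 80) = true := by decide +kernel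
def p15_15_1_80 : pfC (piC [(nat_lit 41351667), (nat_lit 26450756), (nat_lit 19661130), (nat_lit 13242591)] (nat_lit 10216514)) p15_15_1 (nat_lit 4) (nat_lit 80) (nat_lit 81) = true := by decide +kernel
def p15_15_1_81 : pfC (piC [(nat_lit 41351667), (nat_lit 26450756), (nat_lit 19661130), (nat_lit 13242591)] (nat_lit 10216514)) p15_15_1 (nat_lit 4) (nat_lit 81) (nat_lit 82) = true := by decide +kernel
def p15_15_1_82 : pfC (piC [(nat_lit 41351667), (nat_lit 26450756), (nat_lit 19661130), (nat_lit 13242591)] (nat_lit 10216514)) p15_15_1 (nat_lit 4) (nat_lit 82) (nat_lit 83) = true := by decide +kernel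
def p15_15_1_83 : pfC (piC [(nat_lit 41351667), (nat_lit 26450756), (nat_lit 19661130), (nat_lit 13242591)] (nat_lit 10216514)) p15_15_1 (nat_lit 4) (nat_lit 83) (nat_lit 84) = true := by decide +kernel
def p15_15_1_84 : pfC (piC [(nat_lit 41351667), (nat_lit 26450756), (nat_lit 19661130), (nat_lit 13242591)] (nat_lit 10216514)) p15_15_1 (nat_lit 4) (nat_lit 84) (nat_lit 85) = true := by decide +kernel
def p15_15_1_85 : pfC (piC [(nat_lit 41351667), (nat_lit 26450756), (nat_lit 19661130), (nat_lit 13242591)] (nat_lit 10216514)) p15_15_1 (nat_lit 4) (nat_lit 85) (nat_lit 86) = true := by decide +kernel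
theorem p15_15_1_T : PfS (PiF n15_15.reverse (nat_lit 10216514)) p15_15_1 (nat_lit 4) [] 0 :=
  pftab_of (los := [(nat_lit 41351667), (nat_lit 26450756), (nat_lit 19661130), (nat_lit 13242591)]) (by decide +kernel) (hi := (nat_lit 86)) (PfP.trans (PfP.trans (PfP.trans (PfP.trans (PfP.trans (PfP.trans (PfP.trans (PfP.trans (PfP.trans (PfP.trans (PfP.trans (PfP.trans (PfP.trans (PfP.trans (PfP.trans (PfP.trans (PfP.trans (PfP.trans (PfP.trans (PfP.trans (PfP.trans (PfP.trans (PfP.trans (PfP.trans (PfP.trans (PfP.trans (PfP.trans (PfP.trans (PfP.trans (PfP.trans (PfP.trans (PfP.trans (PfP.trans (PfP.trans (PfP.trans (PfP.trans (PfP.trans (PfP.trans (PfP.trans (PfP.trans (PfP.trans (PfP.trans (PfP.trans (PfP.trans (PfP.trans (PfP.trans (PfP.trans (PfP.trans (PfP.trans (PfP.trans (PfP.trans (PfP.trans (PfP.trans (PfP.trans (PfP.trans (PfP.trans (PfP.trans (PfP.trans (PfP.trans (PfP.trans (PfP.trans (PfP.trans (PfP.trans (PfP.trans (PfP.trans (PfP.trans (PfP.trans (PfP.trans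 (PfP.trans (PfP.trans (PfP.trans (PfP.trans (PfP.trans (PfP.trans (PfP.trans (PfP.trans (PfP.trans (PfP.trans (PfP.trans (PfP.trans (PfP.trans (PfP.trans (PfP.trans (PfP.trans (PfP.trans (pfC_sound p15_15_1_0) (pfC_sound p15_15_1_1)) (pfC_sound p15_15_1_2)) (pfC_sound p15_15_1_3)) (pfC_sound p15_15_1_4)) (pfC_sound p15_15_1_5)) (pfC_sound p15_15_1_6)) (pfC_sound p15_15_1_7)) (pfC_sound p15_15_1_8)) (pfC_sound p15_15_1_9)) (pfC_sound p15_15_1_10))
 (pfC_sound p15_15_1_11)) (pfC_sound p15_15_1_12)) (pfC_sound p15_15_1_13)) (pfC_sound p15_15_1_14)) (pfC_sound p15_15_1_15)) (pfC_sound p15_15_1_16)) (pfC_sound p15_15_1_17)) (pfC_sound p15_15_1_18)) (pfC_sound p15_15_1_19)) (pfC_sound p15_15_1_20)) (pfC_sound p15_15_1_21)) (pfC_sound p15_15_1_22)) (pfC_sound p15_15_1_23)) (pfC_sound p15_15_1_24)) (pfC_sound p15_15_1_25)) (pfC_sound p15_15_1_26)) (pfC_sound p15_15_1_27)) (pfC_sound p15_15_1_28)) (pfC_sound p15_15_1_29)) (pfC_sound p15_15_1_30)) (pfC_sound p15_15_1_31))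 (pfC_sound p15_15_1_32)) (pfC_sound p15_15_1_33)) (pfC_sound p15_15_1_34)) (pfC_sound p15_15_1_35)) (pfC_sound p15_15_1_36)) (pfC_sound p15_15_1_37)) (pfC_sound p15_15_1_38)) (pfC_sound p15_15_1_39)) (pfC_sound p15_15_1_40)) (pfC_sound p15_15_1_41)) (pfC_sound p15_15_1_42)) (pfC_sound p15_15_1_43)) (pfC_sound p15_15_1_44)) (pfC_sound p15_15_1_45)) (pfC_sound p15_15_1_46)) (pfC_sound p15_15_1_47)) (pfC_sound p15_15_1_48)) (pfC_sound p15_15_1_49)) (pfC_sound p15_15_1_50)) (pfC_sound p15_15_1_51)) (pfC_sound p15_15_1_52)) (pfC_sound p15_15_1_53)) (pfC_sound p15_15_1_54)) (pfC_sound p15_15_1_55)) (pfC_sound p15_15_1_56)) (pfC_sound p15_15_1_57)) (pfC_sound p15_15_1_58))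
 (pfC_sound p15_15_1_59)) (pfC_sound p15_15_1_60)) (pfC_sound p15_15_1_61)) (pfC_sound p15_15_1_62)) (pfC_sound p15_15_1_63)) (pfC_sound p15_15_1_64)) (pfC_sound p15_15_1_65)) (pfC_sound p15_15_1_66)) (pfC_sound p15_15_1_67)) (pfC_sound p15_15_1_68)) (pfC_sound p15_15_1_69)) (pfC_sound p15_15_1_70)) (pfC_sound p15_15_1_71)) (pfC_sound p15_15_1_72)) (pfC_sound p15_15_1_73)) (pfC_sound p15_15_1_74)) (pfC_sound p15_15_1_75)) (pfC_sound p15_15_1_76)) (pfC_sound p15_15_1_77)) (pfC_sound p15_15_1_78)) (pfC_sound p15_15_1_79)) (pfC_sound p15_15_1_80)) (pfC_sound p15_15_1_81)) (pfC_sound p15_15_1_82)) (pfC_sound p15_15_1_83)) (pfC_sound p15_15_1_84)) (pfC_sound p15_15_1_85)) (by decide +kernel)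

def z15_15_1 : zOK yB15_15 (nat_lit 1) (nat_lit 400) (nat_lit 600) (nat_lit 10216514) (nat_lit 6616487) = true := by decide +kernel
def g15_15_1 : gOK yB15_15.x P15_15 (nat_lit 1426) (q15_15 :: r15_15) (nat_lit 1) (nat_lit 400) (nat_lit 2) (nat_lit 600) (nat_lit 11000000) (nat_lit 17850000) (nat_lit 12712500) (nat_lit 12712500) [(nat_lit 800), (nat_lit 1040)] = true := by decide +kernel
def v15_15_1 : ivC P15_15 s15_15 w15_15 n15_15 (nat_lit 4) (nat_lit 5050) (nat_lit 1) (nat_lit 400) f144_1_400 f152_1_400 (nat_lit 2) (nat_lit 600) f144_1_600 f152_1_600 (nat_lit 10216514) (nat_lit 6616487) p15_15_1 = true := by decide +kernel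
def p15_15_2 : PF := (PF.cons (PF.cons (PF.cons (PF.cons (PF.leaf (nat_lit 2772396) (nat_lit 16305443) (nat_lit 50803369) (nat_lit 16305443) [(nat_lit 0), (nat_lit 0), (nat_lit 0), (nat_lit 0)]) (PF.cons (PF.leaf (nat_lit 2902422) (nat_lit 220685) (nat_lit 50598935) (nat_lit 16289192) [(nat_lit 220685), (nat_lit 0), (nat_lit 0), (nat_lit 0)]) (PF.cons (PF.leaf (nat_lit 3057884) (nat_lit 239933) (nat_lit 50359568) (nat_lit 16269377) [(nat_lit 239933), (nat_lit 0), (nat_lit 0), (nat_lit 0)]) (PF.cons (PF.leaf (nat_lit 3232319) (nat_lit 257013) (nat_lit 50091561) (nat_lit 16246209) [(nat_lit 257013), (nat_lit 0), (nat_lit 0), (nat_lit 0)]) (PF.cons (PF.leaf (nat_lit 3423180) (nat_lit 272418) (nat_lit 49799345) (nat_lit 16219792) [(nat_lit 272418), (nat_lit 0), (nat_lit 0), (nat_lit 0)]) (PF.cons (PF.leaf (nat_lit 3628353) (nat_lit 286462) (nat_lit 49486317) (nat_lit 16190181) [(nat_lit 286462), (nat_lit 0), (nat_lit 0), (nat_lit 0)]) (PF.cons (PF.leaf (nat_lit 3846375)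 (nat_lit 299362) (nat_lit 49155225) (nat_lit 16157412) [(nat_lit 299362), (nat_lit 0), (nat_lit 0), (nat_lit 0)]) (PF.cons (PF.leaf (nat_lit 4075672) (nat_lit 311274) (nat_lit 48808375) (nat_lit 16121515) [(nat_lit 311274), (nat_lit 0),
 (nat_lit 0), (nat_lit 0)]) (PF.cons PF.nil (PF.cons PF.nil PF.nil)))))))))) (PF.cons (PF.cons (PF.leaf (nat_lit 3261481) (nat_lit 1121772) (nat_lit 49772985) (nat_lit 16214054) [(nat_lit 0), (nat_lit 1121772), (nat_lit 0), (nat_lit 0)]) (PF.cons (PF.leaf (nat_lit 3431735) (nat_lit 267760) (nat_lit 49504933) (nat_lit 16188627) [(nat_lit 267760), (nat_lit 1147491), (nat_lit 0), (nat_lit 0)]) (PF.cons (PF.leaf (nat_lit 3620911) (nat_lit 282494) (nat_lit 49211343) (nat_lit 16159663) [(nat_lit 282494), (nat_lit 1172816), (nat_lit 0), (nat_lit 0)]) (PF.cons (PF.leaf (nat_lit 3824970) (nat_lit 295868) (nat_lit 48896533) (nat_lit 16127334) [(nat_lit 295868), (nat_lit 1197339), (nat_lit 0), (nat_lit 0)]) (PF.cons (PF.leaf (nat_lit 4041944)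 (nat_lit 308122) (nat_lit 48563722) (nat_lit 16091748) [(nat_lit 308122), (nat_lit 1220850), (nat_lit 0), (nat_lit 0)]) (PF.cons (PF.leaf (nat_lit 4270329) (nat_lit 319422) (nat_lit 48215468) (nat_lit 16052986) [(nat_lit 319422), (nat_lit 1243246), (nat_lit 0), (nat_lit 0)]) (PF.cons PF.nil (PF.cons PF.nil (PF.cons PF.nil PF.nil))))))))) (PF.cons (PF.cons (PF.leaf (nat_lit 3822613) (nat_lit 1203556) (nat_lit 48608477) (nat_lit 16093223) [(nat_lit 0),
 (nat_lit 1203556), (nat_lit 0), (nat_lit 0)]) (PF.cons (PF.leaf (nat_lit 4022890) (nat_lit 303957) (nat_lit 48295590) (nat_lit 16058609) [(nat_lit 303957), (nat_lit 1225327), (nat_lit 0), (nat_lit 0)]) (PF.cons (PF.leaf (nat_lit 4237779) (nat_lit 315752) (nat_lit 47963933) (nat_lit 16020571) [(nat_lit 315752), (nat_lit 1246401), (nat_lit 0), (nat_lit 0)]) (PF.cons (PF.leaf (nat_lit 4464414) (nat_lit 326580) (nat_lit 47616594) (nat_lit 15979269) [(nat_lit 326580), (nat_lit 1266603), (nat_lit 0), (nat_lit 0)]) (PF.cons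 (PF.leaf (nat_lit 4701375) (nat_lit 336577) (nat_lit 47255991) (nat_lit 15934826) [(nat_lit 336577), (nat_lit 1285841), (nat_lit 0), (nat_lit 0)]) (PF.cons PF.nil (PF.cons PF.nil PF.nil))))))) (PF.cons (PF.cons (PF.leaf (nat_lit 4435573) (nat_lit 1269451) (nat_lit 47356511) (nat_lit 15943947) [(nat_lit 0), (nat_lit 1269451), (nat_lit 0), (nat_lit 0)]) (PF.cons (PF.leaf (nat_lit 4658556) (nat_lit 332815) (nat_lit 47012548) (nat_lit 15900491) [(nat_lit 332815), (nat_lit 1287652), (nat_lit 0), (nat_lit 0)]) (PF.cons (PF.leaf (nat_lit 4893068) (nat_lit 342450) (nat_lit 46654886) (nat_lit 15853813) [(nat_lit 342450), (nat_lit 1305070), (nat_lit 0), (nat_lit 0)]) (PF.cons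
 (PF.leaf (nat_lit 5136857) (nat_lit 351343) (nat_lit 46285818) (nat_lit 15804075) [(nat_lit 351343), (nat_lit 1321629), (nat_lit 0), (nat_lit 0)]) (PF.cons PF.nil PF.nil))))) (PF.cons (PF.cons (PF.leaf (nat_lit 5085392) (nat_lit 1322390) (nat_lit 46051039) (nat_lit 15768213) [(nat_lit 0), (nat_lit 1322390), (nat_lit 0), (nat_lit 0)]) (PF.cons (PF.leaf (nat_lit 5325509) (nat_lit 356145) (nat_lit 45686496) (nat_lit 15716560) [(nat_lit 356145), (nat_lit 1337402), (nat_lit 0), (nat_lit 0)]) (PF.cons PF.nil (PF.cons PF.nil PF.nil)))) (PF.cons (PF.cons (PF.leaf (nat_lit 5760325) (nat_lit 1364454) (nat_lit 44717793) (nat_lit 15568748) [(nat_lit 0), (nat_lit 1364454), (nat_lit 0), (nat_lit 0)]) (PF.cons PF.nil PF.nil)) (PF.cons PF.nil (PF.cons PF.nil PF.nil)))))))) (PF.cons (PF.cons (PF.cons (PF.leaf (nat_lit 3785324) (nat_lit 3008650) (nat_lit 48083552) (nat_lit 16016610) [(nat_lit 0), (nat_lit 0), (nat_lit 3008650), (nat_lit 0)]) (PF.cons (PF.leaf (nat_lit 3964109)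 (nat_lit 287646) (nat_lit 47806425) (nat_lit 15984378) [(nat_lit 287646), (nat_lit 0), (nat_lit 3030362), (nat_lit 0)]) (PF.cons (PF.leaf (nat_lit 4160883) (nat_lit 301528) (nat_lit 47505175) (nat_lit 15948263) [(nat_lit
 301528), (nat_lit 0), (nat_lit 3052317), (nat_lit 0)]) (PF.cons (PF.leaf (nat_lit 4371752) (nat_lit 313951) (nat_lit 47184377) (nat_lit 15908588) [(nat_lit 313951), (nat_lit 0), (nat_lit 3073991), (nat_lit 0)]) (PF.cons (PF.leaf (nat_lit 4594587) (nat_lit 325206) (nat_lit 46847369) (nat_lit 15865578) [(nat_lit 325206), (nat_lit 0), (nat_lit 3095040), (nat_lit 0)]) (PF.cons (PF.leaf (nat_lit 4827861) (nat_lit 335487) (nat_lit 46496744) (nat_lit 15819404) [(nat_lit 335487), (nat_lit 0), (nat_lit 3115227), (nat_lit 0)]) (PF.cons PF.nil PF.nil))))))) (PF.cons (PF.cons (PF.leaf (nat_lit 4359771) (nat_lit 1254481) (nat_lit 46902275) (nat_lit 15869356) [(nat_lit 0), (nat_lit 1254481), (nat_lit 3082699), (nat_lit 0)]) (PF.cons (PF.leaf (nat_lit 4565860)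 (nat_lit 320174) (nat_lit 46586162) (nat_lit 15827978) [(nat_lit 320174), (nat_lit 1272884), (nat_lit 3101613), (nat_lit 0)]) (PF.cons (PF.leaf (nat_lit 4785659) (nat_lit 331103) (nat_lit 46252847) (nat_lit 15783086) [(nat_lit 331103), (nat_lit 1290600), (nat_lit 3120072), (nat_lit 0)]) (PF.cons (PF.leaf (nat_lit 5016347) (nat_lit 341029) (nat_lit 45905472) (nat_lit 15734938) [(nat_lit 341029), (nat_lit 1307497), (nat_lit 3137814),
 (nat_lit 0)]) (PF.cons (PF.leaf (nat_lit 5256440) (nat_lit 350113) (nat_lit 45546451) (nat_lit 15683735) [(nat_lit 350113), (nat_lit 1323510), (nat_lit 3154660), (nat_lit 0)]) PF.nil))))) (PF.cons (PF.cons (PF.leaf (nat_lit 4978431) (nat_lit 1308476) (nat_lit 45653965) (nat_lit 15695920) [(nat_lit 0), (nat_lit 1308476), (nat_lit 3141974), (nat_lit 0)]) (PF.cons (PF.leaf (nat_lit 5204771) (nat_lit 345788) (nat_lit 45311947) (nat_lit 15646204) [(nat_lit 345788), (nat_lit 1323722), (nat_lit 3157427), (nat_lit 0)]) (PF.cons (PF.leaf (nat_lit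 5441776) (nat_lit 354602) (nat_lit 44957692) (nat_lit 15593341) [(nat_lit 354602), (nat_lit 1338230), (nat_lit 3172112), (nat_lit 0)]) (PF.cons PF.nil PF.nil)))) (PF.cons (PF.cons (PF.leaf (nat_lit 5627570) (nat_lit 1351405) (nat_lit 44368492) (nat_lit 15499139) [(nat_lit 0), (nat_lit 1351405), (nat_lit 3186963), (nat_lit 0)]) (PF.cons (PF.leaf (nat_lit 5868879) (nat_lit 366268) (nat_lit 44010204) (nat_lit 15442007) [(nat_lit 366268), (nat_lit 1363832), (nat_lit 3198835), (nat_lit 0)]) PF.nil)) (PF.cons PF.nil (PF.cons PF.nil PF.nil)))))) (PF.cons (PF.cons (PF.cons (PF.leaf (nat_lit 4888070) (nat_lit 3129835) (nat_lit 45230595) (nat_lit 15618545)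
 [(nat_lit 0), (nat_lit 0), (nat_lit 3129835), (nat_lit 0)]) (PF.cons (PF.leaf (nat_lit 5098057) (nat_lit 333135) (nat_lit 44915561) (nat_lit 15571540) [(nat_lit 333135), (nat_lit 0), (nat_lit 3144287), (nat_lit 0)]) (PF.cons (PF.leaf (nat_lit 5321012) (nat_lit 343288) (nat_lit 44584755) (nat_lit 15521011) [(nat_lit 343288), (nat_lit 0), (nat_lit 3158234), (nat_lit 0)]) (PF.cons (PF.leaf (nat_lit 5554123) (nat_lit 352418) (nat_lit 44241310) (nat_lit 15467298) [(nat_lit 352418), (nat_lit 0), (nat_lit 3171473), (nat_lit 0)]) (PF.cons PF.nil PF.nil))))) (PF.cons (PF.cons (PF.leaf (nat_lit 5508105) (nat_lit 1337244) (nat_lit 43999997) (nat_lit 15425643) [(nat_lit 0), (nat_lit 1337244), (nat_lit 3172963), (nat_lit 0)]) (PF.cons (PF.leaf (nat_lit 5736280) (nat_lit 355960) (nat_lit 43663303) (nat_lit 15370907) [(nat_lit 355960), (nat_lit 1350010), (nat_lit 3184315), (nat_lit 0)]) (PF.cons (PF.leaf (nat_lit 5974381) (nat_lit 364046) (nat_lit 43315644) (nat_lit 15313142)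 [(nat_lit 364046), (nat_lit 1362075), (nat_lit 3194929), (nat_lit 0)]) (PF.cons PF.nil PF.nil)))) (PF.cons (PF.cons (PF.leaf (nat_lit 6153367) (nat_lit 1371866) (nat_lit 42744874) (nat_lit 15212514) [(nat_lit 0), (nat_lit
 1371866), (nat_lit 3203845), (nat_lit 0)]) (PF.cons PF.nil PF.nil)) (PF.cons PF.nil (PF.cons PF.nil PF.nil))))) (PF.cons (PF.cons (PF.cons (PF.leaf (nat_lit 6023208) (nat_lit 3188684) (nat_lit 42403693) (nat_lit 15139065) [(nat_lit 0), (nat_lit 0), (nat_lit 3188684), (nat_lit 0)]) (PF.cons (PF.leaf (nat_lit 6251992) (nat_lit 363805) (nat_lit 42074720) (nat_lit 15080434) [(nat_lit 363805), (nat_lit 0), (nat_lit 3196617), (nat_lit 0)]) (PF.cons PF.nil (PF.cons PF.nil PF.nil)))) (PF.cons (PF.cons (PF.leaf (nat_lit 6662109) (nat_lit 1385338) (nat_lit 41185943) (nat_lit 14913734) [(nat_lit 0), (nat_lit 1385338), (nat_lit 3207932), (nat_lit 0)]) (PF.cons PF.nil PF.nil)) (PF.cons PF.nil PF.nil))) (PF.cons (PF.cons (PF.cons (PF.leaf (nat_lit 7153578)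 (nat_lit 3201706) (nat_lit 39694687) (nat_lit 14607299) [(nat_lit 0), (nat_lit 0), (nat_lit 3201706), (nat_lit 0)]) (PF.cons PF.nil PF.nil)) (PF.cons PF.nil PF.nil)) (PF.cons PF.nil PF.nil)))))) (PF.cons (PF.cons (PF.cons (PF.cons (PF.leaf (nat_lit 4675731) (nat_lit 8105637) (nat_lit 43722767) (nat_lit 15280407) [(nat_lit 0), (nat_lit 0), (nat_lit 0), (nat_lit 8105637)]) (PF.cons (PF.leaf (nat_lit 4854171) (nat_lit 297333) (nat_lit 43468906)
 (nat_lit 15240472) [(nat_lit 297333), (nat_lit 0), (nat_lit 0), (nat_lit 8102099)]) (PF.cons (PF.leaf (nat_lit 5049567) (nat_lit 310525) (nat_lit 43193979) (nat_lit 15196415) [(nat_lit 310525), (nat_lit 0), (nat_lit 0), (nat_lit 8097366)]) (PF.cons (PF.leaf (nat_lit 5257996) (nat_lit 322133) (nat_lit 42902290) (nat_lit 15148767) [(nat_lit 322133), (nat_lit 0), (nat_lit 0), (nat_lit 8091354)]) (PF.cons (PF.leaf (nat_lit 5477284) (nat_lit 332487) (nat_lit 42596957) (nat_lit 15097904) [(nat_lit 332487), (nat_lit 0), (nat_lit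 0), (nat_lit 8083999)]) (PF.cons (PF.leaf (nat_lit 5705896) (nat_lit 341811) (nat_lit 42280377) (nat_lit 15044115) [(nat_lit 341811), (nat_lit 0), (nat_lit 0), (nat_lit 8075260)]) (PF.cons PF.nil (PF.cons PF.nil (PF.cons PF.nil PF.nil))))))))) (PF.cons (PF.cons (PF.leaf (nat_lit 5235845) (nat_lit 1272518) (nat_lit 42651377) (nat_lit 15104090) [(nat_lit 0), (nat_lit 1272518), (nat_lit 0), (nat_lit 8080827)]) (PF.cons (PF.leaf (nat_lit 5438629) (nat_lit 326653) (nat_lit 42365575) (nat_lit 15055743) [(nat_lit 326653), (nat_lit 1287624), (nat_lit 0), (nat_lit 8073216)]) (PF.cons (PF.leaf (nat_lit 5654125) (nat_lit 336735) (nat_lit 42065151) (nat_lit 15003990)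
 [(nat_lit 336735), (nat_lit 1301960), (nat_lit 0), (nat_lit 8064239)]) (PF.cons (PF.leaf (nat_lit 5879426) (nat_lit 345761) (nat_lit 41752989) (nat_lit 14949215) [(nat_lit 345761), (nat_lit 1315447), (nat_lit 0), (nat_lit 8053876)]) (PF.cons (PF.leaf (nat_lit 6113093) (nat_lit 353910) (nat_lit 41431285) (nat_lit 14891709) [(nat_lit 353910), (nat_lit 1328056), (nat_lit 0), (nat_lit 8042120)]) (PF.cons PF.nil (PF.cons PF.nil PF.nil))))))) (PF.cons (PF.cons (PF.leaf (nat_lit 5832368) (nat_lit 1314352) (nat_lit 41531638) (nat_lit 14906867) [(nat_lit 0), (nat_lit 1314352), (nat_lit 0), (nat_lit 8041601)]) (PF.cons (PF.leaf (nat_lit 6052726) (nat_lit 349028) (nat_lit 41225575) (nat_lit 14851493) [(nat_lit 349028), (nat_lit 1326458), (nat_lit 0), (nat_lit 8029799)]) (PF.cons (PF.leaf (nat_lit 6282776) (nat_lit 356964) (nat_lit 40909354) (nat_lit 14793279) [(nat_lit 356964), (nat_lit 1337823), (nat_lit 0), (nat_lit 8016603)]) (PF.cons (PF.leaf (nat_lit 6520364) (nat_lit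 364135) (nat_lit 40585006) (nat_lit 14732521) [(nat_lit 364135), (nat_lit 1348422), (nat_lit 0), (nat_lit 8002032)]) (PF.cons PF.nil PF.nil))))) (PF.cons (PF.cons (PF.leaf (nat_lit 6452931) (nat_lit 1346379) (nat_lit
 40388605) (nat_lit 14692403) [(nat_lit 0), (nat_lit 1346379), (nat_lit 0), (nat_lit 7988664)]) (PF.cons (PF.leaf (nat_lit 6685959) (nat_lit 366451) (nat_lit 40070531) (nat_lit 14631193) [(nat_lit 366451), (nat_lit 1355932), (nat_lit 0), (nat_lit 7972838)]) (PF.cons PF.nil (PF.cons PF.nil PF.nil)))) (PF.cons (PF.cons (PF.leaf (nat_lit 7088411) (nat_lit 1370394) (nat_lit 39240018) (nat_lit 14463974) [(nat_lit 0), (nat_lit 1370394), (nat_lit 0), (nat_lit 7923241)]) (PF.cons PF.nil PF.nil)) (PF.cons PF.nil PF.nil)))))) (PF.cons (PF.cons (PF.cons (PF.leaf (nat_lit 5727304) (nat_lit 3101679) (nat_lit 41170062) (nat_lit 14828194) [(nat_lit 0), (nat_lit 0), (nat_lit 3101679), (nat_lit 8008876)]) (PF.cons (PF.leaf (nat_lit 5932327) (nat_lit 336030) (nat_lit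 40888151) (nat_lit 14776396) [(nat_lit 336030), (nat_lit 0), (nat_lit 3110747), (nat_lit 7997486)]) (PF.cons (PF.leaf (nat_lit 6149320) (nat_lit 345393) (nat_lit 40592821) (nat_lit 14721267) [(nat_lit 345393), (nat_lit 0), (nat_lit 3119253), (nat_lit 7984681)]) (PF.cons (PF.leaf (nat_lit 6375495) (nat_lit 353701) (nat_lit 40286903) (nat_lit 14663239) [(nat_lit 353701), (nat_lit 0), (nat_lit 3127068), (nat_lit 7970498)]) (PF.cons
 (PF.leaf (nat_lit 6609387) (nat_lit 361143) (nat_lit 39972524) (nat_lit 14602635) [(nat_lit 361143), (nat_lit 0), (nat_lit 3134112), (nat_lit 7954966)]) PF.nil))))) (PF.cons (PF.cons (PF.leaf (nat_lit 6321731) (nat_lit 1331322) (nat_lit 40075938) (nat_lit 14619923) [(nat_lit 0), (nat_lit 1331322), (nat_lit 3125452), (nat_lit 7956175)]) (PF.cons (PF.leaf (nat_lit 6542621) (nat_lit 356003) (nat_lit 39776945) (nat_lit 14561700) [(nat_lit 356003), (nat_lit 1341427), (nat_lit 3131855), (nat_lit 7940879)]) (PF.cons (PF.leaf (nat_lit 6772568)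 (nat_lit 363299) (nat_lit 39468798) (nat_lit 14500778) [(nat_lit 363299), (nat_lit 1350839), (nat_lit 3137570), (nat_lit 7924226)]) (PF.cons PF.nil PF.nil)))) (PF.cons (PF.cons (PF.leaf (nat_lit 6936254) (nat_lit 1356862) (nat_lit 38967190) (nat_lit 14396972) [(nat_lit 0), (nat_lit 1356862), (nat_lit 3139456), (nat_lit 7891468)]) (PF.cons (PF.leaf (nat_lit 7168387) (nat_lit 371385) (nat_lit 38658641) (nat_lit 14333574) [(nat_lit 371385), (nat_lit 1364695), (nat_lit 3143269), (nat_lit 7872551)]) PF.nil)) (PF.cons PF.nil (PF.cons PF.nil PF.nil))))) (PF.cons (PF.cons (PF.cons (PF.leaf (nat_lit 6796934) (nat_lit 3122883) (nat_lit 38678323) (nat_lit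
 14326280) [(nat_lit 0), (nat_lit 0), (nat_lit 3122883), (nat_lit 7858442)]) (PF.cons (PF.leaf (nat_lit 7017492) (nat_lit 361210) (nat_lit 38387753) (nat_lit 14266001) [(nat_lit 361210), (nat_lit 0), (nat_lit 3126777), (nat_lit 7840293)]) (PF.cons (PF.leaf (nat_lit 7246553) (nat_lit 367938) (nat_lit 38088900) (nat_lit 14203166) [(nat_lit 367938), (nat_lit 0), (nat_lit 3130018), (nat_lit 7820832)]) (PF.cons PF.nil PF.nil)))) (PF.cons (PF.cons (PF.leaf (nat_lit 7403846) (nat_lit 1362320) (nat_lit 37607423) (nat_lit 14097650) [(nat_lit 0), (nat_lit 1362320), (nat_lit 3128546), (nat_lit 7784324)]) (PF.cons PF.nil PF.nil)) (PF.cons PF.nil PF.nil))) (PF.cons (PF.cons (PF.cons (PF.leaf (nat_lit 7855856) (nat_lit 3110742) (nat_lit 36309618) (nat_lit 13797218) [(nat_lit 0), (nat_lit 0), (nat_lit 3110742), (nat_lit 7669747)]) (PF.cons PF.nil PF.nil)) (PF.cons PF.nil PF.nil)) (PF.cons PF.nil PF.nil))))) (PF.cons (PF.cons (PF.cons (PF.cons (PF.leaf (nat_lit 6479668) (nat_lit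 7705773) (nat_lit 37655300) (nat_lit 14041964) [(nat_lit 0), (nat_lit 0), (nat_lit 0), (nat_lit 7705773)]) (PF.cons (PF.leaf (nat_lit 6678668) (nat_lit 334583) (nat_lit 37404708) (nat_lit 13989044) [(nat_lit 334583),
 (nat_lit 0), (nat_lit 0), (nat_lit 7690238)]) (PF.cons (PF.leaf (nat_lit 6888877) (nat_lit 343266) (nat_lit 37142600) (nat_lit 13933036) [(nat_lit 343266), (nat_lit 0), (nat_lit 0), (nat_lit 7673321)]) (PF.cons (PF.leaf (nat_lit 7107504) (nat_lit 350886) (nat_lit 36871500) (nat_lit 13874408) [(nat_lit 350886), (nat_lit 0), (nat_lit 0), (nat_lit 7655122)]) (PF.cons PF.nil PF.nil))))) (PF.cons (PF.cons (PF.leaf (nat_lit 7048388) (nat_lit 1311634) (nat_lit 36687624) (nat_lit 13831831) [(nat_lit 0), (nat_lit 1311634), (nat_lit 0), (nat_lit 7638861)]) (PF.cons (PF.leaf (nat_lit 7261557) (nat_lit 352303) (nat_lit 36423146) (nat_lit 13773509) [(nat_lit 352303), (nat_lit 1319783), (nat_lit 0), (nat_lit 7620035)]) (PF.cons (PF.leaf (nat_lit 7483055) (nat_lit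 358955) (nat_lit 36150899) (nat_lit 13712782) [(nat_lit 358955), (nat_lit 1327263), (nat_lit 0), (nat_lit 7599977)]) (PF.cons PF.nil PF.nil)))) (PF.cons (PF.cons (PF.leaf (nat_lit 7633642) (nat_lit 1330714) (nat_lit 35710860) (nat_lit 13610837) [(nat_lit 0), (nat_lit 1330714), (nat_lit 0), (nat_lit 7562843)]) (PF.cons PF.nil PF.nil)) PF.nil))) (PF.cons (PF.cons (PF.cons (PF.leaf (nat_lit 7488939) (nat_lit 3037556) (nat_lit 35465760)
 (nat_lit 13544969) [(nat_lit 0), (nat_lit 0), (nat_lit 3037556), (nat_lit 7530263)]) (PF.cons (PF.leaf (nat_lit 7701203) (nat_lit 355695) (nat_lit 35209437) (nat_lit 13485713) [(nat_lit 355695), (nat_lit 0), (nat_lit 3038788), (nat_lit 7509589)]) (PF.cons PF.nil PF.nil))) (PF.cons (PF.cons (PF.leaf (nat_lit 8066153) (nat_lit 1330968) (nat_lit 34524342) (nat_lit 13322168) [(nat_lit 0), (nat_lit 1330968), (nat_lit 3034502), (nat_lit 7448415)]) PF.nil) PF.nil)) (PF.cons PF.nil PF.nil))) (PF.cons (PF.cons (PF.cons (PF.cons (PF.leaf (nat_lit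 8114267) (nat_lit 7203526) (nat_lit 32686606) (nat_lit 12811628) [(nat_lit 0), (nat_lit 0), (nat_lit 0), (nat_lit 7203526)]) (PF.cons (PF.leaf (nat_lit 8318491) (nat_lit 348491) (nat_lit 32460085) (nat_lit 12754780) [(nat_lit 348491), (nat_lit 0), (nat_lit 0), (nat_lit 7181818)]) PF.nil)) (PF.cons PF.nil PF.nil)) (PF.cons PF.nil PF.nil)) (PF.cons PF.nil (PF.cons PF.nil (PF.cons PF.nil (PF.cons PF.nil PF.nil))))))))

def p15_15_2_0 : pfC (piC [(nat_lit 41351667), (nat_lit 26450756), (nat_lit 19661130), (nat_lit 13242591)] (nat_lit 6616487)) p15_15_2 (nat_lit 4) (nat_lit 0) (nat_lit 1) = true := by decide +kernel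
def p15_15_2_1 : pfC (piC [(nat_lit 41351667), (nat_lit 26450756), (nat_lit 19661130), (nat_lit 13242591)] (nat_lit 6616487)) p15_15_2 (nat_lit 4) (nat_lit 1) (nat_lit 2) = true := by decide +kernel
def p15_15_2_2 : pfC (piC [(nat_lit 41351667), (nat_lit 26450756), (nat_lit 19661130), (nat_lit 13242591)] (nat_lit 6616487)) p15_15_2 (nat_lit 4) (nat_lit 2) (nat_lit 3) = true := by decide +kernel
def p15_15_2_3 : pfC (piC [(nat_lit 41351667), (nat_lit 26450756), (nat_lit 19661130), (nat_lit 13242591)] (nat_lit 6616487)) p15_15_2 (nat_lit 4) (nat_lit 3) (nat_lit 4) = true := by decide +kernel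
def p15_15_2_4 : pfC (piC [(nat_lit 41351667), (nat_lit 26450756), (nat_lit 19661130), (nat_lit 13242591)] (nat_lit 6616487)) p15_15_2 (nat_lit 4) (nat_lit 4) (nat_lit 5) = true := by decide +kernel
def p15_15_2_5 : pfC (piC [(nat_lit 41351667), (nat_lit 26450756), (nat_lit 19661130), (nat_lit 13242591)] (nat_lit 6616487)) p15_15_2 (nat_lit 4) (nat_lit 5) (nat_lit 6) = true := by decide +kernel
def p15_15_2_6 : pfC (piC [(nat_lit 41351667), (nat_lit 26450756), (nat_lit 19661130), (nat_lit 13242591)] (nat_lit 6616487)) p15_15_2 (nat_lit 4) (nat_lit 6) (nat_lit 7) = true := by decide +kernel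
def p15_15_2_7 : pfC (piC [(nat_lit 41351667), (nat_lit 26450756), (nat_lit 19661130), (nat_lit 13242591)] (nat_lit 6616487)) p15_15_2 (nat_lit 4) (nat_lit 7) (nat_lit 8) = true := by decide +kernel
def p15_15_2_8 : pfC (piC [(nat_lit 41351667), (nat_lit 26450756), (nat_lit 19661130), (nat_lit 13242591)] (nat_lit 6616487)) p15_15_2 (nat_lit 4) (nat_lit 8) (nat_lit 9) = true := by decide +kernel
def p15_15_2_9 : pfC (piC [(nat_lit 41351667), (nat_lit 26450756), (nat_lit 19661130), (nat_lit 13242591)] (nat_lit 6616487)) p15_15_2 (nat_lit 4) (nat_lit 9) (nat_lit 10) = true := by decide +kernel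
def p15_15_2_10 : pfC (piC [(nat_lit 41351667), (nat_lit 26450756), (nat_lit 19661130), (nat_lit 13242591)] (nat_lit 6616487)) p15_15_2 (nat_lit 4) (nat_lit 10) (nat_lit 11) = true := by decide +kernel
def p15_15_2_11 : pfC (piC [(nat_lit 41351667), (nat_lit 26450756), (nat_lit 19661130), (nat_lit 13242591)] (nat_lit 6616487)) p15_15_2 (nat_lit 4) (nat_lit 11) (nat_lit 12) = true := by decide +kernel
def p15_15_2_12 : pfC (piC [(nat_lit 41351667), (nat_lit 26450756), (nat_lit 19661130), (nat_lit 13242591)] (nat_lit 6616487)) p15_15_2 (nat_lit 4) (nat_lit 12) (nat_lit 13) = true := by decide +kernel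
def p15_15_2_13 : pfC (piC [(nat_lit 41351667), (nat_lit 26450756), (nat_lit 19661130), (nat_lit 13242591)] (nat_lit 6616487)) p15_15_2 (nat_lit 4) (nat_lit 13) (nat_lit 14) = true := by decide +kernel
def p15_15_2_14 : pfC (piC [(nat_lit 41351667), (nat_lit 26450756), (nat_lit 19661130), (nat_lit 13242591)] (nat_lit 6616487)) p15_15_2 (nat_lit 4) (nat_lit 14) (nat_lit 15) = true := by decide +kernel
def p15_15_2_15 : pfC (piC [(nat_lit 41351667), (nat_lit 26450756), (nat_lit 19661130), (nat_lit 13242591)] (nat_lit 6616487)) p15_15_2 (nat_lit 4) (nat_lit 15) (nat_lit 16) = true := by decide +kernel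
def p15_15_2_16 : pfC (piC [(nat_lit 41351667), (nat_lit 26450756), (nat_lit 19661130), (nat_lit 13242591)] (nat_lit 6616487)) p15_15_2 (nat_lit 4) (nat_lit 16) (nat_lit 17) = true := by decide +kernel
def p15_15_2_17 : pfC (piC [(nat_lit 41351667), (nat_lit 26450756), (nat_lit 19661130), (nat_lit 13242591)] (nat_lit 6616487)) p15_15_2 (nat_lit 4) (nat_lit 17) (nat_lit 18) = true := by decide +kernel
def p15_15_2_18 : pfC (piC [(nat_lit 41351667), (nat_lit 26450756), (nat_lit 19661130), (nat_lit 13242591)] (nat_lit 6616487)) p15_15_2 (nat_lit 4) (nat_lit 18) (nat_lit 19) = true := by decide +kernel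
def p15_15_2_19 : pfC (piC [(nat_lit 41351667), (nat_lit 26450756), (nat_lit 19661130), (nat_lit 13242591)] (nat_lit 6616487)) p15_15_2 (nat_lit 4) (nat_lit 19) (nat_lit 20) = true := by decide +kernel
def p15_15_2_20 : pfC (piC [(nat_lit 41351667), (nat_lit 26450756), (nat_lit 19661130), (nat_lit 13242591)] (nat_lit 6616487)) p15_15_2 (nat_lit 4) (nat_lit 20) (nat_lit 21) = true := by decide +kernel
def p15_15_2_21 : pfC (piC [(nat_lit 41351667), (nat_lit 26450756), (nat_lit 19661130), (nat_lit 13242591)] (nat_lit 6616487)) p15_15_2 (nat_lit 4) (nat_lit 21) (nat_lit 22) = true := by decide +kernel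
def p15_15_2_22 : pfC (piC [(nat_lit 41351667), (nat_lit 26450756), (nat_lit 19661130), (nat_lit 13242591)] (nat_lit 6616487)) p15_15_2 (nat_lit 4) (nat_lit 22) (nat_lit 23) = true := by decide +kernel
def p15_15_2_23 : pfC (piC [(nat_lit 41351667), (nat_lit 26450756), (nat_lit 19661130), (nat_lit 13242591)] (nat_lit 6616487)) p15_15_2 (nat_lit 4) (nat_lit 23) (nat_lit 24) = true := by decide +kernel
def p15_15_2_24 : pfC (piC [(nat_lit 41351667), (nat_lit 26450756), (nat_lit 19661130), (nat_lit 13242591)] (nat_lit 6616487)) p15_15_2 (nat_lit 4) (nat_lit 24) (nat_lit 25) = true := by decide +kernel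
def p15_15_2_25 : pfC (piC [(nat_lit 41351667), (nat_lit 26450756), (nat_lit 19661130), (nat_lit 13242591)] (nat_lit 6616487)) p15_15_2 (nat_lit 4) (nat_lit 25) (nat_lit 26) = true := by decide +kernel
def p15_15_2_26 : pfC (piC [(nat_lit 41351667), (nat_lit 26450756), (nat_lit 19661130), (nat_lit 13242591)] (nat_lit 6616487)) p15_15_2 (nat_lit 4) (nat_lit 26) (nat_lit 27) = true := by decide +kernel
def p15_15_2_27 : pfC (piC [(nat_lit 41351667), (nat_lit 26450756), (nat_lit 19661130), (nat_lit 13242591)] (nat_lit 6616487)) p15_15_2 (nat_lit 4) (nat_lit 27) (nat_lit 28) = true := by decide +kernel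
def p15_15_2_28 : pfC (piC [(nat_lit 41351667), (nat_lit 26450756), (nat_lit 19661130), (nat_lit 13242591)] (nat_lit 6616487)) p15_15_2 (nat_lit 4) (nat_lit 28) (nat_lit 29) = true := by decide +kernel
def p15_15_2_29 : pfC (piC [(nat_lit 41351667), (nat_lit 26450756), (nat_lit 19661130), (nat_lit 13242591)] (nat_lit 6616487)) p15_15_2 (nat_lit 4) (nat_lit 29) (nat_lit 30) = true := by decide +kernel
def p15_15_2_30 : pfC (piC [(nat_lit 41351667), (nat_lit 26450756), (nat_lit 19661130), (nat_lit 13242591)] (nat_lit 6616487)) p15_15_2 (nat_lit 4) (nat_lit 30) (nat_lit 31) = true := by decide +kernel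
def p15_15_2_31 : pfC (piC [(nat_lit 41351667), (nat_lit 26450756), (nat_lit 19661130), (nat_lit 13242591)] (nat_lit 6616487)) p15_15_2 (nat_lit 4) (nat_lit 31) (nat_lit 32) = true := by decide +kernel
def p15_15_2_32 : pfC (piC [(nat_lit 41351667), (nat_lit 26450756), (nat_lit 19661130), (nat_lit 13242591)] (nat_lit 6616487)) p15_15_2 (nat_lit 4) (nat_lit 32) (nat_lit 33) = true := by decide +kernel
def p15_15_2_33 : pfC (piC [(nat_lit 41351667), (nat_lit 26450756), (nat_lit 19661130), (nat_lit 13242591)] (nat_lit 6616487)) p15_15_2 (nat_lit 4) (nat_lit 33) (nat_lit 34) = true := by decide +kernel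
def p15_15_2_34 : pfC (piC [(nat_lit 41351667), (nat_lit 26450756), (nat_lit 19661130), (nat_lit 13242591)] (nat_lit 6616487)) p15_15_2 (nat_lit 4) (nat_lit 34) (nat_lit 35) = true := by decide +kernel
def p15_15_2_35 : pfC (piC [(nat_lit 41351667), (nat_lit 26450756), (nat_lit 19661130), (nat_lit 13242591)] (nat_lit 6616487)) p15_15_2 (nat_lit 4) (nat_lit 35) (nat_lit 36) = true := by decide +kernel
def p15_15_2_36 : pfC (piC [(nat_lit 41351667), (nat_lit 26450756), (nat_lit 19661130), (nat_lit 13242591)] (nat_lit 6616487)) p15_15_2 (nat_lit 4) (nat_lit 36) (nat_lit 37) = true := by decide +kernel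
def p15_15_2_37 : pfC (piC [(nat_lit 41351667), (nat_lit 26450756), (nat_lit 19661130), (nat_lit 13242591)] (nat_lit 6616487)) p15_15_2 (nat_lit 4) (nat_lit 37) (nat_lit 38) = true := by decide +kernel
def p15_15_2_38 : pfC (piC [(nat_lit 41351667), (nat_lit 26450756), (nat_lit 19661130), (nat_lit 13242591)] (nat_lit 6616487)) p15_15_2 (nat_lit 4) (nat_lit 38) (nat_lit 39) = true := by decide +kernel
def p15_15_2_39 : pfC (piC [(nat_lit 41351667), (nat_lit 26450756), (nat_lit 19661130), (nat_lit 13242591)] (nat_lit 6616487)) p15_15_2 (nat_lit 4) (nat_lit 39) (nat_lit 40) = true := by decide +kernel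
def p15_15_2_40 : pfC (piC [(nat_lit 41351667), (nat_lit 26450756), (nat_lit 19661130), (nat_lit 13242591)] (nat_lit 6616487)) p15_15_2 (nat_lit 4) (nat_lit 40) (nat_lit 41) = true := by decide +kernel
def p15_15_2_41 : pfC (piC [(nat_lit 41351667), (nat_lit 26450756), (nat_lit 19661130), (nat_lit 13242591)] (nat_lit 6616487)) p15_15_2 (nat_lit 4) (nat_lit 41) (nat_lit 42) = true := by decide +kernel
def p15_15_2_42 : pfC (piC [(nat_lit 41351667), (nat_lit 26450756), (nat_lit 19661130), (nat_lit 13242591)] (nat_lit 6616487)) p15_15_2 (nat_lit 4) (nat_lit 42) (nat_lit 43) = true := by decide +kernel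
def p15_15_2_43 : pfC (piC [(nat_lit 41351667), (nat_lit 26450756), (nat_lit 19661130), (nat_lit 13242591)] (nat_lit 6616487)) p15_15_2 (nat_lit 4) (nat_lit 43) (nat_lit 44) = true := by decide +kernel
def p15_15_2_44 : pfC (piC [(nat_lit 41351667), (nat_lit 26450756), (nat_lit 19661130), (nat_lit 13242591)] (nat_lit 6616487)) p15_15_2 (nat_lit 4) (nat_lit 44) (nat_lit 45) = true := by decide +kernel
def p15_15_2_45 : pfC (piC [(nat_lit 41351667), (nat_lit 26450756), (nat_lit 19661130), (nat_lit 13242591)] (nat_lit 6616487)) p15_15_2 (nat_lit 4) (nat_lit 45) (nat_lit 46) = true := by decide +kernel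
def p15_15_2_46 : pfC (piC [(nat_lit 41351667), (nat_lit 26450756), (nat_lit 19661130), (nat_lit 13242591)] (nat_lit 6616487)) p15_15_2 (nat_lit 4) (nat_lit 46) (nat_lit 47) = true := by decide +kernel
def p15_15_2_47 : pfC (piC [(nat_lit 41351667), (nat_lit 26450756), (nat_lit 19661130), (nat_lit 13242591)] (nat_lit 6616487)) p15_15_2 (nat_lit 4) (nat_lit 47) (nat_lit 48) = true := by decide +kernel
def p15_15_2_48 : pfC (piC [(nat_lit 41351667), (nat_lit 26450756), (nat_lit 19661130), (nat_lit 13242591)] (nat_lit 6616487)) p15_15_2 (nat_lit 4) (nat_lit 48) (nat_lit 49) = true := by decide +kernel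
def p15_15_2_49 : pfC (piC [(nat_lit 41351667), (nat_lit 26450756), (nat_lit 19661130), (nat_lit 13242591)] (nat_lit 6616487)) p15_15_2 (nat_lit 4) (nat_lit 49) (nat_lit 50) = true := by decide +kernel
def p15_15_2_50 : pfC (piC [(nat_lit 41351667), (nat_lit 26450756), (nat_lit 19661130), (nat_lit 13242591)] (nat_lit 6616487)) p15_15_2 (nat_lit 4) (nat_lit 50) (nat_lit 51) = true := by decide +kernel
def p15_15_2_51 : pfC (piC [(nat_lit 41351667), (nat_lit 26450756), (nat_lit 19661130), (nat_lit 13242591)] (nat_lit 6616487)) p15_15_2 (nat_lit 4) (nat_lit 51) (nat_lit 52) = true := by decide +kernel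
def p15_15_2_52 : pfC (piC [(nat_lit 41351667), (nat_lit 26450756), (nat_lit 19661130), (nat_lit 13242591)] (nat_lit 6616487)) p15_15_2 (nat_lit 4) (nat_lit 52) (nat_lit 53) = true := by decide +kernel
def p15_15_2_53 : pfC (piC [(nat_lit 41351667), (nat_lit 26450756), (nat_lit 19661130), (nat_lit 13242591)] (nat_lit 6616487)) p15_15_2 (nat_lit 4) (nat_lit 53) (nat_lit 54) = true := by decide +kernel
def p15_15_2_54 : pfC (piC [(nat_lit 41351667), (nat_lit 26450756), (nat_lit 19661130), (nat_lit 13242591)] (nat_lit 6616487)) p15_15_2 (nat_lit 4) (nat_lit 54) (nat_lit 55) = true := by decide +kernel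
def p15_15_2_55 : pfC (piC [(nat_lit 41351667), (nat_lit 26450756), (nat_lit 19661130), (nat_lit 13242591)] (nat_lit 6616487)) p15_15_2 (nat_lit 4) (nat_lit 55) (nat_lit 56) = true := by decide +kernel
def p15_15_2_56 : pfC (piC [(nat_lit 41351667), (nat_lit 26450756), (nat_lit 19661130), (nat_lit 13242591)] (nat_lit 6616487)) p15_15_2 (nat_lit 4) (nat_lit 56) (nat_lit 57) = true := by decide +kernel
def p15_15_2_57 : pfC (piC [(nat_lit 41351667), (nat_lit 26450756), (nat_lit 19661130), (nat_lit 13242591)] (nat_lit 6616487)) p15_15_2 (nat_lit 4) (nat_lit 57) (nat_lit 58) = true := by decide +kernel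
def p15_15_2_58 : pfC (piC [(nat_lit 41351667), (nat_lit 26450756), (nat_lit 19661130), (nat_lit 13242591)] (nat_lit 6616487)) p15_15_2 (nat_lit 4) (nat_lit 58) (nat_lit 59) = true := by decide +kernel
def p15_15_2_59 : pfC (piC [(nat_lit 41351667), (nat_lit 26450756), (nat_lit 19661130), (nat_lit 13242591)] (nat_lit 6616487)) p15_15_2 (nat_lit 4) (nat_lit 59) (nat_lit 60) = true := by decide +kernel
def p15_15_2_60 : pfC (piC [(nat_lit 41351667), (nat_lit 26450756), (nat_lit 19661130), (nat_lit 13242591)] (nat_lit 6616487)) p15_15_2 (nat_lit 4) (nat_lit 60) (nat_lit 61) = true := by decide +kernel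
def p15_15_2_61 : pfC (piC [(nat_lit 41351667), (nat_lit 26450756), (nat_lit 19661130), (nat_lit 13242591)] (nat_lit 6616487)) p15_15_2 (nat_lit 4) (nat_lit 61) (nat_lit 62) = true := by decide +kernel
def p15_15_2_62 : pfC (piC [(nat_lit 41351667), (nat_lit 26450756), (nat_lit 19661130), (nat_lit 13242591)] (nat_lit 6616487)) p15_15_2 (nat_lit 4) (nat_lit 62) (nat_lit 63) = true := by decide +kernel
def p15_15_2_63 : pfC (piC [(nat_lit 41351667), (nat_lit 26450756), (nat_lit 19661130), (nat_lit 13242591)] (nat_lit 6616487)) p15_15_2 (nat_lit 4) (nat_lit 63) (nat_lit 64) = true := by decide +kernel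
def p15_15_2_64 : pfC (piC [(nat_lit 41351667), (nat_lit 26450756), (nat_lit 19661130), (nat_lit 13242591)] (nat_lit 6616487)) p15_15_2 (nat_lit 4) (nat_lit 64) (nat_lit 65) = true := by decide +kernel
def p15_15_2_65 : pfC (piC [(nat_lit 41351667), (nat_lit 26450756), (nat_lit 19661130), (nat_lit 13242591)] (nat_lit 6616487)) p15_15_2 (nat_lit 4) (nat_lit 65) (nat_lit 66) = true := by decide +kernel
def p15_15_2_66 : pfC (piC [(nat_lit 41351667), (nat_lit 26450756), (nat_lit 19661130), (nat_lit 13242591)] (nat_lit 6616487)) p15_15_2 (nat_lit 4) (nat_lit 66) (nat_lit 67) = true := by decide +kernel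
def p15_15_2_67 : pfC (piC [(nat_lit 41351667), (nat_lit 26450756), (nat_lit 19661130), (nat_lit 13242591)] (nat_lit 6616487)) p15_15_2 (nat_lit 4) (nat_lit 67) (nat_lit 68) = true := by decide +kernel
def p15_15_2_68 : pfC (piC [(nat_lit 41351667), (nat_lit 26450756), (nat_lit 19661130), (nat_lit 13242591)] (nat_lit 6616487)) p15_15_2 (nat_lit 4) (nat_lit 68) (nat_lit 69) = true := by decide +kernel
def p15_15_2_69 : pfC (piC [(nat_lit 41351667), (nat_lit 26450756), (nat_lit 19661130), (nat_lit 13242591)] (nat_lit 6616487)) p15_15_2 (nat_lit 4) (nat_lit 69) (nat_lit 70) = true := by decide +kernel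
def p15_15_2_70 : pfC (piC [(nat_lit 41351667), (nat_lit 26450756), (nat_lit 19661130), (nat_lit 13242591)] (nat_lit 6616487)) p15_15_2 (nat_lit 4) (nat_lit 70) (nat_lit 71) = true := by decide +kernel
def p15_15_2_71 : pfC (piC [(nat_lit 41351667), (nat_lit 26450756), (nat_lit 19661130), (nat_lit 13242591)] (nat_lit 6616487)) p15_15_2 (nat_lit 4) (nat_lit 71) (nat_lit 72) = true := by decide +kernel
def p15_15_2_72 : pfC (piC [(nat_lit 41351667), (nat_lit 26450756), (nat_lit 19661130), (nat_lit 13242591)] (nat_lit 6616487)) p15_15_2 (nat_lit 4) (nat_lit 72) (nat_lit 73) = true := by decide +kernel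
def p15_15_2_73 : pfC (piC [(nat_lit 41351667), (nat_lit 26450756), (nat_lit 19661130), (nat_lit 13242591)] (nat_lit 6616487)) p15_15_2 (nat_lit 4) (nat_lit 73) (nat_lit 74) = true := by decide +kernel
def p15_15_2_74 : pfC (piC [(nat_lit 41351667), (nat_lit 26450756), (nat_lit 19661130), (nat_lit 13242591)] (nat_lit 6616487)) p15_15_2 (nat_lit 4) (nat_lit 74) (nat_lit 75) = true := by decide +kernel
def p15_15_2_75 : pfC (piC [(nat_lit 41351667), (nat_lit 26450756), (nat_lit 19661130), (nat_lit 13242591)] (nat_lit 6616487)) p15_15_2 (nat_lit 4) (nat_lit 75) (nat_lit 76) = true := by decide +kernel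
def p15_15_2_76 : pfC (piC [(nat_lit 41351667), (nat_lit 26450756), (nat_lit 19661130), (nat_lit 13242591)] (nat_lit 6616487)) p15_15_2 (nat_lit 4) (nat_lit 76) (nat_lit 77) = true := by decide +kernel
def p15_15_2_77 : pfC (piC [(nat_lit 41351667), (nat_lit 26450756), (nat_lit 19661130), (nat_lit 13242591)] (nat_lit 6616487)) p15_15_2 (nat_lit 4) (nat_lit 77) (nat_lit 78) = true := by decide +kernel
def p15_15_2_78 : pfC (piC [(nat_lit 41351667), (nat_lit 26450756), (nat_lit 19661130), (nat_lit 13242591)] (nat_lit 6616487)) p15_15_2 (nat_lit 4) (nat_lit 78) (nat_lit 79) = true := by decide +kernel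
def p15_15_2_79 : pfC (piC [(nat_lit 41351667), (nat_lit 26450756), (nat_lit 19661130), (nat_lit 13242591)] (nat_lit 6616487)) p15_15_2 (nat_lit 4) (nat_lit 79) (nat_lit 80) = true := by decide +kernel
def p15_15_2_80 : pfC (piC [(nat_lit 41351667), (nat_lit 26450756), (nat_lit 19661130), (nat_lit 13242591)] (nat_lit 6616487)) p15_15_2 (nat_lit 4) (nat_lit 80) (nat_lit 81) = true := by decide +kernel
def p15_15_2_81 : pfC (piC [(nat_lit 41351667), (nat_lit 26450756), (nat_lit 19661130), (nat_lit 13242591)] (nat_lit 6616487)) p15_15_2 (nat_lit 4) (nat_lit 81) (nat_lit 82) = true := by decide +kernel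
def p15_15_2_82 : pfC (piC [(nat_lit 41351667), (nat_lit 26450756), (nat_lit 19661130), (nat_lit 13242591)] (nat_lit 6616487)) p15_15_2 (nat_lit 4) (nat_lit 82) (nat_lit 83) = true := by decide +kernel
def p15_15_2_83 : pfC (piC [(nat_lit 41351667), (nat_lit 26450756), (nat_lit 19661130), (nat_lit 13242591)] (nat_lit 6616487)) p15_15_2 (nat_lit 4) (nat_lit 83) (nat_lit 84) = true := by decide +kernel
def p15_15_2_84 : pfC (piC [(nat_lit 41351667), (nat_lit 26450756), (nat_lit 19661130), (nat_lit 13242591)] (nat_lit 6616487)) p15_15_2 (nat_lit 4) (nat_lit 84) (nat_lit 85) = true := by decide +kernel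
def p15_15_2_85 : pfC (piC [(nat_lit 41351667), (nat_lit 26450756), (nat_lit 19661130), (nat_lit 13242591)] (nat_lit 6616487)) p15_15_2 (nat_lit 4) (nat_lit 85) (nat_lit 86) = true := by decide +kernel
def p15_15_2_86 : pfC (piC [(nat_lit 41351667), (nat_lit 26450756), (nat_lit 19661130), (nat_lit 13242591)] (nat_lit 6616487)) p15_15_2 (nat_lit 4) (nat_lit 86) (nat_lit 87) = true := by decide +kernel
def p15_15_2_87 : pfC (piC [(nat_lit 41351667), (nat_lit 26450756), (nat_lit 19661130), (nat_lit 13242591)] (nat_lit 6616487)) p15_15_2 (nat_lit 4) (nat_lit 87) (nat_lit 88) = true := by decide +kernel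
def p15_15_2_88 : pfC (piC [(nat_lit 41351667), (nat_lit 26450756), (nat_lit 19661130), (nat_lit 13242591)] (nat_lit 6616487)) p15_15_2 (nat_lit 4) (nat_lit 88) (nat_lit 89) = true := by decide +kernel
def p15_15_2_89 : pfC (piC [(nat_lit 41351667), (nat_lit 26450756), (nat_lit 19661130), (nat_lit 13242591)] (nat_lit 6616487)) p15_15_2 (nat_lit 4) (nat_lit 89) (nat_lit 90) = true := by decide +kernel
def p15_15_2_90 : pfC (piC [(nat_lit 41351667), (nat_lit 26450756), (nat_lit 19661130), (nat_lit 13242591)] (nat_lit 6616487)) p15_15_2 (nat_lit 4) (nat_lit 90) (nat_lit 91) = true := by decide +kernel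
def p15_15_2_91 : pfC (piC [(nat_lit 41351667), (nat_lit 26450756), (nat_lit 19661130), (nat_lit 13242591)] (nat_lit 6616487)) p15_15_2 (nat_lit 4) (nat_lit 91) (nat_lit 92) = true := by decide +kernel
def p15_15_2_92 : pfC (piC [(nat_lit 41351667), (nat_lit 26450756), (nat_lit 19661130), (nat_lit 13242591)] (nat_lit 6616487)) p15_15_2 (nat_lit 4) (nat_lit 92) (nat_lit 93) = true := by decide +kernel
def p15_15_2_93 : pfC (piC [(nat_lit 41351667), (nat_lit 26450756), (nat_lit 19661130), (nat_lit 13242591)] (nat_lit 6616487)) p15_15_2 (nat_lit 4) (nat_lit 93) (nat_lit 94) = true := by decide +kernel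
def p15_15_2_94 : pfC (piC [(nat_lit 41351667), (nat_lit 26450756), (nat_lit 19661130), (nat_lit 13242591)] (nat_lit 6616487)) p15_15_2 (nat_lit 4) (nat_lit 94) (nat_lit 95) = true := by decide +kernel
def p15_15_2_95 : pfC (piC [(nat_lit 41351667), (nat_lit 26450756), (nat_lit 19661130), (nat_lit 13242591)] (nat_lit 6616487)) p15_15_2 (nat_lit 4) (nat_lit 95) (nat_lit 96) = true := by decide +kernel
def p15_15_2_96 : pfC (piC [(nat_lit 41351667), (nat_lit 26450756), (nat_lit 19661130), (nat_lit 13242591)] (nat_lit 6616487)) p15_15_2 (nat_lit 4) (nat_lit 96) (nat_lit 97) = true := by decide +kernel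
def p15_15_2_97 : pfC (piC [(nat_lit 41351667), (nat_lit 26450756), (nat_lit 19661130), (nat_lit 13242591)] (nat_lit 6616487)) p15_15_2 (nat_lit 4) (nat_lit 97) (nat_lit 98) = true := by decide +kernel
def p15_15_2_98 : pfC (piC [(nat_lit 41351667), (nat_lit 26450756), (nat_lit 19661130), (nat_lit 13242591)] (nat_lit 6616487)) p15_15_2 (nat_lit 4) (nat_lit 98) (nat_lit 99) = true := by decide +kernel
def p15_15_2_99 : pfC (piC [(nat_lit 41351667), (nat_lit 26450756), (nat_lit 19661130), (nat_lit 13242591)] (nat_lit 6616487)) p15_15_2 (nat_lit 4) (nat_lit 99) (nat_lit 100) = true := by decide +kernel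
theorem p15_15_2_T : PfS (PiF n15_15.reverse (nat_lit 6616487)) p15_15_2 (nat_lit 4) [] 0 :=
  pftab_of (los := [(nat_lit 41351667), (nat_lit 26450756), (nat_lit 19661130), (nat_lit 13242591)]) (by decide +kernel) (hi := (nat_lit 100)) (PfP.trans (PfP.trans (PfP.trans (PfP.trans (PfP.trans (PfP.trans (PfP.trans (PfP.trans (PfP.trans (PfP.trans (PfP.trans (PfP.trans (PfP.trans (PfP.trans (PfP.trans (PfP.trans (PfP.trans (PfP.trans (PfP.trans (PfP.trans (PfP.trans (PfP.trans (PfP.trans (PfP.trans (PfP.trans (PfP.trans (PfP.trans (PfP.trans (PfP.trans (PfP.trans (PfP.trans (PfP.trans (PfP.trans (PfP.trans (PfP.trans (PfP.trans (PfP.trans (PfP.trans (PfP.trans (PfP.trans (PfP.trans (PfP.trans (PfP.trans (PfP.trans (PfP.trans (PfP.trans (PfP.trans (PfP.trans (PfP.trans (PfP.trans (PfP.trans (PfP.trans (PfP.trans (PfP.trans (PfP.trans (PfP.trans (PfP.trans (PfP.trans (PfP.trans (PfP.trans (PfP.trans (PfP.trans (PfP.trans (PfP.trans (PfP.trans (PfP.trans (PfP.trans (PfP.trans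 (PfP.trans (PfP.trans (PfP.trans (PfP.trans (PfP.trans (PfP.trans (PfP.trans (PfP.trans (PfP.trans (PfP.trans (PfP.trans (PfP.trans (PfP.trans (PfP.trans (PfP.trans (PfP.trans (PfP.trans (PfP.trans (PfP.trans (PfP.trans (PfP.trans (PfP.trans (PfP.trans (PfP.trans (PfP.trans (PfP.trans (PfP.trans (PfP.trans (PfP.trans (PfP.trans (PfP.trans (pfC_sound p15_15_2_0) (pfC_sound p15_15_2_1)) (pfC_sound p15_15_2_2)) (pfC_sound p15_15_2_3)) (pfC_sound
 p15_15_2_4)) (pfC_sound p15_15_2_5)) (pfC_sound p15_15_2_6)) (pfC_sound p15_15_2_7)) (pfC_sound p15_15_2_8)) (pfC_sound p15_15_2_9)) (pfC_sound p15_15_2_10)) (pfC_sound p15_15_2_11)) (pfC_sound p15_15_2_12)) (pfC_sound p15_15_2_13)) (pfC_sound p15_15_2_14)) (pfC_sound p15_15_2_15)) (pfC_sound p15_15_2_16)) (pfC_sound p15_15_2_17)) (pfC_sound p15_15_2_18)) (pfC_sound p15_15_2_19)) (pfC_sound p15_15_2_20)) (pfC_sound p15_15_2_21)) (pfC_sound p15_15_2_22)) (pfC_sound p15_15_2_23)) (pfC_sound p15_15_2_24)) (pfC_sound p15_15_2_25))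 (pfC_sound p15_15_2_26)) (pfC_sound p15_15_2_27)) (pfC_sound p15_15_2_28)) (pfC_sound p15_15_2_29)) (pfC_sound p15_15_2_30)) (pfC_sound p15_15_2_31)) (pfC_sound p15_15_2_32)) (pfC_sound p15_15_2_33)) (pfC_sound p15_15_2_34)) (pfC_sound p15_15_2_35)) (pfC_sound p15_15_2_36)) (pfC_sound p15_15_2_37)) (pfC_sound p15_15_2_38)) (pfC_sound p15_15_2_39)) (pfC_sound p15_15_2_40)) (pfC_sound p15_15_2_41)) (pfC_sound p15_15_2_42)) (pfC_sound p15_15_2_43)) (pfC_sound p15_15_2_44)) (pfC_sound p15_15_2_45)) (pfC_sound p15_15_2_46)) (pfC_sound p15_15_2_47)) (pfC_sound p15_15_2_48)) (pfC_sound p15_15_2_49)) (pfC_sound p15_15_2_50)) (pfC_sound p15_15_2_51)) (pfC_sound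
 p15_15_2_52)) (pfC_sound p15_15_2_53)) (pfC_sound p15_15_2_54)) (pfC_sound p15_15_2_55)) (pfC_sound p15_15_2_56)) (pfC_sound p15_15_2_57)) (pfC_sound p15_15_2_58)) (pfC_sound p15_15_2_59)) (pfC_sound p15_15_2_60)) (pfC_sound p15_15_2_61)) (pfC_sound p15_15_2_62)) (pfC_sound p15_15_2_63)) (pfC_sound p15_15_2_64)) (pfC_sound p15_15_2_65)) (pfC_sound p15_15_2_66)) (pfC_sound p15_15_2_67)) (pfC_sound p15_15_2_68)) (pfC_sound p15_15_2_69)) (pfC_sound p15_15_2_70)) (pfC_sound p15_15_2_71)) (pfC_sound p15_15_2_72)) (pfC_sound p15_15_2_73)) (pfC_sound p15_15_2_74)) (pfC_sound p15_15_2_75)) (pfC_sound p15_15_2_76)) (pfC_sound p15_15_2_77)) (pfC_sound p15_15_2_78)) (pfC_sound p15_15_2_79)) (pfC_sound p15_15_2_80)) (pfC_sound p15_15_2_81)) (pfC_sound p15_15_2_82)) (pfC_sound p15_15_2_83)) (pfC_sound p15_15_2_84)) (pfC_sound p15_15_2_85)) (pfC_sound p15_15_2_86)) (pfC_sound p15_15_2_87)) (pfC_sound p15_15_2_88)) (pfC_sound p15_15_2_89)) (pfC_sound p15_15_2_90)) (pfC_sound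 p15_15_2_91)) (pfC_sound p15_15_2_92)) (pfC_sound p15_15_2_93)) (pfC_sound p15_15_2_94)) (pfC_sound p15_15_2_95)) (pfC_sound p15_15_2_96)) (pfC_sound p15_15_2_97)) (pfC_sound p15_15_2_98)) (pfC_sound p15_15_2_99)) (by decide +kernel)

def z15_15_2 : zOK yB15_15 (nat_lit 2) (nat_lit 600) (nat_lit 750) (nat_lit 6616487) (nat_lit 4748153) = true := by decide +kernel
def g15_15_2 : gOK yB15_15.x P15_15 (nat_lit 1426) (q15_15 :: r15_15) (nat_lit 2) (nat_lit 600) (nat_lit 3) (nat_lit 750) (nat_lit 12712500) (nat_lit 12712500) (nat_lit 12712500) (nat_lit 12712500) [(nat_lit 800), (nat_lit 1600)] = true := by decide +kernel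
def v15_15_2 : ivC P15_15 s15_15 w15_15 n15_15 (nat_lit 4) (nat_lit 4850) (nat_lit 2) (nat_lit 600) f144_1_600 f152_1_600 (nat_lit 3) (nat_lit 750) f144_1_750 f152_1_750 (nat_lit 6616487) (nat_lit 4748153) p15_15_2 = true := by decide +kernel
def p15_15_3 : PF := (PF.cons (PF.cons (PF.cons (PF.cons (PF.leaf (nat_lit 3096322) (nat_lit 20817487) (nat_lit 46291325) (nat_lit 20817487) [(nat_lit 0), (nat_lit 0), (nat_lit 0), (nat_lit 0)]) (PF.cons (PF.leaf (nat_lit 3221085) (nat_lit 213579) (nat_lit 46117241) (nat_lit 20777991) [(nat_lit 213579), (nat_lit 0), (nat_lit 0), (nat_lit 0)]) (PF.cons (PF.leaf (nat_lit 3370158) (nat_lit 232092) (nat_lit 45913414) (nat_lit 20731213) [(nat_lit 232092), (nat_lit 0), (nat_lit 0), (nat_lit 0)]) (PF.cons (PF.leaf (nat_lit 3537456) (nat_lit 248482) (nat_lit 45685199) (nat_lit 20678165) [(nat_lit 248482), (nat_lit 0), (nat_lit 0), (nat_lit 0)]) (PF.cons (PF.leaf (nat_lit 3720373) (nat_lit 263230) (nat_lit 45436361) (nat_lit 20619528)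 [(nat_lit 263230), (nat_lit 0), (nat_lit 0), (nat_lit 0)]) (PF.cons (PF.leaf (nat_lit 3916882) (nat_lit 276645) (nat_lit 45169782) (nat_lit 20555804) [(nat_lit 276645), (nat_lit 0), (nat_lit 0), (nat_lit 0)]) (PF.cons (PF.leaf (nat_lit 4125537) (nat_lit 288938) (nat_lit 44887790) (nat_lit 20487388) [(nat_lit 288938), (nat_lit 0), (nat_lit 0), (nat_lit 0)]) (PF.cons (PF.leaf (nat_lit 4344880) (nat_lit 300266) (nat_lit 44592335) (nat_lit 20414609) [(nat_lit 300266), (nat_lit 0),
 (nat_lit 0), (nat_lit 0)]) (PF.cons (PF.leaf (nat_lit 4573823) (nat_lit 310746) (nat_lit 44285091) (nat_lit 20337751) [(nat_lit 310746), (nat_lit 0), (nat_lit 0), (nat_lit 0)]) (PF.cons PF.nil PF.nil)))))))))) (PF.cons (PF.cons (PF.leaf (nat_lit 3563669) (nat_lit 1082407) (nat_lit 45414355) (nat_lit 20612049) [(nat_lit 0), (nat_lit 1082407), (nat_lit 0), (nat_lit 0)]) (PF.cons (PF.leaf (nat_lit 3726620) (nat_lit 258580) (nat_lit 45186085) (nat_lit 20557429) [(nat_lit 258580), (nat_lit 1106717),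 (nat_lit 0), (nat_lit 0)]) (PF.cons (PF.leaf (nat_lit 3907749) (nat_lit 272673) (nat_lit 44936044) (nat_lit 20496824) [(nat_lit 272673), (nat_lit 1130596), (nat_lit 0), (nat_lit 0)]) (PF.cons (PF.leaf (nat_lit 4102955) (nat_lit 285436) (nat_lit 44667896) (nat_lit 20430943) [(nat_lit 285436), (nat_lit 1153664), (nat_lit 0), (nat_lit 0)]) (PF.cons (PF.leaf (nat_lit 4310525) (nat_lit 297105) (nat_lit 44384369) (nat_lit 20360294) [(nat_lit 297105), (nat_lit 1175729), (nat_lit 0), (nat_lit 0)]) (PF.cons (PF.leaf (nat_lit 4528847) (nat_lit 307842) (nat_lit 44087624) (nat_lit 20285275) [(nat_lit 307842), (nat_lit 1196701), (nat_lit 0), (nat_lit 0)]) (PF.cons (PF.leaf (nat_lit 4756753) (nat_lit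
 317767) (nat_lit 43779450) (nat_lit 20206215) [(nat_lit 317767), (nat_lit 1216543), (nat_lit 0), (nat_lit 0)]) (PF.cons PF.nil (PF.cons PF.nil PF.nil))))))))) (PF.cons (PF.cons (PF.leaf (nat_lit 4098900) (nat_lit 1159120) (nat_lit 44422950) (nat_lit 20367620) [(nat_lit 0), (nat_lit 1159120), (nat_lit 0), (nat_lit 0)]) (PF.cons (PF.leaf (nat_lit 4290249) (nat_lit 292963) (nat_lit 44156356) (nat_lit 20300368) [(nat_lit 292963), (nat_lit 1179562), (nat_lit 0), (nat_lit 0)]) (PF.cons (PF.leaf (nat_lit 4495697) (nat_lit 304190) (nat_lit 43873707) (nat_lit 20228109) [(nat_lit 304190), (nat_lit 1199306), (nat_lit 0), (nat_lit 0)]) (PF.cons (PF.leaf (nat_lit 4712231) (nat_lit 314476) (nat_lit 43577616) (nat_lit 20151370) [(nat_lit 314476), (nat_lit 1218197), (nat_lit 0), (nat_lit 0)]) (PF.cons (PF.leaf (nat_lit 4938501) (nat_lit 323955) (nat_lit 43270124) (nat_lit 20070555) [(nat_lit 323955), (nat_lit 1236154), (nat_lit 0), (nat_lit 0)]) (PF.cons (PF.leaf (nat_lit 5173354)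 (nat_lit 332725) (nat_lit 42952897) (nat_lit 19985999) [(nat_lit 332725), (nat_lit 1253142), (nat_lit 0), (nat_lit 0)]) (PF.cons PF.nil PF.nil))))))) (PF.cons (PF.cons (PF.leaf (nat_lit 4682802) (nat_lit 1220529)
 (nat_lit 43356300) (nat_lit 20090923) [(nat_lit 0), (nat_lit 1220529), (nat_lit 0), (nat_lit 0)]) (PF.cons (PF.leaf (nat_lit 4895679) (nat_lit 320235) (nat_lit 43062929) (nat_lit 20013047) [(nat_lit 320235), (nat_lit 1237533), (nat_lit 0), (nat_lit 0)]) (PF.cons (PF.leaf (nat_lit 5119582) (nat_lit 329371) (nat_lit 42757767) (nat_lit 19930964) [(nat_lit 329371), (nat_lit 1253779), (nat_lit 0), (nat_lit 0)]) (PF.cons (PF.leaf (nat_lit 5352281) (nat_lit 337791) (nat_lit 42442748) (nat_lit 19845087) [(nat_lit 337791), (nat_lit 1269200), (nat_lit 0), (nat_lit 0)]) (PF.cons PF.nil PF.nil))))) (PF.cons (PF.cons (PF.leaf (nat_lit 5301361) (nat_lit 1269633) (nat_lit 42242723) (nat_lit 19787557) [(nat_lit 0), (nat_lit 1269633), (nat_lit 0), (nat_lit 0)]) (PF.cons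 (PF.leaf (nat_lit 5530426) (nat_lit 342203) (nat_lit 41931340) (nat_lit 19700820) [(nat_lit 342203), (nat_lit 1283612), (nat_lit 0), (nat_lit 0)]) (PF.cons (PF.leaf (nat_lit 5768250) (nat_lit 349709) (nat_lit 41611436) (nat_lit 19610561) [(nat_lit 349709), (nat_lit 1296848), (nat_lit 0), (nat_lit 0)]) (PF.cons PF.nil PF.nil)))) (PF.cons (PF.cons (PF.leaf (nat_lit 5943718) (nat_lit 1308539) (nat_lit 41103580) (nat_lit 19462535)
 [(nat_lit 0), (nat_lit 1308539), (nat_lit 0), (nat_lit 0)]) (PF.cons (PF.leaf (nat_lit 6184812) (nat_lit 359978) (nat_lit 40780977) (nat_lit 19368531) [(nat_lit 359978), (nat_lit 1319865), (nat_lit 0), (nat_lit 0)]) PF.nil)) (PF.cons PF.nil (PF.cons PF.nil PF.nil)))))))) (PF.cons (PF.cons (PF.cons (PF.leaf (nat_lit 4059124) (nat_lit 2888167) (nat_lit 43978099) (nat_lit 20242546) [(nat_lit 0), (nat_lit 0), (nat_lit 2888167), (nat_lit 0)]) (PF.cons (PF.leaf (nat_lit 4229941) (nat_lit 277081) (nat_lit 43741859) (nat_lit 20181801) [(nat_lit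 277081), (nat_lit 0), (nat_lit 2908071), (nat_lit 0)]) (PF.cons (PF.leaf (nat_lit 4418160) (nat_lit 290339) (nat_lit 43484995) (nat_lit 20114983) [(nat_lit 290339), (nat_lit 0), (nat_lit 2928155), (nat_lit 0)]) (PF.cons (PF.leaf (nat_lit 4619649) (nat_lit 302180) (nat_lit 43211388) (nat_lit 20042939) [(nat_lit 302180), (nat_lit 0), (nat_lit 2947942), (nat_lit 0)]) (PF.cons (PF.leaf (nat_lit 4832615) (nat_lit 312888) (nat_lit 42923864) (nat_lit 19966273) [(nat_lit 312888), (nat_lit 0), (nat_lit 2967119), (nat_lit 0)]) (PF.cons (PF.leaf (nat_lit 5055444) (nat_lit 322654) (nat_lit 42624616) (nat_lit 19885448) [(nat_lit 322654), (nat_lit 0), (nat_lit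
 2985476), (nat_lit 0)]) (PF.cons (PF.leaf (nat_lit 5286962) (nat_lit 331613) (nat_lit 42315420) (nat_lit 19800840) [(nat_lit 331613), (nat_lit 0), (nat_lit 3002872), (nat_lit 0)]) (PF.cons PF.nil (PF.cons PF.nil PF.nil))))))))) (PF.cons (PF.cons (PF.leaf (nat_lit 4606576) (nat_lit 1205599) (nat_lit 42971148) (nat_lit 19976625) [(nat_lit 0), (nat_lit 1205599), (nat_lit 2955438), (nat_lit 0)]) (PF.cons (PF.leaf (nat_lit 4803346) (nat_lit 307952) (nat_lit 42701377) (nat_lit 19903939) [(nat_lit 307952), (nat_lit 1222871), (nat_lit 2972672), (nat_lit 0)]) (PF.cons (PF.leaf (nat_lit 5013294) (nat_lit 318351) (nat_lit 42416822) (nat_lit 19826352) [(nat_lit 318351), (nat_lit 1239470), (nat_lit 2989464), (nat_lit 0)]) (PF.cons (PF.leaf (nat_lit 5233633) (nat_lit 327781) (nat_lit 42120145) (nat_lit 19744467) [(nat_lit 327781), (nat_lit 1255279), (nat_lit 3005575), (nat_lit 0)]) (PF.cons (PF.leaf (nat_lit 5462866) (nat_lit 336398) (nat_lit 41813385) (nat_lit 19658742) [(nat_lit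 336398), (nat_lit 1270240), (nat_lit 3020849), (nat_lit 0)]) (PF.cons PF.nil (PF.cons PF.nil PF.nil))))))) (PF.cons (PF.cons (PF.leaf (nat_lit 5195816) (nat_lit 1255922) (nat_lit 41905690) (nat_lit 19682316) [(nat_lit
 0), (nat_lit 1255922), (nat_lit 3008960), (nat_lit 0)]) (PF.cons (PF.leaf (nat_lit 5411824) (nat_lit 332170) (nat_lit 41613362) (nat_lit 19599929) [(nat_lit 332170), (nat_lit 1270184), (nat_lit 3022980), (nat_lit 0)]) (PF.cons (PF.leaf (nat_lit 5638102) (nat_lit 340536) (nat_lit 41310429) (nat_lit 19513542) [(nat_lit 340536), (nat_lit 1283740), (nat_lit 3036286), (nat_lit 0)]) (PF.cons (PF.leaf (nat_lit 5872454) (nat_lit 348182) (nat_lit 40998804) (nat_lit 19423613) [(nat_lit 348182), (nat_lit 1296543), (nat_lit 3048758), (nat_lit 0)]) (PF.cons PF.nil PF.nil))))) (PF.cons (PF.cons (PF.leaf (nat_lit 5814014) (nat_lit 1295820) (nat_lit 40806649) (nat_lit 19365313) [(nat_lit 0), (nat_lit 1295820), (nat_lit 3049386), (nat_lit 0)]) (PF.cons (PF.leaf (nat_lit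 6044291) (nat_lit 351492) (nat_lit 40499825) (nat_lit 19275078) [(nat_lit 351492), (nat_lit 1307428), (nat_lit 3060129), (nat_lit 0)]) (PF.cons (PF.leaf (nat_lit 6282644) (nat_lit 358300) (nat_lit 40185505) (nat_lit 19181582) [(nat_lit 358300), (nat_lit 1318355), (nat_lit 3070057), (nat_lit 0)]) (PF.cons PF.nil PF.nil)))) (PF.cons (PF.cons (PF.leaf (nat_lit 6451410) (nat_lit 1326999) (nat_lit 39692437) (nat_lit 19030509) [(nat_lit
 0), (nat_lit 1326999), (nat_lit 3077865), (nat_lit 0)]) (PF.cons PF.nil PF.nil)) (PF.cons PF.nil PF.nil)))))) (PF.cons (PF.cons (PF.cons (PF.leaf (nat_lit 5106324) (nat_lit 2996612) (nat_lit 41545895) (nat_lit 19569692) [(nat_lit 0), (nat_lit 0), (nat_lit 2996612), (nat_lit 0)]) (PF.cons (PF.leaf (nat_lit 5306834) (nat_lit 319939) (nat_lit 41276443) (nat_lit 19492825) [(nat_lit 319939), (nat_lit 0), (nat_lit 3009802), (nat_lit 0)]) (PF.cons (PF.leaf (nat_lit 5519796) (nat_lit 329605) (nat_lit 40993366) (nat_lit 19411203) [(nat_lit 329605),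 (nat_lit 0), (nat_lit 3022515), (nat_lit 0)]) (PF.cons (PF.leaf (nat_lit 5742407) (nat_lit 338287) (nat_lit 40699323) (nat_lit 19325486) [(nat_lit 338287), (nat_lit 0), (nat_lit 3034569), (nat_lit 0)]) (PF.cons (PF.leaf (nat_lit 5973243) (nat_lit 346154) (nat_lit 40396325) (nat_lit 19236173) [(nat_lit 346154), (nat_lit 0), (nat_lit 3045847), (nat_lit 0)]) (PF.cons PF.nil (PF.cons PF.nil PF.nil))))))) (PF.cons (PF.cons (PF.leaf (nat_lit 5697148) (nat_lit 1282040) (nat_lit 40493024) (nat_lit 19262532) [(nat_lit 0), (nat_lit 1282040), (nat_lit 3035607), (nat_lit 0)]) (PF.cons (PF.leaf (nat_lit 5914984) (nat_lit 341555) (nat_lit 40204486) (nat_lit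
 19176859) [(nat_lit 341555), (nat_lit 1294018), (nat_lit 3045946), (nat_lit 0)]) (PF.cons (PF.leaf (nat_lit 6142407) (nat_lit 349242) (nat_lit 39906376) (nat_lit 19087404) [(nat_lit 349242), (nat_lit 1305332), (nat_lit 3055606), (nat_lit 0)]) (PF.cons (PF.leaf (nat_lit 6377275) (nat_lit 356213) (nat_lit 39600566) (nat_lit 18994656) [(nat_lit 356213), (nat_lit 1315949), (nat_lit 3064500), (nat_lit 0)]) (PF.cons PF.nil PF.nil))))) (PF.cons (PF.cons (PF.leaf (nat_lit 6312232) (nat_lit 1314348) (nat_lit 39416935) (nat_lit 18936275) [(nat_lit 0), (nat_lit 1314348), (nat_lit 3063452), (nat_lit 0)]) (PF.cons (PF.leaf (nat_lit 6542696) (nat_lit 358612) (nat_lit 39116731) (nat_lit 18843693) [(nat_lit 358612), (nat_lit 1323964), (nat_lit 3070923), (nat_lit 0)]) (PF.cons PF.nil (PF.cons PF.nil PF.nil)))) (PF.cons (PF.cons (PF.leaf (nat_lit 6942705) (nat_lit 1339100) (nat_lit 38333613) (nat_lit 18595622) [(nat_lit 0), (nat_lit 1339100), (nat_lit 3081138), (nat_lit 0)]) (PF.cons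 PF.nil PF.nil)) (PF.cons PF.nil PF.nil))))) (PF.cons (PF.cons (PF.cons (PF.leaf (nat_lit 6185700) (nat_lit 3048835) (nat_lit 39125647) (nat_lit 18836658) [(nat_lit 0), (nat_lit 0), (nat_lit 3048835), (nat_lit 0)])
 (PF.cons (PF.leaf (nat_lit 6404271) (nat_lit 348834) (nat_lit 38842869) (nat_lit 18748755) [(nat_lit 348834), (nat_lit 0), (nat_lit 3056118), (nat_lit 0)]) (PF.cons (PF.leaf (nat_lit 6631862) (nat_lit 355918) (nat_lit 38551423) (nat_lit 18657291) [(nat_lit 355918), (nat_lit 0), (nat_lit 3062753), (nat_lit 0)]) (PF.cons PF.nil PF.nil)))) (PF.cons (PF.cons (PF.leaf (nat_lit 6795492) (nat_lit 1326638) (nat_lit 38078311) (nat_lit 18504851) [(nat_lit 0), (nat_lit 1326638), (nat_lit 3066336), (nat_lit 0)]) (PF.cons (PF.leaf (nat_lit 7025329) (nat_lit 363931) (nat_lit 37786156) (nat_lit 18410893) [(nat_lit 363931), (nat_lit 1334565), (nat_lit 3071088), (nat_lit 0)]) PF.nil)) (PF.cons PF.nil PF.nil))) (PF.cons (PF.cons (PF.cons (PF.leaf (nat_lit 7263621) (nat_lit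 3060209) (nat_lit 36793367) (nat_lit 18074606) [(nat_lit 0), (nat_lit 0), (nat_lit 3060209), (nat_lit 0)]) (PF.cons PF.nil PF.nil)) (PF.cons PF.nil PF.nil)) (PF.cons PF.nil PF.nil)))))) (PF.cons (PF.cons (PF.cons (PF.cons (PF.leaf (nat_lit 4895090) (nat_lit 7714259) (nat_lit 40269891) (nat_lit 19124662) [(nat_lit 0), (nat_lit 0), (nat_lit 0), (nat_lit 7714259)]) (PF.cons (PF.leaf (nat_lit 5065725) (nat_lit 285608) (nat_lit
 40051953) (nat_lit 19060741) [(nat_lit 285608), (nat_lit 0), (nat_lit 0), (nat_lit 7710509)]) (PF.cons (PF.leaf (nat_lit 5252817) (nat_lit 298222) (nat_lit 39815828) (nat_lit 18990887) [(nat_lit 298222), (nat_lit 0), (nat_lit 0), (nat_lit 7705650)]) (PF.cons (PF.leaf (nat_lit 5452240) (nat_lit 309312) (nat_lit 39565188) (nat_lit 18916065) [(nat_lit 309312), (nat_lit 0), (nat_lit 0), (nat_lit 7699619)]) (PF.cons (PF.leaf (nat_lit 5662085) (nat_lit 319196) (nat_lit 39302687) (nat_lit 18836966) [(nat_lit 319196), (nat_lit 0), (nat_lit 0), (nat_lit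 7692372)]) (PF.cons (PF.leaf (nat_lit 5880895) (nat_lit 328090) (nat_lit 39030364) (nat_lit 18754117) [(nat_lit 328090), (nat_lit 0), (nat_lit 0), (nat_lit 7683877)]) (PF.cons (PF.leaf (nat_lit 6107358) (nat_lit 336149) (nat_lit 38749853) (nat_lit 18667943) [(nat_lit 336149), (nat_lit 0), (nat_lit 0), (nat_lit 7674117)]) (PF.cons PF.nil (PF.cons PF.nil PF.nil))))))))) (PF.cons (PF.cons (PF.leaf (nat_lit 5430151) (nat_lit 1220371) (nat_lit 39349841) (nat_lit 18849144) [(nat_lit 0), (nat_lit 1220371), (nat_lit 0), (nat_lit 7689455)]) (PF.cons (PF.leaf (nat_lit 5624143) (nat_lit 313552) (nat_lit 39104024) (nat_lit 18774514) [(nat_lit 313552),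
 (nat_lit 1234682), (nat_lit 0), (nat_lit 7682039)]) (PF.cons (PF.leaf (nat_lit 5830338) (nat_lit 323180) (nat_lit 38845490) (nat_lit 18695322) [(nat_lit 323180), (nat_lit 1248254), (nat_lit 0), (nat_lit 7673384)]) (PF.cons (PF.leaf (nat_lit 6045954) (nat_lit 331794) (nat_lit 38576699) (nat_lit 18612232) [(nat_lit 331794), (nat_lit 1261017), (nat_lit 0), (nat_lit 7663481)]) (PF.cons (PF.leaf (nat_lit 6269584) (nat_lit 339567) (nat_lit 38299519) (nat_lit 18525747) [(nat_lit 339567), (nat_lit 1272946), (nat_lit 0), (nat_lit 7652328)]) (PF.cons (PF.leaf (nat_lit 6500104) (nat_lit 346625) (nat_lit 38015435) (nat_lit 18436270) [(nat_lit 346625), (nat_lit 1284045), (nat_lit 0), (nat_lit 7639932)]) (PF.cons PF.nil PF.nil))))))) (PF.cons (PF.cons (PF.leaf (nat_lit 6000119) (nat_lit 1259855) (nat_lit 38386349) (nat_lit 18550863) [(nat_lit 0), (nat_lit 1259855), (nat_lit 0), (nat_lit 7651889)]) (PF.cons (PF.leaf (nat_lit 6210925) (nat_lit 334855) (nat_lit 38122531) (nat_lit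 18468037) [(nat_lit 334855), (nat_lit 1271321), (nat_lit 0), (nat_lit 7640744)]) (PF.cons (PF.leaf (nat_lit 6431134) (nat_lit 342430) (nat_lit 37849784) (nat_lit 18381645) [(nat_lit 342430), (nat_lit 1282086), (nat_lit
 0), (nat_lit 7628349)]) (PF.cons (PF.leaf (nat_lit 6658579) (nat_lit 349274) (nat_lit 37569838) (nat_lit 18292170) [(nat_lit 349274), (nat_lit 1292127), (nat_lit 0), (nat_lit 7614725)]) (PF.cons PF.nil PF.nil))))) (PF.cons (PF.cons (PF.leaf (nat_lit 6593372) (nat_lit 1290110) (nat_lit 37400562) (nat_lit 18235649) [(nat_lit 0), (nat_lit 1290110), (nat_lit 0), (nat_lit 7602268)]) (PF.cons (PF.leaf (nat_lit 6816411) (nat_lit 351448) (nat_lit 37125720) (nat_lit 18146549) [(nat_lit 351448), (nat_lit 1299176), (nat_lit 0), (nat_lit 7587565)]) (PF.cons (PF.leaf (nat_lit 7046766) (nat_lit 357500) (nat_lit 36844688) (nat_lit 18054648) [(nat_lit 357500), (nat_lit 1307601), (nat_lit 0), (nat_lit 7571670)]) (PF.cons PF.nil PF.nil)))) (PF.cons (PF.cons (PF.leaf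 (nat_lit 7201386) (nat_lit 1312877) (nat_lit 36407477) (nat_lit 17908114) [(nat_lit 0), (nat_lit 1312877), (nat_lit 0), (nat_lit 7541709)]) (PF.cons PF.nil PF.nil)) (PF.cons PF.nil PF.nil)))))) (PF.cons (PF.cons (PF.cons (PF.leaf (nat_lit 5897817) (nat_lit 2967162) (nat_lit 38076301) (nat_lit 18444025) [(nat_lit 0), (nat_lit 0), (nat_lit 2967162), (nat_lit 7621324)]) (PF.cons (PF.leaf (nat_lit 6094013) (nat_lit 322377) (nat_lit
 37833098) (nat_lit 18367036) [(nat_lit 322377), (nat_lit 0), (nat_lit 2975660), (nat_lit 7610640)]) (PF.cons (PF.leaf (nat_lit 6301806) (nat_lit 331328) (nat_lit 37578164) (nat_lit 18285673) [(nat_lit 331328), (nat_lit 0), (nat_lit 2983638), (nat_lit 7598679)]) (PF.cons (PF.leaf (nat_lit 6518407) (nat_lit 339267) (nat_lit 37313920) (nat_lit 18200631) [(nat_lit 339267), (nat_lit 0), (nat_lit 2990978), (nat_lit 7585479)]) (PF.cons (PF.leaf (nat_lit 6742425) (nat_lit 346379) (nat_lit 37042183) (nat_lit 18112431) [(nat_lit 346379), (nat_lit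 0), (nat_lit 2997607), (nat_lit 7571071)]) (PF.cons PF.nil (PF.cons PF.nil PF.nil))))))) (PF.cons (PF.cons (PF.leaf (nat_lit 6466351) (nat_lit 1275695) (nat_lit 37131915) (nat_lit 18139659) [(nat_lit 0), (nat_lit 1275695), (nat_lit 2989374), (nat_lit 7572168)]) (PF.cons (PF.leaf (nat_lit 6677841) (nat_lit 341435) (nat_lit 36873358) (nat_lit 18055280) [(nat_lit 341435), (nat_lit 1285309), (nat_lit 2995418), (nat_lit 7558010)]) (PF.cons (PF.leaf (nat_lit 6898143) (nat_lit 348414) (nat_lit 36606699) (nat_lit 17967548) [(nat_lit 348414), (nat_lit 1294271), (nat_lit 3000829), (nat_lit 7542634)]) (PF.cons (PF.leaf (nat_lit 7125149) (nat_lit 354671)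
 (nat_lit 36333617) (nat_lit 17876961) [(nat_lit 354671), (nat_lit 1302570), (nat_lit 3005557), (nat_lit 7526089)]) (PF.cons PF.nil PF.nil))))) (PF.cons (PF.cons (PF.leaf (nat_lit 7054578) (nat_lit 1299981) (nat_lit 36172529) (nat_lit 17821245) [(nat_lit 0), (nat_lit 1299981), (nat_lit 3002631), (nat_lit 7512442)]) (PF.cons (PF.leaf (nat_lit 7276993) (nat_lit 356135) (nat_lit 35905010) (nat_lit 17731361) [(nat_lit 356135), (nat_lit 1307464), (nat_lit 3006302), (nat_lit 7495074)]) (PF.cons PF.nil (PF.cons PF.nil PF.nil)))) (PF.cons (PF.cons (PF.leaf (nat_lit 7654710) (nat_lit 1317774) (nat_lit 35211181) (nat_lit 17493079) [(nat_lit 0), (nat_lit 1317774), (nat_lit 3007905), (nat_lit 7443325)]) (PF.cons PF.nil PF.nil)) (PF.cons PF.nil PF.nil))))) (PF.cons (PF.cons (PF.cons (PF.leaf (nat_lit 6920119) (nat_lit 2987002) (nat_lit 35923461) (nat_lit 17729302) [(nat_lit 0), (nat_lit 0), (nat_lit 2987002), (nat_lit 7482043)]) (PF.cons (PF.leaf (nat_lit 7131499) (nat_lit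 346400) (nat_lit 35671332) (nat_lit 17644111) [(nat_lit 346400), (nat_lit 0), (nat_lit 2990775), (nat_lit 7465417)]) (PF.cons (PF.leaf (nat_lit 7351206) (nat_lit 352849) (nat_lit 35411827) (nat_lit 17555773) [(nat_lit
 352849), (nat_lit 0), (nat_lit 2993950), (nat_lit 7447612)]) (PF.cons PF.nil PF.nil)))) (PF.cons (PF.cons (PF.leaf (nat_lit 7501885) (nat_lit 1305311) (nat_lit 34993620) (nat_lit 17410188) [(nat_lit 0), (nat_lit 1305311), (nat_lit 2992742), (nat_lit 7414206)]) (PF.cons (PF.leaf (nat_lit 7723072) (nat_lit 359459) (nat_lit 34734201) (nat_lit 17320175) [(nat_lit 359459), (nat_lit 1311448), (nat_lit 2994417), (nat_lit 7394693)]) PF.nil)) (PF.cons PF.nil PF.nil))) (PF.cons (PF.cons (PF.cons (PF.leaf (nat_lit 7935395) (nat_lit 2976715) (nat_lit 33864376) (nat_lit 17004634) [(nat_lit 0), (nat_lit 0), (nat_lit 2976715), (nat_lit 7309654)]) (PF.cons PF.nil PF.nil)) (PF.cons PF.nil PF.nil)) (PF.cons PF.nil PF.nil))))) (PF.cons (PF.cons (PF.cons (PF.cons (PF.leaf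 (nat_lit 6614268) (nat_lit 7342889) (nat_lit 35044084) (nat_lit 17378948) [(nat_lit 0), (nat_lit 0), (nat_lit 0), (nat_lit 7342889)]) (PF.cons (PF.leaf (nat_lit 6805258) (nat_lit 321107) (nat_lit 34825893) (nat_lit 17304330) [(nat_lit 321107), (nat_lit 0), (nat_lit 0), (nat_lit 7328740)]) (PF.cons (PF.leaf (nat_lit 7007125) (nat_lit 329439) (nat_lit 34597528) (nat_lit 17225720) [(nat_lit 329439), (nat_lit 0), (nat_lit 0), (nat_lit
 7313342)]) (PF.cons (PF.leaf (nat_lit 7217105) (nat_lit 336754) (nat_lit 34361168) (nat_lit 17143811) [(nat_lit 336754), (nat_lit 0), (nat_lit 0), (nat_lit 7296784)]) (PF.cons (PF.leaf (nat_lit 7433813) (nat_lit 343244) (nat_lit 34118438) (nat_lit 17059119) [(nat_lit 343244), (nat_lit 0), (nat_lit 0), (nat_lit 7279139)]) PF.nil))))) (PF.cons (PF.cons (PF.leaf (nat_lit 7160239) (nat_lit 1257709) (nat_lit 34201024) (nat_lit 17086257) [(nat_lit 0), (nat_lit 1257709), (nat_lit 0), (nat_lit 7281910)]) (PF.cons (PF.leaf (nat_lit 7364952) (nat_lit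 338124) (nat_lit 33970162) (nat_lit 17005365) [(nat_lit 338124), (nat_lit 1265562), (nat_lit 0), (nat_lit 7264799)]) (PF.cons (PF.leaf (nat_lit 7577838) (nat_lit 344518) (nat_lit 33732349) (nat_lit 16921491) [(nat_lit 344518), (nat_lit 1272784), (nat_lit 0), (nat_lit 7246575)]) (PF.cons PF.nil PF.nil)))) (PF.cons (PF.cons (PF.leaf (nat_lit 7722638) (nat_lit 1276196) (nat_lit 33347849) (nat_lit 16783029) [(nat_lit 0), (nat_lit 1276196), (nat_lit 0), (nat_lit 7212770)]) (PF.cons (PF.leaf (nat_lit 7936954) (nat_lit 350995) (nat_lit 33109829) (nat_lit 16697656) [(nat_lit 350995), (nat_lit 1282116), (nat_lit 0), (nat_lit 7193049)]) PF.nil)) (PF.cons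
 PF.nil (PF.cons PF.nil PF.nil))))) (PF.cons (PF.cons (PF.cons (PF.leaf (nat_lit 7583411) (nat_lit 2908989) (nat_lit 33134437) (nat_lit 16699458) [(nat_lit 0), (nat_lit 0), (nat_lit 2908989), (nat_lit 7182963)]) (PF.cons (PF.leaf (nat_lit 7787461) (nat_lit 341466) (nat_lit 32909928) (nat_lit 16618597) [(nat_lit 341466), (nat_lit 0), (nat_lit 2910398), (nat_lit 7164211)]) (PF.cons (PF.leaf (nat_lit 7999314) (nat_lit 347391) (nat_lit 32679057) (nat_lit 16534939) [(nat_lit 347391), (nat_lit 0), (nat_lit 2911255), (nat_lit 7144389)]) (PF.cons PF.nil PF.nil)))) (PF.cons (PF.cons (PF.leaf (nat_lit 8138857) (nat_lit 1276905) (nat_lit 32309299) (nat_lit 16398290) [(nat_lit 0), (nat_lit 1276905), (nat_lit 2907005), (nat_lit 7108655)]) (PF.cons PF.nil PF.nil)) (PF.cons PF.nil PF.nil))) (PF.cons (PF.cons (PF.cons (PF.leaf (nat_lit 8542597) (nat_lit 2885087) (nat_lit 31315146) (nat_lit 16021144) [(nat_lit 0), (nat_lit 0), (nat_lit 2885087), (nat_lit 7001173)]) (PF.cons PF.nil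 PF.nil)) (PF.cons PF.nil PF.nil)) PF.nil))) (PF.cons (PF.cons (PF.cons (PF.cons (PF.leaf (nat_lit 8187649) (nat_lit 6886024) (nat_lit 30698443) (nat_lit 15752296) [(nat_lit 0), (nat_lit 0), (nat_lit 0), (nat_lit
 6886024)]) (PF.cons (PF.leaf (nat_lit 8384515) (nat_lit 335042) (nat_lit 30498262) (nat_lit 15676440) [(nat_lit 335042), (nat_lit 0), (nat_lit 0), (nat_lit 6866355)]) (PF.cons PF.nil PF.nil))) (PF.cons (PF.cons (PF.leaf (nat_lit 8718689) (nat_lit 1244710) (nat_lit 29964836) (nat_lit 15471040) [(nat_lit 0), (nat_lit 1244710), (nat_lit 0), (nat_lit 6809408)]) PF.nil) PF.nil)) (PF.cons PF.nil PF.nil)) (PF.cons PF.nil (PF.cons PF.nil (PF.cons PF.nil (PF.cons PF.nil PF.nil))))))))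

def p15_15_3_0 : pfC (piC [(nat_lit 41351667), (nat_lit 26450756), (nat_lit 19661130), (nat_lit 13242591)] (nat_lit 4748153)) p15_15_3 (nat_lit 4) (nat_lit 0) (nat_lit 1) = true := by decide +kernel
def p15_15_3_1 : pfC (piC [(nat_lit 41351667), (nat_lit 26450756), (nat_lit 19661130), (nat_lit 13242591)] (nat_lit 4748153)) p15_15_3 (nat_lit 4) (nat_lit 1) (nat_lit 2) = true := by decide +kernel
def p15_15_3_2 : pfC (piC [(nat_lit 41351667), (nat_lit 26450756), (nat_lit 19661130), (nat_lit 13242591)] (nat_lit 4748153)) p15_15_3 (nat_lit 4) (nat_lit 2) (nat_lit 3) = true := by decide +kernel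
def p15_15_3_3 : pfC (piC [(nat_lit 41351667), (nat_lit 26450756), (nat_lit 19661130), (nat_lit 13242591)] (nat_lit 4748153)) p15_15_3 (nat_lit 4) (nat_lit 3) (nat_lit 4) = true := by decide +kernel
def p15_15_3_4 : pfC (piC [(nat_lit 41351667), (nat_lit 26450756), (nat_lit 19661130), (nat_lit 13242591)] (nat_lit 4748153)) p15_15_3 (nat_lit 4) (nat_lit 4) (nat_lit 5) = true := by decide +kernel
def p15_15_3_5 : pfC (piC [(nat_lit 41351667), (nat_lit 26450756), (nat_lit 19661130), (nat_lit 13242591)] (nat_lit 4748153)) p15_15_3 (nat_lit 4) (nat_lit 5) (nat_lit 6) = true := by decide +kernel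
def p15_15_3_6 : pfC (piC [(nat_lit 41351667), (nat_lit 26450756), (nat_lit 19661130), (nat_lit 13242591)] (nat_lit 4748153)) p15_15_3 (nat_lit 4) (nat_lit 6) (nat_lit 7) = true := by decide +kernel
def p15_15_3_7 : pfC (piC [(nat_lit 41351667), (nat_lit 26450756), (nat_lit 19661130), (nat_lit 13242591)] (nat_lit 4748153)) p15_15_3 (nat_lit 4) (nat_lit 7) (nat_lit 8) = true := by decide +kernel
def p15_15_3_8 : pfC (piC [(nat_lit 41351667), (nat_lit 26450756), (nat_lit 19661130), (nat_lit 13242591)] (nat_lit 4748153)) p15_15_3 (nat_lit 4) (nat_lit 8) (nat_lit 9) = true := by decide +kernel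
def p15_15_3_9 : pfC (piC [(nat_lit 41351667), (nat_lit 26450756), (nat_lit 19661130), (nat_lit 13242591)] (nat_lit 4748153)) p15_15_3 (nat_lit 4) (nat_lit 9) (nat_lit 10) = true := by decide +kernel
def p15_15_3_10 : pfC (piC [(nat_lit 41351667), (nat_lit 26450756), (nat_lit 19661130), (nat_lit 13242591)] (nat_lit 4748153)) p15_15_3 (nat_lit 4) (nat_lit 10) (nat_lit 11) = true := by decide +kernel
def p15_15_3_11 : pfC (piC [(nat_lit 41351667), (nat_lit 26450756), (nat_lit 19661130), (nat_lit 13242591)] (nat_lit 4748153)) p15_15_3 (nat_lit 4) (nat_lit 11) (nat_lit 12) = true := by decide +kernel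
def p15_15_3_12 : pfC (piC [(nat_lit 41351667), (nat_lit 26450756), (nat_lit 19661130), (nat_lit 13242591)] (nat_lit 4748153)) p15_15_3 (nat_lit 4) (nat_lit 12) (nat_lit 13) = true := by decide +kernel
def p15_15_3_13 : pfC (piC [(nat_lit 41351667), (nat_lit 26450756), (nat_lit 19661130), (nat_lit 13242591)] (nat_lit 4748153)) p15_15_3 (nat_lit 4) (nat_lit 13) (nat_lit 14) = true := by decide +kernel
def p15_15_3_14 : pfC (piC [(nat_lit 41351667), (nat_lit 26450756), (nat_lit 19661130), (nat_lit 13242591)] (nat_lit 4748153)) p15_15_3 (nat_lit 4) (nat_lit 14) (nat_lit 15) = true := by decide +kernel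
def p15_15_3_15 : pfC (piC [(nat_lit 41351667), (nat_lit 26450756), (nat_lit 19661130), (nat_lit 13242591)] (nat_lit 4748153)) p15_15_3 (nat_lit 4) (nat_lit 15) (nat_lit 16) = true := by decide +kernel
def p15_15_3_16 : pfC (piC [(nat_lit 41351667), (nat_lit 26450756), (nat_lit 19661130), (nat_lit 13242591)] (nat_lit 4748153)) p15_15_3 (nat_lit 4) (nat_lit 16) (nat_lit 17) = true := by decide +kernel
def p15_15_3_17 : pfC (piC [(nat_lit 41351667), (nat_lit 26450756), (nat_lit 19661130), (nat_lit 13242591)] (nat_lit 4748153)) p15_15_3 (nat_lit 4) (nat_lit 17) (nat_lit 18) = true := by decide +kernel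
def p15_15_3_18 : pfC (piC [(nat_lit 41351667), (nat_lit 26450756), (nat_lit 19661130), (nat_lit 13242591)] (nat_lit 4748153)) p15_15_3 (nat_lit 4) (nat_lit 18) (nat_lit 19) = true := by decide +kernel
def p15_15_3_19 : pfC (piC [(nat_lit 41351667), (nat_lit 26450756), (nat_lit 19661130), (nat_lit 13242591)] (nat_lit 4748153)) p15_15_3 (nat_lit 4) (nat_lit 19) (nat_lit 20) = true := by decide +kernel
def p15_15_3_20 : pfC (piC [(nat_lit 41351667), (nat_lit 26450756), (nat_lit 19661130), (nat_lit 13242591)] (nat_lit 4748153)) p15_15_3 (nat_lit 4) (nat_lit 20) (nat_lit 21) = true := by decide +kernel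
def p15_15_3_21 : pfC (piC [(nat_lit 41351667), (nat_lit 26450756), (nat_lit 19661130), (nat_lit 13242591)] (nat_lit 4748153)) p15_15_3 (nat_lit 4) (nat_lit 21) (nat_lit 22) = true := by decide +kernel
def p15_15_3_22 : pfC (piC [(nat_lit 41351667), (nat_lit 26450756), (nat_lit 19661130), (nat_lit 13242591)] (nat_lit 4748153)) p15_15_3 (nat_lit 4) (nat_lit 22) (nat_lit 23) = true := by decide +kernel
def p15_15_3_23 : pfC (piC [(nat_lit 41351667), (nat_lit 26450756), (nat_lit 19661130), (nat_lit 13242591)] (nat_lit 4748153)) p15_15_3 (nat_lit 4) (nat_lit 23) (nat_lit 24) = true := by decide +kernel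
def p15_15_3_24 : pfC (piC [(nat_lit 41351667), (nat_lit 26450756), (nat_lit 19661130), (nat_lit 13242591)] (nat_lit 4748153)) p15_15_3 (nat_lit 4) (nat_lit 24) (nat_lit 25) = true := by decide +kernel
def p15_15_3_25 : pfC (piC [(nat_lit 41351667), (nat_lit 26450756), (nat_lit 19661130), (nat_lit 13242591)] (nat_lit 4748153)) p15_15_3 (nat_lit 4) (nat_lit 25) (nat_lit 26) = true := by decide +kernel
def p15_15_3_26 : pfC (piC [(nat_lit 41351667), (nat_lit 26450756), (nat_lit 19661130), (nat_lit 13242591)] (nat_lit 4748153)) p15_15_3 (nat_lit 4) (nat_lit 26) (nat_lit 27) = true := by decide +kernel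
def p15_15_3_27 : pfC (piC [(nat_lit 41351667), (nat_lit 26450756), (nat_lit 19661130), (nat_lit 13242591)] (nat_lit 4748153)) p15_15_3 (nat_lit 4) (nat_lit 27) (nat_lit 28) = true := by decide +kernel
def p15_15_3_28 : pfC (piC [(nat_lit 41351667), (nat_lit 26450756), (nat_lit 19661130), (nat_lit 13242591)] (nat_lit 4748153)) p15_15_3 (nat_lit 4) (nat_lit 28) (nat_lit 29) = true := by decide +kernel
def p15_15_3_29 : pfC (piC [(nat_lit 41351667), (nat_lit 26450756), (nat_lit 19661130), (nat_lit 13242591)] (nat_lit 4748153)) p15_15_3 (nat_lit 4) (nat_lit 29) (nat_lit 30) = true := by decide +kernel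
def p15_15_3_30 : pfC (piC [(nat_lit 41351667), (nat_lit 26450756), (nat_lit 19661130), (nat_lit 13242591)] (nat_lit 4748153)) p15_15_3 (nat_lit 4) (nat_lit 30) (nat_lit 31) = true := by decide +kernel
def p15_15_3_31 : pfC (piC [(nat_lit 41351667), (nat_lit 26450756), (nat_lit 19661130), (nat_lit 13242591)] (nat_lit 4748153)) p15_15_3 (nat_lit 4) (nat_lit 31) (nat_lit 32) = true := by decide +kernel
def p15_15_3_32 : pfC (piC [(nat_lit 41351667), (nat_lit 26450756), (nat_lit 19661130), (nat_lit 13242591)] (nat_lit 4748153)) p15_15_3 (nat_lit 4) (nat_lit 32) (nat_lit 33) = true := by decide +kernel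
def p15_15_3_33 : pfC (piC [(nat_lit 41351667), (nat_lit 26450756), (nat_lit 19661130), (nat_lit 13242591)] (nat_lit 4748153)) p15_15_3 (nat_lit 4) (nat_lit 33) (nat_lit 34) = true := by decide +kernel
def p15_15_3_34 : pfC (piC [(nat_lit 41351667), (nat_lit 26450756), (nat_lit 19661130), (nat_lit 13242591)] (nat_lit 4748153)) p15_15_3 (nat_lit 4) (nat_lit 34) (nat_lit 35) = true := by decide +kernel
def p15_15_3_35 : pfC (piC [(nat_lit 41351667), (nat_lit 26450756), (nat_lit 19661130), (nat_lit 13242591)] (nat_lit 4748153)) p15_15_3 (nat_lit 4) (nat_lit 35) (nat_lit 36) = true := by decide +kernel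
def p15_15_3_36 : pfC (piC [(nat_lit 41351667), (nat_lit 26450756), (nat_lit 19661130), (nat_lit 13242591)] (nat_lit 4748153)) p15_15_3 (nat_lit 4) (nat_lit 36) (nat_lit 37) = true := by decide +kernel
def p15_15_3_37 : pfC (piC [(nat_lit 41351667), (nat_lit 26450756), (nat_lit 19661130), (nat_lit 13242591)] (nat_lit 4748153)) p15_15_3 (nat_lit 4) (nat_lit 37) (nat_lit 38) = true := by decide +kernel
def p15_15_3_38 : pfC (piC [(nat_lit 41351667), (nat_lit 26450756), (nat_lit 19661130), (nat_lit 13242591)] (nat_lit 4748153)) p15_15_3 (nat_lit 4) (nat_lit 38) (nat_lit 39) = true := by decide +kernel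
def p15_15_3_39 : pfC (piC [(nat_lit 41351667), (nat_lit 26450756), (nat_lit 19661130), (nat_lit 13242591)] (nat_lit 4748153)) p15_15_3 (nat_lit 4) (nat_lit 39) (nat_lit 40) = true := by decide +kernel
def p15_15_3_40 : pfC (piC [(nat_lit 41351667), (nat_lit 26450756), (nat_lit 19661130), (nat_lit 13242591)] (nat_lit 4748153)) p15_15_3 (nat_lit 4) (nat_lit 40) (nat_lit 41) = true := by decide +kernel
def p15_15_3_41 : pfC (piC [(nat_lit 41351667), (nat_lit 26450756), (nat_lit 19661130), (nat_lit 13242591)] (nat_lit 4748153)) p15_15_3 (nat_lit 4) (nat_lit 41) (nat_lit 42) = true := by decide +kernel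
def p15_15_3_42 : pfC (piC [(nat_lit 41351667), (nat_lit 26450756), (nat_lit 19661130), (nat_lit 13242591)] (nat_lit 4748153)) p15_15_3 (nat_lit 4) (nat_lit 42) (nat_lit 43) = true := by decide +kernel
def p15_15_3_43 : pfC (piC [(nat_lit 41351667), (nat_lit 26450756), (nat_lit 19661130), (nat_lit 13242591)] (nat_lit 4748153)) p15_15_3 (nat_lit 4) (nat_lit 43) (nat_lit 44) = true := by decide +kernel
def p15_15_3_44 : pfC (piC [(nat_lit 41351667), (nat_lit 26450756), (nat_lit 19661130), (nat_lit 13242591)] (nat_lit 4748153)) p15_15_3 (nat_lit 4) (nat_lit 44) (nat_lit 45) = true := by decide +kernel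
def p15_15_3_45 : pfC (piC [(nat_lit 41351667), (nat_lit 26450756), (nat_lit 19661130), (nat_lit 13242591)] (nat_lit 4748153)) p15_15_3 (nat_lit 4) (nat_lit 45) (nat_lit 46) = true := by decide +kernel
def p15_15_3_46 : pfC (piC [(nat_lit 41351667), (nat_lit 26450756), (nat_lit 19661130), (nat_lit 13242591)] (nat_lit 4748153)) p15_15_3 (nat_lit 4) (nat_lit 46) (nat_lit 47) = true := by decide +kernel
def p15_15_3_47 : pfC (piC [(nat_lit 41351667), (nat_lit 26450756), (nat_lit 19661130), (nat_lit 13242591)] (nat_lit 4748153)) p15_15_3 (nat_lit 4) (nat_lit 47) (nat_lit 48) = true := by decide +kernel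
def p15_15_3_48 : pfC (piC [(nat_lit 41351667), (nat_lit 26450756), (nat_lit 19661130), (nat_lit 13242591)] (nat_lit 4748153)) p15_15_3 (nat_lit 4) (nat_lit 48) (nat_lit 49) = true := by decide +kernel
def p15_15_3_49 : pfC (piC [(nat_lit 41351667), (nat_lit 26450756), (nat_lit 19661130), (nat_lit 13242591)] (nat_lit 4748153)) p15_15_3 (nat_lit 4) (nat_lit 49) (nat_lit 50) = true := by decide +kernel
def p15_15_3_50 : pfC (piC [(nat_lit 41351667), (nat_lit 26450756), (nat_lit 19661130), (nat_lit 13242591)] (nat_lit 4748153)) p15_15_3 (nat_lit 4) (nat_lit 50) (nat_lit 51) = true := by decide +kernel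
def p15_15_3_51 : pfC (piC [(nat_lit 41351667), (nat_lit 26450756), (nat_lit 19661130), (nat_lit 13242591)] (nat_lit 4748153)) p15_15_3 (nat_lit 4) (nat_lit 51) (nat_lit 52) = true := by decide +kernel
def p15_15_3_52 : pfC (piC [(nat_lit 41351667), (nat_lit 26450756), (nat_lit 19661130), (nat_lit 13242591)] (nat_lit 4748153)) p15_15_3 (nat_lit 4) (nat_lit 52) (nat_lit 53) = true := by decide +kernel
def p15_15_3_53 : pfC (piC [(nat_lit 41351667), (nat_lit 26450756), (nat_lit 19661130), (nat_lit 13242591)] (nat_lit 4748153)) p15_15_3 (nat_lit 4) (nat_lit 53) (nat_lit 54) = true := by decide +kernel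
def p15_15_3_54 : pfC (piC [(nat_lit 41351667), (nat_lit 26450756), (nat_lit 19661130), (nat_lit 13242591)] (nat_lit 4748153)) p15_15_3 (nat_lit 4) (nat_lit 54) (nat_lit 55) = true := by decide +kernel
def p15_15_3_55 : pfC (piC [(nat_lit 41351667), (nat_lit 26450756), (nat_lit 19661130), (nat_lit 13242591)] (nat_lit 4748153)) p15_15_3 (nat_lit 4) (nat_lit 55) (nat_lit 56) = true := by decide +kernel
def p15_15_3_56 : pfC (piC [(nat_lit 41351667), (nat_lit 26450756), (nat_lit 19661130), (nat_lit 13242591)] (nat_lit 4748153)) p15_15_3 (nat_lit 4) (nat_lit 56) (nat_lit 57) = true := by decide +kernel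
def p15_15_3_57 : pfC (piC [(nat_lit 41351667), (nat_lit 26450756), (nat_lit 19661130), (nat_lit 13242591)] (nat_lit 4748153)) p15_15_3 (nat_lit 4) (nat_lit 57) (nat_lit 58) = true := by decide +kernel
def p15_15_3_58 : pfC (piC [(nat_lit 41351667), (nat_lit 26450756), (nat_lit 19661130), (nat_lit 13242591)] (nat_lit 4748153)) p15_15_3 (nat_lit 4) (nat_lit 58) (nat_lit 59) = true := by decide +kernel
def p15_15_3_59 : pfC (piC [(nat_lit 41351667), (nat_lit 26450756), (nat_lit 19661130), (nat_lit 13242591)] (nat_lit 4748153)) p15_15_3 (nat_lit 4) (nat_lit 59) (nat_lit 60) = true := by decide +kernel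
def p15_15_3_60 : pfC (piC [(nat_lit 41351667), (nat_lit 26450756), (nat_lit 19661130), (nat_lit 13242591)] (nat_lit 4748153)) p15_15_3 (nat_lit 4) (nat_lit 60) (nat_lit 61) = true := by decide +kernel
def p15_15_3_61 : pfC (piC [(nat_lit 41351667), (nat_lit 26450756), (nat_lit 19661130), (nat_lit 13242591)] (nat_lit 4748153)) p15_15_3 (nat_lit 4) (nat_lit 61) (nat_lit 62) = true := by decide +kernel
def p15_15_3_62 : pfC (piC [(nat_lit 41351667), (nat_lit 26450756), (nat_lit 19661130), (nat_lit 13242591)] (nat_lit 4748153)) p15_15_3 (nat_lit 4) (nat_lit 62) (nat_lit 63) = true := by decide +kernel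
def p15_15_3_63 : pfC (piC [(nat_lit 41351667), (nat_lit 26450756), (nat_lit 19661130), (nat_lit 13242591)] (nat_lit 4748153)) p15_15_3 (nat_lit 4) (nat_lit 63) (nat_lit 64) = true := by decide +kernel
def p15_15_3_64 : pfC (piC [(nat_lit 41351667), (nat_lit 26450756), (nat_lit 19661130), (nat_lit 13242591)] (nat_lit 4748153)) p15_15_3 (nat_lit 4) (nat_lit 64) (nat_lit 65) = true := by decide +kernel
def p15_15_3_65 : pfC (piC [(nat_lit 41351667), (nat_lit 26450756), (nat_lit 19661130), (nat_lit 13242591)] (nat_lit 4748153)) p15_15_3 (nat_lit 4) (nat_lit 65) (nat_lit 66) = true := by decide +kernel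
def p15_15_3_66 : pfC (piC [(nat_lit 41351667), (nat_lit 26450756), (nat_lit 19661130), (nat_lit 13242591)] (nat_lit 4748153)) p15_15_3 (nat_lit 4) (nat_lit 66) (nat_lit 67) = true := by decide +kernel
def p15_15_3_67 : pfC (piC [(nat_lit 41351667), (nat_lit 26450756), (nat_lit 19661130), (nat_lit 13242591)] (nat_lit 4748153)) p15_15_3 (nat_lit 4) (nat_lit 67) (nat_lit 68) = true := by decide +kernel
def p15_15_3_68 : pfC (piC [(nat_lit 41351667), (nat_lit 26450756), (nat_lit 19661130), (nat_lit 13242591)] (nat_lit 4748153)) p15_15_3 (nat_lit 4) (nat_lit 68) (nat_lit 69) = true := by decide +kernel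
def p15_15_3_69 : pfC (piC [(nat_lit 41351667), (nat_lit 26450756), (nat_lit 19661130), (nat_lit 13242591)] (nat_lit 4748153)) p15_15_3 (nat_lit 4) (nat_lit 69) (nat_lit 70) = true := by decide +kernel
def p15_15_3_70 : pfC (piC [(nat_lit 41351667), (nat_lit 26450756), (nat_lit 19661130), (nat_lit 13242591)] (nat_lit 4748153)) p15_15_3 (nat_lit 4) (nat_lit 70) (nat_lit 71) = true := by decide +kernel
def p15_15_3_71 : pfC (piC [(nat_lit 41351667), (nat_lit 26450756), (nat_lit 19661130), (nat_lit 13242591)] (nat_lit 4748153)) p15_15_3 (nat_lit 4) (nat_lit 71) (nat_lit 72) = true := by decide +kernel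
def p15_15_3_72 : pfC (piC [(nat_lit 41351667), (nat_lit 26450756), (nat_lit 19661130), (nat_lit 13242591)] (nat_lit 4748153)) p15_15_3 (nat_lit 4) (nat_lit 72) (nat_lit 73) = true := by decide +kernel
def p15_15_3_73 : pfC (piC [(nat_lit 41351667), (nat_lit 26450756), (nat_lit 19661130), (nat_lit 13242591)] (nat_lit 4748153)) p15_15_3 (nat_lit 4) (nat_lit 73) (nat_lit 74) = true := by decide +kernel
def p15_15_3_74 : pfC (piC [(nat_lit 41351667), (nat_lit 26450756), (nat_lit 19661130), (nat_lit 13242591)] (nat_lit 4748153)) p15_15_3 (nat_lit 4) (nat_lit 74) (nat_lit 75) = true := by decide +kernel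
def p15_15_3_75 : pfC (piC [(nat_lit 41351667), (nat_lit 26450756), (nat_lit 19661130), (nat_lit 13242591)] (nat_lit 4748153)) p15_15_3 (nat_lit 4) (nat_lit 75) (nat_lit 76) = true := by decide +kernel
def p15_15_3_76 : pfC (piC [(nat_lit 41351667), (nat_lit 26450756), (nat_lit 19661130), (nat_lit 13242591)] (nat_lit 4748153)) p15_15_3 (nat_lit 4) (nat_lit 76) (nat_lit 77) = true := by decide +kernel
def p15_15_3_77 : pfC (piC [(nat_lit 41351667), (nat_lit 26450756), (nat_lit 19661130), (nat_lit 13242591)] (nat_lit 4748153)) p15_15_3 (nat_lit 4) (nat_lit 77) (nat_lit 78) = true := by decide +kernel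
def p15_15_3_78 : pfC (piC [(nat_lit 41351667), (nat_lit 26450756), (nat_lit 19661130), (nat_lit 13242591)] (nat_lit 4748153)) p15_15_3 (nat_lit 4) (nat_lit 78) (nat_lit 79) = true := by decide +kernel
def p15_15_3_79 : pfC (piC [(nat_lit 41351667), (nat_lit 26450756), (nat_lit 19661130), (nat_lit 13242591)] (nat_lit 4748153)) p15_15_3 (nat_lit 4) (nat_lit 79) (nat_lit 80) = true := by decide +kernel
def p15_15_3_80 : pfC (piC [(nat_lit 41351667), (nat_lit 26450756), (nat_lit 19661130), (nat_lit 13242591)] (nat_lit 4748153)) p15_15_3 (nat_lit 4) (nat_lit 80) (nat_lit 81) = true := by decide +kernel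
def p15_15_3_81 : pfC (piC [(nat_lit 41351667), (nat_lit 26450756), (nat_lit 19661130), (nat_lit 13242591)] (nat_lit 4748153)) p15_15_3 (nat_lit 4) (nat_lit 81) (nat_lit 82) = true := by decide +kernel
def p15_15_3_82 : pfC (piC [(nat_lit 41351667), (nat_lit 26450756), (nat_lit 19661130), (nat_lit 13242591)] (nat_lit 4748153)) p15_15_3 (nat_lit 4) (nat_lit 82) (nat_lit 83) = true := by decide +kernel
def p15_15_3_83 : pfC (piC [(nat_lit 41351667), (nat_lit 26450756), (nat_lit 19661130), (nat_lit 13242591)] (nat_lit 4748153)) p15_15_3 (nat_lit 4) (nat_lit 83) (nat_lit 84) = true := by decide +kernel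
def p15_15_3_84 : pfC (piC [(nat_lit 41351667), (nat_lit 26450756), (nat_lit 19661130), (nat_lit 13242591)] (nat_lit 4748153)) p15_15_3 (nat_lit 4) (nat_lit 84) (nat_lit 85) = true := by decide +kernel
def p15_15_3_85 : pfC (piC [(nat_lit 41351667), (nat_lit 26450756), (nat_lit 19661130), (nat_lit 13242591)] (nat_lit 4748153)) p15_15_3 (nat_lit 4) (nat_lit 85) (nat_lit 86) = true := by decide +kernel
def p15_15_3_86 : pfC (piC [(nat_lit 41351667), (nat_lit 26450756), (nat_lit 19661130), (nat_lit 13242591)] (nat_lit 4748153)) p15_15_3 (nat_lit 4) (nat_lit 86) (nat_lit 87) = true := by decide +kernel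
def p15_15_3_87 : pfC (piC [(nat_lit 41351667), (nat_lit 26450756), (nat_lit 19661130), (nat_lit 13242591)] (nat_lit 4748153)) p15_15_3 (nat_lit 4) (nat_lit 87) (nat_lit 88) = true := by decide +kernel
def p15_15_3_88 : pfC (piC [(nat_lit 41351667), (nat_lit 26450756), (nat_lit 19661130), (nat_lit 13242591)] (nat_lit 4748153)) p15_15_3 (nat_lit 4) (nat_lit 88) (nat_lit 89) = true := by decide +kernel
def p15_15_3_89 : pfC (piC [(nat_lit 41351667), (nat_lit 26450756), (nat_lit 19661130), (nat_lit 13242591)] (nat_lit 4748153)) p15_15_3 (nat_lit 4) (nat_lit 89) (nat_lit 90) = true := by decide +kernel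
def p15_15_3_90 : pfC (piC [(nat_lit 41351667), (nat_lit 26450756), (nat_lit 19661130), (nat_lit 13242591)] (nat_lit 4748153)) p15_15_3 (nat_lit 4) (nat_lit 90) (nat_lit 91) = true := by decide +kernel
def p15_15_3_91 : pfC (piC [(nat_lit 41351667), (nat_lit 26450756), (nat_lit 19661130), (nat_lit 13242591)] (nat_lit 4748153)) p15_15_3 (nat_lit 4) (nat_lit 91) (nat_lit 92) = true := by decide +kernel
def p15_15_3_92 : pfC (piC [(nat_lit 41351667), (nat_lit 26450756), (nat_lit 19661130), (nat_lit 13242591)] (nat_lit 4748153)) p15_15_3 (nat_lit 4) (nat_lit 92) (nat_lit 93) = true := by decide +kernel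
def p15_15_3_93 : pfC (piC [(nat_lit 41351667), (nat_lit 26450756), (nat_lit 19661130), (nat_lit 13242591)] (nat_lit 4748153)) p15_15_3 (nat_lit 4) (nat_lit 93) (nat_lit 94) = true := by decide +kernel
def p15_15_3_94 : pfC (piC [(nat_lit 41351667), (nat_lit 26450756), (nat_lit 19661130), (nat_lit 13242591)] (nat_lit 4748153)) p15_15_3 (nat_lit 4) (nat_lit 94) (nat_lit 95) = true := by decide +kernel
def p15_15_3_95 : pfC (piC [(nat_lit 41351667), (nat_lit 26450756), (nat_lit 19661130), (nat_lit 13242591)] (nat_lit 4748153)) p15_15_3 (nat_lit 4) (nat_lit 95) (nat_lit 96) = true := by decide +kernel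
def p15_15_3_96 : pfC (piC [(nat_lit 41351667), (nat_lit 26450756), (nat_lit 19661130), (nat_lit 13242591)] (nat_lit 4748153)) p15_15_3 (nat_lit 4) (nat_lit 96) (nat_lit 97) = true := by decide +kernel
def p15_15_3_97 : pfC (piC [(nat_lit 41351667), (nat_lit 26450756), (nat_lit 19661130), (nat_lit 13242591)] (nat_lit 4748153)) p15_15_3 (nat_lit 4) (nat_lit 97) (nat_lit 98) = true := by decide +kernel
def p15_15_3_98 : pfC (piC [(nat_lit 41351667), (nat_lit 26450756), (nat_lit 19661130), (nat_lit 13242591)] (nat_lit 4748153)) p15_15_3 (nat_lit 4) (nat_lit 98) (nat_lit 99) = true := by decide +kernel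
def p15_15_3_99 : pfC (piC [(nat_lit 41351667), (nat_lit 26450756), (nat_lit 19661130), (nat_lit 13242591)] (nat_lit 4748153)) p15_15_3 (nat_lit 4) (nat_lit 99) (nat_lit 100) = true := by decide +kernel
def p15_15_3_100 : pfC (piC [(nat_lit 41351667), (nat_lit 26450756), (nat_lit 19661130), (nat_lit 13242591)] (nat_lit 4748153)) p15_15_3 (nat_lit 4) (nat_lit 100) (nat_lit 101) = true := by decide +kernel
def p15_15_3_101 : pfC (piC [(nat_lit 41351667), (nat_lit 26450756), (nat_lit 19661130), (nat_lit 13242591)] (nat_lit 4748153)) p15_15_3 (nat_lit 4) (nat_lit 101) (nat_lit 102) = true := by decide +kernel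
def p15_15_3_102 : pfC (piC [(nat_lit 41351667), (nat_lit 26450756), (nat_lit 19661130), (nat_lit 13242591)] (nat_lit 4748153)) p15_15_3 (nat_lit 4) (nat_lit 102) (nat_lit 103) = true := by decide +kernel
def p15_15_3_103 : pfC (piC [(nat_lit 41351667), (nat_lit 26450756), (nat_lit 19661130), (nat_lit 13242591)] (nat_lit 4748153)) p15_15_3 (nat_lit 4) (nat_lit 103) (nat_lit 104) = true := by decide +kernel
def p15_15_3_104 : pfC (piC [(nat_lit 41351667), (nat_lit 26450756), (nat_lit 19661130), (nat_lit 13242591)] (nat_lit 4748153)) p15_15_3 (nat_lit 4) (nat_lit 104) (nat_lit 105) = true := by decide +kernel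
def p15_15_3_105 : pfC (piC [(nat_lit 41351667), (nat_lit 26450756), (nat_lit 19661130), (nat_lit 13242591)] (nat_lit 4748153)) p15_15_3 (nat_lit 4) (nat_lit 105) (nat_lit 106) = true := by decide +kernel
def p15_15_3_106 : pfC (piC [(nat_lit 41351667), (nat_lit 26450756), (nat_lit 19661130), (nat_lit 13242591)] (nat_lit 4748153)) p15_15_3 (nat_lit 4) (nat_lit 106) (nat_lit 107) = true := by decide +kernel
def p15_15_3_107 : pfC (piC [(nat_lit 41351667), (nat_lit 26450756), (nat_lit 19661130), (nat_lit 13242591)] (nat_lit 4748153)) p15_15_3 (nat_lit 4) (nat_lit 107) (nat_lit 108) = true := by decide +kernel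
def p15_15_3_108 : pfC (piC [(nat_lit 41351667), (nat_lit 26450756), (nat_lit 19661130), (nat_lit 13242591)] (nat_lit 4748153)) p15_15_3 (nat_lit 4) (nat_lit 108) (nat_lit 109) = true := by decide +kernel
def p15_15_3_109 : pfC (piC [(nat_lit 41351667), (nat_lit 26450756), (nat_lit 19661130), (nat_lit 13242591)] (nat_lit 4748153)) p15_15_3 (nat_lit 4) (nat_lit 109) (nat_lit 110) = true := by decide +kernel
def p15_15_3_110 : pfC (piC [(nat_lit 41351667), (nat_lit 26450756), (nat_lit 19661130), (nat_lit 13242591)] (nat_lit 4748153)) p15_15_3 (nat_lit 4) (nat_lit 110) (nat_lit 111) = true := by decide +kernel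
def p15_15_3_111 : pfC (piC [(nat_lit 41351667), (nat_lit 26450756), (nat_lit 19661130), (nat_lit 13242591)] (nat_lit 4748153)) p15_15_3 (nat_lit 4) (nat_lit 111) (nat_lit 112) = true := by decide +kernel
def p15_15_3_112 : pfC (piC [(nat_lit 41351667), (nat_lit 26450756), (nat_lit 19661130), (nat_lit 13242591)] (nat_lit 4748153)) p15_15_3 (nat_lit 4) (nat_lit 112) (nat_lit 113) = true := by decide +kernel
def p15_15_3_113 : pfC (piC [(nat_lit 41351667), (nat_lit 26450756), (nat_lit 19661130), (nat_lit 13242591)] (nat_lit 4748153)) p15_15_3 (nat_lit 4) (nat_lit 113) (nat_lit 114) = true := by decide +kernel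
def p15_15_3_114 : pfC (piC [(nat_lit 41351667), (nat_lit 26450756), (nat_lit 19661130), (nat_lit 13242591)] (nat_lit 4748153)) p15_15_3 (nat_lit 4) (nat_lit 114) (nat_lit 115) = true := by decide +kernel
def p15_15_3_115 : pfC (piC [(nat_lit 41351667), (nat_lit 26450756), (nat_lit 19661130), (nat_lit 13242591)] (nat_lit 4748153)) p15_15_3 (nat_lit 4) (nat_lit 115) (nat_lit 116) = true := by decide +kernel
def p15_15_3_116 : pfC (piC [(nat_lit 41351667), (nat_lit 26450756), (nat_lit 19661130), (nat_lit 13242591)] (nat_lit 4748153)) p15_15_3 (nat_lit 4) (nat_lit 116) (nat_lit 117) = true := by decide +kernel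
def p15_15_3_117 : pfC (piC [(nat_lit 41351667), (nat_lit 26450756), (nat_lit 19661130), (nat_lit 13242591)] (nat_lit 4748153)) p15_15_3 (nat_lit 4) (nat_lit 117) (nat_lit 118) = true := by decide +kernel
def p15_15_3_118 : pfC (piC [(nat_lit 41351667), (nat_lit 26450756), (nat_lit 19661130), (nat_lit 13242591)] (nat_lit 4748153)) p15_15_3 (nat_lit 4) (nat_lit 118) (nat_lit 119) = true := by decide +kernel
def p15_15_3_119 : pfC (piC [(nat_lit 41351667), (nat_lit 26450756), (nat_lit 19661130), (nat_lit 13242591)] (nat_lit 4748153)) p15_15_3 (nat_lit 4) (nat_lit 119) (nat_lit 120) = true := by decide +kernel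
def p15_15_3_120 : pfC (piC [(nat_lit 41351667), (nat_lit 26450756), (nat_lit 19661130), (nat_lit 13242591)] (nat_lit 4748153)) p15_15_3 (nat_lit 4) (nat_lit 120) (nat_lit 121) = true := by decide +kernel
def p15_15_3_121 : pfC (piC [(nat_lit 41351667), (nat_lit 26450756), (nat_lit 19661130), (nat_lit 13242591)] (nat_lit 4748153)) p15_15_3 (nat_lit 4) (nat_lit 121) (nat_lit 122) = true := by decide +kernel
def p15_15_3_122 : pfC (piC [(nat_lit 41351667), (nat_lit 26450756), (nat_lit 19661130), (nat_lit 13242591)] (nat_lit 4748153)) p15_15_3 (nat_lit 4) (nat_lit 122) (nat_lit 123) = true := by decide +kernel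
def p15_15_3_123 : pfC (piC [(nat_lit 41351667), (nat_lit 26450756), (nat_lit 19661130), (nat_lit 13242591)] (nat_lit 4748153)) p15_15_3 (nat_lit 4) (nat_lit 123) (nat_lit 124) = true := by decide +kernel
def p15_15_3_124 : pfC (piC [(nat_lit 41351667), (nat_lit 26450756), (nat_lit 19661130), (nat_lit 13242591)] (nat_lit 4748153)) p15_15_3 (nat_lit 4) (nat_lit 124) (nat_lit 125) = true := by decide +kernel
def p15_15_3_125 : pfC (piC [(nat_lit 41351667), (nat_lit 26450756), (nat_lit 19661130), (nat_lit 13242591)] (nat_lit 4748153)) p15_15_3 (nat_lit 4) (nat_lit 125) (nat_lit 126) = true := by decide +kernel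
theorem p15_15_3_T : PfS (PiF n15_15.reverse (nat_lit 4748153)) p15_15_3 (nat_lit 4) [] 0 :=
  pftab_of (los := [(nat_lit 41351667), (nat_lit 26450756), (nat_lit 19661130), (nat_lit 13242591)]) (by decide +kernel) (hi := (nat_lit 126)) (PfP.trans (PfP.trans (PfP.trans (PfP.trans (PfP.trans (PfP.trans (PfP.trans (PfP.trans (PfP.trans (PfP.trans (PfP.trans (PfP.trans (PfP.trans (PfP.trans (PfP.trans (PfP.trans (PfP.trans (PfP.trans (PfP.trans (PfP.trans (PfP.trans (PfP.trans (PfP.trans (PfP.trans (PfP.trans (PfP.trans (PfP.trans (PfP.trans (PfP.trans (PfP.trans (PfP.trans (PfP.trans (PfP.trans (PfP.trans (PfP.trans (PfP.trans (PfP.trans (PfP.trans (PfP.trans (PfP.trans (PfP.trans (PfP.trans (PfP.trans (PfP.trans (PfP.trans (PfP.trans (PfP.trans (PfP.trans (PfP.trans (PfP.trans (PfP.trans (PfP.trans (PfP.trans (PfP.trans (PfP.trans (PfP.trans (PfP.trans (PfP.trans (PfP.trans (PfP.trans (PfP.trans (PfP.trans (PfP.trans (PfP.trans (PfP.trans (PfP.trans (PfP.trans (PfP.trans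 (PfP.trans (PfP.trans (PfP.trans (PfP.trans (PfP.trans (PfP.trans (PfP.trans (PfP.trans (PfP.trans (PfP.trans (PfP.trans (PfP.trans (PfP.trans (PfP.trans (PfP.trans (PfP.trans (PfP.trans (PfP.trans (PfP.trans (PfP.trans (PfP.trans (PfP.trans (PfP.trans (PfP.trans (PfP.trans (PfP.trans (PfP.trans (PfP.trans (PfP.trans (PfP.trans (PfP.trans (PfP.trans (PfP.trans (PfP.trans (PfP.trans (PfP.trans (PfP.trans (PfP.trans (PfP.trans (PfP.trans (PfP.trans
 (PfP.trans (PfP.trans (PfP.trans (PfP.trans (PfP.trans (PfP.trans (PfP.trans (PfP.trans (PfP.trans (PfP.trans (PfP.trans (PfP.trans (PfP.trans (PfP.trans (PfP.trans (PfP.trans (pfC_sound p15_15_3_0) (pfC_sound p15_15_3_1)) (pfC_sound p15_15_3_2)) (pfC_sound p15_15_3_3)) (pfC_sound p15_15_3_4)) (pfC_sound p15_15_3_5)) (pfC_sound p15_15_3_6)) (pfC_sound p15_15_3_7)) (pfC_sound p15_15_3_8)) (pfC_sound p15_15_3_9)) (pfC_sound p15_15_3_10)) (pfC_sound p15_15_3_11)) (pfC_sound p15_15_3_12)) (pfC_sound p15_15_3_13)) (pfC_sound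 p15_15_3_14)) (pfC_sound p15_15_3_15)) (pfC_sound p15_15_3_16)) (pfC_sound p15_15_3_17)) (pfC_sound p15_15_3_18)) (pfC_sound p15_15_3_19)) (pfC_sound p15_15_3_20)) (pfC_sound p15_15_3_21)) (pfC_sound p15_15_3_22)) (pfC_sound p15_15_3_23)) (pfC_sound p15_15_3_24)) (pfC_sound p15_15_3_25)) (pfC_sound p15_15_3_26)) (pfC_sound p15_15_3_27)) (pfC_sound p15_15_3_28)) (pfC_sound p15_15_3_29)) (pfC_sound p15_15_3_30)) (pfC_sound p15_15_3_31)) (pfC_sound p15_15_3_32)) (pfC_sound p15_15_3_33)) (pfC_sound p15_15_3_34)) (pfC_sound p15_15_3_35)) (pfC_sound p15_15_3_36)) (pfC_sound p15_15_3_37)) (pfC_sound p15_15_3_38)) (pfC_sound p15_15_3_39)) (pfC_sound p15_15_3_40))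
 (pfC_sound p15_15_3_41)) (pfC_sound p15_15_3_42)) (pfC_sound p15_15_3_43)) (pfC_sound p15_15_3_44)) (pfC_sound p15_15_3_45)) (pfC_sound p15_15_3_46)) (pfC_sound p15_15_3_47)) (pfC_sound p15_15_3_48)) (pfC_sound p15_15_3_49)) (pfC_sound p15_15_3_50)) (pfC_sound p15_15_3_51)) (pfC_sound p15_15_3_52)) (pfC_sound p15_15_3_53)) (pfC_sound p15_15_3_54)) (pfC_sound p15_15_3_55)) (pfC_sound p15_15_3_56)) (pfC_sound p15_15_3_57)) (pfC_sound p15_15_3_58)) (pfC_sound p15_15_3_59)) (pfC_sound p15_15_3_60)) (pfC_sound p15_15_3_61)) (pfC_sound p15_15_3_62)) (pfC_sound p15_15_3_63)) (pfC_sound p15_15_3_64)) (pfC_sound p15_15_3_65)) (pfC_sound p15_15_3_66)) (pfC_sound p15_15_3_67)) (pfC_sound p15_15_3_68)) (pfC_sound p15_15_3_69)) (pfC_sound p15_15_3_70)) (pfC_sound p15_15_3_71)) (pfC_sound p15_15_3_72)) (pfC_sound p15_15_3_73)) (pfC_sound p15_15_3_74)) (pfC_sound p15_15_3_75)) (pfC_sound p15_15_3_76)) (pfC_sound p15_15_3_77)) (pfC_sound p15_15_3_78)) (pfC_sound p15_15_3_79))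 (pfC_sound p15_15_3_80)) (pfC_sound p15_15_3_81)) (pfC_sound p15_15_3_82)) (pfC_sound p15_15_3_83)) (pfC_sound p15_15_3_84)) (pfC_sound p15_15_3_85)) (pfC_sound p15_15_3_86)) (pfC_sound p15_15_3_87)) (pfC_sound p15_15_3_88))
 (pfC_sound p15_15_3_89)) (pfC_sound p15_15_3_90)) (pfC_sound p15_15_3_91)) (pfC_sound p15_15_3_92)) (pfC_sound p15_15_3_93)) (pfC_sound p15_15_3_94)) (pfC_sound p15_15_3_95)) (pfC_sound p15_15_3_96)) (pfC_sound p15_15_3_97)) (pfC_sound p15_15_3_98)) (pfC_sound p15_15_3_99)) (pfC_sound p15_15_3_100)) (pfC_sound p15_15_3_101)) (pfC_sound p15_15_3_102)) (pfC_sound p15_15_3_103)) (pfC_sound p15_15_3_104)) (pfC_sound p15_15_3_105)) (pfC_sound p15_15_3_106)) (pfC_sound p15_15_3_107)) (pfC_sound p15_15_3_108)) (pfC_sound p15_15_3_109)) (pfC_sound p15_15_3_110)) (pfC_sound p15_15_3_111)) (pfC_sound p15_15_3_112)) (pfC_sound p15_15_3_113)) (pfC_sound p15_15_3_114)) (pfC_sound p15_15_3_115)) (pfC_sound p15_15_3_116)) (pfC_sound p15_15_3_117)) (pfC_sound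 p15_15_3_118)) (pfC_sound p15_15_3_119)) (pfC_sound p15_15_3_120)) (pfC_sound p15_15_3_121)) (pfC_sound p15_15_3_122)) (pfC_sound p15_15_3_123)) (pfC_sound p15_15_3_124)) (pfC_sound p15_15_3_125)) (by decide +kernel)

def z15_15_3 : zOK yB15_15 (nat_lit 3) (nat_lit 750) (nat_lit 896) (nat_lit 4748153) (nat_lit 3243462) = true := by decide +kernel
def g15_15_3 : gOK yB15_15.x P15_15 (nat_lit 1426) (q15_15 :: r15_15) (nat_lit 3) (nat_lit 750) (nat_lit 4) (nat_lit 896) (nat_lit 12712500) (nat_lit 12712500) (nat_lit 12712500) (nat_lit 12712500) [(nat_lit 800)] = true := by decide +kernel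
def v15_15_3 : ivC P15_15 s15_15 w15_15 n15_15 (nat_lit 4) (nat_lit 4700) (nat_lit 3) (nat_lit 750) f144_1_750 f152_1_750 (nat_lit 4) (nat_lit 896) f144_1_896 f152_1_896 (nat_lit 4748153) (nat_lit 3243462) p15_15_3 = true := by decide +kernel
/-! box `yB15_16` -/

def P15_16 : BQ := ⟨(nat_lit 8), (nat_lit 8), (nat_lit 0), (nat_lit 6), (nat_lit 2), (nat_lit 760), (nat_lit 770), (nat_lit 120), [(nat_lit 200), (nat_lit 300), (nat_lit 450), (nat_lit 800)], (nat_lit 98400000), (nat_lit 16000000), (nat_lit 16000000000)⟩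
def q15_16 : PC := ⟨(nat_lit 1000), [(nat_lit 120000), (nat_lit 200000), (nat_lit 300000), (nat_lit 450000), (nat_lit 800000)], (nat_lit 340282367000166625996085689103316680705000000), (nat_lit 15901600000000), (nat_lit 15901600000000), (nat_lit 10000000)⟩
def r15_16 : List PC := [⟨(nat_lit 1334), [(nat_lit 120620), (nat_lit 201149), (nat_lit 301560), (nat_lit 451701), (nat_lit 800619)], (nat_lit 342526529210544529890715390647095535661436490), (nat_lit 16337919336000), (nat_lit 16343974836160), (nat_lit 10057450)⟩, ⟨(nat_lit 1281), [(nat_lit 120514), (nat_lit 200987), (nat_lit 301293), (nat_lit 451464), (nat_lit 799227)], (nat_lit 342170934137045597539869535423953435259522145), (nat_lit 16268730124000), (nat_lit 16273824721440), (nat_lit 10049350)⟩]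
def s15_16 : List PB := [⟨(nat_lit 26680), (nat_lit 1929920000000), [(nat_lit 201149), (nat_lit 301560), (nat_lit 451701), (nat_lit 800619)], (nat_lit 342526529210544529890715390647095535661436490), (nat_lit 1142237826178624), (nat_lit 1142243881678784), (nat_lit 53440)⟩, ⟨(nat_lit 25620), (nat_lit 1928224000000), [(nat_lit 200987), (nat_lit 301293), (nat_lit 451464), (nat_lit 799227)], (nat_lit 342170934137045597539869535423953435259522145), (nat_lit 1142168636966624), (nat_lit 1142173731564064), (nat_lit 44960)⟩]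
def n15_16 : List KN := [⟨(nat_lit 800), (nat_lit 450), (nat_lit 13130440), (nat_lit 5816060)⟩, ⟨(nat_lit 450), (nat_lit 300), (nat_lit 19519284), (nat_lit 13130440)⟩, ⟨(nat_lit 300), (nat_lit 200), (nat_lit 26310893), (nat_lit 19519284)⟩, ⟨(nat_lit 200), (nat_lit 120), (nat_lit 41351667), (nat_lit 26310893)⟩]
def w15_16 : List ℕ := [(nat_lit 53440), (nat_lit 44960)]
def par15_16 : parC yB15_16 P15_16 s15_16 r15_16 q15_16 n15_16 w15_16 = true := by decide +kernel

def p15_16_0 : PF := (PF.cons (PF.cons (PF.cons (PF.cons (PF.leaf (nat_lit 716320) (nat_lit 2179859) (nat_lit 64928953) (nat_lit 2179859) [(nat_lit 0), (nat_lit 0), (nat_lit 0), (nat_lit 0)]) (PF.cons (PF.leaf (nat_lit 831112) (nat_lit 176110) (nat_lit 64706492) (nat_lit 2226210) [(nat_lit 176110), (nat_lit 0), (nat_lit 0), (nat_lit 0)]) (PF.cons (PF.leaf (nat_lit 972717) (nat_lit 194489) (nat_lit 64441816) (nat_lit 2278017) [(nat_lit 194489), (nat_lit 0), (nat_lit 0), (nat_lit 0)]) (PF.cons (PF.leaf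 (nat_lit 1134871) (nat_lit 211723) (nat_lit 64140438) (nat_lit 2333202) [(nat_lit 211723), (nat_lit 0), (nat_lit 0), (nat_lit 0)]) (PF.cons (PF.leaf (nat_lit 1315813) (nat_lit 228084) (nat_lit 63806158) (nat_lit 2390316) [(nat_lit 228084), (nat_lit 0), (nat_lit 0), (nat_lit 0)]) (PF.cons (PF.leaf (nat_lit 1514172) (nat_lit 243720) (nat_lit 63441912) (nat_lit 2448297) [(nat_lit 243720), (nat_lit 0), (nat_lit 0), (nat_lit 0)]) (PF.cons (PF.leaf (nat_lit 1728782) (nat_lit 258717) (nat_lit 63050156) (nat_lit 2506351) [(nat_lit 258717), (nat_lit 0), (nat_lit 0), (nat_lit 0)]) (PF.cons (PF.leaf (nat_lit 1958586) (nat_lit 273126) (nat_lit 62633055) (nat_lit 2563868) [(nat_lit 273126), (nat_lit 0), (nat_lit 0),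
 (nat_lit 0)]) (PF.cons PF.nil (PF.cons PF.nil PF.nil)))))))))) (PF.cons (PF.cons (PF.leaf (nat_lit 1193388) (nat_lit 973095) (nat_lit 63749124) (nat_lit 2386592) [(nat_lit 0), (nat_lit 973095), (nat_lit 0), (nat_lit 0)]) (PF.cons (PF.leaf (nat_lit 1355803) (nat_lit 227853) (nat_lit 63436896) (nat_lit 2436411) [(nat_lit 227853), (nat_lit 1007651), (nat_lit 0), (nat_lit 0)]) (PF.cons (PF.leaf (nat_lit 1540023) (nat_lit 243747) (nat_lit 63089939) (nat_lit 2488410) [(nat_lit 243747), (nat_lit 1042968), (nat_lit 0), (nat_lit 0)]) (PF.cons (PF.leaf (nat_lit 1742006) (nat_lit 258850) (nat_lit 62712447) (nat_lit 2541424) [(nat_lit 258850), (nat_lit 1078389), (nat_lit 0), (nat_lit 0)]) (PF.cons (PF.leaf (nat_lit 1960246) (nat_lit 273279) (nat_lit 62307587) (nat_lit 2594618) [(nat_lit 273279), (nat_lit 1113489), (nat_lit 0), (nat_lit 0)]) (PF.cons (PF.leaf (nat_lit 2193479) (nat_lit 287101) (nat_lit 61877957) (nat_lit 2647372) [(nat_lit 287101), (nat_lit 1147977), (nat_lit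 0), (nat_lit 0)]) (PF.cons (PF.leaf (nat_lit 2440583) (nat_lit 300356) (nat_lit 61425811) (nat_lit 2699215) [(nat_lit 300356), (nat_lit 1181646), (nat_lit 0), (nat_lit 0)]) (PF.cons PF.nil (PF.cons PF.nil PF.nil)))))))))
 (PF.cons (PF.cons (PF.leaf (nat_lit 1772970) (nat_lit 1096901) (nat_lit 62335488) (nat_lit 2579521) [(nat_lit 0), (nat_lit 1096901), (nat_lit 0), (nat_lit 0)]) (PF.cons (PF.leaf (nat_lit 1975076) (nat_lit 272580) (nat_lit 61950324) (nat_lit 2627568) [(nat_lit 272580), (nat_lit 1129169), (nat_lit 0), (nat_lit 0)]) (PF.cons (PF.leaf (nat_lit 2195176) (nat_lit 286561) (nat_lit 61536965) (nat_lit 2676005) [(nat_lit 286561), (nat_lit 1161359), (nat_lit 0), (nat_lit 0)]) (PF.cons (PF.leaf (nat_lit 2430476) (nat_lit 299888) (nat_lit 61098768) (nat_lit 2724153) [(nat_lit 299888), (nat_lit 1193113), (nat_lit 0), (nat_lit 0)]) (PF.cons (PF.leaf (nat_lit 2679547) (nat_lit 312619) (nat_lit 60638442) (nat_lit 2771517) [(nat_lit 312619), (nat_lit 1224187),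 (nat_lit 0), (nat_lit 0)]) (PF.cons (PF.leaf (nat_lit 2941220) (nat_lit 324793) (nat_lit 60158303) (nat_lit 2817726) [(nat_lit 324793), (nat_lit 1254406), (nat_lit 0), (nat_lit 0)]) (PF.cons PF.nil PF.nil))))))) (PF.cons (PF.cons (PF.leaf (nat_lit 2435116) (nat_lit 1205749) (nat_lit 60740542) (nat_lit 2751022) [(nat_lit 0), (nat_lit 1205749), (nat_lit 0), (nat_lit 0)]) (PF.cons (PF.leaf (nat_lit 2669846) (nat_lit 311531) (nat_lit 60297981)
 (nat_lit 2794681) [(nat_lit 311531), (nat_lit 1234872), (nat_lit 0), (nat_lit 0)]) (PF.cons (PF.leaf (nat_lit 2919501) (nat_lit 323815) (nat_lit 59833060) (nat_lit 2837727) [(nat_lit 323815), (nat_lit 1263464), (nat_lit 0), (nat_lit 0)]) (PF.cons (PF.leaf (nat_lit 3181754) (nat_lit 335511) (nat_lit 59348555) (nat_lit 2879760) [(nat_lit 335511), (nat_lit 1291321), (nat_lit 0), (nat_lit 0)]) (PF.cons PF.nil PF.nil))))) (PF.cons (PF.cons (PF.leaf (nat_lit 3161548) (nat_lit 1299722) (nat_lit 59011673) (nat_lit 2898247) [(nat_lit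 0), (nat_lit 1299722), (nat_lit 0), (nat_lit 0)]) (PF.cons (PF.leaf (nat_lit 3422429) (nat_lit 345255) (nat_lit 58526046) (nat_lit 2936266) [(nat_lit 345255), (nat_lit 1325311), (nat_lit 0), (nat_lit 0)]) (PF.cons (PF.leaf (nat_lit 3695536) (nat_lit 355961) (nat_lit 58023255) (nat_lit 2973125) [(nat_lit 355961), (nat_lit 1350127), (nat_lit 0), (nat_lit 0)]) (PF.cons PF.nil PF.nil)))) (PF.cons (PF.cons (PF.leaf (nat_lit 3935562) (nat_lit 1379318) (nat_lit 57191463) (nat_lit 3020754) [(nat_lit 0), (nat_lit 1379318), (nat_lit 0), (nat_lit 0)]) (PF.cons PF.nil PF.nil)) (PF.cons PF.nil (PF.cons PF.nil PF.nil)))))))) (PF.cons (PF.cons (PF.cons (PF.leaf (nat_lit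
 1790025) (nat_lit 2610351) (nat_lit 61619807) (nat_lit 2610351) [(nat_lit 0), (nat_lit 0), (nat_lit 2878654), (nat_lit 0)]) (PF.cons (PF.leaf (nat_lit 1969868) (nat_lit 260949) (nat_lit 61274563) (nat_lit 2651870) [(nat_lit 260949), (nat_lit 0), (nat_lit 2921429), (nat_lit 0)]) (PF.cons (PF.leaf (nat_lit 2170726) (nat_lit 276403) (nat_lit 60895282) (nat_lit 2694904) [(nat_lit 276403), (nat_lit 0), (nat_lit 2965818), (nat_lit 0)]) (PF.cons (PF.leaf (nat_lit 2388566) (nat_lit 290804) (nat_lit 60487086) (nat_lit 2738492) [(nat_lit 290804), (nat_lit 0), (nat_lit 3010819), (nat_lit 0)]) (PF.cons (PF.leaf (nat_lit 2621573) (nat_lit 304343) (nat_lit 60053762) (nat_lit 2781956) [(nat_lit 304343), (nat_lit 0), (nat_lit 3055718), (nat_lit 0)]) (PF.cons (PF.leaf (nat_lit 2868272) (nat_lit 317139) (nat_lit 59598324) (nat_lit 2824798) [(nat_lit 317139), (nat_lit 0), (nat_lit 3099990), (nat_lit 0)]) (PF.cons (PF.leaf (nat_lit 3127512) (nat_lit 329270) (nat_lit 59123305) (nat_lit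 2866643) [(nat_lit 329270), (nat_lit 0), (nat_lit 3143238), (nat_lit 0)]) (PF.cons PF.nil (PF.cons PF.nil PF.nil))))))))) (PF.cons (PF.cons (PF.leaf (nat_lit 2408139) (nat_lit 1202920) (nat_lit 60098078) (nat_lit
 2766925) [(nat_lit 0), (nat_lit 1202920), (nat_lit 3040888), (nat_lit 0)]) (PF.cons (PF.leaf (nat_lit 2624067) (nat_lit 302024) (nat_lit 59688347) (nat_lit 2806221) [(nat_lit 302024), (nat_lit 1230791), (nat_lit 3081427), (nat_lit 0)]) (PF.cons (PF.leaf (nat_lit 2856932) (nat_lit 315187) (nat_lit 59252403) (nat_lit 2845588) [(nat_lit 315187), (nat_lit 1258394), (nat_lit 3122052), (nat_lit 0)]) (PF.cons (PF.leaf (nat_lit 3103720) (nat_lit 327555) (nat_lit 58794038) (nat_lit 2884477) [(nat_lit 327555), (nat_lit 1285442), (nat_lit 3162186), (nat_lit 0)]) (PF.cons (PF.leaf (nat_lit 3363094) (nat_lit 339229) (nat_lit 58316245) (nat_lit 2922492) [(nat_lit 339229), (nat_lit 1311744), (nat_lit 3201412), (nat_lit 0)]) (PF.cons PF.nil (PF.cons PF.nil PF.nil)))))))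 (PF.cons (PF.cons (PF.leaf (nat_lit 3095782) (nat_lit 1294233) (nat_lit 58433716) (nat_lit 2903890) [(nat_lit 0), (nat_lit 1294233), (nat_lit 3182739), (nat_lit 0)]) (PF.cons (PF.leaf (nat_lit 3340417) (nat_lit 336947) (nat_lit 57976134) (nat_lit 2938934) [(nat_lit 336947), (nat_lit 1318977), (nat_lit 3218842), (nat_lit 0)]) (PF.cons (PF.leaf (nat_lit 3598702) (nat_lit 348240) (nat_lit 57498657) (nat_lit 2973259) [(nat_lit
 348240), (nat_lit 1343112), (nat_lit 3254189), (nat_lit 0)]) (PF.cons (PF.leaf (nat_lit 3868355) (nat_lit 358874) (nat_lit 57004233) (nat_lit 3006547) [(nat_lit 358874), (nat_lit 1366479), (nat_lit 3288447), (nat_lit 0)]) (PF.cons PF.nil PF.nil))))) (PF.cons (PF.cons (PF.leaf (nat_lit 3835409) (nat_lit 1371919) (nat_lit 56671903) (nat_lit 3019256) [(nat_lit 0), (nat_lit 1371919), (nat_lit 3301893), (nat_lit 0)]) (PF.cons (PF.leaf (nat_lit 4102347) (nat_lit 366610) (nat_lit 56180567) (nat_lit 3049134) [(nat_lit 366610), (nat_lit 1393314), (nat_lit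 3332557), (nat_lit 0)]) (PF.cons (PF.leaf (nat_lit 4380268) (nat_lit 376271) (nat_lit 55674570) (nat_lit 3077878) [(nat_lit 376271), (nat_lit 1413931), (nat_lit 3362024), (nat_lit 0)]) (PF.cons PF.nil PF.nil)))) (PF.cons (PF.cons (PF.leaf (nat_lit 4611760) (nat_lit 1436658) (nat_lit 54850964) (nat_lit 3112999) [(nat_lit 0), (nat_lit 1436658), (nat_lit 3398214), (nat_lit 0)]) (PF.cons PF.nil PF.nil)) (PF.cons PF.nil PF.nil)))))) (PF.cons (PF.cons (PF.cons (PF.leaf (nat_lit 3045477) (nat_lit 2909954) (nat_lit 57817893) (nat_lit 2909954) [(nat_lit 0), (nat_lit 0), (nat_lit 3190482), (nat_lit 0)]) (PF.cons (PF.leaf (nat_lit 3271351) (nat_lit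
 326272) (nat_lit 57394705) (nat_lit 2941748) [(nat_lit 326272), (nat_lit 0), (nat_lit 3223043), (nat_lit 0)]) (PF.cons (PF.leaf (nat_lit 3513112) (nat_lit 338611) (nat_lit 56947375) (nat_lit 2973366) [(nat_lit 338611), (nat_lit 0), (nat_lit 3255424), (nat_lit 0)]) (PF.cons (PF.leaf (nat_lit 3767743) (nat_lit 350053) (nat_lit 56479954) (nat_lit 3004369) [(nat_lit 350053), (nat_lit 0), (nat_lit 3287164), (nat_lit 0)]) (PF.cons (PF.leaf (nat_lit 4033755) (nat_lit 360728) (nat_lit 55995579) (nat_lit 3034445) [(nat_lit 360728), (nat_lit 0), (nat_lit 3317936), (nat_lit 0)]) (PF.cons PF.nil (PF.cons PF.nil PF.nil))))))) (PF.cons (PF.cons (PF.leaf (nat_lit 3747894) (nat_lit 1363447) (nat_lit 56124794) (nat_lit 3017839) [(nat_lit 0), (nat_lit 1363447), (nat_lit 3301365), (nat_lit 0)]) (PF.cons (PF.leaf (nat_lit 3999023) (nat_lit 357498) (nat_lit 55662109) (nat_lit 3045546) [(nat_lit 357498), (nat_lit 1384350), (nat_lit 3329653), (nat_lit 0)]) (PF.cons (PF.leaf (nat_lit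 4262672) (nat_lit 367860) (nat_lit 55181799) (nat_lit 3072467) [(nat_lit 367860), (nat_lit 1404596), (nat_lit 3357114), (nat_lit 0)]) (PF.cons (PF.leaf (nat_lit 4536615) (nat_lit 377511) (nat_lit 54686882) (nat_lit 3098356)
 [(nat_lit 377511), (nat_lit 1424063), (nat_lit 3383488), (nat_lit 0)]) (PF.cons PF.nil PF.nil))))) (PF.cons (PF.cons (PF.leaf (nat_lit 4492051) (nat_lit 1427136) (nat_lit 54364028) (nat_lit 3106471) [(nat_lit 0), (nat_lit 1427136), (nat_lit 3392019), (nat_lit 0)]) (PF.cons (PF.leaf (nat_lit 4762231) (nat_lit 383525) (nat_lit 53875330) (nat_lit 3129466) [(nat_lit 383525), (nat_lit 1444893), (nat_lit 3415351), (nat_lit 0)]) (PF.cons PF.nil (PF.cons PF.nil PF.nil)))) (PF.cons (PF.cons (PF.leaf (nat_lit 5264088) (nat_lit 1479198) (nat_lit 52569509) (nat_lit 3176208) [(nat_lit 0), (nat_lit 1479198), (nat_lit 3462749), (nat_lit 0)]) (PF.cons PF.nil PF.nil)) (PF.cons PF.nil PF.nil))))) (PF.cons (PF.cons (PF.cons (PF.leaf (nat_lit 4385493) (nat_lit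 3099926) (nat_lit 53851275) (nat_lit 3099926) [(nat_lit 0), (nat_lit 0), (nat_lit 3385870), (nat_lit 0)]) (PF.cons (PF.leaf (nat_lit 4640401) (nat_lit 373895) (nat_lit 53391020) (nat_lit 3121376) [(nat_lit 373895), (nat_lit 0), (nat_lit 3407507), (nat_lit 0)]) (PF.cons (PF.leaf (nat_lit 4906847) (nat_lit 383387) (nat_lit 52915184) (nat_lit 3142008) [(nat_lit 383387), (nat_lit 0), (nat_lit 3428281), (nat_lit 0)]) (PF.cons PF.nil (PF.cons PF.nil
 PF.nil))))) (PF.cons (PF.cons (PF.leaf (nat_lit 5127588) (nat_lit 1468235) (nat_lit 52116616) (nat_lit 3166096) [(nat_lit 0), (nat_lit 1468235), (nat_lit 3452621), (nat_lit 0)]) (PF.cons (PF.leaf (nat_lit 5398825) (nat_lit 396679) (nat_lit 51636672) (nat_lit 3183282) [(nat_lit 396679), (nat_lit 1482843), (nat_lit 3469778), (nat_lit 0)]) (PF.cons PF.nil (PF.cons PF.nil PF.nil)))) (PF.cons (PF.cons (PF.leaf (nat_lit 5890465) (nat_lit 1509501) (nat_lit 50367774) (nat_lit 3215826) [(nat_lit 0), (nat_lit 1509501), (nat_lit 3502069),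 (nat_lit 0)]) (PF.cons PF.nil PF.nil)) PF.nil))) (PF.cons (PF.cons (PF.cons (PF.leaf (nat_lit 5739723) (nat_lit 3203216) (nat_lit 49948827) (nat_lit 3203216) [(nat_lit 0), (nat_lit 0), (nat_lit 3489192), (nat_lit 0)]) (PF.cons (PF.leaf (nat_lit 6010293) (nat_lit 406654) (nat_lit 49481959) (nat_lit 3215518) [(nat_lit 406654), (nat_lit 0), (nat_lit 3501170), (nat_lit 0)]) PF.nil)) (PF.cons PF.nil PF.nil)) (PF.cons PF.nil (PF.cons PF.nil (PF.cons PF.nil PF.nil)))))))) (PF.cons (PF.cons (PF.cons (PF.cons (PF.leaf (nat_lit 2962144) (nat_lit 2839631) (nat_lit 55304889) (nat_lit 2839631) [(nat_lit 0), (nat_lit 0), (nat_lit 0), (nat_lit 8964291)]) (PF.cons (PF.leaf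
 (nat_lit 3150297) (nat_lit 291964) (nat_lit 54967053) (nat_lit 2868229) [(nat_lit 291964), (nat_lit 0), (nat_lit 0), (nat_lit 8981565)]) (PF.cons (PF.leaf (nat_lit 3358023) (nat_lit 306873) (nat_lit 54599027) (nat_lit 2897429) [(nat_lit 306873), (nat_lit 0), (nat_lit 0), (nat_lit 8998608)]) (PF.cons (PF.leaf (nat_lit 3581245) (nat_lit 320378) (nat_lit 54206293) (nat_lit 2926562) [(nat_lit 320378), (nat_lit 0), (nat_lit 0), (nat_lit 9014821)]) (PF.cons (PF.leaf (nat_lit 3817873) (nat_lit 332753) (nat_lit 53792866) (nat_lit 2955172) [(nat_lit 332753), (nat_lit 0), (nat_lit 0), (nat_lit 9029760)]) (PF.cons (PF.leaf (nat_lit 4066340) (nat_lit 344179) (nat_lit 53361891) (nat_lit 2982942) [(nat_lit 344179), (nat_lit 0), (nat_lit 0), (nat_lit 9043081)]) (PF.cons (PF.leaf (nat_lit 4325269) (nat_lit 354783) (nat_lit 52915941) (nat_lit 3009646) [(nat_lit 354783), (nat_lit 0), (nat_lit 0), (nat_lit 9054523)]) (PF.cons (PF.leaf (nat_lit 4593521) (nat_lit 364658) (nat_lit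 52457194) (nat_lit 3035122) [(nat_lit 364658), (nat_lit 0), (nat_lit 0), (nat_lit 9063884)]) (PF.cons PF.nil (PF.cons PF.nil PF.nil)))))))))) (PF.cons (PF.cons (PF.leaf (nat_lit 3582481) (nat_lit 1301930) (nat_lit 53843168)
 (nat_lit 2941562) [(nat_lit 0), (nat_lit 1301930), (nat_lit 0), (nat_lit 9022151)]) (PF.cons (PF.leaf (nat_lit 3801605) (nat_lit 328402) (nat_lit 53454724) (nat_lit 2967348) [(nat_lit 328402), (nat_lit 1323815), (nat_lit 0), (nat_lit 9034521)]) (PF.cons (PF.leaf (nat_lit 4035800) (nat_lit 340415) (nat_lit 53044455) (nat_lit 2992802) [(nat_lit 340415), (nat_lit 1345107), (nat_lit 0), (nat_lit 9045616)]) (PF.cons (PF.leaf (nat_lit 4282201) (nat_lit 351443) (nat_lit 52616193) (nat_lit 3017566) [(nat_lit 351443), (nat_lit 1365619), (nat_lit 0), (nat_lit 9055102)]) (PF.cons (PF.leaf (nat_lit 4539293) (nat_lit 361634) (nat_lit 52172902) (nat_lit 3041395) [(nat_lit 361634), (nat_lit 1385245), (nat_lit 0), (nat_lit 9062731)]) (PF.cons (PF.leaf (nat_lit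 4805723) (nat_lit 371093) (nat_lit 51716989) (nat_lit 3064115) [(nat_lit 371093), (nat_lit 1403922), (nat_lit 0), (nat_lit 9068319)]) (PF.cons (PF.leaf (nat_lit 5080429) (nat_lit 379896) (nat_lit 51250473) (nat_lit 3085607) [(nat_lit 379896), (nat_lit 1421620), (nat_lit 0), (nat_lit 9071734)]) (PF.cons PF.nil (PF.cons PF.nil PF.nil))))))))) (PF.cons (PF.cons (PF.leaf (nat_lit 4255674) (nat_lit 1369142) (nat_lit 52288792) (nat_lit 3026480)
 [(nat_lit 0), (nat_lit 1369142), (nat_lit 0), (nat_lit 9055255)]) (PF.cons (PF.leaf (nat_lit 4498130) (nat_lit 357801) (nat_lit 51866100) (nat_lit 3048388) [(nat_lit 357801), (nat_lit 1387714), (nat_lit 0), (nat_lit 9061092)]) (PF.cons (PF.leaf (nat_lit 4752421) (nat_lit 367670) (nat_lit 51427756) (nat_lit 3069502) [(nat_lit 367670), (nat_lit 1405549), (nat_lit 0), (nat_lit 9065112)]) (PF.cons (PF.leaf (nat_lit 5016309) (nat_lit 376784) (nat_lit 50976569) (nat_lit 3089630) [(nat_lit 376784), (nat_lit 1422557), (nat_lit 0), (nat_lit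 9067144)]) (PF.cons (PF.leaf (nat_lit 5288598) (nat_lit 385233) (nat_lit 50514797) (nat_lit 3108640) [(nat_lit 385233), (nat_lit 1438686), (nat_lit 0), (nat_lit 9067069)]) (PF.cons (PF.leaf (nat_lit 5568156) (nat_lit 393083) (nat_lit 50044323) (nat_lit 3126443) [(nat_lit 393083), (nat_lit 1453909), (nat_lit 0), (nat_lit 9064807)]) (PF.cons PF.nil PF.nil))))))) (PF.cons (PF.cons (PF.leaf (nat_lit 4965883) (nat_lit 1423877) (nat_lit 50681049) (nat_lit 3094219) [(nat_lit 0), (nat_lit 1423877), (nat_lit 0), (nat_lit 9061910)]) (PF.cons (PF.leaf (nat_lit 5225768) (nat_lit 381756) (nat_lit 50236590) (nat_lit 3111902) [(nat_lit 381756), (nat_lit 1439313),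
 (nat_lit 0), (nat_lit 9060623)]) (PF.cons (PF.leaf (nat_lit 5494932) (nat_lit 389912) (nat_lit 49781200) (nat_lit 3128579) [(nat_lit 389912), (nat_lit 1453970), (nat_lit 0), (nat_lit 9057296)]) (PF.cons (PF.leaf (nat_lit 5771560) (nat_lit 397457) (nat_lit 49317001) (nat_lit 3144153) [(nat_lit 397457), (nat_lit 1467807), (nat_lit 0), (nat_lit 9051864)]) (PF.cons PF.nil PF.nil))))) (PF.cons (PF.cons (PF.leaf (nat_lit 5700428) (nat_lit 1467600) (nat_lit 49050098) (nat_lit 3145629) [(nat_lit 0), (nat_lit 1467600), (nat_lit 0), (nat_lit 9042681)]) (PF.cons (PF.leaf (nat_lit 5972913) (nat_lit 401242) (nat_lit 48593596) (nat_lit 3159112) [(nat_lit 401242), (nat_lit 1480133), (nat_lit 0), (nat_lit 9034327)]) (PF.cons (PF.leaf (nat_lit 6252625) (nat_lit 407971) (nat_lit 48129833) (nat_lit 3171522) [(nat_lit 407971), (nat_lit 1491899), (nat_lit 0), (nat_lit 9023915)]) (PF.cons PF.nil PF.nil)))) (PF.cons (PF.cons (PF.leaf (nat_lit 6448996) (nat_lit 1501605) (nat_lit 47419294)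 (nat_lit 3182042) [(nat_lit 0), (nat_lit 1501605), (nat_lit 0), (nat_lit 8999449)]) (PF.cons PF.nil PF.nil)) (PF.cons PF.nil (PF.cons PF.nil PF.nil)))))))) (PF.cons (PF.cons (PF.cons (PF.leaf (nat_lit 4173139) (nat_lit
 3018474) (nat_lit 51752791) (nat_lit 3018474) [(nat_lit 0), (nat_lit 0), (nat_lit 3301701), (nat_lit 9035845)]) (PF.cons (PF.leaf (nat_lit 4397696) (nat_lit 345093) (nat_lit 51363463) (nat_lit 3038759) [(nat_lit 345093), (nat_lit 0), (nat_lit 3321851), (nat_lit 9039644)]) (PF.cons (PF.leaf (nat_lit 4636429) (nat_lit 356277) (nat_lit 50954203) (nat_lit 3058598) [(nat_lit 356277), (nat_lit 0), (nat_lit 3341543), (nat_lit 9041910)]) (PF.cons (PF.leaf (nat_lit 4886454) (nat_lit 366429) (nat_lit 50528882) (nat_lit 3077712) [(nat_lit 366429), (nat_lit 0), (nat_lit 3360490), (nat_lit 9042437)]) (PF.cons (PF.leaf (nat_lit 5146181) (nat_lit 375719) (nat_lit 50090455) (nat_lit 3095911) [(nat_lit 375719), (nat_lit 0), (nat_lit 3378493), (nat_lit 9041076)])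 (PF.cons (PF.leaf (nat_lit 5414326) (nat_lit 384264) (nat_lit 49641280) (nat_lit 3113064) [(nat_lit 384264), (nat_lit 0), (nat_lit 3395417), (nat_lit 9037726)]) (PF.cons (PF.leaf (nat_lit 5689821) (nat_lit 392155) (nat_lit 49183308) (nat_lit 3129084) [(nat_lit 392155), (nat_lit 0), (nat_lit 3411168), (nat_lit 9032320)]) (PF.cons PF.nil (PF.cons PF.nil PF.nil))))))))) (PF.cons (PF.cons (PF.leaf (nat_lit 4850044) (nat_lit 1410498) (nat_lit
 50213434) (nat_lit 3082833) [(nat_lit 0), (nat_lit 1410498), (nat_lit 3365726), (nat_lit 9036320)]) (PF.cons (PF.leaf (nat_lit 5095314) (nat_lit 371276) (nat_lit 49795924) (nat_lit 3099544) [(nat_lit 371276), (nat_lit 1426044), (nat_lit 3382195), (nat_lit 9033827)]) (PF.cons (PF.leaf (nat_lit 5351501) (nat_lit 380318) (nat_lit 49364528) (nat_lit 3115460) [(nat_lit 380318), (nat_lit 1440863), (nat_lit 3397838), (nat_lit 9029485)]) (PF.cons (PF.leaf (nat_lit 5616417) (nat_lit 388588) (nat_lit 48922008) (nat_lit 3130437) [(nat_lit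 388588), (nat_lit 1454890), (nat_lit 3412504), (nat_lit 9023206)]) (PF.cons (PF.leaf (nat_lit 5888840) (nat_lit 396188) (nat_lit 48470557) (nat_lit 3144377) [(nat_lit 396188), (nat_lit 1468092), (nat_lit 3426093), (nat_lit 9014937)]) (PF.cons PF.nil (PF.cons PF.nil PF.nil))))))) (PF.cons (PF.cons (PF.leaf (nat_lit 5556864) (nat_lit 1454697) (nat_lit 48639831) (nat_lit 3132181) [(nat_lit 0), (nat_lit 1454697), (nat_lit 3414204), (nat_lit 9013199)]) (PF.cons (PF.leaf (nat_lit 5817170) (nat_lit 392279) (nat_lit 48205663) (nat_lit 3145112) [(nat_lit 392279), (nat_lit 1467386), (nat_lit 3426749), (nat_lit 9004235)]) (PF.cons (PF.leaf (nat_lit 6085940) (nat_lit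
 399647) (nat_lit 47762088) (nat_lit 3157103) [(nat_lit 399647), (nat_lit 1479336), (nat_lit 3438311), (nat_lit 8993340)]) (PF.cons (PF.leaf (nat_lit 6361399) (nat_lit 406406) (nat_lit 47311147) (nat_lit 3168082) [(nat_lit 406406), (nat_lit 1490522), (nat_lit 3448819), (nat_lit 8980499)]) (PF.cons PF.nil PF.nil))))) (PF.cons (PF.cons (PF.leaf (nat_lit 6282149) (nat_lit 1489193) (nat_lit 47058052) (nat_lit 3167427) [(nat_lit 0), (nat_lit 1489193), (nat_lit 3447997), (nat_lit 8967756)]) (PF.cons (PF.leaf (nat_lit 6553050) (nat_lit 409104) (nat_lit 46615931) (nat_lit 3176667) [(nat_lit 409104), (nat_lit 1499271), (nat_lit 3456695), (nat_lit 8952598)]) (PF.cons PF.nil (PF.cons PF.nil PF.nil)))) (PF.cons (PF.cons (PF.leaf (nat_lit 7016813) (nat_lit 1515183) (nat_lit 45487725) (nat_lit 3189842) [(nat_lit 0), (nat_lit 1515183), (nat_lit 3468393), (nat_lit 8902117)]) (PF.cons PF.nil PF.nil)) (PF.cons PF.nil PF.nil)))))) (PF.cons (PF.cons (PF.cons (PF.leaf (nat_lit 5427048)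 (nat_lit 3118507) (nat_lit 48207132) (nat_lit 3118507) [(nat_lit 0), (nat_lit 0), (nat_lit 3400353), (nat_lit 8982465)]) (PF.cons (PF.leaf (nat_lit 5673391) (nat_lit 381741) (nat_lit 47798787) (nat_lit 3130830) [(nat_lit
 381741), (nat_lit 0), (nat_lit 3412212), (nat_lit 8973027)]) (PF.cons (PF.leaf (nat_lit 5929885) (nat_lit 390031) (nat_lit 47378101) (nat_lit 3142372) [(nat_lit 390031), (nat_lit 0), (nat_lit 3423257), (nat_lit 8961762)]) (PF.cons (PF.leaf (nat_lit 6194343) (nat_lit 397542) (nat_lit 46947754) (nat_lit 3153025) [(nat_lit 397542), (nat_lit 0), (nat_lit 3433377), (nat_lit 8948650)]) (PF.cons (PF.leaf (nat_lit 6465561) (nat_lit 404386) (nat_lit 46509851) (nat_lit 3162722) [(nat_lit 404386), (nat_lit 0), (nat_lit 3442502), (nat_lit 8933688)]) PF.nil))))) (PF.cons (PF.cons (PF.leaf (nat_lit 6126733) (nat_lit 1475935) (nat_lit 46679958) (nat_lit 3152531) [(nat_lit 0), (nat_lit 1475935), (nat_lit 3432698), (nat_lit 8934990)]) (PF.cons (PF.leaf (nat_lit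 6386150) (nat_lit 400151) (nat_lit 46259039) (nat_lit 3161479) [(nat_lit 400151), (nat_lit 1486270), (nat_lit 3441055), (nat_lit 8919761)]) (PF.cons (PF.leaf (nat_lit 6653311) (nat_lit 406817) (nat_lit 45829992) (nat_lit 3169552) [(nat_lit 406817), (nat_lit 1495909), (nat_lit 3448497), (nat_lit 8902727)]) (PF.cons PF.nil PF.nil)))) (PF.cons (PF.cons (PF.leaf (nat_lit 6840184) (nat_lit 1502634) (nat_lit 45155852) (nat_lit 3174387) [(nat_lit
 0), (nat_lit 1502634), (nat_lit 3452391), (nat_lit 8868521)]) (PF.cons (PF.leaf (nat_lit 7108530) (nat_lit 414662) (nat_lit 44730130) (nat_lit 3180097) [(nat_lit 414662), (nat_lit 1510624), (nat_lit 3457377), (nat_lit 8847916)]) PF.nil)) (PF.cons PF.nil (PF.cons PF.nil PF.nil))))) (PF.cons (PF.cons (PF.cons (PF.leaf (nat_lit 6674852) (nat_lit 3158603) (nat_lit 44808174) (nat_lit 3158603) [(nat_lit 0), (nat_lit 0), (nat_lit 3436081), (nat_lit 8833791)]) (PF.cons (PF.leaf (nat_lit 6932348) (nat_lit 405800) (nat_lit 44402430) (nat_lit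 3164222) [(nat_lit 405800), (nat_lit 0), (nat_lit 3440945), (nat_lit 8813525)]) (PF.cons (PF.leaf (nat_lit 7196990) (nat_lit 411839) (nat_lit 43989630) (nat_lit 3169030) [(nat_lit 411839), (nat_lit 0), (nat_lit 3444961), (nat_lit 8791587)]) (PF.cons PF.nil PF.nil)))) (PF.cons (PF.cons (PF.leaf (nat_lit 7374674) (nat_lit 1509388) (nat_lit 43346830) (nat_lit 3169401) [(nat_lit 0), (nat_lit 1509388), (nat_lit 3444156), (nat_lit 8750721)]) (PF.cons (PF.leaf (nat_lit 7639745) (nat_lit 418300) (nat_lit 42938682) (nat_lit 3172183) [(nat_lit 418300), (nat_lit 1515603), (nat_lit 3446072), (nat_lit 8725824)]) PF.nil)) (PF.cons PF.nil PF.nil))) (PF.cons (PF.cons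
 (PF.cons (PF.leaf (nat_lit 7886199) (nat_lit 3154851) (nat_lit 41631522) (nat_lit 3154851) [(nat_lit 0), (nat_lit 0), (nat_lit 3425842), (nat_lit 8619070)]) (PF.cons PF.nil PF.nil)) (PF.cons PF.nil PF.nil)) (PF.cons PF.nil PF.nil)))))) (PF.cons (PF.cons (PF.cons (PF.cons (PF.leaf (nat_lit 5152960) (nat_lit 3027656) (nat_lit 46490017) (nat_lit 3027656) [(nat_lit 0), (nat_lit 0), (nat_lit 0), (nat_lit 8795569)]) (PF.cons (PF.leaf (nat_lit 5372107) (nat_lit 352142) (nat_lit 46143471) (nat_lit 3040477) [(nat_lit 352142), (nat_lit 0), (nat_lit 0), (nat_lit 8786360)]) (PF.cons (PF.leaf (nat_lit 5604222) (nat_lit 362348) (nat_lit 45780355) (nat_lit 3052728) [(nat_lit 362348), (nat_lit 0), (nat_lit 0), (nat_lit 8775516)]) (PF.cons (PF.leaf (nat_lit 5846360) (nat_lit 371459) (nat_lit 45404167) (nat_lit 3064235) [(nat_lit 371459), (nat_lit 0), (nat_lit 0), (nat_lit 8763016)]) (PF.cons (PF.leaf (nat_lit 6096984) (nat_lit 379666) (nat_lit 45017552) (nat_lit 3074884) [(nat_lit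 379666), (nat_lit 0), (nat_lit 0), (nat_lit 8748853)]) (PF.cons (PF.leaf (nat_lit 6354852) (nat_lit 387108) (nat_lit 44622595) (nat_lit 3084606) [(nat_lit 387108), (nat_lit 0), (nat_lit 0), (nat_lit 8733033)]) (PF.cons
 (PF.leaf (nat_lit 6618929) (nat_lit 393886) (nat_lit 44220998) (nat_lit 3093357) [(nat_lit 393886), (nat_lit 0), (nat_lit 0), (nat_lit 8715569)]) (PF.cons PF.nil (PF.cons PF.nil PF.nil))))))))) (PF.cons (PF.cons (PF.leaf (nat_lit 5798504) (nat_lit 1416638) (nat_lit 45130676) (nat_lit 3064458) [(nat_lit 0), (nat_lit 1416638), (nat_lit 0), (nat_lit 8748519)]) (PF.cons (PF.leaf (nat_lit 6035244) (nat_lit 374546) (nat_lit 44763061) (nat_lit 3074191) [(nat_lit 374546), (nat_lit 1428485), (nat_lit 0), (nat_lit 8734263)]) (PF.cons (PF.leaf (nat_lit 6281752) (nat_lit 382567) (nat_lit 44384221) (nat_lit 3083167) [(nat_lit 382567), (nat_lit 1439594), (nat_lit 0), (nat_lit 8718347)]) (PF.cons (PF.leaf (nat_lit 6535885) (nat_lit 389795) (nat_lit 43996592) (nat_lit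 3091303) [(nat_lit 389795), (nat_lit 1449937), (nat_lit 0), (nat_lit 8700796)]) (PF.cons (PF.leaf (nat_lit 6796473) (nat_lit 396346) (nat_lit 43602084) (nat_lit 3098550) [(nat_lit 396346), (nat_lit 1459509), (nat_lit 0), (nat_lit 8681640)]) (PF.cons PF.nil (PF.cons PF.nil PF.nil))))))) (PF.cons (PF.cons (PF.leaf (nat_lit 6466612) (nat_lit 1447827) (nat_lit 43754082) (nat_lit 3089421) [(nat_lit 0), (nat_lit 1447827), (nat_lit 0),
 (nat_lit 8684826)]) (PF.cons (PF.leaf (nat_lit 6715756) (nat_lit 391956) (nat_lit 43375044) (nat_lit 3096087) [(nat_lit 391956), (nat_lit 1457111), (nat_lit 0), (nat_lit 8665751)]) (PF.cons (PF.leaf (nat_lit 6972368) (nat_lit 398338) (nat_lit 42988605) (nat_lit 3101940) [(nat_lit 398338), (nat_lit 1465702), (nat_lit 0), (nat_lit 8645092)]) (PF.cons (PF.leaf (nat_lit 7234737) (nat_lit 404114) (nat_lit 42596525) (nat_lit 3106948) [(nat_lit 404114), (nat_lit 1473596), (nat_lit 0), (nat_lit 8622902)]) (PF.cons PF.nil PF.nil))))) (PF.cons (PF.cons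 (PF.leaf (nat_lit 7147632) (nat_lit 1470861) (nat_lit 42380447) (nat_lit 3103646) [(nat_lit 0), (nat_lit 1470861), (nat_lit 0), (nat_lit 8606067)]) (PF.cons (PF.leaf (nat_lit 7405281) (nat_lit 405505) (nat_lit 41996970) (nat_lit 3107430) [(nat_lit 405505), (nat_lit 1477904), (nat_lit 0), (nat_lit 8582596)]) (PF.cons PF.nil (PF.cons PF.nil PF.nil)))) (PF.cons (PF.cons (PF.leaf (nat_lit 7834172) (nat_lit 1486977) (nat_lit 41024291) (nat_lit 3108345) [(nat_lit 0), (nat_lit 1486977), (nat_lit 0), (nat_lit 8514132)]) (PF.cons PF.nil PF.nil)) (PF.cons PF.nil PF.nil)))))) (PF.cons (PF.cons (PF.cons (PF.leaf (nat_lit 6322722) (nat_lit 3072696)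
 (nat_lit 43393046) (nat_lit 3072696) [(nat_lit 0), (nat_lit 0), (nat_lit 3345771), (nat_lit 8648649)]) (PF.cons (PF.leaf (nat_lit 6559118) (nat_lit 381179) (nat_lit 43036522) (nat_lit 3079289) [(nat_lit 381179), (nat_lit 0), (nat_lit 3351558), (nat_lit 8630131)]) (PF.cons (PF.leaf (nat_lit 6804655) (nat_lit 388549) (nat_lit 42669947) (nat_lit 3085156) [(nat_lit 388549), (nat_lit 0), (nat_lit 3356594), (nat_lit 8610007)]) (PF.cons (PF.leaf (nat_lit 7057203) (nat_lit 395135) (nat_lit 42295657) (nat_lit 3090243) [(nat_lit 395135), (nat_lit 0), (nat_lit 3360824), (nat_lit 8588340)]) (PF.cons (PF.leaf (nat_lit 7315593) (nat_lit 401057) (nat_lit 41915466) (nat_lit 3094517) [(nat_lit 401057), (nat_lit 0), (nat_lit 3364215), (nat_lit 8565191)]) (PF.cons PF.nil (PF.cons PF.nil PF.nil))))))) (PF.cons (PF.cons (PF.leaf (nat_lit 6981662) (nat_lit 1456880) (nat_lit 42066740) (nat_lit 3086985) [(nat_lit 0), (nat_lit 1456880), (nat_lit 3357212), (nat_lit 8570497)]) (PF.cons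 (PF.leaf (nat_lit 7228995) (nat_lit 396486) (nat_lit 41701517) (nat_lit 3090858) [(nat_lit 396486), (nat_lit 1464368), (nat_lit 3360204), (nat_lit 8547688)]) (PF.cons (PF.leaf (nat_lit 7483217) (nat_lit 402286) (nat_lit
 41329813) (nat_lit 3093981) [(nat_lit 402286), (nat_lit 1471210), (nat_lit 3362419), (nat_lit 8523407)]) (PF.cons PF.nil (PF.cons PF.nil PF.nil))))) (PF.cons (PF.cons (PF.leaf (nat_lit 7650266) (nat_lit 1474155) (nat_lit 40750032) (nat_lit 3092051) [(nat_lit 0), (nat_lit 1474155), (nat_lit 3359166), (nat_lit 8479625)]) (PF.cons (PF.leaf (nat_lit 7904859) (nat_lit 408215) (nat_lit 40382344) (nat_lit 3093401) [(nat_lit 408215), (nat_lit 1479638), (nat_lit 3359558), (nat_lit 8453007)]) (PF.cons PF.nil (PF.cons PF.nil PF.nil)))) (PF.cons (PF.cons (PF.leaf (nat_lit 8321925) (nat_lit 1485388) (nat_lit 39455165) (nat_lit 3088992) [(nat_lit 0), (nat_lit 1485388), (nat_lit 3352745), (nat_lit 8377872)]) (PF.cons PF.nil PF.nil)) (PF.cons PF.nil PF.nil)))))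 (PF.cons (PF.cons (PF.cons (PF.leaf (nat_lit 7477354) (nat_lit 3075338) (nat_lit 40461978) (nat_lit 3075338) [(nat_lit 0), (nat_lit 0), (nat_lit 3341840), (nat_lit 8443907)]) (PF.cons (PF.leaf (nat_lit 7722194) (nat_lit 399421) (nat_lit 40111338) (nat_lit 3076886) [(nat_lit 399421), (nat_lit 0), (nat_lit 3342421), (nat_lit 8418162)]) (PF.cons (PF.leaf (nat_lit 7973483) (nat_lit 404704) (nat_lit 39754989) (nat_lit 3077742) [(nat_lit
 404704), (nat_lit 0), (nat_lit 3342284), (nat_lit 8391052)]) (PF.cons PF.nil PF.nil)))) (PF.cons (PF.cons (PF.leaf (nat_lit 8132613) (nat_lit 1472919) (nat_lit 39203615) (nat_lit 3072874) [(nat_lit 0), (nat_lit 1472919), (nat_lit 3335970), (nat_lit 8343731)]) (PF.cons (PF.leaf (nat_lit 8383725) (nat_lit 409571) (nat_lit 38852004) (nat_lit 3072210) [(nat_lit 409571), (nat_lit 1477079), (nat_lit 3334274), (nat_lit 8314698)]) PF.nil)) (PF.cons PF.nil PF.nil))) (PF.cons (PF.cons (PF.cons (PF.leaf (nat_lit 8595420) (nat_lit 3047681) (nat_lit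 37739180) (nat_lit 3047681) [(nat_lit 0), (nat_lit 0), (nat_lit 3306504), (nat_lit 8201217)]) (PF.cons PF.nil PF.nil)) (PF.cons PF.nil PF.nil)) (PF.cons PF.nil PF.nil))))) (PF.cons (PF.cons (PF.cons (PF.cons (PF.leaf (nat_lit 7104550) (nat_lit 2993514) (nat_lit 39307892) (nat_lit 2993514) [(nat_lit 0), (nat_lit 0), (nat_lit 0), (nat_lit 8269135)]) (PF.cons (PF.leaf (nat_lit 7330835) (nat_lit 375858) (nat_lit 38998018) (nat_lit 2996466) [(nat_lit 375858), (nat_lit 0), (nat_lit 0), (nat_lit 8246156)]) (PF.cons (PF.leaf (nat_lit 7565513) (nat_lit 382507) (nat_lit 38679770) (nat_lit 2998752) [(nat_lit 382507), (nat_lit 0), (nat_lit 0), (nat_lit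
 8221757)]) (PF.cons (PF.leaf (nat_lit 7806491) (nat_lit 388382) (nat_lit 38355169) (nat_lit 3000349) [(nat_lit 388382), (nat_lit 0), (nat_lit 0), (nat_lit 8196049)]) (PF.cons (PF.leaf (nat_lit 8052675) (nat_lit 393608) (nat_lit 38025770) (nat_lit 3001248) [(nat_lit 393608), (nat_lit 0), (nat_lit 0), (nat_lit 8169120)]) PF.nil))))) (PF.cons (PF.cons (PF.leaf (nat_lit 7726157) (nat_lit 1423561) (nat_lit 38159656) (nat_lit 2995595) [(nat_lit 0), (nat_lit 1423561), (nat_lit 0), (nat_lit 8176666)]) (PF.cons (PF.leaf (nat_lit 7961894) (nat_lit 388901) (nat_lit 37843283) (nat_lit 2996312) [(nat_lit 388901), (nat_lit 1429107), (nat_lit 0), (nat_lit 8150402)]) (PF.cons (PF.leaf (nat_lit 8203914) (nat_lit 394046) (nat_lit 37521560) (nat_lit 2996379) [(nat_lit 394046), (nat_lit 1434058), (nat_lit 0), (nat_lit 8122906)]) (PF.cons PF.nil PF.nil)))) (PF.cons (PF.cons (PF.leaf (nat_lit 8354936) (nat_lit 1434621) (nat_lit 37022713) (nat_lit 2990513) [(nat_lit 0), (nat_lit 1434621),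 (nat_lit 0), (nat_lit 8075447)]) (PF.cons (PF.leaf (nat_lit 8596833) (nat_lit 398654) (nat_lit 36704921) (nat_lit 2989214) [(nat_lit 398654), (nat_lit 1438432), (nat_lit 0), (nat_lit 8046385)]) PF.nil)) (PF.cons PF.nil
 (PF.cons PF.nil PF.nil))))) (PF.cons (PF.cons (PF.cons (PF.leaf (nat_lit 8178829) (nat_lit 2973992) (nat_lit 36783040) (nat_lit 2973992) [(nat_lit 0), (nat_lit 0), (nat_lit 3228686), (nat_lit 8041030)]) (PF.cons (PF.leaf (nat_lit 8411880) (nat_lit 390113) (nat_lit 36479719) (nat_lit 2973048) [(nat_lit 390113), (nat_lit 0), (nat_lit 3226683), (nat_lit 8013082)]) (PF.cons (PF.leaf (nat_lit 8650858) (nat_lit 394823) (nat_lit 36171627) (nat_lit 2971504) [(nat_lit 394823), (nat_lit 0), (nat_lit 3224062), (nat_lit 7983990)]) (PF.cons PF.nil PF.nil)))) (PF.cons (PF.cons (PF.leaf (nat_lit 8795043) (nat_lit 1428654) (nat_lit 35697421) (nat_lit 2963671) [(nat_lit 0), (nat_lit 1428654), (nat_lit 3214683), (nat_lit 7934793)]) (PF.cons PF.nil PF.nil)) (PF.cons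 PF.nil PF.nil))) (PF.cons (PF.cons (PF.cons (PF.leaf (nat_lit 9218449) (nat_lit 2933015) (nat_lit 34441817) (nat_lit 2933015) [(nat_lit 0), (nat_lit 0), (nat_lit 3179623), (nat_lit 7791577)]) (PF.cons PF.nil PF.nil)) (PF.cons PF.nil PF.nil)) PF.nil))) (PF.cons (PF.cons (PF.cons (PF.cons (PF.leaf (nat_lit 8802043) (nat_lit 2865855) (nat_lit 33652752) (nat_lit 2865855) [(nat_lit 0), (nat_lit 0), (nat_lit 0), (nat_lit 7647551)]) (PF.cons
 (PF.leaf (nat_lit 9024274) (nat_lit 379364) (nat_lit 33389273) (nat_lit 2863388) [(nat_lit 379364), (nat_lit 0), (nat_lit 0), (nat_lit 7619196)]) (PF.cons PF.nil PF.nil))) (PF.cons (PF.cons (PF.leaf (nat_lit 9384004) (nat_lit 1381264) (nat_lit 32711754) (nat_lit 2850957) [(nat_lit 0), (nat_lit 1381264), (nat_lit 0), (nat_lit 7541208)]) PF.nil) PF.nil)) (PF.cons PF.nil PF.nil)) (PF.cons PF.nil (PF.cons PF.nil (PF.cons PF.nil (PF.cons PF.nil PF.nil)))))))))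

def p15_16_0_0 : pfC (piC [(nat_lit 41351667), (nat_lit 26310893), (nat_lit 19519284), (nat_lit 13130440)] (nat_lit 23751559)) p15_16_0 (nat_lit 4) (nat_lit 0) (nat_lit 1) = true := by decide +kernel
def p15_16_0_1 : pfC (piC [(nat_lit 41351667), (nat_lit 26310893), (nat_lit 19519284), (nat_lit 13130440)] (nat_lit 23751559)) p15_16_0 (nat_lit 4) (nat_lit 1) (nat_lit 2) = true := by decide +kernel
def p15_16_0_2 : pfC (piC [(nat_lit 41351667), (nat_lit 26310893), (nat_lit 19519284), (nat_lit 13130440)] (nat_lit 23751559)) p15_16_0 (nat_lit 4) (nat_lit 2) (nat_lit 3) = true := by decide +kernel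
def p15_16_0_3 : pfC (piC [(nat_lit 41351667), (nat_lit 26310893), (nat_lit 19519284), (nat_lit 13130440)] (nat_lit 23751559)) p15_16_0 (nat_lit 4) (nat_lit 3) (nat_lit 4) = true := by decide +kernel
def p15_16_0_4 : pfC (piC [(nat_lit 41351667), (nat_lit 26310893), (nat_lit 19519284), (nat_lit 13130440)] (nat_lit 23751559)) p15_16_0 (nat_lit 4) (nat_lit 4) (nat_lit 5) = true := by decide +kernel
def p15_16_0_5 : pfC (piC [(nat_lit 41351667), (nat_lit 26310893), (nat_lit 19519284), (nat_lit 13130440)] (nat_lit 23751559)) p15_16_0 (nat_lit 4) (nat_lit 5) (nat_lit 6) = true := by decide +kernel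
def p15_16_0_6 : pfC (piC [(nat_lit 41351667), (nat_lit 26310893), (nat_lit 19519284), (nat_lit 13130440)] (nat_lit 23751559)) p15_16_0 (nat_lit 4) (nat_lit 6) (nat_lit 7) = true := by decide +kernel
def p15_16_0_7 : pfC (piC [(nat_lit 41351667), (nat_lit 26310893), (nat_lit 19519284), (nat_lit 13130440)] (nat_lit 23751559)) p15_16_0 (nat_lit 4) (nat_lit 7) (nat_lit 8) = true := by decide +kernel
def p15_16_0_8 : pfC (piC [(nat_lit 41351667), (nat_lit 26310893), (nat_lit 19519284), (nat_lit 13130440)] (nat_lit 23751559)) p15_16_0 (nat_lit 4) (nat_lit 8) (nat_lit 9) = true := by decide +kernel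
def p15_16_0_9 : pfC (piC [(nat_lit 41351667), (nat_lit 26310893), (nat_lit 19519284), (nat_lit 13130440)] (nat_lit 23751559)) p15_16_0 (nat_lit 4) (nat_lit 9) (nat_lit 10) = true := by decide +kernel
def p15_16_0_10 : pfC (piC [(nat_lit 41351667), (nat_lit 26310893), (nat_lit 19519284), (nat_lit 13130440)] (nat_lit 23751559)) p15_16_0 (nat_lit 4) (nat_lit 10) (nat_lit 11) = true := by decide +kernel
def p15_16_0_11 : pfC (piC [(nat_lit 41351667), (nat_lit 26310893), (nat_lit 19519284), (nat_lit 13130440)] (nat_lit 23751559)) p15_16_0 (nat_lit 4) (nat_lit 11) (nat_lit 12) = true := by decide +kernel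
def p15_16_0_12 : pfC (piC [(nat_lit 41351667), (nat_lit 26310893), (nat_lit 19519284), (nat_lit 13130440)] (nat_lit 23751559)) p15_16_0 (nat_lit 4) (nat_lit 12) (nat_lit 13) = true := by decide +kernel
def p15_16_0_13 : pfC (piC [(nat_lit 41351667), (nat_lit 26310893), (nat_lit 19519284), (nat_lit 13130440)] (nat_lit 23751559)) p15_16_0 (nat_lit 4) (nat_lit 13) (nat_lit 14) = true := by decide +kernel
def p15_16_0_14 : pfC (piC [(nat_lit 41351667), (nat_lit 26310893), (nat_lit 19519284), (nat_lit 13130440)] (nat_lit 23751559)) p15_16_0 (nat_lit 4) (nat_lit 14) (nat_lit 15) = true := by decide +kernel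
def p15_16_0_15 : pfC (piC [(nat_lit 41351667), (nat_lit 26310893), (nat_lit 19519284), (nat_lit 13130440)] (nat_lit 23751559)) p15_16_0 (nat_lit 4) (nat_lit 15) (nat_lit 16) = true := by decide +kernel
def p15_16_0_16 : pfC (piC [(nat_lit 41351667), (nat_lit 26310893), (nat_lit 19519284), (nat_lit 13130440)] (nat_lit 23751559)) p15_16_0 (nat_lit 4) (nat_lit 16) (nat_lit 17) = true := by decide +kernel
def p15_16_0_17 : pfC (piC [(nat_lit 41351667), (nat_lit 26310893), (nat_lit 19519284), (nat_lit 13130440)] (nat_lit 23751559)) p15_16_0 (nat_lit 4) (nat_lit 17) (nat_lit 18) = true := by decide +kernel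
def p15_16_0_18 : pfC (piC [(nat_lit 41351667), (nat_lit 26310893), (nat_lit 19519284), (nat_lit 13130440)] (nat_lit 23751559)) p15_16_0 (nat_lit 4) (nat_lit 18) (nat_lit 19) = true := by decide +kernel
def p15_16_0_19 : pfC (piC [(nat_lit 41351667), (nat_lit 26310893), (nat_lit 19519284), (nat_lit 13130440)] (nat_lit 23751559)) p15_16_0 (nat_lit 4) (nat_lit 19) (nat_lit 20) = true := by decide +kernel
def p15_16_0_20 : pfC (piC [(nat_lit 41351667), (nat_lit 26310893), (nat_lit 19519284), (nat_lit 13130440)] (nat_lit 23751559)) p15_16_0 (nat_lit 4) (nat_lit 20) (nat_lit 21) = true := by decide +kernel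
def p15_16_0_21 : pfC (piC [(nat_lit 41351667), (nat_lit 26310893), (nat_lit 19519284), (nat_lit 13130440)] (nat_lit 23751559)) p15_16_0 (nat_lit 4) (nat_lit 21) (nat_lit 22) = true := by decide +kernel
def p15_16_0_22 : pfC (piC [(nat_lit 41351667), (nat_lit 26310893), (nat_lit 19519284), (nat_lit 13130440)] (nat_lit 23751559)) p15_16_0 (nat_lit 4) (nat_lit 22) (nat_lit 23) = true := by decide +kernel
def p15_16_0_23 : pfC (piC [(nat_lit 41351667), (nat_lit 26310893), (nat_lit 19519284), (nat_lit 13130440)] (nat_lit 23751559)) p15_16_0 (nat_lit 4) (nat_lit 23) (nat_lit 24) = true := by decide +kernel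
def p15_16_0_24 : pfC (piC [(nat_lit 41351667), (nat_lit 26310893), (nat_lit 19519284), (nat_lit 13130440)] (nat_lit 23751559)) p15_16_0 (nat_lit 4) (nat_lit 24) (nat_lit 25) = true := by decide +kernel
def p15_16_0_25 : pfC (piC [(nat_lit 41351667), (nat_lit 26310893), (nat_lit 19519284), (nat_lit 13130440)] (nat_lit 23751559)) p15_16_0 (nat_lit 4) (nat_lit 25) (nat_lit 26) = true := by decide +kernel
def p15_16_0_26 : pfC (piC [(nat_lit 41351667), (nat_lit 26310893), (nat_lit 19519284), (nat_lit 13130440)] (nat_lit 23751559)) p15_16_0 (nat_lit 4) (nat_lit 26) (nat_lit 27) = true := by decide +kernel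
def p15_16_0_27 : pfC (piC [(nat_lit 41351667), (nat_lit 26310893), (nat_lit 19519284), (nat_lit 13130440)] (nat_lit 23751559)) p15_16_0 (nat_lit 4) (nat_lit 27) (nat_lit 28) = true := by decide +kernel
def p15_16_0_28 : pfC (piC [(nat_lit 41351667), (nat_lit 26310893), (nat_lit 19519284), (nat_lit 13130440)] (nat_lit 23751559)) p15_16_0 (nat_lit 4) (nat_lit 28) (nat_lit 29) = true := by decide +kernel
def p15_16_0_29 : pfC (piC [(nat_lit 41351667), (nat_lit 26310893), (nat_lit 19519284), (nat_lit 13130440)] (nat_lit 23751559)) p15_16_0 (nat_lit 4) (nat_lit 29) (nat_lit 30) = true := by decide +kernel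
def p15_16_0_30 : pfC (piC [(nat_lit 41351667), (nat_lit 26310893), (nat_lit 19519284), (nat_lit 13130440)] (nat_lit 23751559)) p15_16_0 (nat_lit 4) (nat_lit 30) (nat_lit 31) = true := by decide +kernel
def p15_16_0_31 : pfC (piC [(nat_lit 41351667), (nat_lit 26310893), (nat_lit 19519284), (nat_lit 13130440)] (nat_lit 23751559)) p15_16_0 (nat_lit 4) (nat_lit 31) (nat_lit 32) = true := by decide +kernel
def p15_16_0_32 : pfC (piC [(nat_lit 41351667), (nat_lit 26310893), (nat_lit 19519284), (nat_lit 13130440)] (nat_lit 23751559)) p15_16_0 (nat_lit 4) (nat_lit 32) (nat_lit 33) = true := by decide +kernel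
def p15_16_0_33 : pfC (piC [(nat_lit 41351667), (nat_lit 26310893), (nat_lit 19519284), (nat_lit 13130440)] (nat_lit 23751559)) p15_16_0 (nat_lit 4) (nat_lit 33) (nat_lit 34) = true := by decide +kernel
def p15_16_0_34 : pfC (piC [(nat_lit 41351667), (nat_lit 26310893), (nat_lit 19519284), (nat_lit 13130440)] (nat_lit 23751559)) p15_16_0 (nat_lit 4) (nat_lit 34) (nat_lit 35) = true := by decide +kernel
def p15_16_0_35 : pfC (piC [(nat_lit 41351667), (nat_lit 26310893), (nat_lit 19519284), (nat_lit 13130440)] (nat_lit 23751559)) p15_16_0 (nat_lit 4) (nat_lit 35) (nat_lit 36) = true := by decide +kernel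
def p15_16_0_36 : pfC (piC [(nat_lit 41351667), (nat_lit 26310893), (nat_lit 19519284), (nat_lit 13130440)] (nat_lit 23751559)) p15_16_0 (nat_lit 4) (nat_lit 36) (nat_lit 37) = true := by decide +kernel
def p15_16_0_37 : pfC (piC [(nat_lit 41351667), (nat_lit 26310893), (nat_lit 19519284), (nat_lit 13130440)] (nat_lit 23751559)) p15_16_0 (nat_lit 4) (nat_lit 37) (nat_lit 38) = true := by decide +kernel
def p15_16_0_38 : pfC (piC [(nat_lit 41351667), (nat_lit 26310893), (nat_lit 19519284), (nat_lit 13130440)] (nat_lit 23751559)) p15_16_0 (nat_lit 4) (nat_lit 38) (nat_lit 39) = true := by decide +kernel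
def p15_16_0_39 : pfC (piC [(nat_lit 41351667), (nat_lit 26310893), (nat_lit 19519284), (nat_lit 13130440)] (nat_lit 23751559)) p15_16_0 (nat_lit 4) (nat_lit 39) (nat_lit 40) = true := by decide +kernel
def p15_16_0_40 : pfC (piC [(nat_lit 41351667), (nat_lit 26310893), (nat_lit 19519284), (nat_lit 13130440)] (nat_lit 23751559)) p15_16_0 (nat_lit 4) (nat_lit 40) (nat_lit 41) = true := by decide +kernel
def p15_16_0_41 : pfC (piC [(nat_lit 41351667), (nat_lit 26310893), (nat_lit 19519284), (nat_lit 13130440)] (nat_lit 23751559)) p15_16_0 (nat_lit 4) (nat_lit 41) (nat_lit 42) = true := by decide +kernel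
def p15_16_0_42 : pfC (piC [(nat_lit 41351667), (nat_lit 26310893), (nat_lit 19519284), (nat_lit 13130440)] (nat_lit 23751559)) p15_16_0 (nat_lit 4) (nat_lit 42) (nat_lit 43) = true := by decide +kernel
def p15_16_0_43 : pfC (piC [(nat_lit 41351667), (nat_lit 26310893), (nat_lit 19519284), (nat_lit 13130440)] (nat_lit 23751559)) p15_16_0 (nat_lit 4) (nat_lit 43) (nat_lit 44) = true := by decide +kernel
def p15_16_0_44 : pfC (piC [(nat_lit 41351667), (nat_lit 26310893), (nat_lit 19519284), (nat_lit 13130440)] (nat_lit 23751559)) p15_16_0 (nat_lit 4) (nat_lit 44) (nat_lit 45) = true := by decide +kernel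
def p15_16_0_45 : pfC (piC [(nat_lit 41351667), (nat_lit 26310893), (nat_lit 19519284), (nat_lit 13130440)] (nat_lit 23751559)) p15_16_0 (nat_lit 4) (nat_lit 45) (nat_lit 46) = true := by decide +kernel
def p15_16_0_46 : pfC (piC [(nat_lit 41351667), (nat_lit 26310893), (nat_lit 19519284), (nat_lit 13130440)] (nat_lit 23751559)) p15_16_0 (nat_lit 4) (nat_lit 46) (nat_lit 47) = true := by decide +kernel
def p15_16_0_47 : pfC (piC [(nat_lit 41351667), (nat_lit 26310893), (nat_lit 19519284), (nat_lit 13130440)] (nat_lit 23751559)) p15_16_0 (nat_lit 4) (nat_lit 47) (nat_lit 48) = true := by decide +kernel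
def p15_16_0_48 : pfC (piC [(nat_lit 41351667), (nat_lit 26310893), (nat_lit 19519284), (nat_lit 13130440)] (nat_lit 23751559)) p15_16_0 (nat_lit 4) (nat_lit 48) (nat_lit 49) = true := by decide +kernel
def p15_16_0_49 : pfC (piC [(nat_lit 41351667), (nat_lit 26310893), (nat_lit 19519284), (nat_lit 13130440)] (nat_lit 23751559)) p15_16_0 (nat_lit 4) (nat_lit 49) (nat_lit 50) = true := by decide +kernel
def p15_16_0_50 : pfC (piC [(nat_lit 41351667), (nat_lit 26310893), (nat_lit 19519284), (nat_lit 13130440)] (nat_lit 23751559)) p15_16_0 (nat_lit 4) (nat_lit 50) (nat_lit 51) = true := by decide +kernel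
def p15_16_0_51 : pfC (piC [(nat_lit 41351667), (nat_lit 26310893), (nat_lit 19519284), (nat_lit 13130440)] (nat_lit 23751559)) p15_16_0 (nat_lit 4) (nat_lit 51) (nat_lit 52) = true := by decide +kernel
def p15_16_0_52 : pfC (piC [(nat_lit 41351667), (nat_lit 26310893), (nat_lit 19519284), (nat_lit 13130440)] (nat_lit 23751559)) p15_16_0 (nat_lit 4) (nat_lit 52) (nat_lit 53) = true := by decide +kernel
def p15_16_0_53 : pfC (piC [(nat_lit 41351667), (nat_lit 26310893), (nat_lit 19519284), (nat_lit 13130440)] (nat_lit 23751559)) p15_16_0 (nat_lit 4) (nat_lit 53) (nat_lit 54) = true := by decide +kernel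
def p15_16_0_54 : pfC (piC [(nat_lit 41351667), (nat_lit 26310893), (nat_lit 19519284), (nat_lit 13130440)] (nat_lit 23751559)) p15_16_0 (nat_lit 4) (nat_lit 54) (nat_lit 55) = true := by decide +kernel
def p15_16_0_55 : pfC (piC [(nat_lit 41351667), (nat_lit 26310893), (nat_lit 19519284), (nat_lit 13130440)] (nat_lit 23751559)) p15_16_0 (nat_lit 4) (nat_lit 55) (nat_lit 56) = true := by decide +kernel
def p15_16_0_56 : pfC (piC [(nat_lit 41351667), (nat_lit 26310893), (nat_lit 19519284), (nat_lit 13130440)] (nat_lit 23751559)) p15_16_0 (nat_lit 4) (nat_lit 56) (nat_lit 57) = true := by decide +kernel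
def p15_16_0_57 : pfC (piC [(nat_lit 41351667), (nat_lit 26310893), (nat_lit 19519284), (nat_lit 13130440)] (nat_lit 23751559)) p15_16_0 (nat_lit 4) (nat_lit 57) (nat_lit 58) = true := by decide +kernel
def p15_16_0_58 : pfC (piC [(nat_lit 41351667), (nat_lit 26310893), (nat_lit 19519284), (nat_lit 13130440)] (nat_lit 23751559)) p15_16_0 (nat_lit 4) (nat_lit 58) (nat_lit 59) = true := by decide +kernel
def p15_16_0_59 : pfC (piC [(nat_lit 41351667), (nat_lit 26310893), (nat_lit 19519284), (nat_lit 13130440)] (nat_lit 23751559)) p15_16_0 (nat_lit 4) (nat_lit 59) (nat_lit 60) = true := by decide +kernel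
def p15_16_0_60 : pfC (piC [(nat_lit 41351667), (nat_lit 26310893), (nat_lit 19519284), (nat_lit 13130440)] (nat_lit 23751559)) p15_16_0 (nat_lit 4) (nat_lit 60) (nat_lit 61) = true := by decide +kernel
def p15_16_0_61 : pfC (piC [(nat_lit 41351667), (nat_lit 26310893), (nat_lit 19519284), (nat_lit 13130440)] (nat_lit 23751559)) p15_16_0 (nat_lit 4) (nat_lit 61) (nat_lit 62) = true := by decide +kernel
def p15_16_0_62 : pfC (piC [(nat_lit 41351667), (nat_lit 26310893), (nat_lit 19519284), (nat_lit 13130440)] (nat_lit 23751559)) p15_16_0 (nat_lit 4) (nat_lit 62) (nat_lit 63) = true := by decide +kernel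
def p15_16_0_63 : pfC (piC [(nat_lit 41351667), (nat_lit 26310893), (nat_lit 19519284), (nat_lit 13130440)] (nat_lit 23751559)) p15_16_0 (nat_lit 4) (nat_lit 63) (nat_lit 64) = true := by decide +kernel
def p15_16_0_64 : pfC (piC [(nat_lit 41351667), (nat_lit 26310893), (nat_lit 19519284), (nat_lit 13130440)] (nat_lit 23751559)) p15_16_0 (nat_lit 4) (nat_lit 64) (nat_lit 65) = true := by decide +kernel
def p15_16_0_65 : pfC (piC [(nat_lit 41351667), (nat_lit 26310893), (nat_lit 19519284), (nat_lit 13130440)] (nat_lit 23751559)) p15_16_0 (nat_lit 4) (nat_lit 65) (nat_lit 66) = true := by decide +kernel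
def p15_16_0_66 : pfC (piC [(nat_lit 41351667), (nat_lit 26310893), (nat_lit 19519284), (nat_lit 13130440)] (nat_lit 23751559)) p15_16_0 (nat_lit 4) (nat_lit 66) (nat_lit 67) = true := by decide +kernel
def p15_16_0_67 : pfC (piC [(nat_lit 41351667), (nat_lit 26310893), (nat_lit 19519284), (nat_lit 13130440)] (nat_lit 23751559)) p15_16_0 (nat_lit 4) (nat_lit 67) (nat_lit 68) = true := by decide +kernel
def p15_16_0_68 : pfC (piC [(nat_lit 41351667), (nat_lit 26310893), (nat_lit 19519284), (nat_lit 13130440)] (nat_lit 23751559)) p15_16_0 (nat_lit 4) (nat_lit 68) (nat_lit 69) = true := by decide +kernel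
def p15_16_0_69 : pfC (piC [(nat_lit 41351667), (nat_lit 26310893), (nat_lit 19519284), (nat_lit 13130440)] (nat_lit 23751559)) p15_16_0 (nat_lit 4) (nat_lit 69) (nat_lit 70) = true := by decide +kernel
def p15_16_0_70 : pfC (piC [(nat_lit 41351667), (nat_lit 26310893), (nat_lit 19519284), (nat_lit 13130440)] (nat_lit 23751559)) p15_16_0 (nat_lit 4) (nat_lit 70) (nat_lit 71) = true := by decide +kernel
def p15_16_0_71 : pfC (piC [(nat_lit 41351667), (nat_lit 26310893), (nat_lit 19519284), (nat_lit 13130440)] (nat_lit 23751559)) p15_16_0 (nat_lit 4) (nat_lit 71) (nat_lit 72) = true := by decide +kernel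
def p15_16_0_72 : pfC (piC [(nat_lit 41351667), (nat_lit 26310893), (nat_lit 19519284), (nat_lit 13130440)] (nat_lit 23751559)) p15_16_0 (nat_lit 4) (nat_lit 72) (nat_lit 73) = true := by decide +kernel
def p15_16_0_73 : pfC (piC [(nat_lit 41351667), (nat_lit 26310893), (nat_lit 19519284), (nat_lit 13130440)] (nat_lit 23751559)) p15_16_0 (nat_lit 4) (nat_lit 73) (nat_lit 74) = true := by decide +kernel
def p15_16_0_74 : pfC (piC [(nat_lit 41351667), (nat_lit 26310893), (nat_lit 19519284), (nat_lit 13130440)] (nat_lit 23751559)) p15_16_0 (nat_lit 4) (nat_lit 74) (nat_lit 75) = true := by decide +kernel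
def p15_16_0_75 : pfC (piC [(nat_lit 41351667), (nat_lit 26310893), (nat_lit 19519284), (nat_lit 13130440)] (nat_lit 23751559)) p15_16_0 (nat_lit 4) (nat_lit 75) (nat_lit 76) = true := by decide +kernel
def p15_16_0_76 : pfC (piC [(nat_lit 41351667), (nat_lit 26310893), (nat_lit 19519284), (nat_lit 13130440)] (nat_lit 23751559)) p15_16_0 (nat_lit 4) (nat_lit 76) (nat_lit 77) = true := by decide +kernel
def p15_16_0_77 : pfC (piC [(nat_lit 41351667), (nat_lit 26310893), (nat_lit 19519284), (nat_lit 13130440)] (nat_lit 23751559)) p15_16_0 (nat_lit 4) (nat_lit 77) (nat_lit 78) = true := by decide +kernel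
def p15_16_0_78 : pfC (piC [(nat_lit 41351667), (nat_lit 26310893), (nat_lit 19519284), (nat_lit 13130440)] (nat_lit 23751559)) p15_16_0 (nat_lit 4) (nat_lit 78) (nat_lit 79) = true := by decide +kernel
def p15_16_0_79 : pfC (piC [(nat_lit 41351667), (nat_lit 26310893), (nat_lit 19519284), (nat_lit 13130440)] (nat_lit 23751559)) p15_16_0 (nat_lit 4) (nat_lit 79) (nat_lit 80) = true := by decide +kernel
def p15_16_0_80 : pfC (piC [(nat_lit 41351667), (nat_lit 26310893), (nat_lit 19519284), (nat_lit 13130440)] (nat_lit 23751559)) p15_16_0 (nat_lit 4) (nat_lit 80) (nat_lit 81) = true := by decide +kernel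
def p15_16_0_81 : pfC (piC [(nat_lit 41351667), (nat_lit 26310893), (nat_lit 19519284), (nat_lit 13130440)] (nat_lit 23751559)) p15_16_0 (nat_lit 4) (nat_lit 81) (nat_lit 82) = true := by decide +kernel
def p15_16_0_82 : pfC (piC [(nat_lit 41351667), (nat_lit 26310893), (nat_lit 19519284), (nat_lit 13130440)] (nat_lit 23751559)) p15_16_0 (nat_lit 4) (nat_lit 82) (nat_lit 83) = true := by decide +kernel
def p15_16_0_83 : pfC (piC [(nat_lit 41351667), (nat_lit 26310893), (nat_lit 19519284), (nat_lit 13130440)] (nat_lit 23751559)) p15_16_0 (nat_lit 4) (nat_lit 83) (nat_lit 84) = true := by decide +kernel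
def p15_16_0_84 : pfC (piC [(nat_lit 41351667), (nat_lit 26310893), (nat_lit 19519284), (nat_lit 13130440)] (nat_lit 23751559)) p15_16_0 (nat_lit 4) (nat_lit 84) (nat_lit 85) = true := by decide +kernel
def p15_16_0_85 : pfC (piC [(nat_lit 41351667), (nat_lit 26310893), (nat_lit 19519284), (nat_lit 13130440)] (nat_lit 23751559)) p15_16_0 (nat_lit 4) (nat_lit 85) (nat_lit 86) = true := by decide +kernel
def p15_16_0_86 : pfC (piC [(nat_lit 41351667), (nat_lit 26310893), (nat_lit 19519284), (nat_lit 13130440)] (nat_lit 23751559)) p15_16_0 (nat_lit 4) (nat_lit 86) (nat_lit 87) = true := by decide +kernel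
def p15_16_0_87 : pfC (piC [(nat_lit 41351667), (nat_lit 26310893), (nat_lit 19519284), (nat_lit 13130440)] (nat_lit 23751559)) p15_16_0 (nat_lit 4) (nat_lit 87) (nat_lit 88) = true := by decide +kernel
def p15_16_0_88 : pfC (piC [(nat_lit 41351667), (nat_lit 26310893), (nat_lit 19519284), (nat_lit 13130440)] (nat_lit 23751559)) p15_16_0 (nat_lit 4) (nat_lit 88) (nat_lit 89) = true := by decide +kernel
def p15_16_0_89 : pfC (piC [(nat_lit 41351667), (nat_lit 26310893), (nat_lit 19519284), (nat_lit 13130440)] (nat_lit 23751559)) p15_16_0 (nat_lit 4) (nat_lit 89) (nat_lit 90) = true := by decide +kernel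
def p15_16_0_90 : pfC (piC [(nat_lit 41351667), (nat_lit 26310893), (nat_lit 19519284), (nat_lit 13130440)] (nat_lit 23751559)) p15_16_0 (nat_lit 4) (nat_lit 90) (nat_lit 91) = true := by decide +kernel
def p15_16_0_91 : pfC (piC [(nat_lit 41351667), (nat_lit 26310893), (nat_lit 19519284), (nat_lit 13130440)] (nat_lit 23751559)) p15_16_0 (nat_lit 4) (nat_lit 91) (nat_lit 92) = true := by decide +kernel
def p15_16_0_92 : pfC (piC [(nat_lit 41351667), (nat_lit 26310893), (nat_lit 19519284), (nat_lit 13130440)] (nat_lit 23751559)) p15_16_0 (nat_lit 4) (nat_lit 92) (nat_lit 93) = true := by decide +kernel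
def p15_16_0_93 : pfC (piC [(nat_lit 41351667), (nat_lit 26310893), (nat_lit 19519284), (nat_lit 13130440)] (nat_lit 23751559)) p15_16_0 (nat_lit 4) (nat_lit 93) (nat_lit 94) = true := by decide +kernel
def p15_16_0_94 : pfC (piC [(nat_lit 41351667), (nat_lit 26310893), (nat_lit 19519284), (nat_lit 13130440)] (nat_lit 23751559)) p15_16_0 (nat_lit 4) (nat_lit 94) (nat_lit 95) = true := by decide +kernel
def p15_16_0_95 : pfC (piC [(nat_lit 41351667), (nat_lit 26310893), (nat_lit 19519284), (nat_lit 13130440)] (nat_lit 23751559)) p15_16_0 (nat_lit 4) (nat_lit 95) (nat_lit 96) = true := by decide +kernel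
def p15_16_0_96 : pfC (piC [(nat_lit 41351667), (nat_lit 26310893), (nat_lit 19519284), (nat_lit 13130440)] (nat_lit 23751559)) p15_16_0 (nat_lit 4) (nat_lit 96) (nat_lit 97) = true := by decide +kernel
def p15_16_0_97 : pfC (piC [(nat_lit 41351667), (nat_lit 26310893), (nat_lit 19519284), (nat_lit 13130440)] (nat_lit 23751559)) p15_16_0 (nat_lit 4) (nat_lit 97) (nat_lit 98) = true := by decide +kernel
def p15_16_0_98 : pfC (piC [(nat_lit 41351667), (nat_lit 26310893), (nat_lit 19519284), (nat_lit 13130440)] (nat_lit 23751559)) p15_16_0 (nat_lit 4) (nat_lit 98) (nat_lit 99) = true := by decide +kernel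
def p15_16_0_99 : pfC (piC [(nat_lit 41351667), (nat_lit 26310893), (nat_lit 19519284), (nat_lit 13130440)] (nat_lit 23751559)) p15_16_0 (nat_lit 4) (nat_lit 99) (nat_lit 100) = true := by decide +kernel
def p15_16_0_100 : pfC (piC [(nat_lit 41351667), (nat_lit 26310893), (nat_lit 19519284), (nat_lit 13130440)] (nat_lit 23751559)) p15_16_0 (nat_lit 4) (nat_lit 100) (nat_lit 101) = true := by decide +kernel
def p15_16_0_101 : pfC (piC [(nat_lit 41351667), (nat_lit 26310893), (nat_lit 19519284), (nat_lit 13130440)] (nat_lit 23751559)) p15_16_0 (nat_lit 4) (nat_lit 101) (nat_lit 102) = true := by decide +kernel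
def p15_16_0_102 : pfC (piC [(nat_lit 41351667), (nat_lit 26310893), (nat_lit 19519284), (nat_lit 13130440)] (nat_lit 23751559)) p15_16_0 (nat_lit 4) (nat_lit 102) (nat_lit 103) = true := by decide +kernel
def p15_16_0_103 : pfC (piC [(nat_lit 41351667), (nat_lit 26310893), (nat_lit 19519284), (nat_lit 13130440)] (nat_lit 23751559)) p15_16_0 (nat_lit 4) (nat_lit 103) (nat_lit 104) = true := by decide +kernel
def p15_16_0_104 : pfC (piC [(nat_lit 41351667), (nat_lit 26310893), (nat_lit 19519284), (nat_lit 13130440)] (nat_lit 23751559)) p15_16_0 (nat_lit 4) (nat_lit 104) (nat_lit 105) = true := by decide +kernel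
def p15_16_0_105 : pfC (piC [(nat_lit 41351667), (nat_lit 26310893), (nat_lit 19519284), (nat_lit 13130440)] (nat_lit 23751559)) p15_16_0 (nat_lit 4) (nat_lit 105) (nat_lit 106) = true := by decide +kernel
def p15_16_0_106 : pfC (piC [(nat_lit 41351667), (nat_lit 26310893), (nat_lit 19519284), (nat_lit 13130440)] (nat_lit 23751559)) p15_16_0 (nat_lit 4) (nat_lit 106) (nat_lit 107) = true := by decide +kernel
def p15_16_0_107 : pfC (piC [(nat_lit 41351667), (nat_lit 26310893), (nat_lit 19519284), (nat_lit 13130440)] (nat_lit 23751559)) p15_16_0 (nat_lit 4) (nat_lit 107) (nat_lit 108) = true := by decide +kernel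
def p15_16_0_108 : pfC (piC [(nat_lit 41351667), (nat_lit 26310893), (nat_lit 19519284), (nat_lit 13130440)] (nat_lit 23751559)) p15_16_0 (nat_lit 4) (nat_lit 108) (nat_lit 109) = true := by decide +kernel
def p15_16_0_109 : pfC (piC [(nat_lit 41351667), (nat_lit 26310893), (nat_lit 19519284), (nat_lit 13130440)] (nat_lit 23751559)) p15_16_0 (nat_lit 4) (nat_lit 109) (nat_lit 110) = true := by decide +kernel
def p15_16_0_110 : pfC (piC [(nat_lit 41351667), (nat_lit 26310893), (nat_lit 19519284), (nat_lit 13130440)] (nat_lit 23751559)) p15_16_0 (nat_lit 4) (nat_lit 110) (nat_lit 111) = true := by decide +kernel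
def p15_16_0_111 : pfC (piC [(nat_lit 41351667), (nat_lit 26310893), (nat_lit 19519284), (nat_lit 13130440)] (nat_lit 23751559)) p15_16_0 (nat_lit 4) (nat_lit 111) (nat_lit 112) = true := by decide +kernel
def p15_16_0_112 : pfC (piC [(nat_lit 41351667), (nat_lit 26310893), (nat_lit 19519284), (nat_lit 13130440)] (nat_lit 23751559)) p15_16_0 (nat_lit 4) (nat_lit 112) (nat_lit 113) = true := by decide +kernel
def p15_16_0_113 : pfC (piC [(nat_lit 41351667), (nat_lit 26310893), (nat_lit 19519284), (nat_lit 13130440)] (nat_lit 23751559)) p15_16_0 (nat_lit 4) (nat_lit 113) (nat_lit 114) = true := by decide +kernel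
def p15_16_0_114 : pfC (piC [(nat_lit 41351667), (nat_lit 26310893), (nat_lit 19519284), (nat_lit 13130440)] (nat_lit 23751559)) p15_16_0 (nat_lit 4) (nat_lit 114) (nat_lit 115) = true := by decide +kernel
def p15_16_0_115 : pfC (piC [(nat_lit 41351667), (nat_lit 26310893), (nat_lit 19519284), (nat_lit 13130440)] (nat_lit 23751559)) p15_16_0 (nat_lit 4) (nat_lit 115) (nat_lit 116) = true := by decide +kernel
def p15_16_0_116 : pfC (piC [(nat_lit 41351667), (nat_lit 26310893), (nat_lit 19519284), (nat_lit 13130440)] (nat_lit 23751559)) p15_16_0 (nat_lit 4) (nat_lit 116) (nat_lit 117) = true := by decide +kernel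
def p15_16_0_117 : pfC (piC [(nat_lit 41351667), (nat_lit 26310893), (nat_lit 19519284), (nat_lit 13130440)] (nat_lit 23751559)) p15_16_0 (nat_lit 4) (nat_lit 117) (nat_lit 118) = true := by decide +kernel
def p15_16_0_118 : pfC (piC [(nat_lit 41351667), (nat_lit 26310893), (nat_lit 19519284), (nat_lit 13130440)] (nat_lit 23751559)) p15_16_0 (nat_lit 4) (nat_lit 118) (nat_lit 119) = true := by decide +kernel
def p15_16_0_119 : pfC (piC [(nat_lit 41351667), (nat_lit 26310893), (nat_lit 19519284), (nat_lit 13130440)] (nat_lit 23751559)) p15_16_0 (nat_lit 4) (nat_lit 119) (nat_lit 120) = true := by decide +kernel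
def p15_16_0_120 : pfC (piC [(nat_lit 41351667), (nat_lit 26310893), (nat_lit 19519284), (nat_lit 13130440)] (nat_lit 23751559)) p15_16_0 (nat_lit 4) (nat_lit 120) (nat_lit 121) = true := by decide +kernel
def p15_16_0_121 : pfC (piC [(nat_lit 41351667), (nat_lit 26310893), (nat_lit 19519284), (nat_lit 13130440)] (nat_lit 23751559)) p15_16_0 (nat_lit 4) (nat_lit 121) (nat_lit 122) = true := by decide +kernel
def p15_16_0_122 : pfC (piC [(nat_lit 41351667), (nat_lit 26310893), (nat_lit 19519284), (nat_lit 13130440)] (nat_lit 23751559)) p15_16_0 (nat_lit 4) (nat_lit 122) (nat_lit 123) = true := by decide +kernel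
def p15_16_0_123 : pfC (piC [(nat_lit 41351667), (nat_lit 26310893), (nat_lit 19519284), (nat_lit 13130440)] (nat_lit 23751559)) p15_16_0 (nat_lit 4) (nat_lit 123) (nat_lit 124) = true := by decide +kernel
def p15_16_0_124 : pfC (piC [(nat_lit 41351667), (nat_lit 26310893), (nat_lit 19519284), (nat_lit 13130440)] (nat_lit 23751559)) p15_16_0 (nat_lit 4) (nat_lit 124) (nat_lit 125) = true := by decide +kernel
def p15_16_0_125 : pfC (piC [(nat_lit 41351667), (nat_lit 26310893), (nat_lit 19519284), (nat_lit 13130440)] (nat_lit 23751559)) p15_16_0 (nat_lit 4) (nat_lit 125) (nat_lit 126) = true := by decide +kernel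
def p15_16_0_126 : pfC (piC [(nat_lit 41351667), (nat_lit 26310893), (nat_lit 19519284), (nat_lit 13130440)] (nat_lit 23751559)) p15_16_0 (nat_lit 4) (nat_lit 126) (nat_lit 127) = true := by decide +kernel
def p15_16_0_127 : pfC (piC [(nat_lit 41351667), (nat_lit 26310893), (nat_lit 19519284), (nat_lit 13130440)] (nat_lit 23751559)) p15_16_0 (nat_lit 4) (nat_lit 127) (nat_lit 128) = true := by decide +kernel
def p15_16_0_128 : pfC (piC [(nat_lit 41351667), (nat_lit 26310893), (nat_lit 19519284), (nat_lit 13130440)] (nat_lit 23751559)) p15_16_0 (nat_lit 4) (nat_lit 128) (nat_lit 129) = true := by decide +kernel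
def p15_16_0_129 : pfC (piC [(nat_lit 41351667), (nat_lit 26310893), (nat_lit 19519284), (nat_lit 13130440)] (nat_lit 23751559)) p15_16_0 (nat_lit 4) (nat_lit 129) (nat_lit 130) = true := by decide +kernel
def p15_16_0_130 : pfC (piC [(nat_lit 41351667), (nat_lit 26310893), (nat_lit 19519284), (nat_lit 13130440)] (nat_lit 23751559)) p15_16_0 (nat_lit 4) (nat_lit 130) (nat_lit 131) = true := by decide +kernel
def p15_16_0_131 : pfC (piC [(nat_lit 41351667), (nat_lit 26310893), (nat_lit 19519284), (nat_lit 13130440)] (nat_lit 23751559)) p15_16_0 (nat_lit 4) (nat_lit 131) (nat_lit 132) = true := by decide +kernel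
def p15_16_0_132 : pfC (piC [(nat_lit 41351667), (nat_lit 26310893), (nat_lit 19519284), (nat_lit 13130440)] (nat_lit 23751559)) p15_16_0 (nat_lit 4) (nat_lit 132) (nat_lit 133) = true := by decide +kernel
def p15_16_0_133 : pfC (piC [(nat_lit 41351667), (nat_lit 26310893), (nat_lit 19519284), (nat_lit 13130440)] (nat_lit 23751559)) p15_16_0 (nat_lit 4) (nat_lit 133) (nat_lit 134) = true := by decide +kernel
def p15_16_0_134 : pfC (piC [(nat_lit 41351667), (nat_lit 26310893), (nat_lit 19519284), (nat_lit 13130440)] (nat_lit 23751559)) p15_16_0 (nat_lit 4) (nat_lit 134) (nat_lit 135) = true := by decide +kernel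
def p15_16_0_135 : pfC (piC [(nat_lit 41351667), (nat_lit 26310893), (nat_lit 19519284), (nat_lit 13130440)] (nat_lit 23751559)) p15_16_0 (nat_lit 4) (nat_lit 135) (nat_lit 136) = true := by decide +kernel
def p15_16_0_136 : pfC (piC [(nat_lit 41351667), (nat_lit 26310893), (nat_lit 19519284), (nat_lit 13130440)] (nat_lit 23751559)) p15_16_0 (nat_lit 4) (nat_lit 136) (nat_lit 137) = true := by decide +kernel
def p15_16_0_137 : pfC (piC [(nat_lit 41351667), (nat_lit 26310893), (nat_lit 19519284), (nat_lit 13130440)] (nat_lit 23751559)) p15_16_0 (nat_lit 4) (nat_lit 137) (nat_lit 138) = true := by decide +kernel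
def p15_16_0_138 : pfC (piC [(nat_lit 41351667), (nat_lit 26310893), (nat_lit 19519284), (nat_lit 13130440)] (nat_lit 23751559)) p15_16_0 (nat_lit 4) (nat_lit 138) (nat_lit 139) = true := by decide +kernel
def p15_16_0_139 : pfC (piC [(nat_lit 41351667), (nat_lit 26310893), (nat_lit 19519284), (nat_lit 13130440)] (nat_lit 23751559)) p15_16_0 (nat_lit 4) (nat_lit 139) (nat_lit 140) = true := by decide +kernel
def p15_16_0_140 : pfC (piC [(nat_lit 41351667), (nat_lit 26310893), (nat_lit 19519284), (nat_lit 13130440)] (nat_lit 23751559)) p15_16_0 (nat_lit 4) (nat_lit 140) (nat_lit 141) = true := by decide +kernel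
def p15_16_0_141 : pfC (piC [(nat_lit 41351667), (nat_lit 26310893), (nat_lit 19519284), (nat_lit 13130440)] (nat_lit 23751559)) p15_16_0 (nat_lit 4) (nat_lit 141) (nat_lit 142) = true := by decide +kernel
def p15_16_0_142 : pfC (piC [(nat_lit 41351667), (nat_lit 26310893), (nat_lit 19519284), (nat_lit 13130440)] (nat_lit 23751559)) p15_16_0 (nat_lit 4) (nat_lit 142) (nat_lit 143) = true := by decide +kernel
def p15_16_0_143 : pfC (piC [(nat_lit 41351667), (nat_lit 26310893), (nat_lit 19519284), (nat_lit 13130440)] (nat_lit 23751559)) p15_16_0 (nat_lit 4) (nat_lit 143) (nat_lit 144) = true := by decide +kernel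
def p15_16_0_144 : pfC (piC [(nat_lit 41351667), (nat_lit 26310893), (nat_lit 19519284), (nat_lit 13130440)] (nat_lit 23751559)) p15_16_0 (nat_lit 4) (nat_lit 144) (nat_lit 145) = true := by decide +kernel
def p15_16_0_145 : pfC (piC [(nat_lit 41351667), (nat_lit 26310893), (nat_lit 19519284), (nat_lit 13130440)] (nat_lit 23751559)) p15_16_0 (nat_lit 4) (nat_lit 145) (nat_lit 146) = true := by decide +kernel
def p15_16_0_146 : pfC (piC [(nat_lit 41351667), (nat_lit 26310893), (nat_lit 19519284), (nat_lit 13130440)] (nat_lit 23751559)) p15_16_0 (nat_lit 4) (nat_lit 146) (nat_lit 147) = true := by decide +kernel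
def p15_16_0_147 : pfC (piC [(nat_lit 41351667), (nat_lit 26310893), (nat_lit 19519284), (nat_lit 13130440)] (nat_lit 23751559)) p15_16_0 (nat_lit 4) (nat_lit 147) (nat_lit 148) = true := by decide +kernel
def p15_16_0_148 : pfC (piC [(nat_lit 41351667), (nat_lit 26310893), (nat_lit 19519284), (nat_lit 13130440)] (nat_lit 23751559)) p15_16_0 (nat_lit 4) (nat_lit 148) (nat_lit 149) = true := by decide +kernel
def p15_16_0_149 : pfC (piC [(nat_lit 41351667), (nat_lit 26310893), (nat_lit 19519284), (nat_lit 13130440)] (nat_lit 23751559)) p15_16_0 (nat_lit 4) (nat_lit 149) (nat_lit 150) = true := by decide +kernel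
def p15_16_0_150 : pfC (piC [(nat_lit 41351667), (nat_lit 26310893), (nat_lit 19519284), (nat_lit 13130440)] (nat_lit 23751559)) p15_16_0 (nat_lit 4) (nat_lit 150) (nat_lit 151) = true := by decide +kernel
def p15_16_0_151 : pfC (piC [(nat_lit 41351667), (nat_lit 26310893), (nat_lit 19519284), (nat_lit 13130440)] (nat_lit 23751559)) p15_16_0 (nat_lit 4) (nat_lit 151) (nat_lit 152) = true := by decide +kernel
def p15_16_0_152 : pfC (piC [(nat_lit 41351667), (nat_lit 26310893), (nat_lit 19519284), (nat_lit 13130440)] (nat_lit 23751559)) p15_16_0 (nat_lit 4) (nat_lit 152) (nat_lit 153) = true := by decide +kernel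
def p15_16_0_153 : pfC (piC [(nat_lit 41351667), (nat_lit 26310893), (nat_lit 19519284), (nat_lit 13130440)] (nat_lit 23751559)) p15_16_0 (nat_lit 4) (nat_lit 153) (nat_lit 154) = true := by decide +kernel
def p15_16_0_154 : pfC (piC [(nat_lit 41351667), (nat_lit 26310893), (nat_lit 19519284), (nat_lit 13130440)] (nat_lit 23751559)) p15_16_0 (nat_lit 4) (nat_lit 154) (nat_lit 155) = true := by decide +kernel
def p15_16_0_155 : pfC (piC [(nat_lit 41351667), (nat_lit 26310893), (nat_lit 19519284), (nat_lit 13130440)] (nat_lit 23751559)) p15_16_0 (nat_lit 4) (nat_lit 155) (nat_lit 156) = true := by decide +kernel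
def p15_16_0_156 : pfC (piC [(nat_lit 41351667), (nat_lit 26310893), (nat_lit 19519284), (nat_lit 13130440)] (nat_lit 23751559)) p15_16_0 (nat_lit 4) (nat_lit 156) (nat_lit 157) = true := by decide +kernel
def p15_16_0_157 : pfC (piC [(nat_lit 41351667), (nat_lit 26310893), (nat_lit 19519284), (nat_lit 13130440)] (nat_lit 23751559)) p15_16_0 (nat_lit 4) (nat_lit 157) (nat_lit 158) = true := by decide +kernel
def p15_16_0_158 : pfC (piC [(nat_lit 41351667), (nat_lit 26310893), (nat_lit 19519284), (nat_lit 13130440)] (nat_lit 23751559)) p15_16_0 (nat_lit 4) (nat_lit 158) (nat_lit 159) = true := by decide +kernel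
def p15_16_0_159 : pfC (piC [(nat_lit 41351667), (nat_lit 26310893), (nat_lit 19519284), (nat_lit 13130440)] (nat_lit 23751559)) p15_16_0 (nat_lit 4) (nat_lit 159) (nat_lit 160) = true := by decide +kernel
def p15_16_0_160 : pfC (piC [(nat_lit 41351667), (nat_lit 26310893), (nat_lit 19519284), (nat_lit 13130440)] (nat_lit 23751559)) p15_16_0 (nat_lit 4) (nat_lit 160) (nat_lit 161) = true := by decide +kernel
def p15_16_0_161 : pfC (piC [(nat_lit 41351667), (nat_lit 26310893), (nat_lit 19519284), (nat_lit 13130440)] (nat_lit 23751559)) p15_16_0 (nat_lit 4) (nat_lit 161) (nat_lit 162) = true := by decide +kernel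
def p15_16_0_162 : pfC (piC [(nat_lit 41351667), (nat_lit 26310893), (nat_lit 19519284), (nat_lit 13130440)] (nat_lit 23751559)) p15_16_0 (nat_lit 4) (nat_lit 162) (nat_lit 163) = true := by decide +kernel
def p15_16_0_163 : pfC (piC [(nat_lit 41351667), (nat_lit 26310893), (nat_lit 19519284), (nat_lit 13130440)] (nat_lit 23751559)) p15_16_0 (nat_lit 4) (nat_lit 163) (nat_lit 164) = true := by decide +kernel
def p15_16_0_164 : pfC (piC [(nat_lit 41351667), (nat_lit 26310893), (nat_lit 19519284), (nat_lit 13130440)] (nat_lit 23751559)) p15_16_0 (nat_lit 4) (nat_lit 164) (nat_lit 165) = true := by decide +kernel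
def p15_16_0_165 : pfC (piC [(nat_lit 41351667), (nat_lit 26310893), (nat_lit 19519284), (nat_lit 13130440)] (nat_lit 23751559)) p15_16_0 (nat_lit 4) (nat_lit 165) (nat_lit 166) = true := by decide +kernel
def p15_16_0_166 : pfC (piC [(nat_lit 41351667), (nat_lit 26310893), (nat_lit 19519284), (nat_lit 13130440)] (nat_lit 23751559)) p15_16_0 (nat_lit 4) (nat_lit 166) (nat_lit 167) = true := by decide +kernel
def p15_16_0_167 : pfC (piC [(nat_lit 41351667), (nat_lit 26310893), (nat_lit 19519284), (nat_lit 13130440)] (nat_lit 23751559)) p15_16_0 (nat_lit 4) (nat_lit 167) (nat_lit 168) = true := by decide +kernel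
def p15_16_0_168 : pfC (piC [(nat_lit 41351667), (nat_lit 26310893), (nat_lit 19519284), (nat_lit 13130440)] (nat_lit 23751559)) p15_16_0 (nat_lit 4) (nat_lit 168) (nat_lit 169) = true := by decide +kernel
def p15_16_0_169 : pfC (piC [(nat_lit 41351667), (nat_lit 26310893), (nat_lit 19519284), (nat_lit 13130440)] (nat_lit 23751559)) p15_16_0 (nat_lit 4) (nat_lit 169) (nat_lit 170) = true := by decide +kernel
def p15_16_0_170 : pfC (piC [(nat_lit 41351667), (nat_lit 26310893), (nat_lit 19519284), (nat_lit 13130440)] (nat_lit 23751559)) p15_16_0 (nat_lit 4) (nat_lit 170) (nat_lit 171) = true := by decide +kernel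
def p15_16_0_171 : pfC (piC [(nat_lit 41351667), (nat_lit 26310893), (nat_lit 19519284), (nat_lit 13130440)] (nat_lit 23751559)) p15_16_0 (nat_lit 4) (nat_lit 171) (nat_lit 172) = true := by decide +kernel
def p15_16_0_172 : pfC (piC [(nat_lit 41351667), (nat_lit 26310893), (nat_lit 19519284), (nat_lit 13130440)] (nat_lit 23751559)) p15_16_0 (nat_lit 4) (nat_lit 172) (nat_lit 173) = true := by decide +kernel
def p15_16_0_173 : pfC (piC [(nat_lit 41351667), (nat_lit 26310893), (nat_lit 19519284), (nat_lit 13130440)] (nat_lit 23751559)) p15_16_0 (nat_lit 4) (nat_lit 173) (nat_lit 174) = true := by decide +kernel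
def p15_16_0_174 : pfC (piC [(nat_lit 41351667), (nat_lit 26310893), (nat_lit 19519284), (nat_lit 13130440)] (nat_lit 23751559)) p15_16_0 (nat_lit 4) (nat_lit 174) (nat_lit 175) = true := by decide +kernel
def p15_16_0_175 : pfC (piC [(nat_lit 41351667), (nat_lit 26310893), (nat_lit 19519284), (nat_lit 13130440)] (nat_lit 23751559)) p15_16_0 (nat_lit 4) (nat_lit 175) (nat_lit 176) = true := by decide +kernel
def p15_16_0_176 : pfC (piC [(nat_lit 41351667), (nat_lit 26310893), (nat_lit 19519284), (nat_lit 13130440)] (nat_lit 23751559)) p15_16_0 (nat_lit 4) (nat_lit 176) (nat_lit 177) = true := by decide +kernel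
def p15_16_0_177 : pfC (piC [(nat_lit 41351667), (nat_lit 26310893), (nat_lit 19519284), (nat_lit 13130440)] (nat_lit 23751559)) p15_16_0 (nat_lit 4) (nat_lit 177) (nat_lit 178) = true := by decide +kernel
def p15_16_0_178 : pfC (piC [(nat_lit 41351667), (nat_lit 26310893), (nat_lit 19519284), (nat_lit 13130440)] (nat_lit 23751559)) p15_16_0 (nat_lit 4) (nat_lit 178) (nat_lit 179) = true := by decide +kernel
def p15_16_0_179 : pfC (piC [(nat_lit 41351667), (nat_lit 26310893), (nat_lit 19519284), (nat_lit 13130440)] (nat_lit 23751559)) p15_16_0 (nat_lit 4) (nat_lit 179) (nat_lit 180) = true := by decide +kernel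
def p15_16_0_180 : pfC (piC [(nat_lit 41351667), (nat_lit 26310893), (nat_lit 19519284), (nat_lit 13130440)] (nat_lit 23751559)) p15_16_0 (nat_lit 4) (nat_lit 180) (nat_lit 181) = true := by decide +kernel
def p15_16_0_181 : pfC (piC [(nat_lit 41351667), (nat_lit 26310893), (nat_lit 19519284), (nat_lit 13130440)] (nat_lit 23751559)) p15_16_0 (nat_lit 4) (nat_lit 181) (nat_lit 182) = true := by decide +kernel
def p15_16_0_182 : pfC (piC [(nat_lit 41351667), (nat_lit 26310893), (nat_lit 19519284), (nat_lit 13130440)] (nat_lit 23751559)) p15_16_0 (nat_lit 4) (nat_lit 182) (nat_lit 183) = true := by decide +kernel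
def p15_16_0_183 : pfC (piC [(nat_lit 41351667), (nat_lit 26310893), (nat_lit 19519284), (nat_lit 13130440)] (nat_lit 23751559)) p15_16_0 (nat_lit 4) (nat_lit 183) (nat_lit 184) = true := by decide +kernel
def p15_16_0_184 : pfC (piC [(nat_lit 41351667), (nat_lit 26310893), (nat_lit 19519284), (nat_lit 13130440)] (nat_lit 23751559)) p15_16_0 (nat_lit 4) (nat_lit 184) (nat_lit 185) = true := by decide +kernel
def p15_16_0_185 : pfC (piC [(nat_lit 41351667), (nat_lit 26310893), (nat_lit 19519284), (nat_lit 13130440)] (nat_lit 23751559)) p15_16_0 (nat_lit 4) (nat_lit 185) (nat_lit 186) = true := by decide +kernel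
def p15_16_0_186 : pfC (piC [(nat_lit 41351667), (nat_lit 26310893), (nat_lit 19519284), (nat_lit 13130440)] (nat_lit 23751559)) p15_16_0 (nat_lit 4) (nat_lit 186) (nat_lit 187) = true := by decide +kernel
theorem p15_16_0_T : PfS (PiF n15_16.reverse (nat_lit 23751559)) p15_16_0 (nat_lit 4) [] 0 :=
  pftab_of (los := [(nat_lit 41351667), (nat_lit 26310893), (nat_lit 19519284), (nat_lit 13130440)]) (by decide +kernel) (hi := (nat_lit 187)) (PfP.trans (PfP.trans (PfP.trans (PfP.trans (PfP.trans (PfP.trans (PfP.trans (PfP.trans (PfP.trans (PfP.trans (PfP.trans (PfP.trans (PfP.trans (PfP.trans (PfP.trans (PfP.trans (PfP.trans (PfP.trans (PfP.trans (PfP.trans (PfP.trans (PfP.trans (PfP.trans (PfP.trans (PfP.trans (PfP.trans (PfP.trans (PfP.trans (PfP.trans (PfP.trans (PfP.trans (PfP.trans (PfP.trans (PfP.trans (PfP.trans (PfP.trans (PfP.trans (PfP.trans (PfP.trans (PfP.trans (PfP.trans (PfP.trans (PfP.trans (PfP.trans (PfP.trans (PfP.trans (PfP.trans (PfP.trans (PfP.trans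 (PfP.trans (PfP.trans (PfP.trans (PfP.trans (PfP.trans (PfP.trans (PfP.trans (PfP.trans (PfP.trans (PfP.trans (PfP.trans (PfP.trans (PfP.trans (PfP.trans (PfP.trans (PfP.trans (PfP.trans (PfP.trans (PfP.trans (PfP.trans (PfP.trans (PfP.trans (PfP.trans (PfP.trans (PfP.trans (PfP.trans (PfP.trans (PfP.trans (PfP.trans (PfP.trans (PfP.trans (PfP.trans (PfP.trans (PfP.trans (PfP.trans (PfP.trans (PfP.trans (PfP.trans (PfP.trans (PfP.trans (PfP.trans (PfP.trans (PfP.trans (PfP.trans (PfP.trans (PfP.trans (PfP.trans (PfP.trans (PfP.trans (PfP.trans (PfP.trans (PfP.trans (PfP.trans (PfP.trans (PfP.trans (PfP.trans (PfP.trans (PfP.trans (PfP.trans (PfP.trans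
 (PfP.trans (PfP.trans (PfP.trans (PfP.trans (PfP.trans (PfP.trans (PfP.trans (PfP.trans (PfP.trans (PfP.trans (PfP.trans (PfP.trans (PfP.trans (PfP.trans (PfP.trans (PfP.trans (PfP.trans (PfP.trans (PfP.trans (PfP.trans (PfP.trans (PfP.trans (PfP.trans (PfP.trans (PfP.trans (PfP.trans (PfP.trans (PfP.trans (PfP.trans (PfP.trans (PfP.trans (PfP.trans (PfP.trans (PfP.trans (PfP.trans (PfP.trans (PfP.trans (PfP.trans (PfP.trans (PfP.trans (PfP.trans (PfP.trans (PfP.trans (PfP.trans (PfP.trans (PfP.trans (PfP.trans (PfP.trans (PfP.trans (PfP.trans (PfP.trans (PfP.trans (PfP.trans (PfP.trans (PfP.trans (PfP.trans (PfP.trans (PfP.trans (PfP.trans (PfP.trans (PfP.trans (PfP.trans (PfP.trans (PfP.trans (PfP.trans (PfP.trans (PfP.trans (PfP.trans (PfP.trans (PfP.trans (PfP.trans (PfP.trans (PfP.trans (PfP.trans (PfP.trans (PfP.trans (PfP.trans (pfC_sound p15_16_0_0) (pfC_sound p15_16_0_1)) (pfC_sound p15_16_0_2)) (pfC_sound p15_16_0_3)) (pfC_sound p15_16_0_4)) (pfC_sound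 p15_16_0_5)) (pfC_sound p15_16_0_6)) (pfC_sound p15_16_0_7)) (pfC_sound p15_16_0_8)) (pfC_sound p15_16_0_9)) (pfC_sound p15_16_0_10)) (pfC_sound p15_16_0_11)) (pfC_sound p15_16_0_12)) (pfC_sound p15_16_0_13)) (pfC_sound
 p15_16_0_14)) (pfC_sound p15_16_0_15)) (pfC_sound p15_16_0_16)) (pfC_sound p15_16_0_17)) (pfC_sound p15_16_0_18)) (pfC_sound p15_16_0_19)) (pfC_sound p15_16_0_20)) (pfC_sound p15_16_0_21)) (pfC_sound p15_16_0_22)) (pfC_sound p15_16_0_23)) (pfC_sound p15_16_0_24)) (pfC_sound p15_16_0_25)) (pfC_sound p15_16_0_26)) (pfC_sound p15_16_0_27)) (pfC_sound p15_16_0_28)) (pfC_sound p15_16_0_29)) (pfC_sound p15_16_0_30)) (pfC_sound p15_16_0_31)) (pfC_sound p15_16_0_32)) (pfC_sound p15_16_0_33)) (pfC_sound p15_16_0_34)) (pfC_sound p15_16_0_35)) (pfC_sound p15_16_0_36)) (pfC_sound p15_16_0_37)) (pfC_sound p15_16_0_38)) (pfC_sound p15_16_0_39)) (pfC_sound p15_16_0_40)) (pfC_sound p15_16_0_41)) (pfC_sound p15_16_0_42)) (pfC_sound p15_16_0_43)) (pfC_sound p15_16_0_44))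 (pfC_sound p15_16_0_45)) (pfC_sound p15_16_0_46)) (pfC_sound p15_16_0_47)) (pfC_sound p15_16_0_48)) (pfC_sound p15_16_0_49)) (pfC_sound p15_16_0_50)) (pfC_sound p15_16_0_51)) (pfC_sound p15_16_0_52)) (pfC_sound p15_16_0_53)) (pfC_sound p15_16_0_54)) (pfC_sound p15_16_0_55)) (pfC_sound p15_16_0_56)) (pfC_sound p15_16_0_57)) (pfC_sound p15_16_0_58)) (pfC_sound p15_16_0_59)) (pfC_sound p15_16_0_60)) (pfC_sound p15_16_0_61)) (pfC_sound
 p15_16_0_62)) (pfC_sound p15_16_0_63)) (pfC_sound p15_16_0_64)) (pfC_sound p15_16_0_65)) (pfC_sound p15_16_0_66)) (pfC_sound p15_16_0_67)) (pfC_sound p15_16_0_68)) (pfC_sound p15_16_0_69)) (pfC_sound p15_16_0_70)) (pfC_sound p15_16_0_71)) (pfC_sound p15_16_0_72)) (pfC_sound p15_16_0_73)) (pfC_sound p15_16_0_74)) (pfC_sound p15_16_0_75)) (pfC_sound p15_16_0_76)) (pfC_sound p15_16_0_77)) (pfC_sound p15_16_0_78)) (pfC_sound p15_16_0_79)) (pfC_sound p15_16_0_80)) (pfC_sound p15_16_0_81)) (pfC_sound p15_16_0_82)) (pfC_sound p15_16_0_83))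 (pfC_sound p15_16_0_84)) (pfC_sound p15_16_0_85)) (pfC_sound p15_16_0_86)) (pfC_sound p15_16_0_87)) (pfC_sound p15_16_0_88)) (pfC_sound p15_16_0_89)) (pfC_sound p15_16_0_90)) (pfC_sound p15_16_0_91)) (pfC_sound p15_16_0_92)) (pfC_sound p15_16_0_93)) (pfC_sound p15_16_0_94)) (pfC_sound p15_16_0_95)) (pfC_sound p15_16_0_96)) (pfC_sound p15_16_0_97)) (pfC_sound p15_16_0_98)) (pfC_sound p15_16_0_99)) (pfC_sound p15_16_0_100)) (pfC_sound p15_16_0_101)) (pfC_sound p15_16_0_102)) (pfC_sound p15_16_0_103)) (pfC_sound p15_16_0_104)) (pfC_sound p15_16_0_105)) (pfC_sound p15_16_0_106)) (pfC_sound p15_16_0_107)) (pfC_sound p15_16_0_108)) (pfC_sound p15_16_0_109))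
 (pfC_sound p15_16_0_110)) (pfC_sound p15_16_0_111)) (pfC_sound p15_16_0_112)) (pfC_sound p15_16_0_113)) (pfC_sound p15_16_0_114)) (pfC_sound p15_16_0_115)) (pfC_sound p15_16_0_116)) (pfC_sound p15_16_0_117)) (pfC_sound p15_16_0_118)) (pfC_sound p15_16_0_119)) (pfC_sound p15_16_0_120)) (pfC_sound p15_16_0_121)) (pfC_sound p15_16_0_122)) (pfC_sound p15_16_0_123)) (pfC_sound p15_16_0_124)) (pfC_sound p15_16_0_125)) (pfC_sound p15_16_0_126)) (pfC_sound p15_16_0_127)) (pfC_sound p15_16_0_128)) (pfC_sound p15_16_0_129)) (pfC_sound p15_16_0_130)) (pfC_sound p15_16_0_131)) (pfC_sound p15_16_0_132)) (pfC_sound p15_16_0_133)) (pfC_sound p15_16_0_134)) (pfC_sound p15_16_0_135)) (pfC_sound p15_16_0_136)) (pfC_sound p15_16_0_137)) (pfC_sound p15_16_0_138)) (pfC_sound p15_16_0_139)) (pfC_sound p15_16_0_140)) (pfC_sound p15_16_0_141)) (pfC_sound p15_16_0_142)) (pfC_sound p15_16_0_143)) (pfC_sound p15_16_0_144)) (pfC_sound p15_16_0_145)) (pfC_sound p15_16_0_146)) (pfC_sound p15_16_0_147))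 (pfC_sound p15_16_0_148)) (pfC_sound p15_16_0_149)) (pfC_sound p15_16_0_150)) (pfC_sound p15_16_0_151)) (pfC_sound p15_16_0_152)) (pfC_sound p15_16_0_153)) (pfC_sound p15_16_0_154)) (pfC_sound p15_16_0_155))
 (pfC_sound p15_16_0_156)) (pfC_sound p15_16_0_157)) (pfC_sound p15_16_0_158)) (pfC_sound p15_16_0_159)) (pfC_sound p15_16_0_160)) (pfC_sound p15_16_0_161)) (pfC_sound p15_16_0_162)) (pfC_sound p15_16_0_163)) (pfC_sound p15_16_0_164)) (pfC_sound p15_16_0_165)) (pfC_sound p15_16_0_166)) (pfC_sound p15_16_0_167)) (pfC_sound p15_16_0_168)) (pfC_sound p15_16_0_169)) (pfC_sound p15_16_0_170)) (pfC_sound p15_16_0_171)) (pfC_sound p15_16_0_172)) (pfC_sound p15_16_0_173)) (pfC_sound p15_16_0_174)) (pfC_sound p15_16_0_175)) (pfC_sound p15_16_0_176)) (pfC_sound p15_16_0_177)) (pfC_sound p15_16_0_178)) (pfC_sound p15_16_0_179)) (pfC_sound p15_16_0_180)) (pfC_sound p15_16_0_181)) (pfC_sound p15_16_0_182)) (pfC_sound p15_16_0_183)) (pfC_sound p15_16_0_184)) (pfC_sound p15_16_0_185))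 (pfC_sound p15_16_0_186)) (by decide +kernel)

def z15_16_0 : zOK yB15_16 (nat_lit 0) (nat_lit 0) (nat_lit 400) (nat_lit 23751559) (nat_lit 10188775) = true := by decide +kernel
def g15_16_0 : gOK yB15_16.x P15_16 (nat_lit 1425) (q15_16 :: r15_16) (nat_lit 0) (nat_lit 0) (nat_lit 1) (nat_lit 400) (nat_lit 0) (nat_lit 11000000) (nat_lit 12712500) (nat_lit 12712500) [(nat_lit 800), (nat_lit 1400), (nat_lit 1530)] = true := by decide +kernel
def v15_16_0 : ivC P15_16 s15_16 w15_16 n15_16 (nat_lit 4) (nat_lit 5440) (nat_lit 0) (nat_lit 0) f152_1_0 f160_1_0 (nat_lit 1) (nat_lit 400) f152_1_400 f160_1_400 (nat_lit 23751559) (nat_lit 10188775) p15_16_0 = true := by decide +kernel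
def p15_16_1 : PF := (PF.cons (PF.cons (PF.cons (PF.cons (PF.leaf (nat_lit 2171366) (nat_lit 10520597) (nat_lit 56588215) (nat_lit 10520597) [(nat_lit 0), (nat_lit 0), (nat_lit 0), (nat_lit 0)]) (PF.cons (PF.leaf (nat_lit 2306054) (nat_lit 223147) (nat_lit 56349830) (nat_lit 10535835) [(nat_lit 223147), (nat_lit 0), (nat_lit 0), (nat_lit 0)]) (PF.cons (PF.leaf (nat_lit 2467023) (nat_lit 243014) (nat_lit 56070358) (nat_lit 10552425) [(nat_lit 243014), (nat_lit 0), (nat_lit 0), (nat_lit 0)]) (PF.cons (PF.leaf (nat_lit 2648220) (nat_lit 260777) (nat_lit 55757022) (nat_lit 10569456) [(nat_lit 260777), (nat_lit 0), (nat_lit 0), (nat_lit 0)]) (PF.cons (PF.leaf (nat_lit 2846963) (nat_lit 276921) (nat_lit 55414903) (nat_lit 10586223) [(nat_lit 276921), (nat_lit 0), (nat_lit 0), (nat_lit 0)]) (PF.cons (PF.leaf (nat_lit 3061205) (nat_lit 291750) (nat_lit 55047899) (nat_lit 10602162) [(nat_lit 291750), (nat_lit 0), (nat_lit 0), (nat_lit 0)]) (PF.cons (PF.leaf (nat_lit 3289279)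 (nat_lit 305471) (nat_lit 54659173) (nat_lit 10616812) [(nat_lit 305471), (nat_lit 0), (nat_lit 0), (nat_lit 0)]) (PF.cons PF.nil (PF.cons PF.nil PF.nil))))))))) (PF.cons (PF.cons (PF.leaf (nat_lit 2688290) (nat_lit 1156349) (nat_lit
 55369552) (nat_lit 10582911) [(nat_lit 0), (nat_lit 1156349), (nat_lit 0), (nat_lit 0)]) (PF.cons (PF.leaf (nat_lit 2866076) (nat_lit 272931) (nat_lit 55055046) (nat_lit 10596423) [(nat_lit 272931), (nat_lit 1184411), (nat_lit 0), (nat_lit 0)]) (PF.cons (PF.leaf (nat_lit 3063837) (nat_lit 288412) (nat_lit 54710195) (nat_lit 10609523) [(nat_lit 288412), (nat_lit 1212269), (nat_lit 0), (nat_lit 0)]) (PF.cons (PF.leaf (nat_lit 3277533) (nat_lit 302567) (nat_lit 54340001) (nat_lit 10621648) [(nat_lit 302567), (nat_lit 1239460), (nat_lit 0), (nat_lit 0)]) (PF.cons (PF.leaf (nat_lit 3505329) (nat_lit 315630) (nat_lit 53948201) (nat_lit 10632361) [(nat_lit 315630), (nat_lit 1265729), (nat_lit 0), (nat_lit 0)]) (PF.cons (PF.leaf (nat_lit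 3745548) (nat_lit 327757) (nat_lit 53537773) (nat_lit 10641318) [(nat_lit 327757), (nat_lit 1290934), (nat_lit 0), (nat_lit 0)]) (PF.cons PF.nil PF.nil))))))) (PF.cons (PF.cons (PF.leaf (nat_lit 3285330) (nat_lit 1248381) (nat_lit 53986039) (nat_lit 10626011) [(nat_lit 0), (nat_lit 1248381), (nat_lit 0), (nat_lit 0)]) (PF.cons (PF.leaf (nat_lit 3495868) (nat_lit 311984) (nat_lit 53617208) (nat_lit 10634333) [(nat_lit 311984), (nat_lit 1272642), (nat_lit
 0), (nat_lit 0)]) (PF.cons (PF.leaf (nat_lit 3722029) (nat_lit 324572) (nat_lit 53225906) (nat_lit 10641178) [(nat_lit 324572), (nat_lit 1296291), (nat_lit 0), (nat_lit 0)]) (PF.cons (PF.leaf (nat_lit 3960975) (nat_lit 336204) (nat_lit 52815753) (nat_lit 10646218) [(nat_lit 336204), (nat_lit 1319114), (nat_lit 0), (nat_lit 0)]) (PF.cons PF.nil PF.nil))))) (PF.cons (PF.cons (PF.leaf (nat_lit 3940979) (nat_lit 1324027) (nat_lit 52493367) (nat_lit 10643362) [(nat_lit 0), (nat_lit 1324027), (nat_lit 0), (nat_lit 0)])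 (PF.cons (PF.leaf (nat_lit 4176590) (nat_lit 343636) (nat_lit 52086568) (nat_lit 10644657) [(nat_lit 343636), (nat_lit 1344650), (nat_lit 0), (nat_lit 0)]) (PF.cons (PF.leaf (nat_lit 4424650) (nat_lit 354048) (nat_lit 51663312) (nat_lit 10643898) [(nat_lit 354048), (nat_lit 1364501), (nat_lit 0), (nat_lit 0)]) (PF.cons PF.nil PF.nil)))) (PF.cons (PF.cons (PF.leaf (nat_lit 4638685) (nat_lit 1385773) (nat_lit 50933186) (nat_lit 10632531) [(nat_lit 0), (nat_lit 1385773), (nat_lit 0), (nat_lit 0)]) (PF.cons (PF.leaf (nat_lit 4893351) (nat_lit 369553) (nat_lit 50501198) (nat_lit 10626065) [(nat_lit 369553), (nat_lit 1402999), (nat_lit 0), (nat_lit 0)]) PF.nil)) (PF.cons PF.nil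
 PF.nil)))))) (PF.cons (PF.cons (PF.cons (PF.leaf (nat_lit 3255607) (nat_lit 3139198) (nat_lit 53358528) (nat_lit 10611086) [(nat_lit 0), (nat_lit 0), (nat_lit 3139198), (nat_lit 0)]) (PF.cons (PF.leaf (nat_lit 3443400) (nat_lit 295632) (nat_lit 53031741) (nat_lit 10616319) [(nat_lit 295632), (nat_lit 0), (nat_lit 3165119), (nat_lit 0)]) (PF.cons (PF.leaf (nat_lit 3650263) (nat_lit 310308) (nat_lit 52676241) (nat_lit 10620442) [(nat_lit 310308), (nat_lit 0), (nat_lit 3191511), (nat_lit 0)]) (PF.cons (PF.leaf (nat_lit 3872273) (nat_lit 323528) (nat_lit 52297391) (nat_lit 10623083) [(nat_lit 323528), (nat_lit 0), (nat_lit 3217751), (nat_lit 0)]) (PF.cons (PF.leaf (nat_lit 4107219) (nat_lit 335579) (nat_lit 51899115) (nat_lit 10623961) [(nat_lit 335579), (nat_lit 0), (nat_lit 3243418), (nat_lit 0)]) (PF.cons (PF.leaf (nat_lit 4353587) (nat_lit 346652) (nat_lit 51484474) (nat_lit 10622859) [(nat_lit 346652), (nat_lit 0), (nat_lit 3268216), (nat_lit 0)]) (PF.cons PF.nil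 PF.nil))))))) (PF.cons (PF.cons (PF.leaf (nat_lit 3869491) (nat_lit 1310191) (nat_lit 51949195) (nat_lit 10618776) [(nat_lit 0), (nat_lit 1310191), (nat_lit 3230649), (nat_lit 0)]) (PF.cons (PF.leaf (nat_lit 4087015)
 (nat_lit 330888) (nat_lit 51575335) (nat_lit 10618103) [(nat_lit 330888), (nat_lit 1330784), (nat_lit 3253700), (nat_lit 0)]) (PF.cons (PF.leaf (nat_lit 4319181) (nat_lit 342586) (nat_lit 51180932) (nat_lit 10615623) [(nat_lit 342586), (nat_lit 1350733), (nat_lit 3276350), (nat_lit 0)]) (PF.cons (PF.leaf (nat_lit 4563170) (nat_lit 353274) (nat_lit 50769699) (nat_lit 10611146) [(nat_lit 353274), (nat_lit 1369872), (nat_lit 3298272), (nat_lit 0)]) (PF.cons PF.nil PF.nil))))) (PF.cons (PF.cons (PF.leaf (nat_lit 4532886) (nat_lit 1372420) (nat_lit 50457067) (nat_lit 10601446) [(nat_lit 0), (nat_lit 1372420), (nat_lit 3305459), (nat_lit 0)]) (PF.cons (PF.leaf (nat_lit 4772617) (nat_lit 359019) (nat_lit 50051881) (nat_lit 10593834) [(nat_lit 359019), (nat_lit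 1389708), (nat_lit 3324660), (nat_lit 0)]) (PF.cons (PF.leaf (nat_lit 5023780) (nat_lit 368546) (nat_lit 49632095) (nat_lit 10584096) [(nat_lit 368546), (nat_lit 1406244), (nat_lit 3343039), (nat_lit 0)]) (PF.cons PF.nil PF.nil)))) (PF.cons (PF.cons (PF.leaf (nat_lit 5230493) (nat_lit 1422529) (nat_lit 48919137) (nat_lit 10558507) [(nat_lit 0), (nat_lit 1422529), (nat_lit 3363579), (nat_lit 0)]) (PF.cons PF.nil PF.nil)) (PF.cons
 PF.nil PF.nil))))) (PF.cons (PF.cons (PF.cons (PF.leaf (nat_lit 4444278) (nat_lit 3295494) (nat_lit 49949617) (nat_lit 10568205) [(nat_lit 0), (nat_lit 0), (nat_lit 3295494), (nat_lit 0)]) (PF.cons (PF.leaf (nat_lit 4666471) (nat_lit 346063) (nat_lit 49576567) (nat_lit 10559709) [(nat_lit 346063), (nat_lit 0), (nat_lit 3313236), (nat_lit 0)]) (PF.cons (PF.leaf (nat_lit 4902447) (nat_lit 356943) (nat_lit 49184758) (nat_lit 10549209) [(nat_lit 356943), (nat_lit 0), (nat_lit 3330478), (nat_lit 0)]) (PF.cons (PF.leaf (nat_lit 5149331) (nat_lit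 366775) (nat_lit 48777918) (nat_lit 10536632) [(nat_lit 366775), (nat_lit 0), (nat_lit 3346968), (nat_lit 0)]) (PF.cons PF.nil PF.nil))))) (PF.cons (PF.cons (PF.leaf (nat_lit 5109734) (nat_lit 1408437) (nat_lit 48477664) (nat_lit 10521539) [(nat_lit 0), (nat_lit 1408437), (nat_lit 3350585), (nat_lit 0)]) (PF.cons (PF.leaf (nat_lit 5351699) (nat_lit 371105) (nat_lit 48078786) (nat_lit 10506435) [(nat_lit 371105), (nat_lit 1422881), (nat_lit 3364802), (nat_lit 0)]) (PF.cons PF.nil (PF.cons PF.nil PF.nil)))) (PF.cons (PF.cons (PF.leaf (nat_lit 5802953) (nat_lit 1448756) (nat_lit 46976784) (nat_lit 10452179) [(nat_lit 0), (nat_lit 1448756), (nat_lit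
 3391167), (nat_lit 0)]) (PF.cons PF.nil PF.nil)) PF.nil))) (PF.cons (PF.cons (PF.cons (PF.leaf (nat_lit 5669376) (nat_lit 3376183) (nat_lit 46568901) (nat_lit 10411360) [(nat_lit 0), (nat_lit 0), (nat_lit 3376183), (nat_lit 0)]) (PF.cons (PF.leaf (nat_lit 5912018) (nat_lit 380422) (nat_lit 46179670) (nat_lit 10390081) [(nat_lit 380422), (nat_lit 0), (nat_lit 3386212), (nat_lit 0)]) (PF.cons PF.nil PF.nil))) (PF.cons (PF.cons (PF.leaf (nat_lit 6354979) (nat_lit 1466323) (nat_lit 45115143) (nat_lit 10320687) [(nat_lit 0), (nat_lit 1466323), (nat_lit 3402219), (nat_lit 0)]) PF.nil) PF.nil)) (PF.cons PF.nil (PF.cons PF.nil PF.nil)))))) (PF.cons (PF.cons (PF.cons (PF.cons (PF.leaf (nat_lit 4258236) (nat_lit 8767877) (nat_lit 47989638) (nat_lit 10351296) [(nat_lit 0), (nat_lit 0), (nat_lit 0), (nat_lit 8767877)]) (PF.cons (PF.leaf (nat_lit 4446044) (nat_lit 308866) (nat_lit 47691301) (nat_lit 10342448) [(nat_lit 308866), (nat_lit 0), (nat_lit 0), (nat_lit 8766196)])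 (PF.cons (PF.leaf (nat_lit 4651781) (nat_lit 322800) (nat_lit 47368177) (nat_lit 10331766) [(nat_lit 322800), (nat_lit 0), (nat_lit 0), (nat_lit 8763266)]) (PF.cons (PF.leaf (nat_lit 4871286) (nat_lit 335110) (nat_lit
 47025337) (nat_lit 10319211) [(nat_lit 335110), (nat_lit 0), (nat_lit 0), (nat_lit 8758933)]) (PF.cons (PF.leaf (nat_lit 5102499) (nat_lit 346130) (nat_lit 46666457) (nat_lit 10304751) [(nat_lit 346130), (nat_lit 0), (nat_lit 0), (nat_lit 8753082)]) (PF.cons (PF.leaf (nat_lit 5343664) (nat_lit 356088) (nat_lit 46294373) (nat_lit 10288365) [(nat_lit 356088), (nat_lit 0), (nat_lit 0), (nat_lit 8745629)]) (PF.cons PF.nil (PF.cons PF.nil (PF.cons PF.nil PF.nil))))))))) (PF.cons (PF.cons (PF.leaf (nat_lit 4855588) (nat_lit 1340123) (nat_lit 46717376) (nat_lit 10302336) [(nat_lit 0), (nat_lit 1340123), (nat_lit 0), (nat_lit 8748976)]) (PF.cons (PF.leaf (nat_lit 5069542) (nat_lit 340359) (nat_lit 46381438) (nat_lit 10287807) [(nat_lit 340359), (nat_lit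 1356673), (nat_lit 0), (nat_lit 8742533)]) (PF.cons (PF.leaf (nat_lit 5296843) (nat_lit 351077) (nat_lit 46028355) (nat_lit 10271309) [(nat_lit 351077), (nat_lit 1372448), (nat_lit 0), (nat_lit 8734545)]) (PF.cons (PF.leaf (nat_lit 5534681) (nat_lit 360704) (nat_lit 45661537) (nat_lit 10252862) [(nat_lit 360704), (nat_lit 1387346), (nat_lit 0), (nat_lit 8724954)]) (PF.cons (PF.leaf (nat_lit 5781436) (nat_lit 369423) (nat_lit 45283582)
 (nat_lit 10232484) [(nat_lit 369423), (nat_lit 1401326), (nat_lit 0), (nat_lit 8713725)]) (PF.cons PF.nil (PF.cons PF.nil PF.nil))))))) (PF.cons (PF.cons (PF.leaf (nat_lit 5492472) (nat_lit 1387025) (nat_lit 45388612) (nat_lit 10233923) [(nat_lit 0), (nat_lit 1387025), (nat_lit 0), (nat_lit 8712225)]) (PF.cons (PF.leaf (nat_lit 5725275) (nat_lit 364558) (nat_lit 45029105) (nat_lit 10213670) [(nat_lit 364558), (nat_lit 1400382), (nat_lit 0), (nat_lit 8700712)]) (PF.cons (PF.leaf (nat_lit 5968282) (nat_lit 373033) (nat_lit 44657778)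 (nat_lit 10191469) [(nat_lit 373033), (nat_lit 1412965), (nat_lit 0), (nat_lit 8687566)]) (PF.cons (PF.leaf (nat_lit 6219321) (nat_lit 380712) (nat_lit 44277039) (nat_lit 10167374) [(nat_lit 380712), (nat_lit 1424736), (nat_lit 0), (nat_lit 8672787)]) (PF.cons PF.nil PF.nil))))) (PF.cons (PF.cons (PF.leaf (nat_lit 6155263) (nat_lit 1423171) (nat_lit 44033973) (nat_lit 10147137) [(nat_lit 0), (nat_lit 1423171), (nat_lit 0), (nat_lit 8658187)]) (PF.cons (PF.leaf (nat_lit 6401596) (nat_lit 383486) (nat_lit 43660877) (nat_lit 10121462) [(nat_lit 383486), (nat_lit 1433755), (nat_lit 0), (nat_lit 8641720)]) (PF.cons PF.nil (PF.cons PF.nil PF.nil)))) (PF.cons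
 (PF.cons (PF.leaf (nat_lit 6833762) (nat_lit 1450380) (nat_lit 42675287) (nat_lit 10043753) [(nat_lit 0), (nat_lit 1450380), (nat_lit 0), (nat_lit 8588250)]) (PF.cons PF.nil PF.nil)) (PF.cons PF.nil PF.nil)))))) (PF.cons (PF.cons (PF.cons (PF.leaf (nat_lit 5384764) (nat_lit 3281030) (nat_lit 44960006) (nat_lit 10190252) [(nat_lit 0), (nat_lit 0), (nat_lit 3281030), (nat_lit 8677522)]) (PF.cons (PF.leaf (nat_lit 5601121) (nat_lit 350974) (nat_lit 44629199) (nat_lit 10170742) [(nat_lit 350974), (nat_lit 0), (nat_lit 3291721), (nat_lit 8666174)]) (PF.cons (PF.leaf (nat_lit 5830127) (nat_lit 360924) (nat_lit 44282741) (nat_lit 10149203) [(nat_lit 360924), (nat_lit 0), (nat_lit 3301814), (nat_lit 8653205)]) (PF.cons (PF.leaf (nat_lit 6068864) (nat_lit 369776) (nat_lit 43923974) (nat_lit 10125727) [(nat_lit 369776), (nat_lit 0), (nat_lit 3311155), (nat_lit 8638627)]) (PF.cons (PF.leaf (nat_lit 6315811) (nat_lit 377725) (nat_lit 43555420) (nat_lit 10100387) [(nat_lit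 377725), (nat_lit 0), (nat_lit 3319644), (nat_lit 8622458)]) PF.nil))))) (PF.cons (PF.cons (PF.leaf (nat_lit 6019006) (nat_lit 1407463) (nat_lit 43664241) (nat_lit 10103905) [(nat_lit 0), (nat_lit 1407463), (nat_lit
 3310280), (nat_lit 8622921)]) (PF.cons (PF.leaf (nat_lit 6252296) (nat_lit 372523) (nat_lit 43313856) (nat_lit 10079069) [(nat_lit 372523), (nat_lit 1418558), (nat_lit 3317961), (nat_lit 8606843)]) (PF.cons (PF.leaf (nat_lit 6495087) (nat_lit 380300) (nat_lit 42952901) (nat_lit 10052339) [(nat_lit 380300), (nat_lit 1428922), (nat_lit 3324880), (nat_lit 8589169)]) (PF.cons PF.nil PF.nil)))) (PF.cons (PF.cons (PF.leaf (nat_lit 6674501) (nat_lit 1436112) (nat_lit 42353641) (nat_lit 10001558) [(nat_lit 0), (nat_lit 1436112), (nat_lit 3328177), (nat_lit 8553211)]) (PF.cons (PF.leaf (nat_lit 6919678) (nat_lit 389160) (nat_lit 41992754) (nat_lit 9971869) [(nat_lit 389160), (nat_lit 1444725), (nat_lit 3332886), (nat_lit 8532691)]) PF.nil)) (PF.cons PF.nil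 (PF.cons PF.nil PF.nil))))) (PF.cons (PF.cons (PF.cons (PF.leaf (nat_lit 6528782) (nat_lit 3310679) (nat_lit 42013313) (nat_lit 9957407) [(nat_lit 0), (nat_lit 0), (nat_lit 3310679), (nat_lit 8516731)]) (PF.cons (PF.leaf (nat_lit 6761547) (nat_lit 378435) (nat_lit 41673794) (nat_lit 9928889) [(nat_lit 378435), (nat_lit 0), (nat_lit 3315378), (nat_lit 8496936)]) (PF.cons (PF.leaf (nat_lit 7003218) (nat_lit 385587) (nat_lit 41324786)
 (nat_lit 9898552) [(nat_lit 385587), (nat_lit 0), (nat_lit 3319349), (nat_lit 8475600)]) (PF.cons PF.nil PF.nil)))) (PF.cons (PF.cons (PF.leaf (nat_lit 7175082) (nat_lit 1443016) (nat_lit 40751416) (nat_lit 9842874) [(nat_lit 0), (nat_lit 1443016), (nat_lit 3318485), (nat_lit 8434534)]) (PF.cons PF.nil PF.nil)) (PF.cons PF.nil PF.nil))) (PF.cons (PF.cons (PF.cons (PF.leaf (nat_lit 7657186) (nat_lit 3300214) (nat_lit 39227760) (nat_lit 9674766) [(nat_lit 0), (nat_lit 0), (nat_lit 3300214), (nat_lit 8305642)]) (PF.cons PF.nil PF.nil))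 (PF.cons PF.nil PF.nil)) (PF.cons PF.nil PF.nil))))) (PF.cons (PF.cons (PF.cons (PF.cons (PF.leaf (nat_lit 6212448) (nat_lit 8333529) (nat_lit 40698105) (nat_lit 9743648) [(nat_lit 0), (nat_lit 0), (nat_lit 0), (nat_lit 8333529)]) (PF.cons (PF.leaf (nat_lit 6421655) (nat_lit 349872) (nat_lit 40407728) (nat_lit 9718587) [(nat_lit 349872), (nat_lit 0), (nat_lit 0), (nat_lit 8316312)]) (PF.cons (PF.leaf (nat_lit 6642530) (nat_lit 359033) (nat_lit 40104150) (nat_lit 9691575) [(nat_lit 359033), (nat_lit 0), (nat_lit 0), (nat_lit 8297509)]) (PF.cons (PF.leaf (nat_lit 6872261) (nat_lit 367083) (nat_lit 39790319) (nat_lit 9662791) [(nat_lit 367083), (nat_lit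
 0), (nat_lit 0), (nat_lit 8277225)]) (PF.cons (PF.leaf (nat_lit 7109355) (nat_lit 374228) (nat_lit 39468441) (nat_lit 9632373) [(nat_lit 374228), (nat_lit 0), (nat_lit 0), (nat_lit 8255542)]) PF.nil))))) (PF.cons (PF.cons (PF.leaf (nat_lit 6815478) (nat_lit 1386879) (nat_lit 39566899) (nat_lit 9638221) [(nat_lit 0), (nat_lit 1386879), (nat_lit 0), (nat_lit 8258406)]) (PF.cons (PF.leaf (nat_lit 7039546) (nat_lit 368737) (nat_lit 39261063) (nat_lit 9608797) [(nat_lit 368737), (nat_lit 1395598), (nat_lit 0), (nat_lit 8237307)]) (PF.cons (PF.leaf (nat_lit 7272260) (nat_lit 375757) (nat_lit 38946434) (nat_lit 9577688) [(nat_lit 375757), (nat_lit 1403608), (nat_lit 0), (nat_lit 8214783)]) (PF.cons PF.nil PF.nil)))) (PF.cons (PF.cons (PF.leaf (nat_lit 7435496) (nat_lit 1407533) (nat_lit 38427971) (nat_lit 9521241) [(nat_lit 0), (nat_lit 1407533), (nat_lit 0), (nat_lit 8172266)]) (PF.cons (PF.leaf (nat_lit 7669762) (nat_lit 382946) (nat_lit 38114271) (nat_lit 9488074)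 [(nat_lit 382946), (nat_lit 1414029), (nat_lit 0), (nat_lit 8147731)]) PF.nil)) (PF.cons PF.nil (PF.cons PF.nil PF.nil))))) (PF.cons (PF.cons (PF.cons (PF.leaf (nat_lit 7282928) (nat_lit 3216096) (nat_lit 38143722) (nat_lit
 9477673) [(nat_lit 0), (nat_lit 0), (nat_lit 3216096), (nat_lit 8135660)]) (PF.cons (PF.leaf (nat_lit 7505807) (nat_lit 372397) (nat_lit 37848354) (nat_lit 9446083) [(nat_lit 372397), (nat_lit 0), (nat_lit 3217433), (nat_lit 8112271)]) (PF.cons (PF.leaf (nat_lit 7736893) (nat_lit 378873) (nat_lit 37545034) (nat_lit 9412888) [(nat_lit 378873), (nat_lit 0), (nat_lit 3218105), (nat_lit 8087519)]) (PF.cons PF.nil PF.nil)))) (PF.cons (PF.cons (PF.leaf (nat_lit 7893356) (nat_lit 1407812) (nat_lit 37049972) (nat_lit 9353953) [(nat_lit 0), (nat_lit 1407812), (nat_lit 3212718), (nat_lit 8042177)]) (PF.cons PF.nil PF.nil)) (PF.cons PF.nil PF.nil))) (PF.cons (PF.cons (PF.cons (PF.leaf (nat_lit 8335005) (nat_lit 3185633) (nat_lit 35740562) (nat_lit 9182744)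 [(nat_lit 0), (nat_lit 0), (nat_lit 3185633), (nat_lit 7907118)]) (PF.cons PF.nil PF.nil)) (PF.cons PF.nil PF.nil)) PF.nil))) (PF.cons (PF.cons (PF.cons (PF.cons (PF.leaf (nat_lit 7953984) (nat_lit 7752506) (nat_lit 34846919) (nat_lit 9004373) [(nat_lit 0), (nat_lit 0), (nat_lit 0), (nat_lit 7752506)]) (PF.cons (PF.leaf (nat_lit 8167402) (nat_lit 364139) (nat_lit 34589457) (nat_lit 8972018) [(nat_lit 364139), (nat_lit 0), (nat_lit 0),
 (nat_lit 7727732)]) (PF.cons PF.nil PF.nil))) (PF.cons (PF.cons (PF.leaf (nat_lit 8532118) (nat_lit 1366773) (nat_lit 33896344) (nat_lit 8879450) [(nat_lit 0), (nat_lit 1366773), (nat_lit 0), (nat_lit 7655414)]) PF.nil) PF.nil)) (PF.cons PF.nil PF.nil)) (PF.cons PF.nil (PF.cons PF.nil (PF.cons PF.nil (PF.cons PF.nil PF.nil))))))))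

def p15_16_1_0 : pfC (piC [(nat_lit 41351667), (nat_lit 26310893), (nat_lit 19519284), (nat_lit 13130440)] (nat_lit 10188775)) p15_16_1 (nat_lit 4) (nat_lit 0) (nat_lit 1) = true := by decide +kernel
def p15_16_1_1 : pfC (piC [(nat_lit 41351667), (nat_lit 26310893), (nat_lit 19519284), (nat_lit 13130440)] (nat_lit 10188775)) p15_16_1 (nat_lit 4) (nat_lit 1) (nat_lit 2) = true := by decide +kernel
def p15_16_1_2 : pfC (piC [(nat_lit 41351667), (nat_lit 26310893), (nat_lit 19519284), (nat_lit 13130440)] (nat_lit 10188775)) p15_16_1 (nat_lit 4) (nat_lit 2) (nat_lit 3) = true := by decide +kernel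
def p15_16_1_3 : pfC (piC [(nat_lit 41351667), (nat_lit 26310893), (nat_lit 19519284), (nat_lit 13130440)] (nat_lit 10188775)) p15_16_1 (nat_lit 4) (nat_lit 3) (nat_lit 4) = true := by decide +kernel
def p15_16_1_4 : pfC (piC [(nat_lit 41351667), (nat_lit 26310893), (nat_lit 19519284), (nat_lit 13130440)] (nat_lit 10188775)) p15_16_1 (nat_lit 4) (nat_lit 4) (nat_lit 5) = true := by decide +kernel
def p15_16_1_5 : pfC (piC [(nat_lit 41351667), (nat_lit 26310893), (nat_lit 19519284), (nat_lit 13130440)] (nat_lit 10188775)) p15_16_1 (nat_lit 4) (nat_lit 5) (nat_lit 6) = true := by decide +kernel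
def p15_16_1_6 : pfC (piC [(nat_lit 41351667), (nat_lit 26310893), (nat_lit 19519284), (nat_lit 13130440)] (nat_lit 10188775)) p15_16_1 (nat_lit 4) (nat_lit 6) (nat_lit 7) = true := by decide +kernel
def p15_16_1_7 : pfC (piC [(nat_lit 41351667), (nat_lit 26310893), (nat_lit 19519284), (nat_lit 13130440)] (nat_lit 10188775)) p15_16_1 (nat_lit 4) (nat_lit 7) (nat_lit 8) = true := by decide +kernel
def p15_16_1_8 : pfC (piC [(nat_lit 41351667), (nat_lit 26310893), (nat_lit 19519284), (nat_lit 13130440)] (nat_lit 10188775)) p15_16_1 (nat_lit 4) (nat_lit 8) (nat_lit 9) = true := by decide +kernel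
def p15_16_1_9 : pfC (piC [(nat_lit 41351667), (nat_lit 26310893), (nat_lit 19519284), (nat_lit 13130440)] (nat_lit 10188775)) p15_16_1 (nat_lit 4) (nat_lit 9) (nat_lit 10) = true := by decide +kernel
def p15_16_1_10 : pfC (piC [(nat_lit 41351667), (nat_lit 26310893), (nat_lit 19519284), (nat_lit 13130440)] (nat_lit 10188775)) p15_16_1 (nat_lit 4) (nat_lit 10) (nat_lit 11) = true := by decide +kernel
def p15_16_1_11 : pfC (piC [(nat_lit 41351667), (nat_lit 26310893), (nat_lit 19519284), (nat_lit 13130440)] (nat_lit 10188775)) p15_16_1 (nat_lit 4) (nat_lit 11) (nat_lit 12) = true := by decide +kernel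
def p15_16_1_12 : pfC (piC [(nat_lit 41351667), (nat_lit 26310893), (nat_lit 19519284), (nat_lit 13130440)] (nat_lit 10188775)) p15_16_1 (nat_lit 4) (nat_lit 12) (nat_lit 13) = true := by decide +kernel
def p15_16_1_13 : pfC (piC [(nat_lit 41351667), (nat_lit 26310893), (nat_lit 19519284), (nat_lit 13130440)] (nat_lit 10188775)) p15_16_1 (nat_lit 4) (nat_lit 13) (nat_lit 14) = true := by decide +kernel
def p15_16_1_14 : pfC (piC [(nat_lit 41351667), (nat_lit 26310893), (nat_lit 19519284), (nat_lit 13130440)] (nat_lit 10188775)) p15_16_1 (nat_lit 4) (nat_lit 14) (nat_lit 15) = true := by decide +kernel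
def p15_16_1_15 : pfC (piC [(nat_lit 41351667), (nat_lit 26310893), (nat_lit 19519284), (nat_lit 13130440)] (nat_lit 10188775)) p15_16_1 (nat_lit 4) (nat_lit 15) (nat_lit 16) = true := by decide +kernel
def p15_16_1_16 : pfC (piC [(nat_lit 41351667), (nat_lit 26310893), (nat_lit 19519284), (nat_lit 13130440)] (nat_lit 10188775)) p15_16_1 (nat_lit 4) (nat_lit 16) (nat_lit 17) = true := by decide +kernel
def p15_16_1_17 : pfC (piC [(nat_lit 41351667), (nat_lit 26310893), (nat_lit 19519284), (nat_lit 13130440)] (nat_lit 10188775)) p15_16_1 (nat_lit 4) (nat_lit 17) (nat_lit 18) = true := by decide +kernel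
def p15_16_1_18 : pfC (piC [(nat_lit 41351667), (nat_lit 26310893), (nat_lit 19519284), (nat_lit 13130440)] (nat_lit 10188775)) p15_16_1 (nat_lit 4) (nat_lit 18) (nat_lit 19) = true := by decide +kernel
def p15_16_1_19 : pfC (piC [(nat_lit 41351667), (nat_lit 26310893), (nat_lit 19519284), (nat_lit 13130440)] (nat_lit 10188775)) p15_16_1 (nat_lit 4) (nat_lit 19) (nat_lit 20) = true := by decide +kernel
def p15_16_1_20 : pfC (piC [(nat_lit 41351667), (nat_lit 26310893), (nat_lit 19519284), (nat_lit 13130440)] (nat_lit 10188775)) p15_16_1 (nat_lit 4) (nat_lit 20) (nat_lit 21) = true := by decide +kernel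
def p15_16_1_21 : pfC (piC [(nat_lit 41351667), (nat_lit 26310893), (nat_lit 19519284), (nat_lit 13130440)] (nat_lit 10188775)) p15_16_1 (nat_lit 4) (nat_lit 21) (nat_lit 22) = true := by decide +kernel
def p15_16_1_22 : pfC (piC [(nat_lit 41351667), (nat_lit 26310893), (nat_lit 19519284), (nat_lit 13130440)] (nat_lit 10188775)) p15_16_1 (nat_lit 4) (nat_lit 22) (nat_lit 23) = true := by decide +kernel
def p15_16_1_23 : pfC (piC [(nat_lit 41351667), (nat_lit 26310893), (nat_lit 19519284), (nat_lit 13130440)] (nat_lit 10188775)) p15_16_1 (nat_lit 4) (nat_lit 23) (nat_lit 24) = true := by decide +kernel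
def p15_16_1_24 : pfC (piC [(nat_lit 41351667), (nat_lit 26310893), (nat_lit 19519284), (nat_lit 13130440)] (nat_lit 10188775)) p15_16_1 (nat_lit 4) (nat_lit 24) (nat_lit 25) = true := by decide +kernel
def p15_16_1_25 : pfC (piC [(nat_lit 41351667), (nat_lit 26310893), (nat_lit 19519284), (nat_lit 13130440)] (nat_lit 10188775)) p15_16_1 (nat_lit 4) (nat_lit 25) (nat_lit 26) = true := by decide +kernel
def p15_16_1_26 : pfC (piC [(nat_lit 41351667), (nat_lit 26310893), (nat_lit 19519284), (nat_lit 13130440)] (nat_lit 10188775)) p15_16_1 (nat_lit 4) (nat_lit 26) (nat_lit 27) = true := by decide +kernel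
def p15_16_1_27 : pfC (piC [(nat_lit 41351667), (nat_lit 26310893), (nat_lit 19519284), (nat_lit 13130440)] (nat_lit 10188775)) p15_16_1 (nat_lit 4) (nat_lit 27) (nat_lit 28) = true := by decide +kernel
def p15_16_1_28 : pfC (piC [(nat_lit 41351667), (nat_lit 26310893), (nat_lit 19519284), (nat_lit 13130440)] (nat_lit 10188775)) p15_16_1 (nat_lit 4) (nat_lit 28) (nat_lit 29) = true := by decide +kernel
def p15_16_1_29 : pfC (piC [(nat_lit 41351667), (nat_lit 26310893), (nat_lit 19519284), (nat_lit 13130440)] (nat_lit 10188775)) p15_16_1 (nat_lit 4) (nat_lit 29) (nat_lit 30) = true := by decide +kernel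
def p15_16_1_30 : pfC (piC [(nat_lit 41351667), (nat_lit 26310893), (nat_lit 19519284), (nat_lit 13130440)] (nat_lit 10188775)) p15_16_1 (nat_lit 4) (nat_lit 30) (nat_lit 31) = true := by decide +kernel
def p15_16_1_31 : pfC (piC [(nat_lit 41351667), (nat_lit 26310893), (nat_lit 19519284), (nat_lit 13130440)] (nat_lit 10188775)) p15_16_1 (nat_lit 4) (nat_lit 31) (nat_lit 32) = true := by decide +kernel
def p15_16_1_32 : pfC (piC [(nat_lit 41351667), (nat_lit 26310893), (nat_lit 19519284), (nat_lit 13130440)] (nat_lit 10188775)) p15_16_1 (nat_lit 4) (nat_lit 32) (nat_lit 33) = true := by decide +kernel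
def p15_16_1_33 : pfC (piC [(nat_lit 41351667), (nat_lit 26310893), (nat_lit 19519284), (nat_lit 13130440)] (nat_lit 10188775)) p15_16_1 (nat_lit 4) (nat_lit 33) (nat_lit 34) = true := by decide +kernel
def p15_16_1_34 : pfC (piC [(nat_lit 41351667), (nat_lit 26310893), (nat_lit 19519284), (nat_lit 13130440)] (nat_lit 10188775)) p15_16_1 (nat_lit 4) (nat_lit 34) (nat_lit 35) = true := by decide +kernel
def p15_16_1_35 : pfC (piC [(nat_lit 41351667), (nat_lit 26310893), (nat_lit 19519284), (nat_lit 13130440)] (nat_lit 10188775)) p15_16_1 (nat_lit 4) (nat_lit 35) (nat_lit 36) = true := by decide +kernel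
def p15_16_1_36 : pfC (piC [(nat_lit 41351667), (nat_lit 26310893), (nat_lit 19519284), (nat_lit 13130440)] (nat_lit 10188775)) p15_16_1 (nat_lit 4) (nat_lit 36) (nat_lit 37) = true := by decide +kernel
def p15_16_1_37 : pfC (piC [(nat_lit 41351667), (nat_lit 26310893), (nat_lit 19519284), (nat_lit 13130440)] (nat_lit 10188775)) p15_16_1 (nat_lit 4) (nat_lit 37) (nat_lit 38) = true := by decide +kernel
def p15_16_1_38 : pfC (piC [(nat_lit 41351667), (nat_lit 26310893), (nat_lit 19519284), (nat_lit 13130440)] (nat_lit 10188775)) p15_16_1 (nat_lit 4) (nat_lit 38) (nat_lit 39) = true := by decide +kernel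
def p15_16_1_39 : pfC (piC [(nat_lit 41351667), (nat_lit 26310893), (nat_lit 19519284), (nat_lit 13130440)] (nat_lit 10188775)) p15_16_1 (nat_lit 4) (nat_lit 39) (nat_lit 40) = true := by decide +kernel
def p15_16_1_40 : pfC (piC [(nat_lit 41351667), (nat_lit 26310893), (nat_lit 19519284), (nat_lit 13130440)] (nat_lit 10188775)) p15_16_1 (nat_lit 4) (nat_lit 40) (nat_lit 41) = true := by decide +kernel
def p15_16_1_41 : pfC (piC [(nat_lit 41351667), (nat_lit 26310893), (nat_lit 19519284), (nat_lit 13130440)] (nat_lit 10188775)) p15_16_1 (nat_lit 4) (nat_lit 41) (nat_lit 42) = true := by decide +kernel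
def p15_16_1_42 : pfC (piC [(nat_lit 41351667), (nat_lit 26310893), (nat_lit 19519284), (nat_lit 13130440)] (nat_lit 10188775)) p15_16_1 (nat_lit 4) (nat_lit 42) (nat_lit 43) = true := by decide +kernel
def p15_16_1_43 : pfC (piC [(nat_lit 41351667), (nat_lit 26310893), (nat_lit 19519284), (nat_lit 13130440)] (nat_lit 10188775)) p15_16_1 (nat_lit 4) (nat_lit 43) (nat_lit 44) = true := by decide +kernel
def p15_16_1_44 : pfC (piC [(nat_lit 41351667), (nat_lit 26310893), (nat_lit 19519284), (nat_lit 13130440)] (nat_lit 10188775)) p15_16_1 (nat_lit 4) (nat_lit 44) (nat_lit 45) = true := by decide +kernel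
def p15_16_1_45 : pfC (piC [(nat_lit 41351667), (nat_lit 26310893), (nat_lit 19519284), (nat_lit 13130440)] (nat_lit 10188775)) p15_16_1 (nat_lit 4) (nat_lit 45) (nat_lit 46) = true := by decide +kernel
def p15_16_1_46 : pfC (piC [(nat_lit 41351667), (nat_lit 26310893), (nat_lit 19519284), (nat_lit 13130440)] (nat_lit 10188775)) p15_16_1 (nat_lit 4) (nat_lit 46) (nat_lit 47) = true := by decide +kernel
def p15_16_1_47 : pfC (piC [(nat_lit 41351667), (nat_lit 26310893), (nat_lit 19519284), (nat_lit 13130440)] (nat_lit 10188775)) p15_16_1 (nat_lit 4) (nat_lit 47) (nat_lit 48) = true := by decide +kernel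
def p15_16_1_48 : pfC (piC [(nat_lit 41351667), (nat_lit 26310893), (nat_lit 19519284), (nat_lit 13130440)] (nat_lit 10188775)) p15_16_1 (nat_lit 4) (nat_lit 48) (nat_lit 49) = true := by decide +kernel
def p15_16_1_49 : pfC (piC [(nat_lit 41351667), (nat_lit 26310893), (nat_lit 19519284), (nat_lit 13130440)] (nat_lit 10188775)) p15_16_1 (nat_lit 4) (nat_lit 49) (nat_lit 50) = true := by decide +kernel
def p15_16_1_50 : pfC (piC [(nat_lit 41351667), (nat_lit 26310893), (nat_lit 19519284), (nat_lit 13130440)] (nat_lit 10188775)) p15_16_1 (nat_lit 4) (nat_lit 50) (nat_lit 51) = true := by decide +kernel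
def p15_16_1_51 : pfC (piC [(nat_lit 41351667), (nat_lit 26310893), (nat_lit 19519284), (nat_lit 13130440)] (nat_lit 10188775)) p15_16_1 (nat_lit 4) (nat_lit 51) (nat_lit 52) = true := by decide +kernel
def p15_16_1_52 : pfC (piC [(nat_lit 41351667), (nat_lit 26310893), (nat_lit 19519284), (nat_lit 13130440)] (nat_lit 10188775)) p15_16_1 (nat_lit 4) (nat_lit 52) (nat_lit 53) = true := by decide +kernel
def p15_16_1_53 : pfC (piC [(nat_lit 41351667), (nat_lit 26310893), (nat_lit 19519284), (nat_lit 13130440)] (nat_lit 10188775)) p15_16_1 (nat_lit 4) (nat_lit 53) (nat_lit 54) = true := by decide +kernel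
def p15_16_1_54 : pfC (piC [(nat_lit 41351667), (nat_lit 26310893), (nat_lit 19519284), (nat_lit 13130440)] (nat_lit 10188775)) p15_16_1 (nat_lit 4) (nat_lit 54) (nat_lit 55) = true := by decide +kernel
def p15_16_1_55 : pfC (piC [(nat_lit 41351667), (nat_lit 26310893), (nat_lit 19519284), (nat_lit 13130440)] (nat_lit 10188775)) p15_16_1 (nat_lit 4) (nat_lit 55) (nat_lit 56) = true := by decide +kernel
def p15_16_1_56 : pfC (piC [(nat_lit 41351667), (nat_lit 26310893), (nat_lit 19519284), (nat_lit 13130440)] (nat_lit 10188775)) p15_16_1 (nat_lit 4) (nat_lit 56) (nat_lit 57) = true := by decide +kernel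
def p15_16_1_57 : pfC (piC [(nat_lit 41351667), (nat_lit 26310893), (nat_lit 19519284), (nat_lit 13130440)] (nat_lit 10188775)) p15_16_1 (nat_lit 4) (nat_lit 57) (nat_lit 58) = true := by decide +kernel
def p15_16_1_58 : pfC (piC [(nat_lit 41351667), (nat_lit 26310893), (nat_lit 19519284), (nat_lit 13130440)] (nat_lit 10188775)) p15_16_1 (nat_lit 4) (nat_lit 58) (nat_lit 59) = true := by decide +kernel
def p15_16_1_59 : pfC (piC [(nat_lit 41351667), (nat_lit 26310893), (nat_lit 19519284), (nat_lit 13130440)] (nat_lit 10188775)) p15_16_1 (nat_lit 4) (nat_lit 59) (nat_lit 60) = true := by decide +kernel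
def p15_16_1_60 : pfC (piC [(nat_lit 41351667), (nat_lit 26310893), (nat_lit 19519284), (nat_lit 13130440)] (nat_lit 10188775)) p15_16_1 (nat_lit 4) (nat_lit 60) (nat_lit 61) = true := by decide +kernel
def p15_16_1_61 : pfC (piC [(nat_lit 41351667), (nat_lit 26310893), (nat_lit 19519284), (nat_lit 13130440)] (nat_lit 10188775)) p15_16_1 (nat_lit 4) (nat_lit 61) (nat_lit 62) = true := by decide +kernel
def p15_16_1_62 : pfC (piC [(nat_lit 41351667), (nat_lit 26310893), (nat_lit 19519284), (nat_lit 13130440)] (nat_lit 10188775)) p15_16_1 (nat_lit 4) (nat_lit 62) (nat_lit 63) = true := by decide +kernel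
def p15_16_1_63 : pfC (piC [(nat_lit 41351667), (nat_lit 26310893), (nat_lit 19519284), (nat_lit 13130440)] (nat_lit 10188775)) p15_16_1 (nat_lit 4) (nat_lit 63) (nat_lit 64) = true := by decide +kernel
def p15_16_1_64 : pfC (piC [(nat_lit 41351667), (nat_lit 26310893), (nat_lit 19519284), (nat_lit 13130440)] (nat_lit 10188775)) p15_16_1 (nat_lit 4) (nat_lit 64) (nat_lit 65) = true := by decide +kernel
def p15_16_1_65 : pfC (piC [(nat_lit 41351667), (nat_lit 26310893), (nat_lit 19519284), (nat_lit 13130440)] (nat_lit 10188775)) p15_16_1 (nat_lit 4) (nat_lit 65) (nat_lit 66) = true := by decide +kernel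
def p15_16_1_66 : pfC (piC [(nat_lit 41351667), (nat_lit 26310893), (nat_lit 19519284), (nat_lit 13130440)] (nat_lit 10188775)) p15_16_1 (nat_lit 4) (nat_lit 66) (nat_lit 67) = true := by decide +kernel
def p15_16_1_67 : pfC (piC [(nat_lit 41351667), (nat_lit 26310893), (nat_lit 19519284), (nat_lit 13130440)] (nat_lit 10188775)) p15_16_1 (nat_lit 4) (nat_lit 67) (nat_lit 68) = true := by decide +kernel
def p15_16_1_68 : pfC (piC [(nat_lit 41351667), (nat_lit 26310893), (nat_lit 19519284), (nat_lit 13130440)] (nat_lit 10188775)) p15_16_1 (nat_lit 4) (nat_lit 68) (nat_lit 69) = true := by decide +kernel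
def p15_16_1_69 : pfC (piC [(nat_lit 41351667), (nat_lit 26310893), (nat_lit 19519284), (nat_lit 13130440)] (nat_lit 10188775)) p15_16_1 (nat_lit 4) (nat_lit 69) (nat_lit 70) = true := by decide +kernel
def p15_16_1_70 : pfC (piC [(nat_lit 41351667), (nat_lit 26310893), (nat_lit 19519284), (nat_lit 13130440)] (nat_lit 10188775)) p15_16_1 (nat_lit 4) (nat_lit 70) (nat_lit 71) = true := by decide +kernel
def p15_16_1_71 : pfC (piC [(nat_lit 41351667), (nat_lit 26310893), (nat_lit 19519284), (nat_lit 13130440)] (nat_lit 10188775)) p15_16_1 (nat_lit 4) (nat_lit 71) (nat_lit 72) = true := by decide +kernel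
def p15_16_1_72 : pfC (piC [(nat_lit 41351667), (nat_lit 26310893), (nat_lit 19519284), (nat_lit 13130440)] (nat_lit 10188775)) p15_16_1 (nat_lit 4) (nat_lit 72) (nat_lit 73) = true := by decide +kernel
def p15_16_1_73 : pfC (piC [(nat_lit 41351667), (nat_lit 26310893), (nat_lit 19519284), (nat_lit 13130440)] (nat_lit 10188775)) p15_16_1 (nat_lit 4) (nat_lit 73) (nat_lit 74) = true := by decide +kernel
def p15_16_1_74 : pfC (piC [(nat_lit 41351667), (nat_lit 26310893), (nat_lit 19519284), (nat_lit 13130440)] (nat_lit 10188775)) p15_16_1 (nat_lit 4) (nat_lit 74) (nat_lit 75) = true := by decide +kernel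
def p15_16_1_75 : pfC (piC [(nat_lit 41351667), (nat_lit 26310893), (nat_lit 19519284), (nat_lit 13130440)] (nat_lit 10188775)) p15_16_1 (nat_lit 4) (nat_lit 75) (nat_lit 76) = true := by decide +kernel
def p15_16_1_76 : pfC (piC [(nat_lit 41351667), (nat_lit 26310893), (nat_lit 19519284), (nat_lit 13130440)] (nat_lit 10188775)) p15_16_1 (nat_lit 4) (nat_lit 76) (nat_lit 77) = true := by decide +kernel
def p15_16_1_77 : pfC (piC [(nat_lit 41351667), (nat_lit 26310893), (nat_lit 19519284), (nat_lit 13130440)] (nat_lit 10188775)) p15_16_1 (nat_lit 4) (nat_lit 77) (nat_lit 78) = true := by decide +kernel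
def p15_16_1_78 : pfC (piC [(nat_lit 41351667), (nat_lit 26310893), (nat_lit 19519284), (nat_lit 13130440)] (nat_lit 10188775)) p15_16_1 (nat_lit 4) (nat_lit 78) (nat_lit 79) = true := by decide +kernel
def p15_16_1_79 : pfC (piC [(nat_lit 41351667), (nat_lit 26310893), (nat_lit 19519284), (nat_lit 13130440)] (nat_lit 10188775)) p15_16_1 (nat_lit 4) (nat_lit 79) (nat_lit 80) = true := by decide +kernel
def p15_16_1_80 : pfC (piC [(nat_lit 41351667), (nat_lit 26310893), (nat_lit 19519284), (nat_lit 13130440)] (nat_lit 10188775)) p15_16_1 (nat_lit 4) (nat_lit 80) (nat_lit 81) = true := by decide +kernel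
def p15_16_1_81 : pfC (piC [(nat_lit 41351667), (nat_lit 26310893), (nat_lit 19519284), (nat_lit 13130440)] (nat_lit 10188775)) p15_16_1 (nat_lit 4) (nat_lit 81) (nat_lit 82) = true := by decide +kernel
def p15_16_1_82 : pfC (piC [(nat_lit 41351667), (nat_lit 26310893), (nat_lit 19519284), (nat_lit 13130440)] (nat_lit 10188775)) p15_16_1 (nat_lit 4) (nat_lit 82) (nat_lit 83) = true := by decide +kernel
def p15_16_1_83 : pfC (piC [(nat_lit 41351667), (nat_lit 26310893), (nat_lit 19519284), (nat_lit 13130440)] (nat_lit 10188775)) p15_16_1 (nat_lit 4) (nat_lit 83) (nat_lit 84) = true := by decide +kernel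
def p15_16_1_84 : pfC (piC [(nat_lit 41351667), (nat_lit 26310893), (nat_lit 19519284), (nat_lit 13130440)] (nat_lit 10188775)) p15_16_1 (nat_lit 4) (nat_lit 84) (nat_lit 85) = true := by decide +kernel
def p15_16_1_85 : pfC (piC [(nat_lit 41351667), (nat_lit 26310893), (nat_lit 19519284), (nat_lit 13130440)] (nat_lit 10188775)) p15_16_1 (nat_lit 4) (nat_lit 85) (nat_lit 86) = true := by decide +kernel
def p15_16_1_86 : pfC (piC [(nat_lit 41351667), (nat_lit 26310893), (nat_lit 19519284), (nat_lit 13130440)] (nat_lit 10188775)) p15_16_1 (nat_lit 4) (nat_lit 86) (nat_lit 87) = true := by decide +kernel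
def p15_16_1_87 : pfC (piC [(nat_lit 41351667), (nat_lit 26310893), (nat_lit 19519284), (nat_lit 13130440)] (nat_lit 10188775)) p15_16_1 (nat_lit 4) (nat_lit 87) (nat_lit 88) = true := by decide +kernel
def p15_16_1_88 : pfC (piC [(nat_lit 41351667), (nat_lit 26310893), (nat_lit 19519284), (nat_lit 13130440)] (nat_lit 10188775)) p15_16_1 (nat_lit 4) (nat_lit 88) (nat_lit 89) = true := by decide +kernel
def p15_16_1_89 : pfC (piC [(nat_lit 41351667), (nat_lit 26310893), (nat_lit 19519284), (nat_lit 13130440)] (nat_lit 10188775)) p15_16_1 (nat_lit 4) (nat_lit 89) (nat_lit 90) = true := by decide +kernel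
def p15_16_1_90 : pfC (piC [(nat_lit 41351667), (nat_lit 26310893), (nat_lit 19519284), (nat_lit 13130440)] (nat_lit 10188775)) p15_16_1 (nat_lit 4) (nat_lit 90) (nat_lit 91) = true := by decide +kernel
def p15_16_1_91 : pfC (piC [(nat_lit 41351667), (nat_lit 26310893), (nat_lit 19519284), (nat_lit 13130440)] (nat_lit 10188775)) p15_16_1 (nat_lit 4) (nat_lit 91) (nat_lit 92) = true := by decide +kernel
def p15_16_1_92 : pfC (piC [(nat_lit 41351667), (nat_lit 26310893), (nat_lit 19519284), (nat_lit 13130440)] (nat_lit 10188775)) p15_16_1 (nat_lit 4) (nat_lit 92) (nat_lit 93) = true := by decide +kernel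
def p15_16_1_93 : pfC (piC [(nat_lit 41351667), (nat_lit 26310893), (nat_lit 19519284), (nat_lit 13130440)] (nat_lit 10188775)) p15_16_1 (nat_lit 4) (nat_lit 93) (nat_lit 94) = true := by decide +kernel
def p15_16_1_94 : pfC (piC [(nat_lit 41351667), (nat_lit 26310893), (nat_lit 19519284), (nat_lit 13130440)] (nat_lit 10188775)) p15_16_1 (nat_lit 4) (nat_lit 94) (nat_lit 95) = true := by decide +kernel
def p15_16_1_95 : pfC (piC [(nat_lit 41351667), (nat_lit 26310893), (nat_lit 19519284), (nat_lit 13130440)] (nat_lit 10188775)) p15_16_1 (nat_lit 4) (nat_lit 95) (nat_lit 96) = true := by decide +kernel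
def p15_16_1_96 : pfC (piC [(nat_lit 41351667), (nat_lit 26310893), (nat_lit 19519284), (nat_lit 13130440)] (nat_lit 10188775)) p15_16_1 (nat_lit 4) (nat_lit 96) (nat_lit 97) = true := by decide +kernel
theorem p15_16_1_T : PfS (PiF n15_16.reverse (nat_lit 10188775)) p15_16_1 (nat_lit 4) [] 0 :=
  pftab_of (los := [(nat_lit 41351667), (nat_lit 26310893), (nat_lit 19519284), (nat_lit 13130440)]) (by decide +kernel) (hi := (nat_lit 97)) (PfP.trans (PfP.trans (PfP.trans (PfP.trans (PfP.trans (PfP.trans (PfP.trans (PfP.trans (PfP.trans (PfP.trans (PfP.trans (PfP.trans (PfP.trans (PfP.trans (PfP.trans (PfP.trans (PfP.trans (PfP.trans (PfP.trans (PfP.trans (PfP.trans (PfP.trans (PfP.trans (PfP.trans (PfP.trans (PfP.trans (PfP.trans (PfP.trans (PfP.trans (PfP.trans (PfP.trans (PfP.trans (PfP.trans (PfP.trans (PfP.trans (PfP.trans (PfP.trans (PfP.trans (PfP.trans (PfP.trans (PfP.trans (PfP.trans (PfP.trans (PfP.trans (PfP.trans (PfP.trans (PfP.trans (PfP.trans (PfP.trans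 (PfP.trans (PfP.trans (PfP.trans (PfP.trans (PfP.trans (PfP.trans (PfP.trans (PfP.trans (PfP.trans (PfP.trans (PfP.trans (PfP.trans (PfP.trans (PfP.trans (PfP.trans (PfP.trans (PfP.trans (PfP.trans (PfP.trans (PfP.trans (PfP.trans (PfP.trans (PfP.trans (PfP.trans (PfP.trans (PfP.trans (PfP.trans (PfP.trans (PfP.trans (PfP.trans (PfP.trans (PfP.trans (PfP.trans (PfP.trans (PfP.trans (PfP.trans (PfP.trans (PfP.trans (PfP.trans (PfP.trans (PfP.trans (PfP.trans (PfP.trans (PfP.trans (PfP.trans (PfP.trans (PfP.trans (pfC_sound p15_16_1_0) (pfC_sound p15_16_1_1)) (pfC_sound p15_16_1_2)) (pfC_sound p15_16_1_3)) (pfC_sound p15_16_1_4)) (pfC_sound p15_16_1_5))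
 (pfC_sound p15_16_1_6)) (pfC_sound p15_16_1_7)) (pfC_sound p15_16_1_8)) (pfC_sound p15_16_1_9)) (pfC_sound p15_16_1_10)) (pfC_sound p15_16_1_11)) (pfC_sound p15_16_1_12)) (pfC_sound p15_16_1_13)) (pfC_sound p15_16_1_14)) (pfC_sound p15_16_1_15)) (pfC_sound p15_16_1_16)) (pfC_sound p15_16_1_17)) (pfC_sound p15_16_1_18)) (pfC_sound p15_16_1_19)) (pfC_sound p15_16_1_20)) (pfC_sound p15_16_1_21)) (pfC_sound p15_16_1_22)) (pfC_sound p15_16_1_23)) (pfC_sound p15_16_1_24)) (pfC_sound p15_16_1_25)) (pfC_sound p15_16_1_26)) (pfC_sound p15_16_1_27)) (pfC_sound p15_16_1_28)) (pfC_sound p15_16_1_29)) (pfC_sound p15_16_1_30)) (pfC_sound p15_16_1_31)) (pfC_sound p15_16_1_32)) (pfC_sound p15_16_1_33)) (pfC_sound p15_16_1_34)) (pfC_sound p15_16_1_35)) (pfC_sound p15_16_1_36)) (pfC_sound p15_16_1_37)) (pfC_sound p15_16_1_38)) (pfC_sound p15_16_1_39)) (pfC_sound p15_16_1_40)) (pfC_sound p15_16_1_41)) (pfC_sound p15_16_1_42)) (pfC_sound p15_16_1_43)) (pfC_sound p15_16_1_44)) (pfC_sound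 p15_16_1_45)) (pfC_sound p15_16_1_46)) (pfC_sound p15_16_1_47)) (pfC_sound p15_16_1_48)) (pfC_sound p15_16_1_49)) (pfC_sound p15_16_1_50)) (pfC_sound p15_16_1_51)) (pfC_sound p15_16_1_52)) (pfC_sound p15_16_1_53))
 (pfC_sound p15_16_1_54)) (pfC_sound p15_16_1_55)) (pfC_sound p15_16_1_56)) (pfC_sound p15_16_1_57)) (pfC_sound p15_16_1_58)) (pfC_sound p15_16_1_59)) (pfC_sound p15_16_1_60)) (pfC_sound p15_16_1_61)) (pfC_sound p15_16_1_62)) (pfC_sound p15_16_1_63)) (pfC_sound p15_16_1_64)) (pfC_sound p15_16_1_65)) (pfC_sound p15_16_1_66)) (pfC_sound p15_16_1_67)) (pfC_sound p15_16_1_68)) (pfC_sound p15_16_1_69)) (pfC_sound p15_16_1_70)) (pfC_sound p15_16_1_71)) (pfC_sound p15_16_1_72)) (pfC_sound p15_16_1_73)) (pfC_sound p15_16_1_74)) (pfC_sound p15_16_1_75)) (pfC_sound p15_16_1_76)) (pfC_sound p15_16_1_77)) (pfC_sound p15_16_1_78)) (pfC_sound p15_16_1_79)) (pfC_sound p15_16_1_80)) (pfC_sound p15_16_1_81)) (pfC_sound p15_16_1_82)) (pfC_sound p15_16_1_83)) (pfC_sound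 p15_16_1_84)) (pfC_sound p15_16_1_85)) (pfC_sound p15_16_1_86)) (pfC_sound p15_16_1_87)) (pfC_sound p15_16_1_88)) (pfC_sound p15_16_1_89)) (pfC_sound p15_16_1_90)) (pfC_sound p15_16_1_91)) (pfC_sound p15_16_1_92)) (pfC_sound p15_16_1_93)) (pfC_sound p15_16_1_94)) (pfC_sound p15_16_1_95)) (pfC_sound p15_16_1_96)) (by decide +kernel)

def z15_16_1 : zOK yB15_16 (nat_lit 1) (nat_lit 400) (nat_lit 600) (nat_lit 10188775) (nat_lit 6635885) = true := by decide +kernel
def g15_16_1 : gOK yB15_16.x P15_16 (nat_lit 1425) (q15_16 :: r15_16) (nat_lit 1) (nat_lit 400) (nat_lit 2) (nat_lit 600) (nat_lit 11000000) (nat_lit 17850000) (nat_lit 12712500) (nat_lit 12712500) [(nat_lit 800), (nat_lit 1040)] = true := by decide +kernel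
def v15_16_1 : ivC P15_16 s15_16 w15_16 n15_16 (nat_lit 4) (nat_lit 5040) (nat_lit 1) (nat_lit 400) f152_1_400 f160_1_400 (nat_lit 2) (nat_lit 600) f152_1_600 f160_1_600 (nat_lit 10188775) (nat_lit 6635885) p15_16_1 = true := by decide +kernel
def p15_16_2 : PF := (PF.cons (PF.cons (PF.cons (PF.cons (PF.leaf (nat_lit 2753367) (nat_lit 16082479) (nat_lit 51026333) (nat_lit 16082479) [(nat_lit 0), (nat_lit 0), (nat_lit 0), (nat_lit 0)]) (PF.cons (PF.leaf (nat_lit 2884912) (nat_lit 223233) (nat_lit 50818317) (nat_lit 16067262) [(nat_lit 223233), (nat_lit 0), (nat_lit 0), (nat_lit 0)]) (PF.cons (PF.leaf (nat_lit 3041842) (nat_lit 242705) (nat_lit 50574774) (nat_lit 16048627) [(nat_lit 242705), (nat_lit 0), (nat_lit 0), (nat_lit 0)]) (PF.cons (PF.leaf (nat_lit 3218084) (nat_lit 259984) (nat_lit 50302115) (nat_lit 16026745) [(nat_lit 259984), (nat_lit 0), (nat_lit 0), (nat_lit 0)]) (PF.cons (PF.leaf (nat_lit 3410925) (nat_lit 275567) (nat_lit 50004856) (nat_lit 16001688)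 [(nat_lit 275567), (nat_lit 0), (nat_lit 0), (nat_lit 0)]) (PF.cons (PF.leaf (nat_lit 3618291) (nat_lit 289772) (nat_lit 49686460) (nat_lit 15973488) [(nat_lit 289772), (nat_lit 0), (nat_lit 0), (nat_lit 0)]) (PF.cons (PF.leaf (nat_lit 3838452) (nat_lit 302819) (nat_lit 49349731) (nat_lit 15942162) [(nat_lit 302819), (nat_lit 0), (nat_lit 0), (nat_lit 0)]) (PF.cons (PF.leaf (nat_lit 4070189) (nat_lit 314866) (nat_lit 48997021) (nat_lit 15907726) [(nat_lit 314866), (nat_lit 0),
 (nat_lit 0), (nat_lit 0)]) (PF.cons PF.nil (PF.cons PF.nil PF.nil)))))))))) (PF.cons (PF.cons (PF.leaf (nat_lit 3251445) (nat_lit 1147069) (nat_lit 49966851) (nat_lit 15994891) [(nat_lit 0), (nat_lit 1147069), (nat_lit 0), (nat_lit 0)]) (PF.cons (PF.leaf (nat_lit 3423646) (nat_lit 271076) (nat_lit 49694031) (nat_lit 15970613) [(nat_lit 271076), (nat_lit 1173090), (nat_lit 0), (nat_lit 0)]) (PF.cons (PF.leaf (nat_lit 3614782) (nat_lit 285967) (nat_lit 49395282) (nat_lit 15942873) [(nat_lit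 285967), (nat_lit 1198722), (nat_lit 0), (nat_lit 0)]) (PF.cons (PF.leaf (nat_lit 3821027) (nat_lit 299480) (nat_lit 49075005) (nat_lit 15911817) [(nat_lit 299480), (nat_lit 1223547), (nat_lit 0), (nat_lit 0)]) (PF.cons (PF.leaf (nat_lit 4040325) (nat_lit 311860) (nat_lit 48736485) (nat_lit 15877534) [(nat_lit 311860), (nat_lit 1247349), (nat_lit 0), (nat_lit 0)]) (PF.cons (PF.leaf (nat_lit 4271110) (nat_lit 323273) (nat_lit 48382330) (nat_lit 15840092) [(nat_lit 323273), (nat_lit 1270021), (nat_lit 0), (nat_lit 0)]) (PF.cons (PF.leaf (nat_lit 4512104) (nat_lit 333840) (nat_lit 48014702) (nat_lit 15799550) [(nat_lit 333840), (nat_lit 1291513), (nat_lit 0), (nat_lit 0)]) (PF.cons PF.nil (PF.cons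
 PF.nil PF.nil))))))))) (PF.cons (PF.cons (PF.leaf (nat_lit 3822609) (nat_lit 1230428) (nat_lit 48770507) (nat_lit 15877449) [(nat_lit 0), (nat_lit 1230428), (nat_lit 0), (nat_lit 0)]) (PF.cons (PF.leaf (nat_lit 4025078) (nat_lit 307813) (nat_lit 48452187) (nat_lit 15843969) [(nat_lit 307813), (nat_lit 1252421), (nat_lit 0), (nat_lit 0)]) (PF.cons (PF.leaf (nat_lit 4242311) (nat_lit 319719) (nat_lit 48114859) (nat_lit 15807097) [(nat_lit 319719), (nat_lit 1273708), (nat_lit 0), (nat_lit 0)]) (PF.cons (PF.leaf (nat_lit 4471340) (nat_lit 330644) (nat_lit 47761674) (nat_lit 15766979) [(nat_lit 330644), (nat_lit 1294113), (nat_lit 0), (nat_lit 0)]) (PF.cons (PF.leaf (nat_lit 4710719) (nat_lit 340727) (nat_lit 47395095) (nat_lit 15723727) [(nat_lit 340727), (nat_lit 1313539), (nat_lit 0), (nat_lit 0)]) (PF.cons PF.nil (PF.cons PF.nil PF.nil))))))) (PF.cons (PF.cons (PF.leaf (nat_lit 4446130) (nat_lit 1297414) (nat_lit 47485631) (nat_lit 15730938) [(nat_lit 0), (nat_lit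 1297414), (nat_lit 0), (nat_lit 0)]) (PF.cons (PF.leaf (nat_lit 4671520) (nat_lit 337049) (nat_lit 47135959) (nat_lit 15688537) [(nat_lit 337049), (nat_lit 1315755), (nat_lit 0), (nat_lit 0)]) (PF.cons (PF.leaf (nat_lit
 4908464) (nat_lit 346757) (nat_lit 46772467) (nat_lit 15642925) [(nat_lit 346757), (nat_lit 1333301), (nat_lit 0), (nat_lit 0)]) (PF.cons (PF.leaf (nat_lit 5154731) (nat_lit 355714) (nat_lit 46397492) (nat_lit 15594255) [(nat_lit 355714), (nat_lit 1349973), (nat_lit 0), (nat_lit 0)]) (PF.cons PF.nil PF.nil))))) (PF.cons (PF.cons (PF.leaf (nat_lit 5106637) (nat_lit 1351036) (nat_lit 46147366) (nat_lit 15557301) [(nat_lit 0), (nat_lit 1351036), (nat_lit 0), (nat_lit 0)]) (PF.cons (PF.leaf (nat_lit 5349215) (nat_lit 360629) (nat_lit 45777129) (nat_lit 15506606) [(nat_lit 360629), (nat_lit 1366111), (nat_lit 0), (nat_lit 0)]) (PF.cons PF.nil (PF.cons PF.nil PF.nil)))) (PF.cons (PF.cons (PF.leaf (nat_lit 5792086) (nat_lit 1393437) (nat_lit 44782297)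 (nat_lit 15359326) [(nat_lit 0), (nat_lit 1393437), (nat_lit 0), (nat_lit 0)]) (PF.cons PF.nil PF.nil)) (PF.cons PF.nil (PF.cons PF.nil PF.nil)))))))) (PF.cons (PF.cons (PF.cons (PF.leaf (nat_lit 3782167) (nat_lit 3070804) (nat_lit 48236230) (nat_lit 15801777) [(nat_lit 0), (nat_lit 0), (nat_lit 3070804), (nat_lit 0)]) (PF.cons (PF.leaf (nat_lit 3962807) (nat_lit 291105) (nat_lit 47954555) (nat_lit 15770540) [(nat_lit 291105), (nat_lit 0),
 (nat_lit 3092610), (nat_lit 0)]) (PF.cons (PF.leaf (nat_lit 4161641) (nat_lit 305136) (nat_lit 47648414) (nat_lit 15735477) [(nat_lit 305136), (nat_lit 0), (nat_lit 3114647), (nat_lit 0)]) (PF.cons (PF.leaf (nat_lit 4374576) (nat_lit 317687) (nat_lit 47322467) (nat_lit 15696893) [(nat_lit 317687), (nat_lit 0), (nat_lit 3136389), (nat_lit 0)]) (PF.cons (PF.leaf (nat_lit 4599672) (nat_lit 329054) (nat_lit 46980113) (nat_lit 15654997) [(nat_lit 329054), (nat_lit 0), (nat_lit 3157485), (nat_lit 0)]) (PF.cons (PF.leaf (nat_lit 4835253)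 (nat_lit 339434) (nat_lit 46623996) (nat_lit 15609948) [(nat_lit 339434), (nat_lit 0), (nat_lit 3177698), (nat_lit 0)]) (PF.cons PF.nil (PF.cons PF.nil (PF.cons PF.nil PF.nil))))))))) (PF.cons (PF.cons (PF.leaf (nat_lit 4366379) (nat_lit 1281852) (nat_lit 47024395) (nat_lit 15656983) [(nat_lit 0), (nat_lit 1281852), (nat_lit 3145581), (nat_lit 0)]) (PF.cons (PF.leaf (nat_lit 4574577) (nat_lit 324096) (nat_lit 46703251) (nat_lit 15616575) [(nat_lit 324096), (nat_lit 1300404), (nat_lit 3164484), (nat_lit 0)]) (PF.cons (PF.leaf (nat_lit 4796574) (nat_lit 335123) (nat_lit 46364712) (nat_lit 15572680) [(nat_lit 335123), (nat_lit 1318260), (nat_lit 3182913),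
 (nat_lit 0)]) (PF.cons (PF.leaf (nat_lit 5029574) (nat_lit 345134) (nat_lit 46011976) (nat_lit 15525546) [(nat_lit 345134), (nat_lit 1335285), (nat_lit 3200601), (nat_lit 0)]) (PF.cons (PF.leaf (nat_lit 5271995) (nat_lit 354291) (nat_lit 45647502) (nat_lit 15475362) [(nat_lit 354291), (nat_lit 1351411), (nat_lit 3217371), (nat_lit 0)]) (PF.cons PF.nil (PF.cons PF.nil PF.nil))))))) (PF.cons (PF.cons (PF.leaf (nat_lit 4995118) (nat_lit 1336578) (nat_lit 45745162) (nat_lit 15485473) [(nat_lit 0), (nat_lit 1336578), (nat_lit 3205019), (nat_lit 0)]) (PF.cons (PF.leaf (nat_lit 5223688) (nat_lit 350016) (nat_lit 45397978) (nat_lit 15436667) [(nat_lit 350016), (nat_lit 1351899), (nat_lit 3220351), (nat_lit 0)]) (PF.cons (PF.leaf (nat_lit 5462975) (nat_lit 358891) (nat_lit 45038469) (nat_lit 15384724) [(nat_lit 358891), (nat_lit 1366471), (nat_lit 3234893), (nat_lit 0)]) (PF.cons PF.nil (PF.cons PF.nil PF.nil))))) (PF.cons (PF.cons (PF.leaf (nat_lit 5654315) (nat_lit 1379891)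 (nat_lit 44429375) (nat_lit 15290102) [(nat_lit 0), (nat_lit 1379891), (nat_lit 3249660), (nat_lit 0)]) (PF.cons (PF.leaf (nat_lit 5897901) (nat_lit 370683) (nat_lit 44066031) (nat_lit 15233810) [(nat_lit 370683),
 (nat_lit 1392326), (nat_lit 3261307), (nat_lit 0)]) (PF.cons PF.nil (PF.cons PF.nil PF.nil)))) (PF.cons (PF.cons (PF.leaf (nat_lit 6333163) (nat_lit 1413558) (nat_lit 43099812) (nat_lit 15074079) [(nat_lit 0), (nat_lit 1413558), (nat_lit 3280686), (nat_lit 0)]) (PF.cons PF.nil PF.nil)) (PF.cons PF.nil PF.nil)))))) (PF.cons (PF.cons (PF.cons (PF.leaf (nat_lit 4900553) (nat_lit 3192079) (nat_lit 45316052) (nat_lit 15408601) [(nat_lit 0), (nat_lit 0), (nat_lit 3192079), (nat_lit 0)]) (PF.cons (PF.leaf (nat_lit 5112578) (nat_lit 337058) (nat_lit 44996462) (nat_lit 15362448) [(nat_lit 337058), (nat_lit 0), (nat_lit 3206421), (nat_lit 0)]) (PF.cons (PF.leaf (nat_lit 5337613) (nat_lit 347298) (nat_lit 44660943) (nat_lit 15312795) [(nat_lit 347298), (nat_lit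 0), (nat_lit 3220238), (nat_lit 0)]) (PF.cons (PF.leaf (nat_lit 5572827) (nat_lit 356501) (nat_lit 44312683) (nat_lit 15259973) [(nat_lit 356501), (nat_lit 0), (nat_lit 3233325), (nat_lit 0)]) (PF.cons (PF.leaf (nat_lit 5816711) (nat_lit 364844) (nat_lit 43954097) (nat_lit 15204236) [(nat_lit 364844), (nat_lit 0), (nat_lit 3245549), (nat_lit 0)]) PF.nil))))) (PF.cons (PF.cons (PF.leaf (nat_lit 5530120) (nat_lit 1365203) (nat_lit
 44056821) (nat_lit 15217018) [(nat_lit 0), (nat_lit 1365203), (nat_lit 3234884), (nat_lit 0)]) (PF.cons (PF.leaf (nat_lit 5760370) (nat_lit 360127) (nat_lit 43715538) (nat_lit 15163092) [(nat_lit 360127), (nat_lit 1377993), (nat_lit 3246030), (nat_lit 0)]) (PF.cons (PF.leaf (nat_lit 6000588) (nat_lit 368265) (nat_lit 43363227) (nat_lit 15106149) [(nat_lit 368265), (nat_lit 1390070), (nat_lit 3256417), (nat_lit 0)]) (PF.cons PF.nil PF.nil)))) (PF.cons (PF.cons (PF.leaf (nat_lit 6184774) (nat_lit 1399971) (nat_lit 42773995) (nat_lit 15004829)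 [(nat_lit 0), (nat_lit 1399971), (nat_lit 3265021), (nat_lit 0)]) (PF.cons (PF.leaf (nat_lit 6428195) (nat_lit 378289) (nat_lit 42420067) (nat_lit 14944233) [(nat_lit 378289), (nat_lit 1410181), (nat_lit 3272929), (nat_lit 0)]) PF.nil)) (PF.cons PF.nil (PF.cons PF.nil PF.nil))))) (PF.cons (PF.cons (PF.cons (PF.leaf (nat_lit 6049787) (nat_lit 3249111) (nat_lit 42429693) (nat_lit 14931786) [(nat_lit 0), (nat_lit 0), (nat_lit 3249111), (nat_lit 0)]) (PF.cons (PF.leaf (nat_lit 6280488) (nat_lit 367872) (nat_lit 42096710) (nat_lit 14873902) [(nat_lit 367872), (nat_lit 0), (nat_lit 3256775), (nat_lit 0)]) (PF.cons (PF.leaf (nat_lit 6520527) (nat_lit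
 375350) (nat_lit 41753827) (nat_lit 14813145) [(nat_lit 375350), (nat_lit 0), (nat_lit 3263712), (nat_lit 0)]) (PF.cons PF.nil PF.nil)))) (PF.cons (PF.cons (PF.leaf (nat_lit 6697423) (nat_lit 1412900) (nat_lit 41186854) (nat_lit 14707098) [(nat_lit 0), (nat_lit 1412900), (nat_lit 3267320), (nat_lit 0)]) (PF.cons PF.nil PF.nil)) (PF.cons PF.nil PF.nil))) (PF.cons (PF.cons (PF.cons (PF.leaf (nat_lit 7192111) (nat_lit 3259128) (nat_lit 39670728) (nat_lit 14401570) [(nat_lit 0), (nat_lit 0), (nat_lit 3259128), (nat_lit 0)]) (PF.cons PF.nil PF.nil)) (PF.cons PF.nil PF.nil)) (PF.cons PF.nil PF.nil)))))) (PF.cons (PF.cons (PF.cons (PF.cons (PF.leaf (nat_lit 4695489) (nat_lit 8382475) (nat_lit 43677594) (nat_lit 15048743) [(nat_lit 0), (nat_lit 0), (nat_lit 0), (nat_lit 8382475)]) (PF.cons (PF.leaf (nat_lit 4875360) (nat_lit 300466) (nat_lit 43421365) (nat_lit 15009515) [(nat_lit 300466), (nat_lit 0), (nat_lit 0), (nat_lit 8377465)]) (PF.cons (PF.leaf (nat_lit 5072340)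 (nat_lit 313768) (nat_lit 43143920) (nat_lit 14966219) [(nat_lit 313768), (nat_lit 0), (nat_lit 0), (nat_lit 8371135)]) (PF.cons (PF.leaf (nat_lit 5282315) (nat_lit 325468) (nat_lit 42849612) (nat_lit 14919372) [(nat_lit
 325468), (nat_lit 0), (nat_lit 0), (nat_lit 8363423)]) (PF.cons (PF.leaf (nat_lit 5503283) (nat_lit 335897) (nat_lit 42541595) (nat_lit 14869342) [(nat_lit 335897), (nat_lit 0), (nat_lit 0), (nat_lit 8354285)]) (PF.cons (PF.leaf (nat_lit 5733583) (nat_lit 345282) (nat_lit 42222294) (nat_lit 14816413) [(nat_lit 345282), (nat_lit 0), (nat_lit 0), (nat_lit 8343690)]) (PF.cons (PF.leaf (nat_lit 5971959) (nat_lit 353787) (nat_lit 41893653) (nat_lit 14760813) [(nat_lit 353787), (nat_lit 0), (nat_lit 0), (nat_lit 8331623)]) (PF.cons PF.nil (PF.cons PF.nil PF.nil))))))))) (PF.cons (PF.cons (PF.leaf (nat_lit 5263459) (nat_lit 1297926) (nat_lit 42586277) (nat_lit 14873561) [(nat_lit 0), (nat_lit 1297926), (nat_lit 0), (nat_lit 8351047)]) (PF.cons (PF.leaf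 (nat_lit 5467851) (nat_lit 330096) (nat_lit 42297977) (nat_lit 14825956) [(nat_lit 330096), (nat_lit 1313053), (nat_lit 0), (nat_lit 8341728)]) (PF.cons (PF.leaf (nat_lit 5684918) (nat_lit 340240) (nat_lit 41994995) (nat_lit 14774984) [(nat_lit 340240), (nat_lit 1327400), (nat_lit 0), (nat_lit 8330951)]) (PF.cons (PF.leaf (nat_lit 5911863) (nat_lit 349316) (nat_lit 41680248) (nat_lit 14721018) [(nat_lit 349316), (nat_lit 1340885), (nat_lit
 0), (nat_lit 8318712)]) (PF.cons (PF.leaf (nat_lit 6147194) (nat_lit 357504) (nat_lit 41355952) (nat_lit 14664345) [(nat_lit 357504), (nat_lit 1353482), (nat_lit 0), (nat_lit 8305016)]) (PF.cons PF.nil (PF.cons PF.nil PF.nil))))))) (PF.cons (PF.cons (PF.leaf (nat_lit 5867862) (nat_lit 1339940) (nat_lit 41446997) (nat_lit 14677331) [(nat_lit 0), (nat_lit 1339940), (nat_lit 0), (nat_lit 8304602)]) (PF.cons (PF.leaf (nat_lit 6089844) (nat_lit 352640) (nat_lit 41138515) (nat_lit 14622721) [(nat_lit 352640), (nat_lit 1352008), (nat_lit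 0), (nat_lit 8290919)]) (PF.cons (PF.leaf (nat_lit 6321499) (nat_lit 360606) (nat_lit 40819874) (nat_lit 14565299) [(nat_lit 360606), (nat_lit 1363325), (nat_lit 0), (nat_lit 8275775)]) (PF.cons (PF.leaf (nat_lit 6560666) (nat_lit 367797) (nat_lit 40493125) (nat_lit 14505357) [(nat_lit 367797), (nat_lit 1373867), (nat_lit 0), (nat_lit 8259200)]) (PF.cons PF.nil PF.nil))))) (PF.cons (PF.cons (PF.leaf (nat_lit 6496096) (nat_lit 1371893) (nat_lit 40285371) (nat_lit 14463749) [(nat_lit 0), (nat_lit 1371893), (nat_lit 0), (nat_lit 8244012)]) (PF.cons (PF.leaf (nat_lit 6730704) (nat_lit 370134) (nat_lit 39965087) (nat_lit 14403323) [(nat_lit 370134), (nat_lit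
 1381361), (nat_lit 0), (nat_lit 8226183)]) (PF.cons PF.nil (PF.cons PF.nil PF.nil)))) (PF.cons (PF.cons (PF.leaf (nat_lit 7138881) (nat_lit 1395638) (nat_lit 39119473) (nat_lit 14236139) [(nat_lit 0), (nat_lit 1395638), (nat_lit 0), (nat_lit 8170646)]) (PF.cons PF.nil PF.nil)) (PF.cons PF.nil PF.nil)))))) (PF.cons (PF.cons (PF.cons (PF.leaf (nat_lit 5758395) (nat_lit 3156615) (nat_lit 41083458) (nat_lit 14599220) [(nat_lit 0), (nat_lit 0), (nat_lit 3156615), (nat_lit 8269519)]) (PF.cons (PF.leaf (nat_lit 5964851) (nat_lit 339363) (nat_lit 40799480) (nat_lit 14548161) [(nat_lit 339363), (nat_lit 0), (nat_lit 3165412), (nat_lit 8256396)]) (PF.cons (PF.leaf (nat_lit 6183317) (nat_lit 348780) (nat_lit 40502042) (nat_lit 14493808) [(nat_lit 348780), (nat_lit 0), (nat_lit 3173626), (nat_lit 8241773)]) (PF.cons (PF.leaf (nat_lit 6410990) (nat_lit 357130) (nat_lit 40194002) (nat_lit 14436585) [(nat_lit 357130), (nat_lit 0), (nat_lit 3181133), (nat_lit 8225701)]) (PF.cons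 (PF.leaf (nat_lit 6646393) (nat_lit 364603) (nat_lit 39877507) (nat_lit 14376813) [(nat_lit 364603), (nat_lit 0), (nat_lit 3187852), (nat_lit 8208224)]) PF.nil))))) (PF.cons (PF.cons (PF.leaf (nat_lit 6360167) (nat_lit
 1356344) (nat_lit 39971807) (nat_lit 14391844) [(nat_lit 0), (nat_lit 1356344), (nat_lit 3179352), (nat_lit 8209464)]) (PF.cons (PF.leaf (nat_lit 6582494) (nat_lit 359465) (nat_lit 39670862) (nat_lit 14334391) [(nat_lit 359465), (nat_lit 1366384), (nat_lit 3185420), (nat_lit 8192289)]) (PF.cons (PF.leaf (nat_lit 6813894) (nat_lit 366785) (nat_lit 39360770) (nat_lit 14274268) [(nat_lit 366785), (nat_lit 1375724), (nat_lit 3190783), (nat_lit 8173694)]) (PF.cons PF.nil PF.nil)))) (PF.cons (PF.cons (PF.leaf (nat_lit 6981783) (nat_lit 1381681) (nat_lit 38846559) (nat_lit 14169742) [(nat_lit 0), (nat_lit 1381681), (nat_lit 3192069), (nat_lit 8137076)]) (PF.cons (PF.leaf (nat_lit 7215302) (nat_lit 374888) (nat_lit 38536278) (nat_lit 14107145) [(nat_lit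 374888), (nat_lit 1389410), (nat_lit 3195497), (nat_lit 8116182)]) PF.nil)) (PF.cons PF.nil (PF.cons PF.nil PF.nil))))) (PF.cons (PF.cons (PF.cons (PF.leaf (nat_lit 6837760) (nat_lit 3174819) (nat_lit 38557351) (nat_lit 14099678) [(nat_lit 0), (nat_lit 0), (nat_lit 3174819), (nat_lit 8102143)]) (PF.cons (PF.leaf (nat_lit 7059612) (nat_lit 364509) (nat_lit 38265259) (nat_lit 14040186) [(nat_lit 364509), (nat_lit 0), (nat_lit 3178360),
 (nat_lit 8082136)]) (PF.cons (PF.leaf (nat_lit 7290008) (nat_lit 371256) (nat_lit 37964900) (nat_lit 13978168) [(nat_lit 371256), (nat_lit 0), (nat_lit 3181234), (nat_lit 8060762)]) (PF.cons PF.nil PF.nil)))) (PF.cons (PF.cons (PF.leaf (nat_lit 7451223) (nat_lit 1386389) (nat_lit 37471912) (nat_lit 13871924) [(nat_lit 0), (nat_lit 1386389), (nat_lit 3179089), (nat_lit 8020406)]) (PF.cons PF.nil PF.nil)) (PF.cons PF.nil PF.nil))) (PF.cons (PF.cons (PF.cons (PF.leaf (nat_lit 7904627) (nat_lit 3159207) (nat_lit 36161490) (nat_lit 13573112)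 [(nat_lit 0), (nat_lit 0), (nat_lit 3159207), (nat_lit 7896585)]) (PF.cons PF.nil PF.nil)) (PF.cons PF.nil PF.nil)) (PF.cons PF.nil PF.nil))))) (PF.cons (PF.cons (PF.cons (PF.cons (PF.leaf (nat_lit 6523503) (nat_lit 7932709) (nat_lit 37447182) (nat_lit 13796212) [(nat_lit 0), (nat_lit 0), (nat_lit 0), (nat_lit 7932709)]) (PF.cons (PF.leaf (nat_lit 6723470) (nat_lit 337199) (nat_lit 37196400) (nat_lit 13744125) [(nat_lit 337199), (nat_lit 0), (nat_lit 0), (nat_lit 7915543)]) (PF.cons (PF.leaf (nat_lit 6934620) (nat_lit 345914) (nat_lit 36934135) (nat_lit 13688998) [(nat_lit 345914), (nat_lit 0), (nat_lit 0), (nat_lit 7896924)]) (PF.cons (PF.leaf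
 (nat_lit 7154188) (nat_lit 353556) (nat_lit 36662915) (nat_lit 13631290) [(nat_lit 353556), (nat_lit 0), (nat_lit 0), (nat_lit 7876968)]) (PF.cons PF.nil PF.nil))))) (PF.cons (PF.cons (PF.leaf (nat_lit 7097778) (nat_lit 1333331) (nat_lit 36470432) (nat_lit 13587401) [(nat_lit 0), (nat_lit 1333331), (nat_lit 0), (nat_lit 7858823)]) (PF.cons (PF.leaf (nat_lit 7311847) (nat_lit 354980) (nat_lit 36205933) (nat_lit 13529980) [(nat_lit 354980), (nat_lit 1341377), (nat_lit 0), (nat_lit 7838270)]) (PF.cons (PF.leaf (nat_lit 7534271) (nat_lit 361640) (nat_lit 35933713) (nat_lit 13470193) [(nat_lit 361640), (nat_lit 1348748), (nat_lit 0), (nat_lit 7816438)]) (PF.cons PF.nil PF.nil)))) (PF.cons (PF.cons (PF.leaf (nat_lit 7688310) (nat_lit 1352056) (nat_lit 35485482) (nat_lit 13367828) [(nat_lit 0), (nat_lit 1352056), (nat_lit 0), (nat_lit 7775694)]) (PF.cons PF.nil PF.nil)) (PF.cons PF.nil (PF.cons PF.nil PF.nil))))) (PF.cons (PF.cons (PF.cons (PF.leaf (nat_lit 7539227)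 (nat_lit 3080990) (nat_lit 35241837) (nat_lit 13302851) [(nat_lit 0), (nat_lit 0), (nat_lit 3080990), (nat_lit 7741566)]) (PF.cons (PF.leaf (nat_lit 7752269) (nat_lit 358194) (nat_lit 34985772) (nat_lit 13244535) [(nat_lit
 358194), (nat_lit 0), (nat_lit 3081865), (nat_lit 7719222)]) (PF.cons (PF.leaf (nat_lit 7973251) (nat_lit 364350) (nat_lit 34722683) (nat_lit 13183986) [(nat_lit 364350), (nat_lit 0), (nat_lit 3082130), (nat_lit 7695655)]) (PF.cons PF.nil PF.nil)))) (PF.cons (PF.cons (PF.leaf (nat_lit 8121296) (nat_lit 1351533) (nat_lit 34293550) (nat_lit 13081591) [(nat_lit 0), (nat_lit 1351533), (nat_lit 3076505), (nat_lit 7652815)]) (PF.cons PF.nil PF.nil)) (PF.cons PF.nil PF.nil))) (PF.cons (PF.cons (PF.cons (PF.leaf (nat_lit 8540060) (nat_lit 3050084) (nat_lit 33157682) (nat_lit 12797961) [(nat_lit 0), (nat_lit 0), (nat_lit 3050084), (nat_lit 7526499)]) (PF.cons PF.nil PF.nil)) (PF.cons PF.nil PF.nil)) PF.nil))) (PF.cons (PF.cons (PF.cons (PF.cons (PF.leaf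 (nat_lit 8170930) (nat_lit 7386263) (nat_lit 32391711) (nat_lit 12558311) [(nat_lit 0), (nat_lit 0), (nat_lit 0), (nat_lit 7386263)]) (PF.cons (PF.leaf (nat_lit 8375512) (nat_lit 350240) (nat_lit 32166659) (nat_lit 12502561) [(nat_lit 350240), (nat_lit 0), (nat_lit 0), (nat_lit 7363117)]) (PF.cons PF.nil PF.nil))) (PF.cons (PF.cons (PF.leaf (nat_lit 8724458) (nat_lit 1312622) (nat_lit 31560632) (nat_lit 12348143) [(nat_lit 0), (nat_lit
 1312622), (nat_lit 0), (nat_lit 7295804)]) PF.nil) PF.nil)) (PF.cons PF.nil PF.nil)) (PF.cons PF.nil (PF.cons PF.nil (PF.cons PF.nil (PF.cons PF.nil PF.nil))))))))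

def p15_16_2_0 : pfC (piC [(nat_lit 41351667), (nat_lit 26310893), (nat_lit 19519284), (nat_lit 13130440)] (nat_lit 6635885)) p15_16_2 (nat_lit 4) (nat_lit 0) (nat_lit 1) = true := by decide +kernel
def p15_16_2_1 : pfC (piC [(nat_lit 41351667), (nat_lit 26310893), (nat_lit 19519284), (nat_lit 13130440)] (nat_lit 6635885)) p15_16_2 (nat_lit 4) (nat_lit 1) (nat_lit 2) = true := by decide +kernel
def p15_16_2_2 : pfC (piC [(nat_lit 41351667), (nat_lit 26310893), (nat_lit 19519284), (nat_lit 13130440)] (nat_lit 6635885)) p15_16_2 (nat_lit 4) (nat_lit 2) (nat_lit 3) = true := by decide +kernel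
def p15_16_2_3 : pfC (piC [(nat_lit 41351667), (nat_lit 26310893), (nat_lit 19519284), (nat_lit 13130440)] (nat_lit 6635885)) p15_16_2 (nat_lit 4) (nat_lit 3) (nat_lit 4) = true := by decide +kernel
def p15_16_2_4 : pfC (piC [(nat_lit 41351667), (nat_lit 26310893), (nat_lit 19519284), (nat_lit 13130440)] (nat_lit 6635885)) p15_16_2 (nat_lit 4) (nat_lit 4) (nat_lit 5) = true := by decide +kernel
def p15_16_2_5 : pfC (piC [(nat_lit 41351667), (nat_lit 26310893), (nat_lit 19519284), (nat_lit 13130440)] (nat_lit 6635885)) p15_16_2 (nat_lit 4) (nat_lit 5) (nat_lit 6) = true := by decide +kernel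
def p15_16_2_6 : pfC (piC [(nat_lit 41351667), (nat_lit 26310893), (nat_lit 19519284), (nat_lit 13130440)] (nat_lit 6635885)) p15_16_2 (nat_lit 4) (nat_lit 6) (nat_lit 7) = true := by decide +kernel
def p15_16_2_7 : pfC (piC [(nat_lit 41351667), (nat_lit 26310893), (nat_lit 19519284), (nat_lit 13130440)] (nat_lit 6635885)) p15_16_2 (nat_lit 4) (nat_lit 7) (nat_lit 8) = true := by decide +kernel
def p15_16_2_8 : pfC (piC [(nat_lit 41351667), (nat_lit 26310893), (nat_lit 19519284), (nat_lit 13130440)] (nat_lit 6635885)) p15_16_2 (nat_lit 4) (nat_lit 8) (nat_lit 9) = true := by decide +kernel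
def p15_16_2_9 : pfC (piC [(nat_lit 41351667), (nat_lit 26310893), (nat_lit 19519284), (nat_lit 13130440)] (nat_lit 6635885)) p15_16_2 (nat_lit 4) (nat_lit 9) (nat_lit 10) = true := by decide +kernel
def p15_16_2_10 : pfC (piC [(nat_lit 41351667), (nat_lit 26310893), (nat_lit 19519284), (nat_lit 13130440)] (nat_lit 6635885)) p15_16_2 (nat_lit 4) (nat_lit 10) (nat_lit 11) = true := by decide +kernel
def p15_16_2_11 : pfC (piC [(nat_lit 41351667), (nat_lit 26310893), (nat_lit 19519284), (nat_lit 13130440)] (nat_lit 6635885)) p15_16_2 (nat_lit 4) (nat_lit 11) (nat_lit 12) = true := by decide +kernel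
def p15_16_2_12 : pfC (piC [(nat_lit 41351667), (nat_lit 26310893), (nat_lit 19519284), (nat_lit 13130440)] (nat_lit 6635885)) p15_16_2 (nat_lit 4) (nat_lit 12) (nat_lit 13) = true := by decide +kernel
def p15_16_2_13 : pfC (piC [(nat_lit 41351667), (nat_lit 26310893), (nat_lit 19519284), (nat_lit 13130440)] (nat_lit 6635885)) p15_16_2 (nat_lit 4) (nat_lit 13) (nat_lit 14) = true := by decide +kernel
def p15_16_2_14 : pfC (piC [(nat_lit 41351667), (nat_lit 26310893), (nat_lit 19519284), (nat_lit 13130440)] (nat_lit 6635885)) p15_16_2 (nat_lit 4) (nat_lit 14) (nat_lit 15) = true := by decide +kernel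
def p15_16_2_15 : pfC (piC [(nat_lit 41351667), (nat_lit 26310893), (nat_lit 19519284), (nat_lit 13130440)] (nat_lit 6635885)) p15_16_2 (nat_lit 4) (nat_lit 15) (nat_lit 16) = true := by decide +kernel
def p15_16_2_16 : pfC (piC [(nat_lit 41351667), (nat_lit 26310893), (nat_lit 19519284), (nat_lit 13130440)] (nat_lit 6635885)) p15_16_2 (nat_lit 4) (nat_lit 16) (nat_lit 17) = true := by decide +kernel
def p15_16_2_17 : pfC (piC [(nat_lit 41351667), (nat_lit 26310893), (nat_lit 19519284), (nat_lit 13130440)] (nat_lit 6635885)) p15_16_2 (nat_lit 4) (nat_lit 17) (nat_lit 18) = true := by decide +kernel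
def p15_16_2_18 : pfC (piC [(nat_lit 41351667), (nat_lit 26310893), (nat_lit 19519284), (nat_lit 13130440)] (nat_lit 6635885)) p15_16_2 (nat_lit 4) (nat_lit 18) (nat_lit 19) = true := by decide +kernel
def p15_16_2_19 : pfC (piC [(nat_lit 41351667), (nat_lit 26310893), (nat_lit 19519284), (nat_lit 13130440)] (nat_lit 6635885)) p15_16_2 (nat_lit 4) (nat_lit 19) (nat_lit 20) = true := by decide +kernel
def p15_16_2_20 : pfC (piC [(nat_lit 41351667), (nat_lit 26310893), (nat_lit 19519284), (nat_lit 13130440)] (nat_lit 6635885)) p15_16_2 (nat_lit 4) (nat_lit 20) (nat_lit 21) = true := by decide +kernel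
def p15_16_2_21 : pfC (piC [(nat_lit 41351667), (nat_lit 26310893), (nat_lit 19519284), (nat_lit 13130440)] (nat_lit 6635885)) p15_16_2 (nat_lit 4) (nat_lit 21) (nat_lit 22) = true := by decide +kernel
def p15_16_2_22 : pfC (piC [(nat_lit 41351667), (nat_lit 26310893), (nat_lit 19519284), (nat_lit 13130440)] (nat_lit 6635885)) p15_16_2 (nat_lit 4) (nat_lit 22) (nat_lit 23) = true := by decide +kernel
def p15_16_2_23 : pfC (piC [(nat_lit 41351667), (nat_lit 26310893), (nat_lit 19519284), (nat_lit 13130440)] (nat_lit 6635885)) p15_16_2 (nat_lit 4) (nat_lit 23) (nat_lit 24) = true := by decide +kernel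
def p15_16_2_24 : pfC (piC [(nat_lit 41351667), (nat_lit 26310893), (nat_lit 19519284), (nat_lit 13130440)] (nat_lit 6635885)) p15_16_2 (nat_lit 4) (nat_lit 24) (nat_lit 25) = true := by decide +kernel
def p15_16_2_25 : pfC (piC [(nat_lit 41351667), (nat_lit 26310893), (nat_lit 19519284), (nat_lit 13130440)] (nat_lit 6635885)) p15_16_2 (nat_lit 4) (nat_lit 25) (nat_lit 26) = true := by decide +kernel
def p15_16_2_26 : pfC (piC [(nat_lit 41351667), (nat_lit 26310893), (nat_lit 19519284), (nat_lit 13130440)] (nat_lit 6635885)) p15_16_2 (nat_lit 4) (nat_lit 26) (nat_lit 27) = true := by decide +kernel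
def p15_16_2_27 : pfC (piC [(nat_lit 41351667), (nat_lit 26310893), (nat_lit 19519284), (nat_lit 13130440)] (nat_lit 6635885)) p15_16_2 (nat_lit 4) (nat_lit 27) (nat_lit 28) = true := by decide +kernel
def p15_16_2_28 : pfC (piC [(nat_lit 41351667), (nat_lit 26310893), (nat_lit 19519284), (nat_lit 13130440)] (nat_lit 6635885)) p15_16_2 (nat_lit 4) (nat_lit 28) (nat_lit 29) = true := by decide +kernel
def p15_16_2_29 : pfC (piC [(nat_lit 41351667), (nat_lit 26310893), (nat_lit 19519284), (nat_lit 13130440)] (nat_lit 6635885)) p15_16_2 (nat_lit 4) (nat_lit 29) (nat_lit 30) = true := by decide +kernel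
def p15_16_2_30 : pfC (piC [(nat_lit 41351667), (nat_lit 26310893), (nat_lit 19519284), (nat_lit 13130440)] (nat_lit 6635885)) p15_16_2 (nat_lit 4) (nat_lit 30) (nat_lit 31) = true := by decide +kernel
def p15_16_2_31 : pfC (piC [(nat_lit 41351667), (nat_lit 26310893), (nat_lit 19519284), (nat_lit 13130440)] (nat_lit 6635885)) p15_16_2 (nat_lit 4) (nat_lit 31) (nat_lit 32) = true := by decide +kernel
def p15_16_2_32 : pfC (piC [(nat_lit 41351667), (nat_lit 26310893), (nat_lit 19519284), (nat_lit 13130440)] (nat_lit 6635885)) p15_16_2 (nat_lit 4) (nat_lit 32) (nat_lit 33) = true := by decide +kernel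
def p15_16_2_33 : pfC (piC [(nat_lit 41351667), (nat_lit 26310893), (nat_lit 19519284), (nat_lit 13130440)] (nat_lit 6635885)) p15_16_2 (nat_lit 4) (nat_lit 33) (nat_lit 34) = true := by decide +kernel
def p15_16_2_34 : pfC (piC [(nat_lit 41351667), (nat_lit 26310893), (nat_lit 19519284), (nat_lit 13130440)] (nat_lit 6635885)) p15_16_2 (nat_lit 4) (nat_lit 34) (nat_lit 35) = true := by decide +kernel
def p15_16_2_35 : pfC (piC [(nat_lit 41351667), (nat_lit 26310893), (nat_lit 19519284), (nat_lit 13130440)] (nat_lit 6635885)) p15_16_2 (nat_lit 4) (nat_lit 35) (nat_lit 36) = true := by decide +kernel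
def p15_16_2_36 : pfC (piC [(nat_lit 41351667), (nat_lit 26310893), (nat_lit 19519284), (nat_lit 13130440)] (nat_lit 6635885)) p15_16_2 (nat_lit 4) (nat_lit 36) (nat_lit 37) = true := by decide +kernel
def p15_16_2_37 : pfC (piC [(nat_lit 41351667), (nat_lit 26310893), (nat_lit 19519284), (nat_lit 13130440)] (nat_lit 6635885)) p15_16_2 (nat_lit 4) (nat_lit 37) (nat_lit 38) = true := by decide +kernel
def p15_16_2_38 : pfC (piC [(nat_lit 41351667), (nat_lit 26310893), (nat_lit 19519284), (nat_lit 13130440)] (nat_lit 6635885)) p15_16_2 (nat_lit 4) (nat_lit 38) (nat_lit 39) = true := by decide +kernel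
def p15_16_2_39 : pfC (piC [(nat_lit 41351667), (nat_lit 26310893), (nat_lit 19519284), (nat_lit 13130440)] (nat_lit 6635885)) p15_16_2 (nat_lit 4) (nat_lit 39) (nat_lit 40) = true := by decide +kernel
def p15_16_2_40 : pfC (piC [(nat_lit 41351667), (nat_lit 26310893), (nat_lit 19519284), (nat_lit 13130440)] (nat_lit 6635885)) p15_16_2 (nat_lit 4) (nat_lit 40) (nat_lit 41) = true := by decide +kernel
def p15_16_2_41 : pfC (piC [(nat_lit 41351667), (nat_lit 26310893), (nat_lit 19519284), (nat_lit 13130440)] (nat_lit 6635885)) p15_16_2 (nat_lit 4) (nat_lit 41) (nat_lit 42) = true := by decide +kernel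
def p15_16_2_42 : pfC (piC [(nat_lit 41351667), (nat_lit 26310893), (nat_lit 19519284), (nat_lit 13130440)] (nat_lit 6635885)) p15_16_2 (nat_lit 4) (nat_lit 42) (nat_lit 43) = true := by decide +kernel
def p15_16_2_43 : pfC (piC [(nat_lit 41351667), (nat_lit 26310893), (nat_lit 19519284), (nat_lit 13130440)] (nat_lit 6635885)) p15_16_2 (nat_lit 4) (nat_lit 43) (nat_lit 44) = true := by decide +kernel
def p15_16_2_44 : pfC (piC [(nat_lit 41351667), (nat_lit 26310893), (nat_lit 19519284), (nat_lit 13130440)] (nat_lit 6635885)) p15_16_2 (nat_lit 4) (nat_lit 44) (nat_lit 45) = true := by decide +kernel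
def p15_16_2_45 : pfC (piC [(nat_lit 41351667), (nat_lit 26310893), (nat_lit 19519284), (nat_lit 13130440)] (nat_lit 6635885)) p15_16_2 (nat_lit 4) (nat_lit 45) (nat_lit 46) = true := by decide +kernel
def p15_16_2_46 : pfC (piC [(nat_lit 41351667), (nat_lit 26310893), (nat_lit 19519284), (nat_lit 13130440)] (nat_lit 6635885)) p15_16_2 (nat_lit 4) (nat_lit 46) (nat_lit 47) = true := by decide +kernel
def p15_16_2_47 : pfC (piC [(nat_lit 41351667), (nat_lit 26310893), (nat_lit 19519284), (nat_lit 13130440)] (nat_lit 6635885)) p15_16_2 (nat_lit 4) (nat_lit 47) (nat_lit 48) = true := by decide +kernel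
def p15_16_2_48 : pfC (piC [(nat_lit 41351667), (nat_lit 26310893), (nat_lit 19519284), (nat_lit 13130440)] (nat_lit 6635885)) p15_16_2 (nat_lit 4) (nat_lit 48) (nat_lit 49) = true := by decide +kernel
def p15_16_2_49 : pfC (piC [(nat_lit 41351667), (nat_lit 26310893), (nat_lit 19519284), (nat_lit 13130440)] (nat_lit 6635885)) p15_16_2 (nat_lit 4) (nat_lit 49) (nat_lit 50) = true := by decide +kernel
def p15_16_2_50 : pfC (piC [(nat_lit 41351667), (nat_lit 26310893), (nat_lit 19519284), (nat_lit 13130440)] (nat_lit 6635885)) p15_16_2 (nat_lit 4) (nat_lit 50) (nat_lit 51) = true := by decide +kernel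
def p15_16_2_51 : pfC (piC [(nat_lit 41351667), (nat_lit 26310893), (nat_lit 19519284), (nat_lit 13130440)] (nat_lit 6635885)) p15_16_2 (nat_lit 4) (nat_lit 51) (nat_lit 52) = true := by decide +kernel
def p15_16_2_52 : pfC (piC [(nat_lit 41351667), (nat_lit 26310893), (nat_lit 19519284), (nat_lit 13130440)] (nat_lit 6635885)) p15_16_2 (nat_lit 4) (nat_lit 52) (nat_lit 53) = true := by decide +kernel
def p15_16_2_53 : pfC (piC [(nat_lit 41351667), (nat_lit 26310893), (nat_lit 19519284), (nat_lit 13130440)] (nat_lit 6635885)) p15_16_2 (nat_lit 4) (nat_lit 53) (nat_lit 54) = true := by decide +kernel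
def p15_16_2_54 : pfC (piC [(nat_lit 41351667), (nat_lit 26310893), (nat_lit 19519284), (nat_lit 13130440)] (nat_lit 6635885)) p15_16_2 (nat_lit 4) (nat_lit 54) (nat_lit 55) = true := by decide +kernel
def p15_16_2_55 : pfC (piC [(nat_lit 41351667), (nat_lit 26310893), (nat_lit 19519284), (nat_lit 13130440)] (nat_lit 6635885)) p15_16_2 (nat_lit 4) (nat_lit 55) (nat_lit 56) = true := by decide +kernel
def p15_16_2_56 : pfC (piC [(nat_lit 41351667), (nat_lit 26310893), (nat_lit 19519284), (nat_lit 13130440)] (nat_lit 6635885)) p15_16_2 (nat_lit 4) (nat_lit 56) (nat_lit 57) = true := by decide +kernel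
def p15_16_2_57 : pfC (piC [(nat_lit 41351667), (nat_lit 26310893), (nat_lit 19519284), (nat_lit 13130440)] (nat_lit 6635885)) p15_16_2 (nat_lit 4) (nat_lit 57) (nat_lit 58) = true := by decide +kernel
def p15_16_2_58 : pfC (piC [(nat_lit 41351667), (nat_lit 26310893), (nat_lit 19519284), (nat_lit 13130440)] (nat_lit 6635885)) p15_16_2 (nat_lit 4) (nat_lit 58) (nat_lit 59) = true := by decide +kernel
def p15_16_2_59 : pfC (piC [(nat_lit 41351667), (nat_lit 26310893), (nat_lit 19519284), (nat_lit 13130440)] (nat_lit 6635885)) p15_16_2 (nat_lit 4) (nat_lit 59) (nat_lit 60) = true := by decide +kernel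
def p15_16_2_60 : pfC (piC [(nat_lit 41351667), (nat_lit 26310893), (nat_lit 19519284), (nat_lit 13130440)] (nat_lit 6635885)) p15_16_2 (nat_lit 4) (nat_lit 60) (nat_lit 61) = true := by decide +kernel
def p15_16_2_61 : pfC (piC [(nat_lit 41351667), (nat_lit 26310893), (nat_lit 19519284), (nat_lit 13130440)] (nat_lit 6635885)) p15_16_2 (nat_lit 4) (nat_lit 61) (nat_lit 62) = true := by decide +kernel
def p15_16_2_62 : pfC (piC [(nat_lit 41351667), (nat_lit 26310893), (nat_lit 19519284), (nat_lit 13130440)] (nat_lit 6635885)) p15_16_2 (nat_lit 4) (nat_lit 62) (nat_lit 63) = true := by decide +kernel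
def p15_16_2_63 : pfC (piC [(nat_lit 41351667), (nat_lit 26310893), (nat_lit 19519284), (nat_lit 13130440)] (nat_lit 6635885)) p15_16_2 (nat_lit 4) (nat_lit 63) (nat_lit 64) = true := by decide +kernel
def p15_16_2_64 : pfC (piC [(nat_lit 41351667), (nat_lit 26310893), (nat_lit 19519284), (nat_lit 13130440)] (nat_lit 6635885)) p15_16_2 (nat_lit 4) (nat_lit 64) (nat_lit 65) = true := by decide +kernel
def p15_16_2_65 : pfC (piC [(nat_lit 41351667), (nat_lit 26310893), (nat_lit 19519284), (nat_lit 13130440)] (nat_lit 6635885)) p15_16_2 (nat_lit 4) (nat_lit 65) (nat_lit 66) = true := by decide +kernel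
def p15_16_2_66 : pfC (piC [(nat_lit 41351667), (nat_lit 26310893), (nat_lit 19519284), (nat_lit 13130440)] (nat_lit 6635885)) p15_16_2 (nat_lit 4) (nat_lit 66) (nat_lit 67) = true := by decide +kernel
def p15_16_2_67 : pfC (piC [(nat_lit 41351667), (nat_lit 26310893), (nat_lit 19519284), (nat_lit 13130440)] (nat_lit 6635885)) p15_16_2 (nat_lit 4) (nat_lit 67) (nat_lit 68) = true := by decide +kernel
def p15_16_2_68 : pfC (piC [(nat_lit 41351667), (nat_lit 26310893), (nat_lit 19519284), (nat_lit 13130440)] (nat_lit 6635885)) p15_16_2 (nat_lit 4) (nat_lit 68) (nat_lit 69) = true := by decide +kernel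
def p15_16_2_69 : pfC (piC [(nat_lit 41351667), (nat_lit 26310893), (nat_lit 19519284), (nat_lit 13130440)] (nat_lit 6635885)) p15_16_2 (nat_lit 4) (nat_lit 69) (nat_lit 70) = true := by decide +kernel
def p15_16_2_70 : pfC (piC [(nat_lit 41351667), (nat_lit 26310893), (nat_lit 19519284), (nat_lit 13130440)] (nat_lit 6635885)) p15_16_2 (nat_lit 4) (nat_lit 70) (nat_lit 71) = true := by decide +kernel
def p15_16_2_71 : pfC (piC [(nat_lit 41351667), (nat_lit 26310893), (nat_lit 19519284), (nat_lit 13130440)] (nat_lit 6635885)) p15_16_2 (nat_lit 4) (nat_lit 71) (nat_lit 72) = true := by decide +kernel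
def p15_16_2_72 : pfC (piC [(nat_lit 41351667), (nat_lit 26310893), (nat_lit 19519284), (nat_lit 13130440)] (nat_lit 6635885)) p15_16_2 (nat_lit 4) (nat_lit 72) (nat_lit 73) = true := by decide +kernel
def p15_16_2_73 : pfC (piC [(nat_lit 41351667), (nat_lit 26310893), (nat_lit 19519284), (nat_lit 13130440)] (nat_lit 6635885)) p15_16_2 (nat_lit 4) (nat_lit 73) (nat_lit 74) = true := by decide +kernel
def p15_16_2_74 : pfC (piC [(nat_lit 41351667), (nat_lit 26310893), (nat_lit 19519284), (nat_lit 13130440)] (nat_lit 6635885)) p15_16_2 (nat_lit 4) (nat_lit 74) (nat_lit 75) = true := by decide +kernel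
def p15_16_2_75 : pfC (piC [(nat_lit 41351667), (nat_lit 26310893), (nat_lit 19519284), (nat_lit 13130440)] (nat_lit 6635885)) p15_16_2 (nat_lit 4) (nat_lit 75) (nat_lit 76) = true := by decide +kernel
def p15_16_2_76 : pfC (piC [(nat_lit 41351667), (nat_lit 26310893), (nat_lit 19519284), (nat_lit 13130440)] (nat_lit 6635885)) p15_16_2 (nat_lit 4) (nat_lit 76) (nat_lit 77) = true := by decide +kernel
def p15_16_2_77 : pfC (piC [(nat_lit 41351667), (nat_lit 26310893), (nat_lit 19519284), (nat_lit 13130440)] (nat_lit 6635885)) p15_16_2 (nat_lit 4) (nat_lit 77) (nat_lit 78) = true := by decide +kernel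
def p15_16_2_78 : pfC (piC [(nat_lit 41351667), (nat_lit 26310893), (nat_lit 19519284), (nat_lit 13130440)] (nat_lit 6635885)) p15_16_2 (nat_lit 4) (nat_lit 78) (nat_lit 79) = true := by decide +kernel
def p15_16_2_79 : pfC (piC [(nat_lit 41351667), (nat_lit 26310893), (nat_lit 19519284), (nat_lit 13130440)] (nat_lit 6635885)) p15_16_2 (nat_lit 4) (nat_lit 79) (nat_lit 80) = true := by decide +kernel
def p15_16_2_80 : pfC (piC [(nat_lit 41351667), (nat_lit 26310893), (nat_lit 19519284), (nat_lit 13130440)] (nat_lit 6635885)) p15_16_2 (nat_lit 4) (nat_lit 80) (nat_lit 81) = true := by decide +kernel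
def p15_16_2_81 : pfC (piC [(nat_lit 41351667), (nat_lit 26310893), (nat_lit 19519284), (nat_lit 13130440)] (nat_lit 6635885)) p15_16_2 (nat_lit 4) (nat_lit 81) (nat_lit 82) = true := by decide +kernel
def p15_16_2_82 : pfC (piC [(nat_lit 41351667), (nat_lit 26310893), (nat_lit 19519284), (nat_lit 13130440)] (nat_lit 6635885)) p15_16_2 (nat_lit 4) (nat_lit 82) (nat_lit 83) = true := by decide +kernel
def p15_16_2_83 : pfC (piC [(nat_lit 41351667), (nat_lit 26310893), (nat_lit 19519284), (nat_lit 13130440)] (nat_lit 6635885)) p15_16_2 (nat_lit 4) (nat_lit 83) (nat_lit 84) = true := by decide +kernel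
def p15_16_2_84 : pfC (piC [(nat_lit 41351667), (nat_lit 26310893), (nat_lit 19519284), (nat_lit 13130440)] (nat_lit 6635885)) p15_16_2 (nat_lit 4) (nat_lit 84) (nat_lit 85) = true := by decide +kernel
def p15_16_2_85 : pfC (piC [(nat_lit 41351667), (nat_lit 26310893), (nat_lit 19519284), (nat_lit 13130440)] (nat_lit 6635885)) p15_16_2 (nat_lit 4) (nat_lit 85) (nat_lit 86) = true := by decide +kernel
def p15_16_2_86 : pfC (piC [(nat_lit 41351667), (nat_lit 26310893), (nat_lit 19519284), (nat_lit 13130440)] (nat_lit 6635885)) p15_16_2 (nat_lit 4) (nat_lit 86) (nat_lit 87) = true := by decide +kernel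
def p15_16_2_87 : pfC (piC [(nat_lit 41351667), (nat_lit 26310893), (nat_lit 19519284), (nat_lit 13130440)] (nat_lit 6635885)) p15_16_2 (nat_lit 4) (nat_lit 87) (nat_lit 88) = true := by decide +kernel
def p15_16_2_88 : pfC (piC [(nat_lit 41351667), (nat_lit 26310893), (nat_lit 19519284), (nat_lit 13130440)] (nat_lit 6635885)) p15_16_2 (nat_lit 4) (nat_lit 88) (nat_lit 89) = true := by decide +kernel
def p15_16_2_89 : pfC (piC [(nat_lit 41351667), (nat_lit 26310893), (nat_lit 19519284), (nat_lit 13130440)] (nat_lit 6635885)) p15_16_2 (nat_lit 4) (nat_lit 89) (nat_lit 90) = true := by decide +kernel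
def p15_16_2_90 : pfC (piC [(nat_lit 41351667), (nat_lit 26310893), (nat_lit 19519284), (nat_lit 13130440)] (nat_lit 6635885)) p15_16_2 (nat_lit 4) (nat_lit 90) (nat_lit 91) = true := by decide +kernel
def p15_16_2_91 : pfC (piC [(nat_lit 41351667), (nat_lit 26310893), (nat_lit 19519284), (nat_lit 13130440)] (nat_lit 6635885)) p15_16_2 (nat_lit 4) (nat_lit 91) (nat_lit 92) = true := by decide +kernel
def p15_16_2_92 : pfC (piC [(nat_lit 41351667), (nat_lit 26310893), (nat_lit 19519284), (nat_lit 13130440)] (nat_lit 6635885)) p15_16_2 (nat_lit 4) (nat_lit 92) (nat_lit 93) = true := by decide +kernel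
def p15_16_2_93 : pfC (piC [(nat_lit 41351667), (nat_lit 26310893), (nat_lit 19519284), (nat_lit 13130440)] (nat_lit 6635885)) p15_16_2 (nat_lit 4) (nat_lit 93) (nat_lit 94) = true := by decide +kernel
def p15_16_2_94 : pfC (piC [(nat_lit 41351667), (nat_lit 26310893), (nat_lit 19519284), (nat_lit 13130440)] (nat_lit 6635885)) p15_16_2 (nat_lit 4) (nat_lit 94) (nat_lit 95) = true := by decide +kernel
def p15_16_2_95 : pfC (piC [(nat_lit 41351667), (nat_lit 26310893), (nat_lit 19519284), (nat_lit 13130440)] (nat_lit 6635885)) p15_16_2 (nat_lit 4) (nat_lit 95) (nat_lit 96) = true := by decide +kernel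
def p15_16_2_96 : pfC (piC [(nat_lit 41351667), (nat_lit 26310893), (nat_lit 19519284), (nat_lit 13130440)] (nat_lit 6635885)) p15_16_2 (nat_lit 4) (nat_lit 96) (nat_lit 97) = true := by decide +kernel
def p15_16_2_97 : pfC (piC [(nat_lit 41351667), (nat_lit 26310893), (nat_lit 19519284), (nat_lit 13130440)] (nat_lit 6635885)) p15_16_2 (nat_lit 4) (nat_lit 97) (nat_lit 98) = true := by decide +kernel
def p15_16_2_98 : pfC (piC [(nat_lit 41351667), (nat_lit 26310893), (nat_lit 19519284), (nat_lit 13130440)] (nat_lit 6635885)) p15_16_2 (nat_lit 4) (nat_lit 98) (nat_lit 99) = true := by decide +kernel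
def p15_16_2_99 : pfC (piC [(nat_lit 41351667), (nat_lit 26310893), (nat_lit 19519284), (nat_lit 13130440)] (nat_lit 6635885)) p15_16_2 (nat_lit 4) (nat_lit 99) (nat_lit 100) = true := by decide +kernel
def p15_16_2_100 : pfC (piC [(nat_lit 41351667), (nat_lit 26310893), (nat_lit 19519284), (nat_lit 13130440)] (nat_lit 6635885)) p15_16_2 (nat_lit 4) (nat_lit 100) (nat_lit 101) = true := by decide +kernel
def p15_16_2_101 : pfC (piC [(nat_lit 41351667), (nat_lit 26310893), (nat_lit 19519284), (nat_lit 13130440)] (nat_lit 6635885)) p15_16_2 (nat_lit 4) (nat_lit 101) (nat_lit 102) = true := by decide +kernel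
def p15_16_2_102 : pfC (piC [(nat_lit 41351667), (nat_lit 26310893), (nat_lit 19519284), (nat_lit 13130440)] (nat_lit 6635885)) p15_16_2 (nat_lit 4) (nat_lit 102) (nat_lit 103) = true := by decide +kernel
def p15_16_2_103 : pfC (piC [(nat_lit 41351667), (nat_lit 26310893), (nat_lit 19519284), (nat_lit 13130440)] (nat_lit 6635885)) p15_16_2 (nat_lit 4) (nat_lit 103) (nat_lit 104) = true := by decide +kernel
def p15_16_2_104 : pfC (piC [(nat_lit 41351667), (nat_lit 26310893), (nat_lit 19519284), (nat_lit 13130440)] (nat_lit 6635885)) p15_16_2 (nat_lit 4) (nat_lit 104) (nat_lit 105) = true := by decide +kernel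
def p15_16_2_105 : pfC (piC [(nat_lit 41351667), (nat_lit 26310893), (nat_lit 19519284), (nat_lit 13130440)] (nat_lit 6635885)) p15_16_2 (nat_lit 4) (nat_lit 105) (nat_lit 106) = true := by decide +kernel
def p15_16_2_106 : pfC (piC [(nat_lit 41351667), (nat_lit 26310893), (nat_lit 19519284), (nat_lit 13130440)] (nat_lit 6635885)) p15_16_2 (nat_lit 4) (nat_lit 106) (nat_lit 107) = true := by decide +kernel
def p15_16_2_107 : pfC (piC [(nat_lit 41351667), (nat_lit 26310893), (nat_lit 19519284), (nat_lit 13130440)] (nat_lit 6635885)) p15_16_2 (nat_lit 4) (nat_lit 107) (nat_lit 108) = true := by decide +kernel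
def p15_16_2_108 : pfC (piC [(nat_lit 41351667), (nat_lit 26310893), (nat_lit 19519284), (nat_lit 13130440)] (nat_lit 6635885)) p15_16_2 (nat_lit 4) (nat_lit 108) (nat_lit 109) = true := by decide +kernel
theorem p15_16_2_T : PfS (PiF n15_16.reverse (nat_lit 6635885)) p15_16_2 (nat_lit 4) [] 0 :=
  pftab_of (los := [(nat_lit 41351667), (nat_lit 26310893), (nat_lit 19519284), (nat_lit 13130440)]) (by decide +kernel) (hi := (nat_lit 109)) (PfP.trans (PfP.trans (PfP.trans (PfP.trans (PfP.trans (PfP.trans (PfP.trans (PfP.trans (PfP.trans (PfP.trans (PfP.trans (PfP.trans (PfP.trans (PfP.trans (PfP.trans (PfP.trans (PfP.trans (PfP.trans (PfP.trans (PfP.trans (PfP.trans (PfP.trans (PfP.trans (PfP.trans (PfP.trans (PfP.trans (PfP.trans (PfP.trans (PfP.trans (PfP.trans (PfP.trans (PfP.trans (PfP.trans (PfP.trans (PfP.trans (PfP.trans (PfP.trans (PfP.trans (PfP.trans (PfP.trans (PfP.trans (PfP.trans (PfP.trans (PfP.trans (PfP.trans (PfP.trans (PfP.trans (PfP.trans (PfP.trans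 (PfP.trans (PfP.trans (PfP.trans (PfP.trans (PfP.trans (PfP.trans (PfP.trans (PfP.trans (PfP.trans (PfP.trans (PfP.trans (PfP.trans (PfP.trans (PfP.trans (PfP.trans (PfP.trans (PfP.trans (PfP.trans (PfP.trans (PfP.trans (PfP.trans (PfP.trans (PfP.trans (PfP.trans (PfP.trans (PfP.trans (PfP.trans (PfP.trans (PfP.trans (PfP.trans (PfP.trans (PfP.trans (PfP.trans (PfP.trans (PfP.trans (PfP.trans (PfP.trans (PfP.trans (PfP.trans (PfP.trans (PfP.trans (PfP.trans (PfP.trans (PfP.trans (PfP.trans (PfP.trans (PfP.trans (PfP.trans (PfP.trans (PfP.trans (PfP.trans (PfP.trans (PfP.trans (PfP.trans (PfP.trans (PfP.trans (PfP.trans (PfP.trans (PfP.trans (pfC_sound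
 p15_16_2_0) (pfC_sound p15_16_2_1)) (pfC_sound p15_16_2_2)) (pfC_sound p15_16_2_3)) (pfC_sound p15_16_2_4)) (pfC_sound p15_16_2_5)) (pfC_sound p15_16_2_6)) (pfC_sound p15_16_2_7)) (pfC_sound p15_16_2_8)) (pfC_sound p15_16_2_9)) (pfC_sound p15_16_2_10)) (pfC_sound p15_16_2_11)) (pfC_sound p15_16_2_12)) (pfC_sound p15_16_2_13)) (pfC_sound p15_16_2_14)) (pfC_sound p15_16_2_15)) (pfC_sound p15_16_2_16)) (pfC_sound p15_16_2_17)) (pfC_sound p15_16_2_18)) (pfC_sound p15_16_2_19)) (pfC_sound p15_16_2_20)) (pfC_sound p15_16_2_21)) (pfC_sound p15_16_2_22)) (pfC_sound p15_16_2_23)) (pfC_sound p15_16_2_24)) (pfC_sound p15_16_2_25)) (pfC_sound p15_16_2_26)) (pfC_sound p15_16_2_27)) (pfC_sound p15_16_2_28)) (pfC_sound p15_16_2_29)) (pfC_sound p15_16_2_30)) (pfC_sound p15_16_2_31)) (pfC_sound p15_16_2_32)) (pfC_sound p15_16_2_33)) (pfC_sound p15_16_2_34)) (pfC_sound p15_16_2_35)) (pfC_sound p15_16_2_36)) (pfC_sound p15_16_2_37)) (pfC_sound p15_16_2_38)) (pfC_sound p15_16_2_39))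 (pfC_sound p15_16_2_40)) (pfC_sound p15_16_2_41)) (pfC_sound p15_16_2_42)) (pfC_sound p15_16_2_43)) (pfC_sound p15_16_2_44)) (pfC_sound p15_16_2_45)) (pfC_sound p15_16_2_46)) (pfC_sound p15_16_2_47)) (pfC_sound
 p15_16_2_48)) (pfC_sound p15_16_2_49)) (pfC_sound p15_16_2_50)) (pfC_sound p15_16_2_51)) (pfC_sound p15_16_2_52)) (pfC_sound p15_16_2_53)) (pfC_sound p15_16_2_54)) (pfC_sound p15_16_2_55)) (pfC_sound p15_16_2_56)) (pfC_sound p15_16_2_57)) (pfC_sound p15_16_2_58)) (pfC_sound p15_16_2_59)) (pfC_sound p15_16_2_60)) (pfC_sound p15_16_2_61)) (pfC_sound p15_16_2_62)) (pfC_sound p15_16_2_63)) (pfC_sound p15_16_2_64)) (pfC_sound p15_16_2_65)) (pfC_sound p15_16_2_66)) (pfC_sound p15_16_2_67)) (pfC_sound p15_16_2_68)) (pfC_sound p15_16_2_69)) (pfC_sound p15_16_2_70)) (pfC_sound p15_16_2_71)) (pfC_sound p15_16_2_72)) (pfC_sound p15_16_2_73)) (pfC_sound p15_16_2_74)) (pfC_sound p15_16_2_75)) (pfC_sound p15_16_2_76)) (pfC_sound p15_16_2_77)) (pfC_sound p15_16_2_78))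 (pfC_sound p15_16_2_79)) (pfC_sound p15_16_2_80)) (pfC_sound p15_16_2_81)) (pfC_sound p15_16_2_82)) (pfC_sound p15_16_2_83)) (pfC_sound p15_16_2_84)) (pfC_sound p15_16_2_85)) (pfC_sound p15_16_2_86)) (pfC_sound p15_16_2_87)) (pfC_sound p15_16_2_88)) (pfC_sound p15_16_2_89)) (pfC_sound p15_16_2_90)) (pfC_sound p15_16_2_91)) (pfC_sound p15_16_2_92)) (pfC_sound p15_16_2_93)) (pfC_sound p15_16_2_94)) (pfC_sound p15_16_2_95)) (pfC_sound
 p15_16_2_96)) (pfC_sound p15_16_2_97)) (pfC_sound p15_16_2_98)) (pfC_sound p15_16_2_99)) (pfC_sound p15_16_2_100)) (pfC_sound p15_16_2_101)) (pfC_sound p15_16_2_102)) (pfC_sound p15_16_2_103)) (pfC_sound p15_16_2_104)) (pfC_sound p15_16_2_105)) (pfC_sound p15_16_2_106)) (pfC_sound p15_16_2_107)) (pfC_sound p15_16_2_108)) (by decide +kernel)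

def z15_16_2 : zOK yB15_16 (nat_lit 2) (nat_lit 600) (nat_lit 750) (nat_lit 6635885) (nat_lit 4910231) = true := by decide +kernel
def g15_16_2 : gOK yB15_16.x P15_16 (nat_lit 1425) (q15_16 :: r15_16) (nat_lit 2) (nat_lit 600) (nat_lit 3) (nat_lit 750) (nat_lit 12712500) (nat_lit 12712500) (nat_lit 12712500) (nat_lit 12712500) [(nat_lit 800), (nat_lit 1600)] = true := by decide +kernel
def v15_16_2 : ivC P15_16 s15_16 w15_16 n15_16 (nat_lit 4) (nat_lit 4840) (nat_lit 2) (nat_lit 600) f152_1_600 f160_1_600 (nat_lit 3) (nat_lit 750) f152_1_750 f160_1_750 (nat_lit 6635885) (nat_lit 4910231) p15_16_2 = true := by decide +kernel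
def p15_16_3 : PF := (PF.cons (PF.cons (PF.cons (PF.cons (PF.leaf (nat_lit 3060281) (nat_lit 20227438) (nat_lit 46881374) (nat_lit 20227438) [(nat_lit 0), (nat_lit 0), (nat_lit 0), (nat_lit 0)]) (PF.cons (PF.leaf (nat_lit 3186943) (nat_lit 217031) (nat_lit 46701318) (nat_lit 20190463) [(nat_lit 217031), (nat_lit 0), (nat_lit 0), (nat_lit 0)]) (PF.cons (PF.leaf (nat_lit 3338234) (nat_lit 235844) (nat_lit 46490524) (nat_lit 20146599) [(nat_lit 235844), (nat_lit 0), (nat_lit 0), (nat_lit 0)]) (PF.cons (PF.leaf (nat_lit 3508021) (nat_lit 252499) (nat_lit 46254543) (nat_lit 20096770) [(nat_lit 252499), (nat_lit 0), (nat_lit 0), (nat_lit 0)]) (PF.cons (PF.leaf (nat_lit 3693669) (nat_lit 267485) (nat_lit 45997278) (nat_lit 20041593) [(nat_lit 267485), (nat_lit 0), (nat_lit 0), (nat_lit 0)]) (PF.cons (PF.leaf (nat_lit 3893156) (nat_lit 281114) (nat_lit 45721722) (nat_lit 19981517) [(nat_lit 281114), (nat_lit 0), (nat_lit 0), (nat_lit 0)]) (PF.cons (PF.leaf (nat_lit 4104810)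 (nat_lit 293603) (nat_lit 45430291) (nat_lit 19916898) [(nat_lit 293603), (nat_lit 0), (nat_lit 0), (nat_lit 0)]) (PF.cons (PF.leaf (nat_lit 4327436) (nat_lit 305110) (nat_lit 45125009) (nat_lit 19848033) [(nat_lit 305110), (nat_lit 0),
 (nat_lit 0), (nat_lit 0)]) (PF.cons (PF.leaf (nat_lit 4559744) (nat_lit 315752) (nat_lit 44807615) (nat_lit 19775177) [(nat_lit 315752), (nat_lit 0), (nat_lit 0), (nat_lit 0)]) (PF.cons PF.nil PF.nil)))))))))) (PF.cons (PF.cons (PF.leaf (nat_lit 3538343) (nat_lit 1111877) (nat_lit 45964844) (nat_lit 20032090) [(nat_lit 0), (nat_lit 1111877), (nat_lit 0), (nat_lit 0)]) (PF.cons (PF.leaf (nat_lit 3703909) (nat_lit 262969) (nat_lit 45728738) (nat_lit 19980527) [(nat_lit 262969), (nat_lit 1136577), (nat_lit 0), (nat_lit 0)]) (PF.cons (PF.leaf (nat_lit 3887718) (nat_lit 277275) (nat_lit 45470183) (nat_lit 19923231) [(nat_lit 277275), (nat_lit 1160847), (nat_lit 0), (nat_lit 0)]) (PF.cons (PF.leaf (nat_lit 4085951) (nat_lit 290228) (nat_lit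 45192983) (nat_lit 19860849) [(nat_lit 290228), (nat_lit 1184296), (nat_lit 0), (nat_lit 0)]) (PF.cons (PF.leaf (nat_lit 4296557) (nat_lit 302068) (nat_lit 44899966) (nat_lit 19793848) [(nat_lit 302068), (nat_lit 1206726), (nat_lit 0), (nat_lit 0)]) (PF.cons (PF.leaf (nat_lit 4518172) (nat_lit 312960) (nat_lit 44593376) (nat_lit 19722590) [(nat_lit 312960), (nat_lit 1228042), (nat_lit 0), (nat_lit 0)]) (PF.cons (PF.leaf (nat_lit 4749441) (nat_lit
 323026) (nat_lit 44275071) (nat_lit 19647379) [(nat_lit 323026), (nat_lit 1248205), (nat_lit 0), (nat_lit 0)]) (PF.cons PF.nil (PF.cons PF.nil PF.nil))))))))) (PF.cons (PF.cons (PF.leaf (nat_lit 4085539) (nat_lit 1190386) (nat_lit 44929880) (nat_lit 19798159) [(nat_lit 0), (nat_lit 1190386), (nat_lit 0), (nat_lit 0)]) (PF.cons (PF.leaf (nat_lit 4279898) (nat_lit 298016) (nat_lit 44654322) (nat_lit 19734236) [(nat_lit 298016), (nat_lit 1211119), (nat_lit 0), (nat_lit 0)]) (PF.cons (PF.leaf (nat_lit 4488396) (nat_lit 309397)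 (nat_lit 44362266) (nat_lit 19665462) [(nat_lit 309397), (nat_lit 1231144), (nat_lit 0), (nat_lit 0)]) (PF.cons (PF.leaf (nat_lit 4708206) (nat_lit 319820) (nat_lit 44056425) (nat_lit 19592326) [(nat_lit 319820), (nat_lit 1250299), (nat_lit 0), (nat_lit 0)]) (PF.cons (PF.leaf (nat_lit 4937813) (nat_lit 329421) (nat_lit 43738915) (nat_lit 19515204) [(nat_lit 329421), (nat_lit 1268502), (nat_lit 0), (nat_lit 0)]) (PF.cons (PF.leaf (nat_lit 5176086) (nat_lit 338302) (nat_lit 43411464) (nat_lit 19434406) [(nat_lit 338302), (nat_lit 1285715), (nat_lit 0), (nat_lit 0)]) (PF.cons PF.nil PF.nil))))))) (PF.cons (PF.cons (PF.leaf (nat_lit 4682076) (nat_lit 1253052)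
 (nat_lit 43817801) (nat_lit 19531854) [(nat_lit 0), (nat_lit 1253052), (nat_lit 0), (nat_lit 0)]) (PF.cons (PF.leaf (nat_lit 4898149) (nat_lit 325760) (nat_lit 43514879) (nat_lit 19457417) [(nat_lit 325760), (nat_lit 1270251), (nat_lit 0), (nat_lit 0)]) (PF.cons (PF.leaf (nat_lit 5125349) (nat_lit 335005) (nat_lit 43199898) (nat_lit 19378868) [(nat_lit 335005), (nat_lit 1286678), (nat_lit 0), (nat_lit 0)]) (PF.cons (PF.leaf (nat_lit 5361421) (nat_lit 343521) (nat_lit 42874865) (nat_lit 19296597) [(nat_lit 343521), (nat_lit 1302262), (nat_lit 0), (nat_lit 0)]) (PF.cons (PF.leaf (nat_lit 5605255) (nat_lit 351394) (nat_lit 42541397) (nat_lit 19210922) [(nat_lit 351394), (nat_lit 1316971), (nat_lit 0), (nat_lit 0)]) PF.nil))))) (PF.cons (PF.cons (PF.leaf (nat_lit 5313494) (nat_lit 1302964) (nat_lit 42658440) (nat_lit 19238513) [(nat_lit 0), (nat_lit 1302964), (nat_lit 0), (nat_lit 0)]) (PF.cons (PF.leaf (nat_lit 5545905) (nat_lit 348052) (nat_lit 42337320) (nat_lit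 19155229) [(nat_lit 348052), (nat_lit 1317052), (nat_lit 0), (nat_lit 0)]) (PF.cons (PF.leaf (nat_lit 5787093) (nat_lit 355631) (nat_lit 42007541) (nat_lit 19068484) [(nat_lit 355631), (nat_lit 1330380), (nat_lit 0),
 (nat_lit 0)]) (PF.cons PF.nil PF.nil)))) (PF.cons (PF.cons (PF.leaf (nat_lit 5968593) (nat_lit 1342305) (nat_lit 41474248) (nat_lit 18923037) [(nat_lit 0), (nat_lit 1342305), (nat_lit 0), (nat_lit 0)]) (PF.cons (PF.leaf (nat_lit 6213038) (nat_lit 366033) (nat_lit 41142017) (nat_lit 18832454) [(nat_lit 366033), (nat_lit 1353661), (nat_lit 0), (nat_lit 0)]) PF.nil)) (PF.cons PF.nil (PF.cons PF.nil PF.nil)))))))) (PF.cons (PF.cons (PF.cons (PF.leaf (nat_lit 4042523) (nat_lit 2961526) (nat_lit 44469839) (nat_lit 19677446) [(nat_lit 0), (nat_lit 0), (nat_lit 2961526), (nat_lit 0)]) (PF.cons (PF.leaf (nat_lit 4215948) (nat_lit 281676) (nat_lit 44225911) (nat_lit 19619641) [(nat_lit 281676), (nat_lit 0), (nat_lit 2981583), (nat_lit 0)]) (PF.cons (PF.leaf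 (nat_lit 4406896) (nat_lit 295134) (nat_lit 43960751) (nat_lit 19555984) [(nat_lit 295134), (nat_lit 0), (nat_lit 3001807), (nat_lit 0)]) (PF.cons (PF.leaf (nat_lit 4611311) (nat_lit 307150) (nat_lit 43678378) (nat_lit 19487265) [(nat_lit 307150), (nat_lit 0), (nat_lit 3021716), (nat_lit 0)]) (PF.cons (PF.leaf (nat_lit 4827268) (nat_lit 318012) (nat_lit 43381720) (nat_lit 19414049) [(nat_lit 318012), (nat_lit 0), (nat_lit 3040993),
 (nat_lit 0)]) (PF.cons (PF.leaf (nat_lit 5053289) (nat_lit 327913) (nat_lit 43073050) (nat_lit 19336769) [(nat_lit 327913), (nat_lit 0), (nat_lit 3059423), (nat_lit 0)]) (PF.cons (PF.leaf (nat_lit 5288059) (nat_lit 336993) (nat_lit 42754209) (nat_lit 19255778) [(nat_lit 336993), (nat_lit 0), (nat_lit 3076863), (nat_lit 0)]) (PF.cons PF.nil (PF.cons PF.nil PF.nil))))))))) (PF.cons (PF.cons (PF.leaf (nat_lit 4601691) (nat_lit 1237472) (nat_lit 43420539) (nat_lit 19421146) [(nat_lit 0), (nat_lit 1237472), (nat_lit 3029654), (nat_lit 0)])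 (PF.cons (PF.leaf (nat_lit 4801388) (nat_lit 313119) (nat_lit 43142198) (nat_lit 19351617) [(nat_lit 313119), (nat_lit 1254951), (nat_lit 3046925), (nat_lit 0)]) (PF.cons (PF.leaf (nat_lit 5014355) (nat_lit 323656) (nat_lit 42848696) (nat_lit 19277325) [(nat_lit 323656), (nat_lit 1271746), (nat_lit 3063731), (nat_lit 0)]) (PF.cons (PF.leaf (nat_lit 5237778) (nat_lit 333207) (nat_lit 42542786) (nat_lit 19198837) [(nat_lit 333207), (nat_lit 1287733), (nat_lit 3079831), (nat_lit 0)]) (PF.cons (PF.leaf (nat_lit 5470219) (nat_lit 341930) (nat_lit 42226582) (nat_lit 19116587) [(nat_lit 341930), (nat_lit 1302855), (nat_lit 3095067), (nat_lit 0)]) (PF.cons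
 (PF.leaf (nat_lit 5710515) (nat_lit 349937) (nat_lit 41901778) (nat_lit 19030923) [(nat_lit 349937), (nat_lit 1317088), (nat_lit 3109333), (nat_lit 0)]) (PF.cons PF.nil PF.nil))))))) (PF.cons (PF.cons (PF.leaf (nat_lit 5203081) (nat_lit 1288660) (nat_lit 42311753) (nat_lit 19136306) [(nat_lit 0), (nat_lit 1288660), (nat_lit 3083431), (nat_lit 0)]) (PF.cons (PF.leaf (nat_lit 5422192) (nat_lit 337726) (nat_lit 42010463) (nat_lit 19057165) [(nat_lit 337726), (nat_lit 1303044), (nat_lit 3097367), (nat_lit 0)]) (PF.cons (PF.leaf (nat_lit 5651613) (nat_lit 346185) (nat_lit 41698353) (nat_lit 18974111) [(nat_lit 346185), (nat_lit 1316707), (nat_lit 3110562), (nat_lit 0)]) (PF.cons (PF.leaf (nat_lit 5889169) (nat_lit 353912) (nat_lit 41377400) (nat_lit 18887578) [(nat_lit 353912), (nat_lit 1329600), (nat_lit 3122897), (nat_lit 0)]) (PF.cons PF.nil PF.nil))))) (PF.cons (PF.cons (PF.leaf (nat_lit 5833478) (nat_lit 1329043) (nat_lit 41169666) (nat_lit 18828448) [(nat_lit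 0), (nat_lit 1329043), (nat_lit 3123566), (nat_lit 0)]) (PF.cons (PF.leaf (nat_lit 6066917) (nat_lit 357300) (nat_lit 40853835) (nat_lit 18741477) [(nat_lit 357300), (nat_lit 1340696), (nat_lit 3134110), (nat_lit 0)])
 (PF.cons (PF.leaf (nat_lit 6308435) (nat_lit 364166) (nat_lit 40530408) (nat_lit 18651298) [(nat_lit 364166), (nat_lit 1351653), (nat_lit 3143813), (nat_lit 0)]) (PF.cons PF.nil PF.nil)))) (PF.cons (PF.cons (PF.leaf (nat_lit 6482833) (nat_lit 1360390) (nat_lit 40013563) (nat_lit 18502405) [(nat_lit 0), (nat_lit 1360390), (nat_lit 3151281), (nat_lit 0)]) (PF.cons PF.nil PF.nil)) (PF.cons PF.nil PF.nil)))))) (PF.cons (PF.cons (PF.cons (PF.leaf (nat_lit 5109126) (nat_lit 3070229) (nat_lit 41941456) (nat_lit 19026896) [(nat_lit 0), (nat_lit 0), (nat_lit 3070229), (nat_lit 0)]) (PF.cons (PF.leaf (nat_lit 5312411) (nat_lit 325146) (nat_lit 41663944) (nat_lit 18953032) [(nat_lit 325146), (nat_lit 0), (nat_lit 3083344), (nat_lit 0)]) (PF.cons (PF.leaf (nat_lit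 5528265) (nat_lit 334936) (nat_lit 41372485) (nat_lit 18874538) [(nat_lit 334936), (nat_lit 0), (nat_lit 3095957), (nat_lit 0)]) (PF.cons (PF.leaf (nat_lit 5753857) (nat_lit 343723) (nat_lit 41069825) (nat_lit 18792041) [(nat_lit 343723), (nat_lit 0), (nat_lit 3107887), (nat_lit 0)]) (PF.cons (PF.leaf (nat_lit 5987745) (nat_lit 351680) (nat_lit 40758043) (nat_lit 18706015) [(nat_lit 351680), (nat_lit 0), (nat_lit 3119014), (nat_lit
 0)]) (PF.cons PF.nil (PF.cons PF.nil PF.nil))))))) (PF.cons (PF.cons (PF.leaf (nat_lit 5711534) (nat_lit 1314686) (nat_lit 40847780) (nat_lit 18728431) [(nat_lit 0), (nat_lit 1314686), (nat_lit 3108957), (nat_lit 0)]) (PF.cons (PF.leaf (nat_lit 5932314) (nat_lit 347080) (nat_lit 40550937) (nat_lit 18645841) [(nat_lit 347080), (nat_lit 1326725), (nat_lit 3119113), (nat_lit 0)]) (PF.cons (PF.leaf (nat_lit 6162710) (nat_lit 354846) (nat_lit 40244348) (nat_lit 18559551) [(nat_lit 354846), (nat_lit 1338086), (nat_lit 3128566), (nat_lit 0)])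 (PF.cons (PF.leaf (nat_lit 6400593) (nat_lit 361883) (nat_lit 39929946) (nat_lit 18470025) [(nat_lit 361883), (nat_lit 1348734), (nat_lit 3137227), (nat_lit 0)]) (PF.cons PF.nil PF.nil))))) (PF.cons (PF.cons (PF.leaf (nat_lit 6338116) (nat_lit 1347218) (nat_lit 39731604) (nat_lit 18410609) [(nat_lit 0), (nat_lit 1347218), (nat_lit 3136081), (nat_lit 0)]) (PF.cons (PF.leaf (nat_lit 6571545) (nat_lit 364327) (nat_lit 39423150) (nat_lit 18321134) [(nat_lit 364327), (nat_lit 1356828), (nat_lit 3143271), (nat_lit 0)]) (PF.cons PF.nil (PF.cons PF.nil PF.nil)))) (PF.cons (PF.cons (PF.leaf (nat_lit 6979760) (nat_lit 1371927) (nat_lit 38609613) (nat_lit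
 18078097) [(nat_lit 0), (nat_lit 1371927), (nat_lit 3152659), (nat_lit 0)]) (PF.cons PF.nil PF.nil)) (PF.cons PF.nil PF.nil))))) (PF.cons (PF.cons (PF.cons (PF.leaf (nat_lit 6206363) (nat_lit 3120652) (nat_lit 39433303) (nat_lit 18313552) [(nat_lit 0), (nat_lit 0), (nat_lit 3120652), (nat_lit 0)]) (PF.cons (PF.leaf (nat_lit 6427707) (nat_lit 354277) (nat_lit 39142906) (nat_lit 18228597) [(nat_lit 354277), (nat_lit 0), (nat_lit 3127677), (nat_lit 0)]) (PF.cons (PF.leaf (nat_lit 6658087) (nat_lit 361429) (nat_lit 38843701) (nat_lit 18140158) [(nat_lit 361429), (nat_lit 0), (nat_lit 3134031), (nat_lit 0)]) (PF.cons PF.nil PF.nil)))) (PF.cons (PF.cons (PF.leaf (nat_lit 6826944) (nat_lit 1358972) (nat_lit 38348909) (nat_lit 17989617) [(nat_lit 0), (nat_lit 1358972), (nat_lit 3137104), (nat_lit 0)]) (PF.cons (PF.leaf (nat_lit 7059543) (nat_lit 369514) (nat_lit 38049257) (nat_lit 17898639) [(nat_lit 369514), (nat_lit 1366853), (nat_lit 3141515), (nat_lit 0)]) PF.nil))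 (PF.cons PF.nil PF.nil))) (PF.cons (PF.cons (PF.cons (PF.leaf (nat_lit 7299851) (nat_lit 3128902) (nat_lit 37023993) (nat_lit 17569208) [(nat_lit 0), (nat_lit 0), (nat_lit 3128902), (nat_lit 0)]) (PF.cons PF.nil PF.nil))
 (PF.cons PF.nil PF.nil)) (PF.cons PF.nil PF.nil)))))) (PF.cons (PF.cons (PF.cons (PF.cons (PF.leaf (nat_lit 4903619) (nat_lit 8015268) (nat_lit 40532941) (nat_lit 18560603) [(nat_lit 0), (nat_lit 0), (nat_lit 0), (nat_lit 8015268)]) (PF.cons (PF.leaf (nat_lit 5076424) (nat_lit 289884) (nat_lit 40309648) (nat_lit 18499229) [(nat_lit 289884), (nat_lit 0), (nat_lit 0), (nat_lit 8010050)]) (PF.cons (PF.leaf (nat_lit 5265705) (nat_lit 302660) (nat_lit 40067778) (nat_lit 18432119) [(nat_lit 302660), (nat_lit 0), (nat_lit 0), (nat_lit 8003594)]) (PF.cons (PF.leaf (nat_lit 5467563) (nat_lit 313884) (nat_lit 39811103) (nat_lit 18360195) [(nat_lit 313884), (nat_lit 0), (nat_lit 0), (nat_lit 7995860)]) (PF.cons (PF.leaf (nat_lit 5679877) (nat_lit 323881)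 (nat_lit 39542350) (nat_lit 18284115) [(nat_lit 323881), (nat_lit 0), (nat_lit 0), (nat_lit 7986819)]) (PF.cons (PF.leaf (nat_lit 5901170) (nat_lit 332871) (nat_lit 39263617) (nat_lit 18204384) [(nat_lit 332871), (nat_lit 0), (nat_lit 0), (nat_lit 7976452)]) (PF.cons (PF.leaf (nat_lit 6130213) (nat_lit 341011) (nat_lit 38976582) (nat_lit 18121406) [(nat_lit 341011), (nat_lit 0), (nat_lit 0), (nat_lit 7964753)]) (PF.cons PF.nil (PF.cons
 PF.nil PF.nil))))))))) (PF.cons (PF.cons (PF.leaf (nat_lit 5448452) (nat_lit 1250237) (nat_lit 39581705) (nat_lit 18293038) [(nat_lit 0), (nat_lit 1250237), (nat_lit 0), (nat_lit 7983831)]) (PF.cons (PF.leaf (nat_lit 5644755) (nat_lit 318242) (nat_lit 39330056) (nat_lit 18221194) [(nat_lit 318242), (nat_lit 1264621), (nat_lit 0), (nat_lit 7974697)]) (PF.cons (PF.leaf (nat_lit 5853398) (nat_lit 327970) (nat_lit 39065468) (nat_lit 18144922) [(nat_lit 327970), (nat_lit 1278253), (nat_lit 0), (nat_lit 7964227)]) (PF.cons (PF.leaf (nat_lit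 6071481) (nat_lit 336666) (nat_lit 38790466) (nat_lit 18064858) [(nat_lit 336666), (nat_lit 1291060), (nat_lit 0), (nat_lit 7952426)]) (PF.cons (PF.leaf (nat_lit 6297620) (nat_lit 344508) (nat_lit 38506968) (nat_lit 17981483) [(nat_lit 344508), (nat_lit 1303018), (nat_lit 0), (nat_lit 7939307)]) (PF.cons (PF.leaf (nat_lit 6530648) (nat_lit 351622) (nat_lit 38216498) (nat_lit 17895184) [(nat_lit 351622), (nat_lit 1314130), (nat_lit 0), (nat_lit 7924884)]) (PF.cons PF.nil PF.nil))))))) (PF.cons (PF.cons (PF.leaf (nat_lit 6028313) (nat_lit 1290026) (nat_lit 38586924) (nat_lit 18002847) [(nat_lit 0), (nat_lit 1290026), (nat_lit 0), (nat_lit 7938988)])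
 (PF.cons (PF.leaf (nat_lit 6241558) (nat_lit 339791) (nat_lit 38317142) (nat_lit 17922951) [(nat_lit 339791), (nat_lit 1301495), (nat_lit 0), (nat_lit 7925936)]) (PF.cons (PF.leaf (nat_lit 6464209) (nat_lit 347425) (nat_lit 38038319) (nat_lit 17839581) [(nat_lit 347425), (nat_lit 1312250), (nat_lit 0), (nat_lit 7911560)]) (PF.cons (PF.leaf (nat_lit 6694121) (nat_lit 354315) (nat_lit 37752233) (nat_lit 17753204) [(nat_lit 354315), (nat_lit 1322268), (nat_lit 0), (nat_lit 7895893)]) (PF.cons PF.nil PF.nil))))) (PF.cons (PF.cons (PF.leaf (nat_lit 6631303) (nat_lit 1320298) (nat_lit 37570576) (nat_lit 17695732) [(nat_lit 0), (nat_lit 1320298), (nat_lit 0), (nat_lit 7881609)]) (PF.cons (PF.leaf (nat_lit 6856768) (nat_lit 356512) (nat_lit 37289864) (nat_lit 17609647) [(nat_lit 356512), (nat_lit 1329309), (nat_lit 0), (nat_lit 7864859)]) (PF.cons (PF.leaf (nat_lit 7089523) (nat_lit 362593) (nat_lit 37002928) (nat_lit 17520828) [(nat_lit 362593), (nat_lit 1337668), (nat_lit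 0), (nat_lit 7846862)]) (PF.cons PF.nil PF.nil)))) (PF.cons (PF.cons (PF.leaf (nat_lit 7248705) (nat_lit 1342857) (nat_lit 36548187) (nat_lit 17376242) [(nat_lit 0), (nat_lit 1342857), (nat_lit 0), (nat_lit 7812950)])
 (PF.cons PF.nil PF.nil)) (PF.cons PF.nil PF.nil)))))) (PF.cons (PF.cons (PF.cons (PF.leaf (nat_lit 5921312) (nat_lit 3033260) (nat_lit 38270606) (nat_lit 17898976) [(nat_lit 0), (nat_lit 0), (nat_lit 3033260), (nat_lit 7905969)]) (PF.cons (PF.leaf (nat_lit 6119687) (nat_lit 326987) (nat_lit 38022068) (nat_lit 17824722) [(nat_lit 326987), (nat_lit 0), (nat_lit 3041510), (nat_lit 7893524)]) (PF.cons (PF.leaf (nat_lit 6329778) (nat_lit 336027) (nat_lit 37761611) (nat_lit 17746219) [(nat_lit 336027), (nat_lit 0), (nat_lit 3049218), (nat_lit 7879709)]) (PF.cons (PF.leaf (nat_lit 6548649) (nat_lit 344038) (nat_lit 37491718) (nat_lit 17664134) [(nat_lit 344038), (nat_lit 0), (nat_lit 3056265), (nat_lit 7864578)]) (PF.cons (PF.leaf (nat_lit 6775020) (nat_lit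 351208) (nat_lit 37214249) (nat_lit 17578970) [(nat_lit 351208), (nat_lit 0), (nat_lit 3062582), (nat_lit 7848177)]) (PF.cons PF.nil (PF.cons PF.nil PF.nil))))))) (PF.cons (PF.cons (PF.leaf (nat_lit 6499168) (nat_lit 1305338) (nat_lit 37297263) (nat_lit 17602391) [(nat_lit 0), (nat_lit 1305338), (nat_lit 3054474), (nat_lit 7849344)]) (PF.cons (PF.leaf (nat_lit 6712929) (nat_lit 346242) (nat_lit 37033314) (nat_lit 17520881) [(nat_lit
 346242), (nat_lit 1314921), (nat_lit 3060194), (nat_lit 7833259)]) (PF.cons (PF.leaf (nat_lit 6935497) (nat_lit 353269) (nat_lit 36761176) (nat_lit 17436105) [(nat_lit 353269), (nat_lit 1323838), (nat_lit 3065262), (nat_lit 7815889)]) (PF.cons (PF.leaf (nat_lit 7164760) (nat_lit 359565) (nat_lit 36482567) (nat_lit 17348543) [(nat_lit 359565), (nat_lit 1332080), (nat_lit 3069628), (nat_lit 7797294)]) (PF.cons PF.nil PF.nil))))) (PF.cons (PF.cons (PF.leaf (nat_lit 7096496) (nat_lit 1329488) (nat_lit 36309831) (nat_lit 17291785) [(nat_lit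 0), (nat_lit 1329488), (nat_lit 3066445), (nat_lit 7781772)]) (PF.cons (PF.leaf (nat_lit 7321149) (nat_lit 361031) (nat_lit 36037056) (nat_lit 17204852) [(nat_lit 361031), (nat_lit 1336889), (nat_lit 3069730), (nat_lit 7762362)]) (PF.cons PF.nil (PF.cons PF.nil PF.nil)))) (PF.cons (PF.cons (PF.leaf (nat_lit 7705354) (nat_lit 1346958) (nat_lit 35321766) (nat_lit 16971403) [(nat_lit 0), (nat_lit 1346958), (nat_lit 3070204), (nat_lit 7704563)]) (PF.cons PF.nil PF.nil)) (PF.cons PF.nil PF.nil))))) (PF.cons (PF.cons (PF.cons (PF.leaf (nat_lit 6956907) (nat_lit 3050070) (nat_lit 36056952) (nat_lit 17202374) [(nat_lit 0), (nat_lit 0), (nat_lit 3050070),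
 (nat_lit 7749345)]) (PF.cons (PF.leaf (nat_lit 7170359) (nat_lit 351055) (nat_lit 35799986) (nat_lit 17119997) [(nat_lit 351055), (nat_lit 0), (nat_lit 3053489), (nat_lit 7730795)]) (PF.cons (PF.leaf (nat_lit 7392172) (nat_lit 357545) (nat_lit 35535576) (nat_lit 17034555) [(nat_lit 357545), (nat_lit 0), (nat_lit 3056291), (nat_lit 7711006)]) (PF.cons PF.nil PF.nil)))) (PF.cons (PF.cons (PF.leaf (nat_lit 7547165) (nat_lit 1334058) (nat_lit 35101494) (nat_lit 16890831) [(nat_lit 0), (nat_lit 1334058), (nat_lit 3054379), (nat_lit 7673669)]) (PF.cons (PF.leaf (nat_lit 7770418) (nat_lit 364172) (nat_lit 34837401) (nat_lit 16803710) [(nat_lit 364172), (nat_lit 1340093), (nat_lit 3055647), (nat_lit 7652138)]) PF.nil)) (PF.cons PF.nil PF.nil))) (PF.cons (PF.cons (PF.cons (PF.leaf (nat_lit 7983473) (nat_lit 3036131) (nat_lit 33945866) (nat_lit 16495080) [(nat_lit 0), (nat_lit 0), (nat_lit 3036131), (nat_lit 7559472)]) (PF.cons PF.nil PF.nil)) (PF.cons PF.nil PF.nil)) (PF.cons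 PF.nil PF.nil))))) (PF.cons (PF.cons (PF.cons (PF.cons (PF.leaf (nat_lit 6652517) (nat_lit 7593595) (nat_lit 35088686) (nat_lit 16832936) [(nat_lit 0), (nat_lit 0), (nat_lit 0), (nat_lit 7593595)]) (PF.cons (PF.leaf
 (nat_lit 6845149) (nat_lit 324991) (nat_lit 34867315) (nat_lit 16760986) [(nat_lit 324991), (nat_lit 0), (nat_lit 0), (nat_lit 7577759)]) (PF.cons (PF.leaf (nat_lit 7048706) (nat_lit 333386) (nat_lit 34635674) (nat_lit 16685172) [(nat_lit 333386), (nat_lit 0), (nat_lit 0), (nat_lit 7560596)]) (PF.cons (PF.leaf (nat_lit 7260412) (nat_lit 340750) (nat_lit 34395979) (nat_lit 16606159) [(nat_lit 340750), (nat_lit 0), (nat_lit 0), (nat_lit 7542212)]) (PF.cons (PF.leaf (nat_lit 7478893) (nat_lit 347275) (nat_lit 34149884) (nat_lit 16524446) [(nat_lit 347275), (nat_lit 0), (nat_lit 0), (nat_lit 7522689)]) PF.nil))))) (PF.cons (PF.cons (PF.leaf (nat_lit 7205902) (nat_lit 1283961) (nat_lit 34226039) (nat_lit 16547924) [(nat_lit 0), (nat_lit 1283961), (nat_lit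 0), (nat_lit 7525443)]) (PF.cons (PF.leaf (nat_lit 7412263) (nat_lit 342127) (nat_lit 33992030) (nat_lit 16469857) [(nat_lit 342127), (nat_lit 1291735), (nat_lit 0), (nat_lit 7506530)]) (PF.cons (PF.leaf (nat_lit 7626823) (nat_lit 348551) (nat_lit 33751038) (nat_lit 16388900) [(nat_lit 348551), (nat_lit 1298868), (nat_lit 0), (nat_lit 7486450)]) (PF.cons PF.nil PF.nil)))) (PF.cons (PF.cons (PF.leaf (nat_lit 7775454) (nat_lit 1302136)
 (nat_lit 33354131) (nat_lit 16252526) [(nat_lit 0), (nat_lit 1302136), (nat_lit 0), (nat_lit 7448941)]) (PF.cons (PF.leaf (nat_lit 7991407) (nat_lit 355031) (nat_lit 33113117) (nat_lit 16170085) [(nat_lit 355031), (nat_lit 1307941), (nat_lit 0), (nat_lit 7427347)]) PF.nil)) (PF.cons PF.nil (PF.cons PF.nil PF.nil))))) (PF.cons (PF.cons (PF.cons (PF.leaf (nat_lit 7631384) (nat_lit 2963261) (nat_lit 33139136) (nat_lit 16171532) [(nat_lit 0), (nat_lit 0), (nat_lit 2963261), (nat_lit 7417441)]) (PF.cons (PF.leaf (nat_lit 7836980) (nat_lit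 345295) (nat_lit 32911891) (nat_lit 16093469) [(nat_lit 345295), (nat_lit 0), (nat_lit 2964298), (nat_lit 7396929)]) (PF.cons (PF.leaf (nat_lit 8050315) (nat_lit 351244) (nat_lit 32678261) (nat_lit 16012695) [(nat_lit 351244), (nat_lit 0), (nat_lit 2964769), (nat_lit 7375298)]) (PF.cons PF.nil PF.nil)))) (PF.cons (PF.cons (PF.leaf (nat_lit 8193485) (nat_lit 1302034) (nat_lit 32297075) (nat_lit 15878072) [(nat_lit 0), (nat_lit 1302034), (nat_lit 2959769), (nat_lit 7335929)]) (PF.cons PF.nil PF.nil)) (PF.cons PF.nil PF.nil))) (PF.cons (PF.cons (PF.cons (PF.leaf (nat_lit 8598642) (nat_lit 2935745) (nat_lit 31286550) (nat_lit 15511005) [(nat_lit 0),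
 (nat_lit 0), (nat_lit 2935745), (nat_lit 7219882)]) (PF.cons PF.nil PF.nil)) (PF.cons PF.nil PF.nil)) PF.nil))) (PF.cons (PF.cons (PF.cons (PF.cons (PF.leaf (nat_lit 8243465) (nat_lit 7091265) (nat_lit 30608377) (nat_lit 15226638) [(nat_lit 0), (nat_lit 0), (nat_lit 0), (nat_lit 7091265)]) (PF.cons (PF.leaf (nat_lit 8441416) (nat_lit 338083) (nat_lit 30406998) (nat_lit 15153590) [(nat_lit 338083), (nat_lit 0), (nat_lit 0), (nat_lit 7070046)]) (PF.cons PF.nil PF.nil))) (PF.cons (PF.cons (PF.leaf (nat_lit 8779697) (nat_lit 1266440) (nat_lit 29864290) (nat_lit 14953311) [(nat_lit 0), (nat_lit 1266440), (nat_lit 0), (nat_lit 7008256)]) PF.nil) PF.nil)) (PF.cons PF.nil PF.nil)) (PF.cons PF.nil (PF.cons PF.nil (PF.cons PF.nil (PF.cons PF.nil PF.nil))))))))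

def p15_16_3_0 : pfC (piC [(nat_lit 41351667), (nat_lit 26310893), (nat_lit 19519284), (nat_lit 13130440)] (nat_lit 4910231)) p15_16_3 (nat_lit 4) (nat_lit 0) (nat_lit 1) = true := by decide +kernel
def p15_16_3_1 : pfC (piC [(nat_lit 41351667), (nat_lit 26310893), (nat_lit 19519284), (nat_lit 13130440)] (nat_lit 4910231)) p15_16_3 (nat_lit 4) (nat_lit 1) (nat_lit 2) = true := by decide +kernel
def p15_16_3_2 : pfC (piC [(nat_lit 41351667), (nat_lit 26310893), (nat_lit 19519284), (nat_lit 13130440)] (nat_lit 4910231)) p15_16_3 (nat_lit 4) (nat_lit 2) (nat_lit 3) = true := by decide +kernel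
def p15_16_3_3 : pfC (piC [(nat_lit 41351667), (nat_lit 26310893), (nat_lit 19519284), (nat_lit 13130440)] (nat_lit 4910231)) p15_16_3 (nat_lit 4) (nat_lit 3) (nat_lit 4) = true := by decide +kernel
def p15_16_3_4 : pfC (piC [(nat_lit 41351667), (nat_lit 26310893), (nat_lit 19519284), (nat_lit 13130440)] (nat_lit 4910231)) p15_16_3 (nat_lit 4) (nat_lit 4) (nat_lit 5) = true := by decide +kernel
def p15_16_3_5 : pfC (piC [(nat_lit 41351667), (nat_lit 26310893), (nat_lit 19519284), (nat_lit 13130440)] (nat_lit 4910231)) p15_16_3 (nat_lit 4) (nat_lit 5) (nat_lit 6) = true := by decide +kernel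
def p15_16_3_6 : pfC (piC [(nat_lit 41351667), (nat_lit 26310893), (nat_lit 19519284), (nat_lit 13130440)] (nat_lit 4910231)) p15_16_3 (nat_lit 4) (nat_lit 6) (nat_lit 7) = true := by decide +kernel
def p15_16_3_7 : pfC (piC [(nat_lit 41351667), (nat_lit 26310893), (nat_lit 19519284), (nat_lit 13130440)] (nat_lit 4910231)) p15_16_3 (nat_lit 4) (nat_lit 7) (nat_lit 8) = true := by decide +kernel
def p15_16_3_8 : pfC (piC [(nat_lit 41351667), (nat_lit 26310893), (nat_lit 19519284), (nat_lit 13130440)] (nat_lit 4910231)) p15_16_3 (nat_lit 4) (nat_lit 8) (nat_lit 9) = true := by decide +kernel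
def p15_16_3_9 : pfC (piC [(nat_lit 41351667), (nat_lit 26310893), (nat_lit 19519284), (nat_lit 13130440)] (nat_lit 4910231)) p15_16_3 (nat_lit 4) (nat_lit 9) (nat_lit 10) = true := by decide +kernel
def p15_16_3_10 : pfC (piC [(nat_lit 41351667), (nat_lit 26310893), (nat_lit 19519284), (nat_lit 13130440)] (nat_lit 4910231)) p15_16_3 (nat_lit 4) (nat_lit 10) (nat_lit 11) = true := by decide +kernel
def p15_16_3_11 : pfC (piC [(nat_lit 41351667), (nat_lit 26310893), (nat_lit 19519284), (nat_lit 13130440)] (nat_lit 4910231)) p15_16_3 (nat_lit 4) (nat_lit 11) (nat_lit 12) = true := by decide +kernel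
def p15_16_3_12 : pfC (piC [(nat_lit 41351667), (nat_lit 26310893), (nat_lit 19519284), (nat_lit 13130440)] (nat_lit 4910231)) p15_16_3 (nat_lit 4) (nat_lit 12) (nat_lit 13) = true := by decide +kernel
def p15_16_3_13 : pfC (piC [(nat_lit 41351667), (nat_lit 26310893), (nat_lit 19519284), (nat_lit 13130440)] (nat_lit 4910231)) p15_16_3 (nat_lit 4) (nat_lit 13) (nat_lit 14) = true := by decide +kernel
def p15_16_3_14 : pfC (piC [(nat_lit 41351667), (nat_lit 26310893), (nat_lit 19519284), (nat_lit 13130440)] (nat_lit 4910231)) p15_16_3 (nat_lit 4) (nat_lit 14) (nat_lit 15) = true := by decide +kernel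
def p15_16_3_15 : pfC (piC [(nat_lit 41351667), (nat_lit 26310893), (nat_lit 19519284), (nat_lit 13130440)] (nat_lit 4910231)) p15_16_3 (nat_lit 4) (nat_lit 15) (nat_lit 16) = true := by decide +kernel
def p15_16_3_16 : pfC (piC [(nat_lit 41351667), (nat_lit 26310893), (nat_lit 19519284), (nat_lit 13130440)] (nat_lit 4910231)) p15_16_3 (nat_lit 4) (nat_lit 16) (nat_lit 17) = true := by decide +kernel
def p15_16_3_17 : pfC (piC [(nat_lit 41351667), (nat_lit 26310893), (nat_lit 19519284), (nat_lit 13130440)] (nat_lit 4910231)) p15_16_3 (nat_lit 4) (nat_lit 17) (nat_lit 18) = true := by decide +kernel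
def p15_16_3_18 : pfC (piC [(nat_lit 41351667), (nat_lit 26310893), (nat_lit 19519284), (nat_lit 13130440)] (nat_lit 4910231)) p15_16_3 (nat_lit 4) (nat_lit 18) (nat_lit 19) = true := by decide +kernel
def p15_16_3_19 : pfC (piC [(nat_lit 41351667), (nat_lit 26310893), (nat_lit 19519284), (nat_lit 13130440)] (nat_lit 4910231)) p15_16_3 (nat_lit 4) (nat_lit 19) (nat_lit 20) = true := by decide +kernel
def p15_16_3_20 : pfC (piC [(nat_lit 41351667), (nat_lit 26310893), (nat_lit 19519284), (nat_lit 13130440)] (nat_lit 4910231)) p15_16_3 (nat_lit 4) (nat_lit 20) (nat_lit 21) = true := by decide +kernel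
def p15_16_3_21 : pfC (piC [(nat_lit 41351667), (nat_lit 26310893), (nat_lit 19519284), (nat_lit 13130440)] (nat_lit 4910231)) p15_16_3 (nat_lit 4) (nat_lit 21) (nat_lit 22) = true := by decide +kernel
def p15_16_3_22 : pfC (piC [(nat_lit 41351667), (nat_lit 26310893), (nat_lit 19519284), (nat_lit 13130440)] (nat_lit 4910231)) p15_16_3 (nat_lit 4) (nat_lit 22) (nat_lit 23) = true := by decide +kernel
def p15_16_3_23 : pfC (piC [(nat_lit 41351667), (nat_lit 26310893), (nat_lit 19519284), (nat_lit 13130440)] (nat_lit 4910231)) p15_16_3 (nat_lit 4) (nat_lit 23) (nat_lit 24) = true := by decide +kernel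
def p15_16_3_24 : pfC (piC [(nat_lit 41351667), (nat_lit 26310893), (nat_lit 19519284), (nat_lit 13130440)] (nat_lit 4910231)) p15_16_3 (nat_lit 4) (nat_lit 24) (nat_lit 25) = true := by decide +kernel
def p15_16_3_25 : pfC (piC [(nat_lit 41351667), (nat_lit 26310893), (nat_lit 19519284), (nat_lit 13130440)] (nat_lit 4910231)) p15_16_3 (nat_lit 4) (nat_lit 25) (nat_lit 26) = true := by decide +kernel
def p15_16_3_26 : pfC (piC [(nat_lit 41351667), (nat_lit 26310893), (nat_lit 19519284), (nat_lit 13130440)] (nat_lit 4910231)) p15_16_3 (nat_lit 4) (nat_lit 26) (nat_lit 27) = true := by decide +kernel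
def p15_16_3_27 : pfC (piC [(nat_lit 41351667), (nat_lit 26310893), (nat_lit 19519284), (nat_lit 13130440)] (nat_lit 4910231)) p15_16_3 (nat_lit 4) (nat_lit 27) (nat_lit 28) = true := by decide +kernel
def p15_16_3_28 : pfC (piC [(nat_lit 41351667), (nat_lit 26310893), (nat_lit 19519284), (nat_lit 13130440)] (nat_lit 4910231)) p15_16_3 (nat_lit 4) (nat_lit 28) (nat_lit 29) = true := by decide +kernel
def p15_16_3_29 : pfC (piC [(nat_lit 41351667), (nat_lit 26310893), (nat_lit 19519284), (nat_lit 13130440)] (nat_lit 4910231)) p15_16_3 (nat_lit 4) (nat_lit 29) (nat_lit 30) = true := by decide +kernel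
def p15_16_3_30 : pfC (piC [(nat_lit 41351667), (nat_lit 26310893), (nat_lit 19519284), (nat_lit 13130440)] (nat_lit 4910231)) p15_16_3 (nat_lit 4) (nat_lit 30) (nat_lit 31) = true := by decide +kernel
def p15_16_3_31 : pfC (piC [(nat_lit 41351667), (nat_lit 26310893), (nat_lit 19519284), (nat_lit 13130440)] (nat_lit 4910231)) p15_16_3 (nat_lit 4) (nat_lit 31) (nat_lit 32) = true := by decide +kernel
def p15_16_3_32 : pfC (piC [(nat_lit 41351667), (nat_lit 26310893), (nat_lit 19519284), (nat_lit 13130440)] (nat_lit 4910231)) p15_16_3 (nat_lit 4) (nat_lit 32) (nat_lit 33) = true := by decide +kernel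
def p15_16_3_33 : pfC (piC [(nat_lit 41351667), (nat_lit 26310893), (nat_lit 19519284), (nat_lit 13130440)] (nat_lit 4910231)) p15_16_3 (nat_lit 4) (nat_lit 33) (nat_lit 34) = true := by decide +kernel
def p15_16_3_34 : pfC (piC [(nat_lit 41351667), (nat_lit 26310893), (nat_lit 19519284), (nat_lit 13130440)] (nat_lit 4910231)) p15_16_3 (nat_lit 4) (nat_lit 34) (nat_lit 35) = true := by decide +kernel
def p15_16_3_35 : pfC (piC [(nat_lit 41351667), (nat_lit 26310893), (nat_lit 19519284), (nat_lit 13130440)] (nat_lit 4910231)) p15_16_3 (nat_lit 4) (nat_lit 35) (nat_lit 36) = true := by decide +kernel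
def p15_16_3_36 : pfC (piC [(nat_lit 41351667), (nat_lit 26310893), (nat_lit 19519284), (nat_lit 13130440)] (nat_lit 4910231)) p15_16_3 (nat_lit 4) (nat_lit 36) (nat_lit 37) = true := by decide +kernel
def p15_16_3_37 : pfC (piC [(nat_lit 41351667), (nat_lit 26310893), (nat_lit 19519284), (nat_lit 13130440)] (nat_lit 4910231)) p15_16_3 (nat_lit 4) (nat_lit 37) (nat_lit 38) = true := by decide +kernel
def p15_16_3_38 : pfC (piC [(nat_lit 41351667), (nat_lit 26310893), (nat_lit 19519284), (nat_lit 13130440)] (nat_lit 4910231)) p15_16_3 (nat_lit 4) (nat_lit 38) (nat_lit 39) = true := by decide +kernel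
def p15_16_3_39 : pfC (piC [(nat_lit 41351667), (nat_lit 26310893), (nat_lit 19519284), (nat_lit 13130440)] (nat_lit 4910231)) p15_16_3 (nat_lit 4) (nat_lit 39) (nat_lit 40) = true := by decide +kernel
def p15_16_3_40 : pfC (piC [(nat_lit 41351667), (nat_lit 26310893), (nat_lit 19519284), (nat_lit 13130440)] (nat_lit 4910231)) p15_16_3 (nat_lit 4) (nat_lit 40) (nat_lit 41) = true := by decide +kernel
def p15_16_3_41 : pfC (piC [(nat_lit 41351667), (nat_lit 26310893), (nat_lit 19519284), (nat_lit 13130440)] (nat_lit 4910231)) p15_16_3 (nat_lit 4) (nat_lit 41) (nat_lit 42) = true := by decide +kernel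
def p15_16_3_42 : pfC (piC [(nat_lit 41351667), (nat_lit 26310893), (nat_lit 19519284), (nat_lit 13130440)] (nat_lit 4910231)) p15_16_3 (nat_lit 4) (nat_lit 42) (nat_lit 43) = true := by decide +kernel
def p15_16_3_43 : pfC (piC [(nat_lit 41351667), (nat_lit 26310893), (nat_lit 19519284), (nat_lit 13130440)] (nat_lit 4910231)) p15_16_3 (nat_lit 4) (nat_lit 43) (nat_lit 44) = true := by decide +kernel
def p15_16_3_44 : pfC (piC [(nat_lit 41351667), (nat_lit 26310893), (nat_lit 19519284), (nat_lit 13130440)] (nat_lit 4910231)) p15_16_3 (nat_lit 4) (nat_lit 44) (nat_lit 45) = true := by decide +kernel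
def p15_16_3_45 : pfC (piC [(nat_lit 41351667), (nat_lit 26310893), (nat_lit 19519284), (nat_lit 13130440)] (nat_lit 4910231)) p15_16_3 (nat_lit 4) (nat_lit 45) (nat_lit 46) = true := by decide +kernel
def p15_16_3_46 : pfC (piC [(nat_lit 41351667), (nat_lit 26310893), (nat_lit 19519284), (nat_lit 13130440)] (nat_lit 4910231)) p15_16_3 (nat_lit 4) (nat_lit 46) (nat_lit 47) = true := by decide +kernel
def p15_16_3_47 : pfC (piC [(nat_lit 41351667), (nat_lit 26310893), (nat_lit 19519284), (nat_lit 13130440)] (nat_lit 4910231)) p15_16_3 (nat_lit 4) (nat_lit 47) (nat_lit 48) = true := by decide +kernel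
def p15_16_3_48 : pfC (piC [(nat_lit 41351667), (nat_lit 26310893), (nat_lit 19519284), (nat_lit 13130440)] (nat_lit 4910231)) p15_16_3 (nat_lit 4) (nat_lit 48) (nat_lit 49) = true := by decide +kernel
def p15_16_3_49 : pfC (piC [(nat_lit 41351667), (nat_lit 26310893), (nat_lit 19519284), (nat_lit 13130440)] (nat_lit 4910231)) p15_16_3 (nat_lit 4) (nat_lit 49) (nat_lit 50) = true := by decide +kernel
def p15_16_3_50 : pfC (piC [(nat_lit 41351667), (nat_lit 26310893), (nat_lit 19519284), (nat_lit 13130440)] (nat_lit 4910231)) p15_16_3 (nat_lit 4) (nat_lit 50) (nat_lit 51) = true := by decide +kernel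
def p15_16_3_51 : pfC (piC [(nat_lit 41351667), (nat_lit 26310893), (nat_lit 19519284), (nat_lit 13130440)] (nat_lit 4910231)) p15_16_3 (nat_lit 4) (nat_lit 51) (nat_lit 52) = true := by decide +kernel
def p15_16_3_52 : pfC (piC [(nat_lit 41351667), (nat_lit 26310893), (nat_lit 19519284), (nat_lit 13130440)] (nat_lit 4910231)) p15_16_3 (nat_lit 4) (nat_lit 52) (nat_lit 53) = true := by decide +kernel
def p15_16_3_53 : pfC (piC [(nat_lit 41351667), (nat_lit 26310893), (nat_lit 19519284), (nat_lit 13130440)] (nat_lit 4910231)) p15_16_3 (nat_lit 4) (nat_lit 53) (nat_lit 54) = true := by decide +kernel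
def p15_16_3_54 : pfC (piC [(nat_lit 41351667), (nat_lit 26310893), (nat_lit 19519284), (nat_lit 13130440)] (nat_lit 4910231)) p15_16_3 (nat_lit 4) (nat_lit 54) (nat_lit 55) = true := by decide +kernel
def p15_16_3_55 : pfC (piC [(nat_lit 41351667), (nat_lit 26310893), (nat_lit 19519284), (nat_lit 13130440)] (nat_lit 4910231)) p15_16_3 (nat_lit 4) (nat_lit 55) (nat_lit 56) = true := by decide +kernel
def p15_16_3_56 : pfC (piC [(nat_lit 41351667), (nat_lit 26310893), (nat_lit 19519284), (nat_lit 13130440)] (nat_lit 4910231)) p15_16_3 (nat_lit 4) (nat_lit 56) (nat_lit 57) = true := by decide +kernel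
def p15_16_3_57 : pfC (piC [(nat_lit 41351667), (nat_lit 26310893), (nat_lit 19519284), (nat_lit 13130440)] (nat_lit 4910231)) p15_16_3 (nat_lit 4) (nat_lit 57) (nat_lit 58) = true := by decide +kernel
def p15_16_3_58 : pfC (piC [(nat_lit 41351667), (nat_lit 26310893), (nat_lit 19519284), (nat_lit 13130440)] (nat_lit 4910231)) p15_16_3 (nat_lit 4) (nat_lit 58) (nat_lit 59) = true := by decide +kernel
def p15_16_3_59 : pfC (piC [(nat_lit 41351667), (nat_lit 26310893), (nat_lit 19519284), (nat_lit 13130440)] (nat_lit 4910231)) p15_16_3 (nat_lit 4) (nat_lit 59) (nat_lit 60) = true := by decide +kernel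
def p15_16_3_60 : pfC (piC [(nat_lit 41351667), (nat_lit 26310893), (nat_lit 19519284), (nat_lit 13130440)] (nat_lit 4910231)) p15_16_3 (nat_lit 4) (nat_lit 60) (nat_lit 61) = true := by decide +kernel
def p15_16_3_61 : pfC (piC [(nat_lit 41351667), (nat_lit 26310893), (nat_lit 19519284), (nat_lit 13130440)] (nat_lit 4910231)) p15_16_3 (nat_lit 4) (nat_lit 61) (nat_lit 62) = true := by decide +kernel
def p15_16_3_62 : pfC (piC [(nat_lit 41351667), (nat_lit 26310893), (nat_lit 19519284), (nat_lit 13130440)] (nat_lit 4910231)) p15_16_3 (nat_lit 4) (nat_lit 62) (nat_lit 63) = true := by decide +kernel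
def p15_16_3_63 : pfC (piC [(nat_lit 41351667), (nat_lit 26310893), (nat_lit 19519284), (nat_lit 13130440)] (nat_lit 4910231)) p15_16_3 (nat_lit 4) (nat_lit 63) (nat_lit 64) = true := by decide +kernel
def p15_16_3_64 : pfC (piC [(nat_lit 41351667), (nat_lit 26310893), (nat_lit 19519284), (nat_lit 13130440)] (nat_lit 4910231)) p15_16_3 (nat_lit 4) (nat_lit 64) (nat_lit 65) = true := by decide +kernel
def p15_16_3_65 : pfC (piC [(nat_lit 41351667), (nat_lit 26310893), (nat_lit 19519284), (nat_lit 13130440)] (nat_lit 4910231)) p15_16_3 (nat_lit 4) (nat_lit 65) (nat_lit 66) = true := by decide +kernel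
def p15_16_3_66 : pfC (piC [(nat_lit 41351667), (nat_lit 26310893), (nat_lit 19519284), (nat_lit 13130440)] (nat_lit 4910231)) p15_16_3 (nat_lit 4) (nat_lit 66) (nat_lit 67) = true := by decide +kernel
def p15_16_3_67 : pfC (piC [(nat_lit 41351667), (nat_lit 26310893), (nat_lit 19519284), (nat_lit 13130440)] (nat_lit 4910231)) p15_16_3 (nat_lit 4) (nat_lit 67) (nat_lit 68) = true := by decide +kernel
def p15_16_3_68 : pfC (piC [(nat_lit 41351667), (nat_lit 26310893), (nat_lit 19519284), (nat_lit 13130440)] (nat_lit 4910231)) p15_16_3 (nat_lit 4) (nat_lit 68) (nat_lit 69) = true := by decide +kernel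
def p15_16_3_69 : pfC (piC [(nat_lit 41351667), (nat_lit 26310893), (nat_lit 19519284), (nat_lit 13130440)] (nat_lit 4910231)) p15_16_3 (nat_lit 4) (nat_lit 69) (nat_lit 70) = true := by decide +kernel
def p15_16_3_70 : pfC (piC [(nat_lit 41351667), (nat_lit 26310893), (nat_lit 19519284), (nat_lit 13130440)] (nat_lit 4910231)) p15_16_3 (nat_lit 4) (nat_lit 70) (nat_lit 71) = true := by decide +kernel
def p15_16_3_71 : pfC (piC [(nat_lit 41351667), (nat_lit 26310893), (nat_lit 19519284), (nat_lit 13130440)] (nat_lit 4910231)) p15_16_3 (nat_lit 4) (nat_lit 71) (nat_lit 72) = true := by decide +kernel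
def p15_16_3_72 : pfC (piC [(nat_lit 41351667), (nat_lit 26310893), (nat_lit 19519284), (nat_lit 13130440)] (nat_lit 4910231)) p15_16_3 (nat_lit 4) (nat_lit 72) (nat_lit 73) = true := by decide +kernel
def p15_16_3_73 : pfC (piC [(nat_lit 41351667), (nat_lit 26310893), (nat_lit 19519284), (nat_lit 13130440)] (nat_lit 4910231)) p15_16_3 (nat_lit 4) (nat_lit 73) (nat_lit 74) = true := by decide +kernel
def p15_16_3_74 : pfC (piC [(nat_lit 41351667), (nat_lit 26310893), (nat_lit 19519284), (nat_lit 13130440)] (nat_lit 4910231)) p15_16_3 (nat_lit 4) (nat_lit 74) (nat_lit 75) = true := by decide +kernel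
def p15_16_3_75 : pfC (piC [(nat_lit 41351667), (nat_lit 26310893), (nat_lit 19519284), (nat_lit 13130440)] (nat_lit 4910231)) p15_16_3 (nat_lit 4) (nat_lit 75) (nat_lit 76) = true := by decide +kernel
def p15_16_3_76 : pfC (piC [(nat_lit 41351667), (nat_lit 26310893), (nat_lit 19519284), (nat_lit 13130440)] (nat_lit 4910231)) p15_16_3 (nat_lit 4) (nat_lit 76) (nat_lit 77) = true := by decide +kernel
def p15_16_3_77 : pfC (piC [(nat_lit 41351667), (nat_lit 26310893), (nat_lit 19519284), (nat_lit 13130440)] (nat_lit 4910231)) p15_16_3 (nat_lit 4) (nat_lit 77) (nat_lit 78) = true := by decide +kernel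
def p15_16_3_78 : pfC (piC [(nat_lit 41351667), (nat_lit 26310893), (nat_lit 19519284), (nat_lit 13130440)] (nat_lit 4910231)) p15_16_3 (nat_lit 4) (nat_lit 78) (nat_lit 79) = true := by decide +kernel
def p15_16_3_79 : pfC (piC [(nat_lit 41351667), (nat_lit 26310893), (nat_lit 19519284), (nat_lit 13130440)] (nat_lit 4910231)) p15_16_3 (nat_lit 4) (nat_lit 79) (nat_lit 80) = true := by decide +kernel
def p15_16_3_80 : pfC (piC [(nat_lit 41351667), (nat_lit 26310893), (nat_lit 19519284), (nat_lit 13130440)] (nat_lit 4910231)) p15_16_3 (nat_lit 4) (nat_lit 80) (nat_lit 81) = true := by decide +kernel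
def p15_16_3_81 : pfC (piC [(nat_lit 41351667), (nat_lit 26310893), (nat_lit 19519284), (nat_lit 13130440)] (nat_lit 4910231)) p15_16_3 (nat_lit 4) (nat_lit 81) (nat_lit 82) = true := by decide +kernel
def p15_16_3_82 : pfC (piC [(nat_lit 41351667), (nat_lit 26310893), (nat_lit 19519284), (nat_lit 13130440)] (nat_lit 4910231)) p15_16_3 (nat_lit 4) (nat_lit 82) (nat_lit 83) = true := by decide +kernel
def p15_16_3_83 : pfC (piC [(nat_lit 41351667), (nat_lit 26310893), (nat_lit 19519284), (nat_lit 13130440)] (nat_lit 4910231)) p15_16_3 (nat_lit 4) (nat_lit 83) (nat_lit 84) = true := by decide +kernel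
def p15_16_3_84 : pfC (piC [(nat_lit 41351667), (nat_lit 26310893), (nat_lit 19519284), (nat_lit 13130440)] (nat_lit 4910231)) p15_16_3 (nat_lit 4) (nat_lit 84) (nat_lit 85) = true := by decide +kernel
def p15_16_3_85 : pfC (piC [(nat_lit 41351667), (nat_lit 26310893), (nat_lit 19519284), (nat_lit 13130440)] (nat_lit 4910231)) p15_16_3 (nat_lit 4) (nat_lit 85) (nat_lit 86) = true := by decide +kernel
def p15_16_3_86 : pfC (piC [(nat_lit 41351667), (nat_lit 26310893), (nat_lit 19519284), (nat_lit 13130440)] (nat_lit 4910231)) p15_16_3 (nat_lit 4) (nat_lit 86) (nat_lit 87) = true := by decide +kernel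
def p15_16_3_87 : pfC (piC [(nat_lit 41351667), (nat_lit 26310893), (nat_lit 19519284), (nat_lit 13130440)] (nat_lit 4910231)) p15_16_3 (nat_lit 4) (nat_lit 87) (nat_lit 88) = true := by decide +kernel
def p15_16_3_88 : pfC (piC [(nat_lit 41351667), (nat_lit 26310893), (nat_lit 19519284), (nat_lit 13130440)] (nat_lit 4910231)) p15_16_3 (nat_lit 4) (nat_lit 88) (nat_lit 89) = true := by decide +kernel
def p15_16_3_89 : pfC (piC [(nat_lit 41351667), (nat_lit 26310893), (nat_lit 19519284), (nat_lit 13130440)] (nat_lit 4910231)) p15_16_3 (nat_lit 4) (nat_lit 89) (nat_lit 90) = true := by decide +kernel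
def p15_16_3_90 : pfC (piC [(nat_lit 41351667), (nat_lit 26310893), (nat_lit 19519284), (nat_lit 13130440)] (nat_lit 4910231)) p15_16_3 (nat_lit 4) (nat_lit 90) (nat_lit 91) = true := by decide +kernel
def p15_16_3_91 : pfC (piC [(nat_lit 41351667), (nat_lit 26310893), (nat_lit 19519284), (nat_lit 13130440)] (nat_lit 4910231)) p15_16_3 (nat_lit 4) (nat_lit 91) (nat_lit 92) = true := by decide +kernel
def p15_16_3_92 : pfC (piC [(nat_lit 41351667), (nat_lit 26310893), (nat_lit 19519284), (nat_lit 13130440)] (nat_lit 4910231)) p15_16_3 (nat_lit 4) (nat_lit 92) (nat_lit 93) = true := by decide +kernel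
def p15_16_3_93 : pfC (piC [(nat_lit 41351667), (nat_lit 26310893), (nat_lit 19519284), (nat_lit 13130440)] (nat_lit 4910231)) p15_16_3 (nat_lit 4) (nat_lit 93) (nat_lit 94) = true := by decide +kernel
def p15_16_3_94 : pfC (piC [(nat_lit 41351667), (nat_lit 26310893), (nat_lit 19519284), (nat_lit 13130440)] (nat_lit 4910231)) p15_16_3 (nat_lit 4) (nat_lit 94) (nat_lit 95) = true := by decide +kernel
def p15_16_3_95 : pfC (piC [(nat_lit 41351667), (nat_lit 26310893), (nat_lit 19519284), (nat_lit 13130440)] (nat_lit 4910231)) p15_16_3 (nat_lit 4) (nat_lit 95) (nat_lit 96) = true := by decide +kernel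
def p15_16_3_96 : pfC (piC [(nat_lit 41351667), (nat_lit 26310893), (nat_lit 19519284), (nat_lit 13130440)] (nat_lit 4910231)) p15_16_3 (nat_lit 4) (nat_lit 96) (nat_lit 97) = true := by decide +kernel
def p15_16_3_97 : pfC (piC [(nat_lit 41351667), (nat_lit 26310893), (nat_lit 19519284), (nat_lit 13130440)] (nat_lit 4910231)) p15_16_3 (nat_lit 4) (nat_lit 97) (nat_lit 98) = true := by decide +kernel
def p15_16_3_98 : pfC (piC [(nat_lit 41351667), (nat_lit 26310893), (nat_lit 19519284), (nat_lit 13130440)] (nat_lit 4910231)) p15_16_3 (nat_lit 4) (nat_lit 98) (nat_lit 99) = true := by decide +kernel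
def p15_16_3_99 : pfC (piC [(nat_lit 41351667), (nat_lit 26310893), (nat_lit 19519284), (nat_lit 13130440)] (nat_lit 4910231)) p15_16_3 (nat_lit 4) (nat_lit 99) (nat_lit 100) = true := by decide +kernel
def p15_16_3_100 : pfC (piC [(nat_lit 41351667), (nat_lit 26310893), (nat_lit 19519284), (nat_lit 13130440)] (nat_lit 4910231)) p15_16_3 (nat_lit 4) (nat_lit 100) (nat_lit 101) = true := by decide +kernel
def p15_16_3_101 : pfC (piC [(nat_lit 41351667), (nat_lit 26310893), (nat_lit 19519284), (nat_lit 13130440)] (nat_lit 4910231)) p15_16_3 (nat_lit 4) (nat_lit 101) (nat_lit 102) = true := by decide +kernel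
def p15_16_3_102 : pfC (piC [(nat_lit 41351667), (nat_lit 26310893), (nat_lit 19519284), (nat_lit 13130440)] (nat_lit 4910231)) p15_16_3 (nat_lit 4) (nat_lit 102) (nat_lit 103) = true := by decide +kernel
def p15_16_3_103 : pfC (piC [(nat_lit 41351667), (nat_lit 26310893), (nat_lit 19519284), (nat_lit 13130440)] (nat_lit 4910231)) p15_16_3 (nat_lit 4) (nat_lit 103) (nat_lit 104) = true := by decide +kernel
def p15_16_3_104 : pfC (piC [(nat_lit 41351667), (nat_lit 26310893), (nat_lit 19519284), (nat_lit 13130440)] (nat_lit 4910231)) p15_16_3 (nat_lit 4) (nat_lit 104) (nat_lit 105) = true := by decide +kernel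
def p15_16_3_105 : pfC (piC [(nat_lit 41351667), (nat_lit 26310893), (nat_lit 19519284), (nat_lit 13130440)] (nat_lit 4910231)) p15_16_3 (nat_lit 4) (nat_lit 105) (nat_lit 106) = true := by decide +kernel
def p15_16_3_106 : pfC (piC [(nat_lit 41351667), (nat_lit 26310893), (nat_lit 19519284), (nat_lit 13130440)] (nat_lit 4910231)) p15_16_3 (nat_lit 4) (nat_lit 106) (nat_lit 107) = true := by decide +kernel
def p15_16_3_107 : pfC (piC [(nat_lit 41351667), (nat_lit 26310893), (nat_lit 19519284), (nat_lit 13130440)] (nat_lit 4910231)) p15_16_3 (nat_lit 4) (nat_lit 107) (nat_lit 108) = true := by decide +kernel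
def p15_16_3_108 : pfC (piC [(nat_lit 41351667), (nat_lit 26310893), (nat_lit 19519284), (nat_lit 13130440)] (nat_lit 4910231)) p15_16_3 (nat_lit 4) (nat_lit 108) (nat_lit 109) = true := by decide +kernel
def p15_16_3_109 : pfC (piC [(nat_lit 41351667), (nat_lit 26310893), (nat_lit 19519284), (nat_lit 13130440)] (nat_lit 4910231)) p15_16_3 (nat_lit 4) (nat_lit 109) (nat_lit 110) = true := by decide +kernel
def p15_16_3_110 : pfC (piC [(nat_lit 41351667), (nat_lit 26310893), (nat_lit 19519284), (nat_lit 13130440)] (nat_lit 4910231)) p15_16_3 (nat_lit 4) (nat_lit 110) (nat_lit 111) = true := by decide +kernel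
def p15_16_3_111 : pfC (piC [(nat_lit 41351667), (nat_lit 26310893), (nat_lit 19519284), (nat_lit 13130440)] (nat_lit 4910231)) p15_16_3 (nat_lit 4) (nat_lit 111) (nat_lit 112) = true := by decide +kernel
def p15_16_3_112 : pfC (piC [(nat_lit 41351667), (nat_lit 26310893), (nat_lit 19519284), (nat_lit 13130440)] (nat_lit 4910231)) p15_16_3 (nat_lit 4) (nat_lit 112) (nat_lit 113) = true := by decide +kernel
def p15_16_3_113 : pfC (piC [(nat_lit 41351667), (nat_lit 26310893), (nat_lit 19519284), (nat_lit 13130440)] (nat_lit 4910231)) p15_16_3 (nat_lit 4) (nat_lit 113) (nat_lit 114) = true := by decide +kernel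
def p15_16_3_114 : pfC (piC [(nat_lit 41351667), (nat_lit 26310893), (nat_lit 19519284), (nat_lit 13130440)] (nat_lit 4910231)) p15_16_3 (nat_lit 4) (nat_lit 114) (nat_lit 115) = true := by decide +kernel
def p15_16_3_115 : pfC (piC [(nat_lit 41351667), (nat_lit 26310893), (nat_lit 19519284), (nat_lit 13130440)] (nat_lit 4910231)) p15_16_3 (nat_lit 4) (nat_lit 115) (nat_lit 116) = true := by decide +kernel
def p15_16_3_116 : pfC (piC [(nat_lit 41351667), (nat_lit 26310893), (nat_lit 19519284), (nat_lit 13130440)] (nat_lit 4910231)) p15_16_3 (nat_lit 4) (nat_lit 116) (nat_lit 117) = true := by decide +kernel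
def p15_16_3_117 : pfC (piC [(nat_lit 41351667), (nat_lit 26310893), (nat_lit 19519284), (nat_lit 13130440)] (nat_lit 4910231)) p15_16_3 (nat_lit 4) (nat_lit 117) (nat_lit 118) = true := by decide +kernel
def p15_16_3_118 : pfC (piC [(nat_lit 41351667), (nat_lit 26310893), (nat_lit 19519284), (nat_lit 13130440)] (nat_lit 4910231)) p15_16_3 (nat_lit 4) (nat_lit 118) (nat_lit 119) = true := by decide +kernel
def p15_16_3_119 : pfC (piC [(nat_lit 41351667), (nat_lit 26310893), (nat_lit 19519284), (nat_lit 13130440)] (nat_lit 4910231)) p15_16_3 (nat_lit 4) (nat_lit 119) (nat_lit 120) = true := by decide +kernel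
def p15_16_3_120 : pfC (piC [(nat_lit 41351667), (nat_lit 26310893), (nat_lit 19519284), (nat_lit 13130440)] (nat_lit 4910231)) p15_16_3 (nat_lit 4) (nat_lit 120) (nat_lit 121) = true := by decide +kernel
def p15_16_3_121 : pfC (piC [(nat_lit 41351667), (nat_lit 26310893), (nat_lit 19519284), (nat_lit 13130440)] (nat_lit 4910231)) p15_16_3 (nat_lit 4) (nat_lit 121) (nat_lit 122) = true := by decide +kernel
def p15_16_3_122 : pfC (piC [(nat_lit 41351667), (nat_lit 26310893), (nat_lit 19519284), (nat_lit 13130440)] (nat_lit 4910231)) p15_16_3 (nat_lit 4) (nat_lit 122) (nat_lit 123) = true := by decide +kernel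
def p15_16_3_123 : pfC (piC [(nat_lit 41351667), (nat_lit 26310893), (nat_lit 19519284), (nat_lit 13130440)] (nat_lit 4910231)) p15_16_3 (nat_lit 4) (nat_lit 123) (nat_lit 124) = true := by decide +kernel
def p15_16_3_124 : pfC (piC [(nat_lit 41351667), (nat_lit 26310893), (nat_lit 19519284), (nat_lit 13130440)] (nat_lit 4910231)) p15_16_3 (nat_lit 4) (nat_lit 124) (nat_lit 125) = true := by decide +kernel
def p15_16_3_125 : pfC (piC [(nat_lit 41351667), (nat_lit 26310893), (nat_lit 19519284), (nat_lit 13130440)] (nat_lit 4910231)) p15_16_3 (nat_lit 4) (nat_lit 125) (nat_lit 126) = true := by decide +kernel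
def p15_16_3_126 : pfC (piC [(nat_lit 41351667), (nat_lit 26310893), (nat_lit 19519284), (nat_lit 13130440)] (nat_lit 4910231)) p15_16_3 (nat_lit 4) (nat_lit 126) (nat_lit 127) = true := by decide +kernel
def p15_16_3_127 : pfC (piC [(nat_lit 41351667), (nat_lit 26310893), (nat_lit 19519284), (nat_lit 13130440)] (nat_lit 4910231)) p15_16_3 (nat_lit 4) (nat_lit 127) (nat_lit 128) = true := by decide +kernel
theorem p15_16_3_T : PfS (PiF n15_16.reverse (nat_lit 4910231)) p15_16_3 (nat_lit 4) [] 0 :=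
  pftab_of (los := [(nat_lit 41351667), (nat_lit 26310893), (nat_lit 19519284), (nat_lit 13130440)]) (by decide +kernel) (hi := (nat_lit 128)) (PfP.trans (PfP.trans (PfP.trans (PfP.trans (PfP.trans (PfP.trans (PfP.trans (PfP.trans (PfP.trans (PfP.trans (PfP.trans (PfP.trans (PfP.trans (PfP.trans (PfP.trans (PfP.trans (PfP.trans (PfP.trans (PfP.trans (PfP.trans (PfP.trans (PfP.trans (PfP.trans (PfP.trans (PfP.trans (PfP.trans (PfP.trans (PfP.trans (PfP.trans (PfP.trans (PfP.trans (PfP.trans (PfP.trans (PfP.trans (PfP.trans (PfP.trans (PfP.trans (PfP.trans (PfP.trans (PfP.trans (PfP.trans (PfP.trans (PfP.trans (PfP.trans (PfP.trans (PfP.trans (PfP.trans (PfP.trans (PfP.trans (PfP.trans (PfP.trans (PfP.trans (PfP.trans (PfP.trans (PfP.trans (PfP.trans (PfP.trans (PfP.trans (PfP.trans (PfP.trans (PfP.trans (PfP.trans (PfP.trans (PfP.trans (PfP.trans (PfP.trans (PfP.trans (PfP.trans (PfP.trans (PfP.trans (PfP.trans (PfP.trans (PfP.trans (PfP.trans (PfP.trans (PfP.trans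 (PfP.trans (PfP.trans (PfP.trans (PfP.trans (PfP.trans (PfP.trans (PfP.trans (PfP.trans (PfP.trans (PfP.trans (PfP.trans (PfP.trans (PfP.trans (PfP.trans (PfP.trans (PfP.trans (PfP.trans (PfP.trans (PfP.trans (PfP.trans (PfP.trans (PfP.trans (PfP.trans (PfP.trans (PfP.trans (PfP.trans (PfP.trans (PfP.trans (PfP.trans (PfP.trans (PfP.trans (PfP.trans (PfP.trans
 (PfP.trans (PfP.trans (PfP.trans (PfP.trans (PfP.trans (PfP.trans (PfP.trans (PfP.trans (PfP.trans (PfP.trans (PfP.trans (PfP.trans (PfP.trans (PfP.trans (PfP.trans (PfP.trans (PfP.trans (PfP.trans (pfC_sound p15_16_3_0) (pfC_sound p15_16_3_1)) (pfC_sound p15_16_3_2)) (pfC_sound p15_16_3_3)) (pfC_sound p15_16_3_4)) (pfC_sound p15_16_3_5)) (pfC_sound p15_16_3_6)) (pfC_sound p15_16_3_7)) (pfC_sound p15_16_3_8)) (pfC_sound p15_16_3_9)) (pfC_sound p15_16_3_10)) (pfC_sound p15_16_3_11)) (pfC_sound p15_16_3_12)) (pfC_sound p15_16_3_13)) (pfC_sound p15_16_3_14)) (pfC_sound p15_16_3_15)) (pfC_sound p15_16_3_16))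 (pfC_sound p15_16_3_17)) (pfC_sound p15_16_3_18)) (pfC_sound p15_16_3_19)) (pfC_sound p15_16_3_20)) (pfC_sound p15_16_3_21)) (pfC_sound p15_16_3_22)) (pfC_sound p15_16_3_23)) (pfC_sound p15_16_3_24)) (pfC_sound p15_16_3_25)) (pfC_sound p15_16_3_26)) (pfC_sound p15_16_3_27)) (pfC_sound p15_16_3_28)) (pfC_sound p15_16_3_29)) (pfC_sound p15_16_3_30)) (pfC_sound p15_16_3_31)) (pfC_sound p15_16_3_32)) (pfC_sound p15_16_3_33)) (pfC_sound p15_16_3_34)) (pfC_sound p15_16_3_35)) (pfC_sound p15_16_3_36)) (pfC_sound p15_16_3_37)) (pfC_sound p15_16_3_38)) (pfC_sound p15_16_3_39)) (pfC_sound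
 p15_16_3_40)) (pfC_sound p15_16_3_41)) (pfC_sound p15_16_3_42)) (pfC_sound p15_16_3_43)) (pfC_sound p15_16_3_44)) (pfC_sound p15_16_3_45)) (pfC_sound p15_16_3_46)) (pfC_sound p15_16_3_47)) (pfC_sound p15_16_3_48)) (pfC_sound p15_16_3_49)) (pfC_sound p15_16_3_50)) (pfC_sound p15_16_3_51)) (pfC_sound p15_16_3_52)) (pfC_sound p15_16_3_53)) (pfC_sound p15_16_3_54)) (pfC_sound p15_16_3_55)) (pfC_sound p15_16_3_56)) (pfC_sound p15_16_3_57)) (pfC_sound p15_16_3_58)) (pfC_sound p15_16_3_59)) (pfC_sound p15_16_3_60)) (pfC_sound p15_16_3_61)) (pfC_sound p15_16_3_62)) (pfC_sound p15_16_3_63)) (pfC_sound p15_16_3_64)) (pfC_sound p15_16_3_65)) (pfC_sound p15_16_3_66)) (pfC_sound p15_16_3_67)) (pfC_sound p15_16_3_68)) (pfC_sound p15_16_3_69)) (pfC_sound p15_16_3_70)) (pfC_sound p15_16_3_71)) (pfC_sound p15_16_3_72)) (pfC_sound p15_16_3_73)) (pfC_sound p15_16_3_74)) (pfC_sound p15_16_3_75)) (pfC_sound p15_16_3_76)) (pfC_sound p15_16_3_77)) (pfC_sound p15_16_3_78)) (pfC_sound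 p15_16_3_79)) (pfC_sound p15_16_3_80)) (pfC_sound p15_16_3_81)) (pfC_sound p15_16_3_82)) (pfC_sound p15_16_3_83)) (pfC_sound p15_16_3_84)) (pfC_sound p15_16_3_85)) (pfC_sound p15_16_3_86)) (pfC_sound p15_16_3_87)) (pfC_sound
 p15_16_3_88)) (pfC_sound p15_16_3_89)) (pfC_sound p15_16_3_90)) (pfC_sound p15_16_3_91)) (pfC_sound p15_16_3_92)) (pfC_sound p15_16_3_93)) (pfC_sound p15_16_3_94)) (pfC_sound p15_16_3_95)) (pfC_sound p15_16_3_96)) (pfC_sound p15_16_3_97)) (pfC_sound p15_16_3_98)) (pfC_sound p15_16_3_99)) (pfC_sound p15_16_3_100)) (pfC_sound p15_16_3_101)) (pfC_sound p15_16_3_102)) (pfC_sound p15_16_3_103)) (pfC_sound p15_16_3_104)) (pfC_sound p15_16_3_105)) (pfC_sound p15_16_3_106)) (pfC_sound p15_16_3_107)) (pfC_sound p15_16_3_108)) (pfC_sound p15_16_3_109)) (pfC_sound p15_16_3_110)) (pfC_sound p15_16_3_111)) (pfC_sound p15_16_3_112)) (pfC_sound p15_16_3_113)) (pfC_sound p15_16_3_114)) (pfC_sound p15_16_3_115)) (pfC_sound p15_16_3_116)) (pfC_sound p15_16_3_117))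 (pfC_sound p15_16_3_118)) (pfC_sound p15_16_3_119)) (pfC_sound p15_16_3_120)) (pfC_sound p15_16_3_121)) (pfC_sound p15_16_3_122)) (pfC_sound p15_16_3_123)) (pfC_sound p15_16_3_124)) (pfC_sound p15_16_3_125)) (pfC_sound p15_16_3_126)) (pfC_sound p15_16_3_127)) (by decide +kernel)

def z15_16_3 : zOK yB15_16 (nat_lit 3) (nat_lit 750) (nat_lit 867) (nat_lit 4910231) (nat_lit 3495576) = true := by decide +kernel
def g15_16_3 : gOK yB15_16.x P15_16 (nat_lit 1425) (q15_16 :: r15_16) (nat_lit 3) (nat_lit 750) (nat_lit 4) (nat_lit 867) (nat_lit 12712500) (nat_lit 12712500) (nat_lit 12712500) (nat_lit 12712500) [(nat_lit 800)] = true := by decide +kernel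
def v15_16_3 : ivC P15_16 s15_16 w15_16 n15_16 (nat_lit 4) (nat_lit 4690) (nat_lit 3) (nat_lit 750) f152_1_750 f160_1_750 (nat_lit 4) (nat_lit 867) f152_1_867 f160_1_867 (nat_lit 4910231) (nat_lit 3495576) p15_16_3 = true := by decide +kernel
end CB
end Pool.Agent.Lib.MP_6947cd_al
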