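import Pool.Agent.Lib.MP_6947cd_al.L.BoxDataB
import Pool.Agent.Lib.MP_6947cd_al.L.TeD3
import Pool.Agent.Lib.MP_6947cd_al.L.TeD4

/-!
Problem MP_6947cd_al (Chollet).  CASE B, rows `j`: boxes (generated).
-/

set_option autoImplicit false
set_option linter.defProp false
set_option maxRecDepth 20000

namespace Pool.Agent.Lib.MP_6947cd_al
namespace CB

open Ent Ent.Pk Fr Fr.WT CA

/-! box `yB15_17` -/

def P15_17 : BQ := ⟨(nat_lit 8), (nat_lit 6), (nat_lit 2), (nat_lit 4), (nat_lit 4), (nat_lit 770), (nat_lit 780), (nat_lit 120), [(nat_lit 200), (nat_lit 300), (nat_lit 450), (nat_lit 800)], (nat_lit 101824000), (nat_lit 16000000), (nat_lit 16000000000)⟩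
def q15_17 : PC := ⟨(nat_lit 1000), [(nat_lit 120000), (nat_lit 200000), (nat_lit 300000), (nat_lit 450000), (nat_lit 800000)], (nat_lit 340282367000166625996085689103316680705000000), (nat_lit 15898176000000), (nat_lit 15898176000000), (nat_lit 10000000)⟩
def r15_17 : List PC := [⟨(nat_lit 1296), [(nat_lit 120553), (nat_lit 201025), (nat_lit 301342), (nat_lit 451413), (nat_lit 800203)], (nat_lit 342259067270097689958051889276777881121279180), (nat_lit 16287935735040), (nat_lit 16293272117760), (nat_lit 10051250)⟩, ⟨(nat_lit 1438), [(nat_lit 120889), (nat_lit 201535), (nat_lit 302000), (nat_lit 452664), (nat_lit 802998)], (nat_lit 343214920438983807042871800088537709755191769), (nat_lit 16474796797120), (nat_lit 16482693201280), (nat_lit 10076750)⟩]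
def s15_17 : List PB := [⟨(nat_lit 25920), (nat_lit 1928848000000), [(nat_lit 201025), (nat_lit 301342), (nat_lit 451413), (nat_lit 800203)], (nat_lit 342259067270097689958051889276777881121279180), (nat_lit 1142187842577664), (nat_lit 1142193178960384), (nat_lit 47360)⟩, ⟨(nat_lit 28760), (nat_lit 1934224000000), [(nat_lit 201535), (nat_lit 302000), (nat_lit 452664), (nat_lit 802998)], (nat_lit 343214920438983807042871800088537709755191769), (nat_lit 1142374703639744), (nat_lit 1142382600043904), (nat_lit 70080)⟩]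
def n15_17 : List KN := [⟨(nat_lit 800), (nat_lit 450), (nat_lit 13056366), (nat_lit 5361436)⟩, ⟨(nat_lit 450), (nat_lit 300), (nat_lit 19449108), (nat_lit 13056366)⟩, ⟨(nat_lit 300), (nat_lit 200), (nat_lit 26036903), (nat_lit 19449108)⟩, ⟨(nat_lit 200), (nat_lit 120), (nat_lit 40173837), (nat_lit 26036903)⟩]
def w15_17 : List ℕ := [(nat_lit 47360), (nat_lit 70080)]
def par15_17 : parC yB15_17 P15_17 s15_17 r15_17 q15_17 n15_17 w15_17 = true := by decide +kernel

def p15_17_0 : PF := (PF.cons (PF.cons (PF.cons (PF.cons (PF.leaf (nat_lit 736047) (nat_lit 2258289) (nat_lit 64850523) (nat_lit 2258289) [(nat_lit 0), (nat_lit 0), (nat_lit 0), (nat_lit 0)]) (PF.cons (PF.leaf (nat_lit 863844) (nat_lit 198186) (nat_lit 64600809) (nat_lit 2309816) [(nat_lit 198186), (nat_lit 0), (nat_lit 0), (nat_lit 0)]) (PF.cons (PF.leaf (nat_lit 1020124) (nat_lit 219013) (nat_lit 64303677) (nat_lit 2367107) [(nat_lit 219013), (nat_lit 0), (nat_lit 0), (nat_lit 0)]) (PF.cons (PF.leaf (nat_lit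 1199328) (nat_lit 238545) (nat_lit 63965384) (nat_lit 2427791) [(nat_lit 238545), (nat_lit 0), (nat_lit 0), (nat_lit 0)]) (PF.cons (PF.leaf (nat_lit 1399204) (nat_lit 257071) (nat_lit 63590296) (nat_lit 2490229) [(nat_lit 257071), (nat_lit 0), (nat_lit 0), (nat_lit 0)]) (PF.cons (PF.leaf (nat_lit 1618288) (nat_lit 274748) (nat_lit 63181838) (nat_lit 2553234) [(nat_lit 274748), (nat_lit 0), (nat_lit 0), (nat_lit 0)]) (PF.cons (PF.leaf (nat_lit 1855203) (nat_lit 291662) (nat_lit 62742909) (nat_lit 2615925) [(nat_lit 291662), (nat_lit 0), (nat_lit 0), (nat_lit 0)]) (PF.cons (PF.leaf (nat_lit 2108714) (nat_lit 307868) (nat_lit 62276097) (nat_lit 2677637) [(nat_lit 307868), (nat_lit 0), (nat_lit 0),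
 (nat_lit 0)]) (PF.cons (PF.leaf (nat_lit 2377642) (nat_lit 323395) (nat_lit 61783786) (nat_lit 2737863) [(nat_lit 323395), (nat_lit 0), (nat_lit 0), (nat_lit 0)]) (PF.cons PF.nil PF.nil)))))))))) (PF.cons (PF.cons (PF.leaf (nat_lit 1225359) (nat_lit 1005325) (nat_lit 63633394) (nat_lit 2470093) [(nat_lit 0), (nat_lit 1005325), (nat_lit 0), (nat_lit 0)]) (PF.cons (PF.leaf (nat_lit 1403738) (nat_lit 254181) (nat_lit 63286499) (nat_lit 2524812) [(nat_lit 254181), (nat_lit 1043318), (nat_lit 0), (nat_lit 0)]) (PF.cons (PF.leaf (nat_lit 1605440) (nat_lit 272176) (nat_lit 62900876) (nat_lit 2581647) [(nat_lit 272176), (nat_lit 1081936), (nat_lit 0), (nat_lit 0)]) (PF.cons (PF.leaf (nat_lit 1826713) (nat_lit 289256) (nat_lit 62481296) (nat_lit 2639284) [(nat_lit 289256), (nat_lit 1120461), (nat_lit 0), (nat_lit 0)]) (PF.cons (PF.leaf (nat_lit 2065834) (nat_lit 305543) (nat_lit 62031413) (nat_lit 2696790) [(nat_lit 305543), (nat_lit 1158434), (nat_lit 0), (nat_lit 0)])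 (PF.cons (PF.leaf (nat_lit 2321342) (nat_lit 321104) (nat_lit 61554267) (nat_lit 2753476) [(nat_lit 321104), (nat_lit 1195545), (nat_lit 0), (nat_lit 0)]) (PF.cons (PF.leaf (nat_lit 2591938) (nat_lit 335981) (nat_lit
 61052520) (nat_lit 2808828) [(nat_lit 335981), (nat_lit 1231575), (nat_lit 0), (nat_lit 0)]) (PF.cons PF.nil (PF.cons PF.nil PF.nil))))))))) (PF.cons (PF.cons (PF.leaf (nat_lit 1818891) (nat_lit 1132082) (nat_lit 62177733) (nat_lit 2666913) [(nat_lit 0), (nat_lit 1132082), (nat_lit 0), (nat_lit 0)]) (PF.cons (PF.leaf (nat_lit 2039142) (nat_lit 302436) (nat_lit 61752592) (nat_lit 2719203) [(nat_lit 302436), (nat_lit 1167290), (nat_lit 0), (nat_lit 0)]) (PF.cons (PF.leaf (nat_lit 2278844) (nat_lit 318220) (nat_lit 61296269) (nat_lit 2771641) [(nat_lit 318220), (nat_lit 1202230), (nat_lit 0), (nat_lit 0)]) (PF.cons (PF.leaf (nat_lit 2535058) (nat_lit 333232) (nat_lit 60812610) (nat_lit 2823473) [(nat_lit 333232), (nat_lit 1236515), (nat_lit 0), (nat_lit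 0)]) (PF.cons (PF.leaf (nat_lit 2806261) (nat_lit 347534) (nat_lit 60304756) (nat_lit 2874150) [(nat_lit 347534), (nat_lit 1269883), (nat_lit 0), (nat_lit 0)]) (PF.cons (PF.leaf (nat_lit 3091108) (nat_lit 361165) (nat_lit 59775414) (nat_lit 2923269) [(nat_lit 361165), (nat_lit 1302150), (nat_lit 0), (nat_lit 0)]) (PF.cons PF.nil PF.nil))))))) (PF.cons (PF.cons (PF.leaf (nat_lit 2495790) (nat_lit 1243039) (nat_lit 60538757) (nat_lit
 2840937) [(nat_lit 0), (nat_lit 1243039), (nat_lit 0), (nat_lit 0)]) (PF.cons (PF.leaf (nat_lit 2750362) (nat_lit 344282) (nat_lit 60052716) (nat_lit 2888037) [(nat_lit 344282), (nat_lit 1274592), (nat_lit 0), (nat_lit 0)]) (PF.cons (PF.leaf (nat_lit 3020904) (nat_lit 358090) (nat_lit 59542214) (nat_lit 2934205) [(nat_lit 358090), (nat_lit 1305404), (nat_lit 0), (nat_lit 0)]) (PF.cons (PF.leaf (nat_lit 3305117) (nat_lit 371199) (nat_lit 59010444) (nat_lit 2979001) [(nat_lit 371199), (nat_lit 1335255), (nat_lit 0), (nat_lit 0)]) (PF.cons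 PF.nil PF.nil))))) (PF.cons (PF.cons (PF.leaf (nat_lit 3237012) (nat_lit 1338342) (nat_lit 58766105) (nat_lit 2989338) [(nat_lit 0), (nat_lit 1338342), (nat_lit 0), (nat_lit 0)]) (PF.cons (PF.leaf (nat_lit 3518798) (nat_lit 380324) (nat_lit 58235042) (nat_lit 3029975) [(nat_lit 380324), (nat_lit 1365867), (nat_lit 0), (nat_lit 0)]) (PF.cons (PF.leaf (nat_lit 3813560) (nat_lit 392297) (nat_lit 57685476) (nat_lit 3069107) [(nat_lit 392297), (nat_lit 1392408), (nat_lit 0), (nat_lit 0)]) (PF.cons PF.nil PF.nil)))) (PF.cons (PF.cons (PF.leaf (nat_lit 4025237) (nat_lit 1418576) (nat_lit 56904118) (nat_lit 3111810) [(nat_lit 0), (nat_lit 1418576),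
 (nat_lit 0), (nat_lit 0)]) (PF.cons (PF.leaf (nat_lit 4327853) (nat_lit 411006) (nat_lit 56342214) (nat_lit 3145556) [(nat_lit 411006), (nat_lit 1442006), (nat_lit 0), (nat_lit 0)]) PF.nil)) (PF.cons PF.nil (PF.cons PF.nil PF.nil)))))))) (PF.cons (PF.cons (PF.cons (PF.leaf (nat_lit 1821206) (nat_lit 2693485) (nat_lit 61494351) (nat_lit 2693485) [(nat_lit 0), (nat_lit 0), (nat_lit 2920976), (nat_lit 0)]) (PF.cons (PF.leaf (nat_lit 2017608) (nat_lit 289688) (nat_lit 61112576) (nat_lit 2738969) [(nat_lit 289688), (nat_lit 0), (nat_lit 2967578), (nat_lit 0)]) (PF.cons (PF.leaf (nat_lit 2236486) (nat_lit 307016) (nat_lit 60693250) (nat_lit 2785860) [(nat_lit 307016), (nat_lit 0), (nat_lit 3015668), (nat_lit 0)]) (PF.cons (PF.leaf (nat_lit 2473898) (nat_lit 323152) (nat_lit 60242142) (nat_lit 2833081) [(nat_lit 323152), (nat_lit 0), (nat_lit 3064130), (nat_lit 0)]) (PF.cons (PF.leaf (nat_lit 2727818) (nat_lit 338299) (nat_lit 59763560) (nat_lit 2879877) [(nat_lit 338299),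 (nat_lit 0), (nat_lit 3112178), (nat_lit 0)]) (PF.cons (PF.leaf (nat_lit 2996589) (nat_lit 352582) (nat_lit 59260964) (nat_lit 2925701) [(nat_lit 352582), (nat_lit 0), (nat_lit 3159236), (nat_lit 0)]) (PF.cons (PF.leaf
 (nat_lit 3278793) (nat_lit 366083) (nat_lit 58737284) (nat_lit 2970149) [(nat_lit 366083), (nat_lit 0), (nat_lit 3204878), (nat_lit 0)]) (PF.cons PF.nil (PF.cons PF.nil PF.nil))))))))) (PF.cons (PF.cons (PF.leaf (nat_lit 2452344) (nat_lit 1237787) (nat_lit 59933087) (nat_lit 2852894) [(nat_lit 0), (nat_lit 1237787), (nat_lit 3085044), (nat_lit 0)]) (PF.cons (PF.leaf (nat_lit 2686737) (nat_lit 333749) (nat_lit 59482644) (nat_lit 2895530) [(nat_lit 333749), (nat_lit 1268122), (nat_lit 3128767), (nat_lit 0)]) (PF.cons (PF.leaf (nat_lit 2939228) (nat_lit 348488) (nat_lit 59003515) (nat_lit 2937996) [(nat_lit 348488), (nat_lit 1297999), (nat_lit 3172324), (nat_lit 0)]) (PF.cons (PF.leaf (nat_lit 3206869) (nat_lit 362312) (nat_lit 58499997) (nat_lit 2979684)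 [(nat_lit 362312), (nat_lit 1327111), (nat_lit 3215081), (nat_lit 0)]) (PF.cons (PF.leaf (nat_lit 3487979) (nat_lit 375325) (nat_lit 57975508) (nat_lit 3020161) [(nat_lit 375325), (nat_lit 1355256), (nat_lit 3256583), (nat_lit 0)]) (PF.cons (PF.leaf (nat_lit 3781209) (nat_lit 387598) (nat_lit 57432908) (nat_lit 3059111) [(nat_lit 387598), (nat_lit 1382298), (nat_lit 3296501), (nat_lit 0)]) (PF.cons PF.nil PF.nil))))))) (PF.cons
 (PF.cons (PF.leaf (nat_lit 3153528) (nat_lit 1330716) (nat_lit 58228287) (nat_lit 2991486) [(nat_lit 0), (nat_lit 1330716), (nat_lit 3227605), (nat_lit 0)]) (PF.cons (PF.leaf (nat_lit 3417935) (nat_lit 371081) (nat_lit 57727496) (nat_lit 3029149) [(nat_lit 371081), (nat_lit 1357456), (nat_lit 3266173), (nat_lit 0)]) (PF.cons (PF.leaf (nat_lit 3696866) (nat_lit 383686) (nat_lit 57205180) (nat_lit 3065798) [(nat_lit 383686), (nat_lit 1383388), (nat_lit 3303684), (nat_lit 0)]) (PF.cons (PF.leaf (nat_lit 3988040) (nat_lit 395520) (nat_lit 56664696)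 (nat_lit 3101087) [(nat_lit 395520), (nat_lit 1408344), (nat_lit 3339777), (nat_lit 0)]) (PF.cons PF.nil PF.nil))))) (PF.cons (PF.cons (PF.leaf (nat_lit 3906568) (nat_lit 1409341) (nat_lit 56427003) (nat_lit 3107328) [(nat_lit 0), (nat_lit 1409341), (nat_lit 3346456), (nat_lit 0)]) (PF.cons (PF.leaf (nat_lit 4194097) (nat_lit 402638) (nat_lit 55891319) (nat_lit 3139103) [(nat_lit 402638), (nat_lit 1432291), (nat_lit 3378879), (nat_lit 0)]) (PF.cons (PF.leaf (nat_lit 4493185) (nat_lit 413370) (nat_lit 55340033) (nat_lit 3169438) [(nat_lit 413370), (nat_lit 1454267), (nat_lit 3409795), (nat_lit 0)]) (PF.cons PF.nil PF.nil)))) (PF.cons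
 (PF.cons (PF.leaf (nat_lit 4695705) (nat_lit 1474429) (nat_lit 54568940) (nat_lit 3200529) [(nat_lit 0), (nat_lit 1474429), (nat_lit 3441622), (nat_lit 0)]) (PF.cons PF.nil PF.nil)) (PF.cons PF.nil PF.nil)))))) (PF.cons (PF.cons (PF.cons (PF.leaf (nat_lit 3086736) (nat_lit 2994361) (nat_lit 57650967) (nat_lit 2994361) [(nat_lit 0), (nat_lit 0), (nat_lit 3231742), (nat_lit 0)]) (PF.cons (PF.leaf (nat_lit 3331157) (nat_lit 359456) (nat_lit 57187092) (nat_lit 3028730) [(nat_lit 359456), (nat_lit 0), (nat_lit 3266766), (nat_lit 0)]) (PF.cons (PF.leaf (nat_lit 3592481) (nat_lit 373169) (nat_lit 56697048) (nat_lit 3062688) [(nat_lit 373169), (nat_lit 0), (nat_lit 3301368), (nat_lit 0)]) (PF.cons (PF.leaf (nat_lit 3867686) (nat_lit 385861) (nat_lit 56185387) (nat_lit 3095752) [(nat_lit 385861), (nat_lit 0), (nat_lit 3335044), (nat_lit 0)]) (PF.cons (PF.leaf (nat_lit 4155022) (nat_lit 397673) (nat_lit 55655655) (nat_lit 3127583) [(nat_lit 397673), (nat_lit 0), (nat_lit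 3367440), (nat_lit 0)]) (PF.cons PF.nil (PF.cons PF.nil PF.nil))))))) (PF.cons (PF.cons (PF.leaf (nat_lit 3801640) (nat_lit 1399108) (nat_lit 55920779) (nat_lit 3103136) [(nat_lit 0), (nat_lit 1399108), (nat_lit 3342894),
 (nat_lit 0)]) (PF.cons (PF.leaf (nat_lit 4072349) (nat_lit 392673) (nat_lit 55415711) (nat_lit 3132774) [(nat_lit 392673), (nat_lit 1421635), (nat_lit 3373008), (nat_lit 0)]) (PF.cons (PF.leaf (nat_lit 4356337) (nat_lit 404157) (nat_lit 54891780) (nat_lit 3161356) [(nat_lit 404157), (nat_lit 1443319), (nat_lit 3402020), (nat_lit 0)]) (PF.cons (PF.leaf (nat_lit 4651242) (nat_lit 414822) (nat_lit 54352386) (nat_lit 3188615) [(nat_lit 414822), (nat_lit 1464033), (nat_lit 3429653), (nat_lit 0)]) (PF.cons PF.nil PF.nil))))) (PF.cons (PF.cons (PF.leaf (nat_lit 4558048) (nat_lit 1463418) (nat_lit 54124352) (nat_lit 3191683) [(nat_lit 0), (nat_lit 1463418), (nat_lit 3432969), (nat_lit 0)]) (PF.cons (PF.leaf (nat_lit 4848403) (nat_lit 420231) (nat_lit 53592757)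 (nat_lit 3215981) [(nat_lit 420231), (nat_lit 1482406), (nat_lit 3457515), (nat_lit 0)]) (PF.cons (PF.leaf (nat_lit 5149099) (nat_lit 429841) (nat_lit 53048037) (nat_lit 3238918) [(nat_lit 429841), (nat_lit 1500449), (nat_lit 3480637), (nat_lit 0)]) (PF.cons PF.nil PF.nil)))) (PF.cons (PF.cons (PF.leaf (nat_lit 5341694) (nat_lit 1515602) (nat_lit 52296677) (nat_lit 3260489) [(nat_lit 0), (nat_lit 1515602), (nat_lit 3502420),
 (nat_lit 0)]) (PF.cons PF.nil PF.nil)) (PF.cons PF.nil PF.nil))))) (PF.cons (PF.cons (PF.cons (PF.leaf (nat_lit 4434512) (nat_lit 3182961) (nat_lit 53652326) (nat_lit 3182961) [(nat_lit 0), (nat_lit 0), (nat_lit 3424508), (nat_lit 0)]) (PF.cons (PF.leaf (nat_lit 4708745) (nat_lit 409825) (nat_lit 53150902) (nat_lit 3205769) [(nat_lit 409825), (nat_lit 0), (nat_lit 3447438), (nat_lit 0)]) (PF.cons (PF.leaf (nat_lit 4995098) (nat_lit 420274) (nat_lit 52632970) (nat_lit 3227514) [(nat_lit 420274), (nat_lit 0), (nat_lit 3469259), (nat_lit 0)]) (PF.cons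 (PF.leaf (nat_lit 5291278) (nat_lit 429876) (nat_lit 52101899) (nat_lit 3247995) [(nat_lit 429876), (nat_lit 0), (nat_lit 3489762), (nat_lit 0)]) (PF.cons PF.nil PF.nil))))) (PF.cons (PF.cons (PF.leaf (nat_lit 5187883) (nat_lit 1503439) (nat_lit 51885331) (nat_lit 3248607) [(nat_lit 0), (nat_lit 1503439), (nat_lit 3490478), (nat_lit 0)]) (PF.cons (PF.leaf (nat_lit 5478818) (nat_lit 433832) (nat_lit 51364168) (nat_lit 3266607) [(nat_lit 433832), (nat_lit 1519005), (nat_lit 3508399), (nat_lit 0)]) (PF.cons PF.nil (PF.cons PF.nil PF.nil)))) (PF.cons (PF.cons (PF.leaf (nat_lit 5961402) (nat_lit 1544648) (nat_lit 50106693) (nat_lit 3297115)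
 [(nat_lit 0), (nat_lit 1544648), (nat_lit 3538569), (nat_lit 0)]) (PF.cons PF.nil PF.nil)) PF.nil))) (PF.cons (PF.cons (PF.cons (PF.leaf (nat_lit 5794022) (nat_lit 3283189) (nat_lit 49728016) (nat_lit 3283189) [(nat_lit 0), (nat_lit 0), (nat_lit 3524401), (nat_lit 0)]) (PF.cons (PF.leaf (nat_lit 6083836) (nat_lit 444068) (nat_lit 49221732) (nat_lit 3295904) [(nat_lit 444068), (nat_lit 0), (nat_lit 3536776), (nat_lit 0)]) (PF.cons PF.nil PF.nil))) (PF.cons (PF.cons (PF.leaf (nat_lit 6554136) (nat_lit 1563705) (nat_lit 48010949) (nat_lit 3314870) [(nat_lit 0), (nat_lit 1563705), (nat_lit 3554821), (nat_lit 0)]) PF.nil) PF.nil)) (PF.cons PF.nil (PF.cons PF.nil (PF.cons PF.nil PF.nil)))))))) (PF.cons (PF.cons (PF.cons (PF.cons (PF.leaf (nat_lit 3037399) (nat_lit 2923115) (nat_lit 54831577) (nat_lit 2923115) [(nat_lit 0), (nat_lit 0), (nat_lit 0), (nat_lit 9354119)]) (PF.cons (PF.leaf (nat_lit 3241709) (nat_lit 323349) (nat_lit 54461857) (nat_lit 2953705) [(nat_lit 323349),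 (nat_lit 0), (nat_lit 0), (nat_lit 9369900)]) (PF.cons (PF.leaf (nat_lit 3466779) (nat_lit 339806) (nat_lit 54059498) (nat_lit 2984709) [(nat_lit 339806), (nat_lit 0), (nat_lit 0), (nat_lit 9384990)]) (PF.cons
 (PF.leaf (nat_lit 3708496) (nat_lit 354676) (nat_lit 53630618) (nat_lit 3015398) [(nat_lit 354676), (nat_lit 0), (nat_lit 0), (nat_lit 9398767)]) (PF.cons (PF.leaf (nat_lit 3964522) (nat_lit 368258) (nat_lit 53179720) (nat_lit 3045287) [(nat_lit 368258), (nat_lit 0), (nat_lit 0), (nat_lit 9410768)]) (PF.cons (PF.leaf (nat_lit 4233136) (nat_lit 380755) (nat_lit 52710345) (nat_lit 3074042) [(nat_lit 380755), (nat_lit 0), (nat_lit 0), (nat_lit 9420646)]) (PF.cons (PF.leaf (nat_lit 4512732) (nat_lit 392307) (nat_lit 52225397) (nat_lit 3101430) [(nat_lit 392307), (nat_lit 0), (nat_lit 0), (nat_lit 9428139)]) (PF.cons (PF.leaf (nat_lit 4802105) (nat_lit 403017) (nat_lit 51727338) (nat_lit 3127294) [(nat_lit 403017), (nat_lit 0), (nat_lit 0), (nat_lit 9433056)])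 (PF.cons (PF.leaf (nat_lit 5100060) (nat_lit 412965) (nat_lit 51218299) (nat_lit 3151527) [(nat_lit 412965), (nat_lit 0), (nat_lit 0), (nat_lit 9435263)]) (PF.cons PF.nil PF.nil)))))))))) (PF.cons (PF.cons (PF.leaf (nat_lit 3667742) (nat_lit 1336540) (nat_lit 53347298) (nat_lit 3024219) [(nat_lit 0), (nat_lit 1336540), (nat_lit 0), (nat_lit 9400754)]) (PF.cons (PF.leaf (nat_lit 3904231) (nat_lit 361842) (nat_lit 52924901)
 (nat_lit 3051442) [(nat_lit 361842), (nat_lit 1359986), (nat_lit 0), (nat_lit 9410639)]) (PF.cons (PF.leaf (nat_lit 4156648) (nat_lit 375068) (nat_lit 52479173) (nat_lit 3078099) [(nat_lit 375068), (nat_lit 1382628), (nat_lit 0), (nat_lit 9418775)]) (PF.cons (PF.leaf (nat_lit 4422104) (nat_lit 387168) (nat_lit 52014390) (nat_lit 3103808) [(nat_lit 387168), (nat_lit 1404281), (nat_lit 0), (nat_lit 9424826)]) (PF.cons (PF.leaf (nat_lit 4698804) (nat_lit 398307) (nat_lit 51533876) (nat_lit 3128313) [(nat_lit 398307), (nat_lit 1424845), (nat_lit 0),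 (nat_lit 9428546)]) (PF.cons (PF.leaf (nat_lit 4985332) (nat_lit 408601) (nat_lit 51040337) (nat_lit 3151438) [(nat_lit 408601), (nat_lit 1444266), (nat_lit 0), (nat_lit 9429762)]) (PF.cons (PF.leaf (nat_lit 5280495) (nat_lit 418137) (nat_lit 50536047) (nat_lit 3173066) [(nat_lit 418137), (nat_lit 1462522), (nat_lit 0), (nat_lit 9428355)]) (PF.cons PF.nil (PF.cons PF.nil PF.nil))))))))) (PF.cons (PF.cons (PF.leaf (nat_lit 4350592) (nat_lit 1403772) (nat_lit 51772306) (nat_lit 3107573) [(nat_lit 0), (nat_lit 1403772), (nat_lit 0), (nat_lit 9421387)]) (PF.cons (PF.leaf (nat_lit 4611123) (nat_lit 392750) (nat_lit 51314875) (nat_lit 3130380)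
 [(nat_lit 392750), (nat_lit 1423489), (nat_lit 0), (nat_lit 9423827)]) (PF.cons (PF.leaf (nat_lit 4884089) (nat_lit 403569) (nat_lit 50840957) (nat_lit 3152154) [(nat_lit 403569), (nat_lit 1442280), (nat_lit 0), (nat_lit 9423999)]) (PF.cons (PF.leaf (nat_lit 5167162) (nat_lit 413519) (nat_lit 50353688) (nat_lit 3172695) [(nat_lit 413519), (nat_lit 1460062), (nat_lit 0), (nat_lit 9421745)]) (PF.cons (PF.leaf (nat_lit 5458990) (nat_lit 422701) (nat_lit 49855597) (nat_lit 3191871) [(nat_lit 422701), (nat_lit 1476789), (nat_lit 0), (nat_lit 9416959)]) (PF.cons (PF.leaf (nat_lit 5758407) (nat_lit 431189) (nat_lit 49348793) (nat_lit 3209597) [(nat_lit 431189), (nat_lit 1492444), (nat_lit 0), (nat_lit 9409581)]) (PF.cons PF.nil PF.nil))))))) (PF.cons (PF.cons (PF.leaf (nat_lit 5069748) (nat_lit 1458084) (nat_lit 50146714) (nat_lit 3173156) [(nat_lit 0), (nat_lit 1458084), (nat_lit 0), (nat_lit 9414688)]) (PF.cons (PF.leaf (nat_lit 5348023) (nat_lit 417783) (nat_lit 49667622)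 (nat_lit 3191252) [(nat_lit 417783), (nat_lit 1474314), (nat_lit 0), (nat_lit 9409212)]) (PF.cons (PF.leaf (nat_lit 5635947) (nat_lit 426673) (nat_lit 49177256) (nat_lit 3208117) [(nat_lit 426673), (nat_lit 1489599),
 (nat_lit 0), (nat_lit 9401292)]) (PF.cons (PF.leaf (nat_lit 5931633) (nat_lit 434858) (nat_lit 48677984) (nat_lit 3223653) [(nat_lit 434858), (nat_lit 1503906), (nat_lit 0), (nat_lit 9390880)]) (PF.cons PF.nil PF.nil))))) (PF.cons (PF.cons (PF.leaf (nat_lit 5812311) (nat_lit 1501050) (nat_lit 48501093) (nat_lit 3221963) [(nat_lit 0), (nat_lit 1501050), (nat_lit 0), (nat_lit 9381554)]) (PF.cons (PF.leaf (nat_lit 6103233) (nat_lit 437997) (nat_lit 48010685) (nat_lit 3235438) [(nat_lit 437997), (nat_lit 1514083), (nat_lit 0), (nat_lit 9368357)]) (PF.cons (PF.leaf (nat_lit 6401531) (nat_lit 445281) (nat_lit 47513035) (nat_lit 3247636) [(nat_lit 445281), (nat_lit 1526205), (nat_lit 0), (nat_lit 9352753)]) (PF.cons PF.nil PF.nil)))) (PF.cons (PF.cons (PF.leaf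 (nat_lit 6567849) (nat_lit 1534054) (nat_lit 46858923) (nat_lit 3255459) [(nat_lit 0), (nat_lit 1534054), (nat_lit 0), (nat_lit 9324156)]) (PF.cons PF.nil PF.nil)) (PF.cons PF.nil (PF.cons PF.nil PF.nil)))))))) (PF.cons (PF.cons (PF.cons (PF.leaf (nat_lit 4251675) (nat_lit 3097144) (nat_lit 51277535) (nat_lit 3097144) [(nat_lit 0), (nat_lit 0), (nat_lit 3336003), (nat_lit 9398130)]) (PF.cons (PF.leaf (nat_lit 4493385) (nat_lit
 379129) (nat_lit 50855302) (nat_lit 3118424) [(nat_lit 379129), (nat_lit 0), (nat_lit 3357102), (nat_lit 9398854)]) (PF.cons (PF.leaf (nat_lit 4750006) (nat_lit 391359) (nat_lit 50411924) (nat_lit 3139043) [(nat_lit 391359), (nat_lit 0), (nat_lit 3377525), (nat_lit 9397600)]) (PF.cons (PF.leaf (nat_lit 5018612) (nat_lit 402423) (nat_lit 49951693) (nat_lit 3158706) [(nat_lit 402423), (nat_lit 0), (nat_lit 3396969), (nat_lit 9394172)]) (PF.cons (PF.leaf (nat_lit 5297408) (nat_lit 412509) (nat_lit 49477889) (nat_lit 3177218) [(nat_lit 412509),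 (nat_lit 0), (nat_lit 3415232), (nat_lit 9388435)]) (PF.cons (PF.leaf (nat_lit 5584983) (nat_lit 421747) (nat_lit 48993139) (nat_lit 3194449) [(nat_lit 421747), (nat_lit 0), (nat_lit 3432180), (nat_lit 9380305)]) (PF.cons (PF.leaf (nat_lit 5880143) (nat_lit 430236) (nat_lit 48499620) (nat_lit 3210315) [(nat_lit 430236), (nat_lit 0), (nat_lit 3447723), (nat_lit 9369734)]) (PF.cons PF.nil (PF.cons PF.nil PF.nil))))))))) (PF.cons (PF.cons (PF.leaf (nat_lit 4937201) (nat_lit 1443380) (nat_lit 49721025) (nat_lit 3159834) [(nat_lit 0), (nat_lit 1443380), (nat_lit 3398188), (nat_lit 9386383)]) (PF.cons (PF.leaf (nat_lit 5200175) (nat_lit 406528)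
 (nat_lit 49270206) (nat_lit 3177075) [(nat_lit 406528), (nat_lit 1459834), (nat_lit 3415147), (nat_lit 9380019)]) (PF.cons (PF.leaf (nat_lit 5474539) (nat_lit 416378) (nat_lit 48804889) (nat_lit 3193307) [(nat_lit 416378), (nat_lit 1475391), (nat_lit 3431067), (nat_lit 9371400)]) (PF.cons (PF.leaf (nat_lit 5758063) (nat_lit 425349) (nat_lit 48328133) (nat_lit 3208384) [(nat_lit 425349), (nat_lit 1489994), (nat_lit 3445793), (nat_lit 9360458)]) (PF.cons (PF.leaf (nat_lit 6049398) (nat_lit 433556) (nat_lit 47842373) (nat_lit 3222209) [(nat_lit 433556), (nat_lit 1503616), (nat_lit 3459228), (nat_lit 9347159)]) (PF.cons PF.nil (PF.cons PF.nil PF.nil))))))) (PF.cons (PF.cons (PF.leaf (nat_lit 5652004) (nat_lit 1487100) (nat_lit 48132772) (nat_lit 3207035) [(nat_lit 0), (nat_lit 1487100), (nat_lit 3444432), (nat_lit 9350371)]) (PF.cons (PF.leaf (nat_lit 5930250) (nat_lit 428376) (nat_lit 47665641) (nat_lit 3220080) [(nat_lit 428376), (nat_lit 1500391), (nat_lit 3457065),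 (nat_lit 9336867)]) (PF.cons (PF.leaf (nat_lit 6217207) (nat_lit 436359) (nat_lit 47188916) (nat_lit 3231986) [(nat_lit 436359), (nat_lit 1512796), (nat_lit 3468519), (nat_lit 9321078)]) (PF.cons (PF.leaf (nat_lit
 6511094) (nat_lit 443645) (nat_lit 46704858) (nat_lit 3242687) [(nat_lit 443645), (nat_lit 1524296), (nat_lit 3478725), (nat_lit 9303013)]) (PF.cons PF.nil PF.nil))))) (PF.cons (PF.cons (PF.leaf (nat_lit 6384459) (nat_lit 1520840) (nat_lit 46539128) (nat_lit 3239775) [(nat_lit 0), (nat_lit 1520840), (nat_lit 3475730), (nat_lit 9291655)]) (PF.cons (PF.leaf (nat_lit 6673259) (nat_lit 445744) (nat_lit 46064893) (nat_lit 3248773) [(nat_lit 445744), (nat_lit 1531267), (nat_lit 3484177), (nat_lit 9271421)]) (PF.cons (PF.leaf (nat_lit 6968658) (nat_lit 452202) (nat_lit 45584765) (nat_lit 3256621) [(nat_lit 452202), (nat_lit 1540856), (nat_lit 3491432), (nat_lit 9249020)]) (PF.cons PF.nil PF.nil)))) (PF.cons (PF.cons (PF.leaf (nat_lit 7125391) (nat_lit 1545876)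 (nat_lit 44959774) (nat_lit 3259438) [(nat_lit 0), (nat_lit 1545876), (nat_lit 3493484), (nat_lit 9212610)]) (PF.cons PF.nil PF.nil)) (PF.cons PF.nil PF.nil)))))) (PF.cons (PF.cons (PF.cons (PF.leaf (nat_lit 5506178) (nat_lit 3191918) (nat_lit 47740692) (nat_lit 3191918) [(nat_lit 0), (nat_lit 0), (nat_lit 3429145), (nat_lit 9317910)]) (PF.cons (PF.leaf (nat_lit 5769849) (nat_lit 417153) (nat_lit 47300504) (nat_lit 3204468)
 [(nat_lit 417153), (nat_lit 0), (nat_lit 3441222), (nat_lit 9304242)]) (PF.cons (PF.leaf (nat_lit 6044080) (nat_lit 426128) (nat_lit 46847534) (nat_lit 3216046) [(nat_lit 426128), (nat_lit 0), (nat_lit 3452294), (nat_lit 9288385)]) (PF.cons (PF.leaf (nat_lit 6326602) (nat_lit 434225) (nat_lit 46384737) (nat_lit 3226547) [(nat_lit 434225), (nat_lit 0), (nat_lit 3462253), (nat_lit 9270343)]) (PF.cons (PF.leaf (nat_lit 6616100) (nat_lit 441567) (nat_lit 45914433) (nat_lit 3235904) [(nat_lit 441567), (nat_lit 0), (nat_lit 3471033), (nat_lit 9250137)])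 (PF.cons PF.nil (PF.cons PF.nil PF.nil))))))) (PF.cons (PF.cons (PF.leaf (nat_lit 6213101) (nat_lit 1506769) (nat_lit 46201293) (nat_lit 3223825) [(nat_lit 0), (nat_lit 1506769), (nat_lit 3459443), (nat_lit 9258037)]) (PF.cons (PF.leaf (nat_lit 6489997) (nat_lit 436213) (nat_lit 45749040) (nat_lit 3232644) [(nat_lit 436213), (nat_lit 1517548), (nat_lit 3467674), (nat_lit 9238017)]) (PF.cons (PF.leaf (nat_lit 6774818) (nat_lit 443391) (nat_lit 45288591) (nat_lit 3240415) [(nat_lit 443391), (nat_lit 1527497), (nat_lit 3474819), (nat_lit 9215886)]) (PF.cons (PF.leaf (nat_lit 7065826) (nat_lit 449883) (nat_lit 44822089) (nat_lit 3247094)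
 [(nat_lit 449883), (nat_lit 1536611), (nat_lit 3480835), (nat_lit 9191695)]) (PF.cons PF.nil PF.nil))))) (PF.cons (PF.cons (PF.leaf (nat_lit 6933077) (nat_lit 1532726) (nat_lit 44667395) (nat_lit 3243279) [(nat_lit 0), (nat_lit 1532726), (nat_lit 3476883), (nat_lit 9178919)]) (PF.cons (PF.leaf (nat_lit 7218806) (nat_lit 451115) (nat_lit 44211263) (nat_lit 3248557) [(nat_lit 451115), (nat_lit 1540937), (nat_lit 3481456), (nat_lit 9153088)]) (PF.cons PF.nil (PF.cons PF.nil PF.nil)))) (PF.cons (PF.cons (PF.leaf (nat_lit 7657984) (nat_lit 1551072) (nat_lit 43155481) (nat_lit 3251578) [(nat_lit 0), (nat_lit 1551072), (nat_lit 3482789), (nat_lit 9082955)]) (PF.cons PF.nil PF.nil)) (PF.cons PF.nil PF.nil))))) (PF.cons (PF.cons (PF.cons (PF.leaf (nat_lit 6752574) (nat_lit 3226787) (nat_lit 44358098) (nat_lit 3226787) [(nat_lit 0), (nat_lit 0), (nat_lit 3459970), (nat_lit 9144016)]) (PF.cons (PF.leaf (nat_lit 7027085) (nat_lit 441742) (nat_lit 43922591) (nat_lit 3232080)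 [(nat_lit 441742), (nat_lit 0), (nat_lit 3464536), (nat_lit 9118790)]) (PF.cons (PF.leaf (nat_lit 7308896) (nat_lit 448205) (nat_lit 43480048) (nat_lit 3236411) [(nat_lit 448205), (nat_lit 0), (nat_lit 3468104), (nat_lit
 9091628)]) (PF.cons PF.nil PF.nil)))) (PF.cons (PF.cons (PF.leaf (nat_lit 7458436) (nat_lit 1538133) (nat_lit 42888471) (nat_lit 3235284) [(nat_lit 0), (nat_lit 1538133), (nat_lit 3466007), (nat_lit 9048899)]) (PF.cons (PF.leaf (nat_lit 7740396) (nat_lit 454505) (nat_lit 42451522) (nat_lit 3237484) [(nat_lit 454505), (nat_lit 1544464), (nat_lit 3467381), (nat_lit 9018690)]) PF.nil)) (PF.cons PF.nil PF.nil))) (PF.cons (PF.cons (PF.cons (PF.leaf (nat_lit 7961196) (nat_lit 3218103) (nat_lit 41202379) (nat_lit 3218103) [(nat_lit 0), (nat_lit 0), (nat_lit 3445547), (nat_lit 8906140)]) (PF.cons PF.nil PF.nil)) (PF.cons PF.nil PF.nil)) (PF.cons PF.nil PF.nil)))))) (PF.cons (PF.cons (PF.cons (PF.cons (PF.leaf (nat_lit 5254685) (nat_lit 3094345) (nat_lit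 45812984) (nat_lit 3094345) [(nat_lit 0), (nat_lit 0), (nat_lit 0), (nat_lit 9100741)]) (PF.cons (PF.leaf (nat_lit 5489483) (nat_lit 385393) (nat_lit 45441143) (nat_lit 3107360) [(nat_lit 385393), (nat_lit 0), (nat_lit 0), (nat_lit 9087457)]) (PF.cons (PF.leaf (nat_lit 5737717) (nat_lit 396412) (nat_lit 45052004) (nat_lit 3119621) [(nat_lit 396412), (nat_lit 0), (nat_lit 0), (nat_lit 9072181)]) (PF.cons (PF.leaf (nat_lit 5996485) (nat_lit
 406205) (nat_lit 44649390) (nat_lit 3130951) [(nat_lit 406205), (nat_lit 0), (nat_lit 0), (nat_lit 9054926)]) (PF.cons (PF.leaf (nat_lit 6264080) (nat_lit 414987) (nat_lit 44236193) (nat_lit 3141241) [(nat_lit 414987), (nat_lit 0), (nat_lit 0), (nat_lit 9035715)]) (PF.cons (PF.leaf (nat_lit 6539134) (nat_lit 422907) (nat_lit 43814694) (nat_lit 3150427) [(nat_lit 422907), (nat_lit 0), (nat_lit 0), (nat_lit 9014576)]) (PF.cons (PF.leaf (nat_lit 6820522) (nat_lit 430079) (nat_lit 43386753) (nat_lit 3158478) [(nat_lit 430079), (nat_lit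 0), (nat_lit 0), (nat_lit 8991550)]) (PF.cons PF.nil (PF.cons PF.nil PF.nil))))))))) (PF.cons (PF.cons (PF.leaf (nat_lit 5905639) (nat_lit 1444394) (nat_lit 44452864) (nat_lit 3128650) [(nat_lit 0), (nat_lit 1444394), (nat_lit 0), (nat_lit 9041451)]) (PF.cons (PF.leaf (nat_lit 6158293) (nat_lit 408540) (nat_lit 44060059) (nat_lit 3138241) [(nat_lit 408540), (nat_lit 1456749), (nat_lit 0), (nat_lit 9022611)]) (PF.cons (PF.leaf (nat_lit 6421028) (nat_lit 417160) (nat_lit 43655731) (nat_lit 3146906) [(nat_lit 417160), (nat_lit 1468218), (nat_lit 0), (nat_lit 9001817)]) (PF.cons (PF.leaf (nat_lit 6691680) (nat_lit 424890) (nat_lit 43242541) (nat_lit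
 3154567) [(nat_lit 424890), (nat_lit 1478783), (nat_lit 0), (nat_lit 8979124)]) (PF.cons (PF.leaf (nat_lit 6968970) (nat_lit 431856) (nat_lit 42822574) (nat_lit 3161183) [(nat_lit 431856), (nat_lit 1488450), (nat_lit 0), (nat_lit 8954588)]) (PF.cons (PF.leaf (nat_lit 7251843) (nat_lit 438156) (nat_lit 42397521) (nat_lit 3166735) [(nat_lit 438156), (nat_lit 1497238), (nat_lit 0), (nat_lit 8928268)]) (PF.cons PF.nil PF.nil))))))) (PF.cons (PF.cons (PF.leaf (nat_lit 6578465) (nat_lit 1474691) (nat_lit 43077695) (nat_lit 3150916) [(nat_lit 0), (nat_lit 1474691), (nat_lit 0), (nat_lit 8965409)]) (PF.cons (PF.leaf (nat_lit 6843591) (nat_lit 426400) (nat_lit 42674024) (nat_lit 3157158) [(nat_lit 426400), (nat_lit 1484245), (nat_lit 0), (nat_lit 8941369)]) (PF.cons (PF.leaf (nat_lit 7116296) (nat_lit 433217) (nat_lit 42262947) (nat_lit 3162440) [(nat_lit 433217), (nat_lit 1492984), (nat_lit 0), (nat_lit 8915510)]) (PF.cons (PF.leaf (nat_lit 7394928) (nat_lit 439350) (nat_lit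 41846382) (nat_lit 3166736) [(nat_lit 439350), (nat_lit 1500913), (nat_lit 0), (nat_lit 8887907)]) (PF.cons PF.nil PF.nil))))) (PF.cons (PF.cons (PF.leaf (nat_lit 7263455) (nat_lit 1496693) (nat_lit 41707588) (nat_lit
 3162334) [(nat_lit 0), (nat_lit 1496693), (nat_lit 0), (nat_lit 8874404)]) (PF.cons (PF.leaf (nat_lit 7536937) (nat_lit 440174) (nat_lit 41300316) (nat_lit 3165465) [(nat_lit 440174), (nat_lit 1503819), (nat_lit 0), (nat_lit 8845698)]) (PF.cons (PF.leaf (nat_lit 7816141) (nat_lit 445571) (nat_lit 40888650) (nat_lit 3167671) [(nat_lit 445571), (nat_lit 1510210), (nat_lit 0), (nat_lit 8815358)]) (PF.cons PF.nil PF.nil)))) (PF.cons (PF.cons (PF.leaf (nat_lit 7953216) (nat_lit 1511696) (nat_lit 40356874) (nat_lit 3164189) [(nat_lit 0), (nat_lit 1511696), (nat_lit 0), (nat_lit 8770481)]) (PF.cons PF.nil PF.nil)) (PF.cons PF.nil PF.nil)))))) (PF.cons (PF.cons (PF.cons (PF.leaf (nat_lit 6420020) (nat_lit 3133397) (nat_lit 42755311) (nat_lit 3133397) [(nat_lit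 0), (nat_lit 0), (nat_lit 3362328), (nat_lit 8928887)]) (PF.cons (PF.leaf (nat_lit 6671970) (nat_lit 415055) (nat_lit 42374794) (nat_lit 3139689) [(nat_lit 415055), (nat_lit 0), (nat_lit 3367847), (nat_lit 8905712)]) (PF.cons (PF.leaf (nat_lit 6933318) (nat_lit 422934) (nat_lit 41984024) (nat_lit 3145108) [(nat_lit 422934), (nat_lit 0), (nat_lit 3372468), (nat_lit 8880671)]) (PF.cons (PF.leaf (nat_lit 7201916) (nat_lit 429936)
 (nat_lit 41585540) (nat_lit 3149602) [(nat_lit 429936), (nat_lit 0), (nat_lit 3376142), (nat_lit 8853858)]) (PF.cons (PF.leaf (nat_lit 7476519) (nat_lit 436197) (nat_lit 41181313) (nat_lit 3153148) [(nat_lit 436197), (nat_lit 0), (nat_lit 3378844), (nat_lit 8825358)]) (PF.cons PF.nil (PF.cons PF.nil PF.nil))))))) (PF.cons (PF.cons (PF.leaf (nat_lit 7083209) (nat_lit 1482227) (nat_lit 41431446) (nat_lit 3145202) [(nat_lit 0), (nat_lit 1482227), (nat_lit 3371566), (nat_lit 8839185)]) (PF.cons (PF.leaf (nat_lit 7346102) (nat_lit 430688) (nat_lit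 41042828) (nat_lit 3148534) [(nat_lit 430688), (nat_lit 1489891), (nat_lit 3374060), (nat_lit 8811405)]) (PF.cons (PF.leaf (nat_lit 7615998) (nat_lit 436849) (nat_lit 40647782) (nat_lit 3150987) [(nat_lit 436849), (nat_lit 1496800), (nat_lit 3375650), (nat_lit 8781946)]) (PF.cons (PF.leaf (nat_lit 7891219) (nat_lit 442345) (nat_lit 40248114) (nat_lit 3152549) [(nat_lit 442345), (nat_lit 1502967), (nat_lit 3376326), (nat_lit 8750908)]) (PF.cons PF.nil PF.nil))))) (PF.cons (PF.cons (PF.leaf (nat_lit 7755430) (nat_lit 1498560) (nat_lit 40118903) (nat_lit 3147699) [(nat_lit 0), (nat_lit 1498560), (nat_lit 3371287), (nat_lit 8736900)]) (PF.cons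
 (PF.leaf (nat_lit 8025457) (nat_lit 442550) (nat_lit 39728650) (nat_lit 3148313) [(nat_lit 442550), (nat_lit 1504056), (nat_lit 3370997), (nat_lit 8705094)]) (PF.cons PF.nil (PF.cons PF.nil PF.nil)))) (PF.cons (PF.cons (PF.leaf (nat_lit 8430069) (nat_lit 1508784) (nat_lit 38829757) (nat_lit 3142047) [(nat_lit 0), (nat_lit 1508784), (nat_lit 3362661), (nat_lit 8623996)]) (PF.cons PF.nil PF.nil)) (PF.cons PF.nil PF.nil))))) (PF.cons (PF.cons (PF.cons (PF.leaf (nat_lit 7568981) (nat_lit 3130760) (nat_lit 39866325) (nat_lit 3130760) [(nat_lit 0), (nat_lit 0), (nat_lit 3353878), (nat_lit 8701984)]) (PF.cons (PF.leaf (nat_lit 7829009) (nat_lit 433348) (nat_lit 39493441) (nat_lit 3131673) [(nat_lit 433348), (nat_lit 0), (nat_lit 3353883), (nat_lit 8671291)]) (PF.cons (PF.leaf (nat_lit 8095559) (nat_lit 438928) (nat_lit 39114945) (nat_lit 3131782) [(nat_lit 438928), (nat_lit 0), (nat_lit 3353059), (nat_lit 8639054)]) (PF.cons PF.nil PF.nil)))) (PF.cons (PF.cons (PF.leaf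 (nat_lit 8227619) (nat_lit 1496119) (nat_lit 38612376) (nat_lit 3125934) [(nat_lit 0), (nat_lit 1496119), (nat_lit 3346051), (nat_lit 8591139)]) (PF.cons (PF.leaf (nat_lit 8493779) (nat_lit 443553) (nat_lit 38239333)
 (nat_lit 3124470) [(nat_lit 443553), (nat_lit 1500231), (nat_lit 3343624), (nat_lit 8556987)]) PF.nil)) (PF.cons PF.nil PF.nil))) (PF.cons (PF.cons (PF.cons (PF.leaf (nat_lit 8680798) (nat_lit 3098529) (nat_lit 37185756) (nat_lit 3098529) [(nat_lit 0), (nat_lit 0), (nat_lit 3314991), (nat_lit 8439776)]) (PF.cons PF.nil PF.nil)) (PF.cons PF.nil PF.nil)) (PF.cons PF.nil PF.nil))))) (PF.cons (PF.cons (PF.cons (PF.cons (PF.leaf (nat_lit 7213045) (nat_lit 3041711) (nat_lit 38567322) (nat_lit 3041711) [(nat_lit 0), (nat_lit 0), (nat_lit 0), (nat_lit 8499926)]) (PF.cons (PF.leaf (nat_lit 7453378) (nat_lit 407846) (nat_lit 38239464) (nat_lit 3044133) [(nat_lit 407846), (nat_lit 0), (nat_lit 0), (nat_lit 8472456)]) (PF.cons (PF.leaf (nat_lit 7702268) (nat_lit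 414882) (nat_lit 37903154) (nat_lit 3045772) [(nat_lit 414882), (nat_lit 0), (nat_lit 0), (nat_lit 8443373)]) (PF.cons (PF.leaf (nat_lit 7957627) (nat_lit 421063) (nat_lit 37560558) (nat_lit 3046611) [(nat_lit 421063), (nat_lit 0), (nat_lit 0), (nat_lit 8412817)]) (PF.cons (PF.leaf (nat_lit 8218276) (nat_lit 426524) (nat_lit 37213348) (nat_lit 3046649) [(nat_lit 426524), (nat_lit 0), (nat_lit 0), (nat_lit 8380905)]) PF.nil)))))
 (PF.cons (PF.cons (PF.leaf (nat_lit 7836750) (nat_lit 1443552) (nat_lit 37430987) (nat_lit 3041435) [(nat_lit 0), (nat_lit 1443552), (nat_lit 0), (nat_lit 8397612)]) (PF.cons (PF.leaf (nat_lit 8086484) (nat_lit 421025) (nat_lit 37097173) (nat_lit 3041455) [(nat_lit 421025), (nat_lit 1449136), (nat_lit 0), (nat_lit 8366674)]) (PF.cons (PF.leaf (nat_lit 8342550) (nat_lit 426435) (nat_lit 36758104) (nat_lit 3040725) [(nat_lit 426435), (nat_lit 1454032), (nat_lit 0), (nat_lit 8334360)]) (PF.cons PF.nil PF.nil)))) (PF.cons (PF.cons (PF.leaf (nat_lit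 8467106) (nat_lit 1453681) (nat_lit 36307002) (nat_lit 3034011) [(nat_lit 0), (nat_lit 1453681), (nat_lit 0), (nat_lit 8286811)]) (PF.cons (PF.leaf (nat_lit 8722840) (nat_lit 430771) (nat_lit 35972438) (nat_lit 3031883) [(nat_lit 430771), (nat_lit 1457404), (nat_lit 0), (nat_lit 8252970)]) PF.nil)) (PF.cons PF.nil (PF.cons PF.nil PF.nil))))) (PF.cons (PF.cons (PF.cons (PF.leaf (nat_lit 8279014) (nat_lit 3017611) (nat_lit 36099531) (nat_lit 3017611) [(nat_lit 0), (nat_lit 0), (nat_lit 3230101), (nat_lit 8253856)]) (PF.cons (PF.leaf (nat_lit 8525756) (nat_lit 421911) (nat_lit 35779550) (nat_lit 3015927) [(nat_lit 421911), (nat_lit 0),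
 (nat_lit 3227439), (nat_lit 8221327)]) (PF.cons (PF.leaf (nat_lit 8778447) (nat_lit 426837) (nat_lit 35454914) (nat_lit 3013557) [(nat_lit 426837), (nat_lit 0), (nat_lit 3224074), (nat_lit 8187530)]) (PF.cons PF.nil PF.nil)))) (PF.cons (PF.cons (PF.leaf (nat_lit 8896739) (nat_lit 1446746) (nat_lit 35026262) (nat_lit 3005170) [(nat_lit 0), (nat_lit 1446746), (nat_lit 3214467), (nat_lit 8138722)]) (PF.cons PF.nil PF.nil)) (PF.cons PF.nil PF.nil))) (PF.cons (PF.cons (PF.cons (PF.leaf (nat_lit 9310267) (nat_lit 2972837) (nat_lit 33812503) (nat_lit 2972837) [(nat_lit 0), (nat_lit 0), (nat_lit 3178415), (nat_lit 7988880)]) (PF.cons PF.nil PF.nil)) (PF.cons PF.nil PF.nil)) PF.nil))) (PF.cons (PF.cons (PF.cons (PF.cons (PF.leaf (nat_lit 8907788) (nat_lit 2899214) (nat_lit 32919977) (nat_lit 2899214) [(nat_lit 0), (nat_lit 0), (nat_lit 0), (nat_lit 7822405)]) (PF.cons (PF.leaf (nat_lit 9142452) (nat_lit 409109) (nat_lit 32643926) (nat_lit 2895999) [(nat_lit 409109), (nat_lit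 0), (nat_lit 0), (nat_lit 7789944)]) (PF.cons PF.nil PF.nil))) (PF.cons (PF.cons (PF.leaf (nat_lit 9489928) (nat_lit 1394907) (nat_lit 31995951) (nat_lit 2882525) [(nat_lit 0), (nat_lit 1394907), (nat_lit 0), (nat_lit
 7708857)]) PF.nil) PF.nil)) (PF.cons PF.nil PF.nil)) (PF.cons PF.nil (PF.cons PF.nil (PF.cons PF.nil (PF.cons PF.nil PF.nil)))))))))

def p15_17_0_0 : pfC (piC [(nat_lit 40173837), (nat_lit 26036903), (nat_lit 19449108), (nat_lit 13056366)] (nat_lit 23330445)) p15_17_0 (nat_lit 4) (nat_lit 0) (nat_lit 1) = true := by decide +kernel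
def p15_17_0_1 : pfC (piC [(nat_lit 40173837), (nat_lit 26036903), (nat_lit 19449108), (nat_lit 13056366)] (nat_lit 23330445)) p15_17_0 (nat_lit 4) (nat_lit 1) (nat_lit 2) = true := by decide +kernel
def p15_17_0_2 : pfC (piC [(nat_lit 40173837), (nat_lit 26036903), (nat_lit 19449108), (nat_lit 13056366)] (nat_lit 23330445)) p15_17_0 (nat_lit 4) (nat_lit 2) (nat_lit 3) = true := by decide +kernel
def p15_17_0_3 : pfC (piC [(nat_lit 40173837), (nat_lit 26036903), (nat_lit 19449108), (nat_lit 13056366)] (nat_lit 23330445)) p15_17_0 (nat_lit 4) (nat_lit 3) (nat_lit 4) = true := by decide +kernel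
def p15_17_0_4 : pfC (piC [(nat_lit 40173837), (nat_lit 26036903), (nat_lit 19449108), (nat_lit 13056366)] (nat_lit 23330445)) p15_17_0 (nat_lit 4) (nat_lit 4) (nat_lit 5) = true := by decide +kernel
def p15_17_0_5 : pfC (piC [(nat_lit 40173837), (nat_lit 26036903), (nat_lit 19449108), (nat_lit 13056366)] (nat_lit 23330445)) p15_17_0 (nat_lit 4) (nat_lit 5) (nat_lit 6) = true := by decide +kernel
def p15_17_0_6 : pfC (piC [(nat_lit 40173837), (nat_lit 26036903), (nat_lit 19449108), (nat_lit 13056366)] (nat_lit 23330445)) p15_17_0 (nat_lit 4) (nat_lit 6) (nat_lit 7) = true := by decide +kernel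
def p15_17_0_7 : pfC (piC [(nat_lit 40173837), (nat_lit 26036903), (nat_lit 19449108), (nat_lit 13056366)] (nat_lit 23330445)) p15_17_0 (nat_lit 4) (nat_lit 7) (nat_lit 8) = true := by decide +kernel
def p15_17_0_8 : pfC (piC [(nat_lit 40173837), (nat_lit 26036903), (nat_lit 19449108), (nat_lit 13056366)] (nat_lit 23330445)) p15_17_0 (nat_lit 4) (nat_lit 8) (nat_lit 9) = true := by decide +kernel
def p15_17_0_9 : pfC (piC [(nat_lit 40173837), (nat_lit 26036903), (nat_lit 19449108), (nat_lit 13056366)] (nat_lit 23330445)) p15_17_0 (nat_lit 4) (nat_lit 9) (nat_lit 10) = true := by decide +kernel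
def p15_17_0_10 : pfC (piC [(nat_lit 40173837), (nat_lit 26036903), (nat_lit 19449108), (nat_lit 13056366)] (nat_lit 23330445)) p15_17_0 (nat_lit 4) (nat_lit 10) (nat_lit 11) = true := by decide +kernel
def p15_17_0_11 : pfC (piC [(nat_lit 40173837), (nat_lit 26036903), (nat_lit 19449108), (nat_lit 13056366)] (nat_lit 23330445)) p15_17_0 (nat_lit 4) (nat_lit 11) (nat_lit 12) = true := by decide +kernel
def p15_17_0_12 : pfC (piC [(nat_lit 40173837), (nat_lit 26036903), (nat_lit 19449108), (nat_lit 13056366)] (nat_lit 23330445)) p15_17_0 (nat_lit 4) (nat_lit 12) (nat_lit 13) = true := by decide +kernel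
def p15_17_0_13 : pfC (piC [(nat_lit 40173837), (nat_lit 26036903), (nat_lit 19449108), (nat_lit 13056366)] (nat_lit 23330445)) p15_17_0 (nat_lit 4) (nat_lit 13) (nat_lit 14) = true := by decide +kernel
def p15_17_0_14 : pfC (piC [(nat_lit 40173837), (nat_lit 26036903), (nat_lit 19449108), (nat_lit 13056366)] (nat_lit 23330445)) p15_17_0 (nat_lit 4) (nat_lit 14) (nat_lit 15) = true := by decide +kernel
def p15_17_0_15 : pfC (piC [(nat_lit 40173837), (nat_lit 26036903), (nat_lit 19449108), (nat_lit 13056366)] (nat_lit 23330445)) p15_17_0 (nat_lit 4) (nat_lit 15) (nat_lit 16) = true := by decide +kernel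
def p15_17_0_16 : pfC (piC [(nat_lit 40173837), (nat_lit 26036903), (nat_lit 19449108), (nat_lit 13056366)] (nat_lit 23330445)) p15_17_0 (nat_lit 4) (nat_lit 16) (nat_lit 17) = true := by decide +kernel
def p15_17_0_17 : pfC (piC [(nat_lit 40173837), (nat_lit 26036903), (nat_lit 19449108), (nat_lit 13056366)] (nat_lit 23330445)) p15_17_0 (nat_lit 4) (nat_lit 17) (nat_lit 18) = true := by decide +kernel
def p15_17_0_18 : pfC (piC [(nat_lit 40173837), (nat_lit 26036903), (nat_lit 19449108), (nat_lit 13056366)] (nat_lit 23330445)) p15_17_0 (nat_lit 4) (nat_lit 18) (nat_lit 19) = true := by decide +kernel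
def p15_17_0_19 : pfC (piC [(nat_lit 40173837), (nat_lit 26036903), (nat_lit 19449108), (nat_lit 13056366)] (nat_lit 23330445)) p15_17_0 (nat_lit 4) (nat_lit 19) (nat_lit 20) = true := by decide +kernel
def p15_17_0_20 : pfC (piC [(nat_lit 40173837), (nat_lit 26036903), (nat_lit 19449108), (nat_lit 13056366)] (nat_lit 23330445)) p15_17_0 (nat_lit 4) (nat_lit 20) (nat_lit 21) = true := by decide +kernel
def p15_17_0_21 : pfC (piC [(nat_lit 40173837), (nat_lit 26036903), (nat_lit 19449108), (nat_lit 13056366)] (nat_lit 23330445)) p15_17_0 (nat_lit 4) (nat_lit 21) (nat_lit 22) = true := by decide +kernel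
def p15_17_0_22 : pfC (piC [(nat_lit 40173837), (nat_lit 26036903), (nat_lit 19449108), (nat_lit 13056366)] (nat_lit 23330445)) p15_17_0 (nat_lit 4) (nat_lit 22) (nat_lit 23) = true := by decide +kernel
def p15_17_0_23 : pfC (piC [(nat_lit 40173837), (nat_lit 26036903), (nat_lit 19449108), (nat_lit 13056366)] (nat_lit 23330445)) p15_17_0 (nat_lit 4) (nat_lit 23) (nat_lit 24) = true := by decide +kernel
def p15_17_0_24 : pfC (piC [(nat_lit 40173837), (nat_lit 26036903), (nat_lit 19449108), (nat_lit 13056366)] (nat_lit 23330445)) p15_17_0 (nat_lit 4) (nat_lit 24) (nat_lit 25) = true := by decide +kernel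
def p15_17_0_25 : pfC (piC [(nat_lit 40173837), (nat_lit 26036903), (nat_lit 19449108), (nat_lit 13056366)] (nat_lit 23330445)) p15_17_0 (nat_lit 4) (nat_lit 25) (nat_lit 26) = true := by decide +kernel
def p15_17_0_26 : pfC (piC [(nat_lit 40173837), (nat_lit 26036903), (nat_lit 19449108), (nat_lit 13056366)] (nat_lit 23330445)) p15_17_0 (nat_lit 4) (nat_lit 26) (nat_lit 27) = true := by decide +kernel
def p15_17_0_27 : pfC (piC [(nat_lit 40173837), (nat_lit 26036903), (nat_lit 19449108), (nat_lit 13056366)] (nat_lit 23330445)) p15_17_0 (nat_lit 4) (nat_lit 27) (nat_lit 28) = true := by decide +kernel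
def p15_17_0_28 : pfC (piC [(nat_lit 40173837), (nat_lit 26036903), (nat_lit 19449108), (nat_lit 13056366)] (nat_lit 23330445)) p15_17_0 (nat_lit 4) (nat_lit 28) (nat_lit 29) = true := by decide +kernel
def p15_17_0_29 : pfC (piC [(nat_lit 40173837), (nat_lit 26036903), (nat_lit 19449108), (nat_lit 13056366)] (nat_lit 23330445)) p15_17_0 (nat_lit 4) (nat_lit 29) (nat_lit 30) = true := by decide +kernel
def p15_17_0_30 : pfC (piC [(nat_lit 40173837), (nat_lit 26036903), (nat_lit 19449108), (nat_lit 13056366)] (nat_lit 23330445)) p15_17_0 (nat_lit 4) (nat_lit 30) (nat_lit 31) = true := by decide +kernel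
def p15_17_0_31 : pfC (piC [(nat_lit 40173837), (nat_lit 26036903), (nat_lit 19449108), (nat_lit 13056366)] (nat_lit 23330445)) p15_17_0 (nat_lit 4) (nat_lit 31) (nat_lit 32) = true := by decide +kernel
def p15_17_0_32 : pfC (piC [(nat_lit 40173837), (nat_lit 26036903), (nat_lit 19449108), (nat_lit 13056366)] (nat_lit 23330445)) p15_17_0 (nat_lit 4) (nat_lit 32) (nat_lit 33) = true := by decide +kernel
def p15_17_0_33 : pfC (piC [(nat_lit 40173837), (nat_lit 26036903), (nat_lit 19449108), (nat_lit 13056366)] (nat_lit 23330445)) p15_17_0 (nat_lit 4) (nat_lit 33) (nat_lit 34) = true := by decide +kernel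
def p15_17_0_34 : pfC (piC [(nat_lit 40173837), (nat_lit 26036903), (nat_lit 19449108), (nat_lit 13056366)] (nat_lit 23330445)) p15_17_0 (nat_lit 4) (nat_lit 34) (nat_lit 35) = true := by decide +kernel
def p15_17_0_35 : pfC (piC [(nat_lit 40173837), (nat_lit 26036903), (nat_lit 19449108), (nat_lit 13056366)] (nat_lit 23330445)) p15_17_0 (nat_lit 4) (nat_lit 35) (nat_lit 36) = true := by decide +kernel
def p15_17_0_36 : pfC (piC [(nat_lit 40173837), (nat_lit 26036903), (nat_lit 19449108), (nat_lit 13056366)] (nat_lit 23330445)) p15_17_0 (nat_lit 4) (nat_lit 36) (nat_lit 37) = true := by decide +kernel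
def p15_17_0_37 : pfC (piC [(nat_lit 40173837), (nat_lit 26036903), (nat_lit 19449108), (nat_lit 13056366)] (nat_lit 23330445)) p15_17_0 (nat_lit 4) (nat_lit 37) (nat_lit 38) = true := by decide +kernel
def p15_17_0_38 : pfC (piC [(nat_lit 40173837), (nat_lit 26036903), (nat_lit 19449108), (nat_lit 13056366)] (nat_lit 23330445)) p15_17_0 (nat_lit 4) (nat_lit 38) (nat_lit 39) = true := by decide +kernel
def p15_17_0_39 : pfC (piC [(nat_lit 40173837), (nat_lit 26036903), (nat_lit 19449108), (nat_lit 13056366)] (nat_lit 23330445)) p15_17_0 (nat_lit 4) (nat_lit 39) (nat_lit 40) = true := by decide +kernel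
def p15_17_0_40 : pfC (piC [(nat_lit 40173837), (nat_lit 26036903), (nat_lit 19449108), (nat_lit 13056366)] (nat_lit 23330445)) p15_17_0 (nat_lit 4) (nat_lit 40) (nat_lit 41) = true := by decide +kernel
def p15_17_0_41 : pfC (piC [(nat_lit 40173837), (nat_lit 26036903), (nat_lit 19449108), (nat_lit 13056366)] (nat_lit 23330445)) p15_17_0 (nat_lit 4) (nat_lit 41) (nat_lit 42) = true := by decide +kernel
def p15_17_0_42 : pfC (piC [(nat_lit 40173837), (nat_lit 26036903), (nat_lit 19449108), (nat_lit 13056366)] (nat_lit 23330445)) p15_17_0 (nat_lit 4) (nat_lit 42) (nat_lit 43) = true := by decide +kernel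
def p15_17_0_43 : pfC (piC [(nat_lit 40173837), (nat_lit 26036903), (nat_lit 19449108), (nat_lit 13056366)] (nat_lit 23330445)) p15_17_0 (nat_lit 4) (nat_lit 43) (nat_lit 44) = true := by decide +kernel
def p15_17_0_44 : pfC (piC [(nat_lit 40173837), (nat_lit 26036903), (nat_lit 19449108), (nat_lit 13056366)] (nat_lit 23330445)) p15_17_0 (nat_lit 4) (nat_lit 44) (nat_lit 45) = true := by decide +kernel
def p15_17_0_45 : pfC (piC [(nat_lit 40173837), (nat_lit 26036903), (nat_lit 19449108), (nat_lit 13056366)] (nat_lit 23330445)) p15_17_0 (nat_lit 4) (nat_lit 45) (nat_lit 46) = true := by decide +kernel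
def p15_17_0_46 : pfC (piC [(nat_lit 40173837), (nat_lit 26036903), (nat_lit 19449108), (nat_lit 13056366)] (nat_lit 23330445)) p15_17_0 (nat_lit 4) (nat_lit 46) (nat_lit 47) = true := by decide +kernel
def p15_17_0_47 : pfC (piC [(nat_lit 40173837), (nat_lit 26036903), (nat_lit 19449108), (nat_lit 13056366)] (nat_lit 23330445)) p15_17_0 (nat_lit 4) (nat_lit 47) (nat_lit 48) = true := by decide +kernel
def p15_17_0_48 : pfC (piC [(nat_lit 40173837), (nat_lit 26036903), (nat_lit 19449108), (nat_lit 13056366)] (nat_lit 23330445)) p15_17_0 (nat_lit 4) (nat_lit 48) (nat_lit 49) = true := by decide +kernel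
def p15_17_0_49 : pfC (piC [(nat_lit 40173837), (nat_lit 26036903), (nat_lit 19449108), (nat_lit 13056366)] (nat_lit 23330445)) p15_17_0 (nat_lit 4) (nat_lit 49) (nat_lit 50) = true := by decide +kernel
def p15_17_0_50 : pfC (piC [(nat_lit 40173837), (nat_lit 26036903), (nat_lit 19449108), (nat_lit 13056366)] (nat_lit 23330445)) p15_17_0 (nat_lit 4) (nat_lit 50) (nat_lit 51) = true := by decide +kernel
def p15_17_0_51 : pfC (piC [(nat_lit 40173837), (nat_lit 26036903), (nat_lit 19449108), (nat_lit 13056366)] (nat_lit 23330445)) p15_17_0 (nat_lit 4) (nat_lit 51) (nat_lit 52) = true := by decide +kernel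
def p15_17_0_52 : pfC (piC [(nat_lit 40173837), (nat_lit 26036903), (nat_lit 19449108), (nat_lit 13056366)] (nat_lit 23330445)) p15_17_0 (nat_lit 4) (nat_lit 52) (nat_lit 53) = true := by decide +kernel
def p15_17_0_53 : pfC (piC [(nat_lit 40173837), (nat_lit 26036903), (nat_lit 19449108), (nat_lit 13056366)] (nat_lit 23330445)) p15_17_0 (nat_lit 4) (nat_lit 53) (nat_lit 54) = true := by decide +kernel
def p15_17_0_54 : pfC (piC [(nat_lit 40173837), (nat_lit 26036903), (nat_lit 19449108), (nat_lit 13056366)] (nat_lit 23330445)) p15_17_0 (nat_lit 4) (nat_lit 54) (nat_lit 55) = true := by decide +kernel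
def p15_17_0_55 : pfC (piC [(nat_lit 40173837), (nat_lit 26036903), (nat_lit 19449108), (nat_lit 13056366)] (nat_lit 23330445)) p15_17_0 (nat_lit 4) (nat_lit 55) (nat_lit 56) = true := by decide +kernel
def p15_17_0_56 : pfC (piC [(nat_lit 40173837), (nat_lit 26036903), (nat_lit 19449108), (nat_lit 13056366)] (nat_lit 23330445)) p15_17_0 (nat_lit 4) (nat_lit 56) (nat_lit 57) = true := by decide +kernel
def p15_17_0_57 : pfC (piC [(nat_lit 40173837), (nat_lit 26036903), (nat_lit 19449108), (nat_lit 13056366)] (nat_lit 23330445)) p15_17_0 (nat_lit 4) (nat_lit 57) (nat_lit 58) = true := by decide +kernel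
def p15_17_0_58 : pfC (piC [(nat_lit 40173837), (nat_lit 26036903), (nat_lit 19449108), (nat_lit 13056366)] (nat_lit 23330445)) p15_17_0 (nat_lit 4) (nat_lit 58) (nat_lit 59) = true := by decide +kernel
def p15_17_0_59 : pfC (piC [(nat_lit 40173837), (nat_lit 26036903), (nat_lit 19449108), (nat_lit 13056366)] (nat_lit 23330445)) p15_17_0 (nat_lit 4) (nat_lit 59) (nat_lit 60) = true := by decide +kernel
def p15_17_0_60 : pfC (piC [(nat_lit 40173837), (nat_lit 26036903), (nat_lit 19449108), (nat_lit 13056366)] (nat_lit 23330445)) p15_17_0 (nat_lit 4) (nat_lit 60) (nat_lit 61) = true := by decide +kernel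
def p15_17_0_61 : pfC (piC [(nat_lit 40173837), (nat_lit 26036903), (nat_lit 19449108), (nat_lit 13056366)] (nat_lit 23330445)) p15_17_0 (nat_lit 4) (nat_lit 61) (nat_lit 62) = true := by decide +kernel
def p15_17_0_62 : pfC (piC [(nat_lit 40173837), (nat_lit 26036903), (nat_lit 19449108), (nat_lit 13056366)] (nat_lit 23330445)) p15_17_0 (nat_lit 4) (nat_lit 62) (nat_lit 63) = true := by decide +kernel
def p15_17_0_63 : pfC (piC [(nat_lit 40173837), (nat_lit 26036903), (nat_lit 19449108), (nat_lit 13056366)] (nat_lit 23330445)) p15_17_0 (nat_lit 4) (nat_lit 63) (nat_lit 64) = true := by decide +kernel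
def p15_17_0_64 : pfC (piC [(nat_lit 40173837), (nat_lit 26036903), (nat_lit 19449108), (nat_lit 13056366)] (nat_lit 23330445)) p15_17_0 (nat_lit 4) (nat_lit 64) (nat_lit 65) = true := by decide +kernel
def p15_17_0_65 : pfC (piC [(nat_lit 40173837), (nat_lit 26036903), (nat_lit 19449108), (nat_lit 13056366)] (nat_lit 23330445)) p15_17_0 (nat_lit 4) (nat_lit 65) (nat_lit 66) = true := by decide +kernel
def p15_17_0_66 : pfC (piC [(nat_lit 40173837), (nat_lit 26036903), (nat_lit 19449108), (nat_lit 13056366)] (nat_lit 23330445)) p15_17_0 (nat_lit 4) (nat_lit 66) (nat_lit 67) = true := by decide +kernel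
def p15_17_0_67 : pfC (piC [(nat_lit 40173837), (nat_lit 26036903), (nat_lit 19449108), (nat_lit 13056366)] (nat_lit 23330445)) p15_17_0 (nat_lit 4) (nat_lit 67) (nat_lit 68) = true := by decide +kernel
def p15_17_0_68 : pfC (piC [(nat_lit 40173837), (nat_lit 26036903), (nat_lit 19449108), (nat_lit 13056366)] (nat_lit 23330445)) p15_17_0 (nat_lit 4) (nat_lit 68) (nat_lit 69) = true := by decide +kernel
def p15_17_0_69 : pfC (piC [(nat_lit 40173837), (nat_lit 26036903), (nat_lit 19449108), (nat_lit 13056366)] (nat_lit 23330445)) p15_17_0 (nat_lit 4) (nat_lit 69) (nat_lit 70) = true := by decide +kernel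
def p15_17_0_70 : pfC (piC [(nat_lit 40173837), (nat_lit 26036903), (nat_lit 19449108), (nat_lit 13056366)] (nat_lit 23330445)) p15_17_0 (nat_lit 4) (nat_lit 70) (nat_lit 71) = true := by decide +kernel
def p15_17_0_71 : pfC (piC [(nat_lit 40173837), (nat_lit 26036903), (nat_lit 19449108), (nat_lit 13056366)] (nat_lit 23330445)) p15_17_0 (nat_lit 4) (nat_lit 71) (nat_lit 72) = true := by decide +kernel
def p15_17_0_72 : pfC (piC [(nat_lit 40173837), (nat_lit 26036903), (nat_lit 19449108), (nat_lit 13056366)] (nat_lit 23330445)) p15_17_0 (nat_lit 4) (nat_lit 72) (nat_lit 73) = true := by decide +kernel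
def p15_17_0_73 : pfC (piC [(nat_lit 40173837), (nat_lit 26036903), (nat_lit 19449108), (nat_lit 13056366)] (nat_lit 23330445)) p15_17_0 (nat_lit 4) (nat_lit 73) (nat_lit 74) = true := by decide +kernel
def p15_17_0_74 : pfC (piC [(nat_lit 40173837), (nat_lit 26036903), (nat_lit 19449108), (nat_lit 13056366)] (nat_lit 23330445)) p15_17_0 (nat_lit 4) (nat_lit 74) (nat_lit 75) = true := by decide +kernel
def p15_17_0_75 : pfC (piC [(nat_lit 40173837), (nat_lit 26036903), (nat_lit 19449108), (nat_lit 13056366)] (nat_lit 23330445)) p15_17_0 (nat_lit 4) (nat_lit 75) (nat_lit 76) = true := by decide +kernel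
def p15_17_0_76 : pfC (piC [(nat_lit 40173837), (nat_lit 26036903), (nat_lit 19449108), (nat_lit 13056366)] (nat_lit 23330445)) p15_17_0 (nat_lit 4) (nat_lit 76) (nat_lit 77) = true := by decide +kernel
def p15_17_0_77 : pfC (piC [(nat_lit 40173837), (nat_lit 26036903), (nat_lit 19449108), (nat_lit 13056366)] (nat_lit 23330445)) p15_17_0 (nat_lit 4) (nat_lit 77) (nat_lit 78) = true := by decide +kernel
def p15_17_0_78 : pfC (piC [(nat_lit 40173837), (nat_lit 26036903), (nat_lit 19449108), (nat_lit 13056366)] (nat_lit 23330445)) p15_17_0 (nat_lit 4) (nat_lit 78) (nat_lit 79) = true := by decide +kernel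
def p15_17_0_79 : pfC (piC [(nat_lit 40173837), (nat_lit 26036903), (nat_lit 19449108), (nat_lit 13056366)] (nat_lit 23330445)) p15_17_0 (nat_lit 4) (nat_lit 79) (nat_lit 80) = true := by decide +kernel
def p15_17_0_80 : pfC (piC [(nat_lit 40173837), (nat_lit 26036903), (nat_lit 19449108), (nat_lit 13056366)] (nat_lit 23330445)) p15_17_0 (nat_lit 4) (nat_lit 80) (nat_lit 81) = true := by decide +kernel
def p15_17_0_81 : pfC (piC [(nat_lit 40173837), (nat_lit 26036903), (nat_lit 19449108), (nat_lit 13056366)] (nat_lit 23330445)) p15_17_0 (nat_lit 4) (nat_lit 81) (nat_lit 82) = true := by decide +kernel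
def p15_17_0_82 : pfC (piC [(nat_lit 40173837), (nat_lit 26036903), (nat_lit 19449108), (nat_lit 13056366)] (nat_lit 23330445)) p15_17_0 (nat_lit 4) (nat_lit 82) (nat_lit 83) = true := by decide +kernel
def p15_17_0_83 : pfC (piC [(nat_lit 40173837), (nat_lit 26036903), (nat_lit 19449108), (nat_lit 13056366)] (nat_lit 23330445)) p15_17_0 (nat_lit 4) (nat_lit 83) (nat_lit 84) = true := by decide +kernel
def p15_17_0_84 : pfC (piC [(nat_lit 40173837), (nat_lit 26036903), (nat_lit 19449108), (nat_lit 13056366)] (nat_lit 23330445)) p15_17_0 (nat_lit 4) (nat_lit 84) (nat_lit 85) = true := by decide +kernel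
def p15_17_0_85 : pfC (piC [(nat_lit 40173837), (nat_lit 26036903), (nat_lit 19449108), (nat_lit 13056366)] (nat_lit 23330445)) p15_17_0 (nat_lit 4) (nat_lit 85) (nat_lit 86) = true := by decide +kernel
def p15_17_0_86 : pfC (piC [(nat_lit 40173837), (nat_lit 26036903), (nat_lit 19449108), (nat_lit 13056366)] (nat_lit 23330445)) p15_17_0 (nat_lit 4) (nat_lit 86) (nat_lit 87) = true := by decide +kernel
def p15_17_0_87 : pfC (piC [(nat_lit 40173837), (nat_lit 26036903), (nat_lit 19449108), (nat_lit 13056366)] (nat_lit 23330445)) p15_17_0 (nat_lit 4) (nat_lit 87) (nat_lit 88) = true := by decide +kernel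
def p15_17_0_88 : pfC (piC [(nat_lit 40173837), (nat_lit 26036903), (nat_lit 19449108), (nat_lit 13056366)] (nat_lit 23330445)) p15_17_0 (nat_lit 4) (nat_lit 88) (nat_lit 89) = true := by decide +kernel
def p15_17_0_89 : pfC (piC [(nat_lit 40173837), (nat_lit 26036903), (nat_lit 19449108), (nat_lit 13056366)] (nat_lit 23330445)) p15_17_0 (nat_lit 4) (nat_lit 89) (nat_lit 90) = true := by decide +kernel
def p15_17_0_90 : pfC (piC [(nat_lit 40173837), (nat_lit 26036903), (nat_lit 19449108), (nat_lit 13056366)] (nat_lit 23330445)) p15_17_0 (nat_lit 4) (nat_lit 90) (nat_lit 91) = true := by decide +kernel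
def p15_17_0_91 : pfC (piC [(nat_lit 40173837), (nat_lit 26036903), (nat_lit 19449108), (nat_lit 13056366)] (nat_lit 23330445)) p15_17_0 (nat_lit 4) (nat_lit 91) (nat_lit 92) = true := by decide +kernel
def p15_17_0_92 : pfC (piC [(nat_lit 40173837), (nat_lit 26036903), (nat_lit 19449108), (nat_lit 13056366)] (nat_lit 23330445)) p15_17_0 (nat_lit 4) (nat_lit 92) (nat_lit 93) = true := by decide +kernel
def p15_17_0_93 : pfC (piC [(nat_lit 40173837), (nat_lit 26036903), (nat_lit 19449108), (nat_lit 13056366)] (nat_lit 23330445)) p15_17_0 (nat_lit 4) (nat_lit 93) (nat_lit 94) = true := by decide +kernel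
def p15_17_0_94 : pfC (piC [(nat_lit 40173837), (nat_lit 26036903), (nat_lit 19449108), (nat_lit 13056366)] (nat_lit 23330445)) p15_17_0 (nat_lit 4) (nat_lit 94) (nat_lit 95) = true := by decide +kernel
def p15_17_0_95 : pfC (piC [(nat_lit 40173837), (nat_lit 26036903), (nat_lit 19449108), (nat_lit 13056366)] (nat_lit 23330445)) p15_17_0 (nat_lit 4) (nat_lit 95) (nat_lit 96) = true := by decide +kernel
def p15_17_0_96 : pfC (piC [(nat_lit 40173837), (nat_lit 26036903), (nat_lit 19449108), (nat_lit 13056366)] (nat_lit 23330445)) p15_17_0 (nat_lit 4) (nat_lit 96) (nat_lit 97) = true := by decide +kernel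
def p15_17_0_97 : pfC (piC [(nat_lit 40173837), (nat_lit 26036903), (nat_lit 19449108), (nat_lit 13056366)] (nat_lit 23330445)) p15_17_0 (nat_lit 4) (nat_lit 97) (nat_lit 98) = true := by decide +kernel
def p15_17_0_98 : pfC (piC [(nat_lit 40173837), (nat_lit 26036903), (nat_lit 19449108), (nat_lit 13056366)] (nat_lit 23330445)) p15_17_0 (nat_lit 4) (nat_lit 98) (nat_lit 99) = true := by decide +kernel
def p15_17_0_99 : pfC (piC [(nat_lit 40173837), (nat_lit 26036903), (nat_lit 19449108), (nat_lit 13056366)] (nat_lit 23330445)) p15_17_0 (nat_lit 4) (nat_lit 99) (nat_lit 100) = true := by decide +kernel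
def p15_17_0_100 : pfC (piC [(nat_lit 40173837), (nat_lit 26036903), (nat_lit 19449108), (nat_lit 13056366)] (nat_lit 23330445)) p15_17_0 (nat_lit 4) (nat_lit 100) (nat_lit 101) = true := by decide +kernel
def p15_17_0_101 : pfC (piC [(nat_lit 40173837), (nat_lit 26036903), (nat_lit 19449108), (nat_lit 13056366)] (nat_lit 23330445)) p15_17_0 (nat_lit 4) (nat_lit 101) (nat_lit 102) = true := by decide +kernel
def p15_17_0_102 : pfC (piC [(nat_lit 40173837), (nat_lit 26036903), (nat_lit 19449108), (nat_lit 13056366)] (nat_lit 23330445)) p15_17_0 (nat_lit 4) (nat_lit 102) (nat_lit 103) = true := by decide +kernel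
def p15_17_0_103 : pfC (piC [(nat_lit 40173837), (nat_lit 26036903), (nat_lit 19449108), (nat_lit 13056366)] (nat_lit 23330445)) p15_17_0 (nat_lit 4) (nat_lit 103) (nat_lit 104) = true := by decide +kernel
def p15_17_0_104 : pfC (piC [(nat_lit 40173837), (nat_lit 26036903), (nat_lit 19449108), (nat_lit 13056366)] (nat_lit 23330445)) p15_17_0 (nat_lit 4) (nat_lit 104) (nat_lit 105) = true := by decide +kernel
def p15_17_0_105 : pfC (piC [(nat_lit 40173837), (nat_lit 26036903), (nat_lit 19449108), (nat_lit 13056366)] (nat_lit 23330445)) p15_17_0 (nat_lit 4) (nat_lit 105) (nat_lit 106) = true := by decide +kernel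
def p15_17_0_106 : pfC (piC [(nat_lit 40173837), (nat_lit 26036903), (nat_lit 19449108), (nat_lit 13056366)] (nat_lit 23330445)) p15_17_0 (nat_lit 4) (nat_lit 106) (nat_lit 107) = true := by decide +kernel
def p15_17_0_107 : pfC (piC [(nat_lit 40173837), (nat_lit 26036903), (nat_lit 19449108), (nat_lit 13056366)] (nat_lit 23330445)) p15_17_0 (nat_lit 4) (nat_lit 107) (nat_lit 108) = true := by decide +kernel
def p15_17_0_108 : pfC (piC [(nat_lit 40173837), (nat_lit 26036903), (nat_lit 19449108), (nat_lit 13056366)] (nat_lit 23330445)) p15_17_0 (nat_lit 4) (nat_lit 108) (nat_lit 109) = true := by decide +kernel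
def p15_17_0_109 : pfC (piC [(nat_lit 40173837), (nat_lit 26036903), (nat_lit 19449108), (nat_lit 13056366)] (nat_lit 23330445)) p15_17_0 (nat_lit 4) (nat_lit 109) (nat_lit 110) = true := by decide +kernel
def p15_17_0_110 : pfC (piC [(nat_lit 40173837), (nat_lit 26036903), (nat_lit 19449108), (nat_lit 13056366)] (nat_lit 23330445)) p15_17_0 (nat_lit 4) (nat_lit 110) (nat_lit 111) = true := by decide +kernel
def p15_17_0_111 : pfC (piC [(nat_lit 40173837), (nat_lit 26036903), (nat_lit 19449108), (nat_lit 13056366)] (nat_lit 23330445)) p15_17_0 (nat_lit 4) (nat_lit 111) (nat_lit 112) = true := by decide +kernel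
def p15_17_0_112 : pfC (piC [(nat_lit 40173837), (nat_lit 26036903), (nat_lit 19449108), (nat_lit 13056366)] (nat_lit 23330445)) p15_17_0 (nat_lit 4) (nat_lit 112) (nat_lit 113) = true := by decide +kernel
def p15_17_0_113 : pfC (piC [(nat_lit 40173837), (nat_lit 26036903), (nat_lit 19449108), (nat_lit 13056366)] (nat_lit 23330445)) p15_17_0 (nat_lit 4) (nat_lit 113) (nat_lit 114) = true := by decide +kernel
def p15_17_0_114 : pfC (piC [(nat_lit 40173837), (nat_lit 26036903), (nat_lit 19449108), (nat_lit 13056366)] (nat_lit 23330445)) p15_17_0 (nat_lit 4) (nat_lit 114) (nat_lit 115) = true := by decide +kernel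
def p15_17_0_115 : pfC (piC [(nat_lit 40173837), (nat_lit 26036903), (nat_lit 19449108), (nat_lit 13056366)] (nat_lit 23330445)) p15_17_0 (nat_lit 4) (nat_lit 115) (nat_lit 116) = true := by decide +kernel
def p15_17_0_116 : pfC (piC [(nat_lit 40173837), (nat_lit 26036903), (nat_lit 19449108), (nat_lit 13056366)] (nat_lit 23330445)) p15_17_0 (nat_lit 4) (nat_lit 116) (nat_lit 117) = true := by decide +kernel
def p15_17_0_117 : pfC (piC [(nat_lit 40173837), (nat_lit 26036903), (nat_lit 19449108), (nat_lit 13056366)] (nat_lit 23330445)) p15_17_0 (nat_lit 4) (nat_lit 117) (nat_lit 118) = true := by decide +kernel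
def p15_17_0_118 : pfC (piC [(nat_lit 40173837), (nat_lit 26036903), (nat_lit 19449108), (nat_lit 13056366)] (nat_lit 23330445)) p15_17_0 (nat_lit 4) (nat_lit 118) (nat_lit 119) = true := by decide +kernel
def p15_17_0_119 : pfC (piC [(nat_lit 40173837), (nat_lit 26036903), (nat_lit 19449108), (nat_lit 13056366)] (nat_lit 23330445)) p15_17_0 (nat_lit 4) (nat_lit 119) (nat_lit 120) = true := by decide +kernel
def p15_17_0_120 : pfC (piC [(nat_lit 40173837), (nat_lit 26036903), (nat_lit 19449108), (nat_lit 13056366)] (nat_lit 23330445)) p15_17_0 (nat_lit 4) (nat_lit 120) (nat_lit 121) = true := by decide +kernel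
def p15_17_0_121 : pfC (piC [(nat_lit 40173837), (nat_lit 26036903), (nat_lit 19449108), (nat_lit 13056366)] (nat_lit 23330445)) p15_17_0 (nat_lit 4) (nat_lit 121) (nat_lit 122) = true := by decide +kernel
def p15_17_0_122 : pfC (piC [(nat_lit 40173837), (nat_lit 26036903), (nat_lit 19449108), (nat_lit 13056366)] (nat_lit 23330445)) p15_17_0 (nat_lit 4) (nat_lit 122) (nat_lit 123) = true := by decide +kernel
def p15_17_0_123 : pfC (piC [(nat_lit 40173837), (nat_lit 26036903), (nat_lit 19449108), (nat_lit 13056366)] (nat_lit 23330445)) p15_17_0 (nat_lit 4) (nat_lit 123) (nat_lit 124) = true := by decide +kernel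
def p15_17_0_124 : pfC (piC [(nat_lit 40173837), (nat_lit 26036903), (nat_lit 19449108), (nat_lit 13056366)] (nat_lit 23330445)) p15_17_0 (nat_lit 4) (nat_lit 124) (nat_lit 125) = true := by decide +kernel
def p15_17_0_125 : pfC (piC [(nat_lit 40173837), (nat_lit 26036903), (nat_lit 19449108), (nat_lit 13056366)] (nat_lit 23330445)) p15_17_0 (nat_lit 4) (nat_lit 125) (nat_lit 126) = true := by decide +kernel
def p15_17_0_126 : pfC (piC [(nat_lit 40173837), (nat_lit 26036903), (nat_lit 19449108), (nat_lit 13056366)] (nat_lit 23330445)) p15_17_0 (nat_lit 4) (nat_lit 126) (nat_lit 127) = true := by decide +kernel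
def p15_17_0_127 : pfC (piC [(nat_lit 40173837), (nat_lit 26036903), (nat_lit 19449108), (nat_lit 13056366)] (nat_lit 23330445)) p15_17_0 (nat_lit 4) (nat_lit 127) (nat_lit 128) = true := by decide +kernel
def p15_17_0_128 : pfC (piC [(nat_lit 40173837), (nat_lit 26036903), (nat_lit 19449108), (nat_lit 13056366)] (nat_lit 23330445)) p15_17_0 (nat_lit 4) (nat_lit 128) (nat_lit 129) = true := by decide +kernel
def p15_17_0_129 : pfC (piC [(nat_lit 40173837), (nat_lit 26036903), (nat_lit 19449108), (nat_lit 13056366)] (nat_lit 23330445)) p15_17_0 (nat_lit 4) (nat_lit 129) (nat_lit 130) = true := by decide +kernel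
def p15_17_0_130 : pfC (piC [(nat_lit 40173837), (nat_lit 26036903), (nat_lit 19449108), (nat_lit 13056366)] (nat_lit 23330445)) p15_17_0 (nat_lit 4) (nat_lit 130) (nat_lit 131) = true := by decide +kernel
def p15_17_0_131 : pfC (piC [(nat_lit 40173837), (nat_lit 26036903), (nat_lit 19449108), (nat_lit 13056366)] (nat_lit 23330445)) p15_17_0 (nat_lit 4) (nat_lit 131) (nat_lit 132) = true := by decide +kernel
def p15_17_0_132 : pfC (piC [(nat_lit 40173837), (nat_lit 26036903), (nat_lit 19449108), (nat_lit 13056366)] (nat_lit 23330445)) p15_17_0 (nat_lit 4) (nat_lit 132) (nat_lit 133) = true := by decide +kernel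
def p15_17_0_133 : pfC (piC [(nat_lit 40173837), (nat_lit 26036903), (nat_lit 19449108), (nat_lit 13056366)] (nat_lit 23330445)) p15_17_0 (nat_lit 4) (nat_lit 133) (nat_lit 134) = true := by decide +kernel
def p15_17_0_134 : pfC (piC [(nat_lit 40173837), (nat_lit 26036903), (nat_lit 19449108), (nat_lit 13056366)] (nat_lit 23330445)) p15_17_0 (nat_lit 4) (nat_lit 134) (nat_lit 135) = true := by decide +kernel
def p15_17_0_135 : pfC (piC [(nat_lit 40173837), (nat_lit 26036903), (nat_lit 19449108), (nat_lit 13056366)] (nat_lit 23330445)) p15_17_0 (nat_lit 4) (nat_lit 135) (nat_lit 136) = true := by decide +kernel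
def p15_17_0_136 : pfC (piC [(nat_lit 40173837), (nat_lit 26036903), (nat_lit 19449108), (nat_lit 13056366)] (nat_lit 23330445)) p15_17_0 (nat_lit 4) (nat_lit 136) (nat_lit 137) = true := by decide +kernel
def p15_17_0_137 : pfC (piC [(nat_lit 40173837), (nat_lit 26036903), (nat_lit 19449108), (nat_lit 13056366)] (nat_lit 23330445)) p15_17_0 (nat_lit 4) (nat_lit 137) (nat_lit 138) = true := by decide +kernel
def p15_17_0_138 : pfC (piC [(nat_lit 40173837), (nat_lit 26036903), (nat_lit 19449108), (nat_lit 13056366)] (nat_lit 23330445)) p15_17_0 (nat_lit 4) (nat_lit 138) (nat_lit 139) = true := by decide +kernel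
def p15_17_0_139 : pfC (piC [(nat_lit 40173837), (nat_lit 26036903), (nat_lit 19449108), (nat_lit 13056366)] (nat_lit 23330445)) p15_17_0 (nat_lit 4) (nat_lit 139) (nat_lit 140) = true := by decide +kernel
def p15_17_0_140 : pfC (piC [(nat_lit 40173837), (nat_lit 26036903), (nat_lit 19449108), (nat_lit 13056366)] (nat_lit 23330445)) p15_17_0 (nat_lit 4) (nat_lit 140) (nat_lit 141) = true := by decide +kernel
def p15_17_0_141 : pfC (piC [(nat_lit 40173837), (nat_lit 26036903), (nat_lit 19449108), (nat_lit 13056366)] (nat_lit 23330445)) p15_17_0 (nat_lit 4) (nat_lit 141) (nat_lit 142) = true := by decide +kernel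
def p15_17_0_142 : pfC (piC [(nat_lit 40173837), (nat_lit 26036903), (nat_lit 19449108), (nat_lit 13056366)] (nat_lit 23330445)) p15_17_0 (nat_lit 4) (nat_lit 142) (nat_lit 143) = true := by decide +kernel
def p15_17_0_143 : pfC (piC [(nat_lit 40173837), (nat_lit 26036903), (nat_lit 19449108), (nat_lit 13056366)] (nat_lit 23330445)) p15_17_0 (nat_lit 4) (nat_lit 143) (nat_lit 144) = true := by decide +kernel
def p15_17_0_144 : pfC (piC [(nat_lit 40173837), (nat_lit 26036903), (nat_lit 19449108), (nat_lit 13056366)] (nat_lit 23330445)) p15_17_0 (nat_lit 4) (nat_lit 144) (nat_lit 145) = true := by decide +kernel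
def p15_17_0_145 : pfC (piC [(nat_lit 40173837), (nat_lit 26036903), (nat_lit 19449108), (nat_lit 13056366)] (nat_lit 23330445)) p15_17_0 (nat_lit 4) (nat_lit 145) (nat_lit 146) = true := by decide +kernel
def p15_17_0_146 : pfC (piC [(nat_lit 40173837), (nat_lit 26036903), (nat_lit 19449108), (nat_lit 13056366)] (nat_lit 23330445)) p15_17_0 (nat_lit 4) (nat_lit 146) (nat_lit 147) = true := by decide +kernel
def p15_17_0_147 : pfC (piC [(nat_lit 40173837), (nat_lit 26036903), (nat_lit 19449108), (nat_lit 13056366)] (nat_lit 23330445)) p15_17_0 (nat_lit 4) (nat_lit 147) (nat_lit 148) = true := by decide +kernel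
def p15_17_0_148 : pfC (piC [(nat_lit 40173837), (nat_lit 26036903), (nat_lit 19449108), (nat_lit 13056366)] (nat_lit 23330445)) p15_17_0 (nat_lit 4) (nat_lit 148) (nat_lit 149) = true := by decide +kernel
def p15_17_0_149 : pfC (piC [(nat_lit 40173837), (nat_lit 26036903), (nat_lit 19449108), (nat_lit 13056366)] (nat_lit 23330445)) p15_17_0 (nat_lit 4) (nat_lit 149) (nat_lit 150) = true := by decide +kernel
def p15_17_0_150 : pfC (piC [(nat_lit 40173837), (nat_lit 26036903), (nat_lit 19449108), (nat_lit 13056366)] (nat_lit 23330445)) p15_17_0 (nat_lit 4) (nat_lit 150) (nat_lit 151) = true := by decide +kernel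
def p15_17_0_151 : pfC (piC [(nat_lit 40173837), (nat_lit 26036903), (nat_lit 19449108), (nat_lit 13056366)] (nat_lit 23330445)) p15_17_0 (nat_lit 4) (nat_lit 151) (nat_lit 152) = true := by decide +kernel
def p15_17_0_152 : pfC (piC [(nat_lit 40173837), (nat_lit 26036903), (nat_lit 19449108), (nat_lit 13056366)] (nat_lit 23330445)) p15_17_0 (nat_lit 4) (nat_lit 152) (nat_lit 153) = true := by decide +kernel
def p15_17_0_153 : pfC (piC [(nat_lit 40173837), (nat_lit 26036903), (nat_lit 19449108), (nat_lit 13056366)] (nat_lit 23330445)) p15_17_0 (nat_lit 4) (nat_lit 153) (nat_lit 154) = true := by decide +kernel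
def p15_17_0_154 : pfC (piC [(nat_lit 40173837), (nat_lit 26036903), (nat_lit 19449108), (nat_lit 13056366)] (nat_lit 23330445)) p15_17_0 (nat_lit 4) (nat_lit 154) (nat_lit 155) = true := by decide +kernel
def p15_17_0_155 : pfC (piC [(nat_lit 40173837), (nat_lit 26036903), (nat_lit 19449108), (nat_lit 13056366)] (nat_lit 23330445)) p15_17_0 (nat_lit 4) (nat_lit 155) (nat_lit 156) = true := by decide +kernel
def p15_17_0_156 : pfC (piC [(nat_lit 40173837), (nat_lit 26036903), (nat_lit 19449108), (nat_lit 13056366)] (nat_lit 23330445)) p15_17_0 (nat_lit 4) (nat_lit 156) (nat_lit 157) = true := by decide +kernel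
def p15_17_0_157 : pfC (piC [(nat_lit 40173837), (nat_lit 26036903), (nat_lit 19449108), (nat_lit 13056366)] (nat_lit 23330445)) p15_17_0 (nat_lit 4) (nat_lit 157) (nat_lit 158) = true := by decide +kernel
def p15_17_0_158 : pfC (piC [(nat_lit 40173837), (nat_lit 26036903), (nat_lit 19449108), (nat_lit 13056366)] (nat_lit 23330445)) p15_17_0 (nat_lit 4) (nat_lit 158) (nat_lit 159) = true := by decide +kernel
def p15_17_0_159 : pfC (piC [(nat_lit 40173837), (nat_lit 26036903), (nat_lit 19449108), (nat_lit 13056366)] (nat_lit 23330445)) p15_17_0 (nat_lit 4) (nat_lit 159) (nat_lit 160) = true := by decide +kernel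
def p15_17_0_160 : pfC (piC [(nat_lit 40173837), (nat_lit 26036903), (nat_lit 19449108), (nat_lit 13056366)] (nat_lit 23330445)) p15_17_0 (nat_lit 4) (nat_lit 160) (nat_lit 161) = true := by decide +kernel
def p15_17_0_161 : pfC (piC [(nat_lit 40173837), (nat_lit 26036903), (nat_lit 19449108), (nat_lit 13056366)] (nat_lit 23330445)) p15_17_0 (nat_lit 4) (nat_lit 161) (nat_lit 162) = true := by decide +kernel
def p15_17_0_162 : pfC (piC [(nat_lit 40173837), (nat_lit 26036903), (nat_lit 19449108), (nat_lit 13056366)] (nat_lit 23330445)) p15_17_0 (nat_lit 4) (nat_lit 162) (nat_lit 163) = true := by decide +kernel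
def p15_17_0_163 : pfC (piC [(nat_lit 40173837), (nat_lit 26036903), (nat_lit 19449108), (nat_lit 13056366)] (nat_lit 23330445)) p15_17_0 (nat_lit 4) (nat_lit 163) (nat_lit 164) = true := by decide +kernel
def p15_17_0_164 : pfC (piC [(nat_lit 40173837), (nat_lit 26036903), (nat_lit 19449108), (nat_lit 13056366)] (nat_lit 23330445)) p15_17_0 (nat_lit 4) (nat_lit 164) (nat_lit 165) = true := by decide +kernel
def p15_17_0_165 : pfC (piC [(nat_lit 40173837), (nat_lit 26036903), (nat_lit 19449108), (nat_lit 13056366)] (nat_lit 23330445)) p15_17_0 (nat_lit 4) (nat_lit 165) (nat_lit 166) = true := by decide +kernel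
def p15_17_0_166 : pfC (piC [(nat_lit 40173837), (nat_lit 26036903), (nat_lit 19449108), (nat_lit 13056366)] (nat_lit 23330445)) p15_17_0 (nat_lit 4) (nat_lit 166) (nat_lit 167) = true := by decide +kernel
def p15_17_0_167 : pfC (piC [(nat_lit 40173837), (nat_lit 26036903), (nat_lit 19449108), (nat_lit 13056366)] (nat_lit 23330445)) p15_17_0 (nat_lit 4) (nat_lit 167) (nat_lit 168) = true := by decide +kernel
def p15_17_0_168 : pfC (piC [(nat_lit 40173837), (nat_lit 26036903), (nat_lit 19449108), (nat_lit 13056366)] (nat_lit 23330445)) p15_17_0 (nat_lit 4) (nat_lit 168) (nat_lit 169) = true := by decide +kernel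
def p15_17_0_169 : pfC (piC [(nat_lit 40173837), (nat_lit 26036903), (nat_lit 19449108), (nat_lit 13056366)] (nat_lit 23330445)) p15_17_0 (nat_lit 4) (nat_lit 169) (nat_lit 170) = true := by decide +kernel
def p15_17_0_170 : pfC (piC [(nat_lit 40173837), (nat_lit 26036903), (nat_lit 19449108), (nat_lit 13056366)] (nat_lit 23330445)) p15_17_0 (nat_lit 4) (nat_lit 170) (nat_lit 171) = true := by decide +kernel
def p15_17_0_171 : pfC (piC [(nat_lit 40173837), (nat_lit 26036903), (nat_lit 19449108), (nat_lit 13056366)] (nat_lit 23330445)) p15_17_0 (nat_lit 4) (nat_lit 171) (nat_lit 172) = true := by decide +kernel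
def p15_17_0_172 : pfC (piC [(nat_lit 40173837), (nat_lit 26036903), (nat_lit 19449108), (nat_lit 13056366)] (nat_lit 23330445)) p15_17_0 (nat_lit 4) (nat_lit 172) (nat_lit 173) = true := by decide +kernel
def p15_17_0_173 : pfC (piC [(nat_lit 40173837), (nat_lit 26036903), (nat_lit 19449108), (nat_lit 13056366)] (nat_lit 23330445)) p15_17_0 (nat_lit 4) (nat_lit 173) (nat_lit 174) = true := by decide +kernel
def p15_17_0_174 : pfC (piC [(nat_lit 40173837), (nat_lit 26036903), (nat_lit 19449108), (nat_lit 13056366)] (nat_lit 23330445)) p15_17_0 (nat_lit 4) (nat_lit 174) (nat_lit 175) = true := by decide +kernel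
def p15_17_0_175 : pfC (piC [(nat_lit 40173837), (nat_lit 26036903), (nat_lit 19449108), (nat_lit 13056366)] (nat_lit 23330445)) p15_17_0 (nat_lit 4) (nat_lit 175) (nat_lit 176) = true := by decide +kernel
def p15_17_0_176 : pfC (piC [(nat_lit 40173837), (nat_lit 26036903), (nat_lit 19449108), (nat_lit 13056366)] (nat_lit 23330445)) p15_17_0 (nat_lit 4) (nat_lit 176) (nat_lit 177) = true := by decide +kernel
def p15_17_0_177 : pfC (piC [(nat_lit 40173837), (nat_lit 26036903), (nat_lit 19449108), (nat_lit 13056366)] (nat_lit 23330445)) p15_17_0 (nat_lit 4) (nat_lit 177) (nat_lit 178) = true := by decide +kernel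
def p15_17_0_178 : pfC (piC [(nat_lit 40173837), (nat_lit 26036903), (nat_lit 19449108), (nat_lit 13056366)] (nat_lit 23330445)) p15_17_0 (nat_lit 4) (nat_lit 178) (nat_lit 179) = true := by decide +kernel
def p15_17_0_179 : pfC (piC [(nat_lit 40173837), (nat_lit 26036903), (nat_lit 19449108), (nat_lit 13056366)] (nat_lit 23330445)) p15_17_0 (nat_lit 4) (nat_lit 179) (nat_lit 180) = true := by decide +kernel
def p15_17_0_180 : pfC (piC [(nat_lit 40173837), (nat_lit 26036903), (nat_lit 19449108), (nat_lit 13056366)] (nat_lit 23330445)) p15_17_0 (nat_lit 4) (nat_lit 180) (nat_lit 181) = true := by decide +kernel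
def p15_17_0_181 : pfC (piC [(nat_lit 40173837), (nat_lit 26036903), (nat_lit 19449108), (nat_lit 13056366)] (nat_lit 23330445)) p15_17_0 (nat_lit 4) (nat_lit 181) (nat_lit 182) = true := by decide +kernel
def p15_17_0_182 : pfC (piC [(nat_lit 40173837), (nat_lit 26036903), (nat_lit 19449108), (nat_lit 13056366)] (nat_lit 23330445)) p15_17_0 (nat_lit 4) (nat_lit 182) (nat_lit 183) = true := by decide +kernel
def p15_17_0_183 : pfC (piC [(nat_lit 40173837), (nat_lit 26036903), (nat_lit 19449108), (nat_lit 13056366)] (nat_lit 23330445)) p15_17_0 (nat_lit 4) (nat_lit 183) (nat_lit 184) = true := by decide +kernel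
def p15_17_0_184 : pfC (piC [(nat_lit 40173837), (nat_lit 26036903), (nat_lit 19449108), (nat_lit 13056366)] (nat_lit 23330445)) p15_17_0 (nat_lit 4) (nat_lit 184) (nat_lit 185) = true := by decide +kernel
def p15_17_0_185 : pfC (piC [(nat_lit 40173837), (nat_lit 26036903), (nat_lit 19449108), (nat_lit 13056366)] (nat_lit 23330445)) p15_17_0 (nat_lit 4) (nat_lit 185) (nat_lit 186) = true := by decide +kernel
def p15_17_0_186 : pfC (piC [(nat_lit 40173837), (nat_lit 26036903), (nat_lit 19449108), (nat_lit 13056366)] (nat_lit 23330445)) p15_17_0 (nat_lit 4) (nat_lit 186) (nat_lit 187) = true := by decide +kernel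
def p15_17_0_187 : pfC (piC [(nat_lit 40173837), (nat_lit 26036903), (nat_lit 19449108), (nat_lit 13056366)] (nat_lit 23330445)) p15_17_0 (nat_lit 4) (nat_lit 187) (nat_lit 188) = true := by decide +kernel
def p15_17_0_188 : pfC (piC [(nat_lit 40173837), (nat_lit 26036903), (nat_lit 19449108), (nat_lit 13056366)] (nat_lit 23330445)) p15_17_0 (nat_lit 4) (nat_lit 188) (nat_lit 189) = true := by decide +kernel
def p15_17_0_189 : pfC (piC [(nat_lit 40173837), (nat_lit 26036903), (nat_lit 19449108), (nat_lit 13056366)] (nat_lit 23330445)) p15_17_0 (nat_lit 4) (nat_lit 189) (nat_lit 190) = true := by decide +kernel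
def p15_17_0_190 : pfC (piC [(nat_lit 40173837), (nat_lit 26036903), (nat_lit 19449108), (nat_lit 13056366)] (nat_lit 23330445)) p15_17_0 (nat_lit 4) (nat_lit 190) (nat_lit 191) = true := by decide +kernel
def p15_17_0_191 : pfC (piC [(nat_lit 40173837), (nat_lit 26036903), (nat_lit 19449108), (nat_lit 13056366)] (nat_lit 23330445)) p15_17_0 (nat_lit 4) (nat_lit 191) (nat_lit 192) = true := by decide +kernel
def p15_17_0_192 : pfC (piC [(nat_lit 40173837), (nat_lit 26036903), (nat_lit 19449108), (nat_lit 13056366)] (nat_lit 23330445)) p15_17_0 (nat_lit 4) (nat_lit 192) (nat_lit 193) = true := by decide +kernel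
def p15_17_0_193 : pfC (piC [(nat_lit 40173837), (nat_lit 26036903), (nat_lit 19449108), (nat_lit 13056366)] (nat_lit 23330445)) p15_17_0 (nat_lit 4) (nat_lit 193) (nat_lit 194) = true := by decide +kernel
def p15_17_0_194 : pfC (piC [(nat_lit 40173837), (nat_lit 26036903), (nat_lit 19449108), (nat_lit 13056366)] (nat_lit 23330445)) p15_17_0 (nat_lit 4) (nat_lit 194) (nat_lit 195) = true := by decide +kernel
def p15_17_0_195 : pfC (piC [(nat_lit 40173837), (nat_lit 26036903), (nat_lit 19449108), (nat_lit 13056366)] (nat_lit 23330445)) p15_17_0 (nat_lit 4) (nat_lit 195) (nat_lit 196) = true := by decide +kernel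
def p15_17_0_196 : pfC (piC [(nat_lit 40173837), (nat_lit 26036903), (nat_lit 19449108), (nat_lit 13056366)] (nat_lit 23330445)) p15_17_0 (nat_lit 4) (nat_lit 196) (nat_lit 197) = true := by decide +kernel
def p15_17_0_197 : pfC (piC [(nat_lit 40173837), (nat_lit 26036903), (nat_lit 19449108), (nat_lit 13056366)] (nat_lit 23330445)) p15_17_0 (nat_lit 4) (nat_lit 197) (nat_lit 198) = true := by decide +kernel
def p15_17_0_198 : pfC (piC [(nat_lit 40173837), (nat_lit 26036903), (nat_lit 19449108), (nat_lit 13056366)] (nat_lit 23330445)) p15_17_0 (nat_lit 4) (nat_lit 198) (nat_lit 199) = true := by decide +kernel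
def p15_17_0_199 : pfC (piC [(nat_lit 40173837), (nat_lit 26036903), (nat_lit 19449108), (nat_lit 13056366)] (nat_lit 23330445)) p15_17_0 (nat_lit 4) (nat_lit 199) (nat_lit 200) = true := by decide +kernel
theorem p15_17_0_T : PfS (PiF n15_17.reverse (nat_lit 23330445)) p15_17_0 (nat_lit 4) [] 0 :=
  pftab_of (los := [(nat_lit 40173837), (nat_lit 26036903), (nat_lit 19449108), (nat_lit 13056366)]) (by decide +kernel) (hi := (nat_lit 200)) (PfP.trans (PfP.trans (PfP.trans (PfP.trans (PfP.trans (PfP.trans (PfP.trans (PfP.trans (PfP.trans (PfP.trans (PfP.trans (PfP.trans (PfP.trans (PfP.trans (PfP.trans (PfP.trans (PfP.trans (PfP.trans (PfP.trans (PfP.trans (PfP.trans (PfP.trans (PfP.trans (PfP.trans (PfP.trans (PfP.trans (PfP.trans (PfP.trans (PfP.trans (PfP.trans (PfP.trans (PfP.trans (PfP.trans (PfP.trans (PfP.trans (PfP.trans (PfP.trans (PfP.trans (PfP.trans (PfP.trans (PfP.trans (PfP.trans (PfP.trans (PfP.trans (PfP.trans (PfP.trans (PfP.trans (PfP.trans (PfP.trans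 (PfP.trans (PfP.trans (PfP.trans (PfP.trans (PfP.trans (PfP.trans (PfP.trans (PfP.trans (PfP.trans (PfP.trans (PfP.trans (PfP.trans (PfP.trans (PfP.trans (PfP.trans (PfP.trans (PfP.trans (PfP.trans (PfP.trans (PfP.trans (PfP.trans (PfP.trans (PfP.trans (PfP.trans (PfP.trans (PfP.trans (PfP.trans (PfP.trans (PfP.trans (PfP.trans (PfP.trans (PfP.trans (PfP.trans (PfP.trans (PfP.trans (PfP.trans (PfP.trans (PfP.trans (PfP.trans (PfP.trans (PfP.trans (PfP.trans (PfP.trans (PfP.trans (PfP.trans (PfP.trans (PfP.trans (PfP.trans (PfP.trans (PfP.trans (PfP.trans (PfP.trans (PfP.trans (PfP.trans (PfP.trans (PfP.trans (PfP.trans (PfP.trans (PfP.trans (PfP.trans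
 (PfP.trans (PfP.trans (PfP.trans (PfP.trans (PfP.trans (PfP.trans (PfP.trans (PfP.trans (PfP.trans (PfP.trans (PfP.trans (PfP.trans (PfP.trans (PfP.trans (PfP.trans (PfP.trans (PfP.trans (PfP.trans (PfP.trans (PfP.trans (PfP.trans (PfP.trans (PfP.trans (PfP.trans (PfP.trans (PfP.trans (PfP.trans (PfP.trans (PfP.trans (PfP.trans (PfP.trans (PfP.trans (PfP.trans (PfP.trans (PfP.trans (PfP.trans (PfP.trans (PfP.trans (PfP.trans (PfP.trans (PfP.trans (PfP.trans (PfP.trans (PfP.trans (PfP.trans (PfP.trans (PfP.trans (PfP.trans (PfP.trans (PfP.trans (PfP.trans (PfP.trans (PfP.trans (PfP.trans (PfP.trans (PfP.trans (PfP.trans (PfP.trans (PfP.trans (PfP.trans (PfP.trans (PfP.trans (PfP.trans (PfP.trans (PfP.trans (PfP.trans (PfP.trans (PfP.trans (PfP.trans (PfP.trans (PfP.trans (PfP.trans (PfP.trans (PfP.trans (PfP.trans (PfP.trans (PfP.trans (PfP.trans (PfP.trans (PfP.trans (PfP.trans (PfP.trans (PfP.trans (PfP.trans (PfP.trans (PfP.trans (PfP.trans (PfP.trans (PfP.trans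 (PfP.trans (pfC_sound p15_17_0_0) (pfC_sound p15_17_0_1)) (pfC_sound p15_17_0_2)) (pfC_sound p15_17_0_3)) (pfC_sound p15_17_0_4)) (pfC_sound p15_17_0_5)) (pfC_sound p15_17_0_6)) (pfC_sound p15_17_0_7)) (pfC_sound
 p15_17_0_8)) (pfC_sound p15_17_0_9)) (pfC_sound p15_17_0_10)) (pfC_sound p15_17_0_11)) (pfC_sound p15_17_0_12)) (pfC_sound p15_17_0_13)) (pfC_sound p15_17_0_14)) (pfC_sound p15_17_0_15)) (pfC_sound p15_17_0_16)) (pfC_sound p15_17_0_17)) (pfC_sound p15_17_0_18)) (pfC_sound p15_17_0_19)) (pfC_sound p15_17_0_20)) (pfC_sound p15_17_0_21)) (pfC_sound p15_17_0_22)) (pfC_sound p15_17_0_23)) (pfC_sound p15_17_0_24)) (pfC_sound p15_17_0_25)) (pfC_sound p15_17_0_26)) (pfC_sound p15_17_0_27)) (pfC_sound p15_17_0_28)) (pfC_sound p15_17_0_29)) (pfC_sound p15_17_0_30)) (pfC_sound p15_17_0_31)) (pfC_sound p15_17_0_32)) (pfC_sound p15_17_0_33)) (pfC_sound p15_17_0_34)) (pfC_sound p15_17_0_35)) (pfC_sound p15_17_0_36)) (pfC_sound p15_17_0_37)) (pfC_sound p15_17_0_38)) (pfC_sound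 p15_17_0_39)) (pfC_sound p15_17_0_40)) (pfC_sound p15_17_0_41)) (pfC_sound p15_17_0_42)) (pfC_sound p15_17_0_43)) (pfC_sound p15_17_0_44)) (pfC_sound p15_17_0_45)) (pfC_sound p15_17_0_46)) (pfC_sound p15_17_0_47)) (pfC_sound p15_17_0_48)) (pfC_sound p15_17_0_49)) (pfC_sound p15_17_0_50)) (pfC_sound p15_17_0_51)) (pfC_sound p15_17_0_52)) (pfC_sound p15_17_0_53)) (pfC_sound p15_17_0_54)) (pfC_sound p15_17_0_55)) (pfC_sound
 p15_17_0_56)) (pfC_sound p15_17_0_57)) (pfC_sound p15_17_0_58)) (pfC_sound p15_17_0_59)) (pfC_sound p15_17_0_60)) (pfC_sound p15_17_0_61)) (pfC_sound p15_17_0_62)) (pfC_sound p15_17_0_63)) (pfC_sound p15_17_0_64)) (pfC_sound p15_17_0_65)) (pfC_sound p15_17_0_66)) (pfC_sound p15_17_0_67)) (pfC_sound p15_17_0_68)) (pfC_sound p15_17_0_69)) (pfC_sound p15_17_0_70)) (pfC_sound p15_17_0_71)) (pfC_sound p15_17_0_72)) (pfC_sound p15_17_0_73)) (pfC_sound p15_17_0_74)) (pfC_sound p15_17_0_75)) (pfC_sound p15_17_0_76)) (pfC_sound p15_17_0_77)) (pfC_sound p15_17_0_78))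 (pfC_sound p15_17_0_79)) (pfC_sound p15_17_0_80)) (pfC_sound p15_17_0_81)) (pfC_sound p15_17_0_82)) (pfC_sound p15_17_0_83)) (pfC_sound p15_17_0_84)) (pfC_sound p15_17_0_85)) (pfC_sound p15_17_0_86)) (pfC_sound p15_17_0_87)) (pfC_sound p15_17_0_88)) (pfC_sound p15_17_0_89)) (pfC_sound p15_17_0_90)) (pfC_sound p15_17_0_91)) (pfC_sound p15_17_0_92)) (pfC_sound p15_17_0_93)) (pfC_sound p15_17_0_94)) (pfC_sound p15_17_0_95)) (pfC_sound p15_17_0_96)) (pfC_sound p15_17_0_97)) (pfC_sound p15_17_0_98)) (pfC_sound p15_17_0_99)) (pfC_sound p15_17_0_100)) (pfC_sound p15_17_0_101)) (pfC_sound p15_17_0_102)) (pfC_sound p15_17_0_103))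
 (pfC_sound p15_17_0_104)) (pfC_sound p15_17_0_105)) (pfC_sound p15_17_0_106)) (pfC_sound p15_17_0_107)) (pfC_sound p15_17_0_108)) (pfC_sound p15_17_0_109)) (pfC_sound p15_17_0_110)) (pfC_sound p15_17_0_111)) (pfC_sound p15_17_0_112)) (pfC_sound p15_17_0_113)) (pfC_sound p15_17_0_114)) (pfC_sound p15_17_0_115)) (pfC_sound p15_17_0_116)) (pfC_sound p15_17_0_117)) (pfC_sound p15_17_0_118)) (pfC_sound p15_17_0_119)) (pfC_sound p15_17_0_120)) (pfC_sound p15_17_0_121)) (pfC_sound p15_17_0_122)) (pfC_sound p15_17_0_123)) (pfC_sound p15_17_0_124)) (pfC_sound p15_17_0_125)) (pfC_sound p15_17_0_126)) (pfC_sound p15_17_0_127)) (pfC_sound p15_17_0_128)) (pfC_sound p15_17_0_129)) (pfC_sound p15_17_0_130)) (pfC_sound p15_17_0_131)) (pfC_sound p15_17_0_132)) (pfC_sound p15_17_0_133)) (pfC_sound p15_17_0_134)) (pfC_sound p15_17_0_135)) (pfC_sound p15_17_0_136)) (pfC_sound p15_17_0_137)) (pfC_sound p15_17_0_138)) (pfC_sound p15_17_0_139)) (pfC_sound p15_17_0_140)) (pfC_sound p15_17_0_141))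 (pfC_sound p15_17_0_142)) (pfC_sound p15_17_0_143)) (pfC_sound p15_17_0_144)) (pfC_sound p15_17_0_145)) (pfC_sound p15_17_0_146)) (pfC_sound p15_17_0_147)) (pfC_sound p15_17_0_148)) (pfC_sound p15_17_0_149))
 (pfC_sound p15_17_0_150)) (pfC_sound p15_17_0_151)) (pfC_sound p15_17_0_152)) (pfC_sound p15_17_0_153)) (pfC_sound p15_17_0_154)) (pfC_sound p15_17_0_155)) (pfC_sound p15_17_0_156)) (pfC_sound p15_17_0_157)) (pfC_sound p15_17_0_158)) (pfC_sound p15_17_0_159)) (pfC_sound p15_17_0_160)) (pfC_sound p15_17_0_161)) (pfC_sound p15_17_0_162)) (pfC_sound p15_17_0_163)) (pfC_sound p15_17_0_164)) (pfC_sound p15_17_0_165)) (pfC_sound p15_17_0_166)) (pfC_sound p15_17_0_167)) (pfC_sound p15_17_0_168)) (pfC_sound p15_17_0_169)) (pfC_sound p15_17_0_170)) (pfC_sound p15_17_0_171)) (pfC_sound p15_17_0_172)) (pfC_sound p15_17_0_173)) (pfC_sound p15_17_0_174)) (pfC_sound p15_17_0_175)) (pfC_sound p15_17_0_176)) (pfC_sound p15_17_0_177)) (pfC_sound p15_17_0_178)) (pfC_sound p15_17_0_179))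 (pfC_sound p15_17_0_180)) (pfC_sound p15_17_0_181)) (pfC_sound p15_17_0_182)) (pfC_sound p15_17_0_183)) (pfC_sound p15_17_0_184)) (pfC_sound p15_17_0_185)) (pfC_sound p15_17_0_186)) (pfC_sound p15_17_0_187)) (pfC_sound p15_17_0_188)) (pfC_sound p15_17_0_189)) (pfC_sound p15_17_0_190)) (pfC_sound p15_17_0_191)) (pfC_sound p15_17_0_192)) (pfC_sound p15_17_0_193)) (pfC_sound p15_17_0_194)) (pfC_sound p15_17_0_195))
 (pfC_sound p15_17_0_196)) (pfC_sound p15_17_0_197)) (pfC_sound p15_17_0_198)) (pfC_sound p15_17_0_199)) (by decide +kernel)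

def z15_17_0 : zOK yB15_17 (nat_lit 0) (nat_lit 0) (nat_lit 400) (nat_lit 23330445) (nat_lit 10244330) = true := by decide +kernel
def g15_17_0 : gOK yB15_17.x P15_17 (nat_lit 1424) (q15_17 :: r15_17) (nat_lit 0) (nat_lit 0) (nat_lit 1) (nat_lit 400) (nat_lit 0) (nat_lit 11000000) (nat_lit 12712500) (nat_lit 12712500) [(nat_lit 800), (nat_lit 1400), (nat_lit 1530)] = true := by decide +kernel
def v15_17_0 : ivC P15_17 s15_17 w15_17 n15_17 (nat_lit 4) (nat_lit 5430) (nat_lit 0) (nat_lit 0) f152_1_0 f160_1_0 (nat_lit 1) (nat_lit 400) f152_1_400 f160_1_400 (nat_lit 23330445) (nat_lit 10244330) p15_17_0 = true := by decide +kernel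
def p15_17_1 : PF := (PF.cons (PF.cons (PF.cons (PF.cons (PF.leaf (nat_lit 2165189) (nat_lit 10471406) (nat_lit 56637406) (nat_lit 10471406) [(nat_lit 0), (nat_lit 0), (nat_lit 0), (nat_lit 0)]) (PF.cons (PF.leaf (nat_lit 2313266) (nat_lit 248811) (nat_lit 56371412) (nat_lit 10488588) [(nat_lit 248811), (nat_lit 0), (nat_lit 0), (nat_lit 0)]) (PF.cons (PF.leaf (nat_lit 2489526) (nat_lit 270922) (nat_lit 56059832) (nat_lit 10507135) [(nat_lit 270922), (nat_lit 0), (nat_lit 0), (nat_lit 0)]) (PF.cons (PF.leaf (nat_lit 2687776) (nat_lit 290666) (nat_lit 55710845) (nat_lit 10525969) [(nat_lit 290666), (nat_lit 0), (nat_lit 0), (nat_lit 0)]) (PF.cons (PF.leaf (nat_lit 2905093) (nat_lit 308579) (nat_lit 55330230) (nat_lit 10544265) [(nat_lit 308579), (nat_lit 0), (nat_lit 0), (nat_lit 0)]) (PF.cons (PF.leaf (nat_lit 3139192) (nat_lit 325000) (nat_lit 54922444) (nat_lit 10561365) [(nat_lit 325000), (nat_lit 0), (nat_lit 0), (nat_lit 0)]) (PF.cons (PF.leaf (nat_lit 3388210)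 (nat_lit 340158) (nat_lit 54491117) (nat_lit 10576741) [(nat_lit 340158), (nat_lit 0), (nat_lit 0), (nat_lit 0)]) (PF.cons (PF.leaf (nat_lit 3650559) (nat_lit 354217) (nat_lit 54039319) (nat_lit 10589969) [(nat_lit 354217), (nat_lit 0),
 (nat_lit 0), (nat_lit 0)]) (PF.cons PF.nil (PF.cons PF.nil PF.nil)))))))))) (PF.cons (PF.cons (PF.leaf (nat_lit 2692735) (nat_lit 1186659) (nat_lit 55385987) (nat_lit 10536166) [(nat_lit 0), (nat_lit 1186659), (nat_lit 0), (nat_lit 0)]) (PF.cons (PF.leaf (nat_lit 2886296) (nat_lit 302005) (nat_lit 55038285) (nat_lit 10551153) [(nat_lit 302005), (nat_lit 1217368), (nat_lit 0), (nat_lit 0)]) (PF.cons (PF.leaf (nat_lit 3101263) (nat_lit 319251) (nat_lit 54657166) (nat_lit 10565492) [(nat_lit 319251), (nat_lit 1247650), (nat_lit 0), (nat_lit 0)]) (PF.cons (PF.leaf (nat_lit 3333602) (nat_lit 334994) (nat_lit 54248277) (nat_lit 10578529) [(nat_lit 334994), (nat_lit 1277021), (nat_lit 0), (nat_lit 0)]) (PF.cons (PF.leaf (nat_lit 3581117)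 (nat_lit 349490) (nat_lit 53815866) (nat_lit 10589761) [(nat_lit 349490), (nat_lit 1305223), (nat_lit 0), (nat_lit 0)]) (PF.cons (PF.leaf (nat_lit 3842023) (nat_lit 362911) (nat_lit 53363338) (nat_lit 10598794) [(nat_lit 362911), (nat_lit 1332122), (nat_lit 0), (nat_lit 0)]) (PF.cons PF.nil (PF.cons PF.nil (PF.cons PF.nil PF.nil))))))))) (PF.cons (PF.cons (PF.leaf (nat_lit 3301664) (nat_lit 1280769) (nat_lit 53966692) (nat_lit 10580581) [(nat_lit 0),
 (nat_lit 1280769), (nat_lit 0), (nat_lit 0)]) (PF.cons (PF.leaf (nat_lit 3529685) (nat_lit 343708) (nat_lit 53561178) (nat_lit 10589613) [(nat_lit 343708), (nat_lit 1307156), (nat_lit 0), (nat_lit 0)]) (PF.cons (PF.leaf (nat_lit 3774456) (nat_lit 357719) (nat_lit 53131128) (nat_lit 10596808) [(nat_lit 357719), (nat_lit 1332718), (nat_lit 0), (nat_lit 0)]) (PF.cons (PF.leaf (nat_lit 4032983) (nat_lit 370635) (nat_lit 52680636) (nat_lit 10601796) [(nat_lit 370635), (nat_lit 1357237), (nat_lit 0), (nat_lit 0)]) (PF.cons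 (PF.leaf (nat_lit 4303536) (nat_lit 382599) (nat_lit 52212938) (nat_lit 10604296) [(nat_lit 382599), (nat_lit 1380590), (nat_lit 0), (nat_lit 0)]) (PF.cons PF.nil (PF.cons PF.nil PF.nil))))))) (PF.cons (PF.cons (PF.leaf (nat_lit 3969805) (nat_lit 1357854) (nat_lit 52437265) (nat_lit 10597984) [(nat_lit 0), (nat_lit 1357854), (nat_lit 0), (nat_lit 0)]) (PF.cons (PF.leaf (nat_lit 4224115) (nat_lit 377427) (nat_lit 51991820) (nat_lit 10599121) [(nat_lit 377427), (nat_lit 1380147), (nat_lit 0), (nat_lit 0)]) (PF.cons (PF.leaf (nat_lit 4491557) (nat_lit 388987) (nat_lit 51528612) (nat_lit 10597803) [(nat_lit 388987), (nat_lit 1401473), (nat_lit 0), (nat_lit 0)]) (PF.cons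
 PF.nil (PF.cons PF.nil PF.nil))))) (PF.cons (PF.cons (PF.leaf (nat_lit 4680074) (nat_lit 1420479) (nat_lit 50840870) (nat_lit 10586022) [(nat_lit 0), (nat_lit 1420479), (nat_lit 0), (nat_lit 0)]) (PF.cons (PF.leaf (nat_lit 4954088) (nat_lit 404932) (nat_lit 50369422) (nat_lit 10578549) [(nat_lit 404932), (nat_lit 1438977), (nat_lit 0), (nat_lit 0)]) (PF.cons PF.nil (PF.cons PF.nil PF.nil)))) (PF.cons (PF.cons (PF.leaf (nat_lit 5418660) (nat_lit 1470557) (nat_lit 49210953) (nat_lit 10545069) [(nat_lit 0), (nat_lit 1470557), (nat_lit 0), (nat_lit 0)]) (PF.cons PF.nil PF.nil)) (PF.cons PF.nil (PF.cons PF.nil PF.nil)))))))) (PF.cons (PF.cons (PF.cons (PF.leaf (nat_lit 3258202) (nat_lit 3173794) (nat_lit 53370145) (nat_lit 10564873) [(nat_lit 0), (nat_lit 0), (nat_lit 3173794), (nat_lit 0)]) (PF.cons (PF.leaf (nat_lit 3462098) (nat_lit 326294) (nat_lit 53009682) (nat_lit 10570720) [(nat_lit 326294), (nat_lit 0), (nat_lit 3202116), (nat_lit 0)]) (PF.cons (PF.leaf (nat_lit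 3686415) (nat_lit 342523) (nat_lit 52617838) (nat_lit 10575176) [(nat_lit 342523), (nat_lit 0), (nat_lit 3230751), (nat_lit 0)]) (PF.cons (PF.leaf (nat_lit 3927010) (nat_lit 357120) (nat_lit 52200630) (nat_lit
 10577808) [(nat_lit 357120), (nat_lit 0), (nat_lit 3259013), (nat_lit 0)]) (PF.cons (PF.leaf (nat_lit 4181563) (nat_lit 370400) (nat_lit 51762477) (nat_lit 10578292) [(nat_lit 370400), (nat_lit 0), (nat_lit 3286440), (nat_lit 0)]) (PF.cons (PF.leaf (nat_lit 4448238) (nat_lit 382573) (nat_lit 51306841) (nat_lit 10576388) [(nat_lit 382573), (nat_lit 0), (nat_lit 3312717), (nat_lit 0)]) (PF.cons PF.nil PF.nil))))))) (PF.cons (PF.cons (PF.leaf (nat_lit 3883492) (nat_lit 1342497) (nat_lit 51926555) (nat_lit 10573074) [(nat_lit 0), (nat_lit 1342497), (nat_lit 3266686), (nat_lit 0)]) (PF.cons (PF.leaf (nat_lit 4118596) (nat_lit 363770) (nat_lit 51516300) (nat_lit 10572274) [(nat_lit 363770), (nat_lit 1364857), (nat_lit 3291609), (nat_lit 0)]) (PF.cons (PF.leaf (nat_lit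 4369255) (nat_lit 376705) (nat_lit 51083793) (nat_lit 10569314) [(nat_lit 376705), (nat_lit 1386376), (nat_lit 3315917), (nat_lit 0)]) (PF.cons (PF.leaf (nat_lit 4632598) (nat_lit 388495) (nat_lit 50633208) (nat_lit 10563978) [(nat_lit 388495), (nat_lit 1406887), (nat_lit 3339251), (nat_lit 0)]) (PF.cons PF.nil PF.nil))))) (PF.cons (PF.cons (PF.leaf (nat_lit 4558721) (nat_lit 1405845) (nat_lit 50399802) (nat_lit 10555190)
 [(nat_lit 0), (nat_lit 1405845), (nat_lit 3342130), (nat_lit 0)]) (PF.cons (PF.leaf (nat_lit 4816981) (nat_lit 393612) (nat_lit 49956865) (nat_lit 10546676) [(nat_lit 393612), (nat_lit 1424494), (nat_lit 3362669), (nat_lit 0)]) (PF.cons (PF.leaf (nat_lit 5087285) (nat_lit 404123) (nat_lit 49498314) (nat_lit 10535668) [(nat_lit 404123), (nat_lit 1442213), (nat_lit 3382155), (nat_lit 0)]) (PF.cons PF.nil PF.nil)))) (PF.cons (PF.cons (PF.leaf (nat_lit 5268128) (nat_lit 1456579) (nat_lit 48828157) (nat_lit 10510741) [(nat_lit 0), (nat_lit 1456579),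 (nat_lit 3400176), (nat_lit 0)]) (PF.cons (PF.leaf (nat_lit 5543334) (nat_lit 417615) (nat_lit 48365338) (nat_lit 10494339) [(nat_lit 417615), (nat_lit 1471815), (nat_lit 3416073), (nat_lit 0)]) PF.nil)) (PF.cons PF.nil (PF.cons PF.nil PF.nil)))))) (PF.cons (PF.cons (PF.cons (PF.leaf (nat_lit 4455485) (nat_lit 3330416) (nat_lit 49925530) (nat_lit 10522449) [(nat_lit 0), (nat_lit 0), (nat_lit 3330416), (nat_lit 0)]) (PF.cons (PF.leaf (nat_lit 4695212) (nat_lit 379826) (nat_lit 49516763) (nat_lit 10513131) [(nat_lit 379826), (nat_lit 0), (nat_lit 3349545), (nat_lit 0)]) (PF.cons (PF.leaf (nat_lit 4949514) (nat_lit 391779) (nat_lit 49087828)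
 (nat_lit 10501474) [(nat_lit 391779), (nat_lit 0), (nat_lit 3367975), (nat_lit 0)]) (PF.cons (PF.leaf (nat_lit 5215480) (nat_lit 402556) (nat_lit 48642888) (nat_lit 10487392) [(nat_lit 402556), (nat_lit 0), (nat_lit 3385431), (nat_lit 0)]) (PF.cons PF.nil PF.nil))))) (PF.cons (PF.cons (PF.leaf (nat_lit 5132186) (nat_lit 1441431) (nat_lit 48420985) (nat_lit 10474795) [(nat_lit 0), (nat_lit 1441431), (nat_lit 3385800), (nat_lit 0)]) (PF.cons (PF.leaf (nat_lit 5392419) (nat_lit 406273) (nat_lit 47985509) (nat_lit 10458188) [(nat_lit 406273), (nat_lit 1456973), (nat_lit 3400934), (nat_lit 0)]) (PF.cons (PF.leaf (nat_lit 5663745) (nat_lit 415844) (nat_lit 47536278) (nat_lit 10439128) [(nat_lit 415844), (nat_lit 1471620), (nat_lit 3415048), (nat_lit 0)]) (PF.cons PF.nil PF.nil)))) (PF.cons (PF.cons (PF.leaf (nat_lit 5836534) (nat_lit 1482158) (nat_lit 46888677) (nat_lit 10403678) [(nat_lit 0), (nat_lit 1482158), (nat_lit 3426070), (nat_lit 0)]) (PF.cons PF.nil PF.nil))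 (PF.cons PF.nil (PF.cons PF.nil PF.nil))))) (PF.cons (PF.cons (PF.cons (PF.leaf (nat_lit 5688182) (nat_lit 3410090) (nat_lit 46514043) (nat_lit 10364497) [(nat_lit 0), (nat_lit 0), (nat_lit 3410090), (nat_lit 0)])
 (PF.cons (PF.leaf (nat_lit 5948815) (nat_lit 415976) (nat_lit 46089536) (nat_lit 10341237) [(nat_lit 415976), (nat_lit 0), (nat_lit 3420687), (nat_lit 0)]) (PF.cons PF.nil (PF.cons PF.nil PF.nil)))) (PF.cons (PF.cons (PF.leaf (nat_lit 6384325) (nat_lit 1499088) (nat_lit 45030947) (nat_lit 10271907) [(nat_lit 0), (nat_lit 1499088), (nat_lit 3435623), (nat_lit 0)]) (PF.cons PF.nil PF.nil)) (PF.cons PF.nil PF.nil))) (PF.cons (PF.cons (PF.cons (PF.leaf (nat_lit 6911201) (nat_lit 3432001) (nat_lit 43259438) (nat_lit 10121367) [(nat_lit 0), (nat_lit 0), (nat_lit 3432001), (nat_lit 0)]) (PF.cons PF.nil PF.nil)) (PF.cons PF.nil PF.nil)) (PF.cons PF.nil PF.nil)))))) (PF.cons (PF.cons (PF.cons (PF.cons (PF.leaf (nat_lit 4298036) (nat_lit 9116015) (nat_lit 47710424)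 (nat_lit 10282372) [(nat_lit 0), (nat_lit 0), (nat_lit 0), (nat_lit 9116015)]) (PF.cons (PF.leaf (nat_lit 4501196) (nat_lit 340291) (nat_lit 47384389) (nat_lit 10272302) [(nat_lit 340291), (nat_lit 0), (nat_lit 0), (nat_lit 9111829)]) (PF.cons (PF.leaf (nat_lit 4723271) (nat_lit 355519) (nat_lit 47031683) (nat_lit 10260102) [(nat_lit 355519), (nat_lit 0), (nat_lit 0), (nat_lit 9105988)]) (PF.cons (PF.leaf (nat_lit 4960070)
 (nat_lit 368930) (nat_lit 46657934) (nat_lit 10245732) [(nat_lit 368930), (nat_lit 0), (nat_lit 0), (nat_lit 9098353)]) (PF.cons (PF.leaf (nat_lit 5209215) (nat_lit 380898) (nat_lit 46267237) (nat_lit 10229159) [(nat_lit 380898), (nat_lit 0), (nat_lit 0), (nat_lit 9088823)]) (PF.cons (PF.leaf (nat_lit 5468867) (nat_lit 391671) (nat_lit 45862754) (nat_lit 10210366) [(nat_lit 391671), (nat_lit 0), (nat_lit 0), (nat_lit 9077332)]) (PF.cons (PF.leaf (nat_lit 5737578) (nat_lit 401431) (nat_lit 45447027) (nat_lit 10189354) [(nat_lit 401431), (nat_lit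 0), (nat_lit 0), (nat_lit 9063838)]) (PF.cons PF.nil (PF.cons PF.nil PF.nil))))))))) (PF.cons (PF.cons (PF.leaf (nat_lit 4904158) (nat_lit 1370552) (nat_lit 46419331) (nat_lit 10231174) [(nat_lit 0), (nat_lit 1370552), (nat_lit 0), (nat_lit 9087755)]) (PF.cons (PF.leaf (nat_lit 5134426) (nat_lit 373353) (nat_lit 46054232) (nat_lit 10214883) [(nat_lit 373353), (nat_lit 1388276), (nat_lit 0), (nat_lit 9078067)]) (PF.cons (PF.leaf (nat_lit 5378741) (nat_lit 385047) (nat_lit 45670884) (nat_lit 10196338) [(nat_lit 385047), (nat_lit 1405028), (nat_lit 0), (nat_lit 9066464)]) (PF.cons (PF.leaf (nat_lit 5634166) (nat_lit 395514) (nat_lit 45273072)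
 (nat_lit 10175565) [(nat_lit 395514), (nat_lit 1420720), (nat_lit 0), (nat_lit 9052910)]) (PF.cons (PF.leaf (nat_lit 5899003) (nat_lit 404956) (nat_lit 44863687) (nat_lit 10152591) [(nat_lit 404956), (nat_lit 1435321), (nat_lit 0), (nat_lit 9037385)]) (PF.cons PF.nil (PF.cons PF.nil PF.nil))))))) (PF.cons (PF.cons (PF.leaf (nat_lit 5549714) (nat_lit 1417563) (nat_lit 45072773) (nat_lit 10160106) [(nat_lit 0), (nat_lit 1417563), (nat_lit 0), (nat_lit 9040806)]) (PF.cons (PF.leaf (nat_lit 5799377) (nat_lit 398668) (nat_lit 44683625) (nat_lit 10137611) [(nat_lit 398668), (nat_lit 1431744), (nat_lit 0), (nat_lit 9025417)]) (PF.cons (PF.leaf (nat_lit 6059675) (nat_lit 407886) (nat_lit 44282084) (nat_lit 10112907) [(nat_lit 407886), (nat_lit 1444988), (nat_lit 0), (nat_lit 9008070)]) (PF.cons (PF.leaf (nat_lit 6328411) (nat_lit 416201) (nat_lit 43870821) (nat_lit 10086061) [(nat_lit 416201), (nat_lit 1457268), (nat_lit 0), (nat_lit 8988787)]) (PF.cons PF.nil PF.nil)))))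 (PF.cons (PF.cons (PF.leaf (nat_lit 6220804) (nat_lit 1453490) (nat_lit 43701955) (nat_lit 10070393) [(nat_lit 0), (nat_lit 1453490), (nat_lit 0), (nat_lit 8975992)]) (PF.cons (PF.leaf (nat_lit 6484256) (nat_lit 418365)
 (nat_lit 43299397) (nat_lit 10042070) [(nat_lit 418365), (nat_lit 1464616), (nat_lit 0), (nat_lit 8955129)]) (PF.cons PF.nil (PF.cons PF.nil PF.nil)))) (PF.cons (PF.cons (PF.leaf (nat_lit 6907047) (nat_lit 1480231) (nat_lit 42329018) (nat_lit 9963946) [(nat_lit 0), (nat_lit 1480231), (nat_lit 0), (nat_lit 8894924)]) (PF.cons PF.nil PF.nil)) (PF.cons PF.nil PF.nil)))))) (PF.cons (PF.cons (PF.cons (PF.leaf (nat_lit 5427854) (nat_lit 3308281) (nat_lit 44677762) (nat_lit 10117952) [(nat_lit 0), (nat_lit 0), (nat_lit 3308281), (nat_lit 9004816)]) (PF.cons (PF.leaf (nat_lit 5660335) (nat_lit 384328) (nat_lit 44318741) (nat_lit 10096379) [(nat_lit 384328), (nat_lit 0), (nat_lit 3319473), (nat_lit 8989890)]) (PF.cons (PF.leaf (nat_lit 5906043) (nat_lit 395121)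 (nat_lit 43943161) (nat_lit 10072515) [(nat_lit 395121), (nat_lit 0), (nat_lit 3329893), (nat_lit 8972998)]) (PF.cons (PF.leaf (nat_lit 6162019) (nat_lit 404689) (nat_lit 43554715) (nat_lit 10046466) [(nat_lit 404689), (nat_lit 0), (nat_lit 3339381), (nat_lit 8954181)]) (PF.cons (PF.leaf (nat_lit 6426594) (nat_lit 413246) (nat_lit 43156189) (nat_lit 10018319) [(nat_lit 413246), (nat_lit 0), (nat_lit 3347837), (nat_lit 8933479)])
 (PF.cons PF.nil (PF.cons PF.nil PF.nil))))))) (PF.cons (PF.cons (PF.leaf (nat_lit 6070207) (nat_lit 1437009) (nat_lit 43365918) (nat_lit 10029171) [(nat_lit 0), (nat_lit 1437009), (nat_lit 3336555), (nat_lit 8940159)]) (PF.cons (PF.leaf (nat_lit 6320053) (nat_lit 406775) (nat_lit 42987079) (nat_lit 10001860) [(nat_lit 406775), (nat_lit 1448754), (nat_lit 3344392), (nat_lit 8919951)]) (PF.cons (PF.leaf (nat_lit 6579760) (nat_lit 415184) (nat_lit 42597238) (nat_lit 9972426) [(nat_lit 415184), (nat_lit 1459621), (nat_lit 3351302), (nat_lit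 8897854)]) (PF.cons PF.nil (PF.cons PF.nil PF.nil))))) (PF.cons (PF.cons (PF.leaf (nat_lit 6733460) (nat_lit 1465384) (nat_lit 42040746) (nat_lit 9924196) [(nat_lit 0), (nat_lit 1465384), (nat_lit 3353161), (nat_lit 8859939)]) (PF.cons (PF.leaf (nat_lit 6995355) (nat_lit 424011) (nat_lit 41651728) (nat_lit 9891695) [(nat_lit 424011), (nat_lit 1474400), (nat_lit 3357728), (nat_lit 8834848)]) (PF.cons PF.nil (PF.cons PF.nil PF.nil)))) (PF.cons (PF.cons (PF.leaf (nat_lit 7408230) (nat_lit 1485758) (nat_lit 40721237) (nat_lit 9805096) [(nat_lit 0), (nat_lit 1485758), (nat_lit 3359268), (nat_lit 8765936)]) (PF.cons PF.nil PF.nil)) (PF.cons PF.nil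
 PF.nil))))) (PF.cons (PF.cons (PF.cons (PF.leaf (nat_lit 6573937) (nat_lit 3335153) (nat_lit 41732631) (nat_lit 9882484) [(nat_lit 0), (nat_lit 0), (nat_lit 3335153), (nat_lit 8823388)]) (PF.cons (PF.leaf (nat_lit 6822949) (nat_lit 412725) (nat_lit 41365859) (nat_lit 9851317) [(nat_lit 412725), (nat_lit 0), (nat_lit 3339814), (nat_lit 8799280)]) (PF.cons (PF.leaf (nat_lit 7081169) (nat_lit 420416) (nat_lit 40989275) (nat_lit 9818131) [(nat_lit 420416), (nat_lit 0), (nat_lit 3343601), (nat_lit 8773370)]) (PF.cons PF.nil PF.nil)))) (PF.cons (PF.cons (PF.leaf (nat_lit 7227560) (nat_lit 1471359) (nat_lit 40457449) (nat_lit 9765592) [(nat_lit 0), (nat_lit 1471359), (nat_lit 3341718), (nat_lit 8730973)]) (PF.cons (PF.leaf (nat_lit 7487194) (nat_lit 427826) (nat_lit 40083045) (nat_lit 9729837) [(nat_lit 427826), (nat_lit 1478582), (nat_lit 3343490), (nat_lit 8702539)]) PF.nil)) (PF.cons PF.nil PF.nil))) (PF.cons (PF.cons (PF.cons (PF.leaf (nat_lit 7703346) (nat_lit 3321990)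 (nat_lit 38952217) (nat_lit 9598121) [(nat_lit 0), (nat_lit 0), (nat_lit 3321990), (nat_lit 8592502)]) (PF.cons PF.nil PF.nil)) (PF.cons PF.nil PF.nil)) (PF.cons PF.nil PF.nil))))) (PF.cons (PF.cons (PF.cons (PF.cons
 (PF.leaf (nat_lit 6277244) (nat_lit 8611204) (nat_lit 40242311) (nat_lit 9644092) [(nat_lit 0), (nat_lit 0), (nat_lit 0), (nat_lit 8611204)]) (PF.cons (PF.leaf (nat_lit 6501207) (nat_lit 381996) (nat_lit 39930041) (nat_lit 9616629) [(nat_lit 381996), (nat_lit 0), (nat_lit 0), (nat_lit 8590072)]) (PF.cons (PF.leaf (nat_lit 6737271) (nat_lit 391832) (nat_lit 39603978) (nat_lit 9587015) [(nat_lit 391832), (nat_lit 0), (nat_lit 0), (nat_lit 8567076)]) (PF.cons (PF.leaf (nat_lit 6982594) (nat_lit 400436) (nat_lit 39267339) (nat_lit 9555451) [(nat_lit 400436), (nat_lit 0), (nat_lit 0), (nat_lit 8542355)]) (PF.cons (PF.leaf (nat_lit 7235555) (nat_lit 408036) (nat_lit 38922532) (nat_lit 9522093) [(nat_lit 408036), (nat_lit 0), (nat_lit 0), (nat_lit 8516020)])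 PF.nil))))) (PF.cons (PF.cons (PF.leaf (nat_lit 6885851) (nat_lit 1411913) (nat_lit 39107413) (nat_lit 9536539) [(nat_lit 0), (nat_lit 1411913), (nat_lit 0), (nat_lit 8526473)]) (PF.cons (PF.leaf (nat_lit 7124933) (nat_lit 401434) (nat_lit 38779719) (nat_lit 9504462) [(nat_lit 401434), (nat_lit 1421020), (nat_lit 0), (nat_lit 8501088)]) (PF.cons (PF.leaf (nat_lit 7372917) (nat_lit 408942) (nat_lit 38442986) (nat_lit 9470538)
 [(nat_lit 408942), (nat_lit 1429288), (nat_lit 0), (nat_lit 8474057)]) (PF.cons PF.nil PF.nil)))) (PF.cons (PF.cons (PF.leaf (nat_lit 7511039) (nat_lit 1432011) (nat_lit 37966087) (nat_lit 9417488) [(nat_lit 0), (nat_lit 1432011), (nat_lit 0), (nat_lit 8430606)]) (PF.cons (PF.leaf (nat_lit 7760379) (nat_lit 415979) (nat_lit 37630924) (nat_lit 9381483) [(nat_lit 415979), (nat_lit 1438697), (nat_lit 0), (nat_lit 8401515)]) PF.nil)) (PF.cons PF.nil (PF.cons PF.nil PF.nil))))) (PF.cons (PF.cons (PF.cons (PF.leaf (nat_lit 7345858) (nat_lit 3230425)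 (nat_lit 37712120) (nat_lit 9376931) [(nat_lit 0), (nat_lit 0), (nat_lit 3230425), (nat_lit 8394667)]) (PF.cons (PF.leaf (nat_lit 7583465) (nat_lit 404965) (nat_lit 37395824) (nat_lit 9342649) [(nat_lit 404965), (nat_lit 0), (nat_lit 3231441), (nat_lit 8366965)]) (PF.cons (PF.leaf (nat_lit 7829482) (nat_lit 411856) (nat_lit 37071396) (nat_lit 9306620) [(nat_lit 411856), (nat_lit 0), (nat_lit 3231678), (nat_lit 8337702)]) (PF.cons PF.nil PF.nil)))) (PF.cons (PF.cons (PF.leaf (nat_lit 7961180) (nat_lit 1431374) (nat_lit 36616403) (nat_lit 9251495) [(nat_lit 0), (nat_lit 1431374), (nat_lit 3225688), (nat_lit 8291925)]) (PF.cons PF.nil PF.nil))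
 (PF.cons PF.nil PF.nil))) (PF.cons (PF.cons (PF.cons (PF.leaf (nat_lit 8395421) (nat_lit 3197434) (nat_lit 35333916) (nat_lit 9082053) [(nat_lit 0), (nat_lit 0), (nat_lit 3197434), (nat_lit 8148987)]) (PF.cons PF.nil PF.nil)) (PF.cons PF.nil PF.nil)) PF.nil))) (PF.cons (PF.cons (PF.cons (PF.cons (PF.leaf (nat_lit 8029360) (nat_lit 7969691) (nat_lit 34317328) (nat_lit 8882409) [(nat_lit 0), (nat_lit 0), (nat_lit 0), (nat_lit 7969691)]) (PF.cons (PF.leaf (nat_lit 8256211) (nat_lit 394863) (nat_lit 34043742) (nat_lit 8847565) [(nat_lit 394863), (nat_lit 0), (nat_lit 0), (nat_lit 7940880)]) (PF.cons (PF.leaf (nat_lit 8490828) (nat_lit 401118) (nat_lit 33763281) (nat_lit 8811193) [(nat_lit 401118), (nat_lit 0), (nat_lit 0), (nat_lit 7910700)]) (PF.cons PF.nil PF.nil)))) (PF.cons (PF.cons (PF.leaf (nat_lit 8610564) (nat_lit 1385817) (nat_lit 33372282) (nat_lit 8756676) [(nat_lit 0), (nat_lit 1385817), (nat_lit 0), (nat_lit 7864678)]) (PF.cons PF.nil PF.nil)) (PF.cons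 PF.nil PF.nil))) (PF.cons (PF.cons (PF.cons (PF.leaf (nat_lit 9010592) (nat_lit 3069348) (nat_lit 32273246) (nat_lit 8592590) [(nat_lit 0), (nat_lit 0), (nat_lit 3069348), (nat_lit 7724542)]) (PF.cons PF.nil PF.nil))
 PF.nil) PF.nil)) (PF.cons PF.nil (PF.cons PF.nil (PF.cons PF.nil (PF.cons PF.nil PF.nil))))))))

def p15_17_1_0 : pfC (piC [(nat_lit 40173837), (nat_lit 26036903), (nat_lit 19449108), (nat_lit 13056366)] (nat_lit 10244330)) p15_17_1 (nat_lit 4) (nat_lit 0) (nat_lit 1) = true := by decide +kernel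
def p15_17_1_1 : pfC (piC [(nat_lit 40173837), (nat_lit 26036903), (nat_lit 19449108), (nat_lit 13056366)] (nat_lit 10244330)) p15_17_1 (nat_lit 4) (nat_lit 1) (nat_lit 2) = true := by decide +kernel
def p15_17_1_2 : pfC (piC [(nat_lit 40173837), (nat_lit 26036903), (nat_lit 19449108), (nat_lit 13056366)] (nat_lit 10244330)) p15_17_1 (nat_lit 4) (nat_lit 2) (nat_lit 3) = true := by decide +kernel
def p15_17_1_3 : pfC (piC [(nat_lit 40173837), (nat_lit 26036903), (nat_lit 19449108), (nat_lit 13056366)] (nat_lit 10244330)) p15_17_1 (nat_lit 4) (nat_lit 3) (nat_lit 4) = true := by decide +kernel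
def p15_17_1_4 : pfC (piC [(nat_lit 40173837), (nat_lit 26036903), (nat_lit 19449108), (nat_lit 13056366)] (nat_lit 10244330)) p15_17_1 (nat_lit 4) (nat_lit 4) (nat_lit 5) = true := by decide +kernel
def p15_17_1_5 : pfC (piC [(nat_lit 40173837), (nat_lit 26036903), (nat_lit 19449108), (nat_lit 13056366)] (nat_lit 10244330)) p15_17_1 (nat_lit 4) (nat_lit 5) (nat_lit 6) = true := by decide +kernel
def p15_17_1_6 : pfC (piC [(nat_lit 40173837), (nat_lit 26036903), (nat_lit 19449108), (nat_lit 13056366)] (nat_lit 10244330)) p15_17_1 (nat_lit 4) (nat_lit 6) (nat_lit 7) = true := by decide +kernel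
def p15_17_1_7 : pfC (piC [(nat_lit 40173837), (nat_lit 26036903), (nat_lit 19449108), (nat_lit 13056366)] (nat_lit 10244330)) p15_17_1 (nat_lit 4) (nat_lit 7) (nat_lit 8) = true := by decide +kernel
def p15_17_1_8 : pfC (piC [(nat_lit 40173837), (nat_lit 26036903), (nat_lit 19449108), (nat_lit 13056366)] (nat_lit 10244330)) p15_17_1 (nat_lit 4) (nat_lit 8) (nat_lit 9) = true := by decide +kernel
def p15_17_1_9 : pfC (piC [(nat_lit 40173837), (nat_lit 26036903), (nat_lit 19449108), (nat_lit 13056366)] (nat_lit 10244330)) p15_17_1 (nat_lit 4) (nat_lit 9) (nat_lit 10) = true := by decide +kernel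
def p15_17_1_10 : pfC (piC [(nat_lit 40173837), (nat_lit 26036903), (nat_lit 19449108), (nat_lit 13056366)] (nat_lit 10244330)) p15_17_1 (nat_lit 4) (nat_lit 10) (nat_lit 11) = true := by decide +kernel
def p15_17_1_11 : pfC (piC [(nat_lit 40173837), (nat_lit 26036903), (nat_lit 19449108), (nat_lit 13056366)] (nat_lit 10244330)) p15_17_1 (nat_lit 4) (nat_lit 11) (nat_lit 12) = true := by decide +kernel
def p15_17_1_12 : pfC (piC [(nat_lit 40173837), (nat_lit 26036903), (nat_lit 19449108), (nat_lit 13056366)] (nat_lit 10244330)) p15_17_1 (nat_lit 4) (nat_lit 12) (nat_lit 13) = true := by decide +kernel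
def p15_17_1_13 : pfC (piC [(nat_lit 40173837), (nat_lit 26036903), (nat_lit 19449108), (nat_lit 13056366)] (nat_lit 10244330)) p15_17_1 (nat_lit 4) (nat_lit 13) (nat_lit 14) = true := by decide +kernel
def p15_17_1_14 : pfC (piC [(nat_lit 40173837), (nat_lit 26036903), (nat_lit 19449108), (nat_lit 13056366)] (nat_lit 10244330)) p15_17_1 (nat_lit 4) (nat_lit 14) (nat_lit 15) = true := by decide +kernel
def p15_17_1_15 : pfC (piC [(nat_lit 40173837), (nat_lit 26036903), (nat_lit 19449108), (nat_lit 13056366)] (nat_lit 10244330)) p15_17_1 (nat_lit 4) (nat_lit 15) (nat_lit 16) = true := by decide +kernel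
def p15_17_1_16 : pfC (piC [(nat_lit 40173837), (nat_lit 26036903), (nat_lit 19449108), (nat_lit 13056366)] (nat_lit 10244330)) p15_17_1 (nat_lit 4) (nat_lit 16) (nat_lit 17) = true := by decide +kernel
def p15_17_1_17 : pfC (piC [(nat_lit 40173837), (nat_lit 26036903), (nat_lit 19449108), (nat_lit 13056366)] (nat_lit 10244330)) p15_17_1 (nat_lit 4) (nat_lit 17) (nat_lit 18) = true := by decide +kernel
def p15_17_1_18 : pfC (piC [(nat_lit 40173837), (nat_lit 26036903), (nat_lit 19449108), (nat_lit 13056366)] (nat_lit 10244330)) p15_17_1 (nat_lit 4) (nat_lit 18) (nat_lit 19) = true := by decide +kernel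
def p15_17_1_19 : pfC (piC [(nat_lit 40173837), (nat_lit 26036903), (nat_lit 19449108), (nat_lit 13056366)] (nat_lit 10244330)) p15_17_1 (nat_lit 4) (nat_lit 19) (nat_lit 20) = true := by decide +kernel
def p15_17_1_20 : pfC (piC [(nat_lit 40173837), (nat_lit 26036903), (nat_lit 19449108), (nat_lit 13056366)] (nat_lit 10244330)) p15_17_1 (nat_lit 4) (nat_lit 20) (nat_lit 21) = true := by decide +kernel
def p15_17_1_21 : pfC (piC [(nat_lit 40173837), (nat_lit 26036903), (nat_lit 19449108), (nat_lit 13056366)] (nat_lit 10244330)) p15_17_1 (nat_lit 4) (nat_lit 21) (nat_lit 22) = true := by decide +kernel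
def p15_17_1_22 : pfC (piC [(nat_lit 40173837), (nat_lit 26036903), (nat_lit 19449108), (nat_lit 13056366)] (nat_lit 10244330)) p15_17_1 (nat_lit 4) (nat_lit 22) (nat_lit 23) = true := by decide +kernel
def p15_17_1_23 : pfC (piC [(nat_lit 40173837), (nat_lit 26036903), (nat_lit 19449108), (nat_lit 13056366)] (nat_lit 10244330)) p15_17_1 (nat_lit 4) (nat_lit 23) (nat_lit 24) = true := by decide +kernel
def p15_17_1_24 : pfC (piC [(nat_lit 40173837), (nat_lit 26036903), (nat_lit 19449108), (nat_lit 13056366)] (nat_lit 10244330)) p15_17_1 (nat_lit 4) (nat_lit 24) (nat_lit 25) = true := by decide +kernel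
def p15_17_1_25 : pfC (piC [(nat_lit 40173837), (nat_lit 26036903), (nat_lit 19449108), (nat_lit 13056366)] (nat_lit 10244330)) p15_17_1 (nat_lit 4) (nat_lit 25) (nat_lit 26) = true := by decide +kernel
def p15_17_1_26 : pfC (piC [(nat_lit 40173837), (nat_lit 26036903), (nat_lit 19449108), (nat_lit 13056366)] (nat_lit 10244330)) p15_17_1 (nat_lit 4) (nat_lit 26) (nat_lit 27) = true := by decide +kernel
def p15_17_1_27 : pfC (piC [(nat_lit 40173837), (nat_lit 26036903), (nat_lit 19449108), (nat_lit 13056366)] (nat_lit 10244330)) p15_17_1 (nat_lit 4) (nat_lit 27) (nat_lit 28) = true := by decide +kernel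
def p15_17_1_28 : pfC (piC [(nat_lit 40173837), (nat_lit 26036903), (nat_lit 19449108), (nat_lit 13056366)] (nat_lit 10244330)) p15_17_1 (nat_lit 4) (nat_lit 28) (nat_lit 29) = true := by decide +kernel
def p15_17_1_29 : pfC (piC [(nat_lit 40173837), (nat_lit 26036903), (nat_lit 19449108), (nat_lit 13056366)] (nat_lit 10244330)) p15_17_1 (nat_lit 4) (nat_lit 29) (nat_lit 30) = true := by decide +kernel
def p15_17_1_30 : pfC (piC [(nat_lit 40173837), (nat_lit 26036903), (nat_lit 19449108), (nat_lit 13056366)] (nat_lit 10244330)) p15_17_1 (nat_lit 4) (nat_lit 30) (nat_lit 31) = true := by decide +kernel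
def p15_17_1_31 : pfC (piC [(nat_lit 40173837), (nat_lit 26036903), (nat_lit 19449108), (nat_lit 13056366)] (nat_lit 10244330)) p15_17_1 (nat_lit 4) (nat_lit 31) (nat_lit 32) = true := by decide +kernel
def p15_17_1_32 : pfC (piC [(nat_lit 40173837), (nat_lit 26036903), (nat_lit 19449108), (nat_lit 13056366)] (nat_lit 10244330)) p15_17_1 (nat_lit 4) (nat_lit 32) (nat_lit 33) = true := by decide +kernel
def p15_17_1_33 : pfC (piC [(nat_lit 40173837), (nat_lit 26036903), (nat_lit 19449108), (nat_lit 13056366)] (nat_lit 10244330)) p15_17_1 (nat_lit 4) (nat_lit 33) (nat_lit 34) = true := by decide +kernel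
def p15_17_1_34 : pfC (piC [(nat_lit 40173837), (nat_lit 26036903), (nat_lit 19449108), (nat_lit 13056366)] (nat_lit 10244330)) p15_17_1 (nat_lit 4) (nat_lit 34) (nat_lit 35) = true := by decide +kernel
def p15_17_1_35 : pfC (piC [(nat_lit 40173837), (nat_lit 26036903), (nat_lit 19449108), (nat_lit 13056366)] (nat_lit 10244330)) p15_17_1 (nat_lit 4) (nat_lit 35) (nat_lit 36) = true := by decide +kernel
def p15_17_1_36 : pfC (piC [(nat_lit 40173837), (nat_lit 26036903), (nat_lit 19449108), (nat_lit 13056366)] (nat_lit 10244330)) p15_17_1 (nat_lit 4) (nat_lit 36) (nat_lit 37) = true := by decide +kernel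
def p15_17_1_37 : pfC (piC [(nat_lit 40173837), (nat_lit 26036903), (nat_lit 19449108), (nat_lit 13056366)] (nat_lit 10244330)) p15_17_1 (nat_lit 4) (nat_lit 37) (nat_lit 38) = true := by decide +kernel
def p15_17_1_38 : pfC (piC [(nat_lit 40173837), (nat_lit 26036903), (nat_lit 19449108), (nat_lit 13056366)] (nat_lit 10244330)) p15_17_1 (nat_lit 4) (nat_lit 38) (nat_lit 39) = true := by decide +kernel
def p15_17_1_39 : pfC (piC [(nat_lit 40173837), (nat_lit 26036903), (nat_lit 19449108), (nat_lit 13056366)] (nat_lit 10244330)) p15_17_1 (nat_lit 4) (nat_lit 39) (nat_lit 40) = true := by decide +kernel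
def p15_17_1_40 : pfC (piC [(nat_lit 40173837), (nat_lit 26036903), (nat_lit 19449108), (nat_lit 13056366)] (nat_lit 10244330)) p15_17_1 (nat_lit 4) (nat_lit 40) (nat_lit 41) = true := by decide +kernel
def p15_17_1_41 : pfC (piC [(nat_lit 40173837), (nat_lit 26036903), (nat_lit 19449108), (nat_lit 13056366)] (nat_lit 10244330)) p15_17_1 (nat_lit 4) (nat_lit 41) (nat_lit 42) = true := by decide +kernel
def p15_17_1_42 : pfC (piC [(nat_lit 40173837), (nat_lit 26036903), (nat_lit 19449108), (nat_lit 13056366)] (nat_lit 10244330)) p15_17_1 (nat_lit 4) (nat_lit 42) (nat_lit 43) = true := by decide +kernel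
def p15_17_1_43 : pfC (piC [(nat_lit 40173837), (nat_lit 26036903), (nat_lit 19449108), (nat_lit 13056366)] (nat_lit 10244330)) p15_17_1 (nat_lit 4) (nat_lit 43) (nat_lit 44) = true := by decide +kernel
def p15_17_1_44 : pfC (piC [(nat_lit 40173837), (nat_lit 26036903), (nat_lit 19449108), (nat_lit 13056366)] (nat_lit 10244330)) p15_17_1 (nat_lit 4) (nat_lit 44) (nat_lit 45) = true := by decide +kernel
def p15_17_1_45 : pfC (piC [(nat_lit 40173837), (nat_lit 26036903), (nat_lit 19449108), (nat_lit 13056366)] (nat_lit 10244330)) p15_17_1 (nat_lit 4) (nat_lit 45) (nat_lit 46) = true := by decide +kernel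
def p15_17_1_46 : pfC (piC [(nat_lit 40173837), (nat_lit 26036903), (nat_lit 19449108), (nat_lit 13056366)] (nat_lit 10244330)) p15_17_1 (nat_lit 4) (nat_lit 46) (nat_lit 47) = true := by decide +kernel
def p15_17_1_47 : pfC (piC [(nat_lit 40173837), (nat_lit 26036903), (nat_lit 19449108), (nat_lit 13056366)] (nat_lit 10244330)) p15_17_1 (nat_lit 4) (nat_lit 47) (nat_lit 48) = true := by decide +kernel
def p15_17_1_48 : pfC (piC [(nat_lit 40173837), (nat_lit 26036903), (nat_lit 19449108), (nat_lit 13056366)] (nat_lit 10244330)) p15_17_1 (nat_lit 4) (nat_lit 48) (nat_lit 49) = true := by decide +kernel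
def p15_17_1_49 : pfC (piC [(nat_lit 40173837), (nat_lit 26036903), (nat_lit 19449108), (nat_lit 13056366)] (nat_lit 10244330)) p15_17_1 (nat_lit 4) (nat_lit 49) (nat_lit 50) = true := by decide +kernel
def p15_17_1_50 : pfC (piC [(nat_lit 40173837), (nat_lit 26036903), (nat_lit 19449108), (nat_lit 13056366)] (nat_lit 10244330)) p15_17_1 (nat_lit 4) (nat_lit 50) (nat_lit 51) = true := by decide +kernel
def p15_17_1_51 : pfC (piC [(nat_lit 40173837), (nat_lit 26036903), (nat_lit 19449108), (nat_lit 13056366)] (nat_lit 10244330)) p15_17_1 (nat_lit 4) (nat_lit 51) (nat_lit 52) = true := by decide +kernel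
def p15_17_1_52 : pfC (piC [(nat_lit 40173837), (nat_lit 26036903), (nat_lit 19449108), (nat_lit 13056366)] (nat_lit 10244330)) p15_17_1 (nat_lit 4) (nat_lit 52) (nat_lit 53) = true := by decide +kernel
def p15_17_1_53 : pfC (piC [(nat_lit 40173837), (nat_lit 26036903), (nat_lit 19449108), (nat_lit 13056366)] (nat_lit 10244330)) p15_17_1 (nat_lit 4) (nat_lit 53) (nat_lit 54) = true := by decide +kernel
def p15_17_1_54 : pfC (piC [(nat_lit 40173837), (nat_lit 26036903), (nat_lit 19449108), (nat_lit 13056366)] (nat_lit 10244330)) p15_17_1 (nat_lit 4) (nat_lit 54) (nat_lit 55) = true := by decide +kernel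
def p15_17_1_55 : pfC (piC [(nat_lit 40173837), (nat_lit 26036903), (nat_lit 19449108), (nat_lit 13056366)] (nat_lit 10244330)) p15_17_1 (nat_lit 4) (nat_lit 55) (nat_lit 56) = true := by decide +kernel
def p15_17_1_56 : pfC (piC [(nat_lit 40173837), (nat_lit 26036903), (nat_lit 19449108), (nat_lit 13056366)] (nat_lit 10244330)) p15_17_1 (nat_lit 4) (nat_lit 56) (nat_lit 57) = true := by decide +kernel
def p15_17_1_57 : pfC (piC [(nat_lit 40173837), (nat_lit 26036903), (nat_lit 19449108), (nat_lit 13056366)] (nat_lit 10244330)) p15_17_1 (nat_lit 4) (nat_lit 57) (nat_lit 58) = true := by decide +kernel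
def p15_17_1_58 : pfC (piC [(nat_lit 40173837), (nat_lit 26036903), (nat_lit 19449108), (nat_lit 13056366)] (nat_lit 10244330)) p15_17_1 (nat_lit 4) (nat_lit 58) (nat_lit 59) = true := by decide +kernel
def p15_17_1_59 : pfC (piC [(nat_lit 40173837), (nat_lit 26036903), (nat_lit 19449108), (nat_lit 13056366)] (nat_lit 10244330)) p15_17_1 (nat_lit 4) (nat_lit 59) (nat_lit 60) = true := by decide +kernel
def p15_17_1_60 : pfC (piC [(nat_lit 40173837), (nat_lit 26036903), (nat_lit 19449108), (nat_lit 13056366)] (nat_lit 10244330)) p15_17_1 (nat_lit 4) (nat_lit 60) (nat_lit 61) = true := by decide +kernel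
def p15_17_1_61 : pfC (piC [(nat_lit 40173837), (nat_lit 26036903), (nat_lit 19449108), (nat_lit 13056366)] (nat_lit 10244330)) p15_17_1 (nat_lit 4) (nat_lit 61) (nat_lit 62) = true := by decide +kernel
def p15_17_1_62 : pfC (piC [(nat_lit 40173837), (nat_lit 26036903), (nat_lit 19449108), (nat_lit 13056366)] (nat_lit 10244330)) p15_17_1 (nat_lit 4) (nat_lit 62) (nat_lit 63) = true := by decide +kernel
def p15_17_1_63 : pfC (piC [(nat_lit 40173837), (nat_lit 26036903), (nat_lit 19449108), (nat_lit 13056366)] (nat_lit 10244330)) p15_17_1 (nat_lit 4) (nat_lit 63) (nat_lit 64) = true := by decide +kernel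
def p15_17_1_64 : pfC (piC [(nat_lit 40173837), (nat_lit 26036903), (nat_lit 19449108), (nat_lit 13056366)] (nat_lit 10244330)) p15_17_1 (nat_lit 4) (nat_lit 64) (nat_lit 65) = true := by decide +kernel
def p15_17_1_65 : pfC (piC [(nat_lit 40173837), (nat_lit 26036903), (nat_lit 19449108), (nat_lit 13056366)] (nat_lit 10244330)) p15_17_1 (nat_lit 4) (nat_lit 65) (nat_lit 66) = true := by decide +kernel
def p15_17_1_66 : pfC (piC [(nat_lit 40173837), (nat_lit 26036903), (nat_lit 19449108), (nat_lit 13056366)] (nat_lit 10244330)) p15_17_1 (nat_lit 4) (nat_lit 66) (nat_lit 67) = true := by decide +kernel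
def p15_17_1_67 : pfC (piC [(nat_lit 40173837), (nat_lit 26036903), (nat_lit 19449108), (nat_lit 13056366)] (nat_lit 10244330)) p15_17_1 (nat_lit 4) (nat_lit 67) (nat_lit 68) = true := by decide +kernel
def p15_17_1_68 : pfC (piC [(nat_lit 40173837), (nat_lit 26036903), (nat_lit 19449108), (nat_lit 13056366)] (nat_lit 10244330)) p15_17_1 (nat_lit 4) (nat_lit 68) (nat_lit 69) = true := by decide +kernel
def p15_17_1_69 : pfC (piC [(nat_lit 40173837), (nat_lit 26036903), (nat_lit 19449108), (nat_lit 13056366)] (nat_lit 10244330)) p15_17_1 (nat_lit 4) (nat_lit 69) (nat_lit 70) = true := by decide +kernel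
def p15_17_1_70 : pfC (piC [(nat_lit 40173837), (nat_lit 26036903), (nat_lit 19449108), (nat_lit 13056366)] (nat_lit 10244330)) p15_17_1 (nat_lit 4) (nat_lit 70) (nat_lit 71) = true := by decide +kernel
def p15_17_1_71 : pfC (piC [(nat_lit 40173837), (nat_lit 26036903), (nat_lit 19449108), (nat_lit 13056366)] (nat_lit 10244330)) p15_17_1 (nat_lit 4) (nat_lit 71) (nat_lit 72) = true := by decide +kernel
def p15_17_1_72 : pfC (piC [(nat_lit 40173837), (nat_lit 26036903), (nat_lit 19449108), (nat_lit 13056366)] (nat_lit 10244330)) p15_17_1 (nat_lit 4) (nat_lit 72) (nat_lit 73) = true := by decide +kernel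
def p15_17_1_73 : pfC (piC [(nat_lit 40173837), (nat_lit 26036903), (nat_lit 19449108), (nat_lit 13056366)] (nat_lit 10244330)) p15_17_1 (nat_lit 4) (nat_lit 73) (nat_lit 74) = true := by decide +kernel
def p15_17_1_74 : pfC (piC [(nat_lit 40173837), (nat_lit 26036903), (nat_lit 19449108), (nat_lit 13056366)] (nat_lit 10244330)) p15_17_1 (nat_lit 4) (nat_lit 74) (nat_lit 75) = true := by decide +kernel
def p15_17_1_75 : pfC (piC [(nat_lit 40173837), (nat_lit 26036903), (nat_lit 19449108), (nat_lit 13056366)] (nat_lit 10244330)) p15_17_1 (nat_lit 4) (nat_lit 75) (nat_lit 76) = true := by decide +kernel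
def p15_17_1_76 : pfC (piC [(nat_lit 40173837), (nat_lit 26036903), (nat_lit 19449108), (nat_lit 13056366)] (nat_lit 10244330)) p15_17_1 (nat_lit 4) (nat_lit 76) (nat_lit 77) = true := by decide +kernel
def p15_17_1_77 : pfC (piC [(nat_lit 40173837), (nat_lit 26036903), (nat_lit 19449108), (nat_lit 13056366)] (nat_lit 10244330)) p15_17_1 (nat_lit 4) (nat_lit 77) (nat_lit 78) = true := by decide +kernel
def p15_17_1_78 : pfC (piC [(nat_lit 40173837), (nat_lit 26036903), (nat_lit 19449108), (nat_lit 13056366)] (nat_lit 10244330)) p15_17_1 (nat_lit 4) (nat_lit 78) (nat_lit 79) = true := by decide +kernel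
def p15_17_1_79 : pfC (piC [(nat_lit 40173837), (nat_lit 26036903), (nat_lit 19449108), (nat_lit 13056366)] (nat_lit 10244330)) p15_17_1 (nat_lit 4) (nat_lit 79) (nat_lit 80) = true := by decide +kernel
def p15_17_1_80 : pfC (piC [(nat_lit 40173837), (nat_lit 26036903), (nat_lit 19449108), (nat_lit 13056366)] (nat_lit 10244330)) p15_17_1 (nat_lit 4) (nat_lit 80) (nat_lit 81) = true := by decide +kernel
def p15_17_1_81 : pfC (piC [(nat_lit 40173837), (nat_lit 26036903), (nat_lit 19449108), (nat_lit 13056366)] (nat_lit 10244330)) p15_17_1 (nat_lit 4) (nat_lit 81) (nat_lit 82) = true := by decide +kernel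
def p15_17_1_82 : pfC (piC [(nat_lit 40173837), (nat_lit 26036903), (nat_lit 19449108), (nat_lit 13056366)] (nat_lit 10244330)) p15_17_1 (nat_lit 4) (nat_lit 82) (nat_lit 83) = true := by decide +kernel
def p15_17_1_83 : pfC (piC [(nat_lit 40173837), (nat_lit 26036903), (nat_lit 19449108), (nat_lit 13056366)] (nat_lit 10244330)) p15_17_1 (nat_lit 4) (nat_lit 83) (nat_lit 84) = true := by decide +kernel
def p15_17_1_84 : pfC (piC [(nat_lit 40173837), (nat_lit 26036903), (nat_lit 19449108), (nat_lit 13056366)] (nat_lit 10244330)) p15_17_1 (nat_lit 4) (nat_lit 84) (nat_lit 85) = true := by decide +kernel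
def p15_17_1_85 : pfC (piC [(nat_lit 40173837), (nat_lit 26036903), (nat_lit 19449108), (nat_lit 13056366)] (nat_lit 10244330)) p15_17_1 (nat_lit 4) (nat_lit 85) (nat_lit 86) = true := by decide +kernel
def p15_17_1_86 : pfC (piC [(nat_lit 40173837), (nat_lit 26036903), (nat_lit 19449108), (nat_lit 13056366)] (nat_lit 10244330)) p15_17_1 (nat_lit 4) (nat_lit 86) (nat_lit 87) = true := by decide +kernel
def p15_17_1_87 : pfC (piC [(nat_lit 40173837), (nat_lit 26036903), (nat_lit 19449108), (nat_lit 13056366)] (nat_lit 10244330)) p15_17_1 (nat_lit 4) (nat_lit 87) (nat_lit 88) = true := by decide +kernel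
def p15_17_1_88 : pfC (piC [(nat_lit 40173837), (nat_lit 26036903), (nat_lit 19449108), (nat_lit 13056366)] (nat_lit 10244330)) p15_17_1 (nat_lit 4) (nat_lit 88) (nat_lit 89) = true := by decide +kernel
def p15_17_1_89 : pfC (piC [(nat_lit 40173837), (nat_lit 26036903), (nat_lit 19449108), (nat_lit 13056366)] (nat_lit 10244330)) p15_17_1 (nat_lit 4) (nat_lit 89) (nat_lit 90) = true := by decide +kernel
def p15_17_1_90 : pfC (piC [(nat_lit 40173837), (nat_lit 26036903), (nat_lit 19449108), (nat_lit 13056366)] (nat_lit 10244330)) p15_17_1 (nat_lit 4) (nat_lit 90) (nat_lit 91) = true := by decide +kernel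
def p15_17_1_91 : pfC (piC [(nat_lit 40173837), (nat_lit 26036903), (nat_lit 19449108), (nat_lit 13056366)] (nat_lit 10244330)) p15_17_1 (nat_lit 4) (nat_lit 91) (nat_lit 92) = true := by decide +kernel
def p15_17_1_92 : pfC (piC [(nat_lit 40173837), (nat_lit 26036903), (nat_lit 19449108), (nat_lit 13056366)] (nat_lit 10244330)) p15_17_1 (nat_lit 4) (nat_lit 92) (nat_lit 93) = true := by decide +kernel
def p15_17_1_93 : pfC (piC [(nat_lit 40173837), (nat_lit 26036903), (nat_lit 19449108), (nat_lit 13056366)] (nat_lit 10244330)) p15_17_1 (nat_lit 4) (nat_lit 93) (nat_lit 94) = true := by decide +kernel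
def p15_17_1_94 : pfC (piC [(nat_lit 40173837), (nat_lit 26036903), (nat_lit 19449108), (nat_lit 13056366)] (nat_lit 10244330)) p15_17_1 (nat_lit 4) (nat_lit 94) (nat_lit 95) = true := by decide +kernel
def p15_17_1_95 : pfC (piC [(nat_lit 40173837), (nat_lit 26036903), (nat_lit 19449108), (nat_lit 13056366)] (nat_lit 10244330)) p15_17_1 (nat_lit 4) (nat_lit 95) (nat_lit 96) = true := by decide +kernel
def p15_17_1_96 : pfC (piC [(nat_lit 40173837), (nat_lit 26036903), (nat_lit 19449108), (nat_lit 13056366)] (nat_lit 10244330)) p15_17_1 (nat_lit 4) (nat_lit 96) (nat_lit 97) = true := by decide +kernel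
def p15_17_1_97 : pfC (piC [(nat_lit 40173837), (nat_lit 26036903), (nat_lit 19449108), (nat_lit 13056366)] (nat_lit 10244330)) p15_17_1 (nat_lit 4) (nat_lit 97) (nat_lit 98) = true := by decide +kernel
def p15_17_1_98 : pfC (piC [(nat_lit 40173837), (nat_lit 26036903), (nat_lit 19449108), (nat_lit 13056366)] (nat_lit 10244330)) p15_17_1 (nat_lit 4) (nat_lit 98) (nat_lit 99) = true := by decide +kernel
def p15_17_1_99 : pfC (piC [(nat_lit 40173837), (nat_lit 26036903), (nat_lit 19449108), (nat_lit 13056366)] (nat_lit 10244330)) p15_17_1 (nat_lit 4) (nat_lit 99) (nat_lit 100) = true := by decide +kernel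
def p15_17_1_100 : pfC (piC [(nat_lit 40173837), (nat_lit 26036903), (nat_lit 19449108), (nat_lit 13056366)] (nat_lit 10244330)) p15_17_1 (nat_lit 4) (nat_lit 100) (nat_lit 101) = true := by decide +kernel
def p15_17_1_101 : pfC (piC [(nat_lit 40173837), (nat_lit 26036903), (nat_lit 19449108), (nat_lit 13056366)] (nat_lit 10244330)) p15_17_1 (nat_lit 4) (nat_lit 101) (nat_lit 102) = true := by decide +kernel
def p15_17_1_102 : pfC (piC [(nat_lit 40173837), (nat_lit 26036903), (nat_lit 19449108), (nat_lit 13056366)] (nat_lit 10244330)) p15_17_1 (nat_lit 4) (nat_lit 102) (nat_lit 103) = true := by decide +kernel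
def p15_17_1_103 : pfC (piC [(nat_lit 40173837), (nat_lit 26036903), (nat_lit 19449108), (nat_lit 13056366)] (nat_lit 10244330)) p15_17_1 (nat_lit 4) (nat_lit 103) (nat_lit 104) = true := by decide +kernel
def p15_17_1_104 : pfC (piC [(nat_lit 40173837), (nat_lit 26036903), (nat_lit 19449108), (nat_lit 13056366)] (nat_lit 10244330)) p15_17_1 (nat_lit 4) (nat_lit 104) (nat_lit 105) = true := by decide +kernel
def p15_17_1_105 : pfC (piC [(nat_lit 40173837), (nat_lit 26036903), (nat_lit 19449108), (nat_lit 13056366)] (nat_lit 10244330)) p15_17_1 (nat_lit 4) (nat_lit 105) (nat_lit 106) = true := by decide +kernel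
def p15_17_1_106 : pfC (piC [(nat_lit 40173837), (nat_lit 26036903), (nat_lit 19449108), (nat_lit 13056366)] (nat_lit 10244330)) p15_17_1 (nat_lit 4) (nat_lit 106) (nat_lit 107) = true := by decide +kernel
def p15_17_1_107 : pfC (piC [(nat_lit 40173837), (nat_lit 26036903), (nat_lit 19449108), (nat_lit 13056366)] (nat_lit 10244330)) p15_17_1 (nat_lit 4) (nat_lit 107) (nat_lit 108) = true := by decide +kernel
theorem p15_17_1_T : PfS (PiF n15_17.reverse (nat_lit 10244330)) p15_17_1 (nat_lit 4) [] 0 :=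
  pftab_of (los := [(nat_lit 40173837), (nat_lit 26036903), (nat_lit 19449108), (nat_lit 13056366)]) (by decide +kernel) (hi := (nat_lit 108)) (PfP.trans (PfP.trans (PfP.trans (PfP.trans (PfP.trans (PfP.trans (PfP.trans (PfP.trans (PfP.trans (PfP.trans (PfP.trans (PfP.trans (PfP.trans (PfP.trans (PfP.trans (PfP.trans (PfP.trans (PfP.trans (PfP.trans (PfP.trans (PfP.trans (PfP.trans (PfP.trans (PfP.trans (PfP.trans (PfP.trans (PfP.trans (PfP.trans (PfP.trans (PfP.trans (PfP.trans (PfP.trans (PfP.trans (PfP.trans (PfP.trans (PfP.trans (PfP.trans (PfP.trans (PfP.trans (PfP.trans (PfP.trans (PfP.trans (PfP.trans (PfP.trans (PfP.trans (PfP.trans (PfP.trans (PfP.trans (PfP.trans (PfP.trans (PfP.trans (PfP.trans (PfP.trans (PfP.trans (PfP.trans (PfP.trans (PfP.trans (PfP.trans (PfP.trans (PfP.trans (PfP.trans (PfP.trans (PfP.trans (PfP.trans (PfP.trans (PfP.trans (PfP.trans (PfP.trans (PfP.trans (PfP.trans (PfP.trans (PfP.trans (PfP.trans (PfP.trans (PfP.trans (PfP.trans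 (PfP.trans (PfP.trans (PfP.trans (PfP.trans (PfP.trans (PfP.trans (PfP.trans (PfP.trans (PfP.trans (PfP.trans (PfP.trans (PfP.trans (PfP.trans (PfP.trans (PfP.trans (PfP.trans (PfP.trans (PfP.trans (PfP.trans (PfP.trans (PfP.trans (PfP.trans (PfP.trans (PfP.trans (PfP.trans (PfP.trans (PfP.trans (PfP.trans (PfP.trans (PfP.trans (PfP.trans (pfC_sound p15_17_1_0)
 (pfC_sound p15_17_1_1)) (pfC_sound p15_17_1_2)) (pfC_sound p15_17_1_3)) (pfC_sound p15_17_1_4)) (pfC_sound p15_17_1_5)) (pfC_sound p15_17_1_6)) (pfC_sound p15_17_1_7)) (pfC_sound p15_17_1_8)) (pfC_sound p15_17_1_9)) (pfC_sound p15_17_1_10)) (pfC_sound p15_17_1_11)) (pfC_sound p15_17_1_12)) (pfC_sound p15_17_1_13)) (pfC_sound p15_17_1_14)) (pfC_sound p15_17_1_15)) (pfC_sound p15_17_1_16)) (pfC_sound p15_17_1_17)) (pfC_sound p15_17_1_18)) (pfC_sound p15_17_1_19)) (pfC_sound p15_17_1_20)) (pfC_sound p15_17_1_21)) (pfC_sound p15_17_1_22)) (pfC_sound p15_17_1_23)) (pfC_sound p15_17_1_24)) (pfC_sound p15_17_1_25))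 (pfC_sound p15_17_1_26)) (pfC_sound p15_17_1_27)) (pfC_sound p15_17_1_28)) (pfC_sound p15_17_1_29)) (pfC_sound p15_17_1_30)) (pfC_sound p15_17_1_31)) (pfC_sound p15_17_1_32)) (pfC_sound p15_17_1_33)) (pfC_sound p15_17_1_34)) (pfC_sound p15_17_1_35)) (pfC_sound p15_17_1_36)) (pfC_sound p15_17_1_37)) (pfC_sound p15_17_1_38)) (pfC_sound p15_17_1_39)) (pfC_sound p15_17_1_40)) (pfC_sound p15_17_1_41)) (pfC_sound p15_17_1_42)) (pfC_sound p15_17_1_43)) (pfC_sound p15_17_1_44)) (pfC_sound p15_17_1_45)) (pfC_sound p15_17_1_46)) (pfC_sound p15_17_1_47)) (pfC_sound p15_17_1_48))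
 (pfC_sound p15_17_1_49)) (pfC_sound p15_17_1_50)) (pfC_sound p15_17_1_51)) (pfC_sound p15_17_1_52)) (pfC_sound p15_17_1_53)) (pfC_sound p15_17_1_54)) (pfC_sound p15_17_1_55)) (pfC_sound p15_17_1_56)) (pfC_sound p15_17_1_57)) (pfC_sound p15_17_1_58)) (pfC_sound p15_17_1_59)) (pfC_sound p15_17_1_60)) (pfC_sound p15_17_1_61)) (pfC_sound p15_17_1_62)) (pfC_sound p15_17_1_63)) (pfC_sound p15_17_1_64)) (pfC_sound p15_17_1_65)) (pfC_sound p15_17_1_66)) (pfC_sound p15_17_1_67)) (pfC_sound p15_17_1_68)) (pfC_sound p15_17_1_69)) (pfC_sound p15_17_1_70)) (pfC_sound p15_17_1_71)) (pfC_sound p15_17_1_72)) (pfC_sound p15_17_1_73)) (pfC_sound p15_17_1_74)) (pfC_sound p15_17_1_75)) (pfC_sound p15_17_1_76)) (pfC_sound p15_17_1_77)) (pfC_sound p15_17_1_78)) (pfC_sound p15_17_1_79)) (pfC_sound p15_17_1_80)) (pfC_sound p15_17_1_81)) (pfC_sound p15_17_1_82)) (pfC_sound p15_17_1_83)) (pfC_sound p15_17_1_84)) (pfC_sound p15_17_1_85)) (pfC_sound p15_17_1_86)) (pfC_sound p15_17_1_87)) (pfC_sound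 p15_17_1_88)) (pfC_sound p15_17_1_89)) (pfC_sound p15_17_1_90)) (pfC_sound p15_17_1_91)) (pfC_sound p15_17_1_92)) (pfC_sound p15_17_1_93)) (pfC_sound p15_17_1_94)) (pfC_sound p15_17_1_95)) (pfC_sound p15_17_1_96))
 (pfC_sound p15_17_1_97)) (pfC_sound p15_17_1_98)) (pfC_sound p15_17_1_99)) (pfC_sound p15_17_1_100)) (pfC_sound p15_17_1_101)) (pfC_sound p15_17_1_102)) (pfC_sound p15_17_1_103)) (pfC_sound p15_17_1_104)) (pfC_sound p15_17_1_105)) (pfC_sound p15_17_1_106)) (pfC_sound p15_17_1_107)) (by decide +kernel)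

def z15_17_1 : zOK yB15_17 (nat_lit 1) (nat_lit 400) (nat_lit 600) (nat_lit 10244330) (nat_lit 6635885) = true := by decide +kernel
def g15_17_1 : gOK yB15_17.x P15_17 (nat_lit 1424) (q15_17 :: r15_17) (nat_lit 1) (nat_lit 400) (nat_lit 2) (nat_lit 600) (nat_lit 11000000) (nat_lit 17850000) (nat_lit 12712500) (nat_lit 12712500) [(nat_lit 800), (nat_lit 1040)] = true := by decide +kernel
def v15_17_1 : ivC P15_17 s15_17 w15_17 n15_17 (nat_lit 4) (nat_lit 5030) (nat_lit 1) (nat_lit 400) f152_1_400 f160_1_400 (nat_lit 2) (nat_lit 600) f152_1_600 f160_1_600 (nat_lit 10244330) (nat_lit 6635885) p15_17_1 = true := by decide +kernel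
def p15_17_2 : PF := (PF.cons (PF.cons (PF.cons (PF.cons (PF.leaf (nat_lit 2758506) (nat_lit 16142352) (nat_lit 50966460) (nat_lit 16142352) [(nat_lit 0), (nat_lit 0), (nat_lit 0), (nat_lit 0)]) (PF.cons (PF.leaf (nat_lit 2902985) (nat_lit 248846) (nat_lit 50735003) (nat_lit 16124963) [(nat_lit 248846), (nat_lit 0), (nat_lit 0), (nat_lit 0)]) (PF.cons (PF.leaf (nat_lit 3074591) (nat_lit 270453) (nat_lit 50464288) (nat_lit 16103616) [(nat_lit 270453), (nat_lit 0), (nat_lit 0), (nat_lit 0)]) (PF.cons (PF.leaf (nat_lit 3267107) (nat_lit 289584) (nat_lit 50161563) (nat_lit 16078494) [(nat_lit 289584), (nat_lit 0), (nat_lit 0), (nat_lit 0)]) (PF.cons (PF.leaf (nat_lit 3477582) (nat_lit 306795) (nat_lit 49831955) (nat_lit 16049674) [(nat_lit 306795), (nat_lit 0), (nat_lit 0), (nat_lit 0)]) (PF.cons (PF.leaf (nat_lit 3703705) (nat_lit 322441) (nat_lit 49479412) (nat_lit 16017191) [(nat_lit 322441), (nat_lit 0), (nat_lit 0), (nat_lit 0)]) (PF.cons (PF.leaf (nat_lit 3943602)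 (nat_lit 336767) (nat_lit 49107135) (nat_lit 15981069) [(nat_lit 336767), (nat_lit 0), (nat_lit 0), (nat_lit 0)]) (PF.cons (PF.leaf (nat_lit 4195701) (nat_lit 349951) (nat_lit 48717819) (nat_lit 15941336) [(nat_lit 349951), (nat_lit 0),
 (nat_lit 0), (nat_lit 0)]) (PF.cons PF.nil (PF.cons PF.nil PF.nil)))))))))) (PF.cons (PF.cons (PF.leaf (nat_lit 3266286) (nat_lit 1176645) (nat_lit 49881635) (nat_lit 16050531) [(nat_lit 0), (nat_lit 1176645), (nat_lit 0), (nat_lit 0)]) (PF.cons (PF.leaf (nat_lit 3453524) (nat_lit 299789) (nat_lit 49580937) (nat_lit 16023077) [(nat_lit 299789), (nat_lit 1205008), (nat_lit 0), (nat_lit 0)]) (PF.cons (PF.leaf (nat_lit 3661036) (nat_lit 316311) (nat_lit 49251821) (nat_lit 15991632) [(nat_lit 316311), (nat_lit 1232736), (nat_lit 0), (nat_lit 0)]) (PF.cons (PF.leaf (nat_lit 3884798) (nat_lit 331269) (nat_lit 48899245) (nat_lit 15956356) [(nat_lit 331269), (nat_lit 1259403), (nat_lit 0), (nat_lit 0)]) (PF.cons (PF.leaf (nat_lit 4122620)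 (nat_lit 344933) (nat_lit 48526928) (nat_lit 15917352) [(nat_lit 344933), (nat_lit 1284799), (nat_lit 0), (nat_lit 0)]) (PF.cons (PF.leaf (nat_lit 4372743) (nat_lit 357488) (nat_lit 48137838) (nat_lit 15874704) [(nat_lit 357488), (nat_lit 1308828), (nat_lit 0), (nat_lit 0)]) (PF.cons (PF.leaf (nat_lit 4633748) (nat_lit 369071) (nat_lit 47734442) (nat_lit 15828487) [(nat_lit 369071), (nat_lit 1331456), (nat_lit 0), (nat_lit 0)]) (PF.cons PF.nil (PF.cons
 PF.nil PF.nil))))))))) (PF.cons (PF.cons (PF.leaf (nat_lit 3848073) (nat_lit 1261521) (nat_lit 48658137) (nat_lit 15927633) [(nat_lit 0), (nat_lit 1261521), (nat_lit 0), (nat_lit 0)]) (PF.cons (PF.leaf (nat_lit 4067078) (nat_lit 338849) (nat_lit 48309279) (nat_lit 15890027) [(nat_lit 338849), (nat_lit 1285328), (nat_lit 0), (nat_lit 0)]) (PF.cons (PF.leaf (nat_lit 4301697) (nat_lit 352037) (nat_lit 47939778) (nat_lit 15848531) [(nat_lit 352037), (nat_lit 1308214), (nat_lit 0), (nat_lit 0)]) (PF.cons (PF.leaf (nat_lit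 4549077) (nat_lit 364103) (nat_lit 47553181) (nat_lit 15803312) [(nat_lit 364103), (nat_lit 1330003), (nat_lit 0), (nat_lit 0)]) (PF.cons (PF.leaf (nat_lit 4807475) (nat_lit 375203) (nat_lit 47152280) (nat_lit 15754505) [(nat_lit 375203), (nat_lit 1350607), (nat_lit 0), (nat_lit 0)]) (PF.cons PF.nil (PF.cons PF.nil PF.nil))))))) (PF.cons (PF.cons (PF.leaf (nat_lit 4482565) (nat_lit 1329438) (nat_lit 47345865) (nat_lit 15774631) [(nat_lit 0), (nat_lit 1329438), (nat_lit 0), (nat_lit 0)]) (PF.cons (PF.leaf (nat_lit 4725423) (nat_lit 369841) (nat_lit 46964232) (nat_lit 15727252) [(nat_lit 369841), (nat_lit 1349161), (nat_lit 0), (nat_lit 0)]) (PF.cons (PF.leaf (nat_lit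
 4980473) (nat_lit 380564) (nat_lit 46567767) (nat_lit 15676214) [(nat_lit 380564), (nat_lit 1367901), (nat_lit 0), (nat_lit 0)]) (PF.cons (PF.leaf (nat_lit 5245464) (nat_lit 390421) (nat_lit 46159102) (nat_lit 15621696) [(nat_lit 390421), (nat_lit 1385582), (nat_lit 0), (nat_lit 0)]) (PF.cons PF.nil PF.nil))))) (PF.cons (PF.cons (PF.leaf (nat_lit 5153963) (nat_lit 1383518) (nat_lit 45981034) (nat_lit 15593705) [(nat_lit 0), (nat_lit 1383518), (nat_lit 0), (nat_lit 0)]) (PF.cons (PF.leaf (nat_lit 5414557) (nat_lit 394734) (nat_lit 45578312) (nat_lit 15537307) [(nat_lit 394734), (nat_lit 1399614), (nat_lit 0), (nat_lit 0)]) (PF.cons (PF.leaf (nat_lit 5684675) (nat_lit 403510) (nat_lit 45165211) (nat_lit 15477577) [(nat_lit 403510), (nat_lit 1414750), (nat_lit 0), (nat_lit 0)]) (PF.cons PF.nil PF.nil)))) (PF.cons (PF.cons (PF.leaf (nat_lit 5849914) (nat_lit 1425993) (nat_lit 44590955) (nat_lit 15387892) [(nat_lit 0), (nat_lit 1425993), (nat_lit 0), (nat_lit 0)]) (PF.cons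 PF.nil PF.nil)) (PF.cons PF.nil (PF.cons PF.nil PF.nil)))))))) (PF.cons (PF.cons (PF.cons (PF.leaf (nat_lit 3794362) (nat_lit 3102632) (nat_lit 48152338) (nat_lit 15853842) [(nat_lit 0), (nat_lit 0), (nat_lit
 3102632), (nat_lit 0)]) (PF.cons (PF.leaf (nat_lit 3990297) (nat_lit 321092) (nat_lit 47842598) (nat_lit 15818807) [(nat_lit 321092), (nat_lit 0), (nat_lit 3126314), (nat_lit 0)]) (PF.cons (PF.leaf (nat_lit 4205513) (nat_lit 336545) (nat_lit 47506239) (nat_lit 15779422) [(nat_lit 336545), (nat_lit 0), (nat_lit 3150060), (nat_lit 0)]) (PF.cons (PF.leaf (nat_lit 4435910) (nat_lit 350341) (nat_lit 47148469) (nat_lit 15736026) [(nat_lit 350341), (nat_lit 0), (nat_lit 3173292), (nat_lit 0)]) (PF.cons (PF.leaf (nat_lit 4679302) (nat_lit 362803) (nat_lit 46773105) (nat_lit 15688856) [(nat_lit 362803), (nat_lit 0), (nat_lit 3195637), (nat_lit 0)]) (PF.cons (PF.leaf (nat_lit 4933858) (nat_lit 374149) (nat_lit 46383121) (nat_lit 15638098) [(nat_lit 374149), (nat_lit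 0), (nat_lit 3216845), (nat_lit 0)]) (PF.cons (PF.leaf (nat_lit 5198153) (nat_lit 384534) (nat_lit 45980938) (nat_lit 15583912) [(nat_lit 384534), (nat_lit 0), (nat_lit 3236751), (nat_lit 0)]) (PF.cons PF.nil (PF.cons PF.nil PF.nil))))))))) (PF.cons (PF.cons (PF.leaf (nat_lit 4388672) (nat_lit 1312502) (nat_lit 46914928) (nat_lit 15703301) [(nat_lit 0), (nat_lit 1312502), (nat_lit 3178079), (nat_lit 0)]) (PF.cons (PF.leaf
 (nat_lit 4613387) (nat_lit 356011) (nat_lit 46563646) (nat_lit 15658229) [(nat_lit 356011), (nat_lit 1332553), (nat_lit 3198371), (nat_lit 0)]) (PF.cons (PF.leaf (nat_lit 4852684) (nat_lit 368148) (nat_lit 46193610) (nat_lit 15609203) [(nat_lit 368148), (nat_lit 1351715), (nat_lit 3217987), (nat_lit 0)]) (PF.cons (PF.leaf (nat_lit 5103735) (nat_lit 379137) (nat_lit 45808401) (nat_lit 15556505) [(nat_lit 379137), (nat_lit 1369854), (nat_lit 3236640), (nat_lit 0)]) (PF.cons (PF.leaf (nat_lit 5364802) (nat_lit 389154) (nat_lit 45410777) (nat_lit 15500355)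 [(nat_lit 389154), (nat_lit 1386913), (nat_lit 3254145), (nat_lit 0)]) (PF.cons PF.nil (PF.cons PF.nil PF.nil))))))) (PF.cons (PF.cons (PF.leaf (nat_lit 5027757) (nat_lit 1367938) (nat_lit 45610200) (nat_lit 15525204) [(nat_lit 0), (nat_lit 1367938), (nat_lit 3237531), (nat_lit 0)]) (PF.cons (PF.leaf (nat_lit 5273612) (nat_lit 383377) (nat_lit 45231892) (nat_lit 15470990) [(nat_lit 383377), (nat_lit 1384382), (nat_lit 3253787), (nat_lit 0)]) (PF.cons (PF.leaf (nat_lit 5530715) (nat_lit 393121) (nat_lit 44840464) (nat_lit 15413239) [(nat_lit 393121), (nat_lit 1399908), (nat_lit 3269049), (nat_lit 0)]) (PF.cons (PF.leaf (nat_lit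
 5796880) (nat_lit 402002) (nat_lit 44438497) (nat_lit 15352202) [(nat_lit 402002), (nat_lit 1414463), (nat_lit 3283176), (nat_lit 0)]) (PF.cons PF.nil PF.nil))))) (PF.cons (PF.cons (PF.leaf (nat_lit 5697179) (nat_lit 1411548) (nat_lit 44269893) (nat_lit 15322630) [(nat_lit 0), (nat_lit 1411548), (nat_lit 3281642), (nat_lit 0)]) (PF.cons (PF.leaf (nat_lit 5958464) (nat_lit 405107) (nat_lit 43875210) (nat_lit 15260325) [(nat_lit 405107), (nat_lit 1424790), (nat_lit 3293796), (nat_lit 0)]) (PF.cons PF.nil (PF.cons PF.nil PF.nil)))) (PF.cons (PF.cons (PF.leaf (nat_lit 6385861) (nat_lit 1445178) (nat_lit 42917372) (nat_lit 15099019) [(nat_lit 0), (nat_lit 1445178), (nat_lit 3311707), (nat_lit 0)]) (PF.cons PF.nil PF.nil)) (PF.cons PF.nil PF.nil)))))) (PF.cons (PF.cons (PF.cons (PF.leaf (nat_lit 4919323) (nat_lit 3223140) (nat_lit 45210921) (nat_lit 15451609) [(nat_lit 0), (nat_lit 0), (nat_lit 3223140), (nat_lit 0)]) (PF.cons (PF.leaf (nat_lit 5147777) (nat_lit 369629)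 (nat_lit 44861840) (nat_lit 15400370) [(nat_lit 369629), (nat_lit 0), (nat_lit 3238486), (nat_lit 0)]) (PF.cons (PF.leaf (nat_lit 5389929) (nat_lit 380832) (nat_lit 44495700) (nat_lit 15345203) [(nat_lit 380832),
 (nat_lit 0), (nat_lit 3253122), (nat_lit 0)]) (PF.cons (PF.leaf (nat_lit 5642902) (nat_lit 390872) (nat_lit 44116049) (nat_lit 15286480) [(nat_lit 390872), (nat_lit 0), (nat_lit 3266832), (nat_lit 0)]) (PF.cons (PF.leaf (nat_lit 5905039) (nat_lit 399945) (nat_lit 43725582) (nat_lit 15224491) [(nat_lit 399945), (nat_lit 0), (nat_lit 3279479), (nat_lit 0)]) PF.nil))))) (PF.cons (PF.cons (PF.leaf (nat_lit 5558702) (nat_lit 1395946) (nat_lit 43927878) (nat_lit 15253439) [(nat_lit 0), (nat_lit 1395946), (nat_lit 3265774), (nat_lit 0)]) (PF.cons (PF.leaf (nat_lit 5806034) (nat_lit 393882) (nat_lit 43556456) (nat_lit 15193790) [(nat_lit 393882), (nat_lit 1409639), (nat_lit 3277521), (nat_lit 0)]) (PF.cons (PF.leaf (nat_lit 6063759) (nat_lit 402765) (nat_lit 43173387)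 (nat_lit 15130768) [(nat_lit 402765), (nat_lit 1422469), (nat_lit 3288328), (nat_lit 0)]) (PF.cons PF.nil PF.nil)))) (PF.cons (PF.cons (PF.leaf (nat_lit 6223010) (nat_lit 1430872) (nat_lit 42622308) (nat_lit 15034200) [(nat_lit 0), (nat_lit 1430872), (nat_lit 3295279), (nat_lit 0)]) (PF.cons (PF.leaf (nat_lit 6483793) (nat_lit 412895) (nat_lit 42238257) (nat_lit 14967380) [(nat_lit 412895), (nat_lit 1441709), (nat_lit
 3303429), (nat_lit 0)]) PF.nil)) (PF.cons PF.nil (PF.cons PF.nil PF.nil))))) (PF.cons (PF.cons (PF.cons (PF.leaf (nat_lit 6074158) (nat_lit 3278608) (nat_lit 42307510) (nat_lit 14965478) [(nat_lit 0), (nat_lit 0), (nat_lit 3278608), (nat_lit 0)]) (PF.cons (PF.leaf (nat_lit 6321683) (nat_lit 401877) (nat_lit 41945467) (nat_lit 14901652) [(nat_lit 401877), (nat_lit 0), (nat_lit 3286605), (nat_lit 0)]) (PF.cons (PF.leaf (nat_lit 6578892) (nat_lit 409993) (nat_lit 41573043) (nat_lit 14834638) [(nat_lit 409993), (nat_lit 0), (nat_lit 3293714), (nat_lit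 0)]) (PF.cons PF.nil PF.nil)))) (PF.cons (PF.cons (PF.leaf (nat_lit 6730958) (nat_lit 1443099) (nat_lit 41043481) (nat_lit 14733928) [(nat_lit 0), (nat_lit 1443099), (nat_lit 3296101), (nat_lit 0)]) (PF.cons (PF.leaf (nat_lit 6990310) (nat_lit 418538) (nat_lit 40671785) (nat_lit 14663804) [(nat_lit 418538), (nat_lit 1451897), (nat_lit 3300928), (nat_lit 0)]) PF.nil)) (PF.cons PF.nil PF.nil))) (PF.cons (PF.cons (PF.cons (PF.leaf (nat_lit 7220948) (nat_lit 3286636) (nat_lit 39535882) (nat_lit 14426384) [(nat_lit 0), (nat_lit 0), (nat_lit 3286636), (nat_lit 0)]) (PF.cons PF.nil PF.nil)) (PF.cons PF.nil PF.nil)) (PF.cons PF.nil PF.nil))))))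
 (PF.cons (PF.cons (PF.cons (PF.cons (PF.leaf (nat_lit 4739317) (nat_lit 8699515) (nat_lit 43364027) (nat_lit 15045270) [(nat_lit 0), (nat_lit 0), (nat_lit 0), (nat_lit 8699515)]) (PF.cons (PF.leaf (nat_lit 4933692) (nat_lit 330680) (nat_lit 43084795) (nat_lit 15001485) [(nat_lit 330680), (nat_lit 0), (nat_lit 0), (nat_lit 8691850)]) (PF.cons (PF.leaf (nat_lit 5146047) (nat_lit 345177) (nat_lit 42782798) (nat_lit 14953161) [(nat_lit 345177), (nat_lit 0), (nat_lit 0), (nat_lit 8682498)]) (PF.cons (PF.leaf (nat_lit 5372246) (nat_lit 357884) (nat_lit 42462855) (nat_lit 14900881) [(nat_lit 357884), (nat_lit 0), (nat_lit 0), (nat_lit 8671423)]) (PF.cons (PF.leaf (nat_lit 5610061) (nat_lit 369170) (nat_lit 42128461) (nat_lit 14845066) [(nat_lit 369170), (nat_lit 0), (nat_lit 0), (nat_lit 8658603)]) (PF.cons (PF.leaf (nat_lit 5857692) (nat_lit 379287) (nat_lit 41782310) (nat_lit 14786039) [(nat_lit 379287), (nat_lit 0), (nat_lit 0), (nat_lit 8644025)]) (PF.cons (PF.leaf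 (nat_lit 6113739) (nat_lit 388414) (nat_lit 41426560) (nat_lit 14724068) [(nat_lit 388414), (nat_lit 0), (nat_lit 0), (nat_lit 8627695)]) (PF.cons PF.nil (PF.cons PF.nil PF.nil))))))))) (PF.cons (PF.cons (PF.leaf (nat_lit
 5315075) (nat_lit 1325984) (nat_lit 42259636) (nat_lit 14863974) [(nat_lit 0), (nat_lit 1325984), (nat_lit 0), (nat_lit 8659216)]) (PF.cons (PF.leaf (nat_lit 5534818) (nat_lit 361699) (nat_lit 41947163) (nat_lit 14811185) [(nat_lit 361699), (nat_lit 1342139), (nat_lit 0), (nat_lit 8646625)]) (PF.cons (PF.leaf (nat_lit 5767834) (nat_lit 372734) (nat_lit 41619100) (nat_lit 14754657) [(nat_lit 372734), (nat_lit 1357328), (nat_lit 0), (nat_lit 8632256)]) (PF.cons (PF.leaf (nat_lit 6011290) (nat_lit 382569) (nat_lit 41278670) (nat_lit 14694816) [(nat_lit 382569), (nat_lit 1371482), (nat_lit 0), (nat_lit 8616133)]) (PF.cons (PF.leaf (nat_lit 6263551) (nat_lit 391405) (nat_lit 40928332) (nat_lit 14631989) [(nat_lit 391405), (nat_lit 1384588), (nat_lit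 0), (nat_lit 8598279)]) (PF.cons (PF.leaf (nat_lit 6523311) (nat_lit 399388) (nat_lit 40570040) (nat_lit 14566443) [(nat_lit 399388), (nat_lit 1396659), (nat_lit 0), (nat_lit 8578725)]) (PF.cons PF.nil PF.nil))))))) (PF.cons (PF.cons (PF.leaf (nat_lit 5927139) (nat_lit 1367977) (nat_lit 41108209) (nat_lit 14661352) [(nat_lit 0), (nat_lit 1367977), (nat_lit 0), (nat_lit 8603297)]) (PF.cons (PF.leaf (nat_lit 6164955) (nat_lit 385214) (nat_lit
 40775166) (nat_lit 14601091) [(nat_lit 385214), (nat_lit 1380752), (nat_lit 0), (nat_lit 8585835)]) (PF.cons (PF.leaf (nat_lit 6412818) (nat_lit 393850) (nat_lit 40431486) (nat_lit 14537729) [(nat_lit 393850), (nat_lit 1392626), (nat_lit 0), (nat_lit 8566642)]) (PF.cons (PF.leaf (nat_lit 6668593) (nat_lit 401613) (nat_lit 40079434) (nat_lit 14471599) [(nat_lit 401613), (nat_lit 1403584), (nat_lit 0), (nat_lit 8545770)]) (PF.cons PF.nil PF.nil))))) (PF.cons (PF.cons (PF.leaf (nat_lit 6562684) (nat_lit 1399636) (nat_lit 39935745)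 (nat_lit 14441301) [(nat_lit 0), (nat_lit 1399636), (nat_lit 0), (nat_lit 8532855)]) (PF.cons (PF.leaf (nat_lit 6813336) (nat_lit 403365) (nat_lit 39591031) (nat_lit 14374892) [(nat_lit 403365), (nat_lit 1409559), (nat_lit 0), (nat_lit 8510845)]) (PF.cons (PF.leaf (nat_lit 7071659) (nat_lit 410208) (nat_lit 39239243) (nat_lit 14305923) [(nat_lit 410208), (nat_lit 1418667), (nat_lit 0), (nat_lit 8487225)]) (PF.cons PF.nil PF.nil)))) (PF.cons (PF.cons (PF.leaf (nat_lit 7212289) (nat_lit 1422887) (nat_lit 38760514) (nat_lit 14207303) [(nat_lit 0), (nat_lit 1422887), (nat_lit 0), (nat_lit 8449443)]) (PF.cons PF.nil PF.nil)) (PF.cons PF.nil PF.nil)))))) (PF.cons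
 (PF.cons (PF.cons (PF.leaf (nat_lit 5804410) (nat_lit 3179522) (nat_lit 40774403) (nat_lit 14587445) [(nat_lit 0), (nat_lit 0), (nat_lit 3179522), (nat_lit 8567441)]) (PF.cons (PF.leaf (nat_lit 6026041) (nat_lit 371235) (nat_lit 40467002) (nat_lit 14531070) [(nat_lit 371235), (nat_lit 0), (nat_lit 3188677), (nat_lit 8550827)]) (PF.cons (PF.leaf (nat_lit 6260196) (nat_lit 381423) (nat_lit 40145386) (nat_lit 14471069) [(nat_lit 381423), (nat_lit 0), (nat_lit 3197092), (nat_lit 8532417)]) (PF.cons (PF.leaf (nat_lit 6504043) (nat_lit 390421) (nat_lit 39812699) (nat_lit 14407917) [(nat_lit 390421), (nat_lit 0), (nat_lit 3204638), (nat_lit 8512293)]) (PF.cons (PF.leaf (nat_lit 6755975) (nat_lit 398442) (nat_lit 39471306) (nat_lit 14341975) [(nat_lit 398442), (nat_lit 0), (nat_lit 3211238), (nat_lit 8490521)]) (PF.cons PF.nil (PF.cons PF.nil PF.nil))))))) (PF.cons (PF.cons (PF.leaf (nat_lit 6413365) (nat_lit 1383435) (nat_lit 39651839) (nat_lit 14374093) [(nat_lit 0),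 (nat_lit 1383435), (nat_lit 3201282), (nat_lit 8498162)]) (PF.cons (PF.leaf (nat_lit 6651261) (nat_lit 392119) (nat_lit 39327261) (nat_lit 14310935) [(nat_lit 392119), (nat_lit 1394035), (nat_lit 3207407), (nat_lit
 8477053)]) (PF.cons (PF.leaf (nat_lit 6898538) (nat_lit 400013) (nat_lit 38993166) (nat_lit 14244854) [(nat_lit 400013), (nat_lit 1403799), (nat_lit 3212683), (nat_lit 8454280)]) (PF.cons (PF.leaf (nat_lit 7153090) (nat_lit 407053) (nat_lit 38651728) (nat_lit 14176206) [(nat_lit 407053), (nat_lit 1412726), (nat_lit 3217059), (nat_lit 8429932)]) (PF.cons PF.nil PF.nil))))) (PF.cons (PF.cons (PF.leaf (nat_lit 7041845) (nat_lit 1408456) (nat_lit 38516869) (nat_lit 14145998) [(nat_lit 0), (nat_lit 1408456), (nat_lit 3212775), (nat_lit 8416256)]) (PF.cons (PF.leaf (nat_lit 7291080) (nat_lit 408055) (nat_lit 38183189) (nat_lit 14077429) [(nat_lit 408055), (nat_lit 1416523), (nat_lit 3216006), (nat_lit 8391085)]) (PF.cons PF.nil (PF.cons PF.nil PF.nil)))) (PF.cons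 (PF.cons (PF.leaf (nat_lit 7681293) (nat_lit 1426184) (nat_lit 37385228) (nat_lit 13906528) [(nat_lit 0), (nat_lit 1426184), (nat_lit 3215160), (nat_lit 8323341)]) (PF.cons PF.nil PF.nil)) (PF.cons PF.nil PF.nil))))) (PF.cons (PF.cons (PF.cons (PF.leaf (nat_lit 6884922) (nat_lit 3195181) (nat_lit 38255997) (nat_lit 14080881) [(nat_lit 0), (nat_lit 0), (nat_lit 3195181), (nat_lit 8381570)]) (PF.cons (PF.leaf (nat_lit 7122070)
 (nat_lit 397162) (nat_lit 37941204) (nat_lit 14015672) [(nat_lit 397162), (nat_lit 0), (nat_lit 3198625), (nat_lit 8357522)]) (PF.cons (PF.leaf (nat_lit 7368018) (nat_lit 404400) (nat_lit 37617859) (nat_lit 13947717) [(nat_lit 404400), (nat_lit 0), (nat_lit 3201274), (nat_lit 8331887)]) (PF.cons PF.nil PF.nil)))) (PF.cons (PF.cons (PF.leaf (nat_lit 7504891) (nat_lit 1412313) (nat_lit 37161697) (nat_lit 13847558) [(nat_lit 0), (nat_lit 1412313), (nat_lit 3198299), (nat_lit 8290644)]) (PF.cons (PF.leaf (nat_lit 7752134) (nat_lit 411183) (nat_lit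 36839845) (nat_lit 13777607) [(nat_lit 411183), (nat_lit 1418807), (nat_lit 3199192), (nat_lit 8262984)]) PF.nil)) (PF.cons PF.nil PF.nil))) (PF.cons (PF.cons (PF.cons (PF.leaf (nat_lit 7952076) (nat_lit 3177186) (nat_lit 35870072) (nat_lit 13548663) [(nat_lit 0), (nat_lit 0), (nat_lit 3177186), (nat_lit 8158519)]) (PF.cons PF.nil PF.nil)) (PF.cons PF.nil PF.nil)) (PF.cons PF.nil PF.nil))))) (PF.cons (PF.cons (PF.cons (PF.cons (PF.leaf (nat_lit 6588933) (nat_lit 8185965) (nat_lit 36999729) (nat_lit 13737152) [(nat_lit 0), (nat_lit 0), (nat_lit 0), (nat_lit 8185965)]) (PF.cons (PF.leaf (nat_lit 6802845) (nat_lit 367828) (nat_lit 36730526)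
 (nat_lit 13680086) [(nat_lit 367828), (nat_lit 0), (nat_lit 0), (nat_lit 8165185)]) (PF.cons (PF.leaf (nat_lit 7028390) (nat_lit 377170) (nat_lit 36449328) (nat_lit 13619723) [(nat_lit 377170), (nat_lit 0), (nat_lit 0), (nat_lit 8142710)]) (PF.cons (PF.leaf (nat_lit 7262703) (nat_lit 385324) (nat_lit 36158887) (nat_lit 13556573) [(nat_lit 385324), (nat_lit 0), (nat_lit 0), (nat_lit 8118689)]) (PF.cons (PF.leaf (nat_lit 7504245) (nat_lit 392512) (nat_lit 35861264) (nat_lit 13491022) [(nat_lit 392512), (nat_lit 0), (nat_lit 0), (nat_lit 8093237)]) PF.nil))))) (PF.cons (PF.cons (PF.leaf (nat_lit 7168247) (nat_lit 1356224) (nat_lit 36021534) (nat_lit 13523925) [(nat_lit 0), (nat_lit 1356224), (nat_lit 0), (nat_lit 8103563)]) (PF.cons (PF.leaf (nat_lit 7396542) (nat_lit 386123) (nat_lit 35738609) (nat_lit 13461286) [(nat_lit 386123), (nat_lit 1364620), (nat_lit 0), (nat_lit 8079086)]) (PF.cons (PF.leaf (nat_lit 7633408) (nat_lit 393236) (nat_lit 35447739) (nat_lit 13396097)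 [(nat_lit 393236), (nat_lit 1372221), (nat_lit 0), (nat_lit 8053141)]) (PF.cons PF.nil PF.nil)))) (PF.cons (PF.cons (PF.leaf (nat_lit 7763459) (nat_lit 1374430) (nat_lit 35036156) (nat_lit 13300102) [(nat_lit 0),
 (nat_lit 1374430), (nat_lit 0), (nat_lit 8011846)]) (PF.cons (PF.leaf (nat_lit 8001561) (nat_lit 399776) (nat_lit 34746253) (nat_lit 13233251) [(nat_lit 399776), (nat_lit 1380568), (nat_lit 0), (nat_lit 7984197)]) PF.nil)) (PF.cons PF.nil (PF.cons PF.nil PF.nil))))) (PF.cons (PF.cons (PF.cons (PF.leaf (nat_lit 7602560) (nat_lit 3092194) (nat_lit 34819075) (nat_lit 13240439) [(nat_lit 0), (nat_lit 0), (nat_lit 3092194), (nat_lit 7978551)]) (PF.cons (PF.leaf (nat_lit 7829578) (nat_lit 389211) (nat_lit 34545305) (nat_lit 13176975) [(nat_lit 389211), (nat_lit 0), (nat_lit 3092765), (nat_lit 7952277)]) (PF.cons (PF.leaf (nat_lit 8064709) (nat_lit 395754) (nat_lit 34264340) (nat_lit 13111119) [(nat_lit 395754), (nat_lit 0), (nat_lit 3092622), (nat_lit 7924611)])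 (PF.cons PF.nil PF.nil)))) (PF.cons (PF.cons (PF.leaf (nat_lit 8189075) (nat_lit 1373101) (nat_lit 33870586) (nat_lit 13015348) [(nat_lit 0), (nat_lit 1373101), (nat_lit 3086521), (nat_lit 7881627)]) (PF.cons PF.nil PF.nil)) (PF.cons PF.nil PF.nil))) (PF.cons (PF.cons (PF.cons (PF.leaf (nat_lit 8600756) (nat_lit 3059155) (nat_lit 32759773) (nat_lit 12733590) [(nat_lit 0), (nat_lit 0), (nat_lit 3059155), (nat_lit 7748569)])
 (PF.cons PF.nil PF.nil)) (PF.cons PF.nil PF.nil)) PF.nil))) (PF.cons (PF.cons (PF.cons (PF.cons (PF.leaf (nat_lit 8246125) (nat_lit 7586291) (nat_lit 31888659) (nat_lit 12461277) [(nat_lit 0), (nat_lit 0), (nat_lit 0), (nat_lit 7586291)]) (PF.cons (PF.leaf (nat_lit 8463548) (nat_lit 379561) (nat_lit 31649735) (nat_lit 12401027) [(nat_lit 379561), (nat_lit 0), (nat_lit 0), (nat_lit 7559496)]) (PF.cons PF.nil PF.nil))) (PF.cons (PF.cons (PF.leaf (nat_lit 8802514) (nat_lit 1330141) (nat_lit 31063178) (nat_lit 12248920) [(nat_lit 0), (nat_lit 1330141),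 (nat_lit 0), (nat_lit 7488857)]) PF.nil) PF.nil)) (PF.cons PF.nil PF.nil)) (PF.cons PF.nil (PF.cons PF.nil (PF.cons PF.nil (PF.cons PF.nil PF.nil))))))))

def p15_17_2_0 : pfC (piC [(nat_lit 40173837), (nat_lit 26036903), (nat_lit 19449108), (nat_lit 13056366)] (nat_lit 6635885)) p15_17_2 (nat_lit 4) (nat_lit 0) (nat_lit 1) = true := by decide +kernel
def p15_17_2_1 : pfC (piC [(nat_lit 40173837), (nat_lit 26036903), (nat_lit 19449108), (nat_lit 13056366)] (nat_lit 6635885)) p15_17_2 (nat_lit 4) (nat_lit 1) (nat_lit 2) = true := by decide +kernel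
def p15_17_2_2 : pfC (piC [(nat_lit 40173837), (nat_lit 26036903), (nat_lit 19449108), (nat_lit 13056366)] (nat_lit 6635885)) p15_17_2 (nat_lit 4) (nat_lit 2) (nat_lit 3) = true := by decide +kernel
def p15_17_2_3 : pfC (piC [(nat_lit 40173837), (nat_lit 26036903), (nat_lit 19449108), (nat_lit 13056366)] (nat_lit 6635885)) p15_17_2 (nat_lit 4) (nat_lit 3) (nat_lit 4) = true := by decide +kernel
def p15_17_2_4 : pfC (piC [(nat_lit 40173837), (nat_lit 26036903), (nat_lit 19449108), (nat_lit 13056366)] (nat_lit 6635885)) p15_17_2 (nat_lit 4) (nat_lit 4) (nat_lit 5) = true := by decide +kernel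
def p15_17_2_5 : pfC (piC [(nat_lit 40173837), (nat_lit 26036903), (nat_lit 19449108), (nat_lit 13056366)] (nat_lit 6635885)) p15_17_2 (nat_lit 4) (nat_lit 5) (nat_lit 6) = true := by decide +kernel
def p15_17_2_6 : pfC (piC [(nat_lit 40173837), (nat_lit 26036903), (nat_lit 19449108), (nat_lit 13056366)] (nat_lit 6635885)) p15_17_2 (nat_lit 4) (nat_lit 6) (nat_lit 7) = true := by decide +kernel
def p15_17_2_7 : pfC (piC [(nat_lit 40173837), (nat_lit 26036903), (nat_lit 19449108), (nat_lit 13056366)] (nat_lit 6635885)) p15_17_2 (nat_lit 4) (nat_lit 7) (nat_lit 8) = true := by decide +kernel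
def p15_17_2_8 : pfC (piC [(nat_lit 40173837), (nat_lit 26036903), (nat_lit 19449108), (nat_lit 13056366)] (nat_lit 6635885)) p15_17_2 (nat_lit 4) (nat_lit 8) (nat_lit 9) = true := by decide +kernel
def p15_17_2_9 : pfC (piC [(nat_lit 40173837), (nat_lit 26036903), (nat_lit 19449108), (nat_lit 13056366)] (nat_lit 6635885)) p15_17_2 (nat_lit 4) (nat_lit 9) (nat_lit 10) = true := by decide +kernel
def p15_17_2_10 : pfC (piC [(nat_lit 40173837), (nat_lit 26036903), (nat_lit 19449108), (nat_lit 13056366)] (nat_lit 6635885)) p15_17_2 (nat_lit 4) (nat_lit 10) (nat_lit 11) = true := by decide +kernel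
def p15_17_2_11 : pfC (piC [(nat_lit 40173837), (nat_lit 26036903), (nat_lit 19449108), (nat_lit 13056366)] (nat_lit 6635885)) p15_17_2 (nat_lit 4) (nat_lit 11) (nat_lit 12) = true := by decide +kernel
def p15_17_2_12 : pfC (piC [(nat_lit 40173837), (nat_lit 26036903), (nat_lit 19449108), (nat_lit 13056366)] (nat_lit 6635885)) p15_17_2 (nat_lit 4) (nat_lit 12) (nat_lit 13) = true := by decide +kernel
def p15_17_2_13 : pfC (piC [(nat_lit 40173837), (nat_lit 26036903), (nat_lit 19449108), (nat_lit 13056366)] (nat_lit 6635885)) p15_17_2 (nat_lit 4) (nat_lit 13) (nat_lit 14) = true := by decide +kernel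
def p15_17_2_14 : pfC (piC [(nat_lit 40173837), (nat_lit 26036903), (nat_lit 19449108), (nat_lit 13056366)] (nat_lit 6635885)) p15_17_2 (nat_lit 4) (nat_lit 14) (nat_lit 15) = true := by decide +kernel
def p15_17_2_15 : pfC (piC [(nat_lit 40173837), (nat_lit 26036903), (nat_lit 19449108), (nat_lit 13056366)] (nat_lit 6635885)) p15_17_2 (nat_lit 4) (nat_lit 15) (nat_lit 16) = true := by decide +kernel
def p15_17_2_16 : pfC (piC [(nat_lit 40173837), (nat_lit 26036903), (nat_lit 19449108), (nat_lit 13056366)] (nat_lit 6635885)) p15_17_2 (nat_lit 4) (nat_lit 16) (nat_lit 17) = true := by decide +kernel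
def p15_17_2_17 : pfC (piC [(nat_lit 40173837), (nat_lit 26036903), (nat_lit 19449108), (nat_lit 13056366)] (nat_lit 6635885)) p15_17_2 (nat_lit 4) (nat_lit 17) (nat_lit 18) = true := by decide +kernel
def p15_17_2_18 : pfC (piC [(nat_lit 40173837), (nat_lit 26036903), (nat_lit 19449108), (nat_lit 13056366)] (nat_lit 6635885)) p15_17_2 (nat_lit 4) (nat_lit 18) (nat_lit 19) = true := by decide +kernel
def p15_17_2_19 : pfC (piC [(nat_lit 40173837), (nat_lit 26036903), (nat_lit 19449108), (nat_lit 13056366)] (nat_lit 6635885)) p15_17_2 (nat_lit 4) (nat_lit 19) (nat_lit 20) = true := by decide +kernel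
def p15_17_2_20 : pfC (piC [(nat_lit 40173837), (nat_lit 26036903), (nat_lit 19449108), (nat_lit 13056366)] (nat_lit 6635885)) p15_17_2 (nat_lit 4) (nat_lit 20) (nat_lit 21) = true := by decide +kernel
def p15_17_2_21 : pfC (piC [(nat_lit 40173837), (nat_lit 26036903), (nat_lit 19449108), (nat_lit 13056366)] (nat_lit 6635885)) p15_17_2 (nat_lit 4) (nat_lit 21) (nat_lit 22) = true := by decide +kernel
def p15_17_2_22 : pfC (piC [(nat_lit 40173837), (nat_lit 26036903), (nat_lit 19449108), (nat_lit 13056366)] (nat_lit 6635885)) p15_17_2 (nat_lit 4) (nat_lit 22) (nat_lit 23) = true := by decide +kernel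
def p15_17_2_23 : pfC (piC [(nat_lit 40173837), (nat_lit 26036903), (nat_lit 19449108), (nat_lit 13056366)] (nat_lit 6635885)) p15_17_2 (nat_lit 4) (nat_lit 23) (nat_lit 24) = true := by decide +kernel
def p15_17_2_24 : pfC (piC [(nat_lit 40173837), (nat_lit 26036903), (nat_lit 19449108), (nat_lit 13056366)] (nat_lit 6635885)) p15_17_2 (nat_lit 4) (nat_lit 24) (nat_lit 25) = true := by decide +kernel
def p15_17_2_25 : pfC (piC [(nat_lit 40173837), (nat_lit 26036903), (nat_lit 19449108), (nat_lit 13056366)] (nat_lit 6635885)) p15_17_2 (nat_lit 4) (nat_lit 25) (nat_lit 26) = true := by decide +kernel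
def p15_17_2_26 : pfC (piC [(nat_lit 40173837), (nat_lit 26036903), (nat_lit 19449108), (nat_lit 13056366)] (nat_lit 6635885)) p15_17_2 (nat_lit 4) (nat_lit 26) (nat_lit 27) = true := by decide +kernel
def p15_17_2_27 : pfC (piC [(nat_lit 40173837), (nat_lit 26036903), (nat_lit 19449108), (nat_lit 13056366)] (nat_lit 6635885)) p15_17_2 (nat_lit 4) (nat_lit 27) (nat_lit 28) = true := by decide +kernel
def p15_17_2_28 : pfC (piC [(nat_lit 40173837), (nat_lit 26036903), (nat_lit 19449108), (nat_lit 13056366)] (nat_lit 6635885)) p15_17_2 (nat_lit 4) (nat_lit 28) (nat_lit 29) = true := by decide +kernel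
def p15_17_2_29 : pfC (piC [(nat_lit 40173837), (nat_lit 26036903), (nat_lit 19449108), (nat_lit 13056366)] (nat_lit 6635885)) p15_17_2 (nat_lit 4) (nat_lit 29) (nat_lit 30) = true := by decide +kernel
def p15_17_2_30 : pfC (piC [(nat_lit 40173837), (nat_lit 26036903), (nat_lit 19449108), (nat_lit 13056366)] (nat_lit 6635885)) p15_17_2 (nat_lit 4) (nat_lit 30) (nat_lit 31) = true := by decide +kernel
def p15_17_2_31 : pfC (piC [(nat_lit 40173837), (nat_lit 26036903), (nat_lit 19449108), (nat_lit 13056366)] (nat_lit 6635885)) p15_17_2 (nat_lit 4) (nat_lit 31) (nat_lit 32) = true := by decide +kernel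
def p15_17_2_32 : pfC (piC [(nat_lit 40173837), (nat_lit 26036903), (nat_lit 19449108), (nat_lit 13056366)] (nat_lit 6635885)) p15_17_2 (nat_lit 4) (nat_lit 32) (nat_lit 33) = true := by decide +kernel
def p15_17_2_33 : pfC (piC [(nat_lit 40173837), (nat_lit 26036903), (nat_lit 19449108), (nat_lit 13056366)] (nat_lit 6635885)) p15_17_2 (nat_lit 4) (nat_lit 33) (nat_lit 34) = true := by decide +kernel
def p15_17_2_34 : pfC (piC [(nat_lit 40173837), (nat_lit 26036903), (nat_lit 19449108), (nat_lit 13056366)] (nat_lit 6635885)) p15_17_2 (nat_lit 4) (nat_lit 34) (nat_lit 35) = true := by decide +kernel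
def p15_17_2_35 : pfC (piC [(nat_lit 40173837), (nat_lit 26036903), (nat_lit 19449108), (nat_lit 13056366)] (nat_lit 6635885)) p15_17_2 (nat_lit 4) (nat_lit 35) (nat_lit 36) = true := by decide +kernel
def p15_17_2_36 : pfC (piC [(nat_lit 40173837), (nat_lit 26036903), (nat_lit 19449108), (nat_lit 13056366)] (nat_lit 6635885)) p15_17_2 (nat_lit 4) (nat_lit 36) (nat_lit 37) = true := by decide +kernel
def p15_17_2_37 : pfC (piC [(nat_lit 40173837), (nat_lit 26036903), (nat_lit 19449108), (nat_lit 13056366)] (nat_lit 6635885)) p15_17_2 (nat_lit 4) (nat_lit 37) (nat_lit 38) = true := by decide +kernel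
def p15_17_2_38 : pfC (piC [(nat_lit 40173837), (nat_lit 26036903), (nat_lit 19449108), (nat_lit 13056366)] (nat_lit 6635885)) p15_17_2 (nat_lit 4) (nat_lit 38) (nat_lit 39) = true := by decide +kernel
def p15_17_2_39 : pfC (piC [(nat_lit 40173837), (nat_lit 26036903), (nat_lit 19449108), (nat_lit 13056366)] (nat_lit 6635885)) p15_17_2 (nat_lit 4) (nat_lit 39) (nat_lit 40) = true := by decide +kernel
def p15_17_2_40 : pfC (piC [(nat_lit 40173837), (nat_lit 26036903), (nat_lit 19449108), (nat_lit 13056366)] (nat_lit 6635885)) p15_17_2 (nat_lit 4) (nat_lit 40) (nat_lit 41) = true := by decide +kernel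
def p15_17_2_41 : pfC (piC [(nat_lit 40173837), (nat_lit 26036903), (nat_lit 19449108), (nat_lit 13056366)] (nat_lit 6635885)) p15_17_2 (nat_lit 4) (nat_lit 41) (nat_lit 42) = true := by decide +kernel
def p15_17_2_42 : pfC (piC [(nat_lit 40173837), (nat_lit 26036903), (nat_lit 19449108), (nat_lit 13056366)] (nat_lit 6635885)) p15_17_2 (nat_lit 4) (nat_lit 42) (nat_lit 43) = true := by decide +kernel
def p15_17_2_43 : pfC (piC [(nat_lit 40173837), (nat_lit 26036903), (nat_lit 19449108), (nat_lit 13056366)] (nat_lit 6635885)) p15_17_2 (nat_lit 4) (nat_lit 43) (nat_lit 44) = true := by decide +kernel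
def p15_17_2_44 : pfC (piC [(nat_lit 40173837), (nat_lit 26036903), (nat_lit 19449108), (nat_lit 13056366)] (nat_lit 6635885)) p15_17_2 (nat_lit 4) (nat_lit 44) (nat_lit 45) = true := by decide +kernel
def p15_17_2_45 : pfC (piC [(nat_lit 40173837), (nat_lit 26036903), (nat_lit 19449108), (nat_lit 13056366)] (nat_lit 6635885)) p15_17_2 (nat_lit 4) (nat_lit 45) (nat_lit 46) = true := by decide +kernel
def p15_17_2_46 : pfC (piC [(nat_lit 40173837), (nat_lit 26036903), (nat_lit 19449108), (nat_lit 13056366)] (nat_lit 6635885)) p15_17_2 (nat_lit 4) (nat_lit 46) (nat_lit 47) = true := by decide +kernel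
def p15_17_2_47 : pfC (piC [(nat_lit 40173837), (nat_lit 26036903), (nat_lit 19449108), (nat_lit 13056366)] (nat_lit 6635885)) p15_17_2 (nat_lit 4) (nat_lit 47) (nat_lit 48) = true := by decide +kernel
def p15_17_2_48 : pfC (piC [(nat_lit 40173837), (nat_lit 26036903), (nat_lit 19449108), (nat_lit 13056366)] (nat_lit 6635885)) p15_17_2 (nat_lit 4) (nat_lit 48) (nat_lit 49) = true := by decide +kernel
def p15_17_2_49 : pfC (piC [(nat_lit 40173837), (nat_lit 26036903), (nat_lit 19449108), (nat_lit 13056366)] (nat_lit 6635885)) p15_17_2 (nat_lit 4) (nat_lit 49) (nat_lit 50) = true := by decide +kernel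
def p15_17_2_50 : pfC (piC [(nat_lit 40173837), (nat_lit 26036903), (nat_lit 19449108), (nat_lit 13056366)] (nat_lit 6635885)) p15_17_2 (nat_lit 4) (nat_lit 50) (nat_lit 51) = true := by decide +kernel
def p15_17_2_51 : pfC (piC [(nat_lit 40173837), (nat_lit 26036903), (nat_lit 19449108), (nat_lit 13056366)] (nat_lit 6635885)) p15_17_2 (nat_lit 4) (nat_lit 51) (nat_lit 52) = true := by decide +kernel
def p15_17_2_52 : pfC (piC [(nat_lit 40173837), (nat_lit 26036903), (nat_lit 19449108), (nat_lit 13056366)] (nat_lit 6635885)) p15_17_2 (nat_lit 4) (nat_lit 52) (nat_lit 53) = true := by decide +kernel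
def p15_17_2_53 : pfC (piC [(nat_lit 40173837), (nat_lit 26036903), (nat_lit 19449108), (nat_lit 13056366)] (nat_lit 6635885)) p15_17_2 (nat_lit 4) (nat_lit 53) (nat_lit 54) = true := by decide +kernel
def p15_17_2_54 : pfC (piC [(nat_lit 40173837), (nat_lit 26036903), (nat_lit 19449108), (nat_lit 13056366)] (nat_lit 6635885)) p15_17_2 (nat_lit 4) (nat_lit 54) (nat_lit 55) = true := by decide +kernel
def p15_17_2_55 : pfC (piC [(nat_lit 40173837), (nat_lit 26036903), (nat_lit 19449108), (nat_lit 13056366)] (nat_lit 6635885)) p15_17_2 (nat_lit 4) (nat_lit 55) (nat_lit 56) = true := by decide +kernel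
def p15_17_2_56 : pfC (piC [(nat_lit 40173837), (nat_lit 26036903), (nat_lit 19449108), (nat_lit 13056366)] (nat_lit 6635885)) p15_17_2 (nat_lit 4) (nat_lit 56) (nat_lit 57) = true := by decide +kernel
def p15_17_2_57 : pfC (piC [(nat_lit 40173837), (nat_lit 26036903), (nat_lit 19449108), (nat_lit 13056366)] (nat_lit 6635885)) p15_17_2 (nat_lit 4) (nat_lit 57) (nat_lit 58) = true := by decide +kernel
def p15_17_2_58 : pfC (piC [(nat_lit 40173837), (nat_lit 26036903), (nat_lit 19449108), (nat_lit 13056366)] (nat_lit 6635885)) p15_17_2 (nat_lit 4) (nat_lit 58) (nat_lit 59) = true := by decide +kernel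
def p15_17_2_59 : pfC (piC [(nat_lit 40173837), (nat_lit 26036903), (nat_lit 19449108), (nat_lit 13056366)] (nat_lit 6635885)) p15_17_2 (nat_lit 4) (nat_lit 59) (nat_lit 60) = true := by decide +kernel
def p15_17_2_60 : pfC (piC [(nat_lit 40173837), (nat_lit 26036903), (nat_lit 19449108), (nat_lit 13056366)] (nat_lit 6635885)) p15_17_2 (nat_lit 4) (nat_lit 60) (nat_lit 61) = true := by decide +kernel
def p15_17_2_61 : pfC (piC [(nat_lit 40173837), (nat_lit 26036903), (nat_lit 19449108), (nat_lit 13056366)] (nat_lit 6635885)) p15_17_2 (nat_lit 4) (nat_lit 61) (nat_lit 62) = true := by decide +kernel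
def p15_17_2_62 : pfC (piC [(nat_lit 40173837), (nat_lit 26036903), (nat_lit 19449108), (nat_lit 13056366)] (nat_lit 6635885)) p15_17_2 (nat_lit 4) (nat_lit 62) (nat_lit 63) = true := by decide +kernel
def p15_17_2_63 : pfC (piC [(nat_lit 40173837), (nat_lit 26036903), (nat_lit 19449108), (nat_lit 13056366)] (nat_lit 6635885)) p15_17_2 (nat_lit 4) (nat_lit 63) (nat_lit 64) = true := by decide +kernel
def p15_17_2_64 : pfC (piC [(nat_lit 40173837), (nat_lit 26036903), (nat_lit 19449108), (nat_lit 13056366)] (nat_lit 6635885)) p15_17_2 (nat_lit 4) (nat_lit 64) (nat_lit 65) = true := by decide +kernel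
def p15_17_2_65 : pfC (piC [(nat_lit 40173837), (nat_lit 26036903), (nat_lit 19449108), (nat_lit 13056366)] (nat_lit 6635885)) p15_17_2 (nat_lit 4) (nat_lit 65) (nat_lit 66) = true := by decide +kernel
def p15_17_2_66 : pfC (piC [(nat_lit 40173837), (nat_lit 26036903), (nat_lit 19449108), (nat_lit 13056366)] (nat_lit 6635885)) p15_17_2 (nat_lit 4) (nat_lit 66) (nat_lit 67) = true := by decide +kernel
def p15_17_2_67 : pfC (piC [(nat_lit 40173837), (nat_lit 26036903), (nat_lit 19449108), (nat_lit 13056366)] (nat_lit 6635885)) p15_17_2 (nat_lit 4) (nat_lit 67) (nat_lit 68) = true := by decide +kernel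
def p15_17_2_68 : pfC (piC [(nat_lit 40173837), (nat_lit 26036903), (nat_lit 19449108), (nat_lit 13056366)] (nat_lit 6635885)) p15_17_2 (nat_lit 4) (nat_lit 68) (nat_lit 69) = true := by decide +kernel
def p15_17_2_69 : pfC (piC [(nat_lit 40173837), (nat_lit 26036903), (nat_lit 19449108), (nat_lit 13056366)] (nat_lit 6635885)) p15_17_2 (nat_lit 4) (nat_lit 69) (nat_lit 70) = true := by decide +kernel
def p15_17_2_70 : pfC (piC [(nat_lit 40173837), (nat_lit 26036903), (nat_lit 19449108), (nat_lit 13056366)] (nat_lit 6635885)) p15_17_2 (nat_lit 4) (nat_lit 70) (nat_lit 71) = true := by decide +kernel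
def p15_17_2_71 : pfC (piC [(nat_lit 40173837), (nat_lit 26036903), (nat_lit 19449108), (nat_lit 13056366)] (nat_lit 6635885)) p15_17_2 (nat_lit 4) (nat_lit 71) (nat_lit 72) = true := by decide +kernel
def p15_17_2_72 : pfC (piC [(nat_lit 40173837), (nat_lit 26036903), (nat_lit 19449108), (nat_lit 13056366)] (nat_lit 6635885)) p15_17_2 (nat_lit 4) (nat_lit 72) (nat_lit 73) = true := by decide +kernel
def p15_17_2_73 : pfC (piC [(nat_lit 40173837), (nat_lit 26036903), (nat_lit 19449108), (nat_lit 13056366)] (nat_lit 6635885)) p15_17_2 (nat_lit 4) (nat_lit 73) (nat_lit 74) = true := by decide +kernel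
def p15_17_2_74 : pfC (piC [(nat_lit 40173837), (nat_lit 26036903), (nat_lit 19449108), (nat_lit 13056366)] (nat_lit 6635885)) p15_17_2 (nat_lit 4) (nat_lit 74) (nat_lit 75) = true := by decide +kernel
def p15_17_2_75 : pfC (piC [(nat_lit 40173837), (nat_lit 26036903), (nat_lit 19449108), (nat_lit 13056366)] (nat_lit 6635885)) p15_17_2 (nat_lit 4) (nat_lit 75) (nat_lit 76) = true := by decide +kernel
def p15_17_2_76 : pfC (piC [(nat_lit 40173837), (nat_lit 26036903), (nat_lit 19449108), (nat_lit 13056366)] (nat_lit 6635885)) p15_17_2 (nat_lit 4) (nat_lit 76) (nat_lit 77) = true := by decide +kernel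
def p15_17_2_77 : pfC (piC [(nat_lit 40173837), (nat_lit 26036903), (nat_lit 19449108), (nat_lit 13056366)] (nat_lit 6635885)) p15_17_2 (nat_lit 4) (nat_lit 77) (nat_lit 78) = true := by decide +kernel
def p15_17_2_78 : pfC (piC [(nat_lit 40173837), (nat_lit 26036903), (nat_lit 19449108), (nat_lit 13056366)] (nat_lit 6635885)) p15_17_2 (nat_lit 4) (nat_lit 78) (nat_lit 79) = true := by decide +kernel
def p15_17_2_79 : pfC (piC [(nat_lit 40173837), (nat_lit 26036903), (nat_lit 19449108), (nat_lit 13056366)] (nat_lit 6635885)) p15_17_2 (nat_lit 4) (nat_lit 79) (nat_lit 80) = true := by decide +kernel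
def p15_17_2_80 : pfC (piC [(nat_lit 40173837), (nat_lit 26036903), (nat_lit 19449108), (nat_lit 13056366)] (nat_lit 6635885)) p15_17_2 (nat_lit 4) (nat_lit 80) (nat_lit 81) = true := by decide +kernel
def p15_17_2_81 : pfC (piC [(nat_lit 40173837), (nat_lit 26036903), (nat_lit 19449108), (nat_lit 13056366)] (nat_lit 6635885)) p15_17_2 (nat_lit 4) (nat_lit 81) (nat_lit 82) = true := by decide +kernel
def p15_17_2_82 : pfC (piC [(nat_lit 40173837), (nat_lit 26036903), (nat_lit 19449108), (nat_lit 13056366)] (nat_lit 6635885)) p15_17_2 (nat_lit 4) (nat_lit 82) (nat_lit 83) = true := by decide +kernel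
def p15_17_2_83 : pfC (piC [(nat_lit 40173837), (nat_lit 26036903), (nat_lit 19449108), (nat_lit 13056366)] (nat_lit 6635885)) p15_17_2 (nat_lit 4) (nat_lit 83) (nat_lit 84) = true := by decide +kernel
def p15_17_2_84 : pfC (piC [(nat_lit 40173837), (nat_lit 26036903), (nat_lit 19449108), (nat_lit 13056366)] (nat_lit 6635885)) p15_17_2 (nat_lit 4) (nat_lit 84) (nat_lit 85) = true := by decide +kernel
def p15_17_2_85 : pfC (piC [(nat_lit 40173837), (nat_lit 26036903), (nat_lit 19449108), (nat_lit 13056366)] (nat_lit 6635885)) p15_17_2 (nat_lit 4) (nat_lit 85) (nat_lit 86) = true := by decide +kernel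
def p15_17_2_86 : pfC (piC [(nat_lit 40173837), (nat_lit 26036903), (nat_lit 19449108), (nat_lit 13056366)] (nat_lit 6635885)) p15_17_2 (nat_lit 4) (nat_lit 86) (nat_lit 87) = true := by decide +kernel
def p15_17_2_87 : pfC (piC [(nat_lit 40173837), (nat_lit 26036903), (nat_lit 19449108), (nat_lit 13056366)] (nat_lit 6635885)) p15_17_2 (nat_lit 4) (nat_lit 87) (nat_lit 88) = true := by decide +kernel
def p15_17_2_88 : pfC (piC [(nat_lit 40173837), (nat_lit 26036903), (nat_lit 19449108), (nat_lit 13056366)] (nat_lit 6635885)) p15_17_2 (nat_lit 4) (nat_lit 88) (nat_lit 89) = true := by decide +kernel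
def p15_17_2_89 : pfC (piC [(nat_lit 40173837), (nat_lit 26036903), (nat_lit 19449108), (nat_lit 13056366)] (nat_lit 6635885)) p15_17_2 (nat_lit 4) (nat_lit 89) (nat_lit 90) = true := by decide +kernel
def p15_17_2_90 : pfC (piC [(nat_lit 40173837), (nat_lit 26036903), (nat_lit 19449108), (nat_lit 13056366)] (nat_lit 6635885)) p15_17_2 (nat_lit 4) (nat_lit 90) (nat_lit 91) = true := by decide +kernel
def p15_17_2_91 : pfC (piC [(nat_lit 40173837), (nat_lit 26036903), (nat_lit 19449108), (nat_lit 13056366)] (nat_lit 6635885)) p15_17_2 (nat_lit 4) (nat_lit 91) (nat_lit 92) = true := by decide +kernel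
def p15_17_2_92 : pfC (piC [(nat_lit 40173837), (nat_lit 26036903), (nat_lit 19449108), (nat_lit 13056366)] (nat_lit 6635885)) p15_17_2 (nat_lit 4) (nat_lit 92) (nat_lit 93) = true := by decide +kernel
def p15_17_2_93 : pfC (piC [(nat_lit 40173837), (nat_lit 26036903), (nat_lit 19449108), (nat_lit 13056366)] (nat_lit 6635885)) p15_17_2 (nat_lit 4) (nat_lit 93) (nat_lit 94) = true := by decide +kernel
def p15_17_2_94 : pfC (piC [(nat_lit 40173837), (nat_lit 26036903), (nat_lit 19449108), (nat_lit 13056366)] (nat_lit 6635885)) p15_17_2 (nat_lit 4) (nat_lit 94) (nat_lit 95) = true := by decide +kernel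
def p15_17_2_95 : pfC (piC [(nat_lit 40173837), (nat_lit 26036903), (nat_lit 19449108), (nat_lit 13056366)] (nat_lit 6635885)) p15_17_2 (nat_lit 4) (nat_lit 95) (nat_lit 96) = true := by decide +kernel
def p15_17_2_96 : pfC (piC [(nat_lit 40173837), (nat_lit 26036903), (nat_lit 19449108), (nat_lit 13056366)] (nat_lit 6635885)) p15_17_2 (nat_lit 4) (nat_lit 96) (nat_lit 97) = true := by decide +kernel
def p15_17_2_97 : pfC (piC [(nat_lit 40173837), (nat_lit 26036903), (nat_lit 19449108), (nat_lit 13056366)] (nat_lit 6635885)) p15_17_2 (nat_lit 4) (nat_lit 97) (nat_lit 98) = true := by decide +kernel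
def p15_17_2_98 : pfC (piC [(nat_lit 40173837), (nat_lit 26036903), (nat_lit 19449108), (nat_lit 13056366)] (nat_lit 6635885)) p15_17_2 (nat_lit 4) (nat_lit 98) (nat_lit 99) = true := by decide +kernel
def p15_17_2_99 : pfC (piC [(nat_lit 40173837), (nat_lit 26036903), (nat_lit 19449108), (nat_lit 13056366)] (nat_lit 6635885)) p15_17_2 (nat_lit 4) (nat_lit 99) (nat_lit 100) = true := by decide +kernel
def p15_17_2_100 : pfC (piC [(nat_lit 40173837), (nat_lit 26036903), (nat_lit 19449108), (nat_lit 13056366)] (nat_lit 6635885)) p15_17_2 (nat_lit 4) (nat_lit 100) (nat_lit 101) = true := by decide +kernel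
def p15_17_2_101 : pfC (piC [(nat_lit 40173837), (nat_lit 26036903), (nat_lit 19449108), (nat_lit 13056366)] (nat_lit 6635885)) p15_17_2 (nat_lit 4) (nat_lit 101) (nat_lit 102) = true := by decide +kernel
def p15_17_2_102 : pfC (piC [(nat_lit 40173837), (nat_lit 26036903), (nat_lit 19449108), (nat_lit 13056366)] (nat_lit 6635885)) p15_17_2 (nat_lit 4) (nat_lit 102) (nat_lit 103) = true := by decide +kernel
def p15_17_2_103 : pfC (piC [(nat_lit 40173837), (nat_lit 26036903), (nat_lit 19449108), (nat_lit 13056366)] (nat_lit 6635885)) p15_17_2 (nat_lit 4) (nat_lit 103) (nat_lit 104) = true := by decide +kernel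
def p15_17_2_104 : pfC (piC [(nat_lit 40173837), (nat_lit 26036903), (nat_lit 19449108), (nat_lit 13056366)] (nat_lit 6635885)) p15_17_2 (nat_lit 4) (nat_lit 104) (nat_lit 105) = true := by decide +kernel
def p15_17_2_105 : pfC (piC [(nat_lit 40173837), (nat_lit 26036903), (nat_lit 19449108), (nat_lit 13056366)] (nat_lit 6635885)) p15_17_2 (nat_lit 4) (nat_lit 105) (nat_lit 106) = true := by decide +kernel
def p15_17_2_106 : pfC (piC [(nat_lit 40173837), (nat_lit 26036903), (nat_lit 19449108), (nat_lit 13056366)] (nat_lit 6635885)) p15_17_2 (nat_lit 4) (nat_lit 106) (nat_lit 107) = true := by decide +kernel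
def p15_17_2_107 : pfC (piC [(nat_lit 40173837), (nat_lit 26036903), (nat_lit 19449108), (nat_lit 13056366)] (nat_lit 6635885)) p15_17_2 (nat_lit 4) (nat_lit 107) (nat_lit 108) = true := by decide +kernel
def p15_17_2_108 : pfC (piC [(nat_lit 40173837), (nat_lit 26036903), (nat_lit 19449108), (nat_lit 13056366)] (nat_lit 6635885)) p15_17_2 (nat_lit 4) (nat_lit 108) (nat_lit 109) = true := by decide +kernel
def p15_17_2_109 : pfC (piC [(nat_lit 40173837), (nat_lit 26036903), (nat_lit 19449108), (nat_lit 13056366)] (nat_lit 6635885)) p15_17_2 (nat_lit 4) (nat_lit 109) (nat_lit 110) = true := by decide +kernel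
def p15_17_2_110 : pfC (piC [(nat_lit 40173837), (nat_lit 26036903), (nat_lit 19449108), (nat_lit 13056366)] (nat_lit 6635885)) p15_17_2 (nat_lit 4) (nat_lit 110) (nat_lit 111) = true := by decide +kernel
def p15_17_2_111 : pfC (piC [(nat_lit 40173837), (nat_lit 26036903), (nat_lit 19449108), (nat_lit 13056366)] (nat_lit 6635885)) p15_17_2 (nat_lit 4) (nat_lit 111) (nat_lit 112) = true := by decide +kernel
def p15_17_2_112 : pfC (piC [(nat_lit 40173837), (nat_lit 26036903), (nat_lit 19449108), (nat_lit 13056366)] (nat_lit 6635885)) p15_17_2 (nat_lit 4) (nat_lit 112) (nat_lit 113) = true := by decide +kernel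
def p15_17_2_113 : pfC (piC [(nat_lit 40173837), (nat_lit 26036903), (nat_lit 19449108), (nat_lit 13056366)] (nat_lit 6635885)) p15_17_2 (nat_lit 4) (nat_lit 113) (nat_lit 114) = true := by decide +kernel
def p15_17_2_114 : pfC (piC [(nat_lit 40173837), (nat_lit 26036903), (nat_lit 19449108), (nat_lit 13056366)] (nat_lit 6635885)) p15_17_2 (nat_lit 4) (nat_lit 114) (nat_lit 115) = true := by decide +kernel
def p15_17_2_115 : pfC (piC [(nat_lit 40173837), (nat_lit 26036903), (nat_lit 19449108), (nat_lit 13056366)] (nat_lit 6635885)) p15_17_2 (nat_lit 4) (nat_lit 115) (nat_lit 116) = true := by decide +kernel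
def p15_17_2_116 : pfC (piC [(nat_lit 40173837), (nat_lit 26036903), (nat_lit 19449108), (nat_lit 13056366)] (nat_lit 6635885)) p15_17_2 (nat_lit 4) (nat_lit 116) (nat_lit 117) = true := by decide +kernel
def p15_17_2_117 : pfC (piC [(nat_lit 40173837), (nat_lit 26036903), (nat_lit 19449108), (nat_lit 13056366)] (nat_lit 6635885)) p15_17_2 (nat_lit 4) (nat_lit 117) (nat_lit 118) = true := by decide +kernel
def p15_17_2_118 : pfC (piC [(nat_lit 40173837), (nat_lit 26036903), (nat_lit 19449108), (nat_lit 13056366)] (nat_lit 6635885)) p15_17_2 (nat_lit 4) (nat_lit 118) (nat_lit 119) = true := by decide +kernel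
def p15_17_2_119 : pfC (piC [(nat_lit 40173837), (nat_lit 26036903), (nat_lit 19449108), (nat_lit 13056366)] (nat_lit 6635885)) p15_17_2 (nat_lit 4) (nat_lit 119) (nat_lit 120) = true := by decide +kernel
theorem p15_17_2_T : PfS (PiF n15_17.reverse (nat_lit 6635885)) p15_17_2 (nat_lit 4) [] 0 :=
  pftab_of (los := [(nat_lit 40173837), (nat_lit 26036903), (nat_lit 19449108), (nat_lit 13056366)]) (by decide +kernel) (hi := (nat_lit 120)) (PfP.trans (PfP.trans (PfP.trans (PfP.trans (PfP.trans (PfP.trans (PfP.trans (PfP.trans (PfP.trans (PfP.trans (PfP.trans (PfP.trans (PfP.trans (PfP.trans (PfP.trans (PfP.trans (PfP.trans (PfP.trans (PfP.trans (PfP.trans (PfP.trans (PfP.trans (PfP.trans (PfP.trans (PfP.trans (PfP.trans (PfP.trans (PfP.trans (PfP.trans (PfP.trans (PfP.trans (PfP.trans (PfP.trans (PfP.trans (PfP.trans (PfP.trans (PfP.trans (PfP.trans (PfP.trans (PfP.trans (PfP.trans (PfP.trans (PfP.trans (PfP.trans (PfP.trans (PfP.trans (PfP.trans (PfP.trans (PfP.trans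 (PfP.trans (PfP.trans (PfP.trans (PfP.trans (PfP.trans (PfP.trans (PfP.trans (PfP.trans (PfP.trans (PfP.trans (PfP.trans (PfP.trans (PfP.trans (PfP.trans (PfP.trans (PfP.trans (PfP.trans (PfP.trans (PfP.trans (PfP.trans (PfP.trans (PfP.trans (PfP.trans (PfP.trans (PfP.trans (PfP.trans (PfP.trans (PfP.trans (PfP.trans (PfP.trans (PfP.trans (PfP.trans (PfP.trans (PfP.trans (PfP.trans (PfP.trans (PfP.trans (PfP.trans (PfP.trans (PfP.trans (PfP.trans (PfP.trans (PfP.trans (PfP.trans (PfP.trans (PfP.trans (PfP.trans (PfP.trans (PfP.trans (PfP.trans (PfP.trans (PfP.trans (PfP.trans (PfP.trans (PfP.trans (PfP.trans (PfP.trans (PfP.trans (PfP.trans (PfP.trans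
 (PfP.trans (PfP.trans (PfP.trans (PfP.trans (PfP.trans (PfP.trans (PfP.trans (PfP.trans (PfP.trans (PfP.trans (pfC_sound p15_17_2_0) (pfC_sound p15_17_2_1)) (pfC_sound p15_17_2_2)) (pfC_sound p15_17_2_3)) (pfC_sound p15_17_2_4)) (pfC_sound p15_17_2_5)) (pfC_sound p15_17_2_6)) (pfC_sound p15_17_2_7)) (pfC_sound p15_17_2_8)) (pfC_sound p15_17_2_9)) (pfC_sound p15_17_2_10)) (pfC_sound p15_17_2_11)) (pfC_sound p15_17_2_12)) (pfC_sound p15_17_2_13)) (pfC_sound p15_17_2_14)) (pfC_sound p15_17_2_15)) (pfC_sound p15_17_2_16)) (pfC_sound p15_17_2_17)) (pfC_sound p15_17_2_18)) (pfC_sound p15_17_2_19)) (pfC_sound p15_17_2_20)) (pfC_sound p15_17_2_21)) (pfC_sound p15_17_2_22)) (pfC_sound p15_17_2_23)) (pfC_sound p15_17_2_24)) (pfC_sound p15_17_2_25)) (pfC_sound p15_17_2_26)) (pfC_sound p15_17_2_27)) (pfC_sound p15_17_2_28)) (pfC_sound p15_17_2_29)) (pfC_sound p15_17_2_30)) (pfC_sound p15_17_2_31)) (pfC_sound p15_17_2_32)) (pfC_sound p15_17_2_33)) (pfC_sound p15_17_2_34)) (pfC_sound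 p15_17_2_35)) (pfC_sound p15_17_2_36)) (pfC_sound p15_17_2_37)) (pfC_sound p15_17_2_38)) (pfC_sound p15_17_2_39)) (pfC_sound p15_17_2_40)) (pfC_sound p15_17_2_41)) (pfC_sound p15_17_2_42)) (pfC_sound p15_17_2_43))
 (pfC_sound p15_17_2_44)) (pfC_sound p15_17_2_45)) (pfC_sound p15_17_2_46)) (pfC_sound p15_17_2_47)) (pfC_sound p15_17_2_48)) (pfC_sound p15_17_2_49)) (pfC_sound p15_17_2_50)) (pfC_sound p15_17_2_51)) (pfC_sound p15_17_2_52)) (pfC_sound p15_17_2_53)) (pfC_sound p15_17_2_54)) (pfC_sound p15_17_2_55)) (pfC_sound p15_17_2_56)) (pfC_sound p15_17_2_57)) (pfC_sound p15_17_2_58)) (pfC_sound p15_17_2_59)) (pfC_sound p15_17_2_60)) (pfC_sound p15_17_2_61)) (pfC_sound p15_17_2_62)) (pfC_sound p15_17_2_63)) (pfC_sound p15_17_2_64)) (pfC_sound p15_17_2_65)) (pfC_sound p15_17_2_66)) (pfC_sound p15_17_2_67)) (pfC_sound p15_17_2_68)) (pfC_sound p15_17_2_69)) (pfC_sound p15_17_2_70)) (pfC_sound p15_17_2_71)) (pfC_sound p15_17_2_72)) (pfC_sound p15_17_2_73)) (pfC_sound p15_17_2_74))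 (pfC_sound p15_17_2_75)) (pfC_sound p15_17_2_76)) (pfC_sound p15_17_2_77)) (pfC_sound p15_17_2_78)) (pfC_sound p15_17_2_79)) (pfC_sound p15_17_2_80)) (pfC_sound p15_17_2_81)) (pfC_sound p15_17_2_82)) (pfC_sound p15_17_2_83)) (pfC_sound p15_17_2_84)) (pfC_sound p15_17_2_85)) (pfC_sound p15_17_2_86)) (pfC_sound p15_17_2_87)) (pfC_sound p15_17_2_88)) (pfC_sound p15_17_2_89)) (pfC_sound p15_17_2_90)) (pfC_sound p15_17_2_91))
 (pfC_sound p15_17_2_92)) (pfC_sound p15_17_2_93)) (pfC_sound p15_17_2_94)) (pfC_sound p15_17_2_95)) (pfC_sound p15_17_2_96)) (pfC_sound p15_17_2_97)) (pfC_sound p15_17_2_98)) (pfC_sound p15_17_2_99)) (pfC_sound p15_17_2_100)) (pfC_sound p15_17_2_101)) (pfC_sound p15_17_2_102)) (pfC_sound p15_17_2_103)) (pfC_sound p15_17_2_104)) (pfC_sound p15_17_2_105)) (pfC_sound p15_17_2_106)) (pfC_sound p15_17_2_107)) (pfC_sound p15_17_2_108)) (pfC_sound p15_17_2_109)) (pfC_sound p15_17_2_110)) (pfC_sound p15_17_2_111)) (pfC_sound p15_17_2_112)) (pfC_sound p15_17_2_113))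 (pfC_sound p15_17_2_114)) (pfC_sound p15_17_2_115)) (pfC_sound p15_17_2_116)) (pfC_sound p15_17_2_117)) (pfC_sound p15_17_2_118)) (pfC_sound p15_17_2_119)) (by decide +kernel)

def z15_17_2 : zOK yB15_17 (nat_lit 2) (nat_lit 600) (nat_lit 750) (nat_lit 6635885) (nat_lit 4861332) = true := by decide +kernel
def g15_17_2 : gOK yB15_17.x P15_17 (nat_lit 1424) (q15_17 :: r15_17) (nat_lit 2) (nat_lit 600) (nat_lit 3) (nat_lit 750) (nat_lit 12712500) (nat_lit 12712500) (nat_lit 12712500) (nat_lit 12712500) [(nat_lit 800), (nat_lit 1600)] = true := by decide +kernel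
def v15_17_2 : ivC P15_17 s15_17 w15_17 n15_17 (nat_lit 4) (nat_lit 4830) (nat_lit 2) (nat_lit 600) f152_1_600 f160_1_600 (nat_lit 3) (nat_lit 750) f152_1_750 f160_1_750 (nat_lit 6635885) (nat_lit 4861332) p15_17_2 = true := by decide +kernel
def p15_17_3 : PF := (PF.cons (PF.cons (PF.cons (PF.cons (PF.leaf (nat_lit 3060834) (nat_lit 20236279) (nat_lit 46872533) (nat_lit 20236279) [(nat_lit 0), (nat_lit 0), (nat_lit 0), (nat_lit 0)]) (PF.cons (PF.leaf (nat_lit 3200039) (nat_lit 241955) (nat_lit 46671889) (nat_lit 20194968) [(nat_lit 241955), (nat_lit 0), (nat_lit 0), (nat_lit 0)]) (PF.cons (PF.leaf (nat_lit 3365493) (nat_lit 262821) (nat_lit 46437230) (nat_lit 20145939) [(nat_lit 262821), (nat_lit 0), (nat_lit 0), (nat_lit 0)]) (PF.cons (PF.leaf (nat_lit 3550953) (nat_lit 281250) (nat_lit 46174836) (nat_lit 20090224) [(nat_lit 281250), (nat_lit 0), (nat_lit 0), (nat_lit 0)]) (PF.cons (PF.leaf (nat_lit 3753565) (nat_lit 297788) (nat_lit 45889147) (nat_lit 20028511)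 [(nat_lit 297788), (nat_lit 0), (nat_lit 0), (nat_lit 0)]) (PF.cons (PF.leaf (nat_lit 3971079) (nat_lit 312785) (nat_lit 45583573) (nat_lit 19961309) [(nat_lit 312785), (nat_lit 0), (nat_lit 0), (nat_lit 0)]) (PF.cons (PF.leaf (nat_lit 4201654) (nat_lit 326485) (nat_lit 45260879) (nat_lit 19889023) [(nat_lit 326485), (nat_lit 0), (nat_lit 0), (nat_lit 0)]) (PF.cons (PF.leaf (nat_lit 4443874) (nat_lit 339062) (nat_lit 44923381) (nat_lit 19811993) [(nat_lit 339062), (nat_lit 0),
 (nat_lit 0), (nat_lit 0)]) (PF.cons (PF.leaf (nat_lit 4696326) (nat_lit 350652) (nat_lit 44573072) (nat_lit 19730517) [(nat_lit 350652), (nat_lit 0), (nat_lit 0), (nat_lit 0)]) (PF.cons PF.nil PF.nil)))))))))) (PF.cons (PF.cons (PF.leaf (nat_lit 3548365) (nat_lit 1140711) (nat_lit 45932669) (nat_lit 20035432) [(nat_lit 0), (nat_lit 1140711), (nat_lit 0), (nat_lit 0)]) (PF.cons (PF.leaf (nat_lit 3728452) (nat_lit 290850) (nat_lit 45672041) (nat_lit 19978291) [(nat_lit 290850), (nat_lit 1167629),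 (nat_lit 0), (nat_lit 0)]) (PF.cons (PF.leaf (nat_lit 3928036) (nat_lit 306714) (nat_lit 45386770) (nat_lit 19914736) [(nat_lit 306714), (nat_lit 1193876), (nat_lit 0), (nat_lit 0)]) (PF.cons (PF.leaf (nat_lit 4143116) (nat_lit 321041) (nat_lit 45081142) (nat_lit 19845490) [(nat_lit 321041), (nat_lit 1219054), (nat_lit 0), (nat_lit 0)]) (PF.cons (PF.leaf (nat_lit 4371549) (nat_lit 334099) (nat_lit 44758363) (nat_lit 19771077) [(nat_lit 334099), (nat_lit 1242973), (nat_lit 0), (nat_lit 0)]) (PF.cons (PF.leaf (nat_lit 4611737) (nat_lit 346072) (nat_lit 44420989) (nat_lit 19691910) [(nat_lit 346072), (nat_lit 1265552), (nat_lit 0), (nat_lit 0)]) (PF.cons (PF.leaf (nat_lit 4862196) (nat_lit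
 357094) (nat_lit 44071139) (nat_lit 19608336) [(nat_lit 357094), (nat_lit 1286769), (nat_lit 0), (nat_lit 0)]) (PF.cons (PF.leaf (nat_lit 5121756) (nat_lit 367271) (nat_lit 43710620) (nat_lit 19520658) [(nat_lit 367271), (nat_lit 1306633), (nat_lit 0), (nat_lit 0)]) (PF.cons PF.nil PF.nil))))))))) (PF.cons (PF.cons (PF.leaf (nat_lit 4105930) (nat_lit 1220653) (nat_lit 44872586) (nat_lit 19794919) [(nat_lit 0), (nat_lit 1220653), (nat_lit 0), (nat_lit 0)]) (PF.cons (PF.leaf (nat_lit 4316233) (nat_lit 328098) (nat_lit 44570121) (nat_lit 19724404) [(nat_lit 328098), (nat_lit 1243094), (nat_lit 0), (nat_lit 0)]) (PF.cons (PF.leaf (nat_lit 4541509) (nat_lit 340698) (nat_lit 44249701) (nat_lit 19648474) [(nat_lit 340698), (nat_lit 1264620), (nat_lit 0), (nat_lit 0)]) (PF.cons (PF.leaf (nat_lit 4778882) (nat_lit 352203) (nat_lit 43914384) (nat_lit 19567677) [(nat_lit 352203), (nat_lit 1285070), (nat_lit 0), (nat_lit 0)]) (PF.cons (PF.leaf (nat_lit 5026820) (nat_lit 362765)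 (nat_lit 43566568) (nat_lit 19482440) [(nat_lit 362765), (nat_lit 1304371), (nat_lit 0), (nat_lit 0)]) (PF.cons (PF.leaf (nat_lit 5283916) (nat_lit 372495) (nat_lit 43208220) (nat_lit 19393119) [(nat_lit 372495),
 (nat_lit 1322496), (nat_lit 0), (nat_lit 0)]) (PF.cons PF.nil PF.nil))))))) (PF.cons (PF.cons (PF.leaf (nat_lit 4713201) (nat_lit 1284200) (nat_lit 43734995) (nat_lit 19521217) [(nat_lit 0), (nat_lit 1284200), (nat_lit 0), (nat_lit 0)]) (PF.cons (PF.leaf (nat_lit 4946116) (nat_lit 357500) (nat_lit 43403849) (nat_lit 19439372) [(nat_lit 357500), (nat_lit 1302697), (nat_lit 0), (nat_lit 0)]) (PF.cons (PF.leaf (nat_lit 5190738) (nat_lit 367706) (nat_lit 43059724) (nat_lit 19352952) [(nat_lit 367706), (nat_lit 1320241), (nat_lit 0), (nat_lit 0)]) (PF.cons (PF.leaf (nat_lit 5444853) (nat_lit 377074) (nat_lit 42704884) (nat_lit 19262399) [(nat_lit 377074), (nat_lit 1336768), (nat_lit 0), (nat_lit 0)]) (PF.cons (PF.leaf (nat_lit 5707161) (nat_lit 385700) (nat_lit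 42341163) (nat_lit 19168077) [(nat_lit 385700), (nat_lit 1352256), (nat_lit 0), (nat_lit 0)]) PF.nil))))) (PF.cons (PF.cons (PF.leaf (nat_lit 5355316) (nat_lit 1334553) (nat_lit 42550676) (nat_lit 19219920) [(nat_lit 0), (nat_lit 1334553), (nat_lit 0), (nat_lit 0)]) (PF.cons (PF.leaf (nat_lit 5605097) (nat_lit 381030) (nat_lit 42200790) (nat_lit 19128594) [(nat_lit 381030), (nat_lit 1349599), (nat_lit 0), (nat_lit 0)]) (PF.cons
 (PF.leaf (nat_lit 5864039) (nat_lit 389363) (nat_lit 41841726) (nat_lit 19033435) [(nat_lit 389363), (nat_lit 1363730), (nat_lit 0), (nat_lit 0)]) (PF.cons PF.nil PF.nil)))) (PF.cons (PF.cons (PF.leaf (nat_lit 6020794) (nat_lit 1373982) (nat_lit 41342727) (nat_lit 18896174) [(nat_lit 0), (nat_lit 1373982), (nat_lit 0), (nat_lit 0)]) (PF.cons (PF.leaf (nat_lit 6282853) (nat_lit 399910) (nat_lit 40981753) (nat_lit 18797080) [(nat_lit 399910), (nat_lit 1386013), (nat_lit 0), (nat_lit 0)]) PF.nil)) (PF.cons PF.nil (PF.cons PF.nil PF.nil))))))))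 (PF.cons (PF.cons (PF.cons (PF.leaf (nat_lit 4050273) (nat_lit 2992963) (nat_lit 44436492) (nat_lit 19679356) [(nat_lit 0), (nat_lit 0), (nat_lit 2992963), (nat_lit 0)]) (PF.cons (PF.leaf (nat_lit 4238411) (nat_lit 310743) (nat_lit 44167840) (nat_lit 19615472) [(nat_lit 310743), (nat_lit 0), (nat_lit 3014755), (nat_lit 0)]) (PF.cons (PF.leaf (nat_lit 4445149) (nat_lit 325560) (nat_lit 43876045) (nat_lit 19545091) [(nat_lit 325560), (nat_lit 0), (nat_lit 3036555), (nat_lit 0)]) (PF.cons (PF.leaf (nat_lit 4666409) (nat_lit 338761) (nat_lit 43565602) (nat_lit 19469092) [(nat_lit 338761), (nat_lit 0), (nat_lit 3057834), (nat_lit 0)]) (PF.cons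
 (PF.leaf (nat_lit 4899980) (nat_lit 350662) (nat_lit 43239802) (nat_lit 19388106) [(nat_lit 350662), (nat_lit 0), (nat_lit 3078253), (nat_lit 0)]) (PF.cons (PF.leaf (nat_lit 5144253) (nat_lit 361479) (nat_lit 42901204) (nat_lit 19302621) [(nat_lit 361479), (nat_lit 0), (nat_lit 3097589), (nat_lit 0)]) (PF.cons (PF.leaf (nat_lit 5397786) (nat_lit 371364) (nat_lit 42551886) (nat_lit 19213039) [(nat_lit 371364), (nat_lit 0), (nat_lit 3115699), (nat_lit 0)]) (PF.cons PF.nil (PF.cons PF.nil PF.nil))))))))) (PF.cons (PF.cons (PF.leaf (nat_lit 4619345) (nat_lit 1267342) (nat_lit 43363355) (nat_lit 19416368) [(nat_lit 0), (nat_lit 1267342), (nat_lit 3061746), (nat_lit 0)]) (PF.cons (PF.leaf (nat_lit 4834931) (nat_lit 344016) (nat_lit 43058402) (nat_lit 19339860) [(nat_lit 344016), (nat_lit 1286236), (nat_lit 3080297), (nat_lit 0)]) (PF.cons (PF.leaf (nat_lit 5064598) (nat_lit 355609) (nat_lit 42737065) (nat_lit 19258074) [(nat_lit 355609), (nat_lit 1304259), (nat_lit 3098193),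 (nat_lit 0)]) (PF.cons (PF.leaf (nat_lit 5305407) (nat_lit 366089) (nat_lit 42402429) (nat_lit 19171644) [(nat_lit 366089), (nat_lit 1321294), (nat_lit 3115177), (nat_lit 0)]) (PF.cons (PF.leaf (nat_lit 5555798)
 (nat_lit 375628) (nat_lit 42056867) (nat_lit 19081057) [(nat_lit 375628), (nat_lit 1337291), (nat_lit 3131084), (nat_lit 0)]) (PF.cons (PF.leaf (nat_lit 5814480) (nat_lit 384352) (nat_lit 41702290) (nat_lit 18986712) [(nat_lit 384352), (nat_lit 1352236), (nat_lit 3145810), (nat_lit 0)]) (PF.cons PF.nil PF.nil))))))) (PF.cons (PF.cons (PF.leaf (nat_lit 5230911) (nat_lit 1319212) (nat_lit 42230632) (nat_lit 19124182) [(nat_lit 0), (nat_lit 1319212), (nat_lit 3115572), (nat_lit 0)]) (PF.cons (PF.leaf (nat_lit 5466692) (nat_lit 369992) (nat_lit 41901786) (nat_lit 19037366) [(nat_lit 369992), (nat_lit 1334654), (nat_lit 3130358), (nat_lit 0)]) (PF.cons (PF.leaf (nat_lit 5713283) (nat_lit 379277) (nat_lit 41561383) (nat_lit 18946228) [(nat_lit 379277), (nat_lit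 1349215), (nat_lit 3144214), (nat_lit 0)]) (PF.cons (PF.leaf (nat_lit 5968510) (nat_lit 387729) (nat_lit 41211642) (nat_lit 18851257) [(nat_lit 387729), (nat_lit 1362853), (nat_lit 3157017), (nat_lit 0)]) (PF.cons PF.nil PF.nil))))) (PF.cons (PF.cons (PF.leaf (nat_lit 5871410) (nat_lit 1359893) (nat_lit 41065309) (nat_lit 18808563) [(nat_lit 0), (nat_lit 1359893), (nat_lit 3155259), (nat_lit 0)]) (PF.cons (PF.leaf (nat_lit
 6121937) (nat_lit 390574) (nat_lit 40721643) (nat_lit 18713398) [(nat_lit 390574), (nat_lit 1372308), (nat_lit 3166270), (nat_lit 0)]) (PF.cons (PF.leaf (nat_lit 6380855) (nat_lit 398081) (nat_lit 40370003) (nat_lit 18614709) [(nat_lit 398081), (nat_lit 1383890), (nat_lit 3176264), (nat_lit 0)]) (PF.cons PF.nil PF.nil)))) (PF.cons (PF.cons (PF.leaf (nat_lit 6530543) (nat_lit 1391229) (nat_lit 39887200) (nat_lit 18474564) [(nat_lit 0), (nat_lit 1391229), (nat_lit 3182130), (nat_lit 0)]) (PF.cons PF.nil PF.nil)) (PF.cons PF.nil PF.nil)))))) (PF.cons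 (PF.cons (PF.cons (PF.leaf (nat_lit 5123731) (nat_lit 3101069) (nat_lit 41885629) (nat_lit 19021043) [(nat_lit 0), (nat_lit 0), (nat_lit 3101069), (nat_lit 0)]) (PF.cons (PF.leaf (nat_lit 5342880) (nat_lit 356653) (nat_lit 41582013) (nat_lit 18939922) [(nat_lit 356653), (nat_lit 0), (nat_lit 3115111), (nat_lit 0)]) (PF.cons (PF.leaf (nat_lit 5575235) (nat_lit 367361) (nat_lit 41263420) (nat_lit 18853704) [(nat_lit 367361), (nat_lit 0), (nat_lit 3128482), (nat_lit 0)]) (PF.cons (PF.leaf (nat_lit 5817977) (nat_lit 376946) (nat_lit 40932909) (nat_lit 18763088) [(nat_lit 376946), (nat_lit 0), (nat_lit 3140988), (nat_lit 0)]) (PF.cons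
 (PF.leaf (nat_lit 6069466) (nat_lit 385597) (nat_lit 40592804) (nat_lit 18668605) [(nat_lit 385597), (nat_lit 0), (nat_lit 3152505), (nat_lit 0)]) (PF.cons PF.nil (PF.cons PF.nil PF.nil))))))) (PF.cons (PF.cons (PF.leaf (nat_lit 5735834) (nat_lit 1344687) (nat_lit 40769437) (nat_lit 18715336) [(nat_lit 0), (nat_lit 1344687), (nat_lit 3139675), (nat_lit 0)]) (PF.cons (PF.leaf (nat_lit 5973084) (nat_lit 379713) (nat_lit 40445835) (nat_lit 18624901) [(nat_lit 379713), (nat_lit 1357584), (nat_lit 3150389), (nat_lit 0)]) (PF.cons (PF.leaf (nat_lit 6220371) (nat_lit 388191) (nat_lit 40111900) (nat_lit 18530407) [(nat_lit 388191), (nat_lit 1369657), (nat_lit 3160231), (nat_lit 0)]) (PF.cons (PF.leaf (nat_lit 6475571) (nat_lit 395845) (nat_lit 39769787) (nat_lit 18432377) [(nat_lit 395845), (nat_lit 1380882), (nat_lit 3169114), (nat_lit 0)]) (PF.cons PF.nil PF.nil))))) (PF.cons (PF.cons (PF.leaf (nat_lit 6372001) (nat_lit 1377390) (nat_lit 39631546) (nat_lit 18389977) [(nat_lit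 0), (nat_lit 1377390), (nat_lit 3166253), (nat_lit 0)]) (PF.cons (PF.leaf (nat_lit 6622219) (nat_lit 397774) (nat_lit 39296257) (nat_lit 18292239) [(nat_lit 397774), (nat_lit 1387599), (nat_lit 3173672), (nat_lit
 0)]) (PF.cons (PF.leaf (nat_lit 6880153) (nat_lit 404560) (nat_lit 38954002) (nat_lit 18191271) [(nat_lit 404560), (nat_lit 1397041), (nat_lit 3180167), (nat_lit 0)]) (PF.cons PF.nil PF.nil)))) (PF.cons (PF.cons (PF.leaf (nat_lit 7022902) (nat_lit 1402002) (nat_lit 38489078) (nat_lit 18049827) [(nat_lit 0), (nat_lit 1402002), (nat_lit 3181949), (nat_lit 0)]) (PF.cons PF.nil PF.nil)) (PF.cons PF.nil PF.nil))))) (PF.cons (PF.cons (PF.cons (PF.leaf (nat_lit 6226984) (nat_lit 3150142) (nat_lit 39358466) (nat_lit 18299919) [(nat_lit 0), (nat_lit 0), (nat_lit 3150142), (nat_lit 0)]) (PF.cons (PF.leaf (nat_lit 6464569) (nat_lit 387147) (nat_lit 39042191) (nat_lit 18207031) [(nat_lit 387147), (nat_lit 0), (nat_lit 3157480), (nat_lit 0)]) (PF.cons (PF.leaf (nat_lit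 6711547) (nat_lit 394910) (nat_lit 38716641) (nat_lit 18110346) [(nat_lit 394910), (nat_lit 0), (nat_lit 3164001), (nat_lit 0)]) (PF.cons (PF.leaf (nat_lit 6965796) (nat_lit 401862) (nat_lit 38383895) (nat_lit 18010406) [(nat_lit 401862), (nat_lit 0), (nat_lit 3169641), (nat_lit 0)]) (PF.cons PF.nil PF.nil))))) (PF.cons (PF.cons (PF.leaf (nat_lit 6856703) (nat_lit 1388514) (nat_lit 38253713) (nat_lit 17968686) [(nat_lit 0),
 (nat_lit 1388514), (nat_lit 3165966), (nat_lit 0)]) (PF.cons (PF.leaf (nat_lit 7105778) (nat_lit 403032) (nat_lit 37928260) (nat_lit 17869443) [(nat_lit 403032), (nat_lit 1396854), (nat_lit 3170407), (nat_lit 0)]) (PF.cons PF.nil (PF.cons PF.nil PF.nil)))) (PF.cons (PF.cons (PF.leaf (nat_lit 7497981) (nat_lit 1407495) (nat_lit 37150563) (nat_lit 17625785) [(nat_lit 0), (nat_lit 1407495), (nat_lit 3172490), (nat_lit 0)]) (PF.cons PF.nil PF.nil)) PF.nil))) (PF.cons (PF.cons (PF.cons (PF.leaf (nat_lit 7325459) (nat_lit 3156622) (nat_lit 36933981)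 (nat_lit 17548341) [(nat_lit 0), (nat_lit 0), (nat_lit 3156622), (nat_lit 0)]) (PF.cons (PF.leaf (nat_lit 7572688) (nat_lit 406671) (nat_lit 36619301) (nat_lit 17448479) [(nat_lit 406671), (nat_lit 0), (nat_lit 3158590), (nat_lit 0)]) PF.nil)) (PF.cons PF.nil PF.nil)) (PF.cons PF.nil PF.nil)))))) (PF.cons (PF.cons (PF.cons (PF.cons (PF.leaf (nat_lit 4941876) (nat_lit 8319643) (nat_lit 40294164) (nat_lit 18495004) [(nat_lit 0), (nat_lit 0), (nat_lit 0), (nat_lit 8319643)]) (PF.cons (PF.leaf (nat_lit 5128690) (nat_lit 319118) (nat_lit 40050322) (nat_lit 18427420) [(nat_lit 319118), (nat_lit 0), (nat_lit 0), (nat_lit 8311951)]) (PF.cons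
 (PF.leaf (nat_lit 5332916) (nat_lit 333041) (nat_lit 39786492) (nat_lit 18353550) [(nat_lit 333041), (nat_lit 0), (nat_lit 0), (nat_lit 8302686)]) (PF.cons (PF.leaf (nat_lit 5550451) (nat_lit 345234) (nat_lit 39506855) (nat_lit 18274418) [(nat_lit 345234), (nat_lit 0), (nat_lit 0), (nat_lit 8291834)]) (PF.cons (PF.leaf (nat_lit 5779084) (nat_lit 356055) (nat_lit 39214442) (nat_lit 18190760) [(nat_lit 356055), (nat_lit 0), (nat_lit 0), (nat_lit 8279387)]) (PF.cons (PF.leaf (nat_lit 6017156) (nat_lit 365748) (nat_lit 38911584) (nat_lit 18103142) [(nat_lit 365748), (nat_lit 0), (nat_lit 0), (nat_lit 8265345)]) (PF.cons (PF.leaf (nat_lit 6263318) (nat_lit 374487) (nat_lit 38600148) (nat_lit 18012020) [(nat_lit 374487), (nat_lit 0), (nat_lit 0), (nat_lit 8249719)]) (PF.cons PF.nil (PF.cons PF.nil PF.nil))))))))) (PF.cons (PF.cons (PF.leaf (nat_lit 5494546) (nat_lit 1277677) (nat_lit 39329525) (nat_lit 18221500) [(nat_lit 0), (nat_lit 1277677), (nat_lit 0), (nat_lit 8280109)])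 (PF.cons (PF.leaf (nat_lit 5705750) (nat_lit 348815) (nat_lit 39056196) (nat_lit 18142804) [(nat_lit 348815), (nat_lit 1293052), (nat_lit 0), (nat_lit 8267943)]) (PF.cons (PF.leaf (nat_lit 5929799) (nat_lit
 359400) (nat_lit 38769081) (nat_lit 18059278) [(nat_lit 359400), (nat_lit 1307498), (nat_lit 0), (nat_lit 8254153)]) (PF.cons (PF.leaf (nat_lit 6163915) (nat_lit 368828) (nat_lit 38470976) (nat_lit 17971628) [(nat_lit 368828), (nat_lit 1320954), (nat_lit 0), (nat_lit 8238769)]) (PF.cons (PF.leaf (nat_lit 6406474) (nat_lit 377294) (nat_lit 38164010) (nat_lit 17880396) [(nat_lit 377294), (nat_lit 1333409), (nat_lit 0), (nat_lit 8221819)]) (PF.cons (PF.leaf (nat_lit 6656225) (nat_lit 384940) (nat_lit 37849876) (nat_lit 17786014) [(nat_lit 384940), (nat_lit 1344881), (nat_lit 0), (nat_lit 8203339)]) (PF.cons PF.nil PF.nil))))))) (PF.cons (PF.cons (PF.leaf (nat_lit 6082177) (nat_lit 1317495) (nat_lit 38321986) (nat_lit 17925211) [(nat_lit 0), (nat_lit 1317495), (nat_lit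 0), (nat_lit 8226624)]) (PF.cons (PF.leaf (nat_lit 6310798) (nat_lit 371305) (nat_lit 38030088) (nat_lit 17838029) [(nat_lit 371305), (nat_lit 1329651), (nat_lit 0), (nat_lit 8210086)]) (PF.cons (PF.leaf (nat_lit 6549174) (nat_lit 379585) (nat_lit 37728682) (nat_lit 17747079) [(nat_lit 379585), (nat_lit 1340949), (nat_lit 0), (nat_lit 8191980)]) (PF.cons (PF.leaf (nat_lit 6795178) (nat_lit 387027) (nat_lit 37419733)
 (nat_lit 17652881) [(nat_lit 387027), (nat_lit 1351378), (nat_lit 0), (nat_lit 8172359)]) (PF.cons PF.nil PF.nil))))) (PF.cons (PF.cons (PF.leaf (nat_lit 6692648) (nat_lit 1347538) (nat_lit 37293906) (nat_lit 17612031) [(nat_lit 0), (nat_lit 1347538), (nat_lit 0), (nat_lit 8160259)]) (PF.cons (PF.leaf (nat_lit 6933714) (nat_lit 388670) (nat_lit 36991106) (nat_lit 17518383) [(nat_lit 388670), (nat_lit 1356997), (nat_lit 0), (nat_lit 8139659)]) (PF.cons (PF.leaf (nat_lit 7182267) (nat_lit 395236) (nat_lit 36681879) (nat_lit 17421790) [(nat_lit 395236),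 (nat_lit 1365686), (nat_lit 0), (nat_lit 8117610)]) (PF.cons PF.nil PF.nil)))) (PF.cons (PF.cons (PF.leaf (nat_lit 7317101) (nat_lit 1369677) (nat_lit 36261024) (nat_lit 17286650) [(nat_lit 0), (nat_lit 1369677), (nat_lit 0), (nat_lit 8082427)]) (PF.cons PF.nil PF.nil)) (PF.cons PF.nil PF.nil)))))) (PF.cons (PF.cons (PF.cons (PF.leaf (nat_lit 5962489) (nat_lit 3056565) (nat_lit 38031005) (nat_lit 17828260) [(nat_lit 0), (nat_lit 0), (nat_lit 3056565), (nat_lit 8192982)]) (PF.cons (PF.leaf (nat_lit 6175609) (nat_lit 357827) (nat_lit 37761391) (nat_lit 17747105) [(nat_lit 357827), (nat_lit 0), (nat_lit 3065175), (nat_lit 8177313)])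
 (PF.cons (PF.leaf (nat_lit 6400879) (nat_lit 367611) (nat_lit 37479145) (nat_lit 17661342) [(nat_lit 367611), (nat_lit 0), (nat_lit 3073094), (nat_lit 8160007)]) (PF.cons (PF.leaf (nat_lit 6635492) (nat_lit 376249) (nat_lit 37187003) (nat_lit 17571710) [(nat_lit 376249), (nat_lit 0), (nat_lit 3080204), (nat_lit 8141144)]) (PF.cons (PF.leaf (nat_lit 6877912) (nat_lit 383948) (nat_lit 36887019) (nat_lit 17478767) [(nat_lit 383948), (nat_lit 0), (nat_lit 3086436), (nat_lit 8120792)]) (PF.cons PF.nil (PF.cons PF.nil PF.nil))))))) (PF.cons (PF.cons (PF.leaf (nat_lit 6547671) (nat_lit 1331965) (nat_lit 37046000) (nat_lit 17525979) [(nat_lit 0), (nat_lit 1331965), (nat_lit 3076943), (nat_lit 8127925)]) (PF.cons (PF.leaf (nat_lit 6776562) (nat_lit 377845) (nat_lit 36760702) (nat_lit 17437209) [(nat_lit 377845), (nat_lit 1342096), (nat_lit 3082741), (nat_lit 8108217)]) (PF.cons (PF.leaf (nat_lit 7014560) (nat_lit 385429) (nat_lit 36466843) (nat_lit 17344919) [(nat_lit 385429),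 (nat_lit 1351434), (nat_lit 3087753), (nat_lit 8087002)]) (PF.cons (PF.leaf (nat_lit 7259574) (nat_lit 392194) (nat_lit 36166315) (nat_lit 17249641) [(nat_lit 392194), (nat_lit 1359978), (nat_lit 3091931), (nat_lit
 8064364)]) (PF.cons PF.nil PF.nil))))) (PF.cons (PF.cons (PF.leaf (nat_lit 7152060) (nat_lit 1355860) (nat_lit 36047860) (nat_lit 17209745) [(nat_lit 0), (nat_lit 1355860), (nat_lit 3087840), (nat_lit 8051646)]) (PF.cons (PF.leaf (nat_lit 7391984) (nat_lit 393142) (nat_lit 35753863) (nat_lit 17115339) [(nat_lit 393142), (nat_lit 1363599), (nat_lit 3090965), (nat_lit 8028302)]) (PF.cons PF.nil (PF.cons PF.nil PF.nil)))) (PF.cons (PF.cons (PF.leaf (nat_lit 7767583) (nat_lit 1372906) (nat_lit 35050215) (nat_lit 16883923) [(nat_lit 0), (nat_lit 1372906), (nat_lit 3090357), (nat_lit 7965597)]) (PF.cons PF.nil PF.nil)) (PF.cons PF.nil PF.nil))))) (PF.cons (PF.cons (PF.cons (PF.leaf (nat_lit 7000060) (nat_lit 3071146) (nat_lit 35819355) (nat_lit 17127680) [(nat_lit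 0), (nat_lit 0), (nat_lit 3071146), (nat_lit 8019485)]) (PF.cons (PF.leaf (nat_lit 7228408) (nat_lit 382672) (nat_lit 35541818) (nat_lit 17038109) [(nat_lit 382672), (nat_lit 0), (nat_lit 3074498), (nat_lit 7997215)]) (PF.cons (PF.leaf (nat_lit 7465355) (nat_lit 389641) (nat_lit 35256542) (nat_lit 16945251) [(nat_lit 389641), (nat_lit 0), (nat_lit 3077115), (nat_lit 7973505)]) (PF.cons PF.nil (PF.cons PF.nil PF.nil)))))
 (PF.cons (PF.cons (PF.leaf (nat_lit 7597031) (nat_lit 1359662) (nat_lit 34854015) (nat_lit 16810894) [(nat_lit 0), (nat_lit 1359662), (nat_lit 3074431), (nat_lit 7935377)]) (PF.cons (PF.leaf (nat_lit 7835294) (nat_lit 396182) (nat_lit 34569551) (nat_lit 16716417) [(nat_lit 396182), (nat_lit 1365943), (nat_lit 3075428), (nat_lit 7909859)]) (PF.cons PF.nil (PF.cons PF.nil PF.nil)))) (PF.cons (PF.cons (PF.leaf (nat_lit 8202815) (nat_lit 1372434) (nat_lit 33893137) (nat_lit 16486743) [(nat_lit 0), (nat_lit 1372434), (nat_lit 3070538), (nat_lit 7842986)])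 (PF.cons PF.nil PF.nil)) PF.nil))) (PF.cons (PF.cons (PF.cons (PF.leaf (nat_lit 8027771) (nat_lit 3055064) (nat_lit 33712491) (nat_lit 16417575) [(nat_lit 0), (nat_lit 0), (nat_lit 3055064), (nat_lit 7813552)]) (PF.cons (PF.leaf (nat_lit 8263870) (nat_lit 398026) (nat_lit 33437976) (nat_lit 16323588) [(nat_lit 398026), (nat_lit 0), (nat_lit 3054291), (nat_lit 7786347)]) PF.nil)) (PF.cons PF.nil PF.nil)) (PF.cons PF.nil PF.nil))))) (PF.cons (PF.cons (PF.cons (PF.cons (PF.leaf (nat_lit 6713276) (nat_lit 7839746) (nat_lit 34720362) (nat_lit 16708957) [(nat_lit 0), (nat_lit 0), (nat_lit 0), (nat_lit 7839746)]) (PF.cons (PF.leaf (nat_lit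
 6919567) (nat_lit 354695) (nat_lit 34482118) (nat_lit 16630817) [(nat_lit 354695), (nat_lit 0), (nat_lit 0), (nat_lit 7820590)]) (PF.cons (PF.leaf (nat_lit 7137144) (nat_lit 363702) (nat_lit 34233105) (nat_lit 16548537) [(nat_lit 363702), (nat_lit 0), (nat_lit 0), (nat_lit 7799882)]) (PF.cons (PF.leaf (nat_lit 7363248) (nat_lit 371567) (nat_lit 33975738) (nat_lit 16462848) [(nat_lit 371567), (nat_lit 0), (nat_lit 0), (nat_lit 7777761)]) (PF.cons (PF.leaf (nat_lit 7596391) (nat_lit 378504) (nat_lit 33711825) (nat_lit 16374300) [(nat_lit 378504), (nat_lit 0), (nat_lit 0), (nat_lit 7754334)]) (PF.cons PF.nil (PF.cons PF.nil PF.nil))))))) (PF.cons (PF.cons (PF.leaf (nat_lit 7272011) (nat_lit 1306746) (nat_lit 33854221) (nat_lit 16420287) [(nat_lit 0), (nat_lit 1306746), (nat_lit 0), (nat_lit 7763778)]) (PF.cons (PF.leaf (nat_lit 7492292) (nat_lit 372348) (nat_lit 33603262) (nat_lit 16335815) [(nat_lit 372348), (nat_lit 1314874), (nat_lit 0), (nat_lit 7741255)]) (PF.cons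 (PF.leaf (nat_lit 7720969) (nat_lit 379216) (nat_lit 33345079) (nat_lit 16248268) [(nat_lit 379216), (nat_lit 1322248), (nat_lit 0), (nat_lit 7717391)]) (PF.cons PF.nil (PF.cons PF.nil PF.nil))))) (PF.cons (PF.cons
 (PF.leaf (nat_lit 7846592) (nat_lit 1324470) (nat_lit 32979680) (nat_lit 16121449) [(nat_lit 0), (nat_lit 1324470), (nat_lit 0), (nat_lit 7679370)]) (PF.cons (PF.leaf (nat_lit 8076539) (nat_lit 385561) (nat_lit 32721910) (nat_lit 16032500) [(nat_lit 385561), (nat_lit 1330459), (nat_lit 0), (nat_lit 7653960)]) (PF.cons PF.nil (PF.cons PF.nil PF.nil)))) (PF.cons (PF.cons (PF.leaf (nat_lit 8429918) (nat_lit 1336316) (nat_lit 32107783) (nat_lit 15816281) [(nat_lit 0), (nat_lit 1336316), (nat_lit 0), (nat_lit 7587899)]) (PF.cons PF.nil PF.nil)) (PF.cons PF.nil PF.nil))))) (PF.cons (PF.cons (PF.cons (PF.leaf (nat_lit 7691075) (nat_lit 2975917) (nat_lit 32787708) (nat_lit 16047912) [(nat_lit 0), (nat_lit 0), (nat_lit 2975917), (nat_lit 7648637)]) (PF.cons (PF.leaf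 (nat_lit 7910325) (nat_lit 375413) (nat_lit 32544133) (nat_lit 15963562) [(nat_lit 375413), (nat_lit 0), (nat_lit 2976696), (nat_lit 7624503)]) (PF.cons (PF.leaf (nat_lit 8137549) (nat_lit 381744) (nat_lit 32293982) (nat_lit 15876340) [(nat_lit 381744), (nat_lit 0), (nat_lit 2976811), (nat_lit 7599094)]) (PF.cons PF.nil PF.nil)))) (PF.cons (PF.cons (PF.leaf (nat_lit 8257966) (nat_lit 1323629) (nat_lit 31943336) (nat_lit
 15751360) [(nat_lit 0), (nat_lit 1323629), (nat_lit 2971345), (nat_lit 7559570)]) (PF.cons (PF.leaf (nat_lit 8485970) (nat_lit 387131) (nat_lit 31694247) (nat_lit 15663102) [(nat_lit 387131), (nat_lit 1328454), (nat_lit 2970169), (nat_lit 7532853)]) PF.nil)) (PF.cons PF.nil PF.nil))) (PF.cons (PF.cons (PF.cons (PF.leaf (nat_lit 8656691) (nat_lit 2946434) (nat_lit 30952613) (nat_lit 15388837) [(nat_lit 0), (nat_lit 0), (nat_lit 2946434), (nat_lit 7437246)]) (PF.cons PF.nil PF.nil)) (PF.cons PF.nil PF.nil)) PF.nil))) (PF.cons (PF.cons (PF.cons (PF.cons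 (PF.leaf (nat_lit 8315636) (nat_lit 7288322) (nat_lit 30178745) (nat_lit 15065101) [(nat_lit 0), (nat_lit 0), (nat_lit 0), (nat_lit 7288322)]) (PF.cons (PF.leaf (nat_lit 8526185) (nat_lit 366642) (nat_lit 29964352) (nat_lit 14986651) [(nat_lit 366642), (nat_lit 0), (nat_lit 0), (nat_lit 7263722)]) (PF.cons (PF.leaf (nat_lit 8744208) (nat_lit 372450) (nat_lit 29744292) (nat_lit 14905670) [(nat_lit 372450), (nat_lit 0), (nat_lit 0), (nat_lit 7237982)]) (PF.cons PF.nil PF.nil)))) (PF.cons (PF.cons (PF.leaf (nat_lit 8855138) (nat_lit 1284277) (nat_lit 29437604) (nat_lit 14790557) [(nat_lit 0), (nat_lit 1284277), (nat_lit 0), (nat_lit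
 7198790)]) (PF.cons PF.nil PF.nil)) (PF.cons PF.nil PF.nil))) (PF.cons (PF.cons (PF.cons (PF.leaf (nat_lit 9226643) (nat_lit 2836877) (nat_lit 28573434) (nat_lit 14458851) [(nat_lit 0), (nat_lit 0), (nat_lit 2836877), (nat_lit 7079883)]) (PF.cons PF.nil PF.nil)) PF.nil) PF.nil)) (PF.cons PF.nil (PF.cons PF.nil (PF.cons PF.nil (PF.cons PF.nil PF.nil))))))))

def p15_17_3_0 : pfC (piC [(nat_lit 40173837), (nat_lit 26036903), (nat_lit 19449108), (nat_lit 13056366)] (nat_lit 4861332)) p15_17_3 (nat_lit 4) (nat_lit 0) (nat_lit 1) = true := by decide +kernel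
def p15_17_3_1 : pfC (piC [(nat_lit 40173837), (nat_lit 26036903), (nat_lit 19449108), (nat_lit 13056366)] (nat_lit 4861332)) p15_17_3 (nat_lit 4) (nat_lit 1) (nat_lit 2) = true := by decide +kernel
def p15_17_3_2 : pfC (piC [(nat_lit 40173837), (nat_lit 26036903), (nat_lit 19449108), (nat_lit 13056366)] (nat_lit 4861332)) p15_17_3 (nat_lit 4) (nat_lit 2) (nat_lit 3) = true := by decide +kernel
def p15_17_3_3 : pfC (piC [(nat_lit 40173837), (nat_lit 26036903), (nat_lit 19449108), (nat_lit 13056366)] (nat_lit 4861332)) p15_17_3 (nat_lit 4) (nat_lit 3) (nat_lit 4) = true := by decide +kernel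
def p15_17_3_4 : pfC (piC [(nat_lit 40173837), (nat_lit 26036903), (nat_lit 19449108), (nat_lit 13056366)] (nat_lit 4861332)) p15_17_3 (nat_lit 4) (nat_lit 4) (nat_lit 5) = true := by decide +kernel
def p15_17_3_5 : pfC (piC [(nat_lit 40173837), (nat_lit 26036903), (nat_lit 19449108), (nat_lit 13056366)] (nat_lit 4861332)) p15_17_3 (nat_lit 4) (nat_lit 5) (nat_lit 6) = true := by decide +kernel
def p15_17_3_6 : pfC (piC [(nat_lit 40173837), (nat_lit 26036903), (nat_lit 19449108), (nat_lit 13056366)] (nat_lit 4861332)) p15_17_3 (nat_lit 4) (nat_lit 6) (nat_lit 7) = true := by decide +kernel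
def p15_17_3_7 : pfC (piC [(nat_lit 40173837), (nat_lit 26036903), (nat_lit 19449108), (nat_lit 13056366)] (nat_lit 4861332)) p15_17_3 (nat_lit 4) (nat_lit 7) (nat_lit 8) = true := by decide +kernel
def p15_17_3_8 : pfC (piC [(nat_lit 40173837), (nat_lit 26036903), (nat_lit 19449108), (nat_lit 13056366)] (nat_lit 4861332)) p15_17_3 (nat_lit 4) (nat_lit 8) (nat_lit 9) = true := by decide +kernel
def p15_17_3_9 : pfC (piC [(nat_lit 40173837), (nat_lit 26036903), (nat_lit 19449108), (nat_lit 13056366)] (nat_lit 4861332)) p15_17_3 (nat_lit 4) (nat_lit 9) (nat_lit 10) = true := by decide +kernel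
def p15_17_3_10 : pfC (piC [(nat_lit 40173837), (nat_lit 26036903), (nat_lit 19449108), (nat_lit 13056366)] (nat_lit 4861332)) p15_17_3 (nat_lit 4) (nat_lit 10) (nat_lit 11) = true := by decide +kernel
def p15_17_3_11 : pfC (piC [(nat_lit 40173837), (nat_lit 26036903), (nat_lit 19449108), (nat_lit 13056366)] (nat_lit 4861332)) p15_17_3 (nat_lit 4) (nat_lit 11) (nat_lit 12) = true := by decide +kernel
def p15_17_3_12 : pfC (piC [(nat_lit 40173837), (nat_lit 26036903), (nat_lit 19449108), (nat_lit 13056366)] (nat_lit 4861332)) p15_17_3 (nat_lit 4) (nat_lit 12) (nat_lit 13) = true := by decide +kernel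
def p15_17_3_13 : pfC (piC [(nat_lit 40173837), (nat_lit 26036903), (nat_lit 19449108), (nat_lit 13056366)] (nat_lit 4861332)) p15_17_3 (nat_lit 4) (nat_lit 13) (nat_lit 14) = true := by decide +kernel
def p15_17_3_14 : pfC (piC [(nat_lit 40173837), (nat_lit 26036903), (nat_lit 19449108), (nat_lit 13056366)] (nat_lit 4861332)) p15_17_3 (nat_lit 4) (nat_lit 14) (nat_lit 15) = true := by decide +kernel
def p15_17_3_15 : pfC (piC [(nat_lit 40173837), (nat_lit 26036903), (nat_lit 19449108), (nat_lit 13056366)] (nat_lit 4861332)) p15_17_3 (nat_lit 4) (nat_lit 15) (nat_lit 16) = true := by decide +kernel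
def p15_17_3_16 : pfC (piC [(nat_lit 40173837), (nat_lit 26036903), (nat_lit 19449108), (nat_lit 13056366)] (nat_lit 4861332)) p15_17_3 (nat_lit 4) (nat_lit 16) (nat_lit 17) = true := by decide +kernel
def p15_17_3_17 : pfC (piC [(nat_lit 40173837), (nat_lit 26036903), (nat_lit 19449108), (nat_lit 13056366)] (nat_lit 4861332)) p15_17_3 (nat_lit 4) (nat_lit 17) (nat_lit 18) = true := by decide +kernel
def p15_17_3_18 : pfC (piC [(nat_lit 40173837), (nat_lit 26036903), (nat_lit 19449108), (nat_lit 13056366)] (nat_lit 4861332)) p15_17_3 (nat_lit 4) (nat_lit 18) (nat_lit 19) = true := by decide +kernel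
def p15_17_3_19 : pfC (piC [(nat_lit 40173837), (nat_lit 26036903), (nat_lit 19449108), (nat_lit 13056366)] (nat_lit 4861332)) p15_17_3 (nat_lit 4) (nat_lit 19) (nat_lit 20) = true := by decide +kernel
def p15_17_3_20 : pfC (piC [(nat_lit 40173837), (nat_lit 26036903), (nat_lit 19449108), (nat_lit 13056366)] (nat_lit 4861332)) p15_17_3 (nat_lit 4) (nat_lit 20) (nat_lit 21) = true := by decide +kernel
def p15_17_3_21 : pfC (piC [(nat_lit 40173837), (nat_lit 26036903), (nat_lit 19449108), (nat_lit 13056366)] (nat_lit 4861332)) p15_17_3 (nat_lit 4) (nat_lit 21) (nat_lit 22) = true := by decide +kernel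
def p15_17_3_22 : pfC (piC [(nat_lit 40173837), (nat_lit 26036903), (nat_lit 19449108), (nat_lit 13056366)] (nat_lit 4861332)) p15_17_3 (nat_lit 4) (nat_lit 22) (nat_lit 23) = true := by decide +kernel
def p15_17_3_23 : pfC (piC [(nat_lit 40173837), (nat_lit 26036903), (nat_lit 19449108), (nat_lit 13056366)] (nat_lit 4861332)) p15_17_3 (nat_lit 4) (nat_lit 23) (nat_lit 24) = true := by decide +kernel
def p15_17_3_24 : pfC (piC [(nat_lit 40173837), (nat_lit 26036903), (nat_lit 19449108), (nat_lit 13056366)] (nat_lit 4861332)) p15_17_3 (nat_lit 4) (nat_lit 24) (nat_lit 25) = true := by decide +kernel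
def p15_17_3_25 : pfC (piC [(nat_lit 40173837), (nat_lit 26036903), (nat_lit 19449108), (nat_lit 13056366)] (nat_lit 4861332)) p15_17_3 (nat_lit 4) (nat_lit 25) (nat_lit 26) = true := by decide +kernel
def p15_17_3_26 : pfC (piC [(nat_lit 40173837), (nat_lit 26036903), (nat_lit 19449108), (nat_lit 13056366)] (nat_lit 4861332)) p15_17_3 (nat_lit 4) (nat_lit 26) (nat_lit 27) = true := by decide +kernel
def p15_17_3_27 : pfC (piC [(nat_lit 40173837), (nat_lit 26036903), (nat_lit 19449108), (nat_lit 13056366)] (nat_lit 4861332)) p15_17_3 (nat_lit 4) (nat_lit 27) (nat_lit 28) = true := by decide +kernel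
def p15_17_3_28 : pfC (piC [(nat_lit 40173837), (nat_lit 26036903), (nat_lit 19449108), (nat_lit 13056366)] (nat_lit 4861332)) p15_17_3 (nat_lit 4) (nat_lit 28) (nat_lit 29) = true := by decide +kernel
def p15_17_3_29 : pfC (piC [(nat_lit 40173837), (nat_lit 26036903), (nat_lit 19449108), (nat_lit 13056366)] (nat_lit 4861332)) p15_17_3 (nat_lit 4) (nat_lit 29) (nat_lit 30) = true := by decide +kernel
def p15_17_3_30 : pfC (piC [(nat_lit 40173837), (nat_lit 26036903), (nat_lit 19449108), (nat_lit 13056366)] (nat_lit 4861332)) p15_17_3 (nat_lit 4) (nat_lit 30) (nat_lit 31) = true := by decide +kernel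
def p15_17_3_31 : pfC (piC [(nat_lit 40173837), (nat_lit 26036903), (nat_lit 19449108), (nat_lit 13056366)] (nat_lit 4861332)) p15_17_3 (nat_lit 4) (nat_lit 31) (nat_lit 32) = true := by decide +kernel
def p15_17_3_32 : pfC (piC [(nat_lit 40173837), (nat_lit 26036903), (nat_lit 19449108), (nat_lit 13056366)] (nat_lit 4861332)) p15_17_3 (nat_lit 4) (nat_lit 32) (nat_lit 33) = true := by decide +kernel
def p15_17_3_33 : pfC (piC [(nat_lit 40173837), (nat_lit 26036903), (nat_lit 19449108), (nat_lit 13056366)] (nat_lit 4861332)) p15_17_3 (nat_lit 4) (nat_lit 33) (nat_lit 34) = true := by decide +kernel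
def p15_17_3_34 : pfC (piC [(nat_lit 40173837), (nat_lit 26036903), (nat_lit 19449108), (nat_lit 13056366)] (nat_lit 4861332)) p15_17_3 (nat_lit 4) (nat_lit 34) (nat_lit 35) = true := by decide +kernel
def p15_17_3_35 : pfC (piC [(nat_lit 40173837), (nat_lit 26036903), (nat_lit 19449108), (nat_lit 13056366)] (nat_lit 4861332)) p15_17_3 (nat_lit 4) (nat_lit 35) (nat_lit 36) = true := by decide +kernel
def p15_17_3_36 : pfC (piC [(nat_lit 40173837), (nat_lit 26036903), (nat_lit 19449108), (nat_lit 13056366)] (nat_lit 4861332)) p15_17_3 (nat_lit 4) (nat_lit 36) (nat_lit 37) = true := by decide +kernel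
def p15_17_3_37 : pfC (piC [(nat_lit 40173837), (nat_lit 26036903), (nat_lit 19449108), (nat_lit 13056366)] (nat_lit 4861332)) p15_17_3 (nat_lit 4) (nat_lit 37) (nat_lit 38) = true := by decide +kernel
def p15_17_3_38 : pfC (piC [(nat_lit 40173837), (nat_lit 26036903), (nat_lit 19449108), (nat_lit 13056366)] (nat_lit 4861332)) p15_17_3 (nat_lit 4) (nat_lit 38) (nat_lit 39) = true := by decide +kernel
def p15_17_3_39 : pfC (piC [(nat_lit 40173837), (nat_lit 26036903), (nat_lit 19449108), (nat_lit 13056366)] (nat_lit 4861332)) p15_17_3 (nat_lit 4) (nat_lit 39) (nat_lit 40) = true := by decide +kernel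
def p15_17_3_40 : pfC (piC [(nat_lit 40173837), (nat_lit 26036903), (nat_lit 19449108), (nat_lit 13056366)] (nat_lit 4861332)) p15_17_3 (nat_lit 4) (nat_lit 40) (nat_lit 41) = true := by decide +kernel
def p15_17_3_41 : pfC (piC [(nat_lit 40173837), (nat_lit 26036903), (nat_lit 19449108), (nat_lit 13056366)] (nat_lit 4861332)) p15_17_3 (nat_lit 4) (nat_lit 41) (nat_lit 42) = true := by decide +kernel
def p15_17_3_42 : pfC (piC [(nat_lit 40173837), (nat_lit 26036903), (nat_lit 19449108), (nat_lit 13056366)] (nat_lit 4861332)) p15_17_3 (nat_lit 4) (nat_lit 42) (nat_lit 43) = true := by decide +kernel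
def p15_17_3_43 : pfC (piC [(nat_lit 40173837), (nat_lit 26036903), (nat_lit 19449108), (nat_lit 13056366)] (nat_lit 4861332)) p15_17_3 (nat_lit 4) (nat_lit 43) (nat_lit 44) = true := by decide +kernel
def p15_17_3_44 : pfC (piC [(nat_lit 40173837), (nat_lit 26036903), (nat_lit 19449108), (nat_lit 13056366)] (nat_lit 4861332)) p15_17_3 (nat_lit 4) (nat_lit 44) (nat_lit 45) = true := by decide +kernel
def p15_17_3_45 : pfC (piC [(nat_lit 40173837), (nat_lit 26036903), (nat_lit 19449108), (nat_lit 13056366)] (nat_lit 4861332)) p15_17_3 (nat_lit 4) (nat_lit 45) (nat_lit 46) = true := by decide +kernel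
def p15_17_3_46 : pfC (piC [(nat_lit 40173837), (nat_lit 26036903), (nat_lit 19449108), (nat_lit 13056366)] (nat_lit 4861332)) p15_17_3 (nat_lit 4) (nat_lit 46) (nat_lit 47) = true := by decide +kernel
def p15_17_3_47 : pfC (piC [(nat_lit 40173837), (nat_lit 26036903), (nat_lit 19449108), (nat_lit 13056366)] (nat_lit 4861332)) p15_17_3 (nat_lit 4) (nat_lit 47) (nat_lit 48) = true := by decide +kernel
def p15_17_3_48 : pfC (piC [(nat_lit 40173837), (nat_lit 26036903), (nat_lit 19449108), (nat_lit 13056366)] (nat_lit 4861332)) p15_17_3 (nat_lit 4) (nat_lit 48) (nat_lit 49) = true := by decide +kernel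
def p15_17_3_49 : pfC (piC [(nat_lit 40173837), (nat_lit 26036903), (nat_lit 19449108), (nat_lit 13056366)] (nat_lit 4861332)) p15_17_3 (nat_lit 4) (nat_lit 49) (nat_lit 50) = true := by decide +kernel
def p15_17_3_50 : pfC (piC [(nat_lit 40173837), (nat_lit 26036903), (nat_lit 19449108), (nat_lit 13056366)] (nat_lit 4861332)) p15_17_3 (nat_lit 4) (nat_lit 50) (nat_lit 51) = true := by decide +kernel
def p15_17_3_51 : pfC (piC [(nat_lit 40173837), (nat_lit 26036903), (nat_lit 19449108), (nat_lit 13056366)] (nat_lit 4861332)) p15_17_3 (nat_lit 4) (nat_lit 51) (nat_lit 52) = true := by decide +kernel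
def p15_17_3_52 : pfC (piC [(nat_lit 40173837), (nat_lit 26036903), (nat_lit 19449108), (nat_lit 13056366)] (nat_lit 4861332)) p15_17_3 (nat_lit 4) (nat_lit 52) (nat_lit 53) = true := by decide +kernel
def p15_17_3_53 : pfC (piC [(nat_lit 40173837), (nat_lit 26036903), (nat_lit 19449108), (nat_lit 13056366)] (nat_lit 4861332)) p15_17_3 (nat_lit 4) (nat_lit 53) (nat_lit 54) = true := by decide +kernel
def p15_17_3_54 : pfC (piC [(nat_lit 40173837), (nat_lit 26036903), (nat_lit 19449108), (nat_lit 13056366)] (nat_lit 4861332)) p15_17_3 (nat_lit 4) (nat_lit 54) (nat_lit 55) = true := by decide +kernel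
def p15_17_3_55 : pfC (piC [(nat_lit 40173837), (nat_lit 26036903), (nat_lit 19449108), (nat_lit 13056366)] (nat_lit 4861332)) p15_17_3 (nat_lit 4) (nat_lit 55) (nat_lit 56) = true := by decide +kernel
def p15_17_3_56 : pfC (piC [(nat_lit 40173837), (nat_lit 26036903), (nat_lit 19449108), (nat_lit 13056366)] (nat_lit 4861332)) p15_17_3 (nat_lit 4) (nat_lit 56) (nat_lit 57) = true := by decide +kernel
def p15_17_3_57 : pfC (piC [(nat_lit 40173837), (nat_lit 26036903), (nat_lit 19449108), (nat_lit 13056366)] (nat_lit 4861332)) p15_17_3 (nat_lit 4) (nat_lit 57) (nat_lit 58) = true := by decide +kernel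
def p15_17_3_58 : pfC (piC [(nat_lit 40173837), (nat_lit 26036903), (nat_lit 19449108), (nat_lit 13056366)] (nat_lit 4861332)) p15_17_3 (nat_lit 4) (nat_lit 58) (nat_lit 59) = true := by decide +kernel
def p15_17_3_59 : pfC (piC [(nat_lit 40173837), (nat_lit 26036903), (nat_lit 19449108), (nat_lit 13056366)] (nat_lit 4861332)) p15_17_3 (nat_lit 4) (nat_lit 59) (nat_lit 60) = true := by decide +kernel
def p15_17_3_60 : pfC (piC [(nat_lit 40173837), (nat_lit 26036903), (nat_lit 19449108), (nat_lit 13056366)] (nat_lit 4861332)) p15_17_3 (nat_lit 4) (nat_lit 60) (nat_lit 61) = true := by decide +kernel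
def p15_17_3_61 : pfC (piC [(nat_lit 40173837), (nat_lit 26036903), (nat_lit 19449108), (nat_lit 13056366)] (nat_lit 4861332)) p15_17_3 (nat_lit 4) (nat_lit 61) (nat_lit 62) = true := by decide +kernel
def p15_17_3_62 : pfC (piC [(nat_lit 40173837), (nat_lit 26036903), (nat_lit 19449108), (nat_lit 13056366)] (nat_lit 4861332)) p15_17_3 (nat_lit 4) (nat_lit 62) (nat_lit 63) = true := by decide +kernel
def p15_17_3_63 : pfC (piC [(nat_lit 40173837), (nat_lit 26036903), (nat_lit 19449108), (nat_lit 13056366)] (nat_lit 4861332)) p15_17_3 (nat_lit 4) (nat_lit 63) (nat_lit 64) = true := by decide +kernel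
def p15_17_3_64 : pfC (piC [(nat_lit 40173837), (nat_lit 26036903), (nat_lit 19449108), (nat_lit 13056366)] (nat_lit 4861332)) p15_17_3 (nat_lit 4) (nat_lit 64) (nat_lit 65) = true := by decide +kernel
def p15_17_3_65 : pfC (piC [(nat_lit 40173837), (nat_lit 26036903), (nat_lit 19449108), (nat_lit 13056366)] (nat_lit 4861332)) p15_17_3 (nat_lit 4) (nat_lit 65) (nat_lit 66) = true := by decide +kernel
def p15_17_3_66 : pfC (piC [(nat_lit 40173837), (nat_lit 26036903), (nat_lit 19449108), (nat_lit 13056366)] (nat_lit 4861332)) p15_17_3 (nat_lit 4) (nat_lit 66) (nat_lit 67) = true := by decide +kernel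
def p15_17_3_67 : pfC (piC [(nat_lit 40173837), (nat_lit 26036903), (nat_lit 19449108), (nat_lit 13056366)] (nat_lit 4861332)) p15_17_3 (nat_lit 4) (nat_lit 67) (nat_lit 68) = true := by decide +kernel
def p15_17_3_68 : pfC (piC [(nat_lit 40173837), (nat_lit 26036903), (nat_lit 19449108), (nat_lit 13056366)] (nat_lit 4861332)) p15_17_3 (nat_lit 4) (nat_lit 68) (nat_lit 69) = true := by decide +kernel
def p15_17_3_69 : pfC (piC [(nat_lit 40173837), (nat_lit 26036903), (nat_lit 19449108), (nat_lit 13056366)] (nat_lit 4861332)) p15_17_3 (nat_lit 4) (nat_lit 69) (nat_lit 70) = true := by decide +kernel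
def p15_17_3_70 : pfC (piC [(nat_lit 40173837), (nat_lit 26036903), (nat_lit 19449108), (nat_lit 13056366)] (nat_lit 4861332)) p15_17_3 (nat_lit 4) (nat_lit 70) (nat_lit 71) = true := by decide +kernel
def p15_17_3_71 : pfC (piC [(nat_lit 40173837), (nat_lit 26036903), (nat_lit 19449108), (nat_lit 13056366)] (nat_lit 4861332)) p15_17_3 (nat_lit 4) (nat_lit 71) (nat_lit 72) = true := by decide +kernel
def p15_17_3_72 : pfC (piC [(nat_lit 40173837), (nat_lit 26036903), (nat_lit 19449108), (nat_lit 13056366)] (nat_lit 4861332)) p15_17_3 (nat_lit 4) (nat_lit 72) (nat_lit 73) = true := by decide +kernel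
def p15_17_3_73 : pfC (piC [(nat_lit 40173837), (nat_lit 26036903), (nat_lit 19449108), (nat_lit 13056366)] (nat_lit 4861332)) p15_17_3 (nat_lit 4) (nat_lit 73) (nat_lit 74) = true := by decide +kernel
def p15_17_3_74 : pfC (piC [(nat_lit 40173837), (nat_lit 26036903), (nat_lit 19449108), (nat_lit 13056366)] (nat_lit 4861332)) p15_17_3 (nat_lit 4) (nat_lit 74) (nat_lit 75) = true := by decide +kernel
def p15_17_3_75 : pfC (piC [(nat_lit 40173837), (nat_lit 26036903), (nat_lit 19449108), (nat_lit 13056366)] (nat_lit 4861332)) p15_17_3 (nat_lit 4) (nat_lit 75) (nat_lit 76) = true := by decide +kernel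
def p15_17_3_76 : pfC (piC [(nat_lit 40173837), (nat_lit 26036903), (nat_lit 19449108), (nat_lit 13056366)] (nat_lit 4861332)) p15_17_3 (nat_lit 4) (nat_lit 76) (nat_lit 77) = true := by decide +kernel
def p15_17_3_77 : pfC (piC [(nat_lit 40173837), (nat_lit 26036903), (nat_lit 19449108), (nat_lit 13056366)] (nat_lit 4861332)) p15_17_3 (nat_lit 4) (nat_lit 77) (nat_lit 78) = true := by decide +kernel
def p15_17_3_78 : pfC (piC [(nat_lit 40173837), (nat_lit 26036903), (nat_lit 19449108), (nat_lit 13056366)] (nat_lit 4861332)) p15_17_3 (nat_lit 4) (nat_lit 78) (nat_lit 79) = true := by decide +kernel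
def p15_17_3_79 : pfC (piC [(nat_lit 40173837), (nat_lit 26036903), (nat_lit 19449108), (nat_lit 13056366)] (nat_lit 4861332)) p15_17_3 (nat_lit 4) (nat_lit 79) (nat_lit 80) = true := by decide +kernel
def p15_17_3_80 : pfC (piC [(nat_lit 40173837), (nat_lit 26036903), (nat_lit 19449108), (nat_lit 13056366)] (nat_lit 4861332)) p15_17_3 (nat_lit 4) (nat_lit 80) (nat_lit 81) = true := by decide +kernel
def p15_17_3_81 : pfC (piC [(nat_lit 40173837), (nat_lit 26036903), (nat_lit 19449108), (nat_lit 13056366)] (nat_lit 4861332)) p15_17_3 (nat_lit 4) (nat_lit 81) (nat_lit 82) = true := by decide +kernel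
def p15_17_3_82 : pfC (piC [(nat_lit 40173837), (nat_lit 26036903), (nat_lit 19449108), (nat_lit 13056366)] (nat_lit 4861332)) p15_17_3 (nat_lit 4) (nat_lit 82) (nat_lit 83) = true := by decide +kernel
def p15_17_3_83 : pfC (piC [(nat_lit 40173837), (nat_lit 26036903), (nat_lit 19449108), (nat_lit 13056366)] (nat_lit 4861332)) p15_17_3 (nat_lit 4) (nat_lit 83) (nat_lit 84) = true := by decide +kernel
def p15_17_3_84 : pfC (piC [(nat_lit 40173837), (nat_lit 26036903), (nat_lit 19449108), (nat_lit 13056366)] (nat_lit 4861332)) p15_17_3 (nat_lit 4) (nat_lit 84) (nat_lit 85) = true := by decide +kernel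
def p15_17_3_85 : pfC (piC [(nat_lit 40173837), (nat_lit 26036903), (nat_lit 19449108), (nat_lit 13056366)] (nat_lit 4861332)) p15_17_3 (nat_lit 4) (nat_lit 85) (nat_lit 86) = true := by decide +kernel
def p15_17_3_86 : pfC (piC [(nat_lit 40173837), (nat_lit 26036903), (nat_lit 19449108), (nat_lit 13056366)] (nat_lit 4861332)) p15_17_3 (nat_lit 4) (nat_lit 86) (nat_lit 87) = true := by decide +kernel
def p15_17_3_87 : pfC (piC [(nat_lit 40173837), (nat_lit 26036903), (nat_lit 19449108), (nat_lit 13056366)] (nat_lit 4861332)) p15_17_3 (nat_lit 4) (nat_lit 87) (nat_lit 88) = true := by decide +kernel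
def p15_17_3_88 : pfC (piC [(nat_lit 40173837), (nat_lit 26036903), (nat_lit 19449108), (nat_lit 13056366)] (nat_lit 4861332)) p15_17_3 (nat_lit 4) (nat_lit 88) (nat_lit 89) = true := by decide +kernel
def p15_17_3_89 : pfC (piC [(nat_lit 40173837), (nat_lit 26036903), (nat_lit 19449108), (nat_lit 13056366)] (nat_lit 4861332)) p15_17_3 (nat_lit 4) (nat_lit 89) (nat_lit 90) = true := by decide +kernel
def p15_17_3_90 : pfC (piC [(nat_lit 40173837), (nat_lit 26036903), (nat_lit 19449108), (nat_lit 13056366)] (nat_lit 4861332)) p15_17_3 (nat_lit 4) (nat_lit 90) (nat_lit 91) = true := by decide +kernel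
def p15_17_3_91 : pfC (piC [(nat_lit 40173837), (nat_lit 26036903), (nat_lit 19449108), (nat_lit 13056366)] (nat_lit 4861332)) p15_17_3 (nat_lit 4) (nat_lit 91) (nat_lit 92) = true := by decide +kernel
def p15_17_3_92 : pfC (piC [(nat_lit 40173837), (nat_lit 26036903), (nat_lit 19449108), (nat_lit 13056366)] (nat_lit 4861332)) p15_17_3 (nat_lit 4) (nat_lit 92) (nat_lit 93) = true := by decide +kernel
def p15_17_3_93 : pfC (piC [(nat_lit 40173837), (nat_lit 26036903), (nat_lit 19449108), (nat_lit 13056366)] (nat_lit 4861332)) p15_17_3 (nat_lit 4) (nat_lit 93) (nat_lit 94) = true := by decide +kernel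
def p15_17_3_94 : pfC (piC [(nat_lit 40173837), (nat_lit 26036903), (nat_lit 19449108), (nat_lit 13056366)] (nat_lit 4861332)) p15_17_3 (nat_lit 4) (nat_lit 94) (nat_lit 95) = true := by decide +kernel
def p15_17_3_95 : pfC (piC [(nat_lit 40173837), (nat_lit 26036903), (nat_lit 19449108), (nat_lit 13056366)] (nat_lit 4861332)) p15_17_3 (nat_lit 4) (nat_lit 95) (nat_lit 96) = true := by decide +kernel
def p15_17_3_96 : pfC (piC [(nat_lit 40173837), (nat_lit 26036903), (nat_lit 19449108), (nat_lit 13056366)] (nat_lit 4861332)) p15_17_3 (nat_lit 4) (nat_lit 96) (nat_lit 97) = true := by decide +kernel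
def p15_17_3_97 : pfC (piC [(nat_lit 40173837), (nat_lit 26036903), (nat_lit 19449108), (nat_lit 13056366)] (nat_lit 4861332)) p15_17_3 (nat_lit 4) (nat_lit 97) (nat_lit 98) = true := by decide +kernel
def p15_17_3_98 : pfC (piC [(nat_lit 40173837), (nat_lit 26036903), (nat_lit 19449108), (nat_lit 13056366)] (nat_lit 4861332)) p15_17_3 (nat_lit 4) (nat_lit 98) (nat_lit 99) = true := by decide +kernel
def p15_17_3_99 : pfC (piC [(nat_lit 40173837), (nat_lit 26036903), (nat_lit 19449108), (nat_lit 13056366)] (nat_lit 4861332)) p15_17_3 (nat_lit 4) (nat_lit 99) (nat_lit 100) = true := by decide +kernel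
def p15_17_3_100 : pfC (piC [(nat_lit 40173837), (nat_lit 26036903), (nat_lit 19449108), (nat_lit 13056366)] (nat_lit 4861332)) p15_17_3 (nat_lit 4) (nat_lit 100) (nat_lit 101) = true := by decide +kernel
def p15_17_3_101 : pfC (piC [(nat_lit 40173837), (nat_lit 26036903), (nat_lit 19449108), (nat_lit 13056366)] (nat_lit 4861332)) p15_17_3 (nat_lit 4) (nat_lit 101) (nat_lit 102) = true := by decide +kernel
def p15_17_3_102 : pfC (piC [(nat_lit 40173837), (nat_lit 26036903), (nat_lit 19449108), (nat_lit 13056366)] (nat_lit 4861332)) p15_17_3 (nat_lit 4) (nat_lit 102) (nat_lit 103) = true := by decide +kernel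
def p15_17_3_103 : pfC (piC [(nat_lit 40173837), (nat_lit 26036903), (nat_lit 19449108), (nat_lit 13056366)] (nat_lit 4861332)) p15_17_3 (nat_lit 4) (nat_lit 103) (nat_lit 104) = true := by decide +kernel
def p15_17_3_104 : pfC (piC [(nat_lit 40173837), (nat_lit 26036903), (nat_lit 19449108), (nat_lit 13056366)] (nat_lit 4861332)) p15_17_3 (nat_lit 4) (nat_lit 104) (nat_lit 105) = true := by decide +kernel
def p15_17_3_105 : pfC (piC [(nat_lit 40173837), (nat_lit 26036903), (nat_lit 19449108), (nat_lit 13056366)] (nat_lit 4861332)) p15_17_3 (nat_lit 4) (nat_lit 105) (nat_lit 106) = true := by decide +kernel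
def p15_17_3_106 : pfC (piC [(nat_lit 40173837), (nat_lit 26036903), (nat_lit 19449108), (nat_lit 13056366)] (nat_lit 4861332)) p15_17_3 (nat_lit 4) (nat_lit 106) (nat_lit 107) = true := by decide +kernel
def p15_17_3_107 : pfC (piC [(nat_lit 40173837), (nat_lit 26036903), (nat_lit 19449108), (nat_lit 13056366)] (nat_lit 4861332)) p15_17_3 (nat_lit 4) (nat_lit 107) (nat_lit 108) = true := by decide +kernel
def p15_17_3_108 : pfC (piC [(nat_lit 40173837), (nat_lit 26036903), (nat_lit 19449108), (nat_lit 13056366)] (nat_lit 4861332)) p15_17_3 (nat_lit 4) (nat_lit 108) (nat_lit 109) = true := by decide +kernel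
def p15_17_3_109 : pfC (piC [(nat_lit 40173837), (nat_lit 26036903), (nat_lit 19449108), (nat_lit 13056366)] (nat_lit 4861332)) p15_17_3 (nat_lit 4) (nat_lit 109) (nat_lit 110) = true := by decide +kernel
def p15_17_3_110 : pfC (piC [(nat_lit 40173837), (nat_lit 26036903), (nat_lit 19449108), (nat_lit 13056366)] (nat_lit 4861332)) p15_17_3 (nat_lit 4) (nat_lit 110) (nat_lit 111) = true := by decide +kernel
def p15_17_3_111 : pfC (piC [(nat_lit 40173837), (nat_lit 26036903), (nat_lit 19449108), (nat_lit 13056366)] (nat_lit 4861332)) p15_17_3 (nat_lit 4) (nat_lit 111) (nat_lit 112) = true := by decide +kernel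
def p15_17_3_112 : pfC (piC [(nat_lit 40173837), (nat_lit 26036903), (nat_lit 19449108), (nat_lit 13056366)] (nat_lit 4861332)) p15_17_3 (nat_lit 4) (nat_lit 112) (nat_lit 113) = true := by decide +kernel
def p15_17_3_113 : pfC (piC [(nat_lit 40173837), (nat_lit 26036903), (nat_lit 19449108), (nat_lit 13056366)] (nat_lit 4861332)) p15_17_3 (nat_lit 4) (nat_lit 113) (nat_lit 114) = true := by decide +kernel
def p15_17_3_114 : pfC (piC [(nat_lit 40173837), (nat_lit 26036903), (nat_lit 19449108), (nat_lit 13056366)] (nat_lit 4861332)) p15_17_3 (nat_lit 4) (nat_lit 114) (nat_lit 115) = true := by decide +kernel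
def p15_17_3_115 : pfC (piC [(nat_lit 40173837), (nat_lit 26036903), (nat_lit 19449108), (nat_lit 13056366)] (nat_lit 4861332)) p15_17_3 (nat_lit 4) (nat_lit 115) (nat_lit 116) = true := by decide +kernel
def p15_17_3_116 : pfC (piC [(nat_lit 40173837), (nat_lit 26036903), (nat_lit 19449108), (nat_lit 13056366)] (nat_lit 4861332)) p15_17_3 (nat_lit 4) (nat_lit 116) (nat_lit 117) = true := by decide +kernel
def p15_17_3_117 : pfC (piC [(nat_lit 40173837), (nat_lit 26036903), (nat_lit 19449108), (nat_lit 13056366)] (nat_lit 4861332)) p15_17_3 (nat_lit 4) (nat_lit 117) (nat_lit 118) = true := by decide +kernel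
def p15_17_3_118 : pfC (piC [(nat_lit 40173837), (nat_lit 26036903), (nat_lit 19449108), (nat_lit 13056366)] (nat_lit 4861332)) p15_17_3 (nat_lit 4) (nat_lit 118) (nat_lit 119) = true := by decide +kernel
def p15_17_3_119 : pfC (piC [(nat_lit 40173837), (nat_lit 26036903), (nat_lit 19449108), (nat_lit 13056366)] (nat_lit 4861332)) p15_17_3 (nat_lit 4) (nat_lit 119) (nat_lit 120) = true := by decide +kernel
def p15_17_3_120 : pfC (piC [(nat_lit 40173837), (nat_lit 26036903), (nat_lit 19449108), (nat_lit 13056366)] (nat_lit 4861332)) p15_17_3 (nat_lit 4) (nat_lit 120) (nat_lit 121) = true := by decide +kernel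
def p15_17_3_121 : pfC (piC [(nat_lit 40173837), (nat_lit 26036903), (nat_lit 19449108), (nat_lit 13056366)] (nat_lit 4861332)) p15_17_3 (nat_lit 4) (nat_lit 121) (nat_lit 122) = true := by decide +kernel
def p15_17_3_122 : pfC (piC [(nat_lit 40173837), (nat_lit 26036903), (nat_lit 19449108), (nat_lit 13056366)] (nat_lit 4861332)) p15_17_3 (nat_lit 4) (nat_lit 122) (nat_lit 123) = true := by decide +kernel
def p15_17_3_123 : pfC (piC [(nat_lit 40173837), (nat_lit 26036903), (nat_lit 19449108), (nat_lit 13056366)] (nat_lit 4861332)) p15_17_3 (nat_lit 4) (nat_lit 123) (nat_lit 124) = true := by decide +kernel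
def p15_17_3_124 : pfC (piC [(nat_lit 40173837), (nat_lit 26036903), (nat_lit 19449108), (nat_lit 13056366)] (nat_lit 4861332)) p15_17_3 (nat_lit 4) (nat_lit 124) (nat_lit 125) = true := by decide +kernel
def p15_17_3_125 : pfC (piC [(nat_lit 40173837), (nat_lit 26036903), (nat_lit 19449108), (nat_lit 13056366)] (nat_lit 4861332)) p15_17_3 (nat_lit 4) (nat_lit 125) (nat_lit 126) = true := by decide +kernel
def p15_17_3_126 : pfC (piC [(nat_lit 40173837), (nat_lit 26036903), (nat_lit 19449108), (nat_lit 13056366)] (nat_lit 4861332)) p15_17_3 (nat_lit 4) (nat_lit 126) (nat_lit 127) = true := by decide +kernel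
def p15_17_3_127 : pfC (piC [(nat_lit 40173837), (nat_lit 26036903), (nat_lit 19449108), (nat_lit 13056366)] (nat_lit 4861332)) p15_17_3 (nat_lit 4) (nat_lit 127) (nat_lit 128) = true := by decide +kernel
def p15_17_3_128 : pfC (piC [(nat_lit 40173837), (nat_lit 26036903), (nat_lit 19449108), (nat_lit 13056366)] (nat_lit 4861332)) p15_17_3 (nat_lit 4) (nat_lit 128) (nat_lit 129) = true := by decide +kernel
def p15_17_3_129 : pfC (piC [(nat_lit 40173837), (nat_lit 26036903), (nat_lit 19449108), (nat_lit 13056366)] (nat_lit 4861332)) p15_17_3 (nat_lit 4) (nat_lit 129) (nat_lit 130) = true := by decide +kernel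
def p15_17_3_130 : pfC (piC [(nat_lit 40173837), (nat_lit 26036903), (nat_lit 19449108), (nat_lit 13056366)] (nat_lit 4861332)) p15_17_3 (nat_lit 4) (nat_lit 130) (nat_lit 131) = true := by decide +kernel
def p15_17_3_131 : pfC (piC [(nat_lit 40173837), (nat_lit 26036903), (nat_lit 19449108), (nat_lit 13056366)] (nat_lit 4861332)) p15_17_3 (nat_lit 4) (nat_lit 131) (nat_lit 132) = true := by decide +kernel
def p15_17_3_132 : pfC (piC [(nat_lit 40173837), (nat_lit 26036903), (nat_lit 19449108), (nat_lit 13056366)] (nat_lit 4861332)) p15_17_3 (nat_lit 4) (nat_lit 132) (nat_lit 133) = true := by decide +kernel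
def p15_17_3_133 : pfC (piC [(nat_lit 40173837), (nat_lit 26036903), (nat_lit 19449108), (nat_lit 13056366)] (nat_lit 4861332)) p15_17_3 (nat_lit 4) (nat_lit 133) (nat_lit 134) = true := by decide +kernel
def p15_17_3_134 : pfC (piC [(nat_lit 40173837), (nat_lit 26036903), (nat_lit 19449108), (nat_lit 13056366)] (nat_lit 4861332)) p15_17_3 (nat_lit 4) (nat_lit 134) (nat_lit 135) = true := by decide +kernel
def p15_17_3_135 : pfC (piC [(nat_lit 40173837), (nat_lit 26036903), (nat_lit 19449108), (nat_lit 13056366)] (nat_lit 4861332)) p15_17_3 (nat_lit 4) (nat_lit 135) (nat_lit 136) = true := by decide +kernel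
def p15_17_3_136 : pfC (piC [(nat_lit 40173837), (nat_lit 26036903), (nat_lit 19449108), (nat_lit 13056366)] (nat_lit 4861332)) p15_17_3 (nat_lit 4) (nat_lit 136) (nat_lit 137) = true := by decide +kernel
def p15_17_3_137 : pfC (piC [(nat_lit 40173837), (nat_lit 26036903), (nat_lit 19449108), (nat_lit 13056366)] (nat_lit 4861332)) p15_17_3 (nat_lit 4) (nat_lit 137) (nat_lit 138) = true := by decide +kernel
def p15_17_3_138 : pfC (piC [(nat_lit 40173837), (nat_lit 26036903), (nat_lit 19449108), (nat_lit 13056366)] (nat_lit 4861332)) p15_17_3 (nat_lit 4) (nat_lit 138) (nat_lit 139) = true := by decide +kernel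
theorem p15_17_3_T : PfS (PiF n15_17.reverse (nat_lit 4861332)) p15_17_3 (nat_lit 4) [] 0 :=
  pftab_of (los := [(nat_lit 40173837), (nat_lit 26036903), (nat_lit 19449108), (nat_lit 13056366)]) (by decide +kernel) (hi := (nat_lit 139)) (PfP.trans (PfP.trans (PfP.trans (PfP.trans (PfP.trans (PfP.trans (PfP.trans (PfP.trans (PfP.trans (PfP.trans (PfP.trans (PfP.trans (PfP.trans (PfP.trans (PfP.trans (PfP.trans (PfP.trans (PfP.trans (PfP.trans (PfP.trans (PfP.trans (PfP.trans (PfP.trans (PfP.trans (PfP.trans (PfP.trans (PfP.trans (PfP.trans (PfP.trans (PfP.trans (PfP.trans (PfP.trans (PfP.trans (PfP.trans (PfP.trans (PfP.trans (PfP.trans (PfP.trans (PfP.trans (PfP.trans (PfP.trans (PfP.trans (PfP.trans (PfP.trans (PfP.trans (PfP.trans (PfP.trans (PfP.trans (PfP.trans (PfP.trans (PfP.trans (PfP.trans (PfP.trans (PfP.trans (PfP.trans (PfP.trans (PfP.trans (PfP.trans (PfP.trans (PfP.trans (PfP.trans (PfP.trans (PfP.trans (PfP.trans (PfP.trans (PfP.trans (PfP.trans (PfP.trans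 (PfP.trans (PfP.trans (PfP.trans (PfP.trans (PfP.trans (PfP.trans (PfP.trans (PfP.trans (PfP.trans (PfP.trans (PfP.trans (PfP.trans (PfP.trans (PfP.trans (PfP.trans (PfP.trans (PfP.trans (PfP.trans (PfP.trans (PfP.trans (PfP.trans (PfP.trans (PfP.trans (PfP.trans (PfP.trans (PfP.trans (PfP.trans (PfP.trans (PfP.trans (PfP.trans (PfP.trans (PfP.trans (PfP.trans (PfP.trans (PfP.trans (PfP.trans (PfP.trans (PfP.trans (PfP.trans (PfP.trans (PfP.trans
 (PfP.trans (PfP.trans (PfP.trans (PfP.trans (PfP.trans (PfP.trans (PfP.trans (PfP.trans (PfP.trans (PfP.trans (PfP.trans (PfP.trans (PfP.trans (PfP.trans (PfP.trans (PfP.trans (PfP.trans (PfP.trans (PfP.trans (PfP.trans (PfP.trans (PfP.trans (PfP.trans (PfP.trans (PfP.trans (PfP.trans (PfP.trans (PfP.trans (PfP.trans (pfC_sound p15_17_3_0) (pfC_sound p15_17_3_1)) (pfC_sound p15_17_3_2)) (pfC_sound p15_17_3_3)) (pfC_sound p15_17_3_4)) (pfC_sound p15_17_3_5)) (pfC_sound p15_17_3_6)) (pfC_sound p15_17_3_7)) (pfC_sound p15_17_3_8))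 (pfC_sound p15_17_3_9)) (pfC_sound p15_17_3_10)) (pfC_sound p15_17_3_11)) (pfC_sound p15_17_3_12)) (pfC_sound p15_17_3_13)) (pfC_sound p15_17_3_14)) (pfC_sound p15_17_3_15)) (pfC_sound p15_17_3_16)) (pfC_sound p15_17_3_17)) (pfC_sound p15_17_3_18)) (pfC_sound p15_17_3_19)) (pfC_sound p15_17_3_20)) (pfC_sound p15_17_3_21)) (pfC_sound p15_17_3_22)) (pfC_sound p15_17_3_23)) (pfC_sound p15_17_3_24)) (pfC_sound p15_17_3_25)) (pfC_sound p15_17_3_26)) (pfC_sound p15_17_3_27)) (pfC_sound p15_17_3_28)) (pfC_sound p15_17_3_29)) (pfC_sound p15_17_3_30)) (pfC_sound p15_17_3_31)) (pfC_sound p15_17_3_32)) (pfC_sound p15_17_3_33)) (pfC_sound p15_17_3_34)) (pfC_sound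
 p15_17_3_35)) (pfC_sound p15_17_3_36)) (pfC_sound p15_17_3_37)) (pfC_sound p15_17_3_38)) (pfC_sound p15_17_3_39)) (pfC_sound p15_17_3_40)) (pfC_sound p15_17_3_41)) (pfC_sound p15_17_3_42)) (pfC_sound p15_17_3_43)) (pfC_sound p15_17_3_44)) (pfC_sound p15_17_3_45)) (pfC_sound p15_17_3_46)) (pfC_sound p15_17_3_47)) (pfC_sound p15_17_3_48)) (pfC_sound p15_17_3_49)) (pfC_sound p15_17_3_50)) (pfC_sound p15_17_3_51)) (pfC_sound p15_17_3_52)) (pfC_sound p15_17_3_53)) (pfC_sound p15_17_3_54)) (pfC_sound p15_17_3_55)) (pfC_sound p15_17_3_56)) (pfC_sound p15_17_3_57)) (pfC_sound p15_17_3_58)) (pfC_sound p15_17_3_59)) (pfC_sound p15_17_3_60)) (pfC_sound p15_17_3_61)) (pfC_sound p15_17_3_62)) (pfC_sound p15_17_3_63)) (pfC_sound p15_17_3_64)) (pfC_sound p15_17_3_65)) (pfC_sound p15_17_3_66)) (pfC_sound p15_17_3_67)) (pfC_sound p15_17_3_68)) (pfC_sound p15_17_3_69)) (pfC_sound p15_17_3_70)) (pfC_sound p15_17_3_71)) (pfC_sound p15_17_3_72)) (pfC_sound p15_17_3_73)) (pfC_sound p15_17_3_74))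 (pfC_sound p15_17_3_75)) (pfC_sound p15_17_3_76)) (pfC_sound p15_17_3_77)) (pfC_sound p15_17_3_78)) (pfC_sound p15_17_3_79)) (pfC_sound p15_17_3_80)) (pfC_sound p15_17_3_81)) (pfC_sound p15_17_3_82)) (pfC_sound
 p15_17_3_83)) (pfC_sound p15_17_3_84)) (pfC_sound p15_17_3_85)) (pfC_sound p15_17_3_86)) (pfC_sound p15_17_3_87)) (pfC_sound p15_17_3_88)) (pfC_sound p15_17_3_89)) (pfC_sound p15_17_3_90)) (pfC_sound p15_17_3_91)) (pfC_sound p15_17_3_92)) (pfC_sound p15_17_3_93)) (pfC_sound p15_17_3_94)) (pfC_sound p15_17_3_95)) (pfC_sound p15_17_3_96)) (pfC_sound p15_17_3_97)) (pfC_sound p15_17_3_98)) (pfC_sound p15_17_3_99)) (pfC_sound p15_17_3_100)) (pfC_sound p15_17_3_101)) (pfC_sound p15_17_3_102)) (pfC_sound p15_17_3_103)) (pfC_sound p15_17_3_104)) (pfC_sound p15_17_3_105)) (pfC_sound p15_17_3_106)) (pfC_sound p15_17_3_107)) (pfC_sound p15_17_3_108)) (pfC_sound p15_17_3_109)) (pfC_sound p15_17_3_110)) (pfC_sound p15_17_3_111)) (pfC_sound p15_17_3_112)) (pfC_sound p15_17_3_113))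 (pfC_sound p15_17_3_114)) (pfC_sound p15_17_3_115)) (pfC_sound p15_17_3_116)) (pfC_sound p15_17_3_117)) (pfC_sound p15_17_3_118)) (pfC_sound p15_17_3_119)) (pfC_sound p15_17_3_120)) (pfC_sound p15_17_3_121)) (pfC_sound p15_17_3_122)) (pfC_sound p15_17_3_123)) (pfC_sound p15_17_3_124)) (pfC_sound p15_17_3_125)) (pfC_sound p15_17_3_126)) (pfC_sound p15_17_3_127)) (pfC_sound p15_17_3_128)) (pfC_sound p15_17_3_129))
 (pfC_sound p15_17_3_130)) (pfC_sound p15_17_3_131)) (pfC_sound p15_17_3_132)) (pfC_sound p15_17_3_133)) (pfC_sound p15_17_3_134)) (pfC_sound p15_17_3_135)) (pfC_sound p15_17_3_136)) (pfC_sound p15_17_3_137)) (pfC_sound p15_17_3_138)) (by decide +kernel)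

def z15_17_3 : zOK yB15_17 (nat_lit 3) (nat_lit 750) (nat_lit 867) (nat_lit 4861332) (nat_lit 3538220) = true := by decide +kernel
def g15_17_3 : gOK yB15_17.x P15_17 (nat_lit 1424) (q15_17 :: r15_17) (nat_lit 3) (nat_lit 750) (nat_lit 4) (nat_lit 867) (nat_lit 12712500) (nat_lit 12712500) (nat_lit 12712500) (nat_lit 12712500) [(nat_lit 800)] = true := by decide +kernel
def v15_17_3 : ivC P15_17 s15_17 w15_17 n15_17 (nat_lit 4) (nat_lit 4680) (nat_lit 3) (nat_lit 750) f152_1_750 f160_1_750 (nat_lit 4) (nat_lit 867) f152_1_867 f160_1_867 (nat_lit 4861332) (nat_lit 3538220) p15_17_3 = true := by decide +kernel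
/-! box `yB15_18` -/

def P15_18 : BQ := ⟨(nat_lit 8), (nat_lit 4), (nat_lit 4), (nat_lit 2), (nat_lit 6), (nat_lit 780), (nat_lit 790), (nat_lit 120), [(nat_lit 200), (nat_lit 300), (nat_lit 450), (nat_lit 800)], (nat_lit 105200000), (nat_lit 16000000), (nat_lit 16000000000)⟩
def q15_18 : PC := ⟨(nat_lit 1000), [(nat_lit 120000), (nat_lit 200000), (nat_lit 300000), (nat_lit 450000), (nat_lit 800000)], (nat_lit 340282367000166625996085689103316680705000000), (nat_lit 15894800000000), (nat_lit 15894800000000), (nat_lit 10000000)⟩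
def r15_18 : List PC := [⟨(nat_lit 1290), [(nat_lit 120549), (nat_lit 200981), (nat_lit 301304), (nat_lit 451333), (nat_lit 800418)], (nat_lit 342199517855881930493518477202626582064090230), (nat_lit 16280793142400), (nat_lit 16285992030400), (nat_lit 10049050)⟩, ⟨(nat_lit 1415), [(nat_lit 120849), (nat_lit 201464), (nat_lit 301865), (nat_lit 452469), (nat_lit 802881)], (nat_lit 343040015302362200854916117887236357034561755), (nat_lit 16446510462400), (nat_lit 16453950250400), (nat_lit 10073200)⟩]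
def s15_18 : List PB := [⟨(nat_lit 25800), (nat_lit 1928784000000), [(nat_lit 200981), (nat_lit 301304), (nat_lit 451333), (nat_lit 800418)], (nat_lit 342199517855881930493518477202626582064090230), (nat_lit 1142180699985024), (nat_lit 1142185898873024), (nat_lit 46400)⟩, ⟨(nat_lit 28300), (nat_lit 1933584000000), [(nat_lit 201464), (nat_lit 301865), (nat_lit 452469), (nat_lit 802881)], (nat_lit 343040015302362200854916117887236357034561755), (nat_lit 1142346417305024), (nat_lit 1142353857093024), (nat_lit 66400)⟩]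
def n15_18 : List KN := [⟨(nat_lit 800), (nat_lit 450), (nat_lit 12946273), (nat_lit 5158383)⟩, ⟨(nat_lit 450), (nat_lit 300), (nat_lit 19310217), (nat_lit 12946273)⟩, ⟨(nat_lit 300), (nat_lit 200), (nat_lit 25770221), (nat_lit 19310217)⟩, ⟨(nat_lit 200), (nat_lit 120), (nat_lit 40173837), (nat_lit 25770221)⟩]
def w15_18 : List ℕ := [(nat_lit 46400), (nat_lit 66400)]
def par15_18 : parC yB15_18 P15_18 s15_18 r15_18 q15_18 n15_18 w15_18 = true := by decide +kernel

def p15_18_0 : PF := (PF.cons (PF.cons (PF.cons (PF.cons (PF.leaf (nat_lit 755270) (nat_lit 2335530) (nat_lit 64773282) (nat_lit 2335530) [(nat_lit 0), (nat_lit 0), (nat_lit 0), (nat_lit 0)]) (PF.cons (PF.leaf (nat_lit 885987) (nat_lit 203596) (nat_lit 64517117) (nat_lit 2388098) [(nat_lit 203596), (nat_lit 0), (nat_lit 0), (nat_lit 0)]) (PF.cons (PF.leaf (nat_lit 1045857) (nat_lit 224931) (nat_lit 64212434) (nat_lit 2446515) [(nat_lit 224931), (nat_lit 0), (nat_lit 0), (nat_lit 0)]) (PF.cons (PF.leaf (nat_lit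 1228790) (nat_lit 244920) (nat_lit 63865702) (nat_lit 2508349) [(nat_lit 244920), (nat_lit 0), (nat_lit 0), (nat_lit 0)]) (PF.cons (PF.leaf (nat_lit 1432985) (nat_lit 263861) (nat_lit 63481447) (nat_lit 2571918) [(nat_lit 263861), (nat_lit 0), (nat_lit 0), (nat_lit 0)]) (PF.cons (PF.leaf (nat_lit 1656600) (nat_lit 281916) (nat_lit 63063225) (nat_lit 2636004) [(nat_lit 281916), (nat_lit 0), (nat_lit 0), (nat_lit 0)]) (PF.cons (PF.leaf (nat_lit 1898307) (nat_lit 299176) (nat_lit 62614050) (nat_lit 2699701) [(nat_lit 299176), (nat_lit 0), (nat_lit 0), (nat_lit 0)]) (PF.cons (PF.leaf (nat_lit 2156818) (nat_lit 315696) (nat_lit 62136611) (nat_lit 2762329) [(nat_lit 315696), (nat_lit 0), (nat_lit 0),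
 (nat_lit 0)]) (PF.cons (PF.leaf (nat_lit 2430909) (nat_lit 331506) (nat_lit 61633388) (nat_lit 2823368) [(nat_lit 331506), (nat_lit 0), (nat_lit 0), (nat_lit 0)]) (PF.cons PF.nil (PF.cons PF.nil (PF.cons PF.nil PF.nil)))))))))))) (PF.cons (PF.cons (PF.leaf (nat_lit 1258922) (nat_lit 1043458) (nat_lit 63512116) (nat_lit 2553237) [(nat_lit 0), (nat_lit 1043458), (nat_lit 0), (nat_lit 0)]) (PF.cons (PF.leaf (nat_lit 1441248) (nat_lit 261173) (nat_lit 63156483) (nat_lit 2608843) [(nat_lit 261173), (nat_lit 1082312), (nat_lit 0), (nat_lit 0)]) (PF.cons (PF.leaf (nat_lit 1647339) (nat_lit 279550) (nat_lit 62761391) (nat_lit 2666540) [(nat_lit 279550), (nat_lit 1121779), (nat_lit 0), (nat_lit 0)]) (PF.cons (PF.leaf (nat_lit 1873215) (nat_lit 296973) (nat_lit 62331783) (nat_lit 2724988) [(nat_lit 296973), (nat_lit 1161121), (nat_lit 0), (nat_lit 0)]) (PF.cons (PF.leaf (nat_lit 2117173) (nat_lit 313567) (nat_lit 61871449) (nat_lit 2783229) [(nat_lit 313567), (nat_lit 1199863),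 (nat_lit 0), (nat_lit 0)]) (PF.cons (PF.leaf (nat_lit 2377707) (nat_lit 329404) (nat_lit 61383541) (nat_lit 2840563) [(nat_lit 329404), (nat_lit 1237686), (nat_lit 0), (nat_lit 0)]) (PF.cons (PF.leaf (nat_lit
 2653465) (nat_lit 344526) (nat_lit 60870824) (nat_lit 2896464) [(nat_lit 344526), (nat_lit 1274365), (nat_lit 0), (nat_lit 0)]) (PF.cons (PF.leaf (nat_lit 2943193) (nat_lit 358961) (nat_lit 60335802) (nat_lit 2950539) [(nat_lit 358961), (nat_lit 1309742), (nat_lit 0), (nat_lit 0)]) (PF.cons PF.nil (PF.cons PF.nil PF.nil)))))))))) (PF.cons (PF.cons (PF.leaf (nat_lit 1868889) (nat_lit 1173889) (nat_lit 62006586) (nat_lit 2754448) [(nat_lit 0), (nat_lit 1173889), (nat_lit 0), (nat_lit 0)]) (PF.cons (PF.leaf (nat_lit 2093790) (nat_lit 310609) (nat_lit 61571414) (nat_lit 2807298) [(nat_lit 310609), (nat_lit 1209745), (nat_lit 0), (nat_lit 0)]) (PF.cons (PF.leaf (nat_lit 2338310) (nat_lit 326669) (nat_lit 61104661) (nat_lit 2860225) [(nat_lit 326669), (nat_lit 1245293),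 (nat_lit 0), (nat_lit 0)]) (PF.cons (PF.leaf (nat_lit 2599514) (nat_lit 341924) (nat_lit 60610307) (nat_lit 2912460) [(nat_lit 341924), (nat_lit 1280136), (nat_lit 0), (nat_lit 0)]) (PF.cons (PF.leaf (nat_lit 2875825) (nat_lit 356438) (nat_lit 60091603) (nat_lit 2963447) [(nat_lit 356438), (nat_lit 1314004), (nat_lit 0), (nat_lit 0)]) (PF.cons (PF.leaf (nat_lit 3165855) (nat_lit 370252) (nat_lit 59551351) (nat_lit
 3012778) [(nat_lit 370252), (nat_lit 1346710), (nat_lit 0), (nat_lit 0)]) (PF.cons PF.nil (PF.cons PF.nil (PF.cons PF.nil PF.nil))))))))) (PF.cons (PF.cons (PF.leaf (nat_lit 2563218) (nat_lit 1287466) (nat_lit 60315228) (nat_lit 2931184) [(nat_lit 0), (nat_lit 1287466), (nat_lit 0), (nat_lit 0)]) (PF.cons (PF.leaf (nat_lit 2822724) (nat_lit 353291) (nat_lit 59818744) (nat_lit 2978467) [(nat_lit 353291), (nat_lit 1319436), (nat_lit 0), (nat_lit 0)]) (PF.cons (PF.leaf (nat_lit 3098270) (nat_lit 367282) (nat_lit 59297676) (nat_lit 3024730) [(nat_lit 367282),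 (nat_lit 1350613), (nat_lit 0), (nat_lit 0)]) (PF.cons (PF.leaf (nat_lit 3387553) (nat_lit 380545) (nat_lit 58755320) (nat_lit 3069529) [(nat_lit 380545), (nat_lit 1380775), (nat_lit 0), (nat_lit 0)]) (PF.cons (PF.leaf (nat_lit 3689097) (nat_lit 393122) (nat_lit 58194475) (nat_lit 3112544) [(nat_lit 393122), (nat_lit 1409768), (nat_lit 0), (nat_lit 0)]) (PF.cons PF.nil (PF.cons PF.nil PF.nil))))))) (PF.cons (PF.cons (PF.leaf (nat_lit 3321927) (nat_lit 1384418) (nat_lit 58490446) (nat_lit 3080694) [(nat_lit 0), (nat_lit 1384418), (nat_lit 0), (nat_lit 0)]) (PF.cons (PF.leaf (nat_lit 3608654) (nat_lit 389869) (nat_lit 57949249)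
 (nat_lit 3121147) [(nat_lit 389869), (nat_lit 1412136), (nat_lit 0), (nat_lit 0)]) (PF.cons (PF.leaf (nat_lit 3908360) (nat_lit 401944) (nat_lit 57389642) (nat_lit 3160010) [(nat_lit 401944), (nat_lit 1438817), (nat_lit 0), (nat_lit 0)]) (PF.cons PF.nil (PF.cons PF.nil PF.nil))))) (PF.cons (PF.cons (PF.leaf (nat_lit 4126956) (nat_lit 1465443) (nat_lit 56578739) (nat_lit 3202857) [(nat_lit 0), (nat_lit 1465443), (nat_lit 0), (nat_lit 0)]) (PF.cons (PF.leaf (nat_lit 4434293) (nat_lit 420828) (nat_lit 56007554) (nat_lit 3236098) [(nat_lit 420828), (nat_lit 1488866), (nat_lit 0), (nat_lit 0)]) (PF.cons PF.nil (PF.cons PF.nil PF.nil)))) (PF.cons (PF.cons (PF.leaf (nat_lit 4962424) (nat_lit 1531601) (nat_lit 54620207) (nat_lit 3298997) [(nat_lit 0), (nat_lit 1531601), (nat_lit 0), (nat_lit 0)]) (PF.cons PF.nil PF.nil)) (PF.cons PF.nil (PF.cons PF.nil PF.nil))))))))) (PF.cons (PF.cons (PF.cons (PF.leaf (nat_lit 1858575) (nat_lit 2777327) (nat_lit 61342097) (nat_lit 2777327)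 [(nat_lit 0), (nat_lit 0), (nat_lit 2989387), (nat_lit 0)]) (PF.cons (PF.leaf (nat_lit 2058791) (nat_lit 296801) (nat_lit 60952179) (nat_lit 2823388) [(nat_lit 296801), (nat_lit 0), (nat_lit 3036443), (nat_lit 0)])
 (PF.cons (PF.leaf (nat_lit 2281733) (nat_lit 314472) (nat_lit 60524106) (nat_lit 2870821) [(nat_lit 314472), (nat_lit 0), (nat_lit 3084939), (nat_lit 0)]) (PF.cons (PF.leaf (nat_lit 2523454) (nat_lit 330908) (nat_lit 60063818) (nat_lit 2918526) [(nat_lit 330908), (nat_lit 0), (nat_lit 3133744), (nat_lit 0)]) (PF.cons (PF.leaf (nat_lit 2781870) (nat_lit 346318) (nat_lit 59575749) (nat_lit 2965733) [(nat_lit 346318), (nat_lit 0), (nat_lit 3182056), (nat_lit 0)]) (PF.cons (PF.leaf (nat_lit 3055280) (nat_lit 360832) (nat_lit 59063469) (nat_lit 3011887) [(nat_lit 360832), (nat_lit 0), (nat_lit 3229295), (nat_lit 0)]) (PF.cons (PF.leaf (nat_lit 3342218) (nat_lit 374534) (nat_lit 58529997) (nat_lit 3056576) [(nat_lit 374534), (nat_lit 0), (nat_lit 3275030),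 (nat_lit 0)]) (PF.cons PF.nil (PF.cons PF.nil PF.nil))))))))) (PF.cons (PF.cons (PF.leaf (nat_lit 2505278) (nat_lit 1280043) (nat_lit 59733256) (nat_lit 2939635) [(nat_lit 0), (nat_lit 1280043), (nat_lit 3155877), (nat_lit 0)]) (PF.cons (PF.leaf (nat_lit 2743960) (nat_lit 341853) (nat_lit 59273817) (nat_lit 2982547) [(nat_lit 341853), (nat_lit 1310850), (nat_lit 3199742), (nat_lit 0)]) (PF.cons (PF.leaf (nat_lit 3000883) (nat_lit
 356829) (nat_lit 58785405) (nat_lit 3025220) [(nat_lit 356829), (nat_lit 1341160), (nat_lit 3243368), (nat_lit 0)]) (PF.cons (PF.leaf (nat_lit 3273084) (nat_lit 370855) (nat_lit 58272440) (nat_lit 3067037) [(nat_lit 370855), (nat_lit 1370656), (nat_lit 3286113), (nat_lit 0)]) (PF.cons (PF.leaf (nat_lit 3558834) (nat_lit 384040) (nat_lit 57738437) (nat_lit 3107559) [(nat_lit 384040), (nat_lit 1399133), (nat_lit 3327522), (nat_lit 0)]) (PF.cons (PF.leaf (nat_lit 3856751) (nat_lit 396458) (nat_lit 57186339) (nat_lit 3146468) [(nat_lit 396458),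 (nat_lit 1426452), (nat_lit 3367261), (nat_lit 0)]) (PF.cons PF.nil PF.nil))))))) (PF.cons (PF.cons (PF.leaf (nat_lit 3222583) (nat_lit 1374846) (nat_lit 57980009) (nat_lit 3079684) [(nat_lit 0), (nat_lit 1374846), (nat_lit 3299425), (nat_lit 0)]) (PF.cons (PF.leaf (nat_lit 3491456) (nat_lit 379852) (nat_lit 57470147) (nat_lit 3117296) [(nat_lit 379852), (nat_lit 1401852), (nat_lit 3337811), (nat_lit 0)]) (PF.cons (PF.leaf (nat_lit 3774902) (nat_lit 392605) (nat_lit 56938716) (nat_lit 3153816) [(nat_lit 392605), (nat_lit 1428003), (nat_lit 3375063), (nat_lit 0)]) (PF.cons (PF.leaf (nat_lit 4070625) (nat_lit 404559) (nat_lit 56389160) (nat_lit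
 3188896) [(nat_lit 404559), (nat_lit 1453129), (nat_lit 3410819), (nat_lit 0)]) (PF.cons (PF.leaf (nat_lit 4377132) (nat_lit 415782) (nat_lit 55824326) (nat_lit 3222293) [(nat_lit 415782), (nat_lit 1477119), (nat_lit 3444824), (nat_lit 0)]) PF.nil))))) (PF.cons (PF.cons (PF.leaf (nat_lit 3991518) (nat_lit 1454511) (nat_lit 56131676) (nat_lit 3195642) [(nat_lit 0), (nat_lit 1454511), (nat_lit 3417959), (nat_lit 0)]) (PF.cons (PF.leaf (nat_lit 4283449) (nat_lit 411804) (nat_lit 55587437) (nat_lit 3227061) [(nat_lit 411804), (nat_lit 1477534), (nat_lit 3449906), (nat_lit 0)]) (PF.cons (PF.leaf (nat_lit 4586909) (nat_lit 422610) (nat_lit 55027730) (nat_lit 3256967) [(nat_lit 422610), (nat_lit 1499539), (nat_lit 3480276), (nat_lit 0)]) (PF.cons PF.nil PF.nil)))) (PF.cons (PF.cons (PF.leaf (nat_lit 4795729) (nat_lit 1519920) (nat_lit 54229618) (nat_lit 3287808) [(nat_lit 0), (nat_lit 1519920), (nat_lit 3511706), (nat_lit 0)]) (PF.cons (PF.leaf (nat_lit 5104556) (nat_lit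 438393) (nat_lit 53664450) (nat_lit 3312852) [(nat_lit 438393), (nat_lit 1539025), (nat_lit 3537012), (nat_lit 0)]) PF.nil)) (PF.cons PF.nil (PF.cons PF.nil (PF.cons PF.nil PF.nil)))))))) (PF.cons (PF.cons (PF.cons
 (PF.leaf (nat_lit 3141064) (nat_lit 3079595) (nat_lit 57428461) (nat_lit 3079595) [(nat_lit 0), (nat_lit 0), (nat_lit 3300378), (nat_lit 0)]) (PF.cons (PF.leaf (nat_lit 3389426) (nat_lit 367414) (nat_lit 56956673) (nat_lit 3114017) [(nat_lit 367414), (nat_lit 0), (nat_lit 3335353), (nat_lit 0)]) (PF.cons (PF.leaf (nat_lit 3654803) (nat_lit 381329) (nat_lit 56458517) (nat_lit 3147962) [(nat_lit 381329), (nat_lit 0), (nat_lit 3369837), (nat_lit 0)]) (PF.cons (PF.leaf (nat_lit 3934158) (nat_lit 394189) (nat_lit 55938652) (nat_lit 3180943) [(nat_lit 394189), (nat_lit 0), (nat_lit 3403324), (nat_lit 0)]) (PF.cons (PF.leaf (nat_lit 4225701) (nat_lit 406140) (nat_lit 55400710) (nat_lit 3212617) [(nat_lit 406140), (nat_lit 0), (nat_lit 3435460), (nat_lit 0)])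 (PF.cons (PF.leaf (nat_lit 4527953) (nat_lit 417282) (nat_lit 54847663) (nat_lit 3242745) [(nat_lit 417282), (nat_lit 0), (nat_lit 3465994), (nat_lit 0)]) (PF.cons PF.nil PF.nil))))))) (PF.cons (PF.cons (PF.leaf (nat_lit 3870819) (nat_lit 1442611) (nat_lit 55654077) (nat_lit 3188842) [(nat_lit 0), (nat_lit 1442611), (nat_lit 3411640), (nat_lit 0)]) (PF.cons (PF.leaf (nat_lit 4145564) (nat_lit 401158) (nat_lit 55141252) (nat_lit
 3218253) [(nat_lit 401158), (nat_lit 1465285), (nat_lit 3441431), (nat_lit 0)]) (PF.cons (PF.leaf (nat_lit 4433617) (nat_lit 412760) (nat_lit 54609572) (nat_lit 3246540) [(nat_lit 412760), (nat_lit 1487073), (nat_lit 3470052), (nat_lit 0)]) (PF.cons (PF.leaf (nat_lit 4732603) (nat_lit 423519) (nat_lit 54062511) (nat_lit 3273436) [(nat_lit 423519), (nat_lit 1507849), (nat_lit 3497228), (nat_lit 0)]) (PF.cons PF.nil PF.nil))))) (PF.cons (PF.cons (PF.leaf (nat_lit 4641661) (nat_lit 1507481) (nat_lit 53815578) (nat_lit 3276755) [(nat_lit 0),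 (nat_lit 1507481), (nat_lit 3500757), (nat_lit 0)]) (PF.cons (PF.leaf (nat_lit 4935949) (nat_lit 428999) (nat_lit 53276857) (nat_lit 3300574) [(nat_lit 428999), (nat_lit 1526452), (nat_lit 3524739), (nat_lit 0)]) (PF.cons (PF.leaf (nat_lit 5240538) (nat_lit 438661) (nat_lit 52725162) (nat_lit 3322970) [(nat_lit 438661), (nat_lit 1544439), (nat_lit 3547238), (nat_lit 0)]) (PF.cons PF.nil PF.nil)))) (PF.cons (PF.cons (PF.leaf (nat_lit 5438860) (nat_lit 1559626) (nat_lit 51949196) (nat_lit 3343998) [(nat_lit 0), (nat_lit 1559626), (nat_lit 3568369), (nat_lit 0)]) (PF.cons (PF.leaf (nat_lit 5746994) (nat_lit 451766) (nat_lit 51396685) (nat_lit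
 3362205) [(nat_lit 451766), (nat_lit 1575043), (nat_lit 3586511), (nat_lit 0)]) PF.nil)) (PF.cons PF.nil (PF.cons PF.nil PF.nil)))))) (PF.cons (PF.cons (PF.cons (PF.leaf (nat_lit 4502608) (nat_lit 3265902) (nat_lit 53372682) (nat_lit 3265902) [(nat_lit 0), (nat_lit 0), (nat_lit 3490076), (nat_lit 0)]) (PF.cons (PF.leaf (nat_lit 4780490) (nat_lit 417994) (nat_lit 52864709) (nat_lit 3288355) [(nat_lit 417994), (nat_lit 0), (nat_lit 3512584), (nat_lit 0)]) (PF.cons (PF.leaf (nat_lit 5070508) (nat_lit 428539) (nat_lit 52340269) (nat_lit 3309686) [(nat_lit 428539), (nat_lit 0), (nat_lit 3533925), (nat_lit 0)]) (PF.cons (PF.leaf (nat_lit 5370359) (nat_lit 438214) (nat_lit 51802792) (nat_lit 3329695) [(nat_lit 438214), (nat_lit 0), (nat_lit 3553894), (nat_lit 0)]) (PF.cons PF.nil PF.nil))))) (PF.cons (PF.cons (PF.leaf (nat_lit 5269110) (nat_lit 1546272) (nat_lit 51568294) (nat_lit 3330360) [(nat_lit 0), (nat_lit 1546272), (nat_lit 3554628), (nat_lit 0)]) (PF.cons (PF.leaf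 (nat_lit 5563565) (nat_lit 442197) (nat_lit 51041262) (nat_lit 3347799) [(nat_lit 442197), (nat_lit 1561753), (nat_lit 3571933), (nat_lit 0)]) (PF.cons (PF.leaf (nat_lit 5867295) (nat_lit 450835) (nat_lit 50503342)
 (nat_lit 3363915) [(nat_lit 450835), (nat_lit 1576297), (nat_lit 3587861), (nat_lit 0)]) (PF.cons PF.nil PF.nil)))) (PF.cons (PF.cons (PF.leaf (nat_lit 6054862) (nat_lit 1587172) (nat_lit 49755711) (nat_lit 3376939) [(nat_lit 0), (nat_lit 1587172), (nat_lit 3600605), (nat_lit 0)]) (PF.cons PF.nil PF.nil)) (PF.cons PF.nil (PF.cons PF.nil PF.nil))))) (PF.cons (PF.cons (PF.cons (PF.leaf (nat_lit 5872081) (nat_lit 3361640) (nat_lit 49406938) (nat_lit 3361640) [(nat_lit 0), (nat_lit 0), (nat_lit 3585058), (nat_lit 0)]) (PF.cons (PF.leaf (nat_lit 6165060) (nat_lit 452036) (nat_lit 48895869) (nat_lit 3373743) [(nat_lit 452036), (nat_lit 0), (nat_lit 3596790), (nat_lit 0)]) (PF.cons PF.nil (PF.cons PF.nil PF.nil)))) (PF.cons (PF.cons (PF.leaf (nat_lit 6643298)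 (nat_lit 1604737) (nat_lit 47660137) (nat_lit 3391149) [(nat_lit 0), (nat_lit 1604737), (nat_lit 3613197), (nat_lit 0)]) (PF.cons PF.nil PF.nil)) (PF.cons PF.nil PF.nil))) (PF.cons (PF.cons (PF.cons (PF.leaf (nat_lit 7204497) (nat_lit 3390345) (nat_lit 45668090) (nat_lit 3390345) [(nat_lit 0), (nat_lit 0), (nat_lit 3610075), (nat_lit 0)]) (PF.cons PF.nil PF.nil)) (PF.cons PF.nil PF.nil)) (PF.cons PF.nil (PF.cons PF.nil
 PF.nil)))))))) (PF.cons (PF.cons (PF.cons (PF.cons (PF.leaf (nat_lit 3089650) (nat_lit 3003129) (nat_lit 54513870) (nat_lit 3003129) [(nat_lit 0), (nat_lit 0), (nat_lit 0), (nat_lit 9591812)]) (PF.cons (PF.leaf (nat_lit 3297114) (nat_lit 330185) (nat_lit 54139166) (nat_lit 3033698) [(nat_lit 330185), (nat_lit 0), (nat_lit 0), (nat_lit 9605761)]) (PF.cons (PF.leaf (nat_lit 3525503) (nat_lit 346901) (nat_lit 53731561) (nat_lit 3064627) [(nat_lit 346901), (nat_lit 0), (nat_lit 0), (nat_lit 9618822)]) (PF.cons (PF.leaf (nat_lit 3770686) (nat_lit 361982)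 (nat_lit 53297288) (nat_lit 3095182) [(nat_lit 361982), (nat_lit 0), (nat_lit 0), (nat_lit 9630395)]) (PF.cons (PF.leaf (nat_lit 4030289) (nat_lit 375740) (nat_lit 52840940) (nat_lit 3124874) [(nat_lit 375740), (nat_lit 0), (nat_lit 0), (nat_lit 9640037)]) (PF.cons (PF.leaf (nat_lit 4302526) (nat_lit 388380) (nat_lit 52366124) (nat_lit 3153370) [(nat_lit 388380), (nat_lit 0), (nat_lit 0), (nat_lit 9647418)]) (PF.cons (PF.leaf (nat_lit 4585781) (nat_lit 400047) (nat_lit 51875802) (nat_lit 3180438) [(nat_lit 400047), (nat_lit 0), (nat_lit 0), (nat_lit 9652289)]) (PF.cons (PF.leaf (nat_lit 4878803) (nat_lit 410848) (nat_lit 51372481)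
 (nat_lit 3205920) [(nat_lit 410848), (nat_lit 0), (nat_lit 0), (nat_lit 9654473)]) (PF.cons (PF.leaf (nat_lit 5180391) (nat_lit 420865) (nat_lit 50858327) (nat_lit 3229714) [(nat_lit 420865), (nat_lit 0), (nat_lit 0), (nat_lit 9653848)]) (PF.cons PF.nil PF.nil)))))))))) (PF.cons (PF.cons (PF.leaf (nat_lit 3732691) (nat_lit 1377043) (nat_lit 52996372) (nat_lit 3104422) [(nat_lit 0), (nat_lit 1377043), (nat_lit 0), (nat_lit 9630975)]) (PF.cons (PF.leaf (nat_lit 3972565) (nat_lit 369323) (nat_lit 52568896) (nat_lit 3131391) [(nat_lit 369323), (nat_lit 1400640), (nat_lit 0), (nat_lit 9638560)]) (PF.cons (PF.leaf (nat_lit 4228439) (nat_lit 382701) (nat_lit 52118044) (nat_lit 3157734) [(nat_lit 382701), (nat_lit 1423395), (nat_lit 0), (nat_lit 9644236)]) (PF.cons (PF.leaf (nat_lit 4497406) (nat_lit 394922) (nat_lit 51648166) (nat_lit 3183071) [(nat_lit 394922), (nat_lit 1445122), (nat_lit 0), (nat_lit 9647685)]) (PF.cons (PF.leaf (nat_lit 4777641) (nat_lit 406155) (nat_lit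 51162645) (nat_lit 3207146) [(nat_lit 406155), (nat_lit 1465719), (nat_lit 0), (nat_lit 9648681)]) (PF.cons (PF.leaf (nat_lit 5067695) (nat_lit 416518) (nat_lit 50664231) (nat_lit 3229785) [(nat_lit 416518), (nat_lit
 1485134), (nat_lit 0), (nat_lit 9647067)]) (PF.cons (PF.leaf (nat_lit 5366347) (nat_lit 426103) (nat_lit 50155235) (nat_lit 3250875) [(nat_lit 426103), (nat_lit 1503344), (nat_lit 0), (nat_lit 9642737)]) (PF.cons PF.nil (PF.cons PF.nil PF.nil))))))))) (PF.cons (PF.cons (PF.leaf (nat_lit 4428202) (nat_lit 1444862) (nat_lit 51389363) (nat_lit 3187016) [(nat_lit 0), (nat_lit 1444862), (nat_lit 0), (nat_lit 9642707)]) (PF.cons (PF.leaf (nat_lit 4692131) (nat_lit 400588) (nat_lit 50927244) (nat_lit 3209356) [(nat_lit 400588), (nat_lit 1464574), (nat_lit 0), (nat_lit 9642473)]) (PF.cons (PF.leaf (nat_lit 4968490) (nat_lit 411483) (nat_lit 50448735) (nat_lit 3230608) [(nat_lit 411483), (nat_lit 1483326), (nat_lit 0), (nat_lit 9639848)]) (PF.cons (PF.leaf (nat_lit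 5254947) (nat_lit 421485) (nat_lit 49957020) (nat_lit 3250575) [(nat_lit 421485), (nat_lit 1501033), (nat_lit 0), (nat_lit 9634692)]) (PF.cons (PF.leaf (nat_lit 5550124) (nat_lit 430699) (nat_lit 49454663) (nat_lit 3269129) [(nat_lit 430699), (nat_lit 1517652), (nat_lit 0), (nat_lit 9626916)]) (PF.cons (PF.leaf (nat_lit 5852839) (nat_lit 439203) (nat_lit 48943800) (nat_lit 3286190) [(nat_lit 439203), (nat_lit 1533166), (nat_lit
 0), (nat_lit 9616474)]) (PF.cons PF.nil PF.nil))))))) (PF.cons (PF.cons (PF.leaf (nat_lit 5159484) (nat_lit 1499185) (nat_lit 49734206) (nat_lit 3251045) [(nat_lit 0), (nat_lit 1499185), (nat_lit 0), (nat_lit 9626004)]) (PF.cons (PF.leaf (nat_lit 5441009) (nat_lit 425763) (nat_lit 49251128) (nat_lit 3268494) [(nat_lit 425763), (nat_lit 1515281), (nat_lit 0), (nat_lit 9617582)]) (PF.cons (PF.leaf (nat_lit 5732127) (nat_lit 434672) (nat_lit 48756960) (nat_lit 3284667) [(nat_lit 434672), (nat_lit 1530402), (nat_lit 0), (nat_lit 9606630)]) (PF.cons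 (PF.leaf (nat_lit 6030952) (nat_lit 442858) (nat_lit 48254098) (nat_lit 3299472) [(nat_lit 442858), (nat_lit 1544516), (nat_lit 0), (nat_lit 9593115)]) (PF.cons (PF.leaf (nat_lit 6336362) (nat_lit 450391) (nat_lit 47744520) (nat_lit 3312852) [(nat_lit 450391), (nat_lit 1557612), (nat_lit 0), (nat_lit 9577037)]) PF.nil))))) (PF.cons (PF.cons (PF.leaf (nat_lit 5913301) (nat_lit 1541704) (nat_lit 48062227) (nat_lit 3297665) [(nat_lit 0), (nat_lit 1541704), (nat_lit 0), (nat_lit 9582101)]) (PF.cons (PF.leaf (nat_lit 6207220) (nat_lit 445958) (nat_lit 47568710) (nat_lit 3310355) [(nat_lit 445958), (nat_lit 1554500), (nat_lit 0), (nat_lit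
 9565786)]) (PF.cons (PF.leaf (nat_lit 6508423) (nat_lit 453218) (nat_lit 47068184) (nat_lit 3321734) [(nat_lit 453218), (nat_lit 1566361), (nat_lit 0), (nat_lit 9547011)]) (PF.cons PF.nil PF.nil)))) (PF.cons (PF.cons (PF.leaf (nat_lit 6679015) (nat_lit 1573907) (nat_lit 46397288) (nat_lit 3328500) [(nat_lit 0), (nat_lit 1573907), (nat_lit 0), (nat_lit 9513487)]) (PF.cons (PF.leaf (nat_lit 6981082) (nat_lit 461970) (nat_lit 45901429) (nat_lit 3336767) [(nat_lit 461970), (nat_lit 1583738), (nat_lit 0), (nat_lit 9489953)]) PF.nil)) (PF.cons PF.nil (PF.cons PF.nil PF.nil)))))))) (PF.cons (PF.cons (PF.cons (PF.leaf (nat_lit 4315080) (nat_lit 3174458) (nat_lit 50921885) (nat_lit 3174458) [(nat_lit 0), (nat_lit 0), (nat_lit 3395847), (nat_lit 9616621)]) (PF.cons (PF.leaf (nat_lit 4559852) (nat_lit 386302) (nat_lit 50495539) (nat_lit 3195398) [(nat_lit 386302), (nat_lit 0), (nat_lit 3416567), (nat_lit 9615005)]) (PF.cons (PF.leaf (nat_lit 4819594) (nat_lit 398664) (nat_lit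 50048036) (nat_lit 3215623) [(nat_lit 398664), (nat_lit 0), (nat_lit 3436557), (nat_lit 9611267)]) (PF.cons (PF.leaf (nat_lit 5091359) (nat_lit 409830) (nat_lit 49583728) (nat_lit 3234840) [(nat_lit 409830), (nat_lit
 0), (nat_lit 3455516), (nat_lit 9605235)]) (PF.cons (PF.leaf (nat_lit 5373331) (nat_lit 419992) (nat_lit 49105945) (nat_lit 3252857) [(nat_lit 419992), (nat_lit 0), (nat_lit 3473246), (nat_lit 9596794)]) (PF.cons (PF.leaf (nat_lit 5664071) (nat_lit 429285) (nat_lit 48617349) (nat_lit 3269546) [(nat_lit 429285), (nat_lit 0), (nat_lit 3489616), (nat_lit 9585872)]) (PF.cons (PF.leaf (nat_lit 5962363) (nat_lit 437810) (nat_lit 48120143) (nat_lit 3284828) [(nat_lit 437810), (nat_lit 0), (nat_lit 3504540), (nat_lit 9572437)]) (PF.cons PF.nil (PF.cons PF.nil PF.nil))))))))) (PF.cons (PF.cons (PF.leaf (nat_lit 5012198) (nat_lit 1483247) (nat_lit 49337179) (nat_lit 3235976) [(nat_lit 0), (nat_lit 1483247), (nat_lit 3456703), (nat_lit 9595706)]) (PF.cons (PF.leaf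 (nat_lit 5278219) (nat_lit 413980) (nat_lit 48882682) (nat_lit 3252696) [(nat_lit 413980), (nat_lit 1499643), (nat_lit 3473108), (nat_lit 9586701)]) (PF.cons (PF.leaf (nat_lit 5555622) (nat_lit 423891) (nat_lit 48413789) (nat_lit 3268362) [(nat_lit 423891), (nat_lit 1515111), (nat_lit 3488428), (nat_lit 9575337)]) (PF.cons (PF.leaf (nat_lit 5842174) (nat_lit 432903) (nat_lit 47933599) (nat_lit 3282829) [(nat_lit 432903), (nat_lit
 1529595), (nat_lit 3502513), (nat_lit 9561564)]) (PF.cons (PF.leaf (nat_lit 6136499) (nat_lit 441131) (nat_lit 47444574) (nat_lit 3296004) [(nat_lit 441131), (nat_lit 1543069), (nat_lit 3515270), (nat_lit 9545366)]) (PF.cons (PF.leaf (nat_lit 6437452) (nat_lit 448663) (nat_lit 46948734) (nat_lit 3307835) [(nat_lit 448663), (nat_lit 1555531), (nat_lit 3526643), (nat_lit 9526749)]) (PF.cons PF.nil PF.nil))))))) (PF.cons (PF.cons (PF.leaf (nat_lit 5738025) (nat_lit 1526752) (nat_lit 47723246) (nat_lit 3281358) [(nat_lit 0), (nat_lit 1526752),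 (nat_lit 3500999), (nat_lit 9549702)]) (PF.cons (PF.leaf (nat_lit 6019167) (nat_lit 435916) (nat_lit 47253110) (nat_lit 3293737) [(nat_lit 435916), (nat_lit 1539876), (nat_lit 3512941), (nat_lit 9533352)]) (PF.cons (PF.leaf (nat_lit 6308968) (nat_lit 443910) (nat_lit 46773553) (nat_lit 3304941) [(nat_lit 443910), (nat_lit 1552088), (nat_lit 3523669), (nat_lit 9514649)]) (PF.cons (PF.leaf (nat_lit 6605649) (nat_lit 451191) (nat_lit 46286854) (nat_lit 3314906) [(nat_lit 451191), (nat_lit 1563371), (nat_lit 3533120), (nat_lit 9493615)]) (PF.cons PF.nil PF.nil))))) (PF.cons (PF.cons (PF.leaf (nat_lit 6480667) (nat_lit 1559900) (nat_lit 46106978)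
 (nat_lit 3311779) [(nat_lit 0), (nat_lit 1559900), (nat_lit 3529882), (nat_lit 9480472)]) (PF.cons (PF.leaf (nat_lit 6772127) (nat_lit 453233) (nat_lit 45630540) (nat_lit 3320001) [(nat_lit 453233), (nat_lit 1570073), (nat_lit 3537539), (nat_lit 9457275)]) (PF.cons (PF.leaf (nat_lit 7070103) (nat_lit 459664) (nat_lit 45148415) (nat_lit 3327047) [(nat_lit 459664), (nat_lit 1579389), (nat_lit 3543980), (nat_lit 9431871)]) (PF.cons PF.nil PF.nil)))) (PF.cons (PF.cons (PF.leaf (nat_lit 7230792) (nat_lit 1584054) (nat_lit 44508292) (nat_lit 3328756) [(nat_lit 0), (nat_lit 1584054), (nat_lit 3544892), (nat_lit 9390654)]) (PF.cons PF.nil PF.nil)) (PF.cons PF.nil PF.nil)))))) (PF.cons (PF.cons (PF.cons (PF.leaf (nat_lit 5577902) (nat_lit 3264860) (nat_lit 47359327) (nat_lit 3264860) [(nat_lit 0), (nat_lit 0), (nat_lit 3484324), (nat_lit 9515975)]) (PF.cons (PF.leaf (nat_lit 5844321) (nat_lit 424232) (nat_lit 46916310) (nat_lit 3276860) [(nat_lit 424232), (nat_lit 0), (nat_lit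 3495836), (nat_lit 9499737)]) (PF.cons (PF.leaf (nat_lit 6121266) (nat_lit 433258) (nat_lit 46460614) (nat_lit 3287848) [(nat_lit 433258), (nat_lit 0), (nat_lit 3506304), (nat_lit 9481222)]) (PF.cons (PF.leaf
 (nat_lit 6406513) (nat_lit 441387) (nat_lit 45995224) (nat_lit 3297721) [(nat_lit 441387), (nat_lit 0), (nat_lit 3515625), (nat_lit 9460452)]) (PF.cons (PF.leaf (nat_lit 6698719) (nat_lit 448744) (nat_lit 45522479) (nat_lit 3306419) [(nat_lit 448744), (nat_lit 0), (nat_lit 3523736), (nat_lit 9437463)]) (PF.cons PF.nil (PF.cons PF.nil PF.nil))))))) (PF.cons (PF.cons (PF.leaf (nat_lit 6294903) (nat_lit 1545008) (nat_lit 45797622) (nat_lit 3294776) [(nat_lit 0), (nat_lit 1545008), (nat_lit 3512563), (nat_lit 9446277)]) (PF.cons (PF.leaf (nat_lit 6574397) (nat_lit 443341) (nat_lit 45343171) (nat_lit 3302927) [(nat_lit 443341), (nat_lit 1555598), (nat_lit 3520119), (nat_lit 9423535)]) (PF.cons (PF.leaf (nat_lit 6861750) (nat_lit 450524) (nat_lit 44880679) (nat_lit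 3309998) [(nat_lit 450524), (nat_lit 1565336), (nat_lit 3526561), (nat_lit 9398626)]) (PF.cons (PF.leaf (nat_lit 7155283) (nat_lit 457007) (nat_lit 44412306) (nat_lit 3315950) [(nat_lit 457007), (nat_lit 1574217), (nat_lit 3531848), (nat_lit 9371616)]) (PF.cons PF.nil PF.nil))))) (PF.cons (PF.cons (PF.leaf (nat_lit 7024165) (nat_lit 1570269) (nat_lit 44244272) (nat_lit 3311843) [(nat_lit 0), (nat_lit 1570269), (nat_lit
 3527581), (nat_lit 9356995)]) (PF.cons (PF.leaf (nat_lit 7312258) (nat_lit 458168) (nat_lit 43786663) (nat_lit 3316367) [(nat_lit 458168), (nat_lit 1578220), (nat_lit 3531402), (nat_lit 9328366)]) (PF.cons PF.nil (PF.cons PF.nil PF.nil)))) (PF.cons (PF.cons (PF.leaf (nat_lit 7757445) (nat_lit 1587685) (nat_lit 42715897) (nat_lit 3317474) [(nat_lit 0), (nat_lit 1587685), (nat_lit 3530817), (nat_lit 9250751)]) (PF.cons PF.nil PF.nil)) (PF.cons PF.nil PF.nil))))) (PF.cons (PF.cons (PF.cons (PF.leaf (nat_lit 6829824) (nat_lit 3294572) (nat_lit 43962408)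 (nat_lit 3294572) [(nat_lit 0), (nat_lit 0), (nat_lit 3509930), (nat_lit 9322038)]) (PF.cons (PF.leaf (nat_lit 7106686) (nat_lit 448486) (nat_lit 43525357) (nat_lit 3299205) [(nat_lit 448486), (nat_lit 0), (nat_lit 3513845), (nat_lit 9294226)]) (PF.cons (PF.leaf (nat_lit 7390800) (nat_lit 454951) (nat_lit 43081409) (nat_lit 3302849) [(nat_lit 454951), (nat_lit 0), (nat_lit 3516739), (nat_lit 9264433)]) (PF.cons PF.nil (PF.cons PF.nil PF.nil))))) (PF.cons (PF.cons (PF.leaf (nat_lit 7544214) (nat_lit 1574245) (nat_lit 42476008) (nat_lit 3300664) [(nat_lit 0), (nat_lit 1574245), (nat_lit 3513575), (nat_lit 9217167)]) (PF.cons (PF.leaf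
 (nat_lit 7828320) (nat_lit 461160) (nat_lit 42038158) (nat_lit 3302134) [(nat_lit 461160), (nat_lit 1580314), (nat_lit 3514238), (nat_lit 9184328)]) (PF.cons PF.nil (PF.cons PF.nil PF.nil)))) (PF.cons (PF.cons (PF.leaf (nat_lit 8259955) (nat_lit 1586028) (nat_lit 41019555) (nat_lit 3297040) [(nat_lit 0), (nat_lit 1586028), (nat_lit 3507231), (nat_lit 9098465)]) (PF.cons PF.nil PF.nil)) PF.nil))) (PF.cons (PF.cons (PF.cons (PF.leaf (nat_lit 8041582) (nat_lit 3280541) (nat_lit 40801669) (nat_lit 3280541) [(nat_lit 0), (nat_lit 0), (nat_lit 3490284), (nat_lit 9065462)]) (PF.cons (PF.leaf (nat_lit 8321213) (nat_lit 462543) (nat_lit 40383904) (nat_lit 3279501) [(nat_lit 462543), (nat_lit 0), (nat_lit 3488357), (nat_lit 9029432)]) PF.nil)) (PF.cons PF.nil PF.nil)) (PF.cons PF.nil PF.nil)))))) (PF.cons (PF.cons (PF.cons (PF.cons (PF.leaf (nat_lit 5320975) (nat_lit 3161953) (nat_lit 45381807) (nat_lit 3161953) [(nat_lit 0), (nat_lit 0), (nat_lit 0), (nat_lit 9282525)])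 (PF.cons (PF.leaf (nat_lit 5558106) (nat_lit 391575) (nat_lit 45008633) (nat_lit 3174503) [(nat_lit 391575), (nat_lit 0), (nat_lit 0), (nat_lit 9267050)]) (PF.cons (PF.leaf (nat_lit 5808739) (nat_lit 402683) (nat_lit
 44618235) (nat_lit 3186258) [(nat_lit 402683), (nat_lit 0), (nat_lit 0), (nat_lit 9249475)]) (PF.cons (PF.leaf (nat_lit 6069908) (nat_lit 412541) (nat_lit 44214465) (nat_lit 3197044) [(nat_lit 412541), (nat_lit 0), (nat_lit 0), (nat_lit 9229839)]) (PF.cons (PF.leaf (nat_lit 6339896) (nat_lit 421365) (nat_lit 43800232) (nat_lit 3206757) [(nat_lit 421365), (nat_lit 0), (nat_lit 0), (nat_lit 9208180)]) (PF.cons (PF.leaf (nat_lit 6617319) (nat_lit 429310) (nat_lit 43377834) (nat_lit 3215337) [(nat_lit 429310), (nat_lit 0), (nat_lit 0), (nat_lit 9184543)]) (PF.cons (PF.leaf (nat_lit 6901039) (nat_lit 436493) (nat_lit 42949139) (nat_lit 3222754) [(nat_lit 436493), (nat_lit 0), (nat_lit 0), (nat_lit 9158979)]) (PF.cons PF.nil (PF.cons PF.nil PF.nil)))))))))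 (PF.cons (PF.cons (PF.leaf (nat_lit 5981099) (nat_lit 1479940) (nat_lit 44005465) (nat_lit 3194526) [(nat_lit 0), (nat_lit 1479940), (nat_lit 0), (nat_lit 9214440)]) (PF.cons (PF.leaf (nat_lit 6236056) (nat_lit 414869) (nat_lit 43611780) (nat_lit 3203536) [(nat_lit 414869), (nat_lit 1492154), (nat_lit 0), (nat_lit 9193236)]) (PF.cons (PF.leaf (nat_lit 6501069) (nat_lit 423522) (nat_lit 43206701) (nat_lit 3211587) [(nat_lit 423522),
 (nat_lit 1503459), (nat_lit 0), (nat_lit 9170010)]) (PF.cons (PF.leaf (nat_lit 6773976) (nat_lit 431266) (nat_lit 42792900) (nat_lit 3218608) [(nat_lit 431266), (nat_lit 1513839), (nat_lit 0), (nat_lit 9144832)]) (PF.cons (PF.leaf (nat_lit 7053482) (nat_lit 438233) (nat_lit 42372474) (nat_lit 3224558) [(nat_lit 438233), (nat_lit 1523302), (nat_lit 0), (nat_lit 9117771)]) (PF.cons (PF.leaf (nat_lit 7338518) (nat_lit 444521) (nat_lit 41947116) (nat_lit 3229422) [(nat_lit 444521), (nat_lit 1531868), (nat_lit 0), (nat_lit 9088900)]) (PF.cons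 PF.nil PF.nil))))))) (PF.cons (PF.cons (PF.leaf (nat_lit 6662548) (nat_lit 1509708) (nat_lit 42616203) (nat_lit 3214677) [(nat_lit 0), (nat_lit 1509708), (nat_lit 0), (nat_lit 9129258)]) (PF.cons (PF.leaf (nat_lit 6929810) (nat_lit 432730) (nat_lit 42212211) (nat_lit 3220251) [(nat_lit 432730), (nat_lit 1519047), (nat_lit 0), (nat_lit 9102761)]) (PF.cons (PF.leaf (nat_lit 7204637) (nat_lit 439540) (nat_lit 41800967) (nat_lit 3224843) [(nat_lit 439540), (nat_lit 1527554), (nat_lit 0), (nat_lit 9074405)]) (PF.cons (PF.leaf (nat_lit 7485318) (nat_lit 445653) (nat_lit 41384392) (nat_lit 3228430) [(nat_lit 445653), (nat_lit 1535236), (nat_lit 0),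
 (nat_lit 9044278)]) (PF.cons PF.nil PF.nil))))) (PF.cons (PF.cons (PF.leaf (nat_lit 7355449) (nat_lit 1530936) (nat_lit 41234339) (nat_lit 3223705) [(nat_lit 0), (nat_lit 1530936), (nat_lit 0), (nat_lit 9028979)]) (PF.cons (PF.leaf (nat_lit 7630885) (nat_lit 446402) (nat_lit 40827345) (nat_lit 3226110) [(nat_lit 446402), (nat_lit 1537793), (nat_lit 0), (nat_lit 8997787)]) (PF.cons (PF.leaf (nat_lit 7911965) (nat_lit 451763) (nat_lit 40416116) (nat_lit 3227576) [(nat_lit 451763), (nat_lit 1543902), (nat_lit 0), (nat_lit 8964942)]) (PF.cons PF.nil PF.nil)))) (PF.cons (PF.cons (PF.leaf (nat_lit 8052326) (nat_lit 1544987) (nat_lit 39874239) (nat_lit 3222988) [(nat_lit 0), (nat_lit 1544987), (nat_lit 0), (nat_lit 8915816)]) (PF.cons PF.nil PF.nil)) (PF.cons PF.nil PF.nil)))))) (PF.cons (PF.cons (PF.cons (PF.leaf (nat_lit 6491135) (nat_lit 3196330) (nat_lit 42319750) (nat_lit 3196330) [(nat_lit 0), (nat_lit 0), (nat_lit 3407535), (nat_lit 9092598)]) (PF.cons (PF.leaf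 (nat_lit 6745165) (nat_lit 421035) (nat_lit 41938856) (nat_lit 3202051) [(nat_lit 421035), (nat_lit 0), (nat_lit 3412503), (nat_lit 9067182)]) (PF.cons (PF.leaf (nat_lit 7008569) (nat_lit 428941) (nat_lit 41547826) (nat_lit
 3206872) [(nat_lit 428941), (nat_lit 0), (nat_lit 3416548), (nat_lit 9039841)]) (PF.cons (PF.leaf (nat_lit 7279204) (nat_lit 435957) (nat_lit 41149206) (nat_lit 3210744) [(nat_lit 435957), (nat_lit 0), (nat_lit 3419622), (nat_lit 9010684)]) (PF.cons (PF.leaf (nat_lit 7555790) (nat_lit 442216) (nat_lit 40744974) (nat_lit 3213647) [(nat_lit 442216), (nat_lit 0), (nat_lit 3421705), (nat_lit 8979809)]) (PF.cons PF.nil (PF.cons PF.nil PF.nil))))))) (PF.cons (PF.cons (PF.leaf (nat_lit 7162282) (nat_lit 1515924) (nat_lit 40983901) (nat_lit 3206010) [(nat_lit 0), (nat_lit 1515924), (nat_lit 3414689), (nat_lit 8994143)]) (PF.cons (PF.leaf (nat_lit 7427118) (nat_lit 436651) (nat_lit 40595405) (nat_lit 3208702) [(nat_lit 436651), (nat_lit 1523372), (nat_lit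 3416568), (nat_lit 8964056)]) (PF.cons (PF.leaf (nat_lit 7698909) (nat_lit 442805) (nat_lit 40200614) (nat_lit 3210495) [(nat_lit 442805), (nat_lit 1530050), (nat_lit 3417526), (nat_lit 8932257)]) (PF.cons (PF.leaf (nat_lit 7975994) (nat_lit 448283) (nat_lit 39801337) (nat_lit 3211381) [(nat_lit 448283), (nat_lit 1535972), (nat_lit 3417554), (nat_lit 8898858)]) (PF.cons PF.nil PF.nil))))) (PF.cons (PF.cons (PF.leaf (nat_lit 7841806)
 (nat_lit 1531458) (nat_lit 39661480) (nat_lit 3206168) [(nat_lit 0), (nat_lit 1531458), (nat_lit 3412132), (nat_lit 8883057)]) (PF.cons (PF.leaf (nat_lit 8113578) (nat_lit 448406) (nat_lit 39271871) (nat_lit 3206095) [(nat_lit 448406), (nat_lit 1536691), (nat_lit 3411187), (nat_lit 8848933)]) (PF.cons PF.nil (PF.cons PF.nil PF.nil)))) (PF.cons (PF.cons (PF.leaf (nat_lit 8523023) (nat_lit 1540736) (nat_lit 38364559) (nat_lit 3198040) [(nat_lit 0), (nat_lit 1540736), (nat_lit 3401111), (nat_lit 8761446)]) (PF.cons PF.nil PF.nil)) (PF.cons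 PF.nil PF.nil))))) (PF.cons (PF.cons (PF.cons (PF.leaf (nat_lit 7642964) (nat_lit 3188857) (nat_lit 39433414) (nat_lit 3188857) [(nat_lit 0), (nat_lit 0), (nat_lit 3394416), (nat_lit 8848854)]) (PF.cons (PF.leaf (nat_lit 7904765) (nat_lit 438979) (nat_lit 39060988) (nat_lit 3189159) [(nat_lit 438979), (nat_lit 0), (nat_lit 3393844), (nat_lit 8815998)]) (PF.cons (PF.leaf (nat_lit 8173040) (nat_lit 444553) (nat_lit 38683066) (nat_lit 3188638) [(nat_lit 444553), (nat_lit 0), (nat_lit 3392428), (nat_lit 8781572)]) (PF.cons PF.nil (PF.cons PF.nil PF.nil))))) (PF.cons (PF.cons (PF.leaf (nat_lit 8308396) (nat_lit 1527771) (nat_lit 38171120) (nat_lit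
 3181757) [(nat_lit 0), (nat_lit 1527771), (nat_lit 3384406), (nat_lit 8729675)]) (PF.cons (PF.leaf (nat_lit 8576145) (nat_lit 449076) (nat_lit 37798992) (nat_lit 3179644) [(nat_lit 449076), (nat_lit 1531631), (nat_lit 3381370), (nat_lit 8693363)]) (PF.cons PF.nil (PF.cons PF.nil PF.nil)))) (PF.cons (PF.cons (PF.leaf (nat_lit 8973755) (nat_lit 1533061) (nat_lit 36936681) (nat_lit 3167608) [(nat_lit 0), (nat_lit 1533061), (nat_lit 3367212), (nat_lit 8601988)]) (PF.cons PF.nil PF.nil)) PF.nil))) (PF.cons (PF.cons (PF.cons (PF.leaf (nat_lit 8756054) (nat_lit 3151935) (nat_lit 36760712) (nat_lit 3151935) [(nat_lit 0), (nat_lit 0), (nat_lit 3351118), (nat_lit 8571404)]) (PF.cons (PF.leaf (nat_lit 9019509) (nat_lit 448642) (nat_lit 36405856) (nat_lit 3148149) [(nat_lit 448642), (nat_lit 0), (nat_lit 3346373), (nat_lit 8533520)]) PF.nil)) (PF.cons PF.nil PF.nil)) (PF.cons PF.nil PF.nil))))) (PF.cons (PF.cons (PF.cons (PF.cons (PF.leaf (nat_lit 7281671) (nat_lit 3095738)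 (nat_lit 38107715) (nat_lit 3095738) [(nat_lit 0), (nat_lit 0), (nat_lit 0), (nat_lit 8635119)]) (PF.cons (PF.leaf (nat_lit 7523599) (nat_lit 412844) (nat_lit 37780965) (nat_lit 3097635) [(nat_lit 412844), (nat_lit 0),
 (nat_lit 0), (nat_lit 8605789)]) (PF.cons (PF.leaf (nat_lit 7774052) (nat_lit 419897) (nat_lit 37445875) (nat_lit 3098730) [(nat_lit 419897), (nat_lit 0), (nat_lit 0), (nat_lit 8574804)]) (PF.cons (PF.leaf (nat_lit 8030947) (nat_lit 426080) (nat_lit 37104609) (nat_lit 3099008) [(nat_lit 426080), (nat_lit 0), (nat_lit 0), (nat_lit 8542317)]) (PF.cons (PF.leaf (nat_lit 8293107) (nat_lit 431534) (nat_lit 36758835) (nat_lit 3098472) [(nat_lit 431534), (nat_lit 0), (nat_lit 0), (nat_lit 8508455)]) (PF.cons PF.nil (PF.cons PF.nil PF.nil))))))) (PF.cons (PF.cons (PF.leaf (nat_lit 7911845) (nat_lit 1473187) (nat_lit 36966049) (nat_lit 3093466) [(nat_lit 0), (nat_lit 1473187), (nat_lit 0), (nat_lit 8525369)]) (PF.cons (PF.leaf (nat_lit 8163032) (nat_lit 425981)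 (nat_lit 36633719) (nat_lit 3092917) [(nat_lit 425981), (nat_lit 1478559), (nat_lit 0), (nat_lit 8492544)]) (PF.cons (PF.leaf (nat_lit 8420534) (nat_lit 431379) (nat_lit 36296245) (nat_lit 3091607) [(nat_lit 431379), (nat_lit 1483235), (nat_lit 0), (nat_lit 8458322)]) (PF.cons (PF.leaf (nat_lit 8682731) (nat_lit 436128) (nat_lit 35955149) (nat_lit 3089545) [(nat_lit 436128), (nat_lit 1487237), (nat_lit 0), (nat_lit 8422831)])
 (PF.cons PF.nil PF.nil))))) (PF.cons (PF.cons (PF.leaf (nat_lit 8548133) (nat_lit 1482530) (nat_lit 35838229) (nat_lit 3083924) [(nat_lit 0), (nat_lit 1482530), (nat_lit 0), (nat_lit 8407199)]) (PF.cons (PF.leaf (nat_lit 8805194) (nat_lit 435615) (nat_lit 35505519) (nat_lit 3081204) [(nat_lit 435615), (nat_lit 1486011), (nat_lit 0), (nat_lit 8371483)]) (PF.cons PF.nil (PF.cons PF.nil PF.nil)))) (PF.cons (PF.cons (PF.leaf (nat_lit 9184930) (nat_lit 1486756) (nat_lit 34733411) (nat_lit 3068181) [(nat_lit 0), (nat_lit 1486756), (nat_lit 0), (nat_lit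 8282316)]) (PF.cons PF.nil PF.nil)) (PF.cons PF.nil PF.nil))))) (PF.cons (PF.cons (PF.cons (PF.leaf (nat_lit 8348908) (nat_lit 3067425) (nat_lit 35652396) (nat_lit 3067425) [(nat_lit 0), (nat_lit 0), (nat_lit 3262790), (nat_lit 8375400)]) (PF.cons (PF.leaf (nat_lit 8597004) (nat_lit 426592) (nat_lit 35334034) (nat_lit 3065205) [(nat_lit 426592), (nat_lit 0), (nat_lit 3259643), (nat_lit 8341111)]) (PF.cons (PF.leaf (nat_lit 8850993) (nat_lit 431509) (nat_lit 35011112) (nat_lit 3062289) [(nat_lit 431509), (nat_lit 0), (nat_lit 3255784), (nat_lit 8305535)]) (PF.cons PF.nil PF.nil)))) (PF.cons (PF.cons (PF.leaf (nat_lit 8972219) (nat_lit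
 1474554) (nat_lit 34576079) (nat_lit 3052955) [(nat_lit 0), (nat_lit 1474554), (nat_lit 3245267), (nat_lit 8253318)]) (PF.cons (PF.leaf (nat_lit 9225428) (nat_lit 434912) (nat_lit 34258242) (nat_lit 3048832) [(nat_lit 434912), (nat_lit 1477000), (nat_lit 3240191), (nat_lit 8216544)]) PF.nil)) (PF.cons PF.nil PF.nil))) (PF.cons (PF.cons (PF.cons (PF.leaf (nat_lit 9380354) (nat_lit 3018687) (nat_lit 33380393) (nat_lit 3018687) [(nat_lit 0), (nat_lit 0), (nat_lit 3207511), (nat_lit 8098236)]) (PF.cons PF.nil PF.nil)) (PF.cons PF.nil PF.nil)) PF.nil))) (PF.cons (PF.cons (PF.cons (PF.cons (PF.leaf (nat_lit 8973529) (nat_lit 2942105) (nat_lit 32472354) (nat_lit 2942105) [(nat_lit 0), (nat_lit 0), (nat_lit 0), (nat_lit 7923588)]) (PF.cons (PF.leaf (nat_lit 9209245) (nat_lit 412998) (nat_lit 32198549) (nat_lit 2938433) [(nat_lit 412998), (nat_lit 0), (nat_lit 0), (nat_lit 7889707)]) (PF.cons (PF.leaf (nat_lit 9450434) (nat_lit 417413) (nat_lit 31920858) (nat_lit 2934158)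 [(nat_lit 417413), (nat_lit 0), (nat_lit 0), (nat_lit 7854742)]) (PF.cons PF.nil PF.nil)))) (PF.cons (PF.cons (PF.leaf (nat_lit 9560386) (nat_lit 1419462) (nat_lit 31548540) (nat_lit 2923649) [(nat_lit 0), (nat_lit
 1419462), (nat_lit 0), (nat_lit 7804289)]) (PF.cons PF.nil PF.nil)) (PF.cons PF.nil PF.nil))) (PF.cons (PF.cons (PF.cons (PF.leaf (nat_lit 9936425) (nat_lit 2887835) (nat_lit 30526772) (nat_lit 2887835) [(nat_lit 0), (nat_lit 0), (nat_lit 3066845), (nat_lit 7656839)]) (PF.cons PF.nil PF.nil)) PF.nil) PF.nil)) (PF.cons PF.nil (PF.cons PF.nil (PF.cons PF.nil (PF.cons PF.nil PF.nil)))))))))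

def p15_18_0_0 : pfC (piC [(nat_lit 40173837), (nat_lit 25770221), (nat_lit 19310217), (nat_lit 12946273)] (nat_lit 22926349)) p15_18_0 (nat_lit 4) (nat_lit 0) (nat_lit 1) = true := by decide +kernel
def p15_18_0_1 : pfC (piC [(nat_lit 40173837), (nat_lit 25770221), (nat_lit 19310217), (nat_lit 12946273)] (nat_lit 22926349)) p15_18_0 (nat_lit 4) (nat_lit 1) (nat_lit 2) = true := by decide +kernel
def p15_18_0_2 : pfC (piC [(nat_lit 40173837), (nat_lit 25770221), (nat_lit 19310217), (nat_lit 12946273)] (nat_lit 22926349)) p15_18_0 (nat_lit 4) (nat_lit 2) (nat_lit 3) = true := by decide +kernel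
def p15_18_0_3 : pfC (piC [(nat_lit 40173837), (nat_lit 25770221), (nat_lit 19310217), (nat_lit 12946273)] (nat_lit 22926349)) p15_18_0 (nat_lit 4) (nat_lit 3) (nat_lit 4) = true := by decide +kernel
def p15_18_0_4 : pfC (piC [(nat_lit 40173837), (nat_lit 25770221), (nat_lit 19310217), (nat_lit 12946273)] (nat_lit 22926349)) p15_18_0 (nat_lit 4) (nat_lit 4) (nat_lit 5) = true := by decide +kernel
def p15_18_0_5 : pfC (piC [(nat_lit 40173837), (nat_lit 25770221), (nat_lit 19310217), (nat_lit 12946273)] (nat_lit 22926349)) p15_18_0 (nat_lit 4) (nat_lit 5) (nat_lit 6) = true := by decide +kernel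
def p15_18_0_6 : pfC (piC [(nat_lit 40173837), (nat_lit 25770221), (nat_lit 19310217), (nat_lit 12946273)] (nat_lit 22926349)) p15_18_0 (nat_lit 4) (nat_lit 6) (nat_lit 7) = true := by decide +kernel
def p15_18_0_7 : pfC (piC [(nat_lit 40173837), (nat_lit 25770221), (nat_lit 19310217), (nat_lit 12946273)] (nat_lit 22926349)) p15_18_0 (nat_lit 4) (nat_lit 7) (nat_lit 8) = true := by decide +kernel
def p15_18_0_8 : pfC (piC [(nat_lit 40173837), (nat_lit 25770221), (nat_lit 19310217), (nat_lit 12946273)] (nat_lit 22926349)) p15_18_0 (nat_lit 4) (nat_lit 8) (nat_lit 9) = true := by decide +kernel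
def p15_18_0_9 : pfC (piC [(nat_lit 40173837), (nat_lit 25770221), (nat_lit 19310217), (nat_lit 12946273)] (nat_lit 22926349)) p15_18_0 (nat_lit 4) (nat_lit 9) (nat_lit 10) = true := by decide +kernel
def p15_18_0_10 : pfC (piC [(nat_lit 40173837), (nat_lit 25770221), (nat_lit 19310217), (nat_lit 12946273)] (nat_lit 22926349)) p15_18_0 (nat_lit 4) (nat_lit 10) (nat_lit 11) = true := by decide +kernel
def p15_18_0_11 : pfC (piC [(nat_lit 40173837), (nat_lit 25770221), (nat_lit 19310217), (nat_lit 12946273)] (nat_lit 22926349)) p15_18_0 (nat_lit 4) (nat_lit 11) (nat_lit 12) = true := by decide +kernel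
def p15_18_0_12 : pfC (piC [(nat_lit 40173837), (nat_lit 25770221), (nat_lit 19310217), (nat_lit 12946273)] (nat_lit 22926349)) p15_18_0 (nat_lit 4) (nat_lit 12) (nat_lit 13) = true := by decide +kernel
def p15_18_0_13 : pfC (piC [(nat_lit 40173837), (nat_lit 25770221), (nat_lit 19310217), (nat_lit 12946273)] (nat_lit 22926349)) p15_18_0 (nat_lit 4) (nat_lit 13) (nat_lit 14) = true := by decide +kernel
def p15_18_0_14 : pfC (piC [(nat_lit 40173837), (nat_lit 25770221), (nat_lit 19310217), (nat_lit 12946273)] (nat_lit 22926349)) p15_18_0 (nat_lit 4) (nat_lit 14) (nat_lit 15) = true := by decide +kernel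
def p15_18_0_15 : pfC (piC [(nat_lit 40173837), (nat_lit 25770221), (nat_lit 19310217), (nat_lit 12946273)] (nat_lit 22926349)) p15_18_0 (nat_lit 4) (nat_lit 15) (nat_lit 16) = true := by decide +kernel
def p15_18_0_16 : pfC (piC [(nat_lit 40173837), (nat_lit 25770221), (nat_lit 19310217), (nat_lit 12946273)] (nat_lit 22926349)) p15_18_0 (nat_lit 4) (nat_lit 16) (nat_lit 17) = true := by decide +kernel
def p15_18_0_17 : pfC (piC [(nat_lit 40173837), (nat_lit 25770221), (nat_lit 19310217), (nat_lit 12946273)] (nat_lit 22926349)) p15_18_0 (nat_lit 4) (nat_lit 17) (nat_lit 18) = true := by decide +kernel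
def p15_18_0_18 : pfC (piC [(nat_lit 40173837), (nat_lit 25770221), (nat_lit 19310217), (nat_lit 12946273)] (nat_lit 22926349)) p15_18_0 (nat_lit 4) (nat_lit 18) (nat_lit 19) = true := by decide +kernel
def p15_18_0_19 : pfC (piC [(nat_lit 40173837), (nat_lit 25770221), (nat_lit 19310217), (nat_lit 12946273)] (nat_lit 22926349)) p15_18_0 (nat_lit 4) (nat_lit 19) (nat_lit 20) = true := by decide +kernel
def p15_18_0_20 : pfC (piC [(nat_lit 40173837), (nat_lit 25770221), (nat_lit 19310217), (nat_lit 12946273)] (nat_lit 22926349)) p15_18_0 (nat_lit 4) (nat_lit 20) (nat_lit 21) = true := by decide +kernel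
def p15_18_0_21 : pfC (piC [(nat_lit 40173837), (nat_lit 25770221), (nat_lit 19310217), (nat_lit 12946273)] (nat_lit 22926349)) p15_18_0 (nat_lit 4) (nat_lit 21) (nat_lit 22) = true := by decide +kernel
def p15_18_0_22 : pfC (piC [(nat_lit 40173837), (nat_lit 25770221), (nat_lit 19310217), (nat_lit 12946273)] (nat_lit 22926349)) p15_18_0 (nat_lit 4) (nat_lit 22) (nat_lit 23) = true := by decide +kernel
def p15_18_0_23 : pfC (piC [(nat_lit 40173837), (nat_lit 25770221), (nat_lit 19310217), (nat_lit 12946273)] (nat_lit 22926349)) p15_18_0 (nat_lit 4) (nat_lit 23) (nat_lit 24) = true := by decide +kernel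
def p15_18_0_24 : pfC (piC [(nat_lit 40173837), (nat_lit 25770221), (nat_lit 19310217), (nat_lit 12946273)] (nat_lit 22926349)) p15_18_0 (nat_lit 4) (nat_lit 24) (nat_lit 25) = true := by decide +kernel
def p15_18_0_25 : pfC (piC [(nat_lit 40173837), (nat_lit 25770221), (nat_lit 19310217), (nat_lit 12946273)] (nat_lit 22926349)) p15_18_0 (nat_lit 4) (nat_lit 25) (nat_lit 26) = true := by decide +kernel
def p15_18_0_26 : pfC (piC [(nat_lit 40173837), (nat_lit 25770221), (nat_lit 19310217), (nat_lit 12946273)] (nat_lit 22926349)) p15_18_0 (nat_lit 4) (nat_lit 26) (nat_lit 27) = true := by decide +kernel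
def p15_18_0_27 : pfC (piC [(nat_lit 40173837), (nat_lit 25770221), (nat_lit 19310217), (nat_lit 12946273)] (nat_lit 22926349)) p15_18_0 (nat_lit 4) (nat_lit 27) (nat_lit 28) = true := by decide +kernel
def p15_18_0_28 : pfC (piC [(nat_lit 40173837), (nat_lit 25770221), (nat_lit 19310217), (nat_lit 12946273)] (nat_lit 22926349)) p15_18_0 (nat_lit 4) (nat_lit 28) (nat_lit 29) = true := by decide +kernel
def p15_18_0_29 : pfC (piC [(nat_lit 40173837), (nat_lit 25770221), (nat_lit 19310217), (nat_lit 12946273)] (nat_lit 22926349)) p15_18_0 (nat_lit 4) (nat_lit 29) (nat_lit 30) = true := by decide +kernel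
def p15_18_0_30 : pfC (piC [(nat_lit 40173837), (nat_lit 25770221), (nat_lit 19310217), (nat_lit 12946273)] (nat_lit 22926349)) p15_18_0 (nat_lit 4) (nat_lit 30) (nat_lit 31) = true := by decide +kernel
def p15_18_0_31 : pfC (piC [(nat_lit 40173837), (nat_lit 25770221), (nat_lit 19310217), (nat_lit 12946273)] (nat_lit 22926349)) p15_18_0 (nat_lit 4) (nat_lit 31) (nat_lit 32) = true := by decide +kernel
def p15_18_0_32 : pfC (piC [(nat_lit 40173837), (nat_lit 25770221), (nat_lit 19310217), (nat_lit 12946273)] (nat_lit 22926349)) p15_18_0 (nat_lit 4) (nat_lit 32) (nat_lit 33) = true := by decide +kernel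
def p15_18_0_33 : pfC (piC [(nat_lit 40173837), (nat_lit 25770221), (nat_lit 19310217), (nat_lit 12946273)] (nat_lit 22926349)) p15_18_0 (nat_lit 4) (nat_lit 33) (nat_lit 34) = true := by decide +kernel
def p15_18_0_34 : pfC (piC [(nat_lit 40173837), (nat_lit 25770221), (nat_lit 19310217), (nat_lit 12946273)] (nat_lit 22926349)) p15_18_0 (nat_lit 4) (nat_lit 34) (nat_lit 35) = true := by decide +kernel
def p15_18_0_35 : pfC (piC [(nat_lit 40173837), (nat_lit 25770221), (nat_lit 19310217), (nat_lit 12946273)] (nat_lit 22926349)) p15_18_0 (nat_lit 4) (nat_lit 35) (nat_lit 36) = true := by decide +kernel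
def p15_18_0_36 : pfC (piC [(nat_lit 40173837), (nat_lit 25770221), (nat_lit 19310217), (nat_lit 12946273)] (nat_lit 22926349)) p15_18_0 (nat_lit 4) (nat_lit 36) (nat_lit 37) = true := by decide +kernel
def p15_18_0_37 : pfC (piC [(nat_lit 40173837), (nat_lit 25770221), (nat_lit 19310217), (nat_lit 12946273)] (nat_lit 22926349)) p15_18_0 (nat_lit 4) (nat_lit 37) (nat_lit 38) = true := by decide +kernel
def p15_18_0_38 : pfC (piC [(nat_lit 40173837), (nat_lit 25770221), (nat_lit 19310217), (nat_lit 12946273)] (nat_lit 22926349)) p15_18_0 (nat_lit 4) (nat_lit 38) (nat_lit 39) = true := by decide +kernel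
def p15_18_0_39 : pfC (piC [(nat_lit 40173837), (nat_lit 25770221), (nat_lit 19310217), (nat_lit 12946273)] (nat_lit 22926349)) p15_18_0 (nat_lit 4) (nat_lit 39) (nat_lit 40) = true := by decide +kernel
def p15_18_0_40 : pfC (piC [(nat_lit 40173837), (nat_lit 25770221), (nat_lit 19310217), (nat_lit 12946273)] (nat_lit 22926349)) p15_18_0 (nat_lit 4) (nat_lit 40) (nat_lit 41) = true := by decide +kernel
def p15_18_0_41 : pfC (piC [(nat_lit 40173837), (nat_lit 25770221), (nat_lit 19310217), (nat_lit 12946273)] (nat_lit 22926349)) p15_18_0 (nat_lit 4) (nat_lit 41) (nat_lit 42) = true := by decide +kernel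
def p15_18_0_42 : pfC (piC [(nat_lit 40173837), (nat_lit 25770221), (nat_lit 19310217), (nat_lit 12946273)] (nat_lit 22926349)) p15_18_0 (nat_lit 4) (nat_lit 42) (nat_lit 43) = true := by decide +kernel
def p15_18_0_43 : pfC (piC [(nat_lit 40173837), (nat_lit 25770221), (nat_lit 19310217), (nat_lit 12946273)] (nat_lit 22926349)) p15_18_0 (nat_lit 4) (nat_lit 43) (nat_lit 44) = true := by decide +kernel
def p15_18_0_44 : pfC (piC [(nat_lit 40173837), (nat_lit 25770221), (nat_lit 19310217), (nat_lit 12946273)] (nat_lit 22926349)) p15_18_0 (nat_lit 4) (nat_lit 44) (nat_lit 45) = true := by decide +kernel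
def p15_18_0_45 : pfC (piC [(nat_lit 40173837), (nat_lit 25770221), (nat_lit 19310217), (nat_lit 12946273)] (nat_lit 22926349)) p15_18_0 (nat_lit 4) (nat_lit 45) (nat_lit 46) = true := by decide +kernel
def p15_18_0_46 : pfC (piC [(nat_lit 40173837), (nat_lit 25770221), (nat_lit 19310217), (nat_lit 12946273)] (nat_lit 22926349)) p15_18_0 (nat_lit 4) (nat_lit 46) (nat_lit 47) = true := by decide +kernel
def p15_18_0_47 : pfC (piC [(nat_lit 40173837), (nat_lit 25770221), (nat_lit 19310217), (nat_lit 12946273)] (nat_lit 22926349)) p15_18_0 (nat_lit 4) (nat_lit 47) (nat_lit 48) = true := by decide +kernel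
def p15_18_0_48 : pfC (piC [(nat_lit 40173837), (nat_lit 25770221), (nat_lit 19310217), (nat_lit 12946273)] (nat_lit 22926349)) p15_18_0 (nat_lit 4) (nat_lit 48) (nat_lit 49) = true := by decide +kernel
def p15_18_0_49 : pfC (piC [(nat_lit 40173837), (nat_lit 25770221), (nat_lit 19310217), (nat_lit 12946273)] (nat_lit 22926349)) p15_18_0 (nat_lit 4) (nat_lit 49) (nat_lit 50) = true := by decide +kernel
def p15_18_0_50 : pfC (piC [(nat_lit 40173837), (nat_lit 25770221), (nat_lit 19310217), (nat_lit 12946273)] (nat_lit 22926349)) p15_18_0 (nat_lit 4) (nat_lit 50) (nat_lit 51) = true := by decide +kernel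
def p15_18_0_51 : pfC (piC [(nat_lit 40173837), (nat_lit 25770221), (nat_lit 19310217), (nat_lit 12946273)] (nat_lit 22926349)) p15_18_0 (nat_lit 4) (nat_lit 51) (nat_lit 52) = true := by decide +kernel
def p15_18_0_52 : pfC (piC [(nat_lit 40173837), (nat_lit 25770221), (nat_lit 19310217), (nat_lit 12946273)] (nat_lit 22926349)) p15_18_0 (nat_lit 4) (nat_lit 52) (nat_lit 53) = true := by decide +kernel
def p15_18_0_53 : pfC (piC [(nat_lit 40173837), (nat_lit 25770221), (nat_lit 19310217), (nat_lit 12946273)] (nat_lit 22926349)) p15_18_0 (nat_lit 4) (nat_lit 53) (nat_lit 54) = true := by decide +kernel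
def p15_18_0_54 : pfC (piC [(nat_lit 40173837), (nat_lit 25770221), (nat_lit 19310217), (nat_lit 12946273)] (nat_lit 22926349)) p15_18_0 (nat_lit 4) (nat_lit 54) (nat_lit 55) = true := by decide +kernel
def p15_18_0_55 : pfC (piC [(nat_lit 40173837), (nat_lit 25770221), (nat_lit 19310217), (nat_lit 12946273)] (nat_lit 22926349)) p15_18_0 (nat_lit 4) (nat_lit 55) (nat_lit 56) = true := by decide +kernel
def p15_18_0_56 : pfC (piC [(nat_lit 40173837), (nat_lit 25770221), (nat_lit 19310217), (nat_lit 12946273)] (nat_lit 22926349)) p15_18_0 (nat_lit 4) (nat_lit 56) (nat_lit 57) = true := by decide +kernel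
def p15_18_0_57 : pfC (piC [(nat_lit 40173837), (nat_lit 25770221), (nat_lit 19310217), (nat_lit 12946273)] (nat_lit 22926349)) p15_18_0 (nat_lit 4) (nat_lit 57) (nat_lit 58) = true := by decide +kernel
def p15_18_0_58 : pfC (piC [(nat_lit 40173837), (nat_lit 25770221), (nat_lit 19310217), (nat_lit 12946273)] (nat_lit 22926349)) p15_18_0 (nat_lit 4) (nat_lit 58) (nat_lit 59) = true := by decide +kernel
def p15_18_0_59 : pfC (piC [(nat_lit 40173837), (nat_lit 25770221), (nat_lit 19310217), (nat_lit 12946273)] (nat_lit 22926349)) p15_18_0 (nat_lit 4) (nat_lit 59) (nat_lit 60) = true := by decide +kernel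
def p15_18_0_60 : pfC (piC [(nat_lit 40173837), (nat_lit 25770221), (nat_lit 19310217), (nat_lit 12946273)] (nat_lit 22926349)) p15_18_0 (nat_lit 4) (nat_lit 60) (nat_lit 61) = true := by decide +kernel
def p15_18_0_61 : pfC (piC [(nat_lit 40173837), (nat_lit 25770221), (nat_lit 19310217), (nat_lit 12946273)] (nat_lit 22926349)) p15_18_0 (nat_lit 4) (nat_lit 61) (nat_lit 62) = true := by decide +kernel
def p15_18_0_62 : pfC (piC [(nat_lit 40173837), (nat_lit 25770221), (nat_lit 19310217), (nat_lit 12946273)] (nat_lit 22926349)) p15_18_0 (nat_lit 4) (nat_lit 62) (nat_lit 63) = true := by decide +kernel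
def p15_18_0_63 : pfC (piC [(nat_lit 40173837), (nat_lit 25770221), (nat_lit 19310217), (nat_lit 12946273)] (nat_lit 22926349)) p15_18_0 (nat_lit 4) (nat_lit 63) (nat_lit 64) = true := by decide +kernel
def p15_18_0_64 : pfC (piC [(nat_lit 40173837), (nat_lit 25770221), (nat_lit 19310217), (nat_lit 12946273)] (nat_lit 22926349)) p15_18_0 (nat_lit 4) (nat_lit 64) (nat_lit 65) = true := by decide +kernel
def p15_18_0_65 : pfC (piC [(nat_lit 40173837), (nat_lit 25770221), (nat_lit 19310217), (nat_lit 12946273)] (nat_lit 22926349)) p15_18_0 (nat_lit 4) (nat_lit 65) (nat_lit 66) = true := by decide +kernel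
def p15_18_0_66 : pfC (piC [(nat_lit 40173837), (nat_lit 25770221), (nat_lit 19310217), (nat_lit 12946273)] (nat_lit 22926349)) p15_18_0 (nat_lit 4) (nat_lit 66) (nat_lit 67) = true := by decide +kernel
def p15_18_0_67 : pfC (piC [(nat_lit 40173837), (nat_lit 25770221), (nat_lit 19310217), (nat_lit 12946273)] (nat_lit 22926349)) p15_18_0 (nat_lit 4) (nat_lit 67) (nat_lit 68) = true := by decide +kernel
def p15_18_0_68 : pfC (piC [(nat_lit 40173837), (nat_lit 25770221), (nat_lit 19310217), (nat_lit 12946273)] (nat_lit 22926349)) p15_18_0 (nat_lit 4) (nat_lit 68) (nat_lit 69) = true := by decide +kernel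
def p15_18_0_69 : pfC (piC [(nat_lit 40173837), (nat_lit 25770221), (nat_lit 19310217), (nat_lit 12946273)] (nat_lit 22926349)) p15_18_0 (nat_lit 4) (nat_lit 69) (nat_lit 70) = true := by decide +kernel
def p15_18_0_70 : pfC (piC [(nat_lit 40173837), (nat_lit 25770221), (nat_lit 19310217), (nat_lit 12946273)] (nat_lit 22926349)) p15_18_0 (nat_lit 4) (nat_lit 70) (nat_lit 71) = true := by decide +kernel
def p15_18_0_71 : pfC (piC [(nat_lit 40173837), (nat_lit 25770221), (nat_lit 19310217), (nat_lit 12946273)] (nat_lit 22926349)) p15_18_0 (nat_lit 4) (nat_lit 71) (nat_lit 72) = true := by decide +kernel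
def p15_18_0_72 : pfC (piC [(nat_lit 40173837), (nat_lit 25770221), (nat_lit 19310217), (nat_lit 12946273)] (nat_lit 22926349)) p15_18_0 (nat_lit 4) (nat_lit 72) (nat_lit 73) = true := by decide +kernel
def p15_18_0_73 : pfC (piC [(nat_lit 40173837), (nat_lit 25770221), (nat_lit 19310217), (nat_lit 12946273)] (nat_lit 22926349)) p15_18_0 (nat_lit 4) (nat_lit 73) (nat_lit 74) = true := by decide +kernel
def p15_18_0_74 : pfC (piC [(nat_lit 40173837), (nat_lit 25770221), (nat_lit 19310217), (nat_lit 12946273)] (nat_lit 22926349)) p15_18_0 (nat_lit 4) (nat_lit 74) (nat_lit 75) = true := by decide +kernel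
def p15_18_0_75 : pfC (piC [(nat_lit 40173837), (nat_lit 25770221), (nat_lit 19310217), (nat_lit 12946273)] (nat_lit 22926349)) p15_18_0 (nat_lit 4) (nat_lit 75) (nat_lit 76) = true := by decide +kernel
def p15_18_0_76 : pfC (piC [(nat_lit 40173837), (nat_lit 25770221), (nat_lit 19310217), (nat_lit 12946273)] (nat_lit 22926349)) p15_18_0 (nat_lit 4) (nat_lit 76) (nat_lit 77) = true := by decide +kernel
def p15_18_0_77 : pfC (piC [(nat_lit 40173837), (nat_lit 25770221), (nat_lit 19310217), (nat_lit 12946273)] (nat_lit 22926349)) p15_18_0 (nat_lit 4) (nat_lit 77) (nat_lit 78) = true := by decide +kernel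
def p15_18_0_78 : pfC (piC [(nat_lit 40173837), (nat_lit 25770221), (nat_lit 19310217), (nat_lit 12946273)] (nat_lit 22926349)) p15_18_0 (nat_lit 4) (nat_lit 78) (nat_lit 79) = true := by decide +kernel
def p15_18_0_79 : pfC (piC [(nat_lit 40173837), (nat_lit 25770221), (nat_lit 19310217), (nat_lit 12946273)] (nat_lit 22926349)) p15_18_0 (nat_lit 4) (nat_lit 79) (nat_lit 80) = true := by decide +kernel
def p15_18_0_80 : pfC (piC [(nat_lit 40173837), (nat_lit 25770221), (nat_lit 19310217), (nat_lit 12946273)] (nat_lit 22926349)) p15_18_0 (nat_lit 4) (nat_lit 80) (nat_lit 81) = true := by decide +kernel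
def p15_18_0_81 : pfC (piC [(nat_lit 40173837), (nat_lit 25770221), (nat_lit 19310217), (nat_lit 12946273)] (nat_lit 22926349)) p15_18_0 (nat_lit 4) (nat_lit 81) (nat_lit 82) = true := by decide +kernel
def p15_18_0_82 : pfC (piC [(nat_lit 40173837), (nat_lit 25770221), (nat_lit 19310217), (nat_lit 12946273)] (nat_lit 22926349)) p15_18_0 (nat_lit 4) (nat_lit 82) (nat_lit 83) = true := by decide +kernel
def p15_18_0_83 : pfC (piC [(nat_lit 40173837), (nat_lit 25770221), (nat_lit 19310217), (nat_lit 12946273)] (nat_lit 22926349)) p15_18_0 (nat_lit 4) (nat_lit 83) (nat_lit 84) = true := by decide +kernel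
def p15_18_0_84 : pfC (piC [(nat_lit 40173837), (nat_lit 25770221), (nat_lit 19310217), (nat_lit 12946273)] (nat_lit 22926349)) p15_18_0 (nat_lit 4) (nat_lit 84) (nat_lit 85) = true := by decide +kernel
def p15_18_0_85 : pfC (piC [(nat_lit 40173837), (nat_lit 25770221), (nat_lit 19310217), (nat_lit 12946273)] (nat_lit 22926349)) p15_18_0 (nat_lit 4) (nat_lit 85) (nat_lit 86) = true := by decide +kernel
def p15_18_0_86 : pfC (piC [(nat_lit 40173837), (nat_lit 25770221), (nat_lit 19310217), (nat_lit 12946273)] (nat_lit 22926349)) p15_18_0 (nat_lit 4) (nat_lit 86) (nat_lit 87) = true := by decide +kernel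
def p15_18_0_87 : pfC (piC [(nat_lit 40173837), (nat_lit 25770221), (nat_lit 19310217), (nat_lit 12946273)] (nat_lit 22926349)) p15_18_0 (nat_lit 4) (nat_lit 87) (nat_lit 88) = true := by decide +kernel
def p15_18_0_88 : pfC (piC [(nat_lit 40173837), (nat_lit 25770221), (nat_lit 19310217), (nat_lit 12946273)] (nat_lit 22926349)) p15_18_0 (nat_lit 4) (nat_lit 88) (nat_lit 89) = true := by decide +kernel
def p15_18_0_89 : pfC (piC [(nat_lit 40173837), (nat_lit 25770221), (nat_lit 19310217), (nat_lit 12946273)] (nat_lit 22926349)) p15_18_0 (nat_lit 4) (nat_lit 89) (nat_lit 90) = true := by decide +kernel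
def p15_18_0_90 : pfC (piC [(nat_lit 40173837), (nat_lit 25770221), (nat_lit 19310217), (nat_lit 12946273)] (nat_lit 22926349)) p15_18_0 (nat_lit 4) (nat_lit 90) (nat_lit 91) = true := by decide +kernel
def p15_18_0_91 : pfC (piC [(nat_lit 40173837), (nat_lit 25770221), (nat_lit 19310217), (nat_lit 12946273)] (nat_lit 22926349)) p15_18_0 (nat_lit 4) (nat_lit 91) (nat_lit 92) = true := by decide +kernel
def p15_18_0_92 : pfC (piC [(nat_lit 40173837), (nat_lit 25770221), (nat_lit 19310217), (nat_lit 12946273)] (nat_lit 22926349)) p15_18_0 (nat_lit 4) (nat_lit 92) (nat_lit 93) = true := by decide +kernel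
def p15_18_0_93 : pfC (piC [(nat_lit 40173837), (nat_lit 25770221), (nat_lit 19310217), (nat_lit 12946273)] (nat_lit 22926349)) p15_18_0 (nat_lit 4) (nat_lit 93) (nat_lit 94) = true := by decide +kernel
def p15_18_0_94 : pfC (piC [(nat_lit 40173837), (nat_lit 25770221), (nat_lit 19310217), (nat_lit 12946273)] (nat_lit 22926349)) p15_18_0 (nat_lit 4) (nat_lit 94) (nat_lit 95) = true := by decide +kernel
def p15_18_0_95 : pfC (piC [(nat_lit 40173837), (nat_lit 25770221), (nat_lit 19310217), (nat_lit 12946273)] (nat_lit 22926349)) p15_18_0 (nat_lit 4) (nat_lit 95) (nat_lit 96) = true := by decide +kernel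
def p15_18_0_96 : pfC (piC [(nat_lit 40173837), (nat_lit 25770221), (nat_lit 19310217), (nat_lit 12946273)] (nat_lit 22926349)) p15_18_0 (nat_lit 4) (nat_lit 96) (nat_lit 97) = true := by decide +kernel
def p15_18_0_97 : pfC (piC [(nat_lit 40173837), (nat_lit 25770221), (nat_lit 19310217), (nat_lit 12946273)] (nat_lit 22926349)) p15_18_0 (nat_lit 4) (nat_lit 97) (nat_lit 98) = true := by decide +kernel
def p15_18_0_98 : pfC (piC [(nat_lit 40173837), (nat_lit 25770221), (nat_lit 19310217), (nat_lit 12946273)] (nat_lit 22926349)) p15_18_0 (nat_lit 4) (nat_lit 98) (nat_lit 99) = true := by decide +kernel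
def p15_18_0_99 : pfC (piC [(nat_lit 40173837), (nat_lit 25770221), (nat_lit 19310217), (nat_lit 12946273)] (nat_lit 22926349)) p15_18_0 (nat_lit 4) (nat_lit 99) (nat_lit 100) = true := by decide +kernel
def p15_18_0_100 : pfC (piC [(nat_lit 40173837), (nat_lit 25770221), (nat_lit 19310217), (nat_lit 12946273)] (nat_lit 22926349)) p15_18_0 (nat_lit 4) (nat_lit 100) (nat_lit 101) = true := by decide +kernel
def p15_18_0_101 : pfC (piC [(nat_lit 40173837), (nat_lit 25770221), (nat_lit 19310217), (nat_lit 12946273)] (nat_lit 22926349)) p15_18_0 (nat_lit 4) (nat_lit 101) (nat_lit 102) = true := by decide +kernel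
def p15_18_0_102 : pfC (piC [(nat_lit 40173837), (nat_lit 25770221), (nat_lit 19310217), (nat_lit 12946273)] (nat_lit 22926349)) p15_18_0 (nat_lit 4) (nat_lit 102) (nat_lit 103) = true := by decide +kernel
def p15_18_0_103 : pfC (piC [(nat_lit 40173837), (nat_lit 25770221), (nat_lit 19310217), (nat_lit 12946273)] (nat_lit 22926349)) p15_18_0 (nat_lit 4) (nat_lit 103) (nat_lit 104) = true := by decide +kernel
def p15_18_0_104 : pfC (piC [(nat_lit 40173837), (nat_lit 25770221), (nat_lit 19310217), (nat_lit 12946273)] (nat_lit 22926349)) p15_18_0 (nat_lit 4) (nat_lit 104) (nat_lit 105) = true := by decide +kernel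
def p15_18_0_105 : pfC (piC [(nat_lit 40173837), (nat_lit 25770221), (nat_lit 19310217), (nat_lit 12946273)] (nat_lit 22926349)) p15_18_0 (nat_lit 4) (nat_lit 105) (nat_lit 106) = true := by decide +kernel
def p15_18_0_106 : pfC (piC [(nat_lit 40173837), (nat_lit 25770221), (nat_lit 19310217), (nat_lit 12946273)] (nat_lit 22926349)) p15_18_0 (nat_lit 4) (nat_lit 106) (nat_lit 107) = true := by decide +kernel
def p15_18_0_107 : pfC (piC [(nat_lit 40173837), (nat_lit 25770221), (nat_lit 19310217), (nat_lit 12946273)] (nat_lit 22926349)) p15_18_0 (nat_lit 4) (nat_lit 107) (nat_lit 108) = true := by decide +kernel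
def p15_18_0_108 : pfC (piC [(nat_lit 40173837), (nat_lit 25770221), (nat_lit 19310217), (nat_lit 12946273)] (nat_lit 22926349)) p15_18_0 (nat_lit 4) (nat_lit 108) (nat_lit 109) = true := by decide +kernel
def p15_18_0_109 : pfC (piC [(nat_lit 40173837), (nat_lit 25770221), (nat_lit 19310217), (nat_lit 12946273)] (nat_lit 22926349)) p15_18_0 (nat_lit 4) (nat_lit 109) (nat_lit 110) = true := by decide +kernel
def p15_18_0_110 : pfC (piC [(nat_lit 40173837), (nat_lit 25770221), (nat_lit 19310217), (nat_lit 12946273)] (nat_lit 22926349)) p15_18_0 (nat_lit 4) (nat_lit 110) (nat_lit 111) = true := by decide +kernel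
def p15_18_0_111 : pfC (piC [(nat_lit 40173837), (nat_lit 25770221), (nat_lit 19310217), (nat_lit 12946273)] (nat_lit 22926349)) p15_18_0 (nat_lit 4) (nat_lit 111) (nat_lit 112) = true := by decide +kernel
def p15_18_0_112 : pfC (piC [(nat_lit 40173837), (nat_lit 25770221), (nat_lit 19310217), (nat_lit 12946273)] (nat_lit 22926349)) p15_18_0 (nat_lit 4) (nat_lit 112) (nat_lit 113) = true := by decide +kernel
def p15_18_0_113 : pfC (piC [(nat_lit 40173837), (nat_lit 25770221), (nat_lit 19310217), (nat_lit 12946273)] (nat_lit 22926349)) p15_18_0 (nat_lit 4) (nat_lit 113) (nat_lit 114) = true := by decide +kernel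
def p15_18_0_114 : pfC (piC [(nat_lit 40173837), (nat_lit 25770221), (nat_lit 19310217), (nat_lit 12946273)] (nat_lit 22926349)) p15_18_0 (nat_lit 4) (nat_lit 114) (nat_lit 115) = true := by decide +kernel
def p15_18_0_115 : pfC (piC [(nat_lit 40173837), (nat_lit 25770221), (nat_lit 19310217), (nat_lit 12946273)] (nat_lit 22926349)) p15_18_0 (nat_lit 4) (nat_lit 115) (nat_lit 116) = true := by decide +kernel
def p15_18_0_116 : pfC (piC [(nat_lit 40173837), (nat_lit 25770221), (nat_lit 19310217), (nat_lit 12946273)] (nat_lit 22926349)) p15_18_0 (nat_lit 4) (nat_lit 116) (nat_lit 117) = true := by decide +kernel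
def p15_18_0_117 : pfC (piC [(nat_lit 40173837), (nat_lit 25770221), (nat_lit 19310217), (nat_lit 12946273)] (nat_lit 22926349)) p15_18_0 (nat_lit 4) (nat_lit 117) (nat_lit 118) = true := by decide +kernel
def p15_18_0_118 : pfC (piC [(nat_lit 40173837), (nat_lit 25770221), (nat_lit 19310217), (nat_lit 12946273)] (nat_lit 22926349)) p15_18_0 (nat_lit 4) (nat_lit 118) (nat_lit 119) = true := by decide +kernel
def p15_18_0_119 : pfC (piC [(nat_lit 40173837), (nat_lit 25770221), (nat_lit 19310217), (nat_lit 12946273)] (nat_lit 22926349)) p15_18_0 (nat_lit 4) (nat_lit 119) (nat_lit 120) = true := by decide +kernel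
def p15_18_0_120 : pfC (piC [(nat_lit 40173837), (nat_lit 25770221), (nat_lit 19310217), (nat_lit 12946273)] (nat_lit 22926349)) p15_18_0 (nat_lit 4) (nat_lit 120) (nat_lit 121) = true := by decide +kernel
def p15_18_0_121 : pfC (piC [(nat_lit 40173837), (nat_lit 25770221), (nat_lit 19310217), (nat_lit 12946273)] (nat_lit 22926349)) p15_18_0 (nat_lit 4) (nat_lit 121) (nat_lit 122) = true := by decide +kernel
def p15_18_0_122 : pfC (piC [(nat_lit 40173837), (nat_lit 25770221), (nat_lit 19310217), (nat_lit 12946273)] (nat_lit 22926349)) p15_18_0 (nat_lit 4) (nat_lit 122) (nat_lit 123) = true := by decide +kernel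
def p15_18_0_123 : pfC (piC [(nat_lit 40173837), (nat_lit 25770221), (nat_lit 19310217), (nat_lit 12946273)] (nat_lit 22926349)) p15_18_0 (nat_lit 4) (nat_lit 123) (nat_lit 124) = true := by decide +kernel
def p15_18_0_124 : pfC (piC [(nat_lit 40173837), (nat_lit 25770221), (nat_lit 19310217), (nat_lit 12946273)] (nat_lit 22926349)) p15_18_0 (nat_lit 4) (nat_lit 124) (nat_lit 125) = true := by decide +kernel
def p15_18_0_125 : pfC (piC [(nat_lit 40173837), (nat_lit 25770221), (nat_lit 19310217), (nat_lit 12946273)] (nat_lit 22926349)) p15_18_0 (nat_lit 4) (nat_lit 125) (nat_lit 126) = true := by decide +kernel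
def p15_18_0_126 : pfC (piC [(nat_lit 40173837), (nat_lit 25770221), (nat_lit 19310217), (nat_lit 12946273)] (nat_lit 22926349)) p15_18_0 (nat_lit 4) (nat_lit 126) (nat_lit 127) = true := by decide +kernel
def p15_18_0_127 : pfC (piC [(nat_lit 40173837), (nat_lit 25770221), (nat_lit 19310217), (nat_lit 12946273)] (nat_lit 22926349)) p15_18_0 (nat_lit 4) (nat_lit 127) (nat_lit 128) = true := by decide +kernel
def p15_18_0_128 : pfC (piC [(nat_lit 40173837), (nat_lit 25770221), (nat_lit 19310217), (nat_lit 12946273)] (nat_lit 22926349)) p15_18_0 (nat_lit 4) (nat_lit 128) (nat_lit 129) = true := by decide +kernel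
def p15_18_0_129 : pfC (piC [(nat_lit 40173837), (nat_lit 25770221), (nat_lit 19310217), (nat_lit 12946273)] (nat_lit 22926349)) p15_18_0 (nat_lit 4) (nat_lit 129) (nat_lit 130) = true := by decide +kernel
def p15_18_0_130 : pfC (piC [(nat_lit 40173837), (nat_lit 25770221), (nat_lit 19310217), (nat_lit 12946273)] (nat_lit 22926349)) p15_18_0 (nat_lit 4) (nat_lit 130) (nat_lit 131) = true := by decide +kernel
def p15_18_0_131 : pfC (piC [(nat_lit 40173837), (nat_lit 25770221), (nat_lit 19310217), (nat_lit 12946273)] (nat_lit 22926349)) p15_18_0 (nat_lit 4) (nat_lit 131) (nat_lit 132) = true := by decide +kernel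
def p15_18_0_132 : pfC (piC [(nat_lit 40173837), (nat_lit 25770221), (nat_lit 19310217), (nat_lit 12946273)] (nat_lit 22926349)) p15_18_0 (nat_lit 4) (nat_lit 132) (nat_lit 133) = true := by decide +kernel
def p15_18_0_133 : pfC (piC [(nat_lit 40173837), (nat_lit 25770221), (nat_lit 19310217), (nat_lit 12946273)] (nat_lit 22926349)) p15_18_0 (nat_lit 4) (nat_lit 133) (nat_lit 134) = true := by decide +kernel
def p15_18_0_134 : pfC (piC [(nat_lit 40173837), (nat_lit 25770221), (nat_lit 19310217), (nat_lit 12946273)] (nat_lit 22926349)) p15_18_0 (nat_lit 4) (nat_lit 134) (nat_lit 135) = true := by decide +kernel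
def p15_18_0_135 : pfC (piC [(nat_lit 40173837), (nat_lit 25770221), (nat_lit 19310217), (nat_lit 12946273)] (nat_lit 22926349)) p15_18_0 (nat_lit 4) (nat_lit 135) (nat_lit 136) = true := by decide +kernel
def p15_18_0_136 : pfC (piC [(nat_lit 40173837), (nat_lit 25770221), (nat_lit 19310217), (nat_lit 12946273)] (nat_lit 22926349)) p15_18_0 (nat_lit 4) (nat_lit 136) (nat_lit 137) = true := by decide +kernel
def p15_18_0_137 : pfC (piC [(nat_lit 40173837), (nat_lit 25770221), (nat_lit 19310217), (nat_lit 12946273)] (nat_lit 22926349)) p15_18_0 (nat_lit 4) (nat_lit 137) (nat_lit 138) = true := by decide +kernel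
def p15_18_0_138 : pfC (piC [(nat_lit 40173837), (nat_lit 25770221), (nat_lit 19310217), (nat_lit 12946273)] (nat_lit 22926349)) p15_18_0 (nat_lit 4) (nat_lit 138) (nat_lit 139) = true := by decide +kernel
def p15_18_0_139 : pfC (piC [(nat_lit 40173837), (nat_lit 25770221), (nat_lit 19310217), (nat_lit 12946273)] (nat_lit 22926349)) p15_18_0 (nat_lit 4) (nat_lit 139) (nat_lit 140) = true := by decide +kernel
def p15_18_0_140 : pfC (piC [(nat_lit 40173837), (nat_lit 25770221), (nat_lit 19310217), (nat_lit 12946273)] (nat_lit 22926349)) p15_18_0 (nat_lit 4) (nat_lit 140) (nat_lit 141) = true := by decide +kernel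
def p15_18_0_141 : pfC (piC [(nat_lit 40173837), (nat_lit 25770221), (nat_lit 19310217), (nat_lit 12946273)] (nat_lit 22926349)) p15_18_0 (nat_lit 4) (nat_lit 141) (nat_lit 142) = true := by decide +kernel
def p15_18_0_142 : pfC (piC [(nat_lit 40173837), (nat_lit 25770221), (nat_lit 19310217), (nat_lit 12946273)] (nat_lit 22926349)) p15_18_0 (nat_lit 4) (nat_lit 142) (nat_lit 143) = true := by decide +kernel
def p15_18_0_143 : pfC (piC [(nat_lit 40173837), (nat_lit 25770221), (nat_lit 19310217), (nat_lit 12946273)] (nat_lit 22926349)) p15_18_0 (nat_lit 4) (nat_lit 143) (nat_lit 144) = true := by decide +kernel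
def p15_18_0_144 : pfC (piC [(nat_lit 40173837), (nat_lit 25770221), (nat_lit 19310217), (nat_lit 12946273)] (nat_lit 22926349)) p15_18_0 (nat_lit 4) (nat_lit 144) (nat_lit 145) = true := by decide +kernel
def p15_18_0_145 : pfC (piC [(nat_lit 40173837), (nat_lit 25770221), (nat_lit 19310217), (nat_lit 12946273)] (nat_lit 22926349)) p15_18_0 (nat_lit 4) (nat_lit 145) (nat_lit 146) = true := by decide +kernel
def p15_18_0_146 : pfC (piC [(nat_lit 40173837), (nat_lit 25770221), (nat_lit 19310217), (nat_lit 12946273)] (nat_lit 22926349)) p15_18_0 (nat_lit 4) (nat_lit 146) (nat_lit 147) = true := by decide +kernel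
def p15_18_0_147 : pfC (piC [(nat_lit 40173837), (nat_lit 25770221), (nat_lit 19310217), (nat_lit 12946273)] (nat_lit 22926349)) p15_18_0 (nat_lit 4) (nat_lit 147) (nat_lit 148) = true := by decide +kernel
def p15_18_0_148 : pfC (piC [(nat_lit 40173837), (nat_lit 25770221), (nat_lit 19310217), (nat_lit 12946273)] (nat_lit 22926349)) p15_18_0 (nat_lit 4) (nat_lit 148) (nat_lit 149) = true := by decide +kernel
def p15_18_0_149 : pfC (piC [(nat_lit 40173837), (nat_lit 25770221), (nat_lit 19310217), (nat_lit 12946273)] (nat_lit 22926349)) p15_18_0 (nat_lit 4) (nat_lit 149) (nat_lit 150) = true := by decide +kernel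
def p15_18_0_150 : pfC (piC [(nat_lit 40173837), (nat_lit 25770221), (nat_lit 19310217), (nat_lit 12946273)] (nat_lit 22926349)) p15_18_0 (nat_lit 4) (nat_lit 150) (nat_lit 151) = true := by decide +kernel
def p15_18_0_151 : pfC (piC [(nat_lit 40173837), (nat_lit 25770221), (nat_lit 19310217), (nat_lit 12946273)] (nat_lit 22926349)) p15_18_0 (nat_lit 4) (nat_lit 151) (nat_lit 152) = true := by decide +kernel
def p15_18_0_152 : pfC (piC [(nat_lit 40173837), (nat_lit 25770221), (nat_lit 19310217), (nat_lit 12946273)] (nat_lit 22926349)) p15_18_0 (nat_lit 4) (nat_lit 152) (nat_lit 153) = true := by decide +kernel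
def p15_18_0_153 : pfC (piC [(nat_lit 40173837), (nat_lit 25770221), (nat_lit 19310217), (nat_lit 12946273)] (nat_lit 22926349)) p15_18_0 (nat_lit 4) (nat_lit 153) (nat_lit 154) = true := by decide +kernel
def p15_18_0_154 : pfC (piC [(nat_lit 40173837), (nat_lit 25770221), (nat_lit 19310217), (nat_lit 12946273)] (nat_lit 22926349)) p15_18_0 (nat_lit 4) (nat_lit 154) (nat_lit 155) = true := by decide +kernel
def p15_18_0_155 : pfC (piC [(nat_lit 40173837), (nat_lit 25770221), (nat_lit 19310217), (nat_lit 12946273)] (nat_lit 22926349)) p15_18_0 (nat_lit 4) (nat_lit 155) (nat_lit 156) = true := by decide +kernel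
def p15_18_0_156 : pfC (piC [(nat_lit 40173837), (nat_lit 25770221), (nat_lit 19310217), (nat_lit 12946273)] (nat_lit 22926349)) p15_18_0 (nat_lit 4) (nat_lit 156) (nat_lit 157) = true := by decide +kernel
def p15_18_0_157 : pfC (piC [(nat_lit 40173837), (nat_lit 25770221), (nat_lit 19310217), (nat_lit 12946273)] (nat_lit 22926349)) p15_18_0 (nat_lit 4) (nat_lit 157) (nat_lit 158) = true := by decide +kernel
def p15_18_0_158 : pfC (piC [(nat_lit 40173837), (nat_lit 25770221), (nat_lit 19310217), (nat_lit 12946273)] (nat_lit 22926349)) p15_18_0 (nat_lit 4) (nat_lit 158) (nat_lit 159) = true := by decide +kernel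
def p15_18_0_159 : pfC (piC [(nat_lit 40173837), (nat_lit 25770221), (nat_lit 19310217), (nat_lit 12946273)] (nat_lit 22926349)) p15_18_0 (nat_lit 4) (nat_lit 159) (nat_lit 160) = true := by decide +kernel
def p15_18_0_160 : pfC (piC [(nat_lit 40173837), (nat_lit 25770221), (nat_lit 19310217), (nat_lit 12946273)] (nat_lit 22926349)) p15_18_0 (nat_lit 4) (nat_lit 160) (nat_lit 161) = true := by decide +kernel
def p15_18_0_161 : pfC (piC [(nat_lit 40173837), (nat_lit 25770221), (nat_lit 19310217), (nat_lit 12946273)] (nat_lit 22926349)) p15_18_0 (nat_lit 4) (nat_lit 161) (nat_lit 162) = true := by decide +kernel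
def p15_18_0_162 : pfC (piC [(nat_lit 40173837), (nat_lit 25770221), (nat_lit 19310217), (nat_lit 12946273)] (nat_lit 22926349)) p15_18_0 (nat_lit 4) (nat_lit 162) (nat_lit 163) = true := by decide +kernel
def p15_18_0_163 : pfC (piC [(nat_lit 40173837), (nat_lit 25770221), (nat_lit 19310217), (nat_lit 12946273)] (nat_lit 22926349)) p15_18_0 (nat_lit 4) (nat_lit 163) (nat_lit 164) = true := by decide +kernel
def p15_18_0_164 : pfC (piC [(nat_lit 40173837), (nat_lit 25770221), (nat_lit 19310217), (nat_lit 12946273)] (nat_lit 22926349)) p15_18_0 (nat_lit 4) (nat_lit 164) (nat_lit 165) = true := by decide +kernel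
def p15_18_0_165 : pfC (piC [(nat_lit 40173837), (nat_lit 25770221), (nat_lit 19310217), (nat_lit 12946273)] (nat_lit 22926349)) p15_18_0 (nat_lit 4) (nat_lit 165) (nat_lit 166) = true := by decide +kernel
def p15_18_0_166 : pfC (piC [(nat_lit 40173837), (nat_lit 25770221), (nat_lit 19310217), (nat_lit 12946273)] (nat_lit 22926349)) p15_18_0 (nat_lit 4) (nat_lit 166) (nat_lit 167) = true := by decide +kernel
def p15_18_0_167 : pfC (piC [(nat_lit 40173837), (nat_lit 25770221), (nat_lit 19310217), (nat_lit 12946273)] (nat_lit 22926349)) p15_18_0 (nat_lit 4) (nat_lit 167) (nat_lit 168) = true := by decide +kernel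
def p15_18_0_168 : pfC (piC [(nat_lit 40173837), (nat_lit 25770221), (nat_lit 19310217), (nat_lit 12946273)] (nat_lit 22926349)) p15_18_0 (nat_lit 4) (nat_lit 168) (nat_lit 169) = true := by decide +kernel
def p15_18_0_169 : pfC (piC [(nat_lit 40173837), (nat_lit 25770221), (nat_lit 19310217), (nat_lit 12946273)] (nat_lit 22926349)) p15_18_0 (nat_lit 4) (nat_lit 169) (nat_lit 170) = true := by decide +kernel
def p15_18_0_170 : pfC (piC [(nat_lit 40173837), (nat_lit 25770221), (nat_lit 19310217), (nat_lit 12946273)] (nat_lit 22926349)) p15_18_0 (nat_lit 4) (nat_lit 170) (nat_lit 171) = true := by decide +kernel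
def p15_18_0_171 : pfC (piC [(nat_lit 40173837), (nat_lit 25770221), (nat_lit 19310217), (nat_lit 12946273)] (nat_lit 22926349)) p15_18_0 (nat_lit 4) (nat_lit 171) (nat_lit 172) = true := by decide +kernel
def p15_18_0_172 : pfC (piC [(nat_lit 40173837), (nat_lit 25770221), (nat_lit 19310217), (nat_lit 12946273)] (nat_lit 22926349)) p15_18_0 (nat_lit 4) (nat_lit 172) (nat_lit 173) = true := by decide +kernel
def p15_18_0_173 : pfC (piC [(nat_lit 40173837), (nat_lit 25770221), (nat_lit 19310217), (nat_lit 12946273)] (nat_lit 22926349)) p15_18_0 (nat_lit 4) (nat_lit 173) (nat_lit 174) = true := by decide +kernel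
def p15_18_0_174 : pfC (piC [(nat_lit 40173837), (nat_lit 25770221), (nat_lit 19310217), (nat_lit 12946273)] (nat_lit 22926349)) p15_18_0 (nat_lit 4) (nat_lit 174) (nat_lit 175) = true := by decide +kernel
def p15_18_0_175 : pfC (piC [(nat_lit 40173837), (nat_lit 25770221), (nat_lit 19310217), (nat_lit 12946273)] (nat_lit 22926349)) p15_18_0 (nat_lit 4) (nat_lit 175) (nat_lit 176) = true := by decide +kernel
def p15_18_0_176 : pfC (piC [(nat_lit 40173837), (nat_lit 25770221), (nat_lit 19310217), (nat_lit 12946273)] (nat_lit 22926349)) p15_18_0 (nat_lit 4) (nat_lit 176) (nat_lit 177) = true := by decide +kernel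
def p15_18_0_177 : pfC (piC [(nat_lit 40173837), (nat_lit 25770221), (nat_lit 19310217), (nat_lit 12946273)] (nat_lit 22926349)) p15_18_0 (nat_lit 4) (nat_lit 177) (nat_lit 178) = true := by decide +kernel
def p15_18_0_178 : pfC (piC [(nat_lit 40173837), (nat_lit 25770221), (nat_lit 19310217), (nat_lit 12946273)] (nat_lit 22926349)) p15_18_0 (nat_lit 4) (nat_lit 178) (nat_lit 179) = true := by decide +kernel
def p15_18_0_179 : pfC (piC [(nat_lit 40173837), (nat_lit 25770221), (nat_lit 19310217), (nat_lit 12946273)] (nat_lit 22926349)) p15_18_0 (nat_lit 4) (nat_lit 179) (nat_lit 180) = true := by decide +kernel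
def p15_18_0_180 : pfC (piC [(nat_lit 40173837), (nat_lit 25770221), (nat_lit 19310217), (nat_lit 12946273)] (nat_lit 22926349)) p15_18_0 (nat_lit 4) (nat_lit 180) (nat_lit 181) = true := by decide +kernel
def p15_18_0_181 : pfC (piC [(nat_lit 40173837), (nat_lit 25770221), (nat_lit 19310217), (nat_lit 12946273)] (nat_lit 22926349)) p15_18_0 (nat_lit 4) (nat_lit 181) (nat_lit 182) = true := by decide +kernel
def p15_18_0_182 : pfC (piC [(nat_lit 40173837), (nat_lit 25770221), (nat_lit 19310217), (nat_lit 12946273)] (nat_lit 22926349)) p15_18_0 (nat_lit 4) (nat_lit 182) (nat_lit 183) = true := by decide +kernel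
def p15_18_0_183 : pfC (piC [(nat_lit 40173837), (nat_lit 25770221), (nat_lit 19310217), (nat_lit 12946273)] (nat_lit 22926349)) p15_18_0 (nat_lit 4) (nat_lit 183) (nat_lit 184) = true := by decide +kernel
def p15_18_0_184 : pfC (piC [(nat_lit 40173837), (nat_lit 25770221), (nat_lit 19310217), (nat_lit 12946273)] (nat_lit 22926349)) p15_18_0 (nat_lit 4) (nat_lit 184) (nat_lit 185) = true := by decide +kernel
def p15_18_0_185 : pfC (piC [(nat_lit 40173837), (nat_lit 25770221), (nat_lit 19310217), (nat_lit 12946273)] (nat_lit 22926349)) p15_18_0 (nat_lit 4) (nat_lit 185) (nat_lit 186) = true := by decide +kernel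
def p15_18_0_186 : pfC (piC [(nat_lit 40173837), (nat_lit 25770221), (nat_lit 19310217), (nat_lit 12946273)] (nat_lit 22926349)) p15_18_0 (nat_lit 4) (nat_lit 186) (nat_lit 187) = true := by decide +kernel
def p15_18_0_187 : pfC (piC [(nat_lit 40173837), (nat_lit 25770221), (nat_lit 19310217), (nat_lit 12946273)] (nat_lit 22926349)) p15_18_0 (nat_lit 4) (nat_lit 187) (nat_lit 188) = true := by decide +kernel
def p15_18_0_188 : pfC (piC [(nat_lit 40173837), (nat_lit 25770221), (nat_lit 19310217), (nat_lit 12946273)] (nat_lit 22926349)) p15_18_0 (nat_lit 4) (nat_lit 188) (nat_lit 189) = true := by decide +kernel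
def p15_18_0_189 : pfC (piC [(nat_lit 40173837), (nat_lit 25770221), (nat_lit 19310217), (nat_lit 12946273)] (nat_lit 22926349)) p15_18_0 (nat_lit 4) (nat_lit 189) (nat_lit 190) = true := by decide +kernel
def p15_18_0_190 : pfC (piC [(nat_lit 40173837), (nat_lit 25770221), (nat_lit 19310217), (nat_lit 12946273)] (nat_lit 22926349)) p15_18_0 (nat_lit 4) (nat_lit 190) (nat_lit 191) = true := by decide +kernel
def p15_18_0_191 : pfC (piC [(nat_lit 40173837), (nat_lit 25770221), (nat_lit 19310217), (nat_lit 12946273)] (nat_lit 22926349)) p15_18_0 (nat_lit 4) (nat_lit 191) (nat_lit 192) = true := by decide +kernel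
def p15_18_0_192 : pfC (piC [(nat_lit 40173837), (nat_lit 25770221), (nat_lit 19310217), (nat_lit 12946273)] (nat_lit 22926349)) p15_18_0 (nat_lit 4) (nat_lit 192) (nat_lit 193) = true := by decide +kernel
def p15_18_0_193 : pfC (piC [(nat_lit 40173837), (nat_lit 25770221), (nat_lit 19310217), (nat_lit 12946273)] (nat_lit 22926349)) p15_18_0 (nat_lit 4) (nat_lit 193) (nat_lit 194) = true := by decide +kernel
def p15_18_0_194 : pfC (piC [(nat_lit 40173837), (nat_lit 25770221), (nat_lit 19310217), (nat_lit 12946273)] (nat_lit 22926349)) p15_18_0 (nat_lit 4) (nat_lit 194) (nat_lit 195) = true := by decide +kernel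
def p15_18_0_195 : pfC (piC [(nat_lit 40173837), (nat_lit 25770221), (nat_lit 19310217), (nat_lit 12946273)] (nat_lit 22926349)) p15_18_0 (nat_lit 4) (nat_lit 195) (nat_lit 196) = true := by decide +kernel
def p15_18_0_196 : pfC (piC [(nat_lit 40173837), (nat_lit 25770221), (nat_lit 19310217), (nat_lit 12946273)] (nat_lit 22926349)) p15_18_0 (nat_lit 4) (nat_lit 196) (nat_lit 197) = true := by decide +kernel
def p15_18_0_197 : pfC (piC [(nat_lit 40173837), (nat_lit 25770221), (nat_lit 19310217), (nat_lit 12946273)] (nat_lit 22926349)) p15_18_0 (nat_lit 4) (nat_lit 197) (nat_lit 198) = true := by decide +kernel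
def p15_18_0_198 : pfC (piC [(nat_lit 40173837), (nat_lit 25770221), (nat_lit 19310217), (nat_lit 12946273)] (nat_lit 22926349)) p15_18_0 (nat_lit 4) (nat_lit 198) (nat_lit 199) = true := by decide +kernel
def p15_18_0_199 : pfC (piC [(nat_lit 40173837), (nat_lit 25770221), (nat_lit 19310217), (nat_lit 12946273)] (nat_lit 22926349)) p15_18_0 (nat_lit 4) (nat_lit 199) (nat_lit 200) = true := by decide +kernel
def p15_18_0_200 : pfC (piC [(nat_lit 40173837), (nat_lit 25770221), (nat_lit 19310217), (nat_lit 12946273)] (nat_lit 22926349)) p15_18_0 (nat_lit 4) (nat_lit 200) (nat_lit 201) = true := by decide +kernel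
def p15_18_0_201 : pfC (piC [(nat_lit 40173837), (nat_lit 25770221), (nat_lit 19310217), (nat_lit 12946273)] (nat_lit 22926349)) p15_18_0 (nat_lit 4) (nat_lit 201) (nat_lit 202) = true := by decide +kernel
def p15_18_0_202 : pfC (piC [(nat_lit 40173837), (nat_lit 25770221), (nat_lit 19310217), (nat_lit 12946273)] (nat_lit 22926349)) p15_18_0 (nat_lit 4) (nat_lit 202) (nat_lit 203) = true := by decide +kernel
def p15_18_0_203 : pfC (piC [(nat_lit 40173837), (nat_lit 25770221), (nat_lit 19310217), (nat_lit 12946273)] (nat_lit 22926349)) p15_18_0 (nat_lit 4) (nat_lit 203) (nat_lit 204) = true := by decide +kernel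
def p15_18_0_204 : pfC (piC [(nat_lit 40173837), (nat_lit 25770221), (nat_lit 19310217), (nat_lit 12946273)] (nat_lit 22926349)) p15_18_0 (nat_lit 4) (nat_lit 204) (nat_lit 205) = true := by decide +kernel
def p15_18_0_205 : pfC (piC [(nat_lit 40173837), (nat_lit 25770221), (nat_lit 19310217), (nat_lit 12946273)] (nat_lit 22926349)) p15_18_0 (nat_lit 4) (nat_lit 205) (nat_lit 206) = true := by decide +kernel
def p15_18_0_206 : pfC (piC [(nat_lit 40173837), (nat_lit 25770221), (nat_lit 19310217), (nat_lit 12946273)] (nat_lit 22926349)) p15_18_0 (nat_lit 4) (nat_lit 206) (nat_lit 207) = true := by decide +kernel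
def p15_18_0_207 : pfC (piC [(nat_lit 40173837), (nat_lit 25770221), (nat_lit 19310217), (nat_lit 12946273)] (nat_lit 22926349)) p15_18_0 (nat_lit 4) (nat_lit 207) (nat_lit 208) = true := by decide +kernel
def p15_18_0_208 : pfC (piC [(nat_lit 40173837), (nat_lit 25770221), (nat_lit 19310217), (nat_lit 12946273)] (nat_lit 22926349)) p15_18_0 (nat_lit 4) (nat_lit 208) (nat_lit 209) = true := by decide +kernel
def p15_18_0_209 : pfC (piC [(nat_lit 40173837), (nat_lit 25770221), (nat_lit 19310217), (nat_lit 12946273)] (nat_lit 22926349)) p15_18_0 (nat_lit 4) (nat_lit 209) (nat_lit 210) = true := by decide +kernel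
def p15_18_0_210 : pfC (piC [(nat_lit 40173837), (nat_lit 25770221), (nat_lit 19310217), (nat_lit 12946273)] (nat_lit 22926349)) p15_18_0 (nat_lit 4) (nat_lit 210) (nat_lit 211) = true := by decide +kernel
def p15_18_0_211 : pfC (piC [(nat_lit 40173837), (nat_lit 25770221), (nat_lit 19310217), (nat_lit 12946273)] (nat_lit 22926349)) p15_18_0 (nat_lit 4) (nat_lit 211) (nat_lit 212) = true := by decide +kernel
def p15_18_0_212 : pfC (piC [(nat_lit 40173837), (nat_lit 25770221), (nat_lit 19310217), (nat_lit 12946273)] (nat_lit 22926349)) p15_18_0 (nat_lit 4) (nat_lit 212) (nat_lit 213) = true := by decide +kernel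
def p15_18_0_213 : pfC (piC [(nat_lit 40173837), (nat_lit 25770221), (nat_lit 19310217), (nat_lit 12946273)] (nat_lit 22926349)) p15_18_0 (nat_lit 4) (nat_lit 213) (nat_lit 214) = true := by decide +kernel
def p15_18_0_214 : pfC (piC [(nat_lit 40173837), (nat_lit 25770221), (nat_lit 19310217), (nat_lit 12946273)] (nat_lit 22926349)) p15_18_0 (nat_lit 4) (nat_lit 214) (nat_lit 215) = true := by decide +kernel
def p15_18_0_215 : pfC (piC [(nat_lit 40173837), (nat_lit 25770221), (nat_lit 19310217), (nat_lit 12946273)] (nat_lit 22926349)) p15_18_0 (nat_lit 4) (nat_lit 215) (nat_lit 216) = true := by decide +kernel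
def p15_18_0_216 : pfC (piC [(nat_lit 40173837), (nat_lit 25770221), (nat_lit 19310217), (nat_lit 12946273)] (nat_lit 22926349)) p15_18_0 (nat_lit 4) (nat_lit 216) (nat_lit 217) = true := by decide +kernel
def p15_18_0_217 : pfC (piC [(nat_lit 40173837), (nat_lit 25770221), (nat_lit 19310217), (nat_lit 12946273)] (nat_lit 22926349)) p15_18_0 (nat_lit 4) (nat_lit 217) (nat_lit 218) = true := by decide +kernel
def p15_18_0_218 : pfC (piC [(nat_lit 40173837), (nat_lit 25770221), (nat_lit 19310217), (nat_lit 12946273)] (nat_lit 22926349)) p15_18_0 (nat_lit 4) (nat_lit 218) (nat_lit 219) = true := by decide +kernel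
def p15_18_0_219 : pfC (piC [(nat_lit 40173837), (nat_lit 25770221), (nat_lit 19310217), (nat_lit 12946273)] (nat_lit 22926349)) p15_18_0 (nat_lit 4) (nat_lit 219) (nat_lit 220) = true := by decide +kernel
def p15_18_0_220 : pfC (piC [(nat_lit 40173837), (nat_lit 25770221), (nat_lit 19310217), (nat_lit 12946273)] (nat_lit 22926349)) p15_18_0 (nat_lit 4) (nat_lit 220) (nat_lit 221) = true := by decide +kernel
theorem p15_18_0_T : PfS (PiF n15_18.reverse (nat_lit 22926349)) p15_18_0 (nat_lit 4) [] 0 :=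
  pftab_of (los := [(nat_lit 40173837), (nat_lit 25770221), (nat_lit 19310217), (nat_lit 12946273)]) (by decide +kernel) (hi := (nat_lit 221)) (PfP.trans (PfP.trans (PfP.trans (PfP.trans (PfP.trans (PfP.trans (PfP.trans (PfP.trans (PfP.trans (PfP.trans (PfP.trans (PfP.trans (PfP.trans (PfP.trans (PfP.trans (PfP.trans (PfP.trans (PfP.trans (PfP.trans (PfP.trans (PfP.trans (PfP.trans (PfP.trans (PfP.trans (PfP.trans (PfP.trans (PfP.trans (PfP.trans (PfP.trans (PfP.trans (PfP.trans (PfP.trans (PfP.trans (PfP.trans (PfP.trans (PfP.trans (PfP.trans (PfP.trans (PfP.trans (PfP.trans (PfP.trans (PfP.trans (PfP.trans (PfP.trans (PfP.trans (PfP.trans (PfP.trans (PfP.trans (PfP.trans (PfP.trans (PfP.trans (PfP.trans (PfP.trans (PfP.trans (PfP.trans (PfP.trans (PfP.trans (PfP.trans (PfP.trans (PfP.trans (PfP.trans (PfP.trans (PfP.trans (PfP.trans (PfP.trans (PfP.trans (PfP.trans (PfP.trans (PfP.trans (PfP.trans (PfP.trans (PfP.trans (PfP.trans (PfP.trans (PfP.trans (PfP.trans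 (PfP.trans (PfP.trans (PfP.trans (PfP.trans (PfP.trans (PfP.trans (PfP.trans (PfP.trans (PfP.trans (PfP.trans (PfP.trans (PfP.trans (PfP.trans (PfP.trans (PfP.trans (PfP.trans (PfP.trans (PfP.trans (PfP.trans (PfP.trans (PfP.trans (PfP.trans (PfP.trans (PfP.trans (PfP.trans (PfP.trans (PfP.trans (PfP.trans (PfP.trans (PfP.trans (PfP.trans (PfP.trans (PfP.trans
 (PfP.trans (PfP.trans (PfP.trans (PfP.trans (PfP.trans (PfP.trans (PfP.trans (PfP.trans (PfP.trans (PfP.trans (PfP.trans (PfP.trans (PfP.trans (PfP.trans (PfP.trans (PfP.trans (PfP.trans (PfP.trans (PfP.trans (PfP.trans (PfP.trans (PfP.trans (PfP.trans (PfP.trans (PfP.trans (PfP.trans (PfP.trans (PfP.trans (PfP.trans (PfP.trans (PfP.trans (PfP.trans (PfP.trans (PfP.trans (PfP.trans (PfP.trans (PfP.trans (PfP.trans (PfP.trans (PfP.trans (PfP.trans (PfP.trans (PfP.trans (PfP.trans (PfP.trans (PfP.trans (PfP.trans (PfP.trans (PfP.trans (PfP.trans (PfP.trans (PfP.trans (PfP.trans (PfP.trans (PfP.trans (PfP.trans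 (PfP.trans (PfP.trans (PfP.trans (PfP.trans (PfP.trans (PfP.trans (PfP.trans (PfP.trans (PfP.trans (PfP.trans (PfP.trans (PfP.trans (PfP.trans (PfP.trans (PfP.trans (PfP.trans (PfP.trans (PfP.trans (PfP.trans (PfP.trans (PfP.trans (PfP.trans (PfP.trans (PfP.trans (PfP.trans (PfP.trans (PfP.trans (PfP.trans (PfP.trans (PfP.trans (PfP.trans (PfP.trans (PfP.trans (PfP.trans (PfP.trans (PfP.trans (PfP.trans (PfP.trans (PfP.trans (PfP.trans (PfP.trans (PfP.trans (PfP.trans (PfP.trans (PfP.trans (PfP.trans (PfP.trans (PfP.trans (PfP.trans (PfP.trans (PfP.trans (PfP.trans (PfP.trans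
 (PfP.trans (PfP.trans (pfC_sound p15_18_0_0) (pfC_sound p15_18_0_1)) (pfC_sound p15_18_0_2)) (pfC_sound p15_18_0_3)) (pfC_sound p15_18_0_4)) (pfC_sound p15_18_0_5)) (pfC_sound p15_18_0_6)) (pfC_sound p15_18_0_7)) (pfC_sound p15_18_0_8)) (pfC_sound p15_18_0_9)) (pfC_sound p15_18_0_10)) (pfC_sound p15_18_0_11)) (pfC_sound p15_18_0_12)) (pfC_sound p15_18_0_13)) (pfC_sound p15_18_0_14)) (pfC_sound p15_18_0_15)) (pfC_sound p15_18_0_16)) (pfC_sound p15_18_0_17)) (pfC_sound p15_18_0_18)) (pfC_sound p15_18_0_19)) (pfC_sound p15_18_0_20)) (pfC_sound p15_18_0_21)) (pfC_sound p15_18_0_22)) (pfC_sound p15_18_0_23)) (pfC_sound p15_18_0_24)) (pfC_sound p15_18_0_25)) (pfC_sound p15_18_0_26)) (pfC_sound p15_18_0_27)) (pfC_sound p15_18_0_28)) (pfC_sound p15_18_0_29)) (pfC_sound p15_18_0_30)) (pfC_sound p15_18_0_31)) (pfC_sound p15_18_0_32)) (pfC_sound p15_18_0_33)) (pfC_sound p15_18_0_34)) (pfC_sound p15_18_0_35)) (pfC_sound p15_18_0_36)) (pfC_sound p15_18_0_37)) (pfC_sound p15_18_0_38))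 (pfC_sound p15_18_0_39)) (pfC_sound p15_18_0_40)) (pfC_sound p15_18_0_41)) (pfC_sound p15_18_0_42)) (pfC_sound p15_18_0_43)) (pfC_sound p15_18_0_44)) (pfC_sound p15_18_0_45)) (pfC_sound p15_18_0_46)) (pfC_sound
 p15_18_0_47)) (pfC_sound p15_18_0_48)) (pfC_sound p15_18_0_49)) (pfC_sound p15_18_0_50)) (pfC_sound p15_18_0_51)) (pfC_sound p15_18_0_52)) (pfC_sound p15_18_0_53)) (pfC_sound p15_18_0_54)) (pfC_sound p15_18_0_55)) (pfC_sound p15_18_0_56)) (pfC_sound p15_18_0_57)) (pfC_sound p15_18_0_58)) (pfC_sound p15_18_0_59)) (pfC_sound p15_18_0_60)) (pfC_sound p15_18_0_61)) (pfC_sound p15_18_0_62)) (pfC_sound p15_18_0_63)) (pfC_sound p15_18_0_64)) (pfC_sound p15_18_0_65)) (pfC_sound p15_18_0_66)) (pfC_sound p15_18_0_67)) (pfC_sound p15_18_0_68)) (pfC_sound p15_18_0_69)) (pfC_sound p15_18_0_70)) (pfC_sound p15_18_0_71)) (pfC_sound p15_18_0_72)) (pfC_sound p15_18_0_73)) (pfC_sound p15_18_0_74)) (pfC_sound p15_18_0_75)) (pfC_sound p15_18_0_76)) (pfC_sound p15_18_0_77)) (pfC_sound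 p15_18_0_78)) (pfC_sound p15_18_0_79)) (pfC_sound p15_18_0_80)) (pfC_sound p15_18_0_81)) (pfC_sound p15_18_0_82)) (pfC_sound p15_18_0_83)) (pfC_sound p15_18_0_84)) (pfC_sound p15_18_0_85)) (pfC_sound p15_18_0_86)) (pfC_sound p15_18_0_87)) (pfC_sound p15_18_0_88)) (pfC_sound p15_18_0_89)) (pfC_sound p15_18_0_90)) (pfC_sound p15_18_0_91)) (pfC_sound p15_18_0_92)) (pfC_sound p15_18_0_93)) (pfC_sound p15_18_0_94)) (pfC_sound
 p15_18_0_95)) (pfC_sound p15_18_0_96)) (pfC_sound p15_18_0_97)) (pfC_sound p15_18_0_98)) (pfC_sound p15_18_0_99)) (pfC_sound p15_18_0_100)) (pfC_sound p15_18_0_101)) (pfC_sound p15_18_0_102)) (pfC_sound p15_18_0_103)) (pfC_sound p15_18_0_104)) (pfC_sound p15_18_0_105)) (pfC_sound p15_18_0_106)) (pfC_sound p15_18_0_107)) (pfC_sound p15_18_0_108)) (pfC_sound p15_18_0_109)) (pfC_sound p15_18_0_110)) (pfC_sound p15_18_0_111)) (pfC_sound p15_18_0_112)) (pfC_sound p15_18_0_113)) (pfC_sound p15_18_0_114)) (pfC_sound p15_18_0_115)) (pfC_sound p15_18_0_116))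 (pfC_sound p15_18_0_117)) (pfC_sound p15_18_0_118)) (pfC_sound p15_18_0_119)) (pfC_sound p15_18_0_120)) (pfC_sound p15_18_0_121)) (pfC_sound p15_18_0_122)) (pfC_sound p15_18_0_123)) (pfC_sound p15_18_0_124)) (pfC_sound p15_18_0_125)) (pfC_sound p15_18_0_126)) (pfC_sound p15_18_0_127)) (pfC_sound p15_18_0_128)) (pfC_sound p15_18_0_129)) (pfC_sound p15_18_0_130)) (pfC_sound p15_18_0_131)) (pfC_sound p15_18_0_132)) (pfC_sound p15_18_0_133)) (pfC_sound p15_18_0_134)) (pfC_sound p15_18_0_135)) (pfC_sound p15_18_0_136)) (pfC_sound p15_18_0_137)) (pfC_sound p15_18_0_138)) (pfC_sound p15_18_0_139)) (pfC_sound p15_18_0_140)) (pfC_sound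
 p15_18_0_141)) (pfC_sound p15_18_0_142)) (pfC_sound p15_18_0_143)) (pfC_sound p15_18_0_144)) (pfC_sound p15_18_0_145)) (pfC_sound p15_18_0_146)) (pfC_sound p15_18_0_147)) (pfC_sound p15_18_0_148)) (pfC_sound p15_18_0_149)) (pfC_sound p15_18_0_150)) (pfC_sound p15_18_0_151)) (pfC_sound p15_18_0_152)) (pfC_sound p15_18_0_153)) (pfC_sound p15_18_0_154)) (pfC_sound p15_18_0_155)) (pfC_sound p15_18_0_156)) (pfC_sound p15_18_0_157)) (pfC_sound p15_18_0_158)) (pfC_sound p15_18_0_159)) (pfC_sound p15_18_0_160)) (pfC_sound p15_18_0_161)) (pfC_sound p15_18_0_162)) (pfC_sound p15_18_0_163)) (pfC_sound p15_18_0_164)) (pfC_sound p15_18_0_165)) (pfC_sound p15_18_0_166)) (pfC_sound p15_18_0_167)) (pfC_sound p15_18_0_168)) (pfC_sound p15_18_0_169)) (pfC_sound p15_18_0_170)) (pfC_sound p15_18_0_171)) (pfC_sound p15_18_0_172)) (pfC_sound p15_18_0_173)) (pfC_sound p15_18_0_174)) (pfC_sound p15_18_0_175)) (pfC_sound p15_18_0_176)) (pfC_sound p15_18_0_177)) (pfC_sound p15_18_0_178))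 (pfC_sound p15_18_0_179)) (pfC_sound p15_18_0_180)) (pfC_sound p15_18_0_181)) (pfC_sound p15_18_0_182)) (pfC_sound p15_18_0_183)) (pfC_sound p15_18_0_184)) (pfC_sound p15_18_0_185)) (pfC_sound p15_18_0_186)) (pfC_sound
 p15_18_0_187)) (pfC_sound p15_18_0_188)) (pfC_sound p15_18_0_189)) (pfC_sound p15_18_0_190)) (pfC_sound p15_18_0_191)) (pfC_sound p15_18_0_192)) (pfC_sound p15_18_0_193)) (pfC_sound p15_18_0_194)) (pfC_sound p15_18_0_195)) (pfC_sound p15_18_0_196)) (pfC_sound p15_18_0_197)) (pfC_sound p15_18_0_198)) (pfC_sound p15_18_0_199)) (pfC_sound p15_18_0_200)) (pfC_sound p15_18_0_201)) (pfC_sound p15_18_0_202)) (pfC_sound p15_18_0_203)) (pfC_sound p15_18_0_204)) (pfC_sound p15_18_0_205)) (pfC_sound p15_18_0_206)) (pfC_sound p15_18_0_207)) (pfC_sound p15_18_0_208)) (pfC_sound p15_18_0_209)) (pfC_sound p15_18_0_210)) (pfC_sound p15_18_0_211)) (pfC_sound p15_18_0_212)) (pfC_sound p15_18_0_213)) (pfC_sound p15_18_0_214)) (pfC_sound p15_18_0_215)) (pfC_sound p15_18_0_216))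 (pfC_sound p15_18_0_217)) (pfC_sound p15_18_0_218)) (pfC_sound p15_18_0_219)) (pfC_sound p15_18_0_220)) (by decide +kernel)

def z15_18_0 : zOK yB15_18 (nat_lit 0) (nat_lit 0) (nat_lit 400) (nat_lit 22926349) (nat_lit 10300196) = true := by decide +kernel
def g15_18_0 : gOK yB15_18.x P15_18 (nat_lit 1422) (q15_18 :: r15_18) (nat_lit 0) (nat_lit 0) (nat_lit 1) (nat_lit 400) (nat_lit 0) (nat_lit 11000000) (nat_lit 12712500) (nat_lit 12712500) [(nat_lit 800), (nat_lit 1400), (nat_lit 1530)] = true := by decide +kernel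
def v15_18_0 : ivC P15_18 s15_18 w15_18 n15_18 (nat_lit 4) (nat_lit 5420) (nat_lit 0) (nat_lit 0) f152_1_0 f160_1_0 (nat_lit 1) (nat_lit 400) f152_1_400 f160_1_400 (nat_lit 22926349) (nat_lit 10300196) p15_18_0 = true := by decide +kernel
def p15_18_1 : PF := (PF.cons (PF.cons (PF.cons (PF.cons (PF.leaf (nat_lit 2156822) (nat_lit 10405030) (nat_lit 56703782) (nat_lit 10405030) [(nat_lit 0), (nat_lit 0), (nat_lit 0), (nat_lit 0)]) (PF.cons (PF.leaf (nat_lit 2307424) (nat_lit 253756) (nat_lit 56432113) (nat_lit 10422943) [(nat_lit 253756), (nat_lit 0), (nat_lit 0), (nat_lit 0)]) (PF.cons (PF.leaf (nat_lit 2486654) (nat_lit 276306) (nat_lit 56113929) (nat_lit 10442270) [(nat_lit 276306), (nat_lit 0), (nat_lit 0), (nat_lit 0)]) (PF.cons (PF.leaf (nat_lit 2688283) (nat_lit 296440) (nat_lit 55757601) (nat_lit 10461890) [(nat_lit 296440), (nat_lit 0), (nat_lit 0), (nat_lit 0)]) (PF.cons (PF.leaf (nat_lit 2909224) (nat_lit 314703) (nat_lit 55369055) (nat_lit 10480942) [(nat_lit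 314703), (nat_lit 0), (nat_lit 0), (nat_lit 0)]) (PF.cons (PF.leaf (nat_lit 3147200) (nat_lit 331441) (nat_lit 54952860) (nat_lit 10498745) [(nat_lit 331441), (nat_lit 0), (nat_lit 0), (nat_lit 0)]) (PF.cons (PF.leaf (nat_lit 3400306) (nat_lit 346886) (nat_lit 54512743) (nat_lit 10514752) [(nat_lit 346886), (nat_lit 0), (nat_lit 0), (nat_lit 0)]) (PF.cons (PF.leaf (nat_lit 3666918) (nat_lit 361204) (nat_lit 54051857) (nat_lit 10528523) [(nat_lit 361204), (nat_lit 0),
 (nat_lit 0), (nat_lit 0)]) (PF.cons PF.nil (PF.cons PF.nil PF.nil)))))))))) (PF.cons (PF.cons (PF.leaf (nat_lit 2697163) (nat_lit 1223373) (nat_lit 55412448) (nat_lit 10472991) [(nat_lit 0), (nat_lit 1223373), (nat_lit 0), (nat_lit 0)]) (PF.cons (PF.leaf (nat_lit 2894129) (nat_lit 308256) (nat_lit 55057329) (nat_lit 10488536) [(nat_lit 308256), (nat_lit 1254690), (nat_lit 0), (nat_lit 0)]) (PF.cons (PF.leaf (nat_lit 3112748) (nat_lit 325819) (nat_lit 54668205) (nat_lit 10503397) [(nat_lit 325819), (nat_lit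 1285572), (nat_lit 0), (nat_lit 0)]) (PF.cons (PF.leaf (nat_lit 3348984) (nat_lit 341844) (nat_lit 54250864) (nat_lit 10516897) [(nat_lit 341844), (nat_lit 1315517), (nat_lit 0), (nat_lit 0)]) (PF.cons (PF.leaf (nat_lit 3600590) (nat_lit 356592) (nat_lit 53809663) (nat_lit 10528517) [(nat_lit 356592), (nat_lit 1344260), (nat_lit 0), (nat_lit 0)]) (PF.cons (PF.leaf (nat_lit 3865749) (nat_lit 370240) (nat_lit 53348097) (nat_lit 10537854) [(nat_lit 370240), (nat_lit 1371659), (nat_lit 0), (nat_lit 0)]) (PF.cons PF.nil (PF.cons PF.nil (PF.cons PF.nil PF.nil))))))))) (PF.cons (PF.cons (PF.leaf (nat_lit 3320399) (nat_lit 1319995) (nat_lit 53949612) (nat_lit 10519210) [(nat_lit 0),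
 (nat_lit 1319995), (nat_lit 0), (nat_lit 0)]) (PF.cons (PF.leaf (nat_lit 3552323) (nat_lit 350890) (nat_lit 53535785) (nat_lit 10528480) [(nat_lit 350890), (nat_lit 1346828), (nat_lit 0), (nat_lit 0)]) (PF.cons (PF.leaf (nat_lit 3801151) (nat_lit 365128) (nat_lit 53097097) (nat_lit 10535842) [(nat_lit 365128), (nat_lit 1372808), (nat_lit 0), (nat_lit 0)]) (PF.cons (PF.leaf (nat_lit 4063882) (nat_lit 378243) (nat_lit 52637747) (nat_lit 10540914) [(nat_lit 378243), (nat_lit 1397709), (nat_lit 0), (nat_lit 0)]) (PF.cons (PF.leaf (nat_lit 4338759) (nat_lit 390383) (nat_lit 52161051) (nat_lit 10543414) [(nat_lit 390383), (nat_lit 1421406), (nat_lit 0), (nat_lit 0)]) (PF.cons PF.nil (PF.cons PF.nil PF.nil))))))) (PF.cons (PF.cons (PF.leaf (nat_lit 4003545) (nat_lit 1398799) (nat_lit 52375555) (nat_lit 10536857) [(nat_lit 0), (nat_lit 1398799), (nat_lit 0), (nat_lit 0)]) (PF.cons (PF.leaf (nat_lit 4262005) (nat_lit 385259) (nat_lit 51921548) (nat_lit 10537885) [(nat_lit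 385259), (nat_lit 1421373), (nat_lit 0), (nat_lit 0)]) (PF.cons (PF.leaf (nat_lit 4533677) (nat_lit 396972) (nat_lit 51449654) (nat_lit 10536377) [(nat_lit 396972), (nat_lit 1442945), (nat_lit 0), (nat_lit 0)]) (PF.cons
 (PF.leaf (nat_lit 4816265) (nat_lit 407801) (nat_lit 50963030) (nat_lit 10532149) [(nat_lit 407801), (nat_lit 1463409), (nat_lit 0), (nat_lit 0)]) (PF.cons PF.nil PF.nil))))) (PF.cons (PF.cons (PF.leaf (nat_lit 4728865) (nat_lit 1462453) (nat_lit 50735303) (nat_lit 10523697) [(nat_lit 0), (nat_lit 1462453), (nat_lit 0), (nat_lit 0)]) (PF.cons (PF.leaf (nat_lit 5007074) (nat_lit 413182) (nat_lit 50255527) (nat_lit 10515799) [(nat_lit 413182), (nat_lit 1481075), (nat_lit 0), (nat_lit 0)]) (PF.cons PF.nil (PF.cons PF.nil PF.nil)))) (PF.cons (PF.cons (PF.leaf (nat_lit 5482043) (nat_lit 1512966) (nat_lit 49063633) (nat_lit 10480347) [(nat_lit 0), (nat_lit 1512966), (nat_lit 0), (nat_lit 0)]) (PF.cons PF.nil PF.nil)) (PF.cons PF.nil (PF.cons PF.nil PF.nil))))))))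 (PF.cons (PF.cons (PF.cons (PF.leaf (nat_lit 3264957) (nat_lit 3234388) (nat_lit 53371936) (nat_lit 10502488) [(nat_lit 0), (nat_lit 0), (nat_lit 3234388), (nat_lit 0)]) (PF.cons (PF.leaf (nat_lit 3472145) (nat_lit 332642) (nat_lit 53004479) (nat_lit 10508633) [(nat_lit 332642), (nat_lit 0), (nat_lit 3263057), (nat_lit 0)]) (PF.cons (PF.leaf (nat_lit 3699980) (nat_lit 349166) (nat_lit 52605127) (nat_lit 10513343) [(nat_lit
 349166), (nat_lit 0), (nat_lit 3292009), (nat_lit 0)]) (PF.cons (PF.leaf (nat_lit 3944311) (nat_lit 364021) (nat_lit 52180034) (nat_lit 10516171) [(nat_lit 364021), (nat_lit 0), (nat_lit 3320541), (nat_lit 0)]) (PF.cons (PF.leaf (nat_lit 4202769) (nat_lit 377528) (nat_lit 51733728) (nat_lit 10516786) [(nat_lit 377528), (nat_lit 0), (nat_lit 3348186), (nat_lit 0)]) (PF.cons (PF.leaf (nat_lit 4473489) (nat_lit 389899) (nat_lit 51269752) (nat_lit 10514939) [(nat_lit 389899), (nat_lit 0), (nat_lit 3374621), (nat_lit 0)]) (PF.cons PF.nil PF.nil)))))))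 (PF.cons (PF.cons (PF.leaf (nat_lit 3904002) (nat_lit 1381970) (nat_lit 51886823) (nat_lit 10511211) [(nat_lit 0), (nat_lit 1381970), (nat_lit 3328806), (nat_lit 0)]) (PF.cons (PF.leaf (nat_lit 4142804) (nat_lit 370928) (nat_lit 51468928) (nat_lit 10510429) [(nat_lit 370928), (nat_lit 1404667), (nat_lit 3353858), (nat_lit 0)]) (PF.cons (PF.leaf (nat_lit 4397304) (nat_lit 384067) (nat_lit 51028519) (nat_lit 10507422) [(nat_lit 384067), (nat_lit 1426492), (nat_lit 3378244), (nat_lit 0)]) (PF.cons (PF.leaf (nat_lit 4664607) (nat_lit 396032) (nat_lit 50569864) (nat_lit 10501971) [(nat_lit 396032), (nat_lit 1447276), (nat_lit 3401601),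
 (nat_lit 0)]) (PF.cons (PF.leaf (nat_lit 4942879) (nat_lit 406999) (nat_lit 50096275) (nat_lit 10493923) [(nat_lit 406999), (nat_lit 1466928), (nat_lit 3423687), (nat_lit 0)]) PF.nil))))) (PF.cons (PF.cons (PF.leaf (nat_lit 4593415) (nat_lit 1446556) (nat_lit 50318356) (nat_lit 10492563) [(nat_lit 0), (nat_lit 1446556), (nat_lit 3404780), (nat_lit 0)]) (PF.cons (PF.leaf (nat_lit 4855531) (nat_lit 401310) (nat_lit 49867709) (nat_lit 10483785) [(nat_lit 401310), (nat_lit 1465391), (nat_lit 3425224), (nat_lit 0)]) (PF.cons (PF.leaf (nat_lit 5129805) (nat_lit 411954) (nat_lit 49401365) (nat_lit 10472448) [(nat_lit 411954), (nat_lit 1483263), (nat_lit 3444562), (nat_lit 0)]) (PF.cons PF.nil PF.nil)))) (PF.cons (PF.cons (PF.leaf (nat_lit 5316875) (nat_lit 1497926) (nat_lit 48706347) (nat_lit 10446218) [(nat_lit 0), (nat_lit 1497926), (nat_lit 3462467), (nat_lit 0)]) (PF.cons (PF.leaf (nat_lit 5595967) (nat_lit 425641) (nat_lit 48236154) (nat_lit 10429310) [(nat_lit 425641),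 (nat_lit 1513212), (nat_lit 3478068), (nat_lit 0)]) PF.nil)) (PF.cons PF.nil (PF.cons PF.nil PF.nil)))))) (PF.cons (PF.cons (PF.cons (PF.leaf (nat_lit 4476960) (nat_lit 3391319) (nat_lit 49866493) (nat_lit 10459679)
 [(nat_lit 0), (nat_lit 0), (nat_lit 3391319), (nat_lit 0)]) (PF.cons (PF.leaf (nat_lit 4720185) (nat_lit 386913) (nat_lit 49450774) (nat_lit 10450231) [(nat_lit 386913), (nat_lit 0), (nat_lit 3410446), (nat_lit 0)]) (PF.cons (PF.leaf (nat_lit 4978108) (nat_lit 399049) (nat_lit 49014675) (nat_lit 10438388) [(nat_lit 399049), (nat_lit 0), (nat_lit 3428825), (nat_lit 0)]) (PF.cons (PF.leaf (nat_lit 5247794) (nat_lit 409979) (nat_lit 48562447) (nat_lit 10424063) [(nat_lit 409979), (nat_lit 0), (nat_lit 3446181), (nat_lit 0)]) (PF.cons PF.nil PF.nil))))) (PF.cons (PF.cons (PF.leaf (nat_lit 5167034) (nat_lit 1481695) (nat_lit 48323265) (nat_lit 10410562) [(nat_lit 0), (nat_lit 1481695), (nat_lit 3446644), (nat_lit 0)]) (PF.cons (PF.leaf (nat_lit 5430894) (nat_lit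 413807) (nat_lit 47880894) (nat_lit 10393600) [(nat_lit 413807), (nat_lit 1497345), (nat_lit 3461582), (nat_lit 0)]) (PF.cons (PF.leaf (nat_lit 5705898) (nat_lit 423492) (nat_lit 47424718) (nat_lit 10374133) [(nat_lit 423492), (nat_lit 1512070), (nat_lit 3475453), (nat_lit 0)]) (PF.cons PF.nil PF.nil)))) (PF.cons (PF.cons (PF.leaf (nat_lit 5884501) (nat_lit 1522741) (nat_lit 46753992) (nat_lit 10337107) [(nat_lit 0), (nat_lit
 1522741), (nat_lit 3486115), (nat_lit 0)]) (PF.cons (PF.leaf (nat_lit 6162986) (nat_lit 435014) (nat_lit 46297020) (nat_lit 10312870) [(nat_lit 435014), (nat_lit 1535189), (nat_lit 3496764), (nat_lit 0)]) PF.nil)) (PF.cons PF.nil (PF.cons PF.nil PF.nil))))) (PF.cons (PF.cons (PF.cons (PF.leaf (nat_lit 5722521) (nat_lit 3468990) (nat_lit 46403127) (nat_lit 10298714) [(nat_lit 0), (nat_lit 0), (nat_lit 3468990), (nat_lit 0)]) (PF.cons (PF.leaf (nat_lit 5986546) (nat_lit 423324) (nat_lit 45972486) (nat_lit 10275053) [(nat_lit 423324), (nat_lit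 0), (nat_lit 3479316), (nat_lit 0)]) (PF.cons (PF.leaf (nat_lit 6260892) (nat_lit 432148) (nat_lit 45529663) (nat_lit 10248987) [(nat_lit 432148), (nat_lit 0), (nat_lit 3488621), (nat_lit 0)]) (PF.cons PF.nil PF.nil)))) (PF.cons (PF.cons (PF.leaf (nat_lit 6430923) (nat_lit 1538810) (nat_lit 44886290) (nat_lit 10203530) [(nat_lit 0), (nat_lit 1538810), (nat_lit 3493393), (nat_lit 0)]) (PF.cons PF.nil PF.nil)) (PF.cons PF.nil PF.nil))) (PF.cons (PF.cons (PF.cons (PF.leaf (nat_lit 6955964) (nat_lit 3487515) (nat_lit 43107276) (nat_lit 10051472) [(nat_lit 0), (nat_lit 0), (nat_lit 3487515), (nat_lit 0)]) (PF.cons PF.nil PF.nil)) (PF.cons PF.nil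
 PF.nil)) (PF.cons PF.nil PF.nil)))))) (PF.cons (PF.cons (PF.cons (PF.cons (PF.leaf (nat_lit 4318023) (nat_lit 9330527) (nat_lit 47568884) (nat_lit 10209401) [(nat_lit 0), (nat_lit 0), (nat_lit 0), (nat_lit 9330527)]) (PF.cons (PF.leaf (nat_lit 4523993) (nat_lit 346352) (nat_lit 47238351) (nat_lit 10199220) [(nat_lit 346352), (nat_lit 0), (nat_lit 0), (nat_lit 9324888)]) (PF.cons (PF.leaf (nat_lit 4749038) (nat_lit 361814) (nat_lit 46880870) (nat_lit 10186870) [(nat_lit 361814), (nat_lit 0), (nat_lit 0), (nat_lit 9317443)]) (PF.cons (PF.leaf (nat_lit 4988937) (nat_lit 375420) (nat_lit 46502168) (nat_lit 10172307) [(nat_lit 375420), (nat_lit 0), (nat_lit 0), (nat_lit 9308075)]) (PF.cons (PF.leaf (nat_lit 5241339) (nat_lit 387551) (nat_lit 46106409) (nat_lit 10155499) [(nat_lit 387551), (nat_lit 0), (nat_lit 0), (nat_lit 9296698)]) (PF.cons (PF.leaf (nat_lit 5504310) (nat_lit 398462) (nat_lit 45696811) (nat_lit 10136431) [(nat_lit 398462), (nat_lit 0), (nat_lit 0),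 (nat_lit 9283257)]) (PF.cons (PF.leaf (nat_lit 5776366) (nat_lit 408337) (nat_lit 45275960) (nat_lit 10115104) [(nat_lit 408337), (nat_lit 0), (nat_lit 0), (nat_lit 9267723)]) (PF.cons PF.nil (PF.cons PF.nil
 PF.nil))))))))) (PF.cons (PF.cons (PF.leaf (nat_lit 4935727) (nat_lit 1407998) (nat_lit 46248189) (nat_lit 10156819) [(nat_lit 0), (nat_lit 1407998), (nat_lit 0), (nat_lit 9295805)]) (PF.cons (PF.leaf (nat_lit 5169050) (nat_lit 379984) (nat_lit 45878398) (nat_lit 10140251) [(nat_lit 379984), (nat_lit 1425849), (nat_lit 0), (nat_lit 9284328)]) (PF.cons (PF.leaf (nat_lit 5416481) (nat_lit 391823) (nat_lit 45490256) (nat_lit 10121390) [(nat_lit 391823), (nat_lit 1442701), (nat_lit 0), (nat_lit 9270817)]) (PF.cons (PF.leaf (nat_lit 5675140) (nat_lit 402408) (nat_lit 45087609) (nat_lit 10100262) [(nat_lit 402408), (nat_lit 1458464), (nat_lit 0), (nat_lit 9255251)]) (PF.cons (PF.leaf (nat_lit 5943239) (nat_lit 411946) (nat_lit 44673394) (nat_lit 10076898) [(nat_lit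 411946), (nat_lit 1473107), (nat_lit 0), (nat_lit 9237625)]) (PF.cons PF.nil (PF.cons PF.nil PF.nil))))))) (PF.cons (PF.cons (PF.leaf (nat_lit 5592932) (nat_lit 1455428) (nat_lit 44872823) (nat_lit 10083696) [(nat_lit 0), (nat_lit 1455428), (nat_lit 0), (nat_lit 9241435)]) (PF.cons (PF.leaf (nat_lit 5845719) (nat_lit 405629) (nat_lit 44479164) (nat_lit 10060783) [(nat_lit 405629), (nat_lit 1469620), (nat_lit 0), (nat_lit
 9223995)]) (PF.cons (PF.leaf (nat_lit 6109163) (nat_lit 414928) (nat_lit 44073120) (nat_lit 10035630) [(nat_lit 414928), (nat_lit 1482849), (nat_lit 0), (nat_lit 9204505)]) (PF.cons (PF.leaf (nat_lit 6381073) (nat_lit 423307) (nat_lit 43657404) (nat_lit 10008306) [(nat_lit 423307), (nat_lit 1495089), (nat_lit 0), (nat_lit 9183000)]) (PF.cons PF.nil PF.nil))))) (PF.cons (PF.cons (PF.leaf (nat_lit 6275348) (nat_lit 1491342) (nat_lit 43474903) (nat_lit 9991406) [(nat_lit 0), (nat_lit 1491342), (nat_lit 0), (nat_lit 9168476)]) (PF.cons (PF.leaf (nat_lit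 6541847) (nat_lit 425483) (nat_lit 43068247) (nat_lit 9962562) [(nat_lit 425483), (nat_lit 1502382), (nat_lit 0), (nat_lit 9145370)]) (PF.cons (PF.leaf (nat_lit 6816438) (nat_lit 432861) (nat_lit 42653519) (nat_lit 9931640) [(nat_lit 432861), (nat_lit 1512535), (nat_lit 0), (nat_lit 9120324)]) (PF.cons PF.nil PF.nil)))) (PF.cons (PF.cons (PF.leaf (nat_lit 6972340) (nat_lit 1517729) (nat_lit 42077108) (nat_lit 9882022) [(nat_lit 0), (nat_lit 1517729), (nat_lit 0), (nat_lit 9078765)]) (PF.cons PF.nil PF.nil)) (PF.cons PF.nil PF.nil)))))) (PF.cons (PF.cons (PF.cons (PF.leaf (nat_lit 5458476) (nat_lit 3362091) (nat_lit 44499857) (nat_lit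
 10042366) [(nat_lit 0), (nat_lit 0), (nat_lit 3362091), (nat_lit 9204497)]) (PF.cons (PF.leaf (nat_lit 5693821) (nat_lit 390777) (nat_lit 44136729) (nat_lit 10020499) [(nat_lit 390777), (nat_lit 0), (nat_lit 3373059), (nat_lit 9187747)]) (PF.cons (PF.leaf (nat_lit 5942457) (nat_lit 401701) (nat_lit 43756961) (nat_lit 9996309) [(nat_lit 401701), (nat_lit 0), (nat_lit 3383216), (nat_lit 9168922)]) (PF.cons (PF.leaf (nat_lit 6201435) (nat_lit 411375) (nat_lit 43364300) (nat_lit 9969904) [(nat_lit 411375), (nat_lit 0), (nat_lit 3392401), (nat_lit 9148080)]) (PF.cons (PF.leaf (nat_lit 6469052) (nat_lit 420017) (nat_lit 42961574) (nat_lit 9941373) [(nat_lit 420017), (nat_lit 0), (nat_lit 3400519), (nat_lit 9125275)]) (PF.cons PF.nil (PF.cons PF.nil PF.nil))))))) (PF.cons (PF.cons (PF.leaf (nat_lit 6111778) (nat_lit 1474041) (nat_lit 43161753) (nat_lit 9951383) [(nat_lit 0), (nat_lit 1474041), (nat_lit 3389393), (nat_lit 9132240)]) (PF.cons (PF.leaf (nat_lit 6364532) (nat_lit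 413497) (nat_lit 42779020) (nat_lit 9923671) [(nat_lit 413497), (nat_lit 1485758), (nat_lit 3396875), (nat_lit 9109989)]) (PF.cons (PF.leaf (nat_lit 6627166) (nat_lit 421979) (nat_lit 42385299) (nat_lit 9893811)
 [(nat_lit 421979), (nat_lit 1496575), (nat_lit 3403395), (nat_lit 9085770)]) (PF.cons (PF.leaf (nat_lit 6897534) (nat_lit 429556) (nat_lit 41983186) (nat_lit 9861922) [(nat_lit 429556), (nat_lit 1506480), (nat_lit 3408889), (nat_lit 9059663)]) (PF.cons PF.nil PF.nil))))) (PF.cons (PF.cons (PF.leaf (nat_lit 6785627) (nat_lit 1502240) (nat_lit 41812074) (nat_lit 9843822) [(nat_lit 0), (nat_lit 1502240), (nat_lit 3404568), (nat_lit 9043867)]) (PF.cons (PF.leaf (nat_lit 7050364) (nat_lit 430850) (nat_lit 41419568) (nat_lit 9810847) [(nat_lit 430850), (nat_lit 1511144), (nat_lit 3408674), (nat_lit 9016582)]) (PF.cons PF.nil (PF.cons PF.nil PF.nil)))) (PF.cons (PF.cons (PF.leaf (nat_lit 7470415) (nat_lit 1522148) (nat_lit 40470227) (nat_lit 9721891) [(nat_lit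 0), (nat_lit 1522148), (nat_lit 3408890), (nat_lit 8941359)]) (PF.cons PF.nil PF.nil)) (PF.cons PF.nil PF.nil))))) (PF.cons (PF.cons (PF.cons (PF.leaf (nat_lit 6613487) (nat_lit 3385863) (nat_lit 41526160) (nat_lit 9803634) [(nat_lit 0), (nat_lit 0), (nat_lit 3385863), (nat_lit 9007291)]) (PF.cons (PF.leaf (nat_lit 6865212) (nat_lit 419215) (nat_lit 41156033) (nat_lit 9772095) [(nat_lit 419215), (nat_lit 0), (nat_lit 3390148),
 (nat_lit 8981171)]) (PF.cons (PF.leaf (nat_lit 7126159) (nat_lit 426970) (nat_lit 40776114) (nat_lit 9738519) [(nat_lit 426970), (nat_lit 0), (nat_lit 3393529), (nat_lit 8953179)]) (PF.cons PF.nil PF.nil)))) (PF.cons (PF.cons (PF.leaf (nat_lit 7277048) (nat_lit 1507221) (nat_lit 40228806) (nat_lit 9684209) [(nat_lit 0), (nat_lit 1507221), (nat_lit 3390883), (nat_lit 8906809)]) (PF.cons (PF.leaf (nat_lit 7539324) (nat_lit 434400) (nat_lit 39851438) (nat_lit 9648032) [(nat_lit 434400), (nat_lit 1514313), (nat_lit 3392191), (nat_lit 8876246)])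 PF.nil)) (PF.cons PF.nil PF.nil))) (PF.cons (PF.cons (PF.cons (PF.leaf (nat_lit 7749941) (nat_lit 3369036) (nat_lit 38724909) (nat_lit 9516077) [(nat_lit 0), (nat_lit 0), (nat_lit 3369036), (nat_lit 8760715)]) (PF.cons PF.nil PF.nil)) (PF.cons PF.nil PF.nil)) (PF.cons PF.nil PF.nil))))) (PF.cons (PF.cons (PF.cons (PF.cons (PF.leaf (nat_lit 6312551) (nat_lit 8781289) (nat_lit 39989214) (nat_lit 9557019) [(nat_lit 0), (nat_lit 0), (nat_lit 0), (nat_lit 8781289)]) (PF.cons (PF.leaf (nat_lit 6538846) (nat_lit 387682) (nat_lit 39674907) (nat_lit 9529328) [(nat_lit 387682), (nat_lit 0), (nat_lit 0), (nat_lit 8758447)]) (PF.cons (PF.leaf (nat_lit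
 6777288) (nat_lit 397617) (nat_lit 39346798) (nat_lit 9499468) [(nat_lit 397617), (nat_lit 0), (nat_lit 0), (nat_lit 8733655)]) (PF.cons (PF.leaf (nat_lit 7025031) (nat_lit 406297) (nat_lit 39008133) (nat_lit 9467645) [(nat_lit 406297), (nat_lit 0), (nat_lit 0), (nat_lit 8707070)]) (PF.cons (PF.leaf (nat_lit 7280432) (nat_lit 413954) (nat_lit 38661343) (nat_lit 9434018) [(nat_lit 413954), (nat_lit 0), (nat_lit 0), (nat_lit 8678816)]) (PF.cons PF.nil (PF.cons PF.nil PF.nil))))))) (PF.cons (PF.cons (PF.leaf (nat_lit 6930240) (nat_lit 1445380) (nat_lit 38837249) (nat_lit 9447464) [(nat_lit 0), (nat_lit 1445380), (nat_lit 0), (nat_lit 8689359)]) (PF.cons (PF.leaf (nat_lit 7171638) (nat_lit 407294) (nat_lit 38507757) (nat_lit 9415110) [(nat_lit 407294), (nat_lit 1454397), (nat_lit 0), (nat_lit 8662126)]) (PF.cons (PF.leaf (nat_lit 7421988) (nat_lit 414851) (nat_lit 38169272) (nat_lit 9380901) [(nat_lit 414851), (nat_lit 1462558), (nat_lit 0), (nat_lit 8633188)]) (PF.cons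 (PF.leaf (nat_lit 7679203) (nat_lit 421519) (nat_lit 37824008) (nat_lit 9345005) [(nat_lit 421519), (nat_lit 1469876), (nat_lit 0), (nat_lit 8602681)]) (PF.cons PF.nil PF.nil))))) (PF.cons (PF.cons (PF.leaf (nat_lit
 7564148) (nat_lit 1465080) (nat_lit 37680330) (nat_lit 9326257) [(nat_lit 0), (nat_lit 1465080), (nat_lit 0), (nat_lit 8586031)]) (PF.cons (PF.leaf (nat_lit 7815753) (nat_lit 421887) (nat_lit 37343716) (nat_lit 9289953) [(nat_lit 421887), (nat_lit 1471616), (nat_lit 0), (nat_lit 8555011)]) (PF.cons PF.nil (PF.cons PF.nil PF.nil)))) (PF.cons (PF.cons (PF.leaf (nat_lit 8206064) (nat_lit 1477822) (nat_lit 36533554) (nat_lit 9195457) [(nat_lit 0), (nat_lit 1477822), (nat_lit 0), (nat_lit 8473166)]) (PF.cons PF.nil PF.nil)) (PF.cons PF.nil PF.nil))))) (PF.cons (PF.cons (PF.cons (PF.leaf (nat_lit 7387388) (nat_lit 3273312) (nat_lit 37446598) (nat_lit 9287650) [(nat_lit 0), (nat_lit 0), (nat_lit 3273312), (nat_lit 8550625)]) (PF.cons (PF.leaf (nat_lit 7627184)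 (nat_lit 410596) (nat_lit 37128844) (nat_lit 9253140) [(nat_lit 410596), (nat_lit 0), (nat_lit 3273947), (nat_lit 8521142)]) (PF.cons (PF.leaf (nat_lit 7875366) (nat_lit 417531) (nat_lit 36803000) (nat_lit 9216876) [(nat_lit 417531), (nat_lit 0), (nat_lit 3273779), (nat_lit 8490046)]) (PF.cons PF.nil PF.nil)))) (PF.cons (PF.cons (PF.leaf (nat_lit 8010943) (nat_lit 1463487) (nat_lit 36336834) (nat_lit 9160199) [(nat_lit 0), (nat_lit
 1463487), (nat_lit 3266988), (nat_lit 8440651)]) (PF.cons (PF.leaf (nat_lit 8259825) (nat_lit 423424) (nat_lit 36013688) (nat_lit 9122202) [(nat_lit 423424), (nat_lit 1468627), (nat_lit 3265227), (nat_lit 8407820)]) PF.nil)) (PF.cons PF.nil PF.nil))) (PF.cons (PF.cons (PF.cons (PF.leaf (nat_lit 8441769) (nat_lit 3236926) (nat_lit 35061031) (nat_lit 8990978) [(nat_lit 0), (nat_lit 0), (nat_lit 3236926), (nat_lit 8291475)]) (PF.cons PF.nil PF.nil)) (PF.cons PF.nil PF.nil)) PF.nil))) (PF.cons (PF.cons (PF.cons (PF.cons (PF.leaf (nat_lit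 8071175) (nat_lit 8102026) (nat_lit 34017103) (nat_lit 8785630) [(nat_lit 0), (nat_lit 0), (nat_lit 0), (nat_lit 8102026)]) (PF.cons (PF.leaf (nat_lit 8299785) (nat_lit 399711) (nat_lit 33743298) (nat_lit 8750711) [(nat_lit 399711), (nat_lit 0), (nat_lit 0), (nat_lit 8071697)]) (PF.cons (PF.leaf (nat_lit 8536204) (nat_lit 405999) (nat_lit 33462669) (nat_lit 8714264) [(nat_lit 405999), (nat_lit 0), (nat_lit 0), (nat_lit 8039959)]) (PF.cons PF.nil PF.nil)))) (PF.cons (PF.cons (PF.leaf (nat_lit 8659336) (nat_lit 1414538) (nat_lit 33063559) (nat_lit 8658464) [(nat_lit 0), (nat_lit 1414538), (nat_lit 0), (nat_lit 7990750)]) (PF.cons PF.nil PF.nil))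
 (PF.cons PF.nil PF.nil))) (PF.cons (PF.cons (PF.cons (PF.leaf (nat_lit 9055725) (nat_lit 3102382) (nat_lit 31974221) (nat_lit 8495310) [(nat_lit 0), (nat_lit 0), (nat_lit 3102382), (nat_lit 7845632)]) (PF.cons PF.nil PF.nil)) PF.nil) PF.nil)) (PF.cons PF.nil (PF.cons PF.nil (PF.cons PF.nil (PF.cons PF.nil PF.nil))))))))

def p15_18_1_0 : pfC (piC [(nat_lit 40173837), (nat_lit 25770221), (nat_lit 19310217), (nat_lit 12946273)] (nat_lit 10300196)) p15_18_1 (nat_lit 4) (nat_lit 0) (nat_lit 1) = true := by decide +kernel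
def p15_18_1_1 : pfC (piC [(nat_lit 40173837), (nat_lit 25770221), (nat_lit 19310217), (nat_lit 12946273)] (nat_lit 10300196)) p15_18_1 (nat_lit 4) (nat_lit 1) (nat_lit 2) = true := by decide +kernel
def p15_18_1_2 : pfC (piC [(nat_lit 40173837), (nat_lit 25770221), (nat_lit 19310217), (nat_lit 12946273)] (nat_lit 10300196)) p15_18_1 (nat_lit 4) (nat_lit 2) (nat_lit 3) = true := by decide +kernel
def p15_18_1_3 : pfC (piC [(nat_lit 40173837), (nat_lit 25770221), (nat_lit 19310217), (nat_lit 12946273)] (nat_lit 10300196)) p15_18_1 (nat_lit 4) (nat_lit 3) (nat_lit 4) = true := by decide +kernel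
def p15_18_1_4 : pfC (piC [(nat_lit 40173837), (nat_lit 25770221), (nat_lit 19310217), (nat_lit 12946273)] (nat_lit 10300196)) p15_18_1 (nat_lit 4) (nat_lit 4) (nat_lit 5) = true := by decide +kernel
def p15_18_1_5 : pfC (piC [(nat_lit 40173837), (nat_lit 25770221), (nat_lit 19310217), (nat_lit 12946273)] (nat_lit 10300196)) p15_18_1 (nat_lit 4) (nat_lit 5) (nat_lit 6) = true := by decide +kernel
def p15_18_1_6 : pfC (piC [(nat_lit 40173837), (nat_lit 25770221), (nat_lit 19310217), (nat_lit 12946273)] (nat_lit 10300196)) p15_18_1 (nat_lit 4) (nat_lit 6) (nat_lit 7) = true := by decide +kernel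
def p15_18_1_7 : pfC (piC [(nat_lit 40173837), (nat_lit 25770221), (nat_lit 19310217), (nat_lit 12946273)] (nat_lit 10300196)) p15_18_1 (nat_lit 4) (nat_lit 7) (nat_lit 8) = true := by decide +kernel
def p15_18_1_8 : pfC (piC [(nat_lit 40173837), (nat_lit 25770221), (nat_lit 19310217), (nat_lit 12946273)] (nat_lit 10300196)) p15_18_1 (nat_lit 4) (nat_lit 8) (nat_lit 9) = true := by decide +kernel
def p15_18_1_9 : pfC (piC [(nat_lit 40173837), (nat_lit 25770221), (nat_lit 19310217), (nat_lit 12946273)] (nat_lit 10300196)) p15_18_1 (nat_lit 4) (nat_lit 9) (nat_lit 10) = true := by decide +kernel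
def p15_18_1_10 : pfC (piC [(nat_lit 40173837), (nat_lit 25770221), (nat_lit 19310217), (nat_lit 12946273)] (nat_lit 10300196)) p15_18_1 (nat_lit 4) (nat_lit 10) (nat_lit 11) = true := by decide +kernel
def p15_18_1_11 : pfC (piC [(nat_lit 40173837), (nat_lit 25770221), (nat_lit 19310217), (nat_lit 12946273)] (nat_lit 10300196)) p15_18_1 (nat_lit 4) (nat_lit 11) (nat_lit 12) = true := by decide +kernel
def p15_18_1_12 : pfC (piC [(nat_lit 40173837), (nat_lit 25770221), (nat_lit 19310217), (nat_lit 12946273)] (nat_lit 10300196)) p15_18_1 (nat_lit 4) (nat_lit 12) (nat_lit 13) = true := by decide +kernel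
def p15_18_1_13 : pfC (piC [(nat_lit 40173837), (nat_lit 25770221), (nat_lit 19310217), (nat_lit 12946273)] (nat_lit 10300196)) p15_18_1 (nat_lit 4) (nat_lit 13) (nat_lit 14) = true := by decide +kernel
def p15_18_1_14 : pfC (piC [(nat_lit 40173837), (nat_lit 25770221), (nat_lit 19310217), (nat_lit 12946273)] (nat_lit 10300196)) p15_18_1 (nat_lit 4) (nat_lit 14) (nat_lit 15) = true := by decide +kernel
def p15_18_1_15 : pfC (piC [(nat_lit 40173837), (nat_lit 25770221), (nat_lit 19310217), (nat_lit 12946273)] (nat_lit 10300196)) p15_18_1 (nat_lit 4) (nat_lit 15) (nat_lit 16) = true := by decide +kernel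
def p15_18_1_16 : pfC (piC [(nat_lit 40173837), (nat_lit 25770221), (nat_lit 19310217), (nat_lit 12946273)] (nat_lit 10300196)) p15_18_1 (nat_lit 4) (nat_lit 16) (nat_lit 17) = true := by decide +kernel
def p15_18_1_17 : pfC (piC [(nat_lit 40173837), (nat_lit 25770221), (nat_lit 19310217), (nat_lit 12946273)] (nat_lit 10300196)) p15_18_1 (nat_lit 4) (nat_lit 17) (nat_lit 18) = true := by decide +kernel
def p15_18_1_18 : pfC (piC [(nat_lit 40173837), (nat_lit 25770221), (nat_lit 19310217), (nat_lit 12946273)] (nat_lit 10300196)) p15_18_1 (nat_lit 4) (nat_lit 18) (nat_lit 19) = true := by decide +kernel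
def p15_18_1_19 : pfC (piC [(nat_lit 40173837), (nat_lit 25770221), (nat_lit 19310217), (nat_lit 12946273)] (nat_lit 10300196)) p15_18_1 (nat_lit 4) (nat_lit 19) (nat_lit 20) = true := by decide +kernel
def p15_18_1_20 : pfC (piC [(nat_lit 40173837), (nat_lit 25770221), (nat_lit 19310217), (nat_lit 12946273)] (nat_lit 10300196)) p15_18_1 (nat_lit 4) (nat_lit 20) (nat_lit 21) = true := by decide +kernel
def p15_18_1_21 : pfC (piC [(nat_lit 40173837), (nat_lit 25770221), (nat_lit 19310217), (nat_lit 12946273)] (nat_lit 10300196)) p15_18_1 (nat_lit 4) (nat_lit 21) (nat_lit 22) = true := by decide +kernel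
def p15_18_1_22 : pfC (piC [(nat_lit 40173837), (nat_lit 25770221), (nat_lit 19310217), (nat_lit 12946273)] (nat_lit 10300196)) p15_18_1 (nat_lit 4) (nat_lit 22) (nat_lit 23) = true := by decide +kernel
def p15_18_1_23 : pfC (piC [(nat_lit 40173837), (nat_lit 25770221), (nat_lit 19310217), (nat_lit 12946273)] (nat_lit 10300196)) p15_18_1 (nat_lit 4) (nat_lit 23) (nat_lit 24) = true := by decide +kernel
def p15_18_1_24 : pfC (piC [(nat_lit 40173837), (nat_lit 25770221), (nat_lit 19310217), (nat_lit 12946273)] (nat_lit 10300196)) p15_18_1 (nat_lit 4) (nat_lit 24) (nat_lit 25) = true := by decide +kernel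
def p15_18_1_25 : pfC (piC [(nat_lit 40173837), (nat_lit 25770221), (nat_lit 19310217), (nat_lit 12946273)] (nat_lit 10300196)) p15_18_1 (nat_lit 4) (nat_lit 25) (nat_lit 26) = true := by decide +kernel
def p15_18_1_26 : pfC (piC [(nat_lit 40173837), (nat_lit 25770221), (nat_lit 19310217), (nat_lit 12946273)] (nat_lit 10300196)) p15_18_1 (nat_lit 4) (nat_lit 26) (nat_lit 27) = true := by decide +kernel
def p15_18_1_27 : pfC (piC [(nat_lit 40173837), (nat_lit 25770221), (nat_lit 19310217), (nat_lit 12946273)] (nat_lit 10300196)) p15_18_1 (nat_lit 4) (nat_lit 27) (nat_lit 28) = true := by decide +kernel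
def p15_18_1_28 : pfC (piC [(nat_lit 40173837), (nat_lit 25770221), (nat_lit 19310217), (nat_lit 12946273)] (nat_lit 10300196)) p15_18_1 (nat_lit 4) (nat_lit 28) (nat_lit 29) = true := by decide +kernel
def p15_18_1_29 : pfC (piC [(nat_lit 40173837), (nat_lit 25770221), (nat_lit 19310217), (nat_lit 12946273)] (nat_lit 10300196)) p15_18_1 (nat_lit 4) (nat_lit 29) (nat_lit 30) = true := by decide +kernel
def p15_18_1_30 : pfC (piC [(nat_lit 40173837), (nat_lit 25770221), (nat_lit 19310217), (nat_lit 12946273)] (nat_lit 10300196)) p15_18_1 (nat_lit 4) (nat_lit 30) (nat_lit 31) = true := by decide +kernel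
def p15_18_1_31 : pfC (piC [(nat_lit 40173837), (nat_lit 25770221), (nat_lit 19310217), (nat_lit 12946273)] (nat_lit 10300196)) p15_18_1 (nat_lit 4) (nat_lit 31) (nat_lit 32) = true := by decide +kernel
def p15_18_1_32 : pfC (piC [(nat_lit 40173837), (nat_lit 25770221), (nat_lit 19310217), (nat_lit 12946273)] (nat_lit 10300196)) p15_18_1 (nat_lit 4) (nat_lit 32) (nat_lit 33) = true := by decide +kernel
def p15_18_1_33 : pfC (piC [(nat_lit 40173837), (nat_lit 25770221), (nat_lit 19310217), (nat_lit 12946273)] (nat_lit 10300196)) p15_18_1 (nat_lit 4) (nat_lit 33) (nat_lit 34) = true := by decide +kernel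
def p15_18_1_34 : pfC (piC [(nat_lit 40173837), (nat_lit 25770221), (nat_lit 19310217), (nat_lit 12946273)] (nat_lit 10300196)) p15_18_1 (nat_lit 4) (nat_lit 34) (nat_lit 35) = true := by decide +kernel
def p15_18_1_35 : pfC (piC [(nat_lit 40173837), (nat_lit 25770221), (nat_lit 19310217), (nat_lit 12946273)] (nat_lit 10300196)) p15_18_1 (nat_lit 4) (nat_lit 35) (nat_lit 36) = true := by decide +kernel
def p15_18_1_36 : pfC (piC [(nat_lit 40173837), (nat_lit 25770221), (nat_lit 19310217), (nat_lit 12946273)] (nat_lit 10300196)) p15_18_1 (nat_lit 4) (nat_lit 36) (nat_lit 37) = true := by decide +kernel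
def p15_18_1_37 : pfC (piC [(nat_lit 40173837), (nat_lit 25770221), (nat_lit 19310217), (nat_lit 12946273)] (nat_lit 10300196)) p15_18_1 (nat_lit 4) (nat_lit 37) (nat_lit 38) = true := by decide +kernel
def p15_18_1_38 : pfC (piC [(nat_lit 40173837), (nat_lit 25770221), (nat_lit 19310217), (nat_lit 12946273)] (nat_lit 10300196)) p15_18_1 (nat_lit 4) (nat_lit 38) (nat_lit 39) = true := by decide +kernel
def p15_18_1_39 : pfC (piC [(nat_lit 40173837), (nat_lit 25770221), (nat_lit 19310217), (nat_lit 12946273)] (nat_lit 10300196)) p15_18_1 (nat_lit 4) (nat_lit 39) (nat_lit 40) = true := by decide +kernel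
def p15_18_1_40 : pfC (piC [(nat_lit 40173837), (nat_lit 25770221), (nat_lit 19310217), (nat_lit 12946273)] (nat_lit 10300196)) p15_18_1 (nat_lit 4) (nat_lit 40) (nat_lit 41) = true := by decide +kernel
def p15_18_1_41 : pfC (piC [(nat_lit 40173837), (nat_lit 25770221), (nat_lit 19310217), (nat_lit 12946273)] (nat_lit 10300196)) p15_18_1 (nat_lit 4) (nat_lit 41) (nat_lit 42) = true := by decide +kernel
def p15_18_1_42 : pfC (piC [(nat_lit 40173837), (nat_lit 25770221), (nat_lit 19310217), (nat_lit 12946273)] (nat_lit 10300196)) p15_18_1 (nat_lit 4) (nat_lit 42) (nat_lit 43) = true := by decide +kernel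
def p15_18_1_43 : pfC (piC [(nat_lit 40173837), (nat_lit 25770221), (nat_lit 19310217), (nat_lit 12946273)] (nat_lit 10300196)) p15_18_1 (nat_lit 4) (nat_lit 43) (nat_lit 44) = true := by decide +kernel
def p15_18_1_44 : pfC (piC [(nat_lit 40173837), (nat_lit 25770221), (nat_lit 19310217), (nat_lit 12946273)] (nat_lit 10300196)) p15_18_1 (nat_lit 4) (nat_lit 44) (nat_lit 45) = true := by decide +kernel
def p15_18_1_45 : pfC (piC [(nat_lit 40173837), (nat_lit 25770221), (nat_lit 19310217), (nat_lit 12946273)] (nat_lit 10300196)) p15_18_1 (nat_lit 4) (nat_lit 45) (nat_lit 46) = true := by decide +kernel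
def p15_18_1_46 : pfC (piC [(nat_lit 40173837), (nat_lit 25770221), (nat_lit 19310217), (nat_lit 12946273)] (nat_lit 10300196)) p15_18_1 (nat_lit 4) (nat_lit 46) (nat_lit 47) = true := by decide +kernel
def p15_18_1_47 : pfC (piC [(nat_lit 40173837), (nat_lit 25770221), (nat_lit 19310217), (nat_lit 12946273)] (nat_lit 10300196)) p15_18_1 (nat_lit 4) (nat_lit 47) (nat_lit 48) = true := by decide +kernel
def p15_18_1_48 : pfC (piC [(nat_lit 40173837), (nat_lit 25770221), (nat_lit 19310217), (nat_lit 12946273)] (nat_lit 10300196)) p15_18_1 (nat_lit 4) (nat_lit 48) (nat_lit 49) = true := by decide +kernel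
def p15_18_1_49 : pfC (piC [(nat_lit 40173837), (nat_lit 25770221), (nat_lit 19310217), (nat_lit 12946273)] (nat_lit 10300196)) p15_18_1 (nat_lit 4) (nat_lit 49) (nat_lit 50) = true := by decide +kernel
def p15_18_1_50 : pfC (piC [(nat_lit 40173837), (nat_lit 25770221), (nat_lit 19310217), (nat_lit 12946273)] (nat_lit 10300196)) p15_18_1 (nat_lit 4) (nat_lit 50) (nat_lit 51) = true := by decide +kernel
def p15_18_1_51 : pfC (piC [(nat_lit 40173837), (nat_lit 25770221), (nat_lit 19310217), (nat_lit 12946273)] (nat_lit 10300196)) p15_18_1 (nat_lit 4) (nat_lit 51) (nat_lit 52) = true := by decide +kernel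
def p15_18_1_52 : pfC (piC [(nat_lit 40173837), (nat_lit 25770221), (nat_lit 19310217), (nat_lit 12946273)] (nat_lit 10300196)) p15_18_1 (nat_lit 4) (nat_lit 52) (nat_lit 53) = true := by decide +kernel
def p15_18_1_53 : pfC (piC [(nat_lit 40173837), (nat_lit 25770221), (nat_lit 19310217), (nat_lit 12946273)] (nat_lit 10300196)) p15_18_1 (nat_lit 4) (nat_lit 53) (nat_lit 54) = true := by decide +kernel
def p15_18_1_54 : pfC (piC [(nat_lit 40173837), (nat_lit 25770221), (nat_lit 19310217), (nat_lit 12946273)] (nat_lit 10300196)) p15_18_1 (nat_lit 4) (nat_lit 54) (nat_lit 55) = true := by decide +kernel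
def p15_18_1_55 : pfC (piC [(nat_lit 40173837), (nat_lit 25770221), (nat_lit 19310217), (nat_lit 12946273)] (nat_lit 10300196)) p15_18_1 (nat_lit 4) (nat_lit 55) (nat_lit 56) = true := by decide +kernel
def p15_18_1_56 : pfC (piC [(nat_lit 40173837), (nat_lit 25770221), (nat_lit 19310217), (nat_lit 12946273)] (nat_lit 10300196)) p15_18_1 (nat_lit 4) (nat_lit 56) (nat_lit 57) = true := by decide +kernel
def p15_18_1_57 : pfC (piC [(nat_lit 40173837), (nat_lit 25770221), (nat_lit 19310217), (nat_lit 12946273)] (nat_lit 10300196)) p15_18_1 (nat_lit 4) (nat_lit 57) (nat_lit 58) = true := by decide +kernel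
def p15_18_1_58 : pfC (piC [(nat_lit 40173837), (nat_lit 25770221), (nat_lit 19310217), (nat_lit 12946273)] (nat_lit 10300196)) p15_18_1 (nat_lit 4) (nat_lit 58) (nat_lit 59) = true := by decide +kernel
def p15_18_1_59 : pfC (piC [(nat_lit 40173837), (nat_lit 25770221), (nat_lit 19310217), (nat_lit 12946273)] (nat_lit 10300196)) p15_18_1 (nat_lit 4) (nat_lit 59) (nat_lit 60) = true := by decide +kernel
def p15_18_1_60 : pfC (piC [(nat_lit 40173837), (nat_lit 25770221), (nat_lit 19310217), (nat_lit 12946273)] (nat_lit 10300196)) p15_18_1 (nat_lit 4) (nat_lit 60) (nat_lit 61) = true := by decide +kernel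
def p15_18_1_61 : pfC (piC [(nat_lit 40173837), (nat_lit 25770221), (nat_lit 19310217), (nat_lit 12946273)] (nat_lit 10300196)) p15_18_1 (nat_lit 4) (nat_lit 61) (nat_lit 62) = true := by decide +kernel
def p15_18_1_62 : pfC (piC [(nat_lit 40173837), (nat_lit 25770221), (nat_lit 19310217), (nat_lit 12946273)] (nat_lit 10300196)) p15_18_1 (nat_lit 4) (nat_lit 62) (nat_lit 63) = true := by decide +kernel
def p15_18_1_63 : pfC (piC [(nat_lit 40173837), (nat_lit 25770221), (nat_lit 19310217), (nat_lit 12946273)] (nat_lit 10300196)) p15_18_1 (nat_lit 4) (nat_lit 63) (nat_lit 64) = true := by decide +kernel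
def p15_18_1_64 : pfC (piC [(nat_lit 40173837), (nat_lit 25770221), (nat_lit 19310217), (nat_lit 12946273)] (nat_lit 10300196)) p15_18_1 (nat_lit 4) (nat_lit 64) (nat_lit 65) = true := by decide +kernel
def p15_18_1_65 : pfC (piC [(nat_lit 40173837), (nat_lit 25770221), (nat_lit 19310217), (nat_lit 12946273)] (nat_lit 10300196)) p15_18_1 (nat_lit 4) (nat_lit 65) (nat_lit 66) = true := by decide +kernel
def p15_18_1_66 : pfC (piC [(nat_lit 40173837), (nat_lit 25770221), (nat_lit 19310217), (nat_lit 12946273)] (nat_lit 10300196)) p15_18_1 (nat_lit 4) (nat_lit 66) (nat_lit 67) = true := by decide +kernel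
def p15_18_1_67 : pfC (piC [(nat_lit 40173837), (nat_lit 25770221), (nat_lit 19310217), (nat_lit 12946273)] (nat_lit 10300196)) p15_18_1 (nat_lit 4) (nat_lit 67) (nat_lit 68) = true := by decide +kernel
def p15_18_1_68 : pfC (piC [(nat_lit 40173837), (nat_lit 25770221), (nat_lit 19310217), (nat_lit 12946273)] (nat_lit 10300196)) p15_18_1 (nat_lit 4) (nat_lit 68) (nat_lit 69) = true := by decide +kernel
def p15_18_1_69 : pfC (piC [(nat_lit 40173837), (nat_lit 25770221), (nat_lit 19310217), (nat_lit 12946273)] (nat_lit 10300196)) p15_18_1 (nat_lit 4) (nat_lit 69) (nat_lit 70) = true := by decide +kernel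
def p15_18_1_70 : pfC (piC [(nat_lit 40173837), (nat_lit 25770221), (nat_lit 19310217), (nat_lit 12946273)] (nat_lit 10300196)) p15_18_1 (nat_lit 4) (nat_lit 70) (nat_lit 71) = true := by decide +kernel
def p15_18_1_71 : pfC (piC [(nat_lit 40173837), (nat_lit 25770221), (nat_lit 19310217), (nat_lit 12946273)] (nat_lit 10300196)) p15_18_1 (nat_lit 4) (nat_lit 71) (nat_lit 72) = true := by decide +kernel
def p15_18_1_72 : pfC (piC [(nat_lit 40173837), (nat_lit 25770221), (nat_lit 19310217), (nat_lit 12946273)] (nat_lit 10300196)) p15_18_1 (nat_lit 4) (nat_lit 72) (nat_lit 73) = true := by decide +kernel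
def p15_18_1_73 : pfC (piC [(nat_lit 40173837), (nat_lit 25770221), (nat_lit 19310217), (nat_lit 12946273)] (nat_lit 10300196)) p15_18_1 (nat_lit 4) (nat_lit 73) (nat_lit 74) = true := by decide +kernel
def p15_18_1_74 : pfC (piC [(nat_lit 40173837), (nat_lit 25770221), (nat_lit 19310217), (nat_lit 12946273)] (nat_lit 10300196)) p15_18_1 (nat_lit 4) (nat_lit 74) (nat_lit 75) = true := by decide +kernel
def p15_18_1_75 : pfC (piC [(nat_lit 40173837), (nat_lit 25770221), (nat_lit 19310217), (nat_lit 12946273)] (nat_lit 10300196)) p15_18_1 (nat_lit 4) (nat_lit 75) (nat_lit 76) = true := by decide +kernel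
def p15_18_1_76 : pfC (piC [(nat_lit 40173837), (nat_lit 25770221), (nat_lit 19310217), (nat_lit 12946273)] (nat_lit 10300196)) p15_18_1 (nat_lit 4) (nat_lit 76) (nat_lit 77) = true := by decide +kernel
def p15_18_1_77 : pfC (piC [(nat_lit 40173837), (nat_lit 25770221), (nat_lit 19310217), (nat_lit 12946273)] (nat_lit 10300196)) p15_18_1 (nat_lit 4) (nat_lit 77) (nat_lit 78) = true := by decide +kernel
def p15_18_1_78 : pfC (piC [(nat_lit 40173837), (nat_lit 25770221), (nat_lit 19310217), (nat_lit 12946273)] (nat_lit 10300196)) p15_18_1 (nat_lit 4) (nat_lit 78) (nat_lit 79) = true := by decide +kernel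
def p15_18_1_79 : pfC (piC [(nat_lit 40173837), (nat_lit 25770221), (nat_lit 19310217), (nat_lit 12946273)] (nat_lit 10300196)) p15_18_1 (nat_lit 4) (nat_lit 79) (nat_lit 80) = true := by decide +kernel
def p15_18_1_80 : pfC (piC [(nat_lit 40173837), (nat_lit 25770221), (nat_lit 19310217), (nat_lit 12946273)] (nat_lit 10300196)) p15_18_1 (nat_lit 4) (nat_lit 80) (nat_lit 81) = true := by decide +kernel
def p15_18_1_81 : pfC (piC [(nat_lit 40173837), (nat_lit 25770221), (nat_lit 19310217), (nat_lit 12946273)] (nat_lit 10300196)) p15_18_1 (nat_lit 4) (nat_lit 81) (nat_lit 82) = true := by decide +kernel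
def p15_18_1_82 : pfC (piC [(nat_lit 40173837), (nat_lit 25770221), (nat_lit 19310217), (nat_lit 12946273)] (nat_lit 10300196)) p15_18_1 (nat_lit 4) (nat_lit 82) (nat_lit 83) = true := by decide +kernel
def p15_18_1_83 : pfC (piC [(nat_lit 40173837), (nat_lit 25770221), (nat_lit 19310217), (nat_lit 12946273)] (nat_lit 10300196)) p15_18_1 (nat_lit 4) (nat_lit 83) (nat_lit 84) = true := by decide +kernel
def p15_18_1_84 : pfC (piC [(nat_lit 40173837), (nat_lit 25770221), (nat_lit 19310217), (nat_lit 12946273)] (nat_lit 10300196)) p15_18_1 (nat_lit 4) (nat_lit 84) (nat_lit 85) = true := by decide +kernel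
def p15_18_1_85 : pfC (piC [(nat_lit 40173837), (nat_lit 25770221), (nat_lit 19310217), (nat_lit 12946273)] (nat_lit 10300196)) p15_18_1 (nat_lit 4) (nat_lit 85) (nat_lit 86) = true := by decide +kernel
def p15_18_1_86 : pfC (piC [(nat_lit 40173837), (nat_lit 25770221), (nat_lit 19310217), (nat_lit 12946273)] (nat_lit 10300196)) p15_18_1 (nat_lit 4) (nat_lit 86) (nat_lit 87) = true := by decide +kernel
def p15_18_1_87 : pfC (piC [(nat_lit 40173837), (nat_lit 25770221), (nat_lit 19310217), (nat_lit 12946273)] (nat_lit 10300196)) p15_18_1 (nat_lit 4) (nat_lit 87) (nat_lit 88) = true := by decide +kernel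
def p15_18_1_88 : pfC (piC [(nat_lit 40173837), (nat_lit 25770221), (nat_lit 19310217), (nat_lit 12946273)] (nat_lit 10300196)) p15_18_1 (nat_lit 4) (nat_lit 88) (nat_lit 89) = true := by decide +kernel
def p15_18_1_89 : pfC (piC [(nat_lit 40173837), (nat_lit 25770221), (nat_lit 19310217), (nat_lit 12946273)] (nat_lit 10300196)) p15_18_1 (nat_lit 4) (nat_lit 89) (nat_lit 90) = true := by decide +kernel
def p15_18_1_90 : pfC (piC [(nat_lit 40173837), (nat_lit 25770221), (nat_lit 19310217), (nat_lit 12946273)] (nat_lit 10300196)) p15_18_1 (nat_lit 4) (nat_lit 90) (nat_lit 91) = true := by decide +kernel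
def p15_18_1_91 : pfC (piC [(nat_lit 40173837), (nat_lit 25770221), (nat_lit 19310217), (nat_lit 12946273)] (nat_lit 10300196)) p15_18_1 (nat_lit 4) (nat_lit 91) (nat_lit 92) = true := by decide +kernel
def p15_18_1_92 : pfC (piC [(nat_lit 40173837), (nat_lit 25770221), (nat_lit 19310217), (nat_lit 12946273)] (nat_lit 10300196)) p15_18_1 (nat_lit 4) (nat_lit 92) (nat_lit 93) = true := by decide +kernel
def p15_18_1_93 : pfC (piC [(nat_lit 40173837), (nat_lit 25770221), (nat_lit 19310217), (nat_lit 12946273)] (nat_lit 10300196)) p15_18_1 (nat_lit 4) (nat_lit 93) (nat_lit 94) = true := by decide +kernel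
def p15_18_1_94 : pfC (piC [(nat_lit 40173837), (nat_lit 25770221), (nat_lit 19310217), (nat_lit 12946273)] (nat_lit 10300196)) p15_18_1 (nat_lit 4) (nat_lit 94) (nat_lit 95) = true := by decide +kernel
def p15_18_1_95 : pfC (piC [(nat_lit 40173837), (nat_lit 25770221), (nat_lit 19310217), (nat_lit 12946273)] (nat_lit 10300196)) p15_18_1 (nat_lit 4) (nat_lit 95) (nat_lit 96) = true := by decide +kernel
def p15_18_1_96 : pfC (piC [(nat_lit 40173837), (nat_lit 25770221), (nat_lit 19310217), (nat_lit 12946273)] (nat_lit 10300196)) p15_18_1 (nat_lit 4) (nat_lit 96) (nat_lit 97) = true := by decide +kernel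
def p15_18_1_97 : pfC (piC [(nat_lit 40173837), (nat_lit 25770221), (nat_lit 19310217), (nat_lit 12946273)] (nat_lit 10300196)) p15_18_1 (nat_lit 4) (nat_lit 97) (nat_lit 98) = true := by decide +kernel
def p15_18_1_98 : pfC (piC [(nat_lit 40173837), (nat_lit 25770221), (nat_lit 19310217), (nat_lit 12946273)] (nat_lit 10300196)) p15_18_1 (nat_lit 4) (nat_lit 98) (nat_lit 99) = true := by decide +kernel
def p15_18_1_99 : pfC (piC [(nat_lit 40173837), (nat_lit 25770221), (nat_lit 19310217), (nat_lit 12946273)] (nat_lit 10300196)) p15_18_1 (nat_lit 4) (nat_lit 99) (nat_lit 100) = true := by decide +kernel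
def p15_18_1_100 : pfC (piC [(nat_lit 40173837), (nat_lit 25770221), (nat_lit 19310217), (nat_lit 12946273)] (nat_lit 10300196)) p15_18_1 (nat_lit 4) (nat_lit 100) (nat_lit 101) = true := by decide +kernel
def p15_18_1_101 : pfC (piC [(nat_lit 40173837), (nat_lit 25770221), (nat_lit 19310217), (nat_lit 12946273)] (nat_lit 10300196)) p15_18_1 (nat_lit 4) (nat_lit 101) (nat_lit 102) = true := by decide +kernel
def p15_18_1_102 : pfC (piC [(nat_lit 40173837), (nat_lit 25770221), (nat_lit 19310217), (nat_lit 12946273)] (nat_lit 10300196)) p15_18_1 (nat_lit 4) (nat_lit 102) (nat_lit 103) = true := by decide +kernel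
def p15_18_1_103 : pfC (piC [(nat_lit 40173837), (nat_lit 25770221), (nat_lit 19310217), (nat_lit 12946273)] (nat_lit 10300196)) p15_18_1 (nat_lit 4) (nat_lit 103) (nat_lit 104) = true := by decide +kernel
def p15_18_1_104 : pfC (piC [(nat_lit 40173837), (nat_lit 25770221), (nat_lit 19310217), (nat_lit 12946273)] (nat_lit 10300196)) p15_18_1 (nat_lit 4) (nat_lit 104) (nat_lit 105) = true := by decide +kernel
def p15_18_1_105 : pfC (piC [(nat_lit 40173837), (nat_lit 25770221), (nat_lit 19310217), (nat_lit 12946273)] (nat_lit 10300196)) p15_18_1 (nat_lit 4) (nat_lit 105) (nat_lit 106) = true := by decide +kernel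
def p15_18_1_106 : pfC (piC [(nat_lit 40173837), (nat_lit 25770221), (nat_lit 19310217), (nat_lit 12946273)] (nat_lit 10300196)) p15_18_1 (nat_lit 4) (nat_lit 106) (nat_lit 107) = true := by decide +kernel
def p15_18_1_107 : pfC (piC [(nat_lit 40173837), (nat_lit 25770221), (nat_lit 19310217), (nat_lit 12946273)] (nat_lit 10300196)) p15_18_1 (nat_lit 4) (nat_lit 107) (nat_lit 108) = true := by decide +kernel
def p15_18_1_108 : pfC (piC [(nat_lit 40173837), (nat_lit 25770221), (nat_lit 19310217), (nat_lit 12946273)] (nat_lit 10300196)) p15_18_1 (nat_lit 4) (nat_lit 108) (nat_lit 109) = true := by decide +kernel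
def p15_18_1_109 : pfC (piC [(nat_lit 40173837), (nat_lit 25770221), (nat_lit 19310217), (nat_lit 12946273)] (nat_lit 10300196)) p15_18_1 (nat_lit 4) (nat_lit 109) (nat_lit 110) = true := by decide +kernel
def p15_18_1_110 : pfC (piC [(nat_lit 40173837), (nat_lit 25770221), (nat_lit 19310217), (nat_lit 12946273)] (nat_lit 10300196)) p15_18_1 (nat_lit 4) (nat_lit 110) (nat_lit 111) = true := by decide +kernel
def p15_18_1_111 : pfC (piC [(nat_lit 40173837), (nat_lit 25770221), (nat_lit 19310217), (nat_lit 12946273)] (nat_lit 10300196)) p15_18_1 (nat_lit 4) (nat_lit 111) (nat_lit 112) = true := by decide +kernel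
def p15_18_1_112 : pfC (piC [(nat_lit 40173837), (nat_lit 25770221), (nat_lit 19310217), (nat_lit 12946273)] (nat_lit 10300196)) p15_18_1 (nat_lit 4) (nat_lit 112) (nat_lit 113) = true := by decide +kernel
def p15_18_1_113 : pfC (piC [(nat_lit 40173837), (nat_lit 25770221), (nat_lit 19310217), (nat_lit 12946273)] (nat_lit 10300196)) p15_18_1 (nat_lit 4) (nat_lit 113) (nat_lit 114) = true := by decide +kernel
def p15_18_1_114 : pfC (piC [(nat_lit 40173837), (nat_lit 25770221), (nat_lit 19310217), (nat_lit 12946273)] (nat_lit 10300196)) p15_18_1 (nat_lit 4) (nat_lit 114) (nat_lit 115) = true := by decide +kernel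
def p15_18_1_115 : pfC (piC [(nat_lit 40173837), (nat_lit 25770221), (nat_lit 19310217), (nat_lit 12946273)] (nat_lit 10300196)) p15_18_1 (nat_lit 4) (nat_lit 115) (nat_lit 116) = true := by decide +kernel
def p15_18_1_116 : pfC (piC [(nat_lit 40173837), (nat_lit 25770221), (nat_lit 19310217), (nat_lit 12946273)] (nat_lit 10300196)) p15_18_1 (nat_lit 4) (nat_lit 116) (nat_lit 117) = true := by decide +kernel
theorem p15_18_1_T : PfS (PiF n15_18.reverse (nat_lit 10300196)) p15_18_1 (nat_lit 4) [] 0 :=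
  pftab_of (los := [(nat_lit 40173837), (nat_lit 25770221), (nat_lit 19310217), (nat_lit 12946273)]) (by decide +kernel) (hi := (nat_lit 117)) (PfP.trans (PfP.trans (PfP.trans (PfP.trans (PfP.trans (PfP.trans (PfP.trans (PfP.trans (PfP.trans (PfP.trans (PfP.trans (PfP.trans (PfP.trans (PfP.trans (PfP.trans (PfP.trans (PfP.trans (PfP.trans (PfP.trans (PfP.trans (PfP.trans (PfP.trans (PfP.trans (PfP.trans (PfP.trans (PfP.trans (PfP.trans (PfP.trans (PfP.trans (PfP.trans (PfP.trans (PfP.trans (PfP.trans (PfP.trans (PfP.trans (PfP.trans (PfP.trans (PfP.trans (PfP.trans (PfP.trans (PfP.trans (PfP.trans (PfP.trans (PfP.trans (PfP.trans (PfP.trans (PfP.trans (PfP.trans (PfP.trans (PfP.trans (PfP.trans (PfP.trans (PfP.trans (PfP.trans (PfP.trans (PfP.trans (PfP.trans (PfP.trans (PfP.trans (PfP.trans (PfP.trans (PfP.trans (PfP.trans (PfP.trans (PfP.trans (PfP.trans (PfP.trans (PfP.trans (PfP.trans (PfP.trans (PfP.trans (PfP.trans (PfP.trans (PfP.trans (PfP.trans (PfP.trans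 (PfP.trans (PfP.trans (PfP.trans (PfP.trans (PfP.trans (PfP.trans (PfP.trans (PfP.trans (PfP.trans (PfP.trans (PfP.trans (PfP.trans (PfP.trans (PfP.trans (PfP.trans (PfP.trans (PfP.trans (PfP.trans (PfP.trans (PfP.trans (PfP.trans (PfP.trans (PfP.trans (PfP.trans (PfP.trans (PfP.trans (PfP.trans (PfP.trans (PfP.trans (PfP.trans (PfP.trans (PfP.trans (PfP.trans
 (PfP.trans (PfP.trans (PfP.trans (PfP.trans (PfP.trans (PfP.trans (PfP.trans (pfC_sound p15_18_1_0) (pfC_sound p15_18_1_1)) (pfC_sound p15_18_1_2)) (pfC_sound p15_18_1_3)) (pfC_sound p15_18_1_4)) (pfC_sound p15_18_1_5)) (pfC_sound p15_18_1_6)) (pfC_sound p15_18_1_7)) (pfC_sound p15_18_1_8)) (pfC_sound p15_18_1_9)) (pfC_sound p15_18_1_10)) (pfC_sound p15_18_1_11)) (pfC_sound p15_18_1_12)) (pfC_sound p15_18_1_13)) (pfC_sound p15_18_1_14)) (pfC_sound p15_18_1_15)) (pfC_sound p15_18_1_16)) (pfC_sound p15_18_1_17)) (pfC_sound p15_18_1_18)) (pfC_sound p15_18_1_19)) (pfC_sound p15_18_1_20)) (pfC_sound p15_18_1_21))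 (pfC_sound p15_18_1_22)) (pfC_sound p15_18_1_23)) (pfC_sound p15_18_1_24)) (pfC_sound p15_18_1_25)) (pfC_sound p15_18_1_26)) (pfC_sound p15_18_1_27)) (pfC_sound p15_18_1_28)) (pfC_sound p15_18_1_29)) (pfC_sound p15_18_1_30)) (pfC_sound p15_18_1_31)) (pfC_sound p15_18_1_32)) (pfC_sound p15_18_1_33)) (pfC_sound p15_18_1_34)) (pfC_sound p15_18_1_35)) (pfC_sound p15_18_1_36)) (pfC_sound p15_18_1_37)) (pfC_sound p15_18_1_38)) (pfC_sound p15_18_1_39)) (pfC_sound p15_18_1_40)) (pfC_sound p15_18_1_41)) (pfC_sound p15_18_1_42)) (pfC_sound p15_18_1_43)) (pfC_sound p15_18_1_44))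
 (pfC_sound p15_18_1_45)) (pfC_sound p15_18_1_46)) (pfC_sound p15_18_1_47)) (pfC_sound p15_18_1_48)) (pfC_sound p15_18_1_49)) (pfC_sound p15_18_1_50)) (pfC_sound p15_18_1_51)) (pfC_sound p15_18_1_52)) (pfC_sound p15_18_1_53)) (pfC_sound p15_18_1_54)) (pfC_sound p15_18_1_55)) (pfC_sound p15_18_1_56)) (pfC_sound p15_18_1_57)) (pfC_sound p15_18_1_58)) (pfC_sound p15_18_1_59)) (pfC_sound p15_18_1_60)) (pfC_sound p15_18_1_61)) (pfC_sound p15_18_1_62)) (pfC_sound p15_18_1_63)) (pfC_sound p15_18_1_64)) (pfC_sound p15_18_1_65)) (pfC_sound p15_18_1_66)) (pfC_sound p15_18_1_67)) (pfC_sound p15_18_1_68)) (pfC_sound p15_18_1_69)) (pfC_sound p15_18_1_70)) (pfC_sound p15_18_1_71)) (pfC_sound p15_18_1_72)) (pfC_sound p15_18_1_73)) (pfC_sound p15_18_1_74)) (pfC_sound p15_18_1_75)) (pfC_sound p15_18_1_76)) (pfC_sound p15_18_1_77)) (pfC_sound p15_18_1_78)) (pfC_sound p15_18_1_79)) (pfC_sound p15_18_1_80)) (pfC_sound p15_18_1_81)) (pfC_sound p15_18_1_82)) (pfC_sound p15_18_1_83)) (pfC_sound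 p15_18_1_84)) (pfC_sound p15_18_1_85)) (pfC_sound p15_18_1_86)) (pfC_sound p15_18_1_87)) (pfC_sound p15_18_1_88)) (pfC_sound p15_18_1_89)) (pfC_sound p15_18_1_90)) (pfC_sound p15_18_1_91)) (pfC_sound p15_18_1_92))
 (pfC_sound p15_18_1_93)) (pfC_sound p15_18_1_94)) (pfC_sound p15_18_1_95)) (pfC_sound p15_18_1_96)) (pfC_sound p15_18_1_97)) (pfC_sound p15_18_1_98)) (pfC_sound p15_18_1_99)) (pfC_sound p15_18_1_100)) (pfC_sound p15_18_1_101)) (pfC_sound p15_18_1_102)) (pfC_sound p15_18_1_103)) (pfC_sound p15_18_1_104)) (pfC_sound p15_18_1_105)) (pfC_sound p15_18_1_106)) (pfC_sound p15_18_1_107)) (pfC_sound p15_18_1_108)) (pfC_sound p15_18_1_109)) (pfC_sound p15_18_1_110)) (pfC_sound p15_18_1_111)) (pfC_sound p15_18_1_112)) (pfC_sound p15_18_1_113)) (pfC_sound p15_18_1_114)) (pfC_sound p15_18_1_115)) (pfC_sound p15_18_1_116)) (by decide +kernel)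

def z15_18_1 : zOK yB15_18 (nat_lit 1) (nat_lit 400) (nat_lit 600) (nat_lit 10300196) (nat_lit 6655322) = true := by decide +kernel
def g15_18_1 : gOK yB15_18.x P15_18 (nat_lit 1422) (q15_18 :: r15_18) (nat_lit 1) (nat_lit 400) (nat_lit 2) (nat_lit 600) (nat_lit 11000000) (nat_lit 17850000) (nat_lit 12712500) (nat_lit 12712500) [(nat_lit 800), (nat_lit 1040)] = true := by decide +kernel
def v15_18_1 : ivC P15_18 s15_18 w15_18 n15_18 (nat_lit 4) (nat_lit 5020) (nat_lit 1) (nat_lit 400) f152_1_400 f160_1_400 (nat_lit 2) (nat_lit 600) f152_1_600 f160_1_600 (nat_lit 10300196) (nat_lit 6655322) p15_18_1 = true := by decide +kernel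
def p15_18_2 : PF := (PF.cons (PF.cons (PF.cons (PF.cons (PF.leaf (nat_lit 2759875) (nat_lit 16158333) (nat_lit 50950479) (nat_lit 16158333) [(nat_lit 0), (nat_lit 0), (nat_lit 0), (nat_lit 0)]) (PF.cons (PF.leaf (nat_lit 2906776) (nat_lit 253855) (nat_lit 50714474) (nat_lit 16140482) [(nat_lit 253855), (nat_lit 0), (nat_lit 0), (nat_lit 0)]) (PF.cons (PF.leaf (nat_lit 3081216) (nat_lit 275877) (nat_lit 50438496) (nat_lit 16118561) [(nat_lit 275877), (nat_lit 0), (nat_lit 0), (nat_lit 0)]) (PF.cons (PF.leaf (nat_lit 3276923) (nat_lit 295367) (nat_lit 50129955) (nat_lit 16092755) [(nat_lit 295367), (nat_lit 0), (nat_lit 0), (nat_lit 0)]) (PF.cons (PF.leaf (nat_lit 3490788) (nat_lit 312892) (nat_lit 49794101) (nat_lit 16063142) [(nat_lit 312892), (nat_lit 0), (nat_lit 0), (nat_lit 0)]) (PF.cons (PF.leaf (nat_lit 3720505) (nat_lit 328814) (nat_lit 49434977) (nat_lit 16029761) [(nat_lit 328814), (nat_lit 0), (nat_lit 0), (nat_lit 0)]) (PF.cons (PF.leaf (nat_lit 3964139)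 (nat_lit 343385) (nat_lit 49055864) (nat_lit 15992637) [(nat_lit 343385), (nat_lit 0), (nat_lit 0), (nat_lit 0)]) (PF.cons (PF.leaf (nat_lit 4220184) (nat_lit 356784) (nat_lit 48659523) (nat_lit 15951800) [(nat_lit 356784), (nat_lit 0),
 (nat_lit 0), (nat_lit 0)]) (PF.cons (PF.leaf (nat_lit 4487164) (nat_lit 369149) (nat_lit 48248332) (nat_lit 15907288) [(nat_lit 369149), (nat_lit 0), (nat_lit 0), (nat_lit 0)]) (PF.cons PF.nil PF.nil)))))))))) (PF.cons (PF.cons (PF.leaf (nat_lit 3279552) (nat_lit 1212825) (nat_lit 49833128) (nat_lit 16062859) [(nat_lit 0), (nat_lit 1212825), (nat_lit 0), (nat_lit 0)]) (PF.cons (PF.leaf (nat_lit 3469967) (nat_lit 305963) (nat_lit 49526616) (nat_lit 16034582) [(nat_lit 305963), (nat_lit 1241650), (nat_lit 0), (nat_lit 0)]) (PF.cons (PF.leaf (nat_lit 3680854) (nat_lit 322765) (nat_lit 49191261) (nat_lit 16002197) [(nat_lit 322765), (nat_lit 1269822), (nat_lit 0), (nat_lit 0)]) (PF.cons (PF.leaf (nat_lit 3908194) (nat_lit 337966) (nat_lit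 48832136) (nat_lit 15965872) [(nat_lit 337966), (nat_lit 1296903), (nat_lit 0), (nat_lit 0)]) (PF.cons (PF.leaf (nat_lit 4149719) (nat_lit 351842) (nat_lit 48453049) (nat_lit 15925717) [(nat_lit 351842), (nat_lit 1322677), (nat_lit 0), (nat_lit 0)]) (PF.cons (PF.leaf (nat_lit 4403742) (nat_lit 364582) (nat_lit 48057037) (nat_lit 15881819) [(nat_lit 364582), (nat_lit 1347043), (nat_lit 0), (nat_lit 0)]) (PF.cons (PF.leaf (nat_lit 4668666) (nat_lit
 376326) (nat_lit 47646628) (nat_lit 15834261) [(nat_lit 376326), (nat_lit 1369967), (nat_lit 0), (nat_lit 0)]) (PF.cons PF.nil (PF.cons PF.nil PF.nil))))))))) (PF.cons (PF.cons (PF.leaf (nat_lit 3874375) (nat_lit 1299569) (nat_lit 48574749) (nat_lit 15934924) [(nat_lit 0), (nat_lit 1299569), (nat_lit 0), (nat_lit 0)]) (PF.cons (PF.leaf (nat_lit 4096939) (nat_lit 345800) (nat_lit 48219510) (nat_lit 15896149) [(nat_lit 345800), (nat_lit 1323676), (nat_lit 0), (nat_lit 0)]) (PF.cons (PF.leaf (nat_lit 4335237) (nat_lit 359175)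 (nat_lit 47843415) (nat_lit 15853378) [(nat_lit 359175), (nat_lit 1346834), (nat_lit 0), (nat_lit 0)]) (PF.cons (PF.leaf (nat_lit 4586405) (nat_lit 371403) (nat_lit 47450093) (nat_lit 15806788) [(nat_lit 371403), (nat_lit 1368860), (nat_lit 0), (nat_lit 0)]) (PF.cons (PF.leaf (nat_lit 4848679) (nat_lit 382639) (nat_lit 47042397) (nat_lit 15756524) [(nat_lit 382639), (nat_lit 1389666), (nat_lit 0), (nat_lit 0)]) (PF.cons (PF.leaf (nat_lit 5120679) (nat_lit 392999) (nat_lit 46622669) (nat_lit 15702713) [(nat_lit 392999), (nat_lit 1409215), (nat_lit 0), (nat_lit 0)]) (PF.cons PF.nil PF.nil))))))) (PF.cons (PF.cons (PF.leaf (nat_lit 4522325) (nat_lit 1368631)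
 (nat_lit 47227246) (nat_lit 15775672) [(nat_lit 0), (nat_lit 1368631), (nat_lit 0), (nat_lit 0)]) (PF.cons (PF.leaf (nat_lit 4768908) (nat_lit 377296) (nat_lit 46839166) (nat_lit 15726829) [(nat_lit 377296), (nat_lit 1388506), (nat_lit 0), (nat_lit 0)]) (PF.cons (PF.leaf (nat_lit 5027734) (nat_lit 388137) (nat_lit 46436192) (nat_lit 15674242) [(nat_lit 388137), (nat_lit 1407367), (nat_lit 0), (nat_lit 0)]) (PF.cons (PF.leaf (nat_lit 5296548) (nat_lit 398092) (nat_lit 46021015) (nat_lit 15618101) [(nat_lit 398092), (nat_lit 1425139), (nat_lit 0), (nat_lit 0)]) (PF.cons PF.nil PF.nil))))) (PF.cons (PF.cons (PF.leaf (nat_lit 5207081) (nat_lit 1423267) (nat_lit 45828209) (nat_lit 15587533) [(nat_lit 0), (nat_lit 1423267), (nat_lit 0), (nat_lit 0)]) (PF.cons (PF.leaf (nat_lit 5471401) (nat_lit 402486) (nat_lit 45419323) (nat_lit 15529450) [(nat_lit 402486), (nat_lit 1439388), (nat_lit 0), (nat_lit 0)]) (PF.cons (PF.leaf (nat_lit 5745240) (nat_lit 411326) (nat_lit 45000105)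 (nat_lit 15467974) [(nat_lit 411326), (nat_lit 1454519), (nat_lit 0), (nat_lit 0)]) (PF.cons PF.nil PF.nil)))) (PF.cons (PF.cons (PF.leaf (nat_lit 5915899) (nat_lit 1465822) (nat_lit 44405872) (nat_lit 15373830)
 [(nat_lit 0), (nat_lit 1465822), (nat_lit 0), (nat_lit 0)]) (PF.cons PF.nil PF.nil)) (PF.cons PF.nil (PF.cons PF.nil PF.nil)))))))) (PF.cons (PF.cons (PF.cons (PF.leaf (nat_lit 3808962) (nat_lit 3160242) (nat_lit 48086543) (nat_lit 15862027) [(nat_lit 0), (nat_lit 0), (nat_lit 3160242), (nat_lit 0)]) (PF.cons (PF.leaf (nat_lit 4007878) (nat_lit 327246) (nat_lit 47771452) (nat_lit 15826050) [(nat_lit 327246), (nat_lit 0), (nat_lit 3184064), (nat_lit 0)]) (PF.cons (PF.leaf (nat_lit 4226316) (nat_lit 342959) (nat_lit 47429373) (nat_lit 15785609) [(nat_lit 342959), (nat_lit 0), (nat_lit 3207911), (nat_lit 0)]) (PF.cons (PF.leaf (nat_lit 4460149) (nat_lit 356976) (nat_lit 47065624) (nat_lit 15741056) [(nat_lit 356976), (nat_lit 0), (nat_lit 3231201), (nat_lit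 0)]) (PF.cons (PF.leaf (nat_lit 4707067) (nat_lit 369629) (nat_lit 46684103) (nat_lit 15692636) [(nat_lit 369629), (nat_lit 0), (nat_lit 3253554), (nat_lit 0)]) (PF.cons (PF.leaf (nat_lit 4965267) (nat_lit 381139) (nat_lit 46287850) (nat_lit 15640545) [(nat_lit 381139), (nat_lit 0), (nat_lit 3274719), (nat_lit 0)]) (PF.cons (PF.leaf (nat_lit 5233279) (nat_lit 391665) (nat_lit 45879340) (nat_lit 15584949) [(nat_lit 391665),
 (nat_lit 0), (nat_lit 3294531), (nat_lit 0)]) (PF.cons PF.nil (PF.cons PF.nil PF.nil))))))))) (PF.cons (PF.cons (PF.leaf (nat_lit 4415703) (nat_lit 1350331) (nat_lit 46816330) (nat_lit 15705838) [(nat_lit 0), (nat_lit 1350331), (nat_lit 3236311), (nat_lit 0)]) (PF.cons (PF.leaf (nat_lit 4643765) (nat_lit 362840) (nat_lit 46459295) (nat_lit 15659522) [(nat_lit 362840), (nat_lit 1370602), (nat_lit 3256551), (nat_lit 0)]) (PF.cons (PF.leaf (nat_lit 4886519) (nat_lit 375146) (nat_lit 46083334) (nat_lit 15609160) [(nat_lit 375146), (nat_lit 1389955),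 (nat_lit 3276068), (nat_lit 0)]) (PF.cons (PF.leaf (nat_lit 5141115) (nat_lit 386278) (nat_lit 45692100) (nat_lit 15555043) [(nat_lit 386278), (nat_lit 1408255), (nat_lit 3294577), (nat_lit 0)]) (PF.cons (PF.leaf (nat_lit 5405805) (nat_lit 396416) (nat_lit 45288410) (nat_lit 15497403) [(nat_lit 396416), (nat_lit 1425442), (nat_lit 3311892), (nat_lit 0)]) (PF.cons PF.nil (PF.cons PF.nil PF.nil))))))) (PF.cons (PF.cons (PF.leaf (nat_lit 5067473) (nat_lit 1406557) (nat_lit 45479002) (nat_lit 15521120) [(nat_lit 0), (nat_lit 1406557), (nat_lit 3295575), (nat_lit 0)]) (PF.cons (PF.leaf (nat_lit 5316801) (nat_lit 390628) (nat_lit 45094974)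
 (nat_lit 15465427) [(nat_lit 390628), (nat_lit 1423090), (nat_lit 3311602), (nat_lit 0)]) (PF.cons (PF.leaf (nat_lit 5577417) (nat_lit 400476) (nat_lit 44697790) (nat_lit 15406127) [(nat_lit 400476), (nat_lit 1438675), (nat_lit 3326589), (nat_lit 0)]) (PF.cons (PF.leaf (nat_lit 5847106) (nat_lit 409441) (nat_lit 44290078) (nat_lit 15343481) [(nat_lit 409441), (nat_lit 1453263), (nat_lit 3340401), (nat_lit 0)]) (PF.cons PF.nil PF.nil))))) (PF.cons (PF.cons (PF.leaf (nat_lit 5749374) (nat_lit 1450453) (nat_lit 44107419) (nat_lit 15311211) [(nat_lit 0), (nat_lit 1450453), (nat_lit 3338821), (nat_lit 0)]) (PF.cons (PF.leaf (nat_lit 6014111) (nat_lit 412592) (nat_lit 43707345) (nat_lit 15247264) [(nat_lit 412592), (nat_lit 1463672), (nat_lit 3350593), (nat_lit 0)]) (PF.cons (PF.leaf (nat_lit 6287522) (nat_lit 420534) (nat_lit 43298394) (nat_lit 15180170) [(nat_lit 420534), (nat_lit 1475984), (nat_lit 3361225), (nat_lit 0)]) (PF.cons PF.nil PF.nil)))) (PF.cons (PF.cons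 (PF.leaf (nat_lit 6450013) (nat_lit 1483963) (nat_lit 42725672) (nat_lit 15079811) [(nat_lit 0), (nat_lit 1483963), (nat_lit 3367475), (nat_lit 0)]) (PF.cons PF.nil PF.nil)) (PF.cons PF.nil PF.nil)))))) (PF.cons (PF.cons
 (PF.cons (PF.leaf (nat_lit 4946425) (nat_lit 3279678) (nat_lit 45099931) (nat_lit 15449524) [(nat_lit 0), (nat_lit 0), (nat_lit 3279678), (nat_lit 0)]) (PF.cons (PF.leaf (nat_lit 5177999) (nat_lit 376318) (nat_lit 44745691) (nat_lit 15397016) [(nat_lit 376318), (nat_lit 0), (nat_lit 3294893), (nat_lit 0)]) (PF.cons (PF.leaf (nat_lit 5423423) (nat_lit 387674) (nat_lit 44374253) (nat_lit 15340497) [(nat_lit 387674), (nat_lit 0), (nat_lit 3309356), (nat_lit 0)]) (PF.cons (PF.leaf (nat_lit 5679728) (nat_lit 397841) (nat_lit 43989230) (nat_lit 15280353) [(nat_lit 397841), (nat_lit 0), (nat_lit 3322852), (nat_lit 0)]) (PF.cons (PF.leaf (nat_lit 5945251) (nat_lit 407019) (nat_lit 43593367) (nat_lit 15216883) [(nat_lit 407019), (nat_lit 0), (nat_lit 3335242),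 (nat_lit 0)]) (PF.cons PF.nil (PF.cons PF.nil PF.nil))))))) (PF.cons (PF.cons (PF.leaf (nat_lit 5597758) (nat_lit 1433891) (nat_lit 43786845) (nat_lit 15244568) [(nat_lit 0), (nat_lit 1433891), (nat_lit 3321754), (nat_lit 0)]) (PF.cons (PF.leaf (nat_lit 5848306) (nat_lit 400924) (nat_lit 43410368) (nat_lit 15183464) [(nat_lit 400924), (nat_lit 1447621), (nat_lit 3333217), (nat_lit 0)]) (PF.cons (PF.leaf (nat_lit 6109323) (nat_lit
 409897) (nat_lit 43022223) (nat_lit 15118929) [(nat_lit 409897), (nat_lit 1460461), (nat_lit 3343701), (nat_lit 0)]) (PF.cons (PF.leaf (nat_lit 6378590) (nat_lit 417994) (nat_lit 42624953) (nat_lit 15051280) [(nat_lit 417994), (nat_lit 1472379), (nat_lit 3353108), (nat_lit 0)]) (PF.cons PF.nil PF.nil))))) (PF.cons (PF.cons (PF.leaf (nat_lit 6273747) (nat_lit 1468884) (nat_lit 42452734) (nat_lit 15018032) [(nat_lit 0), (nat_lit 1468884), (nat_lit 3350138), (nat_lit 0)]) (PF.cons (PF.leaf (nat_lit 6537731) (nat_lit 420117) (nat_lit 42063979)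 (nat_lit 14949641) [(nat_lit 420117), (nat_lit 1479660), (nat_lit 3357876), (nat_lit 0)]) (PF.cons PF.nil (PF.cons PF.nil PF.nil)))) (PF.cons (PF.cons (PF.leaf (nat_lit 6964123) (nat_lit 1494863) (nat_lit 41118261) (nat_lit 14773737) [(nat_lit 0), (nat_lit 1494863), (nat_lit 3366112), (nat_lit 0)]) (PF.cons PF.nil PF.nil)) (PF.cons PF.nil PF.nil))))) (PF.cons (PF.cons (PF.cons (PF.leaf (nat_lit 6112053) (nat_lit 3332534) (nat_lit 42158981) (nat_lit 14952229) [(nat_lit 0), (nat_lit 0), (nat_lit 3332534), (nat_lit 0)]) (PF.cons (PF.leaf (nat_lit 6362587) (nat_lit 408704) (nat_lit 41792482) (nat_lit 14886998) [(nat_lit 408704), (nat_lit 0),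
 (nat_lit 3340209), (nat_lit 0)]) (PF.cons (PF.leaf (nat_lit 6622855) (nat_lit 416901) (nat_lit 41415593) (nat_lit 14818532) [(nat_lit 416901), (nat_lit 0), (nat_lit 3346961), (nat_lit 0)]) (PF.cons PF.nil PF.nil)))) (PF.cons (PF.cons (PF.leaf (nat_lit 6779810) (nat_lit 1480190) (nat_lit 40868934) (nat_lit 14713534) [(nat_lit 0), (nat_lit 1480190), (nat_lit 3348717), (nat_lit 0)]) (PF.cons (PF.leaf (nat_lit 7042120) (nat_lit 425503) (nat_lit 40493138) (nat_lit 14641926) [(nat_lit 425503), (nat_lit 1488897), (nat_lit 3353115), (nat_lit 0)]) PF.nil)) (PF.cons PF.nil PF.nil))) (PF.cons (PF.cons (PF.cons (PF.leaf (nat_lit 7267586) (nat_lit 3337102) (nat_lit 39358121) (nat_lit 14402281) [(nat_lit 0), (nat_lit 0), (nat_lit 3337102), (nat_lit 0)]) (PF.cons PF.nil PF.nil)) (PF.cons PF.nil PF.nil)) (PF.cons PF.nil PF.nil)))))) (PF.cons (PF.cons (PF.cons (PF.cons (PF.leaf (nat_lit 4764084) (nat_lit 8894058) (nat_lit 43189358) (nat_lit 15025395) [(nat_lit 0), (nat_lit 0), (nat_lit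 0), (nat_lit 8894058)]) (PF.cons (PF.leaf (nat_lit 4961032) (nat_lit 336393) (nat_lit 42906815) (nat_lit 14980639) [(nat_lit 336393), (nat_lit 0), (nat_lit 0), (nat_lit 8884964)]) (PF.cons (PF.leaf (nat_lit 5176062)
 (nat_lit 351098) (nat_lit 42601314) (nat_lit 14931255) [(nat_lit 351098), (nat_lit 0), (nat_lit 0), (nat_lit 8874047)]) (PF.cons (PF.leaf (nat_lit 5405137) (nat_lit 363975) (nat_lit 42277746) (nat_lit 14877843) [(nat_lit 363975), (nat_lit 0), (nat_lit 0), (nat_lit 8861295)]) (PF.cons (PF.leaf (nat_lit 5645856) (nat_lit 375403) (nat_lit 41939661) (nat_lit 14820835) [(nat_lit 375403), (nat_lit 0), (nat_lit 0), (nat_lit 8846701)]) (PF.cons (PF.leaf (nat_lit 5896498) (nat_lit 385636) (nat_lit 41589794) (nat_lit 14760567) [(nat_lit 385636), (nat_lit 0), (nat_lit 0), (nat_lit 8830268)]) (PF.cons (PF.leaf (nat_lit 6155582) (nat_lit 394859) (nat_lit 41230336) (nat_lit 14697311) [(nat_lit 394859), (nat_lit 0), (nat_lit 0), (nat_lit 8812009)]) (PF.cons PF.nil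 (PF.cons PF.nil PF.nil))))))))) (PF.cons (PF.cons (PF.leaf (nat_lit 5350389) (nat_lit 1361278) (nat_lit 42061847) (nat_lit 14838290) [(nat_lit 0), (nat_lit 1361278), (nat_lit 0), (nat_lit 8847396)]) (PF.cons (PF.leaf (nat_lit 5572876) (nat_lit 367900) (nat_lit 41745956) (nat_lit 14784346) [(nat_lit 367900), (nat_lit 1377506), (nat_lit 0), (nat_lit 8833103)]) (PF.cons (PF.leaf (nat_lit 5808762) (nat_lit 379060) (nat_lit 41414414)
 (nat_lit 14726602) [(nat_lit 379060), (nat_lit 1392743), (nat_lit 0), (nat_lit 8816931)]) (PF.cons (PF.leaf (nat_lit 6055124) (nat_lit 388995) (nat_lit 41070489) (nat_lit 14665497) [(nat_lit 388995), (nat_lit 1406920), (nat_lit 0), (nat_lit 8798920)]) (PF.cons (PF.leaf (nat_lit 6310326) (nat_lit 397910) (nat_lit 40716673) (nat_lit 14601368) [(nat_lit 397910), (nat_lit 1420022), (nat_lit 0), (nat_lit 8779106)]) (PF.cons (PF.leaf (nat_lit 6573040) (nat_lit 405955) (nat_lit 40354948) (nat_lit 14534491) [(nat_lit 405955), (nat_lit 1432065),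 (nat_lit 0), (nat_lit 8757532)]) (PF.cons PF.nil PF.nil))))))) (PF.cons (PF.cons (PF.leaf (nat_lit 5973012) (nat_lit 1403492) (nat_lit 40888030) (nat_lit 14629387) [(nat_lit 0), (nat_lit 1403492), (nat_lit 0), (nat_lit 8784409)]) (PF.cons (PF.leaf (nat_lit 6213624) (nat_lit 391683) (nat_lit 40551744) (nat_lit 14567857) [(nat_lit 391683), (nat_lit 1416240), (nat_lit 0), (nat_lit 8765046)]) (PF.cons (PF.leaf (nat_lit 6464325) (nat_lit 400387) (nat_lit 40204841) (nat_lit 14503190) [(nat_lit 400387), (nat_lit 1428064), (nat_lit 0), (nat_lit 8743878)]) (PF.cons (PF.leaf (nat_lit 6722955) (nat_lit 408200) (nat_lit 39849616) (nat_lit 14435725) [(nat_lit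
 408200), (nat_lit 1438951), (nat_lit 0), (nat_lit 8720969)]) (PF.cons PF.nil PF.nil))))) (PF.cons (PF.cons (PF.leaf (nat_lit 6618805) (nat_lit 1435008) (nat_lit 39694583) (nat_lit 14402800) [(nat_lit 0), (nat_lit 1435008), (nat_lit 0), (nat_lit 8706404)]) (PF.cons (PF.leaf (nat_lit 6872217) (nat_lit 409950) (nat_lit 39346970) (nat_lit 14335068) [(nat_lit 409950), (nat_lit 1444822), (nat_lit 0), (nat_lit 8682356)]) (PF.cons (PF.leaf (nat_lit 7133260) (nat_lit 416819) (nat_lit 38992355) (nat_lit 14264758) [(nat_lit 416819), (nat_lit 1453804), (nat_lit 0), (nat_lit 8656646)]) (PF.cons PF.nil PF.nil)))) (PF.cons (PF.cons (PF.leaf (nat_lit 7278131) (nat_lit 1457835) (nat_lit 38500161) (nat_lit 14162195) [(nat_lit 0), (nat_lit 1457835), (nat_lit 0), (nat_lit 8615115)]) (PF.cons PF.nil PF.nil)) (PF.cons PF.nil PF.nil)))))) (PF.cons (PF.cons (PF.cons (PF.leaf (nat_lit 5838361) (nat_lit 3228806) (nat_lit 40573798) (nat_lit 14558238) [(nat_lit 0), (nat_lit 0), (nat_lit 3228806),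 (nat_lit 8747970)]) (PF.cons (PF.leaf (nat_lit 6062588) (nat_lit 377238) (nat_lit 40263441) (nat_lit 14500764) [(nat_lit 377238), (nat_lit 0), (nat_lit 3237707), (nat_lit 8729660)]) (PF.cons (PF.leaf (nat_lit
 6299399) (nat_lit 387540) (nat_lit 39938822) (nat_lit 14439612) [(nat_lit 387540), (nat_lit 0), (nat_lit 3245834), (nat_lit 8709462)]) (PF.cons (PF.leaf (nat_lit 6545958) (nat_lit 396629) (nat_lit 39603123) (nat_lit 14375268) [(nat_lit 396629), (nat_lit 0), (nat_lit 3253058), (nat_lit 8687474)]) (PF.cons (PF.leaf (nat_lit 6800634) (nat_lit 404721) (nat_lit 39258739) (nat_lit 14308104) [(nat_lit 404721), (nat_lit 0), (nat_lit 3259308), (nat_lit 8663775)]) (PF.cons PF.nil (PF.cons PF.nil PF.nil))))))) (PF.cons (PF.cons (PF.leaf (nat_lit 6457264) (nat_lit 1418087) (nat_lit 39430843) (nat_lit 14338783) [(nat_lit 0), (nat_lit 1418087), (nat_lit 3249484), (nat_lit 8671614)]) (PF.cons (PF.leaf (nat_lit 6697790) (nat_lit 398348) (nat_lit 39103498) (nat_lit 14274440)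 [(nat_lit 398348), (nat_lit 1428634), (nat_lit 3255249), (nat_lit 8648642)]) (PF.cons (PF.leaf (nat_lit 6947708) (nat_lit 406303) (nat_lit 38766659) (nat_lit 14207144) [(nat_lit 406303), (nat_lit 1438325), (nat_lit 3260135), (nat_lit 8623941)]) (PF.cons (PF.leaf (nat_lit 7204913) (nat_lit 413387) (nat_lit 38422523) (nat_lit 14137260) [(nat_lit 413387), (nat_lit 1447159), (nat_lit 3264096), (nat_lit 8597610)]) (PF.cons PF.nil
 PF.nil))))) (PF.cons (PF.cons (PF.leaf (nat_lit 7095363) (nat_lit 1442850) (nat_lit 38276889) (nat_lit 14104434) [(nat_lit 0), (nat_lit 1442850), (nat_lit 3259533), (nat_lit 8582254)]) (PF.cons (PF.leaf (nat_lit 7347166) (nat_lit 414371) (nat_lit 37940771) (nat_lit 14034649) [(nat_lit 414371), (nat_lit 1450794), (nat_lit 3262321), (nat_lit 8555111)]) (PF.cons PF.nil (PF.cons PF.nil PF.nil)))) (PF.cons (PF.cons (PF.leaf (nat_lit 7743921) (nat_lit 1460082) (nat_lit 37127972) (nat_lit 13858720) [(nat_lit 0), (nat_lit 1460082), (nat_lit 3260203),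 (nat_lit 8481668)]) (PF.cons PF.nil PF.nil)) (PF.cons PF.nil PF.nil))))) (PF.cons (PF.cons (PF.cons (PF.leaf (nat_lit 6926562) (nat_lit 3241385) (nat_lit 38035547) (nat_lit 14042720) [(nat_lit 0), (nat_lit 0), (nat_lit 3241385), (nat_lit 8547773)]) (PF.cons (PF.leaf (nat_lit 7166169) (nat_lit 403162) (nat_lit 37718397) (nat_lit 13976415) [(nat_lit 403162), (nat_lit 0), (nat_lit 3244463), (nat_lit 8521912)]) (PF.cons (PF.leaf (nat_lit 7414583) (nat_lit 410455) (nat_lit 37392718) (nat_lit 13907338) [(nat_lit 410455), (nat_lit 0), (nat_lit 3246719), (nat_lit 8494407)]) (PF.cons PF.nil PF.nil)))) (PF.cons (PF.cons (PF.leaf (nat_lit 7555591)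
 (nat_lit 1445757) (nat_lit 36924042) (nat_lit 13803451) [(nat_lit 0), (nat_lit 1445757), (nat_lit 3243004), (nat_lit 8449553)]) (PF.cons (PF.leaf (nat_lit 7805206) (nat_lit 417246) (nat_lit 36600144) (nat_lit 13732389) [(nat_lit 417246), (nat_lit 1452116), (nat_lit 3243460), (nat_lit 8419994)]) PF.nil)) (PF.cons PF.nil PF.nil))) (PF.cons (PF.cons (PF.cons (PF.leaf (nat_lit 7999808) (nat_lit 3219974) (nat_lit 35635622) (nat_lit 13502481) [(nat_lit 0), (nat_lit 0), (nat_lit 3219974), (nat_lit 8310786)]) (PF.cons PF.nil PF.nil)) (PF.cons PF.nil PF.nil)) (PF.cons PF.nil PF.nil))))) (PF.cons (PF.cons (PF.cons (PF.cons (PF.leaf (nat_lit 6626520) (nat_lit 8340146) (nat_lit 36742377) (nat_lit 13686142) [(nat_lit 0), (nat_lit 0), (nat_lit 0), (nat_lit 8340146)]) (PF.cons (PF.leaf (nat_lit 6842576) (nat_lit 373108) (nat_lit 36471787) (nat_lit 13628252) [(nat_lit 373108), (nat_lit 0), (nat_lit 0), (nat_lit 8317832)]) (PF.cons (PF.leaf (nat_lit 7070266) (nat_lit 382537) (nat_lit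 36189206) (nat_lit 13567033) [(nat_lit 382537), (nat_lit 0), (nat_lit 0), (nat_lit 8293748)]) (PF.cons (PF.leaf (nat_lit 7306794) (nat_lit 390758) (nat_lit 35897407) (nat_lit 13503006) [(nat_lit 390758), (nat_lit 0),
 (nat_lit 0), (nat_lit 8268061)]) (PF.cons (PF.leaf (nat_lit 7550597) (nat_lit 397997) (nat_lit 35598464) (nat_lit 13436565) [(nat_lit 397997), (nat_lit 0), (nat_lit 0), (nat_lit 8240897)]) PF.nil))))) (PF.cons (PF.cons (PF.leaf (nat_lit 7214211) (nat_lit 1387544) (nat_lit 35750825) (nat_lit 13467926) [(nat_lit 0), (nat_lit 1387544), (nat_lit 0), (nat_lit 8251258)]) (PF.cons (PF.leaf (nat_lit 7444624) (nat_lit 391553) (nat_lit 35466714) (nat_lit 13404430) [(nat_lit 391553), (nat_lit 1395845), (nat_lit 0), (nat_lit 8225134)]) (PF.cons (PF.leaf (nat_lit 7683636) (nat_lit 398708) (nat_lit 35174699) (nat_lit 13338370) [(nat_lit 398708), (nat_lit 1403337), (nat_lit 0), (nat_lit 8197494)]) (PF.cons PF.nil PF.nil)))) (PF.cons (PF.cons (PF.leaf (nat_lit 7817476)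 (nat_lit 1405346) (nat_lit 34753259) (nat_lit 13239125) [(nat_lit 0), (nat_lit 1405346), (nat_lit 0), (nat_lit 8152867)]) (PF.cons (PF.leaf (nat_lit 8057654) (nat_lit 405241) (nat_lit 34462449) (nat_lit 13171424) [(nat_lit 405241), (nat_lit 1411338), (nat_lit 0), (nat_lit 8123510)]) PF.nil)) (PF.cons PF.nil (PF.cons PF.nil PF.nil))))) (PF.cons (PF.cons (PF.cons (PF.leaf (nat_lit 7645640) (nat_lit 3131342) (nat_lit 34553972)
 (nat_lit 13183076) [(nat_lit 0), (nat_lit 0), (nat_lit 3131342), (nat_lit 8120210)]) (PF.cons (PF.leaf (nat_lit 7874669) (nat_lit 394425) (nat_lit 34279272) (nat_lit 13118841) [(nat_lit 394425), (nat_lit 0), (nat_lit 3131560), (nat_lit 8092357)]) (PF.cons (PF.leaf (nat_lit 8111779) (nat_lit 401008) (nat_lit 33997415) (nat_lit 13052202) [(nat_lit 401008), (nat_lit 0), (nat_lit 3131044), (nat_lit 8063066)]) (PF.cons PF.nil PF.nil)))) (PF.cons (PF.cons (PF.leaf (nat_lit 8239783) (nat_lit 1403134) (nat_lit 33594474) (nat_lit 12953318) [(nat_lit 0),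 (nat_lit 1403134), (nat_lit 3124200), (nat_lit 8016842)]) (PF.cons PF.nil PF.nil)) (PF.cons PF.nil PF.nil))) (PF.cons (PF.cons (PF.cons (PF.leaf (nat_lit 8648113) (nat_lit 3095225) (nat_lit 32490739) (nat_lit 12670862) [(nat_lit 0), (nat_lit 0), (nat_lit 3095225), (nat_lit 7878380)]) (PF.cons PF.nil PF.nil)) (PF.cons PF.nil PF.nil)) PF.nil))) (PF.cons (PF.cons (PF.cons (PF.cons (PF.leaf (nat_lit 8289386) (nat_lit 7707292) (nat_lit 31597233) (nat_lit 12389702) [(nat_lit 0), (nat_lit 0), (nat_lit 0), (nat_lit 7707292)]) (PF.cons (PF.leaf (nat_lit 8508437) (nat_lit 384071) (nat_lit 31358321) (nat_lit 12328962) [(nat_lit 384071), (nat_lit 0),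
 (nat_lit 0), (nat_lit 7679152)]) (PF.cons (PF.leaf (nat_lit 8735076) (nat_lit 390080) (nat_lit 31113301) (nat_lit 12266117) [(nat_lit 390080), (nat_lit 0), (nat_lit 0), (nat_lit 7649744)]) (PF.cons PF.nil PF.nil)))) (PF.cons (PF.cons (PF.leaf (nat_lit 8852302) (nat_lit 1357121) (nat_lit 30765029) (nat_lit 12173806) [(nat_lit 0), (nat_lit 1357121), (nat_lit 0), (nat_lit 7604285)]) (PF.cons PF.nil PF.nil)) (PF.cons PF.nil PF.nil))) (PF.cons (PF.cons (PF.cons (PF.leaf (nat_lit 9230679) (nat_lit 2970390) (nat_lit 29813474) (nat_lit 11912623) [(nat_lit 0), (nat_lit 0), (nat_lit 2970390), (nat_lit 7470774)]) (PF.cons PF.nil PF.nil)) PF.nil) PF.nil)) (PF.cons PF.nil (PF.cons PF.nil (PF.cons PF.nil (PF.cons PF.nil PF.nil))))))))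

def p15_18_2_0 : pfC (piC [(nat_lit 40173837), (nat_lit 25770221), (nat_lit 19310217), (nat_lit 12946273)] (nat_lit 6655322)) p15_18_2 (nat_lit 4) (nat_lit 0) (nat_lit 1) = true := by decide +kernel
def p15_18_2_1 : pfC (piC [(nat_lit 40173837), (nat_lit 25770221), (nat_lit 19310217), (nat_lit 12946273)] (nat_lit 6655322)) p15_18_2 (nat_lit 4) (nat_lit 1) (nat_lit 2) = true := by decide +kernel
def p15_18_2_2 : pfC (piC [(nat_lit 40173837), (nat_lit 25770221), (nat_lit 19310217), (nat_lit 12946273)] (nat_lit 6655322)) p15_18_2 (nat_lit 4) (nat_lit 2) (nat_lit 3) = true := by decide +kernel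
def p15_18_2_3 : pfC (piC [(nat_lit 40173837), (nat_lit 25770221), (nat_lit 19310217), (nat_lit 12946273)] (nat_lit 6655322)) p15_18_2 (nat_lit 4) (nat_lit 3) (nat_lit 4) = true := by decide +kernel
def p15_18_2_4 : pfC (piC [(nat_lit 40173837), (nat_lit 25770221), (nat_lit 19310217), (nat_lit 12946273)] (nat_lit 6655322)) p15_18_2 (nat_lit 4) (nat_lit 4) (nat_lit 5) = true := by decide +kernel
def p15_18_2_5 : pfC (piC [(nat_lit 40173837), (nat_lit 25770221), (nat_lit 19310217), (nat_lit 12946273)] (nat_lit 6655322)) p15_18_2 (nat_lit 4) (nat_lit 5) (nat_lit 6) = true := by decide +kernel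
def p15_18_2_6 : pfC (piC [(nat_lit 40173837), (nat_lit 25770221), (nat_lit 19310217), (nat_lit 12946273)] (nat_lit 6655322)) p15_18_2 (nat_lit 4) (nat_lit 6) (nat_lit 7) = true := by decide +kernel
def p15_18_2_7 : pfC (piC [(nat_lit 40173837), (nat_lit 25770221), (nat_lit 19310217), (nat_lit 12946273)] (nat_lit 6655322)) p15_18_2 (nat_lit 4) (nat_lit 7) (nat_lit 8) = true := by decide +kernel
def p15_18_2_8 : pfC (piC [(nat_lit 40173837), (nat_lit 25770221), (nat_lit 19310217), (nat_lit 12946273)] (nat_lit 6655322)) p15_18_2 (nat_lit 4) (nat_lit 8) (nat_lit 9) = true := by decide +kernel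
def p15_18_2_9 : pfC (piC [(nat_lit 40173837), (nat_lit 25770221), (nat_lit 19310217), (nat_lit 12946273)] (nat_lit 6655322)) p15_18_2 (nat_lit 4) (nat_lit 9) (nat_lit 10) = true := by decide +kernel
def p15_18_2_10 : pfC (piC [(nat_lit 40173837), (nat_lit 25770221), (nat_lit 19310217), (nat_lit 12946273)] (nat_lit 6655322)) p15_18_2 (nat_lit 4) (nat_lit 10) (nat_lit 11) = true := by decide +kernel
def p15_18_2_11 : pfC (piC [(nat_lit 40173837), (nat_lit 25770221), (nat_lit 19310217), (nat_lit 12946273)] (nat_lit 6655322)) p15_18_2 (nat_lit 4) (nat_lit 11) (nat_lit 12) = true := by decide +kernel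
def p15_18_2_12 : pfC (piC [(nat_lit 40173837), (nat_lit 25770221), (nat_lit 19310217), (nat_lit 12946273)] (nat_lit 6655322)) p15_18_2 (nat_lit 4) (nat_lit 12) (nat_lit 13) = true := by decide +kernel
def p15_18_2_13 : pfC (piC [(nat_lit 40173837), (nat_lit 25770221), (nat_lit 19310217), (nat_lit 12946273)] (nat_lit 6655322)) p15_18_2 (nat_lit 4) (nat_lit 13) (nat_lit 14) = true := by decide +kernel
def p15_18_2_14 : pfC (piC [(nat_lit 40173837), (nat_lit 25770221), (nat_lit 19310217), (nat_lit 12946273)] (nat_lit 6655322)) p15_18_2 (nat_lit 4) (nat_lit 14) (nat_lit 15) = true := by decide +kernel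
def p15_18_2_15 : pfC (piC [(nat_lit 40173837), (nat_lit 25770221), (nat_lit 19310217), (nat_lit 12946273)] (nat_lit 6655322)) p15_18_2 (nat_lit 4) (nat_lit 15) (nat_lit 16) = true := by decide +kernel
def p15_18_2_16 : pfC (piC [(nat_lit 40173837), (nat_lit 25770221), (nat_lit 19310217), (nat_lit 12946273)] (nat_lit 6655322)) p15_18_2 (nat_lit 4) (nat_lit 16) (nat_lit 17) = true := by decide +kernel
def p15_18_2_17 : pfC (piC [(nat_lit 40173837), (nat_lit 25770221), (nat_lit 19310217), (nat_lit 12946273)] (nat_lit 6655322)) p15_18_2 (nat_lit 4) (nat_lit 17) (nat_lit 18) = true := by decide +kernel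
def p15_18_2_18 : pfC (piC [(nat_lit 40173837), (nat_lit 25770221), (nat_lit 19310217), (nat_lit 12946273)] (nat_lit 6655322)) p15_18_2 (nat_lit 4) (nat_lit 18) (nat_lit 19) = true := by decide +kernel
def p15_18_2_19 : pfC (piC [(nat_lit 40173837), (nat_lit 25770221), (nat_lit 19310217), (nat_lit 12946273)] (nat_lit 6655322)) p15_18_2 (nat_lit 4) (nat_lit 19) (nat_lit 20) = true := by decide +kernel
def p15_18_2_20 : pfC (piC [(nat_lit 40173837), (nat_lit 25770221), (nat_lit 19310217), (nat_lit 12946273)] (nat_lit 6655322)) p15_18_2 (nat_lit 4) (nat_lit 20) (nat_lit 21) = true := by decide +kernel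
def p15_18_2_21 : pfC (piC [(nat_lit 40173837), (nat_lit 25770221), (nat_lit 19310217), (nat_lit 12946273)] (nat_lit 6655322)) p15_18_2 (nat_lit 4) (nat_lit 21) (nat_lit 22) = true := by decide +kernel
def p15_18_2_22 : pfC (piC [(nat_lit 40173837), (nat_lit 25770221), (nat_lit 19310217), (nat_lit 12946273)] (nat_lit 6655322)) p15_18_2 (nat_lit 4) (nat_lit 22) (nat_lit 23) = true := by decide +kernel
def p15_18_2_23 : pfC (piC [(nat_lit 40173837), (nat_lit 25770221), (nat_lit 19310217), (nat_lit 12946273)] (nat_lit 6655322)) p15_18_2 (nat_lit 4) (nat_lit 23) (nat_lit 24) = true := by decide +kernel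
def p15_18_2_24 : pfC (piC [(nat_lit 40173837), (nat_lit 25770221), (nat_lit 19310217), (nat_lit 12946273)] (nat_lit 6655322)) p15_18_2 (nat_lit 4) (nat_lit 24) (nat_lit 25) = true := by decide +kernel
def p15_18_2_25 : pfC (piC [(nat_lit 40173837), (nat_lit 25770221), (nat_lit 19310217), (nat_lit 12946273)] (nat_lit 6655322)) p15_18_2 (nat_lit 4) (nat_lit 25) (nat_lit 26) = true := by decide +kernel
def p15_18_2_26 : pfC (piC [(nat_lit 40173837), (nat_lit 25770221), (nat_lit 19310217), (nat_lit 12946273)] (nat_lit 6655322)) p15_18_2 (nat_lit 4) (nat_lit 26) (nat_lit 27) = true := by decide +kernel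
def p15_18_2_27 : pfC (piC [(nat_lit 40173837), (nat_lit 25770221), (nat_lit 19310217), (nat_lit 12946273)] (nat_lit 6655322)) p15_18_2 (nat_lit 4) (nat_lit 27) (nat_lit 28) = true := by decide +kernel
def p15_18_2_28 : pfC (piC [(nat_lit 40173837), (nat_lit 25770221), (nat_lit 19310217), (nat_lit 12946273)] (nat_lit 6655322)) p15_18_2 (nat_lit 4) (nat_lit 28) (nat_lit 29) = true := by decide +kernel
def p15_18_2_29 : pfC (piC [(nat_lit 40173837), (nat_lit 25770221), (nat_lit 19310217), (nat_lit 12946273)] (nat_lit 6655322)) p15_18_2 (nat_lit 4) (nat_lit 29) (nat_lit 30) = true := by decide +kernel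
def p15_18_2_30 : pfC (piC [(nat_lit 40173837), (nat_lit 25770221), (nat_lit 19310217), (nat_lit 12946273)] (nat_lit 6655322)) p15_18_2 (nat_lit 4) (nat_lit 30) (nat_lit 31) = true := by decide +kernel
def p15_18_2_31 : pfC (piC [(nat_lit 40173837), (nat_lit 25770221), (nat_lit 19310217), (nat_lit 12946273)] (nat_lit 6655322)) p15_18_2 (nat_lit 4) (nat_lit 31) (nat_lit 32) = true := by decide +kernel
def p15_18_2_32 : pfC (piC [(nat_lit 40173837), (nat_lit 25770221), (nat_lit 19310217), (nat_lit 12946273)] (nat_lit 6655322)) p15_18_2 (nat_lit 4) (nat_lit 32) (nat_lit 33) = true := by decide +kernel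
def p15_18_2_33 : pfC (piC [(nat_lit 40173837), (nat_lit 25770221), (nat_lit 19310217), (nat_lit 12946273)] (nat_lit 6655322)) p15_18_2 (nat_lit 4) (nat_lit 33) (nat_lit 34) = true := by decide +kernel
def p15_18_2_34 : pfC (piC [(nat_lit 40173837), (nat_lit 25770221), (nat_lit 19310217), (nat_lit 12946273)] (nat_lit 6655322)) p15_18_2 (nat_lit 4) (nat_lit 34) (nat_lit 35) = true := by decide +kernel
def p15_18_2_35 : pfC (piC [(nat_lit 40173837), (nat_lit 25770221), (nat_lit 19310217), (nat_lit 12946273)] (nat_lit 6655322)) p15_18_2 (nat_lit 4) (nat_lit 35) (nat_lit 36) = true := by decide +kernel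
def p15_18_2_36 : pfC (piC [(nat_lit 40173837), (nat_lit 25770221), (nat_lit 19310217), (nat_lit 12946273)] (nat_lit 6655322)) p15_18_2 (nat_lit 4) (nat_lit 36) (nat_lit 37) = true := by decide +kernel
def p15_18_2_37 : pfC (piC [(nat_lit 40173837), (nat_lit 25770221), (nat_lit 19310217), (nat_lit 12946273)] (nat_lit 6655322)) p15_18_2 (nat_lit 4) (nat_lit 37) (nat_lit 38) = true := by decide +kernel
def p15_18_2_38 : pfC (piC [(nat_lit 40173837), (nat_lit 25770221), (nat_lit 19310217), (nat_lit 12946273)] (nat_lit 6655322)) p15_18_2 (nat_lit 4) (nat_lit 38) (nat_lit 39) = true := by decide +kernel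
def p15_18_2_39 : pfC (piC [(nat_lit 40173837), (nat_lit 25770221), (nat_lit 19310217), (nat_lit 12946273)] (nat_lit 6655322)) p15_18_2 (nat_lit 4) (nat_lit 39) (nat_lit 40) = true := by decide +kernel
def p15_18_2_40 : pfC (piC [(nat_lit 40173837), (nat_lit 25770221), (nat_lit 19310217), (nat_lit 12946273)] (nat_lit 6655322)) p15_18_2 (nat_lit 4) (nat_lit 40) (nat_lit 41) = true := by decide +kernel
def p15_18_2_41 : pfC (piC [(nat_lit 40173837), (nat_lit 25770221), (nat_lit 19310217), (nat_lit 12946273)] (nat_lit 6655322)) p15_18_2 (nat_lit 4) (nat_lit 41) (nat_lit 42) = true := by decide +kernel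
def p15_18_2_42 : pfC (piC [(nat_lit 40173837), (nat_lit 25770221), (nat_lit 19310217), (nat_lit 12946273)] (nat_lit 6655322)) p15_18_2 (nat_lit 4) (nat_lit 42) (nat_lit 43) = true := by decide +kernel
def p15_18_2_43 : pfC (piC [(nat_lit 40173837), (nat_lit 25770221), (nat_lit 19310217), (nat_lit 12946273)] (nat_lit 6655322)) p15_18_2 (nat_lit 4) (nat_lit 43) (nat_lit 44) = true := by decide +kernel
def p15_18_2_44 : pfC (piC [(nat_lit 40173837), (nat_lit 25770221), (nat_lit 19310217), (nat_lit 12946273)] (nat_lit 6655322)) p15_18_2 (nat_lit 4) (nat_lit 44) (nat_lit 45) = true := by decide +kernel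
def p15_18_2_45 : pfC (piC [(nat_lit 40173837), (nat_lit 25770221), (nat_lit 19310217), (nat_lit 12946273)] (nat_lit 6655322)) p15_18_2 (nat_lit 4) (nat_lit 45) (nat_lit 46) = true := by decide +kernel
def p15_18_2_46 : pfC (piC [(nat_lit 40173837), (nat_lit 25770221), (nat_lit 19310217), (nat_lit 12946273)] (nat_lit 6655322)) p15_18_2 (nat_lit 4) (nat_lit 46) (nat_lit 47) = true := by decide +kernel
def p15_18_2_47 : pfC (piC [(nat_lit 40173837), (nat_lit 25770221), (nat_lit 19310217), (nat_lit 12946273)] (nat_lit 6655322)) p15_18_2 (nat_lit 4) (nat_lit 47) (nat_lit 48) = true := by decide +kernel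
def p15_18_2_48 : pfC (piC [(nat_lit 40173837), (nat_lit 25770221), (nat_lit 19310217), (nat_lit 12946273)] (nat_lit 6655322)) p15_18_2 (nat_lit 4) (nat_lit 48) (nat_lit 49) = true := by decide +kernel
def p15_18_2_49 : pfC (piC [(nat_lit 40173837), (nat_lit 25770221), (nat_lit 19310217), (nat_lit 12946273)] (nat_lit 6655322)) p15_18_2 (nat_lit 4) (nat_lit 49) (nat_lit 50) = true := by decide +kernel
def p15_18_2_50 : pfC (piC [(nat_lit 40173837), (nat_lit 25770221), (nat_lit 19310217), (nat_lit 12946273)] (nat_lit 6655322)) p15_18_2 (nat_lit 4) (nat_lit 50) (nat_lit 51) = true := by decide +kernel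
def p15_18_2_51 : pfC (piC [(nat_lit 40173837), (nat_lit 25770221), (nat_lit 19310217), (nat_lit 12946273)] (nat_lit 6655322)) p15_18_2 (nat_lit 4) (nat_lit 51) (nat_lit 52) = true := by decide +kernel
def p15_18_2_52 : pfC (piC [(nat_lit 40173837), (nat_lit 25770221), (nat_lit 19310217), (nat_lit 12946273)] (nat_lit 6655322)) p15_18_2 (nat_lit 4) (nat_lit 52) (nat_lit 53) = true := by decide +kernel
def p15_18_2_53 : pfC (piC [(nat_lit 40173837), (nat_lit 25770221), (nat_lit 19310217), (nat_lit 12946273)] (nat_lit 6655322)) p15_18_2 (nat_lit 4) (nat_lit 53) (nat_lit 54) = true := by decide +kernel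
def p15_18_2_54 : pfC (piC [(nat_lit 40173837), (nat_lit 25770221), (nat_lit 19310217), (nat_lit 12946273)] (nat_lit 6655322)) p15_18_2 (nat_lit 4) (nat_lit 54) (nat_lit 55) = true := by decide +kernel
def p15_18_2_55 : pfC (piC [(nat_lit 40173837), (nat_lit 25770221), (nat_lit 19310217), (nat_lit 12946273)] (nat_lit 6655322)) p15_18_2 (nat_lit 4) (nat_lit 55) (nat_lit 56) = true := by decide +kernel
def p15_18_2_56 : pfC (piC [(nat_lit 40173837), (nat_lit 25770221), (nat_lit 19310217), (nat_lit 12946273)] (nat_lit 6655322)) p15_18_2 (nat_lit 4) (nat_lit 56) (nat_lit 57) = true := by decide +kernel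
def p15_18_2_57 : pfC (piC [(nat_lit 40173837), (nat_lit 25770221), (nat_lit 19310217), (nat_lit 12946273)] (nat_lit 6655322)) p15_18_2 (nat_lit 4) (nat_lit 57) (nat_lit 58) = true := by decide +kernel
def p15_18_2_58 : pfC (piC [(nat_lit 40173837), (nat_lit 25770221), (nat_lit 19310217), (nat_lit 12946273)] (nat_lit 6655322)) p15_18_2 (nat_lit 4) (nat_lit 58) (nat_lit 59) = true := by decide +kernel
def p15_18_2_59 : pfC (piC [(nat_lit 40173837), (nat_lit 25770221), (nat_lit 19310217), (nat_lit 12946273)] (nat_lit 6655322)) p15_18_2 (nat_lit 4) (nat_lit 59) (nat_lit 60) = true := by decide +kernel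
def p15_18_2_60 : pfC (piC [(nat_lit 40173837), (nat_lit 25770221), (nat_lit 19310217), (nat_lit 12946273)] (nat_lit 6655322)) p15_18_2 (nat_lit 4) (nat_lit 60) (nat_lit 61) = true := by decide +kernel
def p15_18_2_61 : pfC (piC [(nat_lit 40173837), (nat_lit 25770221), (nat_lit 19310217), (nat_lit 12946273)] (nat_lit 6655322)) p15_18_2 (nat_lit 4) (nat_lit 61) (nat_lit 62) = true := by decide +kernel
def p15_18_2_62 : pfC (piC [(nat_lit 40173837), (nat_lit 25770221), (nat_lit 19310217), (nat_lit 12946273)] (nat_lit 6655322)) p15_18_2 (nat_lit 4) (nat_lit 62) (nat_lit 63) = true := by decide +kernel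
def p15_18_2_63 : pfC (piC [(nat_lit 40173837), (nat_lit 25770221), (nat_lit 19310217), (nat_lit 12946273)] (nat_lit 6655322)) p15_18_2 (nat_lit 4) (nat_lit 63) (nat_lit 64) = true := by decide +kernel
def p15_18_2_64 : pfC (piC [(nat_lit 40173837), (nat_lit 25770221), (nat_lit 19310217), (nat_lit 12946273)] (nat_lit 6655322)) p15_18_2 (nat_lit 4) (nat_lit 64) (nat_lit 65) = true := by decide +kernel
def p15_18_2_65 : pfC (piC [(nat_lit 40173837), (nat_lit 25770221), (nat_lit 19310217), (nat_lit 12946273)] (nat_lit 6655322)) p15_18_2 (nat_lit 4) (nat_lit 65) (nat_lit 66) = true := by decide +kernel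
def p15_18_2_66 : pfC (piC [(nat_lit 40173837), (nat_lit 25770221), (nat_lit 19310217), (nat_lit 12946273)] (nat_lit 6655322)) p15_18_2 (nat_lit 4) (nat_lit 66) (nat_lit 67) = true := by decide +kernel
def p15_18_2_67 : pfC (piC [(nat_lit 40173837), (nat_lit 25770221), (nat_lit 19310217), (nat_lit 12946273)] (nat_lit 6655322)) p15_18_2 (nat_lit 4) (nat_lit 67) (nat_lit 68) = true := by decide +kernel
def p15_18_2_68 : pfC (piC [(nat_lit 40173837), (nat_lit 25770221), (nat_lit 19310217), (nat_lit 12946273)] (nat_lit 6655322)) p15_18_2 (nat_lit 4) (nat_lit 68) (nat_lit 69) = true := by decide +kernel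
def p15_18_2_69 : pfC (piC [(nat_lit 40173837), (nat_lit 25770221), (nat_lit 19310217), (nat_lit 12946273)] (nat_lit 6655322)) p15_18_2 (nat_lit 4) (nat_lit 69) (nat_lit 70) = true := by decide +kernel
def p15_18_2_70 : pfC (piC [(nat_lit 40173837), (nat_lit 25770221), (nat_lit 19310217), (nat_lit 12946273)] (nat_lit 6655322)) p15_18_2 (nat_lit 4) (nat_lit 70) (nat_lit 71) = true := by decide +kernel
def p15_18_2_71 : pfC (piC [(nat_lit 40173837), (nat_lit 25770221), (nat_lit 19310217), (nat_lit 12946273)] (nat_lit 6655322)) p15_18_2 (nat_lit 4) (nat_lit 71) (nat_lit 72) = true := by decide +kernel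
def p15_18_2_72 : pfC (piC [(nat_lit 40173837), (nat_lit 25770221), (nat_lit 19310217), (nat_lit 12946273)] (nat_lit 6655322)) p15_18_2 (nat_lit 4) (nat_lit 72) (nat_lit 73) = true := by decide +kernel
def p15_18_2_73 : pfC (piC [(nat_lit 40173837), (nat_lit 25770221), (nat_lit 19310217), (nat_lit 12946273)] (nat_lit 6655322)) p15_18_2 (nat_lit 4) (nat_lit 73) (nat_lit 74) = true := by decide +kernel
def p15_18_2_74 : pfC (piC [(nat_lit 40173837), (nat_lit 25770221), (nat_lit 19310217), (nat_lit 12946273)] (nat_lit 6655322)) p15_18_2 (nat_lit 4) (nat_lit 74) (nat_lit 75) = true := by decide +kernel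
def p15_18_2_75 : pfC (piC [(nat_lit 40173837), (nat_lit 25770221), (nat_lit 19310217), (nat_lit 12946273)] (nat_lit 6655322)) p15_18_2 (nat_lit 4) (nat_lit 75) (nat_lit 76) = true := by decide +kernel
def p15_18_2_76 : pfC (piC [(nat_lit 40173837), (nat_lit 25770221), (nat_lit 19310217), (nat_lit 12946273)] (nat_lit 6655322)) p15_18_2 (nat_lit 4) (nat_lit 76) (nat_lit 77) = true := by decide +kernel
def p15_18_2_77 : pfC (piC [(nat_lit 40173837), (nat_lit 25770221), (nat_lit 19310217), (nat_lit 12946273)] (nat_lit 6655322)) p15_18_2 (nat_lit 4) (nat_lit 77) (nat_lit 78) = true := by decide +kernel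
def p15_18_2_78 : pfC (piC [(nat_lit 40173837), (nat_lit 25770221), (nat_lit 19310217), (nat_lit 12946273)] (nat_lit 6655322)) p15_18_2 (nat_lit 4) (nat_lit 78) (nat_lit 79) = true := by decide +kernel
def p15_18_2_79 : pfC (piC [(nat_lit 40173837), (nat_lit 25770221), (nat_lit 19310217), (nat_lit 12946273)] (nat_lit 6655322)) p15_18_2 (nat_lit 4) (nat_lit 79) (nat_lit 80) = true := by decide +kernel
def p15_18_2_80 : pfC (piC [(nat_lit 40173837), (nat_lit 25770221), (nat_lit 19310217), (nat_lit 12946273)] (nat_lit 6655322)) p15_18_2 (nat_lit 4) (nat_lit 80) (nat_lit 81) = true := by decide +kernel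
def p15_18_2_81 : pfC (piC [(nat_lit 40173837), (nat_lit 25770221), (nat_lit 19310217), (nat_lit 12946273)] (nat_lit 6655322)) p15_18_2 (nat_lit 4) (nat_lit 81) (nat_lit 82) = true := by decide +kernel
def p15_18_2_82 : pfC (piC [(nat_lit 40173837), (nat_lit 25770221), (nat_lit 19310217), (nat_lit 12946273)] (nat_lit 6655322)) p15_18_2 (nat_lit 4) (nat_lit 82) (nat_lit 83) = true := by decide +kernel
def p15_18_2_83 : pfC (piC [(nat_lit 40173837), (nat_lit 25770221), (nat_lit 19310217), (nat_lit 12946273)] (nat_lit 6655322)) p15_18_2 (nat_lit 4) (nat_lit 83) (nat_lit 84) = true := by decide +kernel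
def p15_18_2_84 : pfC (piC [(nat_lit 40173837), (nat_lit 25770221), (nat_lit 19310217), (nat_lit 12946273)] (nat_lit 6655322)) p15_18_2 (nat_lit 4) (nat_lit 84) (nat_lit 85) = true := by decide +kernel
def p15_18_2_85 : pfC (piC [(nat_lit 40173837), (nat_lit 25770221), (nat_lit 19310217), (nat_lit 12946273)] (nat_lit 6655322)) p15_18_2 (nat_lit 4) (nat_lit 85) (nat_lit 86) = true := by decide +kernel
def p15_18_2_86 : pfC (piC [(nat_lit 40173837), (nat_lit 25770221), (nat_lit 19310217), (nat_lit 12946273)] (nat_lit 6655322)) p15_18_2 (nat_lit 4) (nat_lit 86) (nat_lit 87) = true := by decide +kernel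
def p15_18_2_87 : pfC (piC [(nat_lit 40173837), (nat_lit 25770221), (nat_lit 19310217), (nat_lit 12946273)] (nat_lit 6655322)) p15_18_2 (nat_lit 4) (nat_lit 87) (nat_lit 88) = true := by decide +kernel
def p15_18_2_88 : pfC (piC [(nat_lit 40173837), (nat_lit 25770221), (nat_lit 19310217), (nat_lit 12946273)] (nat_lit 6655322)) p15_18_2 (nat_lit 4) (nat_lit 88) (nat_lit 89) = true := by decide +kernel
def p15_18_2_89 : pfC (piC [(nat_lit 40173837), (nat_lit 25770221), (nat_lit 19310217), (nat_lit 12946273)] (nat_lit 6655322)) p15_18_2 (nat_lit 4) (nat_lit 89) (nat_lit 90) = true := by decide +kernel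
def p15_18_2_90 : pfC (piC [(nat_lit 40173837), (nat_lit 25770221), (nat_lit 19310217), (nat_lit 12946273)] (nat_lit 6655322)) p15_18_2 (nat_lit 4) (nat_lit 90) (nat_lit 91) = true := by decide +kernel
def p15_18_2_91 : pfC (piC [(nat_lit 40173837), (nat_lit 25770221), (nat_lit 19310217), (nat_lit 12946273)] (nat_lit 6655322)) p15_18_2 (nat_lit 4) (nat_lit 91) (nat_lit 92) = true := by decide +kernel
def p15_18_2_92 : pfC (piC [(nat_lit 40173837), (nat_lit 25770221), (nat_lit 19310217), (nat_lit 12946273)] (nat_lit 6655322)) p15_18_2 (nat_lit 4) (nat_lit 92) (nat_lit 93) = true := by decide +kernel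
def p15_18_2_93 : pfC (piC [(nat_lit 40173837), (nat_lit 25770221), (nat_lit 19310217), (nat_lit 12946273)] (nat_lit 6655322)) p15_18_2 (nat_lit 4) (nat_lit 93) (nat_lit 94) = true := by decide +kernel
def p15_18_2_94 : pfC (piC [(nat_lit 40173837), (nat_lit 25770221), (nat_lit 19310217), (nat_lit 12946273)] (nat_lit 6655322)) p15_18_2 (nat_lit 4) (nat_lit 94) (nat_lit 95) = true := by decide +kernel
def p15_18_2_95 : pfC (piC [(nat_lit 40173837), (nat_lit 25770221), (nat_lit 19310217), (nat_lit 12946273)] (nat_lit 6655322)) p15_18_2 (nat_lit 4) (nat_lit 95) (nat_lit 96) = true := by decide +kernel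
def p15_18_2_96 : pfC (piC [(nat_lit 40173837), (nat_lit 25770221), (nat_lit 19310217), (nat_lit 12946273)] (nat_lit 6655322)) p15_18_2 (nat_lit 4) (nat_lit 96) (nat_lit 97) = true := by decide +kernel
def p15_18_2_97 : pfC (piC [(nat_lit 40173837), (nat_lit 25770221), (nat_lit 19310217), (nat_lit 12946273)] (nat_lit 6655322)) p15_18_2 (nat_lit 4) (nat_lit 97) (nat_lit 98) = true := by decide +kernel
def p15_18_2_98 : pfC (piC [(nat_lit 40173837), (nat_lit 25770221), (nat_lit 19310217), (nat_lit 12946273)] (nat_lit 6655322)) p15_18_2 (nat_lit 4) (nat_lit 98) (nat_lit 99) = true := by decide +kernel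
def p15_18_2_99 : pfC (piC [(nat_lit 40173837), (nat_lit 25770221), (nat_lit 19310217), (nat_lit 12946273)] (nat_lit 6655322)) p15_18_2 (nat_lit 4) (nat_lit 99) (nat_lit 100) = true := by decide +kernel
def p15_18_2_100 : pfC (piC [(nat_lit 40173837), (nat_lit 25770221), (nat_lit 19310217), (nat_lit 12946273)] (nat_lit 6655322)) p15_18_2 (nat_lit 4) (nat_lit 100) (nat_lit 101) = true := by decide +kernel
def p15_18_2_101 : pfC (piC [(nat_lit 40173837), (nat_lit 25770221), (nat_lit 19310217), (nat_lit 12946273)] (nat_lit 6655322)) p15_18_2 (nat_lit 4) (nat_lit 101) (nat_lit 102) = true := by decide +kernel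
def p15_18_2_102 : pfC (piC [(nat_lit 40173837), (nat_lit 25770221), (nat_lit 19310217), (nat_lit 12946273)] (nat_lit 6655322)) p15_18_2 (nat_lit 4) (nat_lit 102) (nat_lit 103) = true := by decide +kernel
def p15_18_2_103 : pfC (piC [(nat_lit 40173837), (nat_lit 25770221), (nat_lit 19310217), (nat_lit 12946273)] (nat_lit 6655322)) p15_18_2 (nat_lit 4) (nat_lit 103) (nat_lit 104) = true := by decide +kernel
def p15_18_2_104 : pfC (piC [(nat_lit 40173837), (nat_lit 25770221), (nat_lit 19310217), (nat_lit 12946273)] (nat_lit 6655322)) p15_18_2 (nat_lit 4) (nat_lit 104) (nat_lit 105) = true := by decide +kernel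
def p15_18_2_105 : pfC (piC [(nat_lit 40173837), (nat_lit 25770221), (nat_lit 19310217), (nat_lit 12946273)] (nat_lit 6655322)) p15_18_2 (nat_lit 4) (nat_lit 105) (nat_lit 106) = true := by decide +kernel
def p15_18_2_106 : pfC (piC [(nat_lit 40173837), (nat_lit 25770221), (nat_lit 19310217), (nat_lit 12946273)] (nat_lit 6655322)) p15_18_2 (nat_lit 4) (nat_lit 106) (nat_lit 107) = true := by decide +kernel
def p15_18_2_107 : pfC (piC [(nat_lit 40173837), (nat_lit 25770221), (nat_lit 19310217), (nat_lit 12946273)] (nat_lit 6655322)) p15_18_2 (nat_lit 4) (nat_lit 107) (nat_lit 108) = true := by decide +kernel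
def p15_18_2_108 : pfC (piC [(nat_lit 40173837), (nat_lit 25770221), (nat_lit 19310217), (nat_lit 12946273)] (nat_lit 6655322)) p15_18_2 (nat_lit 4) (nat_lit 108) (nat_lit 109) = true := by decide +kernel
def p15_18_2_109 : pfC (piC [(nat_lit 40173837), (nat_lit 25770221), (nat_lit 19310217), (nat_lit 12946273)] (nat_lit 6655322)) p15_18_2 (nat_lit 4) (nat_lit 109) (nat_lit 110) = true := by decide +kernel
def p15_18_2_110 : pfC (piC [(nat_lit 40173837), (nat_lit 25770221), (nat_lit 19310217), (nat_lit 12946273)] (nat_lit 6655322)) p15_18_2 (nat_lit 4) (nat_lit 110) (nat_lit 111) = true := by decide +kernel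
def p15_18_2_111 : pfC (piC [(nat_lit 40173837), (nat_lit 25770221), (nat_lit 19310217), (nat_lit 12946273)] (nat_lit 6655322)) p15_18_2 (nat_lit 4) (nat_lit 111) (nat_lit 112) = true := by decide +kernel
def p15_18_2_112 : pfC (piC [(nat_lit 40173837), (nat_lit 25770221), (nat_lit 19310217), (nat_lit 12946273)] (nat_lit 6655322)) p15_18_2 (nat_lit 4) (nat_lit 112) (nat_lit 113) = true := by decide +kernel
def p15_18_2_113 : pfC (piC [(nat_lit 40173837), (nat_lit 25770221), (nat_lit 19310217), (nat_lit 12946273)] (nat_lit 6655322)) p15_18_2 (nat_lit 4) (nat_lit 113) (nat_lit 114) = true := by decide +kernel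
def p15_18_2_114 : pfC (piC [(nat_lit 40173837), (nat_lit 25770221), (nat_lit 19310217), (nat_lit 12946273)] (nat_lit 6655322)) p15_18_2 (nat_lit 4) (nat_lit 114) (nat_lit 115) = true := by decide +kernel
def p15_18_2_115 : pfC (piC [(nat_lit 40173837), (nat_lit 25770221), (nat_lit 19310217), (nat_lit 12946273)] (nat_lit 6655322)) p15_18_2 (nat_lit 4) (nat_lit 115) (nat_lit 116) = true := by decide +kernel
def p15_18_2_116 : pfC (piC [(nat_lit 40173837), (nat_lit 25770221), (nat_lit 19310217), (nat_lit 12946273)] (nat_lit 6655322)) p15_18_2 (nat_lit 4) (nat_lit 116) (nat_lit 117) = true := by decide +kernel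
def p15_18_2_117 : pfC (piC [(nat_lit 40173837), (nat_lit 25770221), (nat_lit 19310217), (nat_lit 12946273)] (nat_lit 6655322)) p15_18_2 (nat_lit 4) (nat_lit 117) (nat_lit 118) = true := by decide +kernel
def p15_18_2_118 : pfC (piC [(nat_lit 40173837), (nat_lit 25770221), (nat_lit 19310217), (nat_lit 12946273)] (nat_lit 6655322)) p15_18_2 (nat_lit 4) (nat_lit 118) (nat_lit 119) = true := by decide +kernel
def p15_18_2_119 : pfC (piC [(nat_lit 40173837), (nat_lit 25770221), (nat_lit 19310217), (nat_lit 12946273)] (nat_lit 6655322)) p15_18_2 (nat_lit 4) (nat_lit 119) (nat_lit 120) = true := by decide +kernel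
def p15_18_2_120 : pfC (piC [(nat_lit 40173837), (nat_lit 25770221), (nat_lit 19310217), (nat_lit 12946273)] (nat_lit 6655322)) p15_18_2 (nat_lit 4) (nat_lit 120) (nat_lit 121) = true := by decide +kernel
def p15_18_2_121 : pfC (piC [(nat_lit 40173837), (nat_lit 25770221), (nat_lit 19310217), (nat_lit 12946273)] (nat_lit 6655322)) p15_18_2 (nat_lit 4) (nat_lit 121) (nat_lit 122) = true := by decide +kernel
def p15_18_2_122 : pfC (piC [(nat_lit 40173837), (nat_lit 25770221), (nat_lit 19310217), (nat_lit 12946273)] (nat_lit 6655322)) p15_18_2 (nat_lit 4) (nat_lit 122) (nat_lit 123) = true := by decide +kernel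
def p15_18_2_123 : pfC (piC [(nat_lit 40173837), (nat_lit 25770221), (nat_lit 19310217), (nat_lit 12946273)] (nat_lit 6655322)) p15_18_2 (nat_lit 4) (nat_lit 123) (nat_lit 124) = true := by decide +kernel
def p15_18_2_124 : pfC (piC [(nat_lit 40173837), (nat_lit 25770221), (nat_lit 19310217), (nat_lit 12946273)] (nat_lit 6655322)) p15_18_2 (nat_lit 4) (nat_lit 124) (nat_lit 125) = true := by decide +kernel
def p15_18_2_125 : pfC (piC [(nat_lit 40173837), (nat_lit 25770221), (nat_lit 19310217), (nat_lit 12946273)] (nat_lit 6655322)) p15_18_2 (nat_lit 4) (nat_lit 125) (nat_lit 126) = true := by decide +kernel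
def p15_18_2_126 : pfC (piC [(nat_lit 40173837), (nat_lit 25770221), (nat_lit 19310217), (nat_lit 12946273)] (nat_lit 6655322)) p15_18_2 (nat_lit 4) (nat_lit 126) (nat_lit 127) = true := by decide +kernel
theorem p15_18_2_T : PfS (PiF n15_18.reverse (nat_lit 6655322)) p15_18_2 (nat_lit 4) [] 0 :=
  pftab_of (los := [(nat_lit 40173837), (nat_lit 25770221), (nat_lit 19310217), (nat_lit 12946273)]) (by decide +kernel) (hi := (nat_lit 127)) (PfP.trans (PfP.trans (PfP.trans (PfP.trans (PfP.trans (PfP.trans (PfP.trans (PfP.trans (PfP.trans (PfP.trans (PfP.trans (PfP.trans (PfP.trans (PfP.trans (PfP.trans (PfP.trans (PfP.trans (PfP.trans (PfP.trans (PfP.trans (PfP.trans (PfP.trans (PfP.trans (PfP.trans (PfP.trans (PfP.trans (PfP.trans (PfP.trans (PfP.trans (PfP.trans (PfP.trans (PfP.trans (PfP.trans (PfP.trans (PfP.trans (PfP.trans (PfP.trans (PfP.trans (PfP.trans (PfP.trans (PfP.trans (PfP.trans (PfP.trans (PfP.trans (PfP.trans (PfP.trans (PfP.trans (PfP.trans (PfP.trans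 (PfP.trans (PfP.trans (PfP.trans (PfP.trans (PfP.trans (PfP.trans (PfP.trans (PfP.trans (PfP.trans (PfP.trans (PfP.trans (PfP.trans (PfP.trans (PfP.trans (PfP.trans (PfP.trans (PfP.trans (PfP.trans (PfP.trans (PfP.trans (PfP.trans (PfP.trans (PfP.trans (PfP.trans (PfP.trans (PfP.trans (PfP.trans (PfP.trans (PfP.trans (PfP.trans (PfP.trans (PfP.trans (PfP.trans (PfP.trans (PfP.trans (PfP.trans (PfP.trans (PfP.trans (PfP.trans (PfP.trans (PfP.trans (PfP.trans (PfP.trans (PfP.trans (PfP.trans (PfP.trans (PfP.trans (PfP.trans (PfP.trans (PfP.trans (PfP.trans (PfP.trans (PfP.trans (PfP.trans (PfP.trans (PfP.trans (PfP.trans (PfP.trans (PfP.trans (PfP.trans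
 (PfP.trans (PfP.trans (PfP.trans (PfP.trans (PfP.trans (PfP.trans (PfP.trans (PfP.trans (PfP.trans (PfP.trans (PfP.trans (PfP.trans (PfP.trans (PfP.trans (PfP.trans (PfP.trans (PfP.trans (pfC_sound p15_18_2_0) (pfC_sound p15_18_2_1)) (pfC_sound p15_18_2_2)) (pfC_sound p15_18_2_3)) (pfC_sound p15_18_2_4)) (pfC_sound p15_18_2_5)) (pfC_sound p15_18_2_6)) (pfC_sound p15_18_2_7)) (pfC_sound p15_18_2_8)) (pfC_sound p15_18_2_9)) (pfC_sound p15_18_2_10)) (pfC_sound p15_18_2_11)) (pfC_sound p15_18_2_12)) (pfC_sound p15_18_2_13)) (pfC_sound p15_18_2_14)) (pfC_sound p15_18_2_15)) (pfC_sound p15_18_2_16)) (pfC_sound p15_18_2_17)) (pfC_sound p15_18_2_18)) (pfC_sound p15_18_2_19)) (pfC_sound p15_18_2_20)) (pfC_sound p15_18_2_21)) (pfC_sound p15_18_2_22)) (pfC_sound p15_18_2_23)) (pfC_sound p15_18_2_24)) (pfC_sound p15_18_2_25)) (pfC_sound p15_18_2_26)) (pfC_sound p15_18_2_27)) (pfC_sound p15_18_2_28)) (pfC_sound p15_18_2_29)) (pfC_sound p15_18_2_30)) (pfC_sound p15_18_2_31))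 (pfC_sound p15_18_2_32)) (pfC_sound p15_18_2_33)) (pfC_sound p15_18_2_34)) (pfC_sound p15_18_2_35)) (pfC_sound p15_18_2_36)) (pfC_sound p15_18_2_37)) (pfC_sound p15_18_2_38)) (pfC_sound p15_18_2_39)) (pfC_sound
 p15_18_2_40)) (pfC_sound p15_18_2_41)) (pfC_sound p15_18_2_42)) (pfC_sound p15_18_2_43)) (pfC_sound p15_18_2_44)) (pfC_sound p15_18_2_45)) (pfC_sound p15_18_2_46)) (pfC_sound p15_18_2_47)) (pfC_sound p15_18_2_48)) (pfC_sound p15_18_2_49)) (pfC_sound p15_18_2_50)) (pfC_sound p15_18_2_51)) (pfC_sound p15_18_2_52)) (pfC_sound p15_18_2_53)) (pfC_sound p15_18_2_54)) (pfC_sound p15_18_2_55)) (pfC_sound p15_18_2_56)) (pfC_sound p15_18_2_57)) (pfC_sound p15_18_2_58)) (pfC_sound p15_18_2_59)) (pfC_sound p15_18_2_60)) (pfC_sound p15_18_2_61)) (pfC_sound p15_18_2_62)) (pfC_sound p15_18_2_63)) (pfC_sound p15_18_2_64)) (pfC_sound p15_18_2_65)) (pfC_sound p15_18_2_66)) (pfC_sound p15_18_2_67)) (pfC_sound p15_18_2_68)) (pfC_sound p15_18_2_69)) (pfC_sound p15_18_2_70)) (pfC_sound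 p15_18_2_71)) (pfC_sound p15_18_2_72)) (pfC_sound p15_18_2_73)) (pfC_sound p15_18_2_74)) (pfC_sound p15_18_2_75)) (pfC_sound p15_18_2_76)) (pfC_sound p15_18_2_77)) (pfC_sound p15_18_2_78)) (pfC_sound p15_18_2_79)) (pfC_sound p15_18_2_80)) (pfC_sound p15_18_2_81)) (pfC_sound p15_18_2_82)) (pfC_sound p15_18_2_83)) (pfC_sound p15_18_2_84)) (pfC_sound p15_18_2_85)) (pfC_sound p15_18_2_86)) (pfC_sound p15_18_2_87)) (pfC_sound
 p15_18_2_88)) (pfC_sound p15_18_2_89)) (pfC_sound p15_18_2_90)) (pfC_sound p15_18_2_91)) (pfC_sound p15_18_2_92)) (pfC_sound p15_18_2_93)) (pfC_sound p15_18_2_94)) (pfC_sound p15_18_2_95)) (pfC_sound p15_18_2_96)) (pfC_sound p15_18_2_97)) (pfC_sound p15_18_2_98)) (pfC_sound p15_18_2_99)) (pfC_sound p15_18_2_100)) (pfC_sound p15_18_2_101)) (pfC_sound p15_18_2_102)) (pfC_sound p15_18_2_103)) (pfC_sound p15_18_2_104)) (pfC_sound p15_18_2_105)) (pfC_sound p15_18_2_106)) (pfC_sound p15_18_2_107)) (pfC_sound p15_18_2_108)) (pfC_sound p15_18_2_109)) (pfC_sound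 p15_18_2_110)) (pfC_sound p15_18_2_111)) (pfC_sound p15_18_2_112)) (pfC_sound p15_18_2_113)) (pfC_sound p15_18_2_114)) (pfC_sound p15_18_2_115)) (pfC_sound p15_18_2_116)) (pfC_sound p15_18_2_117)) (pfC_sound p15_18_2_118)) (pfC_sound p15_18_2_119)) (pfC_sound p15_18_2_120)) (pfC_sound p15_18_2_121)) (pfC_sound p15_18_2_122)) (pfC_sound p15_18_2_123)) (pfC_sound p15_18_2_124)) (pfC_sound p15_18_2_125)) (pfC_sound p15_18_2_126)) (by decide +kernel)

def z15_18_2 : zOK yB15_18 (nat_lit 2) (nat_lit 600) (nat_lit 750) (nat_lit 6655322) (nat_lit 4828864) = true := by decide +kernel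
def g15_18_2 : gOK yB15_18.x P15_18 (nat_lit 1422) (q15_18 :: r15_18) (nat_lit 2) (nat_lit 600) (nat_lit 3) (nat_lit 750) (nat_lit 12712500) (nat_lit 12712500) (nat_lit 12712500) (nat_lit 12712500) [(nat_lit 800), (nat_lit 1600)] = true := by decide +kernel
def v15_18_2 : ivC P15_18 s15_18 w15_18 n15_18 (nat_lit 4) (nat_lit 4820) (nat_lit 2) (nat_lit 600) f152_1_600 f160_1_600 (nat_lit 3) (nat_lit 750) f152_1_750 f160_1_750 (nat_lit 6655322) (nat_lit 4828864) p15_18_2 = true := by decide +kernel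
def p15_18_3 : PF := (PF.cons (PF.cons (PF.cons (PF.cons (PF.leaf (nat_lit 3057378) (nat_lit 20181181) (nat_lit 46927631) (nat_lit 20181181) [(nat_lit 0), (nat_lit 0), (nat_lit 0), (nat_lit 0)]) (PF.cons (PF.leaf (nat_lit 3199117) (nat_lit 246962) (nat_lit 46722506) (nat_lit 20139343) [(nat_lit 246962), (nat_lit 0), (nat_lit 0), (nat_lit 0)]) (PF.cons (PF.leaf (nat_lit 3367303) (nat_lit 268240) (nat_lit 46482655) (nat_lit 20089676) [(nat_lit 268240), (nat_lit 0), (nat_lit 0), (nat_lit 0)]) (PF.cons (PF.leaf (nat_lit 3555964) (nat_lit 287024) (nat_lit 46214517) (nat_lit 20033220) [(nat_lit 287024), (nat_lit 0), (nat_lit 0), (nat_lit 0)]) (PF.cons (PF.leaf (nat_lit 3761967) (nat_lit 303873) (nat_lit 45922650) (nat_lit 19970670) [(nat_lit 303873), (nat_lit 0), (nat_lit 0), (nat_lit 0)]) (PF.cons (PF.leaf (nat_lit 3983036) (nat_lit 319143) (nat_lit 45610555) (nat_lit 19902541) [(nat_lit 319143), (nat_lit 0), (nat_lit 0), (nat_lit 0)]) (PF.cons (PF.leaf (nat_lit 4217446)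 (nat_lit 333083) (nat_lit 45281071) (nat_lit 19829242) [(nat_lit 333083), (nat_lit 0), (nat_lit 0), (nat_lit 0)]) (PF.cons (PF.leaf (nat_lit 4463560) (nat_lit 345873) (nat_lit 44936581) (nat_lit 19751117) [(nat_lit 345873), (nat_lit 0),
 (nat_lit 0), (nat_lit 0)]) (PF.cons (PF.leaf (nat_lit 4720038) (nat_lit 357650) (nat_lit 44579133) (nat_lit 19668472) [(nat_lit 357650), (nat_lit 0), (nat_lit 0), (nat_lit 0)]) (PF.cons PF.nil (PF.cons PF.nil (PF.cons PF.nil PF.nil)))))))))))) (PF.cons (PF.cons (PF.leaf (nat_lit 3556638) (nat_lit 1176387) (nat_lit 45957049) (nat_lit 19975376) [(nat_lit 0), (nat_lit 1176387), (nat_lit 0), (nat_lit 0)]) (PF.cons (PF.leaf (nat_lit 3739903) (nat_lit 296998) (nat_lit 45690685) (nat_lit 19917379) [(nat_lit 296998), (nat_lit 1203750), (nat_lit 0), (nat_lit 0)]) (PF.cons (PF.leaf (nat_lit 3942861) (nat_lit 313138) (nat_lit 45399242) (nat_lit 19852867) [(nat_lit 313138), (nat_lit 1230424), (nat_lit 0), (nat_lit 0)]) (PF.cons (PF.leaf (nat_lit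 4161517) (nat_lit 327706) (nat_lit 45087118) (nat_lit 19782574) [(nat_lit 327706), (nat_lit 1256000), (nat_lit 0), (nat_lit 0)]) (PF.cons (PF.leaf (nat_lit 4393700) (nat_lit 340973) (nat_lit 44757604) (nat_lit 19707031) [(nat_lit 340973), (nat_lit 1280281), (nat_lit 0), (nat_lit 0)]) (PF.cons (PF.leaf (nat_lit 4637741) (nat_lit 353129) (nat_lit 44413324) (nat_lit 19626659) [(nat_lit 353129), (nat_lit 1303183), (nat_lit 0), (nat_lit 0)]) (PF.cons
 (PF.leaf (nat_lit 4892167) (nat_lit 364311) (nat_lit 44056451) (nat_lit 19541811) [(nat_lit 364311), (nat_lit 1324683), (nat_lit 0), (nat_lit 0)]) (PF.cons (PF.leaf (nat_lit 5155755) (nat_lit 374626) (nat_lit 43688843) (nat_lit 19452796) [(nat_lit 374626), (nat_lit 1344789), (nat_lit 0), (nat_lit 0)]) (PF.cons PF.nil (PF.cons PF.nil PF.nil)))))))))) (PF.cons (PF.cons (PF.leaf (nat_lit 4127049) (nat_lit 1258098) (nat_lit 44863883) (nat_lit 19728731) [(nat_lit 0), (nat_lit 1258098), (nat_lit 0), (nat_lit 0)]) (PF.cons (PF.leaf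 (nat_lit 4340871) (nat_lit 335002) (nat_lit 44555072) (nat_lit 19657079) [(nat_lit 335002), (nat_lit 1280828), (nat_lit 0), (nat_lit 0)]) (PF.cons (PF.leaf (nat_lit 4569865) (nat_lit 347789) (nat_lit 44228071) (nat_lit 19579931) [(nat_lit 347789), (nat_lit 1302615), (nat_lit 0), (nat_lit 0)]) (PF.cons (PF.leaf (nat_lit 4811042) (nat_lit 359453) (nat_lit 43886017) (nat_lit 19497842) [(nat_lit 359453), (nat_lit 1323295), (nat_lit 0), (nat_lit 0)]) (PF.cons (PF.leaf (nat_lit 5062854) (nat_lit 370152) (nat_lit 43531367) (nat_lit 19411250) [(nat_lit 370152), (nat_lit 1342791), (nat_lit 0), (nat_lit 0)]) (PF.cons (PF.leaf (nat_lit 5323896) (nat_lit 380000) (nat_lit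
 43166137) (nat_lit 19320518) [(nat_lit 380000), (nat_lit 1361077), (nat_lit 0), (nat_lit 0)]) (PF.cons PF.nil (PF.cons PF.nil (PF.cons PF.nil PF.nil))))))))) (PF.cons (PF.cons (PF.leaf (nat_lit 4747605) (nat_lit 1322726) (nat_lit 43692661) (nat_lit 19447971) [(nat_lit 0), (nat_lit 1322726), (nat_lit 0), (nat_lit 0)]) (PF.cons (PF.leaf (nat_lit 4984259) (nat_lit 364897) (nat_lit 43355021) (nat_lit 19364773) [(nat_lit 364897), (nat_lit 1341373), (nat_lit 0), (nat_lit 0)]) (PF.cons (PF.leaf (nat_lit 5232671) (nat_lit 375223) (nat_lit 43004312) (nat_lit 19276941) [(nat_lit 375223), (nat_lit 1359037), (nat_lit 0), (nat_lit 0)]) (PF.cons (PF.leaf (nat_lit 5490600) (nat_lit 384689) (nat_lit 42642850) (nat_lit 19184924) [(nat_lit 384689), (nat_lit 1375656), (nat_lit 0), (nat_lit 0)]) (PF.cons (PF.leaf (nat_lit 5756809) (nat_lit 393397) (nat_lit 42272513) (nat_lit 19089096) [(nat_lit 393397), (nat_lit 1391204), (nat_lit 0), (nat_lit 0)]) (PF.cons PF.nil (PF.cons PF.nil PF.nil)))))))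 (PF.cons (PF.cons (PF.leaf (nat_lit 5402951) (nat_lit 1373611) (nat_lit 42475409) (nat_lit 19138958) [(nat_lit 0), (nat_lit 1373611), (nat_lit 0), (nat_lit 0)]) (PF.cons (PF.leaf (nat_lit 5656488) (nat_lit
 388722) (nat_lit 42119206) (nat_lit 19046136) [(nat_lit 388722), (nat_lit 1388686), (nat_lit 0), (nat_lit 0)]) (PF.cons (PF.leaf (nat_lit 5919189) (nat_lit 397123) (nat_lit 41753835) (nat_lit 18949443) [(nat_lit 397123), (nat_lit 1402821), (nat_lit 0), (nat_lit 0)]) (PF.cons (PF.leaf (nat_lit 6189248) (nat_lit 404837) (nat_lit 41381051) (nat_lit 18849259) [(nat_lit 404837), (nat_lit 1415996), (nat_lit 0), (nat_lit 0)]) (PF.cons PF.nil PF.nil))))) (PF.cons (PF.cons (PF.leaf (nat_lit 6081246) (nat_lit 1413128) (nat_lit 41236066) (nat_lit 18807102) [(nat_lit 0), (nat_lit 1413128), (nat_lit 0), (nat_lit 0)]) (PF.cons (PF.leaf (nat_lit 6346966) (nat_lit 407744) (nat_lit 40869174) (nat_lit 18706439) [(nat_lit 407744), (nat_lit 1425090), (nat_lit 0), (nat_lit 0)]) (PF.cons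 PF.nil (PF.cons PF.nil PF.nil)))) (PF.cons (PF.cons (PF.leaf (nat_lit 6773149) (nat_lit 1443106) (nat_lit 39992753) (nat_lit 18457418) [(nat_lit 0), (nat_lit 1443106), (nat_lit 0), (nat_lit 0)]) (PF.cons PF.nil PF.nil)) (PF.cons PF.nil PF.nil)))))))) (PF.cons (PF.cons (PF.cons (PF.leaf (nat_lit 4060158) (nat_lit 3050251) (nat_lit 44441956) (nat_lit 19616605) [(nat_lit 0), (nat_lit 0), (nat_lit 3050251), (nat_lit 0)])
 (PF.cons (PF.leaf (nat_lit 4251346) (nat_lit 316878) (nat_lit 44167942) (nat_lit 19551812) [(nat_lit 316878), (nat_lit 0), (nat_lit 3072179), (nat_lit 0)]) (PF.cons (PF.leaf (nat_lit 4461310) (nat_lit 331952) (nat_lit 43870401) (nat_lit 19480425) [(nat_lit 331952), (nat_lit 0), (nat_lit 3094079), (nat_lit 0)]) (PF.cons (PF.leaf (nat_lit 4685976) (nat_lit 345373) (nat_lit 43553937) (nat_lit 19403335) [(nat_lit 345373), (nat_lit 0), (nat_lit 3115417), (nat_lit 0)]) (PF.cons (PF.leaf (nat_lit 4923113) (nat_lit 357465) (nat_lit 43221918) (nat_lit 19321184)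 [(nat_lit 357465), (nat_lit 0), (nat_lit 3135849), (nat_lit 0)]) (PF.cons (PF.leaf (nat_lit 5171005) (nat_lit 368444) (nat_lit 42876967) (nat_lit 19234468) [(nat_lit 368444), (nat_lit 0), (nat_lit 3155152), (nat_lit 0)]) (PF.cons (PF.leaf (nat_lit 5428312) (nat_lit 378470) (nat_lit 42521213) (nat_lit 19143596) [(nat_lit 378470), (nat_lit 0), (nat_lit 3173181), (nat_lit 0)]) (PF.cons (PF.leaf (nat_lit 5693754) (nat_lit 387657) (nat_lit 42156439) (nat_lit 19048920) [(nat_lit 387657), (nat_lit 0), (nat_lit 3189848), (nat_lit 0)]) (PF.cons PF.nil PF.nil))))))))) (PF.cons (PF.cons (PF.leaf (nat_lit 4641530) (nat_lit 1304580) (nat_lit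
 43337465) (nat_lit 19347159) [(nat_lit 0), (nat_lit 1304580), (nat_lit 3119607), (nat_lit 0)]) (PF.cons (PF.leaf (nat_lit 4860488) (nat_lit 350812) (nat_lit 43026694) (nat_lit 19269500) [(nat_lit 350812), (nat_lit 1323689), (nat_lit 3138115), (nat_lit 0)]) (PF.cons (PF.leaf (nat_lit 5093627) (nat_lit 362575) (nat_lit 42699343) (nat_lit 19186488) [(nat_lit 362575), (nat_lit 1341901), (nat_lit 3155927), (nat_lit 0)]) (PF.cons (PF.leaf (nat_lit 5338018) (nat_lit 373198) (nat_lit 42358568) (nat_lit 19098770) [(nat_lit 373198), (nat_lit 1359094), (nat_lit 3172784), (nat_lit 0)]) (PF.cons (PF.leaf (nat_lit 5592065) (nat_lit 382858) (nat_lit 42006796) (nat_lit 19006842) [(nat_lit 382858), (nat_lit 1375219), (nat_lit 3188520), (nat_lit 0)]) (PF.cons (PF.leaf (nat_lit 5854452) (nat_lit 391684) (nat_lit 41645985) (nat_lit 18911110) [(nat_lit 391684), (nat_lit 1390261), (nat_lit 3203034), (nat_lit 0)]) (PF.cons PF.nil PF.nil))))))) (PF.cons (PF.cons (PF.leaf (nat_lit 5265677)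 (nat_lit 1357207) (nat_lit 42173347) (nat_lit 19047789) [(nat_lit 0), (nat_lit 1357207), (nat_lit 3173260), (nat_lit 0)]) (PF.cons (PF.leaf (nat_lit 5504965) (nat_lit 377207) (nat_lit 41838633) (nat_lit 18959650)
 [(nat_lit 377207), (nat_lit 1372741), (nat_lit 3187839), (nat_lit 0)]) (PF.cons (PF.leaf (nat_lit 5755107) (nat_lit 386597) (nat_lit 41492294) (nat_lit 18867139) [(nat_lit 386597), (nat_lit 1387367), (nat_lit 3201449), (nat_lit 0)]) (PF.cons (PF.leaf (nat_lit 6013930) (nat_lit 395135) (nat_lit 41136597) (nat_lit 18770754) [(nat_lit 395135), (nat_lit 1401043), (nat_lit 3213968), (nat_lit 0)]) (PF.cons (PF.leaf (nat_lit 6280191) (nat_lit 402930) (nat_lit 40773353) (nat_lit 18670902) [(nat_lit 402930), (nat_lit 1413756), (nat_lit 3225322), (nat_lit 0)]) PF.nil))))) (PF.cons (PF.cons (PF.leaf (nat_lit 5918614) (nat_lit 1398174) (nat_lit 40977615) (nat_lit 18724521) [(nat_lit 0), (nat_lit 1398174), (nat_lit 3212152), (nat_lit 0)]) (PF.cons (PF.leaf (nat_lit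 6172644) (nat_lit 398025) (nat_lit 40628307) (nat_lit 18627932) [(nat_lit 398025), (nat_lit 1410576), (nat_lit 3222817), (nat_lit 0)]) (PF.cons (PF.leaf (nat_lit 6435068) (nat_lit 405590) (nat_lit 40271043) (nat_lit 18527791) [(nat_lit 405590), (nat_lit 1422121), (nat_lit 3232432), (nat_lit 0)]) (PF.cons PF.nil PF.nil)))) (PF.cons (PF.cons (PF.leaf (nat_lit 6589734) (nat_lit 1429419) (nat_lit 39770755) (nat_lit 18382649) [(nat_lit
 0), (nat_lit 1429419), (nat_lit 3237731), (nat_lit 0)]) (PF.cons (PF.leaf (nat_lit 6854209) (nat_lit 414466) (nat_lit 39413856) (nat_lit 18279398) [(nat_lit 414466), (nat_lit 1439090), (nat_lit 3244728), (nat_lit 0)]) PF.nil)) (PF.cons PF.nil PF.nil)))))) (PF.cons (PF.cons (PF.cons (PF.leaf (nat_lit 5146380) (nat_lit 3157372) (nat_lit 41845043) (nat_lit 18949024) [(nat_lit 0), (nat_lit 0), (nat_lit 3157372), (nat_lit 0)]) (PF.cons (PF.leaf (nat_lit 5368721) (nat_lit 363326) (nat_lit 41536120) (nat_lit 18866764) [(nat_lit 363326), (nat_lit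 0), (nat_lit 3171300), (nat_lit 0)]) (PF.cons (PF.leaf (nat_lit 5604364) (nat_lit 374188) (nat_lit 41212054) (nat_lit 18779343) [(nat_lit 374188), (nat_lit 0), (nat_lit 3184519), (nat_lit 0)]) (PF.cons (PF.leaf (nat_lit 5850455) (nat_lit 383901) (nat_lit 40875972) (nat_lit 18687469) [(nat_lit 383901), (nat_lit 0), (nat_lit 3196833), (nat_lit 0)]) (PF.cons (PF.leaf (nat_lit 6105383) (nat_lit 392659) (nat_lit 40530244) (nat_lit 18591686) [(nat_lit 392659), (nat_lit 0), (nat_lit 3208121), (nat_lit 0)]) (PF.cons (PF.leaf (nat_lit 6367861) (nat_lit 400602) (nat_lit 40176754) (nat_lit 18492429) [(nat_lit 400602), (nat_lit 0), (nat_lit 3218309),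
 (nat_lit 0)]) (PF.cons PF.nil PF.nil))))))) (PF.cons (PF.cons (PF.leaf (nat_lit 5770401) (nat_lit 1382064) (nat_lit 40699662) (nat_lit 18636144) [(nat_lit 0), (nat_lit 1382064), (nat_lit 3195470), (nat_lit 0)]) (PF.cons (PF.leaf (nat_lit 6010944) (nat_lit 386738) (nat_lit 40370773) (nat_lit 18544439) [(nat_lit 386738), (nat_lit 1395004), (nat_lit 3205928), (nat_lit 0)]) (PF.cons (PF.leaf (nat_lit 6261566) (nat_lit 395310) (nat_lit 40031500) (nat_lit 18448633) [(nat_lit 395310), (nat_lit 1407097), (nat_lit 3215480), (nat_lit 0)]) (PF.cons (PF.leaf (nat_lit 6520134) (nat_lit 403038) (nat_lit 39684043) (nat_lit 18349259) [(nat_lit 403038), (nat_lit 1418316), (nat_lit 3224038), (nat_lit 0)]) (PF.cons PF.nil PF.nil))))) (PF.cons (PF.cons (PF.leaf (nat_lit 6418272) (nat_lit 1414852) (nat_lit 39533752) (nat_lit 18303309) [(nat_lit 0), (nat_lit 1414852), (nat_lit 3221022), (nat_lit 0)]) (PF.cons (PF.leaf (nat_lit 6671763) (nat_lit 404987) (nat_lit 39193429) (nat_lit 18204235)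 [(nat_lit 404987), (nat_lit 1425013), (nat_lit 3228066), (nat_lit 0)]) (PF.cons (PF.leaf (nat_lit 6932968) (nat_lit 411822) (nat_lit 38846167) (nat_lit 18101911) [(nat_lit 411822), (nat_lit 1434385), (nat_lit
 3234158), (nat_lit 0)]) (PF.cons PF.nil PF.nil)))) (PF.cons (PF.cons (PF.leaf (nat_lit 7080405) (nat_lit 1439228) (nat_lit 38364969) (nat_lit 17955597) [(nat_lit 0), (nat_lit 1439228), (nat_lit 3235280), (nat_lit 0)]) (PF.cons PF.nil PF.nil)) (PF.cons PF.nil PF.nil))))) (PF.cons (PF.cons (PF.cons (PF.leaf (nat_lit 6260881) (nat_lit 3204050) (nat_lit 39278352) (nat_lit 18218310) [(nat_lit 0), (nat_lit 0), (nat_lit 3204050), (nat_lit 0)]) (PF.cons (PF.leaf (nat_lit 6501567) (nat_lit 393979) (nat_lit 38957322) (nat_lit 18124219) [(nat_lit 393979), (nat_lit 0), (nat_lit 3211096), (nat_lit 0)]) (PF.cons (PF.leaf (nat_lit 6751677) (nat_lit 401826) (nat_lit 38626982) (nat_lit 18026297) [(nat_lit 401826), (nat_lit 0), (nat_lit 3217293), (nat_lit 0)]) (PF.cons (PF.leaf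 (nat_lit 7009073) (nat_lit 408844) (nat_lit 38289446) (nat_lit 17925096) [(nat_lit 408844), (nat_lit 0), (nat_lit 3222579), (nat_lit 0)]) (PF.cons PF.nil PF.nil))))) (PF.cons (PF.cons (PF.leaf (nat_lit 6901631) (nat_lit 1425129) (nat_lit 38147814) (nat_lit 17879850) [(nat_lit 0), (nat_lit 1425129), (nat_lit 3218672), (nat_lit 0)]) (PF.cons (PF.leaf (nat_lit 7153776) (nat_lit 410011) (nat_lit 37817875) (nat_lit 17779366)
 [(nat_lit 410011), (nat_lit 1433394), (nat_lit 3222721), (nat_lit 0)]) (PF.cons PF.nil (PF.cons PF.nil PF.nil)))) (PF.cons (PF.cons (PF.leaf (nat_lit 7553462) (nat_lit 1443759) (nat_lit 37020582) (nat_lit 17529737) [(nat_lit 0), (nat_lit 1443759), (nat_lit 3223657), (nat_lit 0)]) (PF.cons PF.nil PF.nil)) PF.nil))) (PF.cons (PF.cons (PF.cons (PF.leaf (nat_lit 7368721) (nat_lit 3207339) (nat_lit 36821680) (nat_lit 17457773) [(nat_lit 0), (nat_lit 0), (nat_lit 3207339), (nat_lit 0)]) (PF.cons (PF.leaf (nat_lit 7618835) (nat_lit 413422) (nat_lit 36503005)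 (nat_lit 17356768) [(nat_lit 413422), (nat_lit 0), (nat_lit 3208904), (nat_lit 0)]) (PF.cons PF.nil PF.nil))) (PF.cons (PF.cons (PF.leaf (nat_lit 8009288) (nat_lit 1443983) (nat_lit 35737907) (nat_lit 17108056) [(nat_lit 0), (nat_lit 1443983), (nat_lit 3204716), (nat_lit 0)]) PF.nil) PF.nil)) (PF.cons PF.nil PF.nil)))))) (PF.cons (PF.cons (PF.cons (PF.cons (PF.leaf (nat_lit 4962188) (nat_lit 8511049) (nat_lit 40194093) (nat_lit 18403670) [(nat_lit 0), (nat_lit 0), (nat_lit 0), (nat_lit 8511049)]) (PF.cons (PF.leaf (nat_lit 5151638) (nat_lit 324841) (nat_lit 39946670) (nat_lit 18335269) [(nat_lit 324841), (nat_lit 0), (nat_lit 0),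
 (nat_lit 8502031)]) (PF.cons (PF.leaf (nat_lit 5358626) (nat_lit 338974) (nat_lit 39679034) (nat_lit 18260512) [(nat_lit 338974), (nat_lit 0), (nat_lit 0), (nat_lit 8491316)]) (PF.cons (PF.leaf (nat_lit 5579027) (nat_lit 351341) (nat_lit 39395440) (nat_lit 18180438) [(nat_lit 351341), (nat_lit 0), (nat_lit 0), (nat_lit 8478910)]) (PF.cons (PF.leaf (nat_lit 5810693) (nat_lit 362305) (nat_lit 39098973) (nat_lit 18095795) [(nat_lit 362305), (nat_lit 0), (nat_lit 0), (nat_lit 8464820)]) (PF.cons (PF.leaf (nat_lit 6051840) (nat_lit 372117) (nat_lit 38792008) (nat_lit 18007157) [(nat_lit 372117), (nat_lit 0), (nat_lit 0), (nat_lit 8449057)]) (PF.cons (PF.leaf (nat_lit 6301121) (nat_lit 380955) (nat_lit 38476444) (nat_lit 17914988) [(nat_lit 380955), (nat_lit 0), (nat_lit 0), (nat_lit 8431643)]) (PF.cons (PF.leaf (nat_lit 6557401) (nat_lit 388954) (nat_lit 38153850) (nat_lit 17819676) [(nat_lit 388954), (nat_lit 0), (nat_lit 0), (nat_lit 8412607)]) (PF.cons PF.nil PF.nil)))))))))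 (PF.cons (PF.cons (PF.leaf (nat_lit 5525440) (nat_lit 1312528) (nat_lit 39206506) (nat_lit 18124179) [(nat_lit 0), (nat_lit 1312528), (nat_lit 0), (nat_lit 8465598)]) (PF.cons (PF.leaf (nat_lit 5739488) (nat_lit
 355029) (nat_lit 38929410) (nat_lit 18044529) [(nat_lit 355029), (nat_lit 1327985), (nat_lit 0), (nat_lit 8451857)]) (PF.cons (PF.leaf (nat_lit 5966452) (nat_lit 365742) (nat_lit 38638433) (nat_lit 17960006) [(nat_lit 365742), (nat_lit 1342490), (nat_lit 0), (nat_lit 8436397)]) (PF.cons (PF.leaf (nat_lit 6203521) (nat_lit 375273) (nat_lit 38336418) (nat_lit 17871328) [(nat_lit 375273), (nat_lit 1355980), (nat_lit 0), (nat_lit 8419263)]) (PF.cons (PF.leaf (nat_lit 6449107) (nat_lit 383823) (nat_lit 38025531) (nat_lit 17779044) [(nat_lit 383823), (nat_lit 1368445), (nat_lit 0), (nat_lit 8400498)]) (PF.cons (PF.leaf (nat_lit 6701941) (nat_lit 391535) (nat_lit 37707492) (nat_lit 17683594) [(nat_lit 391535), (nat_lit 1379903), (nat_lit 0), (nat_lit 8380144)])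 (PF.cons PF.nil PF.nil))))))) (PF.cons (PF.cons (PF.leaf (nat_lit 6123706) (nat_lit 1352592) (nat_lit 38176477) (nat_lit 17821594) [(nat_lit 0), (nat_lit 1352592), (nat_lit 0), (nat_lit 8405554)]) (PF.cons (PF.leaf (nat_lit 6355236) (nat_lit 377796) (nat_lit 37880899) (nat_lit 17733390) [(nat_lit 377796), (nat_lit 1364735), (nat_lit 0), (nat_lit 8387255)]) (PF.cons (PF.leaf (nat_lit 6596536) (nat_lit 386148) (nat_lit 37575802)
 (nat_lit 17641396) [(nat_lit 386148), (nat_lit 1375998), (nat_lit 0), (nat_lit 8367318)]) (PF.cons (PF.leaf (nat_lit 6845490) (nat_lit 393645) (nat_lit 37263182) (nat_lit 17546141) [(nat_lit 393645), (nat_lit 1386371), (nat_lit 0), (nat_lit 8345809)]) (PF.cons (PF.leaf (nat_lit 7100888) (nat_lit 400407) (nat_lit 36944614) (nat_lit 17448047) [(nat_lit 400407), (nat_lit 1395866), (nat_lit 0), (nat_lit 8322789)]) PF.nil))))) (PF.cons (PF.cons (PF.leaf (nat_lit 6744560) (nat_lit 1382535) (nat_lit 37127016) (nat_lit 17502019) [(nat_lit 0), (nat_lit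 1382535), (nat_lit 0), (nat_lit 8332171)]) (PF.cons (PF.leaf (nat_lit 6988493) (nat_lit 395289) (nat_lit 36820795) (nat_lit 17407335) [(nat_lit 395289), (nat_lit 1391903), (nat_lit 0), (nat_lit 8309682)]) (PF.cons (PF.leaf (nat_lit 7239893) (nat_lit 401887) (nat_lit 36508189) (nat_lit 17309702) [(nat_lit 401887), (nat_lit 1400484), (nat_lit 0), (nat_lit 8285693)]) (PF.cons PF.nil PF.nil)))) (PF.cons (PF.cons (PF.leaf (nat_lit 7378933) (nat_lit 1404306) (nat_lit 36074249) (nat_lit 17170309) [(nat_lit 0), (nat_lit 1404306), (nat_lit 0), (nat_lit 8247027)]) (PF.cons (PF.leaf (nat_lit 7631443) (nat_lit 408780) (nat_lit 35763062) (nat_lit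
 17070822) [(nat_lit 408780), (nat_lit 1411332), (nat_lit 0), (nat_lit 8220818)]) PF.nil)) (PF.cons PF.nil PF.nil)))))) (PF.cons (PF.cons (PF.cons (PF.leaf (nat_lit 5992516) (nat_lit 3106107) (nat_lit 37901872) (nat_lit 17729438) [(nat_lit 0), (nat_lit 0), (nat_lit 3106107), (nat_lit 8371395)]) (PF.cons (PF.leaf (nat_lit 6208317) (nat_lit 363863) (nat_lit 37628904) (nat_lit 17647400) [(nat_lit 363863), (nat_lit 0), (nat_lit 3114491), (nat_lit 8354152)]) (PF.cons (PF.leaf (nat_lit 6436330) (nat_lit 373765) (nat_lit 37343224) (nat_lit 17560717) [(nat_lit 373765), (nat_lit 0), (nat_lit 3122153), (nat_lit 8335185)]) (PF.cons (PF.leaf (nat_lit 6673749) (nat_lit 382499) (nat_lit 37047611) (nat_lit 17470139) [(nat_lit 382499), (nat_lit 0), (nat_lit 3128974), (nat_lit 8314590)]) (PF.cons (PF.leaf (nat_lit 6919012) (nat_lit 390273) (nat_lit 36744150) (nat_lit 17376231) [(nat_lit 390273), (nat_lit 0), (nat_lit 3134889), (nat_lit 8292446)]) (PF.cons (PF.leaf (nat_lit 7170881)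 (nat_lit 397239) (nat_lit 36434483) (nat_lit 17279444) [(nat_lit 397239), (nat_lit 0), (nat_lit 3139863), (nat_lit 8268824)]) (PF.cons PF.nil PF.nil))))))) (PF.cons (PF.cons (PF.leaf (nat_lit 6587765) (nat_lit 1366273)
 (nat_lit 36896158) (nat_lit 17421114) [(nat_lit 0), (nat_lit 1366273), (nat_lit 3125507), (nat_lit 8299758)]) (PF.cons (PF.leaf (nat_lit 6819356) (nat_lit 384118) (nat_lit 36607614) (nat_lit 17331415) [(nat_lit 384118), (nat_lit 1376365), (nat_lit 3130979), (nat_lit 8278319)]) (PF.cons (PF.leaf (nat_lit 7060102) (nat_lit 391768) (nat_lit 36310505) (nat_lit 17238177) [(nat_lit 391768), (nat_lit 1385646), (nat_lit 3135636), (nat_lit 8255310)]) (PF.cons (PF.leaf (nat_lit 7307907) (nat_lit 398581) (nat_lit 36006747) (nat_lit 17141942) [(nat_lit 398581), (nat_lit 1394113), (nat_lit 3139436), (nat_lit 8230828)]) (PF.cons PF.nil PF.nil))))) (PF.cons (PF.cons (PF.leaf (nat_lit 7201944) (nat_lit 1389957) (nat_lit 35878448) (nat_lit 17098819) [(nat_lit 0),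 (nat_lit 1389957), (nat_lit 3135083), (nat_lit 8216545)]) (PF.cons (PF.leaf (nat_lit 7444555) (nat_lit 399516) (nat_lit 35581461) (nat_lit 17003484) [(nat_lit 399516), (nat_lit 1397591), (nat_lit 3137802), (nat_lit 8191365)]) (PF.cons (PF.leaf (nat_lit 7694111) (nat_lit 405507) (nat_lit 35278836) (nat_lit 16905449) [(nat_lit 405507), (nat_lit 1404504), (nat_lit 3139713), (nat_lit 8164790)]) (PF.cons PF.nil PF.nil)))) (PF.cons (PF.cons
 (PF.leaf (nat_lit 7826802) (nat_lit 1406564) (nat_lit 34862684) (nat_lit 16767061) [(nat_lit 0), (nat_lit 1406564), (nat_lit 3136020), (nat_lit 8123352)]) (PF.cons PF.nil PF.nil)) (PF.cons PF.nil PF.nil))))) (PF.cons (PF.cons (PF.cons (PF.leaf (nat_lit 7038431) (nat_lit 3117859) (nat_lit 35666542) (nat_lit 17021983) [(nat_lit 0), (nat_lit 0), (nat_lit 3117859), (nat_lit 8184567)]) (PF.cons (PF.leaf (nat_lit 7269345) (nat_lit 388736) (nat_lit 35386144) (nat_lit 16931571) [(nat_lit 388736), (nat_lit 0), (nat_lit 3120877), (nat_lit 8160605)])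 (PF.cons (PF.leaf (nat_lit 7508870) (nat_lit 395765) (nat_lit 35098005) (nat_lit 16837860) [(nat_lit 395765), (nat_lit 0), (nat_lit 3123134), (nat_lit 8135148)]) (PF.cons (PF.leaf (nat_lit 7754923) (nat_lit 401977) (nat_lit 34803959) (nat_lit 16741394) [(nat_lit 401977), (nat_lit 0), (nat_lit 3124605), (nat_lit 8108313)]) (PF.cons PF.nil PF.nil))))) (PF.cons (PF.cons (PF.leaf (nat_lit 7644660) (nat_lit 1392880) (nat_lit 34683273) (nat_lit 16699476) [(nat_lit 0), (nat_lit 1392880), (nat_lit 3119763), (nat_lit 8093653)]) (PF.cons (PF.leaf (nat_lit 7885438) (nat_lit 402323) (nat_lit 34396194) (nat_lit 16604173) [(nat_lit 402323), (nat_lit 1399044),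
 (nat_lit 3120357), (nat_lit 8066360)]) (PF.cons PF.nil (PF.cons PF.nil PF.nil)))) (PF.cons (PF.cons (PF.leaf (nat_lit 8259254) (nat_lit 1405158) (nat_lit 33705856) (nat_lit 16369771) [(nat_lit 0), (nat_lit 1405158), (nat_lit 3114275), (nat_lit 7994316)]) (PF.cons PF.nil PF.nil)) PF.nil))) (PF.cons (PF.cons (PF.cons (PF.leaf (nat_lit 8072968) (nat_lit 3098598) (nat_lit 33541392) (nat_lit 16306038) [(nat_lit 0), (nat_lit 0), (nat_lit 3098598), (nat_lit 7965585)]) (PF.cons (PF.leaf (nat_lit 8311440) (nat_lit 403948) (nat_lit 33264590) (nat_lit 16211319) [(nat_lit 403948), (nat_lit 0), (nat_lit 3097429), (nat_lit 7936667)]) PF.nil)) (PF.cons PF.nil PF.nil)) (PF.cons PF.nil PF.nil))))) (PF.cons (PF.cons (PF.cons (PF.cons (PF.leaf (nat_lit 6747668) (nat_lit 7993649) (nat_lit 34531906) (nat_lit 16589606) [(nat_lit 0), (nat_lit 0), (nat_lit 0), (nat_lit 7993649)]) (PF.cons (PF.leaf (nat_lit 6956172) (nat_lit 360062) (nat_lit 34291746) (nat_lit 16510892) [(nat_lit 360062),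 (nat_lit 0), (nat_lit 0), (nat_lit 7973055)]) (PF.cons (PF.leaf (nat_lit 7176064) (nat_lit 369161) (nat_lit 34040787) (nat_lit 16428021) [(nat_lit 369161), (nat_lit 0), (nat_lit 0), (nat_lit 7950840)]) (PF.cons (PF.leaf
 (nat_lit 7404493) (nat_lit 377098) (nat_lit 33781473) (nat_lit 16341732) [(nat_lit 377098), (nat_lit 0), (nat_lit 0), (nat_lit 7927156)]) (PF.cons (PF.leaf (nat_lit 7639965) (nat_lit 384089) (nat_lit 33515630) (nat_lit 16252580) [(nat_lit 384089), (nat_lit 0), (nat_lit 0), (nat_lit 7902121)]) (PF.cons PF.nil (PF.cons PF.nil PF.nil))))))) (PF.cons (PF.cons (PF.leaf (nat_lit 7314985) (nat_lit 1337949) (nat_lit 33651407) (nat_lit 16296235) [(nat_lit 0), (nat_lit 1337949), (nat_lit 0), (nat_lit 7911610)]) (PF.cons (PF.leaf (nat_lit 7537530) (nat_lit 377877) (nat_lit 33398667) (nat_lit 16211186) [(nat_lit 377877), (nat_lit 1345997), (nat_lit 0), (nat_lit 7887542)]) (PF.cons (PF.leaf (nat_lit 7768442) (nat_lit 384792) (nat_lit 33138720) (nat_lit 16123059)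 [(nat_lit 384792), (nat_lit 1353277), (nat_lit 0), (nat_lit 7862084)]) (PF.cons (PF.leaf (nat_lit 8005761) (nat_lit 390890) (nat_lit 32873236) (nat_lit 16032376) [(nat_lit 390890), (nat_lit 1359803), (nat_lit 0), (nat_lit 7835362)]) (PF.cons PF.nil PF.nil))))) (PF.cons (PF.cons (PF.leaf (nat_lit 7897864) (nat_lit 1355320) (nat_lit 32763488) (nat_lit 15992798) [(nat_lit 0), (nat_lit 1355320), (nat_lit 0), (nat_lit 7820943)]) (PF.cons
 (PF.leaf (nat_lit 8129996) (nat_lit 391141) (nat_lit 32504163) (nat_lit 15903304) [(nat_lit 391141), (nat_lit 1361178), (nat_lit 0), (nat_lit 7793923)]) (PF.cons PF.nil (PF.cons PF.nil PF.nil)))) (PF.cons (PF.cons (PF.leaf (nat_lit 8489072) (nat_lit 1366646) (nat_lit 31879375) (nat_lit 15683227) [(nat_lit 0), (nat_lit 1366646), (nat_lit 0), (nat_lit 7723134)]) (PF.cons PF.nil PF.nil)) (PF.cons PF.nil PF.nil))))) (PF.cons (PF.cons (PF.cons (PF.leaf (nat_lit 7731678) (nat_lit 3016010) (nat_lit 32586815) (nat_lit 15924457) [(nat_lit 0),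 (nat_lit 0), (nat_lit 3016010), (nat_lit 7790765)]) (PF.cons (PF.leaf (nat_lit 7953065) (nat_lit 380741) (nat_lit 32341717) (nat_lit 15839611) [(nat_lit 380741), (nat_lit 0), (nat_lit 3016460), (nat_lit 7765140)]) (PF.cons (PF.leaf (nat_lit 8182420) (nat_lit 387117) (nat_lit 32090060) (nat_lit 15751894) [(nat_lit 387117), (nat_lit 0), (nat_lit 3016227), (nat_lit 7738197)]) (PF.cons PF.nil PF.nil)))) (PF.cons (PF.cons (PF.leaf (nat_lit 8306449) (nat_lit 1353650) (nat_lit 31730211) (nat_lit 15623624) [(nat_lit 0), (nat_lit 1353650), (nat_lit 3010067), (nat_lit 7695629)]) (PF.cons (PF.leaf (nat_lit 8536507) (nat_lit 392497) (nat_lit 31479809) (nat_lit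
 15534905) [(nat_lit 392497), (nat_lit 1358342), (nat_lit 3008515), (nat_lit 7667370)]) PF.nil)) (PF.cons PF.nil PF.nil))) (PF.cons (PF.cons (PF.cons (PF.leaf (nat_lit 8702312) (nat_lit 2983618) (nat_lit 30743016) (nat_lit 15262275) [(nat_lit 0), (nat_lit 0), (nat_lit 2983618), (nat_lit 7568142)]) (PF.cons PF.nil PF.nil)) (PF.cons PF.nil PF.nil)) PF.nil))) (PF.cons (PF.cons (PF.cons (PF.cons (PF.leaf (nat_lit 8357148) (nat_lit 7410916) (nat_lit 29946895) (nat_lit 14929166) [(nat_lit 0), (nat_lit 0), (nat_lit 0), (nat_lit 7410916)]) (PF.cons (PF.leaf (nat_lit 8569486) (nat_lit 371304) (nat_lit 29731904) (nat_lit 14850507) [(nat_lit 371304), (nat_lit 0), (nat_lit 0), (nat_lit 7385031)]) (PF.cons (PF.leaf (nat_lit 8789279) (nat_lit 377146) (nat_lit 29511273) (nat_lit 14769325) [(nat_lit 377146), (nat_lit 0), (nat_lit 0), (nat_lit 7357973)]) (PF.cons PF.nil PF.nil)))) (PF.cons (PF.cons (PF.leaf (nat_lit 8903449) (nat_lit 1311409) (nat_lit 29197599) (nat_lit 14651559)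 [(nat_lit 0), (nat_lit 1311409), (nat_lit 0), (nat_lit 7316081)]) (PF.cons PF.nil PF.nil)) (PF.cons PF.nil PF.nil))) (PF.cons (PF.cons (PF.cons (PF.leaf (nat_lit 9271863) (nat_lit 2868583) (nat_lit 28339354) (nat_lit
 14321975) [(nat_lit 0), (nat_lit 0), (nat_lit 2868583), (nat_lit 7192966)]) (PF.cons PF.nil PF.nil)) PF.nil) PF.nil)) (PF.cons PF.nil (PF.cons PF.nil (PF.cons PF.nil (PF.cons PF.nil PF.nil))))))))

def p15_18_3_0 : pfC (piC [(nat_lit 40173837), (nat_lit 25770221), (nat_lit 19310217), (nat_lit 12946273)] (nat_lit 4828864)) p15_18_3 (nat_lit 4) (nat_lit 0) (nat_lit 1) = true := by decide +kernel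
def p15_18_3_1 : pfC (piC [(nat_lit 40173837), (nat_lit 25770221), (nat_lit 19310217), (nat_lit 12946273)] (nat_lit 4828864)) p15_18_3 (nat_lit 4) (nat_lit 1) (nat_lit 2) = true := by decide +kernel
def p15_18_3_2 : pfC (piC [(nat_lit 40173837), (nat_lit 25770221), (nat_lit 19310217), (nat_lit 12946273)] (nat_lit 4828864)) p15_18_3 (nat_lit 4) (nat_lit 2) (nat_lit 3) = true := by decide +kernel
def p15_18_3_3 : pfC (piC [(nat_lit 40173837), (nat_lit 25770221), (nat_lit 19310217), (nat_lit 12946273)] (nat_lit 4828864)) p15_18_3 (nat_lit 4) (nat_lit 3) (nat_lit 4) = true := by decide +kernel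
def p15_18_3_4 : pfC (piC [(nat_lit 40173837), (nat_lit 25770221), (nat_lit 19310217), (nat_lit 12946273)] (nat_lit 4828864)) p15_18_3 (nat_lit 4) (nat_lit 4) (nat_lit 5) = true := by decide +kernel
def p15_18_3_5 : pfC (piC [(nat_lit 40173837), (nat_lit 25770221), (nat_lit 19310217), (nat_lit 12946273)] (nat_lit 4828864)) p15_18_3 (nat_lit 4) (nat_lit 5) (nat_lit 6) = true := by decide +kernel
def p15_18_3_6 : pfC (piC [(nat_lit 40173837), (nat_lit 25770221), (nat_lit 19310217), (nat_lit 12946273)] (nat_lit 4828864)) p15_18_3 (nat_lit 4) (nat_lit 6) (nat_lit 7) = true := by decide +kernel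
def p15_18_3_7 : pfC (piC [(nat_lit 40173837), (nat_lit 25770221), (nat_lit 19310217), (nat_lit 12946273)] (nat_lit 4828864)) p15_18_3 (nat_lit 4) (nat_lit 7) (nat_lit 8) = true := by decide +kernel
def p15_18_3_8 : pfC (piC [(nat_lit 40173837), (nat_lit 25770221), (nat_lit 19310217), (nat_lit 12946273)] (nat_lit 4828864)) p15_18_3 (nat_lit 4) (nat_lit 8) (nat_lit 9) = true := by decide +kernel
def p15_18_3_9 : pfC (piC [(nat_lit 40173837), (nat_lit 25770221), (nat_lit 19310217), (nat_lit 12946273)] (nat_lit 4828864)) p15_18_3 (nat_lit 4) (nat_lit 9) (nat_lit 10) = true := by decide +kernel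
def p15_18_3_10 : pfC (piC [(nat_lit 40173837), (nat_lit 25770221), (nat_lit 19310217), (nat_lit 12946273)] (nat_lit 4828864)) p15_18_3 (nat_lit 4) (nat_lit 10) (nat_lit 11) = true := by decide +kernel
def p15_18_3_11 : pfC (piC [(nat_lit 40173837), (nat_lit 25770221), (nat_lit 19310217), (nat_lit 12946273)] (nat_lit 4828864)) p15_18_3 (nat_lit 4) (nat_lit 11) (nat_lit 12) = true := by decide +kernel
def p15_18_3_12 : pfC (piC [(nat_lit 40173837), (nat_lit 25770221), (nat_lit 19310217), (nat_lit 12946273)] (nat_lit 4828864)) p15_18_3 (nat_lit 4) (nat_lit 12) (nat_lit 13) = true := by decide +kernel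
def p15_18_3_13 : pfC (piC [(nat_lit 40173837), (nat_lit 25770221), (nat_lit 19310217), (nat_lit 12946273)] (nat_lit 4828864)) p15_18_3 (nat_lit 4) (nat_lit 13) (nat_lit 14) = true := by decide +kernel
def p15_18_3_14 : pfC (piC [(nat_lit 40173837), (nat_lit 25770221), (nat_lit 19310217), (nat_lit 12946273)] (nat_lit 4828864)) p15_18_3 (nat_lit 4) (nat_lit 14) (nat_lit 15) = true := by decide +kernel
def p15_18_3_15 : pfC (piC [(nat_lit 40173837), (nat_lit 25770221), (nat_lit 19310217), (nat_lit 12946273)] (nat_lit 4828864)) p15_18_3 (nat_lit 4) (nat_lit 15) (nat_lit 16) = true := by decide +kernel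
def p15_18_3_16 : pfC (piC [(nat_lit 40173837), (nat_lit 25770221), (nat_lit 19310217), (nat_lit 12946273)] (nat_lit 4828864)) p15_18_3 (nat_lit 4) (nat_lit 16) (nat_lit 17) = true := by decide +kernel
def p15_18_3_17 : pfC (piC [(nat_lit 40173837), (nat_lit 25770221), (nat_lit 19310217), (nat_lit 12946273)] (nat_lit 4828864)) p15_18_3 (nat_lit 4) (nat_lit 17) (nat_lit 18) = true := by decide +kernel
def p15_18_3_18 : pfC (piC [(nat_lit 40173837), (nat_lit 25770221), (nat_lit 19310217), (nat_lit 12946273)] (nat_lit 4828864)) p15_18_3 (nat_lit 4) (nat_lit 18) (nat_lit 19) = true := by decide +kernel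
def p15_18_3_19 : pfC (piC [(nat_lit 40173837), (nat_lit 25770221), (nat_lit 19310217), (nat_lit 12946273)] (nat_lit 4828864)) p15_18_3 (nat_lit 4) (nat_lit 19) (nat_lit 20) = true := by decide +kernel
def p15_18_3_20 : pfC (piC [(nat_lit 40173837), (nat_lit 25770221), (nat_lit 19310217), (nat_lit 12946273)] (nat_lit 4828864)) p15_18_3 (nat_lit 4) (nat_lit 20) (nat_lit 21) = true := by decide +kernel
def p15_18_3_21 : pfC (piC [(nat_lit 40173837), (nat_lit 25770221), (nat_lit 19310217), (nat_lit 12946273)] (nat_lit 4828864)) p15_18_3 (nat_lit 4) (nat_lit 21) (nat_lit 22) = true := by decide +kernel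
def p15_18_3_22 : pfC (piC [(nat_lit 40173837), (nat_lit 25770221), (nat_lit 19310217), (nat_lit 12946273)] (nat_lit 4828864)) p15_18_3 (nat_lit 4) (nat_lit 22) (nat_lit 23) = true := by decide +kernel
def p15_18_3_23 : pfC (piC [(nat_lit 40173837), (nat_lit 25770221), (nat_lit 19310217), (nat_lit 12946273)] (nat_lit 4828864)) p15_18_3 (nat_lit 4) (nat_lit 23) (nat_lit 24) = true := by decide +kernel
def p15_18_3_24 : pfC (piC [(nat_lit 40173837), (nat_lit 25770221), (nat_lit 19310217), (nat_lit 12946273)] (nat_lit 4828864)) p15_18_3 (nat_lit 4) (nat_lit 24) (nat_lit 25) = true := by decide +kernel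
def p15_18_3_25 : pfC (piC [(nat_lit 40173837), (nat_lit 25770221), (nat_lit 19310217), (nat_lit 12946273)] (nat_lit 4828864)) p15_18_3 (nat_lit 4) (nat_lit 25) (nat_lit 26) = true := by decide +kernel
def p15_18_3_26 : pfC (piC [(nat_lit 40173837), (nat_lit 25770221), (nat_lit 19310217), (nat_lit 12946273)] (nat_lit 4828864)) p15_18_3 (nat_lit 4) (nat_lit 26) (nat_lit 27) = true := by decide +kernel
def p15_18_3_27 : pfC (piC [(nat_lit 40173837), (nat_lit 25770221), (nat_lit 19310217), (nat_lit 12946273)] (nat_lit 4828864)) p15_18_3 (nat_lit 4) (nat_lit 27) (nat_lit 28) = true := by decide +kernel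
def p15_18_3_28 : pfC (piC [(nat_lit 40173837), (nat_lit 25770221), (nat_lit 19310217), (nat_lit 12946273)] (nat_lit 4828864)) p15_18_3 (nat_lit 4) (nat_lit 28) (nat_lit 29) = true := by decide +kernel
def p15_18_3_29 : pfC (piC [(nat_lit 40173837), (nat_lit 25770221), (nat_lit 19310217), (nat_lit 12946273)] (nat_lit 4828864)) p15_18_3 (nat_lit 4) (nat_lit 29) (nat_lit 30) = true := by decide +kernel
def p15_18_3_30 : pfC (piC [(nat_lit 40173837), (nat_lit 25770221), (nat_lit 19310217), (nat_lit 12946273)] (nat_lit 4828864)) p15_18_3 (nat_lit 4) (nat_lit 30) (nat_lit 31) = true := by decide +kernel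
def p15_18_3_31 : pfC (piC [(nat_lit 40173837), (nat_lit 25770221), (nat_lit 19310217), (nat_lit 12946273)] (nat_lit 4828864)) p15_18_3 (nat_lit 4) (nat_lit 31) (nat_lit 32) = true := by decide +kernel
def p15_18_3_32 : pfC (piC [(nat_lit 40173837), (nat_lit 25770221), (nat_lit 19310217), (nat_lit 12946273)] (nat_lit 4828864)) p15_18_3 (nat_lit 4) (nat_lit 32) (nat_lit 33) = true := by decide +kernel
def p15_18_3_33 : pfC (piC [(nat_lit 40173837), (nat_lit 25770221), (nat_lit 19310217), (nat_lit 12946273)] (nat_lit 4828864)) p15_18_3 (nat_lit 4) (nat_lit 33) (nat_lit 34) = true := by decide +kernel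
def p15_18_3_34 : pfC (piC [(nat_lit 40173837), (nat_lit 25770221), (nat_lit 19310217), (nat_lit 12946273)] (nat_lit 4828864)) p15_18_3 (nat_lit 4) (nat_lit 34) (nat_lit 35) = true := by decide +kernel
def p15_18_3_35 : pfC (piC [(nat_lit 40173837), (nat_lit 25770221), (nat_lit 19310217), (nat_lit 12946273)] (nat_lit 4828864)) p15_18_3 (nat_lit 4) (nat_lit 35) (nat_lit 36) = true := by decide +kernel
def p15_18_3_36 : pfC (piC [(nat_lit 40173837), (nat_lit 25770221), (nat_lit 19310217), (nat_lit 12946273)] (nat_lit 4828864)) p15_18_3 (nat_lit 4) (nat_lit 36) (nat_lit 37) = true := by decide +kernel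
def p15_18_3_37 : pfC (piC [(nat_lit 40173837), (nat_lit 25770221), (nat_lit 19310217), (nat_lit 12946273)] (nat_lit 4828864)) p15_18_3 (nat_lit 4) (nat_lit 37) (nat_lit 38) = true := by decide +kernel
def p15_18_3_38 : pfC (piC [(nat_lit 40173837), (nat_lit 25770221), (nat_lit 19310217), (nat_lit 12946273)] (nat_lit 4828864)) p15_18_3 (nat_lit 4) (nat_lit 38) (nat_lit 39) = true := by decide +kernel
def p15_18_3_39 : pfC (piC [(nat_lit 40173837), (nat_lit 25770221), (nat_lit 19310217), (nat_lit 12946273)] (nat_lit 4828864)) p15_18_3 (nat_lit 4) (nat_lit 39) (nat_lit 40) = true := by decide +kernel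
def p15_18_3_40 : pfC (piC [(nat_lit 40173837), (nat_lit 25770221), (nat_lit 19310217), (nat_lit 12946273)] (nat_lit 4828864)) p15_18_3 (nat_lit 4) (nat_lit 40) (nat_lit 41) = true := by decide +kernel
def p15_18_3_41 : pfC (piC [(nat_lit 40173837), (nat_lit 25770221), (nat_lit 19310217), (nat_lit 12946273)] (nat_lit 4828864)) p15_18_3 (nat_lit 4) (nat_lit 41) (nat_lit 42) = true := by decide +kernel
def p15_18_3_42 : pfC (piC [(nat_lit 40173837), (nat_lit 25770221), (nat_lit 19310217), (nat_lit 12946273)] (nat_lit 4828864)) p15_18_3 (nat_lit 4) (nat_lit 42) (nat_lit 43) = true := by decide +kernel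
def p15_18_3_43 : pfC (piC [(nat_lit 40173837), (nat_lit 25770221), (nat_lit 19310217), (nat_lit 12946273)] (nat_lit 4828864)) p15_18_3 (nat_lit 4) (nat_lit 43) (nat_lit 44) = true := by decide +kernel
def p15_18_3_44 : pfC (piC [(nat_lit 40173837), (nat_lit 25770221), (nat_lit 19310217), (nat_lit 12946273)] (nat_lit 4828864)) p15_18_3 (nat_lit 4) (nat_lit 44) (nat_lit 45) = true := by decide +kernel
def p15_18_3_45 : pfC (piC [(nat_lit 40173837), (nat_lit 25770221), (nat_lit 19310217), (nat_lit 12946273)] (nat_lit 4828864)) p15_18_3 (nat_lit 4) (nat_lit 45) (nat_lit 46) = true := by decide +kernel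
def p15_18_3_46 : pfC (piC [(nat_lit 40173837), (nat_lit 25770221), (nat_lit 19310217), (nat_lit 12946273)] (nat_lit 4828864)) p15_18_3 (nat_lit 4) (nat_lit 46) (nat_lit 47) = true := by decide +kernel
def p15_18_3_47 : pfC (piC [(nat_lit 40173837), (nat_lit 25770221), (nat_lit 19310217), (nat_lit 12946273)] (nat_lit 4828864)) p15_18_3 (nat_lit 4) (nat_lit 47) (nat_lit 48) = true := by decide +kernel
def p15_18_3_48 : pfC (piC [(nat_lit 40173837), (nat_lit 25770221), (nat_lit 19310217), (nat_lit 12946273)] (nat_lit 4828864)) p15_18_3 (nat_lit 4) (nat_lit 48) (nat_lit 49) = true := by decide +kernel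
def p15_18_3_49 : pfC (piC [(nat_lit 40173837), (nat_lit 25770221), (nat_lit 19310217), (nat_lit 12946273)] (nat_lit 4828864)) p15_18_3 (nat_lit 4) (nat_lit 49) (nat_lit 50) = true := by decide +kernel
def p15_18_3_50 : pfC (piC [(nat_lit 40173837), (nat_lit 25770221), (nat_lit 19310217), (nat_lit 12946273)] (nat_lit 4828864)) p15_18_3 (nat_lit 4) (nat_lit 50) (nat_lit 51) = true := by decide +kernel
def p15_18_3_51 : pfC (piC [(nat_lit 40173837), (nat_lit 25770221), (nat_lit 19310217), (nat_lit 12946273)] (nat_lit 4828864)) p15_18_3 (nat_lit 4) (nat_lit 51) (nat_lit 52) = true := by decide +kernel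
def p15_18_3_52 : pfC (piC [(nat_lit 40173837), (nat_lit 25770221), (nat_lit 19310217), (nat_lit 12946273)] (nat_lit 4828864)) p15_18_3 (nat_lit 4) (nat_lit 52) (nat_lit 53) = true := by decide +kernel
def p15_18_3_53 : pfC (piC [(nat_lit 40173837), (nat_lit 25770221), (nat_lit 19310217), (nat_lit 12946273)] (nat_lit 4828864)) p15_18_3 (nat_lit 4) (nat_lit 53) (nat_lit 54) = true := by decide +kernel
def p15_18_3_54 : pfC (piC [(nat_lit 40173837), (nat_lit 25770221), (nat_lit 19310217), (nat_lit 12946273)] (nat_lit 4828864)) p15_18_3 (nat_lit 4) (nat_lit 54) (nat_lit 55) = true := by decide +kernel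
def p15_18_3_55 : pfC (piC [(nat_lit 40173837), (nat_lit 25770221), (nat_lit 19310217), (nat_lit 12946273)] (nat_lit 4828864)) p15_18_3 (nat_lit 4) (nat_lit 55) (nat_lit 56) = true := by decide +kernel
def p15_18_3_56 : pfC (piC [(nat_lit 40173837), (nat_lit 25770221), (nat_lit 19310217), (nat_lit 12946273)] (nat_lit 4828864)) p15_18_3 (nat_lit 4) (nat_lit 56) (nat_lit 57) = true := by decide +kernel
def p15_18_3_57 : pfC (piC [(nat_lit 40173837), (nat_lit 25770221), (nat_lit 19310217), (nat_lit 12946273)] (nat_lit 4828864)) p15_18_3 (nat_lit 4) (nat_lit 57) (nat_lit 58) = true := by decide +kernel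
def p15_18_3_58 : pfC (piC [(nat_lit 40173837), (nat_lit 25770221), (nat_lit 19310217), (nat_lit 12946273)] (nat_lit 4828864)) p15_18_3 (nat_lit 4) (nat_lit 58) (nat_lit 59) = true := by decide +kernel
def p15_18_3_59 : pfC (piC [(nat_lit 40173837), (nat_lit 25770221), (nat_lit 19310217), (nat_lit 12946273)] (nat_lit 4828864)) p15_18_3 (nat_lit 4) (nat_lit 59) (nat_lit 60) = true := by decide +kernel
def p15_18_3_60 : pfC (piC [(nat_lit 40173837), (nat_lit 25770221), (nat_lit 19310217), (nat_lit 12946273)] (nat_lit 4828864)) p15_18_3 (nat_lit 4) (nat_lit 60) (nat_lit 61) = true := by decide +kernel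
def p15_18_3_61 : pfC (piC [(nat_lit 40173837), (nat_lit 25770221), (nat_lit 19310217), (nat_lit 12946273)] (nat_lit 4828864)) p15_18_3 (nat_lit 4) (nat_lit 61) (nat_lit 62) = true := by decide +kernel
def p15_18_3_62 : pfC (piC [(nat_lit 40173837), (nat_lit 25770221), (nat_lit 19310217), (nat_lit 12946273)] (nat_lit 4828864)) p15_18_3 (nat_lit 4) (nat_lit 62) (nat_lit 63) = true := by decide +kernel
def p15_18_3_63 : pfC (piC [(nat_lit 40173837), (nat_lit 25770221), (nat_lit 19310217), (nat_lit 12946273)] (nat_lit 4828864)) p15_18_3 (nat_lit 4) (nat_lit 63) (nat_lit 64) = true := by decide +kernel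
def p15_18_3_64 : pfC (piC [(nat_lit 40173837), (nat_lit 25770221), (nat_lit 19310217), (nat_lit 12946273)] (nat_lit 4828864)) p15_18_3 (nat_lit 4) (nat_lit 64) (nat_lit 65) = true := by decide +kernel
def p15_18_3_65 : pfC (piC [(nat_lit 40173837), (nat_lit 25770221), (nat_lit 19310217), (nat_lit 12946273)] (nat_lit 4828864)) p15_18_3 (nat_lit 4) (nat_lit 65) (nat_lit 66) = true := by decide +kernel
def p15_18_3_66 : pfC (piC [(nat_lit 40173837), (nat_lit 25770221), (nat_lit 19310217), (nat_lit 12946273)] (nat_lit 4828864)) p15_18_3 (nat_lit 4) (nat_lit 66) (nat_lit 67) = true := by decide +kernel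
def p15_18_3_67 : pfC (piC [(nat_lit 40173837), (nat_lit 25770221), (nat_lit 19310217), (nat_lit 12946273)] (nat_lit 4828864)) p15_18_3 (nat_lit 4) (nat_lit 67) (nat_lit 68) = true := by decide +kernel
def p15_18_3_68 : pfC (piC [(nat_lit 40173837), (nat_lit 25770221), (nat_lit 19310217), (nat_lit 12946273)] (nat_lit 4828864)) p15_18_3 (nat_lit 4) (nat_lit 68) (nat_lit 69) = true := by decide +kernel
def p15_18_3_69 : pfC (piC [(nat_lit 40173837), (nat_lit 25770221), (nat_lit 19310217), (nat_lit 12946273)] (nat_lit 4828864)) p15_18_3 (nat_lit 4) (nat_lit 69) (nat_lit 70) = true := by decide +kernel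
def p15_18_3_70 : pfC (piC [(nat_lit 40173837), (nat_lit 25770221), (nat_lit 19310217), (nat_lit 12946273)] (nat_lit 4828864)) p15_18_3 (nat_lit 4) (nat_lit 70) (nat_lit 71) = true := by decide +kernel
def p15_18_3_71 : pfC (piC [(nat_lit 40173837), (nat_lit 25770221), (nat_lit 19310217), (nat_lit 12946273)] (nat_lit 4828864)) p15_18_3 (nat_lit 4) (nat_lit 71) (nat_lit 72) = true := by decide +kernel
def p15_18_3_72 : pfC (piC [(nat_lit 40173837), (nat_lit 25770221), (nat_lit 19310217), (nat_lit 12946273)] (nat_lit 4828864)) p15_18_3 (nat_lit 4) (nat_lit 72) (nat_lit 73) = true := by decide +kernel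
def p15_18_3_73 : pfC (piC [(nat_lit 40173837), (nat_lit 25770221), (nat_lit 19310217), (nat_lit 12946273)] (nat_lit 4828864)) p15_18_3 (nat_lit 4) (nat_lit 73) (nat_lit 74) = true := by decide +kernel
def p15_18_3_74 : pfC (piC [(nat_lit 40173837), (nat_lit 25770221), (nat_lit 19310217), (nat_lit 12946273)] (nat_lit 4828864)) p15_18_3 (nat_lit 4) (nat_lit 74) (nat_lit 75) = true := by decide +kernel
def p15_18_3_75 : pfC (piC [(nat_lit 40173837), (nat_lit 25770221), (nat_lit 19310217), (nat_lit 12946273)] (nat_lit 4828864)) p15_18_3 (nat_lit 4) (nat_lit 75) (nat_lit 76) = true := by decide +kernel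
def p15_18_3_76 : pfC (piC [(nat_lit 40173837), (nat_lit 25770221), (nat_lit 19310217), (nat_lit 12946273)] (nat_lit 4828864)) p15_18_3 (nat_lit 4) (nat_lit 76) (nat_lit 77) = true := by decide +kernel
def p15_18_3_77 : pfC (piC [(nat_lit 40173837), (nat_lit 25770221), (nat_lit 19310217), (nat_lit 12946273)] (nat_lit 4828864)) p15_18_3 (nat_lit 4) (nat_lit 77) (nat_lit 78) = true := by decide +kernel
def p15_18_3_78 : pfC (piC [(nat_lit 40173837), (nat_lit 25770221), (nat_lit 19310217), (nat_lit 12946273)] (nat_lit 4828864)) p15_18_3 (nat_lit 4) (nat_lit 78) (nat_lit 79) = true := by decide +kernel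
def p15_18_3_79 : pfC (piC [(nat_lit 40173837), (nat_lit 25770221), (nat_lit 19310217), (nat_lit 12946273)] (nat_lit 4828864)) p15_18_3 (nat_lit 4) (nat_lit 79) (nat_lit 80) = true := by decide +kernel
def p15_18_3_80 : pfC (piC [(nat_lit 40173837), (nat_lit 25770221), (nat_lit 19310217), (nat_lit 12946273)] (nat_lit 4828864)) p15_18_3 (nat_lit 4) (nat_lit 80) (nat_lit 81) = true := by decide +kernel
def p15_18_3_81 : pfC (piC [(nat_lit 40173837), (nat_lit 25770221), (nat_lit 19310217), (nat_lit 12946273)] (nat_lit 4828864)) p15_18_3 (nat_lit 4) (nat_lit 81) (nat_lit 82) = true := by decide +kernel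
def p15_18_3_82 : pfC (piC [(nat_lit 40173837), (nat_lit 25770221), (nat_lit 19310217), (nat_lit 12946273)] (nat_lit 4828864)) p15_18_3 (nat_lit 4) (nat_lit 82) (nat_lit 83) = true := by decide +kernel
def p15_18_3_83 : pfC (piC [(nat_lit 40173837), (nat_lit 25770221), (nat_lit 19310217), (nat_lit 12946273)] (nat_lit 4828864)) p15_18_3 (nat_lit 4) (nat_lit 83) (nat_lit 84) = true := by decide +kernel
def p15_18_3_84 : pfC (piC [(nat_lit 40173837), (nat_lit 25770221), (nat_lit 19310217), (nat_lit 12946273)] (nat_lit 4828864)) p15_18_3 (nat_lit 4) (nat_lit 84) (nat_lit 85) = true := by decide +kernel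
def p15_18_3_85 : pfC (piC [(nat_lit 40173837), (nat_lit 25770221), (nat_lit 19310217), (nat_lit 12946273)] (nat_lit 4828864)) p15_18_3 (nat_lit 4) (nat_lit 85) (nat_lit 86) = true := by decide +kernel
def p15_18_3_86 : pfC (piC [(nat_lit 40173837), (nat_lit 25770221), (nat_lit 19310217), (nat_lit 12946273)] (nat_lit 4828864)) p15_18_3 (nat_lit 4) (nat_lit 86) (nat_lit 87) = true := by decide +kernel
def p15_18_3_87 : pfC (piC [(nat_lit 40173837), (nat_lit 25770221), (nat_lit 19310217), (nat_lit 12946273)] (nat_lit 4828864)) p15_18_3 (nat_lit 4) (nat_lit 87) (nat_lit 88) = true := by decide +kernel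
def p15_18_3_88 : pfC (piC [(nat_lit 40173837), (nat_lit 25770221), (nat_lit 19310217), (nat_lit 12946273)] (nat_lit 4828864)) p15_18_3 (nat_lit 4) (nat_lit 88) (nat_lit 89) = true := by decide +kernel
def p15_18_3_89 : pfC (piC [(nat_lit 40173837), (nat_lit 25770221), (nat_lit 19310217), (nat_lit 12946273)] (nat_lit 4828864)) p15_18_3 (nat_lit 4) (nat_lit 89) (nat_lit 90) = true := by decide +kernel
def p15_18_3_90 : pfC (piC [(nat_lit 40173837), (nat_lit 25770221), (nat_lit 19310217), (nat_lit 12946273)] (nat_lit 4828864)) p15_18_3 (nat_lit 4) (nat_lit 90) (nat_lit 91) = true := by decide +kernel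
def p15_18_3_91 : pfC (piC [(nat_lit 40173837), (nat_lit 25770221), (nat_lit 19310217), (nat_lit 12946273)] (nat_lit 4828864)) p15_18_3 (nat_lit 4) (nat_lit 91) (nat_lit 92) = true := by decide +kernel
def p15_18_3_92 : pfC (piC [(nat_lit 40173837), (nat_lit 25770221), (nat_lit 19310217), (nat_lit 12946273)] (nat_lit 4828864)) p15_18_3 (nat_lit 4) (nat_lit 92) (nat_lit 93) = true := by decide +kernel
def p15_18_3_93 : pfC (piC [(nat_lit 40173837), (nat_lit 25770221), (nat_lit 19310217), (nat_lit 12946273)] (nat_lit 4828864)) p15_18_3 (nat_lit 4) (nat_lit 93) (nat_lit 94) = true := by decide +kernel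
def p15_18_3_94 : pfC (piC [(nat_lit 40173837), (nat_lit 25770221), (nat_lit 19310217), (nat_lit 12946273)] (nat_lit 4828864)) p15_18_3 (nat_lit 4) (nat_lit 94) (nat_lit 95) = true := by decide +kernel
def p15_18_3_95 : pfC (piC [(nat_lit 40173837), (nat_lit 25770221), (nat_lit 19310217), (nat_lit 12946273)] (nat_lit 4828864)) p15_18_3 (nat_lit 4) (nat_lit 95) (nat_lit 96) = true := by decide +kernel
def p15_18_3_96 : pfC (piC [(nat_lit 40173837), (nat_lit 25770221), (nat_lit 19310217), (nat_lit 12946273)] (nat_lit 4828864)) p15_18_3 (nat_lit 4) (nat_lit 96) (nat_lit 97) = true := by decide +kernel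
def p15_18_3_97 : pfC (piC [(nat_lit 40173837), (nat_lit 25770221), (nat_lit 19310217), (nat_lit 12946273)] (nat_lit 4828864)) p15_18_3 (nat_lit 4) (nat_lit 97) (nat_lit 98) = true := by decide +kernel
def p15_18_3_98 : pfC (piC [(nat_lit 40173837), (nat_lit 25770221), (nat_lit 19310217), (nat_lit 12946273)] (nat_lit 4828864)) p15_18_3 (nat_lit 4) (nat_lit 98) (nat_lit 99) = true := by decide +kernel
def p15_18_3_99 : pfC (piC [(nat_lit 40173837), (nat_lit 25770221), (nat_lit 19310217), (nat_lit 12946273)] (nat_lit 4828864)) p15_18_3 (nat_lit 4) (nat_lit 99) (nat_lit 100) = true := by decide +kernel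
def p15_18_3_100 : pfC (piC [(nat_lit 40173837), (nat_lit 25770221), (nat_lit 19310217), (nat_lit 12946273)] (nat_lit 4828864)) p15_18_3 (nat_lit 4) (nat_lit 100) (nat_lit 101) = true := by decide +kernel
def p15_18_3_101 : pfC (piC [(nat_lit 40173837), (nat_lit 25770221), (nat_lit 19310217), (nat_lit 12946273)] (nat_lit 4828864)) p15_18_3 (nat_lit 4) (nat_lit 101) (nat_lit 102) = true := by decide +kernel
def p15_18_3_102 : pfC (piC [(nat_lit 40173837), (nat_lit 25770221), (nat_lit 19310217), (nat_lit 12946273)] (nat_lit 4828864)) p15_18_3 (nat_lit 4) (nat_lit 102) (nat_lit 103) = true := by decide +kernel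
def p15_18_3_103 : pfC (piC [(nat_lit 40173837), (nat_lit 25770221), (nat_lit 19310217), (nat_lit 12946273)] (nat_lit 4828864)) p15_18_3 (nat_lit 4) (nat_lit 103) (nat_lit 104) = true := by decide +kernel
def p15_18_3_104 : pfC (piC [(nat_lit 40173837), (nat_lit 25770221), (nat_lit 19310217), (nat_lit 12946273)] (nat_lit 4828864)) p15_18_3 (nat_lit 4) (nat_lit 104) (nat_lit 105) = true := by decide +kernel
def p15_18_3_105 : pfC (piC [(nat_lit 40173837), (nat_lit 25770221), (nat_lit 19310217), (nat_lit 12946273)] (nat_lit 4828864)) p15_18_3 (nat_lit 4) (nat_lit 105) (nat_lit 106) = true := by decide +kernel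
def p15_18_3_106 : pfC (piC [(nat_lit 40173837), (nat_lit 25770221), (nat_lit 19310217), (nat_lit 12946273)] (nat_lit 4828864)) p15_18_3 (nat_lit 4) (nat_lit 106) (nat_lit 107) = true := by decide +kernel
def p15_18_3_107 : pfC (piC [(nat_lit 40173837), (nat_lit 25770221), (nat_lit 19310217), (nat_lit 12946273)] (nat_lit 4828864)) p15_18_3 (nat_lit 4) (nat_lit 107) (nat_lit 108) = true := by decide +kernel
def p15_18_3_108 : pfC (piC [(nat_lit 40173837), (nat_lit 25770221), (nat_lit 19310217), (nat_lit 12946273)] (nat_lit 4828864)) p15_18_3 (nat_lit 4) (nat_lit 108) (nat_lit 109) = true := by decide +kernel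
def p15_18_3_109 : pfC (piC [(nat_lit 40173837), (nat_lit 25770221), (nat_lit 19310217), (nat_lit 12946273)] (nat_lit 4828864)) p15_18_3 (nat_lit 4) (nat_lit 109) (nat_lit 110) = true := by decide +kernel
def p15_18_3_110 : pfC (piC [(nat_lit 40173837), (nat_lit 25770221), (nat_lit 19310217), (nat_lit 12946273)] (nat_lit 4828864)) p15_18_3 (nat_lit 4) (nat_lit 110) (nat_lit 111) = true := by decide +kernel
def p15_18_3_111 : pfC (piC [(nat_lit 40173837), (nat_lit 25770221), (nat_lit 19310217), (nat_lit 12946273)] (nat_lit 4828864)) p15_18_3 (nat_lit 4) (nat_lit 111) (nat_lit 112) = true := by decide +kernel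
def p15_18_3_112 : pfC (piC [(nat_lit 40173837), (nat_lit 25770221), (nat_lit 19310217), (nat_lit 12946273)] (nat_lit 4828864)) p15_18_3 (nat_lit 4) (nat_lit 112) (nat_lit 113) = true := by decide +kernel
def p15_18_3_113 : pfC (piC [(nat_lit 40173837), (nat_lit 25770221), (nat_lit 19310217), (nat_lit 12946273)] (nat_lit 4828864)) p15_18_3 (nat_lit 4) (nat_lit 113) (nat_lit 114) = true := by decide +kernel
def p15_18_3_114 : pfC (piC [(nat_lit 40173837), (nat_lit 25770221), (nat_lit 19310217), (nat_lit 12946273)] (nat_lit 4828864)) p15_18_3 (nat_lit 4) (nat_lit 114) (nat_lit 115) = true := by decide +kernel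
def p15_18_3_115 : pfC (piC [(nat_lit 40173837), (nat_lit 25770221), (nat_lit 19310217), (nat_lit 12946273)] (nat_lit 4828864)) p15_18_3 (nat_lit 4) (nat_lit 115) (nat_lit 116) = true := by decide +kernel
def p15_18_3_116 : pfC (piC [(nat_lit 40173837), (nat_lit 25770221), (nat_lit 19310217), (nat_lit 12946273)] (nat_lit 4828864)) p15_18_3 (nat_lit 4) (nat_lit 116) (nat_lit 117) = true := by decide +kernel
def p15_18_3_117 : pfC (piC [(nat_lit 40173837), (nat_lit 25770221), (nat_lit 19310217), (nat_lit 12946273)] (nat_lit 4828864)) p15_18_3 (nat_lit 4) (nat_lit 117) (nat_lit 118) = true := by decide +kernel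
def p15_18_3_118 : pfC (piC [(nat_lit 40173837), (nat_lit 25770221), (nat_lit 19310217), (nat_lit 12946273)] (nat_lit 4828864)) p15_18_3 (nat_lit 4) (nat_lit 118) (nat_lit 119) = true := by decide +kernel
def p15_18_3_119 : pfC (piC [(nat_lit 40173837), (nat_lit 25770221), (nat_lit 19310217), (nat_lit 12946273)] (nat_lit 4828864)) p15_18_3 (nat_lit 4) (nat_lit 119) (nat_lit 120) = true := by decide +kernel
def p15_18_3_120 : pfC (piC [(nat_lit 40173837), (nat_lit 25770221), (nat_lit 19310217), (nat_lit 12946273)] (nat_lit 4828864)) p15_18_3 (nat_lit 4) (nat_lit 120) (nat_lit 121) = true := by decide +kernel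
def p15_18_3_121 : pfC (piC [(nat_lit 40173837), (nat_lit 25770221), (nat_lit 19310217), (nat_lit 12946273)] (nat_lit 4828864)) p15_18_3 (nat_lit 4) (nat_lit 121) (nat_lit 122) = true := by decide +kernel
def p15_18_3_122 : pfC (piC [(nat_lit 40173837), (nat_lit 25770221), (nat_lit 19310217), (nat_lit 12946273)] (nat_lit 4828864)) p15_18_3 (nat_lit 4) (nat_lit 122) (nat_lit 123) = true := by decide +kernel
def p15_18_3_123 : pfC (piC [(nat_lit 40173837), (nat_lit 25770221), (nat_lit 19310217), (nat_lit 12946273)] (nat_lit 4828864)) p15_18_3 (nat_lit 4) (nat_lit 123) (nat_lit 124) = true := by decide +kernel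
def p15_18_3_124 : pfC (piC [(nat_lit 40173837), (nat_lit 25770221), (nat_lit 19310217), (nat_lit 12946273)] (nat_lit 4828864)) p15_18_3 (nat_lit 4) (nat_lit 124) (nat_lit 125) = true := by decide +kernel
def p15_18_3_125 : pfC (piC [(nat_lit 40173837), (nat_lit 25770221), (nat_lit 19310217), (nat_lit 12946273)] (nat_lit 4828864)) p15_18_3 (nat_lit 4) (nat_lit 125) (nat_lit 126) = true := by decide +kernel
def p15_18_3_126 : pfC (piC [(nat_lit 40173837), (nat_lit 25770221), (nat_lit 19310217), (nat_lit 12946273)] (nat_lit 4828864)) p15_18_3 (nat_lit 4) (nat_lit 126) (nat_lit 127) = true := by decide +kernel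
def p15_18_3_127 : pfC (piC [(nat_lit 40173837), (nat_lit 25770221), (nat_lit 19310217), (nat_lit 12946273)] (nat_lit 4828864)) p15_18_3 (nat_lit 4) (nat_lit 127) (nat_lit 128) = true := by decide +kernel
def p15_18_3_128 : pfC (piC [(nat_lit 40173837), (nat_lit 25770221), (nat_lit 19310217), (nat_lit 12946273)] (nat_lit 4828864)) p15_18_3 (nat_lit 4) (nat_lit 128) (nat_lit 129) = true := by decide +kernel
def p15_18_3_129 : pfC (piC [(nat_lit 40173837), (nat_lit 25770221), (nat_lit 19310217), (nat_lit 12946273)] (nat_lit 4828864)) p15_18_3 (nat_lit 4) (nat_lit 129) (nat_lit 130) = true := by decide +kernel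
def p15_18_3_130 : pfC (piC [(nat_lit 40173837), (nat_lit 25770221), (nat_lit 19310217), (nat_lit 12946273)] (nat_lit 4828864)) p15_18_3 (nat_lit 4) (nat_lit 130) (nat_lit 131) = true := by decide +kernel
def p15_18_3_131 : pfC (piC [(nat_lit 40173837), (nat_lit 25770221), (nat_lit 19310217), (nat_lit 12946273)] (nat_lit 4828864)) p15_18_3 (nat_lit 4) (nat_lit 131) (nat_lit 132) = true := by decide +kernel
def p15_18_3_132 : pfC (piC [(nat_lit 40173837), (nat_lit 25770221), (nat_lit 19310217), (nat_lit 12946273)] (nat_lit 4828864)) p15_18_3 (nat_lit 4) (nat_lit 132) (nat_lit 133) = true := by decide +kernel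
def p15_18_3_133 : pfC (piC [(nat_lit 40173837), (nat_lit 25770221), (nat_lit 19310217), (nat_lit 12946273)] (nat_lit 4828864)) p15_18_3 (nat_lit 4) (nat_lit 133) (nat_lit 134) = true := by decide +kernel
def p15_18_3_134 : pfC (piC [(nat_lit 40173837), (nat_lit 25770221), (nat_lit 19310217), (nat_lit 12946273)] (nat_lit 4828864)) p15_18_3 (nat_lit 4) (nat_lit 134) (nat_lit 135) = true := by decide +kernel
def p15_18_3_135 : pfC (piC [(nat_lit 40173837), (nat_lit 25770221), (nat_lit 19310217), (nat_lit 12946273)] (nat_lit 4828864)) p15_18_3 (nat_lit 4) (nat_lit 135) (nat_lit 136) = true := by decide +kernel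
def p15_18_3_136 : pfC (piC [(nat_lit 40173837), (nat_lit 25770221), (nat_lit 19310217), (nat_lit 12946273)] (nat_lit 4828864)) p15_18_3 (nat_lit 4) (nat_lit 136) (nat_lit 137) = true := by decide +kernel
def p15_18_3_137 : pfC (piC [(nat_lit 40173837), (nat_lit 25770221), (nat_lit 19310217), (nat_lit 12946273)] (nat_lit 4828864)) p15_18_3 (nat_lit 4) (nat_lit 137) (nat_lit 138) = true := by decide +kernel
def p15_18_3_138 : pfC (piC [(nat_lit 40173837), (nat_lit 25770221), (nat_lit 19310217), (nat_lit 12946273)] (nat_lit 4828864)) p15_18_3 (nat_lit 4) (nat_lit 138) (nat_lit 139) = true := by decide +kernel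
def p15_18_3_139 : pfC (piC [(nat_lit 40173837), (nat_lit 25770221), (nat_lit 19310217), (nat_lit 12946273)] (nat_lit 4828864)) p15_18_3 (nat_lit 4) (nat_lit 139) (nat_lit 140) = true := by decide +kernel
def p15_18_3_140 : pfC (piC [(nat_lit 40173837), (nat_lit 25770221), (nat_lit 19310217), (nat_lit 12946273)] (nat_lit 4828864)) p15_18_3 (nat_lit 4) (nat_lit 140) (nat_lit 141) = true := by decide +kernel
def p15_18_3_141 : pfC (piC [(nat_lit 40173837), (nat_lit 25770221), (nat_lit 19310217), (nat_lit 12946273)] (nat_lit 4828864)) p15_18_3 (nat_lit 4) (nat_lit 141) (nat_lit 142) = true := by decide +kernel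
def p15_18_3_142 : pfC (piC [(nat_lit 40173837), (nat_lit 25770221), (nat_lit 19310217), (nat_lit 12946273)] (nat_lit 4828864)) p15_18_3 (nat_lit 4) (nat_lit 142) (nat_lit 143) = true := by decide +kernel
def p15_18_3_143 : pfC (piC [(nat_lit 40173837), (nat_lit 25770221), (nat_lit 19310217), (nat_lit 12946273)] (nat_lit 4828864)) p15_18_3 (nat_lit 4) (nat_lit 143) (nat_lit 144) = true := by decide +kernel
def p15_18_3_144 : pfC (piC [(nat_lit 40173837), (nat_lit 25770221), (nat_lit 19310217), (nat_lit 12946273)] (nat_lit 4828864)) p15_18_3 (nat_lit 4) (nat_lit 144) (nat_lit 145) = true := by decide +kernel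
def p15_18_3_145 : pfC (piC [(nat_lit 40173837), (nat_lit 25770221), (nat_lit 19310217), (nat_lit 12946273)] (nat_lit 4828864)) p15_18_3 (nat_lit 4) (nat_lit 145) (nat_lit 146) = true := by decide +kernel
def p15_18_3_146 : pfC (piC [(nat_lit 40173837), (nat_lit 25770221), (nat_lit 19310217), (nat_lit 12946273)] (nat_lit 4828864)) p15_18_3 (nat_lit 4) (nat_lit 146) (nat_lit 147) = true := by decide +kernel
def p15_18_3_147 : pfC (piC [(nat_lit 40173837), (nat_lit 25770221), (nat_lit 19310217), (nat_lit 12946273)] (nat_lit 4828864)) p15_18_3 (nat_lit 4) (nat_lit 147) (nat_lit 148) = true := by decide +kernel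
def p15_18_3_148 : pfC (piC [(nat_lit 40173837), (nat_lit 25770221), (nat_lit 19310217), (nat_lit 12946273)] (nat_lit 4828864)) p15_18_3 (nat_lit 4) (nat_lit 148) (nat_lit 149) = true := by decide +kernel
def p15_18_3_149 : pfC (piC [(nat_lit 40173837), (nat_lit 25770221), (nat_lit 19310217), (nat_lit 12946273)] (nat_lit 4828864)) p15_18_3 (nat_lit 4) (nat_lit 149) (nat_lit 150) = true := by decide +kernel
def p15_18_3_150 : pfC (piC [(nat_lit 40173837), (nat_lit 25770221), (nat_lit 19310217), (nat_lit 12946273)] (nat_lit 4828864)) p15_18_3 (nat_lit 4) (nat_lit 150) (nat_lit 151) = true := by decide +kernel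
def p15_18_3_151 : pfC (piC [(nat_lit 40173837), (nat_lit 25770221), (nat_lit 19310217), (nat_lit 12946273)] (nat_lit 4828864)) p15_18_3 (nat_lit 4) (nat_lit 151) (nat_lit 152) = true := by decide +kernel
def p15_18_3_152 : pfC (piC [(nat_lit 40173837), (nat_lit 25770221), (nat_lit 19310217), (nat_lit 12946273)] (nat_lit 4828864)) p15_18_3 (nat_lit 4) (nat_lit 152) (nat_lit 153) = true := by decide +kernel
theorem p15_18_3_T : PfS (PiF n15_18.reverse (nat_lit 4828864)) p15_18_3 (nat_lit 4) [] 0 :=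
  pftab_of (los := [(nat_lit 40173837), (nat_lit 25770221), (nat_lit 19310217), (nat_lit 12946273)]) (by decide +kernel) (hi := (nat_lit 153)) (PfP.trans (PfP.trans (PfP.trans (PfP.trans (PfP.trans (PfP.trans (PfP.trans (PfP.trans (PfP.trans (PfP.trans (PfP.trans (PfP.trans (PfP.trans (PfP.trans (PfP.trans (PfP.trans (PfP.trans (PfP.trans (PfP.trans (PfP.trans (PfP.trans (PfP.trans (PfP.trans (PfP.trans (PfP.trans (PfP.trans (PfP.trans (PfP.trans (PfP.trans (PfP.trans (PfP.trans (PfP.trans (PfP.trans (PfP.trans (PfP.trans (PfP.trans (PfP.trans (PfP.trans (PfP.trans (PfP.trans (PfP.trans (PfP.trans (PfP.trans (PfP.trans (PfP.trans (PfP.trans (PfP.trans (PfP.trans (PfP.trans (PfP.trans (PfP.trans (PfP.trans (PfP.trans (PfP.trans (PfP.trans (PfP.trans (PfP.trans (PfP.trans (PfP.trans (PfP.trans (PfP.trans (PfP.trans (PfP.trans (PfP.trans (PfP.trans (PfP.trans (PfP.trans (PfP.trans (PfP.trans (PfP.trans (PfP.trans (PfP.trans (PfP.trans (PfP.trans (PfP.trans (PfP.trans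 (PfP.trans (PfP.trans (PfP.trans (PfP.trans (PfP.trans (PfP.trans (PfP.trans (PfP.trans (PfP.trans (PfP.trans (PfP.trans (PfP.trans (PfP.trans (PfP.trans (PfP.trans (PfP.trans (PfP.trans (PfP.trans (PfP.trans (PfP.trans (PfP.trans (PfP.trans (PfP.trans (PfP.trans (PfP.trans (PfP.trans (PfP.trans (PfP.trans (PfP.trans (PfP.trans (PfP.trans (PfP.trans (PfP.trans
 (PfP.trans (PfP.trans (PfP.trans (PfP.trans (PfP.trans (PfP.trans (PfP.trans (PfP.trans (PfP.trans (PfP.trans (PfP.trans (PfP.trans (PfP.trans (PfP.trans (PfP.trans (PfP.trans (PfP.trans (PfP.trans (PfP.trans (PfP.trans (PfP.trans (PfP.trans (PfP.trans (PfP.trans (PfP.trans (PfP.trans (PfP.trans (PfP.trans (PfP.trans (PfP.trans (PfP.trans (PfP.trans (PfP.trans (PfP.trans (PfP.trans (PfP.trans (PfP.trans (PfP.trans (PfP.trans (PfP.trans (PfP.trans (PfP.trans (PfP.trans (pfC_sound p15_18_3_0) (pfC_sound p15_18_3_1)) (pfC_sound p15_18_3_2)) (pfC_sound p15_18_3_3)) (pfC_sound p15_18_3_4)) (pfC_sound p15_18_3_5))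 (pfC_sound p15_18_3_6)) (pfC_sound p15_18_3_7)) (pfC_sound p15_18_3_8)) (pfC_sound p15_18_3_9)) (pfC_sound p15_18_3_10)) (pfC_sound p15_18_3_11)) (pfC_sound p15_18_3_12)) (pfC_sound p15_18_3_13)) (pfC_sound p15_18_3_14)) (pfC_sound p15_18_3_15)) (pfC_sound p15_18_3_16)) (pfC_sound p15_18_3_17)) (pfC_sound p15_18_3_18)) (pfC_sound p15_18_3_19)) (pfC_sound p15_18_3_20)) (pfC_sound p15_18_3_21)) (pfC_sound p15_18_3_22)) (pfC_sound p15_18_3_23)) (pfC_sound p15_18_3_24)) (pfC_sound p15_18_3_25)) (pfC_sound p15_18_3_26)) (pfC_sound p15_18_3_27)) (pfC_sound p15_18_3_28)) (pfC_sound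
 p15_18_3_29)) (pfC_sound p15_18_3_30)) (pfC_sound p15_18_3_31)) (pfC_sound p15_18_3_32)) (pfC_sound p15_18_3_33)) (pfC_sound p15_18_3_34)) (pfC_sound p15_18_3_35)) (pfC_sound p15_18_3_36)) (pfC_sound p15_18_3_37)) (pfC_sound p15_18_3_38)) (pfC_sound p15_18_3_39)) (pfC_sound p15_18_3_40)) (pfC_sound p15_18_3_41)) (pfC_sound p15_18_3_42)) (pfC_sound p15_18_3_43)) (pfC_sound p15_18_3_44)) (pfC_sound p15_18_3_45)) (pfC_sound p15_18_3_46)) (pfC_sound p15_18_3_47)) (pfC_sound p15_18_3_48)) (pfC_sound p15_18_3_49)) (pfC_sound p15_18_3_50)) (pfC_sound p15_18_3_51)) (pfC_sound p15_18_3_52)) (pfC_sound p15_18_3_53)) (pfC_sound p15_18_3_54)) (pfC_sound p15_18_3_55)) (pfC_sound p15_18_3_56)) (pfC_sound p15_18_3_57)) (pfC_sound p15_18_3_58)) (pfC_sound p15_18_3_59)) (pfC_sound p15_18_3_60)) (pfC_sound p15_18_3_61)) (pfC_sound p15_18_3_62)) (pfC_sound p15_18_3_63)) (pfC_sound p15_18_3_64)) (pfC_sound p15_18_3_65)) (pfC_sound p15_18_3_66)) (pfC_sound p15_18_3_67)) (pfC_sound p15_18_3_68))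 (pfC_sound p15_18_3_69)) (pfC_sound p15_18_3_70)) (pfC_sound p15_18_3_71)) (pfC_sound p15_18_3_72)) (pfC_sound p15_18_3_73)) (pfC_sound p15_18_3_74)) (pfC_sound p15_18_3_75)) (pfC_sound p15_18_3_76)) (pfC_sound
 p15_18_3_77)) (pfC_sound p15_18_3_78)) (pfC_sound p15_18_3_79)) (pfC_sound p15_18_3_80)) (pfC_sound p15_18_3_81)) (pfC_sound p15_18_3_82)) (pfC_sound p15_18_3_83)) (pfC_sound p15_18_3_84)) (pfC_sound p15_18_3_85)) (pfC_sound p15_18_3_86)) (pfC_sound p15_18_3_87)) (pfC_sound p15_18_3_88)) (pfC_sound p15_18_3_89)) (pfC_sound p15_18_3_90)) (pfC_sound p15_18_3_91)) (pfC_sound p15_18_3_92)) (pfC_sound p15_18_3_93)) (pfC_sound p15_18_3_94)) (pfC_sound p15_18_3_95)) (pfC_sound p15_18_3_96)) (pfC_sound p15_18_3_97)) (pfC_sound p15_18_3_98)) (pfC_sound p15_18_3_99)) (pfC_sound p15_18_3_100)) (pfC_sound p15_18_3_101)) (pfC_sound p15_18_3_102)) (pfC_sound p15_18_3_103)) (pfC_sound p15_18_3_104)) (pfC_sound p15_18_3_105)) (pfC_sound p15_18_3_106)) (pfC_sound p15_18_3_107))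 (pfC_sound p15_18_3_108)) (pfC_sound p15_18_3_109)) (pfC_sound p15_18_3_110)) (pfC_sound p15_18_3_111)) (pfC_sound p15_18_3_112)) (pfC_sound p15_18_3_113)) (pfC_sound p15_18_3_114)) (pfC_sound p15_18_3_115)) (pfC_sound p15_18_3_116)) (pfC_sound p15_18_3_117)) (pfC_sound p15_18_3_118)) (pfC_sound p15_18_3_119)) (pfC_sound p15_18_3_120)) (pfC_sound p15_18_3_121)) (pfC_sound p15_18_3_122)) (pfC_sound p15_18_3_123)) (pfC_sound
 p15_18_3_124)) (pfC_sound p15_18_3_125)) (pfC_sound p15_18_3_126)) (pfC_sound p15_18_3_127)) (pfC_sound p15_18_3_128)) (pfC_sound p15_18_3_129)) (pfC_sound p15_18_3_130)) (pfC_sound p15_18_3_131)) (pfC_sound p15_18_3_132)) (pfC_sound p15_18_3_133)) (pfC_sound p15_18_3_134)) (pfC_sound p15_18_3_135)) (pfC_sound p15_18_3_136)) (pfC_sound p15_18_3_137)) (pfC_sound p15_18_3_138)) (pfC_sound p15_18_3_139)) (pfC_sound p15_18_3_140)) (pfC_sound p15_18_3_141)) (pfC_sound p15_18_3_142)) (pfC_sound p15_18_3_143)) (pfC_sound p15_18_3_144)) (pfC_sound p15_18_3_145))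 (pfC_sound p15_18_3_146)) (pfC_sound p15_18_3_147)) (pfC_sound p15_18_3_148)) (pfC_sound p15_18_3_149)) (pfC_sound p15_18_3_150)) (pfC_sound p15_18_3_151)) (pfC_sound p15_18_3_152)) (by decide +kernel)

def z15_18_3 : zOK yB15_18 (nat_lit 3) (nat_lit 750) (nat_lit 867) (nat_lit 4828864) (nat_lit 3609700) = true := by decide +kernel
def g15_18_3 : gOK yB15_18.x P15_18 (nat_lit 1422) (q15_18 :: r15_18) (nat_lit 3) (nat_lit 750) (nat_lit 4) (nat_lit 867) (nat_lit 12712500) (nat_lit 12712500) (nat_lit 12712500) (nat_lit 12712500) [(nat_lit 800)] = true := by decide +kernel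
def v15_18_3 : ivC P15_18 s15_18 w15_18 n15_18 (nat_lit 4) (nat_lit 4670) (nat_lit 3) (nat_lit 750) f152_1_750 f160_1_750 (nat_lit 4) (nat_lit 867) f152_1_867 f160_1_867 (nat_lit 4828864) (nat_lit 3609700) p15_18_3 = true := by decide +kernel
end CB
end Pool.Agent.Lib.MP_6947cd_al
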