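import Pool.Agent.Lib.MP_6947cd_al.L.BoxDataB
import Pool.Agent.Lib.MP_6947cd_al.L.TeD3
import Pool.Agent.Lib.MP_6947cd_al.L.TeD4

/-!
Problem MP_6947cd_al (Chollet).  CASE B, rows `j`: boxes (generated).
-/

set_option autoImplicit false
set_option linter.defProp false
set_option maxRecDepth 20000

namespace Pool.Agent.Lib.MP_6947cd_al
namespace CB

open Ent Ent.Pk Fr Fr.WT CA

/-! box `yB15_19` -/

def P15_19 : BQ := ⟨(nat_lit 8), (nat_lit 2), (nat_lit 6), (nat_lit 1), (nat_lit 7), (nat_lit 790), (nat_lit 795), (nat_lit 120), [(nat_lit 200), (nat_lit 300), (nat_lit 450), (nat_lit 800)], (nat_lit 107136000), (nat_lit 16000000), (nat_lit 16000000000)⟩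
def q15_19 : PC := ⟨(nat_lit 1000), [(nat_lit 120000), (nat_lit 200000), (nat_lit 300000), (nat_lit 450000), (nat_lit 800000)], (nat_lit 340282367000166625996085689103316680705000000), (nat_lit 15892864000000), (nat_lit 15892864000000), (nat_lit 10000000)⟩
def r15_19 : List PC := [⟨(nat_lit 1305), [(nat_lit 120588), (nat_lit 201026), (nat_lit 301329), (nat_lit 451363), (nat_lit 800501)], (nat_lit 342276081388462038586768601634000973224430812), (nat_lit 16301730376800), (nat_lit 16304452831200), (nat_lit 10051300)⟩, ⟨(nat_lit 6382), [(nat_lit 131594), (nat_lit 217837), (nat_lit 324172), (nat_lit 485634), (nat_lit 844928)], (nat_lit 376017800335492924569050569806096720341237026), (nat_lit 22031277088320), (nat_lit 22079317250880), (nat_lit 10966167)⟩]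
def s15_19 : List PB := [⟨(nat_lit 26100), (nat_lit 1929408000000), [(nat_lit 201026), (nat_lit 301329), (nat_lit 451363), (nat_lit 800501)], (nat_lit 342276081388462038586768601634000973224430812), (nat_lit 1142201637219424), (nat_lit 1142204359673824), (nat_lit 48800)⟩, ⟨(nat_lit 127640), (nat_lit 2105504000000), [(nat_lit 217837), (nat_lit 324172), (nat_lit 485634), (nat_lit 844928)], (nat_lit 376017800335492924569050569806096720341237026), (nat_lit 1147931183930944), (nat_lit 1147979224093504), (nat_lit 861120)⟩]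
def n15_19 : List KN := [⟨(nat_lit 800), (nat_lit 450), (nat_lit 12837379), (nat_lit 5310285)⟩, ⟨(nat_lit 450), (nat_lit 300), (nat_lit 19173228), (nat_lit 12837379)⟩, ⟨(nat_lit 300), (nat_lit 200), (nat_lit 25639500), (nat_lit 19173228)⟩, ⟨(nat_lit 200), (nat_lit 120), (nat_lit 39633164), (nat_lit 25639500)⟩]
def w15_19 : List ℕ := [(nat_lit 48800), (nat_lit 861120)]
def par15_19 : parC yB15_19 P15_19 s15_19 r15_19 q15_19 n15_19 w15_19 = true := by decide +kernel

def p15_19_0 : PF := (PF.cons (PF.cons (PF.cons (PF.cons (PF.leaf (nat_lit 768568) (nat_lit 2389439) (nat_lit 64719373) (nat_lit 2389439) [(nat_lit 0), (nat_lit 0), (nat_lit 0), (nat_lit 0)]) (PF.cons (PF.leaf (nat_lit 905988) (nat_lit 215287) (nat_lit 64448897) (nat_lit 2444628) [(nat_lit 215287), (nat_lit 0), (nat_lit 0), (nat_lit 0)]) (PF.cons (PF.leaf (nat_lit 1073391) (nat_lit 237895) (nat_lit 64127222) (nat_lit 2505800) [(nat_lit 237895), (nat_lit 0), (nat_lit 0), (nat_lit 0)]) (PF.cons (PF.leaf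 (nat_lit 1265042) (nat_lit 259068) (nat_lit 63761232) (nat_lit 2570374) [(nat_lit 259068), (nat_lit 0), (nat_lit 0), (nat_lit 0)]) (PF.cons (PF.leaf (nat_lit 1478906) (nat_lit 279117) (nat_lit 63355774) (nat_lit 2636569) [(nat_lit 279117), (nat_lit 0), (nat_lit 0), (nat_lit 0)]) (PF.cons (PF.leaf (nat_lit 1713089) (nat_lit 298206) (nat_lit 62914678) (nat_lit 2703101) [(nat_lit 298206), (nat_lit 0), (nat_lit 0), (nat_lit 0)]) (PF.cons (PF.leaf (nat_lit 1966111) (nat_lit 316429) (nat_lit 62441213) (nat_lit 2769022) [(nat_lit 316429), (nat_lit 0), (nat_lit 0), (nat_lit 0)]) (PF.cons (PF.leaf (nat_lit 2236571) (nat_lit 333840) (nat_lit 61938305) (nat_lit 2833622) [(nat_lit 333840), (nat_lit 0), (nat_lit 0),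
 (nat_lit 0)]) (PF.cons (PF.leaf (nat_lit 2523154) (nat_lit 350473) (nat_lit 61408658) (nat_lit 2896365) [(nat_lit 350473), (nat_lit 0), (nat_lit 0), (nat_lit 0)]) (PF.cons PF.nil (PF.cons PF.nil (PF.cons PF.nil PF.nil)))))))))))) (PF.cons (PF.cons (PF.leaf (nat_lit 1281904) (nat_lit 1069464) (nat_lit 63428262) (nat_lit 2611085) [(nat_lit 0), (nat_lit 1069464), (nat_lit 0), (nat_lit 0)]) (PF.cons (PF.leaf (nat_lit 1472460) (nat_lit 275237) (nat_lit 63054368) (nat_lit 2669090) [(nat_lit 275237), (nat_lit 1110115), (nat_lit 0), (nat_lit 0)]) (PF.cons (PF.leaf (nat_lit 1687520) (nat_lit 294682) (nat_lit 62639018) (nat_lit 2729125) [(nat_lit 294682), (nat_lit 1151302), (nat_lit 0), (nat_lit 0)]) (PF.cons (PF.leaf (nat_lit 1923377) (nat_lit 313101) (nat_lit 62187482) (nat_lit 2789772) [(nat_lit 313101), (nat_lit 1192252), (nat_lit 0), (nat_lit 0)]) (PF.cons (PF.leaf (nat_lit 2178007) (nat_lit 330621) (nat_lit 61703825) (nat_lit 2850026) [(nat_lit 330621), (nat_lit 1232472),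 (nat_lit 0), (nat_lit 0)]) (PF.cons (PF.leaf (nat_lit 2449852) (nat_lit 347315) (nat_lit 61191451) (nat_lit 2909153) [(nat_lit 347315), (nat_lit 1271630), (nat_lit 0), (nat_lit 0)]) (PF.cons (PF.leaf (nat_lit
 2737454) (nat_lit 363225) (nat_lit 60653351) (nat_lit 2966608) [(nat_lit 363225), (nat_lit 1309497), (nat_lit 0), (nat_lit 0)]) (PF.cons (PF.leaf (nat_lit 3039471) (nat_lit 378381) (nat_lit 60092245) (nat_lit 3021985) [(nat_lit 378381), (nat_lit 1345911), (nat_lit 0), (nat_lit 0)]) (PF.cons PF.nil (PF.cons PF.nil PF.nil)))))))))) (PF.cons (PF.cons (PF.leaf (nat_lit 1902918) (nat_lit 1202327) (nat_lit 61888980) (nat_lit 2815177) [(nat_lit 0), (nat_lit 1202327), (nat_lit 0), (nat_lit 0)]) (PF.cons (PF.leaf (nat_lit 2137207) (nat_lit 326583) (nat_lit 61432888) (nat_lit 2869994) [(nat_lit 326583), (nat_lit 1239673), (nat_lit 0), (nat_lit 0)]) (PF.cons (PF.leaf (nat_lit 2391766) (nat_lit 343536) (nat_lit 60943800) (nat_lit 2924736) [(nat_lit 343536), (nat_lit 1276602),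 (nat_lit 0), (nat_lit 0)]) (PF.cons (PF.leaf (nat_lit 2663649) (nat_lit 359615) (nat_lit 60425971) (nat_lit 2978596) [(nat_lit 359615), (nat_lit 1312699), (nat_lit 0), (nat_lit 0)]) (PF.cons (PF.leaf (nat_lit 2951179) (nat_lit 374887) (nat_lit 59882892) (nat_lit 3030996) [(nat_lit 374887), (nat_lit 1347687), (nat_lit 0), (nat_lit 0)]) (PF.cons (PF.leaf (nat_lit 3252869) (nat_lit 389393) (nat_lit 59317583) (nat_lit
 3081512) [(nat_lit 389393), (nat_lit 1381375), (nat_lit 0), (nat_lit 0)]) (PF.cons PF.nil (PF.cons PF.nil (PF.cons PF.nil PF.nil))))))))) (PF.cons (PF.cons (PF.leaf (nat_lit 2608907) (nat_lit 1317609) (nat_lit 60162350) (nat_lit 2993633) [(nat_lit 0), (nat_lit 1317609), (nat_lit 0), (nat_lit 0)]) (PF.cons (PF.leaf (nat_lit 2878561) (nat_lit 370772) (nat_lit 59643399) (nat_lit 3042382) [(nat_lit 370772), (nat_lit 1350752), (nat_lit 0), (nat_lit 0)]) (PF.cons (PF.leaf (nat_lit 3164760) (nat_lit 385493) (nat_lit 59098951) (nat_lit 3089924) [(nat_lit 385493),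 (nat_lit 1382983), (nat_lit 0), (nat_lit 0)]) (PF.cons (PF.leaf (nat_lit 3465080) (nat_lit 399422) (nat_lit 58532534) (nat_lit 3135798) [(nat_lit 399422), (nat_lit 1414070), (nat_lit 0), (nat_lit 0)]) (PF.cons (PF.leaf (nat_lit 3778074) (nat_lit 412601) (nat_lit 57947148) (nat_lit 3179675) [(nat_lit 412601), (nat_lit 1443860), (nat_lit 0), (nat_lit 0)]) (PF.cons PF.nil (PF.cons PF.nil PF.nil))))))) (PF.cons (PF.cons (PF.leaf (nat_lit 3379251) (nat_lit 1415597) (nat_lit 58302665) (nat_lit 3143758) [(nat_lit 0), (nat_lit 1415597), (nat_lit 0), (nat_lit 0)]) (PF.cons (PF.leaf (nat_lit 3676534) (nat_lit 408495) (nat_lit 57738386)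
 (nat_lit 3185181) [(nat_lit 408495), (nat_lit 1444187), (nat_lit 0), (nat_lit 0)]) (PF.cons (PF.leaf (nat_lit 3987113) (nat_lit 421151) (nat_lit 57155204) (nat_lit 3224821) [(nat_lit 421151), (nat_lit 1471621), (nat_lit 0), (nat_lit 0)]) (PF.cons (PF.leaf (nat_lit 4308902) (nat_lit 433076) (nat_lit 56556061) (nat_lit 3262423) [(nat_lit 433076), (nat_lit 1497775), (nat_lit 0), (nat_lit 0)]) (PF.cons PF.nil PF.nil))))) (PF.cons (PF.cons (PF.leaf (nat_lit 4195391) (nat_lit 1497074) (nat_lit 56357873) (nat_lit 3265568) [(nat_lit 0), (nat_lit 1497074), (nat_lit 0), (nat_lit 0)]) (PF.cons (PF.leaf (nat_lit 4513400) (nat_lit 440279) (nat_lit 55763730) (nat_lit 3299326) [(nat_lit 440279), (nat_lit 1521095), (nat_lit 0), (nat_lit 0)]) (PF.cons PF.nil (PF.cons PF.nil PF.nil)))) (PF.cons (PF.cons (PF.leaf (nat_lit 5041092) (nat_lit 1563194) (nat_lit 54369087) (nat_lit 3360558) [(nat_lit 0), (nat_lit 1563194), (nat_lit 0), (nat_lit 0)]) (PF.cons PF.nil PF.nil)) (PF.cons PF.nil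 (PF.cons PF.nil PF.nil))))))))) (PF.cons (PF.cons (PF.cons (PF.leaf (nat_lit 1889316) (nat_lit 2837217) (nat_lit 61215517) (nat_lit 2837217) [(nat_lit 0), (nat_lit 0), (nat_lit 3056078), (nat_lit 0)]) (PF.cons (PF.leaf
 (nat_lit 2098054) (nat_lit 312252) (nat_lit 60806586) (nat_lit 2885048) [(nat_lit 312252), (nat_lit 0), (nat_lit 3104925), (nat_lit 0)]) (PF.cons (PF.leaf (nat_lit 2330275) (nat_lit 330863) (nat_lit 60357798) (nat_lit 2934162) [(nat_lit 330863), (nat_lit 0), (nat_lit 3155124), (nat_lit 0)]) (PF.cons (PF.leaf (nat_lit 2582005) (nat_lit 348156) (nat_lit 59875455) (nat_lit 2983404) [(nat_lit 348156), (nat_lit 0), (nat_lit 3205482), (nat_lit 0)]) (PF.cons (PF.leaf (nat_lit 2851035) (nat_lit 364348) (nat_lit 59364282) (nat_lit 3031970) [(nat_lit 364348), (nat_lit 0), (nat_lit 3255164), (nat_lit 0)]) (PF.cons (PF.leaf (nat_lit 3135561) (nat_lit 379574) (nat_lit 58828096) (nat_lit 3079282) [(nat_lit 379574), (nat_lit 0), (nat_lit 3303564), (nat_lit 0)])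 (PF.cons (PF.leaf (nat_lit 3434010) (nat_lit 393920) (nat_lit 58270135) (nat_lit 3124916) [(nat_lit 393920), (nat_lit 0), (nat_lit 3350238), (nat_lit 0)]) (PF.cons (PF.leaf (nat_lit 3744992) (nat_lit 407449) (nat_lit 57693240) (nat_lit 3168564) [(nat_lit 407449), (nat_lit 0), (nat_lit 3394861), (nat_lit 0)]) (PF.cons PF.nil (PF.cons PF.nil PF.nil)))))))))) (PF.cons (PF.cons (PF.leaf (nat_lit 2546612) (nat_lit 1309459) (nat_lit 59574209)
 (nat_lit 3001062) [(nat_lit 0), (nat_lit 1309459), (nat_lit 3224081), (nat_lit 0)]) (PF.cons (PF.leaf (nat_lit 2794736) (nat_lit 358865) (nat_lit 59093854) (nat_lit 3045341) [(nat_lit 358865), (nat_lit 1341430), (nat_lit 3269320), (nat_lit 0)]) (PF.cons (PF.leaf (nat_lit 3061653) (nat_lit 374602) (nat_lit 58583418) (nat_lit 3089229) [(nat_lit 374602), (nat_lit 1372794), (nat_lit 3314164), (nat_lit 0)]) (PF.cons (PF.leaf (nat_lit 3344366) (nat_lit 389318) (nat_lit 58047598) (nat_lit 3132086) [(nat_lit 389318), (nat_lit 1403224), (nat_lit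 3357946), (nat_lit 0)]) (PF.cons (PF.leaf (nat_lit 3641063) (nat_lit 403127) (nat_lit 57490142) (nat_lit 3173457) [(nat_lit 403127), (nat_lit 1432511), (nat_lit 3400191), (nat_lit 0)]) (PF.cons (PF.leaf (nat_lit 3950183) (nat_lit 416105) (nat_lit 56914192) (nat_lit 3213017) [(nat_lit 416105), (nat_lit 1460515), (nat_lit 3440559), (nat_lit 0)]) (PF.cons PF.nil (PF.cons PF.nil (PF.cons PF.nil PF.nil))))))))) (PF.cons (PF.cons (PF.leaf (nat_lit 3274731) (nat_lit 1405316) (nat_lit 57788383) (nat_lit 3141673) [(nat_lit 0), (nat_lit 1405316), (nat_lit 3368122), (nat_lit 0)]) (PF.cons (PF.leaf (nat_lit 3553586) (nat_lit 398050) (nat_lit 57256719) (nat_lit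
 3180214) [(nat_lit 398050), (nat_lit 1433200), (nat_lit 3407427), (nat_lit 0)]) (PF.cons (PF.leaf (nat_lit 3847418) (nat_lit 411408) (nat_lit 56702848) (nat_lit 3217493) [(nat_lit 411408), (nat_lit 1460116), (nat_lit 3445419), (nat_lit 0)]) (PF.cons (PF.leaf (nat_lit 4153807) (nat_lit 423905) (nat_lit 56130427) (nat_lit 3253153) [(nat_lit 423905), (nat_lit 1485892), (nat_lit 3481729), (nat_lit 0)]) (PF.cons (PF.leaf (nat_lit 4471274) (nat_lit 435612) (nat_lit 55542490) (nat_lit 3286945) [(nat_lit 435612), (nat_lit 1510416), (nat_lit 3516095), (nat_lit 0)]) (PF.cons PF.nil (PF.cons PF.nil PF.nil))))))) (PF.cons (PF.cons (PF.leaf (nat_lit 4054178) (nat_lit 1485474) (nat_lit 55908866) (nat_lit 3257305) [(nat_lit 0), (nat_lit 1485474), (nat_lit 3486215), (nat_lit 0)]) (PF.cons (PF.leaf (nat_lit 4356326) (nat_lit 430865) (nat_lit 55342728) (nat_lit 3289236) [(nat_lit 430865), (nat_lit 1509112), (nat_lit 3518645), (nat_lit 0)]) (PF.cons (PF.leaf (nat_lit 4670223) (nat_lit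 442140) (nat_lit 54760848) (nat_lit 3319486) [(nat_lit 442140), (nat_lit 1531625), (nat_lit 3549321), (nat_lit 0)]) (PF.cons PF.nil (PF.cons PF.nil PF.nil))))) (PF.cons (PF.cons (PF.leaf (nat_lit 4868223) (nat_lit
 1550902) (nat_lit 53978077) (nat_lit 3348393) [(nat_lit 0), (nat_lit 1550902), (nat_lit 3578732), (nat_lit 0)]) (PF.cons (PF.leaf (nat_lit 5187256) (nat_lit 458040) (nat_lit 53391498) (nat_lit 3373579) [(nat_lit 458040), (nat_lit 1570390), (nat_lit 3604131), (nat_lit 0)]) (PF.cons PF.nil (PF.cons PF.nil PF.nil)))) (PF.cons (PF.cons (PF.leaf (nat_lit 5702698) (nat_lit 1602825) (nat_lit 52030838) (nat_lit 3416537) [(nat_lit 0), (nat_lit 1602825), (nat_lit 3647307), (nat_lit 0)]) (PF.cons PF.nil PF.nil)) (PF.cons PF.nil (PF.cons PF.nil PF.nil)))))))) (PF.cons (PF.cons (PF.cons (PF.leaf (nat_lit 3188446) (nat_lit 3140498) (nat_lit 57232400) (nat_lit 3140498) [(nat_lit 0), (nat_lit 0), (nat_lit 3367957), (nat_lit 0)]) (PF.cons (PF.leaf (nat_lit 3446188) (nat_lit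 385136) (nat_lit 56740276) (nat_lit 3175804) [(nat_lit 385136), (nat_lit 0), (nat_lit 3403797), (nat_lit 0)]) (PF.cons (PF.leaf (nat_lit 3721348) (nat_lit 399696) (nat_lit 56220935) (nat_lit 3210489) [(nat_lit 399696), (nat_lit 0), (nat_lit 3438997), (nat_lit 0)]) (PF.cons (PF.leaf (nat_lit 4010928) (nat_lit 413130) (nat_lit 55679304) (nat_lit 3244048) [(nat_lit 413130), (nat_lit 0), (nat_lit 3473034), (nat_lit 0)]) (PF.cons
 (PF.leaf (nat_lit 4312989) (nat_lit 425590) (nat_lit 55119231) (nat_lit 3276132) [(nat_lit 425590), (nat_lit 0), (nat_lit 3505543), (nat_lit 0)]) (PF.cons (PF.leaf (nat_lit 4626030) (nat_lit 437180) (nat_lit 54543870) (nat_lit 3306498) [(nat_lit 437180), (nat_lit 0), (nat_lit 3536270), (nat_lit 0)]) (PF.cons PF.nil PF.nil))))))) (PF.cons (PF.cons (PF.leaf (nat_lit 3928060) (nat_lit 1472880) (nat_lit 55428902) (nat_lit 3249441) [(nat_lit 0), (nat_lit 1472880), (nat_lit 3478794), (nat_lit 0)]) (PF.cons (PF.leaf (nat_lit 4212547) (nat_lit 419796)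 (nat_lit 54895352) (nat_lit 3279359) [(nat_lit 419796), (nat_lit 1496191), (nat_lit 3509056), (nat_lit 0)]) (PF.cons (PF.leaf (nat_lit 4510586) (nat_lit 431898) (nat_lit 54342520) (nat_lit 3307999) [(nat_lit 431898), (nat_lit 1518512), (nat_lit 3537991), (nat_lit 0)]) (PF.cons (PF.leaf (nat_lit 4819846) (nat_lit 443095) (nat_lit 53774079) (nat_lit 3335092) [(nat_lit 443095), (nat_lit 1539717), (nat_lit 3565317), (nat_lit 0)]) (PF.cons PF.nil PF.nil))))) (PF.cons (PF.cons (PF.leaf (nat_lit 4708289) (nat_lit 1537832) (nat_lit 53563301) (nat_lit 3336348) [(nat_lit 0), (nat_lit 1537832), (nat_lit 3566749), (nat_lit 0)]) (PF.cons (PF.leaf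
 (nat_lit 5012395) (nat_lit 448269) (nat_lit 53004114) (nat_lit 3360326) [(nat_lit 448269), (nat_lit 1557211), (nat_lit 3590839), (nat_lit 0)]) (PF.cons (PF.leaf (nat_lit 5326960) (nat_lit 458307) (nat_lit 52431839) (nat_lit 3382737) [(nat_lit 458307), (nat_lit 1575512), (nat_lit 3613298), (nat_lit 0)]) (PF.cons PF.nil PF.nil)))) (PF.cons (PF.cons (PF.leaf (nat_lit 5514116) (nat_lit 1589677) (nat_lit 51672565) (nat_lit 3402015) [(nat_lit 0), (nat_lit 1589677), (nat_lit 3632599), (nat_lit 0)]) (PF.cons (PF.leaf (nat_lit 5831976) (nat_lit 471431) (nat_lit 51100300) (nat_lit 3420080) [(nat_lit 471431), (nat_lit 1605308), (nat_lit 3650536), (nat_lit 0)]) PF.nil)) (PF.cons PF.nil (PF.cons PF.nil PF.nil)))))) (PF.cons (PF.cons (PF.cons (PF.leaf (nat_lit 4563696) (nat_lit 3324480) (nat_lit 53119300) (nat_lit 3324480) [(nat_lit 0), (nat_lit 0), (nat_lit 3555010), (nat_lit 0)]) (PF.cons (PF.leaf (nat_lit 4850973) (nat_lit 436857) (nat_lit 52591910) (nat_lit 3347110) [(nat_lit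 436857), (nat_lit 0), (nat_lit 3577644), (nat_lit 0)]) (PF.cons (PF.leaf (nat_lit 5150608) (nat_lit 447811) (nat_lit 52047790) (nat_lit 3368483) [(nat_lit 447811), (nat_lit 0), (nat_lit 3598972), (nat_lit 0)]) (PF.cons
 (PF.leaf (nat_lit 5460252) (nat_lit 457836) (nat_lit 51490548) (nat_lit 3388399) [(nat_lit 457836), (nat_lit 0), (nat_lit 3618785), (nat_lit 0)]) (PF.cons PF.nil PF.nil))))) (PF.cons (PF.cons (PF.leaf (nat_lit 5338509) (nat_lit 1575737) (nat_lit 51291912) (nat_lit 3387460) [(nat_lit 0), (nat_lit 1575737), (nat_lit 3617900), (nat_lit 0)]) (PF.cons (PF.leaf (nat_lit 5642384) (nat_lit 461504) (nat_lit 50745953) (nat_lit 3404789) [(nat_lit 461504), (nat_lit 1591465), (nat_lit 3635033), (nat_lit 0)]) (PF.cons (PF.leaf (nat_lit 5955604) (nat_lit 470439) (nat_lit 50189109) (nat_lit 3420672) [(nat_lit 470439), (nat_lit 1606170), (nat_lit 3650660), (nat_lit 0)]) (PF.cons PF.nil PF.nil)))) (PF.cons (PF.cons (PF.leaf (nat_lit 6131794) (nat_lit 1616112) (nat_lit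 49459132) (nat_lit 3432137) [(nat_lit 0), (nat_lit 1616112), (nat_lit 3661772), (nat_lit 0)]) (PF.cons PF.nil PF.nil)) (PF.cons PF.nil (PF.cons PF.nil PF.nil))))) (PF.cons (PF.cons (PF.cons (PF.leaf (nat_lit 5943233) (nat_lit 3416005) (nat_lit 49111385) (nat_lit 3416005) [(nat_lit 0), (nat_lit 0), (nat_lit 3645355), (nat_lit 0)]) (PF.cons (PF.leaf (nat_lit 6245196) (nat_lit 471250) (nat_lit 48582942) (nat_lit 3427798) [(nat_lit
 471250), (nat_lit 0), (nat_lit 3656705), (nat_lit 0)]) (PF.cons (PF.leaf (nat_lit 6555587) (nat_lit 479206) (nat_lit 48045420) (nat_lit 3438266) [(nat_lit 479206), (nat_lit 0), (nat_lit 3666677), (nat_lit 0)]) (PF.cons PF.nil PF.nil)))) (PF.cons (PF.cons (PF.leaf (nat_lit 6721010) (nat_lit 1632460) (nat_lit 47348191) (nat_lit 3443418) [(nat_lit 0), (nat_lit 1632460), (nat_lit 3671185), (nat_lit 0)]) (PF.cons PF.nil PF.nil)) (PF.cons PF.nil PF.nil))) (PF.cons (PF.cons (PF.cons (PF.leaf (nat_lit 7282265) (nat_lit 3439675) (nat_lit 45344759)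 (nat_lit 3439675) [(nat_lit 0), (nat_lit 0), (nat_lit 3664875), (nat_lit 0)]) (PF.cons PF.nil PF.nil)) (PF.cons PF.nil PF.nil)) (PF.cons PF.nil (PF.cons PF.nil PF.nil)))))))) (PF.cons (PF.cons (PF.cons (PF.cons (PF.leaf (nat_lit 3098787) (nat_lit 3057631) (nat_lit 54491262) (nat_lit 3057631) [(nat_lit 0), (nat_lit 0), (nat_lit 0), (nat_lit 9559918)]) (PF.cons (PF.leaf (nat_lit 3314405) (nat_lit 345951) (nat_lit 54099038) (nat_lit 3089388) [(nat_lit 345951), (nat_lit 0), (nat_lit 0), (nat_lit 9574434)]) (PF.cons (PF.leaf (nat_lit 3551595) (nat_lit 363462) (nat_lit 53672561) (nat_lit 3121412) [(nat_lit 363462), (nat_lit 0), (nat_lit 0), (nat_lit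
 9587914)]) (PF.cons (PF.leaf (nat_lit 3806167) (nat_lit 379246) (nat_lit 53218414) (nat_lit 3152936) [(nat_lit 379246), (nat_lit 0), (nat_lit 0), (nat_lit 9599722)]) (PF.cons (PF.leaf (nat_lit 4075653) (nat_lit 393628) (nat_lit 52741456) (nat_lit 3183452) [(nat_lit 393628), (nat_lit 0), (nat_lit 0), (nat_lit 9609390)]) (PF.cons (PF.leaf (nat_lit 4358093) (nat_lit 406821) (nat_lit 52245515) (nat_lit 3212614) [(nat_lit 406821), (nat_lit 0), (nat_lit 0), (nat_lit 9616574)]) (PF.cons (PF.leaf (nat_lit 4651885) (nat_lit 418978) (nat_lit 51733734) (nat_lit 3240187) [(nat_lit 418978), (nat_lit 0), (nat_lit 0), (nat_lit 9621019)]) (PF.cons (PF.leaf (nat_lit 4955615) (nat_lit 430210) (nat_lit 51208777) (nat_lit 3266013) [(nat_lit 430210), (nat_lit 0), (nat_lit 0), (nat_lit 9622547)]) (PF.cons (PF.leaf (nat_lit 5268050) (nat_lit 440604) (nat_lit 50672947) (nat_lit 3289990) [(nat_lit 440604), (nat_lit 0), (nat_lit 0), (nat_lit 9621038)]) (PF.cons PF.nil PF.nil)))))))))) (PF.cons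 (PF.cons (PF.leaf (nat_lit 3751185) (nat_lit 1404091) (nat_lit 52945382) (nat_lit 3159974) [(nat_lit 0), (nat_lit 1404091), (nat_lit 0), (nat_lit 9599364)]) (PF.cons (PF.leaf (nat_lit 3999947) (nat_lit 386317)
 (nat_lit 52499042) (nat_lit 3187808) [(nat_lit 386317), (nat_lit 1428572), (nat_lit 0), (nat_lit 9607072)]) (PF.cons (PF.leaf (nat_lit 4265162) (nat_lit 400316) (nat_lit 52028503) (nat_lit 3214890) [(nat_lit 400316), (nat_lit 1452105), (nat_lit 0), (nat_lit 9612680)]) (PF.cons (PF.leaf (nat_lit 4543876) (nat_lit 413085) (nat_lit 51538365) (nat_lit 3240827) [(nat_lit 413085), (nat_lit 1474503), (nat_lit 0), (nat_lit 9615859)]) (PF.cons (PF.leaf (nat_lit 4834163) (nat_lit 424802) (nat_lit 51032207) (nat_lit 3265355) [(nat_lit 424802), (nat_lit 1495666), (nat_lit 0), (nat_lit 9616373)]) (PF.cons (PF.leaf (nat_lit 5134530) (nat_lit 435591) (nat_lit 50512947) (nat_lit 3288299) [(nat_lit 435591), (nat_lit 1515543), (nat_lit 0), (nat_lit 9614064)]) (PF.cons (PF.leaf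 (nat_lit 5443622) (nat_lit 445547) (nat_lit 49983033) (nat_lit 3309545) [(nat_lit 445547), (nat_lit 1534117), (nat_lit 0), (nat_lit 9608831)]) (PF.cons (PF.leaf (nat_lit 5760293) (nat_lit 454743) (nat_lit 49444572) (nat_lit 3329026) [(nat_lit 454743), (nat_lit 1551390), (nat_lit 0), (nat_lit 9600619)]) (PF.cons PF.nil PF.nil))))))))) (PF.cons (PF.cons (PF.leaf (nat_lit 4456291) (nat_lit 1472715) (nat_lit 51310008) (nat_lit
 3242912) [(nat_lit 0), (nat_lit 1472715), (nat_lit 0), (nat_lit 9610461)]) (PF.cons (PF.leaf (nat_lit 4729555) (nat_lit 418489) (nat_lit 50828499) (nat_lit 3265785) [(nat_lit 418489), (nat_lit 1493071), (nat_lit 0), (nat_lit 9609895)]) (PF.cons (PF.leaf (nat_lit 5015503) (nat_lit 429864) (nat_lit 50330162) (nat_lit 3287438) [(nat_lit 429864), (nat_lit 1512369), (nat_lit 0), (nat_lit 9606743)]) (PF.cons (PF.leaf (nat_lit 5311823) (nat_lit 440287) (nat_lit 49818363) (nat_lit 3307670) [(nat_lit 440287), (nat_lit 1530525), (nat_lit 0), (nat_lit 9600864)])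 (PF.cons (PF.leaf (nat_lit 5617045) (nat_lit 449867) (nat_lit 49295816) (nat_lit 3326353) [(nat_lit 449867), (nat_lit 1547500), (nat_lit 0), (nat_lit 9592171)]) (PF.cons (PF.leaf (nat_lit 5929923) (nat_lit 458687) (nat_lit 48764784) (nat_lit 3343408) [(nat_lit 458687), (nat_lit 1563279), (nat_lit 0), (nat_lit 9580624)]) (PF.cons PF.nil PF.nil))))))) (PF.cons (PF.cons (PF.leaf (nat_lit 5197018) (nat_lit 1527418) (nat_lit 49627582) (nat_lit 3306642) [(nat_lit 0), (nat_lit 1527418), (nat_lit 0), (nat_lit 9592330)]) (PF.cons (PF.leaf (nat_lit 5488056) (nat_lit 444308) (nat_lit 49125176) (nat_lit 3324318) [(nat_lit 444308), (nat_lit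
 1543948), (nat_lit 0), (nat_lit 9583163)]) (PF.cons (PF.leaf (nat_lit 5788820) (nat_lit 453580) (nat_lit 48611526) (nat_lit 3340591) [(nat_lit 453580), (nat_lit 1559415), (nat_lit 0), (nat_lit 9571286)]) (PF.cons (PF.leaf (nat_lit 6097451) (nat_lit 462078) (nat_lit 48089162) (nat_lit 3355371) [(nat_lit 462078), (nat_lit 1573790), (nat_lit 0), (nat_lit 9556672)]) (PF.cons (PF.leaf (nat_lit 6412767) (nat_lit 469878) (nat_lit 47560176) (nat_lit 3368605) [(nat_lit 469878), (nat_lit 1587063), (nat_lit 0), (nat_lit 9539326)]) PF.nil))))) (PF.cons (PF.cons (PF.leaf (nat_lit 5959840) (nat_lit 1569964) (nat_lit 47930151) (nat_lit 3352422) [(nat_lit 0), (nat_lit 1569964), (nat_lit 0), (nat_lit 9546381)]) (PF.cons (PF.leaf (nat_lit 6263243) (nat_lit 464928) (nat_lit 47417788) (nat_lit 3365068) [(nat_lit 464928), (nat_lit 1583013), (nat_lit 0), (nat_lit 9528974)]) (PF.cons (PF.leaf (nat_lit 6574003) (nat_lit 472452) (nat_lit 46898467) (nat_lit 3376290) [(nat_lit 472452), (nat_lit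 1595049), (nat_lit 0), (nat_lit 9508951)]) (PF.cons PF.nil PF.nil)))) (PF.cons (PF.cons (PF.leaf (nat_lit 6733927) (nat_lit 1601903) (nat_lit 46242026) (nat_lit 3381980) [(nat_lit 0), (nat_lit 1601903), (nat_lit 0),
 (nat_lit 9475285)]) (PF.cons (PF.leaf (nat_lit 7045330) (nat_lit 481183) (nat_lit 45728086) (nat_lit 3389975) [(nat_lit 481183), (nat_lit 1611836), (nat_lit 0), (nat_lit 9450386)]) PF.nil)) (PF.cons PF.nil (PF.cons PF.nil PF.nil)))))))) (PF.cons (PF.cons (PF.cons (PF.leaf (nat_lit 4338852) (nat_lit 3229525) (nat_lit 50838764) (nat_lit 3229525) [(nat_lit 0), (nat_lit 0), (nat_lit 3457168), (nat_lit 9583354)]) (PF.cons (PF.leaf (nat_lit 4592405) (nat_lit 403755) (nat_lit 50394296) (nat_lit 3250989) [(nat_lit 403755), (nat_lit 0), (nat_lit 3478372), (nat_lit 9581398)]) (PF.cons (PF.leaf (nat_lit 4861305) (nat_lit 416644) (nat_lit 49928029) (nat_lit 3271622) [(nat_lit 416644), (nat_lit 0), (nat_lit 3498725), (nat_lit 9577144)]) (PF.cons (PF.leaf (nat_lit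 5142564) (nat_lit 428268) (nat_lit 49444550) (nat_lit 3291122) [(nat_lit 428268), (nat_lit 0), (nat_lit 3517919), (nat_lit 9570415)]) (PF.cons (PF.leaf (nat_lit 5434261) (nat_lit 438826) (nat_lit 48947368) (nat_lit 3309291) [(nat_lit 438826), (nat_lit 0), (nat_lit 3535750), (nat_lit 9561094)]) (PF.cons (PF.leaf (nat_lit 5734891) (nat_lit 448461) (nat_lit 48439294) (nat_lit 3326005) [(nat_lit 448461), (nat_lit 0), (nat_lit 3552087),
 (nat_lit 9549116)]) (PF.cons (PF.leaf (nat_lit 6043178) (nat_lit 457278) (nat_lit 47922653) (nat_lit 3341184) [(nat_lit 457278), (nat_lit 0), (nat_lit 3566849), (nat_lit 9534452)]) (PF.cons PF.nil (PF.cons PF.nil PF.nil))))))))) (PF.cons (PF.cons (PF.leaf (nat_lit 5044896) (nat_lit 1510923) (nat_lit 49228402) (nat_lit 3290776) [(nat_lit 0), (nat_lit 1510923), (nat_lit 3517628), (nat_lit 9561081)]) (PF.cons (PF.leaf (nat_lit 5319995) (nat_lit 432137) (nat_lit 48755570) (nat_lit 3307736) [(nat_lit 432137), (nat_lit 1527786), (nat_lit 3534223),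 (nat_lit 9551358)]) (PF.cons (PF.leaf (nat_lit 5606729) (nat_lit 442446) (nat_lit 48268044) (nat_lit 3323524) [(nat_lit 442446), (nat_lit 1543632), (nat_lit 3549611), (nat_lit 9539106)]) (PF.cons (PF.leaf (nat_lit 5902794) (nat_lit 451800) (nat_lit 47769088) (nat_lit 3337994) [(nat_lit 451800), (nat_lit 1558406), (nat_lit 3563642), (nat_lit 9524280)]) (PF.cons (PF.leaf (nat_lit 6206760) (nat_lit 460320) (nat_lit 47261295) (nat_lit 3351055) [(nat_lit 460320), (nat_lit 1572089), (nat_lit 3576223), (nat_lit 9506869)]) (PF.cons (PF.leaf (nat_lit 6517418) (nat_lit 468097) (nat_lit 46746796) (nat_lit 3362658) [(nat_lit 468097), (nat_lit 1584679),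
 (nat_lit 3587301), (nat_lit 9486887)]) (PF.cons PF.nil PF.nil))))))) (PF.cons (PF.cons (PF.leaf (nat_lit 5779369) (nat_lit 1554512) (nat_lit 47590267) (nat_lit 3335377) [(nat_lit 0), (nat_lit 1554512), (nat_lit 3560993), (nat_lit 9513148)]) (PF.cons (PF.leaf (nat_lit 6069681) (nat_lit 454547) (nat_lit 47102072) (nat_lit 3347739) [(nat_lit 454547), (nat_lit 1567921), (nat_lit 3572858), (nat_lit 9495753)]) (PF.cons (PF.leaf (nat_lit 6368772) (nat_lit 462833) (nat_lit 46604399) (nat_lit 3358816) [(nat_lit 462833), (nat_lit 1580339), (nat_lit 3583397), (nat_lit 9475854)]) (PF.cons (PF.leaf (nat_lit 6674842) (nat_lit 470359) (nat_lit 46099650) (nat_lit 3368548) [(nat_lit 470359), (nat_lit 1591752), (nat_lit 3592547), (nat_lit 9453483)]) (PF.cons PF.nil PF.nil))))) (PF.cons (PF.cons (PF.leaf (nat_lit 6530159) (nat_lit 1587453) (nat_lit 45951774) (nat_lit 3364595) [(nat_lit 0), (nat_lit 1587453), (nat_lit 3588506), (nat_lit 9441574)]) (PF.cons (PF.leaf (nat_lit 6830717)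 (nat_lit 472148) (nat_lit 45457883) (nat_lit 3372579) [(nat_lit 472148), (nat_lit 1597758), (nat_lit 3595857), (nat_lit 9417068)]) (PF.cons (PF.leaf (nat_lit 7137831) (nat_lit 478783) (nat_lit 44958420) (nat_lit 3379289)
 [(nat_lit 478783), (nat_lit 1607137), (nat_lit 3601892), (nat_lit 9390229)]) (PF.cons PF.nil PF.nil)))) (PF.cons (PF.cons (PF.leaf (nat_lit 7287788) (nat_lit 1611171) (nat_lit 44333131) (nat_lit 3380041) [(nat_lit 0), (nat_lit 1611171), (nat_lit 3601804), (nat_lit 9349150)]) (PF.cons PF.nil PF.nil)) (PF.cons PF.nil PF.nil)))))) (PF.cons (PF.cons (PF.cons (PF.leaf (nat_lit 5614334) (nat_lit 3318117) (nat_lit 47225075) (nat_lit 3318117) [(nat_lit 0), (nat_lit 0), (nat_lit 3543525), (nat_lit 9478568)]) (PF.cons (PF.leaf (nat_lit 5889579) (nat_lit 442494) (nat_lit 46764883) (nat_lit 3330126) [(nat_lit 442494), (nat_lit 0), (nat_lit 3554987), (nat_lit 9461333)]) (PF.cons (PF.leaf (nat_lit 6175518) (nat_lit 451848) (nat_lit 46291820) (nat_lit 3341020)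 [(nat_lit 451848), (nat_lit 0), (nat_lit 3565298), (nat_lit 9441677)]) (PF.cons (PF.leaf (nat_lit 6469904) (nat_lit 460252) (nat_lit 45809020) (nat_lit 3350696) [(nat_lit 460252), (nat_lit 0), (nat_lit 3574355), (nat_lit 9419628)]) (PF.cons (PF.leaf (nat_lit 6771330) (nat_lit 467837) (nat_lit 45318939) (nat_lit 3359095) [(nat_lit 467837), (nat_lit 0), (nat_lit 3582097), (nat_lit 9395230)]) (PF.cons PF.nil (PF.cons PF.nil PF.nil)))))))
 (PF.cons (PF.cons (PF.leaf (nat_lit 6339212) (nat_lit 1572096) (nat_lit 45642201) (nat_lit 3346906) [(nat_lit 0), (nat_lit 1572096), (nat_lit 3570471), (nat_lit 9406664)]) (PF.cons (PF.leaf (nat_lit 6627535) (nat_lit 461937) (nat_lit 45170988) (nat_lit 3354852) [(nat_lit 461937), (nat_lit 1582851), (nat_lit 3577755), (nat_lit 9382671)]) (PF.cons (PF.leaf (nat_lit 6923819) (nat_lit 469352) (nat_lit 44691752) (nat_lit 3361625) [(nat_lit 469352), (nat_lit 1592684), (nat_lit 3583828), (nat_lit 9356388)]) (PF.cons (PF.leaf (nat_lit 7226317)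 (nat_lit 476025) (nat_lit 44206753) (nat_lit 3367188) [(nat_lit 476025), (nat_lit 1601595), (nat_lit 3588653), (nat_lit 9327889)]) (PF.cons PF.nil PF.nil))))) (PF.cons (PF.cons (PF.leaf (nat_lit 7075822) (nat_lit 1596979) (nat_lit 44069687) (nat_lit 3362523) [(nat_lit 0), (nat_lit 1596979), (nat_lit 3583860), (nat_lit 9314919)]) (PF.cons (PF.leaf (nat_lit 7372648) (nat_lit 476935) (nat_lit 43595990) (nat_lit 3366662) [(nat_lit 476935), (nat_lit 1604966), (nat_lit 3587224), (nat_lit 9284843)]) (PF.cons (PF.leaf (nat_lit 7675330) (nat_lit 482794) (nat_lit 43117822) (nat_lit 3369663) [(nat_lit 482794), (nat_lit 1612106), (nat_lit 3589413), (nat_lit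
 9252698)]) (PF.cons PF.nil PF.nil)))) (PF.cons (PF.cons (PF.leaf (nat_lit 7815818) (nat_lit 1613837) (nat_lit 42524324) (nat_lit 3366462) [(nat_lit 0), (nat_lit 1613837), (nat_lit 3585217), (nat_lit 9206078)]) (PF.cons PF.nil PF.nil)) (PF.cons PF.nil PF.nil))))) (PF.cons (PF.cons (PF.cons (PF.leaf (nat_lit 6876358) (nat_lit 3344624) (nat_lit 43788159) (nat_lit 3344624) [(nat_lit 0), (nat_lit 0), (nat_lit 3565553), (nat_lit 9279368)]) (PF.cons (PF.leaf (nat_lit 7161722) (nat_lit 466955) (nat_lit 43335623) (nat_lit 3348911) [(nat_lit 466955), (nat_lit 0), (nat_lit 3569049), (nat_lit 9250173)]) (PF.cons (PF.leaf (nat_lit 7454358) (nat_lit 473602) (nat_lit 42876257) (nat_lit 3352128) [(nat_lit 473602), (nat_lit 0), (nat_lit 3571441), (nat_lit 9218896)]) (PF.cons (PF.leaf (nat_lit 7752581) (nat_lit 479528) (nat_lit 42412183) (nat_lit 3354259) [(nat_lit 479528), (nat_lit 0), (nat_lit 3572713), (nat_lit 9185643)]) (PF.cons PF.nil PF.nil))))) (PF.cons (PF.cons (PF.leaf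 (nat_lit 7597369) (nat_lit 1600027) (nat_lit 42285418) (nat_lit 3349108) [(nat_lit 0), (nat_lit 1600027), (nat_lit 3567406), (nat_lit 9172039)]) (PF.cons (PF.leaf (nat_lit 7889821) (nat_lit 479710) (nat_lit 41832783)
 (nat_lit 3350086) [(nat_lit 479710), (nat_lit 1606057), (nat_lit 3567500), (nat_lit 9137674)]) (PF.cons PF.nil (PF.cons PF.nil PF.nil)))) (PF.cons (PF.cons (PF.leaf (nat_lit 8319122) (nat_lit 1611170) (nat_lit 40814657) (nat_lit 3343703) [(nat_lit 0), (nat_lit 1611170), (nat_lit 3559091), (nat_lit 9050839)]) (PF.cons PF.nil PF.nil)) PF.nil))) (PF.cons (PF.cons (PF.cons (PF.leaf (nat_lit 8095671) (nat_lit 3326718) (nat_lit 40598062) (nat_lit 3326718) [(nat_lit 0), (nat_lit 0), (nat_lit 3541635), (nat_lit 9017488)]) (PF.cons (PF.leaf (nat_lit 8383294) (nat_lit 480825) (nat_lit 40166736) (nat_lit 3325109) [(nat_lit 480825), (nat_lit 0), (nat_lit 3539060), (nat_lit 8979898)]) PF.nil)) (PF.cons PF.nil PF.nil)) (PF.cons PF.nil PF.nil)))))) (PF.cons (PF.cons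 (PF.cons (PF.cons (PF.leaf (nat_lit 5326271) (nat_lit 3214427) (nat_lit 45385975) (nat_lit 3214427) [(nat_lit 0), (nat_lit 0), (nat_lit 0), (nat_lit 9254205)]) (PF.cons (PF.leaf (nat_lit 5571777) (nat_lit 408802) (nat_lit 44996480) (nat_lit 3227248) [(nat_lit 408802), (nat_lit 0), (nat_lit 0), (nat_lit 9238140)]) (PF.cons (PF.leaf (nat_lit 5831110) (nat_lit 420354) (nat_lit 44589243) (nat_lit 3239176) [(nat_lit 420354), (nat_lit 0),
 (nat_lit 0), (nat_lit 9219842)]) (PF.cons (PF.leaf (nat_lit 6101248) (nat_lit 430587) (nat_lit 44168319) (nat_lit 3250033) [(nat_lit 430587), (nat_lit 0), (nat_lit 0), (nat_lit 9199348)]) (PF.cons (PF.leaf (nat_lit 6380402) (nat_lit 439730) (nat_lit 43736773) (nat_lit 3259715) [(nat_lit 439730), (nat_lit 0), (nat_lit 0), (nat_lit 9176701)]) (PF.cons (PF.leaf (nat_lit 6667124) (nat_lit 447944) (nat_lit 43297025) (nat_lit 3268163) [(nat_lit 447944), (nat_lit 0), (nat_lit 0), (nat_lit 9151950)]) (PF.cons (PF.leaf (nat_lit 6960221) (nat_lit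 455351) (nat_lit 42851043) (nat_lit 3275352) [(nat_lit 455351), (nat_lit 0), (nat_lit 0), (nat_lit 9125153)]) (PF.cons PF.nil (PF.cons PF.nil PF.nil))))))))) (PF.cons (PF.cons (PF.leaf (nat_lit 5994908) (nat_lit 1506390) (nat_lit 43985433) (nat_lit 3246639) [(nat_lit 0), (nat_lit 1506390), (nat_lit 0), (nat_lit 9185174)]) (PF.cons (PF.leaf (nat_lit 6258489) (nat_lit 432651) (nat_lit 43575301) (nat_lit 3255695) [(nat_lit 432651), (nat_lit 1518946), (nat_lit 0), (nat_lit 9163109)]) (PF.cons (PF.leaf (nat_lit 6532319) (nat_lit 441630) (nat_lit 43153544) (nat_lit 3263700) [(nat_lit 441630), (nat_lit 1530515), (nat_lit 0), (nat_lit 9138896)]) (PF.cons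
 (PF.leaf (nat_lit 6814206) (nat_lit 449648) (nat_lit 42722976) (nat_lit 3270580) [(nat_lit 449648), (nat_lit 1541086), (nat_lit 0), (nat_lit 9112612)]) (PF.cons (PF.leaf (nat_lit 7102797) (nat_lit 456843) (nat_lit 42285801) (nat_lit 3276298) [(nat_lit 456843), (nat_lit 1550670), (nat_lit 0), (nat_lit 9084333)]) (PF.cons (PF.leaf (nat_lit 7396976) (nat_lit 463319) (nat_lit 41843804) (nat_lit 3280844) [(nat_lit 463319), (nat_lit 1559292), (nat_lit 0), (nat_lit 9054137)]) (PF.cons PF.nil PF.nil))))))) (PF.cons (PF.cons (PF.leaf (nat_lit 6684683) (nat_lit 1536195) (nat_lit 42573148) (nat_lit 3266035) [(nat_lit 0), (nat_lit 1536195), (nat_lit 0), (nat_lit 9098619)]) (PF.cons (PF.leaf (nat_lit 6960658) (nat_lit 450871) (nat_lit 42152974) (nat_lit 3271458) [(nat_lit 450871), (nat_lit 1545726), (nat_lit 0), (nat_lit 9071028)]) (PF.cons (PF.leaf (nat_lit 7244260) (nat_lit 457914) (nat_lit 41725514) (nat_lit 3275814) [(nat_lit 457914), (nat_lit 1554358), (nat_lit 0), (nat_lit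 9041469)]) (PF.cons (PF.leaf (nat_lit 7533816) (nat_lit 464219) (nat_lit 41292791) (nat_lit 3279082) [(nat_lit 464219), (nat_lit 1562102), (nat_lit 0), (nat_lit 9010037)]) (PF.cons (PF.leaf (nat_lit 7828260) (nat_lit
 469876) (nat_lit 40856427) (nat_lit 3281263) [(nat_lit 469876), (nat_lit 1568980), (nat_lit 0), (nat_lit 8976827)]) PF.nil))))) (PF.cons (PF.cons (PF.leaf (nat_lit 7385535) (nat_lit 1557229) (nat_lit 41169848) (nat_lit 3273986) [(nat_lit 0), (nat_lit 1557229), (nat_lit 0), (nat_lit 8996645)]) (PF.cons (PF.leaf (nat_lit 7669608) (nat_lit 464745) (nat_lit 40747194) (nat_lit 3276073) [(nat_lit 464745), (nat_lit 1564152), (nat_lit 0), (nat_lit 8964170)]) (PF.cons (PF.leaf (nat_lit 7959355) (nat_lit 470265) (nat_lit 40320409) (nat_lit 3277146) [(nat_lit 470265), (nat_lit 1570271), (nat_lit 0), (nat_lit 8929955)]) (PF.cons PF.nil PF.nil)))) (PF.cons (PF.cons (PF.leaf (nat_lit 8089864) (nat_lit 1570902) (nat_lit 39790126) (nat_lit 3271941) [(nat_lit 0), (nat_lit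 1570902), (nat_lit 0), (nat_lit 8881568)]) (PF.cons (PF.leaf (nat_lit 8378751) (nat_lit 475142) (nat_lit 39370449) (nat_lit 3271052) [(nat_lit 475142), (nat_lit 1575581), (nat_lit 0), (nat_lit 8844920)]) PF.nil)) (PF.cons PF.nil PF.nil)))))) (PF.cons (PF.cons (PF.cons (PF.leaf (nat_lit 6508715) (nat_lit 3247050) (nat_lit 42275082) (nat_lit 3247050) [(nat_lit 0), (nat_lit 0), (nat_lit 3463933), (nat_lit 9061373)]) (PF.cons
 (PF.leaf (nat_lit 6771129) (nat_lit 438833) (nat_lit 41878778) (nat_lit 3252655) [(nat_lit 438833), (nat_lit 0), (nat_lit 3468719), (nat_lit 9034913)]) (PF.cons (PF.leaf (nat_lit 7043071) (nat_lit 447010) (nat_lit 41472182) (nat_lit 3257275) [(nat_lit 447010), (nat_lit 0), (nat_lit 3472496), (nat_lit 9006419)]) (PF.cons (PF.leaf (nat_lit 7322371) (nat_lit 454247) (nat_lit 41057966) (nat_lit 3260865) [(nat_lit 454247), (nat_lit 0), (nat_lit 3475219), (nat_lit 8976010)]) (PF.cons (PF.leaf (nat_lit 7607713) (nat_lit 460686) (nat_lit 40638204) (nat_lit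 3263407) [(nat_lit 460686), (nat_lit 0), (nat_lit 3476870), (nat_lit 8943791)]) (PF.cons (PF.leaf (nat_lit 7898014) (nat_lit 466434) (nat_lit 40214558) (nat_lit 3264904) [(nat_lit 466434), (nat_lit 0), (nat_lit 3477453), (nat_lit 8909862)]) (PF.cons PF.nil PF.nil))))))) (PF.cons (PF.cons (PF.leaf (nat_lit 7187574) (nat_lit 1541815) (nat_lit 40918716) (nat_lit 3255724) [(nat_lit 0), (nat_lit 1541815), (nat_lit 3469920), (nat_lit 8961318)]) (PF.cons (PF.leaf (nat_lit 7460814) (nat_lit 454701) (nat_lit 40515161) (nat_lit 3258132) [(nat_lit 454701), (nat_lit 1549364), (nat_lit 3471446), (nat_lit 8930003)]) (PF.cons (PF.leaf (nat_lit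
 7741078) (nat_lit 461042) (nat_lit 40105326) (nat_lit 3259568) [(nat_lit 461042), (nat_lit 1556084), (nat_lit 3471975), (nat_lit 8896886)]) (PF.cons (PF.leaf (nat_lit 8026680) (nat_lit 466668) (nat_lit 39691107) (nat_lit 3260027) [(nat_lit 466668), (nat_lit 1561993), (nat_lit 3471503), (nat_lit 8862087)]) (PF.cons PF.nil PF.nil))))) (PF.cons (PF.cons (PF.leaf (nat_lit 7874407) (nat_lit 1557023) (nat_lit 39577369) (nat_lit 3254623) [(nat_lit 0), (nat_lit 1557023), (nat_lit 3465936), (nat_lit 8848418)]) (PF.cons (PF.leaf (nat_lit 8154493) (nat_lit 466572) (nat_lit 39173261) (nat_lit 3254128) [(nat_lit 466572), (nat_lit 1562251), (nat_lit 3464498), (nat_lit 8812923)]) (PF.cons (PF.leaf (nat_lit 8439749) (nat_lit 471482) (nat_lit 38765746) (nat_lit 3252726) [(nat_lit 471482), (nat_lit 1566747), (nat_lit 3462127), (nat_lit 8775875)]) (PF.cons PF.nil PF.nil)))) (PF.cons (PF.cons (PF.leaf (nat_lit 8562438) (nat_lit 1565827) (nat_lit 38263266) (nat_lit 3245045) [(nat_lit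 0), (nat_lit 1565827), (nat_lit 3453294), (nat_lit 8724861)]) (PF.cons PF.nil PF.nil)) (PF.cons PF.nil PF.nil))))) (PF.cons (PF.cons (PF.cons (PF.leaf (nat_lit 7670822) (nat_lit 3236790) (nat_lit 39349066) (nat_lit
 3236790) [(nat_lit 0), (nat_lit 0), (nat_lit 3447675), (nat_lit 8813802)]) (PF.cons (PF.leaf (nat_lit 7940735) (nat_lit 456871) (nat_lit 38962670) (nat_lit 3236707) [(nat_lit 456871), (nat_lit 0), (nat_lit 3446648), (nat_lit 8779633)]) (PF.cons (PF.leaf (nat_lit 8217166) (nat_lit 462592) (nat_lit 38570824) (nat_lit 3235739) [(nat_lit 462592), (nat_lit 0), (nat_lit 3444711), (nat_lit 8743819)]) (PF.cons (PF.leaf (nat_lit 8498452) (nat_lit 467623) (nat_lit 38175305) (nat_lit 3233893) [(nat_lit 467623), (nat_lit 0), (nat_lit 3441874), (nat_lit 8706496)]) (PF.cons PF.nil PF.nil))))) (PF.cons (PF.cons (PF.leaf (nat_lit 8342971) (nat_lit 1552545) (nat_lit 38070169) (nat_lit 3228310) [(nat_lit 0), (nat_lit 1552545), (nat_lit 3436117), (nat_lit 8692776)]) (PF.cons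 (PF.leaf (nat_lit 8618734) (nat_lit 467015) (nat_lit 37684641) (nat_lit 3225700) [(nat_lit 467015), (nat_lit 1556342), (nat_lit 3432510), (nat_lit 8655046)]) (PF.cons PF.nil (PF.cons PF.nil PF.nil)))) (PF.cons (PF.cons (PF.leaf (nat_lit 9014563) (nat_lit 1557294) (nat_lit 36820763) (nat_lit 3212642) [(nat_lit 0), (nat_lit 1557294), (nat_lit 3417231), (nat_lit 8563177)]) (PF.cons PF.nil PF.nil)) PF.nil))) (PF.cons (PF.cons
 (PF.cons (PF.leaf (nat_lit 8792135) (nat_lit 3196563) (nat_lit 36645408) (nat_lit 3196563) [(nat_lit 0), (nat_lit 0), (nat_lit 3400713), (nat_lit 8532350)]) (PF.cons (PF.leaf (nat_lit 9063287) (nat_lit 466317) (nat_lit 36278181) (nat_lit 3192225) [(nat_lit 466317), (nat_lit 0), (nat_lit 3395342), (nat_lit 8493030)]) PF.nil)) (PF.cons PF.nil PF.nil)) (PF.cons PF.nil PF.nil))))) (PF.cons (PF.cons (PF.cons (PF.cons (PF.leaf (nat_lit 7284486) (nat_lit 3145109) (nat_lit 38127682) (nat_lit 3145109) [(nat_lit 0), (nat_lit 0), (nat_lit 0), (nat_lit 8612006)])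 (PF.cons (PF.leaf (nat_lit 7534454) (nat_lit 430224) (nat_lit 37787057) (nat_lit 3146800) [(nat_lit 430224), (nat_lit 0), (nat_lit 0), (nat_lit 8581577)]) (PF.cons (PF.leaf (nat_lit 7793076) (nat_lit 437505) (nat_lit 37437954) (nat_lit 3147618) [(nat_lit 437505), (nat_lit 0), (nat_lit 0), (nat_lit 8549409)]) (PF.cons (PF.leaf (nat_lit 8058255) (nat_lit 443872) (nat_lit 37082646) (nat_lit 3147553) [(nat_lit 443872), (nat_lit 0), (nat_lit 0), (nat_lit 8515664)]) (PF.cons (PF.leaf (nat_lit 8328751) (nat_lit 449472) (nat_lit 36722885) (nat_lit 3146612) [(nat_lit 449472), (nat_lit 0), (nat_lit 0), (nat_lit 8480475)]) (PF.cons PF.nil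
 (PF.cons PF.nil PF.nil))))))) (PF.cons (PF.cons (PF.leaf (nat_lit 7922276) (nat_lit 1498403) (nat_lit 36966129) (nat_lit 3141860) [(nat_lit 0), (nat_lit 1498403), (nat_lit 0), (nat_lit 8500806)]) (PF.cons (PF.leaf (nat_lit 8181543) (nat_lit 443553) (nat_lit 36620219) (nat_lit 3140972) [(nat_lit 443553), (nat_lit 1503829), (nat_lit 0), (nat_lit 8466745)]) (PF.cons (PF.leaf (nat_lit 8447135) (nat_lit 449104) (nat_lit 36269172) (nat_lit 3139263) [(nat_lit 449104), (nat_lit 1508506), (nat_lit 0), (nat_lit 8431220)]) (PF.cons (PF.leaf (nat_lit 8717494) (nat_lit 453973) (nat_lit 35914584) (nat_lit 3136745) [(nat_lit 453973), (nat_lit 1512463), (nat_lit 0), (nat_lit 8394366)]) (PF.cons PF.nil PF.nil))))) (PF.cons (PF.cons (PF.leaf (nat_lit 8565854) (nat_lit 1507434) (nat_lit 35819751) (nat_lit 3131143) [(nat_lit 0), (nat_lit 1507434), (nat_lit 0), (nat_lit 8381016)]) (PF.cons (PF.leaf (nat_lit 8830898) (nat_lit 453262) (nat_lit 35473930) (nat_lit 3127975) [(nat_lit 453262),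 (nat_lit 1510878), (nat_lit 0), (nat_lit 8343962)]) (PF.cons PF.nil (PF.cons PF.nil PF.nil)))) (PF.cons (PF.cons (PF.leaf (nat_lit 9209526) (nat_lit 1511224) (nat_lit 34697838) (nat_lit 3114074) [(nat_lit 0), (nat_lit
 1511224), (nat_lit 0), (nat_lit 8254408)]) (PF.cons PF.nil PF.nil)) (PF.cons PF.nil PF.nil))))) (PF.cons (PF.cons (PF.cons (PF.leaf (nat_lit 8362122) (nat_lit 3114186) (nat_lit 35633308) (nat_lit 3114186) [(nat_lit 0), (nat_lit 0), (nat_lit 3314686), (nat_lit 8348877)]) (PF.cons (PF.leaf (nat_lit 8618019) (nat_lit 443983) (nat_lit 35302302) (nat_lit 3111555) [(nat_lit 443983), (nat_lit 0), (nat_lit 3311058), (nat_lit 8313304)]) (PF.cons (PF.leaf (nat_lit 8879840) (nat_lit 449022) (nat_lit 34966767) (nat_lit 3108175) [(nat_lit 449022), (nat_lit 0), (nat_lit 3306663), (nat_lit 8276387)]) (PF.cons PF.nil PF.nil)))) (PF.cons (PF.cons (PF.leaf (nat_lit 8992213) (nat_lit 1498736) (nat_lit 34540429) (nat_lit 3098453) [(nat_lit 0), (nat_lit 1498736), (nat_lit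 3295740), (nat_lit 8225150)]) (PF.cons (PF.leaf (nat_lit 9253128) (nat_lit 452322) (nat_lit 34210420) (nat_lit 3093829) [(nat_lit 452322), (nat_lit 1501101), (nat_lit 3290091), (nat_lit 8187015)]) PF.nil)) (PF.cons PF.nil PF.nil))) (PF.cons (PF.cons (PF.cons (PF.leaf (nat_lit 9402218) (nat_lit 3062452) (nat_lit 33329725) (nat_lit 3062452) [(nat_lit 0), (nat_lit 0), (nat_lit 3256076), (nat_lit 8068160)]) (PF.cons PF.nil PF.nil))
 (PF.cons PF.nil PF.nil)) PF.nil))) (PF.cons (PF.cons (PF.cons (PF.cons (PF.leaf (nat_lit 8974890) (nat_lit 2988078) (nat_lit 32500275) (nat_lit 2988078) [(nat_lit 0), (nat_lit 0), (nat_lit 0), (nat_lit 7905114)]) (PF.cons (PF.leaf (nat_lit 9218135) (nat_lit 429925) (nat_lit 32215018) (nat_lit 2983979) [(nat_lit 429925), (nat_lit 0), (nat_lit 0), (nat_lit 7869972)]) (PF.cons (PF.leaf (nat_lit 9466896) (nat_lit 434444) (nat_lit 31925889) (nat_lit 2979234) [(nat_lit 434444), (nat_lit 0), (nat_lit 0), (nat_lit 7833700)]) (PF.cons PF.nil PF.nil))))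 (PF.cons (PF.cons (PF.leaf (nat_lit 9568550) (nat_lit 1443230) (nat_lit 31560284) (nat_lit 2968428) [(nat_lit 0), (nat_lit 1443230), (nat_lit 0), (nat_lit 7784217)]) (PF.cons PF.nil PF.nil)) (PF.cons PF.nil PF.nil))) (PF.cons (PF.cons (PF.cons (PF.leaf (nat_lit 9946689) (nat_lit 2931006) (nat_lit 30523407) (nat_lit 2931006) [(nat_lit 0), (nat_lit 0), (nat_lit 3114666), (nat_lit 7634933)]) (PF.cons PF.nil PF.nil)) PF.nil) PF.nil)) (PF.cons PF.nil (PF.cons PF.nil (PF.cons PF.nil (PF.cons PF.nil PF.nil)))))))))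

def p15_19_0_0 : pfC (piC [(nat_lit 39633164), (nat_lit 25639500), (nat_lit 19173228), (nat_lit 12837379)] (nat_lit 22633645)) p15_19_0 (nat_lit 4) (nat_lit 0) (nat_lit 1) = true := by decide +kernel
def p15_19_0_1 : pfC (piC [(nat_lit 39633164), (nat_lit 25639500), (nat_lit 19173228), (nat_lit 12837379)] (nat_lit 22633645)) p15_19_0 (nat_lit 4) (nat_lit 1) (nat_lit 2) = true := by decide +kernel
def p15_19_0_2 : pfC (piC [(nat_lit 39633164), (nat_lit 25639500), (nat_lit 19173228), (nat_lit 12837379)] (nat_lit 22633645)) p15_19_0 (nat_lit 4) (nat_lit 2) (nat_lit 3) = true := by decide +kernel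
def p15_19_0_3 : pfC (piC [(nat_lit 39633164), (nat_lit 25639500), (nat_lit 19173228), (nat_lit 12837379)] (nat_lit 22633645)) p15_19_0 (nat_lit 4) (nat_lit 3) (nat_lit 4) = true := by decide +kernel
def p15_19_0_4 : pfC (piC [(nat_lit 39633164), (nat_lit 25639500), (nat_lit 19173228), (nat_lit 12837379)] (nat_lit 22633645)) p15_19_0 (nat_lit 4) (nat_lit 4) (nat_lit 5) = true := by decide +kernel
def p15_19_0_5 : pfC (piC [(nat_lit 39633164), (nat_lit 25639500), (nat_lit 19173228), (nat_lit 12837379)] (nat_lit 22633645)) p15_19_0 (nat_lit 4) (nat_lit 5) (nat_lit 6) = true := by decide +kernel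
def p15_19_0_6 : pfC (piC [(nat_lit 39633164), (nat_lit 25639500), (nat_lit 19173228), (nat_lit 12837379)] (nat_lit 22633645)) p15_19_0 (nat_lit 4) (nat_lit 6) (nat_lit 7) = true := by decide +kernel
def p15_19_0_7 : pfC (piC [(nat_lit 39633164), (nat_lit 25639500), (nat_lit 19173228), (nat_lit 12837379)] (nat_lit 22633645)) p15_19_0 (nat_lit 4) (nat_lit 7) (nat_lit 8) = true := by decide +kernel
def p15_19_0_8 : pfC (piC [(nat_lit 39633164), (nat_lit 25639500), (nat_lit 19173228), (nat_lit 12837379)] (nat_lit 22633645)) p15_19_0 (nat_lit 4) (nat_lit 8) (nat_lit 9) = true := by decide +kernel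
def p15_19_0_9 : pfC (piC [(nat_lit 39633164), (nat_lit 25639500), (nat_lit 19173228), (nat_lit 12837379)] (nat_lit 22633645)) p15_19_0 (nat_lit 4) (nat_lit 9) (nat_lit 10) = true := by decide +kernel
def p15_19_0_10 : pfC (piC [(nat_lit 39633164), (nat_lit 25639500), (nat_lit 19173228), (nat_lit 12837379)] (nat_lit 22633645)) p15_19_0 (nat_lit 4) (nat_lit 10) (nat_lit 11) = true := by decide +kernel
def p15_19_0_11 : pfC (piC [(nat_lit 39633164), (nat_lit 25639500), (nat_lit 19173228), (nat_lit 12837379)] (nat_lit 22633645)) p15_19_0 (nat_lit 4) (nat_lit 11) (nat_lit 12) = true := by decide +kernel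
def p15_19_0_12 : pfC (piC [(nat_lit 39633164), (nat_lit 25639500), (nat_lit 19173228), (nat_lit 12837379)] (nat_lit 22633645)) p15_19_0 (nat_lit 4) (nat_lit 12) (nat_lit 13) = true := by decide +kernel
def p15_19_0_13 : pfC (piC [(nat_lit 39633164), (nat_lit 25639500), (nat_lit 19173228), (nat_lit 12837379)] (nat_lit 22633645)) p15_19_0 (nat_lit 4) (nat_lit 13) (nat_lit 14) = true := by decide +kernel
def p15_19_0_14 : pfC (piC [(nat_lit 39633164), (nat_lit 25639500), (nat_lit 19173228), (nat_lit 12837379)] (nat_lit 22633645)) p15_19_0 (nat_lit 4) (nat_lit 14) (nat_lit 15) = true := by decide +kernel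
def p15_19_0_15 : pfC (piC [(nat_lit 39633164), (nat_lit 25639500), (nat_lit 19173228), (nat_lit 12837379)] (nat_lit 22633645)) p15_19_0 (nat_lit 4) (nat_lit 15) (nat_lit 16) = true := by decide +kernel
def p15_19_0_16 : pfC (piC [(nat_lit 39633164), (nat_lit 25639500), (nat_lit 19173228), (nat_lit 12837379)] (nat_lit 22633645)) p15_19_0 (nat_lit 4) (nat_lit 16) (nat_lit 17) = true := by decide +kernel
def p15_19_0_17 : pfC (piC [(nat_lit 39633164), (nat_lit 25639500), (nat_lit 19173228), (nat_lit 12837379)] (nat_lit 22633645)) p15_19_0 (nat_lit 4) (nat_lit 17) (nat_lit 18) = true := by decide +kernel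
def p15_19_0_18 : pfC (piC [(nat_lit 39633164), (nat_lit 25639500), (nat_lit 19173228), (nat_lit 12837379)] (nat_lit 22633645)) p15_19_0 (nat_lit 4) (nat_lit 18) (nat_lit 19) = true := by decide +kernel
def p15_19_0_19 : pfC (piC [(nat_lit 39633164), (nat_lit 25639500), (nat_lit 19173228), (nat_lit 12837379)] (nat_lit 22633645)) p15_19_0 (nat_lit 4) (nat_lit 19) (nat_lit 20) = true := by decide +kernel
def p15_19_0_20 : pfC (piC [(nat_lit 39633164), (nat_lit 25639500), (nat_lit 19173228), (nat_lit 12837379)] (nat_lit 22633645)) p15_19_0 (nat_lit 4) (nat_lit 20) (nat_lit 21) = true := by decide +kernel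
def p15_19_0_21 : pfC (piC [(nat_lit 39633164), (nat_lit 25639500), (nat_lit 19173228), (nat_lit 12837379)] (nat_lit 22633645)) p15_19_0 (nat_lit 4) (nat_lit 21) (nat_lit 22) = true := by decide +kernel
def p15_19_0_22 : pfC (piC [(nat_lit 39633164), (nat_lit 25639500), (nat_lit 19173228), (nat_lit 12837379)] (nat_lit 22633645)) p15_19_0 (nat_lit 4) (nat_lit 22) (nat_lit 23) = true := by decide +kernel
def p15_19_0_23 : pfC (piC [(nat_lit 39633164), (nat_lit 25639500), (nat_lit 19173228), (nat_lit 12837379)] (nat_lit 22633645)) p15_19_0 (nat_lit 4) (nat_lit 23) (nat_lit 24) = true := by decide +kernel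
def p15_19_0_24 : pfC (piC [(nat_lit 39633164), (nat_lit 25639500), (nat_lit 19173228), (nat_lit 12837379)] (nat_lit 22633645)) p15_19_0 (nat_lit 4) (nat_lit 24) (nat_lit 25) = true := by decide +kernel
def p15_19_0_25 : pfC (piC [(nat_lit 39633164), (nat_lit 25639500), (nat_lit 19173228), (nat_lit 12837379)] (nat_lit 22633645)) p15_19_0 (nat_lit 4) (nat_lit 25) (nat_lit 26) = true := by decide +kernel
def p15_19_0_26 : pfC (piC [(nat_lit 39633164), (nat_lit 25639500), (nat_lit 19173228), (nat_lit 12837379)] (nat_lit 22633645)) p15_19_0 (nat_lit 4) (nat_lit 26) (nat_lit 27) = true := by decide +kernel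
def p15_19_0_27 : pfC (piC [(nat_lit 39633164), (nat_lit 25639500), (nat_lit 19173228), (nat_lit 12837379)] (nat_lit 22633645)) p15_19_0 (nat_lit 4) (nat_lit 27) (nat_lit 28) = true := by decide +kernel
def p15_19_0_28 : pfC (piC [(nat_lit 39633164), (nat_lit 25639500), (nat_lit 19173228), (nat_lit 12837379)] (nat_lit 22633645)) p15_19_0 (nat_lit 4) (nat_lit 28) (nat_lit 29) = true := by decide +kernel
def p15_19_0_29 : pfC (piC [(nat_lit 39633164), (nat_lit 25639500), (nat_lit 19173228), (nat_lit 12837379)] (nat_lit 22633645)) p15_19_0 (nat_lit 4) (nat_lit 29) (nat_lit 30) = true := by decide +kernel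
def p15_19_0_30 : pfC (piC [(nat_lit 39633164), (nat_lit 25639500), (nat_lit 19173228), (nat_lit 12837379)] (nat_lit 22633645)) p15_19_0 (nat_lit 4) (nat_lit 30) (nat_lit 31) = true := by decide +kernel
def p15_19_0_31 : pfC (piC [(nat_lit 39633164), (nat_lit 25639500), (nat_lit 19173228), (nat_lit 12837379)] (nat_lit 22633645)) p15_19_0 (nat_lit 4) (nat_lit 31) (nat_lit 32) = true := by decide +kernel
def p15_19_0_32 : pfC (piC [(nat_lit 39633164), (nat_lit 25639500), (nat_lit 19173228), (nat_lit 12837379)] (nat_lit 22633645)) p15_19_0 (nat_lit 4) (nat_lit 32) (nat_lit 33) = true := by decide +kernel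
def p15_19_0_33 : pfC (piC [(nat_lit 39633164), (nat_lit 25639500), (nat_lit 19173228), (nat_lit 12837379)] (nat_lit 22633645)) p15_19_0 (nat_lit 4) (nat_lit 33) (nat_lit 34) = true := by decide +kernel
def p15_19_0_34 : pfC (piC [(nat_lit 39633164), (nat_lit 25639500), (nat_lit 19173228), (nat_lit 12837379)] (nat_lit 22633645)) p15_19_0 (nat_lit 4) (nat_lit 34) (nat_lit 35) = true := by decide +kernel
def p15_19_0_35 : pfC (piC [(nat_lit 39633164), (nat_lit 25639500), (nat_lit 19173228), (nat_lit 12837379)] (nat_lit 22633645)) p15_19_0 (nat_lit 4) (nat_lit 35) (nat_lit 36) = true := by decide +kernel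
def p15_19_0_36 : pfC (piC [(nat_lit 39633164), (nat_lit 25639500), (nat_lit 19173228), (nat_lit 12837379)] (nat_lit 22633645)) p15_19_0 (nat_lit 4) (nat_lit 36) (nat_lit 37) = true := by decide +kernel
def p15_19_0_37 : pfC (piC [(nat_lit 39633164), (nat_lit 25639500), (nat_lit 19173228), (nat_lit 12837379)] (nat_lit 22633645)) p15_19_0 (nat_lit 4) (nat_lit 37) (nat_lit 38) = true := by decide +kernel
def p15_19_0_38 : pfC (piC [(nat_lit 39633164), (nat_lit 25639500), (nat_lit 19173228), (nat_lit 12837379)] (nat_lit 22633645)) p15_19_0 (nat_lit 4) (nat_lit 38) (nat_lit 39) = true := by decide +kernel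
def p15_19_0_39 : pfC (piC [(nat_lit 39633164), (nat_lit 25639500), (nat_lit 19173228), (nat_lit 12837379)] (nat_lit 22633645)) p15_19_0 (nat_lit 4) (nat_lit 39) (nat_lit 40) = true := by decide +kernel
def p15_19_0_40 : pfC (piC [(nat_lit 39633164), (nat_lit 25639500), (nat_lit 19173228), (nat_lit 12837379)] (nat_lit 22633645)) p15_19_0 (nat_lit 4) (nat_lit 40) (nat_lit 41) = true := by decide +kernel
def p15_19_0_41 : pfC (piC [(nat_lit 39633164), (nat_lit 25639500), (nat_lit 19173228), (nat_lit 12837379)] (nat_lit 22633645)) p15_19_0 (nat_lit 4) (nat_lit 41) (nat_lit 42) = true := by decide +kernel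
def p15_19_0_42 : pfC (piC [(nat_lit 39633164), (nat_lit 25639500), (nat_lit 19173228), (nat_lit 12837379)] (nat_lit 22633645)) p15_19_0 (nat_lit 4) (nat_lit 42) (nat_lit 43) = true := by decide +kernel
def p15_19_0_43 : pfC (piC [(nat_lit 39633164), (nat_lit 25639500), (nat_lit 19173228), (nat_lit 12837379)] (nat_lit 22633645)) p15_19_0 (nat_lit 4) (nat_lit 43) (nat_lit 44) = true := by decide +kernel
def p15_19_0_44 : pfC (piC [(nat_lit 39633164), (nat_lit 25639500), (nat_lit 19173228), (nat_lit 12837379)] (nat_lit 22633645)) p15_19_0 (nat_lit 4) (nat_lit 44) (nat_lit 45) = true := by decide +kernel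
def p15_19_0_45 : pfC (piC [(nat_lit 39633164), (nat_lit 25639500), (nat_lit 19173228), (nat_lit 12837379)] (nat_lit 22633645)) p15_19_0 (nat_lit 4) (nat_lit 45) (nat_lit 46) = true := by decide +kernel
def p15_19_0_46 : pfC (piC [(nat_lit 39633164), (nat_lit 25639500), (nat_lit 19173228), (nat_lit 12837379)] (nat_lit 22633645)) p15_19_0 (nat_lit 4) (nat_lit 46) (nat_lit 47) = true := by decide +kernel
def p15_19_0_47 : pfC (piC [(nat_lit 39633164), (nat_lit 25639500), (nat_lit 19173228), (nat_lit 12837379)] (nat_lit 22633645)) p15_19_0 (nat_lit 4) (nat_lit 47) (nat_lit 48) = true := by decide +kernel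
def p15_19_0_48 : pfC (piC [(nat_lit 39633164), (nat_lit 25639500), (nat_lit 19173228), (nat_lit 12837379)] (nat_lit 22633645)) p15_19_0 (nat_lit 4) (nat_lit 48) (nat_lit 49) = true := by decide +kernel
def p15_19_0_49 : pfC (piC [(nat_lit 39633164), (nat_lit 25639500), (nat_lit 19173228), (nat_lit 12837379)] (nat_lit 22633645)) p15_19_0 (nat_lit 4) (nat_lit 49) (nat_lit 50) = true := by decide +kernel
def p15_19_0_50 : pfC (piC [(nat_lit 39633164), (nat_lit 25639500), (nat_lit 19173228), (nat_lit 12837379)] (nat_lit 22633645)) p15_19_0 (nat_lit 4) (nat_lit 50) (nat_lit 51) = true := by decide +kernel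
def p15_19_0_51 : pfC (piC [(nat_lit 39633164), (nat_lit 25639500), (nat_lit 19173228), (nat_lit 12837379)] (nat_lit 22633645)) p15_19_0 (nat_lit 4) (nat_lit 51) (nat_lit 52) = true := by decide +kernel
def p15_19_0_52 : pfC (piC [(nat_lit 39633164), (nat_lit 25639500), (nat_lit 19173228), (nat_lit 12837379)] (nat_lit 22633645)) p15_19_0 (nat_lit 4) (nat_lit 52) (nat_lit 53) = true := by decide +kernel
def p15_19_0_53 : pfC (piC [(nat_lit 39633164), (nat_lit 25639500), (nat_lit 19173228), (nat_lit 12837379)] (nat_lit 22633645)) p15_19_0 (nat_lit 4) (nat_lit 53) (nat_lit 54) = true := by decide +kernel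
def p15_19_0_54 : pfC (piC [(nat_lit 39633164), (nat_lit 25639500), (nat_lit 19173228), (nat_lit 12837379)] (nat_lit 22633645)) p15_19_0 (nat_lit 4) (nat_lit 54) (nat_lit 55) = true := by decide +kernel
def p15_19_0_55 : pfC (piC [(nat_lit 39633164), (nat_lit 25639500), (nat_lit 19173228), (nat_lit 12837379)] (nat_lit 22633645)) p15_19_0 (nat_lit 4) (nat_lit 55) (nat_lit 56) = true := by decide +kernel
def p15_19_0_56 : pfC (piC [(nat_lit 39633164), (nat_lit 25639500), (nat_lit 19173228), (nat_lit 12837379)] (nat_lit 22633645)) p15_19_0 (nat_lit 4) (nat_lit 56) (nat_lit 57) = true := by decide +kernel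
def p15_19_0_57 : pfC (piC [(nat_lit 39633164), (nat_lit 25639500), (nat_lit 19173228), (nat_lit 12837379)] (nat_lit 22633645)) p15_19_0 (nat_lit 4) (nat_lit 57) (nat_lit 58) = true := by decide +kernel
def p15_19_0_58 : pfC (piC [(nat_lit 39633164), (nat_lit 25639500), (nat_lit 19173228), (nat_lit 12837379)] (nat_lit 22633645)) p15_19_0 (nat_lit 4) (nat_lit 58) (nat_lit 59) = true := by decide +kernel
def p15_19_0_59 : pfC (piC [(nat_lit 39633164), (nat_lit 25639500), (nat_lit 19173228), (nat_lit 12837379)] (nat_lit 22633645)) p15_19_0 (nat_lit 4) (nat_lit 59) (nat_lit 60) = true := by decide +kernel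
def p15_19_0_60 : pfC (piC [(nat_lit 39633164), (nat_lit 25639500), (nat_lit 19173228), (nat_lit 12837379)] (nat_lit 22633645)) p15_19_0 (nat_lit 4) (nat_lit 60) (nat_lit 61) = true := by decide +kernel
def p15_19_0_61 : pfC (piC [(nat_lit 39633164), (nat_lit 25639500), (nat_lit 19173228), (nat_lit 12837379)] (nat_lit 22633645)) p15_19_0 (nat_lit 4) (nat_lit 61) (nat_lit 62) = true := by decide +kernel
def p15_19_0_62 : pfC (piC [(nat_lit 39633164), (nat_lit 25639500), (nat_lit 19173228), (nat_lit 12837379)] (nat_lit 22633645)) p15_19_0 (nat_lit 4) (nat_lit 62) (nat_lit 63) = true := by decide +kernel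
def p15_19_0_63 : pfC (piC [(nat_lit 39633164), (nat_lit 25639500), (nat_lit 19173228), (nat_lit 12837379)] (nat_lit 22633645)) p15_19_0 (nat_lit 4) (nat_lit 63) (nat_lit 64) = true := by decide +kernel
def p15_19_0_64 : pfC (piC [(nat_lit 39633164), (nat_lit 25639500), (nat_lit 19173228), (nat_lit 12837379)] (nat_lit 22633645)) p15_19_0 (nat_lit 4) (nat_lit 64) (nat_lit 65) = true := by decide +kernel
def p15_19_0_65 : pfC (piC [(nat_lit 39633164), (nat_lit 25639500), (nat_lit 19173228), (nat_lit 12837379)] (nat_lit 22633645)) p15_19_0 (nat_lit 4) (nat_lit 65) (nat_lit 66) = true := by decide +kernel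
def p15_19_0_66 : pfC (piC [(nat_lit 39633164), (nat_lit 25639500), (nat_lit 19173228), (nat_lit 12837379)] (nat_lit 22633645)) p15_19_0 (nat_lit 4) (nat_lit 66) (nat_lit 67) = true := by decide +kernel
def p15_19_0_67 : pfC (piC [(nat_lit 39633164), (nat_lit 25639500), (nat_lit 19173228), (nat_lit 12837379)] (nat_lit 22633645)) p15_19_0 (nat_lit 4) (nat_lit 67) (nat_lit 68) = true := by decide +kernel
def p15_19_0_68 : pfC (piC [(nat_lit 39633164), (nat_lit 25639500), (nat_lit 19173228), (nat_lit 12837379)] (nat_lit 22633645)) p15_19_0 (nat_lit 4) (nat_lit 68) (nat_lit 69) = true := by decide +kernel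
def p15_19_0_69 : pfC (piC [(nat_lit 39633164), (nat_lit 25639500), (nat_lit 19173228), (nat_lit 12837379)] (nat_lit 22633645)) p15_19_0 (nat_lit 4) (nat_lit 69) (nat_lit 70) = true := by decide +kernel
def p15_19_0_70 : pfC (piC [(nat_lit 39633164), (nat_lit 25639500), (nat_lit 19173228), (nat_lit 12837379)] (nat_lit 22633645)) p15_19_0 (nat_lit 4) (nat_lit 70) (nat_lit 71) = true := by decide +kernel
def p15_19_0_71 : pfC (piC [(nat_lit 39633164), (nat_lit 25639500), (nat_lit 19173228), (nat_lit 12837379)] (nat_lit 22633645)) p15_19_0 (nat_lit 4) (nat_lit 71) (nat_lit 72) = true := by decide +kernel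
def p15_19_0_72 : pfC (piC [(nat_lit 39633164), (nat_lit 25639500), (nat_lit 19173228), (nat_lit 12837379)] (nat_lit 22633645)) p15_19_0 (nat_lit 4) (nat_lit 72) (nat_lit 73) = true := by decide +kernel
def p15_19_0_73 : pfC (piC [(nat_lit 39633164), (nat_lit 25639500), (nat_lit 19173228), (nat_lit 12837379)] (nat_lit 22633645)) p15_19_0 (nat_lit 4) (nat_lit 73) (nat_lit 74) = true := by decide +kernel
def p15_19_0_74 : pfC (piC [(nat_lit 39633164), (nat_lit 25639500), (nat_lit 19173228), (nat_lit 12837379)] (nat_lit 22633645)) p15_19_0 (nat_lit 4) (nat_lit 74) (nat_lit 75) = true := by decide +kernel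
def p15_19_0_75 : pfC (piC [(nat_lit 39633164), (nat_lit 25639500), (nat_lit 19173228), (nat_lit 12837379)] (nat_lit 22633645)) p15_19_0 (nat_lit 4) (nat_lit 75) (nat_lit 76) = true := by decide +kernel
def p15_19_0_76 : pfC (piC [(nat_lit 39633164), (nat_lit 25639500), (nat_lit 19173228), (nat_lit 12837379)] (nat_lit 22633645)) p15_19_0 (nat_lit 4) (nat_lit 76) (nat_lit 77) = true := by decide +kernel
def p15_19_0_77 : pfC (piC [(nat_lit 39633164), (nat_lit 25639500), (nat_lit 19173228), (nat_lit 12837379)] (nat_lit 22633645)) p15_19_0 (nat_lit 4) (nat_lit 77) (nat_lit 78) = true := by decide +kernel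
def p15_19_0_78 : pfC (piC [(nat_lit 39633164), (nat_lit 25639500), (nat_lit 19173228), (nat_lit 12837379)] (nat_lit 22633645)) p15_19_0 (nat_lit 4) (nat_lit 78) (nat_lit 79) = true := by decide +kernel
def p15_19_0_79 : pfC (piC [(nat_lit 39633164), (nat_lit 25639500), (nat_lit 19173228), (nat_lit 12837379)] (nat_lit 22633645)) p15_19_0 (nat_lit 4) (nat_lit 79) (nat_lit 80) = true := by decide +kernel
def p15_19_0_80 : pfC (piC [(nat_lit 39633164), (nat_lit 25639500), (nat_lit 19173228), (nat_lit 12837379)] (nat_lit 22633645)) p15_19_0 (nat_lit 4) (nat_lit 80) (nat_lit 81) = true := by decide +kernel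
def p15_19_0_81 : pfC (piC [(nat_lit 39633164), (nat_lit 25639500), (nat_lit 19173228), (nat_lit 12837379)] (nat_lit 22633645)) p15_19_0 (nat_lit 4) (nat_lit 81) (nat_lit 82) = true := by decide +kernel
def p15_19_0_82 : pfC (piC [(nat_lit 39633164), (nat_lit 25639500), (nat_lit 19173228), (nat_lit 12837379)] (nat_lit 22633645)) p15_19_0 (nat_lit 4) (nat_lit 82) (nat_lit 83) = true := by decide +kernel
def p15_19_0_83 : pfC (piC [(nat_lit 39633164), (nat_lit 25639500), (nat_lit 19173228), (nat_lit 12837379)] (nat_lit 22633645)) p15_19_0 (nat_lit 4) (nat_lit 83) (nat_lit 84) = true := by decide +kernel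
def p15_19_0_84 : pfC (piC [(nat_lit 39633164), (nat_lit 25639500), (nat_lit 19173228), (nat_lit 12837379)] (nat_lit 22633645)) p15_19_0 (nat_lit 4) (nat_lit 84) (nat_lit 85) = true := by decide +kernel
def p15_19_0_85 : pfC (piC [(nat_lit 39633164), (nat_lit 25639500), (nat_lit 19173228), (nat_lit 12837379)] (nat_lit 22633645)) p15_19_0 (nat_lit 4) (nat_lit 85) (nat_lit 86) = true := by decide +kernel
def p15_19_0_86 : pfC (piC [(nat_lit 39633164), (nat_lit 25639500), (nat_lit 19173228), (nat_lit 12837379)] (nat_lit 22633645)) p15_19_0 (nat_lit 4) (nat_lit 86) (nat_lit 87) = true := by decide +kernel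
def p15_19_0_87 : pfC (piC [(nat_lit 39633164), (nat_lit 25639500), (nat_lit 19173228), (nat_lit 12837379)] (nat_lit 22633645)) p15_19_0 (nat_lit 4) (nat_lit 87) (nat_lit 88) = true := by decide +kernel
def p15_19_0_88 : pfC (piC [(nat_lit 39633164), (nat_lit 25639500), (nat_lit 19173228), (nat_lit 12837379)] (nat_lit 22633645)) p15_19_0 (nat_lit 4) (nat_lit 88) (nat_lit 89) = true := by decide +kernel
def p15_19_0_89 : pfC (piC [(nat_lit 39633164), (nat_lit 25639500), (nat_lit 19173228), (nat_lit 12837379)] (nat_lit 22633645)) p15_19_0 (nat_lit 4) (nat_lit 89) (nat_lit 90) = true := by decide +kernel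
def p15_19_0_90 : pfC (piC [(nat_lit 39633164), (nat_lit 25639500), (nat_lit 19173228), (nat_lit 12837379)] (nat_lit 22633645)) p15_19_0 (nat_lit 4) (nat_lit 90) (nat_lit 91) = true := by decide +kernel
def p15_19_0_91 : pfC (piC [(nat_lit 39633164), (nat_lit 25639500), (nat_lit 19173228), (nat_lit 12837379)] (nat_lit 22633645)) p15_19_0 (nat_lit 4) (nat_lit 91) (nat_lit 92) = true := by decide +kernel
def p15_19_0_92 : pfC (piC [(nat_lit 39633164), (nat_lit 25639500), (nat_lit 19173228), (nat_lit 12837379)] (nat_lit 22633645)) p15_19_0 (nat_lit 4) (nat_lit 92) (nat_lit 93) = true := by decide +kernel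
def p15_19_0_93 : pfC (piC [(nat_lit 39633164), (nat_lit 25639500), (nat_lit 19173228), (nat_lit 12837379)] (nat_lit 22633645)) p15_19_0 (nat_lit 4) (nat_lit 93) (nat_lit 94) = true := by decide +kernel
def p15_19_0_94 : pfC (piC [(nat_lit 39633164), (nat_lit 25639500), (nat_lit 19173228), (nat_lit 12837379)] (nat_lit 22633645)) p15_19_0 (nat_lit 4) (nat_lit 94) (nat_lit 95) = true := by decide +kernel
def p15_19_0_95 : pfC (piC [(nat_lit 39633164), (nat_lit 25639500), (nat_lit 19173228), (nat_lit 12837379)] (nat_lit 22633645)) p15_19_0 (nat_lit 4) (nat_lit 95) (nat_lit 96) = true := by decide +kernel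
def p15_19_0_96 : pfC (piC [(nat_lit 39633164), (nat_lit 25639500), (nat_lit 19173228), (nat_lit 12837379)] (nat_lit 22633645)) p15_19_0 (nat_lit 4) (nat_lit 96) (nat_lit 97) = true := by decide +kernel
def p15_19_0_97 : pfC (piC [(nat_lit 39633164), (nat_lit 25639500), (nat_lit 19173228), (nat_lit 12837379)] (nat_lit 22633645)) p15_19_0 (nat_lit 4) (nat_lit 97) (nat_lit 98) = true := by decide +kernel
def p15_19_0_98 : pfC (piC [(nat_lit 39633164), (nat_lit 25639500), (nat_lit 19173228), (nat_lit 12837379)] (nat_lit 22633645)) p15_19_0 (nat_lit 4) (nat_lit 98) (nat_lit 99) = true := by decide +kernel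
def p15_19_0_99 : pfC (piC [(nat_lit 39633164), (nat_lit 25639500), (nat_lit 19173228), (nat_lit 12837379)] (nat_lit 22633645)) p15_19_0 (nat_lit 4) (nat_lit 99) (nat_lit 100) = true := by decide +kernel
def p15_19_0_100 : pfC (piC [(nat_lit 39633164), (nat_lit 25639500), (nat_lit 19173228), (nat_lit 12837379)] (nat_lit 22633645)) p15_19_0 (nat_lit 4) (nat_lit 100) (nat_lit 101) = true := by decide +kernel
def p15_19_0_101 : pfC (piC [(nat_lit 39633164), (nat_lit 25639500), (nat_lit 19173228), (nat_lit 12837379)] (nat_lit 22633645)) p15_19_0 (nat_lit 4) (nat_lit 101) (nat_lit 102) = true := by decide +kernel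
def p15_19_0_102 : pfC (piC [(nat_lit 39633164), (nat_lit 25639500), (nat_lit 19173228), (nat_lit 12837379)] (nat_lit 22633645)) p15_19_0 (nat_lit 4) (nat_lit 102) (nat_lit 103) = true := by decide +kernel
def p15_19_0_103 : pfC (piC [(nat_lit 39633164), (nat_lit 25639500), (nat_lit 19173228), (nat_lit 12837379)] (nat_lit 22633645)) p15_19_0 (nat_lit 4) (nat_lit 103) (nat_lit 104) = true := by decide +kernel
def p15_19_0_104 : pfC (piC [(nat_lit 39633164), (nat_lit 25639500), (nat_lit 19173228), (nat_lit 12837379)] (nat_lit 22633645)) p15_19_0 (nat_lit 4) (nat_lit 104) (nat_lit 105) = true := by decide +kernel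
def p15_19_0_105 : pfC (piC [(nat_lit 39633164), (nat_lit 25639500), (nat_lit 19173228), (nat_lit 12837379)] (nat_lit 22633645)) p15_19_0 (nat_lit 4) (nat_lit 105) (nat_lit 106) = true := by decide +kernel
def p15_19_0_106 : pfC (piC [(nat_lit 39633164), (nat_lit 25639500), (nat_lit 19173228), (nat_lit 12837379)] (nat_lit 22633645)) p15_19_0 (nat_lit 4) (nat_lit 106) (nat_lit 107) = true := by decide +kernel
def p15_19_0_107 : pfC (piC [(nat_lit 39633164), (nat_lit 25639500), (nat_lit 19173228), (nat_lit 12837379)] (nat_lit 22633645)) p15_19_0 (nat_lit 4) (nat_lit 107) (nat_lit 108) = true := by decide +kernel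
def p15_19_0_108 : pfC (piC [(nat_lit 39633164), (nat_lit 25639500), (nat_lit 19173228), (nat_lit 12837379)] (nat_lit 22633645)) p15_19_0 (nat_lit 4) (nat_lit 108) (nat_lit 109) = true := by decide +kernel
def p15_19_0_109 : pfC (piC [(nat_lit 39633164), (nat_lit 25639500), (nat_lit 19173228), (nat_lit 12837379)] (nat_lit 22633645)) p15_19_0 (nat_lit 4) (nat_lit 109) (nat_lit 110) = true := by decide +kernel
def p15_19_0_110 : pfC (piC [(nat_lit 39633164), (nat_lit 25639500), (nat_lit 19173228), (nat_lit 12837379)] (nat_lit 22633645)) p15_19_0 (nat_lit 4) (nat_lit 110) (nat_lit 111) = true := by decide +kernel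
def p15_19_0_111 : pfC (piC [(nat_lit 39633164), (nat_lit 25639500), (nat_lit 19173228), (nat_lit 12837379)] (nat_lit 22633645)) p15_19_0 (nat_lit 4) (nat_lit 111) (nat_lit 112) = true := by decide +kernel
def p15_19_0_112 : pfC (piC [(nat_lit 39633164), (nat_lit 25639500), (nat_lit 19173228), (nat_lit 12837379)] (nat_lit 22633645)) p15_19_0 (nat_lit 4) (nat_lit 112) (nat_lit 113) = true := by decide +kernel
def p15_19_0_113 : pfC (piC [(nat_lit 39633164), (nat_lit 25639500), (nat_lit 19173228), (nat_lit 12837379)] (nat_lit 22633645)) p15_19_0 (nat_lit 4) (nat_lit 113) (nat_lit 114) = true := by decide +kernel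
def p15_19_0_114 : pfC (piC [(nat_lit 39633164), (nat_lit 25639500), (nat_lit 19173228), (nat_lit 12837379)] (nat_lit 22633645)) p15_19_0 (nat_lit 4) (nat_lit 114) (nat_lit 115) = true := by decide +kernel
def p15_19_0_115 : pfC (piC [(nat_lit 39633164), (nat_lit 25639500), (nat_lit 19173228), (nat_lit 12837379)] (nat_lit 22633645)) p15_19_0 (nat_lit 4) (nat_lit 115) (nat_lit 116) = true := by decide +kernel
def p15_19_0_116 : pfC (piC [(nat_lit 39633164), (nat_lit 25639500), (nat_lit 19173228), (nat_lit 12837379)] (nat_lit 22633645)) p15_19_0 (nat_lit 4) (nat_lit 116) (nat_lit 117) = true := by decide +kernel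
def p15_19_0_117 : pfC (piC [(nat_lit 39633164), (nat_lit 25639500), (nat_lit 19173228), (nat_lit 12837379)] (nat_lit 22633645)) p15_19_0 (nat_lit 4) (nat_lit 117) (nat_lit 118) = true := by decide +kernel
def p15_19_0_118 : pfC (piC [(nat_lit 39633164), (nat_lit 25639500), (nat_lit 19173228), (nat_lit 12837379)] (nat_lit 22633645)) p15_19_0 (nat_lit 4) (nat_lit 118) (nat_lit 119) = true := by decide +kernel
def p15_19_0_119 : pfC (piC [(nat_lit 39633164), (nat_lit 25639500), (nat_lit 19173228), (nat_lit 12837379)] (nat_lit 22633645)) p15_19_0 (nat_lit 4) (nat_lit 119) (nat_lit 120) = true := by decide +kernel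
def p15_19_0_120 : pfC (piC [(nat_lit 39633164), (nat_lit 25639500), (nat_lit 19173228), (nat_lit 12837379)] (nat_lit 22633645)) p15_19_0 (nat_lit 4) (nat_lit 120) (nat_lit 121) = true := by decide +kernel
def p15_19_0_121 : pfC (piC [(nat_lit 39633164), (nat_lit 25639500), (nat_lit 19173228), (nat_lit 12837379)] (nat_lit 22633645)) p15_19_0 (nat_lit 4) (nat_lit 121) (nat_lit 122) = true := by decide +kernel
def p15_19_0_122 : pfC (piC [(nat_lit 39633164), (nat_lit 25639500), (nat_lit 19173228), (nat_lit 12837379)] (nat_lit 22633645)) p15_19_0 (nat_lit 4) (nat_lit 122) (nat_lit 123) = true := by decide +kernel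
def p15_19_0_123 : pfC (piC [(nat_lit 39633164), (nat_lit 25639500), (nat_lit 19173228), (nat_lit 12837379)] (nat_lit 22633645)) p15_19_0 (nat_lit 4) (nat_lit 123) (nat_lit 124) = true := by decide +kernel
def p15_19_0_124 : pfC (piC [(nat_lit 39633164), (nat_lit 25639500), (nat_lit 19173228), (nat_lit 12837379)] (nat_lit 22633645)) p15_19_0 (nat_lit 4) (nat_lit 124) (nat_lit 125) = true := by decide +kernel
def p15_19_0_125 : pfC (piC [(nat_lit 39633164), (nat_lit 25639500), (nat_lit 19173228), (nat_lit 12837379)] (nat_lit 22633645)) p15_19_0 (nat_lit 4) (nat_lit 125) (nat_lit 126) = true := by decide +kernel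
def p15_19_0_126 : pfC (piC [(nat_lit 39633164), (nat_lit 25639500), (nat_lit 19173228), (nat_lit 12837379)] (nat_lit 22633645)) p15_19_0 (nat_lit 4) (nat_lit 126) (nat_lit 127) = true := by decide +kernel
def p15_19_0_127 : pfC (piC [(nat_lit 39633164), (nat_lit 25639500), (nat_lit 19173228), (nat_lit 12837379)] (nat_lit 22633645)) p15_19_0 (nat_lit 4) (nat_lit 127) (nat_lit 128) = true := by decide +kernel
def p15_19_0_128 : pfC (piC [(nat_lit 39633164), (nat_lit 25639500), (nat_lit 19173228), (nat_lit 12837379)] (nat_lit 22633645)) p15_19_0 (nat_lit 4) (nat_lit 128) (nat_lit 129) = true := by decide +kernel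
def p15_19_0_129 : pfC (piC [(nat_lit 39633164), (nat_lit 25639500), (nat_lit 19173228), (nat_lit 12837379)] (nat_lit 22633645)) p15_19_0 (nat_lit 4) (nat_lit 129) (nat_lit 130) = true := by decide +kernel
def p15_19_0_130 : pfC (piC [(nat_lit 39633164), (nat_lit 25639500), (nat_lit 19173228), (nat_lit 12837379)] (nat_lit 22633645)) p15_19_0 (nat_lit 4) (nat_lit 130) (nat_lit 131) = true := by decide +kernel
def p15_19_0_131 : pfC (piC [(nat_lit 39633164), (nat_lit 25639500), (nat_lit 19173228), (nat_lit 12837379)] (nat_lit 22633645)) p15_19_0 (nat_lit 4) (nat_lit 131) (nat_lit 132) = true := by decide +kernel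
def p15_19_0_132 : pfC (piC [(nat_lit 39633164), (nat_lit 25639500), (nat_lit 19173228), (nat_lit 12837379)] (nat_lit 22633645)) p15_19_0 (nat_lit 4) (nat_lit 132) (nat_lit 133) = true := by decide +kernel
def p15_19_0_133 : pfC (piC [(nat_lit 39633164), (nat_lit 25639500), (nat_lit 19173228), (nat_lit 12837379)] (nat_lit 22633645)) p15_19_0 (nat_lit 4) (nat_lit 133) (nat_lit 134) = true := by decide +kernel
def p15_19_0_134 : pfC (piC [(nat_lit 39633164), (nat_lit 25639500), (nat_lit 19173228), (nat_lit 12837379)] (nat_lit 22633645)) p15_19_0 (nat_lit 4) (nat_lit 134) (nat_lit 135) = true := by decide +kernel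
def p15_19_0_135 : pfC (piC [(nat_lit 39633164), (nat_lit 25639500), (nat_lit 19173228), (nat_lit 12837379)] (nat_lit 22633645)) p15_19_0 (nat_lit 4) (nat_lit 135) (nat_lit 136) = true := by decide +kernel
def p15_19_0_136 : pfC (piC [(nat_lit 39633164), (nat_lit 25639500), (nat_lit 19173228), (nat_lit 12837379)] (nat_lit 22633645)) p15_19_0 (nat_lit 4) (nat_lit 136) (nat_lit 137) = true := by decide +kernel
def p15_19_0_137 : pfC (piC [(nat_lit 39633164), (nat_lit 25639500), (nat_lit 19173228), (nat_lit 12837379)] (nat_lit 22633645)) p15_19_0 (nat_lit 4) (nat_lit 137) (nat_lit 138) = true := by decide +kernel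
def p15_19_0_138 : pfC (piC [(nat_lit 39633164), (nat_lit 25639500), (nat_lit 19173228), (nat_lit 12837379)] (nat_lit 22633645)) p15_19_0 (nat_lit 4) (nat_lit 138) (nat_lit 139) = true := by decide +kernel
def p15_19_0_139 : pfC (piC [(nat_lit 39633164), (nat_lit 25639500), (nat_lit 19173228), (nat_lit 12837379)] (nat_lit 22633645)) p15_19_0 (nat_lit 4) (nat_lit 139) (nat_lit 140) = true := by decide +kernel
def p15_19_0_140 : pfC (piC [(nat_lit 39633164), (nat_lit 25639500), (nat_lit 19173228), (nat_lit 12837379)] (nat_lit 22633645)) p15_19_0 (nat_lit 4) (nat_lit 140) (nat_lit 141) = true := by decide +kernel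
def p15_19_0_141 : pfC (piC [(nat_lit 39633164), (nat_lit 25639500), (nat_lit 19173228), (nat_lit 12837379)] (nat_lit 22633645)) p15_19_0 (nat_lit 4) (nat_lit 141) (nat_lit 142) = true := by decide +kernel
def p15_19_0_142 : pfC (piC [(nat_lit 39633164), (nat_lit 25639500), (nat_lit 19173228), (nat_lit 12837379)] (nat_lit 22633645)) p15_19_0 (nat_lit 4) (nat_lit 142) (nat_lit 143) = true := by decide +kernel
def p15_19_0_143 : pfC (piC [(nat_lit 39633164), (nat_lit 25639500), (nat_lit 19173228), (nat_lit 12837379)] (nat_lit 22633645)) p15_19_0 (nat_lit 4) (nat_lit 143) (nat_lit 144) = true := by decide +kernel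
def p15_19_0_144 : pfC (piC [(nat_lit 39633164), (nat_lit 25639500), (nat_lit 19173228), (nat_lit 12837379)] (nat_lit 22633645)) p15_19_0 (nat_lit 4) (nat_lit 144) (nat_lit 145) = true := by decide +kernel
def p15_19_0_145 : pfC (piC [(nat_lit 39633164), (nat_lit 25639500), (nat_lit 19173228), (nat_lit 12837379)] (nat_lit 22633645)) p15_19_0 (nat_lit 4) (nat_lit 145) (nat_lit 146) = true := by decide +kernel
def p15_19_0_146 : pfC (piC [(nat_lit 39633164), (nat_lit 25639500), (nat_lit 19173228), (nat_lit 12837379)] (nat_lit 22633645)) p15_19_0 (nat_lit 4) (nat_lit 146) (nat_lit 147) = true := by decide +kernel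
def p15_19_0_147 : pfC (piC [(nat_lit 39633164), (nat_lit 25639500), (nat_lit 19173228), (nat_lit 12837379)] (nat_lit 22633645)) p15_19_0 (nat_lit 4) (nat_lit 147) (nat_lit 148) = true := by decide +kernel
def p15_19_0_148 : pfC (piC [(nat_lit 39633164), (nat_lit 25639500), (nat_lit 19173228), (nat_lit 12837379)] (nat_lit 22633645)) p15_19_0 (nat_lit 4) (nat_lit 148) (nat_lit 149) = true := by decide +kernel
def p15_19_0_149 : pfC (piC [(nat_lit 39633164), (nat_lit 25639500), (nat_lit 19173228), (nat_lit 12837379)] (nat_lit 22633645)) p15_19_0 (nat_lit 4) (nat_lit 149) (nat_lit 150) = true := by decide +kernel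
def p15_19_0_150 : pfC (piC [(nat_lit 39633164), (nat_lit 25639500), (nat_lit 19173228), (nat_lit 12837379)] (nat_lit 22633645)) p15_19_0 (nat_lit 4) (nat_lit 150) (nat_lit 151) = true := by decide +kernel
def p15_19_0_151 : pfC (piC [(nat_lit 39633164), (nat_lit 25639500), (nat_lit 19173228), (nat_lit 12837379)] (nat_lit 22633645)) p15_19_0 (nat_lit 4) (nat_lit 151) (nat_lit 152) = true := by decide +kernel
def p15_19_0_152 : pfC (piC [(nat_lit 39633164), (nat_lit 25639500), (nat_lit 19173228), (nat_lit 12837379)] (nat_lit 22633645)) p15_19_0 (nat_lit 4) (nat_lit 152) (nat_lit 153) = true := by decide +kernel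
def p15_19_0_153 : pfC (piC [(nat_lit 39633164), (nat_lit 25639500), (nat_lit 19173228), (nat_lit 12837379)] (nat_lit 22633645)) p15_19_0 (nat_lit 4) (nat_lit 153) (nat_lit 154) = true := by decide +kernel
def p15_19_0_154 : pfC (piC [(nat_lit 39633164), (nat_lit 25639500), (nat_lit 19173228), (nat_lit 12837379)] (nat_lit 22633645)) p15_19_0 (nat_lit 4) (nat_lit 154) (nat_lit 155) = true := by decide +kernel
def p15_19_0_155 : pfC (piC [(nat_lit 39633164), (nat_lit 25639500), (nat_lit 19173228), (nat_lit 12837379)] (nat_lit 22633645)) p15_19_0 (nat_lit 4) (nat_lit 155) (nat_lit 156) = true := by decide +kernel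
def p15_19_0_156 : pfC (piC [(nat_lit 39633164), (nat_lit 25639500), (nat_lit 19173228), (nat_lit 12837379)] (nat_lit 22633645)) p15_19_0 (nat_lit 4) (nat_lit 156) (nat_lit 157) = true := by decide +kernel
def p15_19_0_157 : pfC (piC [(nat_lit 39633164), (nat_lit 25639500), (nat_lit 19173228), (nat_lit 12837379)] (nat_lit 22633645)) p15_19_0 (nat_lit 4) (nat_lit 157) (nat_lit 158) = true := by decide +kernel
def p15_19_0_158 : pfC (piC [(nat_lit 39633164), (nat_lit 25639500), (nat_lit 19173228), (nat_lit 12837379)] (nat_lit 22633645)) p15_19_0 (nat_lit 4) (nat_lit 158) (nat_lit 159) = true := by decide +kernel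
def p15_19_0_159 : pfC (piC [(nat_lit 39633164), (nat_lit 25639500), (nat_lit 19173228), (nat_lit 12837379)] (nat_lit 22633645)) p15_19_0 (nat_lit 4) (nat_lit 159) (nat_lit 160) = true := by decide +kernel
def p15_19_0_160 : pfC (piC [(nat_lit 39633164), (nat_lit 25639500), (nat_lit 19173228), (nat_lit 12837379)] (nat_lit 22633645)) p15_19_0 (nat_lit 4) (nat_lit 160) (nat_lit 161) = true := by decide +kernel
def p15_19_0_161 : pfC (piC [(nat_lit 39633164), (nat_lit 25639500), (nat_lit 19173228), (nat_lit 12837379)] (nat_lit 22633645)) p15_19_0 (nat_lit 4) (nat_lit 161) (nat_lit 162) = true := by decide +kernel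
def p15_19_0_162 : pfC (piC [(nat_lit 39633164), (nat_lit 25639500), (nat_lit 19173228), (nat_lit 12837379)] (nat_lit 22633645)) p15_19_0 (nat_lit 4) (nat_lit 162) (nat_lit 163) = true := by decide +kernel
def p15_19_0_163 : pfC (piC [(nat_lit 39633164), (nat_lit 25639500), (nat_lit 19173228), (nat_lit 12837379)] (nat_lit 22633645)) p15_19_0 (nat_lit 4) (nat_lit 163) (nat_lit 164) = true := by decide +kernel
def p15_19_0_164 : pfC (piC [(nat_lit 39633164), (nat_lit 25639500), (nat_lit 19173228), (nat_lit 12837379)] (nat_lit 22633645)) p15_19_0 (nat_lit 4) (nat_lit 164) (nat_lit 165) = true := by decide +kernel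
def p15_19_0_165 : pfC (piC [(nat_lit 39633164), (nat_lit 25639500), (nat_lit 19173228), (nat_lit 12837379)] (nat_lit 22633645)) p15_19_0 (nat_lit 4) (nat_lit 165) (nat_lit 166) = true := by decide +kernel
def p15_19_0_166 : pfC (piC [(nat_lit 39633164), (nat_lit 25639500), (nat_lit 19173228), (nat_lit 12837379)] (nat_lit 22633645)) p15_19_0 (nat_lit 4) (nat_lit 166) (nat_lit 167) = true := by decide +kernel
def p15_19_0_167 : pfC (piC [(nat_lit 39633164), (nat_lit 25639500), (nat_lit 19173228), (nat_lit 12837379)] (nat_lit 22633645)) p15_19_0 (nat_lit 4) (nat_lit 167) (nat_lit 168) = true := by decide +kernel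
def p15_19_0_168 : pfC (piC [(nat_lit 39633164), (nat_lit 25639500), (nat_lit 19173228), (nat_lit 12837379)] (nat_lit 22633645)) p15_19_0 (nat_lit 4) (nat_lit 168) (nat_lit 169) = true := by decide +kernel
def p15_19_0_169 : pfC (piC [(nat_lit 39633164), (nat_lit 25639500), (nat_lit 19173228), (nat_lit 12837379)] (nat_lit 22633645)) p15_19_0 (nat_lit 4) (nat_lit 169) (nat_lit 170) = true := by decide +kernel
def p15_19_0_170 : pfC (piC [(nat_lit 39633164), (nat_lit 25639500), (nat_lit 19173228), (nat_lit 12837379)] (nat_lit 22633645)) p15_19_0 (nat_lit 4) (nat_lit 170) (nat_lit 171) = true := by decide +kernel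
def p15_19_0_171 : pfC (piC [(nat_lit 39633164), (nat_lit 25639500), (nat_lit 19173228), (nat_lit 12837379)] (nat_lit 22633645)) p15_19_0 (nat_lit 4) (nat_lit 171) (nat_lit 172) = true := by decide +kernel
def p15_19_0_172 : pfC (piC [(nat_lit 39633164), (nat_lit 25639500), (nat_lit 19173228), (nat_lit 12837379)] (nat_lit 22633645)) p15_19_0 (nat_lit 4) (nat_lit 172) (nat_lit 173) = true := by decide +kernel
def p15_19_0_173 : pfC (piC [(nat_lit 39633164), (nat_lit 25639500), (nat_lit 19173228), (nat_lit 12837379)] (nat_lit 22633645)) p15_19_0 (nat_lit 4) (nat_lit 173) (nat_lit 174) = true := by decide +kernel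
def p15_19_0_174 : pfC (piC [(nat_lit 39633164), (nat_lit 25639500), (nat_lit 19173228), (nat_lit 12837379)] (nat_lit 22633645)) p15_19_0 (nat_lit 4) (nat_lit 174) (nat_lit 175) = true := by decide +kernel
def p15_19_0_175 : pfC (piC [(nat_lit 39633164), (nat_lit 25639500), (nat_lit 19173228), (nat_lit 12837379)] (nat_lit 22633645)) p15_19_0 (nat_lit 4) (nat_lit 175) (nat_lit 176) = true := by decide +kernel
def p15_19_0_176 : pfC (piC [(nat_lit 39633164), (nat_lit 25639500), (nat_lit 19173228), (nat_lit 12837379)] (nat_lit 22633645)) p15_19_0 (nat_lit 4) (nat_lit 176) (nat_lit 177) = true := by decide +kernel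
def p15_19_0_177 : pfC (piC [(nat_lit 39633164), (nat_lit 25639500), (nat_lit 19173228), (nat_lit 12837379)] (nat_lit 22633645)) p15_19_0 (nat_lit 4) (nat_lit 177) (nat_lit 178) = true := by decide +kernel
def p15_19_0_178 : pfC (piC [(nat_lit 39633164), (nat_lit 25639500), (nat_lit 19173228), (nat_lit 12837379)] (nat_lit 22633645)) p15_19_0 (nat_lit 4) (nat_lit 178) (nat_lit 179) = true := by decide +kernel
def p15_19_0_179 : pfC (piC [(nat_lit 39633164), (nat_lit 25639500), (nat_lit 19173228), (nat_lit 12837379)] (nat_lit 22633645)) p15_19_0 (nat_lit 4) (nat_lit 179) (nat_lit 180) = true := by decide +kernel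
def p15_19_0_180 : pfC (piC [(nat_lit 39633164), (nat_lit 25639500), (nat_lit 19173228), (nat_lit 12837379)] (nat_lit 22633645)) p15_19_0 (nat_lit 4) (nat_lit 180) (nat_lit 181) = true := by decide +kernel
def p15_19_0_181 : pfC (piC [(nat_lit 39633164), (nat_lit 25639500), (nat_lit 19173228), (nat_lit 12837379)] (nat_lit 22633645)) p15_19_0 (nat_lit 4) (nat_lit 181) (nat_lit 182) = true := by decide +kernel
def p15_19_0_182 : pfC (piC [(nat_lit 39633164), (nat_lit 25639500), (nat_lit 19173228), (nat_lit 12837379)] (nat_lit 22633645)) p15_19_0 (nat_lit 4) (nat_lit 182) (nat_lit 183) = true := by decide +kernel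
def p15_19_0_183 : pfC (piC [(nat_lit 39633164), (nat_lit 25639500), (nat_lit 19173228), (nat_lit 12837379)] (nat_lit 22633645)) p15_19_0 (nat_lit 4) (nat_lit 183) (nat_lit 184) = true := by decide +kernel
def p15_19_0_184 : pfC (piC [(nat_lit 39633164), (nat_lit 25639500), (nat_lit 19173228), (nat_lit 12837379)] (nat_lit 22633645)) p15_19_0 (nat_lit 4) (nat_lit 184) (nat_lit 185) = true := by decide +kernel
def p15_19_0_185 : pfC (piC [(nat_lit 39633164), (nat_lit 25639500), (nat_lit 19173228), (nat_lit 12837379)] (nat_lit 22633645)) p15_19_0 (nat_lit 4) (nat_lit 185) (nat_lit 186) = true := by decide +kernel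
def p15_19_0_186 : pfC (piC [(nat_lit 39633164), (nat_lit 25639500), (nat_lit 19173228), (nat_lit 12837379)] (nat_lit 22633645)) p15_19_0 (nat_lit 4) (nat_lit 186) (nat_lit 187) = true := by decide +kernel
def p15_19_0_187 : pfC (piC [(nat_lit 39633164), (nat_lit 25639500), (nat_lit 19173228), (nat_lit 12837379)] (nat_lit 22633645)) p15_19_0 (nat_lit 4) (nat_lit 187) (nat_lit 188) = true := by decide +kernel
def p15_19_0_188 : pfC (piC [(nat_lit 39633164), (nat_lit 25639500), (nat_lit 19173228), (nat_lit 12837379)] (nat_lit 22633645)) p15_19_0 (nat_lit 4) (nat_lit 188) (nat_lit 189) = true := by decide +kernel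
def p15_19_0_189 : pfC (piC [(nat_lit 39633164), (nat_lit 25639500), (nat_lit 19173228), (nat_lit 12837379)] (nat_lit 22633645)) p15_19_0 (nat_lit 4) (nat_lit 189) (nat_lit 190) = true := by decide +kernel
def p15_19_0_190 : pfC (piC [(nat_lit 39633164), (nat_lit 25639500), (nat_lit 19173228), (nat_lit 12837379)] (nat_lit 22633645)) p15_19_0 (nat_lit 4) (nat_lit 190) (nat_lit 191) = true := by decide +kernel
def p15_19_0_191 : pfC (piC [(nat_lit 39633164), (nat_lit 25639500), (nat_lit 19173228), (nat_lit 12837379)] (nat_lit 22633645)) p15_19_0 (nat_lit 4) (nat_lit 191) (nat_lit 192) = true := by decide +kernel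
def p15_19_0_192 : pfC (piC [(nat_lit 39633164), (nat_lit 25639500), (nat_lit 19173228), (nat_lit 12837379)] (nat_lit 22633645)) p15_19_0 (nat_lit 4) (nat_lit 192) (nat_lit 193) = true := by decide +kernel
def p15_19_0_193 : pfC (piC [(nat_lit 39633164), (nat_lit 25639500), (nat_lit 19173228), (nat_lit 12837379)] (nat_lit 22633645)) p15_19_0 (nat_lit 4) (nat_lit 193) (nat_lit 194) = true := by decide +kernel
def p15_19_0_194 : pfC (piC [(nat_lit 39633164), (nat_lit 25639500), (nat_lit 19173228), (nat_lit 12837379)] (nat_lit 22633645)) p15_19_0 (nat_lit 4) (nat_lit 194) (nat_lit 195) = true := by decide +kernel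
def p15_19_0_195 : pfC (piC [(nat_lit 39633164), (nat_lit 25639500), (nat_lit 19173228), (nat_lit 12837379)] (nat_lit 22633645)) p15_19_0 (nat_lit 4) (nat_lit 195) (nat_lit 196) = true := by decide +kernel
def p15_19_0_196 : pfC (piC [(nat_lit 39633164), (nat_lit 25639500), (nat_lit 19173228), (nat_lit 12837379)] (nat_lit 22633645)) p15_19_0 (nat_lit 4) (nat_lit 196) (nat_lit 197) = true := by decide +kernel
def p15_19_0_197 : pfC (piC [(nat_lit 39633164), (nat_lit 25639500), (nat_lit 19173228), (nat_lit 12837379)] (nat_lit 22633645)) p15_19_0 (nat_lit 4) (nat_lit 197) (nat_lit 198) = true := by decide +kernel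
def p15_19_0_198 : pfC (piC [(nat_lit 39633164), (nat_lit 25639500), (nat_lit 19173228), (nat_lit 12837379)] (nat_lit 22633645)) p15_19_0 (nat_lit 4) (nat_lit 198) (nat_lit 199) = true := by decide +kernel
def p15_19_0_199 : pfC (piC [(nat_lit 39633164), (nat_lit 25639500), (nat_lit 19173228), (nat_lit 12837379)] (nat_lit 22633645)) p15_19_0 (nat_lit 4) (nat_lit 199) (nat_lit 200) = true := by decide +kernel
def p15_19_0_200 : pfC (piC [(nat_lit 39633164), (nat_lit 25639500), (nat_lit 19173228), (nat_lit 12837379)] (nat_lit 22633645)) p15_19_0 (nat_lit 4) (nat_lit 200) (nat_lit 201) = true := by decide +kernel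
def p15_19_0_201 : pfC (piC [(nat_lit 39633164), (nat_lit 25639500), (nat_lit 19173228), (nat_lit 12837379)] (nat_lit 22633645)) p15_19_0 (nat_lit 4) (nat_lit 201) (nat_lit 202) = true := by decide +kernel
def p15_19_0_202 : pfC (piC [(nat_lit 39633164), (nat_lit 25639500), (nat_lit 19173228), (nat_lit 12837379)] (nat_lit 22633645)) p15_19_0 (nat_lit 4) (nat_lit 202) (nat_lit 203) = true := by decide +kernel
def p15_19_0_203 : pfC (piC [(nat_lit 39633164), (nat_lit 25639500), (nat_lit 19173228), (nat_lit 12837379)] (nat_lit 22633645)) p15_19_0 (nat_lit 4) (nat_lit 203) (nat_lit 204) = true := by decide +kernel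
def p15_19_0_204 : pfC (piC [(nat_lit 39633164), (nat_lit 25639500), (nat_lit 19173228), (nat_lit 12837379)] (nat_lit 22633645)) p15_19_0 (nat_lit 4) (nat_lit 204) (nat_lit 205) = true := by decide +kernel
def p15_19_0_205 : pfC (piC [(nat_lit 39633164), (nat_lit 25639500), (nat_lit 19173228), (nat_lit 12837379)] (nat_lit 22633645)) p15_19_0 (nat_lit 4) (nat_lit 205) (nat_lit 206) = true := by decide +kernel
def p15_19_0_206 : pfC (piC [(nat_lit 39633164), (nat_lit 25639500), (nat_lit 19173228), (nat_lit 12837379)] (nat_lit 22633645)) p15_19_0 (nat_lit 4) (nat_lit 206) (nat_lit 207) = true := by decide +kernel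
def p15_19_0_207 : pfC (piC [(nat_lit 39633164), (nat_lit 25639500), (nat_lit 19173228), (nat_lit 12837379)] (nat_lit 22633645)) p15_19_0 (nat_lit 4) (nat_lit 207) (nat_lit 208) = true := by decide +kernel
def p15_19_0_208 : pfC (piC [(nat_lit 39633164), (nat_lit 25639500), (nat_lit 19173228), (nat_lit 12837379)] (nat_lit 22633645)) p15_19_0 (nat_lit 4) (nat_lit 208) (nat_lit 209) = true := by decide +kernel
def p15_19_0_209 : pfC (piC [(nat_lit 39633164), (nat_lit 25639500), (nat_lit 19173228), (nat_lit 12837379)] (nat_lit 22633645)) p15_19_0 (nat_lit 4) (nat_lit 209) (nat_lit 210) = true := by decide +kernel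
def p15_19_0_210 : pfC (piC [(nat_lit 39633164), (nat_lit 25639500), (nat_lit 19173228), (nat_lit 12837379)] (nat_lit 22633645)) p15_19_0 (nat_lit 4) (nat_lit 210) (nat_lit 211) = true := by decide +kernel
def p15_19_0_211 : pfC (piC [(nat_lit 39633164), (nat_lit 25639500), (nat_lit 19173228), (nat_lit 12837379)] (nat_lit 22633645)) p15_19_0 (nat_lit 4) (nat_lit 211) (nat_lit 212) = true := by decide +kernel
def p15_19_0_212 : pfC (piC [(nat_lit 39633164), (nat_lit 25639500), (nat_lit 19173228), (nat_lit 12837379)] (nat_lit 22633645)) p15_19_0 (nat_lit 4) (nat_lit 212) (nat_lit 213) = true := by decide +kernel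
def p15_19_0_213 : pfC (piC [(nat_lit 39633164), (nat_lit 25639500), (nat_lit 19173228), (nat_lit 12837379)] (nat_lit 22633645)) p15_19_0 (nat_lit 4) (nat_lit 213) (nat_lit 214) = true := by decide +kernel
def p15_19_0_214 : pfC (piC [(nat_lit 39633164), (nat_lit 25639500), (nat_lit 19173228), (nat_lit 12837379)] (nat_lit 22633645)) p15_19_0 (nat_lit 4) (nat_lit 214) (nat_lit 215) = true := by decide +kernel
def p15_19_0_215 : pfC (piC [(nat_lit 39633164), (nat_lit 25639500), (nat_lit 19173228), (nat_lit 12837379)] (nat_lit 22633645)) p15_19_0 (nat_lit 4) (nat_lit 215) (nat_lit 216) = true := by decide +kernel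
def p15_19_0_216 : pfC (piC [(nat_lit 39633164), (nat_lit 25639500), (nat_lit 19173228), (nat_lit 12837379)] (nat_lit 22633645)) p15_19_0 (nat_lit 4) (nat_lit 216) (nat_lit 217) = true := by decide +kernel
def p15_19_0_217 : pfC (piC [(nat_lit 39633164), (nat_lit 25639500), (nat_lit 19173228), (nat_lit 12837379)] (nat_lit 22633645)) p15_19_0 (nat_lit 4) (nat_lit 217) (nat_lit 218) = true := by decide +kernel
def p15_19_0_218 : pfC (piC [(nat_lit 39633164), (nat_lit 25639500), (nat_lit 19173228), (nat_lit 12837379)] (nat_lit 22633645)) p15_19_0 (nat_lit 4) (nat_lit 218) (nat_lit 219) = true := by decide +kernel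
def p15_19_0_219 : pfC (piC [(nat_lit 39633164), (nat_lit 25639500), (nat_lit 19173228), (nat_lit 12837379)] (nat_lit 22633645)) p15_19_0 (nat_lit 4) (nat_lit 219) (nat_lit 220) = true := by decide +kernel
def p15_19_0_220 : pfC (piC [(nat_lit 39633164), (nat_lit 25639500), (nat_lit 19173228), (nat_lit 12837379)] (nat_lit 22633645)) p15_19_0 (nat_lit 4) (nat_lit 220) (nat_lit 221) = true := by decide +kernel
def p15_19_0_221 : pfC (piC [(nat_lit 39633164), (nat_lit 25639500), (nat_lit 19173228), (nat_lit 12837379)] (nat_lit 22633645)) p15_19_0 (nat_lit 4) (nat_lit 221) (nat_lit 222) = true := by decide +kernel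
def p15_19_0_222 : pfC (piC [(nat_lit 39633164), (nat_lit 25639500), (nat_lit 19173228), (nat_lit 12837379)] (nat_lit 22633645)) p15_19_0 (nat_lit 4) (nat_lit 222) (nat_lit 223) = true := by decide +kernel
def p15_19_0_223 : pfC (piC [(nat_lit 39633164), (nat_lit 25639500), (nat_lit 19173228), (nat_lit 12837379)] (nat_lit 22633645)) p15_19_0 (nat_lit 4) (nat_lit 223) (nat_lit 224) = true := by decide +kernel
def p15_19_0_224 : pfC (piC [(nat_lit 39633164), (nat_lit 25639500), (nat_lit 19173228), (nat_lit 12837379)] (nat_lit 22633645)) p15_19_0 (nat_lit 4) (nat_lit 224) (nat_lit 225) = true := by decide +kernel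
def p15_19_0_225 : pfC (piC [(nat_lit 39633164), (nat_lit 25639500), (nat_lit 19173228), (nat_lit 12837379)] (nat_lit 22633645)) p15_19_0 (nat_lit 4) (nat_lit 225) (nat_lit 226) = true := by decide +kernel
def p15_19_0_226 : pfC (piC [(nat_lit 39633164), (nat_lit 25639500), (nat_lit 19173228), (nat_lit 12837379)] (nat_lit 22633645)) p15_19_0 (nat_lit 4) (nat_lit 226) (nat_lit 227) = true := by decide +kernel
def p15_19_0_227 : pfC (piC [(nat_lit 39633164), (nat_lit 25639500), (nat_lit 19173228), (nat_lit 12837379)] (nat_lit 22633645)) p15_19_0 (nat_lit 4) (nat_lit 227) (nat_lit 228) = true := by decide +kernel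
def p15_19_0_228 : pfC (piC [(nat_lit 39633164), (nat_lit 25639500), (nat_lit 19173228), (nat_lit 12837379)] (nat_lit 22633645)) p15_19_0 (nat_lit 4) (nat_lit 228) (nat_lit 229) = true := by decide +kernel
def p15_19_0_229 : pfC (piC [(nat_lit 39633164), (nat_lit 25639500), (nat_lit 19173228), (nat_lit 12837379)] (nat_lit 22633645)) p15_19_0 (nat_lit 4) (nat_lit 229) (nat_lit 230) = true := by decide +kernel
def p15_19_0_230 : pfC (piC [(nat_lit 39633164), (nat_lit 25639500), (nat_lit 19173228), (nat_lit 12837379)] (nat_lit 22633645)) p15_19_0 (nat_lit 4) (nat_lit 230) (nat_lit 231) = true := by decide +kernel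
def p15_19_0_231 : pfC (piC [(nat_lit 39633164), (nat_lit 25639500), (nat_lit 19173228), (nat_lit 12837379)] (nat_lit 22633645)) p15_19_0 (nat_lit 4) (nat_lit 231) (nat_lit 232) = true := by decide +kernel
def p15_19_0_232 : pfC (piC [(nat_lit 39633164), (nat_lit 25639500), (nat_lit 19173228), (nat_lit 12837379)] (nat_lit 22633645)) p15_19_0 (nat_lit 4) (nat_lit 232) (nat_lit 233) = true := by decide +kernel
theorem p15_19_0_T : PfS (PiF n15_19.reverse (nat_lit 22633645)) p15_19_0 (nat_lit 4) [] 0 :=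
  pftab_of (los := [(nat_lit 39633164), (nat_lit 25639500), (nat_lit 19173228), (nat_lit 12837379)]) (by decide +kernel) (hi := (nat_lit 233)) (PfP.trans (PfP.trans (PfP.trans (PfP.trans (PfP.trans (PfP.trans (PfP.trans (PfP.trans (PfP.trans (PfP.trans (PfP.trans (PfP.trans (PfP.trans (PfP.trans (PfP.trans (PfP.trans (PfP.trans (PfP.trans (PfP.trans (PfP.trans (PfP.trans (PfP.trans (PfP.trans (PfP.trans (PfP.trans (PfP.trans (PfP.trans (PfP.trans (PfP.trans (PfP.trans (PfP.trans (PfP.trans (PfP.trans (PfP.trans (PfP.trans (PfP.trans (PfP.trans (PfP.trans (PfP.trans (PfP.trans (PfP.trans (PfP.trans (PfP.trans (PfP.trans (PfP.trans (PfP.trans (PfP.trans (PfP.trans (PfP.trans (PfP.trans (PfP.trans (PfP.trans (PfP.trans (PfP.trans (PfP.trans (PfP.trans (PfP.trans (PfP.trans (PfP.trans (PfP.trans (PfP.trans (PfP.trans (PfP.trans (PfP.trans (PfP.trans (PfP.trans (PfP.trans (PfP.trans (PfP.trans (PfP.trans (PfP.trans (PfP.trans (PfP.trans (PfP.trans (PfP.trans (PfP.trans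 (PfP.trans (PfP.trans (PfP.trans (PfP.trans (PfP.trans (PfP.trans (PfP.trans (PfP.trans (PfP.trans (PfP.trans (PfP.trans (PfP.trans (PfP.trans (PfP.trans (PfP.trans (PfP.trans (PfP.trans (PfP.trans (PfP.trans (PfP.trans (PfP.trans (PfP.trans (PfP.trans (PfP.trans (PfP.trans (PfP.trans (PfP.trans (PfP.trans (PfP.trans (PfP.trans (PfP.trans (PfP.trans (PfP.trans
 (PfP.trans (PfP.trans (PfP.trans (PfP.trans (PfP.trans (PfP.trans (PfP.trans (PfP.trans (PfP.trans (PfP.trans (PfP.trans (PfP.trans (PfP.trans (PfP.trans (PfP.trans (PfP.trans (PfP.trans (PfP.trans (PfP.trans (PfP.trans (PfP.trans (PfP.trans (PfP.trans (PfP.trans (PfP.trans (PfP.trans (PfP.trans (PfP.trans (PfP.trans (PfP.trans (PfP.trans (PfP.trans (PfP.trans (PfP.trans (PfP.trans (PfP.trans (PfP.trans (PfP.trans (PfP.trans (PfP.trans (PfP.trans (PfP.trans (PfP.trans (PfP.trans (PfP.trans (PfP.trans (PfP.trans (PfP.trans (PfP.trans (PfP.trans (PfP.trans (PfP.trans (PfP.trans (PfP.trans (PfP.trans (PfP.trans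 (PfP.trans (PfP.trans (PfP.trans (PfP.trans (PfP.trans (PfP.trans (PfP.trans (PfP.trans (PfP.trans (PfP.trans (PfP.trans (PfP.trans (PfP.trans (PfP.trans (PfP.trans (PfP.trans (PfP.trans (PfP.trans (PfP.trans (PfP.trans (PfP.trans (PfP.trans (PfP.trans (PfP.trans (PfP.trans (PfP.trans (PfP.trans (PfP.trans (PfP.trans (PfP.trans (PfP.trans (PfP.trans (PfP.trans (PfP.trans (PfP.trans (PfP.trans (PfP.trans (PfP.trans (PfP.trans (PfP.trans (PfP.trans (PfP.trans (PfP.trans (PfP.trans (PfP.trans (PfP.trans (PfP.trans (PfP.trans (PfP.trans (PfP.trans (PfP.trans (PfP.trans (PfP.trans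
 (PfP.trans (PfP.trans (PfP.trans (PfP.trans (PfP.trans (PfP.trans (PfP.trans (PfP.trans (PfP.trans (PfP.trans (PfP.trans (PfP.trans (PfP.trans (PfP.trans (pfC_sound p15_19_0_0) (pfC_sound p15_19_0_1)) (pfC_sound p15_19_0_2)) (pfC_sound p15_19_0_3)) (pfC_sound p15_19_0_4)) (pfC_sound p15_19_0_5)) (pfC_sound p15_19_0_6)) (pfC_sound p15_19_0_7)) (pfC_sound p15_19_0_8)) (pfC_sound p15_19_0_9)) (pfC_sound p15_19_0_10)) (pfC_sound p15_19_0_11)) (pfC_sound p15_19_0_12)) (pfC_sound p15_19_0_13)) (pfC_sound p15_19_0_14)) (pfC_sound p15_19_0_15)) (pfC_sound p15_19_0_16)) (pfC_sound p15_19_0_17)) (pfC_sound p15_19_0_18)) (pfC_sound p15_19_0_19)) (pfC_sound p15_19_0_20)) (pfC_sound p15_19_0_21)) (pfC_sound p15_19_0_22)) (pfC_sound p15_19_0_23)) (pfC_sound p15_19_0_24)) (pfC_sound p15_19_0_25)) (pfC_sound p15_19_0_26)) (pfC_sound p15_19_0_27)) (pfC_sound p15_19_0_28)) (pfC_sound p15_19_0_29)) (pfC_sound p15_19_0_30)) (pfC_sound p15_19_0_31)) (pfC_sound p15_19_0_32)) (pfC_sound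 p15_19_0_33)) (pfC_sound p15_19_0_34)) (pfC_sound p15_19_0_35)) (pfC_sound p15_19_0_36)) (pfC_sound p15_19_0_37)) (pfC_sound p15_19_0_38)) (pfC_sound p15_19_0_39)) (pfC_sound p15_19_0_40)) (pfC_sound p15_19_0_41))
 (pfC_sound p15_19_0_42)) (pfC_sound p15_19_0_43)) (pfC_sound p15_19_0_44)) (pfC_sound p15_19_0_45)) (pfC_sound p15_19_0_46)) (pfC_sound p15_19_0_47)) (pfC_sound p15_19_0_48)) (pfC_sound p15_19_0_49)) (pfC_sound p15_19_0_50)) (pfC_sound p15_19_0_51)) (pfC_sound p15_19_0_52)) (pfC_sound p15_19_0_53)) (pfC_sound p15_19_0_54)) (pfC_sound p15_19_0_55)) (pfC_sound p15_19_0_56)) (pfC_sound p15_19_0_57)) (pfC_sound p15_19_0_58)) (pfC_sound p15_19_0_59)) (pfC_sound p15_19_0_60)) (pfC_sound p15_19_0_61)) (pfC_sound p15_19_0_62)) (pfC_sound p15_19_0_63)) (pfC_sound p15_19_0_64)) (pfC_sound p15_19_0_65)) (pfC_sound p15_19_0_66)) (pfC_sound p15_19_0_67)) (pfC_sound p15_19_0_68)) (pfC_sound p15_19_0_69)) (pfC_sound p15_19_0_70)) (pfC_sound p15_19_0_71)) (pfC_sound p15_19_0_72))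 (pfC_sound p15_19_0_73)) (pfC_sound p15_19_0_74)) (pfC_sound p15_19_0_75)) (pfC_sound p15_19_0_76)) (pfC_sound p15_19_0_77)) (pfC_sound p15_19_0_78)) (pfC_sound p15_19_0_79)) (pfC_sound p15_19_0_80)) (pfC_sound p15_19_0_81)) (pfC_sound p15_19_0_82)) (pfC_sound p15_19_0_83)) (pfC_sound p15_19_0_84)) (pfC_sound p15_19_0_85)) (pfC_sound p15_19_0_86)) (pfC_sound p15_19_0_87)) (pfC_sound p15_19_0_88)) (pfC_sound p15_19_0_89))
 (pfC_sound p15_19_0_90)) (pfC_sound p15_19_0_91)) (pfC_sound p15_19_0_92)) (pfC_sound p15_19_0_93)) (pfC_sound p15_19_0_94)) (pfC_sound p15_19_0_95)) (pfC_sound p15_19_0_96)) (pfC_sound p15_19_0_97)) (pfC_sound p15_19_0_98)) (pfC_sound p15_19_0_99)) (pfC_sound p15_19_0_100)) (pfC_sound p15_19_0_101)) (pfC_sound p15_19_0_102)) (pfC_sound p15_19_0_103)) (pfC_sound p15_19_0_104)) (pfC_sound p15_19_0_105)) (pfC_sound p15_19_0_106)) (pfC_sound p15_19_0_107)) (pfC_sound p15_19_0_108)) (pfC_sound p15_19_0_109)) (pfC_sound p15_19_0_110)) (pfC_sound p15_19_0_111))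 (pfC_sound p15_19_0_112)) (pfC_sound p15_19_0_113)) (pfC_sound p15_19_0_114)) (pfC_sound p15_19_0_115)) (pfC_sound p15_19_0_116)) (pfC_sound p15_19_0_117)) (pfC_sound p15_19_0_118)) (pfC_sound p15_19_0_119)) (pfC_sound p15_19_0_120)) (pfC_sound p15_19_0_121)) (pfC_sound p15_19_0_122)) (pfC_sound p15_19_0_123)) (pfC_sound p15_19_0_124)) (pfC_sound p15_19_0_125)) (pfC_sound p15_19_0_126)) (pfC_sound p15_19_0_127)) (pfC_sound p15_19_0_128)) (pfC_sound p15_19_0_129)) (pfC_sound p15_19_0_130)) (pfC_sound p15_19_0_131)) (pfC_sound p15_19_0_132)) (pfC_sound p15_19_0_133)) (pfC_sound p15_19_0_134)) (pfC_sound p15_19_0_135)) (pfC_sound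
 p15_19_0_136)) (pfC_sound p15_19_0_137)) (pfC_sound p15_19_0_138)) (pfC_sound p15_19_0_139)) (pfC_sound p15_19_0_140)) (pfC_sound p15_19_0_141)) (pfC_sound p15_19_0_142)) (pfC_sound p15_19_0_143)) (pfC_sound p15_19_0_144)) (pfC_sound p15_19_0_145)) (pfC_sound p15_19_0_146)) (pfC_sound p15_19_0_147)) (pfC_sound p15_19_0_148)) (pfC_sound p15_19_0_149)) (pfC_sound p15_19_0_150)) (pfC_sound p15_19_0_151)) (pfC_sound p15_19_0_152)) (pfC_sound p15_19_0_153)) (pfC_sound p15_19_0_154)) (pfC_sound p15_19_0_155)) (pfC_sound p15_19_0_156)) (pfC_sound p15_19_0_157)) (pfC_sound p15_19_0_158)) (pfC_sound p15_19_0_159)) (pfC_sound p15_19_0_160)) (pfC_sound p15_19_0_161)) (pfC_sound p15_19_0_162)) (pfC_sound p15_19_0_163)) (pfC_sound p15_19_0_164)) (pfC_sound p15_19_0_165)) (pfC_sound p15_19_0_166)) (pfC_sound p15_19_0_167)) (pfC_sound p15_19_0_168)) (pfC_sound p15_19_0_169)) (pfC_sound p15_19_0_170)) (pfC_sound p15_19_0_171)) (pfC_sound p15_19_0_172)) (pfC_sound p15_19_0_173))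 (pfC_sound p15_19_0_174)) (pfC_sound p15_19_0_175)) (pfC_sound p15_19_0_176)) (pfC_sound p15_19_0_177)) (pfC_sound p15_19_0_178)) (pfC_sound p15_19_0_179)) (pfC_sound p15_19_0_180)) (pfC_sound p15_19_0_181)) (pfC_sound
 p15_19_0_182)) (pfC_sound p15_19_0_183)) (pfC_sound p15_19_0_184)) (pfC_sound p15_19_0_185)) (pfC_sound p15_19_0_186)) (pfC_sound p15_19_0_187)) (pfC_sound p15_19_0_188)) (pfC_sound p15_19_0_189)) (pfC_sound p15_19_0_190)) (pfC_sound p15_19_0_191)) (pfC_sound p15_19_0_192)) (pfC_sound p15_19_0_193)) (pfC_sound p15_19_0_194)) (pfC_sound p15_19_0_195)) (pfC_sound p15_19_0_196)) (pfC_sound p15_19_0_197)) (pfC_sound p15_19_0_198)) (pfC_sound p15_19_0_199)) (pfC_sound p15_19_0_200)) (pfC_sound p15_19_0_201)) (pfC_sound p15_19_0_202)) (pfC_sound p15_19_0_203)) (pfC_sound p15_19_0_204)) (pfC_sound p15_19_0_205)) (pfC_sound p15_19_0_206)) (pfC_sound p15_19_0_207)) (pfC_sound p15_19_0_208)) (pfC_sound p15_19_0_209)) (pfC_sound p15_19_0_210)) (pfC_sound p15_19_0_211))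 (pfC_sound p15_19_0_212)) (pfC_sound p15_19_0_213)) (pfC_sound p15_19_0_214)) (pfC_sound p15_19_0_215)) (pfC_sound p15_19_0_216)) (pfC_sound p15_19_0_217)) (pfC_sound p15_19_0_218)) (pfC_sound p15_19_0_219)) (pfC_sound p15_19_0_220)) (pfC_sound p15_19_0_221)) (pfC_sound p15_19_0_222)) (pfC_sound p15_19_0_223)) (pfC_sound p15_19_0_224)) (pfC_sound p15_19_0_225)) (pfC_sound p15_19_0_226)) (pfC_sound p15_19_0_227)) (pfC_sound
 p15_19_0_228)) (pfC_sound p15_19_0_229)) (pfC_sound p15_19_0_230)) (pfC_sound p15_19_0_231)) (pfC_sound p15_19_0_232)) (by decide +kernel)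

def z15_19_0 : zOK yB15_19 (nat_lit 0) (nat_lit 0) (nat_lit 400) (nat_lit 22633645) (nat_lit 10356376) = true := by decide +kernel
def g15_19_0 : gOK yB15_19.x P15_19 (nat_lit 1417) (q15_19 :: r15_19) (nat_lit 0) (nat_lit 0) (nat_lit 1) (nat_lit 400) (nat_lit 0) (nat_lit 11000000) (nat_lit 12712500) (nat_lit 12712500) [(nat_lit 800), (nat_lit 1400), (nat_lit 1580)] = true := by decide +kernel
def v15_19_0 : ivC P15_19 s15_19 w15_19 n15_19 (nat_lit 4) (nat_lit 5410) (nat_lit 0) (nat_lit 0) f152_1_0 f160_1_0 (nat_lit 1) (nat_lit 400) f152_1_400 f160_1_400 (nat_lit 22633645) (nat_lit 10356376) p15_19_0 = true := by decide +kernel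
def p15_19_1 : PF := (PF.cons (PF.cons (PF.cons (PF.cons (PF.leaf (nat_lit 2148423) (nat_lit 10338690) (nat_lit 56770122) (nat_lit 10338690) [(nat_lit 0), (nat_lit 0), (nat_lit 0), (nat_lit 0)]) (PF.cons (PF.leaf (nat_lit 2305744) (nat_lit 266794) (nat_lit 56484123) (nat_lit 10357895) [(nat_lit 266794), (nat_lit 0), (nat_lit 0), (nat_lit 0)]) (PF.cons (PF.leaf (nat_lit 2492589) (nat_lit 290488) (nat_lit 56149288) (nat_lit 10378547) [(nat_lit 290488), (nat_lit 0), (nat_lit 0), (nat_lit 0)]) (PF.cons (PF.leaf (nat_lit 2702752) (nat_lit 311630) (nat_lit 55774495) (nat_lit 10399426) [(nat_lit 311630), (nat_lit 0), (nat_lit 0), (nat_lit 0)]) (PF.cons (PF.leaf (nat_lit 2933007) (nat_lit 330793) (nat_lit 55366039) (nat_lit 10419597) [(nat_lit 330793), (nat_lit 0), (nat_lit 0), (nat_lit 0)]) (PF.cons (PF.leaf (nat_lit 3180928) (nat_lit 348339) (nat_lit 54928788) (nat_lit 10438328) [(nat_lit 348339), (nat_lit 0), (nat_lit 0), (nat_lit 0)]) (PF.cons (PF.leaf (nat_lit 3444503)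 (nat_lit 364510) (nat_lit 54466717) (nat_lit 10455031) [(nat_lit 364510), (nat_lit 0), (nat_lit 0), (nat_lit 0)]) (PF.cons (PF.leaf (nat_lit 3722020) (nat_lit 379481) (nat_lit 53983198) (nat_lit 10469243) [(nat_lit 379481), (nat_lit 0),
 (nat_lit 0), (nat_lit 0)]) (PF.cons PF.nil (PF.cons PF.nil PF.nil)))))))))) (PF.cons (PF.cons (PF.leaf (nat_lit 2697414) (nat_lit 1248138) (nat_lit 55451216) (nat_lit 10409457) [(nat_lit 0), (nat_lit 1248138), (nat_lit 0), (nat_lit 0)]) (PF.cons (PF.leaf (nat_lit 2902373) (nat_lit 323201) (nat_lit 55078747) (nat_lit 10426036) [(nat_lit 323201), (nat_lit 1280827), (nat_lit 0), (nat_lit 0)]) (PF.cons (PF.leaf (nat_lit 3129693) (nat_lit 341655) (nat_lit 54670717) (nat_lit 10441814) [(nat_lit 341655), (nat_lit 1312971), (nat_lit 0), (nat_lit 0)]) (PF.cons (PF.leaf (nat_lit 3375302) (nat_lit 358478) (nat_lit 54233262) (nat_lit 10456059) [(nat_lit 358478), (nat_lit 1344055), (nat_lit 0), (nat_lit 0)]) (PF.cons (PF.leaf (nat_lit 3636836)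 (nat_lit 373942) (nat_lit 53771015) (nat_lit 10468215) [(nat_lit 373942), (nat_lit 1373810), (nat_lit 0), (nat_lit 0)]) (PF.cons (PF.leaf (nat_lit 3912380) (nat_lit 388233) (nat_lit 53287697) (nat_lit 10477855) [(nat_lit 388233), (nat_lit 1402093), (nat_lit 0), (nat_lit 0)]) (PF.cons (PF.leaf (nat_lit 4200298) (nat_lit 401482) (nat_lit 52786431) (nat_lit 10484652) [(nat_lit 401482), (nat_lit 1428836), (nat_lit 0), (nat_lit 0)]) (PF.cons PF.nil (PF.cons
 PF.nil PF.nil))))))))) (PF.cons (PF.cons (PF.leaf (nat_lit 3330344) (nat_lit 1346496) (nat_lit 53958276) (nat_lit 10457542) [(nat_lit 0), (nat_lit 1346496), (nat_lit 0), (nat_lit 0)]) (PF.cons (PF.leaf (nat_lit 3571147) (nat_lit 367289) (nat_lit 53525303) (nat_lit 10467399) [(nat_lit 367289), (nat_lit 1374410), (nat_lit 0), (nat_lit 0)]) (PF.cons (PF.leaf (nat_lit 3829369) (nat_lit 382232) (nat_lit 53066467) (nat_lit 10475158) [(nat_lit 382232), (nat_lit 1401360), (nat_lit 0), (nat_lit 0)]) (PF.cons (PF.leaf (nat_lit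 4101982) (nat_lit 395980) (nat_lit 52586221) (nat_lit 10480415) [(nat_lit 395980), (nat_lit 1427116), (nat_lit 0), (nat_lit 0)]) (PF.cons (PF.leaf (nat_lit 4387113) (nat_lit 408685) (nat_lit 52088093) (nat_lit 10482869) [(nat_lit 408685), (nat_lit 1451554), (nat_lit 0), (nat_lit 0)]) (PF.cons PF.nil (PF.cons PF.nil PF.nil))))))) (PF.cons (PF.cons (PF.leaf (nat_lit 4023662) (nat_lit 1426492) (nat_lit 52353342) (nat_lit 10475993) [(nat_lit 0), (nat_lit 1426492), (nat_lit 0), (nat_lit 0)]) (PF.cons (PF.leaf (nat_lit 4291554) (nat_lit 402759) (nat_lit 51879300) (nat_lit 10477103) [(nat_lit 402759), (nat_lit 1449883), (nat_lit 0), (nat_lit 0)]) (PF.cons (PF.leaf (nat_lit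
 4573022) (nat_lit 415029) (nat_lit 51386785) (nat_lit 10475467) [(nat_lit 415029), (nat_lit 1472167), (nat_lit 0), (nat_lit 0)]) (PF.cons (PF.leaf (nat_lit 4865738) (nat_lit 426351) (nat_lit 50879148) (nat_lit 10470892) [(nat_lit 426351), (nat_lit 1493238), (nat_lit 0), (nat_lit 0)]) (PF.cons PF.nil PF.nil))))) (PF.cons (PF.cons (PF.leaf (nat_lit 4759180) (nat_lit 1490856) (nat_lit 50682741) (nat_lit 10462644) [(nat_lit 0), (nat_lit 1490856), (nat_lit 0), (nat_lit 0)]) (PF.cons (PF.leaf (nat_lit 5047114) (nat_lit 431493) (nat_lit 50182721) (nat_lit 10454346) [(nat_lit 431493), (nat_lit 1510062), (nat_lit 0), (nat_lit 0)]) (PF.cons PF.nil (PF.cons PF.nil PF.nil)))) (PF.cons (PF.cons (PF.leaf (nat_lit 5522246) (nat_lit 1541669) (nat_lit 48982180) (nat_lit 10418283) [(nat_lit 0), (nat_lit 1541669), (nat_lit 0), (nat_lit 0)]) (PF.cons PF.nil PF.nil)) (PF.cons PF.nil (PF.cons PF.nil PF.nil)))))))) (PF.cons (PF.cons (PF.cons (PF.leaf (nat_lit 3271673) (nat_lit 3295376)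 (nat_lit 53373234) (nat_lit 10440202) [(nat_lit 0), (nat_lit 0), (nat_lit 3295376), (nat_lit 0)]) (PF.cons (PF.leaf (nat_lit 3487005) (nat_lit 348498) (nat_lit 52988395) (nat_lit 10446787) [(nat_lit 348498), (nat_lit 0),
 (nat_lit 3325131), (nat_lit 0)]) (PF.cons (PF.leaf (nat_lit 3723615) (nat_lit 365799) (nat_lit 52570345) (nat_lit 10451793) [(nat_lit 365799), (nat_lit 0), (nat_lit 3355075), (nat_lit 0)]) (PF.cons (PF.leaf (nat_lit 3977291) (nat_lit 381337) (nat_lit 52125587) (nat_lit 10454738) [(nat_lit 381337), (nat_lit 0), (nat_lit 3384473), (nat_lit 0)]) (PF.cons (PF.leaf (nat_lit 4245552) (nat_lit 395447) (nat_lit 51658911) (nat_lit 10455271) [(nat_lit 395447), (nat_lit 0), (nat_lit 3412838), (nat_lit 0)]) (PF.cons (PF.leaf (nat_lit 4526422) (nat_lit 408353) (nat_lit 51174077) (nat_lit 10453129) [(nat_lit 408353), (nat_lit 0), (nat_lit 3439838), (nat_lit 0)]) (PF.cons PF.nil (PF.cons PF.nil (PF.cons PF.nil PF.nil))))))))) (PF.cons (PF.cons (PF.leaf (nat_lit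 3920077) (nat_lit 1409056) (nat_lit 51859531) (nat_lit 10449560) [(nat_lit 0), (nat_lit 1409056), (nat_lit 3390663), (nat_lit 0)]) (PF.cons (PF.leaf (nat_lit 4167731) (nat_lit 387969) (nat_lit 51422967) (nat_lit 10448798) [(nat_lit 387969), (nat_lit 1432596), (nat_lit 3416480), (nat_lit 0)]) (PF.cons (PF.leaf (nat_lit 4431550) (nat_lit 401710) (nat_lit 50963094) (nat_lit 10445629) [(nat_lit 401710), (nat_lit 1455161), (nat_lit 3441505),
 (nat_lit 0)]) (PF.cons (PF.leaf (nat_lit 4708514) (nat_lit 414206) (nat_lit 50484427) (nat_lit 10439821) [(nat_lit 414206), (nat_lit 1476580), (nat_lit 3465363), (nat_lit 0)]) (PF.cons (PF.leaf (nat_lit 4996763) (nat_lit 425639) (nat_lit 49990470) (nat_lit 10431214) [(nat_lit 425639), (nat_lit 1496763), (nat_lit 3487804), (nat_lit 0)]) (PF.cons PF.nil (PF.cons PF.nil PF.nil))))))) (PF.cons (PF.cons (PF.leaf (nat_lit 4619077) (nat_lit 1474395) (nat_lit 50262518) (nat_lit 10430697) [(nat_lit 0), (nat_lit 1474395), (nat_lit 3466806),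 (nat_lit 0)]) (PF.cons (PF.leaf (nat_lit 4890479) (nat_lit 419221) (nat_lit 49792710) (nat_lit 10421509) [(nat_lit 419221), (nat_lit 1493841), (nat_lit 3487687), (nat_lit 0)]) (PF.cons (PF.leaf (nat_lit 5174277) (nat_lit 430329) (nat_lit 49306789) (nat_lit 10409578) [(nat_lit 430329), (nat_lit 1512227), (nat_lit 3507331), (nat_lit 0)]) (PF.cons PF.nil (PF.cons PF.nil PF.nil))))) (PF.cons (PF.cons (PF.leaf (nat_lit 5351979) (nat_lit 1526113) (nat_lit 48623046) (nat_lit 10383397) [(nat_lit 0), (nat_lit 1526113), (nat_lit 3524029), (nat_lit 0)]) (PF.cons (PF.leaf (nat_lit 5640521) (nat_lit 444166) (nat_lit 48133772) (nat_lit 10365691) [(nat_lit 444166),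
 (nat_lit 1541806), (nat_lit 3539763), (nat_lit 0)]) (PF.cons PF.nil (PF.cons PF.nil PF.nil)))) (PF.cons (PF.cons (PF.leaf (nat_lit 6105688) (nat_lit 1566034) (nat_lit 46971636) (nat_lit 10309427) [(nat_lit 0), (nat_lit 1566034), (nat_lit 3563609), (nat_lit 0)]) (PF.cons PF.nil PF.nil)) (PF.cons PF.nil PF.nil)))))) (PF.cons (PF.cons (PF.cons (PF.leaf (nat_lit 4498324) (nat_lit 3452510) (nat_lit 49806790) (nat_lit 10397000) [(nat_lit 0), (nat_lit 0), (nat_lit 3452510), (nat_lit 0)]) (PF.cons (PF.leaf (nat_lit 4750288) (nat_lit 404378) (nat_lit 49373163) (nat_lit 10387135) [(nat_lit 404378), (nat_lit 0), (nat_lit 3472067), (nat_lit 0)]) (PF.cons (PF.leaf (nat_lit 5017319) (nat_lit 417025) (nat_lit 48918534) (nat_lit 10374706) [(nat_lit 417025), (nat_lit 0), (nat_lit 3490760), (nat_lit 0)]) (PF.cons (PF.leaf (nat_lit 5296438) (nat_lit 428399) (nat_lit 48447384) (nat_lit 10359624) [(nat_lit 428399), (nat_lit 0), (nat_lit 3508303), (nat_lit 0)]) (PF.cons (PF.leaf (nat_lit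 5585734) (nat_lit 438703) (nat_lit 47963135) (nat_lit 10341838) [(nat_lit 438703), (nat_lit 0), (nat_lit 3524512), (nat_lit 0)]) PF.nil))))) (PF.cons (PF.cons (PF.leaf (nat_lit 5197334) (nat_lit 1509336) (nat_lit
 48237692) (nat_lit 10346979) [(nat_lit 0), (nat_lit 1509336), (nat_lit 3507402), (nat_lit 0)]) (PF.cons (PF.leaf (nat_lit 5470221) (nat_lit 431947) (nat_lit 47777216) (nat_lit 10329244) [(nat_lit 431947), (nat_lit 1525428), (nat_lit 3522488), (nat_lit 0)]) (PF.cons (PF.leaf (nat_lit 5754476) (nat_lit 442016) (nat_lit 47302648) (nat_lit 10308844) [(nat_lit 442016), (nat_lit 1540507), (nat_lit 3536389), (nat_lit 0)]) (PF.cons PF.nil PF.nil)))) (PF.cons (PF.cons (PF.leaf (nat_lit 5923469) (nat_lit 1550448) (nat_lit 46643965) (nat_lit 10272089) [(nat_lit 0), (nat_lit 1550448), (nat_lit 3545930), (nat_lit 0)]) (PF.cons (PF.leaf (nat_lit 6211064) (nat_lit 453605) (nat_lit 46169164) (nat_lit 10246773) [(nat_lit 453605), (nat_lit 1563161), (nat_lit 3556473), (nat_lit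 0)]) PF.nil)) (PF.cons PF.nil (PF.cons PF.nil PF.nil))))) (PF.cons (PF.cons (PF.cons (PF.leaf (nat_lit 5756612) (nat_lit 3528036) (nat_lit 46291683) (nat_lit 10233021) [(nat_lit 0), (nat_lit 0), (nat_lit 3528036), (nat_lit 0)]) (PF.cons (PF.leaf (nat_lit 6029396) (nat_lit 441550) (nat_lit 45844083) (nat_lit 10208328) [(nat_lit 441550), (nat_lit 0), (nat_lit 3538283), (nat_lit 0)]) (PF.cons (PF.leaf (nat_lit 6312695) (nat_lit
 450691) (nat_lit 45384115) (nat_lit 10181093) [(nat_lit 450691), (nat_lit 0), (nat_lit 3547406), (nat_lit 0)]) (PF.cons PF.nil PF.nil)))) (PF.cons (PF.cons (PF.leaf (nat_lit 6472934) (nat_lit 1565851) (nat_lit 44753357) (nat_lit 10136137) [(nat_lit 0), (nat_lit 1565851), (nat_lit 3551155), (nat_lit 0)]) (PF.cons PF.nil PF.nil)) (PF.cons PF.nil PF.nil))) (PF.cons (PF.cons (PF.cons (PF.leaf (nat_lit 7000300) (nat_lit 3543036) (nat_lit 42954965) (nat_lit 9981699) [(nat_lit 0), (nat_lit 0), (nat_lit 3543036), (nat_lit 0)]) (PF.cons PF.nil PF.nil))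 (PF.cons PF.nil PF.nil)) (PF.cons PF.nil PF.nil)))))) (PF.cons (PF.cons (PF.cons (PF.cons (PF.leaf (nat_lit 4307849) (nat_lit 9305462) (nat_lit 47647566) (nat_lit 10155784) [(nat_lit 0), (nat_lit 0), (nat_lit 0), (nat_lit 9305462)]) (PF.cons (PF.leaf (nat_lit 4521699) (nat_lit 362355) (nat_lit 47301112) (nat_lit 10145544) [(nat_lit 362355), (nat_lit 0), (nat_lit 0), (nat_lit 9299800)]) (PF.cons (PF.leaf (nat_lit 4755175) (nat_lit 378492) (nat_lit 46926615) (nat_lit 10133006) [(nat_lit 378492), (nat_lit 0), (nat_lit 0), (nat_lit 9292205)]) (PF.cons (PF.leaf (nat_lit 5003989) (nat_lit 392678) (nat_lit 46530119) (nat_lit 10118114) [(nat_lit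
 392678), (nat_lit 0), (nat_lit 0), (nat_lit 9282543)]) (PF.cons (PF.leaf (nat_lit 5265677) (nat_lit 405307) (nat_lit 46116031) (nat_lit 10100827) [(nat_lit 405307), (nat_lit 0), (nat_lit 0), (nat_lit 9270723)]) (PF.cons (PF.leaf (nat_lit 5538209) (nat_lit 416649) (nat_lit 45687754) (nat_lit 10081125) [(nat_lit 416649), (nat_lit 0), (nat_lit 0), (nat_lit 9256684)]) (PF.cons (PF.leaf (nat_lit 5820066) (nat_lit 426896) (nat_lit 45248027) (nat_lit 10059012) [(nat_lit 426896), (nat_lit 0), (nat_lit 0), (nat_lit 9240397)]) (PF.cons PF.nil (PF.cons PF.nil PF.nil))))))))) (PF.cons (PF.cons (PF.leaf (nat_lit 4934412) (nat_lit 1434201) (nat_lit 46300031) (nat_lit 10103689) [(nat_lit 0), (nat_lit 1434201), (nat_lit 0), (nat_lit 9270890)]) (PF.cons (PF.leaf (nat_lit 5176207) (nat_lit 396954) (nat_lit 45913333) (nat_lit 10086747) [(nat_lit 396954), (nat_lit 1452706), (nat_lit 0), (nat_lit 9259071)]) (PF.cons (PF.leaf (nat_lit 5432478) (nat_lit 409300) (nat_lit 45507650) (nat_lit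 10067369) [(nat_lit 409300), (nat_lit 1470115), (nat_lit 0), (nat_lit 9245075)]) (PF.cons (PF.leaf (nat_lit 5700307) (nat_lit 420322) (nat_lit 45087044) (nat_lit 10045580) [(nat_lit 420322), (nat_lit 1486340), (nat_lit
 0), (nat_lit 9228879)]) (PF.cons (PF.leaf (nat_lit 5977812) (nat_lit 430236) (nat_lit 44654621) (nat_lit 10021411) [(nat_lit 430236), (nat_lit 1501355), (nat_lit 0), (nat_lit 9210478)]) (PF.cons (PF.leaf (nat_lit 6263539) (nat_lit 439197) (nat_lit 44212862) (nat_lit 9994906) [(nat_lit 439197), (nat_lit 1515169), (nat_lit 0), (nat_lit 9189886)]) (PF.cons PF.nil PF.nil))))))) (PF.cons (PF.cons (PF.leaf (nat_lit 5600684) (nat_lit 1482190) (nat_lit 44897947) (nat_lit 10030443) [(nat_lit 0), (nat_lit 1482190), (nat_lit 0), (nat_lit 9216041)]) (PF.cons (PF.leaf (nat_lit 5862274) (nat_lit 423287) (nat_lit 44487061) (nat_lit 10006847) [(nat_lit 423287), (nat_lit 1496835), (nat_lit 0), (nat_lit 9197945)]) (PF.cons (PF.leaf (nat_lit 6134754) (nat_lit 432966)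 (nat_lit 44063475) (nat_lit 9980874) [(nat_lit 432966), (nat_lit 1510433), (nat_lit 0), (nat_lit 9177663)]) (PF.cons (PF.leaf (nat_lit 6415897) (nat_lit 441669) (nat_lit 43630052) (nat_lit 9952598) [(nat_lit 441669), (nat_lit 1522960), (nat_lit 0), (nat_lit 9155233)]) (PF.cons PF.nil PF.nil))))) (PF.cons (PF.cons (PF.leaf (nat_lit 6292075) (nat_lit 1518335) (nat_lit 43474257) (nat_lit 9937495) [(nat_lit 0), (nat_lit 1518335), (nat_lit
 0), (nat_lit 9142054)]) (PF.cons (PF.leaf (nat_lit 6567527) (nat_lit 443609) (nat_lit 43050512) (nat_lit 9907696) [(nat_lit 443609), (nat_lit 1529659), (nat_lit 0), (nat_lit 9118016)]) (PF.cons (PF.leaf (nat_lit 6851176) (nat_lit 451266) (nat_lit 42618601) (nat_lit 9875696) [(nat_lit 451266), (nat_lit 1540022), (nat_lit 0), (nat_lit 9091916)]) (PF.cons PF.nil PF.nil)))) (PF.cons (PF.cons (PF.leaf (nat_lit 6997717) (nat_lit 1544682) (nat_lit 42052177) (nat_lit 9827028) [(nat_lit 0), (nat_lit 1544682), (nat_lit 0), (nat_lit 9050878)])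 (PF.cons PF.nil PF.nil)) (PF.cons PF.nil PF.nil)))))) (PF.cons (PF.cons (PF.cons (PF.leaf (nat_lit 5462164) (nat_lit 3420662) (nat_lit 44521173) (nat_lit 9988560) [(nat_lit 0), (nat_lit 0), (nat_lit 3420662), (nat_lit 9178417)]) (PF.cons (PF.leaf (nat_lit 5705853) (nat_lit 408006) (nat_lit 44141929) (nat_lit 9966030) [(nat_lit 408006), (nat_lit 0), (nat_lit 3431809), (nat_lit 9161036)]) (PF.cons (PF.leaf (nat_lit 5963148) (nat_lit 419363) (nat_lit 43745539) (nat_lit 9941049) [(nat_lit 419363), (nat_lit 0), (nat_lit 3442047), (nat_lit 9141449)]) (PF.cons (PF.leaf (nat_lit 6231051) (nat_lit 429402) (nat_lit 43335950) (nat_lit 9913724) [(nat_lit 429402),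
 (nat_lit 0), (nat_lit 3451212), (nat_lit 9119717)]) (PF.cons (PF.leaf (nat_lit 6507782) (nat_lit 438353) (nat_lit 42916141) (nat_lit 9884150) [(nat_lit 438353), (nat_lit 0), (nat_lit 3459208), (nat_lit 9095898)]) (PF.cons PF.nil (PF.cons PF.nil PF.nil))))))) (PF.cons (PF.cons (PF.leaf (nat_lit 6124006) (nat_lit 1500550) (nat_lit 43158692) (nat_lit 9896959) [(nat_lit 0), (nat_lit 1500550), (nat_lit 3447422), (nat_lit 9105187)]) (PF.cons (PF.leaf (nat_lit 6385343) (nat_lit 431261) (nat_lit 42759724) (nat_lit 9868329) [(nat_lit 431261), (nat_lit 1512591), (nat_lit 3454862), (nat_lit 9082044)]) (PF.cons (PF.leaf (nat_lit 6656749) (nat_lit 440060) (nat_lit 42349544) (nat_lit 9837432) [(nat_lit 440060), (nat_lit 1523655), (nat_lit 3461246), (nat_lit 9056813)]) (PF.cons (PF.leaf (nat_lit 6936049) (nat_lit 447902) (nat_lit 41930884) (nat_lit 9804394) [(nat_lit 447902), (nat_lit 1533735), (nat_lit 3466511), (nat_lit 9029581)]) (PF.cons PF.nil PF.nil))))) (PF.cons (PF.cons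 (PF.leaf (nat_lit 6806206) (nat_lit 1528767) (nat_lit 41785794) (nat_lit 9788385) [(nat_lit 0), (nat_lit 1528767), (nat_lit 3461668), (nat_lit 9015430)]) (PF.cons (PF.leaf (nat_lit 7079595) (nat_lit 448957) (nat_lit
 41377315) (nat_lit 9754275) [(nat_lit 448957), (nat_lit 1537848), (nat_lit 3465536), (nat_lit 8987031)]) (PF.cons PF.nil (PF.cons PF.nil PF.nil)))) (PF.cons (PF.cons (PF.leaf (nat_lit 7498976) (nat_lit 1548469) (nat_lit 40422288) (nat_lit 9665144) [(nat_lit 0), (nat_lit 1548469), (nat_lit 3464742), (nat_lit 8911229)]) (PF.cons PF.nil PF.nil)) (PF.cons PF.nil PF.nil))))) (PF.cons (PF.cons (PF.cons (PF.leaf (nat_lit 6629521) (nat_lit 3442311) (nat_lit 41498165) (nat_lit 9747740) [(nat_lit 0), (nat_lit 0), (nat_lit 3442311), (nat_lit 8978282)]) (PF.cons (PF.leaf (nat_lit 6889593) (nat_lit 436981) (nat_lit 41112826) (nat_lit 9715115) [(nat_lit 436981), (nat_lit 0), (nat_lit 3446394), (nat_lit 8951100)]) (PF.cons (PF.leaf (nat_lit 7159035) (nat_lit 444999)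 (nat_lit 40717540) (nat_lit 9680351) [(nat_lit 444999), (nat_lit 0), (nat_lit 3449489), (nat_lit 8921943)]) (PF.cons PF.nil PF.nil)))) (PF.cons (PF.cons (PF.leaf (nat_lit 7300832) (nat_lit 1533147) (nat_lit 40180064) (nat_lit 9627089) [(nat_lit 0), (nat_lit 1533147), (nat_lit 3446154), (nat_lit 8876202)]) (PF.cons (PF.leaf (nat_lit 7571471) (nat_lit 452405) (nat_lit 39787826) (nat_lit 9589655) [(nat_lit 452405), (nat_lit 1540329),
 (nat_lit 3447096), (nat_lit 8844401)]) PF.nil)) (PF.cons PF.nil PF.nil))) (PF.cons (PF.cons (PF.cons (PF.leaf (nat_lit 7776351) (nat_lit 3422350) (nat_lit 38656628) (nat_lit 9457233) [(nat_lit 0), (nat_lit 0), (nat_lit 3422350), (nat_lit 8727899)]) (PF.cons (PF.leaf (nat_lit 8043673) (nat_lit 454278) (nat_lit 38281074) (nat_lit 9417309) [(nat_lit 454278), (nat_lit 0), (nat_lit 3420882), (nat_lit 8693503)]) PF.nil)) (PF.cons PF.nil PF.nil)) (PF.cons PF.nil PF.nil))))) (PF.cons (PF.cons (PF.cons (PF.cons (PF.leaf (nat_lit 6302224) (nat_lit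 8763133) (nat_lit 40068358) (nat_lit 9514187) [(nat_lit 0), (nat_lit 0), (nat_lit 0), (nat_lit 8763133)]) (PF.cons (PF.leaf (nat_lit 6536538) (nat_lit 404653) (nat_lit 39739543) (nat_lit 9485649) [(nat_lit 404653), (nat_lit 0), (nat_lit 0), (nat_lit 8739483)]) (PF.cons (PF.leaf (nat_lit 6783269) (nat_lit 414961) (nat_lit 39396497) (nat_lit 9454839) [(nat_lit 414961), (nat_lit 0), (nat_lit 0), (nat_lit 8713776)]) (PF.cons (PF.leaf (nat_lit 7039533) (nat_lit 423950) (nat_lit 39042641) (nat_lit 9421965) [(nat_lit 423950), (nat_lit 0), (nat_lit 0), (nat_lit 8686176)]) (PF.cons (PF.leaf (nat_lit 7303616) (nat_lit 431863) (nat_lit 38680536) (nat_lit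
 9387194) [(nat_lit 431863), (nat_lit 0), (nat_lit 0), (nat_lit 8656813)]) (PF.cons PF.nil (PF.cons PF.nil PF.nil))))))) (PF.cons (PF.cons (PF.leaf (nat_lit 6928216) (nat_lit 1471271) (nat_lit 38893272) (nat_lit 9403912) [(nat_lit 0), (nat_lit 1471271), (nat_lit 0), (nat_lit 8670178)]) (PF.cons (PF.leaf (nat_lit 7177838) (nat_lit 424696) (nat_lit 38549191) (nat_lit 9370521) [(nat_lit 424696), (nat_lit 1480525), (nat_lit 0), (nat_lit 8641939)]) (PF.cons (PF.leaf (nat_lit 7436570) (nat_lit 432520) (nat_lit 38195926) (nat_lit 9335182) [(nat_lit 432520), (nat_lit 1488855), (nat_lit 0), (nat_lit 8611903)]) (PF.cons (PF.leaf (nat_lit 7702304) (nat_lit 439408) (nat_lit 37835811) (nat_lit 9298072) [(nat_lit 439408), (nat_lit 1496279), (nat_lit 0), (nat_lit 8580212)]) (PF.cons PF.nil PF.nil))))) (PF.cons (PF.cons (PF.leaf (nat_lit 7570281) (nat_lit 1490934) (nat_lit 37714221) (nat_lit 9281689) [(nat_lit 0), (nat_lit 1490934), (nat_lit 0), (nat_lit 8565516)]) (PF.cons (PF.leaf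 (nat_lit 7830166) (nat_lit 439553) (nat_lit 37363250) (nat_lit 9244190) [(nat_lit 439553), (nat_lit 1497582), (nat_lit 0), (nat_lit 8533327)]) (PF.cons PF.nil (PF.cons PF.nil PF.nil)))) (PF.cons (PF.cons (PF.leaf
 (nat_lit 8220051) (nat_lit 1503453) (nat_lit 36546632) (nat_lit 9149651) [(nat_lit 0), (nat_lit 1503453), (nat_lit 0), (nat_lit 8451085)]) (PF.cons PF.nil PF.nil)) (PF.cons PF.nil PF.nil))))) (PF.cons (PF.cons (PF.cons (PF.leaf (nat_lit 7389180) (nat_lit 3328254) (nat_lit 37478596) (nat_lit 9242700) [(nat_lit 0), (nat_lit 0), (nat_lit 3328254), (nat_lit 8529630)]) (PF.cons (PF.leaf (nat_lit 7636981) (nat_lit 427941) (nat_lit 37147156) (nat_lit 9207047) [(nat_lit 427941), (nat_lit 0), (nat_lit 3328601), (nat_lit 8499033)]) (PF.cons (PF.leaf (nat_lit 7893317) (nat_lit 435099) (nat_lit 36807488) (nat_lit 9169561) [(nat_lit 435099), (nat_lit 0), (nat_lit 3328076), (nat_lit 8466743)]) (PF.cons PF.nil PF.nil)))) (PF.cons (PF.cons (PF.leaf (nat_lit 8020376) (nat_lit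 1488759) (nat_lit 36348840) (nat_lit 9114083) [(nat_lit 0), (nat_lit 1488759), (nat_lit 3320784), (nat_lit 8418172)]) (PF.cons (PF.leaf (nat_lit 8277282) (nat_lit 440951) (nat_lit 36012295) (nat_lit 9074819) [(nat_lit 440951), (nat_lit 1493945), (nat_lit 3318605), (nat_lit 8384098)]) PF.nil)) (PF.cons PF.nil PF.nil))) (PF.cons (PF.cons (PF.cons (PF.leaf (nat_lit 8454016) (nat_lit 3288912) (nat_lit 35053669) (nat_lit 8943291)
 [(nat_lit 0), (nat_lit 0), (nat_lit 3288912), (nat_lit 8267012)]) (PF.cons PF.nil PF.nil)) (PF.cons PF.nil PF.nil)) PF.nil))) (PF.cons (PF.cons (PF.cons (PF.cons (PF.leaf (nat_lit 8061425) (nat_lit 8088788) (nat_lit 34091470) (nat_lit 8750977) [(nat_lit 0), (nat_lit 0), (nat_lit 0), (nat_lit 8088788)]) (PF.cons (PF.leaf (nat_lit 8297746) (nat_lit 416647) (nat_lit 33805339) (nat_lit 8714880) [(nat_lit 416647), (nat_lit 0), (nat_lit 0), (nat_lit 8057315)]) (PF.cons (PF.leaf (nat_lit 8541982) (nat_lit 423128) (nat_lit 33512257) (nat_lit 8677190)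 [(nat_lit 423128), (nat_lit 0), (nat_lit 0), (nat_lit 8024369)]) (PF.cons PF.nil PF.nil)))) (PF.cons (PF.cons (PF.leaf (nat_lit 8657129) (nat_lit 1439352) (nat_lit 33118867) (nat_lit 8622569) [(nat_lit 0), (nat_lit 1439352), (nat_lit 0), (nat_lit 7976007)]) (PF.cons PF.nil PF.nil)) (PF.cons PF.nil PF.nil))) (PF.cons (PF.cons (PF.cons (PF.leaf (nat_lit 9056436) (nat_lit 3153401) (nat_lit 32010722) (nat_lit 8457821) [(nat_lit 0), (nat_lit 0), (nat_lit 3153401), (nat_lit 7828956)]) (PF.cons PF.nil PF.nil)) PF.nil) PF.nil)) (PF.cons PF.nil (PF.cons PF.nil (PF.cons PF.nil (PF.cons PF.nil PF.nil))))))))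

def p15_19_1_0 : pfC (piC [(nat_lit 39633164), (nat_lit 25639500), (nat_lit 19173228), (nat_lit 12837379)] (nat_lit 10356376)) p15_19_1 (nat_lit 4) (nat_lit 0) (nat_lit 1) = true := by decide +kernel
def p15_19_1_1 : pfC (piC [(nat_lit 39633164), (nat_lit 25639500), (nat_lit 19173228), (nat_lit 12837379)] (nat_lit 10356376)) p15_19_1 (nat_lit 4) (nat_lit 1) (nat_lit 2) = true := by decide +kernel
def p15_19_1_2 : pfC (piC [(nat_lit 39633164), (nat_lit 25639500), (nat_lit 19173228), (nat_lit 12837379)] (nat_lit 10356376)) p15_19_1 (nat_lit 4) (nat_lit 2) (nat_lit 3) = true := by decide +kernel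
def p15_19_1_3 : pfC (piC [(nat_lit 39633164), (nat_lit 25639500), (nat_lit 19173228), (nat_lit 12837379)] (nat_lit 10356376)) p15_19_1 (nat_lit 4) (nat_lit 3) (nat_lit 4) = true := by decide +kernel
def p15_19_1_4 : pfC (piC [(nat_lit 39633164), (nat_lit 25639500), (nat_lit 19173228), (nat_lit 12837379)] (nat_lit 10356376)) p15_19_1 (nat_lit 4) (nat_lit 4) (nat_lit 5) = true := by decide +kernel
def p15_19_1_5 : pfC (piC [(nat_lit 39633164), (nat_lit 25639500), (nat_lit 19173228), (nat_lit 12837379)] (nat_lit 10356376)) p15_19_1 (nat_lit 4) (nat_lit 5) (nat_lit 6) = true := by decide +kernel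
def p15_19_1_6 : pfC (piC [(nat_lit 39633164), (nat_lit 25639500), (nat_lit 19173228), (nat_lit 12837379)] (nat_lit 10356376)) p15_19_1 (nat_lit 4) (nat_lit 6) (nat_lit 7) = true := by decide +kernel
def p15_19_1_7 : pfC (piC [(nat_lit 39633164), (nat_lit 25639500), (nat_lit 19173228), (nat_lit 12837379)] (nat_lit 10356376)) p15_19_1 (nat_lit 4) (nat_lit 7) (nat_lit 8) = true := by decide +kernel
def p15_19_1_8 : pfC (piC [(nat_lit 39633164), (nat_lit 25639500), (nat_lit 19173228), (nat_lit 12837379)] (nat_lit 10356376)) p15_19_1 (nat_lit 4) (nat_lit 8) (nat_lit 9) = true := by decide +kernel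
def p15_19_1_9 : pfC (piC [(nat_lit 39633164), (nat_lit 25639500), (nat_lit 19173228), (nat_lit 12837379)] (nat_lit 10356376)) p15_19_1 (nat_lit 4) (nat_lit 9) (nat_lit 10) = true := by decide +kernel
def p15_19_1_10 : pfC (piC [(nat_lit 39633164), (nat_lit 25639500), (nat_lit 19173228), (nat_lit 12837379)] (nat_lit 10356376)) p15_19_1 (nat_lit 4) (nat_lit 10) (nat_lit 11) = true := by decide +kernel
def p15_19_1_11 : pfC (piC [(nat_lit 39633164), (nat_lit 25639500), (nat_lit 19173228), (nat_lit 12837379)] (nat_lit 10356376)) p15_19_1 (nat_lit 4) (nat_lit 11) (nat_lit 12) = true := by decide +kernel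
def p15_19_1_12 : pfC (piC [(nat_lit 39633164), (nat_lit 25639500), (nat_lit 19173228), (nat_lit 12837379)] (nat_lit 10356376)) p15_19_1 (nat_lit 4) (nat_lit 12) (nat_lit 13) = true := by decide +kernel
def p15_19_1_13 : pfC (piC [(nat_lit 39633164), (nat_lit 25639500), (nat_lit 19173228), (nat_lit 12837379)] (nat_lit 10356376)) p15_19_1 (nat_lit 4) (nat_lit 13) (nat_lit 14) = true := by decide +kernel
def p15_19_1_14 : pfC (piC [(nat_lit 39633164), (nat_lit 25639500), (nat_lit 19173228), (nat_lit 12837379)] (nat_lit 10356376)) p15_19_1 (nat_lit 4) (nat_lit 14) (nat_lit 15) = true := by decide +kernel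
def p15_19_1_15 : pfC (piC [(nat_lit 39633164), (nat_lit 25639500), (nat_lit 19173228), (nat_lit 12837379)] (nat_lit 10356376)) p15_19_1 (nat_lit 4) (nat_lit 15) (nat_lit 16) = true := by decide +kernel
def p15_19_1_16 : pfC (piC [(nat_lit 39633164), (nat_lit 25639500), (nat_lit 19173228), (nat_lit 12837379)] (nat_lit 10356376)) p15_19_1 (nat_lit 4) (nat_lit 16) (nat_lit 17) = true := by decide +kernel
def p15_19_1_17 : pfC (piC [(nat_lit 39633164), (nat_lit 25639500), (nat_lit 19173228), (nat_lit 12837379)] (nat_lit 10356376)) p15_19_1 (nat_lit 4) (nat_lit 17) (nat_lit 18) = true := by decide +kernel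
def p15_19_1_18 : pfC (piC [(nat_lit 39633164), (nat_lit 25639500), (nat_lit 19173228), (nat_lit 12837379)] (nat_lit 10356376)) p15_19_1 (nat_lit 4) (nat_lit 18) (nat_lit 19) = true := by decide +kernel
def p15_19_1_19 : pfC (piC [(nat_lit 39633164), (nat_lit 25639500), (nat_lit 19173228), (nat_lit 12837379)] (nat_lit 10356376)) p15_19_1 (nat_lit 4) (nat_lit 19) (nat_lit 20) = true := by decide +kernel
def p15_19_1_20 : pfC (piC [(nat_lit 39633164), (nat_lit 25639500), (nat_lit 19173228), (nat_lit 12837379)] (nat_lit 10356376)) p15_19_1 (nat_lit 4) (nat_lit 20) (nat_lit 21) = true := by decide +kernel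
def p15_19_1_21 : pfC (piC [(nat_lit 39633164), (nat_lit 25639500), (nat_lit 19173228), (nat_lit 12837379)] (nat_lit 10356376)) p15_19_1 (nat_lit 4) (nat_lit 21) (nat_lit 22) = true := by decide +kernel
def p15_19_1_22 : pfC (piC [(nat_lit 39633164), (nat_lit 25639500), (nat_lit 19173228), (nat_lit 12837379)] (nat_lit 10356376)) p15_19_1 (nat_lit 4) (nat_lit 22) (nat_lit 23) = true := by decide +kernel
def p15_19_1_23 : pfC (piC [(nat_lit 39633164), (nat_lit 25639500), (nat_lit 19173228), (nat_lit 12837379)] (nat_lit 10356376)) p15_19_1 (nat_lit 4) (nat_lit 23) (nat_lit 24) = true := by decide +kernel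
def p15_19_1_24 : pfC (piC [(nat_lit 39633164), (nat_lit 25639500), (nat_lit 19173228), (nat_lit 12837379)] (nat_lit 10356376)) p15_19_1 (nat_lit 4) (nat_lit 24) (nat_lit 25) = true := by decide +kernel
def p15_19_1_25 : pfC (piC [(nat_lit 39633164), (nat_lit 25639500), (nat_lit 19173228), (nat_lit 12837379)] (nat_lit 10356376)) p15_19_1 (nat_lit 4) (nat_lit 25) (nat_lit 26) = true := by decide +kernel
def p15_19_1_26 : pfC (piC [(nat_lit 39633164), (nat_lit 25639500), (nat_lit 19173228), (nat_lit 12837379)] (nat_lit 10356376)) p15_19_1 (nat_lit 4) (nat_lit 26) (nat_lit 27) = true := by decide +kernel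
def p15_19_1_27 : pfC (piC [(nat_lit 39633164), (nat_lit 25639500), (nat_lit 19173228), (nat_lit 12837379)] (nat_lit 10356376)) p15_19_1 (nat_lit 4) (nat_lit 27) (nat_lit 28) = true := by decide +kernel
def p15_19_1_28 : pfC (piC [(nat_lit 39633164), (nat_lit 25639500), (nat_lit 19173228), (nat_lit 12837379)] (nat_lit 10356376)) p15_19_1 (nat_lit 4) (nat_lit 28) (nat_lit 29) = true := by decide +kernel
def p15_19_1_29 : pfC (piC [(nat_lit 39633164), (nat_lit 25639500), (nat_lit 19173228), (nat_lit 12837379)] (nat_lit 10356376)) p15_19_1 (nat_lit 4) (nat_lit 29) (nat_lit 30) = true := by decide +kernel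
def p15_19_1_30 : pfC (piC [(nat_lit 39633164), (nat_lit 25639500), (nat_lit 19173228), (nat_lit 12837379)] (nat_lit 10356376)) p15_19_1 (nat_lit 4) (nat_lit 30) (nat_lit 31) = true := by decide +kernel
def p15_19_1_31 : pfC (piC [(nat_lit 39633164), (nat_lit 25639500), (nat_lit 19173228), (nat_lit 12837379)] (nat_lit 10356376)) p15_19_1 (nat_lit 4) (nat_lit 31) (nat_lit 32) = true := by decide +kernel
def p15_19_1_32 : pfC (piC [(nat_lit 39633164), (nat_lit 25639500), (nat_lit 19173228), (nat_lit 12837379)] (nat_lit 10356376)) p15_19_1 (nat_lit 4) (nat_lit 32) (nat_lit 33) = true := by decide +kernel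
def p15_19_1_33 : pfC (piC [(nat_lit 39633164), (nat_lit 25639500), (nat_lit 19173228), (nat_lit 12837379)] (nat_lit 10356376)) p15_19_1 (nat_lit 4) (nat_lit 33) (nat_lit 34) = true := by decide +kernel
def p15_19_1_34 : pfC (piC [(nat_lit 39633164), (nat_lit 25639500), (nat_lit 19173228), (nat_lit 12837379)] (nat_lit 10356376)) p15_19_1 (nat_lit 4) (nat_lit 34) (nat_lit 35) = true := by decide +kernel
def p15_19_1_35 : pfC (piC [(nat_lit 39633164), (nat_lit 25639500), (nat_lit 19173228), (nat_lit 12837379)] (nat_lit 10356376)) p15_19_1 (nat_lit 4) (nat_lit 35) (nat_lit 36) = true := by decide +kernel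
def p15_19_1_36 : pfC (piC [(nat_lit 39633164), (nat_lit 25639500), (nat_lit 19173228), (nat_lit 12837379)] (nat_lit 10356376)) p15_19_1 (nat_lit 4) (nat_lit 36) (nat_lit 37) = true := by decide +kernel
def p15_19_1_37 : pfC (piC [(nat_lit 39633164), (nat_lit 25639500), (nat_lit 19173228), (nat_lit 12837379)] (nat_lit 10356376)) p15_19_1 (nat_lit 4) (nat_lit 37) (nat_lit 38) = true := by decide +kernel
def p15_19_1_38 : pfC (piC [(nat_lit 39633164), (nat_lit 25639500), (nat_lit 19173228), (nat_lit 12837379)] (nat_lit 10356376)) p15_19_1 (nat_lit 4) (nat_lit 38) (nat_lit 39) = true := by decide +kernel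
def p15_19_1_39 : pfC (piC [(nat_lit 39633164), (nat_lit 25639500), (nat_lit 19173228), (nat_lit 12837379)] (nat_lit 10356376)) p15_19_1 (nat_lit 4) (nat_lit 39) (nat_lit 40) = true := by decide +kernel
def p15_19_1_40 : pfC (piC [(nat_lit 39633164), (nat_lit 25639500), (nat_lit 19173228), (nat_lit 12837379)] (nat_lit 10356376)) p15_19_1 (nat_lit 4) (nat_lit 40) (nat_lit 41) = true := by decide +kernel
def p15_19_1_41 : pfC (piC [(nat_lit 39633164), (nat_lit 25639500), (nat_lit 19173228), (nat_lit 12837379)] (nat_lit 10356376)) p15_19_1 (nat_lit 4) (nat_lit 41) (nat_lit 42) = true := by decide +kernel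
def p15_19_1_42 : pfC (piC [(nat_lit 39633164), (nat_lit 25639500), (nat_lit 19173228), (nat_lit 12837379)] (nat_lit 10356376)) p15_19_1 (nat_lit 4) (nat_lit 42) (nat_lit 43) = true := by decide +kernel
def p15_19_1_43 : pfC (piC [(nat_lit 39633164), (nat_lit 25639500), (nat_lit 19173228), (nat_lit 12837379)] (nat_lit 10356376)) p15_19_1 (nat_lit 4) (nat_lit 43) (nat_lit 44) = true := by decide +kernel
def p15_19_1_44 : pfC (piC [(nat_lit 39633164), (nat_lit 25639500), (nat_lit 19173228), (nat_lit 12837379)] (nat_lit 10356376)) p15_19_1 (nat_lit 4) (nat_lit 44) (nat_lit 45) = true := by decide +kernel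
def p15_19_1_45 : pfC (piC [(nat_lit 39633164), (nat_lit 25639500), (nat_lit 19173228), (nat_lit 12837379)] (nat_lit 10356376)) p15_19_1 (nat_lit 4) (nat_lit 45) (nat_lit 46) = true := by decide +kernel
def p15_19_1_46 : pfC (piC [(nat_lit 39633164), (nat_lit 25639500), (nat_lit 19173228), (nat_lit 12837379)] (nat_lit 10356376)) p15_19_1 (nat_lit 4) (nat_lit 46) (nat_lit 47) = true := by decide +kernel
def p15_19_1_47 : pfC (piC [(nat_lit 39633164), (nat_lit 25639500), (nat_lit 19173228), (nat_lit 12837379)] (nat_lit 10356376)) p15_19_1 (nat_lit 4) (nat_lit 47) (nat_lit 48) = true := by decide +kernel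
def p15_19_1_48 : pfC (piC [(nat_lit 39633164), (nat_lit 25639500), (nat_lit 19173228), (nat_lit 12837379)] (nat_lit 10356376)) p15_19_1 (nat_lit 4) (nat_lit 48) (nat_lit 49) = true := by decide +kernel
def p15_19_1_49 : pfC (piC [(nat_lit 39633164), (nat_lit 25639500), (nat_lit 19173228), (nat_lit 12837379)] (nat_lit 10356376)) p15_19_1 (nat_lit 4) (nat_lit 49) (nat_lit 50) = true := by decide +kernel
def p15_19_1_50 : pfC (piC [(nat_lit 39633164), (nat_lit 25639500), (nat_lit 19173228), (nat_lit 12837379)] (nat_lit 10356376)) p15_19_1 (nat_lit 4) (nat_lit 50) (nat_lit 51) = true := by decide +kernel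
def p15_19_1_51 : pfC (piC [(nat_lit 39633164), (nat_lit 25639500), (nat_lit 19173228), (nat_lit 12837379)] (nat_lit 10356376)) p15_19_1 (nat_lit 4) (nat_lit 51) (nat_lit 52) = true := by decide +kernel
def p15_19_1_52 : pfC (piC [(nat_lit 39633164), (nat_lit 25639500), (nat_lit 19173228), (nat_lit 12837379)] (nat_lit 10356376)) p15_19_1 (nat_lit 4) (nat_lit 52) (nat_lit 53) = true := by decide +kernel
def p15_19_1_53 : pfC (piC [(nat_lit 39633164), (nat_lit 25639500), (nat_lit 19173228), (nat_lit 12837379)] (nat_lit 10356376)) p15_19_1 (nat_lit 4) (nat_lit 53) (nat_lit 54) = true := by decide +kernel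
def p15_19_1_54 : pfC (piC [(nat_lit 39633164), (nat_lit 25639500), (nat_lit 19173228), (nat_lit 12837379)] (nat_lit 10356376)) p15_19_1 (nat_lit 4) (nat_lit 54) (nat_lit 55) = true := by decide +kernel
def p15_19_1_55 : pfC (piC [(nat_lit 39633164), (nat_lit 25639500), (nat_lit 19173228), (nat_lit 12837379)] (nat_lit 10356376)) p15_19_1 (nat_lit 4) (nat_lit 55) (nat_lit 56) = true := by decide +kernel
def p15_19_1_56 : pfC (piC [(nat_lit 39633164), (nat_lit 25639500), (nat_lit 19173228), (nat_lit 12837379)] (nat_lit 10356376)) p15_19_1 (nat_lit 4) (nat_lit 56) (nat_lit 57) = true := by decide +kernel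
def p15_19_1_57 : pfC (piC [(nat_lit 39633164), (nat_lit 25639500), (nat_lit 19173228), (nat_lit 12837379)] (nat_lit 10356376)) p15_19_1 (nat_lit 4) (nat_lit 57) (nat_lit 58) = true := by decide +kernel
def p15_19_1_58 : pfC (piC [(nat_lit 39633164), (nat_lit 25639500), (nat_lit 19173228), (nat_lit 12837379)] (nat_lit 10356376)) p15_19_1 (nat_lit 4) (nat_lit 58) (nat_lit 59) = true := by decide +kernel
def p15_19_1_59 : pfC (piC [(nat_lit 39633164), (nat_lit 25639500), (nat_lit 19173228), (nat_lit 12837379)] (nat_lit 10356376)) p15_19_1 (nat_lit 4) (nat_lit 59) (nat_lit 60) = true := by decide +kernel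
def p15_19_1_60 : pfC (piC [(nat_lit 39633164), (nat_lit 25639500), (nat_lit 19173228), (nat_lit 12837379)] (nat_lit 10356376)) p15_19_1 (nat_lit 4) (nat_lit 60) (nat_lit 61) = true := by decide +kernel
def p15_19_1_61 : pfC (piC [(nat_lit 39633164), (nat_lit 25639500), (nat_lit 19173228), (nat_lit 12837379)] (nat_lit 10356376)) p15_19_1 (nat_lit 4) (nat_lit 61) (nat_lit 62) = true := by decide +kernel
def p15_19_1_62 : pfC (piC [(nat_lit 39633164), (nat_lit 25639500), (nat_lit 19173228), (nat_lit 12837379)] (nat_lit 10356376)) p15_19_1 (nat_lit 4) (nat_lit 62) (nat_lit 63) = true := by decide +kernel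
def p15_19_1_63 : pfC (piC [(nat_lit 39633164), (nat_lit 25639500), (nat_lit 19173228), (nat_lit 12837379)] (nat_lit 10356376)) p15_19_1 (nat_lit 4) (nat_lit 63) (nat_lit 64) = true := by decide +kernel
def p15_19_1_64 : pfC (piC [(nat_lit 39633164), (nat_lit 25639500), (nat_lit 19173228), (nat_lit 12837379)] (nat_lit 10356376)) p15_19_1 (nat_lit 4) (nat_lit 64) (nat_lit 65) = true := by decide +kernel
def p15_19_1_65 : pfC (piC [(nat_lit 39633164), (nat_lit 25639500), (nat_lit 19173228), (nat_lit 12837379)] (nat_lit 10356376)) p15_19_1 (nat_lit 4) (nat_lit 65) (nat_lit 66) = true := by decide +kernel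
def p15_19_1_66 : pfC (piC [(nat_lit 39633164), (nat_lit 25639500), (nat_lit 19173228), (nat_lit 12837379)] (nat_lit 10356376)) p15_19_1 (nat_lit 4) (nat_lit 66) (nat_lit 67) = true := by decide +kernel
def p15_19_1_67 : pfC (piC [(nat_lit 39633164), (nat_lit 25639500), (nat_lit 19173228), (nat_lit 12837379)] (nat_lit 10356376)) p15_19_1 (nat_lit 4) (nat_lit 67) (nat_lit 68) = true := by decide +kernel
def p15_19_1_68 : pfC (piC [(nat_lit 39633164), (nat_lit 25639500), (nat_lit 19173228), (nat_lit 12837379)] (nat_lit 10356376)) p15_19_1 (nat_lit 4) (nat_lit 68) (nat_lit 69) = true := by decide +kernel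
def p15_19_1_69 : pfC (piC [(nat_lit 39633164), (nat_lit 25639500), (nat_lit 19173228), (nat_lit 12837379)] (nat_lit 10356376)) p15_19_1 (nat_lit 4) (nat_lit 69) (nat_lit 70) = true := by decide +kernel
def p15_19_1_70 : pfC (piC [(nat_lit 39633164), (nat_lit 25639500), (nat_lit 19173228), (nat_lit 12837379)] (nat_lit 10356376)) p15_19_1 (nat_lit 4) (nat_lit 70) (nat_lit 71) = true := by decide +kernel
def p15_19_1_71 : pfC (piC [(nat_lit 39633164), (nat_lit 25639500), (nat_lit 19173228), (nat_lit 12837379)] (nat_lit 10356376)) p15_19_1 (nat_lit 4) (nat_lit 71) (nat_lit 72) = true := by decide +kernel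
def p15_19_1_72 : pfC (piC [(nat_lit 39633164), (nat_lit 25639500), (nat_lit 19173228), (nat_lit 12837379)] (nat_lit 10356376)) p15_19_1 (nat_lit 4) (nat_lit 72) (nat_lit 73) = true := by decide +kernel
def p15_19_1_73 : pfC (piC [(nat_lit 39633164), (nat_lit 25639500), (nat_lit 19173228), (nat_lit 12837379)] (nat_lit 10356376)) p15_19_1 (nat_lit 4) (nat_lit 73) (nat_lit 74) = true := by decide +kernel
def p15_19_1_74 : pfC (piC [(nat_lit 39633164), (nat_lit 25639500), (nat_lit 19173228), (nat_lit 12837379)] (nat_lit 10356376)) p15_19_1 (nat_lit 4) (nat_lit 74) (nat_lit 75) = true := by decide +kernel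
def p15_19_1_75 : pfC (piC [(nat_lit 39633164), (nat_lit 25639500), (nat_lit 19173228), (nat_lit 12837379)] (nat_lit 10356376)) p15_19_1 (nat_lit 4) (nat_lit 75) (nat_lit 76) = true := by decide +kernel
def p15_19_1_76 : pfC (piC [(nat_lit 39633164), (nat_lit 25639500), (nat_lit 19173228), (nat_lit 12837379)] (nat_lit 10356376)) p15_19_1 (nat_lit 4) (nat_lit 76) (nat_lit 77) = true := by decide +kernel
def p15_19_1_77 : pfC (piC [(nat_lit 39633164), (nat_lit 25639500), (nat_lit 19173228), (nat_lit 12837379)] (nat_lit 10356376)) p15_19_1 (nat_lit 4) (nat_lit 77) (nat_lit 78) = true := by decide +kernel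
def p15_19_1_78 : pfC (piC [(nat_lit 39633164), (nat_lit 25639500), (nat_lit 19173228), (nat_lit 12837379)] (nat_lit 10356376)) p15_19_1 (nat_lit 4) (nat_lit 78) (nat_lit 79) = true := by decide +kernel
def p15_19_1_79 : pfC (piC [(nat_lit 39633164), (nat_lit 25639500), (nat_lit 19173228), (nat_lit 12837379)] (nat_lit 10356376)) p15_19_1 (nat_lit 4) (nat_lit 79) (nat_lit 80) = true := by decide +kernel
def p15_19_1_80 : pfC (piC [(nat_lit 39633164), (nat_lit 25639500), (nat_lit 19173228), (nat_lit 12837379)] (nat_lit 10356376)) p15_19_1 (nat_lit 4) (nat_lit 80) (nat_lit 81) = true := by decide +kernel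
def p15_19_1_81 : pfC (piC [(nat_lit 39633164), (nat_lit 25639500), (nat_lit 19173228), (nat_lit 12837379)] (nat_lit 10356376)) p15_19_1 (nat_lit 4) (nat_lit 81) (nat_lit 82) = true := by decide +kernel
def p15_19_1_82 : pfC (piC [(nat_lit 39633164), (nat_lit 25639500), (nat_lit 19173228), (nat_lit 12837379)] (nat_lit 10356376)) p15_19_1 (nat_lit 4) (nat_lit 82) (nat_lit 83) = true := by decide +kernel
def p15_19_1_83 : pfC (piC [(nat_lit 39633164), (nat_lit 25639500), (nat_lit 19173228), (nat_lit 12837379)] (nat_lit 10356376)) p15_19_1 (nat_lit 4) (nat_lit 83) (nat_lit 84) = true := by decide +kernel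
def p15_19_1_84 : pfC (piC [(nat_lit 39633164), (nat_lit 25639500), (nat_lit 19173228), (nat_lit 12837379)] (nat_lit 10356376)) p15_19_1 (nat_lit 4) (nat_lit 84) (nat_lit 85) = true := by decide +kernel
def p15_19_1_85 : pfC (piC [(nat_lit 39633164), (nat_lit 25639500), (nat_lit 19173228), (nat_lit 12837379)] (nat_lit 10356376)) p15_19_1 (nat_lit 4) (nat_lit 85) (nat_lit 86) = true := by decide +kernel
def p15_19_1_86 : pfC (piC [(nat_lit 39633164), (nat_lit 25639500), (nat_lit 19173228), (nat_lit 12837379)] (nat_lit 10356376)) p15_19_1 (nat_lit 4) (nat_lit 86) (nat_lit 87) = true := by decide +kernel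
def p15_19_1_87 : pfC (piC [(nat_lit 39633164), (nat_lit 25639500), (nat_lit 19173228), (nat_lit 12837379)] (nat_lit 10356376)) p15_19_1 (nat_lit 4) (nat_lit 87) (nat_lit 88) = true := by decide +kernel
def p15_19_1_88 : pfC (piC [(nat_lit 39633164), (nat_lit 25639500), (nat_lit 19173228), (nat_lit 12837379)] (nat_lit 10356376)) p15_19_1 (nat_lit 4) (nat_lit 88) (nat_lit 89) = true := by decide +kernel
def p15_19_1_89 : pfC (piC [(nat_lit 39633164), (nat_lit 25639500), (nat_lit 19173228), (nat_lit 12837379)] (nat_lit 10356376)) p15_19_1 (nat_lit 4) (nat_lit 89) (nat_lit 90) = true := by decide +kernel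
def p15_19_1_90 : pfC (piC [(nat_lit 39633164), (nat_lit 25639500), (nat_lit 19173228), (nat_lit 12837379)] (nat_lit 10356376)) p15_19_1 (nat_lit 4) (nat_lit 90) (nat_lit 91) = true := by decide +kernel
def p15_19_1_91 : pfC (piC [(nat_lit 39633164), (nat_lit 25639500), (nat_lit 19173228), (nat_lit 12837379)] (nat_lit 10356376)) p15_19_1 (nat_lit 4) (nat_lit 91) (nat_lit 92) = true := by decide +kernel
def p15_19_1_92 : pfC (piC [(nat_lit 39633164), (nat_lit 25639500), (nat_lit 19173228), (nat_lit 12837379)] (nat_lit 10356376)) p15_19_1 (nat_lit 4) (nat_lit 92) (nat_lit 93) = true := by decide +kernel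
def p15_19_1_93 : pfC (piC [(nat_lit 39633164), (nat_lit 25639500), (nat_lit 19173228), (nat_lit 12837379)] (nat_lit 10356376)) p15_19_1 (nat_lit 4) (nat_lit 93) (nat_lit 94) = true := by decide +kernel
def p15_19_1_94 : pfC (piC [(nat_lit 39633164), (nat_lit 25639500), (nat_lit 19173228), (nat_lit 12837379)] (nat_lit 10356376)) p15_19_1 (nat_lit 4) (nat_lit 94) (nat_lit 95) = true := by decide +kernel
def p15_19_1_95 : pfC (piC [(nat_lit 39633164), (nat_lit 25639500), (nat_lit 19173228), (nat_lit 12837379)] (nat_lit 10356376)) p15_19_1 (nat_lit 4) (nat_lit 95) (nat_lit 96) = true := by decide +kernel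
def p15_19_1_96 : pfC (piC [(nat_lit 39633164), (nat_lit 25639500), (nat_lit 19173228), (nat_lit 12837379)] (nat_lit 10356376)) p15_19_1 (nat_lit 4) (nat_lit 96) (nat_lit 97) = true := by decide +kernel
def p15_19_1_97 : pfC (piC [(nat_lit 39633164), (nat_lit 25639500), (nat_lit 19173228), (nat_lit 12837379)] (nat_lit 10356376)) p15_19_1 (nat_lit 4) (nat_lit 97) (nat_lit 98) = true := by decide +kernel
def p15_19_1_98 : pfC (piC [(nat_lit 39633164), (nat_lit 25639500), (nat_lit 19173228), (nat_lit 12837379)] (nat_lit 10356376)) p15_19_1 (nat_lit 4) (nat_lit 98) (nat_lit 99) = true := by decide +kernel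
def p15_19_1_99 : pfC (piC [(nat_lit 39633164), (nat_lit 25639500), (nat_lit 19173228), (nat_lit 12837379)] (nat_lit 10356376)) p15_19_1 (nat_lit 4) (nat_lit 99) (nat_lit 100) = true := by decide +kernel
def p15_19_1_100 : pfC (piC [(nat_lit 39633164), (nat_lit 25639500), (nat_lit 19173228), (nat_lit 12837379)] (nat_lit 10356376)) p15_19_1 (nat_lit 4) (nat_lit 100) (nat_lit 101) = true := by decide +kernel
def p15_19_1_101 : pfC (piC [(nat_lit 39633164), (nat_lit 25639500), (nat_lit 19173228), (nat_lit 12837379)] (nat_lit 10356376)) p15_19_1 (nat_lit 4) (nat_lit 101) (nat_lit 102) = true := by decide +kernel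
def p15_19_1_102 : pfC (piC [(nat_lit 39633164), (nat_lit 25639500), (nat_lit 19173228), (nat_lit 12837379)] (nat_lit 10356376)) p15_19_1 (nat_lit 4) (nat_lit 102) (nat_lit 103) = true := by decide +kernel
def p15_19_1_103 : pfC (piC [(nat_lit 39633164), (nat_lit 25639500), (nat_lit 19173228), (nat_lit 12837379)] (nat_lit 10356376)) p15_19_1 (nat_lit 4) (nat_lit 103) (nat_lit 104) = true := by decide +kernel
def p15_19_1_104 : pfC (piC [(nat_lit 39633164), (nat_lit 25639500), (nat_lit 19173228), (nat_lit 12837379)] (nat_lit 10356376)) p15_19_1 (nat_lit 4) (nat_lit 104) (nat_lit 105) = true := by decide +kernel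
def p15_19_1_105 : pfC (piC [(nat_lit 39633164), (nat_lit 25639500), (nat_lit 19173228), (nat_lit 12837379)] (nat_lit 10356376)) p15_19_1 (nat_lit 4) (nat_lit 105) (nat_lit 106) = true := by decide +kernel
def p15_19_1_106 : pfC (piC [(nat_lit 39633164), (nat_lit 25639500), (nat_lit 19173228), (nat_lit 12837379)] (nat_lit 10356376)) p15_19_1 (nat_lit 4) (nat_lit 106) (nat_lit 107) = true := by decide +kernel
def p15_19_1_107 : pfC (piC [(nat_lit 39633164), (nat_lit 25639500), (nat_lit 19173228), (nat_lit 12837379)] (nat_lit 10356376)) p15_19_1 (nat_lit 4) (nat_lit 107) (nat_lit 108) = true := by decide +kernel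
def p15_19_1_108 : pfC (piC [(nat_lit 39633164), (nat_lit 25639500), (nat_lit 19173228), (nat_lit 12837379)] (nat_lit 10356376)) p15_19_1 (nat_lit 4) (nat_lit 108) (nat_lit 109) = true := by decide +kernel
def p15_19_1_109 : pfC (piC [(nat_lit 39633164), (nat_lit 25639500), (nat_lit 19173228), (nat_lit 12837379)] (nat_lit 10356376)) p15_19_1 (nat_lit 4) (nat_lit 109) (nat_lit 110) = true := by decide +kernel
def p15_19_1_110 : pfC (piC [(nat_lit 39633164), (nat_lit 25639500), (nat_lit 19173228), (nat_lit 12837379)] (nat_lit 10356376)) p15_19_1 (nat_lit 4) (nat_lit 110) (nat_lit 111) = true := by decide +kernel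
def p15_19_1_111 : pfC (piC [(nat_lit 39633164), (nat_lit 25639500), (nat_lit 19173228), (nat_lit 12837379)] (nat_lit 10356376)) p15_19_1 (nat_lit 4) (nat_lit 111) (nat_lit 112) = true := by decide +kernel
def p15_19_1_112 : pfC (piC [(nat_lit 39633164), (nat_lit 25639500), (nat_lit 19173228), (nat_lit 12837379)] (nat_lit 10356376)) p15_19_1 (nat_lit 4) (nat_lit 112) (nat_lit 113) = true := by decide +kernel
def p15_19_1_113 : pfC (piC [(nat_lit 39633164), (nat_lit 25639500), (nat_lit 19173228), (nat_lit 12837379)] (nat_lit 10356376)) p15_19_1 (nat_lit 4) (nat_lit 113) (nat_lit 114) = true := by decide +kernel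
def p15_19_1_114 : pfC (piC [(nat_lit 39633164), (nat_lit 25639500), (nat_lit 19173228), (nat_lit 12837379)] (nat_lit 10356376)) p15_19_1 (nat_lit 4) (nat_lit 114) (nat_lit 115) = true := by decide +kernel
def p15_19_1_115 : pfC (piC [(nat_lit 39633164), (nat_lit 25639500), (nat_lit 19173228), (nat_lit 12837379)] (nat_lit 10356376)) p15_19_1 (nat_lit 4) (nat_lit 115) (nat_lit 116) = true := by decide +kernel
def p15_19_1_116 : pfC (piC [(nat_lit 39633164), (nat_lit 25639500), (nat_lit 19173228), (nat_lit 12837379)] (nat_lit 10356376)) p15_19_1 (nat_lit 4) (nat_lit 116) (nat_lit 117) = true := by decide +kernel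
def p15_19_1_117 : pfC (piC [(nat_lit 39633164), (nat_lit 25639500), (nat_lit 19173228), (nat_lit 12837379)] (nat_lit 10356376)) p15_19_1 (nat_lit 4) (nat_lit 117) (nat_lit 118) = true := by decide +kernel
def p15_19_1_118 : pfC (piC [(nat_lit 39633164), (nat_lit 25639500), (nat_lit 19173228), (nat_lit 12837379)] (nat_lit 10356376)) p15_19_1 (nat_lit 4) (nat_lit 118) (nat_lit 119) = true := by decide +kernel
def p15_19_1_119 : pfC (piC [(nat_lit 39633164), (nat_lit 25639500), (nat_lit 19173228), (nat_lit 12837379)] (nat_lit 10356376)) p15_19_1 (nat_lit 4) (nat_lit 119) (nat_lit 120) = true := by decide +kernel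
def p15_19_1_120 : pfC (piC [(nat_lit 39633164), (nat_lit 25639500), (nat_lit 19173228), (nat_lit 12837379)] (nat_lit 10356376)) p15_19_1 (nat_lit 4) (nat_lit 120) (nat_lit 121) = true := by decide +kernel
def p15_19_1_121 : pfC (piC [(nat_lit 39633164), (nat_lit 25639500), (nat_lit 19173228), (nat_lit 12837379)] (nat_lit 10356376)) p15_19_1 (nat_lit 4) (nat_lit 121) (nat_lit 122) = true := by decide +kernel
theorem p15_19_1_T : PfS (PiF n15_19.reverse (nat_lit 10356376)) p15_19_1 (nat_lit 4) [] 0 :=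
  pftab_of (los := [(nat_lit 39633164), (nat_lit 25639500), (nat_lit 19173228), (nat_lit 12837379)]) (by decide +kernel) (hi := (nat_lit 122)) (PfP.trans (PfP.trans (PfP.trans (PfP.trans (PfP.trans (PfP.trans (PfP.trans (PfP.trans (PfP.trans (PfP.trans (PfP.trans (PfP.trans (PfP.trans (PfP.trans (PfP.trans (PfP.trans (PfP.trans (PfP.trans (PfP.trans (PfP.trans (PfP.trans (PfP.trans (PfP.trans (PfP.trans (PfP.trans (PfP.trans (PfP.trans (PfP.trans (PfP.trans (PfP.trans (PfP.trans (PfP.trans (PfP.trans (PfP.trans (PfP.trans (PfP.trans (PfP.trans (PfP.trans (PfP.trans (PfP.trans (PfP.trans (PfP.trans (PfP.trans (PfP.trans (PfP.trans (PfP.trans (PfP.trans (PfP.trans (PfP.trans (PfP.trans (PfP.trans (PfP.trans (PfP.trans (PfP.trans (PfP.trans (PfP.trans (PfP.trans (PfP.trans (PfP.trans (PfP.trans (PfP.trans (PfP.trans (PfP.trans (PfP.trans (PfP.trans (PfP.trans (PfP.trans (PfP.trans (PfP.trans (PfP.trans (PfP.trans (PfP.trans (PfP.trans (PfP.trans (PfP.trans (PfP.trans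 (PfP.trans (PfP.trans (PfP.trans (PfP.trans (PfP.trans (PfP.trans (PfP.trans (PfP.trans (PfP.trans (PfP.trans (PfP.trans (PfP.trans (PfP.trans (PfP.trans (PfP.trans (PfP.trans (PfP.trans (PfP.trans (PfP.trans (PfP.trans (PfP.trans (PfP.trans (PfP.trans (PfP.trans (PfP.trans (PfP.trans (PfP.trans (PfP.trans (PfP.trans (PfP.trans (PfP.trans (PfP.trans (PfP.trans
 (PfP.trans (PfP.trans (PfP.trans (PfP.trans (PfP.trans (PfP.trans (PfP.trans (PfP.trans (PfP.trans (PfP.trans (PfP.trans (PfP.trans (pfC_sound p15_19_1_0) (pfC_sound p15_19_1_1)) (pfC_sound p15_19_1_2)) (pfC_sound p15_19_1_3)) (pfC_sound p15_19_1_4)) (pfC_sound p15_19_1_5)) (pfC_sound p15_19_1_6)) (pfC_sound p15_19_1_7)) (pfC_sound p15_19_1_8)) (pfC_sound p15_19_1_9)) (pfC_sound p15_19_1_10)) (pfC_sound p15_19_1_11)) (pfC_sound p15_19_1_12)) (pfC_sound p15_19_1_13)) (pfC_sound p15_19_1_14)) (pfC_sound p15_19_1_15)) (pfC_sound p15_19_1_16)) (pfC_sound p15_19_1_17)) (pfC_sound p15_19_1_18)) (pfC_sound p15_19_1_19))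 (pfC_sound p15_19_1_20)) (pfC_sound p15_19_1_21)) (pfC_sound p15_19_1_22)) (pfC_sound p15_19_1_23)) (pfC_sound p15_19_1_24)) (pfC_sound p15_19_1_25)) (pfC_sound p15_19_1_26)) (pfC_sound p15_19_1_27)) (pfC_sound p15_19_1_28)) (pfC_sound p15_19_1_29)) (pfC_sound p15_19_1_30)) (pfC_sound p15_19_1_31)) (pfC_sound p15_19_1_32)) (pfC_sound p15_19_1_33)) (pfC_sound p15_19_1_34)) (pfC_sound p15_19_1_35)) (pfC_sound p15_19_1_36)) (pfC_sound p15_19_1_37)) (pfC_sound p15_19_1_38)) (pfC_sound p15_19_1_39)) (pfC_sound p15_19_1_40)) (pfC_sound p15_19_1_41)) (pfC_sound p15_19_1_42))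
 (pfC_sound p15_19_1_43)) (pfC_sound p15_19_1_44)) (pfC_sound p15_19_1_45)) (pfC_sound p15_19_1_46)) (pfC_sound p15_19_1_47)) (pfC_sound p15_19_1_48)) (pfC_sound p15_19_1_49)) (pfC_sound p15_19_1_50)) (pfC_sound p15_19_1_51)) (pfC_sound p15_19_1_52)) (pfC_sound p15_19_1_53)) (pfC_sound p15_19_1_54)) (pfC_sound p15_19_1_55)) (pfC_sound p15_19_1_56)) (pfC_sound p15_19_1_57)) (pfC_sound p15_19_1_58)) (pfC_sound p15_19_1_59)) (pfC_sound p15_19_1_60)) (pfC_sound p15_19_1_61)) (pfC_sound p15_19_1_62)) (pfC_sound p15_19_1_63)) (pfC_sound p15_19_1_64)) (pfC_sound p15_19_1_65)) (pfC_sound p15_19_1_66)) (pfC_sound p15_19_1_67)) (pfC_sound p15_19_1_68)) (pfC_sound p15_19_1_69)) (pfC_sound p15_19_1_70)) (pfC_sound p15_19_1_71)) (pfC_sound p15_19_1_72)) (pfC_sound p15_19_1_73)) (pfC_sound p15_19_1_74)) (pfC_sound p15_19_1_75)) (pfC_sound p15_19_1_76)) (pfC_sound p15_19_1_77)) (pfC_sound p15_19_1_78)) (pfC_sound p15_19_1_79)) (pfC_sound p15_19_1_80)) (pfC_sound p15_19_1_81)) (pfC_sound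 p15_19_1_82)) (pfC_sound p15_19_1_83)) (pfC_sound p15_19_1_84)) (pfC_sound p15_19_1_85)) (pfC_sound p15_19_1_86)) (pfC_sound p15_19_1_87)) (pfC_sound p15_19_1_88)) (pfC_sound p15_19_1_89)) (pfC_sound p15_19_1_90))
 (pfC_sound p15_19_1_91)) (pfC_sound p15_19_1_92)) (pfC_sound p15_19_1_93)) (pfC_sound p15_19_1_94)) (pfC_sound p15_19_1_95)) (pfC_sound p15_19_1_96)) (pfC_sound p15_19_1_97)) (pfC_sound p15_19_1_98)) (pfC_sound p15_19_1_99)) (pfC_sound p15_19_1_100)) (pfC_sound p15_19_1_101)) (pfC_sound p15_19_1_102)) (pfC_sound p15_19_1_103)) (pfC_sound p15_19_1_104)) (pfC_sound p15_19_1_105)) (pfC_sound p15_19_1_106)) (pfC_sound p15_19_1_107)) (pfC_sound p15_19_1_108)) (pfC_sound p15_19_1_109)) (pfC_sound p15_19_1_110)) (pfC_sound p15_19_1_111)) (pfC_sound p15_19_1_112)) (pfC_sound p15_19_1_113)) (pfC_sound p15_19_1_114)) (pfC_sound p15_19_1_115)) (pfC_sound p15_19_1_116)) (pfC_sound p15_19_1_117)) (pfC_sound p15_19_1_118)) (pfC_sound p15_19_1_119)) (pfC_sound p15_19_1_120))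 (pfC_sound p15_19_1_121)) (by decide +kernel)

def z15_19_1 : zOK yB15_19 (nat_lit 1) (nat_lit 400) (nat_lit 600) (nat_lit 10356376) (nat_lit 6674796) = true := by decide +kernel
def g15_19_1 : gOK yB15_19.x P15_19 (nat_lit 1417) (q15_19 :: r15_19) (nat_lit 1) (nat_lit 400) (nat_lit 2) (nat_lit 600) (nat_lit 11000000) (nat_lit 17850000) (nat_lit 12712500) (nat_lit 12712500) [(nat_lit 800), (nat_lit 1040)] = true := by decide +kernel
def v15_19_1 : ivC P15_19 s15_19 w15_19 n15_19 (nat_lit 4) (nat_lit 5010) (nat_lit 1) (nat_lit 400) f152_1_400 f160_1_400 (nat_lit 2) (nat_lit 600) f152_1_600 f160_1_600 (nat_lit 10356376) (nat_lit 6674796) p15_19_1 = true := by decide +kernel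
def p15_19_2 : PF := (PF.cons (PF.cons (PF.cons (PF.cons (PF.leaf (nat_lit 2756125) (nat_lit 16114584) (nat_lit 50994228) (nat_lit 16114584) [(nat_lit 0), (nat_lit 0), (nat_lit 0), (nat_lit 0)]) (PF.cons (PF.leaf (nat_lit 2909586) (nat_lit 267015) (nat_lit 50745733) (nat_lit 16096063) [(nat_lit 267015), (nat_lit 0), (nat_lit 0), (nat_lit 0)]) (PF.cons (PF.leaf (nat_lit 3091405) (nat_lit 290129) (nat_lit 50455297) (nat_lit 16073257) [(nat_lit 290129), (nat_lit 0), (nat_lit 0), (nat_lit 0)]) (PF.cons (PF.leaf (nat_lit 3295285) (nat_lit 310563) (nat_lit 50130783) (nat_lit 16046339) [(nat_lit 310563), (nat_lit 0), (nat_lit 0), (nat_lit 0)]) (PF.cons (PF.leaf (nat_lit 3518111) (nat_lit 328914) (nat_lit 49777775) (nat_lit 16015380) [(nat_lit 328914), (nat_lit 0), (nat_lit 0), (nat_lit 0)]) (PF.cons (PF.leaf (nat_lit 3757294) (nat_lit 345564) (nat_lit 49400578) (nat_lit 15980410) [(nat_lit 345564), (nat_lit 0), (nat_lit 0), (nat_lit 0)]) (PF.cons (PF.leaf (nat_lit 4010865)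 (nat_lit 360777) (nat_lit 49002693) (nat_lit 15941454) [(nat_lit 360777), (nat_lit 0), (nat_lit 0), (nat_lit 0)]) (PF.cons (PF.leaf (nat_lit 4277127) (nat_lit 374743) (nat_lit 48587065) (nat_lit 15898541) [(nat_lit 374743), (nat_lit 0),
 (nat_lit 0), (nat_lit 0)]) (PF.cons (PF.leaf (nat_lit 4554651) (nat_lit 387607) (nat_lit 48156233) (nat_lit 15851717) [(nat_lit 387607), (nat_lit 0), (nat_lit 0), (nat_lit 0)]) (PF.cons PF.nil PF.nil)))))))))) (PF.cons (PF.cons (PF.leaf (nat_lit 3284048) (nat_lit 1237676) (nat_lit 49852951) (nat_lit 16018184) [(nat_lit 0), (nat_lit 1237676), (nat_lit 0), (nat_lit 0)]) (PF.cons (PF.leaf (nat_lit 3482142) (nat_lit 320862) (nat_lit 49531484) (nat_lit 15988772) [(nat_lit 320862), (nat_lit 1267693), (nat_lit 0), (nat_lit 0)]) (PF.cons (PF.leaf (nat_lit 3701343) (nat_lit 338484) (nat_lit 49179890) (nat_lit 15955015) [(nat_lit 338484), (nat_lit 1296936), (nat_lit 0), (nat_lit 0)]) (PF.cons (PF.leaf (nat_lit 3937592) (nat_lit 354408) (nat_lit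 48803548) (nat_lit 15917080) [(nat_lit 354408), (nat_lit 1324958), (nat_lit 0), (nat_lit 0)]) (PF.cons (PF.leaf (nat_lit 4188538) (nat_lit 368921) (nat_lit 48406503) (nat_lit 15875078) [(nat_lit 368921), (nat_lit 1351545), (nat_lit 0), (nat_lit 0)]) (PF.cons (PF.leaf (nat_lit 4452297) (nat_lit 382224) (nat_lit 47991990) (nat_lit 15829098) [(nat_lit 382224), (nat_lit 1376602), (nat_lit 0), (nat_lit 0)]) (PF.cons (PF.leaf (nat_lit 4727320) (nat_lit
 394463) (nat_lit 47562700) (nat_lit 15779232) [(nat_lit 394463), (nat_lit 1400100), (nat_lit 0), (nat_lit 0)]) (PF.cons PF.nil (PF.cons PF.nil PF.nil))))))))) (PF.cons (PF.cons (PF.leaf (nat_lit 3887922) (nat_lit 1325735) (nat_lit 48568851) (nat_lit 15888489) [(nat_lit 0), (nat_lit 1325735), (nat_lit 0), (nat_lit 0)]) (PF.cons (PF.leaf (nat_lit 4118918) (nat_lit 361966) (nat_lit 48197263) (nat_lit 15848098) [(nat_lit 361966), (nat_lit 1350742), (nat_lit 0), (nat_lit 0)]) (PF.cons (PF.leaf (nat_lit 4366101) (nat_lit 375974)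 (nat_lit 47804010) (nat_lit 15803477) [(nat_lit 375974), (nat_lit 1374687), (nat_lit 0), (nat_lit 0)]) (PF.cons (PF.leaf (nat_lit 4626567) (nat_lit 388759) (nat_lit 47392942) (nat_lit 15754810) [(nat_lit 388759), (nat_lit 1397390), (nat_lit 0), (nat_lit 0)]) (PF.cons (PF.leaf (nat_lit 4898458) (nat_lit 400486) (nat_lit 46967087) (nat_lit 15702250) [(nat_lit 400486), (nat_lit 1418764), (nat_lit 0), (nat_lit 0)]) (PF.cons (PF.leaf (nat_lit 5180362) (nat_lit 411276) (nat_lit 46528938) (nat_lit 15645934) [(nat_lit 411276), (nat_lit 1438777), (nat_lit 0), (nat_lit 0)]) (PF.cons PF.nil PF.nil))))))) (PF.cons (PF.cons (PF.leaf (nat_lit 4545235) (nat_lit 1395611)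
 (nat_lit 47195294) (nat_lit 15726684) [(nat_lit 0), (nat_lit 1395611), (nat_lit 0), (nat_lit 0)]) (PF.cons (PF.leaf (nat_lit 4800703) (nat_lit 394390) (nat_lit 46790221) (nat_lit 15675779) [(nat_lit 394390), (nat_lit 1416140), (nat_lit 0), (nat_lit 0)]) (PF.cons (PF.leaf (nat_lit 5068719) (nat_lit 405717) (nat_lit 46369794) (nat_lit 15620917) [(nat_lit 405717), (nat_lit 1435555), (nat_lit 0), (nat_lit 0)]) (PF.cons (PF.leaf (nat_lit 5346994) (nat_lit 416098) (nat_lit 45936865) (nat_lit 15562299) [(nat_lit 416098), (nat_lit 1453784), (nat_lit 0), (nat_lit 0)]) (PF.cons PF.nil PF.nil))))) (PF.cons (PF.cons (PF.leaf (nat_lit 5239289) (nat_lit 1450651) (nat_lit 45770877) (nat_lit 15535331) [(nat_lit 0), (nat_lit 1450651), (nat_lit 0), (nat_lit 0)]) (PF.cons (PF.leaf (nat_lit 5512716) (nat_lit 420239) (nat_lit 45344898) (nat_lit 15474805) [(nat_lit 420239), (nat_lit 1467217), (nat_lit 0), (nat_lit 0)]) (PF.cons (PF.leaf (nat_lit 5795845) (nat_lit 429447) (nat_lit 44908380)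 (nat_lit 15410705) [(nat_lit 429447), (nat_lit 1482707), (nat_lit 0), (nat_lit 0)]) (PF.cons PF.nil PF.nil)))) (PF.cons (PF.cons (PF.leaf (nat_lit 5957078) (nat_lit 1493274) (nat_lit 44324514) (nat_lit 15317924)
 [(nat_lit 0), (nat_lit 1493274), (nat_lit 0), (nat_lit 0)]) (PF.cons (PF.leaf (nat_lit 6243275) (nat_lit 440830) (nat_lit 43887273) (nat_lit 15248940) [(nat_lit 440830), (nat_lit 1506353), (nat_lit 0), (nat_lit 0)]) PF.nil)) (PF.cons PF.nil (PF.cons PF.nil PF.nil)))))))) (PF.cons (PF.cons (PF.cons (PF.leaf (nat_lit 3819083) (nat_lit 3219517) (nat_lit 48074766) (nat_lit 15814529) [(nat_lit 0), (nat_lit 0), (nat_lit 3219517), (nat_lit 0)]) (PF.cons (PF.leaf (nat_lit 4025763) (nat_lit 342849) (nat_lit 47744845) (nat_lit 15777008) [(nat_lit 342849), (nat_lit 0), (nat_lit 3244109), (nat_lit 0)]) (PF.cons (PF.leaf (nat_lit 4252519) (nat_lit 359273) (nat_lit 47386851) (nat_lit 15734784) [(nat_lit 359273), (nat_lit 0), (nat_lit 3268630), (nat_lit 0)]) (PF.cons (PF.leaf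 (nat_lit 4495180) (nat_lit 373906) (nat_lit 47006401) (nat_lit 15688221) [(nat_lit 373906), (nat_lit 0), (nat_lit 3292472), (nat_lit 0)]) (PF.cons (PF.leaf (nat_lit 4751324) (nat_lit 387093) (nat_lit 46607618) (nat_lit 15637574) [(nat_lit 387093), (nat_lit 0), (nat_lit 3315245), (nat_lit 0)]) (PF.cons (PF.leaf (nat_lit 5019048) (nat_lit 399069) (nat_lit 46193722) (nat_lit 15583050) [(nat_lit 399069), (nat_lit 0), (nat_lit
 3336693), (nat_lit 0)]) (PF.cons (PF.leaf (nat_lit 5296835) (nat_lit 409999) (nat_lit 45767336) (nat_lit 15524829) [(nat_lit 409999), (nat_lit 0), (nat_lit 3356651), (nat_lit 0)]) (PF.cons PF.nil (PF.cons PF.nil PF.nil))))))))) (PF.cons (PF.cons (PF.leaf (nat_lit 4434492) (nat_lit 1376685) (nat_lit 46780451) (nat_lit 15655871) [(nat_lit 0), (nat_lit 1376685), (nat_lit 3295804), (nat_lit 0)]) (PF.cons (PF.leaf (nat_lit 4670920) (nat_lit 379470) (nat_lit 46407581) (nat_lit 15607579) [(nat_lit 379470), (nat_lit 1397652), (nat_lit 3316528), (nat_lit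 0)]) (PF.cons (PF.leaf (nat_lit 4922423) (nat_lit 392314) (nat_lit 46015143) (nat_lit 15555024) [(nat_lit 392314), (nat_lit 1417600), (nat_lit 3336415), (nat_lit 0)]) (PF.cons (PF.leaf (nat_lit 5186114) (nat_lit 403913) (nat_lit 45606992) (nat_lit 15498513) [(nat_lit 403913), (nat_lit 1436397), (nat_lit 3355170), (nat_lit 0)]) (PF.cons (PF.leaf (nat_lit 5460150) (nat_lit 414455) (nat_lit 45186109) (nat_lit 15438290) [(nat_lit 414455), (nat_lit 1453984), (nat_lit 3372605), (nat_lit 0)]) (PF.cons (PF.leaf (nat_lit 5743103) (nat_lit 424079) (nat_lit 44754896) (nat_lit 15374568) [(nat_lit 424079), (nat_lit 1470346), (nat_lit 3388602), (nat_lit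
 0)]) (PF.cons PF.nil PF.nil))))))) (PF.cons (PF.cons (PF.leaf (nat_lit 5095058) (nat_lit 1433385) (nat_lit 45419242) (nat_lit 15468070) [(nat_lit 0), (nat_lit 1433385), (nat_lit 3354729), (nat_lit 0)]) (PF.cons (PF.leaf (nat_lit 5353091) (nat_lit 407987) (nat_lit 45019028) (nat_lit 15410029) [(nat_lit 407987), (nat_lit 1450401), (nat_lit 3370964), (nat_lit 0)]) (PF.cons (PF.leaf (nat_lit 5622677) (nat_lit 418241) (nat_lit 44605322) (nat_lit 15348195) [(nat_lit 418241), (nat_lit 1466382), (nat_lit 3386046), (nat_lit 0)]) (PF.cons (PF.leaf (nat_lit 5901535) (nat_lit 427556) (nat_lit 44180899) (nat_lit 15282847) [(nat_lit 427556), (nat_lit 1481280), (nat_lit 3399837), (nat_lit 0)]) (PF.cons PF.nil PF.nil))))) (PF.cons (PF.cons (PF.leaf (nat_lit 5785579) (nat_lit 1477415) (nat_lit 44024798) (nat_lit 15254614) [(nat_lit 0), (nat_lit 1477415), (nat_lit 3397153), (nat_lit 0)]) (PF.cons (PF.leaf (nat_lit 6059152) (nat_lit 430447) (nat_lit 43608634) (nat_lit 15188022) [(nat_lit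 430447), (nat_lit 1490940), (nat_lit 3408887), (nat_lit 0)]) (PF.cons (PF.leaf (nat_lit 6341541) (nat_lit 438690) (nat_lit 43183478) (nat_lit 15118131) [(nat_lit 438690), (nat_lit 1503481), (nat_lit 3419376),
 (nat_lit 0)]) (PF.cons PF.nil PF.nil)))) (PF.cons (PF.cons (PF.leaf (nat_lit 6494439) (nat_lit 1510786) (nat_lit 42621713) (nat_lit 15019364) [(nat_lit 0), (nat_lit 1510786), (nat_lit 3424590), (nat_lit 0)]) (PF.cons PF.nil PF.nil)) (PF.cons PF.nil PF.nil)))))) (PF.cons (PF.cons (PF.cons (PF.leaf (nat_lit 4969729) (nat_lit 3338003) (nat_lit 45037240) (nat_lit 15395564) [(nat_lit 0), (nat_lit 0), (nat_lit 3338003), (nat_lit 0)]) (PF.cons (PF.leaf (nat_lit 5209570) (nat_lit 393236) (nat_lit 44667862) (nat_lit 15340822) [(nat_lit 393236), (nat_lit 0), (nat_lit 3353445), (nat_lit 0)]) (PF.cons (PF.leaf (nat_lit 5463531) (nat_lit 405050) (nat_lit 44280774) (nat_lit 15281874) [(nat_lit 405050), (nat_lit 0), (nat_lit 3368030), (nat_lit 0)]) (PF.cons (PF.leaf (nat_lit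 5728680) (nat_lit 415608) (nat_lit 43879781) (nat_lit 15219126) [(nat_lit 415608), (nat_lit 0), (nat_lit 3381539), (nat_lit 0)]) (PF.cons (PF.leaf (nat_lit 6003249) (nat_lit 425118) (nat_lit 43467775) (nat_lit 15152893) [(nat_lit 425118), (nat_lit 0), (nat_lit 3393834), (nat_lit 0)]) (PF.cons PF.nil (PF.cons PF.nil PF.nil))))))) (PF.cons (PF.cons (PF.leaf (nat_lit 5629268) (nat_lit 1460332) (nat_lit 43702595) (nat_lit
 15187231) [(nat_lit 0), (nat_lit 1460332), (nat_lit 3379326), (nat_lit 0)]) (PF.cons (PF.leaf (nat_lit 5888322) (nat_lit 418408) (nat_lit 43310838) (nat_lit 15123592) [(nat_lit 418408), (nat_lit 1474409), (nat_lit 3390782), (nat_lit 0)]) (PF.cons (PF.leaf (nat_lit 6158001) (nat_lit 427719) (nat_lit 42907176) (nat_lit 15056364) [(nat_lit 427719), (nat_lit 1487516), (nat_lit 3401158), (nat_lit 0)]) (PF.cons (PF.leaf (nat_lit 6436119) (nat_lit 436102) (nat_lit 42494282) (nat_lit 14985881) [(nat_lit 436102), (nat_lit 1499626), (nat_lit 3410356), (nat_lit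 0)]) (PF.cons PF.nil PF.nil))))) (PF.cons (PF.cons (PF.leaf (nat_lit 6313203) (nat_lit 1495253) (nat_lit 42348139) (nat_lit 14957020) [(nat_lit 0), (nat_lit 1495253), (nat_lit 3406573), (nat_lit 0)]) (PF.cons (PF.leaf (nat_lit 6585740) (nat_lit 437966) (nat_lit 41944335) (nat_lit 14885869) [(nat_lit 437966), (nat_lit 1506223), (nat_lit 3414097), (nat_lit 0)]) (PF.cons PF.nil (PF.cons PF.nil PF.nil)))) (PF.cons (PF.cons (PF.leaf (nat_lit 7011091) (nat_lit 1520935) (nat_lit 40994904) (nat_lit 14708895) [(nat_lit 0), (nat_lit 1520935), (nat_lit 3421102), (nat_lit 0)]) (PF.cons PF.nil PF.nil)) (PF.cons PF.nil PF.nil))))) (PF.cons (PF.cons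
 (PF.cons (PF.leaf (nat_lit 6146798) (nat_lit 3388261) (nat_lit 42053426) (nat_lit 14890602) [(nat_lit 0), (nat_lit 0), (nat_lit 3388261), (nat_lit 0)]) (PF.cons (PF.leaf (nat_lit 6405596) (nat_lit 426205) (nat_lit 41672596) (nat_lit 14822729) [(nat_lit 426205), (nat_lit 0), (nat_lit 3395760), (nat_lit 0)]) (PF.cons (PF.leaf (nat_lit 6674260) (nat_lit 434682) (nat_lit 41281216) (nat_lit 14751487) [(nat_lit 434682), (nat_lit 0), (nat_lit 3402247), (nat_lit 0)]) (PF.cons PF.nil (PF.cons PF.nil PF.nil))))) (PF.cons (PF.cons (PF.leaf (nat_lit 6821858) (nat_lit 1505846) (nat_lit 40745453) (nat_lit 14648255) [(nat_lit 0), (nat_lit 1505846), (nat_lit 3403085), (nat_lit 0)]) (PF.cons (PF.leaf (nat_lit 7092447) (nat_lit 443259) (nat_lit 40355647) (nat_lit 14573840) [(nat_lit 443259), (nat_lit 1514657), (nat_lit 3407135), (nat_lit 0)]) (PF.cons PF.nil (PF.cons PF.nil PF.nil)))) (PF.cons (PF.cons (PF.leaf (nat_lit 7507348) (nat_lit 1525110) (nat_lit 39445921) (nat_lit 14391433)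 [(nat_lit 0), (nat_lit 1525110), (nat_lit 3407078), (nat_lit 0)]) (PF.cons PF.nil PF.nil)) PF.nil))) (PF.cons (PF.cons (PF.cons (PF.leaf (nat_lit 7311646) (nat_lit 3389310) (nat_lit 39218575) (nat_lit 14332994)
 [(nat_lit 0), (nat_lit 0), (nat_lit 3389310), (nat_lit 0)]) (PF.cons (PF.leaf (nat_lit 7579553) (nat_lit 446706) (nat_lit 38843730) (nat_lit 14256403) [(nat_lit 446706), (nat_lit 0), (nat_lit 3390493), (nat_lit 0)]) PF.nil)) (PF.cons PF.nil PF.nil)) (PF.cons PF.nil PF.nil)))))) (PF.cons (PF.cons (PF.cons (PF.cons (PF.leaf (nat_lit 4758195) (nat_lit 8870742) (nat_lit 43244641) (nat_lit 14993428) [(nat_lit 0), (nat_lit 0), (nat_lit 0), (nat_lit 8870742)]) (PF.cons (PF.leaf (nat_lit 4962610) (nat_lit 351977) (nat_lit 42948573) (nat_lit 14946879) [(nat_lit 351977), (nat_lit 0), (nat_lit 0), (nat_lit 8861383)]) (PF.cons (PF.leaf (nat_lit 5185675) (nat_lit 367306) (nat_lit 42628629) (nat_lit 14895487) [(nat_lit 367306), (nat_lit 0), (nat_lit 0), (nat_lit 8850083)])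 (PF.cons (PF.leaf (nat_lit 5423182) (nat_lit 380712) (nat_lit 42289971) (nat_lit 14839879) [(nat_lit 380712), (nat_lit 0), (nat_lit 0), (nat_lit 8836824)]) (PF.cons (PF.leaf (nat_lit 5672665) (nat_lit 392589) (nat_lit 41936351) (nat_lit 14780504) [(nat_lit 392589), (nat_lit 0), (nat_lit 0), (nat_lit 8821596)]) (PF.cons (PF.leaf (nat_lit 5932332) (nat_lit 403207) (nat_lit 41570660) (nat_lit 14717713) [(nat_lit 403207),
 (nat_lit 0), (nat_lit 0), (nat_lit 8804402)]) (PF.cons (PF.leaf (nat_lit 6200610) (nat_lit 412756) (nat_lit 41195216) (nat_lit 14651795) [(nat_lit 412756), (nat_lit 0), (nat_lit 0), (nat_lit 8785259)]) (PF.cons PF.nil (PF.cons PF.nil PF.nil))))))))) (PF.cons (PF.cons (PF.leaf (nat_lit 5352737) (nat_lit 1386644) (nat_lit 42094591) (nat_lit 14803852) [(nat_lit 0), (nat_lit 1386644), (nat_lit 0), (nat_lit 8823723)]) (PF.cons (PF.leaf (nat_lit 5583249) (nat_lit 384339) (nat_lit 41764370) (nat_lit 14747773) [(nat_lit 384339), (nat_lit 1403427), (nat_lit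 0), (nat_lit 8808900)]) (PF.cons (PF.leaf (nat_lit 5827484) (nat_lit 395960) (nat_lit 41417967) (nat_lit 14687719) [(nat_lit 395960), (nat_lit 1419127), (nat_lit 0), (nat_lit 8792079)]) (PF.cons (PF.leaf (nat_lit 6082485) (nat_lit 406287) (nat_lit 41058832) (nat_lit 14624145) [(nat_lit 406287), (nat_lit 1433676), (nat_lit 0), (nat_lit 8773297)]) (PF.cons (PF.leaf (nat_lit 6346542) (nat_lit 415536) (nat_lit 40689596) (nat_lit 14557406) [(nat_lit 415536), (nat_lit 1447068), (nat_lit 0), (nat_lit 8752596)]) (PF.cons (PF.leaf (nat_lit 6618260) (nat_lit 423863) (nat_lit 40312355) (nat_lit 14487794) [(nat_lit 423863), (nat_lit 1459323),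
 (nat_lit 0), (nat_lit 8730021)]) (PF.cons PF.nil PF.nil))))))) (PF.cons (PF.cons (PF.leaf (nat_lit 5983742) (nat_lit 1429231) (nat_lit 40898411) (nat_lit 14592031) [(nat_lit 0), (nat_lit 1429231), (nat_lit 0), (nat_lit 8759906)]) (PF.cons (PF.leaf (nat_lit 6232662) (nat_lit 408714) (nat_lit 40547538) (nat_lit 14528093) [(nat_lit 408714), (nat_lit 1442349), (nat_lit 0), (nat_lit 8739768)]) (PF.cons (PF.leaf (nat_lit 6491873) (nat_lit 417758) (nat_lit 40185779) (nat_lit 14460873) [(nat_lit 417758), (nat_lit 1454465), (nat_lit 0), (nat_lit 8717711)]) (PF.cons (PF.leaf (nat_lit 6759192) (nat_lit 425858) (nat_lit 39815557) (nat_lit 14390730) [(nat_lit 425858), (nat_lit 1465570), (nat_lit 0), (nat_lit 8693807)]) (PF.cons PF.nil PF.nil))))) (PF.cons (PF.cons (PF.leaf (nat_lit 6637800) (nat_lit 1460836) (nat_lit 39683428) (nat_lit 14362200) [(nat_lit 0), (nat_lit 1460836), (nat_lit 0), (nat_lit 8680675)]) (PF.cons (PF.leaf (nat_lit 6899632) (nat_lit 427372) (nat_lit 39321339)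 (nat_lit 14291849) [(nat_lit 427372), (nat_lit 1470870), (nat_lit 0), (nat_lit 8655639)]) (PF.cons (PF.leaf (nat_lit 7169223) (nat_lit 434488) (nat_lit 38952162) (nat_lit 14218809) [(nat_lit 434488), (nat_lit
 1480006), (nat_lit 0), (nat_lit 8628844)]) (PF.cons PF.nil PF.nil)))) (PF.cons (PF.cons (PF.leaf (nat_lit 7305091) (nat_lit 1483527) (nat_lit 38468707) (nat_lit 14118141) [(nat_lit 0), (nat_lit 1483527), (nat_lit 0), (nat_lit 8587855)]) (PF.cons PF.nil PF.nil)) (PF.cons PF.nil PF.nil)))))) (PF.cons (PF.cons (PF.cons (PF.leaf (nat_lit 5845062) (nat_lit 3284617) (nat_lit 40581229) (nat_lit 14520148) [(nat_lit 0), (nat_lit 0), (nat_lit 3284617), (nat_lit 8722817)]) (PF.cons (PF.leaf (nat_lit 6077184) (nat_lit 393853) (nat_lit 40257212) (nat_lit 14460390) [(nat_lit 393853), (nat_lit 0), (nat_lit 3293581), (nat_lit 8703775)]) (PF.cons (PF.leaf (nat_lit 6322168) (nat_lit 404549) (nat_lit 39918503) (nat_lit 14396793) [(nat_lit 404549), (nat_lit 0), (nat_lit 3301681),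 (nat_lit 8682734)]) (PF.cons (PF.leaf (nat_lit 6577145) (nat_lit 413968) (nat_lit 39568451) (nat_lit 14329869) [(nat_lit 413968), (nat_lit 0), (nat_lit 3308790), (nat_lit 8659796)]) (PF.cons (PF.leaf (nat_lit 6840410) (nat_lit 422335) (nat_lit 39209579) (nat_lit 14260007) [(nat_lit 422335), (nat_lit 0), (nat_lit 3314836), (nat_lit 8635047)]) (PF.cons PF.nil (PF.cons PF.nil PF.nil))))))) (PF.cons (PF.cons (PF.leaf (nat_lit
 6471866) (nat_lit 1443456) (nat_lit 39417879) (nat_lit 14297600) [(nat_lit 0), (nat_lit 1443456), (nat_lit 3304561), (nat_lit 8645315)]) (PF.cons (PF.leaf (nat_lit 6720500) (nat_lit 415424) (nat_lit 39076767) (nat_lit 14230750) [(nat_lit 415424), (nat_lit 1454266), (nat_lit 3310199), (nat_lit 8621404)]) (PF.cons (PF.leaf (nat_lit 6978690) (nat_lit 423664) (nat_lit 38725964) (nat_lit 14160823) [(nat_lit 423664), (nat_lit 1464150), (nat_lit 3314878), (nat_lit 8595667)]) (PF.cons (PF.leaf (nat_lit 7244310) (nat_lit 430984) (nat_lit 38367782) (nat_lit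 14088204) [(nat_lit 430984), (nat_lit 1473111), (nat_lit 3318550), (nat_lit 8568209)]) (PF.cons PF.nil PF.nil))))) (PF.cons (PF.cons (PF.leaf (nat_lit 7117684) (nat_lit 1468145) (nat_lit 38244492) (nat_lit 14059944) [(nat_lit 0), (nat_lit 1468145), (nat_lit 3313570), (nat_lit 8554514)]) (PF.cons (PF.leaf (nat_lit 7377655) (nat_lit 431733) (nat_lit 37894810) (nat_lit 13987492) [(nat_lit 431733), (nat_lit 1476222), (nat_lit 3316068), (nat_lit 8526263)]) (PF.cons PF.nil (PF.cons PF.nil PF.nil)))) (PF.cons (PF.cons (PF.leaf (nat_lit 7773628) (nat_lit 1485117) (nat_lit 37077415) (nat_lit 13810813) [(nat_lit 0), (nat_lit 1485117), (nat_lit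
 3312955), (nat_lit 8452276)]) (PF.cons PF.nil PF.nil)) (PF.cons PF.nil PF.nil))))) (PF.cons (PF.cons (PF.cons (PF.leaf (nat_lit 6944480) (nat_lit 3294821) (nat_lit 38001893) (nat_lit 13997743) [(nat_lit 0), (nat_lit 0), (nat_lit 3294821), (nat_lit 8519531)]) (PF.cons (PF.leaf (nat_lit 7191979) (nat_lit 420201) (nat_lit 37671810) (nat_lit 13928883) [(nat_lit 420201), (nat_lit 0), (nat_lit 3297649), (nat_lit 8492617)]) (PF.cons (PF.leaf (nat_lit 7448417) (nat_lit 427732) (nat_lit 37333057) (nat_lit 13857148) [(nat_lit 427732), (nat_lit 0), (nat_lit 3299583), (nat_lit 8463973)]) (PF.cons (PF.leaf (nat_lit 7711688) (nat_lit 434368) (nat_lit 36987832) (nat_lit 13782939) [(nat_lit 434368), (nat_lit 0), (nat_lit 3300599), (nat_lit 8433734)]) (PF.cons PF.nil PF.nil))))) (PF.cons (PF.cons (PF.leaf (nat_lit 7580701) (nat_lit 1470427) (nat_lit 36872969) (nat_lit 13755203) [(nat_lit 0), (nat_lit 1470427), (nat_lit 3295230), (nat_lit 8419752)]) (PF.cons (PF.leaf (nat_lit 7838249)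 (nat_lit 434486) (nat_lit 36536401) (nat_lit 13681469) [(nat_lit 434486), (nat_lit 1476849), (nat_lit 3295300), (nat_lit 8389004)]) (PF.cons PF.nil (PF.cons PF.nil PF.nil)))) (PF.cons (PF.cons (PF.leaf (nat_lit
 8224540) (nat_lit 1482622) (nat_lit 35754726) (nat_lit 13503564) [(nat_lit 0), (nat_lit 1482622), (nat_lit 3287432), (nat_lit 8310412)]) (PF.cons PF.nil PF.nil)) PF.nil))) (PF.cons (PF.cons (PF.cons (PF.leaf (nat_lit 8027229) (nat_lit 3270320) (nat_lit 35568225) (nat_lit 13450677) [(nat_lit 0), (nat_lit 0), (nat_lit 3270320), (nat_lit 8278946)]) (PF.cons (PF.leaf (nat_lit 8281867) (nat_lit 435904) (nat_lit 35245092) (nat_lit 13376339) [(nat_lit 435904), (nat_lit 0), (nat_lit 3268389), (nat_lit 8246307)]) PF.nil)) (PF.cons PF.nil PF.nil)) (PF.cons PF.nil PF.nil))))) (PF.cons (PF.cons (PF.cons (PF.cons (PF.leaf (nat_lit 6619742) (nat_lit 8322258) (nat_lit 36800861) (nat_lit 13663434) [(nat_lit 0), (nat_lit 0), (nat_lit 0), (nat_lit 8322258)]) (PF.cons (PF.leaf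 (nat_lit 6843408) (nat_lit 389426) (nat_lit 36517918) (nat_lit 13603245) [(nat_lit 389426), (nat_lit 0), (nat_lit 0), (nat_lit 8299111)]) (PF.cons (PF.leaf (nat_lit 7078951) (nat_lit 399201) (nat_lit 36222610) (nat_lit 13539592) [(nat_lit 399201), (nat_lit 0), (nat_lit 0), (nat_lit 8274103)]) (PF.cons (PF.leaf (nat_lit 7323546) (nat_lit 407706) (nat_lit 35917860) (nat_lit 13473021) [(nat_lit 407706), (nat_lit 0), (nat_lit 0),
 (nat_lit 8247406)]) (PF.cons (PF.leaf (nat_lit 7575564) (nat_lit 415177) (nat_lit 35605851) (nat_lit 13403943) [(nat_lit 415177), (nat_lit 0), (nat_lit 0), (nat_lit 8219154)]) (PF.cons PF.nil (PF.cons PF.nil PF.nil))))))) (PF.cons (PF.cons (PF.leaf (nat_lit 7215151) (nat_lit 1412280) (nat_lit 35789910) (nat_lit 13442124) [(nat_lit 0), (nat_lit 1412280), (nat_lit 0), (nat_lit 8232248)]) (PF.cons (PF.leaf (nat_lit 7453361) (nat_lit 408253) (nat_lit 35493356) (nat_lit 13376158) [(nat_lit 408253), (nat_lit 1420780), (nat_lit 0), (nat_lit 8205132)])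 (PF.cons (PF.leaf (nat_lit 7700307) (nat_lit 415652) (nat_lit 35188728) (nat_lit 13307528) [(nat_lit 415652), (nat_lit 1428407), (nat_lit 0), (nat_lit 8176421)]) (PF.cons (PF.leaf (nat_lit 7953921) (nat_lit 422155) (nat_lit 34878017) (nat_lit 13236630) [(nat_lit 422155), (nat_lit 1435184), (nat_lit 0), (nat_lit 8146257)]) (PF.cons PF.nil PF.nil))))) (PF.cons (PF.cons (PF.leaf (nat_lit 7825993) (nat_lit 1429988) (nat_lit 34773745) (nat_lit 13210078) [(nat_lit 0), (nat_lit 1429988), (nat_lit 0), (nat_lit 8132506)]) (PF.cons (PF.leaf (nat_lit 8074020) (nat_lit 422169) (nat_lit 34470665) (nat_lit 13139791) [(nat_lit 422169), (nat_lit 1436066),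
 (nat_lit 0), (nat_lit 8102026)]) (PF.cons PF.nil (PF.cons PF.nil PF.nil)))) (PF.cons (PF.cons (PF.leaf (nat_lit 8444542) (nat_lit 1441147) (nat_lit 33765358) (nat_lit 12970513) [(nat_lit 0), (nat_lit 1441147), (nat_lit 0), (nat_lit 8024748)]) (PF.cons PF.nil PF.nil)) (PF.cons PF.nil PF.nil))))) (PF.cons (PF.cons (PF.cons (PF.leaf (nat_lit 7649954) (nat_lit 3183368) (nat_lit 34573022) (nat_lit 13153577) [(nat_lit 0), (nat_lit 0), (nat_lit 3183368), (nat_lit 8099422)]) (PF.cons (PF.leaf (nat_lit 7886581) (nat_lit 411049) (nat_lit 34286612) (nat_lit 13086864) [(nat_lit 411049), (nat_lit 0), (nat_lit 3183284), (nat_lit 8070500)]) (PF.cons (PF.leaf (nat_lit 8131426) (nat_lit 417838) (nat_lit 33992917) (nat_lit 13017664) [(nat_lit 417838), (nat_lit 0), (nat_lit 3182405), (nat_lit 8040074)]) (PF.cons PF.nil PF.nil)))) (PF.cons (PF.cons (PF.leaf (nat_lit 8251220) (nat_lit 1427191) (nat_lit 33596663) (nat_lit 12920637) [(nat_lit 0), (nat_lit 1427191), (nat_lit 3175087),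 (nat_lit 7994616)]) (PF.cons (PF.leaf (nat_lit 8496634) (nat_lit 423294) (nat_lit 33305208) (nat_lit 12850156) [(nat_lit 423294), (nat_lit 1431971), (nat_lit 3172746), (nat_lit 7962717)]) PF.nil)) (PF.cons PF.nil PF.nil)))
 (PF.cons (PF.cons (PF.cons (PF.leaf (nat_lit 8662060) (nat_lit 3144393) (nat_lit 32476662) (nat_lit 12634740) [(nat_lit 0), (nat_lit 0), (nat_lit 3144393), (nat_lit 7854312)]) (PF.cons PF.nil PF.nil)) (PF.cons PF.nil PF.nil)) PF.nil))) (PF.cons (PF.cons (PF.cons (PF.cons (PF.leaf (nat_lit 8282450) (nat_lit 7693580) (nat_lit 31654481) (nat_lit 12373591) [(nat_lit 0), (nat_lit 0), (nat_lit 0), (nat_lit 7693580)]) (PF.cons (PF.leaf (nat_lit 8508847) (nat_lit 400300) (nat_lit 31404950) (nat_lit 12310459) [(nat_lit 400300), (nat_lit 0), (nat_lit 0), (nat_lit 7664367)]) (PF.cons (PF.leaf (nat_lit 8742923) (nat_lit 406490) (nat_lit 31149192) (nat_lit 12245150) [(nat_lit 406490), (nat_lit 0), (nat_lit 0), (nat_lit 7633829)]) (PF.cons PF.nil PF.nil))))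 (PF.cons (PF.cons (PF.leaf (nat_lit 8852427) (nat_lit 1380738) (nat_lit 30806114) (nat_lit 12154515) [(nat_lit 0), (nat_lit 1380738), (nat_lit 0), (nat_lit 7589148)]) (PF.cons PF.nil PF.nil)) (PF.cons PF.nil PF.nil))) (PF.cons (PF.cons (PF.cons (PF.leaf (nat_lit 9233438) (nat_lit 3018678) (nat_lit 29838669) (nat_lit 11889902) [(nat_lit 0), (nat_lit 0), (nat_lit 3018678), (nat_lit 7453854)]) (PF.cons PF.nil PF.nil)) PF.nil) PF.nil)) (PF.cons
 PF.nil (PF.cons PF.nil (PF.cons PF.nil (PF.cons PF.nil PF.nil))))))))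

def p15_19_2_0 : pfC (piC [(nat_lit 39633164), (nat_lit 25639500), (nat_lit 19173228), (nat_lit 12837379)] (nat_lit 6674796)) p15_19_2 (nat_lit 4) (nat_lit 0) (nat_lit 1) = true := by decide +kernel
def p15_19_2_1 : pfC (piC [(nat_lit 39633164), (nat_lit 25639500), (nat_lit 19173228), (nat_lit 12837379)] (nat_lit 6674796)) p15_19_2 (nat_lit 4) (nat_lit 1) (nat_lit 2) = true := by decide +kernel
def p15_19_2_2 : pfC (piC [(nat_lit 39633164), (nat_lit 25639500), (nat_lit 19173228), (nat_lit 12837379)] (nat_lit 6674796)) p15_19_2 (nat_lit 4) (nat_lit 2) (nat_lit 3) = true := by decide +kernel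
def p15_19_2_3 : pfC (piC [(nat_lit 39633164), (nat_lit 25639500), (nat_lit 19173228), (nat_lit 12837379)] (nat_lit 6674796)) p15_19_2 (nat_lit 4) (nat_lit 3) (nat_lit 4) = true := by decide +kernel
def p15_19_2_4 : pfC (piC [(nat_lit 39633164), (nat_lit 25639500), (nat_lit 19173228), (nat_lit 12837379)] (nat_lit 6674796)) p15_19_2 (nat_lit 4) (nat_lit 4) (nat_lit 5) = true := by decide +kernel
def p15_19_2_5 : pfC (piC [(nat_lit 39633164), (nat_lit 25639500), (nat_lit 19173228), (nat_lit 12837379)] (nat_lit 6674796)) p15_19_2 (nat_lit 4) (nat_lit 5) (nat_lit 6) = true := by decide +kernel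
def p15_19_2_6 : pfC (piC [(nat_lit 39633164), (nat_lit 25639500), (nat_lit 19173228), (nat_lit 12837379)] (nat_lit 6674796)) p15_19_2 (nat_lit 4) (nat_lit 6) (nat_lit 7) = true := by decide +kernel
def p15_19_2_7 : pfC (piC [(nat_lit 39633164), (nat_lit 25639500), (nat_lit 19173228), (nat_lit 12837379)] (nat_lit 6674796)) p15_19_2 (nat_lit 4) (nat_lit 7) (nat_lit 8) = true := by decide +kernel
def p15_19_2_8 : pfC (piC [(nat_lit 39633164), (nat_lit 25639500), (nat_lit 19173228), (nat_lit 12837379)] (nat_lit 6674796)) p15_19_2 (nat_lit 4) (nat_lit 8) (nat_lit 9) = true := by decide +kernel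
def p15_19_2_9 : pfC (piC [(nat_lit 39633164), (nat_lit 25639500), (nat_lit 19173228), (nat_lit 12837379)] (nat_lit 6674796)) p15_19_2 (nat_lit 4) (nat_lit 9) (nat_lit 10) = true := by decide +kernel
def p15_19_2_10 : pfC (piC [(nat_lit 39633164), (nat_lit 25639500), (nat_lit 19173228), (nat_lit 12837379)] (nat_lit 6674796)) p15_19_2 (nat_lit 4) (nat_lit 10) (nat_lit 11) = true := by decide +kernel
def p15_19_2_11 : pfC (piC [(nat_lit 39633164), (nat_lit 25639500), (nat_lit 19173228), (nat_lit 12837379)] (nat_lit 6674796)) p15_19_2 (nat_lit 4) (nat_lit 11) (nat_lit 12) = true := by decide +kernel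
def p15_19_2_12 : pfC (piC [(nat_lit 39633164), (nat_lit 25639500), (nat_lit 19173228), (nat_lit 12837379)] (nat_lit 6674796)) p15_19_2 (nat_lit 4) (nat_lit 12) (nat_lit 13) = true := by decide +kernel
def p15_19_2_13 : pfC (piC [(nat_lit 39633164), (nat_lit 25639500), (nat_lit 19173228), (nat_lit 12837379)] (nat_lit 6674796)) p15_19_2 (nat_lit 4) (nat_lit 13) (nat_lit 14) = true := by decide +kernel
def p15_19_2_14 : pfC (piC [(nat_lit 39633164), (nat_lit 25639500), (nat_lit 19173228), (nat_lit 12837379)] (nat_lit 6674796)) p15_19_2 (nat_lit 4) (nat_lit 14) (nat_lit 15) = true := by decide +kernel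
def p15_19_2_15 : pfC (piC [(nat_lit 39633164), (nat_lit 25639500), (nat_lit 19173228), (nat_lit 12837379)] (nat_lit 6674796)) p15_19_2 (nat_lit 4) (nat_lit 15) (nat_lit 16) = true := by decide +kernel
def p15_19_2_16 : pfC (piC [(nat_lit 39633164), (nat_lit 25639500), (nat_lit 19173228), (nat_lit 12837379)] (nat_lit 6674796)) p15_19_2 (nat_lit 4) (nat_lit 16) (nat_lit 17) = true := by decide +kernel
def p15_19_2_17 : pfC (piC [(nat_lit 39633164), (nat_lit 25639500), (nat_lit 19173228), (nat_lit 12837379)] (nat_lit 6674796)) p15_19_2 (nat_lit 4) (nat_lit 17) (nat_lit 18) = true := by decide +kernel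
def p15_19_2_18 : pfC (piC [(nat_lit 39633164), (nat_lit 25639500), (nat_lit 19173228), (nat_lit 12837379)] (nat_lit 6674796)) p15_19_2 (nat_lit 4) (nat_lit 18) (nat_lit 19) = true := by decide +kernel
def p15_19_2_19 : pfC (piC [(nat_lit 39633164), (nat_lit 25639500), (nat_lit 19173228), (nat_lit 12837379)] (nat_lit 6674796)) p15_19_2 (nat_lit 4) (nat_lit 19) (nat_lit 20) = true := by decide +kernel
def p15_19_2_20 : pfC (piC [(nat_lit 39633164), (nat_lit 25639500), (nat_lit 19173228), (nat_lit 12837379)] (nat_lit 6674796)) p15_19_2 (nat_lit 4) (nat_lit 20) (nat_lit 21) = true := by decide +kernel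
def p15_19_2_21 : pfC (piC [(nat_lit 39633164), (nat_lit 25639500), (nat_lit 19173228), (nat_lit 12837379)] (nat_lit 6674796)) p15_19_2 (nat_lit 4) (nat_lit 21) (nat_lit 22) = true := by decide +kernel
def p15_19_2_22 : pfC (piC [(nat_lit 39633164), (nat_lit 25639500), (nat_lit 19173228), (nat_lit 12837379)] (nat_lit 6674796)) p15_19_2 (nat_lit 4) (nat_lit 22) (nat_lit 23) = true := by decide +kernel
def p15_19_2_23 : pfC (piC [(nat_lit 39633164), (nat_lit 25639500), (nat_lit 19173228), (nat_lit 12837379)] (nat_lit 6674796)) p15_19_2 (nat_lit 4) (nat_lit 23) (nat_lit 24) = true := by decide +kernel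
def p15_19_2_24 : pfC (piC [(nat_lit 39633164), (nat_lit 25639500), (nat_lit 19173228), (nat_lit 12837379)] (nat_lit 6674796)) p15_19_2 (nat_lit 4) (nat_lit 24) (nat_lit 25) = true := by decide +kernel
def p15_19_2_25 : pfC (piC [(nat_lit 39633164), (nat_lit 25639500), (nat_lit 19173228), (nat_lit 12837379)] (nat_lit 6674796)) p15_19_2 (nat_lit 4) (nat_lit 25) (nat_lit 26) = true := by decide +kernel
def p15_19_2_26 : pfC (piC [(nat_lit 39633164), (nat_lit 25639500), (nat_lit 19173228), (nat_lit 12837379)] (nat_lit 6674796)) p15_19_2 (nat_lit 4) (nat_lit 26) (nat_lit 27) = true := by decide +kernel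
def p15_19_2_27 : pfC (piC [(nat_lit 39633164), (nat_lit 25639500), (nat_lit 19173228), (nat_lit 12837379)] (nat_lit 6674796)) p15_19_2 (nat_lit 4) (nat_lit 27) (nat_lit 28) = true := by decide +kernel
def p15_19_2_28 : pfC (piC [(nat_lit 39633164), (nat_lit 25639500), (nat_lit 19173228), (nat_lit 12837379)] (nat_lit 6674796)) p15_19_2 (nat_lit 4) (nat_lit 28) (nat_lit 29) = true := by decide +kernel
def p15_19_2_29 : pfC (piC [(nat_lit 39633164), (nat_lit 25639500), (nat_lit 19173228), (nat_lit 12837379)] (nat_lit 6674796)) p15_19_2 (nat_lit 4) (nat_lit 29) (nat_lit 30) = true := by decide +kernel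
def p15_19_2_30 : pfC (piC [(nat_lit 39633164), (nat_lit 25639500), (nat_lit 19173228), (nat_lit 12837379)] (nat_lit 6674796)) p15_19_2 (nat_lit 4) (nat_lit 30) (nat_lit 31) = true := by decide +kernel
def p15_19_2_31 : pfC (piC [(nat_lit 39633164), (nat_lit 25639500), (nat_lit 19173228), (nat_lit 12837379)] (nat_lit 6674796)) p15_19_2 (nat_lit 4) (nat_lit 31) (nat_lit 32) = true := by decide +kernel
def p15_19_2_32 : pfC (piC [(nat_lit 39633164), (nat_lit 25639500), (nat_lit 19173228), (nat_lit 12837379)] (nat_lit 6674796)) p15_19_2 (nat_lit 4) (nat_lit 32) (nat_lit 33) = true := by decide +kernel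
def p15_19_2_33 : pfC (piC [(nat_lit 39633164), (nat_lit 25639500), (nat_lit 19173228), (nat_lit 12837379)] (nat_lit 6674796)) p15_19_2 (nat_lit 4) (nat_lit 33) (nat_lit 34) = true := by decide +kernel
def p15_19_2_34 : pfC (piC [(nat_lit 39633164), (nat_lit 25639500), (nat_lit 19173228), (nat_lit 12837379)] (nat_lit 6674796)) p15_19_2 (nat_lit 4) (nat_lit 34) (nat_lit 35) = true := by decide +kernel
def p15_19_2_35 : pfC (piC [(nat_lit 39633164), (nat_lit 25639500), (nat_lit 19173228), (nat_lit 12837379)] (nat_lit 6674796)) p15_19_2 (nat_lit 4) (nat_lit 35) (nat_lit 36) = true := by decide +kernel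
def p15_19_2_36 : pfC (piC [(nat_lit 39633164), (nat_lit 25639500), (nat_lit 19173228), (nat_lit 12837379)] (nat_lit 6674796)) p15_19_2 (nat_lit 4) (nat_lit 36) (nat_lit 37) = true := by decide +kernel
def p15_19_2_37 : pfC (piC [(nat_lit 39633164), (nat_lit 25639500), (nat_lit 19173228), (nat_lit 12837379)] (nat_lit 6674796)) p15_19_2 (nat_lit 4) (nat_lit 37) (nat_lit 38) = true := by decide +kernel
def p15_19_2_38 : pfC (piC [(nat_lit 39633164), (nat_lit 25639500), (nat_lit 19173228), (nat_lit 12837379)] (nat_lit 6674796)) p15_19_2 (nat_lit 4) (nat_lit 38) (nat_lit 39) = true := by decide +kernel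
def p15_19_2_39 : pfC (piC [(nat_lit 39633164), (nat_lit 25639500), (nat_lit 19173228), (nat_lit 12837379)] (nat_lit 6674796)) p15_19_2 (nat_lit 4) (nat_lit 39) (nat_lit 40) = true := by decide +kernel
def p15_19_2_40 : pfC (piC [(nat_lit 39633164), (nat_lit 25639500), (nat_lit 19173228), (nat_lit 12837379)] (nat_lit 6674796)) p15_19_2 (nat_lit 4) (nat_lit 40) (nat_lit 41) = true := by decide +kernel
def p15_19_2_41 : pfC (piC [(nat_lit 39633164), (nat_lit 25639500), (nat_lit 19173228), (nat_lit 12837379)] (nat_lit 6674796)) p15_19_2 (nat_lit 4) (nat_lit 41) (nat_lit 42) = true := by decide +kernel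
def p15_19_2_42 : pfC (piC [(nat_lit 39633164), (nat_lit 25639500), (nat_lit 19173228), (nat_lit 12837379)] (nat_lit 6674796)) p15_19_2 (nat_lit 4) (nat_lit 42) (nat_lit 43) = true := by decide +kernel
def p15_19_2_43 : pfC (piC [(nat_lit 39633164), (nat_lit 25639500), (nat_lit 19173228), (nat_lit 12837379)] (nat_lit 6674796)) p15_19_2 (nat_lit 4) (nat_lit 43) (nat_lit 44) = true := by decide +kernel
def p15_19_2_44 : pfC (piC [(nat_lit 39633164), (nat_lit 25639500), (nat_lit 19173228), (nat_lit 12837379)] (nat_lit 6674796)) p15_19_2 (nat_lit 4) (nat_lit 44) (nat_lit 45) = true := by decide +kernel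
def p15_19_2_45 : pfC (piC [(nat_lit 39633164), (nat_lit 25639500), (nat_lit 19173228), (nat_lit 12837379)] (nat_lit 6674796)) p15_19_2 (nat_lit 4) (nat_lit 45) (nat_lit 46) = true := by decide +kernel
def p15_19_2_46 : pfC (piC [(nat_lit 39633164), (nat_lit 25639500), (nat_lit 19173228), (nat_lit 12837379)] (nat_lit 6674796)) p15_19_2 (nat_lit 4) (nat_lit 46) (nat_lit 47) = true := by decide +kernel
def p15_19_2_47 : pfC (piC [(nat_lit 39633164), (nat_lit 25639500), (nat_lit 19173228), (nat_lit 12837379)] (nat_lit 6674796)) p15_19_2 (nat_lit 4) (nat_lit 47) (nat_lit 48) = true := by decide +kernel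
def p15_19_2_48 : pfC (piC [(nat_lit 39633164), (nat_lit 25639500), (nat_lit 19173228), (nat_lit 12837379)] (nat_lit 6674796)) p15_19_2 (nat_lit 4) (nat_lit 48) (nat_lit 49) = true := by decide +kernel
def p15_19_2_49 : pfC (piC [(nat_lit 39633164), (nat_lit 25639500), (nat_lit 19173228), (nat_lit 12837379)] (nat_lit 6674796)) p15_19_2 (nat_lit 4) (nat_lit 49) (nat_lit 50) = true := by decide +kernel
def p15_19_2_50 : pfC (piC [(nat_lit 39633164), (nat_lit 25639500), (nat_lit 19173228), (nat_lit 12837379)] (nat_lit 6674796)) p15_19_2 (nat_lit 4) (nat_lit 50) (nat_lit 51) = true := by decide +kernel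
def p15_19_2_51 : pfC (piC [(nat_lit 39633164), (nat_lit 25639500), (nat_lit 19173228), (nat_lit 12837379)] (nat_lit 6674796)) p15_19_2 (nat_lit 4) (nat_lit 51) (nat_lit 52) = true := by decide +kernel
def p15_19_2_52 : pfC (piC [(nat_lit 39633164), (nat_lit 25639500), (nat_lit 19173228), (nat_lit 12837379)] (nat_lit 6674796)) p15_19_2 (nat_lit 4) (nat_lit 52) (nat_lit 53) = true := by decide +kernel
def p15_19_2_53 : pfC (piC [(nat_lit 39633164), (nat_lit 25639500), (nat_lit 19173228), (nat_lit 12837379)] (nat_lit 6674796)) p15_19_2 (nat_lit 4) (nat_lit 53) (nat_lit 54) = true := by decide +kernel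
def p15_19_2_54 : pfC (piC [(nat_lit 39633164), (nat_lit 25639500), (nat_lit 19173228), (nat_lit 12837379)] (nat_lit 6674796)) p15_19_2 (nat_lit 4) (nat_lit 54) (nat_lit 55) = true := by decide +kernel
def p15_19_2_55 : pfC (piC [(nat_lit 39633164), (nat_lit 25639500), (nat_lit 19173228), (nat_lit 12837379)] (nat_lit 6674796)) p15_19_2 (nat_lit 4) (nat_lit 55) (nat_lit 56) = true := by decide +kernel
def p15_19_2_56 : pfC (piC [(nat_lit 39633164), (nat_lit 25639500), (nat_lit 19173228), (nat_lit 12837379)] (nat_lit 6674796)) p15_19_2 (nat_lit 4) (nat_lit 56) (nat_lit 57) = true := by decide +kernel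
def p15_19_2_57 : pfC (piC [(nat_lit 39633164), (nat_lit 25639500), (nat_lit 19173228), (nat_lit 12837379)] (nat_lit 6674796)) p15_19_2 (nat_lit 4) (nat_lit 57) (nat_lit 58) = true := by decide +kernel
def p15_19_2_58 : pfC (piC [(nat_lit 39633164), (nat_lit 25639500), (nat_lit 19173228), (nat_lit 12837379)] (nat_lit 6674796)) p15_19_2 (nat_lit 4) (nat_lit 58) (nat_lit 59) = true := by decide +kernel
def p15_19_2_59 : pfC (piC [(nat_lit 39633164), (nat_lit 25639500), (nat_lit 19173228), (nat_lit 12837379)] (nat_lit 6674796)) p15_19_2 (nat_lit 4) (nat_lit 59) (nat_lit 60) = true := by decide +kernel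
def p15_19_2_60 : pfC (piC [(nat_lit 39633164), (nat_lit 25639500), (nat_lit 19173228), (nat_lit 12837379)] (nat_lit 6674796)) p15_19_2 (nat_lit 4) (nat_lit 60) (nat_lit 61) = true := by decide +kernel
def p15_19_2_61 : pfC (piC [(nat_lit 39633164), (nat_lit 25639500), (nat_lit 19173228), (nat_lit 12837379)] (nat_lit 6674796)) p15_19_2 (nat_lit 4) (nat_lit 61) (nat_lit 62) = true := by decide +kernel
def p15_19_2_62 : pfC (piC [(nat_lit 39633164), (nat_lit 25639500), (nat_lit 19173228), (nat_lit 12837379)] (nat_lit 6674796)) p15_19_2 (nat_lit 4) (nat_lit 62) (nat_lit 63) = true := by decide +kernel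
def p15_19_2_63 : pfC (piC [(nat_lit 39633164), (nat_lit 25639500), (nat_lit 19173228), (nat_lit 12837379)] (nat_lit 6674796)) p15_19_2 (nat_lit 4) (nat_lit 63) (nat_lit 64) = true := by decide +kernel
def p15_19_2_64 : pfC (piC [(nat_lit 39633164), (nat_lit 25639500), (nat_lit 19173228), (nat_lit 12837379)] (nat_lit 6674796)) p15_19_2 (nat_lit 4) (nat_lit 64) (nat_lit 65) = true := by decide +kernel
def p15_19_2_65 : pfC (piC [(nat_lit 39633164), (nat_lit 25639500), (nat_lit 19173228), (nat_lit 12837379)] (nat_lit 6674796)) p15_19_2 (nat_lit 4) (nat_lit 65) (nat_lit 66) = true := by decide +kernel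
def p15_19_2_66 : pfC (piC [(nat_lit 39633164), (nat_lit 25639500), (nat_lit 19173228), (nat_lit 12837379)] (nat_lit 6674796)) p15_19_2 (nat_lit 4) (nat_lit 66) (nat_lit 67) = true := by decide +kernel
def p15_19_2_67 : pfC (piC [(nat_lit 39633164), (nat_lit 25639500), (nat_lit 19173228), (nat_lit 12837379)] (nat_lit 6674796)) p15_19_2 (nat_lit 4) (nat_lit 67) (nat_lit 68) = true := by decide +kernel
def p15_19_2_68 : pfC (piC [(nat_lit 39633164), (nat_lit 25639500), (nat_lit 19173228), (nat_lit 12837379)] (nat_lit 6674796)) p15_19_2 (nat_lit 4) (nat_lit 68) (nat_lit 69) = true := by decide +kernel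
def p15_19_2_69 : pfC (piC [(nat_lit 39633164), (nat_lit 25639500), (nat_lit 19173228), (nat_lit 12837379)] (nat_lit 6674796)) p15_19_2 (nat_lit 4) (nat_lit 69) (nat_lit 70) = true := by decide +kernel
def p15_19_2_70 : pfC (piC [(nat_lit 39633164), (nat_lit 25639500), (nat_lit 19173228), (nat_lit 12837379)] (nat_lit 6674796)) p15_19_2 (nat_lit 4) (nat_lit 70) (nat_lit 71) = true := by decide +kernel
def p15_19_2_71 : pfC (piC [(nat_lit 39633164), (nat_lit 25639500), (nat_lit 19173228), (nat_lit 12837379)] (nat_lit 6674796)) p15_19_2 (nat_lit 4) (nat_lit 71) (nat_lit 72) = true := by decide +kernel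
def p15_19_2_72 : pfC (piC [(nat_lit 39633164), (nat_lit 25639500), (nat_lit 19173228), (nat_lit 12837379)] (nat_lit 6674796)) p15_19_2 (nat_lit 4) (nat_lit 72) (nat_lit 73) = true := by decide +kernel
def p15_19_2_73 : pfC (piC [(nat_lit 39633164), (nat_lit 25639500), (nat_lit 19173228), (nat_lit 12837379)] (nat_lit 6674796)) p15_19_2 (nat_lit 4) (nat_lit 73) (nat_lit 74) = true := by decide +kernel
def p15_19_2_74 : pfC (piC [(nat_lit 39633164), (nat_lit 25639500), (nat_lit 19173228), (nat_lit 12837379)] (nat_lit 6674796)) p15_19_2 (nat_lit 4) (nat_lit 74) (nat_lit 75) = true := by decide +kernel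
def p15_19_2_75 : pfC (piC [(nat_lit 39633164), (nat_lit 25639500), (nat_lit 19173228), (nat_lit 12837379)] (nat_lit 6674796)) p15_19_2 (nat_lit 4) (nat_lit 75) (nat_lit 76) = true := by decide +kernel
def p15_19_2_76 : pfC (piC [(nat_lit 39633164), (nat_lit 25639500), (nat_lit 19173228), (nat_lit 12837379)] (nat_lit 6674796)) p15_19_2 (nat_lit 4) (nat_lit 76) (nat_lit 77) = true := by decide +kernel
def p15_19_2_77 : pfC (piC [(nat_lit 39633164), (nat_lit 25639500), (nat_lit 19173228), (nat_lit 12837379)] (nat_lit 6674796)) p15_19_2 (nat_lit 4) (nat_lit 77) (nat_lit 78) = true := by decide +kernel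
def p15_19_2_78 : pfC (piC [(nat_lit 39633164), (nat_lit 25639500), (nat_lit 19173228), (nat_lit 12837379)] (nat_lit 6674796)) p15_19_2 (nat_lit 4) (nat_lit 78) (nat_lit 79) = true := by decide +kernel
def p15_19_2_79 : pfC (piC [(nat_lit 39633164), (nat_lit 25639500), (nat_lit 19173228), (nat_lit 12837379)] (nat_lit 6674796)) p15_19_2 (nat_lit 4) (nat_lit 79) (nat_lit 80) = true := by decide +kernel
def p15_19_2_80 : pfC (piC [(nat_lit 39633164), (nat_lit 25639500), (nat_lit 19173228), (nat_lit 12837379)] (nat_lit 6674796)) p15_19_2 (nat_lit 4) (nat_lit 80) (nat_lit 81) = true := by decide +kernel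
def p15_19_2_81 : pfC (piC [(nat_lit 39633164), (nat_lit 25639500), (nat_lit 19173228), (nat_lit 12837379)] (nat_lit 6674796)) p15_19_2 (nat_lit 4) (nat_lit 81) (nat_lit 82) = true := by decide +kernel
def p15_19_2_82 : pfC (piC [(nat_lit 39633164), (nat_lit 25639500), (nat_lit 19173228), (nat_lit 12837379)] (nat_lit 6674796)) p15_19_2 (nat_lit 4) (nat_lit 82) (nat_lit 83) = true := by decide +kernel
def p15_19_2_83 : pfC (piC [(nat_lit 39633164), (nat_lit 25639500), (nat_lit 19173228), (nat_lit 12837379)] (nat_lit 6674796)) p15_19_2 (nat_lit 4) (nat_lit 83) (nat_lit 84) = true := by decide +kernel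
def p15_19_2_84 : pfC (piC [(nat_lit 39633164), (nat_lit 25639500), (nat_lit 19173228), (nat_lit 12837379)] (nat_lit 6674796)) p15_19_2 (nat_lit 4) (nat_lit 84) (nat_lit 85) = true := by decide +kernel
def p15_19_2_85 : pfC (piC [(nat_lit 39633164), (nat_lit 25639500), (nat_lit 19173228), (nat_lit 12837379)] (nat_lit 6674796)) p15_19_2 (nat_lit 4) (nat_lit 85) (nat_lit 86) = true := by decide +kernel
def p15_19_2_86 : pfC (piC [(nat_lit 39633164), (nat_lit 25639500), (nat_lit 19173228), (nat_lit 12837379)] (nat_lit 6674796)) p15_19_2 (nat_lit 4) (nat_lit 86) (nat_lit 87) = true := by decide +kernel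
def p15_19_2_87 : pfC (piC [(nat_lit 39633164), (nat_lit 25639500), (nat_lit 19173228), (nat_lit 12837379)] (nat_lit 6674796)) p15_19_2 (nat_lit 4) (nat_lit 87) (nat_lit 88) = true := by decide +kernel
def p15_19_2_88 : pfC (piC [(nat_lit 39633164), (nat_lit 25639500), (nat_lit 19173228), (nat_lit 12837379)] (nat_lit 6674796)) p15_19_2 (nat_lit 4) (nat_lit 88) (nat_lit 89) = true := by decide +kernel
def p15_19_2_89 : pfC (piC [(nat_lit 39633164), (nat_lit 25639500), (nat_lit 19173228), (nat_lit 12837379)] (nat_lit 6674796)) p15_19_2 (nat_lit 4) (nat_lit 89) (nat_lit 90) = true := by decide +kernel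
def p15_19_2_90 : pfC (piC [(nat_lit 39633164), (nat_lit 25639500), (nat_lit 19173228), (nat_lit 12837379)] (nat_lit 6674796)) p15_19_2 (nat_lit 4) (nat_lit 90) (nat_lit 91) = true := by decide +kernel
def p15_19_2_91 : pfC (piC [(nat_lit 39633164), (nat_lit 25639500), (nat_lit 19173228), (nat_lit 12837379)] (nat_lit 6674796)) p15_19_2 (nat_lit 4) (nat_lit 91) (nat_lit 92) = true := by decide +kernel
def p15_19_2_92 : pfC (piC [(nat_lit 39633164), (nat_lit 25639500), (nat_lit 19173228), (nat_lit 12837379)] (nat_lit 6674796)) p15_19_2 (nat_lit 4) (nat_lit 92) (nat_lit 93) = true := by decide +kernel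
def p15_19_2_93 : pfC (piC [(nat_lit 39633164), (nat_lit 25639500), (nat_lit 19173228), (nat_lit 12837379)] (nat_lit 6674796)) p15_19_2 (nat_lit 4) (nat_lit 93) (nat_lit 94) = true := by decide +kernel
def p15_19_2_94 : pfC (piC [(nat_lit 39633164), (nat_lit 25639500), (nat_lit 19173228), (nat_lit 12837379)] (nat_lit 6674796)) p15_19_2 (nat_lit 4) (nat_lit 94) (nat_lit 95) = true := by decide +kernel
def p15_19_2_95 : pfC (piC [(nat_lit 39633164), (nat_lit 25639500), (nat_lit 19173228), (nat_lit 12837379)] (nat_lit 6674796)) p15_19_2 (nat_lit 4) (nat_lit 95) (nat_lit 96) = true := by decide +kernel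
def p15_19_2_96 : pfC (piC [(nat_lit 39633164), (nat_lit 25639500), (nat_lit 19173228), (nat_lit 12837379)] (nat_lit 6674796)) p15_19_2 (nat_lit 4) (nat_lit 96) (nat_lit 97) = true := by decide +kernel
def p15_19_2_97 : pfC (piC [(nat_lit 39633164), (nat_lit 25639500), (nat_lit 19173228), (nat_lit 12837379)] (nat_lit 6674796)) p15_19_2 (nat_lit 4) (nat_lit 97) (nat_lit 98) = true := by decide +kernel
def p15_19_2_98 : pfC (piC [(nat_lit 39633164), (nat_lit 25639500), (nat_lit 19173228), (nat_lit 12837379)] (nat_lit 6674796)) p15_19_2 (nat_lit 4) (nat_lit 98) (nat_lit 99) = true := by decide +kernel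
def p15_19_2_99 : pfC (piC [(nat_lit 39633164), (nat_lit 25639500), (nat_lit 19173228), (nat_lit 12837379)] (nat_lit 6674796)) p15_19_2 (nat_lit 4) (nat_lit 99) (nat_lit 100) = true := by decide +kernel
def p15_19_2_100 : pfC (piC [(nat_lit 39633164), (nat_lit 25639500), (nat_lit 19173228), (nat_lit 12837379)] (nat_lit 6674796)) p15_19_2 (nat_lit 4) (nat_lit 100) (nat_lit 101) = true := by decide +kernel
def p15_19_2_101 : pfC (piC [(nat_lit 39633164), (nat_lit 25639500), (nat_lit 19173228), (nat_lit 12837379)] (nat_lit 6674796)) p15_19_2 (nat_lit 4) (nat_lit 101) (nat_lit 102) = true := by decide +kernel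
def p15_19_2_102 : pfC (piC [(nat_lit 39633164), (nat_lit 25639500), (nat_lit 19173228), (nat_lit 12837379)] (nat_lit 6674796)) p15_19_2 (nat_lit 4) (nat_lit 102) (nat_lit 103) = true := by decide +kernel
def p15_19_2_103 : pfC (piC [(nat_lit 39633164), (nat_lit 25639500), (nat_lit 19173228), (nat_lit 12837379)] (nat_lit 6674796)) p15_19_2 (nat_lit 4) (nat_lit 103) (nat_lit 104) = true := by decide +kernel
def p15_19_2_104 : pfC (piC [(nat_lit 39633164), (nat_lit 25639500), (nat_lit 19173228), (nat_lit 12837379)] (nat_lit 6674796)) p15_19_2 (nat_lit 4) (nat_lit 104) (nat_lit 105) = true := by decide +kernel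
def p15_19_2_105 : pfC (piC [(nat_lit 39633164), (nat_lit 25639500), (nat_lit 19173228), (nat_lit 12837379)] (nat_lit 6674796)) p15_19_2 (nat_lit 4) (nat_lit 105) (nat_lit 106) = true := by decide +kernel
def p15_19_2_106 : pfC (piC [(nat_lit 39633164), (nat_lit 25639500), (nat_lit 19173228), (nat_lit 12837379)] (nat_lit 6674796)) p15_19_2 (nat_lit 4) (nat_lit 106) (nat_lit 107) = true := by decide +kernel
def p15_19_2_107 : pfC (piC [(nat_lit 39633164), (nat_lit 25639500), (nat_lit 19173228), (nat_lit 12837379)] (nat_lit 6674796)) p15_19_2 (nat_lit 4) (nat_lit 107) (nat_lit 108) = true := by decide +kernel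
def p15_19_2_108 : pfC (piC [(nat_lit 39633164), (nat_lit 25639500), (nat_lit 19173228), (nat_lit 12837379)] (nat_lit 6674796)) p15_19_2 (nat_lit 4) (nat_lit 108) (nat_lit 109) = true := by decide +kernel
def p15_19_2_109 : pfC (piC [(nat_lit 39633164), (nat_lit 25639500), (nat_lit 19173228), (nat_lit 12837379)] (nat_lit 6674796)) p15_19_2 (nat_lit 4) (nat_lit 109) (nat_lit 110) = true := by decide +kernel
def p15_19_2_110 : pfC (piC [(nat_lit 39633164), (nat_lit 25639500), (nat_lit 19173228), (nat_lit 12837379)] (nat_lit 6674796)) p15_19_2 (nat_lit 4) (nat_lit 110) (nat_lit 111) = true := by decide +kernel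
def p15_19_2_111 : pfC (piC [(nat_lit 39633164), (nat_lit 25639500), (nat_lit 19173228), (nat_lit 12837379)] (nat_lit 6674796)) p15_19_2 (nat_lit 4) (nat_lit 111) (nat_lit 112) = true := by decide +kernel
def p15_19_2_112 : pfC (piC [(nat_lit 39633164), (nat_lit 25639500), (nat_lit 19173228), (nat_lit 12837379)] (nat_lit 6674796)) p15_19_2 (nat_lit 4) (nat_lit 112) (nat_lit 113) = true := by decide +kernel
def p15_19_2_113 : pfC (piC [(nat_lit 39633164), (nat_lit 25639500), (nat_lit 19173228), (nat_lit 12837379)] (nat_lit 6674796)) p15_19_2 (nat_lit 4) (nat_lit 113) (nat_lit 114) = true := by decide +kernel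
def p15_19_2_114 : pfC (piC [(nat_lit 39633164), (nat_lit 25639500), (nat_lit 19173228), (nat_lit 12837379)] (nat_lit 6674796)) p15_19_2 (nat_lit 4) (nat_lit 114) (nat_lit 115) = true := by decide +kernel
def p15_19_2_115 : pfC (piC [(nat_lit 39633164), (nat_lit 25639500), (nat_lit 19173228), (nat_lit 12837379)] (nat_lit 6674796)) p15_19_2 (nat_lit 4) (nat_lit 115) (nat_lit 116) = true := by decide +kernel
def p15_19_2_116 : pfC (piC [(nat_lit 39633164), (nat_lit 25639500), (nat_lit 19173228), (nat_lit 12837379)] (nat_lit 6674796)) p15_19_2 (nat_lit 4) (nat_lit 116) (nat_lit 117) = true := by decide +kernel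
def p15_19_2_117 : pfC (piC [(nat_lit 39633164), (nat_lit 25639500), (nat_lit 19173228), (nat_lit 12837379)] (nat_lit 6674796)) p15_19_2 (nat_lit 4) (nat_lit 117) (nat_lit 118) = true := by decide +kernel
def p15_19_2_118 : pfC (piC [(nat_lit 39633164), (nat_lit 25639500), (nat_lit 19173228), (nat_lit 12837379)] (nat_lit 6674796)) p15_19_2 (nat_lit 4) (nat_lit 118) (nat_lit 119) = true := by decide +kernel
def p15_19_2_119 : pfC (piC [(nat_lit 39633164), (nat_lit 25639500), (nat_lit 19173228), (nat_lit 12837379)] (nat_lit 6674796)) p15_19_2 (nat_lit 4) (nat_lit 119) (nat_lit 120) = true := by decide +kernel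
def p15_19_2_120 : pfC (piC [(nat_lit 39633164), (nat_lit 25639500), (nat_lit 19173228), (nat_lit 12837379)] (nat_lit 6674796)) p15_19_2 (nat_lit 4) (nat_lit 120) (nat_lit 121) = true := by decide +kernel
def p15_19_2_121 : pfC (piC [(nat_lit 39633164), (nat_lit 25639500), (nat_lit 19173228), (nat_lit 12837379)] (nat_lit 6674796)) p15_19_2 (nat_lit 4) (nat_lit 121) (nat_lit 122) = true := by decide +kernel
def p15_19_2_122 : pfC (piC [(nat_lit 39633164), (nat_lit 25639500), (nat_lit 19173228), (nat_lit 12837379)] (nat_lit 6674796)) p15_19_2 (nat_lit 4) (nat_lit 122) (nat_lit 123) = true := by decide +kernel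
def p15_19_2_123 : pfC (piC [(nat_lit 39633164), (nat_lit 25639500), (nat_lit 19173228), (nat_lit 12837379)] (nat_lit 6674796)) p15_19_2 (nat_lit 4) (nat_lit 123) (nat_lit 124) = true := by decide +kernel
def p15_19_2_124 : pfC (piC [(nat_lit 39633164), (nat_lit 25639500), (nat_lit 19173228), (nat_lit 12837379)] (nat_lit 6674796)) p15_19_2 (nat_lit 4) (nat_lit 124) (nat_lit 125) = true := by decide +kernel
def p15_19_2_125 : pfC (piC [(nat_lit 39633164), (nat_lit 25639500), (nat_lit 19173228), (nat_lit 12837379)] (nat_lit 6674796)) p15_19_2 (nat_lit 4) (nat_lit 125) (nat_lit 126) = true := by decide +kernel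
def p15_19_2_126 : pfC (piC [(nat_lit 39633164), (nat_lit 25639500), (nat_lit 19173228), (nat_lit 12837379)] (nat_lit 6674796)) p15_19_2 (nat_lit 4) (nat_lit 126) (nat_lit 127) = true := by decide +kernel
def p15_19_2_127 : pfC (piC [(nat_lit 39633164), (nat_lit 25639500), (nat_lit 19173228), (nat_lit 12837379)] (nat_lit 6674796)) p15_19_2 (nat_lit 4) (nat_lit 127) (nat_lit 128) = true := by decide +kernel
def p15_19_2_128 : pfC (piC [(nat_lit 39633164), (nat_lit 25639500), (nat_lit 19173228), (nat_lit 12837379)] (nat_lit 6674796)) p15_19_2 (nat_lit 4) (nat_lit 128) (nat_lit 129) = true := by decide +kernel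
def p15_19_2_129 : pfC (piC [(nat_lit 39633164), (nat_lit 25639500), (nat_lit 19173228), (nat_lit 12837379)] (nat_lit 6674796)) p15_19_2 (nat_lit 4) (nat_lit 129) (nat_lit 130) = true := by decide +kernel
def p15_19_2_130 : pfC (piC [(nat_lit 39633164), (nat_lit 25639500), (nat_lit 19173228), (nat_lit 12837379)] (nat_lit 6674796)) p15_19_2 (nat_lit 4) (nat_lit 130) (nat_lit 131) = true := by decide +kernel
def p15_19_2_131 : pfC (piC [(nat_lit 39633164), (nat_lit 25639500), (nat_lit 19173228), (nat_lit 12837379)] (nat_lit 6674796)) p15_19_2 (nat_lit 4) (nat_lit 131) (nat_lit 132) = true := by decide +kernel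
def p15_19_2_132 : pfC (piC [(nat_lit 39633164), (nat_lit 25639500), (nat_lit 19173228), (nat_lit 12837379)] (nat_lit 6674796)) p15_19_2 (nat_lit 4) (nat_lit 132) (nat_lit 133) = true := by decide +kernel
def p15_19_2_133 : pfC (piC [(nat_lit 39633164), (nat_lit 25639500), (nat_lit 19173228), (nat_lit 12837379)] (nat_lit 6674796)) p15_19_2 (nat_lit 4) (nat_lit 133) (nat_lit 134) = true := by decide +kernel
def p15_19_2_134 : pfC (piC [(nat_lit 39633164), (nat_lit 25639500), (nat_lit 19173228), (nat_lit 12837379)] (nat_lit 6674796)) p15_19_2 (nat_lit 4) (nat_lit 134) (nat_lit 135) = true := by decide +kernel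
def p15_19_2_135 : pfC (piC [(nat_lit 39633164), (nat_lit 25639500), (nat_lit 19173228), (nat_lit 12837379)] (nat_lit 6674796)) p15_19_2 (nat_lit 4) (nat_lit 135) (nat_lit 136) = true := by decide +kernel
def p15_19_2_136 : pfC (piC [(nat_lit 39633164), (nat_lit 25639500), (nat_lit 19173228), (nat_lit 12837379)] (nat_lit 6674796)) p15_19_2 (nat_lit 4) (nat_lit 136) (nat_lit 137) = true := by decide +kernel
theorem p15_19_2_T : PfS (PiF n15_19.reverse (nat_lit 6674796)) p15_19_2 (nat_lit 4) [] 0 :=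
  pftab_of (los := [(nat_lit 39633164), (nat_lit 25639500), (nat_lit 19173228), (nat_lit 12837379)]) (by decide +kernel) (hi := (nat_lit 137)) (PfP.trans (PfP.trans (PfP.trans (PfP.trans (PfP.trans (PfP.trans (PfP.trans (PfP.trans (PfP.trans (PfP.trans (PfP.trans (PfP.trans (PfP.trans (PfP.trans (PfP.trans (PfP.trans (PfP.trans (PfP.trans (PfP.trans (PfP.trans (PfP.trans (PfP.trans (PfP.trans (PfP.trans (PfP.trans (PfP.trans (PfP.trans (PfP.trans (PfP.trans (PfP.trans (PfP.trans (PfP.trans (PfP.trans (PfP.trans (PfP.trans (PfP.trans (PfP.trans (PfP.trans (PfP.trans (PfP.trans (PfP.trans (PfP.trans (PfP.trans (PfP.trans (PfP.trans (PfP.trans (PfP.trans (PfP.trans (PfP.trans (PfP.trans (PfP.trans (PfP.trans (PfP.trans (PfP.trans (PfP.trans (PfP.trans (PfP.trans (PfP.trans (PfP.trans (PfP.trans (PfP.trans (PfP.trans (PfP.trans (PfP.trans (PfP.trans (PfP.trans (PfP.trans (PfP.trans (PfP.trans (PfP.trans (PfP.trans (PfP.trans (PfP.trans (PfP.trans (PfP.trans (PfP.trans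 (PfP.trans (PfP.trans (PfP.trans (PfP.trans (PfP.trans (PfP.trans (PfP.trans (PfP.trans (PfP.trans (PfP.trans (PfP.trans (PfP.trans (PfP.trans (PfP.trans (PfP.trans (PfP.trans (PfP.trans (PfP.trans (PfP.trans (PfP.trans (PfP.trans (PfP.trans (PfP.trans (PfP.trans (PfP.trans (PfP.trans (PfP.trans (PfP.trans (PfP.trans (PfP.trans (PfP.trans (PfP.trans (PfP.trans
 (PfP.trans (PfP.trans (PfP.trans (PfP.trans (PfP.trans (PfP.trans (PfP.trans (PfP.trans (PfP.trans (PfP.trans (PfP.trans (PfP.trans (PfP.trans (PfP.trans (PfP.trans (PfP.trans (PfP.trans (PfP.trans (PfP.trans (PfP.trans (PfP.trans (PfP.trans (PfP.trans (PfP.trans (PfP.trans (PfP.trans (PfP.trans (pfC_sound p15_19_2_0) (pfC_sound p15_19_2_1)) (pfC_sound p15_19_2_2)) (pfC_sound p15_19_2_3)) (pfC_sound p15_19_2_4)) (pfC_sound p15_19_2_5)) (pfC_sound p15_19_2_6)) (pfC_sound p15_19_2_7)) (pfC_sound p15_19_2_8)) (pfC_sound p15_19_2_9)) (pfC_sound p15_19_2_10)) (pfC_sound p15_19_2_11)) (pfC_sound p15_19_2_12)) (pfC_sound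 p15_19_2_13)) (pfC_sound p15_19_2_14)) (pfC_sound p15_19_2_15)) (pfC_sound p15_19_2_16)) (pfC_sound p15_19_2_17)) (pfC_sound p15_19_2_18)) (pfC_sound p15_19_2_19)) (pfC_sound p15_19_2_20)) (pfC_sound p15_19_2_21)) (pfC_sound p15_19_2_22)) (pfC_sound p15_19_2_23)) (pfC_sound p15_19_2_24)) (pfC_sound p15_19_2_25)) (pfC_sound p15_19_2_26)) (pfC_sound p15_19_2_27)) (pfC_sound p15_19_2_28)) (pfC_sound p15_19_2_29)) (pfC_sound p15_19_2_30)) (pfC_sound p15_19_2_31)) (pfC_sound p15_19_2_32)) (pfC_sound p15_19_2_33)) (pfC_sound p15_19_2_34)) (pfC_sound p15_19_2_35)) (pfC_sound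
 p15_19_2_36)) (pfC_sound p15_19_2_37)) (pfC_sound p15_19_2_38)) (pfC_sound p15_19_2_39)) (pfC_sound p15_19_2_40)) (pfC_sound p15_19_2_41)) (pfC_sound p15_19_2_42)) (pfC_sound p15_19_2_43)) (pfC_sound p15_19_2_44)) (pfC_sound p15_19_2_45)) (pfC_sound p15_19_2_46)) (pfC_sound p15_19_2_47)) (pfC_sound p15_19_2_48)) (pfC_sound p15_19_2_49)) (pfC_sound p15_19_2_50)) (pfC_sound p15_19_2_51)) (pfC_sound p15_19_2_52)) (pfC_sound p15_19_2_53)) (pfC_sound p15_19_2_54)) (pfC_sound p15_19_2_55)) (pfC_sound p15_19_2_56)) (pfC_sound p15_19_2_57)) (pfC_sound p15_19_2_58)) (pfC_sound p15_19_2_59)) (pfC_sound p15_19_2_60)) (pfC_sound p15_19_2_61)) (pfC_sound p15_19_2_62)) (pfC_sound p15_19_2_63)) (pfC_sound p15_19_2_64)) (pfC_sound p15_19_2_65)) (pfC_sound p15_19_2_66)) (pfC_sound p15_19_2_67)) (pfC_sound p15_19_2_68)) (pfC_sound p15_19_2_69)) (pfC_sound p15_19_2_70)) (pfC_sound p15_19_2_71)) (pfC_sound p15_19_2_72)) (pfC_sound p15_19_2_73)) (pfC_sound p15_19_2_74)) (pfC_sound p15_19_2_75))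 (pfC_sound p15_19_2_76)) (pfC_sound p15_19_2_77)) (pfC_sound p15_19_2_78)) (pfC_sound p15_19_2_79)) (pfC_sound p15_19_2_80)) (pfC_sound p15_19_2_81)) (pfC_sound p15_19_2_82)) (pfC_sound p15_19_2_83)) (pfC_sound
 p15_19_2_84)) (pfC_sound p15_19_2_85)) (pfC_sound p15_19_2_86)) (pfC_sound p15_19_2_87)) (pfC_sound p15_19_2_88)) (pfC_sound p15_19_2_89)) (pfC_sound p15_19_2_90)) (pfC_sound p15_19_2_91)) (pfC_sound p15_19_2_92)) (pfC_sound p15_19_2_93)) (pfC_sound p15_19_2_94)) (pfC_sound p15_19_2_95)) (pfC_sound p15_19_2_96)) (pfC_sound p15_19_2_97)) (pfC_sound p15_19_2_98)) (pfC_sound p15_19_2_99)) (pfC_sound p15_19_2_100)) (pfC_sound p15_19_2_101)) (pfC_sound p15_19_2_102)) (pfC_sound p15_19_2_103)) (pfC_sound p15_19_2_104)) (pfC_sound p15_19_2_105)) (pfC_sound p15_19_2_106)) (pfC_sound p15_19_2_107)) (pfC_sound p15_19_2_108)) (pfC_sound p15_19_2_109)) (pfC_sound p15_19_2_110)) (pfC_sound p15_19_2_111)) (pfC_sound p15_19_2_112)) (pfC_sound p15_19_2_113)) (pfC_sound p15_19_2_114))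 (pfC_sound p15_19_2_115)) (pfC_sound p15_19_2_116)) (pfC_sound p15_19_2_117)) (pfC_sound p15_19_2_118)) (pfC_sound p15_19_2_119)) (pfC_sound p15_19_2_120)) (pfC_sound p15_19_2_121)) (pfC_sound p15_19_2_122)) (pfC_sound p15_19_2_123)) (pfC_sound p15_19_2_124)) (pfC_sound p15_19_2_125)) (pfC_sound p15_19_2_126)) (pfC_sound p15_19_2_127)) (pfC_sound p15_19_2_128)) (pfC_sound p15_19_2_129)) (pfC_sound p15_19_2_130))
 (pfC_sound p15_19_2_131)) (pfC_sound p15_19_2_132)) (pfC_sound p15_19_2_133)) (pfC_sound p15_19_2_134)) (pfC_sound p15_19_2_135)) (pfC_sound p15_19_2_136)) (by decide +kernel)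

def z15_19_2 : zOK yB15_19 (nat_lit 2) (nat_lit 600) (nat_lit 750) (nat_lit 6674796) (nat_lit 4845085) = true := by decide +kernel
def g15_19_2 : gOK yB15_19.x P15_19 (nat_lit 1417) (q15_19 :: r15_19) (nat_lit 2) (nat_lit 600) (nat_lit 3) (nat_lit 750) (nat_lit 12712500) (nat_lit 12712500) (nat_lit 12712500) (nat_lit 12712500) [(nat_lit 800), (nat_lit 1600)] = true := by decide +kernel
def v15_19_2 : ivC P15_19 s15_19 w15_19 n15_19 (nat_lit 4) (nat_lit 4810) (nat_lit 2) (nat_lit 600) f152_1_600 f160_1_600 (nat_lit 3) (nat_lit 750) f152_1_750 f160_1_750 (nat_lit 6674796) (nat_lit 4845085) p15_19_2 = true := by decide +kernel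
def p15_19_3 : PF := (PF.cons (PF.cons (PF.cons (PF.cons (PF.leaf (nat_lit 3046935) (nat_lit 20016231) (nat_lit 47092581) (nat_lit 20016231) [(nat_lit 0), (nat_lit 0), (nat_lit 0), (nat_lit 0)]) (PF.cons (PF.leaf (nat_lit 3195111) (nat_lit 260089) (nat_lit 46875516) (nat_lit 19973207) [(nat_lit 260089), (nat_lit 0), (nat_lit 0), (nat_lit 0)]) (PF.cons (PF.leaf (nat_lit 3370730) (nat_lit 282443) (nat_lit 46621835) (nat_lit 19922089) [(nat_lit 282443), (nat_lit 0), (nat_lit 0), (nat_lit 0)]) (PF.cons (PF.leaf (nat_lit 3567498) (nat_lit 302155) (nat_lit 46338409) (nat_lit 19863935) [(nat_lit 302155), (nat_lit 0), (nat_lit 0), (nat_lit 0)]) (PF.cons (PF.leaf (nat_lit 3782390) (nat_lit 319813) (nat_lit 46030107) (nat_lit 19799453) [(nat_lit 319813), (nat_lit 0), (nat_lit 0), (nat_lit 0)]) (PF.cons (PF.leaf (nat_lit 4012842) (nat_lit 335793) (nat_lit 45700678) (nat_lit 19729166) [(nat_lit 335793), (nat_lit 0), (nat_lit 0), (nat_lit 0)]) (PF.cons (PF.leaf (nat_lit 4257059)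 (nat_lit 350358) (nat_lit 45353167) (nat_lit 19653495) [(nat_lit 350358), (nat_lit 0), (nat_lit 0), (nat_lit 0)]) (PF.cons (PF.leaf (nat_lit 4513335) (nat_lit 363698) (nat_lit 44990126) (nat_lit 19572794) [(nat_lit 363698), (nat_lit 0),
 (nat_lit 0), (nat_lit 0)]) (PF.cons (PF.leaf (nat_lit 4780220) (nat_lit 375959) (nat_lit 44613753) (nat_lit 19487380) [(nat_lit 375959), (nat_lit 0), (nat_lit 0), (nat_lit 0)]) (PF.cons (PF.leaf (nat_lit 5056581) (nat_lit 387255) (nat_lit 44225969) (nat_lit 19397542) [(nat_lit 387255), (nat_lit 0), (nat_lit 0), (nat_lit 0)]) (PF.cons PF.nil (PF.cons PF.nil PF.nil)))))))))))) (PF.cons (PF.cons (PF.leaf (nat_lit 3554787) (nat_lit 1202012) (nat_lit 46096255) (nat_lit 19810544) [(nat_lit 0), (nat_lit 1202012), (nat_lit 0), (nat_lit 0)]) (PF.cons (PF.leaf (nat_lit 3745697) (nat_lit 311844) (nat_lit 45815506) (nat_lit 19750925) [(nat_lit 311844), (nat_lit 1230535), (nat_lit 0), (nat_lit 0)]) (PF.cons (PF.leaf (nat_lit 3956913) (nat_lit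 328789) (nat_lit 45508438) (nat_lit 19684546) [(nat_lit 328789), (nat_lit 1258249), (nat_lit 0), (nat_lit 0)]) (PF.cons (PF.leaf (nat_lit 4184376) (nat_lit 344062) (nat_lit 45179732) (nat_lit 19612156) [(nat_lit 344062), (nat_lit 1284736), (nat_lit 0), (nat_lit 0)]) (PF.cons (PF.leaf (nat_lit 4425916) (nat_lit 357950) (nat_lit 44832907) (nat_lit 19534299) [(nat_lit 357950), (nat_lit 1309804), (nat_lit 0), (nat_lit 0)]) (PF.cons (PF.leaf (nat_lit 4679652)
 (nat_lit 370652) (nat_lit 44470766) (nat_lit 19451410) [(nat_lit 370652), (nat_lit 1333373), (nat_lit 0), (nat_lit 0)]) (PF.cons (PF.leaf (nat_lit 4944056) (nat_lit 382315) (nat_lit 44095639) (nat_lit 19363855) [(nat_lit 382315), (nat_lit 1355427), (nat_lit 0), (nat_lit 0)]) (PF.cons (PF.leaf (nat_lit 5217837) (nat_lit 393051) (nat_lit 43709514) (nat_lit 19271958) [(nat_lit 393051), (nat_lit 1375982), (nat_lit 0), (nat_lit 0)]) (PF.cons PF.nil (PF.cons PF.nil PF.nil)))))))))) (PF.cons (PF.cons (PF.leaf (nat_lit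 4134639) (nat_lit 1285047) (nat_lit 44975222) (nat_lit 19563494) [(nat_lit 0), (nat_lit 1285047), (nat_lit 0), (nat_lit 0)]) (PF.cons (PF.leaf (nat_lit 4356860) (nat_lit 351096) (nat_lit 44650610) (nat_lit 19489807) [(nat_lit 351096), (nat_lit 1308649), (nat_lit 0), (nat_lit 0)]) (PF.cons (PF.leaf (nat_lit 4594682) (nat_lit 364499) (nat_lit 44307013) (nat_lit 19410403) [(nat_lit 364499), (nat_lit 1331198), (nat_lit 0), (nat_lit 0)]) (PF.cons (PF.leaf (nat_lit 4845095) (nat_lit 376706) (nat_lit 43947774) (nat_lit 19325855) [(nat_lit 376706), (nat_lit 1352532), (nat_lit 0), (nat_lit 0)]) (PF.cons (PF.leaf (nat_lit 5106471) (nat_lit 387881) (nat_lit 43575516) (nat_lit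
 19236615) [(nat_lit 387881), (nat_lit 1372577), (nat_lit 0), (nat_lit 0)]) (PF.cons (PF.leaf (nat_lit 5377314) (nat_lit 398146) (nat_lit 43192391) (nat_lit 19143062) [(nat_lit 398146), (nat_lit 1391313), (nat_lit 0), (nat_lit 0)]) (PF.cons (PF.leaf (nat_lit 5656443) (nat_lit 407595) (nat_lit 42800218) (nat_lit 19045529) [(nat_lit 407595), (nat_lit 1408746), (nat_lit 0), (nat_lit 0)]) (PF.cons PF.nil (PF.cons PF.nil PF.nil))))))))) (PF.cons (PF.cons (PF.leaf (nat_lit 4764991) (nat_lit 1350503) (nat_lit 43775503) (nat_lit 19281800) [(nat_lit 0), (nat_lit 1350503), (nat_lit 0), (nat_lit 0)]) (PF.cons (PF.leaf (nat_lit 5010497) (nat_lit 381900) (nat_lit 43421364) (nat_lit 19196203) [(nat_lit 381900), (nat_lit 1369781), (nat_lit 0), (nat_lit 0)]) (PF.cons (PF.leaf (nat_lit 5268053) (nat_lit 392698) (nat_lit 43053686) (nat_lit 19105782) [(nat_lit 392698), (nat_lit 1387982), (nat_lit 0), (nat_lit 0)]) (PF.cons (PF.leaf (nat_lit 5535428) (nat_lit 402579) (nat_lit 42674936)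 (nat_lit 19011005) [(nat_lit 402579), (nat_lit 1405043), (nat_lit 0), (nat_lit 0)]) (PF.cons (PF.leaf (nat_lit 5811232) (nat_lit 411647) (nat_lit 42287118) (nat_lit 18912262) [(nat_lit 411647), (nat_lit 1420947),
 (nat_lit 0), (nat_lit 0)]) (PF.cons PF.nil (PF.cons PF.nil PF.nil))))))) (PF.cons (PF.cons (PF.leaf (nat_lit 5430122) (nat_lit 1401813) (nat_lit 42530154) (nat_lit 18971402) [(nat_lit 0), (nat_lit 1401813), (nat_lit 0), (nat_lit 0)]) (PF.cons (PF.leaf (nat_lit 5692740) (nat_lit 406372) (nat_lit 42157271) (nat_lit 18875881) [(nat_lit 406372), (nat_lit 1417321), (nat_lit 0), (nat_lit 0)]) (PF.cons (PF.leaf (nat_lit 5964705) (nat_lit 415131) (nat_lit 41774989) (nat_lit 18776337) [(nat_lit 415131), (nat_lit 1431805), (nat_lit 0), (nat_lit 0)]) (PF.cons (PF.leaf (nat_lit 6244194) (nat_lit 423156) (nat_lit 41385176) (nat_lit 18673165) [(nat_lit 423156), (nat_lit 1445250), (nat_lit 0), (nat_lit 0)]) (PF.cons PF.nil PF.nil))))) (PF.cons (PF.cons (PF.leaf (nat_lit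 6117921) (nat_lit 1441433) (nat_lit 41263820) (nat_lit 18637827) [(nat_lit 0), (nat_lit 1441433), (nat_lit 0), (nat_lit 0)]) (PF.cons (PF.leaf (nat_lit 6392788) (nat_lit 425832) (nat_lit 40880435) (nat_lit 18534241) [(nat_lit 425832), (nat_lit 1453660), (nat_lit 0), (nat_lit 0)]) (PF.cons PF.nil (PF.cons PF.nil PF.nil)))) (PF.cons (PF.cons (PF.leaf (nat_lit 6818865) (nat_lit 1471251) (nat_lit 39995081) (nat_lit 18286221)
 [(nat_lit 0), (nat_lit 1471251), (nat_lit 0), (nat_lit 0)]) (PF.cons PF.nil PF.nil)) (PF.cons PF.nil PF.nil)))))))) (PF.cons (PF.cons (PF.cons (PF.leaf (nat_lit 4064344) (nat_lit 3111465) (nat_lit 44546122) (nat_lit 19451225) [(nat_lit 0), (nat_lit 0), (nat_lit 3111465), (nat_lit 0)]) (PF.cons (PF.leaf (nat_lit 4263260) (nat_lit 332399) (nat_lit 44257805) (nat_lit 19384490) [(nat_lit 332399), (nat_lit 0), (nat_lit 3134118), (nat_lit 0)]) (PF.cons (PF.leaf (nat_lit 4481494) (nat_lit 348171) (nat_lit 43944898) (nat_lit 19310923) [(nat_lit 348171),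 (nat_lit 0), (nat_lit 3156648), (nat_lit 0)]) (PF.cons (PF.leaf (nat_lit 4714933) (nat_lit 362194) (nat_lit 43612285) (nat_lit 19231442) [(nat_lit 362194), (nat_lit 0), (nat_lit 3178502), (nat_lit 0)]) (PF.cons (PF.leaf (nat_lit 4961235) (nat_lit 374808) (nat_lit 43263548) (nat_lit 19146707) [(nat_lit 374808), (nat_lit 0), (nat_lit 3199325), (nat_lit 0)]) (PF.cons (PF.leaf (nat_lit 5218635) (nat_lit 386242) (nat_lit 42901479) (nat_lit 19057233) [(nat_lit 386242), (nat_lit 0), (nat_lit 3218889), (nat_lit 0)]) (PF.cons (PF.leaf (nat_lit 5485608) (nat_lit 396661) (nat_lit 42528345) (nat_lit 18963445) [(nat_lit 396661), (nat_lit 0), (nat_lit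
 3237051), (nat_lit 0)]) (PF.cons (PF.leaf (nat_lit 5760912) (nat_lit 406190) (nat_lit 42146044) (nat_lit 18865711) [(nat_lit 406190), (nat_lit 0), (nat_lit 3253726), (nat_lit 0)]) (PF.cons PF.nil PF.nil))))))))) (PF.cons (PF.cons (PF.leaf (nat_lit 4654807) (nat_lit 1331730) (nat_lit 43415174) (nat_lit 19180851) [(nat_lit 0), (nat_lit 1331730), (nat_lit 3181056), (nat_lit 0)]) (PF.cons (PF.leaf (nat_lit 4882103) (nat_lit 367347) (nat_lit 43089044) (nat_lit 19100886) [(nat_lit 367347), (nat_lit 1351517), (nat_lit 3200017), (nat_lit 0)]) (PF.cons (PF.leaf (nat_lit 5123949) (nat_lit 379637) (nat_lit 42745688) (nat_lit 19015370) [(nat_lit 379637), (nat_lit 1370308), (nat_lit 3218171), (nat_lit 0)]) (PF.cons (PF.leaf (nat_lit 5377388) (nat_lit 390715) (nat_lit 42388454) (nat_lit 18924969) [(nat_lit 390715), (nat_lit 1387985), (nat_lit 3235255), (nat_lit 0)]) (PF.cons (PF.leaf (nat_lit 5640742) (nat_lit 400771) (nat_lit 42019922) (nat_lit 18830200) [(nat_lit 400771), (nat_lit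 1404501), (nat_lit 3251102), (nat_lit 0)]) (PF.cons (PF.leaf (nat_lit 5912650) (nat_lit 409938) (nat_lit 41642173) (nat_lit 18731488) [(nat_lit 409938), (nat_lit 1419849), (nat_lit 3265610), (nat_lit 0)]) (PF.cons
 PF.nil PF.nil))))))) (PF.cons (PF.cons (PF.leaf (nat_lit 5288226) (nat_lit 1384858) (nat_lit 42224533) (nat_lit 18880149) [(nat_lit 0), (nat_lit 1384858), (nat_lit 3234412), (nat_lit 0)]) (PF.cons (PF.leaf (nat_lit 5536195) (nat_lit 394462) (nat_lit 41874032) (nat_lit 18789407) [(nat_lit 394462), (nat_lit 1400863), (nat_lit 3249183), (nat_lit 0)]) (PF.cons (PF.leaf (nat_lit 5795262) (nat_lit 404249) (nat_lit 41511550) (nat_lit 18694131) [(nat_lit 404249), (nat_lit 1415876), (nat_lit 3262878), (nat_lit 0)]) (PF.cons (PF.leaf (nat_lit 6063230) (nat_lit 413130) (nat_lit 41139493) (nat_lit 18594840) [(nat_lit 413130), (nat_lit 1429856), (nat_lit 3275374), (nat_lit 0)]) (PF.cons (PF.leaf (nat_lit 6338788) (nat_lit 421218) (nat_lit 40759782) (nat_lit 18491958)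 [(nat_lit 421218), (nat_lit 1442797), (nat_lit 3286601), (nat_lit 0)]) PF.nil))))) (PF.cons (PF.cons (PF.leaf (nat_lit 5950305) (nat_lit 1425993) (nat_lit 41003040) (nat_lit 18555245) [(nat_lit 0), (nat_lit 1425993), (nat_lit 3272546), (nat_lit 0)]) (PF.cons (PF.leaf (nat_lit 6213170) (nat_lit 415774) (nat_lit 40637951) (nat_lit 18455826) [(nat_lit 415774), (nat_lit 1438696), (nat_lit 3283172), (nat_lit 0)]) (PF.cons (PF.leaf
 (nat_lit 6484561) (nat_lit 423634) (nat_lit 40264760) (nat_lit 18352729) [(nat_lit 423634), (nat_lit 1450468), (nat_lit 3292649), (nat_lit 0)]) (PF.cons PF.nil PF.nil)))) (PF.cons (PF.cons (PF.leaf (nat_lit 6630219) (nat_lit 1457138) (nat_lit 39771722) (nat_lit 18211546) [(nat_lit 0), (nat_lit 1457138), (nat_lit 3296988), (nat_lit 0)]) (PF.cons (PF.leaf (nat_lit 6903529) (nat_lit 432529) (nat_lit 39399351) (nat_lit 18105308) [(nat_lit 432529), (nat_lit 1466969), (nat_lit 3303747), (nat_lit 0)]) PF.nil)) (PF.cons PF.nil PF.nil)))))) (PF.cons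 (PF.cons (PF.cons (PF.leaf (nat_lit 5164655) (nat_lit 3217717) (nat_lit 41892103) (nat_lit 18781273) [(nat_lit 0), (nat_lit 0), (nat_lit 3217717), (nat_lit 0)]) (PF.cons (PF.leaf (nat_lit 5395219) (nat_lit 380139) (nat_lit 41568431) (nat_lit 18696523) [(nat_lit 380139), (nat_lit 0), (nat_lit 3231859), (nat_lit 0)]) (PF.cons (PF.leaf (nat_lit 5639400) (nat_lit 391451) (nat_lit 41229091) (nat_lit 18606435) [(nat_lit 391451), (nat_lit 0), (nat_lit 3245191), (nat_lit 0)]) (PF.cons (PF.leaf (nat_lit 5894338) (nat_lit 401548) (nat_lit 40877389) (nat_lit 18511744) [(nat_lit 401548), (nat_lit 0), (nat_lit 3257517), (nat_lit 0)]) (PF.cons (PF.leaf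
 (nat_lit 6158302) (nat_lit 410633) (nat_lit 40515836) (nat_lit 18413013) [(nat_lit 410633), (nat_lit 0), (nat_lit 3268714), (nat_lit 0)]) (PF.cons (PF.leaf (nat_lit 6429953) (nat_lit 418853) (nat_lit 40146424) (nat_lit 18310697) [(nat_lit 418853), (nat_lit 0), (nat_lit 3278712), (nat_lit 0)]) (PF.cons PF.nil PF.nil))))))) (PF.cons (PF.cons (PF.leaf (nat_lit 5797392) (nat_lit 1409366) (nat_lit 40722348) (nat_lit 18466845) [(nat_lit 0), (nat_lit 1409366), (nat_lit 3255126), (nat_lit 0)]) (PF.cons (PF.leaf (nat_lit 6046416) (nat_lit 404116) (nat_lit 40378482) (nat_lit 18372414) [(nat_lit 404116), (nat_lit 1422648), (nat_lit 3265575), (nat_lit 0)]) (PF.cons (PF.leaf (nat_lit 6305712) (nat_lit 413020) (nat_lit 40023967) (nat_lit 18273748) [(nat_lit 413020), (nat_lit 1435006), (nat_lit 3275024), (nat_lit 0)]) (PF.cons (PF.leaf (nat_lit 6573133) (nat_lit 421031) (nat_lit 39661128) (nat_lit 18171398) [(nat_lit 421031), (nat_lit 1446419), (nat_lit 3283386), (nat_lit 0)])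 (PF.cons PF.nil PF.nil))))) (PF.cons (PF.cons (PF.leaf (nat_lit 6453767) (nat_lit 1442122) (nat_lit 39533049) (nat_lit 18132282) [(nat_lit 0), (nat_lit 1442122), (nat_lit 3279618), (nat_lit 0)]) (PF.cons (PF.leaf (nat_lit
 6715825) (nat_lit 422732) (nat_lit 39177888) (nat_lit 18030317) [(nat_lit 422732), (nat_lit 1452477), (nat_lit 3286459), (nat_lit 0)]) (PF.cons (PF.leaf (nat_lit 6985699) (nat_lit 429809) (nat_lit 38815703) (nat_lit 17925003) [(nat_lit 429809), (nat_lit 1461979), (nat_lit 3292264), (nat_lit 0)]) (PF.cons PF.nil PF.nil)))) (PF.cons (PF.cons (PF.leaf (nat_lit 7124011) (nat_lit 1466245) (nat_lit 38342275) (nat_lit 17782764) [(nat_lit 0), (nat_lit 1466245), (nat_lit 3292517), (nat_lit 0)]) (PF.cons PF.nil PF.nil)) (PF.cons PF.nil PF.nil))))) (PF.cons (PF.cons (PF.cons (PF.leaf (nat_lit 6291647) (nat_lit 3261955) (nat_lit 39275610) (nat_lit 18047334) [(nat_lit 0), (nat_lit 0), (nat_lit 3261955), (nat_lit 0)]) (PF.cons (PF.leaf (nat_lit 6540589) (nat_lit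 411377) (nat_lit 38940462) (nat_lit 17950462) [(nat_lit 411377), (nat_lit 0), (nat_lit 3268836), (nat_lit 0)]) (PF.cons (PF.leaf (nat_lit 6799112) (nat_lit 419502) (nat_lit 38595807) (nat_lit 17849647) [(nat_lit 419502), (nat_lit 0), (nat_lit 3274784), (nat_lit 0)]) (PF.cons (PF.leaf (nat_lit 7065077) (nat_lit 426750) (nat_lit 38243878) (nat_lit 17745462) [(nat_lit 426750), (nat_lit 0), (nat_lit 3279740), (nat_lit 0)]) (PF.cons PF.nil
 PF.nil))))) (PF.cons (PF.cons (PF.leaf (nat_lit 6940284) (nat_lit 1451733) (nat_lit 38124002) (nat_lit 17707174) [(nat_lit 0), (nat_lit 1451733), (nat_lit 3275300), (nat_lit 0)]) (PF.cons (PF.leaf (nat_lit 7200718) (nat_lit 427673) (nat_lit 37780173) (nat_lit 17603795) [(nat_lit 427673), (nat_lit 1460106), (nat_lit 3279021), (nat_lit 0)]) (PF.cons (PF.leaf (nat_lit 7468322) (nat_lit 434063) (nat_lit 37430219) (nat_lit 17497371) [(nat_lit 434063), (nat_lit 1467695), (nat_lit 3281800), (nat_lit 0)]) (PF.cons PF.nil PF.nil)))) (PF.cons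 (PF.cons (PF.leaf (nat_lit 7599585) (nat_lit 1469995) (nat_lit 36977120) (nat_lit 17355372) [(nat_lit 0), (nat_lit 1469995), (nat_lit 3278776), (nat_lit 0)]) (PF.cons PF.nil PF.nil)) PF.nil))) (PF.cons (PF.cons (PF.cons (PF.leaf (nat_lit 7409949) (nat_lit 3261902) (nat_lit 36777561) (nat_lit 17283642) [(nat_lit 0), (nat_lit 0), (nat_lit 3261902), (nat_lit 0)]) (PF.cons (PF.leaf (nat_lit 7668079) (nat_lit 430939) (nat_lit 36445923) (nat_lit 17179781) [(nat_lit 430939), (nat_lit 0), (nat_lit 3263042), (nat_lit 0)]) (PF.cons PF.nil PF.nil))) (PF.cons (PF.cons (PF.leaf (nat_lit 8057391) (nat_lit 1469387) (nat_lit 35676322) (nat_lit 16932414) [(nat_lit 0),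
 (nat_lit 1469387), (nat_lit 3257672), (nat_lit 0)]) PF.nil) PF.nil)) (PF.cons PF.nil (PF.cons PF.nil (PF.cons PF.nil PF.nil)))))))) (PF.cons (PF.cons (PF.cons (PF.cons (PF.leaf (nat_lit 4952542) (nat_lit 8502056) (nat_lit 40336263) (nat_lit 18270493) [(nat_lit 0), (nat_lit 0), (nat_lit 0), (nat_lit 8502056)]) (PF.cons (PF.leaf (nat_lit 5149468) (nat_lit 340331) (nat_lit 40075839) (nat_lit 18199919) [(nat_lit 340331), (nat_lit 0), (nat_lit 0), (nat_lit 8492722)]) (PF.cons (PF.leaf (nat_lit 5364410) (nat_lit 355080) (nat_lit 39794299) (nat_lit 18122774) [(nat_lit 355080), (nat_lit 0), (nat_lit 0), (nat_lit 8481577)]) (PF.cons (PF.leaf (nat_lit 5593205) (nat_lit 367968) (nat_lit 39496155) (nat_lit 18040130) [(nat_lit 367968), (nat_lit 0), (nat_lit 0), (nat_lit 8468622)]) (PF.cons (PF.leaf (nat_lit 5833597) (nat_lit 379376) (nat_lit 39184683) (nat_lit 17952760) [(nat_lit 379376), (nat_lit 0), (nat_lit 0), (nat_lit 8453863)]) (PF.cons (PF.leaf (nat_lit 6083719) (nat_lit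 389566) (nat_lit 38862404) (nat_lit 17861261) [(nat_lit 389566), (nat_lit 0), (nat_lit 0), (nat_lit 8437313)]) (PF.cons (PF.leaf (nat_lit 6342157) (nat_lit 398726) (nat_lit 38531338) (nat_lit 17766116) [(nat_lit
 398726), (nat_lit 0), (nat_lit 0), (nat_lit 8418997)]) (PF.cons (PF.leaf (nat_lit 6607723) (nat_lit 406998) (nat_lit 38193148) (nat_lit 17667728) [(nat_lit 406998), (nat_lit 0), (nat_lit 0), (nat_lit 8398946)]) (PF.cons PF.nil PF.nil))))))))) (PF.cons (PF.cons (PF.leaf (nat_lit 5524407) (nat_lit 1338738) (nat_lit 39324457) (nat_lit 17989572) [(nat_lit 0), (nat_lit 1338738), (nat_lit 0), (nat_lit 8456043)]) (PF.cons (PF.leaf (nat_lit 5746454) (nat_lit 371370) (nat_lit 39033513) (nat_lit 17907455) [(nat_lit 371370), (nat_lit 1354739), (nat_lit 0), (nat_lit 8441733)]) (PF.cons (PF.leaf (nat_lit 5981737) (nat_lit 382537) (nat_lit 38728153) (nat_lit 17820297) [(nat_lit 382537), (nat_lit 1369696), (nat_lit 0), (nat_lit 8425589)]) (PF.cons (PF.leaf (nat_lit 6227416)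 (nat_lit 392455) (nat_lit 38411391) (nat_lit 17728842) [(nat_lit 392455), (nat_lit 1383553), (nat_lit 0), (nat_lit 8407658)]) (PF.cons (PF.leaf (nat_lit 6481829) (nat_lit 401334) (nat_lit 38085526) (nat_lit 17633660) [(nat_lit 401334), (nat_lit 1396304), (nat_lit 0), (nat_lit 8387985)]) (PF.cons (PF.leaf (nat_lit 6743641) (nat_lit 409325) (nat_lit 37752383) (nat_lit 17535211) [(nat_lit 409325), (nat_lit 1407972), (nat_lit 0),
 (nat_lit 8366618)]) (PF.cons PF.nil PF.nil))))))) (PF.cons (PF.cons (PF.leaf (nat_lit 6131462) (nat_lit 1379188) (nat_lit 38270198) (nat_lit 17685262) [(nat_lit 0), (nat_lit 1379188), (nat_lit 0), (nat_lit 8394974)]) (PF.cons (PF.leaf (nat_lit 6371281) (nat_lit 394726) (nat_lit 37960455) (nat_lit 17594368) [(nat_lit 394726), (nat_lit 1391695), (nat_lit 0), (nat_lit 8375872)]) (PF.cons (PF.leaf (nat_lit 6621077) (nat_lit 403415) (nat_lit 37640907) (nat_lit 17499556) [(nat_lit 403415), (nat_lit 1403246), (nat_lit 0), (nat_lit 8355027)]) (PF.cons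 (PF.leaf (nat_lit 6878708) (nat_lit 411195) (nat_lit 37313669) (nat_lit 17401376) [(nat_lit 411195), (nat_lit 1413835), (nat_lit 0), (nat_lit 8332508)]) (PF.cons (PF.leaf (nat_lit 7142930) (nat_lit 418197) (nat_lit 36980412) (nat_lit 17300269) [(nat_lit 418197), (nat_lit 1423479), (nat_lit 0), (nat_lit 8308382)]) PF.nil))))) (PF.cons (PF.cons (PF.leaf (nat_lit 6761013) (nat_lit 1409236) (nat_lit 37197170) (nat_lit 17363754) [(nat_lit 0), (nat_lit 1409236), (nat_lit 0), (nat_lit 8320177)]) (PF.cons (PF.leaf (nat_lit 7013363) (nat_lit 412612) (nat_lit 36876823) (nat_lit 17266223) [(nat_lit 412612), (nat_lit 1418822), (nat_lit 0), (nat_lit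
 8296684)]) (PF.cons (PF.leaf (nat_lit 7273289) (nat_lit 419454) (nat_lit 36549980) (nat_lit 17165649) [(nat_lit 419454), (nat_lit 1427557), (nat_lit 0), (nat_lit 8271599)]) (PF.cons PF.nil PF.nil)))) (PF.cons (PF.cons (PF.leaf (nat_lit 7403812) (nat_lit 1430892) (nat_lit 36121930) (nat_lit 17029997) [(nat_lit 0), (nat_lit 1430892), (nat_lit 0), (nat_lit 8233316)]) (PF.cons (PF.leaf (nat_lit 7664756) (nat_lit 426342) (nat_lit 35796900) (nat_lit 16927564) [(nat_lit 426342), (nat_lit 1438016), (nat_lit 0), (nat_lit 8205940)]) PF.nil)) (PF.cons PF.nil PF.nil)))))) (PF.cons (PF.cons (PF.cons (PF.leaf (nat_lit 5996201) (nat_lit 3163959) (nat_lit 37991813) (nat_lit 17592927) [(nat_lit 0), (nat_lit 0), (nat_lit 3163959), (nat_lit 8360112)]) (PF.cons (PF.leaf (nat_lit 6219882) (nat_lit 380376) (nat_lit 37705593) (nat_lit 17508327) [(nat_lit 380376), (nat_lit 0), (nat_lit 3172401), (nat_lit 8342113)]) (PF.cons (PF.leaf (nat_lit 6456049) (nat_lit 390668) (nat_lit 37406221)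 (nat_lit 17418934) [(nat_lit 390668), (nat_lit 0), (nat_lit 3180035), (nat_lit 8322284)]) (PF.cons (PF.leaf (nat_lit 6701867) (nat_lit 399727) (nat_lit 37096630) (nat_lit 17325526) [(nat_lit 399727), (nat_lit 0), (nat_lit
 3186743), (nat_lit 8300728)]) (PF.cons (PF.leaf (nat_lit 6955707) (nat_lit 407775) (nat_lit 36779030) (nat_lit 17228690) [(nat_lit 407775), (nat_lit 0), (nat_lit 3192462), (nat_lit 8277526)]) (PF.cons (PF.leaf (nat_lit 7216275) (nat_lit 414969) (nat_lit 36455155) (nat_lit 17128893) [(nat_lit 414969), (nat_lit 0), (nat_lit 3197160), (nat_lit 8252757)]) (PF.cons PF.nil PF.nil))))))) (PF.cons (PF.cons (PF.leaf (nat_lit 6599772) (nat_lit 1392513) (nat_lit 36963733) (nat_lit 17282773) [(nat_lit 0), (nat_lit 1392513), (nat_lit 3182647), (nat_lit 8287145)]) (PF.cons (PF.leaf (nat_lit 6839468) (nat_lit 401094) (nat_lit 36661766) (nat_lit 17190336) [(nat_lit 401094), (nat_lit 1402866), (nat_lit 3187996), (nat_lit 8264753)]) (PF.cons (PF.leaf (nat_lit 7088478)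 (nat_lit 409026) (nat_lit 36351013) (nat_lit 17094254) [(nat_lit 409026), (nat_lit 1412339), (nat_lit 3192452), (nat_lit 8240699)]) (PF.cons (PF.leaf (nat_lit 7344700) (nat_lit 416075) (nat_lit 36033502) (nat_lit 16995089) [(nat_lit 416075), (nat_lit 1420936), (nat_lit 3195975), (nat_lit 8215083)]) (PF.cons PF.nil PF.nil))))) (PF.cons (PF.cons (PF.leaf (nat_lit 7222117) (nat_lit 1416143) (nat_lit 35924473) (nat_lit 16958530) [(nat_lit
 0), (nat_lit 1416143), (nat_lit 3191213), (nat_lit 8202307)]) (PF.cons (PF.leaf (nat_lit 7472905) (nat_lit 416783) (nat_lit 35614193) (nat_lit 16860345) [(nat_lit 416783), (nat_lit 1423912), (nat_lit 3193654), (nat_lit 8176011)]) (PF.cons (PF.leaf (nat_lit 7730718) (nat_lit 422975) (nat_lit 35298208) (nat_lit 16759385) [(nat_lit 422975), (nat_lit 1430903), (nat_lit 3195218), (nat_lit 8148242)]) (PF.cons PF.nil PF.nil)))) (PF.cons (PF.cons (PF.leaf (nat_lit 7854831) (nat_lit 1432512) (nat_lit 34888311) (nat_lit 16624786) [(nat_lit 0),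 (nat_lit 1432512), (nat_lit 3190902), (nat_lit 8107273)]) (PF.cons PF.nil PF.nil)) (PF.cons PF.nil PF.nil))))) (PF.cons (PF.cons (PF.cons (PF.leaf (nat_lit 7054142) (nat_lit 3173392) (nat_lit 35710566) (nat_lit 16881685) [(nat_lit 0), (nat_lit 0), (nat_lit 3173392), (nat_lit 8169774)]) (PF.cons (PF.leaf (nat_lit 7292957) (nat_lit 405680) (nat_lit 35417504) (nat_lit 16788533) [(nat_lit 405680), (nat_lit 0), (nat_lit 3176170), (nat_lit 8144753)]) (PF.cons (PF.leaf (nat_lit 7540512) (nat_lit 412946) (nat_lit 35116533) (nat_lit 16691992) [(nat_lit 412946), (nat_lit 0), (nat_lit 3178119), (nat_lit 8118155)]) (PF.cons (PF.leaf (nat_lit 7794720) (nat_lit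
 419352) (nat_lit 34809588) (nat_lit 16592628) [(nat_lit 419352), (nat_lit 0), (nat_lit 3179216), (nat_lit 8090105)]) (PF.cons PF.nil PF.nil))))) (PF.cons (PF.cons (PF.leaf (nat_lit 7668021) (nat_lit 1418461) (nat_lit 34707700) (nat_lit 16557292) [(nat_lit 0), (nat_lit 1418461), (nat_lit 3174121), (nat_lit 8077114)]) (PF.cons (PF.leaf (nat_lit 7916731) (nat_lit 419475) (nat_lit 34408149) (nat_lit 16459173) [(nat_lit 419475), (nat_lit 1424692), (nat_lit 3174345), (nat_lit 8048630)]) (PF.cons PF.nil (PF.cons PF.nil PF.nil)))) (PF.cons (PF.cons (PF.leaf (nat_lit 8289933) (nat_lit 1430408) (nat_lit 33711846) (nat_lit 16225725) [(nat_lit 0), (nat_lit 1430408), (nat_lit 3167270), (nat_lit 7975882)]) (PF.cons PF.nil PF.nil)) PF.nil))) (PF.cons (PF.cons (PF.cons (PF.leaf (nat_lit 8099035) (nat_lit 3151114) (nat_lit 33546564) (nat_lit 16162146) [(nat_lit 0), (nat_lit 0), (nat_lit 3151114), (nat_lit 7946757)]) (PF.cons (PF.leaf (nat_lit 8345197) (nat_lit 420937) (nat_lit 33258087)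 (nat_lit 16064672) [(nat_lit 420937), (nat_lit 0), (nat_lit 3149504), (nat_lit 7916602)]) PF.nil)) (PF.cons PF.nil PF.nil)) (PF.cons PF.nil (PF.cons PF.nil PF.nil)))))) (PF.cons (PF.cons (PF.cons (PF.cons (PF.leaf
 (nat_lit 6739185) (nat_lit 7987868) (nat_lit 34652810) (nat_lit 16480266) [(nat_lit 0), (nat_lit 0), (nat_lit 0), (nat_lit 7987868)]) (PF.cons (PF.leaf (nat_lit 6955282) (nat_lit 376269) (nat_lit 34400714) (nat_lit 16398976) [(nat_lit 376269), (nat_lit 0), (nat_lit 0), (nat_lit 7966426)]) (PF.cons (PF.leaf (nat_lit 7183001) (nat_lit 385712) (nat_lit 34137438) (nat_lit 16313401) [(nat_lit 385712), (nat_lit 0), (nat_lit 0), (nat_lit 7943274)]) (PF.cons (PF.leaf (nat_lit 7419479) (nat_lit 393931) (nat_lit 33865567) (nat_lit 16224309) [(nat_lit 393931), (nat_lit 0), (nat_lit 0), (nat_lit 7918570)]) (PF.cons (PF.leaf (nat_lit 7663152) (nat_lit 401155) (nat_lit 33587029) (nat_lit 16132276) [(nat_lit 401155), (nat_lit 0), (nat_lit 0), (nat_lit 7892441)]) (PF.cons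 PF.nil (PF.cons PF.nil PF.nil))))))) (PF.cons (PF.cons (PF.leaf (nat_lit 7314553) (nat_lit 1363472) (nat_lit 33751631) (nat_lit 16184714) [(nat_lit 0), (nat_lit 1363472), (nat_lit 0), (nat_lit 7904496)]) (PF.cons (PF.leaf (nat_lit 7544884) (nat_lit 394471) (nat_lit 33486815) (nat_lit 16096954) [(nat_lit 394471), (nat_lit 1371720), (nat_lit 0), (nat_lit 7879425)]) (PF.cons (PF.leaf (nat_lit 7783748) (nat_lit 401631) (nat_lit
 33214604) (nat_lit 16006028) [(nat_lit 401631), (nat_lit 1379137), (nat_lit 0), (nat_lit 7852889)]) (PF.cons (PF.leaf (nat_lit 8029097) (nat_lit 407928) (nat_lit 32936761) (nat_lit 15912478) [(nat_lit 407928), (nat_lit 1385745), (nat_lit 0), (nat_lit 7825021)]) (PF.cons PF.nil PF.nil))))) (PF.cons (PF.cons (PF.leaf (nat_lit 7905360) (nat_lit 1380761) (nat_lit 32843724) (nat_lit 15879025) [(nat_lit 0), (nat_lit 1380761), (nat_lit 0), (nat_lit 7812270)]) (PF.cons (PF.leaf (nat_lit 8145343) (nat_lit 407968) (nat_lit 32572440) (nat_lit 15786740)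 [(nat_lit 407968), (nat_lit 1386709), (nat_lit 0), (nat_lit 7784122)]) (PF.cons PF.nil (PF.cons PF.nil PF.nil)))) (PF.cons (PF.cons (PF.leaf (nat_lit 8504237) (nat_lit 1391848) (nat_lit 31940597) (nat_lit 15567198) [(nat_lit 0), (nat_lit 1391848), (nat_lit 0), (nat_lit 7712735)]) (PF.cons PF.nil PF.nil)) (PF.cons PF.nil PF.nil))))) (PF.cons (PF.cons (PF.cons (PF.leaf (nat_lit 7734896) (nat_lit 3069888) (nat_lit 32665113) (nat_lit 15810593) [(nat_lit 0), (nat_lit 0), (nat_lit 3069888), (nat_lit 7781609)]) (PF.cons (PF.leaf (nat_lit 7963883) (nat_lit 397265) (nat_lit 32408608) (nat_lit 15723066) [(nat_lit 397265), (nat_lit 0), (nat_lit 3070047),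
 (nat_lit 7754912)]) (PF.cons (PF.leaf (nat_lit 8200948) (nat_lit 403847) (nat_lit 32145396) (nat_lit 15632593) [(nat_lit 403847), (nat_lit 0), (nat_lit 3069465), (nat_lit 7726831)]) (PF.cons PF.nil PF.nil)))) (PF.cons (PF.cons (PF.leaf (nat_lit 8317147) (nat_lit 1378516) (nat_lit 31790202) (nat_lit 15507604) [(nat_lit 0), (nat_lit 1378516), (nat_lit 3062822), (nat_lit 7684833)]) (PF.cons (PF.leaf (nat_lit 8554837) (nat_lit 409186) (nat_lit 31528555) (nat_lit 15416152) [(nat_lit 409186), (nat_lit 1383244), (nat_lit 3060872), (nat_lit 7655400)]) PF.nil)) (PF.cons PF.nil PF.nil))) (PF.cons (PF.cons (PF.cons (PF.leaf (nat_lit 8715800) (nat_lit 3034671) (nat_lit 30784772) (nat_lit 15144206) [(nat_lit 0), (nat_lit 0), (nat_lit 3034671), (nat_lit 7555245)]) (PF.cons PF.nil PF.nil)) (PF.cons PF.nil PF.nil)) (PF.cons PF.nil (PF.cons PF.nil PF.nil))))) (PF.cons (PF.cons (PF.cons (PF.cons (PF.leaf (nat_lit 8349813) (nat_lit 7407127) (nat_lit 30049881) (nat_lit 14837549) [(nat_lit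 0), (nat_lit 0), (nat_lit 0), (nat_lit 7407127)]) (PF.cons (PF.leaf (nat_lit 8569487) (nat_lit 387424) (nat_lit 29824586) (nat_lit 14756289) [(nat_lit 387424), (nat_lit 0), (nat_lit 0), (nat_lit 7380170)]) (PF.cons
 (PF.leaf (nat_lit 8796710) (nat_lit 393449) (nat_lit 29593516) (nat_lit 14672442) [(nat_lit 393449), (nat_lit 0), (nat_lit 0), (nat_lit 7351985)]) (PF.cons PF.nil PF.nil)))) (PF.cons (PF.cons (PF.leaf (nat_lit 8903453) (nat_lit 1335717) (nat_lit 29283498) (nat_lit 14557543) [(nat_lit 0), (nat_lit 1335717), (nat_lit 0), (nat_lit 7310684)]) (PF.cons PF.nil PF.nil)) (PF.cons PF.nil PF.nil))) (PF.cons (PF.cons (PF.cons (PF.leaf (nat_lit 9274704) (nat_lit 2918462) (nat_lit 28408063) (nat_lit 14225607) [(nat_lit 0), (nat_lit 0), (nat_lit 2918462), (nat_lit 7185559)]) (PF.cons PF.nil PF.nil)) (PF.cons PF.nil PF.nil)) (PF.cons PF.nil PF.nil))) (PF.cons (PF.cons (PF.cons (PF.cons (PF.leaf (nat_lit 9786512) (nat_lit 6840702) (nat_lit 26348009) (nat_lit 13397992)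 [(nat_lit 0), (nat_lit 0), (nat_lit 0), (nat_lit 6840702)]) (PF.cons PF.nil PF.nil)) (PF.cons PF.nil PF.nil)) (PF.cons PF.nil PF.nil)) (PF.cons PF.nil (PF.cons PF.nil (PF.cons PF.nil PF.nil))))))))

def p15_19_3_0 : pfC (piC [(nat_lit 39633164), (nat_lit 25639500), (nat_lit 19173228), (nat_lit 12837379)] (nat_lit 4845085)) p15_19_3 (nat_lit 4) (nat_lit 0) (nat_lit 1) = true := by decide +kernel
def p15_19_3_1 : pfC (piC [(nat_lit 39633164), (nat_lit 25639500), (nat_lit 19173228), (nat_lit 12837379)] (nat_lit 4845085)) p15_19_3 (nat_lit 4) (nat_lit 1) (nat_lit 2) = true := by decide +kernel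
def p15_19_3_2 : pfC (piC [(nat_lit 39633164), (nat_lit 25639500), (nat_lit 19173228), (nat_lit 12837379)] (nat_lit 4845085)) p15_19_3 (nat_lit 4) (nat_lit 2) (nat_lit 3) = true := by decide +kernel
def p15_19_3_3 : pfC (piC [(nat_lit 39633164), (nat_lit 25639500), (nat_lit 19173228), (nat_lit 12837379)] (nat_lit 4845085)) p15_19_3 (nat_lit 4) (nat_lit 3) (nat_lit 4) = true := by decide +kernel
def p15_19_3_4 : pfC (piC [(nat_lit 39633164), (nat_lit 25639500), (nat_lit 19173228), (nat_lit 12837379)] (nat_lit 4845085)) p15_19_3 (nat_lit 4) (nat_lit 4) (nat_lit 5) = true := by decide +kernel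
def p15_19_3_5 : pfC (piC [(nat_lit 39633164), (nat_lit 25639500), (nat_lit 19173228), (nat_lit 12837379)] (nat_lit 4845085)) p15_19_3 (nat_lit 4) (nat_lit 5) (nat_lit 6) = true := by decide +kernel
def p15_19_3_6 : pfC (piC [(nat_lit 39633164), (nat_lit 25639500), (nat_lit 19173228), (nat_lit 12837379)] (nat_lit 4845085)) p15_19_3 (nat_lit 4) (nat_lit 6) (nat_lit 7) = true := by decide +kernel
def p15_19_3_7 : pfC (piC [(nat_lit 39633164), (nat_lit 25639500), (nat_lit 19173228), (nat_lit 12837379)] (nat_lit 4845085)) p15_19_3 (nat_lit 4) (nat_lit 7) (nat_lit 8) = true := by decide +kernel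
def p15_19_3_8 : pfC (piC [(nat_lit 39633164), (nat_lit 25639500), (nat_lit 19173228), (nat_lit 12837379)] (nat_lit 4845085)) p15_19_3 (nat_lit 4) (nat_lit 8) (nat_lit 9) = true := by decide +kernel
def p15_19_3_9 : pfC (piC [(nat_lit 39633164), (nat_lit 25639500), (nat_lit 19173228), (nat_lit 12837379)] (nat_lit 4845085)) p15_19_3 (nat_lit 4) (nat_lit 9) (nat_lit 10) = true := by decide +kernel
def p15_19_3_10 : pfC (piC [(nat_lit 39633164), (nat_lit 25639500), (nat_lit 19173228), (nat_lit 12837379)] (nat_lit 4845085)) p15_19_3 (nat_lit 4) (nat_lit 10) (nat_lit 11) = true := by decide +kernel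
def p15_19_3_11 : pfC (piC [(nat_lit 39633164), (nat_lit 25639500), (nat_lit 19173228), (nat_lit 12837379)] (nat_lit 4845085)) p15_19_3 (nat_lit 4) (nat_lit 11) (nat_lit 12) = true := by decide +kernel
def p15_19_3_12 : pfC (piC [(nat_lit 39633164), (nat_lit 25639500), (nat_lit 19173228), (nat_lit 12837379)] (nat_lit 4845085)) p15_19_3 (nat_lit 4) (nat_lit 12) (nat_lit 13) = true := by decide +kernel
def p15_19_3_13 : pfC (piC [(nat_lit 39633164), (nat_lit 25639500), (nat_lit 19173228), (nat_lit 12837379)] (nat_lit 4845085)) p15_19_3 (nat_lit 4) (nat_lit 13) (nat_lit 14) = true := by decide +kernel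
def p15_19_3_14 : pfC (piC [(nat_lit 39633164), (nat_lit 25639500), (nat_lit 19173228), (nat_lit 12837379)] (nat_lit 4845085)) p15_19_3 (nat_lit 4) (nat_lit 14) (nat_lit 15) = true := by decide +kernel
def p15_19_3_15 : pfC (piC [(nat_lit 39633164), (nat_lit 25639500), (nat_lit 19173228), (nat_lit 12837379)] (nat_lit 4845085)) p15_19_3 (nat_lit 4) (nat_lit 15) (nat_lit 16) = true := by decide +kernel
def p15_19_3_16 : pfC (piC [(nat_lit 39633164), (nat_lit 25639500), (nat_lit 19173228), (nat_lit 12837379)] (nat_lit 4845085)) p15_19_3 (nat_lit 4) (nat_lit 16) (nat_lit 17) = true := by decide +kernel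
def p15_19_3_17 : pfC (piC [(nat_lit 39633164), (nat_lit 25639500), (nat_lit 19173228), (nat_lit 12837379)] (nat_lit 4845085)) p15_19_3 (nat_lit 4) (nat_lit 17) (nat_lit 18) = true := by decide +kernel
def p15_19_3_18 : pfC (piC [(nat_lit 39633164), (nat_lit 25639500), (nat_lit 19173228), (nat_lit 12837379)] (nat_lit 4845085)) p15_19_3 (nat_lit 4) (nat_lit 18) (nat_lit 19) = true := by decide +kernel
def p15_19_3_19 : pfC (piC [(nat_lit 39633164), (nat_lit 25639500), (nat_lit 19173228), (nat_lit 12837379)] (nat_lit 4845085)) p15_19_3 (nat_lit 4) (nat_lit 19) (nat_lit 20) = true := by decide +kernel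
def p15_19_3_20 : pfC (piC [(nat_lit 39633164), (nat_lit 25639500), (nat_lit 19173228), (nat_lit 12837379)] (nat_lit 4845085)) p15_19_3 (nat_lit 4) (nat_lit 20) (nat_lit 21) = true := by decide +kernel
def p15_19_3_21 : pfC (piC [(nat_lit 39633164), (nat_lit 25639500), (nat_lit 19173228), (nat_lit 12837379)] (nat_lit 4845085)) p15_19_3 (nat_lit 4) (nat_lit 21) (nat_lit 22) = true := by decide +kernel
def p15_19_3_22 : pfC (piC [(nat_lit 39633164), (nat_lit 25639500), (nat_lit 19173228), (nat_lit 12837379)] (nat_lit 4845085)) p15_19_3 (nat_lit 4) (nat_lit 22) (nat_lit 23) = true := by decide +kernel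
def p15_19_3_23 : pfC (piC [(nat_lit 39633164), (nat_lit 25639500), (nat_lit 19173228), (nat_lit 12837379)] (nat_lit 4845085)) p15_19_3 (nat_lit 4) (nat_lit 23) (nat_lit 24) = true := by decide +kernel
def p15_19_3_24 : pfC (piC [(nat_lit 39633164), (nat_lit 25639500), (nat_lit 19173228), (nat_lit 12837379)] (nat_lit 4845085)) p15_19_3 (nat_lit 4) (nat_lit 24) (nat_lit 25) = true := by decide +kernel
def p15_19_3_25 : pfC (piC [(nat_lit 39633164), (nat_lit 25639500), (nat_lit 19173228), (nat_lit 12837379)] (nat_lit 4845085)) p15_19_3 (nat_lit 4) (nat_lit 25) (nat_lit 26) = true := by decide +kernel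
def p15_19_3_26 : pfC (piC [(nat_lit 39633164), (nat_lit 25639500), (nat_lit 19173228), (nat_lit 12837379)] (nat_lit 4845085)) p15_19_3 (nat_lit 4) (nat_lit 26) (nat_lit 27) = true := by decide +kernel
def p15_19_3_27 : pfC (piC [(nat_lit 39633164), (nat_lit 25639500), (nat_lit 19173228), (nat_lit 12837379)] (nat_lit 4845085)) p15_19_3 (nat_lit 4) (nat_lit 27) (nat_lit 28) = true := by decide +kernel
def p15_19_3_28 : pfC (piC [(nat_lit 39633164), (nat_lit 25639500), (nat_lit 19173228), (nat_lit 12837379)] (nat_lit 4845085)) p15_19_3 (nat_lit 4) (nat_lit 28) (nat_lit 29) = true := by decide +kernel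
def p15_19_3_29 : pfC (piC [(nat_lit 39633164), (nat_lit 25639500), (nat_lit 19173228), (nat_lit 12837379)] (nat_lit 4845085)) p15_19_3 (nat_lit 4) (nat_lit 29) (nat_lit 30) = true := by decide +kernel
def p15_19_3_30 : pfC (piC [(nat_lit 39633164), (nat_lit 25639500), (nat_lit 19173228), (nat_lit 12837379)] (nat_lit 4845085)) p15_19_3 (nat_lit 4) (nat_lit 30) (nat_lit 31) = true := by decide +kernel
def p15_19_3_31 : pfC (piC [(nat_lit 39633164), (nat_lit 25639500), (nat_lit 19173228), (nat_lit 12837379)] (nat_lit 4845085)) p15_19_3 (nat_lit 4) (nat_lit 31) (nat_lit 32) = true := by decide +kernel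
def p15_19_3_32 : pfC (piC [(nat_lit 39633164), (nat_lit 25639500), (nat_lit 19173228), (nat_lit 12837379)] (nat_lit 4845085)) p15_19_3 (nat_lit 4) (nat_lit 32) (nat_lit 33) = true := by decide +kernel
def p15_19_3_33 : pfC (piC [(nat_lit 39633164), (nat_lit 25639500), (nat_lit 19173228), (nat_lit 12837379)] (nat_lit 4845085)) p15_19_3 (nat_lit 4) (nat_lit 33) (nat_lit 34) = true := by decide +kernel
def p15_19_3_34 : pfC (piC [(nat_lit 39633164), (nat_lit 25639500), (nat_lit 19173228), (nat_lit 12837379)] (nat_lit 4845085)) p15_19_3 (nat_lit 4) (nat_lit 34) (nat_lit 35) = true := by decide +kernel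
def p15_19_3_35 : pfC (piC [(nat_lit 39633164), (nat_lit 25639500), (nat_lit 19173228), (nat_lit 12837379)] (nat_lit 4845085)) p15_19_3 (nat_lit 4) (nat_lit 35) (nat_lit 36) = true := by decide +kernel
def p15_19_3_36 : pfC (piC [(nat_lit 39633164), (nat_lit 25639500), (nat_lit 19173228), (nat_lit 12837379)] (nat_lit 4845085)) p15_19_3 (nat_lit 4) (nat_lit 36) (nat_lit 37) = true := by decide +kernel
def p15_19_3_37 : pfC (piC [(nat_lit 39633164), (nat_lit 25639500), (nat_lit 19173228), (nat_lit 12837379)] (nat_lit 4845085)) p15_19_3 (nat_lit 4) (nat_lit 37) (nat_lit 38) = true := by decide +kernel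
def p15_19_3_38 : pfC (piC [(nat_lit 39633164), (nat_lit 25639500), (nat_lit 19173228), (nat_lit 12837379)] (nat_lit 4845085)) p15_19_3 (nat_lit 4) (nat_lit 38) (nat_lit 39) = true := by decide +kernel
def p15_19_3_39 : pfC (piC [(nat_lit 39633164), (nat_lit 25639500), (nat_lit 19173228), (nat_lit 12837379)] (nat_lit 4845085)) p15_19_3 (nat_lit 4) (nat_lit 39) (nat_lit 40) = true := by decide +kernel
def p15_19_3_40 : pfC (piC [(nat_lit 39633164), (nat_lit 25639500), (nat_lit 19173228), (nat_lit 12837379)] (nat_lit 4845085)) p15_19_3 (nat_lit 4) (nat_lit 40) (nat_lit 41) = true := by decide +kernel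
def p15_19_3_41 : pfC (piC [(nat_lit 39633164), (nat_lit 25639500), (nat_lit 19173228), (nat_lit 12837379)] (nat_lit 4845085)) p15_19_3 (nat_lit 4) (nat_lit 41) (nat_lit 42) = true := by decide +kernel
def p15_19_3_42 : pfC (piC [(nat_lit 39633164), (nat_lit 25639500), (nat_lit 19173228), (nat_lit 12837379)] (nat_lit 4845085)) p15_19_3 (nat_lit 4) (nat_lit 42) (nat_lit 43) = true := by decide +kernel
def p15_19_3_43 : pfC (piC [(nat_lit 39633164), (nat_lit 25639500), (nat_lit 19173228), (nat_lit 12837379)] (nat_lit 4845085)) p15_19_3 (nat_lit 4) (nat_lit 43) (nat_lit 44) = true := by decide +kernel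
def p15_19_3_44 : pfC (piC [(nat_lit 39633164), (nat_lit 25639500), (nat_lit 19173228), (nat_lit 12837379)] (nat_lit 4845085)) p15_19_3 (nat_lit 4) (nat_lit 44) (nat_lit 45) = true := by decide +kernel
def p15_19_3_45 : pfC (piC [(nat_lit 39633164), (nat_lit 25639500), (nat_lit 19173228), (nat_lit 12837379)] (nat_lit 4845085)) p15_19_3 (nat_lit 4) (nat_lit 45) (nat_lit 46) = true := by decide +kernel
def p15_19_3_46 : pfC (piC [(nat_lit 39633164), (nat_lit 25639500), (nat_lit 19173228), (nat_lit 12837379)] (nat_lit 4845085)) p15_19_3 (nat_lit 4) (nat_lit 46) (nat_lit 47) = true := by decide +kernel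
def p15_19_3_47 : pfC (piC [(nat_lit 39633164), (nat_lit 25639500), (nat_lit 19173228), (nat_lit 12837379)] (nat_lit 4845085)) p15_19_3 (nat_lit 4) (nat_lit 47) (nat_lit 48) = true := by decide +kernel
def p15_19_3_48 : pfC (piC [(nat_lit 39633164), (nat_lit 25639500), (nat_lit 19173228), (nat_lit 12837379)] (nat_lit 4845085)) p15_19_3 (nat_lit 4) (nat_lit 48) (nat_lit 49) = true := by decide +kernel
def p15_19_3_49 : pfC (piC [(nat_lit 39633164), (nat_lit 25639500), (nat_lit 19173228), (nat_lit 12837379)] (nat_lit 4845085)) p15_19_3 (nat_lit 4) (nat_lit 49) (nat_lit 50) = true := by decide +kernel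
def p15_19_3_50 : pfC (piC [(nat_lit 39633164), (nat_lit 25639500), (nat_lit 19173228), (nat_lit 12837379)] (nat_lit 4845085)) p15_19_3 (nat_lit 4) (nat_lit 50) (nat_lit 51) = true := by decide +kernel
def p15_19_3_51 : pfC (piC [(nat_lit 39633164), (nat_lit 25639500), (nat_lit 19173228), (nat_lit 12837379)] (nat_lit 4845085)) p15_19_3 (nat_lit 4) (nat_lit 51) (nat_lit 52) = true := by decide +kernel
def p15_19_3_52 : pfC (piC [(nat_lit 39633164), (nat_lit 25639500), (nat_lit 19173228), (nat_lit 12837379)] (nat_lit 4845085)) p15_19_3 (nat_lit 4) (nat_lit 52) (nat_lit 53) = true := by decide +kernel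
def p15_19_3_53 : pfC (piC [(nat_lit 39633164), (nat_lit 25639500), (nat_lit 19173228), (nat_lit 12837379)] (nat_lit 4845085)) p15_19_3 (nat_lit 4) (nat_lit 53) (nat_lit 54) = true := by decide +kernel
def p15_19_3_54 : pfC (piC [(nat_lit 39633164), (nat_lit 25639500), (nat_lit 19173228), (nat_lit 12837379)] (nat_lit 4845085)) p15_19_3 (nat_lit 4) (nat_lit 54) (nat_lit 55) = true := by decide +kernel
def p15_19_3_55 : pfC (piC [(nat_lit 39633164), (nat_lit 25639500), (nat_lit 19173228), (nat_lit 12837379)] (nat_lit 4845085)) p15_19_3 (nat_lit 4) (nat_lit 55) (nat_lit 56) = true := by decide +kernel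
def p15_19_3_56 : pfC (piC [(nat_lit 39633164), (nat_lit 25639500), (nat_lit 19173228), (nat_lit 12837379)] (nat_lit 4845085)) p15_19_3 (nat_lit 4) (nat_lit 56) (nat_lit 57) = true := by decide +kernel
def p15_19_3_57 : pfC (piC [(nat_lit 39633164), (nat_lit 25639500), (nat_lit 19173228), (nat_lit 12837379)] (nat_lit 4845085)) p15_19_3 (nat_lit 4) (nat_lit 57) (nat_lit 58) = true := by decide +kernel
def p15_19_3_58 : pfC (piC [(nat_lit 39633164), (nat_lit 25639500), (nat_lit 19173228), (nat_lit 12837379)] (nat_lit 4845085)) p15_19_3 (nat_lit 4) (nat_lit 58) (nat_lit 59) = true := by decide +kernel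
def p15_19_3_59 : pfC (piC [(nat_lit 39633164), (nat_lit 25639500), (nat_lit 19173228), (nat_lit 12837379)] (nat_lit 4845085)) p15_19_3 (nat_lit 4) (nat_lit 59) (nat_lit 60) = true := by decide +kernel
def p15_19_3_60 : pfC (piC [(nat_lit 39633164), (nat_lit 25639500), (nat_lit 19173228), (nat_lit 12837379)] (nat_lit 4845085)) p15_19_3 (nat_lit 4) (nat_lit 60) (nat_lit 61) = true := by decide +kernel
def p15_19_3_61 : pfC (piC [(nat_lit 39633164), (nat_lit 25639500), (nat_lit 19173228), (nat_lit 12837379)] (nat_lit 4845085)) p15_19_3 (nat_lit 4) (nat_lit 61) (nat_lit 62) = true := by decide +kernel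
def p15_19_3_62 : pfC (piC [(nat_lit 39633164), (nat_lit 25639500), (nat_lit 19173228), (nat_lit 12837379)] (nat_lit 4845085)) p15_19_3 (nat_lit 4) (nat_lit 62) (nat_lit 63) = true := by decide +kernel
def p15_19_3_63 : pfC (piC [(nat_lit 39633164), (nat_lit 25639500), (nat_lit 19173228), (nat_lit 12837379)] (nat_lit 4845085)) p15_19_3 (nat_lit 4) (nat_lit 63) (nat_lit 64) = true := by decide +kernel
def p15_19_3_64 : pfC (piC [(nat_lit 39633164), (nat_lit 25639500), (nat_lit 19173228), (nat_lit 12837379)] (nat_lit 4845085)) p15_19_3 (nat_lit 4) (nat_lit 64) (nat_lit 65) = true := by decide +kernel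
def p15_19_3_65 : pfC (piC [(nat_lit 39633164), (nat_lit 25639500), (nat_lit 19173228), (nat_lit 12837379)] (nat_lit 4845085)) p15_19_3 (nat_lit 4) (nat_lit 65) (nat_lit 66) = true := by decide +kernel
def p15_19_3_66 : pfC (piC [(nat_lit 39633164), (nat_lit 25639500), (nat_lit 19173228), (nat_lit 12837379)] (nat_lit 4845085)) p15_19_3 (nat_lit 4) (nat_lit 66) (nat_lit 67) = true := by decide +kernel
def p15_19_3_67 : pfC (piC [(nat_lit 39633164), (nat_lit 25639500), (nat_lit 19173228), (nat_lit 12837379)] (nat_lit 4845085)) p15_19_3 (nat_lit 4) (nat_lit 67) (nat_lit 68) = true := by decide +kernel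
def p15_19_3_68 : pfC (piC [(nat_lit 39633164), (nat_lit 25639500), (nat_lit 19173228), (nat_lit 12837379)] (nat_lit 4845085)) p15_19_3 (nat_lit 4) (nat_lit 68) (nat_lit 69) = true := by decide +kernel
def p15_19_3_69 : pfC (piC [(nat_lit 39633164), (nat_lit 25639500), (nat_lit 19173228), (nat_lit 12837379)] (nat_lit 4845085)) p15_19_3 (nat_lit 4) (nat_lit 69) (nat_lit 70) = true := by decide +kernel
def p15_19_3_70 : pfC (piC [(nat_lit 39633164), (nat_lit 25639500), (nat_lit 19173228), (nat_lit 12837379)] (nat_lit 4845085)) p15_19_3 (nat_lit 4) (nat_lit 70) (nat_lit 71) = true := by decide +kernel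
def p15_19_3_71 : pfC (piC [(nat_lit 39633164), (nat_lit 25639500), (nat_lit 19173228), (nat_lit 12837379)] (nat_lit 4845085)) p15_19_3 (nat_lit 4) (nat_lit 71) (nat_lit 72) = true := by decide +kernel
def p15_19_3_72 : pfC (piC [(nat_lit 39633164), (nat_lit 25639500), (nat_lit 19173228), (nat_lit 12837379)] (nat_lit 4845085)) p15_19_3 (nat_lit 4) (nat_lit 72) (nat_lit 73) = true := by decide +kernel
def p15_19_3_73 : pfC (piC [(nat_lit 39633164), (nat_lit 25639500), (nat_lit 19173228), (nat_lit 12837379)] (nat_lit 4845085)) p15_19_3 (nat_lit 4) (nat_lit 73) (nat_lit 74) = true := by decide +kernel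
def p15_19_3_74 : pfC (piC [(nat_lit 39633164), (nat_lit 25639500), (nat_lit 19173228), (nat_lit 12837379)] (nat_lit 4845085)) p15_19_3 (nat_lit 4) (nat_lit 74) (nat_lit 75) = true := by decide +kernel
def p15_19_3_75 : pfC (piC [(nat_lit 39633164), (nat_lit 25639500), (nat_lit 19173228), (nat_lit 12837379)] (nat_lit 4845085)) p15_19_3 (nat_lit 4) (nat_lit 75) (nat_lit 76) = true := by decide +kernel
def p15_19_3_76 : pfC (piC [(nat_lit 39633164), (nat_lit 25639500), (nat_lit 19173228), (nat_lit 12837379)] (nat_lit 4845085)) p15_19_3 (nat_lit 4) (nat_lit 76) (nat_lit 77) = true := by decide +kernel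
def p15_19_3_77 : pfC (piC [(nat_lit 39633164), (nat_lit 25639500), (nat_lit 19173228), (nat_lit 12837379)] (nat_lit 4845085)) p15_19_3 (nat_lit 4) (nat_lit 77) (nat_lit 78) = true := by decide +kernel
def p15_19_3_78 : pfC (piC [(nat_lit 39633164), (nat_lit 25639500), (nat_lit 19173228), (nat_lit 12837379)] (nat_lit 4845085)) p15_19_3 (nat_lit 4) (nat_lit 78) (nat_lit 79) = true := by decide +kernel
def p15_19_3_79 : pfC (piC [(nat_lit 39633164), (nat_lit 25639500), (nat_lit 19173228), (nat_lit 12837379)] (nat_lit 4845085)) p15_19_3 (nat_lit 4) (nat_lit 79) (nat_lit 80) = true := by decide +kernel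
def p15_19_3_80 : pfC (piC [(nat_lit 39633164), (nat_lit 25639500), (nat_lit 19173228), (nat_lit 12837379)] (nat_lit 4845085)) p15_19_3 (nat_lit 4) (nat_lit 80) (nat_lit 81) = true := by decide +kernel
def p15_19_3_81 : pfC (piC [(nat_lit 39633164), (nat_lit 25639500), (nat_lit 19173228), (nat_lit 12837379)] (nat_lit 4845085)) p15_19_3 (nat_lit 4) (nat_lit 81) (nat_lit 82) = true := by decide +kernel
def p15_19_3_82 : pfC (piC [(nat_lit 39633164), (nat_lit 25639500), (nat_lit 19173228), (nat_lit 12837379)] (nat_lit 4845085)) p15_19_3 (nat_lit 4) (nat_lit 82) (nat_lit 83) = true := by decide +kernel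
def p15_19_3_83 : pfC (piC [(nat_lit 39633164), (nat_lit 25639500), (nat_lit 19173228), (nat_lit 12837379)] (nat_lit 4845085)) p15_19_3 (nat_lit 4) (nat_lit 83) (nat_lit 84) = true := by decide +kernel
def p15_19_3_84 : pfC (piC [(nat_lit 39633164), (nat_lit 25639500), (nat_lit 19173228), (nat_lit 12837379)] (nat_lit 4845085)) p15_19_3 (nat_lit 4) (nat_lit 84) (nat_lit 85) = true := by decide +kernel
def p15_19_3_85 : pfC (piC [(nat_lit 39633164), (nat_lit 25639500), (nat_lit 19173228), (nat_lit 12837379)] (nat_lit 4845085)) p15_19_3 (nat_lit 4) (nat_lit 85) (nat_lit 86) = true := by decide +kernel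
def p15_19_3_86 : pfC (piC [(nat_lit 39633164), (nat_lit 25639500), (nat_lit 19173228), (nat_lit 12837379)] (nat_lit 4845085)) p15_19_3 (nat_lit 4) (nat_lit 86) (nat_lit 87) = true := by decide +kernel
def p15_19_3_87 : pfC (piC [(nat_lit 39633164), (nat_lit 25639500), (nat_lit 19173228), (nat_lit 12837379)] (nat_lit 4845085)) p15_19_3 (nat_lit 4) (nat_lit 87) (nat_lit 88) = true := by decide +kernel
def p15_19_3_88 : pfC (piC [(nat_lit 39633164), (nat_lit 25639500), (nat_lit 19173228), (nat_lit 12837379)] (nat_lit 4845085)) p15_19_3 (nat_lit 4) (nat_lit 88) (nat_lit 89) = true := by decide +kernel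
def p15_19_3_89 : pfC (piC [(nat_lit 39633164), (nat_lit 25639500), (nat_lit 19173228), (nat_lit 12837379)] (nat_lit 4845085)) p15_19_3 (nat_lit 4) (nat_lit 89) (nat_lit 90) = true := by decide +kernel
def p15_19_3_90 : pfC (piC [(nat_lit 39633164), (nat_lit 25639500), (nat_lit 19173228), (nat_lit 12837379)] (nat_lit 4845085)) p15_19_3 (nat_lit 4) (nat_lit 90) (nat_lit 91) = true := by decide +kernel
def p15_19_3_91 : pfC (piC [(nat_lit 39633164), (nat_lit 25639500), (nat_lit 19173228), (nat_lit 12837379)] (nat_lit 4845085)) p15_19_3 (nat_lit 4) (nat_lit 91) (nat_lit 92) = true := by decide +kernel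
def p15_19_3_92 : pfC (piC [(nat_lit 39633164), (nat_lit 25639500), (nat_lit 19173228), (nat_lit 12837379)] (nat_lit 4845085)) p15_19_3 (nat_lit 4) (nat_lit 92) (nat_lit 93) = true := by decide +kernel
def p15_19_3_93 : pfC (piC [(nat_lit 39633164), (nat_lit 25639500), (nat_lit 19173228), (nat_lit 12837379)] (nat_lit 4845085)) p15_19_3 (nat_lit 4) (nat_lit 93) (nat_lit 94) = true := by decide +kernel
def p15_19_3_94 : pfC (piC [(nat_lit 39633164), (nat_lit 25639500), (nat_lit 19173228), (nat_lit 12837379)] (nat_lit 4845085)) p15_19_3 (nat_lit 4) (nat_lit 94) (nat_lit 95) = true := by decide +kernel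
def p15_19_3_95 : pfC (piC [(nat_lit 39633164), (nat_lit 25639500), (nat_lit 19173228), (nat_lit 12837379)] (nat_lit 4845085)) p15_19_3 (nat_lit 4) (nat_lit 95) (nat_lit 96) = true := by decide +kernel
def p15_19_3_96 : pfC (piC [(nat_lit 39633164), (nat_lit 25639500), (nat_lit 19173228), (nat_lit 12837379)] (nat_lit 4845085)) p15_19_3 (nat_lit 4) (nat_lit 96) (nat_lit 97) = true := by decide +kernel
def p15_19_3_97 : pfC (piC [(nat_lit 39633164), (nat_lit 25639500), (nat_lit 19173228), (nat_lit 12837379)] (nat_lit 4845085)) p15_19_3 (nat_lit 4) (nat_lit 97) (nat_lit 98) = true := by decide +kernel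
def p15_19_3_98 : pfC (piC [(nat_lit 39633164), (nat_lit 25639500), (nat_lit 19173228), (nat_lit 12837379)] (nat_lit 4845085)) p15_19_3 (nat_lit 4) (nat_lit 98) (nat_lit 99) = true := by decide +kernel
def p15_19_3_99 : pfC (piC [(nat_lit 39633164), (nat_lit 25639500), (nat_lit 19173228), (nat_lit 12837379)] (nat_lit 4845085)) p15_19_3 (nat_lit 4) (nat_lit 99) (nat_lit 100) = true := by decide +kernel
def p15_19_3_100 : pfC (piC [(nat_lit 39633164), (nat_lit 25639500), (nat_lit 19173228), (nat_lit 12837379)] (nat_lit 4845085)) p15_19_3 (nat_lit 4) (nat_lit 100) (nat_lit 101) = true := by decide +kernel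
def p15_19_3_101 : pfC (piC [(nat_lit 39633164), (nat_lit 25639500), (nat_lit 19173228), (nat_lit 12837379)] (nat_lit 4845085)) p15_19_3 (nat_lit 4) (nat_lit 101) (nat_lit 102) = true := by decide +kernel
def p15_19_3_102 : pfC (piC [(nat_lit 39633164), (nat_lit 25639500), (nat_lit 19173228), (nat_lit 12837379)] (nat_lit 4845085)) p15_19_3 (nat_lit 4) (nat_lit 102) (nat_lit 103) = true := by decide +kernel
def p15_19_3_103 : pfC (piC [(nat_lit 39633164), (nat_lit 25639500), (nat_lit 19173228), (nat_lit 12837379)] (nat_lit 4845085)) p15_19_3 (nat_lit 4) (nat_lit 103) (nat_lit 104) = true := by decide +kernel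
def p15_19_3_104 : pfC (piC [(nat_lit 39633164), (nat_lit 25639500), (nat_lit 19173228), (nat_lit 12837379)] (nat_lit 4845085)) p15_19_3 (nat_lit 4) (nat_lit 104) (nat_lit 105) = true := by decide +kernel
def p15_19_3_105 : pfC (piC [(nat_lit 39633164), (nat_lit 25639500), (nat_lit 19173228), (nat_lit 12837379)] (nat_lit 4845085)) p15_19_3 (nat_lit 4) (nat_lit 105) (nat_lit 106) = true := by decide +kernel
def p15_19_3_106 : pfC (piC [(nat_lit 39633164), (nat_lit 25639500), (nat_lit 19173228), (nat_lit 12837379)] (nat_lit 4845085)) p15_19_3 (nat_lit 4) (nat_lit 106) (nat_lit 107) = true := by decide +kernel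
def p15_19_3_107 : pfC (piC [(nat_lit 39633164), (nat_lit 25639500), (nat_lit 19173228), (nat_lit 12837379)] (nat_lit 4845085)) p15_19_3 (nat_lit 4) (nat_lit 107) (nat_lit 108) = true := by decide +kernel
def p15_19_3_108 : pfC (piC [(nat_lit 39633164), (nat_lit 25639500), (nat_lit 19173228), (nat_lit 12837379)] (nat_lit 4845085)) p15_19_3 (nat_lit 4) (nat_lit 108) (nat_lit 109) = true := by decide +kernel
def p15_19_3_109 : pfC (piC [(nat_lit 39633164), (nat_lit 25639500), (nat_lit 19173228), (nat_lit 12837379)] (nat_lit 4845085)) p15_19_3 (nat_lit 4) (nat_lit 109) (nat_lit 110) = true := by decide +kernel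
def p15_19_3_110 : pfC (piC [(nat_lit 39633164), (nat_lit 25639500), (nat_lit 19173228), (nat_lit 12837379)] (nat_lit 4845085)) p15_19_3 (nat_lit 4) (nat_lit 110) (nat_lit 111) = true := by decide +kernel
def p15_19_3_111 : pfC (piC [(nat_lit 39633164), (nat_lit 25639500), (nat_lit 19173228), (nat_lit 12837379)] (nat_lit 4845085)) p15_19_3 (nat_lit 4) (nat_lit 111) (nat_lit 112) = true := by decide +kernel
def p15_19_3_112 : pfC (piC [(nat_lit 39633164), (nat_lit 25639500), (nat_lit 19173228), (nat_lit 12837379)] (nat_lit 4845085)) p15_19_3 (nat_lit 4) (nat_lit 112) (nat_lit 113) = true := by decide +kernel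
def p15_19_3_113 : pfC (piC [(nat_lit 39633164), (nat_lit 25639500), (nat_lit 19173228), (nat_lit 12837379)] (nat_lit 4845085)) p15_19_3 (nat_lit 4) (nat_lit 113) (nat_lit 114) = true := by decide +kernel
def p15_19_3_114 : pfC (piC [(nat_lit 39633164), (nat_lit 25639500), (nat_lit 19173228), (nat_lit 12837379)] (nat_lit 4845085)) p15_19_3 (nat_lit 4) (nat_lit 114) (nat_lit 115) = true := by decide +kernel
def p15_19_3_115 : pfC (piC [(nat_lit 39633164), (nat_lit 25639500), (nat_lit 19173228), (nat_lit 12837379)] (nat_lit 4845085)) p15_19_3 (nat_lit 4) (nat_lit 115) (nat_lit 116) = true := by decide +kernel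
def p15_19_3_116 : pfC (piC [(nat_lit 39633164), (nat_lit 25639500), (nat_lit 19173228), (nat_lit 12837379)] (nat_lit 4845085)) p15_19_3 (nat_lit 4) (nat_lit 116) (nat_lit 117) = true := by decide +kernel
def p15_19_3_117 : pfC (piC [(nat_lit 39633164), (nat_lit 25639500), (nat_lit 19173228), (nat_lit 12837379)] (nat_lit 4845085)) p15_19_3 (nat_lit 4) (nat_lit 117) (nat_lit 118) = true := by decide +kernel
def p15_19_3_118 : pfC (piC [(nat_lit 39633164), (nat_lit 25639500), (nat_lit 19173228), (nat_lit 12837379)] (nat_lit 4845085)) p15_19_3 (nat_lit 4) (nat_lit 118) (nat_lit 119) = true := by decide +kernel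
def p15_19_3_119 : pfC (piC [(nat_lit 39633164), (nat_lit 25639500), (nat_lit 19173228), (nat_lit 12837379)] (nat_lit 4845085)) p15_19_3 (nat_lit 4) (nat_lit 119) (nat_lit 120) = true := by decide +kernel
def p15_19_3_120 : pfC (piC [(nat_lit 39633164), (nat_lit 25639500), (nat_lit 19173228), (nat_lit 12837379)] (nat_lit 4845085)) p15_19_3 (nat_lit 4) (nat_lit 120) (nat_lit 121) = true := by decide +kernel
def p15_19_3_121 : pfC (piC [(nat_lit 39633164), (nat_lit 25639500), (nat_lit 19173228), (nat_lit 12837379)] (nat_lit 4845085)) p15_19_3 (nat_lit 4) (nat_lit 121) (nat_lit 122) = true := by decide +kernel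
def p15_19_3_122 : pfC (piC [(nat_lit 39633164), (nat_lit 25639500), (nat_lit 19173228), (nat_lit 12837379)] (nat_lit 4845085)) p15_19_3 (nat_lit 4) (nat_lit 122) (nat_lit 123) = true := by decide +kernel
def p15_19_3_123 : pfC (piC [(nat_lit 39633164), (nat_lit 25639500), (nat_lit 19173228), (nat_lit 12837379)] (nat_lit 4845085)) p15_19_3 (nat_lit 4) (nat_lit 123) (nat_lit 124) = true := by decide +kernel
def p15_19_3_124 : pfC (piC [(nat_lit 39633164), (nat_lit 25639500), (nat_lit 19173228), (nat_lit 12837379)] (nat_lit 4845085)) p15_19_3 (nat_lit 4) (nat_lit 124) (nat_lit 125) = true := by decide +kernel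
def p15_19_3_125 : pfC (piC [(nat_lit 39633164), (nat_lit 25639500), (nat_lit 19173228), (nat_lit 12837379)] (nat_lit 4845085)) p15_19_3 (nat_lit 4) (nat_lit 125) (nat_lit 126) = true := by decide +kernel
def p15_19_3_126 : pfC (piC [(nat_lit 39633164), (nat_lit 25639500), (nat_lit 19173228), (nat_lit 12837379)] (nat_lit 4845085)) p15_19_3 (nat_lit 4) (nat_lit 126) (nat_lit 127) = true := by decide +kernel
def p15_19_3_127 : pfC (piC [(nat_lit 39633164), (nat_lit 25639500), (nat_lit 19173228), (nat_lit 12837379)] (nat_lit 4845085)) p15_19_3 (nat_lit 4) (nat_lit 127) (nat_lit 128) = true := by decide +kernel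
def p15_19_3_128 : pfC (piC [(nat_lit 39633164), (nat_lit 25639500), (nat_lit 19173228), (nat_lit 12837379)] (nat_lit 4845085)) p15_19_3 (nat_lit 4) (nat_lit 128) (nat_lit 129) = true := by decide +kernel
def p15_19_3_129 : pfC (piC [(nat_lit 39633164), (nat_lit 25639500), (nat_lit 19173228), (nat_lit 12837379)] (nat_lit 4845085)) p15_19_3 (nat_lit 4) (nat_lit 129) (nat_lit 130) = true := by decide +kernel
def p15_19_3_130 : pfC (piC [(nat_lit 39633164), (nat_lit 25639500), (nat_lit 19173228), (nat_lit 12837379)] (nat_lit 4845085)) p15_19_3 (nat_lit 4) (nat_lit 130) (nat_lit 131) = true := by decide +kernel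
def p15_19_3_131 : pfC (piC [(nat_lit 39633164), (nat_lit 25639500), (nat_lit 19173228), (nat_lit 12837379)] (nat_lit 4845085)) p15_19_3 (nat_lit 4) (nat_lit 131) (nat_lit 132) = true := by decide +kernel
def p15_19_3_132 : pfC (piC [(nat_lit 39633164), (nat_lit 25639500), (nat_lit 19173228), (nat_lit 12837379)] (nat_lit 4845085)) p15_19_3 (nat_lit 4) (nat_lit 132) (nat_lit 133) = true := by decide +kernel
def p15_19_3_133 : pfC (piC [(nat_lit 39633164), (nat_lit 25639500), (nat_lit 19173228), (nat_lit 12837379)] (nat_lit 4845085)) p15_19_3 (nat_lit 4) (nat_lit 133) (nat_lit 134) = true := by decide +kernel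
def p15_19_3_134 : pfC (piC [(nat_lit 39633164), (nat_lit 25639500), (nat_lit 19173228), (nat_lit 12837379)] (nat_lit 4845085)) p15_19_3 (nat_lit 4) (nat_lit 134) (nat_lit 135) = true := by decide +kernel
def p15_19_3_135 : pfC (piC [(nat_lit 39633164), (nat_lit 25639500), (nat_lit 19173228), (nat_lit 12837379)] (nat_lit 4845085)) p15_19_3 (nat_lit 4) (nat_lit 135) (nat_lit 136) = true := by decide +kernel
def p15_19_3_136 : pfC (piC [(nat_lit 39633164), (nat_lit 25639500), (nat_lit 19173228), (nat_lit 12837379)] (nat_lit 4845085)) p15_19_3 (nat_lit 4) (nat_lit 136) (nat_lit 137) = true := by decide +kernel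
def p15_19_3_137 : pfC (piC [(nat_lit 39633164), (nat_lit 25639500), (nat_lit 19173228), (nat_lit 12837379)] (nat_lit 4845085)) p15_19_3 (nat_lit 4) (nat_lit 137) (nat_lit 138) = true := by decide +kernel
def p15_19_3_138 : pfC (piC [(nat_lit 39633164), (nat_lit 25639500), (nat_lit 19173228), (nat_lit 12837379)] (nat_lit 4845085)) p15_19_3 (nat_lit 4) (nat_lit 138) (nat_lit 139) = true := by decide +kernel
def p15_19_3_139 : pfC (piC [(nat_lit 39633164), (nat_lit 25639500), (nat_lit 19173228), (nat_lit 12837379)] (nat_lit 4845085)) p15_19_3 (nat_lit 4) (nat_lit 139) (nat_lit 140) = true := by decide +kernel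
def p15_19_3_140 : pfC (piC [(nat_lit 39633164), (nat_lit 25639500), (nat_lit 19173228), (nat_lit 12837379)] (nat_lit 4845085)) p15_19_3 (nat_lit 4) (nat_lit 140) (nat_lit 141) = true := by decide +kernel
def p15_19_3_141 : pfC (piC [(nat_lit 39633164), (nat_lit 25639500), (nat_lit 19173228), (nat_lit 12837379)] (nat_lit 4845085)) p15_19_3 (nat_lit 4) (nat_lit 141) (nat_lit 142) = true := by decide +kernel
def p15_19_3_142 : pfC (piC [(nat_lit 39633164), (nat_lit 25639500), (nat_lit 19173228), (nat_lit 12837379)] (nat_lit 4845085)) p15_19_3 (nat_lit 4) (nat_lit 142) (nat_lit 143) = true := by decide +kernel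
def p15_19_3_143 : pfC (piC [(nat_lit 39633164), (nat_lit 25639500), (nat_lit 19173228), (nat_lit 12837379)] (nat_lit 4845085)) p15_19_3 (nat_lit 4) (nat_lit 143) (nat_lit 144) = true := by decide +kernel
def p15_19_3_144 : pfC (piC [(nat_lit 39633164), (nat_lit 25639500), (nat_lit 19173228), (nat_lit 12837379)] (nat_lit 4845085)) p15_19_3 (nat_lit 4) (nat_lit 144) (nat_lit 145) = true := by decide +kernel
def p15_19_3_145 : pfC (piC [(nat_lit 39633164), (nat_lit 25639500), (nat_lit 19173228), (nat_lit 12837379)] (nat_lit 4845085)) p15_19_3 (nat_lit 4) (nat_lit 145) (nat_lit 146) = true := by decide +kernel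
def p15_19_3_146 : pfC (piC [(nat_lit 39633164), (nat_lit 25639500), (nat_lit 19173228), (nat_lit 12837379)] (nat_lit 4845085)) p15_19_3 (nat_lit 4) (nat_lit 146) (nat_lit 147) = true := by decide +kernel
def p15_19_3_147 : pfC (piC [(nat_lit 39633164), (nat_lit 25639500), (nat_lit 19173228), (nat_lit 12837379)] (nat_lit 4845085)) p15_19_3 (nat_lit 4) (nat_lit 147) (nat_lit 148) = true := by decide +kernel
def p15_19_3_148 : pfC (piC [(nat_lit 39633164), (nat_lit 25639500), (nat_lit 19173228), (nat_lit 12837379)] (nat_lit 4845085)) p15_19_3 (nat_lit 4) (nat_lit 148) (nat_lit 149) = true := by decide +kernel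
def p15_19_3_149 : pfC (piC [(nat_lit 39633164), (nat_lit 25639500), (nat_lit 19173228), (nat_lit 12837379)] (nat_lit 4845085)) p15_19_3 (nat_lit 4) (nat_lit 149) (nat_lit 150) = true := by decide +kernel
def p15_19_3_150 : pfC (piC [(nat_lit 39633164), (nat_lit 25639500), (nat_lit 19173228), (nat_lit 12837379)] (nat_lit 4845085)) p15_19_3 (nat_lit 4) (nat_lit 150) (nat_lit 151) = true := by decide +kernel
def p15_19_3_151 : pfC (piC [(nat_lit 39633164), (nat_lit 25639500), (nat_lit 19173228), (nat_lit 12837379)] (nat_lit 4845085)) p15_19_3 (nat_lit 4) (nat_lit 151) (nat_lit 152) = true := by decide +kernel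
def p15_19_3_152 : pfC (piC [(nat_lit 39633164), (nat_lit 25639500), (nat_lit 19173228), (nat_lit 12837379)] (nat_lit 4845085)) p15_19_3 (nat_lit 4) (nat_lit 152) (nat_lit 153) = true := by decide +kernel
def p15_19_3_153 : pfC (piC [(nat_lit 39633164), (nat_lit 25639500), (nat_lit 19173228), (nat_lit 12837379)] (nat_lit 4845085)) p15_19_3 (nat_lit 4) (nat_lit 153) (nat_lit 154) = true := by decide +kernel
def p15_19_3_154 : pfC (piC [(nat_lit 39633164), (nat_lit 25639500), (nat_lit 19173228), (nat_lit 12837379)] (nat_lit 4845085)) p15_19_3 (nat_lit 4) (nat_lit 154) (nat_lit 155) = true := by decide +kernel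
def p15_19_3_155 : pfC (piC [(nat_lit 39633164), (nat_lit 25639500), (nat_lit 19173228), (nat_lit 12837379)] (nat_lit 4845085)) p15_19_3 (nat_lit 4) (nat_lit 155) (nat_lit 156) = true := by decide +kernel
def p15_19_3_156 : pfC (piC [(nat_lit 39633164), (nat_lit 25639500), (nat_lit 19173228), (nat_lit 12837379)] (nat_lit 4845085)) p15_19_3 (nat_lit 4) (nat_lit 156) (nat_lit 157) = true := by decide +kernel
theorem p15_19_3_T : PfS (PiF n15_19.reverse (nat_lit 4845085)) p15_19_3 (nat_lit 4) [] 0 :=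
  pftab_of (los := [(nat_lit 39633164), (nat_lit 25639500), (nat_lit 19173228), (nat_lit 12837379)]) (by decide +kernel) (hi := (nat_lit 157)) (PfP.trans (PfP.trans (PfP.trans (PfP.trans (PfP.trans (PfP.trans (PfP.trans (PfP.trans (PfP.trans (PfP.trans (PfP.trans (PfP.trans (PfP.trans (PfP.trans (PfP.trans (PfP.trans (PfP.trans (PfP.trans (PfP.trans (PfP.trans (PfP.trans (PfP.trans (PfP.trans (PfP.trans (PfP.trans (PfP.trans (PfP.trans (PfP.trans (PfP.trans (PfP.trans (PfP.trans (PfP.trans (PfP.trans (PfP.trans (PfP.trans (PfP.trans (PfP.trans (PfP.trans (PfP.trans (PfP.trans (PfP.trans (PfP.trans (PfP.trans (PfP.trans (PfP.trans (PfP.trans (PfP.trans (PfP.trans (PfP.trans (PfP.trans (PfP.trans (PfP.trans (PfP.trans (PfP.trans (PfP.trans (PfP.trans (PfP.trans (PfP.trans (PfP.trans (PfP.trans (PfP.trans (PfP.trans (PfP.trans (PfP.trans (PfP.trans (PfP.trans (PfP.trans (PfP.trans (PfP.trans (PfP.trans (PfP.trans (PfP.trans (PfP.trans (PfP.trans (PfP.trans (PfP.trans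 (PfP.trans (PfP.trans (PfP.trans (PfP.trans (PfP.trans (PfP.trans (PfP.trans (PfP.trans (PfP.trans (PfP.trans (PfP.trans (PfP.trans (PfP.trans (PfP.trans (PfP.trans (PfP.trans (PfP.trans (PfP.trans (PfP.trans (PfP.trans (PfP.trans (PfP.trans (PfP.trans (PfP.trans (PfP.trans (PfP.trans (PfP.trans (PfP.trans (PfP.trans (PfP.trans (PfP.trans (PfP.trans (PfP.trans
 (PfP.trans (PfP.trans (PfP.trans (PfP.trans (PfP.trans (PfP.trans (PfP.trans (PfP.trans (PfP.trans (PfP.trans (PfP.trans (PfP.trans (PfP.trans (PfP.trans (PfP.trans (PfP.trans (PfP.trans (PfP.trans (PfP.trans (PfP.trans (PfP.trans (PfP.trans (PfP.trans (PfP.trans (PfP.trans (PfP.trans (PfP.trans (PfP.trans (PfP.trans (PfP.trans (PfP.trans (PfP.trans (PfP.trans (PfP.trans (PfP.trans (PfP.trans (PfP.trans (PfP.trans (PfP.trans (PfP.trans (PfP.trans (PfP.trans (PfP.trans (PfP.trans (PfP.trans (PfP.trans (PfP.trans (pfC_sound p15_19_3_0) (pfC_sound p15_19_3_1)) (pfC_sound p15_19_3_2)) (pfC_sound p15_19_3_3)) (pfC_sound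 p15_19_3_4)) (pfC_sound p15_19_3_5)) (pfC_sound p15_19_3_6)) (pfC_sound p15_19_3_7)) (pfC_sound p15_19_3_8)) (pfC_sound p15_19_3_9)) (pfC_sound p15_19_3_10)) (pfC_sound p15_19_3_11)) (pfC_sound p15_19_3_12)) (pfC_sound p15_19_3_13)) (pfC_sound p15_19_3_14)) (pfC_sound p15_19_3_15)) (pfC_sound p15_19_3_16)) (pfC_sound p15_19_3_17)) (pfC_sound p15_19_3_18)) (pfC_sound p15_19_3_19)) (pfC_sound p15_19_3_20)) (pfC_sound p15_19_3_21)) (pfC_sound p15_19_3_22)) (pfC_sound p15_19_3_23)) (pfC_sound p15_19_3_24)) (pfC_sound p15_19_3_25)) (pfC_sound p15_19_3_26)) (pfC_sound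
 p15_19_3_27)) (pfC_sound p15_19_3_28)) (pfC_sound p15_19_3_29)) (pfC_sound p15_19_3_30)) (pfC_sound p15_19_3_31)) (pfC_sound p15_19_3_32)) (pfC_sound p15_19_3_33)) (pfC_sound p15_19_3_34)) (pfC_sound p15_19_3_35)) (pfC_sound p15_19_3_36)) (pfC_sound p15_19_3_37)) (pfC_sound p15_19_3_38)) (pfC_sound p15_19_3_39)) (pfC_sound p15_19_3_40)) (pfC_sound p15_19_3_41)) (pfC_sound p15_19_3_42)) (pfC_sound p15_19_3_43)) (pfC_sound p15_19_3_44)) (pfC_sound p15_19_3_45)) (pfC_sound p15_19_3_46)) (pfC_sound p15_19_3_47)) (pfC_sound p15_19_3_48)) (pfC_sound p15_19_3_49)) (pfC_sound p15_19_3_50)) (pfC_sound p15_19_3_51)) (pfC_sound p15_19_3_52)) (pfC_sound p15_19_3_53)) (pfC_sound p15_19_3_54)) (pfC_sound p15_19_3_55)) (pfC_sound p15_19_3_56)) (pfC_sound p15_19_3_57)) (pfC_sound p15_19_3_58)) (pfC_sound p15_19_3_59)) (pfC_sound p15_19_3_60)) (pfC_sound p15_19_3_61)) (pfC_sound p15_19_3_62)) (pfC_sound p15_19_3_63)) (pfC_sound p15_19_3_64)) (pfC_sound p15_19_3_65)) (pfC_sound p15_19_3_66))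 (pfC_sound p15_19_3_67)) (pfC_sound p15_19_3_68)) (pfC_sound p15_19_3_69)) (pfC_sound p15_19_3_70)) (pfC_sound p15_19_3_71)) (pfC_sound p15_19_3_72)) (pfC_sound p15_19_3_73)) (pfC_sound p15_19_3_74)) (pfC_sound
 p15_19_3_75)) (pfC_sound p15_19_3_76)) (pfC_sound p15_19_3_77)) (pfC_sound p15_19_3_78)) (pfC_sound p15_19_3_79)) (pfC_sound p15_19_3_80)) (pfC_sound p15_19_3_81)) (pfC_sound p15_19_3_82)) (pfC_sound p15_19_3_83)) (pfC_sound p15_19_3_84)) (pfC_sound p15_19_3_85)) (pfC_sound p15_19_3_86)) (pfC_sound p15_19_3_87)) (pfC_sound p15_19_3_88)) (pfC_sound p15_19_3_89)) (pfC_sound p15_19_3_90)) (pfC_sound p15_19_3_91)) (pfC_sound p15_19_3_92)) (pfC_sound p15_19_3_93)) (pfC_sound p15_19_3_94)) (pfC_sound p15_19_3_95)) (pfC_sound p15_19_3_96)) (pfC_sound p15_19_3_97)) (pfC_sound p15_19_3_98)) (pfC_sound p15_19_3_99)) (pfC_sound p15_19_3_100)) (pfC_sound p15_19_3_101)) (pfC_sound p15_19_3_102)) (pfC_sound p15_19_3_103)) (pfC_sound p15_19_3_104)) (pfC_sound p15_19_3_105))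 (pfC_sound p15_19_3_106)) (pfC_sound p15_19_3_107)) (pfC_sound p15_19_3_108)) (pfC_sound p15_19_3_109)) (pfC_sound p15_19_3_110)) (pfC_sound p15_19_3_111)) (pfC_sound p15_19_3_112)) (pfC_sound p15_19_3_113)) (pfC_sound p15_19_3_114)) (pfC_sound p15_19_3_115)) (pfC_sound p15_19_3_116)) (pfC_sound p15_19_3_117)) (pfC_sound p15_19_3_118)) (pfC_sound p15_19_3_119)) (pfC_sound p15_19_3_120)) (pfC_sound p15_19_3_121)) (pfC_sound
 p15_19_3_122)) (pfC_sound p15_19_3_123)) (pfC_sound p15_19_3_124)) (pfC_sound p15_19_3_125)) (pfC_sound p15_19_3_126)) (pfC_sound p15_19_3_127)) (pfC_sound p15_19_3_128)) (pfC_sound p15_19_3_129)) (pfC_sound p15_19_3_130)) (pfC_sound p15_19_3_131)) (pfC_sound p15_19_3_132)) (pfC_sound p15_19_3_133)) (pfC_sound p15_19_3_134)) (pfC_sound p15_19_3_135)) (pfC_sound p15_19_3_136)) (pfC_sound p15_19_3_137)) (pfC_sound p15_19_3_138)) (pfC_sound p15_19_3_139)) (pfC_sound p15_19_3_140)) (pfC_sound p15_19_3_141)) (pfC_sound p15_19_3_142)) (pfC_sound p15_19_3_143))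 (pfC_sound p15_19_3_144)) (pfC_sound p15_19_3_145)) (pfC_sound p15_19_3_146)) (pfC_sound p15_19_3_147)) (pfC_sound p15_19_3_148)) (pfC_sound p15_19_3_149)) (pfC_sound p15_19_3_150)) (pfC_sound p15_19_3_151)) (pfC_sound p15_19_3_152)) (pfC_sound p15_19_3_153)) (pfC_sound p15_19_3_154)) (pfC_sound p15_19_3_155)) (pfC_sound p15_19_3_156)) (by decide +kernel)

def z15_19_3 : zOK yB15_19 (nat_lit 3) (nat_lit 750) (nat_lit 867) (nat_lit 4845085) (nat_lit 3710638) = true := by decide +kernel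
def g15_19_3 : gOK yB15_19.x P15_19 (nat_lit 1417) (q15_19 :: r15_19) (nat_lit 3) (nat_lit 750) (nat_lit 4) (nat_lit 867) (nat_lit 12712500) (nat_lit 12712500) (nat_lit 12712500) (nat_lit 12712500) [(nat_lit 800)] = true := by decide +kernel
def v15_19_3 : ivC P15_19 s15_19 w15_19 n15_19 (nat_lit 4) (nat_lit 4660) (nat_lit 3) (nat_lit 750) f152_1_750 f160_1_750 (nat_lit 4) (nat_lit 867) f152_1_867 f160_1_867 (nat_lit 4845085) (nat_lit 3710638) p15_19_3 = true := by decide +kernel
end CB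
end Pool.Agent.Lib.MP_6947cd_al
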