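import Pool.Agent.Lib.MP_6947cd_al.L.BoxDataB
import Pool.Agent.Lib.MP_6947cd_al.L.TeD3
import Pool.Agent.Lib.MP_6947cd_al.L.TeD4

/-!
Problem MP_6947cd_al (Chollet).  CASE B, rows `j`: boxes (generated).
-/

set_option autoImplicit false
set_option linter.defProp false
set_option maxRecDepth 20000

namespace Pool.Agent.Lib.MP_6947cd_al
namespace CB

open Ent Ent.Pk Fr Fr.WT CA

/-! box `yB15_20` -/

def P15_20 : BQ := ⟨(nat_lit 8), (nat_lit 1), (nat_lit 7), (nat_lit 0), (nat_lit 8), (nat_lit 795), (nat_lit 800), (nat_lit 120), [(nat_lit 200), (nat_lit 300), (nat_lit 450), (nat_lit 800)], (nat_lit 111824000), (nat_lit 16000000), (nat_lit 16000000000)⟩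
def q15_20 : PC := ⟨(nat_lit 1000), [(nat_lit 120000), (nat_lit 200000), (nat_lit 300000), (nat_lit 450000), (nat_lit 800000)], (nat_lit 340282367000166625996085689103316680705000000), (nat_lit 15888176000000), (nat_lit 15888176000000), (nat_lit 10000000)⟩
def r15_20 : List PC := [⟨(nat_lit 1295), [(nat_lit 120569), (nat_lit 200991), (nat_lit 301256), (nat_lit 451233), (nat_lit 800168)], (nat_lit 342198156726419555026554628941318033081584754), (nat_lit 16286532672800), (nat_lit 16289158550400), (nat_lit 10049550)⟩, ⟨(nat_lit 1404), [(nat_lit 120820), (nat_lit 201393), (nat_lit 301758), (nat_lit 452231), (nat_lit 802449)], (nat_lit 342920235909195413941997294699082995932811317), (nat_lit 16433574399360), (nat_lit 16437170516480), (nat_lit 10069650)⟩, ⟨(nat_lit 1262), [(nat_lit 120527), (nat_lit 200862), (nat_lit 301158), (nat_lit 450895), (nat_lit 799655)], (nat_lit 341972209234737782639897449797022340508240719), (nat_lit 16242036150080), (nat_lit 16244368285440), (nat_lit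 10043917)⟩]
def s15_20 : List PB := [⟨(nat_lit 25900), (nat_lit 1929104000000), [(nat_lit 200991), (nat_lit 301256), (nat_lit 451233), (nat_lit 800168)], (nat_lit 342198156726419555026554628941318033081584754), (nat_lit 1142186439515424), (nat_lit 1142189065393024), (nat_lit 47200)⟩, ⟨(nat_lit 28080), (nat_lit 1933120000000), [(nat_lit 201393), (nat_lit 301758), (nat_lit 452231), (nat_lit 802449)], (nat_lit 342920235909195413941997294699082995932811317), (nat_lit 1142333481241984), (nat_lit 1142337077359104), (nat_lit 64640)⟩, ⟨(nat_lit 25240), (nat_lit 1928432000000), [(nat_lit 200862), (nat_lit 301158), (nat_lit 450895), (nat_lit 799655)], (nat_lit 341972209234737782639897449797022340508240719), (nat_lit 1142141942992704), (nat_lit 1142144275128064), (nat_lit 41920)⟩]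
def n15_20 : List KN := [⟨(nat_lit 800), (nat_lit 450), (nat_lit 12801343), (nat_lit 5395682)⟩, ⟨(nat_lit 450), (nat_lit 300), (nat_lit 19038091), (nat_lit 12801343)⟩, ⟨(nat_lit 300), (nat_lit 200), (nat_lit 25510466), (nat_lit 19038091)⟩, ⟨(nat_lit 200), (nat_lit 120), (nat_lit 39120232), (nat_lit 25510466)⟩]
def w15_20 : List ℕ := [(nat_lit 47200), (nat_lit 64640), (nat_lit 41920)]
def par15_20 : parC yB15_20 P15_20 s15_20 r15_20 q15_20 n15_20 w15_20 = true := by decide +kernel

def p15_20_0 : PF := (PF.cons (PF.cons (PF.cons (PF.cons (PF.leaf (nat_lit 779422) (nat_lit 2433723) (nat_lit 64675089) (nat_lit 2433723) [(nat_lit 0), (nat_lit 0), (nat_lit 0), (nat_lit 0)]) (PF.cons (PF.leaf (nat_lit 923265) (nat_lit 226943) (nat_lit 64390343) (nat_lit 2491525) [(nat_lit 226943), (nat_lit 0), (nat_lit 0), (nat_lit 0)]) (PF.cons (PF.leaf (nat_lit 1098186) (nat_lit 250833) (nat_lit 64051717) (nat_lit 2555427) [(nat_lit 250833), (nat_lit 0), (nat_lit 0), (nat_lit 0)]) (PF.cons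 (PF.leaf (nat_lit 1298548) (nat_lit 273202) (nat_lit 63666509) (nat_lit 2622696) [(nat_lit 273202), (nat_lit 0), (nat_lit 0), (nat_lit 0)]) (PF.cons (PF.leaf (nat_lit 1521941) (nat_lit 294367) (nat_lit 63239890) (nat_lit 2691452) [(nat_lit 294367), (nat_lit 0), (nat_lit 0), (nat_lit 0)]) (PF.cons (PF.leaf (nat_lit 1766643) (nat_lit 314497) (nat_lit 62775977) (nat_lit 2760347) [(nat_lit 314497), (nat_lit 0), (nat_lit 0), (nat_lit 0)]) (PF.cons (PF.leaf (nat_lit 2030858) (nat_lit 333687) (nat_lit 62278297) (nat_lit 2828393) [(nat_lit 333687), (nat_lit 0), (nat_lit 0), (nat_lit 0)]) (PF.cons (PF.leaf (nat_lit 2313123) (nat_lit 351990) (nat_lit 61750024) (nat_lit 2894852) [(nat_lit 351990), (nat_lit 0), (nat_lit 0),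
 (nat_lit 0)]) (PF.cons (PF.leaf (nat_lit 2612074) (nat_lit 369442) (nat_lit 61194094) (nat_lit 2959176) [(nat_lit 369442), (nat_lit 0), (nat_lit 0), (nat_lit 0)]) (PF.cons PF.nil (PF.cons PF.nil (PF.cons PF.nil PF.nil)))))))))))) (PF.cons (PF.cons (PF.leaf (nat_lit 1302250) (nat_lit 1095123) (nat_lit 63354453) (nat_lit 2659235) [(nat_lit 0), (nat_lit 1095123), (nat_lit 0), (nat_lit 0)]) (PF.cons (PF.leaf (nat_lit 1500912) (nat_lit 289270) (nat_lit 62962355) (nat_lit 2719598) [(nat_lit 289270), (nat_lit 1137589), (nat_lit 0), (nat_lit 0)]) (PF.cons (PF.leaf (nat_lit 1724924) (nat_lit 309793) (nat_lit 62526805) (nat_lit 2781913) [(nat_lit 309793), (nat_lit 1180507), (nat_lit 0), (nat_lit 0)]) (PF.cons (PF.leaf (nat_lit 1970579) (nat_lit 329215) (nat_lit 62053407) (nat_lit 2844689) [(nat_lit 329215), (nat_lit 1223069), (nat_lit 0), (nat_lit 0)]) (PF.cons (PF.leaf (nat_lit 2235759) (nat_lit 347665) (nat_lit 61546513) (nat_lit 2906870) [(nat_lit 347665), (nat_lit 1264765),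 (nat_lit 0), (nat_lit 0)]) (PF.cons (PF.leaf (nat_lit 2518775) (nat_lit 365217) (nat_lit 61009780) (nat_lit 2967694) [(nat_lit 365217), (nat_lit 1305251), (nat_lit 0), (nat_lit 0)]) (PF.cons (PF.leaf (nat_lit
 2818062) (nat_lit 381914) (nat_lit 60446439) (nat_lit 3026595) [(nat_lit 381914), (nat_lit 1344291), (nat_lit 0), (nat_lit 0)]) (PF.cons (PF.leaf (nat_lit 3132177) (nat_lit 397786) (nat_lit 59859427) (nat_lit 3083159) [(nat_lit 397786), (nat_lit 1381722), (nat_lit 0), (nat_lit 0)]) (PF.cons PF.nil (PF.cons PF.nil PF.nil)))))))))) (PF.cons (PF.cons (PF.leaf (nat_lit 1934154) (nat_lit 1230497) (nat_lit 61781729) (nat_lit 2866088) [(nat_lit 0), (nat_lit 1230497), (nat_lit 0), (nat_lit 0)]) (PF.cons (PF.leaf (nat_lit 2177704) (nat_lit 342528) (nat_lit 61304793) (nat_lit 2922810) [(nat_lit 342528), (nat_lit 1269340), (nat_lit 0), (nat_lit 0)]) (PF.cons (PF.leaf (nat_lit 2442182) (nat_lit 360378) (nat_lit 60793461) (nat_lit 2979294) [(nat_lit 360378), (nat_lit 1307650),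 (nat_lit 0), (nat_lit 0)]) (PF.cons (PF.leaf (nat_lit 2724643) (nat_lit 377283) (nat_lit 60252269) (nat_lit 3034697) [(nat_lit 377283), (nat_lit 1344997), (nat_lit 0), (nat_lit 0)]) (PF.cons (PF.leaf (nat_lit 3023232) (nat_lit 393312) (nat_lit 59684956) (nat_lit 3088417) [(nat_lit 393312), (nat_lit 1381094), (nat_lit 0), (nat_lit 0)]) (PF.cons (PF.leaf (nat_lit 3336378) (nat_lit 408506) (nat_lit 59094766) (nat_lit
 3140019) [(nat_lit 408506), (nat_lit 1415746), (nat_lit 0), (nat_lit 0)]) (PF.cons (PF.leaf (nat_lit 3662681) (nat_lit 422896) (nat_lit 58484602) (nat_lit 3189188) [(nat_lit 422896), (nat_lit 1448821), (nat_lit 0), (nat_lit 0)]) (PF.cons PF.nil (PF.cons PF.nil PF.nil))))))))) (PF.cons (PF.cons (PF.leaf (nat_lit 2651669) (nat_lit 1347541) (nat_lit 60020055) (nat_lit 3046131) [(nat_lit 0), (nat_lit 1347541), (nat_lit 0), (nat_lit 0)]) (PF.cons (PF.leaf (nat_lit 2931331) (nat_lit 388218) (nat_lit 59478750) (nat_lit 3096277) [(nat_lit 388218), (nat_lit 1381855),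 (nat_lit 0), (nat_lit 0)]) (PF.cons (PF.leaf (nat_lit 3228012) (nat_lit 403669) (nat_lit 58911061) (nat_lit 3145019) [(nat_lit 403669), (nat_lit 1415130), (nat_lit 0), (nat_lit 0)]) (PF.cons (PF.leaf (nat_lit 3539255) (nat_lit 418261) (nat_lit 58320752) (nat_lit 3191883) [(nat_lit 418261), (nat_lit 1447130), (nat_lit 0), (nat_lit 0)]) (PF.cons (PF.leaf (nat_lit 3863465) (nat_lit 432038) (nat_lit 57711032) (nat_lit 3236532) [(nat_lit 432038), (nat_lit 1477698), (nat_lit 0), (nat_lit 0)]) (PF.cons PF.nil (PF.cons PF.nil PF.nil))))))) (PF.cons (PF.cons (PF.leaf (nat_lit 3433529) (nat_lit 1446603) (nat_lit 58125645) (nat_lit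
 3196752) [(nat_lit 0), (nat_lit 1446603), (nat_lit 0), (nat_lit 0)]) (PF.cons (PF.leaf (nat_lit 3741229) (nat_lit 427072) (nat_lit 57538446) (nat_lit 3239074) [(nat_lit 427072), (nat_lit 1476054), (nat_lit 0), (nat_lit 0)]) (PF.cons (PF.leaf (nat_lit 4062484) (nat_lit 440305) (nat_lit 56931884) (nat_lit 3279415) [(nat_lit 440305), (nat_lit 1504225), (nat_lit 0), (nat_lit 0)]) (PF.cons (PF.leaf (nat_lit 4395243) (nat_lit 452745) (nat_lit 56309095) (nat_lit 3317517) [(nat_lit 452745), (nat_lit 1530990), (nat_lit 0), (nat_lit 0)]) (PF.cons PF.nil PF.nil))))) (PF.cons (PF.cons (PF.leaf (nat_lit 4260670) (nat_lit 1528554) (nat_lit 56147922) (nat_lit 3318116) [(nat_lit 0), (nat_lit 1528554), (nat_lit 0), (nat_lit 0)]) (PF.cons (PF.leaf (nat_lit 4589185) (nat_lit 459664) (nat_lit 55531041) (nat_lit 3352324) [(nat_lit 459664), (nat_lit 1553156), (nat_lit 0), (nat_lit 0)]) (PF.cons (PF.leaf (nat_lit 4928237) (nat_lit 470846) (nat_lit 54900818) (nat_lit 3384323) [(nat_lit 470846),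 (nat_lit 1576395), (nat_lit 0), (nat_lit 0)]) (PF.cons PF.nil PF.nil)))) (PF.cons (PF.cons (PF.leaf (nat_lit 5116500) (nat_lit 1594647) (nat_lit 54129030) (nat_lit 3411896) [(nat_lit 0), (nat_lit 1594647),
 (nat_lit 0), (nat_lit 0)]) (PF.cons PF.nil PF.nil)) (PF.cons PF.nil (PF.cons PF.nil PF.nil))))))))) (PF.cons (PF.cons (PF.cons (PF.leaf (nat_lit 1912559) (nat_lit 2885721) (nat_lit 61119272) (nat_lit 2885721) [(nat_lit 0), (nat_lit 0), (nat_lit 3103818), (nat_lit 0)]) (PF.cons (PF.leaf (nat_lit 2129567) (nat_lit 327443) (nat_lit 60691540) (nat_lit 2935358) [(nat_lit 327443), (nat_lit 0), (nat_lit 3154470), (nat_lit 0)]) (PF.cons (PF.leaf (nat_lit 2370915) (nat_lit 347004) (nat_lit 60222250) (nat_lit 2986182) [(nat_lit 347004), (nat_lit 0), (nat_lit 3206372), (nat_lit 0)]) (PF.cons (PF.leaf (nat_lit 2632451) (nat_lit 365163) (nat_lit 59718065) (nat_lit 3036981) [(nat_lit 365163), (nat_lit 0), (nat_lit 3258277), (nat_lit 0)]) (PF.cons (PF.leaf (nat_lit 2911887) (nat_lit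 382144) (nat_lit 59184004) (nat_lit 3086917) [(nat_lit 382144), (nat_lit 0), (nat_lit 3309312), (nat_lit 0)]) (PF.cons (PF.leaf (nat_lit 3207309) (nat_lit 398087) (nat_lit 58624136) (nat_lit 3135390) [(nat_lit 398087), (nat_lit 0), (nat_lit 3358849), (nat_lit 0)]) (PF.cons (PF.leaf (nat_lit 3517052) (nat_lit 413082) (nat_lit 58041919) (nat_lit 3181965) [(nat_lit 413082), (nat_lit 0), (nat_lit 3406434), (nat_lit 0)])
 (PF.cons (PF.leaf (nat_lit 3839614) (nat_lit 427192) (nat_lit 57440396) (nat_lit 3226331) [(nat_lit 427192), (nat_lit 0), (nat_lit 3451735), (nat_lit 0)]) (PF.cons PF.nil (PF.cons PF.nil PF.nil)))))))))) (PF.cons (PF.cons (PF.leaf (nat_lit 2580174) (nat_lit 1338003) (nat_lit 59446054) (nat_lit 3051308) [(nat_lit 0), (nat_lit 1338003), (nat_lit 3273446), (nat_lit 0)]) (PF.cons (PF.leaf (nat_lit 2837543) (nat_lit 375640) (nat_lit 58944959) (nat_lit 3096977) [(nat_lit 375640), (nat_lit 1371173), (nat_lit 3320061), (nat_lit 0)]) (PF.cons (PF.leaf (nat_lit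 3114266) (nat_lit 392147) (nat_lit 58412675) (nat_lit 3142100) [(nat_lit 392147), (nat_lit 1403622), (nat_lit 3366119), (nat_lit 0)]) (PF.cons (PF.leaf (nat_lit 3407297) (nat_lit 407561) (nat_lit 57854182) (nat_lit 3186008) [(nat_lit 407561), (nat_lit 1435014), (nat_lit 3410925), (nat_lit 0)]) (PF.cons (PF.leaf (nat_lit 3714718) (nat_lit 421998) (nat_lit 57273461) (nat_lit 3228232) [(nat_lit 421998), (nat_lit 1465133), (nat_lit 3453990), (nat_lit 0)]) (PF.cons (PF.leaf (nat_lit 4034883) (nat_lit 435539) (nat_lit 56673863) (nat_lit 3268442) [(nat_lit 435539), (nat_lit 1493840), (nat_lit 3494969), (nat_lit 0)]) (PF.cons PF.nil (PF.cons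
 PF.nil (PF.cons PF.nil PF.nil))))))))) (PF.cons (PF.cons (PF.leaf (nat_lit 3318938) (nat_lit 1435085) (nat_lit 57627876) (nat_lit 3192670) [(nat_lit 0), (nat_lit 1435085), (nat_lit 3418096), (nat_lit 0)]) (PF.cons (PF.leaf (nat_lit 3607592) (nat_lit 416033) (nat_lit 57074555) (nat_lit 3232156) [(nat_lit 416033), (nat_lit 1463874), (nat_lit 3458318), (nat_lit 0)]) (PF.cons (PF.leaf (nat_lit 3911603) (nat_lit 430003) (nat_lit 56498393) (nat_lit 3270205) [(nat_lit 430003), (nat_lit 1491579), (nat_lit 3497047), (nat_lit 0)]) (PF.cons (PF.leaf (nat_lit 4228515) (nat_lit 443047) (nat_lit 55903268) (nat_lit 3306451) [(nat_lit 443047), (nat_lit 1518024), (nat_lit 3533902), (nat_lit 0)]) (PF.cons (PF.leaf (nat_lit 4556714) (nat_lit 455238) (nat_lit 55292404) (nat_lit 3340640) [(nat_lit 455238), (nat_lit 1543096), (nat_lit 3568621), (nat_lit 0)]) (PF.cons PF.nil (PF.cons PF.nil PF.nil))))))) (PF.cons (PF.cons (PF.leaf (nat_lit 4108824) (nat_lit 1515884) (nat_lit 55717122) (nat_lit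 3308154) [(nat_lit 0), (nat_lit 1515884), (nat_lit 3535883), (nat_lit 0)]) (PF.cons (PF.leaf (nat_lit 4421010) (nat_lit 449727) (nat_lit 55129209) (nat_lit 3340609) [(nat_lit 449727), (nat_lit 1540156), (nat_lit
 3568797), (nat_lit 0)]) (PF.cons (PF.leaf (nat_lit 4745196) (nat_lit 461475) (nat_lit 54525292) (nat_lit 3371212) [(nat_lit 461475), (nat_lit 1563191), (nat_lit 3599781), (nat_lit 0)]) (PF.cons (PF.leaf (nat_lit 5079324) (nat_lit 472410) (nat_lit 53908449) (nat_lit 3399774) [(nat_lit 472410), (nat_lit 1584904), (nat_lit 3628641), (nat_lit 0)]) (PF.cons PF.nil PF.nil))))) (PF.cons (PF.cons (PF.leaf (nat_lit 4932706) (nat_lit 1581454) (nat_lit 53757324) (nat_lit 3398341) [(nat_lit 0), (nat_lit 1581454), (nat_lit 3627329), (nat_lit 0)]) (PF.cons (PF.leaf (nat_lit 5261791) (nat_lit 477500) (nat_lit 53149450) (nat_lit 3423679) [(nat_lit 477500), (nat_lit 1601337), (nat_lit 3652832), (nat_lit 0)]) (PF.cons PF.nil (PF.cons PF.nil PF.nil)))) (PF.cons (PF.cons (PF.leaf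 (nat_lit 5776150) (nat_lit 1633113) (nat_lit 51784020) (nat_lit 3464988) [(nat_lit 0), (nat_lit 1633113), (nat_lit 3694236), (nat_lit 0)]) (PF.cons PF.nil PF.nil)) (PF.cons PF.nil (PF.cons PF.nil PF.nil)))))))) (PF.cons (PF.cons (PF.cons (PF.leaf (nat_lit 3223312) (nat_lit 3189597) (nat_lit 57087311) (nat_lit 3189597) [(nat_lit 0), (nat_lit 0), (nat_lit 3415951), (nat_lit 0)]) (PF.cons (PF.leaf (nat_lit 3490192) (nat_lit
 402495) (nat_lit 56574965) (nat_lit 3225874) [(nat_lit 402495), (nat_lit 0), (nat_lit 3452738), (nat_lit 0)]) (PF.cons (PF.leaf (nat_lit 3774961) (nat_lit 417713) (nat_lit 56034541) (nat_lit 3261382) [(nat_lit 417713), (nat_lit 0), (nat_lit 3488731), (nat_lit 0)]) (PF.cons (PF.leaf (nat_lit 4074563) (nat_lit 431732) (nat_lit 55471233) (nat_lit 3295599) [(nat_lit 431732), (nat_lit 0), (nat_lit 3523390), (nat_lit 0)]) (PF.cons (PF.leaf (nat_lit 4386984) (nat_lit 444711) (nat_lit 54889111) (nat_lit 3328167) [(nat_lit 444711), (nat_lit 0), (nat_lit 3556343),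 (nat_lit 0)]) (PF.cons (PF.leaf (nat_lit 4710551) (nat_lit 456758) (nat_lit 54291515) (nat_lit 3358840) [(nat_lit 456758), (nat_lit 0), (nat_lit 3587332), (nat_lit 0)]) (PF.cons PF.nil (PF.cons PF.nil (PF.cons PF.nil PF.nil))))))))) (PF.cons (PF.cons (PF.leaf (nat_lit 3972709) (nat_lit 1502227) (nat_lit 55254418) (nat_lit 3298649) [(nat_lit 0), (nat_lit 1502227), (nat_lit 3526758), (nat_lit 0)]) (PF.cons (PF.leaf (nat_lit 4266733) (nat_lit 438116) (nat_lit 54700175) (nat_lit 3329152) [(nat_lit 438116), (nat_lit 1526225), (nat_lit 3557571), (nat_lit 0)]) (PF.cons (PF.leaf (nat_lit 4574624) (nat_lit 450728) (nat_lit 54126216)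
 (nat_lit 3358221) [(nat_lit 450728), (nat_lit 1549126), (nat_lit 3586895), (nat_lit 0)]) (PF.cons (PF.leaf (nat_lit 4893964) (nat_lit 462373) (nat_lit 53536416) (nat_lit 3385583) [(nat_lit 462373), (nat_lit 1570802), (nat_lit 3614444), (nat_lit 0)]) (PF.cons (PF.leaf (nat_lit 5223153) (nat_lit 473148) (nat_lit 52933927) (nat_lit 3411052) [(nat_lit 473148), (nat_lit 1591178), (nat_lit 3640029), (nat_lit 0)]) (PF.cons PF.nil (PF.cons PF.nil PF.nil))))))) (PF.cons (PF.cons (PF.leaf (nat_lit 4762391) (nat_lit 1567483) (nat_lit 53361024) (nat_lit 3384934) [(nat_lit 0), (nat_lit 1567483), (nat_lit 3613943), (nat_lit 0)]) (PF.cons (PF.leaf (nat_lit 5076178) (nat_lit 467260) (nat_lit 52781339) (nat_lit 3409143) [(nat_lit 467260), (nat_lit 1587314), (nat_lit 3638220), (nat_lit 0)]) (PF.cons (PF.leaf (nat_lit 5400576) (nat_lit 477682) (nat_lit 52188453) (nat_lit 3431636) [(nat_lit 477682), (nat_lit 1605966), (nat_lit 3660713), (nat_lit 0)]) (PF.cons PF.nil (PF.cons PF.nil PF.nil)))))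 (PF.cons (PF.cons (PF.leaf (nat_lit 5577033) (nat_lit 1619223) (nat_lit 51444916) (nat_lit 3449383) [(nat_lit 0), (nat_lit 1619223), (nat_lit 3678421), (nat_lit 0)]) (PF.cons (PF.leaf (nat_lit 5904482) (nat_lit
 490850) (nat_lit 50852823) (nat_lit 3467372) [(nat_lit 490850), (nat_lit 1635100), (nat_lit 3696231), (nat_lit 0)]) (PF.cons PF.nil (PF.cons PF.nil PF.nil)))) (PF.cons (PF.cons (PF.leaf (nat_lit 6404123) (nat_lit 1658794) (nat_lit 49535735) (nat_lit 3493798) [(nat_lit 0), (nat_lit 1658794), (nat_lit 3722050), (nat_lit 0)]) (PF.cons PF.nil PF.nil)) (PF.cons PF.nil PF.nil)))))) (PF.cons (PF.cons (PF.cons (PF.leaf (nat_lit 4607976) (nat_lit 3371734) (nat_lit 52934580) (nat_lit 3371734) [(nat_lit 0), (nat_lit 0), (nat_lit 3600832), (nat_lit 0)]) (PF.cons (PF.leaf (nat_lit 4904499) (nat_lit 455357) (nat_lit 52387610) (nat_lit 3394664) [(nat_lit 455357), (nat_lit 0), (nat_lit 3623726), (nat_lit 0)]) (PF.cons (PF.leaf (nat_lit 5213612) (nat_lit 466734) (nat_lit 51823630)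 (nat_lit 3416199) [(nat_lit 466734), (nat_lit 0), (nat_lit 3645171), (nat_lit 0)]) (PF.cons (PF.leaf (nat_lit 5532948) (nat_lit 477123) (nat_lit 51246429) (nat_lit 3436137) [(nat_lit 477123), (nat_lit 0), (nat_lit 3664958), (nat_lit 0)]) (PF.cons (PF.leaf (nat_lit 5860894) (nat_lit 486639) (nat_lit 50659036) (nat_lit 3454350) [(nat_lit 486639), (nat_lit 0), (nat_lit 3682955), (nat_lit 0)]) PF.nil))))) (PF.cons (PF.cons
 (PF.leaf (nat_lit 5391356) (nat_lit 1604531) (nat_lit 51082647) (nat_lit 3433755) [(nat_lit 0), (nat_lit 1604531), (nat_lit 3662626), (nat_lit 0)]) (PF.cons (PF.leaf (nat_lit 5704525) (nat_lit 480505) (nat_lit 50517515) (nat_lit 3451087) [(nat_lit 480505), (nat_lit 1620562), (nat_lit 3679714), (nat_lit 0)]) (PF.cons (PF.leaf (nat_lit 6027151) (nat_lit 489748) (nat_lit 49941488) (nat_lit 3466845) [(nat_lit 489748), (nat_lit 1635482), (nat_lit 3695166), (nat_lit 0)]) (PF.cons PF.nil PF.nil)))) (PF.cons (PF.cons (PF.leaf (nat_lit 6192568) (nat_lit 1644617)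 (nat_lit 49227776) (nat_lit 3477005) [(nat_lit 0), (nat_lit 1644617), (nat_lit 3704931), (nat_lit 0)]) (PF.cons (PF.leaf (nat_lit 6516802) (nat_lit 500475) (nat_lit 48655996) (nat_lit 3488924) [(nat_lit 500475), (nat_lit 1657104), (nat_lit 3716401), (nat_lit 0)]) PF.nil)) (PF.cons PF.nil (PF.cons PF.nil PF.nil))))) (PF.cons (PF.cons (PF.cons (PF.leaf (nat_lit 5994294) (nat_lit 3460045) (nat_lit 48898060) (nat_lit 3460045) [(nat_lit 0), (nat_lit 0), (nat_lit 3687676), (nat_lit 0)]) (PF.cons (PF.leaf (nat_lit 6305186) (nat_lit 490168) (nat_lit 48351754) (nat_lit 3471665) [(nat_lit 490168), (nat_lit 0), (nat_lit 3698806), (nat_lit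
 0)]) (PF.cons (PF.leaf (nat_lit 6624582) (nat_lit 498371) (nat_lit 47796434) (nat_lit 3481851) [(nat_lit 498371), (nat_lit 0), (nat_lit 3708446), (nat_lit 0)]) (PF.cons PF.nil PF.nil)))) (PF.cons (PF.cons (PF.leaf (nat_lit 6779233) (nat_lit 1659923) (nat_lit 47115677) (nat_lit 3485902) [(nat_lit 0), (nat_lit 1659923), (nat_lit 3711827), (nat_lit 0)]) (PF.cons PF.nil PF.nil)) (PF.cons PF.nil PF.nil))) (PF.cons (PF.cons (PF.cons (PF.leaf (nat_lit 7337662) (nat_lit 3479912) (nat_lit 45113083) (nat_lit 3479912) [(nat_lit 0), (nat_lit 0), (nat_lit 3703163), (nat_lit 0)]) (PF.cons PF.nil PF.nil)) (PF.cons PF.nil PF.nil)) (PF.cons PF.nil (PF.cons PF.nil PF.nil)))))))) (PF.cons (PF.cons (PF.cons (PF.cons (PF.leaf (nat_lit 3104737) (nat_lit 3102201) (nat_lit 54483429) (nat_lit 3102201) [(nat_lit 0), (nat_lit 0), (nat_lit 0), (nat_lit 9523181)]) (PF.cons (PF.leaf (nat_lit 3328403) (nat_lit 361651) (nat_lit 54073655) (nat_lit 3135163) [(nat_lit 361651), (nat_lit 0), (nat_lit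 0), (nat_lit 9538342)]) (PF.cons (PF.leaf (nat_lit 3574292) (nat_lit 379960) (nat_lit 53628281) (nat_lit 3168292) [(nat_lit 379960), (nat_lit 0), (nat_lit 0), (nat_lit 9552318)]) (PF.cons (PF.leaf (nat_lit 3838144)
 (nat_lit 396448) (nat_lit 53154245) (nat_lit 3200788) [(nat_lit 396448), (nat_lit 0), (nat_lit 0), (nat_lit 9564433)]) (PF.cons (PF.leaf (nat_lit 4117371) (nat_lit 411453) (nat_lit 52656679) (nat_lit 3232123) [(nat_lit 411453), (nat_lit 0), (nat_lit 0), (nat_lit 9574194)]) (PF.cons (PF.leaf (nat_lit 4409901) (nat_lit 425199) (nat_lit 52139633) (nat_lit 3261940) [(nat_lit 425199), (nat_lit 0), (nat_lit 0), (nat_lit 9581242)]) (PF.cons (PF.leaf (nat_lit 4714078) (nat_lit 437842) (nat_lit 51606436) (nat_lit 3290002) [(nat_lit 437842), (nat_lit 0), (nat_lit 0), (nat_lit 9585317)]) (PF.cons (PF.leaf (nat_lit 5028360) (nat_lit 449501) (nat_lit 51059914) (nat_lit 3316151) [(nat_lit 449501), (nat_lit 0), (nat_lit 0), (nat_lit 9586238)]) (PF.cons (PF.leaf (nat_lit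 5351511) (nat_lit 460265) (nat_lit 50502508) (nat_lit 3340289) [(nat_lit 460265), (nat_lit 0), (nat_lit 0), (nat_lit 9583893)]) (PF.cons PF.nil (PF.cons PF.nil (PF.cons PF.nil PF.nil)))))))))))) (PF.cons (PF.cons (PF.leaf (nat_lit 3766474) (nat_lit 1431062) (nat_lit 52908848) (nat_lit 3205684) [(nat_lit 0), (nat_lit 1431062), (nat_lit 0), (nat_lit 9563217)]) (PF.cons (PF.leaf (nat_lit 4024011) (nat_lit 403246) (nat_lit 52443625)
 (nat_lit 3234388) [(nat_lit 403246), (nat_lit 1456431), (nat_lit 0), (nat_lit 9571120)]) (PF.cons (PF.leaf (nat_lit 4298477) (nat_lit 417866) (nat_lit 51953393) (nat_lit 3262210) [(nat_lit 417866), (nat_lit 1480745), (nat_lit 0), (nat_lit 9576731)]) (PF.cons (PF.leaf (nat_lit 4586796) (nat_lit 431183) (nat_lit 51443003) (nat_lit 3288742) [(nat_lit 431183), (nat_lit 1503812), (nat_lit 0), (nat_lit 9579703)]) (PF.cons (PF.leaf (nat_lit 4887026) (nat_lit 443382) (nat_lit 50916240) (nat_lit 3313713) [(nat_lit 443382), (nat_lit 1525535), (nat_lit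 0), (nat_lit 9579795)]) (PF.cons (PF.leaf (nat_lit 5197523) (nat_lit 454592) (nat_lit 50376187) (nat_lit 3336948) [(nat_lit 454592), (nat_lit 1545866), (nat_lit 0), (nat_lit 9576847)]) (PF.cons (PF.leaf (nat_lit 5516897) (nat_lit 464914) (nat_lit 49825438) (nat_lit 3358334) [(nat_lit 464914), (nat_lit 1564793), (nat_lit 0), (nat_lit 9570761)]) (PF.cons (PF.leaf (nat_lit 5843931) (nat_lit 474423) (nat_lit 49266223) (nat_lit 3377809) [(nat_lit 474423), (nat_lit 1582322), (nat_lit 0), (nat_lit 9561493)]) (PF.cons PF.nil (PF.cons PF.nil PF.nil)))))))))) (PF.cons (PF.cons (PF.leaf (nat_lit 4481181) (nat_lit 1500539) (nat_lit 51244730) (nat_lit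
 3289038) [(nat_lit 0), (nat_lit 1500539), (nat_lit 0), (nat_lit 9573964)]) (PF.cons (PF.leaf (nat_lit 4763637) (nat_lit 436323) (nat_lit 50743832) (nat_lit 3312445) [(nat_lit 436323), (nat_lit 1521539), (nat_lit 0), (nat_lit 9573132)]) (PF.cons (PF.leaf (nat_lit 5059068) (nat_lit 448176) (nat_lit 50225687) (nat_lit 3334495) [(nat_lit 448176), (nat_lit 1541380), (nat_lit 0), (nat_lit 9569516)]) (PF.cons (PF.leaf (nat_lit 5365136) (nat_lit 459016) (nat_lit 49693846) (nat_lit 3354985) [(nat_lit 459016), (nat_lit 1559979), (nat_lit 0), (nat_lit 9562972)]) (PF.cons (PF.leaf (nat_lit 5680270) (nat_lit 468958) (nat_lit 49151176) (nat_lit 3373786) [(nat_lit 468958), (nat_lit 1577299), (nat_lit 0), (nat_lit 9553417)]) (PF.cons (PF.leaf (nat_lit 6003160) (nat_lit 478087) (nat_lit 48600067) (nat_lit 3390822) [(nat_lit 478087), (nat_lit 1593332), (nat_lit 0), (nat_lit 9540818)]) (PF.cons (PF.leaf (nat_lit 6332664) (nat_lit 486474) (nat_lit 48042555) (nat_lit 3406057) [(nat_lit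 486474), (nat_lit 1608086), (nat_lit 0), (nat_lit 9525180)]) (PF.cons PF.nil (PF.cons PF.nil PF.nil))))))))) (PF.cons (PF.cons (PF.leaf (nat_lit 5231371) (nat_lit 1555659) (nat_lit 49534626) (nat_lit 3352541) [(nat_lit
 0), (nat_lit 1555659), (nat_lit 0), (nat_lit 9554666)]) (PF.cons (PF.leaf (nat_lit 5531770) (nat_lit 462779) (nat_lit 49012923) (nat_lit 3370440) [(nat_lit 462779), (nat_lit 1572617), (nat_lit 0), (nat_lit 9544815)]) (PF.cons (PF.leaf (nat_lit 5842059) (nat_lit 472409) (nat_lit 48479845) (nat_lit 3386809) [(nat_lit 472409), (nat_lit 1588422), (nat_lit 0), (nat_lit 9532071)]) (PF.cons (PF.leaf (nat_lit 6160347) (nat_lit 481215) (nat_lit 47938059) (nat_lit 3401557) [(nat_lit 481215), (nat_lit 1603045), (nat_lit 0), (nat_lit 9516413)]) (PF.cons (PF.leaf (nat_lit 6485388) (nat_lit 489274) (nat_lit 47389768) (nat_lit 3414637) [(nat_lit 489274), (nat_lit 1616484), (nat_lit 0), (nat_lit 9497855)]) (PF.cons PF.nil (PF.cons PF.nil PF.nil))))))) (PF.cons (PF.cons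 (PF.leaf (nat_lit 6003225) (nat_lit 1598252) (nat_lit 47811335) (nat_lit 3397554) [(nat_lit 0), (nat_lit 1598252), (nat_lit 0), (nat_lit 9506911)]) (PF.cons (PF.leaf (nat_lit 6315982) (nat_lit 483813) (nat_lit 47280190) (nat_lit 3410154) [(nat_lit 483813), (nat_lit 1611545), (nat_lit 0), (nat_lit 9488470)]) (PF.cons (PF.leaf (nat_lit 6636144) (nat_lit 491595) (nat_lit 46742165) (nat_lit 3421216) [(nat_lit 491595), (nat_lit
 1623745), (nat_lit 0), (nat_lit 9467255)]) (PF.cons (PF.leaf (nat_lit 6962155) (nat_lit 498689) (nat_lit 46199291) (nat_lit 3430713) [(nat_lit 498689), (nat_lit 1634855), (nat_lit 0), (nat_lit 9443319)]) (PF.cons PF.nil PF.nil))))) (PF.cons (PF.cons (PF.leaf (nat_lit 6785712) (nat_lit 1629941) (nat_lit 46099630) (nat_lit 3425916) [(nat_lit 0), (nat_lit 1629941), (nat_lit 0), (nat_lit 9433557)]) (PF.cons (PF.leaf (nat_lit 7106308) (nat_lit 500299) (nat_lit 45567711) (nat_lit 3433641) [(nat_lit 500299), (nat_lit 1639962), (nat_lit 0), (nat_lit 9407348)])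 (PF.cons PF.nil (PF.cons PF.nil PF.nil)))) (PF.cons (PF.cons (PF.leaf (nat_lit 7570090) (nat_lit 1652193) (nat_lit 44417971) (nat_lit 3439638) [(nat_lit 0), (nat_lit 1652193), (nat_lit 0), (nat_lit 9338040)]) (PF.cons PF.nil PF.nil)) (PF.cons PF.nil PF.nil)))))))) (PF.cons (PF.cons (PF.cons (PF.leaf (nat_lit 4355216) (nat_lit 3274479) (nat_lit 50787279) (nat_lit 3274479) [(nat_lit 0), (nat_lit 0), (nat_lit 3500718), (nat_lit 9546335)]) (PF.cons (PF.leaf (nat_lit 4617427) (nat_lit 421053) (nat_lit 50324593) (nat_lit 3296519) [(nat_lit 421053), (nat_lit 0), (nat_lit 3522471), (nat_lit 9544174)]) (PF.cons (PF.leaf (nat_lit 4895388)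
 (nat_lit 434473) (nat_lit 49839470) (nat_lit 3317607) [(nat_lit 434473), (nat_lit 0), (nat_lit 3543250), (nat_lit 9539537)]) (PF.cons (PF.leaf (nat_lit 5185996) (nat_lit 446558) (nat_lit 49336729) (nat_lit 3337431) [(nat_lit 446558), (nat_lit 0), (nat_lit 3562736), (nat_lit 9532241)]) (PF.cons (PF.leaf (nat_lit 5487290) (nat_lit 457515) (nat_lit 48820066) (nat_lit 3355792) [(nat_lit 457515), (nat_lit 0), (nat_lit 3580723), (nat_lit 9522168)]) (PF.cons (PF.leaf (nat_lit 5797699) (nat_lit 467493) (nat_lit 48292443) (nat_lit 3372565) [(nat_lit 467493), (nat_lit 0), (nat_lit 3597081), (nat_lit 9509255)]) (PF.cons (PF.leaf (nat_lit 6115850) (nat_lit 476601) (nat_lit 47756311) (nat_lit 3387675) [(nat_lit 476601), (nat_lit 0), (nat_lit 3611731), (nat_lit 9493482)]) (PF.cons (PF.leaf (nat_lit 6440591) (nat_lit 484926) (nat_lit 47213740) (nat_lit 3401086) [(nat_lit 484926), (nat_lit 0), (nat_lit 3624634), (nat_lit 9474863)]) (PF.cons PF.nil PF.nil))))))))) (PF.cons (PF.cons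 (PF.leaf (nat_lit 5070264) (nat_lit 1538426) (nat_lit 49150429) (nat_lit 3335695) [(nat_lit 0), (nat_lit 1538426), (nat_lit 3561064), (nat_lit 9523197)]) (PF.cons (PF.leaf (nat_lit 5354326) (nat_lit 450155) (nat_lit
 48659153) (nat_lit 3352939) [(nat_lit 450155), (nat_lit 1555773), (nat_lit 3577910), (nat_lit 9512880)]) (PF.cons (PF.leaf (nat_lit 5650265) (nat_lit 460865) (nat_lit 48152892) (nat_lit 3368889) [(nat_lit 460865), (nat_lit 1572011), (nat_lit 3593425), (nat_lit 9499864)]) (PF.cons (PF.leaf (nat_lit 5955723) (nat_lit 470561) (nat_lit 47635077) (nat_lit 3383399) [(nat_lit 470561), (nat_lit 1587088), (nat_lit 3607457), (nat_lit 9484104)]) (PF.cons (PF.leaf (nat_lit 6269206) (nat_lit 479372) (nat_lit 47108439) (nat_lit 3396381) [(nat_lit 479372), (nat_lit 1600988), (nat_lit 3619916), (nat_lit 9465595)]) (PF.cons (PF.leaf (nat_lit 6589447) (nat_lit 487394) (nat_lit 46575216) (nat_lit 3407788) [(nat_lit 487394), (nat_lit 1613716), (nat_lit 3630754), (nat_lit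 9444361)]) (PF.cons PF.nil PF.nil))))))) (PF.cons (PF.cons (PF.leaf (nat_lit 5813515) (nat_lit 1582193) (nat_lit 47487146) (nat_lit 3379728) [(nat_lit 0), (nat_lit 1582193), (nat_lit 3603774), (nat_lit 9473777)]) (PF.cons (PF.leaf (nat_lit 6112882) (nat_lit 473050) (nat_lit 46980781) (nat_lit 3392111) [(nat_lit 473050), (nat_lit 1595898), (nat_lit 3615621), (nat_lit 9455451)]) (PF.cons (PF.leaf (nat_lit 6421151) (nat_lit 481628)
 (nat_lit 46464896) (nat_lit 3403097) [(nat_lit 481628), (nat_lit 1608531), (nat_lit 3626029), (nat_lit 9434468)]) (PF.cons (PF.leaf (nat_lit 6736488) (nat_lit 489399) (nat_lit 45942012) (nat_lit 3412630) [(nat_lit 489399), (nat_lit 1620082), (nat_lit 3634936), (nat_lit 9410868)]) (PF.cons (PF.leaf (nat_lit 7057702) (nat_lit 496449) (nat_lit 45414181) (nat_lit 3420684) [(nat_lit 496449), (nat_lit 1630560), (nat_lit 3642318), (nat_lit 9384710)]) PF.nil))))) (PF.cons (PF.cons (PF.leaf (nat_lit 6572618) (nat_lit 1615003) (nat_lit 45825414) (nat_lit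 3407943) [(nat_lit 0), (nat_lit 1615003), (nat_lit 3630191), (nat_lit 9400251)]) (PF.cons (PF.leaf (nat_lit 6882164) (nat_lit 490943) (nat_lit 45313969) (nat_lit 3415723) [(nat_lit 490943), (nat_lit 1625446), (nat_lit 3637296), (nat_lit 9374540)]) (PF.cons (PF.leaf (nat_lit 7198299) (nat_lit 497781) (nat_lit 44797083) (nat_lit 3422133) [(nat_lit 497781), (nat_lit 1634892), (nat_lit 3642985), (nat_lit 9346369)]) (PF.cons PF.nil PF.nil)))) (PF.cons (PF.cons (PF.leaf (nat_lit 7337937) (nat_lit 1638344) (nat_lit 44185766) (nat_lit 3422047) [(nat_lit 0), (nat_lit 1638344), (nat_lit 3642053), (nat_lit 9305567)]) (PF.cons (PF.leaf (nat_lit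
 7653616) (nat_lit 504697) (nat_lit 43676679) (nat_lit 3425641) [(nat_lit 504697), (nat_lit 1645903), (nat_lit 3644841), (nat_lit 9273339)]) PF.nil)) (PF.cons PF.nil PF.nil)))))) (PF.cons (PF.cons (PF.cons (PF.leaf (nat_lit 5639672) (nat_lit 3361680) (nat_lit 47136787) (nat_lit 3361680) [(nat_lit 0), (nat_lit 0), (nat_lit 3585514), (nat_lit 9439316)]) (PF.cons (PF.leaf (nat_lit 5923636) (nat_lit 460587) (nat_lit 46659159) (nat_lit 3373773) [(nat_lit 460587), (nat_lit 0), (nat_lit 3597023), (nat_lit 9421247)]) (PF.cons (PF.leaf (nat_lit 6218483) (nat_lit 470274) (nat_lit 46168467) (nat_lit 3384643) [(nat_lit 470274), (nat_lit 0), (nat_lit 3607272), (nat_lit 9400608)]) (PF.cons (PF.leaf (nat_lit 6521926) (nat_lit 478958) (nat_lit 45667996) (nat_lit 3394189) [(nat_lit 478958), (nat_lit 0), (nat_lit 3616158), (nat_lit 9377435)]) (PF.cons (PF.leaf (nat_lit 6832498) (nat_lit 486776) (nat_lit 45160323) (nat_lit 3402356) [(nat_lit 486776), (nat_lit 0), (nat_lit 3623624), (nat_lit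 9351778)]) (PF.cons (PF.leaf (nat_lit 7148981) (nat_lit 493830) (nat_lit 44647538) (nat_lit 3409120) [(nat_lit 493830), (nat_lit 0), (nat_lit 3629647), (nat_lit 9323705)]) (PF.cons PF.nil PF.nil))))))) (PF.cons
 (PF.cons (PF.leaf (nat_lit 6372697) (nat_lit 1599137) (nat_lit 45531164) (nat_lit 3389650) [(nat_lit 0), (nat_lit 1599137), (nat_lit 3611557), (nat_lit 9365745)]) (PF.cons (PF.leaf (nat_lit 6669770) (nat_lit 480388) (nat_lit 45042911) (nat_lit 3397458) [(nat_lit 480388), (nat_lit 1610081), (nat_lit 3618662), (nat_lit 9340647)]) (PF.cons (PF.leaf (nat_lit 6974894) (nat_lit 488040) (nat_lit 44546655) (nat_lit 3403995) [(nat_lit 488040), (nat_lit 1620031), (nat_lit 3624458), (nat_lit 9313132)]) (PF.cons (PF.leaf (nat_lit 7286294) (nat_lit 494906) (nat_lit 44044765) (nat_lit 3409231) [(nat_lit 494906), (nat_lit 1628991), (nat_lit 3628911), (nat_lit 9283282)]) (PF.cons PF.nil PF.nil))))) (PF.cons (PF.cons (PF.leaf (nat_lit 7116978) (nat_lit 1623754) (nat_lit 43937815)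 (nat_lit 3404099) [(nat_lit 0), (nat_lit 1623754), (nat_lit 3623692), (nat_lit 9272004)]) (PF.cons (PF.leaf (nat_lit 7422453) (nat_lit 495578) (nat_lit 43447749) (nat_lit 3407913) [(nat_lit 495578), (nat_lit 1631793), (nat_lit 3626687), (nat_lit 9240609)]) (PF.cons (PF.leaf (nat_lit 7733806) (nat_lit 501593) (nat_lit 42953378) (nat_lit 3410506) [(nat_lit 501593), (nat_lit 1638924), (nat_lit 3628423), (nat_lit 9207044)])
 (PF.cons PF.nil PF.nil)))) (PF.cons (PF.cons (PF.leaf (nat_lit 7864048) (nat_lit 1640143) (nat_lit 42373754) (nat_lit 3406604) [(nat_lit 0), (nat_lit 1640143), (nat_lit 3623530), (nat_lit 9160963)]) (PF.cons PF.nil PF.nil)) (PF.cons PF.nil PF.nil))))) (PF.cons (PF.cons (PF.cons (PF.leaf (nat_lit 6908822) (nat_lit 3385746) (nat_lit 43671131) (nat_lit 3385746) [(nat_lit 0), (nat_lit 0), (nat_lit 3604943), (nat_lit 9237103)]) (PF.cons (PF.leaf (nat_lit 7202642) (nat_lit 485290) (nat_lit 43202656) (nat_lit 3389771) [(nat_lit 485290), (nat_lit 0), (nat_lit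 3608136), (nat_lit 9206684)]) (PF.cons (PF.leaf (nat_lit 7503802) (nat_lit 492126) (nat_lit 42727416) (nat_lit 3392643) [(nat_lit 492126), (nat_lit 0), (nat_lit 3610140), (nat_lit 9174077)]) (PF.cons (PF.leaf (nat_lit 7810558) (nat_lit 498201) (nat_lit 42247628) (nat_lit 3394349) [(nat_lit 498201), (nat_lit 0), (nat_lit 3610944), (nat_lit 9139398)]) (PF.cons PF.nil PF.nil))))) (PF.cons (PF.cons (PF.leaf (nat_lit 7636934) (nat_lit 1626012) (nat_lit 42149730) (nat_lit 3388951) [(nat_lit 0), (nat_lit 1626012), (nat_lit 3605439), (nat_lit 9127798)]) (PF.cons (PF.leaf (nat_lit 7937714) (nat_lit 498154) (nat_lit 41681849) (nat_lit 3389513)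
 [(nat_lit 498154), (nat_lit 1632026), (nat_lit 3605074), (nat_lit 9092046)]) (PF.cons PF.nil (PF.cons PF.nil PF.nil)))) (PF.cons (PF.cons (PF.leaf (nat_lit 8365220) (nat_lit 1636620) (nat_lit 40662317) (nat_lit 3382063) [(nat_lit 0), (nat_lit 1636620), (nat_lit 3595564), (nat_lit 9004499)]) (PF.cons PF.nil PF.nil)) PF.nil))) (PF.cons (PF.cons (PF.cons (PF.leaf (nat_lit 8133439) (nat_lit 3364891) (nat_lit 40459958) (nat_lit 3364891) [(nat_lit 0), (nat_lit 0), (nat_lit 3577945), (nat_lit 8972181)]) (PF.cons (PF.leaf (nat_lit 8429089) (nat_lit 499037) (nat_lit 40014437) (nat_lit 3362797) [(nat_lit 499037), (nat_lit 0), (nat_lit 3574843), (nat_lit 8933166)]) (PF.cons PF.nil PF.nil))) (PF.cons (PF.cons (PF.leaf (nat_lit 8842782) (nat_lit 1628830) (nat_lit 39048509) (nat_lit 3350433) [(nat_lit 0), (nat_lit 1628830), (nat_lit 3560267), (nat_lit 8839969)]) PF.nil) PF.nil)) (PF.cons PF.nil (PF.cons PF.nil (PF.cons PF.nil PF.nil)))))))) (PF.cons (PF.cons (PF.cons (PF.cons (PF.leaf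 (nat_lit 5328336) (nat_lit 3257677) (nat_lit 45405757) (nat_lit 3257677) [(nat_lit 0), (nat_lit 0), (nat_lit 0), (nat_lit 9222689)]) (PF.cons (PF.leaf (nat_lit 5582130) (nat_lit 425976) (nat_lit 44999822) (nat_lit
 3270800) [(nat_lit 425976), (nat_lit 0), (nat_lit 0), (nat_lit 9206107)]) (PF.cons (PF.leaf (nat_lit 5850070) (nat_lit 437970) (nat_lit 44575636) (nat_lit 3282927) [(nat_lit 437970), (nat_lit 0), (nat_lit 0), (nat_lit 9187154)]) (PF.cons (PF.leaf (nat_lit 6129080) (nat_lit 448577) (nat_lit 44137462) (nat_lit 3293877) [(nat_lit 448577), (nat_lit 0), (nat_lit 0), (nat_lit 9165870)]) (PF.cons (PF.leaf (nat_lit 6417292) (nat_lit 458036) (nat_lit 43688522) (nat_lit 3303547) [(nat_lit 458036), (nat_lit 0), (nat_lit 0), (nat_lit 9142299)]) (PF.cons (PF.leaf (nat_lit 6713195) (nat_lit 466514) (nat_lit 43231362) (nat_lit 3311882) [(nat_lit 466514), (nat_lit 0), (nat_lit 0), (nat_lit 9116497)]) (PF.cons (PF.leaf (nat_lit 7015543) (nat_lit 474140) (nat_lit 42768054)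 (nat_lit 3318858) [(nat_lit 474140), (nat_lit 0), (nat_lit 0), (nat_lit 9088528)]) (PF.cons (PF.leaf (nat_lit 7323275) (nat_lit 481011) (nat_lit 42300319) (nat_lit 3324477) [(nat_lit 481011), (nat_lit 0), (nat_lit 0), (nat_lit 9058467)]) (PF.cons PF.nil PF.nil))))))))) (PF.cons (PF.cons (PF.leaf (nat_lit 6005572) (nat_lit 1532977) (nat_lit 43980323) (nat_lit 3289663) [(nat_lit 0), (nat_lit 1532977), (nat_lit 0), (nat_lit
 9152924)]) (PF.cons (PF.leaf (nat_lit 6277681) (nat_lit 450378) (nat_lit 43553643) (nat_lit 3298791) [(nat_lit 450378), (nat_lit 1545873), (nat_lit 0), (nat_lit 9130062)]) (PF.cons (PF.leaf (nat_lit 6560248) (nat_lit 459680) (nat_lit 43115122) (nat_lit 3306771) [(nat_lit 459680), (nat_lit 1557703), (nat_lit 0), (nat_lit 9104927)]) (PF.cons (PF.leaf (nat_lit 6851010) (nat_lit 467969) (nat_lit 42667716) (nat_lit 3313529) [(nat_lit 467969), (nat_lit 1568459), (nat_lit 0), (nat_lit 9077599)]) (PF.cons (PF.leaf (nat_lit 7148563) (nat_lit 475388) (nat_lit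 42213742) (nat_lit 3319035) [(nat_lit 475388), (nat_lit 1578157), (nat_lit 0), (nat_lit 9048163)]) (PF.cons (PF.leaf (nat_lit 7451738) (nat_lit 482045) (nat_lit 41755074) (nat_lit 3323279) [(nat_lit 482045), (nat_lit 1586827), (nat_lit 0), (nat_lit 9016702)]) (PF.cons PF.nil PF.nil))))))) (PF.cons (PF.cons (PF.leaf (nat_lit 6703761) (nat_lit 1562841) (nat_lit 42544330) (nat_lit 3308430) [(nat_lit 0), (nat_lit 1562841), (nat_lit 0), (nat_lit 9065184)]) (PF.cons (PF.leaf (nat_lit 6988329) (nat_lit 468952) (nat_lit 42107898) (nat_lit 3313725) [(nat_lit 468952), (nat_lit 1572558), (nat_lit 0), (nat_lit 9036559)]) (PF.cons (PF.leaf (nat_lit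
 7280632) (nat_lit 476224) (nat_lit 41664166) (nat_lit 3317865) [(nat_lit 476224), (nat_lit 1581308), (nat_lit 0), (nat_lit 9005857)]) (PF.cons (PF.leaf (nat_lit 7578925) (nat_lit 482716) (nat_lit 41215253) (nat_lit 3320833) [(nat_lit 482716), (nat_lit 1589107), (nat_lit 0), (nat_lit 8973180)]) (PF.cons (PF.leaf (nat_lit 7882150) (nat_lit 488521) (nat_lit 40762867) (nat_lit 3322635) [(nat_lit 488521), (nat_lit 1595980), (nat_lit 0), (nat_lit 8938631)]) PF.nil))))) (PF.cons (PF.cons (PF.leaf (nat_lit 7412656) (nat_lit 1583693) (nat_lit 41118938) (nat_lit 3315426) [(nat_lit 0), (nat_lit 1583693), (nat_lit 0), (nat_lit 8961683)]) (PF.cons (PF.leaf (nat_lit 7705254) (nat_lit 483021) (nat_lit 40680579) (nat_lit 3317215) [(nat_lit 483021), (nat_lit 1590675), (nat_lit 0), (nat_lit 8927984)]) (PF.cons (PF.leaf (nat_lit 8003544) (nat_lit 488694) (nat_lit 40238210) (nat_lit 3317915) [(nat_lit 488694), (nat_lit 1596796), (nat_lit 0), (nat_lit 8892454)]) (PF.cons PF.nil PF.nil))))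 (PF.cons (PF.cons (PF.leaf (nat_lit 8124520) (nat_lit 1596992) (nat_lit 39718980) (nat_lit 3312172) [(nat_lit 0), (nat_lit 1596992), (nat_lit 0), (nat_lit 8844844)]) (PF.cons (PF.leaf (nat_lit 8421777) (nat_lit
 493485) (nat_lit 39284314) (nat_lit 3310847) [(nat_lit 493485), (nat_lit 1601627), (nat_lit 0), (nat_lit 8806828)]) PF.nil)) (PF.cons PF.nil PF.nil)))))) (PF.cons (PF.cons (PF.cons (PF.leaf (nat_lit 6519699) (nat_lit 3288951) (nat_lit 42258465) (nat_lit 3288951) [(nat_lit 0), (nat_lit 0), (nat_lit 3504312), (nat_lit 9028541)]) (PF.cons (PF.leaf (nat_lit 6790422) (nat_lit 456556) (nat_lit 41846527) (nat_lit 3294485) [(nat_lit 456556), (nat_lit 0), (nat_lit 3508993), (nat_lit 9001125)]) (PF.cons (PF.leaf (nat_lit 7070826) (nat_lit 465003) (nat_lit 41424147) (nat_lit 3298948) [(nat_lit 465003), (nat_lit 0), (nat_lit 3512577), (nat_lit 8971565)]) (PF.cons (PF.leaf (nat_lit 7358713) (nat_lit 472462) (nat_lit 40994127) (nat_lit 3302298) [(nat_lit 472462), (nat_lit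 0), (nat_lit 3515022), (nat_lit 8939989)]) (PF.cons (PF.leaf (nat_lit 7652710) (nat_lit 479079) (nat_lit 40558642) (nat_lit 3304521) [(nat_lit 479079), (nat_lit 0), (nat_lit 3516314), (nat_lit 8906507)]) (PF.cons (PF.leaf (nat_lit 7951702) (nat_lit 484968) (nat_lit 40119431) (nat_lit 3305622) [(nat_lit 484968), (nat_lit 0), (nat_lit 3516460), (nat_lit 8871228)]) (PF.cons PF.nil PF.nil))))))) (PF.cons (PF.cons (PF.leaf (nat_lit
 7206473) (nat_lit 1567908) (nat_lit 40880390) (nat_lit 3296811) [(nat_lit 0), (nat_lit 1567908), (nat_lit 3509426), (nat_lit 8927137)]) (PF.cons (PF.leaf (nat_lit 7488043) (nat_lit 472682) (nat_lit 40461565) (nat_lit 3298978) [(nat_lit 472682), (nat_lit 1575564), (nat_lit 3510674), (nat_lit 8894673)]) (PF.cons (PF.leaf (nat_lit 7776705) (nat_lit 479209) (nat_lit 40036484) (nat_lit 3300097) [(nat_lit 479209), (nat_lit 1582329), (nat_lit 3510848), (nat_lit 8860317)]) (PF.cons (PF.leaf (nat_lit 8070769) (nat_lit 484982) (nat_lit 39607134) (nat_lit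 3300167) [(nat_lit 484982), (nat_lit 1588228), (nat_lit 3509947), (nat_lit 8824194)]) (PF.cons PF.nil PF.nil))))) (PF.cons (PF.cons (PF.leaf (nat_lit 7900835) (nat_lit 1582833) (nat_lit 39518936) (nat_lit 3294631) [(nat_lit 0), (nat_lit 1582833), (nat_lit 3504303), (nat_lit 8812637)]) (PF.cons (PF.leaf (nat_lit 8189175) (nat_lit 484673) (nat_lit 39100134) (nat_lit 3293754) [(nat_lit 484673), (nat_lit 1588057), (nat_lit 3502442), (nat_lit 8775846)]) (PF.cons (PF.leaf (nat_lit 8482653) (nat_lit 489700) (nat_lit 38678069) (nat_lit 3291905) [(nat_lit 489700), (nat_lit 1592498), (nat_lit 3499584), (nat_lit 8737427)]) (PF.cons PF.nil PF.nil))))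
 (PF.cons (PF.cons (PF.leaf (nat_lit 8595906) (nat_lit 1591194) (nat_lit 38186495) (nat_lit 3283773) [(nat_lit 0), (nat_lit 1591194), (nat_lit 3490319), (nat_lit 8687319)]) (PF.cons PF.nil PF.nil)) (PF.cons PF.nil PF.nil))))) (PF.cons (PF.cons (PF.cons (PF.leaf (nat_lit 7689265) (nat_lit 3276546) (nat_lit 39302780) (nat_lit 3276546) [(nat_lit 0), (nat_lit 0), (nat_lit 3485811), (nat_lit 8778931)]) (PF.cons (PF.leaf (nat_lit 7967252) (nat_lit 474706) (nat_lit 38902063) (nat_lit 3276135) [(nat_lit 474706), (nat_lit 0), (nat_lit 3484417), (nat_lit 8743536)]) (PF.cons (PF.leaf (nat_lit 8251800) (nat_lit 480576) (nat_lit 38495950) (nat_lit 3274772) [(nat_lit 480576), (nat_lit 0), (nat_lit 3482046), (nat_lit 8706421)]) (PF.cons (PF.leaf (nat_lit 8541237) (nat_lit 485720) (nat_lit 38086299) (nat_lit 3272469) [(nat_lit 485720), (nat_lit 0), (nat_lit 3478713), (nat_lit 8667727)]) (PF.cons PF.nil PF.nil))))) (PF.cons (PF.cons (PF.leaf (nat_lit 8368478) (nat_lit 1577685) (nat_lit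 38005592) (nat_lit 3266903) [(nat_lit 0), (nat_lit 1577685), (nat_lit 3473031), (nat_lit 8656283)]) (PF.cons (PF.leaf (nat_lit 8652207) (nat_lit 484907) (nat_lit 37606327) (nat_lit 3263846) [(nat_lit 484907),
 (nat_lit 1581428), (nat_lit 3468938), (nat_lit 8617213)]) (PF.cons PF.nil (PF.cons PF.nil PF.nil)))) (PF.cons (PF.cons (PF.leaf (nat_lit 9046664) (nat_lit 1581940) (nat_lit 36739564) (nat_lit 3249913) [(nat_lit 0), (nat_lit 1581940), (nat_lit 3452766), (nat_lit 8524959)]) (PF.cons PF.nil PF.nil)) PF.nil))) (PF.cons (PF.cons (PF.cons (PF.leaf (nat_lit 8816545) (nat_lit 3233772) (nat_lit 36575872) (nat_lit 3233772) [(nat_lit 0), (nat_lit 0), (nat_lit 3436215), (nat_lit 8495261)]) (PF.cons (PF.leaf (nat_lit 9095414) (nat_lit 483976) (nat_lit 36195805) (nat_lit 3228939) [(nat_lit 483976), (nat_lit 0), (nat_lit 3430310), (nat_lit 8454579)]) (PF.cons PF.nil PF.nil))) (PF.cons (PF.cons (PF.leaf (nat_lit 9477945) (nat_lit 1569931) (nat_lit 35374327) (nat_lit 3211866)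 [(nat_lit 0), (nat_lit 1569931), (nat_lit 3410935), (nat_lit 8359939)]) PF.nil) PF.nil)) (PF.cons PF.nil (PF.cons PF.nil PF.nil)))))) (PF.cons (PF.cons (PF.cons (PF.cons (PF.leaf (nat_lit 7284301) (nat_lit 3186171) (nat_lit 38162318) (nat_lit 3186171) [(nat_lit 0), (nat_lit 0), (nat_lit 0), (nat_lit 8586774)]) (PF.cons (PF.leaf (nat_lit 7542232) (nat_lit 447573) (nat_lit 37807659) (nat_lit 3187685) [(nat_lit 447573), (nat_lit
 0), (nat_lit 0), (nat_lit 8555298)]) (PF.cons (PF.leaf (nat_lit 7808947) (nat_lit 455080) (nat_lit 37444395) (nat_lit 3188256) [(nat_lit 455080), (nat_lit 0), (nat_lit 0), (nat_lit 8522000)]) (PF.cons (PF.leaf (nat_lit 8082324) (nat_lit 461627) (nat_lit 37074911) (nat_lit 3187877) [(nat_lit 461627), (nat_lit 0), (nat_lit 0), (nat_lit 8487047)]) (PF.cons (PF.leaf (nat_lit 8361081) (nat_lit 467366) (nat_lit 36701043) (nat_lit 3186557) [(nat_lit 467366), (nat_lit 0), (nat_lit 0), (nat_lit 8450581)]) (PF.cons PF.nil (PF.cons PF.nil PF.nil)))))))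 (PF.cons (PF.cons (PF.leaf (nat_lit 7929831) (nat_lit 1523891) (nat_lit 36980105) (nat_lit 3182077) [(nat_lit 0), (nat_lit 1523891), (nat_lit 0), (nat_lit 8474246)]) (PF.cons (PF.leaf (nat_lit 8197073) (nat_lit 461088) (nat_lit 36620480) (nat_lit 3180878) [(nat_lit 461088), (nat_lit 1529364), (nat_lit 0), (nat_lit 8439000)]) (PF.cons (PF.leaf (nat_lit 8470690) (nat_lit 466789) (nat_lit 36255738) (nat_lit 3178796) [(nat_lit 466789), (nat_lit 1534036), (nat_lit 0), (nat_lit 8402220)]) (PF.cons (PF.leaf (nat_lit 8749116) (nat_lit 471772) (nat_lit 35887551) (nat_lit 3175849) [(nat_lit 471772), (nat_lit 1537940), (nat_lit 0), (nat_lit 8364051)])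
 (PF.cons PF.nil PF.nil))))) (PF.cons (PF.cons (PF.leaf (nat_lit 8580816) (nat_lit 1532612) (nat_lit 35814440) (nat_lit 3170310) [(nat_lit 0), (nat_lit 1532612), (nat_lit 0), (nat_lit 8352945)]) (PF.cons (PF.leaf (nat_lit 8853751) (nat_lit 470865) (nat_lit 35455398) (nat_lit 3166720) [(nat_lit 470865), (nat_lit 1536012), (nat_lit 0), (nat_lit 8314600)]) (PF.cons PF.nil (PF.cons PF.nil PF.nil)))) (PF.cons (PF.cons (PF.leaf (nat_lit 9231476) (nat_lit 1535965) (nat_lit 34674751) (nat_lit 3152036) [(nat_lit 0), (nat_lit 1535965), (nat_lit 0), (nat_lit 8224709)]) (PF.cons PF.nil PF.nil)) (PF.cons PF.nil PF.nil))))) (PF.cons (PF.cons (PF.cons (PF.leaf (nat_lit 8369615) (nat_lit 3153212) (nat_lit 35638002) (nat_lit 3153212) [(nat_lit 0), (nat_lit 0), (nat_lit 3352244), (nat_lit 8321784)]) (PF.cons (PF.leaf (nat_lit 8633262) (nat_lit 461351) (nat_lit 35294104) (nat_lit 3150208) [(nat_lit 461351), (nat_lit 0), (nat_lit 3348207), (nat_lit 8284980)]) (PF.cons (PF.leaf (nat_lit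 8902862) (nat_lit 466510) (nat_lit 34945717) (nat_lit 3146401) [(nat_lit 466510), (nat_lit 0), (nat_lit 3343349), (nat_lit 8246774)]) (PF.cons PF.nil (PF.cons PF.nil PF.nil))))) (PF.cons (PF.cons (PF.leaf (nat_lit
 9006718) (nat_lit 1523307) (nat_lit 34527418) (nat_lit 3136368) [(nat_lit 0), (nat_lit 1523307), (nat_lit 3332140), (nat_lit 8196525)]) (PF.cons (PF.leaf (nat_lit 9275282) (nat_lit 469710) (nat_lit 34185011) (nat_lit 3131278) [(nat_lit 469710), (nat_lit 1525590), (nat_lit 3325988), (nat_lit 8157077)]) (PF.cons PF.nil (PF.cons PF.nil PF.nil)))) (PF.cons (PF.cons (PF.leaf (nat_lit 9642282) (nat_lit 1523654) (nat_lit 33443763) (nat_lit 3114000) [(nat_lit 0), (nat_lit 1523654), (nat_lit 3306453), (nat_lit 8065761)]) (PF.cons PF.nil PF.nil)) PF.nil))) (PF.cons (PF.cons (PF.cons (PF.leaf (nat_lit 9416105) (nat_lit 3099139) (nat_lit 33310091) (nat_lit 3099139) [(nat_lit 0), (nat_lit 0), (nat_lit 3291228), (nat_lit 8039041)]) (PF.cons (PF.leaf (nat_lit 9680151)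 (nat_lit 467731) (nat_lit 32983826) (nat_lit 3092830) [(nat_lit 467731), (nat_lit 0), (nat_lit 3283848), (nat_lit 7998909)]) PF.nil)) (PF.cons PF.nil PF.nil)) (PF.cons PF.nil (PF.cons PF.nil PF.nil))))) (PF.cons (PF.cons (PF.cons (PF.cons (PF.leaf (nat_lit 8973546) (nat_lit 3026604) (nat_lit 32541416) (nat_lit 3026604) [(nat_lit 0), (nat_lit 0), (nat_lit 0), (nat_lit 7885197)]) (PF.cons (PF.leaf (nat_lit 9224251) (nat_lit 446840)
 (nat_lit 32244542) (nat_lit 3022106) [(nat_lit 446840), (nat_lit 0), (nat_lit 0), (nat_lit 7848830)]) (PF.cons (PF.leaf (nat_lit 9480497) (nat_lit 451458) (nat_lit 31943823) (nat_lit 3016916) [(nat_lit 451458), (nat_lit 0), (nat_lit 0), (nat_lit 7811289)]) (PF.cons PF.nil PF.nil)))) (PF.cons (PF.cons (PF.leaf (nat_lit 9574139) (nat_lit 1467344) (nat_lit 31584524) (nat_lit 3005875) [(nat_lit 0), (nat_lit 1467344), (nat_lit 0), (nat_lit 7762766)]) (PF.cons (PF.leaf (nat_lit 9829203) (nat_lit 453883) (nat_lit 31288888) (nat_lit 2999685) [(nat_lit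 453883), (nat_lit 1468670), (nat_lit 0), (nat_lit 7724421)]) PF.nil)) (PF.cons PF.nil PF.nil))) (PF.cons (PF.cons (PF.cons (PF.leaf (nat_lit 9951997) (nat_lit 2967319) (nat_lit 30540069) (nat_lit 2967319) [(nat_lit 0), (nat_lit 0), (nat_lit 3149612), (nat_lit 7612952)]) (PF.cons PF.nil PF.nil)) (PF.cons PF.nil PF.nil)) (PF.cons PF.nil PF.nil))) (PF.cons (PF.cons (PF.cons (PF.cons (PF.leaf (nat_lit 10438106) (nat_lit 2841356) (nat_lit 28169247) (nat_lit 2841356) [(nat_lit 0), (nat_lit 0), (nat_lit 0), (nat_lit 7219641)]) (PF.cons PF.nil PF.nil)) (PF.cons PF.nil PF.nil)) (PF.cons PF.nil PF.nil)) (PF.cons PF.nil (PF.cons PF.nil (PF.cons PF.nil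
 PF.nil)))))))))

def p15_20_0_0 : pfC (piC [(nat_lit 39120232), (nat_lit 25510466), (nat_lit 19038091), (nat_lit 12801343)] (nat_lit 22443163)) p15_20_0 (nat_lit 4) (nat_lit 0) (nat_lit 1) = true := by decide +kernel
def p15_20_0_1 : pfC (piC [(nat_lit 39120232), (nat_lit 25510466), (nat_lit 19038091), (nat_lit 12801343)] (nat_lit 22443163)) p15_20_0 (nat_lit 4) (nat_lit 1) (nat_lit 2) = true := by decide +kernel
def p15_20_0_2 : pfC (piC [(nat_lit 39120232), (nat_lit 25510466), (nat_lit 19038091), (nat_lit 12801343)] (nat_lit 22443163)) p15_20_0 (nat_lit 4) (nat_lit 2) (nat_lit 3) = true := by decide +kernel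
def p15_20_0_3 : pfC (piC [(nat_lit 39120232), (nat_lit 25510466), (nat_lit 19038091), (nat_lit 12801343)] (nat_lit 22443163)) p15_20_0 (nat_lit 4) (nat_lit 3) (nat_lit 4) = true := by decide +kernel
def p15_20_0_4 : pfC (piC [(nat_lit 39120232), (nat_lit 25510466), (nat_lit 19038091), (nat_lit 12801343)] (nat_lit 22443163)) p15_20_0 (nat_lit 4) (nat_lit 4) (nat_lit 5) = true := by decide +kernel
def p15_20_0_5 : pfC (piC [(nat_lit 39120232), (nat_lit 25510466), (nat_lit 19038091), (nat_lit 12801343)] (nat_lit 22443163)) p15_20_0 (nat_lit 4) (nat_lit 5) (nat_lit 6) = true := by decide +kernel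
def p15_20_0_6 : pfC (piC [(nat_lit 39120232), (nat_lit 25510466), (nat_lit 19038091), (nat_lit 12801343)] (nat_lit 22443163)) p15_20_0 (nat_lit 4) (nat_lit 6) (nat_lit 7) = true := by decide +kernel
def p15_20_0_7 : pfC (piC [(nat_lit 39120232), (nat_lit 25510466), (nat_lit 19038091), (nat_lit 12801343)] (nat_lit 22443163)) p15_20_0 (nat_lit 4) (nat_lit 7) (nat_lit 8) = true := by decide +kernel
def p15_20_0_8 : pfC (piC [(nat_lit 39120232), (nat_lit 25510466), (nat_lit 19038091), (nat_lit 12801343)] (nat_lit 22443163)) p15_20_0 (nat_lit 4) (nat_lit 8) (nat_lit 9) = true := by decide +kernel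
def p15_20_0_9 : pfC (piC [(nat_lit 39120232), (nat_lit 25510466), (nat_lit 19038091), (nat_lit 12801343)] (nat_lit 22443163)) p15_20_0 (nat_lit 4) (nat_lit 9) (nat_lit 10) = true := by decide +kernel
def p15_20_0_10 : pfC (piC [(nat_lit 39120232), (nat_lit 25510466), (nat_lit 19038091), (nat_lit 12801343)] (nat_lit 22443163)) p15_20_0 (nat_lit 4) (nat_lit 10) (nat_lit 11) = true := by decide +kernel
def p15_20_0_11 : pfC (piC [(nat_lit 39120232), (nat_lit 25510466), (nat_lit 19038091), (nat_lit 12801343)] (nat_lit 22443163)) p15_20_0 (nat_lit 4) (nat_lit 11) (nat_lit 12) = true := by decide +kernel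
def p15_20_0_12 : pfC (piC [(nat_lit 39120232), (nat_lit 25510466), (nat_lit 19038091), (nat_lit 12801343)] (nat_lit 22443163)) p15_20_0 (nat_lit 4) (nat_lit 12) (nat_lit 13) = true := by decide +kernel
def p15_20_0_13 : pfC (piC [(nat_lit 39120232), (nat_lit 25510466), (nat_lit 19038091), (nat_lit 12801343)] (nat_lit 22443163)) p15_20_0 (nat_lit 4) (nat_lit 13) (nat_lit 14) = true := by decide +kernel
def p15_20_0_14 : pfC (piC [(nat_lit 39120232), (nat_lit 25510466), (nat_lit 19038091), (nat_lit 12801343)] (nat_lit 22443163)) p15_20_0 (nat_lit 4) (nat_lit 14) (nat_lit 15) = true := by decide +kernel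
def p15_20_0_15 : pfC (piC [(nat_lit 39120232), (nat_lit 25510466), (nat_lit 19038091), (nat_lit 12801343)] (nat_lit 22443163)) p15_20_0 (nat_lit 4) (nat_lit 15) (nat_lit 16) = true := by decide +kernel
def p15_20_0_16 : pfC (piC [(nat_lit 39120232), (nat_lit 25510466), (nat_lit 19038091), (nat_lit 12801343)] (nat_lit 22443163)) p15_20_0 (nat_lit 4) (nat_lit 16) (nat_lit 17) = true := by decide +kernel
def p15_20_0_17 : pfC (piC [(nat_lit 39120232), (nat_lit 25510466), (nat_lit 19038091), (nat_lit 12801343)] (nat_lit 22443163)) p15_20_0 (nat_lit 4) (nat_lit 17) (nat_lit 18) = true := by decide +kernel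
def p15_20_0_18 : pfC (piC [(nat_lit 39120232), (nat_lit 25510466), (nat_lit 19038091), (nat_lit 12801343)] (nat_lit 22443163)) p15_20_0 (nat_lit 4) (nat_lit 18) (nat_lit 19) = true := by decide +kernel
def p15_20_0_19 : pfC (piC [(nat_lit 39120232), (nat_lit 25510466), (nat_lit 19038091), (nat_lit 12801343)] (nat_lit 22443163)) p15_20_0 (nat_lit 4) (nat_lit 19) (nat_lit 20) = true := by decide +kernel
def p15_20_0_20 : pfC (piC [(nat_lit 39120232), (nat_lit 25510466), (nat_lit 19038091), (nat_lit 12801343)] (nat_lit 22443163)) p15_20_0 (nat_lit 4) (nat_lit 20) (nat_lit 21) = true := by decide +kernel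
def p15_20_0_21 : pfC (piC [(nat_lit 39120232), (nat_lit 25510466), (nat_lit 19038091), (nat_lit 12801343)] (nat_lit 22443163)) p15_20_0 (nat_lit 4) (nat_lit 21) (nat_lit 22) = true := by decide +kernel
def p15_20_0_22 : pfC (piC [(nat_lit 39120232), (nat_lit 25510466), (nat_lit 19038091), (nat_lit 12801343)] (nat_lit 22443163)) p15_20_0 (nat_lit 4) (nat_lit 22) (nat_lit 23) = true := by decide +kernel
def p15_20_0_23 : pfC (piC [(nat_lit 39120232), (nat_lit 25510466), (nat_lit 19038091), (nat_lit 12801343)] (nat_lit 22443163)) p15_20_0 (nat_lit 4) (nat_lit 23) (nat_lit 24) = true := by decide +kernel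
def p15_20_0_24 : pfC (piC [(nat_lit 39120232), (nat_lit 25510466), (nat_lit 19038091), (nat_lit 12801343)] (nat_lit 22443163)) p15_20_0 (nat_lit 4) (nat_lit 24) (nat_lit 25) = true := by decide +kernel
def p15_20_0_25 : pfC (piC [(nat_lit 39120232), (nat_lit 25510466), (nat_lit 19038091), (nat_lit 12801343)] (nat_lit 22443163)) p15_20_0 (nat_lit 4) (nat_lit 25) (nat_lit 26) = true := by decide +kernel
def p15_20_0_26 : pfC (piC [(nat_lit 39120232), (nat_lit 25510466), (nat_lit 19038091), (nat_lit 12801343)] (nat_lit 22443163)) p15_20_0 (nat_lit 4) (nat_lit 26) (nat_lit 27) = true := by decide +kernel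
def p15_20_0_27 : pfC (piC [(nat_lit 39120232), (nat_lit 25510466), (nat_lit 19038091), (nat_lit 12801343)] (nat_lit 22443163)) p15_20_0 (nat_lit 4) (nat_lit 27) (nat_lit 28) = true := by decide +kernel
def p15_20_0_28 : pfC (piC [(nat_lit 39120232), (nat_lit 25510466), (nat_lit 19038091), (nat_lit 12801343)] (nat_lit 22443163)) p15_20_0 (nat_lit 4) (nat_lit 28) (nat_lit 29) = true := by decide +kernel
def p15_20_0_29 : pfC (piC [(nat_lit 39120232), (nat_lit 25510466), (nat_lit 19038091), (nat_lit 12801343)] (nat_lit 22443163)) p15_20_0 (nat_lit 4) (nat_lit 29) (nat_lit 30) = true := by decide +kernel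
def p15_20_0_30 : pfC (piC [(nat_lit 39120232), (nat_lit 25510466), (nat_lit 19038091), (nat_lit 12801343)] (nat_lit 22443163)) p15_20_0 (nat_lit 4) (nat_lit 30) (nat_lit 31) = true := by decide +kernel
def p15_20_0_31 : pfC (piC [(nat_lit 39120232), (nat_lit 25510466), (nat_lit 19038091), (nat_lit 12801343)] (nat_lit 22443163)) p15_20_0 (nat_lit 4) (nat_lit 31) (nat_lit 32) = true := by decide +kernel
def p15_20_0_32 : pfC (piC [(nat_lit 39120232), (nat_lit 25510466), (nat_lit 19038091), (nat_lit 12801343)] (nat_lit 22443163)) p15_20_0 (nat_lit 4) (nat_lit 32) (nat_lit 33) = true := by decide +kernel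
def p15_20_0_33 : pfC (piC [(nat_lit 39120232), (nat_lit 25510466), (nat_lit 19038091), (nat_lit 12801343)] (nat_lit 22443163)) p15_20_0 (nat_lit 4) (nat_lit 33) (nat_lit 34) = true := by decide +kernel
def p15_20_0_34 : pfC (piC [(nat_lit 39120232), (nat_lit 25510466), (nat_lit 19038091), (nat_lit 12801343)] (nat_lit 22443163)) p15_20_0 (nat_lit 4) (nat_lit 34) (nat_lit 35) = true := by decide +kernel
def p15_20_0_35 : pfC (piC [(nat_lit 39120232), (nat_lit 25510466), (nat_lit 19038091), (nat_lit 12801343)] (nat_lit 22443163)) p15_20_0 (nat_lit 4) (nat_lit 35) (nat_lit 36) = true := by decide +kernel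
def p15_20_0_36 : pfC (piC [(nat_lit 39120232), (nat_lit 25510466), (nat_lit 19038091), (nat_lit 12801343)] (nat_lit 22443163)) p15_20_0 (nat_lit 4) (nat_lit 36) (nat_lit 37) = true := by decide +kernel
def p15_20_0_37 : pfC (piC [(nat_lit 39120232), (nat_lit 25510466), (nat_lit 19038091), (nat_lit 12801343)] (nat_lit 22443163)) p15_20_0 (nat_lit 4) (nat_lit 37) (nat_lit 38) = true := by decide +kernel
def p15_20_0_38 : pfC (piC [(nat_lit 39120232), (nat_lit 25510466), (nat_lit 19038091), (nat_lit 12801343)] (nat_lit 22443163)) p15_20_0 (nat_lit 4) (nat_lit 38) (nat_lit 39) = true := by decide +kernel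
def p15_20_0_39 : pfC (piC [(nat_lit 39120232), (nat_lit 25510466), (nat_lit 19038091), (nat_lit 12801343)] (nat_lit 22443163)) p15_20_0 (nat_lit 4) (nat_lit 39) (nat_lit 40) = true := by decide +kernel
def p15_20_0_40 : pfC (piC [(nat_lit 39120232), (nat_lit 25510466), (nat_lit 19038091), (nat_lit 12801343)] (nat_lit 22443163)) p15_20_0 (nat_lit 4) (nat_lit 40) (nat_lit 41) = true := by decide +kernel
def p15_20_0_41 : pfC (piC [(nat_lit 39120232), (nat_lit 25510466), (nat_lit 19038091), (nat_lit 12801343)] (nat_lit 22443163)) p15_20_0 (nat_lit 4) (nat_lit 41) (nat_lit 42) = true := by decide +kernel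
def p15_20_0_42 : pfC (piC [(nat_lit 39120232), (nat_lit 25510466), (nat_lit 19038091), (nat_lit 12801343)] (nat_lit 22443163)) p15_20_0 (nat_lit 4) (nat_lit 42) (nat_lit 43) = true := by decide +kernel
def p15_20_0_43 : pfC (piC [(nat_lit 39120232), (nat_lit 25510466), (nat_lit 19038091), (nat_lit 12801343)] (nat_lit 22443163)) p15_20_0 (nat_lit 4) (nat_lit 43) (nat_lit 44) = true := by decide +kernel
def p15_20_0_44 : pfC (piC [(nat_lit 39120232), (nat_lit 25510466), (nat_lit 19038091), (nat_lit 12801343)] (nat_lit 22443163)) p15_20_0 (nat_lit 4) (nat_lit 44) (nat_lit 45) = true := by decide +kernel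
def p15_20_0_45 : pfC (piC [(nat_lit 39120232), (nat_lit 25510466), (nat_lit 19038091), (nat_lit 12801343)] (nat_lit 22443163)) p15_20_0 (nat_lit 4) (nat_lit 45) (nat_lit 46) = true := by decide +kernel
def p15_20_0_46 : pfC (piC [(nat_lit 39120232), (nat_lit 25510466), (nat_lit 19038091), (nat_lit 12801343)] (nat_lit 22443163)) p15_20_0 (nat_lit 4) (nat_lit 46) (nat_lit 47) = true := by decide +kernel
def p15_20_0_47 : pfC (piC [(nat_lit 39120232), (nat_lit 25510466), (nat_lit 19038091), (nat_lit 12801343)] (nat_lit 22443163)) p15_20_0 (nat_lit 4) (nat_lit 47) (nat_lit 48) = true := by decide +kernel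
def p15_20_0_48 : pfC (piC [(nat_lit 39120232), (nat_lit 25510466), (nat_lit 19038091), (nat_lit 12801343)] (nat_lit 22443163)) p15_20_0 (nat_lit 4) (nat_lit 48) (nat_lit 49) = true := by decide +kernel
def p15_20_0_49 : pfC (piC [(nat_lit 39120232), (nat_lit 25510466), (nat_lit 19038091), (nat_lit 12801343)] (nat_lit 22443163)) p15_20_0 (nat_lit 4) (nat_lit 49) (nat_lit 50) = true := by decide +kernel
def p15_20_0_50 : pfC (piC [(nat_lit 39120232), (nat_lit 25510466), (nat_lit 19038091), (nat_lit 12801343)] (nat_lit 22443163)) p15_20_0 (nat_lit 4) (nat_lit 50) (nat_lit 51) = true := by decide +kernel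
def p15_20_0_51 : pfC (piC [(nat_lit 39120232), (nat_lit 25510466), (nat_lit 19038091), (nat_lit 12801343)] (nat_lit 22443163)) p15_20_0 (nat_lit 4) (nat_lit 51) (nat_lit 52) = true := by decide +kernel
def p15_20_0_52 : pfC (piC [(nat_lit 39120232), (nat_lit 25510466), (nat_lit 19038091), (nat_lit 12801343)] (nat_lit 22443163)) p15_20_0 (nat_lit 4) (nat_lit 52) (nat_lit 53) = true := by decide +kernel
def p15_20_0_53 : pfC (piC [(nat_lit 39120232), (nat_lit 25510466), (nat_lit 19038091), (nat_lit 12801343)] (nat_lit 22443163)) p15_20_0 (nat_lit 4) (nat_lit 53) (nat_lit 54) = true := by decide +kernel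
def p15_20_0_54 : pfC (piC [(nat_lit 39120232), (nat_lit 25510466), (nat_lit 19038091), (nat_lit 12801343)] (nat_lit 22443163)) p15_20_0 (nat_lit 4) (nat_lit 54) (nat_lit 55) = true := by decide +kernel
def p15_20_0_55 : pfC (piC [(nat_lit 39120232), (nat_lit 25510466), (nat_lit 19038091), (nat_lit 12801343)] (nat_lit 22443163)) p15_20_0 (nat_lit 4) (nat_lit 55) (nat_lit 56) = true := by decide +kernel
def p15_20_0_56 : pfC (piC [(nat_lit 39120232), (nat_lit 25510466), (nat_lit 19038091), (nat_lit 12801343)] (nat_lit 22443163)) p15_20_0 (nat_lit 4) (nat_lit 56) (nat_lit 57) = true := by decide +kernel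
def p15_20_0_57 : pfC (piC [(nat_lit 39120232), (nat_lit 25510466), (nat_lit 19038091), (nat_lit 12801343)] (nat_lit 22443163)) p15_20_0 (nat_lit 4) (nat_lit 57) (nat_lit 58) = true := by decide +kernel
def p15_20_0_58 : pfC (piC [(nat_lit 39120232), (nat_lit 25510466), (nat_lit 19038091), (nat_lit 12801343)] (nat_lit 22443163)) p15_20_0 (nat_lit 4) (nat_lit 58) (nat_lit 59) = true := by decide +kernel
def p15_20_0_59 : pfC (piC [(nat_lit 39120232), (nat_lit 25510466), (nat_lit 19038091), (nat_lit 12801343)] (nat_lit 22443163)) p15_20_0 (nat_lit 4) (nat_lit 59) (nat_lit 60) = true := by decide +kernel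
def p15_20_0_60 : pfC (piC [(nat_lit 39120232), (nat_lit 25510466), (nat_lit 19038091), (nat_lit 12801343)] (nat_lit 22443163)) p15_20_0 (nat_lit 4) (nat_lit 60) (nat_lit 61) = true := by decide +kernel
def p15_20_0_61 : pfC (piC [(nat_lit 39120232), (nat_lit 25510466), (nat_lit 19038091), (nat_lit 12801343)] (nat_lit 22443163)) p15_20_0 (nat_lit 4) (nat_lit 61) (nat_lit 62) = true := by decide +kernel
def p15_20_0_62 : pfC (piC [(nat_lit 39120232), (nat_lit 25510466), (nat_lit 19038091), (nat_lit 12801343)] (nat_lit 22443163)) p15_20_0 (nat_lit 4) (nat_lit 62) (nat_lit 63) = true := by decide +kernel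
def p15_20_0_63 : pfC (piC [(nat_lit 39120232), (nat_lit 25510466), (nat_lit 19038091), (nat_lit 12801343)] (nat_lit 22443163)) p15_20_0 (nat_lit 4) (nat_lit 63) (nat_lit 64) = true := by decide +kernel
def p15_20_0_64 : pfC (piC [(nat_lit 39120232), (nat_lit 25510466), (nat_lit 19038091), (nat_lit 12801343)] (nat_lit 22443163)) p15_20_0 (nat_lit 4) (nat_lit 64) (nat_lit 65) = true := by decide +kernel
def p15_20_0_65 : pfC (piC [(nat_lit 39120232), (nat_lit 25510466), (nat_lit 19038091), (nat_lit 12801343)] (nat_lit 22443163)) p15_20_0 (nat_lit 4) (nat_lit 65) (nat_lit 66) = true := by decide +kernel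
def p15_20_0_66 : pfC (piC [(nat_lit 39120232), (nat_lit 25510466), (nat_lit 19038091), (nat_lit 12801343)] (nat_lit 22443163)) p15_20_0 (nat_lit 4) (nat_lit 66) (nat_lit 67) = true := by decide +kernel
def p15_20_0_67 : pfC (piC [(nat_lit 39120232), (nat_lit 25510466), (nat_lit 19038091), (nat_lit 12801343)] (nat_lit 22443163)) p15_20_0 (nat_lit 4) (nat_lit 67) (nat_lit 68) = true := by decide +kernel
def p15_20_0_68 : pfC (piC [(nat_lit 39120232), (nat_lit 25510466), (nat_lit 19038091), (nat_lit 12801343)] (nat_lit 22443163)) p15_20_0 (nat_lit 4) (nat_lit 68) (nat_lit 69) = true := by decide +kernel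
def p15_20_0_69 : pfC (piC [(nat_lit 39120232), (nat_lit 25510466), (nat_lit 19038091), (nat_lit 12801343)] (nat_lit 22443163)) p15_20_0 (nat_lit 4) (nat_lit 69) (nat_lit 70) = true := by decide +kernel
def p15_20_0_70 : pfC (piC [(nat_lit 39120232), (nat_lit 25510466), (nat_lit 19038091), (nat_lit 12801343)] (nat_lit 22443163)) p15_20_0 (nat_lit 4) (nat_lit 70) (nat_lit 71) = true := by decide +kernel
def p15_20_0_71 : pfC (piC [(nat_lit 39120232), (nat_lit 25510466), (nat_lit 19038091), (nat_lit 12801343)] (nat_lit 22443163)) p15_20_0 (nat_lit 4) (nat_lit 71) (nat_lit 72) = true := by decide +kernel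
def p15_20_0_72 : pfC (piC [(nat_lit 39120232), (nat_lit 25510466), (nat_lit 19038091), (nat_lit 12801343)] (nat_lit 22443163)) p15_20_0 (nat_lit 4) (nat_lit 72) (nat_lit 73) = true := by decide +kernel
def p15_20_0_73 : pfC (piC [(nat_lit 39120232), (nat_lit 25510466), (nat_lit 19038091), (nat_lit 12801343)] (nat_lit 22443163)) p15_20_0 (nat_lit 4) (nat_lit 73) (nat_lit 74) = true := by decide +kernel
def p15_20_0_74 : pfC (piC [(nat_lit 39120232), (nat_lit 25510466), (nat_lit 19038091), (nat_lit 12801343)] (nat_lit 22443163)) p15_20_0 (nat_lit 4) (nat_lit 74) (nat_lit 75) = true := by decide +kernel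
def p15_20_0_75 : pfC (piC [(nat_lit 39120232), (nat_lit 25510466), (nat_lit 19038091), (nat_lit 12801343)] (nat_lit 22443163)) p15_20_0 (nat_lit 4) (nat_lit 75) (nat_lit 76) = true := by decide +kernel
def p15_20_0_76 : pfC (piC [(nat_lit 39120232), (nat_lit 25510466), (nat_lit 19038091), (nat_lit 12801343)] (nat_lit 22443163)) p15_20_0 (nat_lit 4) (nat_lit 76) (nat_lit 77) = true := by decide +kernel
def p15_20_0_77 : pfC (piC [(nat_lit 39120232), (nat_lit 25510466), (nat_lit 19038091), (nat_lit 12801343)] (nat_lit 22443163)) p15_20_0 (nat_lit 4) (nat_lit 77) (nat_lit 78) = true := by decide +kernel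
def p15_20_0_78 : pfC (piC [(nat_lit 39120232), (nat_lit 25510466), (nat_lit 19038091), (nat_lit 12801343)] (nat_lit 22443163)) p15_20_0 (nat_lit 4) (nat_lit 78) (nat_lit 79) = true := by decide +kernel
def p15_20_0_79 : pfC (piC [(nat_lit 39120232), (nat_lit 25510466), (nat_lit 19038091), (nat_lit 12801343)] (nat_lit 22443163)) p15_20_0 (nat_lit 4) (nat_lit 79) (nat_lit 80) = true := by decide +kernel
def p15_20_0_80 : pfC (piC [(nat_lit 39120232), (nat_lit 25510466), (nat_lit 19038091), (nat_lit 12801343)] (nat_lit 22443163)) p15_20_0 (nat_lit 4) (nat_lit 80) (nat_lit 81) = true := by decide +kernel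
def p15_20_0_81 : pfC (piC [(nat_lit 39120232), (nat_lit 25510466), (nat_lit 19038091), (nat_lit 12801343)] (nat_lit 22443163)) p15_20_0 (nat_lit 4) (nat_lit 81) (nat_lit 82) = true := by decide +kernel
def p15_20_0_82 : pfC (piC [(nat_lit 39120232), (nat_lit 25510466), (nat_lit 19038091), (nat_lit 12801343)] (nat_lit 22443163)) p15_20_0 (nat_lit 4) (nat_lit 82) (nat_lit 83) = true := by decide +kernel
def p15_20_0_83 : pfC (piC [(nat_lit 39120232), (nat_lit 25510466), (nat_lit 19038091), (nat_lit 12801343)] (nat_lit 22443163)) p15_20_0 (nat_lit 4) (nat_lit 83) (nat_lit 84) = true := by decide +kernel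
def p15_20_0_84 : pfC (piC [(nat_lit 39120232), (nat_lit 25510466), (nat_lit 19038091), (nat_lit 12801343)] (nat_lit 22443163)) p15_20_0 (nat_lit 4) (nat_lit 84) (nat_lit 85) = true := by decide +kernel
def p15_20_0_85 : pfC (piC [(nat_lit 39120232), (nat_lit 25510466), (nat_lit 19038091), (nat_lit 12801343)] (nat_lit 22443163)) p15_20_0 (nat_lit 4) (nat_lit 85) (nat_lit 86) = true := by decide +kernel
def p15_20_0_86 : pfC (piC [(nat_lit 39120232), (nat_lit 25510466), (nat_lit 19038091), (nat_lit 12801343)] (nat_lit 22443163)) p15_20_0 (nat_lit 4) (nat_lit 86) (nat_lit 87) = true := by decide +kernel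
def p15_20_0_87 : pfC (piC [(nat_lit 39120232), (nat_lit 25510466), (nat_lit 19038091), (nat_lit 12801343)] (nat_lit 22443163)) p15_20_0 (nat_lit 4) (nat_lit 87) (nat_lit 88) = true := by decide +kernel
def p15_20_0_88 : pfC (piC [(nat_lit 39120232), (nat_lit 25510466), (nat_lit 19038091), (nat_lit 12801343)] (nat_lit 22443163)) p15_20_0 (nat_lit 4) (nat_lit 88) (nat_lit 89) = true := by decide +kernel
def p15_20_0_89 : pfC (piC [(nat_lit 39120232), (nat_lit 25510466), (nat_lit 19038091), (nat_lit 12801343)] (nat_lit 22443163)) p15_20_0 (nat_lit 4) (nat_lit 89) (nat_lit 90) = true := by decide +kernel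
def p15_20_0_90 : pfC (piC [(nat_lit 39120232), (nat_lit 25510466), (nat_lit 19038091), (nat_lit 12801343)] (nat_lit 22443163)) p15_20_0 (nat_lit 4) (nat_lit 90) (nat_lit 91) = true := by decide +kernel
def p15_20_0_91 : pfC (piC [(nat_lit 39120232), (nat_lit 25510466), (nat_lit 19038091), (nat_lit 12801343)] (nat_lit 22443163)) p15_20_0 (nat_lit 4) (nat_lit 91) (nat_lit 92) = true := by decide +kernel
def p15_20_0_92 : pfC (piC [(nat_lit 39120232), (nat_lit 25510466), (nat_lit 19038091), (nat_lit 12801343)] (nat_lit 22443163)) p15_20_0 (nat_lit 4) (nat_lit 92) (nat_lit 93) = true := by decide +kernel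
def p15_20_0_93 : pfC (piC [(nat_lit 39120232), (nat_lit 25510466), (nat_lit 19038091), (nat_lit 12801343)] (nat_lit 22443163)) p15_20_0 (nat_lit 4) (nat_lit 93) (nat_lit 94) = true := by decide +kernel
def p15_20_0_94 : pfC (piC [(nat_lit 39120232), (nat_lit 25510466), (nat_lit 19038091), (nat_lit 12801343)] (nat_lit 22443163)) p15_20_0 (nat_lit 4) (nat_lit 94) (nat_lit 95) = true := by decide +kernel
def p15_20_0_95 : pfC (piC [(nat_lit 39120232), (nat_lit 25510466), (nat_lit 19038091), (nat_lit 12801343)] (nat_lit 22443163)) p15_20_0 (nat_lit 4) (nat_lit 95) (nat_lit 96) = true := by decide +kernel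
def p15_20_0_96 : pfC (piC [(nat_lit 39120232), (nat_lit 25510466), (nat_lit 19038091), (nat_lit 12801343)] (nat_lit 22443163)) p15_20_0 (nat_lit 4) (nat_lit 96) (nat_lit 97) = true := by decide +kernel
def p15_20_0_97 : pfC (piC [(nat_lit 39120232), (nat_lit 25510466), (nat_lit 19038091), (nat_lit 12801343)] (nat_lit 22443163)) p15_20_0 (nat_lit 4) (nat_lit 97) (nat_lit 98) = true := by decide +kernel
def p15_20_0_98 : pfC (piC [(nat_lit 39120232), (nat_lit 25510466), (nat_lit 19038091), (nat_lit 12801343)] (nat_lit 22443163)) p15_20_0 (nat_lit 4) (nat_lit 98) (nat_lit 99) = true := by decide +kernel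
def p15_20_0_99 : pfC (piC [(nat_lit 39120232), (nat_lit 25510466), (nat_lit 19038091), (nat_lit 12801343)] (nat_lit 22443163)) p15_20_0 (nat_lit 4) (nat_lit 99) (nat_lit 100) = true := by decide +kernel
def p15_20_0_100 : pfC (piC [(nat_lit 39120232), (nat_lit 25510466), (nat_lit 19038091), (nat_lit 12801343)] (nat_lit 22443163)) p15_20_0 (nat_lit 4) (nat_lit 100) (nat_lit 101) = true := by decide +kernel
def p15_20_0_101 : pfC (piC [(nat_lit 39120232), (nat_lit 25510466), (nat_lit 19038091), (nat_lit 12801343)] (nat_lit 22443163)) p15_20_0 (nat_lit 4) (nat_lit 101) (nat_lit 102) = true := by decide +kernel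
def p15_20_0_102 : pfC (piC [(nat_lit 39120232), (nat_lit 25510466), (nat_lit 19038091), (nat_lit 12801343)] (nat_lit 22443163)) p15_20_0 (nat_lit 4) (nat_lit 102) (nat_lit 103) = true := by decide +kernel
def p15_20_0_103 : pfC (piC [(nat_lit 39120232), (nat_lit 25510466), (nat_lit 19038091), (nat_lit 12801343)] (nat_lit 22443163)) p15_20_0 (nat_lit 4) (nat_lit 103) (nat_lit 104) = true := by decide +kernel
def p15_20_0_104 : pfC (piC [(nat_lit 39120232), (nat_lit 25510466), (nat_lit 19038091), (nat_lit 12801343)] (nat_lit 22443163)) p15_20_0 (nat_lit 4) (nat_lit 104) (nat_lit 105) = true := by decide +kernel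
def p15_20_0_105 : pfC (piC [(nat_lit 39120232), (nat_lit 25510466), (nat_lit 19038091), (nat_lit 12801343)] (nat_lit 22443163)) p15_20_0 (nat_lit 4) (nat_lit 105) (nat_lit 106) = true := by decide +kernel
def p15_20_0_106 : pfC (piC [(nat_lit 39120232), (nat_lit 25510466), (nat_lit 19038091), (nat_lit 12801343)] (nat_lit 22443163)) p15_20_0 (nat_lit 4) (nat_lit 106) (nat_lit 107) = true := by decide +kernel
def p15_20_0_107 : pfC (piC [(nat_lit 39120232), (nat_lit 25510466), (nat_lit 19038091), (nat_lit 12801343)] (nat_lit 22443163)) p15_20_0 (nat_lit 4) (nat_lit 107) (nat_lit 108) = true := by decide +kernel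
def p15_20_0_108 : pfC (piC [(nat_lit 39120232), (nat_lit 25510466), (nat_lit 19038091), (nat_lit 12801343)] (nat_lit 22443163)) p15_20_0 (nat_lit 4) (nat_lit 108) (nat_lit 109) = true := by decide +kernel
def p15_20_0_109 : pfC (piC [(nat_lit 39120232), (nat_lit 25510466), (nat_lit 19038091), (nat_lit 12801343)] (nat_lit 22443163)) p15_20_0 (nat_lit 4) (nat_lit 109) (nat_lit 110) = true := by decide +kernel
def p15_20_0_110 : pfC (piC [(nat_lit 39120232), (nat_lit 25510466), (nat_lit 19038091), (nat_lit 12801343)] (nat_lit 22443163)) p15_20_0 (nat_lit 4) (nat_lit 110) (nat_lit 111) = true := by decide +kernel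
def p15_20_0_111 : pfC (piC [(nat_lit 39120232), (nat_lit 25510466), (nat_lit 19038091), (nat_lit 12801343)] (nat_lit 22443163)) p15_20_0 (nat_lit 4) (nat_lit 111) (nat_lit 112) = true := by decide +kernel
def p15_20_0_112 : pfC (piC [(nat_lit 39120232), (nat_lit 25510466), (nat_lit 19038091), (nat_lit 12801343)] (nat_lit 22443163)) p15_20_0 (nat_lit 4) (nat_lit 112) (nat_lit 113) = true := by decide +kernel
def p15_20_0_113 : pfC (piC [(nat_lit 39120232), (nat_lit 25510466), (nat_lit 19038091), (nat_lit 12801343)] (nat_lit 22443163)) p15_20_0 (nat_lit 4) (nat_lit 113) (nat_lit 114) = true := by decide +kernel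
def p15_20_0_114 : pfC (piC [(nat_lit 39120232), (nat_lit 25510466), (nat_lit 19038091), (nat_lit 12801343)] (nat_lit 22443163)) p15_20_0 (nat_lit 4) (nat_lit 114) (nat_lit 115) = true := by decide +kernel
def p15_20_0_115 : pfC (piC [(nat_lit 39120232), (nat_lit 25510466), (nat_lit 19038091), (nat_lit 12801343)] (nat_lit 22443163)) p15_20_0 (nat_lit 4) (nat_lit 115) (nat_lit 116) = true := by decide +kernel
def p15_20_0_116 : pfC (piC [(nat_lit 39120232), (nat_lit 25510466), (nat_lit 19038091), (nat_lit 12801343)] (nat_lit 22443163)) p15_20_0 (nat_lit 4) (nat_lit 116) (nat_lit 117) = true := by decide +kernel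
def p15_20_0_117 : pfC (piC [(nat_lit 39120232), (nat_lit 25510466), (nat_lit 19038091), (nat_lit 12801343)] (nat_lit 22443163)) p15_20_0 (nat_lit 4) (nat_lit 117) (nat_lit 118) = true := by decide +kernel
def p15_20_0_118 : pfC (piC [(nat_lit 39120232), (nat_lit 25510466), (nat_lit 19038091), (nat_lit 12801343)] (nat_lit 22443163)) p15_20_0 (nat_lit 4) (nat_lit 118) (nat_lit 119) = true := by decide +kernel
def p15_20_0_119 : pfC (piC [(nat_lit 39120232), (nat_lit 25510466), (nat_lit 19038091), (nat_lit 12801343)] (nat_lit 22443163)) p15_20_0 (nat_lit 4) (nat_lit 119) (nat_lit 120) = true := by decide +kernel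
def p15_20_0_120 : pfC (piC [(nat_lit 39120232), (nat_lit 25510466), (nat_lit 19038091), (nat_lit 12801343)] (nat_lit 22443163)) p15_20_0 (nat_lit 4) (nat_lit 120) (nat_lit 121) = true := by decide +kernel
def p15_20_0_121 : pfC (piC [(nat_lit 39120232), (nat_lit 25510466), (nat_lit 19038091), (nat_lit 12801343)] (nat_lit 22443163)) p15_20_0 (nat_lit 4) (nat_lit 121) (nat_lit 122) = true := by decide +kernel
def p15_20_0_122 : pfC (piC [(nat_lit 39120232), (nat_lit 25510466), (nat_lit 19038091), (nat_lit 12801343)] (nat_lit 22443163)) p15_20_0 (nat_lit 4) (nat_lit 122) (nat_lit 123) = true := by decide +kernel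
def p15_20_0_123 : pfC (piC [(nat_lit 39120232), (nat_lit 25510466), (nat_lit 19038091), (nat_lit 12801343)] (nat_lit 22443163)) p15_20_0 (nat_lit 4) (nat_lit 123) (nat_lit 124) = true := by decide +kernel
def p15_20_0_124 : pfC (piC [(nat_lit 39120232), (nat_lit 25510466), (nat_lit 19038091), (nat_lit 12801343)] (nat_lit 22443163)) p15_20_0 (nat_lit 4) (nat_lit 124) (nat_lit 125) = true := by decide +kernel
def p15_20_0_125 : pfC (piC [(nat_lit 39120232), (nat_lit 25510466), (nat_lit 19038091), (nat_lit 12801343)] (nat_lit 22443163)) p15_20_0 (nat_lit 4) (nat_lit 125) (nat_lit 126) = true := by decide +kernel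
def p15_20_0_126 : pfC (piC [(nat_lit 39120232), (nat_lit 25510466), (nat_lit 19038091), (nat_lit 12801343)] (nat_lit 22443163)) p15_20_0 (nat_lit 4) (nat_lit 126) (nat_lit 127) = true := by decide +kernel
def p15_20_0_127 : pfC (piC [(nat_lit 39120232), (nat_lit 25510466), (nat_lit 19038091), (nat_lit 12801343)] (nat_lit 22443163)) p15_20_0 (nat_lit 4) (nat_lit 127) (nat_lit 128) = true := by decide +kernel
def p15_20_0_128 : pfC (piC [(nat_lit 39120232), (nat_lit 25510466), (nat_lit 19038091), (nat_lit 12801343)] (nat_lit 22443163)) p15_20_0 (nat_lit 4) (nat_lit 128) (nat_lit 129) = true := by decide +kernel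
def p15_20_0_129 : pfC (piC [(nat_lit 39120232), (nat_lit 25510466), (nat_lit 19038091), (nat_lit 12801343)] (nat_lit 22443163)) p15_20_0 (nat_lit 4) (nat_lit 129) (nat_lit 130) = true := by decide +kernel
def p15_20_0_130 : pfC (piC [(nat_lit 39120232), (nat_lit 25510466), (nat_lit 19038091), (nat_lit 12801343)] (nat_lit 22443163)) p15_20_0 (nat_lit 4) (nat_lit 130) (nat_lit 131) = true := by decide +kernel
def p15_20_0_131 : pfC (piC [(nat_lit 39120232), (nat_lit 25510466), (nat_lit 19038091), (nat_lit 12801343)] (nat_lit 22443163)) p15_20_0 (nat_lit 4) (nat_lit 131) (nat_lit 132) = true := by decide +kernel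
def p15_20_0_132 : pfC (piC [(nat_lit 39120232), (nat_lit 25510466), (nat_lit 19038091), (nat_lit 12801343)] (nat_lit 22443163)) p15_20_0 (nat_lit 4) (nat_lit 132) (nat_lit 133) = true := by decide +kernel
def p15_20_0_133 : pfC (piC [(nat_lit 39120232), (nat_lit 25510466), (nat_lit 19038091), (nat_lit 12801343)] (nat_lit 22443163)) p15_20_0 (nat_lit 4) (nat_lit 133) (nat_lit 134) = true := by decide +kernel
def p15_20_0_134 : pfC (piC [(nat_lit 39120232), (nat_lit 25510466), (nat_lit 19038091), (nat_lit 12801343)] (nat_lit 22443163)) p15_20_0 (nat_lit 4) (nat_lit 134) (nat_lit 135) = true := by decide +kernel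
def p15_20_0_135 : pfC (piC [(nat_lit 39120232), (nat_lit 25510466), (nat_lit 19038091), (nat_lit 12801343)] (nat_lit 22443163)) p15_20_0 (nat_lit 4) (nat_lit 135) (nat_lit 136) = true := by decide +kernel
def p15_20_0_136 : pfC (piC [(nat_lit 39120232), (nat_lit 25510466), (nat_lit 19038091), (nat_lit 12801343)] (nat_lit 22443163)) p15_20_0 (nat_lit 4) (nat_lit 136) (nat_lit 137) = true := by decide +kernel
def p15_20_0_137 : pfC (piC [(nat_lit 39120232), (nat_lit 25510466), (nat_lit 19038091), (nat_lit 12801343)] (nat_lit 22443163)) p15_20_0 (nat_lit 4) (nat_lit 137) (nat_lit 138) = true := by decide +kernel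
def p15_20_0_138 : pfC (piC [(nat_lit 39120232), (nat_lit 25510466), (nat_lit 19038091), (nat_lit 12801343)] (nat_lit 22443163)) p15_20_0 (nat_lit 4) (nat_lit 138) (nat_lit 139) = true := by decide +kernel
def p15_20_0_139 : pfC (piC [(nat_lit 39120232), (nat_lit 25510466), (nat_lit 19038091), (nat_lit 12801343)] (nat_lit 22443163)) p15_20_0 (nat_lit 4) (nat_lit 139) (nat_lit 140) = true := by decide +kernel
def p15_20_0_140 : pfC (piC [(nat_lit 39120232), (nat_lit 25510466), (nat_lit 19038091), (nat_lit 12801343)] (nat_lit 22443163)) p15_20_0 (nat_lit 4) (nat_lit 140) (nat_lit 141) = true := by decide +kernel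
def p15_20_0_141 : pfC (piC [(nat_lit 39120232), (nat_lit 25510466), (nat_lit 19038091), (nat_lit 12801343)] (nat_lit 22443163)) p15_20_0 (nat_lit 4) (nat_lit 141) (nat_lit 142) = true := by decide +kernel
def p15_20_0_142 : pfC (piC [(nat_lit 39120232), (nat_lit 25510466), (nat_lit 19038091), (nat_lit 12801343)] (nat_lit 22443163)) p15_20_0 (nat_lit 4) (nat_lit 142) (nat_lit 143) = true := by decide +kernel
def p15_20_0_143 : pfC (piC [(nat_lit 39120232), (nat_lit 25510466), (nat_lit 19038091), (nat_lit 12801343)] (nat_lit 22443163)) p15_20_0 (nat_lit 4) (nat_lit 143) (nat_lit 144) = true := by decide +kernel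
def p15_20_0_144 : pfC (piC [(nat_lit 39120232), (nat_lit 25510466), (nat_lit 19038091), (nat_lit 12801343)] (nat_lit 22443163)) p15_20_0 (nat_lit 4) (nat_lit 144) (nat_lit 145) = true := by decide +kernel
def p15_20_0_145 : pfC (piC [(nat_lit 39120232), (nat_lit 25510466), (nat_lit 19038091), (nat_lit 12801343)] (nat_lit 22443163)) p15_20_0 (nat_lit 4) (nat_lit 145) (nat_lit 146) = true := by decide +kernel
def p15_20_0_146 : pfC (piC [(nat_lit 39120232), (nat_lit 25510466), (nat_lit 19038091), (nat_lit 12801343)] (nat_lit 22443163)) p15_20_0 (nat_lit 4) (nat_lit 146) (nat_lit 147) = true := by decide +kernel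
def p15_20_0_147 : pfC (piC [(nat_lit 39120232), (nat_lit 25510466), (nat_lit 19038091), (nat_lit 12801343)] (nat_lit 22443163)) p15_20_0 (nat_lit 4) (nat_lit 147) (nat_lit 148) = true := by decide +kernel
def p15_20_0_148 : pfC (piC [(nat_lit 39120232), (nat_lit 25510466), (nat_lit 19038091), (nat_lit 12801343)] (nat_lit 22443163)) p15_20_0 (nat_lit 4) (nat_lit 148) (nat_lit 149) = true := by decide +kernel
def p15_20_0_149 : pfC (piC [(nat_lit 39120232), (nat_lit 25510466), (nat_lit 19038091), (nat_lit 12801343)] (nat_lit 22443163)) p15_20_0 (nat_lit 4) (nat_lit 149) (nat_lit 150) = true := by decide +kernel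
def p15_20_0_150 : pfC (piC [(nat_lit 39120232), (nat_lit 25510466), (nat_lit 19038091), (nat_lit 12801343)] (nat_lit 22443163)) p15_20_0 (nat_lit 4) (nat_lit 150) (nat_lit 151) = true := by decide +kernel
def p15_20_0_151 : pfC (piC [(nat_lit 39120232), (nat_lit 25510466), (nat_lit 19038091), (nat_lit 12801343)] (nat_lit 22443163)) p15_20_0 (nat_lit 4) (nat_lit 151) (nat_lit 152) = true := by decide +kernel
def p15_20_0_152 : pfC (piC [(nat_lit 39120232), (nat_lit 25510466), (nat_lit 19038091), (nat_lit 12801343)] (nat_lit 22443163)) p15_20_0 (nat_lit 4) (nat_lit 152) (nat_lit 153) = true := by decide +kernel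
def p15_20_0_153 : pfC (piC [(nat_lit 39120232), (nat_lit 25510466), (nat_lit 19038091), (nat_lit 12801343)] (nat_lit 22443163)) p15_20_0 (nat_lit 4) (nat_lit 153) (nat_lit 154) = true := by decide +kernel
def p15_20_0_154 : pfC (piC [(nat_lit 39120232), (nat_lit 25510466), (nat_lit 19038091), (nat_lit 12801343)] (nat_lit 22443163)) p15_20_0 (nat_lit 4) (nat_lit 154) (nat_lit 155) = true := by decide +kernel
def p15_20_0_155 : pfC (piC [(nat_lit 39120232), (nat_lit 25510466), (nat_lit 19038091), (nat_lit 12801343)] (nat_lit 22443163)) p15_20_0 (nat_lit 4) (nat_lit 155) (nat_lit 156) = true := by decide +kernel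
def p15_20_0_156 : pfC (piC [(nat_lit 39120232), (nat_lit 25510466), (nat_lit 19038091), (nat_lit 12801343)] (nat_lit 22443163)) p15_20_0 (nat_lit 4) (nat_lit 156) (nat_lit 157) = true := by decide +kernel
def p15_20_0_157 : pfC (piC [(nat_lit 39120232), (nat_lit 25510466), (nat_lit 19038091), (nat_lit 12801343)] (nat_lit 22443163)) p15_20_0 (nat_lit 4) (nat_lit 157) (nat_lit 158) = true := by decide +kernel
def p15_20_0_158 : pfC (piC [(nat_lit 39120232), (nat_lit 25510466), (nat_lit 19038091), (nat_lit 12801343)] (nat_lit 22443163)) p15_20_0 (nat_lit 4) (nat_lit 158) (nat_lit 159) = true := by decide +kernel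
def p15_20_0_159 : pfC (piC [(nat_lit 39120232), (nat_lit 25510466), (nat_lit 19038091), (nat_lit 12801343)] (nat_lit 22443163)) p15_20_0 (nat_lit 4) (nat_lit 159) (nat_lit 160) = true := by decide +kernel
def p15_20_0_160 : pfC (piC [(nat_lit 39120232), (nat_lit 25510466), (nat_lit 19038091), (nat_lit 12801343)] (nat_lit 22443163)) p15_20_0 (nat_lit 4) (nat_lit 160) (nat_lit 161) = true := by decide +kernel
def p15_20_0_161 : pfC (piC [(nat_lit 39120232), (nat_lit 25510466), (nat_lit 19038091), (nat_lit 12801343)] (nat_lit 22443163)) p15_20_0 (nat_lit 4) (nat_lit 161) (nat_lit 162) = true := by decide +kernel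
def p15_20_0_162 : pfC (piC [(nat_lit 39120232), (nat_lit 25510466), (nat_lit 19038091), (nat_lit 12801343)] (nat_lit 22443163)) p15_20_0 (nat_lit 4) (nat_lit 162) (nat_lit 163) = true := by decide +kernel
def p15_20_0_163 : pfC (piC [(nat_lit 39120232), (nat_lit 25510466), (nat_lit 19038091), (nat_lit 12801343)] (nat_lit 22443163)) p15_20_0 (nat_lit 4) (nat_lit 163) (nat_lit 164) = true := by decide +kernel
def p15_20_0_164 : pfC (piC [(nat_lit 39120232), (nat_lit 25510466), (nat_lit 19038091), (nat_lit 12801343)] (nat_lit 22443163)) p15_20_0 (nat_lit 4) (nat_lit 164) (nat_lit 165) = true := by decide +kernel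
def p15_20_0_165 : pfC (piC [(nat_lit 39120232), (nat_lit 25510466), (nat_lit 19038091), (nat_lit 12801343)] (nat_lit 22443163)) p15_20_0 (nat_lit 4) (nat_lit 165) (nat_lit 166) = true := by decide +kernel
def p15_20_0_166 : pfC (piC [(nat_lit 39120232), (nat_lit 25510466), (nat_lit 19038091), (nat_lit 12801343)] (nat_lit 22443163)) p15_20_0 (nat_lit 4) (nat_lit 166) (nat_lit 167) = true := by decide +kernel
def p15_20_0_167 : pfC (piC [(nat_lit 39120232), (nat_lit 25510466), (nat_lit 19038091), (nat_lit 12801343)] (nat_lit 22443163)) p15_20_0 (nat_lit 4) (nat_lit 167) (nat_lit 168) = true := by decide +kernel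
def p15_20_0_168 : pfC (piC [(nat_lit 39120232), (nat_lit 25510466), (nat_lit 19038091), (nat_lit 12801343)] (nat_lit 22443163)) p15_20_0 (nat_lit 4) (nat_lit 168) (nat_lit 169) = true := by decide +kernel
def p15_20_0_169 : pfC (piC [(nat_lit 39120232), (nat_lit 25510466), (nat_lit 19038091), (nat_lit 12801343)] (nat_lit 22443163)) p15_20_0 (nat_lit 4) (nat_lit 169) (nat_lit 170) = true := by decide +kernel
def p15_20_0_170 : pfC (piC [(nat_lit 39120232), (nat_lit 25510466), (nat_lit 19038091), (nat_lit 12801343)] (nat_lit 22443163)) p15_20_0 (nat_lit 4) (nat_lit 170) (nat_lit 171) = true := by decide +kernel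
def p15_20_0_171 : pfC (piC [(nat_lit 39120232), (nat_lit 25510466), (nat_lit 19038091), (nat_lit 12801343)] (nat_lit 22443163)) p15_20_0 (nat_lit 4) (nat_lit 171) (nat_lit 172) = true := by decide +kernel
def p15_20_0_172 : pfC (piC [(nat_lit 39120232), (nat_lit 25510466), (nat_lit 19038091), (nat_lit 12801343)] (nat_lit 22443163)) p15_20_0 (nat_lit 4) (nat_lit 172) (nat_lit 173) = true := by decide +kernel
def p15_20_0_173 : pfC (piC [(nat_lit 39120232), (nat_lit 25510466), (nat_lit 19038091), (nat_lit 12801343)] (nat_lit 22443163)) p15_20_0 (nat_lit 4) (nat_lit 173) (nat_lit 174) = true := by decide +kernel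
def p15_20_0_174 : pfC (piC [(nat_lit 39120232), (nat_lit 25510466), (nat_lit 19038091), (nat_lit 12801343)] (nat_lit 22443163)) p15_20_0 (nat_lit 4) (nat_lit 174) (nat_lit 175) = true := by decide +kernel
def p15_20_0_175 : pfC (piC [(nat_lit 39120232), (nat_lit 25510466), (nat_lit 19038091), (nat_lit 12801343)] (nat_lit 22443163)) p15_20_0 (nat_lit 4) (nat_lit 175) (nat_lit 176) = true := by decide +kernel
def p15_20_0_176 : pfC (piC [(nat_lit 39120232), (nat_lit 25510466), (nat_lit 19038091), (nat_lit 12801343)] (nat_lit 22443163)) p15_20_0 (nat_lit 4) (nat_lit 176) (nat_lit 177) = true := by decide +kernel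
def p15_20_0_177 : pfC (piC [(nat_lit 39120232), (nat_lit 25510466), (nat_lit 19038091), (nat_lit 12801343)] (nat_lit 22443163)) p15_20_0 (nat_lit 4) (nat_lit 177) (nat_lit 178) = true := by decide +kernel
def p15_20_0_178 : pfC (piC [(nat_lit 39120232), (nat_lit 25510466), (nat_lit 19038091), (nat_lit 12801343)] (nat_lit 22443163)) p15_20_0 (nat_lit 4) (nat_lit 178) (nat_lit 179) = true := by decide +kernel
def p15_20_0_179 : pfC (piC [(nat_lit 39120232), (nat_lit 25510466), (nat_lit 19038091), (nat_lit 12801343)] (nat_lit 22443163)) p15_20_0 (nat_lit 4) (nat_lit 179) (nat_lit 180) = true := by decide +kernel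
def p15_20_0_180 : pfC (piC [(nat_lit 39120232), (nat_lit 25510466), (nat_lit 19038091), (nat_lit 12801343)] (nat_lit 22443163)) p15_20_0 (nat_lit 4) (nat_lit 180) (nat_lit 181) = true := by decide +kernel
def p15_20_0_181 : pfC (piC [(nat_lit 39120232), (nat_lit 25510466), (nat_lit 19038091), (nat_lit 12801343)] (nat_lit 22443163)) p15_20_0 (nat_lit 4) (nat_lit 181) (nat_lit 182) = true := by decide +kernel
def p15_20_0_182 : pfC (piC [(nat_lit 39120232), (nat_lit 25510466), (nat_lit 19038091), (nat_lit 12801343)] (nat_lit 22443163)) p15_20_0 (nat_lit 4) (nat_lit 182) (nat_lit 183) = true := by decide +kernel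
def p15_20_0_183 : pfC (piC [(nat_lit 39120232), (nat_lit 25510466), (nat_lit 19038091), (nat_lit 12801343)] (nat_lit 22443163)) p15_20_0 (nat_lit 4) (nat_lit 183) (nat_lit 184) = true := by decide +kernel
def p15_20_0_184 : pfC (piC [(nat_lit 39120232), (nat_lit 25510466), (nat_lit 19038091), (nat_lit 12801343)] (nat_lit 22443163)) p15_20_0 (nat_lit 4) (nat_lit 184) (nat_lit 185) = true := by decide +kernel
def p15_20_0_185 : pfC (piC [(nat_lit 39120232), (nat_lit 25510466), (nat_lit 19038091), (nat_lit 12801343)] (nat_lit 22443163)) p15_20_0 (nat_lit 4) (nat_lit 185) (nat_lit 186) = true := by decide +kernel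
def p15_20_0_186 : pfC (piC [(nat_lit 39120232), (nat_lit 25510466), (nat_lit 19038091), (nat_lit 12801343)] (nat_lit 22443163)) p15_20_0 (nat_lit 4) (nat_lit 186) (nat_lit 187) = true := by decide +kernel
def p15_20_0_187 : pfC (piC [(nat_lit 39120232), (nat_lit 25510466), (nat_lit 19038091), (nat_lit 12801343)] (nat_lit 22443163)) p15_20_0 (nat_lit 4) (nat_lit 187) (nat_lit 188) = true := by decide +kernel
def p15_20_0_188 : pfC (piC [(nat_lit 39120232), (nat_lit 25510466), (nat_lit 19038091), (nat_lit 12801343)] (nat_lit 22443163)) p15_20_0 (nat_lit 4) (nat_lit 188) (nat_lit 189) = true := by decide +kernel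
def p15_20_0_189 : pfC (piC [(nat_lit 39120232), (nat_lit 25510466), (nat_lit 19038091), (nat_lit 12801343)] (nat_lit 22443163)) p15_20_0 (nat_lit 4) (nat_lit 189) (nat_lit 190) = true := by decide +kernel
def p15_20_0_190 : pfC (piC [(nat_lit 39120232), (nat_lit 25510466), (nat_lit 19038091), (nat_lit 12801343)] (nat_lit 22443163)) p15_20_0 (nat_lit 4) (nat_lit 190) (nat_lit 191) = true := by decide +kernel
def p15_20_0_191 : pfC (piC [(nat_lit 39120232), (nat_lit 25510466), (nat_lit 19038091), (nat_lit 12801343)] (nat_lit 22443163)) p15_20_0 (nat_lit 4) (nat_lit 191) (nat_lit 192) = true := by decide +kernel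
def p15_20_0_192 : pfC (piC [(nat_lit 39120232), (nat_lit 25510466), (nat_lit 19038091), (nat_lit 12801343)] (nat_lit 22443163)) p15_20_0 (nat_lit 4) (nat_lit 192) (nat_lit 193) = true := by decide +kernel
def p15_20_0_193 : pfC (piC [(nat_lit 39120232), (nat_lit 25510466), (nat_lit 19038091), (nat_lit 12801343)] (nat_lit 22443163)) p15_20_0 (nat_lit 4) (nat_lit 193) (nat_lit 194) = true := by decide +kernel
def p15_20_0_194 : pfC (piC [(nat_lit 39120232), (nat_lit 25510466), (nat_lit 19038091), (nat_lit 12801343)] (nat_lit 22443163)) p15_20_0 (nat_lit 4) (nat_lit 194) (nat_lit 195) = true := by decide +kernel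
def p15_20_0_195 : pfC (piC [(nat_lit 39120232), (nat_lit 25510466), (nat_lit 19038091), (nat_lit 12801343)] (nat_lit 22443163)) p15_20_0 (nat_lit 4) (nat_lit 195) (nat_lit 196) = true := by decide +kernel
def p15_20_0_196 : pfC (piC [(nat_lit 39120232), (nat_lit 25510466), (nat_lit 19038091), (nat_lit 12801343)] (nat_lit 22443163)) p15_20_0 (nat_lit 4) (nat_lit 196) (nat_lit 197) = true := by decide +kernel
def p15_20_0_197 : pfC (piC [(nat_lit 39120232), (nat_lit 25510466), (nat_lit 19038091), (nat_lit 12801343)] (nat_lit 22443163)) p15_20_0 (nat_lit 4) (nat_lit 197) (nat_lit 198) = true := by decide +kernel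
def p15_20_0_198 : pfC (piC [(nat_lit 39120232), (nat_lit 25510466), (nat_lit 19038091), (nat_lit 12801343)] (nat_lit 22443163)) p15_20_0 (nat_lit 4) (nat_lit 198) (nat_lit 199) = true := by decide +kernel
def p15_20_0_199 : pfC (piC [(nat_lit 39120232), (nat_lit 25510466), (nat_lit 19038091), (nat_lit 12801343)] (nat_lit 22443163)) p15_20_0 (nat_lit 4) (nat_lit 199) (nat_lit 200) = true := by decide +kernel
def p15_20_0_200 : pfC (piC [(nat_lit 39120232), (nat_lit 25510466), (nat_lit 19038091), (nat_lit 12801343)] (nat_lit 22443163)) p15_20_0 (nat_lit 4) (nat_lit 200) (nat_lit 201) = true := by decide +kernel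
def p15_20_0_201 : pfC (piC [(nat_lit 39120232), (nat_lit 25510466), (nat_lit 19038091), (nat_lit 12801343)] (nat_lit 22443163)) p15_20_0 (nat_lit 4) (nat_lit 201) (nat_lit 202) = true := by decide +kernel
def p15_20_0_202 : pfC (piC [(nat_lit 39120232), (nat_lit 25510466), (nat_lit 19038091), (nat_lit 12801343)] (nat_lit 22443163)) p15_20_0 (nat_lit 4) (nat_lit 202) (nat_lit 203) = true := by decide +kernel
def p15_20_0_203 : pfC (piC [(nat_lit 39120232), (nat_lit 25510466), (nat_lit 19038091), (nat_lit 12801343)] (nat_lit 22443163)) p15_20_0 (nat_lit 4) (nat_lit 203) (nat_lit 204) = true := by decide +kernel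
def p15_20_0_204 : pfC (piC [(nat_lit 39120232), (nat_lit 25510466), (nat_lit 19038091), (nat_lit 12801343)] (nat_lit 22443163)) p15_20_0 (nat_lit 4) (nat_lit 204) (nat_lit 205) = true := by decide +kernel
def p15_20_0_205 : pfC (piC [(nat_lit 39120232), (nat_lit 25510466), (nat_lit 19038091), (nat_lit 12801343)] (nat_lit 22443163)) p15_20_0 (nat_lit 4) (nat_lit 205) (nat_lit 206) = true := by decide +kernel
def p15_20_0_206 : pfC (piC [(nat_lit 39120232), (nat_lit 25510466), (nat_lit 19038091), (nat_lit 12801343)] (nat_lit 22443163)) p15_20_0 (nat_lit 4) (nat_lit 206) (nat_lit 207) = true := by decide +kernel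
def p15_20_0_207 : pfC (piC [(nat_lit 39120232), (nat_lit 25510466), (nat_lit 19038091), (nat_lit 12801343)] (nat_lit 22443163)) p15_20_0 (nat_lit 4) (nat_lit 207) (nat_lit 208) = true := by decide +kernel
def p15_20_0_208 : pfC (piC [(nat_lit 39120232), (nat_lit 25510466), (nat_lit 19038091), (nat_lit 12801343)] (nat_lit 22443163)) p15_20_0 (nat_lit 4) (nat_lit 208) (nat_lit 209) = true := by decide +kernel
def p15_20_0_209 : pfC (piC [(nat_lit 39120232), (nat_lit 25510466), (nat_lit 19038091), (nat_lit 12801343)] (nat_lit 22443163)) p15_20_0 (nat_lit 4) (nat_lit 209) (nat_lit 210) = true := by decide +kernel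
def p15_20_0_210 : pfC (piC [(nat_lit 39120232), (nat_lit 25510466), (nat_lit 19038091), (nat_lit 12801343)] (nat_lit 22443163)) p15_20_0 (nat_lit 4) (nat_lit 210) (nat_lit 211) = true := by decide +kernel
def p15_20_0_211 : pfC (piC [(nat_lit 39120232), (nat_lit 25510466), (nat_lit 19038091), (nat_lit 12801343)] (nat_lit 22443163)) p15_20_0 (nat_lit 4) (nat_lit 211) (nat_lit 212) = true := by decide +kernel
def p15_20_0_212 : pfC (piC [(nat_lit 39120232), (nat_lit 25510466), (nat_lit 19038091), (nat_lit 12801343)] (nat_lit 22443163)) p15_20_0 (nat_lit 4) (nat_lit 212) (nat_lit 213) = true := by decide +kernel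
def p15_20_0_213 : pfC (piC [(nat_lit 39120232), (nat_lit 25510466), (nat_lit 19038091), (nat_lit 12801343)] (nat_lit 22443163)) p15_20_0 (nat_lit 4) (nat_lit 213) (nat_lit 214) = true := by decide +kernel
def p15_20_0_214 : pfC (piC [(nat_lit 39120232), (nat_lit 25510466), (nat_lit 19038091), (nat_lit 12801343)] (nat_lit 22443163)) p15_20_0 (nat_lit 4) (nat_lit 214) (nat_lit 215) = true := by decide +kernel
def p15_20_0_215 : pfC (piC [(nat_lit 39120232), (nat_lit 25510466), (nat_lit 19038091), (nat_lit 12801343)] (nat_lit 22443163)) p15_20_0 (nat_lit 4) (nat_lit 215) (nat_lit 216) = true := by decide +kernel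
def p15_20_0_216 : pfC (piC [(nat_lit 39120232), (nat_lit 25510466), (nat_lit 19038091), (nat_lit 12801343)] (nat_lit 22443163)) p15_20_0 (nat_lit 4) (nat_lit 216) (nat_lit 217) = true := by decide +kernel
def p15_20_0_217 : pfC (piC [(nat_lit 39120232), (nat_lit 25510466), (nat_lit 19038091), (nat_lit 12801343)] (nat_lit 22443163)) p15_20_0 (nat_lit 4) (nat_lit 217) (nat_lit 218) = true := by decide +kernel
def p15_20_0_218 : pfC (piC [(nat_lit 39120232), (nat_lit 25510466), (nat_lit 19038091), (nat_lit 12801343)] (nat_lit 22443163)) p15_20_0 (nat_lit 4) (nat_lit 218) (nat_lit 219) = true := by decide +kernel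
def p15_20_0_219 : pfC (piC [(nat_lit 39120232), (nat_lit 25510466), (nat_lit 19038091), (nat_lit 12801343)] (nat_lit 22443163)) p15_20_0 (nat_lit 4) (nat_lit 219) (nat_lit 220) = true := by decide +kernel
def p15_20_0_220 : pfC (piC [(nat_lit 39120232), (nat_lit 25510466), (nat_lit 19038091), (nat_lit 12801343)] (nat_lit 22443163)) p15_20_0 (nat_lit 4) (nat_lit 220) (nat_lit 221) = true := by decide +kernel
def p15_20_0_221 : pfC (piC [(nat_lit 39120232), (nat_lit 25510466), (nat_lit 19038091), (nat_lit 12801343)] (nat_lit 22443163)) p15_20_0 (nat_lit 4) (nat_lit 221) (nat_lit 222) = true := by decide +kernel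
def p15_20_0_222 : pfC (piC [(nat_lit 39120232), (nat_lit 25510466), (nat_lit 19038091), (nat_lit 12801343)] (nat_lit 22443163)) p15_20_0 (nat_lit 4) (nat_lit 222) (nat_lit 223) = true := by decide +kernel
def p15_20_0_223 : pfC (piC [(nat_lit 39120232), (nat_lit 25510466), (nat_lit 19038091), (nat_lit 12801343)] (nat_lit 22443163)) p15_20_0 (nat_lit 4) (nat_lit 223) (nat_lit 224) = true := by decide +kernel
def p15_20_0_224 : pfC (piC [(nat_lit 39120232), (nat_lit 25510466), (nat_lit 19038091), (nat_lit 12801343)] (nat_lit 22443163)) p15_20_0 (nat_lit 4) (nat_lit 224) (nat_lit 225) = true := by decide +kernel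
def p15_20_0_225 : pfC (piC [(nat_lit 39120232), (nat_lit 25510466), (nat_lit 19038091), (nat_lit 12801343)] (nat_lit 22443163)) p15_20_0 (nat_lit 4) (nat_lit 225) (nat_lit 226) = true := by decide +kernel
def p15_20_0_226 : pfC (piC [(nat_lit 39120232), (nat_lit 25510466), (nat_lit 19038091), (nat_lit 12801343)] (nat_lit 22443163)) p15_20_0 (nat_lit 4) (nat_lit 226) (nat_lit 227) = true := by decide +kernel
def p15_20_0_227 : pfC (piC [(nat_lit 39120232), (nat_lit 25510466), (nat_lit 19038091), (nat_lit 12801343)] (nat_lit 22443163)) p15_20_0 (nat_lit 4) (nat_lit 227) (nat_lit 228) = true := by decide +kernel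
def p15_20_0_228 : pfC (piC [(nat_lit 39120232), (nat_lit 25510466), (nat_lit 19038091), (nat_lit 12801343)] (nat_lit 22443163)) p15_20_0 (nat_lit 4) (nat_lit 228) (nat_lit 229) = true := by decide +kernel
def p15_20_0_229 : pfC (piC [(nat_lit 39120232), (nat_lit 25510466), (nat_lit 19038091), (nat_lit 12801343)] (nat_lit 22443163)) p15_20_0 (nat_lit 4) (nat_lit 229) (nat_lit 230) = true := by decide +kernel
def p15_20_0_230 : pfC (piC [(nat_lit 39120232), (nat_lit 25510466), (nat_lit 19038091), (nat_lit 12801343)] (nat_lit 22443163)) p15_20_0 (nat_lit 4) (nat_lit 230) (nat_lit 231) = true := by decide +kernel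
def p15_20_0_231 : pfC (piC [(nat_lit 39120232), (nat_lit 25510466), (nat_lit 19038091), (nat_lit 12801343)] (nat_lit 22443163)) p15_20_0 (nat_lit 4) (nat_lit 231) (nat_lit 232) = true := by decide +kernel
def p15_20_0_232 : pfC (piC [(nat_lit 39120232), (nat_lit 25510466), (nat_lit 19038091), (nat_lit 12801343)] (nat_lit 22443163)) p15_20_0 (nat_lit 4) (nat_lit 232) (nat_lit 233) = true := by decide +kernel
def p15_20_0_233 : pfC (piC [(nat_lit 39120232), (nat_lit 25510466), (nat_lit 19038091), (nat_lit 12801343)] (nat_lit 22443163)) p15_20_0 (nat_lit 4) (nat_lit 233) (nat_lit 234) = true := by decide +kernel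
def p15_20_0_234 : pfC (piC [(nat_lit 39120232), (nat_lit 25510466), (nat_lit 19038091), (nat_lit 12801343)] (nat_lit 22443163)) p15_20_0 (nat_lit 4) (nat_lit 234) (nat_lit 235) = true := by decide +kernel
def p15_20_0_235 : pfC (piC [(nat_lit 39120232), (nat_lit 25510466), (nat_lit 19038091), (nat_lit 12801343)] (nat_lit 22443163)) p15_20_0 (nat_lit 4) (nat_lit 235) (nat_lit 236) = true := by decide +kernel
def p15_20_0_236 : pfC (piC [(nat_lit 39120232), (nat_lit 25510466), (nat_lit 19038091), (nat_lit 12801343)] (nat_lit 22443163)) p15_20_0 (nat_lit 4) (nat_lit 236) (nat_lit 237) = true := by decide +kernel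
def p15_20_0_237 : pfC (piC [(nat_lit 39120232), (nat_lit 25510466), (nat_lit 19038091), (nat_lit 12801343)] (nat_lit 22443163)) p15_20_0 (nat_lit 4) (nat_lit 237) (nat_lit 238) = true := by decide +kernel
def p15_20_0_238 : pfC (piC [(nat_lit 39120232), (nat_lit 25510466), (nat_lit 19038091), (nat_lit 12801343)] (nat_lit 22443163)) p15_20_0 (nat_lit 4) (nat_lit 238) (nat_lit 239) = true := by decide +kernel
def p15_20_0_239 : pfC (piC [(nat_lit 39120232), (nat_lit 25510466), (nat_lit 19038091), (nat_lit 12801343)] (nat_lit 22443163)) p15_20_0 (nat_lit 4) (nat_lit 239) (nat_lit 240) = true := by decide +kernel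
def p15_20_0_240 : pfC (piC [(nat_lit 39120232), (nat_lit 25510466), (nat_lit 19038091), (nat_lit 12801343)] (nat_lit 22443163)) p15_20_0 (nat_lit 4) (nat_lit 240) (nat_lit 241) = true := by decide +kernel
def p15_20_0_241 : pfC (piC [(nat_lit 39120232), (nat_lit 25510466), (nat_lit 19038091), (nat_lit 12801343)] (nat_lit 22443163)) p15_20_0 (nat_lit 4) (nat_lit 241) (nat_lit 242) = true := by decide +kernel
def p15_20_0_242 : pfC (piC [(nat_lit 39120232), (nat_lit 25510466), (nat_lit 19038091), (nat_lit 12801343)] (nat_lit 22443163)) p15_20_0 (nat_lit 4) (nat_lit 242) (nat_lit 243) = true := by decide +kernel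
def p15_20_0_243 : pfC (piC [(nat_lit 39120232), (nat_lit 25510466), (nat_lit 19038091), (nat_lit 12801343)] (nat_lit 22443163)) p15_20_0 (nat_lit 4) (nat_lit 243) (nat_lit 244) = true := by decide +kernel
def p15_20_0_244 : pfC (piC [(nat_lit 39120232), (nat_lit 25510466), (nat_lit 19038091), (nat_lit 12801343)] (nat_lit 22443163)) p15_20_0 (nat_lit 4) (nat_lit 244) (nat_lit 245) = true := by decide +kernel
def p15_20_0_245 : pfC (piC [(nat_lit 39120232), (nat_lit 25510466), (nat_lit 19038091), (nat_lit 12801343)] (nat_lit 22443163)) p15_20_0 (nat_lit 4) (nat_lit 245) (nat_lit 246) = true := by decide +kernel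
def p15_20_0_246 : pfC (piC [(nat_lit 39120232), (nat_lit 25510466), (nat_lit 19038091), (nat_lit 12801343)] (nat_lit 22443163)) p15_20_0 (nat_lit 4) (nat_lit 246) (nat_lit 247) = true := by decide +kernel
def p15_20_0_247 : pfC (piC [(nat_lit 39120232), (nat_lit 25510466), (nat_lit 19038091), (nat_lit 12801343)] (nat_lit 22443163)) p15_20_0 (nat_lit 4) (nat_lit 247) (nat_lit 248) = true := by decide +kernel
def p15_20_0_248 : pfC (piC [(nat_lit 39120232), (nat_lit 25510466), (nat_lit 19038091), (nat_lit 12801343)] (nat_lit 22443163)) p15_20_0 (nat_lit 4) (nat_lit 248) (nat_lit 249) = true := by decide +kernel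
def p15_20_0_249 : pfC (piC [(nat_lit 39120232), (nat_lit 25510466), (nat_lit 19038091), (nat_lit 12801343)] (nat_lit 22443163)) p15_20_0 (nat_lit 4) (nat_lit 249) (nat_lit 250) = true := by decide +kernel
def p15_20_0_250 : pfC (piC [(nat_lit 39120232), (nat_lit 25510466), (nat_lit 19038091), (nat_lit 12801343)] (nat_lit 22443163)) p15_20_0 (nat_lit 4) (nat_lit 250) (nat_lit 251) = true := by decide +kernel
def p15_20_0_251 : pfC (piC [(nat_lit 39120232), (nat_lit 25510466), (nat_lit 19038091), (nat_lit 12801343)] (nat_lit 22443163)) p15_20_0 (nat_lit 4) (nat_lit 251) (nat_lit 252) = true := by decide +kernel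
def p15_20_0_252 : pfC (piC [(nat_lit 39120232), (nat_lit 25510466), (nat_lit 19038091), (nat_lit 12801343)] (nat_lit 22443163)) p15_20_0 (nat_lit 4) (nat_lit 252) (nat_lit 253) = true := by decide +kernel
def p15_20_0_253 : pfC (piC [(nat_lit 39120232), (nat_lit 25510466), (nat_lit 19038091), (nat_lit 12801343)] (nat_lit 22443163)) p15_20_0 (nat_lit 4) (nat_lit 253) (nat_lit 254) = true := by decide +kernel
theorem p15_20_0_T : PfS (PiF n15_20.reverse (nat_lit 22443163)) p15_20_0 (nat_lit 4) [] 0 :=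
  pftab_of (los := [(nat_lit 39120232), (nat_lit 25510466), (nat_lit 19038091), (nat_lit 12801343)]) (by decide +kernel) (hi := (nat_lit 254)) (PfP.trans (PfP.trans (PfP.trans (PfP.trans (PfP.trans (PfP.trans (PfP.trans (PfP.trans (PfP.trans (PfP.trans (PfP.trans (PfP.trans (PfP.trans (PfP.trans (PfP.trans (PfP.trans (PfP.trans (PfP.trans (PfP.trans (PfP.trans (PfP.trans (PfP.trans (PfP.trans (PfP.trans (PfP.trans (PfP.trans (PfP.trans (PfP.trans (PfP.trans (PfP.trans (PfP.trans (PfP.trans (PfP.trans (PfP.trans (PfP.trans (PfP.trans (PfP.trans (PfP.trans (PfP.trans (PfP.trans (PfP.trans (PfP.trans (PfP.trans (PfP.trans (PfP.trans (PfP.trans (PfP.trans (PfP.trans (PfP.trans (PfP.trans (PfP.trans (PfP.trans (PfP.trans (PfP.trans (PfP.trans (PfP.trans (PfP.trans (PfP.trans (PfP.trans (PfP.trans (PfP.trans (PfP.trans (PfP.trans (PfP.trans (PfP.trans (PfP.trans (PfP.trans (PfP.trans (PfP.trans (PfP.trans (PfP.trans (PfP.trans (PfP.trans (PfP.trans (PfP.trans (PfP.trans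 (PfP.trans (PfP.trans (PfP.trans (PfP.trans (PfP.trans (PfP.trans (PfP.trans (PfP.trans (PfP.trans (PfP.trans (PfP.trans (PfP.trans (PfP.trans (PfP.trans (PfP.trans (PfP.trans (PfP.trans (PfP.trans (PfP.trans (PfP.trans (PfP.trans (PfP.trans (PfP.trans (PfP.trans (PfP.trans (PfP.trans (PfP.trans (PfP.trans (PfP.trans (PfP.trans (PfP.trans (PfP.trans (PfP.trans
 (PfP.trans (PfP.trans (PfP.trans (PfP.trans (PfP.trans (PfP.trans (PfP.trans (PfP.trans (PfP.trans (PfP.trans (PfP.trans (PfP.trans (PfP.trans (PfP.trans (PfP.trans (PfP.trans (PfP.trans (PfP.trans (PfP.trans (PfP.trans (PfP.trans (PfP.trans (PfP.trans (PfP.trans (PfP.trans (PfP.trans (PfP.trans (PfP.trans (PfP.trans (PfP.trans (PfP.trans (PfP.trans (PfP.trans (PfP.trans (PfP.trans (PfP.trans (PfP.trans (PfP.trans (PfP.trans (PfP.trans (PfP.trans (PfP.trans (PfP.trans (PfP.trans (PfP.trans (PfP.trans (PfP.trans (PfP.trans (PfP.trans (PfP.trans (PfP.trans (PfP.trans (PfP.trans (PfP.trans (PfP.trans (PfP.trans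 (PfP.trans (PfP.trans (PfP.trans (PfP.trans (PfP.trans (PfP.trans (PfP.trans (PfP.trans (PfP.trans (PfP.trans (PfP.trans (PfP.trans (PfP.trans (PfP.trans (PfP.trans (PfP.trans (PfP.trans (PfP.trans (PfP.trans (PfP.trans (PfP.trans (PfP.trans (PfP.trans (PfP.trans (PfP.trans (PfP.trans (PfP.trans (PfP.trans (PfP.trans (PfP.trans (PfP.trans (PfP.trans (PfP.trans (PfP.trans (PfP.trans (PfP.trans (PfP.trans (PfP.trans (PfP.trans (PfP.trans (PfP.trans (PfP.trans (PfP.trans (PfP.trans (PfP.trans (PfP.trans (PfP.trans (PfP.trans (PfP.trans (PfP.trans (PfP.trans (PfP.trans (PfP.trans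
 (PfP.trans (PfP.trans (PfP.trans (PfP.trans (PfP.trans (PfP.trans (PfP.trans (PfP.trans (PfP.trans (PfP.trans (PfP.trans (PfP.trans (PfP.trans (PfP.trans (PfP.trans (PfP.trans (PfP.trans (PfP.trans (PfP.trans (PfP.trans (PfP.trans (PfP.trans (PfP.trans (PfP.trans (PfP.trans (PfP.trans (PfP.trans (PfP.trans (PfP.trans (PfP.trans (PfP.trans (PfP.trans (PfP.trans (PfP.trans (PfP.trans (pfC_sound p15_20_0_0) (pfC_sound p15_20_0_1)) (pfC_sound p15_20_0_2)) (pfC_sound p15_20_0_3)) (pfC_sound p15_20_0_4)) (pfC_sound p15_20_0_5)) (pfC_sound p15_20_0_6)) (pfC_sound p15_20_0_7)) (pfC_sound p15_20_0_8)) (pfC_sound p15_20_0_9)) (pfC_sound p15_20_0_10)) (pfC_sound p15_20_0_11)) (pfC_sound p15_20_0_12)) (pfC_sound p15_20_0_13)) (pfC_sound p15_20_0_14)) (pfC_sound p15_20_0_15)) (pfC_sound p15_20_0_16)) (pfC_sound p15_20_0_17)) (pfC_sound p15_20_0_18)) (pfC_sound p15_20_0_19)) (pfC_sound p15_20_0_20)) (pfC_sound p15_20_0_21)) (pfC_sound p15_20_0_22)) (pfC_sound p15_20_0_23)) (pfC_sound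 p15_20_0_24)) (pfC_sound p15_20_0_25)) (pfC_sound p15_20_0_26)) (pfC_sound p15_20_0_27)) (pfC_sound p15_20_0_28)) (pfC_sound p15_20_0_29)) (pfC_sound p15_20_0_30)) (pfC_sound p15_20_0_31)) (pfC_sound p15_20_0_32))
 (pfC_sound p15_20_0_33)) (pfC_sound p15_20_0_34)) (pfC_sound p15_20_0_35)) (pfC_sound p15_20_0_36)) (pfC_sound p15_20_0_37)) (pfC_sound p15_20_0_38)) (pfC_sound p15_20_0_39)) (pfC_sound p15_20_0_40)) (pfC_sound p15_20_0_41)) (pfC_sound p15_20_0_42)) (pfC_sound p15_20_0_43)) (pfC_sound p15_20_0_44)) (pfC_sound p15_20_0_45)) (pfC_sound p15_20_0_46)) (pfC_sound p15_20_0_47)) (pfC_sound p15_20_0_48)) (pfC_sound p15_20_0_49)) (pfC_sound p15_20_0_50)) (pfC_sound p15_20_0_51)) (pfC_sound p15_20_0_52)) (pfC_sound p15_20_0_53)) (pfC_sound p15_20_0_54)) (pfC_sound p15_20_0_55)) (pfC_sound p15_20_0_56)) (pfC_sound p15_20_0_57)) (pfC_sound p15_20_0_58)) (pfC_sound p15_20_0_59)) (pfC_sound p15_20_0_60)) (pfC_sound p15_20_0_61)) (pfC_sound p15_20_0_62)) (pfC_sound p15_20_0_63))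 (pfC_sound p15_20_0_64)) (pfC_sound p15_20_0_65)) (pfC_sound p15_20_0_66)) (pfC_sound p15_20_0_67)) (pfC_sound p15_20_0_68)) (pfC_sound p15_20_0_69)) (pfC_sound p15_20_0_70)) (pfC_sound p15_20_0_71)) (pfC_sound p15_20_0_72)) (pfC_sound p15_20_0_73)) (pfC_sound p15_20_0_74)) (pfC_sound p15_20_0_75)) (pfC_sound p15_20_0_76)) (pfC_sound p15_20_0_77)) (pfC_sound p15_20_0_78)) (pfC_sound p15_20_0_79)) (pfC_sound p15_20_0_80))
 (pfC_sound p15_20_0_81)) (pfC_sound p15_20_0_82)) (pfC_sound p15_20_0_83)) (pfC_sound p15_20_0_84)) (pfC_sound p15_20_0_85)) (pfC_sound p15_20_0_86)) (pfC_sound p15_20_0_87)) (pfC_sound p15_20_0_88)) (pfC_sound p15_20_0_89)) (pfC_sound p15_20_0_90)) (pfC_sound p15_20_0_91)) (pfC_sound p15_20_0_92)) (pfC_sound p15_20_0_93)) (pfC_sound p15_20_0_94)) (pfC_sound p15_20_0_95)) (pfC_sound p15_20_0_96)) (pfC_sound p15_20_0_97)) (pfC_sound p15_20_0_98)) (pfC_sound p15_20_0_99)) (pfC_sound p15_20_0_100)) (pfC_sound p15_20_0_101)) (pfC_sound p15_20_0_102))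 (pfC_sound p15_20_0_103)) (pfC_sound p15_20_0_104)) (pfC_sound p15_20_0_105)) (pfC_sound p15_20_0_106)) (pfC_sound p15_20_0_107)) (pfC_sound p15_20_0_108)) (pfC_sound p15_20_0_109)) (pfC_sound p15_20_0_110)) (pfC_sound p15_20_0_111)) (pfC_sound p15_20_0_112)) (pfC_sound p15_20_0_113)) (pfC_sound p15_20_0_114)) (pfC_sound p15_20_0_115)) (pfC_sound p15_20_0_116)) (pfC_sound p15_20_0_117)) (pfC_sound p15_20_0_118)) (pfC_sound p15_20_0_119)) (pfC_sound p15_20_0_120)) (pfC_sound p15_20_0_121)) (pfC_sound p15_20_0_122)) (pfC_sound p15_20_0_123)) (pfC_sound p15_20_0_124)) (pfC_sound p15_20_0_125)) (pfC_sound p15_20_0_126)) (pfC_sound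
 p15_20_0_127)) (pfC_sound p15_20_0_128)) (pfC_sound p15_20_0_129)) (pfC_sound p15_20_0_130)) (pfC_sound p15_20_0_131)) (pfC_sound p15_20_0_132)) (pfC_sound p15_20_0_133)) (pfC_sound p15_20_0_134)) (pfC_sound p15_20_0_135)) (pfC_sound p15_20_0_136)) (pfC_sound p15_20_0_137)) (pfC_sound p15_20_0_138)) (pfC_sound p15_20_0_139)) (pfC_sound p15_20_0_140)) (pfC_sound p15_20_0_141)) (pfC_sound p15_20_0_142)) (pfC_sound p15_20_0_143)) (pfC_sound p15_20_0_144)) (pfC_sound p15_20_0_145)) (pfC_sound p15_20_0_146)) (pfC_sound p15_20_0_147)) (pfC_sound p15_20_0_148)) (pfC_sound p15_20_0_149)) (pfC_sound p15_20_0_150)) (pfC_sound p15_20_0_151)) (pfC_sound p15_20_0_152)) (pfC_sound p15_20_0_153)) (pfC_sound p15_20_0_154)) (pfC_sound p15_20_0_155)) (pfC_sound p15_20_0_156)) (pfC_sound p15_20_0_157)) (pfC_sound p15_20_0_158)) (pfC_sound p15_20_0_159)) (pfC_sound p15_20_0_160)) (pfC_sound p15_20_0_161)) (pfC_sound p15_20_0_162)) (pfC_sound p15_20_0_163)) (pfC_sound p15_20_0_164)) (pfC_sound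 p15_20_0_165)) (pfC_sound p15_20_0_166)) (pfC_sound p15_20_0_167)) (pfC_sound p15_20_0_168)) (pfC_sound p15_20_0_169)) (pfC_sound p15_20_0_170)) (pfC_sound p15_20_0_171)) (pfC_sound p15_20_0_172)) (pfC_sound
 p15_20_0_173)) (pfC_sound p15_20_0_174)) (pfC_sound p15_20_0_175)) (pfC_sound p15_20_0_176)) (pfC_sound p15_20_0_177)) (pfC_sound p15_20_0_178)) (pfC_sound p15_20_0_179)) (pfC_sound p15_20_0_180)) (pfC_sound p15_20_0_181)) (pfC_sound p15_20_0_182)) (pfC_sound p15_20_0_183)) (pfC_sound p15_20_0_184)) (pfC_sound p15_20_0_185)) (pfC_sound p15_20_0_186)) (pfC_sound p15_20_0_187)) (pfC_sound p15_20_0_188)) (pfC_sound p15_20_0_189)) (pfC_sound p15_20_0_190)) (pfC_sound p15_20_0_191)) (pfC_sound p15_20_0_192)) (pfC_sound p15_20_0_193)) (pfC_sound p15_20_0_194)) (pfC_sound p15_20_0_195)) (pfC_sound p15_20_0_196)) (pfC_sound p15_20_0_197)) (pfC_sound p15_20_0_198)) (pfC_sound p15_20_0_199)) (pfC_sound p15_20_0_200)) (pfC_sound p15_20_0_201)) (pfC_sound p15_20_0_202)) (pfC_sound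 p15_20_0_203)) (pfC_sound p15_20_0_204)) (pfC_sound p15_20_0_205)) (pfC_sound p15_20_0_206)) (pfC_sound p15_20_0_207)) (pfC_sound p15_20_0_208)) (pfC_sound p15_20_0_209)) (pfC_sound p15_20_0_210)) (pfC_sound p15_20_0_211)) (pfC_sound p15_20_0_212)) (pfC_sound p15_20_0_213)) (pfC_sound p15_20_0_214)) (pfC_sound p15_20_0_215)) (pfC_sound p15_20_0_216)) (pfC_sound p15_20_0_217)) (pfC_sound p15_20_0_218)) (pfC_sound
 p15_20_0_219)) (pfC_sound p15_20_0_220)) (pfC_sound p15_20_0_221)) (pfC_sound p15_20_0_222)) (pfC_sound p15_20_0_223)) (pfC_sound p15_20_0_224)) (pfC_sound p15_20_0_225)) (pfC_sound p15_20_0_226)) (pfC_sound p15_20_0_227)) (pfC_sound p15_20_0_228)) (pfC_sound p15_20_0_229)) (pfC_sound p15_20_0_230)) (pfC_sound p15_20_0_231)) (pfC_sound p15_20_0_232)) (pfC_sound p15_20_0_233)) (pfC_sound p15_20_0_234)) (pfC_sound p15_20_0_235)) (pfC_sound p15_20_0_236)) (pfC_sound p15_20_0_237)) (pfC_sound p15_20_0_238)) (pfC_sound p15_20_0_239)) (pfC_sound p15_20_0_240)) (pfC_sound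 p15_20_0_241)) (pfC_sound p15_20_0_242)) (pfC_sound p15_20_0_243)) (pfC_sound p15_20_0_244)) (pfC_sound p15_20_0_245)) (pfC_sound p15_20_0_246)) (pfC_sound p15_20_0_247)) (pfC_sound p15_20_0_248)) (pfC_sound p15_20_0_249)) (pfC_sound p15_20_0_250)) (pfC_sound p15_20_0_251)) (pfC_sound p15_20_0_252)) (pfC_sound p15_20_0_253)) (by decide +kernel)

def z15_20_0 : zOK yB15_20 (nat_lit 0) (nat_lit 0) (nat_lit 400) (nat_lit 22443163) (nat_lit 10356376) = true := by decide +kernel
def g15_20_0 : gOK yB15_20.x P15_20 (nat_lit 1424) (q15_20 :: r15_20) (nat_lit 0) (nat_lit 0) (nat_lit 1) (nat_lit 400) (nat_lit 0) (nat_lit 11000000) (nat_lit 12712500) (nat_lit 12712500) [(nat_lit 800), (nat_lit 1400), (nat_lit 2200)] = true := by decide +kernel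
def v15_20_0 : ivC P15_20 s15_20 w15_20 n15_20 (nat_lit 4) (nat_lit 5405) (nat_lit 0) (nat_lit 0) f152_1_0 f160_1_0 (nat_lit 1) (nat_lit 400) f152_1_400 f160_1_400 (nat_lit 22443163) (nat_lit 10356376) p15_20_0 = true := by decide +kernel
def p15_20_1 : PF := (PF.cons (PF.cons (PF.cons (PF.cons (PF.leaf (nat_lit 2148423) (nat_lit 10338690) (nat_lit 56770122) (nat_lit 10338690) [(nat_lit 0), (nat_lit 0), (nat_lit 0), (nat_lit 0)]) (PF.cons (PF.leaf (nat_lit 2312391) (nat_lit 279990) (nat_lit 56470039) (nat_lit 10358783) [(nat_lit 279990), (nat_lit 0), (nat_lit 0), (nat_lit 0)]) (PF.cons (PF.leaf (nat_lit 2506803) (nat_lit 304829) (nat_lit 56118868) (nat_lit 10380285) [(nat_lit 304829), (nat_lit 0), (nat_lit 0), (nat_lit 0)]) (PF.cons (PF.leaf (nat_lit 2725392) (nat_lit 326976) (nat_lit 55725994) (nat_lit 10401889) [(nat_lit 326976), (nat_lit 0), (nat_lit 0), (nat_lit 0)]) (PF.cons (PF.leaf (nat_lit 2964896) (nat_lit 347030) (nat_lit 55298088) (nat_lit 10422601) [(nat_lit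 347030), (nat_lit 0), (nat_lit 0), (nat_lit 0)]) (PF.cons (PF.leaf (nat_lit 3222625) (nat_lit 365371) (nat_lit 54840318) (nat_lit 10441638) [(nat_lit 365371), (nat_lit 0), (nat_lit 0), (nat_lit 0)]) (PF.cons (PF.leaf (nat_lit 3496499) (nat_lit 382252) (nat_lit 54356913) (nat_lit 10458386) [(nat_lit 382252), (nat_lit 0), (nat_lit 0), (nat_lit 0)]) (PF.cons (PF.leaf (nat_lit 3784710) (nat_lit 397855) (nat_lit 53851462) (nat_lit 10472360) [(nat_lit 397855), (nat_lit 0),
 (nat_lit 0), (nat_lit 0)]) (PF.cons PF.nil (PF.cons PF.nil PF.nil)))))))))) (PF.cons (PF.cons (PF.leaf (nat_lit 2705932) (nat_lit 1273349) (nat_lit 55425040) (nat_lit 10410423) [(nat_lit 0), (nat_lit 1273349), (nat_lit 0), (nat_lit 0)]) (PF.cons (PF.leaf (nat_lit 2918771) (nat_lit 338265) (nat_lit 55035651) (nat_lit 10427528) [(nat_lit 338265), (nat_lit 1307366), (nat_lit 0), (nat_lit 0)]) (PF.cons (PF.leaf (nat_lit 3154673) (nat_lit 357602) (nat_lit 54609220) (nat_lit 10443667) [(nat_lit 357602), (nat_lit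 1340719), (nat_lit 0), (nat_lit 0)]) (PF.cons (PF.leaf (nat_lit 3409510) (nat_lit 375212) (nat_lit 54152231) (nat_lit 10458062) [(nat_lit 375212), (nat_lit 1372882), (nat_lit 0), (nat_lit 0)]) (PF.cons (PF.leaf (nat_lit 3680791) (nat_lit 391377) (nat_lit 53669591) (nat_lit 10470128) [(nat_lit 391377), (nat_lit 1403581), (nat_lit 0), (nat_lit 0)]) (PF.cons (PF.leaf (nat_lit 3966504) (nat_lit 406292) (nat_lit 53165255) (nat_lit 10479419) [(nat_lit 406292), (nat_lit 1432677), (nat_lit 0), (nat_lit 0)]) (PF.cons (PF.leaf (nat_lit 4264923) (nat_lit 420094) (nat_lit 52642541) (nat_lit 10485597) [(nat_lit 420094), (nat_lit 1460106), (nat_lit 0), (nat_lit 0)]) (PF.cons PF.nil (PF.cons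
 PF.nil PF.nil))))))))) (PF.cons (PF.cons (PF.leaf (nat_lit 3348294) (nat_lit 1373290) (nat_lit 53903827) (nat_lit 10458404) [(nat_lit 0), (nat_lit 1373290), (nat_lit 0), (nat_lit 0)]) (PF.cons (PF.leaf (nat_lit 3597807) (nat_lit 383753) (nat_lit 53452321) (nat_lit 10468279) [(nat_lit 383753), (nat_lit 1402229), (nat_lit 0), (nat_lit 0)]) (PF.cons (PF.leaf (nat_lit 3865240) (nat_lit 399389) (nat_lit 52974021) (nat_lit 10475837) [(nat_lit 399389), (nat_lit 1430088), (nat_lit 0), (nat_lit 0)]) (PF.cons (PF.leaf (nat_lit 4147509) (nat_lit 413751) (nat_lit 52473637) (nat_lit 10480653) [(nat_lit 413751), (nat_lit 1456632), (nat_lit 0), (nat_lit 0)]) (PF.cons (PF.leaf (nat_lit 4442670) (nat_lit 427001) (nat_lit 51954906) (nat_lit 10482420) [(nat_lit 427001), (nat_lit 1481739), (nat_lit 0), (nat_lit 0)]) (PF.cons PF.nil (PF.cons PF.nil PF.nil))))))) (PF.cons (PF.cons (PF.leaf (nat_lit 4051400) (nat_lit 1454308) (nat_lit 52270244) (nat_lit 10475644) [(nat_lit 0), (nat_lit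 1454308), (nat_lit 0), (nat_lit 0)]) (PF.cons (PF.leaf (nat_lit 4328496) (nat_lit 420263) (nat_lit 51776943) (nat_lit 10476240) [(nat_lit 420263), (nat_lit 1478455), (nat_lit 0), (nat_lit 0)]) (PF.cons (PF.leaf (nat_lit
 4619498) (nat_lit 433070) (nat_lit 51264652) (nat_lit 10473861) [(nat_lit 433070), (nat_lit 1501386), (nat_lit 0), (nat_lit 0)]) (PF.cons (PF.leaf (nat_lit 4922048) (nat_lit 444866) (nat_lit 50736914) (nat_lit 10468311) [(nat_lit 444866), (nat_lit 1522995), (nat_lit 0), (nat_lit 0)]) (PF.cons PF.nil PF.nil))))) (PF.cons (PF.cons (PF.leaf (nat_lit 4796622) (nat_lit 1519213) (nat_lit 50571848) (nat_lit 10460110) [(nat_lit 0), (nat_lit 1519213), (nat_lit 0), (nat_lit 0)]) (PF.cons (PF.leaf (nat_lit 5093982) (nat_lit 449742) (nat_lit 50052501) (nat_lit 10450809) [(nat_lit 449742), (nat_lit 1538939), (nat_lit 0), (nat_lit 0)]) (PF.cons (PF.leaf (nat_lit 5402103) (nat_lit 460246) (nat_lit 49520232) (nat_lit 10438326) [(nat_lit 460246), (nat_lit 1557440),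 (nat_lit 0), (nat_lit 0)]) (PF.cons PF.nil PF.nil)))) (PF.cons (PF.cons (PF.leaf (nat_lit 5568980) (nat_lit 1570164) (nat_lit 48845201) (nat_lit 10412791) [(nat_lit 0), (nat_lit 1570164), (nat_lit 0), (nat_lit 0)]) (PF.cons PF.nil PF.nil)) (PF.cons PF.nil (PF.cons PF.nil PF.nil)))))))) (PF.cons (PF.cons (PF.cons (PF.leaf (nat_lit 3281881) (nat_lit 3338437) (nat_lit 53330441) (nat_lit 10439934) [(nat_lit 0), (nat_lit 0), (nat_lit
 3338437), (nat_lit 0)]) (PF.cons (PF.leaf (nat_lit 3505165) (nat_lit 364268) (nat_lit 52928763) (nat_lit 10446545) [(nat_lit 364268), (nat_lit 0), (nat_lit 3369235), (nat_lit 0)]) (PF.cons (PF.leaf (nat_lit 3750345) (nat_lit 382339) (nat_lit 52492621) (nat_lit 10451394) [(nat_lit 382339), (nat_lit 0), (nat_lit 3400117), (nat_lit 0)]) (PF.cons (PF.leaf (nat_lit 4013142) (nat_lit 398552) (nat_lit 52028860) (nat_lit 10453975) [(nat_lit 398552), (nat_lit 0), (nat_lit 3430318), (nat_lit 0)]) (PF.cons (PF.leaf (nat_lit 4290960) (nat_lit 413256)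 (nat_lit 51542536) (nat_lit 10453918) [(nat_lit 413256), (nat_lit 0), (nat_lit 3459332), (nat_lit 0)]) (PF.cons (PF.leaf (nat_lit 4581732) (nat_lit 426682) (nat_lit 51037619) (nat_lit 10450957) [(nat_lit 426682), (nat_lit 0), (nat_lit 3486821), (nat_lit 0)]) (PF.cons (PF.leaf (nat_lit 4883763) (nat_lit 438996) (nat_lit 50517369) (nat_lit 10444905) [(nat_lit 438996), (nat_lit 0), (nat_lit 3512556), (nat_lit 0)]) (PF.cons PF.nil (PF.cons PF.nil PF.nil))))))))) (PF.cons (PF.cons (PF.leaf (nat_lit 3939274) (nat_lit 1435886) (nat_lit 51790118) (nat_lit 10448353) [(nat_lit 0), (nat_lit 1435886), (nat_lit 3434454), (nat_lit 0)]) (PF.cons (PF.leaf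
 (nat_lit 4195551) (nat_lit 404894) (nat_lit 51335542) (nat_lit 10447150) [(nat_lit 404894), (nat_lit 1460243), (nat_lit 3460983), (nat_lit 0)]) (PF.cons (PF.leaf (nat_lit 4468420) (nat_lit 419227) (nat_lit 50856919) (nat_lit 10443333) [(nat_lit 419227), (nat_lit 1483516), (nat_lit 3486588), (nat_lit 0)]) (PF.cons (PF.leaf (nat_lit 4754802) (nat_lit 432242) (nat_lit 50359005) (nat_lit 10436662) [(nat_lit 432242), (nat_lit 1505533), (nat_lit 3510884), (nat_lit 0)]) (PF.cons (PF.leaf (nat_lit 5052774) (nat_lit 444128) (nat_lit 49845496) (nat_lit 10426976) [(nat_lit 444128), (nat_lit 1526209), (nat_lit 3533614), (nat_lit 0)]) (PF.cons PF.nil (PF.cons PF.nil PF.nil))))))) (PF.cons (PF.cons (PF.leaf (nat_lit 4647444) (nat_lit 1501916) (nat_lit 50166685) (nat_lit 10427655) [(nat_lit 0), (nat_lit 1501916), (nat_lit 3510639), (nat_lit 0)]) (PF.cons (PF.leaf (nat_lit 4927839) (nat_lit 436980) (nat_lit 49678469) (nat_lit 10417574) [(nat_lit 436980), (nat_lit 1521940), (nat_lit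 3531906), (nat_lit 0)]) (PF.cons (PF.leaf (nat_lit 5220904) (nat_lit 448539) (nat_lit 49173771) (nat_lit 10404546) [(nat_lit 448539), (nat_lit 1540807), (nat_lit 3551802), (nat_lit 0)]) (PF.cons (PF.leaf (nat_lit
 5524310) (nat_lit 459081) (nat_lit 48656048) (nat_lit 10388496) [(nat_lit 459081), (nat_lit 1558443), (nat_lit 3570136), (nat_lit 0)]) (PF.cons PF.nil PF.nil))))) (PF.cons (PF.cons (PF.leaf (nat_lit 5389325) (nat_lit 1553913) (nat_lit 48501987) (nat_lit 10377775) [(nat_lit 0), (nat_lit 1553913), (nat_lit 3567308), (nat_lit 0)]) (PF.cons (PF.leaf (nat_lit 5687003) (nat_lit 462501) (nat_lit 47994460) (nat_lit 10358777) [(nat_lit 462501), (nat_lit 1569979), (nat_lit 3583134), (nat_lit 0)]) (PF.cons PF.nil (PF.cons PF.nil PF.nil)))) (PF.cons (PF.cons (PF.leaf (nat_lit 6151565) (nat_lit 1593775) (nat_lit 46827197) (nat_lit 10300664) [(nat_lit 0), (nat_lit 1593775), (nat_lit 3605847), (nat_lit 0)]) (PF.cons PF.nil PF.nil)) (PF.cons PF.nil PF.nil)))))) (PF.cons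 (PF.cons (PF.cons (PF.leaf (nat_lit 4518181) (nat_lit 3495182) (nat_lit 49724938) (nat_lit 10393509) [(nat_lit 0), (nat_lit 0), (nat_lit 3495182), (nat_lit 0)]) (PF.cons (PF.leaf (nat_lit 4778634) (nat_lit 421606) (nat_lit 49273999) (nat_lit 10382848) [(nat_lit 421606), (nat_lit 0), (nat_lit 3515178), (nat_lit 0)]) (PF.cons (PF.leaf (nat_lit 5054534) (nat_lit 434760) (nat_lit 48801477) (nat_lit 10369433) [(nat_lit 434760),
 (nat_lit 0), (nat_lit 3534189), (nat_lit 0)]) (PF.cons (PF.leaf (nat_lit 5342788) (nat_lit 446570) (nat_lit 48312077) (nat_lit 10353175) [(nat_lit 446570), (nat_lit 0), (nat_lit 3551924), (nat_lit 0)]) (PF.cons (PF.leaf (nat_lit 5641453) (nat_lit 457249) (nat_lit 47809395) (nat_lit 10334029) [(nat_lit 457249), (nat_lit 0), (nat_lit 3568195), (nat_lit 0)]) (PF.cons PF.nil (PF.cons PF.nil PF.nil))))))) (PF.cons (PF.cons (PF.leaf (nat_lit 5225764) (nat_lit 1536423) (nat_lit 48131671) (nat_lit 10341250) [(nat_lit 0), (nat_lit 1536423), (nat_lit 3549734),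 (nat_lit 0)]) (PF.cons (PF.leaf (nat_lit 5507411) (nat_lit 449837) (nat_lit 47653732) (nat_lit 10322339) [(nat_lit 449837), (nat_lit 1552945), (nat_lit 3564978), (nat_lit 0)]) (PF.cons (PF.leaf (nat_lit 5800670) (nat_lit 460285) (nat_lit 47161447) (nat_lit 10300587) [(nat_lit 460285), (nat_lit 1568367), (nat_lit 3578920), (nat_lit 0)]) (PF.cons PF.nil (PF.cons PF.nil PF.nil))))) (PF.cons (PF.cons (PF.leaf (nat_lit 5960215) (nat_lit 1577607) (nat_lit 46515166) (nat_lit 10263562) [(nat_lit 0), (nat_lit 1577607), (nat_lit 3587434), (nat_lit 0)]) (PF.cons (PF.leaf (nat_lit 6256644) (nat_lit 471931) (nat_lit 46023210) (nat_lit 10236750)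
 [(nat_lit 471931), (nat_lit 1590573), (nat_lit 3597886), (nat_lit 0)]) (PF.cons PF.nil (PF.cons PF.nil PF.nil)))) (PF.cons (PF.cons (PF.leaf (nat_lit 6709589) (nat_lit 1608196) (nat_lit 44901997) (nat_lit 10162904) [(nat_lit 0), (nat_lit 1608196), (nat_lit 3609660), (nat_lit 0)]) (PF.cons PF.nil PF.nil)) (PF.cons PF.nil PF.nil))))) (PF.cons (PF.cons (PF.cons (PF.leaf (nat_lit 5784642) (nat_lit 3568792) (nat_lit 46177710) (nat_lit 10224723) [(nat_lit 0), (nat_lit 0), (nat_lit 3568792), (nat_lit 0)]) (PF.cons (PF.leaf (nat_lit 6065961) (nat_lit 459475) (nat_lit 45713630) (nat_lit 10198652) [(nat_lit 459475), (nat_lit 0), (nat_lit 3579018), (nat_lit 0)]) (PF.cons (PF.leaf (nat_lit 6357938) (nat_lit 468931) (nat_lit 45237017) (nat_lit 10169887) [(nat_lit 468931), (nat_lit 0), (nat_lit 3588015), (nat_lit 0)]) (PF.cons PF.nil PF.nil)))) (PF.cons (PF.cons (PF.leaf (nat_lit 6508677) (nat_lit 1592314) (nat_lit 44618884) (nat_lit 10124950) [(nat_lit 0), (nat_lit 1592314), (nat_lit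 3590887), (nat_lit 0)]) (PF.cons (PF.leaf (nat_lit 6802697) (nat_lit 478596) (nat_lit 44144916) (nat_lit 10091957) [(nat_lit 478596), (nat_lit 1602652), (nat_lit 3596896), (nat_lit 0)]) PF.nil)) (PF.cons PF.nil
 PF.nil))) (PF.cons (PF.cons (PF.cons (PF.leaf (nat_lit 7034729) (nat_lit 3581033) (nat_lit 42816550) (nat_lit 9968126) [(nat_lit 0), (nat_lit 0), (nat_lit 3581033), (nat_lit 0)]) (PF.cons PF.nil PF.nil)) (PF.cons PF.nil PF.nil)) (PF.cons PF.nil PF.nil)))))) (PF.cons (PF.cons (PF.cons (PF.cons (PF.leaf (nat_lit 4303663) (nat_lit 9272053) (nat_lit 47678319) (nat_lit 10158440) [(nat_lit 0), (nat_lit 0), (nat_lit 0), (nat_lit 9272053)]) (PF.cons (PF.leaf (nat_lit 4525224) (nat_lit 378297) (nat_lit 47316420) (nat_lit 10147755) [(nat_lit 378297), (nat_lit 0), (nat_lit 0), (nat_lit 9266340)]) (PF.cons (PF.leaf (nat_lit 4766948) (nat_lit 395098) (nat_lit 46925441) (nat_lit 10134612) [(nat_lit 395098), (nat_lit 0), (nat_lit 0), (nat_lit 9258562)]) (PF.cons (PF.leaf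 (nat_lit 5024493) (nat_lit 409848) (nat_lit 46511745) (nat_lit 10118947) [(nat_lit 409848), (nat_lit 0), (nat_lit 0), (nat_lit 9248573)]) (PF.cons (PF.leaf (nat_lit 5295215) (nat_lit 422962) (nat_lit 46079973) (nat_lit 10100717) [(nat_lit 422962), (nat_lit 0), (nat_lit 0), (nat_lit 9236272)]) (PF.cons (PF.leaf (nat_lit 5577083) (nat_lit 434719) (nat_lit 45633714) (nat_lit 10079904) [(nat_lit 434719), (nat_lit 0), (nat_lit 0),
 (nat_lit 9221597)]) (PF.cons (PF.leaf (nat_lit 5868428) (nat_lit 445319) (nat_lit 45175856) (nat_lit 10056515) [(nat_lit 445319), (nat_lit 0), (nat_lit 0), (nat_lit 9204521)]) (PF.cons PF.nil (PF.cons PF.nil PF.nil))))))))) (PF.cons (PF.cons (PF.leaf (nat_lit 4938761) (nat_lit 1460219) (nat_lit 46305777) (nat_lit 10105322) [(nat_lit 0), (nat_lit 1460219), (nat_lit 0), (nat_lit 9237493)]) (PF.cons (PF.leaf (nat_lit 5188819) (nat_lit 413822) (nat_lit 45902757) (nat_lit 10087582) [(nat_lit 413822), (nat_lit 1479345), (nat_lit 0), (nat_lit 9225306)])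 (PF.cons (PF.leaf (nat_lit 5453730) (nat_lit 426662) (nat_lit 45480170) (nat_lit 10067243) [(nat_lit 426662), (nat_lit 1497273), (nat_lit 0), (nat_lit 9210800)]) (PF.cons (PF.leaf (nat_lit 5730458) (nat_lit 438106) (nat_lit 45042292) (nat_lit 10044332) [(nat_lit 438106), (nat_lit 1513920), (nat_lit 0), (nat_lit 9193949)]) (PF.cons (PF.leaf (nat_lit 6017098) (nat_lit 448379) (nat_lit 44592393) (nat_lit 10018886) [(nat_lit 448379), (nat_lit 1529265), (nat_lit 0), (nat_lit 9174748)]) (PF.cons (PF.leaf (nat_lit 6312110) (nat_lit 457645) (nat_lit 44133089) (nat_lit 9990953) [(nat_lit 457645), (nat_lit 1543323), (nat_lit 0), (nat_lit 9153216)])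
 (PF.cons PF.nil PF.nil))))))) (PF.cons (PF.cons (PF.leaf (nat_lit 5613720) (nat_lit 1508680) (nat_lit 44878972) (nat_lit 10030416) [(nat_lit 0), (nat_lit 1508680), (nat_lit 0), (nat_lit 9182062)]) (PF.cons (PF.leaf (nat_lit 5883863) (nat_lit 440800) (nat_lit 44451534) (nat_lit 10005695) [(nat_lit 440800), (nat_lit 1523742), (nat_lit 0), (nat_lit 9163297)]) (PF.cons (PF.leaf (nat_lit 6165135) (nat_lit 450844) (nat_lit 44011124) (nat_lit 9978449) [(nat_lit 450844), (nat_lit 1537670), (nat_lit 0), (nat_lit 9142209)]) (PF.cons (PF.leaf (nat_lit 6455238) (nat_lit 459857) (nat_lit 43560753) (nat_lit 9948755) [(nat_lit 459857), (nat_lit 1550445), (nat_lit 0), (nat_lit 9118840)]) (PF.cons PF.nil PF.nil))))) (PF.cons (PF.cons (PF.leaf (nat_lit 6313648) (nat_lit 1544970) (nat_lit 43431628) (nat_lit 9935282) [(nat_lit 0), (nat_lit 1544970), (nat_lit 0), (nat_lit 9106991)]) (PF.cons (PF.leaf (nat_lit 6597755) (nat_lit 461549) (nat_lit 42991536) (nat_lit 9904079) [(nat_lit 461549),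 (nat_lit 1556542), (nat_lit 0), (nat_lit 9082020)]) (PF.cons (PF.leaf (nat_lit 6890182) (nat_lit 469470) (nat_lit 42543220) (nat_lit 9870547) [(nat_lit 469470), (nat_lit 1567079), (nat_lit 0), (nat_lit 9054867)])
 (PF.cons PF.nil PF.nil)))) (PF.cons (PF.cons (PF.leaf (nat_lit 7027469) (nat_lit 1571197) (nat_lit 41987446) (nat_lit 9822230) [(nat_lit 0), (nat_lit 1571197), (nat_lit 0), (nat_lit 9014345)]) (PF.cons (PF.leaf (nat_lit 7320850) (nat_lit 477466) (nat_lit 41543207) (nat_lit 9785272) [(nat_lit 477466), (nat_lit 1579767), (nat_lit 0), (nat_lit 8983797)]) PF.nil)) (PF.cons PF.nil PF.nil)))))) (PF.cons (PF.cons (PF.cons (PF.leaf (nat_lit 5467336) (nat_lit 3461457) (nat_lit 44513836) (nat_lit 9988806) [(nat_lit 0), (nat_lit 0), (nat_lit 3461457), (nat_lit 9144713)]) (PF.cons (PF.leaf (nat_lit 5719151) (nat_lit 425049) (nat_lit 44118977) (nat_lit 9965245) [(nat_lit 425049), (nat_lit 0), (nat_lit 3472808), (nat_lit 9126732)]) (PF.cons (PF.leaf (nat_lit 5984877) (nat_lit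 436830) (nat_lit 43706503) (nat_lit 9939084) [(nat_lit 436830), (nat_lit 0), (nat_lit 3483149), (nat_lit 9106415)]) (PF.cons (PF.leaf (nat_lit 6261462) (nat_lit 447225) (nat_lit 43280558) (nat_lit 9910437) [(nat_lit 447225), (nat_lit 0), (nat_lit 3492314), (nat_lit 9083825)]) (PF.cons (PF.leaf (nat_lit 6547049) (nat_lit 456474) (nat_lit 42844271) (nat_lit 9879408) [(nat_lit 456474), (nat_lit 0), (nat_lit 3500208), (nat_lit
 9059024)]) (PF.cons (PF.leaf (nat_lit 6840148) (nat_lit 464749) (nat_lit 42400109) (nat_lit 9846094) [(nat_lit 464749), (nat_lit 0), (nat_lit 3506781), (nat_lit 9032079)]) (PF.cons PF.nil PF.nil))))))) (PF.cons (PF.cons (PF.leaf (nat_lit 6137400) (nat_lit 1526653) (nat_lit 43128517) (nat_lit 9895246) [(nat_lit 0), (nat_lit 1526653), (nat_lit 3487799), (nat_lit 9070596)]) (PF.cons (PF.leaf (nat_lit 6407083) (nat_lit 448816) (nat_lit 42713866) (nat_lit 9865308) [(nat_lit 448816), (nat_lit 1538999), (nat_lit 3495222), (nat_lit 9046598)]) (PF.cons (PF.leaf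 (nat_lit 6687014) (nat_lit 457922) (nat_lit 42287809) (nat_lit 9832976) [(nat_lit 457922), (nat_lit 1550291), (nat_lit 3501496), (nat_lit 9020394)]) (PF.cons (PF.leaf (nat_lit 6974983) (nat_lit 466019) (nat_lit 41853213) (nat_lit 9798379) [(nat_lit 466019), (nat_lit 1560525), (nat_lit 3506556), (nat_lit 8992078)]) (PF.cons PF.nil PF.nil))))) (PF.cons (PF.cons (PF.leaf (nat_lit 6827622) (nat_lit 1554861) (nat_lit 41733963) (nat_lit 9784307) [(nat_lit 0), (nat_lit 1554861), (nat_lit 3501254), (nat_lit 8979564)]) (PF.cons (PF.leaf (nat_lit 7109409) (nat_lit 466832) (nat_lit 41310100) (nat_lit 9748665) [(nat_lit 466832), (nat_lit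
 1564101), (nat_lit 3504914), (nat_lit 8950097)]) (PF.cons (PF.leaf (nat_lit 7398799) (nat_lit 473931) (nat_lit 40879214) (nat_lit 9710892) [(nat_lit 473931), (nat_lit 1572391), (nat_lit 3507427), (nat_lit 8918633)]) (PF.cons PF.nil PF.nil)))) (PF.cons (PF.cons (PF.leaf (nat_lit 7528042) (nat_lit 1574331) (nat_lit 40350361) (nat_lit 9658413) [(nat_lit 0), (nat_lit 1574331), (nat_lit 3503240), (nat_lit 8873802)]) (PF.cons PF.nil PF.nil)) (PF.cons PF.nil PF.nil))))) (PF.cons (PF.cons (PF.cons (PF.leaf (nat_lit 6642939) (nat_lit 3481446) (nat_lit 41458510) (nat_lit 9744344) [(nat_lit 0), (nat_lit 0), (nat_lit 3481446), (nat_lit 8943064)]) (PF.cons (PF.leaf (nat_lit 6911141) (nat_lit 454507) (nat_lit 41058362) (nat_lit 9710283) [(nat_lit 454507), (nat_lit 0), (nat_lit 3485383), (nat_lit 8914892)]) (PF.cons (PF.leaf (nat_lit 7188859) (nat_lit 462783) (nat_lit 40648136) (nat_lit 9673970) [(nat_lit 462783), (nat_lit 0), (nat_lit 3488248), (nat_lit 8884642)]) (PF.cons (PF.leaf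 (nat_lit 7473910) (nat_lit 470075) (nat_lit 40230547) (nat_lit 9635574) [(nat_lit 470075), (nat_lit 0), (nat_lit 3490007), (nat_lit 8852448)]) (PF.cons PF.nil PF.nil))))) (PF.cons (PF.cons (PF.leaf (nat_lit 7321796)
 (nat_lit 1558656) (nat_lit 40120625) (nat_lit 9621237) [(nat_lit 0), (nat_lit 1558656), (nat_lit 3484348), (nat_lit 8839596)]) (PF.cons (PF.leaf (nat_lit 7600578) (nat_lit 470163) (nat_lit 39713940) (nat_lit 9582187) [(nat_lit 470163), (nat_lit 1565924), (nat_lit 3484981), (nat_lit 8806633)]) (PF.cons PF.nil (PF.cons PF.nil PF.nil)))) (PF.cons (PF.cons (PF.leaf (nat_lit 8007904) (nat_lit 1572484) (nat_lit 38799209) (nat_lit 9485776) [(nat_lit 0), (nat_lit 1572484), (nat_lit 3477481), (nat_lit 8723895)]) (PF.cons PF.nil PF.nil)) PF.nil))) (PF.cons (PF.cons (PF.cons (PF.leaf (nat_lit 7796620) (nat_lit 3459158) (nat_lit 38590967) (nat_lit 9449728) [(nat_lit 0), (nat_lit 0), (nat_lit 3459158), (nat_lit 8690641)]) (PF.cons (PF.leaf (nat_lit 8071836) (nat_lit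 471878) (nat_lit 38201862) (nat_lit 9408137) [(nat_lit 471878), (nat_lit 0), (nat_lit 3457304), (nat_lit 8655021)]) PF.nil)) (PF.cons PF.nil PF.nil)) (PF.cons PF.nil (PF.cons PF.nil PF.nil)))))) (PF.cons (PF.cons (PF.cons (PF.cons (PF.leaf (nat_lit 6295903) (nat_lit 8736934) (nat_lit 40114663) (nat_lit 9520280) [(nat_lit 0), (nat_lit 0), (nat_lit 0), (nat_lit 8736934)]) (PF.cons (PF.leaf (nat_lit 6538035) (nat_lit 421463) (nat_lit
 39771773) (nat_lit 9490555) [(nat_lit 421463), (nat_lit 0), (nat_lit 0), (nat_lit 8712509)]) (PF.cons (PF.leaf (nat_lit 6792845) (nat_lit 432134) (nat_lit 39414258) (nat_lit 9458436) [(nat_lit 432134), (nat_lit 0), (nat_lit 0), (nat_lit 8685924)]) (PF.cons (PF.leaf (nat_lit 7057402) (nat_lit 441421) (nat_lit 39045711) (nat_lit 9424143) [(nat_lit 441421), (nat_lit 0), (nat_lit 0), (nat_lit 8657346)]) (PF.cons (PF.leaf (nat_lit 7329925) (nat_lit 449578) (nat_lit 38668822) (nat_lit 9387852) [(nat_lit 449578), (nat_lit 0), (nat_lit 0), (nat_lit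 8626912)]) (PF.cons (PF.leaf (nat_lit 7609006) (nat_lit 456785) (nat_lit 38285692) (nat_lit 9349711) [(nat_lit 456785), (nat_lit 0), (nat_lit 0), (nat_lit 8594740)]) (PF.cons PF.nil PF.nil))))))) (PF.cons (PF.cons (PF.leaf (nat_lit 6929888) (nat_lit 1496796) (nat_lit 38917909) (nat_lit 9408034) [(nat_lit 0), (nat_lit 1496796), (nat_lit 0), (nat_lit 8643036)]) (PF.cons (PF.leaf (nat_lit 7187510) (nat_lit 441910) (nat_lit 38559721) (nat_lit 9373249) [(nat_lit 441910), (nat_lit 1506264), (nat_lit 0), (nat_lit 8613833)]) (PF.cons (PF.leaf (nat_lit 7454391) (nat_lit 449991) (nat_lit 38192189) (nat_lit 9336417) [(nat_lit 449991), (nat_lit 1514740),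
 (nat_lit 0), (nat_lit 8582741)]) (PF.cons (PF.leaf (nat_lit 7728394) (nat_lit 457085) (nat_lit 37817765) (nat_lit 9297721) [(nat_lit 457085), (nat_lit 1522246), (nat_lit 0), (nat_lit 8549910)]) (PF.cons PF.nil PF.nil))))) (PF.cons (PF.cons (PF.leaf (nat_lit 7579776) (nat_lit 1516377) (nat_lit 37718220) (nat_lit 9283548) [(nat_lit 0), (nat_lit 1516377), (nat_lit 0), (nat_lit 8537144)]) (PF.cons (PF.leaf (nat_lit 7847697) (nat_lit 457004) (nat_lit 37353414) (nat_lit 9244493) [(nat_lit 457004), (nat_lit 1523115), (nat_lit 0), (nat_lit 8503835)]) (PF.cons (PF.leaf (nat_lit 8122437) (nat_lit 463191) (nat_lit 36982921) (nat_lit 9203708) [(nat_lit 463191), (nat_lit 1528995), (nat_lit 0), (nat_lit 8468905)]) (PF.cons PF.nil PF.nil)))) (PF.cons (PF.cons (PF.leaf (nat_lit 8237047) (nat_lit 1528632) (nat_lit 36531329) (nat_lit 9149042) [(nat_lit 0), (nat_lit 1528632), (nat_lit 0), (nat_lit 8421271)]) (PF.cons PF.nil PF.nil)) (PF.cons PF.nil PF.nil))))) (PF.cons (PF.cons (PF.cons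 (PF.leaf (nat_lit 7391201) (nat_lit 3366684) (nat_lit 37492588) (nat_lit 9245403) [(nat_lit 0), (nat_lit 0), (nat_lit 3366684), (nat_lit 8502068)]) (PF.cons (PF.leaf (nat_lit 7646805) (nat_lit 445081) (nat_lit
 37147817) (nat_lit 9208278) [(nat_lit 445081), (nat_lit 0), (nat_lit 3366797), (nat_lit 8470418)]) (PF.cons (PF.leaf (nat_lit 7911067) (nat_lit 452455) (nat_lit 36794705) (nat_lit 9169233) [(nat_lit 452455), (nat_lit 0), (nat_lit 3365970), (nat_lit 8436996)]) (PF.cons (PF.leaf (nat_lit 8181879) (nat_lit 458876) (nat_lit 36435563) (nat_lit 9128473) [(nat_lit 458876), (nat_lit 0), (nat_lit 3364201), (nat_lit 8401972)]) (PF.cons PF.nil PF.nil))))) (PF.cons (PF.cons (PF.leaf (nat_lit 8029815) (nat_lit 1513667) (nat_lit 36343820) (nat_lit 9114460) [(nat_lit 0), (nat_lit 1513667), (nat_lit 3358285), (nat_lit 8389289)]) (PF.cons (PF.leaf (nat_lit 8294532) (nat_lit 458259) (nat_lit 35994256) (nat_lit 9073594) [(nat_lit 458259), (nat_lit 1518886), (nat_lit 3355745),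 (nat_lit 8354035)]) (PF.cons PF.nil (PF.cons PF.nil PF.nil)))) (PF.cons (PF.cons (PF.leaf (nat_lit 8673705) (nat_lit 1521707) (nat_lit 35211131) (nat_lit 8975295) [(nat_lit 0), (nat_lit 1521707), (nat_lit 3342445), (nat_lit 8268262)]) (PF.cons PF.nil PF.nil)) PF.nil))) (PF.cons (PF.cons (PF.cons (PF.leaf (nat_lit 8463197) (nat_lit 3325201) (nat_lit 35040854) (nat_lit 8942255) [(nat_lit 0), (nat_lit 0), (nat_lit 3325201),
 (nat_lit 8237649)]) (PF.cons (PF.leaf (nat_lit 8724356) (nat_lit 458343) (nat_lit 34706500) (nat_lit 8900129) [(nat_lit 458343), (nat_lit 0), (nat_lit 3320927), (nat_lit 8200992)]) PF.nil)) (PF.cons PF.nil PF.nil)) (PF.cons PF.nil (PF.cons PF.nil PF.nil))))) (PF.cons (PF.cons (PF.cons (PF.cons (PF.leaf (nat_lit 8054295) (nat_lit 8068562) (nat_lit 34143591) (nat_lit 8759534) [(nat_lit 0), (nat_lit 0), (nat_lit 0), (nat_lit 8068562)]) (PF.cons (PF.leaf (nat_lit 8298132) (nat_lit 433397) (nat_lit 33845453) (nat_lit 8721959) [(nat_lit 433397), (nat_lit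 0), (nat_lit 0), (nat_lit 8036000)]) (PF.cons (PF.leaf (nat_lit 8549986) (nat_lit 440062) (nat_lit 33540260) (nat_lit 8682721) [(nat_lit 440062), (nat_lit 0), (nat_lit 0), (nat_lit 8001902)]) (PF.cons PF.nil PF.nil)))) (PF.cons (PF.cons (PF.leaf (nat_lit 8657296) (nat_lit 1463801) (nat_lit 33152915) (nat_lit 8628830) [(nat_lit 0), (nat_lit 1463801), (nat_lit 0), (nat_lit 7954421)]) (PF.cons (PF.leaf (nat_lit 8909227) (nat_lit 444746) (nat_lit 32850944) (nat_lit 8588345) [(nat_lit 444746), (nat_lit 1467620), (nat_lit 0), (nat_lit 7919051)]) PF.nil)) (PF.cons PF.nil PF.nil))) (PF.cons (PF.cons (PF.cons (PF.leaf (nat_lit 9056651) (nat_lit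
 3189408) (nat_lit 32036078) (nat_lit 8462715) [(nat_lit 0), (nat_lit 0), (nat_lit 3189408), (nat_lit 7806870)]) (PF.cons PF.nil PF.nil)) (PF.cons PF.nil PF.nil)) (PF.cons PF.nil PF.nil))) (PF.cons (PF.cons (PF.cons (PF.cons (PF.leaf (nat_lit 9592730) (nat_lit 7405002) (nat_lit 29471419) (nat_lit 8017381) [(nat_lit 0), (nat_lit 0), (nat_lit 0), (nat_lit 7405002)]) (PF.cons PF.nil PF.nil)) (PF.cons PF.nil PF.nil)) (PF.cons PF.nil PF.nil)) (PF.cons PF.nil (PF.cons PF.nil (PF.cons PF.nil PF.nil))))))))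

def p15_20_1_0 : pfC (piC [(nat_lit 39120232), (nat_lit 25510466), (nat_lit 19038091), (nat_lit 12801343)] (nat_lit 10356376)) p15_20_1 (nat_lit 4) (nat_lit 0) (nat_lit 1) = true := by decide +kernel
def p15_20_1_1 : pfC (piC [(nat_lit 39120232), (nat_lit 25510466), (nat_lit 19038091), (nat_lit 12801343)] (nat_lit 10356376)) p15_20_1 (nat_lit 4) (nat_lit 1) (nat_lit 2) = true := by decide +kernel
def p15_20_1_2 : pfC (piC [(nat_lit 39120232), (nat_lit 25510466), (nat_lit 19038091), (nat_lit 12801343)] (nat_lit 10356376)) p15_20_1 (nat_lit 4) (nat_lit 2) (nat_lit 3) = true := by decide +kernel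
def p15_20_1_3 : pfC (piC [(nat_lit 39120232), (nat_lit 25510466), (nat_lit 19038091), (nat_lit 12801343)] (nat_lit 10356376)) p15_20_1 (nat_lit 4) (nat_lit 3) (nat_lit 4) = true := by decide +kernel
def p15_20_1_4 : pfC (piC [(nat_lit 39120232), (nat_lit 25510466), (nat_lit 19038091), (nat_lit 12801343)] (nat_lit 10356376)) p15_20_1 (nat_lit 4) (nat_lit 4) (nat_lit 5) = true := by decide +kernel
def p15_20_1_5 : pfC (piC [(nat_lit 39120232), (nat_lit 25510466), (nat_lit 19038091), (nat_lit 12801343)] (nat_lit 10356376)) p15_20_1 (nat_lit 4) (nat_lit 5) (nat_lit 6) = true := by decide +kernel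
def p15_20_1_6 : pfC (piC [(nat_lit 39120232), (nat_lit 25510466), (nat_lit 19038091), (nat_lit 12801343)] (nat_lit 10356376)) p15_20_1 (nat_lit 4) (nat_lit 6) (nat_lit 7) = true := by decide +kernel
def p15_20_1_7 : pfC (piC [(nat_lit 39120232), (nat_lit 25510466), (nat_lit 19038091), (nat_lit 12801343)] (nat_lit 10356376)) p15_20_1 (nat_lit 4) (nat_lit 7) (nat_lit 8) = true := by decide +kernel
def p15_20_1_8 : pfC (piC [(nat_lit 39120232), (nat_lit 25510466), (nat_lit 19038091), (nat_lit 12801343)] (nat_lit 10356376)) p15_20_1 (nat_lit 4) (nat_lit 8) (nat_lit 9) = true := by decide +kernel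
def p15_20_1_9 : pfC (piC [(nat_lit 39120232), (nat_lit 25510466), (nat_lit 19038091), (nat_lit 12801343)] (nat_lit 10356376)) p15_20_1 (nat_lit 4) (nat_lit 9) (nat_lit 10) = true := by decide +kernel
def p15_20_1_10 : pfC (piC [(nat_lit 39120232), (nat_lit 25510466), (nat_lit 19038091), (nat_lit 12801343)] (nat_lit 10356376)) p15_20_1 (nat_lit 4) (nat_lit 10) (nat_lit 11) = true := by decide +kernel
def p15_20_1_11 : pfC (piC [(nat_lit 39120232), (nat_lit 25510466), (nat_lit 19038091), (nat_lit 12801343)] (nat_lit 10356376)) p15_20_1 (nat_lit 4) (nat_lit 11) (nat_lit 12) = true := by decide +kernel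
def p15_20_1_12 : pfC (piC [(nat_lit 39120232), (nat_lit 25510466), (nat_lit 19038091), (nat_lit 12801343)] (nat_lit 10356376)) p15_20_1 (nat_lit 4) (nat_lit 12) (nat_lit 13) = true := by decide +kernel
def p15_20_1_13 : pfC (piC [(nat_lit 39120232), (nat_lit 25510466), (nat_lit 19038091), (nat_lit 12801343)] (nat_lit 10356376)) p15_20_1 (nat_lit 4) (nat_lit 13) (nat_lit 14) = true := by decide +kernel
def p15_20_1_14 : pfC (piC [(nat_lit 39120232), (nat_lit 25510466), (nat_lit 19038091), (nat_lit 12801343)] (nat_lit 10356376)) p15_20_1 (nat_lit 4) (nat_lit 14) (nat_lit 15) = true := by decide +kernel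
def p15_20_1_15 : pfC (piC [(nat_lit 39120232), (nat_lit 25510466), (nat_lit 19038091), (nat_lit 12801343)] (nat_lit 10356376)) p15_20_1 (nat_lit 4) (nat_lit 15) (nat_lit 16) = true := by decide +kernel
def p15_20_1_16 : pfC (piC [(nat_lit 39120232), (nat_lit 25510466), (nat_lit 19038091), (nat_lit 12801343)] (nat_lit 10356376)) p15_20_1 (nat_lit 4) (nat_lit 16) (nat_lit 17) = true := by decide +kernel
def p15_20_1_17 : pfC (piC [(nat_lit 39120232), (nat_lit 25510466), (nat_lit 19038091), (nat_lit 12801343)] (nat_lit 10356376)) p15_20_1 (nat_lit 4) (nat_lit 17) (nat_lit 18) = true := by decide +kernel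
def p15_20_1_18 : pfC (piC [(nat_lit 39120232), (nat_lit 25510466), (nat_lit 19038091), (nat_lit 12801343)] (nat_lit 10356376)) p15_20_1 (nat_lit 4) (nat_lit 18) (nat_lit 19) = true := by decide +kernel
def p15_20_1_19 : pfC (piC [(nat_lit 39120232), (nat_lit 25510466), (nat_lit 19038091), (nat_lit 12801343)] (nat_lit 10356376)) p15_20_1 (nat_lit 4) (nat_lit 19) (nat_lit 20) = true := by decide +kernel
def p15_20_1_20 : pfC (piC [(nat_lit 39120232), (nat_lit 25510466), (nat_lit 19038091), (nat_lit 12801343)] (nat_lit 10356376)) p15_20_1 (nat_lit 4) (nat_lit 20) (nat_lit 21) = true := by decide +kernel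
def p15_20_1_21 : pfC (piC [(nat_lit 39120232), (nat_lit 25510466), (nat_lit 19038091), (nat_lit 12801343)] (nat_lit 10356376)) p15_20_1 (nat_lit 4) (nat_lit 21) (nat_lit 22) = true := by decide +kernel
def p15_20_1_22 : pfC (piC [(nat_lit 39120232), (nat_lit 25510466), (nat_lit 19038091), (nat_lit 12801343)] (nat_lit 10356376)) p15_20_1 (nat_lit 4) (nat_lit 22) (nat_lit 23) = true := by decide +kernel
def p15_20_1_23 : pfC (piC [(nat_lit 39120232), (nat_lit 25510466), (nat_lit 19038091), (nat_lit 12801343)] (nat_lit 10356376)) p15_20_1 (nat_lit 4) (nat_lit 23) (nat_lit 24) = true := by decide +kernel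
def p15_20_1_24 : pfC (piC [(nat_lit 39120232), (nat_lit 25510466), (nat_lit 19038091), (nat_lit 12801343)] (nat_lit 10356376)) p15_20_1 (nat_lit 4) (nat_lit 24) (nat_lit 25) = true := by decide +kernel
def p15_20_1_25 : pfC (piC [(nat_lit 39120232), (nat_lit 25510466), (nat_lit 19038091), (nat_lit 12801343)] (nat_lit 10356376)) p15_20_1 (nat_lit 4) (nat_lit 25) (nat_lit 26) = true := by decide +kernel
def p15_20_1_26 : pfC (piC [(nat_lit 39120232), (nat_lit 25510466), (nat_lit 19038091), (nat_lit 12801343)] (nat_lit 10356376)) p15_20_1 (nat_lit 4) (nat_lit 26) (nat_lit 27) = true := by decide +kernel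
def p15_20_1_27 : pfC (piC [(nat_lit 39120232), (nat_lit 25510466), (nat_lit 19038091), (nat_lit 12801343)] (nat_lit 10356376)) p15_20_1 (nat_lit 4) (nat_lit 27) (nat_lit 28) = true := by decide +kernel
def p15_20_1_28 : pfC (piC [(nat_lit 39120232), (nat_lit 25510466), (nat_lit 19038091), (nat_lit 12801343)] (nat_lit 10356376)) p15_20_1 (nat_lit 4) (nat_lit 28) (nat_lit 29) = true := by decide +kernel
def p15_20_1_29 : pfC (piC [(nat_lit 39120232), (nat_lit 25510466), (nat_lit 19038091), (nat_lit 12801343)] (nat_lit 10356376)) p15_20_1 (nat_lit 4) (nat_lit 29) (nat_lit 30) = true := by decide +kernel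
def p15_20_1_30 : pfC (piC [(nat_lit 39120232), (nat_lit 25510466), (nat_lit 19038091), (nat_lit 12801343)] (nat_lit 10356376)) p15_20_1 (nat_lit 4) (nat_lit 30) (nat_lit 31) = true := by decide +kernel
def p15_20_1_31 : pfC (piC [(nat_lit 39120232), (nat_lit 25510466), (nat_lit 19038091), (nat_lit 12801343)] (nat_lit 10356376)) p15_20_1 (nat_lit 4) (nat_lit 31) (nat_lit 32) = true := by decide +kernel
def p15_20_1_32 : pfC (piC [(nat_lit 39120232), (nat_lit 25510466), (nat_lit 19038091), (nat_lit 12801343)] (nat_lit 10356376)) p15_20_1 (nat_lit 4) (nat_lit 32) (nat_lit 33) = true := by decide +kernel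
def p15_20_1_33 : pfC (piC [(nat_lit 39120232), (nat_lit 25510466), (nat_lit 19038091), (nat_lit 12801343)] (nat_lit 10356376)) p15_20_1 (nat_lit 4) (nat_lit 33) (nat_lit 34) = true := by decide +kernel
def p15_20_1_34 : pfC (piC [(nat_lit 39120232), (nat_lit 25510466), (nat_lit 19038091), (nat_lit 12801343)] (nat_lit 10356376)) p15_20_1 (nat_lit 4) (nat_lit 34) (nat_lit 35) = true := by decide +kernel
def p15_20_1_35 : pfC (piC [(nat_lit 39120232), (nat_lit 25510466), (nat_lit 19038091), (nat_lit 12801343)] (nat_lit 10356376)) p15_20_1 (nat_lit 4) (nat_lit 35) (nat_lit 36) = true := by decide +kernel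
def p15_20_1_36 : pfC (piC [(nat_lit 39120232), (nat_lit 25510466), (nat_lit 19038091), (nat_lit 12801343)] (nat_lit 10356376)) p15_20_1 (nat_lit 4) (nat_lit 36) (nat_lit 37) = true := by decide +kernel
def p15_20_1_37 : pfC (piC [(nat_lit 39120232), (nat_lit 25510466), (nat_lit 19038091), (nat_lit 12801343)] (nat_lit 10356376)) p15_20_1 (nat_lit 4) (nat_lit 37) (nat_lit 38) = true := by decide +kernel
def p15_20_1_38 : pfC (piC [(nat_lit 39120232), (nat_lit 25510466), (nat_lit 19038091), (nat_lit 12801343)] (nat_lit 10356376)) p15_20_1 (nat_lit 4) (nat_lit 38) (nat_lit 39) = true := by decide +kernel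
def p15_20_1_39 : pfC (piC [(nat_lit 39120232), (nat_lit 25510466), (nat_lit 19038091), (nat_lit 12801343)] (nat_lit 10356376)) p15_20_1 (nat_lit 4) (nat_lit 39) (nat_lit 40) = true := by decide +kernel
def p15_20_1_40 : pfC (piC [(nat_lit 39120232), (nat_lit 25510466), (nat_lit 19038091), (nat_lit 12801343)] (nat_lit 10356376)) p15_20_1 (nat_lit 4) (nat_lit 40) (nat_lit 41) = true := by decide +kernel
def p15_20_1_41 : pfC (piC [(nat_lit 39120232), (nat_lit 25510466), (nat_lit 19038091), (nat_lit 12801343)] (nat_lit 10356376)) p15_20_1 (nat_lit 4) (nat_lit 41) (nat_lit 42) = true := by decide +kernel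
def p15_20_1_42 : pfC (piC [(nat_lit 39120232), (nat_lit 25510466), (nat_lit 19038091), (nat_lit 12801343)] (nat_lit 10356376)) p15_20_1 (nat_lit 4) (nat_lit 42) (nat_lit 43) = true := by decide +kernel
def p15_20_1_43 : pfC (piC [(nat_lit 39120232), (nat_lit 25510466), (nat_lit 19038091), (nat_lit 12801343)] (nat_lit 10356376)) p15_20_1 (nat_lit 4) (nat_lit 43) (nat_lit 44) = true := by decide +kernel
def p15_20_1_44 : pfC (piC [(nat_lit 39120232), (nat_lit 25510466), (nat_lit 19038091), (nat_lit 12801343)] (nat_lit 10356376)) p15_20_1 (nat_lit 4) (nat_lit 44) (nat_lit 45) = true := by decide +kernel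
def p15_20_1_45 : pfC (piC [(nat_lit 39120232), (nat_lit 25510466), (nat_lit 19038091), (nat_lit 12801343)] (nat_lit 10356376)) p15_20_1 (nat_lit 4) (nat_lit 45) (nat_lit 46) = true := by decide +kernel
def p15_20_1_46 : pfC (piC [(nat_lit 39120232), (nat_lit 25510466), (nat_lit 19038091), (nat_lit 12801343)] (nat_lit 10356376)) p15_20_1 (nat_lit 4) (nat_lit 46) (nat_lit 47) = true := by decide +kernel
def p15_20_1_47 : pfC (piC [(nat_lit 39120232), (nat_lit 25510466), (nat_lit 19038091), (nat_lit 12801343)] (nat_lit 10356376)) p15_20_1 (nat_lit 4) (nat_lit 47) (nat_lit 48) = true := by decide +kernel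
def p15_20_1_48 : pfC (piC [(nat_lit 39120232), (nat_lit 25510466), (nat_lit 19038091), (nat_lit 12801343)] (nat_lit 10356376)) p15_20_1 (nat_lit 4) (nat_lit 48) (nat_lit 49) = true := by decide +kernel
def p15_20_1_49 : pfC (piC [(nat_lit 39120232), (nat_lit 25510466), (nat_lit 19038091), (nat_lit 12801343)] (nat_lit 10356376)) p15_20_1 (nat_lit 4) (nat_lit 49) (nat_lit 50) = true := by decide +kernel
def p15_20_1_50 : pfC (piC [(nat_lit 39120232), (nat_lit 25510466), (nat_lit 19038091), (nat_lit 12801343)] (nat_lit 10356376)) p15_20_1 (nat_lit 4) (nat_lit 50) (nat_lit 51) = true := by decide +kernel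
def p15_20_1_51 : pfC (piC [(nat_lit 39120232), (nat_lit 25510466), (nat_lit 19038091), (nat_lit 12801343)] (nat_lit 10356376)) p15_20_1 (nat_lit 4) (nat_lit 51) (nat_lit 52) = true := by decide +kernel
def p15_20_1_52 : pfC (piC [(nat_lit 39120232), (nat_lit 25510466), (nat_lit 19038091), (nat_lit 12801343)] (nat_lit 10356376)) p15_20_1 (nat_lit 4) (nat_lit 52) (nat_lit 53) = true := by decide +kernel
def p15_20_1_53 : pfC (piC [(nat_lit 39120232), (nat_lit 25510466), (nat_lit 19038091), (nat_lit 12801343)] (nat_lit 10356376)) p15_20_1 (nat_lit 4) (nat_lit 53) (nat_lit 54) = true := by decide +kernel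
def p15_20_1_54 : pfC (piC [(nat_lit 39120232), (nat_lit 25510466), (nat_lit 19038091), (nat_lit 12801343)] (nat_lit 10356376)) p15_20_1 (nat_lit 4) (nat_lit 54) (nat_lit 55) = true := by decide +kernel
def p15_20_1_55 : pfC (piC [(nat_lit 39120232), (nat_lit 25510466), (nat_lit 19038091), (nat_lit 12801343)] (nat_lit 10356376)) p15_20_1 (nat_lit 4) (nat_lit 55) (nat_lit 56) = true := by decide +kernel
def p15_20_1_56 : pfC (piC [(nat_lit 39120232), (nat_lit 25510466), (nat_lit 19038091), (nat_lit 12801343)] (nat_lit 10356376)) p15_20_1 (nat_lit 4) (nat_lit 56) (nat_lit 57) = true := by decide +kernel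
def p15_20_1_57 : pfC (piC [(nat_lit 39120232), (nat_lit 25510466), (nat_lit 19038091), (nat_lit 12801343)] (nat_lit 10356376)) p15_20_1 (nat_lit 4) (nat_lit 57) (nat_lit 58) = true := by decide +kernel
def p15_20_1_58 : pfC (piC [(nat_lit 39120232), (nat_lit 25510466), (nat_lit 19038091), (nat_lit 12801343)] (nat_lit 10356376)) p15_20_1 (nat_lit 4) (nat_lit 58) (nat_lit 59) = true := by decide +kernel
def p15_20_1_59 : pfC (piC [(nat_lit 39120232), (nat_lit 25510466), (nat_lit 19038091), (nat_lit 12801343)] (nat_lit 10356376)) p15_20_1 (nat_lit 4) (nat_lit 59) (nat_lit 60) = true := by decide +kernel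
def p15_20_1_60 : pfC (piC [(nat_lit 39120232), (nat_lit 25510466), (nat_lit 19038091), (nat_lit 12801343)] (nat_lit 10356376)) p15_20_1 (nat_lit 4) (nat_lit 60) (nat_lit 61) = true := by decide +kernel
def p15_20_1_61 : pfC (piC [(nat_lit 39120232), (nat_lit 25510466), (nat_lit 19038091), (nat_lit 12801343)] (nat_lit 10356376)) p15_20_1 (nat_lit 4) (nat_lit 61) (nat_lit 62) = true := by decide +kernel
def p15_20_1_62 : pfC (piC [(nat_lit 39120232), (nat_lit 25510466), (nat_lit 19038091), (nat_lit 12801343)] (nat_lit 10356376)) p15_20_1 (nat_lit 4) (nat_lit 62) (nat_lit 63) = true := by decide +kernel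
def p15_20_1_63 : pfC (piC [(nat_lit 39120232), (nat_lit 25510466), (nat_lit 19038091), (nat_lit 12801343)] (nat_lit 10356376)) p15_20_1 (nat_lit 4) (nat_lit 63) (nat_lit 64) = true := by decide +kernel
def p15_20_1_64 : pfC (piC [(nat_lit 39120232), (nat_lit 25510466), (nat_lit 19038091), (nat_lit 12801343)] (nat_lit 10356376)) p15_20_1 (nat_lit 4) (nat_lit 64) (nat_lit 65) = true := by decide +kernel
def p15_20_1_65 : pfC (piC [(nat_lit 39120232), (nat_lit 25510466), (nat_lit 19038091), (nat_lit 12801343)] (nat_lit 10356376)) p15_20_1 (nat_lit 4) (nat_lit 65) (nat_lit 66) = true := by decide +kernel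
def p15_20_1_66 : pfC (piC [(nat_lit 39120232), (nat_lit 25510466), (nat_lit 19038091), (nat_lit 12801343)] (nat_lit 10356376)) p15_20_1 (nat_lit 4) (nat_lit 66) (nat_lit 67) = true := by decide +kernel
def p15_20_1_67 : pfC (piC [(nat_lit 39120232), (nat_lit 25510466), (nat_lit 19038091), (nat_lit 12801343)] (nat_lit 10356376)) p15_20_1 (nat_lit 4) (nat_lit 67) (nat_lit 68) = true := by decide +kernel
def p15_20_1_68 : pfC (piC [(nat_lit 39120232), (nat_lit 25510466), (nat_lit 19038091), (nat_lit 12801343)] (nat_lit 10356376)) p15_20_1 (nat_lit 4) (nat_lit 68) (nat_lit 69) = true := by decide +kernel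
def p15_20_1_69 : pfC (piC [(nat_lit 39120232), (nat_lit 25510466), (nat_lit 19038091), (nat_lit 12801343)] (nat_lit 10356376)) p15_20_1 (nat_lit 4) (nat_lit 69) (nat_lit 70) = true := by decide +kernel
def p15_20_1_70 : pfC (piC [(nat_lit 39120232), (nat_lit 25510466), (nat_lit 19038091), (nat_lit 12801343)] (nat_lit 10356376)) p15_20_1 (nat_lit 4) (nat_lit 70) (nat_lit 71) = true := by decide +kernel
def p15_20_1_71 : pfC (piC [(nat_lit 39120232), (nat_lit 25510466), (nat_lit 19038091), (nat_lit 12801343)] (nat_lit 10356376)) p15_20_1 (nat_lit 4) (nat_lit 71) (nat_lit 72) = true := by decide +kernel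
def p15_20_1_72 : pfC (piC [(nat_lit 39120232), (nat_lit 25510466), (nat_lit 19038091), (nat_lit 12801343)] (nat_lit 10356376)) p15_20_1 (nat_lit 4) (nat_lit 72) (nat_lit 73) = true := by decide +kernel
def p15_20_1_73 : pfC (piC [(nat_lit 39120232), (nat_lit 25510466), (nat_lit 19038091), (nat_lit 12801343)] (nat_lit 10356376)) p15_20_1 (nat_lit 4) (nat_lit 73) (nat_lit 74) = true := by decide +kernel
def p15_20_1_74 : pfC (piC [(nat_lit 39120232), (nat_lit 25510466), (nat_lit 19038091), (nat_lit 12801343)] (nat_lit 10356376)) p15_20_1 (nat_lit 4) (nat_lit 74) (nat_lit 75) = true := by decide +kernel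
def p15_20_1_75 : pfC (piC [(nat_lit 39120232), (nat_lit 25510466), (nat_lit 19038091), (nat_lit 12801343)] (nat_lit 10356376)) p15_20_1 (nat_lit 4) (nat_lit 75) (nat_lit 76) = true := by decide +kernel
def p15_20_1_76 : pfC (piC [(nat_lit 39120232), (nat_lit 25510466), (nat_lit 19038091), (nat_lit 12801343)] (nat_lit 10356376)) p15_20_1 (nat_lit 4) (nat_lit 76) (nat_lit 77) = true := by decide +kernel
def p15_20_1_77 : pfC (piC [(nat_lit 39120232), (nat_lit 25510466), (nat_lit 19038091), (nat_lit 12801343)] (nat_lit 10356376)) p15_20_1 (nat_lit 4) (nat_lit 77) (nat_lit 78) = true := by decide +kernel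
def p15_20_1_78 : pfC (piC [(nat_lit 39120232), (nat_lit 25510466), (nat_lit 19038091), (nat_lit 12801343)] (nat_lit 10356376)) p15_20_1 (nat_lit 4) (nat_lit 78) (nat_lit 79) = true := by decide +kernel
def p15_20_1_79 : pfC (piC [(nat_lit 39120232), (nat_lit 25510466), (nat_lit 19038091), (nat_lit 12801343)] (nat_lit 10356376)) p15_20_1 (nat_lit 4) (nat_lit 79) (nat_lit 80) = true := by decide +kernel
def p15_20_1_80 : pfC (piC [(nat_lit 39120232), (nat_lit 25510466), (nat_lit 19038091), (nat_lit 12801343)] (nat_lit 10356376)) p15_20_1 (nat_lit 4) (nat_lit 80) (nat_lit 81) = true := by decide +kernel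
def p15_20_1_81 : pfC (piC [(nat_lit 39120232), (nat_lit 25510466), (nat_lit 19038091), (nat_lit 12801343)] (nat_lit 10356376)) p15_20_1 (nat_lit 4) (nat_lit 81) (nat_lit 82) = true := by decide +kernel
def p15_20_1_82 : pfC (piC [(nat_lit 39120232), (nat_lit 25510466), (nat_lit 19038091), (nat_lit 12801343)] (nat_lit 10356376)) p15_20_1 (nat_lit 4) (nat_lit 82) (nat_lit 83) = true := by decide +kernel
def p15_20_1_83 : pfC (piC [(nat_lit 39120232), (nat_lit 25510466), (nat_lit 19038091), (nat_lit 12801343)] (nat_lit 10356376)) p15_20_1 (nat_lit 4) (nat_lit 83) (nat_lit 84) = true := by decide +kernel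
def p15_20_1_84 : pfC (piC [(nat_lit 39120232), (nat_lit 25510466), (nat_lit 19038091), (nat_lit 12801343)] (nat_lit 10356376)) p15_20_1 (nat_lit 4) (nat_lit 84) (nat_lit 85) = true := by decide +kernel
def p15_20_1_85 : pfC (piC [(nat_lit 39120232), (nat_lit 25510466), (nat_lit 19038091), (nat_lit 12801343)] (nat_lit 10356376)) p15_20_1 (nat_lit 4) (nat_lit 85) (nat_lit 86) = true := by decide +kernel
def p15_20_1_86 : pfC (piC [(nat_lit 39120232), (nat_lit 25510466), (nat_lit 19038091), (nat_lit 12801343)] (nat_lit 10356376)) p15_20_1 (nat_lit 4) (nat_lit 86) (nat_lit 87) = true := by decide +kernel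
def p15_20_1_87 : pfC (piC [(nat_lit 39120232), (nat_lit 25510466), (nat_lit 19038091), (nat_lit 12801343)] (nat_lit 10356376)) p15_20_1 (nat_lit 4) (nat_lit 87) (nat_lit 88) = true := by decide +kernel
def p15_20_1_88 : pfC (piC [(nat_lit 39120232), (nat_lit 25510466), (nat_lit 19038091), (nat_lit 12801343)] (nat_lit 10356376)) p15_20_1 (nat_lit 4) (nat_lit 88) (nat_lit 89) = true := by decide +kernel
def p15_20_1_89 : pfC (piC [(nat_lit 39120232), (nat_lit 25510466), (nat_lit 19038091), (nat_lit 12801343)] (nat_lit 10356376)) p15_20_1 (nat_lit 4) (nat_lit 89) (nat_lit 90) = true := by decide +kernel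
def p15_20_1_90 : pfC (piC [(nat_lit 39120232), (nat_lit 25510466), (nat_lit 19038091), (nat_lit 12801343)] (nat_lit 10356376)) p15_20_1 (nat_lit 4) (nat_lit 90) (nat_lit 91) = true := by decide +kernel
def p15_20_1_91 : pfC (piC [(nat_lit 39120232), (nat_lit 25510466), (nat_lit 19038091), (nat_lit 12801343)] (nat_lit 10356376)) p15_20_1 (nat_lit 4) (nat_lit 91) (nat_lit 92) = true := by decide +kernel
def p15_20_1_92 : pfC (piC [(nat_lit 39120232), (nat_lit 25510466), (nat_lit 19038091), (nat_lit 12801343)] (nat_lit 10356376)) p15_20_1 (nat_lit 4) (nat_lit 92) (nat_lit 93) = true := by decide +kernel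
def p15_20_1_93 : pfC (piC [(nat_lit 39120232), (nat_lit 25510466), (nat_lit 19038091), (nat_lit 12801343)] (nat_lit 10356376)) p15_20_1 (nat_lit 4) (nat_lit 93) (nat_lit 94) = true := by decide +kernel
def p15_20_1_94 : pfC (piC [(nat_lit 39120232), (nat_lit 25510466), (nat_lit 19038091), (nat_lit 12801343)] (nat_lit 10356376)) p15_20_1 (nat_lit 4) (nat_lit 94) (nat_lit 95) = true := by decide +kernel
def p15_20_1_95 : pfC (piC [(nat_lit 39120232), (nat_lit 25510466), (nat_lit 19038091), (nat_lit 12801343)] (nat_lit 10356376)) p15_20_1 (nat_lit 4) (nat_lit 95) (nat_lit 96) = true := by decide +kernel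
def p15_20_1_96 : pfC (piC [(nat_lit 39120232), (nat_lit 25510466), (nat_lit 19038091), (nat_lit 12801343)] (nat_lit 10356376)) p15_20_1 (nat_lit 4) (nat_lit 96) (nat_lit 97) = true := by decide +kernel
def p15_20_1_97 : pfC (piC [(nat_lit 39120232), (nat_lit 25510466), (nat_lit 19038091), (nat_lit 12801343)] (nat_lit 10356376)) p15_20_1 (nat_lit 4) (nat_lit 97) (nat_lit 98) = true := by decide +kernel
def p15_20_1_98 : pfC (piC [(nat_lit 39120232), (nat_lit 25510466), (nat_lit 19038091), (nat_lit 12801343)] (nat_lit 10356376)) p15_20_1 (nat_lit 4) (nat_lit 98) (nat_lit 99) = true := by decide +kernel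
def p15_20_1_99 : pfC (piC [(nat_lit 39120232), (nat_lit 25510466), (nat_lit 19038091), (nat_lit 12801343)] (nat_lit 10356376)) p15_20_1 (nat_lit 4) (nat_lit 99) (nat_lit 100) = true := by decide +kernel
def p15_20_1_100 : pfC (piC [(nat_lit 39120232), (nat_lit 25510466), (nat_lit 19038091), (nat_lit 12801343)] (nat_lit 10356376)) p15_20_1 (nat_lit 4) (nat_lit 100) (nat_lit 101) = true := by decide +kernel
def p15_20_1_101 : pfC (piC [(nat_lit 39120232), (nat_lit 25510466), (nat_lit 19038091), (nat_lit 12801343)] (nat_lit 10356376)) p15_20_1 (nat_lit 4) (nat_lit 101) (nat_lit 102) = true := by decide +kernel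
def p15_20_1_102 : pfC (piC [(nat_lit 39120232), (nat_lit 25510466), (nat_lit 19038091), (nat_lit 12801343)] (nat_lit 10356376)) p15_20_1 (nat_lit 4) (nat_lit 102) (nat_lit 103) = true := by decide +kernel
def p15_20_1_103 : pfC (piC [(nat_lit 39120232), (nat_lit 25510466), (nat_lit 19038091), (nat_lit 12801343)] (nat_lit 10356376)) p15_20_1 (nat_lit 4) (nat_lit 103) (nat_lit 104) = true := by decide +kernel
def p15_20_1_104 : pfC (piC [(nat_lit 39120232), (nat_lit 25510466), (nat_lit 19038091), (nat_lit 12801343)] (nat_lit 10356376)) p15_20_1 (nat_lit 4) (nat_lit 104) (nat_lit 105) = true := by decide +kernel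
def p15_20_1_105 : pfC (piC [(nat_lit 39120232), (nat_lit 25510466), (nat_lit 19038091), (nat_lit 12801343)] (nat_lit 10356376)) p15_20_1 (nat_lit 4) (nat_lit 105) (nat_lit 106) = true := by decide +kernel
def p15_20_1_106 : pfC (piC [(nat_lit 39120232), (nat_lit 25510466), (nat_lit 19038091), (nat_lit 12801343)] (nat_lit 10356376)) p15_20_1 (nat_lit 4) (nat_lit 106) (nat_lit 107) = true := by decide +kernel
def p15_20_1_107 : pfC (piC [(nat_lit 39120232), (nat_lit 25510466), (nat_lit 19038091), (nat_lit 12801343)] (nat_lit 10356376)) p15_20_1 (nat_lit 4) (nat_lit 107) (nat_lit 108) = true := by decide +kernel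
def p15_20_1_108 : pfC (piC [(nat_lit 39120232), (nat_lit 25510466), (nat_lit 19038091), (nat_lit 12801343)] (nat_lit 10356376)) p15_20_1 (nat_lit 4) (nat_lit 108) (nat_lit 109) = true := by decide +kernel
def p15_20_1_109 : pfC (piC [(nat_lit 39120232), (nat_lit 25510466), (nat_lit 19038091), (nat_lit 12801343)] (nat_lit 10356376)) p15_20_1 (nat_lit 4) (nat_lit 109) (nat_lit 110) = true := by decide +kernel
def p15_20_1_110 : pfC (piC [(nat_lit 39120232), (nat_lit 25510466), (nat_lit 19038091), (nat_lit 12801343)] (nat_lit 10356376)) p15_20_1 (nat_lit 4) (nat_lit 110) (nat_lit 111) = true := by decide +kernel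
def p15_20_1_111 : pfC (piC [(nat_lit 39120232), (nat_lit 25510466), (nat_lit 19038091), (nat_lit 12801343)] (nat_lit 10356376)) p15_20_1 (nat_lit 4) (nat_lit 111) (nat_lit 112) = true := by decide +kernel
def p15_20_1_112 : pfC (piC [(nat_lit 39120232), (nat_lit 25510466), (nat_lit 19038091), (nat_lit 12801343)] (nat_lit 10356376)) p15_20_1 (nat_lit 4) (nat_lit 112) (nat_lit 113) = true := by decide +kernel
def p15_20_1_113 : pfC (piC [(nat_lit 39120232), (nat_lit 25510466), (nat_lit 19038091), (nat_lit 12801343)] (nat_lit 10356376)) p15_20_1 (nat_lit 4) (nat_lit 113) (nat_lit 114) = true := by decide +kernel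
def p15_20_1_114 : pfC (piC [(nat_lit 39120232), (nat_lit 25510466), (nat_lit 19038091), (nat_lit 12801343)] (nat_lit 10356376)) p15_20_1 (nat_lit 4) (nat_lit 114) (nat_lit 115) = true := by decide +kernel
def p15_20_1_115 : pfC (piC [(nat_lit 39120232), (nat_lit 25510466), (nat_lit 19038091), (nat_lit 12801343)] (nat_lit 10356376)) p15_20_1 (nat_lit 4) (nat_lit 115) (nat_lit 116) = true := by decide +kernel
def p15_20_1_116 : pfC (piC [(nat_lit 39120232), (nat_lit 25510466), (nat_lit 19038091), (nat_lit 12801343)] (nat_lit 10356376)) p15_20_1 (nat_lit 4) (nat_lit 116) (nat_lit 117) = true := by decide +kernel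
def p15_20_1_117 : pfC (piC [(nat_lit 39120232), (nat_lit 25510466), (nat_lit 19038091), (nat_lit 12801343)] (nat_lit 10356376)) p15_20_1 (nat_lit 4) (nat_lit 117) (nat_lit 118) = true := by decide +kernel
def p15_20_1_118 : pfC (piC [(nat_lit 39120232), (nat_lit 25510466), (nat_lit 19038091), (nat_lit 12801343)] (nat_lit 10356376)) p15_20_1 (nat_lit 4) (nat_lit 118) (nat_lit 119) = true := by decide +kernel
def p15_20_1_119 : pfC (piC [(nat_lit 39120232), (nat_lit 25510466), (nat_lit 19038091), (nat_lit 12801343)] (nat_lit 10356376)) p15_20_1 (nat_lit 4) (nat_lit 119) (nat_lit 120) = true := by decide +kernel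
def p15_20_1_120 : pfC (piC [(nat_lit 39120232), (nat_lit 25510466), (nat_lit 19038091), (nat_lit 12801343)] (nat_lit 10356376)) p15_20_1 (nat_lit 4) (nat_lit 120) (nat_lit 121) = true := by decide +kernel
def p15_20_1_121 : pfC (piC [(nat_lit 39120232), (nat_lit 25510466), (nat_lit 19038091), (nat_lit 12801343)] (nat_lit 10356376)) p15_20_1 (nat_lit 4) (nat_lit 121) (nat_lit 122) = true := by decide +kernel
def p15_20_1_122 : pfC (piC [(nat_lit 39120232), (nat_lit 25510466), (nat_lit 19038091), (nat_lit 12801343)] (nat_lit 10356376)) p15_20_1 (nat_lit 4) (nat_lit 122) (nat_lit 123) = true := by decide +kernel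
def p15_20_1_123 : pfC (piC [(nat_lit 39120232), (nat_lit 25510466), (nat_lit 19038091), (nat_lit 12801343)] (nat_lit 10356376)) p15_20_1 (nat_lit 4) (nat_lit 123) (nat_lit 124) = true := by decide +kernel
def p15_20_1_124 : pfC (piC [(nat_lit 39120232), (nat_lit 25510466), (nat_lit 19038091), (nat_lit 12801343)] (nat_lit 10356376)) p15_20_1 (nat_lit 4) (nat_lit 124) (nat_lit 125) = true := by decide +kernel
def p15_20_1_125 : pfC (piC [(nat_lit 39120232), (nat_lit 25510466), (nat_lit 19038091), (nat_lit 12801343)] (nat_lit 10356376)) p15_20_1 (nat_lit 4) (nat_lit 125) (nat_lit 126) = true := by decide +kernel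
def p15_20_1_126 : pfC (piC [(nat_lit 39120232), (nat_lit 25510466), (nat_lit 19038091), (nat_lit 12801343)] (nat_lit 10356376)) p15_20_1 (nat_lit 4) (nat_lit 126) (nat_lit 127) = true := by decide +kernel
def p15_20_1_127 : pfC (piC [(nat_lit 39120232), (nat_lit 25510466), (nat_lit 19038091), (nat_lit 12801343)] (nat_lit 10356376)) p15_20_1 (nat_lit 4) (nat_lit 127) (nat_lit 128) = true := by decide +kernel
def p15_20_1_128 : pfC (piC [(nat_lit 39120232), (nat_lit 25510466), (nat_lit 19038091), (nat_lit 12801343)] (nat_lit 10356376)) p15_20_1 (nat_lit 4) (nat_lit 128) (nat_lit 129) = true := by decide +kernel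
def p15_20_1_129 : pfC (piC [(nat_lit 39120232), (nat_lit 25510466), (nat_lit 19038091), (nat_lit 12801343)] (nat_lit 10356376)) p15_20_1 (nat_lit 4) (nat_lit 129) (nat_lit 130) = true := by decide +kernel
def p15_20_1_130 : pfC (piC [(nat_lit 39120232), (nat_lit 25510466), (nat_lit 19038091), (nat_lit 12801343)] (nat_lit 10356376)) p15_20_1 (nat_lit 4) (nat_lit 130) (nat_lit 131) = true := by decide +kernel
def p15_20_1_131 : pfC (piC [(nat_lit 39120232), (nat_lit 25510466), (nat_lit 19038091), (nat_lit 12801343)] (nat_lit 10356376)) p15_20_1 (nat_lit 4) (nat_lit 131) (nat_lit 132) = true := by decide +kernel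
def p15_20_1_132 : pfC (piC [(nat_lit 39120232), (nat_lit 25510466), (nat_lit 19038091), (nat_lit 12801343)] (nat_lit 10356376)) p15_20_1 (nat_lit 4) (nat_lit 132) (nat_lit 133) = true := by decide +kernel
def p15_20_1_133 : pfC (piC [(nat_lit 39120232), (nat_lit 25510466), (nat_lit 19038091), (nat_lit 12801343)] (nat_lit 10356376)) p15_20_1 (nat_lit 4) (nat_lit 133) (nat_lit 134) = true := by decide +kernel
def p15_20_1_134 : pfC (piC [(nat_lit 39120232), (nat_lit 25510466), (nat_lit 19038091), (nat_lit 12801343)] (nat_lit 10356376)) p15_20_1 (nat_lit 4) (nat_lit 134) (nat_lit 135) = true := by decide +kernel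
def p15_20_1_135 : pfC (piC [(nat_lit 39120232), (nat_lit 25510466), (nat_lit 19038091), (nat_lit 12801343)] (nat_lit 10356376)) p15_20_1 (nat_lit 4) (nat_lit 135) (nat_lit 136) = true := by decide +kernel
def p15_20_1_136 : pfC (piC [(nat_lit 39120232), (nat_lit 25510466), (nat_lit 19038091), (nat_lit 12801343)] (nat_lit 10356376)) p15_20_1 (nat_lit 4) (nat_lit 136) (nat_lit 137) = true := by decide +kernel
def p15_20_1_137 : pfC (piC [(nat_lit 39120232), (nat_lit 25510466), (nat_lit 19038091), (nat_lit 12801343)] (nat_lit 10356376)) p15_20_1 (nat_lit 4) (nat_lit 137) (nat_lit 138) = true := by decide +kernel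
def p15_20_1_138 : pfC (piC [(nat_lit 39120232), (nat_lit 25510466), (nat_lit 19038091), (nat_lit 12801343)] (nat_lit 10356376)) p15_20_1 (nat_lit 4) (nat_lit 138) (nat_lit 139) = true := by decide +kernel
theorem p15_20_1_T : PfS (PiF n15_20.reverse (nat_lit 10356376)) p15_20_1 (nat_lit 4) [] 0 :=
  pftab_of (los := [(nat_lit 39120232), (nat_lit 25510466), (nat_lit 19038091), (nat_lit 12801343)]) (by decide +kernel) (hi := (nat_lit 139)) (PfP.trans (PfP.trans (PfP.trans (PfP.trans (PfP.trans (PfP.trans (PfP.trans (PfP.trans (PfP.trans (PfP.trans (PfP.trans (PfP.trans (PfP.trans (PfP.trans (PfP.trans (PfP.trans (PfP.trans (PfP.trans (PfP.trans (PfP.trans (PfP.trans (PfP.trans (PfP.trans (PfP.trans (PfP.trans (PfP.trans (PfP.trans (PfP.trans (PfP.trans (PfP.trans (PfP.trans (PfP.trans (PfP.trans (PfP.trans (PfP.trans (PfP.trans (PfP.trans (PfP.trans (PfP.trans (PfP.trans (PfP.trans (PfP.trans (PfP.trans (PfP.trans (PfP.trans (PfP.trans (PfP.trans (PfP.trans (PfP.trans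 (PfP.trans (PfP.trans (PfP.trans (PfP.trans (PfP.trans (PfP.trans (PfP.trans (PfP.trans (PfP.trans (PfP.trans (PfP.trans (PfP.trans (PfP.trans (PfP.trans (PfP.trans (PfP.trans (PfP.trans (PfP.trans (PfP.trans (PfP.trans (PfP.trans (PfP.trans (PfP.trans (PfP.trans (PfP.trans (PfP.trans (PfP.trans (PfP.trans (PfP.trans (PfP.trans (PfP.trans (PfP.trans (PfP.trans (PfP.trans (PfP.trans (PfP.trans (PfP.trans (PfP.trans (PfP.trans (PfP.trans (PfP.trans (PfP.trans (PfP.trans (PfP.trans (PfP.trans (PfP.trans (PfP.trans (PfP.trans (PfP.trans (PfP.trans (PfP.trans (PfP.trans (PfP.trans (PfP.trans (PfP.trans (PfP.trans (PfP.trans (PfP.trans (PfP.trans (PfP.trans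
 (PfP.trans (PfP.trans (PfP.trans (PfP.trans (PfP.trans (PfP.trans (PfP.trans (PfP.trans (PfP.trans (PfP.trans (PfP.trans (PfP.trans (PfP.trans (PfP.trans (PfP.trans (PfP.trans (PfP.trans (PfP.trans (PfP.trans (PfP.trans (PfP.trans (PfP.trans (PfP.trans (PfP.trans (PfP.trans (PfP.trans (PfP.trans (PfP.trans (PfP.trans (pfC_sound p15_20_1_0) (pfC_sound p15_20_1_1)) (pfC_sound p15_20_1_2)) (pfC_sound p15_20_1_3)) (pfC_sound p15_20_1_4)) (pfC_sound p15_20_1_5)) (pfC_sound p15_20_1_6)) (pfC_sound p15_20_1_7)) (pfC_sound p15_20_1_8)) (pfC_sound p15_20_1_9)) (pfC_sound p15_20_1_10)) (pfC_sound p15_20_1_11)) (pfC_sound p15_20_1_12)) (pfC_sound p15_20_1_13)) (pfC_sound p15_20_1_14)) (pfC_sound p15_20_1_15)) (pfC_sound p15_20_1_16)) (pfC_sound p15_20_1_17)) (pfC_sound p15_20_1_18)) (pfC_sound p15_20_1_19)) (pfC_sound p15_20_1_20)) (pfC_sound p15_20_1_21)) (pfC_sound p15_20_1_22)) (pfC_sound p15_20_1_23)) (pfC_sound p15_20_1_24)) (pfC_sound p15_20_1_25)) (pfC_sound p15_20_1_26))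 (pfC_sound p15_20_1_27)) (pfC_sound p15_20_1_28)) (pfC_sound p15_20_1_29)) (pfC_sound p15_20_1_30)) (pfC_sound p15_20_1_31)) (pfC_sound p15_20_1_32)) (pfC_sound p15_20_1_33)) (pfC_sound p15_20_1_34)) (pfC_sound
 p15_20_1_35)) (pfC_sound p15_20_1_36)) (pfC_sound p15_20_1_37)) (pfC_sound p15_20_1_38)) (pfC_sound p15_20_1_39)) (pfC_sound p15_20_1_40)) (pfC_sound p15_20_1_41)) (pfC_sound p15_20_1_42)) (pfC_sound p15_20_1_43)) (pfC_sound p15_20_1_44)) (pfC_sound p15_20_1_45)) (pfC_sound p15_20_1_46)) (pfC_sound p15_20_1_47)) (pfC_sound p15_20_1_48)) (pfC_sound p15_20_1_49)) (pfC_sound p15_20_1_50)) (pfC_sound p15_20_1_51)) (pfC_sound p15_20_1_52)) (pfC_sound p15_20_1_53)) (pfC_sound p15_20_1_54)) (pfC_sound p15_20_1_55)) (pfC_sound p15_20_1_56)) (pfC_sound p15_20_1_57)) (pfC_sound p15_20_1_58)) (pfC_sound p15_20_1_59)) (pfC_sound p15_20_1_60)) (pfC_sound p15_20_1_61)) (pfC_sound p15_20_1_62)) (pfC_sound p15_20_1_63)) (pfC_sound p15_20_1_64)) (pfC_sound p15_20_1_65)) (pfC_sound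 p15_20_1_66)) (pfC_sound p15_20_1_67)) (pfC_sound p15_20_1_68)) (pfC_sound p15_20_1_69)) (pfC_sound p15_20_1_70)) (pfC_sound p15_20_1_71)) (pfC_sound p15_20_1_72)) (pfC_sound p15_20_1_73)) (pfC_sound p15_20_1_74)) (pfC_sound p15_20_1_75)) (pfC_sound p15_20_1_76)) (pfC_sound p15_20_1_77)) (pfC_sound p15_20_1_78)) (pfC_sound p15_20_1_79)) (pfC_sound p15_20_1_80)) (pfC_sound p15_20_1_81)) (pfC_sound p15_20_1_82)) (pfC_sound
 p15_20_1_83)) (pfC_sound p15_20_1_84)) (pfC_sound p15_20_1_85)) (pfC_sound p15_20_1_86)) (pfC_sound p15_20_1_87)) (pfC_sound p15_20_1_88)) (pfC_sound p15_20_1_89)) (pfC_sound p15_20_1_90)) (pfC_sound p15_20_1_91)) (pfC_sound p15_20_1_92)) (pfC_sound p15_20_1_93)) (pfC_sound p15_20_1_94)) (pfC_sound p15_20_1_95)) (pfC_sound p15_20_1_96)) (pfC_sound p15_20_1_97)) (pfC_sound p15_20_1_98)) (pfC_sound p15_20_1_99)) (pfC_sound p15_20_1_100)) (pfC_sound p15_20_1_101)) (pfC_sound p15_20_1_102)) (pfC_sound p15_20_1_103)) (pfC_sound p15_20_1_104)) (pfC_sound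 p15_20_1_105)) (pfC_sound p15_20_1_106)) (pfC_sound p15_20_1_107)) (pfC_sound p15_20_1_108)) (pfC_sound p15_20_1_109)) (pfC_sound p15_20_1_110)) (pfC_sound p15_20_1_111)) (pfC_sound p15_20_1_112)) (pfC_sound p15_20_1_113)) (pfC_sound p15_20_1_114)) (pfC_sound p15_20_1_115)) (pfC_sound p15_20_1_116)) (pfC_sound p15_20_1_117)) (pfC_sound p15_20_1_118)) (pfC_sound p15_20_1_119)) (pfC_sound p15_20_1_120)) (pfC_sound p15_20_1_121)) (pfC_sound p15_20_1_122)) (pfC_sound p15_20_1_123)) (pfC_sound p15_20_1_124)) (pfC_sound p15_20_1_125)) (pfC_sound p15_20_1_126)) (pfC_sound p15_20_1_127)) (pfC_sound p15_20_1_128)) (pfC_sound p15_20_1_129))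
 (pfC_sound p15_20_1_130)) (pfC_sound p15_20_1_131)) (pfC_sound p15_20_1_132)) (pfC_sound p15_20_1_133)) (pfC_sound p15_20_1_134)) (pfC_sound p15_20_1_135)) (pfC_sound p15_20_1_136)) (pfC_sound p15_20_1_137)) (pfC_sound p15_20_1_138)) (by decide +kernel)

def z15_20_1 : zOK yB15_20 (nat_lit 1) (nat_lit 400) (nat_lit 600) (nat_lit 10356376) (nat_lit 6674796) = true := by decide +kernel
def g15_20_1 : gOK yB15_20.x P15_20 (nat_lit 1424) (q15_20 :: r15_20) (nat_lit 1) (nat_lit 400) (nat_lit 2) (nat_lit 600) (nat_lit 11000000) (nat_lit 17850000) (nat_lit 12712500) (nat_lit 12712500) [(nat_lit 800), (nat_lit 1040)] = true := by decide +kernel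
def v15_20_1 : ivC P15_20 s15_20 w15_20 n15_20 (nat_lit 4) (nat_lit 5005) (nat_lit 1) (nat_lit 400) f152_1_400 f160_1_400 (nat_lit 2) (nat_lit 600) f152_1_600 f160_1_600 (nat_lit 10356376) (nat_lit 6674796) p15_20_1 = true := by decide +kernel
def p15_20_2 : PF := (PF.cons (PF.cons (PF.cons (PF.cons (PF.leaf (nat_lit 2754417) (nat_lit 16094698) (nat_lit 51014114) (nat_lit 16094698) [(nat_lit 0), (nat_lit 0), (nat_lit 0), (nat_lit 0)]) (PF.cons (PF.leaf (nat_lit 2914342) (nat_lit 280209) (nat_lit 50753238) (nat_lit 16075365) [(nat_lit 280209), (nat_lit 0), (nat_lit 0), (nat_lit 0)]) (PF.cons (PF.leaf (nat_lit 3103471) (nat_lit 304410) (nat_lit 50448486) (nat_lit 16051504) [(nat_lit 304410), (nat_lit 0), (nat_lit 0), (nat_lit 0)]) (PF.cons (PF.leaf (nat_lit 3315501) (nat_lit 325782) (nat_lit 50108179) (nat_lit 16023284) [(nat_lit 325782), (nat_lit 0), (nat_lit 0), (nat_lit 0)]) (PF.cons (PF.leaf (nat_lit 3547119) (nat_lit 344952) (nat_lit 49738237) (nat_lit 15990767)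 [(nat_lit 344952), (nat_lit 0), (nat_lit 0), (nat_lit 0)]) (PF.cons (PF.leaf (nat_lit 3795636) (nat_lit 362320) (nat_lit 49343231) (nat_lit 15953981) [(nat_lit 362320), (nat_lit 0), (nat_lit 0), (nat_lit 0)]) (PF.cons (PF.leaf (nat_lit 4058964) (nat_lit 378163) (nat_lit 48926881) (nat_lit 15912951) [(nat_lit 378163), (nat_lit 0), (nat_lit 0), (nat_lit 0)]) (PF.cons (PF.leaf (nat_lit 4335292) (nat_lit 392682) (nat_lit 48492321) (nat_lit 15867712) [(nat_lit 392682), (nat_lit 0),
 (nat_lit 0), (nat_lit 0)]) (PF.cons (PF.leaf (nat_lit 4623156) (nat_lit 406030) (nat_lit 48042250) (nat_lit 15818316) [(nat_lit 406030), (nat_lit 0), (nat_lit 0), (nat_lit 0)]) (PF.cons PF.nil PF.nil)))))))))) (PF.cons (PF.cons (PF.leaf (nat_lit 3290481) (nat_lit 1262538) (nat_lit 49849579) (nat_lit 15996695) [(nat_lit 0), (nat_lit 1262538), (nat_lit 0), (nat_lit 0)]) (PF.cons (PF.leaf (nat_lit 3496103) (nat_lit 335763) (nat_lit 49513355) (nat_lit 15965966) [(nat_lit 335763), (nat_lit 1293727),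 (nat_lit 0), (nat_lit 0)]) (PF.cons (PF.leaf (nat_lit 3723547) (nat_lit 354201) (nat_lit 49145758) (nat_lit 15930636) [(nat_lit 354201), (nat_lit 1324014), (nat_lit 0), (nat_lit 0)]) (PF.cons (PF.leaf (nat_lit 3968575) (nat_lit 370838) (nat_lit 48752473) (nat_lit 15890874) [(nat_lit 370838), (nat_lit 1352947), (nat_lit 0), (nat_lit 0)]) (PF.cons (PF.leaf (nat_lit 4228764) (nat_lit 385979) (nat_lit 48337786) (nat_lit 15846794) [(nat_lit 385979), (nat_lit 1380314), (nat_lit 0), (nat_lit 0)]) (PF.cons (PF.leaf (nat_lit 4502116) (nat_lit 399832) (nat_lit 47905128) (nat_lit 15798494) [(nat_lit 399832), (nat_lit 1406025), (nat_lit 0), (nat_lit 0)]) (PF.cons (PF.leaf (nat_lit 4787025) (nat_lit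
 412554) (nat_lit 47457357) (nat_lit 15746072) [(nat_lit 412554), (nat_lit 1430058), (nat_lit 0), (nat_lit 0)]) (PF.cons (PF.leaf (nat_lit 5081993) (nat_lit 424261) (nat_lit 46996919) (nat_lit 15689635) [(nat_lit 424261), (nat_lit 1452428), (nat_lit 0), (nat_lit 0)]) (PF.cons PF.nil PF.nil))))))))) (PF.cons (PF.cons (PF.leaf (nat_lit 3903263) (nat_lit 1351868) (nat_lit 48540575) (nat_lit 15864501) [(nat_lit 0), (nat_lit 1351868), (nat_lit 0), (nat_lit 0)]) (PF.cons (PF.leaf (nat_lit 4142551) (nat_lit 378105) (nat_lit 48152920) (nat_lit 15822288) [(nat_lit 378105), (nat_lit 1377749), (nat_lit 0), (nat_lit 0)]) (PF.cons (PF.leaf (nat_lit 4398472) (nat_lit 392737) (nat_lit 47742830) (nat_lit 15775600) [(nat_lit 392737), (nat_lit 1402453), (nat_lit 0), (nat_lit 0)]) (PF.cons (PF.leaf (nat_lit 4668068) (nat_lit 406069) (nat_lit 47314375) (nat_lit 15724629) [(nat_lit 406069), (nat_lit 1425800), (nat_lit 0), (nat_lit 0)]) (PF.cons (PF.leaf (nat_lit 4949416) (nat_lit 418274)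 (nat_lit 46870761) (nat_lit 15669537) [(nat_lit 418274), (nat_lit 1447707), (nat_lit 0), (nat_lit 0)]) (PF.cons (PF.leaf (nat_lit 5240965) (nat_lit 429481) (nat_lit 46414629) (nat_lit 15610478) [(nat_lit 429481),
 (nat_lit 1468147), (nat_lit 0), (nat_lit 0)]) (PF.cons PF.nil PF.nil))))))) (PF.cons (PF.cons (PF.leaf (nat_lit 4569752) (nat_lit 1422507) (nat_lit 47141909) (nat_lit 15699380) [(nat_lit 0), (nat_lit 1422507), (nat_lit 0), (nat_lit 0)]) (PF.cons (PF.leaf (nat_lit 4833937) (nat_lit 411423) (nat_lit 46720205) (nat_lit 15646199) [(nat_lit 411423), (nat_lit 1443661), (nat_lit 0), (nat_lit 0)]) (PF.cons (PF.leaf (nat_lit 5110960) (nat_lit 423226) (nat_lit 46282721) (nat_lit 15588839) [(nat_lit 423226), (nat_lit 1463599), (nat_lit 0), (nat_lit 0)]) (PF.cons (PF.leaf (nat_lit 5398491) (nat_lit 434021) (nat_lit 45832472) (nat_lit 15527518) [(nat_lit 434021), (nat_lit 1482252), (nat_lit 0), (nat_lit 0)]) (PF.cons (PF.leaf (nat_lit 5695092) (nat_lit 443920) (nat_lit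 45371909) (nat_lit 15462431) [(nat_lit 443920), (nat_lit 1499596), (nat_lit 0), (nat_lit 0)]) PF.nil))))) (PF.cons (PF.cons (PF.leaf (nat_lit 5272887) (nat_lit 1477898) (nat_lit 45693164) (nat_lit 15504055) [(nat_lit 0), (nat_lit 1477898), (nat_lit 0), (nat_lit 0)]) (PF.cons (PF.leaf (nat_lit 5555224) (nat_lit 437898) (nat_lit 45250519) (nat_lit 15440874) [(nat_lit 437898), (nat_lit 1494880), (nat_lit 0), (nat_lit 0)]) (PF.cons
 (PF.leaf (nat_lit 5847432) (nat_lit 447462) (nat_lit 44797164) (nat_lit 15373932) [(nat_lit 447462), (nat_lit 1510697), (nat_lit 0), (nat_lit 0)]) (PF.cons PF.nil PF.nil)))) (PF.cons (PF.cons (PF.leaf (nat_lit 5999392) (nat_lit 1520538) (nat_lit 44223908) (nat_lit 15282211) [(nat_lit 0), (nat_lit 1520538), (nat_lit 0), (nat_lit 0)]) (PF.cons (PF.leaf (nat_lit 6294530) (nat_lit 458899) (nat_lit 43770342) (nat_lit 15210279) [(nat_lit 458899), (nat_lit 1533858), (nat_lit 0), (nat_lit 0)]) PF.nil)) (PF.cons PF.nil (PF.cons PF.nil PF.nil))))))))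 (PF.cons (PF.cons (PF.cons (PF.leaf (nat_lit 3826995) (nat_lit 3261187) (nat_lit 48056375) (nat_lit 15791249) [(nat_lit 0), (nat_lit 0), (nat_lit 3261187), (nat_lit 0)]) (PF.cons (PF.leaf (nat_lit 4041281) (nat_lit 358313) (nat_lit 47711852) (nat_lit 15752062) [(nat_lit 358313), (nat_lit 0), (nat_lit 3286584), (nat_lit 0)]) (PF.cons (PF.leaf (nat_lit 4276198) (nat_lit 375445) (nat_lit 47338196) (nat_lit 15707919) [(nat_lit 375445), (nat_lit 0), (nat_lit 3311806), (nat_lit 0)]) (PF.cons (PF.leaf (nat_lit 4527513) (nat_lit 390689) (nat_lit 46941323) (nat_lit 15659198) [(nat_lit 390689), (nat_lit 0), (nat_lit 3336222), (nat_lit 0)]) (PF.cons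
 (PF.leaf (nat_lit 4792701) (nat_lit 404407) (nat_lit 46525582) (nat_lit 15606169) [(nat_lit 404407), (nat_lit 0), (nat_lit 3359431), (nat_lit 0)]) (PF.cons (PF.leaf (nat_lit 5069754) (nat_lit 416843) (nat_lit 46094373) (nat_lit 15549048) [(nat_lit 416843), (nat_lit 0), (nat_lit 3381174), (nat_lit 0)]) (PF.cons (PF.leaf (nat_lit 5357101) (nat_lit 428170) (nat_lit 45650468) (nat_lit 15488031) [(nat_lit 428170), (nat_lit 0), (nat_lit 3401288), (nat_lit 0)]) (PF.cons PF.nil (PF.cons PF.nil PF.nil))))))))) (PF.cons (PF.cons (PF.leaf (nat_lit 4450897) (nat_lit 1402692) (nat_lit 46738659) (nat_lit 15629612) [(nat_lit 0), (nat_lit 1402692), (nat_lit 3337848), (nat_lit 0)]) (PF.cons (PF.leaf (nat_lit 4695521) (nat_lit 395952) (nat_lit 46350220) (nat_lit 15579203) [(nat_lit 395952), (nat_lit 1424355), (nat_lit 3359080), (nat_lit 0)]) (PF.cons (PF.leaf (nat_lit 4955602) (nat_lit 409331) (nat_lit 45941592) (nat_lit 15524306) [(nat_lit 409331), (nat_lit 1444893), (nat_lit 3379357),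 (nat_lit 0)]) (PF.cons (PF.leaf (nat_lit 5228201) (nat_lit 421392) (nat_lit 45516838) (nat_lit 15465242) [(nat_lit 421392), (nat_lit 1464178), (nat_lit 3398377), (nat_lit 0)]) (PF.cons (PF.leaf (nat_lit 5511388)
 (nat_lit 432333) (nat_lit 45079099) (nat_lit 15402273) [(nat_lit 432333), (nat_lit 1482156), (nat_lit 3415948), (nat_lit 0)]) (PF.cons (PF.leaf (nat_lit 5803662) (nat_lit 442299) (nat_lit 44630912) (nat_lit 15335627) [(nat_lit 442299), (nat_lit 1498817), (nat_lit 3431956), (nat_lit 0)]) (PF.cons PF.nil PF.nil))))))) (PF.cons (PF.cons (PF.leaf (nat_lit 5120100) (nat_lit 1459898) (nat_lit 45354254) (nat_lit 15438184) [(nat_lit 0), (nat_lit 1459898), (nat_lit 3396576), (nat_lit 0)]) (PF.cons (PF.leaf (nat_lit 5386657) (nat_lit 425188) (nat_lit 44938150) (nat_lit 15377644) [(nat_lit 425188), (nat_lit 1477393), (nat_lit 3413042), (nat_lit 0)]) (PF.cons (PF.leaf (nat_lit 5665007) (nat_lit 435843) (nat_lit 44508242) (nat_lit 15313120) [(nat_lit 435843), (nat_lit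 1493761), (nat_lit 3428240), (nat_lit 0)]) (PF.cons (PF.leaf (nat_lit 5952833) (nat_lit 445502) (nat_lit 44067452) (nat_lit 15244906) [(nat_lit 445502), (nat_lit 1508958), (nat_lit 3442031), (nat_lit 0)]) (PF.cons PF.nil PF.nil))))) (PF.cons (PF.cons (PF.leaf (nat_lit 5819087) (nat_lit 1504083) (nat_lit 43937615) (nat_lit 15220619) [(nat_lit 0), (nat_lit 1504083), (nat_lit 3438327), (nat_lit 0)]) (PF.cons (PF.leaf (nat_lit
 6101309) (nat_lit 448134) (nat_lit 43505687) (nat_lit 15151227) [(nat_lit 448134), (nat_lit 1517905), (nat_lit 3450048), (nat_lit 0)]) (PF.cons (PF.leaf (nat_lit 6392472) (nat_lit 456671) (nat_lit 43064674) (nat_lit 15078381) [(nat_lit 456671), (nat_lit 1530664), (nat_lit 3460419), (nat_lit 0)]) (PF.cons PF.nil PF.nil)))) (PF.cons (PF.cons (PF.leaf (nat_lit 6536023) (nat_lit 1537325) (nat_lit 42513845) (nat_lit 14980954) [(nat_lit 0), (nat_lit 1537325), (nat_lit 3464710), (nat_lit 0)]) (PF.cons (PF.leaf (nat_lit 6828995) (nat_lit 466098) (nat_lit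 42074912) (nat_lit 14904081) [(nat_lit 466098), (nat_lit 1547931), (nat_lit 3471994), (nat_lit 0)]) PF.nil)) (PF.cons PF.nil PF.nil)))))) (PF.cons (PF.cons (PF.cons (PF.leaf (nat_lit 4986725) (nat_lit 3378884) (nat_lit 44984031) (nat_lit 15367013) [(nat_lit 0), (nat_lit 0), (nat_lit 3378884), (nat_lit 0)]) (PF.cons (PF.leaf (nat_lit 5234634) (nat_lit 409938) (nat_lit 44599697) (nat_lit 15309940) [(nat_lit 409938), (nat_lit 0), (nat_lit 3394618), (nat_lit 0)]) (PF.cons (PF.leaf (nat_lit 5496986) (nat_lit 422209) (nat_lit 44197157) (nat_lit 15248458) [(nat_lit 422209), (nat_lit 0), (nat_lit 3409389), (nat_lit 0)]) (PF.cons (PF.leaf (nat_lit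
 5770801) (nat_lit 433157) (nat_lit 43780403) (nat_lit 15182992) [(nat_lit 433157), (nat_lit 0), (nat_lit 3422971), (nat_lit 0)]) (PF.cons (PF.leaf (nat_lit 6054258) (nat_lit 442999) (nat_lit 43352476) (nat_lit 15113878) [(nat_lit 442999), (nat_lit 0), (nat_lit 3435229), (nat_lit 0)]) (PF.cons PF.nil (PF.cons PF.nil PF.nil))))))) (PF.cons (PF.cons (PF.leaf (nat_lit 5654385) (nat_lit 1486375) (nat_lit 43628072) (nat_lit 15154894) [(nat_lit 0), (nat_lit 1486375), (nat_lit 3419735), (nat_lit 0)]) (PF.cons (PF.leaf (nat_lit 5921754) (nat_lit 435682) (nat_lit 43221221) (nat_lit 15088609) [(nat_lit 435682), (nat_lit 1500809), (nat_lit 3431245), (nat_lit 0)]) (PF.cons (PF.leaf (nat_lit 6199944) (nat_lit 445331) (nat_lit 42802240) (nat_lit 15018570) [(nat_lit 445331), (nat_lit 1514191), (nat_lit 3441573), (nat_lit 0)]) (PF.cons (PF.leaf (nat_lit 6486738) (nat_lit 453998) (nat_lit 42373937) (nat_lit 14945131) [(nat_lit 453998), (nat_lit 1526499), (nat_lit 3450624), (nat_lit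 0)]) (PF.cons PF.nil PF.nil))))) (PF.cons (PF.cons (PF.leaf (nat_lit 6346222) (nat_lit 1521293) (nat_lit 42253431) (nat_lit 14920558) [(nat_lit 0), (nat_lit 1521293), (nat_lit 3446117), (nat_lit 0)]) (PF.cons (PF.leaf
 (nat_lit 6627142) (nat_lit 455609) (nat_lit 41834770) (nat_lit 14846527) [(nat_lit 455609), (nat_lit 1532462), (nat_lit 3453489), (nat_lit 0)]) (PF.cons (PF.leaf (nat_lit 6916201) (nat_lit 463250) (nat_lit 41408361) (nat_lit 14769348) [(nat_lit 463250), (nat_lit 1542658), (nat_lit 3459642), (nat_lit 0)]) (PF.cons PF.nil PF.nil)))) (PF.cons (PF.cons (PF.leaf (nat_lit 7051610) (nat_lit 1546735) (nat_lit 40881532) (nat_lit 14668127) [(nat_lit 0), (nat_lit 1546735), (nat_lit 3459474), (nat_lit 0)]) (PF.cons PF.nil PF.nil)) (PF.cons PF.nil PF.nil))))) (PF.cons (PF.cons (PF.cons (PF.leaf (nat_lit 6171617) (nat_lit 3427206) (nat_lit 41971178) (nat_lit 14856014) [(nat_lit 0), (nat_lit 0), (nat_lit 3427206), (nat_lit 0)]) (PF.cons (PF.leaf (nat_lit 6438514) (nat_lit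 443476) (nat_lit 41576069) (nat_lit 14785408) [(nat_lit 443476), (nat_lit 0), (nat_lit 3434619), (nat_lit 0)]) (PF.cons (PF.leaf (nat_lit 6715437) (nat_lit 452236) (nat_lit 41170253) (nat_lit 14711293) [(nat_lit 452236), (nat_lit 0), (nat_lit 3440930), (nat_lit 0)]) (PF.cons (PF.leaf (nat_lit 7000193) (nat_lit 460034) (nat_lit 40756408) (nat_lit 14634065) [(nat_lit 460034), (nat_lit 0), (nat_lit 3446078), (nat_lit 0)]) (PF.cons
 PF.nil PF.nil))))) (PF.cons (PF.cons (PF.leaf (nat_lit 6854064) (nat_lit 1531228) (nat_lit 40644886) (nat_lit 14609613) [(nat_lit 0), (nat_lit 1531228), (nat_lit 3441028), (nat_lit 0)]) (PF.cons (PF.leaf (nat_lit 7132780) (nat_lit 460802) (nat_lit 40241111) (nat_lit 14532286) [(nat_lit 460802), (nat_lit 1540160), (nat_lit 3444817), (nat_lit 0)]) (PF.cons PF.nil (PF.cons PF.nil PF.nil)))) (PF.cons (PF.cons (PF.leaf (nat_lit 7546540) (nat_lit 1550166) (nat_lit 39328522) (nat_lit 14348648) [(nat_lit 0), (nat_lit 1550166), (nat_lit 3443770), (nat_lit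 0)]) (PF.cons PF.nil PF.nil)) PF.nil))) (PF.cons (PF.cons (PF.cons (PF.leaf (nat_lit 7342784) (nat_lit 3425696) (nat_lit 39113559) (nat_lit 14292466) [(nat_lit 0), (nat_lit 0), (nat_lit 3425696), (nat_lit 0)]) (PF.cons (PF.leaf (nat_lit 7618566) (nat_lit 464105) (nat_lit 38725601) (nat_lit 14212970) [(nat_lit 464105), (nat_lit 0), (nat_lit 3426533), (nat_lit 0)]) PF.nil)) (PF.cons PF.nil PF.nil)) (PF.cons PF.nil (PF.cons PF.nil (PF.cons PF.nil PF.nil)))))))) (PF.cons (PF.cons (PF.cons (PF.cons (PF.leaf (nat_lit 4753245) (nat_lit 8841394) (nat_lit 43285362) (nat_lit 14982055) [(nat_lit 0), (nat_lit 0), (nat_lit 0), (nat_lit 8841394)])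
 (PF.cons (PF.leaf (nat_lit 4965044) (nat_lit 367500) (nat_lit 42975922) (nat_lit 14933582) [(nat_lit 367500), (nat_lit 0), (nat_lit 0), (nat_lit 8831806)]) (PF.cons (PF.leaf (nat_lit 5195978) (nat_lit 383446) (nat_lit 42641715) (nat_lit 14880043) [(nat_lit 383446), (nat_lit 0), (nat_lit 0), (nat_lit 8820160)]) (PF.cons (PF.leaf (nat_lit 5441777) (nat_lit 397372) (nat_lit 42288176) (nat_lit 14822089) [(nat_lit 397372), (nat_lit 0), (nat_lit 0), (nat_lit 8806428)]) (PF.cons (PF.leaf (nat_lit 5699895) (nat_lit 409690) (nat_lit 41919258) (nat_lit 14760190) [(nat_lit 409690), (nat_lit 0), (nat_lit 0), (nat_lit 8790600)]) (PF.cons (PF.leaf (nat_lit 5968390) (nat_lit 420682) (nat_lit 41538009) (nat_lit 14694714) [(nat_lit 420682), (nat_lit 0), (nat_lit 0), (nat_lit 8772678)]) (PF.cons (PF.leaf (nat_lit 6245681) (nat_lit 430548) (nat_lit 41146873) (nat_lit 14625968) [(nat_lit 430548), (nat_lit 0), (nat_lit 0), (nat_lit 8752682)]) (PF.cons (PF.leaf (nat_lit 6530465) (nat_lit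 439440) (nat_lit 40747863) (nat_lit 14554217) [(nat_lit 439440), (nat_lit 0), (nat_lit 0), (nat_lit 8730648)]) (PF.cons PF.nil PF.nil))))))))) (PF.cons (PF.cons (PF.leaf (nat_lit 5355906) (nat_lit 1411913) (nat_lit
 42113327) (nat_lit 14789452) [(nat_lit 0), (nat_lit 1411913), (nat_lit 0), (nat_lit 8794120)]) (PF.cons (PF.leaf (nat_lit 5594301) (nat_lit 400695) (nat_lit 41768980) (nat_lit 14731096) [(nat_lit 400695), (nat_lit 1429235), (nat_lit 0), (nat_lit 8778805)]) (PF.cons (PF.leaf (nat_lit 5846735) (nat_lit 412768) (nat_lit 41407947) (nat_lit 14668580) [(nat_lit 412768), (nat_lit 1445377), (nat_lit 0), (nat_lit 8761369)]) (PF.cons (PF.leaf (nat_lit 6110216) (nat_lit 423479) (nat_lit 41033859) (nat_lit 14602382) [(nat_lit 423479), (nat_lit 1460279), (nat_lit 0), (nat_lit 8741853)]) (PF.cons (PF.leaf (nat_lit 6382950) (nat_lit 433052) (nat_lit 40649488) (nat_lit 14532875) [(nat_lit 433052), (nat_lit 1473939), (nat_lit 0), (nat_lit 8720300)]) (PF.cons (PF.leaf (nat_lit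 6663482) (nat_lit 441651) (nat_lit 40257041) (nat_lit 14460367) [(nat_lit 441651), (nat_lit 1486384), (nat_lit 0), (nat_lit 8696760)]) (PF.cons PF.nil PF.nil))))))) (PF.cons (PF.cons (PF.leaf (nat_lit 5995156) (nat_lit 1454848) (nat_lit 40895396) (nat_lit 14574142) [(nat_lit 0), (nat_lit 1454848), (nat_lit 0), (nat_lit 8729577)]) (PF.cons (PF.leaf (nat_lit 6252224) (nat_lit 425639) (nat_lit 40530184) (nat_lit 14507646)
 [(nat_lit 425639), (nat_lit 1468319), (nat_lit 0), (nat_lit 8708702)]) (PF.cons (PF.leaf (nat_lit 6519800) (nat_lit 435015) (nat_lit 40153845) (nat_lit 14437722) [(nat_lit 435015), (nat_lit 1480708), (nat_lit 0), (nat_lit 8685797)]) (PF.cons (PF.leaf (nat_lit 6795631) (nat_lit 443394) (nat_lit 39768924) (nat_lit 14364746) [(nat_lit 443394), (nat_lit 1492010), (nat_lit 0), (nat_lit 8660937)]) (PF.cons (PF.leaf (nat_lit 7078376) (nat_lit 450915) (nat_lit 39377432) (nat_lit 14289029) [(nat_lit 450915), (nat_lit 1502246), (nat_lit 0), (nat_lit 8634195)])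 PF.nil))))) (PF.cons (PF.cons (PF.leaf (nat_lit 6657327) (nat_lit 1486516) (nat_lit 39659535) (nat_lit 14340495) [(nat_lit 0), (nat_lit 1486516), (nat_lit 0), (nat_lit 8649231)]) (PF.cons (PF.leaf (nat_lit 6927399) (nat_lit 444667) (nat_lit 39283257) (nat_lit 14267378) [(nat_lit 444667), (nat_lit 1496752), (nat_lit 0), (nat_lit 8623250)]) (PF.cons (PF.leaf (nat_lit 7205335) (nat_lit 452021) (nat_lit 38899829) (nat_lit 14191458) [(nat_lit 452021), (nat_lit 1506023), (nat_lit 0), (nat_lit 8595411)]) (PF.cons PF.nil PF.nil)))) (PF.cons (PF.cons (PF.leaf (nat_lit 7332415) (nat_lit 1509045) (nat_lit 38425206) (nat_lit 14092425) [(nat_lit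
 0), (nat_lit 1509045), (nat_lit 0), (nat_lit 8554999)]) (PF.cons (PF.leaf (nat_lit 7611188) (nat_lit 459174) (nat_lit 38044903) (nat_lit 14014047) [(nat_lit 459174), (nat_lit 1516544), (nat_lit 0), (nat_lit 8524508)]) PF.nil)) (PF.cons PF.nil PF.nil)))))) (PF.cons (PF.cons (PF.cons (PF.leaf (nat_lit 5848981) (nat_lit 3324012) (nat_lit 40588040) (nat_lit 14503899) [(nat_lit 0), (nat_lit 0), (nat_lit 3324012), (nat_lit 8692860)]) (PF.cons (PF.leaf (nat_lit 6088856) (nat_lit 410333) (nat_lit 40250493) (nat_lit 14441739) [(nat_lit 410333), (nat_lit 0), (nat_lit 3333094), (nat_lit 8673152)]) (PF.cons (PF.leaf (nat_lit 6341871) (nat_lit 421419) (nat_lit 39897840) (nat_lit 14375576) [(nat_lit 421419), (nat_lit 0), (nat_lit 3341223), (nat_lit 8651334)]) (PF.cons (PF.leaf (nat_lit 6605112) (nat_lit 431162) (nat_lit 39533599) (nat_lit 14305943) [(nat_lit 431162), (nat_lit 0), (nat_lit 3348268), (nat_lit 8627514)]) (PF.cons (PF.leaf (nat_lit 6876803) (nat_lit 439799) (nat_lit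 39160419) (nat_lit 14233251) [(nat_lit 439799), (nat_lit 0), (nat_lit 3354161), (nat_lit 8601781)]) (PF.cons (PF.leaf (nat_lit 7155540) (nat_lit 447501) (nat_lit 38780383) (nat_lit 14157831) [(nat_lit 447501), (nat_lit
 0), (nat_lit 3358870), (nat_lit 8574222)]) (PF.cons PF.nil PF.nil))))))) (PF.cons (PF.cons (PF.leaf (nat_lit 6483619) (nat_lit 1468657) (nat_lit 39404526) (nat_lit 14277768) [(nat_lit 0), (nat_lit 1468657), (nat_lit 3343449), (nat_lit 8614412)]) (PF.cons (PF.leaf (nat_lit 6740211) (nat_lit 432357) (nat_lit 39049799) (nat_lit 14208285) [(nat_lit 432357), (nat_lit 1479726), (nat_lit 3349015), (nat_lit 8589629)]) (PF.cons (PF.leaf (nat_lit 7006521) (nat_lit 440878) (nat_lit 38685199) (nat_lit 14135599) [(nat_lit 440878), (nat_lit 1489797), (nat_lit 3353538), (nat_lit 8562922)]) (PF.cons (PF.leaf (nat_lit 7280398) (nat_lit 448429) (nat_lit 38313154) (nat_lit 14060113) [(nat_lit 448429), (nat_lit 1498878), (nat_lit 3356974), (nat_lit 8534402)]) (PF.cons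 PF.nil PF.nil))))) (PF.cons (PF.cons (PF.leaf (nat_lit 7137098) (nat_lit 1493289) (nat_lit 38211931) (nat_lit 14036298) [(nat_lit 0), (nat_lit 1493289), (nat_lit 3351641), (nat_lit 8522363)]) (PF.cons (PF.leaf (nat_lit 7405079) (nat_lit 448945) (nat_lit 37848856) (nat_lit 13961051) [(nat_lit 448945), (nat_lit 1501492), (nat_lit 3353904), (nat_lit 8493068)]) (PF.cons (PF.leaf (nat_lit 7680302) (nat_lit 455563) (nat_lit 37479588) (nat_lit
 13883250) [(nat_lit 455563), (nat_lit 1508814), (nat_lit 3355147), (nat_lit 8462069)]) (PF.cons PF.nil PF.nil)))) (PF.cons (PF.cons (PF.leaf (nat_lit 7800374) (nat_lit 1510011) (nat_lit 37026916) (nat_lit 13783240) [(nat_lit 0), (nat_lit 1510011), (nat_lit 3349967), (nat_lit 8418655)]) (PF.cons PF.nil PF.nil)) (PF.cons PF.nil PF.nil))))) (PF.cons (PF.cons (PF.cons (PF.leaf (nat_lit 6956289) (nat_lit 3332515) (nat_lit 37979651) (nat_lit 13976074) [(nat_lit 0), (nat_lit 0), (nat_lit 3332515), (nat_lit 8488055)]) (PF.cons (PF.leaf (nat_lit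 7211553) (nat_lit 437086) (nat_lit 37636675) (nat_lit 13904547) [(nat_lit 437086), (nat_lit 0), (nat_lit 3335167), (nat_lit 8460168)]) (PF.cons (PF.leaf (nat_lit 7475889) (nat_lit 444853) (nat_lit 37284896) (nat_lit 13830035) [(nat_lit 444853), (nat_lit 0), (nat_lit 3336852), (nat_lit 8430468)]) (PF.cons (PF.leaf (nat_lit 7747170) (nat_lit 451680) (nat_lit 36926618) (nat_lit 13752960) [(nat_lit 451680), (nat_lit 0), (nat_lit 3337548), (nat_lit 8399094)]) (PF.cons PF.nil PF.nil))))) (PF.cons (PF.cons (PF.leaf (nat_lit 7599751) (nat_lit 1495007) (nat_lit 36833079) (nat_lit 13729780) [(nat_lit 0), (nat_lit 1495007), (nat_lit 3331997), (nat_lit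
 8386950)]) (PF.cons (PF.leaf (nat_lit 7865084) (nat_lit 451573) (nat_lit 36483889) (nat_lit 13653255) [(nat_lit 451573), (nat_lit 1501494), (nat_lit 3331753), (nat_lit 8355091)]) (PF.cons PF.nil (PF.cons PF.nil PF.nil)))) (PF.cons (PF.cons (PF.leaf (nat_lit 8250498) (nat_lit 1506884) (nat_lit 35698432) (nat_lit 13474337) [(nat_lit 0), (nat_lit 1506884), (nat_lit 3323075), (nat_lit 8276123)]) (PF.cons PF.nil PF.nil)) PF.nil))) (PF.cons (PF.cons (PF.cons (PF.leaf (nat_lit 8045710) (nat_lit 3305804) (nat_lit 35522179) (nat_lit 13423655) [(nat_lit 0), (nat_lit 0), (nat_lit 3305804), (nat_lit 8245566)]) (PF.cons (PF.leaf (nat_lit 8307913) (nat_lit 452835) (nat_lit 35187162) (nat_lit 13346553) [(nat_lit 452835), (nat_lit 0), (nat_lit 3303496), (nat_lit 8211772)]) PF.nil)) (PF.cons PF.nil PF.nil)) (PF.cons PF.nil (PF.cons PF.nil PF.nil)))))) (PF.cons (PF.cons (PF.cons (PF.cons (PF.leaf (nat_lit 6613141) (nat_lit 8299273) (nat_lit 36851220) (nat_lit 13659046) [(nat_lit 0),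 (nat_lit 0), (nat_lit 0), (nat_lit 8299273)]) (PF.cons (PF.leaf (nat_lit 6844289) (nat_lit 405653) (nat_lit 36556035) (nat_lit 13596442) [(nat_lit 405653), (nat_lit 0), (nat_lit 0), (nat_lit 8275340)]) (PF.cons (PF.leaf
 (nat_lit 7087552) (nat_lit 415766) (nat_lit 36248132) (nat_lit 13530236) [(nat_lit 415766), (nat_lit 0), (nat_lit 0), (nat_lit 8249456)]) (PF.cons (PF.leaf (nat_lit 7340071) (nat_lit 424547) (nat_lit 35930579) (nat_lit 13460996) [(nat_lit 424547), (nat_lit 0), (nat_lit 0), (nat_lit 8221797)]) (PF.cons (PF.leaf (nat_lit 7600151) (nat_lit 432243) (nat_lit 35605673) (nat_lit 13389156) [(nat_lit 432243), (nat_lit 0), (nat_lit 0), (nat_lit 8192505)]) (PF.cons PF.nil (PF.cons PF.nil PF.nil))))))) (PF.cons (PF.cons (PF.leaf (nat_lit 7216183) (nat_lit 1436936) (nat_lit 35821175) (nat_lit 13434168) [(nat_lit 0), (nat_lit 1436936), (nat_lit 0), (nat_lit 8208266)]) (PF.cons (PF.leaf (nat_lit 7462048) (nat_lit 424845) (nat_lit 35512321) (nat_lit 13365611) [(nat_lit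 424845), (nat_lit 1445622), (nat_lit 0), (nat_lit 8180205)]) (PF.cons (PF.leaf (nat_lit 7716783) (nat_lit 432482) (nat_lit 35195238) (nat_lit 13294290) [(nat_lit 432482), (nat_lit 1453372), (nat_lit 0), (nat_lit 8150473)]) (PF.cons (PF.leaf (nat_lit 7978305) (nat_lit 439177) (nat_lit 34872017) (nat_lit 13220617) [(nat_lit 439177), (nat_lit 1460213), (nat_lit 0), (nat_lit 8119216)]) (PF.cons PF.nil PF.nil))))) (PF.cons (PF.cons
 (PF.leaf (nat_lit 7834508) (nat_lit 1454535) (nat_lit 34786745) (nat_lit 13198398) [(nat_lit 0), (nat_lit 1454535), (nat_lit 0), (nat_lit 8107299)]) (PF.cons (PF.leaf (nat_lit 8090231) (nat_lit 438973) (nat_lit 34471564) (nat_lit 13125406) [(nat_lit 438973), (nat_lit 1460687), (nat_lit 0), (nat_lit 8075746)]) (PF.cons PF.nil (PF.cons PF.nil PF.nil)))) (PF.cons (PF.cons (PF.leaf (nat_lit 8460260) (nat_lit 1465426) (nat_lit 33761183) (nat_lit 12955051) [(nat_lit 0), (nat_lit 1465426), (nat_lit 0), (nat_lit 7998149)]) (PF.cons PF.nil PF.nil)) (PF.cons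 PF.nil PF.nil))))) (PF.cons (PF.cons (PF.cons (PF.leaf (nat_lit 7651316) (nat_lit 3220446) (nat_lit 34594597) (nat_lit 13143803) [(nat_lit 0), (nat_lit 0), (nat_lit 3220446), (nat_lit 8074983)]) (PF.cons (PF.leaf (nat_lit 7895420) (nat_lit 427559) (nat_lit 34296526) (nat_lit 13074499) [(nat_lit 427559), (nat_lit 0), (nat_lit 3220121), (nat_lit 8045052)]) (PF.cons (PF.leaf (nat_lit 8147854) (nat_lit 434549) (nat_lit 33991053) (nat_lit 13002620) [(nat_lit 434549), (nat_lit 0), (nat_lit 3218941), (nat_lit 8013549)]) (PF.cons PF.nil PF.nil)))) (PF.cons (PF.cons (PF.leaf (nat_lit 8259706) (nat_lit 1451222) (nat_lit 33601333) (nat_lit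
 12907212) [(nat_lit 0), (nat_lit 1451222), (nat_lit 3211262), (nat_lit 7968890)]) (PF.cons (PF.leaf (nat_lit 8512613) (nat_lit 439955) (nat_lit 33298450) (nat_lit 12834053) [(nat_lit 439955), (nat_lit 1456026), (nat_lit 3208569), (nat_lit 7935878)]) PF.nil)) (PF.cons PF.nil PF.nil))) (PF.cons (PF.cons (PF.cons (PF.leaf (nat_lit 8670339) (nat_lit 3179429) (nat_lit 32474043) (nat_lit 12619703) [(nat_lit 0), (nat_lit 0), (nat_lit 3179429), (nat_lit 7828102)]) (PF.cons PF.nil PF.nil)) (PF.cons PF.nil PF.nil)) (PF.cons PF.nil (PF.cons PF.nil PF.nil))))) (PF.cons (PF.cons (PF.cons (PF.cons (PF.leaf (nat_lit 8275221) (nat_lit 7675694) (nat_lit 31707715) (nat_lit 12374014) [(nat_lit 0), (nat_lit 0), (nat_lit 0), (nat_lit 7675694)]) (PF.cons (PF.leaf (nat_lit 8508841) (nat_lit 416436) (nat_lit 31447627) (nat_lit 12308385) [(nat_lit 416436), (nat_lit 0), (nat_lit 0), (nat_lit 7645454)]) (PF.cons (PF.leaf (nat_lit 8750232) (nat_lit 422801) (nat_lit 31181205) (nat_lit 12240505)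 [(nat_lit 422801), (nat_lit 0), (nat_lit 0), (nat_lit 7613832)]) (PF.cons PF.nil PF.nil)))) (PF.cons (PF.cons (PF.leaf (nat_lit 8852210) (nat_lit 1404329) (nat_lit 30843297) (nat_lit 12151338) [(nat_lit 0), (nat_lit
 1404329), (nat_lit 0), (nat_lit 7569949)]) (PF.cons PF.nil PF.nil)) (PF.cons PF.nil PF.nil))) (PF.cons (PF.cons (PF.cons (PF.leaf (nat_lit 9233279) (nat_lit 3053433) (nat_lit 29867932) (nat_lit 11885014) [(nat_lit 0), (nat_lit 0), (nat_lit 3053433), (nat_lit 7434144)]) (PF.cons PF.nil PF.nil)) (PF.cons PF.nil PF.nil)) (PF.cons PF.nil PF.nil))) (PF.cons (PF.cons (PF.cons (PF.cons (PF.leaf (nat_lit 9746662) (nat_lit 7067316) (nat_lit 27622255) (nat_lit 11217290) [(nat_lit 0), (nat_lit 0), (nat_lit 0), (nat_lit 7067316)]) (PF.cons PF.nil PF.nil)) (PF.cons PF.nil PF.nil)) (PF.cons PF.nil PF.nil)) (PF.cons PF.nil (PF.cons PF.nil (PF.cons PF.nil PF.nil))))))))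

def p15_20_2_0 : pfC (piC [(nat_lit 39120232), (nat_lit 25510466), (nat_lit 19038091), (nat_lit 12801343)] (nat_lit 6674796)) p15_20_2 (nat_lit 4) (nat_lit 0) (nat_lit 1) = true := by decide +kernel
def p15_20_2_1 : pfC (piC [(nat_lit 39120232), (nat_lit 25510466), (nat_lit 19038091), (nat_lit 12801343)] (nat_lit 6674796)) p15_20_2 (nat_lit 4) (nat_lit 1) (nat_lit 2) = true := by decide +kernel
def p15_20_2_2 : pfC (piC [(nat_lit 39120232), (nat_lit 25510466), (nat_lit 19038091), (nat_lit 12801343)] (nat_lit 6674796)) p15_20_2 (nat_lit 4) (nat_lit 2) (nat_lit 3) = true := by decide +kernel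
def p15_20_2_3 : pfC (piC [(nat_lit 39120232), (nat_lit 25510466), (nat_lit 19038091), (nat_lit 12801343)] (nat_lit 6674796)) p15_20_2 (nat_lit 4) (nat_lit 3) (nat_lit 4) = true := by decide +kernel
def p15_20_2_4 : pfC (piC [(nat_lit 39120232), (nat_lit 25510466), (nat_lit 19038091), (nat_lit 12801343)] (nat_lit 6674796)) p15_20_2 (nat_lit 4) (nat_lit 4) (nat_lit 5) = true := by decide +kernel
def p15_20_2_5 : pfC (piC [(nat_lit 39120232), (nat_lit 25510466), (nat_lit 19038091), (nat_lit 12801343)] (nat_lit 6674796)) p15_20_2 (nat_lit 4) (nat_lit 5) (nat_lit 6) = true := by decide +kernel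
def p15_20_2_6 : pfC (piC [(nat_lit 39120232), (nat_lit 25510466), (nat_lit 19038091), (nat_lit 12801343)] (nat_lit 6674796)) p15_20_2 (nat_lit 4) (nat_lit 6) (nat_lit 7) = true := by decide +kernel
def p15_20_2_7 : pfC (piC [(nat_lit 39120232), (nat_lit 25510466), (nat_lit 19038091), (nat_lit 12801343)] (nat_lit 6674796)) p15_20_2 (nat_lit 4) (nat_lit 7) (nat_lit 8) = true := by decide +kernel
def p15_20_2_8 : pfC (piC [(nat_lit 39120232), (nat_lit 25510466), (nat_lit 19038091), (nat_lit 12801343)] (nat_lit 6674796)) p15_20_2 (nat_lit 4) (nat_lit 8) (nat_lit 9) = true := by decide +kernel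
def p15_20_2_9 : pfC (piC [(nat_lit 39120232), (nat_lit 25510466), (nat_lit 19038091), (nat_lit 12801343)] (nat_lit 6674796)) p15_20_2 (nat_lit 4) (nat_lit 9) (nat_lit 10) = true := by decide +kernel
def p15_20_2_10 : pfC (piC [(nat_lit 39120232), (nat_lit 25510466), (nat_lit 19038091), (nat_lit 12801343)] (nat_lit 6674796)) p15_20_2 (nat_lit 4) (nat_lit 10) (nat_lit 11) = true := by decide +kernel
def p15_20_2_11 : pfC (piC [(nat_lit 39120232), (nat_lit 25510466), (nat_lit 19038091), (nat_lit 12801343)] (nat_lit 6674796)) p15_20_2 (nat_lit 4) (nat_lit 11) (nat_lit 12) = true := by decide +kernel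
def p15_20_2_12 : pfC (piC [(nat_lit 39120232), (nat_lit 25510466), (nat_lit 19038091), (nat_lit 12801343)] (nat_lit 6674796)) p15_20_2 (nat_lit 4) (nat_lit 12) (nat_lit 13) = true := by decide +kernel
def p15_20_2_13 : pfC (piC [(nat_lit 39120232), (nat_lit 25510466), (nat_lit 19038091), (nat_lit 12801343)] (nat_lit 6674796)) p15_20_2 (nat_lit 4) (nat_lit 13) (nat_lit 14) = true := by decide +kernel
def p15_20_2_14 : pfC (piC [(nat_lit 39120232), (nat_lit 25510466), (nat_lit 19038091), (nat_lit 12801343)] (nat_lit 6674796)) p15_20_2 (nat_lit 4) (nat_lit 14) (nat_lit 15) = true := by decide +kernel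
def p15_20_2_15 : pfC (piC [(nat_lit 39120232), (nat_lit 25510466), (nat_lit 19038091), (nat_lit 12801343)] (nat_lit 6674796)) p15_20_2 (nat_lit 4) (nat_lit 15) (nat_lit 16) = true := by decide +kernel
def p15_20_2_16 : pfC (piC [(nat_lit 39120232), (nat_lit 25510466), (nat_lit 19038091), (nat_lit 12801343)] (nat_lit 6674796)) p15_20_2 (nat_lit 4) (nat_lit 16) (nat_lit 17) = true := by decide +kernel
def p15_20_2_17 : pfC (piC [(nat_lit 39120232), (nat_lit 25510466), (nat_lit 19038091), (nat_lit 12801343)] (nat_lit 6674796)) p15_20_2 (nat_lit 4) (nat_lit 17) (nat_lit 18) = true := by decide +kernel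
def p15_20_2_18 : pfC (piC [(nat_lit 39120232), (nat_lit 25510466), (nat_lit 19038091), (nat_lit 12801343)] (nat_lit 6674796)) p15_20_2 (nat_lit 4) (nat_lit 18) (nat_lit 19) = true := by decide +kernel
def p15_20_2_19 : pfC (piC [(nat_lit 39120232), (nat_lit 25510466), (nat_lit 19038091), (nat_lit 12801343)] (nat_lit 6674796)) p15_20_2 (nat_lit 4) (nat_lit 19) (nat_lit 20) = true := by decide +kernel
def p15_20_2_20 : pfC (piC [(nat_lit 39120232), (nat_lit 25510466), (nat_lit 19038091), (nat_lit 12801343)] (nat_lit 6674796)) p15_20_2 (nat_lit 4) (nat_lit 20) (nat_lit 21) = true := by decide +kernel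
def p15_20_2_21 : pfC (piC [(nat_lit 39120232), (nat_lit 25510466), (nat_lit 19038091), (nat_lit 12801343)] (nat_lit 6674796)) p15_20_2 (nat_lit 4) (nat_lit 21) (nat_lit 22) = true := by decide +kernel
def p15_20_2_22 : pfC (piC [(nat_lit 39120232), (nat_lit 25510466), (nat_lit 19038091), (nat_lit 12801343)] (nat_lit 6674796)) p15_20_2 (nat_lit 4) (nat_lit 22) (nat_lit 23) = true := by decide +kernel
def p15_20_2_23 : pfC (piC [(nat_lit 39120232), (nat_lit 25510466), (nat_lit 19038091), (nat_lit 12801343)] (nat_lit 6674796)) p15_20_2 (nat_lit 4) (nat_lit 23) (nat_lit 24) = true := by decide +kernel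
def p15_20_2_24 : pfC (piC [(nat_lit 39120232), (nat_lit 25510466), (nat_lit 19038091), (nat_lit 12801343)] (nat_lit 6674796)) p15_20_2 (nat_lit 4) (nat_lit 24) (nat_lit 25) = true := by decide +kernel
def p15_20_2_25 : pfC (piC [(nat_lit 39120232), (nat_lit 25510466), (nat_lit 19038091), (nat_lit 12801343)] (nat_lit 6674796)) p15_20_2 (nat_lit 4) (nat_lit 25) (nat_lit 26) = true := by decide +kernel
def p15_20_2_26 : pfC (piC [(nat_lit 39120232), (nat_lit 25510466), (nat_lit 19038091), (nat_lit 12801343)] (nat_lit 6674796)) p15_20_2 (nat_lit 4) (nat_lit 26) (nat_lit 27) = true := by decide +kernel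
def p15_20_2_27 : pfC (piC [(nat_lit 39120232), (nat_lit 25510466), (nat_lit 19038091), (nat_lit 12801343)] (nat_lit 6674796)) p15_20_2 (nat_lit 4) (nat_lit 27) (nat_lit 28) = true := by decide +kernel
def p15_20_2_28 : pfC (piC [(nat_lit 39120232), (nat_lit 25510466), (nat_lit 19038091), (nat_lit 12801343)] (nat_lit 6674796)) p15_20_2 (nat_lit 4) (nat_lit 28) (nat_lit 29) = true := by decide +kernel
def p15_20_2_29 : pfC (piC [(nat_lit 39120232), (nat_lit 25510466), (nat_lit 19038091), (nat_lit 12801343)] (nat_lit 6674796)) p15_20_2 (nat_lit 4) (nat_lit 29) (nat_lit 30) = true := by decide +kernel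
def p15_20_2_30 : pfC (piC [(nat_lit 39120232), (nat_lit 25510466), (nat_lit 19038091), (nat_lit 12801343)] (nat_lit 6674796)) p15_20_2 (nat_lit 4) (nat_lit 30) (nat_lit 31) = true := by decide +kernel
def p15_20_2_31 : pfC (piC [(nat_lit 39120232), (nat_lit 25510466), (nat_lit 19038091), (nat_lit 12801343)] (nat_lit 6674796)) p15_20_2 (nat_lit 4) (nat_lit 31) (nat_lit 32) = true := by decide +kernel
def p15_20_2_32 : pfC (piC [(nat_lit 39120232), (nat_lit 25510466), (nat_lit 19038091), (nat_lit 12801343)] (nat_lit 6674796)) p15_20_2 (nat_lit 4) (nat_lit 32) (nat_lit 33) = true := by decide +kernel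
def p15_20_2_33 : pfC (piC [(nat_lit 39120232), (nat_lit 25510466), (nat_lit 19038091), (nat_lit 12801343)] (nat_lit 6674796)) p15_20_2 (nat_lit 4) (nat_lit 33) (nat_lit 34) = true := by decide +kernel
def p15_20_2_34 : pfC (piC [(nat_lit 39120232), (nat_lit 25510466), (nat_lit 19038091), (nat_lit 12801343)] (nat_lit 6674796)) p15_20_2 (nat_lit 4) (nat_lit 34) (nat_lit 35) = true := by decide +kernel
def p15_20_2_35 : pfC (piC [(nat_lit 39120232), (nat_lit 25510466), (nat_lit 19038091), (nat_lit 12801343)] (nat_lit 6674796)) p15_20_2 (nat_lit 4) (nat_lit 35) (nat_lit 36) = true := by decide +kernel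
def p15_20_2_36 : pfC (piC [(nat_lit 39120232), (nat_lit 25510466), (nat_lit 19038091), (nat_lit 12801343)] (nat_lit 6674796)) p15_20_2 (nat_lit 4) (nat_lit 36) (nat_lit 37) = true := by decide +kernel
def p15_20_2_37 : pfC (piC [(nat_lit 39120232), (nat_lit 25510466), (nat_lit 19038091), (nat_lit 12801343)] (nat_lit 6674796)) p15_20_2 (nat_lit 4) (nat_lit 37) (nat_lit 38) = true := by decide +kernel
def p15_20_2_38 : pfC (piC [(nat_lit 39120232), (nat_lit 25510466), (nat_lit 19038091), (nat_lit 12801343)] (nat_lit 6674796)) p15_20_2 (nat_lit 4) (nat_lit 38) (nat_lit 39) = true := by decide +kernel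
def p15_20_2_39 : pfC (piC [(nat_lit 39120232), (nat_lit 25510466), (nat_lit 19038091), (nat_lit 12801343)] (nat_lit 6674796)) p15_20_2 (nat_lit 4) (nat_lit 39) (nat_lit 40) = true := by decide +kernel
def p15_20_2_40 : pfC (piC [(nat_lit 39120232), (nat_lit 25510466), (nat_lit 19038091), (nat_lit 12801343)] (nat_lit 6674796)) p15_20_2 (nat_lit 4) (nat_lit 40) (nat_lit 41) = true := by decide +kernel
def p15_20_2_41 : pfC (piC [(nat_lit 39120232), (nat_lit 25510466), (nat_lit 19038091), (nat_lit 12801343)] (nat_lit 6674796)) p15_20_2 (nat_lit 4) (nat_lit 41) (nat_lit 42) = true := by decide +kernel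
def p15_20_2_42 : pfC (piC [(nat_lit 39120232), (nat_lit 25510466), (nat_lit 19038091), (nat_lit 12801343)] (nat_lit 6674796)) p15_20_2 (nat_lit 4) (nat_lit 42) (nat_lit 43) = true := by decide +kernel
def p15_20_2_43 : pfC (piC [(nat_lit 39120232), (nat_lit 25510466), (nat_lit 19038091), (nat_lit 12801343)] (nat_lit 6674796)) p15_20_2 (nat_lit 4) (nat_lit 43) (nat_lit 44) = true := by decide +kernel
def p15_20_2_44 : pfC (piC [(nat_lit 39120232), (nat_lit 25510466), (nat_lit 19038091), (nat_lit 12801343)] (nat_lit 6674796)) p15_20_2 (nat_lit 4) (nat_lit 44) (nat_lit 45) = true := by decide +kernel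
def p15_20_2_45 : pfC (piC [(nat_lit 39120232), (nat_lit 25510466), (nat_lit 19038091), (nat_lit 12801343)] (nat_lit 6674796)) p15_20_2 (nat_lit 4) (nat_lit 45) (nat_lit 46) = true := by decide +kernel
def p15_20_2_46 : pfC (piC [(nat_lit 39120232), (nat_lit 25510466), (nat_lit 19038091), (nat_lit 12801343)] (nat_lit 6674796)) p15_20_2 (nat_lit 4) (nat_lit 46) (nat_lit 47) = true := by decide +kernel
def p15_20_2_47 : pfC (piC [(nat_lit 39120232), (nat_lit 25510466), (nat_lit 19038091), (nat_lit 12801343)] (nat_lit 6674796)) p15_20_2 (nat_lit 4) (nat_lit 47) (nat_lit 48) = true := by decide +kernel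
def p15_20_2_48 : pfC (piC [(nat_lit 39120232), (nat_lit 25510466), (nat_lit 19038091), (nat_lit 12801343)] (nat_lit 6674796)) p15_20_2 (nat_lit 4) (nat_lit 48) (nat_lit 49) = true := by decide +kernel
def p15_20_2_49 : pfC (piC [(nat_lit 39120232), (nat_lit 25510466), (nat_lit 19038091), (nat_lit 12801343)] (nat_lit 6674796)) p15_20_2 (nat_lit 4) (nat_lit 49) (nat_lit 50) = true := by decide +kernel
def p15_20_2_50 : pfC (piC [(nat_lit 39120232), (nat_lit 25510466), (nat_lit 19038091), (nat_lit 12801343)] (nat_lit 6674796)) p15_20_2 (nat_lit 4) (nat_lit 50) (nat_lit 51) = true := by decide +kernel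
def p15_20_2_51 : pfC (piC [(nat_lit 39120232), (nat_lit 25510466), (nat_lit 19038091), (nat_lit 12801343)] (nat_lit 6674796)) p15_20_2 (nat_lit 4) (nat_lit 51) (nat_lit 52) = true := by decide +kernel
def p15_20_2_52 : pfC (piC [(nat_lit 39120232), (nat_lit 25510466), (nat_lit 19038091), (nat_lit 12801343)] (nat_lit 6674796)) p15_20_2 (nat_lit 4) (nat_lit 52) (nat_lit 53) = true := by decide +kernel
def p15_20_2_53 : pfC (piC [(nat_lit 39120232), (nat_lit 25510466), (nat_lit 19038091), (nat_lit 12801343)] (nat_lit 6674796)) p15_20_2 (nat_lit 4) (nat_lit 53) (nat_lit 54) = true := by decide +kernel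
def p15_20_2_54 : pfC (piC [(nat_lit 39120232), (nat_lit 25510466), (nat_lit 19038091), (nat_lit 12801343)] (nat_lit 6674796)) p15_20_2 (nat_lit 4) (nat_lit 54) (nat_lit 55) = true := by decide +kernel
def p15_20_2_55 : pfC (piC [(nat_lit 39120232), (nat_lit 25510466), (nat_lit 19038091), (nat_lit 12801343)] (nat_lit 6674796)) p15_20_2 (nat_lit 4) (nat_lit 55) (nat_lit 56) = true := by decide +kernel
def p15_20_2_56 : pfC (piC [(nat_lit 39120232), (nat_lit 25510466), (nat_lit 19038091), (nat_lit 12801343)] (nat_lit 6674796)) p15_20_2 (nat_lit 4) (nat_lit 56) (nat_lit 57) = true := by decide +kernel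
def p15_20_2_57 : pfC (piC [(nat_lit 39120232), (nat_lit 25510466), (nat_lit 19038091), (nat_lit 12801343)] (nat_lit 6674796)) p15_20_2 (nat_lit 4) (nat_lit 57) (nat_lit 58) = true := by decide +kernel
def p15_20_2_58 : pfC (piC [(nat_lit 39120232), (nat_lit 25510466), (nat_lit 19038091), (nat_lit 12801343)] (nat_lit 6674796)) p15_20_2 (nat_lit 4) (nat_lit 58) (nat_lit 59) = true := by decide +kernel
def p15_20_2_59 : pfC (piC [(nat_lit 39120232), (nat_lit 25510466), (nat_lit 19038091), (nat_lit 12801343)] (nat_lit 6674796)) p15_20_2 (nat_lit 4) (nat_lit 59) (nat_lit 60) = true := by decide +kernel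
def p15_20_2_60 : pfC (piC [(nat_lit 39120232), (nat_lit 25510466), (nat_lit 19038091), (nat_lit 12801343)] (nat_lit 6674796)) p15_20_2 (nat_lit 4) (nat_lit 60) (nat_lit 61) = true := by decide +kernel
def p15_20_2_61 : pfC (piC [(nat_lit 39120232), (nat_lit 25510466), (nat_lit 19038091), (nat_lit 12801343)] (nat_lit 6674796)) p15_20_2 (nat_lit 4) (nat_lit 61) (nat_lit 62) = true := by decide +kernel
def p15_20_2_62 : pfC (piC [(nat_lit 39120232), (nat_lit 25510466), (nat_lit 19038091), (nat_lit 12801343)] (nat_lit 6674796)) p15_20_2 (nat_lit 4) (nat_lit 62) (nat_lit 63) = true := by decide +kernel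
def p15_20_2_63 : pfC (piC [(nat_lit 39120232), (nat_lit 25510466), (nat_lit 19038091), (nat_lit 12801343)] (nat_lit 6674796)) p15_20_2 (nat_lit 4) (nat_lit 63) (nat_lit 64) = true := by decide +kernel
def p15_20_2_64 : pfC (piC [(nat_lit 39120232), (nat_lit 25510466), (nat_lit 19038091), (nat_lit 12801343)] (nat_lit 6674796)) p15_20_2 (nat_lit 4) (nat_lit 64) (nat_lit 65) = true := by decide +kernel
def p15_20_2_65 : pfC (piC [(nat_lit 39120232), (nat_lit 25510466), (nat_lit 19038091), (nat_lit 12801343)] (nat_lit 6674796)) p15_20_2 (nat_lit 4) (nat_lit 65) (nat_lit 66) = true := by decide +kernel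
def p15_20_2_66 : pfC (piC [(nat_lit 39120232), (nat_lit 25510466), (nat_lit 19038091), (nat_lit 12801343)] (nat_lit 6674796)) p15_20_2 (nat_lit 4) (nat_lit 66) (nat_lit 67) = true := by decide +kernel
def p15_20_2_67 : pfC (piC [(nat_lit 39120232), (nat_lit 25510466), (nat_lit 19038091), (nat_lit 12801343)] (nat_lit 6674796)) p15_20_2 (nat_lit 4) (nat_lit 67) (nat_lit 68) = true := by decide +kernel
def p15_20_2_68 : pfC (piC [(nat_lit 39120232), (nat_lit 25510466), (nat_lit 19038091), (nat_lit 12801343)] (nat_lit 6674796)) p15_20_2 (nat_lit 4) (nat_lit 68) (nat_lit 69) = true := by decide +kernel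
def p15_20_2_69 : pfC (piC [(nat_lit 39120232), (nat_lit 25510466), (nat_lit 19038091), (nat_lit 12801343)] (nat_lit 6674796)) p15_20_2 (nat_lit 4) (nat_lit 69) (nat_lit 70) = true := by decide +kernel
def p15_20_2_70 : pfC (piC [(nat_lit 39120232), (nat_lit 25510466), (nat_lit 19038091), (nat_lit 12801343)] (nat_lit 6674796)) p15_20_2 (nat_lit 4) (nat_lit 70) (nat_lit 71) = true := by decide +kernel
def p15_20_2_71 : pfC (piC [(nat_lit 39120232), (nat_lit 25510466), (nat_lit 19038091), (nat_lit 12801343)] (nat_lit 6674796)) p15_20_2 (nat_lit 4) (nat_lit 71) (nat_lit 72) = true := by decide +kernel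
def p15_20_2_72 : pfC (piC [(nat_lit 39120232), (nat_lit 25510466), (nat_lit 19038091), (nat_lit 12801343)] (nat_lit 6674796)) p15_20_2 (nat_lit 4) (nat_lit 72) (nat_lit 73) = true := by decide +kernel
def p15_20_2_73 : pfC (piC [(nat_lit 39120232), (nat_lit 25510466), (nat_lit 19038091), (nat_lit 12801343)] (nat_lit 6674796)) p15_20_2 (nat_lit 4) (nat_lit 73) (nat_lit 74) = true := by decide +kernel
def p15_20_2_74 : pfC (piC [(nat_lit 39120232), (nat_lit 25510466), (nat_lit 19038091), (nat_lit 12801343)] (nat_lit 6674796)) p15_20_2 (nat_lit 4) (nat_lit 74) (nat_lit 75) = true := by decide +kernel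
def p15_20_2_75 : pfC (piC [(nat_lit 39120232), (nat_lit 25510466), (nat_lit 19038091), (nat_lit 12801343)] (nat_lit 6674796)) p15_20_2 (nat_lit 4) (nat_lit 75) (nat_lit 76) = true := by decide +kernel
def p15_20_2_76 : pfC (piC [(nat_lit 39120232), (nat_lit 25510466), (nat_lit 19038091), (nat_lit 12801343)] (nat_lit 6674796)) p15_20_2 (nat_lit 4) (nat_lit 76) (nat_lit 77) = true := by decide +kernel
def p15_20_2_77 : pfC (piC [(nat_lit 39120232), (nat_lit 25510466), (nat_lit 19038091), (nat_lit 12801343)] (nat_lit 6674796)) p15_20_2 (nat_lit 4) (nat_lit 77) (nat_lit 78) = true := by decide +kernel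
def p15_20_2_78 : pfC (piC [(nat_lit 39120232), (nat_lit 25510466), (nat_lit 19038091), (nat_lit 12801343)] (nat_lit 6674796)) p15_20_2 (nat_lit 4) (nat_lit 78) (nat_lit 79) = true := by decide +kernel
def p15_20_2_79 : pfC (piC [(nat_lit 39120232), (nat_lit 25510466), (nat_lit 19038091), (nat_lit 12801343)] (nat_lit 6674796)) p15_20_2 (nat_lit 4) (nat_lit 79) (nat_lit 80) = true := by decide +kernel
def p15_20_2_80 : pfC (piC [(nat_lit 39120232), (nat_lit 25510466), (nat_lit 19038091), (nat_lit 12801343)] (nat_lit 6674796)) p15_20_2 (nat_lit 4) (nat_lit 80) (nat_lit 81) = true := by decide +kernel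
def p15_20_2_81 : pfC (piC [(nat_lit 39120232), (nat_lit 25510466), (nat_lit 19038091), (nat_lit 12801343)] (nat_lit 6674796)) p15_20_2 (nat_lit 4) (nat_lit 81) (nat_lit 82) = true := by decide +kernel
def p15_20_2_82 : pfC (piC [(nat_lit 39120232), (nat_lit 25510466), (nat_lit 19038091), (nat_lit 12801343)] (nat_lit 6674796)) p15_20_2 (nat_lit 4) (nat_lit 82) (nat_lit 83) = true := by decide +kernel
def p15_20_2_83 : pfC (piC [(nat_lit 39120232), (nat_lit 25510466), (nat_lit 19038091), (nat_lit 12801343)] (nat_lit 6674796)) p15_20_2 (nat_lit 4) (nat_lit 83) (nat_lit 84) = true := by decide +kernel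
def p15_20_2_84 : pfC (piC [(nat_lit 39120232), (nat_lit 25510466), (nat_lit 19038091), (nat_lit 12801343)] (nat_lit 6674796)) p15_20_2 (nat_lit 4) (nat_lit 84) (nat_lit 85) = true := by decide +kernel
def p15_20_2_85 : pfC (piC [(nat_lit 39120232), (nat_lit 25510466), (nat_lit 19038091), (nat_lit 12801343)] (nat_lit 6674796)) p15_20_2 (nat_lit 4) (nat_lit 85) (nat_lit 86) = true := by decide +kernel
def p15_20_2_86 : pfC (piC [(nat_lit 39120232), (nat_lit 25510466), (nat_lit 19038091), (nat_lit 12801343)] (nat_lit 6674796)) p15_20_2 (nat_lit 4) (nat_lit 86) (nat_lit 87) = true := by decide +kernel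
def p15_20_2_87 : pfC (piC [(nat_lit 39120232), (nat_lit 25510466), (nat_lit 19038091), (nat_lit 12801343)] (nat_lit 6674796)) p15_20_2 (nat_lit 4) (nat_lit 87) (nat_lit 88) = true := by decide +kernel
def p15_20_2_88 : pfC (piC [(nat_lit 39120232), (nat_lit 25510466), (nat_lit 19038091), (nat_lit 12801343)] (nat_lit 6674796)) p15_20_2 (nat_lit 4) (nat_lit 88) (nat_lit 89) = true := by decide +kernel
def p15_20_2_89 : pfC (piC [(nat_lit 39120232), (nat_lit 25510466), (nat_lit 19038091), (nat_lit 12801343)] (nat_lit 6674796)) p15_20_2 (nat_lit 4) (nat_lit 89) (nat_lit 90) = true := by decide +kernel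
def p15_20_2_90 : pfC (piC [(nat_lit 39120232), (nat_lit 25510466), (nat_lit 19038091), (nat_lit 12801343)] (nat_lit 6674796)) p15_20_2 (nat_lit 4) (nat_lit 90) (nat_lit 91) = true := by decide +kernel
def p15_20_2_91 : pfC (piC [(nat_lit 39120232), (nat_lit 25510466), (nat_lit 19038091), (nat_lit 12801343)] (nat_lit 6674796)) p15_20_2 (nat_lit 4) (nat_lit 91) (nat_lit 92) = true := by decide +kernel
def p15_20_2_92 : pfC (piC [(nat_lit 39120232), (nat_lit 25510466), (nat_lit 19038091), (nat_lit 12801343)] (nat_lit 6674796)) p15_20_2 (nat_lit 4) (nat_lit 92) (nat_lit 93) = true := by decide +kernel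
def p15_20_2_93 : pfC (piC [(nat_lit 39120232), (nat_lit 25510466), (nat_lit 19038091), (nat_lit 12801343)] (nat_lit 6674796)) p15_20_2 (nat_lit 4) (nat_lit 93) (nat_lit 94) = true := by decide +kernel
def p15_20_2_94 : pfC (piC [(nat_lit 39120232), (nat_lit 25510466), (nat_lit 19038091), (nat_lit 12801343)] (nat_lit 6674796)) p15_20_2 (nat_lit 4) (nat_lit 94) (nat_lit 95) = true := by decide +kernel
def p15_20_2_95 : pfC (piC [(nat_lit 39120232), (nat_lit 25510466), (nat_lit 19038091), (nat_lit 12801343)] (nat_lit 6674796)) p15_20_2 (nat_lit 4) (nat_lit 95) (nat_lit 96) = true := by decide +kernel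
def p15_20_2_96 : pfC (piC [(nat_lit 39120232), (nat_lit 25510466), (nat_lit 19038091), (nat_lit 12801343)] (nat_lit 6674796)) p15_20_2 (nat_lit 4) (nat_lit 96) (nat_lit 97) = true := by decide +kernel
def p15_20_2_97 : pfC (piC [(nat_lit 39120232), (nat_lit 25510466), (nat_lit 19038091), (nat_lit 12801343)] (nat_lit 6674796)) p15_20_2 (nat_lit 4) (nat_lit 97) (nat_lit 98) = true := by decide +kernel
def p15_20_2_98 : pfC (piC [(nat_lit 39120232), (nat_lit 25510466), (nat_lit 19038091), (nat_lit 12801343)] (nat_lit 6674796)) p15_20_2 (nat_lit 4) (nat_lit 98) (nat_lit 99) = true := by decide +kernel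
def p15_20_2_99 : pfC (piC [(nat_lit 39120232), (nat_lit 25510466), (nat_lit 19038091), (nat_lit 12801343)] (nat_lit 6674796)) p15_20_2 (nat_lit 4) (nat_lit 99) (nat_lit 100) = true := by decide +kernel
def p15_20_2_100 : pfC (piC [(nat_lit 39120232), (nat_lit 25510466), (nat_lit 19038091), (nat_lit 12801343)] (nat_lit 6674796)) p15_20_2 (nat_lit 4) (nat_lit 100) (nat_lit 101) = true := by decide +kernel
def p15_20_2_101 : pfC (piC [(nat_lit 39120232), (nat_lit 25510466), (nat_lit 19038091), (nat_lit 12801343)] (nat_lit 6674796)) p15_20_2 (nat_lit 4) (nat_lit 101) (nat_lit 102) = true := by decide +kernel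
def p15_20_2_102 : pfC (piC [(nat_lit 39120232), (nat_lit 25510466), (nat_lit 19038091), (nat_lit 12801343)] (nat_lit 6674796)) p15_20_2 (nat_lit 4) (nat_lit 102) (nat_lit 103) = true := by decide +kernel
def p15_20_2_103 : pfC (piC [(nat_lit 39120232), (nat_lit 25510466), (nat_lit 19038091), (nat_lit 12801343)] (nat_lit 6674796)) p15_20_2 (nat_lit 4) (nat_lit 103) (nat_lit 104) = true := by decide +kernel
def p15_20_2_104 : pfC (piC [(nat_lit 39120232), (nat_lit 25510466), (nat_lit 19038091), (nat_lit 12801343)] (nat_lit 6674796)) p15_20_2 (nat_lit 4) (nat_lit 104) (nat_lit 105) = true := by decide +kernel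
def p15_20_2_105 : pfC (piC [(nat_lit 39120232), (nat_lit 25510466), (nat_lit 19038091), (nat_lit 12801343)] (nat_lit 6674796)) p15_20_2 (nat_lit 4) (nat_lit 105) (nat_lit 106) = true := by decide +kernel
def p15_20_2_106 : pfC (piC [(nat_lit 39120232), (nat_lit 25510466), (nat_lit 19038091), (nat_lit 12801343)] (nat_lit 6674796)) p15_20_2 (nat_lit 4) (nat_lit 106) (nat_lit 107) = true := by decide +kernel
def p15_20_2_107 : pfC (piC [(nat_lit 39120232), (nat_lit 25510466), (nat_lit 19038091), (nat_lit 12801343)] (nat_lit 6674796)) p15_20_2 (nat_lit 4) (nat_lit 107) (nat_lit 108) = true := by decide +kernel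
def p15_20_2_108 : pfC (piC [(nat_lit 39120232), (nat_lit 25510466), (nat_lit 19038091), (nat_lit 12801343)] (nat_lit 6674796)) p15_20_2 (nat_lit 4) (nat_lit 108) (nat_lit 109) = true := by decide +kernel
def p15_20_2_109 : pfC (piC [(nat_lit 39120232), (nat_lit 25510466), (nat_lit 19038091), (nat_lit 12801343)] (nat_lit 6674796)) p15_20_2 (nat_lit 4) (nat_lit 109) (nat_lit 110) = true := by decide +kernel
def p15_20_2_110 : pfC (piC [(nat_lit 39120232), (nat_lit 25510466), (nat_lit 19038091), (nat_lit 12801343)] (nat_lit 6674796)) p15_20_2 (nat_lit 4) (nat_lit 110) (nat_lit 111) = true := by decide +kernel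
def p15_20_2_111 : pfC (piC [(nat_lit 39120232), (nat_lit 25510466), (nat_lit 19038091), (nat_lit 12801343)] (nat_lit 6674796)) p15_20_2 (nat_lit 4) (nat_lit 111) (nat_lit 112) = true := by decide +kernel
def p15_20_2_112 : pfC (piC [(nat_lit 39120232), (nat_lit 25510466), (nat_lit 19038091), (nat_lit 12801343)] (nat_lit 6674796)) p15_20_2 (nat_lit 4) (nat_lit 112) (nat_lit 113) = true := by decide +kernel
def p15_20_2_113 : pfC (piC [(nat_lit 39120232), (nat_lit 25510466), (nat_lit 19038091), (nat_lit 12801343)] (nat_lit 6674796)) p15_20_2 (nat_lit 4) (nat_lit 113) (nat_lit 114) = true := by decide +kernel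
def p15_20_2_114 : pfC (piC [(nat_lit 39120232), (nat_lit 25510466), (nat_lit 19038091), (nat_lit 12801343)] (nat_lit 6674796)) p15_20_2 (nat_lit 4) (nat_lit 114) (nat_lit 115) = true := by decide +kernel
def p15_20_2_115 : pfC (piC [(nat_lit 39120232), (nat_lit 25510466), (nat_lit 19038091), (nat_lit 12801343)] (nat_lit 6674796)) p15_20_2 (nat_lit 4) (nat_lit 115) (nat_lit 116) = true := by decide +kernel
def p15_20_2_116 : pfC (piC [(nat_lit 39120232), (nat_lit 25510466), (nat_lit 19038091), (nat_lit 12801343)] (nat_lit 6674796)) p15_20_2 (nat_lit 4) (nat_lit 116) (nat_lit 117) = true := by decide +kernel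
def p15_20_2_117 : pfC (piC [(nat_lit 39120232), (nat_lit 25510466), (nat_lit 19038091), (nat_lit 12801343)] (nat_lit 6674796)) p15_20_2 (nat_lit 4) (nat_lit 117) (nat_lit 118) = true := by decide +kernel
def p15_20_2_118 : pfC (piC [(nat_lit 39120232), (nat_lit 25510466), (nat_lit 19038091), (nat_lit 12801343)] (nat_lit 6674796)) p15_20_2 (nat_lit 4) (nat_lit 118) (nat_lit 119) = true := by decide +kernel
def p15_20_2_119 : pfC (piC [(nat_lit 39120232), (nat_lit 25510466), (nat_lit 19038091), (nat_lit 12801343)] (nat_lit 6674796)) p15_20_2 (nat_lit 4) (nat_lit 119) (nat_lit 120) = true := by decide +kernel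
def p15_20_2_120 : pfC (piC [(nat_lit 39120232), (nat_lit 25510466), (nat_lit 19038091), (nat_lit 12801343)] (nat_lit 6674796)) p15_20_2 (nat_lit 4) (nat_lit 120) (nat_lit 121) = true := by decide +kernel
def p15_20_2_121 : pfC (piC [(nat_lit 39120232), (nat_lit 25510466), (nat_lit 19038091), (nat_lit 12801343)] (nat_lit 6674796)) p15_20_2 (nat_lit 4) (nat_lit 121) (nat_lit 122) = true := by decide +kernel
def p15_20_2_122 : pfC (piC [(nat_lit 39120232), (nat_lit 25510466), (nat_lit 19038091), (nat_lit 12801343)] (nat_lit 6674796)) p15_20_2 (nat_lit 4) (nat_lit 122) (nat_lit 123) = true := by decide +kernel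
def p15_20_2_123 : pfC (piC [(nat_lit 39120232), (nat_lit 25510466), (nat_lit 19038091), (nat_lit 12801343)] (nat_lit 6674796)) p15_20_2 (nat_lit 4) (nat_lit 123) (nat_lit 124) = true := by decide +kernel
def p15_20_2_124 : pfC (piC [(nat_lit 39120232), (nat_lit 25510466), (nat_lit 19038091), (nat_lit 12801343)] (nat_lit 6674796)) p15_20_2 (nat_lit 4) (nat_lit 124) (nat_lit 125) = true := by decide +kernel
def p15_20_2_125 : pfC (piC [(nat_lit 39120232), (nat_lit 25510466), (nat_lit 19038091), (nat_lit 12801343)] (nat_lit 6674796)) p15_20_2 (nat_lit 4) (nat_lit 125) (nat_lit 126) = true := by decide +kernel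
def p15_20_2_126 : pfC (piC [(nat_lit 39120232), (nat_lit 25510466), (nat_lit 19038091), (nat_lit 12801343)] (nat_lit 6674796)) p15_20_2 (nat_lit 4) (nat_lit 126) (nat_lit 127) = true := by decide +kernel
def p15_20_2_127 : pfC (piC [(nat_lit 39120232), (nat_lit 25510466), (nat_lit 19038091), (nat_lit 12801343)] (nat_lit 6674796)) p15_20_2 (nat_lit 4) (nat_lit 127) (nat_lit 128) = true := by decide +kernel
def p15_20_2_128 : pfC (piC [(nat_lit 39120232), (nat_lit 25510466), (nat_lit 19038091), (nat_lit 12801343)] (nat_lit 6674796)) p15_20_2 (nat_lit 4) (nat_lit 128) (nat_lit 129) = true := by decide +kernel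
def p15_20_2_129 : pfC (piC [(nat_lit 39120232), (nat_lit 25510466), (nat_lit 19038091), (nat_lit 12801343)] (nat_lit 6674796)) p15_20_2 (nat_lit 4) (nat_lit 129) (nat_lit 130) = true := by decide +kernel
def p15_20_2_130 : pfC (piC [(nat_lit 39120232), (nat_lit 25510466), (nat_lit 19038091), (nat_lit 12801343)] (nat_lit 6674796)) p15_20_2 (nat_lit 4) (nat_lit 130) (nat_lit 131) = true := by decide +kernel
def p15_20_2_131 : pfC (piC [(nat_lit 39120232), (nat_lit 25510466), (nat_lit 19038091), (nat_lit 12801343)] (nat_lit 6674796)) p15_20_2 (nat_lit 4) (nat_lit 131) (nat_lit 132) = true := by decide +kernel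
def p15_20_2_132 : pfC (piC [(nat_lit 39120232), (nat_lit 25510466), (nat_lit 19038091), (nat_lit 12801343)] (nat_lit 6674796)) p15_20_2 (nat_lit 4) (nat_lit 132) (nat_lit 133) = true := by decide +kernel
def p15_20_2_133 : pfC (piC [(nat_lit 39120232), (nat_lit 25510466), (nat_lit 19038091), (nat_lit 12801343)] (nat_lit 6674796)) p15_20_2 (nat_lit 4) (nat_lit 133) (nat_lit 134) = true := by decide +kernel
def p15_20_2_134 : pfC (piC [(nat_lit 39120232), (nat_lit 25510466), (nat_lit 19038091), (nat_lit 12801343)] (nat_lit 6674796)) p15_20_2 (nat_lit 4) (nat_lit 134) (nat_lit 135) = true := by decide +kernel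
def p15_20_2_135 : pfC (piC [(nat_lit 39120232), (nat_lit 25510466), (nat_lit 19038091), (nat_lit 12801343)] (nat_lit 6674796)) p15_20_2 (nat_lit 4) (nat_lit 135) (nat_lit 136) = true := by decide +kernel
def p15_20_2_136 : pfC (piC [(nat_lit 39120232), (nat_lit 25510466), (nat_lit 19038091), (nat_lit 12801343)] (nat_lit 6674796)) p15_20_2 (nat_lit 4) (nat_lit 136) (nat_lit 137) = true := by decide +kernel
def p15_20_2_137 : pfC (piC [(nat_lit 39120232), (nat_lit 25510466), (nat_lit 19038091), (nat_lit 12801343)] (nat_lit 6674796)) p15_20_2 (nat_lit 4) (nat_lit 137) (nat_lit 138) = true := by decide +kernel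
def p15_20_2_138 : pfC (piC [(nat_lit 39120232), (nat_lit 25510466), (nat_lit 19038091), (nat_lit 12801343)] (nat_lit 6674796)) p15_20_2 (nat_lit 4) (nat_lit 138) (nat_lit 139) = true := by decide +kernel
def p15_20_2_139 : pfC (piC [(nat_lit 39120232), (nat_lit 25510466), (nat_lit 19038091), (nat_lit 12801343)] (nat_lit 6674796)) p15_20_2 (nat_lit 4) (nat_lit 139) (nat_lit 140) = true := by decide +kernel
def p15_20_2_140 : pfC (piC [(nat_lit 39120232), (nat_lit 25510466), (nat_lit 19038091), (nat_lit 12801343)] (nat_lit 6674796)) p15_20_2 (nat_lit 4) (nat_lit 140) (nat_lit 141) = true := by decide +kernel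
def p15_20_2_141 : pfC (piC [(nat_lit 39120232), (nat_lit 25510466), (nat_lit 19038091), (nat_lit 12801343)] (nat_lit 6674796)) p15_20_2 (nat_lit 4) (nat_lit 141) (nat_lit 142) = true := by decide +kernel
def p15_20_2_142 : pfC (piC [(nat_lit 39120232), (nat_lit 25510466), (nat_lit 19038091), (nat_lit 12801343)] (nat_lit 6674796)) p15_20_2 (nat_lit 4) (nat_lit 142) (nat_lit 143) = true := by decide +kernel
def p15_20_2_143 : pfC (piC [(nat_lit 39120232), (nat_lit 25510466), (nat_lit 19038091), (nat_lit 12801343)] (nat_lit 6674796)) p15_20_2 (nat_lit 4) (nat_lit 143) (nat_lit 144) = true := by decide +kernel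
def p15_20_2_144 : pfC (piC [(nat_lit 39120232), (nat_lit 25510466), (nat_lit 19038091), (nat_lit 12801343)] (nat_lit 6674796)) p15_20_2 (nat_lit 4) (nat_lit 144) (nat_lit 145) = true := by decide +kernel
def p15_20_2_145 : pfC (piC [(nat_lit 39120232), (nat_lit 25510466), (nat_lit 19038091), (nat_lit 12801343)] (nat_lit 6674796)) p15_20_2 (nat_lit 4) (nat_lit 145) (nat_lit 146) = true := by decide +kernel
def p15_20_2_146 : pfC (piC [(nat_lit 39120232), (nat_lit 25510466), (nat_lit 19038091), (nat_lit 12801343)] (nat_lit 6674796)) p15_20_2 (nat_lit 4) (nat_lit 146) (nat_lit 147) = true := by decide +kernel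
def p15_20_2_147 : pfC (piC [(nat_lit 39120232), (nat_lit 25510466), (nat_lit 19038091), (nat_lit 12801343)] (nat_lit 6674796)) p15_20_2 (nat_lit 4) (nat_lit 147) (nat_lit 148) = true := by decide +kernel
theorem p15_20_2_T : PfS (PiF n15_20.reverse (nat_lit 6674796)) p15_20_2 (nat_lit 4) [] 0 :=
  pftab_of (los := [(nat_lit 39120232), (nat_lit 25510466), (nat_lit 19038091), (nat_lit 12801343)]) (by decide +kernel) (hi := (nat_lit 148)) (PfP.trans (PfP.trans (PfP.trans (PfP.trans (PfP.trans (PfP.trans (PfP.trans (PfP.trans (PfP.trans (PfP.trans (PfP.trans (PfP.trans (PfP.trans (PfP.trans (PfP.trans (PfP.trans (PfP.trans (PfP.trans (PfP.trans (PfP.trans (PfP.trans (PfP.trans (PfP.trans (PfP.trans (PfP.trans (PfP.trans (PfP.trans (PfP.trans (PfP.trans (PfP.trans (PfP.trans (PfP.trans (PfP.trans (PfP.trans (PfP.trans (PfP.trans (PfP.trans (PfP.trans (PfP.trans (PfP.trans (PfP.trans (PfP.trans (PfP.trans (PfP.trans (PfP.trans (PfP.trans (PfP.trans (PfP.trans (PfP.trans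 (PfP.trans (PfP.trans (PfP.trans (PfP.trans (PfP.trans (PfP.trans (PfP.trans (PfP.trans (PfP.trans (PfP.trans (PfP.trans (PfP.trans (PfP.trans (PfP.trans (PfP.trans (PfP.trans (PfP.trans (PfP.trans (PfP.trans (PfP.trans (PfP.trans (PfP.trans (PfP.trans (PfP.trans (PfP.trans (PfP.trans (PfP.trans (PfP.trans (PfP.trans (PfP.trans (PfP.trans (PfP.trans (PfP.trans (PfP.trans (PfP.trans (PfP.trans (PfP.trans (PfP.trans (PfP.trans (PfP.trans (PfP.trans (PfP.trans (PfP.trans (PfP.trans (PfP.trans (PfP.trans (PfP.trans (PfP.trans (PfP.trans (PfP.trans (PfP.trans (PfP.trans (PfP.trans (PfP.trans (PfP.trans (PfP.trans (PfP.trans (PfP.trans (PfP.trans (PfP.trans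
 (PfP.trans (PfP.trans (PfP.trans (PfP.trans (PfP.trans (PfP.trans (PfP.trans (PfP.trans (PfP.trans (PfP.trans (PfP.trans (PfP.trans (PfP.trans (PfP.trans (PfP.trans (PfP.trans (PfP.trans (PfP.trans (PfP.trans (PfP.trans (PfP.trans (PfP.trans (PfP.trans (PfP.trans (PfP.trans (PfP.trans (PfP.trans (PfP.trans (PfP.trans (PfP.trans (PfP.trans (PfP.trans (PfP.trans (PfP.trans (PfP.trans (PfP.trans (PfP.trans (PfP.trans (pfC_sound p15_20_2_0) (pfC_sound p15_20_2_1)) (pfC_sound p15_20_2_2)) (pfC_sound p15_20_2_3)) (pfC_sound p15_20_2_4)) (pfC_sound p15_20_2_5)) (pfC_sound p15_20_2_6)) (pfC_sound p15_20_2_7)) (pfC_sound p15_20_2_8)) (pfC_sound p15_20_2_9)) (pfC_sound p15_20_2_10)) (pfC_sound p15_20_2_11)) (pfC_sound p15_20_2_12)) (pfC_sound p15_20_2_13)) (pfC_sound p15_20_2_14)) (pfC_sound p15_20_2_15)) (pfC_sound p15_20_2_16)) (pfC_sound p15_20_2_17)) (pfC_sound p15_20_2_18)) (pfC_sound p15_20_2_19)) (pfC_sound p15_20_2_20)) (pfC_sound p15_20_2_21)) (pfC_sound p15_20_2_22))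 (pfC_sound p15_20_2_23)) (pfC_sound p15_20_2_24)) (pfC_sound p15_20_2_25)) (pfC_sound p15_20_2_26)) (pfC_sound p15_20_2_27)) (pfC_sound p15_20_2_28)) (pfC_sound p15_20_2_29)) (pfC_sound p15_20_2_30)) (pfC_sound
 p15_20_2_31)) (pfC_sound p15_20_2_32)) (pfC_sound p15_20_2_33)) (pfC_sound p15_20_2_34)) (pfC_sound p15_20_2_35)) (pfC_sound p15_20_2_36)) (pfC_sound p15_20_2_37)) (pfC_sound p15_20_2_38)) (pfC_sound p15_20_2_39)) (pfC_sound p15_20_2_40)) (pfC_sound p15_20_2_41)) (pfC_sound p15_20_2_42)) (pfC_sound p15_20_2_43)) (pfC_sound p15_20_2_44)) (pfC_sound p15_20_2_45)) (pfC_sound p15_20_2_46)) (pfC_sound p15_20_2_47)) (pfC_sound p15_20_2_48)) (pfC_sound p15_20_2_49)) (pfC_sound p15_20_2_50)) (pfC_sound p15_20_2_51)) (pfC_sound p15_20_2_52)) (pfC_sound p15_20_2_53)) (pfC_sound p15_20_2_54)) (pfC_sound p15_20_2_55)) (pfC_sound p15_20_2_56)) (pfC_sound p15_20_2_57)) (pfC_sound p15_20_2_58)) (pfC_sound p15_20_2_59)) (pfC_sound p15_20_2_60)) (pfC_sound p15_20_2_61)) (pfC_sound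 p15_20_2_62)) (pfC_sound p15_20_2_63)) (pfC_sound p15_20_2_64)) (pfC_sound p15_20_2_65)) (pfC_sound p15_20_2_66)) (pfC_sound p15_20_2_67)) (pfC_sound p15_20_2_68)) (pfC_sound p15_20_2_69)) (pfC_sound p15_20_2_70)) (pfC_sound p15_20_2_71)) (pfC_sound p15_20_2_72)) (pfC_sound p15_20_2_73)) (pfC_sound p15_20_2_74)) (pfC_sound p15_20_2_75)) (pfC_sound p15_20_2_76)) (pfC_sound p15_20_2_77)) (pfC_sound p15_20_2_78)) (pfC_sound
 p15_20_2_79)) (pfC_sound p15_20_2_80)) (pfC_sound p15_20_2_81)) (pfC_sound p15_20_2_82)) (pfC_sound p15_20_2_83)) (pfC_sound p15_20_2_84)) (pfC_sound p15_20_2_85)) (pfC_sound p15_20_2_86)) (pfC_sound p15_20_2_87)) (pfC_sound p15_20_2_88)) (pfC_sound p15_20_2_89)) (pfC_sound p15_20_2_90)) (pfC_sound p15_20_2_91)) (pfC_sound p15_20_2_92)) (pfC_sound p15_20_2_93)) (pfC_sound p15_20_2_94)) (pfC_sound p15_20_2_95)) (pfC_sound p15_20_2_96)) (pfC_sound p15_20_2_97)) (pfC_sound p15_20_2_98)) (pfC_sound p15_20_2_99)) (pfC_sound p15_20_2_100)) (pfC_sound p15_20_2_101))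 (pfC_sound p15_20_2_102)) (pfC_sound p15_20_2_103)) (pfC_sound p15_20_2_104)) (pfC_sound p15_20_2_105)) (pfC_sound p15_20_2_106)) (pfC_sound p15_20_2_107)) (pfC_sound p15_20_2_108)) (pfC_sound p15_20_2_109)) (pfC_sound p15_20_2_110)) (pfC_sound p15_20_2_111)) (pfC_sound p15_20_2_112)) (pfC_sound p15_20_2_113)) (pfC_sound p15_20_2_114)) (pfC_sound p15_20_2_115)) (pfC_sound p15_20_2_116)) (pfC_sound p15_20_2_117)) (pfC_sound p15_20_2_118)) (pfC_sound p15_20_2_119)) (pfC_sound p15_20_2_120)) (pfC_sound p15_20_2_121)) (pfC_sound p15_20_2_122)) (pfC_sound p15_20_2_123)) (pfC_sound p15_20_2_124)) (pfC_sound p15_20_2_125))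
 (pfC_sound p15_20_2_126)) (pfC_sound p15_20_2_127)) (pfC_sound p15_20_2_128)) (pfC_sound p15_20_2_129)) (pfC_sound p15_20_2_130)) (pfC_sound p15_20_2_131)) (pfC_sound p15_20_2_132)) (pfC_sound p15_20_2_133)) (pfC_sound p15_20_2_134)) (pfC_sound p15_20_2_135)) (pfC_sound p15_20_2_136)) (pfC_sound p15_20_2_137)) (pfC_sound p15_20_2_138)) (pfC_sound p15_20_2_139)) (pfC_sound p15_20_2_140)) (pfC_sound p15_20_2_141)) (pfC_sound p15_20_2_142)) (pfC_sound p15_20_2_143)) (pfC_sound p15_20_2_144)) (pfC_sound p15_20_2_145)) (pfC_sound p15_20_2_146)) (pfC_sound p15_20_2_147)) (by decide +kernel)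

def z15_20_2 : zOK yB15_20 (nat_lit 2) (nat_lit 600) (nat_lit 750) (nat_lit 6674796) (nat_lit 4861332) = true := by decide +kernel
def g15_20_2 : gOK yB15_20.x P15_20 (nat_lit 1424) (q15_20 :: r15_20) (nat_lit 2) (nat_lit 600) (nat_lit 3) (nat_lit 750) (nat_lit 12712500) (nat_lit 12712500) (nat_lit 12712500) (nat_lit 12712500) [(nat_lit 800), (nat_lit 1600)] = true := by decide +kernel
def v15_20_2 : ivC P15_20 s15_20 w15_20 n15_20 (nat_lit 4) (nat_lit 4805) (nat_lit 2) (nat_lit 600) f152_1_600 f160_1_600 (nat_lit 3) (nat_lit 750) f152_1_750 f160_1_750 (nat_lit 6674796) (nat_lit 4861332) p15_20_2 = true := by decide +kernel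
def p15_20_3 : PF := (PF.cons (PF.cons (PF.cons (PF.cons (PF.leaf (nat_lit 3037624) (nat_lit 19871041) (nat_lit 47237771) (nat_lit 19871041) [(nat_lit 0), (nat_lit 0), (nat_lit 0), (nat_lit 0)]) (PF.cons (PF.leaf (nat_lit 3192258) (nat_lit 273255) (nat_lit 47008762) (nat_lit 19826794) [(nat_lit 273255), (nat_lit 0), (nat_lit 0), (nat_lit 0)]) (PF.cons (PF.leaf (nat_lit 3375151) (nat_lit 296684) (nat_lit 46741262) (nat_lit 19774181) [(nat_lit 296684), (nat_lit 0), (nat_lit 0), (nat_lit 0)]) (PF.cons (PF.leaf (nat_lit 3580024) (nat_lit 317319) (nat_lit 46442578) (nat_lit 19714275) [(nat_lit 317319), (nat_lit 0), (nat_lit 0), (nat_lit 0)]) (PF.cons (PF.leaf (nat_lit 3803612) (nat_lit 335779) (nat_lit 46117897) (nat_lit 19647799) [(nat_lit 335779), (nat_lit 0), (nat_lit 0), (nat_lit 0)]) (PF.cons (PF.leaf (nat_lit 4043419) (nat_lit 352461) (nat_lit 45771221) (nat_lit 19575285) [(nat_lit 352461), (nat_lit 0), (nat_lit 0), (nat_lit 0)]) (PF.cons (PF.leaf (nat_lit 4297278)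 (nat_lit 367641) (nat_lit 45405799) (nat_lit 19497165) [(nat_lit 367641), (nat_lit 0), (nat_lit 0), (nat_lit 0)]) (PF.cons (PF.leaf (nat_lit 4563569) (nat_lit 381520) (nat_lit 45024362) (nat_lit 19413806) [(nat_lit 381520), (nat_lit 0),
 (nat_lit 0), (nat_lit 0)]) (PF.cons (PF.leaf (nat_lit 4840742) (nat_lit 394252) (nat_lit 44629257) (nat_lit 19325538) [(nat_lit 394252), (nat_lit 0), (nat_lit 0), (nat_lit 0)]) (PF.cons (PF.leaf (nat_lit 5127513) (nat_lit 405957) (nat_lit 44222534) (nat_lit 19232663) [(nat_lit 405957), (nat_lit 0), (nat_lit 0), (nat_lit 0)]) (PF.cons PF.nil (PF.cons PF.nil PF.nil)))))))))))) (PF.cons (PF.cons (PF.leaf (nat_lit 3553984) (nat_lit 1227615) (nat_lit 46216115) (nat_lit 19665082) [(nat_lit 0), (nat_lit 1227615), (nat_lit 0), (nat_lit 0)]) (PF.cons (PF.leaf (nat_lit 3752405) (nat_lit 326704) (nat_lit 45921035) (nat_lit 19603787) [(nat_lit 326704), (nat_lit 1257284), (nat_lit 0), (nat_lit 0)]) (PF.cons (PF.leaf (nat_lit 3971830) (nat_lit 344449)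 (nat_lit 45598416) (nat_lit 19535480) [(nat_lit 344449), (nat_lit 1286017), (nat_lit 0), (nat_lit 0)]) (PF.cons (PF.leaf (nat_lit 4208040) (nat_lit 360421) (nat_lit 45253230) (nat_lit 19460924) [(nat_lit 360421), (nat_lit 1313392), (nat_lit 0), (nat_lit 0)]) (PF.cons (PF.leaf (nat_lit 4458771) (nat_lit 374922) (nat_lit 44889223) (nat_lit 19380679) [(nat_lit 374922), (nat_lit 1339219), (nat_lit 0), (nat_lit 0)]) (PF.cons (PF.leaf (nat_lit 4722061)
 (nat_lit 388161) (nat_lit 44509383) (nat_lit 19295194) [(nat_lit 388161), (nat_lit 1363426), (nat_lit 0), (nat_lit 0)]) (PF.cons (PF.leaf (nat_lit 4996282) (nat_lit 400293) (nat_lit 44116197) (nat_lit 19204849) [(nat_lit 400293), (nat_lit 1386003), (nat_lit 0), (nat_lit 0)]) (PF.cons (PF.leaf (nat_lit 5280135) (nat_lit 411438) (nat_lit 43711786) (nat_lit 19109984) [(nat_lit 411438), (nat_lit 1406975), (nat_lit 0), (nat_lit 0)]) (PF.cons PF.nil (PF.cons PF.nil PF.nil)))))))))) (PF.cons (PF.cons (PF.leaf (nat_lit 4143168) (nat_lit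 1311946) (nat_lit 45067735) (nat_lit 19417184) [(nat_lit 0), (nat_lit 1311946), (nat_lit 0), (nat_lit 0)]) (PF.cons (PF.leaf (nat_lit 4373669) (nat_lit 367178) (nat_lit 44727436) (nat_lit 19341397) [(nat_lit 367178), (nat_lit 1336400), (nat_lit 0), (nat_lit 0)]) (PF.cons (PF.leaf (nat_lit 4620197) (nat_lit 381191) (nat_lit 44367384) (nat_lit 19259666) [(nat_lit 381191), (nat_lit 1359689), (nat_lit 0), (nat_lit 0)]) (PF.cons (PF.leaf (nat_lit 4879745) (nat_lit 393932) (nat_lit 43991128) (nat_lit 19172583) [(nat_lit 393932), (nat_lit 1381651), (nat_lit 0), (nat_lit 0)]) (PF.cons (PF.leaf (nat_lit 5150499) (nat_lit 405574) (nat_lit 43601459) (nat_lit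
 19080617) [(nat_lit 405574), (nat_lit 1402218), (nat_lit 0), (nat_lit 0)]) (PF.cons (PF.leaf (nat_lit 5430973) (nat_lit 416246) (nat_lit 43200671) (nat_lit 18984163) [(nat_lit 416246), (nat_lit 1421373), (nat_lit 0), (nat_lit 0)]) (PF.cons (PF.leaf (nat_lit 5719912) (nat_lit 426046) (nat_lit 42790700) (nat_lit 18883570) [(nat_lit 426046), (nat_lit 1439131), (nat_lit 0), (nat_lit 0)]) (PF.cons PF.nil (PF.cons PF.nil PF.nil))))))))) (PF.cons (PF.cons (PF.leaf (nat_lit 4783176) (nat_lit 1378195) (nat_lit 43840139) (nat_lit 19134086) [(nat_lit 0), (nat_lit 1378195), (nat_lit 0), (nat_lit 0)]) (PF.cons (PF.leaf (nat_lit 5037393) (nat_lit 398865) (nat_lit 43469675) (nat_lit 19046019) [(nat_lit 398865), (nat_lit 1398083), (nat_lit 0), (nat_lit 0)]) (PF.cons (PF.leaf (nat_lit 5303966) (nat_lit 410128) (nat_lit 43085230) (nat_lit 18952936) [(nat_lit 410128), (nat_lit 1416796), (nat_lit 0), (nat_lit 0)]) (PF.cons (PF.leaf (nat_lit 5580572) (nat_lit 420413) (nat_lit 42689423)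 (nat_lit 18855323) [(nat_lit 420413), (nat_lit 1434274), (nat_lit 0), (nat_lit 0)]) (PF.cons (PF.leaf (nat_lit 5865814) (nat_lit 429831) (nat_lit 42284383) (nat_lit 18753589) [(nat_lit 429831), (nat_lit 1450504),
 (nat_lit 0), (nat_lit 0)]) (PF.cons PF.nil (PF.cons PF.nil PF.nil))))))) (PF.cons (PF.cons (PF.leaf (nat_lit 5457927) (nat_lit 1429896) (nat_lit 42567402) (nat_lit 18821825) [(nat_lit 0), (nat_lit 1429896), (nat_lit 0), (nat_lit 0)]) (PF.cons (PF.leaf (nat_lit 5729464) (nat_lit 423958) (nat_lit 42178068) (nat_lit 18723537) [(nat_lit 423958), (nat_lit 1445812), (nat_lit 0), (nat_lit 0)]) (PF.cons (PF.leaf (nat_lit 6010512) (nat_lit 433065) (nat_lit 41779132) (nat_lit 18621069) [(nat_lit 433065), (nat_lit 1460619), (nat_lit 0), (nat_lit 0)]) (PF.cons (PF.leaf (nat_lit 6299234) (nat_lit 441389) (nat_lit 41372577) (nat_lit 18514838) [(nat_lit 441389), (nat_lit 1474307), (nat_lit 0), (nat_lit 0)]) (PF.cons PF.nil PF.nil))))) (PF.cons (PF.cons (PF.leaf (nat_lit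 6155041) (nat_lit 1469579) (nat_lit 41274856) (nat_lit 18486060) [(nat_lit 0), (nat_lit 1469579), (nat_lit 0), (nat_lit 0)]) (PF.cons (PF.leaf (nat_lit 6438877) (nat_lit 443828) (nat_lit 40875260) (nat_lit 18379485) [(nat_lit 443828), (nat_lit 1482047), (nat_lit 0), (nat_lit 0)]) (PF.cons (PF.leaf (nat_lit 6729980) (nat_lit 451186) (nat_lit 40469428) (nat_lit 18269494) [(nat_lit 451186), (nat_lit 1493503), (nat_lit 0), (nat_lit
 0)]) (PF.cons PF.nil PF.nil)))) (PF.cons (PF.cons (PF.leaf (nat_lit 6864804) (nat_lit 1499201) (nat_lit 39981530) (nat_lit 18132075) [(nat_lit 0), (nat_lit 1499201), (nat_lit 0), (nat_lit 0)]) (PF.cons PF.nil PF.nil)) (PF.cons PF.nil (PF.cons PF.nil PF.nil))))))))) (PF.cons (PF.cons (PF.cons (PF.leaf (nat_lit 4065683) (nat_lit 3155750) (nat_lit 44645209) (nat_lit 19307852) [(nat_lit 0), (nat_lit 0), (nat_lit 3155750), (nat_lit 0)]) (PF.cons (PF.leaf (nat_lit 4272192) (nat_lit 347807) (nat_lit 44342669) (nat_lit 19239161) [(nat_lit 347807),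 (nat_lit 0), (nat_lit 3179173), (nat_lit 0)]) (PF.cons (PF.leaf (nat_lit 4498564) (nat_lit 364276) (nat_lit 44014487) (nat_lit 19163397) [(nat_lit 364276), (nat_lit 0), (nat_lit 3202375), (nat_lit 0)]) (PF.cons (PF.leaf (nat_lit 4740637) (nat_lit 378899) (nat_lit 43665835) (nat_lit 19081500) [(nat_lit 378899), (nat_lit 0), (nat_lit 3224778), (nat_lit 0)]) (PF.cons (PF.leaf (nat_lit 4995951) (nat_lit 392032) (nat_lit 43300508) (nat_lit 18994151) [(nat_lit 392032), (nat_lit 0), (nat_lit 3246021), (nat_lit 0)]) (PF.cons (PF.leaf (nat_lit 5262668) (nat_lit 403917) (nat_lit 42921467) (nat_lit 18901884) [(nat_lit 403917), (nat_lit 0), (nat_lit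
 3265871), (nat_lit 0)]) (PF.cons (PF.leaf (nat_lit 5539164) (nat_lit 414726) (nat_lit 42531122) (nat_lit 18805142) [(nat_lit 414726), (nat_lit 0), (nat_lit 3284188), (nat_lit 0)]) (PF.cons (PF.leaf (nat_lit 5824140) (nat_lit 424589) (nat_lit 42131486) (nat_lit 18704309) [(nat_lit 424589), (nat_lit 0), (nat_lit 3300889), (nat_lit 0)]) (PF.cons PF.nil (PF.cons PF.nil PF.nil)))))))))) (PF.cons (PF.cons (PF.leaf (nat_lit 4665102) (nat_lit 1358564) (nat_lit 43488234) (nat_lit 19036247) [(nat_lit 0), (nat_lit 1358564), (nat_lit 3225766), (nat_lit 0)]) (PF.cons (PF.leaf (nat_lit 4900595) (nat_lit 383766) (nat_lit 43146850) (nat_lit 18953950) [(nat_lit 383766), (nat_lit 1379031), (nat_lit 3245214), (nat_lit 0)]) (PF.cons (PF.leaf (nat_lit 5151006) (nat_lit 396580) (nat_lit 42787608) (nat_lit 18865898) [(nat_lit 396580), (nat_lit 1398401), (nat_lit 3263744), (nat_lit 0)]) (PF.cons (PF.leaf (nat_lit 5413344) (nat_lit 408112) (nat_lit 42414052) (nat_lit 18772779) [(nat_lit 408112),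 (nat_lit 1416558), (nat_lit 3281084), (nat_lit 0)]) (PF.cons (PF.leaf (nat_lit 5685869) (nat_lit 418558) (nat_lit 42028918) (nat_lit 18675130) [(nat_lit 418558), (nat_lit 1433460), (nat_lit 3297067), (nat_lit 0)])
 (PF.cons (PF.leaf (nat_lit 5967088) (nat_lit 428062) (nat_lit 41634409) (nat_lit 18573394) [(nat_lit 428062), (nat_lit 1449105), (nat_lit 3311591), (nat_lit 0)]) (PF.cons (PF.leaf (nat_lit 6255783) (nat_lit 436730) (nat_lit 41232359) (nat_lit 18467952) [(nat_lit 436730), (nat_lit 1463513), (nat_lit 3324605), (nat_lit 0)]) (PF.cons PF.nil (PF.cons PF.nil PF.nil))))))))) (PF.cons (PF.cons (PF.leaf (nat_lit 5307677) (nat_lit 1412233) (nat_lit 42271484) (nat_lit 18733866) [(nat_lit 0), (nat_lit 1412233), (nat_lit 3278995), (nat_lit 0)]) (PF.cons (PF.leaf (nat_lit 5564180) (nat_lit 411595) (nat_lit 41905325) (nat_lit 18640485) [(nat_lit 411595), (nat_lit 1428708), (nat_lit 3293990), (nat_lit 0)]) (PF.cons (PF.leaf (nat_lit 5832018) (nat_lit 421777) (nat_lit 41526848)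 (nat_lit 18542404) [(nat_lit 421777), (nat_lit 1444103), (nat_lit 3307799), (nat_lit 0)]) (PF.cons (PF.leaf (nat_lit 6108964) (nat_lit 430995) (nat_lit 41138597) (nat_lit 18440165) [(nat_lit 430995), (nat_lit 1458381), (nat_lit 3320301), (nat_lit 0)]) (PF.cons (PF.leaf (nat_lit 6393649) (nat_lit 439372) (nat_lit 40742607) (nat_lit 18334208) [(nat_lit 439372), (nat_lit 1471540), (nat_lit 3331428), (nat_lit 0)]) (PF.cons
 PF.nil (PF.cons PF.nil PF.nil))))))) (PF.cons (PF.cons (PF.leaf (nat_lit 5978796) (nat_lit 1453563) (nat_lit 41024635) (nat_lit 18406946) [(nat_lit 0), (nat_lit 1453563), (nat_lit 3316540), (nat_lit 0)]) (PF.cons (PF.leaf (nat_lit 6250331) (nat_lit 433394) (nat_lit 40643921) (nat_lit 18304654) [(nat_lit 433394), (nat_lit 1466561), (nat_lit 3327158), (nat_lit 0)]) (PF.cons (PF.leaf (nat_lit 6530530) (nat_lit 441543) (nat_lit 40254976) (nat_lit 18198559) [(nat_lit 441543), (nat_lit 1478553), (nat_lit 3336528), (nat_lit 0)]) (PF.cons (PF.leaf (nat_lit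 6817605) (nat_lit 448934) (nat_lit 39859685) (nat_lit 18089099) [(nat_lit 448934), (nat_lit 1489538), (nat_lit 3344608), (nat_lit 0)]) (PF.cons PF.nil PF.nil))))) (PF.cons (PF.cons (PF.leaf (nat_lit 6667407) (nat_lit 1484627) (nat_lit 39769261) (nat_lit 18061021) [(nat_lit 0), (nat_lit 1484627), (nat_lit 3340020), (nat_lit 0)]) (PF.cons (PF.leaf (nat_lit 6949383) (nat_lit 450453) (nat_lit 39381599) (nat_lit 17951750) [(nat_lit 450453), (nat_lit 1494608), (nat_lit 3346575), (nat_lit 0)]) (PF.cons PF.nil (PF.cons PF.nil PF.nil)))) (PF.cons (PF.cons (PF.leaf (nat_lit 7364937) (nat_lit 1507066) (nat_lit 38521262) (nat_lit 17701045)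
 [(nat_lit 0), (nat_lit 1507066), (nat_lit 3351169), (nat_lit 0)]) (PF.cons PF.nil PF.nil)) (PF.cons PF.nil (PF.cons PF.nil PF.nil)))))))) (PF.cons (PF.cons (PF.cons (PF.leaf (nat_lit 5176256) (nat_lit 3261389) (nat_lit 41947813) (nat_lit 18638219) [(nat_lit 0), (nat_lit 0), (nat_lit 3261389), (nat_lit 0)]) (PF.cons (PF.leaf (nat_lit 5414897) (nat_lit 396775) (nat_lit 41609437) (nat_lit 18550972) [(nat_lit 396775), (nat_lit 0), (nat_lit 3275813), (nat_lit 0)]) (PF.cons (PF.leaf (nat_lit 5667475) (nat_lit 408538) (nat_lit 41254875) (nat_lit 18458206) [(nat_lit 408538), (nat_lit 0), (nat_lit 3289326), (nat_lit 0)]) (PF.cons (PF.leaf (nat_lit 5931094) (nat_lit 419020) (nat_lit 40887615) (nat_lit 18360680) [(nat_lit 419020), (nat_lit 0), (nat_lit 3301728), (nat_lit 0)]) (PF.cons (PF.leaf (nat_lit 6203940) (nat_lit 428432) (nat_lit 40510308) (nat_lit 18258979) [(nat_lit 428432), (nat_lit 0), (nat_lit 3312896), (nat_lit 0)]) (PF.cons (PF.leaf (nat_lit 6484614) (nat_lit 436929)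 (nat_lit 40125059) (nat_lit 18153578) [(nat_lit 436929), (nat_lit 0), (nat_lit 3322763), (nat_lit 0)]) (PF.cons PF.nil PF.nil))))))) (PF.cons (PF.cons (PF.leaf (nat_lit 5817660) (nat_lit 1436328) (nat_lit 40753751)
 (nat_lit 18321944) [(nat_lit 0), (nat_lit 1436328), (nat_lit 3298394), (nat_lit 0)]) (PF.cons (PF.leaf (nat_lit 6075022) (nat_lit 421326) (nat_lit 40394955) (nat_lit 18224767) [(nat_lit 421326), (nat_lit 1449964), (nat_lit 3308899), (nat_lit 0)]) (PF.cons (PF.leaf (nat_lit 6342854) (nat_lit 430564) (nat_lit 40025256) (nat_lit 18123214) [(nat_lit 430564), (nat_lit 1462597), (nat_lit 3318307), (nat_lit 0)]) (PF.cons (PF.leaf (nat_lit 6618980) (nat_lit 438856) (nat_lit 39647103) (nat_lit 18017859) [(nat_lit 438856), (nat_lit 1474211), (nat_lit 3326534), (nat_lit 0)]) (PF.cons (PF.leaf (nat_lit 6902067) (nat_lit 446332) (nat_lit 39262431) (nat_lit 17909167) [(nat_lit 446332), (nat_lit 1484812), (nat_lit 3333535), (nat_lit 0)]) PF.nil))))) (PF.cons (PF.cons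 (PF.leaf (nat_lit 6482528) (nat_lit 1469122) (nat_lit 39541067) (nat_lit 17985305) [(nat_lit 0), (nat_lit 1469122), (nat_lit 3322097), (nat_lit 0)]) (PF.cons (PF.leaf (nat_lit 6753013) (nat_lit 440317) (nat_lit 39171122) (nat_lit 17880417) [(nat_lit 440317), (nat_lit 1479679), (nat_lit 3328798), (nat_lit 0)]) (PF.cons (PF.leaf (nat_lit 7031413) (nat_lit 447634) (nat_lit 38794082) (nat_lit 17772078) [(nat_lit 447634), (nat_lit
 1489316), (nat_lit 3334375), (nat_lit 0)]) (PF.cons PF.nil PF.nil)))) (PF.cons (PF.cons (PF.leaf (nat_lit 7160904) (nat_lit 1493048) (nat_lit 38328265) (nat_lit 17633595) [(nat_lit 0), (nat_lit 1493048), (nat_lit 3333903), (nat_lit 0)]) (PF.cons (PF.leaf (nat_lit 7440281) (nat_lit 454979) (nat_lit 37953923) (nat_lit 17522881) [(nat_lit 454979), (nat_lit 1500943), (nat_lit 3337099), (nat_lit 0)]) PF.nil)) (PF.cons PF.nil (PF.cons PF.nil PF.nil)))))) (PF.cons (PF.cons (PF.cons (PF.leaf (nat_lit 6312343) (nat_lit 3303855) (nat_lit 39293418) (nat_lit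 17903826) [(nat_lit 0), (nat_lit 0), (nat_lit 3303855), (nat_lit 0)]) (PF.cons (PF.leaf (nat_lit 6569421) (nat_lit 428591) (nat_lit 38944095) (nat_lit 17804151) [(nat_lit 428591), (nat_lit 0), (nat_lit 3310658), (nat_lit 0)]) (PF.cons (PF.leaf (nat_lit 6836240) (nat_lit 436998) (nat_lit 38585076) (nat_lit 17700415) [(nat_lit 436998), (nat_lit 0), (nat_lit 3316441), (nat_lit 0)]) (PF.cons (PF.leaf (nat_lit 7110641) (nat_lit 444479) (nat_lit 38218706) (nat_lit 17593214) [(nat_lit 444479), (nat_lit 0), (nat_lit 3321151), (nat_lit 0)]) (PF.cons PF.nil PF.nil))))) (PF.cons (PF.cons (PF.leaf (nat_lit 6968965) (nat_lit 1478123) (nat_lit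
 38120302) (nat_lit 17561597) [(nat_lit 0), (nat_lit 1478123), (nat_lit 3316263), (nat_lit 0)]) (PF.cons (PF.leaf (nat_lit 7237579) (nat_lit 445168) (nat_lit 37762522) (nat_lit 17455287) [(nat_lit 445168), (nat_lit 1486621), (nat_lit 3319737), (nat_lit 0)]) (PF.cons (PF.leaf (nat_lit 7513458) (nat_lit 451755) (nat_lit 37398588) (nat_lit 17345849) [(nat_lit 451755), (nat_lit 1494275), (nat_lit 3322196), (nat_lit 0)]) (PF.cons PF.nil PF.nil)))) (PF.cons (PF.cons (PF.leaf (nat_lit 7635876) (nat_lit 1496098) (nat_lit 36953274) (nat_lit 17207686) [(nat_lit 0), (nat_lit 1496098), (nat_lit 3318551), (nat_lit 0)]) (PF.cons PF.nil PF.nil)) (PF.cons PF.nil (PF.cons PF.nil PF.nil))))) (PF.cons (PF.cons (PF.cons (PF.leaf (nat_lit 7438254) (nat_lit 3301364) (nat_lit 36763790) (nat_lit 17139563) [(nat_lit 0), (nat_lit 0), (nat_lit 3301364), (nat_lit 0)]) (PF.cons (PF.leaf (nat_lit 7704324) (nat_lit 448301) (nat_lit 36419011) (nat_lit 17032793) [(nat_lit 448301), (nat_lit 0), (nat_lit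 3302176), (nat_lit 0)]) (PF.cons PF.nil (PF.cons PF.nil PF.nil)))) (PF.cons (PF.cons (PF.leaf (nat_lit 8092838) (nat_lit 1494785) (nat_lit 35644139) (nat_lit 16786340) [(nat_lit 0), (nat_lit 1494785), (nat_lit
 3295886), (nat_lit 0)]) (PF.cons PF.nil PF.nil)) (PF.cons PF.nil PF.nil))) (PF.cons (PF.cons (PF.cons (PF.leaf (nat_lit 8532456) (nat_lit 3267457) (nat_lit 34399635) (nat_lit 16371889) [(nat_lit 0), (nat_lit 0), (nat_lit 3267457), (nat_lit 0)]) (PF.cons PF.nil PF.nil)) (PF.cons PF.nil PF.nil)) (PF.cons PF.nil (PF.cons PF.nil PF.nil)))))))) (PF.cons (PF.cons (PF.cons (PF.cons (PF.leaf (nat_lit 4943105) (nat_lit 8487139) (nat_lit 40466838) (nat_lit 18154834) [(nat_lit 0), (nat_lit 0), (nat_lit 0), (nat_lit 8487139)]) (PF.cons (PF.leaf (nat_lit 5147407) (nat_lit 355790) (nat_lit 40193437) (nat_lit 18082053) [(nat_lit 355790), (nat_lit 0), (nat_lit 0), (nat_lit 8477530)]) (PF.cons (PF.leaf (nat_lit 5370202) (nat_lit 371150) (nat_lit 39898034) (nat_lit 18002480)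 [(nat_lit 371150), (nat_lit 0), (nat_lit 0), (nat_lit 8465995)]) (PF.cons (PF.leaf (nat_lit 5607277) (nat_lit 384551) (nat_lit 39585401) (nat_lit 17917224) [(nat_lit 384551), (nat_lit 0), (nat_lit 0), (nat_lit 8452531)]) (PF.cons (PF.leaf (nat_lit 5856270) (nat_lit 396395) (nat_lit 39259006) (nat_lit 17827082) [(nat_lit 396395), (nat_lit 0), (nat_lit 0), (nat_lit 8437142)]) (PF.cons (PF.leaf (nat_lit 6115228) (nat_lit 406955)
 (nat_lit 38921519) (nat_lit 17732675) [(nat_lit 406955), (nat_lit 0), (nat_lit 0), (nat_lit 8419841)]) (PF.cons (PF.leaf (nat_lit 6382672) (nat_lit 416428) (nat_lit 38575078) (nat_lit 17634504) [(nat_lit 416428), (nat_lit 0), (nat_lit 0), (nat_lit 8400656)]) (PF.cons (PF.leaf (nat_lit 6657359) (nat_lit 424964) (nat_lit 38221447) (nat_lit 17532991) [(nat_lit 424964), (nat_lit 0), (nat_lit 0), (nat_lit 8379625)]) (PF.cons PF.nil (PF.cons PF.nil PF.nil)))))))))) (PF.cons (PF.cons (PF.leaf (nat_lit 5523503) (nat_lit 1364884) (nat_lit 39431105) (nat_lit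 17872131) [(nat_lit 0), (nat_lit 1364884), (nat_lit 0), (nat_lit 8440692)]) (PF.cons (PF.leaf (nat_lit 5753431) (nat_lit 387662) (nat_lit 39126375) (nat_lit 17787505) [(nat_lit 387662), (nat_lit 1381415), (nat_lit 0), (nat_lit 8425853)]) (PF.cons (PF.leaf (nat_lit 5996915) (nat_lit 399277) (nat_lit 38806714) (nat_lit 17697667) [(nat_lit 399277), (nat_lit 1396810), (nat_lit 0), (nat_lit 8409065)]) (PF.cons (PF.leaf (nat_lit 6251072) (nat_lit 409574) (nat_lit 38475308) (nat_lit 17603389) [(nat_lit 409574), (nat_lit 1411016), (nat_lit 0), (nat_lit 8390375)]) (PF.cons (PF.leaf (nat_lit 6514195) (nat_lit 418773) (nat_lit 38134589) (nat_lit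
 17505262) [(nat_lit 418773), (nat_lit 1424034), (nat_lit 0), (nat_lit 8369833)]) (PF.cons (PF.leaf (nat_lit 6784833) (nat_lit 427034) (nat_lit 37786489) (nat_lit 17403766) [(nat_lit 427034), (nat_lit 1435895), (nat_lit 0), (nat_lit 8347489)]) (PF.cons (PF.leaf (nat_lit 7061850) (nat_lit 434478) (nat_lit 37432593) (nat_lit 17299301) [(nat_lit 434478), (nat_lit 1446642), (nat_lit 0), (nat_lit 8323403)]) (PF.cons PF.nil (PF.cons PF.nil PF.nil))))))))) (PF.cons (PF.cons (PF.leaf (nat_lit 6139251) (nat_lit 1405704) (nat_lit 38352955) (nat_lit 17565725) [(nat_lit 0), (nat_lit 1405704), (nat_lit 0), (nat_lit 8378722)]) (PF.cons (PF.leaf (nat_lit 6387229) (nat_lit 411589) (nat_lit 38029148) (nat_lit 17472095) [(nat_lit 411589), (nat_lit 1418559), (nat_lit 0), (nat_lit 8358858)]) (PF.cons (PF.leaf (nat_lit 6645381) (nat_lit 420606) (nat_lit 37695270) (nat_lit 17374420) [(nat_lit 420606), (nat_lit 1430382), (nat_lit 0), (nat_lit 8337144)]) (PF.cons (PF.leaf (nat_lit 6911541)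 (nat_lit 428663) (nat_lit 37353556) (nat_lit 17273270) [(nat_lit 428663), (nat_lit 1441170), (nat_lit 0), (nat_lit 8313655)]) (PF.cons (PF.leaf (nat_lit 7184407) (nat_lit 435894) (nat_lit 37005772) (nat_lit 17169104)
 [(nat_lit 435894), (nat_lit 1450946), (nat_lit 0), (nat_lit 8288463)]) (PF.cons PF.nil (PF.cons PF.nil PF.nil))))))) (PF.cons (PF.cons (PF.leaf (nat_lit 6777395) (nat_lit 1435839) (nat_lit 37256747) (nat_lit 17241908) [(nat_lit 0), (nat_lit 1435839), (nat_lit 0), (nat_lit 8302637)]) (PF.cons (PF.leaf (nat_lit 7038011) (nat_lit 429849) (nat_lit 36922413) (nat_lit 17141484) [(nat_lit 429849), (nat_lit 1445627), (nat_lit 0), (nat_lit 8278182)]) (PF.cons (PF.leaf (nat_lit 7306309) (nat_lit 436927) (nat_lit 36581489) (nat_lit 17037925) [(nat_lit 436927), (nat_lit 1454500), (nat_lit 0), (nat_lit 8252042)]) (PF.cons (PF.leaf (nat_lit 7580579) (nat_lit 443270) (nat_lit 36235598) (nat_lit 16931672) [(nat_lit 443270), (nat_lit 1462474), (nat_lit 0), (nat_lit 8224305)])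 (PF.cons PF.nil PF.nil))))) (PF.cons (PF.cons (PF.leaf (nat_lit 7428494) (nat_lit 1457358) (nat_lit 36159463) (nat_lit 16905728) [(nat_lit 0), (nat_lit 1457358), (nat_lit 0), (nat_lit 8214188)]) (PF.cons (PF.leaf (nat_lit 7697688) (nat_lit 443799) (nat_lit 35820760) (nat_lit 16800306) [(nat_lit 443799), (nat_lit 1464564), (nat_lit 0), (nat_lit 8185687)]) (PF.cons PF.nil (PF.cons PF.nil PF.nil)))) (PF.cons (PF.cons (PF.leaf
 (nat_lit 8085421) (nat_lit 1471803) (nat_lit 35073198) (nat_lit 16561363) [(nat_lit 0), (nat_lit 1471803), (nat_lit 0), (nat_lit 8115234)]) (PF.cons PF.nil PF.nil)) PF.nil)))))) (PF.cons (PF.cons (PF.cons (PF.leaf (nat_lit 5996601) (nat_lit 3206132) (nat_lit 38082061) (nat_lit 17476493) [(nat_lit 0), (nat_lit 0), (nat_lit 3206132), (nat_lit 8344126)]) (PF.cons (PF.leaf (nat_lit 6228045) (nat_lit 396792) (nat_lit 37782599) (nat_lit 17389298) [(nat_lit 396792), (nat_lit 0), (nat_lit 3214687), (nat_lit 8325434)]) (PF.cons (PF.leaf (nat_lit 6472248)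 (nat_lit 407470) (nat_lit 37469554) (nat_lit 17297161) [(nat_lit 407470), (nat_lit 0), (nat_lit 3222348), (nat_lit 8304808)]) (PF.cons (PF.leaf (nat_lit 6726341) (nat_lit 416852) (nat_lit 37146022) (nat_lit 17200884) [(nat_lit 416852), (nat_lit 0), (nat_lit 3228996), (nat_lit 8282351)]) (PF.cons (PF.leaf (nat_lit 6988624) (nat_lit 425169) (nat_lit 36814331) (nat_lit 17101078) [(nat_lit 425169), (nat_lit 0), (nat_lit 3234569), (nat_lit 8258154)]) (PF.cons (PF.leaf (nat_lit 7257748) (nat_lit 432585) (nat_lit 36476314) (nat_lit 16998230) [(nat_lit 432585), (nat_lit 0), (nat_lit 3239039), (nat_lit 8232299)]) (PF.cons PF.nil PF.nil)))))))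
 (PF.cons (PF.cons (PF.leaf (nat_lit 6608462) (nat_lit 1418635) (nat_lit 37031658) (nat_lit 17164157) [(nat_lit 0), (nat_lit 1418635), (nat_lit 3224332), (nat_lit 8270029)]) (PF.cons (PF.leaf (nat_lit 6856159) (nat_lit 417968) (nat_lit 36716296) (nat_lit 17068944) [(nat_lit 417968), (nat_lit 1429246), (nat_lit 3229611), (nat_lit 8246746)]) (PF.cons (PF.leaf (nat_lit 7113308) (nat_lit 426179) (nat_lit 36391942) (nat_lit 16969976) [(nat_lit 426179), (nat_lit 1438908), (nat_lit 3233918), (nat_lit 8221707)]) (PF.cons (PF.leaf (nat_lit 7377794) (nat_lit 433459) (nat_lit 36060733) (nat_lit 16867837) [(nat_lit 433459), (nat_lit 1447630), (nat_lit 3237214), (nat_lit 8195019)]) (PF.cons (PF.leaf (nat_lit 7648394) (nat_lit 439945) (nat_lit 35724336) (nat_lit 16762990) [(nat_lit 439945), (nat_lit 1455438), (nat_lit 3239488), (nat_lit 8166777)]) PF.nil))))) (PF.cons (PF.cons (PF.leaf (nat_lit 7238947) (nat_lit 1442231) (nat_lit 35970894) (nat_lit 16837593) [(nat_lit 0), (nat_lit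 1442231), (nat_lit 3232106), (nat_lit 8183755)]) (PF.cons (PF.leaf (nat_lit 7497780) (nat_lit 433943) (nat_lit 35647370) (nat_lit 16736514) [(nat_lit 433943), (nat_lit 1450129), (nat_lit 3234321), (nat_lit 8156403)])
 (PF.cons (PF.leaf (nat_lit 7763718) (nat_lit 440331) (nat_lit 35318088) (nat_lit 16632586) [(nat_lit 440331), (nat_lit 1457192), (nat_lit 3235589), (nat_lit 8127499)]) (PF.cons PF.nil PF.nil)))) (PF.cons (PF.cons (PF.leaf (nat_lit 7879497) (nat_lit 1458374) (nat_lit 34914389) (nat_lit 16501478) [(nat_lit 0), (nat_lit 1458374), (nat_lit 3230763), (nat_lit 8087057)]) (PF.cons (PF.leaf (nat_lit 8145742) (nat_lit 445984) (nat_lit 34588190) (nat_lit 16396241) [(nat_lit 445984), (nat_lit 1463991), (nat_lit 3230223), (nat_lit 8056200)]) PF.nil)) (PF.cons PF.nil PF.nil))))) (PF.cons (PF.cons (PF.cons (PF.leaf (nat_lit 7063424) (nat_lit 3213896) (nat_lit 35765267) (nat_lit 16763987) [(nat_lit 0), (nat_lit 0), (nat_lit 3213896), (nat_lit 8151764)]) (PF.cons (PF.leaf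 (nat_lit 7310034) (nat_lit 422510) (nat_lit 35459485) (nat_lit 16668050) [(nat_lit 422510), (nat_lit 0), (nat_lit 3216504), (nat_lit 8125757)]) (PF.cons (PF.leaf (nat_lit 7565517) (nat_lit 430013) (nat_lit 35145635) (nat_lit 16568632) [(nat_lit 430013), (nat_lit 0), (nat_lit 3218213), (nat_lit 8098091)]) (PF.cons (PF.leaf (nat_lit 7827772) (nat_lit 436611) (nat_lit 34825753) (nat_lit 16466320) [(nat_lit 436611), (nat_lit 0),
 (nat_lit 3219003), (nat_lit 8068897)]) (PF.cons PF.nil PF.nil))))) (PF.cons (PF.cons (PF.leaf (nat_lit 7685022) (nat_lit 1444000) (nat_lit 34742489) (nat_lit 16437307) [(nat_lit 0), (nat_lit 1444000), (nat_lit 3213718), (nat_lit 8057578)]) (PF.cons (PF.leaf (nat_lit 7941560) (nat_lit 436517) (nat_lit 34430422) (nat_lit 16336319) [(nat_lit 436517), (nat_lit 1450302), (nat_lit 3213639), (nat_lit 8027972)]) (PF.cons (PF.leaf (nat_lit 8204646) (nat_lit 442299) (nat_lit 34113293) (nat_lit 16232741) [(nat_lit 442299), (nat_lit 1455838), (nat_lit 3212700),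 (nat_lit 7996939)]) (PF.cons PF.nil PF.nil)))) (PF.cons (PF.cons (PF.leaf (nat_lit 8314336) (nat_lit 1455651) (nat_lit 33727879) (nat_lit 16103453) [(nat_lit 0), (nat_lit 1455651), (nat_lit 3205762), (nat_lit 7954650)]) (PF.cons PF.nil PF.nil)) PF.nil))) (PF.cons (PF.cons (PF.cons (PF.leaf (nat_lit 8115968) (nat_lit 3189420) (nat_lit 33571093) (nat_lit 16043170) [(nat_lit 0), (nat_lit 0), (nat_lit 3189420), (nat_lit 7926287)]) (PF.cons (PF.leaf (nat_lit 8369744) (nat_lit 437829) (nat_lit 33270800) (nat_lit 15942873) [(nat_lit 437829), (nat_lit 0), (nat_lit 3187446), (nat_lit 7894967)]) (PF.cons PF.nil PF.nil))) (PF.cons (PF.cons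
 (PF.leaf (nat_lit 8733574) (nat_lit 1449894) (nat_lit 32598586) (nat_lit 15713305) [(nat_lit 0), (nat_lit 1449894), (nat_lit 3176074), (nat_lit 7818801)]) PF.nil) PF.nil)) (PF.cons PF.nil (PF.cons PF.nil PF.nil)))))) (PF.cons (PF.cons (PF.cons (PF.cons (PF.leaf (nat_lit 6730302) (nat_lit 7977195) (nat_lit 34767605) (nat_lit 16386816) [(nat_lit 0), (nat_lit 0), (nat_lit 0), (nat_lit 7977195)]) (PF.cons (PF.leaf (nat_lit 6953887) (nat_lit 392423) (nat_lit 34503579) (nat_lit 16302912) [(nat_lit 392423), (nat_lit 0), (nat_lit 0), (nat_lit 7954948)]) (PF.cons (PF.leaf (nat_lit 7189324) (nat_lit 402203) (nat_lit 34228006) (nat_lit 16214593) [(nat_lit 402203), (nat_lit 0), (nat_lit 0), (nat_lit 7930903)]) (PF.cons (PF.leaf (nat_lit 7433735) (nat_lit 410698) (nat_lit 33943611) (nat_lit 16122657) [(nat_lit 410698), (nat_lit 0), (nat_lit 0), (nat_lit 7905224)]) (PF.cons (PF.leaf (nat_lit 7685508) (nat_lit 418148) (nat_lit 33652431) (nat_lit 16027702) [(nat_lit 418148), (nat_lit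 0), (nat_lit 0), (nat_lit 7878043)]) (PF.cons (PF.leaf (nat_lit 7943351) (nat_lit 424723) (nat_lit 33356052) (nat_lit 15930198) [(nat_lit 424723), (nat_lit 0), (nat_lit 0), (nat_lit 7849471)]) (PF.cons PF.nil
 PF.nil))))))) (PF.cons (PF.cons (PF.leaf (nat_lit 7313672) (nat_lit 1388970) (nat_lit 33845853) (nat_lit 16088756) [(nat_lit 0), (nat_lit 1388970), (nat_lit 0), (nat_lit 7892616)]) (PF.cons (PF.leaf (nat_lit 7551671) (nat_lit 410997) (nat_lit 33568994) (nat_lit 15998244) [(nat_lit 410997), (nat_lit 1397406), (nat_lit 0), (nat_lit 7866585)]) (PF.cons (PF.leaf (nat_lit 7798341) (nat_lit 418395) (nat_lit 33284565) (nat_lit 15904478) [(nat_lit 418395), (nat_lit 1404949), (nat_lit 0), (nat_lit 7839015)]) (PF.cons (PF.leaf (nat_lit 8051618) (nat_lit 424885) (nat_lit 32994425) (nat_lit 15808020) [(nat_lit 424885), (nat_lit 1411626), (nat_lit 0), (nat_lit 7810042)]) (PF.cons PF.nil PF.nil))))) (PF.cons (PF.cons (PF.leaf (nat_lit 7912349) (nat_lit 1406165) (nat_lit 32918096)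 (nat_lit 15780480) [(nat_lit 0), (nat_lit 1406165), (nat_lit 0), (nat_lit 7798952)]) (PF.cons (PF.leaf (nat_lit 8160054) (nat_lit 424714) (nat_lit 32634910) (nat_lit 15685366) [(nat_lit 424714), (nat_lit 1412190), (nat_lit 0), (nat_lit 7769719)]) (PF.cons (PF.leaf (nat_lit 8414241) (nat_lit 430387) (nat_lit 32346913) (nat_lit 15587848) [(nat_lit 430387), (nat_lit 1417455), (nat_lit 0), (nat_lit 7739182)]) (PF.cons
 PF.nil PF.nil)))) (PF.cons (PF.cons (PF.leaf (nat_lit 8518829) (nat_lit 1416998) (nat_lit 31996125) (nat_lit 15466064) [(nat_lit 0), (nat_lit 1416998), (nat_lit 0), (nat_lit 7697812)]) (PF.cons PF.nil PF.nil)) (PF.cons PF.nil PF.nil))))) (PF.cons (PF.cons (PF.cons (PF.leaf (nat_lit 7734747) (nat_lit 3109485) (nat_lit 32746505) (nat_lit 15714988) [(nat_lit 0), (nat_lit 0), (nat_lit 3109485), (nat_lit 7768916)]) (PF.cons (PF.leaf (nat_lit 7971233) (nat_lit 413713) (nat_lit 32478556) (nat_lit 15624732) [(nat_lit 413713), (nat_lit 0), (nat_lit 3109412), (nat_lit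 7741199)]) (PF.cons (PF.leaf (nat_lit 8215907) (nat_lit 420498) (nat_lit 32203761) (nat_lit 15531455) [(nat_lit 420498), (nat_lit 0), (nat_lit 3108538), (nat_lit 7712030)]) (PF.cons (PF.leaf (nat_lit 8466720) (nat_lit 426406) (nat_lit 31923887) (nat_lit 15435714) [(nat_lit 426406), (nat_lit 0), (nat_lit 3106867), (nat_lit 7681561)]) (PF.cons PF.nil PF.nil))))) (PF.cons (PF.cons (PF.leaf (nat_lit 8324503) (nat_lit 1403406) (nat_lit 31853126) (nat_lit 15409476) [(nat_lit 0), (nat_lit 1403406), (nat_lit 3101519), (nat_lit 7670641)]) (PF.cons (PF.leaf (nat_lit 8569717) (nat_lit 425794) (nat_lit 31580212) (nat_lit 15315242)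
 [(nat_lit 425794), (nat_lit 1408164), (nat_lit 3099227), (nat_lit 7640085)]) (PF.cons PF.nil (PF.cons PF.nil PF.nil)))) (PF.cons (PF.cons (PF.leaf (nat_lit 8920297) (nat_lit 1410768) (nat_lit 30968106) (nat_lit 15099518) [(nat_lit 0), (nat_lit 1410768), (nat_lit 3087425), (nat_lit 7566113)]) (PF.cons PF.nil PF.nil)) PF.nil))) (PF.cons (PF.cons (PF.cons (PF.leaf (nat_lit 8723319) (nat_lit 3072200) (nat_lit 30837434) (nat_lit 15046552) [(nat_lit 0), (nat_lit 0), (nat_lit 3072200), (nat_lit 7540212)]) (PF.cons (PF.leaf (nat_lit 8965731) (nat_lit 425926) (nat_lit 30574858) (nat_lit 14953574) [(nat_lit 425926), (nat_lit 0), (nat_lit 3068529), (nat_lit 7508697)]) PF.nil)) (PF.cons PF.nil PF.nil)) (PF.cons PF.nil (PF.cons PF.nil PF.nil))))) (PF.cons (PF.cons (PF.cons (PF.cons (PF.leaf (nat_lit 8341720) (nat_lit 7399372) (nat_lit 30150223) (nat_lit 14760471) [(nat_lit 0), (nat_lit 0), (nat_lit 0), (nat_lit 7399372)]) (PF.cons (PF.leaf (nat_lit 8568628) (nat_lit 403490) (nat_lit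 29914605) (nat_lit 14676568) [(nat_lit 403490), (nat_lit 0), (nat_lit 0), (nat_lit 7371382)]) (PF.cons (PF.leaf (nat_lit 8803177) (nat_lit 409691) (nat_lit 29673090) (nat_lit 14590013) [(nat_lit 409691), (nat_lit
 0), (nat_lit 0), (nat_lit 7342108)]) (PF.cons PF.nil PF.nil)))) (PF.cons (PF.cons (PF.leaf (nat_lit 8902678) (nat_lit 1360055) (nat_lit 29366725) (nat_lit 14477758) [(nat_lit 0), (nat_lit 1360055), (nat_lit 0), (nat_lit 7301424)]) (PF.cons (PF.leaf (nat_lit 9137433) (nat_lit 414090) (nat_lit 29126994) (nat_lit 14390623) [(nat_lit 414090), (nat_lit 1363705), (nat_lit 0), (nat_lit 7271133)]) PF.nil)) (PF.cons PF.nil PF.nil))) (PF.cons (PF.cons (PF.cons (PF.leaf (nat_lit 9274269) (nat_lit 2955381) (nat_lit 28481212) (nat_lit 14145819) [(nat_lit 0), (nat_lit 0), (nat_lit 2955381), (nat_lit 7175466)]) (PF.cons PF.nil PF.nil)) (PF.cons PF.nil PF.nil)) (PF.cons PF.nil PF.nil))) (PF.cons (PF.cons (PF.cons (PF.cons (PF.leaf (nat_lit 9779229) (nat_lit 6834939) (nat_lit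 26435956) (nat_lit 13333099) [(nat_lit 0), (nat_lit 0), (nat_lit 0), (nat_lit 6834939)]) (PF.cons PF.nil PF.nil)) (PF.cons PF.nil PF.nil)) (PF.cons PF.nil PF.nil)) (PF.cons PF.nil (PF.cons PF.nil (PF.cons PF.nil PF.nil))))))))

def p15_20_3_0 : pfC (piC [(nat_lit 39120232), (nat_lit 25510466), (nat_lit 19038091), (nat_lit 12801343)] (nat_lit 4861332)) p15_20_3 (nat_lit 4) (nat_lit 0) (nat_lit 1) = true := by decide +kernel
def p15_20_3_1 : pfC (piC [(nat_lit 39120232), (nat_lit 25510466), (nat_lit 19038091), (nat_lit 12801343)] (nat_lit 4861332)) p15_20_3 (nat_lit 4) (nat_lit 1) (nat_lit 2) = true := by decide +kernel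
def p15_20_3_2 : pfC (piC [(nat_lit 39120232), (nat_lit 25510466), (nat_lit 19038091), (nat_lit 12801343)] (nat_lit 4861332)) p15_20_3 (nat_lit 4) (nat_lit 2) (nat_lit 3) = true := by decide +kernel
def p15_20_3_3 : pfC (piC [(nat_lit 39120232), (nat_lit 25510466), (nat_lit 19038091), (nat_lit 12801343)] (nat_lit 4861332)) p15_20_3 (nat_lit 4) (nat_lit 3) (nat_lit 4) = true := by decide +kernel
def p15_20_3_4 : pfC (piC [(nat_lit 39120232), (nat_lit 25510466), (nat_lit 19038091), (nat_lit 12801343)] (nat_lit 4861332)) p15_20_3 (nat_lit 4) (nat_lit 4) (nat_lit 5) = true := by decide +kernel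
def p15_20_3_5 : pfC (piC [(nat_lit 39120232), (nat_lit 25510466), (nat_lit 19038091), (nat_lit 12801343)] (nat_lit 4861332)) p15_20_3 (nat_lit 4) (nat_lit 5) (nat_lit 6) = true := by decide +kernel
def p15_20_3_6 : pfC (piC [(nat_lit 39120232), (nat_lit 25510466), (nat_lit 19038091), (nat_lit 12801343)] (nat_lit 4861332)) p15_20_3 (nat_lit 4) (nat_lit 6) (nat_lit 7) = true := by decide +kernel
def p15_20_3_7 : pfC (piC [(nat_lit 39120232), (nat_lit 25510466), (nat_lit 19038091), (nat_lit 12801343)] (nat_lit 4861332)) p15_20_3 (nat_lit 4) (nat_lit 7) (nat_lit 8) = true := by decide +kernel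
def p15_20_3_8 : pfC (piC [(nat_lit 39120232), (nat_lit 25510466), (nat_lit 19038091), (nat_lit 12801343)] (nat_lit 4861332)) p15_20_3 (nat_lit 4) (nat_lit 8) (nat_lit 9) = true := by decide +kernel
def p15_20_3_9 : pfC (piC [(nat_lit 39120232), (nat_lit 25510466), (nat_lit 19038091), (nat_lit 12801343)] (nat_lit 4861332)) p15_20_3 (nat_lit 4) (nat_lit 9) (nat_lit 10) = true := by decide +kernel
def p15_20_3_10 : pfC (piC [(nat_lit 39120232), (nat_lit 25510466), (nat_lit 19038091), (nat_lit 12801343)] (nat_lit 4861332)) p15_20_3 (nat_lit 4) (nat_lit 10) (nat_lit 11) = true := by decide +kernel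
def p15_20_3_11 : pfC (piC [(nat_lit 39120232), (nat_lit 25510466), (nat_lit 19038091), (nat_lit 12801343)] (nat_lit 4861332)) p15_20_3 (nat_lit 4) (nat_lit 11) (nat_lit 12) = true := by decide +kernel
def p15_20_3_12 : pfC (piC [(nat_lit 39120232), (nat_lit 25510466), (nat_lit 19038091), (nat_lit 12801343)] (nat_lit 4861332)) p15_20_3 (nat_lit 4) (nat_lit 12) (nat_lit 13) = true := by decide +kernel
def p15_20_3_13 : pfC (piC [(nat_lit 39120232), (nat_lit 25510466), (nat_lit 19038091), (nat_lit 12801343)] (nat_lit 4861332)) p15_20_3 (nat_lit 4) (nat_lit 13) (nat_lit 14) = true := by decide +kernel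
def p15_20_3_14 : pfC (piC [(nat_lit 39120232), (nat_lit 25510466), (nat_lit 19038091), (nat_lit 12801343)] (nat_lit 4861332)) p15_20_3 (nat_lit 4) (nat_lit 14) (nat_lit 15) = true := by decide +kernel
def p15_20_3_15 : pfC (piC [(nat_lit 39120232), (nat_lit 25510466), (nat_lit 19038091), (nat_lit 12801343)] (nat_lit 4861332)) p15_20_3 (nat_lit 4) (nat_lit 15) (nat_lit 16) = true := by decide +kernel
def p15_20_3_16 : pfC (piC [(nat_lit 39120232), (nat_lit 25510466), (nat_lit 19038091), (nat_lit 12801343)] (nat_lit 4861332)) p15_20_3 (nat_lit 4) (nat_lit 16) (nat_lit 17) = true := by decide +kernel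
def p15_20_3_17 : pfC (piC [(nat_lit 39120232), (nat_lit 25510466), (nat_lit 19038091), (nat_lit 12801343)] (nat_lit 4861332)) p15_20_3 (nat_lit 4) (nat_lit 17) (nat_lit 18) = true := by decide +kernel
def p15_20_3_18 : pfC (piC [(nat_lit 39120232), (nat_lit 25510466), (nat_lit 19038091), (nat_lit 12801343)] (nat_lit 4861332)) p15_20_3 (nat_lit 4) (nat_lit 18) (nat_lit 19) = true := by decide +kernel
def p15_20_3_19 : pfC (piC [(nat_lit 39120232), (nat_lit 25510466), (nat_lit 19038091), (nat_lit 12801343)] (nat_lit 4861332)) p15_20_3 (nat_lit 4) (nat_lit 19) (nat_lit 20) = true := by decide +kernel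
def p15_20_3_20 : pfC (piC [(nat_lit 39120232), (nat_lit 25510466), (nat_lit 19038091), (nat_lit 12801343)] (nat_lit 4861332)) p15_20_3 (nat_lit 4) (nat_lit 20) (nat_lit 21) = true := by decide +kernel
def p15_20_3_21 : pfC (piC [(nat_lit 39120232), (nat_lit 25510466), (nat_lit 19038091), (nat_lit 12801343)] (nat_lit 4861332)) p15_20_3 (nat_lit 4) (nat_lit 21) (nat_lit 22) = true := by decide +kernel
def p15_20_3_22 : pfC (piC [(nat_lit 39120232), (nat_lit 25510466), (nat_lit 19038091), (nat_lit 12801343)] (nat_lit 4861332)) p15_20_3 (nat_lit 4) (nat_lit 22) (nat_lit 23) = true := by decide +kernel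
def p15_20_3_23 : pfC (piC [(nat_lit 39120232), (nat_lit 25510466), (nat_lit 19038091), (nat_lit 12801343)] (nat_lit 4861332)) p15_20_3 (nat_lit 4) (nat_lit 23) (nat_lit 24) = true := by decide +kernel
def p15_20_3_24 : pfC (piC [(nat_lit 39120232), (nat_lit 25510466), (nat_lit 19038091), (nat_lit 12801343)] (nat_lit 4861332)) p15_20_3 (nat_lit 4) (nat_lit 24) (nat_lit 25) = true := by decide +kernel
def p15_20_3_25 : pfC (piC [(nat_lit 39120232), (nat_lit 25510466), (nat_lit 19038091), (nat_lit 12801343)] (nat_lit 4861332)) p15_20_3 (nat_lit 4) (nat_lit 25) (nat_lit 26) = true := by decide +kernel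
def p15_20_3_26 : pfC (piC [(nat_lit 39120232), (nat_lit 25510466), (nat_lit 19038091), (nat_lit 12801343)] (nat_lit 4861332)) p15_20_3 (nat_lit 4) (nat_lit 26) (nat_lit 27) = true := by decide +kernel
def p15_20_3_27 : pfC (piC [(nat_lit 39120232), (nat_lit 25510466), (nat_lit 19038091), (nat_lit 12801343)] (nat_lit 4861332)) p15_20_3 (nat_lit 4) (nat_lit 27) (nat_lit 28) = true := by decide +kernel
def p15_20_3_28 : pfC (piC [(nat_lit 39120232), (nat_lit 25510466), (nat_lit 19038091), (nat_lit 12801343)] (nat_lit 4861332)) p15_20_3 (nat_lit 4) (nat_lit 28) (nat_lit 29) = true := by decide +kernel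
def p15_20_3_29 : pfC (piC [(nat_lit 39120232), (nat_lit 25510466), (nat_lit 19038091), (nat_lit 12801343)] (nat_lit 4861332)) p15_20_3 (nat_lit 4) (nat_lit 29) (nat_lit 30) = true := by decide +kernel
def p15_20_3_30 : pfC (piC [(nat_lit 39120232), (nat_lit 25510466), (nat_lit 19038091), (nat_lit 12801343)] (nat_lit 4861332)) p15_20_3 (nat_lit 4) (nat_lit 30) (nat_lit 31) = true := by decide +kernel
def p15_20_3_31 : pfC (piC [(nat_lit 39120232), (nat_lit 25510466), (nat_lit 19038091), (nat_lit 12801343)] (nat_lit 4861332)) p15_20_3 (nat_lit 4) (nat_lit 31) (nat_lit 32) = true := by decide +kernel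
def p15_20_3_32 : pfC (piC [(nat_lit 39120232), (nat_lit 25510466), (nat_lit 19038091), (nat_lit 12801343)] (nat_lit 4861332)) p15_20_3 (nat_lit 4) (nat_lit 32) (nat_lit 33) = true := by decide +kernel
def p15_20_3_33 : pfC (piC [(nat_lit 39120232), (nat_lit 25510466), (nat_lit 19038091), (nat_lit 12801343)] (nat_lit 4861332)) p15_20_3 (nat_lit 4) (nat_lit 33) (nat_lit 34) = true := by decide +kernel
def p15_20_3_34 : pfC (piC [(nat_lit 39120232), (nat_lit 25510466), (nat_lit 19038091), (nat_lit 12801343)] (nat_lit 4861332)) p15_20_3 (nat_lit 4) (nat_lit 34) (nat_lit 35) = true := by decide +kernel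
def p15_20_3_35 : pfC (piC [(nat_lit 39120232), (nat_lit 25510466), (nat_lit 19038091), (nat_lit 12801343)] (nat_lit 4861332)) p15_20_3 (nat_lit 4) (nat_lit 35) (nat_lit 36) = true := by decide +kernel
def p15_20_3_36 : pfC (piC [(nat_lit 39120232), (nat_lit 25510466), (nat_lit 19038091), (nat_lit 12801343)] (nat_lit 4861332)) p15_20_3 (nat_lit 4) (nat_lit 36) (nat_lit 37) = true := by decide +kernel
def p15_20_3_37 : pfC (piC [(nat_lit 39120232), (nat_lit 25510466), (nat_lit 19038091), (nat_lit 12801343)] (nat_lit 4861332)) p15_20_3 (nat_lit 4) (nat_lit 37) (nat_lit 38) = true := by decide +kernel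
def p15_20_3_38 : pfC (piC [(nat_lit 39120232), (nat_lit 25510466), (nat_lit 19038091), (nat_lit 12801343)] (nat_lit 4861332)) p15_20_3 (nat_lit 4) (nat_lit 38) (nat_lit 39) = true := by decide +kernel
def p15_20_3_39 : pfC (piC [(nat_lit 39120232), (nat_lit 25510466), (nat_lit 19038091), (nat_lit 12801343)] (nat_lit 4861332)) p15_20_3 (nat_lit 4) (nat_lit 39) (nat_lit 40) = true := by decide +kernel
def p15_20_3_40 : pfC (piC [(nat_lit 39120232), (nat_lit 25510466), (nat_lit 19038091), (nat_lit 12801343)] (nat_lit 4861332)) p15_20_3 (nat_lit 4) (nat_lit 40) (nat_lit 41) = true := by decide +kernel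
def p15_20_3_41 : pfC (piC [(nat_lit 39120232), (nat_lit 25510466), (nat_lit 19038091), (nat_lit 12801343)] (nat_lit 4861332)) p15_20_3 (nat_lit 4) (nat_lit 41) (nat_lit 42) = true := by decide +kernel
def p15_20_3_42 : pfC (piC [(nat_lit 39120232), (nat_lit 25510466), (nat_lit 19038091), (nat_lit 12801343)] (nat_lit 4861332)) p15_20_3 (nat_lit 4) (nat_lit 42) (nat_lit 43) = true := by decide +kernel
def p15_20_3_43 : pfC (piC [(nat_lit 39120232), (nat_lit 25510466), (nat_lit 19038091), (nat_lit 12801343)] (nat_lit 4861332)) p15_20_3 (nat_lit 4) (nat_lit 43) (nat_lit 44) = true := by decide +kernel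
def p15_20_3_44 : pfC (piC [(nat_lit 39120232), (nat_lit 25510466), (nat_lit 19038091), (nat_lit 12801343)] (nat_lit 4861332)) p15_20_3 (nat_lit 4) (nat_lit 44) (nat_lit 45) = true := by decide +kernel
def p15_20_3_45 : pfC (piC [(nat_lit 39120232), (nat_lit 25510466), (nat_lit 19038091), (nat_lit 12801343)] (nat_lit 4861332)) p15_20_3 (nat_lit 4) (nat_lit 45) (nat_lit 46) = true := by decide +kernel
def p15_20_3_46 : pfC (piC [(nat_lit 39120232), (nat_lit 25510466), (nat_lit 19038091), (nat_lit 12801343)] (nat_lit 4861332)) p15_20_3 (nat_lit 4) (nat_lit 46) (nat_lit 47) = true := by decide +kernel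
def p15_20_3_47 : pfC (piC [(nat_lit 39120232), (nat_lit 25510466), (nat_lit 19038091), (nat_lit 12801343)] (nat_lit 4861332)) p15_20_3 (nat_lit 4) (nat_lit 47) (nat_lit 48) = true := by decide +kernel
def p15_20_3_48 : pfC (piC [(nat_lit 39120232), (nat_lit 25510466), (nat_lit 19038091), (nat_lit 12801343)] (nat_lit 4861332)) p15_20_3 (nat_lit 4) (nat_lit 48) (nat_lit 49) = true := by decide +kernel
def p15_20_3_49 : pfC (piC [(nat_lit 39120232), (nat_lit 25510466), (nat_lit 19038091), (nat_lit 12801343)] (nat_lit 4861332)) p15_20_3 (nat_lit 4) (nat_lit 49) (nat_lit 50) = true := by decide +kernel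
def p15_20_3_50 : pfC (piC [(nat_lit 39120232), (nat_lit 25510466), (nat_lit 19038091), (nat_lit 12801343)] (nat_lit 4861332)) p15_20_3 (nat_lit 4) (nat_lit 50) (nat_lit 51) = true := by decide +kernel
def p15_20_3_51 : pfC (piC [(nat_lit 39120232), (nat_lit 25510466), (nat_lit 19038091), (nat_lit 12801343)] (nat_lit 4861332)) p15_20_3 (nat_lit 4) (nat_lit 51) (nat_lit 52) = true := by decide +kernel
def p15_20_3_52 : pfC (piC [(nat_lit 39120232), (nat_lit 25510466), (nat_lit 19038091), (nat_lit 12801343)] (nat_lit 4861332)) p15_20_3 (nat_lit 4) (nat_lit 52) (nat_lit 53) = true := by decide +kernel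
def p15_20_3_53 : pfC (piC [(nat_lit 39120232), (nat_lit 25510466), (nat_lit 19038091), (nat_lit 12801343)] (nat_lit 4861332)) p15_20_3 (nat_lit 4) (nat_lit 53) (nat_lit 54) = true := by decide +kernel
def p15_20_3_54 : pfC (piC [(nat_lit 39120232), (nat_lit 25510466), (nat_lit 19038091), (nat_lit 12801343)] (nat_lit 4861332)) p15_20_3 (nat_lit 4) (nat_lit 54) (nat_lit 55) = true := by decide +kernel
def p15_20_3_55 : pfC (piC [(nat_lit 39120232), (nat_lit 25510466), (nat_lit 19038091), (nat_lit 12801343)] (nat_lit 4861332)) p15_20_3 (nat_lit 4) (nat_lit 55) (nat_lit 56) = true := by decide +kernel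
def p15_20_3_56 : pfC (piC [(nat_lit 39120232), (nat_lit 25510466), (nat_lit 19038091), (nat_lit 12801343)] (nat_lit 4861332)) p15_20_3 (nat_lit 4) (nat_lit 56) (nat_lit 57) = true := by decide +kernel
def p15_20_3_57 : pfC (piC [(nat_lit 39120232), (nat_lit 25510466), (nat_lit 19038091), (nat_lit 12801343)] (nat_lit 4861332)) p15_20_3 (nat_lit 4) (nat_lit 57) (nat_lit 58) = true := by decide +kernel
def p15_20_3_58 : pfC (piC [(nat_lit 39120232), (nat_lit 25510466), (nat_lit 19038091), (nat_lit 12801343)] (nat_lit 4861332)) p15_20_3 (nat_lit 4) (nat_lit 58) (nat_lit 59) = true := by decide +kernel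
def p15_20_3_59 : pfC (piC [(nat_lit 39120232), (nat_lit 25510466), (nat_lit 19038091), (nat_lit 12801343)] (nat_lit 4861332)) p15_20_3 (nat_lit 4) (nat_lit 59) (nat_lit 60) = true := by decide +kernel
def p15_20_3_60 : pfC (piC [(nat_lit 39120232), (nat_lit 25510466), (nat_lit 19038091), (nat_lit 12801343)] (nat_lit 4861332)) p15_20_3 (nat_lit 4) (nat_lit 60) (nat_lit 61) = true := by decide +kernel
def p15_20_3_61 : pfC (piC [(nat_lit 39120232), (nat_lit 25510466), (nat_lit 19038091), (nat_lit 12801343)] (nat_lit 4861332)) p15_20_3 (nat_lit 4) (nat_lit 61) (nat_lit 62) = true := by decide +kernel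
def p15_20_3_62 : pfC (piC [(nat_lit 39120232), (nat_lit 25510466), (nat_lit 19038091), (nat_lit 12801343)] (nat_lit 4861332)) p15_20_3 (nat_lit 4) (nat_lit 62) (nat_lit 63) = true := by decide +kernel
def p15_20_3_63 : pfC (piC [(nat_lit 39120232), (nat_lit 25510466), (nat_lit 19038091), (nat_lit 12801343)] (nat_lit 4861332)) p15_20_3 (nat_lit 4) (nat_lit 63) (nat_lit 64) = true := by decide +kernel
def p15_20_3_64 : pfC (piC [(nat_lit 39120232), (nat_lit 25510466), (nat_lit 19038091), (nat_lit 12801343)] (nat_lit 4861332)) p15_20_3 (nat_lit 4) (nat_lit 64) (nat_lit 65) = true := by decide +kernel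
def p15_20_3_65 : pfC (piC [(nat_lit 39120232), (nat_lit 25510466), (nat_lit 19038091), (nat_lit 12801343)] (nat_lit 4861332)) p15_20_3 (nat_lit 4) (nat_lit 65) (nat_lit 66) = true := by decide +kernel
def p15_20_3_66 : pfC (piC [(nat_lit 39120232), (nat_lit 25510466), (nat_lit 19038091), (nat_lit 12801343)] (nat_lit 4861332)) p15_20_3 (nat_lit 4) (nat_lit 66) (nat_lit 67) = true := by decide +kernel
def p15_20_3_67 : pfC (piC [(nat_lit 39120232), (nat_lit 25510466), (nat_lit 19038091), (nat_lit 12801343)] (nat_lit 4861332)) p15_20_3 (nat_lit 4) (nat_lit 67) (nat_lit 68) = true := by decide +kernel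
def p15_20_3_68 : pfC (piC [(nat_lit 39120232), (nat_lit 25510466), (nat_lit 19038091), (nat_lit 12801343)] (nat_lit 4861332)) p15_20_3 (nat_lit 4) (nat_lit 68) (nat_lit 69) = true := by decide +kernel
def p15_20_3_69 : pfC (piC [(nat_lit 39120232), (nat_lit 25510466), (nat_lit 19038091), (nat_lit 12801343)] (nat_lit 4861332)) p15_20_3 (nat_lit 4) (nat_lit 69) (nat_lit 70) = true := by decide +kernel
def p15_20_3_70 : pfC (piC [(nat_lit 39120232), (nat_lit 25510466), (nat_lit 19038091), (nat_lit 12801343)] (nat_lit 4861332)) p15_20_3 (nat_lit 4) (nat_lit 70) (nat_lit 71) = true := by decide +kernel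
def p15_20_3_71 : pfC (piC [(nat_lit 39120232), (nat_lit 25510466), (nat_lit 19038091), (nat_lit 12801343)] (nat_lit 4861332)) p15_20_3 (nat_lit 4) (nat_lit 71) (nat_lit 72) = true := by decide +kernel
def p15_20_3_72 : pfC (piC [(nat_lit 39120232), (nat_lit 25510466), (nat_lit 19038091), (nat_lit 12801343)] (nat_lit 4861332)) p15_20_3 (nat_lit 4) (nat_lit 72) (nat_lit 73) = true := by decide +kernel
def p15_20_3_73 : pfC (piC [(nat_lit 39120232), (nat_lit 25510466), (nat_lit 19038091), (nat_lit 12801343)] (nat_lit 4861332)) p15_20_3 (nat_lit 4) (nat_lit 73) (nat_lit 74) = true := by decide +kernel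
def p15_20_3_74 : pfC (piC [(nat_lit 39120232), (nat_lit 25510466), (nat_lit 19038091), (nat_lit 12801343)] (nat_lit 4861332)) p15_20_3 (nat_lit 4) (nat_lit 74) (nat_lit 75) = true := by decide +kernel
def p15_20_3_75 : pfC (piC [(nat_lit 39120232), (nat_lit 25510466), (nat_lit 19038091), (nat_lit 12801343)] (nat_lit 4861332)) p15_20_3 (nat_lit 4) (nat_lit 75) (nat_lit 76) = true := by decide +kernel
def p15_20_3_76 : pfC (piC [(nat_lit 39120232), (nat_lit 25510466), (nat_lit 19038091), (nat_lit 12801343)] (nat_lit 4861332)) p15_20_3 (nat_lit 4) (nat_lit 76) (nat_lit 77) = true := by decide +kernel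
def p15_20_3_77 : pfC (piC [(nat_lit 39120232), (nat_lit 25510466), (nat_lit 19038091), (nat_lit 12801343)] (nat_lit 4861332)) p15_20_3 (nat_lit 4) (nat_lit 77) (nat_lit 78) = true := by decide +kernel
def p15_20_3_78 : pfC (piC [(nat_lit 39120232), (nat_lit 25510466), (nat_lit 19038091), (nat_lit 12801343)] (nat_lit 4861332)) p15_20_3 (nat_lit 4) (nat_lit 78) (nat_lit 79) = true := by decide +kernel
def p15_20_3_79 : pfC (piC [(nat_lit 39120232), (nat_lit 25510466), (nat_lit 19038091), (nat_lit 12801343)] (nat_lit 4861332)) p15_20_3 (nat_lit 4) (nat_lit 79) (nat_lit 80) = true := by decide +kernel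
def p15_20_3_80 : pfC (piC [(nat_lit 39120232), (nat_lit 25510466), (nat_lit 19038091), (nat_lit 12801343)] (nat_lit 4861332)) p15_20_3 (nat_lit 4) (nat_lit 80) (nat_lit 81) = true := by decide +kernel
def p15_20_3_81 : pfC (piC [(nat_lit 39120232), (nat_lit 25510466), (nat_lit 19038091), (nat_lit 12801343)] (nat_lit 4861332)) p15_20_3 (nat_lit 4) (nat_lit 81) (nat_lit 82) = true := by decide +kernel
def p15_20_3_82 : pfC (piC [(nat_lit 39120232), (nat_lit 25510466), (nat_lit 19038091), (nat_lit 12801343)] (nat_lit 4861332)) p15_20_3 (nat_lit 4) (nat_lit 82) (nat_lit 83) = true := by decide +kernel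
def p15_20_3_83 : pfC (piC [(nat_lit 39120232), (nat_lit 25510466), (nat_lit 19038091), (nat_lit 12801343)] (nat_lit 4861332)) p15_20_3 (nat_lit 4) (nat_lit 83) (nat_lit 84) = true := by decide +kernel
def p15_20_3_84 : pfC (piC [(nat_lit 39120232), (nat_lit 25510466), (nat_lit 19038091), (nat_lit 12801343)] (nat_lit 4861332)) p15_20_3 (nat_lit 4) (nat_lit 84) (nat_lit 85) = true := by decide +kernel
def p15_20_3_85 : pfC (piC [(nat_lit 39120232), (nat_lit 25510466), (nat_lit 19038091), (nat_lit 12801343)] (nat_lit 4861332)) p15_20_3 (nat_lit 4) (nat_lit 85) (nat_lit 86) = true := by decide +kernel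
def p15_20_3_86 : pfC (piC [(nat_lit 39120232), (nat_lit 25510466), (nat_lit 19038091), (nat_lit 12801343)] (nat_lit 4861332)) p15_20_3 (nat_lit 4) (nat_lit 86) (nat_lit 87) = true := by decide +kernel
def p15_20_3_87 : pfC (piC [(nat_lit 39120232), (nat_lit 25510466), (nat_lit 19038091), (nat_lit 12801343)] (nat_lit 4861332)) p15_20_3 (nat_lit 4) (nat_lit 87) (nat_lit 88) = true := by decide +kernel
def p15_20_3_88 : pfC (piC [(nat_lit 39120232), (nat_lit 25510466), (nat_lit 19038091), (nat_lit 12801343)] (nat_lit 4861332)) p15_20_3 (nat_lit 4) (nat_lit 88) (nat_lit 89) = true := by decide +kernel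
def p15_20_3_89 : pfC (piC [(nat_lit 39120232), (nat_lit 25510466), (nat_lit 19038091), (nat_lit 12801343)] (nat_lit 4861332)) p15_20_3 (nat_lit 4) (nat_lit 89) (nat_lit 90) = true := by decide +kernel
def p15_20_3_90 : pfC (piC [(nat_lit 39120232), (nat_lit 25510466), (nat_lit 19038091), (nat_lit 12801343)] (nat_lit 4861332)) p15_20_3 (nat_lit 4) (nat_lit 90) (nat_lit 91) = true := by decide +kernel
def p15_20_3_91 : pfC (piC [(nat_lit 39120232), (nat_lit 25510466), (nat_lit 19038091), (nat_lit 12801343)] (nat_lit 4861332)) p15_20_3 (nat_lit 4) (nat_lit 91) (nat_lit 92) = true := by decide +kernel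
def p15_20_3_92 : pfC (piC [(nat_lit 39120232), (nat_lit 25510466), (nat_lit 19038091), (nat_lit 12801343)] (nat_lit 4861332)) p15_20_3 (nat_lit 4) (nat_lit 92) (nat_lit 93) = true := by decide +kernel
def p15_20_3_93 : pfC (piC [(nat_lit 39120232), (nat_lit 25510466), (nat_lit 19038091), (nat_lit 12801343)] (nat_lit 4861332)) p15_20_3 (nat_lit 4) (nat_lit 93) (nat_lit 94) = true := by decide +kernel
def p15_20_3_94 : pfC (piC [(nat_lit 39120232), (nat_lit 25510466), (nat_lit 19038091), (nat_lit 12801343)] (nat_lit 4861332)) p15_20_3 (nat_lit 4) (nat_lit 94) (nat_lit 95) = true := by decide +kernel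
def p15_20_3_95 : pfC (piC [(nat_lit 39120232), (nat_lit 25510466), (nat_lit 19038091), (nat_lit 12801343)] (nat_lit 4861332)) p15_20_3 (nat_lit 4) (nat_lit 95) (nat_lit 96) = true := by decide +kernel
def p15_20_3_96 : pfC (piC [(nat_lit 39120232), (nat_lit 25510466), (nat_lit 19038091), (nat_lit 12801343)] (nat_lit 4861332)) p15_20_3 (nat_lit 4) (nat_lit 96) (nat_lit 97) = true := by decide +kernel
def p15_20_3_97 : pfC (piC [(nat_lit 39120232), (nat_lit 25510466), (nat_lit 19038091), (nat_lit 12801343)] (nat_lit 4861332)) p15_20_3 (nat_lit 4) (nat_lit 97) (nat_lit 98) = true := by decide +kernel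
def p15_20_3_98 : pfC (piC [(nat_lit 39120232), (nat_lit 25510466), (nat_lit 19038091), (nat_lit 12801343)] (nat_lit 4861332)) p15_20_3 (nat_lit 4) (nat_lit 98) (nat_lit 99) = true := by decide +kernel
def p15_20_3_99 : pfC (piC [(nat_lit 39120232), (nat_lit 25510466), (nat_lit 19038091), (nat_lit 12801343)] (nat_lit 4861332)) p15_20_3 (nat_lit 4) (nat_lit 99) (nat_lit 100) = true := by decide +kernel
def p15_20_3_100 : pfC (piC [(nat_lit 39120232), (nat_lit 25510466), (nat_lit 19038091), (nat_lit 12801343)] (nat_lit 4861332)) p15_20_3 (nat_lit 4) (nat_lit 100) (nat_lit 101) = true := by decide +kernel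
def p15_20_3_101 : pfC (piC [(nat_lit 39120232), (nat_lit 25510466), (nat_lit 19038091), (nat_lit 12801343)] (nat_lit 4861332)) p15_20_3 (nat_lit 4) (nat_lit 101) (nat_lit 102) = true := by decide +kernel
def p15_20_3_102 : pfC (piC [(nat_lit 39120232), (nat_lit 25510466), (nat_lit 19038091), (nat_lit 12801343)] (nat_lit 4861332)) p15_20_3 (nat_lit 4) (nat_lit 102) (nat_lit 103) = true := by decide +kernel
def p15_20_3_103 : pfC (piC [(nat_lit 39120232), (nat_lit 25510466), (nat_lit 19038091), (nat_lit 12801343)] (nat_lit 4861332)) p15_20_3 (nat_lit 4) (nat_lit 103) (nat_lit 104) = true := by decide +kernel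
def p15_20_3_104 : pfC (piC [(nat_lit 39120232), (nat_lit 25510466), (nat_lit 19038091), (nat_lit 12801343)] (nat_lit 4861332)) p15_20_3 (nat_lit 4) (nat_lit 104) (nat_lit 105) = true := by decide +kernel
def p15_20_3_105 : pfC (piC [(nat_lit 39120232), (nat_lit 25510466), (nat_lit 19038091), (nat_lit 12801343)] (nat_lit 4861332)) p15_20_3 (nat_lit 4) (nat_lit 105) (nat_lit 106) = true := by decide +kernel
def p15_20_3_106 : pfC (piC [(nat_lit 39120232), (nat_lit 25510466), (nat_lit 19038091), (nat_lit 12801343)] (nat_lit 4861332)) p15_20_3 (nat_lit 4) (nat_lit 106) (nat_lit 107) = true := by decide +kernel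
def p15_20_3_107 : pfC (piC [(nat_lit 39120232), (nat_lit 25510466), (nat_lit 19038091), (nat_lit 12801343)] (nat_lit 4861332)) p15_20_3 (nat_lit 4) (nat_lit 107) (nat_lit 108) = true := by decide +kernel
def p15_20_3_108 : pfC (piC [(nat_lit 39120232), (nat_lit 25510466), (nat_lit 19038091), (nat_lit 12801343)] (nat_lit 4861332)) p15_20_3 (nat_lit 4) (nat_lit 108) (nat_lit 109) = true := by decide +kernel
def p15_20_3_109 : pfC (piC [(nat_lit 39120232), (nat_lit 25510466), (nat_lit 19038091), (nat_lit 12801343)] (nat_lit 4861332)) p15_20_3 (nat_lit 4) (nat_lit 109) (nat_lit 110) = true := by decide +kernel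
def p15_20_3_110 : pfC (piC [(nat_lit 39120232), (nat_lit 25510466), (nat_lit 19038091), (nat_lit 12801343)] (nat_lit 4861332)) p15_20_3 (nat_lit 4) (nat_lit 110) (nat_lit 111) = true := by decide +kernel
def p15_20_3_111 : pfC (piC [(nat_lit 39120232), (nat_lit 25510466), (nat_lit 19038091), (nat_lit 12801343)] (nat_lit 4861332)) p15_20_3 (nat_lit 4) (nat_lit 111) (nat_lit 112) = true := by decide +kernel
def p15_20_3_112 : pfC (piC [(nat_lit 39120232), (nat_lit 25510466), (nat_lit 19038091), (nat_lit 12801343)] (nat_lit 4861332)) p15_20_3 (nat_lit 4) (nat_lit 112) (nat_lit 113) = true := by decide +kernel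
def p15_20_3_113 : pfC (piC [(nat_lit 39120232), (nat_lit 25510466), (nat_lit 19038091), (nat_lit 12801343)] (nat_lit 4861332)) p15_20_3 (nat_lit 4) (nat_lit 113) (nat_lit 114) = true := by decide +kernel
def p15_20_3_114 : pfC (piC [(nat_lit 39120232), (nat_lit 25510466), (nat_lit 19038091), (nat_lit 12801343)] (nat_lit 4861332)) p15_20_3 (nat_lit 4) (nat_lit 114) (nat_lit 115) = true := by decide +kernel
def p15_20_3_115 : pfC (piC [(nat_lit 39120232), (nat_lit 25510466), (nat_lit 19038091), (nat_lit 12801343)] (nat_lit 4861332)) p15_20_3 (nat_lit 4) (nat_lit 115) (nat_lit 116) = true := by decide +kernel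
def p15_20_3_116 : pfC (piC [(nat_lit 39120232), (nat_lit 25510466), (nat_lit 19038091), (nat_lit 12801343)] (nat_lit 4861332)) p15_20_3 (nat_lit 4) (nat_lit 116) (nat_lit 117) = true := by decide +kernel
def p15_20_3_117 : pfC (piC [(nat_lit 39120232), (nat_lit 25510466), (nat_lit 19038091), (nat_lit 12801343)] (nat_lit 4861332)) p15_20_3 (nat_lit 4) (nat_lit 117) (nat_lit 118) = true := by decide +kernel
def p15_20_3_118 : pfC (piC [(nat_lit 39120232), (nat_lit 25510466), (nat_lit 19038091), (nat_lit 12801343)] (nat_lit 4861332)) p15_20_3 (nat_lit 4) (nat_lit 118) (nat_lit 119) = true := by decide +kernel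
def p15_20_3_119 : pfC (piC [(nat_lit 39120232), (nat_lit 25510466), (nat_lit 19038091), (nat_lit 12801343)] (nat_lit 4861332)) p15_20_3 (nat_lit 4) (nat_lit 119) (nat_lit 120) = true := by decide +kernel
def p15_20_3_120 : pfC (piC [(nat_lit 39120232), (nat_lit 25510466), (nat_lit 19038091), (nat_lit 12801343)] (nat_lit 4861332)) p15_20_3 (nat_lit 4) (nat_lit 120) (nat_lit 121) = true := by decide +kernel
def p15_20_3_121 : pfC (piC [(nat_lit 39120232), (nat_lit 25510466), (nat_lit 19038091), (nat_lit 12801343)] (nat_lit 4861332)) p15_20_3 (nat_lit 4) (nat_lit 121) (nat_lit 122) = true := by decide +kernel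
def p15_20_3_122 : pfC (piC [(nat_lit 39120232), (nat_lit 25510466), (nat_lit 19038091), (nat_lit 12801343)] (nat_lit 4861332)) p15_20_3 (nat_lit 4) (nat_lit 122) (nat_lit 123) = true := by decide +kernel
def p15_20_3_123 : pfC (piC [(nat_lit 39120232), (nat_lit 25510466), (nat_lit 19038091), (nat_lit 12801343)] (nat_lit 4861332)) p15_20_3 (nat_lit 4) (nat_lit 123) (nat_lit 124) = true := by decide +kernel
def p15_20_3_124 : pfC (piC [(nat_lit 39120232), (nat_lit 25510466), (nat_lit 19038091), (nat_lit 12801343)] (nat_lit 4861332)) p15_20_3 (nat_lit 4) (nat_lit 124) (nat_lit 125) = true := by decide +kernel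
def p15_20_3_125 : pfC (piC [(nat_lit 39120232), (nat_lit 25510466), (nat_lit 19038091), (nat_lit 12801343)] (nat_lit 4861332)) p15_20_3 (nat_lit 4) (nat_lit 125) (nat_lit 126) = true := by decide +kernel
def p15_20_3_126 : pfC (piC [(nat_lit 39120232), (nat_lit 25510466), (nat_lit 19038091), (nat_lit 12801343)] (nat_lit 4861332)) p15_20_3 (nat_lit 4) (nat_lit 126) (nat_lit 127) = true := by decide +kernel
def p15_20_3_127 : pfC (piC [(nat_lit 39120232), (nat_lit 25510466), (nat_lit 19038091), (nat_lit 12801343)] (nat_lit 4861332)) p15_20_3 (nat_lit 4) (nat_lit 127) (nat_lit 128) = true := by decide +kernel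
def p15_20_3_128 : pfC (piC [(nat_lit 39120232), (nat_lit 25510466), (nat_lit 19038091), (nat_lit 12801343)] (nat_lit 4861332)) p15_20_3 (nat_lit 4) (nat_lit 128) (nat_lit 129) = true := by decide +kernel
def p15_20_3_129 : pfC (piC [(nat_lit 39120232), (nat_lit 25510466), (nat_lit 19038091), (nat_lit 12801343)] (nat_lit 4861332)) p15_20_3 (nat_lit 4) (nat_lit 129) (nat_lit 130) = true := by decide +kernel
def p15_20_3_130 : pfC (piC [(nat_lit 39120232), (nat_lit 25510466), (nat_lit 19038091), (nat_lit 12801343)] (nat_lit 4861332)) p15_20_3 (nat_lit 4) (nat_lit 130) (nat_lit 131) = true := by decide +kernel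
def p15_20_3_131 : pfC (piC [(nat_lit 39120232), (nat_lit 25510466), (nat_lit 19038091), (nat_lit 12801343)] (nat_lit 4861332)) p15_20_3 (nat_lit 4) (nat_lit 131) (nat_lit 132) = true := by decide +kernel
def p15_20_3_132 : pfC (piC [(nat_lit 39120232), (nat_lit 25510466), (nat_lit 19038091), (nat_lit 12801343)] (nat_lit 4861332)) p15_20_3 (nat_lit 4) (nat_lit 132) (nat_lit 133) = true := by decide +kernel
def p15_20_3_133 : pfC (piC [(nat_lit 39120232), (nat_lit 25510466), (nat_lit 19038091), (nat_lit 12801343)] (nat_lit 4861332)) p15_20_3 (nat_lit 4) (nat_lit 133) (nat_lit 134) = true := by decide +kernel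
def p15_20_3_134 : pfC (piC [(nat_lit 39120232), (nat_lit 25510466), (nat_lit 19038091), (nat_lit 12801343)] (nat_lit 4861332)) p15_20_3 (nat_lit 4) (nat_lit 134) (nat_lit 135) = true := by decide +kernel
def p15_20_3_135 : pfC (piC [(nat_lit 39120232), (nat_lit 25510466), (nat_lit 19038091), (nat_lit 12801343)] (nat_lit 4861332)) p15_20_3 (nat_lit 4) (nat_lit 135) (nat_lit 136) = true := by decide +kernel
def p15_20_3_136 : pfC (piC [(nat_lit 39120232), (nat_lit 25510466), (nat_lit 19038091), (nat_lit 12801343)] (nat_lit 4861332)) p15_20_3 (nat_lit 4) (nat_lit 136) (nat_lit 137) = true := by decide +kernel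
def p15_20_3_137 : pfC (piC [(nat_lit 39120232), (nat_lit 25510466), (nat_lit 19038091), (nat_lit 12801343)] (nat_lit 4861332)) p15_20_3 (nat_lit 4) (nat_lit 137) (nat_lit 138) = true := by decide +kernel
def p15_20_3_138 : pfC (piC [(nat_lit 39120232), (nat_lit 25510466), (nat_lit 19038091), (nat_lit 12801343)] (nat_lit 4861332)) p15_20_3 (nat_lit 4) (nat_lit 138) (nat_lit 139) = true := by decide +kernel
def p15_20_3_139 : pfC (piC [(nat_lit 39120232), (nat_lit 25510466), (nat_lit 19038091), (nat_lit 12801343)] (nat_lit 4861332)) p15_20_3 (nat_lit 4) (nat_lit 139) (nat_lit 140) = true := by decide +kernel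
def p15_20_3_140 : pfC (piC [(nat_lit 39120232), (nat_lit 25510466), (nat_lit 19038091), (nat_lit 12801343)] (nat_lit 4861332)) p15_20_3 (nat_lit 4) (nat_lit 140) (nat_lit 141) = true := by decide +kernel
def p15_20_3_141 : pfC (piC [(nat_lit 39120232), (nat_lit 25510466), (nat_lit 19038091), (nat_lit 12801343)] (nat_lit 4861332)) p15_20_3 (nat_lit 4) (nat_lit 141) (nat_lit 142) = true := by decide +kernel
def p15_20_3_142 : pfC (piC [(nat_lit 39120232), (nat_lit 25510466), (nat_lit 19038091), (nat_lit 12801343)] (nat_lit 4861332)) p15_20_3 (nat_lit 4) (nat_lit 142) (nat_lit 143) = true := by decide +kernel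
def p15_20_3_143 : pfC (piC [(nat_lit 39120232), (nat_lit 25510466), (nat_lit 19038091), (nat_lit 12801343)] (nat_lit 4861332)) p15_20_3 (nat_lit 4) (nat_lit 143) (nat_lit 144) = true := by decide +kernel
def p15_20_3_144 : pfC (piC [(nat_lit 39120232), (nat_lit 25510466), (nat_lit 19038091), (nat_lit 12801343)] (nat_lit 4861332)) p15_20_3 (nat_lit 4) (nat_lit 144) (nat_lit 145) = true := by decide +kernel
def p15_20_3_145 : pfC (piC [(nat_lit 39120232), (nat_lit 25510466), (nat_lit 19038091), (nat_lit 12801343)] (nat_lit 4861332)) p15_20_3 (nat_lit 4) (nat_lit 145) (nat_lit 146) = true := by decide +kernel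
def p15_20_3_146 : pfC (piC [(nat_lit 39120232), (nat_lit 25510466), (nat_lit 19038091), (nat_lit 12801343)] (nat_lit 4861332)) p15_20_3 (nat_lit 4) (nat_lit 146) (nat_lit 147) = true := by decide +kernel
def p15_20_3_147 : pfC (piC [(nat_lit 39120232), (nat_lit 25510466), (nat_lit 19038091), (nat_lit 12801343)] (nat_lit 4861332)) p15_20_3 (nat_lit 4) (nat_lit 147) (nat_lit 148) = true := by decide +kernel
def p15_20_3_148 : pfC (piC [(nat_lit 39120232), (nat_lit 25510466), (nat_lit 19038091), (nat_lit 12801343)] (nat_lit 4861332)) p15_20_3 (nat_lit 4) (nat_lit 148) (nat_lit 149) = true := by decide +kernel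
def p15_20_3_149 : pfC (piC [(nat_lit 39120232), (nat_lit 25510466), (nat_lit 19038091), (nat_lit 12801343)] (nat_lit 4861332)) p15_20_3 (nat_lit 4) (nat_lit 149) (nat_lit 150) = true := by decide +kernel
def p15_20_3_150 : pfC (piC [(nat_lit 39120232), (nat_lit 25510466), (nat_lit 19038091), (nat_lit 12801343)] (nat_lit 4861332)) p15_20_3 (nat_lit 4) (nat_lit 150) (nat_lit 151) = true := by decide +kernel
def p15_20_3_151 : pfC (piC [(nat_lit 39120232), (nat_lit 25510466), (nat_lit 19038091), (nat_lit 12801343)] (nat_lit 4861332)) p15_20_3 (nat_lit 4) (nat_lit 151) (nat_lit 152) = true := by decide +kernel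
def p15_20_3_152 : pfC (piC [(nat_lit 39120232), (nat_lit 25510466), (nat_lit 19038091), (nat_lit 12801343)] (nat_lit 4861332)) p15_20_3 (nat_lit 4) (nat_lit 152) (nat_lit 153) = true := by decide +kernel
def p15_20_3_153 : pfC (piC [(nat_lit 39120232), (nat_lit 25510466), (nat_lit 19038091), (nat_lit 12801343)] (nat_lit 4861332)) p15_20_3 (nat_lit 4) (nat_lit 153) (nat_lit 154) = true := by decide +kernel
def p15_20_3_154 : pfC (piC [(nat_lit 39120232), (nat_lit 25510466), (nat_lit 19038091), (nat_lit 12801343)] (nat_lit 4861332)) p15_20_3 (nat_lit 4) (nat_lit 154) (nat_lit 155) = true := by decide +kernel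
def p15_20_3_155 : pfC (piC [(nat_lit 39120232), (nat_lit 25510466), (nat_lit 19038091), (nat_lit 12801343)] (nat_lit 4861332)) p15_20_3 (nat_lit 4) (nat_lit 155) (nat_lit 156) = true := by decide +kernel
def p15_20_3_156 : pfC (piC [(nat_lit 39120232), (nat_lit 25510466), (nat_lit 19038091), (nat_lit 12801343)] (nat_lit 4861332)) p15_20_3 (nat_lit 4) (nat_lit 156) (nat_lit 157) = true := by decide +kernel
def p15_20_3_157 : pfC (piC [(nat_lit 39120232), (nat_lit 25510466), (nat_lit 19038091), (nat_lit 12801343)] (nat_lit 4861332)) p15_20_3 (nat_lit 4) (nat_lit 157) (nat_lit 158) = true := by decide +kernel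
def p15_20_3_158 : pfC (piC [(nat_lit 39120232), (nat_lit 25510466), (nat_lit 19038091), (nat_lit 12801343)] (nat_lit 4861332)) p15_20_3 (nat_lit 4) (nat_lit 158) (nat_lit 159) = true := by decide +kernel
def p15_20_3_159 : pfC (piC [(nat_lit 39120232), (nat_lit 25510466), (nat_lit 19038091), (nat_lit 12801343)] (nat_lit 4861332)) p15_20_3 (nat_lit 4) (nat_lit 159) (nat_lit 160) = true := by decide +kernel
def p15_20_3_160 : pfC (piC [(nat_lit 39120232), (nat_lit 25510466), (nat_lit 19038091), (nat_lit 12801343)] (nat_lit 4861332)) p15_20_3 (nat_lit 4) (nat_lit 160) (nat_lit 161) = true := by decide +kernel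
def p15_20_3_161 : pfC (piC [(nat_lit 39120232), (nat_lit 25510466), (nat_lit 19038091), (nat_lit 12801343)] (nat_lit 4861332)) p15_20_3 (nat_lit 4) (nat_lit 161) (nat_lit 162) = true := by decide +kernel
def p15_20_3_162 : pfC (piC [(nat_lit 39120232), (nat_lit 25510466), (nat_lit 19038091), (nat_lit 12801343)] (nat_lit 4861332)) p15_20_3 (nat_lit 4) (nat_lit 162) (nat_lit 163) = true := by decide +kernel
def p15_20_3_163 : pfC (piC [(nat_lit 39120232), (nat_lit 25510466), (nat_lit 19038091), (nat_lit 12801343)] (nat_lit 4861332)) p15_20_3 (nat_lit 4) (nat_lit 163) (nat_lit 164) = true := by decide +kernel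
def p15_20_3_164 : pfC (piC [(nat_lit 39120232), (nat_lit 25510466), (nat_lit 19038091), (nat_lit 12801343)] (nat_lit 4861332)) p15_20_3 (nat_lit 4) (nat_lit 164) (nat_lit 165) = true := by decide +kernel
def p15_20_3_165 : pfC (piC [(nat_lit 39120232), (nat_lit 25510466), (nat_lit 19038091), (nat_lit 12801343)] (nat_lit 4861332)) p15_20_3 (nat_lit 4) (nat_lit 165) (nat_lit 166) = true := by decide +kernel
def p15_20_3_166 : pfC (piC [(nat_lit 39120232), (nat_lit 25510466), (nat_lit 19038091), (nat_lit 12801343)] (nat_lit 4861332)) p15_20_3 (nat_lit 4) (nat_lit 166) (nat_lit 167) = true := by decide +kernel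
def p15_20_3_167 : pfC (piC [(nat_lit 39120232), (nat_lit 25510466), (nat_lit 19038091), (nat_lit 12801343)] (nat_lit 4861332)) p15_20_3 (nat_lit 4) (nat_lit 167) (nat_lit 168) = true := by decide +kernel
def p15_20_3_168 : pfC (piC [(nat_lit 39120232), (nat_lit 25510466), (nat_lit 19038091), (nat_lit 12801343)] (nat_lit 4861332)) p15_20_3 (nat_lit 4) (nat_lit 168) (nat_lit 169) = true := by decide +kernel
def p15_20_3_169 : pfC (piC [(nat_lit 39120232), (nat_lit 25510466), (nat_lit 19038091), (nat_lit 12801343)] (nat_lit 4861332)) p15_20_3 (nat_lit 4) (nat_lit 169) (nat_lit 170) = true := by decide +kernel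
def p15_20_3_170 : pfC (piC [(nat_lit 39120232), (nat_lit 25510466), (nat_lit 19038091), (nat_lit 12801343)] (nat_lit 4861332)) p15_20_3 (nat_lit 4) (nat_lit 170) (nat_lit 171) = true := by decide +kernel
def p15_20_3_171 : pfC (piC [(nat_lit 39120232), (nat_lit 25510466), (nat_lit 19038091), (nat_lit 12801343)] (nat_lit 4861332)) p15_20_3 (nat_lit 4) (nat_lit 171) (nat_lit 172) = true := by decide +kernel
def p15_20_3_172 : pfC (piC [(nat_lit 39120232), (nat_lit 25510466), (nat_lit 19038091), (nat_lit 12801343)] (nat_lit 4861332)) p15_20_3 (nat_lit 4) (nat_lit 172) (nat_lit 173) = true := by decide +kernel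
def p15_20_3_173 : pfC (piC [(nat_lit 39120232), (nat_lit 25510466), (nat_lit 19038091), (nat_lit 12801343)] (nat_lit 4861332)) p15_20_3 (nat_lit 4) (nat_lit 173) (nat_lit 174) = true := by decide +kernel
def p15_20_3_174 : pfC (piC [(nat_lit 39120232), (nat_lit 25510466), (nat_lit 19038091), (nat_lit 12801343)] (nat_lit 4861332)) p15_20_3 (nat_lit 4) (nat_lit 174) (nat_lit 175) = true := by decide +kernel
def p15_20_3_175 : pfC (piC [(nat_lit 39120232), (nat_lit 25510466), (nat_lit 19038091), (nat_lit 12801343)] (nat_lit 4861332)) p15_20_3 (nat_lit 4) (nat_lit 175) (nat_lit 176) = true := by decide +kernel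
def p15_20_3_176 : pfC (piC [(nat_lit 39120232), (nat_lit 25510466), (nat_lit 19038091), (nat_lit 12801343)] (nat_lit 4861332)) p15_20_3 (nat_lit 4) (nat_lit 176) (nat_lit 177) = true := by decide +kernel
theorem p15_20_3_T : PfS (PiF n15_20.reverse (nat_lit 4861332)) p15_20_3 (nat_lit 4) [] 0 :=
  pftab_of (los := [(nat_lit 39120232), (nat_lit 25510466), (nat_lit 19038091), (nat_lit 12801343)]) (by decide +kernel) (hi := (nat_lit 177)) (PfP.trans (PfP.trans (PfP.trans (PfP.trans (PfP.trans (PfP.trans (PfP.trans (PfP.trans (PfP.trans (PfP.trans (PfP.trans (PfP.trans (PfP.trans (PfP.trans (PfP.trans (PfP.trans (PfP.trans (PfP.trans (PfP.trans (PfP.trans (PfP.trans (PfP.trans (PfP.trans (PfP.trans (PfP.trans (PfP.trans (PfP.trans (PfP.trans (PfP.trans (PfP.trans (PfP.trans (PfP.trans (PfP.trans (PfP.trans (PfP.trans (PfP.trans (PfP.trans (PfP.trans (PfP.trans (PfP.trans (PfP.trans (PfP.trans (PfP.trans (PfP.trans (PfP.trans (PfP.trans (PfP.trans (PfP.trans (PfP.trans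 (PfP.trans (PfP.trans (PfP.trans (PfP.trans (PfP.trans (PfP.trans (PfP.trans (PfP.trans (PfP.trans (PfP.trans (PfP.trans (PfP.trans (PfP.trans (PfP.trans (PfP.trans (PfP.trans (PfP.trans (PfP.trans (PfP.trans (PfP.trans (PfP.trans (PfP.trans (PfP.trans (PfP.trans (PfP.trans (PfP.trans (PfP.trans (PfP.trans (PfP.trans (PfP.trans (PfP.trans (PfP.trans (PfP.trans (PfP.trans (PfP.trans (PfP.trans (PfP.trans (PfP.trans (PfP.trans (PfP.trans (PfP.trans (PfP.trans (PfP.trans (PfP.trans (PfP.trans (PfP.trans (PfP.trans (PfP.trans (PfP.trans (PfP.trans (PfP.trans (PfP.trans (PfP.trans (PfP.trans (PfP.trans (PfP.trans (PfP.trans (PfP.trans (PfP.trans (PfP.trans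
 (PfP.trans (PfP.trans (PfP.trans (PfP.trans (PfP.trans (PfP.trans (PfP.trans (PfP.trans (PfP.trans (PfP.trans (PfP.trans (PfP.trans (PfP.trans (PfP.trans (PfP.trans (PfP.trans (PfP.trans (PfP.trans (PfP.trans (PfP.trans (PfP.trans (PfP.trans (PfP.trans (PfP.trans (PfP.trans (PfP.trans (PfP.trans (PfP.trans (PfP.trans (PfP.trans (PfP.trans (PfP.trans (PfP.trans (PfP.trans (PfP.trans (PfP.trans (PfP.trans (PfP.trans (PfP.trans (PfP.trans (PfP.trans (PfP.trans (PfP.trans (PfP.trans (PfP.trans (PfP.trans (PfP.trans (PfP.trans (PfP.trans (PfP.trans (PfP.trans (PfP.trans (PfP.trans (PfP.trans (PfP.trans (PfP.trans (PfP.trans (PfP.trans (PfP.trans (PfP.trans (PfP.trans (PfP.trans (PfP.trans (PfP.trans (PfP.trans (PfP.trans (PfP.trans (pfC_sound p15_20_3_0) (pfC_sound p15_20_3_1)) (pfC_sound p15_20_3_2)) (pfC_sound p15_20_3_3)) (pfC_sound p15_20_3_4)) (pfC_sound p15_20_3_5)) (pfC_sound p15_20_3_6)) (pfC_sound p15_20_3_7)) (pfC_sound p15_20_3_8)) (pfC_sound p15_20_3_9)) (pfC_sound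 p15_20_3_10)) (pfC_sound p15_20_3_11)) (pfC_sound p15_20_3_12)) (pfC_sound p15_20_3_13)) (pfC_sound p15_20_3_14)) (pfC_sound p15_20_3_15)) (pfC_sound p15_20_3_16)) (pfC_sound p15_20_3_17)) (pfC_sound
 p15_20_3_18)) (pfC_sound p15_20_3_19)) (pfC_sound p15_20_3_20)) (pfC_sound p15_20_3_21)) (pfC_sound p15_20_3_22)) (pfC_sound p15_20_3_23)) (pfC_sound p15_20_3_24)) (pfC_sound p15_20_3_25)) (pfC_sound p15_20_3_26)) (pfC_sound p15_20_3_27)) (pfC_sound p15_20_3_28)) (pfC_sound p15_20_3_29)) (pfC_sound p15_20_3_30)) (pfC_sound p15_20_3_31)) (pfC_sound p15_20_3_32)) (pfC_sound p15_20_3_33)) (pfC_sound p15_20_3_34)) (pfC_sound p15_20_3_35)) (pfC_sound p15_20_3_36)) (pfC_sound p15_20_3_37)) (pfC_sound p15_20_3_38)) (pfC_sound p15_20_3_39)) (pfC_sound p15_20_3_40)) (pfC_sound p15_20_3_41)) (pfC_sound p15_20_3_42)) (pfC_sound p15_20_3_43)) (pfC_sound p15_20_3_44)) (pfC_sound p15_20_3_45)) (pfC_sound p15_20_3_46)) (pfC_sound p15_20_3_47)) (pfC_sound p15_20_3_48)) (pfC_sound p15_20_3_49))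 (pfC_sound p15_20_3_50)) (pfC_sound p15_20_3_51)) (pfC_sound p15_20_3_52)) (pfC_sound p15_20_3_53)) (pfC_sound p15_20_3_54)) (pfC_sound p15_20_3_55)) (pfC_sound p15_20_3_56)) (pfC_sound p15_20_3_57)) (pfC_sound p15_20_3_58)) (pfC_sound p15_20_3_59)) (pfC_sound p15_20_3_60)) (pfC_sound p15_20_3_61)) (pfC_sound p15_20_3_62)) (pfC_sound p15_20_3_63)) (pfC_sound p15_20_3_64)) (pfC_sound p15_20_3_65)) (pfC_sound
 p15_20_3_66)) (pfC_sound p15_20_3_67)) (pfC_sound p15_20_3_68)) (pfC_sound p15_20_3_69)) (pfC_sound p15_20_3_70)) (pfC_sound p15_20_3_71)) (pfC_sound p15_20_3_72)) (pfC_sound p15_20_3_73)) (pfC_sound p15_20_3_74)) (pfC_sound p15_20_3_75)) (pfC_sound p15_20_3_76)) (pfC_sound p15_20_3_77)) (pfC_sound p15_20_3_78)) (pfC_sound p15_20_3_79)) (pfC_sound p15_20_3_80)) (pfC_sound p15_20_3_81)) (pfC_sound p15_20_3_82)) (pfC_sound p15_20_3_83)) (pfC_sound p15_20_3_84)) (pfC_sound p15_20_3_85)) (pfC_sound p15_20_3_86)) (pfC_sound p15_20_3_87)) (pfC_sound p15_20_3_88)) (pfC_sound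 p15_20_3_89)) (pfC_sound p15_20_3_90)) (pfC_sound p15_20_3_91)) (pfC_sound p15_20_3_92)) (pfC_sound p15_20_3_93)) (pfC_sound p15_20_3_94)) (pfC_sound p15_20_3_95)) (pfC_sound p15_20_3_96)) (pfC_sound p15_20_3_97)) (pfC_sound p15_20_3_98)) (pfC_sound p15_20_3_99)) (pfC_sound p15_20_3_100)) (pfC_sound p15_20_3_101)) (pfC_sound p15_20_3_102)) (pfC_sound p15_20_3_103)) (pfC_sound p15_20_3_104)) (pfC_sound p15_20_3_105)) (pfC_sound p15_20_3_106)) (pfC_sound p15_20_3_107)) (pfC_sound p15_20_3_108)) (pfC_sound p15_20_3_109)) (pfC_sound p15_20_3_110)) (pfC_sound p15_20_3_111)) (pfC_sound p15_20_3_112)) (pfC_sound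
 p15_20_3_113)) (pfC_sound p15_20_3_114)) (pfC_sound p15_20_3_115)) (pfC_sound p15_20_3_116)) (pfC_sound p15_20_3_117)) (pfC_sound p15_20_3_118)) (pfC_sound p15_20_3_119)) (pfC_sound p15_20_3_120)) (pfC_sound p15_20_3_121)) (pfC_sound p15_20_3_122)) (pfC_sound p15_20_3_123)) (pfC_sound p15_20_3_124)) (pfC_sound p15_20_3_125)) (pfC_sound p15_20_3_126)) (pfC_sound p15_20_3_127)) (pfC_sound p15_20_3_128)) (pfC_sound p15_20_3_129)) (pfC_sound p15_20_3_130)) (pfC_sound p15_20_3_131)) (pfC_sound p15_20_3_132)) (pfC_sound p15_20_3_133)) (pfC_sound p15_20_3_134)) (pfC_sound p15_20_3_135)) (pfC_sound p15_20_3_136)) (pfC_sound p15_20_3_137)) (pfC_sound p15_20_3_138)) (pfC_sound p15_20_3_139)) (pfC_sound p15_20_3_140)) (pfC_sound p15_20_3_141)) (pfC_sound p15_20_3_142)) (pfC_sound p15_20_3_143)) (pfC_sound p15_20_3_144)) (pfC_sound p15_20_3_145)) (pfC_sound p15_20_3_146)) (pfC_sound p15_20_3_147)) (pfC_sound p15_20_3_148)) (pfC_sound p15_20_3_149)) (pfC_sound p15_20_3_150)) (pfC_sound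 p15_20_3_151)) (pfC_sound p15_20_3_152)) (pfC_sound p15_20_3_153)) (pfC_sound p15_20_3_154)) (pfC_sound p15_20_3_155)) (pfC_sound p15_20_3_156)) (pfC_sound p15_20_3_157)) (pfC_sound p15_20_3_158)) (pfC_sound
 p15_20_3_159)) (pfC_sound p15_20_3_160)) (pfC_sound p15_20_3_161)) (pfC_sound p15_20_3_162)) (pfC_sound p15_20_3_163)) (pfC_sound p15_20_3_164)) (pfC_sound p15_20_3_165)) (pfC_sound p15_20_3_166)) (pfC_sound p15_20_3_167)) (pfC_sound p15_20_3_168)) (pfC_sound p15_20_3_169)) (pfC_sound p15_20_3_170)) (pfC_sound p15_20_3_171)) (pfC_sound p15_20_3_172)) (pfC_sound p15_20_3_173)) (pfC_sound p15_20_3_174)) (pfC_sound p15_20_3_175)) (pfC_sound p15_20_3_176)) (by decide +kernel)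

def z15_20_3 : zOK yB15_20 (nat_lit 3) (nat_lit 750) (nat_lit 867) (nat_lit 4861332) (nat_lit 3797975) = true := by decide +kernel
def g15_20_3 : gOK yB15_20.x P15_20 (nat_lit 1424) (q15_20 :: r15_20) (nat_lit 3) (nat_lit 750) (nat_lit 4) (nat_lit 867) (nat_lit 12712500) (nat_lit 12712500) (nat_lit 12712500) (nat_lit 12712500) [(nat_lit 800)] = true := by decide +kernel
def v15_20_3 : ivC P15_20 s15_20 w15_20 n15_20 (nat_lit 4) (nat_lit 4655) (nat_lit 3) (nat_lit 750) f152_1_750 f160_1_750 (nat_lit 4) (nat_lit 867) f152_1_867 f160_1_867 (nat_lit 4861332) (nat_lit 3797975) p15_20_3 = true := by decide +kernel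
end CB
end Pool.Agent.Lib.MP_6947cd_al
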