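import Pool.Agent.Lib.MP_6947cd_al.L.BoxDataB
import Pool.Agent.Lib.MP_6947cd_al.L.TeD4
import Pool.Agent.Lib.MP_6947cd_al.L.TeD5

/-!
Problem MP_6947cd_al (Chollet).  CASE B, rows `j`: boxes (generated).
-/

set_option autoImplicit false
set_option linter.defProp false
set_option maxRecDepth 20000

namespace Pool.Agent.Lib.MP_6947cd_al
namespace CB

open Ent Ent.Pk Fr Fr.WT CA

/-! box `yB15_21` -/

def P15_21 : BQ := ⟨(nat_lit 8), (nat_lit 8), (nat_lit 0), (nat_lit 6), (nat_lit 2), (nat_lit 800), (nat_lit 810), (nat_lit 120), [(nat_lit 200), (nat_lit 300), (nat_lit 450), (nat_lit 800)], (nat_lit 114720000), (nat_lit 16000000), (nat_lit 16000000000)⟩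
def q15_21 : PC := ⟨(nat_lit 1000), [(nat_lit 120000), (nat_lit 200000), (nat_lit 300000), (nat_lit 450000), (nat_lit 800000)], (nat_lit 340282367000166625996085689103316680705000000), (nat_lit 15885280000000), (nat_lit 15885280000000), (nat_lit 10000000)⟩
def r15_21 : List PC := [⟨(nat_lit 1272), [(nat_lit 120537), (nat_lit 200900), (nat_lit 301146), (nat_lit 450998), (nat_lit 799826)], (nat_lit 342088585804192180819611494302321293887753112), (nat_lit 16253161456640), (nat_lit 16257983603200), (nat_lit 10045000)⟩, ⟨(nat_lit 1407), [(nat_lit 120845), (nat_lit 201346), (nat_lit 301767), (nat_lit 452182), (nat_lit 802523)], (nat_lit 342982847864686207364796545937455100306870329), (nat_lit 16432829267840), (nat_lit 16440044759200), (nat_lit 10070417)⟩, ⟨(nat_lit 1234), [(nat_lit 120472), (nat_lit 200767), (nat_lit 301002), (nat_lit 451493), (nat_lit 798289)], (nat_lit 341836776852644620291170815694653207304161866), (nat_lit 16201798606080), (nat_lit 16205947070400), (nat_lit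 10039334)⟩]
def s15_21 : List PB := [⟨(nat_lit 25440), (nat_lit 1928592000000), [(nat_lit 200900), (nat_lit 301146), (nat_lit 450998), (nat_lit 799826)], (nat_lit 342088585804192180819611494302321293887753112), (nat_lit 1142153068299264), (nat_lit 1142157890445824), (nat_lit 43520)⟩, ⟨(nat_lit 28140), (nat_lit 1933520000000), [(nat_lit 201346), (nat_lit 301767), (nat_lit 452182), (nat_lit 802523)], (nat_lit 342982847864686207364796545937455100306870329), (nat_lit 1142332736110464), (nat_lit 1142339951601824), (nat_lit 65120)⟩, ⟨(nat_lit 24680), (nat_lit 1927552000000), [(nat_lit 200767), (nat_lit 301002), (nat_lit 451493), (nat_lit 798289)], (nat_lit 341836776852644620291170815694653207304161866), (nat_lit 1142101705448704), (nat_lit 1142105853913024), (nat_lit 37440)⟩]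
def n15_21 : List KN := [⟨(nat_lit 800), (nat_lit 450), (nat_lit 12765436), (nat_lit 5447273)⟩, ⟨(nat_lit 450), (nat_lit 300), (nat_lit 18971201), (nat_lit 12765436)⟩, ⟨(nat_lit 300), (nat_lit 200), (nat_lit 25510466), (nat_lit 18971201)⟩, ⟨(nat_lit 200), (nat_lit 120), (nat_lit 39120232), (nat_lit 25510466)⟩]
def w15_21 : List ℕ := [(nat_lit 43520), (nat_lit 65120), (nat_lit 37440)]
def par15_21 : parC yB15_21 P15_21 s15_21 r15_21 q15_21 n15_21 w15_21 = true := by decide +kernel

def p15_21_0 : PF := (PF.cons (PF.cons (PF.cons (PF.cons (PF.leaf (nat_lit 788565) (nat_lit 2471224) (nat_lit 64637588) (nat_lit 2471224) [(nat_lit 0), (nat_lit 0), (nat_lit 0), (nat_lit 0)]) (PF.cons (PF.leaf (nat_lit 932724) (nat_lit 227601) (nat_lit 64352180) (nat_lit 2529030) [(nat_lit 227601), (nat_lit 0), (nat_lit 0), (nat_lit 0)]) (PF.cons (PF.leaf (nat_lit 1107979) (nat_lit 251503) (nat_lit 64012852) (nat_lit 2592954) [(nat_lit 251503), (nat_lit 0), (nat_lit 0), (nat_lit 0)]) (PF.cons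 (PF.leaf (nat_lit 1308671) (nat_lit 273870) (nat_lit 63626941) (nat_lit 2660260) [(nat_lit 273870), (nat_lit 0), (nat_lit 0), (nat_lit 0)]) (PF.cons (PF.leaf (nat_lit 1532434) (nat_lit 295024) (nat_lit 63199647) (nat_lit 2729066) [(nat_lit 295024), (nat_lit 0), (nat_lit 0), (nat_lit 0)]) (PF.cons (PF.leaf (nat_lit 1777369) (nat_lit 315137) (nat_lit 62735106) (nat_lit 2798019) [(nat_lit 315137), (nat_lit 0), (nat_lit 0), (nat_lit 0)]) (PF.cons (PF.leaf (nat_lit 2041835) (nat_lit 334304) (nat_lit 62236858) (nat_lit 2866124) [(nat_lit 334304), (nat_lit 0), (nat_lit 0), (nat_lit 0)]) (PF.cons (PF.leaf (nat_lit 2324371) (nat_lit 352583) (nat_lit 61708085) (nat_lit 2932643) [(nat_lit 352583), (nat_lit 0), (nat_lit 0),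
 (nat_lit 0)]) (PF.cons (PF.leaf (nat_lit 2623481) (nat_lit 370007) (nat_lit 61151733) (nat_lit 2997021) [(nat_lit 370007), (nat_lit 0), (nat_lit 0), (nat_lit 0)]) (PF.cons (PF.leaf (nat_lit 2937806) (nat_lit 386599) (nat_lit 60570572) (nat_lit 3058848) [(nat_lit 386599), (nat_lit 0), (nat_lit 0), (nat_lit 0)]) (PF.cons PF.nil (PF.cons PF.nil PF.nil)))))))))))) (PF.cons (PF.cons (PF.leaf (nat_lit 1314358) (nat_lit 1103260) (nat_lit 63307726) (nat_lit 2697825) [(nat_lit 0), (nat_lit 1103260), (nat_lit 0), (nat_lit 0)]) (PF.cons (PF.leaf (nat_lit 1513394) (nat_lit 290061) (nat_lit 62914852) (nat_lit 2758191) [(nat_lit 290061), (nat_lit 1145706), (nat_lit 0), (nat_lit 0)]) (PF.cons (PF.leaf (nat_lit 1737764) (nat_lit 310569) (nat_lit 62478557) (nat_lit 2820513) [(nat_lit 310569), (nat_lit 1188602), (nat_lit 0), (nat_lit 0)]) (PF.cons (PF.leaf (nat_lit 1983758) (nat_lit 329969) (nat_lit 62004469) (nat_lit 2883294) [(nat_lit 329969), (nat_lit 1231141), (nat_lit 0), (nat_lit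 0)]) (PF.cons (PF.leaf (nat_lit 2249239) (nat_lit 348391) (nat_lit 61496956) (nat_lit 2945479) [(nat_lit 348391), (nat_lit 1272810), (nat_lit 0), (nat_lit 0)]) (PF.cons (PF.leaf (nat_lit 2532516) (nat_lit 365912)
 (nat_lit 60959686) (nat_lit 3006301) [(nat_lit 365912), (nat_lit 1313265), (nat_lit 0), (nat_lit 0)]) (PF.cons (PF.leaf (nat_lit 2832026) (nat_lit 382575) (nat_lit 60395894) (nat_lit 3065193) [(nat_lit 382575), (nat_lit 1352271), (nat_lit 0), (nat_lit 0)]) (PF.cons (PF.leaf (nat_lit 3146323) (nat_lit 398411) (nat_lit 59808525) (nat_lit 3121740) [(nat_lit 398411), (nat_lit 1389666), (nat_lit 0), (nat_lit 0)]) (PF.cons PF.nil (PF.cons PF.nil PF.nil)))))))))) (PF.cons (PF.cons (PF.leaf (nat_lit 1949422) (nat_lit 1239023) (nat_lit 61725254) (nat_lit 2905511) [(nat_lit 0), (nat_lit 1239023), (nat_lit 0), (nat_lit 0)]) (PF.cons (PF.leaf (nat_lit 2193332) (nat_lit 343374) (nat_lit 61247616) (nat_lit 2962190) [(nat_lit 343374), (nat_lit 1277815), (nat_lit 0), (nat_lit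 0)]) (PF.cons (PF.leaf (nat_lit 2458175) (nat_lit 361192) (nat_lit 60735659) (nat_lit 3018625) [(nat_lit 361192), (nat_lit 1316071), (nat_lit 0), (nat_lit 0)]) (PF.cons (PF.leaf (nat_lit 2740892) (nat_lit 378061) (nat_lit 60193932) (nat_lit 3073970) [(nat_lit 378061), (nat_lit 1353362), (nat_lit 0), (nat_lit 0)]) (PF.cons (PF.leaf (nat_lit 3039726) (nat_lit 394051) (nat_lit 59626181) (nat_lit 3127625) [(nat_lit 394051),
 (nat_lit 1389399), (nat_lit 0), (nat_lit 0)]) (PF.cons (PF.leaf (nat_lit 3353064) (nat_lit 409205) (nat_lit 59035655) (nat_lit 3179151) [(nat_lit 409205), (nat_lit 1423989), (nat_lit 0), (nat_lit 0)]) (PF.cons (PF.leaf (nat_lit 3679521) (nat_lit 423553) (nat_lit 58425257) (nat_lit 3228235) [(nat_lit 423553), (nat_lit 1456999), (nat_lit 0), (nat_lit 0)]) (PF.cons PF.nil (PF.cons PF.nil PF.nil))))))))) (PF.cons (PF.cons (PF.leaf (nat_lit 2670086) (nat_lit 1356272) (nat_lit 59953956) (nat_lit 3086039) [(nat_lit 0), (nat_lit 1356272), (nat_lit 0), (nat_lit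 0)]) (PF.cons (PF.leaf (nat_lit 2950048) (nat_lit 389062) (nat_lit 59412154) (nat_lit 3136077) [(nat_lit 389062), (nat_lit 1390506), (nat_lit 0), (nat_lit 0)]) (PF.cons (PF.leaf (nat_lit 3246983) (nat_lit 404470) (nat_lit 58844071) (nat_lit 3184702) [(nat_lit 404470), (nat_lit 1423698), (nat_lit 0), (nat_lit 0)]) (PF.cons (PF.leaf (nat_lit 3558436) (nat_lit 419018) (nat_lit 58253477) (nat_lit 3231439) [(nat_lit 419018), (nat_lit 1455614), (nat_lit 0), (nat_lit 0)]) (PF.cons (PF.leaf (nat_lit 3882796) (nat_lit 432749) (nat_lit 57643582) (nat_lit 3275950) [(nat_lit 432749), (nat_lit 1486094), (nat_lit 0), (nat_lit 0)]) (PF.cons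
 (PF.leaf (nat_lit 4218679) (nat_lit 445697) (nat_lit 57017215) (nat_lit 3318000) [(nat_lit 445697), (nat_lit 1515036), (nat_lit 0), (nat_lit 0)]) (PF.cons PF.nil PF.nil))))))) (PF.cons (PF.cons (PF.leaf (nat_lit 3454930) (nat_lit 1455378) (nat_lit 58050514) (nat_lit 3236785) [(nat_lit 0), (nat_lit 1455378), (nat_lit 0), (nat_lit 0)]) (PF.cons (PF.leaf (nat_lit 3762835) (nat_lit 427873) (nat_lit 57463106) (nat_lit 3278934) [(nat_lit 427873), (nat_lit 1484724), (nat_lit 0), (nat_lit 0)]) (PF.cons (PF.leaf (nat_lit 4084239) (nat_lit 441056) (nat_lit 56856450) (nat_lit 3319091) [(nat_lit 441056), (nat_lit 1512789), (nat_lit 0), (nat_lit 0)]) (PF.cons (PF.leaf (nat_lit 4417102) (nat_lit 453446) (nat_lit 56233680) (nat_lit 3356999) [(nat_lit 453446), (nat_lit 1539448), (nat_lit 0), (nat_lit 0)]) (PF.cons PF.nil PF.nil))))) (PF.cons (PF.cons (PF.leaf (nat_lit 4284784) (nat_lit 1537240) (nat_lit 56064663) (nat_lit 3357946) [(nat_lit 0), (nat_lit 1537240), (nat_lit 0), (nat_lit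 0)]) (PF.cons (PF.leaf (nat_lit 4613388) (nat_lit 460390) (nat_lit 55447904) (nat_lit 3391921) [(nat_lit 460390), (nat_lit 1561719), (nat_lit 0), (nat_lit 0)]) (PF.cons (PF.leaf (nat_lit 4952476) (nat_lit 471519)
 (nat_lit 54817918) (nat_lit 3423678) [(nat_lit 471519), (nat_lit 1584835), (nat_lit 0), (nat_lit 0)]) (PF.cons PF.nil PF.nil)))) (PF.cons (PF.cons (PF.leaf (nat_lit 5142991) (nat_lit 1603139) (nat_lit 54038730) (nat_lit 3451243) [(nat_lit 0), (nat_lit 1603139), (nat_lit 0), (nat_lit 0)]) (PF.cons PF.nil PF.nil)) (PF.cons PF.nil (PF.cons PF.nil PF.nil))))))))) (PF.cons (PF.cons (PF.cons (PF.leaf (nat_lit 1929431) (nat_lit 2925879) (nat_lit 61049215) (nat_lit 2925879) [(nat_lit 0), (nat_lit 0), (nat_lit 3133717), (nat_lit 0)]) (PF.cons (PF.leaf (nat_lit 2146807) (nat_lit 328273) (nat_lit 60620966) (nat_lit 2975399) [(nat_lit 328273), (nat_lit 0), (nat_lit 3184173), (nat_lit 0)]) (PF.cons (PF.leaf (nat_lit 2388412) (nat_lit 347814) (nat_lit 60151214) (nat_lit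 3026099) [(nat_lit 347814), (nat_lit 0), (nat_lit 3235869), (nat_lit 0)]) (PF.cons (PF.leaf (nat_lit 2650216) (nat_lit 365946) (nat_lit 59646645) (nat_lit 3076769) [(nat_lit 365946), (nat_lit 0), (nat_lit 3287558), (nat_lit 0)]) (PF.cons (PF.leaf (nat_lit 2929879) (nat_lit 382894) (nat_lit 59112290) (nat_lit 3126571) [(nat_lit 382894), (nat_lit 0), (nat_lit 3338371), (nat_lit 0)]) (PF.cons (PF.leaf (nat_lit 3225486) (nat_lit
 398800) (nat_lit 58552225) (nat_lit 3174902) [(nat_lit 398800), (nat_lit 0), (nat_lit 3387683), (nat_lit 0)]) (PF.cons (PF.leaf (nat_lit 3535368) (nat_lit 413755) (nat_lit 57969914) (nat_lit 3221330) [(nat_lit 413755), (nat_lit 0), (nat_lit 3435037), (nat_lit 0)]) (PF.cons (PF.leaf (nat_lit 3858022) (nat_lit 427823) (nat_lit 57368400) (nat_lit 3265541) [(nat_lit 427823), (nat_lit 0), (nat_lit 3480105), (nat_lit 0)]) (PF.cons PF.nil (PF.cons PF.nil PF.nil)))))))))) (PF.cons (PF.cons (PF.leaf (nat_lit 2600017) (nat_lit 1346873) (nat_lit 59367008)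 (nat_lit 3091672) [(nat_lit 0), (nat_lit 1346873), (nat_lit 3303258), (nat_lit 0)]) (PF.cons (PF.leaf (nat_lit 2857663) (nat_lit 376483) (nat_lit 58865570) (nat_lit 3137175) [(nat_lit 376483), (nat_lit 1379952), (nat_lit 3349631), (nat_lit 0)]) (PF.cons (PF.leaf (nat_lit 3134621) (nat_lit 392953) (nat_lit 58333040) (nat_lit 3182123) [(nat_lit 392953), (nat_lit 1412305), (nat_lit 3395436), (nat_lit 0)]) (PF.cons (PF.leaf (nat_lit 3427840) (nat_lit 408325) (nat_lit 57774405) (nat_lit 3225848) [(nat_lit 408325), (nat_lit 1443598), (nat_lit 3439983), (nat_lit 0)]) (PF.cons (PF.leaf (nat_lit 3735405) (nat_lit 422719) (nat_lit 57193652) (nat_lit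
 3267882) [(nat_lit 422719), (nat_lit 1473616), (nat_lit 3482784), (nat_lit 0)]) (PF.cons (PF.leaf (nat_lit 4055664) (nat_lit 436214) (nat_lit 56594132) (nat_lit 3307893) [(nat_lit 436214), (nat_lit 1502221), (nat_lit 3523495), (nat_lit 0)]) (PF.cons (PF.leaf (nat_lit 4387148) (nat_lit 448869) (nat_lit 55978754) (nat_lit 3345649) [(nat_lit 448869), (nat_lit 1529322), (nat_lit 3561871), (nat_lit 0)]) (PF.cons PF.nil (PF.cons PF.nil PF.nil))))))))) (PF.cons (PF.cons (PF.leaf (nat_lit 3341614) (nat_lit 1443945) (nat_lit 57540411) (nat_lit 3232946) [(nat_lit 0), (nat_lit 1443945), (nat_lit 3447563), (nat_lit 0)]) (PF.cons (PF.leaf (nat_lit 3630455) (nat_lit 416835) (nat_lit 56987026) (nat_lit 3272214) [(nat_lit 416835), (nat_lit 1472618), (nat_lit 3487499), (nat_lit 0)]) (PF.cons (PF.leaf (nat_lit 3934604) (nat_lit 430758) (nat_lit 56410914) (nat_lit 3310035) [(nat_lit 430758), (nat_lit 1500205), (nat_lit 3525936), (nat_lit 0)]) (PF.cons (PF.leaf (nat_lit 4251603) (nat_lit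 443753) (nat_lit 55815954) (nat_lit 3346044) [(nat_lit 443753), (nat_lit 1526530), (nat_lit 3562494), (nat_lit 0)]) (PF.cons (PF.leaf (nat_lit 4579831) (nat_lit 455893) (nat_lit 55205368) (nat_lit 3379991) [(nat_lit
 455893), (nat_lit 1551482), (nat_lit 3596913), (nat_lit 0)]) (PF.cons PF.nil (PF.cons PF.nil PF.nil))))))) (PF.cons (PF.cons (PF.leaf (nat_lit 4134078) (nat_lit 1524607) (nat_lit 55622146) (nat_lit 3348066) [(nat_lit 0), (nat_lit 1524607), (nat_lit 3564776), (nat_lit 0)]) (PF.cons (PF.leaf (nat_lit 4446337) (nat_lit 450453) (nat_lit 55034497) (nat_lit 3380253) [(nat_lit 450453), (nat_lit 1548745), (nat_lit 3597370), (nat_lit 0)]) (PF.cons (PF.leaf (nat_lit 4770545) (nat_lit 462147) (nat_lit 54430962) (nat_lit 3410580) [(nat_lit 462147), (nat_lit 1571647), (nat_lit 3628031), (nat_lit 0)]) (PF.cons (PF.leaf (nat_lit 5104641) (nat_lit 473029) (nat_lit 53814613) (nat_lit 3438862) [(nat_lit 473029), (nat_lit 1593226), (nat_lit 3656566), (nat_lit 0)]) (PF.cons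 PF.nil PF.nil))))) (PF.cons (PF.cons (PF.leaf (nat_lit 4960214) (nat_lit 1589943) (nat_lit 53655924) (nat_lit 3437648) [(nat_lit 0), (nat_lit 1589943), (nat_lit 3655464), (nat_lit 0)]) (PF.cons (PF.leaf (nat_lit 5289252) (nat_lit 478124) (nat_lit 53048657) (nat_lit 3462678) [(nat_lit 478124), (nat_lit 1609682), (nat_lit 3680623), (nat_lit 0)]) (PF.cons (PF.leaf (nat_lit 5627368) (nat_lit 487839) (nat_lit 52431075) (nat_lit
 3485718) [(nat_lit 487839), (nat_lit 1628157), (nat_lit 3703712), (nat_lit 0)]) (PF.cons PF.nil PF.nil)))) (PF.cons (PF.cons (PF.leaf (nat_lit 5805561) (nat_lit 1641297) (nat_lit 51677354) (nat_lit 3503497) [(nat_lit 0), (nat_lit 1641297), (nat_lit 3721473), (nat_lit 0)]) (PF.cons PF.nil PF.nil)) (PF.cons PF.nil (PF.cons PF.nil PF.nil)))))))) (PF.cons (PF.cons (PF.cons (PF.leaf (nat_lit 3247193) (nat_lit 3230057) (nat_lit 56987668) (nat_lit 3230057) [(nat_lit 0), (nat_lit 0), (nat_lit 3445543), (nat_lit 0)]) (PF.cons (PF.leaf (nat_lit 3514239) (nat_lit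 403275) (nat_lit 56475416) (nat_lit 3266078) [(nat_lit 403275), (nat_lit 0), (nat_lit 3482020), (nat_lit 0)]) (PF.cons (PF.leaf (nat_lit 3799151) (nat_lit 418451) (nat_lit 55935195) (nat_lit 3301322) [(nat_lit 418451), (nat_lit 0), (nat_lit 3517695), (nat_lit 0)]) (PF.cons (PF.leaf (nat_lit 4098802) (nat_lit 432426) (nat_lit 55372204) (nat_lit 3335267) [(nat_lit 432426), (nat_lit 0), (nat_lit 3552030), (nat_lit 0)]) (PF.cons (PF.leaf (nat_lit 4411243) (nat_lit 445357) (nat_lit 54790512) (nat_lit 3367557) [(nat_lit 445357), (nat_lit 0), (nat_lit 3584656), (nat_lit 0)]) (PF.cons (PF.leaf (nat_lit 4734774) (nat_lit 457354) (nat_lit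
 54193455) (nat_lit 3397947) [(nat_lit 457354), (nat_lit 0), (nat_lit 3615317), (nat_lit 0)]) (PF.cons PF.nil (PF.cons PF.nil (PF.cons PF.nil PF.nil))))))))) (PF.cons (PF.cons (PF.leaf (nat_lit 3999036) (nat_lit 1510960) (nat_lit 55147930) (nat_lit 3338601) [(nat_lit 0), (nat_lit 1510960), (nat_lit 3555660), (nat_lit 0)]) (PF.cons (PF.leaf (nat_lit 4293121) (nat_lit 438826) (nat_lit 54594096) (nat_lit 3368807) [(nat_lit 438826), (nat_lit 1534817), (nat_lit 3586132), (nat_lit 0)]) (PF.cons (PF.leaf (nat_lit 4601023) (nat_lit 451388) (nat_lit 54020663) (nat_lit 3397573) [(nat_lit 451388), (nat_lit 1557576), (nat_lit 3615111), (nat_lit 0)]) (PF.cons (PF.leaf (nat_lit 4920317) (nat_lit 462981) (nat_lit 53431504) (nat_lit 3424625) [(nat_lit 462981), (nat_lit 1579111), (nat_lit 3642314), (nat_lit 0)]) (PF.cons (PF.leaf (nat_lit 5249408) (nat_lit 473703) (nat_lit 52829764) (nat_lit 3449782) [(nat_lit 473703), (nat_lit 1599346), (nat_lit 3667552), (nat_lit 0)]) (PF.cons PF.nil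 (PF.cons PF.nil PF.nil))))))) (PF.cons (PF.cons (PF.leaf (nat_lit 4790861) (nat_lit 1575951) (nat_lit 53248748) (nat_lit 3424172) [(nat_lit 0), (nat_lit 1575951), (nat_lit 3641994), (nat_lit 0)]) (PF.cons (PF.leaf
 (nat_lit 5104590) (nat_lit 467870) (nat_lit 52669809) (nat_lit 3448051) [(nat_lit 467870), (nat_lit 1595630), (nat_lit 3665910), (nat_lit 0)]) (PF.cons (PF.leaf (nat_lit 5428876) (nat_lit 478237) (nat_lit 52077779) (nat_lit 3470210) [(nat_lit 478237), (nat_lit 1614131), (nat_lit 3688042), (nat_lit 0)]) (PF.cons (PF.leaf (nat_lit 5761776) (nat_lit 487788) (nat_lit 51475618) (nat_lit 3490519) [(nat_lit 487788), (nat_lit 1631400), (nat_lit 3708253), (nat_lit 0)]) (PF.cons PF.nil PF.nil))))) (PF.cons (PF.cons (PF.leaf (nat_lit 5607307) (nat_lit 1627358) (nat_lit 51327987) (nat_lit 3487742) [(nat_lit 0), (nat_lit 1627358), (nat_lit 3705503), (nat_lit 0)]) (PF.cons (PF.leaf (nat_lit 5934576) (nat_lit 491342) (nat_lit 50736966) (nat_lit 3505377) [(nat_lit 491342),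 (nat_lit 1643079), (nat_lit 3722943), (nat_lit 0)]) (PF.cons PF.nil (PF.cons PF.nil PF.nil)))) (PF.cons (PF.cons (PF.leaf (nat_lit 6435854) (nat_lit 1666553) (nat_lit 49415279) (nat_lit 3531151) [(nat_lit 0), (nat_lit 1666553), (nat_lit 3748084), (nat_lit 0)]) (PF.cons PF.nil PF.nil)) (PF.cons PF.nil PF.nil)))))) (PF.cons (PF.cons (PF.cons (PF.leaf (nat_lit 4637360) (nat_lit 3410871) (nat_lit 52811661) (nat_lit 3410871)
 [(nat_lit 0), (nat_lit 0), (nat_lit 3628760), (nat_lit 0)]) (PF.cons (PF.leaf (nat_lit 4933815) (nat_lit 455940) (nat_lit 52265568) (nat_lit 3433454) [(nat_lit 455940), (nat_lit 0), (nat_lit 3651283), (nat_lit 0)]) (PF.cons (PF.leaf (nat_lit 5242825) (nat_lit 467265) (nat_lit 51702579) (nat_lit 3454638) [(nat_lit 467265), (nat_lit 0), (nat_lit 3672354), (nat_lit 0)]) (PF.cons (PF.leaf (nat_lit 5561973) (nat_lit 477601) (nat_lit 51126476) (nat_lit 3474222) [(nat_lit 477601), (nat_lit 0), (nat_lit 3691769), (nat_lit 0)]) (PF.cons (PF.leaf (nat_lit 5889698)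 (nat_lit 487065) (nat_lit 50540282) (nat_lit 3492079) [(nat_lit 487065), (nat_lit 0), (nat_lit 3709396), (nat_lit 0)]) (PF.cons PF.nil (PF.cons PF.nil PF.nil))))))) (PF.cons (PF.cons (PF.leaf (nat_lit 5422457) (nat_lit 1612604) (nat_lit 50955689) (nat_lit 3471940) [(nat_lit 0), (nat_lit 1612604), (nat_lit 3689526), (nat_lit 0)]) (PF.cons (PF.leaf (nat_lit 5735437) (nat_lit 480972) (nat_lit 50391753) (nat_lit 3488905) [(nat_lit 480972), (nat_lit 1628475), (nat_lit 3706235), (nat_lit 0)]) (PF.cons (PF.leaf (nat_lit 6057827) (nat_lit 490162) (nat_lit 49817025) (nat_lit 3504295) [(nat_lit 490162), (nat_lit 1643236), (nat_lit 3721310),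
 (nat_lit 0)]) (PF.cons PF.nil (PF.cons PF.nil PF.nil))))) (PF.cons (PF.cons (PF.leaf (nat_lit 6225050) (nat_lit 1652297) (nat_lit 49097870) (nat_lit 3514132) [(nat_lit 0), (nat_lit 1652297), (nat_lit 3730738), (nat_lit 0)]) (PF.cons (PF.leaf (nat_lit 6548981) (nat_lit 500817) (nat_lit 48527580) (nat_lit 3525674) [(nat_lit 500817), (nat_lit 1664623), (nat_lit 3741830), (nat_lit 0)]) (PF.cons PF.nil (PF.cons PF.nil PF.nil)))) (PF.cons (PF.cons (PF.leaf (nat_lit 7034276) (nat_lit 1681355) (nat_lit 47262678) (nat_lit 3539260) [(nat_lit 0), (nat_lit 1681355), (nat_lit 3754269), (nat_lit 0)]) (PF.cons PF.nil PF.nil)) (PF.cons PF.nil PF.nil))))) (PF.cons (PF.cons (PF.cons (PF.leaf (nat_lit 6027499) (nat_lit 3496929) (nat_lit 48758939) (nat_lit 3496929) [(nat_lit 0), (nat_lit 0), (nat_lit 3713235), (nat_lit 0)]) (PF.cons (PF.leaf (nat_lit 6338086) (nat_lit 490480) (nat_lit 48214231) (nat_lit 3508166) [(nat_lit 490480), (nat_lit 0), (nat_lit 3723983), (nat_lit 0)]) (PF.cons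 (PF.leaf (nat_lit 6657130) (nat_lit 498630) (nat_lit 47660600) (nat_lit 3517968) [(nat_lit 498630), (nat_lit 0), (nat_lit 3733245), (nat_lit 0)]) (PF.cons PF.nil PF.nil)))) (PF.cons (PF.cons (PF.leaf (nat_lit 6813439)
 (nat_lit 1667085) (nat_lit 46975167) (nat_lit 3521624) [(nat_lit 0), (nat_lit 1667085), (nat_lit 3736233), (nat_lit 0)]) (PF.cons (PF.leaf (nat_lit 7132890) (nat_lit 507202) (nat_lit 46428373) (nat_lit 3528167) [(nat_lit 507202), (nat_lit 1676553), (nat_lit 3742128), (nat_lit 0)]) PF.nil)) (PF.cons PF.nil PF.nil))) (PF.cons (PF.cons (PF.cons (PF.leaf (nat_lit 7373182) (nat_lit 3514134) (nat_lit 44964110) (nat_lit 3514134) [(nat_lit 0), (nat_lit 0), (nat_lit 3726113), (nat_lit 0)]) (PF.cons PF.nil PF.nil)) (PF.cons PF.nil PF.nil)) (PF.cons PF.nil (PF.cons PF.nil (PF.cons PF.nil PF.nil))))))))) (PF.cons (PF.cons (PF.cons (PF.cons (PF.leaf (nat_lit 3112401) (nat_lit 3139930) (nat_lit 54457006) (nat_lit 3139930) [(nat_lit 0), (nat_lit 0), (nat_lit 0), (nat_lit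 9511876)]) (PF.cons (PF.leaf (nat_lit 3336179) (nat_lit 361960) (nat_lit 54047114) (nat_lit 3172789) [(nat_lit 361960), (nat_lit 0), (nat_lit 0), (nat_lit 9526948)]) (PF.cons (PF.leaf (nat_lit 3582168) (nat_lit 380257) (nat_lit 53601649) (nat_lit 3205816) [(nat_lit 380257), (nat_lit 0), (nat_lit 0), (nat_lit 9540831)]) (PF.cons (PF.leaf (nat_lit 3846106) (nat_lit 396732) (nat_lit 53127552) (nat_lit 3238211) [(nat_lit 396732),
 (nat_lit 0), (nat_lit 0), (nat_lit 9552851)]) (PF.cons (PF.leaf (nat_lit 4125404) (nat_lit 411722) (nat_lit 52629961) (nat_lit 3269444) [(nat_lit 411722), (nat_lit 0), (nat_lit 0), (nat_lit 9562518)]) (PF.cons (PF.leaf (nat_lit 4417984) (nat_lit 425451) (nat_lit 52112923) (nat_lit 3299158) [(nat_lit 425451), (nat_lit 0), (nat_lit 0), (nat_lit 9569474)]) (PF.cons (PF.leaf (nat_lit 4722196) (nat_lit 438077) (nat_lit 51579771) (nat_lit 3327113) [(nat_lit 438077), (nat_lit 0), (nat_lit 0), (nat_lit 9573461)]) (PF.cons (PF.leaf (nat_lit 5036494) (nat_lit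 449719) (nat_lit 51033326) (nat_lit 3353152) [(nat_lit 449719), (nat_lit 0), (nat_lit 0), (nat_lit 9574299)]) (PF.cons (PF.leaf (nat_lit 5359649) (nat_lit 460466) (nat_lit 50476030) (nat_lit 3377175) [(nat_lit 460466), (nat_lit 0), (nat_lit 0), (nat_lit 9571877)]) (PF.cons (PF.leaf (nat_lit 5690453) (nat_lit 470391) (nat_lit 49910024) (nat_lit 3399128) [(nat_lit 470391), (nat_lit 0), (nat_lit 0), (nat_lit 9566135)]) (PF.cons PF.nil (PF.cons PF.nil PF.nil)))))))))))) (PF.cons (PF.cons (PF.leaf (nat_lit 3776593) (nat_lit 1438535) (nat_lit 52875162) (nat_lit 3243456) [(nat_lit 0), (nat_lit 1438535), (nat_lit 0), (nat_lit 9551657)])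
 (PF.cons (PF.leaf (nat_lit 4034238) (nat_lit 403598) (nat_lit 52409882) (nat_lit 3272031) [(nat_lit 403598), (nat_lit 1463861), (nat_lit 0), (nat_lit 9559439)]) (PF.cons (PF.leaf (nat_lit 4308791) (nat_lit 418197) (nat_lit 51919635) (nat_lit 3299721) [(nat_lit 418197), (nat_lit 1488132), (nat_lit 0), (nat_lit 9564928)]) (PF.cons (PF.leaf (nat_lit 4597174) (nat_lit 431493) (nat_lit 51409274) (nat_lit 3326117) [(nat_lit 431493), (nat_lit 1511159), (nat_lit 0), (nat_lit 9567779)]) (PF.cons (PF.leaf (nat_lit 4897449) (nat_lit 443670) (nat_lit 50882582) (nat_lit 3350949) [(nat_lit 443670), (nat_lit 1532841), (nat_lit 0), (nat_lit 9567755)]) (PF.cons (PF.leaf (nat_lit 5207971) (nat_lit 454859) (nat_lit 50342644) (nat_lit 3374041) [(nat_lit 454859), (nat_lit 1553132), (nat_lit 0), (nat_lit 9564696)]) (PF.cons (PF.leaf (nat_lit 5527346) (nat_lit 465159) (nat_lit 49792050) (nat_lit 3395279) [(nat_lit 465159), (nat_lit 1572018), (nat_lit 0), (nat_lit 9558507)]) (PF.cons (PF.leaf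 (nat_lit 5854361) (nat_lit 474647) (nat_lit 49233027) (nat_lit 3414601) [(nat_lit 474647), (nat_lit 1589506), (nat_lit 0), (nat_lit 9549142)]) (PF.cons PF.nil (PF.cons PF.nil PF.nil)))))))))) (PF.cons (PF.cons
 (PF.leaf (nat_lit 4493726) (nat_lit 1508085) (nat_lit 51204044) (nat_lit 3326655) [(nat_lit 0), (nat_lit 1508085), (nat_lit 0), (nat_lit 9561942)]) (PF.cons (PF.leaf (nat_lit 4776256) (nat_lit 436679) (nat_lit 50703211) (nat_lit 3349899) [(nat_lit 436679), (nat_lit 1529027), (nat_lit 0), (nat_lit 9560966)]) (PF.cons (PF.leaf (nat_lit 5071737) (nat_lit 448507) (nat_lit 50185181) (nat_lit 3371782) [(nat_lit 448507), (nat_lit 1548811), (nat_lit 0), (nat_lit 9557211)]) (PF.cons (PF.leaf (nat_lit 5377830) (nat_lit 459321) (nat_lit 49653504) (nat_lit 3392100) [(nat_lit 459321), (nat_lit 1567354), (nat_lit 0), (nat_lit 9550533)]) (PF.cons (PF.leaf (nat_lit 5692966) (nat_lit 469238) (nat_lit 49111044) (nat_lit 3410725) [(nat_lit 469238), (nat_lit 1584619), (nat_lit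 0), (nat_lit 9540852)]) (PF.cons (PF.leaf (nat_lit 6015835) (nat_lit 478343) (nat_lit 48560189) (nat_lit 3427580) [(nat_lit 478343), (nat_lit 1600596), (nat_lit 0), (nat_lit 9528134)]) (PF.cons (PF.leaf (nat_lit 6345294) (nat_lit 486705) (nat_lit 48002972) (nat_lit 3442629) [(nat_lit 486705), (nat_lit 1615295), (nat_lit 0), (nat_lit 9512387)]) (PF.cons PF.nil (PF.cons PF.nil PF.nil))))))))) (PF.cons (PF.cons (PF.leaf (nat_lit
 5246226) (nat_lit 1563180) (nat_lit 49487439) (nat_lit 3389809) [(nat_lit 0), (nat_lit 1563180), (nat_lit 0), (nat_lit 9542022)]) (PF.cons (PF.leaf (nat_lit 5546648) (nat_lit 463114) (nat_lit 48965959) (nat_lit 3407512) [(nat_lit 463114), (nat_lit 1580069), (nat_lit 0), (nat_lit 9532019)]) (PF.cons (PF.leaf (nat_lit 5856933) (nat_lit 472715) (nat_lit 48433155) (nat_lit 3423680) [(nat_lit 472715), (nat_lit 1595805), (nat_lit 0), (nat_lit 9519130)]) (PF.cons (PF.leaf (nat_lit 6175191) (nat_lit 481493) (nat_lit 47891691) (nat_lit 3438223) [(nat_lit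 481493), (nat_lit 1610360), (nat_lit 0), (nat_lit 9503336)]) (PF.cons (PF.leaf (nat_lit 6500178) (nat_lit 489525) (nat_lit 47343768) (nat_lit 3451093) [(nat_lit 489525), (nat_lit 1623732), (nat_lit 0), (nat_lit 9484653)]) (PF.cons PF.nil (PF.cons PF.nil PF.nil))))))) (PF.cons (PF.cons (PF.leaf (nat_lit 6020211) (nat_lit 1605671) (nat_lit 47758287) (nat_lit 3434300) [(nat_lit 0), (nat_lit 1605671), (nat_lit 0), (nat_lit 9493538)]) (PF.cons (PF.leaf (nat_lit 6332931) (nat_lit 484106) (nat_lit 47227539) (nat_lit 3446676) [(nat_lit 484106), (nat_lit 1618885), (nat_lit 0), (nat_lit 9474948)]) (PF.cons (PF.leaf (nat_lit 6653027) (nat_lit 491858)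
 (nat_lit 46689958) (nat_lit 3457508) [(nat_lit 491858), (nat_lit 1631008), (nat_lit 0), (nat_lit 9453595)]) (PF.cons (PF.leaf (nat_lit 6978945) (nat_lit 498922) (nat_lit 46147572) (nat_lit 3466773) [(nat_lit 498922), (nat_lit 1642041), (nat_lit 0), (nat_lit 9429531)]) (PF.cons PF.nil PF.nil))))) (PF.cons (PF.cons (PF.leaf (nat_lit 6804620) (nat_lit 1637196) (nat_lit 46041434) (nat_lit 3461999) [(nat_lit 0), (nat_lit 1637196), (nat_lit 0), (nat_lit 9419396)]) (PF.cons (PF.leaf (nat_lit 7125108) (nat_lit 500537) (nat_lit 45510084) (nat_lit 3469475) [(nat_lit 500537), (nat_lit 1647132), (nat_lit 0), (nat_lit 9393052)]) (PF.cons PF.nil (PF.cons PF.nil PF.nil)))) (PF.cons (PF.cons (PF.leaf (nat_lit 7590690) (nat_lit 1659239) (nat_lit 44355358) (nat_lit 3474946) [(nat_lit 0), (nat_lit 1659239), (nat_lit 0), (nat_lit 9323074)]) (PF.cons PF.nil PF.nil)) (PF.cons PF.nil PF.nil)))))))) (PF.cons (PF.cons (PF.cons (PF.leaf (nat_lit 4368952) (nat_lit 3312067) (nat_lit 50735765)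 (nat_lit 3312067) [(nat_lit 0), (nat_lit 0), (nat_lit 3527235), (nat_lit 9533744)]) (PF.cons (PF.leaf (nat_lit 4631208) (nat_lit 421381) (nat_lit 50273295) (nat_lit 3333917) [(nat_lit 421381), (nat_lit 0), (nat_lit
 3548799), (nat_lit 9531419)]) (PF.cons (PF.leaf (nat_lit 4909190) (nat_lit 434779) (nat_lit 49788438) (nat_lit 3354810) [(nat_lit 434779), (nat_lit 0), (nat_lit 3569383), (nat_lit 9526621)]) (PF.cons (PF.leaf (nat_lit 5199792) (nat_lit 446839) (nat_lit 49286015) (nat_lit 3374436) [(nat_lit 446839), (nat_lit 0), (nat_lit 3588673), (nat_lit 9519167)]) (PF.cons (PF.leaf (nat_lit 5501058) (nat_lit 457772) (nat_lit 48769718) (nat_lit 3392596) [(nat_lit 457772), (nat_lit 0), (nat_lit 3606462), (nat_lit 9508944)]) (PF.cons (PF.leaf (nat_lit 5811419) (nat_lit 467726) (nat_lit 48242507) (nat_lit 3409164) [(nat_lit 467726), (nat_lit 0), (nat_lit 3622620), (nat_lit 9495889)]) (PF.cons (PF.leaf (nat_lit 6129497) (nat_lit 476810) (nat_lit 47706828) (nat_lit 3424068)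 [(nat_lit 476810), (nat_lit 0), (nat_lit 3637071), (nat_lit 9479984)]) (PF.cons (PF.leaf (nat_lit 6454140) (nat_lit 485110) (nat_lit 47164750) (nat_lit 3437269) [(nat_lit 485110), (nat_lit 0), (nat_lit 3649774), (nat_lit 9461244)]) (PF.cons PF.nil (PF.cons PF.nil PF.nil)))))))))) (PF.cons (PF.cons (PF.leaf (nat_lit 5086164) (nat_lit 1545899) (nat_lit 49093063) (nat_lit 3372837) [(nat_lit 0), (nat_lit 1545899), (nat_lit 3587124),
 (nat_lit 9509888)]) (PF.cons (PF.leaf (nat_lit 5370223) (nat_lit 450465) (nat_lit 48602153) (nat_lit 3389864) [(nat_lit 450465), (nat_lit 1563168), (nat_lit 3603758), (nat_lit 9499402)]) (PF.cons (PF.leaf (nat_lit 5666133) (nat_lit 461147) (nat_lit 48096312) (nat_lit 3405593) [(nat_lit 461147), (nat_lit 1579330), (nat_lit 3619058), (nat_lit 9486223)]) (PF.cons (PF.leaf (nat_lit 5971535) (nat_lit 470815) (nat_lit 47578968) (nat_lit 3419879) [(nat_lit 470815), (nat_lit 1594333), (nat_lit 3632874), (nat_lit 9470309)]) (PF.cons (PF.leaf (nat_lit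 6284936) (nat_lit 479599) (nat_lit 47052848) (nat_lit 3432633) [(nat_lit 479599), (nat_lit 1608158), (nat_lit 3645117), (nat_lit 9451655)]) (PF.cons (PF.leaf (nat_lit 6605073) (nat_lit 487594) (nat_lit 46520187) (nat_lit 3443811) [(nat_lit 487594), (nat_lit 1620813), (nat_lit 3655739), (nat_lit 9430288)]) (PF.cons PF.nil (PF.cons PF.nil (PF.cons PF.nil PF.nil))))))))) (PF.cons (PF.cons (PF.leaf (nat_lit 5831419) (nat_lit 1589540) (nat_lit 47424532) (nat_lit 3416279) [(nat_lit 0), (nat_lit 1589540), (nat_lit 3629252), (nat_lit 9459667)]) (PF.cons (PF.leaf (nat_lit 6130725) (nat_lit 473319) (nat_lit 46918702) (nat_lit 3428421) [(nat_lit 473319),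
 (nat_lit 1603160), (nat_lit 3640871), (nat_lit 9441178)]) (PF.cons (PF.leaf (nat_lit 6438903) (nat_lit 481867) (nat_lit 46403403) (nat_lit 3439163) [(nat_lit 481867), (nat_lit 1615710), (nat_lit 3651048), (nat_lit 9420043)]) (PF.cons (PF.leaf (nat_lit 6754124) (nat_lit 489608) (nat_lit 45881151) (nat_lit 3448450) [(nat_lit 489608), (nat_lit 1627179), (nat_lit 3659726), (nat_lit 9396301)]) (PF.cons (PF.leaf (nat_lit 7075197) (nat_lit 496629) (nat_lit 45353995) (nat_lit 3456255) [(nat_lit 496629), (nat_lit 1637575), (nat_lit 3666879), (nat_lit 9370013)]) (PF.cons PF.nil (PF.cons PF.nil PF.nil))))))) (PF.cons (PF.cons (PF.leaf (nat_lit 6592330) (nat_lit 1622169) (nat_lit 45758232) (nat_lit 3443780) [(nat_lit 0), (nat_lit 1622169), (nat_lit 3654990), (nat_lit 9385302)]) (PF.cons (PF.leaf (nat_lit 6901747) (nat_lit 491155) (nat_lit 45247492) (nat_lit 3451300) [(nat_lit 491155), (nat_lit 1632521), (nat_lit 3661855), (nat_lit 9359444)]) (PF.cons (PF.leaf (nat_lit 7217728)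 (nat_lit 497962) (nat_lit 44731357) (nat_lit 3457448) [(nat_lit 497962), (nat_lit 1641879), (nat_lit 3667305), (nat_lit 9331139)]) (PF.cons PF.nil (PF.cons PF.nil PF.nil))))) (PF.cons (PF.cons (PF.leaf (nat_lit 7359240)
 (nat_lit 1645285) (nat_lit 44114718) (nat_lit 3457073) [(nat_lit 0), (nat_lit 1645285), (nat_lit 3666101), (nat_lit 9289777)]) (PF.cons (PF.leaf (nat_lit 7674724) (nat_lit 504843) (nat_lit 43606497) (nat_lit 3460394) [(nat_lit 504843), (nat_lit 1652751), (nat_lit 3668643), (nat_lit 9257426)]) (PF.cons PF.nil (PF.cons PF.nil PF.nil)))) (PF.cons (PF.cons (PF.leaf (nat_lit 8124632) (nat_lit 1660232) (nat_lit 42508845) (nat_lit 3457990) [(nat_lit 0), (nat_lit 1660232), (nat_lit 3664466), (nat_lit 9176346)]) (PF.cons PF.nil PF.nil)) PF.nil)))))) (PF.cons (PF.cons (PF.cons (PF.leaf (nat_lit 5658478) (nat_lit 3398021) (nat_lit 47064801) (nat_lit 3398021) [(nat_lit 0), (nat_lit 0), (nat_lit 3610773), (nat_lit 9424441)]) (PF.cons (PF.leaf (nat_lit 5942358)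 (nat_lit 460822) (nat_lit 46587836) (nat_lit 3409861) [(nat_lit 460822), (nat_lit 0), (nat_lit 3622045), (nat_lit 9406201)]) (PF.cons (PF.leaf (nat_lit 6237094) (nat_lit 470481) (nat_lit 46097864) (nat_lit 3420475) [(nat_lit 470481), (nat_lit 0), (nat_lit 3632054), (nat_lit 9385400)]) (PF.cons (PF.leaf (nat_lit 6540398) (nat_lit 479136) (nat_lit 45598162) (nat_lit 3429763) [(nat_lit 479136), (nat_lit 0), (nat_lit 3640701), (nat_lit
 9362075)]) (PF.cons (PF.leaf (nat_lit 6850805) (nat_lit 486925) (nat_lit 45091302) (nat_lit 3437670) [(nat_lit 486925), (nat_lit 0), (nat_lit 3647929), (nat_lit 9336279)]) (PF.cons (PF.leaf (nat_lit 7167101) (nat_lit 493952) (nat_lit 44579369) (nat_lit 3444173) [(nat_lit 493952), (nat_lit 0), (nat_lit 3653715), (nat_lit 9308079)]) (PF.cons PF.nil PF.nil))))))) (PF.cons (PF.cons (PF.leaf (nat_lit 6393204) (nat_lit 1606206) (nat_lit 45455183) (nat_lit 3425232) [(nat_lit 0), (nat_lit 1606206), (nat_lit 3636099), (nat_lit 9349992)]) (PF.cons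 (PF.leaf (nat_lit 6690129) (nat_lit 480569) (nat_lit 44967759) (nat_lit 3432771) [(nat_lit 480569), (nat_lit 1617055), (nat_lit 3642957), (nat_lit 9324741)]) (PF.cons (PF.leaf (nat_lit 6995079) (nat_lit 488191) (nat_lit 44472381) (nat_lit 3439038) [(nat_lit 488191), (nat_lit 1626913), (nat_lit 3648506), (nat_lit 9297084)]) (PF.cons (PF.leaf (nat_lit 7306278) (nat_lit 495026) (nat_lit 43971411) (nat_lit 3444002) [(nat_lit 495026), (nat_lit 1635782), (nat_lit 3652714), (nat_lit 9267106)]) (PF.cons (PF.leaf (nat_lit 7622586) (nat_lit 501168) (nat_lit 43466751) (nat_lit 3447657) [(nat_lit 501168), (nat_lit 1643680), (nat_lit 3655575), (nat_lit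
 9234897)]) PF.nil))))) (PF.cons (PF.cons (PF.leaf (nat_lit 7138981) (nat_lit 1630587) (nat_lit 43858504) (nat_lit 3438838) [(nat_lit 0), (nat_lit 1630587), (nat_lit 3647455), (nat_lit 9255383)]) (PF.cons (PF.leaf (nat_lit 7444243) (nat_lit 495693) (nat_lit 43369423) (nat_lit 3442373) [(nat_lit 495693), (nat_lit 1638530), (nat_lit 3650199), (nat_lit 9223861)]) (PF.cons (PF.leaf (nat_lit 7755360) (nat_lit 501678) (nat_lit 42876079) (nat_lit 3444687) [(nat_lit 501678), (nat_lit 1645567), (nat_lit 3651686), (nat_lit 9190181)]) (PF.cons PF.nil PF.nil)))) (PF.cons (PF.cons (PF.leaf (nat_lit 7887334) (nat_lit 1646713) (nat_lit 42291765) (nat_lit 3440442) [(nat_lit 0), (nat_lit 1646713), (nat_lit 3646474), (nat_lit 9143515)]) (PF.cons (PF.leaf (nat_lit 8197277) (nat_lit 507042) (nat_lit 41807409) (nat_lit 3440379) [(nat_lit 507042), (nat_lit 1652113), (nat_lit 3645522), (nat_lit 9106594)]) PF.nil)) (PF.cons PF.nil PF.nil))))) (PF.cons (PF.cons (PF.cons (PF.leaf (nat_lit 6931527)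 (nat_lit 3420192) (nat_lit 43583734) (nat_lit 3420192) [(nat_lit 0), (nat_lit 0), (nat_lit 3628413), (nat_lit 9219644)]) (PF.cons (PF.leaf (nat_lit 7225118) (nat_lit 485370) (nat_lit 43116355) (nat_lit 3423934)
 [(nat_lit 485370), (nat_lit 0), (nat_lit 3631352), (nat_lit 9189094)]) (PF.cons (PF.leaf (nat_lit 7526025) (nat_lit 492177) (nat_lit 42642254) (nat_lit 3426521) [(nat_lit 492177), (nat_lit 0), (nat_lit 3633103), (nat_lit 9156370)]) (PF.cons (PF.leaf (nat_lit 7832501) (nat_lit 498222) (nat_lit 42163642) (nat_lit 3427944) [(nat_lit 498222), (nat_lit 0), (nat_lit 3633657), (nat_lit 9121587)]) (PF.cons PF.nil PF.nil))))) (PF.cons (PF.cons (PF.leaf (nat_lit 7660848) (nat_lit 1632463) (nat_lit 42060143) (nat_lit 3422477) [(nat_lit 0), (nat_lit 1632463), (nat_lit 3628075), (nat_lit 9109501)]) (PF.cons (PF.leaf (nat_lit 7961337) (nat_lit 498164) (nat_lit 41593495) (nat_lit 3422751) [(nat_lit 498164), (nat_lit 1638378), (nat_lit 3627457), (nat_lit 9073650)]) (PF.cons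 (PF.leaf (nat_lit 8267097) (nat_lit 503433) (nat_lit 41123469) (nat_lit 3421940) [(nat_lit 503433), (nat_lit 1643470), (nat_lit 3625722), (nat_lit 9035899)]) (PF.cons PF.nil PF.nil)))) (PF.cons (PF.cons (PF.leaf (nat_lit 8390145) (nat_lit 1642786) (nat_lit 40571122) (nat_lit 3414635) [(nat_lit 0), (nat_lit 1642786), (nat_lit 3617350), (nat_lit 8985430)]) (PF.cons PF.nil PF.nil)) PF.nil))) (PF.cons (PF.cons (PF.cons (PF.leaf
 (nat_lit 8158933) (nat_lit 3397138) (nat_lit 40361773) (nat_lit 3397138) [(nat_lit 0), (nat_lit 0), (nat_lit 3599409), (nat_lit 8952262)]) (PF.cons (PF.leaf (nat_lit 8454220) (nat_lit 498936) (nat_lit 39917695) (nat_lit 3394757) [(nat_lit 498936), (nat_lit 0), (nat_lit 3596060), (nat_lit 8913182)]) (PF.cons PF.nil PF.nil))) (PF.cons (PF.cons (PF.leaf (nat_lit 8869042) (nat_lit 1634577) (nat_lit 38949658) (nat_lit 3381706) [(nat_lit 0), (nat_lit 1634577), (nat_lit 3580877), (nat_lit 8819360)]) PF.nil) PF.nil)) (PF.cons PF.nil (PF.cons PF.nil (PF.cons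 PF.nil PF.nil)))))))) (PF.cons (PF.cons (PF.cons (PF.cons (PF.leaf (nat_lit 5334054) (nat_lit 3293559) (nat_lit 45392210) (nat_lit 3293559) [(nat_lit 0), (nat_lit 0), (nat_lit 0), (nat_lit 9211521)]) (PF.cons (PF.leaf (nat_lit 5587901) (nat_lit 426122) (nat_lit 44986277) (nat_lit 3306523) [(nat_lit 426122), (nat_lit 0), (nat_lit 0), (nat_lit 9194944)]) (PF.cons (PF.leaf (nat_lit 5855845) (nat_lit 438107) (nat_lit 44562109) (nat_lit 3318489) [(nat_lit 438107), (nat_lit 0), (nat_lit 0), (nat_lit 9175999)]) (PF.cons (PF.leaf (nat_lit 6134871) (nat_lit 448705) (nat_lit 44123967) (nat_lit 3329276) [(nat_lit 448705), (nat_lit 0), (nat_lit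
 0), (nat_lit 9154726)]) (PF.cons (PF.leaf (nat_lit 6423089) (nat_lit 458154) (nat_lit 43675074) (nat_lit 3338780) [(nat_lit 458154), (nat_lit 0), (nat_lit 0), (nat_lit 9131169)]) (PF.cons (PF.leaf (nat_lit 6718990) (nat_lit 466623) (nat_lit 43217975) (nat_lit 3346946) [(nat_lit 466623), (nat_lit 0), (nat_lit 0), (nat_lit 9105385)]) (PF.cons (PF.leaf (nat_lit 7021329) (nat_lit 474240) (nat_lit 42754741) (nat_lit 3353751) [(nat_lit 474240), (nat_lit 0), (nat_lit 0), (nat_lit 9077438)]) (PF.cons (PF.leaf (nat_lit 7329044) (nat_lit 481102) (nat_lit 42287093) (nat_lit 3359196) [(nat_lit 481102), (nat_lit 0), (nat_lit 0), (nat_lit 9047402)]) (PF.cons PF.nil (PF.cons PF.nil PF.nil)))))))))) (PF.cons (PF.cons (PF.leaf (nat_lit 6013394) (nat_lit 1539914) (nat_lit 43960932) (nat_lit 3325102) [(nat_lit 0), (nat_lit 1539914), (nat_lit 0), (nat_lit 9141431)]) (PF.cons (PF.leaf (nat_lit 6285521) (nat_lit 450537) (nat_lit 43534324) (nat_lit 3334052) [(nat_lit 450537), (nat_lit 1552769),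 (nat_lit 0), (nat_lit 9118564)]) (PF.cons (PF.leaf (nat_lit 6568094) (nat_lit 459826) (nat_lit 43095894) (nat_lit 3341850) [(nat_lit 459826), (nat_lit 1564557), (nat_lit 0), (nat_lit 9093428)]) (PF.cons (PF.leaf
 (nat_lit 6858851) (nat_lit 468102) (nat_lit 42648599) (nat_lit 3348425) [(nat_lit 468102), (nat_lit 1575273), (nat_lit 0), (nat_lit 9066103)]) (PF.cons (PF.leaf (nat_lit 7156387) (nat_lit 475508) (nat_lit 42194753) (nat_lit 3353743) [(nat_lit 475508), (nat_lit 1584932), (nat_lit 0), (nat_lit 9036674)]) (PF.cons (PF.leaf (nat_lit 7459536) (nat_lit 482154) (nat_lit 41736230) (nat_lit 3357798) [(nat_lit 482154), (nat_lit 1593563), (nat_lit 0), (nat_lit 9005225)]) (PF.cons (PF.leaf (nat_lit 7767337) (nat_lit 488123) (nat_lit 41274580) (nat_lit 3360600) [(nat_lit 488123), (nat_lit 1601202), (nat_lit 0), (nat_lit 8971845)]) (PF.cons PF.nil (PF.cons PF.nil PF.nil))))))))) (PF.cons (PF.cons (PF.leaf (nat_lit 6713599) (nat_lit 1569718) (nat_lit 42519498) (nat_lit 3343317)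 [(nat_lit 0), (nat_lit 1569718), (nat_lit 0), (nat_lit 9053280)]) (PF.cons (PF.leaf (nat_lit 6998157) (nat_lit 469103) (nat_lit 42083230) (nat_lit 3348415) [(nat_lit 469103), (nat_lit 1579386), (nat_lit 0), (nat_lit 9024645)]) (PF.cons (PF.leaf (nat_lit 7290436) (nat_lit 476360) (nat_lit 41639682) (nat_lit 3352355) [(nat_lit 476360), (nat_lit 1588087), (nat_lit 0), (nat_lit 8993939)]) (PF.cons (PF.leaf (nat_lit 7588691)
 (nat_lit 482837) (nat_lit 41190975) (nat_lit 3355121) [(nat_lit 482837), (nat_lit 1595838), (nat_lit 0), (nat_lit 8961263)]) (PF.cons (PF.leaf (nat_lit 7891868) (nat_lit 488628) (nat_lit 40738811) (nat_lit 3356719) [(nat_lit 488628), (nat_lit 1602664), (nat_lit 0), (nat_lit 8926720)]) (PF.cons PF.nil (PF.cons PF.nil PF.nil))))))) (PF.cons (PF.cons (PF.leaf (nat_lit 7424377) (nat_lit 1590458) (nat_lit 41089147) (nat_lit 3349667) [(nat_lit 0), (nat_lit 1590458), (nat_lit 0), (nat_lit 8949310)]) (PF.cons (PF.leaf (nat_lit 7716928) (nat_lit 483150) (nat_lit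 40651053) (nat_lit 3351244) [(nat_lit 483150), (nat_lit 1597385), (nat_lit 0), (nat_lit 8915604)]) (PF.cons (PF.leaf (nat_lit 8015159) (nat_lit 488806) (nat_lit 40208972) (nat_lit 3351729) [(nat_lit 488806), (nat_lit 1603451), (nat_lit 0), (nat_lit 8880071)]) (PF.cons (PF.leaf (nat_lit 8317652) (nat_lit 493840) (nat_lit 39764456) (nat_lit 3351136) [(nat_lit 493840), (nat_lit 1608683), (nat_lit 0), (nat_lit 8842824)]) (PF.cons PF.nil PF.nil))))) (PF.cons (PF.cons (PF.leaf (nat_lit 8137978) (nat_lit 1603607) (nat_lit 39684747) (nat_lit 3345693) [(nat_lit 0), (nat_lit 1603607), (nat_lit 0), (nat_lit 8831971)]) (PF.cons (PF.leaf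
 (nat_lit 8435143) (nat_lit 493580) (nat_lit 39250452) (nat_lit 3344143) [(nat_lit 493580), (nat_lit 1608182), (nat_lit 0), (nat_lit 8793953)]) (PF.cons PF.nil (PF.cons PF.nil PF.nil)))) (PF.cons (PF.cons (PF.leaf (nat_lit 8848491) (nat_lit 1610382) (nat_lit 38316618) (nat_lit 3332884) [(nat_lit 0), (nat_lit 1610382), (nat_lit 0), (nat_lit 8703699)]) (PF.cons PF.nil PF.nil)) PF.nil)))))) (PF.cons (PF.cons (PF.cons (PF.leaf (nat_lit 6530349) (nat_lit 3323561) (nat_lit 42225384) (nat_lit 3323561) [(nat_lit 0), (nat_lit 0), (nat_lit 3528227), (nat_lit 9015819)]) (PF.cons (PF.leaf (nat_lit 6801031) (nat_lit 456666) (nat_lit 41813743) (nat_lit 3328890) [(nat_lit 456666), (nat_lit 0), (nat_lit 3532738), (nat_lit 8988387)]) (PF.cons (PF.leaf (nat_lit 7081380) (nat_lit 465099) (nat_lit 41391683) (nat_lit 3333146) [(nat_lit 465099), (nat_lit 0), (nat_lit 3536150), (nat_lit 8958816)]) (PF.cons (PF.leaf (nat_lit 7369197) (nat_lit 472543) (nat_lit 40962005) (nat_lit 3336287) [(nat_lit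 472543), (nat_lit 0), (nat_lit 3538422), (nat_lit 8927233)]) (PF.cons (PF.leaf (nat_lit 7663116) (nat_lit 479147) (nat_lit 40526879) (nat_lit 3338298) [(nat_lit 479147), (nat_lit 0), (nat_lit 3539541), (nat_lit
 8893751)]) (PF.cons (PF.leaf (nat_lit 7962016) (nat_lit 485022) (nat_lit 40088044) (nat_lit 3339187) [(nat_lit 485022), (nat_lit 0), (nat_lit 3539514), (nat_lit 8858477)]) (PF.cons PF.nil PF.nil))))))) (PF.cons (PF.cons (PF.leaf (nat_lit 7218895) (nat_lit 1574552) (nat_lit 40842884) (nat_lit 3330749) [(nat_lit 0), (nat_lit 1574552), (nat_lit 3532768), (nat_lit 8913928)]) (PF.cons (PF.leaf (nat_lit 7500390) (nat_lit 472772) (nat_lit 40424451) (nat_lit 3332699) [(nat_lit 472772), (nat_lit 1582149), (nat_lit 3533837), (nat_lit 8881451)]) (PF.cons (PF.leaf (nat_lit 7788961) (nat_lit 479282) (nat_lit 39999784) (nat_lit 3333598) [(nat_lit 479282), (nat_lit 1588857), (nat_lit 3533829), (nat_lit 8847088)]) (PF.cons (PF.leaf (nat_lit 8082922) (nat_lit 485039) (nat_lit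 39570867) (nat_lit 3333447) [(nat_lit 485039), (nat_lit 1594699), (nat_lit 3532748), (nat_lit 8810965)]) (PF.cons (PF.leaf (nat_lit 8381219) (nat_lit 490140) (nat_lit 39139279) (nat_lit 3332261) [(nat_lit 490140), (nat_lit 1599706), (nat_lit 3530608), (nat_lit 8773197)]) PF.nil))))) (PF.cons (PF.cons (PF.leaf (nat_lit 7914890) (nat_lit 1589319) (nat_lit 39477482) (nat_lit 3327833) [(nat_lit 0), (nat_lit 1589319), (nat_lit
 3527018), (nat_lit 8798919)]) (PF.cons (PF.leaf (nat_lit 8203117) (nat_lit 484731) (nat_lit 39059170) (nat_lit 3326728) [(nat_lit 484731), (nat_lit 1594482), (nat_lit 3524971), (nat_lit 8762123)]) (PF.cons (PF.leaf (nat_lit 8496465) (nat_lit 489741) (nat_lit 38637614) (nat_lit 3324651) [(nat_lit 489741), (nat_lit 1598862), (nat_lit 3521927), (nat_lit 8723706)]) (PF.cons PF.nil PF.nil)))) (PF.cons (PF.cons (PF.leaf (nat_lit 8611440) (nat_lit 1597496) (nat_lit 38141582) (nat_lit 3316189) [(nat_lit 0), (nat_lit 1597496), (nat_lit 3512368), (nat_lit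 8673091)]) (PF.cons (PF.leaf (nat_lit 8903298) (nat_lit 493397) (nat_lit 37728268) (nat_lit 3312398) [(nat_lit 493397), (nat_lit 1600583), (nat_lit 3507581), (nat_lit 8632708)]) PF.nil)) (PF.cons PF.nil PF.nil))))) (PF.cons (PF.cons (PF.cons (PF.leaf (nat_lit 7703938) (nat_lit 3309427) (nat_lit 39254233) (nat_lit 3309427) [(nat_lit 0), (nat_lit 0), (nat_lit 3508205), (nat_lit 8764370)]) (PF.cons (PF.leaf (nat_lit 7981787) (nat_lit 474724) (nat_lit 38854115) (nat_lit 3308787) [(nat_lit 474724), (nat_lit 0), (nat_lit 3506624), (nat_lit 8728968)]) (PF.cons (PF.leaf (nat_lit 8266183) (nat_lit 480577) (nat_lit 38448623) (nat_lit 3307193)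
 [(nat_lit 480577), (nat_lit 0), (nat_lit 3504066), (nat_lit 8691853)]) (PF.cons (PF.leaf (nat_lit 8555455) (nat_lit 485705) (nat_lit 38039610) (nat_lit 3304659) [(nat_lit 485705), (nat_lit 0), (nat_lit 3500547), (nat_lit 8653166)]) (PF.cons PF.nil PF.nil))))) (PF.cons (PF.cons (PF.leaf (nat_lit 8384549) (nat_lit 1583854) (nat_lit 37954029) (nat_lit 3298991) [(nat_lit 0), (nat_lit 1583854), (nat_lit 3494754), (nat_lit 8641213)]) (PF.cons (PF.leaf (nat_lit 8668099) (nat_lit 484886) (nat_lit 37555452) (nat_lit 3295699) [(nat_lit 484886), (nat_lit 1587532), (nat_lit 3490472), (nat_lit 8602148)]) (PF.cons (PF.leaf (nat_lit 8956326) (nat_lit 489333) (nat_lit 37154220) (nat_lit 3291538) [(nat_lit 489333), (nat_lit 1590497), (nat_lit 3485299), (nat_lit 8561645)]) (PF.cons PF.nil PF.nil)))) (PF.cons (PF.cons (PF.leaf (nat_lit 9063982) (nat_lit 1587903) (nat_lit 36685429) (nat_lit 3281178) [(nat_lit 0), (nat_lit 1587903), (nat_lit 3473797), (nat_lit 8509400)]) (PF.cons PF.nil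 PF.nil)) PF.nil))) (PF.cons (PF.cons (PF.cons (PF.leaf (nat_lit 8834350) (nat_lit 3264708) (nat_lit 36515606) (nat_lit 3264708) [(nat_lit 0), (nat_lit 0), (nat_lit 3456917), (nat_lit 8478873)]) (PF.cons (PF.leaf
 (nat_lit 9112984) (nat_lit 483872) (nat_lit 36136399) (nat_lit 3259639) [(nat_lit 483872), (nat_lit 0), (nat_lit 3450824), (nat_lit 8438214)]) (PF.cons PF.nil PF.nil))) (PF.cons (PF.cons (PF.leaf (nat_lit 9496789) (nat_lit 1575542) (nat_lit 35312279) (nat_lit 3241964) [(nat_lit 0), (nat_lit 1575542), (nat_lit 3430938), (nat_lit 8343105)]) PF.nil) PF.nil)) (PF.cons PF.nil (PF.cons PF.nil PF.nil)))))) (PF.cons (PF.cons (PF.cons (PF.cons (PF.leaf (nat_lit 7288518) (nat_lit 3219541) (nat_lit 38157832) (nat_lit 3219541) [(nat_lit 0), (nat_lit 0), (nat_lit 0), (nat_lit 8577146)]) (PF.cons (PF.leaf (nat_lit 7546466) (nat_lit 447666) (nat_lit 37803142) (nat_lit 3220876) [(nat_lit 447666), (nat_lit 0), (nat_lit 0), (nat_lit 8545708)]) (PF.cons (PF.leaf (nat_lit 7813193)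 (nat_lit 455167) (nat_lit 37439854) (nat_lit 3221267) [(nat_lit 455167), (nat_lit 0), (nat_lit 0), (nat_lit 8512451)]) (PF.cons (PF.leaf (nat_lit 8086578) (nat_lit 461709) (nat_lit 37070353) (nat_lit 3220704) [(nat_lit 461709), (nat_lit 0), (nat_lit 0), (nat_lit 8477542)]) (PF.cons (PF.leaf (nat_lit 8365338) (nat_lit 467443) (nat_lit 36696473) (nat_lit 3219200) [(nat_lit 467443), (nat_lit 0), (nat_lit 0), (nat_lit
 8441121)]) (PF.cons (PF.leaf (nat_lit 8648448) (nat_lit 472485) (nat_lit 36319673) (nat_lit 3216774) [(nat_lit 472485), (nat_lit 0), (nat_lit 0), (nat_lit 8403311)]) (PF.cons PF.nil PF.nil))))))) (PF.cons (PF.cons (PF.leaf (nat_lit 7935901) (nat_lit 1530375) (nat_lit 36970832) (nat_lit 3214819) [(nat_lit 0), (nat_lit 1530375), (nat_lit 0), (nat_lit 8464262)]) (PF.cons (PF.leaf (nat_lit 8203142) (nat_lit 461180) (nat_lit 36611237) (nat_lit 3213431) [(nat_lit 461180), (nat_lit 1535809), (nat_lit 0), (nat_lit 8429051)]) (PF.cons (PF.leaf (nat_lit 8476752) (nat_lit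 466873) (nat_lit 36246533) (nat_lit 3211158) [(nat_lit 466873), (nat_lit 1540443), (nat_lit 0), (nat_lit 8392310)]) (PF.cons (PF.leaf (nat_lit 8755166) (nat_lit 471849) (nat_lit 35878393) (nat_lit 3208017) [(nat_lit 471849), (nat_lit 1544310), (nat_lit 0), (nat_lit 8354181)]) (PF.cons PF.nil PF.nil))))) (PF.cons (PF.cons (PF.leaf (nat_lit 8588635) (nat_lit 1538979) (nat_lit 35800759) (nat_lit 3202372) [(nat_lit 0), (nat_lit 1538979), (nat_lit 0), (nat_lit 8342573)]) (PF.cons (PF.leaf (nat_lit 8861546) (nat_lit 470943) (nat_lit 35441817) (nat_lit 3198584) [(nat_lit 470943), (nat_lit 1542336), (nat_lit 0), (nat_lit 8304264)])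
 (PF.cons (PF.leaf (nat_lit 9139095) (nat_lit 475256) (nat_lit 35080225) (nat_lit 3193999) [(nat_lit 475256), (nat_lit 1545007), (nat_lit 0), (nat_lit 8264687)]) (PF.cons PF.nil PF.nil)))) (PF.cons (PF.cons (PF.leaf (nat_lit 9240924) (nat_lit 1542187) (nat_lit 34657063) (nat_lit 3183380) [(nat_lit 0), (nat_lit 1542187), (nat_lit 0), (nat_lit 8213935)]) (PF.cons PF.nil PF.nil)) (PF.cons PF.nil PF.nil))))) (PF.cons (PF.cons (PF.cons (PF.leaf (nat_lit 8377951) (nat_lit 3184944) (nat_lit 35618095) (nat_lit 3184944) [(nat_lit 0), (nat_lit 0), (nat_lit 3374022), (nat_lit 8310583)]) (PF.cons (PF.leaf (nat_lit 8641544) (nat_lit 461384) (nat_lit 35274405) (nat_lit 3181742) [(nat_lit 461384), (nat_lit 0), (nat_lit 3369833), (nat_lit 8273815)]) (PF.cons (PF.leaf (nat_lit 8911084) (nat_lit 466535) (nat_lit 34926235) (nat_lit 3177735) [(nat_lit 466535), (nat_lit 0), (nat_lit 3364824), (nat_lit 8235648)]) (PF.cons (PF.leaf (nat_lit 9185016) (nat_lit 470997) (nat_lit 34575149) (nat_lit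 3172948) [(nat_lit 470997), (nat_lit 0), (nat_lit 3359020), (nat_lit 8196234)]) (PF.cons PF.nil PF.nil))))) (PF.cons (PF.cons (PF.leaf (nat_lit 9016599) (nat_lit 1529389) (nat_lit 34503907) (nat_lit 3167381)
 [(nat_lit 0), (nat_lit 1529389), (nat_lit 3353333), (nat_lit 8184933)]) (PF.cons (PF.leaf (nat_lit 9285083) (nat_lit 469724) (nat_lit 34161771) (nat_lit 3162088) [(nat_lit 469724), (nat_lit 1531625), (nat_lit 3347027), (nat_lit 8145525)]) (PF.cons PF.nil (PF.cons PF.nil PF.nil)))) (PF.cons (PF.cons (PF.leaf (nat_lit 9653589) (nat_lit 1529572) (nat_lit 33417017) (nat_lit 3144269) [(nat_lit 0), (nat_lit 1529572), (nat_lit 3327043), (nat_lit 8053778)]) (PF.cons PF.nil PF.nil)) PF.nil))) (PF.cons (PF.cons (PF.cons (PF.leaf (nat_lit 9427802) (nat_lit 3129082) (nat_lit 33277960) (nat_lit 3129082) [(nat_lit 0), (nat_lit 0), (nat_lit 3311491), (nat_lit 8026262)]) (PF.cons (PF.leaf (nat_lit 9691719) (nat_lit 467676) (nat_lit 32952119) (nat_lit 3122569) [(nat_lit 467676),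 (nat_lit 0), (nat_lit 3303956), (nat_lit 7986178)]) PF.nil)) (PF.cons PF.nil PF.nil)) (PF.cons PF.nil (PF.cons PF.nil PF.nil))))) (PF.cons (PF.cons (PF.cons (PF.cons (PF.leaf (nat_lit 8976730) (nat_lit 3057390) (nat_lit 32542492) (nat_lit 3057390) [(nat_lit 0), (nat_lit 0), (nat_lit 0), (nat_lit 7877232)]) (PF.cons (PF.leaf (nat_lit 9227455) (nat_lit 446924) (nat_lit 32245542) (nat_lit 3052713) [(nat_lit 446924), (nat_lit
 0), (nat_lit 0), (nat_lit 7840908)]) (PF.cons (PF.leaf (nat_lit 9483718) (nat_lit 451539) (nat_lit 31944749) (nat_lit 3047343) [(nat_lit 451539), (nat_lit 0), (nat_lit 0), (nat_lit 7803410)]) (PF.cons PF.nil PF.nil)))) (PF.cons (PF.cons (PF.leaf (nat_lit 9578977) (nat_lit 1473421) (nat_lit 31581651) (nat_lit 3035991) [(nat_lit 0), (nat_lit 1473421), (nat_lit 0), (nat_lit 7754436)]) (PF.cons (PF.leaf (nat_lit 9834044) (nat_lit 453959) (nat_lit 31285990) (nat_lit 3029618) [(nat_lit 453959), (nat_lit 1474711), (nat_lit 0), (nat_lit 7716133)]) PF.nil))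 (PF.cons PF.nil PF.nil))) (PF.cons (PF.cons (PF.cons (PF.leaf (nat_lit 9958690) (nat_lit 2996429) (nat_lit 30528827) (nat_lit 2996429) [(nat_lit 0), (nat_lit 0), (nat_lit 3169570), (nat_lit 7603496)]) (PF.cons PF.nil PF.nil)) (PF.cons PF.nil PF.nil)) (PF.cons PF.nil PF.nil))) (PF.cons (PF.cons (PF.cons (PF.cons (PF.leaf (nat_lit 10440588) (nat_lit 2869717) (nat_lit 28173564) (nat_lit 2869717) [(nat_lit 0), (nat_lit 0), (nat_lit 0), (nat_lit 7213106)]) (PF.cons PF.nil PF.nil)) (PF.cons PF.nil PF.nil)) (PF.cons PF.nil PF.nil)) (PF.cons PF.nil (PF.cons PF.nil (PF.cons PF.nil PF.nil)))))))))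

def p15_21_0_0 : pfC (piC [(nat_lit 39120232), (nat_lit 25510466), (nat_lit 18971201), (nat_lit 12765436)] (nat_lit 22256242)) p15_21_0 (nat_lit 4) (nat_lit 0) (nat_lit 1) = true := by decide +kernel
def p15_21_0_1 : pfC (piC [(nat_lit 39120232), (nat_lit 25510466), (nat_lit 18971201), (nat_lit 12765436)] (nat_lit 22256242)) p15_21_0 (nat_lit 4) (nat_lit 1) (nat_lit 2) = true := by decide +kernel
def p15_21_0_2 : pfC (piC [(nat_lit 39120232), (nat_lit 25510466), (nat_lit 18971201), (nat_lit 12765436)] (nat_lit 22256242)) p15_21_0 (nat_lit 4) (nat_lit 2) (nat_lit 3) = true := by decide +kernel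
def p15_21_0_3 : pfC (piC [(nat_lit 39120232), (nat_lit 25510466), (nat_lit 18971201), (nat_lit 12765436)] (nat_lit 22256242)) p15_21_0 (nat_lit 4) (nat_lit 3) (nat_lit 4) = true := by decide +kernel
def p15_21_0_4 : pfC (piC [(nat_lit 39120232), (nat_lit 25510466), (nat_lit 18971201), (nat_lit 12765436)] (nat_lit 22256242)) p15_21_0 (nat_lit 4) (nat_lit 4) (nat_lit 5) = true := by decide +kernel
def p15_21_0_5 : pfC (piC [(nat_lit 39120232), (nat_lit 25510466), (nat_lit 18971201), (nat_lit 12765436)] (nat_lit 22256242)) p15_21_0 (nat_lit 4) (nat_lit 5) (nat_lit 6) = true := by decide +kernel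
def p15_21_0_6 : pfC (piC [(nat_lit 39120232), (nat_lit 25510466), (nat_lit 18971201), (nat_lit 12765436)] (nat_lit 22256242)) p15_21_0 (nat_lit 4) (nat_lit 6) (nat_lit 7) = true := by decide +kernel
def p15_21_0_7 : pfC (piC [(nat_lit 39120232), (nat_lit 25510466), (nat_lit 18971201), (nat_lit 12765436)] (nat_lit 22256242)) p15_21_0 (nat_lit 4) (nat_lit 7) (nat_lit 8) = true := by decide +kernel
def p15_21_0_8 : pfC (piC [(nat_lit 39120232), (nat_lit 25510466), (nat_lit 18971201), (nat_lit 12765436)] (nat_lit 22256242)) p15_21_0 (nat_lit 4) (nat_lit 8) (nat_lit 9) = true := by decide +kernel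
def p15_21_0_9 : pfC (piC [(nat_lit 39120232), (nat_lit 25510466), (nat_lit 18971201), (nat_lit 12765436)] (nat_lit 22256242)) p15_21_0 (nat_lit 4) (nat_lit 9) (nat_lit 10) = true := by decide +kernel
def p15_21_0_10 : pfC (piC [(nat_lit 39120232), (nat_lit 25510466), (nat_lit 18971201), (nat_lit 12765436)] (nat_lit 22256242)) p15_21_0 (nat_lit 4) (nat_lit 10) (nat_lit 11) = true := by decide +kernel
def p15_21_0_11 : pfC (piC [(nat_lit 39120232), (nat_lit 25510466), (nat_lit 18971201), (nat_lit 12765436)] (nat_lit 22256242)) p15_21_0 (nat_lit 4) (nat_lit 11) (nat_lit 12) = true := by decide +kernel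
def p15_21_0_12 : pfC (piC [(nat_lit 39120232), (nat_lit 25510466), (nat_lit 18971201), (nat_lit 12765436)] (nat_lit 22256242)) p15_21_0 (nat_lit 4) (nat_lit 12) (nat_lit 13) = true := by decide +kernel
def p15_21_0_13 : pfC (piC [(nat_lit 39120232), (nat_lit 25510466), (nat_lit 18971201), (nat_lit 12765436)] (nat_lit 22256242)) p15_21_0 (nat_lit 4) (nat_lit 13) (nat_lit 14) = true := by decide +kernel
def p15_21_0_14 : pfC (piC [(nat_lit 39120232), (nat_lit 25510466), (nat_lit 18971201), (nat_lit 12765436)] (nat_lit 22256242)) p15_21_0 (nat_lit 4) (nat_lit 14) (nat_lit 15) = true := by decide +kernel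
def p15_21_0_15 : pfC (piC [(nat_lit 39120232), (nat_lit 25510466), (nat_lit 18971201), (nat_lit 12765436)] (nat_lit 22256242)) p15_21_0 (nat_lit 4) (nat_lit 15) (nat_lit 16) = true := by decide +kernel
def p15_21_0_16 : pfC (piC [(nat_lit 39120232), (nat_lit 25510466), (nat_lit 18971201), (nat_lit 12765436)] (nat_lit 22256242)) p15_21_0 (nat_lit 4) (nat_lit 16) (nat_lit 17) = true := by decide +kernel
def p15_21_0_17 : pfC (piC [(nat_lit 39120232), (nat_lit 25510466), (nat_lit 18971201), (nat_lit 12765436)] (nat_lit 22256242)) p15_21_0 (nat_lit 4) (nat_lit 17) (nat_lit 18) = true := by decide +kernel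
def p15_21_0_18 : pfC (piC [(nat_lit 39120232), (nat_lit 25510466), (nat_lit 18971201), (nat_lit 12765436)] (nat_lit 22256242)) p15_21_0 (nat_lit 4) (nat_lit 18) (nat_lit 19) = true := by decide +kernel
def p15_21_0_19 : pfC (piC [(nat_lit 39120232), (nat_lit 25510466), (nat_lit 18971201), (nat_lit 12765436)] (nat_lit 22256242)) p15_21_0 (nat_lit 4) (nat_lit 19) (nat_lit 20) = true := by decide +kernel
def p15_21_0_20 : pfC (piC [(nat_lit 39120232), (nat_lit 25510466), (nat_lit 18971201), (nat_lit 12765436)] (nat_lit 22256242)) p15_21_0 (nat_lit 4) (nat_lit 20) (nat_lit 21) = true := by decide +kernel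
def p15_21_0_21 : pfC (piC [(nat_lit 39120232), (nat_lit 25510466), (nat_lit 18971201), (nat_lit 12765436)] (nat_lit 22256242)) p15_21_0 (nat_lit 4) (nat_lit 21) (nat_lit 22) = true := by decide +kernel
def p15_21_0_22 : pfC (piC [(nat_lit 39120232), (nat_lit 25510466), (nat_lit 18971201), (nat_lit 12765436)] (nat_lit 22256242)) p15_21_0 (nat_lit 4) (nat_lit 22) (nat_lit 23) = true := by decide +kernel
def p15_21_0_23 : pfC (piC [(nat_lit 39120232), (nat_lit 25510466), (nat_lit 18971201), (nat_lit 12765436)] (nat_lit 22256242)) p15_21_0 (nat_lit 4) (nat_lit 23) (nat_lit 24) = true := by decide +kernel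
def p15_21_0_24 : pfC (piC [(nat_lit 39120232), (nat_lit 25510466), (nat_lit 18971201), (nat_lit 12765436)] (nat_lit 22256242)) p15_21_0 (nat_lit 4) (nat_lit 24) (nat_lit 25) = true := by decide +kernel
def p15_21_0_25 : pfC (piC [(nat_lit 39120232), (nat_lit 25510466), (nat_lit 18971201), (nat_lit 12765436)] (nat_lit 22256242)) p15_21_0 (nat_lit 4) (nat_lit 25) (nat_lit 26) = true := by decide +kernel
def p15_21_0_26 : pfC (piC [(nat_lit 39120232), (nat_lit 25510466), (nat_lit 18971201), (nat_lit 12765436)] (nat_lit 22256242)) p15_21_0 (nat_lit 4) (nat_lit 26) (nat_lit 27) = true := by decide +kernel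
def p15_21_0_27 : pfC (piC [(nat_lit 39120232), (nat_lit 25510466), (nat_lit 18971201), (nat_lit 12765436)] (nat_lit 22256242)) p15_21_0 (nat_lit 4) (nat_lit 27) (nat_lit 28) = true := by decide +kernel
def p15_21_0_28 : pfC (piC [(nat_lit 39120232), (nat_lit 25510466), (nat_lit 18971201), (nat_lit 12765436)] (nat_lit 22256242)) p15_21_0 (nat_lit 4) (nat_lit 28) (nat_lit 29) = true := by decide +kernel
def p15_21_0_29 : pfC (piC [(nat_lit 39120232), (nat_lit 25510466), (nat_lit 18971201), (nat_lit 12765436)] (nat_lit 22256242)) p15_21_0 (nat_lit 4) (nat_lit 29) (nat_lit 30) = true := by decide +kernel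
def p15_21_0_30 : pfC (piC [(nat_lit 39120232), (nat_lit 25510466), (nat_lit 18971201), (nat_lit 12765436)] (nat_lit 22256242)) p15_21_0 (nat_lit 4) (nat_lit 30) (nat_lit 31) = true := by decide +kernel
def p15_21_0_31 : pfC (piC [(nat_lit 39120232), (nat_lit 25510466), (nat_lit 18971201), (nat_lit 12765436)] (nat_lit 22256242)) p15_21_0 (nat_lit 4) (nat_lit 31) (nat_lit 32) = true := by decide +kernel
def p15_21_0_32 : pfC (piC [(nat_lit 39120232), (nat_lit 25510466), (nat_lit 18971201), (nat_lit 12765436)] (nat_lit 22256242)) p15_21_0 (nat_lit 4) (nat_lit 32) (nat_lit 33) = true := by decide +kernel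
def p15_21_0_33 : pfC (piC [(nat_lit 39120232), (nat_lit 25510466), (nat_lit 18971201), (nat_lit 12765436)] (nat_lit 22256242)) p15_21_0 (nat_lit 4) (nat_lit 33) (nat_lit 34) = true := by decide +kernel
def p15_21_0_34 : pfC (piC [(nat_lit 39120232), (nat_lit 25510466), (nat_lit 18971201), (nat_lit 12765436)] (nat_lit 22256242)) p15_21_0 (nat_lit 4) (nat_lit 34) (nat_lit 35) = true := by decide +kernel
def p15_21_0_35 : pfC (piC [(nat_lit 39120232), (nat_lit 25510466), (nat_lit 18971201), (nat_lit 12765436)] (nat_lit 22256242)) p15_21_0 (nat_lit 4) (nat_lit 35) (nat_lit 36) = true := by decide +kernel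
def p15_21_0_36 : pfC (piC [(nat_lit 39120232), (nat_lit 25510466), (nat_lit 18971201), (nat_lit 12765436)] (nat_lit 22256242)) p15_21_0 (nat_lit 4) (nat_lit 36) (nat_lit 37) = true := by decide +kernel
def p15_21_0_37 : pfC (piC [(nat_lit 39120232), (nat_lit 25510466), (nat_lit 18971201), (nat_lit 12765436)] (nat_lit 22256242)) p15_21_0 (nat_lit 4) (nat_lit 37) (nat_lit 38) = true := by decide +kernel
def p15_21_0_38 : pfC (piC [(nat_lit 39120232), (nat_lit 25510466), (nat_lit 18971201), (nat_lit 12765436)] (nat_lit 22256242)) p15_21_0 (nat_lit 4) (nat_lit 38) (nat_lit 39) = true := by decide +kernel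
def p15_21_0_39 : pfC (piC [(nat_lit 39120232), (nat_lit 25510466), (nat_lit 18971201), (nat_lit 12765436)] (nat_lit 22256242)) p15_21_0 (nat_lit 4) (nat_lit 39) (nat_lit 40) = true := by decide +kernel
def p15_21_0_40 : pfC (piC [(nat_lit 39120232), (nat_lit 25510466), (nat_lit 18971201), (nat_lit 12765436)] (nat_lit 22256242)) p15_21_0 (nat_lit 4) (nat_lit 40) (nat_lit 41) = true := by decide +kernel
def p15_21_0_41 : pfC (piC [(nat_lit 39120232), (nat_lit 25510466), (nat_lit 18971201), (nat_lit 12765436)] (nat_lit 22256242)) p15_21_0 (nat_lit 4) (nat_lit 41) (nat_lit 42) = true := by decide +kernel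
def p15_21_0_42 : pfC (piC [(nat_lit 39120232), (nat_lit 25510466), (nat_lit 18971201), (nat_lit 12765436)] (nat_lit 22256242)) p15_21_0 (nat_lit 4) (nat_lit 42) (nat_lit 43) = true := by decide +kernel
def p15_21_0_43 : pfC (piC [(nat_lit 39120232), (nat_lit 25510466), (nat_lit 18971201), (nat_lit 12765436)] (nat_lit 22256242)) p15_21_0 (nat_lit 4) (nat_lit 43) (nat_lit 44) = true := by decide +kernel
def p15_21_0_44 : pfC (piC [(nat_lit 39120232), (nat_lit 25510466), (nat_lit 18971201), (nat_lit 12765436)] (nat_lit 22256242)) p15_21_0 (nat_lit 4) (nat_lit 44) (nat_lit 45) = true := by decide +kernel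
def p15_21_0_45 : pfC (piC [(nat_lit 39120232), (nat_lit 25510466), (nat_lit 18971201), (nat_lit 12765436)] (nat_lit 22256242)) p15_21_0 (nat_lit 4) (nat_lit 45) (nat_lit 46) = true := by decide +kernel
def p15_21_0_46 : pfC (piC [(nat_lit 39120232), (nat_lit 25510466), (nat_lit 18971201), (nat_lit 12765436)] (nat_lit 22256242)) p15_21_0 (nat_lit 4) (nat_lit 46) (nat_lit 47) = true := by decide +kernel
def p15_21_0_47 : pfC (piC [(nat_lit 39120232), (nat_lit 25510466), (nat_lit 18971201), (nat_lit 12765436)] (nat_lit 22256242)) p15_21_0 (nat_lit 4) (nat_lit 47) (nat_lit 48) = true := by decide +kernel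
def p15_21_0_48 : pfC (piC [(nat_lit 39120232), (nat_lit 25510466), (nat_lit 18971201), (nat_lit 12765436)] (nat_lit 22256242)) p15_21_0 (nat_lit 4) (nat_lit 48) (nat_lit 49) = true := by decide +kernel
def p15_21_0_49 : pfC (piC [(nat_lit 39120232), (nat_lit 25510466), (nat_lit 18971201), (nat_lit 12765436)] (nat_lit 22256242)) p15_21_0 (nat_lit 4) (nat_lit 49) (nat_lit 50) = true := by decide +kernel
def p15_21_0_50 : pfC (piC [(nat_lit 39120232), (nat_lit 25510466), (nat_lit 18971201), (nat_lit 12765436)] (nat_lit 22256242)) p15_21_0 (nat_lit 4) (nat_lit 50) (nat_lit 51) = true := by decide +kernel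
def p15_21_0_51 : pfC (piC [(nat_lit 39120232), (nat_lit 25510466), (nat_lit 18971201), (nat_lit 12765436)] (nat_lit 22256242)) p15_21_0 (nat_lit 4) (nat_lit 51) (nat_lit 52) = true := by decide +kernel
def p15_21_0_52 : pfC (piC [(nat_lit 39120232), (nat_lit 25510466), (nat_lit 18971201), (nat_lit 12765436)] (nat_lit 22256242)) p15_21_0 (nat_lit 4) (nat_lit 52) (nat_lit 53) = true := by decide +kernel
def p15_21_0_53 : pfC (piC [(nat_lit 39120232), (nat_lit 25510466), (nat_lit 18971201), (nat_lit 12765436)] (nat_lit 22256242)) p15_21_0 (nat_lit 4) (nat_lit 53) (nat_lit 54) = true := by decide +kernel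
def p15_21_0_54 : pfC (piC [(nat_lit 39120232), (nat_lit 25510466), (nat_lit 18971201), (nat_lit 12765436)] (nat_lit 22256242)) p15_21_0 (nat_lit 4) (nat_lit 54) (nat_lit 55) = true := by decide +kernel
def p15_21_0_55 : pfC (piC [(nat_lit 39120232), (nat_lit 25510466), (nat_lit 18971201), (nat_lit 12765436)] (nat_lit 22256242)) p15_21_0 (nat_lit 4) (nat_lit 55) (nat_lit 56) = true := by decide +kernel
def p15_21_0_56 : pfC (piC [(nat_lit 39120232), (nat_lit 25510466), (nat_lit 18971201), (nat_lit 12765436)] (nat_lit 22256242)) p15_21_0 (nat_lit 4) (nat_lit 56) (nat_lit 57) = true := by decide +kernel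
def p15_21_0_57 : pfC (piC [(nat_lit 39120232), (nat_lit 25510466), (nat_lit 18971201), (nat_lit 12765436)] (nat_lit 22256242)) p15_21_0 (nat_lit 4) (nat_lit 57) (nat_lit 58) = true := by decide +kernel
def p15_21_0_58 : pfC (piC [(nat_lit 39120232), (nat_lit 25510466), (nat_lit 18971201), (nat_lit 12765436)] (nat_lit 22256242)) p15_21_0 (nat_lit 4) (nat_lit 58) (nat_lit 59) = true := by decide +kernel
def p15_21_0_59 : pfC (piC [(nat_lit 39120232), (nat_lit 25510466), (nat_lit 18971201), (nat_lit 12765436)] (nat_lit 22256242)) p15_21_0 (nat_lit 4) (nat_lit 59) (nat_lit 60) = true := by decide +kernel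
def p15_21_0_60 : pfC (piC [(nat_lit 39120232), (nat_lit 25510466), (nat_lit 18971201), (nat_lit 12765436)] (nat_lit 22256242)) p15_21_0 (nat_lit 4) (nat_lit 60) (nat_lit 61) = true := by decide +kernel
def p15_21_0_61 : pfC (piC [(nat_lit 39120232), (nat_lit 25510466), (nat_lit 18971201), (nat_lit 12765436)] (nat_lit 22256242)) p15_21_0 (nat_lit 4) (nat_lit 61) (nat_lit 62) = true := by decide +kernel
def p15_21_0_62 : pfC (piC [(nat_lit 39120232), (nat_lit 25510466), (nat_lit 18971201), (nat_lit 12765436)] (nat_lit 22256242)) p15_21_0 (nat_lit 4) (nat_lit 62) (nat_lit 63) = true := by decide +kernel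
def p15_21_0_63 : pfC (piC [(nat_lit 39120232), (nat_lit 25510466), (nat_lit 18971201), (nat_lit 12765436)] (nat_lit 22256242)) p15_21_0 (nat_lit 4) (nat_lit 63) (nat_lit 64) = true := by decide +kernel
def p15_21_0_64 : pfC (piC [(nat_lit 39120232), (nat_lit 25510466), (nat_lit 18971201), (nat_lit 12765436)] (nat_lit 22256242)) p15_21_0 (nat_lit 4) (nat_lit 64) (nat_lit 65) = true := by decide +kernel
def p15_21_0_65 : pfC (piC [(nat_lit 39120232), (nat_lit 25510466), (nat_lit 18971201), (nat_lit 12765436)] (nat_lit 22256242)) p15_21_0 (nat_lit 4) (nat_lit 65) (nat_lit 66) = true := by decide +kernel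
def p15_21_0_66 : pfC (piC [(nat_lit 39120232), (nat_lit 25510466), (nat_lit 18971201), (nat_lit 12765436)] (nat_lit 22256242)) p15_21_0 (nat_lit 4) (nat_lit 66) (nat_lit 67) = true := by decide +kernel
def p15_21_0_67 : pfC (piC [(nat_lit 39120232), (nat_lit 25510466), (nat_lit 18971201), (nat_lit 12765436)] (nat_lit 22256242)) p15_21_0 (nat_lit 4) (nat_lit 67) (nat_lit 68) = true := by decide +kernel
def p15_21_0_68 : pfC (piC [(nat_lit 39120232), (nat_lit 25510466), (nat_lit 18971201), (nat_lit 12765436)] (nat_lit 22256242)) p15_21_0 (nat_lit 4) (nat_lit 68) (nat_lit 69) = true := by decide +kernel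
def p15_21_0_69 : pfC (piC [(nat_lit 39120232), (nat_lit 25510466), (nat_lit 18971201), (nat_lit 12765436)] (nat_lit 22256242)) p15_21_0 (nat_lit 4) (nat_lit 69) (nat_lit 70) = true := by decide +kernel
def p15_21_0_70 : pfC (piC [(nat_lit 39120232), (nat_lit 25510466), (nat_lit 18971201), (nat_lit 12765436)] (nat_lit 22256242)) p15_21_0 (nat_lit 4) (nat_lit 70) (nat_lit 71) = true := by decide +kernel
def p15_21_0_71 : pfC (piC [(nat_lit 39120232), (nat_lit 25510466), (nat_lit 18971201), (nat_lit 12765436)] (nat_lit 22256242)) p15_21_0 (nat_lit 4) (nat_lit 71) (nat_lit 72) = true := by decide +kernel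
def p15_21_0_72 : pfC (piC [(nat_lit 39120232), (nat_lit 25510466), (nat_lit 18971201), (nat_lit 12765436)] (nat_lit 22256242)) p15_21_0 (nat_lit 4) (nat_lit 72) (nat_lit 73) = true := by decide +kernel
def p15_21_0_73 : pfC (piC [(nat_lit 39120232), (nat_lit 25510466), (nat_lit 18971201), (nat_lit 12765436)] (nat_lit 22256242)) p15_21_0 (nat_lit 4) (nat_lit 73) (nat_lit 74) = true := by decide +kernel
def p15_21_0_74 : pfC (piC [(nat_lit 39120232), (nat_lit 25510466), (nat_lit 18971201), (nat_lit 12765436)] (nat_lit 22256242)) p15_21_0 (nat_lit 4) (nat_lit 74) (nat_lit 75) = true := by decide +kernel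
def p15_21_0_75 : pfC (piC [(nat_lit 39120232), (nat_lit 25510466), (nat_lit 18971201), (nat_lit 12765436)] (nat_lit 22256242)) p15_21_0 (nat_lit 4) (nat_lit 75) (nat_lit 76) = true := by decide +kernel
def p15_21_0_76 : pfC (piC [(nat_lit 39120232), (nat_lit 25510466), (nat_lit 18971201), (nat_lit 12765436)] (nat_lit 22256242)) p15_21_0 (nat_lit 4) (nat_lit 76) (nat_lit 77) = true := by decide +kernel
def p15_21_0_77 : pfC (piC [(nat_lit 39120232), (nat_lit 25510466), (nat_lit 18971201), (nat_lit 12765436)] (nat_lit 22256242)) p15_21_0 (nat_lit 4) (nat_lit 77) (nat_lit 78) = true := by decide +kernel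
def p15_21_0_78 : pfC (piC [(nat_lit 39120232), (nat_lit 25510466), (nat_lit 18971201), (nat_lit 12765436)] (nat_lit 22256242)) p15_21_0 (nat_lit 4) (nat_lit 78) (nat_lit 79) = true := by decide +kernel
def p15_21_0_79 : pfC (piC [(nat_lit 39120232), (nat_lit 25510466), (nat_lit 18971201), (nat_lit 12765436)] (nat_lit 22256242)) p15_21_0 (nat_lit 4) (nat_lit 79) (nat_lit 80) = true := by decide +kernel
def p15_21_0_80 : pfC (piC [(nat_lit 39120232), (nat_lit 25510466), (nat_lit 18971201), (nat_lit 12765436)] (nat_lit 22256242)) p15_21_0 (nat_lit 4) (nat_lit 80) (nat_lit 81) = true := by decide +kernel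
def p15_21_0_81 : pfC (piC [(nat_lit 39120232), (nat_lit 25510466), (nat_lit 18971201), (nat_lit 12765436)] (nat_lit 22256242)) p15_21_0 (nat_lit 4) (nat_lit 81) (nat_lit 82) = true := by decide +kernel
def p15_21_0_82 : pfC (piC [(nat_lit 39120232), (nat_lit 25510466), (nat_lit 18971201), (nat_lit 12765436)] (nat_lit 22256242)) p15_21_0 (nat_lit 4) (nat_lit 82) (nat_lit 83) = true := by decide +kernel
def p15_21_0_83 : pfC (piC [(nat_lit 39120232), (nat_lit 25510466), (nat_lit 18971201), (nat_lit 12765436)] (nat_lit 22256242)) p15_21_0 (nat_lit 4) (nat_lit 83) (nat_lit 84) = true := by decide +kernel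
def p15_21_0_84 : pfC (piC [(nat_lit 39120232), (nat_lit 25510466), (nat_lit 18971201), (nat_lit 12765436)] (nat_lit 22256242)) p15_21_0 (nat_lit 4) (nat_lit 84) (nat_lit 85) = true := by decide +kernel
def p15_21_0_85 : pfC (piC [(nat_lit 39120232), (nat_lit 25510466), (nat_lit 18971201), (nat_lit 12765436)] (nat_lit 22256242)) p15_21_0 (nat_lit 4) (nat_lit 85) (nat_lit 86) = true := by decide +kernel
def p15_21_0_86 : pfC (piC [(nat_lit 39120232), (nat_lit 25510466), (nat_lit 18971201), (nat_lit 12765436)] (nat_lit 22256242)) p15_21_0 (nat_lit 4) (nat_lit 86) (nat_lit 87) = true := by decide +kernel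
def p15_21_0_87 : pfC (piC [(nat_lit 39120232), (nat_lit 25510466), (nat_lit 18971201), (nat_lit 12765436)] (nat_lit 22256242)) p15_21_0 (nat_lit 4) (nat_lit 87) (nat_lit 88) = true := by decide +kernel
def p15_21_0_88 : pfC (piC [(nat_lit 39120232), (nat_lit 25510466), (nat_lit 18971201), (nat_lit 12765436)] (nat_lit 22256242)) p15_21_0 (nat_lit 4) (nat_lit 88) (nat_lit 89) = true := by decide +kernel
def p15_21_0_89 : pfC (piC [(nat_lit 39120232), (nat_lit 25510466), (nat_lit 18971201), (nat_lit 12765436)] (nat_lit 22256242)) p15_21_0 (nat_lit 4) (nat_lit 89) (nat_lit 90) = true := by decide +kernel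
def p15_21_0_90 : pfC (piC [(nat_lit 39120232), (nat_lit 25510466), (nat_lit 18971201), (nat_lit 12765436)] (nat_lit 22256242)) p15_21_0 (nat_lit 4) (nat_lit 90) (nat_lit 91) = true := by decide +kernel
def p15_21_0_91 : pfC (piC [(nat_lit 39120232), (nat_lit 25510466), (nat_lit 18971201), (nat_lit 12765436)] (nat_lit 22256242)) p15_21_0 (nat_lit 4) (nat_lit 91) (nat_lit 92) = true := by decide +kernel
def p15_21_0_92 : pfC (piC [(nat_lit 39120232), (nat_lit 25510466), (nat_lit 18971201), (nat_lit 12765436)] (nat_lit 22256242)) p15_21_0 (nat_lit 4) (nat_lit 92) (nat_lit 93) = true := by decide +kernel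
def p15_21_0_93 : pfC (piC [(nat_lit 39120232), (nat_lit 25510466), (nat_lit 18971201), (nat_lit 12765436)] (nat_lit 22256242)) p15_21_0 (nat_lit 4) (nat_lit 93) (nat_lit 94) = true := by decide +kernel
def p15_21_0_94 : pfC (piC [(nat_lit 39120232), (nat_lit 25510466), (nat_lit 18971201), (nat_lit 12765436)] (nat_lit 22256242)) p15_21_0 (nat_lit 4) (nat_lit 94) (nat_lit 95) = true := by decide +kernel
def p15_21_0_95 : pfC (piC [(nat_lit 39120232), (nat_lit 25510466), (nat_lit 18971201), (nat_lit 12765436)] (nat_lit 22256242)) p15_21_0 (nat_lit 4) (nat_lit 95) (nat_lit 96) = true := by decide +kernel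
def p15_21_0_96 : pfC (piC [(nat_lit 39120232), (nat_lit 25510466), (nat_lit 18971201), (nat_lit 12765436)] (nat_lit 22256242)) p15_21_0 (nat_lit 4) (nat_lit 96) (nat_lit 97) = true := by decide +kernel
def p15_21_0_97 : pfC (piC [(nat_lit 39120232), (nat_lit 25510466), (nat_lit 18971201), (nat_lit 12765436)] (nat_lit 22256242)) p15_21_0 (nat_lit 4) (nat_lit 97) (nat_lit 98) = true := by decide +kernel
def p15_21_0_98 : pfC (piC [(nat_lit 39120232), (nat_lit 25510466), (nat_lit 18971201), (nat_lit 12765436)] (nat_lit 22256242)) p15_21_0 (nat_lit 4) (nat_lit 98) (nat_lit 99) = true := by decide +kernel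
def p15_21_0_99 : pfC (piC [(nat_lit 39120232), (nat_lit 25510466), (nat_lit 18971201), (nat_lit 12765436)] (nat_lit 22256242)) p15_21_0 (nat_lit 4) (nat_lit 99) (nat_lit 100) = true := by decide +kernel
def p15_21_0_100 : pfC (piC [(nat_lit 39120232), (nat_lit 25510466), (nat_lit 18971201), (nat_lit 12765436)] (nat_lit 22256242)) p15_21_0 (nat_lit 4) (nat_lit 100) (nat_lit 101) = true := by decide +kernel
def p15_21_0_101 : pfC (piC [(nat_lit 39120232), (nat_lit 25510466), (nat_lit 18971201), (nat_lit 12765436)] (nat_lit 22256242)) p15_21_0 (nat_lit 4) (nat_lit 101) (nat_lit 102) = true := by decide +kernel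
def p15_21_0_102 : pfC (piC [(nat_lit 39120232), (nat_lit 25510466), (nat_lit 18971201), (nat_lit 12765436)] (nat_lit 22256242)) p15_21_0 (nat_lit 4) (nat_lit 102) (nat_lit 103) = true := by decide +kernel
def p15_21_0_103 : pfC (piC [(nat_lit 39120232), (nat_lit 25510466), (nat_lit 18971201), (nat_lit 12765436)] (nat_lit 22256242)) p15_21_0 (nat_lit 4) (nat_lit 103) (nat_lit 104) = true := by decide +kernel
def p15_21_0_104 : pfC (piC [(nat_lit 39120232), (nat_lit 25510466), (nat_lit 18971201), (nat_lit 12765436)] (nat_lit 22256242)) p15_21_0 (nat_lit 4) (nat_lit 104) (nat_lit 105) = true := by decide +kernel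
def p15_21_0_105 : pfC (piC [(nat_lit 39120232), (nat_lit 25510466), (nat_lit 18971201), (nat_lit 12765436)] (nat_lit 22256242)) p15_21_0 (nat_lit 4) (nat_lit 105) (nat_lit 106) = true := by decide +kernel
def p15_21_0_106 : pfC (piC [(nat_lit 39120232), (nat_lit 25510466), (nat_lit 18971201), (nat_lit 12765436)] (nat_lit 22256242)) p15_21_0 (nat_lit 4) (nat_lit 106) (nat_lit 107) = true := by decide +kernel
def p15_21_0_107 : pfC (piC [(nat_lit 39120232), (nat_lit 25510466), (nat_lit 18971201), (nat_lit 12765436)] (nat_lit 22256242)) p15_21_0 (nat_lit 4) (nat_lit 107) (nat_lit 108) = true := by decide +kernel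
def p15_21_0_108 : pfC (piC [(nat_lit 39120232), (nat_lit 25510466), (nat_lit 18971201), (nat_lit 12765436)] (nat_lit 22256242)) p15_21_0 (nat_lit 4) (nat_lit 108) (nat_lit 109) = true := by decide +kernel
def p15_21_0_109 : pfC (piC [(nat_lit 39120232), (nat_lit 25510466), (nat_lit 18971201), (nat_lit 12765436)] (nat_lit 22256242)) p15_21_0 (nat_lit 4) (nat_lit 109) (nat_lit 110) = true := by decide +kernel
def p15_21_0_110 : pfC (piC [(nat_lit 39120232), (nat_lit 25510466), (nat_lit 18971201), (nat_lit 12765436)] (nat_lit 22256242)) p15_21_0 (nat_lit 4) (nat_lit 110) (nat_lit 111) = true := by decide +kernel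
def p15_21_0_111 : pfC (piC [(nat_lit 39120232), (nat_lit 25510466), (nat_lit 18971201), (nat_lit 12765436)] (nat_lit 22256242)) p15_21_0 (nat_lit 4) (nat_lit 111) (nat_lit 112) = true := by decide +kernel
def p15_21_0_112 : pfC (piC [(nat_lit 39120232), (nat_lit 25510466), (nat_lit 18971201), (nat_lit 12765436)] (nat_lit 22256242)) p15_21_0 (nat_lit 4) (nat_lit 112) (nat_lit 113) = true := by decide +kernel
def p15_21_0_113 : pfC (piC [(nat_lit 39120232), (nat_lit 25510466), (nat_lit 18971201), (nat_lit 12765436)] (nat_lit 22256242)) p15_21_0 (nat_lit 4) (nat_lit 113) (nat_lit 114) = true := by decide +kernel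
def p15_21_0_114 : pfC (piC [(nat_lit 39120232), (nat_lit 25510466), (nat_lit 18971201), (nat_lit 12765436)] (nat_lit 22256242)) p15_21_0 (nat_lit 4) (nat_lit 114) (nat_lit 115) = true := by decide +kernel
def p15_21_0_115 : pfC (piC [(nat_lit 39120232), (nat_lit 25510466), (nat_lit 18971201), (nat_lit 12765436)] (nat_lit 22256242)) p15_21_0 (nat_lit 4) (nat_lit 115) (nat_lit 116) = true := by decide +kernel
def p15_21_0_116 : pfC (piC [(nat_lit 39120232), (nat_lit 25510466), (nat_lit 18971201), (nat_lit 12765436)] (nat_lit 22256242)) p15_21_0 (nat_lit 4) (nat_lit 116) (nat_lit 117) = true := by decide +kernel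
def p15_21_0_117 : pfC (piC [(nat_lit 39120232), (nat_lit 25510466), (nat_lit 18971201), (nat_lit 12765436)] (nat_lit 22256242)) p15_21_0 (nat_lit 4) (nat_lit 117) (nat_lit 118) = true := by decide +kernel
def p15_21_0_118 : pfC (piC [(nat_lit 39120232), (nat_lit 25510466), (nat_lit 18971201), (nat_lit 12765436)] (nat_lit 22256242)) p15_21_0 (nat_lit 4) (nat_lit 118) (nat_lit 119) = true := by decide +kernel
def p15_21_0_119 : pfC (piC [(nat_lit 39120232), (nat_lit 25510466), (nat_lit 18971201), (nat_lit 12765436)] (nat_lit 22256242)) p15_21_0 (nat_lit 4) (nat_lit 119) (nat_lit 120) = true := by decide +kernel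
def p15_21_0_120 : pfC (piC [(nat_lit 39120232), (nat_lit 25510466), (nat_lit 18971201), (nat_lit 12765436)] (nat_lit 22256242)) p15_21_0 (nat_lit 4) (nat_lit 120) (nat_lit 121) = true := by decide +kernel
def p15_21_0_121 : pfC (piC [(nat_lit 39120232), (nat_lit 25510466), (nat_lit 18971201), (nat_lit 12765436)] (nat_lit 22256242)) p15_21_0 (nat_lit 4) (nat_lit 121) (nat_lit 122) = true := by decide +kernel
def p15_21_0_122 : pfC (piC [(nat_lit 39120232), (nat_lit 25510466), (nat_lit 18971201), (nat_lit 12765436)] (nat_lit 22256242)) p15_21_0 (nat_lit 4) (nat_lit 122) (nat_lit 123) = true := by decide +kernel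
def p15_21_0_123 : pfC (piC [(nat_lit 39120232), (nat_lit 25510466), (nat_lit 18971201), (nat_lit 12765436)] (nat_lit 22256242)) p15_21_0 (nat_lit 4) (nat_lit 123) (nat_lit 124) = true := by decide +kernel
def p15_21_0_124 : pfC (piC [(nat_lit 39120232), (nat_lit 25510466), (nat_lit 18971201), (nat_lit 12765436)] (nat_lit 22256242)) p15_21_0 (nat_lit 4) (nat_lit 124) (nat_lit 125) = true := by decide +kernel
def p15_21_0_125 : pfC (piC [(nat_lit 39120232), (nat_lit 25510466), (nat_lit 18971201), (nat_lit 12765436)] (nat_lit 22256242)) p15_21_0 (nat_lit 4) (nat_lit 125) (nat_lit 126) = true := by decide +kernel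
def p15_21_0_126 : pfC (piC [(nat_lit 39120232), (nat_lit 25510466), (nat_lit 18971201), (nat_lit 12765436)] (nat_lit 22256242)) p15_21_0 (nat_lit 4) (nat_lit 126) (nat_lit 127) = true := by decide +kernel
def p15_21_0_127 : pfC (piC [(nat_lit 39120232), (nat_lit 25510466), (nat_lit 18971201), (nat_lit 12765436)] (nat_lit 22256242)) p15_21_0 (nat_lit 4) (nat_lit 127) (nat_lit 128) = true := by decide +kernel
def p15_21_0_128 : pfC (piC [(nat_lit 39120232), (nat_lit 25510466), (nat_lit 18971201), (nat_lit 12765436)] (nat_lit 22256242)) p15_21_0 (nat_lit 4) (nat_lit 128) (nat_lit 129) = true := by decide +kernel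
def p15_21_0_129 : pfC (piC [(nat_lit 39120232), (nat_lit 25510466), (nat_lit 18971201), (nat_lit 12765436)] (nat_lit 22256242)) p15_21_0 (nat_lit 4) (nat_lit 129) (nat_lit 130) = true := by decide +kernel
def p15_21_0_130 : pfC (piC [(nat_lit 39120232), (nat_lit 25510466), (nat_lit 18971201), (nat_lit 12765436)] (nat_lit 22256242)) p15_21_0 (nat_lit 4) (nat_lit 130) (nat_lit 131) = true := by decide +kernel
def p15_21_0_131 : pfC (piC [(nat_lit 39120232), (nat_lit 25510466), (nat_lit 18971201), (nat_lit 12765436)] (nat_lit 22256242)) p15_21_0 (nat_lit 4) (nat_lit 131) (nat_lit 132) = true := by decide +kernel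
def p15_21_0_132 : pfC (piC [(nat_lit 39120232), (nat_lit 25510466), (nat_lit 18971201), (nat_lit 12765436)] (nat_lit 22256242)) p15_21_0 (nat_lit 4) (nat_lit 132) (nat_lit 133) = true := by decide +kernel
def p15_21_0_133 : pfC (piC [(nat_lit 39120232), (nat_lit 25510466), (nat_lit 18971201), (nat_lit 12765436)] (nat_lit 22256242)) p15_21_0 (nat_lit 4) (nat_lit 133) (nat_lit 134) = true := by decide +kernel
def p15_21_0_134 : pfC (piC [(nat_lit 39120232), (nat_lit 25510466), (nat_lit 18971201), (nat_lit 12765436)] (nat_lit 22256242)) p15_21_0 (nat_lit 4) (nat_lit 134) (nat_lit 135) = true := by decide +kernel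
def p15_21_0_135 : pfC (piC [(nat_lit 39120232), (nat_lit 25510466), (nat_lit 18971201), (nat_lit 12765436)] (nat_lit 22256242)) p15_21_0 (nat_lit 4) (nat_lit 135) (nat_lit 136) = true := by decide +kernel
def p15_21_0_136 : pfC (piC [(nat_lit 39120232), (nat_lit 25510466), (nat_lit 18971201), (nat_lit 12765436)] (nat_lit 22256242)) p15_21_0 (nat_lit 4) (nat_lit 136) (nat_lit 137) = true := by decide +kernel
def p15_21_0_137 : pfC (piC [(nat_lit 39120232), (nat_lit 25510466), (nat_lit 18971201), (nat_lit 12765436)] (nat_lit 22256242)) p15_21_0 (nat_lit 4) (nat_lit 137) (nat_lit 138) = true := by decide +kernel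
def p15_21_0_138 : pfC (piC [(nat_lit 39120232), (nat_lit 25510466), (nat_lit 18971201), (nat_lit 12765436)] (nat_lit 22256242)) p15_21_0 (nat_lit 4) (nat_lit 138) (nat_lit 139) = true := by decide +kernel
def p15_21_0_139 : pfC (piC [(nat_lit 39120232), (nat_lit 25510466), (nat_lit 18971201), (nat_lit 12765436)] (nat_lit 22256242)) p15_21_0 (nat_lit 4) (nat_lit 139) (nat_lit 140) = true := by decide +kernel
def p15_21_0_140 : pfC (piC [(nat_lit 39120232), (nat_lit 25510466), (nat_lit 18971201), (nat_lit 12765436)] (nat_lit 22256242)) p15_21_0 (nat_lit 4) (nat_lit 140) (nat_lit 141) = true := by decide +kernel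
def p15_21_0_141 : pfC (piC [(nat_lit 39120232), (nat_lit 25510466), (nat_lit 18971201), (nat_lit 12765436)] (nat_lit 22256242)) p15_21_0 (nat_lit 4) (nat_lit 141) (nat_lit 142) = true := by decide +kernel
def p15_21_0_142 : pfC (piC [(nat_lit 39120232), (nat_lit 25510466), (nat_lit 18971201), (nat_lit 12765436)] (nat_lit 22256242)) p15_21_0 (nat_lit 4) (nat_lit 142) (nat_lit 143) = true := by decide +kernel
def p15_21_0_143 : pfC (piC [(nat_lit 39120232), (nat_lit 25510466), (nat_lit 18971201), (nat_lit 12765436)] (nat_lit 22256242)) p15_21_0 (nat_lit 4) (nat_lit 143) (nat_lit 144) = true := by decide +kernel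
def p15_21_0_144 : pfC (piC [(nat_lit 39120232), (nat_lit 25510466), (nat_lit 18971201), (nat_lit 12765436)] (nat_lit 22256242)) p15_21_0 (nat_lit 4) (nat_lit 144) (nat_lit 145) = true := by decide +kernel
def p15_21_0_145 : pfC (piC [(nat_lit 39120232), (nat_lit 25510466), (nat_lit 18971201), (nat_lit 12765436)] (nat_lit 22256242)) p15_21_0 (nat_lit 4) (nat_lit 145) (nat_lit 146) = true := by decide +kernel
def p15_21_0_146 : pfC (piC [(nat_lit 39120232), (nat_lit 25510466), (nat_lit 18971201), (nat_lit 12765436)] (nat_lit 22256242)) p15_21_0 (nat_lit 4) (nat_lit 146) (nat_lit 147) = true := by decide +kernel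
def p15_21_0_147 : pfC (piC [(nat_lit 39120232), (nat_lit 25510466), (nat_lit 18971201), (nat_lit 12765436)] (nat_lit 22256242)) p15_21_0 (nat_lit 4) (nat_lit 147) (nat_lit 148) = true := by decide +kernel
def p15_21_0_148 : pfC (piC [(nat_lit 39120232), (nat_lit 25510466), (nat_lit 18971201), (nat_lit 12765436)] (nat_lit 22256242)) p15_21_0 (nat_lit 4) (nat_lit 148) (nat_lit 149) = true := by decide +kernel
def p15_21_0_149 : pfC (piC [(nat_lit 39120232), (nat_lit 25510466), (nat_lit 18971201), (nat_lit 12765436)] (nat_lit 22256242)) p15_21_0 (nat_lit 4) (nat_lit 149) (nat_lit 150) = true := by decide +kernel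
def p15_21_0_150 : pfC (piC [(nat_lit 39120232), (nat_lit 25510466), (nat_lit 18971201), (nat_lit 12765436)] (nat_lit 22256242)) p15_21_0 (nat_lit 4) (nat_lit 150) (nat_lit 151) = true := by decide +kernel
def p15_21_0_151 : pfC (piC [(nat_lit 39120232), (nat_lit 25510466), (nat_lit 18971201), (nat_lit 12765436)] (nat_lit 22256242)) p15_21_0 (nat_lit 4) (nat_lit 151) (nat_lit 152) = true := by decide +kernel
def p15_21_0_152 : pfC (piC [(nat_lit 39120232), (nat_lit 25510466), (nat_lit 18971201), (nat_lit 12765436)] (nat_lit 22256242)) p15_21_0 (nat_lit 4) (nat_lit 152) (nat_lit 153) = true := by decide +kernel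
def p15_21_0_153 : pfC (piC [(nat_lit 39120232), (nat_lit 25510466), (nat_lit 18971201), (nat_lit 12765436)] (nat_lit 22256242)) p15_21_0 (nat_lit 4) (nat_lit 153) (nat_lit 154) = true := by decide +kernel
def p15_21_0_154 : pfC (piC [(nat_lit 39120232), (nat_lit 25510466), (nat_lit 18971201), (nat_lit 12765436)] (nat_lit 22256242)) p15_21_0 (nat_lit 4) (nat_lit 154) (nat_lit 155) = true := by decide +kernel
def p15_21_0_155 : pfC (piC [(nat_lit 39120232), (nat_lit 25510466), (nat_lit 18971201), (nat_lit 12765436)] (nat_lit 22256242)) p15_21_0 (nat_lit 4) (nat_lit 155) (nat_lit 156) = true := by decide +kernel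
def p15_21_0_156 : pfC (piC [(nat_lit 39120232), (nat_lit 25510466), (nat_lit 18971201), (nat_lit 12765436)] (nat_lit 22256242)) p15_21_0 (nat_lit 4) (nat_lit 156) (nat_lit 157) = true := by decide +kernel
def p15_21_0_157 : pfC (piC [(nat_lit 39120232), (nat_lit 25510466), (nat_lit 18971201), (nat_lit 12765436)] (nat_lit 22256242)) p15_21_0 (nat_lit 4) (nat_lit 157) (nat_lit 158) = true := by decide +kernel
def p15_21_0_158 : pfC (piC [(nat_lit 39120232), (nat_lit 25510466), (nat_lit 18971201), (nat_lit 12765436)] (nat_lit 22256242)) p15_21_0 (nat_lit 4) (nat_lit 158) (nat_lit 159) = true := by decide +kernel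
def p15_21_0_159 : pfC (piC [(nat_lit 39120232), (nat_lit 25510466), (nat_lit 18971201), (nat_lit 12765436)] (nat_lit 22256242)) p15_21_0 (nat_lit 4) (nat_lit 159) (nat_lit 160) = true := by decide +kernel
def p15_21_0_160 : pfC (piC [(nat_lit 39120232), (nat_lit 25510466), (nat_lit 18971201), (nat_lit 12765436)] (nat_lit 22256242)) p15_21_0 (nat_lit 4) (nat_lit 160) (nat_lit 161) = true := by decide +kernel
def p15_21_0_161 : pfC (piC [(nat_lit 39120232), (nat_lit 25510466), (nat_lit 18971201), (nat_lit 12765436)] (nat_lit 22256242)) p15_21_0 (nat_lit 4) (nat_lit 161) (nat_lit 162) = true := by decide +kernel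
def p15_21_0_162 : pfC (piC [(nat_lit 39120232), (nat_lit 25510466), (nat_lit 18971201), (nat_lit 12765436)] (nat_lit 22256242)) p15_21_0 (nat_lit 4) (nat_lit 162) (nat_lit 163) = true := by decide +kernel
def p15_21_0_163 : pfC (piC [(nat_lit 39120232), (nat_lit 25510466), (nat_lit 18971201), (nat_lit 12765436)] (nat_lit 22256242)) p15_21_0 (nat_lit 4) (nat_lit 163) (nat_lit 164) = true := by decide +kernel
def p15_21_0_164 : pfC (piC [(nat_lit 39120232), (nat_lit 25510466), (nat_lit 18971201), (nat_lit 12765436)] (nat_lit 22256242)) p15_21_0 (nat_lit 4) (nat_lit 164) (nat_lit 165) = true := by decide +kernel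
def p15_21_0_165 : pfC (piC [(nat_lit 39120232), (nat_lit 25510466), (nat_lit 18971201), (nat_lit 12765436)] (nat_lit 22256242)) p15_21_0 (nat_lit 4) (nat_lit 165) (nat_lit 166) = true := by decide +kernel
def p15_21_0_166 : pfC (piC [(nat_lit 39120232), (nat_lit 25510466), (nat_lit 18971201), (nat_lit 12765436)] (nat_lit 22256242)) p15_21_0 (nat_lit 4) (nat_lit 166) (nat_lit 167) = true := by decide +kernel
def p15_21_0_167 : pfC (piC [(nat_lit 39120232), (nat_lit 25510466), (nat_lit 18971201), (nat_lit 12765436)] (nat_lit 22256242)) p15_21_0 (nat_lit 4) (nat_lit 167) (nat_lit 168) = true := by decide +kernel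
def p15_21_0_168 : pfC (piC [(nat_lit 39120232), (nat_lit 25510466), (nat_lit 18971201), (nat_lit 12765436)] (nat_lit 22256242)) p15_21_0 (nat_lit 4) (nat_lit 168) (nat_lit 169) = true := by decide +kernel
def p15_21_0_169 : pfC (piC [(nat_lit 39120232), (nat_lit 25510466), (nat_lit 18971201), (nat_lit 12765436)] (nat_lit 22256242)) p15_21_0 (nat_lit 4) (nat_lit 169) (nat_lit 170) = true := by decide +kernel
def p15_21_0_170 : pfC (piC [(nat_lit 39120232), (nat_lit 25510466), (nat_lit 18971201), (nat_lit 12765436)] (nat_lit 22256242)) p15_21_0 (nat_lit 4) (nat_lit 170) (nat_lit 171) = true := by decide +kernel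
def p15_21_0_171 : pfC (piC [(nat_lit 39120232), (nat_lit 25510466), (nat_lit 18971201), (nat_lit 12765436)] (nat_lit 22256242)) p15_21_0 (nat_lit 4) (nat_lit 171) (nat_lit 172) = true := by decide +kernel
def p15_21_0_172 : pfC (piC [(nat_lit 39120232), (nat_lit 25510466), (nat_lit 18971201), (nat_lit 12765436)] (nat_lit 22256242)) p15_21_0 (nat_lit 4) (nat_lit 172) (nat_lit 173) = true := by decide +kernel
def p15_21_0_173 : pfC (piC [(nat_lit 39120232), (nat_lit 25510466), (nat_lit 18971201), (nat_lit 12765436)] (nat_lit 22256242)) p15_21_0 (nat_lit 4) (nat_lit 173) (nat_lit 174) = true := by decide +kernel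
def p15_21_0_174 : pfC (piC [(nat_lit 39120232), (nat_lit 25510466), (nat_lit 18971201), (nat_lit 12765436)] (nat_lit 22256242)) p15_21_0 (nat_lit 4) (nat_lit 174) (nat_lit 175) = true := by decide +kernel
def p15_21_0_175 : pfC (piC [(nat_lit 39120232), (nat_lit 25510466), (nat_lit 18971201), (nat_lit 12765436)] (nat_lit 22256242)) p15_21_0 (nat_lit 4) (nat_lit 175) (nat_lit 176) = true := by decide +kernel
def p15_21_0_176 : pfC (piC [(nat_lit 39120232), (nat_lit 25510466), (nat_lit 18971201), (nat_lit 12765436)] (nat_lit 22256242)) p15_21_0 (nat_lit 4) (nat_lit 176) (nat_lit 177) = true := by decide +kernel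
def p15_21_0_177 : pfC (piC [(nat_lit 39120232), (nat_lit 25510466), (nat_lit 18971201), (nat_lit 12765436)] (nat_lit 22256242)) p15_21_0 (nat_lit 4) (nat_lit 177) (nat_lit 178) = true := by decide +kernel
def p15_21_0_178 : pfC (piC [(nat_lit 39120232), (nat_lit 25510466), (nat_lit 18971201), (nat_lit 12765436)] (nat_lit 22256242)) p15_21_0 (nat_lit 4) (nat_lit 178) (nat_lit 179) = true := by decide +kernel
def p15_21_0_179 : pfC (piC [(nat_lit 39120232), (nat_lit 25510466), (nat_lit 18971201), (nat_lit 12765436)] (nat_lit 22256242)) p15_21_0 (nat_lit 4) (nat_lit 179) (nat_lit 180) = true := by decide +kernel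
def p15_21_0_180 : pfC (piC [(nat_lit 39120232), (nat_lit 25510466), (nat_lit 18971201), (nat_lit 12765436)] (nat_lit 22256242)) p15_21_0 (nat_lit 4) (nat_lit 180) (nat_lit 181) = true := by decide +kernel
def p15_21_0_181 : pfC (piC [(nat_lit 39120232), (nat_lit 25510466), (nat_lit 18971201), (nat_lit 12765436)] (nat_lit 22256242)) p15_21_0 (nat_lit 4) (nat_lit 181) (nat_lit 182) = true := by decide +kernel
def p15_21_0_182 : pfC (piC [(nat_lit 39120232), (nat_lit 25510466), (nat_lit 18971201), (nat_lit 12765436)] (nat_lit 22256242)) p15_21_0 (nat_lit 4) (nat_lit 182) (nat_lit 183) = true := by decide +kernel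
def p15_21_0_183 : pfC (piC [(nat_lit 39120232), (nat_lit 25510466), (nat_lit 18971201), (nat_lit 12765436)] (nat_lit 22256242)) p15_21_0 (nat_lit 4) (nat_lit 183) (nat_lit 184) = true := by decide +kernel
def p15_21_0_184 : pfC (piC [(nat_lit 39120232), (nat_lit 25510466), (nat_lit 18971201), (nat_lit 12765436)] (nat_lit 22256242)) p15_21_0 (nat_lit 4) (nat_lit 184) (nat_lit 185) = true := by decide +kernel
def p15_21_0_185 : pfC (piC [(nat_lit 39120232), (nat_lit 25510466), (nat_lit 18971201), (nat_lit 12765436)] (nat_lit 22256242)) p15_21_0 (nat_lit 4) (nat_lit 185) (nat_lit 186) = true := by decide +kernel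
def p15_21_0_186 : pfC (piC [(nat_lit 39120232), (nat_lit 25510466), (nat_lit 18971201), (nat_lit 12765436)] (nat_lit 22256242)) p15_21_0 (nat_lit 4) (nat_lit 186) (nat_lit 187) = true := by decide +kernel
def p15_21_0_187 : pfC (piC [(nat_lit 39120232), (nat_lit 25510466), (nat_lit 18971201), (nat_lit 12765436)] (nat_lit 22256242)) p15_21_0 (nat_lit 4) (nat_lit 187) (nat_lit 188) = true := by decide +kernel
def p15_21_0_188 : pfC (piC [(nat_lit 39120232), (nat_lit 25510466), (nat_lit 18971201), (nat_lit 12765436)] (nat_lit 22256242)) p15_21_0 (nat_lit 4) (nat_lit 188) (nat_lit 189) = true := by decide +kernel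
def p15_21_0_189 : pfC (piC [(nat_lit 39120232), (nat_lit 25510466), (nat_lit 18971201), (nat_lit 12765436)] (nat_lit 22256242)) p15_21_0 (nat_lit 4) (nat_lit 189) (nat_lit 190) = true := by decide +kernel
def p15_21_0_190 : pfC (piC [(nat_lit 39120232), (nat_lit 25510466), (nat_lit 18971201), (nat_lit 12765436)] (nat_lit 22256242)) p15_21_0 (nat_lit 4) (nat_lit 190) (nat_lit 191) = true := by decide +kernel
def p15_21_0_191 : pfC (piC [(nat_lit 39120232), (nat_lit 25510466), (nat_lit 18971201), (nat_lit 12765436)] (nat_lit 22256242)) p15_21_0 (nat_lit 4) (nat_lit 191) (nat_lit 192) = true := by decide +kernel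
def p15_21_0_192 : pfC (piC [(nat_lit 39120232), (nat_lit 25510466), (nat_lit 18971201), (nat_lit 12765436)] (nat_lit 22256242)) p15_21_0 (nat_lit 4) (nat_lit 192) (nat_lit 193) = true := by decide +kernel
def p15_21_0_193 : pfC (piC [(nat_lit 39120232), (nat_lit 25510466), (nat_lit 18971201), (nat_lit 12765436)] (nat_lit 22256242)) p15_21_0 (nat_lit 4) (nat_lit 193) (nat_lit 194) = true := by decide +kernel
def p15_21_0_194 : pfC (piC [(nat_lit 39120232), (nat_lit 25510466), (nat_lit 18971201), (nat_lit 12765436)] (nat_lit 22256242)) p15_21_0 (nat_lit 4) (nat_lit 194) (nat_lit 195) = true := by decide +kernel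
def p15_21_0_195 : pfC (piC [(nat_lit 39120232), (nat_lit 25510466), (nat_lit 18971201), (nat_lit 12765436)] (nat_lit 22256242)) p15_21_0 (nat_lit 4) (nat_lit 195) (nat_lit 196) = true := by decide +kernel
def p15_21_0_196 : pfC (piC [(nat_lit 39120232), (nat_lit 25510466), (nat_lit 18971201), (nat_lit 12765436)] (nat_lit 22256242)) p15_21_0 (nat_lit 4) (nat_lit 196) (nat_lit 197) = true := by decide +kernel
def p15_21_0_197 : pfC (piC [(nat_lit 39120232), (nat_lit 25510466), (nat_lit 18971201), (nat_lit 12765436)] (nat_lit 22256242)) p15_21_0 (nat_lit 4) (nat_lit 197) (nat_lit 198) = true := by decide +kernel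
def p15_21_0_198 : pfC (piC [(nat_lit 39120232), (nat_lit 25510466), (nat_lit 18971201), (nat_lit 12765436)] (nat_lit 22256242)) p15_21_0 (nat_lit 4) (nat_lit 198) (nat_lit 199) = true := by decide +kernel
def p15_21_0_199 : pfC (piC [(nat_lit 39120232), (nat_lit 25510466), (nat_lit 18971201), (nat_lit 12765436)] (nat_lit 22256242)) p15_21_0 (nat_lit 4) (nat_lit 199) (nat_lit 200) = true := by decide +kernel
def p15_21_0_200 : pfC (piC [(nat_lit 39120232), (nat_lit 25510466), (nat_lit 18971201), (nat_lit 12765436)] (nat_lit 22256242)) p15_21_0 (nat_lit 4) (nat_lit 200) (nat_lit 201) = true := by decide +kernel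
def p15_21_0_201 : pfC (piC [(nat_lit 39120232), (nat_lit 25510466), (nat_lit 18971201), (nat_lit 12765436)] (nat_lit 22256242)) p15_21_0 (nat_lit 4) (nat_lit 201) (nat_lit 202) = true := by decide +kernel
def p15_21_0_202 : pfC (piC [(nat_lit 39120232), (nat_lit 25510466), (nat_lit 18971201), (nat_lit 12765436)] (nat_lit 22256242)) p15_21_0 (nat_lit 4) (nat_lit 202) (nat_lit 203) = true := by decide +kernel
def p15_21_0_203 : pfC (piC [(nat_lit 39120232), (nat_lit 25510466), (nat_lit 18971201), (nat_lit 12765436)] (nat_lit 22256242)) p15_21_0 (nat_lit 4) (nat_lit 203) (nat_lit 204) = true := by decide +kernel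
def p15_21_0_204 : pfC (piC [(nat_lit 39120232), (nat_lit 25510466), (nat_lit 18971201), (nat_lit 12765436)] (nat_lit 22256242)) p15_21_0 (nat_lit 4) (nat_lit 204) (nat_lit 205) = true := by decide +kernel
def p15_21_0_205 : pfC (piC [(nat_lit 39120232), (nat_lit 25510466), (nat_lit 18971201), (nat_lit 12765436)] (nat_lit 22256242)) p15_21_0 (nat_lit 4) (nat_lit 205) (nat_lit 206) = true := by decide +kernel
def p15_21_0_206 : pfC (piC [(nat_lit 39120232), (nat_lit 25510466), (nat_lit 18971201), (nat_lit 12765436)] (nat_lit 22256242)) p15_21_0 (nat_lit 4) (nat_lit 206) (nat_lit 207) = true := by decide +kernel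
def p15_21_0_207 : pfC (piC [(nat_lit 39120232), (nat_lit 25510466), (nat_lit 18971201), (nat_lit 12765436)] (nat_lit 22256242)) p15_21_0 (nat_lit 4) (nat_lit 207) (nat_lit 208) = true := by decide +kernel
def p15_21_0_208 : pfC (piC [(nat_lit 39120232), (nat_lit 25510466), (nat_lit 18971201), (nat_lit 12765436)] (nat_lit 22256242)) p15_21_0 (nat_lit 4) (nat_lit 208) (nat_lit 209) = true := by decide +kernel
def p15_21_0_209 : pfC (piC [(nat_lit 39120232), (nat_lit 25510466), (nat_lit 18971201), (nat_lit 12765436)] (nat_lit 22256242)) p15_21_0 (nat_lit 4) (nat_lit 209) (nat_lit 210) = true := by decide +kernel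
def p15_21_0_210 : pfC (piC [(nat_lit 39120232), (nat_lit 25510466), (nat_lit 18971201), (nat_lit 12765436)] (nat_lit 22256242)) p15_21_0 (nat_lit 4) (nat_lit 210) (nat_lit 211) = true := by decide +kernel
def p15_21_0_211 : pfC (piC [(nat_lit 39120232), (nat_lit 25510466), (nat_lit 18971201), (nat_lit 12765436)] (nat_lit 22256242)) p15_21_0 (nat_lit 4) (nat_lit 211) (nat_lit 212) = true := by decide +kernel
def p15_21_0_212 : pfC (piC [(nat_lit 39120232), (nat_lit 25510466), (nat_lit 18971201), (nat_lit 12765436)] (nat_lit 22256242)) p15_21_0 (nat_lit 4) (nat_lit 212) (nat_lit 213) = true := by decide +kernel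
def p15_21_0_213 : pfC (piC [(nat_lit 39120232), (nat_lit 25510466), (nat_lit 18971201), (nat_lit 12765436)] (nat_lit 22256242)) p15_21_0 (nat_lit 4) (nat_lit 213) (nat_lit 214) = true := by decide +kernel
def p15_21_0_214 : pfC (piC [(nat_lit 39120232), (nat_lit 25510466), (nat_lit 18971201), (nat_lit 12765436)] (nat_lit 22256242)) p15_21_0 (nat_lit 4) (nat_lit 214) (nat_lit 215) = true := by decide +kernel
def p15_21_0_215 : pfC (piC [(nat_lit 39120232), (nat_lit 25510466), (nat_lit 18971201), (nat_lit 12765436)] (nat_lit 22256242)) p15_21_0 (nat_lit 4) (nat_lit 215) (nat_lit 216) = true := by decide +kernel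
def p15_21_0_216 : pfC (piC [(nat_lit 39120232), (nat_lit 25510466), (nat_lit 18971201), (nat_lit 12765436)] (nat_lit 22256242)) p15_21_0 (nat_lit 4) (nat_lit 216) (nat_lit 217) = true := by decide +kernel
def p15_21_0_217 : pfC (piC [(nat_lit 39120232), (nat_lit 25510466), (nat_lit 18971201), (nat_lit 12765436)] (nat_lit 22256242)) p15_21_0 (nat_lit 4) (nat_lit 217) (nat_lit 218) = true := by decide +kernel
def p15_21_0_218 : pfC (piC [(nat_lit 39120232), (nat_lit 25510466), (nat_lit 18971201), (nat_lit 12765436)] (nat_lit 22256242)) p15_21_0 (nat_lit 4) (nat_lit 218) (nat_lit 219) = true := by decide +kernel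
def p15_21_0_219 : pfC (piC [(nat_lit 39120232), (nat_lit 25510466), (nat_lit 18971201), (nat_lit 12765436)] (nat_lit 22256242)) p15_21_0 (nat_lit 4) (nat_lit 219) (nat_lit 220) = true := by decide +kernel
def p15_21_0_220 : pfC (piC [(nat_lit 39120232), (nat_lit 25510466), (nat_lit 18971201), (nat_lit 12765436)] (nat_lit 22256242)) p15_21_0 (nat_lit 4) (nat_lit 220) (nat_lit 221) = true := by decide +kernel
def p15_21_0_221 : pfC (piC [(nat_lit 39120232), (nat_lit 25510466), (nat_lit 18971201), (nat_lit 12765436)] (nat_lit 22256242)) p15_21_0 (nat_lit 4) (nat_lit 221) (nat_lit 222) = true := by decide +kernel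
def p15_21_0_222 : pfC (piC [(nat_lit 39120232), (nat_lit 25510466), (nat_lit 18971201), (nat_lit 12765436)] (nat_lit 22256242)) p15_21_0 (nat_lit 4) (nat_lit 222) (nat_lit 223) = true := by decide +kernel
def p15_21_0_223 : pfC (piC [(nat_lit 39120232), (nat_lit 25510466), (nat_lit 18971201), (nat_lit 12765436)] (nat_lit 22256242)) p15_21_0 (nat_lit 4) (nat_lit 223) (nat_lit 224) = true := by decide +kernel
def p15_21_0_224 : pfC (piC [(nat_lit 39120232), (nat_lit 25510466), (nat_lit 18971201), (nat_lit 12765436)] (nat_lit 22256242)) p15_21_0 (nat_lit 4) (nat_lit 224) (nat_lit 225) = true := by decide +kernel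
def p15_21_0_225 : pfC (piC [(nat_lit 39120232), (nat_lit 25510466), (nat_lit 18971201), (nat_lit 12765436)] (nat_lit 22256242)) p15_21_0 (nat_lit 4) (nat_lit 225) (nat_lit 226) = true := by decide +kernel
def p15_21_0_226 : pfC (piC [(nat_lit 39120232), (nat_lit 25510466), (nat_lit 18971201), (nat_lit 12765436)] (nat_lit 22256242)) p15_21_0 (nat_lit 4) (nat_lit 226) (nat_lit 227) = true := by decide +kernel
def p15_21_0_227 : pfC (piC [(nat_lit 39120232), (nat_lit 25510466), (nat_lit 18971201), (nat_lit 12765436)] (nat_lit 22256242)) p15_21_0 (nat_lit 4) (nat_lit 227) (nat_lit 228) = true := by decide +kernel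
def p15_21_0_228 : pfC (piC [(nat_lit 39120232), (nat_lit 25510466), (nat_lit 18971201), (nat_lit 12765436)] (nat_lit 22256242)) p15_21_0 (nat_lit 4) (nat_lit 228) (nat_lit 229) = true := by decide +kernel
def p15_21_0_229 : pfC (piC [(nat_lit 39120232), (nat_lit 25510466), (nat_lit 18971201), (nat_lit 12765436)] (nat_lit 22256242)) p15_21_0 (nat_lit 4) (nat_lit 229) (nat_lit 230) = true := by decide +kernel
def p15_21_0_230 : pfC (piC [(nat_lit 39120232), (nat_lit 25510466), (nat_lit 18971201), (nat_lit 12765436)] (nat_lit 22256242)) p15_21_0 (nat_lit 4) (nat_lit 230) (nat_lit 231) = true := by decide +kernel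
def p15_21_0_231 : pfC (piC [(nat_lit 39120232), (nat_lit 25510466), (nat_lit 18971201), (nat_lit 12765436)] (nat_lit 22256242)) p15_21_0 (nat_lit 4) (nat_lit 231) (nat_lit 232) = true := by decide +kernel
def p15_21_0_232 : pfC (piC [(nat_lit 39120232), (nat_lit 25510466), (nat_lit 18971201), (nat_lit 12765436)] (nat_lit 22256242)) p15_21_0 (nat_lit 4) (nat_lit 232) (nat_lit 233) = true := by decide +kernel
def p15_21_0_233 : pfC (piC [(nat_lit 39120232), (nat_lit 25510466), (nat_lit 18971201), (nat_lit 12765436)] (nat_lit 22256242)) p15_21_0 (nat_lit 4) (nat_lit 233) (nat_lit 234) = true := by decide +kernel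
def p15_21_0_234 : pfC (piC [(nat_lit 39120232), (nat_lit 25510466), (nat_lit 18971201), (nat_lit 12765436)] (nat_lit 22256242)) p15_21_0 (nat_lit 4) (nat_lit 234) (nat_lit 235) = true := by decide +kernel
def p15_21_0_235 : pfC (piC [(nat_lit 39120232), (nat_lit 25510466), (nat_lit 18971201), (nat_lit 12765436)] (nat_lit 22256242)) p15_21_0 (nat_lit 4) (nat_lit 235) (nat_lit 236) = true := by decide +kernel
def p15_21_0_236 : pfC (piC [(nat_lit 39120232), (nat_lit 25510466), (nat_lit 18971201), (nat_lit 12765436)] (nat_lit 22256242)) p15_21_0 (nat_lit 4) (nat_lit 236) (nat_lit 237) = true := by decide +kernel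
def p15_21_0_237 : pfC (piC [(nat_lit 39120232), (nat_lit 25510466), (nat_lit 18971201), (nat_lit 12765436)] (nat_lit 22256242)) p15_21_0 (nat_lit 4) (nat_lit 237) (nat_lit 238) = true := by decide +kernel
def p15_21_0_238 : pfC (piC [(nat_lit 39120232), (nat_lit 25510466), (nat_lit 18971201), (nat_lit 12765436)] (nat_lit 22256242)) p15_21_0 (nat_lit 4) (nat_lit 238) (nat_lit 239) = true := by decide +kernel
def p15_21_0_239 : pfC (piC [(nat_lit 39120232), (nat_lit 25510466), (nat_lit 18971201), (nat_lit 12765436)] (nat_lit 22256242)) p15_21_0 (nat_lit 4) (nat_lit 239) (nat_lit 240) = true := by decide +kernel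
def p15_21_0_240 : pfC (piC [(nat_lit 39120232), (nat_lit 25510466), (nat_lit 18971201), (nat_lit 12765436)] (nat_lit 22256242)) p15_21_0 (nat_lit 4) (nat_lit 240) (nat_lit 241) = true := by decide +kernel
def p15_21_0_241 : pfC (piC [(nat_lit 39120232), (nat_lit 25510466), (nat_lit 18971201), (nat_lit 12765436)] (nat_lit 22256242)) p15_21_0 (nat_lit 4) (nat_lit 241) (nat_lit 242) = true := by decide +kernel
def p15_21_0_242 : pfC (piC [(nat_lit 39120232), (nat_lit 25510466), (nat_lit 18971201), (nat_lit 12765436)] (nat_lit 22256242)) p15_21_0 (nat_lit 4) (nat_lit 242) (nat_lit 243) = true := by decide +kernel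
def p15_21_0_243 : pfC (piC [(nat_lit 39120232), (nat_lit 25510466), (nat_lit 18971201), (nat_lit 12765436)] (nat_lit 22256242)) p15_21_0 (nat_lit 4) (nat_lit 243) (nat_lit 244) = true := by decide +kernel
def p15_21_0_244 : pfC (piC [(nat_lit 39120232), (nat_lit 25510466), (nat_lit 18971201), (nat_lit 12765436)] (nat_lit 22256242)) p15_21_0 (nat_lit 4) (nat_lit 244) (nat_lit 245) = true := by decide +kernel
def p15_21_0_245 : pfC (piC [(nat_lit 39120232), (nat_lit 25510466), (nat_lit 18971201), (nat_lit 12765436)] (nat_lit 22256242)) p15_21_0 (nat_lit 4) (nat_lit 245) (nat_lit 246) = true := by decide +kernel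
def p15_21_0_246 : pfC (piC [(nat_lit 39120232), (nat_lit 25510466), (nat_lit 18971201), (nat_lit 12765436)] (nat_lit 22256242)) p15_21_0 (nat_lit 4) (nat_lit 246) (nat_lit 247) = true := by decide +kernel
def p15_21_0_247 : pfC (piC [(nat_lit 39120232), (nat_lit 25510466), (nat_lit 18971201), (nat_lit 12765436)] (nat_lit 22256242)) p15_21_0 (nat_lit 4) (nat_lit 247) (nat_lit 248) = true := by decide +kernel
def p15_21_0_248 : pfC (piC [(nat_lit 39120232), (nat_lit 25510466), (nat_lit 18971201), (nat_lit 12765436)] (nat_lit 22256242)) p15_21_0 (nat_lit 4) (nat_lit 248) (nat_lit 249) = true := by decide +kernel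
def p15_21_0_249 : pfC (piC [(nat_lit 39120232), (nat_lit 25510466), (nat_lit 18971201), (nat_lit 12765436)] (nat_lit 22256242)) p15_21_0 (nat_lit 4) (nat_lit 249) (nat_lit 250) = true := by decide +kernel
def p15_21_0_250 : pfC (piC [(nat_lit 39120232), (nat_lit 25510466), (nat_lit 18971201), (nat_lit 12765436)] (nat_lit 22256242)) p15_21_0 (nat_lit 4) (nat_lit 250) (nat_lit 251) = true := by decide +kernel
def p15_21_0_251 : pfC (piC [(nat_lit 39120232), (nat_lit 25510466), (nat_lit 18971201), (nat_lit 12765436)] (nat_lit 22256242)) p15_21_0 (nat_lit 4) (nat_lit 251) (nat_lit 252) = true := by decide +kernel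
def p15_21_0_252 : pfC (piC [(nat_lit 39120232), (nat_lit 25510466), (nat_lit 18971201), (nat_lit 12765436)] (nat_lit 22256242)) p15_21_0 (nat_lit 4) (nat_lit 252) (nat_lit 253) = true := by decide +kernel
def p15_21_0_253 : pfC (piC [(nat_lit 39120232), (nat_lit 25510466), (nat_lit 18971201), (nat_lit 12765436)] (nat_lit 22256242)) p15_21_0 (nat_lit 4) (nat_lit 253) (nat_lit 254) = true := by decide +kernel
def p15_21_0_254 : pfC (piC [(nat_lit 39120232), (nat_lit 25510466), (nat_lit 18971201), (nat_lit 12765436)] (nat_lit 22256242)) p15_21_0 (nat_lit 4) (nat_lit 254) (nat_lit 255) = true := by decide +kernel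
def p15_21_0_255 : pfC (piC [(nat_lit 39120232), (nat_lit 25510466), (nat_lit 18971201), (nat_lit 12765436)] (nat_lit 22256242)) p15_21_0 (nat_lit 4) (nat_lit 255) (nat_lit 256) = true := by decide +kernel
def p15_21_0_256 : pfC (piC [(nat_lit 39120232), (nat_lit 25510466), (nat_lit 18971201), (nat_lit 12765436)] (nat_lit 22256242)) p15_21_0 (nat_lit 4) (nat_lit 256) (nat_lit 257) = true := by decide +kernel
def p15_21_0_257 : pfC (piC [(nat_lit 39120232), (nat_lit 25510466), (nat_lit 18971201), (nat_lit 12765436)] (nat_lit 22256242)) p15_21_0 (nat_lit 4) (nat_lit 257) (nat_lit 258) = true := by decide +kernel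
def p15_21_0_258 : pfC (piC [(nat_lit 39120232), (nat_lit 25510466), (nat_lit 18971201), (nat_lit 12765436)] (nat_lit 22256242)) p15_21_0 (nat_lit 4) (nat_lit 258) (nat_lit 259) = true := by decide +kernel
def p15_21_0_259 : pfC (piC [(nat_lit 39120232), (nat_lit 25510466), (nat_lit 18971201), (nat_lit 12765436)] (nat_lit 22256242)) p15_21_0 (nat_lit 4) (nat_lit 259) (nat_lit 260) = true := by decide +kernel
def p15_21_0_260 : pfC (piC [(nat_lit 39120232), (nat_lit 25510466), (nat_lit 18971201), (nat_lit 12765436)] (nat_lit 22256242)) p15_21_0 (nat_lit 4) (nat_lit 260) (nat_lit 261) = true := by decide +kernel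
def p15_21_0_261 : pfC (piC [(nat_lit 39120232), (nat_lit 25510466), (nat_lit 18971201), (nat_lit 12765436)] (nat_lit 22256242)) p15_21_0 (nat_lit 4) (nat_lit 261) (nat_lit 262) = true := by decide +kernel
def p15_21_0_262 : pfC (piC [(nat_lit 39120232), (nat_lit 25510466), (nat_lit 18971201), (nat_lit 12765436)] (nat_lit 22256242)) p15_21_0 (nat_lit 4) (nat_lit 262) (nat_lit 263) = true := by decide +kernel
def p15_21_0_263 : pfC (piC [(nat_lit 39120232), (nat_lit 25510466), (nat_lit 18971201), (nat_lit 12765436)] (nat_lit 22256242)) p15_21_0 (nat_lit 4) (nat_lit 263) (nat_lit 264) = true := by decide +kernel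
def p15_21_0_264 : pfC (piC [(nat_lit 39120232), (nat_lit 25510466), (nat_lit 18971201), (nat_lit 12765436)] (nat_lit 22256242)) p15_21_0 (nat_lit 4) (nat_lit 264) (nat_lit 265) = true := by decide +kernel
def p15_21_0_265 : pfC (piC [(nat_lit 39120232), (nat_lit 25510466), (nat_lit 18971201), (nat_lit 12765436)] (nat_lit 22256242)) p15_21_0 (nat_lit 4) (nat_lit 265) (nat_lit 266) = true := by decide +kernel
def p15_21_0_266 : pfC (piC [(nat_lit 39120232), (nat_lit 25510466), (nat_lit 18971201), (nat_lit 12765436)] (nat_lit 22256242)) p15_21_0 (nat_lit 4) (nat_lit 266) (nat_lit 267) = true := by decide +kernel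
def p15_21_0_267 : pfC (piC [(nat_lit 39120232), (nat_lit 25510466), (nat_lit 18971201), (nat_lit 12765436)] (nat_lit 22256242)) p15_21_0 (nat_lit 4) (nat_lit 267) (nat_lit 268) = true := by decide +kernel
def p15_21_0_268 : pfC (piC [(nat_lit 39120232), (nat_lit 25510466), (nat_lit 18971201), (nat_lit 12765436)] (nat_lit 22256242)) p15_21_0 (nat_lit 4) (nat_lit 268) (nat_lit 269) = true := by decide +kernel
def p15_21_0_269 : pfC (piC [(nat_lit 39120232), (nat_lit 25510466), (nat_lit 18971201), (nat_lit 12765436)] (nat_lit 22256242)) p15_21_0 (nat_lit 4) (nat_lit 269) (nat_lit 270) = true := by decide +kernel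
def p15_21_0_270 : pfC (piC [(nat_lit 39120232), (nat_lit 25510466), (nat_lit 18971201), (nat_lit 12765436)] (nat_lit 22256242)) p15_21_0 (nat_lit 4) (nat_lit 270) (nat_lit 271) = true := by decide +kernel
def p15_21_0_271 : pfC (piC [(nat_lit 39120232), (nat_lit 25510466), (nat_lit 18971201), (nat_lit 12765436)] (nat_lit 22256242)) p15_21_0 (nat_lit 4) (nat_lit 271) (nat_lit 272) = true := by decide +kernel
def p15_21_0_272 : pfC (piC [(nat_lit 39120232), (nat_lit 25510466), (nat_lit 18971201), (nat_lit 12765436)] (nat_lit 22256242)) p15_21_0 (nat_lit 4) (nat_lit 272) (nat_lit 273) = true := by decide +kernel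
def p15_21_0_273 : pfC (piC [(nat_lit 39120232), (nat_lit 25510466), (nat_lit 18971201), (nat_lit 12765436)] (nat_lit 22256242)) p15_21_0 (nat_lit 4) (nat_lit 273) (nat_lit 274) = true := by decide +kernel
def p15_21_0_274 : pfC (piC [(nat_lit 39120232), (nat_lit 25510466), (nat_lit 18971201), (nat_lit 12765436)] (nat_lit 22256242)) p15_21_0 (nat_lit 4) (nat_lit 274) (nat_lit 275) = true := by decide +kernel
theorem p15_21_0_T : PfS (PiF n15_21.reverse (nat_lit 22256242)) p15_21_0 (nat_lit 4) [] 0 :=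
  pftab_of (los := [(nat_lit 39120232), (nat_lit 25510466), (nat_lit 18971201), (nat_lit 12765436)]) (by decide +kernel) (hi := (nat_lit 275)) (PfP.trans (PfP.trans (PfP.trans (PfP.trans (PfP.trans (PfP.trans (PfP.trans (PfP.trans (PfP.trans (PfP.trans (PfP.trans (PfP.trans (PfP.trans (PfP.trans (PfP.trans (PfP.trans (PfP.trans (PfP.trans (PfP.trans (PfP.trans (PfP.trans (PfP.trans (PfP.trans (PfP.trans (PfP.trans (PfP.trans (PfP.trans (PfP.trans (PfP.trans (PfP.trans (PfP.trans (PfP.trans (PfP.trans (PfP.trans (PfP.trans (PfP.trans (PfP.trans (PfP.trans (PfP.trans (PfP.trans (PfP.trans (PfP.trans (PfP.trans (PfP.trans (PfP.trans (PfP.trans (PfP.trans (PfP.trans (PfP.trans (PfP.trans (PfP.trans (PfP.trans (PfP.trans (PfP.trans (PfP.trans (PfP.trans (PfP.trans (PfP.trans (PfP.trans (PfP.trans (PfP.trans (PfP.trans (PfP.trans (PfP.trans (PfP.trans (PfP.trans (PfP.trans (PfP.trans (PfP.trans (PfP.trans (PfP.trans (PfP.trans (PfP.trans (PfP.trans (PfP.trans (PfP.trans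 (PfP.trans (PfP.trans (PfP.trans (PfP.trans (PfP.trans (PfP.trans (PfP.trans (PfP.trans (PfP.trans (PfP.trans (PfP.trans (PfP.trans (PfP.trans (PfP.trans (PfP.trans (PfP.trans (PfP.trans (PfP.trans (PfP.trans (PfP.trans (PfP.trans (PfP.trans (PfP.trans (PfP.trans (PfP.trans (PfP.trans (PfP.trans (PfP.trans (PfP.trans (PfP.trans (PfP.trans (PfP.trans (PfP.trans
 (PfP.trans (PfP.trans (PfP.trans (PfP.trans (PfP.trans (PfP.trans (PfP.trans (PfP.trans (PfP.trans (PfP.trans (PfP.trans (PfP.trans (PfP.trans (PfP.trans (PfP.trans (PfP.trans (PfP.trans (PfP.trans (PfP.trans (PfP.trans (PfP.trans (PfP.trans (PfP.trans (PfP.trans (PfP.trans (PfP.trans (PfP.trans (PfP.trans (PfP.trans (PfP.trans (PfP.trans (PfP.trans (PfP.trans (PfP.trans (PfP.trans (PfP.trans (PfP.trans (PfP.trans (PfP.trans (PfP.trans (PfP.trans (PfP.trans (PfP.trans (PfP.trans (PfP.trans (PfP.trans (PfP.trans (PfP.trans (PfP.trans (PfP.trans (PfP.trans (PfP.trans (PfP.trans (PfP.trans (PfP.trans (PfP.trans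 (PfP.trans (PfP.trans (PfP.trans (PfP.trans (PfP.trans (PfP.trans (PfP.trans (PfP.trans (PfP.trans (PfP.trans (PfP.trans (PfP.trans (PfP.trans (PfP.trans (PfP.trans (PfP.trans (PfP.trans (PfP.trans (PfP.trans (PfP.trans (PfP.trans (PfP.trans (PfP.trans (PfP.trans (PfP.trans (PfP.trans (PfP.trans (PfP.trans (PfP.trans (PfP.trans (PfP.trans (PfP.trans (PfP.trans (PfP.trans (PfP.trans (PfP.trans (PfP.trans (PfP.trans (PfP.trans (PfP.trans (PfP.trans (PfP.trans (PfP.trans (PfP.trans (PfP.trans (PfP.trans (PfP.trans (PfP.trans (PfP.trans (PfP.trans (PfP.trans (PfP.trans (PfP.trans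
 (PfP.trans (PfP.trans (PfP.trans (PfP.trans (PfP.trans (PfP.trans (PfP.trans (PfP.trans (PfP.trans (PfP.trans (PfP.trans (PfP.trans (PfP.trans (PfP.trans (PfP.trans (PfP.trans (PfP.trans (PfP.trans (PfP.trans (PfP.trans (PfP.trans (PfP.trans (PfP.trans (PfP.trans (PfP.trans (PfP.trans (PfP.trans (PfP.trans (PfP.trans (PfP.trans (PfP.trans (PfP.trans (PfP.trans (PfP.trans (PfP.trans (PfP.trans (PfP.trans (PfP.trans (PfP.trans (PfP.trans (PfP.trans (PfP.trans (PfP.trans (PfP.trans (PfP.trans (PfP.trans (PfP.trans (PfP.trans (PfP.trans (PfP.trans (PfP.trans (PfP.trans (PfP.trans (PfP.trans (PfP.trans (PfP.trans (pfC_sound p15_21_0_0) (pfC_sound p15_21_0_1)) (pfC_sound p15_21_0_2)) (pfC_sound p15_21_0_3)) (pfC_sound p15_21_0_4)) (pfC_sound p15_21_0_5)) (pfC_sound p15_21_0_6)) (pfC_sound p15_21_0_7)) (pfC_sound p15_21_0_8)) (pfC_sound p15_21_0_9)) (pfC_sound p15_21_0_10)) (pfC_sound p15_21_0_11)) (pfC_sound p15_21_0_12)) (pfC_sound p15_21_0_13)) (pfC_sound p15_21_0_14))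 (pfC_sound p15_21_0_15)) (pfC_sound p15_21_0_16)) (pfC_sound p15_21_0_17)) (pfC_sound p15_21_0_18)) (pfC_sound p15_21_0_19)) (pfC_sound p15_21_0_20)) (pfC_sound p15_21_0_21)) (pfC_sound p15_21_0_22)) (pfC_sound
 p15_21_0_23)) (pfC_sound p15_21_0_24)) (pfC_sound p15_21_0_25)) (pfC_sound p15_21_0_26)) (pfC_sound p15_21_0_27)) (pfC_sound p15_21_0_28)) (pfC_sound p15_21_0_29)) (pfC_sound p15_21_0_30)) (pfC_sound p15_21_0_31)) (pfC_sound p15_21_0_32)) (pfC_sound p15_21_0_33)) (pfC_sound p15_21_0_34)) (pfC_sound p15_21_0_35)) (pfC_sound p15_21_0_36)) (pfC_sound p15_21_0_37)) (pfC_sound p15_21_0_38)) (pfC_sound p15_21_0_39)) (pfC_sound p15_21_0_40)) (pfC_sound p15_21_0_41)) (pfC_sound p15_21_0_42)) (pfC_sound p15_21_0_43)) (pfC_sound p15_21_0_44)) (pfC_sound p15_21_0_45)) (pfC_sound p15_21_0_46)) (pfC_sound p15_21_0_47)) (pfC_sound p15_21_0_48)) (pfC_sound p15_21_0_49)) (pfC_sound p15_21_0_50)) (pfC_sound p15_21_0_51)) (pfC_sound p15_21_0_52)) (pfC_sound p15_21_0_53)) (pfC_sound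 p15_21_0_54)) (pfC_sound p15_21_0_55)) (pfC_sound p15_21_0_56)) (pfC_sound p15_21_0_57)) (pfC_sound p15_21_0_58)) (pfC_sound p15_21_0_59)) (pfC_sound p15_21_0_60)) (pfC_sound p15_21_0_61)) (pfC_sound p15_21_0_62)) (pfC_sound p15_21_0_63)) (pfC_sound p15_21_0_64)) (pfC_sound p15_21_0_65)) (pfC_sound p15_21_0_66)) (pfC_sound p15_21_0_67)) (pfC_sound p15_21_0_68)) (pfC_sound p15_21_0_69)) (pfC_sound p15_21_0_70)) (pfC_sound
 p15_21_0_71)) (pfC_sound p15_21_0_72)) (pfC_sound p15_21_0_73)) (pfC_sound p15_21_0_74)) (pfC_sound p15_21_0_75)) (pfC_sound p15_21_0_76)) (pfC_sound p15_21_0_77)) (pfC_sound p15_21_0_78)) (pfC_sound p15_21_0_79)) (pfC_sound p15_21_0_80)) (pfC_sound p15_21_0_81)) (pfC_sound p15_21_0_82)) (pfC_sound p15_21_0_83)) (pfC_sound p15_21_0_84)) (pfC_sound p15_21_0_85)) (pfC_sound p15_21_0_86)) (pfC_sound p15_21_0_87)) (pfC_sound p15_21_0_88)) (pfC_sound p15_21_0_89)) (pfC_sound p15_21_0_90)) (pfC_sound p15_21_0_91)) (pfC_sound p15_21_0_92)) (pfC_sound p15_21_0_93))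 (pfC_sound p15_21_0_94)) (pfC_sound p15_21_0_95)) (pfC_sound p15_21_0_96)) (pfC_sound p15_21_0_97)) (pfC_sound p15_21_0_98)) (pfC_sound p15_21_0_99)) (pfC_sound p15_21_0_100)) (pfC_sound p15_21_0_101)) (pfC_sound p15_21_0_102)) (pfC_sound p15_21_0_103)) (pfC_sound p15_21_0_104)) (pfC_sound p15_21_0_105)) (pfC_sound p15_21_0_106)) (pfC_sound p15_21_0_107)) (pfC_sound p15_21_0_108)) (pfC_sound p15_21_0_109)) (pfC_sound p15_21_0_110)) (pfC_sound p15_21_0_111)) (pfC_sound p15_21_0_112)) (pfC_sound p15_21_0_113)) (pfC_sound p15_21_0_114)) (pfC_sound p15_21_0_115)) (pfC_sound p15_21_0_116)) (pfC_sound p15_21_0_117)) (pfC_sound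
 p15_21_0_118)) (pfC_sound p15_21_0_119)) (pfC_sound p15_21_0_120)) (pfC_sound p15_21_0_121)) (pfC_sound p15_21_0_122)) (pfC_sound p15_21_0_123)) (pfC_sound p15_21_0_124)) (pfC_sound p15_21_0_125)) (pfC_sound p15_21_0_126)) (pfC_sound p15_21_0_127)) (pfC_sound p15_21_0_128)) (pfC_sound p15_21_0_129)) (pfC_sound p15_21_0_130)) (pfC_sound p15_21_0_131)) (pfC_sound p15_21_0_132)) (pfC_sound p15_21_0_133)) (pfC_sound p15_21_0_134)) (pfC_sound p15_21_0_135)) (pfC_sound p15_21_0_136)) (pfC_sound p15_21_0_137)) (pfC_sound p15_21_0_138)) (pfC_sound p15_21_0_139)) (pfC_sound p15_21_0_140)) (pfC_sound p15_21_0_141)) (pfC_sound p15_21_0_142)) (pfC_sound p15_21_0_143)) (pfC_sound p15_21_0_144)) (pfC_sound p15_21_0_145)) (pfC_sound p15_21_0_146)) (pfC_sound p15_21_0_147)) (pfC_sound p15_21_0_148)) (pfC_sound p15_21_0_149)) (pfC_sound p15_21_0_150)) (pfC_sound p15_21_0_151)) (pfC_sound p15_21_0_152)) (pfC_sound p15_21_0_153)) (pfC_sound p15_21_0_154)) (pfC_sound p15_21_0_155)) (pfC_sound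 p15_21_0_156)) (pfC_sound p15_21_0_157)) (pfC_sound p15_21_0_158)) (pfC_sound p15_21_0_159)) (pfC_sound p15_21_0_160)) (pfC_sound p15_21_0_161)) (pfC_sound p15_21_0_162)) (pfC_sound p15_21_0_163)) (pfC_sound
 p15_21_0_164)) (pfC_sound p15_21_0_165)) (pfC_sound p15_21_0_166)) (pfC_sound p15_21_0_167)) (pfC_sound p15_21_0_168)) (pfC_sound p15_21_0_169)) (pfC_sound p15_21_0_170)) (pfC_sound p15_21_0_171)) (pfC_sound p15_21_0_172)) (pfC_sound p15_21_0_173)) (pfC_sound p15_21_0_174)) (pfC_sound p15_21_0_175)) (pfC_sound p15_21_0_176)) (pfC_sound p15_21_0_177)) (pfC_sound p15_21_0_178)) (pfC_sound p15_21_0_179)) (pfC_sound p15_21_0_180)) (pfC_sound p15_21_0_181)) (pfC_sound p15_21_0_182)) (pfC_sound p15_21_0_183)) (pfC_sound p15_21_0_184)) (pfC_sound p15_21_0_185)) (pfC_sound p15_21_0_186)) (pfC_sound p15_21_0_187)) (pfC_sound p15_21_0_188)) (pfC_sound p15_21_0_189)) (pfC_sound p15_21_0_190)) (pfC_sound p15_21_0_191)) (pfC_sound p15_21_0_192)) (pfC_sound p15_21_0_193)) (pfC_sound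 p15_21_0_194)) (pfC_sound p15_21_0_195)) (pfC_sound p15_21_0_196)) (pfC_sound p15_21_0_197)) (pfC_sound p15_21_0_198)) (pfC_sound p15_21_0_199)) (pfC_sound p15_21_0_200)) (pfC_sound p15_21_0_201)) (pfC_sound p15_21_0_202)) (pfC_sound p15_21_0_203)) (pfC_sound p15_21_0_204)) (pfC_sound p15_21_0_205)) (pfC_sound p15_21_0_206)) (pfC_sound p15_21_0_207)) (pfC_sound p15_21_0_208)) (pfC_sound p15_21_0_209)) (pfC_sound
 p15_21_0_210)) (pfC_sound p15_21_0_211)) (pfC_sound p15_21_0_212)) (pfC_sound p15_21_0_213)) (pfC_sound p15_21_0_214)) (pfC_sound p15_21_0_215)) (pfC_sound p15_21_0_216)) (pfC_sound p15_21_0_217)) (pfC_sound p15_21_0_218)) (pfC_sound p15_21_0_219)) (pfC_sound p15_21_0_220)) (pfC_sound p15_21_0_221)) (pfC_sound p15_21_0_222)) (pfC_sound p15_21_0_223)) (pfC_sound p15_21_0_224)) (pfC_sound p15_21_0_225)) (pfC_sound p15_21_0_226)) (pfC_sound p15_21_0_227)) (pfC_sound p15_21_0_228)) (pfC_sound p15_21_0_229)) (pfC_sound p15_21_0_230)) (pfC_sound p15_21_0_231)) (pfC_sound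 p15_21_0_232)) (pfC_sound p15_21_0_233)) (pfC_sound p15_21_0_234)) (pfC_sound p15_21_0_235)) (pfC_sound p15_21_0_236)) (pfC_sound p15_21_0_237)) (pfC_sound p15_21_0_238)) (pfC_sound p15_21_0_239)) (pfC_sound p15_21_0_240)) (pfC_sound p15_21_0_241)) (pfC_sound p15_21_0_242)) (pfC_sound p15_21_0_243)) (pfC_sound p15_21_0_244)) (pfC_sound p15_21_0_245)) (pfC_sound p15_21_0_246)) (pfC_sound p15_21_0_247)) (pfC_sound p15_21_0_248)) (pfC_sound p15_21_0_249)) (pfC_sound p15_21_0_250)) (pfC_sound p15_21_0_251)) (pfC_sound p15_21_0_252)) (pfC_sound p15_21_0_253)) (pfC_sound p15_21_0_254)) (pfC_sound p15_21_0_255)) (pfC_sound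
 p15_21_0_256)) (pfC_sound p15_21_0_257)) (pfC_sound p15_21_0_258)) (pfC_sound p15_21_0_259)) (pfC_sound p15_21_0_260)) (pfC_sound p15_21_0_261)) (pfC_sound p15_21_0_262)) (pfC_sound p15_21_0_263)) (pfC_sound p15_21_0_264)) (pfC_sound p15_21_0_265)) (pfC_sound p15_21_0_266)) (pfC_sound p15_21_0_267)) (pfC_sound p15_21_0_268)) (pfC_sound p15_21_0_269)) (pfC_sound p15_21_0_270)) (pfC_sound p15_21_0_271)) (pfC_sound p15_21_0_272)) (pfC_sound p15_21_0_273)) (pfC_sound p15_21_0_274)) (by decide +kernel)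

def z15_21_0 : zOK yB15_21 (nat_lit 0) (nat_lit 0) (nat_lit 400) (nat_lit 22256242) (nat_lit 10384585) = true := by decide +kernel
def g15_21_0 : gOK yB15_21.x P15_21 (nat_lit 1426) (q15_21 :: r15_21) (nat_lit 0) (nat_lit 0) (nat_lit 1) (nat_lit 400) (nat_lit 0) (nat_lit 11000000) (nat_lit 12712500) (nat_lit 12712500) [(nat_lit 800), (nat_lit 1400), (nat_lit 2200)] = true := by decide +kernel
def v15_21_0 : ivC P15_21 s15_21 w15_21 n15_21 (nat_lit 4) (nat_lit 5400) (nat_lit 0) (nat_lit 0) f160_1_0 f168_1_0 (nat_lit 1) (nat_lit 400) f160_1_400 f168_1_400 (nat_lit 22256242) (nat_lit 10384585) p15_21_0 = true := by decide +kernel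
def p15_21_1 : PF := (PF.cons (PF.cons (PF.cons (PF.cons (PF.leaf (nat_lit 2143128) (nat_lit 10297023) (nat_lit 56811789) (nat_lit 10297023) [(nat_lit 0), (nat_lit 0), (nat_lit 0), (nat_lit 0)]) (PF.cons (PF.leaf (nat_lit 2307099) (nat_lit 279922) (nat_lit 56511496) (nat_lit 10317394) [(nat_lit 279922), (nat_lit 0), (nat_lit 0), (nat_lit 0)]) (PF.cons (PF.leaf (nat_lit 2501520) (nat_lit 304762) (nat_lit 56160071) (nat_lit 10339216) [(nat_lit 304762), (nat_lit 0), (nat_lit 0), (nat_lit 0)]) (PF.cons (PF.leaf (nat_lit 2720127) (nat_lit 326913) (nat_lit 55766902) (nat_lit 10361170) [(nat_lit 326913), (nat_lit 0), (nat_lit 0), (nat_lit 0)]) (PF.cons (PF.leaf (nat_lit 2959659) (nat_lit 346973) (nat_lit 55338662) (nat_lit 10382254) [(nat_lit 346973), (nat_lit 0), (nat_lit 0), (nat_lit 0)]) (PF.cons (PF.leaf (nat_lit 3217428) (nat_lit 365321) (nat_lit 54880524) (nat_lit 10401682) [(nat_lit 365321), (nat_lit 0), (nat_lit 0), (nat_lit 0)]) (PF.cons (PF.leaf (nat_lit 3491352)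 (nat_lit 382210) (nat_lit 54396718) (nat_lit 10418833) [(nat_lit 382210), (nat_lit 0), (nat_lit 0), (nat_lit 0)]) (PF.cons (PF.leaf (nat_lit 3779625) (nat_lit 397822) (nat_lit 53890834) (nat_lit 10433219) [(nat_lit 397822), (nat_lit 0),
 (nat_lit 0), (nat_lit 0)]) (PF.cons (PF.leaf (nat_lit 4080659) (nat_lit 412294) (nat_lit 53365995) (nat_lit 10444465) [(nat_lit 412294), (nat_lit 0), (nat_lit 0), (nat_lit 0)]) (PF.cons PF.nil PF.nil)))))))))) (PF.cons (PF.cons (PF.leaf (nat_lit 2702906) (nat_lit 1279636) (nat_lit 55458978) (nat_lit 10370197) [(nat_lit 0), (nat_lit 1279636), (nat_lit 0), (nat_lit 0)]) (PF.cons (PF.leaf (nat_lit 2915837) (nat_lit 338351) (nat_lit 55069165) (nat_lit 10387603) [(nat_lit 338351), (nat_lit 1313692), (nat_lit 0), (nat_lit 0)]) (PF.cons (PF.leaf (nat_lit 3151836) (nat_lit 357686) (nat_lit 54642284) (nat_lit 10404062) [(nat_lit 357686), (nat_lit 1347093), (nat_lit 0), (nat_lit 0)]) (PF.cons (PF.leaf (nat_lit 3406770) (nat_lit 375294) (nat_lit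 54184823) (nat_lit 10418794) [(nat_lit 375294), (nat_lit 1379311), (nat_lit 0), (nat_lit 0)]) (PF.cons (PF.leaf (nat_lit 3678157) (nat_lit 391460) (nat_lit 53701693) (nat_lit 10431208) [(nat_lit 391460), (nat_lit 1410069), (nat_lit 0), (nat_lit 0)]) (PF.cons (PF.leaf (nat_lit 3963975) (nat_lit 406375) (nat_lit 53196852) (nat_lit 10440854) [(nat_lit 406375), (nat_lit 1439226), (nat_lit 0), (nat_lit 0)]) (PF.cons (PF.leaf (nat_lit 4262508) (nat_lit
 420180) (nat_lit 52673621) (nat_lit 10447395) [(nat_lit 420180), (nat_lit 1466715), (nat_lit 0), (nat_lit 0)]) (PF.cons PF.nil (PF.cons PF.nil PF.nil))))))))) (PF.cons (PF.cons (PF.leaf (nat_lit 3347843) (nat_lit 1380080) (nat_lit 53929244) (nat_lit 10419407) [(nat_lit 0), (nat_lit 1380080), (nat_lit 0), (nat_lit 0)]) (PF.cons (PF.leaf (nat_lit 3597502) (nat_lit 383947) (nat_lit 53477207) (nat_lit 10429565) [(nat_lit 383947), (nat_lit 1409046), (nat_lit 0), (nat_lit 0)]) (PF.cons (PF.leaf (nat_lit 3865081) (nat_lit 399577)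 (nat_lit 52998369) (nat_lit 10437418) [(nat_lit 399577), (nat_lit 1436935), (nat_lit 0), (nat_lit 0)]) (PF.cons (PF.leaf (nat_lit 4147495) (nat_lit 413934) (nat_lit 52497444) (nat_lit 10442537) [(nat_lit 413934), (nat_lit 1463513), (nat_lit 0), (nat_lit 0)]) (PF.cons (PF.leaf (nat_lit 4442798) (nat_lit 427180) (nat_lit 51978171) (nat_lit 10444612) [(nat_lit 427180), (nat_lit 1488653), (nat_lit 0), (nat_lit 0)]) (PF.cons (PF.leaf (nat_lit 4749354) (nat_lit 439429) (nat_lit 51443654) (nat_lit 10443424) [(nat_lit 439429), (nat_lit 1512293), (nat_lit 0), (nat_lit 0)]) (PF.cons PF.nil PF.nil))))))) (PF.cons (PF.cons (PF.leaf (nat_lit 4053678) (nat_lit 1461456)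
 (nat_lit 52286838) (nat_lit 10437603) [(nat_lit 0), (nat_lit 1461456), (nat_lit 0), (nat_lit 0)]) (PF.cons (PF.leaf (nat_lit 4330944) (nat_lit 420529) (nat_lit 51792989) (nat_lit 10438452) [(nat_lit 420529), (nat_lit 1485613), (nat_lit 0), (nat_lit 0)]) (PF.cons (PF.leaf (nat_lit 4622109) (nat_lit 433327) (nat_lit 51280159) (nat_lit 10436333) [(nat_lit 433327), (nat_lit 1508555), (nat_lit 0), (nat_lit 0)]) (PF.cons (PF.leaf (nat_lit 4924816) (nat_lit 445114) (nat_lit 50751894) (nat_lit 10431048) [(nat_lit 445114), (nat_lit 1530175), (nat_lit 0), (nat_lit 0)]) (PF.cons PF.nil PF.nil))))) (PF.cons (PF.cons (PF.leaf (nat_lit 4801664) (nat_lit 1526591) (nat_lit 50579691) (nat_lit 10422757) [(nat_lit 0), (nat_lit 1526591), (nat_lit 0), (nat_lit 0)]) (PF.cons (PF.leaf (nat_lit 5099189) (nat_lit 450051) (nat_lit 50059848) (nat_lit 10413678) [(nat_lit 450051), (nat_lit 1546308), (nat_lit 0), (nat_lit 0)]) (PF.cons (PF.leaf (nat_lit 5407462) (nat_lit 460541) (nat_lit 49527103)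 (nat_lit 10401424) [(nat_lit 460541), (nat_lit 1564800), (nat_lit 0), (nat_lit 0)]) (PF.cons PF.nil PF.nil)))) (PF.cons (PF.cons (PF.leaf (nat_lit 5576716) (nat_lit 1577656) (nat_lit 48844635) (nat_lit 10375894)
 [(nat_lit 0), (nat_lit 1577656), (nat_lit 0), (nat_lit 0)]) (PF.cons (PF.leaf (nat_lit 5888551) (nat_lit 473752) (nat_lit 48311162) (nat_lit 10357171) [(nat_lit 473752), (nat_lit 1593345), (nat_lit 0), (nat_lit 0)]) PF.nil)) (PF.cons PF.nil (PF.cons PF.nil PF.nil)))))))) (PF.cons (PF.cons (PF.cons (PF.leaf (nat_lit 3283132) (nat_lit 3364646) (nat_lit 53343240) (nat_lit 10400926) [(nat_lit 0), (nat_lit 0), (nat_lit 3364646), (nat_lit 0)]) (PF.cons (PF.leaf (nat_lit 3506517) (nat_lit 364447) (nat_lit 52941226) (nat_lit 10407738) [(nat_lit 364447), (nat_lit 0), (nat_lit 3395400), (nat_lit 0)]) (PF.cons (PF.leaf (nat_lit 3751800) (nat_lit 382517) (nat_lit 52504734) (nat_lit 10412804) [(nat_lit 382517), (nat_lit 0), (nat_lit 3426239), (nat_lit 0)]) (PF.cons (PF.leaf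 (nat_lit 4014695) (nat_lit 398726) (nat_lit 52040619) (nat_lit 10415614) [(nat_lit 398726), (nat_lit 0), (nat_lit 3456398), (nat_lit 0)]) (PF.cons (PF.leaf (nat_lit 4292611) (nat_lit 413426) (nat_lit 51553937) (nat_lit 10415798) [(nat_lit 413426), (nat_lit 0), (nat_lit 3485370), (nat_lit 0)]) (PF.cons (PF.leaf (nat_lit 4583478) (nat_lit 426849) (nat_lit 51048666) (nat_lit 10413085) [(nat_lit 426849), (nat_lit 0), (nat_lit
 3512814), (nat_lit 0)]) (PF.cons (PF.leaf (nat_lit 4885598) (nat_lit 439159) (nat_lit 50528064) (nat_lit 10407288) [(nat_lit 439159), (nat_lit 0), (nat_lit 3538503), (nat_lit 0)]) (PF.cons PF.nil (PF.cons PF.nil PF.nil))))))))) (PF.cons (PF.cons (PF.leaf (nat_lit 3943047) (nat_lit 1443082) (nat_lit 51794830) (nat_lit 10410038) [(nat_lit 0), (nat_lit 1443082), (nat_lit 3460862), (nat_lit 0)]) (PF.cons (PF.leaf (nat_lit 4199451) (nat_lit 405150) (nat_lit 51339887) (nat_lit 10409024) [(nat_lit 405150), (nat_lit 1467430), (nat_lit 3487320), (nat_lit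 0)]) (PF.cons (PF.leaf (nat_lit 4472442) (nat_lit 419474) (nat_lit 50860905) (nat_lit 10405406) [(nat_lit 419474), (nat_lit 1490698), (nat_lit 3512853), (nat_lit 0)]) (PF.cons (PF.leaf (nat_lit 4758936) (nat_lit 432480) (nat_lit 50362643) (nat_lit 10398943) [(nat_lit 432480), (nat_lit 1512712), (nat_lit 3537072), (nat_lit 0)]) (PF.cons (PF.leaf (nat_lit 5057014) (nat_lit 444357) (nat_lit 49848801) (nat_lit 10389474) [(nat_lit 444357), (nat_lit 1533384), (nat_lit 3559723), (nat_lit 0)]) (PF.cons PF.nil (PF.cons PF.nil PF.nil))))))) (PF.cons (PF.cons (PF.leaf (nat_lit 4653785) (nat_lit 1509293) (nat_lit 50163347) (nat_lit 10389828) [(nat_lit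
 0), (nat_lit 1509293), (nat_lit 3537049), (nat_lit 0)]) (PF.cons (PF.leaf (nat_lit 4934307) (nat_lit 437276) (nat_lit 49674811) (nat_lit 10379920) [(nat_lit 437276), (nat_lit 1529295), (nat_lit 3558214), (nat_lit 0)]) (PF.cons (PF.leaf (nat_lit 5227482) (nat_lit 448821) (nat_lit 49169813) (nat_lit 10367073) [(nat_lit 448821), (nat_lit 1548139), (nat_lit 3578003), (nat_lit 0)]) (PF.cons (PF.leaf (nat_lit 5530989) (nat_lit 459349) (nat_lit 48651813) (nat_lit 10351214) [(nat_lit 459349), (nat_lit 1565754), (nat_lit 3596227), (nat_lit 0)]) (PF.cons PF.nil PF.nil))))) (PF.cons (PF.cons (PF.leaf (nat_lit 5398187) (nat_lit 1561368) (nat_lit 48490920) (nat_lit 10340255) [(nat_lit 0), (nat_lit 1561368), (nat_lit 3593533), (nat_lit 0)]) (PF.cons (PF.leaf (nat_lit 5695964) (nat_lit 462808) (nat_lit 47983170) (nat_lit 10321417) [(nat_lit 462808), (nat_lit 1577397), (nat_lit 3609225), (nat_lit 0)]) (PF.cons (PF.leaf (nat_lit 6003355) (nat_lit 472141) (nat_lit 47464640) (nat_lit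 10299632) [(nat_lit 472141), (nat_lit 1592290), (nat_lit 3623384), (nat_lit 0)]) (PF.cons PF.nil PF.nil)))) (PF.cons (PF.cons (PF.leaf (nat_lit 6162821) (nat_lit 1601218) (nat_lit 46808906) (nat_lit 10263307) [(nat_lit
 0), (nat_lit 1601218), (nat_lit 3631723), (nat_lit 0)]) (PF.cons PF.nil PF.nil)) (PF.cons PF.nil PF.nil)))))) (PF.cons (PF.cons (PF.cons (PF.leaf (nat_lit 4525795) (nat_lit 3521541) (nat_lit 49710560) (nat_lit 10355169) [(nat_lit 0), (nat_lit 0), (nat_lit 3521541), (nat_lit 0)]) (PF.cons (PF.leaf (nat_lit 4786333) (nat_lit 421874) (nat_lit 49259480) (nat_lit 10344639) [(nat_lit 421874), (nat_lit 0), (nat_lit 3541409), (nat_lit 0)]) (PF.cons (PF.leaf (nat_lit 5062306) (nat_lit 435016) (nat_lit 48786837) (nat_lit 10331364) [(nat_lit 435016), (nat_lit 0), (nat_lit 3560288), (nat_lit 0)]) (PF.cons (PF.leaf (nat_lit 5350620) (nat_lit 446813) (nat_lit 48297337) (nat_lit 10315258) [(nat_lit 446813), (nat_lit 0), (nat_lit 3577888), (nat_lit 0)]) (PF.cons (PF.leaf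 (nat_lit 5649331) (nat_lit 457479) (nat_lit 47794578) (nat_lit 10296272) [(nat_lit 457479), (nat_lit 0), (nat_lit 3594022), (nat_lit 0)]) (PF.cons PF.nil (PF.cons PF.nil PF.nil))))))) (PF.cons (PF.cons (PF.leaf (nat_lit 5235726) (nat_lit 1543826) (nat_lit 48110263) (nat_lit 10303084) [(nat_lit 0), (nat_lit 1543826), (nat_lit 3575819), (nat_lit 0)]) (PF.cons (PF.leaf (nat_lit 5517437) (nat_lit 450119) (nat_lit 47632269) (nat_lit
 10284300) [(nat_lit 450119), (nat_lit 1560302), (nat_lit 3590909), (nat_lit 0)]) (PF.cons (PF.leaf (nat_lit 5810742) (nat_lit 460549) (nat_lit 47139958) (nat_lit 10262686) [(nat_lit 460549), (nat_lit 1575679), (nat_lit 3604694), (nat_lit 0)]) (PF.cons (PF.leaf (nat_lit 6113307) (nat_lit 469967) (nat_lit 46636661) (nat_lit 10238261) [(nat_lit 469967), (nat_lit 1589911), (nat_lit 3617038), (nat_lit 0)]) (PF.cons PF.nil PF.nil))))) (PF.cons (PF.cons (PF.leaf (nat_lit 5972420) (nat_lit 1584974) (nat_lit 46487192) (nat_lit 10225462) [(nat_lit 0),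 (nat_lit 1584974), (nat_lit 3613104), (nat_lit 0)]) (PF.cons (PF.leaf (nat_lit 6268874) (nat_lit 472202) (nat_lit 45995302) (nat_lit 10198779) [(nat_lit 472202), (nat_lit 1597883), (nat_lit 3623380), (nat_lit 0)]) (PF.cons PF.nil (PF.cons PF.nil PF.nil)))) (PF.cons (PF.cons (PF.leaf (nat_lit 6723882) (nat_lit 1615460) (nat_lit 44868038) (nat_lit 10124795) [(nat_lit 0), (nat_lit 1615460), (nat_lit 3634798), (nat_lit 0)]) (PF.cons PF.nil PF.nil)) (PF.cons PF.nil PF.nil))))) (PF.cons (PF.cons (PF.cons (PF.leaf (nat_lit 5797788) (nat_lit 3594242) (nat_lit 46140214) (nat_lit 10185869) [(nat_lit 0), (nat_lit 0), (nat_lit 3594242), (nat_lit 0)])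
 (PF.cons (PF.leaf (nat_lit 6079099) (nat_lit 459710) (nat_lit 45676355) (nat_lit 10159904) [(nat_lit 459710), (nat_lit 0), (nat_lit 3604280), (nat_lit 0)]) (PF.cons (PF.leaf (nat_lit 6371053) (nat_lit 469148) (nat_lit 45199995) (nat_lit 10131258) [(nat_lit 469148), (nat_lit 0), (nat_lit 3613087), (nat_lit 0)]) (PF.cons PF.nil (PF.cons PF.nil PF.nil))))) (PF.cons (PF.cons (PF.leaf (nat_lit 6523782) (nat_lit 1599477) (nat_lit 44576019) (nat_lit 10086026) [(nat_lit 0), (nat_lit 1599477), (nat_lit 3615763), (nat_lit 0)]) (PF.cons (PF.leaf (nat_lit 6817750) (nat_lit 478805) (nat_lit 44102400) (nat_lit 10053152) [(nat_lit 478805), (nat_lit 1609745), (nat_lit 3621569), (nat_lit 0)]) (PF.cons PF.nil (PF.cons PF.nil PF.nil)))) (PF.cons (PF.cons (PF.leaf (nat_lit 7260224) (nat_lit 1622140) (nat_lit 43025491) (nat_lit 9967029) [(nat_lit 0), (nat_lit 1622140), (nat_lit 3624003), (nat_lit 0)]) (PF.cons PF.nil PF.nil)) PF.nil))) (PF.cons (PF.cons (PF.cons (PF.leaf (nat_lit 7052325)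 (nat_lit 3604955) (nat_lit 42760735) (nat_lit 9928254) [(nat_lit 0), (nat_lit 0), (nat_lit 3604955), (nat_lit 0)]) (PF.cons (PF.leaf (nat_lit 7342910) (nat_lit 483096) (nat_lit 42306785) (nat_lit 9890595) [(nat_lit
 483096), (nat_lit 0), (nat_lit 3607084), (nat_lit 0)]) PF.nil)) (PF.cons PF.nil PF.nil)) (PF.cons PF.nil (PF.cons PF.nil (PF.cons PF.nil PF.nil)))))))) (PF.cons (PF.cons (PF.cons (PF.cons (PF.leaf (nat_lit 4298207) (nat_lit 9264005) (nat_lit 47720716) (nat_lit 10124091) [(nat_lit 0), (nat_lit 0), (nat_lit 0), (nat_lit 9264005)]) (PF.cons (PF.leaf (nat_lit 4519842) (nat_lit 378341) (nat_lit 47358356) (nat_lit 10113692) [(nat_lit 378341), (nat_lit 0), (nat_lit 0), (nat_lit 9258422)]) (PF.cons (PF.leaf (nat_lit 4761654) (nat_lit 395151) (nat_lit 46966875) (nat_lit 10100854) [(nat_lit 395151), (nat_lit 0), (nat_lit 0), (nat_lit 9250781)]) (PF.cons (PF.leaf (nat_lit 5019295) (nat_lit 409909) (nat_lit 46552643) (nat_lit 10085507) [(nat_lit 409909), (nat_lit 0),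 (nat_lit 0), (nat_lit 9240932)]) (PF.cons (PF.leaf (nat_lit 5290123) (nat_lit 423031) (nat_lit 46120308) (nat_lit 10067604) [(nat_lit 423031), (nat_lit 0), (nat_lit 0), (nat_lit 9228772)]) (PF.cons (PF.leaf (nat_lit 5572108) (nat_lit 434797) (nat_lit 45673462) (nat_lit 10047125) [(nat_lit 434797), (nat_lit 0), (nat_lit 0), (nat_lit 9214239)]) (PF.cons (PF.leaf (nat_lit 5863577) (nat_lit 445406) (nat_lit 45214999) (nat_lit
 10024073) [(nat_lit 445406), (nat_lit 0), (nat_lit 0), (nat_lit 9197303)]) (PF.cons (PF.leaf (nat_lit 6163139) (nat_lit 455008) (nat_lit 44747311) (nat_lit 9998474) [(nat_lit 455008), (nat_lit 0), (nat_lit 0), (nat_lit 9177965)]) (PF.cons PF.nil PF.nil))))))))) (PF.cons (PF.cons (PF.leaf (nat_lit 4935718) (nat_lit 1467113) (nat_lit 46340296) (nat_lit 10071717) [(nat_lit 0), (nat_lit 1467113), (nat_lit 0), (nat_lit 9229684)]) (PF.cons (PF.leaf (nat_lit 5185896) (nat_lit 413960) (nat_lit 45936740) (nat_lit 10054257) [(nat_lit 413960), (nat_lit 1486249),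 (nat_lit 0), (nat_lit 9217604)]) (PF.cons (PF.leaf (nat_lit 5450934) (nat_lit 426803) (nat_lit 45513598) (nat_lit 10034208) [(nat_lit 426803), (nat_lit 1504192), (nat_lit 0), (nat_lit 9203206)]) (PF.cons (PF.leaf (nat_lit 5727790) (nat_lit 438249) (nat_lit 45075150) (nat_lit 10011596) [(nat_lit 438249), (nat_lit 1520854), (nat_lit 0), (nat_lit 9186464)]) (PF.cons (PF.leaf (nat_lit 6014562) (nat_lit 448525) (nat_lit 44624672) (nat_lit 9986452) [(nat_lit 448525), (nat_lit 1536215), (nat_lit 0), (nat_lit 9167372)]) (PF.cons (PF.leaf (nat_lit 6309710) (nat_lit 457794) (nat_lit 44164780) (nat_lit 9958825) [(nat_lit 457794), (nat_lit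
 1550289), (nat_lit 0), (nat_lit 9145947)]) (PF.cons PF.nil PF.nil))))))) (PF.cons (PF.cons (PF.leaf (nat_lit 5613162) (nat_lit 1515751) (nat_lit 44905605) (nat_lit 9997395) [(nat_lit 0), (nat_lit 1515751), (nat_lit 0), (nat_lit 9174308)]) (PF.cons (PF.leaf (nat_lit 5883444) (nat_lit 440997) (nat_lit 44477630) (nat_lit 9972939) [(nat_lit 440997), (nat_lit 1530811), (nat_lit 0), (nat_lit 9155622)]) (PF.cons (PF.leaf (nat_lit 6164854) (nat_lit 451039) (nat_lit 44036678) (nat_lit 9945963) [(nat_lit 451039), (nat_lit 1544738), (nat_lit 0), (nat_lit 9134614)]) (PF.cons (PF.leaf (nat_lit 6455092) (nat_lit 460050) (nat_lit 43585765) (nat_lit 9916545) [(nat_lit 460050), (nat_lit 1557512), (nat_lit 0), (nat_lit 9111325)]) (PF.cons (PF.leaf (nat_lit 6752730) (nat_lit 468168) (nat_lit 43127277) (nat_lit 9884766) [(nat_lit 468168), (nat_lit 1569143), (nat_lit 0), (nat_lit 9085809)]) PF.nil))))) (PF.cons (PF.cons (PF.leaf (nat_lit 6315562) (nat_lit 1552127) (nat_lit 43450612) (nat_lit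 9902693) [(nat_lit 0), (nat_lit 1552127), (nat_lit 0), (nat_lit 9099125)]) (PF.cons (PF.leaf (nat_lit 6599804) (nat_lit 461779) (nat_lit 43010030) (nat_lit 9871739) [(nat_lit 461779), (nat_lit 1563684), (nat_lit
 0), (nat_lit 9074210)]) (PF.cons (PF.leaf (nat_lit 6892359) (nat_lit 469694) (nat_lit 42561232) (nat_lit 9838459) [(nat_lit 469694), (nat_lit 1574206), (nat_lit 0), (nat_lit 9047112)]) (PF.cons PF.nil PF.nil)))) (PF.cons (PF.cons (PF.leaf (nat_lit 7031775) (nat_lit 1578364) (nat_lit 41999177) (nat_lit 9789946) [(nat_lit 0), (nat_lit 1578364), (nat_lit 0), (nat_lit 9006231)]) (PF.cons (PF.leaf (nat_lit 7325272) (nat_lit 477707) (nat_lit 41554531) (nat_lit 9753223) [(nat_lit 477707), (nat_lit 1586907), (nat_lit 0), (nat_lit 8975720)]) PF.nil)) (PF.cons PF.nil PF.nil)))))) (PF.cons (PF.cons (PF.cons (PF.leaf (nat_lit 5467901) (nat_lit 3486780) (nat_lit 44530692) (nat_lit 9955092) [(nat_lit 0), (nat_lit 0), (nat_lit 3486780), (nat_lit 9136248)]) (PF.cons (PF.leaf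 (nat_lit 5719805) (nat_lit 425203) (nat_lit 44135486) (nat_lit 9931761) [(nat_lit 425203), (nat_lit 0), (nat_lit 3498037), (nat_lit 9118323)]) (PF.cons (PF.leaf (nat_lit 5985620) (nat_lit 436983) (nat_lit 43722657) (nat_lit 9905840) [(nat_lit 436983), (nat_lit 0), (nat_lit 3508281), (nat_lit 9098065)]) (PF.cons (PF.leaf (nat_lit 6262293) (nat_lit 447377) (nat_lit 43296353) (nat_lit 9877442) [(nat_lit 447377), (nat_lit 0),
 (nat_lit 3517347), (nat_lit 9075535)]) (PF.cons (PF.leaf (nat_lit 6547969) (nat_lit 456626) (nat_lit 42859706) (nat_lit 9846667) [(nat_lit 456626), (nat_lit 0), (nat_lit 3525140), (nat_lit 9050795)]) (PF.cons (PF.leaf (nat_lit 6841153) (nat_lit 464899) (nat_lit 42415183) (nat_lit 9813611) [(nat_lit 464899), (nat_lit 0), (nat_lit 3531609), (nat_lit 9023910)]) (PF.cons PF.nil PF.nil))))))) (PF.cons (PF.cons (PF.leaf (nat_lit 6140264) (nat_lit 1533709) (nat_lit 43138410) (nat_lit 9861880) [(nat_lit 0), (nat_lit 1533709), (nat_lit 3512860), (nat_lit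 9061952)]) (PF.cons (PF.leaf (nat_lit 6410037) (nat_lit 449006) (nat_lit 42723443) (nat_lit 9832166) [(nat_lit 449006), (nat_lit 1546033), (nat_lit 3520167), (nat_lit 9037994)]) (PF.cons (PF.leaf (nat_lit 6690054) (nat_lit 458107) (nat_lit 42297074) (nat_lit 9800064) [(nat_lit 458107), (nat_lit 1557304), (nat_lit 3526322), (nat_lit 9011831)]) (PF.cons (PF.leaf (nat_lit 6978105) (nat_lit 466199) (nat_lit 41862172) (nat_lit 9765704) [(nat_lit 466199), (nat_lit 1567518), (nat_lit 3531263), (nat_lit 8983557)]) (PF.cons PF.nil PF.nil))))) (PF.cons (PF.cons (PF.leaf (nat_lit 6832726) (nat_lit 1561912) (nat_lit 41737230) (nat_lit 9751189)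
 [(nat_lit 0), (nat_lit 1561912), (nat_lit 3525938), (nat_lit 8970629)]) (PF.cons (PF.leaf (nat_lit 7114603) (nat_lit 467035) (nat_lit 41313119) (nat_lit 9715764) [(nat_lit 467035), (nat_lit 1571120), (nat_lit 3529464), (nat_lit 8941187)]) (PF.cons (PF.leaf (nat_lit 7404046) (nat_lit 474125) (nat_lit 40881995) (nat_lit 9678213) [(nat_lit 474125), (nat_lit 1579379), (nat_lit 3531841), (nat_lit 8909751)]) (PF.cons PF.nil PF.nil)))) (PF.cons (PF.cons (PF.leaf (nat_lit 7535279) (nat_lit 1581319) (nat_lit 40347448) (nat_lit 9625463) [(nat_lit 0), (nat_lit 1581319), (nat_lit 3527454), (nat_lit 8864489)]) (PF.cons PF.nil PF.nil)) (PF.cons PF.nil PF.nil))))) (PF.cons (PF.cons (PF.cons (PF.leaf (nat_lit 6648858) (nat_lit 3505842) (nat_lit 41453425) (nat_lit 9710398) [(nat_lit 0), (nat_lit 0), (nat_lit 3505842), (nat_lit 8933303)]) (PF.cons (PF.leaf (nat_lit 6917096) (nat_lit 454666) (nat_lit 41053185) (nat_lit 9676537) [(nat_lit 454666), (nat_lit 0), (nat_lit 3509637), (nat_lit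 8905148)]) (PF.cons (PF.leaf (nat_lit 7194844) (nat_lit 462933) (nat_lit 40642876) (nat_lit 9640432) [(nat_lit 462933), (nat_lit 0), (nat_lit 3512359), (nat_lit 8874918)]) (PF.cons (PF.leaf (nat_lit 7479919) (nat_lit
 470218) (nat_lit 40225213) (nat_lit 9602250) [(nat_lit 470218), (nat_lit 0), (nat_lit 3513973), (nat_lit 8842746)]) (PF.cons PF.nil PF.nil))))) (PF.cons (PF.cons (PF.leaf (nat_lit 7329719) (nat_lit 1565516) (nat_lit 40109932) (nat_lit 9587425) [(nat_lit 0), (nat_lit 1565516), (nat_lit 3508251), (nat_lit 8829436)]) (PF.cons (PF.leaf (nat_lit 7608515) (nat_lit 470319) (nat_lit 39703231) (nat_lit 9548576) [(nat_lit 470319), (nat_lit 1572740), (nat_lit 3508730), (nat_lit 8796484)]) (PF.cons PF.nil (PF.cons PF.nil PF.nil)))) (PF.cons (PF.cons (PF.leaf (nat_lit 8017712) (nat_lit 1579228) (nat_lit 38783364) (nat_lit 9452055) [(nat_lit 0), (nat_lit 1579228), (nat_lit 3500824), (nat_lit 8713287)]) (PF.cons PF.nil PF.nil)) PF.nil))) (PF.cons (PF.cons (PF.cons (PF.leaf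 (nat_lit 7807023) (nat_lit 3482174) (nat_lit 38567971) (nat_lit 9415138) [(nat_lit 0), (nat_lit 0), (nat_lit 3482174), (nat_lit 8679180)]) (PF.cons (PF.leaf (nat_lit 8082193) (nat_lit 471973) (nat_lit 38179065) (nat_lit 9373742) [(nat_lit 471973), (nat_lit 0), (nat_lit 3480153), (nat_lit 8643569)]) (PF.cons PF.nil PF.nil))) (PF.cons (PF.cons (PF.leaf (nat_lit 8479918) (nat_lit 1573070) (nat_lit 37304625) (nat_lit 9272876)
 [(nat_lit 0), (nat_lit 1573070), (nat_lit 3467513), (nat_lit 8555699)]) PF.nil) PF.nil)) (PF.cons PF.nil (PF.cons PF.nil PF.nil)))))) (PF.cons (PF.cons (PF.cons (PF.cons (PF.leaf (nat_lit 6290834) (nat_lit 8731549) (nat_lit 40153825) (nat_lit 9491888) [(nat_lit 0), (nat_lit 0), (nat_lit 0), (nat_lit 8731549)]) (PF.cons (PF.leaf (nat_lit 6533088) (nat_lit 421604) (nat_lit 39810387) (nat_lit 9462405) [(nat_lit 421604), (nat_lit 0), (nat_lit 0), (nat_lit 8707207)]) (PF.cons (PF.leaf (nat_lit 6788026) (nat_lit 432282) (nat_lit 39452299) (nat_lit 9430537)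 [(nat_lit 432282), (nat_lit 0), (nat_lit 0), (nat_lit 8680705)]) (PF.cons (PF.leaf (nat_lit 7052720) (nat_lit 441576) (nat_lit 39083162) (nat_lit 9396500) [(nat_lit 441576), (nat_lit 0), (nat_lit 0), (nat_lit 8652210)]) (PF.cons (PF.leaf (nat_lit 7325384) (nat_lit 449739) (nat_lit 38705670) (nat_lit 9360468) [(nat_lit 449739), (nat_lit 0), (nat_lit 0), (nat_lit 8621858)]) (PF.cons (PF.leaf (nat_lit 7604612) (nat_lit 456952) (nat_lit 38321927) (nat_lit 9322587) [(nat_lit 456952), (nat_lit 0), (nat_lit 0), (nat_lit 8589766)]) (PF.cons PF.nil PF.nil))))))) (PF.cons (PF.cons (PF.leaf (nat_lit 6927116) (nat_lit 1503738) (nat_lit 38950157)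
 (nat_lit 9379953) [(nat_lit 0), (nat_lit 1503738), (nat_lit 0), (nat_lit 8637481)]) (PF.cons (PF.leaf (nat_lit 7184874) (nat_lit 442100) (nat_lit 38591424) (nat_lit 9345402) [(nat_lit 442100), (nat_lit 1513198), (nat_lit 0), (nat_lit 8608343)]) (PF.cons (PF.leaf (nat_lit 7451891) (nat_lit 450182) (nat_lit 38223339) (nat_lit 9308808) [(nat_lit 450182), (nat_lit 1521665), (nat_lit 0), (nat_lit 8577316)]) (PF.cons (PF.leaf (nat_lit 7726036) (nat_lit 457279) (nat_lit 37848355) (nat_lit 9270354) [(nat_lit 457279), (nat_lit 1529162), (nat_lit 0), (nat_lit 8544550)]) (PF.cons PF.nil PF.nil))))) (PF.cons (PF.cons (PF.leaf (nat_lit 7579265) (nat_lit 1523323) (nat_lit 37743825) (nat_lit 9255692) [(nat_lit 0), (nat_lit 1523323), (nat_lit 0), (nat_lit 8531324)]) (PF.cons (PF.leaf (nat_lit 7847319) (nat_lit 457219) (nat_lit 37378517) (nat_lit 9216860) [(nat_lit 457219), (nat_lit 1530042), (nat_lit 0), (nat_lit 8498065)]) (PF.cons (PF.leaf (nat_lit 8122190) (nat_lit 463404) (nat_lit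 37007521) (nat_lit 9176303) [(nat_lit 463404), (nat_lit 1535903), (nat_lit 0), (nat_lit 8463185)]) (PF.cons PF.nil PF.nil)))) (PF.cons (PF.cons (PF.leaf (nat_lit 8238718) (nat_lit 1535528) (nat_lit 36550664)
 (nat_lit 9121337) [(nat_lit 0), (nat_lit 1535528), (nat_lit 0), (nat_lit 8415111)]) (PF.cons PF.nil PF.nil)) (PF.cons PF.nil PF.nil))))) (PF.cons (PF.cons (PF.cons (PF.leaf (nat_lit 7391370) (nat_lit 3390443) (nat_lit 37510880) (nat_lit 9216690) [(nat_lit 0), (nat_lit 0), (nat_lit 3390443), (nat_lit 8495399)]) (PF.cons (PF.leaf (nat_lit 7647065) (nat_lit 445243) (nat_lit 37165759) (nat_lit 9179778) [(nat_lit 445243), (nat_lit 0), (nat_lit 3390438), (nat_lit 8463796)]) (PF.cons (PF.leaf (nat_lit 7911416) (nat_lit 452617) (nat_lit 36812292) (nat_lit 9140950) [(nat_lit 452617), (nat_lit 0), (nat_lit 3389491), (nat_lit 8430421)]) (PF.cons (PF.leaf (nat_lit 8182318) (nat_lit 459038) (nat_lit 36452795) (nat_lit 9100412) [(nat_lit 459038), (nat_lit 0), (nat_lit 3387599),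 (nat_lit 8395444)]) (PF.cons PF.nil PF.nil))))) (PF.cons (PF.cons (PF.leaf (nat_lit 8032041) (nat_lit 1520418) (nat_lit 36356363) (nat_lit 9085887) [(nat_lit 0), (nat_lit 1520418), (nat_lit 3381586), (nat_lit 8382278)]) (PF.cons (PF.leaf (nat_lit 8296837) (nat_lit 458433) (nat_lit 36006498) (nat_lit 9045229) [(nat_lit 458433), (nat_lit 1525608), (nat_lit 3378915), (nat_lit 8347063)]) (PF.cons PF.nil (PF.cons PF.nil
 PF.nil)))) (PF.cons (PF.cons (PF.leaf (nat_lit 8677895) (nat_lit 1528366) (nat_lit 35218301) (nat_lit 8946816) [(nat_lit 0), (nat_lit 1528366), (nat_lit 3365232), (nat_lit 8260864)]) (PF.cons PF.nil PF.nil)) PF.nil))) (PF.cons (PF.cons (PF.cons (PF.leaf (nat_lit 8467869) (nat_lit 3347651) (nat_lit 35041768) (nat_lit 8912917) [(nat_lit 0), (nat_lit 0), (nat_lit 3347651), (nat_lit 8229412)]) (PF.cons (PF.leaf (nat_lit 8729055) (nat_lit 458466) (nat_lit 34707300) (nat_lit 8870993) [(nat_lit 458466), (nat_lit 0), (nat_lit 3343237), (nat_lit 8192789)]) PF.nil))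 (PF.cons PF.nil PF.nil)) (PF.cons PF.nil (PF.cons PF.nil PF.nil))))) (PF.cons (PF.cons (PF.cons (PF.cons (PF.leaf (nat_lit 8049772) (nat_lit 8064886) (nat_lit 34178447) (nat_lit 8735706) [(nat_lit 0), (nat_lit 0), (nat_lit 0), (nat_lit 8064886)]) (PF.cons (PF.leaf (nat_lit 8293749) (nat_lit 433600) (nat_lit 33879778) (nat_lit 8698324) [(nat_lit 433600), (nat_lit 0), (nat_lit 0), (nat_lit 8032369)]) (PF.cons (PF.leaf (nat_lit 8545748) (nat_lit 440270) (nat_lit 33574041) (nat_lit 8659282) [(nat_lit 440270), (nat_lit 0), (nat_lit 0), (nat_lit 7998315)]) (PF.cons PF.nil PF.nil)))) (PF.cons (PF.cons (PF.leaf (nat_lit 8654869)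
 (nat_lit 1470524) (nat_lit 33182032) (nat_lit 8605075) [(nat_lit 0), (nat_lit 1470524), (nat_lit 0), (nat_lit 7950393)]) (PF.cons (PF.leaf (nat_lit 8906938) (nat_lit 444970) (nat_lit 32879564) (nat_lit 8564778) [(nat_lit 444970), (nat_lit 1474322), (nat_lit 0), (nat_lit 7915059)]) PF.nil)) (PF.cons PF.nil PF.nil))) (PF.cons (PF.cons (PF.cons (PF.leaf (nat_lit 9056620) (nat_lit 3211432) (nat_lit 32054293) (nat_lit 8438163) [(nat_lit 0), (nat_lit 0), (nat_lit 3211432), (nat_lit 7801641)]) (PF.cons PF.nil PF.nil)) (PF.cons PF.nil PF.nil)) (PF.cons PF.nil PF.nil))) (PF.cons (PF.cons (PF.cons (PF.cons (PF.leaf (nat_lit 9588741) (nat_lit 7402418) (nat_lit 29502111) (nat_lit 7997025) [(nat_lit 0), (nat_lit 0), (nat_lit 0), (nat_lit 7402418)]) (PF.cons PF.nil PF.nil)) (PF.cons PF.nil PF.nil)) (PF.cons PF.nil PF.nil)) (PF.cons PF.nil (PF.cons PF.nil (PF.cons PF.nil PF.nil))))))))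

def p15_21_1_0 : pfC (piC [(nat_lit 39120232), (nat_lit 25510466), (nat_lit 18971201), (nat_lit 12765436)] (nat_lit 10384585)) p15_21_1 (nat_lit 4) (nat_lit 0) (nat_lit 1) = true := by decide +kernel
def p15_21_1_1 : pfC (piC [(nat_lit 39120232), (nat_lit 25510466), (nat_lit 18971201), (nat_lit 12765436)] (nat_lit 10384585)) p15_21_1 (nat_lit 4) (nat_lit 1) (nat_lit 2) = true := by decide +kernel
def p15_21_1_2 : pfC (piC [(nat_lit 39120232), (nat_lit 25510466), (nat_lit 18971201), (nat_lit 12765436)] (nat_lit 10384585)) p15_21_1 (nat_lit 4) (nat_lit 2) (nat_lit 3) = true := by decide +kernel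
def p15_21_1_3 : pfC (piC [(nat_lit 39120232), (nat_lit 25510466), (nat_lit 18971201), (nat_lit 12765436)] (nat_lit 10384585)) p15_21_1 (nat_lit 4) (nat_lit 3) (nat_lit 4) = true := by decide +kernel
def p15_21_1_4 : pfC (piC [(nat_lit 39120232), (nat_lit 25510466), (nat_lit 18971201), (nat_lit 12765436)] (nat_lit 10384585)) p15_21_1 (nat_lit 4) (nat_lit 4) (nat_lit 5) = true := by decide +kernel
def p15_21_1_5 : pfC (piC [(nat_lit 39120232), (nat_lit 25510466), (nat_lit 18971201), (nat_lit 12765436)] (nat_lit 10384585)) p15_21_1 (nat_lit 4) (nat_lit 5) (nat_lit 6) = true := by decide +kernel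
def p15_21_1_6 : pfC (piC [(nat_lit 39120232), (nat_lit 25510466), (nat_lit 18971201), (nat_lit 12765436)] (nat_lit 10384585)) p15_21_1 (nat_lit 4) (nat_lit 6) (nat_lit 7) = true := by decide +kernel
def p15_21_1_7 : pfC (piC [(nat_lit 39120232), (nat_lit 25510466), (nat_lit 18971201), (nat_lit 12765436)] (nat_lit 10384585)) p15_21_1 (nat_lit 4) (nat_lit 7) (nat_lit 8) = true := by decide +kernel
def p15_21_1_8 : pfC (piC [(nat_lit 39120232), (nat_lit 25510466), (nat_lit 18971201), (nat_lit 12765436)] (nat_lit 10384585)) p15_21_1 (nat_lit 4) (nat_lit 8) (nat_lit 9) = true := by decide +kernel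
def p15_21_1_9 : pfC (piC [(nat_lit 39120232), (nat_lit 25510466), (nat_lit 18971201), (nat_lit 12765436)] (nat_lit 10384585)) p15_21_1 (nat_lit 4) (nat_lit 9) (nat_lit 10) = true := by decide +kernel
def p15_21_1_10 : pfC (piC [(nat_lit 39120232), (nat_lit 25510466), (nat_lit 18971201), (nat_lit 12765436)] (nat_lit 10384585)) p15_21_1 (nat_lit 4) (nat_lit 10) (nat_lit 11) = true := by decide +kernel
def p15_21_1_11 : pfC (piC [(nat_lit 39120232), (nat_lit 25510466), (nat_lit 18971201), (nat_lit 12765436)] (nat_lit 10384585)) p15_21_1 (nat_lit 4) (nat_lit 11) (nat_lit 12) = true := by decide +kernel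
def p15_21_1_12 : pfC (piC [(nat_lit 39120232), (nat_lit 25510466), (nat_lit 18971201), (nat_lit 12765436)] (nat_lit 10384585)) p15_21_1 (nat_lit 4) (nat_lit 12) (nat_lit 13) = true := by decide +kernel
def p15_21_1_13 : pfC (piC [(nat_lit 39120232), (nat_lit 25510466), (nat_lit 18971201), (nat_lit 12765436)] (nat_lit 10384585)) p15_21_1 (nat_lit 4) (nat_lit 13) (nat_lit 14) = true := by decide +kernel
def p15_21_1_14 : pfC (piC [(nat_lit 39120232), (nat_lit 25510466), (nat_lit 18971201), (nat_lit 12765436)] (nat_lit 10384585)) p15_21_1 (nat_lit 4) (nat_lit 14) (nat_lit 15) = true := by decide +kernel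
def p15_21_1_15 : pfC (piC [(nat_lit 39120232), (nat_lit 25510466), (nat_lit 18971201), (nat_lit 12765436)] (nat_lit 10384585)) p15_21_1 (nat_lit 4) (nat_lit 15) (nat_lit 16) = true := by decide +kernel
def p15_21_1_16 : pfC (piC [(nat_lit 39120232), (nat_lit 25510466), (nat_lit 18971201), (nat_lit 12765436)] (nat_lit 10384585)) p15_21_1 (nat_lit 4) (nat_lit 16) (nat_lit 17) = true := by decide +kernel
def p15_21_1_17 : pfC (piC [(nat_lit 39120232), (nat_lit 25510466), (nat_lit 18971201), (nat_lit 12765436)] (nat_lit 10384585)) p15_21_1 (nat_lit 4) (nat_lit 17) (nat_lit 18) = true := by decide +kernel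
def p15_21_1_18 : pfC (piC [(nat_lit 39120232), (nat_lit 25510466), (nat_lit 18971201), (nat_lit 12765436)] (nat_lit 10384585)) p15_21_1 (nat_lit 4) (nat_lit 18) (nat_lit 19) = true := by decide +kernel
def p15_21_1_19 : pfC (piC [(nat_lit 39120232), (nat_lit 25510466), (nat_lit 18971201), (nat_lit 12765436)] (nat_lit 10384585)) p15_21_1 (nat_lit 4) (nat_lit 19) (nat_lit 20) = true := by decide +kernel
def p15_21_1_20 : pfC (piC [(nat_lit 39120232), (nat_lit 25510466), (nat_lit 18971201), (nat_lit 12765436)] (nat_lit 10384585)) p15_21_1 (nat_lit 4) (nat_lit 20) (nat_lit 21) = true := by decide +kernel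
def p15_21_1_21 : pfC (piC [(nat_lit 39120232), (nat_lit 25510466), (nat_lit 18971201), (nat_lit 12765436)] (nat_lit 10384585)) p15_21_1 (nat_lit 4) (nat_lit 21) (nat_lit 22) = true := by decide +kernel
def p15_21_1_22 : pfC (piC [(nat_lit 39120232), (nat_lit 25510466), (nat_lit 18971201), (nat_lit 12765436)] (nat_lit 10384585)) p15_21_1 (nat_lit 4) (nat_lit 22) (nat_lit 23) = true := by decide +kernel
def p15_21_1_23 : pfC (piC [(nat_lit 39120232), (nat_lit 25510466), (nat_lit 18971201), (nat_lit 12765436)] (nat_lit 10384585)) p15_21_1 (nat_lit 4) (nat_lit 23) (nat_lit 24) = true := by decide +kernel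
def p15_21_1_24 : pfC (piC [(nat_lit 39120232), (nat_lit 25510466), (nat_lit 18971201), (nat_lit 12765436)] (nat_lit 10384585)) p15_21_1 (nat_lit 4) (nat_lit 24) (nat_lit 25) = true := by decide +kernel
def p15_21_1_25 : pfC (piC [(nat_lit 39120232), (nat_lit 25510466), (nat_lit 18971201), (nat_lit 12765436)] (nat_lit 10384585)) p15_21_1 (nat_lit 4) (nat_lit 25) (nat_lit 26) = true := by decide +kernel
def p15_21_1_26 : pfC (piC [(nat_lit 39120232), (nat_lit 25510466), (nat_lit 18971201), (nat_lit 12765436)] (nat_lit 10384585)) p15_21_1 (nat_lit 4) (nat_lit 26) (nat_lit 27) = true := by decide +kernel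
def p15_21_1_27 : pfC (piC [(nat_lit 39120232), (nat_lit 25510466), (nat_lit 18971201), (nat_lit 12765436)] (nat_lit 10384585)) p15_21_1 (nat_lit 4) (nat_lit 27) (nat_lit 28) = true := by decide +kernel
def p15_21_1_28 : pfC (piC [(nat_lit 39120232), (nat_lit 25510466), (nat_lit 18971201), (nat_lit 12765436)] (nat_lit 10384585)) p15_21_1 (nat_lit 4) (nat_lit 28) (nat_lit 29) = true := by decide +kernel
def p15_21_1_29 : pfC (piC [(nat_lit 39120232), (nat_lit 25510466), (nat_lit 18971201), (nat_lit 12765436)] (nat_lit 10384585)) p15_21_1 (nat_lit 4) (nat_lit 29) (nat_lit 30) = true := by decide +kernel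
def p15_21_1_30 : pfC (piC [(nat_lit 39120232), (nat_lit 25510466), (nat_lit 18971201), (nat_lit 12765436)] (nat_lit 10384585)) p15_21_1 (nat_lit 4) (nat_lit 30) (nat_lit 31) = true := by decide +kernel
def p15_21_1_31 : pfC (piC [(nat_lit 39120232), (nat_lit 25510466), (nat_lit 18971201), (nat_lit 12765436)] (nat_lit 10384585)) p15_21_1 (nat_lit 4) (nat_lit 31) (nat_lit 32) = true := by decide +kernel
def p15_21_1_32 : pfC (piC [(nat_lit 39120232), (nat_lit 25510466), (nat_lit 18971201), (nat_lit 12765436)] (nat_lit 10384585)) p15_21_1 (nat_lit 4) (nat_lit 32) (nat_lit 33) = true := by decide +kernel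
def p15_21_1_33 : pfC (piC [(nat_lit 39120232), (nat_lit 25510466), (nat_lit 18971201), (nat_lit 12765436)] (nat_lit 10384585)) p15_21_1 (nat_lit 4) (nat_lit 33) (nat_lit 34) = true := by decide +kernel
def p15_21_1_34 : pfC (piC [(nat_lit 39120232), (nat_lit 25510466), (nat_lit 18971201), (nat_lit 12765436)] (nat_lit 10384585)) p15_21_1 (nat_lit 4) (nat_lit 34) (nat_lit 35) = true := by decide +kernel
def p15_21_1_35 : pfC (piC [(nat_lit 39120232), (nat_lit 25510466), (nat_lit 18971201), (nat_lit 12765436)] (nat_lit 10384585)) p15_21_1 (nat_lit 4) (nat_lit 35) (nat_lit 36) = true := by decide +kernel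
def p15_21_1_36 : pfC (piC [(nat_lit 39120232), (nat_lit 25510466), (nat_lit 18971201), (nat_lit 12765436)] (nat_lit 10384585)) p15_21_1 (nat_lit 4) (nat_lit 36) (nat_lit 37) = true := by decide +kernel
def p15_21_1_37 : pfC (piC [(nat_lit 39120232), (nat_lit 25510466), (nat_lit 18971201), (nat_lit 12765436)] (nat_lit 10384585)) p15_21_1 (nat_lit 4) (nat_lit 37) (nat_lit 38) = true := by decide +kernel
def p15_21_1_38 : pfC (piC [(nat_lit 39120232), (nat_lit 25510466), (nat_lit 18971201), (nat_lit 12765436)] (nat_lit 10384585)) p15_21_1 (nat_lit 4) (nat_lit 38) (nat_lit 39) = true := by decide +kernel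
def p15_21_1_39 : pfC (piC [(nat_lit 39120232), (nat_lit 25510466), (nat_lit 18971201), (nat_lit 12765436)] (nat_lit 10384585)) p15_21_1 (nat_lit 4) (nat_lit 39) (nat_lit 40) = true := by decide +kernel
def p15_21_1_40 : pfC (piC [(nat_lit 39120232), (nat_lit 25510466), (nat_lit 18971201), (nat_lit 12765436)] (nat_lit 10384585)) p15_21_1 (nat_lit 4) (nat_lit 40) (nat_lit 41) = true := by decide +kernel
def p15_21_1_41 : pfC (piC [(nat_lit 39120232), (nat_lit 25510466), (nat_lit 18971201), (nat_lit 12765436)] (nat_lit 10384585)) p15_21_1 (nat_lit 4) (nat_lit 41) (nat_lit 42) = true := by decide +kernel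
def p15_21_1_42 : pfC (piC [(nat_lit 39120232), (nat_lit 25510466), (nat_lit 18971201), (nat_lit 12765436)] (nat_lit 10384585)) p15_21_1 (nat_lit 4) (nat_lit 42) (nat_lit 43) = true := by decide +kernel
def p15_21_1_43 : pfC (piC [(nat_lit 39120232), (nat_lit 25510466), (nat_lit 18971201), (nat_lit 12765436)] (nat_lit 10384585)) p15_21_1 (nat_lit 4) (nat_lit 43) (nat_lit 44) = true := by decide +kernel
def p15_21_1_44 : pfC (piC [(nat_lit 39120232), (nat_lit 25510466), (nat_lit 18971201), (nat_lit 12765436)] (nat_lit 10384585)) p15_21_1 (nat_lit 4) (nat_lit 44) (nat_lit 45) = true := by decide +kernel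
def p15_21_1_45 : pfC (piC [(nat_lit 39120232), (nat_lit 25510466), (nat_lit 18971201), (nat_lit 12765436)] (nat_lit 10384585)) p15_21_1 (nat_lit 4) (nat_lit 45) (nat_lit 46) = true := by decide +kernel
def p15_21_1_46 : pfC (piC [(nat_lit 39120232), (nat_lit 25510466), (nat_lit 18971201), (nat_lit 12765436)] (nat_lit 10384585)) p15_21_1 (nat_lit 4) (nat_lit 46) (nat_lit 47) = true := by decide +kernel
def p15_21_1_47 : pfC (piC [(nat_lit 39120232), (nat_lit 25510466), (nat_lit 18971201), (nat_lit 12765436)] (nat_lit 10384585)) p15_21_1 (nat_lit 4) (nat_lit 47) (nat_lit 48) = true := by decide +kernel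
def p15_21_1_48 : pfC (piC [(nat_lit 39120232), (nat_lit 25510466), (nat_lit 18971201), (nat_lit 12765436)] (nat_lit 10384585)) p15_21_1 (nat_lit 4) (nat_lit 48) (nat_lit 49) = true := by decide +kernel
def p15_21_1_49 : pfC (piC [(nat_lit 39120232), (nat_lit 25510466), (nat_lit 18971201), (nat_lit 12765436)] (nat_lit 10384585)) p15_21_1 (nat_lit 4) (nat_lit 49) (nat_lit 50) = true := by decide +kernel
def p15_21_1_50 : pfC (piC [(nat_lit 39120232), (nat_lit 25510466), (nat_lit 18971201), (nat_lit 12765436)] (nat_lit 10384585)) p15_21_1 (nat_lit 4) (nat_lit 50) (nat_lit 51) = true := by decide +kernel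
def p15_21_1_51 : pfC (piC [(nat_lit 39120232), (nat_lit 25510466), (nat_lit 18971201), (nat_lit 12765436)] (nat_lit 10384585)) p15_21_1 (nat_lit 4) (nat_lit 51) (nat_lit 52) = true := by decide +kernel
def p15_21_1_52 : pfC (piC [(nat_lit 39120232), (nat_lit 25510466), (nat_lit 18971201), (nat_lit 12765436)] (nat_lit 10384585)) p15_21_1 (nat_lit 4) (nat_lit 52) (nat_lit 53) = true := by decide +kernel
def p15_21_1_53 : pfC (piC [(nat_lit 39120232), (nat_lit 25510466), (nat_lit 18971201), (nat_lit 12765436)] (nat_lit 10384585)) p15_21_1 (nat_lit 4) (nat_lit 53) (nat_lit 54) = true := by decide +kernel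
def p15_21_1_54 : pfC (piC [(nat_lit 39120232), (nat_lit 25510466), (nat_lit 18971201), (nat_lit 12765436)] (nat_lit 10384585)) p15_21_1 (nat_lit 4) (nat_lit 54) (nat_lit 55) = true := by decide +kernel
def p15_21_1_55 : pfC (piC [(nat_lit 39120232), (nat_lit 25510466), (nat_lit 18971201), (nat_lit 12765436)] (nat_lit 10384585)) p15_21_1 (nat_lit 4) (nat_lit 55) (nat_lit 56) = true := by decide +kernel
def p15_21_1_56 : pfC (piC [(nat_lit 39120232), (nat_lit 25510466), (nat_lit 18971201), (nat_lit 12765436)] (nat_lit 10384585)) p15_21_1 (nat_lit 4) (nat_lit 56) (nat_lit 57) = true := by decide +kernel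
def p15_21_1_57 : pfC (piC [(nat_lit 39120232), (nat_lit 25510466), (nat_lit 18971201), (nat_lit 12765436)] (nat_lit 10384585)) p15_21_1 (nat_lit 4) (nat_lit 57) (nat_lit 58) = true := by decide +kernel
def p15_21_1_58 : pfC (piC [(nat_lit 39120232), (nat_lit 25510466), (nat_lit 18971201), (nat_lit 12765436)] (nat_lit 10384585)) p15_21_1 (nat_lit 4) (nat_lit 58) (nat_lit 59) = true := by decide +kernel
def p15_21_1_59 : pfC (piC [(nat_lit 39120232), (nat_lit 25510466), (nat_lit 18971201), (nat_lit 12765436)] (nat_lit 10384585)) p15_21_1 (nat_lit 4) (nat_lit 59) (nat_lit 60) = true := by decide +kernel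
def p15_21_1_60 : pfC (piC [(nat_lit 39120232), (nat_lit 25510466), (nat_lit 18971201), (nat_lit 12765436)] (nat_lit 10384585)) p15_21_1 (nat_lit 4) (nat_lit 60) (nat_lit 61) = true := by decide +kernel
def p15_21_1_61 : pfC (piC [(nat_lit 39120232), (nat_lit 25510466), (nat_lit 18971201), (nat_lit 12765436)] (nat_lit 10384585)) p15_21_1 (nat_lit 4) (nat_lit 61) (nat_lit 62) = true := by decide +kernel
def p15_21_1_62 : pfC (piC [(nat_lit 39120232), (nat_lit 25510466), (nat_lit 18971201), (nat_lit 12765436)] (nat_lit 10384585)) p15_21_1 (nat_lit 4) (nat_lit 62) (nat_lit 63) = true := by decide +kernel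
def p15_21_1_63 : pfC (piC [(nat_lit 39120232), (nat_lit 25510466), (nat_lit 18971201), (nat_lit 12765436)] (nat_lit 10384585)) p15_21_1 (nat_lit 4) (nat_lit 63) (nat_lit 64) = true := by decide +kernel
def p15_21_1_64 : pfC (piC [(nat_lit 39120232), (nat_lit 25510466), (nat_lit 18971201), (nat_lit 12765436)] (nat_lit 10384585)) p15_21_1 (nat_lit 4) (nat_lit 64) (nat_lit 65) = true := by decide +kernel
def p15_21_1_65 : pfC (piC [(nat_lit 39120232), (nat_lit 25510466), (nat_lit 18971201), (nat_lit 12765436)] (nat_lit 10384585)) p15_21_1 (nat_lit 4) (nat_lit 65) (nat_lit 66) = true := by decide +kernel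
def p15_21_1_66 : pfC (piC [(nat_lit 39120232), (nat_lit 25510466), (nat_lit 18971201), (nat_lit 12765436)] (nat_lit 10384585)) p15_21_1 (nat_lit 4) (nat_lit 66) (nat_lit 67) = true := by decide +kernel
def p15_21_1_67 : pfC (piC [(nat_lit 39120232), (nat_lit 25510466), (nat_lit 18971201), (nat_lit 12765436)] (nat_lit 10384585)) p15_21_1 (nat_lit 4) (nat_lit 67) (nat_lit 68) = true := by decide +kernel
def p15_21_1_68 : pfC (piC [(nat_lit 39120232), (nat_lit 25510466), (nat_lit 18971201), (nat_lit 12765436)] (nat_lit 10384585)) p15_21_1 (nat_lit 4) (nat_lit 68) (nat_lit 69) = true := by decide +kernel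
def p15_21_1_69 : pfC (piC [(nat_lit 39120232), (nat_lit 25510466), (nat_lit 18971201), (nat_lit 12765436)] (nat_lit 10384585)) p15_21_1 (nat_lit 4) (nat_lit 69) (nat_lit 70) = true := by decide +kernel
def p15_21_1_70 : pfC (piC [(nat_lit 39120232), (nat_lit 25510466), (nat_lit 18971201), (nat_lit 12765436)] (nat_lit 10384585)) p15_21_1 (nat_lit 4) (nat_lit 70) (nat_lit 71) = true := by decide +kernel
def p15_21_1_71 : pfC (piC [(nat_lit 39120232), (nat_lit 25510466), (nat_lit 18971201), (nat_lit 12765436)] (nat_lit 10384585)) p15_21_1 (nat_lit 4) (nat_lit 71) (nat_lit 72) = true := by decide +kernel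
def p15_21_1_72 : pfC (piC [(nat_lit 39120232), (nat_lit 25510466), (nat_lit 18971201), (nat_lit 12765436)] (nat_lit 10384585)) p15_21_1 (nat_lit 4) (nat_lit 72) (nat_lit 73) = true := by decide +kernel
def p15_21_1_73 : pfC (piC [(nat_lit 39120232), (nat_lit 25510466), (nat_lit 18971201), (nat_lit 12765436)] (nat_lit 10384585)) p15_21_1 (nat_lit 4) (nat_lit 73) (nat_lit 74) = true := by decide +kernel
def p15_21_1_74 : pfC (piC [(nat_lit 39120232), (nat_lit 25510466), (nat_lit 18971201), (nat_lit 12765436)] (nat_lit 10384585)) p15_21_1 (nat_lit 4) (nat_lit 74) (nat_lit 75) = true := by decide +kernel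
def p15_21_1_75 : pfC (piC [(nat_lit 39120232), (nat_lit 25510466), (nat_lit 18971201), (nat_lit 12765436)] (nat_lit 10384585)) p15_21_1 (nat_lit 4) (nat_lit 75) (nat_lit 76) = true := by decide +kernel
def p15_21_1_76 : pfC (piC [(nat_lit 39120232), (nat_lit 25510466), (nat_lit 18971201), (nat_lit 12765436)] (nat_lit 10384585)) p15_21_1 (nat_lit 4) (nat_lit 76) (nat_lit 77) = true := by decide +kernel
def p15_21_1_77 : pfC (piC [(nat_lit 39120232), (nat_lit 25510466), (nat_lit 18971201), (nat_lit 12765436)] (nat_lit 10384585)) p15_21_1 (nat_lit 4) (nat_lit 77) (nat_lit 78) = true := by decide +kernel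
def p15_21_1_78 : pfC (piC [(nat_lit 39120232), (nat_lit 25510466), (nat_lit 18971201), (nat_lit 12765436)] (nat_lit 10384585)) p15_21_1 (nat_lit 4) (nat_lit 78) (nat_lit 79) = true := by decide +kernel
def p15_21_1_79 : pfC (piC [(nat_lit 39120232), (nat_lit 25510466), (nat_lit 18971201), (nat_lit 12765436)] (nat_lit 10384585)) p15_21_1 (nat_lit 4) (nat_lit 79) (nat_lit 80) = true := by decide +kernel
def p15_21_1_80 : pfC (piC [(nat_lit 39120232), (nat_lit 25510466), (nat_lit 18971201), (nat_lit 12765436)] (nat_lit 10384585)) p15_21_1 (nat_lit 4) (nat_lit 80) (nat_lit 81) = true := by decide +kernel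
def p15_21_1_81 : pfC (piC [(nat_lit 39120232), (nat_lit 25510466), (nat_lit 18971201), (nat_lit 12765436)] (nat_lit 10384585)) p15_21_1 (nat_lit 4) (nat_lit 81) (nat_lit 82) = true := by decide +kernel
def p15_21_1_82 : pfC (piC [(nat_lit 39120232), (nat_lit 25510466), (nat_lit 18971201), (nat_lit 12765436)] (nat_lit 10384585)) p15_21_1 (nat_lit 4) (nat_lit 82) (nat_lit 83) = true := by decide +kernel
def p15_21_1_83 : pfC (piC [(nat_lit 39120232), (nat_lit 25510466), (nat_lit 18971201), (nat_lit 12765436)] (nat_lit 10384585)) p15_21_1 (nat_lit 4) (nat_lit 83) (nat_lit 84) = true := by decide +kernel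
def p15_21_1_84 : pfC (piC [(nat_lit 39120232), (nat_lit 25510466), (nat_lit 18971201), (nat_lit 12765436)] (nat_lit 10384585)) p15_21_1 (nat_lit 4) (nat_lit 84) (nat_lit 85) = true := by decide +kernel
def p15_21_1_85 : pfC (piC [(nat_lit 39120232), (nat_lit 25510466), (nat_lit 18971201), (nat_lit 12765436)] (nat_lit 10384585)) p15_21_1 (nat_lit 4) (nat_lit 85) (nat_lit 86) = true := by decide +kernel
def p15_21_1_86 : pfC (piC [(nat_lit 39120232), (nat_lit 25510466), (nat_lit 18971201), (nat_lit 12765436)] (nat_lit 10384585)) p15_21_1 (nat_lit 4) (nat_lit 86) (nat_lit 87) = true := by decide +kernel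
def p15_21_1_87 : pfC (piC [(nat_lit 39120232), (nat_lit 25510466), (nat_lit 18971201), (nat_lit 12765436)] (nat_lit 10384585)) p15_21_1 (nat_lit 4) (nat_lit 87) (nat_lit 88) = true := by decide +kernel
def p15_21_1_88 : pfC (piC [(nat_lit 39120232), (nat_lit 25510466), (nat_lit 18971201), (nat_lit 12765436)] (nat_lit 10384585)) p15_21_1 (nat_lit 4) (nat_lit 88) (nat_lit 89) = true := by decide +kernel
def p15_21_1_89 : pfC (piC [(nat_lit 39120232), (nat_lit 25510466), (nat_lit 18971201), (nat_lit 12765436)] (nat_lit 10384585)) p15_21_1 (nat_lit 4) (nat_lit 89) (nat_lit 90) = true := by decide +kernel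
def p15_21_1_90 : pfC (piC [(nat_lit 39120232), (nat_lit 25510466), (nat_lit 18971201), (nat_lit 12765436)] (nat_lit 10384585)) p15_21_1 (nat_lit 4) (nat_lit 90) (nat_lit 91) = true := by decide +kernel
def p15_21_1_91 : pfC (piC [(nat_lit 39120232), (nat_lit 25510466), (nat_lit 18971201), (nat_lit 12765436)] (nat_lit 10384585)) p15_21_1 (nat_lit 4) (nat_lit 91) (nat_lit 92) = true := by decide +kernel
def p15_21_1_92 : pfC (piC [(nat_lit 39120232), (nat_lit 25510466), (nat_lit 18971201), (nat_lit 12765436)] (nat_lit 10384585)) p15_21_1 (nat_lit 4) (nat_lit 92) (nat_lit 93) = true := by decide +kernel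
def p15_21_1_93 : pfC (piC [(nat_lit 39120232), (nat_lit 25510466), (nat_lit 18971201), (nat_lit 12765436)] (nat_lit 10384585)) p15_21_1 (nat_lit 4) (nat_lit 93) (nat_lit 94) = true := by decide +kernel
def p15_21_1_94 : pfC (piC [(nat_lit 39120232), (nat_lit 25510466), (nat_lit 18971201), (nat_lit 12765436)] (nat_lit 10384585)) p15_21_1 (nat_lit 4) (nat_lit 94) (nat_lit 95) = true := by decide +kernel
def p15_21_1_95 : pfC (piC [(nat_lit 39120232), (nat_lit 25510466), (nat_lit 18971201), (nat_lit 12765436)] (nat_lit 10384585)) p15_21_1 (nat_lit 4) (nat_lit 95) (nat_lit 96) = true := by decide +kernel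
def p15_21_1_96 : pfC (piC [(nat_lit 39120232), (nat_lit 25510466), (nat_lit 18971201), (nat_lit 12765436)] (nat_lit 10384585)) p15_21_1 (nat_lit 4) (nat_lit 96) (nat_lit 97) = true := by decide +kernel
def p15_21_1_97 : pfC (piC [(nat_lit 39120232), (nat_lit 25510466), (nat_lit 18971201), (nat_lit 12765436)] (nat_lit 10384585)) p15_21_1 (nat_lit 4) (nat_lit 97) (nat_lit 98) = true := by decide +kernel
def p15_21_1_98 : pfC (piC [(nat_lit 39120232), (nat_lit 25510466), (nat_lit 18971201), (nat_lit 12765436)] (nat_lit 10384585)) p15_21_1 (nat_lit 4) (nat_lit 98) (nat_lit 99) = true := by decide +kernel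
def p15_21_1_99 : pfC (piC [(nat_lit 39120232), (nat_lit 25510466), (nat_lit 18971201), (nat_lit 12765436)] (nat_lit 10384585)) p15_21_1 (nat_lit 4) (nat_lit 99) (nat_lit 100) = true := by decide +kernel
def p15_21_1_100 : pfC (piC [(nat_lit 39120232), (nat_lit 25510466), (nat_lit 18971201), (nat_lit 12765436)] (nat_lit 10384585)) p15_21_1 (nat_lit 4) (nat_lit 100) (nat_lit 101) = true := by decide +kernel
def p15_21_1_101 : pfC (piC [(nat_lit 39120232), (nat_lit 25510466), (nat_lit 18971201), (nat_lit 12765436)] (nat_lit 10384585)) p15_21_1 (nat_lit 4) (nat_lit 101) (nat_lit 102) = true := by decide +kernel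
def p15_21_1_102 : pfC (piC [(nat_lit 39120232), (nat_lit 25510466), (nat_lit 18971201), (nat_lit 12765436)] (nat_lit 10384585)) p15_21_1 (nat_lit 4) (nat_lit 102) (nat_lit 103) = true := by decide +kernel
def p15_21_1_103 : pfC (piC [(nat_lit 39120232), (nat_lit 25510466), (nat_lit 18971201), (nat_lit 12765436)] (nat_lit 10384585)) p15_21_1 (nat_lit 4) (nat_lit 103) (nat_lit 104) = true := by decide +kernel
def p15_21_1_104 : pfC (piC [(nat_lit 39120232), (nat_lit 25510466), (nat_lit 18971201), (nat_lit 12765436)] (nat_lit 10384585)) p15_21_1 (nat_lit 4) (nat_lit 104) (nat_lit 105) = true := by decide +kernel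
def p15_21_1_105 : pfC (piC [(nat_lit 39120232), (nat_lit 25510466), (nat_lit 18971201), (nat_lit 12765436)] (nat_lit 10384585)) p15_21_1 (nat_lit 4) (nat_lit 105) (nat_lit 106) = true := by decide +kernel
def p15_21_1_106 : pfC (piC [(nat_lit 39120232), (nat_lit 25510466), (nat_lit 18971201), (nat_lit 12765436)] (nat_lit 10384585)) p15_21_1 (nat_lit 4) (nat_lit 106) (nat_lit 107) = true := by decide +kernel
def p15_21_1_107 : pfC (piC [(nat_lit 39120232), (nat_lit 25510466), (nat_lit 18971201), (nat_lit 12765436)] (nat_lit 10384585)) p15_21_1 (nat_lit 4) (nat_lit 107) (nat_lit 108) = true := by decide +kernel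
def p15_21_1_108 : pfC (piC [(nat_lit 39120232), (nat_lit 25510466), (nat_lit 18971201), (nat_lit 12765436)] (nat_lit 10384585)) p15_21_1 (nat_lit 4) (nat_lit 108) (nat_lit 109) = true := by decide +kernel
def p15_21_1_109 : pfC (piC [(nat_lit 39120232), (nat_lit 25510466), (nat_lit 18971201), (nat_lit 12765436)] (nat_lit 10384585)) p15_21_1 (nat_lit 4) (nat_lit 109) (nat_lit 110) = true := by decide +kernel
def p15_21_1_110 : pfC (piC [(nat_lit 39120232), (nat_lit 25510466), (nat_lit 18971201), (nat_lit 12765436)] (nat_lit 10384585)) p15_21_1 (nat_lit 4) (nat_lit 110) (nat_lit 111) = true := by decide +kernel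
def p15_21_1_111 : pfC (piC [(nat_lit 39120232), (nat_lit 25510466), (nat_lit 18971201), (nat_lit 12765436)] (nat_lit 10384585)) p15_21_1 (nat_lit 4) (nat_lit 111) (nat_lit 112) = true := by decide +kernel
def p15_21_1_112 : pfC (piC [(nat_lit 39120232), (nat_lit 25510466), (nat_lit 18971201), (nat_lit 12765436)] (nat_lit 10384585)) p15_21_1 (nat_lit 4) (nat_lit 112) (nat_lit 113) = true := by decide +kernel
def p15_21_1_113 : pfC (piC [(nat_lit 39120232), (nat_lit 25510466), (nat_lit 18971201), (nat_lit 12765436)] (nat_lit 10384585)) p15_21_1 (nat_lit 4) (nat_lit 113) (nat_lit 114) = true := by decide +kernel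
def p15_21_1_114 : pfC (piC [(nat_lit 39120232), (nat_lit 25510466), (nat_lit 18971201), (nat_lit 12765436)] (nat_lit 10384585)) p15_21_1 (nat_lit 4) (nat_lit 114) (nat_lit 115) = true := by decide +kernel
def p15_21_1_115 : pfC (piC [(nat_lit 39120232), (nat_lit 25510466), (nat_lit 18971201), (nat_lit 12765436)] (nat_lit 10384585)) p15_21_1 (nat_lit 4) (nat_lit 115) (nat_lit 116) = true := by decide +kernel
def p15_21_1_116 : pfC (piC [(nat_lit 39120232), (nat_lit 25510466), (nat_lit 18971201), (nat_lit 12765436)] (nat_lit 10384585)) p15_21_1 (nat_lit 4) (nat_lit 116) (nat_lit 117) = true := by decide +kernel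
def p15_21_1_117 : pfC (piC [(nat_lit 39120232), (nat_lit 25510466), (nat_lit 18971201), (nat_lit 12765436)] (nat_lit 10384585)) p15_21_1 (nat_lit 4) (nat_lit 117) (nat_lit 118) = true := by decide +kernel
def p15_21_1_118 : pfC (piC [(nat_lit 39120232), (nat_lit 25510466), (nat_lit 18971201), (nat_lit 12765436)] (nat_lit 10384585)) p15_21_1 (nat_lit 4) (nat_lit 118) (nat_lit 119) = true := by decide +kernel
def p15_21_1_119 : pfC (piC [(nat_lit 39120232), (nat_lit 25510466), (nat_lit 18971201), (nat_lit 12765436)] (nat_lit 10384585)) p15_21_1 (nat_lit 4) (nat_lit 119) (nat_lit 120) = true := by decide +kernel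
def p15_21_1_120 : pfC (piC [(nat_lit 39120232), (nat_lit 25510466), (nat_lit 18971201), (nat_lit 12765436)] (nat_lit 10384585)) p15_21_1 (nat_lit 4) (nat_lit 120) (nat_lit 121) = true := by decide +kernel
def p15_21_1_121 : pfC (piC [(nat_lit 39120232), (nat_lit 25510466), (nat_lit 18971201), (nat_lit 12765436)] (nat_lit 10384585)) p15_21_1 (nat_lit 4) (nat_lit 121) (nat_lit 122) = true := by decide +kernel
def p15_21_1_122 : pfC (piC [(nat_lit 39120232), (nat_lit 25510466), (nat_lit 18971201), (nat_lit 12765436)] (nat_lit 10384585)) p15_21_1 (nat_lit 4) (nat_lit 122) (nat_lit 123) = true := by decide +kernel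
def p15_21_1_123 : pfC (piC [(nat_lit 39120232), (nat_lit 25510466), (nat_lit 18971201), (nat_lit 12765436)] (nat_lit 10384585)) p15_21_1 (nat_lit 4) (nat_lit 123) (nat_lit 124) = true := by decide +kernel
def p15_21_1_124 : pfC (piC [(nat_lit 39120232), (nat_lit 25510466), (nat_lit 18971201), (nat_lit 12765436)] (nat_lit 10384585)) p15_21_1 (nat_lit 4) (nat_lit 124) (nat_lit 125) = true := by decide +kernel
def p15_21_1_125 : pfC (piC [(nat_lit 39120232), (nat_lit 25510466), (nat_lit 18971201), (nat_lit 12765436)] (nat_lit 10384585)) p15_21_1 (nat_lit 4) (nat_lit 125) (nat_lit 126) = true := by decide +kernel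
def p15_21_1_126 : pfC (piC [(nat_lit 39120232), (nat_lit 25510466), (nat_lit 18971201), (nat_lit 12765436)] (nat_lit 10384585)) p15_21_1 (nat_lit 4) (nat_lit 126) (nat_lit 127) = true := by decide +kernel
def p15_21_1_127 : pfC (piC [(nat_lit 39120232), (nat_lit 25510466), (nat_lit 18971201), (nat_lit 12765436)] (nat_lit 10384585)) p15_21_1 (nat_lit 4) (nat_lit 127) (nat_lit 128) = true := by decide +kernel
def p15_21_1_128 : pfC (piC [(nat_lit 39120232), (nat_lit 25510466), (nat_lit 18971201), (nat_lit 12765436)] (nat_lit 10384585)) p15_21_1 (nat_lit 4) (nat_lit 128) (nat_lit 129) = true := by decide +kernel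
def p15_21_1_129 : pfC (piC [(nat_lit 39120232), (nat_lit 25510466), (nat_lit 18971201), (nat_lit 12765436)] (nat_lit 10384585)) p15_21_1 (nat_lit 4) (nat_lit 129) (nat_lit 130) = true := by decide +kernel
def p15_21_1_130 : pfC (piC [(nat_lit 39120232), (nat_lit 25510466), (nat_lit 18971201), (nat_lit 12765436)] (nat_lit 10384585)) p15_21_1 (nat_lit 4) (nat_lit 130) (nat_lit 131) = true := by decide +kernel
def p15_21_1_131 : pfC (piC [(nat_lit 39120232), (nat_lit 25510466), (nat_lit 18971201), (nat_lit 12765436)] (nat_lit 10384585)) p15_21_1 (nat_lit 4) (nat_lit 131) (nat_lit 132) = true := by decide +kernel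
def p15_21_1_132 : pfC (piC [(nat_lit 39120232), (nat_lit 25510466), (nat_lit 18971201), (nat_lit 12765436)] (nat_lit 10384585)) p15_21_1 (nat_lit 4) (nat_lit 132) (nat_lit 133) = true := by decide +kernel
def p15_21_1_133 : pfC (piC [(nat_lit 39120232), (nat_lit 25510466), (nat_lit 18971201), (nat_lit 12765436)] (nat_lit 10384585)) p15_21_1 (nat_lit 4) (nat_lit 133) (nat_lit 134) = true := by decide +kernel
def p15_21_1_134 : pfC (piC [(nat_lit 39120232), (nat_lit 25510466), (nat_lit 18971201), (nat_lit 12765436)] (nat_lit 10384585)) p15_21_1 (nat_lit 4) (nat_lit 134) (nat_lit 135) = true := by decide +kernel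
def p15_21_1_135 : pfC (piC [(nat_lit 39120232), (nat_lit 25510466), (nat_lit 18971201), (nat_lit 12765436)] (nat_lit 10384585)) p15_21_1 (nat_lit 4) (nat_lit 135) (nat_lit 136) = true := by decide +kernel
def p15_21_1_136 : pfC (piC [(nat_lit 39120232), (nat_lit 25510466), (nat_lit 18971201), (nat_lit 12765436)] (nat_lit 10384585)) p15_21_1 (nat_lit 4) (nat_lit 136) (nat_lit 137) = true := by decide +kernel
def p15_21_1_137 : pfC (piC [(nat_lit 39120232), (nat_lit 25510466), (nat_lit 18971201), (nat_lit 12765436)] (nat_lit 10384585)) p15_21_1 (nat_lit 4) (nat_lit 137) (nat_lit 138) = true := by decide +kernel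
def p15_21_1_138 : pfC (piC [(nat_lit 39120232), (nat_lit 25510466), (nat_lit 18971201), (nat_lit 12765436)] (nat_lit 10384585)) p15_21_1 (nat_lit 4) (nat_lit 138) (nat_lit 139) = true := by decide +kernel
def p15_21_1_139 : pfC (piC [(nat_lit 39120232), (nat_lit 25510466), (nat_lit 18971201), (nat_lit 12765436)] (nat_lit 10384585)) p15_21_1 (nat_lit 4) (nat_lit 139) (nat_lit 140) = true := by decide +kernel
def p15_21_1_140 : pfC (piC [(nat_lit 39120232), (nat_lit 25510466), (nat_lit 18971201), (nat_lit 12765436)] (nat_lit 10384585)) p15_21_1 (nat_lit 4) (nat_lit 140) (nat_lit 141) = true := by decide +kernel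
def p15_21_1_141 : pfC (piC [(nat_lit 39120232), (nat_lit 25510466), (nat_lit 18971201), (nat_lit 12765436)] (nat_lit 10384585)) p15_21_1 (nat_lit 4) (nat_lit 141) (nat_lit 142) = true := by decide +kernel
def p15_21_1_142 : pfC (piC [(nat_lit 39120232), (nat_lit 25510466), (nat_lit 18971201), (nat_lit 12765436)] (nat_lit 10384585)) p15_21_1 (nat_lit 4) (nat_lit 142) (nat_lit 143) = true := by decide +kernel
def p15_21_1_143 : pfC (piC [(nat_lit 39120232), (nat_lit 25510466), (nat_lit 18971201), (nat_lit 12765436)] (nat_lit 10384585)) p15_21_1 (nat_lit 4) (nat_lit 143) (nat_lit 144) = true := by decide +kernel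
def p15_21_1_144 : pfC (piC [(nat_lit 39120232), (nat_lit 25510466), (nat_lit 18971201), (nat_lit 12765436)] (nat_lit 10384585)) p15_21_1 (nat_lit 4) (nat_lit 144) (nat_lit 145) = true := by decide +kernel
def p15_21_1_145 : pfC (piC [(nat_lit 39120232), (nat_lit 25510466), (nat_lit 18971201), (nat_lit 12765436)] (nat_lit 10384585)) p15_21_1 (nat_lit 4) (nat_lit 145) (nat_lit 146) = true := by decide +kernel
def p15_21_1_146 : pfC (piC [(nat_lit 39120232), (nat_lit 25510466), (nat_lit 18971201), (nat_lit 12765436)] (nat_lit 10384585)) p15_21_1 (nat_lit 4) (nat_lit 146) (nat_lit 147) = true := by decide +kernel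
def p15_21_1_147 : pfC (piC [(nat_lit 39120232), (nat_lit 25510466), (nat_lit 18971201), (nat_lit 12765436)] (nat_lit 10384585)) p15_21_1 (nat_lit 4) (nat_lit 147) (nat_lit 148) = true := by decide +kernel
def p15_21_1_148 : pfC (piC [(nat_lit 39120232), (nat_lit 25510466), (nat_lit 18971201), (nat_lit 12765436)] (nat_lit 10384585)) p15_21_1 (nat_lit 4) (nat_lit 148) (nat_lit 149) = true := by decide +kernel
theorem p15_21_1_T : PfS (PiF n15_21.reverse (nat_lit 10384585)) p15_21_1 (nat_lit 4) [] 0 :=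
  pftab_of (los := [(nat_lit 39120232), (nat_lit 25510466), (nat_lit 18971201), (nat_lit 12765436)]) (by decide +kernel) (hi := (nat_lit 149)) (PfP.trans (PfP.trans (PfP.trans (PfP.trans (PfP.trans (PfP.trans (PfP.trans (PfP.trans (PfP.trans (PfP.trans (PfP.trans (PfP.trans (PfP.trans (PfP.trans (PfP.trans (PfP.trans (PfP.trans (PfP.trans (PfP.trans (PfP.trans (PfP.trans (PfP.trans (PfP.trans (PfP.trans (PfP.trans (PfP.trans (PfP.trans (PfP.trans (PfP.trans (PfP.trans (PfP.trans (PfP.trans (PfP.trans (PfP.trans (PfP.trans (PfP.trans (PfP.trans (PfP.trans (PfP.trans (PfP.trans (PfP.trans (PfP.trans (PfP.trans (PfP.trans (PfP.trans (PfP.trans (PfP.trans (PfP.trans (PfP.trans (PfP.trans (PfP.trans (PfP.trans (PfP.trans (PfP.trans (PfP.trans (PfP.trans (PfP.trans (PfP.trans (PfP.trans (PfP.trans (PfP.trans (PfP.trans (PfP.trans (PfP.trans (PfP.trans (PfP.trans (PfP.trans (PfP.trans (PfP.trans (PfP.trans (PfP.trans (PfP.trans (PfP.trans (PfP.trans (PfP.trans (PfP.trans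 (PfP.trans (PfP.trans (PfP.trans (PfP.trans (PfP.trans (PfP.trans (PfP.trans (PfP.trans (PfP.trans (PfP.trans (PfP.trans (PfP.trans (PfP.trans (PfP.trans (PfP.trans (PfP.trans (PfP.trans (PfP.trans (PfP.trans (PfP.trans (PfP.trans (PfP.trans (PfP.trans (PfP.trans (PfP.trans (PfP.trans (PfP.trans (PfP.trans (PfP.trans (PfP.trans (PfP.trans (PfP.trans (PfP.trans
 (PfP.trans (PfP.trans (PfP.trans (PfP.trans (PfP.trans (PfP.trans (PfP.trans (PfP.trans (PfP.trans (PfP.trans (PfP.trans (PfP.trans (PfP.trans (PfP.trans (PfP.trans (PfP.trans (PfP.trans (PfP.trans (PfP.trans (PfP.trans (PfP.trans (PfP.trans (PfP.trans (PfP.trans (PfP.trans (PfP.trans (PfP.trans (PfP.trans (PfP.trans (PfP.trans (PfP.trans (PfP.trans (PfP.trans (PfP.trans (PfP.trans (PfP.trans (PfP.trans (PfP.trans (PfP.trans (pfC_sound p15_21_1_0) (pfC_sound p15_21_1_1)) (pfC_sound p15_21_1_2)) (pfC_sound p15_21_1_3)) (pfC_sound p15_21_1_4)) (pfC_sound p15_21_1_5)) (pfC_sound p15_21_1_6)) (pfC_sound p15_21_1_7))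 (pfC_sound p15_21_1_8)) (pfC_sound p15_21_1_9)) (pfC_sound p15_21_1_10)) (pfC_sound p15_21_1_11)) (pfC_sound p15_21_1_12)) (pfC_sound p15_21_1_13)) (pfC_sound p15_21_1_14)) (pfC_sound p15_21_1_15)) (pfC_sound p15_21_1_16)) (pfC_sound p15_21_1_17)) (pfC_sound p15_21_1_18)) (pfC_sound p15_21_1_19)) (pfC_sound p15_21_1_20)) (pfC_sound p15_21_1_21)) (pfC_sound p15_21_1_22)) (pfC_sound p15_21_1_23)) (pfC_sound p15_21_1_24)) (pfC_sound p15_21_1_25)) (pfC_sound p15_21_1_26)) (pfC_sound p15_21_1_27)) (pfC_sound p15_21_1_28)) (pfC_sound p15_21_1_29)) (pfC_sound p15_21_1_30))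
 (pfC_sound p15_21_1_31)) (pfC_sound p15_21_1_32)) (pfC_sound p15_21_1_33)) (pfC_sound p15_21_1_34)) (pfC_sound p15_21_1_35)) (pfC_sound p15_21_1_36)) (pfC_sound p15_21_1_37)) (pfC_sound p15_21_1_38)) (pfC_sound p15_21_1_39)) (pfC_sound p15_21_1_40)) (pfC_sound p15_21_1_41)) (pfC_sound p15_21_1_42)) (pfC_sound p15_21_1_43)) (pfC_sound p15_21_1_44)) (pfC_sound p15_21_1_45)) (pfC_sound p15_21_1_46)) (pfC_sound p15_21_1_47)) (pfC_sound p15_21_1_48)) (pfC_sound p15_21_1_49)) (pfC_sound p15_21_1_50)) (pfC_sound p15_21_1_51)) (pfC_sound p15_21_1_52)) (pfC_sound p15_21_1_53)) (pfC_sound p15_21_1_54)) (pfC_sound p15_21_1_55)) (pfC_sound p15_21_1_56)) (pfC_sound p15_21_1_57)) (pfC_sound p15_21_1_58)) (pfC_sound p15_21_1_59)) (pfC_sound p15_21_1_60)) (pfC_sound p15_21_1_61)) (pfC_sound p15_21_1_62)) (pfC_sound p15_21_1_63)) (pfC_sound p15_21_1_64)) (pfC_sound p15_21_1_65)) (pfC_sound p15_21_1_66)) (pfC_sound p15_21_1_67)) (pfC_sound p15_21_1_68)) (pfC_sound p15_21_1_69)) (pfC_sound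 p15_21_1_70)) (pfC_sound p15_21_1_71)) (pfC_sound p15_21_1_72)) (pfC_sound p15_21_1_73)) (pfC_sound p15_21_1_74)) (pfC_sound p15_21_1_75)) (pfC_sound p15_21_1_76)) (pfC_sound p15_21_1_77)) (pfC_sound p15_21_1_78))
 (pfC_sound p15_21_1_79)) (pfC_sound p15_21_1_80)) (pfC_sound p15_21_1_81)) (pfC_sound p15_21_1_82)) (pfC_sound p15_21_1_83)) (pfC_sound p15_21_1_84)) (pfC_sound p15_21_1_85)) (pfC_sound p15_21_1_86)) (pfC_sound p15_21_1_87)) (pfC_sound p15_21_1_88)) (pfC_sound p15_21_1_89)) (pfC_sound p15_21_1_90)) (pfC_sound p15_21_1_91)) (pfC_sound p15_21_1_92)) (pfC_sound p15_21_1_93)) (pfC_sound p15_21_1_94)) (pfC_sound p15_21_1_95)) (pfC_sound p15_21_1_96)) (pfC_sound p15_21_1_97)) (pfC_sound p15_21_1_98)) (pfC_sound p15_21_1_99)) (pfC_sound p15_21_1_100)) (pfC_sound p15_21_1_101)) (pfC_sound p15_21_1_102)) (pfC_sound p15_21_1_103)) (pfC_sound p15_21_1_104)) (pfC_sound p15_21_1_105)) (pfC_sound p15_21_1_106)) (pfC_sound p15_21_1_107)) (pfC_sound p15_21_1_108)) (pfC_sound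 p15_21_1_109)) (pfC_sound p15_21_1_110)) (pfC_sound p15_21_1_111)) (pfC_sound p15_21_1_112)) (pfC_sound p15_21_1_113)) (pfC_sound p15_21_1_114)) (pfC_sound p15_21_1_115)) (pfC_sound p15_21_1_116)) (pfC_sound p15_21_1_117)) (pfC_sound p15_21_1_118)) (pfC_sound p15_21_1_119)) (pfC_sound p15_21_1_120)) (pfC_sound p15_21_1_121)) (pfC_sound p15_21_1_122)) (pfC_sound p15_21_1_123)) (pfC_sound p15_21_1_124)) (pfC_sound
 p15_21_1_125)) (pfC_sound p15_21_1_126)) (pfC_sound p15_21_1_127)) (pfC_sound p15_21_1_128)) (pfC_sound p15_21_1_129)) (pfC_sound p15_21_1_130)) (pfC_sound p15_21_1_131)) (pfC_sound p15_21_1_132)) (pfC_sound p15_21_1_133)) (pfC_sound p15_21_1_134)) (pfC_sound p15_21_1_135)) (pfC_sound p15_21_1_136)) (pfC_sound p15_21_1_137)) (pfC_sound p15_21_1_138)) (pfC_sound p15_21_1_139)) (pfC_sound p15_21_1_140)) (pfC_sound p15_21_1_141)) (pfC_sound p15_21_1_142)) (pfC_sound p15_21_1_143)) (pfC_sound p15_21_1_144)) (pfC_sound p15_21_1_145)) (pfC_sound p15_21_1_146)) (pfC_sound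 p15_21_1_147)) (pfC_sound p15_21_1_148)) (by decide +kernel)

def z15_21_1 : zOK yB15_21 (nat_lit 1) (nat_lit 400) (nat_lit 600) (nat_lit 10384585) (nat_lit 6694308) = true := by decide +kernel
def g15_21_1 : gOK yB15_21.x P15_21 (nat_lit 1426) (q15_21 :: r15_21) (nat_lit 1) (nat_lit 400) (nat_lit 2) (nat_lit 600) (nat_lit 11000000) (nat_lit 17850000) (nat_lit 12712500) (nat_lit 12712500) [(nat_lit 800), (nat_lit 1040)] = true := by decide +kernel
def v15_21_1 : ivC P15_21 s15_21 w15_21 n15_21 (nat_lit 4) (nat_lit 5000) (nat_lit 1) (nat_lit 400) f160_1_400 f168_1_400 (nat_lit 2) (nat_lit 600) f160_1_600 f168_1_600 (nat_lit 10384585) (nat_lit 6694308) p15_21_1 = true := by decide +kernel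
def p15_21_2 : PF := (PF.cons (PF.cons (PF.cons (PF.cons (PF.leaf (nat_lit 2738556) (nat_lit 15911351) (nat_lit 51197461) (nat_lit 15911351) [(nat_lit 0), (nat_lit 0), (nat_lit 0), (nat_lit 0)]) (PF.cons (PF.leaf (nat_lit 2898694) (nat_lit 280428) (nat_lit 50935117) (nat_lit 15893266) [(nat_lit 280428), (nat_lit 0), (nat_lit 0), (nat_lit 0)]) (PF.cons (PF.leaf (nat_lit 3088084) (nat_lit 304661) (nat_lit 50628645) (nat_lit 15870844) [(nat_lit 304661), (nat_lit 0), (nat_lit 0), (nat_lit 0)]) (PF.cons (PF.leaf (nat_lit 3300416) (nat_lit 326064) (nat_lit 50286410) (nat_lit 15844207) [(nat_lit 326064), (nat_lit 0), (nat_lit 0), (nat_lit 0)]) (PF.cons (PF.leaf (nat_lit 3532379) (nat_lit 345266) (nat_lit 49914363) (nat_lit 15813385) [(nat_lit 345266), (nat_lit 0), (nat_lit 0), (nat_lit 0)]) (PF.cons (PF.leaf (nat_lit 3781279) (nat_lit 362666) (nat_lit 49517102) (nat_lit 15778380) [(nat_lit 362666), (nat_lit 0), (nat_lit 0), (nat_lit 0)]) (PF.cons (PF.leaf (nat_lit 4045026)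 (nat_lit 378541) (nat_lit 49098369) (nat_lit 15739196) [(nat_lit 378541), (nat_lit 0), (nat_lit 0), (nat_lit 0)]) (PF.cons (PF.leaf (nat_lit 4321802) (nat_lit 393092) (nat_lit 48661313) (nat_lit 15695852) [(nat_lit 393092), (nat_lit 0),
 (nat_lit 0), (nat_lit 0)]) (PF.cons (PF.leaf (nat_lit 4610153) (nat_lit 406471) (nat_lit 48208651) (nat_lit 15648385) [(nat_lit 406471), (nat_lit 0), (nat_lit 0), (nat_lit 0)]) (PF.cons PF.nil (PF.cons PF.nil (PF.cons PF.nil PF.nil)))))))))))) (PF.cons (PF.cons (PF.leaf (nat_lit 3277552) (nat_lit 1270111) (nat_lit 50020491) (nat_lit 15818210) [(nat_lit 0), (nat_lit 1270111), (nat_lit 0), (nat_lit 0)]) (PF.cons (PF.leaf (nat_lit 3483581) (nat_lit 336201) (nat_lit 49682260) (nat_lit 15788970) [(nat_lit 336201), (nat_lit 1301379), (nat_lit 0), (nat_lit 0)]) (PF.cons (PF.leaf (nat_lit 3711386) (nat_lit 354662) (nat_lit 49312483) (nat_lit 15755247) [(nat_lit 354662), (nat_lit 1331757), (nat_lit 0), (nat_lit 0)]) (PF.cons (PF.leaf (nat_lit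 3956849) (nat_lit 371323) (nat_lit 48916877) (nat_lit 15717179) [(nat_lit 371323), (nat_lit 1360786), (nat_lit 0), (nat_lit 0)]) (PF.cons (PF.leaf (nat_lit 4217501) (nat_lit 386486) (nat_lit 48499753) (nat_lit 15674858) [(nat_lit 386486), (nat_lit 1388253), (nat_lit 0), (nat_lit 0)]) (PF.cons (PF.leaf (nat_lit 4491340) (nat_lit 400363) (nat_lit 48064563) (nat_lit 15628366) [(nat_lit 400363), (nat_lit 1414064), (nat_lit 0), (nat_lit 0)]) (PF.cons
 (PF.leaf (nat_lit 4776764) (nat_lit 413107) (nat_lit 47614182) (nat_lit 15577788) [(nat_lit 413107), (nat_lit 1438196), (nat_lit 0), (nat_lit 0)]) (PF.cons (PF.leaf (nat_lit 5072265) (nat_lit 424837) (nat_lit 47151069) (nat_lit 15523217) [(nat_lit 424837), (nat_lit 1460662), (nat_lit 0), (nat_lit 0)]) (PF.cons PF.nil (PF.cons PF.nil PF.nil)))))))))) (PF.cons (PF.cons (PF.leaf (nat_lit 3893667) (nat_lit 1360029) (nat_lit 48697755) (nat_lit 15690999) [(nat_lit 0), (nat_lit 1360029), (nat_lit 0), (nat_lit 0)]) (PF.cons (PF.leaf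 (nat_lit 4133426) (nat_lit 378706) (nat_lit 48307770) (nat_lit 15650384) [(nat_lit 378706), (nat_lit 1385975), (nat_lit 0), (nat_lit 0)]) (PF.cons (PF.leaf (nat_lit 4389866) (nat_lit 393354) (nat_lit 47895239) (nat_lit 15605365) [(nat_lit 393354), (nat_lit 1410749), (nat_lit 0), (nat_lit 0)]) (PF.cons (PF.leaf (nat_lit 4659953) (nat_lit 406702) (nat_lit 47464255) (nat_lit 15556114) [(nat_lit 406702), (nat_lit 1434167), (nat_lit 0), (nat_lit 0)]) (PF.cons (PF.leaf (nat_lit 4941841) (nat_lit 418924) (nat_lit 47018045) (nat_lit 15502780) [(nat_lit 418924), (nat_lit 1456144), (nat_lit 0), (nat_lit 0)]) (PF.cons (PF.leaf (nat_lit 5233939) (nat_lit 430147) (nat_lit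
 46559264) (nat_lit 15445503) [(nat_lit 430147), (nat_lit 1476654), (nat_lit 0), (nat_lit 0)]) (PF.cons PF.nil (PF.cons PF.nil (PF.cons PF.nil PF.nil))))))))) (PF.cons (PF.cons (PF.leaf (nat_lit 4563717) (nat_lit 1431104) (nat_lit 47284760) (nat_lit 15530739) [(nat_lit 0), (nat_lit 1431104), (nat_lit 0), (nat_lit 0)]) (PF.cons (PF.leaf (nat_lit 4828436) (nat_lit 412144) (nat_lit 46860568) (nat_lit 15479188) [(nat_lit 412144), (nat_lit 1452303), (nat_lit 0), (nat_lit 0)]) (PF.cons (PF.leaf (nat_lit 5106005) (nat_lit 423957) (nat_lit 46420534) (nat_lit 15423500) [(nat_lit 423957), (nat_lit 1472288), (nat_lit 0), (nat_lit 0)]) (PF.cons (PF.leaf (nat_lit 5394115) (nat_lit 434762) (nat_lit 45967688) (nat_lit 15363879) [(nat_lit 434762), (nat_lit 1490985), (nat_lit 0), (nat_lit 0)]) (PF.cons (PF.leaf (nat_lit 5691265) (nat_lit 444671) (nat_lit 45504497) (nat_lit 15300512) [(nat_lit 444671), (nat_lit 1508372), (nat_lit 0), (nat_lit 0)]) (PF.cons PF.nil (PF.cons PF.nil PF.nil)))))))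 (PF.cons (PF.cons (PF.leaf (nat_lit 5270499) (nat_lit 1486793) (nat_lit 45821601) (nat_lit 15340035) [(nat_lit 0), (nat_lit 1486793), (nat_lit 0), (nat_lit 0)]) (PF.cons (PF.leaf (nat_lit 5553394) (nat_lit
 438702) (nat_lit 45376436) (nat_lit 15278474) [(nat_lit 438702), (nat_lit 1503799), (nat_lit 0), (nat_lit 0)]) (PF.cons (PF.leaf (nat_lit 5846168) (nat_lit 448271) (nat_lit 44920534) (nat_lit 15213175) [(nat_lit 448271), (nat_lit 1519640), (nat_lit 0), (nat_lit 0)]) (PF.cons (PF.leaf (nat_lit 6146946) (nat_lit 457026) (nat_lit 44456189) (nat_lit 15144360) [(nat_lit 457026), (nat_lit 1534295), (nat_lit 0), (nat_lit 0)]) (PF.cons PF.nil PF.nil))))) (PF.cons (PF.cons (PF.leaf (nat_lit 6000626) (nat_lit 1529612) (nat_lit 44338219) (nat_lit 15122532) [(nat_lit 0), (nat_lit 1529612), (nat_lit 0), (nat_lit 0)]) (PF.cons (PF.leaf (nat_lit 6296319) (nat_lit 459755) (nat_lit 43882194) (nat_lit 15052187) [(nat_lit 459755), (nat_lit 1542935), (nat_lit 0), (nat_lit 0)]) (PF.cons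 PF.nil (PF.cons PF.nil PF.nil)))) (PF.cons (PF.cons (PF.leaf (nat_lit 6743514) (nat_lit 1561547) (nat_lit 42857125) (nat_lit 14882399) [(nat_lit 0), (nat_lit 1561547), (nat_lit 0), (nat_lit 0)]) (PF.cons PF.nil PF.nil)) (PF.cons PF.nil PF.nil)))))))) (PF.cons (PF.cons (PF.cons (PF.leaf (nat_lit 3818929) (nat_lit 3290405) (nat_lit 48200387) (nat_lit 15618019) [(nat_lit 0), (nat_lit 0), (nat_lit 3290405), (nat_lit 0)])
 (PF.cons (PF.leaf (nat_lit 4033603) (nat_lit 358870) (nat_lit 47853921) (nat_lit 15580214) [(nat_lit 358870), (nat_lit 0), (nat_lit 3315806), (nat_lit 0)]) (PF.cons (PF.leaf (nat_lit 4268938) (nat_lit 376024) (nat_lit 47478175) (nat_lit 15537554) [(nat_lit 376024), (nat_lit 0), (nat_lit 3341034), (nat_lit 0)]) (PF.cons (PF.leaf (nat_lit 4520698) (nat_lit 391288) (nat_lit 47079097) (nat_lit 15490390) [(nat_lit 391288), (nat_lit 0), (nat_lit 3365458), (nat_lit 0)]) (PF.cons (PF.leaf (nat_lit 4786354) (nat_lit 405025) (nat_lit 46661064) (nat_lit 15438973)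 [(nat_lit 405025), (nat_lit 0), (nat_lit 3388673), (nat_lit 0)]) (PF.cons (PF.leaf (nat_lit 5063882) (nat_lit 417477) (nat_lit 46227496) (nat_lit 15383507) [(nat_lit 417477), (nat_lit 0), (nat_lit 3410420), (nat_lit 0)]) (PF.cons (PF.leaf (nat_lit 5351735) (nat_lit 428821) (nat_lit 45781178) (nat_lit 15324174) [(nat_lit 428821), (nat_lit 0), (nat_lit 3430533), (nat_lit 0)]) (PF.cons (PF.leaf (nat_lit 5648451) (nat_lit 439186) (nat_lit 45324447) (nat_lit 15261148) [(nat_lit 439186), (nat_lit 0), (nat_lit 3448911), (nat_lit 0)]) (PF.cons PF.nil PF.nil))))))))) (PF.cons (PF.cons (PF.leaf (nat_lit 4446126) (nat_lit 1411280) (nat_lit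
 46869410) (nat_lit 15460773) [(nat_lit 0), (nat_lit 1411280), (nat_lit 3367348), (nat_lit 0)]) (PF.cons (PF.leaf (nat_lit 4691212) (nat_lit 396638) (nat_lit 46478808) (nat_lit 15411835) [(nat_lit 396638), (nat_lit 1432972), (nat_lit 3388557), (nat_lit 0)]) (PF.cons (PF.leaf (nat_lit 4951795) (nat_lit 410029) (nat_lit 46067931) (nat_lit 15358469) [(nat_lit 410029), (nat_lit 1453543), (nat_lit 3408809), (nat_lit 0)]) (PF.cons (PF.leaf (nat_lit 5224863) (nat_lit 422101) (nat_lit 45640866) (nat_lit 15300983) [(nat_lit 422101), (nat_lit 1472860), (nat_lit 3427799), (nat_lit 0)]) (PF.cons (PF.leaf (nat_lit 5508549) (nat_lit 433052) (nat_lit 45200771) (nat_lit 15239624) [(nat_lit 433052), (nat_lit 1490868), (nat_lit 3445337), (nat_lit 0)]) (PF.cons (PF.leaf (nat_lit 5801357) (nat_lit 443027) (nat_lit 44750198) (nat_lit 15174612) [(nat_lit 443027), (nat_lit 1507559), (nat_lit 3461304), (nat_lit 0)]) (PF.cons PF.nil PF.nil))))))) (PF.cons (PF.cons (PF.leaf (nat_lit 5118740)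 (nat_lit 1468746) (nat_lit 45471533) (nat_lit 15273622) [(nat_lit 0), (nat_lit 1468746), (nat_lit 3426163), (nat_lit 0)]) (PF.cons (PF.leaf (nat_lit 5385791) (nat_lit 425959) (nat_lit 45053192) (nat_lit 15214582)
 [(nat_lit 425959), (nat_lit 1486253), (nat_lit 3442571), (nat_lit 0)]) (PF.cons (PF.leaf (nat_lit 5664644) (nat_lit 436619) (nat_lit 44621006) (nat_lit 15151596) [(nat_lit 436619), (nat_lit 1502632), (nat_lit 3457705), (nat_lit 0)]) (PF.cons (PF.leaf (nat_lit 5952975) (nat_lit 446282) (nat_lit 44177911) (nat_lit 15084947) [(nat_lit 446282), (nat_lit 1517839), (nat_lit 3471428), (nat_lit 0)]) (PF.cons (PF.leaf (nat_lit 6249358) (nat_lit 455070) (nat_lit 43726259) (nat_lit 15014883) [(nat_lit 455070), (nat_lit 1531864), (nat_lit 3483657), (nat_lit 0)]) PF.nil))))) (PF.cons (PF.cons (PF.leaf (nat_lit 5821138) (nat_lit 1513078) (nat_lit 44041620) (nat_lit 15060147) [(nat_lit 0), (nat_lit 1513078), (nat_lit 3467809), (nat_lit 0)]) (PF.cons (PF.leaf (nat_lit 6103855)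 (nat_lit 448956) (nat_lit 43607486) (nat_lit 14992252) [(nat_lit 448956), (nat_lit 1526893), (nat_lit 3479436), (nat_lit 0)]) (PF.cons (PF.leaf (nat_lit 6395512) (nat_lit 457492) (nat_lit 43164256) (nat_lit 14920926) [(nat_lit 457492), (nat_lit 1539645), (nat_lit 3489707), (nat_lit 0)]) (PF.cons PF.nil PF.nil)))) (PF.cons (PF.cons (PF.leaf (nat_lit 6541393) (nat_lit 1546371) (nat_lit 42605054) (nat_lit 14824359) [(nat_lit
 0), (nat_lit 1546371), (nat_lit 3493914), (nat_lit 0)]) (PF.cons (PF.leaf (nat_lit 6834837) (nat_lit 466943) (nat_lit 42164018) (nat_lit 14748965) [(nat_lit 466943), (nat_lit 1556953), (nat_lit 3501071), (nat_lit 0)]) PF.nil)) (PF.cons PF.nil PF.nil)))))) (PF.cons (PF.cons (PF.cons (PF.leaf (nat_lit 4986404) (nat_lit 3408346) (nat_lit 45090127) (nat_lit 15201991) [(nat_lit 0), (nat_lit 0), (nat_lit 3408346), (nat_lit 0)]) (PF.cons (PF.leaf (nat_lit 5234741) (nat_lit 410659) (nat_lit 44703867) (nat_lit 15146287) [(nat_lit 410659), (nat_lit 0), (nat_lit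 3423999), (nat_lit 0)]) (PF.cons (PF.leaf (nat_lit 5497531) (nat_lit 422939) (nat_lit 44299335) (nat_lit 15086229) [(nat_lit 422939), (nat_lit 0), (nat_lit 3438684), (nat_lit 0)]) (PF.cons (PF.leaf (nat_lit 5771789) (nat_lit 433893) (nat_lit 43880548) (nat_lit 15022230) [(nat_lit 433893), (nat_lit 0), (nat_lit 3452176), (nat_lit 0)]) (PF.cons (PF.leaf (nat_lit 6055696) (nat_lit 443739) (nat_lit 43450561) (nat_lit 14954613) [(nat_lit 443739), (nat_lit 0), (nat_lit 3464339), (nat_lit 0)]) (PF.cons (PF.leaf (nat_lit 6347721) (nat_lit 452634) (nat_lit 43011803) (nat_lit 14883652) [(nat_lit 452634), (nat_lit 0), (nat_lit 3475092),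
 (nat_lit 0)]) (PF.cons PF.nil PF.nil))))))) (PF.cons (PF.cons (PF.leaf (nat_lit 5657264) (nat_lit 1495282) (nat_lit 43721797) (nat_lit 14993696) [(nat_lit 0), (nat_lit 1495282), (nat_lit 3449017), (nat_lit 0)]) (PF.cons (PF.leaf (nat_lit 5925073) (nat_lit 436460) (nat_lit 43313007) (nat_lit 14928812) [(nat_lit 436460), (nat_lit 1509702), (nat_lit 3460415), (nat_lit 0)]) (PF.cons (PF.leaf (nat_lit 6203700) (nat_lit 446109) (nat_lit 42892060) (nat_lit 14860208) [(nat_lit 446109), (nat_lit 1523069), (nat_lit 3470627), (nat_lit 0)]) (PF.cons (PF.leaf (nat_lit 6490933) (nat_lit 454776) (nat_lit 42461778) (nat_lit 14788231) [(nat_lit 454776), (nat_lit 1535360), (nat_lit 3479557), (nat_lit 0)]) (PF.cons PF.nil PF.nil))))) (PF.cons (PF.cons (PF.leaf (nat_lit 6352237) (nat_lit 1530230) (nat_lit 42335164) (nat_lit 14763049) [(nat_lit 0), (nat_lit 1530230), (nat_lit 3475068), (nat_lit 0)]) (PF.cons (PF.leaf (nat_lit 6633581) (nat_lit 456412) (nat_lit 41914633) (nat_lit 14690423)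 [(nat_lit 456412), (nat_lit 1541371), (nat_lit 3482300), (nat_lit 0)]) (PF.cons (PF.leaf (nat_lit 6923055) (nat_lit 464048) (nat_lit 41486353) (nat_lit 14614672) [(nat_lit 464048), (nat_lit 1551536), (nat_lit
 3488308), (nat_lit 0)]) (PF.cons PF.nil PF.nil)))) (PF.cons (PF.cons (PF.leaf (nat_lit 7060630) (nat_lit 1555626) (nat_lit 40951857) (nat_lit 14514152) [(nat_lit 0), (nat_lit 1555626), (nat_lit 3487962), (nat_lit 0)]) (PF.cons PF.nil PF.nil)) (PF.cons PF.nil PF.nil))))) (PF.cons (PF.cons (PF.cons (PF.leaf (nat_lit 6178301) (nat_lit 3455894) (nat_lit 42043470) (nat_lit 14697659) [(nat_lit 0), (nat_lit 0), (nat_lit 3455894), (nat_lit 0)]) (PF.cons (PF.leaf (nat_lit 6445568) (nat_lit 444227) (nat_lit 41646735) (nat_lit 14628379) [(nat_lit 444227), (nat_lit 0), (nat_lit 3463156), (nat_lit 0)]) (PF.cons (PF.leaf (nat_lit 6722859) (nat_lit 452985) (nat_lit 41239278) (nat_lit 14555623) [(nat_lit 452985), (nat_lit 0), (nat_lit 3469313), (nat_lit 0)]) (PF.cons (PF.leaf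 (nat_lit 7007975) (nat_lit 460778) (nat_lit 40823790) (nat_lit 14479779) [(nat_lit 460778), (nat_lit 0), (nat_lit 3474302), (nat_lit 0)]) (PF.cons PF.nil PF.nil))))) (PF.cons (PF.cons (PF.leaf (nat_lit 6863596) (nat_lit 1539992) (nat_lit 40706511) (nat_lit 14454649) [(nat_lit 0), (nat_lit 1539992), (nat_lit 3469219), (nat_lit 0)]) (PF.cons (PF.leaf (nat_lit 7142654) (nat_lit 461559) (nat_lit 40301203) (nat_lit 14378660)
 [(nat_lit 461559), (nat_lit 1548878), (nat_lit 3472837), (nat_lit 0)]) (PF.cons PF.nil (PF.cons PF.nil PF.nil)))) (PF.cons (PF.cons (PF.leaf (nat_lit 7558762) (nat_lit 1558812) (nat_lit 39380112) (nat_lit 14196970) [(nat_lit 0), (nat_lit 1558812), (nat_lit 3471368), (nat_lit 0)]) (PF.cons PF.nil PF.nil)) PF.nil))) (PF.cons (PF.cons (PF.cons (PF.leaf (nat_lit 7355412) (nat_lit 3452971) (nat_lit 39157167) (nat_lit 14139760) [(nat_lit 0), (nat_lit 0), (nat_lit 3452971), (nat_lit 0)]) (PF.cons (PF.leaf (nat_lit 7631456) (nat_lit 464796) (nat_lit 38767999)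 (nat_lit 14061551) [(nat_lit 464796), (nat_lit 0), (nat_lit 3453616), (nat_lit 0)]) (PF.cons PF.nil PF.nil))) (PF.cons (PF.cons (PF.leaf (nat_lit 8036441) (nat_lit 1557088) (nat_lit 37889303) (nat_lit 13876856) [(nat_lit 0), (nat_lit 1557088), (nat_lit 3446390), (nat_lit 0)]) PF.nil) PF.nil)) (PF.cons PF.nil (PF.cons PF.nil (PF.cons PF.nil PF.nil)))))))) (PF.cons (PF.cons (PF.cons (PF.cons (PF.leaf (nat_lit 4740927) (nat_lit 8847384) (nat_lit 43431153) (nat_lit 14830274) [(nat_lit 0), (nat_lit 0), (nat_lit 0), (nat_lit 8847384)]) (PF.cons (PF.leaf (nat_lit 4953086) (nat_lit 367999) (nat_lit 43119896) (nat_lit 14783007) [(nat_lit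
 367999), (nat_lit 0), (nat_lit 0), (nat_lit 8837910)]) (PF.cons (PF.leaf (nat_lit 5184414) (nat_lit 383974) (nat_lit 42783729) (nat_lit 14730757) [(nat_lit 383974), (nat_lit 0), (nat_lit 0), (nat_lit 8826376)]) (PF.cons (PF.leaf (nat_lit 5430639) (nat_lit 397927) (nat_lit 42428119) (nat_lit 14674153) [(nat_lit 397927), (nat_lit 0), (nat_lit 0), (nat_lit 8812755)]) (PF.cons (PF.leaf (nat_lit 5689211) (nat_lit 410271) (nat_lit 42057045) (nat_lit 14613649) [(nat_lit 410271), (nat_lit 0), (nat_lit 0), (nat_lit 8797032)]) (PF.cons (PF.leaf (nat_lit 5958176) (nat_lit 421286) (nat_lit 41673574) (nat_lit 14549599) [(nat_lit 421286), (nat_lit 0), (nat_lit 0), (nat_lit 8779208)]) (PF.cons (PF.leaf (nat_lit 6235958) (nat_lit 431174) (nat_lit 41280163) (nat_lit 14482302) [(nat_lit 431174), (nat_lit 0), (nat_lit 0), (nat_lit 8759302)]) (PF.cons (PF.leaf (nat_lit 6521248) (nat_lit 440086) (nat_lit 40878840) (nat_lit 14412014) [(nat_lit 440086), (nat_lit 0), (nat_lit 0), (nat_lit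 8737349)]) (PF.cons PF.nil PF.nil))))))))) (PF.cons (PF.cons (PF.leaf (nat_lit 5346713) (nat_lit 1420362) (nat_lit 42247001) (nat_lit 14641241) [(nat_lit 0), (nat_lit 1420362), (nat_lit 0), (nat_lit 8800207)]) (PF.cons
 (PF.leaf (nat_lit 5585542) (nat_lit 401327) (nat_lit 41900637) (nat_lit 14584162) [(nat_lit 401327), (nat_lit 1437717), (nat_lit 0), (nat_lit 8784967)]) (PF.cons (PF.leaf (nat_lit 5838436) (nat_lit 413419) (nat_lit 41537502) (nat_lit 14522973) [(nat_lit 413419), (nat_lit 1453894), (nat_lit 0), (nat_lit 8767603)]) (PF.cons (PF.leaf (nat_lit 6102392) (nat_lit 424147) (nat_lit 41161250) (nat_lit 14458139) [(nat_lit 424147), (nat_lit 1468830), (nat_lit 0), (nat_lit 8748151)]) (PF.cons (PF.leaf (nat_lit 6375615) (nat_lit 433736) (nat_lit 40774670) (nat_lit 14390021) [(nat_lit 433736), (nat_lit 1482522), (nat_lit 0), (nat_lit 8726654)]) (PF.cons (PF.leaf (nat_lit 6656649) (nat_lit 442350) (nat_lit 40379980) (nat_lit 14318920) [(nat_lit 442350), (nat_lit 1494997),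 (nat_lit 0), (nat_lit 8703162)]) (PF.cons PF.nil PF.nil))))))) (PF.cons (PF.cons (PF.leaf (nat_lit 5989191) (nat_lit 1463509) (nat_lit 41016825) (nat_lit 14429417) [(nat_lit 0), (nat_lit 1463509), (nat_lit 0), (nat_lit 8735549)]) (PF.cons (PF.leaf (nat_lit 6246754) (nat_lit 426360) (nat_lit 40649529) (nat_lit 14364221) [(nat_lit 426360), (nat_lit 1476996), (nat_lit 0), (nat_lit 8714708)]) (PF.cons (PF.leaf (nat_lit 6514796)
 (nat_lit 435746) (nat_lit 40271060) (nat_lit 14295628) [(nat_lit 435746), (nat_lit 1489400), (nat_lit 0), (nat_lit 8691830)]) (PF.cons (PF.leaf (nat_lit 6791123) (nat_lit 444135) (nat_lit 39883980) (nat_lit 14224004) [(nat_lit 444135), (nat_lit 1500715), (nat_lit 0), (nat_lit 8666989)]) (PF.cons (PF.leaf (nat_lit 7074370) (nat_lit 451665) (nat_lit 39490312) (nat_lit 14149652) [(nat_lit 451665), (nat_lit 1510962), (nat_lit 0), (nat_lit 8640260)]) PF.nil))))) (PF.cons (PF.cons (PF.leaf (nat_lit 6654594) (nat_lit 1495289) (nat_lit 39768933) (nat_lit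 14199115) [(nat_lit 0), (nat_lit 1495289), (nat_lit 0), (nat_lit 8654893)]) (PF.cons (PF.leaf (nat_lit 6925149) (nat_lit 445443) (nat_lit 39390592) (nat_lit 14127296) [(nat_lit 445443), (nat_lit 1505524), (nat_lit 0), (nat_lit 8628907)]) (PF.cons (PF.leaf (nat_lit 7203572) (nat_lit 452801) (nat_lit 39005084) (nat_lit 14052691) [(nat_lit 452801), (nat_lit 1514791), (nat_lit 0), (nat_lit 8601058)]) (PF.cons PF.nil PF.nil)))) (PF.cons (PF.cons (PF.leaf (nat_lit 7332839) (nat_lit 1517845) (nat_lit 38523012) (nat_lit 13954229) [(nat_lit 0), (nat_lit 1517845), (nat_lit 0), (nat_lit 8560189)]) (PF.cons (PF.leaf (nat_lit 7612084) (nat_lit 459978)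
 (nat_lit 38140727) (nat_lit 13877132) [(nat_lit 459978), (nat_lit 1525328), (nat_lit 0), (nat_lit 8529660)]) PF.nil)) (PF.cons PF.nil PF.nil)))))) (PF.cons (PF.cons (PF.cons (PF.leaf (nat_lit 5843873) (nat_lit 3352614) (nat_lit 40699728) (nat_lit 14358435) [(nat_lit 0), (nat_lit 0), (nat_lit 3352614), (nat_lit 8698033)]) (PF.cons (PF.leaf (nat_lit 6084151) (nat_lit 410988) (nat_lit 40360386) (nat_lit 14297476) [(nat_lit 410988), (nat_lit 0), (nat_lit 3361618), (nat_lit 8678342)]) (PF.cons (PF.leaf (nat_lit 6337585) (nat_lit 422089) (nat_lit 40005872) (nat_lit 14232561) [(nat_lit 422089), (nat_lit 0), (nat_lit 3369662), (nat_lit 8656537)]) (PF.cons (PF.leaf (nat_lit 6601257) (nat_lit 431845) (nat_lit 39639724) (nat_lit 14164208) [(nat_lit 431845), (nat_lit 0), (nat_lit 3376619), (nat_lit 8632724)]) (PF.cons (PF.leaf (nat_lit 6873389) (nat_lit 440493) (nat_lit 39264605) (nat_lit 14092820) [(nat_lit 440493), (nat_lit 0), (nat_lit 3382420), (nat_lit 8606992)]) (PF.cons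 (PF.leaf (nat_lit 7152573) (nat_lit 448204) (nat_lit 38882610) (nat_lit 14018721) [(nat_lit 448204), (nat_lit 0), (nat_lit 3387031), (nat_lit 8579428)]) (PF.cons PF.nil PF.nil))))))) (PF.cons (PF.cons (PF.leaf (nat_lit
 6481543) (nat_lit 1477297) (nat_lit 39505013) (nat_lit 14135473) [(nat_lit 0), (nat_lit 1477297), (nat_lit 3371797), (nat_lit 8619230)]) (PF.cons (PF.leaf (nat_lit 6738557) (nat_lit 433076) (nat_lit 39148468) (nat_lit 14067216) [(nat_lit 433076), (nat_lit 1488360), (nat_lit 3377258), (nat_lit 8594432)]) (PF.cons (PF.leaf (nat_lit 7005295) (nat_lit 441603) (nat_lit 38782019) (nat_lit 13995784) [(nat_lit 441603), (nat_lit 1498424), (nat_lit 3381671), (nat_lit 8567705)]) (PF.cons (PF.leaf (nat_lit 7279608) (nat_lit 449160) (nat_lit 38408105) (nat_lit 13921573) [(nat_lit 449160), (nat_lit 1507497), (nat_lit 3384993), (nat_lit 8539160)]) (PF.cons PF.nil PF.nil))))) (PF.cons (PF.cons (PF.leaf (nat_lit 7138008) (nat_lit 1501948) (nat_lit 38301549) (nat_lit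 13897068) [(nat_lit 0), (nat_lit 1501948), (nat_lit 3379615), (nat_lit 8526683)]) (PF.cons (PF.leaf (nat_lit 7406409) (nat_lit 449698) (nat_lit 37936704) (nat_lit 13823049) [(nat_lit 449698), (nat_lit 1510132), (nat_lit 3381750), (nat_lit 8497346)]) (PF.cons (PF.leaf (nat_lit 7682050) (nat_lit 456316) (nat_lit 37565660) (nat_lit 13746493) [(nat_lit 456316), (nat_lit 1517433), (nat_lit 3382860), (nat_lit 8466299)]) (PF.cons PF.nil
 PF.nil)))) (PF.cons (PF.cons (PF.leaf (nat_lit 7804167) (nat_lit 1518622) (nat_lit 37106163) (nat_lit 13646955) [(nat_lit 0), (nat_lit 1518622), (nat_lit 3377465), (nat_lit 8422361)]) (PF.cons (PF.leaf (nat_lit 8079991) (nat_lit 462169) (nat_lit 36739304) (nat_lit 13568493) [(nat_lit 462169), (nat_lit 1524375), (nat_lit 3376603), (nat_lit 8389115)]) PF.nil)) (PF.cons PF.nil PF.nil))))) (PF.cons (PF.cons (PF.cons (PF.leaf (nat_lit 6957728) (nat_lit 3360170) (nat_lit 38061091) (nat_lit 13835878) [(nat_lit 0), (nat_lit 0), (nat_lit 3360170),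 (nat_lit 8491500)]) (PF.cons (PF.leaf (nat_lit 7213357) (nat_lit 437778) (nat_lit 37716567) (nat_lit 13765518) [(nat_lit 437778), (nat_lit 0), (nat_lit 3362689), (nat_lit 8463568)]) (PF.cons (PF.leaf (nat_lit 7478061) (nat_lit 445549) (nat_lit 37363220) (nat_lit 13692201) [(nat_lit 445549), (nat_lit 0), (nat_lit 3364236), (nat_lit 8433819)]) (PF.cons (PF.leaf (nat_lit 7749711) (nat_lit 452377) (nat_lit 37003363) (nat_lit 13616341) [(nat_lit 452377), (nat_lit 0), (nat_lit 3364790), (nat_lit 8402392)]) (PF.cons PF.nil PF.nil))))) (PF.cons (PF.cons (PF.leaf (nat_lit 7603927) (nat_lit 1503469) (nat_lit 36904807) (nat_lit 13592437) [(nat_lit 0),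
 (nat_lit 1503469), (nat_lit 3359161), (nat_lit 8389776)]) (PF.cons (PF.leaf (nat_lit 7869610) (nat_lit 452281) (nat_lit 36554134) (nat_lit 13517087) [(nat_lit 452281), (nat_lit 1509923), (nat_lit 3358765), (nat_lit 8357854)]) (PF.cons (PF.leaf (nat_lit 8141948) (nat_lit 458251) (nat_lit 36198063) (nat_lit 13439429) [(nat_lit 458251), (nat_lit 1515568), (nat_lit 3357441), (nat_lit 8324366)]) (PF.cons PF.nil PF.nil)))) (PF.cons (PF.cons (PF.leaf (nat_lit 8257287) (nat_lit 1515242) (nat_lit 35760968) (nat_lit 13339761) [(nat_lit 0), (nat_lit 1515242), (nat_lit 3349671), (nat_lit 8278254)]) (PF.cons PF.nil PF.nil)) PF.nil))) (PF.cons (PF.cons (PF.cons (PF.leaf (nat_lit 8052798) (nat_lit 3332056) (nat_lit 35577805) (nat_lit 13288018) [(nat_lit 0), (nat_lit 0), (nat_lit 3332056), (nat_lit 8246821)]) (PF.cons (PF.leaf (nat_lit 8315285) (nat_lit 453484) (nat_lit 35241578) (nat_lit 13212050) [(nat_lit 453484), (nat_lit 0), (nat_lit 3329582), (nat_lit 8212953)]) (PF.cons PF.nil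 PF.nil))) (PF.cons (PF.cons (PF.leaf (nat_lit 8692910) (nat_lit 1508507) (nat_lit 34485417) (nat_lit 13034933) [(nat_lit 0), (nat_lit 1508507), (nat_lit 3316620), (nat_lit 8130093)]) PF.nil) PF.nil)) (PF.cons PF.nil
 (PF.cons PF.nil PF.nil)))))) (PF.cons (PF.cons (PF.cons (PF.cons (PF.leaf (nat_lit 6603955) (nat_lit 8306375) (nat_lit 36965476) (nat_lit 13530586) [(nat_lit 0), (nat_lit 0), (nat_lit 0), (nat_lit 8306375)]) (PF.cons (PF.leaf (nat_lit 6835501) (nat_lit 406291) (nat_lit 36668609) (nat_lit 13469014) [(nat_lit 406291), (nat_lit 0), (nat_lit 0), (nat_lit 8282448)]) (PF.cons (PF.leaf (nat_lit 7079181) (nat_lit 416423) (nat_lit 36358959) (nat_lit 13403877) [(nat_lit 416423), (nat_lit 0), (nat_lit 0), (nat_lit 8256564)]) (PF.cons (PF.leaf (nat_lit 7332133) (nat_lit 425221) (nat_lit 36039613) (nat_lit 13335734) [(nat_lit 425221), (nat_lit 0), (nat_lit 0), (nat_lit 8228900)]) (PF.cons (PF.leaf (nat_lit 7592660) (nat_lit 432932) (nat_lit 35712880) (nat_lit 13265008)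 [(nat_lit 432932), (nat_lit 0), (nat_lit 0), (nat_lit 8199598)]) (PF.cons (PF.leaf (nat_lit 7859427) (nat_lit 439732) (nat_lit 35380560) (nat_lit 13192037) [(nat_lit 439732), (nat_lit 0), (nat_lit 0), (nat_lit 8168775)]) (PF.cons PF.nil PF.nil))))))) (PF.cons (PF.cons (PF.leaf (nat_lit 7209909) (nat_lit 1445402) (nat_lit 35925265) (nat_lit 13308284) [(nat_lit 0), (nat_lit 1445402), (nat_lit 0), (nat_lit 8214930)]) (PF.cons
 (PF.leaf (nat_lit 7456197) (nat_lit 425550) (nat_lit 35614700) (nat_lit 13240779) [(nat_lit 425550), (nat_lit 1454086), (nat_lit 0), (nat_lit 8186848)]) (PF.cons (PF.leaf (nat_lit 7711366) (nat_lit 433198) (nat_lit 35295873) (nat_lit 13170531) [(nat_lit 433198), (nat_lit 1461832), (nat_lit 0), (nat_lit 8157089)]) (PF.cons (PF.leaf (nat_lit 7973329) (nat_lit 439901) (nat_lit 34970888) (nat_lit 13097948) [(nat_lit 439901), (nat_lit 1468668), (nat_lit 0), (nat_lit 8125801)]) (PF.cons PF.nil PF.nil))))) (PF.cons (PF.cons (PF.leaf (nat_lit 7831113) (nat_lit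 1463006) (nat_lit 34880956) (nat_lit 13075012) [(nat_lit 0), (nat_lit 1463006), (nat_lit 0), (nat_lit 8113415)]) (PF.cons (PF.leaf (nat_lit 8087262) (nat_lit 439715) (nat_lit 34564099) (nat_lit 13003072) [(nat_lit 439715), (nat_lit 1469143), (nat_lit 0), (nat_lit 8081819)]) (PF.cons (PF.leaf (nat_lit 8349981) (nat_lit 445560) (nat_lit 34242109) (nat_lit 12929020) [(nat_lit 445560), (nat_lit 1474479), (nat_lit 0), (nat_lit 8048802)]) (PF.cons PF.nil PF.nil)))) (PF.cons (PF.cons (PF.leaf (nat_lit 8459657) (nat_lit 1473844) (nat_lit 33845943) (nat_lit 12834070) [(nat_lit 0), (nat_lit 1473844), (nat_lit 0), (nat_lit 8003632)]) (PF.cons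
 PF.nil PF.nil)) (PF.cons PF.nil PF.nil))))) (PF.cons (PF.cons (PF.cons (PF.leaf (nat_lit 7648324) (nat_lit 3247253) (nat_lit 34681714) (nat_lit 13019403) [(nat_lit 0), (nat_lit 0), (nat_lit 3247253), (nat_lit 8080220)]) (PF.cons (PF.leaf (nat_lit 7892801) (nat_lit 428235) (nat_lit 34382167) (nat_lit 12951107) [(nat_lit 428235), (nat_lit 0), (nat_lit 3246805), (nat_lit 8050248)]) (PF.cons (PF.leaf (nat_lit 8145615) (nat_lit 435232) (nat_lit 34075194) (nat_lit 12880257) [(nat_lit 435232), (nat_lit 0), (nat_lit 3245497), (nat_lit 8018699)]) (PF.cons (PF.leaf (nat_lit 8404689) (nat_lit 441318) (nat_lit 33762784) (nat_lit 12807265) [(nat_lit 441318), (nat_lit 0), (nat_lit 3243332), (nat_lit 7985737)]) (PF.cons PF.nil PF.nil))))) (PF.cons (PF.cons (PF.leaf (nat_lit 8259372) (nat_lit 1459479) (nat_lit 33679575) (nat_lit 12785162) [(nat_lit 0), (nat_lit 1459479), (nat_lit 3237580), (nat_lit 7973507)]) (PF.cons (PF.leaf (nat_lit 8512644) (nat_lit 440653) (nat_lit 33375264)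 (nat_lit 12713015) [(nat_lit 440653), (nat_lit 1464257), (nat_lit 3234748), (nat_lit 7940436)]) (PF.cons PF.nil (PF.cons PF.nil PF.nil)))) (PF.cons (PF.cons (PF.leaf (nat_lit 8875889) (nat_lit 1466573) (nat_lit 32689496)
 (nat_lit 12544990) [(nat_lit 0), (nat_lit 1466573), (nat_lit 3221302), (nat_lit 7859938)]) (PF.cons PF.nil PF.nil)) PF.nil))) (PF.cons (PF.cons (PF.cons (PF.leaf (nat_lit 8672766) (nat_lit 3204850) (nat_lit 32537845) (nat_lit 12498882) [(nat_lit 0), (nat_lit 0), (nat_lit 3204850), (nat_lit 7831191)]) (PF.cons (PF.leaf (nat_lit 8922844) (nat_lit 440566) (nat_lit 32246063) (nat_lit 12426977) [(nat_lit 440566), (nat_lit 0), (nat_lit 3200530), (nat_lit 7797072)]) PF.nil)) (PF.cons PF.nil PF.nil)) (PF.cons PF.nil (PF.cons PF.nil PF.nil))))) (PF.cons (PF.cons (PF.cons (PF.cons (PF.leaf (nat_lit 8268423) (nat_lit 7682551) (nat_lit 31797979) (nat_lit 12263179) [(nat_lit 0), (nat_lit 0), (nat_lit 0), (nat_lit 7682551)]) (PF.cons (PF.leaf (nat_lit 8502425)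 (nat_lit 417117) (nat_lit 31536491) (nat_lit 12198410) [(nat_lit 417117), (nat_lit 0), (nat_lit 0), (nat_lit 7652264)]) (PF.cons (PF.leaf (nat_lit 8744209) (nat_lit 423492) (nat_lit 31268643) (nat_lit 12131408) [(nat_lit 423492), (nat_lit 0), (nat_lit 0), (nat_lit 7620591)]) (PF.cons PF.nil PF.nil)))) (PF.cons (PF.cons (PF.leaf (nat_lit 8848006) (nat_lit 1412427) (nat_lit 30925447) (nat_lit 12042416) [(nat_lit 0), (nat_lit 1412427),
 (nat_lit 0), (nat_lit 7576173)]) (PF.cons (PF.leaf (nat_lit 9089905) (nat_lit 427953) (nat_lit 30660035) (nat_lit 11974574) [(nat_lit 427953), (nat_lit 1416024), (nat_lit 0), (nat_lit 7543408)]) PF.nil)) (PF.cons PF.nil PF.nil))) (PF.cons (PF.cons (PF.cons (PF.leaf (nat_lit 9231706) (nat_lit 3078126) (nat_lit 29937097) (nat_lit 11776934) [(nat_lit 0), (nat_lit 0), (nat_lit 3078126), (nat_lit 7438884)]) (PF.cons PF.nil PF.nil)) (PF.cons PF.nil PF.nil)) (PF.cons PF.nil PF.nil))) (PF.cons (PF.cons (PF.cons (PF.cons (PF.leaf (nat_lit 9741601)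 (nat_lit 7073478) (nat_lit 27694755) (nat_lit 11120145) [(nat_lit 0), (nat_lit 0), (nat_lit 0), (nat_lit 7073478)]) (PF.cons PF.nil PF.nil)) (PF.cons PF.nil PF.nil)) (PF.cons PF.nil PF.nil)) (PF.cons PF.nil (PF.cons PF.nil (PF.cons PF.nil PF.nil))))))))

def p15_21_2_0 : pfC (piC [(nat_lit 39120232), (nat_lit 25510466), (nat_lit 18971201), (nat_lit 12765436)] (nat_lit 6694308)) p15_21_2 (nat_lit 4) (nat_lit 0) (nat_lit 1) = true := by decide +kernel
def p15_21_2_1 : pfC (piC [(nat_lit 39120232), (nat_lit 25510466), (nat_lit 18971201), (nat_lit 12765436)] (nat_lit 6694308)) p15_21_2 (nat_lit 4) (nat_lit 1) (nat_lit 2) = true := by decide +kernel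
def p15_21_2_2 : pfC (piC [(nat_lit 39120232), (nat_lit 25510466), (nat_lit 18971201), (nat_lit 12765436)] (nat_lit 6694308)) p15_21_2 (nat_lit 4) (nat_lit 2) (nat_lit 3) = true := by decide +kernel
def p15_21_2_3 : pfC (piC [(nat_lit 39120232), (nat_lit 25510466), (nat_lit 18971201), (nat_lit 12765436)] (nat_lit 6694308)) p15_21_2 (nat_lit 4) (nat_lit 3) (nat_lit 4) = true := by decide +kernel
def p15_21_2_4 : pfC (piC [(nat_lit 39120232), (nat_lit 25510466), (nat_lit 18971201), (nat_lit 12765436)] (nat_lit 6694308)) p15_21_2 (nat_lit 4) (nat_lit 4) (nat_lit 5) = true := by decide +kernel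
def p15_21_2_5 : pfC (piC [(nat_lit 39120232), (nat_lit 25510466), (nat_lit 18971201), (nat_lit 12765436)] (nat_lit 6694308)) p15_21_2 (nat_lit 4) (nat_lit 5) (nat_lit 6) = true := by decide +kernel
def p15_21_2_6 : pfC (piC [(nat_lit 39120232), (nat_lit 25510466), (nat_lit 18971201), (nat_lit 12765436)] (nat_lit 6694308)) p15_21_2 (nat_lit 4) (nat_lit 6) (nat_lit 7) = true := by decide +kernel
def p15_21_2_7 : pfC (piC [(nat_lit 39120232), (nat_lit 25510466), (nat_lit 18971201), (nat_lit 12765436)] (nat_lit 6694308)) p15_21_2 (nat_lit 4) (nat_lit 7) (nat_lit 8) = true := by decide +kernel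
def p15_21_2_8 : pfC (piC [(nat_lit 39120232), (nat_lit 25510466), (nat_lit 18971201), (nat_lit 12765436)] (nat_lit 6694308)) p15_21_2 (nat_lit 4) (nat_lit 8) (nat_lit 9) = true := by decide +kernel
def p15_21_2_9 : pfC (piC [(nat_lit 39120232), (nat_lit 25510466), (nat_lit 18971201), (nat_lit 12765436)] (nat_lit 6694308)) p15_21_2 (nat_lit 4) (nat_lit 9) (nat_lit 10) = true := by decide +kernel
def p15_21_2_10 : pfC (piC [(nat_lit 39120232), (nat_lit 25510466), (nat_lit 18971201), (nat_lit 12765436)] (nat_lit 6694308)) p15_21_2 (nat_lit 4) (nat_lit 10) (nat_lit 11) = true := by decide +kernel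
def p15_21_2_11 : pfC (piC [(nat_lit 39120232), (nat_lit 25510466), (nat_lit 18971201), (nat_lit 12765436)] (nat_lit 6694308)) p15_21_2 (nat_lit 4) (nat_lit 11) (nat_lit 12) = true := by decide +kernel
def p15_21_2_12 : pfC (piC [(nat_lit 39120232), (nat_lit 25510466), (nat_lit 18971201), (nat_lit 12765436)] (nat_lit 6694308)) p15_21_2 (nat_lit 4) (nat_lit 12) (nat_lit 13) = true := by decide +kernel
def p15_21_2_13 : pfC (piC [(nat_lit 39120232), (nat_lit 25510466), (nat_lit 18971201), (nat_lit 12765436)] (nat_lit 6694308)) p15_21_2 (nat_lit 4) (nat_lit 13) (nat_lit 14) = true := by decide +kernel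
def p15_21_2_14 : pfC (piC [(nat_lit 39120232), (nat_lit 25510466), (nat_lit 18971201), (nat_lit 12765436)] (nat_lit 6694308)) p15_21_2 (nat_lit 4) (nat_lit 14) (nat_lit 15) = true := by decide +kernel
def p15_21_2_15 : pfC (piC [(nat_lit 39120232), (nat_lit 25510466), (nat_lit 18971201), (nat_lit 12765436)] (nat_lit 6694308)) p15_21_2 (nat_lit 4) (nat_lit 15) (nat_lit 16) = true := by decide +kernel
def p15_21_2_16 : pfC (piC [(nat_lit 39120232), (nat_lit 25510466), (nat_lit 18971201), (nat_lit 12765436)] (nat_lit 6694308)) p15_21_2 (nat_lit 4) (nat_lit 16) (nat_lit 17) = true := by decide +kernel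
def p15_21_2_17 : pfC (piC [(nat_lit 39120232), (nat_lit 25510466), (nat_lit 18971201), (nat_lit 12765436)] (nat_lit 6694308)) p15_21_2 (nat_lit 4) (nat_lit 17) (nat_lit 18) = true := by decide +kernel
def p15_21_2_18 : pfC (piC [(nat_lit 39120232), (nat_lit 25510466), (nat_lit 18971201), (nat_lit 12765436)] (nat_lit 6694308)) p15_21_2 (nat_lit 4) (nat_lit 18) (nat_lit 19) = true := by decide +kernel
def p15_21_2_19 : pfC (piC [(nat_lit 39120232), (nat_lit 25510466), (nat_lit 18971201), (nat_lit 12765436)] (nat_lit 6694308)) p15_21_2 (nat_lit 4) (nat_lit 19) (nat_lit 20) = true := by decide +kernel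
def p15_21_2_20 : pfC (piC [(nat_lit 39120232), (nat_lit 25510466), (nat_lit 18971201), (nat_lit 12765436)] (nat_lit 6694308)) p15_21_2 (nat_lit 4) (nat_lit 20) (nat_lit 21) = true := by decide +kernel
def p15_21_2_21 : pfC (piC [(nat_lit 39120232), (nat_lit 25510466), (nat_lit 18971201), (nat_lit 12765436)] (nat_lit 6694308)) p15_21_2 (nat_lit 4) (nat_lit 21) (nat_lit 22) = true := by decide +kernel
def p15_21_2_22 : pfC (piC [(nat_lit 39120232), (nat_lit 25510466), (nat_lit 18971201), (nat_lit 12765436)] (nat_lit 6694308)) p15_21_2 (nat_lit 4) (nat_lit 22) (nat_lit 23) = true := by decide +kernel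
def p15_21_2_23 : pfC (piC [(nat_lit 39120232), (nat_lit 25510466), (nat_lit 18971201), (nat_lit 12765436)] (nat_lit 6694308)) p15_21_2 (nat_lit 4) (nat_lit 23) (nat_lit 24) = true := by decide +kernel
def p15_21_2_24 : pfC (piC [(nat_lit 39120232), (nat_lit 25510466), (nat_lit 18971201), (nat_lit 12765436)] (nat_lit 6694308)) p15_21_2 (nat_lit 4) (nat_lit 24) (nat_lit 25) = true := by decide +kernel
def p15_21_2_25 : pfC (piC [(nat_lit 39120232), (nat_lit 25510466), (nat_lit 18971201), (nat_lit 12765436)] (nat_lit 6694308)) p15_21_2 (nat_lit 4) (nat_lit 25) (nat_lit 26) = true := by decide +kernel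
def p15_21_2_26 : pfC (piC [(nat_lit 39120232), (nat_lit 25510466), (nat_lit 18971201), (nat_lit 12765436)] (nat_lit 6694308)) p15_21_2 (nat_lit 4) (nat_lit 26) (nat_lit 27) = true := by decide +kernel
def p15_21_2_27 : pfC (piC [(nat_lit 39120232), (nat_lit 25510466), (nat_lit 18971201), (nat_lit 12765436)] (nat_lit 6694308)) p15_21_2 (nat_lit 4) (nat_lit 27) (nat_lit 28) = true := by decide +kernel
def p15_21_2_28 : pfC (piC [(nat_lit 39120232), (nat_lit 25510466), (nat_lit 18971201), (nat_lit 12765436)] (nat_lit 6694308)) p15_21_2 (nat_lit 4) (nat_lit 28) (nat_lit 29) = true := by decide +kernel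
def p15_21_2_29 : pfC (piC [(nat_lit 39120232), (nat_lit 25510466), (nat_lit 18971201), (nat_lit 12765436)] (nat_lit 6694308)) p15_21_2 (nat_lit 4) (nat_lit 29) (nat_lit 30) = true := by decide +kernel
def p15_21_2_30 : pfC (piC [(nat_lit 39120232), (nat_lit 25510466), (nat_lit 18971201), (nat_lit 12765436)] (nat_lit 6694308)) p15_21_2 (nat_lit 4) (nat_lit 30) (nat_lit 31) = true := by decide +kernel
def p15_21_2_31 : pfC (piC [(nat_lit 39120232), (nat_lit 25510466), (nat_lit 18971201), (nat_lit 12765436)] (nat_lit 6694308)) p15_21_2 (nat_lit 4) (nat_lit 31) (nat_lit 32) = true := by decide +kernel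
def p15_21_2_32 : pfC (piC [(nat_lit 39120232), (nat_lit 25510466), (nat_lit 18971201), (nat_lit 12765436)] (nat_lit 6694308)) p15_21_2 (nat_lit 4) (nat_lit 32) (nat_lit 33) = true := by decide +kernel
def p15_21_2_33 : pfC (piC [(nat_lit 39120232), (nat_lit 25510466), (nat_lit 18971201), (nat_lit 12765436)] (nat_lit 6694308)) p15_21_2 (nat_lit 4) (nat_lit 33) (nat_lit 34) = true := by decide +kernel
def p15_21_2_34 : pfC (piC [(nat_lit 39120232), (nat_lit 25510466), (nat_lit 18971201), (nat_lit 12765436)] (nat_lit 6694308)) p15_21_2 (nat_lit 4) (nat_lit 34) (nat_lit 35) = true := by decide +kernel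
def p15_21_2_35 : pfC (piC [(nat_lit 39120232), (nat_lit 25510466), (nat_lit 18971201), (nat_lit 12765436)] (nat_lit 6694308)) p15_21_2 (nat_lit 4) (nat_lit 35) (nat_lit 36) = true := by decide +kernel
def p15_21_2_36 : pfC (piC [(nat_lit 39120232), (nat_lit 25510466), (nat_lit 18971201), (nat_lit 12765436)] (nat_lit 6694308)) p15_21_2 (nat_lit 4) (nat_lit 36) (nat_lit 37) = true := by decide +kernel
def p15_21_2_37 : pfC (piC [(nat_lit 39120232), (nat_lit 25510466), (nat_lit 18971201), (nat_lit 12765436)] (nat_lit 6694308)) p15_21_2 (nat_lit 4) (nat_lit 37) (nat_lit 38) = true := by decide +kernel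
def p15_21_2_38 : pfC (piC [(nat_lit 39120232), (nat_lit 25510466), (nat_lit 18971201), (nat_lit 12765436)] (nat_lit 6694308)) p15_21_2 (nat_lit 4) (nat_lit 38) (nat_lit 39) = true := by decide +kernel
def p15_21_2_39 : pfC (piC [(nat_lit 39120232), (nat_lit 25510466), (nat_lit 18971201), (nat_lit 12765436)] (nat_lit 6694308)) p15_21_2 (nat_lit 4) (nat_lit 39) (nat_lit 40) = true := by decide +kernel
def p15_21_2_40 : pfC (piC [(nat_lit 39120232), (nat_lit 25510466), (nat_lit 18971201), (nat_lit 12765436)] (nat_lit 6694308)) p15_21_2 (nat_lit 4) (nat_lit 40) (nat_lit 41) = true := by decide +kernel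
def p15_21_2_41 : pfC (piC [(nat_lit 39120232), (nat_lit 25510466), (nat_lit 18971201), (nat_lit 12765436)] (nat_lit 6694308)) p15_21_2 (nat_lit 4) (nat_lit 41) (nat_lit 42) = true := by decide +kernel
def p15_21_2_42 : pfC (piC [(nat_lit 39120232), (nat_lit 25510466), (nat_lit 18971201), (nat_lit 12765436)] (nat_lit 6694308)) p15_21_2 (nat_lit 4) (nat_lit 42) (nat_lit 43) = true := by decide +kernel
def p15_21_2_43 : pfC (piC [(nat_lit 39120232), (nat_lit 25510466), (nat_lit 18971201), (nat_lit 12765436)] (nat_lit 6694308)) p15_21_2 (nat_lit 4) (nat_lit 43) (nat_lit 44) = true := by decide +kernel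
def p15_21_2_44 : pfC (piC [(nat_lit 39120232), (nat_lit 25510466), (nat_lit 18971201), (nat_lit 12765436)] (nat_lit 6694308)) p15_21_2 (nat_lit 4) (nat_lit 44) (nat_lit 45) = true := by decide +kernel
def p15_21_2_45 : pfC (piC [(nat_lit 39120232), (nat_lit 25510466), (nat_lit 18971201), (nat_lit 12765436)] (nat_lit 6694308)) p15_21_2 (nat_lit 4) (nat_lit 45) (nat_lit 46) = true := by decide +kernel
def p15_21_2_46 : pfC (piC [(nat_lit 39120232), (nat_lit 25510466), (nat_lit 18971201), (nat_lit 12765436)] (nat_lit 6694308)) p15_21_2 (nat_lit 4) (nat_lit 46) (nat_lit 47) = true := by decide +kernel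
def p15_21_2_47 : pfC (piC [(nat_lit 39120232), (nat_lit 25510466), (nat_lit 18971201), (nat_lit 12765436)] (nat_lit 6694308)) p15_21_2 (nat_lit 4) (nat_lit 47) (nat_lit 48) = true := by decide +kernel
def p15_21_2_48 : pfC (piC [(nat_lit 39120232), (nat_lit 25510466), (nat_lit 18971201), (nat_lit 12765436)] (nat_lit 6694308)) p15_21_2 (nat_lit 4) (nat_lit 48) (nat_lit 49) = true := by decide +kernel
def p15_21_2_49 : pfC (piC [(nat_lit 39120232), (nat_lit 25510466), (nat_lit 18971201), (nat_lit 12765436)] (nat_lit 6694308)) p15_21_2 (nat_lit 4) (nat_lit 49) (nat_lit 50) = true := by decide +kernel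
def p15_21_2_50 : pfC (piC [(nat_lit 39120232), (nat_lit 25510466), (nat_lit 18971201), (nat_lit 12765436)] (nat_lit 6694308)) p15_21_2 (nat_lit 4) (nat_lit 50) (nat_lit 51) = true := by decide +kernel
def p15_21_2_51 : pfC (piC [(nat_lit 39120232), (nat_lit 25510466), (nat_lit 18971201), (nat_lit 12765436)] (nat_lit 6694308)) p15_21_2 (nat_lit 4) (nat_lit 51) (nat_lit 52) = true := by decide +kernel
def p15_21_2_52 : pfC (piC [(nat_lit 39120232), (nat_lit 25510466), (nat_lit 18971201), (nat_lit 12765436)] (nat_lit 6694308)) p15_21_2 (nat_lit 4) (nat_lit 52) (nat_lit 53) = true := by decide +kernel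
def p15_21_2_53 : pfC (piC [(nat_lit 39120232), (nat_lit 25510466), (nat_lit 18971201), (nat_lit 12765436)] (nat_lit 6694308)) p15_21_2 (nat_lit 4) (nat_lit 53) (nat_lit 54) = true := by decide +kernel
def p15_21_2_54 : pfC (piC [(nat_lit 39120232), (nat_lit 25510466), (nat_lit 18971201), (nat_lit 12765436)] (nat_lit 6694308)) p15_21_2 (nat_lit 4) (nat_lit 54) (nat_lit 55) = true := by decide +kernel
def p15_21_2_55 : pfC (piC [(nat_lit 39120232), (nat_lit 25510466), (nat_lit 18971201), (nat_lit 12765436)] (nat_lit 6694308)) p15_21_2 (nat_lit 4) (nat_lit 55) (nat_lit 56) = true := by decide +kernel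
def p15_21_2_56 : pfC (piC [(nat_lit 39120232), (nat_lit 25510466), (nat_lit 18971201), (nat_lit 12765436)] (nat_lit 6694308)) p15_21_2 (nat_lit 4) (nat_lit 56) (nat_lit 57) = true := by decide +kernel
def p15_21_2_57 : pfC (piC [(nat_lit 39120232), (nat_lit 25510466), (nat_lit 18971201), (nat_lit 12765436)] (nat_lit 6694308)) p15_21_2 (nat_lit 4) (nat_lit 57) (nat_lit 58) = true := by decide +kernel
def p15_21_2_58 : pfC (piC [(nat_lit 39120232), (nat_lit 25510466), (nat_lit 18971201), (nat_lit 12765436)] (nat_lit 6694308)) p15_21_2 (nat_lit 4) (nat_lit 58) (nat_lit 59) = true := by decide +kernel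
def p15_21_2_59 : pfC (piC [(nat_lit 39120232), (nat_lit 25510466), (nat_lit 18971201), (nat_lit 12765436)] (nat_lit 6694308)) p15_21_2 (nat_lit 4) (nat_lit 59) (nat_lit 60) = true := by decide +kernel
def p15_21_2_60 : pfC (piC [(nat_lit 39120232), (nat_lit 25510466), (nat_lit 18971201), (nat_lit 12765436)] (nat_lit 6694308)) p15_21_2 (nat_lit 4) (nat_lit 60) (nat_lit 61) = true := by decide +kernel
def p15_21_2_61 : pfC (piC [(nat_lit 39120232), (nat_lit 25510466), (nat_lit 18971201), (nat_lit 12765436)] (nat_lit 6694308)) p15_21_2 (nat_lit 4) (nat_lit 61) (nat_lit 62) = true := by decide +kernel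
def p15_21_2_62 : pfC (piC [(nat_lit 39120232), (nat_lit 25510466), (nat_lit 18971201), (nat_lit 12765436)] (nat_lit 6694308)) p15_21_2 (nat_lit 4) (nat_lit 62) (nat_lit 63) = true := by decide +kernel
def p15_21_2_63 : pfC (piC [(nat_lit 39120232), (nat_lit 25510466), (nat_lit 18971201), (nat_lit 12765436)] (nat_lit 6694308)) p15_21_2 (nat_lit 4) (nat_lit 63) (nat_lit 64) = true := by decide +kernel
def p15_21_2_64 : pfC (piC [(nat_lit 39120232), (nat_lit 25510466), (nat_lit 18971201), (nat_lit 12765436)] (nat_lit 6694308)) p15_21_2 (nat_lit 4) (nat_lit 64) (nat_lit 65) = true := by decide +kernel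
def p15_21_2_65 : pfC (piC [(nat_lit 39120232), (nat_lit 25510466), (nat_lit 18971201), (nat_lit 12765436)] (nat_lit 6694308)) p15_21_2 (nat_lit 4) (nat_lit 65) (nat_lit 66) = true := by decide +kernel
def p15_21_2_66 : pfC (piC [(nat_lit 39120232), (nat_lit 25510466), (nat_lit 18971201), (nat_lit 12765436)] (nat_lit 6694308)) p15_21_2 (nat_lit 4) (nat_lit 66) (nat_lit 67) = true := by decide +kernel
def p15_21_2_67 : pfC (piC [(nat_lit 39120232), (nat_lit 25510466), (nat_lit 18971201), (nat_lit 12765436)] (nat_lit 6694308)) p15_21_2 (nat_lit 4) (nat_lit 67) (nat_lit 68) = true := by decide +kernel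
def p15_21_2_68 : pfC (piC [(nat_lit 39120232), (nat_lit 25510466), (nat_lit 18971201), (nat_lit 12765436)] (nat_lit 6694308)) p15_21_2 (nat_lit 4) (nat_lit 68) (nat_lit 69) = true := by decide +kernel
def p15_21_2_69 : pfC (piC [(nat_lit 39120232), (nat_lit 25510466), (nat_lit 18971201), (nat_lit 12765436)] (nat_lit 6694308)) p15_21_2 (nat_lit 4) (nat_lit 69) (nat_lit 70) = true := by decide +kernel
def p15_21_2_70 : pfC (piC [(nat_lit 39120232), (nat_lit 25510466), (nat_lit 18971201), (nat_lit 12765436)] (nat_lit 6694308)) p15_21_2 (nat_lit 4) (nat_lit 70) (nat_lit 71) = true := by decide +kernel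
def p15_21_2_71 : pfC (piC [(nat_lit 39120232), (nat_lit 25510466), (nat_lit 18971201), (nat_lit 12765436)] (nat_lit 6694308)) p15_21_2 (nat_lit 4) (nat_lit 71) (nat_lit 72) = true := by decide +kernel
def p15_21_2_72 : pfC (piC [(nat_lit 39120232), (nat_lit 25510466), (nat_lit 18971201), (nat_lit 12765436)] (nat_lit 6694308)) p15_21_2 (nat_lit 4) (nat_lit 72) (nat_lit 73) = true := by decide +kernel
def p15_21_2_73 : pfC (piC [(nat_lit 39120232), (nat_lit 25510466), (nat_lit 18971201), (nat_lit 12765436)] (nat_lit 6694308)) p15_21_2 (nat_lit 4) (nat_lit 73) (nat_lit 74) = true := by decide +kernel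
def p15_21_2_74 : pfC (piC [(nat_lit 39120232), (nat_lit 25510466), (nat_lit 18971201), (nat_lit 12765436)] (nat_lit 6694308)) p15_21_2 (nat_lit 4) (nat_lit 74) (nat_lit 75) = true := by decide +kernel
def p15_21_2_75 : pfC (piC [(nat_lit 39120232), (nat_lit 25510466), (nat_lit 18971201), (nat_lit 12765436)] (nat_lit 6694308)) p15_21_2 (nat_lit 4) (nat_lit 75) (nat_lit 76) = true := by decide +kernel
def p15_21_2_76 : pfC (piC [(nat_lit 39120232), (nat_lit 25510466), (nat_lit 18971201), (nat_lit 12765436)] (nat_lit 6694308)) p15_21_2 (nat_lit 4) (nat_lit 76) (nat_lit 77) = true := by decide +kernel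
def p15_21_2_77 : pfC (piC [(nat_lit 39120232), (nat_lit 25510466), (nat_lit 18971201), (nat_lit 12765436)] (nat_lit 6694308)) p15_21_2 (nat_lit 4) (nat_lit 77) (nat_lit 78) = true := by decide +kernel
def p15_21_2_78 : pfC (piC [(nat_lit 39120232), (nat_lit 25510466), (nat_lit 18971201), (nat_lit 12765436)] (nat_lit 6694308)) p15_21_2 (nat_lit 4) (nat_lit 78) (nat_lit 79) = true := by decide +kernel
def p15_21_2_79 : pfC (piC [(nat_lit 39120232), (nat_lit 25510466), (nat_lit 18971201), (nat_lit 12765436)] (nat_lit 6694308)) p15_21_2 (nat_lit 4) (nat_lit 79) (nat_lit 80) = true := by decide +kernel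
def p15_21_2_80 : pfC (piC [(nat_lit 39120232), (nat_lit 25510466), (nat_lit 18971201), (nat_lit 12765436)] (nat_lit 6694308)) p15_21_2 (nat_lit 4) (nat_lit 80) (nat_lit 81) = true := by decide +kernel
def p15_21_2_81 : pfC (piC [(nat_lit 39120232), (nat_lit 25510466), (nat_lit 18971201), (nat_lit 12765436)] (nat_lit 6694308)) p15_21_2 (nat_lit 4) (nat_lit 81) (nat_lit 82) = true := by decide +kernel
def p15_21_2_82 : pfC (piC [(nat_lit 39120232), (nat_lit 25510466), (nat_lit 18971201), (nat_lit 12765436)] (nat_lit 6694308)) p15_21_2 (nat_lit 4) (nat_lit 82) (nat_lit 83) = true := by decide +kernel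
def p15_21_2_83 : pfC (piC [(nat_lit 39120232), (nat_lit 25510466), (nat_lit 18971201), (nat_lit 12765436)] (nat_lit 6694308)) p15_21_2 (nat_lit 4) (nat_lit 83) (nat_lit 84) = true := by decide +kernel
def p15_21_2_84 : pfC (piC [(nat_lit 39120232), (nat_lit 25510466), (nat_lit 18971201), (nat_lit 12765436)] (nat_lit 6694308)) p15_21_2 (nat_lit 4) (nat_lit 84) (nat_lit 85) = true := by decide +kernel
def p15_21_2_85 : pfC (piC [(nat_lit 39120232), (nat_lit 25510466), (nat_lit 18971201), (nat_lit 12765436)] (nat_lit 6694308)) p15_21_2 (nat_lit 4) (nat_lit 85) (nat_lit 86) = true := by decide +kernel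
def p15_21_2_86 : pfC (piC [(nat_lit 39120232), (nat_lit 25510466), (nat_lit 18971201), (nat_lit 12765436)] (nat_lit 6694308)) p15_21_2 (nat_lit 4) (nat_lit 86) (nat_lit 87) = true := by decide +kernel
def p15_21_2_87 : pfC (piC [(nat_lit 39120232), (nat_lit 25510466), (nat_lit 18971201), (nat_lit 12765436)] (nat_lit 6694308)) p15_21_2 (nat_lit 4) (nat_lit 87) (nat_lit 88) = true := by decide +kernel
def p15_21_2_88 : pfC (piC [(nat_lit 39120232), (nat_lit 25510466), (nat_lit 18971201), (nat_lit 12765436)] (nat_lit 6694308)) p15_21_2 (nat_lit 4) (nat_lit 88) (nat_lit 89) = true := by decide +kernel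
def p15_21_2_89 : pfC (piC [(nat_lit 39120232), (nat_lit 25510466), (nat_lit 18971201), (nat_lit 12765436)] (nat_lit 6694308)) p15_21_2 (nat_lit 4) (nat_lit 89) (nat_lit 90) = true := by decide +kernel
def p15_21_2_90 : pfC (piC [(nat_lit 39120232), (nat_lit 25510466), (nat_lit 18971201), (nat_lit 12765436)] (nat_lit 6694308)) p15_21_2 (nat_lit 4) (nat_lit 90) (nat_lit 91) = true := by decide +kernel
def p15_21_2_91 : pfC (piC [(nat_lit 39120232), (nat_lit 25510466), (nat_lit 18971201), (nat_lit 12765436)] (nat_lit 6694308)) p15_21_2 (nat_lit 4) (nat_lit 91) (nat_lit 92) = true := by decide +kernel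
def p15_21_2_92 : pfC (piC [(nat_lit 39120232), (nat_lit 25510466), (nat_lit 18971201), (nat_lit 12765436)] (nat_lit 6694308)) p15_21_2 (nat_lit 4) (nat_lit 92) (nat_lit 93) = true := by decide +kernel
def p15_21_2_93 : pfC (piC [(nat_lit 39120232), (nat_lit 25510466), (nat_lit 18971201), (nat_lit 12765436)] (nat_lit 6694308)) p15_21_2 (nat_lit 4) (nat_lit 93) (nat_lit 94) = true := by decide +kernel
def p15_21_2_94 : pfC (piC [(nat_lit 39120232), (nat_lit 25510466), (nat_lit 18971201), (nat_lit 12765436)] (nat_lit 6694308)) p15_21_2 (nat_lit 4) (nat_lit 94) (nat_lit 95) = true := by decide +kernel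
def p15_21_2_95 : pfC (piC [(nat_lit 39120232), (nat_lit 25510466), (nat_lit 18971201), (nat_lit 12765436)] (nat_lit 6694308)) p15_21_2 (nat_lit 4) (nat_lit 95) (nat_lit 96) = true := by decide +kernel
def p15_21_2_96 : pfC (piC [(nat_lit 39120232), (nat_lit 25510466), (nat_lit 18971201), (nat_lit 12765436)] (nat_lit 6694308)) p15_21_2 (nat_lit 4) (nat_lit 96) (nat_lit 97) = true := by decide +kernel
def p15_21_2_97 : pfC (piC [(nat_lit 39120232), (nat_lit 25510466), (nat_lit 18971201), (nat_lit 12765436)] (nat_lit 6694308)) p15_21_2 (nat_lit 4) (nat_lit 97) (nat_lit 98) = true := by decide +kernel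
def p15_21_2_98 : pfC (piC [(nat_lit 39120232), (nat_lit 25510466), (nat_lit 18971201), (nat_lit 12765436)] (nat_lit 6694308)) p15_21_2 (nat_lit 4) (nat_lit 98) (nat_lit 99) = true := by decide +kernel
def p15_21_2_99 : pfC (piC [(nat_lit 39120232), (nat_lit 25510466), (nat_lit 18971201), (nat_lit 12765436)] (nat_lit 6694308)) p15_21_2 (nat_lit 4) (nat_lit 99) (nat_lit 100) = true := by decide +kernel
def p15_21_2_100 : pfC (piC [(nat_lit 39120232), (nat_lit 25510466), (nat_lit 18971201), (nat_lit 12765436)] (nat_lit 6694308)) p15_21_2 (nat_lit 4) (nat_lit 100) (nat_lit 101) = true := by decide +kernel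
def p15_21_2_101 : pfC (piC [(nat_lit 39120232), (nat_lit 25510466), (nat_lit 18971201), (nat_lit 12765436)] (nat_lit 6694308)) p15_21_2 (nat_lit 4) (nat_lit 101) (nat_lit 102) = true := by decide +kernel
def p15_21_2_102 : pfC (piC [(nat_lit 39120232), (nat_lit 25510466), (nat_lit 18971201), (nat_lit 12765436)] (nat_lit 6694308)) p15_21_2 (nat_lit 4) (nat_lit 102) (nat_lit 103) = true := by decide +kernel
def p15_21_2_103 : pfC (piC [(nat_lit 39120232), (nat_lit 25510466), (nat_lit 18971201), (nat_lit 12765436)] (nat_lit 6694308)) p15_21_2 (nat_lit 4) (nat_lit 103) (nat_lit 104) = true := by decide +kernel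
def p15_21_2_104 : pfC (piC [(nat_lit 39120232), (nat_lit 25510466), (nat_lit 18971201), (nat_lit 12765436)] (nat_lit 6694308)) p15_21_2 (nat_lit 4) (nat_lit 104) (nat_lit 105) = true := by decide +kernel
def p15_21_2_105 : pfC (piC [(nat_lit 39120232), (nat_lit 25510466), (nat_lit 18971201), (nat_lit 12765436)] (nat_lit 6694308)) p15_21_2 (nat_lit 4) (nat_lit 105) (nat_lit 106) = true := by decide +kernel
def p15_21_2_106 : pfC (piC [(nat_lit 39120232), (nat_lit 25510466), (nat_lit 18971201), (nat_lit 12765436)] (nat_lit 6694308)) p15_21_2 (nat_lit 4) (nat_lit 106) (nat_lit 107) = true := by decide +kernel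
def p15_21_2_107 : pfC (piC [(nat_lit 39120232), (nat_lit 25510466), (nat_lit 18971201), (nat_lit 12765436)] (nat_lit 6694308)) p15_21_2 (nat_lit 4) (nat_lit 107) (nat_lit 108) = true := by decide +kernel
def p15_21_2_108 : pfC (piC [(nat_lit 39120232), (nat_lit 25510466), (nat_lit 18971201), (nat_lit 12765436)] (nat_lit 6694308)) p15_21_2 (nat_lit 4) (nat_lit 108) (nat_lit 109) = true := by decide +kernel
def p15_21_2_109 : pfC (piC [(nat_lit 39120232), (nat_lit 25510466), (nat_lit 18971201), (nat_lit 12765436)] (nat_lit 6694308)) p15_21_2 (nat_lit 4) (nat_lit 109) (nat_lit 110) = true := by decide +kernel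
def p15_21_2_110 : pfC (piC [(nat_lit 39120232), (nat_lit 25510466), (nat_lit 18971201), (nat_lit 12765436)] (nat_lit 6694308)) p15_21_2 (nat_lit 4) (nat_lit 110) (nat_lit 111) = true := by decide +kernel
def p15_21_2_111 : pfC (piC [(nat_lit 39120232), (nat_lit 25510466), (nat_lit 18971201), (nat_lit 12765436)] (nat_lit 6694308)) p15_21_2 (nat_lit 4) (nat_lit 111) (nat_lit 112) = true := by decide +kernel
def p15_21_2_112 : pfC (piC [(nat_lit 39120232), (nat_lit 25510466), (nat_lit 18971201), (nat_lit 12765436)] (nat_lit 6694308)) p15_21_2 (nat_lit 4) (nat_lit 112) (nat_lit 113) = true := by decide +kernel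
def p15_21_2_113 : pfC (piC [(nat_lit 39120232), (nat_lit 25510466), (nat_lit 18971201), (nat_lit 12765436)] (nat_lit 6694308)) p15_21_2 (nat_lit 4) (nat_lit 113) (nat_lit 114) = true := by decide +kernel
def p15_21_2_114 : pfC (piC [(nat_lit 39120232), (nat_lit 25510466), (nat_lit 18971201), (nat_lit 12765436)] (nat_lit 6694308)) p15_21_2 (nat_lit 4) (nat_lit 114) (nat_lit 115) = true := by decide +kernel
def p15_21_2_115 : pfC (piC [(nat_lit 39120232), (nat_lit 25510466), (nat_lit 18971201), (nat_lit 12765436)] (nat_lit 6694308)) p15_21_2 (nat_lit 4) (nat_lit 115) (nat_lit 116) = true := by decide +kernel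
def p15_21_2_116 : pfC (piC [(nat_lit 39120232), (nat_lit 25510466), (nat_lit 18971201), (nat_lit 12765436)] (nat_lit 6694308)) p15_21_2 (nat_lit 4) (nat_lit 116) (nat_lit 117) = true := by decide +kernel
def p15_21_2_117 : pfC (piC [(nat_lit 39120232), (nat_lit 25510466), (nat_lit 18971201), (nat_lit 12765436)] (nat_lit 6694308)) p15_21_2 (nat_lit 4) (nat_lit 117) (nat_lit 118) = true := by decide +kernel
def p15_21_2_118 : pfC (piC [(nat_lit 39120232), (nat_lit 25510466), (nat_lit 18971201), (nat_lit 12765436)] (nat_lit 6694308)) p15_21_2 (nat_lit 4) (nat_lit 118) (nat_lit 119) = true := by decide +kernel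
def p15_21_2_119 : pfC (piC [(nat_lit 39120232), (nat_lit 25510466), (nat_lit 18971201), (nat_lit 12765436)] (nat_lit 6694308)) p15_21_2 (nat_lit 4) (nat_lit 119) (nat_lit 120) = true := by decide +kernel
def p15_21_2_120 : pfC (piC [(nat_lit 39120232), (nat_lit 25510466), (nat_lit 18971201), (nat_lit 12765436)] (nat_lit 6694308)) p15_21_2 (nat_lit 4) (nat_lit 120) (nat_lit 121) = true := by decide +kernel
def p15_21_2_121 : pfC (piC [(nat_lit 39120232), (nat_lit 25510466), (nat_lit 18971201), (nat_lit 12765436)] (nat_lit 6694308)) p15_21_2 (nat_lit 4) (nat_lit 121) (nat_lit 122) = true := by decide +kernel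
def p15_21_2_122 : pfC (piC [(nat_lit 39120232), (nat_lit 25510466), (nat_lit 18971201), (nat_lit 12765436)] (nat_lit 6694308)) p15_21_2 (nat_lit 4) (nat_lit 122) (nat_lit 123) = true := by decide +kernel
def p15_21_2_123 : pfC (piC [(nat_lit 39120232), (nat_lit 25510466), (nat_lit 18971201), (nat_lit 12765436)] (nat_lit 6694308)) p15_21_2 (nat_lit 4) (nat_lit 123) (nat_lit 124) = true := by decide +kernel
def p15_21_2_124 : pfC (piC [(nat_lit 39120232), (nat_lit 25510466), (nat_lit 18971201), (nat_lit 12765436)] (nat_lit 6694308)) p15_21_2 (nat_lit 4) (nat_lit 124) (nat_lit 125) = true := by decide +kernel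
def p15_21_2_125 : pfC (piC [(nat_lit 39120232), (nat_lit 25510466), (nat_lit 18971201), (nat_lit 12765436)] (nat_lit 6694308)) p15_21_2 (nat_lit 4) (nat_lit 125) (nat_lit 126) = true := by decide +kernel
def p15_21_2_126 : pfC (piC [(nat_lit 39120232), (nat_lit 25510466), (nat_lit 18971201), (nat_lit 12765436)] (nat_lit 6694308)) p15_21_2 (nat_lit 4) (nat_lit 126) (nat_lit 127) = true := by decide +kernel
def p15_21_2_127 : pfC (piC [(nat_lit 39120232), (nat_lit 25510466), (nat_lit 18971201), (nat_lit 12765436)] (nat_lit 6694308)) p15_21_2 (nat_lit 4) (nat_lit 127) (nat_lit 128) = true := by decide +kernel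
def p15_21_2_128 : pfC (piC [(nat_lit 39120232), (nat_lit 25510466), (nat_lit 18971201), (nat_lit 12765436)] (nat_lit 6694308)) p15_21_2 (nat_lit 4) (nat_lit 128) (nat_lit 129) = true := by decide +kernel
def p15_21_2_129 : pfC (piC [(nat_lit 39120232), (nat_lit 25510466), (nat_lit 18971201), (nat_lit 12765436)] (nat_lit 6694308)) p15_21_2 (nat_lit 4) (nat_lit 129) (nat_lit 130) = true := by decide +kernel
def p15_21_2_130 : pfC (piC [(nat_lit 39120232), (nat_lit 25510466), (nat_lit 18971201), (nat_lit 12765436)] (nat_lit 6694308)) p15_21_2 (nat_lit 4) (nat_lit 130) (nat_lit 131) = true := by decide +kernel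
def p15_21_2_131 : pfC (piC [(nat_lit 39120232), (nat_lit 25510466), (nat_lit 18971201), (nat_lit 12765436)] (nat_lit 6694308)) p15_21_2 (nat_lit 4) (nat_lit 131) (nat_lit 132) = true := by decide +kernel
def p15_21_2_132 : pfC (piC [(nat_lit 39120232), (nat_lit 25510466), (nat_lit 18971201), (nat_lit 12765436)] (nat_lit 6694308)) p15_21_2 (nat_lit 4) (nat_lit 132) (nat_lit 133) = true := by decide +kernel
def p15_21_2_133 : pfC (piC [(nat_lit 39120232), (nat_lit 25510466), (nat_lit 18971201), (nat_lit 12765436)] (nat_lit 6694308)) p15_21_2 (nat_lit 4) (nat_lit 133) (nat_lit 134) = true := by decide +kernel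
def p15_21_2_134 : pfC (piC [(nat_lit 39120232), (nat_lit 25510466), (nat_lit 18971201), (nat_lit 12765436)] (nat_lit 6694308)) p15_21_2 (nat_lit 4) (nat_lit 134) (nat_lit 135) = true := by decide +kernel
def p15_21_2_135 : pfC (piC [(nat_lit 39120232), (nat_lit 25510466), (nat_lit 18971201), (nat_lit 12765436)] (nat_lit 6694308)) p15_21_2 (nat_lit 4) (nat_lit 135) (nat_lit 136) = true := by decide +kernel
def p15_21_2_136 : pfC (piC [(nat_lit 39120232), (nat_lit 25510466), (nat_lit 18971201), (nat_lit 12765436)] (nat_lit 6694308)) p15_21_2 (nat_lit 4) (nat_lit 136) (nat_lit 137) = true := by decide +kernel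
def p15_21_2_137 : pfC (piC [(nat_lit 39120232), (nat_lit 25510466), (nat_lit 18971201), (nat_lit 12765436)] (nat_lit 6694308)) p15_21_2 (nat_lit 4) (nat_lit 137) (nat_lit 138) = true := by decide +kernel
def p15_21_2_138 : pfC (piC [(nat_lit 39120232), (nat_lit 25510466), (nat_lit 18971201), (nat_lit 12765436)] (nat_lit 6694308)) p15_21_2 (nat_lit 4) (nat_lit 138) (nat_lit 139) = true := by decide +kernel
def p15_21_2_139 : pfC (piC [(nat_lit 39120232), (nat_lit 25510466), (nat_lit 18971201), (nat_lit 12765436)] (nat_lit 6694308)) p15_21_2 (nat_lit 4) (nat_lit 139) (nat_lit 140) = true := by decide +kernel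
def p15_21_2_140 : pfC (piC [(nat_lit 39120232), (nat_lit 25510466), (nat_lit 18971201), (nat_lit 12765436)] (nat_lit 6694308)) p15_21_2 (nat_lit 4) (nat_lit 140) (nat_lit 141) = true := by decide +kernel
def p15_21_2_141 : pfC (piC [(nat_lit 39120232), (nat_lit 25510466), (nat_lit 18971201), (nat_lit 12765436)] (nat_lit 6694308)) p15_21_2 (nat_lit 4) (nat_lit 141) (nat_lit 142) = true := by decide +kernel
def p15_21_2_142 : pfC (piC [(nat_lit 39120232), (nat_lit 25510466), (nat_lit 18971201), (nat_lit 12765436)] (nat_lit 6694308)) p15_21_2 (nat_lit 4) (nat_lit 142) (nat_lit 143) = true := by decide +kernel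
def p15_21_2_143 : pfC (piC [(nat_lit 39120232), (nat_lit 25510466), (nat_lit 18971201), (nat_lit 12765436)] (nat_lit 6694308)) p15_21_2 (nat_lit 4) (nat_lit 143) (nat_lit 144) = true := by decide +kernel
def p15_21_2_144 : pfC (piC [(nat_lit 39120232), (nat_lit 25510466), (nat_lit 18971201), (nat_lit 12765436)] (nat_lit 6694308)) p15_21_2 (nat_lit 4) (nat_lit 144) (nat_lit 145) = true := by decide +kernel
def p15_21_2_145 : pfC (piC [(nat_lit 39120232), (nat_lit 25510466), (nat_lit 18971201), (nat_lit 12765436)] (nat_lit 6694308)) p15_21_2 (nat_lit 4) (nat_lit 145) (nat_lit 146) = true := by decide +kernel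
def p15_21_2_146 : pfC (piC [(nat_lit 39120232), (nat_lit 25510466), (nat_lit 18971201), (nat_lit 12765436)] (nat_lit 6694308)) p15_21_2 (nat_lit 4) (nat_lit 146) (nat_lit 147) = true := by decide +kernel
def p15_21_2_147 : pfC (piC [(nat_lit 39120232), (nat_lit 25510466), (nat_lit 18971201), (nat_lit 12765436)] (nat_lit 6694308)) p15_21_2 (nat_lit 4) (nat_lit 147) (nat_lit 148) = true := by decide +kernel
def p15_21_2_148 : pfC (piC [(nat_lit 39120232), (nat_lit 25510466), (nat_lit 18971201), (nat_lit 12765436)] (nat_lit 6694308)) p15_21_2 (nat_lit 4) (nat_lit 148) (nat_lit 149) = true := by decide +kernel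
def p15_21_2_149 : pfC (piC [(nat_lit 39120232), (nat_lit 25510466), (nat_lit 18971201), (nat_lit 12765436)] (nat_lit 6694308)) p15_21_2 (nat_lit 4) (nat_lit 149) (nat_lit 150) = true := by decide +kernel
def p15_21_2_150 : pfC (piC [(nat_lit 39120232), (nat_lit 25510466), (nat_lit 18971201), (nat_lit 12765436)] (nat_lit 6694308)) p15_21_2 (nat_lit 4) (nat_lit 150) (nat_lit 151) = true := by decide +kernel
def p15_21_2_151 : pfC (piC [(nat_lit 39120232), (nat_lit 25510466), (nat_lit 18971201), (nat_lit 12765436)] (nat_lit 6694308)) p15_21_2 (nat_lit 4) (nat_lit 151) (nat_lit 152) = true := by decide +kernel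
def p15_21_2_152 : pfC (piC [(nat_lit 39120232), (nat_lit 25510466), (nat_lit 18971201), (nat_lit 12765436)] (nat_lit 6694308)) p15_21_2 (nat_lit 4) (nat_lit 152) (nat_lit 153) = true := by decide +kernel
def p15_21_2_153 : pfC (piC [(nat_lit 39120232), (nat_lit 25510466), (nat_lit 18971201), (nat_lit 12765436)] (nat_lit 6694308)) p15_21_2 (nat_lit 4) (nat_lit 153) (nat_lit 154) = true := by decide +kernel
def p15_21_2_154 : pfC (piC [(nat_lit 39120232), (nat_lit 25510466), (nat_lit 18971201), (nat_lit 12765436)] (nat_lit 6694308)) p15_21_2 (nat_lit 4) (nat_lit 154) (nat_lit 155) = true := by decide +kernel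
def p15_21_2_155 : pfC (piC [(nat_lit 39120232), (nat_lit 25510466), (nat_lit 18971201), (nat_lit 12765436)] (nat_lit 6694308)) p15_21_2 (nat_lit 4) (nat_lit 155) (nat_lit 156) = true := by decide +kernel
def p15_21_2_156 : pfC (piC [(nat_lit 39120232), (nat_lit 25510466), (nat_lit 18971201), (nat_lit 12765436)] (nat_lit 6694308)) p15_21_2 (nat_lit 4) (nat_lit 156) (nat_lit 157) = true := by decide +kernel
def p15_21_2_157 : pfC (piC [(nat_lit 39120232), (nat_lit 25510466), (nat_lit 18971201), (nat_lit 12765436)] (nat_lit 6694308)) p15_21_2 (nat_lit 4) (nat_lit 157) (nat_lit 158) = true := by decide +kernel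
def p15_21_2_158 : pfC (piC [(nat_lit 39120232), (nat_lit 25510466), (nat_lit 18971201), (nat_lit 12765436)] (nat_lit 6694308)) p15_21_2 (nat_lit 4) (nat_lit 158) (nat_lit 159) = true := by decide +kernel
def p15_21_2_159 : pfC (piC [(nat_lit 39120232), (nat_lit 25510466), (nat_lit 18971201), (nat_lit 12765436)] (nat_lit 6694308)) p15_21_2 (nat_lit 4) (nat_lit 159) (nat_lit 160) = true := by decide +kernel
def p15_21_2_160 : pfC (piC [(nat_lit 39120232), (nat_lit 25510466), (nat_lit 18971201), (nat_lit 12765436)] (nat_lit 6694308)) p15_21_2 (nat_lit 4) (nat_lit 160) (nat_lit 161) = true := by decide +kernel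
def p15_21_2_161 : pfC (piC [(nat_lit 39120232), (nat_lit 25510466), (nat_lit 18971201), (nat_lit 12765436)] (nat_lit 6694308)) p15_21_2 (nat_lit 4) (nat_lit 161) (nat_lit 162) = true := by decide +kernel
def p15_21_2_162 : pfC (piC [(nat_lit 39120232), (nat_lit 25510466), (nat_lit 18971201), (nat_lit 12765436)] (nat_lit 6694308)) p15_21_2 (nat_lit 4) (nat_lit 162) (nat_lit 163) = true := by decide +kernel
theorem p15_21_2_T : PfS (PiF n15_21.reverse (nat_lit 6694308)) p15_21_2 (nat_lit 4) [] 0 :=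
  pftab_of (los := [(nat_lit 39120232), (nat_lit 25510466), (nat_lit 18971201), (nat_lit 12765436)]) (by decide +kernel) (hi := (nat_lit 163)) (PfP.trans (PfP.trans (PfP.trans (PfP.trans (PfP.trans (PfP.trans (PfP.trans (PfP.trans (PfP.trans (PfP.trans (PfP.trans (PfP.trans (PfP.trans (PfP.trans (PfP.trans (PfP.trans (PfP.trans (PfP.trans (PfP.trans (PfP.trans (PfP.trans (PfP.trans (PfP.trans (PfP.trans (PfP.trans (PfP.trans (PfP.trans (PfP.trans (PfP.trans (PfP.trans (PfP.trans (PfP.trans (PfP.trans (PfP.trans (PfP.trans (PfP.trans (PfP.trans (PfP.trans (PfP.trans (PfP.trans (PfP.trans (PfP.trans (PfP.trans (PfP.trans (PfP.trans (PfP.trans (PfP.trans (PfP.trans (PfP.trans (PfP.trans (PfP.trans (PfP.trans (PfP.trans (PfP.trans (PfP.trans (PfP.trans (PfP.trans (PfP.trans (PfP.trans (PfP.trans (PfP.trans (PfP.trans (PfP.trans (PfP.trans (PfP.trans (PfP.trans (PfP.trans (PfP.trans (PfP.trans (PfP.trans (PfP.trans (PfP.trans (PfP.trans (PfP.trans (PfP.trans (PfP.trans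 (PfP.trans (PfP.trans (PfP.trans (PfP.trans (PfP.trans (PfP.trans (PfP.trans (PfP.trans (PfP.trans (PfP.trans (PfP.trans (PfP.trans (PfP.trans (PfP.trans (PfP.trans (PfP.trans (PfP.trans (PfP.trans (PfP.trans (PfP.trans (PfP.trans (PfP.trans (PfP.trans (PfP.trans (PfP.trans (PfP.trans (PfP.trans (PfP.trans (PfP.trans (PfP.trans (PfP.trans (PfP.trans (PfP.trans
 (PfP.trans (PfP.trans (PfP.trans (PfP.trans (PfP.trans (PfP.trans (PfP.trans (PfP.trans (PfP.trans (PfP.trans (PfP.trans (PfP.trans (PfP.trans (PfP.trans (PfP.trans (PfP.trans (PfP.trans (PfP.trans (PfP.trans (PfP.trans (PfP.trans (PfP.trans (PfP.trans (PfP.trans (PfP.trans (PfP.trans (PfP.trans (PfP.trans (PfP.trans (PfP.trans (PfP.trans (PfP.trans (PfP.trans (PfP.trans (PfP.trans (PfP.trans (PfP.trans (PfP.trans (PfP.trans (PfP.trans (PfP.trans (PfP.trans (PfP.trans (PfP.trans (PfP.trans (PfP.trans (PfP.trans (PfP.trans (PfP.trans (PfP.trans (PfP.trans (PfP.trans (PfP.trans (pfC_sound p15_21_2_0) (pfC_sound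 p15_21_2_1)) (pfC_sound p15_21_2_2)) (pfC_sound p15_21_2_3)) (pfC_sound p15_21_2_4)) (pfC_sound p15_21_2_5)) (pfC_sound p15_21_2_6)) (pfC_sound p15_21_2_7)) (pfC_sound p15_21_2_8)) (pfC_sound p15_21_2_9)) (pfC_sound p15_21_2_10)) (pfC_sound p15_21_2_11)) (pfC_sound p15_21_2_12)) (pfC_sound p15_21_2_13)) (pfC_sound p15_21_2_14)) (pfC_sound p15_21_2_15)) (pfC_sound p15_21_2_16)) (pfC_sound p15_21_2_17)) (pfC_sound p15_21_2_18)) (pfC_sound p15_21_2_19)) (pfC_sound p15_21_2_20)) (pfC_sound p15_21_2_21)) (pfC_sound p15_21_2_22)) (pfC_sound p15_21_2_23)) (pfC_sound p15_21_2_24))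
 (pfC_sound p15_21_2_25)) (pfC_sound p15_21_2_26)) (pfC_sound p15_21_2_27)) (pfC_sound p15_21_2_28)) (pfC_sound p15_21_2_29)) (pfC_sound p15_21_2_30)) (pfC_sound p15_21_2_31)) (pfC_sound p15_21_2_32)) (pfC_sound p15_21_2_33)) (pfC_sound p15_21_2_34)) (pfC_sound p15_21_2_35)) (pfC_sound p15_21_2_36)) (pfC_sound p15_21_2_37)) (pfC_sound p15_21_2_38)) (pfC_sound p15_21_2_39)) (pfC_sound p15_21_2_40)) (pfC_sound p15_21_2_41)) (pfC_sound p15_21_2_42)) (pfC_sound p15_21_2_43)) (pfC_sound p15_21_2_44)) (pfC_sound p15_21_2_45)) (pfC_sound p15_21_2_46)) (pfC_sound p15_21_2_47)) (pfC_sound p15_21_2_48)) (pfC_sound p15_21_2_49)) (pfC_sound p15_21_2_50)) (pfC_sound p15_21_2_51)) (pfC_sound p15_21_2_52)) (pfC_sound p15_21_2_53)) (pfC_sound p15_21_2_54)) (pfC_sound p15_21_2_55)) (pfC_sound p15_21_2_56)) (pfC_sound p15_21_2_57)) (pfC_sound p15_21_2_58)) (pfC_sound p15_21_2_59)) (pfC_sound p15_21_2_60)) (pfC_sound p15_21_2_61)) (pfC_sound p15_21_2_62)) (pfC_sound p15_21_2_63)) (pfC_sound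 p15_21_2_64)) (pfC_sound p15_21_2_65)) (pfC_sound p15_21_2_66)) (pfC_sound p15_21_2_67)) (pfC_sound p15_21_2_68)) (pfC_sound p15_21_2_69)) (pfC_sound p15_21_2_70)) (pfC_sound p15_21_2_71)) (pfC_sound p15_21_2_72))
 (pfC_sound p15_21_2_73)) (pfC_sound p15_21_2_74)) (pfC_sound p15_21_2_75)) (pfC_sound p15_21_2_76)) (pfC_sound p15_21_2_77)) (pfC_sound p15_21_2_78)) (pfC_sound p15_21_2_79)) (pfC_sound p15_21_2_80)) (pfC_sound p15_21_2_81)) (pfC_sound p15_21_2_82)) (pfC_sound p15_21_2_83)) (pfC_sound p15_21_2_84)) (pfC_sound p15_21_2_85)) (pfC_sound p15_21_2_86)) (pfC_sound p15_21_2_87)) (pfC_sound p15_21_2_88)) (pfC_sound p15_21_2_89)) (pfC_sound p15_21_2_90)) (pfC_sound p15_21_2_91)) (pfC_sound p15_21_2_92)) (pfC_sound p15_21_2_93)) (pfC_sound p15_21_2_94)) (pfC_sound p15_21_2_95)) (pfC_sound p15_21_2_96)) (pfC_sound p15_21_2_97)) (pfC_sound p15_21_2_98)) (pfC_sound p15_21_2_99)) (pfC_sound p15_21_2_100)) (pfC_sound p15_21_2_101)) (pfC_sound p15_21_2_102)) (pfC_sound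 p15_21_2_103)) (pfC_sound p15_21_2_104)) (pfC_sound p15_21_2_105)) (pfC_sound p15_21_2_106)) (pfC_sound p15_21_2_107)) (pfC_sound p15_21_2_108)) (pfC_sound p15_21_2_109)) (pfC_sound p15_21_2_110)) (pfC_sound p15_21_2_111)) (pfC_sound p15_21_2_112)) (pfC_sound p15_21_2_113)) (pfC_sound p15_21_2_114)) (pfC_sound p15_21_2_115)) (pfC_sound p15_21_2_116)) (pfC_sound p15_21_2_117)) (pfC_sound p15_21_2_118)) (pfC_sound p15_21_2_119))
 (pfC_sound p15_21_2_120)) (pfC_sound p15_21_2_121)) (pfC_sound p15_21_2_122)) (pfC_sound p15_21_2_123)) (pfC_sound p15_21_2_124)) (pfC_sound p15_21_2_125)) (pfC_sound p15_21_2_126)) (pfC_sound p15_21_2_127)) (pfC_sound p15_21_2_128)) (pfC_sound p15_21_2_129)) (pfC_sound p15_21_2_130)) (pfC_sound p15_21_2_131)) (pfC_sound p15_21_2_132)) (pfC_sound p15_21_2_133)) (pfC_sound p15_21_2_134)) (pfC_sound p15_21_2_135)) (pfC_sound p15_21_2_136)) (pfC_sound p15_21_2_137)) (pfC_sound p15_21_2_138)) (pfC_sound p15_21_2_139)) (pfC_sound p15_21_2_140)) (pfC_sound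 p15_21_2_141)) (pfC_sound p15_21_2_142)) (pfC_sound p15_21_2_143)) (pfC_sound p15_21_2_144)) (pfC_sound p15_21_2_145)) (pfC_sound p15_21_2_146)) (pfC_sound p15_21_2_147)) (pfC_sound p15_21_2_148)) (pfC_sound p15_21_2_149)) (pfC_sound p15_21_2_150)) (pfC_sound p15_21_2_151)) (pfC_sound p15_21_2_152)) (pfC_sound p15_21_2_153)) (pfC_sound p15_21_2_154)) (pfC_sound p15_21_2_155)) (pfC_sound p15_21_2_156)) (pfC_sound p15_21_2_157)) (pfC_sound p15_21_2_158)) (pfC_sound p15_21_2_159)) (pfC_sound p15_21_2_160)) (pfC_sound p15_21_2_161)) (pfC_sound p15_21_2_162)) (by decide +kernel)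

def z15_21_2 : zOK yB15_21 (nat_lit 2) (nat_lit 600) (nat_lit 750) (nat_lit 6694308) (nat_lit 4992266) = true := by decide +kernel
def g15_21_2 : gOK yB15_21.x P15_21 (nat_lit 1426) (q15_21 :: r15_21) (nat_lit 2) (nat_lit 600) (nat_lit 3) (nat_lit 750) (nat_lit 12712500) (nat_lit 12712500) (nat_lit 12712500) (nat_lit 12712500) [(nat_lit 800), (nat_lit 1600)] = true := by decide +kernel
def v15_21_2 : ivC P15_21 s15_21 w15_21 n15_21 (nat_lit 4) (nat_lit 4800) (nat_lit 2) (nat_lit 600) f160_1_600 f168_1_600 (nat_lit 3) (nat_lit 750) f160_1_750 f168_1_750 (nat_lit 6694308) (nat_lit 4992266) p15_21_2 = true := by decide +kernel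
def p15_21_3 : PF := (PF.cons (PF.cons (PF.cons (PF.cons (PF.leaf (nat_lit 3010893) (nat_lit 19463595) (nat_lit 47645217) (nat_lit 19463595) [(nat_lit 0), (nat_lit 0), (nat_lit 0), (nat_lit 0)]) (PF.cons (PF.leaf (nat_lit 3166157) (nat_lit 274209) (nat_lit 47412655) (nat_lit 19421947) [(nat_lit 274209), (nat_lit 0), (nat_lit 0), (nat_lit 0)]) (PF.cons (PF.leaf (nat_lit 3349798) (nat_lit 297732) (nat_lit 47141011) (nat_lit 19372335) [(nat_lit 297732), (nat_lit 0), (nat_lit 0), (nat_lit 0)]) (PF.cons (PF.leaf (nat_lit 3555514) (nat_lit 318454) (nat_lit 46837706) (nat_lit 19315742) [(nat_lit 318454), (nat_lit 0), (nat_lit 0), (nat_lit 0)]) (PF.cons (PF.leaf (nat_lit 3780087) (nat_lit 336995) (nat_lit 46508010) (nat_lit 19252818) [(nat_lit 336995), (nat_lit 0), (nat_lit 0), (nat_lit 0)]) (PF.cons (PF.leaf (nat_lit 4020872) (nat_lit 353754) (nat_lit 46155991) (nat_lit 19184047) [(nat_lit 353754), (nat_lit 0), (nat_lit 0), (nat_lit 0)]) (PF.cons (PF.leaf (nat_lit 4275839)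 (nat_lit 369007) (nat_lit 45784952) (nat_lit 19109817) [(nat_lit 369007), (nat_lit 0), (nat_lit 0), (nat_lit 0)]) (PF.cons (PF.leaf (nat_lit 4543248) (nat_lit 382954) (nat_lit 45397668) (nat_lit 19030462) [(nat_lit 382954), (nat_lit 0),
 (nat_lit 0), (nat_lit 0)]) (PF.cons (PF.leaf (nat_lit 4821641) (nat_lit 395750) (nat_lit 44996526) (nat_lit 18946280) [(nat_lit 395750), (nat_lit 0), (nat_lit 0), (nat_lit 0)]) (PF.cons (PF.leaf (nat_lit 5109654) (nat_lit 407516) (nat_lit 44583611) (nat_lit 18857552) [(nat_lit 407516), (nat_lit 0), (nat_lit 0), (nat_lit 0)]) (PF.cons PF.nil (PF.cons PF.nil PF.nil)))))))))))) (PF.cons (PF.cons (PF.leaf (nat_lit 3531492) (nat_lit 1238363) (nat_lit 46602554) (nat_lit 19267895) [(nat_lit 0), (nat_lit 1238363), (nat_lit 0), (nat_lit 0)]) (PF.cons (PF.leaf (nat_lit 3730845) (nat_lit 328015) (nat_lit 46302844) (nat_lit 19209764) [(nat_lit 328015), (nat_lit 1268188), (nat_lit 0), (nat_lit 0)]) (PF.cons (PF.leaf (nat_lit 3951208) (nat_lit 345830)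 (nat_lit 45975188) (nat_lit 19144877) [(nat_lit 345830), (nat_lit 1297084), (nat_lit 0), (nat_lit 0)]) (PF.cons (PF.leaf (nat_lit 4188505) (nat_lit 361868) (nat_lit 45624644) (nat_lit 19073936) [(nat_lit 361868), (nat_lit 1324624), (nat_lit 0), (nat_lit 0)]) (PF.cons (PF.leaf (nat_lit 4440309) (nat_lit 376431) (nat_lit 45255016) (nat_lit 18997456) [(nat_lit 376431), (nat_lit 1350615), (nat_lit 0), (nat_lit 0)]) (PF.cons (PF.leaf (nat_lit 4704779)
 (nat_lit 389728) (nat_lit 44869343) (nat_lit 18915848) [(nat_lit 389728), (nat_lit 1374981), (nat_lit 0), (nat_lit 0)]) (PF.cons (PF.leaf (nat_lit 4980240) (nat_lit 401914) (nat_lit 44470152) (nat_lit 18829464) [(nat_lit 401914), (nat_lit 1397709), (nat_lit 0), (nat_lit 0)]) (PF.cons (PF.leaf (nat_lit 5265340) (nat_lit 413109) (nat_lit 44059599) (nat_lit 18738619) [(nat_lit 413109), (nat_lit 1418825), (nat_lit 0), (nat_lit 0)]) (PF.cons PF.nil (PF.cons PF.nil PF.nil)))))))))) (PF.cons (PF.cons (PF.leaf (nat_lit 4125474) (nat_lit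 1323477) (nat_lit 45430976) (nat_lit 19030881) [(nat_lit 0), (nat_lit 1323477), (nat_lit 0), (nat_lit 0)]) (PF.cons (PF.leaf (nat_lit 4357074) (nat_lit 368754) (nat_lit 45085384) (nat_lit 18958558) [(nat_lit 368754), (nat_lit 1348057), (nat_lit 0), (nat_lit 0)]) (PF.cons (PF.leaf (nat_lit 4604704) (nat_lit 382820) (nat_lit 44719774) (nat_lit 18880451) [(nat_lit 382820), (nat_lit 1371472), (nat_lit 0), (nat_lit 0)]) (PF.cons (PF.leaf (nat_lit 4865438) (nat_lit 395611) (nat_lit 44337752) (nat_lit 18797111) [(nat_lit 395611), (nat_lit 1393558), (nat_lit 0), (nat_lit 0)]) (PF.cons (PF.leaf (nat_lit 5137414) (nat_lit 407299) (nat_lit 43942155) (nat_lit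
 18708974) [(nat_lit 407299), (nat_lit 1414242), (nat_lit 0), (nat_lit 0)]) (PF.cons (PF.leaf (nat_lit 5419165) (nat_lit 418013) (nat_lit 43535313) (nat_lit 18616410) [(nat_lit 418013), (nat_lit 1433509), (nat_lit 0), (nat_lit 0)]) (PF.cons (PF.leaf (nat_lit 5709393) (nat_lit 427853) (nat_lit 43119196) (nat_lit 18519750) [(nat_lit 427853), (nat_lit 1451371), (nat_lit 0), (nat_lit 0)]) (PF.cons PF.nil (PF.cons PF.nil PF.nil))))))))) (PF.cons (PF.cons (PF.leaf (nat_lit 4770604) (nat_lit 1390305) (nat_lit 44179118) (nat_lit 18758777) [(nat_lit 0), (nat_lit 1390305), (nat_lit 0), (nat_lit 0)]) (PF.cons (PF.leaf (nat_lit 5026000) (nat_lit 400638) (nat_lit 43803007) (nat_lit 18674306) [(nat_lit 400638), (nat_lit 1410286), (nat_lit 0), (nat_lit 0)]) (PF.cons (PF.leaf (nat_lit 5293801) (nat_lit 411940) (nat_lit 43412753) (nat_lit 18584915) [(nat_lit 411940), (nat_lit 1429087), (nat_lit 0), (nat_lit 0)]) (PF.cons (PF.leaf (nat_lit 5571659) (nat_lit 422261) (nat_lit 43011017)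 (nat_lit 18491062) [(nat_lit 422261), (nat_lit 1446649), (nat_lit 0), (nat_lit 0)]) (PF.cons (PF.leaf (nat_lit 5858178) (nat_lit 431712) (nat_lit 42599962) (nat_lit 18393133) [(nat_lit 431712), (nat_lit 1462955),
 (nat_lit 0), (nat_lit 0)]) (PF.cons PF.nil (PF.cons PF.nil PF.nil))))))) (PF.cons (PF.cons (PF.leaf (nat_lit 5450610) (nat_lit 1442407) (nat_lit 42881862) (nat_lit 18457322) [(nat_lit 0), (nat_lit 1442407), (nat_lit 0), (nat_lit 0)]) (PF.cons (PF.leaf (nat_lit 5723380) (nat_lit 425872) (nat_lit 42486757) (nat_lit 18362657) [(nat_lit 425872), (nat_lit 1458381), (nat_lit 0), (nat_lit 0)]) (PF.cons (PF.leaf (nat_lit 6005710) (nat_lit 435007) (nat_lit 42081965) (nat_lit 18263867) [(nat_lit 435007), (nat_lit 1473241), (nat_lit 0), (nat_lit 0)]) (PF.cons (PF.leaf (nat_lit 6295707) (nat_lit 443354) (nat_lit 41669500) (nat_lit 18161348) [(nat_lit 443354), (nat_lit 1486974), (nat_lit 0), (nat_lit 0)]) (PF.cons PF.nil PF.nil))))) (PF.cons (PF.cons (PF.leaf (nat_lit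 6152962) (nat_lit 1482333) (nat_lit 41565128) (nat_lit 18132014) [(nat_lit 0), (nat_lit 1482333), (nat_lit 0), (nat_lit 0)]) (PF.cons (PF.leaf (nat_lit 6438051) (nat_lit 445837) (nat_lit 41159806) (nat_lit 18029028) [(nat_lit 445837), (nat_lit 1494828), (nat_lit 0), (nat_lit 0)]) (PF.cons (PF.leaf (nat_lit 6730404) (nat_lit 453211) (nat_lit 40748220) (nat_lit 17922651) [(nat_lit 453211), (nat_lit 1506303), (nat_lit 0), (nat_lit
 0)]) (PF.cons PF.nil PF.nil)))) (PF.cons (PF.cons (PF.leaf (nat_lit 6867836) (nat_lit 1512064) (nat_lit 40248362) (nat_lit 17788062) [(nat_lit 0), (nat_lit 1512064), (nat_lit 0), (nat_lit 0)]) (PF.cons PF.nil PF.nil)) (PF.cons PF.nil (PF.cons PF.nil PF.nil))))))))) (PF.cons (PF.cons (PF.cons (PF.leaf (nat_lit 4049248) (nat_lit 3192926) (nat_lit 44992761) (nat_lit 18923124) [(nat_lit 0), (nat_lit 0), (nat_lit 3192926), (nat_lit 0)]) (PF.cons (PF.leaf (nat_lit 4256680) (nat_lit 349284) (nat_lit 44685648) (nat_lit 18857474) [(nat_lit 349284),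 (nat_lit 0), (nat_lit 3216405), (nat_lit 0)]) (PF.cons (PF.leaf (nat_lit 4484053) (nat_lit 365818) (nat_lit 44352536) (nat_lit 18784975) [(nat_lit 365818), (nat_lit 0), (nat_lit 3239663), (nat_lit 0)]) (PF.cons (PF.leaf (nat_lit 4727194) (nat_lit 380500) (nat_lit 43998680) (nat_lit 18706512) [(nat_lit 380500), (nat_lit 0), (nat_lit 3262119), (nat_lit 0)]) (PF.cons (PF.leaf (nat_lit 4983645) (nat_lit 393685) (nat_lit 43627937) (nat_lit 18622723) [(nat_lit 393685), (nat_lit 0), (nat_lit 3283408), (nat_lit 0)]) (PF.cons (PF.leaf (nat_lit 5251499) (nat_lit 405617) (nat_lit 43243315) (nat_lit 18534110) [(nat_lit 405617), (nat_lit 0), (nat_lit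
 3303297), (nat_lit 0)]) (PF.cons (PF.leaf (nat_lit 5529180) (nat_lit 416469) (nat_lit 42847263) (nat_lit 18441091) [(nat_lit 416469), (nat_lit 0), (nat_lit 3321642), (nat_lit 0)]) (PF.cons (PF.leaf (nat_lit 5815398) (nat_lit 426371) (nat_lit 42441829) (nat_lit 18344028) [(nat_lit 426371), (nat_lit 0), (nat_lit 3338358), (nat_lit 0)]) (PF.cons PF.nil (PF.cons PF.nil PF.nil)))))))))) (PF.cons (PF.cons (PF.leaf (nat_lit 4653420) (nat_lit 1370596) (nat_lit 43813196) (nat_lit 18661677) [(nat_lit 0), (nat_lit 1370596), (nat_lit 3263342), (nat_lit 0)]) (PF.cons (PF.leaf (nat_lit 4889999) (nat_lit 385461) (nat_lit 43466740) (nat_lit 18582664) [(nat_lit 385461), (nat_lit 1391142), (nat_lit 3282805), (nat_lit 0)]) (PF.cons (PF.leaf (nat_lit 5141494) (nat_lit 398320) (nat_lit 43102205) (nat_lit 18498035) [(nat_lit 398320), (nat_lit 1410588), (nat_lit 3301342), (nat_lit 0)]) (PF.cons (PF.leaf (nat_lit 5405003) (nat_lit 409892) (nat_lit 42723191) (nat_lit 18408443) [(nat_lit 409892),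 (nat_lit 1428819), (nat_lit 3318681), (nat_lit 0)]) (PF.cons (PF.leaf (nat_lit 5678696) (nat_lit 420374) (nat_lit 42332478) (nat_lit 18314395) [(nat_lit 420374), (nat_lit 1445788), (nat_lit 3334652), (nat_lit 0)])
 (PF.cons (PF.leaf (nat_lit 5961118) (nat_lit 429909) (nat_lit 41932303) (nat_lit 18216311) [(nat_lit 429909), (nat_lit 1461495), (nat_lit 3349153), (nat_lit 0)]) (PF.cons (PF.leaf (nat_lit 6251035) (nat_lit 438606) (nat_lit 41524530) (nat_lit 18114557) [(nat_lit 438606), (nat_lit 1475957), (nat_lit 3362131), (nat_lit 0)]) (PF.cons PF.nil (PF.cons PF.nil PF.nil))))))))) (PF.cons (PF.cons (PF.leaf (nat_lit 5300934) (nat_lit 1424635) (nat_lit 42573331) (nat_lit 18369486) [(nat_lit 0), (nat_lit 1424635), (nat_lit 3316724), (nat_lit 0)]) (PF.cons (PF.leaf (nat_lit 5558571) (nat_lit 413441) (nat_lit 42201877) (nat_lit 18279494) [(nat_lit 413441), (nat_lit 1441158), (nat_lit 3331683), (nat_lit 0)]) (PF.cons (PF.leaf (nat_lit 5827571) (nat_lit 423652) (nat_lit 41817979)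 (nat_lit 18184888) [(nat_lit 423652), (nat_lit 1456596), (nat_lit 3345446), (nat_lit 0)]) (PF.cons (PF.leaf (nat_lit 6105700) (nat_lit 432896) (nat_lit 41424222) (nat_lit 18086182) [(nat_lit 432896), (nat_lit 1470913), (nat_lit 3357890), (nat_lit 0)]) (PF.cons (PF.leaf (nat_lit 6391581) (nat_lit 441296) (nat_lit 41022670) (nat_lit 17983799) [(nat_lit 441296), (nat_lit 1484105), (nat_lit 3368946), (nat_lit 0)]) (PF.cons
 PF.nil (PF.cons PF.nil PF.nil))))))) (PF.cons (PF.cons (PF.leaf (nat_lit 5977020) (nat_lit 1466185) (nat_lit 41303504) (nat_lit 18052566) [(nat_lit 0), (nat_lit 1466185), (nat_lit 3354184), (nat_lit 0)]) (PF.cons (PF.leaf (nat_lit 6249735) (nat_lit 435338) (nat_lit 40917467) (nat_lit 17953686) [(nat_lit 435338), (nat_lit 1479202), (nat_lit 3364713), (nat_lit 0)]) (PF.cons (PF.leaf (nat_lit 6531099) (nat_lit 443505) (nat_lit 40523142) (nat_lit 17851050) [(nat_lit 443505), (nat_lit 1491207), (nat_lit 3373984), (nat_lit 0)]) (PF.cons (PF.leaf (nat_lit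 6819350) (nat_lit 450911) (nat_lit 40122441) (nat_lit 17745081) [(nat_lit 450911), (nat_lit 1502201), (nat_lit 3381952), (nat_lit 0)]) (PF.cons PF.nil PF.nil))))) (PF.cons (PF.cons (PF.leaf (nat_lit 6670505) (nat_lit 1497341) (nat_lit 40025747) (nat_lit 17716337) [(nat_lit 0), (nat_lit 1497341), (nat_lit 3377360), (nat_lit 0)]) (PF.cons (PF.leaf (nat_lit 6953639) (nat_lit 452454) (nat_lit 39632872) (nat_lit 17610448) [(nat_lit 452454), (nat_lit 1507314), (nat_lit 3383779), (nat_lit 0)]) (PF.cons PF.nil (PF.cons PF.nil PF.nil)))) (PF.cons (PF.cons (PF.leaf (nat_lit 7372725) (nat_lit 1519764) (nat_lit 38756272) (nat_lit 17365698)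
 [(nat_lit 0), (nat_lit 1519764), (nat_lit 3388020), (nat_lit 0)]) (PF.cons PF.nil PF.nil)) (PF.cons PF.nil (PF.cons PF.nil PF.nil)))))))) (PF.cons (PF.cons (PF.cons (PF.leaf (nat_lit 5170150) (nat_lit 3298915) (nat_lit 42236782) (nat_lit 18274198) [(nat_lit 0), (nat_lit 0), (nat_lit 3298915), (nat_lit 0)]) (PF.cons (PF.leaf (nat_lit 5409812) (nat_lit 398529) (nat_lit 41893651) (nat_lit 18190071) [(nat_lit 398529), (nat_lit 0), (nat_lit 3313280), (nat_lit 0)]) (PF.cons (PF.leaf (nat_lit 5663473) (nat_lit 410330) (nat_lit 41534151) (nat_lit 18100549) [(nat_lit 410330), (nat_lit 0), (nat_lit 3326725), (nat_lit 0)]) (PF.cons (PF.leaf (nat_lit 5928164) (nat_lit 420843) (nat_lit 41161824) (nat_lit 18006358) [(nat_lit 420843), (nat_lit 0), (nat_lit 3339049), (nat_lit 0)]) (PF.cons (PF.leaf (nat_lit 6202119) (nat_lit 430282) (nat_lit 40779360) (nat_lit 17908058) [(nat_lit 430282), (nat_lit 0), (nat_lit 3350130), (nat_lit 0)]) (PF.cons (PF.leaf (nat_lit 6483919) (nat_lit 438802)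 (nat_lit 40388897) (nat_lit 17806104) [(nat_lit 438802), (nat_lit 0), (nat_lit 3359899), (nat_lit 0)]) (PF.cons PF.nil PF.nil))))))) (PF.cons (PF.cons (PF.leaf (nat_lit 5816241) (nat_lit 1448806) (nat_lit 41021061)
 (nat_lit 17967416) [(nat_lit 0), (nat_lit 1448806), (nat_lit 3335763), (nat_lit 0)]) (PF.cons (PF.leaf (nat_lit 6074667) (nat_lit 423192) (nat_lit 40657385) (nat_lit 17873449) [(nat_lit 423192), (nat_lit 1462454), (nat_lit 3346165), (nat_lit 0)]) (PF.cons (PF.leaf (nat_lit 6343582) (nat_lit 432452) (nat_lit 40282708) (nat_lit 17775183) [(nat_lit 432452), (nat_lit 1475097), (nat_lit 3355459), (nat_lit 0)]) (PF.cons (PF.leaf (nat_lit 6620805) (nat_lit 440762) (nat_lit 39899519) (nat_lit 17673168) [(nat_lit 440762), (nat_lit 1486714), (nat_lit 3363562), (nat_lit 0)]) (PF.cons (PF.leaf (nat_lit 6904993) (nat_lit 448252) (nat_lit 39509776) (nat_lit 17567852) [(nat_lit 448252), (nat_lit 1497314), (nat_lit 3370428), (nat_lit 0)]) PF.nil))))) (PF.cons (PF.cons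 (PF.leaf (nat_lit 6485745) (nat_lit 1481679) (nat_lit 39787119) (nat_lit 17640099) [(nat_lit 0), (nat_lit 1481679), (nat_lit 3359117), (nat_lit 0)]) (PF.cons (PF.leaf (nat_lit 6757291) (nat_lit 442247) (nat_lit 39412332) (nat_lit 17538442) [(nat_lit 442247), (nat_lit 1492224), (nat_lit 3365671), (nat_lit 0)]) (PF.cons (PF.leaf (nat_lit 7036761) (nat_lit 449574) (nat_lit 39030412) (nat_lit 17433377) [(nat_lit 449574), (nat_lit
 1501844), (nat_lit 3371092), (nat_lit 0)]) (PF.cons PF.nil PF.nil)))) (PF.cons (PF.cons (PF.leaf (nat_lit 7168610) (nat_lit 1505580) (nat_lit 38553812) (nat_lit 17297453) [(nat_lit 0), (nat_lit 1505580), (nat_lit 3370402), (nat_lit 0)]) (PF.cons (PF.leaf (nat_lit 7449017) (nat_lit 456936) (nat_lit 38174778) (nat_lit 17189946) [(nat_lit 456936), (nat_lit 1513440), (nat_lit 3373414), (nat_lit 0)]) PF.nil)) (PF.cons PF.nil (PF.cons PF.nil PF.nil)))))) (PF.cons (PF.cons (PF.cons (PF.leaf (nat_lit 6315741) (nat_lit 3340544) (nat_lit 39528902) (nat_lit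 17558277) [(nat_lit 0), (nat_lit 0), (nat_lit 3340544), (nat_lit 0)]) (PF.cons (PF.leaf (nat_lit 6573799) (nat_lit 430437) (nat_lit 39175141) (nat_lit 17461657) [(nat_lit 430437), (nat_lit 0), (nat_lit 3347192), (nat_lit 0)]) (PF.cons (PF.leaf (nat_lit 6841611) (nat_lit 438859) (nat_lit 38811610) (nat_lit 17361046) [(nat_lit 438859), (nat_lit 0), (nat_lit 3352812), (nat_lit 0)]) (PF.cons (PF.leaf (nat_lit 7117012) (nat_lit 446352) (nat_lit 38440689) (nat_lit 17257019) [(nat_lit 446352), (nat_lit 0), (nat_lit 3357349), (nat_lit 0)]) (PF.cons PF.nil PF.nil))))) (PF.cons (PF.cons (PF.leaf (nat_lit 6976647) (nat_lit 1490482) (nat_lit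
 38336311) (nat_lit 17224804) [(nat_lit 0), (nat_lit 1490482), (nat_lit 3352404), (nat_lit 0)]) (PF.cons (PF.leaf (nat_lit 7246224) (nat_lit 447050) (nat_lit 37974176) (nat_lit 17121569) [(nat_lit 447050), (nat_lit 1498945), (nat_lit 3355690), (nat_lit 0)]) (PF.cons (PF.leaf (nat_lit 7523066) (nat_lit 453642) (nat_lit 37605865) (nat_lit 17015248) [(nat_lit 453642), (nat_lit 1506559), (nat_lit 3357951), (nat_lit 0)]) (PF.cons PF.nil PF.nil)))) (PF.cons (PF.cons (PF.leaf (nat_lit 7647662) (nat_lit 1508343) (nat_lit 37150650) (nat_lit 16879430) [(nat_lit 0), (nat_lit 1508343), (nat_lit 3354015), (nat_lit 0)]) (PF.cons PF.nil PF.nil)) (PF.cons PF.nil (PF.cons PF.nil PF.nil))))) (PF.cons (PF.cons (PF.cons (PF.leaf (nat_lit 7449909) (nat_lit 3336448) (nat_lit 36952448) (nat_lit 16810568) [(nat_lit 0), (nat_lit 0), (nat_lit 3336448), (nat_lit 0)]) (PF.cons (PF.leaf (nat_lit 7716834) (nat_lit 450110) (nat_lit 36603790) (nat_lit 16706741) [(nat_lit 450110), (nat_lit 0), (nat_lit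 3337042), (nat_lit 0)]) (PF.cons PF.nil (PF.cons PF.nil PF.nil)))) (PF.cons (PF.cons (PF.leaf (nat_lit 8108217) (nat_lit 1506667) (nat_lit 35815971) (nat_lit 16465442) [(nat_lit 0), (nat_lit 1506667), (nat_lit
 3330182), (nat_lit 0)]) (PF.cons PF.nil PF.nil)) (PF.cons PF.nil PF.nil))) (PF.cons (PF.cons (PF.cons (PF.leaf (nat_lit 8550990) (nat_lit 3300502) (nat_lit 34548378) (nat_lit 16057922) [(nat_lit 0), (nat_lit 0), (nat_lit 3300502), (nat_lit 0)]) (PF.cons PF.nil PF.nil)) (PF.cons PF.nil PF.nil)) (PF.cons PF.nil (PF.cons PF.nil PF.nil)))))))) (PF.cons (PF.cons (PF.cons (PF.cons (PF.leaf (nat_lit 4924916) (nat_lit 8518350) (nat_lit 40777402) (nat_lit 17813059) [(nat_lit 0), (nat_lit 0), (nat_lit 0), (nat_lit 8518350)]) (PF.cons (PF.leaf (nat_lit 5130068) (nat_lit 357208) (nat_lit 40500018) (nat_lit 17742848) [(nat_lit 357208), (nat_lit 0), (nat_lit 0), (nat_lit 8508737)]) (PF.cons (PF.leaf (nat_lit 5353790) (nat_lit 372635) (nat_lit 40200329) (nat_lit 17666028)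 [(nat_lit 372635), (nat_lit 0), (nat_lit 0), (nat_lit 8497185)]) (PF.cons (PF.leaf (nat_lit 5591878) (nat_lit 386094) (nat_lit 39883181) (nat_lit 17583660) [(nat_lit 386094), (nat_lit 0), (nat_lit 0), (nat_lit 8483687)]) (PF.cons (PF.leaf (nat_lit 5841873) (nat_lit 397990) (nat_lit 39552096) (nat_lit 17496508) [(nat_lit 397990), (nat_lit 0), (nat_lit 0), (nat_lit 8468246)]) (PF.cons (PF.leaf (nat_lit 6101899) (nat_lit 408597)
 (nat_lit 39209785) (nat_lit 17405165) [(nat_lit 408597), (nat_lit 0), (nat_lit 0), (nat_lit 8450876)]) (PF.cons (PF.leaf (nat_lit 6370468) (nat_lit 418112) (nat_lit 38858420) (nat_lit 17310111) [(nat_lit 418112), (nat_lit 0), (nat_lit 0), (nat_lit 8431603)]) (PF.cons (PF.leaf (nat_lit 6646287) (nat_lit 426685) (nat_lit 38499792) (nat_lit 17211754) [(nat_lit 426685), (nat_lit 0), (nat_lit 0), (nat_lit 8410465)]) (PF.cons PF.nil (PF.cons PF.nil PF.nil)))))))))) (PF.cons (PF.cons (PF.leaf (nat_lit 5509717) (nat_lit 1376675) (nat_lit 39721976) (nat_lit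 17538634) [(nat_lit 0), (nat_lit 1376675), (nat_lit 0), (nat_lit 8471526)]) (PF.cons (PF.leaf (nat_lit 5740618) (nat_lit 389283) (nat_lit 39412869) (nat_lit 17456772) [(nat_lit 389283), (nat_lit 1393270), (nat_lit 0), (nat_lit 8456617)]) (PF.cons (PF.leaf (nat_lit 5985118) (nat_lit 400942) (nat_lit 39088647) (nat_lit 17369812) [(nat_lit 400942), (nat_lit 1408726), (nat_lit 0), (nat_lit 8439741)]) (PF.cons (PF.leaf (nat_lit 6240365) (nat_lit 411279) (nat_lit 38752545) (nat_lit 17278494) [(nat_lit 411279), (nat_lit 1422988), (nat_lit 0), (nat_lit 8420946)]) (PF.cons (PF.leaf (nat_lit 6504553) (nat_lit 420513) (nat_lit 38407032) (nat_lit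
 17183389) [(nat_lit 420513), (nat_lit 1436058), (nat_lit 0), (nat_lit 8400279)]) (PF.cons (PF.leaf (nat_lit 6776301) (nat_lit 428805) (nat_lit 38054070) (nat_lit 17084955) [(nat_lit 428805), (nat_lit 1447963), (nat_lit 0), (nat_lit 8377795)]) (PF.cons (PF.leaf (nat_lit 7054448) (nat_lit 436277) (nat_lit 37695267) (nat_lit 16983580) [(nat_lit 436277), (nat_lit 1458748), (nat_lit 0), (nat_lit 8353550)]) (PF.cons PF.nil (PF.cons PF.nil PF.nil))))))))) (PF.cons (PF.cons (PF.leaf (nat_lit 6130010) (nat_lit 1417763) (nat_lit 38623844) (nat_lit 17240538) [(nat_lit 0), (nat_lit 1417763), (nat_lit 0), (nat_lit 8408902)]) (PF.cons (PF.leaf (nat_lit 6379026) (nat_lit 413345) (nat_lit 38295498) (nat_lit 17149759) [(nat_lit 413345), (nat_lit 1430653), (nat_lit 0), (nat_lit 8388901)]) (PF.cons (PF.leaf (nat_lit 6638240) (nat_lit 422391) (nat_lit 37956978) (nat_lit 17055004) [(nat_lit 422391), (nat_lit 1442506), (nat_lit 0), (nat_lit 8367033)]) (PF.cons (PF.leaf (nat_lit 6905488)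 (nat_lit 430474) (nat_lit 37610553) (nat_lit 16956823) [(nat_lit 430474), (nat_lit 1453319), (nat_lit 0), (nat_lit 8343373)]) (PF.cons (PF.leaf (nat_lit 7179457) (nat_lit 437728) (nat_lit 37258015) (nat_lit 16855660)
 [(nat_lit 437728), (nat_lit 1463115), (nat_lit 0), (nat_lit 8317993)]) (PF.cons PF.nil (PF.cons PF.nil PF.nil))))))) (PF.cons (PF.cons (PF.leaf (nat_lit 6772704) (nat_lit 1448035) (nat_lit 37507890) (nat_lit 16924900) [(nat_lit 0), (nat_lit 1448035), (nat_lit 0), (nat_lit 8331914)]) (PF.cons (PF.leaf (nat_lit 7034373) (nat_lit 431690) (nat_lit 37169013) (nat_lit 16827349) [(nat_lit 431690), (nat_lit 1457831), (nat_lit 0), (nat_lit 8307263)]) (PF.cons (PF.leaf (nat_lit 7303742) (nat_lit 438786) (nat_lit 36823500) (nat_lit 16726703) [(nat_lit 438786), (nat_lit 1466707), (nat_lit 0), (nat_lit 8280911)]) (PF.cons (PF.leaf (nat_lit 7579093) (nat_lit 445144) (nat_lit 36472996) (nat_lit 16623389) [(nat_lit 445144), (nat_lit 1474681), (nat_lit 0), (nat_lit 8252948)])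 (PF.cons PF.nil PF.nil))))) (PF.cons (PF.cons (PF.leaf (nat_lit 7428259) (nat_lit 1469582) (nat_lit 36391444) (nat_lit 16596683) [(nat_lit 0), (nat_lit 1469582), (nat_lit 0), (nat_lit 8242356)]) (PF.cons (PF.leaf (nat_lit 7698496) (nat_lit 445687) (nat_lit 36048303) (nat_lit 16494115) [(nat_lit 445687), (nat_lit 1476774), (nat_lit 0), (nat_lit 8213609)]) (PF.cons PF.nil (PF.cons PF.nil PF.nil)))) (PF.cons (PF.cons (PF.leaf
 (nat_lit 8089469) (nat_lit 1483966) (nat_lit 35286829) (nat_lit 16260022) [(nat_lit 0), (nat_lit 1483966), (nat_lit 0), (nat_lit 8142129)]) (PF.cons PF.nil PF.nil)) PF.nil)))))) (PF.cons (PF.cons (PF.cons (PF.leaf (nat_lit 5987791) (nat_lit 3242317) (nat_lit 38341984) (nat_lit 17151171) [(nat_lit 0), (nat_lit 0), (nat_lit 3242317), (nat_lit 8373339)]) (PF.cons (PF.leaf (nat_lit 6220163) (nat_lit 398443) (nat_lit 38038455) (nat_lit 17066619) [(nat_lit 398443), (nat_lit 0), (nat_lit 3250787), (nat_lit 8354507)]) (PF.cons (PF.leaf (nat_lit 6465332)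 (nat_lit 409159) (nat_lit 37721189) (nat_lit 16977227) [(nat_lit 409159), (nat_lit 0), (nat_lit 3258354), (nat_lit 8333723)]) (PF.cons (PF.leaf (nat_lit 6720446) (nat_lit 418573) (nat_lit 37393326) (nat_lit 16883771) [(nat_lit 418573), (nat_lit 0), (nat_lit 3264900), (nat_lit 8311093)]) (PF.cons (PF.leaf (nat_lit 6983746) (nat_lit 426917) (nat_lit 37057232) (nat_lit 16786840) [(nat_lit 426917), (nat_lit 0), (nat_lit 3270361), (nat_lit 8286707)]) (PF.cons (PF.leaf (nat_lit 7253895) (nat_lit 434357) (nat_lit 36714763) (nat_lit 16686904) [(nat_lit 434357), (nat_lit 0), (nat_lit 3274711), (nat_lit 8260647)]) (PF.cons PF.nil PF.nil)))))))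
 (PF.cons (PF.cons (PF.leaf (nat_lit 6603949) (nat_lit 1430646) (nat_lit 37272985) (nat_lit 16846653) [(nat_lit 0), (nat_lit 1430646), (nat_lit 3260207), (nat_lit 8298319)]) (PF.cons (PF.leaf (nat_lit 6852616) (nat_lit 419721) (nat_lit 36953462) (nat_lit 16754159) [(nat_lit 419721), (nat_lit 1441264), (nat_lit 3265363), (nat_lit 8274841)]) (PF.cons (PF.leaf (nat_lit 7110758) (nat_lit 427955) (nat_lit 36624865) (nat_lit 16657975) [(nat_lit 427955), (nat_lit 1450928), (nat_lit 3269540), (nat_lit 8249592)]) (PF.cons (PF.leaf (nat_lit 7376263) (nat_lit 435253) (nat_lit 36289362) (nat_lit 16558664) [(nat_lit 435253), (nat_lit 1459648), (nat_lit 3272696), (nat_lit 8222679)]) (PF.cons (PF.leaf (nat_lit 7647850) (nat_lit 441755) (nat_lit 35948645) (nat_lit 16456674) [(nat_lit 441755), (nat_lit 1467449), (nat_lit 3274821), (nat_lit 8194200)]) PF.nil))))) (PF.cons (PF.cons (PF.leaf (nat_lit 7238684) (nat_lit 1454270) (nat_lit 36194024) (nat_lit 16527792) [(nat_lit 0), (nat_lit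 1454270), (nat_lit 3267520), (nat_lit 8210934)]) (PF.cons (PF.leaf (nat_lit 7498508) (nat_lit 435753) (nat_lit 35866378) (nat_lit 16429454) [(nat_lit 435753), (nat_lit 1462153), (nat_lit 3269579), (nat_lit 8183340)])
 (PF.cons (PF.leaf (nat_lit 7765402) (nat_lit 442153) (nat_lit 35532943) (nat_lit 16328303) [(nat_lit 442153), (nat_lit 1469196), (nat_lit 3270683), (nat_lit 8154182)]) (PF.cons PF.nil PF.nil)))) (PF.cons (PF.cons (PF.leaf (nat_lit 7883350) (nat_lit 1470353) (nat_lit 35119994) (nat_lit 16199196) [(nat_lit 0), (nat_lit 1470353), (nat_lit 3265589), (nat_lit 8112972)]) (PF.cons (PF.leaf (nat_lit 8150537) (nat_lit 447817) (nat_lit 34789800) (nat_lit 16096685) [(nat_lit 447817), (nat_lit 1475935), (nat_lit 3264863), (nat_lit 8081837)]) PF.nil)) (PF.cons PF.nil PF.nil))))) (PF.cons (PF.cons (PF.cons (PF.leaf (nat_lit 7063206) (nat_lit 3248931) (nat_lit 35979422) (nat_lit 16453588) [(nat_lit 0), (nat_lit 0), (nat_lit 3248931), (nat_lit 8177938)]) (PF.cons (PF.leaf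 (nat_lit 7310707) (nat_lit 424230) (nat_lit 35669863) (nat_lit 16360256) [(nat_lit 424230), (nat_lit 0), (nat_lit 3251382), (nat_lit 8151697)]) (PF.cons (PF.leaf (nat_lit 7567098) (nat_lit 431750) (nat_lit 35352174) (nat_lit 16263501) [(nat_lit 431750), (nat_lit 0), (nat_lit 3252925), (nat_lit 8123784)]) (PF.cons (PF.leaf (nat_lit 7830272) (nat_lit 438362) (nat_lit 35028415) (nat_lit 16163895) [(nat_lit 438362), (nat_lit 0),
 (nat_lit 3253541), (nat_lit 8094333)]) (PF.cons PF.nil PF.nil))))) (PF.cons (PF.cons (PF.leaf (nat_lit 7688742) (nat_lit 1455790) (nat_lit 34939992) (nat_lit 16134208) [(nat_lit 0), (nat_lit 1455790), (nat_lit 3248158), (nat_lit 8082504)]) (PF.cons (PF.leaf (nat_lit 7946162) (nat_lit 438272) (nat_lit 34624217) (nat_lit 16035846) [(nat_lit 438272), (nat_lit 1462058), (nat_lit 3247893), (nat_lit 8052630)]) (PF.cons (PF.leaf (nat_lit 8210154) (nat_lit 444061) (nat_lit 34303359) (nat_lit 15934928) [(nat_lit 444061), (nat_lit 1467557), (nat_lit 3246763),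 (nat_lit 8021318)]) (PF.cons PF.nil PF.nil)))) (PF.cons (PF.cons (PF.leaf (nat_lit 8321839) (nat_lit 1467314) (nat_lit 33909445) (nat_lit 15807497) [(nat_lit 0), (nat_lit 1467314), (nat_lit 3239508), (nat_lit 7978223)]) (PF.cons PF.nil PF.nil)) PF.nil))) (PF.cons (PF.cons (PF.cons (PF.leaf (nat_lit 8123261) (nat_lit 3222775) (nat_lit 33745238) (nat_lit 15746362) [(nat_lit 0), (nat_lit 0), (nat_lit 3222775), (nat_lit 7948885)]) (PF.cons (PF.leaf (nat_lit 8377829) (nat_lit 439511) (nat_lit 33441633) (nat_lit 15648590) [(nat_lit 439511), (nat_lit 0), (nat_lit 3220597), (nat_lit 7917284)]) (PF.cons PF.nil PF.nil))) (PF.cons (PF.cons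
 (PF.leaf (nat_lit 8744329) (nat_lit 1461190) (nat_lit 32758300) (nat_lit 15423320) [(nat_lit 0), (nat_lit 1461190), (nat_lit 3208664), (nat_lit 7840006)]) PF.nil) PF.nil)) (PF.cons PF.nil (PF.cons PF.nil PF.nil)))))) (PF.cons (PF.cons (PF.cons (PF.cons (PF.leaf (nat_lit 6718845) (nat_lit 8005766) (nat_lit 35003226) (nat_lit 16094053) [(nat_lit 0), (nat_lit 0), (nat_lit 0), (nat_lit 8005766)]) (PF.cons (PF.leaf (nat_lit 6943315) (nat_lit 393993) (nat_lit 34735704) (nat_lit 16012401) [(nat_lit 393993), (nat_lit 0), (nat_lit 0), (nat_lit 7983357)]) (PF.cons (PF.leaf (nat_lit 7179627) (nat_lit 403810) (nat_lit 34456503) (nat_lit 15926421) [(nat_lit 403810), (nat_lit 0), (nat_lit 0), (nat_lit 7959133)]) (PF.cons (PF.leaf (nat_lit 7424965) (nat_lit 412338) (nat_lit 34168388) (nat_lit 15836885) [(nat_lit 412338), (nat_lit 0), (nat_lit 0), (nat_lit 7933262)]) (PF.cons (PF.leaf (nat_lit 7677687) (nat_lit 419815) (nat_lit 33873424) (nat_lit 15744375) [(nat_lit 419815), (nat_lit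 0), (nat_lit 0), (nat_lit 7905876)]) (PF.cons (PF.leaf (nat_lit 7936502) (nat_lit 426413) (nat_lit 33573221) (nat_lit 15649348) [(nat_lit 426413), (nat_lit 0), (nat_lit 0), (nat_lit 7877086)]) (PF.cons PF.nil
 PF.nil))))))) (PF.cons (PF.cons (PF.leaf (nat_lit 7306203) (nat_lit 1400544) (nat_lit 34065444) (nat_lit 15802492) [(nat_lit 0), (nat_lit 1400544), (nat_lit 0), (nat_lit 7920165)]) (PF.cons (PF.leaf (nat_lit 7545100) (nat_lit 412661) (nat_lit 33785013) (nat_lit 15714298) [(nat_lit 412661), (nat_lit 1408981), (nat_lit 0), (nat_lit 7893929)]) (PF.cons (PF.leaf (nat_lit 7792691) (nat_lit 420082) (nat_lit 33496942) (nat_lit 15622903) [(nat_lit 420082), (nat_lit 1416522), (nat_lit 0), (nat_lit 7866139)]) (PF.cons (PF.leaf (nat_lit 8046918) (nat_lit 426591) (nat_lit 33203117) (nat_lit 15528853) [(nat_lit 426591), (nat_lit 1423193), (nat_lit 0), (nat_lit 7836936)]) (PF.cons PF.nil PF.nil))))) (PF.cons (PF.cons (PF.leaf (nat_lit 7908822) (nat_lit 1417732) (nat_lit 33122020)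 (nat_lit 15500638) [(nat_lit 0), (nat_lit 1417732), (nat_lit 0), (nat_lit 7825344)]) (PF.cons (PF.leaf (nat_lit 8157449) (nat_lit 426430) (nat_lit 32835297) (nat_lit 15407861) [(nat_lit 426430), (nat_lit 1423740), (nat_lit 0), (nat_lit 7795871)]) (PF.cons (PF.leaf (nat_lit 8412529) (nat_lit 432116) (nat_lit 32543733) (nat_lit 15312713) [(nat_lit 432116), (nat_lit 1428983), (nat_lit 0), (nat_lit 7765083)]) (PF.cons
 PF.nil PF.nil)))) (PF.cons (PF.cons (PF.leaf (nat_lit 8519131) (nat_lit 1428484) (nat_lit 32184961) (nat_lit 15192509) [(nat_lit 0), (nat_lit 1428484), (nat_lit 0), (nat_lit 7722944)]) (PF.cons PF.nil PF.nil)) (PF.cons PF.nil PF.nil))))) (PF.cons (PF.cons (PF.cons (PF.leaf (nat_lit 7731166) (nat_lit 3142986) (nat_lit 32942769) (nat_lit 15434411) [(nat_lit 0), (nat_lit 0), (nat_lit 3142986), (nat_lit 7794322)]) (PF.cons (PF.leaf (nat_lit 7968480) (nat_lit 415336) (nat_lit 32671576) (nat_lit 15346386) [(nat_lit 415336), (nat_lit 0), (nat_lit 3142757), (nat_lit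 7766377)]) (PF.cons (PF.leaf (nat_lit 8214002) (nat_lit 422140) (nat_lit 32393482) (nat_lit 15255391) [(nat_lit 422140), (nat_lit 0), (nat_lit 3141719), (nat_lit 7736969)]) (PF.cons (PF.leaf (nat_lit 8465675) (nat_lit 428063) (nat_lit 32110275) (nat_lit 15161966) [(nat_lit 428063), (nat_lit 0), (nat_lit 3139878), (nat_lit 7706251)]) (PF.cons PF.nil PF.nil))))) (PF.cons (PF.cons (PF.leaf (nat_lit 8324591) (nat_lit 1414696) (nat_lit 32035040) (nat_lit 15135030) [(nat_lit 0), (nat_lit 1414696), (nat_lit 3134408), (nat_lit 7694818)]) (PF.cons (PF.leaf (nat_lit 8570650) (nat_lit 427451) (nat_lit 31758936) (nat_lit 15043047)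
 [(nat_lit 427451), (nat_lit 1419422), (nat_lit 3131938), (nat_lit 7664008)]) (PF.cons PF.nil (PF.cons PF.nil PF.nil)))) (PF.cons (PF.cons (PF.leaf (nat_lit 8923921) (nat_lit 1421925) (nat_lit 31136266) (nat_lit 14831087) [(nat_lit 0), (nat_lit 1421925), (nat_lit 3119626), (nat_lit 7588990)]) (PF.cons PF.nil PF.nil)) PF.nil))) (PF.cons (PF.cons (PF.cons (PF.leaf (nat_lit 8726674) (nat_lit 3104015) (nat_lit 30999234) (nat_lit 14777223) [(nat_lit 0), (nat_lit 0), (nat_lit 3104015), (nat_lit 7562161)]) (PF.cons (PF.leaf (nat_lit 8969852) (nat_lit 427510) (nat_lit 30733799) (nat_lit 14686420) [(nat_lit 427510), (nat_lit 0), (nat_lit 3100153), (nat_lit 7530388)]) PF.nil)) (PF.cons PF.nil PF.nil)) (PF.cons PF.nil (PF.cons PF.nil PF.nil))))) (PF.cons (PF.cons (PF.cons (PF.cons (PF.leaf (nat_lit 8335029) (nat_lit 7424065) (nat_lit 30331288) (nat_lit 14505327) [(nat_lit 0), (nat_lit 0), (nat_lit 0), (nat_lit 7424065)]) (PF.cons (PF.leaf (nat_lit 8562719) (nat_lit 405036) (nat_lit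 30092860) (nat_lit 14423346) [(nat_lit 405036), (nat_lit 0), (nat_lit 0), (nat_lit 7395856)]) (PF.cons (PF.leaf (nat_lit 8798069) (nat_lit 411256) (nat_lit 29848484) (nat_lit 14338756) [(nat_lit 411256), (nat_lit
 0), (nat_lit 0), (nat_lit 7366352)]) (PF.cons PF.nil PF.nil)))) (PF.cons (PF.cons (PF.leaf (nat_lit 8899442) (nat_lit 1370899) (nat_lit 29535325) (nat_lit 14227800) [(nat_lit 0), (nat_lit 1370899), (nat_lit 0), (nat_lit 7324929)]) (PF.cons (PF.leaf (nat_lit 9134974) (nat_lit 415669) (nat_lit 29292823) (nat_lit 14142606) [(nat_lit 415669), (nat_lit 1374519), (nat_lit 0), (nat_lit 7294398)]) PF.nil)) (PF.cons PF.nil PF.nil))) (PF.cons (PF.cons (PF.cons (PF.leaf (nat_lit 9274059) (nat_lit 2985808) (nat_lit 28632353) (nat_lit 13900060) [(nat_lit 0), (nat_lit 0), (nat_lit 2985808), (nat_lit 7196863)]) (PF.cons PF.nil PF.nil)) (PF.cons PF.nil PF.nil)) (PF.cons PF.nil PF.nil))) (PF.cons (PF.cons (PF.cons (PF.cons (PF.leaf (nat_lit 9775779) (nat_lit 6855840) (nat_lit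 26577781) (nat_lit 13107669) [(nat_lit 0), (nat_lit 0), (nat_lit 0), (nat_lit 6855840)]) (PF.cons PF.nil PF.nil)) (PF.cons PF.nil PF.nil)) (PF.cons PF.nil PF.nil)) (PF.cons PF.nil (PF.cons PF.nil (PF.cons PF.nil PF.nil))))))))

def p15_21_3_0 : pfC (piC [(nat_lit 39120232), (nat_lit 25510466), (nat_lit 18971201), (nat_lit 12765436)] (nat_lit 4992266)) p15_21_3 (nat_lit 4) (nat_lit 0) (nat_lit 1) = true := by decide +kernel
def p15_21_3_1 : pfC (piC [(nat_lit 39120232), (nat_lit 25510466), (nat_lit 18971201), (nat_lit 12765436)] (nat_lit 4992266)) p15_21_3 (nat_lit 4) (nat_lit 1) (nat_lit 2) = true := by decide +kernel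
def p15_21_3_2 : pfC (piC [(nat_lit 39120232), (nat_lit 25510466), (nat_lit 18971201), (nat_lit 12765436)] (nat_lit 4992266)) p15_21_3 (nat_lit 4) (nat_lit 2) (nat_lit 3) = true := by decide +kernel
def p15_21_3_3 : pfC (piC [(nat_lit 39120232), (nat_lit 25510466), (nat_lit 18971201), (nat_lit 12765436)] (nat_lit 4992266)) p15_21_3 (nat_lit 4) (nat_lit 3) (nat_lit 4) = true := by decide +kernel
def p15_21_3_4 : pfC (piC [(nat_lit 39120232), (nat_lit 25510466), (nat_lit 18971201), (nat_lit 12765436)] (nat_lit 4992266)) p15_21_3 (nat_lit 4) (nat_lit 4) (nat_lit 5) = true := by decide +kernel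
def p15_21_3_5 : pfC (piC [(nat_lit 39120232), (nat_lit 25510466), (nat_lit 18971201), (nat_lit 12765436)] (nat_lit 4992266)) p15_21_3 (nat_lit 4) (nat_lit 5) (nat_lit 6) = true := by decide +kernel
def p15_21_3_6 : pfC (piC [(nat_lit 39120232), (nat_lit 25510466), (nat_lit 18971201), (nat_lit 12765436)] (nat_lit 4992266)) p15_21_3 (nat_lit 4) (nat_lit 6) (nat_lit 7) = true := by decide +kernel
def p15_21_3_7 : pfC (piC [(nat_lit 39120232), (nat_lit 25510466), (nat_lit 18971201), (nat_lit 12765436)] (nat_lit 4992266)) p15_21_3 (nat_lit 4) (nat_lit 7) (nat_lit 8) = true := by decide +kernel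
def p15_21_3_8 : pfC (piC [(nat_lit 39120232), (nat_lit 25510466), (nat_lit 18971201), (nat_lit 12765436)] (nat_lit 4992266)) p15_21_3 (nat_lit 4) (nat_lit 8) (nat_lit 9) = true := by decide +kernel
def p15_21_3_9 : pfC (piC [(nat_lit 39120232), (nat_lit 25510466), (nat_lit 18971201), (nat_lit 12765436)] (nat_lit 4992266)) p15_21_3 (nat_lit 4) (nat_lit 9) (nat_lit 10) = true := by decide +kernel
def p15_21_3_10 : pfC (piC [(nat_lit 39120232), (nat_lit 25510466), (nat_lit 18971201), (nat_lit 12765436)] (nat_lit 4992266)) p15_21_3 (nat_lit 4) (nat_lit 10) (nat_lit 11) = true := by decide +kernel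
def p15_21_3_11 : pfC (piC [(nat_lit 39120232), (nat_lit 25510466), (nat_lit 18971201), (nat_lit 12765436)] (nat_lit 4992266)) p15_21_3 (nat_lit 4) (nat_lit 11) (nat_lit 12) = true := by decide +kernel
def p15_21_3_12 : pfC (piC [(nat_lit 39120232), (nat_lit 25510466), (nat_lit 18971201), (nat_lit 12765436)] (nat_lit 4992266)) p15_21_3 (nat_lit 4) (nat_lit 12) (nat_lit 13) = true := by decide +kernel
def p15_21_3_13 : pfC (piC [(nat_lit 39120232), (nat_lit 25510466), (nat_lit 18971201), (nat_lit 12765436)] (nat_lit 4992266)) p15_21_3 (nat_lit 4) (nat_lit 13) (nat_lit 14) = true := by decide +kernel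
def p15_21_3_14 : pfC (piC [(nat_lit 39120232), (nat_lit 25510466), (nat_lit 18971201), (nat_lit 12765436)] (nat_lit 4992266)) p15_21_3 (nat_lit 4) (nat_lit 14) (nat_lit 15) = true := by decide +kernel
def p15_21_3_15 : pfC (piC [(nat_lit 39120232), (nat_lit 25510466), (nat_lit 18971201), (nat_lit 12765436)] (nat_lit 4992266)) p15_21_3 (nat_lit 4) (nat_lit 15) (nat_lit 16) = true := by decide +kernel
def p15_21_3_16 : pfC (piC [(nat_lit 39120232), (nat_lit 25510466), (nat_lit 18971201), (nat_lit 12765436)] (nat_lit 4992266)) p15_21_3 (nat_lit 4) (nat_lit 16) (nat_lit 17) = true := by decide +kernel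
def p15_21_3_17 : pfC (piC [(nat_lit 39120232), (nat_lit 25510466), (nat_lit 18971201), (nat_lit 12765436)] (nat_lit 4992266)) p15_21_3 (nat_lit 4) (nat_lit 17) (nat_lit 18) = true := by decide +kernel
def p15_21_3_18 : pfC (piC [(nat_lit 39120232), (nat_lit 25510466), (nat_lit 18971201), (nat_lit 12765436)] (nat_lit 4992266)) p15_21_3 (nat_lit 4) (nat_lit 18) (nat_lit 19) = true := by decide +kernel
def p15_21_3_19 : pfC (piC [(nat_lit 39120232), (nat_lit 25510466), (nat_lit 18971201), (nat_lit 12765436)] (nat_lit 4992266)) p15_21_3 (nat_lit 4) (nat_lit 19) (nat_lit 20) = true := by decide +kernel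
def p15_21_3_20 : pfC (piC [(nat_lit 39120232), (nat_lit 25510466), (nat_lit 18971201), (nat_lit 12765436)] (nat_lit 4992266)) p15_21_3 (nat_lit 4) (nat_lit 20) (nat_lit 21) = true := by decide +kernel
def p15_21_3_21 : pfC (piC [(nat_lit 39120232), (nat_lit 25510466), (nat_lit 18971201), (nat_lit 12765436)] (nat_lit 4992266)) p15_21_3 (nat_lit 4) (nat_lit 21) (nat_lit 22) = true := by decide +kernel
def p15_21_3_22 : pfC (piC [(nat_lit 39120232), (nat_lit 25510466), (nat_lit 18971201), (nat_lit 12765436)] (nat_lit 4992266)) p15_21_3 (nat_lit 4) (nat_lit 22) (nat_lit 23) = true := by decide +kernel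
def p15_21_3_23 : pfC (piC [(nat_lit 39120232), (nat_lit 25510466), (nat_lit 18971201), (nat_lit 12765436)] (nat_lit 4992266)) p15_21_3 (nat_lit 4) (nat_lit 23) (nat_lit 24) = true := by decide +kernel
def p15_21_3_24 : pfC (piC [(nat_lit 39120232), (nat_lit 25510466), (nat_lit 18971201), (nat_lit 12765436)] (nat_lit 4992266)) p15_21_3 (nat_lit 4) (nat_lit 24) (nat_lit 25) = true := by decide +kernel
def p15_21_3_25 : pfC (piC [(nat_lit 39120232), (nat_lit 25510466), (nat_lit 18971201), (nat_lit 12765436)] (nat_lit 4992266)) p15_21_3 (nat_lit 4) (nat_lit 25) (nat_lit 26) = true := by decide +kernel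
def p15_21_3_26 : pfC (piC [(nat_lit 39120232), (nat_lit 25510466), (nat_lit 18971201), (nat_lit 12765436)] (nat_lit 4992266)) p15_21_3 (nat_lit 4) (nat_lit 26) (nat_lit 27) = true := by decide +kernel
def p15_21_3_27 : pfC (piC [(nat_lit 39120232), (nat_lit 25510466), (nat_lit 18971201), (nat_lit 12765436)] (nat_lit 4992266)) p15_21_3 (nat_lit 4) (nat_lit 27) (nat_lit 28) = true := by decide +kernel
def p15_21_3_28 : pfC (piC [(nat_lit 39120232), (nat_lit 25510466), (nat_lit 18971201), (nat_lit 12765436)] (nat_lit 4992266)) p15_21_3 (nat_lit 4) (nat_lit 28) (nat_lit 29) = true := by decide +kernel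
def p15_21_3_29 : pfC (piC [(nat_lit 39120232), (nat_lit 25510466), (nat_lit 18971201), (nat_lit 12765436)] (nat_lit 4992266)) p15_21_3 (nat_lit 4) (nat_lit 29) (nat_lit 30) = true := by decide +kernel
def p15_21_3_30 : pfC (piC [(nat_lit 39120232), (nat_lit 25510466), (nat_lit 18971201), (nat_lit 12765436)] (nat_lit 4992266)) p15_21_3 (nat_lit 4) (nat_lit 30) (nat_lit 31) = true := by decide +kernel
def p15_21_3_31 : pfC (piC [(nat_lit 39120232), (nat_lit 25510466), (nat_lit 18971201), (nat_lit 12765436)] (nat_lit 4992266)) p15_21_3 (nat_lit 4) (nat_lit 31) (nat_lit 32) = true := by decide +kernel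
def p15_21_3_32 : pfC (piC [(nat_lit 39120232), (nat_lit 25510466), (nat_lit 18971201), (nat_lit 12765436)] (nat_lit 4992266)) p15_21_3 (nat_lit 4) (nat_lit 32) (nat_lit 33) = true := by decide +kernel
def p15_21_3_33 : pfC (piC [(nat_lit 39120232), (nat_lit 25510466), (nat_lit 18971201), (nat_lit 12765436)] (nat_lit 4992266)) p15_21_3 (nat_lit 4) (nat_lit 33) (nat_lit 34) = true := by decide +kernel
def p15_21_3_34 : pfC (piC [(nat_lit 39120232), (nat_lit 25510466), (nat_lit 18971201), (nat_lit 12765436)] (nat_lit 4992266)) p15_21_3 (nat_lit 4) (nat_lit 34) (nat_lit 35) = true := by decide +kernel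
def p15_21_3_35 : pfC (piC [(nat_lit 39120232), (nat_lit 25510466), (nat_lit 18971201), (nat_lit 12765436)] (nat_lit 4992266)) p15_21_3 (nat_lit 4) (nat_lit 35) (nat_lit 36) = true := by decide +kernel
def p15_21_3_36 : pfC (piC [(nat_lit 39120232), (nat_lit 25510466), (nat_lit 18971201), (nat_lit 12765436)] (nat_lit 4992266)) p15_21_3 (nat_lit 4) (nat_lit 36) (nat_lit 37) = true := by decide +kernel
def p15_21_3_37 : pfC (piC [(nat_lit 39120232), (nat_lit 25510466), (nat_lit 18971201), (nat_lit 12765436)] (nat_lit 4992266)) p15_21_3 (nat_lit 4) (nat_lit 37) (nat_lit 38) = true := by decide +kernel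
def p15_21_3_38 : pfC (piC [(nat_lit 39120232), (nat_lit 25510466), (nat_lit 18971201), (nat_lit 12765436)] (nat_lit 4992266)) p15_21_3 (nat_lit 4) (nat_lit 38) (nat_lit 39) = true := by decide +kernel
def p15_21_3_39 : pfC (piC [(nat_lit 39120232), (nat_lit 25510466), (nat_lit 18971201), (nat_lit 12765436)] (nat_lit 4992266)) p15_21_3 (nat_lit 4) (nat_lit 39) (nat_lit 40) = true := by decide +kernel
def p15_21_3_40 : pfC (piC [(nat_lit 39120232), (nat_lit 25510466), (nat_lit 18971201), (nat_lit 12765436)] (nat_lit 4992266)) p15_21_3 (nat_lit 4) (nat_lit 40) (nat_lit 41) = true := by decide +kernel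
def p15_21_3_41 : pfC (piC [(nat_lit 39120232), (nat_lit 25510466), (nat_lit 18971201), (nat_lit 12765436)] (nat_lit 4992266)) p15_21_3 (nat_lit 4) (nat_lit 41) (nat_lit 42) = true := by decide +kernel
def p15_21_3_42 : pfC (piC [(nat_lit 39120232), (nat_lit 25510466), (nat_lit 18971201), (nat_lit 12765436)] (nat_lit 4992266)) p15_21_3 (nat_lit 4) (nat_lit 42) (nat_lit 43) = true := by decide +kernel
def p15_21_3_43 : pfC (piC [(nat_lit 39120232), (nat_lit 25510466), (nat_lit 18971201), (nat_lit 12765436)] (nat_lit 4992266)) p15_21_3 (nat_lit 4) (nat_lit 43) (nat_lit 44) = true := by decide +kernel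
def p15_21_3_44 : pfC (piC [(nat_lit 39120232), (nat_lit 25510466), (nat_lit 18971201), (nat_lit 12765436)] (nat_lit 4992266)) p15_21_3 (nat_lit 4) (nat_lit 44) (nat_lit 45) = true := by decide +kernel
def p15_21_3_45 : pfC (piC [(nat_lit 39120232), (nat_lit 25510466), (nat_lit 18971201), (nat_lit 12765436)] (nat_lit 4992266)) p15_21_3 (nat_lit 4) (nat_lit 45) (nat_lit 46) = true := by decide +kernel
def p15_21_3_46 : pfC (piC [(nat_lit 39120232), (nat_lit 25510466), (nat_lit 18971201), (nat_lit 12765436)] (nat_lit 4992266)) p15_21_3 (nat_lit 4) (nat_lit 46) (nat_lit 47) = true := by decide +kernel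
def p15_21_3_47 : pfC (piC [(nat_lit 39120232), (nat_lit 25510466), (nat_lit 18971201), (nat_lit 12765436)] (nat_lit 4992266)) p15_21_3 (nat_lit 4) (nat_lit 47) (nat_lit 48) = true := by decide +kernel
def p15_21_3_48 : pfC (piC [(nat_lit 39120232), (nat_lit 25510466), (nat_lit 18971201), (nat_lit 12765436)] (nat_lit 4992266)) p15_21_3 (nat_lit 4) (nat_lit 48) (nat_lit 49) = true := by decide +kernel
def p15_21_3_49 : pfC (piC [(nat_lit 39120232), (nat_lit 25510466), (nat_lit 18971201), (nat_lit 12765436)] (nat_lit 4992266)) p15_21_3 (nat_lit 4) (nat_lit 49) (nat_lit 50) = true := by decide +kernel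
def p15_21_3_50 : pfC (piC [(nat_lit 39120232), (nat_lit 25510466), (nat_lit 18971201), (nat_lit 12765436)] (nat_lit 4992266)) p15_21_3 (nat_lit 4) (nat_lit 50) (nat_lit 51) = true := by decide +kernel
def p15_21_3_51 : pfC (piC [(nat_lit 39120232), (nat_lit 25510466), (nat_lit 18971201), (nat_lit 12765436)] (nat_lit 4992266)) p15_21_3 (nat_lit 4) (nat_lit 51) (nat_lit 52) = true := by decide +kernel
def p15_21_3_52 : pfC (piC [(nat_lit 39120232), (nat_lit 25510466), (nat_lit 18971201), (nat_lit 12765436)] (nat_lit 4992266)) p15_21_3 (nat_lit 4) (nat_lit 52) (nat_lit 53) = true := by decide +kernel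
def p15_21_3_53 : pfC (piC [(nat_lit 39120232), (nat_lit 25510466), (nat_lit 18971201), (nat_lit 12765436)] (nat_lit 4992266)) p15_21_3 (nat_lit 4) (nat_lit 53) (nat_lit 54) = true := by decide +kernel
def p15_21_3_54 : pfC (piC [(nat_lit 39120232), (nat_lit 25510466), (nat_lit 18971201), (nat_lit 12765436)] (nat_lit 4992266)) p15_21_3 (nat_lit 4) (nat_lit 54) (nat_lit 55) = true := by decide +kernel
def p15_21_3_55 : pfC (piC [(nat_lit 39120232), (nat_lit 25510466), (nat_lit 18971201), (nat_lit 12765436)] (nat_lit 4992266)) p15_21_3 (nat_lit 4) (nat_lit 55) (nat_lit 56) = true := by decide +kernel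
def p15_21_3_56 : pfC (piC [(nat_lit 39120232), (nat_lit 25510466), (nat_lit 18971201), (nat_lit 12765436)] (nat_lit 4992266)) p15_21_3 (nat_lit 4) (nat_lit 56) (nat_lit 57) = true := by decide +kernel
def p15_21_3_57 : pfC (piC [(nat_lit 39120232), (nat_lit 25510466), (nat_lit 18971201), (nat_lit 12765436)] (nat_lit 4992266)) p15_21_3 (nat_lit 4) (nat_lit 57) (nat_lit 58) = true := by decide +kernel
def p15_21_3_58 : pfC (piC [(nat_lit 39120232), (nat_lit 25510466), (nat_lit 18971201), (nat_lit 12765436)] (nat_lit 4992266)) p15_21_3 (nat_lit 4) (nat_lit 58) (nat_lit 59) = true := by decide +kernel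
def p15_21_3_59 : pfC (piC [(nat_lit 39120232), (nat_lit 25510466), (nat_lit 18971201), (nat_lit 12765436)] (nat_lit 4992266)) p15_21_3 (nat_lit 4) (nat_lit 59) (nat_lit 60) = true := by decide +kernel
def p15_21_3_60 : pfC (piC [(nat_lit 39120232), (nat_lit 25510466), (nat_lit 18971201), (nat_lit 12765436)] (nat_lit 4992266)) p15_21_3 (nat_lit 4) (nat_lit 60) (nat_lit 61) = true := by decide +kernel
def p15_21_3_61 : pfC (piC [(nat_lit 39120232), (nat_lit 25510466), (nat_lit 18971201), (nat_lit 12765436)] (nat_lit 4992266)) p15_21_3 (nat_lit 4) (nat_lit 61) (nat_lit 62) = true := by decide +kernel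
def p15_21_3_62 : pfC (piC [(nat_lit 39120232), (nat_lit 25510466), (nat_lit 18971201), (nat_lit 12765436)] (nat_lit 4992266)) p15_21_3 (nat_lit 4) (nat_lit 62) (nat_lit 63) = true := by decide +kernel
def p15_21_3_63 : pfC (piC [(nat_lit 39120232), (nat_lit 25510466), (nat_lit 18971201), (nat_lit 12765436)] (nat_lit 4992266)) p15_21_3 (nat_lit 4) (nat_lit 63) (nat_lit 64) = true := by decide +kernel
def p15_21_3_64 : pfC (piC [(nat_lit 39120232), (nat_lit 25510466), (nat_lit 18971201), (nat_lit 12765436)] (nat_lit 4992266)) p15_21_3 (nat_lit 4) (nat_lit 64) (nat_lit 65) = true := by decide +kernel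
def p15_21_3_65 : pfC (piC [(nat_lit 39120232), (nat_lit 25510466), (nat_lit 18971201), (nat_lit 12765436)] (nat_lit 4992266)) p15_21_3 (nat_lit 4) (nat_lit 65) (nat_lit 66) = true := by decide +kernel
def p15_21_3_66 : pfC (piC [(nat_lit 39120232), (nat_lit 25510466), (nat_lit 18971201), (nat_lit 12765436)] (nat_lit 4992266)) p15_21_3 (nat_lit 4) (nat_lit 66) (nat_lit 67) = true := by decide +kernel
def p15_21_3_67 : pfC (piC [(nat_lit 39120232), (nat_lit 25510466), (nat_lit 18971201), (nat_lit 12765436)] (nat_lit 4992266)) p15_21_3 (nat_lit 4) (nat_lit 67) (nat_lit 68) = true := by decide +kernel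
def p15_21_3_68 : pfC (piC [(nat_lit 39120232), (nat_lit 25510466), (nat_lit 18971201), (nat_lit 12765436)] (nat_lit 4992266)) p15_21_3 (nat_lit 4) (nat_lit 68) (nat_lit 69) = true := by decide +kernel
def p15_21_3_69 : pfC (piC [(nat_lit 39120232), (nat_lit 25510466), (nat_lit 18971201), (nat_lit 12765436)] (nat_lit 4992266)) p15_21_3 (nat_lit 4) (nat_lit 69) (nat_lit 70) = true := by decide +kernel
def p15_21_3_70 : pfC (piC [(nat_lit 39120232), (nat_lit 25510466), (nat_lit 18971201), (nat_lit 12765436)] (nat_lit 4992266)) p15_21_3 (nat_lit 4) (nat_lit 70) (nat_lit 71) = true := by decide +kernel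
def p15_21_3_71 : pfC (piC [(nat_lit 39120232), (nat_lit 25510466), (nat_lit 18971201), (nat_lit 12765436)] (nat_lit 4992266)) p15_21_3 (nat_lit 4) (nat_lit 71) (nat_lit 72) = true := by decide +kernel
def p15_21_3_72 : pfC (piC [(nat_lit 39120232), (nat_lit 25510466), (nat_lit 18971201), (nat_lit 12765436)] (nat_lit 4992266)) p15_21_3 (nat_lit 4) (nat_lit 72) (nat_lit 73) = true := by decide +kernel
def p15_21_3_73 : pfC (piC [(nat_lit 39120232), (nat_lit 25510466), (nat_lit 18971201), (nat_lit 12765436)] (nat_lit 4992266)) p15_21_3 (nat_lit 4) (nat_lit 73) (nat_lit 74) = true := by decide +kernel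
def p15_21_3_74 : pfC (piC [(nat_lit 39120232), (nat_lit 25510466), (nat_lit 18971201), (nat_lit 12765436)] (nat_lit 4992266)) p15_21_3 (nat_lit 4) (nat_lit 74) (nat_lit 75) = true := by decide +kernel
def p15_21_3_75 : pfC (piC [(nat_lit 39120232), (nat_lit 25510466), (nat_lit 18971201), (nat_lit 12765436)] (nat_lit 4992266)) p15_21_3 (nat_lit 4) (nat_lit 75) (nat_lit 76) = true := by decide +kernel
def p15_21_3_76 : pfC (piC [(nat_lit 39120232), (nat_lit 25510466), (nat_lit 18971201), (nat_lit 12765436)] (nat_lit 4992266)) p15_21_3 (nat_lit 4) (nat_lit 76) (nat_lit 77) = true := by decide +kernel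
def p15_21_3_77 : pfC (piC [(nat_lit 39120232), (nat_lit 25510466), (nat_lit 18971201), (nat_lit 12765436)] (nat_lit 4992266)) p15_21_3 (nat_lit 4) (nat_lit 77) (nat_lit 78) = true := by decide +kernel
def p15_21_3_78 : pfC (piC [(nat_lit 39120232), (nat_lit 25510466), (nat_lit 18971201), (nat_lit 12765436)] (nat_lit 4992266)) p15_21_3 (nat_lit 4) (nat_lit 78) (nat_lit 79) = true := by decide +kernel
def p15_21_3_79 : pfC (piC [(nat_lit 39120232), (nat_lit 25510466), (nat_lit 18971201), (nat_lit 12765436)] (nat_lit 4992266)) p15_21_3 (nat_lit 4) (nat_lit 79) (nat_lit 80) = true := by decide +kernel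
def p15_21_3_80 : pfC (piC [(nat_lit 39120232), (nat_lit 25510466), (nat_lit 18971201), (nat_lit 12765436)] (nat_lit 4992266)) p15_21_3 (nat_lit 4) (nat_lit 80) (nat_lit 81) = true := by decide +kernel
def p15_21_3_81 : pfC (piC [(nat_lit 39120232), (nat_lit 25510466), (nat_lit 18971201), (nat_lit 12765436)] (nat_lit 4992266)) p15_21_3 (nat_lit 4) (nat_lit 81) (nat_lit 82) = true := by decide +kernel
def p15_21_3_82 : pfC (piC [(nat_lit 39120232), (nat_lit 25510466), (nat_lit 18971201), (nat_lit 12765436)] (nat_lit 4992266)) p15_21_3 (nat_lit 4) (nat_lit 82) (nat_lit 83) = true := by decide +kernel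
def p15_21_3_83 : pfC (piC [(nat_lit 39120232), (nat_lit 25510466), (nat_lit 18971201), (nat_lit 12765436)] (nat_lit 4992266)) p15_21_3 (nat_lit 4) (nat_lit 83) (nat_lit 84) = true := by decide +kernel
def p15_21_3_84 : pfC (piC [(nat_lit 39120232), (nat_lit 25510466), (nat_lit 18971201), (nat_lit 12765436)] (nat_lit 4992266)) p15_21_3 (nat_lit 4) (nat_lit 84) (nat_lit 85) = true := by decide +kernel
def p15_21_3_85 : pfC (piC [(nat_lit 39120232), (nat_lit 25510466), (nat_lit 18971201), (nat_lit 12765436)] (nat_lit 4992266)) p15_21_3 (nat_lit 4) (nat_lit 85) (nat_lit 86) = true := by decide +kernel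
def p15_21_3_86 : pfC (piC [(nat_lit 39120232), (nat_lit 25510466), (nat_lit 18971201), (nat_lit 12765436)] (nat_lit 4992266)) p15_21_3 (nat_lit 4) (nat_lit 86) (nat_lit 87) = true := by decide +kernel
def p15_21_3_87 : pfC (piC [(nat_lit 39120232), (nat_lit 25510466), (nat_lit 18971201), (nat_lit 12765436)] (nat_lit 4992266)) p15_21_3 (nat_lit 4) (nat_lit 87) (nat_lit 88) = true := by decide +kernel
def p15_21_3_88 : pfC (piC [(nat_lit 39120232), (nat_lit 25510466), (nat_lit 18971201), (nat_lit 12765436)] (nat_lit 4992266)) p15_21_3 (nat_lit 4) (nat_lit 88) (nat_lit 89) = true := by decide +kernel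
def p15_21_3_89 : pfC (piC [(nat_lit 39120232), (nat_lit 25510466), (nat_lit 18971201), (nat_lit 12765436)] (nat_lit 4992266)) p15_21_3 (nat_lit 4) (nat_lit 89) (nat_lit 90) = true := by decide +kernel
def p15_21_3_90 : pfC (piC [(nat_lit 39120232), (nat_lit 25510466), (nat_lit 18971201), (nat_lit 12765436)] (nat_lit 4992266)) p15_21_3 (nat_lit 4) (nat_lit 90) (nat_lit 91) = true := by decide +kernel
def p15_21_3_91 : pfC (piC [(nat_lit 39120232), (nat_lit 25510466), (nat_lit 18971201), (nat_lit 12765436)] (nat_lit 4992266)) p15_21_3 (nat_lit 4) (nat_lit 91) (nat_lit 92) = true := by decide +kernel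
def p15_21_3_92 : pfC (piC [(nat_lit 39120232), (nat_lit 25510466), (nat_lit 18971201), (nat_lit 12765436)] (nat_lit 4992266)) p15_21_3 (nat_lit 4) (nat_lit 92) (nat_lit 93) = true := by decide +kernel
def p15_21_3_93 : pfC (piC [(nat_lit 39120232), (nat_lit 25510466), (nat_lit 18971201), (nat_lit 12765436)] (nat_lit 4992266)) p15_21_3 (nat_lit 4) (nat_lit 93) (nat_lit 94) = true := by decide +kernel
def p15_21_3_94 : pfC (piC [(nat_lit 39120232), (nat_lit 25510466), (nat_lit 18971201), (nat_lit 12765436)] (nat_lit 4992266)) p15_21_3 (nat_lit 4) (nat_lit 94) (nat_lit 95) = true := by decide +kernel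
def p15_21_3_95 : pfC (piC [(nat_lit 39120232), (nat_lit 25510466), (nat_lit 18971201), (nat_lit 12765436)] (nat_lit 4992266)) p15_21_3 (nat_lit 4) (nat_lit 95) (nat_lit 96) = true := by decide +kernel
def p15_21_3_96 : pfC (piC [(nat_lit 39120232), (nat_lit 25510466), (nat_lit 18971201), (nat_lit 12765436)] (nat_lit 4992266)) p15_21_3 (nat_lit 4) (nat_lit 96) (nat_lit 97) = true := by decide +kernel
def p15_21_3_97 : pfC (piC [(nat_lit 39120232), (nat_lit 25510466), (nat_lit 18971201), (nat_lit 12765436)] (nat_lit 4992266)) p15_21_3 (nat_lit 4) (nat_lit 97) (nat_lit 98) = true := by decide +kernel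
def p15_21_3_98 : pfC (piC [(nat_lit 39120232), (nat_lit 25510466), (nat_lit 18971201), (nat_lit 12765436)] (nat_lit 4992266)) p15_21_3 (nat_lit 4) (nat_lit 98) (nat_lit 99) = true := by decide +kernel
def p15_21_3_99 : pfC (piC [(nat_lit 39120232), (nat_lit 25510466), (nat_lit 18971201), (nat_lit 12765436)] (nat_lit 4992266)) p15_21_3 (nat_lit 4) (nat_lit 99) (nat_lit 100) = true := by decide +kernel
def p15_21_3_100 : pfC (piC [(nat_lit 39120232), (nat_lit 25510466), (nat_lit 18971201), (nat_lit 12765436)] (nat_lit 4992266)) p15_21_3 (nat_lit 4) (nat_lit 100) (nat_lit 101) = true := by decide +kernel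
def p15_21_3_101 : pfC (piC [(nat_lit 39120232), (nat_lit 25510466), (nat_lit 18971201), (nat_lit 12765436)] (nat_lit 4992266)) p15_21_3 (nat_lit 4) (nat_lit 101) (nat_lit 102) = true := by decide +kernel
def p15_21_3_102 : pfC (piC [(nat_lit 39120232), (nat_lit 25510466), (nat_lit 18971201), (nat_lit 12765436)] (nat_lit 4992266)) p15_21_3 (nat_lit 4) (nat_lit 102) (nat_lit 103) = true := by decide +kernel
def p15_21_3_103 : pfC (piC [(nat_lit 39120232), (nat_lit 25510466), (nat_lit 18971201), (nat_lit 12765436)] (nat_lit 4992266)) p15_21_3 (nat_lit 4) (nat_lit 103) (nat_lit 104) = true := by decide +kernel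
def p15_21_3_104 : pfC (piC [(nat_lit 39120232), (nat_lit 25510466), (nat_lit 18971201), (nat_lit 12765436)] (nat_lit 4992266)) p15_21_3 (nat_lit 4) (nat_lit 104) (nat_lit 105) = true := by decide +kernel
def p15_21_3_105 : pfC (piC [(nat_lit 39120232), (nat_lit 25510466), (nat_lit 18971201), (nat_lit 12765436)] (nat_lit 4992266)) p15_21_3 (nat_lit 4) (nat_lit 105) (nat_lit 106) = true := by decide +kernel
def p15_21_3_106 : pfC (piC [(nat_lit 39120232), (nat_lit 25510466), (nat_lit 18971201), (nat_lit 12765436)] (nat_lit 4992266)) p15_21_3 (nat_lit 4) (nat_lit 106) (nat_lit 107) = true := by decide +kernel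
def p15_21_3_107 : pfC (piC [(nat_lit 39120232), (nat_lit 25510466), (nat_lit 18971201), (nat_lit 12765436)] (nat_lit 4992266)) p15_21_3 (nat_lit 4) (nat_lit 107) (nat_lit 108) = true := by decide +kernel
def p15_21_3_108 : pfC (piC [(nat_lit 39120232), (nat_lit 25510466), (nat_lit 18971201), (nat_lit 12765436)] (nat_lit 4992266)) p15_21_3 (nat_lit 4) (nat_lit 108) (nat_lit 109) = true := by decide +kernel
def p15_21_3_109 : pfC (piC [(nat_lit 39120232), (nat_lit 25510466), (nat_lit 18971201), (nat_lit 12765436)] (nat_lit 4992266)) p15_21_3 (nat_lit 4) (nat_lit 109) (nat_lit 110) = true := by decide +kernel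
def p15_21_3_110 : pfC (piC [(nat_lit 39120232), (nat_lit 25510466), (nat_lit 18971201), (nat_lit 12765436)] (nat_lit 4992266)) p15_21_3 (nat_lit 4) (nat_lit 110) (nat_lit 111) = true := by decide +kernel
def p15_21_3_111 : pfC (piC [(nat_lit 39120232), (nat_lit 25510466), (nat_lit 18971201), (nat_lit 12765436)] (nat_lit 4992266)) p15_21_3 (nat_lit 4) (nat_lit 111) (nat_lit 112) = true := by decide +kernel
def p15_21_3_112 : pfC (piC [(nat_lit 39120232), (nat_lit 25510466), (nat_lit 18971201), (nat_lit 12765436)] (nat_lit 4992266)) p15_21_3 (nat_lit 4) (nat_lit 112) (nat_lit 113) = true := by decide +kernel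
def p15_21_3_113 : pfC (piC [(nat_lit 39120232), (nat_lit 25510466), (nat_lit 18971201), (nat_lit 12765436)] (nat_lit 4992266)) p15_21_3 (nat_lit 4) (nat_lit 113) (nat_lit 114) = true := by decide +kernel
def p15_21_3_114 : pfC (piC [(nat_lit 39120232), (nat_lit 25510466), (nat_lit 18971201), (nat_lit 12765436)] (nat_lit 4992266)) p15_21_3 (nat_lit 4) (nat_lit 114) (nat_lit 115) = true := by decide +kernel
def p15_21_3_115 : pfC (piC [(nat_lit 39120232), (nat_lit 25510466), (nat_lit 18971201), (nat_lit 12765436)] (nat_lit 4992266)) p15_21_3 (nat_lit 4) (nat_lit 115) (nat_lit 116) = true := by decide +kernel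
def p15_21_3_116 : pfC (piC [(nat_lit 39120232), (nat_lit 25510466), (nat_lit 18971201), (nat_lit 12765436)] (nat_lit 4992266)) p15_21_3 (nat_lit 4) (nat_lit 116) (nat_lit 117) = true := by decide +kernel
def p15_21_3_117 : pfC (piC [(nat_lit 39120232), (nat_lit 25510466), (nat_lit 18971201), (nat_lit 12765436)] (nat_lit 4992266)) p15_21_3 (nat_lit 4) (nat_lit 117) (nat_lit 118) = true := by decide +kernel
def p15_21_3_118 : pfC (piC [(nat_lit 39120232), (nat_lit 25510466), (nat_lit 18971201), (nat_lit 12765436)] (nat_lit 4992266)) p15_21_3 (nat_lit 4) (nat_lit 118) (nat_lit 119) = true := by decide +kernel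
def p15_21_3_119 : pfC (piC [(nat_lit 39120232), (nat_lit 25510466), (nat_lit 18971201), (nat_lit 12765436)] (nat_lit 4992266)) p15_21_3 (nat_lit 4) (nat_lit 119) (nat_lit 120) = true := by decide +kernel
def p15_21_3_120 : pfC (piC [(nat_lit 39120232), (nat_lit 25510466), (nat_lit 18971201), (nat_lit 12765436)] (nat_lit 4992266)) p15_21_3 (nat_lit 4) (nat_lit 120) (nat_lit 121) = true := by decide +kernel
def p15_21_3_121 : pfC (piC [(nat_lit 39120232), (nat_lit 25510466), (nat_lit 18971201), (nat_lit 12765436)] (nat_lit 4992266)) p15_21_3 (nat_lit 4) (nat_lit 121) (nat_lit 122) = true := by decide +kernel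
def p15_21_3_122 : pfC (piC [(nat_lit 39120232), (nat_lit 25510466), (nat_lit 18971201), (nat_lit 12765436)] (nat_lit 4992266)) p15_21_3 (nat_lit 4) (nat_lit 122) (nat_lit 123) = true := by decide +kernel
def p15_21_3_123 : pfC (piC [(nat_lit 39120232), (nat_lit 25510466), (nat_lit 18971201), (nat_lit 12765436)] (nat_lit 4992266)) p15_21_3 (nat_lit 4) (nat_lit 123) (nat_lit 124) = true := by decide +kernel
def p15_21_3_124 : pfC (piC [(nat_lit 39120232), (nat_lit 25510466), (nat_lit 18971201), (nat_lit 12765436)] (nat_lit 4992266)) p15_21_3 (nat_lit 4) (nat_lit 124) (nat_lit 125) = true := by decide +kernel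
def p15_21_3_125 : pfC (piC [(nat_lit 39120232), (nat_lit 25510466), (nat_lit 18971201), (nat_lit 12765436)] (nat_lit 4992266)) p15_21_3 (nat_lit 4) (nat_lit 125) (nat_lit 126) = true := by decide +kernel
def p15_21_3_126 : pfC (piC [(nat_lit 39120232), (nat_lit 25510466), (nat_lit 18971201), (nat_lit 12765436)] (nat_lit 4992266)) p15_21_3 (nat_lit 4) (nat_lit 126) (nat_lit 127) = true := by decide +kernel
def p15_21_3_127 : pfC (piC [(nat_lit 39120232), (nat_lit 25510466), (nat_lit 18971201), (nat_lit 12765436)] (nat_lit 4992266)) p15_21_3 (nat_lit 4) (nat_lit 127) (nat_lit 128) = true := by decide +kernel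
def p15_21_3_128 : pfC (piC [(nat_lit 39120232), (nat_lit 25510466), (nat_lit 18971201), (nat_lit 12765436)] (nat_lit 4992266)) p15_21_3 (nat_lit 4) (nat_lit 128) (nat_lit 129) = true := by decide +kernel
def p15_21_3_129 : pfC (piC [(nat_lit 39120232), (nat_lit 25510466), (nat_lit 18971201), (nat_lit 12765436)] (nat_lit 4992266)) p15_21_3 (nat_lit 4) (nat_lit 129) (nat_lit 130) = true := by decide +kernel
def p15_21_3_130 : pfC (piC [(nat_lit 39120232), (nat_lit 25510466), (nat_lit 18971201), (nat_lit 12765436)] (nat_lit 4992266)) p15_21_3 (nat_lit 4) (nat_lit 130) (nat_lit 131) = true := by decide +kernel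
def p15_21_3_131 : pfC (piC [(nat_lit 39120232), (nat_lit 25510466), (nat_lit 18971201), (nat_lit 12765436)] (nat_lit 4992266)) p15_21_3 (nat_lit 4) (nat_lit 131) (nat_lit 132) = true := by decide +kernel
def p15_21_3_132 : pfC (piC [(nat_lit 39120232), (nat_lit 25510466), (nat_lit 18971201), (nat_lit 12765436)] (nat_lit 4992266)) p15_21_3 (nat_lit 4) (nat_lit 132) (nat_lit 133) = true := by decide +kernel
def p15_21_3_133 : pfC (piC [(nat_lit 39120232), (nat_lit 25510466), (nat_lit 18971201), (nat_lit 12765436)] (nat_lit 4992266)) p15_21_3 (nat_lit 4) (nat_lit 133) (nat_lit 134) = true := by decide +kernel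
def p15_21_3_134 : pfC (piC [(nat_lit 39120232), (nat_lit 25510466), (nat_lit 18971201), (nat_lit 12765436)] (nat_lit 4992266)) p15_21_3 (nat_lit 4) (nat_lit 134) (nat_lit 135) = true := by decide +kernel
def p15_21_3_135 : pfC (piC [(nat_lit 39120232), (nat_lit 25510466), (nat_lit 18971201), (nat_lit 12765436)] (nat_lit 4992266)) p15_21_3 (nat_lit 4) (nat_lit 135) (nat_lit 136) = true := by decide +kernel
def p15_21_3_136 : pfC (piC [(nat_lit 39120232), (nat_lit 25510466), (nat_lit 18971201), (nat_lit 12765436)] (nat_lit 4992266)) p15_21_3 (nat_lit 4) (nat_lit 136) (nat_lit 137) = true := by decide +kernel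
def p15_21_3_137 : pfC (piC [(nat_lit 39120232), (nat_lit 25510466), (nat_lit 18971201), (nat_lit 12765436)] (nat_lit 4992266)) p15_21_3 (nat_lit 4) (nat_lit 137) (nat_lit 138) = true := by decide +kernel
def p15_21_3_138 : pfC (piC [(nat_lit 39120232), (nat_lit 25510466), (nat_lit 18971201), (nat_lit 12765436)] (nat_lit 4992266)) p15_21_3 (nat_lit 4) (nat_lit 138) (nat_lit 139) = true := by decide +kernel
def p15_21_3_139 : pfC (piC [(nat_lit 39120232), (nat_lit 25510466), (nat_lit 18971201), (nat_lit 12765436)] (nat_lit 4992266)) p15_21_3 (nat_lit 4) (nat_lit 139) (nat_lit 140) = true := by decide +kernel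
def p15_21_3_140 : pfC (piC [(nat_lit 39120232), (nat_lit 25510466), (nat_lit 18971201), (nat_lit 12765436)] (nat_lit 4992266)) p15_21_3 (nat_lit 4) (nat_lit 140) (nat_lit 141) = true := by decide +kernel
def p15_21_3_141 : pfC (piC [(nat_lit 39120232), (nat_lit 25510466), (nat_lit 18971201), (nat_lit 12765436)] (nat_lit 4992266)) p15_21_3 (nat_lit 4) (nat_lit 141) (nat_lit 142) = true := by decide +kernel
def p15_21_3_142 : pfC (piC [(nat_lit 39120232), (nat_lit 25510466), (nat_lit 18971201), (nat_lit 12765436)] (nat_lit 4992266)) p15_21_3 (nat_lit 4) (nat_lit 142) (nat_lit 143) = true := by decide +kernel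
def p15_21_3_143 : pfC (piC [(nat_lit 39120232), (nat_lit 25510466), (nat_lit 18971201), (nat_lit 12765436)] (nat_lit 4992266)) p15_21_3 (nat_lit 4) (nat_lit 143) (nat_lit 144) = true := by decide +kernel
def p15_21_3_144 : pfC (piC [(nat_lit 39120232), (nat_lit 25510466), (nat_lit 18971201), (nat_lit 12765436)] (nat_lit 4992266)) p15_21_3 (nat_lit 4) (nat_lit 144) (nat_lit 145) = true := by decide +kernel
def p15_21_3_145 : pfC (piC [(nat_lit 39120232), (nat_lit 25510466), (nat_lit 18971201), (nat_lit 12765436)] (nat_lit 4992266)) p15_21_3 (nat_lit 4) (nat_lit 145) (nat_lit 146) = true := by decide +kernel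
def p15_21_3_146 : pfC (piC [(nat_lit 39120232), (nat_lit 25510466), (nat_lit 18971201), (nat_lit 12765436)] (nat_lit 4992266)) p15_21_3 (nat_lit 4) (nat_lit 146) (nat_lit 147) = true := by decide +kernel
def p15_21_3_147 : pfC (piC [(nat_lit 39120232), (nat_lit 25510466), (nat_lit 18971201), (nat_lit 12765436)] (nat_lit 4992266)) p15_21_3 (nat_lit 4) (nat_lit 147) (nat_lit 148) = true := by decide +kernel
def p15_21_3_148 : pfC (piC [(nat_lit 39120232), (nat_lit 25510466), (nat_lit 18971201), (nat_lit 12765436)] (nat_lit 4992266)) p15_21_3 (nat_lit 4) (nat_lit 148) (nat_lit 149) = true := by decide +kernel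
def p15_21_3_149 : pfC (piC [(nat_lit 39120232), (nat_lit 25510466), (nat_lit 18971201), (nat_lit 12765436)] (nat_lit 4992266)) p15_21_3 (nat_lit 4) (nat_lit 149) (nat_lit 150) = true := by decide +kernel
def p15_21_3_150 : pfC (piC [(nat_lit 39120232), (nat_lit 25510466), (nat_lit 18971201), (nat_lit 12765436)] (nat_lit 4992266)) p15_21_3 (nat_lit 4) (nat_lit 150) (nat_lit 151) = true := by decide +kernel
def p15_21_3_151 : pfC (piC [(nat_lit 39120232), (nat_lit 25510466), (nat_lit 18971201), (nat_lit 12765436)] (nat_lit 4992266)) p15_21_3 (nat_lit 4) (nat_lit 151) (nat_lit 152) = true := by decide +kernel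
def p15_21_3_152 : pfC (piC [(nat_lit 39120232), (nat_lit 25510466), (nat_lit 18971201), (nat_lit 12765436)] (nat_lit 4992266)) p15_21_3 (nat_lit 4) (nat_lit 152) (nat_lit 153) = true := by decide +kernel
def p15_21_3_153 : pfC (piC [(nat_lit 39120232), (nat_lit 25510466), (nat_lit 18971201), (nat_lit 12765436)] (nat_lit 4992266)) p15_21_3 (nat_lit 4) (nat_lit 153) (nat_lit 154) = true := by decide +kernel
def p15_21_3_154 : pfC (piC [(nat_lit 39120232), (nat_lit 25510466), (nat_lit 18971201), (nat_lit 12765436)] (nat_lit 4992266)) p15_21_3 (nat_lit 4) (nat_lit 154) (nat_lit 155) = true := by decide +kernel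
def p15_21_3_155 : pfC (piC [(nat_lit 39120232), (nat_lit 25510466), (nat_lit 18971201), (nat_lit 12765436)] (nat_lit 4992266)) p15_21_3 (nat_lit 4) (nat_lit 155) (nat_lit 156) = true := by decide +kernel
def p15_21_3_156 : pfC (piC [(nat_lit 39120232), (nat_lit 25510466), (nat_lit 18971201), (nat_lit 12765436)] (nat_lit 4992266)) p15_21_3 (nat_lit 4) (nat_lit 156) (nat_lit 157) = true := by decide +kernel
def p15_21_3_157 : pfC (piC [(nat_lit 39120232), (nat_lit 25510466), (nat_lit 18971201), (nat_lit 12765436)] (nat_lit 4992266)) p15_21_3 (nat_lit 4) (nat_lit 157) (nat_lit 158) = true := by decide +kernel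
def p15_21_3_158 : pfC (piC [(nat_lit 39120232), (nat_lit 25510466), (nat_lit 18971201), (nat_lit 12765436)] (nat_lit 4992266)) p15_21_3 (nat_lit 4) (nat_lit 158) (nat_lit 159) = true := by decide +kernel
def p15_21_3_159 : pfC (piC [(nat_lit 39120232), (nat_lit 25510466), (nat_lit 18971201), (nat_lit 12765436)] (nat_lit 4992266)) p15_21_3 (nat_lit 4) (nat_lit 159) (nat_lit 160) = true := by decide +kernel
def p15_21_3_160 : pfC (piC [(nat_lit 39120232), (nat_lit 25510466), (nat_lit 18971201), (nat_lit 12765436)] (nat_lit 4992266)) p15_21_3 (nat_lit 4) (nat_lit 160) (nat_lit 161) = true := by decide +kernel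
def p15_21_3_161 : pfC (piC [(nat_lit 39120232), (nat_lit 25510466), (nat_lit 18971201), (nat_lit 12765436)] (nat_lit 4992266)) p15_21_3 (nat_lit 4) (nat_lit 161) (nat_lit 162) = true := by decide +kernel
def p15_21_3_162 : pfC (piC [(nat_lit 39120232), (nat_lit 25510466), (nat_lit 18971201), (nat_lit 12765436)] (nat_lit 4992266)) p15_21_3 (nat_lit 4) (nat_lit 162) (nat_lit 163) = true := by decide +kernel
def p15_21_3_163 : pfC (piC [(nat_lit 39120232), (nat_lit 25510466), (nat_lit 18971201), (nat_lit 12765436)] (nat_lit 4992266)) p15_21_3 (nat_lit 4) (nat_lit 163) (nat_lit 164) = true := by decide +kernel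
def p15_21_3_164 : pfC (piC [(nat_lit 39120232), (nat_lit 25510466), (nat_lit 18971201), (nat_lit 12765436)] (nat_lit 4992266)) p15_21_3 (nat_lit 4) (nat_lit 164) (nat_lit 165) = true := by decide +kernel
def p15_21_3_165 : pfC (piC [(nat_lit 39120232), (nat_lit 25510466), (nat_lit 18971201), (nat_lit 12765436)] (nat_lit 4992266)) p15_21_3 (nat_lit 4) (nat_lit 165) (nat_lit 166) = true := by decide +kernel
def p15_21_3_166 : pfC (piC [(nat_lit 39120232), (nat_lit 25510466), (nat_lit 18971201), (nat_lit 12765436)] (nat_lit 4992266)) p15_21_3 (nat_lit 4) (nat_lit 166) (nat_lit 167) = true := by decide +kernel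
def p15_21_3_167 : pfC (piC [(nat_lit 39120232), (nat_lit 25510466), (nat_lit 18971201), (nat_lit 12765436)] (nat_lit 4992266)) p15_21_3 (nat_lit 4) (nat_lit 167) (nat_lit 168) = true := by decide +kernel
def p15_21_3_168 : pfC (piC [(nat_lit 39120232), (nat_lit 25510466), (nat_lit 18971201), (nat_lit 12765436)] (nat_lit 4992266)) p15_21_3 (nat_lit 4) (nat_lit 168) (nat_lit 169) = true := by decide +kernel
def p15_21_3_169 : pfC (piC [(nat_lit 39120232), (nat_lit 25510466), (nat_lit 18971201), (nat_lit 12765436)] (nat_lit 4992266)) p15_21_3 (nat_lit 4) (nat_lit 169) (nat_lit 170) = true := by decide +kernel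
def p15_21_3_170 : pfC (piC [(nat_lit 39120232), (nat_lit 25510466), (nat_lit 18971201), (nat_lit 12765436)] (nat_lit 4992266)) p15_21_3 (nat_lit 4) (nat_lit 170) (nat_lit 171) = true := by decide +kernel
def p15_21_3_171 : pfC (piC [(nat_lit 39120232), (nat_lit 25510466), (nat_lit 18971201), (nat_lit 12765436)] (nat_lit 4992266)) p15_21_3 (nat_lit 4) (nat_lit 171) (nat_lit 172) = true := by decide +kernel
def p15_21_3_172 : pfC (piC [(nat_lit 39120232), (nat_lit 25510466), (nat_lit 18971201), (nat_lit 12765436)] (nat_lit 4992266)) p15_21_3 (nat_lit 4) (nat_lit 172) (nat_lit 173) = true := by decide +kernel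
def p15_21_3_173 : pfC (piC [(nat_lit 39120232), (nat_lit 25510466), (nat_lit 18971201), (nat_lit 12765436)] (nat_lit 4992266)) p15_21_3 (nat_lit 4) (nat_lit 173) (nat_lit 174) = true := by decide +kernel
def p15_21_3_174 : pfC (piC [(nat_lit 39120232), (nat_lit 25510466), (nat_lit 18971201), (nat_lit 12765436)] (nat_lit 4992266)) p15_21_3 (nat_lit 4) (nat_lit 174) (nat_lit 175) = true := by decide +kernel
def p15_21_3_175 : pfC (piC [(nat_lit 39120232), (nat_lit 25510466), (nat_lit 18971201), (nat_lit 12765436)] (nat_lit 4992266)) p15_21_3 (nat_lit 4) (nat_lit 175) (nat_lit 176) = true := by decide +kernel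
def p15_21_3_176 : pfC (piC [(nat_lit 39120232), (nat_lit 25510466), (nat_lit 18971201), (nat_lit 12765436)] (nat_lit 4992266)) p15_21_3 (nat_lit 4) (nat_lit 176) (nat_lit 177) = true := by decide +kernel
theorem p15_21_3_T : PfS (PiF n15_21.reverse (nat_lit 4992266)) p15_21_3 (nat_lit 4) [] 0 :=
  pftab_of (los := [(nat_lit 39120232), (nat_lit 25510466), (nat_lit 18971201), (nat_lit 12765436)]) (by decide +kernel) (hi := (nat_lit 177)) (PfP.trans (PfP.trans (PfP.trans (PfP.trans (PfP.trans (PfP.trans (PfP.trans (PfP.trans (PfP.trans (PfP.trans (PfP.trans (PfP.trans (PfP.trans (PfP.trans (PfP.trans (PfP.trans (PfP.trans (PfP.trans (PfP.trans (PfP.trans (PfP.trans (PfP.trans (PfP.trans (PfP.trans (PfP.trans (PfP.trans (PfP.trans (PfP.trans (PfP.trans (PfP.trans (PfP.trans (PfP.trans (PfP.trans (PfP.trans (PfP.trans (PfP.trans (PfP.trans (PfP.trans (PfP.trans (PfP.trans (PfP.trans (PfP.trans (PfP.trans (PfP.trans (PfP.trans (PfP.trans (PfP.trans (PfP.trans (PfP.trans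 (PfP.trans (PfP.trans (PfP.trans (PfP.trans (PfP.trans (PfP.trans (PfP.trans (PfP.trans (PfP.trans (PfP.trans (PfP.trans (PfP.trans (PfP.trans (PfP.trans (PfP.trans (PfP.trans (PfP.trans (PfP.trans (PfP.trans (PfP.trans (PfP.trans (PfP.trans (PfP.trans (PfP.trans (PfP.trans (PfP.trans (PfP.trans (PfP.trans (PfP.trans (PfP.trans (PfP.trans (PfP.trans (PfP.trans (PfP.trans (PfP.trans (PfP.trans (PfP.trans (PfP.trans (PfP.trans (PfP.trans (PfP.trans (PfP.trans (PfP.trans (PfP.trans (PfP.trans (PfP.trans (PfP.trans (PfP.trans (PfP.trans (PfP.trans (PfP.trans (PfP.trans (PfP.trans (PfP.trans (PfP.trans (PfP.trans (PfP.trans (PfP.trans (PfP.trans (PfP.trans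
 (PfP.trans (PfP.trans (PfP.trans (PfP.trans (PfP.trans (PfP.trans (PfP.trans (PfP.trans (PfP.trans (PfP.trans (PfP.trans (PfP.trans (PfP.trans (PfP.trans (PfP.trans (PfP.trans (PfP.trans (PfP.trans (PfP.trans (PfP.trans (PfP.trans (PfP.trans (PfP.trans (PfP.trans (PfP.trans (PfP.trans (PfP.trans (PfP.trans (PfP.trans (PfP.trans (PfP.trans (PfP.trans (PfP.trans (PfP.trans (PfP.trans (PfP.trans (PfP.trans (PfP.trans (PfP.trans (PfP.trans (PfP.trans (PfP.trans (PfP.trans (PfP.trans (PfP.trans (PfP.trans (PfP.trans (PfP.trans (PfP.trans (PfP.trans (PfP.trans (PfP.trans (PfP.trans (PfP.trans (PfP.trans (PfP.trans (PfP.trans (PfP.trans (PfP.trans (PfP.trans (PfP.trans (PfP.trans (PfP.trans (PfP.trans (PfP.trans (PfP.trans (PfP.trans (pfC_sound p15_21_3_0) (pfC_sound p15_21_3_1)) (pfC_sound p15_21_3_2)) (pfC_sound p15_21_3_3)) (pfC_sound p15_21_3_4)) (pfC_sound p15_21_3_5)) (pfC_sound p15_21_3_6)) (pfC_sound p15_21_3_7)) (pfC_sound p15_21_3_8)) (pfC_sound p15_21_3_9)) (pfC_sound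 p15_21_3_10)) (pfC_sound p15_21_3_11)) (pfC_sound p15_21_3_12)) (pfC_sound p15_21_3_13)) (pfC_sound p15_21_3_14)) (pfC_sound p15_21_3_15)) (pfC_sound p15_21_3_16)) (pfC_sound p15_21_3_17)) (pfC_sound
 p15_21_3_18)) (pfC_sound p15_21_3_19)) (pfC_sound p15_21_3_20)) (pfC_sound p15_21_3_21)) (pfC_sound p15_21_3_22)) (pfC_sound p15_21_3_23)) (pfC_sound p15_21_3_24)) (pfC_sound p15_21_3_25)) (pfC_sound p15_21_3_26)) (pfC_sound p15_21_3_27)) (pfC_sound p15_21_3_28)) (pfC_sound p15_21_3_29)) (pfC_sound p15_21_3_30)) (pfC_sound p15_21_3_31)) (pfC_sound p15_21_3_32)) (pfC_sound p15_21_3_33)) (pfC_sound p15_21_3_34)) (pfC_sound p15_21_3_35)) (pfC_sound p15_21_3_36)) (pfC_sound p15_21_3_37)) (pfC_sound p15_21_3_38)) (pfC_sound p15_21_3_39)) (pfC_sound p15_21_3_40)) (pfC_sound p15_21_3_41)) (pfC_sound p15_21_3_42)) (pfC_sound p15_21_3_43)) (pfC_sound p15_21_3_44)) (pfC_sound p15_21_3_45)) (pfC_sound p15_21_3_46)) (pfC_sound p15_21_3_47)) (pfC_sound p15_21_3_48)) (pfC_sound p15_21_3_49))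 (pfC_sound p15_21_3_50)) (pfC_sound p15_21_3_51)) (pfC_sound p15_21_3_52)) (pfC_sound p15_21_3_53)) (pfC_sound p15_21_3_54)) (pfC_sound p15_21_3_55)) (pfC_sound p15_21_3_56)) (pfC_sound p15_21_3_57)) (pfC_sound p15_21_3_58)) (pfC_sound p15_21_3_59)) (pfC_sound p15_21_3_60)) (pfC_sound p15_21_3_61)) (pfC_sound p15_21_3_62)) (pfC_sound p15_21_3_63)) (pfC_sound p15_21_3_64)) (pfC_sound p15_21_3_65)) (pfC_sound
 p15_21_3_66)) (pfC_sound p15_21_3_67)) (pfC_sound p15_21_3_68)) (pfC_sound p15_21_3_69)) (pfC_sound p15_21_3_70)) (pfC_sound p15_21_3_71)) (pfC_sound p15_21_3_72)) (pfC_sound p15_21_3_73)) (pfC_sound p15_21_3_74)) (pfC_sound p15_21_3_75)) (pfC_sound p15_21_3_76)) (pfC_sound p15_21_3_77)) (pfC_sound p15_21_3_78)) (pfC_sound p15_21_3_79)) (pfC_sound p15_21_3_80)) (pfC_sound p15_21_3_81)) (pfC_sound p15_21_3_82)) (pfC_sound p15_21_3_83)) (pfC_sound p15_21_3_84)) (pfC_sound p15_21_3_85)) (pfC_sound p15_21_3_86)) (pfC_sound p15_21_3_87)) (pfC_sound p15_21_3_88)) (pfC_sound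 p15_21_3_89)) (pfC_sound p15_21_3_90)) (pfC_sound p15_21_3_91)) (pfC_sound p15_21_3_92)) (pfC_sound p15_21_3_93)) (pfC_sound p15_21_3_94)) (pfC_sound p15_21_3_95)) (pfC_sound p15_21_3_96)) (pfC_sound p15_21_3_97)) (pfC_sound p15_21_3_98)) (pfC_sound p15_21_3_99)) (pfC_sound p15_21_3_100)) (pfC_sound p15_21_3_101)) (pfC_sound p15_21_3_102)) (pfC_sound p15_21_3_103)) (pfC_sound p15_21_3_104)) (pfC_sound p15_21_3_105)) (pfC_sound p15_21_3_106)) (pfC_sound p15_21_3_107)) (pfC_sound p15_21_3_108)) (pfC_sound p15_21_3_109)) (pfC_sound p15_21_3_110)) (pfC_sound p15_21_3_111)) (pfC_sound p15_21_3_112)) (pfC_sound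
 p15_21_3_113)) (pfC_sound p15_21_3_114)) (pfC_sound p15_21_3_115)) (pfC_sound p15_21_3_116)) (pfC_sound p15_21_3_117)) (pfC_sound p15_21_3_118)) (pfC_sound p15_21_3_119)) (pfC_sound p15_21_3_120)) (pfC_sound p15_21_3_121)) (pfC_sound p15_21_3_122)) (pfC_sound p15_21_3_123)) (pfC_sound p15_21_3_124)) (pfC_sound p15_21_3_125)) (pfC_sound p15_21_3_126)) (pfC_sound p15_21_3_127)) (pfC_sound p15_21_3_128)) (pfC_sound p15_21_3_129)) (pfC_sound p15_21_3_130)) (pfC_sound p15_21_3_131)) (pfC_sound p15_21_3_132)) (pfC_sound p15_21_3_133)) (pfC_sound p15_21_3_134)) (pfC_sound p15_21_3_135)) (pfC_sound p15_21_3_136)) (pfC_sound p15_21_3_137)) (pfC_sound p15_21_3_138)) (pfC_sound p15_21_3_139)) (pfC_sound p15_21_3_140)) (pfC_sound p15_21_3_141)) (pfC_sound p15_21_3_142)) (pfC_sound p15_21_3_143)) (pfC_sound p15_21_3_144)) (pfC_sound p15_21_3_145)) (pfC_sound p15_21_3_146)) (pfC_sound p15_21_3_147)) (pfC_sound p15_21_3_148)) (pfC_sound p15_21_3_149)) (pfC_sound p15_21_3_150)) (pfC_sound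 p15_21_3_151)) (pfC_sound p15_21_3_152)) (pfC_sound p15_21_3_153)) (pfC_sound p15_21_3_154)) (pfC_sound p15_21_3_155)) (pfC_sound p15_21_3_156)) (pfC_sound p15_21_3_157)) (pfC_sound p15_21_3_158)) (pfC_sound
 p15_21_3_159)) (pfC_sound p15_21_3_160)) (pfC_sound p15_21_3_161)) (pfC_sound p15_21_3_162)) (pfC_sound p15_21_3_163)) (pfC_sound p15_21_3_164)) (pfC_sound p15_21_3_165)) (pfC_sound p15_21_3_166)) (pfC_sound p15_21_3_167)) (pfC_sound p15_21_3_168)) (pfC_sound p15_21_3_169)) (pfC_sound p15_21_3_170)) (pfC_sound p15_21_3_171)) (pfC_sound p15_21_3_172)) (pfC_sound p15_21_3_173)) (pfC_sound p15_21_3_174)) (pfC_sound p15_21_3_175)) (pfC_sound p15_21_3_176)) (by decide +kernel)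

def z15_21_3 : zOK yB15_21 (nat_lit 3) (nat_lit 750) (nat_lit 832) (nat_lit 4992266) (nat_lit 3960101) = true := by decide +kernel
def g15_21_3 : gOK yB15_21.x P15_21 (nat_lit 1426) (q15_21 :: r15_21) (nat_lit 3) (nat_lit 750) (nat_lit 4) (nat_lit 832) (nat_lit 12712500) (nat_lit 12712500) (nat_lit 12712500) (nat_lit 12712500) [(nat_lit 800)] = true := by decide +kernel
def v15_21_3 : ivC P15_21 s15_21 w15_21 n15_21 (nat_lit 4) (nat_lit 4650) (nat_lit 3) (nat_lit 750) f160_1_750 f168_1_750 (nat_lit 4) (nat_lit 832) f160_1_832 f168_1_832 (nat_lit 4992266) (nat_lit 3960101) p15_21_3 = true := by decide +kernel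
end CB
end Pool.Agent.Lib.MP_6947cd_al
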