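import Pool.Agent.Lib.MP_6947cd_al.L.BoxDataB
import Pool.Agent.Lib.MP_6947cd_al.L.TeD4
import Pool.Agent.Lib.MP_6947cd_al.L.TeD5

/-!
Problem MP_6947cd_al (Chollet).  CASE B, rows `j`: boxes (generated).
-/

set_option autoImplicit false
set_option linter.defProp false
set_option maxRecDepth 20000

namespace Pool.Agent.Lib.MP_6947cd_al
namespace CB

open Ent Ent.Pk Fr Fr.WT CA

/-! box `yB15_22` -/

def P15_22 : BQ := ⟨(nat_lit 8), (nat_lit 6), (nat_lit 2), (nat_lit 4), (nat_lit 4), (nat_lit 810), (nat_lit 820), (nat_lit 120), [(nat_lit 200), (nat_lit 300), (nat_lit 450), (nat_lit 800)], (nat_lit 117520000), (nat_lit 16000000), (nat_lit 16000000000)⟩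
def q15_22 : PC := ⟨(nat_lit 1000), [(nat_lit 120000), (nat_lit 200000), (nat_lit 300000), (nat_lit 450000), (nat_lit 800000)], (nat_lit 340282367000166625996085689103316680705000000), (nat_lit 15882480000000), (nat_lit 15882480000000), (nat_lit 10000000)⟩
def r15_22 : List PC := [⟨(nat_lit 1270), [(nat_lit 120537), (nat_lit 200888), (nat_lit 301077), (nat_lit 450946), (nat_lit 799743)], (nat_lit 342058981238289866213918359414247434996370279), (nat_lit 16250666312000), (nat_lit 16255426692800), (nat_lit 10044750)⟩, ⟨(nat_lit 1377), [(nat_lit 120821), (nat_lit 201211), (nat_lit 301632), (nat_lit 451885), (nat_lit 802215)], (nat_lit 342762344890883568178782325824331483972587270), (nat_lit 16396173391200), (nat_lit 16402820293280), (nat_lit 10068417)⟩, ⟨(nat_lit 1245), [(nat_lit 120499), (nat_lit 200798), (nat_lit 300977), (nat_lit 451347), (nat_lit 798628)], (nat_lit 341889860901899736183164593412712679433259663), (nat_lit 16216416172000), (nat_lit 16220735776800), (nat_lit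 10041584)⟩]
def s15_22 : List PB := [⟨(nat_lit 25400), (nat_lit 1928592000000), [(nat_lit 200888), (nat_lit 301077), (nat_lit 450946), (nat_lit 799743)], (nat_lit 342058981238289866213918359414247434996370279), (nat_lit 1142150573154624), (nat_lit 1142155333535424), (nat_lit 43200)⟩, ⟨(nat_lit 27540), (nat_lit 1933136000000), [(nat_lit 201211), (nat_lit 301632), (nat_lit 451885), (nat_lit 802215)], (nat_lit 342762344890883568178782325824331483972587270), (nat_lit 1142296080233824), (nat_lit 1142302727135904), (nat_lit 60320)⟩, ⟨(nat_lit 24900), (nat_lit 1927984000000), [(nat_lit 200798), (nat_lit 300977), (nat_lit 451347), (nat_lit 798628)], (nat_lit 341889860901899736183164593412712679433259663), (nat_lit 1142116323014624), (nat_lit 1142120642619424), (nat_lit 39200)⟩]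
def n15_22 : List KN := [⟨(nat_lit 800), (nat_lit 450), (nat_lit 12658484), (nat_lit 5638750)⟩, ⟨(nat_lit 450), (nat_lit 300), (nat_lit 18773175), (nat_lit 12658484)⟩, ⟨(nat_lit 300), (nat_lit 200), (nat_lit 25257288), (nat_lit 18773175)⟩, ⟨(nat_lit 200), (nat_lit 120), (nat_lit 38632330), (nat_lit 25257288)⟩]
def w15_22 : List ℕ := [(nat_lit 43200), (nat_lit 60320), (nat_lit 39200)]
def par15_22 : parC yB15_22 P15_22 s15_22 r15_22 q15_22 n15_22 w15_22 = true := by decide +kernel

def p15_22_0 : PF := (PF.cons (PF.cons (PF.cons (PF.cons (PF.leaf (nat_lit 808183) (nat_lit 2552306) (nat_lit 64556506) (nat_lit 2552306) [(nat_lit 0), (nat_lit 0), (nat_lit 0), (nat_lit 0)]) (PF.cons (PF.leaf (nat_lit 960423) (nat_lit 242382) (nat_lit 64253171) (nat_lit 2613259) [(nat_lit 242382), (nat_lit 0), (nat_lit 0), (nat_lit 0)]) (PF.cons (PF.leaf (nat_lit 1144991) (nat_lit 267858) (nat_lit 63892629) (nat_lit 2680465) [(nat_lit 267858), (nat_lit 0), (nat_lit 0), (nat_lit 0)]) (PF.cons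 (PF.leaf (nat_lit 1356341) (nat_lit 291680) (nat_lit 63482770) (nat_lit 2751000) [(nat_lit 291680), (nat_lit 0), (nat_lit 0), (nat_lit 0)]) (PF.cons (PF.leaf (nat_lit 1591930) (nat_lit 314181) (nat_lit 63029226) (nat_lit 2822859) [(nat_lit 314181), (nat_lit 0), (nat_lit 0), (nat_lit 0)]) (PF.cons (PF.leaf (nat_lit 1849652) (nat_lit 335539) (nat_lit 62536504) (nat_lit 2894609) [(nat_lit 335539), (nat_lit 0), (nat_lit 0), (nat_lit 0)]) (PF.cons (PF.leaf (nat_lit 2127828) (nat_lit 355853) (nat_lit 62008488) (nat_lit 2965205) [(nat_lit 355853), (nat_lit 0), (nat_lit 0), (nat_lit 0)]) (PF.cons (PF.leaf (nat_lit 2424665) (nat_lit 375180) (nat_lit 61448677) (nat_lit 3033873) [(nat_lit 375180), (nat_lit 0), (nat_lit 0),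
 (nat_lit 0)]) (PF.cons (PF.leaf (nat_lit 2738672) (nat_lit 393556) (nat_lit 60860317) (nat_lit 3100043) [(nat_lit 393556), (nat_lit 0), (nat_lit 0), (nat_lit 0)]) (PF.cons (PF.leaf (nat_lit 3068311) (nat_lit 411006) (nat_lit 60246461) (nat_lit 3163296) [(nat_lit 411006), (nat_lit 0), (nat_lit 0), (nat_lit 0)]) (PF.cons PF.nil (PF.cons PF.nil PF.nil)))))))))))) (PF.cons (PF.cons (PF.leaf (nat_lit 1350638) (nat_lit 1148889) (nat_lit 63174349) (nat_lit 2785574) [(nat_lit 0), (nat_lit 1148889), (nat_lit 0), (nat_lit 0)]) (PF.cons (PF.leaf (nat_lit 1559809) (nat_lit 308054) (nat_lit 62758473) (nat_lit 2848686) [(nat_lit 308054), (nat_lit 1193598), (nat_lit 0), (nat_lit 0)]) (PF.cons (PF.leaf (nat_lit 1795404) (nat_lit 329851) (nat_lit 62296822) (nat_lit 2913635) [(nat_lit 329851), (nat_lit 1238651), (nat_lit 0), (nat_lit 0)]) (PF.cons (PF.leaf (nat_lit 2053512) (nat_lit 350437) (nat_lit 61795466) (nat_lit 2978836) [(nat_lit 350437), (nat_lit 1283196), (nat_lit 0), (nat_lit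 0)]) (PF.cons (PF.leaf (nat_lit 2332017) (nat_lit 369948) (nat_lit 61259149) (nat_lit 3043175) [(nat_lit 369948), (nat_lit 1326694), (nat_lit 0), (nat_lit 0)]) (PF.cons (PF.leaf (nat_lit 2628971) (nat_lit 388461)
 (nat_lit 60691871) (nat_lit 3105848) [(nat_lit 388461), (nat_lit 1368785), (nat_lit 0), (nat_lit 0)]) (PF.cons (PF.leaf (nat_lit 2942696) (nat_lit 406024) (nat_lit 60097172) (nat_lit 3166269) [(nat_lit 406024), (nat_lit 1409226), (nat_lit 0), (nat_lit 0)]) (PF.cons (PF.leaf (nat_lit 3271608) (nat_lit 422667) (nat_lit 59478276) (nat_lit 3224011) [(nat_lit 422667), (nat_lit 1447850), (nat_lit 0), (nat_lit 0)]) (PF.cons (PF.leaf (nat_lit 3614222) (nat_lit 438416) (nat_lit 58838167) (nat_lit 3278769) [(nat_lit 438416), (nat_lit 1484548), (nat_lit 0), (nat_lit 0)]) (PF.cons PF.nil PF.nil)))))))))) (PF.cons (PF.cons (PF.leaf (nat_lit 2004707) (nat_lit 1288955) (nat_lit 61532996) (nat_lit 2997905) [(nat_lit 0), (nat_lit 1288955), (nat_lit 0), (nat_lit 0)]) (PF.cons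 (PF.leaf (nat_lit 2260224) (nat_lit 363871) (nat_lit 61029191) (nat_lit 3056653) [(nat_lit 363871), (nat_lit 1329548), (nat_lit 0), (nat_lit 0)]) (PF.cons (PF.leaf (nat_lit 2537359) (nat_lit 382726) (nat_lit 60489519) (nat_lit 3114930) [(nat_lit 382726), (nat_lit 1369454), (nat_lit 0), (nat_lit 0)]) (PF.cons (PF.leaf (nat_lit 2833086) (nat_lit 400539) (nat_lit 59918896) (nat_lit 3171852) [(nat_lit 400539), (nat_lit 1408222),
 (nat_lit 0), (nat_lit 0)]) (PF.cons (PF.leaf (nat_lit 3145470) (nat_lit 417380) (nat_lit 59321388) (nat_lit 3226793) [(nat_lit 417380), (nat_lit 1445554), (nat_lit 0), (nat_lit 0)]) (PF.cons (PF.leaf (nat_lit 3472791) (nat_lit 433296) (nat_lit 58700526) (nat_lit 3279302) [(nat_lit 433296), (nat_lit 1481250), (nat_lit 0), (nat_lit 0)]) (PF.cons (PF.leaf (nat_lit 3813481) (nat_lit 448320) (nat_lit 58059470) (nat_lit 3329063) [(nat_lit 448320), (nat_lit 1515178), (nat_lit 0), (nat_lit 0)]) (PF.cons PF.nil (PF.cons PF.nil PF.nil))))))))) (PF.cons (PF.cons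 (PF.leaf (nat_lit 2745356) (nat_lit 1409149) (nat_lit 59700412) (nat_lit 3180951) [(nat_lit 0), (nat_lit 1409149), (nat_lit 0), (nat_lit 0)]) (PF.cons (PF.leaf (nat_lit 3037734) (nat_lit 411442) (nat_lit 59130925) (nat_lit 3232312) [(nat_lit 411442), (nat_lit 1444710), (nat_lit 0), (nat_lit 0)]) (PF.cons (PF.leaf (nat_lit 3347559) (nat_lit 427660) (nat_lit 58534293) (nat_lit 3282001) [(nat_lit 427660), (nat_lit 1479065), (nat_lit 0), (nat_lit 0)]) (PF.cons (PF.leaf (nat_lit 3672312) (nat_lit 442929) (nat_lit 57914584) (nat_lit 3329527) [(nat_lit 442929), (nat_lit 1511971), (nat_lit 0), (nat_lit 0)]) (PF.cons (PF.leaf (nat_lit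
 4010269) (nat_lit 457297) (nat_lit 57275269) (nat_lit 3374548) [(nat_lit 457297), (nat_lit 1543267), (nat_lit 0), (nat_lit 0)]) (PF.cons (PF.leaf (nat_lit 4359926) (nat_lit 470802) (nat_lit 56619407) (nat_lit 3416832) [(nat_lit 470802), (nat_lit 1572853), (nat_lit 0), (nat_lit 0)]) (PF.cons PF.nil PF.nil))))))) (PF.cons (PF.cons (PF.leaf (nat_lit 3550030) (nat_lit 1509968) (nat_lit 57736685) (nat_lit 3332253) [(nat_lit 0), (nat_lit 1509968), (nat_lit 0), (nat_lit 0)]) (PF.cons (PF.leaf (nat_lit 3870648) (nat_lit 451589) (nat_lit 57121422) (nat_lit 3375015) [(nat_lit 451589), (nat_lit 1540196), (nat_lit 0), (nat_lit 0)]) (PF.cons (PF.leaf (nat_lit 4205023) (nat_lit 465376) (nat_lit 56486596) (nat_lit 3415532) [(nat_lit 465376), (nat_lit 1568982), (nat_lit 0), (nat_lit 0)]) (PF.cons (PF.leaf (nat_lit 4551045) (nat_lit 478291) (nat_lit 55835579) (nat_lit 3453545) [(nat_lit 478291), (nat_lit 1596203), (nat_lit 0), (nat_lit 0)]) (PF.cons PF.nil PF.nil))))) (PF.cons (PF.cons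 (PF.leaf (nat_lit 4398682) (nat_lit 1592478) (nat_lit 55694120) (nat_lit 3452299) [(nat_lit 0), (nat_lit 1592478), (nat_lit 0), (nat_lit 0)]) (PF.cons (PF.leaf (nat_lit 4739892) (nat_lit 484968) (nat_lit 55050360)
 (nat_lit 3486264) [(nat_lit 484968), (nat_lit 1617443), (nat_lit 0), (nat_lit 0)]) (PF.cons (PF.leaf (nat_lit 5091656) (nat_lit 496521) (nat_lit 54393477) (nat_lit 3517784) [(nat_lit 496521), (nat_lit 1640901), (nat_lit 0), (nat_lit 0)]) (PF.cons PF.nil PF.nil)))) (PF.cons (PF.cons (PF.leaf (nat_lit 5274054) (nat_lit 1658147) (nat_lit 53616785) (nat_lit 3543143) [(nat_lit 0), (nat_lit 1658147), (nat_lit 0), (nat_lit 0)]) (PF.cons (PF.leaf (nat_lit 5629246) (nat_lit 512221) (nat_lit 52959016) (nat_lit 3568696) [(nat_lit 512221), (nat_lit 1678146), (nat_lit 0), (nat_lit 0)]) PF.nil)) (PF.cons PF.nil (PF.cons PF.nil PF.nil))))))))) (PF.cons (PF.cons (PF.cons (PF.leaf (nat_lit 1971360) (nat_lit 3014268) (nat_lit 60873524) (nat_lit 3014268) [(nat_lit 0), (nat_lit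 0), (nat_lit 3221020), (nat_lit 0)]) (PF.cons (PF.leaf (nat_lit 2198961) (nat_lit 347491) (nat_lit 60422103) (nat_lit 3065781) [(nat_lit 347491), (nat_lit 0), (nat_lit 3273436), (nat_lit 0)]) (PF.cons (PF.leaf (nat_lit 2451705) (nat_lit 368160) (nat_lit 59927212) (nat_lit 3118334) [(nat_lit 368160), (nat_lit 0), (nat_lit 3326945), (nat_lit 0)]) (PF.cons (PF.leaf (nat_lit 2725505) (nat_lit 387308) (nat_lit 59396002) (nat_lit
 3170651) [(nat_lit 387308), (nat_lit 0), (nat_lit 3380234), (nat_lit 0)]) (PF.cons (PF.leaf (nat_lit 3017796) (nat_lit 405171) (nat_lit 58833881) (nat_lit 3221852) [(nat_lit 405171), (nat_lit 0), (nat_lit 3432394), (nat_lit 0)]) (PF.cons (PF.leaf (nat_lit 3326544) (nat_lit 421896) (nat_lit 58245244) (nat_lit 3271314) [(nat_lit 421896), (nat_lit 0), (nat_lit 3482772), (nat_lit 0)]) (PF.cons (PF.leaf (nat_lit 3649955) (nat_lit 437580) (nat_lit 57633834) (nat_lit 3318591) [(nat_lit 437580), (nat_lit 0), (nat_lit 3530905), (nat_lit 0)]) (PF.cons (PF.leaf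 (nat_lit 3986418) (nat_lit 452292) (nat_lit 57002942) (nat_lit 3363365) [(nat_lit 452292), (nat_lit 0), (nat_lit 3576457), (nat_lit 0)]) (PF.cons PF.nil (PF.cons PF.nil PF.nil)))))))))) (PF.cons (PF.cons (PF.leaf (nat_lit 2659887) (nat_lit 1397404) (nat_lit 59135439) (nat_lit 3182837) [(nat_lit 0), (nat_lit 1397404), (nat_lit 3393132), (nat_lit 0)]) (PF.cons (PF.leaf (nat_lit 2928900) (nat_lit 397753) (nat_lit 58608633) (nat_lit 3229719) [(nat_lit 397753), (nat_lit 1431873), (nat_lit 3440832), (nat_lit 0)]) (PF.cons (PF.leaf (nat_lit 3217828) (nat_lit 415103) (nat_lit 58049557) (nat_lit 3275833) [(nat_lit 415103), (nat_lit 1465468),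
 (nat_lit 3487745), (nat_lit 0)]) (PF.cons (PF.leaf (nat_lit 3523554) (nat_lit 431260) (nat_lit 57463550) (nat_lit 3320483) [(nat_lit 431260), (nat_lit 1497844), (nat_lit 3533153), (nat_lit 0)]) (PF.cons (PF.leaf (nat_lit 3844025) (nat_lit 446348) (nat_lit 56854897) (nat_lit 3363188) [(nat_lit 446348), (nat_lit 1528779), (nat_lit 3576552), (nat_lit 0)]) (PF.cons (PF.leaf (nat_lit 4177475) (nat_lit 460454) (nat_lit 56227204) (nat_lit 3403610) [(nat_lit 460454), (nat_lit 1558133), (nat_lit 3617594), (nat_lit 0)]) (PF.cons (PF.leaf (nat_lit 4522330) (nat_lit 473639) (nat_lit 55583600) (nat_lit 3441518) [(nat_lit 473639), (nat_lit 1585819), (nat_lit 3656035), (nat_lit 0)]) (PF.cons PF.nil (PF.cons PF.nil PF.nil))))))))) (PF.cons (PF.cons (PF.leaf (nat_lit 3419864) (nat_lit 1496454) (nat_lit 57252616) (nat_lit 3325102) [(nat_lit 0), (nat_lit 1496454), (nat_lit 3538184), (nat_lit 0)]) (PF.cons (PF.leaf (nat_lit 3720633) (nat_lit 439589) (nat_lit 56673130) (nat_lit 3365108)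 [(nat_lit 439589), (nat_lit 1526096), (nat_lit 3578791), (nat_lit 0)]) (PF.cons (PF.leaf (nat_lit 4037072) (nat_lit 454178) (nat_lit 56070350) (nat_lit 3403438) [(nat_lit 454178), (nat_lit 1554501), (nat_lit 3617664),
 (nat_lit 0)]) (PF.cons (PF.leaf (nat_lit 4366658) (nat_lit 467754) (nat_lit 55448431) (nat_lit 3439720) [(nat_lit 467754), (nat_lit 1581490), (nat_lit 3654415), (nat_lit 0)]) (PF.cons (PF.leaf (nat_lit 4707678) (nat_lit 480399) (nat_lit 54810820) (nat_lit 3473703) [(nat_lit 480399), (nat_lit 1606954), (nat_lit 3688784), (nat_lit 0)]) (PF.cons (PF.leaf (nat_lit 5058627) (nat_lit 492171) (nat_lit 54160478) (nat_lit 3505221) [(nat_lit 492171), (nat_lit 1630829), (nat_lit 3720599), (nat_lit 0)]) (PF.cons PF.nil PF.nil))))))) (PF.cons (PF.cons (PF.leaf (nat_lit 4230221) (nat_lit 1578056) (nat_lit 55280500) (nat_lit 3439618) [(nat_lit 0), (nat_lit 1578056), (nat_lit 3654523), (nat_lit 0)]) (PF.cons (PF.leaf (nat_lit 4554530) (nat_lit 474206) (nat_lit 54667126)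 (nat_lit 3471953) [(nat_lit 474206), (nat_lit 1602779), (nat_lit 3687185), (nat_lit 0)]) (PF.cons (PF.leaf (nat_lit 4890951) (nat_lit 486381) (nat_lit 54037765) (nat_lit 3502213) [(nat_lit 486381), (nat_lit 1626125), (nat_lit 3717694), (nat_lit 0)]) (PF.cons (PF.leaf (nat_lit 5237378) (nat_lit 497671) (nat_lit 53395696) (nat_lit 3530213) [(nat_lit 497671), (nat_lit 1648010), (nat_lit 3745858), (nat_lit 0)]) (PF.cons PF.nil
 PF.nil))))) (PF.cons (PF.cons (PF.leaf (nat_lit 5073082) (nat_lit 1643457) (nat_lit 53264705) (nat_lit 3527275) [(nat_lit 0), (nat_lit 1643457), (nat_lit 3743001), (nat_lit 0)]) (PF.cons (PF.leaf (nat_lit 5413951) (nat_lit 502470) (nat_lit 52632879) (nat_lit 3551949) [(nat_lit 502470), (nat_lit 1663449), (nat_lit 3767716), (nat_lit 0)]) (PF.cons (PF.leaf (nat_lit 5763919) (nat_lit 512507) (nat_lit 51990976) (nat_lit 3574443) [(nat_lit 512507), (nat_lit 1682052), (nat_lit 3790168), (nat_lit 0)]) (PF.cons PF.nil PF.nil)))) (PF.cons (PF.cons (PF.leaf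 (nat_lit 5933539) (nat_lit 1694170) (nat_lit 51242011) (nat_lit 3590173) [(nat_lit 0), (nat_lit 1694170), (nat_lit 3805773), (nat_lit 0)]) (PF.cons PF.nil PF.nil)) (PF.cons PF.nil (PF.cons PF.nil PF.nil)))))))) (PF.cons (PF.cons (PF.cons (PF.leaf (nat_lit 3309822) (nat_lit 3319043) (nat_lit 56724023) (nat_lit 3319043) [(nat_lit 0), (nat_lit 0), (nat_lit 3532872), (nat_lit 0)]) (PF.cons (PF.leaf (nat_lit 3587883) (nat_lit 425011) (nat_lit 56187659) (nat_lit 3355895) [(nat_lit 425011), (nat_lit 0), (nat_lit 3570123), (nat_lit 0)]) (PF.cons (PF.leaf (nat_lit 3884331) (nat_lit 440930) (nat_lit 55622442) (nat_lit 3391773) [(nat_lit 440930),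
 (nat_lit 0), (nat_lit 3606367), (nat_lit 0)]) (PF.cons (PF.leaf (nat_lit 4195957) (nat_lit 455554) (nat_lit 55033908) (nat_lit 3426137) [(nat_lit 455554), (nat_lit 0), (nat_lit 3641052), (nat_lit 0)]) (PF.cons (PF.leaf (nat_lit 4520646) (nat_lit 469048) (nat_lit 54426392) (nat_lit 3458626) [(nat_lit 469048), (nat_lit 0), (nat_lit 3673799), (nat_lit 0)]) (PF.cons (PF.leaf (nat_lit 4856625) (nat_lit 481530) (nat_lit 53803455) (nat_lit 3488992) [(nat_lit 481530), (nat_lit 0), (nat_lit 3704355), (nat_lit 0)]) (PF.cons (PF.leaf (nat_lit 5202393) (nat_lit 493085) (nat_lit 53168119) (nat_lit 3517076) [(nat_lit 493085), (nat_lit 0), (nat_lit 3732551), (nat_lit 0)]) (PF.cons PF.nil (PF.cons PF.nil PF.nil))))))))) (PF.cons (PF.cons (PF.leaf (nat_lit 4078476) (nat_lit 1562622) (nat_lit 54833580) (nat_lit 3427427) [(nat_lit 0), (nat_lit 1562622), (nat_lit 3642591), (nat_lit 0)]) (PF.cons (PF.leaf (nat_lit 4383962) (nat_lit 461715) (nat_lit 54255460) (nat_lit 3457919) [(nat_lit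 461715), (nat_lit 1587160), (nat_lit 3673278), (nat_lit 0)]) (PF.cons (PF.leaf (nat_lit 4703528) (nat_lit 474821) (nat_lit 53657401) (nat_lit 3486770) [(nat_lit 474821), (nat_lit 1610463), (nat_lit 3702267), (nat_lit
 0)]) (PF.cons (PF.leaf (nat_lit 5034735) (nat_lit 486880) (nat_lit 53043516) (nat_lit 3513704) [(nat_lit 486880), (nat_lit 1632405), (nat_lit 3729271), (nat_lit 0)]) (PF.cons (PF.leaf (nat_lit 5375846) (nat_lit 497996) (nat_lit 52417152) (nat_lit 3538544) [(nat_lit 497996), (nat_lit 1652915), (nat_lit 3754107), (nat_lit 0)]) (PF.cons PF.nil (PF.cons PF.nil PF.nil))))))) (PF.cons (PF.cons (PF.leaf (nat_lit 4886417) (nat_lit 1627961) (nat_lit 52886875) (nat_lit 3511556) [(nat_lit 0), (nat_lit 1627961), (nat_lit 3727228), (nat_lit 0)]) (PF.cons (PF.leaf (nat_lit 5211530) (nat_lit 491487) (nat_lit 52284376) (nat_lit 3535234) [(nat_lit 491487), (nat_lit 1647992), (nat_lit 3750865), (nat_lit 0)]) (PF.cons (PF.leaf (nat_lit 5547336) (nat_lit 502232) (nat_lit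 51668835) (nat_lit 3557009) [(nat_lit 502232), (nat_lit 1666722), (nat_lit 3772529), (nat_lit 0)]) (PF.cons (PF.leaf (nat_lit 5891799) (nat_lit 512095) (nat_lit 51043386) (nat_lit 3576755) [(nat_lit 512095), (nat_lit 1684099), (nat_lit 3792091), (nat_lit 0)]) (PF.cons PF.nil PF.nil))))) (PF.cons (PF.cons (PF.leaf (nat_lit 5717765) (nat_lit 1679003) (nat_lit 50923141) (nat_lit 3572652) [(nat_lit 0), (nat_lit 1679003), (nat_lit
 3788004), (nat_lit 0)]) (PF.cons (PF.leaf (nat_lit 6056159) (nat_lit 515338) (nat_lit 50309890) (nat_lit 3589680) [(nat_lit 515338), (nat_lit 1694798), (nat_lit 3804753), (nat_lit 0)]) (PF.cons (PF.leaf (nat_lit 6402442) (nat_lit 524054) (nat_lit 49688965) (nat_lit 3604774) [(nat_lit 524054), (nat_lit 1709323), (nat_lit 3819496), (nat_lit 0)]) (PF.cons PF.nil PF.nil)))) (PF.cons (PF.cons (PF.leaf (nat_lit 6559680) (nat_lit 1717269) (nat_lit 48972764) (nat_lit 3612810) [(nat_lit 0), (nat_lit 1717269), (nat_lit 3827079), (nat_lit 0)]) (PF.cons PF.nil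 PF.nil)) (PF.cons PF.nil PF.nil)))))) (PF.cons (PF.cons (PF.cons (PF.leaf (nat_lit 4716533) (nat_lit 3496040) (nat_lit 52477605) (nat_lit 3496040) [(nat_lit 0), (nat_lit 0), (nat_lit 3711722), (nat_lit 0)]) (PF.cons (PF.leaf (nat_lit 5023865) (nat_lit 478784) (nat_lit 51909117) (nat_lit 3518564) [(nat_lit 478784), (nat_lit 0), (nat_lit 3734115), (nat_lit 0)]) (PF.cons (PF.leaf (nat_lit 5343945) (nat_lit 490552) (nat_lit 51323557) (nat_lit 3539514) [(nat_lit 490552), (nat_lit 0), (nat_lit 3754878), (nat_lit 0)]) (PF.cons (PF.leaf (nat_lit 5674340) (nat_lit 501258) (nat_lit 50724921) (nat_lit 3558692) [(nat_lit 501258), (nat_lit 0),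
 (nat_lit 3773807), (nat_lit 0)]) (PF.cons (PF.leaf (nat_lit 6013368) (nat_lit 511024) (nat_lit 50116402) (nat_lit 3575975) [(nat_lit 511024), (nat_lit 0), (nat_lit 3790778), (nat_lit 0)]) (PF.cons PF.nil (PF.cons PF.nil PF.nil))))))) (PF.cons (PF.cons (PF.leaf (nat_lit 5516162) (nat_lit 1662996) (nat_lit 50580048) (nat_lit 3555083) [(nat_lit 0), (nat_lit 1662996), (nat_lit 3770228), (nat_lit 0)]) (PF.cons (PF.leaf (nat_lit 5839928) (nat_lit 504327) (nat_lit 49994652) (nat_lit 3571590) [(nat_lit 504327), (nat_lit 1679036), (nat_lit 3786402), (nat_lit 0)]) (PF.cons (PF.leaf (nat_lit 6173162) (nat_lit 513811) (nat_lit 49398610) (nat_lit 3586367) [(nat_lit 513811), (nat_lit 1693860), (nat_lit 3800783), (nat_lit 0)]) (PF.cons (PF.leaf (nat_lit 6513939) (nat_lit 522427) (nat_lit 48794883) (nat_lit 3599332) [(nat_lit 522427), (nat_lit 1707441), (nat_lit 3813291), (nat_lit 0)]) (PF.cons PF.nil PF.nil))))) (PF.cons (PF.cons (PF.leaf (nat_lit 6332082) (nat_lit 1702011) (nat_lit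 48685185) (nat_lit 3594452) [(nat_lit 0), (nat_lit 1702011), (nat_lit 3808383), (nat_lit 0)]) (PF.cons (PF.leaf (nat_lit 6666489) (nat_lit 524384) (nat_lit 48094824) (nat_lit 3605210) [(nat_lit 524384), (nat_lit
 1714277), (nat_lit 3818612), (nat_lit 0)]) (PF.cons PF.nil (PF.cons PF.nil PF.nil)))) (PF.cons (PF.cons (PF.leaf (nat_lit 7153205) (nat_lit 1729947) (nat_lit 46817941) (nat_lit 3616176) [(nat_lit 0), (nat_lit 1729947), (nat_lit 3828284), (nat_lit 0)]) (PF.cons PF.nil PF.nil)) (PF.cons PF.nil PF.nil))))) (PF.cons (PF.cons (PF.cons (PF.leaf (nat_lit 6118396) (nat_lit 3575886) (nat_lit 48374897) (nat_lit 3575886) [(nat_lit 0), (nat_lit 0), (nat_lit 3789507), (nat_lit 0)]) (PF.cons (PF.leaf (nat_lit 6439202) (nat_lit 513484) (nat_lit 47810698) (nat_lit 3586478) [(nat_lit 513484), (nat_lit 0), (nat_lit 3799538), (nat_lit 0)]) (PF.cons (PF.leaf (nat_lit 6768487) (nat_lit 521861) (nat_lit 47237785) (nat_lit 3595505) [(nat_lit 521861), (nat_lit 0), (nat_lit 3807949),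 (nat_lit 0)]) (PF.cons PF.nil (PF.cons PF.nil PF.nil))))) (PF.cons (PF.cons (PF.leaf (nat_lit 6916317) (nat_lit 1714870) (nat_lit 46559297) (nat_lit 3597555) [(nat_lit 0), (nat_lit 1714870), (nat_lit 3809272), (nat_lit 0)]) (PF.cons (PF.leaf (nat_lit 7245662) (nat_lit 530289) (nat_lit 45994395) (nat_lit 3603194) [(nat_lit 530289), (nat_lit 1724175), (nat_lit 3814189), (nat_lit 0)]) (PF.cons PF.nil (PF.cons PF.nil PF.nil))))
 (PF.cons (PF.cons (PF.leaf (nat_lit 7715417) (nat_lit 1734257) (nat_lit 44780956) (nat_lit 3604404) [(nat_lit 0), (nat_lit 1734257), (nat_lit 3813734), (nat_lit 0)]) (PF.cons PF.nil PF.nil)) PF.nil))) (PF.cons (PF.cons (PF.cons (PF.leaf (nat_lit 7471407) (nat_lit 3585923) (nat_lit 44548723) (nat_lit 3585923) [(nat_lit 0), (nat_lit 0), (nat_lit 3794833), (nat_lit 0)]) (PF.cons (PF.leaf (nat_lit 7794964) (nat_lit 533622) (nat_lit 44010566) (nat_lit 3587401) [(nat_lit 533622), (nat_lit 0), (nat_lit 3795444), (nat_lit 0)]) PF.nil)) (PF.cons PF.nil PF.nil))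 (PF.cons PF.nil (PF.cons PF.nil (PF.cons PF.nil PF.nil))))))))) (PF.cons (PF.cons (PF.cons (PF.cons (PF.leaf (nat_lit 3123529) (nat_lit 3221017) (nat_lit 54438342) (nat_lit 3221017) [(nat_lit 0), (nat_lit 0), (nat_lit 0), (nat_lit 9449452)]) (PF.cons (PF.leaf (nat_lit 3357020) (nat_lit 381206) (nat_lit 54007046) (nat_lit 3255241) [(nat_lit 381206), (nat_lit 0), (nat_lit 0), (nat_lit 9465318)]) (PF.cons (PF.leaf (nat_lit 3613508) (nat_lit 400459) (nat_lit 53538586) (nat_lit 3289503) [(nat_lit 400459), (nat_lit 0), (nat_lit 0), (nat_lit 9479805)]) (PF.cons (PF.leaf (nat_lit 3888617) (nat_lit 417771) (nat_lit 53040343) (nat_lit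
 3322959) [(nat_lit 417771), (nat_lit 0), (nat_lit 0), (nat_lit 9492194)]) (PF.cons (PF.leaf (nat_lit 4179620) (nat_lit 433498) (nat_lit 52517794) (nat_lit 3355058) [(nat_lit 433498), (nat_lit 0), (nat_lit 0), (nat_lit 9501966)]) (PF.cons (PF.leaf (nat_lit 4484337) (nat_lit 447874) (nat_lit 51975264) (nat_lit 3385431) [(nat_lit 447874), (nat_lit 0), (nat_lit 0), (nat_lit 9508745)]) (PF.cons (PF.leaf (nat_lit 4800936) (nat_lit 461065) (nat_lit 51416314) (nat_lit 3413833) [(nat_lit 461065), (nat_lit 0), (nat_lit 0), (nat_lit 9512269)]) (PF.cons (PF.leaf (nat_lit 5127843) (nat_lit 473197) (nat_lit 50843964) (nat_lit 3440107) [(nat_lit 473197), (nat_lit 0), (nat_lit 0), (nat_lit 9512360)]) (PF.cons (PF.leaf (nat_lit 5463697) (nat_lit 484363) (nat_lit 50260824) (nat_lit 3464160) [(nat_lit 484363), (nat_lit 0), (nat_lit 0), (nat_lit 9508916)]) (PF.cons (PF.leaf (nat_lit 5807261) (nat_lit 494644) (nat_lit 49669182) (nat_lit 3485945) [(nat_lit 494644), (nat_lit 0), (nat_lit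 0), (nat_lit 9501888)]) (PF.cons PF.nil (PF.cons PF.nil PF.nil)))))))))))) (PF.cons (PF.cons (PF.leaf (nat_lit 3803971) (nat_lit 1486071) (nat_lit 52806195) (nat_lit 3326403) [(nat_lit 0), (nat_lit 1486071), (nat_lit
 0), (nat_lit 9490143)]) (PF.cons (PF.leaf (nat_lit 4072233) (nat_lit 424479) (nat_lit 52317944) (nat_lit 3355862) [(nat_lit 424479), (nat_lit 1512439), (nat_lit 0), (nat_lit 9498088)]) (PF.cons (PF.leaf (nat_lit 4357935) (nat_lit 439800) (nat_lit 51803826) (nat_lit 3384265) [(nat_lit 439800), (nat_lit 1537620), (nat_lit 0), (nat_lit 9503499)]) (PF.cons (PF.leaf (nat_lit 4657914) (nat_lit 453726) (nat_lit 51269006) (nat_lit 3411187) [(nat_lit 453726), (nat_lit 1561420), (nat_lit 0), (nat_lit 9506018)]) (PF.cons (PF.leaf (nat_lit 4970070) (nat_lit 466451) (nat_lit 50717516) (nat_lit 3436353) [(nat_lit 466451), (nat_lit 1583739), (nat_lit 0), (nat_lit 9505398)]) (PF.cons (PF.leaf (nat_lit 5292724) (nat_lit 478112) (nat_lit 50152645) (nat_lit 3459583) [(nat_lit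 478112), (nat_lit 1604534), (nat_lit 0), (nat_lit 9501484)]) (PF.cons (PF.leaf (nat_lit 5624355) (nat_lit 488816) (nat_lit 49577161) (nat_lit 3480770) [(nat_lit 488816), (nat_lit 1623796), (nat_lit 0), (nat_lit 9494187)]) (PF.cons (PF.leaf (nat_lit 5963678) (nat_lit 498644) (nat_lit 48993435) (nat_lit 3499856) [(nat_lit 498644), (nat_lit 1641536), (nat_lit 0), (nat_lit 9483474)]) (PF.cons PF.nil (PF.cons PF.nil PF.nil))))))))))
 (PF.cons (PF.cons (PF.leaf (nat_lit 4537740) (nat_lit 1557036) (nat_lit 51084920) (nat_lit 3410150) [(nat_lit 0), (nat_lit 1557036), (nat_lit 0), (nat_lit 9499669)]) (PF.cons (PF.leaf (nat_lit 4831346) (nat_lit 458712) (nat_lit 50560713) (nat_lit 3433798) [(nat_lit 458712), (nat_lit 1578680), (nat_lit 0), (nat_lit 9498227)]) (PF.cons (PF.leaf (nat_lit 5138242) (nat_lit 471074) (nat_lit 50018908) (nat_lit 3455909) [(nat_lit 471074), (nat_lit 1599040), (nat_lit 0), (nat_lit 9493765)]) (PF.cons (PF.leaf (nat_lit 5455962) (nat_lit 482347) (nat_lit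 49463280) (nat_lit 3476277) [(nat_lit 482347), (nat_lit 1618035), (nat_lit 0), (nat_lit 9486143)]) (PF.cons (PF.leaf (nat_lit 5782901) (nat_lit 492653) (nat_lit 48896876) (nat_lit 3494775) [(nat_lit 492653), (nat_lit 1635630), (nat_lit 0), (nat_lit 9475285)]) (PF.cons (PF.leaf (nat_lit 6117641) (nat_lit 502084) (nat_lit 48322237) (nat_lit 3511333) [(nat_lit 502084), (nat_lit 1651823), (nat_lit 0), (nat_lit 9461172)]) (PF.cons (PF.leaf (nat_lit 6458978) (nat_lit 510715) (nat_lit 47741523) (nat_lit 3525922) [(nat_lit 510715), (nat_lit 1666627), (nat_lit 0), (nat_lit 9443822)]) (PF.cons PF.nil (PF.cons PF.nil PF.nil))))))))) (PF.cons (PF.cons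
 (PF.leaf (nat_lit 5306560) (nat_lit 1612762) (nat_lit 49320263) (nat_lit 3472696) [(nat_lit 0), (nat_lit 1612762), (nat_lit 0), (nat_lit 9477564)]) (PF.cons (PF.leaf (nat_lit 5618186) (nat_lit 485906) (nat_lit 48775832) (nat_lit 3490367) [(nat_lit 485906), (nat_lit 1630053), (nat_lit 0), (nat_lit 9466545)]) (PF.cons (PF.leaf (nat_lit 5939816) (nat_lit 495886) (nat_lit 48220034) (nat_lit 3506341) [(nat_lit 495886), (nat_lit 1646078), (nat_lit 0), (nat_lit 9452426)]) (PF.cons (PF.leaf (nat_lit 6269519) (nat_lit 504979) (nat_lit 47655697) (nat_lit 3520532) [(nat_lit 504979), (nat_lit 1660814), (nat_lit 0), (nat_lit 9435200)]) (PF.cons (PF.leaf (nat_lit 6605975) (nat_lit 513269) (nat_lit 47085154) (nat_lit 3532898) [(nat_lit 513269), (nat_lit 1674262), (nat_lit 0), (nat_lit 9414894)]) (PF.cons (PF.leaf (nat_lit 6948050) (nat_lit 520823) (nat_lit 46510373) (nat_lit 3543431) [(nat_lit 520823), (nat_lit 1686440), (nat_lit 0), (nat_lit 9391569)]) (PF.cons PF.nil PF.nil)))))))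 (PF.cons (PF.cons (PF.leaf (nat_lit 6096042) (nat_lit 1655232) (nat_lit 47546463) (nat_lit 3515620) [(nat_lit 0), (nat_lit 1655232), (nat_lit 0), (nat_lit 9425800)]) (PF.cons (PF.leaf (nat_lit 6419804) (nat_lit
 507336) (nat_lit 46993752) (nat_lit 3527593) [(nat_lit 507336), (nat_lit 1668593), (nat_lit 0), (nat_lit 9405753)]) (PF.cons (PF.leaf (nat_lit 6750974) (nat_lit 515338) (nat_lit 46434417) (nat_lit 3537883) [(nat_lit 515338), (nat_lit 1680766), (nat_lit 0), (nat_lit 9382769)]) (PF.cons (PF.leaf (nat_lit 7087964) (nat_lit 522599) (nat_lit 45870602) (nat_lit 3546470) [(nat_lit 522599), (nat_lit 1691756), (nat_lit 0), (nat_lit 9356914)]) (PF.cons PF.nil PF.nil))))) (PF.cons (PF.cons (PF.leaf (nat_lit 6894777) (nat_lit 1686209) (nat_lit 45789147) (nat_lit 3540998) [(nat_lit 0), (nat_lit 1686209), (nat_lit 0), (nat_lit 9347621)]) (PF.cons (PF.leaf (nat_lit 7225976) (nat_lit 523943) (nat_lit 45237184) (nat_lit 3547772) [(nat_lit 523943), (nat_lit 1696082), (nat_lit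 0), (nat_lit 9319497)]) (PF.cons (PF.leaf (nat_lit 7562495) (nat_lit 530277) (nat_lit 44682203) (nat_lit 3552969) [(nat_lit 530277), (nat_lit 1704871), (nat_lit 0), (nat_lit 9288726)]) (PF.cons PF.nil PF.nil)))) (PF.cons (PF.cons (PF.leaf (nat_lit 7693806) (nat_lit 1707294) (nat_lit 44067172) (nat_lit 3551063) [(nat_lit 0), (nat_lit 1707294), (nat_lit 0), (nat_lit 9246812)]) (PF.cons PF.nil PF.nil)) (PF.cons PF.nil (PF.cons
 PF.nil PF.nil))))))))) (PF.cons (PF.cons (PF.cons (PF.leaf (nat_lit 4398749) (nat_lit 3393575) (nat_lit 50638132) (nat_lit 3393575) [(nat_lit 0), (nat_lit 0), (nat_lit 3606618), (nat_lit 9470487)]) (PF.cons (PF.leaf (nat_lit 4671382) (nat_lit 442566) (nat_lit 50153861) (nat_lit 3415918) [(nat_lit 442566), (nat_lit 0), (nat_lit 3628632), (nat_lit 9467833)]) (PF.cons (PF.leaf (nat_lit 4960155) (nat_lit 456580) (nat_lit 49646507) (nat_lit 3437147) [(nat_lit 456580), (nat_lit 0), (nat_lit 3649507), (nat_lit 9462490)]) (PF.cons (PF.leaf (nat_lit 5261925)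 (nat_lit 469167) (nat_lit 49121179) (nat_lit 3456943) [(nat_lit 469167), (nat_lit 0), (nat_lit 3668916), (nat_lit 9454270)]) (PF.cons (PF.leaf (nat_lit 5574598) (nat_lit 480549) (nat_lit 48581795) (nat_lit 3475103) [(nat_lit 480549), (nat_lit 0), (nat_lit 3686652), (nat_lit 9443062)]) (PF.cons (PF.leaf (nat_lit 5896493) (nat_lit 490882) (nat_lit 48031497) (nat_lit 3491506) [(nat_lit 490882), (nat_lit 0), (nat_lit 3702587), (nat_lit 9428810)]) (PF.cons (PF.leaf (nat_lit 6226210) (nat_lit 500282) (nat_lit 47472880) (nat_lit 3506081) [(nat_lit 500282), (nat_lit 0), (nat_lit 3716649), (nat_lit 9411506)]) (PF.cons (PF.leaf (nat_lit 6562496)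
 (nat_lit 508841) (nat_lit 46908139) (nat_lit 3518800) [(nat_lit 508841), (nat_lit 0), (nat_lit 3728807), (nat_lit 9391176)]) (PF.cons PF.nil (PF.cons PF.nil PF.nil)))))))))) (PF.cons (PF.cons (PF.leaf (nat_lit 5131505) (nat_lit 1594224) (nat_lit 48949468) (nat_lit 3454067) [(nat_lit 0), (nat_lit 1594224), (nat_lit 3666090), (nat_lit 9444961)]) (PF.cons (PF.leaf (nat_lit 5426263) (nat_lit 472557) (nat_lit 48436706) (nat_lit 3471174) [(nat_lit 472557), (nat_lit 1611985), (nat_lit 3682755), (nat_lit 9433632)]) (PF.cons (PF.leaf (nat_lit 5733097) (nat_lit 483681) (nat_lit 47908757) (nat_lit 3486830) [(nat_lit 483681), (nat_lit 1628524), (nat_lit 3697927), (nat_lit 9419408)]) (PF.cons (PF.leaf (nat_lit 6049617) (nat_lit 493721) (nat_lit 47369252) (nat_lit 3500888) [(nat_lit 493721), (nat_lit 1643794), (nat_lit 3711459), (nat_lit 9402252)]) (PF.cons (PF.leaf (nat_lit 6374239) (nat_lit 502813) (nat_lit 46821076) (nat_lit 3513265) [(nat_lit 502813), (nat_lit 1657781), (nat_lit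 3723265), (nat_lit 9382171)]) (PF.cons (PF.leaf (nat_lit 6705625) (nat_lit 511058) (nat_lit 46266597) (nat_lit 3523922) [(nat_lit 511058), (nat_lit 1670495), (nat_lit 3733303), (nat_lit 9359201)]) (PF.cons (PF.leaf
 (nat_lit 7042630) (nat_lit 518538) (nat_lit 45707800) (nat_lit 3532849) [(nat_lit 518538), (nat_lit 1681962), (nat_lit 3741563), (nat_lit 9333408)]) (PF.cons PF.nil (PF.cons PF.nil PF.nil))))))))) (PF.cons (PF.cons (PF.leaf (nat_lit 5891836) (nat_lit 1638070) (nat_lit 47237543) (nat_lit 3496284) [(nat_lit 0), (nat_lit 1638070), (nat_lit 3706843), (nat_lit 9392001)]) (PF.cons (PF.leaf (nat_lit 6201857) (nat_lit 495970) (nat_lit 46710491) (nat_lit 3508143) [(nat_lit 495970), (nat_lit 1651922), (nat_lit 3718122), (nat_lit 9372239)]) (PF.cons (PF.leaf (nat_lit 6520844) (nat_lit 504820) (nat_lit 46174020) (nat_lit 3518463) [(nat_lit 504820), (nat_lit 1664604), (nat_lit 3727819), (nat_lit 9349658)]) (PF.cons (PF.leaf (nat_lit 6846930) (nat_lit 512806) (nat_lit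 45630787) (nat_lit 3527194) [(nat_lit 512806), (nat_lit 1676110), (nat_lit 3735879), (nat_lit 9324310)]) (PF.cons (PF.leaf (nat_lit 7178860) (nat_lit 520019) (nat_lit 45082955) (nat_lit 3534317) [(nat_lit 520019), (nat_lit 1686454), (nat_lit 3742286), (nat_lit 9296267)]) (PF.cons PF.nil (PF.cons PF.nil PF.nil))))))) (PF.cons (PF.cons (PF.leaf (nat_lit 6666947) (nat_lit 1670360) (nat_lit 45531387) (nat_lit 3521794) [(nat_lit 0),
 (nat_lit 1670360), (nat_lit 3730432), (nat_lit 9314118)]) (PF.cons (PF.leaf (nat_lit 6986884) (nat_lit 514087) (nat_lit 45000501) (nat_lit 3528729) [(nat_lit 514087), (nat_lit 1680728), (nat_lit 3736652), (nat_lit 9286656)]) (PF.cons (PF.leaf (nat_lit 7313366) (nat_lit 521082) (nat_lit 44464476) (nat_lit 3534173) [(nat_lit 521082), (nat_lit 1690017), (nat_lit 3741335), (nat_lit 9256610)]) (PF.cons (PF.leaf (nat_lit 7644873) (nat_lit 527368) (nat_lit 43925289) (nat_lit 3538125) [(nat_lit 527368), (nat_lit 1698243), (nat_lit 3744482), (nat_lit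 9224078)]) (PF.cons PF.nil PF.nil))))) (PF.cons (PF.cons (PF.leaf (nat_lit 7446922) (nat_lit 1692708) (nat_lit 43852084) (nat_lit 3532511) [(nat_lit 0), (nat_lit 1692708), (nat_lit 3738809), (nat_lit 9214572)]) (PF.cons (PF.leaf (nat_lit 7772576) (nat_lit 527832) (nat_lit 43325062) (nat_lit 3535007) [(nat_lit 527832), (nat_lit 1700015), (nat_lit 3740463), (nat_lit 9180386)]) (PF.cons PF.nil (PF.cons PF.nil PF.nil)))) (PF.cons (PF.cons (PF.leaf (nat_lit 8224094) (nat_lit 1706559) (nat_lit 42214696) (nat_lit 3530430) [(nat_lit 0), (nat_lit 1706559), (nat_lit 3734021), (nat_lit 9096864)]) (PF.cons PF.nil PF.nil)) (PF.cons PF.nil (PF.cons PF.nil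
 PF.nil)))))))) (PF.cons (PF.cons (PF.cons (PF.leaf (nat_lit 5704204) (nat_lit 3476687) (nat_lit 46901218) (nat_lit 3476687) [(nat_lit 0), (nat_lit 0), (nat_lit 3687019), (nat_lit 9356867)]) (PF.cons (PF.leaf (nat_lit 5998361) (nat_lit 482844) (nat_lit 46403946) (nat_lit 3488357) [(nat_lit 482844), (nat_lit 0), (nat_lit 3698070), (nat_lit 9337524)]) (PF.cons (PF.leaf (nat_lit 6303583) (nat_lit 492867) (nat_lit 45893519) (nat_lit 3498667) [(nat_lit 492867), (nat_lit 0), (nat_lit 3707720), (nat_lit 9315451)]) (PF.cons (PF.leaf (nat_lit 6617497) (nat_lit 501820) (nat_lit 45373394) (nat_lit 3507517) [(nat_lit 501820), (nat_lit 0), (nat_lit 3715872), (nat_lit 9290693)]) (PF.cons (PF.leaf (nat_lit 6938577) (nat_lit 509850) (nat_lit 44846284) (nat_lit 3514859) [(nat_lit 509850), (nat_lit 0), (nat_lit 3722476), (nat_lit 9263315)]) (PF.cons (PF.leaf (nat_lit 7265542) (nat_lit 517064) (nat_lit 44314386) (nat_lit 3520678) [(nat_lit 517064), (nat_lit 0), (nat_lit 3727515), (nat_lit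 9233397)]) (PF.cons PF.nil PF.nil))))))) (PF.cons (PF.cons (PF.leaf (nat_lit 6452864) (nat_lit 1653533) (nat_lit 45252613) (nat_lit 3502225) [(nat_lit 0), (nat_lit 1653533), (nat_lit 3710529), (nat_lit 9279381)])
 (PF.cons (PF.leaf (nat_lit 6760034) (nat_lit 502987) (nat_lit 44745636) (nat_lit 3509293) [(nat_lit 502987), (nat_lit 1664479), (nat_lit 3716860), (nat_lit 9252694)]) (PF.cons (PF.leaf (nat_lit 7075283) (nat_lit 510847) (nat_lit 44230817) (nat_lit 3514969) [(nat_lit 510847), (nat_lit 1674346), (nat_lit 3721760), (nat_lit 9223463)]) (PF.cons (PF.leaf (nat_lit 7396808) (nat_lit 517869) (nat_lit 43710641) (nat_lit 3519230) [(nat_lit 517869), (nat_lit 1683142), (nat_lit 3725204), (nat_lit 9191783)]) (PF.cons (PF.leaf (nat_lit 7723398) (nat_lit 524149) (nat_lit 43187107) (nat_lit 3522075) [(nat_lit 524149), (nat_lit 1690888), (nat_lit 3727193), (nat_lit 9157758)]) PF.nil))))) (PF.cons (PF.cons (PF.leaf (nat_lit 7211689) (nat_lit 1677339) (nat_lit 43620459) (nat_lit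 3513554) [(nat_lit 0), (nat_lit 1677339), (nat_lit 3719461), (nat_lit 9181196)]) (PF.cons (PF.leaf (nat_lit 7526967) (nat_lit 518266) (nat_lit 43112931) (nat_lit 3516371) [(nat_lit 518266), (nat_lit 1685195), (nat_lit 3721429), (nat_lit 9147994)]) (PF.cons (PF.leaf (nat_lit 7848059) (nat_lit 524388) (nat_lit 42601420) (nat_lit 3517866) [(nat_lit 524388), (nat_lit 1692072), (nat_lit 3722038), (nat_lit 9112527)]) (PF.cons
 PF.nil PF.nil)))) (PF.cons (PF.cons (PF.leaf (nat_lit 7972004) (nat_lit 1692539) (nat_lit 42022106) (nat_lit 3512430) [(nat_lit 0), (nat_lit 1692539), (nat_lit 3715609), (nat_lit 9065439)]) (PF.cons (PF.leaf (nat_lit 8291610) (nat_lit 529578) (nat_lit 41520606) (nat_lit 3511457) [(nat_lit 529578), (nat_lit 1697707), (nat_lit 3713686), (nat_lit 9026676)]) PF.nil)) (PF.cons PF.nil (PF.cons PF.nil PF.nil)))))) (PF.cons (PF.cons (PF.cons (PF.leaf (nat_lit 6989766) (nat_lit 3494140) (nat_lit 43369225) (nat_lit 3494140) [(nat_lit 0), (nat_lit 0), (nat_lit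 3699671), (nat_lit 9146433)]) (PF.cons (PF.leaf (nat_lit 7293142) (nat_lit 507486) (nat_lit 42883867) (nat_lit 3497270) [(nat_lit 507486), (nat_lit 0), (nat_lit 3701943), (nat_lit 9114356)]) (PF.cons (PF.leaf (nat_lit 7603877) (nat_lit 514479) (nat_lit 42391941) (nat_lit 3499144) [(nat_lit 514479), (nat_lit 0), (nat_lit 3702925), (nat_lit 9079991)]) (PF.cons (PF.leaf (nat_lit 7920196) (nat_lit 520661) (nat_lit 41895763) (nat_lit 3499758) [(nat_lit 520661), (nat_lit 0), (nat_lit 3702612), (nat_lit 9043468)]) (PF.cons PF.nil PF.nil))))) (PF.cons (PF.cons (PF.leaf (nat_lit 7731115) (nat_lit 1677746) (nat_lit 41814108) (nat_lit 3493964)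
 [(nat_lit 0), (nat_lit 1677746), (nat_lit 3696738), (nat_lit 9032777)]) (PF.cons (PF.leaf (nat_lit 8041157) (nat_lit 520334) (nat_lit 41330577) (nat_lit 3493426) [(nat_lit 520334), (nat_lit 1683497), (nat_lit 3695252), (nat_lit 8995219)]) (PF.cons (PF.leaf (nat_lit 8356410) (nat_lit 525700) (nat_lit 40843960) (nat_lit 3491719) [(nat_lit 525700), (nat_lit 1688360), (nat_lit 3692563), (nat_lit 8955680)]) (PF.cons PF.nil PF.nil)))) (PF.cons (PF.cons (PF.leaf (nat_lit 8471409) (nat_lit 1687037) (nat_lit 40297163) (nat_lit 3483319) [(nat_lit 0), (nat_lit 1687037), (nat_lit 3683079), (nat_lit 8905017)]) (PF.cons PF.nil PF.nil)) (PF.cons PF.nil (PF.cons PF.nil PF.nil))))) (PF.cons (PF.cons (PF.cons (PF.leaf (nat_lit 8226363) (nat_lit 3465506) (nat_lit 40110408) (nat_lit 3465506) [(nat_lit 0), (nat_lit 0), (nat_lit 3664859), (nat_lit 8873460)]) (PF.cons (PF.leaf (nat_lit 8530779) (nat_lit 520678) (nat_lit 39650875) (nat_lit 3462249) [(nat_lit 520678), (nat_lit 0), (nat_lit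 3660581), (nat_lit 8832681)]) (PF.cons (PF.leaf (nat_lit 8839921) (nat_lit 525388) (nat_lit 39188951) (nat_lit 3457955) [(nat_lit 525388), (nat_lit 0), (nat_lit 3655239), (nat_lit 8790170)]) (PF.cons PF.nil PF.nil))))
 (PF.cons (PF.cons (PF.leaf (nat_lit 8946638) (nat_lit 1677292) (nat_lit 38673611) (nat_lit 3447250) [(nat_lit 0), (nat_lit 1677292), (nat_lit 3643387), (nat_lit 8737107)]) (PF.cons PF.nil PF.nil)) (PF.cons PF.nil PF.nil))) (PF.cons (PF.cons (PF.cons (PF.leaf (nat_lit 9399240) (nat_lit 3405896) (nat_lit 37146821) (nat_lit 3405896) [(nat_lit 0), (nat_lit 0), (nat_lit 3598279), (nat_lit 8564696)]) (PF.cons PF.nil PF.nil)) (PF.cons PF.nil PF.nil)) (PF.cons PF.nil (PF.cons PF.nil PF.nil)))))))) (PF.cons (PF.cons (PF.cons (PF.cons (PF.leaf (nat_lit 5338355) (nat_lit 3371968) (nat_lit 45421659) (nat_lit 3371968) [(nat_lit 0), (nat_lit 0), (nat_lit 0), (nat_lit 9157592)]) (PF.cons (PF.leaf (nat_lit 5602149) (nat_lit 446998) (nat_lit 44995662) (nat_lit 3385159)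 [(nat_lit 446998), (nat_lit 0), (nat_lit 0), (nat_lit 9140496)]) (PF.cons (PF.leaf (nat_lit 5880434) (nat_lit 459506) (nat_lit 44550843) (nat_lit 3397219) [(nat_lit 459506), (nat_lit 0), (nat_lit 0), (nat_lit 9120868)]) (PF.cons (PF.leaf (nat_lit 6170098) (nat_lit 470544) (nat_lit 44091720) (nat_lit 3407966) [(nat_lit 470544), (nat_lit 0), (nat_lit 0), (nat_lit 9098746)]) (PF.cons (PF.leaf (nat_lit 6469160) (nat_lit 480360) (nat_lit
 43621711) (nat_lit 3417296) [(nat_lit 480360), (nat_lit 0), (nat_lit 0), (nat_lit 9074182)]) (PF.cons (PF.leaf (nat_lit 6776030) (nat_lit 489133) (nat_lit 43143515) (nat_lit 3425157) [(nat_lit 489133), (nat_lit 0), (nat_lit 0), (nat_lit 9047236)]) (PF.cons (PF.leaf (nat_lit 7089393) (nat_lit 496997) (nat_lit 42659327) (nat_lit 3431533) [(nat_lit 496997), (nat_lit 0), (nat_lit 0), (nat_lit 9017982)]) (PF.cons (PF.leaf (nat_lit 7408136) (nat_lit 504057) (nat_lit 42170971) (nat_lit 3436431) [(nat_lit 504057), (nat_lit 0), (nat_lit 0), (nat_lit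 8986505)]) (PF.cons PF.nil (PF.cons PF.nil PF.nil)))))))))) (PF.cons (PF.cons (PF.leaf (nat_lit 6032602) (nat_lit 1586605) (nat_lit 43946876) (nat_lit 3402968) [(nat_lit 0), (nat_lit 1586605), (nat_lit 0), (nat_lit 9086181)]) (PF.cons (PF.leaf (nat_lit 6314964) (nat_lit 472138) (nat_lit 43500210) (nat_lit 3411820) [(nat_lit 472138), (nat_lit 1599804), (nat_lit 0), (nat_lit 9062419)]) (PF.cons (PF.leaf (nat_lit 6607955) (nat_lit 481795) (nat_lit 43041512) (nat_lit 3419395) [(nat_lit 481795), (nat_lit 1611841), (nat_lit 0), (nat_lit 9036236)]) (PF.cons (PF.leaf (nat_lit 6909305) (nat_lit 490374) (nat_lit 42573909) (nat_lit 3425626) [(nat_lit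
 490374), (nat_lit 1622712), (nat_lit 0), (nat_lit 9007721)]) (PF.cons (PF.leaf (nat_lit 7217529) (nat_lit 498026) (nat_lit 42099854) (nat_lit 3430484) [(nat_lit 498026), (nat_lit 1632437), (nat_lit 0), (nat_lit 8976965)]) (PF.cons (PF.leaf (nat_lit 7531398) (nat_lit 504866) (nat_lit 41621329) (nat_lit 3433967) [(nat_lit 504866), (nat_lit 1641053), (nat_lit 0), (nat_lit 8944065)]) (PF.cons (PF.leaf (nat_lit 7849874) (nat_lit 510984) (nat_lit 41139971) (nat_lit 3436093) [(nat_lit 510984), (nat_lit 1648600), (nat_lit 0), (nat_lit 8909119)]) (PF.cons PF.nil (PF.cons PF.nil PF.nil))))))))) (PF.cons (PF.cons (PF.leaf (nat_lit 6747345) (nat_lit 1616447) (nat_lit 42464167) (nat_lit 3419917) [(nat_lit 0), (nat_lit 1616447), (nat_lit 0), (nat_lit 8995916)]) (PF.cons (PF.leaf (nat_lit 7042142) (nat_lit 491134) (nat_lit 42008400) (nat_lit 3424636) [(nat_lit 491134), (nat_lit 1626248), (nat_lit 0), (nat_lit 8966072)]) (PF.cons (PF.leaf (nat_lit 7344756) (nat_lit 498637) (nat_lit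 41545394) (nat_lit 3428087) [(nat_lit 498637), (nat_lit 1635000), (nat_lit 0), (nat_lit 8934027)]) (PF.cons (PF.leaf (nat_lit 7653412) (nat_lit 505307) (nat_lit 41077388) (nat_lit 3430261) [(nat_lit 505307), (nat_lit
 1642722), (nat_lit 0), (nat_lit 8899897)]) (PF.cons (PF.leaf (nat_lit 7966964) (nat_lit 511246) (nat_lit 40606181) (nat_lit 3431167) [(nat_lit 511246), (nat_lit 1649446), (nat_lit 0), (nat_lit 8863791)]) (PF.cons PF.nil (PF.cons PF.nil PF.nil))))))) (PF.cons (PF.cons (PF.leaf (nat_lit 7471962) (nat_lit 1636797) (nat_lit 40995518) (nat_lit 3424420) [(nat_lit 0), (nat_lit 1636797), (nat_lit 0), (nat_lit 8889240)]) (PF.cons (PF.leaf (nat_lit 7774612) (nat_lit 505378) (nat_lit 40538835) (nat_lit 3425386) [(nat_lit 505378), (nat_lit 1643683), (nat_lit 0), (nat_lit 8854080)]) (PF.cons (PF.leaf (nat_lit 8082920) (nat_lit 511182) (nat_lit 40078372) (nat_lit 3425167) [(nat_lit 511182), (nat_lit 1649639), (nat_lit 0), (nat_lit 8816994)]) (PF.cons (PF.leaf (nat_lit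 8395457) (nat_lit 516323) (nat_lit 39615766) (nat_lit 3423784) [(nat_lit 516323), (nat_lit 1654694), (nat_lit 0), (nat_lit 8778103)]) (PF.cons PF.nil PF.nil))))) (PF.cons (PF.cons (PF.leaf (nat_lit 8198483) (nat_lit 1649218) (nat_lit 39556195) (nat_lit 3418154) [(nat_lit 0), (nat_lit 1649218), (nat_lit 0), (nat_lit 8768795)]) (PF.cons (PF.leaf (nat_lit 8505441) (nat_lit 515822) (nat_lit 39104429) (nat_lit 3415809) [(nat_lit
 515822), (nat_lit 1653611), (nat_lit 0), (nat_lit 8729152)]) (PF.cons PF.nil (PF.cons PF.nil PF.nil)))) (PF.cons (PF.cons (PF.leaf (nat_lit 8920865) (nat_lit 1655006) (nat_lit 38156674) (nat_lit 3402728) [(nat_lit 0), (nat_lit 1655006), (nat_lit 0), (nat_lit 8637190)]) (PF.cons PF.nil PF.nil)) PF.nil)))))) (PF.cons (PF.cons (PF.cons (PF.leaf (nat_lit 6550574) (nat_lit 3399295) (nat_lit 42189264) (nat_lit 3399295) [(nat_lit 0), (nat_lit 0), (nat_lit 3601632), (nat_lit 8959310)]) (PF.cons (PF.leaf (nat_lit 6831150) (nat_lit 478155) (nat_lit 41758913)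 (nat_lit 3404344) [(nat_lit 478155), (nat_lit 0), (nat_lit 3605818), (nat_lit 8930790)]) (PF.cons (PF.leaf (nat_lit 7121551) (nat_lit 486894) (nat_lit 41318008) (nat_lit 3408209) [(nat_lit 486894), (nat_lit 0), (nat_lit 3608794), (nat_lit 8900005)]) (PF.cons (PF.leaf (nat_lit 7419541) (nat_lit 494583) (nat_lit 40869505) (nat_lit 3410854) [(nat_lit 494583), (nat_lit 0), (nat_lit 3610523), (nat_lit 8867089)]) (PF.cons (PF.leaf (nat_lit 7723687) (nat_lit 501380) (nat_lit 40415696) (nat_lit 3412269) [(nat_lit 501380), (nat_lit 0), (nat_lit 3610997), (nat_lit 8832163)]) (PF.cons (PF.leaf (nat_lit 8032805) (nat_lit 507401) (nat_lit 39958413)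
 (nat_lit 3412467) [(nat_lit 507401), (nat_lit 0), (nat_lit 3610230), (nat_lit 8795346)]) (PF.cons PF.nil PF.nil))))))) (PF.cons (PF.cons (PF.leaf (nat_lit 7252748) (nat_lit 1620250) (nat_lit 40769172) (nat_lit 3404884) [(nat_lit 0), (nat_lit 1620250), (nat_lit 3604470), (nat_lit 8855017)]) (PF.cons (PF.leaf (nat_lit 7544106) (nat_lit 494565) (nat_lit 40332663) (nat_lit 3406316) [(nat_lit 494565), (nat_lit 1627878), (nat_lit 3604975), (nat_lit 8821207)]) (PF.cons (PF.leaf (nat_lit 7842586) (nat_lit 501270) (nat_lit 39890004) (nat_lit 3406604) [(nat_lit 501270), (nat_lit 1634543), (nat_lit 3604308), (nat_lit 8785405)]) (PF.cons (PF.leaf (nat_lit 8146473) (nat_lit 507176) (nat_lit 39443282) (nat_lit 3405752) [(nat_lit 507176), (nat_lit 1640273), (nat_lit 3602477), (nat_lit 8747749)]) (PF.cons (PF.leaf (nat_lit 8454706) (nat_lit 512383) (nat_lit 38994159) (nat_lit 3403782) [(nat_lit 512383), (nat_lit 1645104), (nat_lit 3599503), (nat_lit 8708364)]) PF.nil))))) (PF.cons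 (PF.cons (PF.leaf (nat_lit 7961656) (nat_lit 1634446) (nat_lit 39369107) (nat_lit 3399901) [(nat_lit 0), (nat_lit 1634446), (nat_lit 3596548), (nat_lit 8737181)]) (PF.cons (PF.leaf (nat_lit 8259545) (nat_lit 506623)
 (nat_lit 38933639) (nat_lit 3398088) [(nat_lit 506623), (nat_lit 1639490), (nat_lit 3593744), (nat_lit 8698867)]) (PF.cons (PF.leaf (nat_lit 8562553) (nat_lit 511742) (nat_lit 38495150) (nat_lit 3395223) [(nat_lit 511742), (nat_lit 1643691), (nat_lit 3589864), (nat_lit 8658853)]) (PF.cons PF.nil PF.nil)))) (PF.cons (PF.cons (PF.leaf (nat_lit 8670226) (nat_lit 1641772) (nat_lit 38001750) (nat_lit 3385842) [(nat_lit 0), (nat_lit 1641772), (nat_lit 3579378), (nat_lit 8608262)]) (PF.cons (PF.leaf (nat_lit 8971455) (nat_lit 515231) (nat_lit 37572362) (nat_lit 3381193) [(nat_lit 515231), (nat_lit 1644622), (nat_lit 3573683), (nat_lit 8566237)]) PF.nil)) (PF.cons PF.nil PF.nil))))) (PF.cons (PF.cons (PF.cons (PF.leaf (nat_lit 7737374) (nat_lit 3381046) (nat_lit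 39165110) (nat_lit 3381046) [(nat_lit 0), (nat_lit 0), (nat_lit 3577319), (nat_lit 8704008)]) (PF.cons (PF.leaf (nat_lit 8024713) (nat_lit 496226) (nat_lit 38748260) (nat_lit 3379785) [(nat_lit 496226), (nat_lit 0), (nat_lit 3575071), (nat_lit 8667198)]) (PF.cons (PF.leaf (nat_lit 8318618) (nat_lit 502233) (nat_lit 38326146) (nat_lit 3377490) [(nat_lit 502233), (nat_lit 0), (nat_lit 3571764), (nat_lit 8628589)]) (PF.cons (PF.leaf
 (nat_lit 8617394) (nat_lit 507471) (nat_lit 37900714) (nat_lit 3374178) [(nat_lit 507471), (nat_lit 0), (nat_lit 3567418), (nat_lit 8588333)]) (PF.cons PF.nil PF.nil))))) (PF.cons (PF.cons (PF.leaf (nat_lit 8430057) (nat_lit 1627738) (nat_lit 37833562) (nat_lit 3368399) [(nat_lit 0), (nat_lit 1627738), (nat_lit 3561557), (nat_lit 8577998)]) (PF.cons (PF.leaf (nat_lit 8722880) (nat_lit 506410) (nat_lit 37419157) (nat_lit 3364329) [(nat_lit 506410), (nat_lit 1631237), (nat_lit 3556449), (nat_lit 8537389)]) (PF.cons (PF.leaf (nat_lit 9020359)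 (nat_lit 510934) (nat_lit 37002326) (nat_lit 3359322) [(nat_lit 510934), (nat_lit 1633969), (nat_lit 3550384), (nat_lit 8495278)]) (PF.cons PF.nil PF.nil)))) (PF.cons (PF.cons (PF.leaf (nat_lit 9120707) (nat_lit 1630850) (nat_lit 36536625) (nat_lit 3348103) [(nat_lit 0), (nat_lit 1630850), (nat_lit 3538021), (nat_lit 8443169)]) (PF.cons PF.nil PF.nil)) PF.nil))) (PF.cons (PF.cons (PF.cons (PF.leaf (nat_lit 8878256) (nat_lit 3331512) (nat_lit 36385332) (nat_lit 3331512) [(nat_lit 0), (nat_lit 0), (nat_lit 3521061), (nat_lit 8414391)]) (PF.cons (PF.leaf (nat_lit 9165799) (nat_lit 505007) (nat_lit 35991518) (nat_lit 3325618) [(nat_lit 505007),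
 (nat_lit 0), (nat_lit 3514098), (nat_lit 8372185)]) (PF.cons PF.nil PF.nil))) (PF.cons (PF.cons (PF.leaf (nat_lit 9551198) (nat_lit 1617181) (nat_lit 35156462) (nat_lit 3306262) [(nat_lit 0), (nat_lit 1617181), (nat_lit 3492487), (nat_lit 8275721)]) PF.nil) PF.nil)) (PF.cons PF.nil (PF.cons PF.nil PF.nil)))))) (PF.cons (PF.cons (PF.cons (PF.cons (PF.leaf (nat_lit 7288790) (nat_lit 3293823) (nat_lit 38213691) (nat_lit 3293823) [(nat_lit 0), (nat_lit 0), (nat_lit 0), (nat_lit 8533766)]) (PF.cons (PF.leaf (nat_lit 7556312) (nat_lit 468732) (nat_lit 37841749) (nat_lit 3294787) [(nat_lit 468732), (nat_lit 0), (nat_lit 0), (nat_lit 8501181)]) (PF.cons (PF.leaf (nat_lit 7832751) (nat_lit 476496) (nat_lit 37461078) (nat_lit 3294714) [(nat_lit 476496), (nat_lit 0), (nat_lit 0), (nat_lit 8466675)]) (PF.cons (PF.leaf (nat_lit 8115942) (nat_lit 483243) (nat_lit 37074200) (nat_lit 3293602) [(nat_lit 483243), (nat_lit 0), (nat_lit 0), (nat_lit 8430426)]) (PF.cons (PF.leaf (nat_lit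 8404592) (nat_lit 489135) (nat_lit 36683056) (nat_lit 3291467) [(nat_lit 489135), (nat_lit 0), (nat_lit 0), (nat_lit 8392582)]) (PF.cons (PF.leaf (nat_lit 8697590) (nat_lit 494293) (nat_lit 36289185) (nat_lit 3288335)
 [(nat_lit 494293), (nat_lit 0), (nat_lit 0), (nat_lit 8353274)]) (PF.cons PF.nil PF.nil))))))) (PF.cons (PF.cons (PF.leaf (nat_lit 7949570) (nat_lit 1575065) (nat_lit 36990588) (nat_lit 3287480) [(nat_lit 0), (nat_lit 1575065), (nat_lit 0), (nat_lit 8418559)]) (PF.cons (PF.leaf (nat_lit 8226347) (nat_lit 482477) (nat_lit 36614279) (nat_lit 3285532) [(nat_lit 482477), (nat_lit 1580477), (nat_lit 0), (nat_lit 8382015)]) (PF.cons (PF.leaf (nat_lit 8509570) (nat_lit 488334) (nat_lit 36232917) (nat_lit 3282620) [(nat_lit 488334), (nat_lit 1585025), (nat_lit 0), (nat_lit 8343859)]) (PF.cons (PF.leaf (nat_lit 8797595) (nat_lit 493430) (nat_lit 35848267) (nat_lit 3278770) [(nat_lit 493430), (nat_lit 1588747), (nat_lit 0), (nat_lit 8304245)]) (PF.cons PF.nil PF.nil)))))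 (PF.cons (PF.cons (PF.leaf (nat_lit 8615090) (nat_lit 1583073) (nat_lit 35786930) (nat_lit 3273049) [(nat_lit 0), (nat_lit 1583073), (nat_lit 0), (nat_lit 8294228)]) (PF.cons (PF.leaf (nat_lit 8897390) (nat_lit 492296) (nat_lit 35412049) (nat_lit 3268548) [(nat_lit 492296), (nat_lit 1586283), (nat_lit 0), (nat_lit 8254450)]) (PF.cons (PF.leaf (nat_lit 9184293) (nat_lit 496695) (nat_lit 35034696) (nat_lit 3263187) [(nat_lit
 496695), (nat_lit 1588755), (nat_lit 0), (nat_lit 8213342)]) (PF.cons PF.nil PF.nil)))) (PF.cons (PF.cons (PF.leaf (nat_lit 9279396) (nat_lit 1585457) (nat_lit 34612394) (nat_lit 3251799) [(nat_lit 0), (nat_lit 1585457), (nat_lit 0), (nat_lit 8162748)]) (PF.cons PF.nil PF.nil)) (PF.cons PF.nil PF.nil))))) (PF.cons (PF.cons (PF.cons (PF.leaf (nat_lit 8391902) (nat_lit 3255350) (nat_lit 35620124) (nat_lit 3255350) [(nat_lit 0), (nat_lit 0), (nat_lit 3442171), (nat_lit 8263722)]) (PF.cons (PF.leaf (nat_lit 8664702) (nat_lit 482392) (nat_lit 35260890)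 (nat_lit 3251513) [(nat_lit 482392), (nat_lit 0), (nat_lit 3437305), (nat_lit 8225570)]) (PF.cons (PF.leaf (nat_lit 8943505) (nat_lit 487672) (nat_lit 34897253) (nat_lit 3246802) [(nat_lit 487672), (nat_lit 0), (nat_lit 3431550), (nat_lit 8185953)]) (PF.cons (PF.leaf (nat_lit 9226683) (nat_lit 492223) (nat_lit 34530860) (nat_lit 3241249) [(nat_lit 492223), (nat_lit 0), (nat_lit 3424937), (nat_lit 8145031)]) (PF.cons PF.nil PF.nil))))) (PF.cons (PF.cons (PF.leaf (nat_lit 9042609) (nat_lit 1572358) (nat_lit 34475257) (nat_lit 3235697) [(nat_lit 0), (nat_lit 1572358), (nat_lit 3419308), (nat_lit 8135397)]) (PF.cons (PF.leaf (nat_lit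
 9320130) (nat_lit 490724) (nat_lit 34118336) (nat_lit 3229640) [(nat_lit 490724), (nat_lit 1574401), (nat_lit 3412198), (nat_lit 8094503)]) (PF.cons PF.nil (PF.cons PF.nil PF.nil)))) (PF.cons (PF.cons (PF.leaf (nat_lit 9690919) (nat_lit 1571651) (nat_lit 33360267) (nat_lit 3210280) [(nat_lit 0), (nat_lit 1571651), (nat_lit 3390632), (nat_lit 8001442)]) (PF.cons PF.nil PF.nil)) PF.nil))) (PF.cons (PF.cons (PF.cons (PF.leaf (nat_lit 9453057) (nat_lit 3195077) (nat_lit 33236574) (nat_lit 3195077) [(nat_lit 0), (nat_lit 0), (nat_lit 3375108), (nat_lit 7975648)]) (PF.cons (PF.leaf (nat_lit 9725690) (nat_lit 488308) (nat_lit 32897014) (nat_lit 3187768) [(nat_lit 488308), (nat_lit 0), (nat_lit 3366737), (nat_lit 7934082)]) PF.nil)) (PF.cons PF.nil PF.nil)) (PF.cons PF.nil (PF.cons PF.nil PF.nil))))) (PF.cons (PF.cons (PF.cons (PF.cons (PF.leaf (nat_lit 8974878) (nat_lit 3126993) (nat_lit 32610319) (nat_lit 3126993) [(nat_lit 0), (nat_lit 0), (nat_lit 0), (nat_lit 7842874)])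 (PF.cons (PF.leaf (nat_lit 9234585) (nat_lit 467486) (nat_lit 32298982) (nat_lit 3121670) [(nat_lit 467486), (nat_lit 0), (nat_lit 0), (nat_lit 7805168)]) (PF.cons (PF.leaf (nat_lit 9499834) (nat_lit 472212) (nat_lit
 31983853) (nat_lit 3115596) [(nat_lit 472212), (nat_lit 0), (nat_lit 0), (nat_lit 7766234)]) (PF.cons PF.nil PF.nil)))) (PF.cons (PF.cons (PF.leaf (nat_lit 9589118) (nat_lit 1515674) (nat_lit 31619925) (nat_lit 3103575) [(nat_lit 0), (nat_lit 1515674), (nat_lit 0), (nat_lit 7717409)]) (PF.cons (PF.leaf (nat_lit 9853000) (nat_lit 474492) (nat_lit 31310518) (nat_lit 3096452) [(nat_lit 474492), (nat_lit 1516759), (nat_lit 0), (nat_lit 7677647)]) PF.nil)) (PF.cons PF.nil PF.nil))) (PF.cons (PF.cons (PF.cons (PF.leaf (nat_lit 9968668) (nat_lit 3061866) (nat_lit 30552680) (nat_lit 3061866) [(nat_lit 0), (nat_lit 0), (nat_lit 3232901), (nat_lit 7565341)]) (PF.cons PF.nil PF.nil)) (PF.cons PF.nil PF.nil)) (PF.cons PF.nil PF.nil))) (PF.cons (PF.cons (PF.cons (PF.cons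 (PF.leaf (nat_lit 10437698) (nat_lit 2934628) (nat_lit 28245372) (nat_lit 2934628) [(nat_lit 0), (nat_lit 0), (nat_lit 0), (nat_lit 7185762)]) (PF.cons PF.nil PF.nil)) (PF.cons PF.nil PF.nil)) (PF.cons PF.nil PF.nil)) (PF.cons PF.nil (PF.cons PF.nil (PF.cons PF.nil PF.nil)))))))))

def p15_22_0_0 : pfC (piC [(nat_lit 38632330), (nat_lit 25257288), (nat_lit 18773175), (nat_lit 12658484)] (nat_lit 21892566)) p15_22_0 (nat_lit 4) (nat_lit 0) (nat_lit 1) = true := by decide +kernel
def p15_22_0_1 : pfC (piC [(nat_lit 38632330), (nat_lit 25257288), (nat_lit 18773175), (nat_lit 12658484)] (nat_lit 21892566)) p15_22_0 (nat_lit 4) (nat_lit 1) (nat_lit 2) = true := by decide +kernel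
def p15_22_0_2 : pfC (piC [(nat_lit 38632330), (nat_lit 25257288), (nat_lit 18773175), (nat_lit 12658484)] (nat_lit 21892566)) p15_22_0 (nat_lit 4) (nat_lit 2) (nat_lit 3) = true := by decide +kernel
def p15_22_0_3 : pfC (piC [(nat_lit 38632330), (nat_lit 25257288), (nat_lit 18773175), (nat_lit 12658484)] (nat_lit 21892566)) p15_22_0 (nat_lit 4) (nat_lit 3) (nat_lit 4) = true := by decide +kernel
def p15_22_0_4 : pfC (piC [(nat_lit 38632330), (nat_lit 25257288), (nat_lit 18773175), (nat_lit 12658484)] (nat_lit 21892566)) p15_22_0 (nat_lit 4) (nat_lit 4) (nat_lit 5) = true := by decide +kernel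
def p15_22_0_5 : pfC (piC [(nat_lit 38632330), (nat_lit 25257288), (nat_lit 18773175), (nat_lit 12658484)] (nat_lit 21892566)) p15_22_0 (nat_lit 4) (nat_lit 5) (nat_lit 6) = true := by decide +kernel
def p15_22_0_6 : pfC (piC [(nat_lit 38632330), (nat_lit 25257288), (nat_lit 18773175), (nat_lit 12658484)] (nat_lit 21892566)) p15_22_0 (nat_lit 4) (nat_lit 6) (nat_lit 7) = true := by decide +kernel
def p15_22_0_7 : pfC (piC [(nat_lit 38632330), (nat_lit 25257288), (nat_lit 18773175), (nat_lit 12658484)] (nat_lit 21892566)) p15_22_0 (nat_lit 4) (nat_lit 7) (nat_lit 8) = true := by decide +kernel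
def p15_22_0_8 : pfC (piC [(nat_lit 38632330), (nat_lit 25257288), (nat_lit 18773175), (nat_lit 12658484)] (nat_lit 21892566)) p15_22_0 (nat_lit 4) (nat_lit 8) (nat_lit 9) = true := by decide +kernel
def p15_22_0_9 : pfC (piC [(nat_lit 38632330), (nat_lit 25257288), (nat_lit 18773175), (nat_lit 12658484)] (nat_lit 21892566)) p15_22_0 (nat_lit 4) (nat_lit 9) (nat_lit 10) = true := by decide +kernel
def p15_22_0_10 : pfC (piC [(nat_lit 38632330), (nat_lit 25257288), (nat_lit 18773175), (nat_lit 12658484)] (nat_lit 21892566)) p15_22_0 (nat_lit 4) (nat_lit 10) (nat_lit 11) = true := by decide +kernel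
def p15_22_0_11 : pfC (piC [(nat_lit 38632330), (nat_lit 25257288), (nat_lit 18773175), (nat_lit 12658484)] (nat_lit 21892566)) p15_22_0 (nat_lit 4) (nat_lit 11) (nat_lit 12) = true := by decide +kernel
def p15_22_0_12 : pfC (piC [(nat_lit 38632330), (nat_lit 25257288), (nat_lit 18773175), (nat_lit 12658484)] (nat_lit 21892566)) p15_22_0 (nat_lit 4) (nat_lit 12) (nat_lit 13) = true := by decide +kernel
def p15_22_0_13 : pfC (piC [(nat_lit 38632330), (nat_lit 25257288), (nat_lit 18773175), (nat_lit 12658484)] (nat_lit 21892566)) p15_22_0 (nat_lit 4) (nat_lit 13) (nat_lit 14) = true := by decide +kernel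
def p15_22_0_14 : pfC (piC [(nat_lit 38632330), (nat_lit 25257288), (nat_lit 18773175), (nat_lit 12658484)] (nat_lit 21892566)) p15_22_0 (nat_lit 4) (nat_lit 14) (nat_lit 15) = true := by decide +kernel
def p15_22_0_15 : pfC (piC [(nat_lit 38632330), (nat_lit 25257288), (nat_lit 18773175), (nat_lit 12658484)] (nat_lit 21892566)) p15_22_0 (nat_lit 4) (nat_lit 15) (nat_lit 16) = true := by decide +kernel
def p15_22_0_16 : pfC (piC [(nat_lit 38632330), (nat_lit 25257288), (nat_lit 18773175), (nat_lit 12658484)] (nat_lit 21892566)) p15_22_0 (nat_lit 4) (nat_lit 16) (nat_lit 17) = true := by decide +kernel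
def p15_22_0_17 : pfC (piC [(nat_lit 38632330), (nat_lit 25257288), (nat_lit 18773175), (nat_lit 12658484)] (nat_lit 21892566)) p15_22_0 (nat_lit 4) (nat_lit 17) (nat_lit 18) = true := by decide +kernel
def p15_22_0_18 : pfC (piC [(nat_lit 38632330), (nat_lit 25257288), (nat_lit 18773175), (nat_lit 12658484)] (nat_lit 21892566)) p15_22_0 (nat_lit 4) (nat_lit 18) (nat_lit 19) = true := by decide +kernel
def p15_22_0_19 : pfC (piC [(nat_lit 38632330), (nat_lit 25257288), (nat_lit 18773175), (nat_lit 12658484)] (nat_lit 21892566)) p15_22_0 (nat_lit 4) (nat_lit 19) (nat_lit 20) = true := by decide +kernel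
def p15_22_0_20 : pfC (piC [(nat_lit 38632330), (nat_lit 25257288), (nat_lit 18773175), (nat_lit 12658484)] (nat_lit 21892566)) p15_22_0 (nat_lit 4) (nat_lit 20) (nat_lit 21) = true := by decide +kernel
def p15_22_0_21 : pfC (piC [(nat_lit 38632330), (nat_lit 25257288), (nat_lit 18773175), (nat_lit 12658484)] (nat_lit 21892566)) p15_22_0 (nat_lit 4) (nat_lit 21) (nat_lit 22) = true := by decide +kernel
def p15_22_0_22 : pfC (piC [(nat_lit 38632330), (nat_lit 25257288), (nat_lit 18773175), (nat_lit 12658484)] (nat_lit 21892566)) p15_22_0 (nat_lit 4) (nat_lit 22) (nat_lit 23) = true := by decide +kernel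
def p15_22_0_23 : pfC (piC [(nat_lit 38632330), (nat_lit 25257288), (nat_lit 18773175), (nat_lit 12658484)] (nat_lit 21892566)) p15_22_0 (nat_lit 4) (nat_lit 23) (nat_lit 24) = true := by decide +kernel
def p15_22_0_24 : pfC (piC [(nat_lit 38632330), (nat_lit 25257288), (nat_lit 18773175), (nat_lit 12658484)] (nat_lit 21892566)) p15_22_0 (nat_lit 4) (nat_lit 24) (nat_lit 25) = true := by decide +kernel
def p15_22_0_25 : pfC (piC [(nat_lit 38632330), (nat_lit 25257288), (nat_lit 18773175), (nat_lit 12658484)] (nat_lit 21892566)) p15_22_0 (nat_lit 4) (nat_lit 25) (nat_lit 26) = true := by decide +kernel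
def p15_22_0_26 : pfC (piC [(nat_lit 38632330), (nat_lit 25257288), (nat_lit 18773175), (nat_lit 12658484)] (nat_lit 21892566)) p15_22_0 (nat_lit 4) (nat_lit 26) (nat_lit 27) = true := by decide +kernel
def p15_22_0_27 : pfC (piC [(nat_lit 38632330), (nat_lit 25257288), (nat_lit 18773175), (nat_lit 12658484)] (nat_lit 21892566)) p15_22_0 (nat_lit 4) (nat_lit 27) (nat_lit 28) = true := by decide +kernel
def p15_22_0_28 : pfC (piC [(nat_lit 38632330), (nat_lit 25257288), (nat_lit 18773175), (nat_lit 12658484)] (nat_lit 21892566)) p15_22_0 (nat_lit 4) (nat_lit 28) (nat_lit 29) = true := by decide +kernel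
def p15_22_0_29 : pfC (piC [(nat_lit 38632330), (nat_lit 25257288), (nat_lit 18773175), (nat_lit 12658484)] (nat_lit 21892566)) p15_22_0 (nat_lit 4) (nat_lit 29) (nat_lit 30) = true := by decide +kernel
def p15_22_0_30 : pfC (piC [(nat_lit 38632330), (nat_lit 25257288), (nat_lit 18773175), (nat_lit 12658484)] (nat_lit 21892566)) p15_22_0 (nat_lit 4) (nat_lit 30) (nat_lit 31) = true := by decide +kernel
def p15_22_0_31 : pfC (piC [(nat_lit 38632330), (nat_lit 25257288), (nat_lit 18773175), (nat_lit 12658484)] (nat_lit 21892566)) p15_22_0 (nat_lit 4) (nat_lit 31) (nat_lit 32) = true := by decide +kernel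
def p15_22_0_32 : pfC (piC [(nat_lit 38632330), (nat_lit 25257288), (nat_lit 18773175), (nat_lit 12658484)] (nat_lit 21892566)) p15_22_0 (nat_lit 4) (nat_lit 32) (nat_lit 33) = true := by decide +kernel
def p15_22_0_33 : pfC (piC [(nat_lit 38632330), (nat_lit 25257288), (nat_lit 18773175), (nat_lit 12658484)] (nat_lit 21892566)) p15_22_0 (nat_lit 4) (nat_lit 33) (nat_lit 34) = true := by decide +kernel
def p15_22_0_34 : pfC (piC [(nat_lit 38632330), (nat_lit 25257288), (nat_lit 18773175), (nat_lit 12658484)] (nat_lit 21892566)) p15_22_0 (nat_lit 4) (nat_lit 34) (nat_lit 35) = true := by decide +kernel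
def p15_22_0_35 : pfC (piC [(nat_lit 38632330), (nat_lit 25257288), (nat_lit 18773175), (nat_lit 12658484)] (nat_lit 21892566)) p15_22_0 (nat_lit 4) (nat_lit 35) (nat_lit 36) = true := by decide +kernel
def p15_22_0_36 : pfC (piC [(nat_lit 38632330), (nat_lit 25257288), (nat_lit 18773175), (nat_lit 12658484)] (nat_lit 21892566)) p15_22_0 (nat_lit 4) (nat_lit 36) (nat_lit 37) = true := by decide +kernel
def p15_22_0_37 : pfC (piC [(nat_lit 38632330), (nat_lit 25257288), (nat_lit 18773175), (nat_lit 12658484)] (nat_lit 21892566)) p15_22_0 (nat_lit 4) (nat_lit 37) (nat_lit 38) = true := by decide +kernel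
def p15_22_0_38 : pfC (piC [(nat_lit 38632330), (nat_lit 25257288), (nat_lit 18773175), (nat_lit 12658484)] (nat_lit 21892566)) p15_22_0 (nat_lit 4) (nat_lit 38) (nat_lit 39) = true := by decide +kernel
def p15_22_0_39 : pfC (piC [(nat_lit 38632330), (nat_lit 25257288), (nat_lit 18773175), (nat_lit 12658484)] (nat_lit 21892566)) p15_22_0 (nat_lit 4) (nat_lit 39) (nat_lit 40) = true := by decide +kernel
def p15_22_0_40 : pfC (piC [(nat_lit 38632330), (nat_lit 25257288), (nat_lit 18773175), (nat_lit 12658484)] (nat_lit 21892566)) p15_22_0 (nat_lit 4) (nat_lit 40) (nat_lit 41) = true := by decide +kernel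
def p15_22_0_41 : pfC (piC [(nat_lit 38632330), (nat_lit 25257288), (nat_lit 18773175), (nat_lit 12658484)] (nat_lit 21892566)) p15_22_0 (nat_lit 4) (nat_lit 41) (nat_lit 42) = true := by decide +kernel
def p15_22_0_42 : pfC (piC [(nat_lit 38632330), (nat_lit 25257288), (nat_lit 18773175), (nat_lit 12658484)] (nat_lit 21892566)) p15_22_0 (nat_lit 4) (nat_lit 42) (nat_lit 43) = true := by decide +kernel
def p15_22_0_43 : pfC (piC [(nat_lit 38632330), (nat_lit 25257288), (nat_lit 18773175), (nat_lit 12658484)] (nat_lit 21892566)) p15_22_0 (nat_lit 4) (nat_lit 43) (nat_lit 44) = true := by decide +kernel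
def p15_22_0_44 : pfC (piC [(nat_lit 38632330), (nat_lit 25257288), (nat_lit 18773175), (nat_lit 12658484)] (nat_lit 21892566)) p15_22_0 (nat_lit 4) (nat_lit 44) (nat_lit 45) = true := by decide +kernel
def p15_22_0_45 : pfC (piC [(nat_lit 38632330), (nat_lit 25257288), (nat_lit 18773175), (nat_lit 12658484)] (nat_lit 21892566)) p15_22_0 (nat_lit 4) (nat_lit 45) (nat_lit 46) = true := by decide +kernel
def p15_22_0_46 : pfC (piC [(nat_lit 38632330), (nat_lit 25257288), (nat_lit 18773175), (nat_lit 12658484)] (nat_lit 21892566)) p15_22_0 (nat_lit 4) (nat_lit 46) (nat_lit 47) = true := by decide +kernel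
def p15_22_0_47 : pfC (piC [(nat_lit 38632330), (nat_lit 25257288), (nat_lit 18773175), (nat_lit 12658484)] (nat_lit 21892566)) p15_22_0 (nat_lit 4) (nat_lit 47) (nat_lit 48) = true := by decide +kernel
def p15_22_0_48 : pfC (piC [(nat_lit 38632330), (nat_lit 25257288), (nat_lit 18773175), (nat_lit 12658484)] (nat_lit 21892566)) p15_22_0 (nat_lit 4) (nat_lit 48) (nat_lit 49) = true := by decide +kernel
def p15_22_0_49 : pfC (piC [(nat_lit 38632330), (nat_lit 25257288), (nat_lit 18773175), (nat_lit 12658484)] (nat_lit 21892566)) p15_22_0 (nat_lit 4) (nat_lit 49) (nat_lit 50) = true := by decide +kernel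
def p15_22_0_50 : pfC (piC [(nat_lit 38632330), (nat_lit 25257288), (nat_lit 18773175), (nat_lit 12658484)] (nat_lit 21892566)) p15_22_0 (nat_lit 4) (nat_lit 50) (nat_lit 51) = true := by decide +kernel
def p15_22_0_51 : pfC (piC [(nat_lit 38632330), (nat_lit 25257288), (nat_lit 18773175), (nat_lit 12658484)] (nat_lit 21892566)) p15_22_0 (nat_lit 4) (nat_lit 51) (nat_lit 52) = true := by decide +kernel
def p15_22_0_52 : pfC (piC [(nat_lit 38632330), (nat_lit 25257288), (nat_lit 18773175), (nat_lit 12658484)] (nat_lit 21892566)) p15_22_0 (nat_lit 4) (nat_lit 52) (nat_lit 53) = true := by decide +kernel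
def p15_22_0_53 : pfC (piC [(nat_lit 38632330), (nat_lit 25257288), (nat_lit 18773175), (nat_lit 12658484)] (nat_lit 21892566)) p15_22_0 (nat_lit 4) (nat_lit 53) (nat_lit 54) = true := by decide +kernel
def p15_22_0_54 : pfC (piC [(nat_lit 38632330), (nat_lit 25257288), (nat_lit 18773175), (nat_lit 12658484)] (nat_lit 21892566)) p15_22_0 (nat_lit 4) (nat_lit 54) (nat_lit 55) = true := by decide +kernel
def p15_22_0_55 : pfC (piC [(nat_lit 38632330), (nat_lit 25257288), (nat_lit 18773175), (nat_lit 12658484)] (nat_lit 21892566)) p15_22_0 (nat_lit 4) (nat_lit 55) (nat_lit 56) = true := by decide +kernel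
def p15_22_0_56 : pfC (piC [(nat_lit 38632330), (nat_lit 25257288), (nat_lit 18773175), (nat_lit 12658484)] (nat_lit 21892566)) p15_22_0 (nat_lit 4) (nat_lit 56) (nat_lit 57) = true := by decide +kernel
def p15_22_0_57 : pfC (piC [(nat_lit 38632330), (nat_lit 25257288), (nat_lit 18773175), (nat_lit 12658484)] (nat_lit 21892566)) p15_22_0 (nat_lit 4) (nat_lit 57) (nat_lit 58) = true := by decide +kernel
def p15_22_0_58 : pfC (piC [(nat_lit 38632330), (nat_lit 25257288), (nat_lit 18773175), (nat_lit 12658484)] (nat_lit 21892566)) p15_22_0 (nat_lit 4) (nat_lit 58) (nat_lit 59) = true := by decide +kernel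
def p15_22_0_59 : pfC (piC [(nat_lit 38632330), (nat_lit 25257288), (nat_lit 18773175), (nat_lit 12658484)] (nat_lit 21892566)) p15_22_0 (nat_lit 4) (nat_lit 59) (nat_lit 60) = true := by decide +kernel
def p15_22_0_60 : pfC (piC [(nat_lit 38632330), (nat_lit 25257288), (nat_lit 18773175), (nat_lit 12658484)] (nat_lit 21892566)) p15_22_0 (nat_lit 4) (nat_lit 60) (nat_lit 61) = true := by decide +kernel
def p15_22_0_61 : pfC (piC [(nat_lit 38632330), (nat_lit 25257288), (nat_lit 18773175), (nat_lit 12658484)] (nat_lit 21892566)) p15_22_0 (nat_lit 4) (nat_lit 61) (nat_lit 62) = true := by decide +kernel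
def p15_22_0_62 : pfC (piC [(nat_lit 38632330), (nat_lit 25257288), (nat_lit 18773175), (nat_lit 12658484)] (nat_lit 21892566)) p15_22_0 (nat_lit 4) (nat_lit 62) (nat_lit 63) = true := by decide +kernel
def p15_22_0_63 : pfC (piC [(nat_lit 38632330), (nat_lit 25257288), (nat_lit 18773175), (nat_lit 12658484)] (nat_lit 21892566)) p15_22_0 (nat_lit 4) (nat_lit 63) (nat_lit 64) = true := by decide +kernel
def p15_22_0_64 : pfC (piC [(nat_lit 38632330), (nat_lit 25257288), (nat_lit 18773175), (nat_lit 12658484)] (nat_lit 21892566)) p15_22_0 (nat_lit 4) (nat_lit 64) (nat_lit 65) = true := by decide +kernel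
def p15_22_0_65 : pfC (piC [(nat_lit 38632330), (nat_lit 25257288), (nat_lit 18773175), (nat_lit 12658484)] (nat_lit 21892566)) p15_22_0 (nat_lit 4) (nat_lit 65) (nat_lit 66) = true := by decide +kernel
def p15_22_0_66 : pfC (piC [(nat_lit 38632330), (nat_lit 25257288), (nat_lit 18773175), (nat_lit 12658484)] (nat_lit 21892566)) p15_22_0 (nat_lit 4) (nat_lit 66) (nat_lit 67) = true := by decide +kernel
def p15_22_0_67 : pfC (piC [(nat_lit 38632330), (nat_lit 25257288), (nat_lit 18773175), (nat_lit 12658484)] (nat_lit 21892566)) p15_22_0 (nat_lit 4) (nat_lit 67) (nat_lit 68) = true := by decide +kernel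
def p15_22_0_68 : pfC (piC [(nat_lit 38632330), (nat_lit 25257288), (nat_lit 18773175), (nat_lit 12658484)] (nat_lit 21892566)) p15_22_0 (nat_lit 4) (nat_lit 68) (nat_lit 69) = true := by decide +kernel
def p15_22_0_69 : pfC (piC [(nat_lit 38632330), (nat_lit 25257288), (nat_lit 18773175), (nat_lit 12658484)] (nat_lit 21892566)) p15_22_0 (nat_lit 4) (nat_lit 69) (nat_lit 70) = true := by decide +kernel
def p15_22_0_70 : pfC (piC [(nat_lit 38632330), (nat_lit 25257288), (nat_lit 18773175), (nat_lit 12658484)] (nat_lit 21892566)) p15_22_0 (nat_lit 4) (nat_lit 70) (nat_lit 71) = true := by decide +kernel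
def p15_22_0_71 : pfC (piC [(nat_lit 38632330), (nat_lit 25257288), (nat_lit 18773175), (nat_lit 12658484)] (nat_lit 21892566)) p15_22_0 (nat_lit 4) (nat_lit 71) (nat_lit 72) = true := by decide +kernel
def p15_22_0_72 : pfC (piC [(nat_lit 38632330), (nat_lit 25257288), (nat_lit 18773175), (nat_lit 12658484)] (nat_lit 21892566)) p15_22_0 (nat_lit 4) (nat_lit 72) (nat_lit 73) = true := by decide +kernel
def p15_22_0_73 : pfC (piC [(nat_lit 38632330), (nat_lit 25257288), (nat_lit 18773175), (nat_lit 12658484)] (nat_lit 21892566)) p15_22_0 (nat_lit 4) (nat_lit 73) (nat_lit 74) = true := by decide +kernel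
def p15_22_0_74 : pfC (piC [(nat_lit 38632330), (nat_lit 25257288), (nat_lit 18773175), (nat_lit 12658484)] (nat_lit 21892566)) p15_22_0 (nat_lit 4) (nat_lit 74) (nat_lit 75) = true := by decide +kernel
def p15_22_0_75 : pfC (piC [(nat_lit 38632330), (nat_lit 25257288), (nat_lit 18773175), (nat_lit 12658484)] (nat_lit 21892566)) p15_22_0 (nat_lit 4) (nat_lit 75) (nat_lit 76) = true := by decide +kernel
def p15_22_0_76 : pfC (piC [(nat_lit 38632330), (nat_lit 25257288), (nat_lit 18773175), (nat_lit 12658484)] (nat_lit 21892566)) p15_22_0 (nat_lit 4) (nat_lit 76) (nat_lit 77) = true := by decide +kernel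
def p15_22_0_77 : pfC (piC [(nat_lit 38632330), (nat_lit 25257288), (nat_lit 18773175), (nat_lit 12658484)] (nat_lit 21892566)) p15_22_0 (nat_lit 4) (nat_lit 77) (nat_lit 78) = true := by decide +kernel
def p15_22_0_78 : pfC (piC [(nat_lit 38632330), (nat_lit 25257288), (nat_lit 18773175), (nat_lit 12658484)] (nat_lit 21892566)) p15_22_0 (nat_lit 4) (nat_lit 78) (nat_lit 79) = true := by decide +kernel
def p15_22_0_79 : pfC (piC [(nat_lit 38632330), (nat_lit 25257288), (nat_lit 18773175), (nat_lit 12658484)] (nat_lit 21892566)) p15_22_0 (nat_lit 4) (nat_lit 79) (nat_lit 80) = true := by decide +kernel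
def p15_22_0_80 : pfC (piC [(nat_lit 38632330), (nat_lit 25257288), (nat_lit 18773175), (nat_lit 12658484)] (nat_lit 21892566)) p15_22_0 (nat_lit 4) (nat_lit 80) (nat_lit 81) = true := by decide +kernel
def p15_22_0_81 : pfC (piC [(nat_lit 38632330), (nat_lit 25257288), (nat_lit 18773175), (nat_lit 12658484)] (nat_lit 21892566)) p15_22_0 (nat_lit 4) (nat_lit 81) (nat_lit 82) = true := by decide +kernel
def p15_22_0_82 : pfC (piC [(nat_lit 38632330), (nat_lit 25257288), (nat_lit 18773175), (nat_lit 12658484)] (nat_lit 21892566)) p15_22_0 (nat_lit 4) (nat_lit 82) (nat_lit 83) = true := by decide +kernel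
def p15_22_0_83 : pfC (piC [(nat_lit 38632330), (nat_lit 25257288), (nat_lit 18773175), (nat_lit 12658484)] (nat_lit 21892566)) p15_22_0 (nat_lit 4) (nat_lit 83) (nat_lit 84) = true := by decide +kernel
def p15_22_0_84 : pfC (piC [(nat_lit 38632330), (nat_lit 25257288), (nat_lit 18773175), (nat_lit 12658484)] (nat_lit 21892566)) p15_22_0 (nat_lit 4) (nat_lit 84) (nat_lit 85) = true := by decide +kernel
def p15_22_0_85 : pfC (piC [(nat_lit 38632330), (nat_lit 25257288), (nat_lit 18773175), (nat_lit 12658484)] (nat_lit 21892566)) p15_22_0 (nat_lit 4) (nat_lit 85) (nat_lit 86) = true := by decide +kernel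
def p15_22_0_86 : pfC (piC [(nat_lit 38632330), (nat_lit 25257288), (nat_lit 18773175), (nat_lit 12658484)] (nat_lit 21892566)) p15_22_0 (nat_lit 4) (nat_lit 86) (nat_lit 87) = true := by decide +kernel
def p15_22_0_87 : pfC (piC [(nat_lit 38632330), (nat_lit 25257288), (nat_lit 18773175), (nat_lit 12658484)] (nat_lit 21892566)) p15_22_0 (nat_lit 4) (nat_lit 87) (nat_lit 88) = true := by decide +kernel
def p15_22_0_88 : pfC (piC [(nat_lit 38632330), (nat_lit 25257288), (nat_lit 18773175), (nat_lit 12658484)] (nat_lit 21892566)) p15_22_0 (nat_lit 4) (nat_lit 88) (nat_lit 89) = true := by decide +kernel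
def p15_22_0_89 : pfC (piC [(nat_lit 38632330), (nat_lit 25257288), (nat_lit 18773175), (nat_lit 12658484)] (nat_lit 21892566)) p15_22_0 (nat_lit 4) (nat_lit 89) (nat_lit 90) = true := by decide +kernel
def p15_22_0_90 : pfC (piC [(nat_lit 38632330), (nat_lit 25257288), (nat_lit 18773175), (nat_lit 12658484)] (nat_lit 21892566)) p15_22_0 (nat_lit 4) (nat_lit 90) (nat_lit 91) = true := by decide +kernel
def p15_22_0_91 : pfC (piC [(nat_lit 38632330), (nat_lit 25257288), (nat_lit 18773175), (nat_lit 12658484)] (nat_lit 21892566)) p15_22_0 (nat_lit 4) (nat_lit 91) (nat_lit 92) = true := by decide +kernel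
def p15_22_0_92 : pfC (piC [(nat_lit 38632330), (nat_lit 25257288), (nat_lit 18773175), (nat_lit 12658484)] (nat_lit 21892566)) p15_22_0 (nat_lit 4) (nat_lit 92) (nat_lit 93) = true := by decide +kernel
def p15_22_0_93 : pfC (piC [(nat_lit 38632330), (nat_lit 25257288), (nat_lit 18773175), (nat_lit 12658484)] (nat_lit 21892566)) p15_22_0 (nat_lit 4) (nat_lit 93) (nat_lit 94) = true := by decide +kernel
def p15_22_0_94 : pfC (piC [(nat_lit 38632330), (nat_lit 25257288), (nat_lit 18773175), (nat_lit 12658484)] (nat_lit 21892566)) p15_22_0 (nat_lit 4) (nat_lit 94) (nat_lit 95) = true := by decide +kernel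
def p15_22_0_95 : pfC (piC [(nat_lit 38632330), (nat_lit 25257288), (nat_lit 18773175), (nat_lit 12658484)] (nat_lit 21892566)) p15_22_0 (nat_lit 4) (nat_lit 95) (nat_lit 96) = true := by decide +kernel
def p15_22_0_96 : pfC (piC [(nat_lit 38632330), (nat_lit 25257288), (nat_lit 18773175), (nat_lit 12658484)] (nat_lit 21892566)) p15_22_0 (nat_lit 4) (nat_lit 96) (nat_lit 97) = true := by decide +kernel
def p15_22_0_97 : pfC (piC [(nat_lit 38632330), (nat_lit 25257288), (nat_lit 18773175), (nat_lit 12658484)] (nat_lit 21892566)) p15_22_0 (nat_lit 4) (nat_lit 97) (nat_lit 98) = true := by decide +kernel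
def p15_22_0_98 : pfC (piC [(nat_lit 38632330), (nat_lit 25257288), (nat_lit 18773175), (nat_lit 12658484)] (nat_lit 21892566)) p15_22_0 (nat_lit 4) (nat_lit 98) (nat_lit 99) = true := by decide +kernel
def p15_22_0_99 : pfC (piC [(nat_lit 38632330), (nat_lit 25257288), (nat_lit 18773175), (nat_lit 12658484)] (nat_lit 21892566)) p15_22_0 (nat_lit 4) (nat_lit 99) (nat_lit 100) = true := by decide +kernel
def p15_22_0_100 : pfC (piC [(nat_lit 38632330), (nat_lit 25257288), (nat_lit 18773175), (nat_lit 12658484)] (nat_lit 21892566)) p15_22_0 (nat_lit 4) (nat_lit 100) (nat_lit 101) = true := by decide +kernel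
def p15_22_0_101 : pfC (piC [(nat_lit 38632330), (nat_lit 25257288), (nat_lit 18773175), (nat_lit 12658484)] (nat_lit 21892566)) p15_22_0 (nat_lit 4) (nat_lit 101) (nat_lit 102) = true := by decide +kernel
def p15_22_0_102 : pfC (piC [(nat_lit 38632330), (nat_lit 25257288), (nat_lit 18773175), (nat_lit 12658484)] (nat_lit 21892566)) p15_22_0 (nat_lit 4) (nat_lit 102) (nat_lit 103) = true := by decide +kernel
def p15_22_0_103 : pfC (piC [(nat_lit 38632330), (nat_lit 25257288), (nat_lit 18773175), (nat_lit 12658484)] (nat_lit 21892566)) p15_22_0 (nat_lit 4) (nat_lit 103) (nat_lit 104) = true := by decide +kernel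
def p15_22_0_104 : pfC (piC [(nat_lit 38632330), (nat_lit 25257288), (nat_lit 18773175), (nat_lit 12658484)] (nat_lit 21892566)) p15_22_0 (nat_lit 4) (nat_lit 104) (nat_lit 105) = true := by decide +kernel
def p15_22_0_105 : pfC (piC [(nat_lit 38632330), (nat_lit 25257288), (nat_lit 18773175), (nat_lit 12658484)] (nat_lit 21892566)) p15_22_0 (nat_lit 4) (nat_lit 105) (nat_lit 106) = true := by decide +kernel
def p15_22_0_106 : pfC (piC [(nat_lit 38632330), (nat_lit 25257288), (nat_lit 18773175), (nat_lit 12658484)] (nat_lit 21892566)) p15_22_0 (nat_lit 4) (nat_lit 106) (nat_lit 107) = true := by decide +kernel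
def p15_22_0_107 : pfC (piC [(nat_lit 38632330), (nat_lit 25257288), (nat_lit 18773175), (nat_lit 12658484)] (nat_lit 21892566)) p15_22_0 (nat_lit 4) (nat_lit 107) (nat_lit 108) = true := by decide +kernel
def p15_22_0_108 : pfC (piC [(nat_lit 38632330), (nat_lit 25257288), (nat_lit 18773175), (nat_lit 12658484)] (nat_lit 21892566)) p15_22_0 (nat_lit 4) (nat_lit 108) (nat_lit 109) = true := by decide +kernel
def p15_22_0_109 : pfC (piC [(nat_lit 38632330), (nat_lit 25257288), (nat_lit 18773175), (nat_lit 12658484)] (nat_lit 21892566)) p15_22_0 (nat_lit 4) (nat_lit 109) (nat_lit 110) = true := by decide +kernel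
def p15_22_0_110 : pfC (piC [(nat_lit 38632330), (nat_lit 25257288), (nat_lit 18773175), (nat_lit 12658484)] (nat_lit 21892566)) p15_22_0 (nat_lit 4) (nat_lit 110) (nat_lit 111) = true := by decide +kernel
def p15_22_0_111 : pfC (piC [(nat_lit 38632330), (nat_lit 25257288), (nat_lit 18773175), (nat_lit 12658484)] (nat_lit 21892566)) p15_22_0 (nat_lit 4) (nat_lit 111) (nat_lit 112) = true := by decide +kernel
def p15_22_0_112 : pfC (piC [(nat_lit 38632330), (nat_lit 25257288), (nat_lit 18773175), (nat_lit 12658484)] (nat_lit 21892566)) p15_22_0 (nat_lit 4) (nat_lit 112) (nat_lit 113) = true := by decide +kernel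
def p15_22_0_113 : pfC (piC [(nat_lit 38632330), (nat_lit 25257288), (nat_lit 18773175), (nat_lit 12658484)] (nat_lit 21892566)) p15_22_0 (nat_lit 4) (nat_lit 113) (nat_lit 114) = true := by decide +kernel
def p15_22_0_114 : pfC (piC [(nat_lit 38632330), (nat_lit 25257288), (nat_lit 18773175), (nat_lit 12658484)] (nat_lit 21892566)) p15_22_0 (nat_lit 4) (nat_lit 114) (nat_lit 115) = true := by decide +kernel
def p15_22_0_115 : pfC (piC [(nat_lit 38632330), (nat_lit 25257288), (nat_lit 18773175), (nat_lit 12658484)] (nat_lit 21892566)) p15_22_0 (nat_lit 4) (nat_lit 115) (nat_lit 116) = true := by decide +kernel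
def p15_22_0_116 : pfC (piC [(nat_lit 38632330), (nat_lit 25257288), (nat_lit 18773175), (nat_lit 12658484)] (nat_lit 21892566)) p15_22_0 (nat_lit 4) (nat_lit 116) (nat_lit 117) = true := by decide +kernel
def p15_22_0_117 : pfC (piC [(nat_lit 38632330), (nat_lit 25257288), (nat_lit 18773175), (nat_lit 12658484)] (nat_lit 21892566)) p15_22_0 (nat_lit 4) (nat_lit 117) (nat_lit 118) = true := by decide +kernel
def p15_22_0_118 : pfC (piC [(nat_lit 38632330), (nat_lit 25257288), (nat_lit 18773175), (nat_lit 12658484)] (nat_lit 21892566)) p15_22_0 (nat_lit 4) (nat_lit 118) (nat_lit 119) = true := by decide +kernel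
def p15_22_0_119 : pfC (piC [(nat_lit 38632330), (nat_lit 25257288), (nat_lit 18773175), (nat_lit 12658484)] (nat_lit 21892566)) p15_22_0 (nat_lit 4) (nat_lit 119) (nat_lit 120) = true := by decide +kernel
def p15_22_0_120 : pfC (piC [(nat_lit 38632330), (nat_lit 25257288), (nat_lit 18773175), (nat_lit 12658484)] (nat_lit 21892566)) p15_22_0 (nat_lit 4) (nat_lit 120) (nat_lit 121) = true := by decide +kernel
def p15_22_0_121 : pfC (piC [(nat_lit 38632330), (nat_lit 25257288), (nat_lit 18773175), (nat_lit 12658484)] (nat_lit 21892566)) p15_22_0 (nat_lit 4) (nat_lit 121) (nat_lit 122) = true := by decide +kernel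
def p15_22_0_122 : pfC (piC [(nat_lit 38632330), (nat_lit 25257288), (nat_lit 18773175), (nat_lit 12658484)] (nat_lit 21892566)) p15_22_0 (nat_lit 4) (nat_lit 122) (nat_lit 123) = true := by decide +kernel
def p15_22_0_123 : pfC (piC [(nat_lit 38632330), (nat_lit 25257288), (nat_lit 18773175), (nat_lit 12658484)] (nat_lit 21892566)) p15_22_0 (nat_lit 4) (nat_lit 123) (nat_lit 124) = true := by decide +kernel
def p15_22_0_124 : pfC (piC [(nat_lit 38632330), (nat_lit 25257288), (nat_lit 18773175), (nat_lit 12658484)] (nat_lit 21892566)) p15_22_0 (nat_lit 4) (nat_lit 124) (nat_lit 125) = true := by decide +kernel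
def p15_22_0_125 : pfC (piC [(nat_lit 38632330), (nat_lit 25257288), (nat_lit 18773175), (nat_lit 12658484)] (nat_lit 21892566)) p15_22_0 (nat_lit 4) (nat_lit 125) (nat_lit 126) = true := by decide +kernel
def p15_22_0_126 : pfC (piC [(nat_lit 38632330), (nat_lit 25257288), (nat_lit 18773175), (nat_lit 12658484)] (nat_lit 21892566)) p15_22_0 (nat_lit 4) (nat_lit 126) (nat_lit 127) = true := by decide +kernel
def p15_22_0_127 : pfC (piC [(nat_lit 38632330), (nat_lit 25257288), (nat_lit 18773175), (nat_lit 12658484)] (nat_lit 21892566)) p15_22_0 (nat_lit 4) (nat_lit 127) (nat_lit 128) = true := by decide +kernel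
def p15_22_0_128 : pfC (piC [(nat_lit 38632330), (nat_lit 25257288), (nat_lit 18773175), (nat_lit 12658484)] (nat_lit 21892566)) p15_22_0 (nat_lit 4) (nat_lit 128) (nat_lit 129) = true := by decide +kernel
def p15_22_0_129 : pfC (piC [(nat_lit 38632330), (nat_lit 25257288), (nat_lit 18773175), (nat_lit 12658484)] (nat_lit 21892566)) p15_22_0 (nat_lit 4) (nat_lit 129) (nat_lit 130) = true := by decide +kernel
def p15_22_0_130 : pfC (piC [(nat_lit 38632330), (nat_lit 25257288), (nat_lit 18773175), (nat_lit 12658484)] (nat_lit 21892566)) p15_22_0 (nat_lit 4) (nat_lit 130) (nat_lit 131) = true := by decide +kernel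
def p15_22_0_131 : pfC (piC [(nat_lit 38632330), (nat_lit 25257288), (nat_lit 18773175), (nat_lit 12658484)] (nat_lit 21892566)) p15_22_0 (nat_lit 4) (nat_lit 131) (nat_lit 132) = true := by decide +kernel
def p15_22_0_132 : pfC (piC [(nat_lit 38632330), (nat_lit 25257288), (nat_lit 18773175), (nat_lit 12658484)] (nat_lit 21892566)) p15_22_0 (nat_lit 4) (nat_lit 132) (nat_lit 133) = true := by decide +kernel
def p15_22_0_133 : pfC (piC [(nat_lit 38632330), (nat_lit 25257288), (nat_lit 18773175), (nat_lit 12658484)] (nat_lit 21892566)) p15_22_0 (nat_lit 4) (nat_lit 133) (nat_lit 134) = true := by decide +kernel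
def p15_22_0_134 : pfC (piC [(nat_lit 38632330), (nat_lit 25257288), (nat_lit 18773175), (nat_lit 12658484)] (nat_lit 21892566)) p15_22_0 (nat_lit 4) (nat_lit 134) (nat_lit 135) = true := by decide +kernel
def p15_22_0_135 : pfC (piC [(nat_lit 38632330), (nat_lit 25257288), (nat_lit 18773175), (nat_lit 12658484)] (nat_lit 21892566)) p15_22_0 (nat_lit 4) (nat_lit 135) (nat_lit 136) = true := by decide +kernel
def p15_22_0_136 : pfC (piC [(nat_lit 38632330), (nat_lit 25257288), (nat_lit 18773175), (nat_lit 12658484)] (nat_lit 21892566)) p15_22_0 (nat_lit 4) (nat_lit 136) (nat_lit 137) = true := by decide +kernel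
def p15_22_0_137 : pfC (piC [(nat_lit 38632330), (nat_lit 25257288), (nat_lit 18773175), (nat_lit 12658484)] (nat_lit 21892566)) p15_22_0 (nat_lit 4) (nat_lit 137) (nat_lit 138) = true := by decide +kernel
def p15_22_0_138 : pfC (piC [(nat_lit 38632330), (nat_lit 25257288), (nat_lit 18773175), (nat_lit 12658484)] (nat_lit 21892566)) p15_22_0 (nat_lit 4) (nat_lit 138) (nat_lit 139) = true := by decide +kernel
def p15_22_0_139 : pfC (piC [(nat_lit 38632330), (nat_lit 25257288), (nat_lit 18773175), (nat_lit 12658484)] (nat_lit 21892566)) p15_22_0 (nat_lit 4) (nat_lit 139) (nat_lit 140) = true := by decide +kernel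
def p15_22_0_140 : pfC (piC [(nat_lit 38632330), (nat_lit 25257288), (nat_lit 18773175), (nat_lit 12658484)] (nat_lit 21892566)) p15_22_0 (nat_lit 4) (nat_lit 140) (nat_lit 141) = true := by decide +kernel
def p15_22_0_141 : pfC (piC [(nat_lit 38632330), (nat_lit 25257288), (nat_lit 18773175), (nat_lit 12658484)] (nat_lit 21892566)) p15_22_0 (nat_lit 4) (nat_lit 141) (nat_lit 142) = true := by decide +kernel
def p15_22_0_142 : pfC (piC [(nat_lit 38632330), (nat_lit 25257288), (nat_lit 18773175), (nat_lit 12658484)] (nat_lit 21892566)) p15_22_0 (nat_lit 4) (nat_lit 142) (nat_lit 143) = true := by decide +kernel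
def p15_22_0_143 : pfC (piC [(nat_lit 38632330), (nat_lit 25257288), (nat_lit 18773175), (nat_lit 12658484)] (nat_lit 21892566)) p15_22_0 (nat_lit 4) (nat_lit 143) (nat_lit 144) = true := by decide +kernel
def p15_22_0_144 : pfC (piC [(nat_lit 38632330), (nat_lit 25257288), (nat_lit 18773175), (nat_lit 12658484)] (nat_lit 21892566)) p15_22_0 (nat_lit 4) (nat_lit 144) (nat_lit 145) = true := by decide +kernel
def p15_22_0_145 : pfC (piC [(nat_lit 38632330), (nat_lit 25257288), (nat_lit 18773175), (nat_lit 12658484)] (nat_lit 21892566)) p15_22_0 (nat_lit 4) (nat_lit 145) (nat_lit 146) = true := by decide +kernel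
def p15_22_0_146 : pfC (piC [(nat_lit 38632330), (nat_lit 25257288), (nat_lit 18773175), (nat_lit 12658484)] (nat_lit 21892566)) p15_22_0 (nat_lit 4) (nat_lit 146) (nat_lit 147) = true := by decide +kernel
def p15_22_0_147 : pfC (piC [(nat_lit 38632330), (nat_lit 25257288), (nat_lit 18773175), (nat_lit 12658484)] (nat_lit 21892566)) p15_22_0 (nat_lit 4) (nat_lit 147) (nat_lit 148) = true := by decide +kernel
def p15_22_0_148 : pfC (piC [(nat_lit 38632330), (nat_lit 25257288), (nat_lit 18773175), (nat_lit 12658484)] (nat_lit 21892566)) p15_22_0 (nat_lit 4) (nat_lit 148) (nat_lit 149) = true := by decide +kernel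
def p15_22_0_149 : pfC (piC [(nat_lit 38632330), (nat_lit 25257288), (nat_lit 18773175), (nat_lit 12658484)] (nat_lit 21892566)) p15_22_0 (nat_lit 4) (nat_lit 149) (nat_lit 150) = true := by decide +kernel
def p15_22_0_150 : pfC (piC [(nat_lit 38632330), (nat_lit 25257288), (nat_lit 18773175), (nat_lit 12658484)] (nat_lit 21892566)) p15_22_0 (nat_lit 4) (nat_lit 150) (nat_lit 151) = true := by decide +kernel
def p15_22_0_151 : pfC (piC [(nat_lit 38632330), (nat_lit 25257288), (nat_lit 18773175), (nat_lit 12658484)] (nat_lit 21892566)) p15_22_0 (nat_lit 4) (nat_lit 151) (nat_lit 152) = true := by decide +kernel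
def p15_22_0_152 : pfC (piC [(nat_lit 38632330), (nat_lit 25257288), (nat_lit 18773175), (nat_lit 12658484)] (nat_lit 21892566)) p15_22_0 (nat_lit 4) (nat_lit 152) (nat_lit 153) = true := by decide +kernel
def p15_22_0_153 : pfC (piC [(nat_lit 38632330), (nat_lit 25257288), (nat_lit 18773175), (nat_lit 12658484)] (nat_lit 21892566)) p15_22_0 (nat_lit 4) (nat_lit 153) (nat_lit 154) = true := by decide +kernel
def p15_22_0_154 : pfC (piC [(nat_lit 38632330), (nat_lit 25257288), (nat_lit 18773175), (nat_lit 12658484)] (nat_lit 21892566)) p15_22_0 (nat_lit 4) (nat_lit 154) (nat_lit 155) = true := by decide +kernel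
def p15_22_0_155 : pfC (piC [(nat_lit 38632330), (nat_lit 25257288), (nat_lit 18773175), (nat_lit 12658484)] (nat_lit 21892566)) p15_22_0 (nat_lit 4) (nat_lit 155) (nat_lit 156) = true := by decide +kernel
def p15_22_0_156 : pfC (piC [(nat_lit 38632330), (nat_lit 25257288), (nat_lit 18773175), (nat_lit 12658484)] (nat_lit 21892566)) p15_22_0 (nat_lit 4) (nat_lit 156) (nat_lit 157) = true := by decide +kernel
def p15_22_0_157 : pfC (piC [(nat_lit 38632330), (nat_lit 25257288), (nat_lit 18773175), (nat_lit 12658484)] (nat_lit 21892566)) p15_22_0 (nat_lit 4) (nat_lit 157) (nat_lit 158) = true := by decide +kernel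
def p15_22_0_158 : pfC (piC [(nat_lit 38632330), (nat_lit 25257288), (nat_lit 18773175), (nat_lit 12658484)] (nat_lit 21892566)) p15_22_0 (nat_lit 4) (nat_lit 158) (nat_lit 159) = true := by decide +kernel
def p15_22_0_159 : pfC (piC [(nat_lit 38632330), (nat_lit 25257288), (nat_lit 18773175), (nat_lit 12658484)] (nat_lit 21892566)) p15_22_0 (nat_lit 4) (nat_lit 159) (nat_lit 160) = true := by decide +kernel
def p15_22_0_160 : pfC (piC [(nat_lit 38632330), (nat_lit 25257288), (nat_lit 18773175), (nat_lit 12658484)] (nat_lit 21892566)) p15_22_0 (nat_lit 4) (nat_lit 160) (nat_lit 161) = true := by decide +kernel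
def p15_22_0_161 : pfC (piC [(nat_lit 38632330), (nat_lit 25257288), (nat_lit 18773175), (nat_lit 12658484)] (nat_lit 21892566)) p15_22_0 (nat_lit 4) (nat_lit 161) (nat_lit 162) = true := by decide +kernel
def p15_22_0_162 : pfC (piC [(nat_lit 38632330), (nat_lit 25257288), (nat_lit 18773175), (nat_lit 12658484)] (nat_lit 21892566)) p15_22_0 (nat_lit 4) (nat_lit 162) (nat_lit 163) = true := by decide +kernel
def p15_22_0_163 : pfC (piC [(nat_lit 38632330), (nat_lit 25257288), (nat_lit 18773175), (nat_lit 12658484)] (nat_lit 21892566)) p15_22_0 (nat_lit 4) (nat_lit 163) (nat_lit 164) = true := by decide +kernel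
def p15_22_0_164 : pfC (piC [(nat_lit 38632330), (nat_lit 25257288), (nat_lit 18773175), (nat_lit 12658484)] (nat_lit 21892566)) p15_22_0 (nat_lit 4) (nat_lit 164) (nat_lit 165) = true := by decide +kernel
def p15_22_0_165 : pfC (piC [(nat_lit 38632330), (nat_lit 25257288), (nat_lit 18773175), (nat_lit 12658484)] (nat_lit 21892566)) p15_22_0 (nat_lit 4) (nat_lit 165) (nat_lit 166) = true := by decide +kernel
def p15_22_0_166 : pfC (piC [(nat_lit 38632330), (nat_lit 25257288), (nat_lit 18773175), (nat_lit 12658484)] (nat_lit 21892566)) p15_22_0 (nat_lit 4) (nat_lit 166) (nat_lit 167) = true := by decide +kernel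
def p15_22_0_167 : pfC (piC [(nat_lit 38632330), (nat_lit 25257288), (nat_lit 18773175), (nat_lit 12658484)] (nat_lit 21892566)) p15_22_0 (nat_lit 4) (nat_lit 167) (nat_lit 168) = true := by decide +kernel
def p15_22_0_168 : pfC (piC [(nat_lit 38632330), (nat_lit 25257288), (nat_lit 18773175), (nat_lit 12658484)] (nat_lit 21892566)) p15_22_0 (nat_lit 4) (nat_lit 168) (nat_lit 169) = true := by decide +kernel
def p15_22_0_169 : pfC (piC [(nat_lit 38632330), (nat_lit 25257288), (nat_lit 18773175), (nat_lit 12658484)] (nat_lit 21892566)) p15_22_0 (nat_lit 4) (nat_lit 169) (nat_lit 170) = true := by decide +kernel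
def p15_22_0_170 : pfC (piC [(nat_lit 38632330), (nat_lit 25257288), (nat_lit 18773175), (nat_lit 12658484)] (nat_lit 21892566)) p15_22_0 (nat_lit 4) (nat_lit 170) (nat_lit 171) = true := by decide +kernel
def p15_22_0_171 : pfC (piC [(nat_lit 38632330), (nat_lit 25257288), (nat_lit 18773175), (nat_lit 12658484)] (nat_lit 21892566)) p15_22_0 (nat_lit 4) (nat_lit 171) (nat_lit 172) = true := by decide +kernel
def p15_22_0_172 : pfC (piC [(nat_lit 38632330), (nat_lit 25257288), (nat_lit 18773175), (nat_lit 12658484)] (nat_lit 21892566)) p15_22_0 (nat_lit 4) (nat_lit 172) (nat_lit 173) = true := by decide +kernel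
def p15_22_0_173 : pfC (piC [(nat_lit 38632330), (nat_lit 25257288), (nat_lit 18773175), (nat_lit 12658484)] (nat_lit 21892566)) p15_22_0 (nat_lit 4) (nat_lit 173) (nat_lit 174) = true := by decide +kernel
def p15_22_0_174 : pfC (piC [(nat_lit 38632330), (nat_lit 25257288), (nat_lit 18773175), (nat_lit 12658484)] (nat_lit 21892566)) p15_22_0 (nat_lit 4) (nat_lit 174) (nat_lit 175) = true := by decide +kernel
def p15_22_0_175 : pfC (piC [(nat_lit 38632330), (nat_lit 25257288), (nat_lit 18773175), (nat_lit 12658484)] (nat_lit 21892566)) p15_22_0 (nat_lit 4) (nat_lit 175) (nat_lit 176) = true := by decide +kernel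
def p15_22_0_176 : pfC (piC [(nat_lit 38632330), (nat_lit 25257288), (nat_lit 18773175), (nat_lit 12658484)] (nat_lit 21892566)) p15_22_0 (nat_lit 4) (nat_lit 176) (nat_lit 177) = true := by decide +kernel
def p15_22_0_177 : pfC (piC [(nat_lit 38632330), (nat_lit 25257288), (nat_lit 18773175), (nat_lit 12658484)] (nat_lit 21892566)) p15_22_0 (nat_lit 4) (nat_lit 177) (nat_lit 178) = true := by decide +kernel
def p15_22_0_178 : pfC (piC [(nat_lit 38632330), (nat_lit 25257288), (nat_lit 18773175), (nat_lit 12658484)] (nat_lit 21892566)) p15_22_0 (nat_lit 4) (nat_lit 178) (nat_lit 179) = true := by decide +kernel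
def p15_22_0_179 : pfC (piC [(nat_lit 38632330), (nat_lit 25257288), (nat_lit 18773175), (nat_lit 12658484)] (nat_lit 21892566)) p15_22_0 (nat_lit 4) (nat_lit 179) (nat_lit 180) = true := by decide +kernel
def p15_22_0_180 : pfC (piC [(nat_lit 38632330), (nat_lit 25257288), (nat_lit 18773175), (nat_lit 12658484)] (nat_lit 21892566)) p15_22_0 (nat_lit 4) (nat_lit 180) (nat_lit 181) = true := by decide +kernel
def p15_22_0_181 : pfC (piC [(nat_lit 38632330), (nat_lit 25257288), (nat_lit 18773175), (nat_lit 12658484)] (nat_lit 21892566)) p15_22_0 (nat_lit 4) (nat_lit 181) (nat_lit 182) = true := by decide +kernel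
def p15_22_0_182 : pfC (piC [(nat_lit 38632330), (nat_lit 25257288), (nat_lit 18773175), (nat_lit 12658484)] (nat_lit 21892566)) p15_22_0 (nat_lit 4) (nat_lit 182) (nat_lit 183) = true := by decide +kernel
def p15_22_0_183 : pfC (piC [(nat_lit 38632330), (nat_lit 25257288), (nat_lit 18773175), (nat_lit 12658484)] (nat_lit 21892566)) p15_22_0 (nat_lit 4) (nat_lit 183) (nat_lit 184) = true := by decide +kernel
def p15_22_0_184 : pfC (piC [(nat_lit 38632330), (nat_lit 25257288), (nat_lit 18773175), (nat_lit 12658484)] (nat_lit 21892566)) p15_22_0 (nat_lit 4) (nat_lit 184) (nat_lit 185) = true := by decide +kernel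
def p15_22_0_185 : pfC (piC [(nat_lit 38632330), (nat_lit 25257288), (nat_lit 18773175), (nat_lit 12658484)] (nat_lit 21892566)) p15_22_0 (nat_lit 4) (nat_lit 185) (nat_lit 186) = true := by decide +kernel
def p15_22_0_186 : pfC (piC [(nat_lit 38632330), (nat_lit 25257288), (nat_lit 18773175), (nat_lit 12658484)] (nat_lit 21892566)) p15_22_0 (nat_lit 4) (nat_lit 186) (nat_lit 187) = true := by decide +kernel
def p15_22_0_187 : pfC (piC [(nat_lit 38632330), (nat_lit 25257288), (nat_lit 18773175), (nat_lit 12658484)] (nat_lit 21892566)) p15_22_0 (nat_lit 4) (nat_lit 187) (nat_lit 188) = true := by decide +kernel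
def p15_22_0_188 : pfC (piC [(nat_lit 38632330), (nat_lit 25257288), (nat_lit 18773175), (nat_lit 12658484)] (nat_lit 21892566)) p15_22_0 (nat_lit 4) (nat_lit 188) (nat_lit 189) = true := by decide +kernel
def p15_22_0_189 : pfC (piC [(nat_lit 38632330), (nat_lit 25257288), (nat_lit 18773175), (nat_lit 12658484)] (nat_lit 21892566)) p15_22_0 (nat_lit 4) (nat_lit 189) (nat_lit 190) = true := by decide +kernel
def p15_22_0_190 : pfC (piC [(nat_lit 38632330), (nat_lit 25257288), (nat_lit 18773175), (nat_lit 12658484)] (nat_lit 21892566)) p15_22_0 (nat_lit 4) (nat_lit 190) (nat_lit 191) = true := by decide +kernel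
def p15_22_0_191 : pfC (piC [(nat_lit 38632330), (nat_lit 25257288), (nat_lit 18773175), (nat_lit 12658484)] (nat_lit 21892566)) p15_22_0 (nat_lit 4) (nat_lit 191) (nat_lit 192) = true := by decide +kernel
def p15_22_0_192 : pfC (piC [(nat_lit 38632330), (nat_lit 25257288), (nat_lit 18773175), (nat_lit 12658484)] (nat_lit 21892566)) p15_22_0 (nat_lit 4) (nat_lit 192) (nat_lit 193) = true := by decide +kernel
def p15_22_0_193 : pfC (piC [(nat_lit 38632330), (nat_lit 25257288), (nat_lit 18773175), (nat_lit 12658484)] (nat_lit 21892566)) p15_22_0 (nat_lit 4) (nat_lit 193) (nat_lit 194) = true := by decide +kernel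
def p15_22_0_194 : pfC (piC [(nat_lit 38632330), (nat_lit 25257288), (nat_lit 18773175), (nat_lit 12658484)] (nat_lit 21892566)) p15_22_0 (nat_lit 4) (nat_lit 194) (nat_lit 195) = true := by decide +kernel
def p15_22_0_195 : pfC (piC [(nat_lit 38632330), (nat_lit 25257288), (nat_lit 18773175), (nat_lit 12658484)] (nat_lit 21892566)) p15_22_0 (nat_lit 4) (nat_lit 195) (nat_lit 196) = true := by decide +kernel
def p15_22_0_196 : pfC (piC [(nat_lit 38632330), (nat_lit 25257288), (nat_lit 18773175), (nat_lit 12658484)] (nat_lit 21892566)) p15_22_0 (nat_lit 4) (nat_lit 196) (nat_lit 197) = true := by decide +kernel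
def p15_22_0_197 : pfC (piC [(nat_lit 38632330), (nat_lit 25257288), (nat_lit 18773175), (nat_lit 12658484)] (nat_lit 21892566)) p15_22_0 (nat_lit 4) (nat_lit 197) (nat_lit 198) = true := by decide +kernel
def p15_22_0_198 : pfC (piC [(nat_lit 38632330), (nat_lit 25257288), (nat_lit 18773175), (nat_lit 12658484)] (nat_lit 21892566)) p15_22_0 (nat_lit 4) (nat_lit 198) (nat_lit 199) = true := by decide +kernel
def p15_22_0_199 : pfC (piC [(nat_lit 38632330), (nat_lit 25257288), (nat_lit 18773175), (nat_lit 12658484)] (nat_lit 21892566)) p15_22_0 (nat_lit 4) (nat_lit 199) (nat_lit 200) = true := by decide +kernel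
def p15_22_0_200 : pfC (piC [(nat_lit 38632330), (nat_lit 25257288), (nat_lit 18773175), (nat_lit 12658484)] (nat_lit 21892566)) p15_22_0 (nat_lit 4) (nat_lit 200) (nat_lit 201) = true := by decide +kernel
def p15_22_0_201 : pfC (piC [(nat_lit 38632330), (nat_lit 25257288), (nat_lit 18773175), (nat_lit 12658484)] (nat_lit 21892566)) p15_22_0 (nat_lit 4) (nat_lit 201) (nat_lit 202) = true := by decide +kernel
def p15_22_0_202 : pfC (piC [(nat_lit 38632330), (nat_lit 25257288), (nat_lit 18773175), (nat_lit 12658484)] (nat_lit 21892566)) p15_22_0 (nat_lit 4) (nat_lit 202) (nat_lit 203) = true := by decide +kernel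
def p15_22_0_203 : pfC (piC [(nat_lit 38632330), (nat_lit 25257288), (nat_lit 18773175), (nat_lit 12658484)] (nat_lit 21892566)) p15_22_0 (nat_lit 4) (nat_lit 203) (nat_lit 204) = true := by decide +kernel
def p15_22_0_204 : pfC (piC [(nat_lit 38632330), (nat_lit 25257288), (nat_lit 18773175), (nat_lit 12658484)] (nat_lit 21892566)) p15_22_0 (nat_lit 4) (nat_lit 204) (nat_lit 205) = true := by decide +kernel
def p15_22_0_205 : pfC (piC [(nat_lit 38632330), (nat_lit 25257288), (nat_lit 18773175), (nat_lit 12658484)] (nat_lit 21892566)) p15_22_0 (nat_lit 4) (nat_lit 205) (nat_lit 206) = true := by decide +kernel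
def p15_22_0_206 : pfC (piC [(nat_lit 38632330), (nat_lit 25257288), (nat_lit 18773175), (nat_lit 12658484)] (nat_lit 21892566)) p15_22_0 (nat_lit 4) (nat_lit 206) (nat_lit 207) = true := by decide +kernel
def p15_22_0_207 : pfC (piC [(nat_lit 38632330), (nat_lit 25257288), (nat_lit 18773175), (nat_lit 12658484)] (nat_lit 21892566)) p15_22_0 (nat_lit 4) (nat_lit 207) (nat_lit 208) = true := by decide +kernel
def p15_22_0_208 : pfC (piC [(nat_lit 38632330), (nat_lit 25257288), (nat_lit 18773175), (nat_lit 12658484)] (nat_lit 21892566)) p15_22_0 (nat_lit 4) (nat_lit 208) (nat_lit 209) = true := by decide +kernel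
def p15_22_0_209 : pfC (piC [(nat_lit 38632330), (nat_lit 25257288), (nat_lit 18773175), (nat_lit 12658484)] (nat_lit 21892566)) p15_22_0 (nat_lit 4) (nat_lit 209) (nat_lit 210) = true := by decide +kernel
def p15_22_0_210 : pfC (piC [(nat_lit 38632330), (nat_lit 25257288), (nat_lit 18773175), (nat_lit 12658484)] (nat_lit 21892566)) p15_22_0 (nat_lit 4) (nat_lit 210) (nat_lit 211) = true := by decide +kernel
def p15_22_0_211 : pfC (piC [(nat_lit 38632330), (nat_lit 25257288), (nat_lit 18773175), (nat_lit 12658484)] (nat_lit 21892566)) p15_22_0 (nat_lit 4) (nat_lit 211) (nat_lit 212) = true := by decide +kernel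
def p15_22_0_212 : pfC (piC [(nat_lit 38632330), (nat_lit 25257288), (nat_lit 18773175), (nat_lit 12658484)] (nat_lit 21892566)) p15_22_0 (nat_lit 4) (nat_lit 212) (nat_lit 213) = true := by decide +kernel
def p15_22_0_213 : pfC (piC [(nat_lit 38632330), (nat_lit 25257288), (nat_lit 18773175), (nat_lit 12658484)] (nat_lit 21892566)) p15_22_0 (nat_lit 4) (nat_lit 213) (nat_lit 214) = true := by decide +kernel
def p15_22_0_214 : pfC (piC [(nat_lit 38632330), (nat_lit 25257288), (nat_lit 18773175), (nat_lit 12658484)] (nat_lit 21892566)) p15_22_0 (nat_lit 4) (nat_lit 214) (nat_lit 215) = true := by decide +kernel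
def p15_22_0_215 : pfC (piC [(nat_lit 38632330), (nat_lit 25257288), (nat_lit 18773175), (nat_lit 12658484)] (nat_lit 21892566)) p15_22_0 (nat_lit 4) (nat_lit 215) (nat_lit 216) = true := by decide +kernel
def p15_22_0_216 : pfC (piC [(nat_lit 38632330), (nat_lit 25257288), (nat_lit 18773175), (nat_lit 12658484)] (nat_lit 21892566)) p15_22_0 (nat_lit 4) (nat_lit 216) (nat_lit 217) = true := by decide +kernel
def p15_22_0_217 : pfC (piC [(nat_lit 38632330), (nat_lit 25257288), (nat_lit 18773175), (nat_lit 12658484)] (nat_lit 21892566)) p15_22_0 (nat_lit 4) (nat_lit 217) (nat_lit 218) = true := by decide +kernel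
def p15_22_0_218 : pfC (piC [(nat_lit 38632330), (nat_lit 25257288), (nat_lit 18773175), (nat_lit 12658484)] (nat_lit 21892566)) p15_22_0 (nat_lit 4) (nat_lit 218) (nat_lit 219) = true := by decide +kernel
def p15_22_0_219 : pfC (piC [(nat_lit 38632330), (nat_lit 25257288), (nat_lit 18773175), (nat_lit 12658484)] (nat_lit 21892566)) p15_22_0 (nat_lit 4) (nat_lit 219) (nat_lit 220) = true := by decide +kernel
def p15_22_0_220 : pfC (piC [(nat_lit 38632330), (nat_lit 25257288), (nat_lit 18773175), (nat_lit 12658484)] (nat_lit 21892566)) p15_22_0 (nat_lit 4) (nat_lit 220) (nat_lit 221) = true := by decide +kernel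
def p15_22_0_221 : pfC (piC [(nat_lit 38632330), (nat_lit 25257288), (nat_lit 18773175), (nat_lit 12658484)] (nat_lit 21892566)) p15_22_0 (nat_lit 4) (nat_lit 221) (nat_lit 222) = true := by decide +kernel
def p15_22_0_222 : pfC (piC [(nat_lit 38632330), (nat_lit 25257288), (nat_lit 18773175), (nat_lit 12658484)] (nat_lit 21892566)) p15_22_0 (nat_lit 4) (nat_lit 222) (nat_lit 223) = true := by decide +kernel
def p15_22_0_223 : pfC (piC [(nat_lit 38632330), (nat_lit 25257288), (nat_lit 18773175), (nat_lit 12658484)] (nat_lit 21892566)) p15_22_0 (nat_lit 4) (nat_lit 223) (nat_lit 224) = true := by decide +kernel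
def p15_22_0_224 : pfC (piC [(nat_lit 38632330), (nat_lit 25257288), (nat_lit 18773175), (nat_lit 12658484)] (nat_lit 21892566)) p15_22_0 (nat_lit 4) (nat_lit 224) (nat_lit 225) = true := by decide +kernel
def p15_22_0_225 : pfC (piC [(nat_lit 38632330), (nat_lit 25257288), (nat_lit 18773175), (nat_lit 12658484)] (nat_lit 21892566)) p15_22_0 (nat_lit 4) (nat_lit 225) (nat_lit 226) = true := by decide +kernel
def p15_22_0_226 : pfC (piC [(nat_lit 38632330), (nat_lit 25257288), (nat_lit 18773175), (nat_lit 12658484)] (nat_lit 21892566)) p15_22_0 (nat_lit 4) (nat_lit 226) (nat_lit 227) = true := by decide +kernel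
def p15_22_0_227 : pfC (piC [(nat_lit 38632330), (nat_lit 25257288), (nat_lit 18773175), (nat_lit 12658484)] (nat_lit 21892566)) p15_22_0 (nat_lit 4) (nat_lit 227) (nat_lit 228) = true := by decide +kernel
def p15_22_0_228 : pfC (piC [(nat_lit 38632330), (nat_lit 25257288), (nat_lit 18773175), (nat_lit 12658484)] (nat_lit 21892566)) p15_22_0 (nat_lit 4) (nat_lit 228) (nat_lit 229) = true := by decide +kernel
def p15_22_0_229 : pfC (piC [(nat_lit 38632330), (nat_lit 25257288), (nat_lit 18773175), (nat_lit 12658484)] (nat_lit 21892566)) p15_22_0 (nat_lit 4) (nat_lit 229) (nat_lit 230) = true := by decide +kernel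
def p15_22_0_230 : pfC (piC [(nat_lit 38632330), (nat_lit 25257288), (nat_lit 18773175), (nat_lit 12658484)] (nat_lit 21892566)) p15_22_0 (nat_lit 4) (nat_lit 230) (nat_lit 231) = true := by decide +kernel
def p15_22_0_231 : pfC (piC [(nat_lit 38632330), (nat_lit 25257288), (nat_lit 18773175), (nat_lit 12658484)] (nat_lit 21892566)) p15_22_0 (nat_lit 4) (nat_lit 231) (nat_lit 232) = true := by decide +kernel
def p15_22_0_232 : pfC (piC [(nat_lit 38632330), (nat_lit 25257288), (nat_lit 18773175), (nat_lit 12658484)] (nat_lit 21892566)) p15_22_0 (nat_lit 4) (nat_lit 232) (nat_lit 233) = true := by decide +kernel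
def p15_22_0_233 : pfC (piC [(nat_lit 38632330), (nat_lit 25257288), (nat_lit 18773175), (nat_lit 12658484)] (nat_lit 21892566)) p15_22_0 (nat_lit 4) (nat_lit 233) (nat_lit 234) = true := by decide +kernel
def p15_22_0_234 : pfC (piC [(nat_lit 38632330), (nat_lit 25257288), (nat_lit 18773175), (nat_lit 12658484)] (nat_lit 21892566)) p15_22_0 (nat_lit 4) (nat_lit 234) (nat_lit 235) = true := by decide +kernel
def p15_22_0_235 : pfC (piC [(nat_lit 38632330), (nat_lit 25257288), (nat_lit 18773175), (nat_lit 12658484)] (nat_lit 21892566)) p15_22_0 (nat_lit 4) (nat_lit 235) (nat_lit 236) = true := by decide +kernel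
def p15_22_0_236 : pfC (piC [(nat_lit 38632330), (nat_lit 25257288), (nat_lit 18773175), (nat_lit 12658484)] (nat_lit 21892566)) p15_22_0 (nat_lit 4) (nat_lit 236) (nat_lit 237) = true := by decide +kernel
def p15_22_0_237 : pfC (piC [(nat_lit 38632330), (nat_lit 25257288), (nat_lit 18773175), (nat_lit 12658484)] (nat_lit 21892566)) p15_22_0 (nat_lit 4) (nat_lit 237) (nat_lit 238) = true := by decide +kernel
def p15_22_0_238 : pfC (piC [(nat_lit 38632330), (nat_lit 25257288), (nat_lit 18773175), (nat_lit 12658484)] (nat_lit 21892566)) p15_22_0 (nat_lit 4) (nat_lit 238) (nat_lit 239) = true := by decide +kernel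
def p15_22_0_239 : pfC (piC [(nat_lit 38632330), (nat_lit 25257288), (nat_lit 18773175), (nat_lit 12658484)] (nat_lit 21892566)) p15_22_0 (nat_lit 4) (nat_lit 239) (nat_lit 240) = true := by decide +kernel
def p15_22_0_240 : pfC (piC [(nat_lit 38632330), (nat_lit 25257288), (nat_lit 18773175), (nat_lit 12658484)] (nat_lit 21892566)) p15_22_0 (nat_lit 4) (nat_lit 240) (nat_lit 241) = true := by decide +kernel
def p15_22_0_241 : pfC (piC [(nat_lit 38632330), (nat_lit 25257288), (nat_lit 18773175), (nat_lit 12658484)] (nat_lit 21892566)) p15_22_0 (nat_lit 4) (nat_lit 241) (nat_lit 242) = true := by decide +kernel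
def p15_22_0_242 : pfC (piC [(nat_lit 38632330), (nat_lit 25257288), (nat_lit 18773175), (nat_lit 12658484)] (nat_lit 21892566)) p15_22_0 (nat_lit 4) (nat_lit 242) (nat_lit 243) = true := by decide +kernel
def p15_22_0_243 : pfC (piC [(nat_lit 38632330), (nat_lit 25257288), (nat_lit 18773175), (nat_lit 12658484)] (nat_lit 21892566)) p15_22_0 (nat_lit 4) (nat_lit 243) (nat_lit 244) = true := by decide +kernel
def p15_22_0_244 : pfC (piC [(nat_lit 38632330), (nat_lit 25257288), (nat_lit 18773175), (nat_lit 12658484)] (nat_lit 21892566)) p15_22_0 (nat_lit 4) (nat_lit 244) (nat_lit 245) = true := by decide +kernel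
def p15_22_0_245 : pfC (piC [(nat_lit 38632330), (nat_lit 25257288), (nat_lit 18773175), (nat_lit 12658484)] (nat_lit 21892566)) p15_22_0 (nat_lit 4) (nat_lit 245) (nat_lit 246) = true := by decide +kernel
def p15_22_0_246 : pfC (piC [(nat_lit 38632330), (nat_lit 25257288), (nat_lit 18773175), (nat_lit 12658484)] (nat_lit 21892566)) p15_22_0 (nat_lit 4) (nat_lit 246) (nat_lit 247) = true := by decide +kernel
def p15_22_0_247 : pfC (piC [(nat_lit 38632330), (nat_lit 25257288), (nat_lit 18773175), (nat_lit 12658484)] (nat_lit 21892566)) p15_22_0 (nat_lit 4) (nat_lit 247) (nat_lit 248) = true := by decide +kernel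
def p15_22_0_248 : pfC (piC [(nat_lit 38632330), (nat_lit 25257288), (nat_lit 18773175), (nat_lit 12658484)] (nat_lit 21892566)) p15_22_0 (nat_lit 4) (nat_lit 248) (nat_lit 249) = true := by decide +kernel
def p15_22_0_249 : pfC (piC [(nat_lit 38632330), (nat_lit 25257288), (nat_lit 18773175), (nat_lit 12658484)] (nat_lit 21892566)) p15_22_0 (nat_lit 4) (nat_lit 249) (nat_lit 250) = true := by decide +kernel
def p15_22_0_250 : pfC (piC [(nat_lit 38632330), (nat_lit 25257288), (nat_lit 18773175), (nat_lit 12658484)] (nat_lit 21892566)) p15_22_0 (nat_lit 4) (nat_lit 250) (nat_lit 251) = true := by decide +kernel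
def p15_22_0_251 : pfC (piC [(nat_lit 38632330), (nat_lit 25257288), (nat_lit 18773175), (nat_lit 12658484)] (nat_lit 21892566)) p15_22_0 (nat_lit 4) (nat_lit 251) (nat_lit 252) = true := by decide +kernel
def p15_22_0_252 : pfC (piC [(nat_lit 38632330), (nat_lit 25257288), (nat_lit 18773175), (nat_lit 12658484)] (nat_lit 21892566)) p15_22_0 (nat_lit 4) (nat_lit 252) (nat_lit 253) = true := by decide +kernel
def p15_22_0_253 : pfC (piC [(nat_lit 38632330), (nat_lit 25257288), (nat_lit 18773175), (nat_lit 12658484)] (nat_lit 21892566)) p15_22_0 (nat_lit 4) (nat_lit 253) (nat_lit 254) = true := by decide +kernel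
def p15_22_0_254 : pfC (piC [(nat_lit 38632330), (nat_lit 25257288), (nat_lit 18773175), (nat_lit 12658484)] (nat_lit 21892566)) p15_22_0 (nat_lit 4) (nat_lit 254) (nat_lit 255) = true := by decide +kernel
def p15_22_0_255 : pfC (piC [(nat_lit 38632330), (nat_lit 25257288), (nat_lit 18773175), (nat_lit 12658484)] (nat_lit 21892566)) p15_22_0 (nat_lit 4) (nat_lit 255) (nat_lit 256) = true := by decide +kernel
def p15_22_0_256 : pfC (piC [(nat_lit 38632330), (nat_lit 25257288), (nat_lit 18773175), (nat_lit 12658484)] (nat_lit 21892566)) p15_22_0 (nat_lit 4) (nat_lit 256) (nat_lit 257) = true := by decide +kernel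
def p15_22_0_257 : pfC (piC [(nat_lit 38632330), (nat_lit 25257288), (nat_lit 18773175), (nat_lit 12658484)] (nat_lit 21892566)) p15_22_0 (nat_lit 4) (nat_lit 257) (nat_lit 258) = true := by decide +kernel
def p15_22_0_258 : pfC (piC [(nat_lit 38632330), (nat_lit 25257288), (nat_lit 18773175), (nat_lit 12658484)] (nat_lit 21892566)) p15_22_0 (nat_lit 4) (nat_lit 258) (nat_lit 259) = true := by decide +kernel
def p15_22_0_259 : pfC (piC [(nat_lit 38632330), (nat_lit 25257288), (nat_lit 18773175), (nat_lit 12658484)] (nat_lit 21892566)) p15_22_0 (nat_lit 4) (nat_lit 259) (nat_lit 260) = true := by decide +kernel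
def p15_22_0_260 : pfC (piC [(nat_lit 38632330), (nat_lit 25257288), (nat_lit 18773175), (nat_lit 12658484)] (nat_lit 21892566)) p15_22_0 (nat_lit 4) (nat_lit 260) (nat_lit 261) = true := by decide +kernel
def p15_22_0_261 : pfC (piC [(nat_lit 38632330), (nat_lit 25257288), (nat_lit 18773175), (nat_lit 12658484)] (nat_lit 21892566)) p15_22_0 (nat_lit 4) (nat_lit 261) (nat_lit 262) = true := by decide +kernel
def p15_22_0_262 : pfC (piC [(nat_lit 38632330), (nat_lit 25257288), (nat_lit 18773175), (nat_lit 12658484)] (nat_lit 21892566)) p15_22_0 (nat_lit 4) (nat_lit 262) (nat_lit 263) = true := by decide +kernel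
def p15_22_0_263 : pfC (piC [(nat_lit 38632330), (nat_lit 25257288), (nat_lit 18773175), (nat_lit 12658484)] (nat_lit 21892566)) p15_22_0 (nat_lit 4) (nat_lit 263) (nat_lit 264) = true := by decide +kernel
def p15_22_0_264 : pfC (piC [(nat_lit 38632330), (nat_lit 25257288), (nat_lit 18773175), (nat_lit 12658484)] (nat_lit 21892566)) p15_22_0 (nat_lit 4) (nat_lit 264) (nat_lit 265) = true := by decide +kernel
def p15_22_0_265 : pfC (piC [(nat_lit 38632330), (nat_lit 25257288), (nat_lit 18773175), (nat_lit 12658484)] (nat_lit 21892566)) p15_22_0 (nat_lit 4) (nat_lit 265) (nat_lit 266) = true := by decide +kernel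
def p15_22_0_266 : pfC (piC [(nat_lit 38632330), (nat_lit 25257288), (nat_lit 18773175), (nat_lit 12658484)] (nat_lit 21892566)) p15_22_0 (nat_lit 4) (nat_lit 266) (nat_lit 267) = true := by decide +kernel
def p15_22_0_267 : pfC (piC [(nat_lit 38632330), (nat_lit 25257288), (nat_lit 18773175), (nat_lit 12658484)] (nat_lit 21892566)) p15_22_0 (nat_lit 4) (nat_lit 267) (nat_lit 268) = true := by decide +kernel
def p15_22_0_268 : pfC (piC [(nat_lit 38632330), (nat_lit 25257288), (nat_lit 18773175), (nat_lit 12658484)] (nat_lit 21892566)) p15_22_0 (nat_lit 4) (nat_lit 268) (nat_lit 269) = true := by decide +kernel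
def p15_22_0_269 : pfC (piC [(nat_lit 38632330), (nat_lit 25257288), (nat_lit 18773175), (nat_lit 12658484)] (nat_lit 21892566)) p15_22_0 (nat_lit 4) (nat_lit 269) (nat_lit 270) = true := by decide +kernel
def p15_22_0_270 : pfC (piC [(nat_lit 38632330), (nat_lit 25257288), (nat_lit 18773175), (nat_lit 12658484)] (nat_lit 21892566)) p15_22_0 (nat_lit 4) (nat_lit 270) (nat_lit 271) = true := by decide +kernel
def p15_22_0_271 : pfC (piC [(nat_lit 38632330), (nat_lit 25257288), (nat_lit 18773175), (nat_lit 12658484)] (nat_lit 21892566)) p15_22_0 (nat_lit 4) (nat_lit 271) (nat_lit 272) = true := by decide +kernel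
def p15_22_0_272 : pfC (piC [(nat_lit 38632330), (nat_lit 25257288), (nat_lit 18773175), (nat_lit 12658484)] (nat_lit 21892566)) p15_22_0 (nat_lit 4) (nat_lit 272) (nat_lit 273) = true := by decide +kernel
def p15_22_0_273 : pfC (piC [(nat_lit 38632330), (nat_lit 25257288), (nat_lit 18773175), (nat_lit 12658484)] (nat_lit 21892566)) p15_22_0 (nat_lit 4) (nat_lit 273) (nat_lit 274) = true := by decide +kernel
def p15_22_0_274 : pfC (piC [(nat_lit 38632330), (nat_lit 25257288), (nat_lit 18773175), (nat_lit 12658484)] (nat_lit 21892566)) p15_22_0 (nat_lit 4) (nat_lit 274) (nat_lit 275) = true := by decide +kernel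
def p15_22_0_275 : pfC (piC [(nat_lit 38632330), (nat_lit 25257288), (nat_lit 18773175), (nat_lit 12658484)] (nat_lit 21892566)) p15_22_0 (nat_lit 4) (nat_lit 275) (nat_lit 276) = true := by decide +kernel
def p15_22_0_276 : pfC (piC [(nat_lit 38632330), (nat_lit 25257288), (nat_lit 18773175), (nat_lit 12658484)] (nat_lit 21892566)) p15_22_0 (nat_lit 4) (nat_lit 276) (nat_lit 277) = true := by decide +kernel
def p15_22_0_277 : pfC (piC [(nat_lit 38632330), (nat_lit 25257288), (nat_lit 18773175), (nat_lit 12658484)] (nat_lit 21892566)) p15_22_0 (nat_lit 4) (nat_lit 277) (nat_lit 278) = true := by decide +kernel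
def p15_22_0_278 : pfC (piC [(nat_lit 38632330), (nat_lit 25257288), (nat_lit 18773175), (nat_lit 12658484)] (nat_lit 21892566)) p15_22_0 (nat_lit 4) (nat_lit 278) (nat_lit 279) = true := by decide +kernel
def p15_22_0_279 : pfC (piC [(nat_lit 38632330), (nat_lit 25257288), (nat_lit 18773175), (nat_lit 12658484)] (nat_lit 21892566)) p15_22_0 (nat_lit 4) (nat_lit 279) (nat_lit 280) = true := by decide +kernel
def p15_22_0_280 : pfC (piC [(nat_lit 38632330), (nat_lit 25257288), (nat_lit 18773175), (nat_lit 12658484)] (nat_lit 21892566)) p15_22_0 (nat_lit 4) (nat_lit 280) (nat_lit 281) = true := by decide +kernel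
def p15_22_0_281 : pfC (piC [(nat_lit 38632330), (nat_lit 25257288), (nat_lit 18773175), (nat_lit 12658484)] (nat_lit 21892566)) p15_22_0 (nat_lit 4) (nat_lit 281) (nat_lit 282) = true := by decide +kernel
def p15_22_0_282 : pfC (piC [(nat_lit 38632330), (nat_lit 25257288), (nat_lit 18773175), (nat_lit 12658484)] (nat_lit 21892566)) p15_22_0 (nat_lit 4) (nat_lit 282) (nat_lit 283) = true := by decide +kernel
def p15_22_0_283 : pfC (piC [(nat_lit 38632330), (nat_lit 25257288), (nat_lit 18773175), (nat_lit 12658484)] (nat_lit 21892566)) p15_22_0 (nat_lit 4) (nat_lit 283) (nat_lit 284) = true := by decide +kernel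
def p15_22_0_284 : pfC (piC [(nat_lit 38632330), (nat_lit 25257288), (nat_lit 18773175), (nat_lit 12658484)] (nat_lit 21892566)) p15_22_0 (nat_lit 4) (nat_lit 284) (nat_lit 285) = true := by decide +kernel
def p15_22_0_285 : pfC (piC [(nat_lit 38632330), (nat_lit 25257288), (nat_lit 18773175), (nat_lit 12658484)] (nat_lit 21892566)) p15_22_0 (nat_lit 4) (nat_lit 285) (nat_lit 286) = true := by decide +kernel
def p15_22_0_286 : pfC (piC [(nat_lit 38632330), (nat_lit 25257288), (nat_lit 18773175), (nat_lit 12658484)] (nat_lit 21892566)) p15_22_0 (nat_lit 4) (nat_lit 286) (nat_lit 287) = true := by decide +kernel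
def p15_22_0_287 : pfC (piC [(nat_lit 38632330), (nat_lit 25257288), (nat_lit 18773175), (nat_lit 12658484)] (nat_lit 21892566)) p15_22_0 (nat_lit 4) (nat_lit 287) (nat_lit 288) = true := by decide +kernel
def p15_22_0_288 : pfC (piC [(nat_lit 38632330), (nat_lit 25257288), (nat_lit 18773175), (nat_lit 12658484)] (nat_lit 21892566)) p15_22_0 (nat_lit 4) (nat_lit 288) (nat_lit 289) = true := by decide +kernel
theorem p15_22_0_T : PfS (PiF n15_22.reverse (nat_lit 21892566)) p15_22_0 (nat_lit 4) [] 0 :=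
  pftab_of (los := [(nat_lit 38632330), (nat_lit 25257288), (nat_lit 18773175), (nat_lit 12658484)]) (by decide +kernel) (hi := (nat_lit 289)) (PfP.trans (PfP.trans (PfP.trans (PfP.trans (PfP.trans (PfP.trans (PfP.trans (PfP.trans (PfP.trans (PfP.trans (PfP.trans (PfP.trans (PfP.trans (PfP.trans (PfP.trans (PfP.trans (PfP.trans (PfP.trans (PfP.trans (PfP.trans (PfP.trans (PfP.trans (PfP.trans (PfP.trans (PfP.trans (PfP.trans (PfP.trans (PfP.trans (PfP.trans (PfP.trans (PfP.trans (PfP.trans (PfP.trans (PfP.trans (PfP.trans (PfP.trans (PfP.trans (PfP.trans (PfP.trans (PfP.trans (PfP.trans (PfP.trans (PfP.trans (PfP.trans (PfP.trans (PfP.trans (PfP.trans (PfP.trans (PfP.trans (PfP.trans (PfP.trans (PfP.trans (PfP.trans (PfP.trans (PfP.trans (PfP.trans (PfP.trans (PfP.trans (PfP.trans (PfP.trans (PfP.trans (PfP.trans (PfP.trans (PfP.trans (PfP.trans (PfP.trans (PfP.trans (PfP.trans (PfP.trans (PfP.trans (PfP.trans (PfP.trans (PfP.trans (PfP.trans (PfP.trans (PfP.trans (PfP.trans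 (PfP.trans (PfP.trans (PfP.trans (PfP.trans (PfP.trans (PfP.trans (PfP.trans (PfP.trans (PfP.trans (PfP.trans (PfP.trans (PfP.trans (PfP.trans (PfP.trans (PfP.trans (PfP.trans (PfP.trans (PfP.trans (PfP.trans (PfP.trans (PfP.trans (PfP.trans (PfP.trans (PfP.trans (PfP.trans (PfP.trans (PfP.trans (PfP.trans (PfP.trans (PfP.trans (PfP.trans (PfP.trans
 (PfP.trans (PfP.trans (PfP.trans (PfP.trans (PfP.trans (PfP.trans (PfP.trans (PfP.trans (PfP.trans (PfP.trans (PfP.trans (PfP.trans (PfP.trans (PfP.trans (PfP.trans (PfP.trans (PfP.trans (PfP.trans (PfP.trans (PfP.trans (PfP.trans (PfP.trans (PfP.trans (PfP.trans (PfP.trans (PfP.trans (PfP.trans (PfP.trans (PfP.trans (PfP.trans (PfP.trans (PfP.trans (PfP.trans (PfP.trans (PfP.trans (PfP.trans (PfP.trans (PfP.trans (PfP.trans (PfP.trans (PfP.trans (PfP.trans (PfP.trans (PfP.trans (PfP.trans (PfP.trans (PfP.trans (PfP.trans (PfP.trans (PfP.trans (PfP.trans (PfP.trans (PfP.trans (PfP.trans (PfP.trans (PfP.trans (PfP.trans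 (PfP.trans (PfP.trans (PfP.trans (PfP.trans (PfP.trans (PfP.trans (PfP.trans (PfP.trans (PfP.trans (PfP.trans (PfP.trans (PfP.trans (PfP.trans (PfP.trans (PfP.trans (PfP.trans (PfP.trans (PfP.trans (PfP.trans (PfP.trans (PfP.trans (PfP.trans (PfP.trans (PfP.trans (PfP.trans (PfP.trans (PfP.trans (PfP.trans (PfP.trans (PfP.trans (PfP.trans (PfP.trans (PfP.trans (PfP.trans (PfP.trans (PfP.trans (PfP.trans (PfP.trans (PfP.trans (PfP.trans (PfP.trans (PfP.trans (PfP.trans (PfP.trans (PfP.trans (PfP.trans (PfP.trans (PfP.trans (PfP.trans (PfP.trans (PfP.trans (PfP.trans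
 (PfP.trans (PfP.trans (PfP.trans (PfP.trans (PfP.trans (PfP.trans (PfP.trans (PfP.trans (PfP.trans (PfP.trans (PfP.trans (PfP.trans (PfP.trans (PfP.trans (PfP.trans (PfP.trans (PfP.trans (PfP.trans (PfP.trans (PfP.trans (PfP.trans (PfP.trans (PfP.trans (PfP.trans (PfP.trans (PfP.trans (PfP.trans (PfP.trans (PfP.trans (PfP.trans (PfP.trans (PfP.trans (PfP.trans (PfP.trans (PfP.trans (PfP.trans (PfP.trans (PfP.trans (PfP.trans (PfP.trans (PfP.trans (PfP.trans (PfP.trans (PfP.trans (PfP.trans (PfP.trans (PfP.trans (PfP.trans (PfP.trans (PfP.trans (PfP.trans (PfP.trans (PfP.trans (PfP.trans (PfP.trans (PfP.trans (PfP.trans (PfP.trans (PfP.trans (PfP.trans (PfP.trans (PfP.trans (PfP.trans (PfP.trans (PfP.trans (PfP.trans (PfP.trans (PfP.trans (PfP.trans (PfP.trans (pfC_sound p15_22_0_0) (pfC_sound p15_22_0_1)) (pfC_sound p15_22_0_2)) (pfC_sound p15_22_0_3)) (pfC_sound p15_22_0_4)) (pfC_sound p15_22_0_5)) (pfC_sound p15_22_0_6)) (pfC_sound p15_22_0_7)) (pfC_sound p15_22_0_8))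 (pfC_sound p15_22_0_9)) (pfC_sound p15_22_0_10)) (pfC_sound p15_22_0_11)) (pfC_sound p15_22_0_12)) (pfC_sound p15_22_0_13)) (pfC_sound p15_22_0_14)) (pfC_sound p15_22_0_15)) (pfC_sound p15_22_0_16)) (pfC_sound
 p15_22_0_17)) (pfC_sound p15_22_0_18)) (pfC_sound p15_22_0_19)) (pfC_sound p15_22_0_20)) (pfC_sound p15_22_0_21)) (pfC_sound p15_22_0_22)) (pfC_sound p15_22_0_23)) (pfC_sound p15_22_0_24)) (pfC_sound p15_22_0_25)) (pfC_sound p15_22_0_26)) (pfC_sound p15_22_0_27)) (pfC_sound p15_22_0_28)) (pfC_sound p15_22_0_29)) (pfC_sound p15_22_0_30)) (pfC_sound p15_22_0_31)) (pfC_sound p15_22_0_32)) (pfC_sound p15_22_0_33)) (pfC_sound p15_22_0_34)) (pfC_sound p15_22_0_35)) (pfC_sound p15_22_0_36)) (pfC_sound p15_22_0_37)) (pfC_sound p15_22_0_38)) (pfC_sound p15_22_0_39)) (pfC_sound p15_22_0_40)) (pfC_sound p15_22_0_41)) (pfC_sound p15_22_0_42)) (pfC_sound p15_22_0_43)) (pfC_sound p15_22_0_44)) (pfC_sound p15_22_0_45)) (pfC_sound p15_22_0_46)) (pfC_sound p15_22_0_47)) (pfC_sound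 p15_22_0_48)) (pfC_sound p15_22_0_49)) (pfC_sound p15_22_0_50)) (pfC_sound p15_22_0_51)) (pfC_sound p15_22_0_52)) (pfC_sound p15_22_0_53)) (pfC_sound p15_22_0_54)) (pfC_sound p15_22_0_55)) (pfC_sound p15_22_0_56)) (pfC_sound p15_22_0_57)) (pfC_sound p15_22_0_58)) (pfC_sound p15_22_0_59)) (pfC_sound p15_22_0_60)) (pfC_sound p15_22_0_61)) (pfC_sound p15_22_0_62)) (pfC_sound p15_22_0_63)) (pfC_sound p15_22_0_64)) (pfC_sound
 p15_22_0_65)) (pfC_sound p15_22_0_66)) (pfC_sound p15_22_0_67)) (pfC_sound p15_22_0_68)) (pfC_sound p15_22_0_69)) (pfC_sound p15_22_0_70)) (pfC_sound p15_22_0_71)) (pfC_sound p15_22_0_72)) (pfC_sound p15_22_0_73)) (pfC_sound p15_22_0_74)) (pfC_sound p15_22_0_75)) (pfC_sound p15_22_0_76)) (pfC_sound p15_22_0_77)) (pfC_sound p15_22_0_78)) (pfC_sound p15_22_0_79)) (pfC_sound p15_22_0_80)) (pfC_sound p15_22_0_81)) (pfC_sound p15_22_0_82)) (pfC_sound p15_22_0_83)) (pfC_sound p15_22_0_84)) (pfC_sound p15_22_0_85)) (pfC_sound p15_22_0_86)) (pfC_sound p15_22_0_87))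 (pfC_sound p15_22_0_88)) (pfC_sound p15_22_0_89)) (pfC_sound p15_22_0_90)) (pfC_sound p15_22_0_91)) (pfC_sound p15_22_0_92)) (pfC_sound p15_22_0_93)) (pfC_sound p15_22_0_94)) (pfC_sound p15_22_0_95)) (pfC_sound p15_22_0_96)) (pfC_sound p15_22_0_97)) (pfC_sound p15_22_0_98)) (pfC_sound p15_22_0_99)) (pfC_sound p15_22_0_100)) (pfC_sound p15_22_0_101)) (pfC_sound p15_22_0_102)) (pfC_sound p15_22_0_103)) (pfC_sound p15_22_0_104)) (pfC_sound p15_22_0_105)) (pfC_sound p15_22_0_106)) (pfC_sound p15_22_0_107)) (pfC_sound p15_22_0_108)) (pfC_sound p15_22_0_109)) (pfC_sound p15_22_0_110)) (pfC_sound p15_22_0_111)) (pfC_sound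
 p15_22_0_112)) (pfC_sound p15_22_0_113)) (pfC_sound p15_22_0_114)) (pfC_sound p15_22_0_115)) (pfC_sound p15_22_0_116)) (pfC_sound p15_22_0_117)) (pfC_sound p15_22_0_118)) (pfC_sound p15_22_0_119)) (pfC_sound p15_22_0_120)) (pfC_sound p15_22_0_121)) (pfC_sound p15_22_0_122)) (pfC_sound p15_22_0_123)) (pfC_sound p15_22_0_124)) (pfC_sound p15_22_0_125)) (pfC_sound p15_22_0_126)) (pfC_sound p15_22_0_127)) (pfC_sound p15_22_0_128)) (pfC_sound p15_22_0_129)) (pfC_sound p15_22_0_130)) (pfC_sound p15_22_0_131)) (pfC_sound p15_22_0_132)) (pfC_sound p15_22_0_133)) (pfC_sound p15_22_0_134)) (pfC_sound p15_22_0_135)) (pfC_sound p15_22_0_136)) (pfC_sound p15_22_0_137)) (pfC_sound p15_22_0_138)) (pfC_sound p15_22_0_139)) (pfC_sound p15_22_0_140)) (pfC_sound p15_22_0_141)) (pfC_sound p15_22_0_142)) (pfC_sound p15_22_0_143)) (pfC_sound p15_22_0_144)) (pfC_sound p15_22_0_145)) (pfC_sound p15_22_0_146)) (pfC_sound p15_22_0_147)) (pfC_sound p15_22_0_148)) (pfC_sound p15_22_0_149)) (pfC_sound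 p15_22_0_150)) (pfC_sound p15_22_0_151)) (pfC_sound p15_22_0_152)) (pfC_sound p15_22_0_153)) (pfC_sound p15_22_0_154)) (pfC_sound p15_22_0_155)) (pfC_sound p15_22_0_156)) (pfC_sound p15_22_0_157)) (pfC_sound
 p15_22_0_158)) (pfC_sound p15_22_0_159)) (pfC_sound p15_22_0_160)) (pfC_sound p15_22_0_161)) (pfC_sound p15_22_0_162)) (pfC_sound p15_22_0_163)) (pfC_sound p15_22_0_164)) (pfC_sound p15_22_0_165)) (pfC_sound p15_22_0_166)) (pfC_sound p15_22_0_167)) (pfC_sound p15_22_0_168)) (pfC_sound p15_22_0_169)) (pfC_sound p15_22_0_170)) (pfC_sound p15_22_0_171)) (pfC_sound p15_22_0_172)) (pfC_sound p15_22_0_173)) (pfC_sound p15_22_0_174)) (pfC_sound p15_22_0_175)) (pfC_sound p15_22_0_176)) (pfC_sound p15_22_0_177)) (pfC_sound p15_22_0_178)) (pfC_sound p15_22_0_179)) (pfC_sound p15_22_0_180)) (pfC_sound p15_22_0_181)) (pfC_sound p15_22_0_182)) (pfC_sound p15_22_0_183)) (pfC_sound p15_22_0_184)) (pfC_sound p15_22_0_185)) (pfC_sound p15_22_0_186)) (pfC_sound p15_22_0_187)) (pfC_sound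 p15_22_0_188)) (pfC_sound p15_22_0_189)) (pfC_sound p15_22_0_190)) (pfC_sound p15_22_0_191)) (pfC_sound p15_22_0_192)) (pfC_sound p15_22_0_193)) (pfC_sound p15_22_0_194)) (pfC_sound p15_22_0_195)) (pfC_sound p15_22_0_196)) (pfC_sound p15_22_0_197)) (pfC_sound p15_22_0_198)) (pfC_sound p15_22_0_199)) (pfC_sound p15_22_0_200)) (pfC_sound p15_22_0_201)) (pfC_sound p15_22_0_202)) (pfC_sound p15_22_0_203)) (pfC_sound
 p15_22_0_204)) (pfC_sound p15_22_0_205)) (pfC_sound p15_22_0_206)) (pfC_sound p15_22_0_207)) (pfC_sound p15_22_0_208)) (pfC_sound p15_22_0_209)) (pfC_sound p15_22_0_210)) (pfC_sound p15_22_0_211)) (pfC_sound p15_22_0_212)) (pfC_sound p15_22_0_213)) (pfC_sound p15_22_0_214)) (pfC_sound p15_22_0_215)) (pfC_sound p15_22_0_216)) (pfC_sound p15_22_0_217)) (pfC_sound p15_22_0_218)) (pfC_sound p15_22_0_219)) (pfC_sound p15_22_0_220)) (pfC_sound p15_22_0_221)) (pfC_sound p15_22_0_222)) (pfC_sound p15_22_0_223)) (pfC_sound p15_22_0_224)) (pfC_sound p15_22_0_225)) (pfC_sound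 p15_22_0_226)) (pfC_sound p15_22_0_227)) (pfC_sound p15_22_0_228)) (pfC_sound p15_22_0_229)) (pfC_sound p15_22_0_230)) (pfC_sound p15_22_0_231)) (pfC_sound p15_22_0_232)) (pfC_sound p15_22_0_233)) (pfC_sound p15_22_0_234)) (pfC_sound p15_22_0_235)) (pfC_sound p15_22_0_236)) (pfC_sound p15_22_0_237)) (pfC_sound p15_22_0_238)) (pfC_sound p15_22_0_239)) (pfC_sound p15_22_0_240)) (pfC_sound p15_22_0_241)) (pfC_sound p15_22_0_242)) (pfC_sound p15_22_0_243)) (pfC_sound p15_22_0_244)) (pfC_sound p15_22_0_245)) (pfC_sound p15_22_0_246)) (pfC_sound p15_22_0_247)) (pfC_sound p15_22_0_248)) (pfC_sound p15_22_0_249)) (pfC_sound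
 p15_22_0_250)) (pfC_sound p15_22_0_251)) (pfC_sound p15_22_0_252)) (pfC_sound p15_22_0_253)) (pfC_sound p15_22_0_254)) (pfC_sound p15_22_0_255)) (pfC_sound p15_22_0_256)) (pfC_sound p15_22_0_257)) (pfC_sound p15_22_0_258)) (pfC_sound p15_22_0_259)) (pfC_sound p15_22_0_260)) (pfC_sound p15_22_0_261)) (pfC_sound p15_22_0_262)) (pfC_sound p15_22_0_263)) (pfC_sound p15_22_0_264)) (pfC_sound p15_22_0_265)) (pfC_sound p15_22_0_266)) (pfC_sound p15_22_0_267)) (pfC_sound p15_22_0_268)) (pfC_sound p15_22_0_269)) (pfC_sound p15_22_0_270)) (pfC_sound p15_22_0_271)) (pfC_sound p15_22_0_272)) (pfC_sound p15_22_0_273)) (pfC_sound p15_22_0_274)) (pfC_sound p15_22_0_275)) (pfC_sound p15_22_0_276)) (pfC_sound p15_22_0_277)) (pfC_sound p15_22_0_278)) (pfC_sound p15_22_0_279)) (pfC_sound p15_22_0_280)) (pfC_sound p15_22_0_281)) (pfC_sound p15_22_0_282)) (pfC_sound p15_22_0_283)) (pfC_sound p15_22_0_284)) (pfC_sound p15_22_0_285)) (pfC_sound p15_22_0_286)) (pfC_sound p15_22_0_287)) (pfC_sound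 p15_22_0_288)) (by decide +kernel)

def z15_22_0 : zOK yB15_22 (nat_lit 0) (nat_lit 0) (nat_lit 400) (nat_lit 21892566) (nat_lit 10412874) = true := by decide +kernel
def g15_22_0 : gOK yB15_22.x P15_22 (nat_lit 1423) (q15_22 :: r15_22) (nat_lit 0) (nat_lit 0) (nat_lit 1) (nat_lit 400) (nat_lit 0) (nat_lit 11000000) (nat_lit 12712500) (nat_lit 12712500) [(nat_lit 800), (nat_lit 1400), (nat_lit 2200)] = true := by decide +kernel
def v15_22_0 : ivC P15_22 s15_22 w15_22 n15_22 (nat_lit 4) (nat_lit 5390) (nat_lit 0) (nat_lit 0) f160_1_0 f168_1_0 (nat_lit 1) (nat_lit 400) f160_1_400 f168_1_400 (nat_lit 21892566) (nat_lit 10412874) p15_22_0 = true := by decide +kernel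
def p15_22_1 : PF := (PF.cons (PF.cons (PF.cons (PF.cons (PF.leaf (nat_lit 2137823) (nat_lit 10255390) (nat_lit 56853422) (nat_lit 10255390) [(nat_lit 0), (nat_lit 0), (nat_lit 0), (nat_lit 0)]) (PF.cons (PF.leaf (nat_lit 2309743) (nat_lit 295896) (nat_lit 56535773) (nat_lit 10277143) [(nat_lit 295896), (nat_lit 0), (nat_lit 0), (nat_lit 0)]) (PF.cons (PF.leaf (nat_lit 2513292) (nat_lit 322127) (nat_lit 56164225) (nat_lit 10300331) [(nat_lit 322127), (nat_lit 0), (nat_lit 0), (nat_lit 0)]) (PF.cons (PF.leaf (nat_lit 2742149) (nat_lit 345499) (nat_lit 55748795) (nat_lit 10323519) [(nat_lit 345499), (nat_lit 0), (nat_lit 0), (nat_lit 0)]) (PF.cons (PF.leaf (nat_lit 2992723) (nat_lit 366642) (nat_lit 55296624) (nat_lit 10345618) [(nat_lit 366642), (nat_lit 0), (nat_lit 0), (nat_lit 0)]) (PF.cons (PF.leaf (nat_lit 3262322) (nat_lit 385954) (nat_lit 54813258) (nat_lit 10365781) [(nat_lit 385954), (nat_lit 0), (nat_lit 0), (nat_lit 0)]) (PF.cons (PF.leaf (nat_lit 3548644)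 (nat_lit 403703) (nat_lit 54303246) (nat_lit 10383347) [(nat_lit 403703), (nat_lit 0), (nat_lit 0), (nat_lit 0)]) (PF.cons (PF.leaf (nat_lit 3849769) (nat_lit 420080) (nat_lit 53770450) (nat_lit 10397801) [(nat_lit 420080), (nat_lit 0),
 (nat_lit 0), (nat_lit 0)]) (PF.cons (PF.leaf (nat_lit 4163994) (nat_lit 435227) (nat_lit 53218234) (nat_lit 10408755) [(nat_lit 435227), (nat_lit 0), (nat_lit 0), (nat_lit 0)]) (PF.cons PF.nil PF.nil)))))))))) (PF.cons (PF.cons (PF.leaf (nat_lit 2712582) (nat_lit 1323928) (nat_lit 55453391) (nat_lit 10331493) [(nat_lit 0), (nat_lit 1323928), (nat_lit 0), (nat_lit 0)]) (PF.cons (PF.leaf (nat_lit 2935114) (nat_lit 356882) (nat_lit 55042493) (nat_lit 10349798) [(nat_lit 356882), (nat_lit 1359637), (nat_lit 0), (nat_lit 0)]) (PF.cons (PF.leaf (nat_lit 3181603) (nat_lit 377274) (nat_lit 54592743) (nat_lit 10366960) [(nat_lit 377274), (nat_lit 1394559), (nat_lit 0), (nat_lit 0)]) (PF.cons (PF.leaf (nat_lit 3447765) (nat_lit 395820) (nat_lit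 54111068) (nat_lit 10382138) [(nat_lit 395820), (nat_lit 1428143), (nat_lit 0), (nat_lit 0)]) (PF.cons (PF.leaf (nat_lit 3730982) (nat_lit 412819) (nat_lit 53602724) (nat_lit 10394704) [(nat_lit 412819), (nat_lit 1460107), (nat_lit 0), (nat_lit 0)]) (PF.cons (PF.leaf (nat_lit 4029102) (nat_lit 428472) (nat_lit 53071958) (nat_lit 10404183) [(nat_lit 428472), (nat_lit 1490307), (nat_lit 0), (nat_lit 0)]) (PF.cons (PF.leaf (nat_lit 4340299) (nat_lit
 442928) (nat_lit 52522336) (nat_lit 10410226) [(nat_lit 442928), (nat_lit 1518679), (nat_lit 0), (nat_lit 0)]) (PF.cons PF.nil (PF.cons PF.nil PF.nil))))))))) (PF.cons (PF.cons (PF.leaf (nat_lit 3374136) (nat_lit 1427223) (nat_lit 53872613) (nat_lit 10381751) [(nat_lit 0), (nat_lit 1427223), (nat_lit 0), (nat_lit 0)]) (PF.cons (PF.leaf (nat_lit 3634486) (nat_lit 404355) (nat_lit 53397484) (nat_lit 10392103) [(nat_lit 404355), (nat_lit 1457434), (nat_lit 0), (nat_lit 0)]) (PF.cons (PF.leaf (nat_lit 3913321) (nat_lit 420795)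 (nat_lit 52894486) (nat_lit 10399879) [(nat_lit 420795), (nat_lit 1486428), (nat_lit 0), (nat_lit 0)]) (PF.cons (PF.leaf (nat_lit 4207493) (nat_lit 435867) (nat_lit 52368653) (nat_lit 10404628) [(nat_lit 435867), (nat_lit 1513964), (nat_lit 0), (nat_lit 0)]) (PF.cons (PF.leaf (nat_lit 4514924) (nat_lit 449741) (nat_lit 51823989) (nat_lit 10406030) [(nat_lit 449741), (nat_lit 1539913), (nat_lit 0), (nat_lit 0)]) (PF.cons (PF.leaf (nat_lit 4833925) (nat_lit 462539) (nat_lit 51263817) (nat_lit 10403863) [(nat_lit 462539), (nat_lit 1564217), (nat_lit 0), (nat_lit 0)]) (PF.cons PF.nil PF.nil))))))) (PF.cons (PF.cons (PF.leaf (nat_lit 4097217) (nat_lit 1510438)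
 (nat_lit 52178471) (nat_lit 10399027) [(nat_lit 0), (nat_lit 1510438), (nat_lit 0), (nat_lit 0)]) (PF.cons (PF.leaf (nat_lit 4385728) (nat_lit 442289) (nat_lit 51660789) (nat_lit 10399333) [(nat_lit 442289), (nat_lit 1535466), (nat_lit 0), (nat_lit 0)]) (PF.cons (PF.leaf (nat_lit 4688536) (nat_lit 455695) (nat_lit 51123593) (nat_lit 10396392) [(nat_lit 455695), (nat_lit 1559144), (nat_lit 0), (nat_lit 0)]) (PF.cons (PF.leaf (nat_lit 5003156) (nat_lit 468012) (nat_lit 50570667) (nat_lit 10390005) [(nat_lit 468012), (nat_lit 1581367), (nat_lit 0), (nat_lit 0)]) (PF.cons (PF.leaf (nat_lit 5327929) (nat_lit 479347) (nat_lit 50005114) (nat_lit 10380053) [(nat_lit 479347), (nat_lit 1602084), (nat_lit 0), (nat_lit 0)]) PF.nil))))) (PF.cons (PF.cons (PF.leaf (nat_lit 4862287) (nat_lit 1576538) (nat_lit 50421142) (nat_lit 10381516) [(nat_lit 0), (nat_lit 1576538), (nat_lit 0), (nat_lit 0)]) (PF.cons (PF.leaf (nat_lit 5171278) (nat_lit 472732) (nat_lit 49877655) (nat_lit 10371234)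 [(nat_lit 472732), (nat_lit 1596797), (nat_lit 0), (nat_lit 0)]) (PF.cons (PF.leaf (nat_lit 5491192) (nat_lit 483664) (nat_lit 49321130) (nat_lit 10357523) [(nat_lit 483664), (nat_lit 1615707), (nat_lit 0),
 (nat_lit 0)]) (PF.cons PF.nil PF.nil)))) (PF.cons (PF.cons (PF.leaf (nat_lit 5653679) (nat_lit 1627838) (nat_lit 48639010) (nat_lit 10330610) [(nat_lit 0), (nat_lit 1627838), (nat_lit 0), (nat_lit 0)]) (PF.cons (PF.leaf (nat_lit 5976887) (nat_lit 497001) (nat_lit 48082740) (nat_lit 10310144) [(nat_lit 497001), (nat_lit 1643785), (nat_lit 0), (nat_lit 0)]) PF.nil)) (PF.cons PF.nil (PF.cons PF.nil PF.nil)))))))) (PF.cons (PF.cons (PF.cons (PF.leaf (nat_lit 3296674) (nat_lit 3443475) (nat_lit 53303710) (nat_lit 10361627) [(nat_lit 0), (nat_lit 0), (nat_lit 3443475), (nat_lit 0)]) (PF.cons (PF.leaf (nat_lit 3529662) (nat_lit 383746) (nat_lit 52880997) (nat_lit 10368662) [(nat_lit 383746), (nat_lit 0), (nat_lit 3475406), (nat_lit 0)]) (PF.cons (PF.leaf (nat_lit 3785332)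 (nat_lit 402740) (nat_lit 52422308) (nat_lit 10373736) [(nat_lit 402740), (nat_lit 0), (nat_lit 3507286), (nat_lit 0)]) (PF.cons (PF.leaf (nat_lit 4059233) (nat_lit 419756) (nat_lit 51934924) (nat_lit 10376306) [(nat_lit 419756), (nat_lit 0), (nat_lit 3538312), (nat_lit 0)]) (PF.cons (PF.leaf (nat_lit 4348646) (nat_lit 435160) (nat_lit 51424233) (nat_lit 10375980) [(nat_lit 435160), (nat_lit 0), (nat_lit 3567956),
 (nat_lit 0)]) (PF.cons (PF.leaf (nat_lit 4651383) (nat_lit 449197) (nat_lit 50894476) (nat_lit 10372480) [(nat_lit 449197), (nat_lit 0), (nat_lit 3595869), (nat_lit 0)]) (PF.cons (PF.leaf (nat_lit 4965671) (nat_lit 462040) (nat_lit 50349133) (nat_lit 10365616) [(nat_lit 462040), (nat_lit 0), (nat_lit 3621819), (nat_lit 0)]) (PF.cons PF.nil (PF.cons PF.nil PF.nil))))))))) (PF.cons (PF.cons (PF.leaf (nat_lit 3972438) (nat_lit 1490403) (nat_lit 51707191) (nat_lit 10370192) [(nat_lit 0), (nat_lit 1490403), (nat_lit 3541026), (nat_lit 0)]) (PF.cons (PF.leaf (nat_lit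 4239314) (nat_lit 425998) (nat_lit 51230142) (nat_lit 10368770) [(nat_lit 425998), (nat_lit 1515714), (nat_lit 3568187), (nat_lit 0)]) (PF.cons (PF.leaf (nat_lit 4523241) (nat_lit 441014) (nat_lit 50728223) (nat_lit 10364495) [(nat_lit 441014), (nat_lit 1539813), (nat_lit 3594252), (nat_lit 0)]) (PF.cons (PF.leaf (nat_lit 4821120) (nat_lit 454619) (nat_lit 50206491) (nat_lit 10357118) [(nat_lit 454619), (nat_lit 1562523), (nat_lit 3618820), (nat_lit 0)]) (PF.cons (PF.leaf (nat_lit 5130850) (nat_lit 467014) (nat_lit 49668884) (nat_lit 10346478) [(nat_lit 467014), (nat_lit 1583759), (nat_lit 3641631), (nat_lit 0)]) (PF.cons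
 (PF.leaf (nat_lit 5450733) (nat_lit 478343) (nat_lit 49118606) (nat_lit 10332479) [(nat_lit 478343), (nat_lit 1603488), (nat_lit 3662519), (nat_lit 0)]) (PF.cons PF.nil PF.nil))))))) (PF.cons (PF.cons (PF.leaf (nat_lit 4699331) (nat_lit 1557832) (nat_lit 50027997) (nat_lit 10347858) [(nat_lit 0), (nat_lit 1557832), (nat_lit 3617292), (nat_lit 0)]) (PF.cons (PF.leaf (nat_lit 4990739) (nat_lit 459200) (nat_lit 49517052) (nat_lit 10336932) [(nat_lit 459200), (nat_lit 1578466), (nat_lit 3638695), (nat_lit 0)]) (PF.cons (PF.leaf (nat_lit 5295087) (nat_lit 471251) (nat_lit 48989287) (nat_lit 10322829) [(nat_lit 471251), (nat_lit 1597820), (nat_lit 3658551), (nat_lit 0)]) (PF.cons (PF.leaf (nat_lit 5609978) (nat_lit 482211) (nat_lit 48448377) (nat_lit 10305480) [(nat_lit 482211), (nat_lit 1615825), (nat_lit 3676669), (nat_lit 0)]) (PF.cons PF.nil PF.nil))))) (PF.cons (PF.cons (PF.leaf (nat_lit 5459528) (nat_lit 1610380) (nat_lit 48310064) (nat_lit 10294838) [(nat_lit 0),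 (nat_lit 1610380), (nat_lit 3672766), (nat_lit 0)]) (PF.cons (PF.leaf (nat_lit 5768280) (nat_lit 485427) (nat_lit 47780372) (nat_lit 10274462) [(nat_lit 485427), (nat_lit 1626756), (nat_lit 3688282), (nat_lit 0)])
 (PF.cons (PF.leaf (nat_lit 6086774) (nat_lit 495115) (nat_lit 47239879) (nat_lit 10250931) [(nat_lit 495115), (nat_lit 1641887), (nat_lit 3702108), (nat_lit 0)]) (PF.cons PF.nil PF.nil)))) (PF.cons (PF.cons (PF.leaf (nat_lit 6239131) (nat_lit 1650094) (nat_lit 46585923) (nat_lit 10213454) [(nat_lit 0), (nat_lit 1650094), (nat_lit 3709058), (nat_lit 0)]) (PF.cons PF.nil PF.nil)) (PF.cons PF.nil PF.nil)))))) (PF.cons (PF.cons (PF.cons (PF.leaf (nat_lit 4557219) (nat_lit 3599845) (nat_lit 49596557) (nat_lit 10312564) [(nat_lit 0), (nat_lit 0), (nat_lit 3599845), (nat_lit 0)]) (PF.cons (PF.leaf (nat_lit 4827961) (nat_lit 442965) (nat_lit 49124556) (nat_lit 10301181) [(nat_lit 442965), (nat_lit 0), (nat_lit 3620055), (nat_lit 0)]) (PF.cons (PF.leaf (nat_lit 5114527)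 (nat_lit 456696) (nat_lit 48630349) (nat_lit 10286831) [(nat_lit 456696), (nat_lit 0), (nat_lit 3639119), (nat_lit 0)]) (PF.cons (PF.leaf (nat_lit 5413796) (nat_lit 468995) (nat_lit 48118917) (nat_lit 10269427) [(nat_lit 468995), (nat_lit 0), (nat_lit 3656740), (nat_lit 0)]) (PF.cons (PF.leaf (nat_lit 5723683) (nat_lit 480085) (nat_lit 47594075) (nat_lit 10248929) [(nat_lit 480085), (nat_lit 0), (nat_lit 3672732), (nat_lit
 0)]) (PF.cons PF.nil (PF.cons PF.nil PF.nil))))))) (PF.cons (PF.cons (PF.leaf (nat_lit 5282233) (nat_lit 1591628) (nat_lit 47952681) (nat_lit 10257568) [(nat_lit 0), (nat_lit 1591628), (nat_lit 3653467), (nat_lit 0)]) (PF.cons (PF.leaf (nat_lit 5574440) (nat_lit 472055) (nat_lit 47453776) (nat_lit 10237435) [(nat_lit 472055), (nat_lit 1608542), (nat_lit 3668501), (nat_lit 0)]) (PF.cons (PF.leaf (nat_lit 5878439) (nat_lit 482904) (nat_lit 46940327) (nat_lit 10214270) [(nat_lit 482904), (nat_lit 1624245), (nat_lit 3682079), (nat_lit 0)]) (PF.cons (PF.leaf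 (nat_lit 6191903) (nat_lit 492672) (nat_lit 46415858) (nat_lit 10188102) [(nat_lit 492672), (nat_lit 1638697), (nat_lit 3694068), (nat_lit 0)]) (PF.cons PF.nil PF.nil))))) (PF.cons (PF.cons (PF.leaf (nat_lit 6033526) (nat_lit 1632865) (nat_lit 46288609) (nat_lit 10176053) [(nat_lit 0), (nat_lit 1632865), (nat_lit 3689209), (nat_lit 0)]) (PF.cons (PF.leaf (nat_lit 6340477) (nat_lit 494646) (nat_lit 45776450) (nat_lit 10147616) [(nat_lit 494646), (nat_lit 1645964), (nat_lit 3699084), (nat_lit 0)]) (PF.cons (PF.leaf (nat_lit 6656183) (nat_lit 503246) (nat_lit 45255311) (nat_lit 10116311) [(nat_lit 503246), (nat_lit 1657917), (nat_lit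
 3707431), (nat_lit 0)]) (PF.cons PF.nil PF.nil)))) (PF.cons (PF.cons (PF.leaf (nat_lit 6798720) (nat_lit 1662932) (nat_lit 44631904) (nat_lit 10070802) [(nat_lit 0), (nat_lit 1662932), (nat_lit 3708655), (nat_lit 0)]) (PF.cons PF.nil PF.nil)) (PF.cons PF.nil PF.nil))))) (PF.cons (PF.cons (PF.cons (PF.leaf (nat_lit 5844383) (nat_lit 3669086) (nat_lit 45964660) (nat_lit 10136893) [(nat_lit 0), (nat_lit 0), (nat_lit 3669086), (nat_lit 0)]) (PF.cons (PF.leaf (nat_lit 6135778) (nat_lit 481541) (nat_lit 45481387) (nat_lit 10109357) [(nat_lit 481541), (nat_lit 0), (nat_lit 3678842), (nat_lit 0)]) (PF.cons (PF.leaf (nat_lit 6437995) (nat_lit 491325) (nat_lit 44985486) (nat_lit 10078971) [(nat_lit 491325), (nat_lit 0), (nat_lit 3687234), (nat_lit 0)]) (PF.cons (PF.leaf (nat_lit 6748727) (nat_lit 500043) (nat_lit 44480308) (nat_lit 10045839) [(nat_lit 500043), (nat_lit 0), (nat_lit 3694178), (nat_lit 0)]) (PF.cons PF.nil PF.nil))))) (PF.cons (PF.cons (PF.leaf (nat_lit 6583880)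 (nat_lit 1646125) (nat_lit 44363681) (nat_lit 10032950) [(nat_lit 0), (nat_lit 1646125), (nat_lit 3688685), (nat_lit 0)]) (PF.cons (PF.leaf (nat_lit 6887888) (nat_lit 500993) (nat_lit 43871396) (nat_lit 9998194)
 [(nat_lit 500993), (nat_lit 1656459), (nat_lit 3693922), (nat_lit 0)]) (PF.cons PF.nil (PF.cons PF.nil PF.nil)))) (PF.cons (PF.cons (PF.leaf (nat_lit 7332959) (nat_lit 1668158) (nat_lit 42779759) (nat_lit 9909389) [(nat_lit 0), (nat_lit 1668158), (nat_lit 3694449), (nat_lit 0)]) (PF.cons PF.nil PF.nil)) PF.nil))) (PF.cons (PF.cons (PF.cons (PF.leaf (nat_lit 7110811) (nat_lit 3674717) (nat_lit 42538034) (nat_lit 9871908) [(nat_lit 0), (nat_lit 0), (nat_lit 3674717), (nat_lit 0)]) (PF.cons (PF.leaf (nat_lit 7411008) (nat_lit 504968) (nat_lit 42066921) (nat_lit 9832304) [(nat_lit 504968), (nat_lit 0), (nat_lit 3676154), (nat_lit 0)]) PF.nil)) (PF.cons PF.nil PF.nil)) (PF.cons PF.nil (PF.cons PF.nil (PF.cons PF.nil PF.nil)))))))) (PF.cons (PF.cons (PF.cons (PF.cons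 (PF.leaf (nat_lit 4286888) (nat_lit 9209582) (nat_lit 47805872) (nat_lit 10093357) [(nat_lit 0), (nat_lit 0), (nat_lit 0), (nat_lit 9209582)]) (PF.cons (PF.leaf (nat_lit 4517828) (nat_lit 397676) (nat_lit 47424241) (nat_lit 10082746) [(nat_lit 397676), (nat_lit 0), (nat_lit 0), (nat_lit 9204148)]) (PF.cons (PF.leaf (nat_lit 4769612) (nat_lit 415293) (nat_lit 47012206) (nat_lit 10069516) [(nat_lit 415293), (nat_lit 0),
 (nat_lit 0), (nat_lit 9196502)]) (PF.cons (PF.leaf (nat_lit 5037786) (nat_lit 430740) (nat_lit 46576537) (nat_lit 10053582) [(nat_lit 430740), (nat_lit 0), (nat_lit 0), (nat_lit 9186472)]) (PF.cons (PF.leaf (nat_lit 5319569) (nat_lit 444450) (nat_lit 46122179) (nat_lit 10034889) [(nat_lit 444450), (nat_lit 0), (nat_lit 0), (nat_lit 9173943)]) (PF.cons (PF.leaf (nat_lit 5612791) (nat_lit 456717) (nat_lit 45652956) (nat_lit 10013416) [(nat_lit 456717), (nat_lit 0), (nat_lit 0), (nat_lit 9158849)]) (PF.cons (PF.leaf (nat_lit 5915729) (nat_lit 467754) (nat_lit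 45171951) (nat_lit 9989170) [(nat_lit 467754), (nat_lit 0), (nat_lit 0), (nat_lit 9141161)]) (PF.cons (PF.leaf (nat_lit 6226905) (nat_lit 477719) (nat_lit 44681711) (nat_lit 9962182) [(nat_lit 477719), (nat_lit 0), (nat_lit 0), (nat_lit 9120885)]) (PF.cons PF.nil (PF.cons PF.nil PF.nil)))))))))) (PF.cons (PF.cons (PF.leaf (nat_lit 4939501) (nat_lit 1513108) (nat_lit 46379997) (nat_lit 10040225) [(nat_lit 0), (nat_lit 1513108), (nat_lit 0), (nat_lit 9175481)]) (PF.cons (PF.leaf (nat_lit 5199718) (nat_lit 434574) (nat_lit 45956070) (nat_lit 10022079) [(nat_lit 434574), (nat_lit 1532979), (nat_lit 0), (nat_lit 9163108)]) (PF.cons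
 (PF.leaf (nat_lit 5475196) (nat_lit 448003) (nat_lit 45511868) (nat_lit 10001154) [(nat_lit 448003), (nat_lit 1551537), (nat_lit 0), (nat_lit 9148245)]) (PF.cons (PF.leaf (nat_lit 5762866) (nat_lit 459948) (nat_lit 45051937) (nat_lit 9977472) [(nat_lit 459948), (nat_lit 1568697), (nat_lit 0), (nat_lit 9130857)]) (PF.cons (PF.leaf (nat_lit 6060695) (nat_lit 470647) (nat_lit 44579762) (nat_lit 9951072) [(nat_lit 470647), (nat_lit 1584443), (nat_lit 0), (nat_lit 9110943)]) (PF.cons (PF.leaf (nat_lit 6367061) (nat_lit 480272) (nat_lit 44098124) (nat_lit 9922008) [(nat_lit 480272), (nat_lit 1598794), (nat_lit 0), (nat_lit 9088524)]) (PF.cons PF.nil (PF.cons PF.nil (PF.cons PF.nil PF.nil))))))))) (PF.cons (PF.cons (PF.leaf (nat_lit 5632306) (nat_lit 1562589) (nat_lit 44900404) (nat_lit 9964006) [(nat_lit 0), (nat_lit 1562589), (nat_lit 0), (nat_lit 9119222)]) (PF.cons (PF.leaf (nat_lit 5912978) (nat_lit 462471) (nat_lit 44451883) (nat_lit 9938421) [(nat_lit 462471), (nat_lit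 1578106), (nat_lit 0), (nat_lit 9099823)]) (PF.cons (PF.leaf (nat_lit 6204999) (nat_lit 472934) (nat_lit 43990099) (nat_lit 9910140) [(nat_lit 472934), (nat_lit 1592384), (nat_lit 0), (nat_lit 9077935)]) (PF.cons
 (PF.leaf (nat_lit 6506054) (nat_lit 482296) (nat_lit 43518252) (nat_lit 9879246) [(nat_lit 482296), (nat_lit 1605408), (nat_lit 0), (nat_lit 9053605)]) (PF.cons (PF.leaf (nat_lit 6814629) (nat_lit 490705) (nat_lit 43038876) (nat_lit 9845831) [(nat_lit 490705), (nat_lit 1617194), (nat_lit 0), (nat_lit 9026895)]) (PF.cons PF.nil (PF.cons PF.nil PF.nil))))))) (PF.cons (PF.cons (PF.leaf (nat_lit 6349786) (nat_lit 1599215) (nat_lit 43402484) (nat_lit 9866455) [(nat_lit 0), (nat_lit 1599215), (nat_lit 0), (nat_lit 9042227)]) (PF.cons (PF.leaf (nat_lit 6644490) (nat_lit 483790) (nat_lit 42941800) (nat_lit 9833999) [(nat_lit 483790), (nat_lit 1610995), (nat_lit 0), (nat_lit 9016235)]) (PF.cons (PF.leaf (nat_lit 6947608) (nat_lit 491994) (nat_lit 42472890) (nat_lit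 9799065) [(nat_lit 491994), (nat_lit 1621649), (nat_lit 0), (nat_lit 8987918)]) (PF.cons PF.nil (PF.cons PF.nil PF.nil))))) (PF.cons (PF.cons (PF.leaf (nat_lit 7080422) (nat_lit 1625221) (nat_lit 41910986) (nat_lit 9750137) [(nat_lit 0), (nat_lit 1625221), (nat_lit 0), (nat_lit 8946802)]) (PF.cons (PF.leaf (nat_lit 7384253) (nat_lit 500001) (nat_lit 41447085) (nat_lit 9711620) [(nat_lit 500001), (nat_lit 1633794), (nat_lit 0),
 (nat_lit 8914928)]) (PF.cons PF.nil (PF.cons PF.nil PF.nil)))) (PF.cons (PF.cons (PF.leaf (nat_lit 7815448) (nat_lit 1642366) (nat_lit 40443409) (nat_lit 9617942) [(nat_lit 0), (nat_lit 1642366), (nat_lit 0), (nat_lit 8835630)]) (PF.cons PF.nil PF.nil)) PF.nil)))))) (PF.cons (PF.cons (PF.cons (PF.leaf (nat_lit 5473954) (nat_lit 3561988) (nat_lit 44543179) (nat_lit 9922175) [(nat_lit 0), (nat_lit 0), (nat_lit 3561988), (nat_lit 9081468)]) (PF.cons (PF.leaf (nat_lit 5735667) (nat_lit 445948) (nat_lit 44128709) (nat_lit 9897849) [(nat_lit 445948),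 (nat_lit 0), (nat_lit 3573363), (nat_lit 9062941)]) (PF.cons (PF.leaf (nat_lit 6011614) (nat_lit 458232) (nat_lit 43696067) (nat_lit 9870759) [(nat_lit 458232), (nat_lit 0), (nat_lit 3583594), (nat_lit 9041925)]) (PF.cons (PF.leaf (nat_lit 6298752) (nat_lit 469047) (nat_lit 43249646) (nat_lit 9841026) [(nat_lit 469047), (nat_lit 0), (nat_lit 3592515), (nat_lit 9018481)]) (PF.cons (PF.leaf (nat_lit 6595072) (nat_lit 478645) (nat_lit 42792763) (nat_lit 9808756) [(nat_lit 478645), (nat_lit 0), (nat_lit 3600032), (nat_lit 8992677)]) (PF.cons (PF.leaf (nat_lit 6899018) (nat_lit 487206) (nat_lit 42328034) (nat_lit 9774057) [(nat_lit 487206),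
 (nat_lit 0), (nat_lit 3606099), (nat_lit 8964587)]) (PF.cons PF.nil PF.nil))))))) (PF.cons (PF.cons (PF.leaf (nat_lit 6160833) (nat_lit 1579876) (nat_lit 43109513) (nat_lit 9826466) [(nat_lit 0), (nat_lit 1579876), (nat_lit 3587270), (nat_lit 9005685)]) (PF.cons (PF.leaf (nat_lit 6440664) (nat_lit 470432) (nat_lit 42675321) (nat_lit 9795391) [(nat_lit 470432), (nat_lit 1592509), (nat_lit 3594381), (nat_lit 8980777)]) (PF.cons (PF.leaf (nat_lit 6730929) (nat_lit 479884) (nat_lit 42229533) (nat_lit 9761775) [(nat_lit 479884), (nat_lit 1603993), (nat_lit 3600219), (nat_lit 8953521)]) (PF.cons (PF.leaf (nat_lit 7029378) (nat_lit 488264) (nat_lit 41775183) (nat_lit 9725760) [(nat_lit 488264), (nat_lit 1614329), (nat_lit 3604724), (nat_lit 8924021)]) (PF.cons (PF.leaf (nat_lit 7334544) (nat_lit 495724) (nat_lit 41314647) (nat_lit 9687474) [(nat_lit 495724), (nat_lit 1623544), (nat_lit 3607874), (nat_lit 8892375)]) PF.nil))))) (PF.cons (PF.cons (PF.leaf (nat_lit 6867433)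 (nat_lit 1608039) (nat_lit 41669149) (nat_lit 9712553) [(nat_lit 0), (nat_lit 1608039), (nat_lit 3598868), (nat_lit 8912161)]) (PF.cons (PF.leaf (nat_lit 7159366) (nat_lit 488855) (nat_lit 41226367) (nat_lit 9675471)
 [(nat_lit 488855), (nat_lit 1617352), (nat_lit 3601930), (nat_lit 8881482)]) (PF.cons (PF.leaf (nat_lit 7458962) (nat_lit 496178) (nat_lit 40776618) (nat_lit 9636138) [(nat_lit 496178), (nat_lit 1625636), (nat_lit 3603736), (nat_lit 8848689)]) (PF.cons PF.nil PF.nil)))) (PF.cons (PF.cons (PF.leaf (nat_lit 7583433) (nat_lit 1627001) (nat_lit 40243064) (nat_lit 9583085) [(nat_lit 0), (nat_lit 1627001), (nat_lit 3598362), (nat_lit 8803295)]) (PF.cons (PF.leaf (nat_lit 7882989) (nat_lit 502615) (nat_lit 39799539) (nat_lit 9540853) [(nat_lit 502615), (nat_lit 1633481), (nat_lit 3597756), (nat_lit 8767605)]) PF.nil)) (PF.cons PF.nil PF.nil))))) (PF.cons (PF.cons (PF.cons (PF.leaf (nat_lit 6670199) (nat_lit 3577977) (nat_lit 41404227) (nat_lit 9672875) [(nat_lit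 0), (nat_lit 0), (nat_lit 3577977), (nat_lit 8875755)]) (PF.cons (PF.leaf (nat_lit 6948157) (nat_lit 475956) (nat_lit 40986060) (nat_lit 9637494) [(nat_lit 475956), (nat_lit 0), (nat_lit 3581408), (nat_lit 8846483)]) (PF.cons (PF.leaf (nat_lit 7235776) (nat_lit 484517) (nat_lit 40557700) (nat_lit 9599740) [(nat_lit 484517), (nat_lit 0), (nat_lit 3583660), (nat_lit 8815017)]) (PF.cons (PF.leaf (nat_lit 7530837) (nat_lit 492035)
 (nat_lit 40122012) (nat_lit 9559792) [(nat_lit 492035), (nat_lit 0), (nat_lit 3584701), (nat_lit 8781497)]) (PF.cons PF.nil PF.nil))))) (PF.cons (PF.cons (PF.leaf (nat_lit 7364320) (nat_lit 1610584) (nat_lit 40025068) (nat_lit 9546474) [(nat_lit 0), (nat_lit 1610584), (nat_lit 3578614), (nat_lit 8769456)]) (PF.cons (PF.leaf (nat_lit 7652801) (nat_lit 491887) (nat_lit 39601060) (nat_lit 9505873) [(nat_lit 491887), (nat_lit 1617819), (nat_lit 3578505), (nat_lit 8735162)]) (PF.cons (PF.leaf (nat_lit 7948271) (nat_lit 498439) (nat_lit 39171110) (nat_lit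 9463236) [(nat_lit 498439), (nat_lit 1624111), (nat_lit 3577260), (nat_lit 8698953)]) (PF.cons PF.nil PF.nil)))) (PF.cons (PF.cons (PF.leaf (nat_lit 8064871) (nat_lit 1623689) (nat_lit 38665650) (nat_lit 9407312) [(nat_lit 0), (nat_lit 1623689), (nat_lit 3568984), (nat_lit 8650501)]) (PF.cons PF.nil PF.nil)) PF.nil))) (PF.cons (PF.cons (PF.cons (PF.leaf (nat_lit 7841034) (nat_lit 3549957) (nat_lit 38469107) (nat_lit 9372023) [(nat_lit 0), (nat_lit 0), (nat_lit 3549957), (nat_lit 8617808)]) (PF.cons (PF.leaf (nat_lit 8125526) (nat_lit 493242) (nat_lit 38064175) (nat_lit 9328828) [(nat_lit 493242), (nat_lit 0), (nat_lit 3547256),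
 (nat_lit 8580795)]) (PF.cons PF.nil PF.nil))) (PF.cons (PF.cons (PF.leaf (nat_lit 8525686) (nat_lit 1616291) (nat_lit 37176055) (nat_lit 9226006) [(nat_lit 0), (nat_lit 1616291), (nat_lit 3532979), (nat_lit 8491522)]) PF.nil) PF.nil)) (PF.cons PF.nil (PF.cons PF.nil PF.nil)))))) (PF.cons (PF.cons (PF.cons (PF.cons (PF.leaf (nat_lit 6276901) (nat_lit 8689716) (nat_lit 40257534) (nat_lit 9471846) [(nat_lit 0), (nat_lit 0), (nat_lit 0), (nat_lit 8689716)]) (PF.cons (PF.leaf (nat_lit 6528633) (nat_lit 442077) (nat_lit 39896339) (nat_lit 9441201) [(nat_lit 442077), (nat_lit 0), (nat_lit 0), (nat_lit 8664597)]) (PF.cons (PF.leaf (nat_lit 6793400) (nat_lit 453195) (nat_lit 39520009) (nat_lit 9408029) [(nat_lit 453195), (nat_lit 0), (nat_lit 0), (nat_lit 8637191)]) (PF.cons (PF.leaf (nat_lit 7068162) (nat_lit 462849) (nat_lit 39132364) (nat_lit 9372557) [(nat_lit 462849), (nat_lit 0), (nat_lit 0), (nat_lit 8607670)]) (PF.cons (PF.leaf (nat_lit 7351064) (nat_lit 471306) (nat_lit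 38736263) (nat_lit 9334968) [(nat_lit 471306), (nat_lit 0), (nat_lit 0), (nat_lit 8576177)]) (PF.cons (PF.leaf (nat_lit 7640628) (nat_lit 478756) (nat_lit 38333936) (nat_lit 9295418) [(nat_lit 478756), (nat_lit 0),
 (nat_lit 0), (nat_lit 8542837)]) (PF.cons PF.nil PF.nil))))))) (PF.cons (PF.cons (PF.leaf (nat_lit 6927326) (nat_lit 1548962) (nat_lit 39014470) (nat_lit 9357306) [(nat_lit 0), (nat_lit 1548962), (nat_lit 0), (nat_lit 8594036)]) (PF.cons (PF.leaf (nat_lit 7194804) (nat_lit 463129) (nat_lit 38638023) (nat_lit 9321315) [(nat_lit 463129), (nat_lit 1558631), (nat_lit 0), (nat_lit 8563856)]) (PF.cons (PF.leaf (nat_lit 7471706) (nat_lit 471512) (nat_lit 38252049) (nat_lit 9283162) [(nat_lit 471512), (nat_lit 1567224), (nat_lit 0), (nat_lit 8531675)]) (PF.cons (PF.leaf (nat_lit 7755866) (nat_lit 478850) (nat_lit 37859146) (nat_lit 9243040) [(nat_lit 478850), (nat_lit 1574769), (nat_lit 0), (nat_lit 8497652)]) (PF.cons PF.nil PF.nil))))) (PF.cons (PF.cons (PF.leaf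 (nat_lit 7593296) (nat_lit 1568384) (nat_lit 37770670) (nat_lit 9229907) [(nat_lit 0), (nat_lit 1568384), (nat_lit 0), (nat_lit 8485733)]) (PF.cons (PF.leaf (nat_lit 7871080) (nat_lit 478555) (nat_lit 37388126) (nat_lit 9189416) [(nat_lit 478555), (nat_lit 1575141), (nat_lit 0), (nat_lit 8451216)]) (PF.cons (PF.leaf (nat_lit 8155734) (nat_lit 484934) (nat_lit 36999924) (nat_lit 9147103) [(nat_lit 484934), (nat_lit 1580971),
 (nat_lit 0), (nat_lit 8414987)]) (PF.cons PF.nil PF.nil)))) (PF.cons (PF.cons (PF.leaf (nat_lit 8265979) (nat_lit 1580097) (nat_lit 36542522) (nat_lit 9092036) [(nat_lit 0), (nat_lit 1580097), (nat_lit 0), (nat_lit 8366981)]) (PF.cons PF.nil PF.nil)) (PF.cons PF.nil PF.nil))))) (PF.cons (PF.cons (PF.cons (PF.leaf (nat_lit 7392868) (nat_lit 3461380) (nat_lit 37553211) (nat_lit 9192257) [(nat_lit 0), (nat_lit 0), (nat_lit 3461380), (nat_lit 8450981)]) (PF.cons (PF.leaf (nat_lit 7657967) (nat_lit 466106) (nat_lit 37191525) (nat_lit 9153799) [(nat_lit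 466106), (nat_lit 0), (nat_lit 3460941), (nat_lit 8418220)]) (PF.cons (PF.leaf (nat_lit 7931873) (nat_lit 473732) (nat_lit 36821370) (nat_lit 9113323) [(nat_lit 473732), (nat_lit 0), (nat_lit 3459469), (nat_lit 8383591)]) (PF.cons (PF.leaf (nat_lit 8212441) (nat_lit 480350) (nat_lit 36445195) (nat_lit 9071046) [(nat_lit 480350), (nat_lit 0), (nat_lit 3456968), (nat_lit 8347274)]) (PF.cons PF.nil PF.nil))))) (PF.cons (PF.cons (PF.leaf (nat_lit 8046612) (nat_lit 1564501) (nat_lit 36364304) (nat_lit 9058163) [(nat_lit 0), (nat_lit 1564501), (nat_lit 3450780), (nat_lit 8335531)]) (PF.cons (PF.leaf (nat_lit 8320806) (nat_lit 479508) (nat_lit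
 35998394) (nat_lit 9015787) [(nat_lit 479508), (nat_lit 1569656), (nat_lit 3447493), (nat_lit 8298986)]) (PF.cons (PF.leaf (nat_lit 8601348) (nat_lit 485251) (nat_lit 35627575) (nat_lit 8971753) [(nat_lit 485251), (nat_lit 1573963), (nat_lit 3443253), (nat_lit 8260882)]) (PF.cons PF.nil PF.nil)))) (PF.cons (PF.cons (PF.leaf (nat_lit 8704938) (nat_lit 1571831) (nat_lit 35194266) (nat_lit 8915536) [(nat_lit 0), (nat_lit 1571831), (nat_lit 3432342), (nat_lit 8211502)]) (PF.cons PF.nil PF.nil)) PF.nil))) (PF.cons (PF.cons (PF.cons (PF.leaf (nat_lit 8482565) (nat_lit 3414554) (nat_lit 35033279) (nat_lit 8883328) [(nat_lit 0), (nat_lit 0), (nat_lit 3414554), (nat_lit 8181547)]) (PF.cons (PF.leaf (nat_lit 8752831) (nat_lit 479246) (nat_lit 34683884) (nat_lit 8839659) [(nat_lit 479246), (nat_lit 0), (nat_lit 3409457), (nat_lit 8143553)]) (PF.cons PF.nil PF.nil))) (PF.cons (PF.cons (PF.leaf (nat_lit 9126381) (nat_lit 1560784) (nat_lit 33920046) (nat_lit 8737729) [(nat_lit 0),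 (nat_lit 1560784), (nat_lit 3391134), (nat_lit 8053991)]) PF.nil) PF.nil)) (PF.cons PF.nil (PF.cons PF.nil PF.nil))))) (PF.cons (PF.cons (PF.cons (PF.cons (PF.leaf (nat_lit 8035237) (nat_lit 8033028) (nat_lit
 34286075) (nat_lit 8723653) [(nat_lit 0), (nat_lit 0), (nat_lit 0), (nat_lit 8033028)]) (PF.cons (PF.leaf (nat_lit 8288377) (nat_lit 454074) (nat_lit 33972140) (nat_lit 8684694) [(nat_lit 454074), (nat_lit 0), (nat_lit 0), (nat_lit 7999301)]) (PF.cons (PF.leaf (nat_lit 8549647) (nat_lit 460965) (nat_lit 33651015) (nat_lit 8643990) [(nat_lit 460965), (nat_lit 0), (nat_lit 0), (nat_lit 7963958)]) (PF.cons (PF.leaf (nat_lit 8816955) (nat_lit 466887) (nat_lit 33324800) (nat_lit 8601768) [(nat_lit 466887), (nat_lit 0), (nat_lit 0), (nat_lit 7927193)]) (PF.cons PF.nil PF.nil))))) (PF.cons (PF.cons (PF.leaf (nat_lit 8653220) (nat_lit 1513864) (nat_lit 33256869) (nat_lit 8589697) [(nat_lit 0), (nat_lit 1513864), (nat_lit 0), (nat_lit 7916127)]) (PF.cons (PF.leaf (nat_lit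 8914410) (nat_lit 465605) (nat_lit 32939572) (nat_lit 8547690) [(nat_lit 465605), (nat_lit 1517591), (nat_lit 0), (nat_lit 7879451)]) (PF.cons PF.nil (PF.cons PF.nil PF.nil)))) (PF.cons (PF.cons (PF.leaf (nat_lit 9274671) (nat_lit 1517399) (nat_lit 32244414) (nat_lit 8449871) [(nat_lit 0), (nat_lit 1517399), (nat_lit 0), (nat_lit 7793242)]) (PF.cons PF.nil PF.nil)) PF.nil))) (PF.cons (PF.cons (PF.cons (PF.leaf (nat_lit
 9055597) (nat_lit 3277845) (nat_lit 32111396) (nat_lit 8420908) [(nat_lit 0), (nat_lit 0), (nat_lit 3277845), (nat_lit 7766220)]) (PF.cons (PF.leaf (nat_lit 9313025) (nat_lit 464343) (nat_lit 31808163) (nat_lit 8378365) [(nat_lit 464343), (nat_lit 0), (nat_lit 3271399), (nat_lit 7728847)]) PF.nil)) (PF.cons PF.nil PF.nil)) (PF.cons PF.nil PF.nil))) (PF.cons (PF.cons (PF.cons (PF.cons (PF.leaf (nat_lit 9574572) (nat_lit 7377911) (nat_lit 29606702) (nat_lit 7990463) [(nat_lit 0), (nat_lit 0), (nat_lit 0), (nat_lit 7377911)]) (PF.cons PF.nil PF.nil)) (PF.cons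 PF.nil PF.nil)) (PF.cons PF.nil PF.nil)) (PF.cons PF.nil (PF.cons PF.nil (PF.cons PF.nil PF.nil))))))))

def p15_22_1_0 : pfC (piC [(nat_lit 38632330), (nat_lit 25257288), (nat_lit 18773175), (nat_lit 12658484)] (nat_lit 10412874)) p15_22_1 (nat_lit 4) (nat_lit 0) (nat_lit 1) = true := by decide +kernel
def p15_22_1_1 : pfC (piC [(nat_lit 38632330), (nat_lit 25257288), (nat_lit 18773175), (nat_lit 12658484)] (nat_lit 10412874)) p15_22_1 (nat_lit 4) (nat_lit 1) (nat_lit 2) = true := by decide +kernel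
def p15_22_1_2 : pfC (piC [(nat_lit 38632330), (nat_lit 25257288), (nat_lit 18773175), (nat_lit 12658484)] (nat_lit 10412874)) p15_22_1 (nat_lit 4) (nat_lit 2) (nat_lit 3) = true := by decide +kernel
def p15_22_1_3 : pfC (piC [(nat_lit 38632330), (nat_lit 25257288), (nat_lit 18773175), (nat_lit 12658484)] (nat_lit 10412874)) p15_22_1 (nat_lit 4) (nat_lit 3) (nat_lit 4) = true := by decide +kernel
def p15_22_1_4 : pfC (piC [(nat_lit 38632330), (nat_lit 25257288), (nat_lit 18773175), (nat_lit 12658484)] (nat_lit 10412874)) p15_22_1 (nat_lit 4) (nat_lit 4) (nat_lit 5) = true := by decide +kernel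
def p15_22_1_5 : pfC (piC [(nat_lit 38632330), (nat_lit 25257288), (nat_lit 18773175), (nat_lit 12658484)] (nat_lit 10412874)) p15_22_1 (nat_lit 4) (nat_lit 5) (nat_lit 6) = true := by decide +kernel
def p15_22_1_6 : pfC (piC [(nat_lit 38632330), (nat_lit 25257288), (nat_lit 18773175), (nat_lit 12658484)] (nat_lit 10412874)) p15_22_1 (nat_lit 4) (nat_lit 6) (nat_lit 7) = true := by decide +kernel
def p15_22_1_7 : pfC (piC [(nat_lit 38632330), (nat_lit 25257288), (nat_lit 18773175), (nat_lit 12658484)] (nat_lit 10412874)) p15_22_1 (nat_lit 4) (nat_lit 7) (nat_lit 8) = true := by decide +kernel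
def p15_22_1_8 : pfC (piC [(nat_lit 38632330), (nat_lit 25257288), (nat_lit 18773175), (nat_lit 12658484)] (nat_lit 10412874)) p15_22_1 (nat_lit 4) (nat_lit 8) (nat_lit 9) = true := by decide +kernel
def p15_22_1_9 : pfC (piC [(nat_lit 38632330), (nat_lit 25257288), (nat_lit 18773175), (nat_lit 12658484)] (nat_lit 10412874)) p15_22_1 (nat_lit 4) (nat_lit 9) (nat_lit 10) = true := by decide +kernel
def p15_22_1_10 : pfC (piC [(nat_lit 38632330), (nat_lit 25257288), (nat_lit 18773175), (nat_lit 12658484)] (nat_lit 10412874)) p15_22_1 (nat_lit 4) (nat_lit 10) (nat_lit 11) = true := by decide +kernel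
def p15_22_1_11 : pfC (piC [(nat_lit 38632330), (nat_lit 25257288), (nat_lit 18773175), (nat_lit 12658484)] (nat_lit 10412874)) p15_22_1 (nat_lit 4) (nat_lit 11) (nat_lit 12) = true := by decide +kernel
def p15_22_1_12 : pfC (piC [(nat_lit 38632330), (nat_lit 25257288), (nat_lit 18773175), (nat_lit 12658484)] (nat_lit 10412874)) p15_22_1 (nat_lit 4) (nat_lit 12) (nat_lit 13) = true := by decide +kernel
def p15_22_1_13 : pfC (piC [(nat_lit 38632330), (nat_lit 25257288), (nat_lit 18773175), (nat_lit 12658484)] (nat_lit 10412874)) p15_22_1 (nat_lit 4) (nat_lit 13) (nat_lit 14) = true := by decide +kernel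
def p15_22_1_14 : pfC (piC [(nat_lit 38632330), (nat_lit 25257288), (nat_lit 18773175), (nat_lit 12658484)] (nat_lit 10412874)) p15_22_1 (nat_lit 4) (nat_lit 14) (nat_lit 15) = true := by decide +kernel
def p15_22_1_15 : pfC (piC [(nat_lit 38632330), (nat_lit 25257288), (nat_lit 18773175), (nat_lit 12658484)] (nat_lit 10412874)) p15_22_1 (nat_lit 4) (nat_lit 15) (nat_lit 16) = true := by decide +kernel
def p15_22_1_16 : pfC (piC [(nat_lit 38632330), (nat_lit 25257288), (nat_lit 18773175), (nat_lit 12658484)] (nat_lit 10412874)) p15_22_1 (nat_lit 4) (nat_lit 16) (nat_lit 17) = true := by decide +kernel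
def p15_22_1_17 : pfC (piC [(nat_lit 38632330), (nat_lit 25257288), (nat_lit 18773175), (nat_lit 12658484)] (nat_lit 10412874)) p15_22_1 (nat_lit 4) (nat_lit 17) (nat_lit 18) = true := by decide +kernel
def p15_22_1_18 : pfC (piC [(nat_lit 38632330), (nat_lit 25257288), (nat_lit 18773175), (nat_lit 12658484)] (nat_lit 10412874)) p15_22_1 (nat_lit 4) (nat_lit 18) (nat_lit 19) = true := by decide +kernel
def p15_22_1_19 : pfC (piC [(nat_lit 38632330), (nat_lit 25257288), (nat_lit 18773175), (nat_lit 12658484)] (nat_lit 10412874)) p15_22_1 (nat_lit 4) (nat_lit 19) (nat_lit 20) = true := by decide +kernel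
def p15_22_1_20 : pfC (piC [(nat_lit 38632330), (nat_lit 25257288), (nat_lit 18773175), (nat_lit 12658484)] (nat_lit 10412874)) p15_22_1 (nat_lit 4) (nat_lit 20) (nat_lit 21) = true := by decide +kernel
def p15_22_1_21 : pfC (piC [(nat_lit 38632330), (nat_lit 25257288), (nat_lit 18773175), (nat_lit 12658484)] (nat_lit 10412874)) p15_22_1 (nat_lit 4) (nat_lit 21) (nat_lit 22) = true := by decide +kernel
def p15_22_1_22 : pfC (piC [(nat_lit 38632330), (nat_lit 25257288), (nat_lit 18773175), (nat_lit 12658484)] (nat_lit 10412874)) p15_22_1 (nat_lit 4) (nat_lit 22) (nat_lit 23) = true := by decide +kernel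
def p15_22_1_23 : pfC (piC [(nat_lit 38632330), (nat_lit 25257288), (nat_lit 18773175), (nat_lit 12658484)] (nat_lit 10412874)) p15_22_1 (nat_lit 4) (nat_lit 23) (nat_lit 24) = true := by decide +kernel
def p15_22_1_24 : pfC (piC [(nat_lit 38632330), (nat_lit 25257288), (nat_lit 18773175), (nat_lit 12658484)] (nat_lit 10412874)) p15_22_1 (nat_lit 4) (nat_lit 24) (nat_lit 25) = true := by decide +kernel
def p15_22_1_25 : pfC (piC [(nat_lit 38632330), (nat_lit 25257288), (nat_lit 18773175), (nat_lit 12658484)] (nat_lit 10412874)) p15_22_1 (nat_lit 4) (nat_lit 25) (nat_lit 26) = true := by decide +kernel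
def p15_22_1_26 : pfC (piC [(nat_lit 38632330), (nat_lit 25257288), (nat_lit 18773175), (nat_lit 12658484)] (nat_lit 10412874)) p15_22_1 (nat_lit 4) (nat_lit 26) (nat_lit 27) = true := by decide +kernel
def p15_22_1_27 : pfC (piC [(nat_lit 38632330), (nat_lit 25257288), (nat_lit 18773175), (nat_lit 12658484)] (nat_lit 10412874)) p15_22_1 (nat_lit 4) (nat_lit 27) (nat_lit 28) = true := by decide +kernel
def p15_22_1_28 : pfC (piC [(nat_lit 38632330), (nat_lit 25257288), (nat_lit 18773175), (nat_lit 12658484)] (nat_lit 10412874)) p15_22_1 (nat_lit 4) (nat_lit 28) (nat_lit 29) = true := by decide +kernel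
def p15_22_1_29 : pfC (piC [(nat_lit 38632330), (nat_lit 25257288), (nat_lit 18773175), (nat_lit 12658484)] (nat_lit 10412874)) p15_22_1 (nat_lit 4) (nat_lit 29) (nat_lit 30) = true := by decide +kernel
def p15_22_1_30 : pfC (piC [(nat_lit 38632330), (nat_lit 25257288), (nat_lit 18773175), (nat_lit 12658484)] (nat_lit 10412874)) p15_22_1 (nat_lit 4) (nat_lit 30) (nat_lit 31) = true := by decide +kernel
def p15_22_1_31 : pfC (piC [(nat_lit 38632330), (nat_lit 25257288), (nat_lit 18773175), (nat_lit 12658484)] (nat_lit 10412874)) p15_22_1 (nat_lit 4) (nat_lit 31) (nat_lit 32) = true := by decide +kernel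
def p15_22_1_32 : pfC (piC [(nat_lit 38632330), (nat_lit 25257288), (nat_lit 18773175), (nat_lit 12658484)] (nat_lit 10412874)) p15_22_1 (nat_lit 4) (nat_lit 32) (nat_lit 33) = true := by decide +kernel
def p15_22_1_33 : pfC (piC [(nat_lit 38632330), (nat_lit 25257288), (nat_lit 18773175), (nat_lit 12658484)] (nat_lit 10412874)) p15_22_1 (nat_lit 4) (nat_lit 33) (nat_lit 34) = true := by decide +kernel
def p15_22_1_34 : pfC (piC [(nat_lit 38632330), (nat_lit 25257288), (nat_lit 18773175), (nat_lit 12658484)] (nat_lit 10412874)) p15_22_1 (nat_lit 4) (nat_lit 34) (nat_lit 35) = true := by decide +kernel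
def p15_22_1_35 : pfC (piC [(nat_lit 38632330), (nat_lit 25257288), (nat_lit 18773175), (nat_lit 12658484)] (nat_lit 10412874)) p15_22_1 (nat_lit 4) (nat_lit 35) (nat_lit 36) = true := by decide +kernel
def p15_22_1_36 : pfC (piC [(nat_lit 38632330), (nat_lit 25257288), (nat_lit 18773175), (nat_lit 12658484)] (nat_lit 10412874)) p15_22_1 (nat_lit 4) (nat_lit 36) (nat_lit 37) = true := by decide +kernel
def p15_22_1_37 : pfC (piC [(nat_lit 38632330), (nat_lit 25257288), (nat_lit 18773175), (nat_lit 12658484)] (nat_lit 10412874)) p15_22_1 (nat_lit 4) (nat_lit 37) (nat_lit 38) = true := by decide +kernel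
def p15_22_1_38 : pfC (piC [(nat_lit 38632330), (nat_lit 25257288), (nat_lit 18773175), (nat_lit 12658484)] (nat_lit 10412874)) p15_22_1 (nat_lit 4) (nat_lit 38) (nat_lit 39) = true := by decide +kernel
def p15_22_1_39 : pfC (piC [(nat_lit 38632330), (nat_lit 25257288), (nat_lit 18773175), (nat_lit 12658484)] (nat_lit 10412874)) p15_22_1 (nat_lit 4) (nat_lit 39) (nat_lit 40) = true := by decide +kernel
def p15_22_1_40 : pfC (piC [(nat_lit 38632330), (nat_lit 25257288), (nat_lit 18773175), (nat_lit 12658484)] (nat_lit 10412874)) p15_22_1 (nat_lit 4) (nat_lit 40) (nat_lit 41) = true := by decide +kernel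
def p15_22_1_41 : pfC (piC [(nat_lit 38632330), (nat_lit 25257288), (nat_lit 18773175), (nat_lit 12658484)] (nat_lit 10412874)) p15_22_1 (nat_lit 4) (nat_lit 41) (nat_lit 42) = true := by decide +kernel
def p15_22_1_42 : pfC (piC [(nat_lit 38632330), (nat_lit 25257288), (nat_lit 18773175), (nat_lit 12658484)] (nat_lit 10412874)) p15_22_1 (nat_lit 4) (nat_lit 42) (nat_lit 43) = true := by decide +kernel
def p15_22_1_43 : pfC (piC [(nat_lit 38632330), (nat_lit 25257288), (nat_lit 18773175), (nat_lit 12658484)] (nat_lit 10412874)) p15_22_1 (nat_lit 4) (nat_lit 43) (nat_lit 44) = true := by decide +kernel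
def p15_22_1_44 : pfC (piC [(nat_lit 38632330), (nat_lit 25257288), (nat_lit 18773175), (nat_lit 12658484)] (nat_lit 10412874)) p15_22_1 (nat_lit 4) (nat_lit 44) (nat_lit 45) = true := by decide +kernel
def p15_22_1_45 : pfC (piC [(nat_lit 38632330), (nat_lit 25257288), (nat_lit 18773175), (nat_lit 12658484)] (nat_lit 10412874)) p15_22_1 (nat_lit 4) (nat_lit 45) (nat_lit 46) = true := by decide +kernel
def p15_22_1_46 : pfC (piC [(nat_lit 38632330), (nat_lit 25257288), (nat_lit 18773175), (nat_lit 12658484)] (nat_lit 10412874)) p15_22_1 (nat_lit 4) (nat_lit 46) (nat_lit 47) = true := by decide +kernel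
def p15_22_1_47 : pfC (piC [(nat_lit 38632330), (nat_lit 25257288), (nat_lit 18773175), (nat_lit 12658484)] (nat_lit 10412874)) p15_22_1 (nat_lit 4) (nat_lit 47) (nat_lit 48) = true := by decide +kernel
def p15_22_1_48 : pfC (piC [(nat_lit 38632330), (nat_lit 25257288), (nat_lit 18773175), (nat_lit 12658484)] (nat_lit 10412874)) p15_22_1 (nat_lit 4) (nat_lit 48) (nat_lit 49) = true := by decide +kernel
def p15_22_1_49 : pfC (piC [(nat_lit 38632330), (nat_lit 25257288), (nat_lit 18773175), (nat_lit 12658484)] (nat_lit 10412874)) p15_22_1 (nat_lit 4) (nat_lit 49) (nat_lit 50) = true := by decide +kernel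
def p15_22_1_50 : pfC (piC [(nat_lit 38632330), (nat_lit 25257288), (nat_lit 18773175), (nat_lit 12658484)] (nat_lit 10412874)) p15_22_1 (nat_lit 4) (nat_lit 50) (nat_lit 51) = true := by decide +kernel
def p15_22_1_51 : pfC (piC [(nat_lit 38632330), (nat_lit 25257288), (nat_lit 18773175), (nat_lit 12658484)] (nat_lit 10412874)) p15_22_1 (nat_lit 4) (nat_lit 51) (nat_lit 52) = true := by decide +kernel
def p15_22_1_52 : pfC (piC [(nat_lit 38632330), (nat_lit 25257288), (nat_lit 18773175), (nat_lit 12658484)] (nat_lit 10412874)) p15_22_1 (nat_lit 4) (nat_lit 52) (nat_lit 53) = true := by decide +kernel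
def p15_22_1_53 : pfC (piC [(nat_lit 38632330), (nat_lit 25257288), (nat_lit 18773175), (nat_lit 12658484)] (nat_lit 10412874)) p15_22_1 (nat_lit 4) (nat_lit 53) (nat_lit 54) = true := by decide +kernel
def p15_22_1_54 : pfC (piC [(nat_lit 38632330), (nat_lit 25257288), (nat_lit 18773175), (nat_lit 12658484)] (nat_lit 10412874)) p15_22_1 (nat_lit 4) (nat_lit 54) (nat_lit 55) = true := by decide +kernel
def p15_22_1_55 : pfC (piC [(nat_lit 38632330), (nat_lit 25257288), (nat_lit 18773175), (nat_lit 12658484)] (nat_lit 10412874)) p15_22_1 (nat_lit 4) (nat_lit 55) (nat_lit 56) = true := by decide +kernel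
def p15_22_1_56 : pfC (piC [(nat_lit 38632330), (nat_lit 25257288), (nat_lit 18773175), (nat_lit 12658484)] (nat_lit 10412874)) p15_22_1 (nat_lit 4) (nat_lit 56) (nat_lit 57) = true := by decide +kernel
def p15_22_1_57 : pfC (piC [(nat_lit 38632330), (nat_lit 25257288), (nat_lit 18773175), (nat_lit 12658484)] (nat_lit 10412874)) p15_22_1 (nat_lit 4) (nat_lit 57) (nat_lit 58) = true := by decide +kernel
def p15_22_1_58 : pfC (piC [(nat_lit 38632330), (nat_lit 25257288), (nat_lit 18773175), (nat_lit 12658484)] (nat_lit 10412874)) p15_22_1 (nat_lit 4) (nat_lit 58) (nat_lit 59) = true := by decide +kernel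
def p15_22_1_59 : pfC (piC [(nat_lit 38632330), (nat_lit 25257288), (nat_lit 18773175), (nat_lit 12658484)] (nat_lit 10412874)) p15_22_1 (nat_lit 4) (nat_lit 59) (nat_lit 60) = true := by decide +kernel
def p15_22_1_60 : pfC (piC [(nat_lit 38632330), (nat_lit 25257288), (nat_lit 18773175), (nat_lit 12658484)] (nat_lit 10412874)) p15_22_1 (nat_lit 4) (nat_lit 60) (nat_lit 61) = true := by decide +kernel
def p15_22_1_61 : pfC (piC [(nat_lit 38632330), (nat_lit 25257288), (nat_lit 18773175), (nat_lit 12658484)] (nat_lit 10412874)) p15_22_1 (nat_lit 4) (nat_lit 61) (nat_lit 62) = true := by decide +kernel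
def p15_22_1_62 : pfC (piC [(nat_lit 38632330), (nat_lit 25257288), (nat_lit 18773175), (nat_lit 12658484)] (nat_lit 10412874)) p15_22_1 (nat_lit 4) (nat_lit 62) (nat_lit 63) = true := by decide +kernel
def p15_22_1_63 : pfC (piC [(nat_lit 38632330), (nat_lit 25257288), (nat_lit 18773175), (nat_lit 12658484)] (nat_lit 10412874)) p15_22_1 (nat_lit 4) (nat_lit 63) (nat_lit 64) = true := by decide +kernel
def p15_22_1_64 : pfC (piC [(nat_lit 38632330), (nat_lit 25257288), (nat_lit 18773175), (nat_lit 12658484)] (nat_lit 10412874)) p15_22_1 (nat_lit 4) (nat_lit 64) (nat_lit 65) = true := by decide +kernel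
def p15_22_1_65 : pfC (piC [(nat_lit 38632330), (nat_lit 25257288), (nat_lit 18773175), (nat_lit 12658484)] (nat_lit 10412874)) p15_22_1 (nat_lit 4) (nat_lit 65) (nat_lit 66) = true := by decide +kernel
def p15_22_1_66 : pfC (piC [(nat_lit 38632330), (nat_lit 25257288), (nat_lit 18773175), (nat_lit 12658484)] (nat_lit 10412874)) p15_22_1 (nat_lit 4) (nat_lit 66) (nat_lit 67) = true := by decide +kernel
def p15_22_1_67 : pfC (piC [(nat_lit 38632330), (nat_lit 25257288), (nat_lit 18773175), (nat_lit 12658484)] (nat_lit 10412874)) p15_22_1 (nat_lit 4) (nat_lit 67) (nat_lit 68) = true := by decide +kernel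
def p15_22_1_68 : pfC (piC [(nat_lit 38632330), (nat_lit 25257288), (nat_lit 18773175), (nat_lit 12658484)] (nat_lit 10412874)) p15_22_1 (nat_lit 4) (nat_lit 68) (nat_lit 69) = true := by decide +kernel
def p15_22_1_69 : pfC (piC [(nat_lit 38632330), (nat_lit 25257288), (nat_lit 18773175), (nat_lit 12658484)] (nat_lit 10412874)) p15_22_1 (nat_lit 4) (nat_lit 69) (nat_lit 70) = true := by decide +kernel
def p15_22_1_70 : pfC (piC [(nat_lit 38632330), (nat_lit 25257288), (nat_lit 18773175), (nat_lit 12658484)] (nat_lit 10412874)) p15_22_1 (nat_lit 4) (nat_lit 70) (nat_lit 71) = true := by decide +kernel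
def p15_22_1_71 : pfC (piC [(nat_lit 38632330), (nat_lit 25257288), (nat_lit 18773175), (nat_lit 12658484)] (nat_lit 10412874)) p15_22_1 (nat_lit 4) (nat_lit 71) (nat_lit 72) = true := by decide +kernel
def p15_22_1_72 : pfC (piC [(nat_lit 38632330), (nat_lit 25257288), (nat_lit 18773175), (nat_lit 12658484)] (nat_lit 10412874)) p15_22_1 (nat_lit 4) (nat_lit 72) (nat_lit 73) = true := by decide +kernel
def p15_22_1_73 : pfC (piC [(nat_lit 38632330), (nat_lit 25257288), (nat_lit 18773175), (nat_lit 12658484)] (nat_lit 10412874)) p15_22_1 (nat_lit 4) (nat_lit 73) (nat_lit 74) = true := by decide +kernel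
def p15_22_1_74 : pfC (piC [(nat_lit 38632330), (nat_lit 25257288), (nat_lit 18773175), (nat_lit 12658484)] (nat_lit 10412874)) p15_22_1 (nat_lit 4) (nat_lit 74) (nat_lit 75) = true := by decide +kernel
def p15_22_1_75 : pfC (piC [(nat_lit 38632330), (nat_lit 25257288), (nat_lit 18773175), (nat_lit 12658484)] (nat_lit 10412874)) p15_22_1 (nat_lit 4) (nat_lit 75) (nat_lit 76) = true := by decide +kernel
def p15_22_1_76 : pfC (piC [(nat_lit 38632330), (nat_lit 25257288), (nat_lit 18773175), (nat_lit 12658484)] (nat_lit 10412874)) p15_22_1 (nat_lit 4) (nat_lit 76) (nat_lit 77) = true := by decide +kernel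
def p15_22_1_77 : pfC (piC [(nat_lit 38632330), (nat_lit 25257288), (nat_lit 18773175), (nat_lit 12658484)] (nat_lit 10412874)) p15_22_1 (nat_lit 4) (nat_lit 77) (nat_lit 78) = true := by decide +kernel
def p15_22_1_78 : pfC (piC [(nat_lit 38632330), (nat_lit 25257288), (nat_lit 18773175), (nat_lit 12658484)] (nat_lit 10412874)) p15_22_1 (nat_lit 4) (nat_lit 78) (nat_lit 79) = true := by decide +kernel
def p15_22_1_79 : pfC (piC [(nat_lit 38632330), (nat_lit 25257288), (nat_lit 18773175), (nat_lit 12658484)] (nat_lit 10412874)) p15_22_1 (nat_lit 4) (nat_lit 79) (nat_lit 80) = true := by decide +kernel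
def p15_22_1_80 : pfC (piC [(nat_lit 38632330), (nat_lit 25257288), (nat_lit 18773175), (nat_lit 12658484)] (nat_lit 10412874)) p15_22_1 (nat_lit 4) (nat_lit 80) (nat_lit 81) = true := by decide +kernel
def p15_22_1_81 : pfC (piC [(nat_lit 38632330), (nat_lit 25257288), (nat_lit 18773175), (nat_lit 12658484)] (nat_lit 10412874)) p15_22_1 (nat_lit 4) (nat_lit 81) (nat_lit 82) = true := by decide +kernel
def p15_22_1_82 : pfC (piC [(nat_lit 38632330), (nat_lit 25257288), (nat_lit 18773175), (nat_lit 12658484)] (nat_lit 10412874)) p15_22_1 (nat_lit 4) (nat_lit 82) (nat_lit 83) = true := by decide +kernel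
def p15_22_1_83 : pfC (piC [(nat_lit 38632330), (nat_lit 25257288), (nat_lit 18773175), (nat_lit 12658484)] (nat_lit 10412874)) p15_22_1 (nat_lit 4) (nat_lit 83) (nat_lit 84) = true := by decide +kernel
def p15_22_1_84 : pfC (piC [(nat_lit 38632330), (nat_lit 25257288), (nat_lit 18773175), (nat_lit 12658484)] (nat_lit 10412874)) p15_22_1 (nat_lit 4) (nat_lit 84) (nat_lit 85) = true := by decide +kernel
def p15_22_1_85 : pfC (piC [(nat_lit 38632330), (nat_lit 25257288), (nat_lit 18773175), (nat_lit 12658484)] (nat_lit 10412874)) p15_22_1 (nat_lit 4) (nat_lit 85) (nat_lit 86) = true := by decide +kernel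
def p15_22_1_86 : pfC (piC [(nat_lit 38632330), (nat_lit 25257288), (nat_lit 18773175), (nat_lit 12658484)] (nat_lit 10412874)) p15_22_1 (nat_lit 4) (nat_lit 86) (nat_lit 87) = true := by decide +kernel
def p15_22_1_87 : pfC (piC [(nat_lit 38632330), (nat_lit 25257288), (nat_lit 18773175), (nat_lit 12658484)] (nat_lit 10412874)) p15_22_1 (nat_lit 4) (nat_lit 87) (nat_lit 88) = true := by decide +kernel
def p15_22_1_88 : pfC (piC [(nat_lit 38632330), (nat_lit 25257288), (nat_lit 18773175), (nat_lit 12658484)] (nat_lit 10412874)) p15_22_1 (nat_lit 4) (nat_lit 88) (nat_lit 89) = true := by decide +kernel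
def p15_22_1_89 : pfC (piC [(nat_lit 38632330), (nat_lit 25257288), (nat_lit 18773175), (nat_lit 12658484)] (nat_lit 10412874)) p15_22_1 (nat_lit 4) (nat_lit 89) (nat_lit 90) = true := by decide +kernel
def p15_22_1_90 : pfC (piC [(nat_lit 38632330), (nat_lit 25257288), (nat_lit 18773175), (nat_lit 12658484)] (nat_lit 10412874)) p15_22_1 (nat_lit 4) (nat_lit 90) (nat_lit 91) = true := by decide +kernel
def p15_22_1_91 : pfC (piC [(nat_lit 38632330), (nat_lit 25257288), (nat_lit 18773175), (nat_lit 12658484)] (nat_lit 10412874)) p15_22_1 (nat_lit 4) (nat_lit 91) (nat_lit 92) = true := by decide +kernel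
def p15_22_1_92 : pfC (piC [(nat_lit 38632330), (nat_lit 25257288), (nat_lit 18773175), (nat_lit 12658484)] (nat_lit 10412874)) p15_22_1 (nat_lit 4) (nat_lit 92) (nat_lit 93) = true := by decide +kernel
def p15_22_1_93 : pfC (piC [(nat_lit 38632330), (nat_lit 25257288), (nat_lit 18773175), (nat_lit 12658484)] (nat_lit 10412874)) p15_22_1 (nat_lit 4) (nat_lit 93) (nat_lit 94) = true := by decide +kernel
def p15_22_1_94 : pfC (piC [(nat_lit 38632330), (nat_lit 25257288), (nat_lit 18773175), (nat_lit 12658484)] (nat_lit 10412874)) p15_22_1 (nat_lit 4) (nat_lit 94) (nat_lit 95) = true := by decide +kernel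
def p15_22_1_95 : pfC (piC [(nat_lit 38632330), (nat_lit 25257288), (nat_lit 18773175), (nat_lit 12658484)] (nat_lit 10412874)) p15_22_1 (nat_lit 4) (nat_lit 95) (nat_lit 96) = true := by decide +kernel
def p15_22_1_96 : pfC (piC [(nat_lit 38632330), (nat_lit 25257288), (nat_lit 18773175), (nat_lit 12658484)] (nat_lit 10412874)) p15_22_1 (nat_lit 4) (nat_lit 96) (nat_lit 97) = true := by decide +kernel
def p15_22_1_97 : pfC (piC [(nat_lit 38632330), (nat_lit 25257288), (nat_lit 18773175), (nat_lit 12658484)] (nat_lit 10412874)) p15_22_1 (nat_lit 4) (nat_lit 97) (nat_lit 98) = true := by decide +kernel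
def p15_22_1_98 : pfC (piC [(nat_lit 38632330), (nat_lit 25257288), (nat_lit 18773175), (nat_lit 12658484)] (nat_lit 10412874)) p15_22_1 (nat_lit 4) (nat_lit 98) (nat_lit 99) = true := by decide +kernel
def p15_22_1_99 : pfC (piC [(nat_lit 38632330), (nat_lit 25257288), (nat_lit 18773175), (nat_lit 12658484)] (nat_lit 10412874)) p15_22_1 (nat_lit 4) (nat_lit 99) (nat_lit 100) = true := by decide +kernel
def p15_22_1_100 : pfC (piC [(nat_lit 38632330), (nat_lit 25257288), (nat_lit 18773175), (nat_lit 12658484)] (nat_lit 10412874)) p15_22_1 (nat_lit 4) (nat_lit 100) (nat_lit 101) = true := by decide +kernel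
def p15_22_1_101 : pfC (piC [(nat_lit 38632330), (nat_lit 25257288), (nat_lit 18773175), (nat_lit 12658484)] (nat_lit 10412874)) p15_22_1 (nat_lit 4) (nat_lit 101) (nat_lit 102) = true := by decide +kernel
def p15_22_1_102 : pfC (piC [(nat_lit 38632330), (nat_lit 25257288), (nat_lit 18773175), (nat_lit 12658484)] (nat_lit 10412874)) p15_22_1 (nat_lit 4) (nat_lit 102) (nat_lit 103) = true := by decide +kernel
def p15_22_1_103 : pfC (piC [(nat_lit 38632330), (nat_lit 25257288), (nat_lit 18773175), (nat_lit 12658484)] (nat_lit 10412874)) p15_22_1 (nat_lit 4) (nat_lit 103) (nat_lit 104) = true := by decide +kernel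
def p15_22_1_104 : pfC (piC [(nat_lit 38632330), (nat_lit 25257288), (nat_lit 18773175), (nat_lit 12658484)] (nat_lit 10412874)) p15_22_1 (nat_lit 4) (nat_lit 104) (nat_lit 105) = true := by decide +kernel
def p15_22_1_105 : pfC (piC [(nat_lit 38632330), (nat_lit 25257288), (nat_lit 18773175), (nat_lit 12658484)] (nat_lit 10412874)) p15_22_1 (nat_lit 4) (nat_lit 105) (nat_lit 106) = true := by decide +kernel
def p15_22_1_106 : pfC (piC [(nat_lit 38632330), (nat_lit 25257288), (nat_lit 18773175), (nat_lit 12658484)] (nat_lit 10412874)) p15_22_1 (nat_lit 4) (nat_lit 106) (nat_lit 107) = true := by decide +kernel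
def p15_22_1_107 : pfC (piC [(nat_lit 38632330), (nat_lit 25257288), (nat_lit 18773175), (nat_lit 12658484)] (nat_lit 10412874)) p15_22_1 (nat_lit 4) (nat_lit 107) (nat_lit 108) = true := by decide +kernel
def p15_22_1_108 : pfC (piC [(nat_lit 38632330), (nat_lit 25257288), (nat_lit 18773175), (nat_lit 12658484)] (nat_lit 10412874)) p15_22_1 (nat_lit 4) (nat_lit 108) (nat_lit 109) = true := by decide +kernel
def p15_22_1_109 : pfC (piC [(nat_lit 38632330), (nat_lit 25257288), (nat_lit 18773175), (nat_lit 12658484)] (nat_lit 10412874)) p15_22_1 (nat_lit 4) (nat_lit 109) (nat_lit 110) = true := by decide +kernel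
def p15_22_1_110 : pfC (piC [(nat_lit 38632330), (nat_lit 25257288), (nat_lit 18773175), (nat_lit 12658484)] (nat_lit 10412874)) p15_22_1 (nat_lit 4) (nat_lit 110) (nat_lit 111) = true := by decide +kernel
def p15_22_1_111 : pfC (piC [(nat_lit 38632330), (nat_lit 25257288), (nat_lit 18773175), (nat_lit 12658484)] (nat_lit 10412874)) p15_22_1 (nat_lit 4) (nat_lit 111) (nat_lit 112) = true := by decide +kernel
def p15_22_1_112 : pfC (piC [(nat_lit 38632330), (nat_lit 25257288), (nat_lit 18773175), (nat_lit 12658484)] (nat_lit 10412874)) p15_22_1 (nat_lit 4) (nat_lit 112) (nat_lit 113) = true := by decide +kernel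
def p15_22_1_113 : pfC (piC [(nat_lit 38632330), (nat_lit 25257288), (nat_lit 18773175), (nat_lit 12658484)] (nat_lit 10412874)) p15_22_1 (nat_lit 4) (nat_lit 113) (nat_lit 114) = true := by decide +kernel
def p15_22_1_114 : pfC (piC [(nat_lit 38632330), (nat_lit 25257288), (nat_lit 18773175), (nat_lit 12658484)] (nat_lit 10412874)) p15_22_1 (nat_lit 4) (nat_lit 114) (nat_lit 115) = true := by decide +kernel
def p15_22_1_115 : pfC (piC [(nat_lit 38632330), (nat_lit 25257288), (nat_lit 18773175), (nat_lit 12658484)] (nat_lit 10412874)) p15_22_1 (nat_lit 4) (nat_lit 115) (nat_lit 116) = true := by decide +kernel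
def p15_22_1_116 : pfC (piC [(nat_lit 38632330), (nat_lit 25257288), (nat_lit 18773175), (nat_lit 12658484)] (nat_lit 10412874)) p15_22_1 (nat_lit 4) (nat_lit 116) (nat_lit 117) = true := by decide +kernel
def p15_22_1_117 : pfC (piC [(nat_lit 38632330), (nat_lit 25257288), (nat_lit 18773175), (nat_lit 12658484)] (nat_lit 10412874)) p15_22_1 (nat_lit 4) (nat_lit 117) (nat_lit 118) = true := by decide +kernel
def p15_22_1_118 : pfC (piC [(nat_lit 38632330), (nat_lit 25257288), (nat_lit 18773175), (nat_lit 12658484)] (nat_lit 10412874)) p15_22_1 (nat_lit 4) (nat_lit 118) (nat_lit 119) = true := by decide +kernel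
def p15_22_1_119 : pfC (piC [(nat_lit 38632330), (nat_lit 25257288), (nat_lit 18773175), (nat_lit 12658484)] (nat_lit 10412874)) p15_22_1 (nat_lit 4) (nat_lit 119) (nat_lit 120) = true := by decide +kernel
def p15_22_1_120 : pfC (piC [(nat_lit 38632330), (nat_lit 25257288), (nat_lit 18773175), (nat_lit 12658484)] (nat_lit 10412874)) p15_22_1 (nat_lit 4) (nat_lit 120) (nat_lit 121) = true := by decide +kernel
def p15_22_1_121 : pfC (piC [(nat_lit 38632330), (nat_lit 25257288), (nat_lit 18773175), (nat_lit 12658484)] (nat_lit 10412874)) p15_22_1 (nat_lit 4) (nat_lit 121) (nat_lit 122) = true := by decide +kernel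
def p15_22_1_122 : pfC (piC [(nat_lit 38632330), (nat_lit 25257288), (nat_lit 18773175), (nat_lit 12658484)] (nat_lit 10412874)) p15_22_1 (nat_lit 4) (nat_lit 122) (nat_lit 123) = true := by decide +kernel
def p15_22_1_123 : pfC (piC [(nat_lit 38632330), (nat_lit 25257288), (nat_lit 18773175), (nat_lit 12658484)] (nat_lit 10412874)) p15_22_1 (nat_lit 4) (nat_lit 123) (nat_lit 124) = true := by decide +kernel
def p15_22_1_124 : pfC (piC [(nat_lit 38632330), (nat_lit 25257288), (nat_lit 18773175), (nat_lit 12658484)] (nat_lit 10412874)) p15_22_1 (nat_lit 4) (nat_lit 124) (nat_lit 125) = true := by decide +kernel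
def p15_22_1_125 : pfC (piC [(nat_lit 38632330), (nat_lit 25257288), (nat_lit 18773175), (nat_lit 12658484)] (nat_lit 10412874)) p15_22_1 (nat_lit 4) (nat_lit 125) (nat_lit 126) = true := by decide +kernel
def p15_22_1_126 : pfC (piC [(nat_lit 38632330), (nat_lit 25257288), (nat_lit 18773175), (nat_lit 12658484)] (nat_lit 10412874)) p15_22_1 (nat_lit 4) (nat_lit 126) (nat_lit 127) = true := by decide +kernel
def p15_22_1_127 : pfC (piC [(nat_lit 38632330), (nat_lit 25257288), (nat_lit 18773175), (nat_lit 12658484)] (nat_lit 10412874)) p15_22_1 (nat_lit 4) (nat_lit 127) (nat_lit 128) = true := by decide +kernel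
def p15_22_1_128 : pfC (piC [(nat_lit 38632330), (nat_lit 25257288), (nat_lit 18773175), (nat_lit 12658484)] (nat_lit 10412874)) p15_22_1 (nat_lit 4) (nat_lit 128) (nat_lit 129) = true := by decide +kernel
def p15_22_1_129 : pfC (piC [(nat_lit 38632330), (nat_lit 25257288), (nat_lit 18773175), (nat_lit 12658484)] (nat_lit 10412874)) p15_22_1 (nat_lit 4) (nat_lit 129) (nat_lit 130) = true := by decide +kernel
def p15_22_1_130 : pfC (piC [(nat_lit 38632330), (nat_lit 25257288), (nat_lit 18773175), (nat_lit 12658484)] (nat_lit 10412874)) p15_22_1 (nat_lit 4) (nat_lit 130) (nat_lit 131) = true := by decide +kernel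
def p15_22_1_131 : pfC (piC [(nat_lit 38632330), (nat_lit 25257288), (nat_lit 18773175), (nat_lit 12658484)] (nat_lit 10412874)) p15_22_1 (nat_lit 4) (nat_lit 131) (nat_lit 132) = true := by decide +kernel
def p15_22_1_132 : pfC (piC [(nat_lit 38632330), (nat_lit 25257288), (nat_lit 18773175), (nat_lit 12658484)] (nat_lit 10412874)) p15_22_1 (nat_lit 4) (nat_lit 132) (nat_lit 133) = true := by decide +kernel
def p15_22_1_133 : pfC (piC [(nat_lit 38632330), (nat_lit 25257288), (nat_lit 18773175), (nat_lit 12658484)] (nat_lit 10412874)) p15_22_1 (nat_lit 4) (nat_lit 133) (nat_lit 134) = true := by decide +kernel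
def p15_22_1_134 : pfC (piC [(nat_lit 38632330), (nat_lit 25257288), (nat_lit 18773175), (nat_lit 12658484)] (nat_lit 10412874)) p15_22_1 (nat_lit 4) (nat_lit 134) (nat_lit 135) = true := by decide +kernel
def p15_22_1_135 : pfC (piC [(nat_lit 38632330), (nat_lit 25257288), (nat_lit 18773175), (nat_lit 12658484)] (nat_lit 10412874)) p15_22_1 (nat_lit 4) (nat_lit 135) (nat_lit 136) = true := by decide +kernel
def p15_22_1_136 : pfC (piC [(nat_lit 38632330), (nat_lit 25257288), (nat_lit 18773175), (nat_lit 12658484)] (nat_lit 10412874)) p15_22_1 (nat_lit 4) (nat_lit 136) (nat_lit 137) = true := by decide +kernel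
def p15_22_1_137 : pfC (piC [(nat_lit 38632330), (nat_lit 25257288), (nat_lit 18773175), (nat_lit 12658484)] (nat_lit 10412874)) p15_22_1 (nat_lit 4) (nat_lit 137) (nat_lit 138) = true := by decide +kernel
def p15_22_1_138 : pfC (piC [(nat_lit 38632330), (nat_lit 25257288), (nat_lit 18773175), (nat_lit 12658484)] (nat_lit 10412874)) p15_22_1 (nat_lit 4) (nat_lit 138) (nat_lit 139) = true := by decide +kernel
def p15_22_1_139 : pfC (piC [(nat_lit 38632330), (nat_lit 25257288), (nat_lit 18773175), (nat_lit 12658484)] (nat_lit 10412874)) p15_22_1 (nat_lit 4) (nat_lit 139) (nat_lit 140) = true := by decide +kernel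
def p15_22_1_140 : pfC (piC [(nat_lit 38632330), (nat_lit 25257288), (nat_lit 18773175), (nat_lit 12658484)] (nat_lit 10412874)) p15_22_1 (nat_lit 4) (nat_lit 140) (nat_lit 141) = true := by decide +kernel
def p15_22_1_141 : pfC (piC [(nat_lit 38632330), (nat_lit 25257288), (nat_lit 18773175), (nat_lit 12658484)] (nat_lit 10412874)) p15_22_1 (nat_lit 4) (nat_lit 141) (nat_lit 142) = true := by decide +kernel
def p15_22_1_142 : pfC (piC [(nat_lit 38632330), (nat_lit 25257288), (nat_lit 18773175), (nat_lit 12658484)] (nat_lit 10412874)) p15_22_1 (nat_lit 4) (nat_lit 142) (nat_lit 143) = true := by decide +kernel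
def p15_22_1_143 : pfC (piC [(nat_lit 38632330), (nat_lit 25257288), (nat_lit 18773175), (nat_lit 12658484)] (nat_lit 10412874)) p15_22_1 (nat_lit 4) (nat_lit 143) (nat_lit 144) = true := by decide +kernel
def p15_22_1_144 : pfC (piC [(nat_lit 38632330), (nat_lit 25257288), (nat_lit 18773175), (nat_lit 12658484)] (nat_lit 10412874)) p15_22_1 (nat_lit 4) (nat_lit 144) (nat_lit 145) = true := by decide +kernel
def p15_22_1_145 : pfC (piC [(nat_lit 38632330), (nat_lit 25257288), (nat_lit 18773175), (nat_lit 12658484)] (nat_lit 10412874)) p15_22_1 (nat_lit 4) (nat_lit 145) (nat_lit 146) = true := by decide +kernel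
def p15_22_1_146 : pfC (piC [(nat_lit 38632330), (nat_lit 25257288), (nat_lit 18773175), (nat_lit 12658484)] (nat_lit 10412874)) p15_22_1 (nat_lit 4) (nat_lit 146) (nat_lit 147) = true := by decide +kernel
def p15_22_1_147 : pfC (piC [(nat_lit 38632330), (nat_lit 25257288), (nat_lit 18773175), (nat_lit 12658484)] (nat_lit 10412874)) p15_22_1 (nat_lit 4) (nat_lit 147) (nat_lit 148) = true := by decide +kernel
def p15_22_1_148 : pfC (piC [(nat_lit 38632330), (nat_lit 25257288), (nat_lit 18773175), (nat_lit 12658484)] (nat_lit 10412874)) p15_22_1 (nat_lit 4) (nat_lit 148) (nat_lit 149) = true := by decide +kernel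
def p15_22_1_149 : pfC (piC [(nat_lit 38632330), (nat_lit 25257288), (nat_lit 18773175), (nat_lit 12658484)] (nat_lit 10412874)) p15_22_1 (nat_lit 4) (nat_lit 149) (nat_lit 150) = true := by decide +kernel
def p15_22_1_150 : pfC (piC [(nat_lit 38632330), (nat_lit 25257288), (nat_lit 18773175), (nat_lit 12658484)] (nat_lit 10412874)) p15_22_1 (nat_lit 4) (nat_lit 150) (nat_lit 151) = true := by decide +kernel
def p15_22_1_151 : pfC (piC [(nat_lit 38632330), (nat_lit 25257288), (nat_lit 18773175), (nat_lit 12658484)] (nat_lit 10412874)) p15_22_1 (nat_lit 4) (nat_lit 151) (nat_lit 152) = true := by decide +kernel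
def p15_22_1_152 : pfC (piC [(nat_lit 38632330), (nat_lit 25257288), (nat_lit 18773175), (nat_lit 12658484)] (nat_lit 10412874)) p15_22_1 (nat_lit 4) (nat_lit 152) (nat_lit 153) = true := by decide +kernel
def p15_22_1_153 : pfC (piC [(nat_lit 38632330), (nat_lit 25257288), (nat_lit 18773175), (nat_lit 12658484)] (nat_lit 10412874)) p15_22_1 (nat_lit 4) (nat_lit 153) (nat_lit 154) = true := by decide +kernel
def p15_22_1_154 : pfC (piC [(nat_lit 38632330), (nat_lit 25257288), (nat_lit 18773175), (nat_lit 12658484)] (nat_lit 10412874)) p15_22_1 (nat_lit 4) (nat_lit 154) (nat_lit 155) = true := by decide +kernel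
def p15_22_1_155 : pfC (piC [(nat_lit 38632330), (nat_lit 25257288), (nat_lit 18773175), (nat_lit 12658484)] (nat_lit 10412874)) p15_22_1 (nat_lit 4) (nat_lit 155) (nat_lit 156) = true := by decide +kernel
def p15_22_1_156 : pfC (piC [(nat_lit 38632330), (nat_lit 25257288), (nat_lit 18773175), (nat_lit 12658484)] (nat_lit 10412874)) p15_22_1 (nat_lit 4) (nat_lit 156) (nat_lit 157) = true := by decide +kernel
def p15_22_1_157 : pfC (piC [(nat_lit 38632330), (nat_lit 25257288), (nat_lit 18773175), (nat_lit 12658484)] (nat_lit 10412874)) p15_22_1 (nat_lit 4) (nat_lit 157) (nat_lit 158) = true := by decide +kernel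
def p15_22_1_158 : pfC (piC [(nat_lit 38632330), (nat_lit 25257288), (nat_lit 18773175), (nat_lit 12658484)] (nat_lit 10412874)) p15_22_1 (nat_lit 4) (nat_lit 158) (nat_lit 159) = true := by decide +kernel
def p15_22_1_159 : pfC (piC [(nat_lit 38632330), (nat_lit 25257288), (nat_lit 18773175), (nat_lit 12658484)] (nat_lit 10412874)) p15_22_1 (nat_lit 4) (nat_lit 159) (nat_lit 160) = true := by decide +kernel
def p15_22_1_160 : pfC (piC [(nat_lit 38632330), (nat_lit 25257288), (nat_lit 18773175), (nat_lit 12658484)] (nat_lit 10412874)) p15_22_1 (nat_lit 4) (nat_lit 160) (nat_lit 161) = true := by decide +kernel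
def p15_22_1_161 : pfC (piC [(nat_lit 38632330), (nat_lit 25257288), (nat_lit 18773175), (nat_lit 12658484)] (nat_lit 10412874)) p15_22_1 (nat_lit 4) (nat_lit 161) (nat_lit 162) = true := by decide +kernel
theorem p15_22_1_T : PfS (PiF n15_22.reverse (nat_lit 10412874)) p15_22_1 (nat_lit 4) [] 0 :=
  pftab_of (los := [(nat_lit 38632330), (nat_lit 25257288), (nat_lit 18773175), (nat_lit 12658484)]) (by decide +kernel) (hi := (nat_lit 162)) (PfP.trans (PfP.trans (PfP.trans (PfP.trans (PfP.trans (PfP.trans (PfP.trans (PfP.trans (PfP.trans (PfP.trans (PfP.trans (PfP.trans (PfP.trans (PfP.trans (PfP.trans (PfP.trans (PfP.trans (PfP.trans (PfP.trans (PfP.trans (PfP.trans (PfP.trans (PfP.trans (PfP.trans (PfP.trans (PfP.trans (PfP.trans (PfP.trans (PfP.trans (PfP.trans (PfP.trans (PfP.trans (PfP.trans (PfP.trans (PfP.trans (PfP.trans (PfP.trans (PfP.trans (PfP.trans (PfP.trans (PfP.trans (PfP.trans (PfP.trans (PfP.trans (PfP.trans (PfP.trans (PfP.trans (PfP.trans (PfP.trans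 (PfP.trans (PfP.trans (PfP.trans (PfP.trans (PfP.trans (PfP.trans (PfP.trans (PfP.trans (PfP.trans (PfP.trans (PfP.trans (PfP.trans (PfP.trans (PfP.trans (PfP.trans (PfP.trans (PfP.trans (PfP.trans (PfP.trans (PfP.trans (PfP.trans (PfP.trans (PfP.trans (PfP.trans (PfP.trans (PfP.trans (PfP.trans (PfP.trans (PfP.trans (PfP.trans (PfP.trans (PfP.trans (PfP.trans (PfP.trans (PfP.trans (PfP.trans (PfP.trans (PfP.trans (PfP.trans (PfP.trans (PfP.trans (PfP.trans (PfP.trans (PfP.trans (PfP.trans (PfP.trans (PfP.trans (PfP.trans (PfP.trans (PfP.trans (PfP.trans (PfP.trans (PfP.trans (PfP.trans (PfP.trans (PfP.trans (PfP.trans (PfP.trans (PfP.trans (PfP.trans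
 (PfP.trans (PfP.trans (PfP.trans (PfP.trans (PfP.trans (PfP.trans (PfP.trans (PfP.trans (PfP.trans (PfP.trans (PfP.trans (PfP.trans (PfP.trans (PfP.trans (PfP.trans (PfP.trans (PfP.trans (PfP.trans (PfP.trans (PfP.trans (PfP.trans (PfP.trans (PfP.trans (PfP.trans (PfP.trans (PfP.trans (PfP.trans (PfP.trans (PfP.trans (PfP.trans (PfP.trans (PfP.trans (PfP.trans (PfP.trans (PfP.trans (PfP.trans (PfP.trans (PfP.trans (PfP.trans (PfP.trans (PfP.trans (PfP.trans (PfP.trans (PfP.trans (PfP.trans (PfP.trans (PfP.trans (PfP.trans (PfP.trans (PfP.trans (PfP.trans (PfP.trans (pfC_sound p15_22_1_0) (pfC_sound p15_22_1_1)) (pfC_sound p15_22_1_2)) (pfC_sound p15_22_1_3)) (pfC_sound p15_22_1_4)) (pfC_sound p15_22_1_5)) (pfC_sound p15_22_1_6)) (pfC_sound p15_22_1_7)) (pfC_sound p15_22_1_8)) (pfC_sound p15_22_1_9)) (pfC_sound p15_22_1_10)) (pfC_sound p15_22_1_11)) (pfC_sound p15_22_1_12)) (pfC_sound p15_22_1_13)) (pfC_sound p15_22_1_14)) (pfC_sound p15_22_1_15)) (pfC_sound p15_22_1_16))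 (pfC_sound p15_22_1_17)) (pfC_sound p15_22_1_18)) (pfC_sound p15_22_1_19)) (pfC_sound p15_22_1_20)) (pfC_sound p15_22_1_21)) (pfC_sound p15_22_1_22)) (pfC_sound p15_22_1_23)) (pfC_sound p15_22_1_24)) (pfC_sound
 p15_22_1_25)) (pfC_sound p15_22_1_26)) (pfC_sound p15_22_1_27)) (pfC_sound p15_22_1_28)) (pfC_sound p15_22_1_29)) (pfC_sound p15_22_1_30)) (pfC_sound p15_22_1_31)) (pfC_sound p15_22_1_32)) (pfC_sound p15_22_1_33)) (pfC_sound p15_22_1_34)) (pfC_sound p15_22_1_35)) (pfC_sound p15_22_1_36)) (pfC_sound p15_22_1_37)) (pfC_sound p15_22_1_38)) (pfC_sound p15_22_1_39)) (pfC_sound p15_22_1_40)) (pfC_sound p15_22_1_41)) (pfC_sound p15_22_1_42)) (pfC_sound p15_22_1_43)) (pfC_sound p15_22_1_44)) (pfC_sound p15_22_1_45)) (pfC_sound p15_22_1_46)) (pfC_sound p15_22_1_47)) (pfC_sound p15_22_1_48)) (pfC_sound p15_22_1_49)) (pfC_sound p15_22_1_50)) (pfC_sound p15_22_1_51)) (pfC_sound p15_22_1_52)) (pfC_sound p15_22_1_53)) (pfC_sound p15_22_1_54)) (pfC_sound p15_22_1_55)) (pfC_sound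 p15_22_1_56)) (pfC_sound p15_22_1_57)) (pfC_sound p15_22_1_58)) (pfC_sound p15_22_1_59)) (pfC_sound p15_22_1_60)) (pfC_sound p15_22_1_61)) (pfC_sound p15_22_1_62)) (pfC_sound p15_22_1_63)) (pfC_sound p15_22_1_64)) (pfC_sound p15_22_1_65)) (pfC_sound p15_22_1_66)) (pfC_sound p15_22_1_67)) (pfC_sound p15_22_1_68)) (pfC_sound p15_22_1_69)) (pfC_sound p15_22_1_70)) (pfC_sound p15_22_1_71)) (pfC_sound p15_22_1_72)) (pfC_sound
 p15_22_1_73)) (pfC_sound p15_22_1_74)) (pfC_sound p15_22_1_75)) (pfC_sound p15_22_1_76)) (pfC_sound p15_22_1_77)) (pfC_sound p15_22_1_78)) (pfC_sound p15_22_1_79)) (pfC_sound p15_22_1_80)) (pfC_sound p15_22_1_81)) (pfC_sound p15_22_1_82)) (pfC_sound p15_22_1_83)) (pfC_sound p15_22_1_84)) (pfC_sound p15_22_1_85)) (pfC_sound p15_22_1_86)) (pfC_sound p15_22_1_87)) (pfC_sound p15_22_1_88)) (pfC_sound p15_22_1_89)) (pfC_sound p15_22_1_90)) (pfC_sound p15_22_1_91)) (pfC_sound p15_22_1_92)) (pfC_sound p15_22_1_93)) (pfC_sound p15_22_1_94)) (pfC_sound p15_22_1_95))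 (pfC_sound p15_22_1_96)) (pfC_sound p15_22_1_97)) (pfC_sound p15_22_1_98)) (pfC_sound p15_22_1_99)) (pfC_sound p15_22_1_100)) (pfC_sound p15_22_1_101)) (pfC_sound p15_22_1_102)) (pfC_sound p15_22_1_103)) (pfC_sound p15_22_1_104)) (pfC_sound p15_22_1_105)) (pfC_sound p15_22_1_106)) (pfC_sound p15_22_1_107)) (pfC_sound p15_22_1_108)) (pfC_sound p15_22_1_109)) (pfC_sound p15_22_1_110)) (pfC_sound p15_22_1_111)) (pfC_sound p15_22_1_112)) (pfC_sound p15_22_1_113)) (pfC_sound p15_22_1_114)) (pfC_sound p15_22_1_115)) (pfC_sound p15_22_1_116)) (pfC_sound p15_22_1_117)) (pfC_sound p15_22_1_118)) (pfC_sound p15_22_1_119)) (pfC_sound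
 p15_22_1_120)) (pfC_sound p15_22_1_121)) (pfC_sound p15_22_1_122)) (pfC_sound p15_22_1_123)) (pfC_sound p15_22_1_124)) (pfC_sound p15_22_1_125)) (pfC_sound p15_22_1_126)) (pfC_sound p15_22_1_127)) (pfC_sound p15_22_1_128)) (pfC_sound p15_22_1_129)) (pfC_sound p15_22_1_130)) (pfC_sound p15_22_1_131)) (pfC_sound p15_22_1_132)) (pfC_sound p15_22_1_133)) (pfC_sound p15_22_1_134)) (pfC_sound p15_22_1_135)) (pfC_sound p15_22_1_136)) (pfC_sound p15_22_1_137)) (pfC_sound p15_22_1_138)) (pfC_sound p15_22_1_139)) (pfC_sound p15_22_1_140)) (pfC_sound p15_22_1_141)) (pfC_sound p15_22_1_142)) (pfC_sound p15_22_1_143)) (pfC_sound p15_22_1_144)) (pfC_sound p15_22_1_145)) (pfC_sound p15_22_1_146)) (pfC_sound p15_22_1_147)) (pfC_sound p15_22_1_148)) (pfC_sound p15_22_1_149)) (pfC_sound p15_22_1_150)) (pfC_sound p15_22_1_151)) (pfC_sound p15_22_1_152)) (pfC_sound p15_22_1_153)) (pfC_sound p15_22_1_154)) (pfC_sound p15_22_1_155)) (pfC_sound p15_22_1_156)) (pfC_sound p15_22_1_157)) (pfC_sound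 p15_22_1_158)) (pfC_sound p15_22_1_159)) (pfC_sound p15_22_1_160)) (pfC_sound p15_22_1_161)) (by decide +kernel)

def z15_22_1 : zOK yB15_22 (nat_lit 1) (nat_lit 400) (nat_lit 600) (nat_lit 10412874) (nat_lit 6713858) = true := by decide +kernel
def g15_22_1 : gOK yB15_22.x P15_22 (nat_lit 1423) (q15_22 :: r15_22) (nat_lit 1) (nat_lit 400) (nat_lit 2) (nat_lit 600) (nat_lit 11000000) (nat_lit 17850000) (nat_lit 12712500) (nat_lit 12712500) [(nat_lit 800), (nat_lit 1040)] = true := by decide +kernel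
def v15_22_1 : ivC P15_22 s15_22 w15_22 n15_22 (nat_lit 4) (nat_lit 4990) (nat_lit 1) (nat_lit 400) f160_1_400 f168_1_400 (nat_lit 2) (nat_lit 600) f160_1_600 f168_1_600 (nat_lit 10412874) (nat_lit 6713858) p15_22_1 = true := by decide +kernel
def p15_22_2 : PF := (PF.cons (PF.cons (PF.cons (PF.cons (PF.leaf (nat_lit 2738229) (nat_lit 15907601) (nat_lit 51201211) (nat_lit 15907601) [(nat_lit 0), (nat_lit 0), (nat_lit 0), (nat_lit 0)]) (PF.cons (PF.leaf (nat_lit 2906077) (nat_lit 296460) (nat_lit 50923886) (nat_lit 15888465) [(nat_lit 296460), (nat_lit 0), (nat_lit 0), (nat_lit 0)]) (PF.cons (PF.leaf (nat_lit 3104256) (nat_lit 322007) (nat_lit 50600116) (nat_lit 15864681) [(nat_lit 322007), (nat_lit 0), (nat_lit 0), (nat_lit 0)]) (PF.cons (PF.leaf (nat_lit 3326390) (nat_lit 344541) (nat_lit 50238825) (nat_lit 15836362) [(nat_lit 344541), (nat_lit 0), (nat_lit 0), (nat_lit 0)]) (PF.cons (PF.leaf (nat_lit 3568860) (nat_lit 364725) (nat_lit 49846380) (nat_lit 15803532)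 [(nat_lit 364725), (nat_lit 0), (nat_lit 0), (nat_lit 0)]) (PF.cons (PF.leaf (nat_lit 3828911) (nat_lit 382983) (nat_lit 49427705) (nat_lit 15766191) [(nat_lit 382983), (nat_lit 0), (nat_lit 0), (nat_lit 0)]) (PF.cons (PF.leaf (nat_lit 4104301) (nat_lit 399608) (nat_lit 48986815) (nat_lit 15724347) [(nat_lit 399608), (nat_lit 0), (nat_lit 0), (nat_lit 0)]) (PF.cons (PF.leaf (nat_lit 4393135) (nat_lit 414814) (nat_lit 48527090) (nat_lit 15678023) [(nat_lit 414814), (nat_lit 0),
 (nat_lit 0), (nat_lit 0)]) (PF.cons (PF.leaf (nat_lit 4693748) (nat_lit 428761) (nat_lit 48051445) (nat_lit 15627272) [(nat_lit 428761), (nat_lit 0), (nat_lit 0), (nat_lit 0)]) (PF.cons (PF.leaf (nat_lit 5004670) (nat_lit 441579) (nat_lit 47562431) (nat_lit 15572167) [(nat_lit 441579), (nat_lit 0), (nat_lit 0), (nat_lit 0)]) (PF.cons PF.nil (PF.cons PF.nil PF.nil)))))))))))) (PF.cons (PF.cons (PF.leaf (nat_lit 3291320) (nat_lit 1313788) (nat_lit 49984138) (nat_lit 15810885) [(nat_lit 0), (nat_lit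 1313788), (nat_lit 0), (nat_lit 0)]) (PF.cons (PF.leaf (nat_lit 3506505) (nat_lit 354536) (nat_lit 49627946) (nat_lit 15779873) [(nat_lit 354536), (nat_lit 1346456), (nat_lit 0), (nat_lit 0)]) (PF.cons (PF.leaf (nat_lit 3744228) (nat_lit 373959) (nat_lit 49238758) (nat_lit 15744049) [(nat_lit 373959), (nat_lit 1378086), (nat_lit 0), (nat_lit 0)]) (PF.cons (PF.leaf (nat_lit 4000272) (nat_lit 391457) (nat_lit 48822672) (nat_lit 15703556) [(nat_lit 391457), (nat_lit 1408211), (nat_lit 0), (nat_lit 0)]) (PF.cons (PF.leaf (nat_lit 4272030) (nat_lit 407351) (nat_lit 48384295) (nat_lit 15658496) [(nat_lit 407351), (nat_lit 1436614), (nat_lit 0), (nat_lit 0)]) (PF.cons (PF.leaf (nat_lit 4557399)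
 (nat_lit 421864) (nat_lit 47927321) (nat_lit 15608959) [(nat_lit 421864), (nat_lit 1463209), (nat_lit 0), (nat_lit 0)]) (PF.cons (PF.leaf (nat_lit 4854597) (nat_lit 435160) (nat_lit 47454829) (nat_lit 15555046) [(nat_lit 435160), (nat_lit 1487976), (nat_lit 0), (nat_lit 0)]) (PF.cons (PF.leaf (nat_lit 5162108) (nat_lit 447364) (nat_lit 46969451) (nat_lit 15496868) [(nat_lit 447364), (nat_lit 1510939), (nat_lit 0), (nat_lit 0)]) (PF.cons PF.nil (PF.cons PF.nil PF.nil)))))))))) (PF.cons (PF.cons (PF.leaf (nat_lit 3922796) (nat_lit 1405854) (nat_lit 48618674) (nat_lit 15678428) [(nat_lit 0), (nat_lit 1405854), (nat_lit 0), (nat_lit 0)]) (PF.cons (PF.leaf (nat_lit 4172599) (nat_lit 398655) (nat_lit 48209218) (nat_lit 15635334) [(nat_lit 398655), (nat_lit 1432802), (nat_lit 0), (nat_lit 0)]) (PF.cons (PF.leaf (nat_lit 4439598) (nat_lit 414018) (nat_lit 47776375) (nat_lit 15587524) [(nat_lit 414018), (nat_lit 1458438), (nat_lit 0), (nat_lit 0)]) (PF.cons (PF.leaf (nat_lit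 4720688) (nat_lit 427986) (nat_lit 47324506) (nat_lit 15535188) [(nat_lit 427986), (nat_lit 1482579), (nat_lit 0), (nat_lit 0)]) (PF.cons (PF.leaf (nat_lit 5013865) (nat_lit 440744) (nat_lit 46857055) (nat_lit
 15478491) [(nat_lit 440744), (nat_lit 1505144), (nat_lit 0), (nat_lit 0)]) (PF.cons (PF.leaf (nat_lit 5317508) (nat_lit 452428) (nat_lit 46376858) (nat_lit 15417592) [(nat_lit 452428), (nat_lit 1526110), (nat_lit 0), (nat_lit 0)]) (PF.cons (PF.leaf (nat_lit 5630160) (nat_lit 463143) (nat_lit 45886315) (nat_lit 15352656) [(nat_lit 463143), (nat_lit 1545489), (nat_lit 0), (nat_lit 0)]) (PF.cons PF.nil (PF.cons PF.nil PF.nil))))))))) (PF.cons (PF.cons (PF.leaf (nat_lit 4608597) (nat_lit 1478170) (nat_lit 47162853) (nat_lit 15511448) [(nat_lit 0), (nat_lit 1478170), (nat_lit 0), (nat_lit 0)]) (PF.cons (PF.leaf (nat_lit 4883821) (nat_lit 433208) (nat_lit 46718710) (nat_lit 15456797) [(nat_lit 433208), (nat_lit 1500031), (nat_lit 0), (nat_lit 0)]) (PF.cons (PF.leaf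 (nat_lit 5172234) (nat_lit 445545) (nat_lit 46258319) (nat_lit 15397740) [(nat_lit 445545), (nat_lit 1520554), (nat_lit 0), (nat_lit 0)]) (PF.cons (PF.leaf (nat_lit 5471402) (nat_lit 456799) (nat_lit 45784904) (nat_lit 15334502) [(nat_lit 456799), (nat_lit 1539668), (nat_lit 0), (nat_lit 0)]) (PF.cons (PF.leaf (nat_lit 5779799) (nat_lit 467089) (nat_lit 45301093) (nat_lit 15267292) [(nat_lit 467089), (nat_lit 1557356),
 (nat_lit 0), (nat_lit 0)]) (PF.cons PF.nil (PF.cons PF.nil PF.nil))))))) (PF.cons (PF.cons (PF.leaf (nat_lit 5330879) (nat_lit 1534365) (nat_lit 45658476) (nat_lit 15312874) [(nat_lit 0), (nat_lit 1534365), (nat_lit 0), (nat_lit 0)]) (PF.cons (PF.leaf (nat_lit 5624441) (nat_lit 460496) (nat_lit 45193601) (nat_lit 15247719) [(nat_lit 460496), (nat_lit 1551749), (nat_lit 0), (nat_lit 0)]) (PF.cons (PF.leaf (nat_lit 5928025) (nat_lit 470436) (nat_lit 44717895) (nat_lit 15178610) [(nat_lit 470436), (nat_lit 1567858), (nat_lit 0), (nat_lit 0)]) (PF.cons (PF.leaf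 (nat_lit 6239730) (nat_lit 479502) (nat_lit 44233794) (nat_lit 15105792) [(nat_lit 479502), (nat_lit 1582679), (nat_lit 0), (nat_lit 0)]) (PF.cons PF.nil PF.nil))))) (PF.cons (PF.cons (PF.leaf (nat_lit 6075799) (nat_lit 1577099) (nat_lit 44136596) (nat_lit 15086717) [(nat_lit 0), (nat_lit 1577099), (nat_lit 0), (nat_lit 0)]) (PF.cons (PF.leaf (nat_lit 6382045) (nat_lit 481972) (nat_lit 43661593) (nat_lit 15012424) [(nat_lit 481972), (nat_lit 1590564), (nat_lit 0), (nat_lit 0)]) (PF.cons PF.nil (PF.cons PF.nil PF.nil)))) (PF.cons (PF.cons (PF.leaf (nat_lit 6832466) (nat_lit 1608485) (nat_lit 42620393) (nat_lit 14837503)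
 [(nat_lit 0), (nat_lit 1608485), (nat_lit 0), (nat_lit 0)]) (PF.cons PF.nil PF.nil)) (PF.cons PF.nil PF.nil)))))))) (PF.cons (PF.cons (PF.cons (PF.leaf (nat_lit 3835651) (nat_lit 3365916) (nat_lit 48136899) (nat_lit 15605996) [(nat_lit 0), (nat_lit 0), (nat_lit 3365916), (nat_lit 0)]) (PF.cons (PF.leaf (nat_lit 4059451) (nat_lit 377746) (nat_lit 47772960) (nat_lit 15565987) [(nat_lit 377746), (nat_lit 0), (nat_lit 3392119), (nat_lit 0)]) (PF.cons (PF.leaf (nat_lit 4304554) (nat_lit 395738) (nat_lit 47378521) (nat_lit 15520802) [(nat_lit 395738), (nat_lit 0), (nat_lit 3418011), (nat_lit 0)]) (PF.cons (PF.leaf (nat_lit 4566645) (nat_lit 411721) (nat_lit 46959896) (nat_lit 15470813) [(nat_lit 411721), (nat_lit 0), (nat_lit 3442938), (nat_lit 0)]) (PF.cons (PF.leaf (nat_lit 4843053) (nat_lit 426074) (nat_lit 46521737) (nat_lit 15416291) [(nat_lit 426074), (nat_lit 0), (nat_lit 3466484), (nat_lit 0)]) (PF.cons (PF.leaf (nat_lit 5131688) (nat_lit 439057) (nat_lit 46067683)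 (nat_lit 15357458) [(nat_lit 439057), (nat_lit 0), (nat_lit 3488384), (nat_lit 0)]) (PF.cons (PF.leaf (nat_lit 5430824) (nat_lit 450853) (nat_lit 45600701) (nat_lit 15294516) [(nat_lit 450853), (nat_lit 0), (nat_lit
 3508476), (nat_lit 0)]) (PF.cons (PF.leaf (nat_lit 5739001) (nat_lit 461601) (nat_lit 45123277) (nat_lit 15227660) [(nat_lit 461601), (nat_lit 0), (nat_lit 3526663), (nat_lit 0)]) (PF.cons PF.nil (PF.cons PF.nil PF.nil)))))))))) (PF.cons (PF.cons (PF.leaf (nat_lit 4477441) (nat_lit 1456826) (nat_lit 46766025) (nat_lit 15442668) [(nat_lit 0), (nat_lit 1456826), (nat_lit 3443292), (nat_lit 0)]) (PF.cons (PF.leaf (nat_lit 4732341) (nat_lit 416843) (nat_lit 46356886) (nat_lit 15390906) [(nat_lit 416843), (nat_lit 1479287), (nat_lit 3464888), (nat_lit 0)]) (PF.cons (PF.leaf (nat_lit 5003179) (nat_lit 430845) (nat_lit 45926808) (nat_lit 15334437) [(nat_lit 430845), (nat_lit 1500501), (nat_lit 3485373), (nat_lit 0)]) (PF.cons (PF.leaf (nat_lit 5286866) (nat_lit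 443439) (nat_lit 45480125) (nat_lit 15273592) [(nat_lit 443439), (nat_lit 1520337), (nat_lit 3504438), (nat_lit 0)]) (PF.cons (PF.leaf (nat_lit 5581424) (nat_lit 454834) (nat_lit 45020194) (nat_lit 15208642) [(nat_lit 454834), (nat_lit 1538745), (nat_lit 3521890), (nat_lit 0)]) (PF.cons (PF.leaf (nat_lit 5885242) (nat_lit 465184) (nat_lit 44549723) (nat_lit 15139827) [(nat_lit 465184), (nat_lit 1555721), (nat_lit 3537617),
 (nat_lit 0)]) (PF.cons PF.nil (PF.cons PF.nil (PF.cons PF.nil PF.nil))))))))) (PF.cons (PF.cons (PF.leaf (nat_lit 5164818) (nat_lit 1515068) (nat_lit 45328859) (nat_lit 15248285) [(nat_lit 0), (nat_lit 1515068), (nat_lit 3501530), (nat_lit 0)]) (PF.cons (PF.leaf (nat_lit 5442048) (nat_lit 447054) (nat_lit 44891801) (nat_lit 15185917) [(nat_lit 447054), (nat_lit 1533049), (nat_lit 3517940), (nat_lit 0)]) (PF.cons (PF.leaf (nat_lit 5731290) (nat_lit 458152) (nat_lit 44440617) (nat_lit 15119373) [(nat_lit 458152), (nat_lit 1549792), (nat_lit 3532931),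 (nat_lit 0)]) (PF.cons (PF.leaf (nat_lit 6030245) (nat_lit 468183) (nat_lit 43978419) (nat_lit 15048963) [(nat_lit 468183), (nat_lit 1565256), (nat_lit 3546366), (nat_lit 0)]) (PF.cons (PF.leaf (nat_lit 6337359) (nat_lit 477277) (nat_lit 43507697) (nat_lit 14974958) [(nat_lit 477277), (nat_lit 1579438), (nat_lit 3558168), (nat_lit 0)]) (PF.cons PF.nil (PF.cons PF.nil PF.nil))))))) (PF.cons (PF.cons (PF.leaf (nat_lit 5881609) (nat_lit 1559555) (nat_lit 43861627) (nat_lit 15026757) [(nat_lit 0), (nat_lit 1559555), (nat_lit 3541760), (nat_lit 0)]) (PF.cons (PF.leaf (nat_lit 6174561) (nat_lit 470601) (nat_lit 43409193) (nat_lit 14955157)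
 [(nat_lit 470601), (nat_lit 1573600), (nat_lit 3553058), (nat_lit 0)]) (PF.cons (PF.leaf (nat_lit 6476558) (nat_lit 479439) (nat_lit 42947650) (nat_lit 14879951) [(nat_lit 479439), (nat_lit 1586486), (nat_lit 3562871), (nat_lit 0)]) (PF.cons PF.nil (PF.cons PF.nil PF.nil))))) (PF.cons (PF.cons (PF.leaf (nat_lit 6615510) (nat_lit 1592510) (nat_lit 42390559) (nat_lit 14782424) [(nat_lit 0), (nat_lit 1592510), (nat_lit 3565788), (nat_lit 0)]) (PF.cons (PF.leaf (nat_lit 6919050) (nat_lit 488873) (nat_lit 41932033) (nat_lit 14703075) [(nat_lit 488873), (nat_lit 1603121), (nat_lit 3572344), (nat_lit 0)]) (PF.cons PF.nil (PF.cons PF.nil PF.nil)))) (PF.cons (PF.cons (PF.leaf (nat_lit 7356989) (nat_lit 1615736) (nat_lit 40934793) (nat_lit 14519719) [(nat_lit 0), (nat_lit 1615736), (nat_lit 3575617), (nat_lit 0)]) (PF.cons PF.nil PF.nil)) PF.nil)))))) (PF.cons (PF.cons (PF.cons (PF.leaf (nat_lit 5019038) (nat_lit 3482061) (nat_lit 44966335) (nat_lit 15178354) [(nat_lit 0), (nat_lit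 0), (nat_lit 3482061), (nat_lit 0)]) (PF.cons (PF.leaf (nat_lit 5276935) (nat_lit 430976) (nat_lit 44562568) (nat_lit 15119601) [(nat_lit 430976), (nat_lit 0), (nat_lit 3497833), (nat_lit 0)]) (PF.cons (PF.leaf
 (nat_lit 5549669) (nat_lit 443779) (nat_lit 44140009) (nat_lit 15056247) [(nat_lit 443779), (nat_lit 0), (nat_lit 3512498), (nat_lit 0)]) (PF.cons (PF.leaf (nat_lit 5834157) (nat_lit 455171) (nat_lit 43702899) (nat_lit 14988732) [(nat_lit 455171), (nat_lit 0), (nat_lit 3525832), (nat_lit 0)]) (PF.cons (PF.leaf (nat_lit 6128466) (nat_lit 465384) (nat_lit 43254470) (nat_lit 14917407) [(nat_lit 465384), (nat_lit 0), (nat_lit 3537698), (nat_lit 0)]) (PF.cons (PF.leaf (nat_lit 6431027) (nat_lit 474581) (nat_lit 42797293) (nat_lit 14842569) [(nat_lit 474581), (nat_lit 0), (nat_lit 3548021), (nat_lit 0)]) (PF.cons PF.nil PF.nil))))))) (PF.cons (PF.cons (PF.leaf (nat_lit 5703723) (nat_lit 1540694) (nat_lit 43562179) (nat_lit 14962603) [(nat_lit 0), (nat_lit 1540694),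 (nat_lit 3521667), (nat_lit 0)]) (PF.cons (PF.leaf (nat_lit 5981334) (nat_lit 457478) (nat_lit 43135916) (nat_lit 14894267) [(nat_lit 457478), (nat_lit 1555436), (nat_lit 3532857), (nat_lit 0)]) (PF.cons (PF.leaf (nat_lit 6269984) (nat_lit 467493) (nat_lit 42697312) (nat_lit 14822019) [(nat_lit 467493), (nat_lit 1569027), (nat_lit 3542733), (nat_lit 0)]) (PF.cons (PF.leaf (nat_lit 6567376) (nat_lit 476460) (nat_lit 42249345)
 (nat_lit 14746231) [(nat_lit 476460), (nat_lit 1581446), (nat_lit 3551203), (nat_lit 0)]) (PF.cons (PF.leaf (nat_lit 6872053) (nat_lit 484521) (nat_lit 41794364) (nat_lit 14667216) [(nat_lit 484521), (nat_lit 1592705), (nat_lit 3558220), (nat_lit 0)]) PF.nil))))) (PF.cons (PF.cons (PF.leaf (nat_lit 6412072) (nat_lit 1575522) (nat_lit 42141881) (nat_lit 14723944) [(nat_lit 0), (nat_lit 1575522), (nat_lit 3545970), (nat_lit 0)]) (PF.cons (PF.leaf (nat_lit 6703234) (nat_lit 477833) (nat_lit 41704408) (nat_lit 14647586) [(nat_lit 477833), (nat_lit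 1586774), (nat_lit 3552717), (nat_lit 0)]) (PF.cons (PF.leaf (nat_lit 7002594) (nat_lit 485713) (nat_lit 41259228) (nat_lit 14567964) [(nat_lit 485713), (nat_lit 1596966), (nat_lit 3558130), (nat_lit 0)]) (PF.cons PF.nil PF.nil)))) (PF.cons (PF.cons (PF.leaf (nat_lit 7133080) (nat_lit 1600386) (nat_lit 40727710) (nat_lit 14466768) [(nat_lit 0), (nat_lit 1600386), (nat_lit 3556587), (nat_lit 0)]) (PF.cons (PF.leaf (nat_lit 7433093) (nat_lit 493375) (nat_lit 40287182) (nat_lit 14383908) [(nat_lit 493375), (nat_lit 1608611), (nat_lit 3559255), (nat_lit 0)]) PF.nil)) (PF.cons PF.nil PF.nil))))) (PF.cons (PF.cons (PF.cons (PF.leaf (nat_lit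
 6224461) (nat_lit 3525773) (nat_lit 41870254) (nat_lit 14661237) [(nat_lit 0), (nat_lit 0), (nat_lit 3525773), (nat_lit 0)]) (PF.cons (PF.leaf (nat_lit 6501182) (nat_lit 465087) (nat_lit 41457265) (nat_lit 14588460) [(nat_lit 465087), (nat_lit 0), (nat_lit 3532666), (nat_lit 0)]) (PF.cons (PF.leaf (nat_lit 6788089) (nat_lit 474149) (nat_lit 41033441) (nat_lit 14512046) [(nat_lit 474149), (nat_lit 0), (nat_lit 3538342), (nat_lit 0)]) (PF.cons (PF.leaf (nat_lit 7082941) (nat_lit 482186) (nat_lit 40601612) (nat_lit 14432411) [(nat_lit 482186), (nat_lit 0), (nat_lit 3542742), (nat_lit 0)]) (PF.cons PF.nil PF.nil))))) (PF.cons (PF.cons (PF.leaf (nat_lit 6922206) (nat_lit 1584046) (nat_lit 40502998) (nat_lit 14410412) [(nat_lit 0), (nat_lit 1584046), (nat_lit 3537118), (nat_lit 0)]) (PF.cons (PF.leaf (nat_lit 7210671) (nat_lit 482702) (nat_lit 40082030) (nat_lit 14330724) [(nat_lit 482702), (nat_lit 1592948), (nat_lit 3540135), (nat_lit 0)]) (PF.cons (PF.leaf (nat_lit 7506621)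 (nat_lit 489745) (nat_lit 39654503) (nat_lit 14248091) [(nat_lit 489745), (nat_lit 1600879), (nat_lit 3541949), (nat_lit 0)]) (PF.cons PF.nil PF.nil)))) (PF.cons (PF.cons (PF.leaf (nat_lit 7629067) (nat_lit
 1602189) (nat_lit 39149014) (nat_lit 14144817) [(nat_lit 0), (nat_lit 1602189), (nat_lit 3536867), (nat_lit 0)]) (PF.cons PF.nil PF.nil)) PF.nil))) (PF.cons (PF.cons (PF.cons (PF.leaf (nat_lit 7412329) (nat_lit 3517951) (nat_lit 38946018) (nat_lit 14090990) [(nat_lit 0), (nat_lit 0), (nat_lit 3517951), (nat_lit 0)]) (PF.cons (PF.leaf (nat_lit 7697426) (nat_lit 485621) (nat_lit 38542387) (nat_lit 14009159) [(nat_lit 485621), (nat_lit 0), (nat_lit 3517911), (nat_lit 0)]) (PF.cons PF.nil PF.nil))) (PF.cons (PF.cons (PF.leaf (nat_lit 8104239) (nat_lit 1599098) (nat_lit 37653501) (nat_lit 13820592) [(nat_lit 0), (nat_lit 1599098), (nat_lit 3508905), (nat_lit 0)]) PF.nil) PF.nil)) (PF.cons PF.nil (PF.cons PF.nil (PF.cons PF.nil PF.nil)))))))) (PF.cons (PF.cons (PF.cons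 (PF.cons (PF.leaf (nat_lit 4734246) (nat_lit 8794639) (nat_lit 43478243) (nat_lit 14835930) [(nat_lit 0), (nat_lit 0), (nat_lit 0), (nat_lit 8794639)]) (PF.cons (PF.leaf (nat_lit 4955250) (nat_lit 386766) (nat_lit 43150741) (nat_lit 14786281) [(nat_lit 386766), (nat_lit 0), (nat_lit 0), (nat_lit 8785024)]) (PF.cons (PF.leaf (nat_lit 5195994) (nat_lit 403483) (nat_lit 42797265) (nat_lit 14731369) [(nat_lit 403483),
 (nat_lit 0), (nat_lit 0), (nat_lit 8773211)]) (PF.cons (PF.leaf (nat_lit 5452124) (nat_lit 418058) (nat_lit 42423621) (nat_lit 14671855) [(nat_lit 418058), (nat_lit 0), (nat_lit 0), (nat_lit 8759160)]) (PF.cons (PF.leaf (nat_lit 5720974) (nat_lit 430927) (nat_lit 42034033) (nat_lit 14608217) [(nat_lit 430927), (nat_lit 0), (nat_lit 0), (nat_lit 8742851)]) (PF.cons (PF.leaf (nat_lit 6000495) (nat_lit 442385) (nat_lit 41631762) (nat_lit 14540835) [(nat_lit 442385), (nat_lit 0), (nat_lit 0), (nat_lit 8724287)]) (PF.cons (PF.leaf (nat_lit 6289028) (nat_lit 452646)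 (nat_lit 41219421) (nat_lit 14470025) [(nat_lit 452646), (nat_lit 0), (nat_lit 0), (nat_lit 8703490)]) (PF.cons (PF.leaf (nat_lit 6585178) (nat_lit 461868) (nat_lit 40799163) (nat_lit 14396067) [(nat_lit 461868), (nat_lit 0), (nat_lit 0), (nat_lit 8680499)]) (PF.cons PF.nil (PF.cons PF.nil PF.nil)))))))))) (PF.cons (PF.cons (PF.leaf (nat_lit 5354016) (nat_lit 1464521) (nat_lit 42256312) (nat_lit 14640966) [(nat_lit 0), (nat_lit 1464521), (nat_lit 0), (nat_lit 8747012)]) (PF.cons (PF.leaf (nat_lit 5602316) (nat_lit 421215) (nat_lit 41892822) (nat_lit 14581019) [(nat_lit 421215), (nat_lit 1482480), (nat_lit 0), (nat_lit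
 8731274)]) (PF.cons (PF.leaf (nat_lit 5865010) (nat_lit 433836) (nat_lit 41511992) (nat_lit 14516734) [(nat_lit 433836), (nat_lit 1499148), (nat_lit 0), (nat_lit 8713266)]) (PF.cons (PF.leaf (nat_lit 6139129) (nat_lit 445007) (nat_lit 41117696) (nat_lit 14448602) [(nat_lit 445007), (nat_lit 1514465), (nat_lit 0), (nat_lit 8693025)]) (PF.cons (PF.leaf (nat_lit 6422717) (nat_lit 454967) (nat_lit 40712896) (nat_lit 14377011) [(nat_lit 454967), (nat_lit 1528436), (nat_lit 0), (nat_lit 8670598)]) (PF.cons (PF.leaf (nat_lit 6714254) (nat_lit 463890) (nat_lit 40299945) (nat_lit 14302281) [(nat_lit 463890), (nat_lit 1541094), (nat_lit 0), (nat_lit 8646040)]) (PF.cons (PF.leaf (nat_lit 7012467) (nat_lit 471906) (nat_lit 39880775) (nat_lit 14224693) [(nat_lit 471906), (nat_lit 1552487), (nat_lit 0), (nat_lit 8619418)]) (PF.cons PF.nil (PF.cons PF.nil PF.nil))))))))) (PF.cons (PF.cons (PF.leaf (nat_lit 6010654) (nat_lit 1508217) (nat_lit 40988922) (nat_lit 14422380) [(nat_lit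 0), (nat_lit 1508217), (nat_lit 0), (nat_lit 8681074)]) (PF.cons (PF.leaf (nat_lit 6277964) (nat_lit 446980) (nat_lit 40604370) (nat_lit 14353939) [(nat_lit 446980), (nat_lit 1522058), (nat_lit 0), (nat_lit 8659406)])
 (PF.cons (PF.leaf (nat_lit 6555972) (nat_lit 456739) (nat_lit 40208405) (nat_lit 14281922) [(nat_lit 456739), (nat_lit 1534718), (nat_lit 0), (nat_lit 8635568)]) (PF.cons (PF.leaf (nat_lit 6842438) (nat_lit 465435) (nat_lit 39803741) (nat_lit 14206721) [(nat_lit 465435), (nat_lit 1546200), (nat_lit 0), (nat_lit 8609641)]) (PF.cons (PF.leaf (nat_lit 7135932) (nat_lit 473217) (nat_lit 39392520) (nat_lit 14128661) [(nat_lit 473217), (nat_lit 1556528), (nat_lit 0), (nat_lit 8581704)]) (PF.cons PF.nil (PF.cons PF.nil PF.nil))))))) (PF.cons (PF.cons (PF.leaf (nat_lit 6689933) (nat_lit 1540040) (nat_lit 39705487) (nat_lit 14184744) [(nat_lit 0), (nat_lit 1540040), (nat_lit 0), (nat_lit 8598459)]) (PF.cons (PF.leaf (nat_lit 6970294) (nat_lit 466503) (nat_lit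 39310253) (nat_lit 14109410) [(nat_lit 466503), (nat_lit 1550424), (nat_lit 0), (nat_lit 8571372)]) (PF.cons (PF.leaf (nat_lit 7258626) (nat_lit 474114) (nat_lit 38907835) (nat_lit 14031159) [(nat_lit 474114), (nat_lit 1559760), (nat_lit 0), (nat_lit 8542308)]) (PF.cons (PF.leaf (nat_lit 7553170) (nat_lit 480907) (nat_lit 38500195) (nat_lit 13950316) [(nat_lit 480907), (nat_lit 1568070), (nat_lit 0), (nat_lit 8511369)]) (PF.cons
 PF.nil PF.nil))))) (PF.cons (PF.cons (PF.leaf (nat_lit 7381463) (nat_lit 1562239) (nat_lit 38426369) (nat_lit 13932198) [(nat_lit 0), (nat_lit 1562239), (nat_lit 0), (nat_lit 8501287)]) (PF.cons (PF.leaf (nat_lit 7670401) (nat_lit 481254) (nat_lit 38027871) (nat_lit 13851417) [(nat_lit 481254), (nat_lit 1569705), (nat_lit 0), (nat_lit 8469445)]) (PF.cons PF.nil (PF.cons PF.nil PF.nil)))) (PF.cons (PF.cons (PF.leaf (nat_lit 8077407) (nat_lit 1576522) (nat_lit 37165878) (nat_lit 13668484) [(nat_lit 0), (nat_lit 1576522), (nat_lit 0), (nat_lit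 8391837)]) (PF.cons PF.nil PF.nil)) PF.nil)))))) (PF.cons (PF.cons (PF.cons (PF.leaf (nat_lit 5852824) (nat_lit 3423632) (nat_lit 40687493) (nat_lit 14353651) [(nat_lit 0), (nat_lit 0), (nat_lit 3423632), (nat_lit 8644035)]) (PF.cons (PF.leaf (nat_lit 6102325) (nat_lit 430924) (nat_lit 40331952) (nat_lit 14289687) [(nat_lit 430924), (nat_lit 0), (nat_lit 3432617), (nat_lit 8623630)]) (PF.cons (PF.leaf (nat_lit 6365324) (nat_lit 442480) (nat_lit 39960777) (nat_lit 14221563) [(nat_lit 442480), (nat_lit 0), (nat_lit 3440528), (nat_lit 8600982)]) (PF.cons (PF.leaf (nat_lit 6638815) (nat_lit 452612) (nat_lit 39577710) (nat_lit 14149830) [(nat_lit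
 452612), (nat_lit 0), (nat_lit 3447235), (nat_lit 8576199)]) (PF.cons (PF.leaf (nat_lit 6920940) (nat_lit 461569) (nat_lit 39185568) (nat_lit 14074912) [(nat_lit 461569), (nat_lit 0), (nat_lit 3452674), (nat_lit 8549379)]) (PF.cons (PF.leaf (nat_lit 7210218) (nat_lit 469531) (nat_lit 38786567) (nat_lit 13997159) [(nat_lit 469531), (nat_lit 0), (nat_lit 3456816), (nat_lit 8520613)]) (PF.cons PF.nil PF.nil))))))) (PF.cons (PF.cons (PF.leaf (nat_lit 6503904) (nat_lit 1521221) (nat_lit 39458468) (nat_lit 14123790) [(nat_lit 0), (nat_lit 1521221), (nat_lit 3441763), (nat_lit 8563568)]) (PF.cons (PF.leaf (nat_lit 6770382) (nat_lit 453593) (nat_lit 39085748) (nat_lit 14052224) [(nat_lit 453593), (nat_lit 1532518), (nat_lit 3446941), (nat_lit 8537786)]) (PF.cons (PF.leaf (nat_lit 7046750) (nat_lit 462434) (nat_lit 38702955) (nat_lit 13977331) [(nat_lit 462434), (nat_lit 1542729), (nat_lit 3450967), (nat_lit 8509959)]) (PF.cons (PF.leaf (nat_lit 7330828) (nat_lit 470245) (nat_lit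 38312664) (nat_lit 13899532) [(nat_lit 470245), (nat_lit 1551869), (nat_lit 3453801), (nat_lit 8480209)]) (PF.cons (PF.leaf (nat_lit 7621232) (nat_lit 477177) (nat_lit 37916886) (nat_lit 13819169) [(nat_lit
 477177), (nat_lit 1559969), (nat_lit 3455434), (nat_lit 8448642)]) PF.nil))))) (PF.cons (PF.cons (PF.leaf (nat_lit 7173431) (nat_lit 1545699) (nat_lit 38222495) (nat_lit 13878095) [(nat_lit 0), (nat_lit 1545699), (nat_lit 3447985), (nat_lit 8468837)]) (PF.cons (PF.leaf (nat_lit 7451305) (nat_lit 470538) (nat_lit 37841915) (nat_lit 13800566) [(nat_lit 470538), (nat_lit 1553939), (nat_lit 3449616), (nat_lit 8438297)]) (PF.cons (PF.leaf (nat_lit 7736476) (nat_lit 477362) (nat_lit 37455160) (nat_lit 13720392) [(nat_lit 477362), (nat_lit 1561224), (nat_lit 3450133), (nat_lit 8405953)]) (PF.cons PF.nil PF.nil)))) (PF.cons (PF.cons (PF.leaf (nat_lit 7852038) (nat_lit 1561862) (nat_lit 36996927) (nat_lit 13620519) [(nat_lit 0), (nat_lit 1561862), (nat_lit 3443817), (nat_lit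 8361961)]) (PF.cons (PF.leaf (nat_lit 8137180) (nat_lit 483136) (nat_lit 36615033) (nat_lit 13538433) [(nat_lit 483136), (nat_lit 1567529), (nat_lit 3442273), (nat_lit 8327347)]) PF.nil)) (PF.cons PF.nil PF.nil))))) (PF.cons (PF.cons (PF.cons (PF.leaf (nat_lit 6980462) (nat_lit 3427878) (nat_lit 37998605) (nat_lit 13819794) [(nat_lit 0), (nat_lit 0), (nat_lit 3427878), (nat_lit 8434655)]) (PF.cons (PF.leaf (nat_lit
 7245238) (nat_lit 458129) (nat_lit 37638958) (nat_lit 13746114) [(nat_lit 458129), (nat_lit 0), (nat_lit 3429990), (nat_lit 8405630)]) (PF.cons (PF.leaf (nat_lit 7519237) (nat_lit 466163) (nat_lit 37270371) (nat_lit 13669348) [(nat_lit 466163), (nat_lit 0), (nat_lit 3431038), (nat_lit 8374690)]) (PF.cons (PF.leaf (nat_lit 7800296) (nat_lit 473199) (nat_lit 36895282) (nat_lit 13589935) [(nat_lit 473199), (nat_lit 0), (nat_lit 3431006), (nat_lit 8341982)]) (PF.cons PF.nil PF.nil))))) (PF.cons (PF.cons (PF.leaf (nat_lit 7638965) (nat_lit 1546169) (nat_lit 36812638)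 (nat_lit 13569214) [(nat_lit 0), (nat_lit 1546169), (nat_lit 3425081), (nat_lit 8330627)]) (PF.cons (PF.leaf (nat_lit 7913771) (nat_lit 472859) (nat_lit 36447326) (nat_lit 13490397) [(nat_lit 472859), (nat_lit 1552604), (nat_lit 3424093), (nat_lit 8297438)]) (PF.cons (PF.leaf (nat_lit 8195302) (nat_lit 478995) (nat_lit 36076669) (nat_lit 13409185) [(nat_lit 478995), (nat_lit 1558167), (nat_lit 3422097), (nat_lit 8262606)]) (PF.cons PF.nil PF.nil)))) (PF.cons (PF.cons (PF.leaf (nat_lit 8304014) (nat_lit 1557313) (nat_lit 35641373) (nat_lit 13309342) [(nat_lit 0), (nat_lit 1557313), (nat_lit 3413465), (nat_lit 8216537)])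
 (PF.cons PF.nil PF.nil)) PF.nil))) (PF.cons (PF.cons (PF.cons (PF.leaf (nat_lit 8087068) (nat_lit 3395561) (nat_lit 35474698) (nat_lit 13260921) [(nat_lit 0), (nat_lit 0), (nat_lit 3395561), (nat_lit 8186508)]) (PF.cons (PF.leaf (nat_lit 8358356) (nat_lit 473767) (nat_lit 35124860) (nat_lit 13181559) [(nat_lit 473767), (nat_lit 0), (nat_lit 3392428), (nat_lit 8151341)]) (PF.cons PF.nil PF.nil))) (PF.cons (PF.cons (PF.leaf (nat_lit 8738179) (nat_lit 1549412) (nat_lit 34357389) (nat_lit 13000953) [(nat_lit 0), (nat_lit 1549412), (nat_lit 3377935), (nat_lit 8067250)]) PF.nil) PF.nil)) (PF.cons PF.nil (PF.cons PF.nil PF.nil)))))) (PF.cons (PF.cons (PF.cons (PF.cons (PF.leaf (nat_lit 6593801) (nat_lit 8264593) (nat_lit 37035126) (nat_lit 13544499) [(nat_lit 0), (nat_lit 0), (nat_lit 0), (nat_lit 8264593)]) (PF.cons (PF.leaf (nat_lit 6834305) (nat_lit 425923) (nat_lit 36723251) (nat_lit 13479933) [(nat_lit 425923), (nat_lit 0), (nat_lit 0), (nat_lit 8239852)]) (PF.cons (PF.leaf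 (nat_lit 7087264) (nat_lit 436459) (nat_lit 36398175) (nat_lit 13411628) [(nat_lit 436459), (nat_lit 0), (nat_lit 0), (nat_lit 8213045)]) (PF.cons (PF.leaf (nat_lit 7349711) (nat_lit 445584) (nat_lit 36063170)
 (nat_lit 13340175) [(nat_lit 445584), (nat_lit 0), (nat_lit 0), (nat_lit 8184356)]) (PF.cons (PF.leaf (nat_lit 7619888) (nat_lit 453560) (nat_lit 35720681) (nat_lit 13266021) [(nat_lit 453560), (nat_lit 0), (nat_lit 0), (nat_lit 8153933)]) (PF.cons (PF.leaf (nat_lit 7896396) (nat_lit 460573) (nat_lit 35372614) (nat_lit 13189525) [(nat_lit 460573), (nat_lit 0), (nat_lit 0), (nat_lit 8121903)]) (PF.cons PF.nil PF.nil))))))) (PF.cons (PF.cons (PF.leaf (nat_lit 7212889) (nat_lit 1488410) (nat_lit 35962053) (nat_lit 13315439) [(nat_lit 0), (nat_lit 1488410), (nat_lit 0), (nat_lit 8171454)]) (PF.cons (PF.leaf (nat_lit 7468358) (nat_lit 445670) (nat_lit 35636492) (nat_lit 13244703) [(nat_lit 445670), (nat_lit 1497257), (nat_lit 0), (nat_lit 8142344)]) (PF.cons (PF.leaf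 (nat_lit 7732851) (nat_lit 453591) (nat_lit 35302509) (nat_lit 13171101) [(nat_lit 453591), (nat_lit 1505090), (nat_lit 0), (nat_lit 8111464)]) (PF.cons (PF.leaf (nat_lit 8004259) (nat_lit 460512) (nat_lit 34962329) (nat_lit 13095062) [(nat_lit 460512), (nat_lit 1511941), (nat_lit 0), (nat_lit 8078971)]) (PF.cons PF.nil PF.nil))))) (PF.cons (PF.cons (PF.leaf (nat_lit 7846934) (nat_lit 1505775) (nat_lit 34886432) (nat_lit
 13075142) [(nat_lit 0), (nat_lit 1505775), (nat_lit 0), (nat_lit 8067843)]) (PF.cons (PF.leaf (nat_lit 8112274) (nat_lit 460094) (nat_lit 34554948) (nat_lit 12999824) [(nat_lit 460094), (nat_lit 1511923), (nat_lit 0), (nat_lit 8035049)]) (PF.cons (PF.leaf (nat_lit 8384218) (nat_lit 466115) (nat_lit 34218340) (nat_lit 12922309) [(nat_lit 466115), (nat_lit 1517206), (nat_lit 0), (nat_lit 8000759)]) (PF.cons PF.nil PF.nil)))) (PF.cons (PF.cons (PF.leaf (nat_lit 8487797) (nat_lit 1516092) (nat_lit 33822101) (nat_lit 12827082) [(nat_lit 0), (nat_lit 1516092),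 (nat_lit 0), (nat_lit 7955676)]) (PF.cons PF.nil PF.nil)) (PF.cons PF.nil PF.nil))))) (PF.cons (PF.cons (PF.cons (PF.leaf (nat_lit 7652191) (nat_lit 3313943) (nat_lit 34700920) (nat_lit 13022341) [(nat_lit 0), (nat_lit 0), (nat_lit 3313943), (nat_lit 8035803)]) (PF.cons (PF.leaf (nat_lit 7905565) (nat_lit 448174) (nat_lit 34387304) (nat_lit 12950833) [(nat_lit 448174), (nat_lit 0), (nat_lit 3313050), (nat_lit 8004725)]) (PF.cons (PF.leaf (nat_lit 8167412) (nat_lit 455403) (nat_lit 34066144) (nat_lit 12876664) [(nat_lit 455403), (nat_lit 0), (nat_lit 3311218), (nat_lit 7971989)]) (PF.cons (PF.leaf (nat_lit 8435638) (nat_lit 461668)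
 (nat_lit 33739541) (nat_lit 12800270) [(nat_lit 461668), (nat_lit 0), (nat_lit 3308456), (nat_lit 7937769)]) (PF.cons PF.nil PF.nil))))) (PF.cons (PF.cons (PF.leaf (nat_lit 8275430) (nat_lit 1501293) (nat_lit 33669944) (nat_lit 12781234) [(nat_lit 0), (nat_lit 1501293), (nat_lit 3302560), (nat_lit 7926889)]) (PF.cons (PF.leaf (nat_lit 8537599) (nat_lit 460773) (nat_lit 33351965) (nat_lit 12705767) [(nat_lit 460773), (nat_lit 1506022), (nat_lit 3299129), (nat_lit 7892577)]) (PF.cons PF.nil (PF.cons PF.nil PF.nil)))) (PF.cons (PF.cons (PF.leaf (nat_lit 8903606) (nat_lit 1507771) (nat_lit 32652961) (nat_lit 12534185) [(nat_lit 0), (nat_lit 1507771), (nat_lit 3284296), (nat_lit 7810912)]) (PF.cons PF.nil PF.nil)) PF.nil))) (PF.cons (PF.cons (PF.cons (PF.leaf (nat_lit 8688722) (nat_lit 3267688) (nat_lit 32515058) (nat_lit 12491185) [(nat_lit 0), (nat_lit 0), (nat_lit 3267688), (nat_lit 7783595)]) (PF.cons (PF.leaf (nat_lit 8947416) (nat_lit 460401) (nat_lit 32210509) (nat_lit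 12416039) [(nat_lit 460401), (nat_lit 0), (nat_lit 3262718), (nat_lit 7748212)]) PF.nil)) (PF.cons PF.nil PF.nil)) (PF.cons PF.nil (PF.cons PF.nil PF.nil))))) (PF.cons (PF.cons (PF.cons (PF.cons (PF.leaf (nat_lit
 8256740) (nat_lit 7649783) (nat_lit 31876907) (nat_lit 12282553) [(nat_lit 0), (nat_lit 0), (nat_lit 0), (nat_lit 7649783)]) (PF.cons (PF.leaf (nat_lit 8499439) (nat_lit 436684) (nat_lit 31602364) (nat_lit 12214668) [(nat_lit 436684), (nat_lit 0), (nat_lit 0), (nat_lit 7618365)]) (PF.cons (PF.leaf (nat_lit 8750012) (nat_lit 443265) (nat_lit 31321342) (nat_lit 12144459) [(nat_lit 443265), (nat_lit 0), (nat_lit 0), (nat_lit 7585493)]) (PF.cons PF.nil PF.nil)))) (PF.cons (PF.cons (PF.leaf (nat_lit 8848391) (nat_lit 1453559) (nat_lit 30976673) (nat_lit 12055070) [(nat_lit 0), (nat_lit 1453559), (nat_lit 0), (nat_lit 7541169)]) (PF.cons (PF.leaf (nat_lit 9098952) (nat_lit 447664) (nat_lit 30698540) (nat_lit 11984031) [(nat_lit 447664), (nat_lit 1457082), (nat_lit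 0), (nat_lit 7507164)]) PF.nil)) (PF.cons PF.nil PF.nil))) (PF.cons (PF.cons (PF.cons (PF.leaf (nat_lit 9232475) (nat_lit 3140588) (nat_lit 29973889) (nat_lit 11785741) [(nat_lit 0), (nat_lit 0), (nat_lit 3140588), (nat_lit 7402864)]) (PF.cons PF.nil PF.nil)) (PF.cons PF.nil PF.nil)) (PF.cons PF.nil PF.nil))) (PF.cons (PF.cons (PF.cons (PF.cons (PF.leaf (nat_lit 9729487) (nat_lit 7047614) (nat_lit 27775725) (nat_lit 11142630)
 [(nat_lit 0), (nat_lit 0), (nat_lit 0), (nat_lit 7047614)]) (PF.cons PF.nil PF.nil)) (PF.cons PF.nil PF.nil)) (PF.cons PF.nil PF.nil)) (PF.cons PF.nil (PF.cons PF.nil (PF.cons PF.nil PF.nil))))))))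

def p15_22_2_0 : pfC (piC [(nat_lit 38632330), (nat_lit 25257288), (nat_lit 18773175), (nat_lit 12658484)] (nat_lit 6713858)) p15_22_2 (nat_lit 4) (nat_lit 0) (nat_lit 1) = true := by decide +kernel
def p15_22_2_1 : pfC (piC [(nat_lit 38632330), (nat_lit 25257288), (nat_lit 18773175), (nat_lit 12658484)] (nat_lit 6713858)) p15_22_2 (nat_lit 4) (nat_lit 1) (nat_lit 2) = true := by decide +kernel
def p15_22_2_2 : pfC (piC [(nat_lit 38632330), (nat_lit 25257288), (nat_lit 18773175), (nat_lit 12658484)] (nat_lit 6713858)) p15_22_2 (nat_lit 4) (nat_lit 2) (nat_lit 3) = true := by decide +kernel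
def p15_22_2_3 : pfC (piC [(nat_lit 38632330), (nat_lit 25257288), (nat_lit 18773175), (nat_lit 12658484)] (nat_lit 6713858)) p15_22_2 (nat_lit 4) (nat_lit 3) (nat_lit 4) = true := by decide +kernel
def p15_22_2_4 : pfC (piC [(nat_lit 38632330), (nat_lit 25257288), (nat_lit 18773175), (nat_lit 12658484)] (nat_lit 6713858)) p15_22_2 (nat_lit 4) (nat_lit 4) (nat_lit 5) = true := by decide +kernel
def p15_22_2_5 : pfC (piC [(nat_lit 38632330), (nat_lit 25257288), (nat_lit 18773175), (nat_lit 12658484)] (nat_lit 6713858)) p15_22_2 (nat_lit 4) (nat_lit 5) (nat_lit 6) = true := by decide +kernel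
def p15_22_2_6 : pfC (piC [(nat_lit 38632330), (nat_lit 25257288), (nat_lit 18773175), (nat_lit 12658484)] (nat_lit 6713858)) p15_22_2 (nat_lit 4) (nat_lit 6) (nat_lit 7) = true := by decide +kernel
def p15_22_2_7 : pfC (piC [(nat_lit 38632330), (nat_lit 25257288), (nat_lit 18773175), (nat_lit 12658484)] (nat_lit 6713858)) p15_22_2 (nat_lit 4) (nat_lit 7) (nat_lit 8) = true := by decide +kernel
def p15_22_2_8 : pfC (piC [(nat_lit 38632330), (nat_lit 25257288), (nat_lit 18773175), (nat_lit 12658484)] (nat_lit 6713858)) p15_22_2 (nat_lit 4) (nat_lit 8) (nat_lit 9) = true := by decide +kernel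
def p15_22_2_9 : pfC (piC [(nat_lit 38632330), (nat_lit 25257288), (nat_lit 18773175), (nat_lit 12658484)] (nat_lit 6713858)) p15_22_2 (nat_lit 4) (nat_lit 9) (nat_lit 10) = true := by decide +kernel
def p15_22_2_10 : pfC (piC [(nat_lit 38632330), (nat_lit 25257288), (nat_lit 18773175), (nat_lit 12658484)] (nat_lit 6713858)) p15_22_2 (nat_lit 4) (nat_lit 10) (nat_lit 11) = true := by decide +kernel
def p15_22_2_11 : pfC (piC [(nat_lit 38632330), (nat_lit 25257288), (nat_lit 18773175), (nat_lit 12658484)] (nat_lit 6713858)) p15_22_2 (nat_lit 4) (nat_lit 11) (nat_lit 12) = true := by decide +kernel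
def p15_22_2_12 : pfC (piC [(nat_lit 38632330), (nat_lit 25257288), (nat_lit 18773175), (nat_lit 12658484)] (nat_lit 6713858)) p15_22_2 (nat_lit 4) (nat_lit 12) (nat_lit 13) = true := by decide +kernel
def p15_22_2_13 : pfC (piC [(nat_lit 38632330), (nat_lit 25257288), (nat_lit 18773175), (nat_lit 12658484)] (nat_lit 6713858)) p15_22_2 (nat_lit 4) (nat_lit 13) (nat_lit 14) = true := by decide +kernel
def p15_22_2_14 : pfC (piC [(nat_lit 38632330), (nat_lit 25257288), (nat_lit 18773175), (nat_lit 12658484)] (nat_lit 6713858)) p15_22_2 (nat_lit 4) (nat_lit 14) (nat_lit 15) = true := by decide +kernel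
def p15_22_2_15 : pfC (piC [(nat_lit 38632330), (nat_lit 25257288), (nat_lit 18773175), (nat_lit 12658484)] (nat_lit 6713858)) p15_22_2 (nat_lit 4) (nat_lit 15) (nat_lit 16) = true := by decide +kernel
def p15_22_2_16 : pfC (piC [(nat_lit 38632330), (nat_lit 25257288), (nat_lit 18773175), (nat_lit 12658484)] (nat_lit 6713858)) p15_22_2 (nat_lit 4) (nat_lit 16) (nat_lit 17) = true := by decide +kernel
def p15_22_2_17 : pfC (piC [(nat_lit 38632330), (nat_lit 25257288), (nat_lit 18773175), (nat_lit 12658484)] (nat_lit 6713858)) p15_22_2 (nat_lit 4) (nat_lit 17) (nat_lit 18) = true := by decide +kernel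
def p15_22_2_18 : pfC (piC [(nat_lit 38632330), (nat_lit 25257288), (nat_lit 18773175), (nat_lit 12658484)] (nat_lit 6713858)) p15_22_2 (nat_lit 4) (nat_lit 18) (nat_lit 19) = true := by decide +kernel
def p15_22_2_19 : pfC (piC [(nat_lit 38632330), (nat_lit 25257288), (nat_lit 18773175), (nat_lit 12658484)] (nat_lit 6713858)) p15_22_2 (nat_lit 4) (nat_lit 19) (nat_lit 20) = true := by decide +kernel
def p15_22_2_20 : pfC (piC [(nat_lit 38632330), (nat_lit 25257288), (nat_lit 18773175), (nat_lit 12658484)] (nat_lit 6713858)) p15_22_2 (nat_lit 4) (nat_lit 20) (nat_lit 21) = true := by decide +kernel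
def p15_22_2_21 : pfC (piC [(nat_lit 38632330), (nat_lit 25257288), (nat_lit 18773175), (nat_lit 12658484)] (nat_lit 6713858)) p15_22_2 (nat_lit 4) (nat_lit 21) (nat_lit 22) = true := by decide +kernel
def p15_22_2_22 : pfC (piC [(nat_lit 38632330), (nat_lit 25257288), (nat_lit 18773175), (nat_lit 12658484)] (nat_lit 6713858)) p15_22_2 (nat_lit 4) (nat_lit 22) (nat_lit 23) = true := by decide +kernel
def p15_22_2_23 : pfC (piC [(nat_lit 38632330), (nat_lit 25257288), (nat_lit 18773175), (nat_lit 12658484)] (nat_lit 6713858)) p15_22_2 (nat_lit 4) (nat_lit 23) (nat_lit 24) = true := by decide +kernel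
def p15_22_2_24 : pfC (piC [(nat_lit 38632330), (nat_lit 25257288), (nat_lit 18773175), (nat_lit 12658484)] (nat_lit 6713858)) p15_22_2 (nat_lit 4) (nat_lit 24) (nat_lit 25) = true := by decide +kernel
def p15_22_2_25 : pfC (piC [(nat_lit 38632330), (nat_lit 25257288), (nat_lit 18773175), (nat_lit 12658484)] (nat_lit 6713858)) p15_22_2 (nat_lit 4) (nat_lit 25) (nat_lit 26) = true := by decide +kernel
def p15_22_2_26 : pfC (piC [(nat_lit 38632330), (nat_lit 25257288), (nat_lit 18773175), (nat_lit 12658484)] (nat_lit 6713858)) p15_22_2 (nat_lit 4) (nat_lit 26) (nat_lit 27) = true := by decide +kernel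
def p15_22_2_27 : pfC (piC [(nat_lit 38632330), (nat_lit 25257288), (nat_lit 18773175), (nat_lit 12658484)] (nat_lit 6713858)) p15_22_2 (nat_lit 4) (nat_lit 27) (nat_lit 28) = true := by decide +kernel
def p15_22_2_28 : pfC (piC [(nat_lit 38632330), (nat_lit 25257288), (nat_lit 18773175), (nat_lit 12658484)] (nat_lit 6713858)) p15_22_2 (nat_lit 4) (nat_lit 28) (nat_lit 29) = true := by decide +kernel
def p15_22_2_29 : pfC (piC [(nat_lit 38632330), (nat_lit 25257288), (nat_lit 18773175), (nat_lit 12658484)] (nat_lit 6713858)) p15_22_2 (nat_lit 4) (nat_lit 29) (nat_lit 30) = true := by decide +kernel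
def p15_22_2_30 : pfC (piC [(nat_lit 38632330), (nat_lit 25257288), (nat_lit 18773175), (nat_lit 12658484)] (nat_lit 6713858)) p15_22_2 (nat_lit 4) (nat_lit 30) (nat_lit 31) = true := by decide +kernel
def p15_22_2_31 : pfC (piC [(nat_lit 38632330), (nat_lit 25257288), (nat_lit 18773175), (nat_lit 12658484)] (nat_lit 6713858)) p15_22_2 (nat_lit 4) (nat_lit 31) (nat_lit 32) = true := by decide +kernel
def p15_22_2_32 : pfC (piC [(nat_lit 38632330), (nat_lit 25257288), (nat_lit 18773175), (nat_lit 12658484)] (nat_lit 6713858)) p15_22_2 (nat_lit 4) (nat_lit 32) (nat_lit 33) = true := by decide +kernel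
def p15_22_2_33 : pfC (piC [(nat_lit 38632330), (nat_lit 25257288), (nat_lit 18773175), (nat_lit 12658484)] (nat_lit 6713858)) p15_22_2 (nat_lit 4) (nat_lit 33) (nat_lit 34) = true := by decide +kernel
def p15_22_2_34 : pfC (piC [(nat_lit 38632330), (nat_lit 25257288), (nat_lit 18773175), (nat_lit 12658484)] (nat_lit 6713858)) p15_22_2 (nat_lit 4) (nat_lit 34) (nat_lit 35) = true := by decide +kernel
def p15_22_2_35 : pfC (piC [(nat_lit 38632330), (nat_lit 25257288), (nat_lit 18773175), (nat_lit 12658484)] (nat_lit 6713858)) p15_22_2 (nat_lit 4) (nat_lit 35) (nat_lit 36) = true := by decide +kernel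
def p15_22_2_36 : pfC (piC [(nat_lit 38632330), (nat_lit 25257288), (nat_lit 18773175), (nat_lit 12658484)] (nat_lit 6713858)) p15_22_2 (nat_lit 4) (nat_lit 36) (nat_lit 37) = true := by decide +kernel
def p15_22_2_37 : pfC (piC [(nat_lit 38632330), (nat_lit 25257288), (nat_lit 18773175), (nat_lit 12658484)] (nat_lit 6713858)) p15_22_2 (nat_lit 4) (nat_lit 37) (nat_lit 38) = true := by decide +kernel
def p15_22_2_38 : pfC (piC [(nat_lit 38632330), (nat_lit 25257288), (nat_lit 18773175), (nat_lit 12658484)] (nat_lit 6713858)) p15_22_2 (nat_lit 4) (nat_lit 38) (nat_lit 39) = true := by decide +kernel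
def p15_22_2_39 : pfC (piC [(nat_lit 38632330), (nat_lit 25257288), (nat_lit 18773175), (nat_lit 12658484)] (nat_lit 6713858)) p15_22_2 (nat_lit 4) (nat_lit 39) (nat_lit 40) = true := by decide +kernel
def p15_22_2_40 : pfC (piC [(nat_lit 38632330), (nat_lit 25257288), (nat_lit 18773175), (nat_lit 12658484)] (nat_lit 6713858)) p15_22_2 (nat_lit 4) (nat_lit 40) (nat_lit 41) = true := by decide +kernel
def p15_22_2_41 : pfC (piC [(nat_lit 38632330), (nat_lit 25257288), (nat_lit 18773175), (nat_lit 12658484)] (nat_lit 6713858)) p15_22_2 (nat_lit 4) (nat_lit 41) (nat_lit 42) = true := by decide +kernel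
def p15_22_2_42 : pfC (piC [(nat_lit 38632330), (nat_lit 25257288), (nat_lit 18773175), (nat_lit 12658484)] (nat_lit 6713858)) p15_22_2 (nat_lit 4) (nat_lit 42) (nat_lit 43) = true := by decide +kernel
def p15_22_2_43 : pfC (piC [(nat_lit 38632330), (nat_lit 25257288), (nat_lit 18773175), (nat_lit 12658484)] (nat_lit 6713858)) p15_22_2 (nat_lit 4) (nat_lit 43) (nat_lit 44) = true := by decide +kernel
def p15_22_2_44 : pfC (piC [(nat_lit 38632330), (nat_lit 25257288), (nat_lit 18773175), (nat_lit 12658484)] (nat_lit 6713858)) p15_22_2 (nat_lit 4) (nat_lit 44) (nat_lit 45) = true := by decide +kernel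
def p15_22_2_45 : pfC (piC [(nat_lit 38632330), (nat_lit 25257288), (nat_lit 18773175), (nat_lit 12658484)] (nat_lit 6713858)) p15_22_2 (nat_lit 4) (nat_lit 45) (nat_lit 46) = true := by decide +kernel
def p15_22_2_46 : pfC (piC [(nat_lit 38632330), (nat_lit 25257288), (nat_lit 18773175), (nat_lit 12658484)] (nat_lit 6713858)) p15_22_2 (nat_lit 4) (nat_lit 46) (nat_lit 47) = true := by decide +kernel
def p15_22_2_47 : pfC (piC [(nat_lit 38632330), (nat_lit 25257288), (nat_lit 18773175), (nat_lit 12658484)] (nat_lit 6713858)) p15_22_2 (nat_lit 4) (nat_lit 47) (nat_lit 48) = true := by decide +kernel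
def p15_22_2_48 : pfC (piC [(nat_lit 38632330), (nat_lit 25257288), (nat_lit 18773175), (nat_lit 12658484)] (nat_lit 6713858)) p15_22_2 (nat_lit 4) (nat_lit 48) (nat_lit 49) = true := by decide +kernel
def p15_22_2_49 : pfC (piC [(nat_lit 38632330), (nat_lit 25257288), (nat_lit 18773175), (nat_lit 12658484)] (nat_lit 6713858)) p15_22_2 (nat_lit 4) (nat_lit 49) (nat_lit 50) = true := by decide +kernel
def p15_22_2_50 : pfC (piC [(nat_lit 38632330), (nat_lit 25257288), (nat_lit 18773175), (nat_lit 12658484)] (nat_lit 6713858)) p15_22_2 (nat_lit 4) (nat_lit 50) (nat_lit 51) = true := by decide +kernel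
def p15_22_2_51 : pfC (piC [(nat_lit 38632330), (nat_lit 25257288), (nat_lit 18773175), (nat_lit 12658484)] (nat_lit 6713858)) p15_22_2 (nat_lit 4) (nat_lit 51) (nat_lit 52) = true := by decide +kernel
def p15_22_2_52 : pfC (piC [(nat_lit 38632330), (nat_lit 25257288), (nat_lit 18773175), (nat_lit 12658484)] (nat_lit 6713858)) p15_22_2 (nat_lit 4) (nat_lit 52) (nat_lit 53) = true := by decide +kernel
def p15_22_2_53 : pfC (piC [(nat_lit 38632330), (nat_lit 25257288), (nat_lit 18773175), (nat_lit 12658484)] (nat_lit 6713858)) p15_22_2 (nat_lit 4) (nat_lit 53) (nat_lit 54) = true := by decide +kernel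
def p15_22_2_54 : pfC (piC [(nat_lit 38632330), (nat_lit 25257288), (nat_lit 18773175), (nat_lit 12658484)] (nat_lit 6713858)) p15_22_2 (nat_lit 4) (nat_lit 54) (nat_lit 55) = true := by decide +kernel
def p15_22_2_55 : pfC (piC [(nat_lit 38632330), (nat_lit 25257288), (nat_lit 18773175), (nat_lit 12658484)] (nat_lit 6713858)) p15_22_2 (nat_lit 4) (nat_lit 55) (nat_lit 56) = true := by decide +kernel
def p15_22_2_56 : pfC (piC [(nat_lit 38632330), (nat_lit 25257288), (nat_lit 18773175), (nat_lit 12658484)] (nat_lit 6713858)) p15_22_2 (nat_lit 4) (nat_lit 56) (nat_lit 57) = true := by decide +kernel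
def p15_22_2_57 : pfC (piC [(nat_lit 38632330), (nat_lit 25257288), (nat_lit 18773175), (nat_lit 12658484)] (nat_lit 6713858)) p15_22_2 (nat_lit 4) (nat_lit 57) (nat_lit 58) = true := by decide +kernel
def p15_22_2_58 : pfC (piC [(nat_lit 38632330), (nat_lit 25257288), (nat_lit 18773175), (nat_lit 12658484)] (nat_lit 6713858)) p15_22_2 (nat_lit 4) (nat_lit 58) (nat_lit 59) = true := by decide +kernel
def p15_22_2_59 : pfC (piC [(nat_lit 38632330), (nat_lit 25257288), (nat_lit 18773175), (nat_lit 12658484)] (nat_lit 6713858)) p15_22_2 (nat_lit 4) (nat_lit 59) (nat_lit 60) = true := by decide +kernel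
def p15_22_2_60 : pfC (piC [(nat_lit 38632330), (nat_lit 25257288), (nat_lit 18773175), (nat_lit 12658484)] (nat_lit 6713858)) p15_22_2 (nat_lit 4) (nat_lit 60) (nat_lit 61) = true := by decide +kernel
def p15_22_2_61 : pfC (piC [(nat_lit 38632330), (nat_lit 25257288), (nat_lit 18773175), (nat_lit 12658484)] (nat_lit 6713858)) p15_22_2 (nat_lit 4) (nat_lit 61) (nat_lit 62) = true := by decide +kernel
def p15_22_2_62 : pfC (piC [(nat_lit 38632330), (nat_lit 25257288), (nat_lit 18773175), (nat_lit 12658484)] (nat_lit 6713858)) p15_22_2 (nat_lit 4) (nat_lit 62) (nat_lit 63) = true := by decide +kernel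
def p15_22_2_63 : pfC (piC [(nat_lit 38632330), (nat_lit 25257288), (nat_lit 18773175), (nat_lit 12658484)] (nat_lit 6713858)) p15_22_2 (nat_lit 4) (nat_lit 63) (nat_lit 64) = true := by decide +kernel
def p15_22_2_64 : pfC (piC [(nat_lit 38632330), (nat_lit 25257288), (nat_lit 18773175), (nat_lit 12658484)] (nat_lit 6713858)) p15_22_2 (nat_lit 4) (nat_lit 64) (nat_lit 65) = true := by decide +kernel
def p15_22_2_65 : pfC (piC [(nat_lit 38632330), (nat_lit 25257288), (nat_lit 18773175), (nat_lit 12658484)] (nat_lit 6713858)) p15_22_2 (nat_lit 4) (nat_lit 65) (nat_lit 66) = true := by decide +kernel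
def p15_22_2_66 : pfC (piC [(nat_lit 38632330), (nat_lit 25257288), (nat_lit 18773175), (nat_lit 12658484)] (nat_lit 6713858)) p15_22_2 (nat_lit 4) (nat_lit 66) (nat_lit 67) = true := by decide +kernel
def p15_22_2_67 : pfC (piC [(nat_lit 38632330), (nat_lit 25257288), (nat_lit 18773175), (nat_lit 12658484)] (nat_lit 6713858)) p15_22_2 (nat_lit 4) (nat_lit 67) (nat_lit 68) = true := by decide +kernel
def p15_22_2_68 : pfC (piC [(nat_lit 38632330), (nat_lit 25257288), (nat_lit 18773175), (nat_lit 12658484)] (nat_lit 6713858)) p15_22_2 (nat_lit 4) (nat_lit 68) (nat_lit 69) = true := by decide +kernel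
def p15_22_2_69 : pfC (piC [(nat_lit 38632330), (nat_lit 25257288), (nat_lit 18773175), (nat_lit 12658484)] (nat_lit 6713858)) p15_22_2 (nat_lit 4) (nat_lit 69) (nat_lit 70) = true := by decide +kernel
def p15_22_2_70 : pfC (piC [(nat_lit 38632330), (nat_lit 25257288), (nat_lit 18773175), (nat_lit 12658484)] (nat_lit 6713858)) p15_22_2 (nat_lit 4) (nat_lit 70) (nat_lit 71) = true := by decide +kernel
def p15_22_2_71 : pfC (piC [(nat_lit 38632330), (nat_lit 25257288), (nat_lit 18773175), (nat_lit 12658484)] (nat_lit 6713858)) p15_22_2 (nat_lit 4) (nat_lit 71) (nat_lit 72) = true := by decide +kernel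
def p15_22_2_72 : pfC (piC [(nat_lit 38632330), (nat_lit 25257288), (nat_lit 18773175), (nat_lit 12658484)] (nat_lit 6713858)) p15_22_2 (nat_lit 4) (nat_lit 72) (nat_lit 73) = true := by decide +kernel
def p15_22_2_73 : pfC (piC [(nat_lit 38632330), (nat_lit 25257288), (nat_lit 18773175), (nat_lit 12658484)] (nat_lit 6713858)) p15_22_2 (nat_lit 4) (nat_lit 73) (nat_lit 74) = true := by decide +kernel
def p15_22_2_74 : pfC (piC [(nat_lit 38632330), (nat_lit 25257288), (nat_lit 18773175), (nat_lit 12658484)] (nat_lit 6713858)) p15_22_2 (nat_lit 4) (nat_lit 74) (nat_lit 75) = true := by decide +kernel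
def p15_22_2_75 : pfC (piC [(nat_lit 38632330), (nat_lit 25257288), (nat_lit 18773175), (nat_lit 12658484)] (nat_lit 6713858)) p15_22_2 (nat_lit 4) (nat_lit 75) (nat_lit 76) = true := by decide +kernel
def p15_22_2_76 : pfC (piC [(nat_lit 38632330), (nat_lit 25257288), (nat_lit 18773175), (nat_lit 12658484)] (nat_lit 6713858)) p15_22_2 (nat_lit 4) (nat_lit 76) (nat_lit 77) = true := by decide +kernel
def p15_22_2_77 : pfC (piC [(nat_lit 38632330), (nat_lit 25257288), (nat_lit 18773175), (nat_lit 12658484)] (nat_lit 6713858)) p15_22_2 (nat_lit 4) (nat_lit 77) (nat_lit 78) = true := by decide +kernel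
def p15_22_2_78 : pfC (piC [(nat_lit 38632330), (nat_lit 25257288), (nat_lit 18773175), (nat_lit 12658484)] (nat_lit 6713858)) p15_22_2 (nat_lit 4) (nat_lit 78) (nat_lit 79) = true := by decide +kernel
def p15_22_2_79 : pfC (piC [(nat_lit 38632330), (nat_lit 25257288), (nat_lit 18773175), (nat_lit 12658484)] (nat_lit 6713858)) p15_22_2 (nat_lit 4) (nat_lit 79) (nat_lit 80) = true := by decide +kernel
def p15_22_2_80 : pfC (piC [(nat_lit 38632330), (nat_lit 25257288), (nat_lit 18773175), (nat_lit 12658484)] (nat_lit 6713858)) p15_22_2 (nat_lit 4) (nat_lit 80) (nat_lit 81) = true := by decide +kernel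
def p15_22_2_81 : pfC (piC [(nat_lit 38632330), (nat_lit 25257288), (nat_lit 18773175), (nat_lit 12658484)] (nat_lit 6713858)) p15_22_2 (nat_lit 4) (nat_lit 81) (nat_lit 82) = true := by decide +kernel
def p15_22_2_82 : pfC (piC [(nat_lit 38632330), (nat_lit 25257288), (nat_lit 18773175), (nat_lit 12658484)] (nat_lit 6713858)) p15_22_2 (nat_lit 4) (nat_lit 82) (nat_lit 83) = true := by decide +kernel
def p15_22_2_83 : pfC (piC [(nat_lit 38632330), (nat_lit 25257288), (nat_lit 18773175), (nat_lit 12658484)] (nat_lit 6713858)) p15_22_2 (nat_lit 4) (nat_lit 83) (nat_lit 84) = true := by decide +kernel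
def p15_22_2_84 : pfC (piC [(nat_lit 38632330), (nat_lit 25257288), (nat_lit 18773175), (nat_lit 12658484)] (nat_lit 6713858)) p15_22_2 (nat_lit 4) (nat_lit 84) (nat_lit 85) = true := by decide +kernel
def p15_22_2_85 : pfC (piC [(nat_lit 38632330), (nat_lit 25257288), (nat_lit 18773175), (nat_lit 12658484)] (nat_lit 6713858)) p15_22_2 (nat_lit 4) (nat_lit 85) (nat_lit 86) = true := by decide +kernel
def p15_22_2_86 : pfC (piC [(nat_lit 38632330), (nat_lit 25257288), (nat_lit 18773175), (nat_lit 12658484)] (nat_lit 6713858)) p15_22_2 (nat_lit 4) (nat_lit 86) (nat_lit 87) = true := by decide +kernel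
def p15_22_2_87 : pfC (piC [(nat_lit 38632330), (nat_lit 25257288), (nat_lit 18773175), (nat_lit 12658484)] (nat_lit 6713858)) p15_22_2 (nat_lit 4) (nat_lit 87) (nat_lit 88) = true := by decide +kernel
def p15_22_2_88 : pfC (piC [(nat_lit 38632330), (nat_lit 25257288), (nat_lit 18773175), (nat_lit 12658484)] (nat_lit 6713858)) p15_22_2 (nat_lit 4) (nat_lit 88) (nat_lit 89) = true := by decide +kernel
def p15_22_2_89 : pfC (piC [(nat_lit 38632330), (nat_lit 25257288), (nat_lit 18773175), (nat_lit 12658484)] (nat_lit 6713858)) p15_22_2 (nat_lit 4) (nat_lit 89) (nat_lit 90) = true := by decide +kernel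
def p15_22_2_90 : pfC (piC [(nat_lit 38632330), (nat_lit 25257288), (nat_lit 18773175), (nat_lit 12658484)] (nat_lit 6713858)) p15_22_2 (nat_lit 4) (nat_lit 90) (nat_lit 91) = true := by decide +kernel
def p15_22_2_91 : pfC (piC [(nat_lit 38632330), (nat_lit 25257288), (nat_lit 18773175), (nat_lit 12658484)] (nat_lit 6713858)) p15_22_2 (nat_lit 4) (nat_lit 91) (nat_lit 92) = true := by decide +kernel
def p15_22_2_92 : pfC (piC [(nat_lit 38632330), (nat_lit 25257288), (nat_lit 18773175), (nat_lit 12658484)] (nat_lit 6713858)) p15_22_2 (nat_lit 4) (nat_lit 92) (nat_lit 93) = true := by decide +kernel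
def p15_22_2_93 : pfC (piC [(nat_lit 38632330), (nat_lit 25257288), (nat_lit 18773175), (nat_lit 12658484)] (nat_lit 6713858)) p15_22_2 (nat_lit 4) (nat_lit 93) (nat_lit 94) = true := by decide +kernel
def p15_22_2_94 : pfC (piC [(nat_lit 38632330), (nat_lit 25257288), (nat_lit 18773175), (nat_lit 12658484)] (nat_lit 6713858)) p15_22_2 (nat_lit 4) (nat_lit 94) (nat_lit 95) = true := by decide +kernel
def p15_22_2_95 : pfC (piC [(nat_lit 38632330), (nat_lit 25257288), (nat_lit 18773175), (nat_lit 12658484)] (nat_lit 6713858)) p15_22_2 (nat_lit 4) (nat_lit 95) (nat_lit 96) = true := by decide +kernel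
def p15_22_2_96 : pfC (piC [(nat_lit 38632330), (nat_lit 25257288), (nat_lit 18773175), (nat_lit 12658484)] (nat_lit 6713858)) p15_22_2 (nat_lit 4) (nat_lit 96) (nat_lit 97) = true := by decide +kernel
def p15_22_2_97 : pfC (piC [(nat_lit 38632330), (nat_lit 25257288), (nat_lit 18773175), (nat_lit 12658484)] (nat_lit 6713858)) p15_22_2 (nat_lit 4) (nat_lit 97) (nat_lit 98) = true := by decide +kernel
def p15_22_2_98 : pfC (piC [(nat_lit 38632330), (nat_lit 25257288), (nat_lit 18773175), (nat_lit 12658484)] (nat_lit 6713858)) p15_22_2 (nat_lit 4) (nat_lit 98) (nat_lit 99) = true := by decide +kernel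
def p15_22_2_99 : pfC (piC [(nat_lit 38632330), (nat_lit 25257288), (nat_lit 18773175), (nat_lit 12658484)] (nat_lit 6713858)) p15_22_2 (nat_lit 4) (nat_lit 99) (nat_lit 100) = true := by decide +kernel
def p15_22_2_100 : pfC (piC [(nat_lit 38632330), (nat_lit 25257288), (nat_lit 18773175), (nat_lit 12658484)] (nat_lit 6713858)) p15_22_2 (nat_lit 4) (nat_lit 100) (nat_lit 101) = true := by decide +kernel
def p15_22_2_101 : pfC (piC [(nat_lit 38632330), (nat_lit 25257288), (nat_lit 18773175), (nat_lit 12658484)] (nat_lit 6713858)) p15_22_2 (nat_lit 4) (nat_lit 101) (nat_lit 102) = true := by decide +kernel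
def p15_22_2_102 : pfC (piC [(nat_lit 38632330), (nat_lit 25257288), (nat_lit 18773175), (nat_lit 12658484)] (nat_lit 6713858)) p15_22_2 (nat_lit 4) (nat_lit 102) (nat_lit 103) = true := by decide +kernel
def p15_22_2_103 : pfC (piC [(nat_lit 38632330), (nat_lit 25257288), (nat_lit 18773175), (nat_lit 12658484)] (nat_lit 6713858)) p15_22_2 (nat_lit 4) (nat_lit 103) (nat_lit 104) = true := by decide +kernel
def p15_22_2_104 : pfC (piC [(nat_lit 38632330), (nat_lit 25257288), (nat_lit 18773175), (nat_lit 12658484)] (nat_lit 6713858)) p15_22_2 (nat_lit 4) (nat_lit 104) (nat_lit 105) = true := by decide +kernel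
def p15_22_2_105 : pfC (piC [(nat_lit 38632330), (nat_lit 25257288), (nat_lit 18773175), (nat_lit 12658484)] (nat_lit 6713858)) p15_22_2 (nat_lit 4) (nat_lit 105) (nat_lit 106) = true := by decide +kernel
def p15_22_2_106 : pfC (piC [(nat_lit 38632330), (nat_lit 25257288), (nat_lit 18773175), (nat_lit 12658484)] (nat_lit 6713858)) p15_22_2 (nat_lit 4) (nat_lit 106) (nat_lit 107) = true := by decide +kernel
def p15_22_2_107 : pfC (piC [(nat_lit 38632330), (nat_lit 25257288), (nat_lit 18773175), (nat_lit 12658484)] (nat_lit 6713858)) p15_22_2 (nat_lit 4) (nat_lit 107) (nat_lit 108) = true := by decide +kernel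
def p15_22_2_108 : pfC (piC [(nat_lit 38632330), (nat_lit 25257288), (nat_lit 18773175), (nat_lit 12658484)] (nat_lit 6713858)) p15_22_2 (nat_lit 4) (nat_lit 108) (nat_lit 109) = true := by decide +kernel
def p15_22_2_109 : pfC (piC [(nat_lit 38632330), (nat_lit 25257288), (nat_lit 18773175), (nat_lit 12658484)] (nat_lit 6713858)) p15_22_2 (nat_lit 4) (nat_lit 109) (nat_lit 110) = true := by decide +kernel
def p15_22_2_110 : pfC (piC [(nat_lit 38632330), (nat_lit 25257288), (nat_lit 18773175), (nat_lit 12658484)] (nat_lit 6713858)) p15_22_2 (nat_lit 4) (nat_lit 110) (nat_lit 111) = true := by decide +kernel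
def p15_22_2_111 : pfC (piC [(nat_lit 38632330), (nat_lit 25257288), (nat_lit 18773175), (nat_lit 12658484)] (nat_lit 6713858)) p15_22_2 (nat_lit 4) (nat_lit 111) (nat_lit 112) = true := by decide +kernel
def p15_22_2_112 : pfC (piC [(nat_lit 38632330), (nat_lit 25257288), (nat_lit 18773175), (nat_lit 12658484)] (nat_lit 6713858)) p15_22_2 (nat_lit 4) (nat_lit 112) (nat_lit 113) = true := by decide +kernel
def p15_22_2_113 : pfC (piC [(nat_lit 38632330), (nat_lit 25257288), (nat_lit 18773175), (nat_lit 12658484)] (nat_lit 6713858)) p15_22_2 (nat_lit 4) (nat_lit 113) (nat_lit 114) = true := by decide +kernel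
def p15_22_2_114 : pfC (piC [(nat_lit 38632330), (nat_lit 25257288), (nat_lit 18773175), (nat_lit 12658484)] (nat_lit 6713858)) p15_22_2 (nat_lit 4) (nat_lit 114) (nat_lit 115) = true := by decide +kernel
def p15_22_2_115 : pfC (piC [(nat_lit 38632330), (nat_lit 25257288), (nat_lit 18773175), (nat_lit 12658484)] (nat_lit 6713858)) p15_22_2 (nat_lit 4) (nat_lit 115) (nat_lit 116) = true := by decide +kernel
def p15_22_2_116 : pfC (piC [(nat_lit 38632330), (nat_lit 25257288), (nat_lit 18773175), (nat_lit 12658484)] (nat_lit 6713858)) p15_22_2 (nat_lit 4) (nat_lit 116) (nat_lit 117) = true := by decide +kernel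
def p15_22_2_117 : pfC (piC [(nat_lit 38632330), (nat_lit 25257288), (nat_lit 18773175), (nat_lit 12658484)] (nat_lit 6713858)) p15_22_2 (nat_lit 4) (nat_lit 117) (nat_lit 118) = true := by decide +kernel
def p15_22_2_118 : pfC (piC [(nat_lit 38632330), (nat_lit 25257288), (nat_lit 18773175), (nat_lit 12658484)] (nat_lit 6713858)) p15_22_2 (nat_lit 4) (nat_lit 118) (nat_lit 119) = true := by decide +kernel
def p15_22_2_119 : pfC (piC [(nat_lit 38632330), (nat_lit 25257288), (nat_lit 18773175), (nat_lit 12658484)] (nat_lit 6713858)) p15_22_2 (nat_lit 4) (nat_lit 119) (nat_lit 120) = true := by decide +kernel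
def p15_22_2_120 : pfC (piC [(nat_lit 38632330), (nat_lit 25257288), (nat_lit 18773175), (nat_lit 12658484)] (nat_lit 6713858)) p15_22_2 (nat_lit 4) (nat_lit 120) (nat_lit 121) = true := by decide +kernel
def p15_22_2_121 : pfC (piC [(nat_lit 38632330), (nat_lit 25257288), (nat_lit 18773175), (nat_lit 12658484)] (nat_lit 6713858)) p15_22_2 (nat_lit 4) (nat_lit 121) (nat_lit 122) = true := by decide +kernel
def p15_22_2_122 : pfC (piC [(nat_lit 38632330), (nat_lit 25257288), (nat_lit 18773175), (nat_lit 12658484)] (nat_lit 6713858)) p15_22_2 (nat_lit 4) (nat_lit 122) (nat_lit 123) = true := by decide +kernel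
def p15_22_2_123 : pfC (piC [(nat_lit 38632330), (nat_lit 25257288), (nat_lit 18773175), (nat_lit 12658484)] (nat_lit 6713858)) p15_22_2 (nat_lit 4) (nat_lit 123) (nat_lit 124) = true := by decide +kernel
def p15_22_2_124 : pfC (piC [(nat_lit 38632330), (nat_lit 25257288), (nat_lit 18773175), (nat_lit 12658484)] (nat_lit 6713858)) p15_22_2 (nat_lit 4) (nat_lit 124) (nat_lit 125) = true := by decide +kernel
def p15_22_2_125 : pfC (piC [(nat_lit 38632330), (nat_lit 25257288), (nat_lit 18773175), (nat_lit 12658484)] (nat_lit 6713858)) p15_22_2 (nat_lit 4) (nat_lit 125) (nat_lit 126) = true := by decide +kernel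
def p15_22_2_126 : pfC (piC [(nat_lit 38632330), (nat_lit 25257288), (nat_lit 18773175), (nat_lit 12658484)] (nat_lit 6713858)) p15_22_2 (nat_lit 4) (nat_lit 126) (nat_lit 127) = true := by decide +kernel
def p15_22_2_127 : pfC (piC [(nat_lit 38632330), (nat_lit 25257288), (nat_lit 18773175), (nat_lit 12658484)] (nat_lit 6713858)) p15_22_2 (nat_lit 4) (nat_lit 127) (nat_lit 128) = true := by decide +kernel
def p15_22_2_128 : pfC (piC [(nat_lit 38632330), (nat_lit 25257288), (nat_lit 18773175), (nat_lit 12658484)] (nat_lit 6713858)) p15_22_2 (nat_lit 4) (nat_lit 128) (nat_lit 129) = true := by decide +kernel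
def p15_22_2_129 : pfC (piC [(nat_lit 38632330), (nat_lit 25257288), (nat_lit 18773175), (nat_lit 12658484)] (nat_lit 6713858)) p15_22_2 (nat_lit 4) (nat_lit 129) (nat_lit 130) = true := by decide +kernel
def p15_22_2_130 : pfC (piC [(nat_lit 38632330), (nat_lit 25257288), (nat_lit 18773175), (nat_lit 12658484)] (nat_lit 6713858)) p15_22_2 (nat_lit 4) (nat_lit 130) (nat_lit 131) = true := by decide +kernel
def p15_22_2_131 : pfC (piC [(nat_lit 38632330), (nat_lit 25257288), (nat_lit 18773175), (nat_lit 12658484)] (nat_lit 6713858)) p15_22_2 (nat_lit 4) (nat_lit 131) (nat_lit 132) = true := by decide +kernel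
def p15_22_2_132 : pfC (piC [(nat_lit 38632330), (nat_lit 25257288), (nat_lit 18773175), (nat_lit 12658484)] (nat_lit 6713858)) p15_22_2 (nat_lit 4) (nat_lit 132) (nat_lit 133) = true := by decide +kernel
def p15_22_2_133 : pfC (piC [(nat_lit 38632330), (nat_lit 25257288), (nat_lit 18773175), (nat_lit 12658484)] (nat_lit 6713858)) p15_22_2 (nat_lit 4) (nat_lit 133) (nat_lit 134) = true := by decide +kernel
def p15_22_2_134 : pfC (piC [(nat_lit 38632330), (nat_lit 25257288), (nat_lit 18773175), (nat_lit 12658484)] (nat_lit 6713858)) p15_22_2 (nat_lit 4) (nat_lit 134) (nat_lit 135) = true := by decide +kernel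
def p15_22_2_135 : pfC (piC [(nat_lit 38632330), (nat_lit 25257288), (nat_lit 18773175), (nat_lit 12658484)] (nat_lit 6713858)) p15_22_2 (nat_lit 4) (nat_lit 135) (nat_lit 136) = true := by decide +kernel
def p15_22_2_136 : pfC (piC [(nat_lit 38632330), (nat_lit 25257288), (nat_lit 18773175), (nat_lit 12658484)] (nat_lit 6713858)) p15_22_2 (nat_lit 4) (nat_lit 136) (nat_lit 137) = true := by decide +kernel
def p15_22_2_137 : pfC (piC [(nat_lit 38632330), (nat_lit 25257288), (nat_lit 18773175), (nat_lit 12658484)] (nat_lit 6713858)) p15_22_2 (nat_lit 4) (nat_lit 137) (nat_lit 138) = true := by decide +kernel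
def p15_22_2_138 : pfC (piC [(nat_lit 38632330), (nat_lit 25257288), (nat_lit 18773175), (nat_lit 12658484)] (nat_lit 6713858)) p15_22_2 (nat_lit 4) (nat_lit 138) (nat_lit 139) = true := by decide +kernel
def p15_22_2_139 : pfC (piC [(nat_lit 38632330), (nat_lit 25257288), (nat_lit 18773175), (nat_lit 12658484)] (nat_lit 6713858)) p15_22_2 (nat_lit 4) (nat_lit 139) (nat_lit 140) = true := by decide +kernel
def p15_22_2_140 : pfC (piC [(nat_lit 38632330), (nat_lit 25257288), (nat_lit 18773175), (nat_lit 12658484)] (nat_lit 6713858)) p15_22_2 (nat_lit 4) (nat_lit 140) (nat_lit 141) = true := by decide +kernel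
def p15_22_2_141 : pfC (piC [(nat_lit 38632330), (nat_lit 25257288), (nat_lit 18773175), (nat_lit 12658484)] (nat_lit 6713858)) p15_22_2 (nat_lit 4) (nat_lit 141) (nat_lit 142) = true := by decide +kernel
def p15_22_2_142 : pfC (piC [(nat_lit 38632330), (nat_lit 25257288), (nat_lit 18773175), (nat_lit 12658484)] (nat_lit 6713858)) p15_22_2 (nat_lit 4) (nat_lit 142) (nat_lit 143) = true := by decide +kernel
def p15_22_2_143 : pfC (piC [(nat_lit 38632330), (nat_lit 25257288), (nat_lit 18773175), (nat_lit 12658484)] (nat_lit 6713858)) p15_22_2 (nat_lit 4) (nat_lit 143) (nat_lit 144) = true := by decide +kernel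
def p15_22_2_144 : pfC (piC [(nat_lit 38632330), (nat_lit 25257288), (nat_lit 18773175), (nat_lit 12658484)] (nat_lit 6713858)) p15_22_2 (nat_lit 4) (nat_lit 144) (nat_lit 145) = true := by decide +kernel
def p15_22_2_145 : pfC (piC [(nat_lit 38632330), (nat_lit 25257288), (nat_lit 18773175), (nat_lit 12658484)] (nat_lit 6713858)) p15_22_2 (nat_lit 4) (nat_lit 145) (nat_lit 146) = true := by decide +kernel
def p15_22_2_146 : pfC (piC [(nat_lit 38632330), (nat_lit 25257288), (nat_lit 18773175), (nat_lit 12658484)] (nat_lit 6713858)) p15_22_2 (nat_lit 4) (nat_lit 146) (nat_lit 147) = true := by decide +kernel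
def p15_22_2_147 : pfC (piC [(nat_lit 38632330), (nat_lit 25257288), (nat_lit 18773175), (nat_lit 12658484)] (nat_lit 6713858)) p15_22_2 (nat_lit 4) (nat_lit 147) (nat_lit 148) = true := by decide +kernel
def p15_22_2_148 : pfC (piC [(nat_lit 38632330), (nat_lit 25257288), (nat_lit 18773175), (nat_lit 12658484)] (nat_lit 6713858)) p15_22_2 (nat_lit 4) (nat_lit 148) (nat_lit 149) = true := by decide +kernel
def p15_22_2_149 : pfC (piC [(nat_lit 38632330), (nat_lit 25257288), (nat_lit 18773175), (nat_lit 12658484)] (nat_lit 6713858)) p15_22_2 (nat_lit 4) (nat_lit 149) (nat_lit 150) = true := by decide +kernel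
def p15_22_2_150 : pfC (piC [(nat_lit 38632330), (nat_lit 25257288), (nat_lit 18773175), (nat_lit 12658484)] (nat_lit 6713858)) p15_22_2 (nat_lit 4) (nat_lit 150) (nat_lit 151) = true := by decide +kernel
def p15_22_2_151 : pfC (piC [(nat_lit 38632330), (nat_lit 25257288), (nat_lit 18773175), (nat_lit 12658484)] (nat_lit 6713858)) p15_22_2 (nat_lit 4) (nat_lit 151) (nat_lit 152) = true := by decide +kernel
def p15_22_2_152 : pfC (piC [(nat_lit 38632330), (nat_lit 25257288), (nat_lit 18773175), (nat_lit 12658484)] (nat_lit 6713858)) p15_22_2 (nat_lit 4) (nat_lit 152) (nat_lit 153) = true := by decide +kernel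
def p15_22_2_153 : pfC (piC [(nat_lit 38632330), (nat_lit 25257288), (nat_lit 18773175), (nat_lit 12658484)] (nat_lit 6713858)) p15_22_2 (nat_lit 4) (nat_lit 153) (nat_lit 154) = true := by decide +kernel
def p15_22_2_154 : pfC (piC [(nat_lit 38632330), (nat_lit 25257288), (nat_lit 18773175), (nat_lit 12658484)] (nat_lit 6713858)) p15_22_2 (nat_lit 4) (nat_lit 154) (nat_lit 155) = true := by decide +kernel
def p15_22_2_155 : pfC (piC [(nat_lit 38632330), (nat_lit 25257288), (nat_lit 18773175), (nat_lit 12658484)] (nat_lit 6713858)) p15_22_2 (nat_lit 4) (nat_lit 155) (nat_lit 156) = true := by decide +kernel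
def p15_22_2_156 : pfC (piC [(nat_lit 38632330), (nat_lit 25257288), (nat_lit 18773175), (nat_lit 12658484)] (nat_lit 6713858)) p15_22_2 (nat_lit 4) (nat_lit 156) (nat_lit 157) = true := by decide +kernel
def p15_22_2_157 : pfC (piC [(nat_lit 38632330), (nat_lit 25257288), (nat_lit 18773175), (nat_lit 12658484)] (nat_lit 6713858)) p15_22_2 (nat_lit 4) (nat_lit 157) (nat_lit 158) = true := by decide +kernel
def p15_22_2_158 : pfC (piC [(nat_lit 38632330), (nat_lit 25257288), (nat_lit 18773175), (nat_lit 12658484)] (nat_lit 6713858)) p15_22_2 (nat_lit 4) (nat_lit 158) (nat_lit 159) = true := by decide +kernel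
def p15_22_2_159 : pfC (piC [(nat_lit 38632330), (nat_lit 25257288), (nat_lit 18773175), (nat_lit 12658484)] (nat_lit 6713858)) p15_22_2 (nat_lit 4) (nat_lit 159) (nat_lit 160) = true := by decide +kernel
def p15_22_2_160 : pfC (piC [(nat_lit 38632330), (nat_lit 25257288), (nat_lit 18773175), (nat_lit 12658484)] (nat_lit 6713858)) p15_22_2 (nat_lit 4) (nat_lit 160) (nat_lit 161) = true := by decide +kernel
def p15_22_2_161 : pfC (piC [(nat_lit 38632330), (nat_lit 25257288), (nat_lit 18773175), (nat_lit 12658484)] (nat_lit 6713858)) p15_22_2 (nat_lit 4) (nat_lit 161) (nat_lit 162) = true := by decide +kernel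
def p15_22_2_162 : pfC (piC [(nat_lit 38632330), (nat_lit 25257288), (nat_lit 18773175), (nat_lit 12658484)] (nat_lit 6713858)) p15_22_2 (nat_lit 4) (nat_lit 162) (nat_lit 163) = true := by decide +kernel
def p15_22_2_163 : pfC (piC [(nat_lit 38632330), (nat_lit 25257288), (nat_lit 18773175), (nat_lit 12658484)] (nat_lit 6713858)) p15_22_2 (nat_lit 4) (nat_lit 163) (nat_lit 164) = true := by decide +kernel
def p15_22_2_164 : pfC (piC [(nat_lit 38632330), (nat_lit 25257288), (nat_lit 18773175), (nat_lit 12658484)] (nat_lit 6713858)) p15_22_2 (nat_lit 4) (nat_lit 164) (nat_lit 165) = true := by decide +kernel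
def p15_22_2_165 : pfC (piC [(nat_lit 38632330), (nat_lit 25257288), (nat_lit 18773175), (nat_lit 12658484)] (nat_lit 6713858)) p15_22_2 (nat_lit 4) (nat_lit 165) (nat_lit 166) = true := by decide +kernel
def p15_22_2_166 : pfC (piC [(nat_lit 38632330), (nat_lit 25257288), (nat_lit 18773175), (nat_lit 12658484)] (nat_lit 6713858)) p15_22_2 (nat_lit 4) (nat_lit 166) (nat_lit 167) = true := by decide +kernel
def p15_22_2_167 : pfC (piC [(nat_lit 38632330), (nat_lit 25257288), (nat_lit 18773175), (nat_lit 12658484)] (nat_lit 6713858)) p15_22_2 (nat_lit 4) (nat_lit 167) (nat_lit 168) = true := by decide +kernel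
def p15_22_2_168 : pfC (piC [(nat_lit 38632330), (nat_lit 25257288), (nat_lit 18773175), (nat_lit 12658484)] (nat_lit 6713858)) p15_22_2 (nat_lit 4) (nat_lit 168) (nat_lit 169) = true := by decide +kernel
def p15_22_2_169 : pfC (piC [(nat_lit 38632330), (nat_lit 25257288), (nat_lit 18773175), (nat_lit 12658484)] (nat_lit 6713858)) p15_22_2 (nat_lit 4) (nat_lit 169) (nat_lit 170) = true := by decide +kernel
def p15_22_2_170 : pfC (piC [(nat_lit 38632330), (nat_lit 25257288), (nat_lit 18773175), (nat_lit 12658484)] (nat_lit 6713858)) p15_22_2 (nat_lit 4) (nat_lit 170) (nat_lit 171) = true := by decide +kernel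
def p15_22_2_171 : pfC (piC [(nat_lit 38632330), (nat_lit 25257288), (nat_lit 18773175), (nat_lit 12658484)] (nat_lit 6713858)) p15_22_2 (nat_lit 4) (nat_lit 171) (nat_lit 172) = true := by decide +kernel
def p15_22_2_172 : pfC (piC [(nat_lit 38632330), (nat_lit 25257288), (nat_lit 18773175), (nat_lit 12658484)] (nat_lit 6713858)) p15_22_2 (nat_lit 4) (nat_lit 172) (nat_lit 173) = true := by decide +kernel
theorem p15_22_2_T : PfS (PiF n15_22.reverse (nat_lit 6713858)) p15_22_2 (nat_lit 4) [] 0 :=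
  pftab_of (los := [(nat_lit 38632330), (nat_lit 25257288), (nat_lit 18773175), (nat_lit 12658484)]) (by decide +kernel) (hi := (nat_lit 173)) (PfP.trans (PfP.trans (PfP.trans (PfP.trans (PfP.trans (PfP.trans (PfP.trans (PfP.trans (PfP.trans (PfP.trans (PfP.trans (PfP.trans (PfP.trans (PfP.trans (PfP.trans (PfP.trans (PfP.trans (PfP.trans (PfP.trans (PfP.trans (PfP.trans (PfP.trans (PfP.trans (PfP.trans (PfP.trans (PfP.trans (PfP.trans (PfP.trans (PfP.trans (PfP.trans (PfP.trans (PfP.trans (PfP.trans (PfP.trans (PfP.trans (PfP.trans (PfP.trans (PfP.trans (PfP.trans (PfP.trans (PfP.trans (PfP.trans (PfP.trans (PfP.trans (PfP.trans (PfP.trans (PfP.trans (PfP.trans (PfP.trans (PfP.trans (PfP.trans (PfP.trans (PfP.trans (PfP.trans (PfP.trans (PfP.trans (PfP.trans (PfP.trans (PfP.trans (PfP.trans (PfP.trans (PfP.trans (PfP.trans (PfP.trans (PfP.trans (PfP.trans (PfP.trans (PfP.trans (PfP.trans (PfP.trans (PfP.trans (PfP.trans (PfP.trans (PfP.trans (PfP.trans (PfP.trans (PfP.trans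 (PfP.trans (PfP.trans (PfP.trans (PfP.trans (PfP.trans (PfP.trans (PfP.trans (PfP.trans (PfP.trans (PfP.trans (PfP.trans (PfP.trans (PfP.trans (PfP.trans (PfP.trans (PfP.trans (PfP.trans (PfP.trans (PfP.trans (PfP.trans (PfP.trans (PfP.trans (PfP.trans (PfP.trans (PfP.trans (PfP.trans (PfP.trans (PfP.trans (PfP.trans (PfP.trans (PfP.trans (PfP.trans
 (PfP.trans (PfP.trans (PfP.trans (PfP.trans (PfP.trans (PfP.trans (PfP.trans (PfP.trans (PfP.trans (PfP.trans (PfP.trans (PfP.trans (PfP.trans (PfP.trans (PfP.trans (PfP.trans (PfP.trans (PfP.trans (PfP.trans (PfP.trans (PfP.trans (PfP.trans (PfP.trans (PfP.trans (PfP.trans (PfP.trans (PfP.trans (PfP.trans (PfP.trans (PfP.trans (PfP.trans (PfP.trans (PfP.trans (PfP.trans (PfP.trans (PfP.trans (PfP.trans (PfP.trans (PfP.trans (PfP.trans (PfP.trans (PfP.trans (PfP.trans (PfP.trans (PfP.trans (PfP.trans (PfP.trans (PfP.trans (PfP.trans (PfP.trans (PfP.trans (PfP.trans (PfP.trans (PfP.trans (PfP.trans (PfP.trans (PfP.trans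 (PfP.trans (PfP.trans (PfP.trans (PfP.trans (PfP.trans (PfP.trans (pfC_sound p15_22_2_0) (pfC_sound p15_22_2_1)) (pfC_sound p15_22_2_2)) (pfC_sound p15_22_2_3)) (pfC_sound p15_22_2_4)) (pfC_sound p15_22_2_5)) (pfC_sound p15_22_2_6)) (pfC_sound p15_22_2_7)) (pfC_sound p15_22_2_8)) (pfC_sound p15_22_2_9)) (pfC_sound p15_22_2_10)) (pfC_sound p15_22_2_11)) (pfC_sound p15_22_2_12)) (pfC_sound p15_22_2_13)) (pfC_sound p15_22_2_14)) (pfC_sound p15_22_2_15)) (pfC_sound p15_22_2_16)) (pfC_sound p15_22_2_17)) (pfC_sound p15_22_2_18)) (pfC_sound p15_22_2_19)) (pfC_sound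
 p15_22_2_20)) (pfC_sound p15_22_2_21)) (pfC_sound p15_22_2_22)) (pfC_sound p15_22_2_23)) (pfC_sound p15_22_2_24)) (pfC_sound p15_22_2_25)) (pfC_sound p15_22_2_26)) (pfC_sound p15_22_2_27)) (pfC_sound p15_22_2_28)) (pfC_sound p15_22_2_29)) (pfC_sound p15_22_2_30)) (pfC_sound p15_22_2_31)) (pfC_sound p15_22_2_32)) (pfC_sound p15_22_2_33)) (pfC_sound p15_22_2_34)) (pfC_sound p15_22_2_35)) (pfC_sound p15_22_2_36)) (pfC_sound p15_22_2_37)) (pfC_sound p15_22_2_38)) (pfC_sound p15_22_2_39)) (pfC_sound p15_22_2_40)) (pfC_sound p15_22_2_41)) (pfC_sound p15_22_2_42)) (pfC_sound p15_22_2_43)) (pfC_sound p15_22_2_44)) (pfC_sound p15_22_2_45)) (pfC_sound p15_22_2_46)) (pfC_sound p15_22_2_47)) (pfC_sound p15_22_2_48)) (pfC_sound p15_22_2_49)) (pfC_sound p15_22_2_50)) (pfC_sound p15_22_2_51)) (pfC_sound p15_22_2_52)) (pfC_sound p15_22_2_53)) (pfC_sound p15_22_2_54)) (pfC_sound p15_22_2_55)) (pfC_sound p15_22_2_56)) (pfC_sound p15_22_2_57)) (pfC_sound p15_22_2_58)) (pfC_sound p15_22_2_59))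 (pfC_sound p15_22_2_60)) (pfC_sound p15_22_2_61)) (pfC_sound p15_22_2_62)) (pfC_sound p15_22_2_63)) (pfC_sound p15_22_2_64)) (pfC_sound p15_22_2_65)) (pfC_sound p15_22_2_66)) (pfC_sound p15_22_2_67)) (pfC_sound
 p15_22_2_68)) (pfC_sound p15_22_2_69)) (pfC_sound p15_22_2_70)) (pfC_sound p15_22_2_71)) (pfC_sound p15_22_2_72)) (pfC_sound p15_22_2_73)) (pfC_sound p15_22_2_74)) (pfC_sound p15_22_2_75)) (pfC_sound p15_22_2_76)) (pfC_sound p15_22_2_77)) (pfC_sound p15_22_2_78)) (pfC_sound p15_22_2_79)) (pfC_sound p15_22_2_80)) (pfC_sound p15_22_2_81)) (pfC_sound p15_22_2_82)) (pfC_sound p15_22_2_83)) (pfC_sound p15_22_2_84)) (pfC_sound p15_22_2_85)) (pfC_sound p15_22_2_86)) (pfC_sound p15_22_2_87)) (pfC_sound p15_22_2_88)) (pfC_sound p15_22_2_89)) (pfC_sound p15_22_2_90)) (pfC_sound p15_22_2_91)) (pfC_sound p15_22_2_92)) (pfC_sound p15_22_2_93)) (pfC_sound p15_22_2_94)) (pfC_sound p15_22_2_95)) (pfC_sound p15_22_2_96)) (pfC_sound p15_22_2_97)) (pfC_sound p15_22_2_98)) (pfC_sound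 p15_22_2_99)) (pfC_sound p15_22_2_100)) (pfC_sound p15_22_2_101)) (pfC_sound p15_22_2_102)) (pfC_sound p15_22_2_103)) (pfC_sound p15_22_2_104)) (pfC_sound p15_22_2_105)) (pfC_sound p15_22_2_106)) (pfC_sound p15_22_2_107)) (pfC_sound p15_22_2_108)) (pfC_sound p15_22_2_109)) (pfC_sound p15_22_2_110)) (pfC_sound p15_22_2_111)) (pfC_sound p15_22_2_112)) (pfC_sound p15_22_2_113)) (pfC_sound p15_22_2_114)) (pfC_sound
 p15_22_2_115)) (pfC_sound p15_22_2_116)) (pfC_sound p15_22_2_117)) (pfC_sound p15_22_2_118)) (pfC_sound p15_22_2_119)) (pfC_sound p15_22_2_120)) (pfC_sound p15_22_2_121)) (pfC_sound p15_22_2_122)) (pfC_sound p15_22_2_123)) (pfC_sound p15_22_2_124)) (pfC_sound p15_22_2_125)) (pfC_sound p15_22_2_126)) (pfC_sound p15_22_2_127)) (pfC_sound p15_22_2_128)) (pfC_sound p15_22_2_129)) (pfC_sound p15_22_2_130)) (pfC_sound p15_22_2_131)) (pfC_sound p15_22_2_132)) (pfC_sound p15_22_2_133)) (pfC_sound p15_22_2_134)) (pfC_sound p15_22_2_135)) (pfC_sound p15_22_2_136)) (pfC_sound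 p15_22_2_137)) (pfC_sound p15_22_2_138)) (pfC_sound p15_22_2_139)) (pfC_sound p15_22_2_140)) (pfC_sound p15_22_2_141)) (pfC_sound p15_22_2_142)) (pfC_sound p15_22_2_143)) (pfC_sound p15_22_2_144)) (pfC_sound p15_22_2_145)) (pfC_sound p15_22_2_146)) (pfC_sound p15_22_2_147)) (pfC_sound p15_22_2_148)) (pfC_sound p15_22_2_149)) (pfC_sound p15_22_2_150)) (pfC_sound p15_22_2_151)) (pfC_sound p15_22_2_152)) (pfC_sound p15_22_2_153)) (pfC_sound p15_22_2_154)) (pfC_sound p15_22_2_155)) (pfC_sound p15_22_2_156)) (pfC_sound p15_22_2_157)) (pfC_sound p15_22_2_158)) (pfC_sound p15_22_2_159)) (pfC_sound p15_22_2_160)) (pfC_sound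
 p15_22_2_161)) (pfC_sound p15_22_2_162)) (pfC_sound p15_22_2_163)) (pfC_sound p15_22_2_164)) (pfC_sound p15_22_2_165)) (pfC_sound p15_22_2_166)) (pfC_sound p15_22_2_167)) (pfC_sound p15_22_2_168)) (pfC_sound p15_22_2_169)) (pfC_sound p15_22_2_170)) (pfC_sound p15_22_2_171)) (pfC_sound p15_22_2_172)) (by decide +kernel)

def z15_22_2 : zOK yB15_22 (nat_lit 2) (nat_lit 600) (nat_lit 750) (nat_lit 6713858) (nat_lit 4975805) = true := by decide +kernel
def g15_22_2 : gOK yB15_22.x P15_22 (nat_lit 1423) (q15_22 :: r15_22) (nat_lit 2) (nat_lit 600) (nat_lit 3) (nat_lit 750) (nat_lit 12712500) (nat_lit 12712500) (nat_lit 12712500) (nat_lit 12712500) [(nat_lit 800), (nat_lit 1600)] = true := by decide +kernel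
def v15_22_2 : ivC P15_22 s15_22 w15_22 n15_22 (nat_lit 4) (nat_lit 4790) (nat_lit 2) (nat_lit 600) f160_1_600 f168_1_600 (nat_lit 3) (nat_lit 750) f160_1_750 f168_1_750 (nat_lit 6713858) (nat_lit 4975805) p15_22_2 = true := by decide +kernel
def p15_22_3 : PF := (PF.cons (PF.cons (PF.cons (PF.cons (PF.leaf (nat_lit 3006910) (nat_lit 19404019) (nat_lit 47704793) (nat_lit 19404019) [(nat_lit 0), (nat_lit 0), (nat_lit 0), (nat_lit 0)]) (PF.cons (PF.leaf (nat_lit 3169741) (nat_lit 290010) (nat_lit 47458434) (nat_lit 19360367) [(nat_lit 290010), (nat_lit 0), (nat_lit 0), (nat_lit 0)]) (PF.cons (PF.leaf (nat_lit 3361980) (nat_lit 314812) (nat_lit 47170858) (nat_lit 19308330) [(nat_lit 314812), (nat_lit 0), (nat_lit 0), (nat_lit 0)]) (PF.cons (PF.leaf (nat_lit 3577282) (nat_lit 336628) (nat_lit 46849996) (nat_lit 19248929) [(nat_lit 336628), (nat_lit 0), (nat_lit 0), (nat_lit 0)]) (PF.cons (PF.leaf (nat_lit 3812107) (nat_lit 356117) (nat_lit 46501500) (nat_lit 19182843) [(nat_lit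 356117), (nat_lit 0), (nat_lit 0), (nat_lit 0)]) (PF.cons (PF.leaf (nat_lit 4063772) (nat_lit 373699) (nat_lit 46129734) (nat_lit 19110579) [(nat_lit 373699), (nat_lit 0), (nat_lit 0), (nat_lit 0)]) (PF.cons (PF.leaf (nat_lit 4330094) (nat_lit 389669) (nat_lit 45738248) (nat_lit 19032547) [(nat_lit 389669), (nat_lit 0), (nat_lit 0), (nat_lit 0)]) (PF.cons (PF.leaf (nat_lit 4609223) (nat_lit 404240) (nat_lit 45330023) (nat_lit 18949102) [(nat_lit 404240), (nat_lit 0),
 (nat_lit 0), (nat_lit 0)]) (PF.cons (PF.leaf (nat_lit 4899538) (nat_lit 417577) (nat_lit 44907626) (nat_lit 18860567) [(nat_lit 417577), (nat_lit 0), (nat_lit 0), (nat_lit 0)]) (PF.cons (PF.leaf (nat_lit 5199733) (nat_lit 429807) (nat_lit 44473296) (nat_lit 18767246) [(nat_lit 429807), (nat_lit 0), (nat_lit 0), (nat_lit 0)]) (PF.cons PF.nil (PF.cons PF.nil PF.nil)))))))))))) (PF.cons (PF.cons (PF.leaf (nat_lit 3541366) (nat_lit 1281455) (nat_lit 46624353) (nat_lit 19203004) [(nat_lit 0), (nat_lit 1281455),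 (nat_lit 0), (nat_lit 0)]) (PF.cons (PF.leaf (nat_lit 3749677) (nat_lit 346039) (nat_lit 46308068) (nat_lit 19142094) [(nat_lit 346039), (nat_lit 1312610), (nat_lit 0), (nat_lit 0)]) (PF.cons (PF.leaf (nat_lit 3979728) (nat_lit 364783) (nat_lit 45962494) (nat_lit 19074059) [(nat_lit 364783), (nat_lit 1342692), (nat_lit 0), (nat_lit 0)]) (PF.cons (PF.leaf (nat_lit 4227356) (nat_lit 381626) (nat_lit 45593032) (nat_lit 18999636) [(nat_lit 381626), (nat_lit 1371263), (nat_lit 0), (nat_lit 0)]) (PF.cons (PF.leaf (nat_lit 4490024) (nat_lit 396889) (nat_lit 45203756) (nat_lit 18919367) [(nat_lit 396889), (nat_lit 1398132), (nat_lit 0), (nat_lit 0)]) (PF.cons (PF.leaf (nat_lit 4765684)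
 (nat_lit 410793) (nat_lit 44797925) (nat_lit 18833690) [(nat_lit 410793), (nat_lit 1423227), (nat_lit 0), (nat_lit 0)]) (PF.cons (PF.leaf (nat_lit 5052635) (nat_lit 423505) (nat_lit 44378249) (nat_lit 18742982) [(nat_lit 423505), (nat_lit 1446546), (nat_lit 0), (nat_lit 0)]) (PF.cons (PF.leaf (nat_lit 5349429) (nat_lit 435152) (nat_lit 43947040) (nat_lit 18647583) [(nat_lit 435152), (nat_lit 1468120), (nat_lit 0), (nat_lit 0)]) (PF.cons (PF.leaf (nat_lit 5654776) (nat_lit 445837) (nat_lit 43506302) (nat_lit 18547810) [(nat_lit 445837), (nat_lit 1488000), (nat_lit 0), (nat_lit 0)]) (PF.cons PF.nil PF.nil)))))))))) (PF.cons (PF.cons (PF.leaf (nat_lit 4150432) (nat_lit 1368584) (nat_lit 45412410) (nat_lit 18959233) [(nat_lit 0), (nat_lit 1368584), (nat_lit 0), (nat_lit 0)]) (PF.cons (PF.leaf (nat_lit 4391849) (nat_lit 388324) (nat_lit 45048803) (nat_lit 18883467) [(nat_lit 388324), (nat_lit 1394108), (nat_lit 0), (nat_lit 0)]) (PF.cons (PF.leaf (nat_lit 4649805) (nat_lit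 403076) (nat_lit 44664384) (nat_lit 18801607) [(nat_lit 403076), (nat_lit 1418334), (nat_lit 0), (nat_lit 0)]) (PF.cons (PF.leaf (nat_lit 4921236) (nat_lit 416461) (nat_lit 44263002) (nat_lit 18714234) [(nat_lit
 416461), (nat_lit 1441096), (nat_lit 0), (nat_lit 0)]) (PF.cons (PF.leaf (nat_lit 5204270) (nat_lit 428661) (nat_lit 43847691) (nat_lit 18621816) [(nat_lit 428661), (nat_lit 1462328), (nat_lit 0), (nat_lit 0)]) (PF.cons (PF.leaf (nat_lit 5497264) (nat_lit 439815) (nat_lit 43420943) (nat_lit 18524750) [(nat_lit 439815), (nat_lit 1482019), (nat_lit 0), (nat_lit 0)]) (PF.cons (PF.leaf (nat_lit 5798875) (nat_lit 450029) (nat_lit 42984865) (nat_lit 18423392) [(nat_lit 450029), (nat_lit 1500189), (nat_lit 0), (nat_lit 0)]) (PF.cons PF.nil (PF.cons PF.nil PF.nil))))))))) (PF.cons (PF.cons (PF.leaf (nat_lit 4811046) (nat_lit 1436563) (nat_lit 44119902) (nat_lit 18679221) [(nat_lit 0), (nat_lit 1436563), (nat_lit 0), (nat_lit 0)]) (PF.cons (PF.leaf (nat_lit 5076734)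 (nat_lit 421271) (nat_lit 43725265) (nat_lit 18590777) [(nat_lit 421271), (nat_lit 1457165), (nat_lit 0), (nat_lit 0)]) (PF.cons (PF.leaf (nat_lit 5355081) (nat_lit 433076) (nat_lit 43316083) (nat_lit 18497165) [(nat_lit 433076), (nat_lit 1476470), (nat_lit 0), (nat_lit 0)]) (PF.cons (PF.leaf (nat_lit 5643777) (nat_lit 443826) (nat_lit 42895193) (nat_lit 18398873) [(nat_lit 443826), (nat_lit 1494421), (nat_lit 0), (nat_lit 0)])
 (PF.cons (PF.leaf (nat_lit 5941287) (nat_lit 453641) (nat_lit 42464903) (nat_lit 18296317) [(nat_lit 453641), (nat_lit 1511008), (nat_lit 0), (nat_lit 0)]) (PF.cons (PF.leaf (nat_lit 6246351) (nat_lit 462614) (nat_lit 42027142) (nat_lit 18189860) [(nat_lit 462614), (nat_lit 1526246), (nat_lit 0), (nat_lit 0)]) (PF.cons PF.nil PF.nil))))))) (PF.cons (PF.cons (PF.leaf (nat_lit 5506331) (nat_lit 1489127) (nat_lit 42783256) (nat_lit 18369046) [(nat_lit 0), (nat_lit 1489127), (nat_lit 0), (nat_lit 0)]) (PF.cons (PF.leaf (nat_lit 5789546) (nat_lit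 447201) (nat_lit 42369763) (nat_lit 18270022) [(nat_lit 447201), (nat_lit 1505456), (nat_lit 0), (nat_lit 0)]) (PF.cons (PF.leaf (nat_lit 6082435) (nat_lit 456692) (nat_lit 41946464) (nat_lit 18166686) [(nat_lit 456692), (nat_lit 1520569), (nat_lit 0), (nat_lit 0)]) (PF.cons (PF.leaf (nat_lit 6383131) (nat_lit 465338) (nat_lit 41515498) (nat_lit 18059464) [(nat_lit 465338), (nat_lit 1534458), (nat_lit 0), (nat_lit 0)]) (PF.cons PF.nil PF.nil))))) (PF.cons (PF.cons (PF.leaf (nat_lit 6223339) (nat_lit 1528971) (nat_lit 41429406) (nat_lit 18034549) [(nat_lit 0), (nat_lit 1528971), (nat_lit 0), (nat_lit 0)]) (PF.cons (PF.leaf (nat_lit 6518787)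
 (nat_lit 467573) (nat_lit 41006280) (nat_lit 17926956) [(nat_lit 467573), (nat_lit 1541600), (nat_lit 0), (nat_lit 0)]) (PF.cons (PF.leaf (nat_lit 6821538) (nat_lit 475186) (nat_lit 40576969) (nat_lit 17815844) [(nat_lit 475186), (nat_lit 1553124), (nat_lit 0), (nat_lit 0)]) (PF.cons PF.nil PF.nil)))) (PF.cons (PF.cons (PF.leaf (nat_lit 6951950) (nat_lit 1558190) (nat_lit 40078417) (nat_lit 17681254) [(nat_lit 0), (nat_lit 1558190), (nat_lit 0), (nat_lit 0)]) (PF.cons PF.nil PF.nil)) (PF.cons PF.nil (PF.cons PF.nil PF.nil))))))))) (PF.cons (PF.cons (PF.cons (PF.leaf (nat_lit 4062193) (nat_lit 3267556) (nat_lit 44987176) (nat_lit 18854079) [(nat_lit 0), (nat_lit 0), (nat_lit 3267556), (nat_lit 0)]) (PF.cons (PF.leaf (nat_lit 4278526) (nat_lit 367808) (nat_lit 44663896) (nat_lit 18785340) [(nat_lit 367808), (nat_lit 0), (nat_lit 3291767), (nat_lit 0)]) (PF.cons (PF.leaf (nat_lit 4515471) (nat_lit 385152) (nat_lit 44313477) (nat_lit 18709404) [(nat_lit 385152), (nat_lit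 0), (nat_lit 3315625), (nat_lit 0)]) (PF.cons (PF.leaf (nat_lit 4768682) (nat_lit 400526) (nat_lit 43941503) (nat_lit 18627200) [(nat_lit 400526), (nat_lit 0), (nat_lit 3338530), (nat_lit 0)]) (PF.cons (PF.leaf
 (nat_lit 5035664) (nat_lit 414305) (nat_lit 43552084) (nat_lit 18539402) [(nat_lit 414305), (nat_lit 0), (nat_lit 3360105), (nat_lit 0)]) (PF.cons (PF.leaf (nat_lit 5314351) (nat_lit 426745) (nat_lit 43148427) (nat_lit 18446542) [(nat_lit 426745), (nat_lit 0), (nat_lit 3380115), (nat_lit 0)]) (PF.cons (PF.leaf (nat_lit 5603096) (nat_lit 438030) (nat_lit 42733142) (nat_lit 18349066) [(nat_lit 438030), (nat_lit 0), (nat_lit 3398418), (nat_lit 0)]) (PF.cons (PF.leaf (nat_lit 5900490) (nat_lit 448299) (nat_lit 42308412) (nat_lit 18247365) [(nat_lit 448299), (nat_lit 0), (nat_lit 3414937), (nat_lit 0)]) (PF.cons PF.nil (PF.cons PF.nil PF.nil)))))))))) (PF.cons (PF.cons (PF.leaf (nat_lit 4680739) (nat_lit 1415405) (nat_lit 43769702) (nat_lit 18585386) [(nat_lit 0),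 (nat_lit 1415405), (nat_lit 3338319), (nat_lit 0)]) (PF.cons (PF.leaf (nat_lit 4926923) (nat_lit 405262) (nat_lit 43406033) (nat_lit 18502711) [(nat_lit 405262), (nat_lit 1436680), (nat_lit 3358125), (nat_lit 0)]) (PF.cons (PF.leaf (nat_lit 5188461) (nat_lit 418710) (nat_lit 43023647) (nat_lit 18414146) [(nat_lit 418710), (nat_lit 1456735), (nat_lit 3376862), (nat_lit 0)]) (PF.cons (PF.leaf (nat_lit 5462329) (nat_lit 430784)
 (nat_lit 42626372) (nat_lit 18320378) [(nat_lit 430784), (nat_lit 1475455), (nat_lit 3394252), (nat_lit 0)]) (PF.cons (PF.leaf (nat_lit 5746637) (nat_lit 441693) (nat_lit 42217161) (nat_lit 18221946) [(nat_lit 441693), (nat_lit 1492802), (nat_lit 3410127), (nat_lit 0)]) (PF.cons (PF.leaf (nat_lit 6039867) (nat_lit 451588) (nat_lit 41798400) (nat_lit 18119302) [(nat_lit 451588), (nat_lit 1508777), (nat_lit 3424388), (nat_lit 0)]) (PF.cons (PF.leaf (nat_lit 6340676) (nat_lit 460585) (nat_lit 41372068) (nat_lit 18012835) [(nat_lit 460585), (nat_lit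 1523408), (nat_lit 3436987), (nat_lit 0)]) (PF.cons PF.nil (PF.cons PF.nil PF.nil))))))))) (PF.cons (PF.cons (PF.leaf (nat_lit 5342829) (nat_lit 1470172) (nat_lit 42492277) (nat_lit 18285073) [(nat_lit 0), (nat_lit 1470172), (nat_lit 3391117), (nat_lit 0)]) (PF.cons (PF.leaf (nat_lit 5610412) (nat_lit 434096) (nat_lit 42103367) (nat_lit 18190995) [(nat_lit 434096), (nat_lit 1487145), (nat_lit 3406063), (nat_lit 0)]) (PF.cons (PF.leaf (nat_lit 5889629) (nat_lit 444730) (nat_lit 41701722) (nat_lit 18092093) [(nat_lit 444730), (nat_lit 1502929), (nat_lit 3419678), (nat_lit 0)]) (PF.cons (PF.leaf (nat_lit 6178154) (nat_lit 454329) (nat_lit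
 41290086) (nat_lit 17988914) [(nat_lit 454329), (nat_lit 1517490), (nat_lit 3431842), (nat_lit 0)]) (PF.cons (PF.leaf (nat_lit 6474554) (nat_lit 463024) (nat_lit 40870651) (nat_lit 17881910) [(nat_lit 463024), (nat_lit 1530831), (nat_lit 3442490), (nat_lit 0)]) (PF.cons PF.nil (PF.cons PF.nil PF.nil))))))) (PF.cons (PF.cons (PF.leaf (nat_lit 6033179) (nat_lit 1511870) (nat_lit 41186488) (nat_lit 17959486) [(nat_lit 0), (nat_lit 1511870), (nat_lit 3427225), (nat_lit 0)]) (PF.cons (PF.leaf (nat_lit 6315919) (nat_lit 456524) (nat_lit 40783294) (nat_lit 17856234) [(nat_lit 456524), (nat_lit 1525107), (nat_lit 3437438), (nat_lit 0)]) (PF.cons (PF.leaf (nat_lit 6607431) (nat_lit 464984) (nat_lit 40371764) (nat_lit 17749077) [(nat_lit 464984), (nat_lit 1537242), (nat_lit 3446273), (nat_lit 0)]) (PF.cons (PF.leaf (nat_lit 6905910) (nat_lit 472628) (nat_lit 39953922) (nat_lit 17638467) [(nat_lit 472628), (nat_lit 1548281), (nat_lit 3453692), (nat_lit 0)]) (PF.cons PF.nil PF.nil)))))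 (PF.cons (PF.cons (PF.leaf (nat_lit 6740261) (nat_lit 1542715) (nat_lit 39875151) (nat_lit 17614351) [(nat_lit 0), (nat_lit 1542715), (nat_lit 3448448), (nat_lit 0)]) (PF.cons (PF.leaf (nat_lit 7033308)
 (nat_lit 473920) (nat_lit 39465779) (nat_lit 17503931) [(nat_lit 473920), (nat_lit 1552719), (nat_lit 3454301), (nat_lit 0)]) (PF.cons PF.nil (PF.cons PF.nil PF.nil)))) (PF.cons (PF.cons (PF.leaf (nat_lit 7455175) (nat_lit 1564469) (nat_lit 38574930) (nat_lit 17254833) [(nat_lit 0), (nat_lit 1564469), (nat_lit 3456699), (nat_lit 0)]) (PF.cons PF.nil PF.nil)) (PF.cons PF.nil (PF.cons PF.nil PF.nil)))))))) (PF.cons (PF.cons (PF.cons (PF.leaf (nat_lit 5199040) (nat_lit 3371773) (nat_lit 42171836) (nat_lit 18193430) [(nat_lit 0), (nat_lit 0), (nat_lit 3371773), (nat_lit 0)]) (PF.cons (PF.leaf (nat_lit 5448090) (nat_lit 418432) (nat_lit 41812385) (nat_lit 18105519) [(nat_lit 418432), (nat_lit 0), (nat_lit 3386238), (nat_lit 0)]) (PF.cons (PF.leaf (nat_lit 5711459) (nat_lit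 430738) (nat_lit 41436053) (nat_lit 18011970) [(nat_lit 430738), (nat_lit 0), (nat_lit 3399655), (nat_lit 0)]) (PF.cons (PF.leaf (nat_lit 5986164) (nat_lit 441676) (nat_lit 41046589) (nat_lit 17913550) [(nat_lit 441676), (nat_lit 0), (nat_lit 3411822), (nat_lit 0)]) (PF.cons (PF.leaf (nat_lit 6270358) (nat_lit 451470) (nat_lit 40646845) (nat_lit 17810852) [(nat_lit 451470), (nat_lit 0), (nat_lit 3422617), (nat_lit
 0)]) (PF.cons (PF.leaf (nat_lit 6562503) (nat_lit 460282) (nat_lit 40239085) (nat_lit 17704359) [(nat_lit 460282), (nat_lit 0), (nat_lit 3431977), (nat_lit 0)]) (PF.cons PF.nil (PF.cons PF.nil (PF.cons PF.nil PF.nil))))))))) (PF.cons (PF.cons (PF.leaf (nat_lit 5858840) (nat_lit 1493481) (nat_lit 40921603) (nat_lit 17878524) [(nat_lit 0), (nat_lit 1493481), (nat_lit 3407601), (nat_lit 0)]) (PF.cons (PF.leaf (nat_lit 6126904) (nat_lit 443773) (nat_lit 40541557) (nat_lit 17780440) [(nat_lit 443773), (nat_lit 1507439), (nat_lit 3417801), (nat_lit 0)]) (PF.cons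 (PF.leaf (nat_lit 6405645) (nat_lit 453388) (nat_lit 40150305) (nat_lit 17677881) [(nat_lit 453388), (nat_lit 1520297), (nat_lit 3426775), (nat_lit 0)]) (PF.cons (PF.leaf (nat_lit 6692849) (nat_lit 461990) (nat_lit 39750478) (nat_lit 17571431) [(nat_lit 461990), (nat_lit 1532042), (nat_lit 3434443), (nat_lit 0)]) (PF.cons (PF.leaf (nat_lit 6987109) (nat_lit 469719) (nat_lit 39344148) (nat_lit 17461567) [(nat_lit 469719), (nat_lit 1542685), (nat_lit 3440766), (nat_lit 0)]) (PF.cons PF.nil (PF.cons PF.nil PF.nil))))))) (PF.cons (PF.cons (PF.leaf (nat_lit 6541667) (nat_lit 1526251) (nat_lit 39654938) (nat_lit 17542755) [(nat_lit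
 0), (nat_lit 1526251), (nat_lit 3429307), (nat_lit 0)]) (PF.cons (PF.leaf (nat_lit 6822876) (nat_lit 463224) (nat_lit 39264184) (nat_lit 17436778) [(nat_lit 463224), (nat_lit 1536907), (nat_lit 3435405), (nat_lit 0)]) (PF.cons (PF.leaf (nat_lit 7112075) (nat_lit 470789) (nat_lit 38866303) (nat_lit 17327276) [(nat_lit 470789), (nat_lit 1546559), (nat_lit 3440267), (nat_lit 0)]) (PF.cons PF.nil (PF.cons PF.nil PF.nil))))) (PF.cons (PF.cons (PF.leaf (nat_lit 7237172) (nat_lit 1549664) (nat_lit 38391301) (nat_lit 17191595) [(nat_lit 0), (nat_lit 1549664), (nat_lit 3438460), (nat_lit 0)]) (PF.cons (PF.leaf (nat_lit 7527093) (nat_lit 478089) (nat_lit 37996999) (nat_lit 17079679) [(nat_lit 478089), (nat_lit 1557475), (nat_lit 3440809), (nat_lit 0)]) (PF.cons PF.nil (PF.cons PF.nil PF.nil)))) (PF.cons (PF.cons (PF.leaf (nat_lit 7937497) (nat_lit 1565244) (nat_lit 37144618) (nat_lit 16829796) [(nat_lit 0), (nat_lit 1565244), (nat_lit 3436710), (nat_lit 0)]) (PF.cons PF.nil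 PF.nil)) (PF.cons PF.nil PF.nil)))))) (PF.cons (PF.cons (PF.cons (PF.leaf (nat_lit 6358410) (nat_lit 3409785) (nat_lit 39414087) (nat_lit 17465369) [(nat_lit 0), (nat_lit 0), (nat_lit 3409785), (nat_lit 0)]) (PF.cons
 (PF.leaf (nat_lit 6625782) (nat_lit 450871) (nat_lit 39045024) (nat_lit 17364662) [(nat_lit 450871), (nat_lit 0), (nat_lit 3416084), (nat_lit 0)]) (PF.cons (PF.leaf (nat_lit 6903057) (nat_lit 459591) (nat_lit 38666053) (nat_lit 17259819) [(nat_lit 459591), (nat_lit 0), (nat_lit 3421252), (nat_lit 0)]) (PF.cons (PF.leaf (nat_lit 7188042) (nat_lit 467323) (nat_lit 38279679) (nat_lit 17151448) [(nat_lit 467323), (nat_lit 0), (nat_lit 3425238), (nat_lit 0)]) (PF.cons (PF.leaf (nat_lit 7479366) (nat_lit 474212) (nat_lit 37887858) (nat_lit 17040037) [(nat_lit 474212), (nat_lit 0), (nat_lit 3428022), (nat_lit 0)]) PF.nil))))) (PF.cons (PF.cons (PF.leaf (nat_lit 7031779) (nat_lit 1533894) (nat_lit 38191785) (nat_lit 17123768) [(nat_lit 0), (nat_lit 1533894), (nat_lit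 3419788), (nat_lit 0)]) (PF.cons (PF.leaf (nat_lit 7310646) (nat_lit 467767) (nat_lit 37814817) (nat_lit 17016312) [(nat_lit 467767), (nat_lit 1542380), (nat_lit 3422511), (nat_lit 0)]) (PF.cons (PF.leaf (nat_lit 7596809) (nat_lit 474552) (nat_lit 37431716) (nat_lit 16905679) [(nat_lit 474552), (nat_lit 1549948), (nat_lit 3424121), (nat_lit 0)]) (PF.cons PF.nil PF.nil)))) (PF.cons (PF.cons (PF.leaf (nat_lit 7714571) (nat_lit
 1551133) (nat_lit 36978753) (nat_lit 16770337) [(nat_lit 0), (nat_lit 1551133), (nat_lit 3419151), (nat_lit 0)]) (PF.cons (PF.leaf (nat_lit 8000809) (nat_lit 480468) (nat_lit 36600224) (nat_lit 16658004) [(nat_lit 480468), (nat_lit 1557101), (nat_lit 3418637), (nat_lit 0)]) PF.nil)) (PF.cons PF.nil (PF.cons PF.nil PF.nil))))) (PF.cons (PF.cons (PF.cons (PF.leaf (nat_lit 7503796) (nat_lit 3401096) (nat_lit 36798010) (nat_lit 16706414) [(nat_lit 0), (nat_lit 0), (nat_lit 3401096), (nat_lit 0)]) (PF.cons (PF.leaf (nat_lit 7779671) (nat_lit 470531)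 (nat_lit 36435586) (nat_lit 16598495) [(nat_lit 470531), (nat_lit 0), (nat_lit 3401049), (nat_lit 0)]) (PF.cons (PF.leaf (nat_lit 8062308) (nat_lit 476632) (nat_lit 36067849) (nat_lit 16487713) [(nat_lit 476632), (nat_lit 0), (nat_lit 3399996), (nat_lit 0)]) (PF.cons PF.nil PF.nil)))) (PF.cons (PF.cons (PF.leaf (nat_lit 8173111) (nat_lit 1548176) (nat_lit 35636838) (nat_lit 16353721) [(nat_lit 0), (nat_lit 1548176), (nat_lit 3392519), (nat_lit 0)]) (PF.cons PF.nil PF.nil)) (PF.cons PF.nil PF.nil))) (PF.cons (PF.cons (PF.cons (PF.leaf (nat_lit 8613587) (nat_lit 3360170) (nat_lit 34363825) (nat_lit 15944133) [(nat_lit 0), (nat_lit 0),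
 (nat_lit 3360170), (nat_lit 0)]) (PF.cons PF.nil PF.nil)) (PF.cons PF.nil PF.nil)) (PF.cons PF.nil (PF.cons PF.nil PF.nil)))))))) (PF.cons (PF.cons (PF.cons (PF.cons (PF.leaf (nat_lit 4916225) (nat_lit 8473516) (nat_lit 40861021) (nat_lit 17774275) [(nat_lit 0), (nat_lit 0), (nat_lit 0), (nat_lit 8473516)]) (PF.cons (PF.leaf (nat_lit 5130016) (nat_lit 375620) (nat_lit 40568612) (nat_lit 17700859) [(nat_lit 375620), (nat_lit 0), (nat_lit 0), (nat_lit 8463720)]) (PF.cons (PF.leaf (nat_lit 5362954) (nat_lit 391766) (nat_lit 40252899) (nat_lit 17620525) [(nat_lit 391766), (nat_lit 0), (nat_lit 0), (nat_lit 8451854)]) (PF.cons (PF.leaf (nat_lit 5610755) (nat_lit 405830) (nat_lit 39919035) (nat_lit 17534383) [(nat_lit 405830), (nat_lit 0), (nat_lit 0), (nat_lit 8437902)]) (PF.cons (PF.leaf (nat_lit 5870833) (nat_lit 418235) (nat_lit 39570768) (nat_lit 17443239) [(nat_lit 418235), (nat_lit 0), (nat_lit 0), (nat_lit 8421864)]) (PF.cons (PF.leaf (nat_lit 6141208) (nat_lit 429271)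 (nat_lit 39210984) (nat_lit 17347717) [(nat_lit 429271), (nat_lit 0), (nat_lit 0), (nat_lit 8403754)]) (PF.cons (PF.leaf (nat_lit 6420284) (nat_lit 439147) (nat_lit 38841997) (nat_lit 17248327) [(nat_lit 439147),
 (nat_lit 0), (nat_lit 0), (nat_lit 8383603)]) (PF.cons (PF.leaf (nat_lit 6706737) (nat_lit 448020) (nat_lit 38465713) (nat_lit 17145501) [(nat_lit 448020), (nat_lit 0), (nat_lit 0), (nat_lit 8361453)]) (PF.cons PF.nil (PF.cons PF.nil PF.nil)))))))))) (PF.cons (PF.cons (PF.leaf (nat_lit 5514816) (nat_lit 1420189) (nat_lit 39769884) (nat_lit 17492607) [(nat_lit 0), (nat_lit 1420189), (nat_lit 0), (nat_lit 8426130)]) (PF.cons (PF.leaf (nat_lit 5754973) (nat_lit 408780) (nat_lit 39444881) (nat_lit 17407078) [(nat_lit 408780), (nat_lit 1437363), (nat_lit 0), (nat_lit 8410708)]) (PF.cons (PF.leaf (nat_lit 6009129) (nat_lit 420953) (nat_lit 39104213) (nat_lit 17316219) [(nat_lit 420953), (nat_lit 1453289), (nat_lit 0), (nat_lit 8393183)]) (PF.cons (PF.leaf (nat_lit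 6274285) (nat_lit 431720) (nat_lit 38751318) (nat_lit 17220810) [(nat_lit 431720), (nat_lit 1467917), (nat_lit 0), (nat_lit 8373605)]) (PF.cons (PF.leaf (nat_lit 6548619) (nat_lit 441314) (nat_lit 38388820) (nat_lit 17121452) [(nat_lit 441314), (nat_lit 1481253), (nat_lit 0), (nat_lit 8352027)]) (PF.cons (PF.leaf (nat_lit 6830663) (nat_lit 449906) (nat_lit 38018806) (nat_lit 17018633) [(nat_lit 449906), (nat_lit 1493335),
 (nat_lit 0), (nat_lit 8328505)]) (PF.cons (PF.leaf (nat_lit 7119193) (nat_lit 457624) (nat_lit 37642986) (nat_lit 16912765) [(nat_lit 457624), (nat_lit 1504210), (nat_lit 0), (nat_lit 8303106)]) (PF.cons PF.nil (PF.cons PF.nil PF.nil))))))))) (PF.cons (PF.cons (PF.leaf (nat_lit 6149095) (nat_lit 1461800) (nat_lit 38636397) (nat_lit 17186632) [(nat_lit 0), (nat_lit 1461800), (nat_lit 0), (nat_lit 8362182)]) (PF.cons (PF.leaf (nat_lit 6407667) (nat_lit 433552) (nat_lit 38291969) (nat_lit 17091864) [(nat_lit 433552), (nat_lit 1475030), (nat_lit 0), (nat_lit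 8341366)]) (PF.cons (PF.leaf (nat_lit 6676676) (nat_lit 442961) (nat_lit 37937117) (nat_lit 16992952) [(nat_lit 442961), (nat_lit 1487130), (nat_lit 0), (nat_lit 8318559)]) (PF.cons (PF.leaf (nat_lit 6953871) (nat_lit 451343) (nat_lit 37574250) (nat_lit 16890477) [(nat_lit 451343), (nat_lit 1498105), (nat_lit 0), (nat_lit 8293844)]) (PF.cons (PF.leaf (nat_lit 7237893) (nat_lit 458842) (nat_lit 37205270) (nat_lit 16784911) [(nat_lit 458842), (nat_lit 1507981), (nat_lit 0), (nat_lit 8267299)]) (PF.cons PF.nil (PF.cons PF.nil PF.nil))))))) (PF.cons (PF.cons (PF.leaf (nat_lit 6805535) (nat_lit 1492115) (nat_lit 37486464) (nat_lit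
 16862754) [(nat_lit 0), (nat_lit 1492115), (nat_lit 0), (nat_lit 8283248)]) (PF.cons (PF.leaf (nat_lit 7076856) (nat_lit 452328) (nat_lit 37131770) (nat_lit 16761011) [(nat_lit 452328), (nat_lit 1502057), (nat_lit 0), (nat_lit 8257529)]) (PF.cons (PF.leaf (nat_lit 7355957) (nat_lit 459670) (nat_lit 36770397) (nat_lit 16656059) [(nat_lit 459670), (nat_lit 1511002), (nat_lit 0), (nat_lit 8230006)]) (PF.cons (PF.leaf (nat_lit 7641103) (nat_lit 466226) (nat_lit 36404085) (nat_lit 16548351) [(nat_lit 466226), (nat_lit 1518973), (nat_lit 0), (nat_lit 8200775)]) (PF.cons PF.nil PF.nil))))) (PF.cons (PF.cons (PF.leaf (nat_lit 7474296) (nat_lit 1513328) (nat_lit 36338047) (nat_lit 16526174) [(nat_lit 0), (nat_lit 1513328), (nat_lit 0), (nat_lit 8191275)]) (PF.cons (PF.leaf (nat_lit 7754074) (nat_lit 466540) (nat_lit 35979651) (nat_lit 16419314) [(nat_lit 466540), (nat_lit 1520510), (nat_lit 0), (nat_lit 8161264)]) (PF.cons PF.nil (PF.cons PF.nil PF.nil)))) (PF.cons (PF.cons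 (PF.leaf (nat_lit 8147977) (nat_lit 1527088) (nat_lit 35203832) (nat_lit 16181225) [(nat_lit 0), (nat_lit 1527088), (nat_lit 0), (nat_lit 8088314)]) (PF.cons PF.nil PF.nil)) PF.nil)))))) (PF.cons (PF.cons (PF.cons
 (PF.leaf (nat_lit 5994700) (nat_lit 3312682) (nat_lit 38368066) (nat_lit 17101008) [(nat_lit 0), (nat_lit 0), (nat_lit 3312682), (nat_lit 8327055)]) (PF.cons (PF.leaf (nat_lit 6236142) (nat_lit 417983) (nat_lit 38049449) (nat_lit 17012734) [(nat_lit 417983), (nat_lit 0), (nat_lit 3321129), (nat_lit 8307516)]) (PF.cons (PF.leaf (nat_lit 6490687) (nat_lit 429143) (nat_lit 37716642) (nat_lit 16919415) [(nat_lit 429143), (nat_lit 0), (nat_lit 3328564), (nat_lit 8285903)]) (PF.cons (PF.leaf (nat_lit 6755412) (nat_lit 438924) (nat_lit 37372973) (nat_lit 16821867) [(nat_lit 438924), (nat_lit 0), (nat_lit 3334869), (nat_lit 8262328)]) (PF.cons (PF.leaf (nat_lit 7028525) (nat_lit 447570) (nat_lit 37020947) (nat_lit 16720711) [(nat_lit 447570), (nat_lit 0), (nat_lit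 3339985), (nat_lit 8236886)]) (PF.cons (PF.leaf (nat_lit 7308600) (nat_lit 455255) (nat_lit 36662533) (nat_lit 16616446) [(nat_lit 455255), (nat_lit 0), (nat_lit 3343888), (nat_lit 8209666)]) (PF.cons PF.nil PF.nil))))))) (PF.cons (PF.cons (PF.leaf (nat_lit 6624143) (nat_lit 1473929) (nat_lit 37266298) (nat_lit 16788665) [(nat_lit 0), (nat_lit 1473929), (nat_lit 3329556), (nat_lit 8250363)]) (PF.cons (PF.leaf (nat_lit 6882089)
 (nat_lit 439830) (nat_lit 36931642) (nat_lit 16692194) [(nat_lit 439830), (nat_lit 1484775), (nat_lit 3334442), (nat_lit 8225926)]) (PF.cons (PF.leaf (nat_lit 7149692) (nat_lit 448371) (nat_lit 36587729) (nat_lit 16591891) [(nat_lit 448371), (nat_lit 1494586), (nat_lit 3338250), (nat_lit 8199613)]) (PF.cons (PF.leaf (nat_lit 7424802) (nat_lit 455918) (nat_lit 36236850) (nat_lit 16488351) [(nat_lit 455918), (nat_lit 1503374), (nat_lit 3340944), (nat_lit 8171538)]) (PF.cons (PF.leaf (nat_lit 7706092) (nat_lit 462618) (nat_lit 35880796) (nat_lit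 16382047) [(nat_lit 462618), (nat_lit 1511173), (nat_lit 3342517), (nat_lit 8141804)]) PF.nil))))) (PF.cons (PF.cons (PF.leaf (nat_lit 7271856) (nat_lit 1497396) (nat_lit 36156076) (nat_lit 16461770) [(nat_lit 0), (nat_lit 1497396), (nat_lit 3335348), (nat_lit 8160823)]) (PF.cons (PF.leaf (nat_lit 7540989) (nat_lit 456183) (nat_lit 35813639) (nat_lit 16359311) [(nat_lit 456183), (nat_lit 1505339), (nat_lit 3336930), (nat_lit 8132069)]) (PF.cons (PF.leaf (nat_lit 7817288) (nat_lit 462785) (nat_lit 35465406) (nat_lit 16253950) [(nat_lit 462785), (nat_lit 1512374), (nat_lit 3337472), (nat_lit 8101663)]) (PF.cons PF.nil PF.nil)))) (PF.cons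
 (PF.cons (PF.leaf (nat_lit 7928945) (nat_lit 1513004) (nat_lit 35052796) (nat_lit 16125138) [(nat_lit 0), (nat_lit 1513004), (nat_lit 3331502), (nat_lit 8060362)]) (PF.cons (PF.leaf (nat_lit 8205339) (nat_lit 468379) (nat_lit 34708395) (nat_lit 16018454) [(nat_lit 468379), (nat_lit 1518511), (nat_lit 3330133), (nat_lit 8027914)]) PF.nil)) (PF.cons PF.nil PF.nil))))) (PF.cons (PF.cons (PF.cons (PF.leaf (nat_lit 7084009) (nat_lit 3316124) (nat_lit 35955987) (nat_lit 16391836) [(nat_lit 0), (nat_lit 0), (nat_lit 3316124), (nat_lit 8128740)]) (PF.cons (PF.leaf (nat_lit 7340532) (nat_lit 444182) (nat_lit 35632225) (nat_lit 16294581) [(nat_lit 444182), (nat_lit 0), (nat_lit 3318190), (nat_lit 8101442)]) (PF.cons (PF.leaf (nat_lit 7606071) (nat_lit 451962) (nat_lit 35300198) (nat_lit 16193785) [(nat_lit 451962), (nat_lit 0), (nat_lit 3319261), (nat_lit 8072381)]) (PF.cons (PF.leaf (nat_lit 7878503) (nat_lit 458779) (nat_lit 34962081) (nat_lit 16090047) [(nat_lit 458779),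 (nat_lit 0), (nat_lit 3319324), (nat_lit 8041698)]) (PF.cons PF.nil PF.nil))))) (PF.cons (PF.cons (PF.leaf (nat_lit 7721812) (nat_lit 1497918) (nat_lit 34887846) (nat_lit 16064703) [(nat_lit 0), (nat_lit 1497918),
 (nat_lit 3313653), (nat_lit 8031037)]) (PF.cons (PF.leaf (nat_lit 7988224) (nat_lit 458454) (nat_lit 34558255) (nat_lit 15962323) [(nat_lit 458454), (nat_lit 1504175), (nat_lit 3312829), (nat_lit 7999944)]) (PF.cons (PF.leaf (nat_lit 8261267) (nat_lit 464408) (nat_lit 34223602) (nat_lit 15857315) [(nat_lit 464408), (nat_lit 1509603), (nat_lit 3311066), (nat_lit 7967341)]) (PF.cons PF.nil PF.nil)))) (PF.cons (PF.cons (PF.leaf (nat_lit 8366610) (nat_lit 1508856) (nat_lit 33830553) (nat_lit 15730329) [(nat_lit 0), (nat_lit 1508856), (nat_lit 3302989), (nat_lit 7924237)]) (PF.cons PF.nil PF.nil)) PF.nil))) (PF.cons (PF.cons (PF.cons (PF.leaf (nat_lit 8155851) (nat_lit 3285970) (nat_lit 33680947) (nat_lit 15673774) [(nat_lit 0), (nat_lit 0), (nat_lit 3285970),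 (nat_lit 7896181)]) (PF.cons (PF.leaf (nat_lit 8419130) (nat_lit 459416) (nat_lit 33364446) (nat_lit 15572108) [(nat_lit 459416), (nat_lit 0), (nat_lit 3283170), (nat_lit 7863329)]) (PF.cons PF.nil PF.nil))) (PF.cons (PF.cons (PF.leaf (nat_lit 8787964) (nat_lit 1501625) (nat_lit 32669558) (nat_lit 15343468) [(nat_lit 0), (nat_lit 1501625), (nat_lit 3269783), (nat_lit 7784810)]) PF.nil) PF.nil)) (PF.cons PF.nil (PF.cons PF.nil
 PF.nil)))))) (PF.cons (PF.cons (PF.cons (PF.cons (PF.leaf (nat_lit 6707710) (nat_lit 7970446) (nat_lit 35096712) (nat_lit 16071206) [(nat_lit 0), (nat_lit 0), (nat_lit 0), (nat_lit 7970446)]) (PF.cons (PF.leaf (nat_lit 6940977) (nat_lit 413235) (nat_lit 34815221) (nat_lit 15985880) [(nat_lit 413235), (nat_lit 0), (nat_lit 0), (nat_lit 7947238)]) (PF.cons (PF.leaf (nat_lit 7186372) (nat_lit 423447) (nat_lit 34521643) (nat_lit 15896048) [(nat_lit 423447), (nat_lit 0), (nat_lit 0), (nat_lit 7922112)]) (PF.cons (PF.leaf (nat_lit 7441032) (nat_lit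 432297) (nat_lit 34218912) (nat_lit 15802521) [(nat_lit 432297), (nat_lit 0), (nat_lit 0), (nat_lit 7895244)]) (PF.cons (PF.leaf (nat_lit 7703237) (nat_lit 440034) (nat_lit 33909218) (nat_lit 15705911) [(nat_lit 440034), (nat_lit 0), (nat_lit 0), (nat_lit 7866771)]) (PF.cons (PF.leaf (nat_lit 7971645) (nat_lit 446842) (nat_lit 33594269) (nat_lit 15606703) [(nat_lit 446842), (nat_lit 0), (nat_lit 0), (nat_lit 7836813)]) (PF.cons PF.nil PF.nil))))))) (PF.cons (PF.cons (PF.leaf (nat_lit 7308056) (nat_lit 1442918) (nat_lit 34127773) (nat_lit 15771860) [(nat_lit 0), (nat_lit 1442918), (nat_lit 0), (nat_lit 7883130)]) (PF.cons (PF.leaf (nat_lit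
 7555955) (nat_lit 432383) (nat_lit 33833329) (nat_lit 15679791) [(nat_lit 432383), (nat_lit 1451518), (nat_lit 0), (nat_lit 7855894)]) (PF.cons (PF.leaf (nat_lit 7812711) (nat_lit 440073) (nat_lit 33531074) (nat_lit 15584403) [(nat_lit 440073), (nat_lit 1459148), (nat_lit 0), (nat_lit 7827018)]) (PF.cons (PF.leaf (nat_lit 8076239) (nat_lit 446798) (nat_lit 33223005) (nat_lit 15486271) [(nat_lit 446798), (nat_lit 1465841), (nat_lit 0), (nat_lit 7796650)]) (PF.cons PF.nil PF.nil))))) (PF.cons (PF.cons (PF.leaf (nat_lit 7923405) (nat_lit 1459888) (nat_lit 33154501) (nat_lit 15462099) [(nat_lit 0), (nat_lit 1459888), (nat_lit 0), (nat_lit 7786217)]) (PF.cons (PF.leaf (nat_lit 8181064) (nat_lit 446413) (nat_lit 32854053) (nat_lit 15365346) [(nat_lit 446413), (nat_lit 1465913), (nat_lit 0), (nat_lit 7755586)]) (PF.cons (PF.leaf (nat_lit 8445259) (nat_lit 452273) (nat_lit 32548749) (nat_lit 15266149) [(nat_lit 452273), (nat_lit 1471113), (nat_lit 0), (nat_lit 7723570)]) (PF.cons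 PF.nil PF.nil)))) (PF.cons (PF.cons (PF.leaf (nat_lit 8545963) (nat_lit 1470152) (nat_lit 32189325) (nat_lit 15146115) [(nat_lit 0), (nat_lit 1470152), (nat_lit 0), (nat_lit 7681457)]) (PF.cons PF.nil PF.nil))
 (PF.cons PF.nil PF.nil))))) (PF.cons (PF.cons (PF.cons (PF.leaf (nat_lit 7734051) (nat_lit 3209099) (nat_lit 32987423) (nat_lit 15399813) [(nat_lit 0), (nat_lit 0), (nat_lit 3209099), (nat_lit 7756238)]) (PF.cons (PF.leaf (nat_lit 7980140) (nat_lit 434888) (nat_lit 32703039) (nat_lit 15307988) [(nat_lit 434888), (nat_lit 0), (nat_lit 3208450), (nat_lit 7727222)]) (PF.cons (PF.leaf (nat_lit 8234529) (nat_lit 441921) (nat_lit 32411622) (nat_lit 15213091) [(nat_lit 441921), (nat_lit 0), (nat_lit 3206918), (nat_lit 7696668)]) (PF.cons (PF.leaf (nat_lit 8495202) (nat_lit 448023) (nat_lit 32115064) (nat_lit 15115692) [(nat_lit 448023), (nat_lit 0), (nat_lit 3204511), (nat_lit 7664736)]) (PF.cons PF.nil PF.nil))))) (PF.cons (PF.cons (PF.leaf (nat_lit 8339589) (nat_lit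 1455938) (nat_lit 32052080) (nat_lit 15092804) [(nat_lit 0), (nat_lit 1455938), (nat_lit 3198891), (nat_lit 7654548)]) (PF.cons (PF.leaf (nat_lit 8594402) (nat_lit 447189) (nat_lit 31763108) (nat_lit 14996955) [(nat_lit 447189), (nat_lit 1460625), (nat_lit 3195855), (nat_lit 7622539)]) (PF.cons PF.nil (PF.cons PF.nil PF.nil)))) (PF.cons (PF.cons (PF.leaf (nat_lit 8950542) (nat_lit 1462591) (nat_lit 31127384) (nat_lit
 14781350) [(nat_lit 0), (nat_lit 1462591), (nat_lit 3182219), (nat_lit 7546337)]) (PF.cons PF.nil PF.nil)) PF.nil))) (PF.cons (PF.cons (PF.cons (PF.leaf (nat_lit 8741759) (nat_lit 3166442) (nat_lit 31002661) (nat_lit 14731644) [(nat_lit 0), (nat_lit 0), (nat_lit 3166442), (nat_lit 7520810)]) (PF.cons (PF.leaf (nat_lit 8993424) (nat_lit 446979) (nat_lit 30725165) (nat_lit 14637098) [(nat_lit 446979), (nat_lit 0), (nat_lit 3161967), (nat_lit 7487817)]) PF.nil)) (PF.cons PF.nil PF.nil)) (PF.cons PF.nil (PF.cons PF.nil PF.nil))))) (PF.cons (PF.cons (PF.cons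 (PF.cons (PF.leaf (nat_lit 8322936) (nat_lit 7396365) (nat_lit 30426214) (nat_lit 14493503) [(nat_lit 0), (nat_lit 0), (nat_lit 0), (nat_lit 7396365)]) (PF.cons (PF.leaf (nat_lit 8559164) (nat_lit 424224) (nat_lit 30175551) (nat_lit 14407842) [(nat_lit 424224), (nat_lit 0), (nat_lit 0), (nat_lit 7367065)]) (PF.cons (PF.leaf (nat_lit 8803173) (nat_lit 430649) (nat_lit 29918811) (nat_lit 14319484) [(nat_lit 430649), (nat_lit 0), (nat_lit 0), (nat_lit 7336406)]) (PF.cons PF.nil (PF.cons PF.nil PF.nil))))) (PF.cons (PF.cons (PF.leaf (nat_lit 8899312) (nat_lit 1411440) (nat_lit 29603891) (nat_lit 14208426) [(nat_lit 0), (nat_lit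
 1411440), (nat_lit 0), (nat_lit 7295018)]) (PF.cons (PF.leaf (nat_lit 9143402) (nat_lit 435007) (nat_lit 29349423) (nat_lit 14119504) [(nat_lit 435007), (nat_lit 1414997), (nat_lit 0), (nat_lit 7263293)]) (PF.cons PF.nil (PF.cons PF.nil PF.nil)))) (PF.cons (PF.cons (PF.leaf (nat_lit 9480053) (nat_lit 1415134) (nat_lit 28791289) (nat_lit 13920617) [(nat_lit 0), (nat_lit 1415134), (nat_lit 0), (nat_lit 7188878)]) (PF.cons PF.nil PF.nil)) PF.nil))) (PF.cons (PF.cons (PF.cons (PF.leaf (nat_lit 9274436) (nat_lit 3047735) (nat_lit 28686512) (nat_lit 13877013) [(nat_lit 0), (nat_lit 0), (nat_lit 3047735), (nat_lit 7165850)]) (PF.cons (PF.leaf (nat_lit 9515440) (nat_lit 434033) (nat_lit 28441989) (nat_lit 13789655) [(nat_lit 434033), (nat_lit 0), (nat_lit 3042263), (nat_lit 7133623)]) PF.nil)) (PF.cons PF.nil PF.nil)) (PF.cons PF.nil PF.nil))) (PF.cons (PF.cons (PF.cons (PF.cons (PF.leaf (nat_lit 9763561) (nat_lit 6833934) (nat_lit 26669898) (nat_lit 13103177) [(nat_lit 0),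 (nat_lit 0), (nat_lit 0), (nat_lit 6833934)]) (PF.cons PF.nil PF.nil)) (PF.cons PF.nil PF.nil)) (PF.cons PF.nil PF.nil)) (PF.cons PF.nil (PF.cons PF.nil (PF.cons PF.nil PF.nil))))))))

def p15_22_3_0 : pfC (piC [(nat_lit 38632330), (nat_lit 25257288), (nat_lit 18773175), (nat_lit 12658484)] (nat_lit 4975805)) p15_22_3 (nat_lit 4) (nat_lit 0) (nat_lit 1) = true := by decide +kernel
def p15_22_3_1 : pfC (piC [(nat_lit 38632330), (nat_lit 25257288), (nat_lit 18773175), (nat_lit 12658484)] (nat_lit 4975805)) p15_22_3 (nat_lit 4) (nat_lit 1) (nat_lit 2) = true := by decide +kernel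
def p15_22_3_2 : pfC (piC [(nat_lit 38632330), (nat_lit 25257288), (nat_lit 18773175), (nat_lit 12658484)] (nat_lit 4975805)) p15_22_3 (nat_lit 4) (nat_lit 2) (nat_lit 3) = true := by decide +kernel
def p15_22_3_3 : pfC (piC [(nat_lit 38632330), (nat_lit 25257288), (nat_lit 18773175), (nat_lit 12658484)] (nat_lit 4975805)) p15_22_3 (nat_lit 4) (nat_lit 3) (nat_lit 4) = true := by decide +kernel
def p15_22_3_4 : pfC (piC [(nat_lit 38632330), (nat_lit 25257288), (nat_lit 18773175), (nat_lit 12658484)] (nat_lit 4975805)) p15_22_3 (nat_lit 4) (nat_lit 4) (nat_lit 5) = true := by decide +kernel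
def p15_22_3_5 : pfC (piC [(nat_lit 38632330), (nat_lit 25257288), (nat_lit 18773175), (nat_lit 12658484)] (nat_lit 4975805)) p15_22_3 (nat_lit 4) (nat_lit 5) (nat_lit 6) = true := by decide +kernel
def p15_22_3_6 : pfC (piC [(nat_lit 38632330), (nat_lit 25257288), (nat_lit 18773175), (nat_lit 12658484)] (nat_lit 4975805)) p15_22_3 (nat_lit 4) (nat_lit 6) (nat_lit 7) = true := by decide +kernel
def p15_22_3_7 : pfC (piC [(nat_lit 38632330), (nat_lit 25257288), (nat_lit 18773175), (nat_lit 12658484)] (nat_lit 4975805)) p15_22_3 (nat_lit 4) (nat_lit 7) (nat_lit 8) = true := by decide +kernel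
def p15_22_3_8 : pfC (piC [(nat_lit 38632330), (nat_lit 25257288), (nat_lit 18773175), (nat_lit 12658484)] (nat_lit 4975805)) p15_22_3 (nat_lit 4) (nat_lit 8) (nat_lit 9) = true := by decide +kernel
def p15_22_3_9 : pfC (piC [(nat_lit 38632330), (nat_lit 25257288), (nat_lit 18773175), (nat_lit 12658484)] (nat_lit 4975805)) p15_22_3 (nat_lit 4) (nat_lit 9) (nat_lit 10) = true := by decide +kernel
def p15_22_3_10 : pfC (piC [(nat_lit 38632330), (nat_lit 25257288), (nat_lit 18773175), (nat_lit 12658484)] (nat_lit 4975805)) p15_22_3 (nat_lit 4) (nat_lit 10) (nat_lit 11) = true := by decide +kernel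
def p15_22_3_11 : pfC (piC [(nat_lit 38632330), (nat_lit 25257288), (nat_lit 18773175), (nat_lit 12658484)] (nat_lit 4975805)) p15_22_3 (nat_lit 4) (nat_lit 11) (nat_lit 12) = true := by decide +kernel
def p15_22_3_12 : pfC (piC [(nat_lit 38632330), (nat_lit 25257288), (nat_lit 18773175), (nat_lit 12658484)] (nat_lit 4975805)) p15_22_3 (nat_lit 4) (nat_lit 12) (nat_lit 13) = true := by decide +kernel
def p15_22_3_13 : pfC (piC [(nat_lit 38632330), (nat_lit 25257288), (nat_lit 18773175), (nat_lit 12658484)] (nat_lit 4975805)) p15_22_3 (nat_lit 4) (nat_lit 13) (nat_lit 14) = true := by decide +kernel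
def p15_22_3_14 : pfC (piC [(nat_lit 38632330), (nat_lit 25257288), (nat_lit 18773175), (nat_lit 12658484)] (nat_lit 4975805)) p15_22_3 (nat_lit 4) (nat_lit 14) (nat_lit 15) = true := by decide +kernel
def p15_22_3_15 : pfC (piC [(nat_lit 38632330), (nat_lit 25257288), (nat_lit 18773175), (nat_lit 12658484)] (nat_lit 4975805)) p15_22_3 (nat_lit 4) (nat_lit 15) (nat_lit 16) = true := by decide +kernel
def p15_22_3_16 : pfC (piC [(nat_lit 38632330), (nat_lit 25257288), (nat_lit 18773175), (nat_lit 12658484)] (nat_lit 4975805)) p15_22_3 (nat_lit 4) (nat_lit 16) (nat_lit 17) = true := by decide +kernel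
def p15_22_3_17 : pfC (piC [(nat_lit 38632330), (nat_lit 25257288), (nat_lit 18773175), (nat_lit 12658484)] (nat_lit 4975805)) p15_22_3 (nat_lit 4) (nat_lit 17) (nat_lit 18) = true := by decide +kernel
def p15_22_3_18 : pfC (piC [(nat_lit 38632330), (nat_lit 25257288), (nat_lit 18773175), (nat_lit 12658484)] (nat_lit 4975805)) p15_22_3 (nat_lit 4) (nat_lit 18) (nat_lit 19) = true := by decide +kernel
def p15_22_3_19 : pfC (piC [(nat_lit 38632330), (nat_lit 25257288), (nat_lit 18773175), (nat_lit 12658484)] (nat_lit 4975805)) p15_22_3 (nat_lit 4) (nat_lit 19) (nat_lit 20) = true := by decide +kernel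
def p15_22_3_20 : pfC (piC [(nat_lit 38632330), (nat_lit 25257288), (nat_lit 18773175), (nat_lit 12658484)] (nat_lit 4975805)) p15_22_3 (nat_lit 4) (nat_lit 20) (nat_lit 21) = true := by decide +kernel
def p15_22_3_21 : pfC (piC [(nat_lit 38632330), (nat_lit 25257288), (nat_lit 18773175), (nat_lit 12658484)] (nat_lit 4975805)) p15_22_3 (nat_lit 4) (nat_lit 21) (nat_lit 22) = true := by decide +kernel
def p15_22_3_22 : pfC (piC [(nat_lit 38632330), (nat_lit 25257288), (nat_lit 18773175), (nat_lit 12658484)] (nat_lit 4975805)) p15_22_3 (nat_lit 4) (nat_lit 22) (nat_lit 23) = true := by decide +kernel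
def p15_22_3_23 : pfC (piC [(nat_lit 38632330), (nat_lit 25257288), (nat_lit 18773175), (nat_lit 12658484)] (nat_lit 4975805)) p15_22_3 (nat_lit 4) (nat_lit 23) (nat_lit 24) = true := by decide +kernel
def p15_22_3_24 : pfC (piC [(nat_lit 38632330), (nat_lit 25257288), (nat_lit 18773175), (nat_lit 12658484)] (nat_lit 4975805)) p15_22_3 (nat_lit 4) (nat_lit 24) (nat_lit 25) = true := by decide +kernel
def p15_22_3_25 : pfC (piC [(nat_lit 38632330), (nat_lit 25257288), (nat_lit 18773175), (nat_lit 12658484)] (nat_lit 4975805)) p15_22_3 (nat_lit 4) (nat_lit 25) (nat_lit 26) = true := by decide +kernel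
def p15_22_3_26 : pfC (piC [(nat_lit 38632330), (nat_lit 25257288), (nat_lit 18773175), (nat_lit 12658484)] (nat_lit 4975805)) p15_22_3 (nat_lit 4) (nat_lit 26) (nat_lit 27) = true := by decide +kernel
def p15_22_3_27 : pfC (piC [(nat_lit 38632330), (nat_lit 25257288), (nat_lit 18773175), (nat_lit 12658484)] (nat_lit 4975805)) p15_22_3 (nat_lit 4) (nat_lit 27) (nat_lit 28) = true := by decide +kernel
def p15_22_3_28 : pfC (piC [(nat_lit 38632330), (nat_lit 25257288), (nat_lit 18773175), (nat_lit 12658484)] (nat_lit 4975805)) p15_22_3 (nat_lit 4) (nat_lit 28) (nat_lit 29) = true := by decide +kernel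
def p15_22_3_29 : pfC (piC [(nat_lit 38632330), (nat_lit 25257288), (nat_lit 18773175), (nat_lit 12658484)] (nat_lit 4975805)) p15_22_3 (nat_lit 4) (nat_lit 29) (nat_lit 30) = true := by decide +kernel
def p15_22_3_30 : pfC (piC [(nat_lit 38632330), (nat_lit 25257288), (nat_lit 18773175), (nat_lit 12658484)] (nat_lit 4975805)) p15_22_3 (nat_lit 4) (nat_lit 30) (nat_lit 31) = true := by decide +kernel
def p15_22_3_31 : pfC (piC [(nat_lit 38632330), (nat_lit 25257288), (nat_lit 18773175), (nat_lit 12658484)] (nat_lit 4975805)) p15_22_3 (nat_lit 4) (nat_lit 31) (nat_lit 32) = true := by decide +kernel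
def p15_22_3_32 : pfC (piC [(nat_lit 38632330), (nat_lit 25257288), (nat_lit 18773175), (nat_lit 12658484)] (nat_lit 4975805)) p15_22_3 (nat_lit 4) (nat_lit 32) (nat_lit 33) = true := by decide +kernel
def p15_22_3_33 : pfC (piC [(nat_lit 38632330), (nat_lit 25257288), (nat_lit 18773175), (nat_lit 12658484)] (nat_lit 4975805)) p15_22_3 (nat_lit 4) (nat_lit 33) (nat_lit 34) = true := by decide +kernel
def p15_22_3_34 : pfC (piC [(nat_lit 38632330), (nat_lit 25257288), (nat_lit 18773175), (nat_lit 12658484)] (nat_lit 4975805)) p15_22_3 (nat_lit 4) (nat_lit 34) (nat_lit 35) = true := by decide +kernel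
def p15_22_3_35 : pfC (piC [(nat_lit 38632330), (nat_lit 25257288), (nat_lit 18773175), (nat_lit 12658484)] (nat_lit 4975805)) p15_22_3 (nat_lit 4) (nat_lit 35) (nat_lit 36) = true := by decide +kernel
def p15_22_3_36 : pfC (piC [(nat_lit 38632330), (nat_lit 25257288), (nat_lit 18773175), (nat_lit 12658484)] (nat_lit 4975805)) p15_22_3 (nat_lit 4) (nat_lit 36) (nat_lit 37) = true := by decide +kernel
def p15_22_3_37 : pfC (piC [(nat_lit 38632330), (nat_lit 25257288), (nat_lit 18773175), (nat_lit 12658484)] (nat_lit 4975805)) p15_22_3 (nat_lit 4) (nat_lit 37) (nat_lit 38) = true := by decide +kernel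
def p15_22_3_38 : pfC (piC [(nat_lit 38632330), (nat_lit 25257288), (nat_lit 18773175), (nat_lit 12658484)] (nat_lit 4975805)) p15_22_3 (nat_lit 4) (nat_lit 38) (nat_lit 39) = true := by decide +kernel
def p15_22_3_39 : pfC (piC [(nat_lit 38632330), (nat_lit 25257288), (nat_lit 18773175), (nat_lit 12658484)] (nat_lit 4975805)) p15_22_3 (nat_lit 4) (nat_lit 39) (nat_lit 40) = true := by decide +kernel
def p15_22_3_40 : pfC (piC [(nat_lit 38632330), (nat_lit 25257288), (nat_lit 18773175), (nat_lit 12658484)] (nat_lit 4975805)) p15_22_3 (nat_lit 4) (nat_lit 40) (nat_lit 41) = true := by decide +kernel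
def p15_22_3_41 : pfC (piC [(nat_lit 38632330), (nat_lit 25257288), (nat_lit 18773175), (nat_lit 12658484)] (nat_lit 4975805)) p15_22_3 (nat_lit 4) (nat_lit 41) (nat_lit 42) = true := by decide +kernel
def p15_22_3_42 : pfC (piC [(nat_lit 38632330), (nat_lit 25257288), (nat_lit 18773175), (nat_lit 12658484)] (nat_lit 4975805)) p15_22_3 (nat_lit 4) (nat_lit 42) (nat_lit 43) = true := by decide +kernel
def p15_22_3_43 : pfC (piC [(nat_lit 38632330), (nat_lit 25257288), (nat_lit 18773175), (nat_lit 12658484)] (nat_lit 4975805)) p15_22_3 (nat_lit 4) (nat_lit 43) (nat_lit 44) = true := by decide +kernel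
def p15_22_3_44 : pfC (piC [(nat_lit 38632330), (nat_lit 25257288), (nat_lit 18773175), (nat_lit 12658484)] (nat_lit 4975805)) p15_22_3 (nat_lit 4) (nat_lit 44) (nat_lit 45) = true := by decide +kernel
def p15_22_3_45 : pfC (piC [(nat_lit 38632330), (nat_lit 25257288), (nat_lit 18773175), (nat_lit 12658484)] (nat_lit 4975805)) p15_22_3 (nat_lit 4) (nat_lit 45) (nat_lit 46) = true := by decide +kernel
def p15_22_3_46 : pfC (piC [(nat_lit 38632330), (nat_lit 25257288), (nat_lit 18773175), (nat_lit 12658484)] (nat_lit 4975805)) p15_22_3 (nat_lit 4) (nat_lit 46) (nat_lit 47) = true := by decide +kernel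
def p15_22_3_47 : pfC (piC [(nat_lit 38632330), (nat_lit 25257288), (nat_lit 18773175), (nat_lit 12658484)] (nat_lit 4975805)) p15_22_3 (nat_lit 4) (nat_lit 47) (nat_lit 48) = true := by decide +kernel
def p15_22_3_48 : pfC (piC [(nat_lit 38632330), (nat_lit 25257288), (nat_lit 18773175), (nat_lit 12658484)] (nat_lit 4975805)) p15_22_3 (nat_lit 4) (nat_lit 48) (nat_lit 49) = true := by decide +kernel
def p15_22_3_49 : pfC (piC [(nat_lit 38632330), (nat_lit 25257288), (nat_lit 18773175), (nat_lit 12658484)] (nat_lit 4975805)) p15_22_3 (nat_lit 4) (nat_lit 49) (nat_lit 50) = true := by decide +kernel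
def p15_22_3_50 : pfC (piC [(nat_lit 38632330), (nat_lit 25257288), (nat_lit 18773175), (nat_lit 12658484)] (nat_lit 4975805)) p15_22_3 (nat_lit 4) (nat_lit 50) (nat_lit 51) = true := by decide +kernel
def p15_22_3_51 : pfC (piC [(nat_lit 38632330), (nat_lit 25257288), (nat_lit 18773175), (nat_lit 12658484)] (nat_lit 4975805)) p15_22_3 (nat_lit 4) (nat_lit 51) (nat_lit 52) = true := by decide +kernel
def p15_22_3_52 : pfC (piC [(nat_lit 38632330), (nat_lit 25257288), (nat_lit 18773175), (nat_lit 12658484)] (nat_lit 4975805)) p15_22_3 (nat_lit 4) (nat_lit 52) (nat_lit 53) = true := by decide +kernel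
def p15_22_3_53 : pfC (piC [(nat_lit 38632330), (nat_lit 25257288), (nat_lit 18773175), (nat_lit 12658484)] (nat_lit 4975805)) p15_22_3 (nat_lit 4) (nat_lit 53) (nat_lit 54) = true := by decide +kernel
def p15_22_3_54 : pfC (piC [(nat_lit 38632330), (nat_lit 25257288), (nat_lit 18773175), (nat_lit 12658484)] (nat_lit 4975805)) p15_22_3 (nat_lit 4) (nat_lit 54) (nat_lit 55) = true := by decide +kernel
def p15_22_3_55 : pfC (piC [(nat_lit 38632330), (nat_lit 25257288), (nat_lit 18773175), (nat_lit 12658484)] (nat_lit 4975805)) p15_22_3 (nat_lit 4) (nat_lit 55) (nat_lit 56) = true := by decide +kernel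
def p15_22_3_56 : pfC (piC [(nat_lit 38632330), (nat_lit 25257288), (nat_lit 18773175), (nat_lit 12658484)] (nat_lit 4975805)) p15_22_3 (nat_lit 4) (nat_lit 56) (nat_lit 57) = true := by decide +kernel
def p15_22_3_57 : pfC (piC [(nat_lit 38632330), (nat_lit 25257288), (nat_lit 18773175), (nat_lit 12658484)] (nat_lit 4975805)) p15_22_3 (nat_lit 4) (nat_lit 57) (nat_lit 58) = true := by decide +kernel
def p15_22_3_58 : pfC (piC [(nat_lit 38632330), (nat_lit 25257288), (nat_lit 18773175), (nat_lit 12658484)] (nat_lit 4975805)) p15_22_3 (nat_lit 4) (nat_lit 58) (nat_lit 59) = true := by decide +kernel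
def p15_22_3_59 : pfC (piC [(nat_lit 38632330), (nat_lit 25257288), (nat_lit 18773175), (nat_lit 12658484)] (nat_lit 4975805)) p15_22_3 (nat_lit 4) (nat_lit 59) (nat_lit 60) = true := by decide +kernel
def p15_22_3_60 : pfC (piC [(nat_lit 38632330), (nat_lit 25257288), (nat_lit 18773175), (nat_lit 12658484)] (nat_lit 4975805)) p15_22_3 (nat_lit 4) (nat_lit 60) (nat_lit 61) = true := by decide +kernel
def p15_22_3_61 : pfC (piC [(nat_lit 38632330), (nat_lit 25257288), (nat_lit 18773175), (nat_lit 12658484)] (nat_lit 4975805)) p15_22_3 (nat_lit 4) (nat_lit 61) (nat_lit 62) = true := by decide +kernel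
def p15_22_3_62 : pfC (piC [(nat_lit 38632330), (nat_lit 25257288), (nat_lit 18773175), (nat_lit 12658484)] (nat_lit 4975805)) p15_22_3 (nat_lit 4) (nat_lit 62) (nat_lit 63) = true := by decide +kernel
def p15_22_3_63 : pfC (piC [(nat_lit 38632330), (nat_lit 25257288), (nat_lit 18773175), (nat_lit 12658484)] (nat_lit 4975805)) p15_22_3 (nat_lit 4) (nat_lit 63) (nat_lit 64) = true := by decide +kernel
def p15_22_3_64 : pfC (piC [(nat_lit 38632330), (nat_lit 25257288), (nat_lit 18773175), (nat_lit 12658484)] (nat_lit 4975805)) p15_22_3 (nat_lit 4) (nat_lit 64) (nat_lit 65) = true := by decide +kernel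
def p15_22_3_65 : pfC (piC [(nat_lit 38632330), (nat_lit 25257288), (nat_lit 18773175), (nat_lit 12658484)] (nat_lit 4975805)) p15_22_3 (nat_lit 4) (nat_lit 65) (nat_lit 66) = true := by decide +kernel
def p15_22_3_66 : pfC (piC [(nat_lit 38632330), (nat_lit 25257288), (nat_lit 18773175), (nat_lit 12658484)] (nat_lit 4975805)) p15_22_3 (nat_lit 4) (nat_lit 66) (nat_lit 67) = true := by decide +kernel
def p15_22_3_67 : pfC (piC [(nat_lit 38632330), (nat_lit 25257288), (nat_lit 18773175), (nat_lit 12658484)] (nat_lit 4975805)) p15_22_3 (nat_lit 4) (nat_lit 67) (nat_lit 68) = true := by decide +kernel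
def p15_22_3_68 : pfC (piC [(nat_lit 38632330), (nat_lit 25257288), (nat_lit 18773175), (nat_lit 12658484)] (nat_lit 4975805)) p15_22_3 (nat_lit 4) (nat_lit 68) (nat_lit 69) = true := by decide +kernel
def p15_22_3_69 : pfC (piC [(nat_lit 38632330), (nat_lit 25257288), (nat_lit 18773175), (nat_lit 12658484)] (nat_lit 4975805)) p15_22_3 (nat_lit 4) (nat_lit 69) (nat_lit 70) = true := by decide +kernel
def p15_22_3_70 : pfC (piC [(nat_lit 38632330), (nat_lit 25257288), (nat_lit 18773175), (nat_lit 12658484)] (nat_lit 4975805)) p15_22_3 (nat_lit 4) (nat_lit 70) (nat_lit 71) = true := by decide +kernel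
def p15_22_3_71 : pfC (piC [(nat_lit 38632330), (nat_lit 25257288), (nat_lit 18773175), (nat_lit 12658484)] (nat_lit 4975805)) p15_22_3 (nat_lit 4) (nat_lit 71) (nat_lit 72) = true := by decide +kernel
def p15_22_3_72 : pfC (piC [(nat_lit 38632330), (nat_lit 25257288), (nat_lit 18773175), (nat_lit 12658484)] (nat_lit 4975805)) p15_22_3 (nat_lit 4) (nat_lit 72) (nat_lit 73) = true := by decide +kernel
def p15_22_3_73 : pfC (piC [(nat_lit 38632330), (nat_lit 25257288), (nat_lit 18773175), (nat_lit 12658484)] (nat_lit 4975805)) p15_22_3 (nat_lit 4) (nat_lit 73) (nat_lit 74) = true := by decide +kernel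
def p15_22_3_74 : pfC (piC [(nat_lit 38632330), (nat_lit 25257288), (nat_lit 18773175), (nat_lit 12658484)] (nat_lit 4975805)) p15_22_3 (nat_lit 4) (nat_lit 74) (nat_lit 75) = true := by decide +kernel
def p15_22_3_75 : pfC (piC [(nat_lit 38632330), (nat_lit 25257288), (nat_lit 18773175), (nat_lit 12658484)] (nat_lit 4975805)) p15_22_3 (nat_lit 4) (nat_lit 75) (nat_lit 76) = true := by decide +kernel
def p15_22_3_76 : pfC (piC [(nat_lit 38632330), (nat_lit 25257288), (nat_lit 18773175), (nat_lit 12658484)] (nat_lit 4975805)) p15_22_3 (nat_lit 4) (nat_lit 76) (nat_lit 77) = true := by decide +kernel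
def p15_22_3_77 : pfC (piC [(nat_lit 38632330), (nat_lit 25257288), (nat_lit 18773175), (nat_lit 12658484)] (nat_lit 4975805)) p15_22_3 (nat_lit 4) (nat_lit 77) (nat_lit 78) = true := by decide +kernel
def p15_22_3_78 : pfC (piC [(nat_lit 38632330), (nat_lit 25257288), (nat_lit 18773175), (nat_lit 12658484)] (nat_lit 4975805)) p15_22_3 (nat_lit 4) (nat_lit 78) (nat_lit 79) = true := by decide +kernel
def p15_22_3_79 : pfC (piC [(nat_lit 38632330), (nat_lit 25257288), (nat_lit 18773175), (nat_lit 12658484)] (nat_lit 4975805)) p15_22_3 (nat_lit 4) (nat_lit 79) (nat_lit 80) = true := by decide +kernel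
def p15_22_3_80 : pfC (piC [(nat_lit 38632330), (nat_lit 25257288), (nat_lit 18773175), (nat_lit 12658484)] (nat_lit 4975805)) p15_22_3 (nat_lit 4) (nat_lit 80) (nat_lit 81) = true := by decide +kernel
def p15_22_3_81 : pfC (piC [(nat_lit 38632330), (nat_lit 25257288), (nat_lit 18773175), (nat_lit 12658484)] (nat_lit 4975805)) p15_22_3 (nat_lit 4) (nat_lit 81) (nat_lit 82) = true := by decide +kernel
def p15_22_3_82 : pfC (piC [(nat_lit 38632330), (nat_lit 25257288), (nat_lit 18773175), (nat_lit 12658484)] (nat_lit 4975805)) p15_22_3 (nat_lit 4) (nat_lit 82) (nat_lit 83) = true := by decide +kernel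
def p15_22_3_83 : pfC (piC [(nat_lit 38632330), (nat_lit 25257288), (nat_lit 18773175), (nat_lit 12658484)] (nat_lit 4975805)) p15_22_3 (nat_lit 4) (nat_lit 83) (nat_lit 84) = true := by decide +kernel
def p15_22_3_84 : pfC (piC [(nat_lit 38632330), (nat_lit 25257288), (nat_lit 18773175), (nat_lit 12658484)] (nat_lit 4975805)) p15_22_3 (nat_lit 4) (nat_lit 84) (nat_lit 85) = true := by decide +kernel
def p15_22_3_85 : pfC (piC [(nat_lit 38632330), (nat_lit 25257288), (nat_lit 18773175), (nat_lit 12658484)] (nat_lit 4975805)) p15_22_3 (nat_lit 4) (nat_lit 85) (nat_lit 86) = true := by decide +kernel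
def p15_22_3_86 : pfC (piC [(nat_lit 38632330), (nat_lit 25257288), (nat_lit 18773175), (nat_lit 12658484)] (nat_lit 4975805)) p15_22_3 (nat_lit 4) (nat_lit 86) (nat_lit 87) = true := by decide +kernel
def p15_22_3_87 : pfC (piC [(nat_lit 38632330), (nat_lit 25257288), (nat_lit 18773175), (nat_lit 12658484)] (nat_lit 4975805)) p15_22_3 (nat_lit 4) (nat_lit 87) (nat_lit 88) = true := by decide +kernel
def p15_22_3_88 : pfC (piC [(nat_lit 38632330), (nat_lit 25257288), (nat_lit 18773175), (nat_lit 12658484)] (nat_lit 4975805)) p15_22_3 (nat_lit 4) (nat_lit 88) (nat_lit 89) = true := by decide +kernel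
def p15_22_3_89 : pfC (piC [(nat_lit 38632330), (nat_lit 25257288), (nat_lit 18773175), (nat_lit 12658484)] (nat_lit 4975805)) p15_22_3 (nat_lit 4) (nat_lit 89) (nat_lit 90) = true := by decide +kernel
def p15_22_3_90 : pfC (piC [(nat_lit 38632330), (nat_lit 25257288), (nat_lit 18773175), (nat_lit 12658484)] (nat_lit 4975805)) p15_22_3 (nat_lit 4) (nat_lit 90) (nat_lit 91) = true := by decide +kernel
def p15_22_3_91 : pfC (piC [(nat_lit 38632330), (nat_lit 25257288), (nat_lit 18773175), (nat_lit 12658484)] (nat_lit 4975805)) p15_22_3 (nat_lit 4) (nat_lit 91) (nat_lit 92) = true := by decide +kernel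
def p15_22_3_92 : pfC (piC [(nat_lit 38632330), (nat_lit 25257288), (nat_lit 18773175), (nat_lit 12658484)] (nat_lit 4975805)) p15_22_3 (nat_lit 4) (nat_lit 92) (nat_lit 93) = true := by decide +kernel
def p15_22_3_93 : pfC (piC [(nat_lit 38632330), (nat_lit 25257288), (nat_lit 18773175), (nat_lit 12658484)] (nat_lit 4975805)) p15_22_3 (nat_lit 4) (nat_lit 93) (nat_lit 94) = true := by decide +kernel
def p15_22_3_94 : pfC (piC [(nat_lit 38632330), (nat_lit 25257288), (nat_lit 18773175), (nat_lit 12658484)] (nat_lit 4975805)) p15_22_3 (nat_lit 4) (nat_lit 94) (nat_lit 95) = true := by decide +kernel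
def p15_22_3_95 : pfC (piC [(nat_lit 38632330), (nat_lit 25257288), (nat_lit 18773175), (nat_lit 12658484)] (nat_lit 4975805)) p15_22_3 (nat_lit 4) (nat_lit 95) (nat_lit 96) = true := by decide +kernel
def p15_22_3_96 : pfC (piC [(nat_lit 38632330), (nat_lit 25257288), (nat_lit 18773175), (nat_lit 12658484)] (nat_lit 4975805)) p15_22_3 (nat_lit 4) (nat_lit 96) (nat_lit 97) = true := by decide +kernel
def p15_22_3_97 : pfC (piC [(nat_lit 38632330), (nat_lit 25257288), (nat_lit 18773175), (nat_lit 12658484)] (nat_lit 4975805)) p15_22_3 (nat_lit 4) (nat_lit 97) (nat_lit 98) = true := by decide +kernel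
def p15_22_3_98 : pfC (piC [(nat_lit 38632330), (nat_lit 25257288), (nat_lit 18773175), (nat_lit 12658484)] (nat_lit 4975805)) p15_22_3 (nat_lit 4) (nat_lit 98) (nat_lit 99) = true := by decide +kernel
def p15_22_3_99 : pfC (piC [(nat_lit 38632330), (nat_lit 25257288), (nat_lit 18773175), (nat_lit 12658484)] (nat_lit 4975805)) p15_22_3 (nat_lit 4) (nat_lit 99) (nat_lit 100) = true := by decide +kernel
def p15_22_3_100 : pfC (piC [(nat_lit 38632330), (nat_lit 25257288), (nat_lit 18773175), (nat_lit 12658484)] (nat_lit 4975805)) p15_22_3 (nat_lit 4) (nat_lit 100) (nat_lit 101) = true := by decide +kernel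
def p15_22_3_101 : pfC (piC [(nat_lit 38632330), (nat_lit 25257288), (nat_lit 18773175), (nat_lit 12658484)] (nat_lit 4975805)) p15_22_3 (nat_lit 4) (nat_lit 101) (nat_lit 102) = true := by decide +kernel
def p15_22_3_102 : pfC (piC [(nat_lit 38632330), (nat_lit 25257288), (nat_lit 18773175), (nat_lit 12658484)] (nat_lit 4975805)) p15_22_3 (nat_lit 4) (nat_lit 102) (nat_lit 103) = true := by decide +kernel
def p15_22_3_103 : pfC (piC [(nat_lit 38632330), (nat_lit 25257288), (nat_lit 18773175), (nat_lit 12658484)] (nat_lit 4975805)) p15_22_3 (nat_lit 4) (nat_lit 103) (nat_lit 104) = true := by decide +kernel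
def p15_22_3_104 : pfC (piC [(nat_lit 38632330), (nat_lit 25257288), (nat_lit 18773175), (nat_lit 12658484)] (nat_lit 4975805)) p15_22_3 (nat_lit 4) (nat_lit 104) (nat_lit 105) = true := by decide +kernel
def p15_22_3_105 : pfC (piC [(nat_lit 38632330), (nat_lit 25257288), (nat_lit 18773175), (nat_lit 12658484)] (nat_lit 4975805)) p15_22_3 (nat_lit 4) (nat_lit 105) (nat_lit 106) = true := by decide +kernel
def p15_22_3_106 : pfC (piC [(nat_lit 38632330), (nat_lit 25257288), (nat_lit 18773175), (nat_lit 12658484)] (nat_lit 4975805)) p15_22_3 (nat_lit 4) (nat_lit 106) (nat_lit 107) = true := by decide +kernel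
def p15_22_3_107 : pfC (piC [(nat_lit 38632330), (nat_lit 25257288), (nat_lit 18773175), (nat_lit 12658484)] (nat_lit 4975805)) p15_22_3 (nat_lit 4) (nat_lit 107) (nat_lit 108) = true := by decide +kernel
def p15_22_3_108 : pfC (piC [(nat_lit 38632330), (nat_lit 25257288), (nat_lit 18773175), (nat_lit 12658484)] (nat_lit 4975805)) p15_22_3 (nat_lit 4) (nat_lit 108) (nat_lit 109) = true := by decide +kernel
def p15_22_3_109 : pfC (piC [(nat_lit 38632330), (nat_lit 25257288), (nat_lit 18773175), (nat_lit 12658484)] (nat_lit 4975805)) p15_22_3 (nat_lit 4) (nat_lit 109) (nat_lit 110) = true := by decide +kernel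
def p15_22_3_110 : pfC (piC [(nat_lit 38632330), (nat_lit 25257288), (nat_lit 18773175), (nat_lit 12658484)] (nat_lit 4975805)) p15_22_3 (nat_lit 4) (nat_lit 110) (nat_lit 111) = true := by decide +kernel
def p15_22_3_111 : pfC (piC [(nat_lit 38632330), (nat_lit 25257288), (nat_lit 18773175), (nat_lit 12658484)] (nat_lit 4975805)) p15_22_3 (nat_lit 4) (nat_lit 111) (nat_lit 112) = true := by decide +kernel
def p15_22_3_112 : pfC (piC [(nat_lit 38632330), (nat_lit 25257288), (nat_lit 18773175), (nat_lit 12658484)] (nat_lit 4975805)) p15_22_3 (nat_lit 4) (nat_lit 112) (nat_lit 113) = true := by decide +kernel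
def p15_22_3_113 : pfC (piC [(nat_lit 38632330), (nat_lit 25257288), (nat_lit 18773175), (nat_lit 12658484)] (nat_lit 4975805)) p15_22_3 (nat_lit 4) (nat_lit 113) (nat_lit 114) = true := by decide +kernel
def p15_22_3_114 : pfC (piC [(nat_lit 38632330), (nat_lit 25257288), (nat_lit 18773175), (nat_lit 12658484)] (nat_lit 4975805)) p15_22_3 (nat_lit 4) (nat_lit 114) (nat_lit 115) = true := by decide +kernel
def p15_22_3_115 : pfC (piC [(nat_lit 38632330), (nat_lit 25257288), (nat_lit 18773175), (nat_lit 12658484)] (nat_lit 4975805)) p15_22_3 (nat_lit 4) (nat_lit 115) (nat_lit 116) = true := by decide +kernel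
def p15_22_3_116 : pfC (piC [(nat_lit 38632330), (nat_lit 25257288), (nat_lit 18773175), (nat_lit 12658484)] (nat_lit 4975805)) p15_22_3 (nat_lit 4) (nat_lit 116) (nat_lit 117) = true := by decide +kernel
def p15_22_3_117 : pfC (piC [(nat_lit 38632330), (nat_lit 25257288), (nat_lit 18773175), (nat_lit 12658484)] (nat_lit 4975805)) p15_22_3 (nat_lit 4) (nat_lit 117) (nat_lit 118) = true := by decide +kernel
def p15_22_3_118 : pfC (piC [(nat_lit 38632330), (nat_lit 25257288), (nat_lit 18773175), (nat_lit 12658484)] (nat_lit 4975805)) p15_22_3 (nat_lit 4) (nat_lit 118) (nat_lit 119) = true := by decide +kernel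
def p15_22_3_119 : pfC (piC [(nat_lit 38632330), (nat_lit 25257288), (nat_lit 18773175), (nat_lit 12658484)] (nat_lit 4975805)) p15_22_3 (nat_lit 4) (nat_lit 119) (nat_lit 120) = true := by decide +kernel
def p15_22_3_120 : pfC (piC [(nat_lit 38632330), (nat_lit 25257288), (nat_lit 18773175), (nat_lit 12658484)] (nat_lit 4975805)) p15_22_3 (nat_lit 4) (nat_lit 120) (nat_lit 121) = true := by decide +kernel
def p15_22_3_121 : pfC (piC [(nat_lit 38632330), (nat_lit 25257288), (nat_lit 18773175), (nat_lit 12658484)] (nat_lit 4975805)) p15_22_3 (nat_lit 4) (nat_lit 121) (nat_lit 122) = true := by decide +kernel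
def p15_22_3_122 : pfC (piC [(nat_lit 38632330), (nat_lit 25257288), (nat_lit 18773175), (nat_lit 12658484)] (nat_lit 4975805)) p15_22_3 (nat_lit 4) (nat_lit 122) (nat_lit 123) = true := by decide +kernel
def p15_22_3_123 : pfC (piC [(nat_lit 38632330), (nat_lit 25257288), (nat_lit 18773175), (nat_lit 12658484)] (nat_lit 4975805)) p15_22_3 (nat_lit 4) (nat_lit 123) (nat_lit 124) = true := by decide +kernel
def p15_22_3_124 : pfC (piC [(nat_lit 38632330), (nat_lit 25257288), (nat_lit 18773175), (nat_lit 12658484)] (nat_lit 4975805)) p15_22_3 (nat_lit 4) (nat_lit 124) (nat_lit 125) = true := by decide +kernel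
def p15_22_3_125 : pfC (piC [(nat_lit 38632330), (nat_lit 25257288), (nat_lit 18773175), (nat_lit 12658484)] (nat_lit 4975805)) p15_22_3 (nat_lit 4) (nat_lit 125) (nat_lit 126) = true := by decide +kernel
def p15_22_3_126 : pfC (piC [(nat_lit 38632330), (nat_lit 25257288), (nat_lit 18773175), (nat_lit 12658484)] (nat_lit 4975805)) p15_22_3 (nat_lit 4) (nat_lit 126) (nat_lit 127) = true := by decide +kernel
def p15_22_3_127 : pfC (piC [(nat_lit 38632330), (nat_lit 25257288), (nat_lit 18773175), (nat_lit 12658484)] (nat_lit 4975805)) p15_22_3 (nat_lit 4) (nat_lit 127) (nat_lit 128) = true := by decide +kernel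
def p15_22_3_128 : pfC (piC [(nat_lit 38632330), (nat_lit 25257288), (nat_lit 18773175), (nat_lit 12658484)] (nat_lit 4975805)) p15_22_3 (nat_lit 4) (nat_lit 128) (nat_lit 129) = true := by decide +kernel
def p15_22_3_129 : pfC (piC [(nat_lit 38632330), (nat_lit 25257288), (nat_lit 18773175), (nat_lit 12658484)] (nat_lit 4975805)) p15_22_3 (nat_lit 4) (nat_lit 129) (nat_lit 130) = true := by decide +kernel
def p15_22_3_130 : pfC (piC [(nat_lit 38632330), (nat_lit 25257288), (nat_lit 18773175), (nat_lit 12658484)] (nat_lit 4975805)) p15_22_3 (nat_lit 4) (nat_lit 130) (nat_lit 131) = true := by decide +kernel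
def p15_22_3_131 : pfC (piC [(nat_lit 38632330), (nat_lit 25257288), (nat_lit 18773175), (nat_lit 12658484)] (nat_lit 4975805)) p15_22_3 (nat_lit 4) (nat_lit 131) (nat_lit 132) = true := by decide +kernel
def p15_22_3_132 : pfC (piC [(nat_lit 38632330), (nat_lit 25257288), (nat_lit 18773175), (nat_lit 12658484)] (nat_lit 4975805)) p15_22_3 (nat_lit 4) (nat_lit 132) (nat_lit 133) = true := by decide +kernel
def p15_22_3_133 : pfC (piC [(nat_lit 38632330), (nat_lit 25257288), (nat_lit 18773175), (nat_lit 12658484)] (nat_lit 4975805)) p15_22_3 (nat_lit 4) (nat_lit 133) (nat_lit 134) = true := by decide +kernel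
def p15_22_3_134 : pfC (piC [(nat_lit 38632330), (nat_lit 25257288), (nat_lit 18773175), (nat_lit 12658484)] (nat_lit 4975805)) p15_22_3 (nat_lit 4) (nat_lit 134) (nat_lit 135) = true := by decide +kernel
def p15_22_3_135 : pfC (piC [(nat_lit 38632330), (nat_lit 25257288), (nat_lit 18773175), (nat_lit 12658484)] (nat_lit 4975805)) p15_22_3 (nat_lit 4) (nat_lit 135) (nat_lit 136) = true := by decide +kernel
def p15_22_3_136 : pfC (piC [(nat_lit 38632330), (nat_lit 25257288), (nat_lit 18773175), (nat_lit 12658484)] (nat_lit 4975805)) p15_22_3 (nat_lit 4) (nat_lit 136) (nat_lit 137) = true := by decide +kernel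
def p15_22_3_137 : pfC (piC [(nat_lit 38632330), (nat_lit 25257288), (nat_lit 18773175), (nat_lit 12658484)] (nat_lit 4975805)) p15_22_3 (nat_lit 4) (nat_lit 137) (nat_lit 138) = true := by decide +kernel
def p15_22_3_138 : pfC (piC [(nat_lit 38632330), (nat_lit 25257288), (nat_lit 18773175), (nat_lit 12658484)] (nat_lit 4975805)) p15_22_3 (nat_lit 4) (nat_lit 138) (nat_lit 139) = true := by decide +kernel
def p15_22_3_139 : pfC (piC [(nat_lit 38632330), (nat_lit 25257288), (nat_lit 18773175), (nat_lit 12658484)] (nat_lit 4975805)) p15_22_3 (nat_lit 4) (nat_lit 139) (nat_lit 140) = true := by decide +kernel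
def p15_22_3_140 : pfC (piC [(nat_lit 38632330), (nat_lit 25257288), (nat_lit 18773175), (nat_lit 12658484)] (nat_lit 4975805)) p15_22_3 (nat_lit 4) (nat_lit 140) (nat_lit 141) = true := by decide +kernel
def p15_22_3_141 : pfC (piC [(nat_lit 38632330), (nat_lit 25257288), (nat_lit 18773175), (nat_lit 12658484)] (nat_lit 4975805)) p15_22_3 (nat_lit 4) (nat_lit 141) (nat_lit 142) = true := by decide +kernel
def p15_22_3_142 : pfC (piC [(nat_lit 38632330), (nat_lit 25257288), (nat_lit 18773175), (nat_lit 12658484)] (nat_lit 4975805)) p15_22_3 (nat_lit 4) (nat_lit 142) (nat_lit 143) = true := by decide +kernel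
def p15_22_3_143 : pfC (piC [(nat_lit 38632330), (nat_lit 25257288), (nat_lit 18773175), (nat_lit 12658484)] (nat_lit 4975805)) p15_22_3 (nat_lit 4) (nat_lit 143) (nat_lit 144) = true := by decide +kernel
def p15_22_3_144 : pfC (piC [(nat_lit 38632330), (nat_lit 25257288), (nat_lit 18773175), (nat_lit 12658484)] (nat_lit 4975805)) p15_22_3 (nat_lit 4) (nat_lit 144) (nat_lit 145) = true := by decide +kernel
def p15_22_3_145 : pfC (piC [(nat_lit 38632330), (nat_lit 25257288), (nat_lit 18773175), (nat_lit 12658484)] (nat_lit 4975805)) p15_22_3 (nat_lit 4) (nat_lit 145) (nat_lit 146) = true := by decide +kernel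
def p15_22_3_146 : pfC (piC [(nat_lit 38632330), (nat_lit 25257288), (nat_lit 18773175), (nat_lit 12658484)] (nat_lit 4975805)) p15_22_3 (nat_lit 4) (nat_lit 146) (nat_lit 147) = true := by decide +kernel
def p15_22_3_147 : pfC (piC [(nat_lit 38632330), (nat_lit 25257288), (nat_lit 18773175), (nat_lit 12658484)] (nat_lit 4975805)) p15_22_3 (nat_lit 4) (nat_lit 147) (nat_lit 148) = true := by decide +kernel
def p15_22_3_148 : pfC (piC [(nat_lit 38632330), (nat_lit 25257288), (nat_lit 18773175), (nat_lit 12658484)] (nat_lit 4975805)) p15_22_3 (nat_lit 4) (nat_lit 148) (nat_lit 149) = true := by decide +kernel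
def p15_22_3_149 : pfC (piC [(nat_lit 38632330), (nat_lit 25257288), (nat_lit 18773175), (nat_lit 12658484)] (nat_lit 4975805)) p15_22_3 (nat_lit 4) (nat_lit 149) (nat_lit 150) = true := by decide +kernel
def p15_22_3_150 : pfC (piC [(nat_lit 38632330), (nat_lit 25257288), (nat_lit 18773175), (nat_lit 12658484)] (nat_lit 4975805)) p15_22_3 (nat_lit 4) (nat_lit 150) (nat_lit 151) = true := by decide +kernel
def p15_22_3_151 : pfC (piC [(nat_lit 38632330), (nat_lit 25257288), (nat_lit 18773175), (nat_lit 12658484)] (nat_lit 4975805)) p15_22_3 (nat_lit 4) (nat_lit 151) (nat_lit 152) = true := by decide +kernel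
def p15_22_3_152 : pfC (piC [(nat_lit 38632330), (nat_lit 25257288), (nat_lit 18773175), (nat_lit 12658484)] (nat_lit 4975805)) p15_22_3 (nat_lit 4) (nat_lit 152) (nat_lit 153) = true := by decide +kernel
def p15_22_3_153 : pfC (piC [(nat_lit 38632330), (nat_lit 25257288), (nat_lit 18773175), (nat_lit 12658484)] (nat_lit 4975805)) p15_22_3 (nat_lit 4) (nat_lit 153) (nat_lit 154) = true := by decide +kernel
def p15_22_3_154 : pfC (piC [(nat_lit 38632330), (nat_lit 25257288), (nat_lit 18773175), (nat_lit 12658484)] (nat_lit 4975805)) p15_22_3 (nat_lit 4) (nat_lit 154) (nat_lit 155) = true := by decide +kernel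
def p15_22_3_155 : pfC (piC [(nat_lit 38632330), (nat_lit 25257288), (nat_lit 18773175), (nat_lit 12658484)] (nat_lit 4975805)) p15_22_3 (nat_lit 4) (nat_lit 155) (nat_lit 156) = true := by decide +kernel
def p15_22_3_156 : pfC (piC [(nat_lit 38632330), (nat_lit 25257288), (nat_lit 18773175), (nat_lit 12658484)] (nat_lit 4975805)) p15_22_3 (nat_lit 4) (nat_lit 156) (nat_lit 157) = true := by decide +kernel
def p15_22_3_157 : pfC (piC [(nat_lit 38632330), (nat_lit 25257288), (nat_lit 18773175), (nat_lit 12658484)] (nat_lit 4975805)) p15_22_3 (nat_lit 4) (nat_lit 157) (nat_lit 158) = true := by decide +kernel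
def p15_22_3_158 : pfC (piC [(nat_lit 38632330), (nat_lit 25257288), (nat_lit 18773175), (nat_lit 12658484)] (nat_lit 4975805)) p15_22_3 (nat_lit 4) (nat_lit 158) (nat_lit 159) = true := by decide +kernel
def p15_22_3_159 : pfC (piC [(nat_lit 38632330), (nat_lit 25257288), (nat_lit 18773175), (nat_lit 12658484)] (nat_lit 4975805)) p15_22_3 (nat_lit 4) (nat_lit 159) (nat_lit 160) = true := by decide +kernel
def p15_22_3_160 : pfC (piC [(nat_lit 38632330), (nat_lit 25257288), (nat_lit 18773175), (nat_lit 12658484)] (nat_lit 4975805)) p15_22_3 (nat_lit 4) (nat_lit 160) (nat_lit 161) = true := by decide +kernel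
def p15_22_3_161 : pfC (piC [(nat_lit 38632330), (nat_lit 25257288), (nat_lit 18773175), (nat_lit 12658484)] (nat_lit 4975805)) p15_22_3 (nat_lit 4) (nat_lit 161) (nat_lit 162) = true := by decide +kernel
def p15_22_3_162 : pfC (piC [(nat_lit 38632330), (nat_lit 25257288), (nat_lit 18773175), (nat_lit 12658484)] (nat_lit 4975805)) p15_22_3 (nat_lit 4) (nat_lit 162) (nat_lit 163) = true := by decide +kernel
def p15_22_3_163 : pfC (piC [(nat_lit 38632330), (nat_lit 25257288), (nat_lit 18773175), (nat_lit 12658484)] (nat_lit 4975805)) p15_22_3 (nat_lit 4) (nat_lit 163) (nat_lit 164) = true := by decide +kernel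
def p15_22_3_164 : pfC (piC [(nat_lit 38632330), (nat_lit 25257288), (nat_lit 18773175), (nat_lit 12658484)] (nat_lit 4975805)) p15_22_3 (nat_lit 4) (nat_lit 164) (nat_lit 165) = true := by decide +kernel
def p15_22_3_165 : pfC (piC [(nat_lit 38632330), (nat_lit 25257288), (nat_lit 18773175), (nat_lit 12658484)] (nat_lit 4975805)) p15_22_3 (nat_lit 4) (nat_lit 165) (nat_lit 166) = true := by decide +kernel
def p15_22_3_166 : pfC (piC [(nat_lit 38632330), (nat_lit 25257288), (nat_lit 18773175), (nat_lit 12658484)] (nat_lit 4975805)) p15_22_3 (nat_lit 4) (nat_lit 166) (nat_lit 167) = true := by decide +kernel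
def p15_22_3_167 : pfC (piC [(nat_lit 38632330), (nat_lit 25257288), (nat_lit 18773175), (nat_lit 12658484)] (nat_lit 4975805)) p15_22_3 (nat_lit 4) (nat_lit 167) (nat_lit 168) = true := by decide +kernel
def p15_22_3_168 : pfC (piC [(nat_lit 38632330), (nat_lit 25257288), (nat_lit 18773175), (nat_lit 12658484)] (nat_lit 4975805)) p15_22_3 (nat_lit 4) (nat_lit 168) (nat_lit 169) = true := by decide +kernel
def p15_22_3_169 : pfC (piC [(nat_lit 38632330), (nat_lit 25257288), (nat_lit 18773175), (nat_lit 12658484)] (nat_lit 4975805)) p15_22_3 (nat_lit 4) (nat_lit 169) (nat_lit 170) = true := by decide +kernel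
def p15_22_3_170 : pfC (piC [(nat_lit 38632330), (nat_lit 25257288), (nat_lit 18773175), (nat_lit 12658484)] (nat_lit 4975805)) p15_22_3 (nat_lit 4) (nat_lit 170) (nat_lit 171) = true := by decide +kernel
def p15_22_3_171 : pfC (piC [(nat_lit 38632330), (nat_lit 25257288), (nat_lit 18773175), (nat_lit 12658484)] (nat_lit 4975805)) p15_22_3 (nat_lit 4) (nat_lit 171) (nat_lit 172) = true := by decide +kernel
def p15_22_3_172 : pfC (piC [(nat_lit 38632330), (nat_lit 25257288), (nat_lit 18773175), (nat_lit 12658484)] (nat_lit 4975805)) p15_22_3 (nat_lit 4) (nat_lit 172) (nat_lit 173) = true := by decide +kernel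
def p15_22_3_173 : pfC (piC [(nat_lit 38632330), (nat_lit 25257288), (nat_lit 18773175), (nat_lit 12658484)] (nat_lit 4975805)) p15_22_3 (nat_lit 4) (nat_lit 173) (nat_lit 174) = true := by decide +kernel
def p15_22_3_174 : pfC (piC [(nat_lit 38632330), (nat_lit 25257288), (nat_lit 18773175), (nat_lit 12658484)] (nat_lit 4975805)) p15_22_3 (nat_lit 4) (nat_lit 174) (nat_lit 175) = true := by decide +kernel
def p15_22_3_175 : pfC (piC [(nat_lit 38632330), (nat_lit 25257288), (nat_lit 18773175), (nat_lit 12658484)] (nat_lit 4975805)) p15_22_3 (nat_lit 4) (nat_lit 175) (nat_lit 176) = true := by decide +kernel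
def p15_22_3_176 : pfC (piC [(nat_lit 38632330), (nat_lit 25257288), (nat_lit 18773175), (nat_lit 12658484)] (nat_lit 4975805)) p15_22_3 (nat_lit 4) (nat_lit 176) (nat_lit 177) = true := by decide +kernel
def p15_22_3_177 : pfC (piC [(nat_lit 38632330), (nat_lit 25257288), (nat_lit 18773175), (nat_lit 12658484)] (nat_lit 4975805)) p15_22_3 (nat_lit 4) (nat_lit 177) (nat_lit 178) = true := by decide +kernel
def p15_22_3_178 : pfC (piC [(nat_lit 38632330), (nat_lit 25257288), (nat_lit 18773175), (nat_lit 12658484)] (nat_lit 4975805)) p15_22_3 (nat_lit 4) (nat_lit 178) (nat_lit 179) = true := by decide +kernel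
def p15_22_3_179 : pfC (piC [(nat_lit 38632330), (nat_lit 25257288), (nat_lit 18773175), (nat_lit 12658484)] (nat_lit 4975805)) p15_22_3 (nat_lit 4) (nat_lit 179) (nat_lit 180) = true := by decide +kernel
def p15_22_3_180 : pfC (piC [(nat_lit 38632330), (nat_lit 25257288), (nat_lit 18773175), (nat_lit 12658484)] (nat_lit 4975805)) p15_22_3 (nat_lit 4) (nat_lit 180) (nat_lit 181) = true := by decide +kernel
def p15_22_3_181 : pfC (piC [(nat_lit 38632330), (nat_lit 25257288), (nat_lit 18773175), (nat_lit 12658484)] (nat_lit 4975805)) p15_22_3 (nat_lit 4) (nat_lit 181) (nat_lit 182) = true := by decide +kernel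
def p15_22_3_182 : pfC (piC [(nat_lit 38632330), (nat_lit 25257288), (nat_lit 18773175), (nat_lit 12658484)] (nat_lit 4975805)) p15_22_3 (nat_lit 4) (nat_lit 182) (nat_lit 183) = true := by decide +kernel
def p15_22_3_183 : pfC (piC [(nat_lit 38632330), (nat_lit 25257288), (nat_lit 18773175), (nat_lit 12658484)] (nat_lit 4975805)) p15_22_3 (nat_lit 4) (nat_lit 183) (nat_lit 184) = true := by decide +kernel
def p15_22_3_184 : pfC (piC [(nat_lit 38632330), (nat_lit 25257288), (nat_lit 18773175), (nat_lit 12658484)] (nat_lit 4975805)) p15_22_3 (nat_lit 4) (nat_lit 184) (nat_lit 185) = true := by decide +kernel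
theorem p15_22_3_T : PfS (PiF n15_22.reverse (nat_lit 4975805)) p15_22_3 (nat_lit 4) [] 0 :=
  pftab_of (los := [(nat_lit 38632330), (nat_lit 25257288), (nat_lit 18773175), (nat_lit 12658484)]) (by decide +kernel) (hi := (nat_lit 185)) (PfP.trans (PfP.trans (PfP.trans (PfP.trans (PfP.trans (PfP.trans (PfP.trans (PfP.trans (PfP.trans (PfP.trans (PfP.trans (PfP.trans (PfP.trans (PfP.trans (PfP.trans (PfP.trans (PfP.trans (PfP.trans (PfP.trans (PfP.trans (PfP.trans (PfP.trans (PfP.trans (PfP.trans (PfP.trans (PfP.trans (PfP.trans (PfP.trans (PfP.trans (PfP.trans (PfP.trans (PfP.trans (PfP.trans (PfP.trans (PfP.trans (PfP.trans (PfP.trans (PfP.trans (PfP.trans (PfP.trans (PfP.trans (PfP.trans (PfP.trans (PfP.trans (PfP.trans (PfP.trans (PfP.trans (PfP.trans (PfP.trans (PfP.trans (PfP.trans (PfP.trans (PfP.trans (PfP.trans (PfP.trans (PfP.trans (PfP.trans (PfP.trans (PfP.trans (PfP.trans (PfP.trans (PfP.trans (PfP.trans (PfP.trans (PfP.trans (PfP.trans (PfP.trans (PfP.trans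 (PfP.trans (PfP.trans (PfP.trans (PfP.trans (PfP.trans (PfP.trans (PfP.trans (PfP.trans (PfP.trans (PfP.trans (PfP.trans (PfP.trans (PfP.trans (PfP.trans (PfP.trans (PfP.trans (PfP.trans (PfP.trans (PfP.trans (PfP.trans (PfP.trans (PfP.trans (PfP.trans (PfP.trans (PfP.trans (PfP.trans (PfP.trans (PfP.trans (PfP.trans (PfP.trans (PfP.trans (PfP.trans (PfP.trans (PfP.trans (PfP.trans (PfP.trans (PfP.trans (PfP.trans (PfP.trans (PfP.trans (PfP.trans
 (PfP.trans (PfP.trans (PfP.trans (PfP.trans (PfP.trans (PfP.trans (PfP.trans (PfP.trans (PfP.trans (PfP.trans (PfP.trans (PfP.trans (PfP.trans (PfP.trans (PfP.trans (PfP.trans (PfP.trans (PfP.trans (PfP.trans (PfP.trans (PfP.trans (PfP.trans (PfP.trans (PfP.trans (PfP.trans (PfP.trans (PfP.trans (PfP.trans (PfP.trans (PfP.trans (PfP.trans (PfP.trans (PfP.trans (PfP.trans (PfP.trans (PfP.trans (PfP.trans (PfP.trans (PfP.trans (PfP.trans (PfP.trans (PfP.trans (PfP.trans (PfP.trans (PfP.trans (PfP.trans (PfP.trans (PfP.trans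 (PfP.trans (PfP.trans (PfP.trans (PfP.trans (PfP.trans (PfP.trans (PfP.trans (PfP.trans (PfP.trans (PfP.trans (PfP.trans (PfP.trans (PfP.trans (PfP.trans (PfP.trans (PfP.trans (PfP.trans (PfP.trans (PfP.trans (PfP.trans (PfP.trans (PfP.trans (PfP.trans (PfP.trans (PfP.trans (PfP.trans (PfP.trans (pfC_sound p15_22_3_0) (pfC_sound p15_22_3_1)) (pfC_sound p15_22_3_2)) (pfC_sound p15_22_3_3)) (pfC_sound p15_22_3_4)) (pfC_sound p15_22_3_5)) (pfC_sound p15_22_3_6)) (pfC_sound p15_22_3_7)) (pfC_sound p15_22_3_8)) (pfC_sound p15_22_3_9)) (pfC_sound p15_22_3_10)) (pfC_sound p15_22_3_11)) (pfC_sound p15_22_3_12)) (pfC_sound p15_22_3_13)) (pfC_sound p15_22_3_14)) (pfC_sound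
 p15_22_3_15)) (pfC_sound p15_22_3_16)) (pfC_sound p15_22_3_17)) (pfC_sound p15_22_3_18)) (pfC_sound p15_22_3_19)) (pfC_sound p15_22_3_20)) (pfC_sound p15_22_3_21)) (pfC_sound p15_22_3_22)) (pfC_sound p15_22_3_23)) (pfC_sound p15_22_3_24)) (pfC_sound p15_22_3_25)) (pfC_sound p15_22_3_26)) (pfC_sound p15_22_3_27)) (pfC_sound p15_22_3_28)) (pfC_sound p15_22_3_29)) (pfC_sound p15_22_3_30)) (pfC_sound p15_22_3_31)) (pfC_sound p15_22_3_32)) (pfC_sound p15_22_3_33)) (pfC_sound p15_22_3_34)) (pfC_sound p15_22_3_35)) (pfC_sound p15_22_3_36)) (pfC_sound p15_22_3_37)) (pfC_sound p15_22_3_38)) (pfC_sound p15_22_3_39)) (pfC_sound p15_22_3_40)) (pfC_sound p15_22_3_41)) (pfC_sound p15_22_3_42)) (pfC_sound p15_22_3_43)) (pfC_sound p15_22_3_44)) (pfC_sound p15_22_3_45)) (pfC_sound p15_22_3_46)) (pfC_sound p15_22_3_47)) (pfC_sound p15_22_3_48)) (pfC_sound p15_22_3_49)) (pfC_sound p15_22_3_50)) (pfC_sound p15_22_3_51)) (pfC_sound p15_22_3_52)) (pfC_sound p15_22_3_53)) (pfC_sound p15_22_3_54))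 (pfC_sound p15_22_3_55)) (pfC_sound p15_22_3_56)) (pfC_sound p15_22_3_57)) (pfC_sound p15_22_3_58)) (pfC_sound p15_22_3_59)) (pfC_sound p15_22_3_60)) (pfC_sound p15_22_3_61)) (pfC_sound p15_22_3_62)) (pfC_sound
 p15_22_3_63)) (pfC_sound p15_22_3_64)) (pfC_sound p15_22_3_65)) (pfC_sound p15_22_3_66)) (pfC_sound p15_22_3_67)) (pfC_sound p15_22_3_68)) (pfC_sound p15_22_3_69)) (pfC_sound p15_22_3_70)) (pfC_sound p15_22_3_71)) (pfC_sound p15_22_3_72)) (pfC_sound p15_22_3_73)) (pfC_sound p15_22_3_74)) (pfC_sound p15_22_3_75)) (pfC_sound p15_22_3_76)) (pfC_sound p15_22_3_77)) (pfC_sound p15_22_3_78)) (pfC_sound p15_22_3_79)) (pfC_sound p15_22_3_80)) (pfC_sound p15_22_3_81)) (pfC_sound p15_22_3_82)) (pfC_sound p15_22_3_83)) (pfC_sound p15_22_3_84)) (pfC_sound p15_22_3_85)) (pfC_sound p15_22_3_86)) (pfC_sound p15_22_3_87)) (pfC_sound p15_22_3_88)) (pfC_sound p15_22_3_89)) (pfC_sound p15_22_3_90)) (pfC_sound p15_22_3_91)) (pfC_sound p15_22_3_92)) (pfC_sound p15_22_3_93)) (pfC_sound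 p15_22_3_94)) (pfC_sound p15_22_3_95)) (pfC_sound p15_22_3_96)) (pfC_sound p15_22_3_97)) (pfC_sound p15_22_3_98)) (pfC_sound p15_22_3_99)) (pfC_sound p15_22_3_100)) (pfC_sound p15_22_3_101)) (pfC_sound p15_22_3_102)) (pfC_sound p15_22_3_103)) (pfC_sound p15_22_3_104)) (pfC_sound p15_22_3_105)) (pfC_sound p15_22_3_106)) (pfC_sound p15_22_3_107)) (pfC_sound p15_22_3_108)) (pfC_sound p15_22_3_109)) (pfC_sound p15_22_3_110))
 (pfC_sound p15_22_3_111)) (pfC_sound p15_22_3_112)) (pfC_sound p15_22_3_113)) (pfC_sound p15_22_3_114)) (pfC_sound p15_22_3_115)) (pfC_sound p15_22_3_116)) (pfC_sound p15_22_3_117)) (pfC_sound p15_22_3_118)) (pfC_sound p15_22_3_119)) (pfC_sound p15_22_3_120)) (pfC_sound p15_22_3_121)) (pfC_sound p15_22_3_122)) (pfC_sound p15_22_3_123)) (pfC_sound p15_22_3_124)) (pfC_sound p15_22_3_125)) (pfC_sound p15_22_3_126)) (pfC_sound p15_22_3_127)) (pfC_sound p15_22_3_128)) (pfC_sound p15_22_3_129)) (pfC_sound p15_22_3_130)) (pfC_sound p15_22_3_131)) (pfC_sound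 p15_22_3_132)) (pfC_sound p15_22_3_133)) (pfC_sound p15_22_3_134)) (pfC_sound p15_22_3_135)) (pfC_sound p15_22_3_136)) (pfC_sound p15_22_3_137)) (pfC_sound p15_22_3_138)) (pfC_sound p15_22_3_139)) (pfC_sound p15_22_3_140)) (pfC_sound p15_22_3_141)) (pfC_sound p15_22_3_142)) (pfC_sound p15_22_3_143)) (pfC_sound p15_22_3_144)) (pfC_sound p15_22_3_145)) (pfC_sound p15_22_3_146)) (pfC_sound p15_22_3_147)) (pfC_sound p15_22_3_148)) (pfC_sound p15_22_3_149)) (pfC_sound p15_22_3_150)) (pfC_sound p15_22_3_151)) (pfC_sound p15_22_3_152)) (pfC_sound p15_22_3_153)) (pfC_sound p15_22_3_154)) (pfC_sound p15_22_3_155)) (pfC_sound p15_22_3_156))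
 (pfC_sound p15_22_3_157)) (pfC_sound p15_22_3_158)) (pfC_sound p15_22_3_159)) (pfC_sound p15_22_3_160)) (pfC_sound p15_22_3_161)) (pfC_sound p15_22_3_162)) (pfC_sound p15_22_3_163)) (pfC_sound p15_22_3_164)) (pfC_sound p15_22_3_165)) (pfC_sound p15_22_3_166)) (pfC_sound p15_22_3_167)) (pfC_sound p15_22_3_168)) (pfC_sound p15_22_3_169)) (pfC_sound p15_22_3_170)) (pfC_sound p15_22_3_171)) (pfC_sound p15_22_3_172)) (pfC_sound p15_22_3_173)) (pfC_sound p15_22_3_174)) (pfC_sound p15_22_3_175)) (pfC_sound p15_22_3_176)) (pfC_sound p15_22_3_177)) (pfC_sound p15_22_3_178)) (pfC_sound p15_22_3_179)) (pfC_sound p15_22_3_180)) (pfC_sound p15_22_3_181)) (pfC_sound p15_22_3_182)) (pfC_sound p15_22_3_183)) (pfC_sound p15_22_3_184)) (by decide +kernel)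

def z15_22_3 : zOK yB15_22 (nat_lit 3) (nat_lit 750) (nat_lit 832) (nat_lit 4975805) (nat_lit 4019714) = true := by decide +kernel
def g15_22_3 : gOK yB15_22.x P15_22 (nat_lit 1423) (q15_22 :: r15_22) (nat_lit 3) (nat_lit 750) (nat_lit 4) (nat_lit 832) (nat_lit 12712500) (nat_lit 12712500) (nat_lit 12712500) (nat_lit 12712500) [(nat_lit 800)] = true := by decide +kernel
def v15_22_3 : ivC P15_22 s15_22 w15_22 n15_22 (nat_lit 4) (nat_lit 4640) (nat_lit 3) (nat_lit 750) f160_1_750 f168_1_750 (nat_lit 4) (nat_lit 832) f160_1_832 f168_1_832 (nat_lit 4975805) (nat_lit 4019714) p15_22_3 = true := by decide +kernel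
end CB
end Pool.Agent.Lib.MP_6947cd_al
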