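import Pool.Agent.Lib.MP_6947cd_al.L.BoxDataB
import Pool.Agent.Lib.MP_6947cd_al.L.TeD4
import Pool.Agent.Lib.MP_6947cd_al.L.TeD5

/-!
Problem MP_6947cd_al (Chollet).  CASE B, rows `j`: boxes (generated).
-/

set_option autoImplicit false
set_option linter.defProp false
set_option maxRecDepth 20000

namespace Pool.Agent.Lib.MP_6947cd_al
namespace CB

open Ent Ent.Pk Fr Fr.WT CA

/-! box `yB15_24` -/

def P15_24 : BQ := ⟨(nat_lit 8), (nat_lit 3), (nat_lit 5), (nat_lit 2), (nat_lit 6), (nat_lit 825), (nat_lit 830), (nat_lit 120), [(nat_lit 200), (nat_lit 300), (nat_lit 450), (nat_lit 800)], (nat_lit 120256000), (nat_lit 16000000), (nat_lit 16000000000)⟩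
def q15_24 : PC := ⟨(nat_lit 1000), [(nat_lit 120000), (nat_lit 200000), (nat_lit 300000), (nat_lit 450000), (nat_lit 800000)], (nat_lit 340282367000166625996085689103316680705000000), (nat_lit 15879744000000), (nat_lit 15879744000000), (nat_lit 10000000)⟩
def r15_24 : List PC := [⟨(nat_lit 1273), [(nat_lit 120554), (nat_lit 200880), (nat_lit 301006), (nat_lit 450915), (nat_lit 799645)], (nat_lit 342030057237111252280351708945982247635209040), (nat_lit 16257172200640), (nat_lit 16259562370240), (nat_lit 10046167)⟩, ⟨(nat_lit 1504), [(nat_lit 121054), (nat_lit 201600), (nat_lit 302078), (nat_lit 453004), (nat_lit 803266)], (nat_lit 343552140264693490218912668958047799031583480), (nat_lit 16552324062720), (nat_lit 16556736683520), (nat_lit 10087834)⟩]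
def s15_24 : List PB := [⟨(nat_lit 25460), (nat_lit 1928864000000), [(nat_lit 200880), (nat_lit 301006), (nat_lit 450915), (nat_lit 799645)], (nat_lit 342030057237111252280351708945982247635209040), (nat_lit 1142157079043264), (nat_lit 1142159469212864), (nat_lit 43680)⟩, ⟨(nat_lit 30080), (nat_lit 1936864000000), [(nat_lit 201600), (nat_lit 302078), (nat_lit 453004), (nat_lit 803266)], (nat_lit 343552140264693490218912668958047799031583480), (nat_lit 1142452230905344), (nat_lit 1142456643526144), (nat_lit 80640)⟩]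
def n15_24 : List KN := [⟨(nat_lit 800), (nat_lit 450), (nat_lit 12482732), (nat_lit 5851902)⟩, ⟨(nat_lit 450), (nat_lit 300), (nat_lit 18515096), (nat_lit 12482732)⟩, ⟨(nat_lit 300), (nat_lit 200), (nat_lit 24889148), (nat_lit 18515096)⟩, ⟨(nat_lit 200), (nat_lit 120), (nat_lit 37722612), (nat_lit 24889148)⟩]
def w15_24 : List ℕ := [(nat_lit 43680), (nat_lit 80640)]
def par15_24 : parC yB15_24 P15_24 s15_24 r15_24 q15_24 n15_24 w15_24 = true := by decide +kernel

def p15_24_0 : PF := (PF.cons (PF.cons (PF.cons (PF.cons (PF.leaf (nat_lit 837718) (nat_lit 2675960) (nat_lit 64432852) (nat_lit 2675960) [(nat_lit 0), (nat_lit 0), (nat_lit 0), (nat_lit 0)]) (PF.cons (PF.leaf (nat_lit 1004500) (nat_lit 269717) (nat_lit 64096402) (nat_lit 2742692) [(nat_lit 269717), (nat_lit 0), (nat_lit 0), (nat_lit 0)]) (PF.cons (PF.leaf (nat_lit 1206141) (nat_lit 298140) (nat_lit 63696675) (nat_lit 2815856) [(nat_lit 298140), (nat_lit 0), (nat_lit 0), (nat_lit 0)]) (PF.cons (PF.leaf (nat_lit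 1436918) (nat_lit 324678) (nat_lit 63242597) (nat_lit 2892179) [(nat_lit 324678), (nat_lit 0), (nat_lit 0), (nat_lit 0)]) (PF.cons (PF.leaf (nat_lit 1694028) (nat_lit 349688) (nat_lit 62740627) (nat_lit 2969432) [(nat_lit 349688), (nat_lit 0), (nat_lit 0), (nat_lit 0)]) (PF.cons (PF.leaf (nat_lit 1975099) (nat_lit 373354) (nat_lit 62195998) (nat_lit 3046041) [(nat_lit 373354), (nat_lit 0), (nat_lit 0), (nat_lit 0)]) (PF.cons (PF.leaf (nat_lit 2278026) (nat_lit 395780) (nat_lit 61613257) (nat_lit 3120871) [(nat_lit 395780), (nat_lit 0), (nat_lit 0), (nat_lit 0)]) (PF.cons (PF.leaf (nat_lit 2600837) (nat_lit 417026) (nat_lit 60996527) (nat_lit 3193098) [(nat_lit 417026), (nat_lit 0), (nat_lit 0),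
 (nat_lit 0)]) (PF.cons (PF.leaf (nat_lit 2941758) (nat_lit 437130) (nat_lit 60349637) (nat_lit 3262127) [(nat_lit 437130), (nat_lit 0), (nat_lit 0), (nat_lit 0)]) (PF.cons (PF.leaf (nat_lit 3298953) (nat_lit 456120) (nat_lit 59676188) (nat_lit 3327536) [(nat_lit 456120), (nat_lit 0), (nat_lit 0), (nat_lit 0)]) (PF.cons PF.nil (PF.cons PF.nil (PF.cons PF.nil (PF.cons PF.nil PF.nil)))))))))))))) (PF.cons (PF.cons (PF.leaf (nat_lit 1404144) (nat_lit 1215587) (nat_lit 62974620) (nat_lit 2918605) [(nat_lit 0), (nat_lit 1215587), (nat_lit 0), (nat_lit 0)]) (PF.cons (PF.leaf (nat_lit 1631445) (nat_lit 340837) (nat_lit 62516924) (nat_lit 2986733) [(nat_lit 340837), (nat_lit 1264317), (nat_lit 0), (nat_lit 0)]) (PF.cons (PF.leaf (nat_lit 1887096) (nat_lit 365051) (nat_lit 62009122) (nat_lit 3056433) [(nat_lit 365051), (nat_lit 1313153), (nat_lit 0), (nat_lit 0)]) (PF.cons (PF.leaf (nat_lit 2167097) (nat_lit 387857) (nat_lit 61458121) (nat_lit 3125953) [(nat_lit 387857), (nat_lit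 1361165), (nat_lit 0), (nat_lit 0)]) (PF.cons (PF.leaf (nat_lit 2468913) (nat_lit 409395) (nat_lit 60869381) (nat_lit 3194076) [(nat_lit 409395), (nat_lit 1407771), (nat_lit 0), (nat_lit 0)]) (PF.cons (PF.leaf
 (nat_lit 2790452) (nat_lit 429748) (nat_lit 60247543) (nat_lit 3259934) [(nat_lit 429748), (nat_lit 1452592), (nat_lit 0), (nat_lit 0)]) (PF.cons (PF.leaf (nat_lit 3129661) (nat_lit 448965) (nat_lit 59596734) (nat_lit 3322910) [(nat_lit 448965), (nat_lit 1495372), (nat_lit 0), (nat_lit 0)]) (PF.cons (PF.leaf (nat_lit 3484757) (nat_lit 467083) (nat_lit 58920716) (nat_lit 3382564) [(nat_lit 467083), (nat_lit 1535947), (nat_lit 0), (nat_lit 0)]) (PF.cons (PF.leaf (nat_lit 3853996) (nat_lit 484129) (nat_lit 58222970) (nat_lit 3438597) [(nat_lit 484129), (nat_lit 1574211), (nat_lit 0), (nat_lit 0)]) (PF.cons PF.nil (PF.cons PF.nil (PF.cons PF.nil PF.nil)))))))))))) (PF.cons (PF.cons (PF.leaf (nat_lit 2085338) (nat_lit 1361630) (nat_lit 61248291) (nat_lit 3137259)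 [(nat_lit 0), (nat_lit 1361630), (nat_lit 0), (nat_lit 0)]) (PF.cons (PF.leaf (nat_lit 2361394) (nat_lit 400897) (nat_lit 60697273) (nat_lit 3199814) [(nat_lit 400897), (nat_lit 1405414), (nat_lit 0), (nat_lit 0)]) (PF.cons (PF.leaf (nat_lit 2660505) (nat_lit 421705) (nat_lit 60107545) (nat_lit 3261449) [(nat_lit 421705), (nat_lit 1448203), (nat_lit 0), (nat_lit 0)]) (PF.cons (PF.leaf (nat_lit 2979418) (nat_lit 441285)
 (nat_lit 59484718) (nat_lit 3321206) [(nat_lit 441285), (nat_lit 1489515), (nat_lit 0), (nat_lit 0)]) (PF.cons (PF.leaf (nat_lit 3315968) (nat_lit 459715) (nat_lit 58833468) (nat_lit 3378415) [(nat_lit 459715), (nat_lit 1529034), (nat_lit 0), (nat_lit 0)]) (PF.cons (PF.leaf (nat_lit 3668148) (nat_lit 477044) (nat_lit 58157868) (nat_lit 3432610) [(nat_lit 477044), (nat_lit 1566556), (nat_lit 0), (nat_lit 0)]) (PF.cons (PF.leaf (nat_lit 4034168) (nat_lit 493310) (nat_lit 57461569) (nat_lit 3483472) [(nat_lit 493310), (nat_lit 1601953), (nat_lit 0), (nat_lit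 0)]) (PF.cons (PF.leaf (nat_lit 4412358) (nat_lit 508547) (nat_lit 56747894) (nat_lit 3530792) [(nat_lit 508547), (nat_lit 1635148), (nat_lit 0), (nat_lit 0)]) (PF.cons PF.nil (PF.cons PF.nil PF.nil)))))))))) (PF.cons (PF.cons (PF.leaf (nat_lit 2854269) (nat_lit 1485775) (nat_lit 59328038) (nat_lit 3323449) [(nat_lit 0), (nat_lit 1485775), (nat_lit 0), (nat_lit 0)]) (PF.cons (PF.leaf (nat_lit 3168585) (nat_lit 451659) (nat_lit 58708756) (nat_lit 3377312) [(nat_lit 451659), (nat_lit 1523694), (nat_lit 0), (nat_lit 0)]) (PF.cons (PF.leaf (nat_lit 3501263) (nat_lit 469406) (nat_lit 58060736) (nat_lit 3429001) [(nat_lit 469406),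
 (nat_lit 1560087), (nat_lit 0), (nat_lit 0)]) (PF.cons (PF.leaf (nat_lit 3849620) (nat_lit 486034) (nat_lit 57388614) (nat_lit 3478000) [(nat_lit 486034), (nat_lit 1594698), (nat_lit 0), (nat_lit 0)]) (PF.cons (PF.leaf (nat_lit 4211712) (nat_lit 501596) (nat_lit 56696359) (nat_lit 3523959) [(nat_lit 501596), (nat_lit 1627369), (nat_lit 0), (nat_lit 0)]) (PF.cons (PF.leaf (nat_lit 4585782) (nat_lit 516135) (nat_lit 55987469) (nat_lit 3566653) [(nat_lit 516135), (nat_lit 1658003), (nat_lit 0), (nat_lit 0)]) (PF.cons PF.nil (PF.cons PF.nil (PF.cons PF.nil PF.nil))))))))) (PF.cons (PF.cons (PF.leaf (nat_lit 3686731) (nat_lit 1588723) (nat_lit 57278916) (nat_lit 3475000) [(nat_lit 0), (nat_lit 1588723), (nat_lit 0), (nat_lit 0)]) (PF.cons (PF.leaf (nat_lit 4029813) (nat_lit 494071) (nat_lit 56613543) (nat_lit 3519034) [(nat_lit 494071), (nat_lit 1620540), (nat_lit 0), (nat_lit 0)]) (PF.cons (PF.leaf (nat_lit 4387155) (nat_lit 509009) (nat_lit 55928017) (nat_lit 3560337)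 [(nat_lit 509009), (nat_lit 1650609), (nat_lit 0), (nat_lit 0)]) (PF.cons (PF.leaf (nat_lit 4756472) (nat_lit 522921) (nat_lit 55226157) (nat_lit 3598652) [(nat_lit 522921), (nat_lit 1678809), (nat_lit 0), (nat_lit 0)])
 (PF.cons (PF.leaf (nat_lit 5136107) (nat_lit 535852) (nat_lit 54511277) (nat_lit 3633826) [(nat_lit 535852), (nat_lit 1705074), (nat_lit 0), (nat_lit 0)]) (PF.cons PF.nil (PF.cons PF.nil PF.nil))))))) (PF.cons (PF.cons (PF.leaf (nat_lit 4561460) (nat_lit 1671815) (nat_lit 55156870) (nat_lit 3592864) [(nat_lit 0), (nat_lit 1671815), (nat_lit 0), (nat_lit 0)]) (PF.cons (PF.leaf (nat_lit 4924975) (nat_lit 528921) (nat_lit 54464390) (nat_lit 3627029) [(nat_lit 528921), (nat_lit 1697694), (nat_lit 0), (nat_lit 0)]) (PF.cons (PF.leaf (nat_lit 5299210) (nat_lit 541295) (nat_lit 53758956) (nat_lit 3658313) [(nat_lit 541295), (nat_lit 1721790), (nat_lit 0), (nat_lit 0)]) (PF.cons PF.nil (PF.cons PF.nil PF.nil))))) (PF.cons (PF.cons (PF.leaf (nat_lit 5460378)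 (nat_lit 1736810) (nat_lit 53008336) (nat_lit 3679616) [(nat_lit 0), (nat_lit 1736810), (nat_lit 0), (nat_lit 0)]) (PF.cons (PF.leaf (nat_lit 5837225) (nat_lit 556981) (nat_lit 52304415) (nat_lit 3704484) [(nat_lit 556981), (nat_lit 1757155), (nat_lit 0), (nat_lit 0)]) (PF.cons PF.nil (PF.cons PF.nil PF.nil)))) (PF.cons (PF.cons (PF.leaf (nat_lit 6368647) (nat_lit 1785688) (nat_lit 50870375) (nat_lit 3738617) [(nat_lit 0), (nat_lit
 1785688), (nat_lit 0), (nat_lit 0)]) (PF.cons PF.nil PF.nil)) (PF.cons PF.nil PF.nil))))))))) (PF.cons (PF.cons (PF.cons (PF.leaf (nat_lit 2033110) (nat_lit 3148025) (nat_lit 60611619) (nat_lit 3148025) [(nat_lit 0), (nat_lit 0), (nat_lit 3349168), (nat_lit 0)]) (PF.cons (PF.leaf (nat_lit 2279087) (nat_lit 382589) (nat_lit 60117841) (nat_lit 3203197) [(nat_lit 382589), (nat_lit 0), (nat_lit 3405184), (nat_lit 0)]) (PF.cons (PF.leaf (nat_lit 2551923) (nat_lit 405353) (nat_lit 59577010) (nat_lit 3259110) [(nat_lit 405353), (nat_lit 0), (nat_lit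 3461984), (nat_lit 0)]) (PF.cons (PF.leaf (nat_lit 2847247) (nat_lit 426384) (nat_lit 58997153) (nat_lit 3314371) [(nat_lit 426384), (nat_lit 0), (nat_lit 3518135), (nat_lit 0)]) (PF.cons (PF.leaf (nat_lit 3162258) (nat_lit 445935) (nat_lit 58384390) (nat_lit 3368027) [(nat_lit 445935), (nat_lit 0), (nat_lit 3572652), (nat_lit 0)]) (PF.cons (PF.leaf (nat_lit 3494628) (nat_lit 464164) (nat_lit 57743723) (nat_lit 3419416) [(nat_lit 464164), (nat_lit 0), (nat_lit 3624848), (nat_lit 0)]) (PF.cons (PF.leaf (nat_lit 3842328) (nat_lit 481178) (nat_lit 57079429) (nat_lit 3468075) [(nat_lit 481178), (nat_lit 0), (nat_lit 3674239), (nat_lit 0)])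
 (PF.cons (PF.leaf (nat_lit 4203525) (nat_lit 497051) (nat_lit 56395269) (nat_lit 3513688) [(nat_lit 497051), (nat_lit 0), (nat_lit 3720491), (nat_lit 0)]) (PF.cons (PF.leaf (nat_lit 4576546) (nat_lit 511845) (nat_lit 55694613) (nat_lit 3556045) [(nat_lit 511845), (nat_lit 0), (nat_lit 3763387), (nat_lit 0)]) (PF.cons PF.nil PF.nil)))))))))) (PF.cons (PF.cons (PF.leaf (nat_lit 2747103) (nat_lit 1470699) (nat_lit 58793501) (nat_lit 3320152) [(nat_lit 0), (nat_lit 1470699), (nat_lit 3524459), (nat_lit 0)]) (PF.cons (PF.leaf (nat_lit 3036373) (nat_lit 436293) (nat_lit 58220633) (nat_lit 3369604) [(nat_lit 436293), (nat_lit 1507636), (nat_lit 3574645), (nat_lit 0)]) (PF.cons (PF.leaf (nat_lit 3346698) (nat_lit 455286) (nat_lit 57613351) (nat_lit 3417869) [(nat_lit 455286), (nat_lit 1543405), (nat_lit 3623613), (nat_lit 0)]) (PF.cons (PF.leaf (nat_lit 3674783) (nat_lit 472902) (nat_lit 56977665) (nat_lit 3464203) [(nat_lit 472902), (nat_lit 1577641), (nat_lit 3670594), (nat_lit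 0)]) (PF.cons (PF.leaf (nat_lit 4018327) (nat_lit 489277) (nat_lit 56318422) (nat_lit 3508099) [(nat_lit 489277), (nat_lit 1610117), (nat_lit 3715064), (nat_lit 0)]) (PF.cons (PF.leaf (nat_lit 4375340) (nat_lit
 504505) (nat_lit 55639709) (nat_lit 3549214) [(nat_lit 504505), (nat_lit 1640694), (nat_lit 3756666), (nat_lit 0)]) (PF.cons (PF.leaf (nat_lit 4744054) (nat_lit 518657) (nat_lit 54945078) (nat_lit 3587326) [(nat_lit 518657), (nat_lit 1669294), (nat_lit 3795166), (nat_lit 0)]) (PF.cons PF.nil (PF.cons PF.nil PF.nil))))))))) (PF.cons (PF.cons (PF.leaf (nat_lit 3532945) (nat_lit 1572297) (nat_lit 56830877) (nat_lit 3463329) [(nat_lit 0), (nat_lit 1572297), (nat_lit 3670010), (nat_lit 0)]) (PF.cons (PF.leaf (nat_lit 3854913) (nat_lit 480619) (nat_lit 56204094) (nat_lit 3504788) [(nat_lit 480619), (nat_lit 1603672), (nat_lit 3711965), (nat_lit 0)]) (PF.cons (PF.leaf (nat_lit 4193245) (nat_lit 496459) (nat_lit 55552992) (nat_lit 3544131) [(nat_lit 496459), (nat_lit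 1633518), (nat_lit 3751732), (nat_lit 0)]) (PF.cons (PF.leaf (nat_lit 4545273) (nat_lit 511124) (nat_lit 54882239) (nat_lit 3580973) [(nat_lit 511124), (nat_lit 1661654), (nat_lit 3788915), (nat_lit 0)]) (PF.cons (PF.leaf (nat_lit 4909067) (nat_lit 524705) (nat_lit 54195717) (nat_lit 3615064) [(nat_lit 524705), (nat_lit 1687976), (nat_lit 3823255), (nat_lit 0)]) (PF.cons (PF.leaf (nat_lit 5282945) (nat_lit 537270) (nat_lit
 53496758) (nat_lit 3646251) [(nat_lit 537270), (nat_lit 1712428), (nat_lit 3854593), (nat_lit 0)]) (PF.cons PF.nil PF.nil))))))) (PF.cons (PF.cons (PF.leaf (nat_lit 4368241) (nat_lit 1654929) (nat_lit 54783097) (nat_lit 3576424) [(nat_lit 0), (nat_lit 1654929), (nat_lit 3784503), (nat_lit 0)]) (PF.cons (PF.leaf (nat_lit 4713974) (nat_lit 516917) (nat_lit 54123047) (nat_lit 3609194) [(nat_lit 516917), (nat_lit 1680724), (nat_lit 3817478), (nat_lit 0)]) (PF.cons (PF.leaf (nat_lit 5072125) (nat_lit 530003) (nat_lit 53446829) (nat_lit 3639475) [(nat_lit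 530003), (nat_lit 1704874), (nat_lit 3847877), (nat_lit 0)]) (PF.cons (PF.leaf (nat_lit 5440519) (nat_lit 542063) (nat_lit 52758109) (nat_lit 3667091) [(nat_lit 542063), (nat_lit 1727300), (nat_lit 3875519), (nat_lit 0)]) (PF.cons PF.nil PF.nil))))) (PF.cons (PF.cons (PF.leaf (nat_lit 5234177) (nat_lit 1720099) (nat_lit 52698408) (nat_lit 3660763) [(nat_lit 0), (nat_lit 1720099), (nat_lit 3869243), (nat_lit 0)]) (PF.cons (PF.leaf (nat_lit 5596124) (nat_lit 546183) (nat_lit 52021840) (nat_lit 3685004) [(nat_lit 546183), (nat_lit 1740597), (nat_lit 3893394), (nat_lit 0)]) (PF.cons (PF.leaf (nat_lit 5967214) (nat_lit 556842) (nat_lit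
 51335623) (nat_lit 3706704) [(nat_lit 556842), (nat_lit 1759471), (nat_lit 3914915), (nat_lit 0)]) (PF.cons PF.nil PF.nil)))) (PF.cons (PF.cons (PF.leaf (nat_lit 6115261) (nat_lit 1769585) (nat_lit 50615137) (nat_lit 3718895) [(nat_lit 0), (nat_lit 1769585), (nat_lit 3926852), (nat_lit 0)]) (PF.cons (PF.leaf (nat_lit 6487183) (nat_lit 569285) (nat_lit 49935309) (nat_lit 3735231) [(nat_lit 569285), (nat_lit 1785232), (nat_lit 3942823), (nat_lit 0)]) PF.nil)) (PF.cons PF.nil (PF.cons PF.nil PF.nil)))))))) (PF.cons (PF.cons (PF.cons (PF.leaf (nat_lit 3401003) (nat_lit 3452903) (nat_lit 56335576) (nat_lit 3452903) [(nat_lit 0), (nat_lit 0), (nat_lit 3660166), (nat_lit 0)]) (PF.cons (PF.leaf (nat_lit 3698837) (nat_lit 464504) (nat_lit 55755140) (nat_lit 3491343) [(nat_lit 464504), (nat_lit 0), (nat_lit 3698912), (nat_lit 0)]) (PF.cons (PF.leaf (nat_lit 4015979) (nat_lit 481799) (nat_lit 55144275) (nat_lit 3528423) [(nat_lit 481799), (nat_lit 0), (nat_lit 3736257), (nat_lit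 0)]) (PF.cons (PF.leaf (nat_lit 4349047) (nat_lit 497619) (nat_lit 54509138) (nat_lit 3563577) [(nat_lit 497619), (nat_lit 0), (nat_lit 3771619), (nat_lit 0)]) (PF.cons (PF.leaf (nat_lit 4695703) (nat_lit 512147)
 (nat_lit 53854570) (nat_lit 3596431) [(nat_lit 512147), (nat_lit 0), (nat_lit 3804610), (nat_lit 0)]) (PF.cons (PF.leaf (nat_lit 5053972) (nat_lit 525511) (nat_lit 53184556) (nat_lit 3626740) [(nat_lit 525511), (nat_lit 0), (nat_lit 3834979), (nat_lit 0)]) (PF.cons (PF.leaf (nat_lit 5422153) (nat_lit 537806) (nat_lit 52502473) (nat_lit 3654357) [(nat_lit 537806), (nat_lit 0), (nat_lit 3862570), (nat_lit 0)]) (PF.cons PF.nil (PF.cons PF.nil PF.nil))))))))) (PF.cons (PF.cons (PF.leaf (nat_lit 4193186) (nat_lit 1637011) (nat_lit 54373739) (nat_lit 3560536) [(nat_lit 0), (nat_lit 1637011), (nat_lit 3768762), (nat_lit 0)]) (PF.cons (PF.leaf (nat_lit 4519048) (nat_lit 503120) (nat_lit 53751280) (nat_lit 3591668) [(nat_lit 503120), (nat_lit 1662778), (nat_lit 3799982),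 (nat_lit 0)]) (PF.cons (PF.leaf (nat_lit 4859533) (nat_lit 517243) (nat_lit 53108281) (nat_lit 3620775) [(nat_lit 517243), (nat_lit 1687047), (nat_lit 3829110), (nat_lit 0)]) (PF.cons (PF.leaf (nat_lit 5212014) (nat_lit 530167) (nat_lit 52449313) (nat_lit 3647579) [(nat_lit 530167), (nat_lit 1709696), (nat_lit 3855860), (nat_lit 0)]) (PF.cons (PF.leaf (nat_lit 5574622) (nat_lit 542007) (nat_lit 51778096) (nat_lit 3671910)
 [(nat_lit 542007), (nat_lit 1730663), (nat_lit 3880055), (nat_lit 0)]) (PF.cons (PF.leaf (nat_lit 5945733) (nat_lit 552853) (nat_lit 51097752) (nat_lit 3693671) [(nat_lit 552853), (nat_lit 1749925), (nat_lit 3901598), (nat_lit 0)]) (PF.cons PF.nil PF.nil))))))) (PF.cons (PF.cons (PF.leaf (nat_lit 5023478) (nat_lit 1702548) (nat_lit 52360812) (nat_lit 3642060) [(nat_lit 0), (nat_lit 1702548), (nat_lit 3850421), (nat_lit 0)]) (PF.cons (PF.leaf (nat_lit 5368978) (nat_lit 534101) (nat_lit 51715199) (nat_lit 3665539) [(nat_lit 534101), (nat_lit 1723244),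 (nat_lit 3873741), (nat_lit 0)]) (PF.cons (PF.leaf (nat_lit 5725356) (nat_lit 545560) (nat_lit 51056646) (nat_lit 3686766) [(nat_lit 545560), (nat_lit 1742404), (nat_lit 3894734), (nat_lit 0)]) (PF.cons (PF.leaf (nat_lit 6090508) (nat_lit 556009) (nat_lit 50388619) (nat_lit 3705628) [(nat_lit 556009), (nat_lit 1759986), (nat_lit 3913280), (nat_lit 0)]) (PF.cons PF.nil PF.nil))))) (PF.cons (PF.cons (PF.leaf (nat_lit 5875288) (nat_lit 1752770) (nat_lit 50337876) (nat_lit 3699086) [(nat_lit 0), (nat_lit 1752770), (nat_lit 3906769), (nat_lit 0)]) (PF.cons (PF.leaf (nat_lit 6233619) (nat_lit 558584) (nat_lit 49683733) (nat_lit 3715219)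
 [(nat_lit 558584), (nat_lit 1768758), (nat_lit 3922500), (nat_lit 0)]) (PF.cons (PF.leaf (nat_lit 6599806) (nat_lit 567763) (nat_lit 49022503) (nat_lit 3729118) [(nat_lit 567763), (nat_lit 1783273), (nat_lit 3935921), (nat_lit 0)]) (PF.cons PF.nil PF.nil)))) (PF.cons (PF.cons (PF.leaf (nat_lit 6735360) (nat_lit 1789431) (nat_lit 48336264) (nat_lit 3734097) [(nat_lit 0), (nat_lit 1789431), (nat_lit 3940363), (nat_lit 0)]) (PF.cons PF.nil PF.nil)) (PF.cons PF.nil PF.nil)))))) (PF.cons (PF.cons (PF.cons (PF.leaf (nat_lit 4830818) (nat_lit 3623562) (nat_lit 51989643) (nat_lit 3623562) [(nat_lit 0), (nat_lit 0), (nat_lit 3831869), (nat_lit 0)]) (PF.cons (PF.leaf (nat_lit 5157683) (nat_lit 520231) (nat_lit 51379955) (nat_lit 3646104) [(nat_lit 520231), (nat_lit 0), (nat_lit 3854173), (nat_lit 0)]) (PF.cons (PF.leaf (nat_lit 5497699) (nat_lit 532820) (nat_lit 50752905) (nat_lit 3666739) [(nat_lit 532820), (nat_lit 0), (nat_lit 3874509), (nat_lit 0)]) (PF.cons (PF.leaf (nat_lit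 5848274) (nat_lit 544205) (nat_lit 50112892) (nat_lit 3685272) [(nat_lit 544205), (nat_lit 0), (nat_lit 3892676), (nat_lit 0)]) (PF.cons (PF.leaf (nat_lit 6207589) (nat_lit 554524) (nat_lit 49463427) (nat_lit
 3701595) [(nat_lit 554524), (nat_lit 0), (nat_lit 3908563), (nat_lit 0)]) (PF.cons PF.nil (PF.cons PF.nil PF.nil))))))) (PF.cons (PF.cons (PF.leaf (nat_lit 5650502) (nat_lit 1735064) (nat_lit 50034633) (nat_lit 3679193) [(nat_lit 0), (nat_lit 1735064), (nat_lit 3886640), (nat_lit 0)]) (PF.cons (PF.leaf (nat_lit 5993649) (nat_lit 546606) (nat_lit 49409622) (nat_lit 3695030) [(nat_lit 546606), (nat_lit 1751452), (nat_lit 3902033), (nat_lit 0)]) (PF.cons (PF.leaf (nat_lit 6346384) (nat_lit 556642) (nat_lit 48774258) (nat_lit 3708843) [(nat_lit 556642), (nat_lit 1766418), (nat_lit 3915335), (nat_lit 0)]) (PF.cons (PF.leaf (nat_lit 6706699) (nat_lit 565694) (nat_lit 48131782) (nat_lit 3720564) [(nat_lit 565694), (nat_lit 1779947), (nat_lit 3926478), (nat_lit 0)]) (PF.cons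 PF.nil PF.nil))))) (PF.cons (PF.cons (PF.leaf (nat_lit 6484640) (nat_lit 1772845) (nat_lit 48089194) (nat_lit 3714032) [(nat_lit 0), (nat_lit 1772845), (nat_lit 3919964), (nat_lit 0)]) (PF.cons (PF.leaf (nat_lit 6837916) (nat_lit 567005) (nat_lit 47461554) (nat_lit 3723564) [(nat_lit 567005), (nat_lit 1785063), (nat_lit 3928853), (nat_lit 0)]) (PF.cons (PF.leaf (nat_lit 7197990) (nat_lit 574909) (nat_lit 46828791)
 (nat_lit 3731136) [(nat_lit 574909), (nat_lit 1795952), (nat_lit 3935720), (nat_lit 0)]) (PF.cons PF.nil PF.nil)))) (PF.cons (PF.cons (PF.leaf (nat_lit 7321849) (nat_lit 1798928) (nat_lit 46178780) (nat_lit 3730436) [(nat_lit 0), (nat_lit 1798928), (nat_lit 3934269), (nat_lit 0)]) (PF.cons PF.nil PF.nil)) (PF.cons PF.nil PF.nil))))) (PF.cons (PF.cons (PF.cons (PF.leaf (nat_lit 6248691) (nat_lit 3693698) (nat_lit 47817824) (nat_lit 3693698) [(nat_lit 0), (nat_lit 0), (nat_lit 3899322), (nat_lit 0)]) (PF.cons (PF.leaf (nat_lit 6587950) (nat_lit 555256) (nat_lit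 47217337) (nat_lit 3703276) [(nat_lit 555256), (nat_lit 0), (nat_lit 3908235), (nat_lit 0)]) (PF.cons (PF.leaf (nat_lit 6935737) (nat_lit 564053) (nat_lit 46608549) (nat_lit 3711042) [(nat_lit 564053), (nat_lit 0), (nat_lit 3915278), (nat_lit 0)]) (PF.cons (PF.leaf (nat_lit 7290094) (nat_lit 571896) (nat_lit 45994473) (nat_lit 3716965) [(nat_lit 571896), (nat_lit 0), (nat_lit 3920421), (nat_lit 0)]) (PF.cons PF.nil PF.nil))))) (PF.cons (PF.cons (PF.leaf (nat_lit 7062924) (nat_lit 1782794) (nat_lit 45959179) (nat_lit 3710592) [(nat_lit 0), (nat_lit 1782794), (nat_lit 3914061), (nat_lit 0)]) (PF.cons (PF.leaf (nat_lit 7410175)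
 (nat_lit 572179) (nat_lit 45360324) (nat_lit 3714772) [(nat_lit 572179), (nat_lit 1791871), (nat_lit 3917416), (nat_lit 0)]) (PF.cons PF.nil (PF.cons PF.nil PF.nil)))) (PF.cons (PF.cons (PF.leaf (nat_lit 7876385) (nat_lit 1800180) (nat_lit 44144542) (nat_lit 3712095) [(nat_lit 0), (nat_lit 1800180), (nat_lit 3912953), (nat_lit 0)]) (PF.cons PF.nil PF.nil)) PF.nil))) (PF.cons (PF.cons (PF.cons (PF.leaf (nat_lit 7611400) (nat_lit 3692789) (nat_lit 43949663) (nat_lit 3692789) [(nat_lit 0), (nat_lit 0), (nat_lit 3893271), (nat_lit 0)]) (PF.cons (PF.leaf (nat_lit 7951992) (nat_lit 574713) (nat_lit 43380574) (nat_lit 3692653) [(nat_lit 574713), (nat_lit 0), (nat_lit 3892174), (nat_lit 0)]) (PF.cons PF.nil PF.nil))) (PF.cons (PF.cons (PF.leaf (nat_lit 8400880) (nat_lit 1794898) (nat_lit 42231875) (nat_lit 3682425) [(nat_lit 0), (nat_lit 1794898), (nat_lit 3879922), (nat_lit 0)]) PF.nil) PF.nil)) (PF.cons PF.nil (PF.cons PF.nil (PF.cons PF.nil PF.nil))))))))) (PF.cons (PF.cons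 (PF.cons (PF.cons (PF.leaf (nat_lit 3149348) (nat_lit 3344188) (nat_lit 54341559) (nat_lit 3344188) [(nat_lit 0), (nat_lit 0), (nat_lit 0), (nat_lit 9423064)]) (PF.cons (PF.leaf (nat_lit 3400353) (nat_lit 416735)
 (nat_lit 53871552) (nat_lit 3380783) [(nat_lit 416735), (nat_lit 0), (nat_lit 0), (nat_lit 9439742)]) (PF.cons (PF.leaf (nat_lit 3675793) (nat_lit 437735) (nat_lit 53361586) (nat_lit 3417136) [(nat_lit 437735), (nat_lit 0), (nat_lit 0), (nat_lit 9454620)]) (PF.cons (PF.leaf (nat_lit 3971010) (nat_lit 456569) (nat_lit 52819868) (nat_lit 3452333) [(nat_lit 456569), (nat_lit 0), (nat_lit 0), (nat_lit 9466902)]) (PF.cons (PF.leaf (nat_lit 4283016) (nat_lit 473622) (nat_lit 52252510) (nat_lit 3485783) [(nat_lit 473622), (nat_lit 0), (nat_lit 0), (nat_lit 9476028)]) (PF.cons (PF.leaf (nat_lit 4609402) (nat_lit 489150) (nat_lit 51664352) (nat_lit 3517102) [(nat_lit 489150), (nat_lit 0), (nat_lit 0), (nat_lit 9481603)]) (PF.cons (PF.leaf (nat_lit 4948146) (nat_lit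 503336) (nat_lit 51059387) (nat_lit 3546043) [(nat_lit 503336), (nat_lit 0), (nat_lit 0), (nat_lit 9483363)]) (PF.cons (PF.leaf (nat_lit 5297481) (nat_lit 516315) (nat_lit 50441000) (nat_lit 3572458) [(nat_lit 516315), (nat_lit 0), (nat_lit 0), (nat_lit 9481146)]) (PF.cons (PF.leaf (nat_lit 5655899) (nat_lit 528195) (nat_lit 49812114) (nat_lit 3596265) [(nat_lit 528195), (nat_lit 0), (nat_lit 0), (nat_lit 9474871)]) (PF.cons
 (PF.leaf (nat_lit 6021985) (nat_lit 539062) (nat_lit 49175285) (nat_lit 3617439) [(nat_lit 539062), (nat_lit 0), (nat_lit 0), (nat_lit 9464524)]) (PF.cons PF.nil (PF.cons PF.nil PF.nil)))))))))))) (PF.cons (PF.cons (PF.leaf (nat_lit 3852558) (nat_lit 1554826) (nat_lit 52639456) (nat_lit 3451599) [(nat_lit 0), (nat_lit 1554826), (nat_lit 0), (nat_lit 9462930)]) (PF.cons (PF.leaf (nat_lit 4139807) (nat_lit 462671) (nat_lit 52110025) (nat_lit 3482573) [(nat_lit 462671), (nat_lit 1583002), (nat_lit 0), (nat_lit 9470539)]) (PF.cons (PF.leaf (nat_lit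 4445409) (nat_lit 479312) (nat_lit 51553185) (nat_lit 3512151) [(nat_lit 479312), (nat_lit 1609725), (nat_lit 0), (nat_lit 9475124)]) (PF.cons (PF.leaf (nat_lit 4766037) (nat_lit 494380) (nat_lit 50974681) (nat_lit 3539885) [(nat_lit 494380), (nat_lit 1634796), (nat_lit 0), (nat_lit 9476306)]) (PF.cons (PF.leaf (nat_lit 5099388) (nat_lit 508087) (nat_lit 50379011) (nat_lit 3565489) [(nat_lit 508087), (nat_lit 1658123), (nat_lit 0), (nat_lit 9473836)]) (PF.cons (PF.leaf (nat_lit 5443559) (nat_lit 520586) (nat_lit 49769848) (nat_lit 3588789) [(nat_lit 520586), (nat_lit 1679671), (nat_lit 0), (nat_lit 9467570)]) (PF.cons (PF.leaf (nat_lit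
 5796891) (nat_lit 531993) (nat_lit 49150282) (nat_lit 3609688) [(nat_lit 531993), (nat_lit 1699444), (nat_lit 0), (nat_lit 9457439)]) (PF.cons (PF.leaf (nat_lit 6157981) (nat_lit 542400) (nat_lit 48522957) (nat_lit 3628143) [(nat_lit 542400), (nat_lit 1717467), (nat_lit 0), (nat_lit 9443440)]) (PF.cons (PF.leaf (nat_lit 6525521) (nat_lit 551886) (nat_lit 47890169) (nat_lit 3644153) [(nat_lit 551886), (nat_lit 1733783), (nat_lit 0), (nat_lit 9425617)]) (PF.cons PF.nil PF.nil)))))))))) (PF.cons (PF.cons (PF.leaf (nat_lit 4609409) (nat_lit 1627490) (nat_lit 50849175) (nat_lit 3535451) [(nat_lit 0), (nat_lit 1627490), (nat_lit 0), (nat_lit 9469203)]) (PF.cons (PF.leaf (nat_lit 4922711) (nat_lit 498765) (nat_lit 50283260) (nat_lit 3559779) [(nat_lit 498765), (nat_lit 1650343), (nat_lit 0), (nat_lit 9466319)]) (PF.cons (PF.leaf (nat_lit 5249837) (nat_lit 512101) (nat_lit 49699099) (nat_lit 3582231) [(nat_lit 512101), (nat_lit 1671667), (nat_lit 0), (nat_lit 9459942)]) (PF.cons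 (PF.leaf (nat_lit 5588203) (nat_lit 524203) (nat_lit 49100886) (nat_lit 3602600) [(nat_lit 524203), (nat_lit 1691387), (nat_lit 0), (nat_lit 9449940)]) (PF.cons (PF.leaf (nat_lit 5936034) (nat_lit 535205) (nat_lit
 48492010) (nat_lit 3620766) [(nat_lit 535205), (nat_lit 1709477), (nat_lit 0), (nat_lit 9436258)]) (PF.cons (PF.leaf (nat_lit 6291752) (nat_lit 545209) (nat_lit 47875294) (nat_lit 3636673) [(nat_lit 545209), (nat_lit 1725947), (nat_lit 0), (nat_lit 9418900)]) (PF.cons (PF.leaf (nat_lit 6654029) (nat_lit 554300) (nat_lit 47253135) (nat_lit 3650308) [(nat_lit 554300), (nat_lit 1740823), (nat_lit 0), (nat_lit 9397919)]) (PF.cons PF.nil (PF.cons PF.nil PF.nil))))))))) (PF.cons (PF.cons (PF.leaf (nat_lit 5400637) (nat_lit 1683778) (nat_lit 49019189) (nat_lit 3596438) [(nat_lit 0), (nat_lit 1683778), (nat_lit 0), (nat_lit 9441848)]) (PF.cons (PF.leaf (nat_lit 5732096) (nat_lit 527166) (nat_lit 48433877) (nat_lit 3614044) [(nat_lit 527166), (nat_lit 1701762), (nat_lit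 0), (nat_lit 9428438)]) (PF.cons (PF.leaf (nat_lit 6073809) (nat_lit 537838) (nat_lit 47837188) (nat_lit 3629645) [(nat_lit 537838), (nat_lit 1718262), (nat_lit 0), (nat_lit 9411514)]) (PF.cons (PF.leaf (nat_lit 6423743) (nat_lit 547499) (nat_lit 47232253) (nat_lit 3643164) [(nat_lit 547499), (nat_lit 1733267), (nat_lit 0), (nat_lit 9391092)]) (PF.cons (PF.leaf (nat_lit 6780450) (nat_lit 556246) (nat_lit 46621651) (nat_lit
 3654575) [(nat_lit 556246), (nat_lit 1746789), (nat_lit 0), (nat_lit 9367230)]) (PF.cons (PF.leaf (nat_lit 7142680) (nat_lit 564154) (nat_lit 46007554) (nat_lit 3663886) [(nat_lit 564154), (nat_lit 1758858), (nat_lit 0), (nat_lit 9340020)]) (PF.cons PF.nil PF.nil))))))) (PF.cons (PF.cons (PF.leaf (nat_lit 6211157) (nat_lit 1725879) (nat_lit 47185472) (nat_lit 3636454) [(nat_lit 0), (nat_lit 1725879), (nat_lit 0), (nat_lit 9383365)]) (PF.cons (PF.leaf (nat_lit 6554484) (nat_lit 549273) (nat_lit 46593620) (nat_lit 3647737) [(nat_lit 549273), (nat_lit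 1739500), (nat_lit 0), (nat_lit 9360179)]) (PF.cons (PF.leaf (nat_lit 6905234) (nat_lit 557731) (nat_lit 45995577) (nat_lit 3657069) [(nat_lit 557731), (nat_lit 1751746), (nat_lit 0), (nat_lit 9333716)]) (PF.cons (PF.leaf (nat_lit 7261758) (nat_lit 565347) (nat_lit 45393704) (nat_lit 3664449) [(nat_lit 565347), (nat_lit 1762635), (nat_lit 0), (nat_lit 9304075)]) (PF.cons PF.nil PF.nil))))) (PF.cons (PF.cons (PF.leaf (nat_lit 7029123) (nat_lit 1755755) (nat_lit 45374625) (nat_lit 3657893) [(nat_lit 0), (nat_lit 1755755), (nat_lit 0), (nat_lit 9297517)]) (PF.cons (PF.leaf (nat_lit 7379315) (nat_lit 566128) (nat_lit 44785833) (nat_lit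
 3663473) [(nat_lit 566128), (nat_lit 1765534), (nat_lit 0), (nat_lit 9265706)]) (PF.cons (PF.leaf (nat_lit 7734662) (nat_lit 572725) (nat_lit 44194751) (nat_lit 3667254) [(nat_lit 572725), (nat_lit 1774073), (nat_lit 0), (nat_lit 9230988)]) (PF.cons PF.nil PF.nil)))) (PF.cons (PF.cons (PF.leaf (nat_lit 7845327) (nat_lit 1775181) (nat_lit 43605904) (nat_lit 3663278) [(nat_lit 0), (nat_lit 1775181), (nat_lit 0), (nat_lit 9188542)]) (PF.cons PF.nil PF.nil)) (PF.cons PF.nil (PF.cons PF.nil PF.nil))))))))) (PF.cons (PF.cons (PF.cons (PF.leaf (nat_lit 4450415) (nat_lit 3516060) (nat_lit 50432602) (nat_lit 3516060) [(nat_lit 0), (nat_lit 0), (nat_lit 3721887), (nat_lit 9438262)]) (PF.cons (PF.leaf (nat_lit 4741583) (nat_lit 481316) (nat_lit 49909181) (nat_lit 3539233) [(nat_lit 481316), (nat_lit 0), (nat_lit 3744665), (nat_lit 9434415)]) (PF.cons (PF.leaf (nat_lit 5049676) (nat_lit 496440) (nat_lit 49361517) (nat_lit 3560984) [(nat_lit 496440), (nat_lit 0), (nat_lit 3765989),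 (nat_lit 9427441)]) (PF.cons (PF.leaf (nat_lit 5371346) (nat_lit 509969) (nat_lit 48795251) (nat_lit 3580980) [(nat_lit 509969), (nat_lit 0), (nat_lit 3785519), (nat_lit 9417151)]) (PF.cons (PF.leaf (nat_lit
 5704319) (nat_lit 522145) (nat_lit 48214717) (nat_lit 3599019) [(nat_lit 522145), (nat_lit 0), (nat_lit 3803050), (nat_lit 9403444)]) (PF.cons (PF.leaf (nat_lit 6046754) (nat_lit 533138) (nat_lit 47623392) (nat_lit 3614985) [(nat_lit 533138), (nat_lit 0), (nat_lit 3818459), (nat_lit 9386284)]) (PF.cons (PF.leaf (nat_lit 6397079) (nat_lit 543077) (nat_lit 47024146) (nat_lit 3628824) [(nat_lit 543077), (nat_lit 0), (nat_lit 3831690), (nat_lit 9365687)]) (PF.cons (PF.leaf (nat_lit 6753938) (nat_lit 552064) (nat_lit 46419401) (nat_lit 3640521) [(nat_lit 552064), (nat_lit 0), (nat_lit 3842727), (nat_lit 9341710)]) (PF.cons PF.nil (PF.cons PF.nil PF.nil)))))))))) (PF.cons (PF.cons (PF.leaf (nat_lit 5204589) (nat_lit 1663470) (nat_lit 48681377) (nat_lit 3575510) [(nat_lit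 0), (nat_lit 1663470), (nat_lit 3780126), (nat_lit 9408328)]) (PF.cons (PF.leaf (nat_lit 5518371) (nat_lit 512740) (nat_lit 48129523) (nat_lit 3592736) [(nat_lit 512740), (nat_lit 1682076), (nat_lit 3796831), (nat_lit 9394903)]) (PF.cons (PF.leaf (nat_lit 5844646) (nat_lit 524662) (nat_lit 47562104) (nat_lit 3608214) [(nat_lit 524662), (nat_lit 1699240), (nat_lit 3811745), (nat_lit 9378183)]) (PF.cons (PF.leaf (nat_lit
 6180910) (nat_lit 535364) (nat_lit 46983120) (nat_lit 3621804) [(nat_lit 535364), (nat_lit 1714923), (nat_lit 3824721), (nat_lit 9358149)]) (PF.cons (PF.leaf (nat_lit 6525422) (nat_lit 544996) (nat_lit 46395755) (nat_lit 3633431) [(nat_lit 544996), (nat_lit 1729124), (nat_lit 3835685), (nat_lit 9334831)]) (PF.cons (PF.leaf (nat_lit 6876715) (nat_lit 553671) (nat_lit 45802616) (nat_lit 3643070) [(nat_lit 553671), (nat_lit 1741864), (nat_lit 3844611), (nat_lit 9308293)]) (PF.cons (PF.leaf (nat_lit 7233529) (nat_lit 561479) (nat_lit 45205884) (nat_lit 3650729)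 [(nat_lit 561479), (nat_lit 1753182), (nat_lit 3851505), (nat_lit 9278631)]) (PF.cons PF.nil (PF.cons PF.nil PF.nil))))))))) (PF.cons (PF.cons (PF.leaf (nat_lit 5985488) (nat_lit 1707293) (nat_lit 46911095) (nat_lit 3615341) [(nat_lit 0), (nat_lit 1707293), (nat_lit 3818294), (nat_lit 9349493)]) (PF.cons (PF.leaf (nat_lit 6314522) (nat_lit 537018) (nat_lit 46346116) (nat_lit 3626700) [(nat_lit 537018), (nat_lit 1721546), (nat_lit 3828990), (nat_lit 9326893)]) (PF.cons (PF.leaf (nat_lit 6652686) (nat_lit 546413) (nat_lit 45771876) (nat_lit 3636258) [(nat_lit 546413), (nat_lit 1734439), (nat_lit 3837836), (nat_lit 9301136)])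
 (PF.cons (PF.leaf (nat_lit 6998024) (nat_lit 554832) (nat_lit 45191293) (nat_lit 3643975) [(nat_lit 554832), (nat_lit 1745976), (nat_lit 3844792), (nat_lit 9272302)]) (PF.cons (PF.leaf (nat_lit 7349168) (nat_lit 562377) (nat_lit 44606740) (nat_lit 3649848) [(nat_lit 562377), (nat_lit 1756184), (nat_lit 3849855), (nat_lit 9240491)]) (PF.cons PF.nil (PF.cons PF.nil PF.nil))))))) (PF.cons (PF.cons (PF.leaf (nat_lit 6779768) (nat_lit 1738796) (nat_lit 45152048) (nat_lit 3637406) [(nat_lit 0), (nat_lit 1738796), (nat_lit 3838246), (nat_lit 9264721)]) (PF.cons (PF.leaf (nat_lit 7118361) (nat_lit 555544) (nat_lit 44585110) (nat_lit 3643331) [(nat_lit 555544), (nat_lit 1749199), (nat_lit 3843368), (nat_lit 9233858)]) (PF.cons (PF.leaf (nat_lit 7463468) (nat_lit 562877) (nat_lit 44013551) (nat_lit 3647543) [(nat_lit 562877), (nat_lit 1758362), (nat_lit 3846729), (nat_lit 9200144)]) (PF.cons (PF.leaf (nat_lit 7813516) (nat_lit 569410) (nat_lit 43439532) (nat_lit 3650055) [(nat_lit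 569410), (nat_lit 1766314), (nat_lit 3848345), (nat_lit 9163706)]) (PF.cons PF.nil PF.nil))))) (PF.cons (PF.cons (PF.leaf (nat_lit 7577179) (nat_lit 1759767) (nat_lit 43425945) (nat_lit 3643891) [(nat_lit 0),
 (nat_lit 1759767), (nat_lit 3842208), (nat_lit 9157697)]) (PF.cons (PF.leaf (nat_lit 7920890) (nat_lit 569335) (nat_lit 42865166) (nat_lit 3644974) [(nat_lit 569335), (nat_lit 1766813), (nat_lit 3842362), (nat_lit 9119717)]) (PF.cons PF.nil (PF.cons PF.nil PF.nil)))) (PF.cons (PF.cons (PF.leaf (nat_lit 8369891) (nat_lit 1771800) (nat_lit 41748020) (nat_lit 3637033) [(nat_lit 0), (nat_lit 1771800), (nat_lit 3832479), (nat_lit 9032275)]) (PF.cons PF.nil PF.nil)) (PF.cons PF.nil (PF.cons PF.nil PF.nil)))))))) (PF.cons (PF.cons (PF.cons (PF.leaf (nat_lit 5777372) (nat_lit 3593907) (nat_lit 46607388) (nat_lit 3593907) [(nat_lit 0), (nat_lit 0), (nat_lit 3796636), (nat_lit 9314244)]) (PF.cons (PF.leaf (nat_lit 6089871) (nat_lit 522925) (nat_lit 46073683) (nat_lit 3605263)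 [(nat_lit 522925), (nat_lit 0), (nat_lit 3807294), (nat_lit 9292352)]) (PF.cons (PF.leaf (nat_lit 6413750) (nat_lit 533597) (nat_lit 45526639) (nat_lit 3614999) [(nat_lit 533597), (nat_lit 0), (nat_lit 3816291), (nat_lit 9267395)]) (PF.cons (PF.leaf (nat_lit 6746541) (nat_lit 543074) (nat_lit 44970045) (nat_lit 3623028) [(nat_lit 543074), (nat_lit 0), (nat_lit 3823537), (nat_lit 9239442)]) (PF.cons (PF.leaf (nat_lit
 7086571) (nat_lit 551515) (nat_lit 44406870) (nat_lit 3629310) [(nat_lit 551515), (nat_lit 0), (nat_lit 3828994), (nat_lit 9208581)]) (PF.cons (PF.leaf (nat_lit 7432450) (nat_lit 559041) (nat_lit 43839514) (nat_lit 3633846) [(nat_lit 559041), (nat_lit 0), (nat_lit 3832661), (nat_lit 9174921)]) (PF.cons PF.nil (PF.cons PF.nil (PF.cons PF.nil PF.nil))))))))) (PF.cons (PF.cons (PF.leaf (nat_lit 6544934) (nat_lit 1720789) (nat_lit 44906911) (nat_lit 3616481) [(nat_lit 0), (nat_lit 1720789), (nat_lit 3817008), (nat_lit 9230614)]) (PF.cons (PF.leaf (nat_lit 6870328)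 (nat_lit 543656) (nat_lit 44364862) (nat_lit 3622721) [(nat_lit 543656), (nat_lit 1731905), (nat_lit 3822431), (nat_lit 9200805)]) (PF.cons (PF.leaf (nat_lit 7203894) (nat_lit 551939) (nat_lit 43815241) (nat_lit 3627346) [(nat_lit 551939), (nat_lit 1741775), (nat_lit 3826196), (nat_lit 9168178)]) (PF.cons (PF.leaf (nat_lit 7543760) (nat_lit 559282) (nat_lit 43260759) (nat_lit 3630345) [(nat_lit 559282), (nat_lit 1750417), (nat_lit 3828293), (nat_lit 9132857)]) (PF.cons (PF.leaf (nat_lit 7888620) (nat_lit 565793) (nat_lit 42703592) (nat_lit 3631732) [(nat_lit 565793), (nat_lit 1757867), (nat_lit 3828736), (nat_lit 9094972)])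
 (PF.cons PF.nil (PF.cons PF.nil PF.nil))))))) (PF.cons (PF.cons (PF.leaf (nat_lit 7321279) (nat_lit 1743502) (nat_lit 43228198) (nat_lit 3624019) [(nat_lit 0), (nat_lit 1743502), (nat_lit 3821986), (nat_lit 9125616)]) (PF.cons (PF.leaf (nat_lit 7654374) (nat_lit 559131) (nat_lit 42687511) (nat_lit 3625594) [(nat_lit 559131), (nat_lit 1751220), (nat_lit 3822630), (nat_lit 9088874)]) (PF.cons (PF.leaf (nat_lit 7993210) (nat_lit 565495) (nat_lit 42143406) (nat_lit 3625663) [(nat_lit 565495), (nat_lit 1757818), (nat_lit 3821728), (nat_lit 9049658)]) (PF.cons (PF.leaf (nat_lit 8336293) (nat_lit 571099) (nat_lit 41597861) (nat_lit 3624252) [(nat_lit 571099), (nat_lit 1763334), (nat_lit 3819309), (nat_lit 9008115)]) (PF.cons PF.nil PF.nil))))) (PF.cons (PF.cons (PF.leaf (nat_lit 8097483) (nat_lit 1757137) (nat_lit 41588976) (nat_lit 3618510) [(nat_lit 0), (nat_lit 1757137), (nat_lit 3813599), (nat_lit 9002714)]) (PF.cons (PF.leaf (nat_lit 8434302) (nat_lit 570332) (nat_lit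 41056535) (nat_lit 3615976) [(nat_lit 570332), (nat_lit 1761919), (nat_lit 3810034), (nat_lit 8960139)]) (PF.cons PF.nil (PF.cons PF.nil PF.nil)))) (PF.cons (PF.cons (PF.leaf (nat_lit 8866848) (nat_lit 1763123)
 (nat_lit 40001286) (nat_lit 3601928) [(nat_lit 0), (nat_lit 1763123), (nat_lit 3793874), (nat_lit 8865352)]) (PF.cons PF.nil PF.nil)) (PF.cons PF.nil PF.nil)))))) (PF.cons (PF.cons (PF.cons (PF.leaf (nat_lit 7079350) (nat_lit 3603605) (nat_lit 43009458) (nat_lit 3603605) [(nat_lit 0), (nat_lit 0), (nat_lit 3801234), (nat_lit 9092047)]) (PF.cons (PF.leaf (nat_lit 7400204) (nat_lit 547654) (nat_lit 42491728) (nat_lit 3605665) [(nat_lit 547654), (nat_lit 0), (nat_lit 3802360), (nat_lit 9056682)]) (PF.cons (PF.leaf (nat_lit 7728454) (nat_lit 554969) (nat_lit 41967770) (nat_lit 3606280) [(nat_lit 554969), (nat_lit 0), (nat_lit 3802003), (nat_lit 9018812)]) (PF.cons (PF.leaf (nat_lit 8062269) (nat_lit 561382) (nat_lit 41440098) (nat_lit 3605457) [(nat_lit 561382),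 (nat_lit 0), (nat_lit 3800173), (nat_lit 8978589)]) (PF.cons (PF.leaf (nat_lit 8400411) (nat_lit 567003) (nat_lit 40910707) (nat_lit 3603224) [(nat_lit 567003), (nat_lit 0), (nat_lit 3796900), (nat_lit 8936165)]) PF.nil))))) (PF.cons (PF.cons (PF.leaf (nat_lit 7836778) (nat_lit 1741633) (nat_lit 41413413) (nat_lit 3599438) [(nat_lit 0), (nat_lit 1741633), (nat_lit 3794173), (nat_lit 8971807)]) (PF.cons (PF.leaf (nat_lit
 8163859) (nat_lit 560530) (nat_lit 40899396) (nat_lit 3597495) [(nat_lit 560530), (nat_lit 1747111), (nat_lit 3791206), (nat_lit 8930659)]) (PF.cons (PF.leaf (nat_lit 8496048) (nat_lit 566059) (nat_lit 40382877) (nat_lit 3594227) [(nat_lit 566059), (nat_lit 1751579), (nat_lit 3786880), (nat_lit 8887368)]) (PF.cons PF.nil PF.nil)))) (PF.cons (PF.cons (PF.leaf (nat_lit 8591628) (nat_lit 1749235) (nat_lit 39860779) (nat_lit 3584359) [(nat_lit 0), (nat_lit 1749235), (nat_lit 3775960), (nat_lit 8837320)]) (PF.cons (PF.leaf (nat_lit 8921344) (nat_lit 569545)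 (nat_lit 39356342) (nat_lit 3578929) [(nat_lit 569545), (nat_lit 1752144), (nat_lit 3769428), (nat_lit 8791420)]) PF.nil)) (PF.cons PF.nil (PF.cons PF.nil PF.nil))))) (PF.cons (PF.cons (PF.cons (PF.leaf (nat_lit 8327596) (nat_lit 3566196) (nat_lit 39704945) (nat_lit 3566196) [(nat_lit 0), (nat_lit 0), (nat_lit 3757450), (nat_lit 8807868)]) (PF.cons (PF.leaf (nat_lit 8648335) (nat_lit 560154) (nat_lit 39217376) (nat_lit 3561423) [(nat_lit 560154), (nat_lit 0), (nat_lit 3751586), (nat_lit 8763513)]) (PF.cons (PF.leaf (nat_lit 8973663) (nat_lit 564962) (nat_lit 38727999) (nat_lit 3555482) [(nat_lit 564962), (nat_lit 0), (nat_lit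
 3744526), (nat_lit 8717300)]) (PF.cons PF.nil PF.nil)))) (PF.cons (PF.cons (PF.leaf (nat_lit 9061280) (nat_lit 1737176) (nat_lit 38236959) (nat_lit 3543532) [(nat_lit 0), (nat_lit 1737176), (nat_lit 3731474), (nat_lit 8665245)]) (PF.cons PF.nil PF.nil)) (PF.cons PF.nil PF.nil))) (PF.cons (PF.cons (PF.cons (PF.leaf (nat_lit 9508118) (nat_lit 3497708) (nat_lit 36712260) (nat_lit 3497708) [(nat_lit 0), (nat_lit 0), (nat_lit 3681888), (nat_lit 8489399)]) (PF.cons PF.nil PF.nil)) (PF.cons PF.nil PF.nil)) (PF.cons PF.nil (PF.cons PF.nil PF.nil)))))))) (PF.cons (PF.cons (PF.cons (PF.cons (PF.leaf (nat_lit 5358475) (nat_lit 3488322) (nat_lit 45361526) (nat_lit 3488322) [(nat_lit 0), (nat_lit 0), (nat_lit 0), (nat_lit 9129482)]) (PF.cons (PF.leaf (nat_lit 5639917) (nat_lit 485081) (nat_lit 44900390) (nat_lit 3501818) [(nat_lit 485081), (nat_lit 0), (nat_lit 0), (nat_lit 9110761)]) (PF.cons (PF.leaf (nat_lit 5936474) (nat_lit 498511) (nat_lit 44419511) (nat_lit 3513929) [(nat_lit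 498511), (nat_lit 0), (nat_lit 0), (nat_lit 9089174)]) (PF.cons (PF.leaf (nat_lit 6244929) (nat_lit 510310) (nat_lit 43923868) (nat_lit 3524469) [(nat_lit 510310), (nat_lit 0), (nat_lit 0), (nat_lit 9064771)])
 (PF.cons (PF.leaf (nat_lit 6563090) (nat_lit 520752) (nat_lit 43417230) (nat_lit 3533340) [(nat_lit 520752), (nat_lit 0), (nat_lit 0), (nat_lit 9037615)]) (PF.cons (PF.leaf (nat_lit 6889229) (nat_lit 530032) (nat_lit 42902573) (nat_lit 3540500) [(nat_lit 530032), (nat_lit 0), (nat_lit 0), (nat_lit 9007787)]) (PF.cons (PF.leaf (nat_lit 7221912) (nat_lit 538297) (nat_lit 42382312) (nat_lit 3545944) [(nat_lit 538297), (nat_lit 0), (nat_lit 0), (nat_lit 8975385)]) (PF.cons (PF.leaf (nat_lit 7559919) (nat_lit 545662) (nat_lit 41858449) (nat_lit 3549697) [(nat_lit 545662), (nat_lit 0), (nat_lit 0), (nat_lit 8940514)]) (PF.cons PF.nil (PF.cons PF.nil PF.nil)))))))))) (PF.cons (PF.cons (PF.leaf (nat_lit 6072947) (nat_lit 1652817) (nat_lit 43829327) (nat_lit 3517941)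 [(nat_lit 0), (nat_lit 1652817), (nat_lit 0), (nat_lit 9054362)]) (PF.cons (PF.leaf (nat_lit 6373339) (nat_lit 511317) (nat_lit 43347707) (nat_lit 3526545) [(nat_lit 511317), (nat_lit 1666589), (nat_lit 0), (nat_lit 9028325)]) (PF.cons (PF.leaf (nat_lit 6684704) (nat_lit 521618) (nat_lit 42853781) (nat_lit 3533638) [(nat_lit 521618), (nat_lit 1679009), (nat_lit 0), (nat_lit 8999573)]) (PF.cons (PF.leaf (nat_lit 7004672)
 (nat_lit 530716) (nat_lit 42350989) (nat_lit 3539159) [(nat_lit 530716), (nat_lit 1690085), (nat_lit 0), (nat_lit 8968214)]) (PF.cons (PF.leaf (nat_lit 7331624) (nat_lit 538780) (nat_lit 41842027) (nat_lit 3543090) [(nat_lit 538780), (nat_lit 1699853), (nat_lit 0), (nat_lit 8934360)]) (PF.cons (PF.leaf (nat_lit 7664221) (nat_lit 545935) (nat_lit 41329070) (nat_lit 3545443) [(nat_lit 545935), (nat_lit 1708358), (nat_lit 0), (nat_lit 8898130)]) (PF.cons (PF.leaf (nat_lit 8001334) (nat_lit 552283) (nat_lit 40813912) (nat_lit 3546250) [(nat_lit 552283),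 (nat_lit 1715655), (nat_lit 0), (nat_lit 8859648)]) (PF.cons PF.nil (PF.cons PF.nil PF.nil))))))))) (PF.cons (PF.cons (PF.leaf (nat_lit 6807239) (nat_lit 1682433) (nat_lit 42292771) (nat_lit 3532503) [(nat_lit 0), (nat_lit 1682433), (nat_lit 0), (nat_lit 8959335)]) (PF.cons (PF.leaf (nat_lit 7120048) (nat_lit 530934) (nat_lit 41803105) (nat_lit 3536502) [(nat_lit 530934), (nat_lit 1692445), (nat_lit 0), (nat_lit 8926689)]) (PF.cons (PF.leaf (nat_lit 7440795) (nat_lit 538862) (nat_lit 41306356) (nat_lit 3539030) [(nat_lit 538862), (nat_lit 1701248), (nat_lit 0), (nat_lit 8891601)]) (PF.cons (PF.leaf (nat_lit 7767645) (nat_lit 545859)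
 (nat_lit 40804981) (nat_lit 3540088) [(nat_lit 545859), (nat_lit 1708874), (nat_lit 0), (nat_lit 8854207)]) (PF.cons (PF.leaf (nat_lit 8099348) (nat_lit 552037) (nat_lit 40300948) (nat_lit 3539699) [(nat_lit 552037), (nat_lit 1715368), (nat_lit 0), (nat_lit 8814639)]) (PF.cons PF.nil (PF.cons PF.nil PF.nil))))))) (PF.cons (PF.cons (PF.leaf (nat_lit 7550285) (nat_lit 1701960) (nat_lit 40774783) (nat_lit 3533830) [(nat_lit 0), (nat_lit 1701960), (nat_lit 0), (nat_lit 8847158)]) (PF.cons (PF.leaf (nat_lit 7870639) (nat_lit 545425) (nat_lit 40285797) (nat_lit 3533692) [(nat_lit 545425), (nat_lit 1708763), (nat_lit 0), (nat_lit 8808803)]) (PF.cons (PF.leaf (nat_lit 8196612) (nat_lit 551480) (nat_lit 39793474) (nat_lit 3532199) [(nat_lit 551480), (nat_lit 1714504), (nat_lit 0), (nat_lit 8768331)]) (PF.cons (PF.leaf (nat_lit 8526731) (nat_lit 556792) (nat_lit 39299599) (nat_lit 3529384) [(nat_lit 556792), (nat_lit 1719224), (nat_lit 0), (nat_lit 8725888)]) (PF.cons PF.nil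 PF.nil))))) (PF.cons (PF.cons (PF.leaf (nat_lit 8293835) (nat_lit 1713098) (nat_lit 39291083) (nat_lit 3523800) [(nat_lit 0), (nat_lit 1713098), (nat_lit 0), (nat_lit 8720768)]) (PF.cons (PF.leaf (nat_lit 8617999)
 (nat_lit 555823) (nat_lit 38808927) (nat_lit 3520051) [(nat_lit 555823), (nat_lit 1717174), (nat_lit 0), (nat_lit 8677655)]) (PF.cons PF.nil (PF.cons PF.nil PF.nil)))) (PF.cons (PF.cons (PF.leaf (nat_lit 9031706) (nat_lit 1717260) (nat_lit 37852268) (nat_lit 3504203) [(nat_lit 0), (nat_lit 1717260), (nat_lit 0), (nat_lit 8583019)]) (PF.cons PF.nil PF.nil)) (PF.cons PF.nil (PF.cons PF.nil PF.nil)))))))) (PF.cons (PF.cons (PF.cons (PF.leaf (nat_lit 6591635) (nat_lit 3510693) (nat_lit 42045185) (nat_lit 3510693) [(nat_lit 0), (nat_lit 0), (nat_lit 3705620), (nat_lit 8923656)]) (PF.cons (PF.leaf (nat_lit 6889654) (nat_lit 517122) (nat_lit 41582185) (nat_lit 3515187) [(nat_lit 517122), (nat_lit 0), (nat_lit 3709190), (nat_lit 8892563)]) (PF.cons (PF.leaf (nat_lit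 7197766) (nat_lit 526388) (nat_lit 41108492) (nat_lit 3518292) [(nat_lit 526388), (nat_lit 0), (nat_lit 3711341), (nat_lit 8858954)]) (PF.cons (PF.leaf (nat_lit 7513647) (nat_lit 534490) (nat_lit 40627338) (nat_lit 3519980) [(nat_lit 534490), (nat_lit 0), (nat_lit 3712047), (nat_lit 8822987)]) (PF.cons (PF.leaf (nat_lit 7835742) (nat_lit 541600) (nat_lit 40141230) (nat_lit 3520255) [(nat_lit 541600), (nat_lit 0), (nat_lit
 3711312), (nat_lit 8784806)]) (PF.cons (PF.leaf (nat_lit 8162778) (nat_lit 547848) (nat_lit 39652165) (nat_lit 3519141) [(nat_lit 547848), (nat_lit 0), (nat_lit 3709163), (nat_lit 8744550)]) (PF.cons PF.nil (PF.cons PF.nil (PF.cons PF.nil PF.nil))))))))) (PF.cons (PF.cons (PF.leaf (nat_lit 7312042) (nat_lit 1684541) (nat_lit 40576515) (nat_lit 3513480) [(nat_lit 0), (nat_lit 1684541), (nat_lit 3705559), (nat_lit 8814357)]) (PF.cons (PF.leaf (nat_lit 7620742) (nat_lit 533942) (nat_lit 40108524) (nat_lit 3513964) [(nat_lit 533942), (nat_lit 1692207),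 (nat_lit 3705051), (nat_lit 8777561)]) (PF.cons (PF.leaf (nat_lit 7936638) (nat_lit 540979) (nat_lit 39634610) (nat_lit 3513127) [(nat_lit 540979), (nat_lit 1698771), (nat_lit 3703194), (nat_lit 8738575)]) (PF.cons (PF.leaf (nat_lit 8257966) (nat_lit 547126) (nat_lit 39157051) (nat_lit 3510988) [(nat_lit 547126), (nat_lit 1704271), (nat_lit 3700007), (nat_lit 8697558)]) (PF.cons (PF.leaf (nat_lit 8583557) (nat_lit 552495) (nat_lit 38677654) (nat_lit 3507580) [(nat_lit 552495), (nat_lit 1708754), (nat_lit 3695526), (nat_lit 8654658)]) (PF.cons PF.nil (PF.cons PF.nil PF.nil))))))) (PF.cons (PF.cons (PF.leaf (nat_lit 8038064) (nat_lit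
 1697688) (nat_lit 39132225) (nat_lit 3505072) [(nat_lit 0), (nat_lit 1697688), (nat_lit 3694117), (nat_lit 8691010)]) (PF.cons (PF.leaf (nat_lit 8352957) (nat_lit 546088) (nat_lit 38666873) (nat_lit 3501995) [(nat_lit 546088), (nat_lit 1702520), (nat_lit 3689984), (nat_lit 8649415)]) (PF.cons (PF.leaf (nat_lit 8672895) (nat_lit 551384) (nat_lit 38198966) (nat_lit 3497721) [(nat_lit 551384), (nat_lit 1706394), (nat_lit 3684629), (nat_lit 8605969)]) (PF.cons PF.nil (PF.cons PF.nil PF.nil))))) (PF.cons (PF.cons (PF.leaf (nat_lit 8762417) (nat_lit 1703589) (nat_lit 37725289) (nat_lit 3487137) [(nat_lit 0), (nat_lit 1703589), (nat_lit 3672985), (nat_lit 8556315)]) (PF.cons (PF.leaf (nat_lit 9080141) (nat_lit 554531) (nat_lit 37267854) (nat_lit 3480982) [(nat_lit 554531), (nat_lit 1706029), (nat_lit 3665719), (nat_lit 8510817)]) (PF.cons PF.nil (PF.cons PF.nil PF.nil)))) (PF.cons (PF.cons (PF.leaf (nat_lit 9479726) (nat_lit 1703497) (nat_lit 36364208) (nat_lit 3461242) [(nat_lit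 0), (nat_lit 1703497), (nat_lit 3643761), (nat_lit 8412806)]) (PF.cons PF.nil PF.nil)) (PF.cons PF.nil PF.nil)))))) (PF.cons (PF.cons (PF.cons (PF.leaf (nat_lit 7795375) (nat_lit 3485648) (nat_lit 38955262)
 (nat_lit 3485648) [(nat_lit 0), (nat_lit 0), (nat_lit 3674372), (nat_lit 8659578)]) (PF.cons (PF.leaf (nat_lit 8099424) (nat_lit 535094) (nat_lit 38509204) (nat_lit 3483268) [(nat_lit 535094), (nat_lit 0), (nat_lit 3670944), (nat_lit 8619678)]) (PF.cons (PF.leaf (nat_lit 8410067) (nat_lit 541354) (nat_lit 38058157) (nat_lit 3479703) [(nat_lit 541354), (nat_lit 0), (nat_lit 3666304), (nat_lit 8577817)]) (PF.cons (PF.leaf (nat_lit 8725575) (nat_lit 546762) (nat_lit 37604231) (nat_lit 3474981) [(nat_lit 546762), (nat_lit 0), (nat_lit 3660485), (nat_lit 8534169)]) (PF.cons (PF.leaf (nat_lit 9044842) (nat_lit 551434) (nat_lit 37149088) (nat_lit 3469144) [(nat_lit 551434), (nat_lit 0), (nat_lit 3653530), (nat_lit 8488891)]) PF.nil))))) (PF.cons (PF.cons (PF.leaf (nat_lit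 8504001) (nat_lit 1689049) (nat_lit 37584094) (nat_lit 3469427) [(nat_lit 0), (nat_lit 1689049), (nat_lit 3654959), (nat_lit 8528162)]) (PF.cons (PF.leaf (nat_lit 8813170) (nat_lit 545237) (nat_lit 37142043) (nat_lit 3463979) [(nat_lit 545237), (nat_lit 1692236), (nat_lit 3648412), (nat_lit 8484245)]) (PF.cons (PF.leaf (nat_lit 9126892) (nat_lit 549876) (nat_lit 36698042) (nat_lit 3457472) [(nat_lit 549876), (nat_lit
 1694556), (nat_lit 3640784), (nat_lit 8438709)]) (PF.cons PF.nil PF.nil)))) (PF.cons (PF.cons (PF.leaf (nat_lit 9209333) (nat_lit 1690642) (nat_lit 36251841) (nat_lit 3445217) [(nat_lit 0), (nat_lit 1690642), (nat_lit 3627438), (nat_lit 8387796)]) (PF.cons (PF.leaf (nat_lit 9520545) (nat_lit 552022) (nat_lit 35818355) (nat_lit 3437143) [(nat_lit 552022), (nat_lit 1691725), (nat_lit 3618223), (nat_lit 8340696)]) PF.nil)) (PF.cons PF.nil (PF.cons PF.nil PF.nil))))) (PF.cons (PF.cons (PF.cons (PF.leaf (nat_lit 8949312) (nat_lit 3428533) (nat_lit 36126287)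 (nat_lit 3428533) [(nat_lit 0), (nat_lit 0), (nat_lit 3610452), (nat_lit 8361317)]) (PF.cons (PF.leaf (nat_lit 9252586) (nat_lit 543158) (nat_lit 35706888) (nat_lit 3421185) [(nat_lit 543158), (nat_lit 0), (nat_lit 3601976), (nat_lit 8315824)]) (PF.cons (PF.leaf (nat_lit 9560018) (nat_lit 547228) (nat_lit 35286002) (nat_lit 3412897) [(nat_lit 547228), (nat_lit 0), (nat_lit 3592543), (nat_lit 8268913)]) (PF.cons PF.nil PF.nil)))) (PF.cons (PF.cons (PF.leaf (nat_lit 9635963) (nat_lit 1675003) (nat_lit 34865873) (nat_lit 3399383) [(nat_lit 0), (nat_lit 1675003), (nat_lit 3577923), (nat_lit 8217391)]) (PF.cons PF.nil PF.nil)) (PF.cons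
 PF.nil PF.nil))) (PF.cons (PF.cons (PF.cons (PF.leaf (nat_lit 10043677) (nat_lit 3350714) (nat_lit 33562280) (nat_lit 3350714) [(nat_lit 0), (nat_lit 0), (nat_lit 3525559), (nat_lit 8046790)]) (PF.cons PF.nil PF.nil)) (PF.cons PF.nil PF.nil)) (PF.cons PF.nil PF.nil)))))) (PF.cons (PF.cons (PF.cons (PF.cons (PF.leaf (nat_lit 7304240) (nat_lit 3401508) (nat_lit 38181272) (nat_lit 3401508) [(nat_lit 0), (nat_lit 0), (nat_lit 0), (nat_lit 8508677)]) (PF.cons (PF.leaf (nat_lit 7588461) (nat_lit 506695) (nat_lit 37779928) (nat_lit 3401754) [(nat_lit 506695), (nat_lit 0), (nat_lit 0), (nat_lit 8473478)]) (PF.cons (PF.leaf (nat_lit 7881836) (nat_lit 514896) (nat_lit 37369728) (nat_lit 3400795) [(nat_lit 514896), (nat_lit 0), (nat_lit 0), (nat_lit 8436165)]) (PF.cons (PF.leaf (nat_lit 8182140) (nat_lit 521976) (nat_lit 36953432) (nat_lit 3398637) [(nat_lit 521976), (nat_lit 0), (nat_lit 0), (nat_lit 8396938)]) (PF.cons (PF.leaf (nat_lit 8487925) (nat_lit 528111) (nat_lit 36533164)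 (nat_lit 3395310) [(nat_lit 528111), (nat_lit 0), (nat_lit 0), (nat_lit 8355964)]) (PF.cons (PF.leaf (nat_lit 8798016) (nat_lit 533434) (nat_lit 36110605) (nat_lit 3390850) [(nat_lit 533434), (nat_lit 0),
 (nat_lit 0), (nat_lit 8313394)]) (PF.cons PF.nil PF.nil))))))) (PF.cons (PF.cons (PF.leaf (nat_lit 7982766) (nat_lit 1637297) (nat_lit 36912383) (nat_lit 3392424) [(nat_lit 0), (nat_lit 1637297), (nat_lit 0), (nat_lit 8388902)]) (PF.cons (PF.leaf (nat_lit 8276168) (nat_lit 520722) (nat_lit 36507661) (nat_lit 3389447) [(nat_lit 520722), (nat_lit 1642653), (nat_lit 0), (nat_lit 8349442)]) (PF.cons (PF.leaf (nat_lit 8576063) (nat_lit 526843) (nat_lit 36098069) (nat_lit 3385365) [(nat_lit 526843), (nat_lit 1647025), (nat_lit 0), (nat_lit 8308221)]) (PF.cons (PF.leaf (nat_lit 8880766) (nat_lit 532122) (nat_lit 35685534) (nat_lit 3380214) [(nat_lit 532122), (nat_lit 1650461), (nat_lit 0), (nat_lit 8265411)]) (PF.cons (PF.leaf (nat_lit 9189222) (nat_lit 536674) (nat_lit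 35271572) (nat_lit 3374034) [(nat_lit 536674), (nat_lit 1653016), (nat_lit 0), (nat_lit 8221163)]) PF.nil))))) (PF.cons (PF.cons (PF.leaf (nat_lit 8665086) (nat_lit 1644263) (nat_lit 35666607) (nat_lit 3374772) [(nat_lit 0), (nat_lit 1644263), (nat_lit 0), (nat_lit 8259635)]) (PF.cons (PF.leaf (nat_lit 8963698) (nat_lit 530548) (nat_lit 35264658) (nat_lit 3368997) [(nat_lit 530548), (nat_lit 1647209), (nat_lit 0),
 (nat_lit 8216729)]) (PF.cons (PF.leaf (nat_lit 9266866) (nat_lit 535078) (nat_lit 34860620) (nat_lit 3362245) [(nat_lit 535078), (nat_lit 1649320), (nat_lit 0), (nat_lit 8172383)]) (PF.cons PF.nil PF.nil)))) (PF.cons (PF.cons (PF.leaf (nat_lit 9345057) (nat_lit 1645302) (nat_lit 34453863) (nat_lit 3349957) [(nat_lit 0), (nat_lit 1645302), (nat_lit 0), (nat_lit 8123028)]) (PF.cons (PF.leaf (nat_lit 9645960) (nat_lit 537113) (nat_lit 34058877) (nat_lit 3341805) [(nat_lit 537113), (nat_lit 1646250), (nat_lit 0), (nat_lit 8077421)]) PF.nil)) (PF.cons PF.nil PF.nil)))))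 (PF.cons (PF.cons (PF.cons (PF.leaf (nat_lit 8424680) (nat_lit 3356756) (nat_lit 35522421) (nat_lit 3356756) [(nat_lit 0), (nat_lit 0), (nat_lit 3536478), (nat_lit 8231052)]) (PF.cons (PF.leaf (nat_lit 8713550) (nat_lit 520118) (nat_lit 35136724) (nat_lit 3351770) [(nat_lit 520118), (nat_lit 0), (nat_lit 3530409), (nat_lit 8189930)]) (PF.cons (PF.leaf (nat_lit 9008435) (nat_lit 525601) (nat_lit 34746837) (nat_lit 3345787) [(nat_lit 525601), (nat_lit 0), (nat_lit 3523328), (nat_lit 8147218)]) (PF.cons (PF.leaf (nat_lit 9307683) (nat_lit 530279) (nat_lit 34354550) (nat_lit 3338851) [(nat_lit 530279), (nat_lit 0), (nat_lit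
 3515278), (nat_lit 8103097)]) (PF.cons PF.nil PF.nil))))) (PF.cons (PF.cons (PF.leaf (nat_lit 9091191) (nat_lit 1631824) (nat_lit 34339370) (nat_lit 3333780) [(nat_lit 0), (nat_lit 1631824), (nat_lit 3510244), (nat_lit 8097864)]) (PF.cons (PF.leaf (nat_lit 9384461) (nat_lit 528358) (nat_lit 33957293) (nat_lit 3326371) [(nat_lit 528358), (nat_lit 1633527), (nat_lit 3501728), (nat_lit 8053844)]) (PF.cons (PF.leaf (nat_lit 9681880) (nat_lit 532356) (nat_lit 33573550) (nat_lit 3318092) [(nat_lit 532356), (nat_lit 1634471), (nat_lit 3492327), (nat_lit 8008552)]) (PF.cons PF.nil PF.nil)))) (PF.cons (PF.cons (PF.leaf (nat_lit 9754217) (nat_lit 1629701) (nat_lit 33189831) (nat_lit 3304777) [(nat_lit 0), (nat_lit 1629701), (nat_lit 3477938), (nat_lit 7958954)]) (PF.cons PF.nil PF.nil)) PF.nil))) (PF.cons (PF.cons (PF.cons (PF.leaf (nat_lit 9499847) (nat_lit 3289626) (nat_lit 33087772) (nat_lit 3289626) [(nat_lit 0), (nat_lit 0), (nat_lit 3462529), (nat_lit 7935451)]) (PF.cons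 (PF.leaf (nat_lit 9787689) (nat_lit 525299) (nat_lit 32724819) (nat_lit 3280913) [(nat_lit 525299), (nat_lit 0), (nat_lit 3452704), (nat_lit 7890790)]) (PF.cons PF.nil PF.nil))) (PF.cons (PF.cons (PF.leaf (nat_lit
 10146311) (nat_lit 1612333) (nat_lit 31998549) (nat_lit 3257357) [(nat_lit 0), (nat_lit 1612333), (nat_lit 3426952), (nat_lit 7795555)]) PF.nil) PF.nil)) (PF.cons PF.nil (PF.cons PF.nil PF.nil))))) (PF.cons (PF.cons (PF.cons (PF.cons (PF.leaf (nat_lit 8986958) (nat_lit 3225991) (nat_lit 32596077) (nat_lit 3225991) [(nat_lit 0), (nat_lit 0), (nat_lit 0), (nat_lit 7821685)]) (PF.cons (PF.leaf (nat_lit 9262157) (nat_lit 504163) (nat_lit 32260713) (nat_lit 3219510) [(nat_lit 504163), (nat_lit 0), (nat_lit 0), (nat_lit 7781106)]) (PF.cons (PF.leaf (nat_lit 9542929) (nat_lit 509053) (nat_lit 31921720) (nat_lit 3212176) [(nat_lit 509053), (nat_lit 0), (nat_lit 0), (nat_lit 7739202)]) (PF.cons (PF.leaf (nat_lit 9827684) (nat_lit 513184) (nat_lit 31580629) (nat_lit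 3204036) [(nat_lit 513184), (nat_lit 0), (nat_lit 0), (nat_lit 7696148)]) (PF.cons PF.nil PF.nil))))) (PF.cons (PF.cons (PF.leaf (nat_lit 9616830) (nat_lit 1573664) (nat_lit 31569211) (nat_lit 3199428) [(nat_lit 0), (nat_lit 1573664), (nat_lit 0), (nat_lit 7691627)]) (PF.cons (PF.leaf (nat_lit 9895936) (nat_lit 511039) (nat_lit 31236875) (nat_lit 3190984) [(nat_lit 511039), (nat_lit 1574392), (nat_lit 0), (nat_lit 7648880)])
 (PF.cons PF.nil (PF.cons PF.nil PF.nil)))) (PF.cons (PF.cons (PF.leaf (nat_lit 10243283) (nat_lit 1569246) (nat_lit 30570706) (nat_lit 3168194) [(nat_lit 0), (nat_lit 1569246), (nat_lit 0), (nat_lit 7557854)]) (PF.cons PF.nil PF.nil)) PF.nil))) (PF.cons (PF.cons (PF.cons (PF.leaf (nat_lit 9995381) (nat_lit 3154500) (nat_lit 30486987) (nat_lit 3154500) [(nat_lit 0), (nat_lit 0), (nat_lit 3318901), (nat_lit 7537105)]) (PF.cons (PF.leaf (nat_lit 10269486) (nat_lit 507436) (nat_lit 30170733) (nat_lit 3145144) [(nat_lit 507436), (nat_lit 0), (nat_lit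 3308472), (nat_lit 7494256)]) PF.nil)) (PF.cons PF.nil PF.nil)) (PF.cons PF.nil PF.nil))) (PF.cons (PF.cons (PF.cons (PF.cons (PF.leaf (nat_lit 10447398) (nat_lit 3025597) (nat_lit 28242546) (nat_lit 3025597) [(nat_lit 0), (nat_lit 0), (nat_lit 0), (nat_lit 7168133)]) (PF.cons PF.nil PF.nil)) (PF.cons PF.nil PF.nil)) (PF.cons PF.nil PF.nil)) (PF.cons PF.nil (PF.cons PF.nil (PF.cons PF.nil PF.nil)))))))))

def p15_24_0_0 : pfC (piC [(nat_lit 37722612), (nat_lit 24889148), (nat_lit 18515096), (nat_lit 12482732)] (nat_lit 21286319)) p15_24_0 (nat_lit 4) (nat_lit 0) (nat_lit 1) = true := by decide +kernel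
def p15_24_0_1 : pfC (piC [(nat_lit 37722612), (nat_lit 24889148), (nat_lit 18515096), (nat_lit 12482732)] (nat_lit 21286319)) p15_24_0 (nat_lit 4) (nat_lit 1) (nat_lit 2) = true := by decide +kernel
def p15_24_0_2 : pfC (piC [(nat_lit 37722612), (nat_lit 24889148), (nat_lit 18515096), (nat_lit 12482732)] (nat_lit 21286319)) p15_24_0 (nat_lit 4) (nat_lit 2) (nat_lit 3) = true := by decide +kernel
def p15_24_0_3 : pfC (piC [(nat_lit 37722612), (nat_lit 24889148), (nat_lit 18515096), (nat_lit 12482732)] (nat_lit 21286319)) p15_24_0 (nat_lit 4) (nat_lit 3) (nat_lit 4) = true := by decide +kernel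
def p15_24_0_4 : pfC (piC [(nat_lit 37722612), (nat_lit 24889148), (nat_lit 18515096), (nat_lit 12482732)] (nat_lit 21286319)) p15_24_0 (nat_lit 4) (nat_lit 4) (nat_lit 5) = true := by decide +kernel
def p15_24_0_5 : pfC (piC [(nat_lit 37722612), (nat_lit 24889148), (nat_lit 18515096), (nat_lit 12482732)] (nat_lit 21286319)) p15_24_0 (nat_lit 4) (nat_lit 5) (nat_lit 6) = true := by decide +kernel
def p15_24_0_6 : pfC (piC [(nat_lit 37722612), (nat_lit 24889148), (nat_lit 18515096), (nat_lit 12482732)] (nat_lit 21286319)) p15_24_0 (nat_lit 4) (nat_lit 6) (nat_lit 7) = true := by decide +kernel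
def p15_24_0_7 : pfC (piC [(nat_lit 37722612), (nat_lit 24889148), (nat_lit 18515096), (nat_lit 12482732)] (nat_lit 21286319)) p15_24_0 (nat_lit 4) (nat_lit 7) (nat_lit 8) = true := by decide +kernel
def p15_24_0_8 : pfC (piC [(nat_lit 37722612), (nat_lit 24889148), (nat_lit 18515096), (nat_lit 12482732)] (nat_lit 21286319)) p15_24_0 (nat_lit 4) (nat_lit 8) (nat_lit 9) = true := by decide +kernel
def p15_24_0_9 : pfC (piC [(nat_lit 37722612), (nat_lit 24889148), (nat_lit 18515096), (nat_lit 12482732)] (nat_lit 21286319)) p15_24_0 (nat_lit 4) (nat_lit 9) (nat_lit 10) = true := by decide +kernel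
def p15_24_0_10 : pfC (piC [(nat_lit 37722612), (nat_lit 24889148), (nat_lit 18515096), (nat_lit 12482732)] (nat_lit 21286319)) p15_24_0 (nat_lit 4) (nat_lit 10) (nat_lit 11) = true := by decide +kernel
def p15_24_0_11 : pfC (piC [(nat_lit 37722612), (nat_lit 24889148), (nat_lit 18515096), (nat_lit 12482732)] (nat_lit 21286319)) p15_24_0 (nat_lit 4) (nat_lit 11) (nat_lit 12) = true := by decide +kernel
def p15_24_0_12 : pfC (piC [(nat_lit 37722612), (nat_lit 24889148), (nat_lit 18515096), (nat_lit 12482732)] (nat_lit 21286319)) p15_24_0 (nat_lit 4) (nat_lit 12) (nat_lit 13) = true := by decide +kernel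
def p15_24_0_13 : pfC (piC [(nat_lit 37722612), (nat_lit 24889148), (nat_lit 18515096), (nat_lit 12482732)] (nat_lit 21286319)) p15_24_0 (nat_lit 4) (nat_lit 13) (nat_lit 14) = true := by decide +kernel
def p15_24_0_14 : pfC (piC [(nat_lit 37722612), (nat_lit 24889148), (nat_lit 18515096), (nat_lit 12482732)] (nat_lit 21286319)) p15_24_0 (nat_lit 4) (nat_lit 14) (nat_lit 15) = true := by decide +kernel
def p15_24_0_15 : pfC (piC [(nat_lit 37722612), (nat_lit 24889148), (nat_lit 18515096), (nat_lit 12482732)] (nat_lit 21286319)) p15_24_0 (nat_lit 4) (nat_lit 15) (nat_lit 16) = true := by decide +kernel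
def p15_24_0_16 : pfC (piC [(nat_lit 37722612), (nat_lit 24889148), (nat_lit 18515096), (nat_lit 12482732)] (nat_lit 21286319)) p15_24_0 (nat_lit 4) (nat_lit 16) (nat_lit 17) = true := by decide +kernel
def p15_24_0_17 : pfC (piC [(nat_lit 37722612), (nat_lit 24889148), (nat_lit 18515096), (nat_lit 12482732)] (nat_lit 21286319)) p15_24_0 (nat_lit 4) (nat_lit 17) (nat_lit 18) = true := by decide +kernel
def p15_24_0_18 : pfC (piC [(nat_lit 37722612), (nat_lit 24889148), (nat_lit 18515096), (nat_lit 12482732)] (nat_lit 21286319)) p15_24_0 (nat_lit 4) (nat_lit 18) (nat_lit 19) = true := by decide +kernel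
def p15_24_0_19 : pfC (piC [(nat_lit 37722612), (nat_lit 24889148), (nat_lit 18515096), (nat_lit 12482732)] (nat_lit 21286319)) p15_24_0 (nat_lit 4) (nat_lit 19) (nat_lit 20) = true := by decide +kernel
def p15_24_0_20 : pfC (piC [(nat_lit 37722612), (nat_lit 24889148), (nat_lit 18515096), (nat_lit 12482732)] (nat_lit 21286319)) p15_24_0 (nat_lit 4) (nat_lit 20) (nat_lit 21) = true := by decide +kernel
def p15_24_0_21 : pfC (piC [(nat_lit 37722612), (nat_lit 24889148), (nat_lit 18515096), (nat_lit 12482732)] (nat_lit 21286319)) p15_24_0 (nat_lit 4) (nat_lit 21) (nat_lit 22) = true := by decide +kernel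
def p15_24_0_22 : pfC (piC [(nat_lit 37722612), (nat_lit 24889148), (nat_lit 18515096), (nat_lit 12482732)] (nat_lit 21286319)) p15_24_0 (nat_lit 4) (nat_lit 22) (nat_lit 23) = true := by decide +kernel
def p15_24_0_23 : pfC (piC [(nat_lit 37722612), (nat_lit 24889148), (nat_lit 18515096), (nat_lit 12482732)] (nat_lit 21286319)) p15_24_0 (nat_lit 4) (nat_lit 23) (nat_lit 24) = true := by decide +kernel
def p15_24_0_24 : pfC (piC [(nat_lit 37722612), (nat_lit 24889148), (nat_lit 18515096), (nat_lit 12482732)] (nat_lit 21286319)) p15_24_0 (nat_lit 4) (nat_lit 24) (nat_lit 25) = true := by decide +kernel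
def p15_24_0_25 : pfC (piC [(nat_lit 37722612), (nat_lit 24889148), (nat_lit 18515096), (nat_lit 12482732)] (nat_lit 21286319)) p15_24_0 (nat_lit 4) (nat_lit 25) (nat_lit 26) = true := by decide +kernel
def p15_24_0_26 : pfC (piC [(nat_lit 37722612), (nat_lit 24889148), (nat_lit 18515096), (nat_lit 12482732)] (nat_lit 21286319)) p15_24_0 (nat_lit 4) (nat_lit 26) (nat_lit 27) = true := by decide +kernel
def p15_24_0_27 : pfC (piC [(nat_lit 37722612), (nat_lit 24889148), (nat_lit 18515096), (nat_lit 12482732)] (nat_lit 21286319)) p15_24_0 (nat_lit 4) (nat_lit 27) (nat_lit 28) = true := by decide +kernel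
def p15_24_0_28 : pfC (piC [(nat_lit 37722612), (nat_lit 24889148), (nat_lit 18515096), (nat_lit 12482732)] (nat_lit 21286319)) p15_24_0 (nat_lit 4) (nat_lit 28) (nat_lit 29) = true := by decide +kernel
def p15_24_0_29 : pfC (piC [(nat_lit 37722612), (nat_lit 24889148), (nat_lit 18515096), (nat_lit 12482732)] (nat_lit 21286319)) p15_24_0 (nat_lit 4) (nat_lit 29) (nat_lit 30) = true := by decide +kernel
def p15_24_0_30 : pfC (piC [(nat_lit 37722612), (nat_lit 24889148), (nat_lit 18515096), (nat_lit 12482732)] (nat_lit 21286319)) p15_24_0 (nat_lit 4) (nat_lit 30) (nat_lit 31) = true := by decide +kernel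
def p15_24_0_31 : pfC (piC [(nat_lit 37722612), (nat_lit 24889148), (nat_lit 18515096), (nat_lit 12482732)] (nat_lit 21286319)) p15_24_0 (nat_lit 4) (nat_lit 31) (nat_lit 32) = true := by decide +kernel
def p15_24_0_32 : pfC (piC [(nat_lit 37722612), (nat_lit 24889148), (nat_lit 18515096), (nat_lit 12482732)] (nat_lit 21286319)) p15_24_0 (nat_lit 4) (nat_lit 32) (nat_lit 33) = true := by decide +kernel
def p15_24_0_33 : pfC (piC [(nat_lit 37722612), (nat_lit 24889148), (nat_lit 18515096), (nat_lit 12482732)] (nat_lit 21286319)) p15_24_0 (nat_lit 4) (nat_lit 33) (nat_lit 34) = true := by decide +kernel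
def p15_24_0_34 : pfC (piC [(nat_lit 37722612), (nat_lit 24889148), (nat_lit 18515096), (nat_lit 12482732)] (nat_lit 21286319)) p15_24_0 (nat_lit 4) (nat_lit 34) (nat_lit 35) = true := by decide +kernel
def p15_24_0_35 : pfC (piC [(nat_lit 37722612), (nat_lit 24889148), (nat_lit 18515096), (nat_lit 12482732)] (nat_lit 21286319)) p15_24_0 (nat_lit 4) (nat_lit 35) (nat_lit 36) = true := by decide +kernel
def p15_24_0_36 : pfC (piC [(nat_lit 37722612), (nat_lit 24889148), (nat_lit 18515096), (nat_lit 12482732)] (nat_lit 21286319)) p15_24_0 (nat_lit 4) (nat_lit 36) (nat_lit 37) = true := by decide +kernel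
def p15_24_0_37 : pfC (piC [(nat_lit 37722612), (nat_lit 24889148), (nat_lit 18515096), (nat_lit 12482732)] (nat_lit 21286319)) p15_24_0 (nat_lit 4) (nat_lit 37) (nat_lit 38) = true := by decide +kernel
def p15_24_0_38 : pfC (piC [(nat_lit 37722612), (nat_lit 24889148), (nat_lit 18515096), (nat_lit 12482732)] (nat_lit 21286319)) p15_24_0 (nat_lit 4) (nat_lit 38) (nat_lit 39) = true := by decide +kernel
def p15_24_0_39 : pfC (piC [(nat_lit 37722612), (nat_lit 24889148), (nat_lit 18515096), (nat_lit 12482732)] (nat_lit 21286319)) p15_24_0 (nat_lit 4) (nat_lit 39) (nat_lit 40) = true := by decide +kernel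
def p15_24_0_40 : pfC (piC [(nat_lit 37722612), (nat_lit 24889148), (nat_lit 18515096), (nat_lit 12482732)] (nat_lit 21286319)) p15_24_0 (nat_lit 4) (nat_lit 40) (nat_lit 41) = true := by decide +kernel
def p15_24_0_41 : pfC (piC [(nat_lit 37722612), (nat_lit 24889148), (nat_lit 18515096), (nat_lit 12482732)] (nat_lit 21286319)) p15_24_0 (nat_lit 4) (nat_lit 41) (nat_lit 42) = true := by decide +kernel
def p15_24_0_42 : pfC (piC [(nat_lit 37722612), (nat_lit 24889148), (nat_lit 18515096), (nat_lit 12482732)] (nat_lit 21286319)) p15_24_0 (nat_lit 4) (nat_lit 42) (nat_lit 43) = true := by decide +kernel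
def p15_24_0_43 : pfC (piC [(nat_lit 37722612), (nat_lit 24889148), (nat_lit 18515096), (nat_lit 12482732)] (nat_lit 21286319)) p15_24_0 (nat_lit 4) (nat_lit 43) (nat_lit 44) = true := by decide +kernel
def p15_24_0_44 : pfC (piC [(nat_lit 37722612), (nat_lit 24889148), (nat_lit 18515096), (nat_lit 12482732)] (nat_lit 21286319)) p15_24_0 (nat_lit 4) (nat_lit 44) (nat_lit 45) = true := by decide +kernel
def p15_24_0_45 : pfC (piC [(nat_lit 37722612), (nat_lit 24889148), (nat_lit 18515096), (nat_lit 12482732)] (nat_lit 21286319)) p15_24_0 (nat_lit 4) (nat_lit 45) (nat_lit 46) = true := by decide +kernel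
def p15_24_0_46 : pfC (piC [(nat_lit 37722612), (nat_lit 24889148), (nat_lit 18515096), (nat_lit 12482732)] (nat_lit 21286319)) p15_24_0 (nat_lit 4) (nat_lit 46) (nat_lit 47) = true := by decide +kernel
def p15_24_0_47 : pfC (piC [(nat_lit 37722612), (nat_lit 24889148), (nat_lit 18515096), (nat_lit 12482732)] (nat_lit 21286319)) p15_24_0 (nat_lit 4) (nat_lit 47) (nat_lit 48) = true := by decide +kernel
def p15_24_0_48 : pfC (piC [(nat_lit 37722612), (nat_lit 24889148), (nat_lit 18515096), (nat_lit 12482732)] (nat_lit 21286319)) p15_24_0 (nat_lit 4) (nat_lit 48) (nat_lit 49) = true := by decide +kernel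
def p15_24_0_49 : pfC (piC [(nat_lit 37722612), (nat_lit 24889148), (nat_lit 18515096), (nat_lit 12482732)] (nat_lit 21286319)) p15_24_0 (nat_lit 4) (nat_lit 49) (nat_lit 50) = true := by decide +kernel
def p15_24_0_50 : pfC (piC [(nat_lit 37722612), (nat_lit 24889148), (nat_lit 18515096), (nat_lit 12482732)] (nat_lit 21286319)) p15_24_0 (nat_lit 4) (nat_lit 50) (nat_lit 51) = true := by decide +kernel
def p15_24_0_51 : pfC (piC [(nat_lit 37722612), (nat_lit 24889148), (nat_lit 18515096), (nat_lit 12482732)] (nat_lit 21286319)) p15_24_0 (nat_lit 4) (nat_lit 51) (nat_lit 52) = true := by decide +kernel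
def p15_24_0_52 : pfC (piC [(nat_lit 37722612), (nat_lit 24889148), (nat_lit 18515096), (nat_lit 12482732)] (nat_lit 21286319)) p15_24_0 (nat_lit 4) (nat_lit 52) (nat_lit 53) = true := by decide +kernel
def p15_24_0_53 : pfC (piC [(nat_lit 37722612), (nat_lit 24889148), (nat_lit 18515096), (nat_lit 12482732)] (nat_lit 21286319)) p15_24_0 (nat_lit 4) (nat_lit 53) (nat_lit 54) = true := by decide +kernel
def p15_24_0_54 : pfC (piC [(nat_lit 37722612), (nat_lit 24889148), (nat_lit 18515096), (nat_lit 12482732)] (nat_lit 21286319)) p15_24_0 (nat_lit 4) (nat_lit 54) (nat_lit 55) = true := by decide +kernel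
def p15_24_0_55 : pfC (piC [(nat_lit 37722612), (nat_lit 24889148), (nat_lit 18515096), (nat_lit 12482732)] (nat_lit 21286319)) p15_24_0 (nat_lit 4) (nat_lit 55) (nat_lit 56) = true := by decide +kernel
def p15_24_0_56 : pfC (piC [(nat_lit 37722612), (nat_lit 24889148), (nat_lit 18515096), (nat_lit 12482732)] (nat_lit 21286319)) p15_24_0 (nat_lit 4) (nat_lit 56) (nat_lit 57) = true := by decide +kernel
def p15_24_0_57 : pfC (piC [(nat_lit 37722612), (nat_lit 24889148), (nat_lit 18515096), (nat_lit 12482732)] (nat_lit 21286319)) p15_24_0 (nat_lit 4) (nat_lit 57) (nat_lit 58) = true := by decide +kernel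
def p15_24_0_58 : pfC (piC [(nat_lit 37722612), (nat_lit 24889148), (nat_lit 18515096), (nat_lit 12482732)] (nat_lit 21286319)) p15_24_0 (nat_lit 4) (nat_lit 58) (nat_lit 59) = true := by decide +kernel
def p15_24_0_59 : pfC (piC [(nat_lit 37722612), (nat_lit 24889148), (nat_lit 18515096), (nat_lit 12482732)] (nat_lit 21286319)) p15_24_0 (nat_lit 4) (nat_lit 59) (nat_lit 60) = true := by decide +kernel
def p15_24_0_60 : pfC (piC [(nat_lit 37722612), (nat_lit 24889148), (nat_lit 18515096), (nat_lit 12482732)] (nat_lit 21286319)) p15_24_0 (nat_lit 4) (nat_lit 60) (nat_lit 61) = true := by decide +kernel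
def p15_24_0_61 : pfC (piC [(nat_lit 37722612), (nat_lit 24889148), (nat_lit 18515096), (nat_lit 12482732)] (nat_lit 21286319)) p15_24_0 (nat_lit 4) (nat_lit 61) (nat_lit 62) = true := by decide +kernel
def p15_24_0_62 : pfC (piC [(nat_lit 37722612), (nat_lit 24889148), (nat_lit 18515096), (nat_lit 12482732)] (nat_lit 21286319)) p15_24_0 (nat_lit 4) (nat_lit 62) (nat_lit 63) = true := by decide +kernel
def p15_24_0_63 : pfC (piC [(nat_lit 37722612), (nat_lit 24889148), (nat_lit 18515096), (nat_lit 12482732)] (nat_lit 21286319)) p15_24_0 (nat_lit 4) (nat_lit 63) (nat_lit 64) = true := by decide +kernel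
def p15_24_0_64 : pfC (piC [(nat_lit 37722612), (nat_lit 24889148), (nat_lit 18515096), (nat_lit 12482732)] (nat_lit 21286319)) p15_24_0 (nat_lit 4) (nat_lit 64) (nat_lit 65) = true := by decide +kernel
def p15_24_0_65 : pfC (piC [(nat_lit 37722612), (nat_lit 24889148), (nat_lit 18515096), (nat_lit 12482732)] (nat_lit 21286319)) p15_24_0 (nat_lit 4) (nat_lit 65) (nat_lit 66) = true := by decide +kernel
def p15_24_0_66 : pfC (piC [(nat_lit 37722612), (nat_lit 24889148), (nat_lit 18515096), (nat_lit 12482732)] (nat_lit 21286319)) p15_24_0 (nat_lit 4) (nat_lit 66) (nat_lit 67) = true := by decide +kernel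
def p15_24_0_67 : pfC (piC [(nat_lit 37722612), (nat_lit 24889148), (nat_lit 18515096), (nat_lit 12482732)] (nat_lit 21286319)) p15_24_0 (nat_lit 4) (nat_lit 67) (nat_lit 68) = true := by decide +kernel
def p15_24_0_68 : pfC (piC [(nat_lit 37722612), (nat_lit 24889148), (nat_lit 18515096), (nat_lit 12482732)] (nat_lit 21286319)) p15_24_0 (nat_lit 4) (nat_lit 68) (nat_lit 69) = true := by decide +kernel
def p15_24_0_69 : pfC (piC [(nat_lit 37722612), (nat_lit 24889148), (nat_lit 18515096), (nat_lit 12482732)] (nat_lit 21286319)) p15_24_0 (nat_lit 4) (nat_lit 69) (nat_lit 70) = true := by decide +kernel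
def p15_24_0_70 : pfC (piC [(nat_lit 37722612), (nat_lit 24889148), (nat_lit 18515096), (nat_lit 12482732)] (nat_lit 21286319)) p15_24_0 (nat_lit 4) (nat_lit 70) (nat_lit 71) = true := by decide +kernel
def p15_24_0_71 : pfC (piC [(nat_lit 37722612), (nat_lit 24889148), (nat_lit 18515096), (nat_lit 12482732)] (nat_lit 21286319)) p15_24_0 (nat_lit 4) (nat_lit 71) (nat_lit 72) = true := by decide +kernel
def p15_24_0_72 : pfC (piC [(nat_lit 37722612), (nat_lit 24889148), (nat_lit 18515096), (nat_lit 12482732)] (nat_lit 21286319)) p15_24_0 (nat_lit 4) (nat_lit 72) (nat_lit 73) = true := by decide +kernel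
def p15_24_0_73 : pfC (piC [(nat_lit 37722612), (nat_lit 24889148), (nat_lit 18515096), (nat_lit 12482732)] (nat_lit 21286319)) p15_24_0 (nat_lit 4) (nat_lit 73) (nat_lit 74) = true := by decide +kernel
def p15_24_0_74 : pfC (piC [(nat_lit 37722612), (nat_lit 24889148), (nat_lit 18515096), (nat_lit 12482732)] (nat_lit 21286319)) p15_24_0 (nat_lit 4) (nat_lit 74) (nat_lit 75) = true := by decide +kernel
def p15_24_0_75 : pfC (piC [(nat_lit 37722612), (nat_lit 24889148), (nat_lit 18515096), (nat_lit 12482732)] (nat_lit 21286319)) p15_24_0 (nat_lit 4) (nat_lit 75) (nat_lit 76) = true := by decide +kernel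
def p15_24_0_76 : pfC (piC [(nat_lit 37722612), (nat_lit 24889148), (nat_lit 18515096), (nat_lit 12482732)] (nat_lit 21286319)) p15_24_0 (nat_lit 4) (nat_lit 76) (nat_lit 77) = true := by decide +kernel
def p15_24_0_77 : pfC (piC [(nat_lit 37722612), (nat_lit 24889148), (nat_lit 18515096), (nat_lit 12482732)] (nat_lit 21286319)) p15_24_0 (nat_lit 4) (nat_lit 77) (nat_lit 78) = true := by decide +kernel
def p15_24_0_78 : pfC (piC [(nat_lit 37722612), (nat_lit 24889148), (nat_lit 18515096), (nat_lit 12482732)] (nat_lit 21286319)) p15_24_0 (nat_lit 4) (nat_lit 78) (nat_lit 79) = true := by decide +kernel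
def p15_24_0_79 : pfC (piC [(nat_lit 37722612), (nat_lit 24889148), (nat_lit 18515096), (nat_lit 12482732)] (nat_lit 21286319)) p15_24_0 (nat_lit 4) (nat_lit 79) (nat_lit 80) = true := by decide +kernel
def p15_24_0_80 : pfC (piC [(nat_lit 37722612), (nat_lit 24889148), (nat_lit 18515096), (nat_lit 12482732)] (nat_lit 21286319)) p15_24_0 (nat_lit 4) (nat_lit 80) (nat_lit 81) = true := by decide +kernel
def p15_24_0_81 : pfC (piC [(nat_lit 37722612), (nat_lit 24889148), (nat_lit 18515096), (nat_lit 12482732)] (nat_lit 21286319)) p15_24_0 (nat_lit 4) (nat_lit 81) (nat_lit 82) = true := by decide +kernel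
def p15_24_0_82 : pfC (piC [(nat_lit 37722612), (nat_lit 24889148), (nat_lit 18515096), (nat_lit 12482732)] (nat_lit 21286319)) p15_24_0 (nat_lit 4) (nat_lit 82) (nat_lit 83) = true := by decide +kernel
def p15_24_0_83 : pfC (piC [(nat_lit 37722612), (nat_lit 24889148), (nat_lit 18515096), (nat_lit 12482732)] (nat_lit 21286319)) p15_24_0 (nat_lit 4) (nat_lit 83) (nat_lit 84) = true := by decide +kernel
def p15_24_0_84 : pfC (piC [(nat_lit 37722612), (nat_lit 24889148), (nat_lit 18515096), (nat_lit 12482732)] (nat_lit 21286319)) p15_24_0 (nat_lit 4) (nat_lit 84) (nat_lit 85) = true := by decide +kernel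
def p15_24_0_85 : pfC (piC [(nat_lit 37722612), (nat_lit 24889148), (nat_lit 18515096), (nat_lit 12482732)] (nat_lit 21286319)) p15_24_0 (nat_lit 4) (nat_lit 85) (nat_lit 86) = true := by decide +kernel
def p15_24_0_86 : pfC (piC [(nat_lit 37722612), (nat_lit 24889148), (nat_lit 18515096), (nat_lit 12482732)] (nat_lit 21286319)) p15_24_0 (nat_lit 4) (nat_lit 86) (nat_lit 87) = true := by decide +kernel
def p15_24_0_87 : pfC (piC [(nat_lit 37722612), (nat_lit 24889148), (nat_lit 18515096), (nat_lit 12482732)] (nat_lit 21286319)) p15_24_0 (nat_lit 4) (nat_lit 87) (nat_lit 88) = true := by decide +kernel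
def p15_24_0_88 : pfC (piC [(nat_lit 37722612), (nat_lit 24889148), (nat_lit 18515096), (nat_lit 12482732)] (nat_lit 21286319)) p15_24_0 (nat_lit 4) (nat_lit 88) (nat_lit 89) = true := by decide +kernel
def p15_24_0_89 : pfC (piC [(nat_lit 37722612), (nat_lit 24889148), (nat_lit 18515096), (nat_lit 12482732)] (nat_lit 21286319)) p15_24_0 (nat_lit 4) (nat_lit 89) (nat_lit 90) = true := by decide +kernel
def p15_24_0_90 : pfC (piC [(nat_lit 37722612), (nat_lit 24889148), (nat_lit 18515096), (nat_lit 12482732)] (nat_lit 21286319)) p15_24_0 (nat_lit 4) (nat_lit 90) (nat_lit 91) = true := by decide +kernel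
def p15_24_0_91 : pfC (piC [(nat_lit 37722612), (nat_lit 24889148), (nat_lit 18515096), (nat_lit 12482732)] (nat_lit 21286319)) p15_24_0 (nat_lit 4) (nat_lit 91) (nat_lit 92) = true := by decide +kernel
def p15_24_0_92 : pfC (piC [(nat_lit 37722612), (nat_lit 24889148), (nat_lit 18515096), (nat_lit 12482732)] (nat_lit 21286319)) p15_24_0 (nat_lit 4) (nat_lit 92) (nat_lit 93) = true := by decide +kernel
def p15_24_0_93 : pfC (piC [(nat_lit 37722612), (nat_lit 24889148), (nat_lit 18515096), (nat_lit 12482732)] (nat_lit 21286319)) p15_24_0 (nat_lit 4) (nat_lit 93) (nat_lit 94) = true := by decide +kernel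
def p15_24_0_94 : pfC (piC [(nat_lit 37722612), (nat_lit 24889148), (nat_lit 18515096), (nat_lit 12482732)] (nat_lit 21286319)) p15_24_0 (nat_lit 4) (nat_lit 94) (nat_lit 95) = true := by decide +kernel
def p15_24_0_95 : pfC (piC [(nat_lit 37722612), (nat_lit 24889148), (nat_lit 18515096), (nat_lit 12482732)] (nat_lit 21286319)) p15_24_0 (nat_lit 4) (nat_lit 95) (nat_lit 96) = true := by decide +kernel
def p15_24_0_96 : pfC (piC [(nat_lit 37722612), (nat_lit 24889148), (nat_lit 18515096), (nat_lit 12482732)] (nat_lit 21286319)) p15_24_0 (nat_lit 4) (nat_lit 96) (nat_lit 97) = true := by decide +kernel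
def p15_24_0_97 : pfC (piC [(nat_lit 37722612), (nat_lit 24889148), (nat_lit 18515096), (nat_lit 12482732)] (nat_lit 21286319)) p15_24_0 (nat_lit 4) (nat_lit 97) (nat_lit 98) = true := by decide +kernel
def p15_24_0_98 : pfC (piC [(nat_lit 37722612), (nat_lit 24889148), (nat_lit 18515096), (nat_lit 12482732)] (nat_lit 21286319)) p15_24_0 (nat_lit 4) (nat_lit 98) (nat_lit 99) = true := by decide +kernel
def p15_24_0_99 : pfC (piC [(nat_lit 37722612), (nat_lit 24889148), (nat_lit 18515096), (nat_lit 12482732)] (nat_lit 21286319)) p15_24_0 (nat_lit 4) (nat_lit 99) (nat_lit 100) = true := by decide +kernel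
def p15_24_0_100 : pfC (piC [(nat_lit 37722612), (nat_lit 24889148), (nat_lit 18515096), (nat_lit 12482732)] (nat_lit 21286319)) p15_24_0 (nat_lit 4) (nat_lit 100) (nat_lit 101) = true := by decide +kernel
def p15_24_0_101 : pfC (piC [(nat_lit 37722612), (nat_lit 24889148), (nat_lit 18515096), (nat_lit 12482732)] (nat_lit 21286319)) p15_24_0 (nat_lit 4) (nat_lit 101) (nat_lit 102) = true := by decide +kernel
def p15_24_0_102 : pfC (piC [(nat_lit 37722612), (nat_lit 24889148), (nat_lit 18515096), (nat_lit 12482732)] (nat_lit 21286319)) p15_24_0 (nat_lit 4) (nat_lit 102) (nat_lit 103) = true := by decide +kernel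
def p15_24_0_103 : pfC (piC [(nat_lit 37722612), (nat_lit 24889148), (nat_lit 18515096), (nat_lit 12482732)] (nat_lit 21286319)) p15_24_0 (nat_lit 4) (nat_lit 103) (nat_lit 104) = true := by decide +kernel
def p15_24_0_104 : pfC (piC [(nat_lit 37722612), (nat_lit 24889148), (nat_lit 18515096), (nat_lit 12482732)] (nat_lit 21286319)) p15_24_0 (nat_lit 4) (nat_lit 104) (nat_lit 105) = true := by decide +kernel
def p15_24_0_105 : pfC (piC [(nat_lit 37722612), (nat_lit 24889148), (nat_lit 18515096), (nat_lit 12482732)] (nat_lit 21286319)) p15_24_0 (nat_lit 4) (nat_lit 105) (nat_lit 106) = true := by decide +kernel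
def p15_24_0_106 : pfC (piC [(nat_lit 37722612), (nat_lit 24889148), (nat_lit 18515096), (nat_lit 12482732)] (nat_lit 21286319)) p15_24_0 (nat_lit 4) (nat_lit 106) (nat_lit 107) = true := by decide +kernel
def p15_24_0_107 : pfC (piC [(nat_lit 37722612), (nat_lit 24889148), (nat_lit 18515096), (nat_lit 12482732)] (nat_lit 21286319)) p15_24_0 (nat_lit 4) (nat_lit 107) (nat_lit 108) = true := by decide +kernel
def p15_24_0_108 : pfC (piC [(nat_lit 37722612), (nat_lit 24889148), (nat_lit 18515096), (nat_lit 12482732)] (nat_lit 21286319)) p15_24_0 (nat_lit 4) (nat_lit 108) (nat_lit 109) = true := by decide +kernel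
def p15_24_0_109 : pfC (piC [(nat_lit 37722612), (nat_lit 24889148), (nat_lit 18515096), (nat_lit 12482732)] (nat_lit 21286319)) p15_24_0 (nat_lit 4) (nat_lit 109) (nat_lit 110) = true := by decide +kernel
def p15_24_0_110 : pfC (piC [(nat_lit 37722612), (nat_lit 24889148), (nat_lit 18515096), (nat_lit 12482732)] (nat_lit 21286319)) p15_24_0 (nat_lit 4) (nat_lit 110) (nat_lit 111) = true := by decide +kernel
def p15_24_0_111 : pfC (piC [(nat_lit 37722612), (nat_lit 24889148), (nat_lit 18515096), (nat_lit 12482732)] (nat_lit 21286319)) p15_24_0 (nat_lit 4) (nat_lit 111) (nat_lit 112) = true := by decide +kernel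
def p15_24_0_112 : pfC (piC [(nat_lit 37722612), (nat_lit 24889148), (nat_lit 18515096), (nat_lit 12482732)] (nat_lit 21286319)) p15_24_0 (nat_lit 4) (nat_lit 112) (nat_lit 113) = true := by decide +kernel
def p15_24_0_113 : pfC (piC [(nat_lit 37722612), (nat_lit 24889148), (nat_lit 18515096), (nat_lit 12482732)] (nat_lit 21286319)) p15_24_0 (nat_lit 4) (nat_lit 113) (nat_lit 114) = true := by decide +kernel
def p15_24_0_114 : pfC (piC [(nat_lit 37722612), (nat_lit 24889148), (nat_lit 18515096), (nat_lit 12482732)] (nat_lit 21286319)) p15_24_0 (nat_lit 4) (nat_lit 114) (nat_lit 115) = true := by decide +kernel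
def p15_24_0_115 : pfC (piC [(nat_lit 37722612), (nat_lit 24889148), (nat_lit 18515096), (nat_lit 12482732)] (nat_lit 21286319)) p15_24_0 (nat_lit 4) (nat_lit 115) (nat_lit 116) = true := by decide +kernel
def p15_24_0_116 : pfC (piC [(nat_lit 37722612), (nat_lit 24889148), (nat_lit 18515096), (nat_lit 12482732)] (nat_lit 21286319)) p15_24_0 (nat_lit 4) (nat_lit 116) (nat_lit 117) = true := by decide +kernel
def p15_24_0_117 : pfC (piC [(nat_lit 37722612), (nat_lit 24889148), (nat_lit 18515096), (nat_lit 12482732)] (nat_lit 21286319)) p15_24_0 (nat_lit 4) (nat_lit 117) (nat_lit 118) = true := by decide +kernel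
def p15_24_0_118 : pfC (piC [(nat_lit 37722612), (nat_lit 24889148), (nat_lit 18515096), (nat_lit 12482732)] (nat_lit 21286319)) p15_24_0 (nat_lit 4) (nat_lit 118) (nat_lit 119) = true := by decide +kernel
def p15_24_0_119 : pfC (piC [(nat_lit 37722612), (nat_lit 24889148), (nat_lit 18515096), (nat_lit 12482732)] (nat_lit 21286319)) p15_24_0 (nat_lit 4) (nat_lit 119) (nat_lit 120) = true := by decide +kernel
def p15_24_0_120 : pfC (piC [(nat_lit 37722612), (nat_lit 24889148), (nat_lit 18515096), (nat_lit 12482732)] (nat_lit 21286319)) p15_24_0 (nat_lit 4) (nat_lit 120) (nat_lit 121) = true := by decide +kernel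
def p15_24_0_121 : pfC (piC [(nat_lit 37722612), (nat_lit 24889148), (nat_lit 18515096), (nat_lit 12482732)] (nat_lit 21286319)) p15_24_0 (nat_lit 4) (nat_lit 121) (nat_lit 122) = true := by decide +kernel
def p15_24_0_122 : pfC (piC [(nat_lit 37722612), (nat_lit 24889148), (nat_lit 18515096), (nat_lit 12482732)] (nat_lit 21286319)) p15_24_0 (nat_lit 4) (nat_lit 122) (nat_lit 123) = true := by decide +kernel
def p15_24_0_123 : pfC (piC [(nat_lit 37722612), (nat_lit 24889148), (nat_lit 18515096), (nat_lit 12482732)] (nat_lit 21286319)) p15_24_0 (nat_lit 4) (nat_lit 123) (nat_lit 124) = true := by decide +kernel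
def p15_24_0_124 : pfC (piC [(nat_lit 37722612), (nat_lit 24889148), (nat_lit 18515096), (nat_lit 12482732)] (nat_lit 21286319)) p15_24_0 (nat_lit 4) (nat_lit 124) (nat_lit 125) = true := by decide +kernel
def p15_24_0_125 : pfC (piC [(nat_lit 37722612), (nat_lit 24889148), (nat_lit 18515096), (nat_lit 12482732)] (nat_lit 21286319)) p15_24_0 (nat_lit 4) (nat_lit 125) (nat_lit 126) = true := by decide +kernel
def p15_24_0_126 : pfC (piC [(nat_lit 37722612), (nat_lit 24889148), (nat_lit 18515096), (nat_lit 12482732)] (nat_lit 21286319)) p15_24_0 (nat_lit 4) (nat_lit 126) (nat_lit 127) = true := by decide +kernel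
def p15_24_0_127 : pfC (piC [(nat_lit 37722612), (nat_lit 24889148), (nat_lit 18515096), (nat_lit 12482732)] (nat_lit 21286319)) p15_24_0 (nat_lit 4) (nat_lit 127) (nat_lit 128) = true := by decide +kernel
def p15_24_0_128 : pfC (piC [(nat_lit 37722612), (nat_lit 24889148), (nat_lit 18515096), (nat_lit 12482732)] (nat_lit 21286319)) p15_24_0 (nat_lit 4) (nat_lit 128) (nat_lit 129) = true := by decide +kernel
def p15_24_0_129 : pfC (piC [(nat_lit 37722612), (nat_lit 24889148), (nat_lit 18515096), (nat_lit 12482732)] (nat_lit 21286319)) p15_24_0 (nat_lit 4) (nat_lit 129) (nat_lit 130) = true := by decide +kernel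
def p15_24_0_130 : pfC (piC [(nat_lit 37722612), (nat_lit 24889148), (nat_lit 18515096), (nat_lit 12482732)] (nat_lit 21286319)) p15_24_0 (nat_lit 4) (nat_lit 130) (nat_lit 131) = true := by decide +kernel
def p15_24_0_131 : pfC (piC [(nat_lit 37722612), (nat_lit 24889148), (nat_lit 18515096), (nat_lit 12482732)] (nat_lit 21286319)) p15_24_0 (nat_lit 4) (nat_lit 131) (nat_lit 132) = true := by decide +kernel
def p15_24_0_132 : pfC (piC [(nat_lit 37722612), (nat_lit 24889148), (nat_lit 18515096), (nat_lit 12482732)] (nat_lit 21286319)) p15_24_0 (nat_lit 4) (nat_lit 132) (nat_lit 133) = true := by decide +kernel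
def p15_24_0_133 : pfC (piC [(nat_lit 37722612), (nat_lit 24889148), (nat_lit 18515096), (nat_lit 12482732)] (nat_lit 21286319)) p15_24_0 (nat_lit 4) (nat_lit 133) (nat_lit 134) = true := by decide +kernel
def p15_24_0_134 : pfC (piC [(nat_lit 37722612), (nat_lit 24889148), (nat_lit 18515096), (nat_lit 12482732)] (nat_lit 21286319)) p15_24_0 (nat_lit 4) (nat_lit 134) (nat_lit 135) = true := by decide +kernel
def p15_24_0_135 : pfC (piC [(nat_lit 37722612), (nat_lit 24889148), (nat_lit 18515096), (nat_lit 12482732)] (nat_lit 21286319)) p15_24_0 (nat_lit 4) (nat_lit 135) (nat_lit 136) = true := by decide +kernel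
def p15_24_0_136 : pfC (piC [(nat_lit 37722612), (nat_lit 24889148), (nat_lit 18515096), (nat_lit 12482732)] (nat_lit 21286319)) p15_24_0 (nat_lit 4) (nat_lit 136) (nat_lit 137) = true := by decide +kernel
def p15_24_0_137 : pfC (piC [(nat_lit 37722612), (nat_lit 24889148), (nat_lit 18515096), (nat_lit 12482732)] (nat_lit 21286319)) p15_24_0 (nat_lit 4) (nat_lit 137) (nat_lit 138) = true := by decide +kernel
def p15_24_0_138 : pfC (piC [(nat_lit 37722612), (nat_lit 24889148), (nat_lit 18515096), (nat_lit 12482732)] (nat_lit 21286319)) p15_24_0 (nat_lit 4) (nat_lit 138) (nat_lit 139) = true := by decide +kernel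
def p15_24_0_139 : pfC (piC [(nat_lit 37722612), (nat_lit 24889148), (nat_lit 18515096), (nat_lit 12482732)] (nat_lit 21286319)) p15_24_0 (nat_lit 4) (nat_lit 139) (nat_lit 140) = true := by decide +kernel
def p15_24_0_140 : pfC (piC [(nat_lit 37722612), (nat_lit 24889148), (nat_lit 18515096), (nat_lit 12482732)] (nat_lit 21286319)) p15_24_0 (nat_lit 4) (nat_lit 140) (nat_lit 141) = true := by decide +kernel
def p15_24_0_141 : pfC (piC [(nat_lit 37722612), (nat_lit 24889148), (nat_lit 18515096), (nat_lit 12482732)] (nat_lit 21286319)) p15_24_0 (nat_lit 4) (nat_lit 141) (nat_lit 142) = true := by decide +kernel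
def p15_24_0_142 : pfC (piC [(nat_lit 37722612), (nat_lit 24889148), (nat_lit 18515096), (nat_lit 12482732)] (nat_lit 21286319)) p15_24_0 (nat_lit 4) (nat_lit 142) (nat_lit 143) = true := by decide +kernel
def p15_24_0_143 : pfC (piC [(nat_lit 37722612), (nat_lit 24889148), (nat_lit 18515096), (nat_lit 12482732)] (nat_lit 21286319)) p15_24_0 (nat_lit 4) (nat_lit 143) (nat_lit 144) = true := by decide +kernel
def p15_24_0_144 : pfC (piC [(nat_lit 37722612), (nat_lit 24889148), (nat_lit 18515096), (nat_lit 12482732)] (nat_lit 21286319)) p15_24_0 (nat_lit 4) (nat_lit 144) (nat_lit 145) = true := by decide +kernel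
def p15_24_0_145 : pfC (piC [(nat_lit 37722612), (nat_lit 24889148), (nat_lit 18515096), (nat_lit 12482732)] (nat_lit 21286319)) p15_24_0 (nat_lit 4) (nat_lit 145) (nat_lit 146) = true := by decide +kernel
def p15_24_0_146 : pfC (piC [(nat_lit 37722612), (nat_lit 24889148), (nat_lit 18515096), (nat_lit 12482732)] (nat_lit 21286319)) p15_24_0 (nat_lit 4) (nat_lit 146) (nat_lit 147) = true := by decide +kernel
def p15_24_0_147 : pfC (piC [(nat_lit 37722612), (nat_lit 24889148), (nat_lit 18515096), (nat_lit 12482732)] (nat_lit 21286319)) p15_24_0 (nat_lit 4) (nat_lit 147) (nat_lit 148) = true := by decide +kernel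
def p15_24_0_148 : pfC (piC [(nat_lit 37722612), (nat_lit 24889148), (nat_lit 18515096), (nat_lit 12482732)] (nat_lit 21286319)) p15_24_0 (nat_lit 4) (nat_lit 148) (nat_lit 149) = true := by decide +kernel
def p15_24_0_149 : pfC (piC [(nat_lit 37722612), (nat_lit 24889148), (nat_lit 18515096), (nat_lit 12482732)] (nat_lit 21286319)) p15_24_0 (nat_lit 4) (nat_lit 149) (nat_lit 150) = true := by decide +kernel
def p15_24_0_150 : pfC (piC [(nat_lit 37722612), (nat_lit 24889148), (nat_lit 18515096), (nat_lit 12482732)] (nat_lit 21286319)) p15_24_0 (nat_lit 4) (nat_lit 150) (nat_lit 151) = true := by decide +kernel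
def p15_24_0_151 : pfC (piC [(nat_lit 37722612), (nat_lit 24889148), (nat_lit 18515096), (nat_lit 12482732)] (nat_lit 21286319)) p15_24_0 (nat_lit 4) (nat_lit 151) (nat_lit 152) = true := by decide +kernel
def p15_24_0_152 : pfC (piC [(nat_lit 37722612), (nat_lit 24889148), (nat_lit 18515096), (nat_lit 12482732)] (nat_lit 21286319)) p15_24_0 (nat_lit 4) (nat_lit 152) (nat_lit 153) = true := by decide +kernel
def p15_24_0_153 : pfC (piC [(nat_lit 37722612), (nat_lit 24889148), (nat_lit 18515096), (nat_lit 12482732)] (nat_lit 21286319)) p15_24_0 (nat_lit 4) (nat_lit 153) (nat_lit 154) = true := by decide +kernel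
def p15_24_0_154 : pfC (piC [(nat_lit 37722612), (nat_lit 24889148), (nat_lit 18515096), (nat_lit 12482732)] (nat_lit 21286319)) p15_24_0 (nat_lit 4) (nat_lit 154) (nat_lit 155) = true := by decide +kernel
def p15_24_0_155 : pfC (piC [(nat_lit 37722612), (nat_lit 24889148), (nat_lit 18515096), (nat_lit 12482732)] (nat_lit 21286319)) p15_24_0 (nat_lit 4) (nat_lit 155) (nat_lit 156) = true := by decide +kernel
def p15_24_0_156 : pfC (piC [(nat_lit 37722612), (nat_lit 24889148), (nat_lit 18515096), (nat_lit 12482732)] (nat_lit 21286319)) p15_24_0 (nat_lit 4) (nat_lit 156) (nat_lit 157) = true := by decide +kernel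
def p15_24_0_157 : pfC (piC [(nat_lit 37722612), (nat_lit 24889148), (nat_lit 18515096), (nat_lit 12482732)] (nat_lit 21286319)) p15_24_0 (nat_lit 4) (nat_lit 157) (nat_lit 158) = true := by decide +kernel
def p15_24_0_158 : pfC (piC [(nat_lit 37722612), (nat_lit 24889148), (nat_lit 18515096), (nat_lit 12482732)] (nat_lit 21286319)) p15_24_0 (nat_lit 4) (nat_lit 158) (nat_lit 159) = true := by decide +kernel
def p15_24_0_159 : pfC (piC [(nat_lit 37722612), (nat_lit 24889148), (nat_lit 18515096), (nat_lit 12482732)] (nat_lit 21286319)) p15_24_0 (nat_lit 4) (nat_lit 159) (nat_lit 160) = true := by decide +kernel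
def p15_24_0_160 : pfC (piC [(nat_lit 37722612), (nat_lit 24889148), (nat_lit 18515096), (nat_lit 12482732)] (nat_lit 21286319)) p15_24_0 (nat_lit 4) (nat_lit 160) (nat_lit 161) = true := by decide +kernel
def p15_24_0_161 : pfC (piC [(nat_lit 37722612), (nat_lit 24889148), (nat_lit 18515096), (nat_lit 12482732)] (nat_lit 21286319)) p15_24_0 (nat_lit 4) (nat_lit 161) (nat_lit 162) = true := by decide +kernel
def p15_24_0_162 : pfC (piC [(nat_lit 37722612), (nat_lit 24889148), (nat_lit 18515096), (nat_lit 12482732)] (nat_lit 21286319)) p15_24_0 (nat_lit 4) (nat_lit 162) (nat_lit 163) = true := by decide +kernel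
def p15_24_0_163 : pfC (piC [(nat_lit 37722612), (nat_lit 24889148), (nat_lit 18515096), (nat_lit 12482732)] (nat_lit 21286319)) p15_24_0 (nat_lit 4) (nat_lit 163) (nat_lit 164) = true := by decide +kernel
def p15_24_0_164 : pfC (piC [(nat_lit 37722612), (nat_lit 24889148), (nat_lit 18515096), (nat_lit 12482732)] (nat_lit 21286319)) p15_24_0 (nat_lit 4) (nat_lit 164) (nat_lit 165) = true := by decide +kernel
def p15_24_0_165 : pfC (piC [(nat_lit 37722612), (nat_lit 24889148), (nat_lit 18515096), (nat_lit 12482732)] (nat_lit 21286319)) p15_24_0 (nat_lit 4) (nat_lit 165) (nat_lit 166) = true := by decide +kernel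
def p15_24_0_166 : pfC (piC [(nat_lit 37722612), (nat_lit 24889148), (nat_lit 18515096), (nat_lit 12482732)] (nat_lit 21286319)) p15_24_0 (nat_lit 4) (nat_lit 166) (nat_lit 167) = true := by decide +kernel
def p15_24_0_167 : pfC (piC [(nat_lit 37722612), (nat_lit 24889148), (nat_lit 18515096), (nat_lit 12482732)] (nat_lit 21286319)) p15_24_0 (nat_lit 4) (nat_lit 167) (nat_lit 168) = true := by decide +kernel
def p15_24_0_168 : pfC (piC [(nat_lit 37722612), (nat_lit 24889148), (nat_lit 18515096), (nat_lit 12482732)] (nat_lit 21286319)) p15_24_0 (nat_lit 4) (nat_lit 168) (nat_lit 169) = true := by decide +kernel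
def p15_24_0_169 : pfC (piC [(nat_lit 37722612), (nat_lit 24889148), (nat_lit 18515096), (nat_lit 12482732)] (nat_lit 21286319)) p15_24_0 (nat_lit 4) (nat_lit 169) (nat_lit 170) = true := by decide +kernel
def p15_24_0_170 : pfC (piC [(nat_lit 37722612), (nat_lit 24889148), (nat_lit 18515096), (nat_lit 12482732)] (nat_lit 21286319)) p15_24_0 (nat_lit 4) (nat_lit 170) (nat_lit 171) = true := by decide +kernel
def p15_24_0_171 : pfC (piC [(nat_lit 37722612), (nat_lit 24889148), (nat_lit 18515096), (nat_lit 12482732)] (nat_lit 21286319)) p15_24_0 (nat_lit 4) (nat_lit 171) (nat_lit 172) = true := by decide +kernel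
def p15_24_0_172 : pfC (piC [(nat_lit 37722612), (nat_lit 24889148), (nat_lit 18515096), (nat_lit 12482732)] (nat_lit 21286319)) p15_24_0 (nat_lit 4) (nat_lit 172) (nat_lit 173) = true := by decide +kernel
def p15_24_0_173 : pfC (piC [(nat_lit 37722612), (nat_lit 24889148), (nat_lit 18515096), (nat_lit 12482732)] (nat_lit 21286319)) p15_24_0 (nat_lit 4) (nat_lit 173) (nat_lit 174) = true := by decide +kernel
def p15_24_0_174 : pfC (piC [(nat_lit 37722612), (nat_lit 24889148), (nat_lit 18515096), (nat_lit 12482732)] (nat_lit 21286319)) p15_24_0 (nat_lit 4) (nat_lit 174) (nat_lit 175) = true := by decide +kernel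
def p15_24_0_175 : pfC (piC [(nat_lit 37722612), (nat_lit 24889148), (nat_lit 18515096), (nat_lit 12482732)] (nat_lit 21286319)) p15_24_0 (nat_lit 4) (nat_lit 175) (nat_lit 176) = true := by decide +kernel
def p15_24_0_176 : pfC (piC [(nat_lit 37722612), (nat_lit 24889148), (nat_lit 18515096), (nat_lit 12482732)] (nat_lit 21286319)) p15_24_0 (nat_lit 4) (nat_lit 176) (nat_lit 177) = true := by decide +kernel
def p15_24_0_177 : pfC (piC [(nat_lit 37722612), (nat_lit 24889148), (nat_lit 18515096), (nat_lit 12482732)] (nat_lit 21286319)) p15_24_0 (nat_lit 4) (nat_lit 177) (nat_lit 178) = true := by decide +kernel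
def p15_24_0_178 : pfC (piC [(nat_lit 37722612), (nat_lit 24889148), (nat_lit 18515096), (nat_lit 12482732)] (nat_lit 21286319)) p15_24_0 (nat_lit 4) (nat_lit 178) (nat_lit 179) = true := by decide +kernel
def p15_24_0_179 : pfC (piC [(nat_lit 37722612), (nat_lit 24889148), (nat_lit 18515096), (nat_lit 12482732)] (nat_lit 21286319)) p15_24_0 (nat_lit 4) (nat_lit 179) (nat_lit 180) = true := by decide +kernel
def p15_24_0_180 : pfC (piC [(nat_lit 37722612), (nat_lit 24889148), (nat_lit 18515096), (nat_lit 12482732)] (nat_lit 21286319)) p15_24_0 (nat_lit 4) (nat_lit 180) (nat_lit 181) = true := by decide +kernel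
def p15_24_0_181 : pfC (piC [(nat_lit 37722612), (nat_lit 24889148), (nat_lit 18515096), (nat_lit 12482732)] (nat_lit 21286319)) p15_24_0 (nat_lit 4) (nat_lit 181) (nat_lit 182) = true := by decide +kernel
def p15_24_0_182 : pfC (piC [(nat_lit 37722612), (nat_lit 24889148), (nat_lit 18515096), (nat_lit 12482732)] (nat_lit 21286319)) p15_24_0 (nat_lit 4) (nat_lit 182) (nat_lit 183) = true := by decide +kernel
def p15_24_0_183 : pfC (piC [(nat_lit 37722612), (nat_lit 24889148), (nat_lit 18515096), (nat_lit 12482732)] (nat_lit 21286319)) p15_24_0 (nat_lit 4) (nat_lit 183) (nat_lit 184) = true := by decide +kernel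
def p15_24_0_184 : pfC (piC [(nat_lit 37722612), (nat_lit 24889148), (nat_lit 18515096), (nat_lit 12482732)] (nat_lit 21286319)) p15_24_0 (nat_lit 4) (nat_lit 184) (nat_lit 185) = true := by decide +kernel
def p15_24_0_185 : pfC (piC [(nat_lit 37722612), (nat_lit 24889148), (nat_lit 18515096), (nat_lit 12482732)] (nat_lit 21286319)) p15_24_0 (nat_lit 4) (nat_lit 185) (nat_lit 186) = true := by decide +kernel
def p15_24_0_186 : pfC (piC [(nat_lit 37722612), (nat_lit 24889148), (nat_lit 18515096), (nat_lit 12482732)] (nat_lit 21286319)) p15_24_0 (nat_lit 4) (nat_lit 186) (nat_lit 187) = true := by decide +kernel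
def p15_24_0_187 : pfC (piC [(nat_lit 37722612), (nat_lit 24889148), (nat_lit 18515096), (nat_lit 12482732)] (nat_lit 21286319)) p15_24_0 (nat_lit 4) (nat_lit 187) (nat_lit 188) = true := by decide +kernel
def p15_24_0_188 : pfC (piC [(nat_lit 37722612), (nat_lit 24889148), (nat_lit 18515096), (nat_lit 12482732)] (nat_lit 21286319)) p15_24_0 (nat_lit 4) (nat_lit 188) (nat_lit 189) = true := by decide +kernel
def p15_24_0_189 : pfC (piC [(nat_lit 37722612), (nat_lit 24889148), (nat_lit 18515096), (nat_lit 12482732)] (nat_lit 21286319)) p15_24_0 (nat_lit 4) (nat_lit 189) (nat_lit 190) = true := by decide +kernel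
def p15_24_0_190 : pfC (piC [(nat_lit 37722612), (nat_lit 24889148), (nat_lit 18515096), (nat_lit 12482732)] (nat_lit 21286319)) p15_24_0 (nat_lit 4) (nat_lit 190) (nat_lit 191) = true := by decide +kernel
def p15_24_0_191 : pfC (piC [(nat_lit 37722612), (nat_lit 24889148), (nat_lit 18515096), (nat_lit 12482732)] (nat_lit 21286319)) p15_24_0 (nat_lit 4) (nat_lit 191) (nat_lit 192) = true := by decide +kernel
def p15_24_0_192 : pfC (piC [(nat_lit 37722612), (nat_lit 24889148), (nat_lit 18515096), (nat_lit 12482732)] (nat_lit 21286319)) p15_24_0 (nat_lit 4) (nat_lit 192) (nat_lit 193) = true := by decide +kernel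
def p15_24_0_193 : pfC (piC [(nat_lit 37722612), (nat_lit 24889148), (nat_lit 18515096), (nat_lit 12482732)] (nat_lit 21286319)) p15_24_0 (nat_lit 4) (nat_lit 193) (nat_lit 194) = true := by decide +kernel
def p15_24_0_194 : pfC (piC [(nat_lit 37722612), (nat_lit 24889148), (nat_lit 18515096), (nat_lit 12482732)] (nat_lit 21286319)) p15_24_0 (nat_lit 4) (nat_lit 194) (nat_lit 195) = true := by decide +kernel
def p15_24_0_195 : pfC (piC [(nat_lit 37722612), (nat_lit 24889148), (nat_lit 18515096), (nat_lit 12482732)] (nat_lit 21286319)) p15_24_0 (nat_lit 4) (nat_lit 195) (nat_lit 196) = true := by decide +kernel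
def p15_24_0_196 : pfC (piC [(nat_lit 37722612), (nat_lit 24889148), (nat_lit 18515096), (nat_lit 12482732)] (nat_lit 21286319)) p15_24_0 (nat_lit 4) (nat_lit 196) (nat_lit 197) = true := by decide +kernel
def p15_24_0_197 : pfC (piC [(nat_lit 37722612), (nat_lit 24889148), (nat_lit 18515096), (nat_lit 12482732)] (nat_lit 21286319)) p15_24_0 (nat_lit 4) (nat_lit 197) (nat_lit 198) = true := by decide +kernel
def p15_24_0_198 : pfC (piC [(nat_lit 37722612), (nat_lit 24889148), (nat_lit 18515096), (nat_lit 12482732)] (nat_lit 21286319)) p15_24_0 (nat_lit 4) (nat_lit 198) (nat_lit 199) = true := by decide +kernel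
def p15_24_0_199 : pfC (piC [(nat_lit 37722612), (nat_lit 24889148), (nat_lit 18515096), (nat_lit 12482732)] (nat_lit 21286319)) p15_24_0 (nat_lit 4) (nat_lit 199) (nat_lit 200) = true := by decide +kernel
def p15_24_0_200 : pfC (piC [(nat_lit 37722612), (nat_lit 24889148), (nat_lit 18515096), (nat_lit 12482732)] (nat_lit 21286319)) p15_24_0 (nat_lit 4) (nat_lit 200) (nat_lit 201) = true := by decide +kernel
def p15_24_0_201 : pfC (piC [(nat_lit 37722612), (nat_lit 24889148), (nat_lit 18515096), (nat_lit 12482732)] (nat_lit 21286319)) p15_24_0 (nat_lit 4) (nat_lit 201) (nat_lit 202) = true := by decide +kernel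
def p15_24_0_202 : pfC (piC [(nat_lit 37722612), (nat_lit 24889148), (nat_lit 18515096), (nat_lit 12482732)] (nat_lit 21286319)) p15_24_0 (nat_lit 4) (nat_lit 202) (nat_lit 203) = true := by decide +kernel
def p15_24_0_203 : pfC (piC [(nat_lit 37722612), (nat_lit 24889148), (nat_lit 18515096), (nat_lit 12482732)] (nat_lit 21286319)) p15_24_0 (nat_lit 4) (nat_lit 203) (nat_lit 204) = true := by decide +kernel
def p15_24_0_204 : pfC (piC [(nat_lit 37722612), (nat_lit 24889148), (nat_lit 18515096), (nat_lit 12482732)] (nat_lit 21286319)) p15_24_0 (nat_lit 4) (nat_lit 204) (nat_lit 205) = true := by decide +kernel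
def p15_24_0_205 : pfC (piC [(nat_lit 37722612), (nat_lit 24889148), (nat_lit 18515096), (nat_lit 12482732)] (nat_lit 21286319)) p15_24_0 (nat_lit 4) (nat_lit 205) (nat_lit 206) = true := by decide +kernel
def p15_24_0_206 : pfC (piC [(nat_lit 37722612), (nat_lit 24889148), (nat_lit 18515096), (nat_lit 12482732)] (nat_lit 21286319)) p15_24_0 (nat_lit 4) (nat_lit 206) (nat_lit 207) = true := by decide +kernel
def p15_24_0_207 : pfC (piC [(nat_lit 37722612), (nat_lit 24889148), (nat_lit 18515096), (nat_lit 12482732)] (nat_lit 21286319)) p15_24_0 (nat_lit 4) (nat_lit 207) (nat_lit 208) = true := by decide +kernel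
def p15_24_0_208 : pfC (piC [(nat_lit 37722612), (nat_lit 24889148), (nat_lit 18515096), (nat_lit 12482732)] (nat_lit 21286319)) p15_24_0 (nat_lit 4) (nat_lit 208) (nat_lit 209) = true := by decide +kernel
def p15_24_0_209 : pfC (piC [(nat_lit 37722612), (nat_lit 24889148), (nat_lit 18515096), (nat_lit 12482732)] (nat_lit 21286319)) p15_24_0 (nat_lit 4) (nat_lit 209) (nat_lit 210) = true := by decide +kernel
def p15_24_0_210 : pfC (piC [(nat_lit 37722612), (nat_lit 24889148), (nat_lit 18515096), (nat_lit 12482732)] (nat_lit 21286319)) p15_24_0 (nat_lit 4) (nat_lit 210) (nat_lit 211) = true := by decide +kernel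
def p15_24_0_211 : pfC (piC [(nat_lit 37722612), (nat_lit 24889148), (nat_lit 18515096), (nat_lit 12482732)] (nat_lit 21286319)) p15_24_0 (nat_lit 4) (nat_lit 211) (nat_lit 212) = true := by decide +kernel
def p15_24_0_212 : pfC (piC [(nat_lit 37722612), (nat_lit 24889148), (nat_lit 18515096), (nat_lit 12482732)] (nat_lit 21286319)) p15_24_0 (nat_lit 4) (nat_lit 212) (nat_lit 213) = true := by decide +kernel
def p15_24_0_213 : pfC (piC [(nat_lit 37722612), (nat_lit 24889148), (nat_lit 18515096), (nat_lit 12482732)] (nat_lit 21286319)) p15_24_0 (nat_lit 4) (nat_lit 213) (nat_lit 214) = true := by decide +kernel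
def p15_24_0_214 : pfC (piC [(nat_lit 37722612), (nat_lit 24889148), (nat_lit 18515096), (nat_lit 12482732)] (nat_lit 21286319)) p15_24_0 (nat_lit 4) (nat_lit 214) (nat_lit 215) = true := by decide +kernel
def p15_24_0_215 : pfC (piC [(nat_lit 37722612), (nat_lit 24889148), (nat_lit 18515096), (nat_lit 12482732)] (nat_lit 21286319)) p15_24_0 (nat_lit 4) (nat_lit 215) (nat_lit 216) = true := by decide +kernel
def p15_24_0_216 : pfC (piC [(nat_lit 37722612), (nat_lit 24889148), (nat_lit 18515096), (nat_lit 12482732)] (nat_lit 21286319)) p15_24_0 (nat_lit 4) (nat_lit 216) (nat_lit 217) = true := by decide +kernel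
def p15_24_0_217 : pfC (piC [(nat_lit 37722612), (nat_lit 24889148), (nat_lit 18515096), (nat_lit 12482732)] (nat_lit 21286319)) p15_24_0 (nat_lit 4) (nat_lit 217) (nat_lit 218) = true := by decide +kernel
def p15_24_0_218 : pfC (piC [(nat_lit 37722612), (nat_lit 24889148), (nat_lit 18515096), (nat_lit 12482732)] (nat_lit 21286319)) p15_24_0 (nat_lit 4) (nat_lit 218) (nat_lit 219) = true := by decide +kernel
def p15_24_0_219 : pfC (piC [(nat_lit 37722612), (nat_lit 24889148), (nat_lit 18515096), (nat_lit 12482732)] (nat_lit 21286319)) p15_24_0 (nat_lit 4) (nat_lit 219) (nat_lit 220) = true := by decide +kernel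
def p15_24_0_220 : pfC (piC [(nat_lit 37722612), (nat_lit 24889148), (nat_lit 18515096), (nat_lit 12482732)] (nat_lit 21286319)) p15_24_0 (nat_lit 4) (nat_lit 220) (nat_lit 221) = true := by decide +kernel
def p15_24_0_221 : pfC (piC [(nat_lit 37722612), (nat_lit 24889148), (nat_lit 18515096), (nat_lit 12482732)] (nat_lit 21286319)) p15_24_0 (nat_lit 4) (nat_lit 221) (nat_lit 222) = true := by decide +kernel
def p15_24_0_222 : pfC (piC [(nat_lit 37722612), (nat_lit 24889148), (nat_lit 18515096), (nat_lit 12482732)] (nat_lit 21286319)) p15_24_0 (nat_lit 4) (nat_lit 222) (nat_lit 223) = true := by decide +kernel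
def p15_24_0_223 : pfC (piC [(nat_lit 37722612), (nat_lit 24889148), (nat_lit 18515096), (nat_lit 12482732)] (nat_lit 21286319)) p15_24_0 (nat_lit 4) (nat_lit 223) (nat_lit 224) = true := by decide +kernel
def p15_24_0_224 : pfC (piC [(nat_lit 37722612), (nat_lit 24889148), (nat_lit 18515096), (nat_lit 12482732)] (nat_lit 21286319)) p15_24_0 (nat_lit 4) (nat_lit 224) (nat_lit 225) = true := by decide +kernel
def p15_24_0_225 : pfC (piC [(nat_lit 37722612), (nat_lit 24889148), (nat_lit 18515096), (nat_lit 12482732)] (nat_lit 21286319)) p15_24_0 (nat_lit 4) (nat_lit 225) (nat_lit 226) = true := by decide +kernel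
def p15_24_0_226 : pfC (piC [(nat_lit 37722612), (nat_lit 24889148), (nat_lit 18515096), (nat_lit 12482732)] (nat_lit 21286319)) p15_24_0 (nat_lit 4) (nat_lit 226) (nat_lit 227) = true := by decide +kernel
def p15_24_0_227 : pfC (piC [(nat_lit 37722612), (nat_lit 24889148), (nat_lit 18515096), (nat_lit 12482732)] (nat_lit 21286319)) p15_24_0 (nat_lit 4) (nat_lit 227) (nat_lit 228) = true := by decide +kernel
def p15_24_0_228 : pfC (piC [(nat_lit 37722612), (nat_lit 24889148), (nat_lit 18515096), (nat_lit 12482732)] (nat_lit 21286319)) p15_24_0 (nat_lit 4) (nat_lit 228) (nat_lit 229) = true := by decide +kernel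
def p15_24_0_229 : pfC (piC [(nat_lit 37722612), (nat_lit 24889148), (nat_lit 18515096), (nat_lit 12482732)] (nat_lit 21286319)) p15_24_0 (nat_lit 4) (nat_lit 229) (nat_lit 230) = true := by decide +kernel
def p15_24_0_230 : pfC (piC [(nat_lit 37722612), (nat_lit 24889148), (nat_lit 18515096), (nat_lit 12482732)] (nat_lit 21286319)) p15_24_0 (nat_lit 4) (nat_lit 230) (nat_lit 231) = true := by decide +kernel
def p15_24_0_231 : pfC (piC [(nat_lit 37722612), (nat_lit 24889148), (nat_lit 18515096), (nat_lit 12482732)] (nat_lit 21286319)) p15_24_0 (nat_lit 4) (nat_lit 231) (nat_lit 232) = true := by decide +kernel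
def p15_24_0_232 : pfC (piC [(nat_lit 37722612), (nat_lit 24889148), (nat_lit 18515096), (nat_lit 12482732)] (nat_lit 21286319)) p15_24_0 (nat_lit 4) (nat_lit 232) (nat_lit 233) = true := by decide +kernel
def p15_24_0_233 : pfC (piC [(nat_lit 37722612), (nat_lit 24889148), (nat_lit 18515096), (nat_lit 12482732)] (nat_lit 21286319)) p15_24_0 (nat_lit 4) (nat_lit 233) (nat_lit 234) = true := by decide +kernel
def p15_24_0_234 : pfC (piC [(nat_lit 37722612), (nat_lit 24889148), (nat_lit 18515096), (nat_lit 12482732)] (nat_lit 21286319)) p15_24_0 (nat_lit 4) (nat_lit 234) (nat_lit 235) = true := by decide +kernel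
def p15_24_0_235 : pfC (piC [(nat_lit 37722612), (nat_lit 24889148), (nat_lit 18515096), (nat_lit 12482732)] (nat_lit 21286319)) p15_24_0 (nat_lit 4) (nat_lit 235) (nat_lit 236) = true := by decide +kernel
def p15_24_0_236 : pfC (piC [(nat_lit 37722612), (nat_lit 24889148), (nat_lit 18515096), (nat_lit 12482732)] (nat_lit 21286319)) p15_24_0 (nat_lit 4) (nat_lit 236) (nat_lit 237) = true := by decide +kernel
def p15_24_0_237 : pfC (piC [(nat_lit 37722612), (nat_lit 24889148), (nat_lit 18515096), (nat_lit 12482732)] (nat_lit 21286319)) p15_24_0 (nat_lit 4) (nat_lit 237) (nat_lit 238) = true := by decide +kernel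
def p15_24_0_238 : pfC (piC [(nat_lit 37722612), (nat_lit 24889148), (nat_lit 18515096), (nat_lit 12482732)] (nat_lit 21286319)) p15_24_0 (nat_lit 4) (nat_lit 238) (nat_lit 239) = true := by decide +kernel
def p15_24_0_239 : pfC (piC [(nat_lit 37722612), (nat_lit 24889148), (nat_lit 18515096), (nat_lit 12482732)] (nat_lit 21286319)) p15_24_0 (nat_lit 4) (nat_lit 239) (nat_lit 240) = true := by decide +kernel
def p15_24_0_240 : pfC (piC [(nat_lit 37722612), (nat_lit 24889148), (nat_lit 18515096), (nat_lit 12482732)] (nat_lit 21286319)) p15_24_0 (nat_lit 4) (nat_lit 240) (nat_lit 241) = true := by decide +kernel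
def p15_24_0_241 : pfC (piC [(nat_lit 37722612), (nat_lit 24889148), (nat_lit 18515096), (nat_lit 12482732)] (nat_lit 21286319)) p15_24_0 (nat_lit 4) (nat_lit 241) (nat_lit 242) = true := by decide +kernel
def p15_24_0_242 : pfC (piC [(nat_lit 37722612), (nat_lit 24889148), (nat_lit 18515096), (nat_lit 12482732)] (nat_lit 21286319)) p15_24_0 (nat_lit 4) (nat_lit 242) (nat_lit 243) = true := by decide +kernel
def p15_24_0_243 : pfC (piC [(nat_lit 37722612), (nat_lit 24889148), (nat_lit 18515096), (nat_lit 12482732)] (nat_lit 21286319)) p15_24_0 (nat_lit 4) (nat_lit 243) (nat_lit 244) = true := by decide +kernel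
def p15_24_0_244 : pfC (piC [(nat_lit 37722612), (nat_lit 24889148), (nat_lit 18515096), (nat_lit 12482732)] (nat_lit 21286319)) p15_24_0 (nat_lit 4) (nat_lit 244) (nat_lit 245) = true := by decide +kernel
def p15_24_0_245 : pfC (piC [(nat_lit 37722612), (nat_lit 24889148), (nat_lit 18515096), (nat_lit 12482732)] (nat_lit 21286319)) p15_24_0 (nat_lit 4) (nat_lit 245) (nat_lit 246) = true := by decide +kernel
def p15_24_0_246 : pfC (piC [(nat_lit 37722612), (nat_lit 24889148), (nat_lit 18515096), (nat_lit 12482732)] (nat_lit 21286319)) p15_24_0 (nat_lit 4) (nat_lit 246) (nat_lit 247) = true := by decide +kernel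
def p15_24_0_247 : pfC (piC [(nat_lit 37722612), (nat_lit 24889148), (nat_lit 18515096), (nat_lit 12482732)] (nat_lit 21286319)) p15_24_0 (nat_lit 4) (nat_lit 247) (nat_lit 248) = true := by decide +kernel
def p15_24_0_248 : pfC (piC [(nat_lit 37722612), (nat_lit 24889148), (nat_lit 18515096), (nat_lit 12482732)] (nat_lit 21286319)) p15_24_0 (nat_lit 4) (nat_lit 248) (nat_lit 249) = true := by decide +kernel
def p15_24_0_249 : pfC (piC [(nat_lit 37722612), (nat_lit 24889148), (nat_lit 18515096), (nat_lit 12482732)] (nat_lit 21286319)) p15_24_0 (nat_lit 4) (nat_lit 249) (nat_lit 250) = true := by decide +kernel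
def p15_24_0_250 : pfC (piC [(nat_lit 37722612), (nat_lit 24889148), (nat_lit 18515096), (nat_lit 12482732)] (nat_lit 21286319)) p15_24_0 (nat_lit 4) (nat_lit 250) (nat_lit 251) = true := by decide +kernel
def p15_24_0_251 : pfC (piC [(nat_lit 37722612), (nat_lit 24889148), (nat_lit 18515096), (nat_lit 12482732)] (nat_lit 21286319)) p15_24_0 (nat_lit 4) (nat_lit 251) (nat_lit 252) = true := by decide +kernel
def p15_24_0_252 : pfC (piC [(nat_lit 37722612), (nat_lit 24889148), (nat_lit 18515096), (nat_lit 12482732)] (nat_lit 21286319)) p15_24_0 (nat_lit 4) (nat_lit 252) (nat_lit 253) = true := by decide +kernel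
def p15_24_0_253 : pfC (piC [(nat_lit 37722612), (nat_lit 24889148), (nat_lit 18515096), (nat_lit 12482732)] (nat_lit 21286319)) p15_24_0 (nat_lit 4) (nat_lit 253) (nat_lit 254) = true := by decide +kernel
def p15_24_0_254 : pfC (piC [(nat_lit 37722612), (nat_lit 24889148), (nat_lit 18515096), (nat_lit 12482732)] (nat_lit 21286319)) p15_24_0 (nat_lit 4) (nat_lit 254) (nat_lit 255) = true := by decide +kernel
def p15_24_0_255 : pfC (piC [(nat_lit 37722612), (nat_lit 24889148), (nat_lit 18515096), (nat_lit 12482732)] (nat_lit 21286319)) p15_24_0 (nat_lit 4) (nat_lit 255) (nat_lit 256) = true := by decide +kernel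
def p15_24_0_256 : pfC (piC [(nat_lit 37722612), (nat_lit 24889148), (nat_lit 18515096), (nat_lit 12482732)] (nat_lit 21286319)) p15_24_0 (nat_lit 4) (nat_lit 256) (nat_lit 257) = true := by decide +kernel
def p15_24_0_257 : pfC (piC [(nat_lit 37722612), (nat_lit 24889148), (nat_lit 18515096), (nat_lit 12482732)] (nat_lit 21286319)) p15_24_0 (nat_lit 4) (nat_lit 257) (nat_lit 258) = true := by decide +kernel
def p15_24_0_258 : pfC (piC [(nat_lit 37722612), (nat_lit 24889148), (nat_lit 18515096), (nat_lit 12482732)] (nat_lit 21286319)) p15_24_0 (nat_lit 4) (nat_lit 258) (nat_lit 259) = true := by decide +kernel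
def p15_24_0_259 : pfC (piC [(nat_lit 37722612), (nat_lit 24889148), (nat_lit 18515096), (nat_lit 12482732)] (nat_lit 21286319)) p15_24_0 (nat_lit 4) (nat_lit 259) (nat_lit 260) = true := by decide +kernel
def p15_24_0_260 : pfC (piC [(nat_lit 37722612), (nat_lit 24889148), (nat_lit 18515096), (nat_lit 12482732)] (nat_lit 21286319)) p15_24_0 (nat_lit 4) (nat_lit 260) (nat_lit 261) = true := by decide +kernel
def p15_24_0_261 : pfC (piC [(nat_lit 37722612), (nat_lit 24889148), (nat_lit 18515096), (nat_lit 12482732)] (nat_lit 21286319)) p15_24_0 (nat_lit 4) (nat_lit 261) (nat_lit 262) = true := by decide +kernel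
def p15_24_0_262 : pfC (piC [(nat_lit 37722612), (nat_lit 24889148), (nat_lit 18515096), (nat_lit 12482732)] (nat_lit 21286319)) p15_24_0 (nat_lit 4) (nat_lit 262) (nat_lit 263) = true := by decide +kernel
def p15_24_0_263 : pfC (piC [(nat_lit 37722612), (nat_lit 24889148), (nat_lit 18515096), (nat_lit 12482732)] (nat_lit 21286319)) p15_24_0 (nat_lit 4) (nat_lit 263) (nat_lit 264) = true := by decide +kernel
def p15_24_0_264 : pfC (piC [(nat_lit 37722612), (nat_lit 24889148), (nat_lit 18515096), (nat_lit 12482732)] (nat_lit 21286319)) p15_24_0 (nat_lit 4) (nat_lit 264) (nat_lit 265) = true := by decide +kernel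
def p15_24_0_265 : pfC (piC [(nat_lit 37722612), (nat_lit 24889148), (nat_lit 18515096), (nat_lit 12482732)] (nat_lit 21286319)) p15_24_0 (nat_lit 4) (nat_lit 265) (nat_lit 266) = true := by decide +kernel
def p15_24_0_266 : pfC (piC [(nat_lit 37722612), (nat_lit 24889148), (nat_lit 18515096), (nat_lit 12482732)] (nat_lit 21286319)) p15_24_0 (nat_lit 4) (nat_lit 266) (nat_lit 267) = true := by decide +kernel
def p15_24_0_267 : pfC (piC [(nat_lit 37722612), (nat_lit 24889148), (nat_lit 18515096), (nat_lit 12482732)] (nat_lit 21286319)) p15_24_0 (nat_lit 4) (nat_lit 267) (nat_lit 268) = true := by decide +kernel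
def p15_24_0_268 : pfC (piC [(nat_lit 37722612), (nat_lit 24889148), (nat_lit 18515096), (nat_lit 12482732)] (nat_lit 21286319)) p15_24_0 (nat_lit 4) (nat_lit 268) (nat_lit 269) = true := by decide +kernel
def p15_24_0_269 : pfC (piC [(nat_lit 37722612), (nat_lit 24889148), (nat_lit 18515096), (nat_lit 12482732)] (nat_lit 21286319)) p15_24_0 (nat_lit 4) (nat_lit 269) (nat_lit 270) = true := by decide +kernel
def p15_24_0_270 : pfC (piC [(nat_lit 37722612), (nat_lit 24889148), (nat_lit 18515096), (nat_lit 12482732)] (nat_lit 21286319)) p15_24_0 (nat_lit 4) (nat_lit 270) (nat_lit 271) = true := by decide +kernel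
def p15_24_0_271 : pfC (piC [(nat_lit 37722612), (nat_lit 24889148), (nat_lit 18515096), (nat_lit 12482732)] (nat_lit 21286319)) p15_24_0 (nat_lit 4) (nat_lit 271) (nat_lit 272) = true := by decide +kernel
def p15_24_0_272 : pfC (piC [(nat_lit 37722612), (nat_lit 24889148), (nat_lit 18515096), (nat_lit 12482732)] (nat_lit 21286319)) p15_24_0 (nat_lit 4) (nat_lit 272) (nat_lit 273) = true := by decide +kernel
def p15_24_0_273 : pfC (piC [(nat_lit 37722612), (nat_lit 24889148), (nat_lit 18515096), (nat_lit 12482732)] (nat_lit 21286319)) p15_24_0 (nat_lit 4) (nat_lit 273) (nat_lit 274) = true := by decide +kernel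
def p15_24_0_274 : pfC (piC [(nat_lit 37722612), (nat_lit 24889148), (nat_lit 18515096), (nat_lit 12482732)] (nat_lit 21286319)) p15_24_0 (nat_lit 4) (nat_lit 274) (nat_lit 275) = true := by decide +kernel
def p15_24_0_275 : pfC (piC [(nat_lit 37722612), (nat_lit 24889148), (nat_lit 18515096), (nat_lit 12482732)] (nat_lit 21286319)) p15_24_0 (nat_lit 4) (nat_lit 275) (nat_lit 276) = true := by decide +kernel
def p15_24_0_276 : pfC (piC [(nat_lit 37722612), (nat_lit 24889148), (nat_lit 18515096), (nat_lit 12482732)] (nat_lit 21286319)) p15_24_0 (nat_lit 4) (nat_lit 276) (nat_lit 277) = true := by decide +kernel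
def p15_24_0_277 : pfC (piC [(nat_lit 37722612), (nat_lit 24889148), (nat_lit 18515096), (nat_lit 12482732)] (nat_lit 21286319)) p15_24_0 (nat_lit 4) (nat_lit 277) (nat_lit 278) = true := by decide +kernel
def p15_24_0_278 : pfC (piC [(nat_lit 37722612), (nat_lit 24889148), (nat_lit 18515096), (nat_lit 12482732)] (nat_lit 21286319)) p15_24_0 (nat_lit 4) (nat_lit 278) (nat_lit 279) = true := by decide +kernel
def p15_24_0_279 : pfC (piC [(nat_lit 37722612), (nat_lit 24889148), (nat_lit 18515096), (nat_lit 12482732)] (nat_lit 21286319)) p15_24_0 (nat_lit 4) (nat_lit 279) (nat_lit 280) = true := by decide +kernel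
def p15_24_0_280 : pfC (piC [(nat_lit 37722612), (nat_lit 24889148), (nat_lit 18515096), (nat_lit 12482732)] (nat_lit 21286319)) p15_24_0 (nat_lit 4) (nat_lit 280) (nat_lit 281) = true := by decide +kernel
def p15_24_0_281 : pfC (piC [(nat_lit 37722612), (nat_lit 24889148), (nat_lit 18515096), (nat_lit 12482732)] (nat_lit 21286319)) p15_24_0 (nat_lit 4) (nat_lit 281) (nat_lit 282) = true := by decide +kernel
def p15_24_0_282 : pfC (piC [(nat_lit 37722612), (nat_lit 24889148), (nat_lit 18515096), (nat_lit 12482732)] (nat_lit 21286319)) p15_24_0 (nat_lit 4) (nat_lit 282) (nat_lit 283) = true := by decide +kernel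
def p15_24_0_283 : pfC (piC [(nat_lit 37722612), (nat_lit 24889148), (nat_lit 18515096), (nat_lit 12482732)] (nat_lit 21286319)) p15_24_0 (nat_lit 4) (nat_lit 283) (nat_lit 284) = true := by decide +kernel
def p15_24_0_284 : pfC (piC [(nat_lit 37722612), (nat_lit 24889148), (nat_lit 18515096), (nat_lit 12482732)] (nat_lit 21286319)) p15_24_0 (nat_lit 4) (nat_lit 284) (nat_lit 285) = true := by decide +kernel
def p15_24_0_285 : pfC (piC [(nat_lit 37722612), (nat_lit 24889148), (nat_lit 18515096), (nat_lit 12482732)] (nat_lit 21286319)) p15_24_0 (nat_lit 4) (nat_lit 285) (nat_lit 286) = true := by decide +kernel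
def p15_24_0_286 : pfC (piC [(nat_lit 37722612), (nat_lit 24889148), (nat_lit 18515096), (nat_lit 12482732)] (nat_lit 21286319)) p15_24_0 (nat_lit 4) (nat_lit 286) (nat_lit 287) = true := by decide +kernel
def p15_24_0_287 : pfC (piC [(nat_lit 37722612), (nat_lit 24889148), (nat_lit 18515096), (nat_lit 12482732)] (nat_lit 21286319)) p15_24_0 (nat_lit 4) (nat_lit 287) (nat_lit 288) = true := by decide +kernel
def p15_24_0_288 : pfC (piC [(nat_lit 37722612), (nat_lit 24889148), (nat_lit 18515096), (nat_lit 12482732)] (nat_lit 21286319)) p15_24_0 (nat_lit 4) (nat_lit 288) (nat_lit 289) = true := by decide +kernel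
def p15_24_0_289 : pfC (piC [(nat_lit 37722612), (nat_lit 24889148), (nat_lit 18515096), (nat_lit 12482732)] (nat_lit 21286319)) p15_24_0 (nat_lit 4) (nat_lit 289) (nat_lit 290) = true := by decide +kernel
def p15_24_0_290 : pfC (piC [(nat_lit 37722612), (nat_lit 24889148), (nat_lit 18515096), (nat_lit 12482732)] (nat_lit 21286319)) p15_24_0 (nat_lit 4) (nat_lit 290) (nat_lit 291) = true := by decide +kernel
def p15_24_0_291 : pfC (piC [(nat_lit 37722612), (nat_lit 24889148), (nat_lit 18515096), (nat_lit 12482732)] (nat_lit 21286319)) p15_24_0 (nat_lit 4) (nat_lit 291) (nat_lit 292) = true := by decide +kernel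
def p15_24_0_292 : pfC (piC [(nat_lit 37722612), (nat_lit 24889148), (nat_lit 18515096), (nat_lit 12482732)] (nat_lit 21286319)) p15_24_0 (nat_lit 4) (nat_lit 292) (nat_lit 293) = true := by decide +kernel
def p15_24_0_293 : pfC (piC [(nat_lit 37722612), (nat_lit 24889148), (nat_lit 18515096), (nat_lit 12482732)] (nat_lit 21286319)) p15_24_0 (nat_lit 4) (nat_lit 293) (nat_lit 294) = true := by decide +kernel
def p15_24_0_294 : pfC (piC [(nat_lit 37722612), (nat_lit 24889148), (nat_lit 18515096), (nat_lit 12482732)] (nat_lit 21286319)) p15_24_0 (nat_lit 4) (nat_lit 294) (nat_lit 295) = true := by decide +kernel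
def p15_24_0_295 : pfC (piC [(nat_lit 37722612), (nat_lit 24889148), (nat_lit 18515096), (nat_lit 12482732)] (nat_lit 21286319)) p15_24_0 (nat_lit 4) (nat_lit 295) (nat_lit 296) = true := by decide +kernel
def p15_24_0_296 : pfC (piC [(nat_lit 37722612), (nat_lit 24889148), (nat_lit 18515096), (nat_lit 12482732)] (nat_lit 21286319)) p15_24_0 (nat_lit 4) (nat_lit 296) (nat_lit 297) = true := by decide +kernel
def p15_24_0_297 : pfC (piC [(nat_lit 37722612), (nat_lit 24889148), (nat_lit 18515096), (nat_lit 12482732)] (nat_lit 21286319)) p15_24_0 (nat_lit 4) (nat_lit 297) (nat_lit 298) = true := by decide +kernel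
def p15_24_0_298 : pfC (piC [(nat_lit 37722612), (nat_lit 24889148), (nat_lit 18515096), (nat_lit 12482732)] (nat_lit 21286319)) p15_24_0 (nat_lit 4) (nat_lit 298) (nat_lit 299) = true := by decide +kernel
def p15_24_0_299 : pfC (piC [(nat_lit 37722612), (nat_lit 24889148), (nat_lit 18515096), (nat_lit 12482732)] (nat_lit 21286319)) p15_24_0 (nat_lit 4) (nat_lit 299) (nat_lit 300) = true := by decide +kernel
def p15_24_0_300 : pfC (piC [(nat_lit 37722612), (nat_lit 24889148), (nat_lit 18515096), (nat_lit 12482732)] (nat_lit 21286319)) p15_24_0 (nat_lit 4) (nat_lit 300) (nat_lit 301) = true := by decide +kernel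
def p15_24_0_301 : pfC (piC [(nat_lit 37722612), (nat_lit 24889148), (nat_lit 18515096), (nat_lit 12482732)] (nat_lit 21286319)) p15_24_0 (nat_lit 4) (nat_lit 301) (nat_lit 302) = true := by decide +kernel
def p15_24_0_302 : pfC (piC [(nat_lit 37722612), (nat_lit 24889148), (nat_lit 18515096), (nat_lit 12482732)] (nat_lit 21286319)) p15_24_0 (nat_lit 4) (nat_lit 302) (nat_lit 303) = true := by decide +kernel
def p15_24_0_303 : pfC (piC [(nat_lit 37722612), (nat_lit 24889148), (nat_lit 18515096), (nat_lit 12482732)] (nat_lit 21286319)) p15_24_0 (nat_lit 4) (nat_lit 303) (nat_lit 304) = true := by decide +kernel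
def p15_24_0_304 : pfC (piC [(nat_lit 37722612), (nat_lit 24889148), (nat_lit 18515096), (nat_lit 12482732)] (nat_lit 21286319)) p15_24_0 (nat_lit 4) (nat_lit 304) (nat_lit 305) = true := by decide +kernel
def p15_24_0_305 : pfC (piC [(nat_lit 37722612), (nat_lit 24889148), (nat_lit 18515096), (nat_lit 12482732)] (nat_lit 21286319)) p15_24_0 (nat_lit 4) (nat_lit 305) (nat_lit 306) = true := by decide +kernel
def p15_24_0_306 : pfC (piC [(nat_lit 37722612), (nat_lit 24889148), (nat_lit 18515096), (nat_lit 12482732)] (nat_lit 21286319)) p15_24_0 (nat_lit 4) (nat_lit 306) (nat_lit 307) = true := by decide +kernel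
def p15_24_0_307 : pfC (piC [(nat_lit 37722612), (nat_lit 24889148), (nat_lit 18515096), (nat_lit 12482732)] (nat_lit 21286319)) p15_24_0 (nat_lit 4) (nat_lit 307) (nat_lit 308) = true := by decide +kernel
def p15_24_0_308 : pfC (piC [(nat_lit 37722612), (nat_lit 24889148), (nat_lit 18515096), (nat_lit 12482732)] (nat_lit 21286319)) p15_24_0 (nat_lit 4) (nat_lit 308) (nat_lit 309) = true := by decide +kernel
def p15_24_0_309 : pfC (piC [(nat_lit 37722612), (nat_lit 24889148), (nat_lit 18515096), (nat_lit 12482732)] (nat_lit 21286319)) p15_24_0 (nat_lit 4) (nat_lit 309) (nat_lit 310) = true := by decide +kernel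
def p15_24_0_310 : pfC (piC [(nat_lit 37722612), (nat_lit 24889148), (nat_lit 18515096), (nat_lit 12482732)] (nat_lit 21286319)) p15_24_0 (nat_lit 4) (nat_lit 310) (nat_lit 311) = true := by decide +kernel
def p15_24_0_311 : pfC (piC [(nat_lit 37722612), (nat_lit 24889148), (nat_lit 18515096), (nat_lit 12482732)] (nat_lit 21286319)) p15_24_0 (nat_lit 4) (nat_lit 311) (nat_lit 312) = true := by decide +kernel
def p15_24_0_312 : pfC (piC [(nat_lit 37722612), (nat_lit 24889148), (nat_lit 18515096), (nat_lit 12482732)] (nat_lit 21286319)) p15_24_0 (nat_lit 4) (nat_lit 312) (nat_lit 313) = true := by decide +kernel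
def p15_24_0_313 : pfC (piC [(nat_lit 37722612), (nat_lit 24889148), (nat_lit 18515096), (nat_lit 12482732)] (nat_lit 21286319)) p15_24_0 (nat_lit 4) (nat_lit 313) (nat_lit 314) = true := by decide +kernel
def p15_24_0_314 : pfC (piC [(nat_lit 37722612), (nat_lit 24889148), (nat_lit 18515096), (nat_lit 12482732)] (nat_lit 21286319)) p15_24_0 (nat_lit 4) (nat_lit 314) (nat_lit 315) = true := by decide +kernel
theorem p15_24_0_T : PfS (PiF n15_24.reverse (nat_lit 21286319)) p15_24_0 (nat_lit 4) [] 0 :=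
  pftab_of (los := [(nat_lit 37722612), (nat_lit 24889148), (nat_lit 18515096), (nat_lit 12482732)]) (by decide +kernel) (hi := (nat_lit 315)) (PfP.trans (PfP.trans (PfP.trans (PfP.trans (PfP.trans (PfP.trans (PfP.trans (PfP.trans (PfP.trans (PfP.trans (PfP.trans (PfP.trans (PfP.trans (PfP.trans (PfP.trans (PfP.trans (PfP.trans (PfP.trans (PfP.trans (PfP.trans (PfP.trans (PfP.trans (PfP.trans (PfP.trans (PfP.trans (PfP.trans (PfP.trans (PfP.trans (PfP.trans (PfP.trans (PfP.trans (PfP.trans (PfP.trans (PfP.trans (PfP.trans (PfP.trans (PfP.trans (PfP.trans (PfP.trans (PfP.trans (PfP.trans (PfP.trans (PfP.trans (PfP.trans (PfP.trans (PfP.trans (PfP.trans (PfP.trans (PfP.trans (PfP.trans (PfP.trans (PfP.trans (PfP.trans (PfP.trans (PfP.trans (PfP.trans (PfP.trans (PfP.trans (PfP.trans (PfP.trans (PfP.trans (PfP.trans (PfP.trans (PfP.trans (PfP.trans (PfP.trans (PfP.trans (PfP.trans (PfP.trans (PfP.trans (PfP.trans (PfP.trans (PfP.trans (PfP.trans (PfP.trans (PfP.trans (PfP.trans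 (PfP.trans (PfP.trans (PfP.trans (PfP.trans (PfP.trans (PfP.trans (PfP.trans (PfP.trans (PfP.trans (PfP.trans (PfP.trans (PfP.trans (PfP.trans (PfP.trans (PfP.trans (PfP.trans (PfP.trans (PfP.trans (PfP.trans (PfP.trans (PfP.trans (PfP.trans (PfP.trans (PfP.trans (PfP.trans (PfP.trans (PfP.trans (PfP.trans (PfP.trans (PfP.trans (PfP.trans (PfP.trans
 (PfP.trans (PfP.trans (PfP.trans (PfP.trans (PfP.trans (PfP.trans (PfP.trans (PfP.trans (PfP.trans (PfP.trans (PfP.trans (PfP.trans (PfP.trans (PfP.trans (PfP.trans (PfP.trans (PfP.trans (PfP.trans (PfP.trans (PfP.trans (PfP.trans (PfP.trans (PfP.trans (PfP.trans (PfP.trans (PfP.trans (PfP.trans (PfP.trans (PfP.trans (PfP.trans (PfP.trans (PfP.trans (PfP.trans (PfP.trans (PfP.trans (PfP.trans (PfP.trans (PfP.trans (PfP.trans (PfP.trans (PfP.trans (PfP.trans (PfP.trans (PfP.trans (PfP.trans (PfP.trans (PfP.trans (PfP.trans (PfP.trans (PfP.trans (PfP.trans (PfP.trans (PfP.trans (PfP.trans (PfP.trans (PfP.trans (PfP.trans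 (PfP.trans (PfP.trans (PfP.trans (PfP.trans (PfP.trans (PfP.trans (PfP.trans (PfP.trans (PfP.trans (PfP.trans (PfP.trans (PfP.trans (PfP.trans (PfP.trans (PfP.trans (PfP.trans (PfP.trans (PfP.trans (PfP.trans (PfP.trans (PfP.trans (PfP.trans (PfP.trans (PfP.trans (PfP.trans (PfP.trans (PfP.trans (PfP.trans (PfP.trans (PfP.trans (PfP.trans (PfP.trans (PfP.trans (PfP.trans (PfP.trans (PfP.trans (PfP.trans (PfP.trans (PfP.trans (PfP.trans (PfP.trans (PfP.trans (PfP.trans (PfP.trans (PfP.trans (PfP.trans (PfP.trans (PfP.trans (PfP.trans (PfP.trans (PfP.trans (PfP.trans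
 (PfP.trans (PfP.trans (PfP.trans (PfP.trans (PfP.trans (PfP.trans (PfP.trans (PfP.trans (PfP.trans (PfP.trans (PfP.trans (PfP.trans (PfP.trans (PfP.trans (PfP.trans (PfP.trans (PfP.trans (PfP.trans (PfP.trans (PfP.trans (PfP.trans (PfP.trans (PfP.trans (PfP.trans (PfP.trans (PfP.trans (PfP.trans (PfP.trans (PfP.trans (PfP.trans (PfP.trans (PfP.trans (PfP.trans (PfP.trans (PfP.trans (PfP.trans (PfP.trans (PfP.trans (PfP.trans (PfP.trans (PfP.trans (PfP.trans (PfP.trans (PfP.trans (PfP.trans (PfP.trans (PfP.trans (PfP.trans (PfP.trans (PfP.trans (PfP.trans (PfP.trans (PfP.trans (PfP.trans (PfP.trans (PfP.trans (PfP.trans (PfP.trans (PfP.trans (PfP.trans (PfP.trans (PfP.trans (PfP.trans (PfP.trans (PfP.trans (PfP.trans (PfP.trans (PfP.trans (PfP.trans (PfP.trans (PfP.trans (PfP.trans (PfP.trans (PfP.trans (PfP.trans (PfP.trans (PfP.trans (PfP.trans (PfP.trans (PfP.trans (PfP.trans (PfP.trans (PfP.trans (PfP.trans (PfP.trans (PfP.trans (PfP.trans (PfP.trans (PfP.trans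 (PfP.trans (PfP.trans (PfP.trans (PfP.trans (PfP.trans (PfP.trans (PfP.trans (pfC_sound p15_24_0_0) (pfC_sound p15_24_0_1)) (pfC_sound p15_24_0_2)) (pfC_sound p15_24_0_3)) (pfC_sound p15_24_0_4)) (pfC_sound p15_24_0_5))
 (pfC_sound p15_24_0_6)) (pfC_sound p15_24_0_7)) (pfC_sound p15_24_0_8)) (pfC_sound p15_24_0_9)) (pfC_sound p15_24_0_10)) (pfC_sound p15_24_0_11)) (pfC_sound p15_24_0_12)) (pfC_sound p15_24_0_13)) (pfC_sound p15_24_0_14)) (pfC_sound p15_24_0_15)) (pfC_sound p15_24_0_16)) (pfC_sound p15_24_0_17)) (pfC_sound p15_24_0_18)) (pfC_sound p15_24_0_19)) (pfC_sound p15_24_0_20)) (pfC_sound p15_24_0_21)) (pfC_sound p15_24_0_22)) (pfC_sound p15_24_0_23)) (pfC_sound p15_24_0_24)) (pfC_sound p15_24_0_25)) (pfC_sound p15_24_0_26)) (pfC_sound p15_24_0_27)) (pfC_sound p15_24_0_28)) (pfC_sound p15_24_0_29)) (pfC_sound p15_24_0_30)) (pfC_sound p15_24_0_31)) (pfC_sound p15_24_0_32)) (pfC_sound p15_24_0_33)) (pfC_sound p15_24_0_34)) (pfC_sound p15_24_0_35)) (pfC_sound p15_24_0_36))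 (pfC_sound p15_24_0_37)) (pfC_sound p15_24_0_38)) (pfC_sound p15_24_0_39)) (pfC_sound p15_24_0_40)) (pfC_sound p15_24_0_41)) (pfC_sound p15_24_0_42)) (pfC_sound p15_24_0_43)) (pfC_sound p15_24_0_44)) (pfC_sound p15_24_0_45)) (pfC_sound p15_24_0_46)) (pfC_sound p15_24_0_47)) (pfC_sound p15_24_0_48)) (pfC_sound p15_24_0_49)) (pfC_sound p15_24_0_50)) (pfC_sound p15_24_0_51)) (pfC_sound p15_24_0_52)) (pfC_sound p15_24_0_53))
 (pfC_sound p15_24_0_54)) (pfC_sound p15_24_0_55)) (pfC_sound p15_24_0_56)) (pfC_sound p15_24_0_57)) (pfC_sound p15_24_0_58)) (pfC_sound p15_24_0_59)) (pfC_sound p15_24_0_60)) (pfC_sound p15_24_0_61)) (pfC_sound p15_24_0_62)) (pfC_sound p15_24_0_63)) (pfC_sound p15_24_0_64)) (pfC_sound p15_24_0_65)) (pfC_sound p15_24_0_66)) (pfC_sound p15_24_0_67)) (pfC_sound p15_24_0_68)) (pfC_sound p15_24_0_69)) (pfC_sound p15_24_0_70)) (pfC_sound p15_24_0_71)) (pfC_sound p15_24_0_72)) (pfC_sound p15_24_0_73)) (pfC_sound p15_24_0_74)) (pfC_sound p15_24_0_75)) (pfC_sound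 p15_24_0_76)) (pfC_sound p15_24_0_77)) (pfC_sound p15_24_0_78)) (pfC_sound p15_24_0_79)) (pfC_sound p15_24_0_80)) (pfC_sound p15_24_0_81)) (pfC_sound p15_24_0_82)) (pfC_sound p15_24_0_83)) (pfC_sound p15_24_0_84)) (pfC_sound p15_24_0_85)) (pfC_sound p15_24_0_86)) (pfC_sound p15_24_0_87)) (pfC_sound p15_24_0_88)) (pfC_sound p15_24_0_89)) (pfC_sound p15_24_0_90)) (pfC_sound p15_24_0_91)) (pfC_sound p15_24_0_92)) (pfC_sound p15_24_0_93)) (pfC_sound p15_24_0_94)) (pfC_sound p15_24_0_95)) (pfC_sound p15_24_0_96)) (pfC_sound p15_24_0_97)) (pfC_sound p15_24_0_98)) (pfC_sound p15_24_0_99)) (pfC_sound p15_24_0_100)) (pfC_sound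
 p15_24_0_101)) (pfC_sound p15_24_0_102)) (pfC_sound p15_24_0_103)) (pfC_sound p15_24_0_104)) (pfC_sound p15_24_0_105)) (pfC_sound p15_24_0_106)) (pfC_sound p15_24_0_107)) (pfC_sound p15_24_0_108)) (pfC_sound p15_24_0_109)) (pfC_sound p15_24_0_110)) (pfC_sound p15_24_0_111)) (pfC_sound p15_24_0_112)) (pfC_sound p15_24_0_113)) (pfC_sound p15_24_0_114)) (pfC_sound p15_24_0_115)) (pfC_sound p15_24_0_116)) (pfC_sound p15_24_0_117)) (pfC_sound p15_24_0_118)) (pfC_sound p15_24_0_119)) (pfC_sound p15_24_0_120)) (pfC_sound p15_24_0_121)) (pfC_sound p15_24_0_122)) (pfC_sound p15_24_0_123)) (pfC_sound p15_24_0_124)) (pfC_sound p15_24_0_125)) (pfC_sound p15_24_0_126)) (pfC_sound p15_24_0_127)) (pfC_sound p15_24_0_128)) (pfC_sound p15_24_0_129)) (pfC_sound p15_24_0_130)) (pfC_sound p15_24_0_131)) (pfC_sound p15_24_0_132)) (pfC_sound p15_24_0_133)) (pfC_sound p15_24_0_134)) (pfC_sound p15_24_0_135)) (pfC_sound p15_24_0_136)) (pfC_sound p15_24_0_137)) (pfC_sound p15_24_0_138)) (pfC_sound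 p15_24_0_139)) (pfC_sound p15_24_0_140)) (pfC_sound p15_24_0_141)) (pfC_sound p15_24_0_142)) (pfC_sound p15_24_0_143)) (pfC_sound p15_24_0_144)) (pfC_sound p15_24_0_145)) (pfC_sound p15_24_0_146)) (pfC_sound
 p15_24_0_147)) (pfC_sound p15_24_0_148)) (pfC_sound p15_24_0_149)) (pfC_sound p15_24_0_150)) (pfC_sound p15_24_0_151)) (pfC_sound p15_24_0_152)) (pfC_sound p15_24_0_153)) (pfC_sound p15_24_0_154)) (pfC_sound p15_24_0_155)) (pfC_sound p15_24_0_156)) (pfC_sound p15_24_0_157)) (pfC_sound p15_24_0_158)) (pfC_sound p15_24_0_159)) (pfC_sound p15_24_0_160)) (pfC_sound p15_24_0_161)) (pfC_sound p15_24_0_162)) (pfC_sound p15_24_0_163)) (pfC_sound p15_24_0_164)) (pfC_sound p15_24_0_165)) (pfC_sound p15_24_0_166)) (pfC_sound p15_24_0_167)) (pfC_sound p15_24_0_168)) (pfC_sound p15_24_0_169)) (pfC_sound p15_24_0_170)) (pfC_sound p15_24_0_171)) (pfC_sound p15_24_0_172)) (pfC_sound p15_24_0_173)) (pfC_sound p15_24_0_174)) (pfC_sound p15_24_0_175)) (pfC_sound p15_24_0_176)) (pfC_sound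 p15_24_0_177)) (pfC_sound p15_24_0_178)) (pfC_sound p15_24_0_179)) (pfC_sound p15_24_0_180)) (pfC_sound p15_24_0_181)) (pfC_sound p15_24_0_182)) (pfC_sound p15_24_0_183)) (pfC_sound p15_24_0_184)) (pfC_sound p15_24_0_185)) (pfC_sound p15_24_0_186)) (pfC_sound p15_24_0_187)) (pfC_sound p15_24_0_188)) (pfC_sound p15_24_0_189)) (pfC_sound p15_24_0_190)) (pfC_sound p15_24_0_191)) (pfC_sound p15_24_0_192)) (pfC_sound
 p15_24_0_193)) (pfC_sound p15_24_0_194)) (pfC_sound p15_24_0_195)) (pfC_sound p15_24_0_196)) (pfC_sound p15_24_0_197)) (pfC_sound p15_24_0_198)) (pfC_sound p15_24_0_199)) (pfC_sound p15_24_0_200)) (pfC_sound p15_24_0_201)) (pfC_sound p15_24_0_202)) (pfC_sound p15_24_0_203)) (pfC_sound p15_24_0_204)) (pfC_sound p15_24_0_205)) (pfC_sound p15_24_0_206)) (pfC_sound p15_24_0_207)) (pfC_sound p15_24_0_208)) (pfC_sound p15_24_0_209)) (pfC_sound p15_24_0_210)) (pfC_sound p15_24_0_211)) (pfC_sound p15_24_0_212)) (pfC_sound p15_24_0_213)) (pfC_sound p15_24_0_214)) (pfC_sound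 p15_24_0_215)) (pfC_sound p15_24_0_216)) (pfC_sound p15_24_0_217)) (pfC_sound p15_24_0_218)) (pfC_sound p15_24_0_219)) (pfC_sound p15_24_0_220)) (pfC_sound p15_24_0_221)) (pfC_sound p15_24_0_222)) (pfC_sound p15_24_0_223)) (pfC_sound p15_24_0_224)) (pfC_sound p15_24_0_225)) (pfC_sound p15_24_0_226)) (pfC_sound p15_24_0_227)) (pfC_sound p15_24_0_228)) (pfC_sound p15_24_0_229)) (pfC_sound p15_24_0_230)) (pfC_sound p15_24_0_231)) (pfC_sound p15_24_0_232)) (pfC_sound p15_24_0_233)) (pfC_sound p15_24_0_234)) (pfC_sound p15_24_0_235)) (pfC_sound p15_24_0_236)) (pfC_sound p15_24_0_237)) (pfC_sound p15_24_0_238)) (pfC_sound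
 p15_24_0_239)) (pfC_sound p15_24_0_240)) (pfC_sound p15_24_0_241)) (pfC_sound p15_24_0_242)) (pfC_sound p15_24_0_243)) (pfC_sound p15_24_0_244)) (pfC_sound p15_24_0_245)) (pfC_sound p15_24_0_246)) (pfC_sound p15_24_0_247)) (pfC_sound p15_24_0_248)) (pfC_sound p15_24_0_249)) (pfC_sound p15_24_0_250)) (pfC_sound p15_24_0_251)) (pfC_sound p15_24_0_252)) (pfC_sound p15_24_0_253)) (pfC_sound p15_24_0_254)) (pfC_sound p15_24_0_255)) (pfC_sound p15_24_0_256)) (pfC_sound p15_24_0_257)) (pfC_sound p15_24_0_258)) (pfC_sound p15_24_0_259)) (pfC_sound p15_24_0_260)) (pfC_sound p15_24_0_261)) (pfC_sound p15_24_0_262)) (pfC_sound p15_24_0_263)) (pfC_sound p15_24_0_264)) (pfC_sound p15_24_0_265)) (pfC_sound p15_24_0_266)) (pfC_sound p15_24_0_267)) (pfC_sound p15_24_0_268)) (pfC_sound p15_24_0_269)) (pfC_sound p15_24_0_270)) (pfC_sound p15_24_0_271)) (pfC_sound p15_24_0_272)) (pfC_sound p15_24_0_273)) (pfC_sound p15_24_0_274)) (pfC_sound p15_24_0_275)) (pfC_sound p15_24_0_276)) (pfC_sound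 p15_24_0_277)) (pfC_sound p15_24_0_278)) (pfC_sound p15_24_0_279)) (pfC_sound p15_24_0_280)) (pfC_sound p15_24_0_281)) (pfC_sound p15_24_0_282)) (pfC_sound p15_24_0_283)) (pfC_sound p15_24_0_284)) (pfC_sound
 p15_24_0_285)) (pfC_sound p15_24_0_286)) (pfC_sound p15_24_0_287)) (pfC_sound p15_24_0_288)) (pfC_sound p15_24_0_289)) (pfC_sound p15_24_0_290)) (pfC_sound p15_24_0_291)) (pfC_sound p15_24_0_292)) (pfC_sound p15_24_0_293)) (pfC_sound p15_24_0_294)) (pfC_sound p15_24_0_295)) (pfC_sound p15_24_0_296)) (pfC_sound p15_24_0_297)) (pfC_sound p15_24_0_298)) (pfC_sound p15_24_0_299)) (pfC_sound p15_24_0_300)) (pfC_sound p15_24_0_301)) (pfC_sound p15_24_0_302)) (pfC_sound p15_24_0_303)) (pfC_sound p15_24_0_304)) (pfC_sound p15_24_0_305)) (pfC_sound p15_24_0_306)) (pfC_sound p15_24_0_307)) (pfC_sound p15_24_0_308)) (pfC_sound p15_24_0_309)) (pfC_sound p15_24_0_310)) (pfC_sound p15_24_0_311)) (pfC_sound p15_24_0_312)) (pfC_sound p15_24_0_313)) (pfC_sound p15_24_0_314)) (by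 decide +kernel)

def z15_24_0 : zOK yB15_24 (nat_lit 0) (nat_lit 0) (nat_lit 400) (nat_lit 21286319) (nat_lit 10526835) = true := by decide +kernel
def g15_24_0 : gOK yB15_24.x P15_24 (nat_lit 1415) (q15_24 :: r15_24) (nat_lit 0) (nat_lit 0) (nat_lit 1) (nat_lit 400) (nat_lit 0) (nat_lit 11000000) (nat_lit 12712500) (nat_lit 12712500) [(nat_lit 800), (nat_lit 1400), (nat_lit 2200)] = true := by decide +kernel
def v15_24_0 : ivC P15_24 s15_24 w15_24 n15_24 (nat_lit 4) (nat_lit 5375) (nat_lit 0) (nat_lit 0) f160_1_0 f168_1_0 (nat_lit 1) (nat_lit 400) f160_1_400 f168_1_400 (nat_lit 21286319) (nat_lit 10526835) p15_24_0 = true := by decide +kernel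
def p15_24_1 : PF := (PF.cons (PF.cons (PF.cons (PF.cons (PF.leaf (nat_lit 2125197) (nat_lit 10156770) (nat_lit 56952042) (nat_lit 10156770) [(nat_lit 0), (nat_lit 0), (nat_lit 0), (nat_lit 0)]) (PF.cons (PF.leaf (nat_lit 2311609) (nat_lit 325564) (nat_lit 56601931) (nat_lit 10181316) [(nat_lit 325564), (nat_lit 0), (nat_lit 0), (nat_lit 0)]) (PF.cons (PF.leaf (nat_lit 2531926) (nat_lit 354377) (nat_lit 56192791) (nat_lit 10207266) [(nat_lit 354377), (nat_lit 0), (nat_lit 0), (nat_lit 0)]) (PF.cons (PF.leaf (nat_lit 2779467) (nat_lit 380010) (nat_lit 55735836) (nat_lit 10232946) [(nat_lit 380010), (nat_lit 0), (nat_lit 0), (nat_lit 0)]) (PF.cons (PF.leaf (nat_lit 3050339) (nat_lit 403153) (nat_lit 55239100) (nat_lit 10257100) [(nat_lit 403153), (nat_lit 0), (nat_lit 0), (nat_lit 0)]) (PF.cons (PF.leaf (nat_lit 3341472) (nat_lit 424238) (nat_lit 54708854) (nat_lit 10278765) [(nat_lit 424238), (nat_lit 0), (nat_lit 0), (nat_lit 0)]) (PF.cons (PF.leaf (nat_lit 3650387)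 (nat_lit 443559) (nat_lit 54150254) (nat_lit 10297203) [(nat_lit 443559), (nat_lit 0), (nat_lit 0), (nat_lit 0)]) (PF.cons (PF.leaf (nat_lit 3974887) (nat_lit 461323) (nat_lit 53567691) (nat_lit 10311857) [(nat_lit 461323), (nat_lit 0),
 (nat_lit 0), (nat_lit 0)]) (PF.cons (PF.leaf (nat_lit 4313072) (nat_lit 477688) (nat_lit 52964988) (nat_lit 10322319) [(nat_lit 477688), (nat_lit 0), (nat_lit 0), (nat_lit 0)]) (PF.cons PF.nil (PF.cons PF.nil (PF.cons PF.nil PF.nil)))))))))))) (PF.cons (PF.cons (PF.leaf (nat_lit 2721460) (nat_lit 1387789) (nat_lit 55482690) (nat_lit 10238333) [(nat_lit 0), (nat_lit 1387789), (nat_lit 0), (nat_lit 0)]) (PF.cons (PF.leaf (nat_lit 2961352) (nat_lit 390870) (nat_lit 55032831) (nat_lit 10258605) [(nat_lit 390870), (nat_lit 1426506), (nat_lit 0), (nat_lit 0)]) (PF.cons (PF.leaf (nat_lit 3226795) (nat_lit 413240) (nat_lit 54540820) (nat_lit 10277359) [(nat_lit 413240), (nat_lit 1464152), (nat_lit 0), (nat_lit 0)]) (PF.cons (PF.leaf (nat_lit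 3513282) (nat_lit 433535) (nat_lit 54014418) (nat_lit 10293637) [(nat_lit 433535), (nat_lit 1500149), (nat_lit 0), (nat_lit 0)]) (PF.cons (PF.leaf (nat_lit 3817943) (nat_lit 452081) (nat_lit 53459546) (nat_lit 10306734) [(nat_lit 452081), (nat_lit 1534205), (nat_lit 0), (nat_lit 0)]) (PF.cons (PF.leaf (nat_lit 4138339) (nat_lit 469099) (nat_lit 52881005) (nat_lit 10316132) [(nat_lit 469099), (nat_lit 1566180), (nat_lit 0), (nat_lit 0)]) (PF.cons
 (PF.leaf (nat_lit 4472438) (nat_lit 484749) (nat_lit 52282836) (nat_lit 10321462) [(nat_lit 484749), (nat_lit 1596018), (nat_lit 0), (nat_lit 0)]) (PF.cons (PF.leaf (nat_lit 4818437) (nat_lit 499156) (nat_lit 51668529) (nat_lit 10322477) [(nat_lit 499156), (nat_lit 1623712), (nat_lit 0), (nat_lit 0)]) (PF.cons PF.nil (PF.cons PF.nil PF.nil)))))))))) (PF.cons (PF.cons (PF.leaf (nat_lit 3406859) (nat_lit 1495231) (nat_lit 53827061) (nat_lit 10291288) [(nat_lit 0), (nat_lit 1495231), (nat_lit 0), (nat_lit 0)]) (PF.cons (PF.leaf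 (nat_lit 3686383) (nat_lit 441537) (nat_lit 53309455) (nat_lit 10302389) [(nat_lit 441537), (nat_lit 1527715), (nat_lit 0), (nat_lit 0)]) (PF.cons (PF.leaf (nat_lit 3985504) (nat_lit 459501) (nat_lit 52762009) (nat_lit 10310402) [(nat_lit 459501), (nat_lit 1558698), (nat_lit 0), (nat_lit 0)]) (PF.cons (PF.leaf (nat_lit 4300868) (nat_lit 475915) (nat_lit 52190370) (nat_lit 10314832) [(nat_lit 475915), (nat_lit 1587932), (nat_lit 0), (nat_lit 0)]) (PF.cons (PF.leaf (nat_lit 4630182) (nat_lit 490962) (nat_lit 51599044) (nat_lit 10315337) [(nat_lit 490962), (nat_lit 1615291), (nat_lit 0), (nat_lit 0)]) (PF.cons (PF.leaf (nat_lit 4971540) (nat_lit 504777) (nat_lit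
 50991783) (nat_lit 10311695) [(nat_lit 504777), (nat_lit 1640722), (nat_lit 0), (nat_lit 0)]) (PF.cons PF.nil (PF.cons PF.nil (PF.cons PF.nil PF.nil))))))))) (PF.cons (PF.cons (PF.leaf (nat_lit 4154639) (nat_lit 1581083) (nat_lit 52057201) (nat_lit 10308361) [(nat_lit 0), (nat_lit 1581083), (nat_lit 0), (nat_lit 0)]) (PF.cons (PF.leaf (nat_lit 4463345) (nat_lit 481784) (nat_lit 51495716) (nat_lit 10308146) [(nat_lit 481784), (nat_lit 1607721), (nat_lit 0), (nat_lit 0)]) (PF.cons (PF.leaf (nat_lit 4787020) (nat_lit 496344) (nat_lit 50913736) (nat_lit 10304155) [(nat_lit 496344), (nat_lit 1632743), (nat_lit 0), (nat_lit 0)]) (PF.cons (PF.leaf (nat_lit 5123055) (nat_lit 509661) (nat_lit 50315502) (nat_lit 10296186) [(nat_lit 509661), (nat_lit 1656046), (nat_lit 0), (nat_lit 0)]) (PF.cons (PF.leaf (nat_lit 5469598) (nat_lit 521853) (nat_lit 49704497) (nat_lit 10284131) [(nat_lit 521853), (nat_lit 1677589), (nat_lit 0), (nat_lit 0)]) (PF.cons PF.nil (PF.cons PF.nil PF.nil)))))))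 (PF.cons (PF.cons (PF.leaf (nat_lit 4944107) (nat_lit 1648519) (nat_lit 50226633) (nat_lit 10288099) [(nat_lit 0), (nat_lit 1648519), (nat_lit 0), (nat_lit 0)]) (PF.cons (PF.leaf (nat_lit 5273646) (nat_lit
 513815) (nat_lit 49639618) (nat_lit 10276151) [(nat_lit 513815), (nat_lit 1669806), (nat_lit 0), (nat_lit 0)]) (PF.cons (PF.leaf (nat_lit 5614462) (nat_lit 525591) (nat_lit 49039314) (nat_lit 10260293) [(nat_lit 525591), (nat_lit 1689505), (nat_lit 0), (nat_lit 0)]) (PF.cons PF.nil (PF.cons PF.nil PF.nil))))) (PF.cons (PF.cons (PF.leaf (nat_lit 5758742) (nat_lit 1700067) (nat_lit 48376026) (nat_lit 10232448) [(nat_lit 0), (nat_lit 1700067), (nat_lit 0), (nat_lit 0)]) (PF.cons (PF.leaf (nat_lit 6102359) (nat_lit 539072) (nat_lit 47777628) (nat_lit 10209377) [(nat_lit 539072), (nat_lit 1716546), (nat_lit 0), (nat_lit 0)]) (PF.cons PF.nil (PF.cons PF.nil PF.nil)))) (PF.cons (PF.cons (PF.leaf (nat_lit 6585364) (nat_lit 1737922) (nat_lit 46536106) (nat_lit 10145170) [(nat_lit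 0), (nat_lit 1737922), (nat_lit 0), (nat_lit 0)]) (PF.cons PF.nil PF.nil)) (PF.cons PF.nil PF.nil)))))))) (PF.cons (PF.cons (PF.cons (PF.leaf (nat_lit 3311677) (nat_lit 3558919) (nat_lit 53280791) (nat_lit 10269101) [(nat_lit 0), (nat_lit 0), (nat_lit 3558919), (nat_lit 0)]) (PF.cons (PF.leaf (nat_lit 3562123) (nat_lit 419241) (nat_lit 52819618) (nat_lit 10276863) [(nat_lit 419241), (nat_lit 0), (nat_lit 3593088),
 (nat_lit 0)]) (PF.cons (PF.leaf (nat_lit 3836592) (nat_lit 439948) (nat_lit 52319725) (nat_lit 10282262) [(nat_lit 439948), (nat_lit 0), (nat_lit 3626927), (nat_lit 0)]) (PF.cons (PF.leaf (nat_lit 4130469) (nat_lit 458451) (nat_lit 51789207) (nat_lit 10284685) [(nat_lit 458451), (nat_lit 0), (nat_lit 3659565), (nat_lit 0)]) (PF.cons (PF.leaf (nat_lit 4440760) (nat_lit 475148) (nat_lit 51234079) (nat_lit 10283699) [(nat_lit 475148), (nat_lit 0), (nat_lit 3690438), (nat_lit 0)]) (PF.cons (PF.leaf (nat_lit 4765020) (nat_lit 490306) (nat_lit 50659088) (nat_lit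 10279009) [(nat_lit 490306), (nat_lit 0), (nat_lit 3719181), (nat_lit 0)]) (PF.cons (PF.leaf (nat_lit 5101282) (nat_lit 504115) (nat_lit 50068133) (nat_lit 10270426) [(nat_lit 504115), (nat_lit 0), (nat_lit 3745562), (nat_lit 0)]) (PF.cons PF.nil (PF.cons PF.nil PF.nil))))))))) (PF.cons (PF.cons (PF.leaf (nat_lit 4010173) (nat_lit 1558712) (nat_lit 51613766) (nat_lit 10277957) [(nat_lit 0), (nat_lit 1558712), (nat_lit 3658375), (nat_lit 0)]) (PF.cons (PF.leaf (nat_lit 4295920) (nat_lit 464097) (nat_lit 51095821) (nat_lit 10276177) [(nat_lit 464097), (nat_lit 1585784), (nat_lit 3686931), (nat_lit 0)]) (PF.cons (PF.leaf (nat_lit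
 4599654) (nat_lit 480403) (nat_lit 50551491) (nat_lit 10271076) [(nat_lit 480403), (nat_lit 1611381), (nat_lit 3714056), (nat_lit 0)]) (PF.cons (PF.leaf (nat_lit 4918055) (nat_lit 495122) (nat_lit 49986404) (nat_lit 10262388) [(nat_lit 495122), (nat_lit 1635326), (nat_lit 3739325), (nat_lit 0)]) (PF.cons (PF.leaf (nat_lit 5248834) (nat_lit 508474) (nat_lit 49404955) (nat_lit 10249947) [(nat_lit 508474), (nat_lit 1657540), (nat_lit 3762472), (nat_lit 0)]) (PF.cons (PF.leaf (nat_lit 5590106) (nat_lit 520617) (nat_lit 48810720) (nat_lit 10233672) [(nat_lit 520617), (nat_lit 1678000), (nat_lit 3783333), (nat_lit 0)]) (PF.cons PF.nil PF.nil))))))) (PF.cons (PF.cons (PF.leaf (nat_lit 4760173) (nat_lit 1627846) (nat_lit 49864837) (nat_lit 10253616) [(nat_lit 0), (nat_lit 1627846), (nat_lit 3734665), (nat_lit 0)]) (PF.cons (PF.leaf (nat_lit 5071163) (nat_lit 499117) (nat_lit 49312455) (nat_lit 10241280) [(nat_lit 499117), (nat_lit 1649658), (nat_lit 3756644), (nat_lit 0)])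 (PF.cons (PF.leaf (nat_lit 5395655) (nat_lit 512120) (nat_lit 48742612) (nat_lit 10225316) [(nat_lit 512120), (nat_lit 1669950), (nat_lit 3776743), (nat_lit 0)]) (PF.cons (PF.leaf (nat_lit 5731082) (nat_lit 523887)
 (nat_lit 48159393) (nat_lit 10205665) [(nat_lit 523887), (nat_lit 1688659), (nat_lit 3794770), (nat_lit 0)]) (PF.cons (PF.leaf (nat_lit 6075694) (nat_lit 534559) (nat_lit 47566089) (nat_lit 10182326) [(nat_lit 534559), (nat_lit 1705771), (nat_lit 3810618), (nat_lit 0)]) PF.nil))))) (PF.cons (PF.cons (PF.leaf (nat_lit 5542887) (nat_lit 1680996) (nat_lit 48080609) (nat_lit 10196676) [(nat_lit 0), (nat_lit 1680996), (nat_lit 3788538), (nat_lit 0)]) (PF.cons (PF.leaf (nat_lit 5871388) (nat_lit 526526) (nat_lit 47510258) (nat_lit 10173986) [(nat_lit 526526), (nat_lit 1698046), (nat_lit 3803901), (nat_lit 0)]) (PF.cons (PF.leaf (nat_lit 6209880) (nat_lit 536888) (nat_lit 46929087) (nat_lit 10147749) [(nat_lit 536888), (nat_lit 1713641), (nat_lit 3817273), (nat_lit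 0)]) (PF.cons PF.nil PF.nil)))) (PF.cons (PF.cons (PF.leaf (nat_lit 6343731) (nat_lit 1720406) (nat_lit 46295319) (nat_lit 10109953) [(nat_lit 0), (nat_lit 1720406), (nat_lit 3821914), (nat_lit 0)]) (PF.cons (PF.leaf (nat_lit 6683620) (nat_lit 547758) (nat_lit 45719290) (nat_lit 10077790) [(nat_lit 547758), (nat_lit 1733223), (nat_lit 3831078), (nat_lit 0)]) PF.nil)) (PF.cons PF.nil PF.nil)))))) (PF.cons (PF.cons (PF.cons
 (PF.leaf (nat_lit 4598418) (nat_lit 3714557) (nat_lit 49462086) (nat_lit 10217611) [(nat_lit 0), (nat_lit 0), (nat_lit 3714557), (nat_lit 0)]) (PF.cons (PF.leaf (nat_lit 4887617) (nat_lit 481608) (nat_lit 48951175) (nat_lit 10205039) [(nat_lit 481608), (nat_lit 0), (nat_lit 3735495), (nat_lit 0)]) (PF.cons (PF.leaf (nat_lit 5193418) (nat_lit 496426) (nat_lit 48416906) (nat_lit 10189083) [(nat_lit 496426), (nat_lit 0), (nat_lit 3754984), (nat_lit 0)]) (PF.cons (PF.leaf (nat_lit 5512492) (nat_lit 509645) (nat_lit 47864788) (nat_lit 10169656) [(nat_lit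 509645), (nat_lit 0), (nat_lit 3772715), (nat_lit 0)]) (PF.cons (PF.leaf (nat_lit 5842583) (nat_lit 521510) (nat_lit 47299040) (nat_lit 10146729) [(nat_lit 521510), (nat_lit 0), (nat_lit 3788499), (nat_lit 0)]) (PF.cons (PF.leaf (nat_lit 6181858) (nat_lit 532196) (nat_lit 46723039) (nat_lit 10120322) [(nat_lit 532196), (nat_lit 0), (nat_lit 3802233), (nat_lit 0)]) (PF.cons PF.nil PF.nil))))))) (PF.cons (PF.cons (PF.leaf (nat_lit 5344971) (nat_lit 1660557) (nat_lit 47754643) (nat_lit 10159429) [(nat_lit 0), (nat_lit 1660557), (nat_lit 3767091), (nat_lit 0)]) (PF.cons (PF.leaf (nat_lit 5656132) (nat_lit 512102) (nat_lit 47216848)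
 (nat_lit 10137250) [(nat_lit 512102), (nat_lit 1678296), (nat_lit 3782157), (nat_lit 0)]) (PF.cons (PF.leaf (nat_lit 5979502) (nat_lit 523732) (nat_lit 46664124) (nat_lit 10111660) [(nat_lit 523732), (nat_lit 1694609), (nat_lit 3795476), (nat_lit 0)]) (PF.cons (PF.leaf (nat_lit 6312635) (nat_lit 534147) (nat_lit 46100360) (nat_lit 10082704) [(nat_lit 534147), (nat_lit 1709465), (nat_lit 3806920), (nat_lit 0)]) (PF.cons PF.nil PF.nil))))) (PF.cons (PF.cons (PF.leaf (nat_lit 6117028) (nat_lit 1701822) (nat_lit 46030976) (nat_lit 10073323) [(nat_lit 0), (nat_lit 1701822), (nat_lit 3800433), (nat_lit 0)]) (PF.cons (PF.leaf (nat_lit 6442942) (nat_lit 535544) (nat_lit 45481031) (nat_lit 10042135) [(nat_lit 535544), (nat_lit 1715315), (nat_lit 3809735), (nat_lit 0)]) (PF.cons (PF.leaf (nat_lit 6777772) (nat_lit 544676) (nat_lit 44922245) (nat_lit 10007761) [(nat_lit 544676), (nat_lit 1727474), (nat_lit 3817251), (nat_lit 0)]) (PF.cons PF.nil PF.nil)))) (PF.cons (PF.cons (PF.leaf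 (nat_lit 6901673) (nat_lit 1731172) (nat_lit 44319904) (nat_lit 9962501) [(nat_lit 0), (nat_lit 1731172), (nat_lit 3816445), (nat_lit 0)]) (PF.cons PF.nil PF.nil)) (PF.cons PF.nil PF.nil))))) (PF.cons (PF.cons
 (PF.cons (PF.leaf (nat_lit 5907739) (nat_lit 3778611) (nat_lit 45738081) (nat_lit 10034898) [(nat_lit 0), (nat_lit 0), (nat_lit 3778611), (nat_lit 0)]) (PF.cons (PF.leaf (nat_lit 6217432) (nat_lit 521494) (nat_lit 45218508) (nat_lit 10004877) [(nat_lit 521494), (nat_lit 0), (nat_lit 3787977), (nat_lit 0)]) (PF.cons (PF.leaf (nat_lit 6538265) (nat_lit 531914) (nat_lit 44686110) (nat_lit 9971688) [(nat_lit 531914), (nat_lit 0), (nat_lit 3795728), (nat_lit 0)]) (PF.cons (PF.leaf (nat_lit 6867826) (nat_lit 541144) (nat_lit 44144563) (nat_lit 9935457) [(nat_lit 541144), (nat_lit 0), (nat_lit 3801785), (nat_lit 0)]) (PF.cons PF.nil PF.nil))))) (PF.cons (PF.cons (PF.leaf (nat_lit 6666403) (nat_lit 1713238) (nat_lit 44083785) (nat_lit 9926043) [(nat_lit 0), (nat_lit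 1713238), (nat_lit 3795248), (nat_lit 0)]) (PF.cons (PF.leaf (nat_lit 6988608) (nat_lit 541527) (nat_lit 43556495) (nat_lit 9888259) [(nat_lit 541527), (nat_lit 1723741), (nat_lit 3799596), (nat_lit 0)]) (PF.cons PF.nil (PF.cons PF.nil PF.nil)))) (PF.cons (PF.cons (PF.leaf (nat_lit 7433335) (nat_lit 1734249) (nat_lit 42451657) (nat_lit 9796921) [(nat_lit 0), (nat_lit 1734249), (nat_lit 3797245), (nat_lit 0)]) (PF.cons PF.nil
 PF.nil)) PF.nil))) (PF.cons (PF.cons (PF.cons (PF.leaf (nat_lit 7191459) (nat_lit 3776631) (nat_lit 42240955) (nat_lit 9761331) [(nat_lit 0), (nat_lit 0), (nat_lit 3776631), (nat_lit 0)]) (PF.cons (PF.leaf (nat_lit 7509128) (nat_lit 545018) (nat_lit 41737476) (nat_lit 9718538) [(nat_lit 545018), (nat_lit 0), (nat_lit 3776944), (nat_lit 0)]) (PF.cons PF.nil PF.nil))) (PF.cons (PF.cons (PF.leaf (nat_lit 7939813) (nat_lit 1731170) (nat_lit 40689501) (nat_lit 9618673) [(nat_lit 0), (nat_lit 1731170), (nat_lit 3767366), (nat_lit 0)]) PF.nil) PF.nil))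 (PF.cons PF.nil (PF.cons PF.nil (PF.cons PF.nil PF.nil)))))))) (PF.cons (PF.cons (PF.cons (PF.cons (PF.leaf (nat_lit 4273829) (nat_lit 9190343) (nat_lit 47906610) (nat_lit 10011858) [(nat_lit 0), (nat_lit 0), (nat_lit 0), (nat_lit 9190343)]) (PF.cons (PF.leaf (nat_lit 4521587) (nat_lit 433346) (nat_lit 47489869) (nat_lit 10000949) [(nat_lit 433346), (nat_lit 0), (nat_lit 0), (nat_lit 9184647)]) (PF.cons (PF.leaf (nat_lit 4791406) (nat_lit 452431) (nat_lit 47040471) (nat_lit 9987081) [(nat_lit 452431), (nat_lit 0), (nat_lit 0), (nat_lit 9176396)]) (PF.cons (PF.leaf (nat_lit 5078559) (nat_lit 469118) (nat_lit 46565929) (nat_lit 9970140)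
 [(nat_lit 469118), (nat_lit 0), (nat_lit 0), (nat_lit 9165387)]) (PF.cons (PF.leaf (nat_lit 5380030) (nat_lit 483878) (nat_lit 46071742) (nat_lit 9950060) [(nat_lit 483878), (nat_lit 0), (nat_lit 0), (nat_lit 9151494)]) (PF.cons (PF.leaf (nat_lit 5693460) (nat_lit 497034) (nat_lit 45562170) (nat_lit 9926818) [(nat_lit 497034), (nat_lit 0), (nat_lit 0), (nat_lit 9134650)]) (PF.cons (PF.leaf (nat_lit 6016932) (nat_lit 508817) (nat_lit 45040643) (nat_lit 9900429) [(nat_lit 508817), (nat_lit 0), (nat_lit 0), (nat_lit 9114834)]) (PF.cons (PF.leaf (nat_lit 6348833) (nat_lit 519400) (nat_lit 44509995) (nat_lit 9870945) [(nat_lit 519400), (nat_lit 0), (nat_lit 0), (nat_lit 9092068)]) (PF.cons PF.nil (PF.cons PF.nil PF.nil)))))))))) (PF.cons (PF.cons (PF.leaf (nat_lit 4947822) (nat_lit 1579317) (nat_lit 46415920) (nat_lit 9958373) [(nat_lit 0), (nat_lit 1579317), (nat_lit 0), (nat_lit 9155201)]) (PF.cons (PF.leaf (nat_lit 5226031) (nat_lit 472326) (nat_lit 45955115) (nat_lit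 9939123) [(nat_lit 472326), (nat_lit 1600502), (nat_lit 0), (nat_lit 9141744)]) (PF.cons (PF.leaf (nat_lit 5520279) (nat_lit 486825) (nat_lit 45472854) (nat_lit 9916737) [(nat_lit 486825), (nat_lit 1620134), (nat_lit
 0), (nat_lit 9125436)]) (PF.cons (PF.leaf (nat_lit 5827287) (nat_lit 499671) (nat_lit 44974182) (nat_lit 9891237) [(nat_lit 499671), (nat_lit 1638137), (nat_lit 0), (nat_lit 9106242)]) (PF.cons (PF.leaf (nat_lit 6144897) (nat_lit 511124) (nat_lit 44462967) (nat_lit 9862669) [(nat_lit 511124), (nat_lit 1654507), (nat_lit 0), (nat_lit 9084169)]) (PF.cons (PF.leaf (nat_lit 6471281) (nat_lit 521374) (nat_lit 43942303) (nat_lit 9831104) [(nat_lit 521374), (nat_lit 1669278), (nat_lit 0), (nat_lit 9059252)]) (PF.cons (PF.leaf (nat_lit 6804964) (nat_lit 530566) (nat_lit 43414727) (nat_lit 9796630) [(nat_lit 530566), (nat_lit 1682503), (nat_lit 0), (nat_lit 9031554)]) (PF.cons PF.nil (PF.cons PF.nil PF.nil))))))))) (PF.cons (PF.cons (PF.leaf (nat_lit 5662278) (nat_lit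 1629888) (nat_lit 44872621) (nat_lit 9880181) [(nat_lit 0), (nat_lit 1629888), (nat_lit 0), (nat_lit 9096233)]) (PF.cons (PF.leaf (nat_lit 5961507) (nat_lit 501619) (nat_lit 44387010) (nat_lit 9852744) [(nat_lit 501619), (nat_lit 1646226), (nat_lit 0), (nat_lit 9074986)]) (PF.cons (PF.leaf (nat_lit 6272516) (nat_lit 512847) (nat_lit 43887680) (nat_lit 9822280) [(nat_lit 512847), (nat_lit 1661118), (nat_lit 0), (nat_lit
 9050919)]) (PF.cons (PF.leaf (nat_lit 6592887) (nat_lit 522844) (nat_lit 43378175) (nat_lit 9788890) [(nat_lit 522844), (nat_lit 1674561), (nat_lit 0), (nat_lit 9024092)]) (PF.cons (PF.leaf (nat_lit 6920948) (nat_lit 531769) (nat_lit 42861303) (nat_lit 9752683) [(nat_lit 531769), (nat_lit 1686581), (nat_lit 0), (nat_lit 8994583)]) (PF.cons PF.nil (PF.cons PF.nil PF.nil))))))) (PF.cons (PF.cons (PF.leaf (nat_lit 6400909) (nat_lit 1666730) (nat_lit 43314146) (nat_lit 9779321) [(nat_lit 0), (nat_lit 1666730), (nat_lit 0), (nat_lit 9015153)]) (PF.cons (PF.leaf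 (nat_lit 6714254) (nat_lit 523800) (nat_lit 42817190) (nat_lit 9744381) [(nat_lit 523800), (nat_lit 1678922), (nat_lit 0), (nat_lit 8986672)]) (PF.cons (PF.leaf (nat_lit 7036228) (nat_lit 532529) (nat_lit 42312047) (nat_lit 9706685) [(nat_lit 532529), (nat_lit 1689813), (nat_lit 0), (nat_lit 8955581)]) (PF.cons (PF.leaf (nat_lit 7364909) (nat_lit 540296) (nat_lit 41801279) (nat_lit 9666371) [(nat_lit 540296), (nat_lit 1699427), (nat_lit 0), (nat_lit 8921991)]) (PF.cons PF.nil PF.nil))))) (PF.cons (PF.cons (PF.leaf (nat_lit 7151654) (nat_lit 1692252) (nat_lit 41766490) (nat_lit 9658697) [(nat_lit 0), (nat_lit 1692252), (nat_lit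
 0), (nat_lit 8914616)]) (PF.cons (PF.leaf (nat_lit 7473895) (nat_lit 540449) (nat_lit 41267803) (nat_lit 9617206) [(nat_lit 540449), (nat_lit 1700901), (nat_lit 0), (nat_lit 8879749)]) (PF.cons PF.nil (PF.cons PF.nil PF.nil)))) (PF.cons (PF.cons (PF.leaf (nat_lit 7905398) (nat_lit 1708361) (nat_lit 40247829) (nat_lit 9521534) [(nat_lit 0), (nat_lit 1708361), (nat_lit 0), (nat_lit 8797639)]) (PF.cons PF.nil PF.nil)) (PF.cons PF.nil (PF.cons PF.nil PF.nil)))))))) (PF.cons (PF.cons (PF.cons (PF.leaf (nat_lit 5485631) (nat_lit 3671420) (nat_lit 44539812) (nat_lit 9839046) [(nat_lit 0), (nat_lit 0), (nat_lit 3671420), (nat_lit 9058532)]) (PF.cons (PF.leaf (nat_lit 5764950) (nat_lit 483969) (nat_lit 44090390) (nat_lit 9813066) [(nat_lit 483969), (nat_lit 0), (nat_lit 3683017), (nat_lit 9038368)]) (PF.cons (PF.leaf (nat_lit 6059140) (nat_lit 497159) (nat_lit 43621877) (nat_lit 9784004) [(nat_lit 497159), (nat_lit 0), (nat_lit 3693220), (nat_lit 9015392)]) (PF.cons (PF.leaf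 (nat_lit 6364997) (nat_lit 508722) (nat_lit 43139119) (nat_lit 9751991) [(nat_lit 508722), (nat_lit 0), (nat_lit 3701858), (nat_lit 8989676)]) (PF.cons (PF.leaf (nat_lit 6680363) (nat_lit 518933) (nat_lit 42645780)
 (nat_lit 9717150) [(nat_lit 518933), (nat_lit 0), (nat_lit 3708844), (nat_lit 8961303)]) (PF.cons (PF.leaf (nat_lit 7003526) (nat_lit 527990) (nat_lit 42144748) (nat_lit 9679606) [(nat_lit 527990), (nat_lit 0), (nat_lit 3714143), (nat_lit 8930364)]) (PF.cons PF.nil PF.nil))))))) (PF.cons (PF.cons (PF.leaf (nat_lit 6192905) (nat_lit 1646095) (nat_lit 43047714) (nat_lit 9740525) [(nat_lit 0), (nat_lit 1646095), (nat_lit 3695282), (nat_lit 8979195)]) (PF.cons (PF.leaf (nat_lit 6490728) (nat_lit 509531) (nat_lit 42578721) (nat_lit 9707181) [(nat_lit 509531), (nat_lit 1659285), (nat_lit 3702072), (nat_lit 8952020)]) (PF.cons (PF.leaf (nat_lit 6799326) (nat_lit 519614) (nat_lit 42097850) (nat_lit 9671018) [(nat_lit 519614), (nat_lit 1671141), (nat_lit 3707357),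 (nat_lit 8922214)]) (PF.cons (PF.leaf (nat_lit 7116355) (nat_lit 528504) (nat_lit 41608443) (nat_lit 9632195) [(nat_lit 528504), (nat_lit 1681676), (nat_lit 3711086), (nat_lit 8889898)]) (PF.cons (PF.leaf (nat_lit 7440212) (nat_lit 536366) (nat_lit 41113112) (nat_lit 9590863) [(nat_lit 536366), (nat_lit 1690929), (nat_lit 3713248), (nat_lit 8855192)]) PF.nil))))) (PF.cons (PF.cons (PF.leaf (nat_lit 6919267) (nat_lit 1674058)
 (nat_lit 41552351) (nat_lit 9622797) [(nat_lit 0), (nat_lit 1674058), (nat_lit 3704470), (nat_lit 8881076)]) (PF.cons (PF.leaf (nat_lit 7229184) (nat_lit 528565) (nat_lit 41075777) (nat_lit 9582950) [(nat_lit 528565), (nat_lit 1683574), (nat_lit 3706748), (nat_lit 8847620)]) (PF.cons (PF.leaf (nat_lit 7546890) (nat_lit 536304) (nat_lit 40592378) (nat_lit 9540624) [(nat_lit 536304), (nat_lit 1691906), (nat_lit 3707570), (nat_lit 8811817)]) (PF.cons PF.nil PF.nil)))) (PF.cons (PF.cons (PF.leaf (nat_lit 7653955) (nat_lit 1692234) (nat_lit 40075641)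 (nat_lit 9488809) [(nat_lit 0), (nat_lit 1692234), (nat_lit 3700781), (nat_lit 8766878)]) (PF.cons (PF.leaf (nat_lit 7971203) (nat_lit 542569) (nat_lit 39599869) (nat_lit 9443442) [(nat_lit 542569), (nat_lit 1698630), (nat_lit 3699015), (nat_lit 8728026)]) PF.nil)) (PF.cons PF.nil (PF.cons PF.nil PF.nil)))))) (PF.cons (PF.cons (PF.cons (PF.leaf (nat_lit 6703419) (nat_lit 3682491) (nat_lit 41313441) (nat_lit 9584715) [(nat_lit 0), (nat_lit 0), (nat_lit 3682491), (nat_lit 8845671)]) (PF.cons (PF.leaf (nat_lit 6998788) (nat_lit 514846) (nat_lit 40862738) (nat_lit 9546778) [(nat_lit 514846), (nat_lit 0), (nat_lit 3685304), (nat_lit 8813841)])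
 (PF.cons (PF.leaf (nat_lit 7304093) (nat_lit 523924) (nat_lit 40401689) (nat_lit 9506233) [(nat_lit 523924), (nat_lit 0), (nat_lit 3686733), (nat_lit 8779574)]) (PF.cons (PF.leaf (nat_lit 7617026) (nat_lit 531847) (nat_lit 39933432) (nat_lit 9463281) [(nat_lit 531847), (nat_lit 0), (nat_lit 3686760), (nat_lit 8743035)]) (PF.cons PF.nil PF.nil))))) (PF.cons (PF.cons (PF.leaf (nat_lit 7416019) (nat_lit 1674973) (nat_lit 39884475) (nat_lit 9454228) [(nat_lit 0), (nat_lit 1674973), (nat_lit 3680317), (nat_lit 8734502)]) (PF.cons (PF.leaf (nat_lit 7721823) (nat_lit 531181) (nat_lit 39429048) (nat_lit 9410686) [(nat_lit 531181), (nat_lit 1682244), (nat_lit 3679201), (nat_lit 8697248)]) (PF.cons (PF.leaf (nat_lit 8034714) (nat_lit 538059) (nat_lit 38967890) (nat_lit 9364921) [(nat_lit 538059), (nat_lit 1688434), (nat_lit 3676780), (nat_lit 8657887)]) (PF.cons PF.nil PF.nil)))) (PF.cons (PF.cons (PF.leaf (nat_lit 8133971) (nat_lit 1687066) (nat_lit 38479487) (nat_lit 9310500)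 [(nat_lit 0), (nat_lit 1687066), (nat_lit 3667263), (nat_lit 8610164)]) (PF.cons PF.nil PF.nil)) (PF.cons PF.nil (PF.cons PF.nil PF.nil))))) (PF.cons (PF.cons (PF.cons (PF.leaf (nat_lit 7891903) (nat_lit 3647757)
 (nat_lit 38308803) (nat_lit 9277512) [(nat_lit 0), (nat_lit 0), (nat_lit 3647757), (nat_lit 8579224)]) (PF.cons (PF.leaf (nat_lit 8193096) (nat_lit 532035) (nat_lit 37874691) (nat_lit 9231278) [(nat_lit 532035), (nat_lit 0), (nat_lit 3643886), (nat_lit 8539146)]) (PF.cons PF.nil (PF.cons PF.nil PF.nil)))) (PF.cons (PF.cons (PF.leaf (nat_lit 8592800) (nat_lit 1677795) (nat_lit 36974755) (nat_lit 9126998) [(nat_lit 0), (nat_lit 1677795), (nat_lit 3627213), (nat_lit 8447622)]) (PF.cons PF.nil PF.nil)) (PF.cons PF.nil PF.nil))) (PF.cons (PF.cons (PF.cons (PF.leaf (nat_lit 9031622) (nat_lit 3582222) (nat_lit 35557340) (nat_lit 8940844) [(nat_lit 0), (nat_lit 0), (nat_lit 3582222), (nat_lit 8281738)]) (PF.cons PF.nil PF.nil)) (PF.cons PF.nil PF.nil)) (PF.cons PF.nil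 PF.nil)))))) (PF.cons (PF.cons (PF.cons (PF.cons (PF.leaf (nat_lit 6264735) (nat_lit 8676797) (nat_lit 40350849) (nat_lit 9404368) [(nat_lit 0), (nat_lit 0), (nat_lit 0), (nat_lit 8676797)]) (PF.cons (PF.leaf (nat_lit 6533362) (nat_lit 479431) (nat_lit 39958208) (nat_lit 9371736) [(nat_lit 479431), (nat_lit 0), (nat_lit 0), (nat_lit 8649718)]) (PF.cons (PF.leaf (nat_lit 6815538) (nat_lit 491321) (nat_lit 39549660) (nat_lit
 9336324) [(nat_lit 491321), (nat_lit 0), (nat_lit 0), (nat_lit 8620092)]) (PF.cons (PF.leaf (nat_lit 7108167) (nat_lit 501597) (nat_lit 39129421) (nat_lit 9298375) [(nat_lit 501597), (nat_lit 0), (nat_lit 0), (nat_lit 8588111)]) (PF.cons (PF.leaf (nat_lit 7409184) (nat_lit 510552) (nat_lit 38700646) (nat_lit 9258091) [(nat_lit 510552), (nat_lit 0), (nat_lit 0), (nat_lit 8553932)]) (PF.cons (PF.leaf (nat_lit 7716996) (nat_lit 518392) (nat_lit 38265797) (nat_lit 9215648) [(nat_lit 518392), (nat_lit 0), (nat_lit 0), (nat_lit 8517702)]) (PF.cons PF.nil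 PF.nil))))))) (PF.cons (PF.cons (PF.leaf (nat_lit 6934751) (nat_lit 1613286) (nat_lit 39053635) (nat_lit 9286883) [(nat_lit 0), (nat_lit 1613286), (nat_lit 0), (nat_lit 8577504)]) (PF.cons (PF.leaf (nat_lit 7219435) (nat_lit 501326) (nat_lit 38645929) (nat_lit 9248450) [(nat_lit 501326), (nat_lit 1623320), (nat_lit 0), (nat_lit 8544893)]) (PF.cons (PF.leaf (nat_lit 7513827) (nat_lit 510232) (nat_lit 38228463) (nat_lit 9207641) [(nat_lit 510232), (nat_lit 1632116), (nat_lit 0), (nat_lit 8510063)]) (PF.cons (PF.leaf (nat_lit 7815684) (nat_lit 517981) (nat_lit 37804099) (nat_lit 9164670) [(nat_lit 517981), (nat_lit 1639715), (nat_lit 0),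
 (nat_lit 8473191)]) (PF.cons (PF.leaf (nat_lit 8123512) (nat_lit 524748) (nat_lit 37375056) (nat_lit 9119720) [(nat_lit 524748), (nat_lit 1646173), (nat_lit 0), (nat_lit 8434433)]) PF.nil))))) (PF.cons (PF.cons (PF.leaf (nat_lit 7619763) (nat_lit 1632328) (nat_lit 37758672) (nat_lit 9155816) [(nat_lit 0), (nat_lit 1632328), (nat_lit 0), (nat_lit 8464833)]) (PF.cons (PF.leaf (nat_lit 7914731) (nat_lit 517190) (nat_lit 37345757) (nat_lit 9112526) [(nat_lit 517190), (nat_lit 1639154), (nat_lit 0), (nat_lit 8427514)]) (PF.cons (PF.leaf (nat_lit 8216656) (nat_lit 523903) (nat_lit 36927305) (nat_lit 9067244) [(nat_lit 523903), (nat_lit 1644919), (nat_lit 0), (nat_lit 8388308)]) (PF.cons PF.nil PF.nil)))) (PF.cons (PF.cons (PF.leaf (nat_lit 8310572) (nat_lit 1643188) (nat_lit 36483093) (nat_lit 9013777) [(nat_lit 0), (nat_lit 1643188), (nat_lit 0), (nat_lit 8341187)]) (PF.cons (PF.leaf (nat_lit 8611628) (nat_lit 528529) (nat_lit 36071703) (nat_lit 8966536) [(nat_lit 528529),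 (nat_lit 1647359), (nat_lit 0), (nat_lit 8299982)]) PF.nil)) (PF.cons PF.nil PF.nil))))) (PF.cons (PF.cons (PF.cons (PF.leaf (nat_lit 7401886) (nat_lit 3562790) (nat_lit 37562997) (nat_lit 9120090) [(nat_lit 0),
 (nat_lit 0), (nat_lit 3562790), (nat_lit 8431467)]) (PF.cons (PF.leaf (nat_lit 7683687) (nat_lit 504012) (nat_lit 37172033) (nat_lit 9079011) [(nat_lit 504012), (nat_lit 0), (nat_lit 3561575), (nat_lit 8396090)]) (PF.cons (PF.leaf (nat_lit 7974514) (nat_lit 512069) (nat_lit 36772461) (nat_lit 9035732) [(nat_lit 512069), (nat_lit 0), (nat_lit 3559162), (nat_lit 8358658)]) (PF.cons (PF.leaf (nat_lit 8272160) (nat_lit 519015) (nat_lit 36366966) (nat_lit 8990491) [(nat_lit 519015), (nat_lit 0), (nat_lit 3555564), (nat_lit 8319372)]) (PF.cons PF.nil PF.nil))))) (PF.cons (PF.cons (PF.leaf (nat_lit 8073590) (nat_lit 1626930) (nat_lit 36327379) (nat_lit 8982142) [(nat_lit 0), (nat_lit 1626930), (nat_lit 3549433), (nat_lit 8311463)]) (PF.cons (PF.leaf (nat_lit 8364398)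 (nat_lit 517692) (nat_lit 35933143) (nat_lit 8936864) [(nat_lit 517692), (nat_lit 1632027), (nat_lit 3545066), (nat_lit 8272009)]) (PF.cons (PF.leaf (nat_lit 8661599) (nat_lit 523695) (nat_lit 35534165) (nat_lit 8889789) [(nat_lit 523695), (nat_lit 1636156), (nat_lit 3539606), (nat_lit 8230851)]) (PF.cons PF.nil PF.nil)))) (PF.cons (PF.cons (PF.leaf (nat_lit 8748954) (nat_lit 1633240) (nat_lit 35114221) (nat_lit 8835315)
 [(nat_lit 0), (nat_lit 1633240), (nat_lit 3527766), (nat_lit 8182514)]) (PF.cons PF.nil PF.nil)) PF.nil))) (PF.cons (PF.cons (PF.cons (PF.leaf (nat_lit 8509478) (nat_lit 3509734) (nat_lit 34974929) (nat_lit 8805498) [(nat_lit 0), (nat_lit 0), (nat_lit 3509734), (nat_lit 8154458)]) (PF.cons (PF.leaf (nat_lit 8795812) (nat_lit 516917) (nat_lit 34599129) (nat_lit 8758878) [(nat_lit 516917), (nat_lit 0), (nat_lit 3503441), (nat_lit 8113501)]) (PF.cons PF.nil PF.nil))) (PF.cons (PF.cons (PF.leaf (nat_lit 9169342) (nat_lit 1620501) (nat_lit 33822500) (nat_lit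 8655752) [(nat_lit 0), (nat_lit 1620501), (nat_lit 3482989), (nat_lit 8022040)]) PF.nil) PF.nil)) (PF.cons PF.nil (PF.cons PF.nil PF.nil))))) (PF.cons (PF.cons (PF.cons (PF.cons (PF.leaf (nat_lit 8024359) (nat_lit 8024186) (nat_lit 34369292) (nat_lit 8666961) [(nat_lit 0), (nat_lit 0), (nat_lit 0), (nat_lit 8024186)]) (PF.cons (PF.leaf (nat_lit 8293554) (nat_lit 491033) (nat_lit 34028952) (nat_lit 8625350) [(nat_lit 491033), (nat_lit 0), (nat_lit 0), (nat_lit 7987825)]) (PF.cons (PF.leaf (nat_lit 8571084) (nat_lit 498291) (nat_lit 33681286) (nat_lit 8581849) [(nat_lit 498291), (nat_lit 0), (nat_lit 0), (nat_lit 7949697)]) (PF.cons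
 (PF.leaf (nat_lit 8854815) (nat_lit 504483) (nat_lit 33328600) (nat_lit 8536706) [(nat_lit 504483), (nat_lit 0), (nat_lit 0), (nat_lit 7910018)]) (PF.cons PF.nil PF.nil))))) (PF.cons (PF.cons (PF.leaf (nat_lit 8659854) (nat_lit 1574711) (nat_lit 33296402) (nat_lit 8529163) [(nat_lit 0), (nat_lit 1574711), (nat_lit 0), (nat_lit 7902845)]) (PF.cons (PF.leaf (nat_lit 8937038) (nat_lit 502751) (nat_lit 32953504) (nat_lit 8484298) [(nat_lit 502751), (nat_lit 1578313), (nat_lit 0), (nat_lit 7863314)]) (PF.cons PF.nil (PF.cons PF.nil PF.nil)))) (PF.cons (PF.cons (PF.leaf (nat_lit 9298006) (nat_lit 1577218) (nat_lit 32243336) (nat_lit 8385257) [(nat_lit 0), (nat_lit 1577218), (nat_lit 0), (nat_lit 7775260)]) (PF.cons PF.nil PF.nil)) PF.nil))) (PF.cons (PF.cons (PF.cons (PF.leaf (nat_lit 9062722) (nat_lit 3371087) (nat_lit 32128696) (nat_lit 8358625) [(nat_lit 0), (nat_lit 0), (nat_lit 3371087), (nat_lit 7750134)]) (PF.cons (PF.leaf (nat_lit 9335654) (nat_lit 500971) (nat_lit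 31801519) (nat_lit 8313212) [(nat_lit 500971), (nat_lit 0), (nat_lit 3363439), (nat_lit 7709889)]) PF.nil)) (PF.cons PF.nil PF.nil)) (PF.cons PF.nil PF.nil))) (PF.cons (PF.cons (PF.cons (PF.cons (PF.leaf (nat_lit
 9564968) (nat_lit 7371684) (nat_lit 29680076) (nat_lit 7941999) [(nat_lit 0), (nat_lit 0), (nat_lit 0), (nat_lit 7371684)]) (PF.cons PF.nil PF.nil)) (PF.cons PF.nil PF.nil)) (PF.cons PF.nil PF.nil)) (PF.cons PF.nil (PF.cons PF.nil (PF.cons PF.nil PF.nil))))))))

def p15_24_1_0 : pfC (piC [(nat_lit 37722612), (nat_lit 24889148), (nat_lit 18515096), (nat_lit 12482732)] (nat_lit 10526835)) p15_24_1 (nat_lit 4) (nat_lit 0) (nat_lit 1) = true := by decide +kernel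
def p15_24_1_1 : pfC (piC [(nat_lit 37722612), (nat_lit 24889148), (nat_lit 18515096), (nat_lit 12482732)] (nat_lit 10526835)) p15_24_1 (nat_lit 4) (nat_lit 1) (nat_lit 2) = true := by decide +kernel
def p15_24_1_2 : pfC (piC [(nat_lit 37722612), (nat_lit 24889148), (nat_lit 18515096), (nat_lit 12482732)] (nat_lit 10526835)) p15_24_1 (nat_lit 4) (nat_lit 2) (nat_lit 3) = true := by decide +kernel
def p15_24_1_3 : pfC (piC [(nat_lit 37722612), (nat_lit 24889148), (nat_lit 18515096), (nat_lit 12482732)] (nat_lit 10526835)) p15_24_1 (nat_lit 4) (nat_lit 3) (nat_lit 4) = true := by decide +kernel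
def p15_24_1_4 : pfC (piC [(nat_lit 37722612), (nat_lit 24889148), (nat_lit 18515096), (nat_lit 12482732)] (nat_lit 10526835)) p15_24_1 (nat_lit 4) (nat_lit 4) (nat_lit 5) = true := by decide +kernel
def p15_24_1_5 : pfC (piC [(nat_lit 37722612), (nat_lit 24889148), (nat_lit 18515096), (nat_lit 12482732)] (nat_lit 10526835)) p15_24_1 (nat_lit 4) (nat_lit 5) (nat_lit 6) = true := by decide +kernel
def p15_24_1_6 : pfC (piC [(nat_lit 37722612), (nat_lit 24889148), (nat_lit 18515096), (nat_lit 12482732)] (nat_lit 10526835)) p15_24_1 (nat_lit 4) (nat_lit 6) (nat_lit 7) = true := by decide +kernel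
def p15_24_1_7 : pfC (piC [(nat_lit 37722612), (nat_lit 24889148), (nat_lit 18515096), (nat_lit 12482732)] (nat_lit 10526835)) p15_24_1 (nat_lit 4) (nat_lit 7) (nat_lit 8) = true := by decide +kernel
def p15_24_1_8 : pfC (piC [(nat_lit 37722612), (nat_lit 24889148), (nat_lit 18515096), (nat_lit 12482732)] (nat_lit 10526835)) p15_24_1 (nat_lit 4) (nat_lit 8) (nat_lit 9) = true := by decide +kernel
def p15_24_1_9 : pfC (piC [(nat_lit 37722612), (nat_lit 24889148), (nat_lit 18515096), (nat_lit 12482732)] (nat_lit 10526835)) p15_24_1 (nat_lit 4) (nat_lit 9) (nat_lit 10) = true := by decide +kernel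
def p15_24_1_10 : pfC (piC [(nat_lit 37722612), (nat_lit 24889148), (nat_lit 18515096), (nat_lit 12482732)] (nat_lit 10526835)) p15_24_1 (nat_lit 4) (nat_lit 10) (nat_lit 11) = true := by decide +kernel
def p15_24_1_11 : pfC (piC [(nat_lit 37722612), (nat_lit 24889148), (nat_lit 18515096), (nat_lit 12482732)] (nat_lit 10526835)) p15_24_1 (nat_lit 4) (nat_lit 11) (nat_lit 12) = true := by decide +kernel
def p15_24_1_12 : pfC (piC [(nat_lit 37722612), (nat_lit 24889148), (nat_lit 18515096), (nat_lit 12482732)] (nat_lit 10526835)) p15_24_1 (nat_lit 4) (nat_lit 12) (nat_lit 13) = true := by decide +kernel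
def p15_24_1_13 : pfC (piC [(nat_lit 37722612), (nat_lit 24889148), (nat_lit 18515096), (nat_lit 12482732)] (nat_lit 10526835)) p15_24_1 (nat_lit 4) (nat_lit 13) (nat_lit 14) = true := by decide +kernel
def p15_24_1_14 : pfC (piC [(nat_lit 37722612), (nat_lit 24889148), (nat_lit 18515096), (nat_lit 12482732)] (nat_lit 10526835)) p15_24_1 (nat_lit 4) (nat_lit 14) (nat_lit 15) = true := by decide +kernel
def p15_24_1_15 : pfC (piC [(nat_lit 37722612), (nat_lit 24889148), (nat_lit 18515096), (nat_lit 12482732)] (nat_lit 10526835)) p15_24_1 (nat_lit 4) (nat_lit 15) (nat_lit 16) = true := by decide +kernel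
def p15_24_1_16 : pfC (piC [(nat_lit 37722612), (nat_lit 24889148), (nat_lit 18515096), (nat_lit 12482732)] (nat_lit 10526835)) p15_24_1 (nat_lit 4) (nat_lit 16) (nat_lit 17) = true := by decide +kernel
def p15_24_1_17 : pfC (piC [(nat_lit 37722612), (nat_lit 24889148), (nat_lit 18515096), (nat_lit 12482732)] (nat_lit 10526835)) p15_24_1 (nat_lit 4) (nat_lit 17) (nat_lit 18) = true := by decide +kernel
def p15_24_1_18 : pfC (piC [(nat_lit 37722612), (nat_lit 24889148), (nat_lit 18515096), (nat_lit 12482732)] (nat_lit 10526835)) p15_24_1 (nat_lit 4) (nat_lit 18) (nat_lit 19) = true := by decide +kernel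
def p15_24_1_19 : pfC (piC [(nat_lit 37722612), (nat_lit 24889148), (nat_lit 18515096), (nat_lit 12482732)] (nat_lit 10526835)) p15_24_1 (nat_lit 4) (nat_lit 19) (nat_lit 20) = true := by decide +kernel
def p15_24_1_20 : pfC (piC [(nat_lit 37722612), (nat_lit 24889148), (nat_lit 18515096), (nat_lit 12482732)] (nat_lit 10526835)) p15_24_1 (nat_lit 4) (nat_lit 20) (nat_lit 21) = true := by decide +kernel
def p15_24_1_21 : pfC (piC [(nat_lit 37722612), (nat_lit 24889148), (nat_lit 18515096), (nat_lit 12482732)] (nat_lit 10526835)) p15_24_1 (nat_lit 4) (nat_lit 21) (nat_lit 22) = true := by decide +kernel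
def p15_24_1_22 : pfC (piC [(nat_lit 37722612), (nat_lit 24889148), (nat_lit 18515096), (nat_lit 12482732)] (nat_lit 10526835)) p15_24_1 (nat_lit 4) (nat_lit 22) (nat_lit 23) = true := by decide +kernel
def p15_24_1_23 : pfC (piC [(nat_lit 37722612), (nat_lit 24889148), (nat_lit 18515096), (nat_lit 12482732)] (nat_lit 10526835)) p15_24_1 (nat_lit 4) (nat_lit 23) (nat_lit 24) = true := by decide +kernel
def p15_24_1_24 : pfC (piC [(nat_lit 37722612), (nat_lit 24889148), (nat_lit 18515096), (nat_lit 12482732)] (nat_lit 10526835)) p15_24_1 (nat_lit 4) (nat_lit 24) (nat_lit 25) = true := by decide +kernel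
def p15_24_1_25 : pfC (piC [(nat_lit 37722612), (nat_lit 24889148), (nat_lit 18515096), (nat_lit 12482732)] (nat_lit 10526835)) p15_24_1 (nat_lit 4) (nat_lit 25) (nat_lit 26) = true := by decide +kernel
def p15_24_1_26 : pfC (piC [(nat_lit 37722612), (nat_lit 24889148), (nat_lit 18515096), (nat_lit 12482732)] (nat_lit 10526835)) p15_24_1 (nat_lit 4) (nat_lit 26) (nat_lit 27) = true := by decide +kernel
def p15_24_1_27 : pfC (piC [(nat_lit 37722612), (nat_lit 24889148), (nat_lit 18515096), (nat_lit 12482732)] (nat_lit 10526835)) p15_24_1 (nat_lit 4) (nat_lit 27) (nat_lit 28) = true := by decide +kernel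
def p15_24_1_28 : pfC (piC [(nat_lit 37722612), (nat_lit 24889148), (nat_lit 18515096), (nat_lit 12482732)] (nat_lit 10526835)) p15_24_1 (nat_lit 4) (nat_lit 28) (nat_lit 29) = true := by decide +kernel
def p15_24_1_29 : pfC (piC [(nat_lit 37722612), (nat_lit 24889148), (nat_lit 18515096), (nat_lit 12482732)] (nat_lit 10526835)) p15_24_1 (nat_lit 4) (nat_lit 29) (nat_lit 30) = true := by decide +kernel
def p15_24_1_30 : pfC (piC [(nat_lit 37722612), (nat_lit 24889148), (nat_lit 18515096), (nat_lit 12482732)] (nat_lit 10526835)) p15_24_1 (nat_lit 4) (nat_lit 30) (nat_lit 31) = true := by decide +kernel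
def p15_24_1_31 : pfC (piC [(nat_lit 37722612), (nat_lit 24889148), (nat_lit 18515096), (nat_lit 12482732)] (nat_lit 10526835)) p15_24_1 (nat_lit 4) (nat_lit 31) (nat_lit 32) = true := by decide +kernel
def p15_24_1_32 : pfC (piC [(nat_lit 37722612), (nat_lit 24889148), (nat_lit 18515096), (nat_lit 12482732)] (nat_lit 10526835)) p15_24_1 (nat_lit 4) (nat_lit 32) (nat_lit 33) = true := by decide +kernel
def p15_24_1_33 : pfC (piC [(nat_lit 37722612), (nat_lit 24889148), (nat_lit 18515096), (nat_lit 12482732)] (nat_lit 10526835)) p15_24_1 (nat_lit 4) (nat_lit 33) (nat_lit 34) = true := by decide +kernel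
def p15_24_1_34 : pfC (piC [(nat_lit 37722612), (nat_lit 24889148), (nat_lit 18515096), (nat_lit 12482732)] (nat_lit 10526835)) p15_24_1 (nat_lit 4) (nat_lit 34) (nat_lit 35) = true := by decide +kernel
def p15_24_1_35 : pfC (piC [(nat_lit 37722612), (nat_lit 24889148), (nat_lit 18515096), (nat_lit 12482732)] (nat_lit 10526835)) p15_24_1 (nat_lit 4) (nat_lit 35) (nat_lit 36) = true := by decide +kernel
def p15_24_1_36 : pfC (piC [(nat_lit 37722612), (nat_lit 24889148), (nat_lit 18515096), (nat_lit 12482732)] (nat_lit 10526835)) p15_24_1 (nat_lit 4) (nat_lit 36) (nat_lit 37) = true := by decide +kernel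
def p15_24_1_37 : pfC (piC [(nat_lit 37722612), (nat_lit 24889148), (nat_lit 18515096), (nat_lit 12482732)] (nat_lit 10526835)) p15_24_1 (nat_lit 4) (nat_lit 37) (nat_lit 38) = true := by decide +kernel
def p15_24_1_38 : pfC (piC [(nat_lit 37722612), (nat_lit 24889148), (nat_lit 18515096), (nat_lit 12482732)] (nat_lit 10526835)) p15_24_1 (nat_lit 4) (nat_lit 38) (nat_lit 39) = true := by decide +kernel
def p15_24_1_39 : pfC (piC [(nat_lit 37722612), (nat_lit 24889148), (nat_lit 18515096), (nat_lit 12482732)] (nat_lit 10526835)) p15_24_1 (nat_lit 4) (nat_lit 39) (nat_lit 40) = true := by decide +kernel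
def p15_24_1_40 : pfC (piC [(nat_lit 37722612), (nat_lit 24889148), (nat_lit 18515096), (nat_lit 12482732)] (nat_lit 10526835)) p15_24_1 (nat_lit 4) (nat_lit 40) (nat_lit 41) = true := by decide +kernel
def p15_24_1_41 : pfC (piC [(nat_lit 37722612), (nat_lit 24889148), (nat_lit 18515096), (nat_lit 12482732)] (nat_lit 10526835)) p15_24_1 (nat_lit 4) (nat_lit 41) (nat_lit 42) = true := by decide +kernel
def p15_24_1_42 : pfC (piC [(nat_lit 37722612), (nat_lit 24889148), (nat_lit 18515096), (nat_lit 12482732)] (nat_lit 10526835)) p15_24_1 (nat_lit 4) (nat_lit 42) (nat_lit 43) = true := by decide +kernel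
def p15_24_1_43 : pfC (piC [(nat_lit 37722612), (nat_lit 24889148), (nat_lit 18515096), (nat_lit 12482732)] (nat_lit 10526835)) p15_24_1 (nat_lit 4) (nat_lit 43) (nat_lit 44) = true := by decide +kernel
def p15_24_1_44 : pfC (piC [(nat_lit 37722612), (nat_lit 24889148), (nat_lit 18515096), (nat_lit 12482732)] (nat_lit 10526835)) p15_24_1 (nat_lit 4) (nat_lit 44) (nat_lit 45) = true := by decide +kernel
def p15_24_1_45 : pfC (piC [(nat_lit 37722612), (nat_lit 24889148), (nat_lit 18515096), (nat_lit 12482732)] (nat_lit 10526835)) p15_24_1 (nat_lit 4) (nat_lit 45) (nat_lit 46) = true := by decide +kernel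
def p15_24_1_46 : pfC (piC [(nat_lit 37722612), (nat_lit 24889148), (nat_lit 18515096), (nat_lit 12482732)] (nat_lit 10526835)) p15_24_1 (nat_lit 4) (nat_lit 46) (nat_lit 47) = true := by decide +kernel
def p15_24_1_47 : pfC (piC [(nat_lit 37722612), (nat_lit 24889148), (nat_lit 18515096), (nat_lit 12482732)] (nat_lit 10526835)) p15_24_1 (nat_lit 4) (nat_lit 47) (nat_lit 48) = true := by decide +kernel
def p15_24_1_48 : pfC (piC [(nat_lit 37722612), (nat_lit 24889148), (nat_lit 18515096), (nat_lit 12482732)] (nat_lit 10526835)) p15_24_1 (nat_lit 4) (nat_lit 48) (nat_lit 49) = true := by decide +kernel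
def p15_24_1_49 : pfC (piC [(nat_lit 37722612), (nat_lit 24889148), (nat_lit 18515096), (nat_lit 12482732)] (nat_lit 10526835)) p15_24_1 (nat_lit 4) (nat_lit 49) (nat_lit 50) = true := by decide +kernel
def p15_24_1_50 : pfC (piC [(nat_lit 37722612), (nat_lit 24889148), (nat_lit 18515096), (nat_lit 12482732)] (nat_lit 10526835)) p15_24_1 (nat_lit 4) (nat_lit 50) (nat_lit 51) = true := by decide +kernel
def p15_24_1_51 : pfC (piC [(nat_lit 37722612), (nat_lit 24889148), (nat_lit 18515096), (nat_lit 12482732)] (nat_lit 10526835)) p15_24_1 (nat_lit 4) (nat_lit 51) (nat_lit 52) = true := by decide +kernel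
def p15_24_1_52 : pfC (piC [(nat_lit 37722612), (nat_lit 24889148), (nat_lit 18515096), (nat_lit 12482732)] (nat_lit 10526835)) p15_24_1 (nat_lit 4) (nat_lit 52) (nat_lit 53) = true := by decide +kernel
def p15_24_1_53 : pfC (piC [(nat_lit 37722612), (nat_lit 24889148), (nat_lit 18515096), (nat_lit 12482732)] (nat_lit 10526835)) p15_24_1 (nat_lit 4) (nat_lit 53) (nat_lit 54) = true := by decide +kernel
def p15_24_1_54 : pfC (piC [(nat_lit 37722612), (nat_lit 24889148), (nat_lit 18515096), (nat_lit 12482732)] (nat_lit 10526835)) p15_24_1 (nat_lit 4) (nat_lit 54) (nat_lit 55) = true := by decide +kernel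
def p15_24_1_55 : pfC (piC [(nat_lit 37722612), (nat_lit 24889148), (nat_lit 18515096), (nat_lit 12482732)] (nat_lit 10526835)) p15_24_1 (nat_lit 4) (nat_lit 55) (nat_lit 56) = true := by decide +kernel
def p15_24_1_56 : pfC (piC [(nat_lit 37722612), (nat_lit 24889148), (nat_lit 18515096), (nat_lit 12482732)] (nat_lit 10526835)) p15_24_1 (nat_lit 4) (nat_lit 56) (nat_lit 57) = true := by decide +kernel
def p15_24_1_57 : pfC (piC [(nat_lit 37722612), (nat_lit 24889148), (nat_lit 18515096), (nat_lit 12482732)] (nat_lit 10526835)) p15_24_1 (nat_lit 4) (nat_lit 57) (nat_lit 58) = true := by decide +kernel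
def p15_24_1_58 : pfC (piC [(nat_lit 37722612), (nat_lit 24889148), (nat_lit 18515096), (nat_lit 12482732)] (nat_lit 10526835)) p15_24_1 (nat_lit 4) (nat_lit 58) (nat_lit 59) = true := by decide +kernel
def p15_24_1_59 : pfC (piC [(nat_lit 37722612), (nat_lit 24889148), (nat_lit 18515096), (nat_lit 12482732)] (nat_lit 10526835)) p15_24_1 (nat_lit 4) (nat_lit 59) (nat_lit 60) = true := by decide +kernel
def p15_24_1_60 : pfC (piC [(nat_lit 37722612), (nat_lit 24889148), (nat_lit 18515096), (nat_lit 12482732)] (nat_lit 10526835)) p15_24_1 (nat_lit 4) (nat_lit 60) (nat_lit 61) = true := by decide +kernel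
def p15_24_1_61 : pfC (piC [(nat_lit 37722612), (nat_lit 24889148), (nat_lit 18515096), (nat_lit 12482732)] (nat_lit 10526835)) p15_24_1 (nat_lit 4) (nat_lit 61) (nat_lit 62) = true := by decide +kernel
def p15_24_1_62 : pfC (piC [(nat_lit 37722612), (nat_lit 24889148), (nat_lit 18515096), (nat_lit 12482732)] (nat_lit 10526835)) p15_24_1 (nat_lit 4) (nat_lit 62) (nat_lit 63) = true := by decide +kernel
def p15_24_1_63 : pfC (piC [(nat_lit 37722612), (nat_lit 24889148), (nat_lit 18515096), (nat_lit 12482732)] (nat_lit 10526835)) p15_24_1 (nat_lit 4) (nat_lit 63) (nat_lit 64) = true := by decide +kernel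
def p15_24_1_64 : pfC (piC [(nat_lit 37722612), (nat_lit 24889148), (nat_lit 18515096), (nat_lit 12482732)] (nat_lit 10526835)) p15_24_1 (nat_lit 4) (nat_lit 64) (nat_lit 65) = true := by decide +kernel
def p15_24_1_65 : pfC (piC [(nat_lit 37722612), (nat_lit 24889148), (nat_lit 18515096), (nat_lit 12482732)] (nat_lit 10526835)) p15_24_1 (nat_lit 4) (nat_lit 65) (nat_lit 66) = true := by decide +kernel
def p15_24_1_66 : pfC (piC [(nat_lit 37722612), (nat_lit 24889148), (nat_lit 18515096), (nat_lit 12482732)] (nat_lit 10526835)) p15_24_1 (nat_lit 4) (nat_lit 66) (nat_lit 67) = true := by decide +kernel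
def p15_24_1_67 : pfC (piC [(nat_lit 37722612), (nat_lit 24889148), (nat_lit 18515096), (nat_lit 12482732)] (nat_lit 10526835)) p15_24_1 (nat_lit 4) (nat_lit 67) (nat_lit 68) = true := by decide +kernel
def p15_24_1_68 : pfC (piC [(nat_lit 37722612), (nat_lit 24889148), (nat_lit 18515096), (nat_lit 12482732)] (nat_lit 10526835)) p15_24_1 (nat_lit 4) (nat_lit 68) (nat_lit 69) = true := by decide +kernel
def p15_24_1_69 : pfC (piC [(nat_lit 37722612), (nat_lit 24889148), (nat_lit 18515096), (nat_lit 12482732)] (nat_lit 10526835)) p15_24_1 (nat_lit 4) (nat_lit 69) (nat_lit 70) = true := by decide +kernel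
def p15_24_1_70 : pfC (piC [(nat_lit 37722612), (nat_lit 24889148), (nat_lit 18515096), (nat_lit 12482732)] (nat_lit 10526835)) p15_24_1 (nat_lit 4) (nat_lit 70) (nat_lit 71) = true := by decide +kernel
def p15_24_1_71 : pfC (piC [(nat_lit 37722612), (nat_lit 24889148), (nat_lit 18515096), (nat_lit 12482732)] (nat_lit 10526835)) p15_24_1 (nat_lit 4) (nat_lit 71) (nat_lit 72) = true := by decide +kernel
def p15_24_1_72 : pfC (piC [(nat_lit 37722612), (nat_lit 24889148), (nat_lit 18515096), (nat_lit 12482732)] (nat_lit 10526835)) p15_24_1 (nat_lit 4) (nat_lit 72) (nat_lit 73) = true := by decide +kernel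
def p15_24_1_73 : pfC (piC [(nat_lit 37722612), (nat_lit 24889148), (nat_lit 18515096), (nat_lit 12482732)] (nat_lit 10526835)) p15_24_1 (nat_lit 4) (nat_lit 73) (nat_lit 74) = true := by decide +kernel
def p15_24_1_74 : pfC (piC [(nat_lit 37722612), (nat_lit 24889148), (nat_lit 18515096), (nat_lit 12482732)] (nat_lit 10526835)) p15_24_1 (nat_lit 4) (nat_lit 74) (nat_lit 75) = true := by decide +kernel
def p15_24_1_75 : pfC (piC [(nat_lit 37722612), (nat_lit 24889148), (nat_lit 18515096), (nat_lit 12482732)] (nat_lit 10526835)) p15_24_1 (nat_lit 4) (nat_lit 75) (nat_lit 76) = true := by decide +kernel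
def p15_24_1_76 : pfC (piC [(nat_lit 37722612), (nat_lit 24889148), (nat_lit 18515096), (nat_lit 12482732)] (nat_lit 10526835)) p15_24_1 (nat_lit 4) (nat_lit 76) (nat_lit 77) = true := by decide +kernel
def p15_24_1_77 : pfC (piC [(nat_lit 37722612), (nat_lit 24889148), (nat_lit 18515096), (nat_lit 12482732)] (nat_lit 10526835)) p15_24_1 (nat_lit 4) (nat_lit 77) (nat_lit 78) = true := by decide +kernel
def p15_24_1_78 : pfC (piC [(nat_lit 37722612), (nat_lit 24889148), (nat_lit 18515096), (nat_lit 12482732)] (nat_lit 10526835)) p15_24_1 (nat_lit 4) (nat_lit 78) (nat_lit 79) = true := by decide +kernel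
def p15_24_1_79 : pfC (piC [(nat_lit 37722612), (nat_lit 24889148), (nat_lit 18515096), (nat_lit 12482732)] (nat_lit 10526835)) p15_24_1 (nat_lit 4) (nat_lit 79) (nat_lit 80) = true := by decide +kernel
def p15_24_1_80 : pfC (piC [(nat_lit 37722612), (nat_lit 24889148), (nat_lit 18515096), (nat_lit 12482732)] (nat_lit 10526835)) p15_24_1 (nat_lit 4) (nat_lit 80) (nat_lit 81) = true := by decide +kernel
def p15_24_1_81 : pfC (piC [(nat_lit 37722612), (nat_lit 24889148), (nat_lit 18515096), (nat_lit 12482732)] (nat_lit 10526835)) p15_24_1 (nat_lit 4) (nat_lit 81) (nat_lit 82) = true := by decide +kernel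
def p15_24_1_82 : pfC (piC [(nat_lit 37722612), (nat_lit 24889148), (nat_lit 18515096), (nat_lit 12482732)] (nat_lit 10526835)) p15_24_1 (nat_lit 4) (nat_lit 82) (nat_lit 83) = true := by decide +kernel
def p15_24_1_83 : pfC (piC [(nat_lit 37722612), (nat_lit 24889148), (nat_lit 18515096), (nat_lit 12482732)] (nat_lit 10526835)) p15_24_1 (nat_lit 4) (nat_lit 83) (nat_lit 84) = true := by decide +kernel
def p15_24_1_84 : pfC (piC [(nat_lit 37722612), (nat_lit 24889148), (nat_lit 18515096), (nat_lit 12482732)] (nat_lit 10526835)) p15_24_1 (nat_lit 4) (nat_lit 84) (nat_lit 85) = true := by decide +kernel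
def p15_24_1_85 : pfC (piC [(nat_lit 37722612), (nat_lit 24889148), (nat_lit 18515096), (nat_lit 12482732)] (nat_lit 10526835)) p15_24_1 (nat_lit 4) (nat_lit 85) (nat_lit 86) = true := by decide +kernel
def p15_24_1_86 : pfC (piC [(nat_lit 37722612), (nat_lit 24889148), (nat_lit 18515096), (nat_lit 12482732)] (nat_lit 10526835)) p15_24_1 (nat_lit 4) (nat_lit 86) (nat_lit 87) = true := by decide +kernel
def p15_24_1_87 : pfC (piC [(nat_lit 37722612), (nat_lit 24889148), (nat_lit 18515096), (nat_lit 12482732)] (nat_lit 10526835)) p15_24_1 (nat_lit 4) (nat_lit 87) (nat_lit 88) = true := by decide +kernel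
def p15_24_1_88 : pfC (piC [(nat_lit 37722612), (nat_lit 24889148), (nat_lit 18515096), (nat_lit 12482732)] (nat_lit 10526835)) p15_24_1 (nat_lit 4) (nat_lit 88) (nat_lit 89) = true := by decide +kernel
def p15_24_1_89 : pfC (piC [(nat_lit 37722612), (nat_lit 24889148), (nat_lit 18515096), (nat_lit 12482732)] (nat_lit 10526835)) p15_24_1 (nat_lit 4) (nat_lit 89) (nat_lit 90) = true := by decide +kernel
def p15_24_1_90 : pfC (piC [(nat_lit 37722612), (nat_lit 24889148), (nat_lit 18515096), (nat_lit 12482732)] (nat_lit 10526835)) p15_24_1 (nat_lit 4) (nat_lit 90) (nat_lit 91) = true := by decide +kernel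
def p15_24_1_91 : pfC (piC [(nat_lit 37722612), (nat_lit 24889148), (nat_lit 18515096), (nat_lit 12482732)] (nat_lit 10526835)) p15_24_1 (nat_lit 4) (nat_lit 91) (nat_lit 92) = true := by decide +kernel
def p15_24_1_92 : pfC (piC [(nat_lit 37722612), (nat_lit 24889148), (nat_lit 18515096), (nat_lit 12482732)] (nat_lit 10526835)) p15_24_1 (nat_lit 4) (nat_lit 92) (nat_lit 93) = true := by decide +kernel
def p15_24_1_93 : pfC (piC [(nat_lit 37722612), (nat_lit 24889148), (nat_lit 18515096), (nat_lit 12482732)] (nat_lit 10526835)) p15_24_1 (nat_lit 4) (nat_lit 93) (nat_lit 94) = true := by decide +kernel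
def p15_24_1_94 : pfC (piC [(nat_lit 37722612), (nat_lit 24889148), (nat_lit 18515096), (nat_lit 12482732)] (nat_lit 10526835)) p15_24_1 (nat_lit 4) (nat_lit 94) (nat_lit 95) = true := by decide +kernel
def p15_24_1_95 : pfC (piC [(nat_lit 37722612), (nat_lit 24889148), (nat_lit 18515096), (nat_lit 12482732)] (nat_lit 10526835)) p15_24_1 (nat_lit 4) (nat_lit 95) (nat_lit 96) = true := by decide +kernel
def p15_24_1_96 : pfC (piC [(nat_lit 37722612), (nat_lit 24889148), (nat_lit 18515096), (nat_lit 12482732)] (nat_lit 10526835)) p15_24_1 (nat_lit 4) (nat_lit 96) (nat_lit 97) = true := by decide +kernel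
def p15_24_1_97 : pfC (piC [(nat_lit 37722612), (nat_lit 24889148), (nat_lit 18515096), (nat_lit 12482732)] (nat_lit 10526835)) p15_24_1 (nat_lit 4) (nat_lit 97) (nat_lit 98) = true := by decide +kernel
def p15_24_1_98 : pfC (piC [(nat_lit 37722612), (nat_lit 24889148), (nat_lit 18515096), (nat_lit 12482732)] (nat_lit 10526835)) p15_24_1 (nat_lit 4) (nat_lit 98) (nat_lit 99) = true := by decide +kernel
def p15_24_1_99 : pfC (piC [(nat_lit 37722612), (nat_lit 24889148), (nat_lit 18515096), (nat_lit 12482732)] (nat_lit 10526835)) p15_24_1 (nat_lit 4) (nat_lit 99) (nat_lit 100) = true := by decide +kernel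
def p15_24_1_100 : pfC (piC [(nat_lit 37722612), (nat_lit 24889148), (nat_lit 18515096), (nat_lit 12482732)] (nat_lit 10526835)) p15_24_1 (nat_lit 4) (nat_lit 100) (nat_lit 101) = true := by decide +kernel
def p15_24_1_101 : pfC (piC [(nat_lit 37722612), (nat_lit 24889148), (nat_lit 18515096), (nat_lit 12482732)] (nat_lit 10526835)) p15_24_1 (nat_lit 4) (nat_lit 101) (nat_lit 102) = true := by decide +kernel
def p15_24_1_102 : pfC (piC [(nat_lit 37722612), (nat_lit 24889148), (nat_lit 18515096), (nat_lit 12482732)] (nat_lit 10526835)) p15_24_1 (nat_lit 4) (nat_lit 102) (nat_lit 103) = true := by decide +kernel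
def p15_24_1_103 : pfC (piC [(nat_lit 37722612), (nat_lit 24889148), (nat_lit 18515096), (nat_lit 12482732)] (nat_lit 10526835)) p15_24_1 (nat_lit 4) (nat_lit 103) (nat_lit 104) = true := by decide +kernel
def p15_24_1_104 : pfC (piC [(nat_lit 37722612), (nat_lit 24889148), (nat_lit 18515096), (nat_lit 12482732)] (nat_lit 10526835)) p15_24_1 (nat_lit 4) (nat_lit 104) (nat_lit 105) = true := by decide +kernel
def p15_24_1_105 : pfC (piC [(nat_lit 37722612), (nat_lit 24889148), (nat_lit 18515096), (nat_lit 12482732)] (nat_lit 10526835)) p15_24_1 (nat_lit 4) (nat_lit 105) (nat_lit 106) = true := by decide +kernel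
def p15_24_1_106 : pfC (piC [(nat_lit 37722612), (nat_lit 24889148), (nat_lit 18515096), (nat_lit 12482732)] (nat_lit 10526835)) p15_24_1 (nat_lit 4) (nat_lit 106) (nat_lit 107) = true := by decide +kernel
def p15_24_1_107 : pfC (piC [(nat_lit 37722612), (nat_lit 24889148), (nat_lit 18515096), (nat_lit 12482732)] (nat_lit 10526835)) p15_24_1 (nat_lit 4) (nat_lit 107) (nat_lit 108) = true := by decide +kernel
def p15_24_1_108 : pfC (piC [(nat_lit 37722612), (nat_lit 24889148), (nat_lit 18515096), (nat_lit 12482732)] (nat_lit 10526835)) p15_24_1 (nat_lit 4) (nat_lit 108) (nat_lit 109) = true := by decide +kernel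
def p15_24_1_109 : pfC (piC [(nat_lit 37722612), (nat_lit 24889148), (nat_lit 18515096), (nat_lit 12482732)] (nat_lit 10526835)) p15_24_1 (nat_lit 4) (nat_lit 109) (nat_lit 110) = true := by decide +kernel
def p15_24_1_110 : pfC (piC [(nat_lit 37722612), (nat_lit 24889148), (nat_lit 18515096), (nat_lit 12482732)] (nat_lit 10526835)) p15_24_1 (nat_lit 4) (nat_lit 110) (nat_lit 111) = true := by decide +kernel
def p15_24_1_111 : pfC (piC [(nat_lit 37722612), (nat_lit 24889148), (nat_lit 18515096), (nat_lit 12482732)] (nat_lit 10526835)) p15_24_1 (nat_lit 4) (nat_lit 111) (nat_lit 112) = true := by decide +kernel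
def p15_24_1_112 : pfC (piC [(nat_lit 37722612), (nat_lit 24889148), (nat_lit 18515096), (nat_lit 12482732)] (nat_lit 10526835)) p15_24_1 (nat_lit 4) (nat_lit 112) (nat_lit 113) = true := by decide +kernel
def p15_24_1_113 : pfC (piC [(nat_lit 37722612), (nat_lit 24889148), (nat_lit 18515096), (nat_lit 12482732)] (nat_lit 10526835)) p15_24_1 (nat_lit 4) (nat_lit 113) (nat_lit 114) = true := by decide +kernel
def p15_24_1_114 : pfC (piC [(nat_lit 37722612), (nat_lit 24889148), (nat_lit 18515096), (nat_lit 12482732)] (nat_lit 10526835)) p15_24_1 (nat_lit 4) (nat_lit 114) (nat_lit 115) = true := by decide +kernel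
def p15_24_1_115 : pfC (piC [(nat_lit 37722612), (nat_lit 24889148), (nat_lit 18515096), (nat_lit 12482732)] (nat_lit 10526835)) p15_24_1 (nat_lit 4) (nat_lit 115) (nat_lit 116) = true := by decide +kernel
def p15_24_1_116 : pfC (piC [(nat_lit 37722612), (nat_lit 24889148), (nat_lit 18515096), (nat_lit 12482732)] (nat_lit 10526835)) p15_24_1 (nat_lit 4) (nat_lit 116) (nat_lit 117) = true := by decide +kernel
def p15_24_1_117 : pfC (piC [(nat_lit 37722612), (nat_lit 24889148), (nat_lit 18515096), (nat_lit 12482732)] (nat_lit 10526835)) p15_24_1 (nat_lit 4) (nat_lit 117) (nat_lit 118) = true := by decide +kernel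
def p15_24_1_118 : pfC (piC [(nat_lit 37722612), (nat_lit 24889148), (nat_lit 18515096), (nat_lit 12482732)] (nat_lit 10526835)) p15_24_1 (nat_lit 4) (nat_lit 118) (nat_lit 119) = true := by decide +kernel
def p15_24_1_119 : pfC (piC [(nat_lit 37722612), (nat_lit 24889148), (nat_lit 18515096), (nat_lit 12482732)] (nat_lit 10526835)) p15_24_1 (nat_lit 4) (nat_lit 119) (nat_lit 120) = true := by decide +kernel
def p15_24_1_120 : pfC (piC [(nat_lit 37722612), (nat_lit 24889148), (nat_lit 18515096), (nat_lit 12482732)] (nat_lit 10526835)) p15_24_1 (nat_lit 4) (nat_lit 120) (nat_lit 121) = true := by decide +kernel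
def p15_24_1_121 : pfC (piC [(nat_lit 37722612), (nat_lit 24889148), (nat_lit 18515096), (nat_lit 12482732)] (nat_lit 10526835)) p15_24_1 (nat_lit 4) (nat_lit 121) (nat_lit 122) = true := by decide +kernel
def p15_24_1_122 : pfC (piC [(nat_lit 37722612), (nat_lit 24889148), (nat_lit 18515096), (nat_lit 12482732)] (nat_lit 10526835)) p15_24_1 (nat_lit 4) (nat_lit 122) (nat_lit 123) = true := by decide +kernel
def p15_24_1_123 : pfC (piC [(nat_lit 37722612), (nat_lit 24889148), (nat_lit 18515096), (nat_lit 12482732)] (nat_lit 10526835)) p15_24_1 (nat_lit 4) (nat_lit 123) (nat_lit 124) = true := by decide +kernel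
def p15_24_1_124 : pfC (piC [(nat_lit 37722612), (nat_lit 24889148), (nat_lit 18515096), (nat_lit 12482732)] (nat_lit 10526835)) p15_24_1 (nat_lit 4) (nat_lit 124) (nat_lit 125) = true := by decide +kernel
def p15_24_1_125 : pfC (piC [(nat_lit 37722612), (nat_lit 24889148), (nat_lit 18515096), (nat_lit 12482732)] (nat_lit 10526835)) p15_24_1 (nat_lit 4) (nat_lit 125) (nat_lit 126) = true := by decide +kernel
def p15_24_1_126 : pfC (piC [(nat_lit 37722612), (nat_lit 24889148), (nat_lit 18515096), (nat_lit 12482732)] (nat_lit 10526835)) p15_24_1 (nat_lit 4) (nat_lit 126) (nat_lit 127) = true := by decide +kernel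
def p15_24_1_127 : pfC (piC [(nat_lit 37722612), (nat_lit 24889148), (nat_lit 18515096), (nat_lit 12482732)] (nat_lit 10526835)) p15_24_1 (nat_lit 4) (nat_lit 127) (nat_lit 128) = true := by decide +kernel
def p15_24_1_128 : pfC (piC [(nat_lit 37722612), (nat_lit 24889148), (nat_lit 18515096), (nat_lit 12482732)] (nat_lit 10526835)) p15_24_1 (nat_lit 4) (nat_lit 128) (nat_lit 129) = true := by decide +kernel
def p15_24_1_129 : pfC (piC [(nat_lit 37722612), (nat_lit 24889148), (nat_lit 18515096), (nat_lit 12482732)] (nat_lit 10526835)) p15_24_1 (nat_lit 4) (nat_lit 129) (nat_lit 130) = true := by decide +kernel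
def p15_24_1_130 : pfC (piC [(nat_lit 37722612), (nat_lit 24889148), (nat_lit 18515096), (nat_lit 12482732)] (nat_lit 10526835)) p15_24_1 (nat_lit 4) (nat_lit 130) (nat_lit 131) = true := by decide +kernel
def p15_24_1_131 : pfC (piC [(nat_lit 37722612), (nat_lit 24889148), (nat_lit 18515096), (nat_lit 12482732)] (nat_lit 10526835)) p15_24_1 (nat_lit 4) (nat_lit 131) (nat_lit 132) = true := by decide +kernel
def p15_24_1_132 : pfC (piC [(nat_lit 37722612), (nat_lit 24889148), (nat_lit 18515096), (nat_lit 12482732)] (nat_lit 10526835)) p15_24_1 (nat_lit 4) (nat_lit 132) (nat_lit 133) = true := by decide +kernel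
def p15_24_1_133 : pfC (piC [(nat_lit 37722612), (nat_lit 24889148), (nat_lit 18515096), (nat_lit 12482732)] (nat_lit 10526835)) p15_24_1 (nat_lit 4) (nat_lit 133) (nat_lit 134) = true := by decide +kernel
def p15_24_1_134 : pfC (piC [(nat_lit 37722612), (nat_lit 24889148), (nat_lit 18515096), (nat_lit 12482732)] (nat_lit 10526835)) p15_24_1 (nat_lit 4) (nat_lit 134) (nat_lit 135) = true := by decide +kernel
def p15_24_1_135 : pfC (piC [(nat_lit 37722612), (nat_lit 24889148), (nat_lit 18515096), (nat_lit 12482732)] (nat_lit 10526835)) p15_24_1 (nat_lit 4) (nat_lit 135) (nat_lit 136) = true := by decide +kernel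
def p15_24_1_136 : pfC (piC [(nat_lit 37722612), (nat_lit 24889148), (nat_lit 18515096), (nat_lit 12482732)] (nat_lit 10526835)) p15_24_1 (nat_lit 4) (nat_lit 136) (nat_lit 137) = true := by decide +kernel
def p15_24_1_137 : pfC (piC [(nat_lit 37722612), (nat_lit 24889148), (nat_lit 18515096), (nat_lit 12482732)] (nat_lit 10526835)) p15_24_1 (nat_lit 4) (nat_lit 137) (nat_lit 138) = true := by decide +kernel
def p15_24_1_138 : pfC (piC [(nat_lit 37722612), (nat_lit 24889148), (nat_lit 18515096), (nat_lit 12482732)] (nat_lit 10526835)) p15_24_1 (nat_lit 4) (nat_lit 138) (nat_lit 139) = true := by decide +kernel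
def p15_24_1_139 : pfC (piC [(nat_lit 37722612), (nat_lit 24889148), (nat_lit 18515096), (nat_lit 12482732)] (nat_lit 10526835)) p15_24_1 (nat_lit 4) (nat_lit 139) (nat_lit 140) = true := by decide +kernel
def p15_24_1_140 : pfC (piC [(nat_lit 37722612), (nat_lit 24889148), (nat_lit 18515096), (nat_lit 12482732)] (nat_lit 10526835)) p15_24_1 (nat_lit 4) (nat_lit 140) (nat_lit 141) = true := by decide +kernel
def p15_24_1_141 : pfC (piC [(nat_lit 37722612), (nat_lit 24889148), (nat_lit 18515096), (nat_lit 12482732)] (nat_lit 10526835)) p15_24_1 (nat_lit 4) (nat_lit 141) (nat_lit 142) = true := by decide +kernel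
def p15_24_1_142 : pfC (piC [(nat_lit 37722612), (nat_lit 24889148), (nat_lit 18515096), (nat_lit 12482732)] (nat_lit 10526835)) p15_24_1 (nat_lit 4) (nat_lit 142) (nat_lit 143) = true := by decide +kernel
def p15_24_1_143 : pfC (piC [(nat_lit 37722612), (nat_lit 24889148), (nat_lit 18515096), (nat_lit 12482732)] (nat_lit 10526835)) p15_24_1 (nat_lit 4) (nat_lit 143) (nat_lit 144) = true := by decide +kernel
def p15_24_1_144 : pfC (piC [(nat_lit 37722612), (nat_lit 24889148), (nat_lit 18515096), (nat_lit 12482732)] (nat_lit 10526835)) p15_24_1 (nat_lit 4) (nat_lit 144) (nat_lit 145) = true := by decide +kernel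
def p15_24_1_145 : pfC (piC [(nat_lit 37722612), (nat_lit 24889148), (nat_lit 18515096), (nat_lit 12482732)] (nat_lit 10526835)) p15_24_1 (nat_lit 4) (nat_lit 145) (nat_lit 146) = true := by decide +kernel
def p15_24_1_146 : pfC (piC [(nat_lit 37722612), (nat_lit 24889148), (nat_lit 18515096), (nat_lit 12482732)] (nat_lit 10526835)) p15_24_1 (nat_lit 4) (nat_lit 146) (nat_lit 147) = true := by decide +kernel
def p15_24_1_147 : pfC (piC [(nat_lit 37722612), (nat_lit 24889148), (nat_lit 18515096), (nat_lit 12482732)] (nat_lit 10526835)) p15_24_1 (nat_lit 4) (nat_lit 147) (nat_lit 148) = true := by decide +kernel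
def p15_24_1_148 : pfC (piC [(nat_lit 37722612), (nat_lit 24889148), (nat_lit 18515096), (nat_lit 12482732)] (nat_lit 10526835)) p15_24_1 (nat_lit 4) (nat_lit 148) (nat_lit 149) = true := by decide +kernel
def p15_24_1_149 : pfC (piC [(nat_lit 37722612), (nat_lit 24889148), (nat_lit 18515096), (nat_lit 12482732)] (nat_lit 10526835)) p15_24_1 (nat_lit 4) (nat_lit 149) (nat_lit 150) = true := by decide +kernel
def p15_24_1_150 : pfC (piC [(nat_lit 37722612), (nat_lit 24889148), (nat_lit 18515096), (nat_lit 12482732)] (nat_lit 10526835)) p15_24_1 (nat_lit 4) (nat_lit 150) (nat_lit 151) = true := by decide +kernel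
def p15_24_1_151 : pfC (piC [(nat_lit 37722612), (nat_lit 24889148), (nat_lit 18515096), (nat_lit 12482732)] (nat_lit 10526835)) p15_24_1 (nat_lit 4) (nat_lit 151) (nat_lit 152) = true := by decide +kernel
def p15_24_1_152 : pfC (piC [(nat_lit 37722612), (nat_lit 24889148), (nat_lit 18515096), (nat_lit 12482732)] (nat_lit 10526835)) p15_24_1 (nat_lit 4) (nat_lit 152) (nat_lit 153) = true := by decide +kernel
def p15_24_1_153 : pfC (piC [(nat_lit 37722612), (nat_lit 24889148), (nat_lit 18515096), (nat_lit 12482732)] (nat_lit 10526835)) p15_24_1 (nat_lit 4) (nat_lit 153) (nat_lit 154) = true := by decide +kernel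
def p15_24_1_154 : pfC (piC [(nat_lit 37722612), (nat_lit 24889148), (nat_lit 18515096), (nat_lit 12482732)] (nat_lit 10526835)) p15_24_1 (nat_lit 4) (nat_lit 154) (nat_lit 155) = true := by decide +kernel
def p15_24_1_155 : pfC (piC [(nat_lit 37722612), (nat_lit 24889148), (nat_lit 18515096), (nat_lit 12482732)] (nat_lit 10526835)) p15_24_1 (nat_lit 4) (nat_lit 155) (nat_lit 156) = true := by decide +kernel
def p15_24_1_156 : pfC (piC [(nat_lit 37722612), (nat_lit 24889148), (nat_lit 18515096), (nat_lit 12482732)] (nat_lit 10526835)) p15_24_1 (nat_lit 4) (nat_lit 156) (nat_lit 157) = true := by decide +kernel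
def p15_24_1_157 : pfC (piC [(nat_lit 37722612), (nat_lit 24889148), (nat_lit 18515096), (nat_lit 12482732)] (nat_lit 10526835)) p15_24_1 (nat_lit 4) (nat_lit 157) (nat_lit 158) = true := by decide +kernel
def p15_24_1_158 : pfC (piC [(nat_lit 37722612), (nat_lit 24889148), (nat_lit 18515096), (nat_lit 12482732)] (nat_lit 10526835)) p15_24_1 (nat_lit 4) (nat_lit 158) (nat_lit 159) = true := by decide +kernel
def p15_24_1_159 : pfC (piC [(nat_lit 37722612), (nat_lit 24889148), (nat_lit 18515096), (nat_lit 12482732)] (nat_lit 10526835)) p15_24_1 (nat_lit 4) (nat_lit 159) (nat_lit 160) = true := by decide +kernel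
def p15_24_1_160 : pfC (piC [(nat_lit 37722612), (nat_lit 24889148), (nat_lit 18515096), (nat_lit 12482732)] (nat_lit 10526835)) p15_24_1 (nat_lit 4) (nat_lit 160) (nat_lit 161) = true := by decide +kernel
def p15_24_1_161 : pfC (piC [(nat_lit 37722612), (nat_lit 24889148), (nat_lit 18515096), (nat_lit 12482732)] (nat_lit 10526835)) p15_24_1 (nat_lit 4) (nat_lit 161) (nat_lit 162) = true := by decide +kernel
def p15_24_1_162 : pfC (piC [(nat_lit 37722612), (nat_lit 24889148), (nat_lit 18515096), (nat_lit 12482732)] (nat_lit 10526835)) p15_24_1 (nat_lit 4) (nat_lit 162) (nat_lit 163) = true := by decide +kernel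
def p15_24_1_163 : pfC (piC [(nat_lit 37722612), (nat_lit 24889148), (nat_lit 18515096), (nat_lit 12482732)] (nat_lit 10526835)) p15_24_1 (nat_lit 4) (nat_lit 163) (nat_lit 164) = true := by decide +kernel
def p15_24_1_164 : pfC (piC [(nat_lit 37722612), (nat_lit 24889148), (nat_lit 18515096), (nat_lit 12482732)] (nat_lit 10526835)) p15_24_1 (nat_lit 4) (nat_lit 164) (nat_lit 165) = true := by decide +kernel
def p15_24_1_165 : pfC (piC [(nat_lit 37722612), (nat_lit 24889148), (nat_lit 18515096), (nat_lit 12482732)] (nat_lit 10526835)) p15_24_1 (nat_lit 4) (nat_lit 165) (nat_lit 166) = true := by decide +kernel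
def p15_24_1_166 : pfC (piC [(nat_lit 37722612), (nat_lit 24889148), (nat_lit 18515096), (nat_lit 12482732)] (nat_lit 10526835)) p15_24_1 (nat_lit 4) (nat_lit 166) (nat_lit 167) = true := by decide +kernel
def p15_24_1_167 : pfC (piC [(nat_lit 37722612), (nat_lit 24889148), (nat_lit 18515096), (nat_lit 12482732)] (nat_lit 10526835)) p15_24_1 (nat_lit 4) (nat_lit 167) (nat_lit 168) = true := by decide +kernel
def p15_24_1_168 : pfC (piC [(nat_lit 37722612), (nat_lit 24889148), (nat_lit 18515096), (nat_lit 12482732)] (nat_lit 10526835)) p15_24_1 (nat_lit 4) (nat_lit 168) (nat_lit 169) = true := by decide +kernel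
def p15_24_1_169 : pfC (piC [(nat_lit 37722612), (nat_lit 24889148), (nat_lit 18515096), (nat_lit 12482732)] (nat_lit 10526835)) p15_24_1 (nat_lit 4) (nat_lit 169) (nat_lit 170) = true := by decide +kernel
def p15_24_1_170 : pfC (piC [(nat_lit 37722612), (nat_lit 24889148), (nat_lit 18515096), (nat_lit 12482732)] (nat_lit 10526835)) p15_24_1 (nat_lit 4) (nat_lit 170) (nat_lit 171) = true := by decide +kernel
def p15_24_1_171 : pfC (piC [(nat_lit 37722612), (nat_lit 24889148), (nat_lit 18515096), (nat_lit 12482732)] (nat_lit 10526835)) p15_24_1 (nat_lit 4) (nat_lit 171) (nat_lit 172) = true := by decide +kernel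
def p15_24_1_172 : pfC (piC [(nat_lit 37722612), (nat_lit 24889148), (nat_lit 18515096), (nat_lit 12482732)] (nat_lit 10526835)) p15_24_1 (nat_lit 4) (nat_lit 172) (nat_lit 173) = true := by decide +kernel
theorem p15_24_1_T : PfS (PiF n15_24.reverse (nat_lit 10526835)) p15_24_1 (nat_lit 4) [] 0 :=
  pftab_of (los := [(nat_lit 37722612), (nat_lit 24889148), (nat_lit 18515096), (nat_lit 12482732)]) (by decide +kernel) (hi := (nat_lit 173)) (PfP.trans (PfP.trans (PfP.trans (PfP.trans (PfP.trans (PfP.trans (PfP.trans (PfP.trans (PfP.trans (PfP.trans (PfP.trans (PfP.trans (PfP.trans (PfP.trans (PfP.trans (PfP.trans (PfP.trans (PfP.trans (PfP.trans (PfP.trans (PfP.trans (PfP.trans (PfP.trans (PfP.trans (PfP.trans (PfP.trans (PfP.trans (PfP.trans (PfP.trans (PfP.trans (PfP.trans (PfP.trans (PfP.trans (PfP.trans (PfP.trans (PfP.trans (PfP.trans (PfP.trans (PfP.trans (PfP.trans (PfP.trans (PfP.trans (PfP.trans (PfP.trans (PfP.trans (PfP.trans (PfP.trans (PfP.trans (PfP.trans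 (PfP.trans (PfP.trans (PfP.trans (PfP.trans (PfP.trans (PfP.trans (PfP.trans (PfP.trans (PfP.trans (PfP.trans (PfP.trans (PfP.trans (PfP.trans (PfP.trans (PfP.trans (PfP.trans (PfP.trans (PfP.trans (PfP.trans (PfP.trans (PfP.trans (PfP.trans (PfP.trans (PfP.trans (PfP.trans (PfP.trans (PfP.trans (PfP.trans (PfP.trans (PfP.trans (PfP.trans (PfP.trans (PfP.trans (PfP.trans (PfP.trans (PfP.trans (PfP.trans (PfP.trans (PfP.trans (PfP.trans (PfP.trans (PfP.trans (PfP.trans (PfP.trans (PfP.trans (PfP.trans (PfP.trans (PfP.trans (PfP.trans (PfP.trans (PfP.trans (PfP.trans (PfP.trans (PfP.trans (PfP.trans (PfP.trans (PfP.trans (PfP.trans (PfP.trans (PfP.trans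
 (PfP.trans (PfP.trans (PfP.trans (PfP.trans (PfP.trans (PfP.trans (PfP.trans (PfP.trans (PfP.trans (PfP.trans (PfP.trans (PfP.trans (PfP.trans (PfP.trans (PfP.trans (PfP.trans (PfP.trans (PfP.trans (PfP.trans (PfP.trans (PfP.trans (PfP.trans (PfP.trans (PfP.trans (PfP.trans (PfP.trans (PfP.trans (PfP.trans (PfP.trans (PfP.trans (PfP.trans (PfP.trans (PfP.trans (PfP.trans (PfP.trans (PfP.trans (PfP.trans (PfP.trans (PfP.trans (PfP.trans (PfP.trans (PfP.trans (PfP.trans (PfP.trans (PfP.trans (PfP.trans (PfP.trans (PfP.trans (PfP.trans (PfP.trans (PfP.trans (PfP.trans (PfP.trans (PfP.trans (PfP.trans (PfP.trans (PfP.trans (PfP.trans (PfP.trans (PfP.trans (PfP.trans (PfP.trans (PfP.trans (pfC_sound p15_24_1_0) (pfC_sound p15_24_1_1)) (pfC_sound p15_24_1_2)) (pfC_sound p15_24_1_3)) (pfC_sound p15_24_1_4)) (pfC_sound p15_24_1_5)) (pfC_sound p15_24_1_6)) (pfC_sound p15_24_1_7)) (pfC_sound p15_24_1_8)) (pfC_sound p15_24_1_9)) (pfC_sound p15_24_1_10)) (pfC_sound p15_24_1_11))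 (pfC_sound p15_24_1_12)) (pfC_sound p15_24_1_13)) (pfC_sound p15_24_1_14)) (pfC_sound p15_24_1_15)) (pfC_sound p15_24_1_16)) (pfC_sound p15_24_1_17)) (pfC_sound p15_24_1_18)) (pfC_sound p15_24_1_19)) (pfC_sound
 p15_24_1_20)) (pfC_sound p15_24_1_21)) (pfC_sound p15_24_1_22)) (pfC_sound p15_24_1_23)) (pfC_sound p15_24_1_24)) (pfC_sound p15_24_1_25)) (pfC_sound p15_24_1_26)) (pfC_sound p15_24_1_27)) (pfC_sound p15_24_1_28)) (pfC_sound p15_24_1_29)) (pfC_sound p15_24_1_30)) (pfC_sound p15_24_1_31)) (pfC_sound p15_24_1_32)) (pfC_sound p15_24_1_33)) (pfC_sound p15_24_1_34)) (pfC_sound p15_24_1_35)) (pfC_sound p15_24_1_36)) (pfC_sound p15_24_1_37)) (pfC_sound p15_24_1_38)) (pfC_sound p15_24_1_39)) (pfC_sound p15_24_1_40)) (pfC_sound p15_24_1_41)) (pfC_sound p15_24_1_42)) (pfC_sound p15_24_1_43)) (pfC_sound p15_24_1_44)) (pfC_sound p15_24_1_45)) (pfC_sound p15_24_1_46)) (pfC_sound p15_24_1_47)) (pfC_sound p15_24_1_48)) (pfC_sound p15_24_1_49)) (pfC_sound p15_24_1_50)) (pfC_sound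 p15_24_1_51)) (pfC_sound p15_24_1_52)) (pfC_sound p15_24_1_53)) (pfC_sound p15_24_1_54)) (pfC_sound p15_24_1_55)) (pfC_sound p15_24_1_56)) (pfC_sound p15_24_1_57)) (pfC_sound p15_24_1_58)) (pfC_sound p15_24_1_59)) (pfC_sound p15_24_1_60)) (pfC_sound p15_24_1_61)) (pfC_sound p15_24_1_62)) (pfC_sound p15_24_1_63)) (pfC_sound p15_24_1_64)) (pfC_sound p15_24_1_65)) (pfC_sound p15_24_1_66)) (pfC_sound p15_24_1_67)) (pfC_sound
 p15_24_1_68)) (pfC_sound p15_24_1_69)) (pfC_sound p15_24_1_70)) (pfC_sound p15_24_1_71)) (pfC_sound p15_24_1_72)) (pfC_sound p15_24_1_73)) (pfC_sound p15_24_1_74)) (pfC_sound p15_24_1_75)) (pfC_sound p15_24_1_76)) (pfC_sound p15_24_1_77)) (pfC_sound p15_24_1_78)) (pfC_sound p15_24_1_79)) (pfC_sound p15_24_1_80)) (pfC_sound p15_24_1_81)) (pfC_sound p15_24_1_82)) (pfC_sound p15_24_1_83)) (pfC_sound p15_24_1_84)) (pfC_sound p15_24_1_85)) (pfC_sound p15_24_1_86)) (pfC_sound p15_24_1_87)) (pfC_sound p15_24_1_88)) (pfC_sound p15_24_1_89)) (pfC_sound p15_24_1_90))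 (pfC_sound p15_24_1_91)) (pfC_sound p15_24_1_92)) (pfC_sound p15_24_1_93)) (pfC_sound p15_24_1_94)) (pfC_sound p15_24_1_95)) (pfC_sound p15_24_1_96)) (pfC_sound p15_24_1_97)) (pfC_sound p15_24_1_98)) (pfC_sound p15_24_1_99)) (pfC_sound p15_24_1_100)) (pfC_sound p15_24_1_101)) (pfC_sound p15_24_1_102)) (pfC_sound p15_24_1_103)) (pfC_sound p15_24_1_104)) (pfC_sound p15_24_1_105)) (pfC_sound p15_24_1_106)) (pfC_sound p15_24_1_107)) (pfC_sound p15_24_1_108)) (pfC_sound p15_24_1_109)) (pfC_sound p15_24_1_110)) (pfC_sound p15_24_1_111)) (pfC_sound p15_24_1_112)) (pfC_sound p15_24_1_113)) (pfC_sound p15_24_1_114)) (pfC_sound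
 p15_24_1_115)) (pfC_sound p15_24_1_116)) (pfC_sound p15_24_1_117)) (pfC_sound p15_24_1_118)) (pfC_sound p15_24_1_119)) (pfC_sound p15_24_1_120)) (pfC_sound p15_24_1_121)) (pfC_sound p15_24_1_122)) (pfC_sound p15_24_1_123)) (pfC_sound p15_24_1_124)) (pfC_sound p15_24_1_125)) (pfC_sound p15_24_1_126)) (pfC_sound p15_24_1_127)) (pfC_sound p15_24_1_128)) (pfC_sound p15_24_1_129)) (pfC_sound p15_24_1_130)) (pfC_sound p15_24_1_131)) (pfC_sound p15_24_1_132)) (pfC_sound p15_24_1_133)) (pfC_sound p15_24_1_134)) (pfC_sound p15_24_1_135)) (pfC_sound p15_24_1_136)) (pfC_sound p15_24_1_137)) (pfC_sound p15_24_1_138)) (pfC_sound p15_24_1_139)) (pfC_sound p15_24_1_140)) (pfC_sound p15_24_1_141)) (pfC_sound p15_24_1_142)) (pfC_sound p15_24_1_143)) (pfC_sound p15_24_1_144)) (pfC_sound p15_24_1_145)) (pfC_sound p15_24_1_146)) (pfC_sound p15_24_1_147)) (pfC_sound p15_24_1_148)) (pfC_sound p15_24_1_149)) (pfC_sound p15_24_1_150)) (pfC_sound p15_24_1_151)) (pfC_sound p15_24_1_152)) (pfC_sound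 p15_24_1_153)) (pfC_sound p15_24_1_154)) (pfC_sound p15_24_1_155)) (pfC_sound p15_24_1_156)) (pfC_sound p15_24_1_157)) (pfC_sound p15_24_1_158)) (pfC_sound p15_24_1_159)) (pfC_sound p15_24_1_160)) (pfC_sound
 p15_24_1_161)) (pfC_sound p15_24_1_162)) (pfC_sound p15_24_1_163)) (pfC_sound p15_24_1_164)) (pfC_sound p15_24_1_165)) (pfC_sound p15_24_1_166)) (pfC_sound p15_24_1_167)) (pfC_sound p15_24_1_168)) (pfC_sound p15_24_1_169)) (pfC_sound p15_24_1_170)) (pfC_sound p15_24_1_171)) (pfC_sound p15_24_1_172)) (by decide +kernel)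

def z15_24_1 : zOK yB15_24 (nat_lit 1) (nat_lit 400) (nat_lit 600) (nat_lit 10526835) (nat_lit 6713858) = true := by decide +kernel
def g15_24_1 : gOK yB15_24.x P15_24 (nat_lit 1415) (q15_24 :: r15_24) (nat_lit 1) (nat_lit 400) (nat_lit 2) (nat_lit 600) (nat_lit 11000000) (nat_lit 17850000) (nat_lit 12712500) (nat_lit 12712500) [(nat_lit 800), (nat_lit 1130)] = true := by decide +kernel
def v15_24_1 : ivC P15_24 s15_24 w15_24 n15_24 (nat_lit 4) (nat_lit 4975) (nat_lit 1) (nat_lit 400) f160_1_400 f168_1_400 (nat_lit 2) (nat_lit 600) f160_1_600 f168_1_600 (nat_lit 10526835) (nat_lit 6713858) p15_24_1 = true := by decide +kernel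
def p15_24_2 : PF := (PF.cons (PF.cons (PF.cons (PF.cons (PF.leaf (nat_lit 2741699) (nat_lit 15947494) (nat_lit 51161318) (nat_lit 15947494) [(nat_lit 0), (nat_lit 0), (nat_lit 0), (nat_lit 0)]) (PF.cons (PF.leaf (nat_lit 2923521) (nat_lit 326222) (nat_lit 50856563) (nat_lit 15926027) [(nat_lit 326222), (nat_lit 0), (nat_lit 0), (nat_lit 0)]) (PF.cons (PF.leaf (nat_lit 3137744) (nat_lit 354185) (nat_lit 50501182) (nat_lit 15899260) [(nat_lit 354185), (nat_lit 0), (nat_lit 0), (nat_lit 0)]) (PF.cons (PF.leaf (nat_lit 3377617) (nat_lit 378784) (nat_lit 50105154) (nat_lit 15867304) [(nat_lit 378784), (nat_lit 0), (nat_lit 0), (nat_lit 0)]) (PF.cons (PF.leaf (nat_lit 3639183) (nat_lit 400752) (nat_lit 49675622) (nat_lit 15830181) [(nat_lit 400752), (nat_lit 0), (nat_lit 0), (nat_lit 0)]) (PF.cons (PF.leaf (nat_lit 3919440) (nat_lit 420556) (nat_lit 49218132) (nat_lit 15787897) [(nat_lit 420556), (nat_lit 0), (nat_lit 0), (nat_lit 0)]) (PF.cons (PF.leaf (nat_lit 4215827)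 (nat_lit 438521) (nat_lit 48737209) (nat_lit 15740473) [(nat_lit 438521), (nat_lit 0), (nat_lit 0), (nat_lit 0)]) (PF.cons (PF.leaf (nat_lit 4526258) (nat_lit 454884) (nat_lit 48236665) (nat_lit 15687959) [(nat_lit 454884), (nat_lit 0),
 (nat_lit 0), (nat_lit 0)]) (PF.cons (PF.leaf (nat_lit 4848891) (nat_lit 469823) (nat_lit 47719785) (nat_lit 15630435) [(nat_lit 469823), (nat_lit 0), (nat_lit 0), (nat_lit 0)]) (PF.cons (PF.leaf (nat_lit 5182101) (nat_lit 483483) (nat_lit 47189440) (nat_lit 15568017) [(nat_lit 483483), (nat_lit 0), (nat_lit 0), (nat_lit 0)]) (PF.cons PF.nil (PF.cons PF.nil PF.nil)))))))))))) (PF.cons (PF.cons (PF.leaf (nat_lit 3314663) (nat_lit 1376570) (nat_lit 49888117) (nat_lit 15844124) [(nat_lit 0), (nat_lit 1376570), (nat_lit 0), (nat_lit 0)]) (PF.cons (PF.leaf (nat_lit 3546283) (nat_lit 388113) (nat_lit 49499513) (nat_lit 15809441) [(nat_lit 388113), (nat_lit 1411745), (nat_lit 0), (nat_lit 0)]) (PF.cons (PF.leaf (nat_lit 3801822) (nat_lit 409312)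 (nat_lit 49075324) (nat_lit 15769288) [(nat_lit 409312), (nat_lit 1445575), (nat_lit 0), (nat_lit 0)]) (PF.cons (PF.leaf (nat_lit 4076890) (nat_lit 428347) (nat_lit 48622358) (nat_lit 15723830) [(nat_lit 428347), (nat_lit 1477580), (nat_lit 0), (nat_lit 0)]) (PF.cons (PF.leaf (nat_lit 4368553) (nat_lit 445573) (nat_lit 48145775) (nat_lit 15673190) [(nat_lit 445573), (nat_lit 1507552), (nat_lit 0), (nat_lit 0)]) (PF.cons (PF.leaf (nat_lit 4674502)
 (nat_lit 461235) (nat_lit 47649727) (nat_lit 15617489) [(nat_lit 461235), (nat_lit 1535418), (nat_lit 0), (nat_lit 0)]) (PF.cons (PF.leaf (nat_lit 4992768) (nat_lit 475517) (nat_lit 47137674) (nat_lit 15556858) [(nat_lit 475517), (nat_lit 1561177), (nat_lit 0), (nat_lit 0)]) (PF.cons (PF.leaf (nat_lit 5321669) (nat_lit 488560) (nat_lit 46612571) (nat_lit 15491451) [(nat_lit 488560), (nat_lit 1584869), (nat_lit 0), (nat_lit 0)]) (PF.cons PF.nil (PF.cons PF.nil PF.nil)))))))))) (PF.cons (PF.cons (PF.leaf (nat_lit 3967685) (nat_lit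 1471549) (nat_lit 48463237) (nat_lit 15702475) [(nat_lit 0), (nat_lit 1471549), (nat_lit 0), (nat_lit 0)]) (PF.cons (PF.leaf (nat_lit 4235409) (nat_lit 434910) (nat_lit 48018883) (nat_lit 15654443) [(nat_lit 434910), (nat_lit 1500287), (nat_lit 0), (nat_lit 0)]) (PF.cons (PF.leaf (nat_lit 4521231) (nat_lit 451597) (nat_lit 47549652) (nat_lit 15601091) [(nat_lit 451597), (nat_lit 1527437), (nat_lit 0), (nat_lit 0)]) (PF.cons (PF.leaf (nat_lit 4821891) (nat_lit 466707) (nat_lit 47060410) (nat_lit 15542646) [(nat_lit 466707), (nat_lit 1552817), (nat_lit 0), (nat_lit 0)]) (PF.cons (PF.leaf (nat_lit 5135234) (nat_lit 480444) (nat_lit 46555008) (nat_lit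
 15479310) [(nat_lit 480444), (nat_lit 1576358), (nat_lit 0), (nat_lit 0)]) (PF.cons (PF.leaf (nat_lit 5459385) (nat_lit 492960) (nat_lit 46036619) (nat_lit 15411284) [(nat_lit 492960), (nat_lit 1598052), (nat_lit 0), (nat_lit 0)]) (PF.cons (PF.leaf (nat_lit 5792776) (nat_lit 504375) (nat_lit 45507928) (nat_lit 15338777) [(nat_lit 504375), (nat_lit 1617925), (nat_lit 0), (nat_lit 0)]) (PF.cons PF.nil (PF.cons PF.nil PF.nil))))))))) (PF.cons (PF.cons (PF.leaf (nat_lit 4675442) (nat_lit 1545446) (nat_lit 46948317) (nat_lit 15524157) [(nat_lit 0), (nat_lit 1545446), (nat_lit 0), (nat_lit 0)]) (PF.cons (PF.leaf (nat_lit 4969348) (nat_lit 471313) (nat_lit 46468511) (nat_lit 15463485) [(nat_lit 471313), (nat_lit 1568501), (nat_lit 0), (nat_lit 0)]) (PF.cons (PF.leaf (nat_lit 5276977) (nat_lit 484624) (nat_lit 45971753) (nat_lit 15397891) [(nat_lit 484624), (nat_lit 1589972), (nat_lit 0), (nat_lit 0)]) (PF.cons (PF.leaf (nat_lit 5595824) (nat_lit 496707) (nat_lit 45461634)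 (nat_lit 15327645) [(nat_lit 496707), (nat_lit 1609803), (nat_lit 0), (nat_lit 0)]) (PF.cons (PF.leaf (nat_lit 5924153) (nat_lit 507693) (nat_lit 44941078) (nat_lit 15253003) [(nat_lit 507693), (nat_lit 1627985),
 (nat_lit 0), (nat_lit 0)]) (PF.cons (PF.leaf (nat_lit 6260521) (nat_lit 517686) (nat_lit 44412535) (nat_lit 15174211) [(nat_lit 517686), (nat_lit 1644543), (nat_lit 0), (nat_lit 0)]) (PF.cons PF.nil PF.nil))))))) (PF.cons (PF.cons (PF.leaf (nat_lit 5419182) (nat_lit 1602156) (nat_lit 45387544) (nat_lit 15312644) [(nat_lit 0), (nat_lit 1602156), (nat_lit 0), (nat_lit 0)]) (PF.cons (PF.leaf (nat_lit 5731640) (nat_lit 499806) (nat_lit 44887439) (nat_lit 15240620) [(nat_lit 499806), (nat_lit 1620236), (nat_lit 0), (nat_lit 0)]) (PF.cons (PF.leaf (nat_lit 6054403) (nat_lit 510442) (nat_lit 44376361) (nat_lit 15164231) [(nat_lit 510442), (nat_lit 1636834), (nat_lit 0), (nat_lit 0)]) (PF.cons (PF.leaf (nat_lit 6385483) (nat_lit 520082) (nat_lit 43857010) (nat_lit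 15083768) [(nat_lit 520082), (nat_lit 1651946), (nat_lit 0), (nat_lit 0)]) (PF.cons PF.nil PF.nil))))) (PF.cons (PF.cons (PF.leaf (nat_lit 6184426) (nat_lit 1644558) (nat_lit 43813492) (nat_lit 15072529) [(nat_lit 0), (nat_lit 1644558), (nat_lit 0), (nat_lit 0)]) (PF.cons (PF.leaf (nat_lit 6509406) (nat_lit 521979) (nat_lit 43304501) (nat_lit 14990767) [(nat_lit 521979), (nat_lit 1658312), (nat_lit 0), (nat_lit 0)]) (PF.cons
 (PF.leaf (nat_lit 6841989) (nat_lit 530427) (nat_lit 42789077) (nat_lit 14905272) [(nat_lit 530427), (nat_lit 1670721), (nat_lit 0), (nat_lit 0)]) (PF.cons PF.nil PF.nil)))) (PF.cons (PF.cons (PF.leaf (nat_lit 6959875) (nat_lit 1674953) (nat_lit 42250207) (nat_lit 14808882) [(nat_lit 0), (nat_lit 1674953), (nat_lit 0), (nat_lit 0)]) (PF.cons PF.nil PF.nil)) (PF.cons PF.nil (PF.cons PF.nil PF.nil))))))))) (PF.cons (PF.cons (PF.cons (PF.leaf (nat_lit 3863173) (nat_lit 3475164) (nat_lit 48003342) (nat_lit 15630305) [(nat_lit 0), (nat_lit 0), (nat_lit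 3475164), (nat_lit 0)]) (PF.cons (PF.leaf (nat_lit 4103340) (nat_lit 412364) (nat_lit 47607756) (nat_lit 15585851) [(nat_lit 412364), (nat_lit 0), (nat_lit 3502840), (nat_lit 0)]) (PF.cons (PF.leaf (nat_lit 4366019) (nat_lit 431885) (nat_lit 47179522) (nat_lit 15535590) [(nat_lit 431885), (nat_lit 0), (nat_lit 3529930), (nat_lit 0)]) (PF.cons (PF.leaf (nat_lit 4646681) (nat_lit 449168) (nat_lit 46725628) (nat_lit 15479943) [(nat_lit 449168), (nat_lit 0), (nat_lit 3555734), (nat_lit 0)]) (PF.cons (PF.leaf (nat_lit 4942414) (nat_lit 464632) (nat_lit 46251239) (nat_lit 15419222) [(nat_lit 464632), (nat_lit 0), (nat_lit 3579819), (nat_lit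
 0)]) (PF.cons (PF.leaf (nat_lit 5250910) (nat_lit 478559) (nat_lit 45760404) (nat_lit 15353692) [(nat_lit 478559), (nat_lit 0), (nat_lit 3601920), (nat_lit 0)]) (PF.cons (PF.leaf (nat_lit 5570237) (nat_lit 491151) (nat_lit 45256421) (nat_lit 15283600) [(nat_lit 491151), (nat_lit 0), (nat_lit 3621880), (nat_lit 0)]) (PF.cons (PF.leaf (nat_lit 5898842) (nat_lit 502564) (nat_lit 44742056) (nat_lit 15209183) [(nat_lit 502564), (nat_lit 0), (nat_lit 3639620), (nat_lit 0)]) (PF.cons PF.nil (PF.cons PF.nil PF.nil)))))))))) (PF.cons (PF.cons (PF.leaf (nat_lit 4525346) (nat_lit 1521961) (nat_lit 46577368) (nat_lit 15456676) [(nat_lit 0), (nat_lit 1521961), (nat_lit 3552806), (nat_lit 0)]) (PF.cons (PF.leaf (nat_lit 4797812) (nat_lit 453631) (nat_lit 46134866) (nat_lit 15399371) [(nat_lit 453631), (nat_lit 1545798), (nat_lit 3575145), (nat_lit 0)]) (PF.cons (PF.leaf (nat_lit 5086967) (nat_lit 468752) (nat_lit 45670272) (nat_lit 15336819) [(nat_lit 468752), (nat_lit 1568139),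 (nat_lit 3596075), (nat_lit 0)]) (PF.cons (PF.leaf (nat_lit 5389585) (nat_lit 482295) (nat_lit 45188385) (nat_lit 15269402) [(nat_lit 482295), (nat_lit 1588859), (nat_lit 3615278), (nat_lit 0)]) (PF.cons (PF.leaf
 (nat_lit 5703536) (nat_lit 494491) (nat_lit 44692921) (nat_lit 15197437) [(nat_lit 494491), (nat_lit 1607922), (nat_lit 3632565), (nat_lit 0)]) (PF.cons (PF.leaf (nat_lit 6027003) (nat_lit 505508) (nat_lit 44186887) (nat_lit 15121214) [(nat_lit 505508), (nat_lit 1625337), (nat_lit 3647831), (nat_lit 0)]) (PF.cons (PF.leaf (nat_lit 6358494) (nat_lit 515476) (nat_lit 43672779) (nat_lit 15041002) [(nat_lit 515476), (nat_lit 1641139), (nat_lit 3661030), (nat_lit 0)]) (PF.cons PF.nil (PF.cons PF.nil PF.nil))))))))) (PF.cons (PF.cons (PF.leaf (nat_lit 5233219) (nat_lit 1581121) (nat_lit 45086366) (nat_lit 15250356) [(nat_lit 0), (nat_lit 1581121), (nat_lit 3609846), (nat_lit 0)]) (PF.cons (PF.leaf (nat_lit 5528558) (nat_lit 485290) (nat_lit 44615698) (nat_lit 15181566)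 [(nat_lit 485290), (nat_lit 1599962), (nat_lit 3626332), (nat_lit 0)]) (PF.cons (PF.leaf (nat_lit 5836353) (nat_lit 497195) (nat_lit 44130437) (nat_lit 15108163) [(nat_lit 497195), (nat_lit 1617350), (nat_lit 3641120), (nat_lit 0)]) (PF.cons (PF.leaf (nat_lit 6154176) (nat_lit 507898) (nat_lit 43634022) (nat_lit 15030508) [(nat_lit 507898), (nat_lit 1633254), (nat_lit 3654079), (nat_lit 0)]) (PF.cons (PF.leaf (nat_lit
 6480383) (nat_lit 517544) (nat_lit 43129203) (nat_lit 14948920) [(nat_lit 517544), (nat_lit 1647682), (nat_lit 3665144), (nat_lit 0)]) (PF.cons PF.nil (PF.cons PF.nil PF.nil))))))) (PF.cons (PF.cons (PF.leaf (nat_lit 5969855) (nat_lit 1625631) (nat_lit 43568449) (nat_lit 15015784) [(nat_lit 0), (nat_lit 1625631), (nat_lit 3647684), (nat_lit 0)]) (PF.cons (PF.leaf (nat_lit 6281003) (nat_lit 509730) (nat_lit 43083140) (nat_lit 14937117) [(nat_lit 509730), (nat_lit 1640111), (nat_lit 3658489), (nat_lit 0)]) (PF.cons (PF.leaf (nat_lit 6601391) (nat_lit 519126)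 (nat_lit 42588732) (nat_lit 14854513) [(nat_lit 519126), (nat_lit 1653249), (nat_lit 3667565), (nat_lit 0)]) (PF.cons (PF.leaf (nat_lit 6929112) (nat_lit 527567) (nat_lit 42087752) (nat_lit 14768311) [(nat_lit 527567), (nat_lit 1665057), (nat_lit 3674875), (nat_lit 0)]) (PF.cons PF.nil PF.nil))))) (PF.cons (PF.cons (PF.leaf (nat_lit 6722435) (nat_lit 1657906) (nat_lit 42050979) (nat_lit 14757813) [(nat_lit 0), (nat_lit 1657906), (nat_lit 3668394), (nat_lit 0)]) (PF.cons (PF.leaf (nat_lit 7043927) (nat_lit 528456) (nat_lit 41560956) (nat_lit 14670978) [(nat_lit 528456), (nat_lit 1668607), (nat_lit 3673993), (nat_lit 0)]) (PF.cons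
 PF.nil (PF.cons PF.nil PF.nil)))) (PF.cons (PF.cons (PF.leaf (nat_lit 7481100) (nat_lit 1679914) (nat_lit 40553688) (nat_lit 14481327) [(nat_lit 0), (nat_lit 1679914), (nat_lit 3674225), (nat_lit 0)]) (PF.cons PF.nil PF.nil)) (PF.cons PF.nil (PF.cons PF.nil PF.nil)))))))) (PF.cons (PF.cons (PF.cons (PF.leaf (nat_lit 5068722) (nat_lit 3588106) (nat_lit 44750117) (nat_lit 15182483) [(nat_lit 0), (nat_lit 0), (nat_lit 3588106), (nat_lit 0)]) (PF.cons (PF.leaf (nat_lit 5343764) (nat_lit 468026) (nat_lit 44314720) (nat_lit 15117788) [(nat_lit 468026), (nat_lit 0), (nat_lit 3604138), (nat_lit 0)]) (PF.cons (PF.leaf (nat_lit 5634266) (nat_lit 481774) (nat_lit 43859642) (nat_lit 15048017) [(nat_lit 481774), (nat_lit 0), (nat_lit 3618801), (nat_lit 0)]) (PF.cons (PF.leaf (nat_lit 5937060) (nat_lit 493954) (nat_lit 43389548) (nat_lit 14973670) [(nat_lit 493954), (nat_lit 0), (nat_lit 3631865), (nat_lit 0)]) (PF.cons (PF.leaf (nat_lit 6249995) (nat_lit 504817) (nat_lit 42907995)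 (nat_lit 14895149) [(nat_lit 504817), (nat_lit 0), (nat_lit 3643199), (nat_lit 0)]) (PF.cons (PF.leaf (nat_lit 6571367) (nat_lit 514544) (nat_lit 42417808) (nat_lit 14812802) [(nat_lit 514544), (nat_lit 0), (nat_lit
 3652739), (nat_lit 0)]) (PF.cons PF.nil PF.nil))))))) (PF.cons (PF.cons (PF.leaf (nat_lit 5772527) (nat_lit 1605298) (nat_lit 43297220) (nat_lit 14954612) [(nat_lit 0), (nat_lit 1605298), (nat_lit 3625840), (nat_lit 0)]) (PF.cons (PF.leaf (nat_lit 6067666) (nat_lit 495646) (nat_lit 42839444) (nat_lit 14879634) [(nat_lit 495646), (nat_lit 1620630), (nat_lit 3636728), (nat_lit 0)]) (PF.cons (PF.leaf (nat_lit 6374177) (nat_lit 506326) (nat_lit 42369039) (nat_lit 14800379) [(nat_lit 506326), (nat_lit 1634619), (nat_lit 3646061), (nat_lit 0)]) (PF.cons (PF.leaf (nat_lit 6689698) (nat_lit 515834) (nat_lit 41889271) (nat_lit 14717272) [(nat_lit 515834), (nat_lit 1647258), (nat_lit 3653753), (nat_lit 0)]) (PF.cons (PF.leaf (nat_lit 7012642) (nat_lit 524327) (nat_lit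 41402719) (nat_lit 14630674) [(nat_lit 524327), (nat_lit 1658568), (nat_lit 3659770), (nat_lit 0)]) PF.nil))))) (PF.cons (PF.cons (PF.leaf (nat_lit 6499249) (nat_lit 1639768) (nat_lit 41831538) (nat_lit 14703119) [(nat_lit 0), (nat_lit 1639768), (nat_lit 3647308), (nat_lit 0)]) (PF.cons (PF.leaf (nat_lit 6807921) (nat_lit 516637) (nat_lit 41363477) (nat_lit 14619643) [(nat_lit 516637), (nat_lit 1651245), (nat_lit 3653281),
 (nat_lit 0)]) (PF.cons (PF.leaf (nat_lit 7124923) (nat_lit 524961) (nat_lit 40887827) (nat_lit 14532637) [(nat_lit 524961), (nat_lit 1661502), (nat_lit 3657710), (nat_lit 0)]) (PF.cons PF.nil PF.nil)))) (PF.cons (PF.cons (PF.leaf (nat_lit 7237465) (nat_lit 1663692) (nat_lit 40376175) (nat_lit 14432836) [(nat_lit 0), (nat_lit 1663692), (nat_lit 3654361), (nat_lit 0)]) (PF.cons (PF.leaf (nat_lit 7554681) (nat_lit 532439) (nat_lit 39906496) (nat_lit 14342580) [(nat_lit 532439), (nat_lit 1671849), (nat_lit 3655874), (nat_lit 0)]) PF.nil)) (PF.cons PF.nil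 (PF.cons PF.nil PF.nil)))))) (PF.cons (PF.cons (PF.cons (PF.leaf (nat_lit 6292712) (nat_lit 3625753) (nat_lit 41587607) (nat_lit 14643943) [(nat_lit 0), (nat_lit 0), (nat_lit 3625753), (nat_lit 0)]) (PF.cons (PF.leaf (nat_lit 6586384) (nat_lit 503033) (nat_lit 41145173) (nat_lit 14564444) [(nat_lit 503033), (nat_lit 0), (nat_lit 3632053), (nat_lit 0)]) (PF.cons (PF.leaf (nat_lit 6890512) (nat_lit 512640) (nat_lit 40691747) (nat_lit 14481006) [(nat_lit 512640), (nat_lit 0), (nat_lit 3636926), (nat_lit 0)]) (PF.cons (PF.leaf (nat_lit 7202776) (nat_lit 521109) (nat_lit 40230419) (nat_lit 14394095) [(nat_lit 521109), (nat_lit 0), (nat_lit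
 3640322), (nat_lit 0)]) (PF.cons PF.nil PF.nil))))) (PF.cons (PF.cons (PF.leaf (nat_lit 7007503) (nat_lit 1646402) (nat_lit 40179808) (nat_lit 14380705) [(nat_lit 0), (nat_lit 1646402), (nat_lit 3633965), (nat_lit 0)]) (PF.cons (PF.leaf (nat_lit 7312827) (nat_lit 521074) (nat_lit 39730431) (nat_lit 14293954) [(nat_lit 521074), (nat_lit 1655362), (nat_lit 3635996), (nat_lit 0)]) (PF.cons (PF.leaf (nat_lit 7625711) (nat_lit 528466) (nat_lit 39274684) (nat_lit 14204049) [(nat_lit 528466), (nat_lit 1663210), (nat_lit 3636645), (nat_lit 0)]) (PF.cons PF.nil PF.nil)))) (PF.cons (PF.cons (PF.leaf (nat_lit 7730270) (nat_lit 1663415) (nat_lit 38789290) (nat_lit 14102660) [(nat_lit 0), (nat_lit 1663415), (nat_lit 3630009), (nat_lit 0)]) (PF.cons PF.nil PF.nil)) (PF.cons PF.nil (PF.cons PF.nil PF.nil))))) (PF.cons (PF.cons (PF.cons (PF.leaf (nat_lit 7495109) (nat_lit 3610453) (nat_lit 38613615) (nat_lit 14053385) [(nat_lit 0), (nat_lit 0), (nat_lit 3610453), (nat_lit 0)]) (PF.cons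 (PF.leaf (nat_lit 7796429) (nat_lit 523484) (nat_lit 38183619) (nat_lit 13964622) [(nat_lit 523484), (nat_lit 0), (nat_lit 3609271), (nat_lit 0)]) (PF.cons (PF.leaf (nat_lit 8104675) (nat_lit 530064) (nat_lit
 37748240) (nat_lit 13873043) [(nat_lit 530064), (nat_lit 0), (nat_lit 3606849), (nat_lit 0)]) (PF.cons PF.nil PF.nil)))) (PF.cons (PF.cons (PF.leaf (nat_lit 8201776) (nat_lit 1658281) (nat_lit 37288698) (nat_lit 13771259) [(nat_lit 0), (nat_lit 1658281), (nat_lit 3597643), (nat_lit 0)]) (PF.cons PF.nil PF.nil)) (PF.cons PF.nil PF.nil))) (PF.cons (PF.cons (PF.cons (PF.leaf (nat_lit 8653039) (nat_lit 3559108) (nat_lit 35871564) (nat_lit 13441703) [(nat_lit 0), (nat_lit 0), (nat_lit 3559108), (nat_lit 0)]) (PF.cons PF.nil PF.nil)) (PF.cons PF.nil PF.nil)) (PF.cons PF.nil (PF.cons PF.nil PF.nil)))))))) (PF.cons (PF.cons (PF.cons (PF.cons (PF.leaf (nat_lit 4733834) (nat_lit 8767852) (nat_lit 43467731) (nat_lit 14873228) [(nat_lit 0), (nat_lit 0), (nat_lit 0), (nat_lit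 8767852)]) (PF.cons (PF.leaf (nat_lit 4970625) (nat_lit 421182) (nat_lit 43111387) (nat_lit 14818796) [(nat_lit 421182), (nat_lit 0), (nat_lit 0), (nat_lit 8757446)]) (PF.cons (PF.leaf (nat_lit 5228213) (nat_lit 439226) (nat_lit 42727263) (nat_lit 14758558) [(nat_lit 439226), (nat_lit 0), (nat_lit 0), (nat_lit 8744537)]) (PF.cons (PF.leaf (nat_lit 5502044) (nat_lit 454905) (nat_lit 42321776) (nat_lit 14693242) [(nat_lit
 454905), (nat_lit 0), (nat_lit 0), (nat_lit 8729077)]) (PF.cons (PF.leaf (nat_lit 5789217) (nat_lit 468694) (nat_lit 41899602) (nat_lit 14623384) [(nat_lit 468694), (nat_lit 0), (nat_lit 0), (nat_lit 8711047)]) (PF.cons (PF.leaf (nat_lit 6087480) (nat_lit 480919) (nat_lit 41464351) (nat_lit 14549410) [(nat_lit 480919), (nat_lit 0), (nat_lit 0), (nat_lit 8690455)]) (PF.cons (PF.leaf (nat_lit 6395031) (nat_lit 491812) (nat_lit 41018917) (nat_lit 14471683) [(nat_lit 491812), (nat_lit 0), (nat_lit 0), (nat_lit 8667339)]) (PF.cons (PF.leaf (nat_lit 6710358)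 (nat_lit 501550) (nat_lit 40565681) (nat_lit 14390523) [(nat_lit 501550), (nat_lit 0), (nat_lit 0), (nat_lit 8641755)]) (PF.cons PF.nil (PF.cons PF.nil PF.nil)))))))))) (PF.cons (PF.cons (PF.leaf (nat_lit 5372899) (nat_lit 1527228) (nat_lit 42194959) (nat_lit 14668457) [(nat_lit 0), (nat_lit 1527228), (nat_lit 0), (nat_lit 8718167)]) (PF.cons (PF.leaf (nat_lit 5637979) (nat_lit 457407) (nat_lit 41801296) (nat_lit 14602877) [(nat_lit 457407), (nat_lit 1546246), (nat_lit 0), (nat_lit 8700984)]) (PF.cons (PF.leaf (nat_lit 5918140) (nat_lit 470974) (nat_lit 41389353) (nat_lit 14532526) [(nat_lit 470974), (nat_lit 1563747), (nat_lit 0),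
 (nat_lit 8681235)]) (PF.cons (PF.leaf (nat_lit 6210205) (nat_lit 482932) (nat_lit 40963411) (nat_lit 14457954) [(nat_lit 482932), (nat_lit 1579686), (nat_lit 0), (nat_lit 8658964)]) (PF.cons (PF.leaf (nat_lit 6512131) (nat_lit 493540) (nat_lit 40526738) (nat_lit 14379595) [(nat_lit 493540), (nat_lit 1594082), (nat_lit 0), (nat_lit 8634232)]) (PF.cons (PF.leaf (nat_lit 6822206) (nat_lit 502992) (nat_lit 40081938) (nat_lit 14297818) [(nat_lit 502992), (nat_lit 1606983), (nat_lit 0), (nat_lit 8607110)]) (PF.cons (PF.leaf (nat_lit 7139045) (nat_lit 511431) (nat_lit 39631140) (nat_lit 14212943) [(nat_lit 511431), (nat_lit 1618454), (nat_lit 0), (nat_lit 8577683)]) (PF.cons PF.nil (PF.cons PF.nil PF.nil))))))))) (PF.cons (PF.cons (PF.leaf (nat_lit 6048945) (nat_lit 1571510) (nat_lit 40877899) (nat_lit 14438916) [(nat_lit 0), (nat_lit 1571510), (nat_lit 0), (nat_lit 8648976)]) (PF.cons (PF.leaf (nat_lit 6333503) (nat_lit 484319) (nat_lit 40463061) (nat_lit 14364203) [(nat_lit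 484319), (nat_lit 1585970), (nat_lit 0), (nat_lit 8625287)]) (PF.cons (PF.leaf (nat_lit 6629127) (nat_lit 494744) (nat_lit 40036448) (nat_lit 14285582) [(nat_lit 494744), (nat_lit 1599064), (nat_lit 0), (nat_lit
 8599164)]) (PF.cons (PF.leaf (nat_lit 6933492) (nat_lit 503984) (nat_lit 39601050) (nat_lit 14203494) [(nat_lit 503984), (nat_lit 1610804), (nat_lit 0), (nat_lit 8570706)]) (PF.cons (PF.leaf (nat_lit 7245034) (nat_lit 512201) (nat_lit 39159228) (nat_lit 14118308) [(nat_lit 512201), (nat_lit 1621230), (nat_lit 0), (nat_lit 8540010)]) (PF.cons PF.nil (PF.cons PF.nil PF.nil))))))) (PF.cons (PF.cons (PF.leaf (nat_lit 6747118) (nat_lit 1603195) (nat_lit 39547460) (nat_lit 14189593) [(nat_lit 0), (nat_lit 1603195), (nat_lit 0), (nat_lit 8562173)]) (PF.cons (PF.leaf (nat_lit 7044791) (nat_lit 504516) (nat_lit 39122618) (nat_lit 14107544) [(nat_lit 504516), (nat_lit 1613846), (nat_lit 0), (nat_lit 8532593)]) (PF.cons (PF.leaf (nat_lit 7350591) (nat_lit 512576) (nat_lit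 38690619) (nat_lit 14022336) [(nat_lit 512576), (nat_lit 1623294), (nat_lit 0), (nat_lit 8500819)]) (PF.cons (PF.leaf (nat_lit 7662703) (nat_lit 519722) (nat_lit 38253619) (nat_lit 13934336) [(nat_lit 519722), (nat_lit 1631573), (nat_lit 0), (nat_lit 8466969)]) (PF.cons PF.nil PF.nil))))) (PF.cons (PF.cons (PF.leaf (nat_lit 7456594) (nat_lit 1624693) (nat_lit 38224881) (nat_lit 13925008) [(nat_lit 0), (nat_lit 1624693),
 (nat_lit 0), (nat_lit 8460148)]) (PF.cons (PF.leaf (nat_lit 7762632) (nat_lit 519576) (nat_lit 37797958) (nat_lit 13837242) [(nat_lit 519576), (nat_lit 1632144), (nat_lit 0), (nat_lit 8425455)]) (PF.cons PF.nil (PF.cons PF.nil PF.nil)))) (PF.cons (PF.cons (PF.leaf (nat_lit 8169266) (nat_lit 1637845) (nat_lit 36924928) (nat_lit 13649224) [(nat_lit 0), (nat_lit 1637845), (nat_lit 0), (nat_lit 8345431)]) (PF.cons PF.nil PF.nil)) (PF.cons PF.nil (PF.cons PF.nil PF.nil)))))))) (PF.cons (PF.cons (PF.cons (PF.leaf (nat_lit 5873680) (nat_lit 3524676) (nat_lit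 40598778) (nat_lit 14373060) [(nat_lit 0), (nat_lit 0), (nat_lit 3524676), (nat_lit 8612298)]) (PF.cons (PF.leaf (nat_lit 6139599) (nat_lit 467215) (nat_lit 40214642) (nat_lit 14303246) [(nat_lit 467215), (nat_lit 0), (nat_lit 3533620), (nat_lit 8590086)]) (PF.cons (PF.leaf (nat_lit 6419555) (nat_lit 479576) (nat_lit 39814131) (nat_lit 14228891) [(nat_lit 479576), (nat_lit 0), (nat_lit 3541268), (nat_lit 8565367)]) (PF.cons (PF.leaf (nat_lit 6710445) (nat_lit 490364) (nat_lit 39401353) (nat_lit 14150606) [(nat_lit 490364), (nat_lit 0), (nat_lit 3547495), (nat_lit 8538264)]) (PF.cons (PF.leaf (nat_lit 7010259) (nat_lit 499851)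
 (nat_lit 38979404) (nat_lit 14068869) [(nat_lit 499851), (nat_lit 0), (nat_lit 3552242), (nat_lit 8508891)]) (PF.cons (PF.leaf (nat_lit 7317367) (nat_lit 508234) (nat_lit 38550717) (nat_lit 13984071) [(nat_lit 508234), (nat_lit 0), (nat_lit 3555495), (nat_lit 8477359)]) (PF.cons PF.nil PF.nil))))))) (PF.cons (PF.cons (PF.leaf (nat_lit 6543069) (nat_lit 1583232) (nat_lit 39324296) (nat_lit 14132196) [(nat_lit 0), (nat_lit 1583232), (nat_lit 3540957), (nat_lit 8528129)]) (PF.cons (PF.leaf (nat_lit 6826274) (nat_lit 490771) (nat_lit 38923121) (nat_lit 14054270) [(nat_lit 490771), (nat_lit 1594941), (nat_lit 3545644), (nat_lit 8500064)]) (PF.cons (PF.leaf (nat_lit 7119687) (nat_lit 500164) (nat_lit 38511637) (nat_lit 13972736) [(nat_lit 500164), (nat_lit 1605397), (nat_lit 3548981), (nat_lit 8469730)]) (PF.cons (PF.leaf (nat_lit 7421018) (nat_lit 508415) (nat_lit 38092668) (nat_lit 13888066) [(nat_lit 508415), (nat_lit 1614627), (nat_lit 3550938), (nat_lit 8437265)]) (PF.cons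 (PF.leaf (nat_lit 7728768) (nat_lit 515689) (nat_lit 37668416) (nat_lit 13800645) [(nat_lit 515689), (nat_lit 1622677), (nat_lit 3551518), (nat_lit 8402797)]) PF.nil))))) (PF.cons (PF.cons (PF.leaf (nat_lit
 7230308) (nat_lit 1607281) (nat_lit 38045652) (nat_lit 13875031) [(nat_lit 0), (nat_lit 1607281), (nat_lit 3544573), (nat_lit 8428993)]) (PF.cons (PF.leaf (nat_lit 7524908) (nat_lit 508191) (nat_lit 37637417) (nat_lit 13790813) [(nat_lit 508191), (nat_lit 1615627), (nat_lit 3545339), (nat_lit 8395796)]) (PF.cons (PF.leaf (nat_lit 7826897) (nat_lit 515373) (nat_lit 37223106) (nat_lit 13703756) [(nat_lit 515373), (nat_lit 1622882), (nat_lit 3544823), (nat_lit 8360613)]) (PF.cons PF.nil PF.nil)))) (PF.cons (PF.cons (PF.leaf (nat_lit 7925678) (nat_lit 1622543) (nat_lit 36780867) (nat_lit 13605843) [(nat_lit 0), (nat_lit 1622543), (nat_lit 3537227), (nat_lit 8317244)]) (PF.cons (PF.leaf (nat_lit 8227296) (nat_lit 520946) (nat_lit 36372528) (nat_lit 13516896) [(nat_lit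 520946), (nat_lit 1628073), (nat_lit 3534520), (nat_lit 8279699)]) PF.nil)) (PF.cons PF.nil (PF.cons PF.nil PF.nil)))))) (PF.cons (PF.cons (PF.cons (PF.leaf (nat_lit 7019772) (nat_lit 3523589) (nat_lit 37845051) (nat_lit 13820586) [(nat_lit 0), (nat_lit 0), (nat_lit 3523589), (nat_lit 8395995)]) (PF.cons (PF.leaf (nat_lit 7300793) (nat_lit 495031) (nat_lit 37458732) (nat_lit 13740547) [(nat_lit 495031), (nat_lit 0),
 (nat_lit 3524994), (nat_lit 8364511)]) (PF.cons (PF.leaf (nat_lit 7591264) (nat_lit 503522) (nat_lit 37063334) (nat_lit 13657188) [(nat_lit 503522), (nat_lit 0), (nat_lit 3525163), (nat_lit 8330919)]) (PF.cons (PF.leaf (nat_lit 7888962) (nat_lit 510911) (nat_lit 36661516) (nat_lit 13570995) [(nat_lit 510911), (nat_lit 0), (nat_lit 3524089), (nat_lit 8295389)]) (PF.cons PF.nil PF.nil))))) (PF.cons (PF.cons (PF.leaf (nat_lit 7694909) (nat_lit 1606126) (nat_lit 36620401) (nat_lit 13558888) [(nat_lit 0), (nat_lit 1606126), (nat_lit 3517954), (nat_lit 8287486)])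 (PF.cons (PF.leaf (nat_lit 7985880) (nat_lit 510071) (nat_lit 36229288) (nat_lit 13473479) [(nat_lit 510071), (nat_lit 1612538), (nat_lit 3515945), (nat_lit 8251543)]) (PF.cons (PF.leaf (nat_lit 8283633) (nat_lit 516490) (nat_lit 35832979) (nat_lit 13385520) [(nat_lit 516490), (nat_lit 1617956), (nat_lit 3512784), (nat_lit 8213805)]) (PF.cons PF.nil PF.nil)))) (PF.cons (PF.cons (PF.leaf (nat_lit 8375651) (nat_lit 1616220) (nat_lit 35413764) (nat_lit 13287918) [(nat_lit 0), (nat_lit 1616220), (nat_lit 3503045), (nat_lit 8168598)]) (PF.cons PF.nil PF.nil)) (PF.cons PF.nil (PF.cons PF.nil PF.nil))))) (PF.cons (PF.cons (PF.cons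
 (PF.leaf (nat_lit 8141564) (nat_lit 3484804) (nat_lit 35270027) (nat_lit 13244003) [(nat_lit 0), (nat_lit 0), (nat_lit 3484804), (nat_lit 8140367)]) (PF.cons (PF.leaf (nat_lit 8428483) (nat_lit 510480) (nat_lit 34896128) (nat_lit 13158194) [(nat_lit 510480), (nat_lit 0), (nat_lit 3480537), (nat_lit 8102398)]) (PF.cons PF.nil (PF.cons PF.nil PF.nil)))) (PF.cons (PF.cons (PF.leaf (nat_lit 8807405) (nat_lit 1606565) (nat_lit 34120806) (nat_lit 12973495) [(nat_lit 0), (nat_lit 1606565), (nat_lit 3463831), (nat_lit 8016450)]) (PF.cons PF.nil PF.nil)) (PF.cons PF.nil PF.nil))) (PF.cons (PF.cons (PF.cons (PF.leaf (nat_lit 9221896) (nat_lit 3420814) (nat_lit 32898695) (nat_lit 12664283) [(nat_lit 0), (nat_lit 0), (nat_lit 3420814), (nat_lit 7862574)]) (PF.cons PF.nil PF.nil)) (PF.cons PF.nil PF.nil)) (PF.cons PF.nil PF.nil)))))) (PF.cons (PF.cons (PF.cons (PF.cons (PF.leaf (nat_lit 6590986) (nat_lit 8242805) (nat_lit 37042693) (nat_lit 13580509) [(nat_lit 0), (nat_lit 0),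 (nat_lit 0), (nat_lit 8242805)]) (PF.cons (PF.leaf (nat_lit 6847310) (nat_lit 461491) (nat_lit 36704880) (nat_lit 13510222) [(nat_lit 461491), (nat_lit 0), (nat_lit 0), (nat_lit 8216109)]) (PF.cons (PF.leaf (nat_lit
 7116541) (nat_lit 472723) (nat_lit 36353222) (nat_lit 13435879) [(nat_lit 472723), (nat_lit 0), (nat_lit 0), (nat_lit 8187131)]) (PF.cons (PF.leaf (nat_lit 7395663) (nat_lit 482406) (nat_lit 35991316) (nat_lit 13358131) [(nat_lit 482406), (nat_lit 0), (nat_lit 0), (nat_lit 8156072)]) (PF.cons (PF.leaf (nat_lit 7682753) (nat_lit 490822) (nat_lit 35621849) (nat_lit 13277475) [(nat_lit 490822), (nat_lit 0), (nat_lit 0), (nat_lit 8123099)]) (PF.cons (PF.leaf (nat_lit 7976301) (nat_lit 498175) (nat_lit 35246911) (nat_lit 13194312) [(nat_lit 498175), (nat_lit 0), (nat_lit 0), (nat_lit 8088356)]) (PF.cons PF.nil PF.nil))))))) (PF.cons (PF.cons (PF.leaf (nat_lit 7227813) (nat_lit 1548602) (nat_lit 35926904) (nat_lit 13341028) [(nat_lit 0), (nat_lit 1548602), (nat_lit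 0), (nat_lit 8146138)]) (PF.cons (PF.leaf (nat_lit 7499361) (nat_lit 481950) (nat_lit 35575536) (nat_lit 13264186) [(nat_lit 481950), (nat_lit 1557727), (nat_lit 0), (nat_lit 8114706)]) (PF.cons (PF.leaf (nat_lit 7780195) (nat_lit 490339) (nat_lit 35215538) (nat_lit 13184254) [(nat_lit 490339), (nat_lit 1565690), (nat_lit 0), (nat_lit 8081325)]) (PF.cons (PF.leaf (nat_lit 8068139) (nat_lit 497624) (nat_lit 34849352) (nat_lit
 13101709) [(nat_lit 497624), (nat_lit 1572537), (nat_lit 0), (nat_lit 8046170)]) (PF.cons PF.nil PF.nil))))) (PF.cons (PF.cons (PF.leaf (nat_lit 7879094) (nat_lit 1565464) (nat_lit 34810936) (nat_lit 13090013) [(nat_lit 0), (nat_lit 1565464), (nat_lit 0), (nat_lit 8038466)]) (PF.cons (PF.leaf (nat_lit 8160499) (nat_lit 496727) (nat_lit 34454332) (nat_lit 13008359) [(nat_lit 496727), (nat_lit 1571629), (nat_lit 0), (nat_lit 8003067)]) (PF.cons (PF.leaf (nat_lit 8448618) (nat_lit 503044) (nat_lit 34092680) (nat_lit 12924359) [(nat_lit 503044), (nat_lit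 1576811), (nat_lit 0), (nat_lit 7966031)]) (PF.cons PF.nil PF.nil)))) (PF.cons (PF.cons (PF.leaf (nat_lit 8536386) (nat_lit 1574887) (nat_lit 33709186) (nat_lit 12831192) [(nat_lit 0), (nat_lit 1574887), (nat_lit 0), (nat_lit 7921886)]) (PF.cons PF.nil PF.nil)) (PF.cons PF.nil PF.nil))))) (PF.cons (PF.cons (PF.cons (PF.leaf (nat_lit 7667830) (nat_lit 3406997) (nat_lit 34645067) (nat_lit 13041029) [(nat_lit 0), (nat_lit 0), (nat_lit 3406997), (nat_lit 8007859)]) (PF.cons (PF.leaf (nat_lit 7936851) (nat_lit 484137) (nat_lit 34307200) (nat_lit 12963471) [(nat_lit 484137), (nat_lit 0), (nat_lit 3405315), (nat_lit 7974343)]) (PF.cons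
 (PF.leaf (nat_lit 8214536) (nat_lit 491755) (nat_lit 33961654) (nat_lit 12883063) [(nat_lit 491755), (nat_lit 0), (nat_lit 3402549), (nat_lit 7939017)]) (PF.cons (PF.leaf (nat_lit 8498744) (nat_lit 498313) (nat_lit 33610722) (nat_lit 12800287) [(nat_lit 498313), (nat_lit 0), (nat_lit 3398719), (nat_lit 7902071)]) (PF.cons PF.nil PF.nil))))) (PF.cons (PF.cons (PF.leaf (nat_lit 8307385) (nat_lit 1559513) (nat_lit 33577168) (nat_lit 12789541) [(nat_lit 0), (nat_lit 1559513), (nat_lit 3392935), (nat_lit 7894826)]) (PF.cons (PF.leaf (nat_lit 8585120) (nat_lit 496957) (nat_lit 33235670) (nat_lit 12707862) [(nat_lit 496957), (nat_lit 1564157), (nat_lit 3388460), (nat_lit 7857852)]) (PF.cons PF.nil (PF.cons PF.nil PF.nil)))) (PF.cons (PF.cons (PF.leaf (nat_lit 8951070) (nat_lit 1564980) (nat_lit 32526065) (nat_lit 12532181) [(nat_lit 0), (nat_lit 1564980), (nat_lit 3371627), (nat_lit 7774488)]) (PF.cons PF.nil PF.nil)) PF.nil))) (PF.cons (PF.cons (PF.cons (PF.leaf (nat_lit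 8720034) (nat_lit 3354863) (nat_lit 32407570) (nat_lit 12493447) [(nat_lit 0), (nat_lit 0), (nat_lit 3354863), (nat_lit 7749034)]) (PF.cons (PF.leaf (nat_lit 8993818) (nat_lit 496092) (nat_lit 32081005) (nat_lit
 12412245) [(nat_lit 496092), (nat_lit 0), (nat_lit 3348766), (nat_lit 7710967)]) (PF.cons PF.nil PF.nil))) (PF.cons (PF.cons (PF.leaf (nat_lit 9350043) (nat_lit 1552747) (nat_lit 31405830) (nat_lit 12238925) [(nat_lit 0), (nat_lit 1552747), (nat_lit 3329328), (nat_lit 7626326)]) PF.nil) PF.nil)) (PF.cons PF.nil (PF.cons PF.nil PF.nil))))) (PF.cons (PF.cons (PF.cons (PF.cons (PF.leaf (nat_lit 8252630) (nat_lit 7632380) (nat_lit 31894456) (nat_lit 12317214) [(nat_lit 0), (nat_lit 0), (nat_lit 0), (nat_lit 7632380)]) (PF.cons (PF.leaf (nat_lit 8510437) (nat_lit 471764) (nat_lit 31597817) (nat_lit 12243573) [(nat_lit 471764), (nat_lit 0), (nat_lit 0), (nat_lit 7598552)]) (PF.cons (PF.leaf (nat_lit 8776304) (nat_lit 478682) (nat_lit 31294565) (nat_lit 12167449)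 [(nat_lit 478682), (nat_lit 0), (nat_lit 0), (nat_lit 7563144)]) (PF.cons PF.nil (PF.cons PF.nil PF.nil))))) (PF.cons (PF.cons (PF.leaf (nat_lit 8860312) (nat_lit 1510385) (nat_lit 30959149) (nat_lit 12079852) [(nat_lit 0), (nat_lit 1510385), (nat_lit 0), (nat_lit 7519808)]) (PF.cons (PF.leaf (nat_lit 9125923) (nat_lit 482898) (nat_lit 30659535) (nat_lit 12002943) [(nat_lit 482898), (nat_lit 1513778), (nat_lit 0), (nat_lit
 7483218)]) (PF.cons PF.nil (PF.cons PF.nil PF.nil)))) (PF.cons (PF.cons (PF.leaf (nat_lit 9471192) (nat_lit 1512719) (nat_lit 30038747) (nat_lit 11838733) [(nat_lit 0), (nat_lit 1512719), (nat_lit 0), (nat_lit 7401964)]) (PF.cons PF.nil PF.nil)) PF.nil))) (PF.cons (PF.cons (PF.cons (PF.leaf (nat_lit 9244356) (nat_lit 3226255) (nat_lit 29940273) (nat_lit 11804711) [(nat_lit 0), (nat_lit 0), (nat_lit 3226255), (nat_lit 7379190)]) (PF.cons (PF.leaf (nat_lit 9506187) (nat_lit 481226) (nat_lit 29653490) (nat_lit 11728736) [(nat_lit 481226), (nat_lit 0),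 (nat_lit 3219114), (nat_lit 7342082)]) PF.nil)) (PF.cons PF.nil PF.nil)) (PF.cons PF.nil PF.nil))) (PF.cons (PF.cons (PF.cons (PF.cons (PF.leaf (nat_lit 9724764) (nat_lit 7033693) (nat_lit 27798345) (nat_lit 11175694) [(nat_lit 0), (nat_lit 0), (nat_lit 0), (nat_lit 7033693)]) (PF.cons PF.nil PF.nil)) (PF.cons PF.nil PF.nil)) (PF.cons PF.nil PF.nil)) (PF.cons PF.nil (PF.cons PF.nil (PF.cons PF.nil PF.nil))))))))

def p15_24_2_0 : pfC (piC [(nat_lit 37722612), (nat_lit 24889148), (nat_lit 18515096), (nat_lit 12482732)] (nat_lit 6713858)) p15_24_2 (nat_lit 4) (nat_lit 0) (nat_lit 1) = true := by decide +kernel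
def p15_24_2_1 : pfC (piC [(nat_lit 37722612), (nat_lit 24889148), (nat_lit 18515096), (nat_lit 12482732)] (nat_lit 6713858)) p15_24_2 (nat_lit 4) (nat_lit 1) (nat_lit 2) = true := by decide +kernel
def p15_24_2_2 : pfC (piC [(nat_lit 37722612), (nat_lit 24889148), (nat_lit 18515096), (nat_lit 12482732)] (nat_lit 6713858)) p15_24_2 (nat_lit 4) (nat_lit 2) (nat_lit 3) = true := by decide +kernel
def p15_24_2_3 : pfC (piC [(nat_lit 37722612), (nat_lit 24889148), (nat_lit 18515096), (nat_lit 12482732)] (nat_lit 6713858)) p15_24_2 (nat_lit 4) (nat_lit 3) (nat_lit 4) = true := by decide +kernel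
def p15_24_2_4 : pfC (piC [(nat_lit 37722612), (nat_lit 24889148), (nat_lit 18515096), (nat_lit 12482732)] (nat_lit 6713858)) p15_24_2 (nat_lit 4) (nat_lit 4) (nat_lit 5) = true := by decide +kernel
def p15_24_2_5 : pfC (piC [(nat_lit 37722612), (nat_lit 24889148), (nat_lit 18515096), (nat_lit 12482732)] (nat_lit 6713858)) p15_24_2 (nat_lit 4) (nat_lit 5) (nat_lit 6) = true := by decide +kernel
def p15_24_2_6 : pfC (piC [(nat_lit 37722612), (nat_lit 24889148), (nat_lit 18515096), (nat_lit 12482732)] (nat_lit 6713858)) p15_24_2 (nat_lit 4) (nat_lit 6) (nat_lit 7) = true := by decide +kernel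
def p15_24_2_7 : pfC (piC [(nat_lit 37722612), (nat_lit 24889148), (nat_lit 18515096), (nat_lit 12482732)] (nat_lit 6713858)) p15_24_2 (nat_lit 4) (nat_lit 7) (nat_lit 8) = true := by decide +kernel
def p15_24_2_8 : pfC (piC [(nat_lit 37722612), (nat_lit 24889148), (nat_lit 18515096), (nat_lit 12482732)] (nat_lit 6713858)) p15_24_2 (nat_lit 4) (nat_lit 8) (nat_lit 9) = true := by decide +kernel
def p15_24_2_9 : pfC (piC [(nat_lit 37722612), (nat_lit 24889148), (nat_lit 18515096), (nat_lit 12482732)] (nat_lit 6713858)) p15_24_2 (nat_lit 4) (nat_lit 9) (nat_lit 10) = true := by decide +kernel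
def p15_24_2_10 : pfC (piC [(nat_lit 37722612), (nat_lit 24889148), (nat_lit 18515096), (nat_lit 12482732)] (nat_lit 6713858)) p15_24_2 (nat_lit 4) (nat_lit 10) (nat_lit 11) = true := by decide +kernel
def p15_24_2_11 : pfC (piC [(nat_lit 37722612), (nat_lit 24889148), (nat_lit 18515096), (nat_lit 12482732)] (nat_lit 6713858)) p15_24_2 (nat_lit 4) (nat_lit 11) (nat_lit 12) = true := by decide +kernel
def p15_24_2_12 : pfC (piC [(nat_lit 37722612), (nat_lit 24889148), (nat_lit 18515096), (nat_lit 12482732)] (nat_lit 6713858)) p15_24_2 (nat_lit 4) (nat_lit 12) (nat_lit 13) = true := by decide +kernel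
def p15_24_2_13 : pfC (piC [(nat_lit 37722612), (nat_lit 24889148), (nat_lit 18515096), (nat_lit 12482732)] (nat_lit 6713858)) p15_24_2 (nat_lit 4) (nat_lit 13) (nat_lit 14) = true := by decide +kernel
def p15_24_2_14 : pfC (piC [(nat_lit 37722612), (nat_lit 24889148), (nat_lit 18515096), (nat_lit 12482732)] (nat_lit 6713858)) p15_24_2 (nat_lit 4) (nat_lit 14) (nat_lit 15) = true := by decide +kernel
def p15_24_2_15 : pfC (piC [(nat_lit 37722612), (nat_lit 24889148), (nat_lit 18515096), (nat_lit 12482732)] (nat_lit 6713858)) p15_24_2 (nat_lit 4) (nat_lit 15) (nat_lit 16) = true := by decide +kernel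
def p15_24_2_16 : pfC (piC [(nat_lit 37722612), (nat_lit 24889148), (nat_lit 18515096), (nat_lit 12482732)] (nat_lit 6713858)) p15_24_2 (nat_lit 4) (nat_lit 16) (nat_lit 17) = true := by decide +kernel
def p15_24_2_17 : pfC (piC [(nat_lit 37722612), (nat_lit 24889148), (nat_lit 18515096), (nat_lit 12482732)] (nat_lit 6713858)) p15_24_2 (nat_lit 4) (nat_lit 17) (nat_lit 18) = true := by decide +kernel
def p15_24_2_18 : pfC (piC [(nat_lit 37722612), (nat_lit 24889148), (nat_lit 18515096), (nat_lit 12482732)] (nat_lit 6713858)) p15_24_2 (nat_lit 4) (nat_lit 18) (nat_lit 19) = true := by decide +kernel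
def p15_24_2_19 : pfC (piC [(nat_lit 37722612), (nat_lit 24889148), (nat_lit 18515096), (nat_lit 12482732)] (nat_lit 6713858)) p15_24_2 (nat_lit 4) (nat_lit 19) (nat_lit 20) = true := by decide +kernel
def p15_24_2_20 : pfC (piC [(nat_lit 37722612), (nat_lit 24889148), (nat_lit 18515096), (nat_lit 12482732)] (nat_lit 6713858)) p15_24_2 (nat_lit 4) (nat_lit 20) (nat_lit 21) = true := by decide +kernel
def p15_24_2_21 : pfC (piC [(nat_lit 37722612), (nat_lit 24889148), (nat_lit 18515096), (nat_lit 12482732)] (nat_lit 6713858)) p15_24_2 (nat_lit 4) (nat_lit 21) (nat_lit 22) = true := by decide +kernel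
def p15_24_2_22 : pfC (piC [(nat_lit 37722612), (nat_lit 24889148), (nat_lit 18515096), (nat_lit 12482732)] (nat_lit 6713858)) p15_24_2 (nat_lit 4) (nat_lit 22) (nat_lit 23) = true := by decide +kernel
def p15_24_2_23 : pfC (piC [(nat_lit 37722612), (nat_lit 24889148), (nat_lit 18515096), (nat_lit 12482732)] (nat_lit 6713858)) p15_24_2 (nat_lit 4) (nat_lit 23) (nat_lit 24) = true := by decide +kernel
def p15_24_2_24 : pfC (piC [(nat_lit 37722612), (nat_lit 24889148), (nat_lit 18515096), (nat_lit 12482732)] (nat_lit 6713858)) p15_24_2 (nat_lit 4) (nat_lit 24) (nat_lit 25) = true := by decide +kernel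
def p15_24_2_25 : pfC (piC [(nat_lit 37722612), (nat_lit 24889148), (nat_lit 18515096), (nat_lit 12482732)] (nat_lit 6713858)) p15_24_2 (nat_lit 4) (nat_lit 25) (nat_lit 26) = true := by decide +kernel
def p15_24_2_26 : pfC (piC [(nat_lit 37722612), (nat_lit 24889148), (nat_lit 18515096), (nat_lit 12482732)] (nat_lit 6713858)) p15_24_2 (nat_lit 4) (nat_lit 26) (nat_lit 27) = true := by decide +kernel
def p15_24_2_27 : pfC (piC [(nat_lit 37722612), (nat_lit 24889148), (nat_lit 18515096), (nat_lit 12482732)] (nat_lit 6713858)) p15_24_2 (nat_lit 4) (nat_lit 27) (nat_lit 28) = true := by decide +kernel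
def p15_24_2_28 : pfC (piC [(nat_lit 37722612), (nat_lit 24889148), (nat_lit 18515096), (nat_lit 12482732)] (nat_lit 6713858)) p15_24_2 (nat_lit 4) (nat_lit 28) (nat_lit 29) = true := by decide +kernel
def p15_24_2_29 : pfC (piC [(nat_lit 37722612), (nat_lit 24889148), (nat_lit 18515096), (nat_lit 12482732)] (nat_lit 6713858)) p15_24_2 (nat_lit 4) (nat_lit 29) (nat_lit 30) = true := by decide +kernel
def p15_24_2_30 : pfC (piC [(nat_lit 37722612), (nat_lit 24889148), (nat_lit 18515096), (nat_lit 12482732)] (nat_lit 6713858)) p15_24_2 (nat_lit 4) (nat_lit 30) (nat_lit 31) = true := by decide +kernel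
def p15_24_2_31 : pfC (piC [(nat_lit 37722612), (nat_lit 24889148), (nat_lit 18515096), (nat_lit 12482732)] (nat_lit 6713858)) p15_24_2 (nat_lit 4) (nat_lit 31) (nat_lit 32) = true := by decide +kernel
def p15_24_2_32 : pfC (piC [(nat_lit 37722612), (nat_lit 24889148), (nat_lit 18515096), (nat_lit 12482732)] (nat_lit 6713858)) p15_24_2 (nat_lit 4) (nat_lit 32) (nat_lit 33) = true := by decide +kernel
def p15_24_2_33 : pfC (piC [(nat_lit 37722612), (nat_lit 24889148), (nat_lit 18515096), (nat_lit 12482732)] (nat_lit 6713858)) p15_24_2 (nat_lit 4) (nat_lit 33) (nat_lit 34) = true := by decide +kernel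
def p15_24_2_34 : pfC (piC [(nat_lit 37722612), (nat_lit 24889148), (nat_lit 18515096), (nat_lit 12482732)] (nat_lit 6713858)) p15_24_2 (nat_lit 4) (nat_lit 34) (nat_lit 35) = true := by decide +kernel
def p15_24_2_35 : pfC (piC [(nat_lit 37722612), (nat_lit 24889148), (nat_lit 18515096), (nat_lit 12482732)] (nat_lit 6713858)) p15_24_2 (nat_lit 4) (nat_lit 35) (nat_lit 36) = true := by decide +kernel
def p15_24_2_36 : pfC (piC [(nat_lit 37722612), (nat_lit 24889148), (nat_lit 18515096), (nat_lit 12482732)] (nat_lit 6713858)) p15_24_2 (nat_lit 4) (nat_lit 36) (nat_lit 37) = true := by decide +kernel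
def p15_24_2_37 : pfC (piC [(nat_lit 37722612), (nat_lit 24889148), (nat_lit 18515096), (nat_lit 12482732)] (nat_lit 6713858)) p15_24_2 (nat_lit 4) (nat_lit 37) (nat_lit 38) = true := by decide +kernel
def p15_24_2_38 : pfC (piC [(nat_lit 37722612), (nat_lit 24889148), (nat_lit 18515096), (nat_lit 12482732)] (nat_lit 6713858)) p15_24_2 (nat_lit 4) (nat_lit 38) (nat_lit 39) = true := by decide +kernel
def p15_24_2_39 : pfC (piC [(nat_lit 37722612), (nat_lit 24889148), (nat_lit 18515096), (nat_lit 12482732)] (nat_lit 6713858)) p15_24_2 (nat_lit 4) (nat_lit 39) (nat_lit 40) = true := by decide +kernel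
def p15_24_2_40 : pfC (piC [(nat_lit 37722612), (nat_lit 24889148), (nat_lit 18515096), (nat_lit 12482732)] (nat_lit 6713858)) p15_24_2 (nat_lit 4) (nat_lit 40) (nat_lit 41) = true := by decide +kernel
def p15_24_2_41 : pfC (piC [(nat_lit 37722612), (nat_lit 24889148), (nat_lit 18515096), (nat_lit 12482732)] (nat_lit 6713858)) p15_24_2 (nat_lit 4) (nat_lit 41) (nat_lit 42) = true := by decide +kernel
def p15_24_2_42 : pfC (piC [(nat_lit 37722612), (nat_lit 24889148), (nat_lit 18515096), (nat_lit 12482732)] (nat_lit 6713858)) p15_24_2 (nat_lit 4) (nat_lit 42) (nat_lit 43) = true := by decide +kernel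
def p15_24_2_43 : pfC (piC [(nat_lit 37722612), (nat_lit 24889148), (nat_lit 18515096), (nat_lit 12482732)] (nat_lit 6713858)) p15_24_2 (nat_lit 4) (nat_lit 43) (nat_lit 44) = true := by decide +kernel
def p15_24_2_44 : pfC (piC [(nat_lit 37722612), (nat_lit 24889148), (nat_lit 18515096), (nat_lit 12482732)] (nat_lit 6713858)) p15_24_2 (nat_lit 4) (nat_lit 44) (nat_lit 45) = true := by decide +kernel
def p15_24_2_45 : pfC (piC [(nat_lit 37722612), (nat_lit 24889148), (nat_lit 18515096), (nat_lit 12482732)] (nat_lit 6713858)) p15_24_2 (nat_lit 4) (nat_lit 45) (nat_lit 46) = true := by decide +kernel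
def p15_24_2_46 : pfC (piC [(nat_lit 37722612), (nat_lit 24889148), (nat_lit 18515096), (nat_lit 12482732)] (nat_lit 6713858)) p15_24_2 (nat_lit 4) (nat_lit 46) (nat_lit 47) = true := by decide +kernel
def p15_24_2_47 : pfC (piC [(nat_lit 37722612), (nat_lit 24889148), (nat_lit 18515096), (nat_lit 12482732)] (nat_lit 6713858)) p15_24_2 (nat_lit 4) (nat_lit 47) (nat_lit 48) = true := by decide +kernel
def p15_24_2_48 : pfC (piC [(nat_lit 37722612), (nat_lit 24889148), (nat_lit 18515096), (nat_lit 12482732)] (nat_lit 6713858)) p15_24_2 (nat_lit 4) (nat_lit 48) (nat_lit 49) = true := by decide +kernel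
def p15_24_2_49 : pfC (piC [(nat_lit 37722612), (nat_lit 24889148), (nat_lit 18515096), (nat_lit 12482732)] (nat_lit 6713858)) p15_24_2 (nat_lit 4) (nat_lit 49) (nat_lit 50) = true := by decide +kernel
def p15_24_2_50 : pfC (piC [(nat_lit 37722612), (nat_lit 24889148), (nat_lit 18515096), (nat_lit 12482732)] (nat_lit 6713858)) p15_24_2 (nat_lit 4) (nat_lit 50) (nat_lit 51) = true := by decide +kernel
def p15_24_2_51 : pfC (piC [(nat_lit 37722612), (nat_lit 24889148), (nat_lit 18515096), (nat_lit 12482732)] (nat_lit 6713858)) p15_24_2 (nat_lit 4) (nat_lit 51) (nat_lit 52) = true := by decide +kernel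
def p15_24_2_52 : pfC (piC [(nat_lit 37722612), (nat_lit 24889148), (nat_lit 18515096), (nat_lit 12482732)] (nat_lit 6713858)) p15_24_2 (nat_lit 4) (nat_lit 52) (nat_lit 53) = true := by decide +kernel
def p15_24_2_53 : pfC (piC [(nat_lit 37722612), (nat_lit 24889148), (nat_lit 18515096), (nat_lit 12482732)] (nat_lit 6713858)) p15_24_2 (nat_lit 4) (nat_lit 53) (nat_lit 54) = true := by decide +kernel
def p15_24_2_54 : pfC (piC [(nat_lit 37722612), (nat_lit 24889148), (nat_lit 18515096), (nat_lit 12482732)] (nat_lit 6713858)) p15_24_2 (nat_lit 4) (nat_lit 54) (nat_lit 55) = true := by decide +kernel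
def p15_24_2_55 : pfC (piC [(nat_lit 37722612), (nat_lit 24889148), (nat_lit 18515096), (nat_lit 12482732)] (nat_lit 6713858)) p15_24_2 (nat_lit 4) (nat_lit 55) (nat_lit 56) = true := by decide +kernel
def p15_24_2_56 : pfC (piC [(nat_lit 37722612), (nat_lit 24889148), (nat_lit 18515096), (nat_lit 12482732)] (nat_lit 6713858)) p15_24_2 (nat_lit 4) (nat_lit 56) (nat_lit 57) = true := by decide +kernel
def p15_24_2_57 : pfC (piC [(nat_lit 37722612), (nat_lit 24889148), (nat_lit 18515096), (nat_lit 12482732)] (nat_lit 6713858)) p15_24_2 (nat_lit 4) (nat_lit 57) (nat_lit 58) = true := by decide +kernel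
def p15_24_2_58 : pfC (piC [(nat_lit 37722612), (nat_lit 24889148), (nat_lit 18515096), (nat_lit 12482732)] (nat_lit 6713858)) p15_24_2 (nat_lit 4) (nat_lit 58) (nat_lit 59) = true := by decide +kernel
def p15_24_2_59 : pfC (piC [(nat_lit 37722612), (nat_lit 24889148), (nat_lit 18515096), (nat_lit 12482732)] (nat_lit 6713858)) p15_24_2 (nat_lit 4) (nat_lit 59) (nat_lit 60) = true := by decide +kernel
def p15_24_2_60 : pfC (piC [(nat_lit 37722612), (nat_lit 24889148), (nat_lit 18515096), (nat_lit 12482732)] (nat_lit 6713858)) p15_24_2 (nat_lit 4) (nat_lit 60) (nat_lit 61) = true := by decide +kernel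
def p15_24_2_61 : pfC (piC [(nat_lit 37722612), (nat_lit 24889148), (nat_lit 18515096), (nat_lit 12482732)] (nat_lit 6713858)) p15_24_2 (nat_lit 4) (nat_lit 61) (nat_lit 62) = true := by decide +kernel
def p15_24_2_62 : pfC (piC [(nat_lit 37722612), (nat_lit 24889148), (nat_lit 18515096), (nat_lit 12482732)] (nat_lit 6713858)) p15_24_2 (nat_lit 4) (nat_lit 62) (nat_lit 63) = true := by decide +kernel
def p15_24_2_63 : pfC (piC [(nat_lit 37722612), (nat_lit 24889148), (nat_lit 18515096), (nat_lit 12482732)] (nat_lit 6713858)) p15_24_2 (nat_lit 4) (nat_lit 63) (nat_lit 64) = true := by decide +kernel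
def p15_24_2_64 : pfC (piC [(nat_lit 37722612), (nat_lit 24889148), (nat_lit 18515096), (nat_lit 12482732)] (nat_lit 6713858)) p15_24_2 (nat_lit 4) (nat_lit 64) (nat_lit 65) = true := by decide +kernel
def p15_24_2_65 : pfC (piC [(nat_lit 37722612), (nat_lit 24889148), (nat_lit 18515096), (nat_lit 12482732)] (nat_lit 6713858)) p15_24_2 (nat_lit 4) (nat_lit 65) (nat_lit 66) = true := by decide +kernel
def p15_24_2_66 : pfC (piC [(nat_lit 37722612), (nat_lit 24889148), (nat_lit 18515096), (nat_lit 12482732)] (nat_lit 6713858)) p15_24_2 (nat_lit 4) (nat_lit 66) (nat_lit 67) = true := by decide +kernel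
def p15_24_2_67 : pfC (piC [(nat_lit 37722612), (nat_lit 24889148), (nat_lit 18515096), (nat_lit 12482732)] (nat_lit 6713858)) p15_24_2 (nat_lit 4) (nat_lit 67) (nat_lit 68) = true := by decide +kernel
def p15_24_2_68 : pfC (piC [(nat_lit 37722612), (nat_lit 24889148), (nat_lit 18515096), (nat_lit 12482732)] (nat_lit 6713858)) p15_24_2 (nat_lit 4) (nat_lit 68) (nat_lit 69) = true := by decide +kernel
def p15_24_2_69 : pfC (piC [(nat_lit 37722612), (nat_lit 24889148), (nat_lit 18515096), (nat_lit 12482732)] (nat_lit 6713858)) p15_24_2 (nat_lit 4) (nat_lit 69) (nat_lit 70) = true := by decide +kernel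
def p15_24_2_70 : pfC (piC [(nat_lit 37722612), (nat_lit 24889148), (nat_lit 18515096), (nat_lit 12482732)] (nat_lit 6713858)) p15_24_2 (nat_lit 4) (nat_lit 70) (nat_lit 71) = true := by decide +kernel
def p15_24_2_71 : pfC (piC [(nat_lit 37722612), (nat_lit 24889148), (nat_lit 18515096), (nat_lit 12482732)] (nat_lit 6713858)) p15_24_2 (nat_lit 4) (nat_lit 71) (nat_lit 72) = true := by decide +kernel
def p15_24_2_72 : pfC (piC [(nat_lit 37722612), (nat_lit 24889148), (nat_lit 18515096), (nat_lit 12482732)] (nat_lit 6713858)) p15_24_2 (nat_lit 4) (nat_lit 72) (nat_lit 73) = true := by decide +kernel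
def p15_24_2_73 : pfC (piC [(nat_lit 37722612), (nat_lit 24889148), (nat_lit 18515096), (nat_lit 12482732)] (nat_lit 6713858)) p15_24_2 (nat_lit 4) (nat_lit 73) (nat_lit 74) = true := by decide +kernel
def p15_24_2_74 : pfC (piC [(nat_lit 37722612), (nat_lit 24889148), (nat_lit 18515096), (nat_lit 12482732)] (nat_lit 6713858)) p15_24_2 (nat_lit 4) (nat_lit 74) (nat_lit 75) = true := by decide +kernel
def p15_24_2_75 : pfC (piC [(nat_lit 37722612), (nat_lit 24889148), (nat_lit 18515096), (nat_lit 12482732)] (nat_lit 6713858)) p15_24_2 (nat_lit 4) (nat_lit 75) (nat_lit 76) = true := by decide +kernel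
def p15_24_2_76 : pfC (piC [(nat_lit 37722612), (nat_lit 24889148), (nat_lit 18515096), (nat_lit 12482732)] (nat_lit 6713858)) p15_24_2 (nat_lit 4) (nat_lit 76) (nat_lit 77) = true := by decide +kernel
def p15_24_2_77 : pfC (piC [(nat_lit 37722612), (nat_lit 24889148), (nat_lit 18515096), (nat_lit 12482732)] (nat_lit 6713858)) p15_24_2 (nat_lit 4) (nat_lit 77) (nat_lit 78) = true := by decide +kernel
def p15_24_2_78 : pfC (piC [(nat_lit 37722612), (nat_lit 24889148), (nat_lit 18515096), (nat_lit 12482732)] (nat_lit 6713858)) p15_24_2 (nat_lit 4) (nat_lit 78) (nat_lit 79) = true := by decide +kernel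
def p15_24_2_79 : pfC (piC [(nat_lit 37722612), (nat_lit 24889148), (nat_lit 18515096), (nat_lit 12482732)] (nat_lit 6713858)) p15_24_2 (nat_lit 4) (nat_lit 79) (nat_lit 80) = true := by decide +kernel
def p15_24_2_80 : pfC (piC [(nat_lit 37722612), (nat_lit 24889148), (nat_lit 18515096), (nat_lit 12482732)] (nat_lit 6713858)) p15_24_2 (nat_lit 4) (nat_lit 80) (nat_lit 81) = true := by decide +kernel
def p15_24_2_81 : pfC (piC [(nat_lit 37722612), (nat_lit 24889148), (nat_lit 18515096), (nat_lit 12482732)] (nat_lit 6713858)) p15_24_2 (nat_lit 4) (nat_lit 81) (nat_lit 82) = true := by decide +kernel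
def p15_24_2_82 : pfC (piC [(nat_lit 37722612), (nat_lit 24889148), (nat_lit 18515096), (nat_lit 12482732)] (nat_lit 6713858)) p15_24_2 (nat_lit 4) (nat_lit 82) (nat_lit 83) = true := by decide +kernel
def p15_24_2_83 : pfC (piC [(nat_lit 37722612), (nat_lit 24889148), (nat_lit 18515096), (nat_lit 12482732)] (nat_lit 6713858)) p15_24_2 (nat_lit 4) (nat_lit 83) (nat_lit 84) = true := by decide +kernel
def p15_24_2_84 : pfC (piC [(nat_lit 37722612), (nat_lit 24889148), (nat_lit 18515096), (nat_lit 12482732)] (nat_lit 6713858)) p15_24_2 (nat_lit 4) (nat_lit 84) (nat_lit 85) = true := by decide +kernel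
def p15_24_2_85 : pfC (piC [(nat_lit 37722612), (nat_lit 24889148), (nat_lit 18515096), (nat_lit 12482732)] (nat_lit 6713858)) p15_24_2 (nat_lit 4) (nat_lit 85) (nat_lit 86) = true := by decide +kernel
def p15_24_2_86 : pfC (piC [(nat_lit 37722612), (nat_lit 24889148), (nat_lit 18515096), (nat_lit 12482732)] (nat_lit 6713858)) p15_24_2 (nat_lit 4) (nat_lit 86) (nat_lit 87) = true := by decide +kernel
def p15_24_2_87 : pfC (piC [(nat_lit 37722612), (nat_lit 24889148), (nat_lit 18515096), (nat_lit 12482732)] (nat_lit 6713858)) p15_24_2 (nat_lit 4) (nat_lit 87) (nat_lit 88) = true := by decide +kernel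
def p15_24_2_88 : pfC (piC [(nat_lit 37722612), (nat_lit 24889148), (nat_lit 18515096), (nat_lit 12482732)] (nat_lit 6713858)) p15_24_2 (nat_lit 4) (nat_lit 88) (nat_lit 89) = true := by decide +kernel
def p15_24_2_89 : pfC (piC [(nat_lit 37722612), (nat_lit 24889148), (nat_lit 18515096), (nat_lit 12482732)] (nat_lit 6713858)) p15_24_2 (nat_lit 4) (nat_lit 89) (nat_lit 90) = true := by decide +kernel
def p15_24_2_90 : pfC (piC [(nat_lit 37722612), (nat_lit 24889148), (nat_lit 18515096), (nat_lit 12482732)] (nat_lit 6713858)) p15_24_2 (nat_lit 4) (nat_lit 90) (nat_lit 91) = true := by decide +kernel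
def p15_24_2_91 : pfC (piC [(nat_lit 37722612), (nat_lit 24889148), (nat_lit 18515096), (nat_lit 12482732)] (nat_lit 6713858)) p15_24_2 (nat_lit 4) (nat_lit 91) (nat_lit 92) = true := by decide +kernel
def p15_24_2_92 : pfC (piC [(nat_lit 37722612), (nat_lit 24889148), (nat_lit 18515096), (nat_lit 12482732)] (nat_lit 6713858)) p15_24_2 (nat_lit 4) (nat_lit 92) (nat_lit 93) = true := by decide +kernel
def p15_24_2_93 : pfC (piC [(nat_lit 37722612), (nat_lit 24889148), (nat_lit 18515096), (nat_lit 12482732)] (nat_lit 6713858)) p15_24_2 (nat_lit 4) (nat_lit 93) (nat_lit 94) = true := by decide +kernel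
def p15_24_2_94 : pfC (piC [(nat_lit 37722612), (nat_lit 24889148), (nat_lit 18515096), (nat_lit 12482732)] (nat_lit 6713858)) p15_24_2 (nat_lit 4) (nat_lit 94) (nat_lit 95) = true := by decide +kernel
def p15_24_2_95 : pfC (piC [(nat_lit 37722612), (nat_lit 24889148), (nat_lit 18515096), (nat_lit 12482732)] (nat_lit 6713858)) p15_24_2 (nat_lit 4) (nat_lit 95) (nat_lit 96) = true := by decide +kernel
def p15_24_2_96 : pfC (piC [(nat_lit 37722612), (nat_lit 24889148), (nat_lit 18515096), (nat_lit 12482732)] (nat_lit 6713858)) p15_24_2 (nat_lit 4) (nat_lit 96) (nat_lit 97) = true := by decide +kernel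
def p15_24_2_97 : pfC (piC [(nat_lit 37722612), (nat_lit 24889148), (nat_lit 18515096), (nat_lit 12482732)] (nat_lit 6713858)) p15_24_2 (nat_lit 4) (nat_lit 97) (nat_lit 98) = true := by decide +kernel
def p15_24_2_98 : pfC (piC [(nat_lit 37722612), (nat_lit 24889148), (nat_lit 18515096), (nat_lit 12482732)] (nat_lit 6713858)) p15_24_2 (nat_lit 4) (nat_lit 98) (nat_lit 99) = true := by decide +kernel
def p15_24_2_99 : pfC (piC [(nat_lit 37722612), (nat_lit 24889148), (nat_lit 18515096), (nat_lit 12482732)] (nat_lit 6713858)) p15_24_2 (nat_lit 4) (nat_lit 99) (nat_lit 100) = true := by decide +kernel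
def p15_24_2_100 : pfC (piC [(nat_lit 37722612), (nat_lit 24889148), (nat_lit 18515096), (nat_lit 12482732)] (nat_lit 6713858)) p15_24_2 (nat_lit 4) (nat_lit 100) (nat_lit 101) = true := by decide +kernel
def p15_24_2_101 : pfC (piC [(nat_lit 37722612), (nat_lit 24889148), (nat_lit 18515096), (nat_lit 12482732)] (nat_lit 6713858)) p15_24_2 (nat_lit 4) (nat_lit 101) (nat_lit 102) = true := by decide +kernel
def p15_24_2_102 : pfC (piC [(nat_lit 37722612), (nat_lit 24889148), (nat_lit 18515096), (nat_lit 12482732)] (nat_lit 6713858)) p15_24_2 (nat_lit 4) (nat_lit 102) (nat_lit 103) = true := by decide +kernel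
def p15_24_2_103 : pfC (piC [(nat_lit 37722612), (nat_lit 24889148), (nat_lit 18515096), (nat_lit 12482732)] (nat_lit 6713858)) p15_24_2 (nat_lit 4) (nat_lit 103) (nat_lit 104) = true := by decide +kernel
def p15_24_2_104 : pfC (piC [(nat_lit 37722612), (nat_lit 24889148), (nat_lit 18515096), (nat_lit 12482732)] (nat_lit 6713858)) p15_24_2 (nat_lit 4) (nat_lit 104) (nat_lit 105) = true := by decide +kernel
def p15_24_2_105 : pfC (piC [(nat_lit 37722612), (nat_lit 24889148), (nat_lit 18515096), (nat_lit 12482732)] (nat_lit 6713858)) p15_24_2 (nat_lit 4) (nat_lit 105) (nat_lit 106) = true := by decide +kernel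
def p15_24_2_106 : pfC (piC [(nat_lit 37722612), (nat_lit 24889148), (nat_lit 18515096), (nat_lit 12482732)] (nat_lit 6713858)) p15_24_2 (nat_lit 4) (nat_lit 106) (nat_lit 107) = true := by decide +kernel
def p15_24_2_107 : pfC (piC [(nat_lit 37722612), (nat_lit 24889148), (nat_lit 18515096), (nat_lit 12482732)] (nat_lit 6713858)) p15_24_2 (nat_lit 4) (nat_lit 107) (nat_lit 108) = true := by decide +kernel
def p15_24_2_108 : pfC (piC [(nat_lit 37722612), (nat_lit 24889148), (nat_lit 18515096), (nat_lit 12482732)] (nat_lit 6713858)) p15_24_2 (nat_lit 4) (nat_lit 108) (nat_lit 109) = true := by decide +kernel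
def p15_24_2_109 : pfC (piC [(nat_lit 37722612), (nat_lit 24889148), (nat_lit 18515096), (nat_lit 12482732)] (nat_lit 6713858)) p15_24_2 (nat_lit 4) (nat_lit 109) (nat_lit 110) = true := by decide +kernel
def p15_24_2_110 : pfC (piC [(nat_lit 37722612), (nat_lit 24889148), (nat_lit 18515096), (nat_lit 12482732)] (nat_lit 6713858)) p15_24_2 (nat_lit 4) (nat_lit 110) (nat_lit 111) = true := by decide +kernel
def p15_24_2_111 : pfC (piC [(nat_lit 37722612), (nat_lit 24889148), (nat_lit 18515096), (nat_lit 12482732)] (nat_lit 6713858)) p15_24_2 (nat_lit 4) (nat_lit 111) (nat_lit 112) = true := by decide +kernel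
def p15_24_2_112 : pfC (piC [(nat_lit 37722612), (nat_lit 24889148), (nat_lit 18515096), (nat_lit 12482732)] (nat_lit 6713858)) p15_24_2 (nat_lit 4) (nat_lit 112) (nat_lit 113) = true := by decide +kernel
def p15_24_2_113 : pfC (piC [(nat_lit 37722612), (nat_lit 24889148), (nat_lit 18515096), (nat_lit 12482732)] (nat_lit 6713858)) p15_24_2 (nat_lit 4) (nat_lit 113) (nat_lit 114) = true := by decide +kernel
def p15_24_2_114 : pfC (piC [(nat_lit 37722612), (nat_lit 24889148), (nat_lit 18515096), (nat_lit 12482732)] (nat_lit 6713858)) p15_24_2 (nat_lit 4) (nat_lit 114) (nat_lit 115) = true := by decide +kernel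
def p15_24_2_115 : pfC (piC [(nat_lit 37722612), (nat_lit 24889148), (nat_lit 18515096), (nat_lit 12482732)] (nat_lit 6713858)) p15_24_2 (nat_lit 4) (nat_lit 115) (nat_lit 116) = true := by decide +kernel
def p15_24_2_116 : pfC (piC [(nat_lit 37722612), (nat_lit 24889148), (nat_lit 18515096), (nat_lit 12482732)] (nat_lit 6713858)) p15_24_2 (nat_lit 4) (nat_lit 116) (nat_lit 117) = true := by decide +kernel
def p15_24_2_117 : pfC (piC [(nat_lit 37722612), (nat_lit 24889148), (nat_lit 18515096), (nat_lit 12482732)] (nat_lit 6713858)) p15_24_2 (nat_lit 4) (nat_lit 117) (nat_lit 118) = true := by decide +kernel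
def p15_24_2_118 : pfC (piC [(nat_lit 37722612), (nat_lit 24889148), (nat_lit 18515096), (nat_lit 12482732)] (nat_lit 6713858)) p15_24_2 (nat_lit 4) (nat_lit 118) (nat_lit 119) = true := by decide +kernel
def p15_24_2_119 : pfC (piC [(nat_lit 37722612), (nat_lit 24889148), (nat_lit 18515096), (nat_lit 12482732)] (nat_lit 6713858)) p15_24_2 (nat_lit 4) (nat_lit 119) (nat_lit 120) = true := by decide +kernel
def p15_24_2_120 : pfC (piC [(nat_lit 37722612), (nat_lit 24889148), (nat_lit 18515096), (nat_lit 12482732)] (nat_lit 6713858)) p15_24_2 (nat_lit 4) (nat_lit 120) (nat_lit 121) = true := by decide +kernel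
def p15_24_2_121 : pfC (piC [(nat_lit 37722612), (nat_lit 24889148), (nat_lit 18515096), (nat_lit 12482732)] (nat_lit 6713858)) p15_24_2 (nat_lit 4) (nat_lit 121) (nat_lit 122) = true := by decide +kernel
def p15_24_2_122 : pfC (piC [(nat_lit 37722612), (nat_lit 24889148), (nat_lit 18515096), (nat_lit 12482732)] (nat_lit 6713858)) p15_24_2 (nat_lit 4) (nat_lit 122) (nat_lit 123) = true := by decide +kernel
def p15_24_2_123 : pfC (piC [(nat_lit 37722612), (nat_lit 24889148), (nat_lit 18515096), (nat_lit 12482732)] (nat_lit 6713858)) p15_24_2 (nat_lit 4) (nat_lit 123) (nat_lit 124) = true := by decide +kernel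
def p15_24_2_124 : pfC (piC [(nat_lit 37722612), (nat_lit 24889148), (nat_lit 18515096), (nat_lit 12482732)] (nat_lit 6713858)) p15_24_2 (nat_lit 4) (nat_lit 124) (nat_lit 125) = true := by decide +kernel
def p15_24_2_125 : pfC (piC [(nat_lit 37722612), (nat_lit 24889148), (nat_lit 18515096), (nat_lit 12482732)] (nat_lit 6713858)) p15_24_2 (nat_lit 4) (nat_lit 125) (nat_lit 126) = true := by decide +kernel
def p15_24_2_126 : pfC (piC [(nat_lit 37722612), (nat_lit 24889148), (nat_lit 18515096), (nat_lit 12482732)] (nat_lit 6713858)) p15_24_2 (nat_lit 4) (nat_lit 126) (nat_lit 127) = true := by decide +kernel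
def p15_24_2_127 : pfC (piC [(nat_lit 37722612), (nat_lit 24889148), (nat_lit 18515096), (nat_lit 12482732)] (nat_lit 6713858)) p15_24_2 (nat_lit 4) (nat_lit 127) (nat_lit 128) = true := by decide +kernel
def p15_24_2_128 : pfC (piC [(nat_lit 37722612), (nat_lit 24889148), (nat_lit 18515096), (nat_lit 12482732)] (nat_lit 6713858)) p15_24_2 (nat_lit 4) (nat_lit 128) (nat_lit 129) = true := by decide +kernel
def p15_24_2_129 : pfC (piC [(nat_lit 37722612), (nat_lit 24889148), (nat_lit 18515096), (nat_lit 12482732)] (nat_lit 6713858)) p15_24_2 (nat_lit 4) (nat_lit 129) (nat_lit 130) = true := by decide +kernel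
def p15_24_2_130 : pfC (piC [(nat_lit 37722612), (nat_lit 24889148), (nat_lit 18515096), (nat_lit 12482732)] (nat_lit 6713858)) p15_24_2 (nat_lit 4) (nat_lit 130) (nat_lit 131) = true := by decide +kernel
def p15_24_2_131 : pfC (piC [(nat_lit 37722612), (nat_lit 24889148), (nat_lit 18515096), (nat_lit 12482732)] (nat_lit 6713858)) p15_24_2 (nat_lit 4) (nat_lit 131) (nat_lit 132) = true := by decide +kernel
def p15_24_2_132 : pfC (piC [(nat_lit 37722612), (nat_lit 24889148), (nat_lit 18515096), (nat_lit 12482732)] (nat_lit 6713858)) p15_24_2 (nat_lit 4) (nat_lit 132) (nat_lit 133) = true := by decide +kernel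
def p15_24_2_133 : pfC (piC [(nat_lit 37722612), (nat_lit 24889148), (nat_lit 18515096), (nat_lit 12482732)] (nat_lit 6713858)) p15_24_2 (nat_lit 4) (nat_lit 133) (nat_lit 134) = true := by decide +kernel
def p15_24_2_134 : pfC (piC [(nat_lit 37722612), (nat_lit 24889148), (nat_lit 18515096), (nat_lit 12482732)] (nat_lit 6713858)) p15_24_2 (nat_lit 4) (nat_lit 134) (nat_lit 135) = true := by decide +kernel
def p15_24_2_135 : pfC (piC [(nat_lit 37722612), (nat_lit 24889148), (nat_lit 18515096), (nat_lit 12482732)] (nat_lit 6713858)) p15_24_2 (nat_lit 4) (nat_lit 135) (nat_lit 136) = true := by decide +kernel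
def p15_24_2_136 : pfC (piC [(nat_lit 37722612), (nat_lit 24889148), (nat_lit 18515096), (nat_lit 12482732)] (nat_lit 6713858)) p15_24_2 (nat_lit 4) (nat_lit 136) (nat_lit 137) = true := by decide +kernel
def p15_24_2_137 : pfC (piC [(nat_lit 37722612), (nat_lit 24889148), (nat_lit 18515096), (nat_lit 12482732)] (nat_lit 6713858)) p15_24_2 (nat_lit 4) (nat_lit 137) (nat_lit 138) = true := by decide +kernel
def p15_24_2_138 : pfC (piC [(nat_lit 37722612), (nat_lit 24889148), (nat_lit 18515096), (nat_lit 12482732)] (nat_lit 6713858)) p15_24_2 (nat_lit 4) (nat_lit 138) (nat_lit 139) = true := by decide +kernel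
def p15_24_2_139 : pfC (piC [(nat_lit 37722612), (nat_lit 24889148), (nat_lit 18515096), (nat_lit 12482732)] (nat_lit 6713858)) p15_24_2 (nat_lit 4) (nat_lit 139) (nat_lit 140) = true := by decide +kernel
def p15_24_2_140 : pfC (piC [(nat_lit 37722612), (nat_lit 24889148), (nat_lit 18515096), (nat_lit 12482732)] (nat_lit 6713858)) p15_24_2 (nat_lit 4) (nat_lit 140) (nat_lit 141) = true := by decide +kernel
def p15_24_2_141 : pfC (piC [(nat_lit 37722612), (nat_lit 24889148), (nat_lit 18515096), (nat_lit 12482732)] (nat_lit 6713858)) p15_24_2 (nat_lit 4) (nat_lit 141) (nat_lit 142) = true := by decide +kernel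
def p15_24_2_142 : pfC (piC [(nat_lit 37722612), (nat_lit 24889148), (nat_lit 18515096), (nat_lit 12482732)] (nat_lit 6713858)) p15_24_2 (nat_lit 4) (nat_lit 142) (nat_lit 143) = true := by decide +kernel
def p15_24_2_143 : pfC (piC [(nat_lit 37722612), (nat_lit 24889148), (nat_lit 18515096), (nat_lit 12482732)] (nat_lit 6713858)) p15_24_2 (nat_lit 4) (nat_lit 143) (nat_lit 144) = true := by decide +kernel
def p15_24_2_144 : pfC (piC [(nat_lit 37722612), (nat_lit 24889148), (nat_lit 18515096), (nat_lit 12482732)] (nat_lit 6713858)) p15_24_2 (nat_lit 4) (nat_lit 144) (nat_lit 145) = true := by decide +kernel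
def p15_24_2_145 : pfC (piC [(nat_lit 37722612), (nat_lit 24889148), (nat_lit 18515096), (nat_lit 12482732)] (nat_lit 6713858)) p15_24_2 (nat_lit 4) (nat_lit 145) (nat_lit 146) = true := by decide +kernel
def p15_24_2_146 : pfC (piC [(nat_lit 37722612), (nat_lit 24889148), (nat_lit 18515096), (nat_lit 12482732)] (nat_lit 6713858)) p15_24_2 (nat_lit 4) (nat_lit 146) (nat_lit 147) = true := by decide +kernel
def p15_24_2_147 : pfC (piC [(nat_lit 37722612), (nat_lit 24889148), (nat_lit 18515096), (nat_lit 12482732)] (nat_lit 6713858)) p15_24_2 (nat_lit 4) (nat_lit 147) (nat_lit 148) = true := by decide +kernel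
def p15_24_2_148 : pfC (piC [(nat_lit 37722612), (nat_lit 24889148), (nat_lit 18515096), (nat_lit 12482732)] (nat_lit 6713858)) p15_24_2 (nat_lit 4) (nat_lit 148) (nat_lit 149) = true := by decide +kernel
def p15_24_2_149 : pfC (piC [(nat_lit 37722612), (nat_lit 24889148), (nat_lit 18515096), (nat_lit 12482732)] (nat_lit 6713858)) p15_24_2 (nat_lit 4) (nat_lit 149) (nat_lit 150) = true := by decide +kernel
def p15_24_2_150 : pfC (piC [(nat_lit 37722612), (nat_lit 24889148), (nat_lit 18515096), (nat_lit 12482732)] (nat_lit 6713858)) p15_24_2 (nat_lit 4) (nat_lit 150) (nat_lit 151) = true := by decide +kernel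
def p15_24_2_151 : pfC (piC [(nat_lit 37722612), (nat_lit 24889148), (nat_lit 18515096), (nat_lit 12482732)] (nat_lit 6713858)) p15_24_2 (nat_lit 4) (nat_lit 151) (nat_lit 152) = true := by decide +kernel
def p15_24_2_152 : pfC (piC [(nat_lit 37722612), (nat_lit 24889148), (nat_lit 18515096), (nat_lit 12482732)] (nat_lit 6713858)) p15_24_2 (nat_lit 4) (nat_lit 152) (nat_lit 153) = true := by decide +kernel
def p15_24_2_153 : pfC (piC [(nat_lit 37722612), (nat_lit 24889148), (nat_lit 18515096), (nat_lit 12482732)] (nat_lit 6713858)) p15_24_2 (nat_lit 4) (nat_lit 153) (nat_lit 154) = true := by decide +kernel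
def p15_24_2_154 : pfC (piC [(nat_lit 37722612), (nat_lit 24889148), (nat_lit 18515096), (nat_lit 12482732)] (nat_lit 6713858)) p15_24_2 (nat_lit 4) (nat_lit 154) (nat_lit 155) = true := by decide +kernel
def p15_24_2_155 : pfC (piC [(nat_lit 37722612), (nat_lit 24889148), (nat_lit 18515096), (nat_lit 12482732)] (nat_lit 6713858)) p15_24_2 (nat_lit 4) (nat_lit 155) (nat_lit 156) = true := by decide +kernel
def p15_24_2_156 : pfC (piC [(nat_lit 37722612), (nat_lit 24889148), (nat_lit 18515096), (nat_lit 12482732)] (nat_lit 6713858)) p15_24_2 (nat_lit 4) (nat_lit 156) (nat_lit 157) = true := by decide +kernel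
def p15_24_2_157 : pfC (piC [(nat_lit 37722612), (nat_lit 24889148), (nat_lit 18515096), (nat_lit 12482732)] (nat_lit 6713858)) p15_24_2 (nat_lit 4) (nat_lit 157) (nat_lit 158) = true := by decide +kernel
def p15_24_2_158 : pfC (piC [(nat_lit 37722612), (nat_lit 24889148), (nat_lit 18515096), (nat_lit 12482732)] (nat_lit 6713858)) p15_24_2 (nat_lit 4) (nat_lit 158) (nat_lit 159) = true := by decide +kernel
def p15_24_2_159 : pfC (piC [(nat_lit 37722612), (nat_lit 24889148), (nat_lit 18515096), (nat_lit 12482732)] (nat_lit 6713858)) p15_24_2 (nat_lit 4) (nat_lit 159) (nat_lit 160) = true := by decide +kernel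
def p15_24_2_160 : pfC (piC [(nat_lit 37722612), (nat_lit 24889148), (nat_lit 18515096), (nat_lit 12482732)] (nat_lit 6713858)) p15_24_2 (nat_lit 4) (nat_lit 160) (nat_lit 161) = true := by decide +kernel
def p15_24_2_161 : pfC (piC [(nat_lit 37722612), (nat_lit 24889148), (nat_lit 18515096), (nat_lit 12482732)] (nat_lit 6713858)) p15_24_2 (nat_lit 4) (nat_lit 161) (nat_lit 162) = true := by decide +kernel
def p15_24_2_162 : pfC (piC [(nat_lit 37722612), (nat_lit 24889148), (nat_lit 18515096), (nat_lit 12482732)] (nat_lit 6713858)) p15_24_2 (nat_lit 4) (nat_lit 162) (nat_lit 163) = true := by decide +kernel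
def p15_24_2_163 : pfC (piC [(nat_lit 37722612), (nat_lit 24889148), (nat_lit 18515096), (nat_lit 12482732)] (nat_lit 6713858)) p15_24_2 (nat_lit 4) (nat_lit 163) (nat_lit 164) = true := by decide +kernel
def p15_24_2_164 : pfC (piC [(nat_lit 37722612), (nat_lit 24889148), (nat_lit 18515096), (nat_lit 12482732)] (nat_lit 6713858)) p15_24_2 (nat_lit 4) (nat_lit 164) (nat_lit 165) = true := by decide +kernel
def p15_24_2_165 : pfC (piC [(nat_lit 37722612), (nat_lit 24889148), (nat_lit 18515096), (nat_lit 12482732)] (nat_lit 6713858)) p15_24_2 (nat_lit 4) (nat_lit 165) (nat_lit 166) = true := by decide +kernel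
def p15_24_2_166 : pfC (piC [(nat_lit 37722612), (nat_lit 24889148), (nat_lit 18515096), (nat_lit 12482732)] (nat_lit 6713858)) p15_24_2 (nat_lit 4) (nat_lit 166) (nat_lit 167) = true := by decide +kernel
def p15_24_2_167 : pfC (piC [(nat_lit 37722612), (nat_lit 24889148), (nat_lit 18515096), (nat_lit 12482732)] (nat_lit 6713858)) p15_24_2 (nat_lit 4) (nat_lit 167) (nat_lit 168) = true := by decide +kernel
def p15_24_2_168 : pfC (piC [(nat_lit 37722612), (nat_lit 24889148), (nat_lit 18515096), (nat_lit 12482732)] (nat_lit 6713858)) p15_24_2 (nat_lit 4) (nat_lit 168) (nat_lit 169) = true := by decide +kernel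
def p15_24_2_169 : pfC (piC [(nat_lit 37722612), (nat_lit 24889148), (nat_lit 18515096), (nat_lit 12482732)] (nat_lit 6713858)) p15_24_2 (nat_lit 4) (nat_lit 169) (nat_lit 170) = true := by decide +kernel
def p15_24_2_170 : pfC (piC [(nat_lit 37722612), (nat_lit 24889148), (nat_lit 18515096), (nat_lit 12482732)] (nat_lit 6713858)) p15_24_2 (nat_lit 4) (nat_lit 170) (nat_lit 171) = true := by decide +kernel
def p15_24_2_171 : pfC (piC [(nat_lit 37722612), (nat_lit 24889148), (nat_lit 18515096), (nat_lit 12482732)] (nat_lit 6713858)) p15_24_2 (nat_lit 4) (nat_lit 171) (nat_lit 172) = true := by decide +kernel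
def p15_24_2_172 : pfC (piC [(nat_lit 37722612), (nat_lit 24889148), (nat_lit 18515096), (nat_lit 12482732)] (nat_lit 6713858)) p15_24_2 (nat_lit 4) (nat_lit 172) (nat_lit 173) = true := by decide +kernel
def p15_24_2_173 : pfC (piC [(nat_lit 37722612), (nat_lit 24889148), (nat_lit 18515096), (nat_lit 12482732)] (nat_lit 6713858)) p15_24_2 (nat_lit 4) (nat_lit 173) (nat_lit 174) = true := by decide +kernel
def p15_24_2_174 : pfC (piC [(nat_lit 37722612), (nat_lit 24889148), (nat_lit 18515096), (nat_lit 12482732)] (nat_lit 6713858)) p15_24_2 (nat_lit 4) (nat_lit 174) (nat_lit 175) = true := by decide +kernel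
def p15_24_2_175 : pfC (piC [(nat_lit 37722612), (nat_lit 24889148), (nat_lit 18515096), (nat_lit 12482732)] (nat_lit 6713858)) p15_24_2 (nat_lit 4) (nat_lit 175) (nat_lit 176) = true := by decide +kernel
def p15_24_2_176 : pfC (piC [(nat_lit 37722612), (nat_lit 24889148), (nat_lit 18515096), (nat_lit 12482732)] (nat_lit 6713858)) p15_24_2 (nat_lit 4) (nat_lit 176) (nat_lit 177) = true := by decide +kernel
def p15_24_2_177 : pfC (piC [(nat_lit 37722612), (nat_lit 24889148), (nat_lit 18515096), (nat_lit 12482732)] (nat_lit 6713858)) p15_24_2 (nat_lit 4) (nat_lit 177) (nat_lit 178) = true := by decide +kernel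
def p15_24_2_178 : pfC (piC [(nat_lit 37722612), (nat_lit 24889148), (nat_lit 18515096), (nat_lit 12482732)] (nat_lit 6713858)) p15_24_2 (nat_lit 4) (nat_lit 178) (nat_lit 179) = true := by decide +kernel
def p15_24_2_179 : pfC (piC [(nat_lit 37722612), (nat_lit 24889148), (nat_lit 18515096), (nat_lit 12482732)] (nat_lit 6713858)) p15_24_2 (nat_lit 4) (nat_lit 179) (nat_lit 180) = true := by decide +kernel
def p15_24_2_180 : pfC (piC [(nat_lit 37722612), (nat_lit 24889148), (nat_lit 18515096), (nat_lit 12482732)] (nat_lit 6713858)) p15_24_2 (nat_lit 4) (nat_lit 180) (nat_lit 181) = true := by decide +kernel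
def p15_24_2_181 : pfC (piC [(nat_lit 37722612), (nat_lit 24889148), (nat_lit 18515096), (nat_lit 12482732)] (nat_lit 6713858)) p15_24_2 (nat_lit 4) (nat_lit 181) (nat_lit 182) = true := by decide +kernel
def p15_24_2_182 : pfC (piC [(nat_lit 37722612), (nat_lit 24889148), (nat_lit 18515096), (nat_lit 12482732)] (nat_lit 6713858)) p15_24_2 (nat_lit 4) (nat_lit 182) (nat_lit 183) = true := by decide +kernel
theorem p15_24_2_T : PfS (PiF n15_24.reverse (nat_lit 6713858)) p15_24_2 (nat_lit 4) [] 0 :=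
  pftab_of (los := [(nat_lit 37722612), (nat_lit 24889148), (nat_lit 18515096), (nat_lit 12482732)]) (by decide +kernel) (hi := (nat_lit 183)) (PfP.trans (PfP.trans (PfP.trans (PfP.trans (PfP.trans (PfP.trans (PfP.trans (PfP.trans (PfP.trans (PfP.trans (PfP.trans (PfP.trans (PfP.trans (PfP.trans (PfP.trans (PfP.trans (PfP.trans (PfP.trans (PfP.trans (PfP.trans (PfP.trans (PfP.trans (PfP.trans (PfP.trans (PfP.trans (PfP.trans (PfP.trans (PfP.trans (PfP.trans (PfP.trans (PfP.trans (PfP.trans (PfP.trans (PfP.trans (PfP.trans (PfP.trans (PfP.trans (PfP.trans (PfP.trans (PfP.trans (PfP.trans (PfP.trans (PfP.trans (PfP.trans (PfP.trans (PfP.trans (PfP.trans (PfP.trans (PfP.trans (PfP.trans (PfP.trans (PfP.trans (PfP.trans (PfP.trans (PfP.trans (PfP.trans (PfP.trans (PfP.trans (PfP.trans (PfP.trans (PfP.trans (PfP.trans (PfP.trans (PfP.trans (PfP.trans (PfP.trans (PfP.trans (PfP.trans (PfP.trans (PfP.trans (PfP.trans (PfP.trans (PfP.trans (PfP.trans (PfP.trans (PfP.trans (PfP.trans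 (PfP.trans (PfP.trans (PfP.trans (PfP.trans (PfP.trans (PfP.trans (PfP.trans (PfP.trans (PfP.trans (PfP.trans (PfP.trans (PfP.trans (PfP.trans (PfP.trans (PfP.trans (PfP.trans (PfP.trans (PfP.trans (PfP.trans (PfP.trans (PfP.trans (PfP.trans (PfP.trans (PfP.trans (PfP.trans (PfP.trans (PfP.trans (PfP.trans (PfP.trans (PfP.trans (PfP.trans (PfP.trans
 (PfP.trans (PfP.trans (PfP.trans (PfP.trans (PfP.trans (PfP.trans (PfP.trans (PfP.trans (PfP.trans (PfP.trans (PfP.trans (PfP.trans (PfP.trans (PfP.trans (PfP.trans (PfP.trans (PfP.trans (PfP.trans (PfP.trans (PfP.trans (PfP.trans (PfP.trans (PfP.trans (PfP.trans (PfP.trans (PfP.trans (PfP.trans (PfP.trans (PfP.trans (PfP.trans (PfP.trans (PfP.trans (PfP.trans (PfP.trans (PfP.trans (PfP.trans (PfP.trans (PfP.trans (PfP.trans (PfP.trans (PfP.trans (PfP.trans (PfP.trans (PfP.trans (PfP.trans (PfP.trans (PfP.trans (PfP.trans (PfP.trans (PfP.trans (PfP.trans (PfP.trans (PfP.trans (PfP.trans (PfP.trans (PfP.trans (PfP.trans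 (PfP.trans (PfP.trans (PfP.trans (PfP.trans (PfP.trans (PfP.trans (PfP.trans (PfP.trans (PfP.trans (PfP.trans (PfP.trans (PfP.trans (PfP.trans (PfP.trans (PfP.trans (PfP.trans (pfC_sound p15_24_2_0) (pfC_sound p15_24_2_1)) (pfC_sound p15_24_2_2)) (pfC_sound p15_24_2_3)) (pfC_sound p15_24_2_4)) (pfC_sound p15_24_2_5)) (pfC_sound p15_24_2_6)) (pfC_sound p15_24_2_7)) (pfC_sound p15_24_2_8)) (pfC_sound p15_24_2_9)) (pfC_sound p15_24_2_10)) (pfC_sound p15_24_2_11)) (pfC_sound p15_24_2_12)) (pfC_sound p15_24_2_13)) (pfC_sound p15_24_2_14)) (pfC_sound p15_24_2_15))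
 (pfC_sound p15_24_2_16)) (pfC_sound p15_24_2_17)) (pfC_sound p15_24_2_18)) (pfC_sound p15_24_2_19)) (pfC_sound p15_24_2_20)) (pfC_sound p15_24_2_21)) (pfC_sound p15_24_2_22)) (pfC_sound p15_24_2_23)) (pfC_sound p15_24_2_24)) (pfC_sound p15_24_2_25)) (pfC_sound p15_24_2_26)) (pfC_sound p15_24_2_27)) (pfC_sound p15_24_2_28)) (pfC_sound p15_24_2_29)) (pfC_sound p15_24_2_30)) (pfC_sound p15_24_2_31)) (pfC_sound p15_24_2_32)) (pfC_sound p15_24_2_33)) (pfC_sound p15_24_2_34)) (pfC_sound p15_24_2_35)) (pfC_sound p15_24_2_36)) (pfC_sound p15_24_2_37)) (pfC_sound p15_24_2_38)) (pfC_sound p15_24_2_39)) (pfC_sound p15_24_2_40)) (pfC_sound p15_24_2_41)) (pfC_sound p15_24_2_42)) (pfC_sound p15_24_2_43)) (pfC_sound p15_24_2_44)) (pfC_sound p15_24_2_45)) (pfC_sound p15_24_2_46)) (pfC_sound p15_24_2_47)) (pfC_sound p15_24_2_48)) (pfC_sound p15_24_2_49)) (pfC_sound p15_24_2_50)) (pfC_sound p15_24_2_51)) (pfC_sound p15_24_2_52)) (pfC_sound p15_24_2_53)) (pfC_sound p15_24_2_54)) (pfC_sound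 p15_24_2_55)) (pfC_sound p15_24_2_56)) (pfC_sound p15_24_2_57)) (pfC_sound p15_24_2_58)) (pfC_sound p15_24_2_59)) (pfC_sound p15_24_2_60)) (pfC_sound p15_24_2_61)) (pfC_sound p15_24_2_62)) (pfC_sound p15_24_2_63))
 (pfC_sound p15_24_2_64)) (pfC_sound p15_24_2_65)) (pfC_sound p15_24_2_66)) (pfC_sound p15_24_2_67)) (pfC_sound p15_24_2_68)) (pfC_sound p15_24_2_69)) (pfC_sound p15_24_2_70)) (pfC_sound p15_24_2_71)) (pfC_sound p15_24_2_72)) (pfC_sound p15_24_2_73)) (pfC_sound p15_24_2_74)) (pfC_sound p15_24_2_75)) (pfC_sound p15_24_2_76)) (pfC_sound p15_24_2_77)) (pfC_sound p15_24_2_78)) (pfC_sound p15_24_2_79)) (pfC_sound p15_24_2_80)) (pfC_sound p15_24_2_81)) (pfC_sound p15_24_2_82)) (pfC_sound p15_24_2_83)) (pfC_sound p15_24_2_84)) (pfC_sound p15_24_2_85)) (pfC_sound p15_24_2_86)) (pfC_sound p15_24_2_87)) (pfC_sound p15_24_2_88)) (pfC_sound p15_24_2_89)) (pfC_sound p15_24_2_90)) (pfC_sound p15_24_2_91)) (pfC_sound p15_24_2_92)) (pfC_sound p15_24_2_93)) (pfC_sound p15_24_2_94))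 (pfC_sound p15_24_2_95)) (pfC_sound p15_24_2_96)) (pfC_sound p15_24_2_97)) (pfC_sound p15_24_2_98)) (pfC_sound p15_24_2_99)) (pfC_sound p15_24_2_100)) (pfC_sound p15_24_2_101)) (pfC_sound p15_24_2_102)) (pfC_sound p15_24_2_103)) (pfC_sound p15_24_2_104)) (pfC_sound p15_24_2_105)) (pfC_sound p15_24_2_106)) (pfC_sound p15_24_2_107)) (pfC_sound p15_24_2_108)) (pfC_sound p15_24_2_109)) (pfC_sound p15_24_2_110)) (pfC_sound
 p15_24_2_111)) (pfC_sound p15_24_2_112)) (pfC_sound p15_24_2_113)) (pfC_sound p15_24_2_114)) (pfC_sound p15_24_2_115)) (pfC_sound p15_24_2_116)) (pfC_sound p15_24_2_117)) (pfC_sound p15_24_2_118)) (pfC_sound p15_24_2_119)) (pfC_sound p15_24_2_120)) (pfC_sound p15_24_2_121)) (pfC_sound p15_24_2_122)) (pfC_sound p15_24_2_123)) (pfC_sound p15_24_2_124)) (pfC_sound p15_24_2_125)) (pfC_sound p15_24_2_126)) (pfC_sound p15_24_2_127)) (pfC_sound p15_24_2_128)) (pfC_sound p15_24_2_129)) (pfC_sound p15_24_2_130)) (pfC_sound p15_24_2_131)) (pfC_sound p15_24_2_132))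 (pfC_sound p15_24_2_133)) (pfC_sound p15_24_2_134)) (pfC_sound p15_24_2_135)) (pfC_sound p15_24_2_136)) (pfC_sound p15_24_2_137)) (pfC_sound p15_24_2_138)) (pfC_sound p15_24_2_139)) (pfC_sound p15_24_2_140)) (pfC_sound p15_24_2_141)) (pfC_sound p15_24_2_142)) (pfC_sound p15_24_2_143)) (pfC_sound p15_24_2_144)) (pfC_sound p15_24_2_145)) (pfC_sound p15_24_2_146)) (pfC_sound p15_24_2_147)) (pfC_sound p15_24_2_148)) (pfC_sound p15_24_2_149)) (pfC_sound p15_24_2_150)) (pfC_sound p15_24_2_151)) (pfC_sound p15_24_2_152)) (pfC_sound p15_24_2_153)) (pfC_sound p15_24_2_154)) (pfC_sound p15_24_2_155)) (pfC_sound p15_24_2_156)) (pfC_sound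
 p15_24_2_157)) (pfC_sound p15_24_2_158)) (pfC_sound p15_24_2_159)) (pfC_sound p15_24_2_160)) (pfC_sound p15_24_2_161)) (pfC_sound p15_24_2_162)) (pfC_sound p15_24_2_163)) (pfC_sound p15_24_2_164)) (pfC_sound p15_24_2_165)) (pfC_sound p15_24_2_166)) (pfC_sound p15_24_2_167)) (pfC_sound p15_24_2_168)) (pfC_sound p15_24_2_169)) (pfC_sound p15_24_2_170)) (pfC_sound p15_24_2_171)) (pfC_sound p15_24_2_172)) (pfC_sound p15_24_2_173)) (pfC_sound p15_24_2_174)) (pfC_sound p15_24_2_175)) (pfC_sound p15_24_2_176)) (pfC_sound p15_24_2_177)) (pfC_sound p15_24_2_178)) (pfC_sound p15_24_2_179)) (pfC_sound p15_24_2_180)) (pfC_sound p15_24_2_181)) (pfC_sound p15_24_2_182)) (by decide +kernel)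

def z15_24_2 : zOK yB15_24 (nat_lit 2) (nat_lit 600) (nat_lit 750) (nat_lit 6713858) (nat_lit 4942965) = true := by decide +kernel
def g15_24_2 : gOK yB15_24.x P15_24 (nat_lit 1415) (q15_24 :: r15_24) (nat_lit 2) (nat_lit 600) (nat_lit 3) (nat_lit 750) (nat_lit 12712500) (nat_lit 12712500) (nat_lit 12712500) (nat_lit 12712500) [(nat_lit 800), (nat_lit 1600)] = true := by decide +kernel
def v15_24_2 : ivC P15_24 s15_24 w15_24 n15_24 (nat_lit 4) (nat_lit 4775) (nat_lit 2) (nat_lit 600) f160_1_600 f168_1_600 (nat_lit 3) (nat_lit 750) f160_1_750 f168_1_750 (nat_lit 6713858) (nat_lit 4942965) p15_24_2 = true := by decide +kernel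
def p15_24_3 : PF := (PF.cons (PF.cons (PF.cons (PF.cons (PF.leaf (nat_lit 2994563) (nat_lit 19221150) (nat_lit 47887662) (nat_lit 19221150) [(nat_lit 0), (nat_lit 0), (nat_lit 0), (nat_lit 0)]) (PF.cons (PF.leaf (nat_lit 3171354) (nat_lit 319628) (nat_lit 47614768) (nat_lit 19174416) [(nat_lit 319628), (nat_lit 0), (nat_lit 0), (nat_lit 0)]) (PF.cons (PF.leaf (nat_lit 3379492) (nat_lit 346809) (nat_lit 47296591) (nat_lit 19118601) [(nat_lit 346809), (nat_lit 0), (nat_lit 0), (nat_lit 0)]) (PF.cons (PF.leaf (nat_lit 3612412) (nat_lit 370655) (nat_lit 46942070) (nat_lit 19054776) [(nat_lit 370655), (nat_lit 0), (nat_lit 0), (nat_lit 0)]) (PF.cons (PF.leaf (nat_lit 3866195) (nat_lit 391890) (nat_lit 46557596) (nat_lit 18983654) [(nat_lit 391890), (nat_lit 0), (nat_lit 0), (nat_lit 0)]) (PF.cons (PF.leaf (nat_lit 4137907) (nat_lit 410984) (nat_lit 46148120) (nat_lit 18905771) [(nat_lit 410984), (nat_lit 0), (nat_lit 0), (nat_lit 0)]) (PF.cons (PF.leaf (nat_lit 4425061)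 (nat_lit 428260) (nat_lit 45717673) (nat_lit 18821573) [(nat_lit 428260), (nat_lit 0), (nat_lit 0), (nat_lit 0)]) (PF.cons (PF.leaf (nat_lit 4725628) (nat_lit 443959) (nat_lit 45269646) (nat_lit 18731452) [(nat_lit 443959), (nat_lit 0),
 (nat_lit 0), (nat_lit 0)]) (PF.cons (PF.leaf (nat_lit 5037817) (nat_lit 458261) (nat_lit 44806949) (nat_lit 18635770) [(nat_lit 458261), (nat_lit 0), (nat_lit 0), (nat_lit 0)]) (PF.cons (PF.leaf (nat_lit 5360141) (nat_lit 471313) (nat_lit 44332121) (nat_lit 18534872) [(nat_lit 471313), (nat_lit 0), (nat_lit 0), (nat_lit 0)]) (PF.cons PF.nil (PF.cons PF.nil PF.nil)))))))))))) (PF.cons (PF.cons (PF.leaf (nat_lit 3549388) (nat_lit 1344929) (nat_lit 46748334) (nat_lit 19015549) [(nat_lit 0), (nat_lit 1344929), (nat_lit 0), (nat_lit 0)]) (PF.cons (PF.leaf (nat_lit 3774061) (nat_lit 379423) (nat_lit 46400509) (nat_lit 18950344) [(nat_lit 379423), (nat_lit 1378535), (nat_lit 0), (nat_lit 0)]) (PF.cons (PF.leaf (nat_lit 4021833) (nat_lit 399909)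 (nat_lit 46020846) (nat_lit 18877383) [(nat_lit 399909), (nat_lit 1410764), (nat_lit 0), (nat_lit 0)]) (PF.cons (PF.leaf (nat_lit 4288367) (nat_lit 418257) (nat_lit 45615421) (nat_lit 18797449) [(nat_lit 418257), (nat_lit 1441170), (nat_lit 0), (nat_lit 0)]) (PF.cons (PF.leaf (nat_lit 4570821) (nat_lit 434820) (nat_lit 45188834) (nat_lit 18711125) [(nat_lit 434820), (nat_lit 1469571), (nat_lit 0), (nat_lit 0)]) (PF.cons (PF.leaf (nat_lit 4866939)
 (nat_lit 449847) (nat_lit 44744773) (nat_lit 18618891) [(nat_lit 449847), (nat_lit 1495911), (nat_lit 0), (nat_lit 0)]) (PF.cons (PF.leaf (nat_lit 5174874) (nat_lit 463522) (nat_lit 44286307) (nat_lit 18521168) [(nat_lit 463522), (nat_lit 1520205), (nat_lit 0), (nat_lit 0)]) (PF.cons (PF.leaf (nat_lit 5492945) (nat_lit 475987) (nat_lit 43816052) (nat_lit 18418340) [(nat_lit 475987), (nat_lit 1542504), (nat_lit 0), (nat_lit 0)]) (PF.cons (PF.leaf (nat_lit 5819757) (nat_lit 487360) (nat_lit 43336275) (nat_lit 18310771) [(nat_lit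 487360), (nat_lit 1562878), (nat_lit 0), (nat_lit 0)]) (PF.cons PF.nil PF.nil)))))))))) (PF.cons (PF.cons (PF.leaf (nat_lit 4180603) (nat_lit 1434994) (nat_lit 45473529) (nat_lit 18765293) [(nat_lit 0), (nat_lit 1434994), (nat_lit 0), (nat_lit 0)]) (PF.cons (PF.leaf (nat_lit 4439858) (nat_lit 424347) (nat_lit 45075777) (nat_lit 18684148) [(nat_lit 424347), (nat_lit 1462269), (nat_lit 0), (nat_lit 0)]) (PF.cons (PF.leaf (nat_lit 4716564) (nat_lit 440395) (nat_lit 44655707) (nat_lit 18596362) [(nat_lit 440395), (nat_lit 1487975), (nat_lit 0), (nat_lit 0)]) (PF.cons (PF.leaf (nat_lit 5007533) (nat_lit 454897) (nat_lit 44217647) (nat_lit 18502565) [(nat_lit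
 454897), (nat_lit 1511953), (nat_lit 0), (nat_lit 0)]) (PF.cons (PF.leaf (nat_lit 5310629) (nat_lit 468056) (nat_lit 43765016) (nat_lit 18403273) [(nat_lit 468056), (nat_lit 1534149), (nat_lit 0), (nat_lit 0)]) (PF.cons (PF.leaf (nat_lit 5624089) (nat_lit 480025) (nat_lit 43300623) (nat_lit 18298930) [(nat_lit 480025), (nat_lit 1554566), (nat_lit 0), (nat_lit 0)]) (PF.cons (PF.leaf (nat_lit 5946394) (nat_lit 490925) (nat_lit 42826843) (nat_lit 18189939) [(nat_lit 490925), (nat_lit 1573239), (nat_lit 0), (nat_lit 0)]) (PF.cons PF.nil (PF.cons PF.nil PF.nil))))))))) (PF.cons (PF.cons (PF.leaf (nat_lit 4863902) (nat_lit 1504614) (nat_lit 44117784) (nat_lit 18477186) [(nat_lit 0), (nat_lit 1504614), (nat_lit 0), (nat_lit 0)]) (PF.cons (PF.leaf (nat_lit 5148232) (nat_lit 459122) (nat_lit 43688050) (nat_lit 18382470) [(nat_lit 459122), (nat_lit 1526389), (nat_lit 0), (nat_lit 0)]) (PF.cons (PF.leaf (nat_lit 5445777) (nat_lit 471882) (nat_lit 43243010) (nat_lit 18282136)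 [(nat_lit 471882), (nat_lit 1546633), (nat_lit 0), (nat_lit 0)]) (PF.cons (PF.leaf (nat_lit 5754110) (nat_lit 483445) (nat_lit 42785848) (nat_lit 18176726) [(nat_lit 483445), (nat_lit 1565300), (nat_lit 0), (nat_lit 0)])
 (PF.cons (PF.leaf (nat_lit 6071566) (nat_lit 493945) (nat_lit 42319155) (nat_lit 18066705) [(nat_lit 493945), (nat_lit 1582390), (nat_lit 0), (nat_lit 0)]) (PF.cons (PF.leaf (nat_lit 6396729) (nat_lit 503485) (nat_lit 41845095) (nat_lit 17952485) [(nat_lit 503485), (nat_lit 1597934), (nat_lit 0), (nat_lit 0)]) (PF.cons PF.nil PF.nil))))))) (PF.cons (PF.cons (PF.leaf (nat_lit 5581520) (nat_lit 1557788) (nat_lit 42719927) (nat_lit 18157730) [(nat_lit 0), (nat_lit 1557788), (nat_lit 0), (nat_lit 0)]) (PF.cons (PF.leaf (nat_lit 5883649) (nat_lit 486256) (nat_lit 42271539) (nat_lit 18051758) [(nat_lit 486256), (nat_lit 1574814), (nat_lit 0), (nat_lit 0)]) (PF.cons (PF.leaf (nat_lit 6195737) (nat_lit 496432) (nat_lit 41813118) (nat_lit 17941131) [(nat_lit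 496432), (nat_lit 1590424), (nat_lit 0), (nat_lit 0)]) (PF.cons (PF.leaf (nat_lit 6515849) (nat_lit 505646) (nat_lit 41347055) (nat_lit 17826324) [(nat_lit 505646), (nat_lit 1604623), (nat_lit 0), (nat_lit 0)]) (PF.cons (PF.leaf (nat_lit 6842667) (nat_lit 513992) (nat_lit 40875332) (nat_lit 17707755) [(nat_lit 513992), (nat_lit 1617438), (nat_lit 0), (nat_lit 0)]) PF.nil))))) (PF.cons (PF.cons (PF.leaf (nat_lit 6319877) (nat_lit
 1597426) (nat_lit 41308453) (nat_lit 17813228) [(nat_lit 0), (nat_lit 1597426), (nat_lit 0), (nat_lit 0)]) (PF.cons (PF.leaf (nat_lit 6634118) (nat_lit 507340) (nat_lit 40851424) (nat_lit 17698234) [(nat_lit 507340), (nat_lit 1610362), (nat_lit 0), (nat_lit 0)]) (PF.cons (PF.leaf (nat_lit 6955752) (nat_lit 515419) (nat_lit 40388363) (nat_lit 17579479) [(nat_lit 515419), (nat_lit 1622026), (nat_lit 0), (nat_lit 0)]) (PF.cons PF.nil PF.nil)))) (PF.cons (PF.cons (PF.leaf (nat_lit 7068441) (nat_lit 1625799) (nat_lit 39904372) (nat_lit 17449642)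 [(nat_lit 0), (nat_lit 1625799), (nat_lit 0), (nat_lit 0)]) (PF.cons (PF.leaf (nat_lit 7390307) (nat_lit 523503) (nat_lit 39446219) (nat_lit 17327716) [(nat_lit 523503), (nat_lit 1635228), (nat_lit 0), (nat_lit 0)]) PF.nil)) (PF.cons PF.nil (PF.cons PF.nil PF.nil))))))))) (PF.cons (PF.cons (PF.cons (PF.leaf (nat_lit 4075527) (nat_lit 3379952) (nat_lit 45064446) (nat_lit 18664413) [(nat_lit 0), (nat_lit 0), (nat_lit 3379952), (nat_lit 0)]) (PF.cons (PF.leaf (nat_lit 4308207) (nat_lit 402214) (nat_lit 44710251) (nat_lit 18590758) [(nat_lit 402214), (nat_lit 0), (nat_lit 3405588), (nat_lit 0)]) (PF.cons (PF.leaf (nat_lit 4562639) (nat_lit 421061)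
 (nat_lit 44326768) (nat_lit 18509311) [(nat_lit 421061), (nat_lit 0), (nat_lit 3430609), (nat_lit 0)]) (PF.cons (PF.leaf (nat_lit 4834381) (nat_lit 437712) (nat_lit 43920232) (nat_lit 18421068) [(nat_lit 437712), (nat_lit 0), (nat_lit 3454373), (nat_lit 0)]) (PF.cons (PF.leaf (nat_lit 5120606) (nat_lit 452581) (nat_lit 43495238) (nat_lit 18326759) [(nat_lit 452581), (nat_lit 0), (nat_lit 3476487), (nat_lit 0)]) (PF.cons (PF.leaf (nat_lit 5419076) (nat_lit 465949) (nat_lit 43055382) (nat_lit 18226967) [(nat_lit 465949), (nat_lit 0), (nat_lit 3496716), (nat_lit 0)]) (PF.cons (PF.leaf (nat_lit 5728001) (nat_lit 478017) (nat_lit 42603592) (nat_lit 18122188) [(nat_lit 478017), (nat_lit 0), (nat_lit 3514927), (nat_lit 0)]) (PF.cons (PF.leaf (nat_lit 6045786) (nat_lit 488940) (nat_lit 42142312) (nat_lit 18012857) [(nat_lit 488940), (nat_lit 0), (nat_lit 3531055), (nat_lit 0)]) (PF.cons PF.nil (PF.cons PF.nil PF.nil)))))))))) (PF.cons (PF.cons (PF.leaf (nat_lit 4715172) (nat_lit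 1481400) (nat_lit 43787918) (nat_lit 18388360) [(nat_lit 0), (nat_lit 1481400), (nat_lit 3451134), (nat_lit 0)]) (PF.cons (PF.leaf (nat_lit 4978873) (nat_lit 441819) (nat_lit 43391458) (nat_lit 18299837) [(nat_lit
 441819), (nat_lit 1504028), (nat_lit 3471670), (nat_lit 0)]) (PF.cons (PF.leaf (nat_lit 5258707) (nat_lit 456367) (nat_lit 42975086) (nat_lit 18204937) [(nat_lit 456367), (nat_lit 1525196), (nat_lit 3490856), (nat_lit 0)]) (PF.cons (PF.leaf (nat_lit 5551515) (nat_lit 469375) (nat_lit 42543072) (nat_lit 18104411) [(nat_lit 469375), (nat_lit 1544796), (nat_lit 3508406), (nat_lit 0)]) (PF.cons (PF.leaf (nat_lit 5855196) (nat_lit 481072) (nat_lit 42098716) (nat_lit 17998851) [(nat_lit 481072), (nat_lit 1562801), (nat_lit 3524154), (nat_lit 0)]) (PF.cons (PF.leaf (nat_lit 6168068) (nat_lit 491626) (nat_lit 41644683) (nat_lit 17888758) [(nat_lit 491626), (nat_lit 1579228), (nat_lit 3538010), (nat_lit 0)]) (PF.cons (PF.leaf (nat_lit 6488685) (nat_lit 501166) (nat_lit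 41183185) (nat_lit 17774571) [(nat_lit 501166), (nat_lit 1594118), (nat_lit 3549940), (nat_lit 0)]) (PF.cons PF.nil (PF.cons PF.nil PF.nil))))))))) (PF.cons (PF.cons (PF.leaf (nat_lit 5398599) (nat_lit 1537167) (nat_lit 42452066) (nat_lit 18079463) [(nat_lit 0), (nat_lit 1537167), (nat_lit 3502948), (nat_lit 0)]) (PF.cons (PF.leaf (nat_lit 5684308) (nat_lit 472098) (nat_lit 42029911) (nat_lit 17978818) [(nat_lit 472098),
 (nat_lit 1554996), (nat_lit 3517993), (nat_lit 0)]) (PF.cons (PF.leaf (nat_lit 5982081) (nat_lit 483527) (nat_lit 41594484) (nat_lit 17872973) [(nat_lit 483527), (nat_lit 1571428), (nat_lit 3531443), (nat_lit 0)]) (PF.cons (PF.leaf (nat_lit 6289532) (nat_lit 493790) (nat_lit 41148839) (nat_lit 17762532) [(nat_lit 493790), (nat_lit 1586441), (nat_lit 3543185), (nat_lit 0)]) (PF.cons (PF.leaf (nat_lit 6605067) (nat_lit 503033) (nat_lit 40695417) (nat_lit 17647995) [(nat_lit 503033), (nat_lit 1600051), (nat_lit 3553164), (nat_lit 0)]) (PF.cons (PF.leaf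 (nat_lit 6927343) (nat_lit 511366) (nat_lit 40236228) (nat_lit 17529800) [(nat_lit 511366), (nat_lit 1612291), (nat_lit 3561367), (nat_lit 0)]) (PF.cons PF.nil PF.nil))))))) (PF.cons (PF.cons (PF.leaf (nat_lit 6109768) (nat_lit 1578996) (nat_lit 41090405) (nat_lit 17744492) [(nat_lit 0), (nat_lit 1578996), (nat_lit 3536924), (nat_lit 0)]) (PF.cons (PF.leaf (nat_lit 6410767) (nat_lit 495430) (nat_lit 40654473) (nat_lit 17634172) [(nat_lit 495430), (nat_lit 1592680), (nat_lit 3546695), (nat_lit 0)]) (PF.cons (PF.leaf (nat_lit 6720743) (nat_lit 504444) (nat_lit 40210127) (nat_lit 17519674) [(nat_lit 504444), (nat_lit 1605087), (nat_lit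
 3554858), (nat_lit 0)]) (PF.cons (PF.leaf (nat_lit 7037837) (nat_lit 512537) (nat_lit 39759610) (nat_lit 17401501) [(nat_lit 512537), (nat_lit 1616234), (nat_lit 3561384), (nat_lit 0)]) (PF.cons PF.nil PF.nil))))) (PF.cons (PF.cons (PF.leaf (nat_lit 6836630) (nat_lit 1609289) (nat_lit 39726949) (nat_lit 17389588) [(nat_lit 0), (nat_lit 1609289), (nat_lit 3555115), (nat_lit 0)]) (PF.cons (PF.leaf (nat_lit 7147746) (nat_lit 513306) (nat_lit 39285985) (nat_lit 17271800) [(nat_lit 513306), (nat_lit 1619409), (nat_lit 3560083), (nat_lit 0)]) (PF.cons (PF.leaf (nat_lit 7465451) (nat_lit 520383) (nat_lit 38840214) (nat_lit 17150732) [(nat_lit 520383), (nat_lit 1628390), (nat_lit 3563539), (nat_lit 0)]) (PF.cons PF.nil PF.nil)))) (PF.cons (PF.cons (PF.leaf (nat_lit 7569948) (nat_lit 1629964) (nat_lit 38379043) (nat_lit 17020284) [(nat_lit 0), (nat_lit 1629964), (nat_lit 3559661), (nat_lit 0)]) (PF.cons PF.nil PF.nil)) (PF.cons PF.nil (PF.cons PF.nil PF.nil)))))))) (PF.cons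 (PF.cons (PF.cons (PF.leaf (nat_lit 5236550) (nat_lit 3481474) (nat_lit 42152594) (nat_lit 17993268) [(nat_lit 0), (nat_lit 0), (nat_lit 3481474), (nat_lit 0)]) (PF.cons (PF.leaf (nat_lit 5502742) (nat_lit 455264)
 (nat_lit 41761910) (nat_lit 17899210) [(nat_lit 455264), (nat_lit 0), (nat_lit 3496213), (nat_lit 0)]) (PF.cons (PF.leaf (nat_lit 5783924) (nat_lit 468505) (nat_lit 41353400) (nat_lit 17799092) [(nat_lit 468505), (nat_lit 0), (nat_lit 3509654), (nat_lit 0)]) (PF.cons (PF.leaf (nat_lit 6076950) (nat_lit 480221) (nat_lit 40931216) (nat_lit 17693747) [(nat_lit 480221), (nat_lit 0), (nat_lit 3521591), (nat_lit 0)]) (PF.cons (PF.leaf (nat_lit 6379790) (nat_lit 490661) (nat_lit 40498523) (nat_lit 17583824) [(nat_lit 490661), (nat_lit 0), (nat_lit 3531910), (nat_lit 0)]) (PF.cons (PF.leaf (nat_lit 6690813) (nat_lit 500001) (nat_lit 40057832) (nat_lit 17469858) [(nat_lit 500001), (nat_lit 0), (nat_lit 3540556), (nat_lit 0)]) (PF.cons (PF.leaf (nat_lit 7008631) (nat_lit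 508378) (nat_lit 39611198) (nat_lit 17352307) [(nat_lit 508378), (nat_lit 0), (nat_lit 3547517), (nat_lit 0)]) (PF.cons PF.nil (PF.cons PF.nil PF.nil))))))))) (PF.cons (PF.cons (PF.leaf (nat_lit 5916395) (nat_lit 1559185) (nat_lit 40848709) (nat_lit 17669614) [(nat_lit 0), (nat_lit 1559185), (nat_lit 3515651), (nat_lit 0)]) (PF.cons (PF.leaf (nat_lit 6202025) (nat_lit 481734) (nat_lit 40437338) (nat_lit 17564821) [(nat_lit
 481734), (nat_lit 1573741), (nat_lit 3525588), (nat_lit 0)]) (PF.cons (PF.leaf (nat_lit 6498714) (nat_lit 492009) (nat_lit 40014394) (nat_lit 17455243) [(nat_lit 492009), (nat_lit 1587012), (nat_lit 3534071), (nat_lit 0)]) (PF.cons (PF.leaf (nat_lit 6804131) (nat_lit 501151) (nat_lit 39582787) (nat_lit 17341521) [(nat_lit 501151), (nat_lit 1598996), (nat_lit 3541026), (nat_lit 0)]) (PF.cons (PF.leaf (nat_lit 7116748) (nat_lit 509313) (nat_lit 39144808) (nat_lit 17224178) [(nat_lit 509313), (nat_lit 1609719), (nat_lit 3546425), (nat_lit 0)]) (PF.cons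 PF.nil (PF.cons PF.nil PF.nil))))))) (PF.cons (PF.cons (PF.leaf (nat_lit 6618636) (nat_lit 1591710) (nat_lit 39531240) (nat_lit 17324612) [(nat_lit 0), (nat_lit 1591710), (nat_lit 3534770), (nat_lit 0)]) (PF.cons (PF.leaf (nat_lit 6917456) (nat_lit 501841) (nat_lit 39109872) (nat_lit 17211569) [(nat_lit 501841), (nat_lit 1602610), (nat_lit 3540153), (nat_lit 0)]) (PF.cons (PF.leaf (nat_lit 7224410) (nat_lit 509852) (nat_lit 38681403) (nat_lit 17094790) [(nat_lit 509852), (nat_lit 1612353), (nat_lit 3544102), (nat_lit 0)]) (PF.cons (PF.leaf (nat_lit 7537704) (nat_lit 516980) (nat_lit 38247934) (nat_lit 16974787) [(nat_lit 516980),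
 (nat_lit 1620963), (nat_lit 3546610), (nat_lit 0)]) (PF.cons PF.nil PF.nil))))) (PF.cons (PF.cons (PF.leaf (nat_lit 7332493) (nat_lit 1614307) (nat_lit 38220566) (nat_lit 16964093) [(nat_lit 0), (nat_lit 1614307), (nat_lit 3540615), (nat_lit 0)]) (PF.cons (PF.leaf (nat_lit 7639776) (nat_lit 516997) (nat_lit 37796875) (nat_lit 16844934) [(nat_lit 516997), (nat_lit 1622078), (nat_lit 3541884), (nat_lit 0)]) (PF.cons PF.nil (PF.cons PF.nil PF.nil)))) (PF.cons (PF.cons (PF.leaf (nat_lit 8049839) (nat_lit 1628634) (nat_lit 36931093) (nat_lit 16593114) [(nat_lit 0), (nat_lit 1628634), (nat_lit 3535032), (nat_lit 0)]) (PF.cons PF.nil PF.nil)) (PF.cons PF.nil PF.nil)))))) (PF.cons (PF.cons (PF.cons (PF.leaf (nat_lit 6416785) (nat_lit 3513949) (nat_lit 39313373) (nat_lit 17253592) [(nat_lit 0), (nat_lit 0), (nat_lit 3513949), (nat_lit 0)]) (PF.cons (PF.leaf (nat_lit 6701182) (nat_lit 488639) (nat_lit 38914904) (nat_lit 17146152) [(nat_lit 488639), (nat_lit 0), (nat_lit 3519705),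 (nat_lit 0)]) (PF.cons (PF.leaf (nat_lit 6995773) (nat_lit 497906) (nat_lit 38506288) (nat_lit 17034323) [(nat_lit 497906), (nat_lit 0), (nat_lit 3524129), (nat_lit 0)]) (PF.cons (PF.leaf (nat_lit 7298290) (nat_lit
 506073) (nat_lit 38090282) (nat_lit 16918768) [(nat_lit 506073), (nat_lit 0), (nat_lit 3527180), (nat_lit 0)]) (PF.cons (PF.leaf (nat_lit 7607250) (nat_lit 513300) (nat_lit 37669033) (nat_lit 16800021) [(nat_lit 513300), (nat_lit 0), (nat_lit 3528851), (nat_lit 0)]) PF.nil))))) (PF.cons (PF.cons (PF.leaf (nat_lit 7108275) (nat_lit 1597603) (nat_lit 38044997) (nat_lit 16903083) [(nat_lit 0), (nat_lit 1597603), (nat_lit 3521042), (nat_lit 0)]) (PF.cons (PF.leaf (nat_lit 7404118) (nat_lit 505991) (nat_lit 37639459) (nat_lit 16788655) [(nat_lit 505991), (nat_lit 1606172), (nat_lit 3522844), (nat_lit 0)]) (PF.cons (PF.leaf (nat_lit 7707380) (nat_lit 513130) (nat_lit 37227889) (nat_lit 16670888) [(nat_lit 513130), (nat_lit 1613687), (nat_lit 3523362), (nat_lit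 0)]) (PF.cons PF.nil PF.nil)))) (PF.cons (PF.cons (PF.leaf (nat_lit 7808133) (nat_lit 1613828) (nat_lit 36789566) (nat_lit 16540814) [(nat_lit 0), (nat_lit 1613828), (nat_lit 3516925), (nat_lit 0)]) (PF.cons (PF.leaf (nat_lit 8111071) (nat_lit 518829) (nat_lit 36383722) (nat_lit 16421426) [(nat_lit 518829), (nat_lit 1619635), (nat_lit 3515187), (nat_lit 0)]) PF.nil)) (PF.cons PF.nil (PF.cons PF.nil PF.nil))))) (PF.cons (PF.cons
 (PF.cons (PF.leaf (nat_lit 7579123) (nat_lit 3498227) (nat_lit 36632081) (nat_lit 16483821) [(nat_lit 0), (nat_lit 0), (nat_lit 3498227), (nat_lit 0)]) (PF.cons (PF.leaf (nat_lit 7871388) (nat_lit 508282) (nat_lit 36243026) (nat_lit 16369088) [(nat_lit 508282), (nat_lit 0), (nat_lit 3497103), (nat_lit 0)]) (PF.cons (PF.leaf (nat_lit 8170456) (nat_lit 514660) (nat_lit 35848812) (nat_lit 16251372) [(nat_lit 514660), (nat_lit 0), (nat_lit 3494826), (nat_lit 0)]) (PF.cons PF.nil PF.nil)))) (PF.cons (PF.cons (PF.leaf (nat_lit 8264349) (nat_lit 1608935)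 (nat_lit 35432709) (nat_lit 16122869) [(nat_lit 0), (nat_lit 1608935), (nat_lit 3486074), (nat_lit 0)]) (PF.cons PF.nil PF.nil)) (PF.cons PF.nil PF.nil))) (PF.cons (PF.cons (PF.cons (PF.leaf (nat_lit 8702050) (nat_lit 3449690) (nat_lit 34147758) (nat_lit 15712602) [(nat_lit 0), (nat_lit 0), (nat_lit 3449690), (nat_lit 0)]) (PF.cons PF.nil PF.nil)) (PF.cons PF.nil PF.nil)) (PF.cons PF.nil (PF.cons PF.nil PF.nil)))))))) (PF.cons (PF.cons (PF.cons (PF.cons (PF.leaf (nat_lit 4905523) (nat_lit 8468980) (nat_lit 41014905) (nat_lit 17624927) [(nat_lit 0), (nat_lit 0), (nat_lit 0), (nat_lit 8468980)]) (PF.cons (PF.leaf (nat_lit 5135101) (nat_lit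
 409851) (nat_lit 40694355) (nat_lit 17546248) [(nat_lit 409851), (nat_lit 0), (nat_lit 0), (nat_lit 8458357)]) (PF.cons (PF.leaf (nat_lit 5384849) (nat_lit 427311) (nat_lit 40348691) (nat_lit 17460126) [(nat_lit 427311), (nat_lit 0), (nat_lit 0), (nat_lit 8445373)]) (PF.cons (PF.leaf (nat_lit 5650307) (nat_lit 442465) (nat_lit 39983652) (nat_lit 17367758) [(nat_lit 442465), (nat_lit 0), (nat_lit 0), (nat_lit 8430005)]) (PF.cons (PF.leaf (nat_lit 5928671) (nat_lit 455781) (nat_lit 39603416) (nat_lit 17270015) [(nat_lit 455781), (nat_lit 0), (nat_lit 0), (nat_lit 8412254)]) (PF.cons (PF.leaf (nat_lit 6217783) (nat_lit 467576) (nat_lit 39211206) (nat_lit 17167580) [(nat_lit 467576), (nat_lit 0), (nat_lit 0), (nat_lit 8392144)]) (PF.cons (PF.leaf (nat_lit 6515890) (nat_lit 478080) (nat_lit 38809602) (nat_lit 17061010) [(nat_lit 478080), (nat_lit 0), (nat_lit 0), (nat_lit 8369716)]) (PF.cons (PF.leaf (nat_lit 6821537) (nat_lit 487467) (nat_lit 38400727) (nat_lit 16950782)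 [(nat_lit 487467), (nat_lit 0), (nat_lit 0), (nat_lit 8345030)]) (PF.cons PF.nil (PF.cons PF.nil PF.nil)))))))))) (PF.cons (PF.cons (PF.leaf (nat_lit 5524083) (nat_lit 1483997) (nat_lit 39869850) (nat_lit 17335524)
 [(nat_lit 0), (nat_lit 1483997), (nat_lit 0), (nat_lit 8419440)]) (PF.cons (PF.leaf (nat_lit 5781041) (nat_lit 444785) (nat_lit 39515243) (nat_lit 17243998) [(nat_lit 444785), (nat_lit 1502219), (nat_lit 0), (nat_lit 8402566)]) (PF.cons (PF.leaf (nat_lit 6052617) (nat_lit 457895) (nat_lit 39143992) (nat_lit 17146747) [(nat_lit 457895), (nat_lit 1518974), (nat_lit 0), (nat_lit 8383307)]) (PF.cons (PF.leaf (nat_lit 6335770) (nat_lit 469441) (nat_lit 38759925) (nat_lit 17044615) [(nat_lit 469441), (nat_lit 1534225), (nat_lit 0), (nat_lit 8361721)]) (PF.cons (PF.leaf (nat_lit 6628453) (nat_lit 479680) (nat_lit 38365961) (nat_lit 16938260) [(nat_lit 479680), (nat_lit 1547995), (nat_lit 0), (nat_lit 8337873)]) (PF.cons (PF.leaf (nat_lit 6929068) (nat_lit 488799)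 (nat_lit 37964425) (nat_lit 16828219) [(nat_lit 488799), (nat_lit 1560335), (nat_lit 0), (nat_lit 8311836)]) (PF.cons (PF.leaf (nat_lit 7236276) (nat_lit 496941) (nat_lit 37557217) (nat_lit 16714946) [(nat_lit 496941), (nat_lit 1571310), (nat_lit 0), (nat_lit 8283693)]) (PF.cons PF.nil (PF.cons PF.nil PF.nil))))))))) (PF.cons (PF.cons (PF.leaf (nat_lit 6178530) (nat_lit 1526250) (nat_lit 38683171) (nat_lit 17020972) [(nat_lit
 0), (nat_lit 1526250), (nat_lit 0), (nat_lit 8352168)]) (PF.cons (PF.leaf (nat_lit 6454384) (nat_lit 470710) (nat_lit 38308864) (nat_lit 16919687) [(nat_lit 470710), (nat_lit 1540101), (nat_lit 0), (nat_lit 8329346)]) (PF.cons (PF.leaf (nat_lit 6741024) (nat_lit 480781) (nat_lit 37923711) (nat_lit 16813969) [(nat_lit 480781), (nat_lit 1552642), (nat_lit 0), (nat_lit 8304285)]) (PF.cons (PF.leaf (nat_lit 7036164) (nat_lit 489705) (nat_lit 37530386) (nat_lit 16704454) [(nat_lit 489705), (nat_lit 1563888), (nat_lit 0), (nat_lit 8277079)]) (PF.cons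 (PF.leaf (nat_lit 7338306) (nat_lit 497641) (nat_lit 37131000) (nat_lit 16591659) [(nat_lit 497641), (nat_lit 1573881), (nat_lit 0), (nat_lit 8247826)]) (PF.cons (PF.leaf (nat_lit 7646206) (nat_lit 504710) (nat_lit 36727268) (nat_lit 16476020) [(nat_lit 504710), (nat_lit 1582672), (nat_lit 0), (nat_lit 8216626)]) (PF.cons PF.nil PF.nil))))))) (PF.cons (PF.cons (PF.leaf (nat_lit 6854702) (nat_lit 1556497) (nat_lit 37482311) (nat_lit 16688029) [(nat_lit 0), (nat_lit 1556497), (nat_lit 0), (nat_lit 8268979)]) (PF.cons (PF.leaf (nat_lit 7143388) (nat_lit 490175) (nat_lit 37098242) (nat_lit 16579435) [(nat_lit 490175), (nat_lit 1566719),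
 (nat_lit 0), (nat_lit 8240802)]) (PF.cons (PF.leaf (nat_lit 7440032) (nat_lit 497968) (nat_lit 36707447) (nat_lit 16467435) [(nat_lit 497968), (nat_lit 1575793), (nat_lit 0), (nat_lit 8210611)]) (PF.cons (PF.leaf (nat_lit 7742857) (nat_lit 504879) (nat_lit 36311857) (nat_lit 16352527) [(nat_lit 504879), (nat_lit 1583756), (nat_lit 0), (nat_lit 8178521)]) (PF.cons PF.nil PF.nil))))) (PF.cons (PF.cons (PF.leaf (nat_lit 7542330) (nat_lit 1577090) (nat_lit 36286161) (nat_lit 16342210) [(nat_lit 0), (nat_lit 1577090), (nat_lit 0), (nat_lit 8172076)]) (PF.cons (PF.leaf (nat_lit 7839313) (nat_lit 504719) (nat_lit 35899397) (nat_lit 16228327) [(nat_lit 504719), (nat_lit 1584277), (nat_lit 0), (nat_lit 8139257)]) (PF.cons (PF.leaf (nat_lit 8142097) (nat_lit 510733) (nat_lit 35508901) (nat_lit 16111876) [(nat_lit 510733), (nat_lit 1590470), (nat_lit 0), (nat_lit 8104688)]) (PF.cons PF.nil PF.nil)))) (PF.cons (PF.cons (PF.leaf (nat_lit 8233722) (nat_lit 1589804) (nat_lit 35107925)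 (nat_lit 15988118) [(nat_lit 0), (nat_lit 1589804), (nat_lit 0), (nat_lit 8063744)]) (PF.cons PF.nil PF.nil)) (PF.cons PF.nil (PF.cons PF.nil PF.nil)))))))) (PF.cons (PF.cons (PF.cons (PF.leaf (nat_lit 6006978)
 (nat_lit 3417697) (nat_lit 38432957) (nat_lit 16940870) [(nat_lit 0), (nat_lit 0), (nat_lit 3417697), (nat_lit 8317288)]) (PF.cons (PF.leaf (nat_lit 6264847) (nat_lit 454099) (nat_lit 38086183) (nat_lit 16846463) [(nat_lit 454099), (nat_lit 0), (nat_lit 3426116), (nat_lit 8295949)]) (PF.cons (PF.leaf (nat_lit 6536381) (nat_lit 466059) (nat_lit 37724430) (nat_lit 16746666) [(nat_lit 466059), (nat_lit 0), (nat_lit 3433311), (nat_lit 8272284)]) (PF.cons (PF.leaf (nat_lit 6818563) (nat_lit 476494) (nat_lit 37351379) (nat_lit 16642363) [(nat_lit 476494), (nat_lit 0), (nat_lit 3439167), (nat_lit 8246419)]) (PF.cons (PF.leaf (nat_lit 7109410) (nat_lit 485670) (nat_lit 36969803) (nat_lit 16534231) [(nat_lit 485670), (nat_lit 0), (nat_lit 3443633), (nat_lit 8218464)])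 (PF.cons (PF.leaf (nat_lit 7407380) (nat_lit 493778) (nat_lit 36581880) (nat_lit 16422814) [(nat_lit 493778), (nat_lit 0), (nat_lit 3446697), (nat_lit 8188527)]) (PF.cons (PF.leaf (nat_lit 7711203) (nat_lit 500964) (nat_lit 36189370) (nat_lit 16308569) [(nat_lit 500964), (nat_lit 0), (nat_lit 3448374), (nat_lit 8156713)]) (PF.cons PF.nil (PF.cons PF.nil PF.nil))))))))) (PF.cons (PF.cons (PF.leaf (nat_lit 6655522) (nat_lit
 1537179) (nat_lit 37282059) (nat_lit 16619947) [(nat_lit 0), (nat_lit 1537179), (nat_lit 3432833), (nat_lit 8236792)]) (PF.cons (PF.leaf (nat_lit 6930266) (nat_lit 476846) (nat_lit 36919227) (nat_lit 16516938) [(nat_lit 476846), (nat_lit 1548446), (nat_lit 3437258), (nat_lit 8210096)]) (PF.cons (PF.leaf (nat_lit 7214965) (nat_lit 485940) (nat_lit 36546837) (nat_lit 16409856) [(nat_lit 485940), (nat_lit 1558515), (nat_lit 3440415), (nat_lit 8181307)]) (PF.cons (PF.leaf (nat_lit 7507406) (nat_lit 493929) (nat_lit 36167422) (nat_lit 16299350) [(nat_lit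 493929), (nat_lit 1567412), (nat_lit 3442279), (nat_lit 8150558)]) (PF.cons (PF.leaf (nat_lit 7806141) (nat_lit 500975) (nat_lit 35782958) (nat_lit 16185940) [(nat_lit 500975), (nat_lit 1575185), (nat_lit 3442854), (nat_lit 8117971)]) (PF.cons PF.nil (PF.cons PF.nil PF.nil))))))) (PF.cons (PF.cons (PF.leaf (nat_lit 7321814) (nat_lit 1560289) (nat_lit 36125152) (nat_lit 16284196) [(nat_lit 0), (nat_lit 1560289), (nat_lit 3436146), (nat_lit 8142738)]) (PF.cons (PF.leaf (nat_lit 7607764) (nat_lit 493694) (nat_lit 35755173) (nat_lit 16174967) [(nat_lit 493694), (nat_lit 1568355), (nat_lit 3436907), (nat_lit 8111359)]) (PF.cons (PF.leaf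
 (nat_lit 7900991) (nat_lit 500660) (nat_lit 35379427) (nat_lit 16062680) [(nat_lit 500660), (nat_lit 1575381), (nat_lit 3436467), (nat_lit 8078154)]) (PF.cons (PF.leaf (nat_lit 8199774) (nat_lit 506784) (nat_lit 34999718) (nat_lit 15947832) [(nat_lit 506784), (nat_lit 1581406), (nat_lit 3434843), (nat_lit 8043253)]) (PF.cons PF.nil PF.nil))))) (PF.cons (PF.cons (PF.leaf (nat_lit 7996591) (nat_lit 1575072) (nat_lit 34978355) (nat_lit 15938709) [(nat_lit 0), (nat_lit 1575072), (nat_lit 3429256), (nat_lit 8037273)]) (PF.cons (PF.leaf (nat_lit 8289570) (nat_lit 506075) (nat_lit 34607465) (nat_lit 15825165) [(nat_lit 506075), (nat_lit 1580466), (nat_lit 3426777), (nat_lit 8001929)]) (PF.cons PF.nil (PF.cons PF.nil PF.nil)))) (PF.cons (PF.cons (PF.leaf (nat_lit 8673021) (nat_lit 1583056) (nat_lit 33852739) (nat_lit 15587627) [(nat_lit 0), (nat_lit 1583056), (nat_lit 3413716), (nat_lit 7922503)]) (PF.cons PF.nil PF.nil)) (PF.cons PF.nil PF.nil)))))) (PF.cons (PF.cons (PF.cons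 (PF.leaf (nat_lit 7116575) (nat_lit 3416041) (nat_lit 35944688) (nat_lit 16220388) [(nat_lit 0), (nat_lit 0), (nat_lit 3416041), (nat_lit 8111652)]) (PF.cons (PF.leaf (nat_lit 7389402) (nat_lit 480945) (nat_lit
 35594422) (nat_lit 16116649) [(nat_lit 480945), (nat_lit 0), (nat_lit 3417437), (nat_lit 8081919)]) (PF.cons (PF.leaf (nat_lit 7671496) (nat_lit 489184) (nat_lit 35235686) (nat_lit 16009172) [(nat_lit 489184), (nat_lit 0), (nat_lit 3417673), (nat_lit 8050238)]) (PF.cons (PF.leaf (nat_lit 7960673) (nat_lit 496359) (nat_lit 34870872) (nat_lit 15898606) [(nat_lit 496359), (nat_lit 0), (nat_lit 3416744), (nat_lit 8016767)]) (PF.cons (PF.leaf (nat_lit 8255541) (nat_lit 502633) (nat_lit 34501828) (nat_lit 15785468) [(nat_lit 502633), (nat_lit 0), (nat_lit 3414667), (nat_lit 7981646)]) PF.nil))))) (PF.cons (PF.cons (PF.leaf (nat_lit 7771885) (nat_lit 1559256) (nat_lit 34833824) (nat_lit 15884721) [(nat_lit 0), (nat_lit 1559256), (nat_lit 3410848), (nat_lit 8009314)])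 (PF.cons (PF.leaf (nat_lit 8054573) (nat_lit 495551) (nat_lit 34478446) (nat_lit 15775707) [(nat_lit 495551), (nat_lit 1565511), (nat_lit 3409050), (nat_lit 7975495)]) (PF.cons (PF.leaf (nat_lit 8343959) (nat_lit 501795) (nat_lit 34118089) (nat_lit 15663946) [(nat_lit 501795), (nat_lit 1570817), (nat_lit 3406174), (nat_lit 7940018)]) (PF.cons PF.nil PF.nil)))) (PF.cons (PF.cons (PF.leaf (nat_lit 8433300) (nat_lit 1569216)
 (nat_lit 33736888) (nat_lit 15541942) [(nat_lit 0), (nat_lit 1569216), (nat_lit 3397006), (nat_lit 7897535)]) (PF.cons (PF.leaf (nat_lit 8721966) (nat_lit 506080) (nat_lit 33381927) (nat_lit 15429440) [(nat_lit 506080), (nat_lit 1573106), (nat_lit 3392408), (nat_lit 7860335)]) PF.nil)) (PF.cons PF.nil (PF.cons PF.nil PF.nil))))) (PF.cons (PF.cons (PF.cons (PF.leaf (nat_lit 8205472) (nat_lit 3379613) (nat_lit 33607082) (nat_lit 15491842) [(nat_lit 0), (nat_lit 0), (nat_lit 3379613), (nat_lit 7871047)]) (PF.cons (PF.leaf (nat_lit 8484491) (nat_lit 496039)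 (nat_lit 33266455) (nat_lit 15383719) [(nat_lit 496039), (nat_lit 0), (nat_lit 3375727), (nat_lit 7835416)]) (PF.cons (PF.leaf (nat_lit 8769730) (nat_lit 501652) (nat_lit 32921500) (nat_lit 15273125) [(nat_lit 501652), (nat_lit 0), (nat_lit 3370866), (nat_lit 7798282)]) (PF.cons PF.nil PF.nil)))) (PF.cons (PF.cons (PF.leaf (nat_lit 8853225) (nat_lit 1560283) (nat_lit 32559584) (nat_lit 15153621) [(nat_lit 0), (nat_lit 1560283), (nat_lit 3360176), (nat_lit 7754794)]) (PF.cons PF.nil PF.nil)) (PF.cons PF.nil PF.nil))) (PF.cons (PF.cons (PF.cons (PF.leaf (nat_lit 9257198) (nat_lit 3319862) (nat_lit 31443804) (nat_lit 14774976)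
 [(nat_lit 0), (nat_lit 0), (nat_lit 3319862), (nat_lit 7610581)]) (PF.cons PF.nil PF.nil)) (PF.cons PF.nil PF.nil)) (PF.cons PF.nil PF.nil)))))) (PF.cons (PF.cons (PF.cons (PF.cons (PF.leaf (nat_lit 6698794) (nat_lit 7968492) (nat_lit 35224772) (nat_lit 15947055) [(nat_lit 0), (nat_lit 0), (nat_lit 0), (nat_lit 7968492)]) (PF.cons (PF.leaf (nat_lit 6947878) (nat_lit 448636) (nat_lit 34917824) (nat_lit 15855695) [(nat_lit 448636), (nat_lit 0), (nat_lit 0), (nat_lit 7943328)]) (PF.cons (PF.leaf (nat_lit 7209602) (nat_lit 459545) (nat_lit 34598110) (nat_lit 15759535) [(nat_lit 459545), (nat_lit 0), (nat_lit 0), (nat_lit 7916037)]) (PF.cons (PF.leaf (nat_lit 7480971) (nat_lit 468952) (nat_lit 34268874) (nat_lit 15659457) [(nat_lit 468952), (nat_lit 0), (nat_lit 0), (nat_lit 7886811)]) (PF.cons (PF.leaf (nat_lit 7760134) (nat_lit 477133) (nat_lit 33932540) (nat_lit 15556125) [(nat_lit 477133), (nat_lit 0), (nat_lit 0), (nat_lit 7855805)]) (PF.cons (PF.leaf (nat_lit 8045630)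 (nat_lit 484287) (nat_lit 33590995) (nat_lit 15450067) [(nat_lit 484287), (nat_lit 0), (nat_lit 0), (nat_lit 7823157)]) (PF.cons PF.nil PF.nil))))))) (PF.cons (PF.cons (PF.leaf (nat_lit 7317536) (nat_lit 1504308)
 (nat_lit 34210532) (nat_lit 15639104) [(nat_lit 0), (nat_lit 1504308), (nat_lit 0), (nat_lit 7877433)]) (PF.cons (PF.leaf (nat_lit 7581575) (nat_lit 468513) (nat_lit 33890637) (nat_lit 15540697) [(nat_lit 468513), (nat_lit 1513196), (nat_lit 0), (nat_lit 7847883)]) (PF.cons (PF.leaf (nat_lit 7854722) (nat_lit 476675) (nat_lit 33562673) (nat_lit 15438777) [(nat_lit 476675), (nat_lit 1520970), (nat_lit 0), (nat_lit 7816520)]) (PF.cons (PF.leaf (nat_lit 8134839) (nat_lit 483767) (nat_lit 33228846) (nat_lit 15333970) [(nat_lit 483767), (nat_lit 1527676), (nat_lit 0), (nat_lit 7783508)]) (PF.cons (PF.leaf (nat_lit 8420565) (nat_lit 489958) (nat_lit 32890863) (nat_lit 15226771) [(nat_lit 489958), (nat_lit 1533370), (nat_lit 0), (nat_lit 7748987)]) PF.nil))))) (PF.cons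 (PF.cons (PF.leaf (nat_lit 7950828) (nat_lit 1520825) (nat_lit 33194071) (nat_lit 15320602) [(nat_lit 0), (nat_lit 1520825), (nat_lit 0), (nat_lit 7776243)]) (PF.cons (PF.leaf (nat_lit 8224622) (nat_lit 482917) (nat_lit 32868728) (nat_lit 15217358) [(nat_lit 482917), (nat_lit 1526883), (nat_lit 0), (nat_lit 7743021)]) (PF.cons (PF.leaf (nat_lit 8505053) (nat_lit 489078) (nat_lit 32538551) (nat_lit 15111552) [(nat_lit
 489078), (nat_lit 1532000), (nat_lit 0), (nat_lit 7708275)]) (PF.cons PF.nil PF.nil)))) (PF.cons (PF.cons (PF.leaf (nat_lit 8590560) (nat_lit 1530248) (nat_lit 32188418) (nat_lit 14995961) [(nat_lit 0), (nat_lit 1530248), (nat_lit 0), (nat_lit 7666843)]) (PF.cons (PF.leaf (nat_lit 8870394) (nat_lit 493259) (nat_lit 31862781) (nat_lit 14889567) [(nat_lit 493259), (nat_lit 1533991), (nat_lit 0), (nat_lit 7630615)]) PF.nil)) (PF.cons PF.nil PF.nil))))) (PF.cons (PF.cons (PF.cons (PF.leaf (nat_lit 7745039) (nat_lit 3306051) (nat_lit 33043796) (nat_lit 15264009)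 [(nat_lit 0), (nat_lit 0), (nat_lit 3306051), (nat_lit 7747478)]) (PF.cons (PF.leaf (nat_lit 8006819) (nat_lit 470719) (nat_lit 32735425) (nat_lit 15165950) [(nat_lit 470719), (nat_lit 0), (nat_lit 3304645), (nat_lit 7716036)]) (PF.cons (PF.leaf (nat_lit 8277134) (nat_lit 478146) (nat_lit 32419837) (nat_lit 15064658) [(nat_lit 478146), (nat_lit 0), (nat_lit 3302216), (nat_lit 7682904)]) (PF.cons (PF.leaf (nat_lit 8553871) (nat_lit 484546) (nat_lit 32099111) (nat_lit 14960751) [(nat_lit 484546), (nat_lit 0), (nat_lit 3298782), (nat_lit 7648263)]) (PF.cons PF.nil PF.nil))))) (PF.cons (PF.cons (PF.leaf (nat_lit 8367596) (nat_lit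
 1515443) (nat_lit 32068670) (nat_lit 14948596) [(nat_lit 0), (nat_lit 1515443), (nat_lit 3293229), (nat_lit 7641436)]) (PF.cons (PF.leaf (nat_lit 8638059) (nat_lit 483263) (nat_lit 31756323) (nat_lit 14846419) [(nat_lit 483263), (nat_lit 1520063), (nat_lit 3289188), (nat_lit 7606777)]) (PF.cons (PF.leaf (nat_lit 8914680) (nat_lit 488817) (nat_lit 31439743) (nat_lit 14741926) [(nat_lit 488817), (nat_lit 1523825), (nat_lit 3284223), (nat_lit 7570729)]) (PF.cons PF.nil PF.nil)))) (PF.cons (PF.cons (PF.leaf (nat_lit 8994799) (nat_lit 1521134) (nat_lit 31106817) (nat_lit 14628911) [(nat_lit 0), (nat_lit 1521134), (nat_lit 3273578), (nat_lit 7528618)]) (PF.cons PF.nil PF.nil)) PF.nil))) (PF.cons (PF.cons (PF.cons (PF.leaf (nat_lit 8769873) (nat_lit 3257595) (nat_lit 30999065) (nat_lit 14585109) [(nat_lit 0), (nat_lit 0), (nat_lit 3257595), (nat_lit 7504723)]) (PF.cons (PF.leaf (nat_lit 9036722) (nat_lit 482580) (nat_lit 30699630) (nat_lit 14484423) [(nat_lit 482580), (nat_lit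 0), (nat_lit 3252031), (nat_lit 7469057)]) (PF.cons PF.nil PF.nil))) (PF.cons (PF.cons (PF.leaf (nat_lit 9384430) (nat_lit 1509838) (nat_lit 30080087) (nat_lit 14271489) [(nat_lit 0), (nat_lit 1509838), (nat_lit
 3233980), (nat_lit 7389718)]) PF.nil) PF.nil)) (PF.cons PF.nil (PF.cons PF.nil PF.nil))))) (PF.cons (PF.cons (PF.cons (PF.cons (PF.leaf (nat_lit 8315583) (nat_lit 7395760) (nat_lit 30533269) (nat_lit 14388260) [(nat_lit 0), (nat_lit 0), (nat_lit 0), (nat_lit 7395760)]) (PF.cons (PF.leaf (nat_lit 8566979) (nat_lit 459167) (nat_lit 30260835) (nat_lit 14296626) [(nat_lit 459167), (nat_lit 0), (nat_lit 0), (nat_lit 7364061)]) (PF.cons (PF.leaf (nat_lit 8826308) (nat_lit 465935) (nat_lit 29982150) (nat_lit 14202160) [(nat_lit 465935), (nat_lit 0), (nat_lit 0), (nat_lit 7330876)]) (PF.cons (PF.leaf (nat_lit 9091557) (nat_lit 471718) (nat_lit 29699033) (nat_lit 14105440) [(nat_lit 471718), (nat_lit 0), (nat_lit 0), (nat_lit 7296394)]) (PF.cons PF.nil PF.nil))))) (PF.cons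 (PF.cons (PF.leaf (nat_lit 8908563) (nat_lit 1469409) (nat_lit 29673891) (nat_lit 14094856) [(nat_lit 0), (nat_lit 1469409), (nat_lit 0), (nat_lit 7290218)]) (PF.cons (PF.leaf (nat_lit 9167767) (nat_lit 470125) (nat_lit 29398170) (nat_lit 13999905) [(nat_lit 470125), (nat_lit 1472853), (nat_lit 0), (nat_lit 7255919)]) (PF.cons PF.nil (PF.cons PF.nil PF.nil)))) (PF.cons (PF.cons (PF.leaf (nat_lit 9505224) (nat_lit
 1472154) (nat_lit 28826491) (nat_lit 13798923) [(nat_lit 0), (nat_lit 1472154), (nat_lit 0), (nat_lit 7179696)]) (PF.cons PF.nil PF.nil)) PF.nil))) (PF.cons (PF.cons (PF.cons (PF.leaf (nat_lit 9284222) (nat_lit 3136910) (nat_lit 28736378) (nat_lit 13760681) [(nat_lit 0), (nat_lit 0), (nat_lit 3136910), (nat_lit 7158280)]) (PF.cons (PF.leaf (nat_lit 9539939) (nat_lit 468682) (nat_lit 28471851) (nat_lit 13667485) [(nat_lit 468682), (nat_lit 0), (nat_lit 3130360), (nat_lit 7123477)]) PF.nil)) (PF.cons PF.nil PF.nil)) (PF.cons PF.nil PF.nil))) (PF.cons (PF.cons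 (PF.cons (PF.cons (PF.leaf (nat_lit 9757474) (nat_lit 6834014) (nat_lit 26760385) (nat_lit 13012368) [(nat_lit 0), (nat_lit 0), (nat_lit 0), (nat_lit 6834014)]) (PF.cons PF.nil PF.nil)) (PF.cons PF.nil PF.nil)) (PF.cons PF.nil PF.nil)) (PF.cons PF.nil (PF.cons PF.nil (PF.cons PF.nil PF.nil))))))))

def p15_24_3_0 : pfC (piC [(nat_lit 37722612), (nat_lit 24889148), (nat_lit 18515096), (nat_lit 12482732)] (nat_lit 4942965)) p15_24_3 (nat_lit 4) (nat_lit 0) (nat_lit 1) = true := by decide +kernel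
def p15_24_3_1 : pfC (piC [(nat_lit 37722612), (nat_lit 24889148), (nat_lit 18515096), (nat_lit 12482732)] (nat_lit 4942965)) p15_24_3 (nat_lit 4) (nat_lit 1) (nat_lit 2) = true := by decide +kernel
def p15_24_3_2 : pfC (piC [(nat_lit 37722612), (nat_lit 24889148), (nat_lit 18515096), (nat_lit 12482732)] (nat_lit 4942965)) p15_24_3 (nat_lit 4) (nat_lit 2) (nat_lit 3) = true := by decide +kernel
def p15_24_3_3 : pfC (piC [(nat_lit 37722612), (nat_lit 24889148), (nat_lit 18515096), (nat_lit 12482732)] (nat_lit 4942965)) p15_24_3 (nat_lit 4) (nat_lit 3) (nat_lit 4) = true := by decide +kernel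
def p15_24_3_4 : pfC (piC [(nat_lit 37722612), (nat_lit 24889148), (nat_lit 18515096), (nat_lit 12482732)] (nat_lit 4942965)) p15_24_3 (nat_lit 4) (nat_lit 4) (nat_lit 5) = true := by decide +kernel
def p15_24_3_5 : pfC (piC [(nat_lit 37722612), (nat_lit 24889148), (nat_lit 18515096), (nat_lit 12482732)] (nat_lit 4942965)) p15_24_3 (nat_lit 4) (nat_lit 5) (nat_lit 6) = true := by decide +kernel
def p15_24_3_6 : pfC (piC [(nat_lit 37722612), (nat_lit 24889148), (nat_lit 18515096), (nat_lit 12482732)] (nat_lit 4942965)) p15_24_3 (nat_lit 4) (nat_lit 6) (nat_lit 7) = true := by decide +kernel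
def p15_24_3_7 : pfC (piC [(nat_lit 37722612), (nat_lit 24889148), (nat_lit 18515096), (nat_lit 12482732)] (nat_lit 4942965)) p15_24_3 (nat_lit 4) (nat_lit 7) (nat_lit 8) = true := by decide +kernel
def p15_24_3_8 : pfC (piC [(nat_lit 37722612), (nat_lit 24889148), (nat_lit 18515096), (nat_lit 12482732)] (nat_lit 4942965)) p15_24_3 (nat_lit 4) (nat_lit 8) (nat_lit 9) = true := by decide +kernel
def p15_24_3_9 : pfC (piC [(nat_lit 37722612), (nat_lit 24889148), (nat_lit 18515096), (nat_lit 12482732)] (nat_lit 4942965)) p15_24_3 (nat_lit 4) (nat_lit 9) (nat_lit 10) = true := by decide +kernel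
def p15_24_3_10 : pfC (piC [(nat_lit 37722612), (nat_lit 24889148), (nat_lit 18515096), (nat_lit 12482732)] (nat_lit 4942965)) p15_24_3 (nat_lit 4) (nat_lit 10) (nat_lit 11) = true := by decide +kernel
def p15_24_3_11 : pfC (piC [(nat_lit 37722612), (nat_lit 24889148), (nat_lit 18515096), (nat_lit 12482732)] (nat_lit 4942965)) p15_24_3 (nat_lit 4) (nat_lit 11) (nat_lit 12) = true := by decide +kernel
def p15_24_3_12 : pfC (piC [(nat_lit 37722612), (nat_lit 24889148), (nat_lit 18515096), (nat_lit 12482732)] (nat_lit 4942965)) p15_24_3 (nat_lit 4) (nat_lit 12) (nat_lit 13) = true := by decide +kernel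
def p15_24_3_13 : pfC (piC [(nat_lit 37722612), (nat_lit 24889148), (nat_lit 18515096), (nat_lit 12482732)] (nat_lit 4942965)) p15_24_3 (nat_lit 4) (nat_lit 13) (nat_lit 14) = true := by decide +kernel
def p15_24_3_14 : pfC (piC [(nat_lit 37722612), (nat_lit 24889148), (nat_lit 18515096), (nat_lit 12482732)] (nat_lit 4942965)) p15_24_3 (nat_lit 4) (nat_lit 14) (nat_lit 15) = true := by decide +kernel
def p15_24_3_15 : pfC (piC [(nat_lit 37722612), (nat_lit 24889148), (nat_lit 18515096), (nat_lit 12482732)] (nat_lit 4942965)) p15_24_3 (nat_lit 4) (nat_lit 15) (nat_lit 16) = true := by decide +kernel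
def p15_24_3_16 : pfC (piC [(nat_lit 37722612), (nat_lit 24889148), (nat_lit 18515096), (nat_lit 12482732)] (nat_lit 4942965)) p15_24_3 (nat_lit 4) (nat_lit 16) (nat_lit 17) = true := by decide +kernel
def p15_24_3_17 : pfC (piC [(nat_lit 37722612), (nat_lit 24889148), (nat_lit 18515096), (nat_lit 12482732)] (nat_lit 4942965)) p15_24_3 (nat_lit 4) (nat_lit 17) (nat_lit 18) = true := by decide +kernel
def p15_24_3_18 : pfC (piC [(nat_lit 37722612), (nat_lit 24889148), (nat_lit 18515096), (nat_lit 12482732)] (nat_lit 4942965)) p15_24_3 (nat_lit 4) (nat_lit 18) (nat_lit 19) = true := by decide +kernel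
def p15_24_3_19 : pfC (piC [(nat_lit 37722612), (nat_lit 24889148), (nat_lit 18515096), (nat_lit 12482732)] (nat_lit 4942965)) p15_24_3 (nat_lit 4) (nat_lit 19) (nat_lit 20) = true := by decide +kernel
def p15_24_3_20 : pfC (piC [(nat_lit 37722612), (nat_lit 24889148), (nat_lit 18515096), (nat_lit 12482732)] (nat_lit 4942965)) p15_24_3 (nat_lit 4) (nat_lit 20) (nat_lit 21) = true := by decide +kernel
def p15_24_3_21 : pfC (piC [(nat_lit 37722612), (nat_lit 24889148), (nat_lit 18515096), (nat_lit 12482732)] (nat_lit 4942965)) p15_24_3 (nat_lit 4) (nat_lit 21) (nat_lit 22) = true := by decide +kernel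
def p15_24_3_22 : pfC (piC [(nat_lit 37722612), (nat_lit 24889148), (nat_lit 18515096), (nat_lit 12482732)] (nat_lit 4942965)) p15_24_3 (nat_lit 4) (nat_lit 22) (nat_lit 23) = true := by decide +kernel
def p15_24_3_23 : pfC (piC [(nat_lit 37722612), (nat_lit 24889148), (nat_lit 18515096), (nat_lit 12482732)] (nat_lit 4942965)) p15_24_3 (nat_lit 4) (nat_lit 23) (nat_lit 24) = true := by decide +kernel
def p15_24_3_24 : pfC (piC [(nat_lit 37722612), (nat_lit 24889148), (nat_lit 18515096), (nat_lit 12482732)] (nat_lit 4942965)) p15_24_3 (nat_lit 4) (nat_lit 24) (nat_lit 25) = true := by decide +kernel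
def p15_24_3_25 : pfC (piC [(nat_lit 37722612), (nat_lit 24889148), (nat_lit 18515096), (nat_lit 12482732)] (nat_lit 4942965)) p15_24_3 (nat_lit 4) (nat_lit 25) (nat_lit 26) = true := by decide +kernel
def p15_24_3_26 : pfC (piC [(nat_lit 37722612), (nat_lit 24889148), (nat_lit 18515096), (nat_lit 12482732)] (nat_lit 4942965)) p15_24_3 (nat_lit 4) (nat_lit 26) (nat_lit 27) = true := by decide +kernel
def p15_24_3_27 : pfC (piC [(nat_lit 37722612), (nat_lit 24889148), (nat_lit 18515096), (nat_lit 12482732)] (nat_lit 4942965)) p15_24_3 (nat_lit 4) (nat_lit 27) (nat_lit 28) = true := by decide +kernel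
def p15_24_3_28 : pfC (piC [(nat_lit 37722612), (nat_lit 24889148), (nat_lit 18515096), (nat_lit 12482732)] (nat_lit 4942965)) p15_24_3 (nat_lit 4) (nat_lit 28) (nat_lit 29) = true := by decide +kernel
def p15_24_3_29 : pfC (piC [(nat_lit 37722612), (nat_lit 24889148), (nat_lit 18515096), (nat_lit 12482732)] (nat_lit 4942965)) p15_24_3 (nat_lit 4) (nat_lit 29) (nat_lit 30) = true := by decide +kernel
def p15_24_3_30 : pfC (piC [(nat_lit 37722612), (nat_lit 24889148), (nat_lit 18515096), (nat_lit 12482732)] (nat_lit 4942965)) p15_24_3 (nat_lit 4) (nat_lit 30) (nat_lit 31) = true := by decide +kernel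
def p15_24_3_31 : pfC (piC [(nat_lit 37722612), (nat_lit 24889148), (nat_lit 18515096), (nat_lit 12482732)] (nat_lit 4942965)) p15_24_3 (nat_lit 4) (nat_lit 31) (nat_lit 32) = true := by decide +kernel
def p15_24_3_32 : pfC (piC [(nat_lit 37722612), (nat_lit 24889148), (nat_lit 18515096), (nat_lit 12482732)] (nat_lit 4942965)) p15_24_3 (nat_lit 4) (nat_lit 32) (nat_lit 33) = true := by decide +kernel
def p15_24_3_33 : pfC (piC [(nat_lit 37722612), (nat_lit 24889148), (nat_lit 18515096), (nat_lit 12482732)] (nat_lit 4942965)) p15_24_3 (nat_lit 4) (nat_lit 33) (nat_lit 34) = true := by decide +kernel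
def p15_24_3_34 : pfC (piC [(nat_lit 37722612), (nat_lit 24889148), (nat_lit 18515096), (nat_lit 12482732)] (nat_lit 4942965)) p15_24_3 (nat_lit 4) (nat_lit 34) (nat_lit 35) = true := by decide +kernel
def p15_24_3_35 : pfC (piC [(nat_lit 37722612), (nat_lit 24889148), (nat_lit 18515096), (nat_lit 12482732)] (nat_lit 4942965)) p15_24_3 (nat_lit 4) (nat_lit 35) (nat_lit 36) = true := by decide +kernel
def p15_24_3_36 : pfC (piC [(nat_lit 37722612), (nat_lit 24889148), (nat_lit 18515096), (nat_lit 12482732)] (nat_lit 4942965)) p15_24_3 (nat_lit 4) (nat_lit 36) (nat_lit 37) = true := by decide +kernel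
def p15_24_3_37 : pfC (piC [(nat_lit 37722612), (nat_lit 24889148), (nat_lit 18515096), (nat_lit 12482732)] (nat_lit 4942965)) p15_24_3 (nat_lit 4) (nat_lit 37) (nat_lit 38) = true := by decide +kernel
def p15_24_3_38 : pfC (piC [(nat_lit 37722612), (nat_lit 24889148), (nat_lit 18515096), (nat_lit 12482732)] (nat_lit 4942965)) p15_24_3 (nat_lit 4) (nat_lit 38) (nat_lit 39) = true := by decide +kernel
def p15_24_3_39 : pfC (piC [(nat_lit 37722612), (nat_lit 24889148), (nat_lit 18515096), (nat_lit 12482732)] (nat_lit 4942965)) p15_24_3 (nat_lit 4) (nat_lit 39) (nat_lit 40) = true := by decide +kernel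
def p15_24_3_40 : pfC (piC [(nat_lit 37722612), (nat_lit 24889148), (nat_lit 18515096), (nat_lit 12482732)] (nat_lit 4942965)) p15_24_3 (nat_lit 4) (nat_lit 40) (nat_lit 41) = true := by decide +kernel
def p15_24_3_41 : pfC (piC [(nat_lit 37722612), (nat_lit 24889148), (nat_lit 18515096), (nat_lit 12482732)] (nat_lit 4942965)) p15_24_3 (nat_lit 4) (nat_lit 41) (nat_lit 42) = true := by decide +kernel
def p15_24_3_42 : pfC (piC [(nat_lit 37722612), (nat_lit 24889148), (nat_lit 18515096), (nat_lit 12482732)] (nat_lit 4942965)) p15_24_3 (nat_lit 4) (nat_lit 42) (nat_lit 43) = true := by decide +kernel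
def p15_24_3_43 : pfC (piC [(nat_lit 37722612), (nat_lit 24889148), (nat_lit 18515096), (nat_lit 12482732)] (nat_lit 4942965)) p15_24_3 (nat_lit 4) (nat_lit 43) (nat_lit 44) = true := by decide +kernel
def p15_24_3_44 : pfC (piC [(nat_lit 37722612), (nat_lit 24889148), (nat_lit 18515096), (nat_lit 12482732)] (nat_lit 4942965)) p15_24_3 (nat_lit 4) (nat_lit 44) (nat_lit 45) = true := by decide +kernel
def p15_24_3_45 : pfC (piC [(nat_lit 37722612), (nat_lit 24889148), (nat_lit 18515096), (nat_lit 12482732)] (nat_lit 4942965)) p15_24_3 (nat_lit 4) (nat_lit 45) (nat_lit 46) = true := by decide +kernel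
def p15_24_3_46 : pfC (piC [(nat_lit 37722612), (nat_lit 24889148), (nat_lit 18515096), (nat_lit 12482732)] (nat_lit 4942965)) p15_24_3 (nat_lit 4) (nat_lit 46) (nat_lit 47) = true := by decide +kernel
def p15_24_3_47 : pfC (piC [(nat_lit 37722612), (nat_lit 24889148), (nat_lit 18515096), (nat_lit 12482732)] (nat_lit 4942965)) p15_24_3 (nat_lit 4) (nat_lit 47) (nat_lit 48) = true := by decide +kernel
def p15_24_3_48 : pfC (piC [(nat_lit 37722612), (nat_lit 24889148), (nat_lit 18515096), (nat_lit 12482732)] (nat_lit 4942965)) p15_24_3 (nat_lit 4) (nat_lit 48) (nat_lit 49) = true := by decide +kernel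
def p15_24_3_49 : pfC (piC [(nat_lit 37722612), (nat_lit 24889148), (nat_lit 18515096), (nat_lit 12482732)] (nat_lit 4942965)) p15_24_3 (nat_lit 4) (nat_lit 49) (nat_lit 50) = true := by decide +kernel
def p15_24_3_50 : pfC (piC [(nat_lit 37722612), (nat_lit 24889148), (nat_lit 18515096), (nat_lit 12482732)] (nat_lit 4942965)) p15_24_3 (nat_lit 4) (nat_lit 50) (nat_lit 51) = true := by decide +kernel
def p15_24_3_51 : pfC (piC [(nat_lit 37722612), (nat_lit 24889148), (nat_lit 18515096), (nat_lit 12482732)] (nat_lit 4942965)) p15_24_3 (nat_lit 4) (nat_lit 51) (nat_lit 52) = true := by decide +kernel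
def p15_24_3_52 : pfC (piC [(nat_lit 37722612), (nat_lit 24889148), (nat_lit 18515096), (nat_lit 12482732)] (nat_lit 4942965)) p15_24_3 (nat_lit 4) (nat_lit 52) (nat_lit 53) = true := by decide +kernel
def p15_24_3_53 : pfC (piC [(nat_lit 37722612), (nat_lit 24889148), (nat_lit 18515096), (nat_lit 12482732)] (nat_lit 4942965)) p15_24_3 (nat_lit 4) (nat_lit 53) (nat_lit 54) = true := by decide +kernel
def p15_24_3_54 : pfC (piC [(nat_lit 37722612), (nat_lit 24889148), (nat_lit 18515096), (nat_lit 12482732)] (nat_lit 4942965)) p15_24_3 (nat_lit 4) (nat_lit 54) (nat_lit 55) = true := by decide +kernel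
def p15_24_3_55 : pfC (piC [(nat_lit 37722612), (nat_lit 24889148), (nat_lit 18515096), (nat_lit 12482732)] (nat_lit 4942965)) p15_24_3 (nat_lit 4) (nat_lit 55) (nat_lit 56) = true := by decide +kernel
def p15_24_3_56 : pfC (piC [(nat_lit 37722612), (nat_lit 24889148), (nat_lit 18515096), (nat_lit 12482732)] (nat_lit 4942965)) p15_24_3 (nat_lit 4) (nat_lit 56) (nat_lit 57) = true := by decide +kernel
def p15_24_3_57 : pfC (piC [(nat_lit 37722612), (nat_lit 24889148), (nat_lit 18515096), (nat_lit 12482732)] (nat_lit 4942965)) p15_24_3 (nat_lit 4) (nat_lit 57) (nat_lit 58) = true := by decide +kernel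
def p15_24_3_58 : pfC (piC [(nat_lit 37722612), (nat_lit 24889148), (nat_lit 18515096), (nat_lit 12482732)] (nat_lit 4942965)) p15_24_3 (nat_lit 4) (nat_lit 58) (nat_lit 59) = true := by decide +kernel
def p15_24_3_59 : pfC (piC [(nat_lit 37722612), (nat_lit 24889148), (nat_lit 18515096), (nat_lit 12482732)] (nat_lit 4942965)) p15_24_3 (nat_lit 4) (nat_lit 59) (nat_lit 60) = true := by decide +kernel
def p15_24_3_60 : pfC (piC [(nat_lit 37722612), (nat_lit 24889148), (nat_lit 18515096), (nat_lit 12482732)] (nat_lit 4942965)) p15_24_3 (nat_lit 4) (nat_lit 60) (nat_lit 61) = true := by decide +kernel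
def p15_24_3_61 : pfC (piC [(nat_lit 37722612), (nat_lit 24889148), (nat_lit 18515096), (nat_lit 12482732)] (nat_lit 4942965)) p15_24_3 (nat_lit 4) (nat_lit 61) (nat_lit 62) = true := by decide +kernel
def p15_24_3_62 : pfC (piC [(nat_lit 37722612), (nat_lit 24889148), (nat_lit 18515096), (nat_lit 12482732)] (nat_lit 4942965)) p15_24_3 (nat_lit 4) (nat_lit 62) (nat_lit 63) = true := by decide +kernel
def p15_24_3_63 : pfC (piC [(nat_lit 37722612), (nat_lit 24889148), (nat_lit 18515096), (nat_lit 12482732)] (nat_lit 4942965)) p15_24_3 (nat_lit 4) (nat_lit 63) (nat_lit 64) = true := by decide +kernel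
def p15_24_3_64 : pfC (piC [(nat_lit 37722612), (nat_lit 24889148), (nat_lit 18515096), (nat_lit 12482732)] (nat_lit 4942965)) p15_24_3 (nat_lit 4) (nat_lit 64) (nat_lit 65) = true := by decide +kernel
def p15_24_3_65 : pfC (piC [(nat_lit 37722612), (nat_lit 24889148), (nat_lit 18515096), (nat_lit 12482732)] (nat_lit 4942965)) p15_24_3 (nat_lit 4) (nat_lit 65) (nat_lit 66) = true := by decide +kernel
def p15_24_3_66 : pfC (piC [(nat_lit 37722612), (nat_lit 24889148), (nat_lit 18515096), (nat_lit 12482732)] (nat_lit 4942965)) p15_24_3 (nat_lit 4) (nat_lit 66) (nat_lit 67) = true := by decide +kernel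
def p15_24_3_67 : pfC (piC [(nat_lit 37722612), (nat_lit 24889148), (nat_lit 18515096), (nat_lit 12482732)] (nat_lit 4942965)) p15_24_3 (nat_lit 4) (nat_lit 67) (nat_lit 68) = true := by decide +kernel
def p15_24_3_68 : pfC (piC [(nat_lit 37722612), (nat_lit 24889148), (nat_lit 18515096), (nat_lit 12482732)] (nat_lit 4942965)) p15_24_3 (nat_lit 4) (nat_lit 68) (nat_lit 69) = true := by decide +kernel
def p15_24_3_69 : pfC (piC [(nat_lit 37722612), (nat_lit 24889148), (nat_lit 18515096), (nat_lit 12482732)] (nat_lit 4942965)) p15_24_3 (nat_lit 4) (nat_lit 69) (nat_lit 70) = true := by decide +kernel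
def p15_24_3_70 : pfC (piC [(nat_lit 37722612), (nat_lit 24889148), (nat_lit 18515096), (nat_lit 12482732)] (nat_lit 4942965)) p15_24_3 (nat_lit 4) (nat_lit 70) (nat_lit 71) = true := by decide +kernel
def p15_24_3_71 : pfC (piC [(nat_lit 37722612), (nat_lit 24889148), (nat_lit 18515096), (nat_lit 12482732)] (nat_lit 4942965)) p15_24_3 (nat_lit 4) (nat_lit 71) (nat_lit 72) = true := by decide +kernel
def p15_24_3_72 : pfC (piC [(nat_lit 37722612), (nat_lit 24889148), (nat_lit 18515096), (nat_lit 12482732)] (nat_lit 4942965)) p15_24_3 (nat_lit 4) (nat_lit 72) (nat_lit 73) = true := by decide +kernel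
def p15_24_3_73 : pfC (piC [(nat_lit 37722612), (nat_lit 24889148), (nat_lit 18515096), (nat_lit 12482732)] (nat_lit 4942965)) p15_24_3 (nat_lit 4) (nat_lit 73) (nat_lit 74) = true := by decide +kernel
def p15_24_3_74 : pfC (piC [(nat_lit 37722612), (nat_lit 24889148), (nat_lit 18515096), (nat_lit 12482732)] (nat_lit 4942965)) p15_24_3 (nat_lit 4) (nat_lit 74) (nat_lit 75) = true := by decide +kernel
def p15_24_3_75 : pfC (piC [(nat_lit 37722612), (nat_lit 24889148), (nat_lit 18515096), (nat_lit 12482732)] (nat_lit 4942965)) p15_24_3 (nat_lit 4) (nat_lit 75) (nat_lit 76) = true := by decide +kernel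
def p15_24_3_76 : pfC (piC [(nat_lit 37722612), (nat_lit 24889148), (nat_lit 18515096), (nat_lit 12482732)] (nat_lit 4942965)) p15_24_3 (nat_lit 4) (nat_lit 76) (nat_lit 77) = true := by decide +kernel
def p15_24_3_77 : pfC (piC [(nat_lit 37722612), (nat_lit 24889148), (nat_lit 18515096), (nat_lit 12482732)] (nat_lit 4942965)) p15_24_3 (nat_lit 4) (nat_lit 77) (nat_lit 78) = true := by decide +kernel
def p15_24_3_78 : pfC (piC [(nat_lit 37722612), (nat_lit 24889148), (nat_lit 18515096), (nat_lit 12482732)] (nat_lit 4942965)) p15_24_3 (nat_lit 4) (nat_lit 78) (nat_lit 79) = true := by decide +kernel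
def p15_24_3_79 : pfC (piC [(nat_lit 37722612), (nat_lit 24889148), (nat_lit 18515096), (nat_lit 12482732)] (nat_lit 4942965)) p15_24_3 (nat_lit 4) (nat_lit 79) (nat_lit 80) = true := by decide +kernel
def p15_24_3_80 : pfC (piC [(nat_lit 37722612), (nat_lit 24889148), (nat_lit 18515096), (nat_lit 12482732)] (nat_lit 4942965)) p15_24_3 (nat_lit 4) (nat_lit 80) (nat_lit 81) = true := by decide +kernel
def p15_24_3_81 : pfC (piC [(nat_lit 37722612), (nat_lit 24889148), (nat_lit 18515096), (nat_lit 12482732)] (nat_lit 4942965)) p15_24_3 (nat_lit 4) (nat_lit 81) (nat_lit 82) = true := by decide +kernel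
def p15_24_3_82 : pfC (piC [(nat_lit 37722612), (nat_lit 24889148), (nat_lit 18515096), (nat_lit 12482732)] (nat_lit 4942965)) p15_24_3 (nat_lit 4) (nat_lit 82) (nat_lit 83) = true := by decide +kernel
def p15_24_3_83 : pfC (piC [(nat_lit 37722612), (nat_lit 24889148), (nat_lit 18515096), (nat_lit 12482732)] (nat_lit 4942965)) p15_24_3 (nat_lit 4) (nat_lit 83) (nat_lit 84) = true := by decide +kernel
def p15_24_3_84 : pfC (piC [(nat_lit 37722612), (nat_lit 24889148), (nat_lit 18515096), (nat_lit 12482732)] (nat_lit 4942965)) p15_24_3 (nat_lit 4) (nat_lit 84) (nat_lit 85) = true := by decide +kernel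
def p15_24_3_85 : pfC (piC [(nat_lit 37722612), (nat_lit 24889148), (nat_lit 18515096), (nat_lit 12482732)] (nat_lit 4942965)) p15_24_3 (nat_lit 4) (nat_lit 85) (nat_lit 86) = true := by decide +kernel
def p15_24_3_86 : pfC (piC [(nat_lit 37722612), (nat_lit 24889148), (nat_lit 18515096), (nat_lit 12482732)] (nat_lit 4942965)) p15_24_3 (nat_lit 4) (nat_lit 86) (nat_lit 87) = true := by decide +kernel
def p15_24_3_87 : pfC (piC [(nat_lit 37722612), (nat_lit 24889148), (nat_lit 18515096), (nat_lit 12482732)] (nat_lit 4942965)) p15_24_3 (nat_lit 4) (nat_lit 87) (nat_lit 88) = true := by decide +kernel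
def p15_24_3_88 : pfC (piC [(nat_lit 37722612), (nat_lit 24889148), (nat_lit 18515096), (nat_lit 12482732)] (nat_lit 4942965)) p15_24_3 (nat_lit 4) (nat_lit 88) (nat_lit 89) = true := by decide +kernel
def p15_24_3_89 : pfC (piC [(nat_lit 37722612), (nat_lit 24889148), (nat_lit 18515096), (nat_lit 12482732)] (nat_lit 4942965)) p15_24_3 (nat_lit 4) (nat_lit 89) (nat_lit 90) = true := by decide +kernel
def p15_24_3_90 : pfC (piC [(nat_lit 37722612), (nat_lit 24889148), (nat_lit 18515096), (nat_lit 12482732)] (nat_lit 4942965)) p15_24_3 (nat_lit 4) (nat_lit 90) (nat_lit 91) = true := by decide +kernel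
def p15_24_3_91 : pfC (piC [(nat_lit 37722612), (nat_lit 24889148), (nat_lit 18515096), (nat_lit 12482732)] (nat_lit 4942965)) p15_24_3 (nat_lit 4) (nat_lit 91) (nat_lit 92) = true := by decide +kernel
def p15_24_3_92 : pfC (piC [(nat_lit 37722612), (nat_lit 24889148), (nat_lit 18515096), (nat_lit 12482732)] (nat_lit 4942965)) p15_24_3 (nat_lit 4) (nat_lit 92) (nat_lit 93) = true := by decide +kernel
def p15_24_3_93 : pfC (piC [(nat_lit 37722612), (nat_lit 24889148), (nat_lit 18515096), (nat_lit 12482732)] (nat_lit 4942965)) p15_24_3 (nat_lit 4) (nat_lit 93) (nat_lit 94) = true := by decide +kernel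
def p15_24_3_94 : pfC (piC [(nat_lit 37722612), (nat_lit 24889148), (nat_lit 18515096), (nat_lit 12482732)] (nat_lit 4942965)) p15_24_3 (nat_lit 4) (nat_lit 94) (nat_lit 95) = true := by decide +kernel
def p15_24_3_95 : pfC (piC [(nat_lit 37722612), (nat_lit 24889148), (nat_lit 18515096), (nat_lit 12482732)] (nat_lit 4942965)) p15_24_3 (nat_lit 4) (nat_lit 95) (nat_lit 96) = true := by decide +kernel
def p15_24_3_96 : pfC (piC [(nat_lit 37722612), (nat_lit 24889148), (nat_lit 18515096), (nat_lit 12482732)] (nat_lit 4942965)) p15_24_3 (nat_lit 4) (nat_lit 96) (nat_lit 97) = true := by decide +kernel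
def p15_24_3_97 : pfC (piC [(nat_lit 37722612), (nat_lit 24889148), (nat_lit 18515096), (nat_lit 12482732)] (nat_lit 4942965)) p15_24_3 (nat_lit 4) (nat_lit 97) (nat_lit 98) = true := by decide +kernel
def p15_24_3_98 : pfC (piC [(nat_lit 37722612), (nat_lit 24889148), (nat_lit 18515096), (nat_lit 12482732)] (nat_lit 4942965)) p15_24_3 (nat_lit 4) (nat_lit 98) (nat_lit 99) = true := by decide +kernel
def p15_24_3_99 : pfC (piC [(nat_lit 37722612), (nat_lit 24889148), (nat_lit 18515096), (nat_lit 12482732)] (nat_lit 4942965)) p15_24_3 (nat_lit 4) (nat_lit 99) (nat_lit 100) = true := by decide +kernel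
def p15_24_3_100 : pfC (piC [(nat_lit 37722612), (nat_lit 24889148), (nat_lit 18515096), (nat_lit 12482732)] (nat_lit 4942965)) p15_24_3 (nat_lit 4) (nat_lit 100) (nat_lit 101) = true := by decide +kernel
def p15_24_3_101 : pfC (piC [(nat_lit 37722612), (nat_lit 24889148), (nat_lit 18515096), (nat_lit 12482732)] (nat_lit 4942965)) p15_24_3 (nat_lit 4) (nat_lit 101) (nat_lit 102) = true := by decide +kernel
def p15_24_3_102 : pfC (piC [(nat_lit 37722612), (nat_lit 24889148), (nat_lit 18515096), (nat_lit 12482732)] (nat_lit 4942965)) p15_24_3 (nat_lit 4) (nat_lit 102) (nat_lit 103) = true := by decide +kernel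
def p15_24_3_103 : pfC (piC [(nat_lit 37722612), (nat_lit 24889148), (nat_lit 18515096), (nat_lit 12482732)] (nat_lit 4942965)) p15_24_3 (nat_lit 4) (nat_lit 103) (nat_lit 104) = true := by decide +kernel
def p15_24_3_104 : pfC (piC [(nat_lit 37722612), (nat_lit 24889148), (nat_lit 18515096), (nat_lit 12482732)] (nat_lit 4942965)) p15_24_3 (nat_lit 4) (nat_lit 104) (nat_lit 105) = true := by decide +kernel
def p15_24_3_105 : pfC (piC [(nat_lit 37722612), (nat_lit 24889148), (nat_lit 18515096), (nat_lit 12482732)] (nat_lit 4942965)) p15_24_3 (nat_lit 4) (nat_lit 105) (nat_lit 106) = true := by decide +kernel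
def p15_24_3_106 : pfC (piC [(nat_lit 37722612), (nat_lit 24889148), (nat_lit 18515096), (nat_lit 12482732)] (nat_lit 4942965)) p15_24_3 (nat_lit 4) (nat_lit 106) (nat_lit 107) = true := by decide +kernel
def p15_24_3_107 : pfC (piC [(nat_lit 37722612), (nat_lit 24889148), (nat_lit 18515096), (nat_lit 12482732)] (nat_lit 4942965)) p15_24_3 (nat_lit 4) (nat_lit 107) (nat_lit 108) = true := by decide +kernel
def p15_24_3_108 : pfC (piC [(nat_lit 37722612), (nat_lit 24889148), (nat_lit 18515096), (nat_lit 12482732)] (nat_lit 4942965)) p15_24_3 (nat_lit 4) (nat_lit 108) (nat_lit 109) = true := by decide +kernel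
def p15_24_3_109 : pfC (piC [(nat_lit 37722612), (nat_lit 24889148), (nat_lit 18515096), (nat_lit 12482732)] (nat_lit 4942965)) p15_24_3 (nat_lit 4) (nat_lit 109) (nat_lit 110) = true := by decide +kernel
def p15_24_3_110 : pfC (piC [(nat_lit 37722612), (nat_lit 24889148), (nat_lit 18515096), (nat_lit 12482732)] (nat_lit 4942965)) p15_24_3 (nat_lit 4) (nat_lit 110) (nat_lit 111) = true := by decide +kernel
def p15_24_3_111 : pfC (piC [(nat_lit 37722612), (nat_lit 24889148), (nat_lit 18515096), (nat_lit 12482732)] (nat_lit 4942965)) p15_24_3 (nat_lit 4) (nat_lit 111) (nat_lit 112) = true := by decide +kernel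
def p15_24_3_112 : pfC (piC [(nat_lit 37722612), (nat_lit 24889148), (nat_lit 18515096), (nat_lit 12482732)] (nat_lit 4942965)) p15_24_3 (nat_lit 4) (nat_lit 112) (nat_lit 113) = true := by decide +kernel
def p15_24_3_113 : pfC (piC [(nat_lit 37722612), (nat_lit 24889148), (nat_lit 18515096), (nat_lit 12482732)] (nat_lit 4942965)) p15_24_3 (nat_lit 4) (nat_lit 113) (nat_lit 114) = true := by decide +kernel
def p15_24_3_114 : pfC (piC [(nat_lit 37722612), (nat_lit 24889148), (nat_lit 18515096), (nat_lit 12482732)] (nat_lit 4942965)) p15_24_3 (nat_lit 4) (nat_lit 114) (nat_lit 115) = true := by decide +kernel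
def p15_24_3_115 : pfC (piC [(nat_lit 37722612), (nat_lit 24889148), (nat_lit 18515096), (nat_lit 12482732)] (nat_lit 4942965)) p15_24_3 (nat_lit 4) (nat_lit 115) (nat_lit 116) = true := by decide +kernel
def p15_24_3_116 : pfC (piC [(nat_lit 37722612), (nat_lit 24889148), (nat_lit 18515096), (nat_lit 12482732)] (nat_lit 4942965)) p15_24_3 (nat_lit 4) (nat_lit 116) (nat_lit 117) = true := by decide +kernel
def p15_24_3_117 : pfC (piC [(nat_lit 37722612), (nat_lit 24889148), (nat_lit 18515096), (nat_lit 12482732)] (nat_lit 4942965)) p15_24_3 (nat_lit 4) (nat_lit 117) (nat_lit 118) = true := by decide +kernel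
def p15_24_3_118 : pfC (piC [(nat_lit 37722612), (nat_lit 24889148), (nat_lit 18515096), (nat_lit 12482732)] (nat_lit 4942965)) p15_24_3 (nat_lit 4) (nat_lit 118) (nat_lit 119) = true := by decide +kernel
def p15_24_3_119 : pfC (piC [(nat_lit 37722612), (nat_lit 24889148), (nat_lit 18515096), (nat_lit 12482732)] (nat_lit 4942965)) p15_24_3 (nat_lit 4) (nat_lit 119) (nat_lit 120) = true := by decide +kernel
def p15_24_3_120 : pfC (piC [(nat_lit 37722612), (nat_lit 24889148), (nat_lit 18515096), (nat_lit 12482732)] (nat_lit 4942965)) p15_24_3 (nat_lit 4) (nat_lit 120) (nat_lit 121) = true := by decide +kernel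
def p15_24_3_121 : pfC (piC [(nat_lit 37722612), (nat_lit 24889148), (nat_lit 18515096), (nat_lit 12482732)] (nat_lit 4942965)) p15_24_3 (nat_lit 4) (nat_lit 121) (nat_lit 122) = true := by decide +kernel
def p15_24_3_122 : pfC (piC [(nat_lit 37722612), (nat_lit 24889148), (nat_lit 18515096), (nat_lit 12482732)] (nat_lit 4942965)) p15_24_3 (nat_lit 4) (nat_lit 122) (nat_lit 123) = true := by decide +kernel
def p15_24_3_123 : pfC (piC [(nat_lit 37722612), (nat_lit 24889148), (nat_lit 18515096), (nat_lit 12482732)] (nat_lit 4942965)) p15_24_3 (nat_lit 4) (nat_lit 123) (nat_lit 124) = true := by decide +kernel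
def p15_24_3_124 : pfC (piC [(nat_lit 37722612), (nat_lit 24889148), (nat_lit 18515096), (nat_lit 12482732)] (nat_lit 4942965)) p15_24_3 (nat_lit 4) (nat_lit 124) (nat_lit 125) = true := by decide +kernel
def p15_24_3_125 : pfC (piC [(nat_lit 37722612), (nat_lit 24889148), (nat_lit 18515096), (nat_lit 12482732)] (nat_lit 4942965)) p15_24_3 (nat_lit 4) (nat_lit 125) (nat_lit 126) = true := by decide +kernel
def p15_24_3_126 : pfC (piC [(nat_lit 37722612), (nat_lit 24889148), (nat_lit 18515096), (nat_lit 12482732)] (nat_lit 4942965)) p15_24_3 (nat_lit 4) (nat_lit 126) (nat_lit 127) = true := by decide +kernel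
def p15_24_3_127 : pfC (piC [(nat_lit 37722612), (nat_lit 24889148), (nat_lit 18515096), (nat_lit 12482732)] (nat_lit 4942965)) p15_24_3 (nat_lit 4) (nat_lit 127) (nat_lit 128) = true := by decide +kernel
def p15_24_3_128 : pfC (piC [(nat_lit 37722612), (nat_lit 24889148), (nat_lit 18515096), (nat_lit 12482732)] (nat_lit 4942965)) p15_24_3 (nat_lit 4) (nat_lit 128) (nat_lit 129) = true := by decide +kernel
def p15_24_3_129 : pfC (piC [(nat_lit 37722612), (nat_lit 24889148), (nat_lit 18515096), (nat_lit 12482732)] (nat_lit 4942965)) p15_24_3 (nat_lit 4) (nat_lit 129) (nat_lit 130) = true := by decide +kernel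
def p15_24_3_130 : pfC (piC [(nat_lit 37722612), (nat_lit 24889148), (nat_lit 18515096), (nat_lit 12482732)] (nat_lit 4942965)) p15_24_3 (nat_lit 4) (nat_lit 130) (nat_lit 131) = true := by decide +kernel
def p15_24_3_131 : pfC (piC [(nat_lit 37722612), (nat_lit 24889148), (nat_lit 18515096), (nat_lit 12482732)] (nat_lit 4942965)) p15_24_3 (nat_lit 4) (nat_lit 131) (nat_lit 132) = true := by decide +kernel
def p15_24_3_132 : pfC (piC [(nat_lit 37722612), (nat_lit 24889148), (nat_lit 18515096), (nat_lit 12482732)] (nat_lit 4942965)) p15_24_3 (nat_lit 4) (nat_lit 132) (nat_lit 133) = true := by decide +kernel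
def p15_24_3_133 : pfC (piC [(nat_lit 37722612), (nat_lit 24889148), (nat_lit 18515096), (nat_lit 12482732)] (nat_lit 4942965)) p15_24_3 (nat_lit 4) (nat_lit 133) (nat_lit 134) = true := by decide +kernel
def p15_24_3_134 : pfC (piC [(nat_lit 37722612), (nat_lit 24889148), (nat_lit 18515096), (nat_lit 12482732)] (nat_lit 4942965)) p15_24_3 (nat_lit 4) (nat_lit 134) (nat_lit 135) = true := by decide +kernel
def p15_24_3_135 : pfC (piC [(nat_lit 37722612), (nat_lit 24889148), (nat_lit 18515096), (nat_lit 12482732)] (nat_lit 4942965)) p15_24_3 (nat_lit 4) (nat_lit 135) (nat_lit 136) = true := by decide +kernel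
def p15_24_3_136 : pfC (piC [(nat_lit 37722612), (nat_lit 24889148), (nat_lit 18515096), (nat_lit 12482732)] (nat_lit 4942965)) p15_24_3 (nat_lit 4) (nat_lit 136) (nat_lit 137) = true := by decide +kernel
def p15_24_3_137 : pfC (piC [(nat_lit 37722612), (nat_lit 24889148), (nat_lit 18515096), (nat_lit 12482732)] (nat_lit 4942965)) p15_24_3 (nat_lit 4) (nat_lit 137) (nat_lit 138) = true := by decide +kernel
def p15_24_3_138 : pfC (piC [(nat_lit 37722612), (nat_lit 24889148), (nat_lit 18515096), (nat_lit 12482732)] (nat_lit 4942965)) p15_24_3 (nat_lit 4) (nat_lit 138) (nat_lit 139) = true := by decide +kernel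
def p15_24_3_139 : pfC (piC [(nat_lit 37722612), (nat_lit 24889148), (nat_lit 18515096), (nat_lit 12482732)] (nat_lit 4942965)) p15_24_3 (nat_lit 4) (nat_lit 139) (nat_lit 140) = true := by decide +kernel
def p15_24_3_140 : pfC (piC [(nat_lit 37722612), (nat_lit 24889148), (nat_lit 18515096), (nat_lit 12482732)] (nat_lit 4942965)) p15_24_3 (nat_lit 4) (nat_lit 140) (nat_lit 141) = true := by decide +kernel
def p15_24_3_141 : pfC (piC [(nat_lit 37722612), (nat_lit 24889148), (nat_lit 18515096), (nat_lit 12482732)] (nat_lit 4942965)) p15_24_3 (nat_lit 4) (nat_lit 141) (nat_lit 142) = true := by decide +kernel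
def p15_24_3_142 : pfC (piC [(nat_lit 37722612), (nat_lit 24889148), (nat_lit 18515096), (nat_lit 12482732)] (nat_lit 4942965)) p15_24_3 (nat_lit 4) (nat_lit 142) (nat_lit 143) = true := by decide +kernel
def p15_24_3_143 : pfC (piC [(nat_lit 37722612), (nat_lit 24889148), (nat_lit 18515096), (nat_lit 12482732)] (nat_lit 4942965)) p15_24_3 (nat_lit 4) (nat_lit 143) (nat_lit 144) = true := by decide +kernel
def p15_24_3_144 : pfC (piC [(nat_lit 37722612), (nat_lit 24889148), (nat_lit 18515096), (nat_lit 12482732)] (nat_lit 4942965)) p15_24_3 (nat_lit 4) (nat_lit 144) (nat_lit 145) = true := by decide +kernel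
def p15_24_3_145 : pfC (piC [(nat_lit 37722612), (nat_lit 24889148), (nat_lit 18515096), (nat_lit 12482732)] (nat_lit 4942965)) p15_24_3 (nat_lit 4) (nat_lit 145) (nat_lit 146) = true := by decide +kernel
def p15_24_3_146 : pfC (piC [(nat_lit 37722612), (nat_lit 24889148), (nat_lit 18515096), (nat_lit 12482732)] (nat_lit 4942965)) p15_24_3 (nat_lit 4) (nat_lit 146) (nat_lit 147) = true := by decide +kernel
def p15_24_3_147 : pfC (piC [(nat_lit 37722612), (nat_lit 24889148), (nat_lit 18515096), (nat_lit 12482732)] (nat_lit 4942965)) p15_24_3 (nat_lit 4) (nat_lit 147) (nat_lit 148) = true := by decide +kernel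
def p15_24_3_148 : pfC (piC [(nat_lit 37722612), (nat_lit 24889148), (nat_lit 18515096), (nat_lit 12482732)] (nat_lit 4942965)) p15_24_3 (nat_lit 4) (nat_lit 148) (nat_lit 149) = true := by decide +kernel
def p15_24_3_149 : pfC (piC [(nat_lit 37722612), (nat_lit 24889148), (nat_lit 18515096), (nat_lit 12482732)] (nat_lit 4942965)) p15_24_3 (nat_lit 4) (nat_lit 149) (nat_lit 150) = true := by decide +kernel
def p15_24_3_150 : pfC (piC [(nat_lit 37722612), (nat_lit 24889148), (nat_lit 18515096), (nat_lit 12482732)] (nat_lit 4942965)) p15_24_3 (nat_lit 4) (nat_lit 150) (nat_lit 151) = true := by decide +kernel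
def p15_24_3_151 : pfC (piC [(nat_lit 37722612), (nat_lit 24889148), (nat_lit 18515096), (nat_lit 12482732)] (nat_lit 4942965)) p15_24_3 (nat_lit 4) (nat_lit 151) (nat_lit 152) = true := by decide +kernel
def p15_24_3_152 : pfC (piC [(nat_lit 37722612), (nat_lit 24889148), (nat_lit 18515096), (nat_lit 12482732)] (nat_lit 4942965)) p15_24_3 (nat_lit 4) (nat_lit 152) (nat_lit 153) = true := by decide +kernel
def p15_24_3_153 : pfC (piC [(nat_lit 37722612), (nat_lit 24889148), (nat_lit 18515096), (nat_lit 12482732)] (nat_lit 4942965)) p15_24_3 (nat_lit 4) (nat_lit 153) (nat_lit 154) = true := by decide +kernel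
def p15_24_3_154 : pfC (piC [(nat_lit 37722612), (nat_lit 24889148), (nat_lit 18515096), (nat_lit 12482732)] (nat_lit 4942965)) p15_24_3 (nat_lit 4) (nat_lit 154) (nat_lit 155) = true := by decide +kernel
def p15_24_3_155 : pfC (piC [(nat_lit 37722612), (nat_lit 24889148), (nat_lit 18515096), (nat_lit 12482732)] (nat_lit 4942965)) p15_24_3 (nat_lit 4) (nat_lit 155) (nat_lit 156) = true := by decide +kernel
def p15_24_3_156 : pfC (piC [(nat_lit 37722612), (nat_lit 24889148), (nat_lit 18515096), (nat_lit 12482732)] (nat_lit 4942965)) p15_24_3 (nat_lit 4) (nat_lit 156) (nat_lit 157) = true := by decide +kernel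
def p15_24_3_157 : pfC (piC [(nat_lit 37722612), (nat_lit 24889148), (nat_lit 18515096), (nat_lit 12482732)] (nat_lit 4942965)) p15_24_3 (nat_lit 4) (nat_lit 157) (nat_lit 158) = true := by decide +kernel
def p15_24_3_158 : pfC (piC [(nat_lit 37722612), (nat_lit 24889148), (nat_lit 18515096), (nat_lit 12482732)] (nat_lit 4942965)) p15_24_3 (nat_lit 4) (nat_lit 158) (nat_lit 159) = true := by decide +kernel
def p15_24_3_159 : pfC (piC [(nat_lit 37722612), (nat_lit 24889148), (nat_lit 18515096), (nat_lit 12482732)] (nat_lit 4942965)) p15_24_3 (nat_lit 4) (nat_lit 159) (nat_lit 160) = true := by decide +kernel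
def p15_24_3_160 : pfC (piC [(nat_lit 37722612), (nat_lit 24889148), (nat_lit 18515096), (nat_lit 12482732)] (nat_lit 4942965)) p15_24_3 (nat_lit 4) (nat_lit 160) (nat_lit 161) = true := by decide +kernel
def p15_24_3_161 : pfC (piC [(nat_lit 37722612), (nat_lit 24889148), (nat_lit 18515096), (nat_lit 12482732)] (nat_lit 4942965)) p15_24_3 (nat_lit 4) (nat_lit 161) (nat_lit 162) = true := by decide +kernel
def p15_24_3_162 : pfC (piC [(nat_lit 37722612), (nat_lit 24889148), (nat_lit 18515096), (nat_lit 12482732)] (nat_lit 4942965)) p15_24_3 (nat_lit 4) (nat_lit 162) (nat_lit 163) = true := by decide +kernel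
def p15_24_3_163 : pfC (piC [(nat_lit 37722612), (nat_lit 24889148), (nat_lit 18515096), (nat_lit 12482732)] (nat_lit 4942965)) p15_24_3 (nat_lit 4) (nat_lit 163) (nat_lit 164) = true := by decide +kernel
def p15_24_3_164 : pfC (piC [(nat_lit 37722612), (nat_lit 24889148), (nat_lit 18515096), (nat_lit 12482732)] (nat_lit 4942965)) p15_24_3 (nat_lit 4) (nat_lit 164) (nat_lit 165) = true := by decide +kernel
def p15_24_3_165 : pfC (piC [(nat_lit 37722612), (nat_lit 24889148), (nat_lit 18515096), (nat_lit 12482732)] (nat_lit 4942965)) p15_24_3 (nat_lit 4) (nat_lit 165) (nat_lit 166) = true := by decide +kernel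
def p15_24_3_166 : pfC (piC [(nat_lit 37722612), (nat_lit 24889148), (nat_lit 18515096), (nat_lit 12482732)] (nat_lit 4942965)) p15_24_3 (nat_lit 4) (nat_lit 166) (nat_lit 167) = true := by decide +kernel
def p15_24_3_167 : pfC (piC [(nat_lit 37722612), (nat_lit 24889148), (nat_lit 18515096), (nat_lit 12482732)] (nat_lit 4942965)) p15_24_3 (nat_lit 4) (nat_lit 167) (nat_lit 168) = true := by decide +kernel
def p15_24_3_168 : pfC (piC [(nat_lit 37722612), (nat_lit 24889148), (nat_lit 18515096), (nat_lit 12482732)] (nat_lit 4942965)) p15_24_3 (nat_lit 4) (nat_lit 168) (nat_lit 169) = true := by decide +kernel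
def p15_24_3_169 : pfC (piC [(nat_lit 37722612), (nat_lit 24889148), (nat_lit 18515096), (nat_lit 12482732)] (nat_lit 4942965)) p15_24_3 (nat_lit 4) (nat_lit 169) (nat_lit 170) = true := by decide +kernel
def p15_24_3_170 : pfC (piC [(nat_lit 37722612), (nat_lit 24889148), (nat_lit 18515096), (nat_lit 12482732)] (nat_lit 4942965)) p15_24_3 (nat_lit 4) (nat_lit 170) (nat_lit 171) = true := by decide +kernel
def p15_24_3_171 : pfC (piC [(nat_lit 37722612), (nat_lit 24889148), (nat_lit 18515096), (nat_lit 12482732)] (nat_lit 4942965)) p15_24_3 (nat_lit 4) (nat_lit 171) (nat_lit 172) = true := by decide +kernel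
def p15_24_3_172 : pfC (piC [(nat_lit 37722612), (nat_lit 24889148), (nat_lit 18515096), (nat_lit 12482732)] (nat_lit 4942965)) p15_24_3 (nat_lit 4) (nat_lit 172) (nat_lit 173) = true := by decide +kernel
def p15_24_3_173 : pfC (piC [(nat_lit 37722612), (nat_lit 24889148), (nat_lit 18515096), (nat_lit 12482732)] (nat_lit 4942965)) p15_24_3 (nat_lit 4) (nat_lit 173) (nat_lit 174) = true := by decide +kernel
def p15_24_3_174 : pfC (piC [(nat_lit 37722612), (nat_lit 24889148), (nat_lit 18515096), (nat_lit 12482732)] (nat_lit 4942965)) p15_24_3 (nat_lit 4) (nat_lit 174) (nat_lit 175) = true := by decide +kernel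
def p15_24_3_175 : pfC (piC [(nat_lit 37722612), (nat_lit 24889148), (nat_lit 18515096), (nat_lit 12482732)] (nat_lit 4942965)) p15_24_3 (nat_lit 4) (nat_lit 175) (nat_lit 176) = true := by decide +kernel
def p15_24_3_176 : pfC (piC [(nat_lit 37722612), (nat_lit 24889148), (nat_lit 18515096), (nat_lit 12482732)] (nat_lit 4942965)) p15_24_3 (nat_lit 4) (nat_lit 176) (nat_lit 177) = true := by decide +kernel
def p15_24_3_177 : pfC (piC [(nat_lit 37722612), (nat_lit 24889148), (nat_lit 18515096), (nat_lit 12482732)] (nat_lit 4942965)) p15_24_3 (nat_lit 4) (nat_lit 177) (nat_lit 178) = true := by decide +kernel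
def p15_24_3_178 : pfC (piC [(nat_lit 37722612), (nat_lit 24889148), (nat_lit 18515096), (nat_lit 12482732)] (nat_lit 4942965)) p15_24_3 (nat_lit 4) (nat_lit 178) (nat_lit 179) = true := by decide +kernel
def p15_24_3_179 : pfC (piC [(nat_lit 37722612), (nat_lit 24889148), (nat_lit 18515096), (nat_lit 12482732)] (nat_lit 4942965)) p15_24_3 (nat_lit 4) (nat_lit 179) (nat_lit 180) = true := by decide +kernel
def p15_24_3_180 : pfC (piC [(nat_lit 37722612), (nat_lit 24889148), (nat_lit 18515096), (nat_lit 12482732)] (nat_lit 4942965)) p15_24_3 (nat_lit 4) (nat_lit 180) (nat_lit 181) = true := by decide +kernel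
def p15_24_3_181 : pfC (piC [(nat_lit 37722612), (nat_lit 24889148), (nat_lit 18515096), (nat_lit 12482732)] (nat_lit 4942965)) p15_24_3 (nat_lit 4) (nat_lit 181) (nat_lit 182) = true := by decide +kernel
def p15_24_3_182 : pfC (piC [(nat_lit 37722612), (nat_lit 24889148), (nat_lit 18515096), (nat_lit 12482732)] (nat_lit 4942965)) p15_24_3 (nat_lit 4) (nat_lit 182) (nat_lit 183) = true := by decide +kernel
def p15_24_3_183 : pfC (piC [(nat_lit 37722612), (nat_lit 24889148), (nat_lit 18515096), (nat_lit 12482732)] (nat_lit 4942965)) p15_24_3 (nat_lit 4) (nat_lit 183) (nat_lit 184) = true := by decide +kernel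
def p15_24_3_184 : pfC (piC [(nat_lit 37722612), (nat_lit 24889148), (nat_lit 18515096), (nat_lit 12482732)] (nat_lit 4942965)) p15_24_3 (nat_lit 4) (nat_lit 184) (nat_lit 185) = true := by decide +kernel
def p15_24_3_185 : pfC (piC [(nat_lit 37722612), (nat_lit 24889148), (nat_lit 18515096), (nat_lit 12482732)] (nat_lit 4942965)) p15_24_3 (nat_lit 4) (nat_lit 185) (nat_lit 186) = true := by decide +kernel
def p15_24_3_186 : pfC (piC [(nat_lit 37722612), (nat_lit 24889148), (nat_lit 18515096), (nat_lit 12482732)] (nat_lit 4942965)) p15_24_3 (nat_lit 4) (nat_lit 186) (nat_lit 187) = true := by decide +kernel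
def p15_24_3_187 : pfC (piC [(nat_lit 37722612), (nat_lit 24889148), (nat_lit 18515096), (nat_lit 12482732)] (nat_lit 4942965)) p15_24_3 (nat_lit 4) (nat_lit 187) (nat_lit 188) = true := by decide +kernel
def p15_24_3_188 : pfC (piC [(nat_lit 37722612), (nat_lit 24889148), (nat_lit 18515096), (nat_lit 12482732)] (nat_lit 4942965)) p15_24_3 (nat_lit 4) (nat_lit 188) (nat_lit 189) = true := by decide +kernel
def p15_24_3_189 : pfC (piC [(nat_lit 37722612), (nat_lit 24889148), (nat_lit 18515096), (nat_lit 12482732)] (nat_lit 4942965)) p15_24_3 (nat_lit 4) (nat_lit 189) (nat_lit 190) = true := by decide +kernel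
def p15_24_3_190 : pfC (piC [(nat_lit 37722612), (nat_lit 24889148), (nat_lit 18515096), (nat_lit 12482732)] (nat_lit 4942965)) p15_24_3 (nat_lit 4) (nat_lit 190) (nat_lit 191) = true := by decide +kernel
def p15_24_3_191 : pfC (piC [(nat_lit 37722612), (nat_lit 24889148), (nat_lit 18515096), (nat_lit 12482732)] (nat_lit 4942965)) p15_24_3 (nat_lit 4) (nat_lit 191) (nat_lit 192) = true := by decide +kernel
def p15_24_3_192 : pfC (piC [(nat_lit 37722612), (nat_lit 24889148), (nat_lit 18515096), (nat_lit 12482732)] (nat_lit 4942965)) p15_24_3 (nat_lit 4) (nat_lit 192) (nat_lit 193) = true := by decide +kernel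
def p15_24_3_193 : pfC (piC [(nat_lit 37722612), (nat_lit 24889148), (nat_lit 18515096), (nat_lit 12482732)] (nat_lit 4942965)) p15_24_3 (nat_lit 4) (nat_lit 193) (nat_lit 194) = true := by decide +kernel
def p15_24_3_194 : pfC (piC [(nat_lit 37722612), (nat_lit 24889148), (nat_lit 18515096), (nat_lit 12482732)] (nat_lit 4942965)) p15_24_3 (nat_lit 4) (nat_lit 194) (nat_lit 195) = true := by decide +kernel
def p15_24_3_195 : pfC (piC [(nat_lit 37722612), (nat_lit 24889148), (nat_lit 18515096), (nat_lit 12482732)] (nat_lit 4942965)) p15_24_3 (nat_lit 4) (nat_lit 195) (nat_lit 196) = true := by decide +kernel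
def p15_24_3_196 : pfC (piC [(nat_lit 37722612), (nat_lit 24889148), (nat_lit 18515096), (nat_lit 12482732)] (nat_lit 4942965)) p15_24_3 (nat_lit 4) (nat_lit 196) (nat_lit 197) = true := by decide +kernel
def p15_24_3_197 : pfC (piC [(nat_lit 37722612), (nat_lit 24889148), (nat_lit 18515096), (nat_lit 12482732)] (nat_lit 4942965)) p15_24_3 (nat_lit 4) (nat_lit 197) (nat_lit 198) = true := by decide +kernel
def p15_24_3_198 : pfC (piC [(nat_lit 37722612), (nat_lit 24889148), (nat_lit 18515096), (nat_lit 12482732)] (nat_lit 4942965)) p15_24_3 (nat_lit 4) (nat_lit 198) (nat_lit 199) = true := by decide +kernel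
def p15_24_3_199 : pfC (piC [(nat_lit 37722612), (nat_lit 24889148), (nat_lit 18515096), (nat_lit 12482732)] (nat_lit 4942965)) p15_24_3 (nat_lit 4) (nat_lit 199) (nat_lit 200) = true := by decide +kernel
def p15_24_3_200 : pfC (piC [(nat_lit 37722612), (nat_lit 24889148), (nat_lit 18515096), (nat_lit 12482732)] (nat_lit 4942965)) p15_24_3 (nat_lit 4) (nat_lit 200) (nat_lit 201) = true := by decide +kernel
def p15_24_3_201 : pfC (piC [(nat_lit 37722612), (nat_lit 24889148), (nat_lit 18515096), (nat_lit 12482732)] (nat_lit 4942965)) p15_24_3 (nat_lit 4) (nat_lit 201) (nat_lit 202) = true := by decide +kernel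
def p15_24_3_202 : pfC (piC [(nat_lit 37722612), (nat_lit 24889148), (nat_lit 18515096), (nat_lit 12482732)] (nat_lit 4942965)) p15_24_3 (nat_lit 4) (nat_lit 202) (nat_lit 203) = true := by decide +kernel
def p15_24_3_203 : pfC (piC [(nat_lit 37722612), (nat_lit 24889148), (nat_lit 18515096), (nat_lit 12482732)] (nat_lit 4942965)) p15_24_3 (nat_lit 4) (nat_lit 203) (nat_lit 204) = true := by decide +kernel
def p15_24_3_204 : pfC (piC [(nat_lit 37722612), (nat_lit 24889148), (nat_lit 18515096), (nat_lit 12482732)] (nat_lit 4942965)) p15_24_3 (nat_lit 4) (nat_lit 204) (nat_lit 205) = true := by decide +kernel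
theorem p15_24_3_T : PfS (PiF n15_24.reverse (nat_lit 4942965)) p15_24_3 (nat_lit 4) [] 0 :=
  pftab_of (los := [(nat_lit 37722612), (nat_lit 24889148), (nat_lit 18515096), (nat_lit 12482732)]) (by decide +kernel) (hi := (nat_lit 205)) (PfP.trans (PfP.trans (PfP.trans (PfP.trans (PfP.trans (PfP.trans (PfP.trans (PfP.trans (PfP.trans (PfP.trans (PfP.trans (PfP.trans (PfP.trans (PfP.trans (PfP.trans (PfP.trans (PfP.trans (PfP.trans (PfP.trans (PfP.trans (PfP.trans (PfP.trans (PfP.trans (PfP.trans (PfP.trans (PfP.trans (PfP.trans (PfP.trans (PfP.trans (PfP.trans (PfP.trans (PfP.trans (PfP.trans (PfP.trans (PfP.trans (PfP.trans (PfP.trans (PfP.trans (PfP.trans (PfP.trans (PfP.trans (PfP.trans (PfP.trans (PfP.trans (PfP.trans (PfP.trans (PfP.trans (PfP.trans (PfP.trans (PfP.trans (PfP.trans (PfP.trans (PfP.trans (PfP.trans (PfP.trans (PfP.trans (PfP.trans (PfP.trans (PfP.trans (PfP.trans (PfP.trans (PfP.trans (PfP.trans (PfP.trans (PfP.trans (PfP.trans (PfP.trans (PfP.trans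 (PfP.trans (PfP.trans (PfP.trans (PfP.trans (PfP.trans (PfP.trans (PfP.trans (PfP.trans (PfP.trans (PfP.trans (PfP.trans (PfP.trans (PfP.trans (PfP.trans (PfP.trans (PfP.trans (PfP.trans (PfP.trans (PfP.trans (PfP.trans (PfP.trans (PfP.trans (PfP.trans (PfP.trans (PfP.trans (PfP.trans (PfP.trans (PfP.trans (PfP.trans (PfP.trans (PfP.trans (PfP.trans (PfP.trans (PfP.trans (PfP.trans (PfP.trans (PfP.trans (PfP.trans (PfP.trans (PfP.trans (PfP.trans
 (PfP.trans (PfP.trans (PfP.trans (PfP.trans (PfP.trans (PfP.trans (PfP.trans (PfP.trans (PfP.trans (PfP.trans (PfP.trans (PfP.trans (PfP.trans (PfP.trans (PfP.trans (PfP.trans (PfP.trans (PfP.trans (PfP.trans (PfP.trans (PfP.trans (PfP.trans (PfP.trans (PfP.trans (PfP.trans (PfP.trans (PfP.trans (PfP.trans (PfP.trans (PfP.trans (PfP.trans (PfP.trans (PfP.trans (PfP.trans (PfP.trans (PfP.trans (PfP.trans (PfP.trans (PfP.trans (PfP.trans (PfP.trans (PfP.trans (PfP.trans (PfP.trans (PfP.trans (PfP.trans (PfP.trans (PfP.trans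 (PfP.trans (PfP.trans (PfP.trans (PfP.trans (PfP.trans (PfP.trans (PfP.trans (PfP.trans (PfP.trans (PfP.trans (PfP.trans (PfP.trans (PfP.trans (PfP.trans (PfP.trans (PfP.trans (PfP.trans (PfP.trans (PfP.trans (PfP.trans (PfP.trans (PfP.trans (PfP.trans (PfP.trans (PfP.trans (PfP.trans (PfP.trans (PfP.trans (PfP.trans (PfP.trans (PfP.trans (PfP.trans (PfP.trans (PfP.trans (PfP.trans (PfP.trans (PfP.trans (PfP.trans (PfP.trans (PfP.trans (PfP.trans (PfP.trans (PfP.trans (PfP.trans (PfP.trans (PfP.trans (PfP.trans (pfC_sound p15_24_3_0) (pfC_sound p15_24_3_1)) (pfC_sound p15_24_3_2)) (pfC_sound p15_24_3_3)) (pfC_sound p15_24_3_4)) (pfC_sound p15_24_3_5)) (pfC_sound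
 p15_24_3_6)) (pfC_sound p15_24_3_7)) (pfC_sound p15_24_3_8)) (pfC_sound p15_24_3_9)) (pfC_sound p15_24_3_10)) (pfC_sound p15_24_3_11)) (pfC_sound p15_24_3_12)) (pfC_sound p15_24_3_13)) (pfC_sound p15_24_3_14)) (pfC_sound p15_24_3_15)) (pfC_sound p15_24_3_16)) (pfC_sound p15_24_3_17)) (pfC_sound p15_24_3_18)) (pfC_sound p15_24_3_19)) (pfC_sound p15_24_3_20)) (pfC_sound p15_24_3_21)) (pfC_sound p15_24_3_22)) (pfC_sound p15_24_3_23)) (pfC_sound p15_24_3_24)) (pfC_sound p15_24_3_25)) (pfC_sound p15_24_3_26)) (pfC_sound p15_24_3_27)) (pfC_sound p15_24_3_28)) (pfC_sound p15_24_3_29)) (pfC_sound p15_24_3_30)) (pfC_sound p15_24_3_31)) (pfC_sound p15_24_3_32)) (pfC_sound p15_24_3_33)) (pfC_sound p15_24_3_34)) (pfC_sound p15_24_3_35)) (pfC_sound p15_24_3_36)) (pfC_sound p15_24_3_37)) (pfC_sound p15_24_3_38)) (pfC_sound p15_24_3_39)) (pfC_sound p15_24_3_40)) (pfC_sound p15_24_3_41)) (pfC_sound p15_24_3_42)) (pfC_sound p15_24_3_43)) (pfC_sound p15_24_3_44)) (pfC_sound p15_24_3_45))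 (pfC_sound p15_24_3_46)) (pfC_sound p15_24_3_47)) (pfC_sound p15_24_3_48)) (pfC_sound p15_24_3_49)) (pfC_sound p15_24_3_50)) (pfC_sound p15_24_3_51)) (pfC_sound p15_24_3_52)) (pfC_sound p15_24_3_53)) (pfC_sound
 p15_24_3_54)) (pfC_sound p15_24_3_55)) (pfC_sound p15_24_3_56)) (pfC_sound p15_24_3_57)) (pfC_sound p15_24_3_58)) (pfC_sound p15_24_3_59)) (pfC_sound p15_24_3_60)) (pfC_sound p15_24_3_61)) (pfC_sound p15_24_3_62)) (pfC_sound p15_24_3_63)) (pfC_sound p15_24_3_64)) (pfC_sound p15_24_3_65)) (pfC_sound p15_24_3_66)) (pfC_sound p15_24_3_67)) (pfC_sound p15_24_3_68)) (pfC_sound p15_24_3_69)) (pfC_sound p15_24_3_70)) (pfC_sound p15_24_3_71)) (pfC_sound p15_24_3_72)) (pfC_sound p15_24_3_73)) (pfC_sound p15_24_3_74)) (pfC_sound p15_24_3_75)) (pfC_sound p15_24_3_76)) (pfC_sound p15_24_3_77)) (pfC_sound p15_24_3_78)) (pfC_sound p15_24_3_79)) (pfC_sound p15_24_3_80)) (pfC_sound p15_24_3_81)) (pfC_sound p15_24_3_82)) (pfC_sound p15_24_3_83)) (pfC_sound p15_24_3_84)) (pfC_sound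 p15_24_3_85)) (pfC_sound p15_24_3_86)) (pfC_sound p15_24_3_87)) (pfC_sound p15_24_3_88)) (pfC_sound p15_24_3_89)) (pfC_sound p15_24_3_90)) (pfC_sound p15_24_3_91)) (pfC_sound p15_24_3_92)) (pfC_sound p15_24_3_93)) (pfC_sound p15_24_3_94)) (pfC_sound p15_24_3_95)) (pfC_sound p15_24_3_96)) (pfC_sound p15_24_3_97)) (pfC_sound p15_24_3_98)) (pfC_sound p15_24_3_99)) (pfC_sound p15_24_3_100)) (pfC_sound p15_24_3_101))
 (pfC_sound p15_24_3_102)) (pfC_sound p15_24_3_103)) (pfC_sound p15_24_3_104)) (pfC_sound p15_24_3_105)) (pfC_sound p15_24_3_106)) (pfC_sound p15_24_3_107)) (pfC_sound p15_24_3_108)) (pfC_sound p15_24_3_109)) (pfC_sound p15_24_3_110)) (pfC_sound p15_24_3_111)) (pfC_sound p15_24_3_112)) (pfC_sound p15_24_3_113)) (pfC_sound p15_24_3_114)) (pfC_sound p15_24_3_115)) (pfC_sound p15_24_3_116)) (pfC_sound p15_24_3_117)) (pfC_sound p15_24_3_118)) (pfC_sound p15_24_3_119)) (pfC_sound p15_24_3_120)) (pfC_sound p15_24_3_121)) (pfC_sound p15_24_3_122)) (pfC_sound p15_24_3_123))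 (pfC_sound p15_24_3_124)) (pfC_sound p15_24_3_125)) (pfC_sound p15_24_3_126)) (pfC_sound p15_24_3_127)) (pfC_sound p15_24_3_128)) (pfC_sound p15_24_3_129)) (pfC_sound p15_24_3_130)) (pfC_sound p15_24_3_131)) (pfC_sound p15_24_3_132)) (pfC_sound p15_24_3_133)) (pfC_sound p15_24_3_134)) (pfC_sound p15_24_3_135)) (pfC_sound p15_24_3_136)) (pfC_sound p15_24_3_137)) (pfC_sound p15_24_3_138)) (pfC_sound p15_24_3_139)) (pfC_sound p15_24_3_140)) (pfC_sound p15_24_3_141)) (pfC_sound p15_24_3_142)) (pfC_sound p15_24_3_143)) (pfC_sound p15_24_3_144)) (pfC_sound p15_24_3_145)) (pfC_sound p15_24_3_146)) (pfC_sound p15_24_3_147))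
 (pfC_sound p15_24_3_148)) (pfC_sound p15_24_3_149)) (pfC_sound p15_24_3_150)) (pfC_sound p15_24_3_151)) (pfC_sound p15_24_3_152)) (pfC_sound p15_24_3_153)) (pfC_sound p15_24_3_154)) (pfC_sound p15_24_3_155)) (pfC_sound p15_24_3_156)) (pfC_sound p15_24_3_157)) (pfC_sound p15_24_3_158)) (pfC_sound p15_24_3_159)) (pfC_sound p15_24_3_160)) (pfC_sound p15_24_3_161)) (pfC_sound p15_24_3_162)) (pfC_sound p15_24_3_163)) (pfC_sound p15_24_3_164)) (pfC_sound p15_24_3_165)) (pfC_sound p15_24_3_166)) (pfC_sound p15_24_3_167)) (pfC_sound p15_24_3_168)) (pfC_sound p15_24_3_169)) (pfC_sound p15_24_3_170)) (pfC_sound p15_24_3_171)) (pfC_sound p15_24_3_172)) (pfC_sound p15_24_3_173)) (pfC_sound p15_24_3_174)) (pfC_sound p15_24_3_175)) (pfC_sound p15_24_3_176)) (pfC_sound p15_24_3_177)) (pfC_sound p15_24_3_178)) (pfC_sound p15_24_3_179)) (pfC_sound p15_24_3_180)) (pfC_sound p15_24_3_181)) (pfC_sound p15_24_3_182)) (pfC_sound p15_24_3_183)) (pfC_sound p15_24_3_184)) (pfC_sound p15_24_3_185))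 (pfC_sound p15_24_3_186)) (pfC_sound p15_24_3_187)) (pfC_sound p15_24_3_188)) (pfC_sound p15_24_3_189)) (pfC_sound p15_24_3_190)) (pfC_sound p15_24_3_191)) (pfC_sound p15_24_3_192)) (pfC_sound p15_24_3_193))
 (pfC_sound p15_24_3_194)) (pfC_sound p15_24_3_195)) (pfC_sound p15_24_3_196)) (pfC_sound p15_24_3_197)) (pfC_sound p15_24_3_198)) (pfC_sound p15_24_3_199)) (pfC_sound p15_24_3_200)) (pfC_sound p15_24_3_201)) (pfC_sound p15_24_3_202)) (pfC_sound p15_24_3_203)) (pfC_sound p15_24_3_204)) (by decide +kernel)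

def z15_24_3 : zOK yB15_24 (nat_lit 3) (nat_lit 750) (nat_lit 832) (nat_lit 4942965) (nat_lit 4185505) = true := by decide +kernel
def g15_24_3 : gOK yB15_24.x P15_24 (nat_lit 1415) (q15_24 :: r15_24) (nat_lit 3) (nat_lit 750) (nat_lit 4) (nat_lit 832) (nat_lit 12712500) (nat_lit 12712500) (nat_lit 12712500) (nat_lit 12712500) [(nat_lit 800)] = true := by decide +kernel
def v15_24_3 : ivC P15_24 s15_24 w15_24 n15_24 (nat_lit 4) (nat_lit 4625) (nat_lit 3) (nat_lit 750) f160_1_750 f168_1_750 (nat_lit 4) (nat_lit 832) f160_1_832 f168_1_832 (nat_lit 4942965) (nat_lit 4185505) p15_24_3 = true := by decide +kernel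
end CB
end Pool.Agent.Lib.MP_6947cd_al
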