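import Pool.Agent.Lib.MP_6947cd_al.L.BoxDataB
import Pool.Agent.Lib.MP_6947cd_al.L.TeD4
import Pool.Agent.Lib.MP_6947cd_al.L.TeD5

/-!
Problem MP_6947cd_al (Chollet).  CASE B, rows `j`: boxes (generated).
-/

set_option autoImplicit false
set_option linter.defProp false
set_option maxRecDepth 20000

namespace Pool.Agent.Lib.MP_6947cd_al
namespace CB

open Ent Ent.Pk Fr Fr.WT CA

/-! box `yB15_25` -/

def P15_25 : BQ := ⟨(nat_lit 8), (nat_lit 2), (nat_lit 6), (nat_lit 1), (nat_lit 7), (nat_lit 830), (nat_lit 835), (nat_lit 120), [(nat_lit 200), (nat_lit 300), (nat_lit 450), (nat_lit 800)], (nat_lit 121600000), (nat_lit 16000000), (nat_lit 16000000000)⟩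
def q15_25 : PC := ⟨(nat_lit 1000), [(nat_lit 120000), (nat_lit 200000), (nat_lit 300000), (nat_lit 450000), (nat_lit 800000)], (nat_lit 340282367000166625996085689103316680705000000), (nat_lit 15878400000000), (nat_lit 15878400000000), (nat_lit 10000000)⟩
def r15_25 : List PC := [⟨(nat_lit 1263), [(nat_lit 120528), (nat_lit 200849), (nat_lit 300921), (nat_lit 450785), (nat_lit 799413)], (nat_lit 341944986645364617434842700904863069809625836), (nat_lit 16243152261440), (nat_lit 16245448567040), (nat_lit 10044000)⟩, ⟨(nat_lit 1385), [(nat_lit 120796), (nat_lit 201221), (nat_lit 301535), (nat_lit 452295), (nat_lit 801965)], (nat_lit 342741927948877660794153789083892283295616751), (nat_lit 16409893188800), (nat_lit 16413254700800), (nat_lit 10066334)⟩]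
def s15_25 : List PB := [⟨(nat_lit 25260), (nat_lit 1928448000000), [(nat_lit 200849), (nat_lit 300921), (nat_lit 450785), (nat_lit 799413)], (nat_lit 341944986645364617434842700904863069809625836), (nat_lit 1142143059104064), (nat_lit 1142145355409664), (nat_lit 42080)⟩, ⟨(nat_lit 27700), (nat_lit 1932736000000), [(nat_lit 201221), (nat_lit 301535), (nat_lit 452295), (nat_lit 801965)], (nat_lit 342741927948877660794153789083892283295616751), (nat_lit 1142309800031424), (nat_lit 1142313161543424), (nat_lit 61600)⟩]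
def n15_25 : List KN := [⟨(nat_lit 800), (nat_lit 450), (nat_lit 12447949), (nat_lit 5942074)⟩, ⟨(nat_lit 450), (nat_lit 300), (nat_lit 18451604), (nat_lit 12447949)⟩, ⟨(nat_lit 300), (nat_lit 200), (nat_lit 24769386), (nat_lit 18451604)⟩, ⟨(nat_lit 200), (nat_lit 120), (nat_lit 37722612), (nat_lit 24769386)⟩]
def w15_25 : List ℕ := [(nat_lit 42080), (nat_lit 61600)]
def par15_25 : parC yB15_25 P15_25 s15_25 r15_25 q15_25 n15_25 w15_25 = true := by decide +kernel

def p15_25_0 : PF := (PF.cons (PF.cons (PF.cons (PF.cons (PF.leaf (nat_lit 847920) (nat_lit 2719112) (nat_lit 64389700) (nat_lit 2719112) [(nat_lit 0), (nat_lit 0), (nat_lit 0), (nat_lit 0)]) (PF.cons (PF.leaf (nat_lit 1016444) (nat_lit 273009) (nat_lit 64049415) (nat_lit 2786388) [(nat_lit 273009), (nat_lit 0), (nat_lit 0), (nat_lit 0)]) (PF.cons (PF.leaf (nat_lit 1219948) (nat_lit 301728) (nat_lit 63645233) (nat_lit 2860122) [(nat_lit 301728), (nat_lit 0), (nat_lit 0), (nat_lit 0)]) (PF.cons (PF.leaf (nat_lit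 1452937) (nat_lit 328528) (nat_lit 63186222) (nat_lit 2937004) [(nat_lit 328528), (nat_lit 0), (nat_lit 0), (nat_lit 0)]) (PF.cons (PF.leaf (nat_lit 1712389) (nat_lit 353769) (nat_lit 62678951) (nat_lit 3014782) [(nat_lit 353769), (nat_lit 0), (nat_lit 0), (nat_lit 0)]) (PF.cons (PF.leaf (nat_lit 1995941) (nat_lit 377641) (nat_lit 62128743) (nat_lit 3091861) [(nat_lit 377641), (nat_lit 0), (nat_lit 0), (nat_lit 0)]) (PF.cons (PF.leaf (nat_lit 2301442) (nat_lit 400248) (nat_lit 61540223) (nat_lit 3167096) [(nat_lit 400248), (nat_lit 0), (nat_lit 0), (nat_lit 0)]) (PF.cons (PF.leaf (nat_lit 2626971) (nat_lit 421653) (nat_lit 60917585) (nat_lit 3239655) [(nat_lit 421653), (nat_lit 0), (nat_lit 0),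
 (nat_lit 0)]) (PF.cons (PF.leaf (nat_lit 2970572) (nat_lit 441894) (nat_lit 60264722) (nat_lit 3308937) [(nat_lit 441894), (nat_lit 0), (nat_lit 0), (nat_lit 0)]) (PF.cons (PF.leaf (nat_lit 3330543) (nat_lit 461000) (nat_lit 59585292) (nat_lit 3374519) [(nat_lit 461000), (nat_lit 0), (nat_lit 0), (nat_lit 0)]) (PF.cons PF.nil (PF.cons PF.nil (PF.cons PF.nil (PF.cons PF.nil PF.nil)))))))))))))) (PF.cons (PF.cons (PF.leaf (nat_lit 1421627) (nat_lit 1236123) (nat_lit 62908167) (nat_lit 2964521) [(nat_lit 0), (nat_lit 1236123), (nat_lit 0), (nat_lit 0)]) (PF.cons (PF.leaf (nat_lit 1651132) (nat_lit 344983) (nat_lit 62445484) (nat_lit 3033048) [(nat_lit 344983), (nat_lit 1285296), (nat_lit 0), (nat_lit 0)]) (PF.cons (PF.leaf (nat_lit 1909124) (nat_lit 369407) (nat_lit 61932331) (nat_lit 3103111) [(nat_lit 369407), (nat_lit 1334554), (nat_lit 0), (nat_lit 0)]) (PF.cons (PF.leaf (nat_lit 2191578) (nat_lit 392395) (nat_lit 61375728) (nat_lit 3172943) [(nat_lit 392395), (nat_lit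 1382955), (nat_lit 0), (nat_lit 0)]) (PF.cons (PF.leaf (nat_lit 2496010) (nat_lit 414090) (nat_lit 60781224) (nat_lit 3241314) [(nat_lit 414090), (nat_lit 1429910), (nat_lit 0), (nat_lit 0)]) (PF.cons (PF.leaf
 (nat_lit 2820166) (nat_lit 434577) (nat_lit 60153535) (nat_lit 3307353) [(nat_lit 434577), (nat_lit 1475035), (nat_lit 0), (nat_lit 0)]) (PF.cons (PF.leaf (nat_lit 3162066) (nat_lit 453908) (nat_lit 59496852) (nat_lit 3370435) [(nat_lit 453908), (nat_lit 1518074), (nat_lit 0), (nat_lit 0)]) (PF.cons (PF.leaf (nat_lit 3519838) (nat_lit 472119) (nat_lit 58814994) (nat_lit 3430123) [(nat_lit 472119), (nat_lit 1558859), (nat_lit 0), (nat_lit 0)]) (PF.cons (PF.leaf (nat_lit 3891740) (nat_lit 489240) (nat_lit 58111489) (nat_lit 3486116) [(nat_lit 489240), (nat_lit 1597287), (nat_lit 0), (nat_lit 0)]) (PF.cons PF.nil (PF.cons PF.nil (PF.cons PF.nil PF.nil)))))))))))) (PF.cons (PF.cons (PF.leaf (nat_lit 2110974) (nat_lit 1383866) (nat_lit 61156088) (nat_lit 3184992)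 [(nat_lit 0), (nat_lit 1383866), (nat_lit 0), (nat_lit 0)]) (PF.cons (PF.leaf (nat_lit 2389493) (nat_lit 405637) (nat_lit 60599573) (nat_lit 3247715) [(nat_lit 405637), (nat_lit 1427943), (nat_lit 0), (nat_lit 0)]) (PF.cons (PF.leaf (nat_lit 2691126) (nat_lit 426583) (nat_lit 60004204) (nat_lit 3309459) [(nat_lit 426583), (nat_lit 1470991), (nat_lit 0), (nat_lit 0)]) (PF.cons (PF.leaf (nat_lit 3012630) (nat_lit 446278)
 (nat_lit 59375675) (nat_lit 3369260) [(nat_lit 446278), (nat_lit 1512521), (nat_lit 0), (nat_lit 0)]) (PF.cons (PF.leaf (nat_lit 3351768) (nat_lit 464800) (nat_lit 58718729) (nat_lit 3426447) [(nat_lit 464800), (nat_lit 1552217), (nat_lit 0), (nat_lit 0)]) (PF.cons (PF.leaf (nat_lit 3706547) (nat_lit 482202) (nat_lit 58037498) (nat_lit 3480551) [(nat_lit 482202), (nat_lit 1589874), (nat_lit 0), (nat_lit 0)]) (PF.cons (PF.leaf (nat_lit 4075150) (nat_lit 498524) (nat_lit 57335680) (nat_lit 3531256) [(nat_lit 498524), (nat_lit 1625362), (nat_lit 0), (nat_lit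 0)]) (PF.cons (PF.leaf (nat_lit 4455888) (nat_lit 513800) (nat_lit 56616637) (nat_lit 3578355) [(nat_lit 513800), (nat_lit 1658608), (nat_lit 0), (nat_lit 0)]) (PF.cons PF.nil (PF.cons PF.nil PF.nil)))))))))) (PF.cons (PF.cons (PF.leaf (nat_lit 2888316) (nat_lit 1509085) (nat_lit 59209548) (nat_lit 3372007) [(nat_lit 0), (nat_lit 1509085), (nat_lit 0), (nat_lit 0)]) (PF.cons (PF.leaf (nat_lit 3205139) (nat_lit 456777) (nat_lit 58584796) (nat_lit 3425795) [(nat_lit 456777), (nat_lit 1547147), (nat_lit 0), (nat_lit 0)]) (PF.cons (PF.leaf (nat_lit 3540336) (nat_lit 474600) (nat_lit 57931330) (nat_lit 3477347) [(nat_lit 474600),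
 (nat_lit 1583644), (nat_lit 0), (nat_lit 0)]) (PF.cons (PF.leaf (nat_lit 3891208) (nat_lit 491284) (nat_lit 57253846) (nat_lit 3526146) [(nat_lit 491284), (nat_lit 1618322), (nat_lit 0), (nat_lit 0)]) (PF.cons (PF.leaf (nat_lit 4255788) (nat_lit 506885) (nat_lit 56556361) (nat_lit 3571846) [(nat_lit 506885), (nat_lit 1651021), (nat_lit 0), (nat_lit 0)]) (PF.cons (PF.leaf (nat_lit 4632304) (nat_lit 521447) (nat_lit 55842412) (nat_lit 3614222) [(nat_lit 521447), (nat_lit 1681646), (nat_lit 0), (nat_lit 0)]) (PF.cons PF.nil (PF.cons PF.nil (PF.cons PF.nil PF.nil))))))))) (PF.cons (PF.cons (PF.leaf (nat_lit 3728959) (nat_lit 1612557) (nat_lit 57135098) (nat_lit 3523484) [(nat_lit 0), (nat_lit 1612557), (nat_lit 0), (nat_lit 0)]) (PF.cons (PF.leaf (nat_lit 4074452) (nat_lit 499384) (nat_lit 56464683) (nat_lit 3567224) [(nat_lit 499384), (nat_lit 1644379), (nat_lit 0), (nat_lit 0)]) (PF.cons (PF.leaf (nat_lit 4434176) (nat_lit 514347) (nat_lit 55774260) (nat_lit 3608178)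 [(nat_lit 514347), (nat_lit 1674420), (nat_lit 0), (nat_lit 0)]) (PF.cons (PF.leaf (nat_lit 4805831) (nat_lit 528267) (nat_lit 55067685) (nat_lit 3646092) [(nat_lit 528267), (nat_lit 1702558), (nat_lit 0), (nat_lit 0)])
 (PF.cons (PF.leaf (nat_lit 5187709) (nat_lit 541193) (nat_lit 54348303) (nat_lit 3680816) [(nat_lit 541193), (nat_lit 1728729), (nat_lit 0), (nat_lit 0)]) (PF.cons PF.nil (PF.cons PF.nil PF.nil))))))) (PF.cons (PF.cons (PF.leaf (nat_lit 4611279) (nat_lit 1695708) (nat_lit 54989745) (nat_lit 3640523) [(nat_lit 0), (nat_lit 1695708), (nat_lit 0), (nat_lit 0)]) (PF.cons (PF.leaf (nat_lit 4977012) (nat_lit 534279) (nat_lit 54292922) (nat_lit 3674217) [(nat_lit 534279), (nat_lit 1721478), (nat_lit 0), (nat_lit 0)]) (PF.cons (PF.leaf (nat_lit 5353380) (nat_lit 546637) (nat_lit 53583363) (nat_lit 3704985) [(nat_lit 546637), (nat_lit 1745438), (nat_lit 0), (nat_lit 0)]) (PF.cons (PF.leaf (nat_lit 5738459) (nat_lit 558049) (nat_lit 52864199) (nat_lit 3732734)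 [(nat_lit 558049), (nat_lit 1767546), (nat_lit 0), (nat_lit 0)]) (PF.cons PF.nil PF.nil))))) (PF.cons (PF.cons (PF.leaf (nat_lit 5516974) (nat_lit 1760392) (nat_lit 52820587) (nat_lit 3725869) [(nat_lit 0), (nat_lit 1760392), (nat_lit 0), (nat_lit 0)]) (PF.cons (PF.leaf (nat_lit 5895768) (nat_lit 562267) (nat_lit 52113172) (nat_lit 3750132) [(nat_lit 562267), (nat_lit 1780540), (nat_lit 0), (nat_lit 0)]) (PF.cons PF.nil (PF.cons
 PF.nil PF.nil)))) (PF.cons (PF.cons (PF.leaf (nat_lit 6431087) (nat_lit 1808679) (nat_lit 50665011) (nat_lit 3783041) [(nat_lit 0), (nat_lit 1808679), (nat_lit 0), (nat_lit 0)]) (PF.cons PF.nil PF.nil)) (PF.cons PF.nil PF.nil))))))))) (PF.cons (PF.cons (PF.cons (PF.leaf (nat_lit 2050954) (nat_lit 3193479) (nat_lit 60535381) (nat_lit 3193479) [(nat_lit 0), (nat_lit 0), (nat_lit 3379951), (nat_lit 0)]) (PF.cons (PF.leaf (nat_lit 2298953) (nat_lit 386676) (nat_lit 60037129) (nat_lit 3248888) [(nat_lit 386676), (nat_lit 0), (nat_lit 3436118), (nat_lit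 0)]) (PF.cons (PF.leaf (nat_lit 2573928) (nat_lit 409624) (nat_lit 59491536) (nat_lit 3305000) [(nat_lit 409624), (nat_lit 0), (nat_lit 3493026), (nat_lit 0)]) (PF.cons (PF.leaf (nat_lit 2871497) (nat_lit 430811) (nat_lit 58906735) (nat_lit 3360409) [(nat_lit 430811), (nat_lit 0), (nat_lit 3549232), (nat_lit 0)]) (PF.cons (PF.leaf (nat_lit 3188824) (nat_lit 450494) (nat_lit 58288927) (nat_lit 3414158) [(nat_lit 450494), (nat_lit 0), (nat_lit 3603750), (nat_lit 0)]) (PF.cons (PF.leaf (nat_lit 3523590) (nat_lit 468833) (nat_lit 57643177) (nat_lit 3465579) [(nat_lit 468833), (nat_lit 0), (nat_lit 3655887), (nat_lit 0)]) (PF.cons (PF.leaf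
 (nat_lit 3873687) (nat_lit 485937) (nat_lit 56973818) (nat_lit 3514207) [(nat_lit 485937), (nat_lit 0), (nat_lit 3705162), (nat_lit 0)]) (PF.cons (PF.leaf (nat_lit 4237274) (nat_lit 501883) (nat_lit 56284658) (nat_lit 3559727) [(nat_lit 501883), (nat_lit 0), (nat_lit 3751242), (nat_lit 0)]) (PF.cons (PF.leaf (nat_lit 4612655) (nat_lit 516733) (nat_lit 55579104) (nat_lit 3601931) [(nat_lit 516733), (nat_lit 0), (nat_lit 3793912), (nat_lit 0)]) (PF.cons PF.nil PF.nil)))))))))) (PF.cons (PF.cons (PF.leaf (nat_lit 2772498) (nat_lit 1492721) (nat_lit 58693347) (nat_lit 3366707) [(nat_lit 0), (nat_lit 1492721), (nat_lit 3556036), (nat_lit 0)]) (PF.cons (PF.leaf (nat_lit 3063962) (nat_lit 440871) (nat_lit 58115715) (nat_lit 3416192) [(nat_lit 440871), (nat_lit 1529862), (nat_lit 3606171), (nat_lit 0)]) (PF.cons (PF.leaf (nat_lit 3376568) (nat_lit 459979) (nat_lit 57503578) (nat_lit 3464435) [(nat_lit 459979), (nat_lit 1565803), (nat_lit 3655036), (nat_lit 0)]) (PF.cons (PF.leaf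 (nat_lit 3706961) (nat_lit 477688) (nat_lit 56863019) (nat_lit 3510691) [(nat_lit 477688), (nat_lit 1600176), (nat_lit 3701860), (nat_lit 0)]) (PF.cons (PF.leaf (nat_lit 4052822) (nat_lit 494136) (nat_lit
 56198942) (nat_lit 3554453) [(nat_lit 494136), (nat_lit 1632752), (nat_lit 3746120), (nat_lit 0)]) (PF.cons (PF.leaf (nat_lit 4412138) (nat_lit 509419) (nat_lit 55515481) (nat_lit 3595377) [(nat_lit 509419), (nat_lit 1663393), (nat_lit 3787462), (nat_lit 0)]) (PF.cons (PF.leaf (nat_lit 4783118) (nat_lit 523611) (nat_lit 54816226) (nat_lit 3633242) [(nat_lit 523611), (nat_lit 1692021), (nat_lit 3825653), (nat_lit 0)]) (PF.cons PF.nil (PF.cons PF.nil PF.nil))))))))) (PF.cons (PF.cons (PF.leaf (nat_lit 3565981) (nat_lit 1595048) (nat_lit 56706978) (nat_lit 3510149) [(nat_lit 0), (nat_lit 1595048), (nat_lit 3701587), (nat_lit 0)]) (PF.cons (PF.leaf (nat_lit 3890181) (nat_lit 485490) (nat_lit 56075591) (nat_lit 3551436) [(nat_lit 485490), (nat_lit 1626496), (nat_lit 3743300),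 (nat_lit 0)]) (PF.cons (PF.leaf (nat_lit 4230741) (nat_lit 501389) (nat_lit 55419936) (nat_lit 3590553) [(nat_lit 501389), (nat_lit 1656383), (nat_lit 3782777), (nat_lit 0)]) (PF.cons (PF.leaf (nat_lit 4584982) (nat_lit 516096) (nat_lit 54744727) (nat_lit 3627117) [(nat_lit 516096), (nat_lit 1684527), (nat_lit 3819624), (nat_lit 0)]) (PF.cons (PF.leaf (nat_lit 4950961) (nat_lit 529702) (nat_lit 54053886) (nat_lit
 3660881) [(nat_lit 529702), (nat_lit 1710825), (nat_lit 3853584), (nat_lit 0)]) (PF.cons (PF.leaf (nat_lit 5326974) (nat_lit 542278) (nat_lit 53350774) (nat_lit 3691696) [(nat_lit 542278), (nat_lit 1735223), (nat_lit 3884503), (nat_lit 0)]) (PF.cons PF.nil PF.nil))))))) (PF.cons (PF.cons (PF.leaf (nat_lit 4408607) (nat_lit 1677944) (nat_lit 54636799) (nat_lit 3622775) [(nat_lit 0), (nat_lit 1677944), (nat_lit 3815405), (nat_lit 0)]) (PF.cons (PF.leaf (nat_lit 4756455) (nat_lit 521921) (nat_lit 53972621) (nat_lit 3655193) [(nat_lit 521921), (nat_lit 1703698),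 (nat_lit 3847980), (nat_lit 0)]) (PF.cons (PF.leaf (nat_lit 5116699) (nat_lit 535021) (nat_lit 53292417) (nat_lit 3685078) [(nat_lit 535021), (nat_lit 1727778), (nat_lit 3877939), (nat_lit 0)]) (PF.cons (PF.leaf (nat_lit 5487115) (nat_lit 547081) (nat_lit 52599883) (nat_lit 3712256) [(nat_lit 547081), (nat_lit 1750106), (nat_lit 3905106), (nat_lit 0)]) (PF.cons (PF.leaf (nat_lit 5866098) (nat_lit 558171) (nat_lit 51898145) (nat_lit 3736634) [(nat_lit 558171), (nat_lit 1770653), (nat_lit 3929384), (nat_lit 0)]) PF.nil))))) (PF.cons (PF.cons (PF.leaf (nat_lit 5281289) (nat_lit 1742997) (nat_lit 52531839) (nat_lit 3706044)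
 [(nat_lit 0), (nat_lit 1742997), (nat_lit 3898939), (nat_lit 0)]) (PF.cons (PF.leaf (nat_lit 5645166) (nat_lit 551192) (nat_lit 51851812) (nat_lit 3729793) [(nat_lit 551192), (nat_lit 1763360), (nat_lit 3922571), (nat_lit 0)]) (PF.cons (PF.leaf (nat_lit 6018121) (nat_lit 561830) (nat_lit 51162332) (nat_lit 3750967) [(nat_lit 561830), (nat_lit 1782076), (nat_lit 3943543), (nat_lit 0)]) (PF.cons PF.nil PF.nil)))) (PF.cons (PF.cons (PF.leaf (nat_lit 6168364) (nat_lit 1792067) (nat_lit 50430863) (nat_lit 3762655) [(nat_lit 0), (nat_lit 1792067), (nat_lit 3954956), (nat_lit 0)]) (PF.cons (PF.leaf (nat_lit 6541973) (nat_lit 574202) (nat_lit 49748342) (nat_lit 3778397) [(nat_lit 574202), (nat_lit 1807508), (nat_lit 3970326), (nat_lit 0)]) PF.nil)) (PF.cons PF.nil (PF.cons PF.nil PF.nil)))))))) (PF.cons (PF.cons (PF.cons (PF.leaf (nat_lit 3425490) (nat_lit 3498139) (nat_lit 56230522) (nat_lit 3498139) [(nat_lit 0), (nat_lit 0), (nat_lit 3690075), (nat_lit 0)]) (PF.cons (PF.leaf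 (nat_lit 3725319) (nat_lit 468908) (nat_lit 55645995) (nat_lit 3536507) [(nat_lit 468908), (nat_lit 0), (nat_lit 3728700), (nat_lit 0)]) (PF.cons (PF.leaf (nat_lit 4044500) (nat_lit 486300) (nat_lit 55030984)
 (nat_lit 3573468) [(nat_lit 486300), (nat_lit 0), (nat_lit 3765879), (nat_lit 0)]) (PF.cons (PF.leaf (nat_lit 4379632) (nat_lit 502196) (nat_lit 54391709) (nat_lit 3608455) [(nat_lit 502196), (nat_lit 0), (nat_lit 3801029), (nat_lit 0)]) (PF.cons (PF.leaf (nat_lit 4728352) (nat_lit 516782) (nat_lit 53733059) (nat_lit 3641092) [(nat_lit 516782), (nat_lit 0), (nat_lit 3833765), (nat_lit 0)]) (PF.cons (PF.leaf (nat_lit 5088678) (nat_lit 530188) (nat_lit 53059056) (nat_lit 3671139) [(nat_lit 530188), (nat_lit 0), (nat_lit 3863836), (nat_lit 0)]) (PF.cons (PF.leaf (nat_lit 5458892) (nat_lit 542511) (nat_lit 52373109) (nat_lit 3698448) [(nat_lit 542511), (nat_lit 0), (nat_lit 3891091), (nat_lit 0)]) (PF.cons PF.nil (PF.cons PF.nil PF.nil))))))))) (PF.cons (PF.cons (PF.leaf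 (nat_lit 4224632) (nat_lit 1659148) (nat_lit 54247352) (nat_lit 3605610) [(nat_lit 0), (nat_lit 1659148), (nat_lit 3798350), (nat_lit 0)]) (PF.cons (PF.leaf (nat_lit 4552471) (nat_lit 507750) (nat_lit 53621040) (nat_lit 3636499) [(nat_lit 507750), (nat_lit 1684935), (nat_lit 3829293), (nat_lit 0)]) (PF.cons (PF.leaf (nat_lit 4894942) (nat_lit 521920) (nat_lit 52974250) (nat_lit 3665319) [(nat_lit 521920), (nat_lit
 1709197), (nat_lit 3858102), (nat_lit 0)]) (PF.cons (PF.leaf (nat_lit 5249400) (nat_lit 534874) (nat_lit 52311592) (nat_lit 3691793) [(nat_lit 534874), (nat_lit 1731811), (nat_lit 3884496), (nat_lit 0)]) (PF.cons (PF.leaf (nat_lit 5613936) (nat_lit 546730) (nat_lit 51636817) (nat_lit 3715753) [(nat_lit 546730), (nat_lit 1752716), (nat_lit 3908301), (nat_lit 0)]) (PF.cons (PF.leaf (nat_lit 5986936) (nat_lit 557579) (nat_lit 50953069) (nat_lit 3737107) [(nat_lit 557579), (nat_lit 1771891), (nat_lit 3929422), (nat_lit 0)]) (PF.cons PF.nil PF.nil))))))) (PF.cons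 (PF.cons (PF.leaf (nat_lit 5061534) (nat_lit 1724751) (nat_lit 52214641) (nat_lit 3686374) [(nat_lit 0), (nat_lit 1724751), (nat_lit 3879147), (nat_lit 0)]) (PF.cons (PF.leaf (nat_lit 5408903) (nat_lit 538817) (nat_lit 51565657) (nat_lit 3709467) [(nat_lit 538817), (nat_lit 1745372), (nat_lit 3902062), (nat_lit 0)]) (PF.cons (PF.leaf (nat_lit 5767130) (nat_lit 550284) (nat_lit 50903868) (nat_lit 3730271) [(nat_lit 550284), (nat_lit 1764434), (nat_lit 3922618), (nat_lit 0)]) (PF.cons (PF.leaf (nat_lit 6134079) (nat_lit 560727) (nat_lit 50232762) (nat_lit 3748675) [(nat_lit 560727), (nat_lit 1781895), (nat_lit 3940701), (nat_lit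
 0)]) (PF.cons PF.nil PF.nil))))) (PF.cons (PF.cons (PF.leaf (nat_lit 5919388) (nat_lit 1774726) (nat_lit 50174033) (nat_lit 3742168) [(nat_lit 0), (nat_lit 1774726), (nat_lit 3934215), (nat_lit 0)]) (PF.cons (PF.leaf (nat_lit 6279412) (nat_lit 563278) (nat_lit 49517141) (nat_lit 3757804) [(nat_lit 563278), (nat_lit 1790563), (nat_lit 3949448), (nat_lit 0)]) (PF.cons (PF.leaf (nat_lit 6647235) (nat_lit 572433) (nat_lit 48853335) (nat_lit 3771178) [(nat_lit 572433), (nat_lit 1804909), (nat_lit 3962351), (nat_lit 0)]) (PF.cons PF.nil PF.nil)))) (PF.cons (PF.cons (PF.leaf (nat_lit 6784814) (nat_lit 1810900) (nat_lit 48157141) (nat_lit 3775598) [(nat_lit 0), (nat_lit 1810900), (nat_lit 3966235), (nat_lit 0)]) (PF.cons (PF.leaf (nat_lit 7151966) (nat_lit 582081) (nat_lit 47503561) (nat_lit 3784450) [(nat_lit 582081), (nat_lit 1822438), (nat_lit 3974481), (nat_lit 0)]) PF.nil)) (PF.cons PF.nil PF.nil)))))) (PF.cons (PF.cons (PF.cons (PF.leaf (nat_lit 4860270) (nat_lit 3666918)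 (nat_lit 51863009) (nat_lit 3666918) [(nat_lit 0), (nat_lit 0), (nat_lit 3859628), (nat_lit 0)]) (PF.cons (PF.leaf (nat_lit 5188921) (nat_lit 524633) (nat_lit 51250104) (nat_lit 3689170) [(nat_lit 524633), (nat_lit
 0), (nat_lit 3881634), (nat_lit 0)]) (PF.cons (PF.leaf (nat_lit 5530710) (nat_lit 537258) (nat_lit 50619902) (nat_lit 3709477) [(nat_lit 537258), (nat_lit 0), (nat_lit 3901638), (nat_lit 0)]) (PF.cons (PF.leaf (nat_lit 5883040) (nat_lit 548666) (nat_lit 49976833) (nat_lit 3727648) [(nat_lit 548666), (nat_lit 0), (nat_lit 3919443), (nat_lit 0)]) (PF.cons (PF.leaf (nat_lit 6244101) (nat_lit 558994) (nat_lit 49324436) (nat_lit 3743575) [(nat_lit 558994), (nat_lit 0), (nat_lit 3934940), (nat_lit 0)]) (PF.cons PF.nil (PF.cons PF.nil PF.nil))))))) (PF.cons (PF.cons (PF.leaf (nat_lit 5685956) (nat_lit 1756476) (nat_lit 49890504) (nat_lit 3721586) [(nat_lit 0), (nat_lit 1756476), (nat_lit 3913415), (nat_lit 0)]) (PF.cons (PF.leaf (nat_lit 6030784) (nat_lit 551058)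 (nat_lit 49262742) (nat_lit 3737018) [(nat_lit 551058), (nat_lit 1772767), (nat_lit 3928408), (nat_lit 0)]) (PF.cons (PF.leaf (nat_lit 6385163) (nat_lit 561097) (nat_lit 48624749) (nat_lit 3750395) [(nat_lit 561097), (nat_lit 1787615), (nat_lit 3941285), (nat_lit 0)]) (PF.cons (PF.leaf (nat_lit 6747070) (nat_lit 570139) (nat_lit 47979783) (nat_lit 3761653) [(nat_lit 570139), (nat_lit 1801008), (nat_lit 3951982), (nat_lit 0)])
 (PF.cons PF.nil PF.nil))))) (PF.cons (PF.cons (PF.leaf (nat_lit 6525563) (nat_lit 1793919) (nat_lit 47929595) (nat_lit 3755091) [(nat_lit 0), (nat_lit 1793919), (nat_lit 3945429), (nat_lit 0)]) (PF.cons (PF.leaf (nat_lit 6880350) (nat_lit 571415) (nat_lit 47299770) (nat_lit 3764130) [(nat_lit 571415), (nat_lit 1805977), (nat_lit 3953846), (nat_lit 0)]) (PF.cons (PF.leaf (nat_lit 7241885) (nat_lit 579295) (nat_lit 46664973) (nat_lit 3771189) [(nat_lit 579295), (nat_lit 1816690), (nat_lit 3960226), (nat_lit 0)]) (PF.cons PF.nil PF.nil)))) (PF.cons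 (PF.cons (PF.leaf (nat_lit 7367617) (nat_lit 1819470) (nat_lit 46005906) (nat_lit 3769893) [(nat_lit 0), (nat_lit 1819470), (nat_lit 3958200), (nat_lit 0)]) (PF.cons PF.nil PF.nil)) (PF.cons PF.nil PF.nil))))) (PF.cons (PF.cons (PF.cons (PF.leaf (nat_lit 6281378) (nat_lit 3734294) (nat_lit 47677097) (nat_lit 3734294) [(nat_lit 0), (nat_lit 0), (nat_lit 3924355), (nat_lit 0)]) (PF.cons (PF.leaf (nat_lit 6622153) (nat_lit 559468) (nat_lit 47074361) (nat_lit 3743459) [(nat_lit 559468), (nat_lit 0), (nat_lit 3932880), (nat_lit 0)]) (PF.cons (PF.leaf (nat_lit 6971424) (nat_lit 568264) (nat_lit 46463431) (nat_lit 3750787) [(nat_lit 568264),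
 (nat_lit 0), (nat_lit 3939516), (nat_lit 0)]) (PF.cons (PF.leaf (nat_lit 7327227) (nat_lit 576096) (nat_lit 45847335) (nat_lit 3756250) [(nat_lit 576096), (nat_lit 0), (nat_lit 3944234), (nat_lit 0)]) (PF.cons PF.nil PF.nil))))) (PF.cons (PF.cons (PF.leaf (nat_lit 7100609) (nat_lit 1803047) (nat_lit 45804836) (nat_lit 3749797) [(nat_lit 0), (nat_lit 1803047), (nat_lit 3937783), (nat_lit 0)]) (PF.cons (PF.leaf (nat_lit 7449228) (nat_lit 576335) (nat_lit 45204240) (nat_lit 3753496) [(nat_lit 576335), (nat_lit 1811959), (nat_lit 3940695), (nat_lit 0)]) (PF.cons PF.nil (PF.cons PF.nil PF.nil)))) (PF.cons (PF.cons (PF.leaf (nat_lit 7918502) (nat_lit 1819873) (nat_lit 43978577) (nat_lit 3749703) [(nat_lit 0), (nat_lit 1819873), (nat_lit 3935195), (nat_lit 0)]) (PF.cons PF.nil PF.nil)) PF.nil))) (PF.cons (PF.cons (PF.cons (PF.leaf (nat_lit 7645851) (nat_lit 3730297) (nat_lit 43801203) (nat_lit 3730297) [(nat_lit 0), (nat_lit 0), (nat_lit 3915462), (nat_lit 0)]) (PF.cons (PF.leaf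 (nat_lit 7987688) (nat_lit 578642) (nat_lit 43230720) (nat_lit 3729695) [(nat_lit 578642), (nat_lit 0), (nat_lit 3913951), (nat_lit 0)]) (PF.cons PF.nil PF.nil))) (PF.cons (PF.cons (PF.leaf (nat_lit 8439430)
 (nat_lit 1813816) (nat_lit 42073157) (nat_lit 3718362) [(nat_lit 0), (nat_lit 1813816), (nat_lit 3900695), (nat_lit 0)]) PF.nil) PF.nil)) (PF.cons PF.nil (PF.cons PF.nil (PF.cons PF.nil PF.nil))))))))) (PF.cons (PF.cons (PF.cons (PF.cons (PF.leaf (nat_lit 3153861) (nat_lit 3386828) (nat_lit 54339616) (nat_lit 3386828) [(nat_lit 0), (nat_lit 0), (nat_lit 0), (nat_lit 9382367)]) (PF.cons (PF.leaf (nat_lit 3406696) (nat_lit 420451) (nat_lit 53865460) (nat_lit 3423596) [(nat_lit 420451), (nat_lit 0), (nat_lit 0), (nat_lit 9399304)]) (PF.cons (PF.leaf (nat_lit 3684063) (nat_lit 441616) (nat_lit 53351072) (nat_lit 3460096) [(nat_lit 441616), (nat_lit 0), (nat_lit 0), (nat_lit 9414412)]) (PF.cons (PF.leaf (nat_lit 3981356) (nat_lit 460591) (nat_lit 52804748) (nat_lit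 3495403) [(nat_lit 460591), (nat_lit 0), (nat_lit 0), (nat_lit 9426885)]) (PF.cons (PF.leaf (nat_lit 4295501) (nat_lit 477766) (nat_lit 52232667) (nat_lit 3528922) [(nat_lit 477766), (nat_lit 0), (nat_lit 0), (nat_lit 9436158)]) (PF.cons (PF.leaf (nat_lit 4624074) (nat_lit 493397) (nat_lit 51639726) (nat_lit 3560265) [(nat_lit 493397), (nat_lit 0), (nat_lit 0), (nat_lit 9441832)]) (PF.cons (PF.leaf (nat_lit 4965019) (nat_lit
 507670) (nat_lit 51029961) (nat_lit 3589184) [(nat_lit 507670), (nat_lit 0), (nat_lit 0), (nat_lit 9443646)]) (PF.cons (PF.leaf (nat_lit 5316618) (nat_lit 520721) (nat_lit 50406795) (nat_lit 3615529) [(nat_lit 520721), (nat_lit 0), (nat_lit 0), (nat_lit 9441436)]) (PF.cons (PF.leaf (nat_lit 5677259) (nat_lit 532660) (nat_lit 49773182) (nat_lit 3639221) [(nat_lit 532660), (nat_lit 0), (nat_lit 0), (nat_lit 9435124)]) (PF.cons (PF.leaf (nat_lit 6045594) (nat_lit 543574) (nat_lit 49131706) (nat_lit 3660235) [(nat_lit 543574), (nat_lit 0), (nat_lit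 0), (nat_lit 9424699)]) (PF.cons PF.nil (PF.cons PF.nil PF.nil)))))))))))) (PF.cons (PF.cons (PF.leaf (nat_lit 3864033) (nat_lit 1575605) (nat_lit 52615375) (nat_lit 3494938) [(nat_lit 0), (nat_lit 1575605), (nat_lit 0), (nat_lit 9422893)]) (PF.cons (PF.leaf (nat_lit 4153278) (nat_lit 466812) (nat_lit 52081531) (nat_lit 3525935) [(nat_lit 466812), (nat_lit 1603945), (nat_lit 0), (nat_lit 9430586)]) (PF.cons (PF.leaf (nat_lit 4460970) (nat_lit 483560) (nat_lit 51520167) (nat_lit 3555498) [(nat_lit 483560), (nat_lit 1630809), (nat_lit 0), (nat_lit 9435217)]) (PF.cons (PF.leaf (nat_lit 4783713) (nat_lit 498717) (nat_lit 50937088) (nat_lit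
 3583174) [(nat_lit 498717), (nat_lit 1655995), (nat_lit 0), (nat_lit 9436402)]) (PF.cons (PF.leaf (nat_lit 5119231) (nat_lit 512497) (nat_lit 50336840) (nat_lit 3608679) [(nat_lit 512497), (nat_lit 1679409), (nat_lit 0), (nat_lit 9433894)]) (PF.cons (PF.leaf (nat_lit 5465565) (nat_lit 525054) (nat_lit 49723134) (nat_lit 3631837) [(nat_lit 525054), (nat_lit 1701017), (nat_lit 0), (nat_lit 9427550)]) (PF.cons (PF.leaf (nat_lit 5821074) (nat_lit 536507) (nat_lit 49099090) (nat_lit 3652551) [(nat_lit 536507), (nat_lit 1720822), (nat_lit 0), (nat_lit 9417305)]) (PF.cons (PF.leaf (nat_lit 6184288) (nat_lit 546948) (nat_lit 48467378) (nat_lit 3670783) [(nat_lit 546948), (nat_lit 1738852), (nat_lit 0), (nat_lit 9403157)]) (PF.cons (PF.leaf (nat_lit 6553930) (nat_lit 556457) (nat_lit 47830315) (nat_lit 3686532) [(nat_lit 556457), (nat_lit 1755148), (nat_lit 0), (nat_lit 9385156)]) (PF.cons PF.nil PF.nil)))))))))) (PF.cons (PF.cons (PF.leaf (nat_lit 4627950) (nat_lit 1648810)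 (nat_lit 50803215) (nat_lit 3578877) [(nat_lit 0), (nat_lit 1648810), (nat_lit 0), (nat_lit 9429099)]) (PF.cons (PF.leaf (nat_lit 4943315) (nat_lit 503167) (nat_lit 50232975) (nat_lit 3603077) [(nat_lit 503167),
 (nat_lit 1671728), (nat_lit 0), (nat_lit 9426136)]) (PF.cons (PF.leaf (nat_lit 5272517) (nat_lit 516564) (nat_lit 49644491) (nat_lit 3625362) [(nat_lit 516564), (nat_lit 1693093), (nat_lit 0), (nat_lit 9419643)]) (PF.cons (PF.leaf (nat_lit 5612977) (nat_lit 528713) (nat_lit 49041995) (nat_lit 3645525) [(nat_lit 528713), (nat_lit 1712829), (nat_lit 0), (nat_lit 9409492)]) (PF.cons (PF.leaf (nat_lit 5962866) (nat_lit 539749) (nat_lit 48428911) (nat_lit 3663448) [(nat_lit 539749), (nat_lit 1730911), (nat_lit 0), (nat_lit 9395629)]) (PF.cons (PF.leaf (nat_lit 6320651) (nat_lit 549777) (nat_lit 47808085) (nat_lit 3679076) [(nat_lit 549777), (nat_lit 1747350), (nat_lit 0), (nat_lit 9378064)]) (PF.cons (PF.leaf (nat_lit 6684955) (nat_lit 558881) (nat_lit 47181933)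 (nat_lit 3692397) [(nat_lit 558881), (nat_lit 1762172), (nat_lit 0), (nat_lit 9356850)]) (PF.cons PF.nil (PF.cons PF.nil PF.nil))))))))) (PF.cons (PF.cons (PF.leaf (nat_lit 5426038) (nat_lit 1705284) (nat_lit 48952472) (nat_lit 3639411) [(nat_lit 0), (nat_lit 1705284), (nat_lit 0), (nat_lit 9401074)]) (PF.cons (PF.leaf (nat_lit 5759498) (nat_lit 531700) (nat_lit 48363161) (nat_lit 3656757) [(nat_lit 531700), (nat_lit 1723246),
 (nat_lit 0), (nat_lit 9387454)]) (PF.cons (PF.leaf (nat_lit 6103213) (nat_lit 542396) (nat_lit 47762549) (nat_lit 3672062) [(nat_lit 542396), (nat_lit 1739703), (nat_lit 0), (nat_lit 9370296)]) (PF.cons (PF.leaf (nat_lit 6455119) (nat_lit 552072) (nat_lit 47153792) (nat_lit 3685254) [(nat_lit 552072), (nat_lit 1754644), (nat_lit 0), (nat_lit 9349617)]) (PF.cons (PF.leaf (nat_lit 6813763) (nat_lit 560823) (nat_lit 46539488) (nat_lit 3696308) [(nat_lit 560823), (nat_lit 1768081), (nat_lit 0), (nat_lit 9325479)]) (PF.cons (PF.leaf (nat_lit 7177883)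 (nat_lit 568726) (nat_lit 45921825) (nat_lit 3705233) [(nat_lit 568726), (nat_lit 1780047), (nat_lit 0), (nat_lit 9297977)]) (PF.cons PF.nil PF.nil))))))) (PF.cons (PF.cons (PF.leaf (nat_lit 6243002) (nat_lit 1747282) (nat_lit 47099673) (nat_lit 3678533) [(nat_lit 0), (nat_lit 1747282), (nat_lit 0), (nat_lit 9341474)]) (PF.cons (PF.leaf (nat_lit 6588207) (nat_lit 553836) (nat_lit 46504296) (nat_lit 3689447) [(nat_lit 553836), (nat_lit 1760810), (nat_lit 0), (nat_lit 9317991)]) (PF.cons (PF.leaf (nat_lit 6940803) (nat_lit 562291) (nat_lit 45902849) (nat_lit 3698384) [(nat_lit 562291), (nat_lit 1772944), (nat_lit 0), (nat_lit 9291218)])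
 (PF.cons (PF.leaf (nat_lit 7299129) (nat_lit 569894) (nat_lit 45297705) (nat_lit 3705344) [(nat_lit 569894), (nat_lit 1783705), (nat_lit 0), (nat_lit 9261255)]) (PF.cons PF.nil PF.nil))))) (PF.cons (PF.cons (PF.leaf (nat_lit 7066852) (nat_lit 1776826) (nat_lit 45271727) (nat_lit 3698736) [(nat_lit 0), (nat_lit 1776826), (nat_lit 0), (nat_lit 9254217)]) (PF.cons (PF.leaf (nat_lit 7418752) (nat_lit 570641) (nat_lit 44679962) (nat_lit 3703868) [(nat_lit 570641), (nat_lit 1786455), (nat_lit 0), (nat_lit 9222062)]) (PF.cons (PF.leaf (nat_lit 7775768) (nat_lit 577213) (nat_lit 44086050) (nat_lit 3707181) [(nat_lit 577213), (nat_lit 1794831), (nat_lit 0), (nat_lit 9186996)]) (PF.cons PF.nil PF.nil)))) (PF.cons (PF.cons (PF.leaf (nat_lit 7888312) (nat_lit 1795746) (nat_lit 43488019) (nat_lit 3702639) [(nat_lit 0), (nat_lit 1795746), (nat_lit 0), (nat_lit 9143674)]) (PF.cons (PF.leaf (nat_lit 8242934) (nat_lit 582975) (nat_lit 42906932) (nat_lit 3702720) [(nat_lit 582975),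 (nat_lit 1801998), (nat_lit 0), (nat_lit 9104190)]) PF.nil)) (PF.cons PF.nil (PF.cons PF.nil PF.nil))))))))) (PF.cons (PF.cons (PF.cons (PF.leaf (nat_lit 4461219) (nat_lit 3558562) (nat_lit 50403177) (nat_lit 3558562)
 [(nat_lit 0), (nat_lit 0), (nat_lit 3749035), (nat_lit 9398037)]) (PF.cons (PF.leaf (nat_lit 4754269) (nat_lit 485364) (nat_lit 49875777) (nat_lit 3581680) [(nat_lit 485364), (nat_lit 0), (nat_lit 3771772), (nat_lit 9394219)]) (PF.cons (PF.leaf (nat_lit 5064292) (nat_lit 500582) (nat_lit 49324047) (nat_lit 3603338) [(nat_lit 500582), (nat_lit 0), (nat_lit 3793019), (nat_lit 9387242)]) (PF.cons (PF.leaf (nat_lit 5387929) (nat_lit 514188) (nat_lit 48753683) (nat_lit 3623205) [(nat_lit 514188), (nat_lit 0), (nat_lit 3812438), (nat_lit 9376918)]) (PF.cons (PF.leaf (nat_lit 5722912) (nat_lit 526425) (nat_lit 48169061) (nat_lit 3641077) [(nat_lit 526425), (nat_lit 0), (nat_lit 3829823), (nat_lit 9363146)]) (PF.cons (PF.leaf (nat_lit 6067347) (nat_lit 537466)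 (nat_lit 47573692) (nat_lit 3656841) [(nat_lit 537466), (nat_lit 0), (nat_lit 3845053), (nat_lit 9345890)]) (PF.cons (PF.leaf (nat_lit 6419661) (nat_lit 547442) (nat_lit 46970471) (nat_lit 3670441) [(nat_lit 547442), (nat_lit 0), (nat_lit 3858073), (nat_lit 9325171)]) (PF.cons (PF.leaf (nat_lit 6778492) (nat_lit 556455) (nat_lit 46361842) (nat_lit 3681867) [(nat_lit 556455), (nat_lit 0), (nat_lit 3868869), (nat_lit 9301046)])
 (PF.cons PF.nil (PF.cons PF.nil PF.nil)))))))))) (PF.cons (PF.cons (PF.leaf (nat_lit 5221999) (nat_lit 1684395) (nat_lit 48631800) (nat_lit 3617777) [(nat_lit 0), (nat_lit 1684395), (nat_lit 3807073), (nat_lit 9367766)]) (PF.cons (PF.leaf (nat_lit 5537688) (nat_lit 516999) (nat_lit 48076108) (nat_lit 3634818) [(nat_lit 516999), (nat_lit 1703026), (nat_lit 3823615), (nat_lit 9354244)]) (PF.cons (PF.leaf (nat_lit 5865875) (nat_lit 528972) (nat_lit 47504862) (nat_lit 3650076) [(nat_lit 528972), (nat_lit 1720194), (nat_lit 3838332), (nat_lit 9337400)])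 (PF.cons (PF.leaf (nat_lit 6204059) (nat_lit 539713) (nat_lit 46922099) (nat_lit 3663413) [(nat_lit 539713), (nat_lit 1735859), (nat_lit 3851083), (nat_lit 9317217)]) (PF.cons (PF.leaf (nat_lit 6550491) (nat_lit 549371) (nat_lit 46331028) (nat_lit 3674755) [(nat_lit 549371), (nat_lit 1750021), (nat_lit 3861793), (nat_lit 9293727)]) (PF.cons (PF.leaf (nat_lit 6903678) (nat_lit 558063) (nat_lit 45734277) (nat_lit 3684079) [(nat_lit 558063), (nat_lit 1762702), (nat_lit 3870438), (nat_lit 9266999)]) (PF.cons (PF.leaf (nat_lit 7262351) (nat_lit 565878) (nat_lit 45134043) (nat_lit 3691396) [(nat_lit 565878), (nat_lit 1773942), (nat_lit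
 3877027), (nat_lit 9237129)]) (PF.cons PF.nil (PF.cons PF.nil PF.nil))))))))) (PF.cons (PF.cons (PF.leaf (nat_lit 6009261) (nat_lit 1728254) (nat_lit 46842617) (nat_lit 3656928) [(nat_lit 0), (nat_lit 1728254), (nat_lit 3844622), (nat_lit 9308136)]) (PF.cons (PF.leaf (nat_lit 6340143) (nat_lit 541372) (nat_lit 46274137) (nat_lit 3667991) [(nat_lit 541372), (nat_lit 1742457), (nat_lit 3855053), (nat_lit 9285343)]) (PF.cons (PF.leaf (nat_lit 6680136) (nat_lit 550785) (nat_lit 45696468) (nat_lit 3677224) [(nat_lit 550785), (nat_lit 1755282), (nat_lit 3863608), (nat_lit 9259375)]) (PF.cons (PF.leaf (nat_lit 7027283) (nat_lit 559213) (nat_lit 45112552) (nat_lit 3684589) [(nat_lit 559213), (nat_lit 1766733), (nat_lit 3870249), (nat_lit 9230314)]) (PF.cons (PF.leaf (nat_lit 7380198) (nat_lit 566758) (nat_lit 44524777) (nat_lit 3690086) [(nat_lit 566758), (nat_lit 1776837), (nat_lit 3874977), (nat_lit 9198265)]) (PF.cons (PF.leaf (nat_lit 7737699) (nat_lit 573503) (nat_lit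 43935122) (nat_lit 3693740) [(nat_lit 573503), (nat_lit 1785633), (nat_lit 3877817), (nat_lit 9163349)]) (PF.cons PF.nil PF.nil))))))) (PF.cons (PF.cons (PF.leaf (nat_lit 6809487) (nat_lit 1759549) (nat_lit 45066339)
 (nat_lit 3677955) [(nat_lit 0), (nat_lit 1759549), (nat_lit 3863626), (nat_lit 9222243)]) (PF.cons (PF.leaf (nat_lit 7149808) (nat_lit 559903) (nat_lit 44496349) (nat_lit 3683497) [(nat_lit 559903), (nat_lit 1769842), (nat_lit 3868406), (nat_lit 9191126)]) (PF.cons (PF.leaf (nat_lit 7496604) (nat_lit 567229) (nat_lit 43921849) (nat_lit 3687304) [(nat_lit 567229), (nat_lit 1778881), (nat_lit 3871406), (nat_lit 9157149)]) (PF.cons (PF.leaf (nat_lit 7848296) (nat_lit 573748) (nat_lit 43345009) (nat_lit 3689391) [(nat_lit 573748), (nat_lit 1786693), (nat_lit 3872644), (nat_lit 9120443)]) (PF.cons PF.nil PF.nil))))) (PF.cons (PF.cons (PF.leaf (nat_lit 7612320) (nat_lit 1780123) (nat_lit 43324885) (nat_lit 3683134) [(nat_lit 0), (nat_lit 1780123), (nat_lit 3866402),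 (nat_lit 9113895)]) (PF.cons (PF.leaf (nat_lit 7957601) (nat_lit 573630) (nat_lit 42761560) (nat_lit 3683771) [(nat_lit 573630), (nat_lit 1787014), (nat_lit 3866160), (nat_lit 9075632)]) (PF.cons (PF.leaf (nat_lit 8307273) (nat_lit 579228) (nat_lit 42197159) (nat_lit 3682834) [(nat_lit 579228), (nat_lit 1792789), (nat_lit 3864305), (nat_lit 9034898)]) (PF.cons PF.nil PF.nil)))) (PF.cons (PF.cons (PF.leaf (nat_lit 8409874)
 (nat_lit 1791619) (nat_lit 41633554) (nat_lit 3674779) [(nat_lit 0), (nat_lit 1791619), (nat_lit 3855324), (nat_lit 8987054)]) (PF.cons PF.nil PF.nil)) (PF.cons PF.nil (PF.cons PF.nil PF.nil)))))))) (PF.cons (PF.cons (PF.cons (PF.leaf (nat_lit 5793416) (nat_lit 3634984) (nat_lit 46555448) (nat_lit 3634984) [(nat_lit 0), (nat_lit 0), (nat_lit 3822478), (nat_lit 9273422)]) (PF.cons (PF.leaf (nat_lit 6107689) (nat_lit 527043) (nat_lit 46018336) (nat_lit 3646112) [(nat_lit 527043), (nat_lit 0), (nat_lit 3832944), (nat_lit 9251431)]) (PF.cons (PF.leaf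 (nat_lit 6433340) (nat_lit 537759) (nat_lit 45467902) (nat_lit 3655590) [(nat_lit 537759), (nat_lit 0), (nat_lit 3841722), (nat_lit 9226355)]) (PF.cons (PF.leaf (nat_lit 6767912) (nat_lit 547267) (nat_lit 44907966) (nat_lit 3663332) [(nat_lit 547267), (nat_lit 0), (nat_lit 3848723), (nat_lit 9198263)]) (PF.cons (PF.leaf (nat_lit 7109715) (nat_lit 555729) (nat_lit 44341520) (nat_lit 3669302) [(nat_lit 555729), (nat_lit 0), (nat_lit 3853911), (nat_lit 9167249)]) (PF.cons (PF.leaf (nat_lit 7457349) (nat_lit 563266) (nat_lit 43770981) (nat_lit 3673499) [(nat_lit 563266), (nat_lit 0), (nat_lit 3857287), (nat_lit 9133421)]) (PF.cons (PF.leaf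
 (nat_lit 7809626) (nat_lit 569976) (nat_lit 43198344) (nat_lit 3675950) [(nat_lit 569976), (nat_lit 0), (nat_lit 3858877), (nat_lit 9096904)]) (PF.cons PF.nil (PF.cons PF.nil PF.nil))))))))) (PF.cons (PF.cons (PF.leaf (nat_lit 6566903) (nat_lit 1741197) (nat_lit 44837758) (nat_lit 3656708) [(nat_lit 0), (nat_lit 1741197), (nat_lit 3842105), (nat_lit 9188937)]) (PF.cons (PF.leaf (nat_lit 6893995) (nat_lit 547839) (nat_lit 44292635) (nat_lit 3662629) [(nat_lit 547839), (nat_lit 1752244), (nat_lit 3847252), (nat_lit 9158958)]) (PF.cons (PF.leaf (nat_lit 7229253) (nat_lit 556136) (nat_lit 43740009) (nat_lit 3666911) [(nat_lit 556136), (nat_lit 1762027), (nat_lit 3850721), (nat_lit 9126149)]) (PF.cons (PF.leaf (nat_lit 7570791) (nat_lit 563484) (nat_lit 43182609) (nat_lit 3669544) [(nat_lit 563484), (nat_lit 1770568), (nat_lit 3852501), (nat_lit 9090635)]) (PF.cons (PF.leaf (nat_lit 7917299) (nat_lit 569992) (nat_lit 42622626) (nat_lit 3670544) [(nat_lit 569992), (nat_lit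 1777901), (nat_lit 3852611), (nat_lit 9052549)]) (PF.cons PF.nil (PF.cons PF.nil PF.nil))))))) (PF.cons (PF.cons (PF.leaf (nat_lit 7348767) (nat_lit 1763625) (nat_lit 43143452) (nat_lit 3663111) [(nat_lit 0), (nat_lit
 1763625), (nat_lit 3846075), (nat_lit 9082847)]) (PF.cons (PF.leaf (nat_lit 7683449) (nat_lit 563300) (nat_lit 42600112) (nat_lit 3664297) [(nat_lit 563300), (nat_lit 1771221), (nat_lit 3846382), (nat_lit 9045894)]) (PF.cons (PF.leaf (nat_lit 8023848) (nat_lit 569656) (nat_lit 42053452) (nat_lit 3663958) [(nat_lit 569656), (nat_lit 1777686), (nat_lit 3845127), (nat_lit 9006461)]) (PF.cons (PF.leaf (nat_lit 8368459) (nat_lit 575244) (nat_lit 41505459) (nat_lit 3662123) [(nat_lit 575244), (nat_lit 1783055), (nat_lit 3842342), (nat_lit 8964698)]) (PF.cons PF.nil PF.nil))))) (PF.cons (PF.cons (PF.leaf (nat_lit 8129997) (nat_lit 1776817) (nat_lit 41490396) (nat_lit 3656256) [(nat_lit 0), (nat_lit 1776817), (nat_lit 3836493), (nat_lit 8958718)]) (PF.cons (PF.leaf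 (nat_lit 8468271) (nat_lit 574429) (nat_lit 40955763) (nat_lit 3653283) [(nat_lit 574429), (nat_lit 1781440), (nat_lit 3832549), (nat_lit 8915915)]) (PF.cons PF.nil (PF.cons PF.nil PF.nil)))) (PF.cons (PF.cons (PF.leaf (nat_lit 8903862) (nat_lit 1782247) (nat_lit 39890656) (nat_lit 3638184) [(nat_lit 0), (nat_lit 1782247), (nat_lit 3815451), (nat_lit 8820077)]) (PF.cons PF.nil PF.nil)) (PF.cons PF.nil PF.nil)))))) (PF.cons
 (PF.cons (PF.cons (PF.leaf (nat_lit 7099403) (nat_lit 3642515) (nat_lit 42940458) (nat_lit 3642515) [(nat_lit 0), (nat_lit 0), (nat_lit 3825185), (nat_lit 9050281)]) (PF.cons (PF.leaf (nat_lit 7421851) (nat_lit 551677) (nat_lit 42420019) (nat_lit 3644243) [(nat_lit 551677), (nat_lit 0), (nat_lit 3826033), (nat_lit 9014772)]) (PF.cons (PF.leaf (nat_lit 7751674) (nat_lit 559002) (nat_lit 41893416) (nat_lit 3644503) [(nat_lit 559002), (nat_lit 0), (nat_lit 3825379), (nat_lit 8976749)]) (PF.cons (PF.leaf (nat_lit 8087039) (nat_lit 565417) (nat_lit 41363179)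 (nat_lit 3643307) [(nat_lit 565417), (nat_lit 0), (nat_lit 3823235), (nat_lit 8936367)]) (PF.cons (PF.leaf (nat_lit 8426708) (nat_lit 571033) (nat_lit 40831314) (nat_lit 3640685) [(nat_lit 571033), (nat_lit 0), (nat_lit 3819633), (nat_lit 8893778)]) PF.nil))))) (PF.cons (PF.cons (PF.leaf (nat_lit 7861982) (nat_lit 1761148) (nat_lit 41330263) (nat_lit 3637150) [(nat_lit 0), (nat_lit 1761148), (nat_lit 3817083), (nat_lit 8928998)]) (PF.cons (PF.leaf (nat_lit 8190540) (nat_lit 564525) (nat_lit 40813928) (nat_lit 3634818) [(nat_lit 564525), (nat_lit 1766498), (nat_lit 3813787), (nat_lit 8887678)]) (PF.cons (PF.leaf (nat_lit 8524184)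
 (nat_lit 570044) (nat_lit 40295178) (nat_lit 3631144) [(nat_lit 570044), (nat_lit 1770828), (nat_lit 3809119), (nat_lit 8844213)]) (PF.cons PF.nil PF.nil)))) (PF.cons (PF.cons (PF.leaf (nat_lit 8621527) (nat_lit 1768278) (nat_lit 39765114) (nat_lit 3620709) [(nat_lit 0), (nat_lit 1768278), (nat_lit 3797683), (nat_lit 8793381)]) (PF.cons (PF.leaf (nat_lit 8952595) (nat_lit 573460) (nat_lit 39258775) (nat_lit 3614851) [(nat_lit 573460), (nat_lit 1771026), (nat_lit 3790790), (nat_lit 8747302)]) PF.nil)) (PF.cons PF.nil (PF.cons PF.nil PF.nil))))) (PF.cons (PF.cons (PF.cons (PF.leaf (nat_lit 8350509) (nat_lit 3602605) (nat_lit 39623840) (nat_lit 3602605) [(nat_lit 0), (nat_lit 0), (nat_lit 3779285), (nat_lit 8765226)]) (PF.cons (PF.leaf (nat_lit 8672631) (nat_lit 563988) (nat_lit 39134233) (nat_lit 3597447) [(nat_lit 563988), (nat_lit 0), (nat_lit 3773102), (nat_lit 8720734)]) (PF.cons (PF.leaf (nat_lit 8999332) (nat_lit 568786) (nat_lit 38642895) (nat_lit 3591107) [(nat_lit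 568786), (nat_lit 0), (nat_lit 3765713), (nat_lit 8674384)]) (PF.cons PF.nil PF.nil)))) (PF.cons (PF.cons (PF.leaf (nat_lit 9088602) (nat_lit 1755619) (nat_lit 38144484) (nat_lit 3578581) [(nat_lit 0), (nat_lit
 1755619), (nat_lit 3752140), (nat_lit 8621566)]) (PF.cons PF.nil PF.nil)) (PF.cons PF.nil PF.nil))) (PF.cons (PF.cons (PF.cons (PF.leaf (nat_lit 9532924) (nat_lit 3531543) (nat_lit 36623129) (nat_lit 3531543) [(nat_lit 0), (nat_lit 0), (nat_lit 3701599), (nat_lit 8446141)]) (PF.cons PF.nil PF.nil)) (PF.cons PF.nil PF.nil)) (PF.cons PF.nil (PF.cons PF.nil PF.nil)))))))) (PF.cons (PF.cons (PF.cons (PF.cons (PF.leaf (nat_lit 5358805) (nat_lit 3529733) (nat_lit 45389259) (nat_lit 3529733) [(nat_lit 0), (nat_lit 0), (nat_lit 0), (nat_lit 9094910)]) (PF.cons (PF.leaf (nat_lit 5642101) (nat_lit 489029) (nat_lit 44924024) (nat_lit 3543153) [(nat_lit 489029), (nat_lit 0), (nat_lit 0), (nat_lit 9076302)]) (PF.cons (PF.leaf (nat_lit 5940595) (nat_lit 502550) (nat_lit 44438943)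 (nat_lit 3555158) [(nat_lit 502550), (nat_lit 0), (nat_lit 0), (nat_lit 9054804)]) (PF.cons (PF.leaf (nat_lit 6251008) (nat_lit 514425) (nat_lit 43939048) (nat_lit 3565561) [(nat_lit 514425), (nat_lit 0), (nat_lit 0), (nat_lit 9030463)]) (PF.cons (PF.leaf (nat_lit 6571177) (nat_lit 524928) (nat_lit 43428146) (nat_lit 3574265) [(nat_lit 524928), (nat_lit 0), (nat_lit 0), (nat_lit 9003343)]) (PF.cons (PF.leaf (nat_lit
 6899335) (nat_lit 534256) (nat_lit 42909246) (nat_lit 3581228) [(nat_lit 534256), (nat_lit 0), (nat_lit 0), (nat_lit 8973526)]) (PF.cons (PF.leaf (nat_lit 7234035) (nat_lit 542559) (nat_lit 42384787) (nat_lit 3586448) [(nat_lit 542559), (nat_lit 0), (nat_lit 0), (nat_lit 8941109)]) (PF.cons (PF.leaf (nat_lit 7574044) (nat_lit 549952) (nat_lit 41856792) (nat_lit 3589948) [(nat_lit 549952), (nat_lit 0), (nat_lit 0), (nat_lit 8906200)]) (PF.cons PF.nil (PF.cons PF.nil PF.nil)))))))))) (PF.cons (PF.cons (PF.leaf (nat_lit 6079724) (nat_lit 1673234) (nat_lit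 43837415) (nat_lit 3558976) [(nat_lit 0), (nat_lit 1673234), (nat_lit 0), (nat_lit 9019592)]) (PF.cons (PF.leaf (nat_lit 6382008) (nat_lit 515456) (nat_lit 43351797) (nat_lit 3567401) [(nat_lit 515456), (nat_lit 1687022), (nat_lit 0), (nat_lit 8993567)]) (PF.cons (PF.leaf (nat_lit 6695310) (nat_lit 525809) (nat_lit 42853857) (nat_lit 3574287) [(nat_lit 525809), (nat_lit 1699439), (nat_lit 0), (nat_lit 8964804)]) (PF.cons (PF.leaf (nat_lit 7017218) (nat_lit 534948) (nat_lit 42347071) (nat_lit 3579574) [(nat_lit 534948), (nat_lit 1710496), (nat_lit 0), (nat_lit 8933412)]) (PF.cons (PF.leaf (nat_lit 7346109) (nat_lit 543042) (nat_lit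
 41834161) (nat_lit 3583245) [(nat_lit 543042), (nat_lit 1720225), (nat_lit 0), (nat_lit 8899505)]) (PF.cons (PF.leaf (nat_lit 7680631) (nat_lit 550218) (nat_lit 41317324) (nat_lit 3585314) [(nat_lit 550218), (nat_lit 1728676), (nat_lit 0), (nat_lit 8863202)]) (PF.cons (PF.leaf (nat_lit 8019640) (nat_lit 556578) (nat_lit 40798366) (nat_lit 3585815) [(nat_lit 556578), (nat_lit 1735902), (nat_lit 0), (nat_lit 8824629)]) (PF.cons PF.nil (PF.cons PF.nil PF.nil))))))))) (PF.cons (PF.cons (PF.leaf (nat_lit 6820265) (nat_lit 1702825) (nat_lit 42282324) (nat_lit 3572819) [(nat_lit 0), (nat_lit 1702825), (nat_lit 0), (nat_lit 8924009)]) (PF.cons (PF.leaf (nat_lit 7134944) (nat_lit 535162) (nat_lit 41788924) (nat_lit 3576553) [(nat_lit 535162), (nat_lit 1712791), (nat_lit 0), (nat_lit 8891294)]) (PF.cons (PF.leaf (nat_lit 7457551) (nat_lit 543113) (nat_lit 41288484) (nat_lit 3578792) [(nat_lit 543113), (nat_lit 1721533), (nat_lit 0), (nat_lit 8856120)]) (PF.cons (PF.leaf (nat_lit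 7786248) (nat_lit 550125) (nat_lit 40783482) (nat_lit 3579538) [(nat_lit 550125), (nat_lit 1729084), (nat_lit 0), (nat_lit 8818623)]) (PF.cons (PF.leaf (nat_lit 8119772) (nat_lit 556309) (nat_lit 40275902) (nat_lit
 3578817) [(nat_lit 556309), (nat_lit 1735487), (nat_lit 0), (nat_lit 8778940)]) (PF.cons (PF.leaf (nat_lit 8457092) (nat_lit 561756) (nat_lit 39767365) (nat_lit 3576669) [(nat_lit 561756), (nat_lit 1740792), (nat_lit 0), (nat_lit 8737206)]) (PF.cons PF.nil PF.nil))))))) (PF.cons (PF.cons (PF.leaf (nat_lit 7569220) (nat_lit 1722132) (nat_lit 40747236) (nat_lit 3573156) [(nat_lit 0), (nat_lit 1722132), (nat_lit 0), (nat_lit 8811011)]) (PF.cons (PF.leaf (nat_lit 7891351) (nat_lit 549665) (nat_lit 40254879) (nat_lit 3572684) [(nat_lit 549665), (nat_lit 1728840), (nat_lit 0), (nat_lit 8772530)]) (PF.cons (PF.leaf (nat_lit 8219069) (nat_lit 555721) (nat_lit 39759262) (nat_lit 3570838) [(nat_lit 555721), (nat_lit 1734474), (nat_lit 0), (nat_lit 8731922)]) (PF.cons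 (PF.leaf (nat_lit 8550931) (nat_lit 561028) (nat_lit 39262183) (nat_lit 3567653) [(nat_lit 561028), (nat_lit 1739075), (nat_lit 0), (nat_lit 8689333)]) (PF.cons PF.nil PF.nil))))) (PF.cons (PF.cons (PF.leaf (nat_lit 8318246) (nat_lit 1732898) (nat_lit 39248036) (nat_lit 3561930) [(nat_lit 0), (nat_lit 1732898), (nat_lit 0), (nat_lit 8683625)]) (PF.cons (PF.leaf (nat_lit 8644065) (nat_lit 560016) (nat_lit 38762923) (nat_lit
 3557796) [(nat_lit 560016), (nat_lit 1736842), (nat_lit 0), (nat_lit 8640352)]) (PF.cons (PF.leaf (nat_lit 8973670) (nat_lit 564542) (nat_lit 38277268) (nat_lit 3552443) [(nat_lit 564542), (nat_lit 1739854), (nat_lit 0), (nat_lit 8595298)]) (PF.cons PF.nil PF.nil)))) (PF.cons (PF.cons (PF.leaf (nat_lit 9061105) (nat_lit 1736576) (nat_lit 37795374) (nat_lit 3540991) [(nat_lit 0), (nat_lit 1736576), (nat_lit 0), (nat_lit 8544781)]) (PF.cons PF.nil PF.nil)) (PF.cons PF.nil (PF.cons PF.nil PF.nil)))))))) (PF.cons (PF.cons (PF.cons (PF.leaf (nat_lit 6597545)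 (nat_lit 3550746) (nat_lit 42048576) (nat_lit 3550746) [(nat_lit 0), (nat_lit 0), (nat_lit 3731051), (nat_lit 8889219)]) (PF.cons (PF.leaf (nat_lit 6897356) (nat_lit 521160) (nat_lit 41581934) (nat_lit 3555027) [(nat_lit 521160), (nat_lit 0), (nat_lit 3734464), (nat_lit 8858112)]) (PF.cons (PF.leaf (nat_lit 7207286) (nat_lit 530472) (nat_lit 41104590) (nat_lit 3557894) [(nat_lit 530472), (nat_lit 0), (nat_lit 3736436), (nat_lit 8824473)]) (PF.cons (PF.leaf (nat_lit 7524997) (nat_lit 538608) (nat_lit 40619809) (nat_lit 3559320) [(nat_lit 538608), (nat_lit 0), (nat_lit 3736940), (nat_lit 8788458)]) (PF.cons (PF.leaf (nat_lit 7848926)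
 (nat_lit 545743) (nat_lit 40130120) (nat_lit 3559310) [(nat_lit 545743), (nat_lit 0), (nat_lit 3735983), (nat_lit 8750212)]) (PF.cons (PF.leaf (nat_lit 8177790) (nat_lit 552007) (nat_lit 39637538) (nat_lit 3557891) [(nat_lit 552007), (nat_lit 0), (nat_lit 3733593), (nat_lit 8709877)]) (PF.cons (PF.leaf (nat_lit 8510509) (nat_lit 557501) (nat_lit 39143710) (nat_lit 3555103) [(nat_lit 557501), (nat_lit 0), (nat_lit 3729810), (nat_lit 8667590)]) (PF.cons PF.nil (PF.cons PF.nil PF.nil))))))))) (PF.cons (PF.cons (PF.leaf (nat_lit 7323849) (nat_lit 1704483) (nat_lit 40562814) (nat_lit 3552685) [(nat_lit 0), (nat_lit 1704483), (nat_lit 3730305), (nat_lit 8779262)]) (PF.cons (PF.leaf (nat_lit 7634301) (nat_lit 538044) (nat_lit 40091445) (nat_lit 3552883) [(nat_lit 538044), (nat_lit 1712087), (nat_lit 3729571), (nat_lit 8742390)]) (PF.cons (PF.leaf (nat_lit 7951951) (nat_lit 545100) (nat_lit 39614195) (nat_lit 3551739) [(nat_lit 545100), (nat_lit 1718574), (nat_lit 3727470),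 (nat_lit 8703315)]) (PF.cons (PF.leaf (nat_lit 8275027) (nat_lit 551257) (nat_lit 39133361) (nat_lit 3549274) [(nat_lit 551257), (nat_lit 1723984), (nat_lit 3724022), (nat_lit 8662198)]) (PF.cons (PF.leaf (nat_lit
 8602325) (nat_lit 556630) (nat_lit 38650765) (nat_lit 3545522) [(nat_lit 556630), (nat_lit 1728364), (nat_lit 3719264), (nat_lit 8619187)]) (PF.cons PF.nil (PF.cons PF.nil PF.nil))))))) (PF.cons (PF.cons (PF.leaf (nat_lit 8055431) (nat_lit 1717346) (nat_lit 39102825) (nat_lit 3543208) [(nat_lit 0), (nat_lit 1717346), (nat_lit 3717968), (nat_lit 8655058)]) (PF.cons (PF.leaf (nat_lit 8371997) (nat_lit 550185) (nat_lit 38634439) (nat_lit 3539788) [(nat_lit 550185), (nat_lit 1722074), (nat_lit 3713558), (nat_lit 8613346)]) (PF.cons (PF.leaf (nat_lit 8693572) (nat_lit 555480) (nat_lit 38163570) (nat_lit 3535155) [(nat_lit 555480), (nat_lit 1725831), (nat_lit 3707911), (nat_lit 8569775)]) (PF.cons (PF.leaf (nat_lit 9018777) (nat_lit 560064) (nat_lit 37691868) (nat_lit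 3529351) [(nat_lit 560064), (nat_lit 1728663), (nat_lit 3701072), (nat_lit 8524500)]) (PF.cons PF.nil PF.nil))))) (PF.cons (PF.cons (PF.leaf (nat_lit 8784931) (nat_lit 1722838) (nat_lit 37681698) (nat_lit 3524041) [(nat_lit 0), (nat_lit 1722838), (nat_lit 3695790), (nat_lit 8519384)]) (PF.cons (PF.leaf (nat_lit 9104211) (nat_lit 558571) (nat_lit 37221612) (nat_lit 3517501) [(nat_lit 558571), (nat_lit 1725140), (nat_lit
 3688210), (nat_lit 8473746)]) (PF.cons PF.nil (PF.cons PF.nil PF.nil)))) (PF.cons (PF.cons (PF.leaf (nat_lit 9506935) (nat_lit 1722242) (nat_lit 36307958) (nat_lit 3496800) [(nat_lit 0), (nat_lit 1722242), (nat_lit 3665418), (nat_lit 8374834)]) (PF.cons PF.nil PF.nil)) (PF.cons PF.nil PF.nil)))))) (PF.cons (PF.cons (PF.cons (PF.leaf (nat_lit 7805869) (nat_lit 3523754) (nat_lit 38939016) (nat_lit 3523754) [(nat_lit 0), (nat_lit 0), (nat_lit 3698241), (nat_lit 8624779)]) (PF.cons (PF.leaf (nat_lit 8111573) (nat_lit 539074) (nat_lit 38489897) (nat_lit 3521074)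 [(nat_lit 539074), (nat_lit 0), (nat_lit 3694578), (nat_lit 8584804)]) (PF.cons (PF.leaf (nat_lit 8423875) (nat_lit 545350) (nat_lit 38035829) (nat_lit 3517191) [(nat_lit 545350), (nat_lit 0), (nat_lit 3689688), (nat_lit 8542857)]) (PF.cons (PF.leaf (nat_lit 8741036) (nat_lit 550766) (nat_lit 37578939) (nat_lit 3512135) [(nat_lit 550766), (nat_lit 0), (nat_lit 3683605), (nat_lit 8499114)]) (PF.cons (PF.leaf (nat_lit 9061918) (nat_lit 555437) (nat_lit 37120902) (nat_lit 3505949) [(nat_lit 555437), (nat_lit 0), (nat_lit 3676371), (nat_lit 8453733)]) PF.nil))))) (PF.cons (PF.cons (PF.leaf (nat_lit 8519744) (nat_lit 1708203)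
 (nat_lit 37553416) (nat_lit 3506411) [(nat_lit 0), (nat_lit 1708203), (nat_lit 3677894), (nat_lit 8492496)]) (PF.cons (PF.leaf (nat_lit 8830491) (nat_lit 549199) (nat_lit 37108628) (nat_lit 3500617) [(nat_lit 549199), (nat_lit 1711278), (nat_lit 3671070), (nat_lit 8448473)]) (PF.cons (PF.leaf (nat_lit 9145764) (nat_lit 553835) (nat_lit 36661954) (nat_lit 3493751) [(nat_lit 553835), (nat_lit 1713476), (nat_lit 3663154), (nat_lit 8402825)]) (PF.cons PF.nil PF.nil)))) (PF.cons (PF.cons (PF.leaf (nat_lit 9229934) (nat_lit 1709359) (nat_lit 36208142) (nat_lit 3480951) [(nat_lit 0), (nat_lit 1709359), (nat_lit 3649320), (nat_lit 8351178)]) (PF.cons (PF.leaf (nat_lit 9542607) (nat_lit 555921) (nat_lit 35772272) (nat_lit 3472498) [(nat_lit 555921), (nat_lit 1710302), (nat_lit 3639800), (nat_lit 8303958)]) PF.nil)) (PF.cons PF.nil (PF.cons PF.nil PF.nil))))) (PF.cons (PF.cons (PF.cons (PF.leaf (nat_lit 8963404) (nat_lit 3464410) (nat_lit 36094792) (nat_lit 3464410) [(nat_lit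 0), (nat_lit 0), (nat_lit 3632526), (nat_lit 8326015)]) (PF.cons (PF.leaf (nat_lit 9268168) (nat_lit 546993) (nat_lit 35672915) (nat_lit 3456715) [(nat_lit 546993), (nat_lit 0), (nat_lit 3623777), (nat_lit 8280427)])
 (PF.cons (PF.leaf (nat_lit 9577084) (nat_lit 551058) (nat_lit 35249609) (nat_lit 3448069) [(nat_lit 551058), (nat_lit 0), (nat_lit 3614060), (nat_lit 8233417)]) (PF.cons PF.nil PF.nil)))) (PF.cons (PF.cons (PF.leaf (nat_lit 9654659) (nat_lit 1693209) (nat_lit 34822404) (nat_lit 3434006) [(nat_lit 0), (nat_lit 1693209), (nat_lit 3598949), (nat_lit 8181172)]) (PF.cons PF.nil PF.nil)) (PF.cons PF.nil PF.nil))) (PF.cons (PF.cons (PF.cons (PF.leaf (nat_lit 10060489) (nat_lit 3384281) (nat_lit 33519296) (nat_lit 3384281) [(nat_lit 0), (nat_lit 0), (nat_lit 3545789), (nat_lit 8011037)]) (PF.cons PF.nil PF.nil)) (PF.cons PF.nil PF.nil)) (PF.cons PF.nil PF.nil)))))) (PF.cons (PF.cons (PF.cons (PF.cons (PF.leaf (nat_lit 7302268) (nat_lit 3441021) (nat_lit 38224452)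 (nat_lit 3441021) [(nat_lit 0), (nat_lit 0), (nat_lit 0), (nat_lit 8481113)]) (PF.cons (PF.leaf (nat_lit 7588327) (nat_lit 510737) (nat_lit 37819335) (nat_lit 3441051) [(nat_lit 510737), (nat_lit 0), (nat_lit 0), (nat_lit 8445895)]) (PF.cons (PF.leaf (nat_lit 7883559) (nat_lit 518984) (nat_lit 37405341) (nat_lit 3439854) [(nat_lit 518984), (nat_lit 0), (nat_lit 0), (nat_lit 8408549)]) (PF.cons (PF.leaf (nat_lit 8185733) (nat_lit
 526099) (nat_lit 36985262) (nat_lit 3437439) [(nat_lit 526099), (nat_lit 0), (nat_lit 0), (nat_lit 8369271)]) (PF.cons (PF.leaf (nat_lit 8493376) (nat_lit 532259) (nat_lit 36561243) (nat_lit 3433834) [(nat_lit 532259), (nat_lit 0), (nat_lit 0), (nat_lit 8328232)]) (PF.cons (PF.leaf (nat_lit 8805350) (nat_lit 537599) (nat_lit 36134981) (nat_lit 3429080) [(nat_lit 537599), (nat_lit 0), (nat_lit 0), (nat_lit 8285583)]) (PF.cons PF.nil PF.nil))))))) (PF.cons (PF.cons (PF.leaf (nat_lit 7986658) (nat_lit 1656990) (nat_lit 36938831) (nat_lit 3431058)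 [(nat_lit 0), (nat_lit 1656990), (nat_lit 0), (nat_lit 8360644)]) (PF.cons (PF.leaf (nat_lit 8281864) (nat_lit 524822) (nat_lit 36530558) (nat_lit 3427806) [(nat_lit 524822), (nat_lit 1662283), (nat_lit 0), (nat_lit 8321114)]) (PF.cons (PF.leaf (nat_lit 8583552) (nat_lit 530964) (nat_lit 36117441) (nat_lit 3423431) [(nat_lit 530964), (nat_lit 1666578), (nat_lit 0), (nat_lit 8279810)]) (PF.cons (PF.leaf (nat_lit 8890068) (nat_lit 536255) (nat_lit 35701426) (nat_lit 3417970) [(nat_lit 536255), (nat_lit 1669927), (nat_lit 0), (nat_lit 8236906)]) (PF.cons (PF.leaf (nat_lit 9200296) (nat_lit 540813) (nat_lit 35284045) (nat_lit 3411467) [(nat_lit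
 540813), (nat_lit 1672383), (nat_lit 0), (nat_lit 8192553)]) PF.nil))))) (PF.cons (PF.cons (PF.leaf (nat_lit 8674544) (nat_lit 1663658) (nat_lit 35677550) (nat_lit 3412356) [(nat_lit 0), (nat_lit 1663658), (nat_lit 0), (nat_lit 8230529)]) (PF.cons (PF.leaf (nat_lit 8974892) (nat_lit 534644) (nat_lit 35272344) (nat_lit 3406260) [(nat_lit 534644), (nat_lit 1666505), (nat_lit 0), (nat_lit 8187517)]) (PF.cons (PF.leaf (nat_lit 9279760) (nat_lit 539175) (nat_lit 34865103) (nat_lit 3399173) [(nat_lit 539175), (nat_lit 1668506), (nat_lit 0), (nat_lit 8143057)]) (PF.cons PF.nil PF.nil)))) (PF.cons (PF.cons (PF.leaf (nat_lit 9359720) (nat_lit 1664296) (nat_lit 34450625) (nat_lit 3386365) [(nat_lit 0), (nat_lit 1664296), (nat_lit 0), (nat_lit 8092977)]) (PF.cons (PF.leaf (nat_lit 9662259) (nat_lit 541159) (nat_lit 34052712) (nat_lit 3377858) [(nat_lit 541159), (nat_lit 1665118), (nat_lit 0), (nat_lit 8047242)]) PF.nil)) (PF.cons PF.nil PF.nil))))) (PF.cons (PF.cons (PF.cons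 (PF.leaf (nat_lit 8427681) (nat_lit 3394393) (nat_lit 35544436) (nat_lit 3394393) [(nat_lit 0), (nat_lit 0), (nat_lit 3560620), (nat_lit 8203120)]) (PF.cons (PF.leaf (nat_lit 8718262) (nat_lit 524115) (nat_lit 35155480)
 (nat_lit 3389120) [(nat_lit 524115), (nat_lit 0), (nat_lit 3554335), (nat_lit 8161920)]) (PF.cons (PF.leaf (nat_lit 9014868) (nat_lit 529615) (nat_lit 34762361) (nat_lit 3382836) [(nat_lit 529615), (nat_lit 0), (nat_lit 3547023), (nat_lit 8119120)]) (PF.cons (PF.leaf (nat_lit 9315837) (nat_lit 534303) (nat_lit 34366885) (nat_lit 3375584) [(nat_lit 534303), (nat_lit 0), (nat_lit 3538729), (nat_lit 8074901)]) (PF.cons PF.nil PF.nil))))) (PF.cons (PF.cons (PF.leaf (nat_lit 9099485) (nat_lit 1650766) (nat_lit 34347036) (nat_lit 3370329) [(nat_lit 0), (nat_lit 1650766), (nat_lit 3533495), (nat_lit 8069061)]) (PF.cons (PF.leaf (nat_lit 9394395) (nat_lit 532339) (nat_lit 33961978) (nat_lit 3362595) [(nat_lit 532339), (nat_lit 1652363), (nat_lit 3524727), (nat_lit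 8024935)]) (PF.cons (PF.leaf (nat_lit 9693462) (nat_lit 536337) (nat_lit 33575305) (nat_lit 3353980) [(nat_lit 536337), (nat_lit 1653193), (nat_lit 3515063), (nat_lit 7979531)]) (PF.cons PF.nil PF.nil)))) (PF.cons (PF.cons (PF.leaf (nat_lit 9767457) (nat_lit 1648219) (nat_lit 33184392) (nat_lit 3340137) [(nat_lit 0), (nat_lit 1648219), (nat_lit 3500202), (nat_lit 7929213)]) (PF.cons PF.nil PF.nil)) PF.nil))) (PF.cons (PF.cons
 (PF.cons (PF.leaf (nat_lit 9506937) (nat_lit 3325169) (nat_lit 33092664) (nat_lit 3325169) [(nat_lit 0), (nat_lit 0), (nat_lit 3485023), (nat_lit 7906977)]) (PF.cons (PF.leaf (nat_lit 9796348) (nat_lit 529169) (nat_lit 32726977) (nat_lit 3316131) [(nat_lit 529169), (nat_lit 0), (nat_lit 3474946), (nat_lit 7862214)]) (PF.cons PF.nil PF.nil))) (PF.cons (PF.cons (PF.leaf (nat_lit 10158113) (nat_lit 1630391) (nat_lit 31991308) (nat_lit 3291710) [(nat_lit 0), (nat_lit 1630391), (nat_lit 3448460), (nat_lit 7766160)]) PF.nil) PF.nil)) (PF.cons PF.nil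 (PF.cons PF.nil PF.nil))))) (PF.cons (PF.cons (PF.cons (PF.cons (PF.leaf (nat_lit 8983887) (nat_lit 3263255) (nat_lit 32645650) (nat_lit 3263255) [(nat_lit 0), (nat_lit 0), (nat_lit 0), (nat_lit 7799976)]) (PF.cons (PF.leaf (nat_lit 9260850) (nat_lit 508193) (nat_lit 32306962) (nat_lit 3256493) [(nat_lit 508193), (nat_lit 0), (nat_lit 0), (nat_lit 7759290)]) (PF.cons (PF.leaf (nat_lit 9543376) (nat_lit 513102) (nat_lit 31964660) (nat_lit 3248865) [(nat_lit 513102), (nat_lit 0), (nat_lit 0), (nat_lit 7717270)]) (PF.cons (PF.leaf (nat_lit 9829899) (nat_lit 517243) (nat_lit 31620293) (nat_lit 3240419) [(nat_lit 517243), (nat_lit 0), (nat_lit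
 0), (nat_lit 7674092)]) (PF.cons PF.nil PF.nil))))) (PF.cons (PF.cons (PF.leaf (nat_lit 9619055) (nat_lit 1592439) (nat_lit 31604811) (nat_lit 3235623) [(nat_lit 0), (nat_lit 1592439), (nat_lit 0), (nat_lit 7668984)]) (PF.cons (PF.leaf (nat_lit 9899852) (nat_lit 515053) (nat_lit 31269391) (nat_lit 3226867) [(nat_lit 515053), (nat_lit 1593063), (nat_lit 0), (nat_lit 7626109)]) (PF.cons PF.nil (PF.cons PF.nil PF.nil)))) (PF.cons (PF.cons (PF.leaf (nat_lit 10250490) (nat_lit 1587605) (nat_lit 30593430) (nat_lit 3203242) [(nat_lit 0), (nat_lit 1587605), (nat_lit 0), (nat_lit 7534232)]) (PF.cons PF.nil PF.nil)) PF.nil))) (PF.cons (PF.cons (PF.cons (PF.leaf (nat_lit 9996723) (nat_lit 3189750) (nat_lit 30518550) (nat_lit 3189750) [(nat_lit 0), (nat_lit 0), (nat_lit 3341810), (nat_lit 7514675)]) (PF.cons (PF.leaf (nat_lit 10272465) (nat_lit 511349) (nat_lit 30199448) (nat_lit 3180083) [(nat_lit 511349), (nat_lit 0), (nat_lit 3331140), (nat_lit 7471697)]) PF.nil)) (PF.cons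 PF.nil PF.nil)) (PF.cons PF.nil PF.nil))) (PF.cons (PF.cons (PF.cons (PF.cons (PF.leaf (nat_lit 10443884) (nat_lit 3060528) (nat_lit 28293660) (nat_lit 3060528) [(nat_lit 0), (nat_lit 0), (nat_lit 0), (nat_lit 7150924)])
 (PF.cons PF.nil PF.nil)) (PF.cons PF.nil PF.nil)) (PF.cons PF.nil PF.nil)) (PF.cons PF.nil (PF.cons PF.nil (PF.cons PF.nil PF.nil)))))))))

def p15_25_0_0 : pfC (piC [(nat_lit 37722612), (nat_lit 24769386), (nat_lit 18451604), (nat_lit 12447949)] (nat_lit 21119649)) p15_25_0 (nat_lit 4) (nat_lit 0) (nat_lit 1) = true := by decide +kernel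
def p15_25_0_1 : pfC (piC [(nat_lit 37722612), (nat_lit 24769386), (nat_lit 18451604), (nat_lit 12447949)] (nat_lit 21119649)) p15_25_0 (nat_lit 4) (nat_lit 1) (nat_lit 2) = true := by decide +kernel
def p15_25_0_2 : pfC (piC [(nat_lit 37722612), (nat_lit 24769386), (nat_lit 18451604), (nat_lit 12447949)] (nat_lit 21119649)) p15_25_0 (nat_lit 4) (nat_lit 2) (nat_lit 3) = true := by decide +kernel
def p15_25_0_3 : pfC (piC [(nat_lit 37722612), (nat_lit 24769386), (nat_lit 18451604), (nat_lit 12447949)] (nat_lit 21119649)) p15_25_0 (nat_lit 4) (nat_lit 3) (nat_lit 4) = true := by decide +kernel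
def p15_25_0_4 : pfC (piC [(nat_lit 37722612), (nat_lit 24769386), (nat_lit 18451604), (nat_lit 12447949)] (nat_lit 21119649)) p15_25_0 (nat_lit 4) (nat_lit 4) (nat_lit 5) = true := by decide +kernel
def p15_25_0_5 : pfC (piC [(nat_lit 37722612), (nat_lit 24769386), (nat_lit 18451604), (nat_lit 12447949)] (nat_lit 21119649)) p15_25_0 (nat_lit 4) (nat_lit 5) (nat_lit 6) = true := by decide +kernel
def p15_25_0_6 : pfC (piC [(nat_lit 37722612), (nat_lit 24769386), (nat_lit 18451604), (nat_lit 12447949)] (nat_lit 21119649)) p15_25_0 (nat_lit 4) (nat_lit 6) (nat_lit 7) = true := by decide +kernel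
def p15_25_0_7 : pfC (piC [(nat_lit 37722612), (nat_lit 24769386), (nat_lit 18451604), (nat_lit 12447949)] (nat_lit 21119649)) p15_25_0 (nat_lit 4) (nat_lit 7) (nat_lit 8) = true := by decide +kernel
def p15_25_0_8 : pfC (piC [(nat_lit 37722612), (nat_lit 24769386), (nat_lit 18451604), (nat_lit 12447949)] (nat_lit 21119649)) p15_25_0 (nat_lit 4) (nat_lit 8) (nat_lit 9) = true := by decide +kernel
def p15_25_0_9 : pfC (piC [(nat_lit 37722612), (nat_lit 24769386), (nat_lit 18451604), (nat_lit 12447949)] (nat_lit 21119649)) p15_25_0 (nat_lit 4) (nat_lit 9) (nat_lit 10) = true := by decide +kernel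
def p15_25_0_10 : pfC (piC [(nat_lit 37722612), (nat_lit 24769386), (nat_lit 18451604), (nat_lit 12447949)] (nat_lit 21119649)) p15_25_0 (nat_lit 4) (nat_lit 10) (nat_lit 11) = true := by decide +kernel
def p15_25_0_11 : pfC (piC [(nat_lit 37722612), (nat_lit 24769386), (nat_lit 18451604), (nat_lit 12447949)] (nat_lit 21119649)) p15_25_0 (nat_lit 4) (nat_lit 11) (nat_lit 12) = true := by decide +kernel
def p15_25_0_12 : pfC (piC [(nat_lit 37722612), (nat_lit 24769386), (nat_lit 18451604), (nat_lit 12447949)] (nat_lit 21119649)) p15_25_0 (nat_lit 4) (nat_lit 12) (nat_lit 13) = true := by decide +kernel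
def p15_25_0_13 : pfC (piC [(nat_lit 37722612), (nat_lit 24769386), (nat_lit 18451604), (nat_lit 12447949)] (nat_lit 21119649)) p15_25_0 (nat_lit 4) (nat_lit 13) (nat_lit 14) = true := by decide +kernel
def p15_25_0_14 : pfC (piC [(nat_lit 37722612), (nat_lit 24769386), (nat_lit 18451604), (nat_lit 12447949)] (nat_lit 21119649)) p15_25_0 (nat_lit 4) (nat_lit 14) (nat_lit 15) = true := by decide +kernel
def p15_25_0_15 : pfC (piC [(nat_lit 37722612), (nat_lit 24769386), (nat_lit 18451604), (nat_lit 12447949)] (nat_lit 21119649)) p15_25_0 (nat_lit 4) (nat_lit 15) (nat_lit 16) = true := by decide +kernel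
def p15_25_0_16 : pfC (piC [(nat_lit 37722612), (nat_lit 24769386), (nat_lit 18451604), (nat_lit 12447949)] (nat_lit 21119649)) p15_25_0 (nat_lit 4) (nat_lit 16) (nat_lit 17) = true := by decide +kernel
def p15_25_0_17 : pfC (piC [(nat_lit 37722612), (nat_lit 24769386), (nat_lit 18451604), (nat_lit 12447949)] (nat_lit 21119649)) p15_25_0 (nat_lit 4) (nat_lit 17) (nat_lit 18) = true := by decide +kernel
def p15_25_0_18 : pfC (piC [(nat_lit 37722612), (nat_lit 24769386), (nat_lit 18451604), (nat_lit 12447949)] (nat_lit 21119649)) p15_25_0 (nat_lit 4) (nat_lit 18) (nat_lit 19) = true := by decide +kernel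
def p15_25_0_19 : pfC (piC [(nat_lit 37722612), (nat_lit 24769386), (nat_lit 18451604), (nat_lit 12447949)] (nat_lit 21119649)) p15_25_0 (nat_lit 4) (nat_lit 19) (nat_lit 20) = true := by decide +kernel
def p15_25_0_20 : pfC (piC [(nat_lit 37722612), (nat_lit 24769386), (nat_lit 18451604), (nat_lit 12447949)] (nat_lit 21119649)) p15_25_0 (nat_lit 4) (nat_lit 20) (nat_lit 21) = true := by decide +kernel
def p15_25_0_21 : pfC (piC [(nat_lit 37722612), (nat_lit 24769386), (nat_lit 18451604), (nat_lit 12447949)] (nat_lit 21119649)) p15_25_0 (nat_lit 4) (nat_lit 21) (nat_lit 22) = true := by decide +kernel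
def p15_25_0_22 : pfC (piC [(nat_lit 37722612), (nat_lit 24769386), (nat_lit 18451604), (nat_lit 12447949)] (nat_lit 21119649)) p15_25_0 (nat_lit 4) (nat_lit 22) (nat_lit 23) = true := by decide +kernel
def p15_25_0_23 : pfC (piC [(nat_lit 37722612), (nat_lit 24769386), (nat_lit 18451604), (nat_lit 12447949)] (nat_lit 21119649)) p15_25_0 (nat_lit 4) (nat_lit 23) (nat_lit 24) = true := by decide +kernel
def p15_25_0_24 : pfC (piC [(nat_lit 37722612), (nat_lit 24769386), (nat_lit 18451604), (nat_lit 12447949)] (nat_lit 21119649)) p15_25_0 (nat_lit 4) (nat_lit 24) (nat_lit 25) = true := by decide +kernel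
def p15_25_0_25 : pfC (piC [(nat_lit 37722612), (nat_lit 24769386), (nat_lit 18451604), (nat_lit 12447949)] (nat_lit 21119649)) p15_25_0 (nat_lit 4) (nat_lit 25) (nat_lit 26) = true := by decide +kernel
def p15_25_0_26 : pfC (piC [(nat_lit 37722612), (nat_lit 24769386), (nat_lit 18451604), (nat_lit 12447949)] (nat_lit 21119649)) p15_25_0 (nat_lit 4) (nat_lit 26) (nat_lit 27) = true := by decide +kernel
def p15_25_0_27 : pfC (piC [(nat_lit 37722612), (nat_lit 24769386), (nat_lit 18451604), (nat_lit 12447949)] (nat_lit 21119649)) p15_25_0 (nat_lit 4) (nat_lit 27) (nat_lit 28) = true := by decide +kernel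
def p15_25_0_28 : pfC (piC [(nat_lit 37722612), (nat_lit 24769386), (nat_lit 18451604), (nat_lit 12447949)] (nat_lit 21119649)) p15_25_0 (nat_lit 4) (nat_lit 28) (nat_lit 29) = true := by decide +kernel
def p15_25_0_29 : pfC (piC [(nat_lit 37722612), (nat_lit 24769386), (nat_lit 18451604), (nat_lit 12447949)] (nat_lit 21119649)) p15_25_0 (nat_lit 4) (nat_lit 29) (nat_lit 30) = true := by decide +kernel
def p15_25_0_30 : pfC (piC [(nat_lit 37722612), (nat_lit 24769386), (nat_lit 18451604), (nat_lit 12447949)] (nat_lit 21119649)) p15_25_0 (nat_lit 4) (nat_lit 30) (nat_lit 31) = true := by decide +kernel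
def p15_25_0_31 : pfC (piC [(nat_lit 37722612), (nat_lit 24769386), (nat_lit 18451604), (nat_lit 12447949)] (nat_lit 21119649)) p15_25_0 (nat_lit 4) (nat_lit 31) (nat_lit 32) = true := by decide +kernel
def p15_25_0_32 : pfC (piC [(nat_lit 37722612), (nat_lit 24769386), (nat_lit 18451604), (nat_lit 12447949)] (nat_lit 21119649)) p15_25_0 (nat_lit 4) (nat_lit 32) (nat_lit 33) = true := by decide +kernel
def p15_25_0_33 : pfC (piC [(nat_lit 37722612), (nat_lit 24769386), (nat_lit 18451604), (nat_lit 12447949)] (nat_lit 21119649)) p15_25_0 (nat_lit 4) (nat_lit 33) (nat_lit 34) = true := by decide +kernel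
def p15_25_0_34 : pfC (piC [(nat_lit 37722612), (nat_lit 24769386), (nat_lit 18451604), (nat_lit 12447949)] (nat_lit 21119649)) p15_25_0 (nat_lit 4) (nat_lit 34) (nat_lit 35) = true := by decide +kernel
def p15_25_0_35 : pfC (piC [(nat_lit 37722612), (nat_lit 24769386), (nat_lit 18451604), (nat_lit 12447949)] (nat_lit 21119649)) p15_25_0 (nat_lit 4) (nat_lit 35) (nat_lit 36) = true := by decide +kernel
def p15_25_0_36 : pfC (piC [(nat_lit 37722612), (nat_lit 24769386), (nat_lit 18451604), (nat_lit 12447949)] (nat_lit 21119649)) p15_25_0 (nat_lit 4) (nat_lit 36) (nat_lit 37) = true := by decide +kernel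
def p15_25_0_37 : pfC (piC [(nat_lit 37722612), (nat_lit 24769386), (nat_lit 18451604), (nat_lit 12447949)] (nat_lit 21119649)) p15_25_0 (nat_lit 4) (nat_lit 37) (nat_lit 38) = true := by decide +kernel
def p15_25_0_38 : pfC (piC [(nat_lit 37722612), (nat_lit 24769386), (nat_lit 18451604), (nat_lit 12447949)] (nat_lit 21119649)) p15_25_0 (nat_lit 4) (nat_lit 38) (nat_lit 39) = true := by decide +kernel
def p15_25_0_39 : pfC (piC [(nat_lit 37722612), (nat_lit 24769386), (nat_lit 18451604), (nat_lit 12447949)] (nat_lit 21119649)) p15_25_0 (nat_lit 4) (nat_lit 39) (nat_lit 40) = true := by decide +kernel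
def p15_25_0_40 : pfC (piC [(nat_lit 37722612), (nat_lit 24769386), (nat_lit 18451604), (nat_lit 12447949)] (nat_lit 21119649)) p15_25_0 (nat_lit 4) (nat_lit 40) (nat_lit 41) = true := by decide +kernel
def p15_25_0_41 : pfC (piC [(nat_lit 37722612), (nat_lit 24769386), (nat_lit 18451604), (nat_lit 12447949)] (nat_lit 21119649)) p15_25_0 (nat_lit 4) (nat_lit 41) (nat_lit 42) = true := by decide +kernel
def p15_25_0_42 : pfC (piC [(nat_lit 37722612), (nat_lit 24769386), (nat_lit 18451604), (nat_lit 12447949)] (nat_lit 21119649)) p15_25_0 (nat_lit 4) (nat_lit 42) (nat_lit 43) = true := by decide +kernel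
def p15_25_0_43 : pfC (piC [(nat_lit 37722612), (nat_lit 24769386), (nat_lit 18451604), (nat_lit 12447949)] (nat_lit 21119649)) p15_25_0 (nat_lit 4) (nat_lit 43) (nat_lit 44) = true := by decide +kernel
def p15_25_0_44 : pfC (piC [(nat_lit 37722612), (nat_lit 24769386), (nat_lit 18451604), (nat_lit 12447949)] (nat_lit 21119649)) p15_25_0 (nat_lit 4) (nat_lit 44) (nat_lit 45) = true := by decide +kernel
def p15_25_0_45 : pfC (piC [(nat_lit 37722612), (nat_lit 24769386), (nat_lit 18451604), (nat_lit 12447949)] (nat_lit 21119649)) p15_25_0 (nat_lit 4) (nat_lit 45) (nat_lit 46) = true := by decide +kernel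
def p15_25_0_46 : pfC (piC [(nat_lit 37722612), (nat_lit 24769386), (nat_lit 18451604), (nat_lit 12447949)] (nat_lit 21119649)) p15_25_0 (nat_lit 4) (nat_lit 46) (nat_lit 47) = true := by decide +kernel
def p15_25_0_47 : pfC (piC [(nat_lit 37722612), (nat_lit 24769386), (nat_lit 18451604), (nat_lit 12447949)] (nat_lit 21119649)) p15_25_0 (nat_lit 4) (nat_lit 47) (nat_lit 48) = true := by decide +kernel
def p15_25_0_48 : pfC (piC [(nat_lit 37722612), (nat_lit 24769386), (nat_lit 18451604), (nat_lit 12447949)] (nat_lit 21119649)) p15_25_0 (nat_lit 4) (nat_lit 48) (nat_lit 49) = true := by decide +kernel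
def p15_25_0_49 : pfC (piC [(nat_lit 37722612), (nat_lit 24769386), (nat_lit 18451604), (nat_lit 12447949)] (nat_lit 21119649)) p15_25_0 (nat_lit 4) (nat_lit 49) (nat_lit 50) = true := by decide +kernel
def p15_25_0_50 : pfC (piC [(nat_lit 37722612), (nat_lit 24769386), (nat_lit 18451604), (nat_lit 12447949)] (nat_lit 21119649)) p15_25_0 (nat_lit 4) (nat_lit 50) (nat_lit 51) = true := by decide +kernel
def p15_25_0_51 : pfC (piC [(nat_lit 37722612), (nat_lit 24769386), (nat_lit 18451604), (nat_lit 12447949)] (nat_lit 21119649)) p15_25_0 (nat_lit 4) (nat_lit 51) (nat_lit 52) = true := by decide +kernel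
def p15_25_0_52 : pfC (piC [(nat_lit 37722612), (nat_lit 24769386), (nat_lit 18451604), (nat_lit 12447949)] (nat_lit 21119649)) p15_25_0 (nat_lit 4) (nat_lit 52) (nat_lit 53) = true := by decide +kernel
def p15_25_0_53 : pfC (piC [(nat_lit 37722612), (nat_lit 24769386), (nat_lit 18451604), (nat_lit 12447949)] (nat_lit 21119649)) p15_25_0 (nat_lit 4) (nat_lit 53) (nat_lit 54) = true := by decide +kernel
def p15_25_0_54 : pfC (piC [(nat_lit 37722612), (nat_lit 24769386), (nat_lit 18451604), (nat_lit 12447949)] (nat_lit 21119649)) p15_25_0 (nat_lit 4) (nat_lit 54) (nat_lit 55) = true := by decide +kernel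
def p15_25_0_55 : pfC (piC [(nat_lit 37722612), (nat_lit 24769386), (nat_lit 18451604), (nat_lit 12447949)] (nat_lit 21119649)) p15_25_0 (nat_lit 4) (nat_lit 55) (nat_lit 56) = true := by decide +kernel
def p15_25_0_56 : pfC (piC [(nat_lit 37722612), (nat_lit 24769386), (nat_lit 18451604), (nat_lit 12447949)] (nat_lit 21119649)) p15_25_0 (nat_lit 4) (nat_lit 56) (nat_lit 57) = true := by decide +kernel
def p15_25_0_57 : pfC (piC [(nat_lit 37722612), (nat_lit 24769386), (nat_lit 18451604), (nat_lit 12447949)] (nat_lit 21119649)) p15_25_0 (nat_lit 4) (nat_lit 57) (nat_lit 58) = true := by decide +kernel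
def p15_25_0_58 : pfC (piC [(nat_lit 37722612), (nat_lit 24769386), (nat_lit 18451604), (nat_lit 12447949)] (nat_lit 21119649)) p15_25_0 (nat_lit 4) (nat_lit 58) (nat_lit 59) = true := by decide +kernel
def p15_25_0_59 : pfC (piC [(nat_lit 37722612), (nat_lit 24769386), (nat_lit 18451604), (nat_lit 12447949)] (nat_lit 21119649)) p15_25_0 (nat_lit 4) (nat_lit 59) (nat_lit 60) = true := by decide +kernel
def p15_25_0_60 : pfC (piC [(nat_lit 37722612), (nat_lit 24769386), (nat_lit 18451604), (nat_lit 12447949)] (nat_lit 21119649)) p15_25_0 (nat_lit 4) (nat_lit 60) (nat_lit 61) = true := by decide +kernel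
def p15_25_0_61 : pfC (piC [(nat_lit 37722612), (nat_lit 24769386), (nat_lit 18451604), (nat_lit 12447949)] (nat_lit 21119649)) p15_25_0 (nat_lit 4) (nat_lit 61) (nat_lit 62) = true := by decide +kernel
def p15_25_0_62 : pfC (piC [(nat_lit 37722612), (nat_lit 24769386), (nat_lit 18451604), (nat_lit 12447949)] (nat_lit 21119649)) p15_25_0 (nat_lit 4) (nat_lit 62) (nat_lit 63) = true := by decide +kernel
def p15_25_0_63 : pfC (piC [(nat_lit 37722612), (nat_lit 24769386), (nat_lit 18451604), (nat_lit 12447949)] (nat_lit 21119649)) p15_25_0 (nat_lit 4) (nat_lit 63) (nat_lit 64) = true := by decide +kernel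
def p15_25_0_64 : pfC (piC [(nat_lit 37722612), (nat_lit 24769386), (nat_lit 18451604), (nat_lit 12447949)] (nat_lit 21119649)) p15_25_0 (nat_lit 4) (nat_lit 64) (nat_lit 65) = true := by decide +kernel
def p15_25_0_65 : pfC (piC [(nat_lit 37722612), (nat_lit 24769386), (nat_lit 18451604), (nat_lit 12447949)] (nat_lit 21119649)) p15_25_0 (nat_lit 4) (nat_lit 65) (nat_lit 66) = true := by decide +kernel
def p15_25_0_66 : pfC (piC [(nat_lit 37722612), (nat_lit 24769386), (nat_lit 18451604), (nat_lit 12447949)] (nat_lit 21119649)) p15_25_0 (nat_lit 4) (nat_lit 66) (nat_lit 67) = true := by decide +kernel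
def p15_25_0_67 : pfC (piC [(nat_lit 37722612), (nat_lit 24769386), (nat_lit 18451604), (nat_lit 12447949)] (nat_lit 21119649)) p15_25_0 (nat_lit 4) (nat_lit 67) (nat_lit 68) = true := by decide +kernel
def p15_25_0_68 : pfC (piC [(nat_lit 37722612), (nat_lit 24769386), (nat_lit 18451604), (nat_lit 12447949)] (nat_lit 21119649)) p15_25_0 (nat_lit 4) (nat_lit 68) (nat_lit 69) = true := by decide +kernel
def p15_25_0_69 : pfC (piC [(nat_lit 37722612), (nat_lit 24769386), (nat_lit 18451604), (nat_lit 12447949)] (nat_lit 21119649)) p15_25_0 (nat_lit 4) (nat_lit 69) (nat_lit 70) = true := by decide +kernel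
def p15_25_0_70 : pfC (piC [(nat_lit 37722612), (nat_lit 24769386), (nat_lit 18451604), (nat_lit 12447949)] (nat_lit 21119649)) p15_25_0 (nat_lit 4) (nat_lit 70) (nat_lit 71) = true := by decide +kernel
def p15_25_0_71 : pfC (piC [(nat_lit 37722612), (nat_lit 24769386), (nat_lit 18451604), (nat_lit 12447949)] (nat_lit 21119649)) p15_25_0 (nat_lit 4) (nat_lit 71) (nat_lit 72) = true := by decide +kernel
def p15_25_0_72 : pfC (piC [(nat_lit 37722612), (nat_lit 24769386), (nat_lit 18451604), (nat_lit 12447949)] (nat_lit 21119649)) p15_25_0 (nat_lit 4) (nat_lit 72) (nat_lit 73) = true := by decide +kernel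
def p15_25_0_73 : pfC (piC [(nat_lit 37722612), (nat_lit 24769386), (nat_lit 18451604), (nat_lit 12447949)] (nat_lit 21119649)) p15_25_0 (nat_lit 4) (nat_lit 73) (nat_lit 74) = true := by decide +kernel
def p15_25_0_74 : pfC (piC [(nat_lit 37722612), (nat_lit 24769386), (nat_lit 18451604), (nat_lit 12447949)] (nat_lit 21119649)) p15_25_0 (nat_lit 4) (nat_lit 74) (nat_lit 75) = true := by decide +kernel
def p15_25_0_75 : pfC (piC [(nat_lit 37722612), (nat_lit 24769386), (nat_lit 18451604), (nat_lit 12447949)] (nat_lit 21119649)) p15_25_0 (nat_lit 4) (nat_lit 75) (nat_lit 76) = true := by decide +kernel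
def p15_25_0_76 : pfC (piC [(nat_lit 37722612), (nat_lit 24769386), (nat_lit 18451604), (nat_lit 12447949)] (nat_lit 21119649)) p15_25_0 (nat_lit 4) (nat_lit 76) (nat_lit 77) = true := by decide +kernel
def p15_25_0_77 : pfC (piC [(nat_lit 37722612), (nat_lit 24769386), (nat_lit 18451604), (nat_lit 12447949)] (nat_lit 21119649)) p15_25_0 (nat_lit 4) (nat_lit 77) (nat_lit 78) = true := by decide +kernel
def p15_25_0_78 : pfC (piC [(nat_lit 37722612), (nat_lit 24769386), (nat_lit 18451604), (nat_lit 12447949)] (nat_lit 21119649)) p15_25_0 (nat_lit 4) (nat_lit 78) (nat_lit 79) = true := by decide +kernel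
def p15_25_0_79 : pfC (piC [(nat_lit 37722612), (nat_lit 24769386), (nat_lit 18451604), (nat_lit 12447949)] (nat_lit 21119649)) p15_25_0 (nat_lit 4) (nat_lit 79) (nat_lit 80) = true := by decide +kernel
def p15_25_0_80 : pfC (piC [(nat_lit 37722612), (nat_lit 24769386), (nat_lit 18451604), (nat_lit 12447949)] (nat_lit 21119649)) p15_25_0 (nat_lit 4) (nat_lit 80) (nat_lit 81) = true := by decide +kernel
def p15_25_0_81 : pfC (piC [(nat_lit 37722612), (nat_lit 24769386), (nat_lit 18451604), (nat_lit 12447949)] (nat_lit 21119649)) p15_25_0 (nat_lit 4) (nat_lit 81) (nat_lit 82) = true := by decide +kernel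
def p15_25_0_82 : pfC (piC [(nat_lit 37722612), (nat_lit 24769386), (nat_lit 18451604), (nat_lit 12447949)] (nat_lit 21119649)) p15_25_0 (nat_lit 4) (nat_lit 82) (nat_lit 83) = true := by decide +kernel
def p15_25_0_83 : pfC (piC [(nat_lit 37722612), (nat_lit 24769386), (nat_lit 18451604), (nat_lit 12447949)] (nat_lit 21119649)) p15_25_0 (nat_lit 4) (nat_lit 83) (nat_lit 84) = true := by decide +kernel
def p15_25_0_84 : pfC (piC [(nat_lit 37722612), (nat_lit 24769386), (nat_lit 18451604), (nat_lit 12447949)] (nat_lit 21119649)) p15_25_0 (nat_lit 4) (nat_lit 84) (nat_lit 85) = true := by decide +kernel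
def p15_25_0_85 : pfC (piC [(nat_lit 37722612), (nat_lit 24769386), (nat_lit 18451604), (nat_lit 12447949)] (nat_lit 21119649)) p15_25_0 (nat_lit 4) (nat_lit 85) (nat_lit 86) = true := by decide +kernel
def p15_25_0_86 : pfC (piC [(nat_lit 37722612), (nat_lit 24769386), (nat_lit 18451604), (nat_lit 12447949)] (nat_lit 21119649)) p15_25_0 (nat_lit 4) (nat_lit 86) (nat_lit 87) = true := by decide +kernel
def p15_25_0_87 : pfC (piC [(nat_lit 37722612), (nat_lit 24769386), (nat_lit 18451604), (nat_lit 12447949)] (nat_lit 21119649)) p15_25_0 (nat_lit 4) (nat_lit 87) (nat_lit 88) = true := by decide +kernel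
def p15_25_0_88 : pfC (piC [(nat_lit 37722612), (nat_lit 24769386), (nat_lit 18451604), (nat_lit 12447949)] (nat_lit 21119649)) p15_25_0 (nat_lit 4) (nat_lit 88) (nat_lit 89) = true := by decide +kernel
def p15_25_0_89 : pfC (piC [(nat_lit 37722612), (nat_lit 24769386), (nat_lit 18451604), (nat_lit 12447949)] (nat_lit 21119649)) p15_25_0 (nat_lit 4) (nat_lit 89) (nat_lit 90) = true := by decide +kernel
def p15_25_0_90 : pfC (piC [(nat_lit 37722612), (nat_lit 24769386), (nat_lit 18451604), (nat_lit 12447949)] (nat_lit 21119649)) p15_25_0 (nat_lit 4) (nat_lit 90) (nat_lit 91) = true := by decide +kernel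
def p15_25_0_91 : pfC (piC [(nat_lit 37722612), (nat_lit 24769386), (nat_lit 18451604), (nat_lit 12447949)] (nat_lit 21119649)) p15_25_0 (nat_lit 4) (nat_lit 91) (nat_lit 92) = true := by decide +kernel
def p15_25_0_92 : pfC (piC [(nat_lit 37722612), (nat_lit 24769386), (nat_lit 18451604), (nat_lit 12447949)] (nat_lit 21119649)) p15_25_0 (nat_lit 4) (nat_lit 92) (nat_lit 93) = true := by decide +kernel
def p15_25_0_93 : pfC (piC [(nat_lit 37722612), (nat_lit 24769386), (nat_lit 18451604), (nat_lit 12447949)] (nat_lit 21119649)) p15_25_0 (nat_lit 4) (nat_lit 93) (nat_lit 94) = true := by decide +kernel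
def p15_25_0_94 : pfC (piC [(nat_lit 37722612), (nat_lit 24769386), (nat_lit 18451604), (nat_lit 12447949)] (nat_lit 21119649)) p15_25_0 (nat_lit 4) (nat_lit 94) (nat_lit 95) = true := by decide +kernel
def p15_25_0_95 : pfC (piC [(nat_lit 37722612), (nat_lit 24769386), (nat_lit 18451604), (nat_lit 12447949)] (nat_lit 21119649)) p15_25_0 (nat_lit 4) (nat_lit 95) (nat_lit 96) = true := by decide +kernel
def p15_25_0_96 : pfC (piC [(nat_lit 37722612), (nat_lit 24769386), (nat_lit 18451604), (nat_lit 12447949)] (nat_lit 21119649)) p15_25_0 (nat_lit 4) (nat_lit 96) (nat_lit 97) = true := by decide +kernel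
def p15_25_0_97 : pfC (piC [(nat_lit 37722612), (nat_lit 24769386), (nat_lit 18451604), (nat_lit 12447949)] (nat_lit 21119649)) p15_25_0 (nat_lit 4) (nat_lit 97) (nat_lit 98) = true := by decide +kernel
def p15_25_0_98 : pfC (piC [(nat_lit 37722612), (nat_lit 24769386), (nat_lit 18451604), (nat_lit 12447949)] (nat_lit 21119649)) p15_25_0 (nat_lit 4) (nat_lit 98) (nat_lit 99) = true := by decide +kernel
def p15_25_0_99 : pfC (piC [(nat_lit 37722612), (nat_lit 24769386), (nat_lit 18451604), (nat_lit 12447949)] (nat_lit 21119649)) p15_25_0 (nat_lit 4) (nat_lit 99) (nat_lit 100) = true := by decide +kernel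
def p15_25_0_100 : pfC (piC [(nat_lit 37722612), (nat_lit 24769386), (nat_lit 18451604), (nat_lit 12447949)] (nat_lit 21119649)) p15_25_0 (nat_lit 4) (nat_lit 100) (nat_lit 101) = true := by decide +kernel
def p15_25_0_101 : pfC (piC [(nat_lit 37722612), (nat_lit 24769386), (nat_lit 18451604), (nat_lit 12447949)] (nat_lit 21119649)) p15_25_0 (nat_lit 4) (nat_lit 101) (nat_lit 102) = true := by decide +kernel
def p15_25_0_102 : pfC (piC [(nat_lit 37722612), (nat_lit 24769386), (nat_lit 18451604), (nat_lit 12447949)] (nat_lit 21119649)) p15_25_0 (nat_lit 4) (nat_lit 102) (nat_lit 103) = true := by decide +kernel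
def p15_25_0_103 : pfC (piC [(nat_lit 37722612), (nat_lit 24769386), (nat_lit 18451604), (nat_lit 12447949)] (nat_lit 21119649)) p15_25_0 (nat_lit 4) (nat_lit 103) (nat_lit 104) = true := by decide +kernel
def p15_25_0_104 : pfC (piC [(nat_lit 37722612), (nat_lit 24769386), (nat_lit 18451604), (nat_lit 12447949)] (nat_lit 21119649)) p15_25_0 (nat_lit 4) (nat_lit 104) (nat_lit 105) = true := by decide +kernel
def p15_25_0_105 : pfC (piC [(nat_lit 37722612), (nat_lit 24769386), (nat_lit 18451604), (nat_lit 12447949)] (nat_lit 21119649)) p15_25_0 (nat_lit 4) (nat_lit 105) (nat_lit 106) = true := by decide +kernel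
def p15_25_0_106 : pfC (piC [(nat_lit 37722612), (nat_lit 24769386), (nat_lit 18451604), (nat_lit 12447949)] (nat_lit 21119649)) p15_25_0 (nat_lit 4) (nat_lit 106) (nat_lit 107) = true := by decide +kernel
def p15_25_0_107 : pfC (piC [(nat_lit 37722612), (nat_lit 24769386), (nat_lit 18451604), (nat_lit 12447949)] (nat_lit 21119649)) p15_25_0 (nat_lit 4) (nat_lit 107) (nat_lit 108) = true := by decide +kernel
def p15_25_0_108 : pfC (piC [(nat_lit 37722612), (nat_lit 24769386), (nat_lit 18451604), (nat_lit 12447949)] (nat_lit 21119649)) p15_25_0 (nat_lit 4) (nat_lit 108) (nat_lit 109) = true := by decide +kernel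
def p15_25_0_109 : pfC (piC [(nat_lit 37722612), (nat_lit 24769386), (nat_lit 18451604), (nat_lit 12447949)] (nat_lit 21119649)) p15_25_0 (nat_lit 4) (nat_lit 109) (nat_lit 110) = true := by decide +kernel
def p15_25_0_110 : pfC (piC [(nat_lit 37722612), (nat_lit 24769386), (nat_lit 18451604), (nat_lit 12447949)] (nat_lit 21119649)) p15_25_0 (nat_lit 4) (nat_lit 110) (nat_lit 111) = true := by decide +kernel
def p15_25_0_111 : pfC (piC [(nat_lit 37722612), (nat_lit 24769386), (nat_lit 18451604), (nat_lit 12447949)] (nat_lit 21119649)) p15_25_0 (nat_lit 4) (nat_lit 111) (nat_lit 112) = true := by decide +kernel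
def p15_25_0_112 : pfC (piC [(nat_lit 37722612), (nat_lit 24769386), (nat_lit 18451604), (nat_lit 12447949)] (nat_lit 21119649)) p15_25_0 (nat_lit 4) (nat_lit 112) (nat_lit 113) = true := by decide +kernel
def p15_25_0_113 : pfC (piC [(nat_lit 37722612), (nat_lit 24769386), (nat_lit 18451604), (nat_lit 12447949)] (nat_lit 21119649)) p15_25_0 (nat_lit 4) (nat_lit 113) (nat_lit 114) = true := by decide +kernel
def p15_25_0_114 : pfC (piC [(nat_lit 37722612), (nat_lit 24769386), (nat_lit 18451604), (nat_lit 12447949)] (nat_lit 21119649)) p15_25_0 (nat_lit 4) (nat_lit 114) (nat_lit 115) = true := by decide +kernel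
def p15_25_0_115 : pfC (piC [(nat_lit 37722612), (nat_lit 24769386), (nat_lit 18451604), (nat_lit 12447949)] (nat_lit 21119649)) p15_25_0 (nat_lit 4) (nat_lit 115) (nat_lit 116) = true := by decide +kernel
def p15_25_0_116 : pfC (piC [(nat_lit 37722612), (nat_lit 24769386), (nat_lit 18451604), (nat_lit 12447949)] (nat_lit 21119649)) p15_25_0 (nat_lit 4) (nat_lit 116) (nat_lit 117) = true := by decide +kernel
def p15_25_0_117 : pfC (piC [(nat_lit 37722612), (nat_lit 24769386), (nat_lit 18451604), (nat_lit 12447949)] (nat_lit 21119649)) p15_25_0 (nat_lit 4) (nat_lit 117) (nat_lit 118) = true := by decide +kernel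
def p15_25_0_118 : pfC (piC [(nat_lit 37722612), (nat_lit 24769386), (nat_lit 18451604), (nat_lit 12447949)] (nat_lit 21119649)) p15_25_0 (nat_lit 4) (nat_lit 118) (nat_lit 119) = true := by decide +kernel
def p15_25_0_119 : pfC (piC [(nat_lit 37722612), (nat_lit 24769386), (nat_lit 18451604), (nat_lit 12447949)] (nat_lit 21119649)) p15_25_0 (nat_lit 4) (nat_lit 119) (nat_lit 120) = true := by decide +kernel
def p15_25_0_120 : pfC (piC [(nat_lit 37722612), (nat_lit 24769386), (nat_lit 18451604), (nat_lit 12447949)] (nat_lit 21119649)) p15_25_0 (nat_lit 4) (nat_lit 120) (nat_lit 121) = true := by decide +kernel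
def p15_25_0_121 : pfC (piC [(nat_lit 37722612), (nat_lit 24769386), (nat_lit 18451604), (nat_lit 12447949)] (nat_lit 21119649)) p15_25_0 (nat_lit 4) (nat_lit 121) (nat_lit 122) = true := by decide +kernel
def p15_25_0_122 : pfC (piC [(nat_lit 37722612), (nat_lit 24769386), (nat_lit 18451604), (nat_lit 12447949)] (nat_lit 21119649)) p15_25_0 (nat_lit 4) (nat_lit 122) (nat_lit 123) = true := by decide +kernel
def p15_25_0_123 : pfC (piC [(nat_lit 37722612), (nat_lit 24769386), (nat_lit 18451604), (nat_lit 12447949)] (nat_lit 21119649)) p15_25_0 (nat_lit 4) (nat_lit 123) (nat_lit 124) = true := by decide +kernel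
def p15_25_0_124 : pfC (piC [(nat_lit 37722612), (nat_lit 24769386), (nat_lit 18451604), (nat_lit 12447949)] (nat_lit 21119649)) p15_25_0 (nat_lit 4) (nat_lit 124) (nat_lit 125) = true := by decide +kernel
def p15_25_0_125 : pfC (piC [(nat_lit 37722612), (nat_lit 24769386), (nat_lit 18451604), (nat_lit 12447949)] (nat_lit 21119649)) p15_25_0 (nat_lit 4) (nat_lit 125) (nat_lit 126) = true := by decide +kernel
def p15_25_0_126 : pfC (piC [(nat_lit 37722612), (nat_lit 24769386), (nat_lit 18451604), (nat_lit 12447949)] (nat_lit 21119649)) p15_25_0 (nat_lit 4) (nat_lit 126) (nat_lit 127) = true := by decide +kernel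
def p15_25_0_127 : pfC (piC [(nat_lit 37722612), (nat_lit 24769386), (nat_lit 18451604), (nat_lit 12447949)] (nat_lit 21119649)) p15_25_0 (nat_lit 4) (nat_lit 127) (nat_lit 128) = true := by decide +kernel
def p15_25_0_128 : pfC (piC [(nat_lit 37722612), (nat_lit 24769386), (nat_lit 18451604), (nat_lit 12447949)] (nat_lit 21119649)) p15_25_0 (nat_lit 4) (nat_lit 128) (nat_lit 129) = true := by decide +kernel
def p15_25_0_129 : pfC (piC [(nat_lit 37722612), (nat_lit 24769386), (nat_lit 18451604), (nat_lit 12447949)] (nat_lit 21119649)) p15_25_0 (nat_lit 4) (nat_lit 129) (nat_lit 130) = true := by decide +kernel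
def p15_25_0_130 : pfC (piC [(nat_lit 37722612), (nat_lit 24769386), (nat_lit 18451604), (nat_lit 12447949)] (nat_lit 21119649)) p15_25_0 (nat_lit 4) (nat_lit 130) (nat_lit 131) = true := by decide +kernel
def p15_25_0_131 : pfC (piC [(nat_lit 37722612), (nat_lit 24769386), (nat_lit 18451604), (nat_lit 12447949)] (nat_lit 21119649)) p15_25_0 (nat_lit 4) (nat_lit 131) (nat_lit 132) = true := by decide +kernel
def p15_25_0_132 : pfC (piC [(nat_lit 37722612), (nat_lit 24769386), (nat_lit 18451604), (nat_lit 12447949)] (nat_lit 21119649)) p15_25_0 (nat_lit 4) (nat_lit 132) (nat_lit 133) = true := by decide +kernel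
def p15_25_0_133 : pfC (piC [(nat_lit 37722612), (nat_lit 24769386), (nat_lit 18451604), (nat_lit 12447949)] (nat_lit 21119649)) p15_25_0 (nat_lit 4) (nat_lit 133) (nat_lit 134) = true := by decide +kernel
def p15_25_0_134 : pfC (piC [(nat_lit 37722612), (nat_lit 24769386), (nat_lit 18451604), (nat_lit 12447949)] (nat_lit 21119649)) p15_25_0 (nat_lit 4) (nat_lit 134) (nat_lit 135) = true := by decide +kernel
def p15_25_0_135 : pfC (piC [(nat_lit 37722612), (nat_lit 24769386), (nat_lit 18451604), (nat_lit 12447949)] (nat_lit 21119649)) p15_25_0 (nat_lit 4) (nat_lit 135) (nat_lit 136) = true := by decide +kernel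
def p15_25_0_136 : pfC (piC [(nat_lit 37722612), (nat_lit 24769386), (nat_lit 18451604), (nat_lit 12447949)] (nat_lit 21119649)) p15_25_0 (nat_lit 4) (nat_lit 136) (nat_lit 137) = true := by decide +kernel
def p15_25_0_137 : pfC (piC [(nat_lit 37722612), (nat_lit 24769386), (nat_lit 18451604), (nat_lit 12447949)] (nat_lit 21119649)) p15_25_0 (nat_lit 4) (nat_lit 137) (nat_lit 138) = true := by decide +kernel
def p15_25_0_138 : pfC (piC [(nat_lit 37722612), (nat_lit 24769386), (nat_lit 18451604), (nat_lit 12447949)] (nat_lit 21119649)) p15_25_0 (nat_lit 4) (nat_lit 138) (nat_lit 139) = true := by decide +kernel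
def p15_25_0_139 : pfC (piC [(nat_lit 37722612), (nat_lit 24769386), (nat_lit 18451604), (nat_lit 12447949)] (nat_lit 21119649)) p15_25_0 (nat_lit 4) (nat_lit 139) (nat_lit 140) = true := by decide +kernel
def p15_25_0_140 : pfC (piC [(nat_lit 37722612), (nat_lit 24769386), (nat_lit 18451604), (nat_lit 12447949)] (nat_lit 21119649)) p15_25_0 (nat_lit 4) (nat_lit 140) (nat_lit 141) = true := by decide +kernel
def p15_25_0_141 : pfC (piC [(nat_lit 37722612), (nat_lit 24769386), (nat_lit 18451604), (nat_lit 12447949)] (nat_lit 21119649)) p15_25_0 (nat_lit 4) (nat_lit 141) (nat_lit 142) = true := by decide +kernel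
def p15_25_0_142 : pfC (piC [(nat_lit 37722612), (nat_lit 24769386), (nat_lit 18451604), (nat_lit 12447949)] (nat_lit 21119649)) p15_25_0 (nat_lit 4) (nat_lit 142) (nat_lit 143) = true := by decide +kernel
def p15_25_0_143 : pfC (piC [(nat_lit 37722612), (nat_lit 24769386), (nat_lit 18451604), (nat_lit 12447949)] (nat_lit 21119649)) p15_25_0 (nat_lit 4) (nat_lit 143) (nat_lit 144) = true := by decide +kernel
def p15_25_0_144 : pfC (piC [(nat_lit 37722612), (nat_lit 24769386), (nat_lit 18451604), (nat_lit 12447949)] (nat_lit 21119649)) p15_25_0 (nat_lit 4) (nat_lit 144) (nat_lit 145) = true := by decide +kernel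
def p15_25_0_145 : pfC (piC [(nat_lit 37722612), (nat_lit 24769386), (nat_lit 18451604), (nat_lit 12447949)] (nat_lit 21119649)) p15_25_0 (nat_lit 4) (nat_lit 145) (nat_lit 146) = true := by decide +kernel
def p15_25_0_146 : pfC (piC [(nat_lit 37722612), (nat_lit 24769386), (nat_lit 18451604), (nat_lit 12447949)] (nat_lit 21119649)) p15_25_0 (nat_lit 4) (nat_lit 146) (nat_lit 147) = true := by decide +kernel
def p15_25_0_147 : pfC (piC [(nat_lit 37722612), (nat_lit 24769386), (nat_lit 18451604), (nat_lit 12447949)] (nat_lit 21119649)) p15_25_0 (nat_lit 4) (nat_lit 147) (nat_lit 148) = true := by decide +kernel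
def p15_25_0_148 : pfC (piC [(nat_lit 37722612), (nat_lit 24769386), (nat_lit 18451604), (nat_lit 12447949)] (nat_lit 21119649)) p15_25_0 (nat_lit 4) (nat_lit 148) (nat_lit 149) = true := by decide +kernel
def p15_25_0_149 : pfC (piC [(nat_lit 37722612), (nat_lit 24769386), (nat_lit 18451604), (nat_lit 12447949)] (nat_lit 21119649)) p15_25_0 (nat_lit 4) (nat_lit 149) (nat_lit 150) = true := by decide +kernel
def p15_25_0_150 : pfC (piC [(nat_lit 37722612), (nat_lit 24769386), (nat_lit 18451604), (nat_lit 12447949)] (nat_lit 21119649)) p15_25_0 (nat_lit 4) (nat_lit 150) (nat_lit 151) = true := by decide +kernel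
def p15_25_0_151 : pfC (piC [(nat_lit 37722612), (nat_lit 24769386), (nat_lit 18451604), (nat_lit 12447949)] (nat_lit 21119649)) p15_25_0 (nat_lit 4) (nat_lit 151) (nat_lit 152) = true := by decide +kernel
def p15_25_0_152 : pfC (piC [(nat_lit 37722612), (nat_lit 24769386), (nat_lit 18451604), (nat_lit 12447949)] (nat_lit 21119649)) p15_25_0 (nat_lit 4) (nat_lit 152) (nat_lit 153) = true := by decide +kernel
def p15_25_0_153 : pfC (piC [(nat_lit 37722612), (nat_lit 24769386), (nat_lit 18451604), (nat_lit 12447949)] (nat_lit 21119649)) p15_25_0 (nat_lit 4) (nat_lit 153) (nat_lit 154) = true := by decide +kernel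
def p15_25_0_154 : pfC (piC [(nat_lit 37722612), (nat_lit 24769386), (nat_lit 18451604), (nat_lit 12447949)] (nat_lit 21119649)) p15_25_0 (nat_lit 4) (nat_lit 154) (nat_lit 155) = true := by decide +kernel
def p15_25_0_155 : pfC (piC [(nat_lit 37722612), (nat_lit 24769386), (nat_lit 18451604), (nat_lit 12447949)] (nat_lit 21119649)) p15_25_0 (nat_lit 4) (nat_lit 155) (nat_lit 156) = true := by decide +kernel
def p15_25_0_156 : pfC (piC [(nat_lit 37722612), (nat_lit 24769386), (nat_lit 18451604), (nat_lit 12447949)] (nat_lit 21119649)) p15_25_0 (nat_lit 4) (nat_lit 156) (nat_lit 157) = true := by decide +kernel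
def p15_25_0_157 : pfC (piC [(nat_lit 37722612), (nat_lit 24769386), (nat_lit 18451604), (nat_lit 12447949)] (nat_lit 21119649)) p15_25_0 (nat_lit 4) (nat_lit 157) (nat_lit 158) = true := by decide +kernel
def p15_25_0_158 : pfC (piC [(nat_lit 37722612), (nat_lit 24769386), (nat_lit 18451604), (nat_lit 12447949)] (nat_lit 21119649)) p15_25_0 (nat_lit 4) (nat_lit 158) (nat_lit 159) = true := by decide +kernel
def p15_25_0_159 : pfC (piC [(nat_lit 37722612), (nat_lit 24769386), (nat_lit 18451604), (nat_lit 12447949)] (nat_lit 21119649)) p15_25_0 (nat_lit 4) (nat_lit 159) (nat_lit 160) = true := by decide +kernel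
def p15_25_0_160 : pfC (piC [(nat_lit 37722612), (nat_lit 24769386), (nat_lit 18451604), (nat_lit 12447949)] (nat_lit 21119649)) p15_25_0 (nat_lit 4) (nat_lit 160) (nat_lit 161) = true := by decide +kernel
def p15_25_0_161 : pfC (piC [(nat_lit 37722612), (nat_lit 24769386), (nat_lit 18451604), (nat_lit 12447949)] (nat_lit 21119649)) p15_25_0 (nat_lit 4) (nat_lit 161) (nat_lit 162) = true := by decide +kernel
def p15_25_0_162 : pfC (piC [(nat_lit 37722612), (nat_lit 24769386), (nat_lit 18451604), (nat_lit 12447949)] (nat_lit 21119649)) p15_25_0 (nat_lit 4) (nat_lit 162) (nat_lit 163) = true := by decide +kernel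
def p15_25_0_163 : pfC (piC [(nat_lit 37722612), (nat_lit 24769386), (nat_lit 18451604), (nat_lit 12447949)] (nat_lit 21119649)) p15_25_0 (nat_lit 4) (nat_lit 163) (nat_lit 164) = true := by decide +kernel
def p15_25_0_164 : pfC (piC [(nat_lit 37722612), (nat_lit 24769386), (nat_lit 18451604), (nat_lit 12447949)] (nat_lit 21119649)) p15_25_0 (nat_lit 4) (nat_lit 164) (nat_lit 165) = true := by decide +kernel
def p15_25_0_165 : pfC (piC [(nat_lit 37722612), (nat_lit 24769386), (nat_lit 18451604), (nat_lit 12447949)] (nat_lit 21119649)) p15_25_0 (nat_lit 4) (nat_lit 165) (nat_lit 166) = true := by decide +kernel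
def p15_25_0_166 : pfC (piC [(nat_lit 37722612), (nat_lit 24769386), (nat_lit 18451604), (nat_lit 12447949)] (nat_lit 21119649)) p15_25_0 (nat_lit 4) (nat_lit 166) (nat_lit 167) = true := by decide +kernel
def p15_25_0_167 : pfC (piC [(nat_lit 37722612), (nat_lit 24769386), (nat_lit 18451604), (nat_lit 12447949)] (nat_lit 21119649)) p15_25_0 (nat_lit 4) (nat_lit 167) (nat_lit 168) = true := by decide +kernel
def p15_25_0_168 : pfC (piC [(nat_lit 37722612), (nat_lit 24769386), (nat_lit 18451604), (nat_lit 12447949)] (nat_lit 21119649)) p15_25_0 (nat_lit 4) (nat_lit 168) (nat_lit 169) = true := by decide +kernel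
def p15_25_0_169 : pfC (piC [(nat_lit 37722612), (nat_lit 24769386), (nat_lit 18451604), (nat_lit 12447949)] (nat_lit 21119649)) p15_25_0 (nat_lit 4) (nat_lit 169) (nat_lit 170) = true := by decide +kernel
def p15_25_0_170 : pfC (piC [(nat_lit 37722612), (nat_lit 24769386), (nat_lit 18451604), (nat_lit 12447949)] (nat_lit 21119649)) p15_25_0 (nat_lit 4) (nat_lit 170) (nat_lit 171) = true := by decide +kernel
def p15_25_0_171 : pfC (piC [(nat_lit 37722612), (nat_lit 24769386), (nat_lit 18451604), (nat_lit 12447949)] (nat_lit 21119649)) p15_25_0 (nat_lit 4) (nat_lit 171) (nat_lit 172) = true := by decide +kernel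
def p15_25_0_172 : pfC (piC [(nat_lit 37722612), (nat_lit 24769386), (nat_lit 18451604), (nat_lit 12447949)] (nat_lit 21119649)) p15_25_0 (nat_lit 4) (nat_lit 172) (nat_lit 173) = true := by decide +kernel
def p15_25_0_173 : pfC (piC [(nat_lit 37722612), (nat_lit 24769386), (nat_lit 18451604), (nat_lit 12447949)] (nat_lit 21119649)) p15_25_0 (nat_lit 4) (nat_lit 173) (nat_lit 174) = true := by decide +kernel
def p15_25_0_174 : pfC (piC [(nat_lit 37722612), (nat_lit 24769386), (nat_lit 18451604), (nat_lit 12447949)] (nat_lit 21119649)) p15_25_0 (nat_lit 4) (nat_lit 174) (nat_lit 175) = true := by decide +kernel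
def p15_25_0_175 : pfC (piC [(nat_lit 37722612), (nat_lit 24769386), (nat_lit 18451604), (nat_lit 12447949)] (nat_lit 21119649)) p15_25_0 (nat_lit 4) (nat_lit 175) (nat_lit 176) = true := by decide +kernel
def p15_25_0_176 : pfC (piC [(nat_lit 37722612), (nat_lit 24769386), (nat_lit 18451604), (nat_lit 12447949)] (nat_lit 21119649)) p15_25_0 (nat_lit 4) (nat_lit 176) (nat_lit 177) = true := by decide +kernel
def p15_25_0_177 : pfC (piC [(nat_lit 37722612), (nat_lit 24769386), (nat_lit 18451604), (nat_lit 12447949)] (nat_lit 21119649)) p15_25_0 (nat_lit 4) (nat_lit 177) (nat_lit 178) = true := by decide +kernel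
def p15_25_0_178 : pfC (piC [(nat_lit 37722612), (nat_lit 24769386), (nat_lit 18451604), (nat_lit 12447949)] (nat_lit 21119649)) p15_25_0 (nat_lit 4) (nat_lit 178) (nat_lit 179) = true := by decide +kernel
def p15_25_0_179 : pfC (piC [(nat_lit 37722612), (nat_lit 24769386), (nat_lit 18451604), (nat_lit 12447949)] (nat_lit 21119649)) p15_25_0 (nat_lit 4) (nat_lit 179) (nat_lit 180) = true := by decide +kernel
def p15_25_0_180 : pfC (piC [(nat_lit 37722612), (nat_lit 24769386), (nat_lit 18451604), (nat_lit 12447949)] (nat_lit 21119649)) p15_25_0 (nat_lit 4) (nat_lit 180) (nat_lit 181) = true := by decide +kernel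
def p15_25_0_181 : pfC (piC [(nat_lit 37722612), (nat_lit 24769386), (nat_lit 18451604), (nat_lit 12447949)] (nat_lit 21119649)) p15_25_0 (nat_lit 4) (nat_lit 181) (nat_lit 182) = true := by decide +kernel
def p15_25_0_182 : pfC (piC [(nat_lit 37722612), (nat_lit 24769386), (nat_lit 18451604), (nat_lit 12447949)] (nat_lit 21119649)) p15_25_0 (nat_lit 4) (nat_lit 182) (nat_lit 183) = true := by decide +kernel
def p15_25_0_183 : pfC (piC [(nat_lit 37722612), (nat_lit 24769386), (nat_lit 18451604), (nat_lit 12447949)] (nat_lit 21119649)) p15_25_0 (nat_lit 4) (nat_lit 183) (nat_lit 184) = true := by decide +kernel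
def p15_25_0_184 : pfC (piC [(nat_lit 37722612), (nat_lit 24769386), (nat_lit 18451604), (nat_lit 12447949)] (nat_lit 21119649)) p15_25_0 (nat_lit 4) (nat_lit 184) (nat_lit 185) = true := by decide +kernel
def p15_25_0_185 : pfC (piC [(nat_lit 37722612), (nat_lit 24769386), (nat_lit 18451604), (nat_lit 12447949)] (nat_lit 21119649)) p15_25_0 (nat_lit 4) (nat_lit 185) (nat_lit 186) = true := by decide +kernel
def p15_25_0_186 : pfC (piC [(nat_lit 37722612), (nat_lit 24769386), (nat_lit 18451604), (nat_lit 12447949)] (nat_lit 21119649)) p15_25_0 (nat_lit 4) (nat_lit 186) (nat_lit 187) = true := by decide +kernel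
def p15_25_0_187 : pfC (piC [(nat_lit 37722612), (nat_lit 24769386), (nat_lit 18451604), (nat_lit 12447949)] (nat_lit 21119649)) p15_25_0 (nat_lit 4) (nat_lit 187) (nat_lit 188) = true := by decide +kernel
def p15_25_0_188 : pfC (piC [(nat_lit 37722612), (nat_lit 24769386), (nat_lit 18451604), (nat_lit 12447949)] (nat_lit 21119649)) p15_25_0 (nat_lit 4) (nat_lit 188) (nat_lit 189) = true := by decide +kernel
def p15_25_0_189 : pfC (piC [(nat_lit 37722612), (nat_lit 24769386), (nat_lit 18451604), (nat_lit 12447949)] (nat_lit 21119649)) p15_25_0 (nat_lit 4) (nat_lit 189) (nat_lit 190) = true := by decide +kernel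
def p15_25_0_190 : pfC (piC [(nat_lit 37722612), (nat_lit 24769386), (nat_lit 18451604), (nat_lit 12447949)] (nat_lit 21119649)) p15_25_0 (nat_lit 4) (nat_lit 190) (nat_lit 191) = true := by decide +kernel
def p15_25_0_191 : pfC (piC [(nat_lit 37722612), (nat_lit 24769386), (nat_lit 18451604), (nat_lit 12447949)] (nat_lit 21119649)) p15_25_0 (nat_lit 4) (nat_lit 191) (nat_lit 192) = true := by decide +kernel
def p15_25_0_192 : pfC (piC [(nat_lit 37722612), (nat_lit 24769386), (nat_lit 18451604), (nat_lit 12447949)] (nat_lit 21119649)) p15_25_0 (nat_lit 4) (nat_lit 192) (nat_lit 193) = true := by decide +kernel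
def p15_25_0_193 : pfC (piC [(nat_lit 37722612), (nat_lit 24769386), (nat_lit 18451604), (nat_lit 12447949)] (nat_lit 21119649)) p15_25_0 (nat_lit 4) (nat_lit 193) (nat_lit 194) = true := by decide +kernel
def p15_25_0_194 : pfC (piC [(nat_lit 37722612), (nat_lit 24769386), (nat_lit 18451604), (nat_lit 12447949)] (nat_lit 21119649)) p15_25_0 (nat_lit 4) (nat_lit 194) (nat_lit 195) = true := by decide +kernel
def p15_25_0_195 : pfC (piC [(nat_lit 37722612), (nat_lit 24769386), (nat_lit 18451604), (nat_lit 12447949)] (nat_lit 21119649)) p15_25_0 (nat_lit 4) (nat_lit 195) (nat_lit 196) = true := by decide +kernel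
def p15_25_0_196 : pfC (piC [(nat_lit 37722612), (nat_lit 24769386), (nat_lit 18451604), (nat_lit 12447949)] (nat_lit 21119649)) p15_25_0 (nat_lit 4) (nat_lit 196) (nat_lit 197) = true := by decide +kernel
def p15_25_0_197 : pfC (piC [(nat_lit 37722612), (nat_lit 24769386), (nat_lit 18451604), (nat_lit 12447949)] (nat_lit 21119649)) p15_25_0 (nat_lit 4) (nat_lit 197) (nat_lit 198) = true := by decide +kernel
def p15_25_0_198 : pfC (piC [(nat_lit 37722612), (nat_lit 24769386), (nat_lit 18451604), (nat_lit 12447949)] (nat_lit 21119649)) p15_25_0 (nat_lit 4) (nat_lit 198) (nat_lit 199) = true := by decide +kernel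
def p15_25_0_199 : pfC (piC [(nat_lit 37722612), (nat_lit 24769386), (nat_lit 18451604), (nat_lit 12447949)] (nat_lit 21119649)) p15_25_0 (nat_lit 4) (nat_lit 199) (nat_lit 200) = true := by decide +kernel
def p15_25_0_200 : pfC (piC [(nat_lit 37722612), (nat_lit 24769386), (nat_lit 18451604), (nat_lit 12447949)] (nat_lit 21119649)) p15_25_0 (nat_lit 4) (nat_lit 200) (nat_lit 201) = true := by decide +kernel
def p15_25_0_201 : pfC (piC [(nat_lit 37722612), (nat_lit 24769386), (nat_lit 18451604), (nat_lit 12447949)] (nat_lit 21119649)) p15_25_0 (nat_lit 4) (nat_lit 201) (nat_lit 202) = true := by decide +kernel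
def p15_25_0_202 : pfC (piC [(nat_lit 37722612), (nat_lit 24769386), (nat_lit 18451604), (nat_lit 12447949)] (nat_lit 21119649)) p15_25_0 (nat_lit 4) (nat_lit 202) (nat_lit 203) = true := by decide +kernel
def p15_25_0_203 : pfC (piC [(nat_lit 37722612), (nat_lit 24769386), (nat_lit 18451604), (nat_lit 12447949)] (nat_lit 21119649)) p15_25_0 (nat_lit 4) (nat_lit 203) (nat_lit 204) = true := by decide +kernel
def p15_25_0_204 : pfC (piC [(nat_lit 37722612), (nat_lit 24769386), (nat_lit 18451604), (nat_lit 12447949)] (nat_lit 21119649)) p15_25_0 (nat_lit 4) (nat_lit 204) (nat_lit 205) = true := by decide +kernel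
def p15_25_0_205 : pfC (piC [(nat_lit 37722612), (nat_lit 24769386), (nat_lit 18451604), (nat_lit 12447949)] (nat_lit 21119649)) p15_25_0 (nat_lit 4) (nat_lit 205) (nat_lit 206) = true := by decide +kernel
def p15_25_0_206 : pfC (piC [(nat_lit 37722612), (nat_lit 24769386), (nat_lit 18451604), (nat_lit 12447949)] (nat_lit 21119649)) p15_25_0 (nat_lit 4) (nat_lit 206) (nat_lit 207) = true := by decide +kernel
def p15_25_0_207 : pfC (piC [(nat_lit 37722612), (nat_lit 24769386), (nat_lit 18451604), (nat_lit 12447949)] (nat_lit 21119649)) p15_25_0 (nat_lit 4) (nat_lit 207) (nat_lit 208) = true := by decide +kernel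
def p15_25_0_208 : pfC (piC [(nat_lit 37722612), (nat_lit 24769386), (nat_lit 18451604), (nat_lit 12447949)] (nat_lit 21119649)) p15_25_0 (nat_lit 4) (nat_lit 208) (nat_lit 209) = true := by decide +kernel
def p15_25_0_209 : pfC (piC [(nat_lit 37722612), (nat_lit 24769386), (nat_lit 18451604), (nat_lit 12447949)] (nat_lit 21119649)) p15_25_0 (nat_lit 4) (nat_lit 209) (nat_lit 210) = true := by decide +kernel
def p15_25_0_210 : pfC (piC [(nat_lit 37722612), (nat_lit 24769386), (nat_lit 18451604), (nat_lit 12447949)] (nat_lit 21119649)) p15_25_0 (nat_lit 4) (nat_lit 210) (nat_lit 211) = true := by decide +kernel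
def p15_25_0_211 : pfC (piC [(nat_lit 37722612), (nat_lit 24769386), (nat_lit 18451604), (nat_lit 12447949)] (nat_lit 21119649)) p15_25_0 (nat_lit 4) (nat_lit 211) (nat_lit 212) = true := by decide +kernel
def p15_25_0_212 : pfC (piC [(nat_lit 37722612), (nat_lit 24769386), (nat_lit 18451604), (nat_lit 12447949)] (nat_lit 21119649)) p15_25_0 (nat_lit 4) (nat_lit 212) (nat_lit 213) = true := by decide +kernel
def p15_25_0_213 : pfC (piC [(nat_lit 37722612), (nat_lit 24769386), (nat_lit 18451604), (nat_lit 12447949)] (nat_lit 21119649)) p15_25_0 (nat_lit 4) (nat_lit 213) (nat_lit 214) = true := by decide +kernel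
def p15_25_0_214 : pfC (piC [(nat_lit 37722612), (nat_lit 24769386), (nat_lit 18451604), (nat_lit 12447949)] (nat_lit 21119649)) p15_25_0 (nat_lit 4) (nat_lit 214) (nat_lit 215) = true := by decide +kernel
def p15_25_0_215 : pfC (piC [(nat_lit 37722612), (nat_lit 24769386), (nat_lit 18451604), (nat_lit 12447949)] (nat_lit 21119649)) p15_25_0 (nat_lit 4) (nat_lit 215) (nat_lit 216) = true := by decide +kernel
def p15_25_0_216 : pfC (piC [(nat_lit 37722612), (nat_lit 24769386), (nat_lit 18451604), (nat_lit 12447949)] (nat_lit 21119649)) p15_25_0 (nat_lit 4) (nat_lit 216) (nat_lit 217) = true := by decide +kernel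
def p15_25_0_217 : pfC (piC [(nat_lit 37722612), (nat_lit 24769386), (nat_lit 18451604), (nat_lit 12447949)] (nat_lit 21119649)) p15_25_0 (nat_lit 4) (nat_lit 217) (nat_lit 218) = true := by decide +kernel
def p15_25_0_218 : pfC (piC [(nat_lit 37722612), (nat_lit 24769386), (nat_lit 18451604), (nat_lit 12447949)] (nat_lit 21119649)) p15_25_0 (nat_lit 4) (nat_lit 218) (nat_lit 219) = true := by decide +kernel
def p15_25_0_219 : pfC (piC [(nat_lit 37722612), (nat_lit 24769386), (nat_lit 18451604), (nat_lit 12447949)] (nat_lit 21119649)) p15_25_0 (nat_lit 4) (nat_lit 219) (nat_lit 220) = true := by decide +kernel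
def p15_25_0_220 : pfC (piC [(nat_lit 37722612), (nat_lit 24769386), (nat_lit 18451604), (nat_lit 12447949)] (nat_lit 21119649)) p15_25_0 (nat_lit 4) (nat_lit 220) (nat_lit 221) = true := by decide +kernel
def p15_25_0_221 : pfC (piC [(nat_lit 37722612), (nat_lit 24769386), (nat_lit 18451604), (nat_lit 12447949)] (nat_lit 21119649)) p15_25_0 (nat_lit 4) (nat_lit 221) (nat_lit 222) = true := by decide +kernel
def p15_25_0_222 : pfC (piC [(nat_lit 37722612), (nat_lit 24769386), (nat_lit 18451604), (nat_lit 12447949)] (nat_lit 21119649)) p15_25_0 (nat_lit 4) (nat_lit 222) (nat_lit 223) = true := by decide +kernel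
def p15_25_0_223 : pfC (piC [(nat_lit 37722612), (nat_lit 24769386), (nat_lit 18451604), (nat_lit 12447949)] (nat_lit 21119649)) p15_25_0 (nat_lit 4) (nat_lit 223) (nat_lit 224) = true := by decide +kernel
def p15_25_0_224 : pfC (piC [(nat_lit 37722612), (nat_lit 24769386), (nat_lit 18451604), (nat_lit 12447949)] (nat_lit 21119649)) p15_25_0 (nat_lit 4) (nat_lit 224) (nat_lit 225) = true := by decide +kernel
def p15_25_0_225 : pfC (piC [(nat_lit 37722612), (nat_lit 24769386), (nat_lit 18451604), (nat_lit 12447949)] (nat_lit 21119649)) p15_25_0 (nat_lit 4) (nat_lit 225) (nat_lit 226) = true := by decide +kernel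
def p15_25_0_226 : pfC (piC [(nat_lit 37722612), (nat_lit 24769386), (nat_lit 18451604), (nat_lit 12447949)] (nat_lit 21119649)) p15_25_0 (nat_lit 4) (nat_lit 226) (nat_lit 227) = true := by decide +kernel
def p15_25_0_227 : pfC (piC [(nat_lit 37722612), (nat_lit 24769386), (nat_lit 18451604), (nat_lit 12447949)] (nat_lit 21119649)) p15_25_0 (nat_lit 4) (nat_lit 227) (nat_lit 228) = true := by decide +kernel
def p15_25_0_228 : pfC (piC [(nat_lit 37722612), (nat_lit 24769386), (nat_lit 18451604), (nat_lit 12447949)] (nat_lit 21119649)) p15_25_0 (nat_lit 4) (nat_lit 228) (nat_lit 229) = true := by decide +kernel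
def p15_25_0_229 : pfC (piC [(nat_lit 37722612), (nat_lit 24769386), (nat_lit 18451604), (nat_lit 12447949)] (nat_lit 21119649)) p15_25_0 (nat_lit 4) (nat_lit 229) (nat_lit 230) = true := by decide +kernel
def p15_25_0_230 : pfC (piC [(nat_lit 37722612), (nat_lit 24769386), (nat_lit 18451604), (nat_lit 12447949)] (nat_lit 21119649)) p15_25_0 (nat_lit 4) (nat_lit 230) (nat_lit 231) = true := by decide +kernel
def p15_25_0_231 : pfC (piC [(nat_lit 37722612), (nat_lit 24769386), (nat_lit 18451604), (nat_lit 12447949)] (nat_lit 21119649)) p15_25_0 (nat_lit 4) (nat_lit 231) (nat_lit 232) = true := by decide +kernel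
def p15_25_0_232 : pfC (piC [(nat_lit 37722612), (nat_lit 24769386), (nat_lit 18451604), (nat_lit 12447949)] (nat_lit 21119649)) p15_25_0 (nat_lit 4) (nat_lit 232) (nat_lit 233) = true := by decide +kernel
def p15_25_0_233 : pfC (piC [(nat_lit 37722612), (nat_lit 24769386), (nat_lit 18451604), (nat_lit 12447949)] (nat_lit 21119649)) p15_25_0 (nat_lit 4) (nat_lit 233) (nat_lit 234) = true := by decide +kernel
def p15_25_0_234 : pfC (piC [(nat_lit 37722612), (nat_lit 24769386), (nat_lit 18451604), (nat_lit 12447949)] (nat_lit 21119649)) p15_25_0 (nat_lit 4) (nat_lit 234) (nat_lit 235) = true := by decide +kernel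
def p15_25_0_235 : pfC (piC [(nat_lit 37722612), (nat_lit 24769386), (nat_lit 18451604), (nat_lit 12447949)] (nat_lit 21119649)) p15_25_0 (nat_lit 4) (nat_lit 235) (nat_lit 236) = true := by decide +kernel
def p15_25_0_236 : pfC (piC [(nat_lit 37722612), (nat_lit 24769386), (nat_lit 18451604), (nat_lit 12447949)] (nat_lit 21119649)) p15_25_0 (nat_lit 4) (nat_lit 236) (nat_lit 237) = true := by decide +kernel
def p15_25_0_237 : pfC (piC [(nat_lit 37722612), (nat_lit 24769386), (nat_lit 18451604), (nat_lit 12447949)] (nat_lit 21119649)) p15_25_0 (nat_lit 4) (nat_lit 237) (nat_lit 238) = true := by decide +kernel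
def p15_25_0_238 : pfC (piC [(nat_lit 37722612), (nat_lit 24769386), (nat_lit 18451604), (nat_lit 12447949)] (nat_lit 21119649)) p15_25_0 (nat_lit 4) (nat_lit 238) (nat_lit 239) = true := by decide +kernel
def p15_25_0_239 : pfC (piC [(nat_lit 37722612), (nat_lit 24769386), (nat_lit 18451604), (nat_lit 12447949)] (nat_lit 21119649)) p15_25_0 (nat_lit 4) (nat_lit 239) (nat_lit 240) = true := by decide +kernel
def p15_25_0_240 : pfC (piC [(nat_lit 37722612), (nat_lit 24769386), (nat_lit 18451604), (nat_lit 12447949)] (nat_lit 21119649)) p15_25_0 (nat_lit 4) (nat_lit 240) (nat_lit 241) = true := by decide +kernel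
def p15_25_0_241 : pfC (piC [(nat_lit 37722612), (nat_lit 24769386), (nat_lit 18451604), (nat_lit 12447949)] (nat_lit 21119649)) p15_25_0 (nat_lit 4) (nat_lit 241) (nat_lit 242) = true := by decide +kernel
def p15_25_0_242 : pfC (piC [(nat_lit 37722612), (nat_lit 24769386), (nat_lit 18451604), (nat_lit 12447949)] (nat_lit 21119649)) p15_25_0 (nat_lit 4) (nat_lit 242) (nat_lit 243) = true := by decide +kernel
def p15_25_0_243 : pfC (piC [(nat_lit 37722612), (nat_lit 24769386), (nat_lit 18451604), (nat_lit 12447949)] (nat_lit 21119649)) p15_25_0 (nat_lit 4) (nat_lit 243) (nat_lit 244) = true := by decide +kernel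
def p15_25_0_244 : pfC (piC [(nat_lit 37722612), (nat_lit 24769386), (nat_lit 18451604), (nat_lit 12447949)] (nat_lit 21119649)) p15_25_0 (nat_lit 4) (nat_lit 244) (nat_lit 245) = true := by decide +kernel
def p15_25_0_245 : pfC (piC [(nat_lit 37722612), (nat_lit 24769386), (nat_lit 18451604), (nat_lit 12447949)] (nat_lit 21119649)) p15_25_0 (nat_lit 4) (nat_lit 245) (nat_lit 246) = true := by decide +kernel
def p15_25_0_246 : pfC (piC [(nat_lit 37722612), (nat_lit 24769386), (nat_lit 18451604), (nat_lit 12447949)] (nat_lit 21119649)) p15_25_0 (nat_lit 4) (nat_lit 246) (nat_lit 247) = true := by decide +kernel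
def p15_25_0_247 : pfC (piC [(nat_lit 37722612), (nat_lit 24769386), (nat_lit 18451604), (nat_lit 12447949)] (nat_lit 21119649)) p15_25_0 (nat_lit 4) (nat_lit 247) (nat_lit 248) = true := by decide +kernel
def p15_25_0_248 : pfC (piC [(nat_lit 37722612), (nat_lit 24769386), (nat_lit 18451604), (nat_lit 12447949)] (nat_lit 21119649)) p15_25_0 (nat_lit 4) (nat_lit 248) (nat_lit 249) = true := by decide +kernel
def p15_25_0_249 : pfC (piC [(nat_lit 37722612), (nat_lit 24769386), (nat_lit 18451604), (nat_lit 12447949)] (nat_lit 21119649)) p15_25_0 (nat_lit 4) (nat_lit 249) (nat_lit 250) = true := by decide +kernel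
def p15_25_0_250 : pfC (piC [(nat_lit 37722612), (nat_lit 24769386), (nat_lit 18451604), (nat_lit 12447949)] (nat_lit 21119649)) p15_25_0 (nat_lit 4) (nat_lit 250) (nat_lit 251) = true := by decide +kernel
def p15_25_0_251 : pfC (piC [(nat_lit 37722612), (nat_lit 24769386), (nat_lit 18451604), (nat_lit 12447949)] (nat_lit 21119649)) p15_25_0 (nat_lit 4) (nat_lit 251) (nat_lit 252) = true := by decide +kernel
def p15_25_0_252 : pfC (piC [(nat_lit 37722612), (nat_lit 24769386), (nat_lit 18451604), (nat_lit 12447949)] (nat_lit 21119649)) p15_25_0 (nat_lit 4) (nat_lit 252) (nat_lit 253) = true := by decide +kernel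
def p15_25_0_253 : pfC (piC [(nat_lit 37722612), (nat_lit 24769386), (nat_lit 18451604), (nat_lit 12447949)] (nat_lit 21119649)) p15_25_0 (nat_lit 4) (nat_lit 253) (nat_lit 254) = true := by decide +kernel
def p15_25_0_254 : pfC (piC [(nat_lit 37722612), (nat_lit 24769386), (nat_lit 18451604), (nat_lit 12447949)] (nat_lit 21119649)) p15_25_0 (nat_lit 4) (nat_lit 254) (nat_lit 255) = true := by decide +kernel
def p15_25_0_255 : pfC (piC [(nat_lit 37722612), (nat_lit 24769386), (nat_lit 18451604), (nat_lit 12447949)] (nat_lit 21119649)) p15_25_0 (nat_lit 4) (nat_lit 255) (nat_lit 256) = true := by decide +kernel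
def p15_25_0_256 : pfC (piC [(nat_lit 37722612), (nat_lit 24769386), (nat_lit 18451604), (nat_lit 12447949)] (nat_lit 21119649)) p15_25_0 (nat_lit 4) (nat_lit 256) (nat_lit 257) = true := by decide +kernel
def p15_25_0_257 : pfC (piC [(nat_lit 37722612), (nat_lit 24769386), (nat_lit 18451604), (nat_lit 12447949)] (nat_lit 21119649)) p15_25_0 (nat_lit 4) (nat_lit 257) (nat_lit 258) = true := by decide +kernel
def p15_25_0_258 : pfC (piC [(nat_lit 37722612), (nat_lit 24769386), (nat_lit 18451604), (nat_lit 12447949)] (nat_lit 21119649)) p15_25_0 (nat_lit 4) (nat_lit 258) (nat_lit 259) = true := by decide +kernel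
def p15_25_0_259 : pfC (piC [(nat_lit 37722612), (nat_lit 24769386), (nat_lit 18451604), (nat_lit 12447949)] (nat_lit 21119649)) p15_25_0 (nat_lit 4) (nat_lit 259) (nat_lit 260) = true := by decide +kernel
def p15_25_0_260 : pfC (piC [(nat_lit 37722612), (nat_lit 24769386), (nat_lit 18451604), (nat_lit 12447949)] (nat_lit 21119649)) p15_25_0 (nat_lit 4) (nat_lit 260) (nat_lit 261) = true := by decide +kernel
def p15_25_0_261 : pfC (piC [(nat_lit 37722612), (nat_lit 24769386), (nat_lit 18451604), (nat_lit 12447949)] (nat_lit 21119649)) p15_25_0 (nat_lit 4) (nat_lit 261) (nat_lit 262) = true := by decide +kernel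
def p15_25_0_262 : pfC (piC [(nat_lit 37722612), (nat_lit 24769386), (nat_lit 18451604), (nat_lit 12447949)] (nat_lit 21119649)) p15_25_0 (nat_lit 4) (nat_lit 262) (nat_lit 263) = true := by decide +kernel
def p15_25_0_263 : pfC (piC [(nat_lit 37722612), (nat_lit 24769386), (nat_lit 18451604), (nat_lit 12447949)] (nat_lit 21119649)) p15_25_0 (nat_lit 4) (nat_lit 263) (nat_lit 264) = true := by decide +kernel
def p15_25_0_264 : pfC (piC [(nat_lit 37722612), (nat_lit 24769386), (nat_lit 18451604), (nat_lit 12447949)] (nat_lit 21119649)) p15_25_0 (nat_lit 4) (nat_lit 264) (nat_lit 265) = true := by decide +kernel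
def p15_25_0_265 : pfC (piC [(nat_lit 37722612), (nat_lit 24769386), (nat_lit 18451604), (nat_lit 12447949)] (nat_lit 21119649)) p15_25_0 (nat_lit 4) (nat_lit 265) (nat_lit 266) = true := by decide +kernel
def p15_25_0_266 : pfC (piC [(nat_lit 37722612), (nat_lit 24769386), (nat_lit 18451604), (nat_lit 12447949)] (nat_lit 21119649)) p15_25_0 (nat_lit 4) (nat_lit 266) (nat_lit 267) = true := by decide +kernel
def p15_25_0_267 : pfC (piC [(nat_lit 37722612), (nat_lit 24769386), (nat_lit 18451604), (nat_lit 12447949)] (nat_lit 21119649)) p15_25_0 (nat_lit 4) (nat_lit 267) (nat_lit 268) = true := by decide +kernel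
def p15_25_0_268 : pfC (piC [(nat_lit 37722612), (nat_lit 24769386), (nat_lit 18451604), (nat_lit 12447949)] (nat_lit 21119649)) p15_25_0 (nat_lit 4) (nat_lit 268) (nat_lit 269) = true := by decide +kernel
def p15_25_0_269 : pfC (piC [(nat_lit 37722612), (nat_lit 24769386), (nat_lit 18451604), (nat_lit 12447949)] (nat_lit 21119649)) p15_25_0 (nat_lit 4) (nat_lit 269) (nat_lit 270) = true := by decide +kernel
def p15_25_0_270 : pfC (piC [(nat_lit 37722612), (nat_lit 24769386), (nat_lit 18451604), (nat_lit 12447949)] (nat_lit 21119649)) p15_25_0 (nat_lit 4) (nat_lit 270) (nat_lit 271) = true := by decide +kernel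
def p15_25_0_271 : pfC (piC [(nat_lit 37722612), (nat_lit 24769386), (nat_lit 18451604), (nat_lit 12447949)] (nat_lit 21119649)) p15_25_0 (nat_lit 4) (nat_lit 271) (nat_lit 272) = true := by decide +kernel
def p15_25_0_272 : pfC (piC [(nat_lit 37722612), (nat_lit 24769386), (nat_lit 18451604), (nat_lit 12447949)] (nat_lit 21119649)) p15_25_0 (nat_lit 4) (nat_lit 272) (nat_lit 273) = true := by decide +kernel
def p15_25_0_273 : pfC (piC [(nat_lit 37722612), (nat_lit 24769386), (nat_lit 18451604), (nat_lit 12447949)] (nat_lit 21119649)) p15_25_0 (nat_lit 4) (nat_lit 273) (nat_lit 274) = true := by decide +kernel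
def p15_25_0_274 : pfC (piC [(nat_lit 37722612), (nat_lit 24769386), (nat_lit 18451604), (nat_lit 12447949)] (nat_lit 21119649)) p15_25_0 (nat_lit 4) (nat_lit 274) (nat_lit 275) = true := by decide +kernel
def p15_25_0_275 : pfC (piC [(nat_lit 37722612), (nat_lit 24769386), (nat_lit 18451604), (nat_lit 12447949)] (nat_lit 21119649)) p15_25_0 (nat_lit 4) (nat_lit 275) (nat_lit 276) = true := by decide +kernel
def p15_25_0_276 : pfC (piC [(nat_lit 37722612), (nat_lit 24769386), (nat_lit 18451604), (nat_lit 12447949)] (nat_lit 21119649)) p15_25_0 (nat_lit 4) (nat_lit 276) (nat_lit 277) = true := by decide +kernel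
def p15_25_0_277 : pfC (piC [(nat_lit 37722612), (nat_lit 24769386), (nat_lit 18451604), (nat_lit 12447949)] (nat_lit 21119649)) p15_25_0 (nat_lit 4) (nat_lit 277) (nat_lit 278) = true := by decide +kernel
def p15_25_0_278 : pfC (piC [(nat_lit 37722612), (nat_lit 24769386), (nat_lit 18451604), (nat_lit 12447949)] (nat_lit 21119649)) p15_25_0 (nat_lit 4) (nat_lit 278) (nat_lit 279) = true := by decide +kernel
def p15_25_0_279 : pfC (piC [(nat_lit 37722612), (nat_lit 24769386), (nat_lit 18451604), (nat_lit 12447949)] (nat_lit 21119649)) p15_25_0 (nat_lit 4) (nat_lit 279) (nat_lit 280) = true := by decide +kernel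
def p15_25_0_280 : pfC (piC [(nat_lit 37722612), (nat_lit 24769386), (nat_lit 18451604), (nat_lit 12447949)] (nat_lit 21119649)) p15_25_0 (nat_lit 4) (nat_lit 280) (nat_lit 281) = true := by decide +kernel
def p15_25_0_281 : pfC (piC [(nat_lit 37722612), (nat_lit 24769386), (nat_lit 18451604), (nat_lit 12447949)] (nat_lit 21119649)) p15_25_0 (nat_lit 4) (nat_lit 281) (nat_lit 282) = true := by decide +kernel
def p15_25_0_282 : pfC (piC [(nat_lit 37722612), (nat_lit 24769386), (nat_lit 18451604), (nat_lit 12447949)] (nat_lit 21119649)) p15_25_0 (nat_lit 4) (nat_lit 282) (nat_lit 283) = true := by decide +kernel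
def p15_25_0_283 : pfC (piC [(nat_lit 37722612), (nat_lit 24769386), (nat_lit 18451604), (nat_lit 12447949)] (nat_lit 21119649)) p15_25_0 (nat_lit 4) (nat_lit 283) (nat_lit 284) = true := by decide +kernel
def p15_25_0_284 : pfC (piC [(nat_lit 37722612), (nat_lit 24769386), (nat_lit 18451604), (nat_lit 12447949)] (nat_lit 21119649)) p15_25_0 (nat_lit 4) (nat_lit 284) (nat_lit 285) = true := by decide +kernel
def p15_25_0_285 : pfC (piC [(nat_lit 37722612), (nat_lit 24769386), (nat_lit 18451604), (nat_lit 12447949)] (nat_lit 21119649)) p15_25_0 (nat_lit 4) (nat_lit 285) (nat_lit 286) = true := by decide +kernel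
def p15_25_0_286 : pfC (piC [(nat_lit 37722612), (nat_lit 24769386), (nat_lit 18451604), (nat_lit 12447949)] (nat_lit 21119649)) p15_25_0 (nat_lit 4) (nat_lit 286) (nat_lit 287) = true := by decide +kernel
def p15_25_0_287 : pfC (piC [(nat_lit 37722612), (nat_lit 24769386), (nat_lit 18451604), (nat_lit 12447949)] (nat_lit 21119649)) p15_25_0 (nat_lit 4) (nat_lit 287) (nat_lit 288) = true := by decide +kernel
def p15_25_0_288 : pfC (piC [(nat_lit 37722612), (nat_lit 24769386), (nat_lit 18451604), (nat_lit 12447949)] (nat_lit 21119649)) p15_25_0 (nat_lit 4) (nat_lit 288) (nat_lit 289) = true := by decide +kernel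
def p15_25_0_289 : pfC (piC [(nat_lit 37722612), (nat_lit 24769386), (nat_lit 18451604), (nat_lit 12447949)] (nat_lit 21119649)) p15_25_0 (nat_lit 4) (nat_lit 289) (nat_lit 290) = true := by decide +kernel
def p15_25_0_290 : pfC (piC [(nat_lit 37722612), (nat_lit 24769386), (nat_lit 18451604), (nat_lit 12447949)] (nat_lit 21119649)) p15_25_0 (nat_lit 4) (nat_lit 290) (nat_lit 291) = true := by decide +kernel
def p15_25_0_291 : pfC (piC [(nat_lit 37722612), (nat_lit 24769386), (nat_lit 18451604), (nat_lit 12447949)] (nat_lit 21119649)) p15_25_0 (nat_lit 4) (nat_lit 291) (nat_lit 292) = true := by decide +kernel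
def p15_25_0_292 : pfC (piC [(nat_lit 37722612), (nat_lit 24769386), (nat_lit 18451604), (nat_lit 12447949)] (nat_lit 21119649)) p15_25_0 (nat_lit 4) (nat_lit 292) (nat_lit 293) = true := by decide +kernel
def p15_25_0_293 : pfC (piC [(nat_lit 37722612), (nat_lit 24769386), (nat_lit 18451604), (nat_lit 12447949)] (nat_lit 21119649)) p15_25_0 (nat_lit 4) (nat_lit 293) (nat_lit 294) = true := by decide +kernel
def p15_25_0_294 : pfC (piC [(nat_lit 37722612), (nat_lit 24769386), (nat_lit 18451604), (nat_lit 12447949)] (nat_lit 21119649)) p15_25_0 (nat_lit 4) (nat_lit 294) (nat_lit 295) = true := by decide +kernel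
def p15_25_0_295 : pfC (piC [(nat_lit 37722612), (nat_lit 24769386), (nat_lit 18451604), (nat_lit 12447949)] (nat_lit 21119649)) p15_25_0 (nat_lit 4) (nat_lit 295) (nat_lit 296) = true := by decide +kernel
def p15_25_0_296 : pfC (piC [(nat_lit 37722612), (nat_lit 24769386), (nat_lit 18451604), (nat_lit 12447949)] (nat_lit 21119649)) p15_25_0 (nat_lit 4) (nat_lit 296) (nat_lit 297) = true := by decide +kernel
def p15_25_0_297 : pfC (piC [(nat_lit 37722612), (nat_lit 24769386), (nat_lit 18451604), (nat_lit 12447949)] (nat_lit 21119649)) p15_25_0 (nat_lit 4) (nat_lit 297) (nat_lit 298) = true := by decide +kernel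
def p15_25_0_298 : pfC (piC [(nat_lit 37722612), (nat_lit 24769386), (nat_lit 18451604), (nat_lit 12447949)] (nat_lit 21119649)) p15_25_0 (nat_lit 4) (nat_lit 298) (nat_lit 299) = true := by decide +kernel
def p15_25_0_299 : pfC (piC [(nat_lit 37722612), (nat_lit 24769386), (nat_lit 18451604), (nat_lit 12447949)] (nat_lit 21119649)) p15_25_0 (nat_lit 4) (nat_lit 299) (nat_lit 300) = true := by decide +kernel
def p15_25_0_300 : pfC (piC [(nat_lit 37722612), (nat_lit 24769386), (nat_lit 18451604), (nat_lit 12447949)] (nat_lit 21119649)) p15_25_0 (nat_lit 4) (nat_lit 300) (nat_lit 301) = true := by decide +kernel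
def p15_25_0_301 : pfC (piC [(nat_lit 37722612), (nat_lit 24769386), (nat_lit 18451604), (nat_lit 12447949)] (nat_lit 21119649)) p15_25_0 (nat_lit 4) (nat_lit 301) (nat_lit 302) = true := by decide +kernel
def p15_25_0_302 : pfC (piC [(nat_lit 37722612), (nat_lit 24769386), (nat_lit 18451604), (nat_lit 12447949)] (nat_lit 21119649)) p15_25_0 (nat_lit 4) (nat_lit 302) (nat_lit 303) = true := by decide +kernel
def p15_25_0_303 : pfC (piC [(nat_lit 37722612), (nat_lit 24769386), (nat_lit 18451604), (nat_lit 12447949)] (nat_lit 21119649)) p15_25_0 (nat_lit 4) (nat_lit 303) (nat_lit 304) = true := by decide +kernel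
def p15_25_0_304 : pfC (piC [(nat_lit 37722612), (nat_lit 24769386), (nat_lit 18451604), (nat_lit 12447949)] (nat_lit 21119649)) p15_25_0 (nat_lit 4) (nat_lit 304) (nat_lit 305) = true := by decide +kernel
def p15_25_0_305 : pfC (piC [(nat_lit 37722612), (nat_lit 24769386), (nat_lit 18451604), (nat_lit 12447949)] (nat_lit 21119649)) p15_25_0 (nat_lit 4) (nat_lit 305) (nat_lit 306) = true := by decide +kernel
def p15_25_0_306 : pfC (piC [(nat_lit 37722612), (nat_lit 24769386), (nat_lit 18451604), (nat_lit 12447949)] (nat_lit 21119649)) p15_25_0 (nat_lit 4) (nat_lit 306) (nat_lit 307) = true := by decide +kernel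
def p15_25_0_307 : pfC (piC [(nat_lit 37722612), (nat_lit 24769386), (nat_lit 18451604), (nat_lit 12447949)] (nat_lit 21119649)) p15_25_0 (nat_lit 4) (nat_lit 307) (nat_lit 308) = true := by decide +kernel
def p15_25_0_308 : pfC (piC [(nat_lit 37722612), (nat_lit 24769386), (nat_lit 18451604), (nat_lit 12447949)] (nat_lit 21119649)) p15_25_0 (nat_lit 4) (nat_lit 308) (nat_lit 309) = true := by decide +kernel
def p15_25_0_309 : pfC (piC [(nat_lit 37722612), (nat_lit 24769386), (nat_lit 18451604), (nat_lit 12447949)] (nat_lit 21119649)) p15_25_0 (nat_lit 4) (nat_lit 309) (nat_lit 310) = true := by decide +kernel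
def p15_25_0_310 : pfC (piC [(nat_lit 37722612), (nat_lit 24769386), (nat_lit 18451604), (nat_lit 12447949)] (nat_lit 21119649)) p15_25_0 (nat_lit 4) (nat_lit 310) (nat_lit 311) = true := by decide +kernel
def p15_25_0_311 : pfC (piC [(nat_lit 37722612), (nat_lit 24769386), (nat_lit 18451604), (nat_lit 12447949)] (nat_lit 21119649)) p15_25_0 (nat_lit 4) (nat_lit 311) (nat_lit 312) = true := by decide +kernel
def p15_25_0_312 : pfC (piC [(nat_lit 37722612), (nat_lit 24769386), (nat_lit 18451604), (nat_lit 12447949)] (nat_lit 21119649)) p15_25_0 (nat_lit 4) (nat_lit 312) (nat_lit 313) = true := by decide +kernel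
def p15_25_0_313 : pfC (piC [(nat_lit 37722612), (nat_lit 24769386), (nat_lit 18451604), (nat_lit 12447949)] (nat_lit 21119649)) p15_25_0 (nat_lit 4) (nat_lit 313) (nat_lit 314) = true := by decide +kernel
def p15_25_0_314 : pfC (piC [(nat_lit 37722612), (nat_lit 24769386), (nat_lit 18451604), (nat_lit 12447949)] (nat_lit 21119649)) p15_25_0 (nat_lit 4) (nat_lit 314) (nat_lit 315) = true := by decide +kernel
def p15_25_0_315 : pfC (piC [(nat_lit 37722612), (nat_lit 24769386), (nat_lit 18451604), (nat_lit 12447949)] (nat_lit 21119649)) p15_25_0 (nat_lit 4) (nat_lit 315) (nat_lit 316) = true := by decide +kernel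
def p15_25_0_316 : pfC (piC [(nat_lit 37722612), (nat_lit 24769386), (nat_lit 18451604), (nat_lit 12447949)] (nat_lit 21119649)) p15_25_0 (nat_lit 4) (nat_lit 316) (nat_lit 317) = true := by decide +kernel
def p15_25_0_317 : pfC (piC [(nat_lit 37722612), (nat_lit 24769386), (nat_lit 18451604), (nat_lit 12447949)] (nat_lit 21119649)) p15_25_0 (nat_lit 4) (nat_lit 317) (nat_lit 318) = true := by decide +kernel
def p15_25_0_318 : pfC (piC [(nat_lit 37722612), (nat_lit 24769386), (nat_lit 18451604), (nat_lit 12447949)] (nat_lit 21119649)) p15_25_0 (nat_lit 4) (nat_lit 318) (nat_lit 319) = true := by decide +kernel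
def p15_25_0_319 : pfC (piC [(nat_lit 37722612), (nat_lit 24769386), (nat_lit 18451604), (nat_lit 12447949)] (nat_lit 21119649)) p15_25_0 (nat_lit 4) (nat_lit 319) (nat_lit 320) = true := by decide +kernel
def p15_25_0_320 : pfC (piC [(nat_lit 37722612), (nat_lit 24769386), (nat_lit 18451604), (nat_lit 12447949)] (nat_lit 21119649)) p15_25_0 (nat_lit 4) (nat_lit 320) (nat_lit 321) = true := by decide +kernel
def p15_25_0_321 : pfC (piC [(nat_lit 37722612), (nat_lit 24769386), (nat_lit 18451604), (nat_lit 12447949)] (nat_lit 21119649)) p15_25_0 (nat_lit 4) (nat_lit 321) (nat_lit 322) = true := by decide +kernel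
def p15_25_0_322 : pfC (piC [(nat_lit 37722612), (nat_lit 24769386), (nat_lit 18451604), (nat_lit 12447949)] (nat_lit 21119649)) p15_25_0 (nat_lit 4) (nat_lit 322) (nat_lit 323) = true := by decide +kernel
def p15_25_0_323 : pfC (piC [(nat_lit 37722612), (nat_lit 24769386), (nat_lit 18451604), (nat_lit 12447949)] (nat_lit 21119649)) p15_25_0 (nat_lit 4) (nat_lit 323) (nat_lit 324) = true := by decide +kernel
def p15_25_0_324 : pfC (piC [(nat_lit 37722612), (nat_lit 24769386), (nat_lit 18451604), (nat_lit 12447949)] (nat_lit 21119649)) p15_25_0 (nat_lit 4) (nat_lit 324) (nat_lit 325) = true := by decide +kernel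
def p15_25_0_325 : pfC (piC [(nat_lit 37722612), (nat_lit 24769386), (nat_lit 18451604), (nat_lit 12447949)] (nat_lit 21119649)) p15_25_0 (nat_lit 4) (nat_lit 325) (nat_lit 326) = true := by decide +kernel
theorem p15_25_0_T : PfS (PiF n15_25.reverse (nat_lit 21119649)) p15_25_0 (nat_lit 4) [] 0 :=
  pftab_of (los := [(nat_lit 37722612), (nat_lit 24769386), (nat_lit 18451604), (nat_lit 12447949)]) (by decide +kernel) (hi := (nat_lit 326)) (PfP.trans (PfP.trans (PfP.trans (PfP.trans (PfP.trans (PfP.trans (PfP.trans (PfP.trans (PfP.trans (PfP.trans (PfP.trans (PfP.trans (PfP.trans (PfP.trans (PfP.trans (PfP.trans (PfP.trans (PfP.trans (PfP.trans (PfP.trans (PfP.trans (PfP.trans (PfP.trans (PfP.trans (PfP.trans (PfP.trans (PfP.trans (PfP.trans (PfP.trans (PfP.trans (PfP.trans (PfP.trans (PfP.trans (PfP.trans (PfP.trans (PfP.trans (PfP.trans (PfP.trans (PfP.trans (PfP.trans (PfP.trans (PfP.trans (PfP.trans (PfP.trans (PfP.trans (PfP.trans (PfP.trans (PfP.trans (PfP.trans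 (PfP.trans (PfP.trans (PfP.trans (PfP.trans (PfP.trans (PfP.trans (PfP.trans (PfP.trans (PfP.trans (PfP.trans (PfP.trans (PfP.trans (PfP.trans (PfP.trans (PfP.trans (PfP.trans (PfP.trans (PfP.trans (PfP.trans (PfP.trans (PfP.trans (PfP.trans (PfP.trans (PfP.trans (PfP.trans (PfP.trans (PfP.trans (PfP.trans (PfP.trans (PfP.trans (PfP.trans (PfP.trans (PfP.trans (PfP.trans (PfP.trans (PfP.trans (PfP.trans (PfP.trans (PfP.trans (PfP.trans (PfP.trans (PfP.trans (PfP.trans (PfP.trans (PfP.trans (PfP.trans (PfP.trans (PfP.trans (PfP.trans (PfP.trans (PfP.trans (PfP.trans (PfP.trans (PfP.trans (PfP.trans (PfP.trans (PfP.trans (PfP.trans (PfP.trans (PfP.trans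
 (PfP.trans (PfP.trans (PfP.trans (PfP.trans (PfP.trans (PfP.trans (PfP.trans (PfP.trans (PfP.trans (PfP.trans (PfP.trans (PfP.trans (PfP.trans (PfP.trans (PfP.trans (PfP.trans (PfP.trans (PfP.trans (PfP.trans (PfP.trans (PfP.trans (PfP.trans (PfP.trans (PfP.trans (PfP.trans (PfP.trans (PfP.trans (PfP.trans (PfP.trans (PfP.trans (PfP.trans (PfP.trans (PfP.trans (PfP.trans (PfP.trans (PfP.trans (PfP.trans (PfP.trans (PfP.trans (PfP.trans (PfP.trans (PfP.trans (PfP.trans (PfP.trans (PfP.trans (PfP.trans (PfP.trans (PfP.trans (PfP.trans (PfP.trans (PfP.trans (PfP.trans (PfP.trans (PfP.trans (PfP.trans (PfP.trans (PfP.trans (PfP.trans (PfP.trans (PfP.trans (PfP.trans (PfP.trans (PfP.trans (PfP.trans (PfP.trans (PfP.trans (PfP.trans (PfP.trans (PfP.trans (PfP.trans (PfP.trans (PfP.trans (PfP.trans (PfP.trans (PfP.trans (PfP.trans (PfP.trans (PfP.trans (PfP.trans (PfP.trans (PfP.trans (PfP.trans (PfP.trans (PfP.trans (PfP.trans (PfP.trans (PfP.trans (PfP.trans (PfP.trans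 (PfP.trans (PfP.trans (PfP.trans (PfP.trans (PfP.trans (PfP.trans (PfP.trans (PfP.trans (PfP.trans (PfP.trans (PfP.trans (PfP.trans (PfP.trans (PfP.trans (PfP.trans (PfP.trans (PfP.trans (PfP.trans (PfP.trans (PfP.trans
 (PfP.trans (PfP.trans (PfP.trans (PfP.trans (PfP.trans (PfP.trans (PfP.trans (PfP.trans (PfP.trans (PfP.trans (PfP.trans (PfP.trans (PfP.trans (PfP.trans (PfP.trans (PfP.trans (PfP.trans (PfP.trans (PfP.trans (PfP.trans (PfP.trans (PfP.trans (PfP.trans (PfP.trans (PfP.trans (PfP.trans (PfP.trans (PfP.trans (PfP.trans (PfP.trans (PfP.trans (PfP.trans (PfP.trans (PfP.trans (PfP.trans (PfP.trans (PfP.trans (PfP.trans (PfP.trans (PfP.trans (PfP.trans (PfP.trans (PfP.trans (PfP.trans (PfP.trans (PfP.trans (PfP.trans (PfP.trans (PfP.trans (PfP.trans (PfP.trans (PfP.trans (PfP.trans (PfP.trans (PfP.trans (PfP.trans (PfP.trans (PfP.trans (PfP.trans (PfP.trans (PfP.trans (PfP.trans (PfP.trans (PfP.trans (PfP.trans (PfP.trans (PfP.trans (PfP.trans (PfP.trans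 (PfP.trans (PfP.trans (PfP.trans (PfP.trans (PfP.trans (PfP.trans (PfP.trans (PfP.trans (PfP.trans (PfP.trans (PfP.trans (PfP.trans (PfP.trans (PfP.trans (PfP.trans (PfP.trans (PfP.trans (PfP.trans (PfP.trans (PfP.trans (PfP.trans (PfP.trans (PfP.trans (PfP.trans (PfP.trans (PfP.trans (PfP.trans (PfP.trans (PfP.trans (PfP.trans (PfP.trans (PfP.trans (PfP.trans (PfP.trans (PfP.trans (PfP.trans (PfP.trans (PfP.trans (pfC_sound p15_25_0_0)
 (pfC_sound p15_25_0_1)) (pfC_sound p15_25_0_2)) (pfC_sound p15_25_0_3)) (pfC_sound p15_25_0_4)) (pfC_sound p15_25_0_5)) (pfC_sound p15_25_0_6)) (pfC_sound p15_25_0_7)) (pfC_sound p15_25_0_8)) (pfC_sound p15_25_0_9)) (pfC_sound p15_25_0_10)) (pfC_sound p15_25_0_11)) (pfC_sound p15_25_0_12)) (pfC_sound p15_25_0_13)) (pfC_sound p15_25_0_14)) (pfC_sound p15_25_0_15)) (pfC_sound p15_25_0_16)) (pfC_sound p15_25_0_17)) (pfC_sound p15_25_0_18)) (pfC_sound p15_25_0_19)) (pfC_sound p15_25_0_20)) (pfC_sound p15_25_0_21)) (pfC_sound p15_25_0_22))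 (pfC_sound p15_25_0_23)) (pfC_sound p15_25_0_24)) (pfC_sound p15_25_0_25)) (pfC_sound p15_25_0_26)) (pfC_sound p15_25_0_27)) (pfC_sound p15_25_0_28)) (pfC_sound p15_25_0_29)) (pfC_sound p15_25_0_30)) (pfC_sound p15_25_0_31)) (pfC_sound p15_25_0_32)) (pfC_sound p15_25_0_33)) (pfC_sound p15_25_0_34)) (pfC_sound p15_25_0_35)) (pfC_sound p15_25_0_36)) (pfC_sound p15_25_0_37)) (pfC_sound p15_25_0_38)) (pfC_sound p15_25_0_39)) (pfC_sound p15_25_0_40)) (pfC_sound p15_25_0_41)) (pfC_sound p15_25_0_42)) (pfC_sound p15_25_0_43)) (pfC_sound p15_25_0_44)) (pfC_sound p15_25_0_45)) (pfC_sound p15_25_0_46)) (pfC_sound p15_25_0_47)) (pfC_sound p15_25_0_48))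
 (pfC_sound p15_25_0_49)) (pfC_sound p15_25_0_50)) (pfC_sound p15_25_0_51)) (pfC_sound p15_25_0_52)) (pfC_sound p15_25_0_53)) (pfC_sound p15_25_0_54)) (pfC_sound p15_25_0_55)) (pfC_sound p15_25_0_56)) (pfC_sound p15_25_0_57)) (pfC_sound p15_25_0_58)) (pfC_sound p15_25_0_59)) (pfC_sound p15_25_0_60)) (pfC_sound p15_25_0_61)) (pfC_sound p15_25_0_62)) (pfC_sound p15_25_0_63)) (pfC_sound p15_25_0_64)) (pfC_sound p15_25_0_65)) (pfC_sound p15_25_0_66)) (pfC_sound p15_25_0_67)) (pfC_sound p15_25_0_68)) (pfC_sound p15_25_0_69)) (pfC_sound p15_25_0_70)) (pfC_sound p15_25_0_71)) (pfC_sound p15_25_0_72)) (pfC_sound p15_25_0_73)) (pfC_sound p15_25_0_74)) (pfC_sound p15_25_0_75)) (pfC_sound p15_25_0_76)) (pfC_sound p15_25_0_77)) (pfC_sound p15_25_0_78)) (pfC_sound p15_25_0_79)) (pfC_sound p15_25_0_80)) (pfC_sound p15_25_0_81)) (pfC_sound p15_25_0_82)) (pfC_sound p15_25_0_83)) (pfC_sound p15_25_0_84)) (pfC_sound p15_25_0_85)) (pfC_sound p15_25_0_86)) (pfC_sound p15_25_0_87)) (pfC_sound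 p15_25_0_88)) (pfC_sound p15_25_0_89)) (pfC_sound p15_25_0_90)) (pfC_sound p15_25_0_91)) (pfC_sound p15_25_0_92)) (pfC_sound p15_25_0_93)) (pfC_sound p15_25_0_94)) (pfC_sound p15_25_0_95)) (pfC_sound p15_25_0_96))
 (pfC_sound p15_25_0_97)) (pfC_sound p15_25_0_98)) (pfC_sound p15_25_0_99)) (pfC_sound p15_25_0_100)) (pfC_sound p15_25_0_101)) (pfC_sound p15_25_0_102)) (pfC_sound p15_25_0_103)) (pfC_sound p15_25_0_104)) (pfC_sound p15_25_0_105)) (pfC_sound p15_25_0_106)) (pfC_sound p15_25_0_107)) (pfC_sound p15_25_0_108)) (pfC_sound p15_25_0_109)) (pfC_sound p15_25_0_110)) (pfC_sound p15_25_0_111)) (pfC_sound p15_25_0_112)) (pfC_sound p15_25_0_113)) (pfC_sound p15_25_0_114)) (pfC_sound p15_25_0_115)) (pfC_sound p15_25_0_116)) (pfC_sound p15_25_0_117)) (pfC_sound p15_25_0_118)) (pfC_sound p15_25_0_119)) (pfC_sound p15_25_0_120)) (pfC_sound p15_25_0_121)) (pfC_sound p15_25_0_122)) (pfC_sound p15_25_0_123)) (pfC_sound p15_25_0_124)) (pfC_sound p15_25_0_125)) (pfC_sound p15_25_0_126))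 (pfC_sound p15_25_0_127)) (pfC_sound p15_25_0_128)) (pfC_sound p15_25_0_129)) (pfC_sound p15_25_0_130)) (pfC_sound p15_25_0_131)) (pfC_sound p15_25_0_132)) (pfC_sound p15_25_0_133)) (pfC_sound p15_25_0_134)) (pfC_sound p15_25_0_135)) (pfC_sound p15_25_0_136)) (pfC_sound p15_25_0_137)) (pfC_sound p15_25_0_138)) (pfC_sound p15_25_0_139)) (pfC_sound p15_25_0_140)) (pfC_sound p15_25_0_141)) (pfC_sound p15_25_0_142))
 (pfC_sound p15_25_0_143)) (pfC_sound p15_25_0_144)) (pfC_sound p15_25_0_145)) (pfC_sound p15_25_0_146)) (pfC_sound p15_25_0_147)) (pfC_sound p15_25_0_148)) (pfC_sound p15_25_0_149)) (pfC_sound p15_25_0_150)) (pfC_sound p15_25_0_151)) (pfC_sound p15_25_0_152)) (pfC_sound p15_25_0_153)) (pfC_sound p15_25_0_154)) (pfC_sound p15_25_0_155)) (pfC_sound p15_25_0_156)) (pfC_sound p15_25_0_157)) (pfC_sound p15_25_0_158)) (pfC_sound p15_25_0_159)) (pfC_sound p15_25_0_160)) (pfC_sound p15_25_0_161)) (pfC_sound p15_25_0_162)) (pfC_sound p15_25_0_163)) (pfC_sound p15_25_0_164))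 (pfC_sound p15_25_0_165)) (pfC_sound p15_25_0_166)) (pfC_sound p15_25_0_167)) (pfC_sound p15_25_0_168)) (pfC_sound p15_25_0_169)) (pfC_sound p15_25_0_170)) (pfC_sound p15_25_0_171)) (pfC_sound p15_25_0_172)) (pfC_sound p15_25_0_173)) (pfC_sound p15_25_0_174)) (pfC_sound p15_25_0_175)) (pfC_sound p15_25_0_176)) (pfC_sound p15_25_0_177)) (pfC_sound p15_25_0_178)) (pfC_sound p15_25_0_179)) (pfC_sound p15_25_0_180)) (pfC_sound p15_25_0_181)) (pfC_sound p15_25_0_182)) (pfC_sound p15_25_0_183)) (pfC_sound p15_25_0_184)) (pfC_sound p15_25_0_185)) (pfC_sound p15_25_0_186)) (pfC_sound p15_25_0_187)) (pfC_sound p15_25_0_188))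
 (pfC_sound p15_25_0_189)) (pfC_sound p15_25_0_190)) (pfC_sound p15_25_0_191)) (pfC_sound p15_25_0_192)) (pfC_sound p15_25_0_193)) (pfC_sound p15_25_0_194)) (pfC_sound p15_25_0_195)) (pfC_sound p15_25_0_196)) (pfC_sound p15_25_0_197)) (pfC_sound p15_25_0_198)) (pfC_sound p15_25_0_199)) (pfC_sound p15_25_0_200)) (pfC_sound p15_25_0_201)) (pfC_sound p15_25_0_202)) (pfC_sound p15_25_0_203)) (pfC_sound p15_25_0_204)) (pfC_sound p15_25_0_205)) (pfC_sound p15_25_0_206)) (pfC_sound p15_25_0_207)) (pfC_sound p15_25_0_208)) (pfC_sound p15_25_0_209)) (pfC_sound p15_25_0_210)) (pfC_sound p15_25_0_211)) (pfC_sound p15_25_0_212)) (pfC_sound p15_25_0_213)) (pfC_sound p15_25_0_214)) (pfC_sound p15_25_0_215)) (pfC_sound p15_25_0_216)) (pfC_sound p15_25_0_217)) (pfC_sound p15_25_0_218)) (pfC_sound p15_25_0_219)) (pfC_sound p15_25_0_220)) (pfC_sound p15_25_0_221)) (pfC_sound p15_25_0_222)) (pfC_sound p15_25_0_223)) (pfC_sound p15_25_0_224)) (pfC_sound p15_25_0_225)) (pfC_sound p15_25_0_226))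 (pfC_sound p15_25_0_227)) (pfC_sound p15_25_0_228)) (pfC_sound p15_25_0_229)) (pfC_sound p15_25_0_230)) (pfC_sound p15_25_0_231)) (pfC_sound p15_25_0_232)) (pfC_sound p15_25_0_233)) (pfC_sound p15_25_0_234))
 (pfC_sound p15_25_0_235)) (pfC_sound p15_25_0_236)) (pfC_sound p15_25_0_237)) (pfC_sound p15_25_0_238)) (pfC_sound p15_25_0_239)) (pfC_sound p15_25_0_240)) (pfC_sound p15_25_0_241)) (pfC_sound p15_25_0_242)) (pfC_sound p15_25_0_243)) (pfC_sound p15_25_0_244)) (pfC_sound p15_25_0_245)) (pfC_sound p15_25_0_246)) (pfC_sound p15_25_0_247)) (pfC_sound p15_25_0_248)) (pfC_sound p15_25_0_249)) (pfC_sound p15_25_0_250)) (pfC_sound p15_25_0_251)) (pfC_sound p15_25_0_252)) (pfC_sound p15_25_0_253)) (pfC_sound p15_25_0_254)) (pfC_sound p15_25_0_255)) (pfC_sound p15_25_0_256)) (pfC_sound p15_25_0_257)) (pfC_sound p15_25_0_258)) (pfC_sound p15_25_0_259)) (pfC_sound p15_25_0_260)) (pfC_sound p15_25_0_261)) (pfC_sound p15_25_0_262)) (pfC_sound p15_25_0_263)) (pfC_sound p15_25_0_264))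 (pfC_sound p15_25_0_265)) (pfC_sound p15_25_0_266)) (pfC_sound p15_25_0_267)) (pfC_sound p15_25_0_268)) (pfC_sound p15_25_0_269)) (pfC_sound p15_25_0_270)) (pfC_sound p15_25_0_271)) (pfC_sound p15_25_0_272)) (pfC_sound p15_25_0_273)) (pfC_sound p15_25_0_274)) (pfC_sound p15_25_0_275)) (pfC_sound p15_25_0_276)) (pfC_sound p15_25_0_277)) (pfC_sound p15_25_0_278)) (pfC_sound p15_25_0_279)) (pfC_sound p15_25_0_280))
 (pfC_sound p15_25_0_281)) (pfC_sound p15_25_0_282)) (pfC_sound p15_25_0_283)) (pfC_sound p15_25_0_284)) (pfC_sound p15_25_0_285)) (pfC_sound p15_25_0_286)) (pfC_sound p15_25_0_287)) (pfC_sound p15_25_0_288)) (pfC_sound p15_25_0_289)) (pfC_sound p15_25_0_290)) (pfC_sound p15_25_0_291)) (pfC_sound p15_25_0_292)) (pfC_sound p15_25_0_293)) (pfC_sound p15_25_0_294)) (pfC_sound p15_25_0_295)) (pfC_sound p15_25_0_296)) (pfC_sound p15_25_0_297)) (pfC_sound p15_25_0_298)) (pfC_sound p15_25_0_299)) (pfC_sound p15_25_0_300)) (pfC_sound p15_25_0_301)) (pfC_sound p15_25_0_302))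 (pfC_sound p15_25_0_303)) (pfC_sound p15_25_0_304)) (pfC_sound p15_25_0_305)) (pfC_sound p15_25_0_306)) (pfC_sound p15_25_0_307)) (pfC_sound p15_25_0_308)) (pfC_sound p15_25_0_309)) (pfC_sound p15_25_0_310)) (pfC_sound p15_25_0_311)) (pfC_sound p15_25_0_312)) (pfC_sound p15_25_0_313)) (pfC_sound p15_25_0_314)) (pfC_sound p15_25_0_315)) (pfC_sound p15_25_0_316)) (pfC_sound p15_25_0_317)) (pfC_sound p15_25_0_318)) (pfC_sound p15_25_0_319)) (pfC_sound p15_25_0_320)) (pfC_sound p15_25_0_321)) (pfC_sound p15_25_0_322)) (pfC_sound p15_25_0_323)) (pfC_sound p15_25_0_324)) (pfC_sound p15_25_0_325)) (by decide +kernel)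

def z15_25_0 : zOK yB15_25 (nat_lit 0) (nat_lit 0) (nat_lit 400) (nat_lit 21119649) (nat_lit 10526835) = true := by decide +kernel
def g15_25_0 : gOK yB15_25.x P15_25 (nat_lit 1413) (q15_25 :: r15_25) (nat_lit 0) (nat_lit 0) (nat_lit 1) (nat_lit 400) (nat_lit 0) (nat_lit 11000000) (nat_lit 12712500) (nat_lit 12712500) [(nat_lit 800), (nat_lit 1400), (nat_lit 2200)] = true := by decide +kernel
def v15_25_0 : ivC P15_25 s15_25 w15_25 n15_25 (nat_lit 4) (nat_lit 5370) (nat_lit 0) (nat_lit 0) f160_1_0 f168_1_0 (nat_lit 1) (nat_lit 400) f160_1_400 f168_1_400 (nat_lit 21119649) (nat_lit 10526835) p15_25_0 = true := by decide +kernel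
def p15_25_1 : PF := (PF.cons (PF.cons (PF.cons (PF.cons (PF.leaf (nat_lit 2123029) (nat_lit 10139897) (nat_lit 56968915) (nat_lit 10139897) [(nat_lit 0), (nat_lit 0), (nat_lit 0), (nat_lit 0)]) (PF.cons (PF.leaf (nat_lit 2310885) (nat_lit 328478) (nat_lit 56615554) (nat_lit 10164780) [(nat_lit 328478), (nat_lit 0), (nat_lit 0), (nat_lit 0)]) (PF.cons (PF.leaf (nat_lit 2532798) (nat_lit 357545) (nat_lit 56202650) (nat_lit 10191070) [(nat_lit 357545), (nat_lit 0), (nat_lit 0), (nat_lit 0)]) (PF.cons (PF.leaf (nat_lit 2782166) (nat_lit 383402) (nat_lit 55741539) (nat_lit 10217066) [(nat_lit 383402), (nat_lit 0), (nat_lit 0), (nat_lit 0)]) (PF.cons (PF.leaf (nat_lit 3055027) (nat_lit 406742) (nat_lit 55240346) (nat_lit 10241495) [(nat_lit 406742), (nat_lit 0), (nat_lit 0), (nat_lit 0)]) (PF.cons (PF.leaf (nat_lit 3348289) (nat_lit 428003) (nat_lit 54705415) (nat_lit 10263380) [(nat_lit 428003), (nat_lit 0), (nat_lit 0), (nat_lit 0)]) (PF.cons (PF.leaf (nat_lit 3659396)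 (nat_lit 447478) (nat_lit 54141964) (nat_lit 10281976) [(nat_lit 447478), (nat_lit 0), (nat_lit 0), (nat_lit 0)]) (PF.cons (PF.leaf (nat_lit 3986169) (nat_lit 465379) (nat_lit 53554437) (nat_lit 10296720) [(nat_lit 465379), (nat_lit 0),
 (nat_lit 0), (nat_lit 0)]) (PF.cons (PF.leaf (nat_lit 4326687) (nat_lit 481862) (nat_lit 52946705) (nat_lit 10307204) [(nat_lit 481862), (nat_lit 0), (nat_lit 0), (nat_lit 0)]) (PF.cons PF.nil (PF.cons PF.nil (PF.cons PF.nil PF.nil)))))))))))) (PF.cons (PF.cons (PF.leaf (nat_lit 2725693) (nat_lit 1407116) (nat_lit 55478962) (nat_lit 10222734) [(nat_lit 0), (nat_lit 1407116), (nat_lit 0), (nat_lit 0)]) (PF.cons (PF.leaf (nat_lit 2967426) (nat_lit 394493) (nat_lit 55024975) (nat_lit 10243186) [(nat_lit 394493), (nat_lit 1446157), (nat_lit 0), (nat_lit 0)]) (PF.cons (PF.leaf (nat_lit 3234811) (nat_lit 417040) (nat_lit 54528541) (nat_lit 10262077) [(nat_lit 417040), (nat_lit 1484114), (nat_lit 0), (nat_lit 0)]) (PF.cons (PF.leaf (nat_lit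 3523415) (nat_lit 437489) (nat_lit 53997507) (nat_lit 10278438) [(nat_lit 437489), (nat_lit 1520397), (nat_lit 0), (nat_lit 0)]) (PF.cons (PF.leaf (nat_lit 3830233) (nat_lit 456169) (nat_lit 53437864) (nat_lit 10291558) [(nat_lit 456169), (nat_lit 1554711), (nat_lit 0), (nat_lit 0)]) (PF.cons (PF.leaf (nat_lit 4152869) (nat_lit 473303) (nat_lit 52854467) (nat_lit 10300916) [(nat_lit 473303), (nat_lit 1586912), (nat_lit 0), (nat_lit 0)]) (PF.cons
 (PF.leaf (nat_lit 4489261) (nat_lit 489053) (nat_lit 52251404) (nat_lit 10306144) [(nat_lit 489053), (nat_lit 1616942), (nat_lit 0), (nat_lit 0)]) (PF.cons (PF.leaf (nat_lit 4837594) (nat_lit 503545) (nat_lit 51632206) (nat_lit 10306995) [(nat_lit 503545), (nat_lit 1644795), (nat_lit 0), (nat_lit 0)]) (PF.cons PF.nil (PF.cons PF.nil PF.nil)))))))))) (PF.cons (PF.cons (PF.leaf (nat_lit 3418154) (nat_lit 1515757) (nat_lit 53801210) (nat_lit 10276087) [(nat_lit 0), (nat_lit 1515757), (nat_lit 0), (nat_lit 0)]) (PF.cons (PF.leaf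 (nat_lit 3699740) (nat_lit 445642) (nat_lit 53279113) (nat_lit 10287148) [(nat_lit 445642), (nat_lit 1548453), (nat_lit 0), (nat_lit 0)]) (PF.cons (PF.leaf (nat_lit 4000979) (nat_lit 463724) (nat_lit 52727045) (nat_lit 10295065) [(nat_lit 463724), (nat_lit 1579626), (nat_lit 0), (nat_lit 0)]) (PF.cons (PF.leaf (nat_lit 4318535) (nat_lit 480237) (nat_lit 52150715) (nat_lit 10299341) [(nat_lit 480237), (nat_lit 1609020), (nat_lit 0), (nat_lit 0)]) (PF.cons (PF.leaf (nat_lit 4650093) (nat_lit 495368) (nat_lit 51554681) (nat_lit 10299635) [(nat_lit 495368), (nat_lit 1636511), (nat_lit 0), (nat_lit 0)]) (PF.cons (PF.leaf (nat_lit 4993686) (nat_lit 509253) (nat_lit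
 50942731) (nat_lit 10295727) [(nat_lit 509253), (nat_lit 1662044), (nat_lit 0), (nat_lit 0)]) (PF.cons PF.nil (PF.cons PF.nil (PF.cons PF.nil PF.nil))))))))) (PF.cons (PF.cons (PF.leaf (nat_lit 4173206) (nat_lit 1602342) (nat_lit 52009117) (nat_lit 10292668) [(nat_lit 0), (nat_lit 1602342), (nat_lit 0), (nat_lit 0)]) (PF.cons (PF.leaf (nat_lit 4484048) (nat_lit 486197) (nat_lit 51443160) (nat_lit 10292201) [(nat_lit 486197), (nat_lit 1629084), (nat_lit 0), (nat_lit 0)]) (PF.cons (PF.leaf (nat_lit 4809878) (nat_lit 500828) (nat_lit 50856697) (nat_lit 10287905) [(nat_lit 500828), (nat_lit 1654184), (nat_lit 0), (nat_lit 0)]) (PF.cons (PF.leaf (nat_lit 5148075) (nat_lit 514200) (nat_lit 50254011) (nat_lit 10279583) [(nat_lit 514200), (nat_lit 1677539), (nat_lit 0), (nat_lit 0)]) (PF.cons (PF.leaf (nat_lit 5496796) (nat_lit 526435) (nat_lit 49638621) (nat_lit 10267129) [(nat_lit 526435), (nat_lit 1699106), (nat_lit 0), (nat_lit 0)]) (PF.cons PF.nil (PF.cons PF.nil PF.nil)))))))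 (PF.cons (PF.cons (PF.leaf (nat_lit 4969803) (nat_lit 1670113) (nat_lit 50157205) (nat_lit 10271153) [(nat_lit 0), (nat_lit 1670113), (nat_lit 0), (nat_lit 0)]) (PF.cons (PF.leaf (nat_lit 5301444) (nat_lit
 518396) (nat_lit 49566004) (nat_lit 10258779) [(nat_lit 518396), (nat_lit 1691407), (nat_lit 0), (nat_lit 0)]) (PF.cons (PF.leaf (nat_lit 5644330) (nat_lit 530203) (nat_lit 48961587) (nat_lit 10242456) [(nat_lit 530203), (nat_lit 1711090), (nat_lit 0), (nat_lit 0)]) (PF.cons (PF.leaf (nat_lit 5996377) (nat_lit 540965) (nat_lit 48347215) (nat_lit 10222167) [(nat_lit 540965), (nat_lit 1729133), (nat_lit 0), (nat_lit 0)]) (PF.cons PF.nil PF.nil))))) (PF.cons (PF.cons (PF.leaf (nat_lit 5791180) (nat_lit 1721667) (nat_lit 48286806) (nat_lit 10213669) [(nat_lit 0), (nat_lit 1721667), (nat_lit 0), (nat_lit 0)]) (PF.cons (PF.leaf (nat_lit 6136780) (nat_lit 543710) (nat_lit 47684685) (nat_lit 10190049) [(nat_lit 543710), (nat_lit 1738073), (nat_lit 0), (nat_lit 0)]) (PF.cons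 PF.nil (PF.cons PF.nil PF.nil)))) (PF.cons (PF.cons (PF.leaf (nat_lit 6623992) (nat_lit 1759266) (nat_lit 46429045) (nat_lit 10124165) [(nat_lit 0), (nat_lit 1759266), (nat_lit 0), (nat_lit 0)]) (PF.cons PF.nil PF.nil)) (PF.cons PF.nil PF.nil)))))))) (PF.cons (PF.cons (PF.cons (PF.leaf (nat_lit 3315788) (nat_lit 3585596) (nat_lit 53269983) (nat_lit 10253233) [(nat_lit 0), (nat_lit 0), (nat_lit 3585596), (nat_lit 0)])
 (PF.cons (PF.leaf (nat_lit 3567960) (nat_lit 422850) (nat_lit 52804990) (nat_lit 10261052) [(nat_lit 422850), (nat_lit 0), (nat_lit 3619920), (nat_lit 0)]) (PF.cons (PF.leaf (nat_lit 3844308) (nat_lit 443718) (nat_lit 52301023) (nat_lit 10266467) [(nat_lit 443718), (nat_lit 0), (nat_lit 3653883), (nat_lit 0)]) (PF.cons (PF.leaf (nat_lit 4140158) (nat_lit 462360) (nat_lit 51766263) (nat_lit 10268859) [(nat_lit 462360), (nat_lit 0), (nat_lit 3686608), (nat_lit 0)]) (PF.cons (PF.leaf (nat_lit 4452480) (nat_lit 479176) (nat_lit 51206786) (nat_lit 10267792)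 [(nat_lit 479176), (nat_lit 0), (nat_lit 3717528), (nat_lit 0)]) (PF.cons (PF.leaf (nat_lit 4778843) (nat_lit 494434) (nat_lit 50627390) (nat_lit 10262971) [(nat_lit 494434), (nat_lit 0), (nat_lit 3746276), (nat_lit 0)]) (PF.cons (PF.leaf (nat_lit 5117217) (nat_lit 508327) (nat_lit 50032017) (nat_lit 10254207) [(nat_lit 508327), (nat_lit 0), (nat_lit 3772619), (nat_lit 0)]) (PF.cons PF.nil (PF.cons PF.nil PF.nil))))))))) (PF.cons (PF.cons (PF.leaf (nat_lit 4020985) (nat_lit 1579125) (nat_lit 51582130) (nat_lit 10261927) [(nat_lit 0), (nat_lit 1579125), (nat_lit 3685629), (nat_lit 0)]) (PF.cons (PF.leaf (nat_lit 4308656) (nat_lit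
 468119) (nat_lit 51060127) (nat_lit 10260021) [(nat_lit 468119), (nat_lit 1606352), (nat_lit 3714193), (nat_lit 0)]) (PF.cons (PF.leaf (nat_lit 4614372) (nat_lit 484529) (nat_lit 50511637) (nat_lit 10254747) [(nat_lit 484529), (nat_lit 1632080), (nat_lit 3741288), (nat_lit 0)]) (PF.cons (PF.leaf (nat_lit 4934790) (nat_lit 499334) (nat_lit 49942345) (nat_lit 10245839) [(nat_lit 499334), (nat_lit 1656131), (nat_lit 3766491), (nat_lit 0)]) (PF.cons (PF.leaf (nat_lit 5267643) (nat_lit 512757) (nat_lit 49356690) (nat_lit 10233135) [(nat_lit 512757), (nat_lit 1678424), (nat_lit 3789532), (nat_lit 0)]) (PF.cons (PF.leaf (nat_lit 5610986) (nat_lit 524957) (nat_lit 48758282) (nat_lit 10216553) [(nat_lit 524957), (nat_lit 1698937), (nat_lit 3810251), (nat_lit 0)]) (PF.cons PF.nil PF.nil))))))) (PF.cons (PF.cons (PF.leaf (nat_lit 4777784) (nat_lit 1648759) (nat_lit 49812657) (nat_lit 10236712) [(nat_lit 0), (nat_lit 1648759), (nat_lit 3761925), (nat_lit 0)]) (PF.cons (PF.leaf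 (nat_lit 5090747) (nat_lit 503390) (nat_lit 49256308) (nat_lit 10224083) [(nat_lit 503390), (nat_lit 1670628), (nat_lit 3783774), (nat_lit 0)]) (PF.cons (PF.leaf (nat_lit 5417224) (nat_lit 516452) (nat_lit 48682501)
 (nat_lit 10207786) [(nat_lit 516452), (nat_lit 1690955), (nat_lit 3803709), (nat_lit 0)]) (PF.cons (PF.leaf (nat_lit 5754656) (nat_lit 528266) (nat_lit 48095358) (nat_lit 10187764) [(nat_lit 528266), (nat_lit 1709675), (nat_lit 3821539), (nat_lit 0)]) (PF.cons (PF.leaf (nat_lit 6101241) (nat_lit 538971) (nat_lit 47498199) (nat_lit 10164020) [(nat_lit 538971), (nat_lit 1726775), (nat_lit 3837157), (nat_lit 0)]) PF.nil))))) (PF.cons (PF.cons (PF.leaf (nat_lit 5567102) (nat_lit 1702066) (nat_lit 48008974) (nat_lit 10178316) [(nat_lit 0), (nat_lit 1702066), (nat_lit 3815323), (nat_lit 0)]) (PF.cons (PF.leaf (nat_lit 5897517) (nat_lit 530925) (nat_lit 47434968) (nat_lit 10155203) [(nat_lit 530925), (nat_lit 1719091), (nat_lit 3830441), (nat_lit 0)]) (PF.cons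 (PF.leaf (nat_lit 6237924) (nat_lit 541311) (nat_lit 46850212) (nat_lit 10128513) [(nat_lit 541311), (nat_lit 1734640), (nat_lit 3843541), (nat_lit 0)]) (PF.cons PF.nil PF.nil)))) (PF.cons (PF.cons (PF.leaf (nat_lit 6374155) (nat_lit 1741357) (nat_lit 46205825) (nat_lit 10089710) [(nat_lit 0), (nat_lit 1741357), (nat_lit 3847845), (nat_lit 0)]) (PF.cons (PF.leaf (nat_lit 6715850) (nat_lit 552184) (nat_lit 45626587) (nat_lit
 10057038) [(nat_lit 552184), (nat_lit 1754081), (nat_lit 3856675), (nat_lit 0)]) PF.nil)) (PF.cons PF.nil PF.nil)))))) (PF.cons (PF.cons (PF.cons (PF.leaf (nat_lit 4608424) (nat_lit 3740942) (nat_lit 49426133) (nat_lit 10200795) [(nat_lit 0), (nat_lit 0), (nat_lit 3740942), (nat_lit 0)]) (PF.cons (PF.leaf (nat_lit 4899424) (nat_lit 485538) (nat_lit 48911566) (nat_lit 10188044) [(nat_lit 485538), (nat_lit 0), (nat_lit 3761831), (nat_lit 0)]) (PF.cons (PF.leaf (nat_lit 5207074) (nat_lit 500449) (nat_lit 48373563) (nat_lit 10171872) [(nat_lit 500449),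 (nat_lit 0), (nat_lit 3781239), (nat_lit 0)]) (PF.cons (PF.leaf (nat_lit 5528032) (nat_lit 513743) (nat_lit 47817680) (nat_lit 10152192) [(nat_lit 513743), (nat_lit 0), (nat_lit 3798854), (nat_lit 0)]) (PF.cons (PF.leaf (nat_lit 5860047) (nat_lit 525668) (nat_lit 47248179) (nat_lit 10128976) [(nat_lit 525668), (nat_lit 0), (nat_lit 3814491), (nat_lit 0)]) (PF.cons (PF.leaf (nat_lit 6201257) (nat_lit 536401) (nat_lit 46668465) (nat_lit 10102247) [(nat_lit 536401), (nat_lit 0), (nat_lit 3828045), (nat_lit 0)]) (PF.cons PF.nil PF.nil))))))) (PF.cons (PF.cons (PF.leaf (nat_lit 5361346) (nat_lit 1681073) (nat_lit 47699769) (nat_lit 10141491)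
 [(nat_lit 0), (nat_lit 1681073), (nat_lit 3793239), (nat_lit 0)]) (PF.cons (PF.leaf (nat_lit 5674333) (nat_lit 516237) (nat_lit 47158456) (nat_lit 10119004) [(nat_lit 516237), (nat_lit 1698833), (nat_lit 3808140), (nat_lit 0)]) (PF.cons (PF.leaf (nat_lit 5999549) (nat_lit 527917) (nat_lit 46602225) (nat_lit 10093074) [(nat_lit 527917), (nat_lit 1715147), (nat_lit 3821265), (nat_lit 0)]) (PF.cons (PF.leaf (nat_lit 6334514) (nat_lit 538369) (nat_lit 46034998) (nat_lit 10063750) [(nat_lit 538369), (nat_lit 1729983), (nat_lit 3832485), (nat_lit 0)]) (PF.cons PF.nil PF.nil))))) (PF.cons (PF.cons (PF.leaf (nat_lit 6139542) (nat_lit 1722356) (nat_lit 45958378) (nat_lit 10053821) [(nat_lit 0), (nat_lit 1722356), (nat_lit 3825949), (nat_lit 0)]) (PF.cons (PF.leaf (nat_lit 6467219) (nat_lit 539770) (nat_lit 45405232) (nat_lit 10022228) [(nat_lit 539770), (nat_lit 1735798), (nat_lit 3834991), (nat_lit 0)]) (PF.cons (PF.leaf (nat_lit 6803813) (nat_lit 548920) (nat_lit 44843314)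 (nat_lit 9987428) [(nat_lit 548920), (nat_lit 1747889), (nat_lit 3842224), (nat_lit 0)]) (PF.cons PF.nil PF.nil)))) (PF.cons (PF.cons (PF.leaf (nat_lit 6929933) (nat_lit 1751491) (nat_lit 44231161) (nat_lit 9941126)
 [(nat_lit 0), (nat_lit 1751491), (nat_lit 3841024), (nat_lit 0)]) (PF.cons PF.nil PF.nil)) (PF.cons PF.nil PF.nil))))) (PF.cons (PF.cons (PF.cons (PF.leaf (nat_lit 5922674) (nat_lit 3803689) (nat_lit 45681625) (nat_lit 10016118) [(nat_lit 0), (nat_lit 0), (nat_lit 3803689), (nat_lit 0)]) (PF.cons (PF.leaf (nat_lit 6234069) (nat_lit 525493) (nat_lit 45158929) (nat_lit 9985789) [(nat_lit 525493), (nat_lit 0), (nat_lit 3812866), (nat_lit 0)]) (PF.cons (PF.leaf (nat_lit 6556618) (nat_lit 535956) (nat_lit 44623424) (nat_lit 9952268) [(nat_lit 535956), (nat_lit 0), (nat_lit 3820402), (nat_lit 0)]) (PF.cons (PF.leaf (nat_lit 6887888) (nat_lit 545218) (nat_lit 44078814) (nat_lit 9915683) [(nat_lit 545218), (nat_lit 0), (nat_lit 3826220), (nat_lit 0)]) (PF.cons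 PF.nil PF.nil))))) (PF.cons (PF.cons (PF.leaf (nat_lit 6687070) (nat_lit 1733234) (nat_lit 44011172) (nat_lit 9905656) [(nat_lit 0), (nat_lit 1733234), (nat_lit 3819583), (nat_lit 0)]) (PF.cons (PF.leaf (nat_lit 7010912) (nat_lit 545589) (nat_lit 43481072) (nat_lit 9867493) [(nat_lit 545589), (nat_lit 1743667), (nat_lit 3823663), (nat_lit 0)]) (PF.cons (PF.leaf (nat_lit 7342748) (nat_lit 553664) (nat_lit 42943775) (nat_lit 9826470)
 [(nat_lit 553664), (nat_lit 1752865), (nat_lit 3826124), (nat_lit 0)]) (PF.cons PF.nil PF.nil)))) (PF.cons (PF.cons (PF.leaf (nat_lit 7459351) (nat_lit 1753958) (nat_lit 42364413) (nat_lit 9774708) [(nat_lit 0), (nat_lit 1753958), (nat_lit 3820591), (nat_lit 0)]) (PF.cons PF.nil PF.nil)) PF.nil))) (PF.cons (PF.cons (PF.cons (PF.leaf (nat_lit 7210189) (nat_lit 3799870) (nat_lit 42169042) (nat_lit 9740290) [(nat_lit 0), (nat_lit 0), (nat_lit 3799870), (nat_lit 0)]) (PF.cons (PF.leaf (nat_lit 7529393) (nat_lit 548926) (nat_lit 41663084) (nat_lit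 9697147) [(nat_lit 548926), (nat_lit 0), (nat_lit 3799913), (nat_lit 0)]) (PF.cons PF.nil PF.nil))) (PF.cons (PF.cons (PF.leaf (nat_lit 7963552) (nat_lit 1750294) (nat_lit 40604290) (nat_lit 9595872) [(nat_lit 0), (nat_lit 1750294), (nat_lit 3789589), (nat_lit 0)]) PF.nil) PF.nil)) (PF.cons PF.nil (PF.cons PF.nil (PF.cons PF.nil PF.nil)))))))) (PF.cons (PF.cons (PF.cons (PF.cons (PF.leaf (nat_lit 4267413) (nat_lit 9154228) (nat_lit 47954201) (nat_lit 10000383) [(nat_lit 0), (nat_lit 0), (nat_lit 0), (nat_lit 9154228)]) (PF.cons (PF.leaf (nat_lit 4516891) (nat_lit 436882) (nat_lit 47533545) (nat_lit 9989569) [(nat_lit 436882), (nat_lit 0),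
 (nat_lit 0), (nat_lit 9148815)]) (PF.cons (PF.leaf (nat_lit 4788525) (nat_lit 456120) (nat_lit 47079973) (nat_lit 9975767) [(nat_lit 456120), (nat_lit 0), (nat_lit 0), (nat_lit 9140830)]) (PF.cons (PF.leaf (nat_lit 5077616) (nat_lit 472937) (nat_lit 46601081) (nat_lit 9958856) [(nat_lit 472937), (nat_lit 0), (nat_lit 0), (nat_lit 9130063)]) (PF.cons (PF.leaf (nat_lit 5381107) (nat_lit 487808) (nat_lit 46102428) (nat_lit 9938766) [(nat_lit 487808), (nat_lit 0), (nat_lit 0), (nat_lit 9116382)]) (PF.cons (PF.leaf (nat_lit 5696611) (nat_lit 501059) (nat_lit 45588323) (nat_lit 9915473) [(nat_lit 501059), (nat_lit 0), (nat_lit 0), (nat_lit 9099716)]) (PF.cons (PF.leaf (nat_lit 6022192) (nat_lit 512923) (nat_lit 45062234) (nat_lit 9888994) [(nat_lit 512923), (nat_lit 0), (nat_lit 0), (nat_lit 9080044)]) (PF.cons (PF.leaf (nat_lit 6356206) (nat_lit 523573) (nat_lit 44527029) (nat_lit 9859379) [(nat_lit 523573), (nat_lit 0), (nat_lit 0), (nat_lit 9057387)]) (PF.cons PF.nil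 (PF.cons PF.nil PF.nil)))))))))) (PF.cons (PF.cons (PF.leaf (nat_lit 4947909) (nat_lit 1599337) (nat_lit 46443207) (nat_lit 9946673) [(nat_lit 0), (nat_lit 1599337), (nat_lit 0), (nat_lit 9119595)]) (PF.cons (PF.leaf
 (nat_lit 5228005) (nat_lit 476230) (nat_lit 45978257) (nat_lit 9927379) [(nat_lit 476230), (nat_lit 1620643), (nat_lit 0), (nat_lit 9106302)]) (PF.cons (PF.leaf (nat_lit 5524190) (nat_lit 490828) (nat_lit 45491734) (nat_lit 9904912) [(nat_lit 490828), (nat_lit 1640378), (nat_lit 0), (nat_lit 9090131)]) (PF.cons (PF.leaf (nat_lit 5833228) (nat_lit 503757) (nat_lit 44988737) (nat_lit 9879295) [(nat_lit 503757), (nat_lit 1658462), (nat_lit 0), (nat_lit 9071046)]) (PF.cons (PF.leaf (nat_lit 6152858) (nat_lit 515279) (nat_lit 44473176) (nat_lit 9850574) [(nat_lit 515279), (nat_lit 1674892), (nat_lit 0), (nat_lit 9049052)]) (PF.cons (PF.leaf (nat_lit 6481317) (nat_lit 525586) (nat_lit 43948176) (nat_lit 9818820) [(nat_lit 525586), (nat_lit 1689701), (nat_lit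 0), (nat_lit 9024184)]) (PF.cons (PF.leaf (nat_lit 6817070) (nat_lit 534822) (nat_lit 43416303) (nat_lit 9784125) [(nat_lit 534822), (nat_lit 1702941), (nat_lit 0), (nat_lit 8996507)]) (PF.cons PF.nil (PF.cons PF.nil PF.nil))))))))) (PF.cons (PF.cons (PF.leaf (nat_lit 5668954) (nat_lit 1650256) (nat_lit 44879940) (nat_lit 9867722) [(nat_lit 0), (nat_lit 1650256), (nat_lit 0), (nat_lit 9060636)]) (PF.cons (PF.leaf (nat_lit 5970118)
 (nat_lit 505746) (nat_lit 44390241) (nat_lit 9840111) [(nat_lit 505746), (nat_lit 1666637), (nat_lit 0), (nat_lit 9039438)]) (PF.cons (PF.leaf (nat_lit 6283107) (nat_lit 517034) (nat_lit 43886800) (nat_lit 9809441) [(nat_lit 517034), (nat_lit 1681553), (nat_lit 0), (nat_lit 9015393)]) (PF.cons (PF.leaf (nat_lit 6605469) (nat_lit 527078) (nat_lit 43373198) (nat_lit 9775814) [(nat_lit 527078), (nat_lit 1695000), (nat_lit 0), (nat_lit 8988563)]) (PF.cons (PF.leaf (nat_lit 6935530) (nat_lit 536040) (nat_lit 42852269) (nat_lit 9739341) [(nat_lit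 536040), (nat_lit 1707006), (nat_lit 0), (nat_lit 8959028)]) (PF.cons PF.nil (PF.cons PF.nil PF.nil))))))) (PF.cons (PF.cons (PF.leaf (nat_lit 6414017) (nat_lit 1687173) (nat_lit 43302482) (nat_lit 9765664) [(nat_lit 0), (nat_lit 1687173), (nat_lit 0), (nat_lit 8979146)]) (PF.cons (PF.leaf (nat_lit 6729290) (nat_lit 528043) (nat_lit 42801680) (nat_lit 9730447) [(nat_lit 528043), (nat_lit 1699341), (nat_lit 0), (nat_lit 8950618)]) (PF.cons (PF.leaf (nat_lit 7053170) (nat_lit 536801) (nat_lit 42292730) (nat_lit 9692448) [(nat_lit 536801), (nat_lit 1710190), (nat_lit 0), (nat_lit 8919460)]) (PF.cons (PF.leaf (nat_lit 7383767) (nat_lit 544586)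
 (nat_lit 41778217) (nat_lit 9651810) [(nat_lit 544586), (nat_lit 1719746), (nat_lit 0), (nat_lit 8885785)]) (PF.cons PF.nil PF.nil))))) (PF.cons (PF.cons (PF.leaf (nat_lit 7170877) (nat_lit 1712550) (nat_lit 41737216) (nat_lit 9643516) [(nat_lit 0), (nat_lit 1712550), (nat_lit 0), (nat_lit 8877879)]) (PF.cons (PF.leaf (nat_lit 7494957) (nat_lit 544723) (nat_lit 41235040) (nat_lit 9601673) [(nat_lit 544723), (nat_lit 1721119), (nat_lit 0), (nat_lit 8842897)]) (PF.cons PF.nil (PF.cons PF.nil PF.nil)))) (PF.cons (PF.cons (PF.leaf (nat_lit 7930305) (nat_lit 1728342) (nat_lit 40202535) (nat_lit 9504610) [(nat_lit 0), (nat_lit 1728342), (nat_lit 0), (nat_lit 8759953)]) (PF.cons PF.nil PF.nil)) (PF.cons PF.nil (PF.cons PF.nil PF.nil)))))))) (PF.cons (PF.cons (PF.cons (PF.leaf (nat_lit 5485278) (nat_lit 3697248) (nat_lit 44560813) (nat_lit 9827247) [(nat_lit 0), (nat_lit 0), (nat_lit 3697248), (nat_lit 9023504)]) (PF.cons (PF.leaf (nat_lit 5766385) (nat_lit 487815) (nat_lit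 44107571) (nat_lit 9801165) [(nat_lit 487815), (nat_lit 0), (nat_lit 3708811), (nat_lit 9003448)]) (PF.cons (PF.leaf (nat_lit 6062441) (nat_lit 501095) (nat_lit 43635140) (nat_lit 9771971) [(nat_lit 501095), (nat_lit
 0), (nat_lit 3718951), (nat_lit 8980558)]) (PF.cons (PF.leaf (nat_lit 6370194) (nat_lit 512731) (nat_lit 43148416) (nat_lit 9739794) [(nat_lit 512731), (nat_lit 0), (nat_lit 3727500), (nat_lit 8954905)]) (PF.cons (PF.leaf (nat_lit 6687488) (nat_lit 523003) (nat_lit 42651101) (nat_lit 9704760) [(nat_lit 523003), (nat_lit 0), (nat_lit 3734368), (nat_lit 8926570)]) (PF.cons (PF.leaf (nat_lit 7012593) (nat_lit 532107) (nat_lit 42146110) (nat_lit 9666994) [(nat_lit 532107), (nat_lit 0), (nat_lit 3739522), (nat_lit 8895646)]) (PF.cons PF.nil (PF.cons PF.nil (PF.cons PF.nil PF.nil))))))))) (PF.cons (PF.cons (PF.leaf (nat_lit 6198805) (nat_lit 1666146) (nat_lit 43050135) (nat_lit 9727739) [(nat_lit 0), (nat_lit 1666146), (nat_lit 3720842), (nat_lit 8943949)])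 (PF.cons (PF.leaf (nat_lit 6498456) (nat_lit 513563) (nat_lit 42577416) (nat_lit 9694190) [(nat_lit 513563), (nat_lit 1679349), (nat_lit 3727503), (nat_lit 8916790)]) (PF.cons (PF.leaf (nat_lit 6808912) (nat_lit 523698) (nat_lit 42092805) (nat_lit 9657795) [(nat_lit 523698), (nat_lit 1691201), (nat_lit 3732634), (nat_lit 8886979)]) (PF.cons (PF.leaf (nat_lit 7127822) (nat_lit 532627) (nat_lit 41599675) (nat_lit 9618714) [(nat_lit
 532627), (nat_lit 1701715), (nat_lit 3736184), (nat_lit 8854638)]) (PF.cons (PF.leaf (nat_lit 7453544) (nat_lit 540520) (nat_lit 41100665) (nat_lit 9577101) [(nat_lit 540520), (nat_lit 1710929), (nat_lit 3738144), (nat_lit 8819888)]) (PF.cons PF.nil (PF.cons PF.nil PF.nil))))))) (PF.cons (PF.cons (PF.leaf (nat_lit 6931235) (nat_lit 1694074) (nat_lit 41537245) (nat_lit 9608686) [(nat_lit 0), (nat_lit 1694074), (nat_lit 3729448), (nat_lit 8845284)]) (PF.cons (PF.leaf (nat_lit 7242958) (nat_lit 532684) (nat_lit 41057195) (nat_lit 9568552) [(nat_lit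 532684), (nat_lit 1703545), (nat_lit 3731520), (nat_lit 8811770)]) (PF.cons (PF.leaf (nat_lit 7562451) (nat_lit 540447) (nat_lit 40570358) (nat_lit 9525920) [(nat_lit 540447), (nat_lit 1711816), (nat_lit 3732114), (nat_lit 8775893)]) (PF.cons PF.nil (PF.cons PF.nil PF.nil))))) (PF.cons (PF.cons (PF.leaf (nat_lit 7671665) (nat_lit 1712027) (nat_lit 40044366) (nat_lit 9473128) [(nat_lit 0), (nat_lit 1712027), (nat_lit 3724935), (nat_lit 8730298)]) (PF.cons (PF.leaf (nat_lit 7990630) (nat_lit 546699) (nat_lit 39565458) (nat_lit 9427420) [(nat_lit 546699), (nat_lit 1718331), (nat_lit 3722902), (nat_lit 8691337)]) (PF.cons PF.nil (PF.cons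
 PF.nil PF.nil)))) (PF.cons (PF.cons (PF.leaf (nat_lit 8412015) (nat_lit 1721728) (nat_lit 38586616) (nat_lit 9324173) [(nat_lit 0), (nat_lit 1721728), (nat_lit 3709214), (nat_lit 8601896)]) (PF.cons PF.nil PF.nil)) (PF.cons PF.nil PF.nil)))))) (PF.cons (PF.cons (PF.cons (PF.leaf (nat_lit 6708395) (nat_lit 3707271) (nat_lit 41311837) (nat_lit 9571634) [(nat_lit 0), (nat_lit 0), (nat_lit 3707271), (nat_lit 8810798)]) (PF.cons (PF.leaf (nat_lit 7005508) (nat_lit 518780) (nat_lit 40857737) (nat_lit 9533473) [(nat_lit 518780), (nat_lit 0), (nat_lit 3709929), (nat_lit 8778962)]) (PF.cons (PF.leaf (nat_lit 7312576) (nat_lit 527904) (nat_lit 40393283) (nat_lit 9492681) [(nat_lit 527904), (nat_lit 0), (nat_lit 3711182), (nat_lit 8744673)]) (PF.cons (PF.leaf (nat_lit 7627282) (nat_lit 535862) (nat_lit 39921643) (nat_lit 9449462) [(nat_lit 535862), (nat_lit 0), (nat_lit 3711012), (nat_lit 8708096)]) (PF.cons PF.nil PF.nil))))) (PF.cons (PF.cons (PF.leaf (nat_lit 7426731) (nat_lit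 1694550) (nat_lit 39866692) (nat_lit 9439744) [(nat_lit 0), (nat_lit 1694550), (nat_lit 3704415), (nat_lit 8698994)]) (PF.cons (PF.leaf (nat_lit 7734242) (nat_lit 535179) (nat_lit 39408117) (nat_lit 9395916)
 [(nat_lit 535179), (nat_lit 1701759), (nat_lit 3703081), (nat_lit 8661677)]) (PF.cons (PF.leaf (nat_lit 8048830) (nat_lit 542076) (nat_lit 38943850) (nat_lit 9349849) [(nat_lit 542076), (nat_lit 1707874), (nat_lit 3700422), (nat_lit 8622242)]) (PF.cons PF.nil PF.nil)))) (PF.cons (PF.cons (PF.leaf (nat_lit 8150101) (nat_lit 1706362) (nat_lit 38446842) (nat_lit 9294436) [(nat_lit 0), (nat_lit 1706362), (nat_lit 3690484), (nat_lit 8573841)]) (PF.cons (PF.leaf (nat_lit 8463569) (nat_lit 546923) (nat_lit 37991206) (nat_lit 9245942) [(nat_lit 546923), (nat_lit 1710773), (nat_lit 3685622), (nat_lit 8531948)]) PF.nil)) (PF.cons PF.nil (PF.cons PF.nil PF.nil))))) (PF.cons (PF.cons (PF.cons (PF.leaf (nat_lit 7901280) (nat_lit 3671012) (nat_lit 38288973) (nat_lit 9262738)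 [(nat_lit 0), (nat_lit 0), (nat_lit 3671012), (nat_lit 8544064)]) (PF.cons (PF.leaf (nat_lit 8204093) (nat_lit 535916) (nat_lit 37852004) (nat_lit 9216223) [(nat_lit 535916), (nat_lit 0), (nat_lit 3666914), (nat_lit 8503924)]) (PF.cons (PF.leaf (nat_lit 8513401) (nat_lit 542058) (nat_lit 37410224) (nat_lit 9167703) [(nat_lit 542058), (nat_lit 0), (nat_lit 3661627), (nat_lit 8461885)]) (PF.cons PF.nil PF.nil)))) (PF.cons
 (PF.cons (PF.leaf (nat_lit 8607302) (nat_lit 1696601) (nat_lit 36941244) (nat_lit 9110658) [(nat_lit 0), (nat_lit 1696601), (nat_lit 3649556), (nat_lit 8411640)]) (PF.cons PF.nil PF.nil)) (PF.cons PF.nil PF.nil))) (PF.cons (PF.cons (PF.cons (PF.leaf (nat_lit 9044477) (nat_lit 3603739) (nat_lit 35523363) (nat_lit 8924321) [(nat_lit 0), (nat_lit 0), (nat_lit 3603739), (nat_lit 8246168)]) (PF.cons PF.nil PF.nil)) (PF.cons PF.nil PF.nil)) (PF.cons PF.nil PF.nil)))))) (PF.cons (PF.cons (PF.cons (PF.cons (PF.leaf (nat_lit 6256316) (nat_lit 8648724) (nat_lit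 40412739) (nat_lit 9398625) [(nat_lit 0), (nat_lit 0), (nat_lit 0), (nat_lit 8648724)]) (PF.cons (PF.leaf (nat_lit 6526750) (nat_lit 483294) (nat_lit 40016174) (nat_lit 9365875) [(nat_lit 483294), (nat_lit 0), (nat_lit 0), (nat_lit 8621734)]) (PF.cons (PF.leaf (nat_lit 6810826) (nat_lit 495270) (nat_lit 39603597) (nat_lit 9330317) [(nat_lit 495270), (nat_lit 0), (nat_lit 0), (nat_lit 8592178)]) (PF.cons (PF.leaf (nat_lit 7105370) (nat_lit 505618) (nat_lit 39179271) (nat_lit 9292196) [(nat_lit 505618), (nat_lit 0), (nat_lit 0), (nat_lit 8560245)]) (PF.cons (PF.leaf (nat_lit 7408347) (nat_lit 514630) (nat_lit 38746388) (nat_lit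
 9251714) [(nat_lit 514630), (nat_lit 0), (nat_lit 0), (nat_lit 8526094)]) (PF.cons (PF.leaf (nat_lit 7718141) (nat_lit 522516) (nat_lit 38307439) (nat_lit 9209048) [(nat_lit 522516), (nat_lit 0), (nat_lit 0), (nat_lit 8489871)]) (PF.cons PF.nil PF.nil))))))) (PF.cons (PF.cons (PF.leaf (nat_lit 6932507) (nat_lit 1633130) (nat_lit 39097422) (nat_lit 9280058) [(nat_lit 0), (nat_lit 1633130), (nat_lit 0), (nat_lit 8549100)]) (PF.cons (PF.leaf (nat_lit 7219046) (nat_lit 505355) (nat_lit 38685862) (nat_lit 9241423) [(nat_lit 505355), (nat_lit 1643166), (nat_lit 0), (nat_lit 8516502)]) (PF.cons (PF.leaf (nat_lit 7515328) (nat_lit 514312) (nat_lit 38264515) (nat_lit 9200388) [(nat_lit 514312), (nat_lit 1651948), (nat_lit 0), (nat_lit 8481667)]) (PF.cons (PF.leaf (nat_lit 7819096) (nat_lit 522101) (nat_lit 37836275) (nat_lit 9157169) [(nat_lit 522101), (nat_lit 1659518), (nat_lit 0), (nat_lit 8444772)]) (PF.cons (PF.leaf (nat_lit 8128846) (nat_lit 528898) (nat_lit 37403384)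 (nat_lit 9111952) [(nat_lit 528898), (nat_lit 1665932), (nat_lit 0), (nat_lit 8405973)]) PF.nil))))) (PF.cons (PF.cons (PF.leaf (nat_lit 7623531) (nat_lit 1652081) (nat_lit 37785307) (nat_lit 9147653) [(nat_lit 0),
 (nat_lit 1652081), (nat_lit 0), (nat_lit 8435844)]) (PF.cons (PF.leaf (nat_lit 7920335) (nat_lit 521296) (nat_lit 37368747) (nat_lit 9104096) [(nat_lit 521296), (nat_lit 1658858), (nat_lit 0), (nat_lit 8398477)]) (PF.cons (PF.leaf (nat_lit 8224116) (nat_lit 528034) (nat_lit 36946673) (nat_lit 9058529) [(nat_lit 528034), (nat_lit 1664562), (nat_lit 0), (nat_lit 8359208)]) (PF.cons PF.nil PF.nil)))) (PF.cons (PF.cons (PF.leaf (nat_lit 8320068) (nat_lit 1662696) (nat_lit 36493779) (nat_lit 9004094) [(nat_lit 0), (nat_lit 1662696), (nat_lit 0), (nat_lit 8311424)]) (PF.cons (PF.leaf (nat_lit 8622904) (nat_lit 532646) (nat_lit 36079033) (nat_lit 8956540) [(nat_lit 532646), (nat_lit 1666779), (nat_lit 0), (nat_lit 8270127)]) PF.nil)) (PF.cons PF.nil PF.nil)))))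 (PF.cons (PF.cons (PF.cons (PF.leaf (nat_lit 7399095) (nat_lit 3587789) (nat_lit 37600961) (nat_lit 9113057) [(nat_lit 0), (nat_lit 0), (nat_lit 3587789), (nat_lit 8403502)]) (PF.cons (PF.leaf (nat_lit 7682680) (nat_lit 507960) (nat_lit 37206444) (nat_lit 9071754) [(nat_lit 507960), (nat_lit 0), (nat_lit 3586427), (nat_lit 8368113)]) (PF.cons (PF.leaf (nat_lit 7975298) (nat_lit 516063) (nat_lit 36803298) (nat_lit 9028232)
 [(nat_lit 516063), (nat_lit 0), (nat_lit 3583847), (nat_lit 8330653)]) (PF.cons (PF.leaf (nat_lit 8274767) (nat_lit 523043) (nat_lit 36394236) (nat_lit 8982729) [(nat_lit 523043), (nat_lit 0), (nat_lit 3580064), (nat_lit 8291325)]) (PF.cons PF.nil PF.nil))))) (PF.cons (PF.cons (PF.leaf (nat_lit 8076523) (nat_lit 1646286) (nat_lit 36349417) (nat_lit 8973702) [(nat_lit 0), (nat_lit 1646286), (nat_lit 3573750), (nat_lit 8282827)]) (PF.cons (PF.leaf (nat_lit 8369080) (nat_lit 521697) (nat_lit 35951836) (nat_lit 8928150) [(nat_lit 521697), (nat_lit 1651320),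 (nat_lit 3569181), (nat_lit 8243312)]) (PF.cons (PF.leaf (nat_lit 8668049) (nat_lit 527722) (nat_lit 35549536) (nat_lit 8880786) [(nat_lit 527722), (nat_lit 1655376), (nat_lit 3563503), (nat_lit 8202082)]) (PF.cons PF.nil PF.nil)))) (PF.cons (PF.cons (PF.leaf (nat_lit 8757331) (nat_lit 1652303) (nat_lit 35121495) (nat_lit 8825338) [(nat_lit 0), (nat_lit 1652303), (nat_lit 3551242), (nat_lit 8153064)]) (PF.cons PF.nil PF.nil)) PF.nil))) (PF.cons (PF.cons (PF.cons (PF.leaf (nat_lit 8511500) (nat_lit 3533318) (nat_lit 34993003) (nat_lit 8796809) [(nat_lit 0), (nat_lit 0), (nat_lit 3533318), (nat_lit 8126181)]) (PF.cons (PF.leaf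
 (nat_lit 8799506) (nat_lit 520824) (nat_lit 34614129) (nat_lit 8749914) [(nat_lit 520824), (nat_lit 0), (nat_lit 3526815), (nat_lit 8085156)]) (PF.cons PF.nil PF.nil))) (PF.cons (PF.cons (PF.leaf (nat_lit 9176549) (nat_lit 1639124) (nat_lit 33826894) (nat_lit 8645528) [(nat_lit 0), (nat_lit 1639124), (nat_lit 3505703), (nat_lit 7992929)]) PF.nil) PF.nil)) (PF.cons PF.nil (PF.cons PF.nil PF.nil))))) (PF.cons (PF.cons (PF.cons (PF.cons (PF.leaf (nat_lit 8015327) (nat_lit 8002641) (nat_lit 34435392) (nat_lit 8665497) [(nat_lit 0), (nat_lit 0), (nat_lit 0), (nat_lit 8002641)]) (PF.cons (PF.leaf (nat_lit 8286344) (nat_lit 495021) (nat_lit 34091461) (nat_lit 8623636) [(nat_lit 495021), (nat_lit 0), (nat_lit 0), (nat_lit 7966231)]) (PF.cons (PF.leaf (nat_lit 8565713) (nat_lit 502324) (nat_lit 33740176) (nat_lit 8579866) [(nat_lit 502324), (nat_lit 0), (nat_lit 0), (nat_lit 7928040)]) (PF.cons (PF.leaf (nat_lit 8851296) (nat_lit 508550) (nat_lit 33383870) (nat_lit 8534437)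 [(nat_lit 508550), (nat_lit 0), (nat_lit 0), (nat_lit 7888284)]) (PF.cons PF.nil PF.nil))))) (PF.cons (PF.cons (PF.leaf (nat_lit 8656512) (nat_lit 1593908) (nat_lit 33347095) (nat_lit 8526230) [(nat_lit 0), (nat_lit
 1593908), (nat_lit 0), (nat_lit 7880526)]) (PF.cons (PF.leaf (nat_lit 8935481) (nat_lit 506789) (nat_lit 33000782) (nat_lit 8481073) [(nat_lit 506789), (nat_lit 1597446), (nat_lit 0), (nat_lit 7840907)]) (PF.cons PF.nil (PF.cons PF.nil PF.nil)))) (PF.cons (PF.cons (PF.leaf (nat_lit 9300099) (nat_lit 1596109) (nat_lit 32279650) (nat_lit 8380760) [(nat_lit 0), (nat_lit 1596109), (nat_lit 0), (nat_lit 7752060)]) (PF.cons PF.nil PF.nil)) PF.nil))) (PF.cons (PF.cons (PF.cons (PF.leaf (nat_lit 9058772) (nat_lit 3395054) (nat_lit 32174202) (nat_lit 8355365) [(nat_lit 0), (nat_lit 0), (nat_lit 3395054), (nat_lit 7728063)]) (PF.cons (PF.leaf (nat_lit 9333420) (nat_lit 504918) (nat_lit 31843866) (nat_lit 8309658) [(nat_lit 504918), (nat_lit 0), (nat_lit 3387203),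 (nat_lit 7687721)]) PF.nil)) (PF.cons PF.nil PF.nil)) (PF.cons PF.nil PF.nil))) (PF.cons (PF.cons (PF.cons (PF.cons (PF.leaf (nat_lit 9556025) (nat_lit 7355016) (nat_lit 29745357) (nat_lit 7943388) [(nat_lit 0), (nat_lit 0), (nat_lit 0), (nat_lit 7355016)]) (PF.cons PF.nil PF.nil)) (PF.cons PF.nil PF.nil)) (PF.cons PF.nil PF.nil)) (PF.cons PF.nil (PF.cons PF.nil (PF.cons PF.nil PF.nil))))))))

def p15_25_1_0 : pfC (piC [(nat_lit 37722612), (nat_lit 24769386), (nat_lit 18451604), (nat_lit 12447949)] (nat_lit 10526835)) p15_25_1 (nat_lit 4) (nat_lit 0) (nat_lit 1) = true := by decide +kernel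
def p15_25_1_1 : pfC (piC [(nat_lit 37722612), (nat_lit 24769386), (nat_lit 18451604), (nat_lit 12447949)] (nat_lit 10526835)) p15_25_1 (nat_lit 4) (nat_lit 1) (nat_lit 2) = true := by decide +kernel
def p15_25_1_2 : pfC (piC [(nat_lit 37722612), (nat_lit 24769386), (nat_lit 18451604), (nat_lit 12447949)] (nat_lit 10526835)) p15_25_1 (nat_lit 4) (nat_lit 2) (nat_lit 3) = true := by decide +kernel
def p15_25_1_3 : pfC (piC [(nat_lit 37722612), (nat_lit 24769386), (nat_lit 18451604), (nat_lit 12447949)] (nat_lit 10526835)) p15_25_1 (nat_lit 4) (nat_lit 3) (nat_lit 4) = true := by decide +kernel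
def p15_25_1_4 : pfC (piC [(nat_lit 37722612), (nat_lit 24769386), (nat_lit 18451604), (nat_lit 12447949)] (nat_lit 10526835)) p15_25_1 (nat_lit 4) (nat_lit 4) (nat_lit 5) = true := by decide +kernel
def p15_25_1_5 : pfC (piC [(nat_lit 37722612), (nat_lit 24769386), (nat_lit 18451604), (nat_lit 12447949)] (nat_lit 10526835)) p15_25_1 (nat_lit 4) (nat_lit 5) (nat_lit 6) = true := by decide +kernel
def p15_25_1_6 : pfC (piC [(nat_lit 37722612), (nat_lit 24769386), (nat_lit 18451604), (nat_lit 12447949)] (nat_lit 10526835)) p15_25_1 (nat_lit 4) (nat_lit 6) (nat_lit 7) = true := by decide +kernel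
def p15_25_1_7 : pfC (piC [(nat_lit 37722612), (nat_lit 24769386), (nat_lit 18451604), (nat_lit 12447949)] (nat_lit 10526835)) p15_25_1 (nat_lit 4) (nat_lit 7) (nat_lit 8) = true := by decide +kernel
def p15_25_1_8 : pfC (piC [(nat_lit 37722612), (nat_lit 24769386), (nat_lit 18451604), (nat_lit 12447949)] (nat_lit 10526835)) p15_25_1 (nat_lit 4) (nat_lit 8) (nat_lit 9) = true := by decide +kernel
def p15_25_1_9 : pfC (piC [(nat_lit 37722612), (nat_lit 24769386), (nat_lit 18451604), (nat_lit 12447949)] (nat_lit 10526835)) p15_25_1 (nat_lit 4) (nat_lit 9) (nat_lit 10) = true := by decide +kernel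
def p15_25_1_10 : pfC (piC [(nat_lit 37722612), (nat_lit 24769386), (nat_lit 18451604), (nat_lit 12447949)] (nat_lit 10526835)) p15_25_1 (nat_lit 4) (nat_lit 10) (nat_lit 11) = true := by decide +kernel
def p15_25_1_11 : pfC (piC [(nat_lit 37722612), (nat_lit 24769386), (nat_lit 18451604), (nat_lit 12447949)] (nat_lit 10526835)) p15_25_1 (nat_lit 4) (nat_lit 11) (nat_lit 12) = true := by decide +kernel
def p15_25_1_12 : pfC (piC [(nat_lit 37722612), (nat_lit 24769386), (nat_lit 18451604), (nat_lit 12447949)] (nat_lit 10526835)) p15_25_1 (nat_lit 4) (nat_lit 12) (nat_lit 13) = true := by decide +kernel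
def p15_25_1_13 : pfC (piC [(nat_lit 37722612), (nat_lit 24769386), (nat_lit 18451604), (nat_lit 12447949)] (nat_lit 10526835)) p15_25_1 (nat_lit 4) (nat_lit 13) (nat_lit 14) = true := by decide +kernel
def p15_25_1_14 : pfC (piC [(nat_lit 37722612), (nat_lit 24769386), (nat_lit 18451604), (nat_lit 12447949)] (nat_lit 10526835)) p15_25_1 (nat_lit 4) (nat_lit 14) (nat_lit 15) = true := by decide +kernel
def p15_25_1_15 : pfC (piC [(nat_lit 37722612), (nat_lit 24769386), (nat_lit 18451604), (nat_lit 12447949)] (nat_lit 10526835)) p15_25_1 (nat_lit 4) (nat_lit 15) (nat_lit 16) = true := by decide +kernel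
def p15_25_1_16 : pfC (piC [(nat_lit 37722612), (nat_lit 24769386), (nat_lit 18451604), (nat_lit 12447949)] (nat_lit 10526835)) p15_25_1 (nat_lit 4) (nat_lit 16) (nat_lit 17) = true := by decide +kernel
def p15_25_1_17 : pfC (piC [(nat_lit 37722612), (nat_lit 24769386), (nat_lit 18451604), (nat_lit 12447949)] (nat_lit 10526835)) p15_25_1 (nat_lit 4) (nat_lit 17) (nat_lit 18) = true := by decide +kernel
def p15_25_1_18 : pfC (piC [(nat_lit 37722612), (nat_lit 24769386), (nat_lit 18451604), (nat_lit 12447949)] (nat_lit 10526835)) p15_25_1 (nat_lit 4) (nat_lit 18) (nat_lit 19) = true := by decide +kernel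
def p15_25_1_19 : pfC (piC [(nat_lit 37722612), (nat_lit 24769386), (nat_lit 18451604), (nat_lit 12447949)] (nat_lit 10526835)) p15_25_1 (nat_lit 4) (nat_lit 19) (nat_lit 20) = true := by decide +kernel
def p15_25_1_20 : pfC (piC [(nat_lit 37722612), (nat_lit 24769386), (nat_lit 18451604), (nat_lit 12447949)] (nat_lit 10526835)) p15_25_1 (nat_lit 4) (nat_lit 20) (nat_lit 21) = true := by decide +kernel
def p15_25_1_21 : pfC (piC [(nat_lit 37722612), (nat_lit 24769386), (nat_lit 18451604), (nat_lit 12447949)] (nat_lit 10526835)) p15_25_1 (nat_lit 4) (nat_lit 21) (nat_lit 22) = true := by decide +kernel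
def p15_25_1_22 : pfC (piC [(nat_lit 37722612), (nat_lit 24769386), (nat_lit 18451604), (nat_lit 12447949)] (nat_lit 10526835)) p15_25_1 (nat_lit 4) (nat_lit 22) (nat_lit 23) = true := by decide +kernel
def p15_25_1_23 : pfC (piC [(nat_lit 37722612), (nat_lit 24769386), (nat_lit 18451604), (nat_lit 12447949)] (nat_lit 10526835)) p15_25_1 (nat_lit 4) (nat_lit 23) (nat_lit 24) = true := by decide +kernel
def p15_25_1_24 : pfC (piC [(nat_lit 37722612), (nat_lit 24769386), (nat_lit 18451604), (nat_lit 12447949)] (nat_lit 10526835)) p15_25_1 (nat_lit 4) (nat_lit 24) (nat_lit 25) = true := by decide +kernel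
def p15_25_1_25 : pfC (piC [(nat_lit 37722612), (nat_lit 24769386), (nat_lit 18451604), (nat_lit 12447949)] (nat_lit 10526835)) p15_25_1 (nat_lit 4) (nat_lit 25) (nat_lit 26) = true := by decide +kernel
def p15_25_1_26 : pfC (piC [(nat_lit 37722612), (nat_lit 24769386), (nat_lit 18451604), (nat_lit 12447949)] (nat_lit 10526835)) p15_25_1 (nat_lit 4) (nat_lit 26) (nat_lit 27) = true := by decide +kernel
def p15_25_1_27 : pfC (piC [(nat_lit 37722612), (nat_lit 24769386), (nat_lit 18451604), (nat_lit 12447949)] (nat_lit 10526835)) p15_25_1 (nat_lit 4) (nat_lit 27) (nat_lit 28) = true := by decide +kernel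
def p15_25_1_28 : pfC (piC [(nat_lit 37722612), (nat_lit 24769386), (nat_lit 18451604), (nat_lit 12447949)] (nat_lit 10526835)) p15_25_1 (nat_lit 4) (nat_lit 28) (nat_lit 29) = true := by decide +kernel
def p15_25_1_29 : pfC (piC [(nat_lit 37722612), (nat_lit 24769386), (nat_lit 18451604), (nat_lit 12447949)] (nat_lit 10526835)) p15_25_1 (nat_lit 4) (nat_lit 29) (nat_lit 30) = true := by decide +kernel
def p15_25_1_30 : pfC (piC [(nat_lit 37722612), (nat_lit 24769386), (nat_lit 18451604), (nat_lit 12447949)] (nat_lit 10526835)) p15_25_1 (nat_lit 4) (nat_lit 30) (nat_lit 31) = true := by decide +kernel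
def p15_25_1_31 : pfC (piC [(nat_lit 37722612), (nat_lit 24769386), (nat_lit 18451604), (nat_lit 12447949)] (nat_lit 10526835)) p15_25_1 (nat_lit 4) (nat_lit 31) (nat_lit 32) = true := by decide +kernel
def p15_25_1_32 : pfC (piC [(nat_lit 37722612), (nat_lit 24769386), (nat_lit 18451604), (nat_lit 12447949)] (nat_lit 10526835)) p15_25_1 (nat_lit 4) (nat_lit 32) (nat_lit 33) = true := by decide +kernel
def p15_25_1_33 : pfC (piC [(nat_lit 37722612), (nat_lit 24769386), (nat_lit 18451604), (nat_lit 12447949)] (nat_lit 10526835)) p15_25_1 (nat_lit 4) (nat_lit 33) (nat_lit 34) = true := by decide +kernel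
def p15_25_1_34 : pfC (piC [(nat_lit 37722612), (nat_lit 24769386), (nat_lit 18451604), (nat_lit 12447949)] (nat_lit 10526835)) p15_25_1 (nat_lit 4) (nat_lit 34) (nat_lit 35) = true := by decide +kernel
def p15_25_1_35 : pfC (piC [(nat_lit 37722612), (nat_lit 24769386), (nat_lit 18451604), (nat_lit 12447949)] (nat_lit 10526835)) p15_25_1 (nat_lit 4) (nat_lit 35) (nat_lit 36) = true := by decide +kernel
def p15_25_1_36 : pfC (piC [(nat_lit 37722612), (nat_lit 24769386), (nat_lit 18451604), (nat_lit 12447949)] (nat_lit 10526835)) p15_25_1 (nat_lit 4) (nat_lit 36) (nat_lit 37) = true := by decide +kernel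
def p15_25_1_37 : pfC (piC [(nat_lit 37722612), (nat_lit 24769386), (nat_lit 18451604), (nat_lit 12447949)] (nat_lit 10526835)) p15_25_1 (nat_lit 4) (nat_lit 37) (nat_lit 38) = true := by decide +kernel
def p15_25_1_38 : pfC (piC [(nat_lit 37722612), (nat_lit 24769386), (nat_lit 18451604), (nat_lit 12447949)] (nat_lit 10526835)) p15_25_1 (nat_lit 4) (nat_lit 38) (nat_lit 39) = true := by decide +kernel
def p15_25_1_39 : pfC (piC [(nat_lit 37722612), (nat_lit 24769386), (nat_lit 18451604), (nat_lit 12447949)] (nat_lit 10526835)) p15_25_1 (nat_lit 4) (nat_lit 39) (nat_lit 40) = true := by decide +kernel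
def p15_25_1_40 : pfC (piC [(nat_lit 37722612), (nat_lit 24769386), (nat_lit 18451604), (nat_lit 12447949)] (nat_lit 10526835)) p15_25_1 (nat_lit 4) (nat_lit 40) (nat_lit 41) = true := by decide +kernel
def p15_25_1_41 : pfC (piC [(nat_lit 37722612), (nat_lit 24769386), (nat_lit 18451604), (nat_lit 12447949)] (nat_lit 10526835)) p15_25_1 (nat_lit 4) (nat_lit 41) (nat_lit 42) = true := by decide +kernel
def p15_25_1_42 : pfC (piC [(nat_lit 37722612), (nat_lit 24769386), (nat_lit 18451604), (nat_lit 12447949)] (nat_lit 10526835)) p15_25_1 (nat_lit 4) (nat_lit 42) (nat_lit 43) = true := by decide +kernel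
def p15_25_1_43 : pfC (piC [(nat_lit 37722612), (nat_lit 24769386), (nat_lit 18451604), (nat_lit 12447949)] (nat_lit 10526835)) p15_25_1 (nat_lit 4) (nat_lit 43) (nat_lit 44) = true := by decide +kernel
def p15_25_1_44 : pfC (piC [(nat_lit 37722612), (nat_lit 24769386), (nat_lit 18451604), (nat_lit 12447949)] (nat_lit 10526835)) p15_25_1 (nat_lit 4) (nat_lit 44) (nat_lit 45) = true := by decide +kernel
def p15_25_1_45 : pfC (piC [(nat_lit 37722612), (nat_lit 24769386), (nat_lit 18451604), (nat_lit 12447949)] (nat_lit 10526835)) p15_25_1 (nat_lit 4) (nat_lit 45) (nat_lit 46) = true := by decide +kernel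
def p15_25_1_46 : pfC (piC [(nat_lit 37722612), (nat_lit 24769386), (nat_lit 18451604), (nat_lit 12447949)] (nat_lit 10526835)) p15_25_1 (nat_lit 4) (nat_lit 46) (nat_lit 47) = true := by decide +kernel
def p15_25_1_47 : pfC (piC [(nat_lit 37722612), (nat_lit 24769386), (nat_lit 18451604), (nat_lit 12447949)] (nat_lit 10526835)) p15_25_1 (nat_lit 4) (nat_lit 47) (nat_lit 48) = true := by decide +kernel
def p15_25_1_48 : pfC (piC [(nat_lit 37722612), (nat_lit 24769386), (nat_lit 18451604), (nat_lit 12447949)] (nat_lit 10526835)) p15_25_1 (nat_lit 4) (nat_lit 48) (nat_lit 49) = true := by decide +kernel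
def p15_25_1_49 : pfC (piC [(nat_lit 37722612), (nat_lit 24769386), (nat_lit 18451604), (nat_lit 12447949)] (nat_lit 10526835)) p15_25_1 (nat_lit 4) (nat_lit 49) (nat_lit 50) = true := by decide +kernel
def p15_25_1_50 : pfC (piC [(nat_lit 37722612), (nat_lit 24769386), (nat_lit 18451604), (nat_lit 12447949)] (nat_lit 10526835)) p15_25_1 (nat_lit 4) (nat_lit 50) (nat_lit 51) = true := by decide +kernel
def p15_25_1_51 : pfC (piC [(nat_lit 37722612), (nat_lit 24769386), (nat_lit 18451604), (nat_lit 12447949)] (nat_lit 10526835)) p15_25_1 (nat_lit 4) (nat_lit 51) (nat_lit 52) = true := by decide +kernel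
def p15_25_1_52 : pfC (piC [(nat_lit 37722612), (nat_lit 24769386), (nat_lit 18451604), (nat_lit 12447949)] (nat_lit 10526835)) p15_25_1 (nat_lit 4) (nat_lit 52) (nat_lit 53) = true := by decide +kernel
def p15_25_1_53 : pfC (piC [(nat_lit 37722612), (nat_lit 24769386), (nat_lit 18451604), (nat_lit 12447949)] (nat_lit 10526835)) p15_25_1 (nat_lit 4) (nat_lit 53) (nat_lit 54) = true := by decide +kernel
def p15_25_1_54 : pfC (piC [(nat_lit 37722612), (nat_lit 24769386), (nat_lit 18451604), (nat_lit 12447949)] (nat_lit 10526835)) p15_25_1 (nat_lit 4) (nat_lit 54) (nat_lit 55) = true := by decide +kernel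
def p15_25_1_55 : pfC (piC [(nat_lit 37722612), (nat_lit 24769386), (nat_lit 18451604), (nat_lit 12447949)] (nat_lit 10526835)) p15_25_1 (nat_lit 4) (nat_lit 55) (nat_lit 56) = true := by decide +kernel
def p15_25_1_56 : pfC (piC [(nat_lit 37722612), (nat_lit 24769386), (nat_lit 18451604), (nat_lit 12447949)] (nat_lit 10526835)) p15_25_1 (nat_lit 4) (nat_lit 56) (nat_lit 57) = true := by decide +kernel
def p15_25_1_57 : pfC (piC [(nat_lit 37722612), (nat_lit 24769386), (nat_lit 18451604), (nat_lit 12447949)] (nat_lit 10526835)) p15_25_1 (nat_lit 4) (nat_lit 57) (nat_lit 58) = true := by decide +kernel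
def p15_25_1_58 : pfC (piC [(nat_lit 37722612), (nat_lit 24769386), (nat_lit 18451604), (nat_lit 12447949)] (nat_lit 10526835)) p15_25_1 (nat_lit 4) (nat_lit 58) (nat_lit 59) = true := by decide +kernel
def p15_25_1_59 : pfC (piC [(nat_lit 37722612), (nat_lit 24769386), (nat_lit 18451604), (nat_lit 12447949)] (nat_lit 10526835)) p15_25_1 (nat_lit 4) (nat_lit 59) (nat_lit 60) = true := by decide +kernel
def p15_25_1_60 : pfC (piC [(nat_lit 37722612), (nat_lit 24769386), (nat_lit 18451604), (nat_lit 12447949)] (nat_lit 10526835)) p15_25_1 (nat_lit 4) (nat_lit 60) (nat_lit 61) = true := by decide +kernel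
def p15_25_1_61 : pfC (piC [(nat_lit 37722612), (nat_lit 24769386), (nat_lit 18451604), (nat_lit 12447949)] (nat_lit 10526835)) p15_25_1 (nat_lit 4) (nat_lit 61) (nat_lit 62) = true := by decide +kernel
def p15_25_1_62 : pfC (piC [(nat_lit 37722612), (nat_lit 24769386), (nat_lit 18451604), (nat_lit 12447949)] (nat_lit 10526835)) p15_25_1 (nat_lit 4) (nat_lit 62) (nat_lit 63) = true := by decide +kernel
def p15_25_1_63 : pfC (piC [(nat_lit 37722612), (nat_lit 24769386), (nat_lit 18451604), (nat_lit 12447949)] (nat_lit 10526835)) p15_25_1 (nat_lit 4) (nat_lit 63) (nat_lit 64) = true := by decide +kernel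
def p15_25_1_64 : pfC (piC [(nat_lit 37722612), (nat_lit 24769386), (nat_lit 18451604), (nat_lit 12447949)] (nat_lit 10526835)) p15_25_1 (nat_lit 4) (nat_lit 64) (nat_lit 65) = true := by decide +kernel
def p15_25_1_65 : pfC (piC [(nat_lit 37722612), (nat_lit 24769386), (nat_lit 18451604), (nat_lit 12447949)] (nat_lit 10526835)) p15_25_1 (nat_lit 4) (nat_lit 65) (nat_lit 66) = true := by decide +kernel
def p15_25_1_66 : pfC (piC [(nat_lit 37722612), (nat_lit 24769386), (nat_lit 18451604), (nat_lit 12447949)] (nat_lit 10526835)) p15_25_1 (nat_lit 4) (nat_lit 66) (nat_lit 67) = true := by decide +kernel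
def p15_25_1_67 : pfC (piC [(nat_lit 37722612), (nat_lit 24769386), (nat_lit 18451604), (nat_lit 12447949)] (nat_lit 10526835)) p15_25_1 (nat_lit 4) (nat_lit 67) (nat_lit 68) = true := by decide +kernel
def p15_25_1_68 : pfC (piC [(nat_lit 37722612), (nat_lit 24769386), (nat_lit 18451604), (nat_lit 12447949)] (nat_lit 10526835)) p15_25_1 (nat_lit 4) (nat_lit 68) (nat_lit 69) = true := by decide +kernel
def p15_25_1_69 : pfC (piC [(nat_lit 37722612), (nat_lit 24769386), (nat_lit 18451604), (nat_lit 12447949)] (nat_lit 10526835)) p15_25_1 (nat_lit 4) (nat_lit 69) (nat_lit 70) = true := by decide +kernel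
def p15_25_1_70 : pfC (piC [(nat_lit 37722612), (nat_lit 24769386), (nat_lit 18451604), (nat_lit 12447949)] (nat_lit 10526835)) p15_25_1 (nat_lit 4) (nat_lit 70) (nat_lit 71) = true := by decide +kernel
def p15_25_1_71 : pfC (piC [(nat_lit 37722612), (nat_lit 24769386), (nat_lit 18451604), (nat_lit 12447949)] (nat_lit 10526835)) p15_25_1 (nat_lit 4) (nat_lit 71) (nat_lit 72) = true := by decide +kernel
def p15_25_1_72 : pfC (piC [(nat_lit 37722612), (nat_lit 24769386), (nat_lit 18451604), (nat_lit 12447949)] (nat_lit 10526835)) p15_25_1 (nat_lit 4) (nat_lit 72) (nat_lit 73) = true := by decide +kernel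
def p15_25_1_73 : pfC (piC [(nat_lit 37722612), (nat_lit 24769386), (nat_lit 18451604), (nat_lit 12447949)] (nat_lit 10526835)) p15_25_1 (nat_lit 4) (nat_lit 73) (nat_lit 74) = true := by decide +kernel
def p15_25_1_74 : pfC (piC [(nat_lit 37722612), (nat_lit 24769386), (nat_lit 18451604), (nat_lit 12447949)] (nat_lit 10526835)) p15_25_1 (nat_lit 4) (nat_lit 74) (nat_lit 75) = true := by decide +kernel
def p15_25_1_75 : pfC (piC [(nat_lit 37722612), (nat_lit 24769386), (nat_lit 18451604), (nat_lit 12447949)] (nat_lit 10526835)) p15_25_1 (nat_lit 4) (nat_lit 75) (nat_lit 76) = true := by decide +kernel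
def p15_25_1_76 : pfC (piC [(nat_lit 37722612), (nat_lit 24769386), (nat_lit 18451604), (nat_lit 12447949)] (nat_lit 10526835)) p15_25_1 (nat_lit 4) (nat_lit 76) (nat_lit 77) = true := by decide +kernel
def p15_25_1_77 : pfC (piC [(nat_lit 37722612), (nat_lit 24769386), (nat_lit 18451604), (nat_lit 12447949)] (nat_lit 10526835)) p15_25_1 (nat_lit 4) (nat_lit 77) (nat_lit 78) = true := by decide +kernel
def p15_25_1_78 : pfC (piC [(nat_lit 37722612), (nat_lit 24769386), (nat_lit 18451604), (nat_lit 12447949)] (nat_lit 10526835)) p15_25_1 (nat_lit 4) (nat_lit 78) (nat_lit 79) = true := by decide +kernel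
def p15_25_1_79 : pfC (piC [(nat_lit 37722612), (nat_lit 24769386), (nat_lit 18451604), (nat_lit 12447949)] (nat_lit 10526835)) p15_25_1 (nat_lit 4) (nat_lit 79) (nat_lit 80) = true := by decide +kernel
def p15_25_1_80 : pfC (piC [(nat_lit 37722612), (nat_lit 24769386), (nat_lit 18451604), (nat_lit 12447949)] (nat_lit 10526835)) p15_25_1 (nat_lit 4) (nat_lit 80) (nat_lit 81) = true := by decide +kernel
def p15_25_1_81 : pfC (piC [(nat_lit 37722612), (nat_lit 24769386), (nat_lit 18451604), (nat_lit 12447949)] (nat_lit 10526835)) p15_25_1 (nat_lit 4) (nat_lit 81) (nat_lit 82) = true := by decide +kernel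
def p15_25_1_82 : pfC (piC [(nat_lit 37722612), (nat_lit 24769386), (nat_lit 18451604), (nat_lit 12447949)] (nat_lit 10526835)) p15_25_1 (nat_lit 4) (nat_lit 82) (nat_lit 83) = true := by decide +kernel
def p15_25_1_83 : pfC (piC [(nat_lit 37722612), (nat_lit 24769386), (nat_lit 18451604), (nat_lit 12447949)] (nat_lit 10526835)) p15_25_1 (nat_lit 4) (nat_lit 83) (nat_lit 84) = true := by decide +kernel
def p15_25_1_84 : pfC (piC [(nat_lit 37722612), (nat_lit 24769386), (nat_lit 18451604), (nat_lit 12447949)] (nat_lit 10526835)) p15_25_1 (nat_lit 4) (nat_lit 84) (nat_lit 85) = true := by decide +kernel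
def p15_25_1_85 : pfC (piC [(nat_lit 37722612), (nat_lit 24769386), (nat_lit 18451604), (nat_lit 12447949)] (nat_lit 10526835)) p15_25_1 (nat_lit 4) (nat_lit 85) (nat_lit 86) = true := by decide +kernel
def p15_25_1_86 : pfC (piC [(nat_lit 37722612), (nat_lit 24769386), (nat_lit 18451604), (nat_lit 12447949)] (nat_lit 10526835)) p15_25_1 (nat_lit 4) (nat_lit 86) (nat_lit 87) = true := by decide +kernel
def p15_25_1_87 : pfC (piC [(nat_lit 37722612), (nat_lit 24769386), (nat_lit 18451604), (nat_lit 12447949)] (nat_lit 10526835)) p15_25_1 (nat_lit 4) (nat_lit 87) (nat_lit 88) = true := by decide +kernel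
def p15_25_1_88 : pfC (piC [(nat_lit 37722612), (nat_lit 24769386), (nat_lit 18451604), (nat_lit 12447949)] (nat_lit 10526835)) p15_25_1 (nat_lit 4) (nat_lit 88) (nat_lit 89) = true := by decide +kernel
def p15_25_1_89 : pfC (piC [(nat_lit 37722612), (nat_lit 24769386), (nat_lit 18451604), (nat_lit 12447949)] (nat_lit 10526835)) p15_25_1 (nat_lit 4) (nat_lit 89) (nat_lit 90) = true := by decide +kernel
def p15_25_1_90 : pfC (piC [(nat_lit 37722612), (nat_lit 24769386), (nat_lit 18451604), (nat_lit 12447949)] (nat_lit 10526835)) p15_25_1 (nat_lit 4) (nat_lit 90) (nat_lit 91) = true := by decide +kernel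
def p15_25_1_91 : pfC (piC [(nat_lit 37722612), (nat_lit 24769386), (nat_lit 18451604), (nat_lit 12447949)] (nat_lit 10526835)) p15_25_1 (nat_lit 4) (nat_lit 91) (nat_lit 92) = true := by decide +kernel
def p15_25_1_92 : pfC (piC [(nat_lit 37722612), (nat_lit 24769386), (nat_lit 18451604), (nat_lit 12447949)] (nat_lit 10526835)) p15_25_1 (nat_lit 4) (nat_lit 92) (nat_lit 93) = true := by decide +kernel
def p15_25_1_93 : pfC (piC [(nat_lit 37722612), (nat_lit 24769386), (nat_lit 18451604), (nat_lit 12447949)] (nat_lit 10526835)) p15_25_1 (nat_lit 4) (nat_lit 93) (nat_lit 94) = true := by decide +kernel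
def p15_25_1_94 : pfC (piC [(nat_lit 37722612), (nat_lit 24769386), (nat_lit 18451604), (nat_lit 12447949)] (nat_lit 10526835)) p15_25_1 (nat_lit 4) (nat_lit 94) (nat_lit 95) = true := by decide +kernel
def p15_25_1_95 : pfC (piC [(nat_lit 37722612), (nat_lit 24769386), (nat_lit 18451604), (nat_lit 12447949)] (nat_lit 10526835)) p15_25_1 (nat_lit 4) (nat_lit 95) (nat_lit 96) = true := by decide +kernel
def p15_25_1_96 : pfC (piC [(nat_lit 37722612), (nat_lit 24769386), (nat_lit 18451604), (nat_lit 12447949)] (nat_lit 10526835)) p15_25_1 (nat_lit 4) (nat_lit 96) (nat_lit 97) = true := by decide +kernel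
def p15_25_1_97 : pfC (piC [(nat_lit 37722612), (nat_lit 24769386), (nat_lit 18451604), (nat_lit 12447949)] (nat_lit 10526835)) p15_25_1 (nat_lit 4) (nat_lit 97) (nat_lit 98) = true := by decide +kernel
def p15_25_1_98 : pfC (piC [(nat_lit 37722612), (nat_lit 24769386), (nat_lit 18451604), (nat_lit 12447949)] (nat_lit 10526835)) p15_25_1 (nat_lit 4) (nat_lit 98) (nat_lit 99) = true := by decide +kernel
def p15_25_1_99 : pfC (piC [(nat_lit 37722612), (nat_lit 24769386), (nat_lit 18451604), (nat_lit 12447949)] (nat_lit 10526835)) p15_25_1 (nat_lit 4) (nat_lit 99) (nat_lit 100) = true := by decide +kernel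
def p15_25_1_100 : pfC (piC [(nat_lit 37722612), (nat_lit 24769386), (nat_lit 18451604), (nat_lit 12447949)] (nat_lit 10526835)) p15_25_1 (nat_lit 4) (nat_lit 100) (nat_lit 101) = true := by decide +kernel
def p15_25_1_101 : pfC (piC [(nat_lit 37722612), (nat_lit 24769386), (nat_lit 18451604), (nat_lit 12447949)] (nat_lit 10526835)) p15_25_1 (nat_lit 4) (nat_lit 101) (nat_lit 102) = true := by decide +kernel
def p15_25_1_102 : pfC (piC [(nat_lit 37722612), (nat_lit 24769386), (nat_lit 18451604), (nat_lit 12447949)] (nat_lit 10526835)) p15_25_1 (nat_lit 4) (nat_lit 102) (nat_lit 103) = true := by decide +kernel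
def p15_25_1_103 : pfC (piC [(nat_lit 37722612), (nat_lit 24769386), (nat_lit 18451604), (nat_lit 12447949)] (nat_lit 10526835)) p15_25_1 (nat_lit 4) (nat_lit 103) (nat_lit 104) = true := by decide +kernel
def p15_25_1_104 : pfC (piC [(nat_lit 37722612), (nat_lit 24769386), (nat_lit 18451604), (nat_lit 12447949)] (nat_lit 10526835)) p15_25_1 (nat_lit 4) (nat_lit 104) (nat_lit 105) = true := by decide +kernel
def p15_25_1_105 : pfC (piC [(nat_lit 37722612), (nat_lit 24769386), (nat_lit 18451604), (nat_lit 12447949)] (nat_lit 10526835)) p15_25_1 (nat_lit 4) (nat_lit 105) (nat_lit 106) = true := by decide +kernel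
def p15_25_1_106 : pfC (piC [(nat_lit 37722612), (nat_lit 24769386), (nat_lit 18451604), (nat_lit 12447949)] (nat_lit 10526835)) p15_25_1 (nat_lit 4) (nat_lit 106) (nat_lit 107) = true := by decide +kernel
def p15_25_1_107 : pfC (piC [(nat_lit 37722612), (nat_lit 24769386), (nat_lit 18451604), (nat_lit 12447949)] (nat_lit 10526835)) p15_25_1 (nat_lit 4) (nat_lit 107) (nat_lit 108) = true := by decide +kernel
def p15_25_1_108 : pfC (piC [(nat_lit 37722612), (nat_lit 24769386), (nat_lit 18451604), (nat_lit 12447949)] (nat_lit 10526835)) p15_25_1 (nat_lit 4) (nat_lit 108) (nat_lit 109) = true := by decide +kernel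
def p15_25_1_109 : pfC (piC [(nat_lit 37722612), (nat_lit 24769386), (nat_lit 18451604), (nat_lit 12447949)] (nat_lit 10526835)) p15_25_1 (nat_lit 4) (nat_lit 109) (nat_lit 110) = true := by decide +kernel
def p15_25_1_110 : pfC (piC [(nat_lit 37722612), (nat_lit 24769386), (nat_lit 18451604), (nat_lit 12447949)] (nat_lit 10526835)) p15_25_1 (nat_lit 4) (nat_lit 110) (nat_lit 111) = true := by decide +kernel
def p15_25_1_111 : pfC (piC [(nat_lit 37722612), (nat_lit 24769386), (nat_lit 18451604), (nat_lit 12447949)] (nat_lit 10526835)) p15_25_1 (nat_lit 4) (nat_lit 111) (nat_lit 112) = true := by decide +kernel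
def p15_25_1_112 : pfC (piC [(nat_lit 37722612), (nat_lit 24769386), (nat_lit 18451604), (nat_lit 12447949)] (nat_lit 10526835)) p15_25_1 (nat_lit 4) (nat_lit 112) (nat_lit 113) = true := by decide +kernel
def p15_25_1_113 : pfC (piC [(nat_lit 37722612), (nat_lit 24769386), (nat_lit 18451604), (nat_lit 12447949)] (nat_lit 10526835)) p15_25_1 (nat_lit 4) (nat_lit 113) (nat_lit 114) = true := by decide +kernel
def p15_25_1_114 : pfC (piC [(nat_lit 37722612), (nat_lit 24769386), (nat_lit 18451604), (nat_lit 12447949)] (nat_lit 10526835)) p15_25_1 (nat_lit 4) (nat_lit 114) (nat_lit 115) = true := by decide +kernel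
def p15_25_1_115 : pfC (piC [(nat_lit 37722612), (nat_lit 24769386), (nat_lit 18451604), (nat_lit 12447949)] (nat_lit 10526835)) p15_25_1 (nat_lit 4) (nat_lit 115) (nat_lit 116) = true := by decide +kernel
def p15_25_1_116 : pfC (piC [(nat_lit 37722612), (nat_lit 24769386), (nat_lit 18451604), (nat_lit 12447949)] (nat_lit 10526835)) p15_25_1 (nat_lit 4) (nat_lit 116) (nat_lit 117) = true := by decide +kernel
def p15_25_1_117 : pfC (piC [(nat_lit 37722612), (nat_lit 24769386), (nat_lit 18451604), (nat_lit 12447949)] (nat_lit 10526835)) p15_25_1 (nat_lit 4) (nat_lit 117) (nat_lit 118) = true := by decide +kernel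
def p15_25_1_118 : pfC (piC [(nat_lit 37722612), (nat_lit 24769386), (nat_lit 18451604), (nat_lit 12447949)] (nat_lit 10526835)) p15_25_1 (nat_lit 4) (nat_lit 118) (nat_lit 119) = true := by decide +kernel
def p15_25_1_119 : pfC (piC [(nat_lit 37722612), (nat_lit 24769386), (nat_lit 18451604), (nat_lit 12447949)] (nat_lit 10526835)) p15_25_1 (nat_lit 4) (nat_lit 119) (nat_lit 120) = true := by decide +kernel
def p15_25_1_120 : pfC (piC [(nat_lit 37722612), (nat_lit 24769386), (nat_lit 18451604), (nat_lit 12447949)] (nat_lit 10526835)) p15_25_1 (nat_lit 4) (nat_lit 120) (nat_lit 121) = true := by decide +kernel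
def p15_25_1_121 : pfC (piC [(nat_lit 37722612), (nat_lit 24769386), (nat_lit 18451604), (nat_lit 12447949)] (nat_lit 10526835)) p15_25_1 (nat_lit 4) (nat_lit 121) (nat_lit 122) = true := by decide +kernel
def p15_25_1_122 : pfC (piC [(nat_lit 37722612), (nat_lit 24769386), (nat_lit 18451604), (nat_lit 12447949)] (nat_lit 10526835)) p15_25_1 (nat_lit 4) (nat_lit 122) (nat_lit 123) = true := by decide +kernel
def p15_25_1_123 : pfC (piC [(nat_lit 37722612), (nat_lit 24769386), (nat_lit 18451604), (nat_lit 12447949)] (nat_lit 10526835)) p15_25_1 (nat_lit 4) (nat_lit 123) (nat_lit 124) = true := by decide +kernel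
def p15_25_1_124 : pfC (piC [(nat_lit 37722612), (nat_lit 24769386), (nat_lit 18451604), (nat_lit 12447949)] (nat_lit 10526835)) p15_25_1 (nat_lit 4) (nat_lit 124) (nat_lit 125) = true := by decide +kernel
def p15_25_1_125 : pfC (piC [(nat_lit 37722612), (nat_lit 24769386), (nat_lit 18451604), (nat_lit 12447949)] (nat_lit 10526835)) p15_25_1 (nat_lit 4) (nat_lit 125) (nat_lit 126) = true := by decide +kernel
def p15_25_1_126 : pfC (piC [(nat_lit 37722612), (nat_lit 24769386), (nat_lit 18451604), (nat_lit 12447949)] (nat_lit 10526835)) p15_25_1 (nat_lit 4) (nat_lit 126) (nat_lit 127) = true := by decide +kernel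
def p15_25_1_127 : pfC (piC [(nat_lit 37722612), (nat_lit 24769386), (nat_lit 18451604), (nat_lit 12447949)] (nat_lit 10526835)) p15_25_1 (nat_lit 4) (nat_lit 127) (nat_lit 128) = true := by decide +kernel
def p15_25_1_128 : pfC (piC [(nat_lit 37722612), (nat_lit 24769386), (nat_lit 18451604), (nat_lit 12447949)] (nat_lit 10526835)) p15_25_1 (nat_lit 4) (nat_lit 128) (nat_lit 129) = true := by decide +kernel
def p15_25_1_129 : pfC (piC [(nat_lit 37722612), (nat_lit 24769386), (nat_lit 18451604), (nat_lit 12447949)] (nat_lit 10526835)) p15_25_1 (nat_lit 4) (nat_lit 129) (nat_lit 130) = true := by decide +kernel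
def p15_25_1_130 : pfC (piC [(nat_lit 37722612), (nat_lit 24769386), (nat_lit 18451604), (nat_lit 12447949)] (nat_lit 10526835)) p15_25_1 (nat_lit 4) (nat_lit 130) (nat_lit 131) = true := by decide +kernel
def p15_25_1_131 : pfC (piC [(nat_lit 37722612), (nat_lit 24769386), (nat_lit 18451604), (nat_lit 12447949)] (nat_lit 10526835)) p15_25_1 (nat_lit 4) (nat_lit 131) (nat_lit 132) = true := by decide +kernel
def p15_25_1_132 : pfC (piC [(nat_lit 37722612), (nat_lit 24769386), (nat_lit 18451604), (nat_lit 12447949)] (nat_lit 10526835)) p15_25_1 (nat_lit 4) (nat_lit 132) (nat_lit 133) = true := by decide +kernel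
def p15_25_1_133 : pfC (piC [(nat_lit 37722612), (nat_lit 24769386), (nat_lit 18451604), (nat_lit 12447949)] (nat_lit 10526835)) p15_25_1 (nat_lit 4) (nat_lit 133) (nat_lit 134) = true := by decide +kernel
def p15_25_1_134 : pfC (piC [(nat_lit 37722612), (nat_lit 24769386), (nat_lit 18451604), (nat_lit 12447949)] (nat_lit 10526835)) p15_25_1 (nat_lit 4) (nat_lit 134) (nat_lit 135) = true := by decide +kernel
def p15_25_1_135 : pfC (piC [(nat_lit 37722612), (nat_lit 24769386), (nat_lit 18451604), (nat_lit 12447949)] (nat_lit 10526835)) p15_25_1 (nat_lit 4) (nat_lit 135) (nat_lit 136) = true := by decide +kernel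
def p15_25_1_136 : pfC (piC [(nat_lit 37722612), (nat_lit 24769386), (nat_lit 18451604), (nat_lit 12447949)] (nat_lit 10526835)) p15_25_1 (nat_lit 4) (nat_lit 136) (nat_lit 137) = true := by decide +kernel
def p15_25_1_137 : pfC (piC [(nat_lit 37722612), (nat_lit 24769386), (nat_lit 18451604), (nat_lit 12447949)] (nat_lit 10526835)) p15_25_1 (nat_lit 4) (nat_lit 137) (nat_lit 138) = true := by decide +kernel
def p15_25_1_138 : pfC (piC [(nat_lit 37722612), (nat_lit 24769386), (nat_lit 18451604), (nat_lit 12447949)] (nat_lit 10526835)) p15_25_1 (nat_lit 4) (nat_lit 138) (nat_lit 139) = true := by decide +kernel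
def p15_25_1_139 : pfC (piC [(nat_lit 37722612), (nat_lit 24769386), (nat_lit 18451604), (nat_lit 12447949)] (nat_lit 10526835)) p15_25_1 (nat_lit 4) (nat_lit 139) (nat_lit 140) = true := by decide +kernel
def p15_25_1_140 : pfC (piC [(nat_lit 37722612), (nat_lit 24769386), (nat_lit 18451604), (nat_lit 12447949)] (nat_lit 10526835)) p15_25_1 (nat_lit 4) (nat_lit 140) (nat_lit 141) = true := by decide +kernel
def p15_25_1_141 : pfC (piC [(nat_lit 37722612), (nat_lit 24769386), (nat_lit 18451604), (nat_lit 12447949)] (nat_lit 10526835)) p15_25_1 (nat_lit 4) (nat_lit 141) (nat_lit 142) = true := by decide +kernel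
def p15_25_1_142 : pfC (piC [(nat_lit 37722612), (nat_lit 24769386), (nat_lit 18451604), (nat_lit 12447949)] (nat_lit 10526835)) p15_25_1 (nat_lit 4) (nat_lit 142) (nat_lit 143) = true := by decide +kernel
def p15_25_1_143 : pfC (piC [(nat_lit 37722612), (nat_lit 24769386), (nat_lit 18451604), (nat_lit 12447949)] (nat_lit 10526835)) p15_25_1 (nat_lit 4) (nat_lit 143) (nat_lit 144) = true := by decide +kernel
def p15_25_1_144 : pfC (piC [(nat_lit 37722612), (nat_lit 24769386), (nat_lit 18451604), (nat_lit 12447949)] (nat_lit 10526835)) p15_25_1 (nat_lit 4) (nat_lit 144) (nat_lit 145) = true := by decide +kernel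
def p15_25_1_145 : pfC (piC [(nat_lit 37722612), (nat_lit 24769386), (nat_lit 18451604), (nat_lit 12447949)] (nat_lit 10526835)) p15_25_1 (nat_lit 4) (nat_lit 145) (nat_lit 146) = true := by decide +kernel
def p15_25_1_146 : pfC (piC [(nat_lit 37722612), (nat_lit 24769386), (nat_lit 18451604), (nat_lit 12447949)] (nat_lit 10526835)) p15_25_1 (nat_lit 4) (nat_lit 146) (nat_lit 147) = true := by decide +kernel
def p15_25_1_147 : pfC (piC [(nat_lit 37722612), (nat_lit 24769386), (nat_lit 18451604), (nat_lit 12447949)] (nat_lit 10526835)) p15_25_1 (nat_lit 4) (nat_lit 147) (nat_lit 148) = true := by decide +kernel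
def p15_25_1_148 : pfC (piC [(nat_lit 37722612), (nat_lit 24769386), (nat_lit 18451604), (nat_lit 12447949)] (nat_lit 10526835)) p15_25_1 (nat_lit 4) (nat_lit 148) (nat_lit 149) = true := by decide +kernel
def p15_25_1_149 : pfC (piC [(nat_lit 37722612), (nat_lit 24769386), (nat_lit 18451604), (nat_lit 12447949)] (nat_lit 10526835)) p15_25_1 (nat_lit 4) (nat_lit 149) (nat_lit 150) = true := by decide +kernel
def p15_25_1_150 : pfC (piC [(nat_lit 37722612), (nat_lit 24769386), (nat_lit 18451604), (nat_lit 12447949)] (nat_lit 10526835)) p15_25_1 (nat_lit 4) (nat_lit 150) (nat_lit 151) = true := by decide +kernel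
def p15_25_1_151 : pfC (piC [(nat_lit 37722612), (nat_lit 24769386), (nat_lit 18451604), (nat_lit 12447949)] (nat_lit 10526835)) p15_25_1 (nat_lit 4) (nat_lit 151) (nat_lit 152) = true := by decide +kernel
def p15_25_1_152 : pfC (piC [(nat_lit 37722612), (nat_lit 24769386), (nat_lit 18451604), (nat_lit 12447949)] (nat_lit 10526835)) p15_25_1 (nat_lit 4) (nat_lit 152) (nat_lit 153) = true := by decide +kernel
def p15_25_1_153 : pfC (piC [(nat_lit 37722612), (nat_lit 24769386), (nat_lit 18451604), (nat_lit 12447949)] (nat_lit 10526835)) p15_25_1 (nat_lit 4) (nat_lit 153) (nat_lit 154) = true := by decide +kernel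
def p15_25_1_154 : pfC (piC [(nat_lit 37722612), (nat_lit 24769386), (nat_lit 18451604), (nat_lit 12447949)] (nat_lit 10526835)) p15_25_1 (nat_lit 4) (nat_lit 154) (nat_lit 155) = true := by decide +kernel
def p15_25_1_155 : pfC (piC [(nat_lit 37722612), (nat_lit 24769386), (nat_lit 18451604), (nat_lit 12447949)] (nat_lit 10526835)) p15_25_1 (nat_lit 4) (nat_lit 155) (nat_lit 156) = true := by decide +kernel
def p15_25_1_156 : pfC (piC [(nat_lit 37722612), (nat_lit 24769386), (nat_lit 18451604), (nat_lit 12447949)] (nat_lit 10526835)) p15_25_1 (nat_lit 4) (nat_lit 156) (nat_lit 157) = true := by decide +kernel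
def p15_25_1_157 : pfC (piC [(nat_lit 37722612), (nat_lit 24769386), (nat_lit 18451604), (nat_lit 12447949)] (nat_lit 10526835)) p15_25_1 (nat_lit 4) (nat_lit 157) (nat_lit 158) = true := by decide +kernel
def p15_25_1_158 : pfC (piC [(nat_lit 37722612), (nat_lit 24769386), (nat_lit 18451604), (nat_lit 12447949)] (nat_lit 10526835)) p15_25_1 (nat_lit 4) (nat_lit 158) (nat_lit 159) = true := by decide +kernel
def p15_25_1_159 : pfC (piC [(nat_lit 37722612), (nat_lit 24769386), (nat_lit 18451604), (nat_lit 12447949)] (nat_lit 10526835)) p15_25_1 (nat_lit 4) (nat_lit 159) (nat_lit 160) = true := by decide +kernel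
def p15_25_1_160 : pfC (piC [(nat_lit 37722612), (nat_lit 24769386), (nat_lit 18451604), (nat_lit 12447949)] (nat_lit 10526835)) p15_25_1 (nat_lit 4) (nat_lit 160) (nat_lit 161) = true := by decide +kernel
def p15_25_1_161 : pfC (piC [(nat_lit 37722612), (nat_lit 24769386), (nat_lit 18451604), (nat_lit 12447949)] (nat_lit 10526835)) p15_25_1 (nat_lit 4) (nat_lit 161) (nat_lit 162) = true := by decide +kernel
def p15_25_1_162 : pfC (piC [(nat_lit 37722612), (nat_lit 24769386), (nat_lit 18451604), (nat_lit 12447949)] (nat_lit 10526835)) p15_25_1 (nat_lit 4) (nat_lit 162) (nat_lit 163) = true := by decide +kernel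
def p15_25_1_163 : pfC (piC [(nat_lit 37722612), (nat_lit 24769386), (nat_lit 18451604), (nat_lit 12447949)] (nat_lit 10526835)) p15_25_1 (nat_lit 4) (nat_lit 163) (nat_lit 164) = true := by decide +kernel
def p15_25_1_164 : pfC (piC [(nat_lit 37722612), (nat_lit 24769386), (nat_lit 18451604), (nat_lit 12447949)] (nat_lit 10526835)) p15_25_1 (nat_lit 4) (nat_lit 164) (nat_lit 165) = true := by decide +kernel
def p15_25_1_165 : pfC (piC [(nat_lit 37722612), (nat_lit 24769386), (nat_lit 18451604), (nat_lit 12447949)] (nat_lit 10526835)) p15_25_1 (nat_lit 4) (nat_lit 165) (nat_lit 166) = true := by decide +kernel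
def p15_25_1_166 : pfC (piC [(nat_lit 37722612), (nat_lit 24769386), (nat_lit 18451604), (nat_lit 12447949)] (nat_lit 10526835)) p15_25_1 (nat_lit 4) (nat_lit 166) (nat_lit 167) = true := by decide +kernel
def p15_25_1_167 : pfC (piC [(nat_lit 37722612), (nat_lit 24769386), (nat_lit 18451604), (nat_lit 12447949)] (nat_lit 10526835)) p15_25_1 (nat_lit 4) (nat_lit 167) (nat_lit 168) = true := by decide +kernel
def p15_25_1_168 : pfC (piC [(nat_lit 37722612), (nat_lit 24769386), (nat_lit 18451604), (nat_lit 12447949)] (nat_lit 10526835)) p15_25_1 (nat_lit 4) (nat_lit 168) (nat_lit 169) = true := by decide +kernel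
def p15_25_1_169 : pfC (piC [(nat_lit 37722612), (nat_lit 24769386), (nat_lit 18451604), (nat_lit 12447949)] (nat_lit 10526835)) p15_25_1 (nat_lit 4) (nat_lit 169) (nat_lit 170) = true := by decide +kernel
def p15_25_1_170 : pfC (piC [(nat_lit 37722612), (nat_lit 24769386), (nat_lit 18451604), (nat_lit 12447949)] (nat_lit 10526835)) p15_25_1 (nat_lit 4) (nat_lit 170) (nat_lit 171) = true := by decide +kernel
def p15_25_1_171 : pfC (piC [(nat_lit 37722612), (nat_lit 24769386), (nat_lit 18451604), (nat_lit 12447949)] (nat_lit 10526835)) p15_25_1 (nat_lit 4) (nat_lit 171) (nat_lit 172) = true := by decide +kernel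
def p15_25_1_172 : pfC (piC [(nat_lit 37722612), (nat_lit 24769386), (nat_lit 18451604), (nat_lit 12447949)] (nat_lit 10526835)) p15_25_1 (nat_lit 4) (nat_lit 172) (nat_lit 173) = true := by decide +kernel
def p15_25_1_173 : pfC (piC [(nat_lit 37722612), (nat_lit 24769386), (nat_lit 18451604), (nat_lit 12447949)] (nat_lit 10526835)) p15_25_1 (nat_lit 4) (nat_lit 173) (nat_lit 174) = true := by decide +kernel
def p15_25_1_174 : pfC (piC [(nat_lit 37722612), (nat_lit 24769386), (nat_lit 18451604), (nat_lit 12447949)] (nat_lit 10526835)) p15_25_1 (nat_lit 4) (nat_lit 174) (nat_lit 175) = true := by decide +kernel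
def p15_25_1_175 : pfC (piC [(nat_lit 37722612), (nat_lit 24769386), (nat_lit 18451604), (nat_lit 12447949)] (nat_lit 10526835)) p15_25_1 (nat_lit 4) (nat_lit 175) (nat_lit 176) = true := by decide +kernel
def p15_25_1_176 : pfC (piC [(nat_lit 37722612), (nat_lit 24769386), (nat_lit 18451604), (nat_lit 12447949)] (nat_lit 10526835)) p15_25_1 (nat_lit 4) (nat_lit 176) (nat_lit 177) = true := by decide +kernel
def p15_25_1_177 : pfC (piC [(nat_lit 37722612), (nat_lit 24769386), (nat_lit 18451604), (nat_lit 12447949)] (nat_lit 10526835)) p15_25_1 (nat_lit 4) (nat_lit 177) (nat_lit 178) = true := by decide +kernel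
theorem p15_25_1_T : PfS (PiF n15_25.reverse (nat_lit 10526835)) p15_25_1 (nat_lit 4) [] 0 :=
  pftab_of (los := [(nat_lit 37722612), (nat_lit 24769386), (nat_lit 18451604), (nat_lit 12447949)]) (by decide +kernel) (hi := (nat_lit 178)) (PfP.trans (PfP.trans (PfP.trans (PfP.trans (PfP.trans (PfP.trans (PfP.trans (PfP.trans (PfP.trans (PfP.trans (PfP.trans (PfP.trans (PfP.trans (PfP.trans (PfP.trans (PfP.trans (PfP.trans (PfP.trans (PfP.trans (PfP.trans (PfP.trans (PfP.trans (PfP.trans (PfP.trans (PfP.trans (PfP.trans (PfP.trans (PfP.trans (PfP.trans (PfP.trans (PfP.trans (PfP.trans (PfP.trans (PfP.trans (PfP.trans (PfP.trans (PfP.trans (PfP.trans (PfP.trans (PfP.trans (PfP.trans (PfP.trans (PfP.trans (PfP.trans (PfP.trans (PfP.trans (PfP.trans (PfP.trans (PfP.trans (PfP.trans (PfP.trans (PfP.trans (PfP.trans (PfP.trans (PfP.trans (PfP.trans (PfP.trans (PfP.trans (PfP.trans (PfP.trans (PfP.trans (PfP.trans (PfP.trans (PfP.trans (PfP.trans (PfP.trans (PfP.trans (PfP.trans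 (PfP.trans (PfP.trans (PfP.trans (PfP.trans (PfP.trans (PfP.trans (PfP.trans (PfP.trans (PfP.trans (PfP.trans (PfP.trans (PfP.trans (PfP.trans (PfP.trans (PfP.trans (PfP.trans (PfP.trans (PfP.trans (PfP.trans (PfP.trans (PfP.trans (PfP.trans (PfP.trans (PfP.trans (PfP.trans (PfP.trans (PfP.trans (PfP.trans (PfP.trans (PfP.trans (PfP.trans (PfP.trans (PfP.trans (PfP.trans (PfP.trans (PfP.trans (PfP.trans (PfP.trans (PfP.trans (PfP.trans (PfP.trans
 (PfP.trans (PfP.trans (PfP.trans (PfP.trans (PfP.trans (PfP.trans (PfP.trans (PfP.trans (PfP.trans (PfP.trans (PfP.trans (PfP.trans (PfP.trans (PfP.trans (PfP.trans (PfP.trans (PfP.trans (PfP.trans (PfP.trans (PfP.trans (PfP.trans (PfP.trans (PfP.trans (PfP.trans (PfP.trans (PfP.trans (PfP.trans (PfP.trans (PfP.trans (PfP.trans (PfP.trans (PfP.trans (PfP.trans (PfP.trans (PfP.trans (PfP.trans (PfP.trans (PfP.trans (PfP.trans (PfP.trans (PfP.trans (PfP.trans (PfP.trans (PfP.trans (PfP.trans (PfP.trans (PfP.trans (PfP.trans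 (PfP.trans (PfP.trans (PfP.trans (PfP.trans (PfP.trans (PfP.trans (PfP.trans (PfP.trans (PfP.trans (PfP.trans (PfP.trans (PfP.trans (PfP.trans (PfP.trans (PfP.trans (PfP.trans (PfP.trans (PfP.trans (PfP.trans (PfP.trans (pfC_sound p15_25_1_0) (pfC_sound p15_25_1_1)) (pfC_sound p15_25_1_2)) (pfC_sound p15_25_1_3)) (pfC_sound p15_25_1_4)) (pfC_sound p15_25_1_5)) (pfC_sound p15_25_1_6)) (pfC_sound p15_25_1_7)) (pfC_sound p15_25_1_8)) (pfC_sound p15_25_1_9)) (pfC_sound p15_25_1_10)) (pfC_sound p15_25_1_11)) (pfC_sound p15_25_1_12)) (pfC_sound p15_25_1_13)) (pfC_sound p15_25_1_14)) (pfC_sound p15_25_1_15)) (pfC_sound p15_25_1_16)) (pfC_sound p15_25_1_17)) (pfC_sound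
 p15_25_1_18)) (pfC_sound p15_25_1_19)) (pfC_sound p15_25_1_20)) (pfC_sound p15_25_1_21)) (pfC_sound p15_25_1_22)) (pfC_sound p15_25_1_23)) (pfC_sound p15_25_1_24)) (pfC_sound p15_25_1_25)) (pfC_sound p15_25_1_26)) (pfC_sound p15_25_1_27)) (pfC_sound p15_25_1_28)) (pfC_sound p15_25_1_29)) (pfC_sound p15_25_1_30)) (pfC_sound p15_25_1_31)) (pfC_sound p15_25_1_32)) (pfC_sound p15_25_1_33)) (pfC_sound p15_25_1_34)) (pfC_sound p15_25_1_35)) (pfC_sound p15_25_1_36)) (pfC_sound p15_25_1_37)) (pfC_sound p15_25_1_38)) (pfC_sound p15_25_1_39)) (pfC_sound p15_25_1_40)) (pfC_sound p15_25_1_41)) (pfC_sound p15_25_1_42)) (pfC_sound p15_25_1_43)) (pfC_sound p15_25_1_44)) (pfC_sound p15_25_1_45)) (pfC_sound p15_25_1_46)) (pfC_sound p15_25_1_47)) (pfC_sound p15_25_1_48)) (pfC_sound p15_25_1_49)) (pfC_sound p15_25_1_50)) (pfC_sound p15_25_1_51)) (pfC_sound p15_25_1_52)) (pfC_sound p15_25_1_53)) (pfC_sound p15_25_1_54)) (pfC_sound p15_25_1_55)) (pfC_sound p15_25_1_56)) (pfC_sound p15_25_1_57))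 (pfC_sound p15_25_1_58)) (pfC_sound p15_25_1_59)) (pfC_sound p15_25_1_60)) (pfC_sound p15_25_1_61)) (pfC_sound p15_25_1_62)) (pfC_sound p15_25_1_63)) (pfC_sound p15_25_1_64)) (pfC_sound p15_25_1_65)) (pfC_sound
 p15_25_1_66)) (pfC_sound p15_25_1_67)) (pfC_sound p15_25_1_68)) (pfC_sound p15_25_1_69)) (pfC_sound p15_25_1_70)) (pfC_sound p15_25_1_71)) (pfC_sound p15_25_1_72)) (pfC_sound p15_25_1_73)) (pfC_sound p15_25_1_74)) (pfC_sound p15_25_1_75)) (pfC_sound p15_25_1_76)) (pfC_sound p15_25_1_77)) (pfC_sound p15_25_1_78)) (pfC_sound p15_25_1_79)) (pfC_sound p15_25_1_80)) (pfC_sound p15_25_1_81)) (pfC_sound p15_25_1_82)) (pfC_sound p15_25_1_83)) (pfC_sound p15_25_1_84)) (pfC_sound p15_25_1_85)) (pfC_sound p15_25_1_86)) (pfC_sound p15_25_1_87)) (pfC_sound p15_25_1_88)) (pfC_sound p15_25_1_89)) (pfC_sound p15_25_1_90)) (pfC_sound p15_25_1_91)) (pfC_sound p15_25_1_92)) (pfC_sound p15_25_1_93)) (pfC_sound p15_25_1_94)) (pfC_sound p15_25_1_95)) (pfC_sound p15_25_1_96)) (pfC_sound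 p15_25_1_97)) (pfC_sound p15_25_1_98)) (pfC_sound p15_25_1_99)) (pfC_sound p15_25_1_100)) (pfC_sound p15_25_1_101)) (pfC_sound p15_25_1_102)) (pfC_sound p15_25_1_103)) (pfC_sound p15_25_1_104)) (pfC_sound p15_25_1_105)) (pfC_sound p15_25_1_106)) (pfC_sound p15_25_1_107)) (pfC_sound p15_25_1_108)) (pfC_sound p15_25_1_109)) (pfC_sound p15_25_1_110)) (pfC_sound p15_25_1_111)) (pfC_sound p15_25_1_112)) (pfC_sound
 p15_25_1_113)) (pfC_sound p15_25_1_114)) (pfC_sound p15_25_1_115)) (pfC_sound p15_25_1_116)) (pfC_sound p15_25_1_117)) (pfC_sound p15_25_1_118)) (pfC_sound p15_25_1_119)) (pfC_sound p15_25_1_120)) (pfC_sound p15_25_1_121)) (pfC_sound p15_25_1_122)) (pfC_sound p15_25_1_123)) (pfC_sound p15_25_1_124)) (pfC_sound p15_25_1_125)) (pfC_sound p15_25_1_126)) (pfC_sound p15_25_1_127)) (pfC_sound p15_25_1_128)) (pfC_sound p15_25_1_129)) (pfC_sound p15_25_1_130)) (pfC_sound p15_25_1_131)) (pfC_sound p15_25_1_132)) (pfC_sound p15_25_1_133)) (pfC_sound p15_25_1_134)) (pfC_sound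 p15_25_1_135)) (pfC_sound p15_25_1_136)) (pfC_sound p15_25_1_137)) (pfC_sound p15_25_1_138)) (pfC_sound p15_25_1_139)) (pfC_sound p15_25_1_140)) (pfC_sound p15_25_1_141)) (pfC_sound p15_25_1_142)) (pfC_sound p15_25_1_143)) (pfC_sound p15_25_1_144)) (pfC_sound p15_25_1_145)) (pfC_sound p15_25_1_146)) (pfC_sound p15_25_1_147)) (pfC_sound p15_25_1_148)) (pfC_sound p15_25_1_149)) (pfC_sound p15_25_1_150)) (pfC_sound p15_25_1_151)) (pfC_sound p15_25_1_152)) (pfC_sound p15_25_1_153)) (pfC_sound p15_25_1_154)) (pfC_sound p15_25_1_155)) (pfC_sound p15_25_1_156)) (pfC_sound p15_25_1_157)) (pfC_sound p15_25_1_158)) (pfC_sound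
 p15_25_1_159)) (pfC_sound p15_25_1_160)) (pfC_sound p15_25_1_161)) (pfC_sound p15_25_1_162)) (pfC_sound p15_25_1_163)) (pfC_sound p15_25_1_164)) (pfC_sound p15_25_1_165)) (pfC_sound p15_25_1_166)) (pfC_sound p15_25_1_167)) (pfC_sound p15_25_1_168)) (pfC_sound p15_25_1_169)) (pfC_sound p15_25_1_170)) (pfC_sound p15_25_1_171)) (pfC_sound p15_25_1_172)) (pfC_sound p15_25_1_173)) (pfC_sound p15_25_1_174)) (pfC_sound p15_25_1_175)) (pfC_sound p15_25_1_176)) (pfC_sound p15_25_1_177)) (by decide +kernel)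

def z15_25_1 : zOK yB15_25 (nat_lit 1) (nat_lit 400) (nat_lit 600) (nat_lit 10526835) (nat_lit 6733447) = true := by decide +kernel
def g15_25_1 : gOK yB15_25.x P15_25 (nat_lit 1413) (q15_25 :: r15_25) (nat_lit 1) (nat_lit 400) (nat_lit 2) (nat_lit 600) (nat_lit 11000000) (nat_lit 17850000) (nat_lit 12712500) (nat_lit 12712500) [(nat_lit 800), (nat_lit 1130)] = true := by decide +kernel
def v15_25_1 : ivC P15_25 s15_25 w15_25 n15_25 (nat_lit 4) (nat_lit 4970) (nat_lit 1) (nat_lit 400) f160_1_400 f168_1_400 (nat_lit 2) (nat_lit 600) f160_1_600 f168_1_600 (nat_lit 10526835) (nat_lit 6733447) p15_25_1 = true := by decide +kernel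
def p15_25_2 : PF := (PF.cons (PF.cons (PF.cons (PF.cons (PF.leaf (nat_lit 2737896) (nat_lit 15903773) (nat_lit 51205039) (nat_lit 15903773) [(nat_lit 0), (nat_lit 0), (nat_lit 0), (nat_lit 0)]) (PF.cons (PF.leaf (nat_lit 2921175) (nat_lit 329226) (nat_lit 50897134) (nat_lit 15882452) [(nat_lit 329226), (nat_lit 0), (nat_lit 0), (nat_lit 0)]) (PF.cons (PF.leaf (nat_lit 3136997) (nat_lit 357436) (nat_lit 50538118) (nat_lit 15855821) [(nat_lit 357436), (nat_lit 0), (nat_lit 0), (nat_lit 0)]) (PF.cons (PF.leaf (nat_lit 3378692) (nat_lit 382247) (nat_lit 50138091) (nat_lit 15823978) [(nat_lit 382247), (nat_lit 0), (nat_lit 0), (nat_lit 0)]) (PF.cons (PF.leaf (nat_lit 3642249) (nat_lit 404398) (nat_lit 49704284) (nat_lit 15786932) [(nat_lit 404398), (nat_lit 0), (nat_lit 0), (nat_lit 0)]) (PF.cons (PF.leaf (nat_lit 3924549) (nat_lit 424363) (nat_lit 49242312) (nat_lit 15744683) [(nat_lit 424363), (nat_lit 0), (nat_lit 0), (nat_lit 0)]) (PF.cons (PF.leaf (nat_lit 4223105)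 (nat_lit 442467) (nat_lit 48756757) (nat_lit 15697247) [(nat_lit 442467), (nat_lit 0), (nat_lit 0), (nat_lit 0)]) (PF.cons (PF.leaf (nat_lit 4535762) (nat_lit 458951) (nat_lit 48251483) (nat_lit 15644671) [(nat_lit 458951), (nat_lit 0),
 (nat_lit 0), (nat_lit 0)]) (PF.cons (PF.leaf (nat_lit 4860659) (nat_lit 473994) (nat_lit 47729816) (nat_lit 15587036) [(nat_lit 473994), (nat_lit 0), (nat_lit 0), (nat_lit 0)]) (PF.cons (PF.leaf (nat_lit 5196199) (nat_lit 487743) (nat_lit 47194663) (nat_lit 15524457) [(nat_lit 487743), (nat_lit 0), (nat_lit 0), (nat_lit 0)]) (PF.cons PF.nil (PF.cons PF.nil PF.nil)))))))))))) (PF.cons (PF.cons (PF.leaf (nat_lit 3317083) (nat_lit 1395912) (nat_lit 49912733) (nat_lit 15800167) [(nat_lit 0), (nat_lit 1395912), (nat_lit 0), (nat_lit 0)]) (PF.cons (PF.leaf (nat_lit 3550490) (nat_lit 391770) (nat_lit 49520196) (nat_lit 15765494) [(nat_lit 391770), (nat_lit 1431351), (nat_lit 0), (nat_lit 0)]) (PF.cons (PF.leaf (nat_lit 3807992) (nat_lit 413133)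 (nat_lit 49091799) (nat_lit 15725317) [(nat_lit 413133), (nat_lit 1465429), (nat_lit 0), (nat_lit 0)]) (PF.cons (PF.leaf (nat_lit 4085077) (nat_lit 432309) (nat_lit 48634432) (nat_lit 15679794) [(nat_lit 432309), (nat_lit 1497658), (nat_lit 0), (nat_lit 0)]) (PF.cons (PF.leaf (nat_lit 4378859) (nat_lit 449654) (nat_lit 48153320) (nat_lit 15629046) [(nat_lit 449654), (nat_lit 1527827), (nat_lit 0), (nat_lit 0)]) (PF.cons (PF.leaf (nat_lit 4686992)
 (nat_lit 465419) (nat_lit 47652663) (nat_lit 15573190) [(nat_lit 465419), (nat_lit 1555860), (nat_lit 0), (nat_lit 0)]) (PF.cons (PF.leaf (nat_lit 5007492) (nat_lit 479788) (nat_lit 47135965) (nat_lit 15512360) [(nat_lit 479788), (nat_lit 1581757), (nat_lit 0), (nat_lit 0)]) (PF.cons (PF.leaf (nat_lit 5338629) (nat_lit 492903) (nat_lit 46606216) (nat_lit 15446712) [(nat_lit 492903), (nat_lit 1605557), (nat_lit 0), (nat_lit 0)]) (PF.cons (PF.leaf (nat_lit 5678911) (nat_lit 504881) (nat_lit 46066014) (nat_lit 15376418) [(nat_lit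 504881), (nat_lit 1627323), (nat_lit 0), (nat_lit 0)]) (PF.cons PF.nil PF.nil)))))))))) (PF.cons (PF.cons (PF.leaf (nat_lit 3976877) (nat_lit 1491836) (nat_lit 48467528) (nat_lit 15657610) [(nat_lit 0), (nat_lit 1491836), (nat_lit 0), (nat_lit 0)]) (PF.cons (PF.leaf (nat_lit 4246594) (nat_lit 438991) (nat_lit 48018926) (nat_lit 15609427) [(nat_lit 438991), (nat_lit 1520733), (nat_lit 0), (nat_lit 0)]) (PF.cons (PF.leaf (nat_lit 4534486) (nat_lit 455783) (nat_lit 47545322) (nat_lit 15555883) [(nat_lit 455783), (nat_lit 1548020), (nat_lit 0), (nat_lit 0)]) (PF.cons (PF.leaf (nat_lit 4837292) (nat_lit 470981) (nat_lit 47051638) (nat_lit 15497203) [(nat_lit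
 470981), (nat_lit 1573512), (nat_lit 0), (nat_lit 0)]) (PF.cons (PF.leaf (nat_lit 5152784) (nat_lit 484791) (nat_lit 46541769) (nat_lit 15433594) [(nat_lit 484791), (nat_lit 1597140), (nat_lit 0), (nat_lit 0)]) (PF.cons (PF.leaf (nat_lit 5479107) (nat_lit 497367) (nat_lit 46018925) (nat_lit 15365258) [(nat_lit 497367), (nat_lit 1618895), (nat_lit 0), (nat_lit 0)]) (PF.cons (PF.leaf (nat_lit 5814675) (nat_lit 508829) (nat_lit 45485821) (nat_lit 15292405) [(nat_lit 508829), (nat_lit 1638804), (nat_lit 0), (nat_lit 0)]) (PF.cons PF.nil (PF.cons PF.nil PF.nil))))))))) (PF.cons (PF.cons (PF.leaf (nat_lit 4691557) (nat_lit 1566261) (nat_lit 46932275) (nat_lit 15477752) [(nat_lit 0), (nat_lit 1566261), (nat_lit 0), (nat_lit 0)]) (PF.cons (PF.leaf (nat_lit 4987532) (nat_lit 475654) (nat_lit 46448234) (nat_lit 15416781) [(nat_lit 475654), (nat_lit 1589380), (nat_lit 0), (nat_lit 0)]) (PF.cons (PF.leaf (nat_lit 5297247) (nat_lit 489027) (nat_lit 45947221) (nat_lit 15350851)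 [(nat_lit 489027), (nat_lit 1610895), (nat_lit 0), (nat_lit 0)]) (PF.cons (PF.leaf (nat_lit 5618205) (nat_lit 501157) (nat_lit 45432863) (nat_lit 15280239) [(nat_lit 501157), (nat_lit 1630745), (nat_lit 0), (nat_lit 0)])
 (PF.cons (PF.leaf (nat_lit 5948650) (nat_lit 512179) (nat_lit 44908117) (nat_lit 15205200) [(nat_lit 512179), (nat_lit 1648925), (nat_lit 0), (nat_lit 0)]) (PF.cons (PF.leaf (nat_lit 6287091) (nat_lit 522198) (nat_lit 44375454) (nat_lit 15125986) [(nat_lit 522198), (nat_lit 1665459), (nat_lit 0), (nat_lit 0)]) (PF.cons PF.nil PF.nil))))))) (PF.cons (PF.cons (PF.leaf (nat_lit 5442081) (nat_lit 1623162) (nat_lit 45351974) (nat_lit 15264187) [(nat_lit 0), (nat_lit 1623162), (nat_lit 0), (nat_lit 0)]) (PF.cons (PF.leaf (nat_lit 5756572) (nat_lit 504283) (nat_lit 44847869) (nat_lit 15191752) [(nat_lit 504283), (nat_lit 1641226), (nat_lit 0), (nat_lit 0)]) (PF.cons (PF.leaf (nat_lit 6081358) (nat_lit 514945) (nat_lit 44332841) (nat_lit 15114925) [(nat_lit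 514945), (nat_lit 1657788), (nat_lit 0), (nat_lit 0)]) (PF.cons (PF.leaf (nat_lit 6414457) (nat_lit 524602) (nat_lit 43809613) (nat_lit 15034006) [(nat_lit 524602), (nat_lit 1672846), (nat_lit 0), (nat_lit 0)]) (PF.cons PF.nil PF.nil))))) (PF.cons (PF.cons (PF.leaf (nat_lit 6213770) (nat_lit 1665486) (nat_lit 43759718) (nat_lit 15021663) [(nat_lit 0), (nat_lit 1665486), (nat_lit 0), (nat_lit 0)]) (PF.cons (PF.leaf (nat_lit 6540687)
 (nat_lit 526494) (nat_lit 43247104) (nat_lit 14939419) [(nat_lit 526494), (nat_lit 1679158), (nat_lit 0), (nat_lit 0)]) (PF.cons (PF.leaf (nat_lit 6875178) (nat_lit 534942) (nat_lit 42728150) (nat_lit 14853430) [(nat_lit 534942), (nat_lit 1691469), (nat_lit 0), (nat_lit 0)]) (PF.cons PF.nil PF.nil)))) (PF.cons (PF.cons (PF.leaf (nat_lit 6995181) (nat_lit 1695592) (nat_lit 42179859) (nat_lit 14755401) [(nat_lit 0), (nat_lit 1695592), (nat_lit 0), (nat_lit 0)]) (PF.cons PF.nil PF.nil)) (PF.cons PF.nil (PF.cons PF.nil PF.nil))))))))) (PF.cons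 (PF.cons (PF.cons (PF.leaf (nat_lit 3865516) (nat_lit 3501694) (nat_lit 48020201) (nat_lit 15586916) [(nat_lit 0), (nat_lit 0), (nat_lit 3501694), (nat_lit 0)]) (PF.cons (PF.leaf (nat_lit 4107385) (nat_lit 415983) (nat_lit 47620966) (nat_lit 15542400) [(nat_lit 415983), (nat_lit 0), (nat_lit 3529462), (nat_lit 0)]) (PF.cons (PF.leaf (nat_lit 4371917) (nat_lit 435655) (nat_lit 47188842) (nat_lit 15492044) [(nat_lit 435655), (nat_lit 0), (nat_lit 3556615), (nat_lit 0)]) (PF.cons (PF.leaf (nat_lit 4654511) (nat_lit 453066) (nat_lit 46730898) (nat_lit 15436263) [(nat_lit 453066), (nat_lit 0), (nat_lit 3582449), (nat_lit 0)]) (PF.cons (PF.leaf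
 (nat_lit 4952241) (nat_lit 468638) (nat_lit 46252356) (nat_lit 15375371) [(nat_lit 468638), (nat_lit 0), (nat_lit 3606530), (nat_lit 0)]) (PF.cons (PF.leaf (nat_lit 5262764) (nat_lit 482655) (nat_lit 45757311) (nat_lit 15309633) [(nat_lit 482655), (nat_lit 0), (nat_lit 3628589), (nat_lit 0)]) (PF.cons (PF.leaf (nat_lit 5584205) (nat_lit 495323) (nat_lit 45249101) (nat_lit 15239296) [(nat_lit 495323), (nat_lit 0), (nat_lit 3648473), (nat_lit 0)]) (PF.cons (PF.leaf (nat_lit 5914876) (nat_lit 506798) (nat_lit 44730519) (nat_lit 15164601) [(nat_lit 506798), (nat_lit 0), (nat_lit 3666101), (nat_lit 0)]) (PF.cons PF.nil (PF.cons PF.nil PF.nil)))))))))) (PF.cons (PF.cons (PF.leaf (nat_lit 4534129) (nat_lit 1542039) (nat_lit 46575107) (nat_lit 15412029) [(nat_lit 0), (nat_lit 1542039), (nat_lit 3579636), (nat_lit 0)]) (PF.cons (PF.leaf (nat_lit 4808463) (nat_lit 457617) (nat_lit 46128737) (nat_lit 15354525) [(nat_lit 457617), (nat_lit 1565991), (nat_lit 3601940), (nat_lit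 0)]) (PF.cons (PF.leaf (nat_lit 5099561) (nat_lit 472834) (nat_lit 45660172) (nat_lit 15291738) [(nat_lit 472834), (nat_lit 1588426), (nat_lit 3622805), (nat_lit 0)]) (PF.cons (PF.leaf (nat_lit 5404185) (nat_lit 486455)
 (nat_lit 45174263) (nat_lit 15224053) [(nat_lit 486455), (nat_lit 1609218), (nat_lit 3641910), (nat_lit 0)]) (PF.cons (PF.leaf (nat_lit 5720130) (nat_lit 498714) (nat_lit 44674767) (nat_lit 15151789) [(nat_lit 498714), (nat_lit 1628330), (nat_lit 3659067), (nat_lit 0)]) (PF.cons (PF.leaf (nat_lit 6045641) (nat_lit 509782) (nat_lit 44164720) (nat_lit 15075238) [(nat_lit 509782), (nat_lit 1645770), (nat_lit 3674172), (nat_lit 0)]) (PF.cons (PF.leaf (nat_lit 6379170) (nat_lit 519789) (nat_lit 43646646) (nat_lit 14994672) [(nat_lit 519789), (nat_lit 1661576), (nat_lit 3687181), (nat_lit 0)]) (PF.cons PF.nil (PF.cons PF.nil PF.nil))))))))) (PF.cons (PF.cons (PF.leaf (nat_lit 5248515) (nat_lit 1601549) (nat_lit 45065261) (nat_lit 15203947) [(nat_lit 0), (nat_lit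 1601549), (nat_lit 3636504), (nat_lit 0)]) (PF.cons (PF.leaf (nat_lit 5545770) (nat_lit 489493) (nat_lit 44590789) (nat_lit 15134841) [(nat_lit 489493), (nat_lit 1620422), (nat_lit 3652843), (nat_lit 0)]) (PF.cons (PF.leaf (nat_lit 5855522) (nat_lit 501452) (nat_lit 44101714) (nat_lit 15061095) [(nat_lit 501452), (nat_lit 1637821), (nat_lit 3667456), (nat_lit 0)]) (PF.cons (PF.leaf (nat_lit 6175308) (nat_lit 512195) (nat_lit
 43601507) (nat_lit 14983073) [(nat_lit 512195), (nat_lit 1653716), (nat_lit 3680211), (nat_lit 0)]) (PF.cons (PF.leaf (nat_lit 6503455) (nat_lit 521872) (nat_lit 43092947) (nat_lit 14901097) [(nat_lit 521872), (nat_lit 1668116), (nat_lit 3691046), (nat_lit 0)]) (PF.cons PF.nil (PF.cons PF.nil PF.nil))))))) (PF.cons (PF.cons (PF.leaf (nat_lit 5991485) (nat_lit 1646120) (nat_lit 43529433) (nat_lit 14967231) [(nat_lit 0), (nat_lit 1646120), (nat_lit 3673784), (nat_lit 0)]) (PF.cons (PF.leaf (nat_lit 6304515) (nat_lit 514037) (nat_lit 43040569) (nat_lit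 14888168) [(nat_lit 514037), (nat_lit 1660562), (nat_lit 3684351), (nat_lit 0)]) (PF.cons (PF.leaf (nat_lit 6626777) (nat_lit 523455) (nat_lit 42542656) (nat_lit 14805150) [(nat_lit 523455), (nat_lit 1673643), (nat_lit 3693164), (nat_lit 0)]) (PF.cons (PF.leaf (nat_lit 6956356) (nat_lit 531908) (nat_lit 42038241) (nat_lit 14718520) [(nat_lit 531908), (nat_lit 1685378), (nat_lit 3700189), (nat_lit 0)]) (PF.cons PF.nil PF.nil))))) (PF.cons (PF.cons (PF.leaf (nat_lit 6750055) (nat_lit 1678227) (nat_lit 41995388) (nat_lit 14706874) [(nat_lit 0), (nat_lit 1678227), (nat_lit 3693639), (nat_lit 0)]) (PF.cons (PF.leaf (nat_lit 7073338)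
 (nat_lit 532780) (nat_lit 41502174) (nat_lit 14619598) [(nat_lit 532780), (nat_lit 1688833), (nat_lit 3698928), (nat_lit 0)]) (PF.cons PF.nil (PF.cons PF.nil PF.nil)))) (PF.cons (PF.cons (PF.leaf (nat_lit 7514258) (nat_lit 1699889) (nat_lit 40483084) (nat_lit 14427886) [(nat_lit 0), (nat_lit 1699889), (nat_lit 3698393), (nat_lit 0)]) (PF.cons PF.nil PF.nil)) (PF.cons PF.nil (PF.cons PF.nil PF.nil)))))))) (PF.cons (PF.cons (PF.cons (PF.leaf (nat_lit 5076837) (nat_lit 3614077) (nat_lit 44742574) (nat_lit 15138082) [(nat_lit 0), (nat_lit 0), (nat_lit 3614077), (nat_lit 0)]) (PF.cons (PF.leaf (nat_lit 5353640) (nat_lit 471917) (nat_lit 44303658) (nat_lit 15073161) [(nat_lit 471917), (nat_lit 0), (nat_lit 3630037), (nat_lit 0)]) (PF.cons (PF.leaf (nat_lit 5645981) (nat_lit 485752) (nat_lit 43844977) (nat_lit 15003135) [(nat_lit 485752), (nat_lit 0), (nat_lit 3644597), (nat_lit 0)]) (PF.cons (PF.leaf (nat_lit 5950624) (nat_lit 498001) (nat_lit 43371243) (nat_lit 14928505)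 [(nat_lit 498001), (nat_lit 0), (nat_lit 3657529), (nat_lit 0)]) (PF.cons (PF.leaf (nat_lit 6265456) (nat_lit 508919) (nat_lit 42886047) (nat_lit 14849677) [(nat_lit 508919), (nat_lit 0), (nat_lit 3668704), (nat_lit
 0)]) (PF.cons (PF.leaf (nat_lit 6588733) (nat_lit 518689) (nat_lit 42392244) (nat_lit 14767001) [(nat_lit 518689), (nat_lit 0), (nat_lit 3678059), (nat_lit 0)]) (PF.cons PF.nil (PF.cons PF.nil (PF.cons PF.nil PF.nil))))))))) (PF.cons (PF.cons (PF.leaf (nat_lit 5786779) (nat_lit 1625317) (nat_lit 43272243) (nat_lit 14908319) [(nat_lit 0), (nat_lit 1625317), (nat_lit 3651466), (nat_lit 0)]) (PF.cons (PF.leaf (nat_lit 6083720) (nat_lit 499716) (nat_lit 42811047) (nat_lit 14833025) [(nat_lit 499716), (nat_lit 1640654), (nat_lit 3662184), (nat_lit 0)]) (PF.cons (PF.leaf (nat_lit 6392050) (nat_lit 510443) (nat_lit 42337219) (nat_lit 14753434) [(nat_lit 510443), (nat_lit 1654629), (nat_lit 3671321), (nat_lit 0)]) (PF.cons (PF.leaf (nat_lit 6709402) (nat_lit 519987)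 (nat_lit 41854055) (nat_lit 14669972) [(nat_lit 519987), (nat_lit 1667235), (nat_lit 3678794), (nat_lit 0)]) (PF.cons (PF.leaf (nat_lit 7034157) (nat_lit 528504) (nat_lit 41364156) (nat_lit 14583004) [(nat_lit 528504), (nat_lit 1678496), (nat_lit 3684569), (nat_lit 0)]) (PF.cons PF.nil (PF.cons PF.nil PF.nil))))))) (PF.cons (PF.cons (PF.leaf (nat_lit 6519438) (nat_lit 1659743) (nat_lit 41790129) (nat_lit 14654658) [(nat_lit
 0), (nat_lit 1659743), (nat_lit 3672269), (nat_lit 0)]) (PF.cons (PF.leaf (nat_lit 6829859) (nat_lit 520785) (nat_lit 41318902) (nat_lit 14570810) [(nat_lit 520785), (nat_lit 1671163), (nat_lit 3677994), (nat_lit 0)]) (PF.cons (PF.leaf (nat_lit 7148609) (nat_lit 529127) (nat_lit 40840133) (nat_lit 14483420) [(nat_lit 529127), (nat_lit 1681347), (nat_lit 3682154), (nat_lit 0)]) (PF.cons PF.nil (PF.cons PF.nil PF.nil))))) (PF.cons (PF.cons (PF.leaf (nat_lit 7263248) (nat_lit 1683428) (nat_lit 40319651) (nat_lit 14382051) [(nat_lit 0), (nat_lit 1683428),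 (nat_lit 3678412), (nat_lit 0)]) (PF.cons (PF.leaf (nat_lit 7582130) (nat_lit 536587) (nat_lit 39847149) (nat_lit 14291398) [(nat_lit 536587), (nat_lit 1691479), (nat_lit 3679619), (nat_lit 0)]) (PF.cons PF.nil (PF.cons PF.nil PF.nil)))) (PF.cons (PF.cons (PF.leaf (nat_lit 8009490) (nat_lit 1698139) (nat_lit 38877234) (nat_lit 14095163) [(nat_lit 0), (nat_lit 1698139), (nat_lit 3671928), (nat_lit 0)]) (PF.cons PF.nil PF.nil)) (PF.cons PF.nil PF.nil)))))) (PF.cons (PF.cons (PF.cons (PF.leaf (nat_lit 6305754) (nat_lit 3650396) (nat_lit 41559729) (nat_lit 14597893) [(nat_lit 0), (nat_lit 0), (nat_lit 3650396), (nat_lit 0)]) (PF.cons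
 (PF.leaf (nat_lit 6601107) (nat_lit 506976) (nat_lit 41114215) (nat_lit 14518089) [(nat_lit 506976), (nat_lit 0), (nat_lit 3656510), (nat_lit 0)]) (PF.cons (PF.leaf (nat_lit 6906947) (nat_lit 516624) (nat_lit 40657713) (nat_lit 14434329) [(nat_lit 516624), (nat_lit 0), (nat_lit 3661173), (nat_lit 0)]) (PF.cons (PF.leaf (nat_lit 7220921) (nat_lit 525124) (nat_lit 40193335) (nat_lit 14347084) [(nat_lit 525124), (nat_lit 0), (nat_lit 3664339), (nat_lit 0)]) (PF.cons PF.nil PF.nil))))) (PF.cons (PF.cons (PF.leaf (nat_lit 7026126) (nat_lit 1665868) (nat_lit 40136844) (nat_lit 14332507) [(nat_lit 0), (nat_lit 1665868), (nat_lit 3657864), (nat_lit 0)]) (PF.cons (PF.leaf (nat_lit 7333096) (nat_lit 525073) (nat_lit 39684637) (nat_lit 14245413) [(nat_lit 525073), (nat_lit 1674757), (nat_lit 3659643), (nat_lit 0)]) (PF.cons (PF.leaf (nat_lit 7647598) (nat_lit 532479) (nat_lit 39226106) (nat_lit 14155157) [(nat_lit 532479), (nat_lit 1682520), (nat_lit 3660022), (nat_lit 0)]) (PF.cons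 PF.nil PF.nil)))) (PF.cons (PF.cons (PF.leaf (nat_lit 7754139) (nat_lit 1682588) (nat_lit 38732512) (nat_lit 14052226) [(nat_lit 0), (nat_lit 1682588), (nat_lit 3652965), (nat_lit 0)]) (PF.cons (PF.leaf (nat_lit
 8068092) (nat_lit 538371) (nat_lit 38281280) (nat_lit 13959546) [(nat_lit 538371), (nat_lit 1688507), (nat_lit 3650866), (nat_lit 0)]) PF.nil)) (PF.cons PF.nil (PF.cons PF.nil PF.nil))))) (PF.cons (PF.cons (PF.cons (PF.leaf (nat_lit 7512084) (nat_lit 3633363) (nat_lit 38569756) (nat_lit 14005602) [(nat_lit 0), (nat_lit 0), (nat_lit 3633363), (nat_lit 0)]) (PF.cons (PF.leaf (nat_lit 7814955) (nat_lit 527343) (nat_lit 38137225) (nat_lit 13916526) [(nat_lit 527343), (nat_lit 0), (nat_lit 3631929), (nat_lit 0)]) (PF.cons (PF.leaf (nat_lit 8124731) (nat_lit 533935) (nat_lit 37699352) (nat_lit 13824630) [(nat_lit 533935), (nat_lit 0), (nat_lit 3629239), (nat_lit 0)]) (PF.cons PF.nil PF.nil)))) (PF.cons (PF.cons (PF.leaf (nat_lit 8223693) (nat_lit 1676915) (nat_lit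 37232184) (nat_lit 13721340) [(nat_lit 0), (nat_lit 1676915), (nat_lit 3619593), (nat_lit 0)]) (PF.cons PF.nil PF.nil)) (PF.cons PF.nil PF.nil))) (PF.cons (PF.cons (PF.cons (PF.leaf (nat_lit 8672993) (nat_lit 3580134) (nat_lit 35815707) (nat_lit 13392433) [(nat_lit 0), (nat_lit 0), (nat_lit 3580134), (nat_lit 0)]) (PF.cons PF.nil PF.nil)) (PF.cons PF.nil PF.nil)) (PF.cons PF.nil (PF.cons PF.nil PF.nil)))))))) (PF.cons (PF.cons
 (PF.cons (PF.cons (PF.leaf (nat_lit 4726928) (nat_lit 8737039) (nat_lit 43529478) (nat_lit 14842295) [(nat_lit 0), (nat_lit 0), (nat_lit 0), (nat_lit 8737039)]) (PF.cons (PF.leaf (nat_lit 4965399) (nat_lit 424747) (nat_lit 43169462) (nat_lit 14787769) [(nat_lit 424747), (nat_lit 0), (nat_lit 0), (nat_lit 8726833)]) (PF.cons (PF.leaf (nat_lit 5224812) (nat_lit 442935) (nat_lit 42781427) (nat_lit 14727406) [(nat_lit 442935), (nat_lit 0), (nat_lit 0), (nat_lit 8714108)]) (PF.cons (PF.leaf (nat_lit 5500528) (nat_lit 458735) (nat_lit 42371864) (nat_lit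 14661931) [(nat_lit 458735), (nat_lit 0), (nat_lit 0), (nat_lit 8698809)]) (PF.cons (PF.leaf (nat_lit 5789687) (nat_lit 472627) (nat_lit 41945506) (nat_lit 14591881) [(nat_lit 472627), (nat_lit 0), (nat_lit 0), (nat_lit 8680913)]) (PF.cons (PF.leaf (nat_lit 6089989) (nat_lit 484938) (nat_lit 41506007) (nat_lit 14517683) [(nat_lit 484938), (nat_lit 0), (nat_lit 0), (nat_lit 8660429)]) (PF.cons (PF.leaf (nat_lit 6399603) (nat_lit 495903) (nat_lit 41056296) (nat_lit 14439702) [(nat_lit 495903), (nat_lit 0), (nat_lit 0), (nat_lit 8637391)]) (PF.cons (PF.leaf (nat_lit 6717005) (nat_lit 505701) (nat_lit 40598782) (nat_lit 14358259) [(nat_lit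
 505701), (nat_lit 0), (nat_lit 0), (nat_lit 8611856)]) (PF.cons PF.nil (PF.cons PF.nil PF.nil)))))))))) (PF.cons (PF.cons (PF.leaf (nat_lit 5372256) (nat_lit 1546946) (nat_lit 42238247) (nat_lit 14636068) [(nat_lit 0), (nat_lit 1546946), (nat_lit 0), (nat_lit 8687550)]) (PF.cons (PF.leaf (nat_lit 5639194) (nat_lit 461304) (nat_lit 41840700) (nat_lit 14570283) [(nat_lit 461304), (nat_lit 1566056), (nat_lit 0), (nat_lit 8670468)]) (PF.cons (PF.leaf (nat_lit 5921251) (nat_lit 474963) (nat_lit 41424761) (nat_lit 14499696) [(nat_lit 474963), (nat_lit 1583631), (nat_lit 0), (nat_lit 8650796)]) (PF.cons (PF.leaf (nat_lit 6215305) (nat_lit 486996) (nat_lit 40994759) (nat_lit 14424858) [(nat_lit 486996), (nat_lit 1599625), (nat_lit 0), (nat_lit 8628579)]) (PF.cons (PF.leaf (nat_lit 6519212) (nat_lit 497667) (nat_lit 40554002) (nat_lit 14346208) [(nat_lit 497667), (nat_lit 1614056), (nat_lit 0), (nat_lit 8603875)]) (PF.cons (PF.leaf (nat_lit 6831299) (nat_lit 507169) (nat_lit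 40105122) (nat_lit 14264114) [(nat_lit 507169), (nat_lit 1626973), (nat_lit 0), (nat_lit 8576756)]) (PF.cons (PF.leaf (nat_lit 7150159) (nat_lit 515648) (nat_lit 39650271) (nat_lit 14178900) [(nat_lit 515648), (nat_lit
 1638440), (nat_lit 0), (nat_lit 8547309)]) (PF.cons PF.nil (PF.cons PF.nil PF.nil))))))))) (PF.cons (PF.cons (PF.leaf (nat_lit 6054635) (nat_lit 1591469) (nat_lit 40903020) (nat_lit 14404696) [(nat_lit 0), (nat_lit 1591469), (nat_lit 0), (nat_lit 8618157)]) (PF.cons (PF.leaf (nat_lit 6341088) (nat_lit 488412) (nat_lit 40484335) (nat_lit 14329686) [(nat_lit 488412), (nat_lit 1605951), (nat_lit 0), (nat_lit 8594475)]) (PF.cons (PF.leaf (nat_lit 6638641) (nat_lit 498891) (nat_lit 40053847) (nat_lit 14250744) [(nat_lit 498891), (nat_lit 1619049), (nat_lit 0), (nat_lit 8568338)]) (PF.cons (PF.leaf (nat_lit 6944962) (nat_lit 508173) (nat_lit 39614578) (nat_lit 14168314) [(nat_lit 508173), (nat_lit 1630777), (nat_lit 0), (nat_lit 8539844)]) (PF.cons (PF.leaf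 (nat_lit 7258458) (nat_lit 516422) (nat_lit 39168914) (nat_lit 14082767) [(nat_lit 516422), (nat_lit 1641174), (nat_lit 0), (nat_lit 8509092)]) (PF.cons PF.nil (PF.cons PF.nil PF.nil))))))) (PF.cons (PF.cons (PF.leaf (nat_lit 6758995) (nat_lit 1623157) (nat_lit 39555248) (nat_lit 14153268) [(nat_lit 0), (nat_lit 1623157), (nat_lit 0), (nat_lit 8530824)]) (PF.cons (PF.leaf (nat_lit 7058557) (nat_lit 508706) (nat_lit 39126756) (nat_lit
 14070858) [(nat_lit 508706), (nat_lit 1633771), (nat_lit 0), (nat_lit 8501176)]) (PF.cons (PF.leaf (nat_lit 7366236) (nat_lit 516792) (nat_lit 38691133) (nat_lit 13985273) [(nat_lit 516792), (nat_lit 1643168), (nat_lit 0), (nat_lit 8469315)]) (PF.cons (PF.leaf (nat_lit 7680210) (nat_lit 523954) (nat_lit 38250556) (nat_lit 13896883) [(nat_lit 523954), (nat_lit 1651381), (nat_lit 0), (nat_lit 8435364)]) (PF.cons PF.nil PF.nil))))) (PF.cons (PF.cons (PF.leaf (nat_lit 7474372) (nat_lit 1644472) (nat_lit 38216494) (nat_lit 13886407) [(nat_lit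 0), (nat_lit 1644472), (nat_lit 0), (nat_lit 8428023)]) (PF.cons (PF.leaf (nat_lit 7782212) (nat_lit 523787) (nat_lit 37786215) (nat_lit 13798244) [(nat_lit 523787), (nat_lit 1651839), (nat_lit 0), (nat_lit 8393206)]) (PF.cons PF.nil (PF.cons PF.nil PF.nil)))) (PF.cons (PF.cons (PF.leaf (nat_lit 8192565) (nat_lit 1657295) (nat_lit 36901702) (nat_lit 13608269) [(nat_lit 0), (nat_lit 1657295), (nat_lit 0), (nat_lit 8312360)]) (PF.cons PF.nil PF.nil)) (PF.cons PF.nil (PF.cons PF.nil PF.nil)))))))) (PF.cons (PF.cons (PF.cons (PF.leaf (nat_lit 5872669) (nat_lit 3550282) (nat_lit 40635393) (nat_lit 14341022) [(nat_lit 0), (nat_lit 0), (nat_lit 3550282),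
 (nat_lit 8582113)]) (PF.cons (PF.leaf (nat_lit 6140348) (nat_lit 471045) (nat_lit 40247665) (nat_lit 14270974) [(nat_lit 471045), (nat_lit 0), (nat_lit 3559166), (nat_lit 8559960)]) (PF.cons (PF.leaf (nat_lit 6422138) (nat_lit 483490) (nat_lit 39843466) (nat_lit 14196357) [(nat_lit 483490), (nat_lit 0), (nat_lit 3566727), (nat_lit 8535279)]) (PF.cons (PF.leaf (nat_lit 6714904) (nat_lit 494346) (nat_lit 39426949) (nat_lit 14117786) [(nat_lit 494346), (nat_lit 0), (nat_lit 3572843), (nat_lit 8508194)]) (PF.cons (PF.leaf (nat_lit 7016610) (nat_lit 503888) (nat_lit 39001245) (nat_lit 14035739) [(nat_lit 503888), (nat_lit 0), (nat_lit 3577454), (nat_lit 8478818)]) (PF.cons (PF.leaf (nat_lit 7325633) (nat_lit 512314) (nat_lit 38568812) (nat_lit 13950613) [(nat_lit 512314), (nat_lit 0), (nat_lit 3580549), (nat_lit 8447262)]) (PF.cons PF.nil (PF.cons PF.nil (PF.cons PF.nil PF.nil))))))))) (PF.cons (PF.cons (PF.leaf (nat_lit 6548085) (nat_lit 1602849) (nat_lit 39343969) (nat_lit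 14098219) [(nat_lit 0), (nat_lit 1602849), (nat_lit 3566200), (nat_lit 8497573)]) (PF.cons (PF.leaf (nat_lit 6833103) (nat_lit 494766) (nat_lit 38939268) (nat_lit 14019985) [(nat_lit 494766), (nat_lit 1614556),
 (nat_lit 3570745), (nat_lit 8469491)]) (PF.cons (PF.leaf (nat_lit 7128336) (nat_lit 504207) (nat_lit 38524236) (nat_lit 13938124) [(nat_lit 504207), (nat_lit 1624996), (nat_lit 3573918), (nat_lit 8439121)]) (PF.cons (PF.leaf (nat_lit 7431514) (nat_lit 512495) (nat_lit 38101728) (nat_lit 13853109) [(nat_lit 512495), (nat_lit 1634194), (nat_lit 3575690), (nat_lit 8406603)]) (PF.cons (PF.leaf (nat_lit 7741126) (nat_lit 519796) (nat_lit 37673967) (nat_lit 13765329) [(nat_lit 519796), (nat_lit 1642197), (nat_lit 3576066), (nat_lit 8372066)]) (PF.cons PF.nil (PF.cons PF.nil PF.nil))))))) (PF.cons (PF.cons (PF.leaf (nat_lit 7241186) (nat_lit 1626815) (nat_lit 38049262) (nat_lit 13838914) [(nat_lit 0), (nat_lit 1626815), (nat_lit 3569194), (nat_lit 8397809)]) (PF.cons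 (PF.leaf (nat_lit 7537560) (nat_lit 512259) (nat_lit 37637703) (nat_lit 13754342) [(nat_lit 512259), (nat_lit 1635109), (nat_lit 3569753), (nat_lit 8364534)]) (PF.cons (PF.leaf (nat_lit 7841341) (nat_lit 519464) (nat_lit 37220094) (nat_lit 13666919) [(nat_lit 519464), (nat_lit 1642299), (nat_lit 3569011), (nat_lit 8329260)]) (PF.cons PF.nil (PF.cons PF.nil PF.nil))))) (PF.cons (PF.cons (PF.leaf (nat_lit 7942129) (nat_lit
 1641835) (nat_lit 36769555) (nat_lit 13567479) [(nat_lit 0), (nat_lit 1641835), (nat_lit 3561027), (nat_lit 8285243)]) (PF.cons (PF.leaf (nat_lit 8245456) (nat_lit 525021) (nat_lit 36358173) (nat_lit 13478156) [(nat_lit 525021), (nat_lit 1647273), (nat_lit 3558063), (nat_lit 8247578)]) (PF.cons PF.nil (PF.cons PF.nil PF.nil)))) (PF.cons (PF.cons (PF.leaf (nat_lit 8643662) (nat_lit 1649538) (nat_lit 35517267) (nat_lit 13287700) [(nat_lit 0), (nat_lit 1649538), (nat_lit 3543412), (nat_lit 8162277)]) (PF.cons PF.nil PF.nil)) (PF.cons PF.nil PF.nil))))))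 (PF.cons (PF.cons (PF.cons (PF.leaf (nat_lit 7023986) (nat_lit 3548066) (nat_lit 37860085) (nat_lit 13786875) [(nat_lit 0), (nat_lit 0), (nat_lit 3548066), (nat_lit 8365719)]) (PF.cons (PF.leaf (nat_lit 7306716) (nat_lit 498929) (nat_lit 37470532) (nat_lit 13706527) [(nat_lit 498929), (nat_lit 0), (nat_lit 3549311), (nat_lit 8334200)]) (PF.cons (PF.leaf (nat_lit 7598923) (nat_lit 507462) (nat_lit 37071885) (nat_lit 13622842) [(nat_lit 507462), (nat_lit 0), (nat_lit 3549300), (nat_lit 8300559)]) (PF.cons (PF.leaf (nat_lit 7898373) (nat_lit 514883) (nat_lit 36666828) (nat_lit 13536310) [(nat_lit 514883), (nat_lit 0), (nat_lit 3548028),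
 (nat_lit 8264966)]) (PF.cons (PF.leaf (nat_lit 8203615) (nat_lit 521362) (nat_lit 36257435) (nat_lit 13447328) [(nat_lit 521362), (nat_lit 0), (nat_lit 3545514), (nat_lit 8227569)]) PF.nil))))) (PF.cons (PF.cons (PF.leaf (nat_lit 7704688) (nat_lit 1625230) (nat_lit 36620550) (nat_lit 13523040) [(nat_lit 0), (nat_lit 1625230), (nat_lit 3541737), (nat_lit 8256516)]) (PF.cons (PF.leaf (nat_lit 7997338) (nat_lit 514024) (nat_lit 36226403) (nat_lit 13437289) [(nat_lit 514024), (nat_lit 1631578), (nat_lit 3539513), (nat_lit 8220491)]) (PF.cons (PF.leaf (nat_lit 8296780) (nat_lit 520461) (nat_lit 35827087) (nat_lit 13348977) [(nat_lit 520461), (nat_lit 1636919), (nat_lit 3536121), (nat_lit 8182662)]) (PF.cons PF.nil PF.nil)))) (PF.cons (PF.cons (PF.leaf (nat_lit 8390709) (nat_lit 1635037) (nat_lit 35400128) (nat_lit 13249874) [(nat_lit 0), (nat_lit 1635037), (nat_lit 3525971), (nat_lit 8136792)]) (PF.cons (PF.leaf (nat_lit 8689203) (nat_lit 524804) (nat_lit 35007591) (nat_lit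 13160227) [(nat_lit 524804), (nat_lit 1638859), (nat_lit 3520709), (nat_lit 8097050)]) PF.nil)) (PF.cons PF.nil (PF.cons PF.nil PF.nil))))) (PF.cons (PF.cons (PF.cons (PF.leaf (nat_lit 8150170) (nat_lit 3507785)
 (nat_lit 35267316) (nat_lit 13208481) [(nat_lit 0), (nat_lit 0), (nat_lit 3507785), (nat_lit 8109658)]) (PF.cons (PF.leaf (nat_lit 8438687) (nat_lit 514321) (nat_lit 34890644) (nat_lit 13122345) [(nat_lit 514321), (nat_lit 0), (nat_lit 3503297), (nat_lit 8071608)]) (PF.cons (PF.leaf (nat_lit 8733486) (nat_lit 520087) (nat_lit 34509523) (nat_lit 13033909) [(nat_lit 520087), (nat_lit 0), (nat_lit 3497758), (nat_lit 8031929)]) (PF.cons PF.nil PF.nil)))) (PF.cons (PF.cons (PF.leaf (nat_lit 8821027) (nat_lit 1624918) (nat_lit 34105346) (nat_lit 12935843) [(nat_lit 0), (nat_lit 1624918), (nat_lit 3485933), (nat_lit 7984903)]) (PF.cons PF.nil PF.nil)) (PF.cons PF.nil PF.nil))) (PF.cons (PF.cons (PF.cons (PF.leaf (nat_lit 9234058) (nat_lit 3442141) (nat_lit 32881823)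 (nat_lit 12627085) [(nat_lit 0), (nat_lit 0), (nat_lit 3442141), (nat_lit 7831339)]) (PF.cons PF.nil PF.nil)) (PF.cons PF.nil PF.nil)) (PF.cons PF.nil PF.nil)))))) (PF.cons (PF.cons (PF.cons (PF.cons (PF.leaf (nat_lit 6582641) (nat_lit 8218869) (nat_lit 37111207) (nat_lit 13559866) [(nat_lit 0), (nat_lit 0), (nat_lit 0), (nat_lit 8218869)]) (PF.cons (PF.leaf (nat_lit 6840737) (nat_lit 465329) (nat_lit 36769782) (nat_lit
 13489284) [(nat_lit 465329), (nat_lit 0), (nat_lit 0), (nat_lit 8192208)]) (PF.cons (PF.leaf (nat_lit 7111824) (nat_lit 476643) (nat_lit 36414411) (nat_lit 13414621) [(nat_lit 476643), (nat_lit 0), (nat_lit 0), (nat_lit 8163246)]) (PF.cons (PF.leaf (nat_lit 7392837) (nat_lit 486391) (nat_lit 36048735) (nat_lit 13336528) [(nat_lit 486391), (nat_lit 0), (nat_lit 0), (nat_lit 8132186)]) (PF.cons (PF.leaf (nat_lit 7681847) (nat_lit 494860) (nat_lit 35675473) (nat_lit 13255508) [(nat_lit 494860), (nat_lit 0), (nat_lit 0), (nat_lit 8099193)]) (PF.cons (PF.leaf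 (nat_lit 7977330) (nat_lit 502256) (nat_lit 35296743) (nat_lit 13171962) [(nat_lit 502256), (nat_lit 0), (nat_lit 0), (nat_lit 8064412)]) (PF.cons PF.nil PF.nil))))))) (PF.cons (PF.cons (PF.leaf (nat_lit 7225415) (nat_lit 1567994) (nat_lit 35979075) (nat_lit 13318283) [(nat_lit 0), (nat_lit 1567994), (nat_lit 0), (nat_lit 8121729)]) (PF.cons (PF.leaf (nat_lit 7498792) (nat_lit 485937) (nat_lit 35624141) (nat_lit 13241087) [(nat_lit 485937), (nat_lit 1577109), (nat_lit 0), (nat_lit 8090268)]) (PF.cons (PF.leaf (nat_lit 7781478) (nat_lit 494374) (nat_lit 35260546) (nat_lit 13160781) [(nat_lit 494374), (nat_lit 1585049), (nat_lit 0),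
 (nat_lit 8056842)]) (PF.cons (PF.leaf (nat_lit 8071289) (nat_lit 501696) (nat_lit 34890761) (nat_lit 13077846) [(nat_lit 501696), (nat_lit 1591859), (nat_lit 0), (nat_lit 8021628)]) (PF.cons (PF.leaf (nat_lit 8366807) (nat_lit 508075) (nat_lit 34516694) (nat_lit 12992668) [(nat_lit 508075), (nat_lit 1597599), (nat_lit 0), (nat_lit 7984774)]) PF.nil))))) (PF.cons (PF.cons (PF.leaf (nat_lit 7882496) (nat_lit 1584734) (nat_lit 34847552) (nat_lit 13065026) [(nat_lit 0), (nat_lit 1584734), (nat_lit 0), (nat_lit 8013382)]) (PF.cons (PF.leaf (nat_lit 8165710) (nat_lit 500782) (nat_lit 34487549) (nat_lit 12982981) [(nat_lit 500782), (nat_lit 1590845), (nat_lit 0), (nat_lit 7977904)]) (PF.cons (PF.leaf (nat_lit 8455623) (nat_lit 507121) (nat_lit 34122512) (nat_lit 12898578) [(nat_lit 507121), (nat_lit 1595962), (nat_lit 0), (nat_lit 7940777)]) (PF.cons PF.nil PF.nil)))) (PF.cons (PF.cons (PF.leaf (nat_lit 8545331) (nat_lit 1593900) (nat_lit 33731251) (nat_lit 12803899) [(nat_lit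 0), (nat_lit 1593900), (nat_lit 0), (nat_lit 7895979)]) (PF.cons (PF.leaf (nat_lit 8834451) (nat_lit 511341) (nat_lit 33371942) (nat_lit 12718422) [(nat_lit 511341), (nat_lit 1597551), (nat_lit 0), (nat_lit
 7857225)]) PF.nil)) (PF.cons PF.nil PF.nil))))) (PF.cons (PF.cons (PF.cons (PF.leaf (nat_lit 7664936) (nat_lit 3431637) (nat_lit 34691379) (nat_lit 13018326) [(nat_lit 0), (nat_lit 0), (nat_lit 3431637), (nat_lit 7983734)]) (PF.cons (PF.leaf (nat_lit 7935699) (nat_lit 488042) (nat_lit 34350211) (nat_lit 12940412) [(nat_lit 488042), (nat_lit 0), (nat_lit 3429802), (nat_lit 7950172)]) (PF.cons (PF.leaf (nat_lit 8215158) (nat_lit 495703) (nat_lit 34001338) (nat_lit 12859631) [(nat_lit 495703), (nat_lit 0), (nat_lit 3426866), (nat_lit 7914785)]) (PF.cons (PF.leaf (nat_lit 8501165) (nat_lit 502293) (nat_lit 33647082) (nat_lit 12776468) [(nat_lit 502293), (nat_lit 0), (nat_lit 3422850), (nat_lit 7877766)]) (PF.cons PF.nil PF.nil))))) (PF.cons (PF.cons (PF.leaf (nat_lit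 8310030) (nat_lit 1578389) (nat_lit 33608989) (nat_lit 12764609) [(nat_lit 0), (nat_lit 1578389), (nat_lit 3416888), (nat_lit 7869967)]) (PF.cons (PF.leaf (nat_lit 8589495) (nat_lit 500912) (nat_lit 33264356) (nat_lit 12682547) [(nat_lit 500912), (nat_lit 1582970), (nat_lit 3412214), (nat_lit 7832905)]) (PF.cons (PF.leaf (nat_lit 8875153) (nat_lit 506609) (nat_lit 32915352) (nat_lit 12598356) [(nat_lit 506609), (nat_lit
 1586643), (nat_lit 3406546), (nat_lit 7794347)]) (PF.cons PF.nil PF.nil)))) (PF.cons (PF.cons (PF.leaf (nat_lit 8959001) (nat_lit 1583564) (nat_lit 32544366) (nat_lit 12504991) [(nat_lit 0), (nat_lit 1583564), (nat_lit 3394760), (nat_lit 7748783)]) (PF.cons PF.nil PF.nil)) PF.nil))) (PF.cons (PF.cons (PF.cons (PF.leaf (nat_lit 8721853) (nat_lit 3378105) (nat_lit 32435185) (nat_lit 12468598) [(nat_lit 0), (nat_lit 0), (nat_lit 3378105), (nat_lit 7724409)]) (PF.cons (PF.leaf (nat_lit 8997294) (nat_lit 499950) (nat_lit 32105728) (nat_lit 12387024) [(nat_lit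 499950), (nat_lit 0), (nat_lit 3371803), (nat_lit 7686251)]) (PF.cons PF.nil PF.nil))) (PF.cons (PF.cons (PF.leaf (nat_lit 9356911) (nat_lit 1570908) (nat_lit 31420871) (nat_lit 12211879) [(nat_lit 0), (nat_lit 1570908), (nat_lit 3351730), (nat_lit 7600846)]) PF.nil) PF.nil)) (PF.cons PF.nil (PF.cons PF.nil PF.nil))))) (PF.cons (PF.cons (PF.cons (PF.cons (PF.leaf (nat_lit 8243873) (nat_lit 7613864) (nat_lit 31963317) (nat_lit 12303903) [(nat_lit 0), (nat_lit 0), (nat_lit 0), (nat_lit 7613864)]) (PF.cons (PF.leaf (nat_lit 8503457) (nat_lit 475694) (nat_lit 31663390) (nat_lit 12229851) [(nat_lit 475694), (nat_lit 0), (nat_lit 0),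
 (nat_lit 7579958)]) (PF.cons (PF.leaf (nat_lit 8771105) (nat_lit 482655) (nat_lit 31356820) (nat_lit 12153301) [(nat_lit 482655), (nat_lit 0), (nat_lit 0), (nat_lit 7544460)]) (PF.cons (PF.leaf (nat_lit 9044770) (nat_lit 488588) (nat_lit 31045621) (nat_lit 12074715) [(nat_lit 488588), (nat_lit 0), (nat_lit 0), (nat_lit 7507570)]) (PF.cons PF.nil PF.nil))))) (PF.cons (PF.cons (PF.leaf (nat_lit 8857053) (nat_lit 1529079) (nat_lit 31014081) (nat_lit 12064214) [(nat_lit 0), (nat_lit 1529079), (nat_lit 0), (nat_lit 7500479)]) (PF.cons (PF.leaf (nat_lit 9124426) (nat_lit 486872) (nat_lit 30711320) (nat_lit 11986873) [(nat_lit 486872), (nat_lit 1532407), (nat_lit 0), (nat_lit 7463779)]) (PF.cons PF.nil (PF.cons PF.nil PF.nil)))) (PF.cons (PF.cons (PF.leaf (nat_lit 9473199) (nat_lit 1531113) (nat_lit 30080609) (nat_lit 11820764) [(nat_lit 0), (nat_lit 1531113), (nat_lit 0), (nat_lit 7381737)]) (PF.cons PF.nil PF.nil)) PF.nil))) (PF.cons (PF.cons (PF.cons (PF.leaf (nat_lit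 9240527) (nat_lit 3249780) (nat_lit 29990151) (nat_lit 11788891) [(nat_lit 0), (nat_lit 0), (nat_lit 3249780), (nat_lit 7359996)]) (PF.cons (PF.leaf (nat_lit 9504052) (nat_lit 485111) (nat_lit 29700446) (nat_lit
 11712496) [(nat_lit 485111), (nat_lit 0), (nat_lit 3242440), (nat_lit 7322772)]) PF.nil)) (PF.cons PF.nil PF.nil)) (PF.cons PF.nil PF.nil))) (PF.cons (PF.cons (PF.cons (PF.cons (PF.leaf (nat_lit 9716126) (nat_lit 7019226) (nat_lit 27864506) (nat_lit 11167400) [(nat_lit 0), (nat_lit 0), (nat_lit 0), (nat_lit 7019226)]) (PF.cons PF.nil PF.nil)) (PF.cons PF.nil PF.nil)) (PF.cons PF.nil PF.nil)) (PF.cons PF.nil (PF.cons PF.nil (PF.cons PF.nil PF.nil))))))))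

def p15_25_2_0 : pfC (piC [(nat_lit 37722612), (nat_lit 24769386), (nat_lit 18451604), (nat_lit 12447949)] (nat_lit 6733447)) p15_25_2 (nat_lit 4) (nat_lit 0) (nat_lit 1) = true := by decide +kernel
def p15_25_2_1 : pfC (piC [(nat_lit 37722612), (nat_lit 24769386), (nat_lit 18451604), (nat_lit 12447949)] (nat_lit 6733447)) p15_25_2 (nat_lit 4) (nat_lit 1) (nat_lit 2) = true := by decide +kernel
def p15_25_2_2 : pfC (piC [(nat_lit 37722612), (nat_lit 24769386), (nat_lit 18451604), (nat_lit 12447949)] (nat_lit 6733447)) p15_25_2 (nat_lit 4) (nat_lit 2) (nat_lit 3) = true := by decide +kernel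
def p15_25_2_3 : pfC (piC [(nat_lit 37722612), (nat_lit 24769386), (nat_lit 18451604), (nat_lit 12447949)] (nat_lit 6733447)) p15_25_2 (nat_lit 4) (nat_lit 3) (nat_lit 4) = true := by decide +kernel
def p15_25_2_4 : pfC (piC [(nat_lit 37722612), (nat_lit 24769386), (nat_lit 18451604), (nat_lit 12447949)] (nat_lit 6733447)) p15_25_2 (nat_lit 4) (nat_lit 4) (nat_lit 5) = true := by decide +kernel
def p15_25_2_5 : pfC (piC [(nat_lit 37722612), (nat_lit 24769386), (nat_lit 18451604), (nat_lit 12447949)] (nat_lit 6733447)) p15_25_2 (nat_lit 4) (nat_lit 5) (nat_lit 6) = true := by decide +kernel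
def p15_25_2_6 : pfC (piC [(nat_lit 37722612), (nat_lit 24769386), (nat_lit 18451604), (nat_lit 12447949)] (nat_lit 6733447)) p15_25_2 (nat_lit 4) (nat_lit 6) (nat_lit 7) = true := by decide +kernel
def p15_25_2_7 : pfC (piC [(nat_lit 37722612), (nat_lit 24769386), (nat_lit 18451604), (nat_lit 12447949)] (nat_lit 6733447)) p15_25_2 (nat_lit 4) (nat_lit 7) (nat_lit 8) = true := by decide +kernel
def p15_25_2_8 : pfC (piC [(nat_lit 37722612), (nat_lit 24769386), (nat_lit 18451604), (nat_lit 12447949)] (nat_lit 6733447)) p15_25_2 (nat_lit 4) (nat_lit 8) (nat_lit 9) = true := by decide +kernel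
def p15_25_2_9 : pfC (piC [(nat_lit 37722612), (nat_lit 24769386), (nat_lit 18451604), (nat_lit 12447949)] (nat_lit 6733447)) p15_25_2 (nat_lit 4) (nat_lit 9) (nat_lit 10) = true := by decide +kernel
def p15_25_2_10 : pfC (piC [(nat_lit 37722612), (nat_lit 24769386), (nat_lit 18451604), (nat_lit 12447949)] (nat_lit 6733447)) p15_25_2 (nat_lit 4) (nat_lit 10) (nat_lit 11) = true := by decide +kernel
def p15_25_2_11 : pfC (piC [(nat_lit 37722612), (nat_lit 24769386), (nat_lit 18451604), (nat_lit 12447949)] (nat_lit 6733447)) p15_25_2 (nat_lit 4) (nat_lit 11) (nat_lit 12) = true := by decide +kernel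
def p15_25_2_12 : pfC (piC [(nat_lit 37722612), (nat_lit 24769386), (nat_lit 18451604), (nat_lit 12447949)] (nat_lit 6733447)) p15_25_2 (nat_lit 4) (nat_lit 12) (nat_lit 13) = true := by decide +kernel
def p15_25_2_13 : pfC (piC [(nat_lit 37722612), (nat_lit 24769386), (nat_lit 18451604), (nat_lit 12447949)] (nat_lit 6733447)) p15_25_2 (nat_lit 4) (nat_lit 13) (nat_lit 14) = true := by decide +kernel
def p15_25_2_14 : pfC (piC [(nat_lit 37722612), (nat_lit 24769386), (nat_lit 18451604), (nat_lit 12447949)] (nat_lit 6733447)) p15_25_2 (nat_lit 4) (nat_lit 14) (nat_lit 15) = true := by decide +kernel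
def p15_25_2_15 : pfC (piC [(nat_lit 37722612), (nat_lit 24769386), (nat_lit 18451604), (nat_lit 12447949)] (nat_lit 6733447)) p15_25_2 (nat_lit 4) (nat_lit 15) (nat_lit 16) = true := by decide +kernel
def p15_25_2_16 : pfC (piC [(nat_lit 37722612), (nat_lit 24769386), (nat_lit 18451604), (nat_lit 12447949)] (nat_lit 6733447)) p15_25_2 (nat_lit 4) (nat_lit 16) (nat_lit 17) = true := by decide +kernel
def p15_25_2_17 : pfC (piC [(nat_lit 37722612), (nat_lit 24769386), (nat_lit 18451604), (nat_lit 12447949)] (nat_lit 6733447)) p15_25_2 (nat_lit 4) (nat_lit 17) (nat_lit 18) = true := by decide +kernel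
def p15_25_2_18 : pfC (piC [(nat_lit 37722612), (nat_lit 24769386), (nat_lit 18451604), (nat_lit 12447949)] (nat_lit 6733447)) p15_25_2 (nat_lit 4) (nat_lit 18) (nat_lit 19) = true := by decide +kernel
def p15_25_2_19 : pfC (piC [(nat_lit 37722612), (nat_lit 24769386), (nat_lit 18451604), (nat_lit 12447949)] (nat_lit 6733447)) p15_25_2 (nat_lit 4) (nat_lit 19) (nat_lit 20) = true := by decide +kernel
def p15_25_2_20 : pfC (piC [(nat_lit 37722612), (nat_lit 24769386), (nat_lit 18451604), (nat_lit 12447949)] (nat_lit 6733447)) p15_25_2 (nat_lit 4) (nat_lit 20) (nat_lit 21) = true := by decide +kernel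
def p15_25_2_21 : pfC (piC [(nat_lit 37722612), (nat_lit 24769386), (nat_lit 18451604), (nat_lit 12447949)] (nat_lit 6733447)) p15_25_2 (nat_lit 4) (nat_lit 21) (nat_lit 22) = true := by decide +kernel
def p15_25_2_22 : pfC (piC [(nat_lit 37722612), (nat_lit 24769386), (nat_lit 18451604), (nat_lit 12447949)] (nat_lit 6733447)) p15_25_2 (nat_lit 4) (nat_lit 22) (nat_lit 23) = true := by decide +kernel
def p15_25_2_23 : pfC (piC [(nat_lit 37722612), (nat_lit 24769386), (nat_lit 18451604), (nat_lit 12447949)] (nat_lit 6733447)) p15_25_2 (nat_lit 4) (nat_lit 23) (nat_lit 24) = true := by decide +kernel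
def p15_25_2_24 : pfC (piC [(nat_lit 37722612), (nat_lit 24769386), (nat_lit 18451604), (nat_lit 12447949)] (nat_lit 6733447)) p15_25_2 (nat_lit 4) (nat_lit 24) (nat_lit 25) = true := by decide +kernel
def p15_25_2_25 : pfC (piC [(nat_lit 37722612), (nat_lit 24769386), (nat_lit 18451604), (nat_lit 12447949)] (nat_lit 6733447)) p15_25_2 (nat_lit 4) (nat_lit 25) (nat_lit 26) = true := by decide +kernel
def p15_25_2_26 : pfC (piC [(nat_lit 37722612), (nat_lit 24769386), (nat_lit 18451604), (nat_lit 12447949)] (nat_lit 6733447)) p15_25_2 (nat_lit 4) (nat_lit 26) (nat_lit 27) = true := by decide +kernel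
def p15_25_2_27 : pfC (piC [(nat_lit 37722612), (nat_lit 24769386), (nat_lit 18451604), (nat_lit 12447949)] (nat_lit 6733447)) p15_25_2 (nat_lit 4) (nat_lit 27) (nat_lit 28) = true := by decide +kernel
def p15_25_2_28 : pfC (piC [(nat_lit 37722612), (nat_lit 24769386), (nat_lit 18451604), (nat_lit 12447949)] (nat_lit 6733447)) p15_25_2 (nat_lit 4) (nat_lit 28) (nat_lit 29) = true := by decide +kernel
def p15_25_2_29 : pfC (piC [(nat_lit 37722612), (nat_lit 24769386), (nat_lit 18451604), (nat_lit 12447949)] (nat_lit 6733447)) p15_25_2 (nat_lit 4) (nat_lit 29) (nat_lit 30) = true := by decide +kernel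
def p15_25_2_30 : pfC (piC [(nat_lit 37722612), (nat_lit 24769386), (nat_lit 18451604), (nat_lit 12447949)] (nat_lit 6733447)) p15_25_2 (nat_lit 4) (nat_lit 30) (nat_lit 31) = true := by decide +kernel
def p15_25_2_31 : pfC (piC [(nat_lit 37722612), (nat_lit 24769386), (nat_lit 18451604), (nat_lit 12447949)] (nat_lit 6733447)) p15_25_2 (nat_lit 4) (nat_lit 31) (nat_lit 32) = true := by decide +kernel
def p15_25_2_32 : pfC (piC [(nat_lit 37722612), (nat_lit 24769386), (nat_lit 18451604), (nat_lit 12447949)] (nat_lit 6733447)) p15_25_2 (nat_lit 4) (nat_lit 32) (nat_lit 33) = true := by decide +kernel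
def p15_25_2_33 : pfC (piC [(nat_lit 37722612), (nat_lit 24769386), (nat_lit 18451604), (nat_lit 12447949)] (nat_lit 6733447)) p15_25_2 (nat_lit 4) (nat_lit 33) (nat_lit 34) = true := by decide +kernel
def p15_25_2_34 : pfC (piC [(nat_lit 37722612), (nat_lit 24769386), (nat_lit 18451604), (nat_lit 12447949)] (nat_lit 6733447)) p15_25_2 (nat_lit 4) (nat_lit 34) (nat_lit 35) = true := by decide +kernel
def p15_25_2_35 : pfC (piC [(nat_lit 37722612), (nat_lit 24769386), (nat_lit 18451604), (nat_lit 12447949)] (nat_lit 6733447)) p15_25_2 (nat_lit 4) (nat_lit 35) (nat_lit 36) = true := by decide +kernel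
def p15_25_2_36 : pfC (piC [(nat_lit 37722612), (nat_lit 24769386), (nat_lit 18451604), (nat_lit 12447949)] (nat_lit 6733447)) p15_25_2 (nat_lit 4) (nat_lit 36) (nat_lit 37) = true := by decide +kernel
def p15_25_2_37 : pfC (piC [(nat_lit 37722612), (nat_lit 24769386), (nat_lit 18451604), (nat_lit 12447949)] (nat_lit 6733447)) p15_25_2 (nat_lit 4) (nat_lit 37) (nat_lit 38) = true := by decide +kernel
def p15_25_2_38 : pfC (piC [(nat_lit 37722612), (nat_lit 24769386), (nat_lit 18451604), (nat_lit 12447949)] (nat_lit 6733447)) p15_25_2 (nat_lit 4) (nat_lit 38) (nat_lit 39) = true := by decide +kernel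
def p15_25_2_39 : pfC (piC [(nat_lit 37722612), (nat_lit 24769386), (nat_lit 18451604), (nat_lit 12447949)] (nat_lit 6733447)) p15_25_2 (nat_lit 4) (nat_lit 39) (nat_lit 40) = true := by decide +kernel
def p15_25_2_40 : pfC (piC [(nat_lit 37722612), (nat_lit 24769386), (nat_lit 18451604), (nat_lit 12447949)] (nat_lit 6733447)) p15_25_2 (nat_lit 4) (nat_lit 40) (nat_lit 41) = true := by decide +kernel
def p15_25_2_41 : pfC (piC [(nat_lit 37722612), (nat_lit 24769386), (nat_lit 18451604), (nat_lit 12447949)] (nat_lit 6733447)) p15_25_2 (nat_lit 4) (nat_lit 41) (nat_lit 42) = true := by decide +kernel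
def p15_25_2_42 : pfC (piC [(nat_lit 37722612), (nat_lit 24769386), (nat_lit 18451604), (nat_lit 12447949)] (nat_lit 6733447)) p15_25_2 (nat_lit 4) (nat_lit 42) (nat_lit 43) = true := by decide +kernel
def p15_25_2_43 : pfC (piC [(nat_lit 37722612), (nat_lit 24769386), (nat_lit 18451604), (nat_lit 12447949)] (nat_lit 6733447)) p15_25_2 (nat_lit 4) (nat_lit 43) (nat_lit 44) = true := by decide +kernel
def p15_25_2_44 : pfC (piC [(nat_lit 37722612), (nat_lit 24769386), (nat_lit 18451604), (nat_lit 12447949)] (nat_lit 6733447)) p15_25_2 (nat_lit 4) (nat_lit 44) (nat_lit 45) = true := by decide +kernel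
def p15_25_2_45 : pfC (piC [(nat_lit 37722612), (nat_lit 24769386), (nat_lit 18451604), (nat_lit 12447949)] (nat_lit 6733447)) p15_25_2 (nat_lit 4) (nat_lit 45) (nat_lit 46) = true := by decide +kernel
def p15_25_2_46 : pfC (piC [(nat_lit 37722612), (nat_lit 24769386), (nat_lit 18451604), (nat_lit 12447949)] (nat_lit 6733447)) p15_25_2 (nat_lit 4) (nat_lit 46) (nat_lit 47) = true := by decide +kernel
def p15_25_2_47 : pfC (piC [(nat_lit 37722612), (nat_lit 24769386), (nat_lit 18451604), (nat_lit 12447949)] (nat_lit 6733447)) p15_25_2 (nat_lit 4) (nat_lit 47) (nat_lit 48) = true := by decide +kernel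
def p15_25_2_48 : pfC (piC [(nat_lit 37722612), (nat_lit 24769386), (nat_lit 18451604), (nat_lit 12447949)] (nat_lit 6733447)) p15_25_2 (nat_lit 4) (nat_lit 48) (nat_lit 49) = true := by decide +kernel
def p15_25_2_49 : pfC (piC [(nat_lit 37722612), (nat_lit 24769386), (nat_lit 18451604), (nat_lit 12447949)] (nat_lit 6733447)) p15_25_2 (nat_lit 4) (nat_lit 49) (nat_lit 50) = true := by decide +kernel
def p15_25_2_50 : pfC (piC [(nat_lit 37722612), (nat_lit 24769386), (nat_lit 18451604), (nat_lit 12447949)] (nat_lit 6733447)) p15_25_2 (nat_lit 4) (nat_lit 50) (nat_lit 51) = true := by decide +kernel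
def p15_25_2_51 : pfC (piC [(nat_lit 37722612), (nat_lit 24769386), (nat_lit 18451604), (nat_lit 12447949)] (nat_lit 6733447)) p15_25_2 (nat_lit 4) (nat_lit 51) (nat_lit 52) = true := by decide +kernel
def p15_25_2_52 : pfC (piC [(nat_lit 37722612), (nat_lit 24769386), (nat_lit 18451604), (nat_lit 12447949)] (nat_lit 6733447)) p15_25_2 (nat_lit 4) (nat_lit 52) (nat_lit 53) = true := by decide +kernel
def p15_25_2_53 : pfC (piC [(nat_lit 37722612), (nat_lit 24769386), (nat_lit 18451604), (nat_lit 12447949)] (nat_lit 6733447)) p15_25_2 (nat_lit 4) (nat_lit 53) (nat_lit 54) = true := by decide +kernel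
def p15_25_2_54 : pfC (piC [(nat_lit 37722612), (nat_lit 24769386), (nat_lit 18451604), (nat_lit 12447949)] (nat_lit 6733447)) p15_25_2 (nat_lit 4) (nat_lit 54) (nat_lit 55) = true := by decide +kernel
def p15_25_2_55 : pfC (piC [(nat_lit 37722612), (nat_lit 24769386), (nat_lit 18451604), (nat_lit 12447949)] (nat_lit 6733447)) p15_25_2 (nat_lit 4) (nat_lit 55) (nat_lit 56) = true := by decide +kernel
def p15_25_2_56 : pfC (piC [(nat_lit 37722612), (nat_lit 24769386), (nat_lit 18451604), (nat_lit 12447949)] (nat_lit 6733447)) p15_25_2 (nat_lit 4) (nat_lit 56) (nat_lit 57) = true := by decide +kernel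
def p15_25_2_57 : pfC (piC [(nat_lit 37722612), (nat_lit 24769386), (nat_lit 18451604), (nat_lit 12447949)] (nat_lit 6733447)) p15_25_2 (nat_lit 4) (nat_lit 57) (nat_lit 58) = true := by decide +kernel
def p15_25_2_58 : pfC (piC [(nat_lit 37722612), (nat_lit 24769386), (nat_lit 18451604), (nat_lit 12447949)] (nat_lit 6733447)) p15_25_2 (nat_lit 4) (nat_lit 58) (nat_lit 59) = true := by decide +kernel
def p15_25_2_59 : pfC (piC [(nat_lit 37722612), (nat_lit 24769386), (nat_lit 18451604), (nat_lit 12447949)] (nat_lit 6733447)) p15_25_2 (nat_lit 4) (nat_lit 59) (nat_lit 60) = true := by decide +kernel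
def p15_25_2_60 : pfC (piC [(nat_lit 37722612), (nat_lit 24769386), (nat_lit 18451604), (nat_lit 12447949)] (nat_lit 6733447)) p15_25_2 (nat_lit 4) (nat_lit 60) (nat_lit 61) = true := by decide +kernel
def p15_25_2_61 : pfC (piC [(nat_lit 37722612), (nat_lit 24769386), (nat_lit 18451604), (nat_lit 12447949)] (nat_lit 6733447)) p15_25_2 (nat_lit 4) (nat_lit 61) (nat_lit 62) = true := by decide +kernel
def p15_25_2_62 : pfC (piC [(nat_lit 37722612), (nat_lit 24769386), (nat_lit 18451604), (nat_lit 12447949)] (nat_lit 6733447)) p15_25_2 (nat_lit 4) (nat_lit 62) (nat_lit 63) = true := by decide +kernel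
def p15_25_2_63 : pfC (piC [(nat_lit 37722612), (nat_lit 24769386), (nat_lit 18451604), (nat_lit 12447949)] (nat_lit 6733447)) p15_25_2 (nat_lit 4) (nat_lit 63) (nat_lit 64) = true := by decide +kernel
def p15_25_2_64 : pfC (piC [(nat_lit 37722612), (nat_lit 24769386), (nat_lit 18451604), (nat_lit 12447949)] (nat_lit 6733447)) p15_25_2 (nat_lit 4) (nat_lit 64) (nat_lit 65) = true := by decide +kernel
def p15_25_2_65 : pfC (piC [(nat_lit 37722612), (nat_lit 24769386), (nat_lit 18451604), (nat_lit 12447949)] (nat_lit 6733447)) p15_25_2 (nat_lit 4) (nat_lit 65) (nat_lit 66) = true := by decide +kernel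
def p15_25_2_66 : pfC (piC [(nat_lit 37722612), (nat_lit 24769386), (nat_lit 18451604), (nat_lit 12447949)] (nat_lit 6733447)) p15_25_2 (nat_lit 4) (nat_lit 66) (nat_lit 67) = true := by decide +kernel
def p15_25_2_67 : pfC (piC [(nat_lit 37722612), (nat_lit 24769386), (nat_lit 18451604), (nat_lit 12447949)] (nat_lit 6733447)) p15_25_2 (nat_lit 4) (nat_lit 67) (nat_lit 68) = true := by decide +kernel
def p15_25_2_68 : pfC (piC [(nat_lit 37722612), (nat_lit 24769386), (nat_lit 18451604), (nat_lit 12447949)] (nat_lit 6733447)) p15_25_2 (nat_lit 4) (nat_lit 68) (nat_lit 69) = true := by decide +kernel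
def p15_25_2_69 : pfC (piC [(nat_lit 37722612), (nat_lit 24769386), (nat_lit 18451604), (nat_lit 12447949)] (nat_lit 6733447)) p15_25_2 (nat_lit 4) (nat_lit 69) (nat_lit 70) = true := by decide +kernel
def p15_25_2_70 : pfC (piC [(nat_lit 37722612), (nat_lit 24769386), (nat_lit 18451604), (nat_lit 12447949)] (nat_lit 6733447)) p15_25_2 (nat_lit 4) (nat_lit 70) (nat_lit 71) = true := by decide +kernel
def p15_25_2_71 : pfC (piC [(nat_lit 37722612), (nat_lit 24769386), (nat_lit 18451604), (nat_lit 12447949)] (nat_lit 6733447)) p15_25_2 (nat_lit 4) (nat_lit 71) (nat_lit 72) = true := by decide +kernel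
def p15_25_2_72 : pfC (piC [(nat_lit 37722612), (nat_lit 24769386), (nat_lit 18451604), (nat_lit 12447949)] (nat_lit 6733447)) p15_25_2 (nat_lit 4) (nat_lit 72) (nat_lit 73) = true := by decide +kernel
def p15_25_2_73 : pfC (piC [(nat_lit 37722612), (nat_lit 24769386), (nat_lit 18451604), (nat_lit 12447949)] (nat_lit 6733447)) p15_25_2 (nat_lit 4) (nat_lit 73) (nat_lit 74) = true := by decide +kernel
def p15_25_2_74 : pfC (piC [(nat_lit 37722612), (nat_lit 24769386), (nat_lit 18451604), (nat_lit 12447949)] (nat_lit 6733447)) p15_25_2 (nat_lit 4) (nat_lit 74) (nat_lit 75) = true := by decide +kernel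
def p15_25_2_75 : pfC (piC [(nat_lit 37722612), (nat_lit 24769386), (nat_lit 18451604), (nat_lit 12447949)] (nat_lit 6733447)) p15_25_2 (nat_lit 4) (nat_lit 75) (nat_lit 76) = true := by decide +kernel
def p15_25_2_76 : pfC (piC [(nat_lit 37722612), (nat_lit 24769386), (nat_lit 18451604), (nat_lit 12447949)] (nat_lit 6733447)) p15_25_2 (nat_lit 4) (nat_lit 76) (nat_lit 77) = true := by decide +kernel
def p15_25_2_77 : pfC (piC [(nat_lit 37722612), (nat_lit 24769386), (nat_lit 18451604), (nat_lit 12447949)] (nat_lit 6733447)) p15_25_2 (nat_lit 4) (nat_lit 77) (nat_lit 78) = true := by decide +kernel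
def p15_25_2_78 : pfC (piC [(nat_lit 37722612), (nat_lit 24769386), (nat_lit 18451604), (nat_lit 12447949)] (nat_lit 6733447)) p15_25_2 (nat_lit 4) (nat_lit 78) (nat_lit 79) = true := by decide +kernel
def p15_25_2_79 : pfC (piC [(nat_lit 37722612), (nat_lit 24769386), (nat_lit 18451604), (nat_lit 12447949)] (nat_lit 6733447)) p15_25_2 (nat_lit 4) (nat_lit 79) (nat_lit 80) = true := by decide +kernel
def p15_25_2_80 : pfC (piC [(nat_lit 37722612), (nat_lit 24769386), (nat_lit 18451604), (nat_lit 12447949)] (nat_lit 6733447)) p15_25_2 (nat_lit 4) (nat_lit 80) (nat_lit 81) = true := by decide +kernel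
def p15_25_2_81 : pfC (piC [(nat_lit 37722612), (nat_lit 24769386), (nat_lit 18451604), (nat_lit 12447949)] (nat_lit 6733447)) p15_25_2 (nat_lit 4) (nat_lit 81) (nat_lit 82) = true := by decide +kernel
def p15_25_2_82 : pfC (piC [(nat_lit 37722612), (nat_lit 24769386), (nat_lit 18451604), (nat_lit 12447949)] (nat_lit 6733447)) p15_25_2 (nat_lit 4) (nat_lit 82) (nat_lit 83) = true := by decide +kernel
def p15_25_2_83 : pfC (piC [(nat_lit 37722612), (nat_lit 24769386), (nat_lit 18451604), (nat_lit 12447949)] (nat_lit 6733447)) p15_25_2 (nat_lit 4) (nat_lit 83) (nat_lit 84) = true := by decide +kernel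
def p15_25_2_84 : pfC (piC [(nat_lit 37722612), (nat_lit 24769386), (nat_lit 18451604), (nat_lit 12447949)] (nat_lit 6733447)) p15_25_2 (nat_lit 4) (nat_lit 84) (nat_lit 85) = true := by decide +kernel
def p15_25_2_85 : pfC (piC [(nat_lit 37722612), (nat_lit 24769386), (nat_lit 18451604), (nat_lit 12447949)] (nat_lit 6733447)) p15_25_2 (nat_lit 4) (nat_lit 85) (nat_lit 86) = true := by decide +kernel
def p15_25_2_86 : pfC (piC [(nat_lit 37722612), (nat_lit 24769386), (nat_lit 18451604), (nat_lit 12447949)] (nat_lit 6733447)) p15_25_2 (nat_lit 4) (nat_lit 86) (nat_lit 87) = true := by decide +kernel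
def p15_25_2_87 : pfC (piC [(nat_lit 37722612), (nat_lit 24769386), (nat_lit 18451604), (nat_lit 12447949)] (nat_lit 6733447)) p15_25_2 (nat_lit 4) (nat_lit 87) (nat_lit 88) = true := by decide +kernel
def p15_25_2_88 : pfC (piC [(nat_lit 37722612), (nat_lit 24769386), (nat_lit 18451604), (nat_lit 12447949)] (nat_lit 6733447)) p15_25_2 (nat_lit 4) (nat_lit 88) (nat_lit 89) = true := by decide +kernel
def p15_25_2_89 : pfC (piC [(nat_lit 37722612), (nat_lit 24769386), (nat_lit 18451604), (nat_lit 12447949)] (nat_lit 6733447)) p15_25_2 (nat_lit 4) (nat_lit 89) (nat_lit 90) = true := by decide +kernel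
def p15_25_2_90 : pfC (piC [(nat_lit 37722612), (nat_lit 24769386), (nat_lit 18451604), (nat_lit 12447949)] (nat_lit 6733447)) p15_25_2 (nat_lit 4) (nat_lit 90) (nat_lit 91) = true := by decide +kernel
def p15_25_2_91 : pfC (piC [(nat_lit 37722612), (nat_lit 24769386), (nat_lit 18451604), (nat_lit 12447949)] (nat_lit 6733447)) p15_25_2 (nat_lit 4) (nat_lit 91) (nat_lit 92) = true := by decide +kernel
def p15_25_2_92 : pfC (piC [(nat_lit 37722612), (nat_lit 24769386), (nat_lit 18451604), (nat_lit 12447949)] (nat_lit 6733447)) p15_25_2 (nat_lit 4) (nat_lit 92) (nat_lit 93) = true := by decide +kernel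
def p15_25_2_93 : pfC (piC [(nat_lit 37722612), (nat_lit 24769386), (nat_lit 18451604), (nat_lit 12447949)] (nat_lit 6733447)) p15_25_2 (nat_lit 4) (nat_lit 93) (nat_lit 94) = true := by decide +kernel
def p15_25_2_94 : pfC (piC [(nat_lit 37722612), (nat_lit 24769386), (nat_lit 18451604), (nat_lit 12447949)] (nat_lit 6733447)) p15_25_2 (nat_lit 4) (nat_lit 94) (nat_lit 95) = true := by decide +kernel
def p15_25_2_95 : pfC (piC [(nat_lit 37722612), (nat_lit 24769386), (nat_lit 18451604), (nat_lit 12447949)] (nat_lit 6733447)) p15_25_2 (nat_lit 4) (nat_lit 95) (nat_lit 96) = true := by decide +kernel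
def p15_25_2_96 : pfC (piC [(nat_lit 37722612), (nat_lit 24769386), (nat_lit 18451604), (nat_lit 12447949)] (nat_lit 6733447)) p15_25_2 (nat_lit 4) (nat_lit 96) (nat_lit 97) = true := by decide +kernel
def p15_25_2_97 : pfC (piC [(nat_lit 37722612), (nat_lit 24769386), (nat_lit 18451604), (nat_lit 12447949)] (nat_lit 6733447)) p15_25_2 (nat_lit 4) (nat_lit 97) (nat_lit 98) = true := by decide +kernel
def p15_25_2_98 : pfC (piC [(nat_lit 37722612), (nat_lit 24769386), (nat_lit 18451604), (nat_lit 12447949)] (nat_lit 6733447)) p15_25_2 (nat_lit 4) (nat_lit 98) (nat_lit 99) = true := by decide +kernel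
def p15_25_2_99 : pfC (piC [(nat_lit 37722612), (nat_lit 24769386), (nat_lit 18451604), (nat_lit 12447949)] (nat_lit 6733447)) p15_25_2 (nat_lit 4) (nat_lit 99) (nat_lit 100) = true := by decide +kernel
def p15_25_2_100 : pfC (piC [(nat_lit 37722612), (nat_lit 24769386), (nat_lit 18451604), (nat_lit 12447949)] (nat_lit 6733447)) p15_25_2 (nat_lit 4) (nat_lit 100) (nat_lit 101) = true := by decide +kernel
def p15_25_2_101 : pfC (piC [(nat_lit 37722612), (nat_lit 24769386), (nat_lit 18451604), (nat_lit 12447949)] (nat_lit 6733447)) p15_25_2 (nat_lit 4) (nat_lit 101) (nat_lit 102) = true := by decide +kernel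
def p15_25_2_102 : pfC (piC [(nat_lit 37722612), (nat_lit 24769386), (nat_lit 18451604), (nat_lit 12447949)] (nat_lit 6733447)) p15_25_2 (nat_lit 4) (nat_lit 102) (nat_lit 103) = true := by decide +kernel
def p15_25_2_103 : pfC (piC [(nat_lit 37722612), (nat_lit 24769386), (nat_lit 18451604), (nat_lit 12447949)] (nat_lit 6733447)) p15_25_2 (nat_lit 4) (nat_lit 103) (nat_lit 104) = true := by decide +kernel
def p15_25_2_104 : pfC (piC [(nat_lit 37722612), (nat_lit 24769386), (nat_lit 18451604), (nat_lit 12447949)] (nat_lit 6733447)) p15_25_2 (nat_lit 4) (nat_lit 104) (nat_lit 105) = true := by decide +kernel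
def p15_25_2_105 : pfC (piC [(nat_lit 37722612), (nat_lit 24769386), (nat_lit 18451604), (nat_lit 12447949)] (nat_lit 6733447)) p15_25_2 (nat_lit 4) (nat_lit 105) (nat_lit 106) = true := by decide +kernel
def p15_25_2_106 : pfC (piC [(nat_lit 37722612), (nat_lit 24769386), (nat_lit 18451604), (nat_lit 12447949)] (nat_lit 6733447)) p15_25_2 (nat_lit 4) (nat_lit 106) (nat_lit 107) = true := by decide +kernel
def p15_25_2_107 : pfC (piC [(nat_lit 37722612), (nat_lit 24769386), (nat_lit 18451604), (nat_lit 12447949)] (nat_lit 6733447)) p15_25_2 (nat_lit 4) (nat_lit 107) (nat_lit 108) = true := by decide +kernel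
def p15_25_2_108 : pfC (piC [(nat_lit 37722612), (nat_lit 24769386), (nat_lit 18451604), (nat_lit 12447949)] (nat_lit 6733447)) p15_25_2 (nat_lit 4) (nat_lit 108) (nat_lit 109) = true := by decide +kernel
def p15_25_2_109 : pfC (piC [(nat_lit 37722612), (nat_lit 24769386), (nat_lit 18451604), (nat_lit 12447949)] (nat_lit 6733447)) p15_25_2 (nat_lit 4) (nat_lit 109) (nat_lit 110) = true := by decide +kernel
def p15_25_2_110 : pfC (piC [(nat_lit 37722612), (nat_lit 24769386), (nat_lit 18451604), (nat_lit 12447949)] (nat_lit 6733447)) p15_25_2 (nat_lit 4) (nat_lit 110) (nat_lit 111) = true := by decide +kernel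
def p15_25_2_111 : pfC (piC [(nat_lit 37722612), (nat_lit 24769386), (nat_lit 18451604), (nat_lit 12447949)] (nat_lit 6733447)) p15_25_2 (nat_lit 4) (nat_lit 111) (nat_lit 112) = true := by decide +kernel
def p15_25_2_112 : pfC (piC [(nat_lit 37722612), (nat_lit 24769386), (nat_lit 18451604), (nat_lit 12447949)] (nat_lit 6733447)) p15_25_2 (nat_lit 4) (nat_lit 112) (nat_lit 113) = true := by decide +kernel
def p15_25_2_113 : pfC (piC [(nat_lit 37722612), (nat_lit 24769386), (nat_lit 18451604), (nat_lit 12447949)] (nat_lit 6733447)) p15_25_2 (nat_lit 4) (nat_lit 113) (nat_lit 114) = true := by decide +kernel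
def p15_25_2_114 : pfC (piC [(nat_lit 37722612), (nat_lit 24769386), (nat_lit 18451604), (nat_lit 12447949)] (nat_lit 6733447)) p15_25_2 (nat_lit 4) (nat_lit 114) (nat_lit 115) = true := by decide +kernel
def p15_25_2_115 : pfC (piC [(nat_lit 37722612), (nat_lit 24769386), (nat_lit 18451604), (nat_lit 12447949)] (nat_lit 6733447)) p15_25_2 (nat_lit 4) (nat_lit 115) (nat_lit 116) = true := by decide +kernel
def p15_25_2_116 : pfC (piC [(nat_lit 37722612), (nat_lit 24769386), (nat_lit 18451604), (nat_lit 12447949)] (nat_lit 6733447)) p15_25_2 (nat_lit 4) (nat_lit 116) (nat_lit 117) = true := by decide +kernel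
def p15_25_2_117 : pfC (piC [(nat_lit 37722612), (nat_lit 24769386), (nat_lit 18451604), (nat_lit 12447949)] (nat_lit 6733447)) p15_25_2 (nat_lit 4) (nat_lit 117) (nat_lit 118) = true := by decide +kernel
def p15_25_2_118 : pfC (piC [(nat_lit 37722612), (nat_lit 24769386), (nat_lit 18451604), (nat_lit 12447949)] (nat_lit 6733447)) p15_25_2 (nat_lit 4) (nat_lit 118) (nat_lit 119) = true := by decide +kernel
def p15_25_2_119 : pfC (piC [(nat_lit 37722612), (nat_lit 24769386), (nat_lit 18451604), (nat_lit 12447949)] (nat_lit 6733447)) p15_25_2 (nat_lit 4) (nat_lit 119) (nat_lit 120) = true := by decide +kernel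
def p15_25_2_120 : pfC (piC [(nat_lit 37722612), (nat_lit 24769386), (nat_lit 18451604), (nat_lit 12447949)] (nat_lit 6733447)) p15_25_2 (nat_lit 4) (nat_lit 120) (nat_lit 121) = true := by decide +kernel
def p15_25_2_121 : pfC (piC [(nat_lit 37722612), (nat_lit 24769386), (nat_lit 18451604), (nat_lit 12447949)] (nat_lit 6733447)) p15_25_2 (nat_lit 4) (nat_lit 121) (nat_lit 122) = true := by decide +kernel
def p15_25_2_122 : pfC (piC [(nat_lit 37722612), (nat_lit 24769386), (nat_lit 18451604), (nat_lit 12447949)] (nat_lit 6733447)) p15_25_2 (nat_lit 4) (nat_lit 122) (nat_lit 123) = true := by decide +kernel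
def p15_25_2_123 : pfC (piC [(nat_lit 37722612), (nat_lit 24769386), (nat_lit 18451604), (nat_lit 12447949)] (nat_lit 6733447)) p15_25_2 (nat_lit 4) (nat_lit 123) (nat_lit 124) = true := by decide +kernel
def p15_25_2_124 : pfC (piC [(nat_lit 37722612), (nat_lit 24769386), (nat_lit 18451604), (nat_lit 12447949)] (nat_lit 6733447)) p15_25_2 (nat_lit 4) (nat_lit 124) (nat_lit 125) = true := by decide +kernel
def p15_25_2_125 : pfC (piC [(nat_lit 37722612), (nat_lit 24769386), (nat_lit 18451604), (nat_lit 12447949)] (nat_lit 6733447)) p15_25_2 (nat_lit 4) (nat_lit 125) (nat_lit 126) = true := by decide +kernel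
def p15_25_2_126 : pfC (piC [(nat_lit 37722612), (nat_lit 24769386), (nat_lit 18451604), (nat_lit 12447949)] (nat_lit 6733447)) p15_25_2 (nat_lit 4) (nat_lit 126) (nat_lit 127) = true := by decide +kernel
def p15_25_2_127 : pfC (piC [(nat_lit 37722612), (nat_lit 24769386), (nat_lit 18451604), (nat_lit 12447949)] (nat_lit 6733447)) p15_25_2 (nat_lit 4) (nat_lit 127) (nat_lit 128) = true := by decide +kernel
def p15_25_2_128 : pfC (piC [(nat_lit 37722612), (nat_lit 24769386), (nat_lit 18451604), (nat_lit 12447949)] (nat_lit 6733447)) p15_25_2 (nat_lit 4) (nat_lit 128) (nat_lit 129) = true := by decide +kernel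
def p15_25_2_129 : pfC (piC [(nat_lit 37722612), (nat_lit 24769386), (nat_lit 18451604), (nat_lit 12447949)] (nat_lit 6733447)) p15_25_2 (nat_lit 4) (nat_lit 129) (nat_lit 130) = true := by decide +kernel
def p15_25_2_130 : pfC (piC [(nat_lit 37722612), (nat_lit 24769386), (nat_lit 18451604), (nat_lit 12447949)] (nat_lit 6733447)) p15_25_2 (nat_lit 4) (nat_lit 130) (nat_lit 131) = true := by decide +kernel
def p15_25_2_131 : pfC (piC [(nat_lit 37722612), (nat_lit 24769386), (nat_lit 18451604), (nat_lit 12447949)] (nat_lit 6733447)) p15_25_2 (nat_lit 4) (nat_lit 131) (nat_lit 132) = true := by decide +kernel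
def p15_25_2_132 : pfC (piC [(nat_lit 37722612), (nat_lit 24769386), (nat_lit 18451604), (nat_lit 12447949)] (nat_lit 6733447)) p15_25_2 (nat_lit 4) (nat_lit 132) (nat_lit 133) = true := by decide +kernel
def p15_25_2_133 : pfC (piC [(nat_lit 37722612), (nat_lit 24769386), (nat_lit 18451604), (nat_lit 12447949)] (nat_lit 6733447)) p15_25_2 (nat_lit 4) (nat_lit 133) (nat_lit 134) = true := by decide +kernel
def p15_25_2_134 : pfC (piC [(nat_lit 37722612), (nat_lit 24769386), (nat_lit 18451604), (nat_lit 12447949)] (nat_lit 6733447)) p15_25_2 (nat_lit 4) (nat_lit 134) (nat_lit 135) = true := by decide +kernel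
def p15_25_2_135 : pfC (piC [(nat_lit 37722612), (nat_lit 24769386), (nat_lit 18451604), (nat_lit 12447949)] (nat_lit 6733447)) p15_25_2 (nat_lit 4) (nat_lit 135) (nat_lit 136) = true := by decide +kernel
def p15_25_2_136 : pfC (piC [(nat_lit 37722612), (nat_lit 24769386), (nat_lit 18451604), (nat_lit 12447949)] (nat_lit 6733447)) p15_25_2 (nat_lit 4) (nat_lit 136) (nat_lit 137) = true := by decide +kernel
def p15_25_2_137 : pfC (piC [(nat_lit 37722612), (nat_lit 24769386), (nat_lit 18451604), (nat_lit 12447949)] (nat_lit 6733447)) p15_25_2 (nat_lit 4) (nat_lit 137) (nat_lit 138) = true := by decide +kernel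
def p15_25_2_138 : pfC (piC [(nat_lit 37722612), (nat_lit 24769386), (nat_lit 18451604), (nat_lit 12447949)] (nat_lit 6733447)) p15_25_2 (nat_lit 4) (nat_lit 138) (nat_lit 139) = true := by decide +kernel
def p15_25_2_139 : pfC (piC [(nat_lit 37722612), (nat_lit 24769386), (nat_lit 18451604), (nat_lit 12447949)] (nat_lit 6733447)) p15_25_2 (nat_lit 4) (nat_lit 139) (nat_lit 140) = true := by decide +kernel
def p15_25_2_140 : pfC (piC [(nat_lit 37722612), (nat_lit 24769386), (nat_lit 18451604), (nat_lit 12447949)] (nat_lit 6733447)) p15_25_2 (nat_lit 4) (nat_lit 140) (nat_lit 141) = true := by decide +kernel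
def p15_25_2_141 : pfC (piC [(nat_lit 37722612), (nat_lit 24769386), (nat_lit 18451604), (nat_lit 12447949)] (nat_lit 6733447)) p15_25_2 (nat_lit 4) (nat_lit 141) (nat_lit 142) = true := by decide +kernel
def p15_25_2_142 : pfC (piC [(nat_lit 37722612), (nat_lit 24769386), (nat_lit 18451604), (nat_lit 12447949)] (nat_lit 6733447)) p15_25_2 (nat_lit 4) (nat_lit 142) (nat_lit 143) = true := by decide +kernel
def p15_25_2_143 : pfC (piC [(nat_lit 37722612), (nat_lit 24769386), (nat_lit 18451604), (nat_lit 12447949)] (nat_lit 6733447)) p15_25_2 (nat_lit 4) (nat_lit 143) (nat_lit 144) = true := by decide +kernel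
def p15_25_2_144 : pfC (piC [(nat_lit 37722612), (nat_lit 24769386), (nat_lit 18451604), (nat_lit 12447949)] (nat_lit 6733447)) p15_25_2 (nat_lit 4) (nat_lit 144) (nat_lit 145) = true := by decide +kernel
def p15_25_2_145 : pfC (piC [(nat_lit 37722612), (nat_lit 24769386), (nat_lit 18451604), (nat_lit 12447949)] (nat_lit 6733447)) p15_25_2 (nat_lit 4) (nat_lit 145) (nat_lit 146) = true := by decide +kernel
def p15_25_2_146 : pfC (piC [(nat_lit 37722612), (nat_lit 24769386), (nat_lit 18451604), (nat_lit 12447949)] (nat_lit 6733447)) p15_25_2 (nat_lit 4) (nat_lit 146) (nat_lit 147) = true := by decide +kernel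
def p15_25_2_147 : pfC (piC [(nat_lit 37722612), (nat_lit 24769386), (nat_lit 18451604), (nat_lit 12447949)] (nat_lit 6733447)) p15_25_2 (nat_lit 4) (nat_lit 147) (nat_lit 148) = true := by decide +kernel
def p15_25_2_148 : pfC (piC [(nat_lit 37722612), (nat_lit 24769386), (nat_lit 18451604), (nat_lit 12447949)] (nat_lit 6733447)) p15_25_2 (nat_lit 4) (nat_lit 148) (nat_lit 149) = true := by decide +kernel
def p15_25_2_149 : pfC (piC [(nat_lit 37722612), (nat_lit 24769386), (nat_lit 18451604), (nat_lit 12447949)] (nat_lit 6733447)) p15_25_2 (nat_lit 4) (nat_lit 149) (nat_lit 150) = true := by decide +kernel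
def p15_25_2_150 : pfC (piC [(nat_lit 37722612), (nat_lit 24769386), (nat_lit 18451604), (nat_lit 12447949)] (nat_lit 6733447)) p15_25_2 (nat_lit 4) (nat_lit 150) (nat_lit 151) = true := by decide +kernel
def p15_25_2_151 : pfC (piC [(nat_lit 37722612), (nat_lit 24769386), (nat_lit 18451604), (nat_lit 12447949)] (nat_lit 6733447)) p15_25_2 (nat_lit 4) (nat_lit 151) (nat_lit 152) = true := by decide +kernel
def p15_25_2_152 : pfC (piC [(nat_lit 37722612), (nat_lit 24769386), (nat_lit 18451604), (nat_lit 12447949)] (nat_lit 6733447)) p15_25_2 (nat_lit 4) (nat_lit 152) (nat_lit 153) = true := by decide +kernel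
def p15_25_2_153 : pfC (piC [(nat_lit 37722612), (nat_lit 24769386), (nat_lit 18451604), (nat_lit 12447949)] (nat_lit 6733447)) p15_25_2 (nat_lit 4) (nat_lit 153) (nat_lit 154) = true := by decide +kernel
def p15_25_2_154 : pfC (piC [(nat_lit 37722612), (nat_lit 24769386), (nat_lit 18451604), (nat_lit 12447949)] (nat_lit 6733447)) p15_25_2 (nat_lit 4) (nat_lit 154) (nat_lit 155) = true := by decide +kernel
def p15_25_2_155 : pfC (piC [(nat_lit 37722612), (nat_lit 24769386), (nat_lit 18451604), (nat_lit 12447949)] (nat_lit 6733447)) p15_25_2 (nat_lit 4) (nat_lit 155) (nat_lit 156) = true := by decide +kernel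
def p15_25_2_156 : pfC (piC [(nat_lit 37722612), (nat_lit 24769386), (nat_lit 18451604), (nat_lit 12447949)] (nat_lit 6733447)) p15_25_2 (nat_lit 4) (nat_lit 156) (nat_lit 157) = true := by decide +kernel
def p15_25_2_157 : pfC (piC [(nat_lit 37722612), (nat_lit 24769386), (nat_lit 18451604), (nat_lit 12447949)] (nat_lit 6733447)) p15_25_2 (nat_lit 4) (nat_lit 157) (nat_lit 158) = true := by decide +kernel
def p15_25_2_158 : pfC (piC [(nat_lit 37722612), (nat_lit 24769386), (nat_lit 18451604), (nat_lit 12447949)] (nat_lit 6733447)) p15_25_2 (nat_lit 4) (nat_lit 158) (nat_lit 159) = true := by decide +kernel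
def p15_25_2_159 : pfC (piC [(nat_lit 37722612), (nat_lit 24769386), (nat_lit 18451604), (nat_lit 12447949)] (nat_lit 6733447)) p15_25_2 (nat_lit 4) (nat_lit 159) (nat_lit 160) = true := by decide +kernel
def p15_25_2_160 : pfC (piC [(nat_lit 37722612), (nat_lit 24769386), (nat_lit 18451604), (nat_lit 12447949)] (nat_lit 6733447)) p15_25_2 (nat_lit 4) (nat_lit 160) (nat_lit 161) = true := by decide +kernel
def p15_25_2_161 : pfC (piC [(nat_lit 37722612), (nat_lit 24769386), (nat_lit 18451604), (nat_lit 12447949)] (nat_lit 6733447)) p15_25_2 (nat_lit 4) (nat_lit 161) (nat_lit 162) = true := by decide +kernel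
def p15_25_2_162 : pfC (piC [(nat_lit 37722612), (nat_lit 24769386), (nat_lit 18451604), (nat_lit 12447949)] (nat_lit 6733447)) p15_25_2 (nat_lit 4) (nat_lit 162) (nat_lit 163) = true := by decide +kernel
def p15_25_2_163 : pfC (piC [(nat_lit 37722612), (nat_lit 24769386), (nat_lit 18451604), (nat_lit 12447949)] (nat_lit 6733447)) p15_25_2 (nat_lit 4) (nat_lit 163) (nat_lit 164) = true := by decide +kernel
def p15_25_2_164 : pfC (piC [(nat_lit 37722612), (nat_lit 24769386), (nat_lit 18451604), (nat_lit 12447949)] (nat_lit 6733447)) p15_25_2 (nat_lit 4) (nat_lit 164) (nat_lit 165) = true := by decide +kernel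
def p15_25_2_165 : pfC (piC [(nat_lit 37722612), (nat_lit 24769386), (nat_lit 18451604), (nat_lit 12447949)] (nat_lit 6733447)) p15_25_2 (nat_lit 4) (nat_lit 165) (nat_lit 166) = true := by decide +kernel
def p15_25_2_166 : pfC (piC [(nat_lit 37722612), (nat_lit 24769386), (nat_lit 18451604), (nat_lit 12447949)] (nat_lit 6733447)) p15_25_2 (nat_lit 4) (nat_lit 166) (nat_lit 167) = true := by decide +kernel
def p15_25_2_167 : pfC (piC [(nat_lit 37722612), (nat_lit 24769386), (nat_lit 18451604), (nat_lit 12447949)] (nat_lit 6733447)) p15_25_2 (nat_lit 4) (nat_lit 167) (nat_lit 168) = true := by decide +kernel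
def p15_25_2_168 : pfC (piC [(nat_lit 37722612), (nat_lit 24769386), (nat_lit 18451604), (nat_lit 12447949)] (nat_lit 6733447)) p15_25_2 (nat_lit 4) (nat_lit 168) (nat_lit 169) = true := by decide +kernel
def p15_25_2_169 : pfC (piC [(nat_lit 37722612), (nat_lit 24769386), (nat_lit 18451604), (nat_lit 12447949)] (nat_lit 6733447)) p15_25_2 (nat_lit 4) (nat_lit 169) (nat_lit 170) = true := by decide +kernel
def p15_25_2_170 : pfC (piC [(nat_lit 37722612), (nat_lit 24769386), (nat_lit 18451604), (nat_lit 12447949)] (nat_lit 6733447)) p15_25_2 (nat_lit 4) (nat_lit 170) (nat_lit 171) = true := by decide +kernel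
def p15_25_2_171 : pfC (piC [(nat_lit 37722612), (nat_lit 24769386), (nat_lit 18451604), (nat_lit 12447949)] (nat_lit 6733447)) p15_25_2 (nat_lit 4) (nat_lit 171) (nat_lit 172) = true := by decide +kernel
def p15_25_2_172 : pfC (piC [(nat_lit 37722612), (nat_lit 24769386), (nat_lit 18451604), (nat_lit 12447949)] (nat_lit 6733447)) p15_25_2 (nat_lit 4) (nat_lit 172) (nat_lit 173) = true := by decide +kernel
def p15_25_2_173 : pfC (piC [(nat_lit 37722612), (nat_lit 24769386), (nat_lit 18451604), (nat_lit 12447949)] (nat_lit 6733447)) p15_25_2 (nat_lit 4) (nat_lit 173) (nat_lit 174) = true := by decide +kernel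
def p15_25_2_174 : pfC (piC [(nat_lit 37722612), (nat_lit 24769386), (nat_lit 18451604), (nat_lit 12447949)] (nat_lit 6733447)) p15_25_2 (nat_lit 4) (nat_lit 174) (nat_lit 175) = true := by decide +kernel
def p15_25_2_175 : pfC (piC [(nat_lit 37722612), (nat_lit 24769386), (nat_lit 18451604), (nat_lit 12447949)] (nat_lit 6733447)) p15_25_2 (nat_lit 4) (nat_lit 175) (nat_lit 176) = true := by decide +kernel
def p15_25_2_176 : pfC (piC [(nat_lit 37722612), (nat_lit 24769386), (nat_lit 18451604), (nat_lit 12447949)] (nat_lit 6733447)) p15_25_2 (nat_lit 4) (nat_lit 176) (nat_lit 177) = true := by decide +kernel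
def p15_25_2_177 : pfC (piC [(nat_lit 37722612), (nat_lit 24769386), (nat_lit 18451604), (nat_lit 12447949)] (nat_lit 6733447)) p15_25_2 (nat_lit 4) (nat_lit 177) (nat_lit 178) = true := by decide +kernel
def p15_25_2_178 : pfC (piC [(nat_lit 37722612), (nat_lit 24769386), (nat_lit 18451604), (nat_lit 12447949)] (nat_lit 6733447)) p15_25_2 (nat_lit 4) (nat_lit 178) (nat_lit 179) = true := by decide +kernel
def p15_25_2_179 : pfC (piC [(nat_lit 37722612), (nat_lit 24769386), (nat_lit 18451604), (nat_lit 12447949)] (nat_lit 6733447)) p15_25_2 (nat_lit 4) (nat_lit 179) (nat_lit 180) = true := by decide +kernel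
def p15_25_2_180 : pfC (piC [(nat_lit 37722612), (nat_lit 24769386), (nat_lit 18451604), (nat_lit 12447949)] (nat_lit 6733447)) p15_25_2 (nat_lit 4) (nat_lit 180) (nat_lit 181) = true := by decide +kernel
def p15_25_2_181 : pfC (piC [(nat_lit 37722612), (nat_lit 24769386), (nat_lit 18451604), (nat_lit 12447949)] (nat_lit 6733447)) p15_25_2 (nat_lit 4) (nat_lit 181) (nat_lit 182) = true := by decide +kernel
def p15_25_2_182 : pfC (piC [(nat_lit 37722612), (nat_lit 24769386), (nat_lit 18451604), (nat_lit 12447949)] (nat_lit 6733447)) p15_25_2 (nat_lit 4) (nat_lit 182) (nat_lit 183) = true := by decide +kernel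
def p15_25_2_183 : pfC (piC [(nat_lit 37722612), (nat_lit 24769386), (nat_lit 18451604), (nat_lit 12447949)] (nat_lit 6733447)) p15_25_2 (nat_lit 4) (nat_lit 183) (nat_lit 184) = true := by decide +kernel
def p15_25_2_184 : pfC (piC [(nat_lit 37722612), (nat_lit 24769386), (nat_lit 18451604), (nat_lit 12447949)] (nat_lit 6733447)) p15_25_2 (nat_lit 4) (nat_lit 184) (nat_lit 185) = true := by decide +kernel
def p15_25_2_185 : pfC (piC [(nat_lit 37722612), (nat_lit 24769386), (nat_lit 18451604), (nat_lit 12447949)] (nat_lit 6733447)) p15_25_2 (nat_lit 4) (nat_lit 185) (nat_lit 186) = true := by decide +kernel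
def p15_25_2_186 : pfC (piC [(nat_lit 37722612), (nat_lit 24769386), (nat_lit 18451604), (nat_lit 12447949)] (nat_lit 6733447)) p15_25_2 (nat_lit 4) (nat_lit 186) (nat_lit 187) = true := by decide +kernel
def p15_25_2_187 : pfC (piC [(nat_lit 37722612), (nat_lit 24769386), (nat_lit 18451604), (nat_lit 12447949)] (nat_lit 6733447)) p15_25_2 (nat_lit 4) (nat_lit 187) (nat_lit 188) = true := by decide +kernel
def p15_25_2_188 : pfC (piC [(nat_lit 37722612), (nat_lit 24769386), (nat_lit 18451604), (nat_lit 12447949)] (nat_lit 6733447)) p15_25_2 (nat_lit 4) (nat_lit 188) (nat_lit 189) = true := by decide +kernel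
def p15_25_2_189 : pfC (piC [(nat_lit 37722612), (nat_lit 24769386), (nat_lit 18451604), (nat_lit 12447949)] (nat_lit 6733447)) p15_25_2 (nat_lit 4) (nat_lit 189) (nat_lit 190) = true := by decide +kernel
def p15_25_2_190 : pfC (piC [(nat_lit 37722612), (nat_lit 24769386), (nat_lit 18451604), (nat_lit 12447949)] (nat_lit 6733447)) p15_25_2 (nat_lit 4) (nat_lit 190) (nat_lit 191) = true := by decide +kernel
def p15_25_2_191 : pfC (piC [(nat_lit 37722612), (nat_lit 24769386), (nat_lit 18451604), (nat_lit 12447949)] (nat_lit 6733447)) p15_25_2 (nat_lit 4) (nat_lit 191) (nat_lit 192) = true := by decide +kernel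
def p15_25_2_192 : pfC (piC [(nat_lit 37722612), (nat_lit 24769386), (nat_lit 18451604), (nat_lit 12447949)] (nat_lit 6733447)) p15_25_2 (nat_lit 4) (nat_lit 192) (nat_lit 193) = true := by decide +kernel
def p15_25_2_193 : pfC (piC [(nat_lit 37722612), (nat_lit 24769386), (nat_lit 18451604), (nat_lit 12447949)] (nat_lit 6733447)) p15_25_2 (nat_lit 4) (nat_lit 193) (nat_lit 194) = true := by decide +kernel
theorem p15_25_2_T : PfS (PiF n15_25.reverse (nat_lit 6733447)) p15_25_2 (nat_lit 4) [] 0 :=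
  pftab_of (los := [(nat_lit 37722612), (nat_lit 24769386), (nat_lit 18451604), (nat_lit 12447949)]) (by decide +kernel) (hi := (nat_lit 194)) (PfP.trans (PfP.trans (PfP.trans (PfP.trans (PfP.trans (PfP.trans (PfP.trans (PfP.trans (PfP.trans (PfP.trans (PfP.trans (PfP.trans (PfP.trans (PfP.trans (PfP.trans (PfP.trans (PfP.trans (PfP.trans (PfP.trans (PfP.trans (PfP.trans (PfP.trans (PfP.trans (PfP.trans (PfP.trans (PfP.trans (PfP.trans (PfP.trans (PfP.trans (PfP.trans (PfP.trans (PfP.trans (PfP.trans (PfP.trans (PfP.trans (PfP.trans (PfP.trans (PfP.trans (PfP.trans (PfP.trans (PfP.trans (PfP.trans (PfP.trans (PfP.trans (PfP.trans (PfP.trans (PfP.trans (PfP.trans (PfP.trans (PfP.trans (PfP.trans (PfP.trans (PfP.trans (PfP.trans (PfP.trans (PfP.trans (PfP.trans (PfP.trans (PfP.trans (PfP.trans (PfP.trans (PfP.trans (PfP.trans (PfP.trans (PfP.trans (PfP.trans (PfP.trans (PfP.trans (PfP.trans (PfP.trans (PfP.trans (PfP.trans (PfP.trans (PfP.trans (PfP.trans (PfP.trans (PfP.trans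 (PfP.trans (PfP.trans (PfP.trans (PfP.trans (PfP.trans (PfP.trans (PfP.trans (PfP.trans (PfP.trans (PfP.trans (PfP.trans (PfP.trans (PfP.trans (PfP.trans (PfP.trans (PfP.trans (PfP.trans (PfP.trans (PfP.trans (PfP.trans (PfP.trans (PfP.trans (PfP.trans (PfP.trans (PfP.trans (PfP.trans (PfP.trans (PfP.trans (PfP.trans (PfP.trans (PfP.trans (PfP.trans
 (PfP.trans (PfP.trans (PfP.trans (PfP.trans (PfP.trans (PfP.trans (PfP.trans (PfP.trans (PfP.trans (PfP.trans (PfP.trans (PfP.trans (PfP.trans (PfP.trans (PfP.trans (PfP.trans (PfP.trans (PfP.trans (PfP.trans (PfP.trans (PfP.trans (PfP.trans (PfP.trans (PfP.trans (PfP.trans (PfP.trans (PfP.trans (PfP.trans (PfP.trans (PfP.trans (PfP.trans (PfP.trans (PfP.trans (PfP.trans (PfP.trans (PfP.trans (PfP.trans (PfP.trans (PfP.trans (PfP.trans (PfP.trans (PfP.trans (PfP.trans (PfP.trans (PfP.trans (PfP.trans (PfP.trans (PfP.trans (PfP.trans (PfP.trans (PfP.trans (PfP.trans (PfP.trans (PfP.trans (PfP.trans (PfP.trans (PfP.trans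 (PfP.trans (PfP.trans (PfP.trans (PfP.trans (PfP.trans (PfP.trans (PfP.trans (PfP.trans (PfP.trans (PfP.trans (PfP.trans (PfP.trans (PfP.trans (PfP.trans (PfP.trans (PfP.trans (PfP.trans (PfP.trans (PfP.trans (PfP.trans (PfP.trans (PfP.trans (PfP.trans (PfP.trans (PfP.trans (PfP.trans (PfP.trans (pfC_sound p15_25_2_0) (pfC_sound p15_25_2_1)) (pfC_sound p15_25_2_2)) (pfC_sound p15_25_2_3)) (pfC_sound p15_25_2_4)) (pfC_sound p15_25_2_5)) (pfC_sound p15_25_2_6)) (pfC_sound p15_25_2_7)) (pfC_sound p15_25_2_8)) (pfC_sound p15_25_2_9)) (pfC_sound p15_25_2_10)) (pfC_sound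
 p15_25_2_11)) (pfC_sound p15_25_2_12)) (pfC_sound p15_25_2_13)) (pfC_sound p15_25_2_14)) (pfC_sound p15_25_2_15)) (pfC_sound p15_25_2_16)) (pfC_sound p15_25_2_17)) (pfC_sound p15_25_2_18)) (pfC_sound p15_25_2_19)) (pfC_sound p15_25_2_20)) (pfC_sound p15_25_2_21)) (pfC_sound p15_25_2_22)) (pfC_sound p15_25_2_23)) (pfC_sound p15_25_2_24)) (pfC_sound p15_25_2_25)) (pfC_sound p15_25_2_26)) (pfC_sound p15_25_2_27)) (pfC_sound p15_25_2_28)) (pfC_sound p15_25_2_29)) (pfC_sound p15_25_2_30)) (pfC_sound p15_25_2_31)) (pfC_sound p15_25_2_32)) (pfC_sound p15_25_2_33)) (pfC_sound p15_25_2_34)) (pfC_sound p15_25_2_35)) (pfC_sound p15_25_2_36)) (pfC_sound p15_25_2_37)) (pfC_sound p15_25_2_38)) (pfC_sound p15_25_2_39)) (pfC_sound p15_25_2_40)) (pfC_sound p15_25_2_41)) (pfC_sound p15_25_2_42)) (pfC_sound p15_25_2_43)) (pfC_sound p15_25_2_44)) (pfC_sound p15_25_2_45)) (pfC_sound p15_25_2_46)) (pfC_sound p15_25_2_47)) (pfC_sound p15_25_2_48)) (pfC_sound p15_25_2_49)) (pfC_sound p15_25_2_50))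 (pfC_sound p15_25_2_51)) (pfC_sound p15_25_2_52)) (pfC_sound p15_25_2_53)) (pfC_sound p15_25_2_54)) (pfC_sound p15_25_2_55)) (pfC_sound p15_25_2_56)) (pfC_sound p15_25_2_57)) (pfC_sound p15_25_2_58)) (pfC_sound
 p15_25_2_59)) (pfC_sound p15_25_2_60)) (pfC_sound p15_25_2_61)) (pfC_sound p15_25_2_62)) (pfC_sound p15_25_2_63)) (pfC_sound p15_25_2_64)) (pfC_sound p15_25_2_65)) (pfC_sound p15_25_2_66)) (pfC_sound p15_25_2_67)) (pfC_sound p15_25_2_68)) (pfC_sound p15_25_2_69)) (pfC_sound p15_25_2_70)) (pfC_sound p15_25_2_71)) (pfC_sound p15_25_2_72)) (pfC_sound p15_25_2_73)) (pfC_sound p15_25_2_74)) (pfC_sound p15_25_2_75)) (pfC_sound p15_25_2_76)) (pfC_sound p15_25_2_77)) (pfC_sound p15_25_2_78)) (pfC_sound p15_25_2_79)) (pfC_sound p15_25_2_80)) (pfC_sound p15_25_2_81)) (pfC_sound p15_25_2_82)) (pfC_sound p15_25_2_83)) (pfC_sound p15_25_2_84)) (pfC_sound p15_25_2_85)) (pfC_sound p15_25_2_86)) (pfC_sound p15_25_2_87)) (pfC_sound p15_25_2_88)) (pfC_sound p15_25_2_89)) (pfC_sound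 p15_25_2_90)) (pfC_sound p15_25_2_91)) (pfC_sound p15_25_2_92)) (pfC_sound p15_25_2_93)) (pfC_sound p15_25_2_94)) (pfC_sound p15_25_2_95)) (pfC_sound p15_25_2_96)) (pfC_sound p15_25_2_97)) (pfC_sound p15_25_2_98)) (pfC_sound p15_25_2_99)) (pfC_sound p15_25_2_100)) (pfC_sound p15_25_2_101)) (pfC_sound p15_25_2_102)) (pfC_sound p15_25_2_103)) (pfC_sound p15_25_2_104)) (pfC_sound p15_25_2_105)) (pfC_sound p15_25_2_106))
 (pfC_sound p15_25_2_107)) (pfC_sound p15_25_2_108)) (pfC_sound p15_25_2_109)) (pfC_sound p15_25_2_110)) (pfC_sound p15_25_2_111)) (pfC_sound p15_25_2_112)) (pfC_sound p15_25_2_113)) (pfC_sound p15_25_2_114)) (pfC_sound p15_25_2_115)) (pfC_sound p15_25_2_116)) (pfC_sound p15_25_2_117)) (pfC_sound p15_25_2_118)) (pfC_sound p15_25_2_119)) (pfC_sound p15_25_2_120)) (pfC_sound p15_25_2_121)) (pfC_sound p15_25_2_122)) (pfC_sound p15_25_2_123)) (pfC_sound p15_25_2_124)) (pfC_sound p15_25_2_125)) (pfC_sound p15_25_2_126)) (pfC_sound p15_25_2_127)) (pfC_sound p15_25_2_128))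 (pfC_sound p15_25_2_129)) (pfC_sound p15_25_2_130)) (pfC_sound p15_25_2_131)) (pfC_sound p15_25_2_132)) (pfC_sound p15_25_2_133)) (pfC_sound p15_25_2_134)) (pfC_sound p15_25_2_135)) (pfC_sound p15_25_2_136)) (pfC_sound p15_25_2_137)) (pfC_sound p15_25_2_138)) (pfC_sound p15_25_2_139)) (pfC_sound p15_25_2_140)) (pfC_sound p15_25_2_141)) (pfC_sound p15_25_2_142)) (pfC_sound p15_25_2_143)) (pfC_sound p15_25_2_144)) (pfC_sound p15_25_2_145)) (pfC_sound p15_25_2_146)) (pfC_sound p15_25_2_147)) (pfC_sound p15_25_2_148)) (pfC_sound p15_25_2_149)) (pfC_sound p15_25_2_150)) (pfC_sound p15_25_2_151)) (pfC_sound p15_25_2_152))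
 (pfC_sound p15_25_2_153)) (pfC_sound p15_25_2_154)) (pfC_sound p15_25_2_155)) (pfC_sound p15_25_2_156)) (pfC_sound p15_25_2_157)) (pfC_sound p15_25_2_158)) (pfC_sound p15_25_2_159)) (pfC_sound p15_25_2_160)) (pfC_sound p15_25_2_161)) (pfC_sound p15_25_2_162)) (pfC_sound p15_25_2_163)) (pfC_sound p15_25_2_164)) (pfC_sound p15_25_2_165)) (pfC_sound p15_25_2_166)) (pfC_sound p15_25_2_167)) (pfC_sound p15_25_2_168)) (pfC_sound p15_25_2_169)) (pfC_sound p15_25_2_170)) (pfC_sound p15_25_2_171)) (pfC_sound p15_25_2_172)) (pfC_sound p15_25_2_173)) (pfC_sound p15_25_2_174)) (pfC_sound p15_25_2_175)) (pfC_sound p15_25_2_176)) (pfC_sound p15_25_2_177)) (pfC_sound p15_25_2_178)) (pfC_sound p15_25_2_179)) (pfC_sound p15_25_2_180)) (pfC_sound p15_25_2_181)) (pfC_sound p15_25_2_182)) (pfC_sound p15_25_2_183)) (pfC_sound p15_25_2_184)) (pfC_sound p15_25_2_185)) (pfC_sound p15_25_2_186)) (pfC_sound p15_25_2_187)) (pfC_sound p15_25_2_188)) (pfC_sound p15_25_2_189)) (pfC_sound p15_25_2_190))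 (pfC_sound p15_25_2_191)) (pfC_sound p15_25_2_192)) (pfC_sound p15_25_2_193)) (by decide +kernel)

def z15_25_2 : zOK yB15_25 (nat_lit 2) (nat_lit 600) (nat_lit 750) (nat_lit 6733447) (nat_lit 4959372) = true := by decide +kernel
def g15_25_2 : gOK yB15_25.x P15_25 (nat_lit 1413) (q15_25 :: r15_25) (nat_lit 2) (nat_lit 600) (nat_lit 3) (nat_lit 750) (nat_lit 12712500) (nat_lit 12712500) (nat_lit 12712500) (nat_lit 12712500) [(nat_lit 800), (nat_lit 1600)] = true := by decide +kernel
def v15_25_2 : ivC P15_25 s15_25 w15_25 n15_25 (nat_lit 4) (nat_lit 4770) (nat_lit 2) (nat_lit 600) f160_1_600 f168_1_600 (nat_lit 3) (nat_lit 750) f160_1_750 f168_1_750 (nat_lit 6733447) (nat_lit 4959372) p15_25_2 = true := by decide +kernel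
def p15_25_3 : PF := (PF.cons (PF.cons (PF.cons (PF.cons (PF.leaf (nat_lit 2988758) (nat_lit 19136082) (nat_lit 47972730) (nat_lit 19136082) [(nat_lit 0), (nat_lit 0), (nat_lit 0), (nat_lit 0)]) (PF.cons (PF.leaf (nat_lit 3167011) (nat_lit 322730) (nat_lit 47696519) (nat_lit 19089563) [(nat_lit 322730), (nat_lit 0), (nat_lit 0), (nat_lit 0)]) (PF.cons (PF.leaf (nat_lit 3376843) (nat_lit 350163) (nat_lit 47374511) (nat_lit 19033973) [(nat_lit 350163), (nat_lit 0), (nat_lit 0), (nat_lit 0)]) (PF.cons (PF.leaf (nat_lit 3611643) (nat_lit 374224) (nat_lit 47015772) (nat_lit 18970366) [(nat_lit 374224), (nat_lit 0), (nat_lit 0), (nat_lit 0)]) (PF.cons (PF.leaf (nat_lit 3867479) (nat_lit 395646) (nat_lit 46626782) (nat_lit 18899445) [(nat_lit 395646), (nat_lit 0), (nat_lit 0), (nat_lit 0)]) (PF.cons (PF.leaf (nat_lit 4141304) (nat_lit 414901) (nat_lit 46212566) (nat_lit 18821739) [(nat_lit 414901), (nat_lit 0), (nat_lit 0), (nat_lit 0)]) (PF.cons (PF.leaf (nat_lit 4430682)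 (nat_lit 432318) (nat_lit 45777214) (nat_lit 18737689) [(nat_lit 432318), (nat_lit 0), (nat_lit 0), (nat_lit 0)]) (PF.cons (PF.leaf (nat_lit 4733545) (nat_lit 448137) (nat_lit 45324166) (nat_lit 18647681) [(nat_lit 448137), (nat_lit 0),
 (nat_lit 0), (nat_lit 0)]) (PF.cons (PF.leaf (nat_lit 5048105) (nat_lit 462544) (nat_lit 44856376) (nat_lit 18552079) [(nat_lit 462544), (nat_lit 0), (nat_lit 0), (nat_lit 0)]) (PF.cons (PF.leaf (nat_lit 5372770) (nat_lit 475685) (nat_lit 44376419) (nat_lit 18451227) [(nat_lit 475685), (nat_lit 0), (nat_lit 0), (nat_lit 0)]) (PF.cons PF.nil (PF.cons PF.nil PF.nil)))))))))))) (PF.cons (PF.cons (PF.leaf (nat_lit 3549862) (nat_lit 1364459) (nat_lit 46814243) (nat_lit 18930110) [(nat_lit 0), (nat_lit 1364459), (nat_lit 0), (nat_lit 0)]) (PF.cons (PF.leaf (nat_lit 3776375) (nat_lit 383178) (nat_lit 46462278) (nat_lit 18865032) [(nat_lit 383178), (nat_lit 1398324), (nat_lit 0), (nat_lit 0)]) (PF.cons (PF.leaf (nat_lit 4026162) (nat_lit 403830)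 (nat_lit 46078174) (nat_lit 18792183) [(nat_lit 403830), (nat_lit 1430794), (nat_lit 0), (nat_lit 0)]) (PF.cons (PF.leaf (nat_lit 4294780) (nat_lit 422320) (nat_lit 45668094) (nat_lit 18712338) [(nat_lit 422320), (nat_lit 1461419), (nat_lit 0), (nat_lit 0)]) (PF.cons (PF.leaf (nat_lit 4579421) (nat_lit 439005) (nat_lit 45236703) (nat_lit 18626078) [(nat_lit 439005), (nat_lit 1490010), (nat_lit 0), (nat_lit 0)]) (PF.cons (PF.leaf (nat_lit 4877805)
 (nat_lit 454136) (nat_lit 44787741) (nat_lit 18533879) [(nat_lit 454136), (nat_lit 1516512), (nat_lit 0), (nat_lit 0)]) (PF.cons (PF.leaf (nat_lit 5188007) (nat_lit 467898) (nat_lit 44324319) (nat_lit 18436163) [(nat_lit 467898), (nat_lit 1540939), (nat_lit 0), (nat_lit 0)]) (PF.cons (PF.leaf (nat_lit 5508396) (nat_lit 480438) (nat_lit 43849091) (nat_lit 18333313) [(nat_lit 480438), (nat_lit 1563342), (nat_lit 0), (nat_lit 0)]) (PF.cons (PF.leaf (nat_lit 5837517) (nat_lit 491871) (nat_lit 43364351) (nat_lit 18225694) [(nat_lit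 491871), (nat_lit 1583792), (nat_lit 0), (nat_lit 0)]) (PF.cons PF.nil PF.nil)))))))))) (PF.cons (PF.cons (PF.leaf (nat_lit 4187902) (nat_lit 1455429) (nat_lit 45518988) (nat_lit 18678965) [(nat_lit 0), (nat_lit 1455429), (nat_lit 0), (nat_lit 0)]) (PF.cons (PF.leaf (nat_lit 4449222) (nat_lit 428522) (nat_lit 45116736) (nat_lit 18597835) [(nat_lit 428522), (nat_lit 1482859), (nat_lit 0), (nat_lit 0)]) (PF.cons (PF.leaf (nat_lit 4728059) (nat_lit 444679) (nat_lit 44692016) (nat_lit 18510040) [(nat_lit 444679), (nat_lit 1508698), (nat_lit 0), (nat_lit 0)]) (PF.cons (PF.leaf (nat_lit 5021209) (nat_lit 459270) (nat_lit 44249217) (nat_lit 18416212) [(nat_lit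
 459270), (nat_lit 1532785), (nat_lit 0), (nat_lit 0)]) (PF.cons (PF.leaf (nat_lit 5326526) (nat_lit 472503) (nat_lit 43791801) (nat_lit 18316865) [(nat_lit 472503), (nat_lit 1555066), (nat_lit 0), (nat_lit 0)]) (PF.cons (PF.leaf (nat_lit 5642238) (nat_lit 484533) (nat_lit 43322617) (nat_lit 18212443) [(nat_lit 484533), (nat_lit 1575541), (nat_lit 0), (nat_lit 0)]) (PF.cons (PF.leaf (nat_lit 5966812) (nat_lit 495482) (nat_lit 42844067) (nat_lit 18103352) [(nat_lit 495482), (nat_lit 1594249), (nat_lit 0), (nat_lit 0)]) (PF.cons (PF.leaf (nat_lit 6298908) (nat_lit 505448) (nat_lit 42358218) (nat_lit 17989966) [(nat_lit 505448), (nat_lit 1611244), (nat_lit 0), (nat_lit 0)]) (PF.cons PF.nil PF.nil))))))))) (PF.cons (PF.cons (PF.leaf (nat_lit 4878186) (nat_lit 1525549) (nat_lit 44142671) (nat_lit 18389493) [(nat_lit 0), (nat_lit 1525549), (nat_lit 0), (nat_lit 0)]) (PF.cons (PF.leaf (nat_lit 5164639) (nat_lit 463557) (nat_lit 43708399) (nat_lit 18294689) [(nat_lit 463557),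 (nat_lit 1547388), (nat_lit 0), (nat_lit 0)]) (PF.cons (PF.leaf (nat_lit 5464355) (nat_lit 476380) (nat_lit 43258777) (nat_lit 18194248) [(nat_lit 476380), (nat_lit 1567675), (nat_lit 0), (nat_lit 0)]) (PF.cons
 (PF.leaf (nat_lit 5774861) (nat_lit 487994) (nat_lit 42797030) (nat_lit 18088714) [(nat_lit 487994), (nat_lit 1586361), (nat_lit 0), (nat_lit 0)]) (PF.cons (PF.leaf (nat_lit 6094488) (nat_lit 498532) (nat_lit 42325779) (nat_lit 17978551) [(nat_lit 498532), (nat_lit 1603451), (nat_lit 0), (nat_lit 0)]) (PF.cons (PF.leaf (nat_lit 6421828) (nat_lit 508100) (nat_lit 41847215) (nat_lit 17864175) [(nat_lit 508100), (nat_lit 1618973), (nat_lit 0), (nat_lit 0)]) (PF.cons PF.nil PF.nil))))))) (PF.cons (PF.cons (PF.leaf (nat_lit 5602673) (nat_lit 1578903) (nat_lit 42724900) (nat_lit 18068299) [(nat_lit 0), (nat_lit 1578903), (nat_lit 0), (nat_lit 0)]) (PF.cons (PF.leaf (nat_lit 5906901) (nat_lit 490828) (nat_lit 42272155) (nat_lit 17962166) [(nat_lit 490828), (nat_lit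 1595915), (nat_lit 0), (nat_lit 0)]) (PF.cons (PF.leaf (nat_lit 6221107) (nat_lit 501033) (nat_lit 41809405) (nat_lit 17851366) [(nat_lit 501033), (nat_lit 1611493), (nat_lit 0), (nat_lit 0)]) (PF.cons (PF.leaf (nat_lit 6543315) (nat_lit 510267) (nat_lit 41339069) (nat_lit 17736375) [(nat_lit 510267), (nat_lit 1625641), (nat_lit 0), (nat_lit 0)]) (PF.cons (PF.leaf (nat_lit 6872201) (nat_lit 518623) (nat_lit 40863147) (nat_lit
 17617617) [(nat_lit 518623), (nat_lit 1638388), (nat_lit 0), (nat_lit 0)]) PF.nil))))) (PF.cons (PF.cons (PF.leaf (nat_lit 6347588) (nat_lit 1618464) (nat_lit 41294674) (nat_lit 17721817) [(nat_lit 0), (nat_lit 1618464), (nat_lit 0), (nat_lit 0)]) (PF.cons (PF.leaf (nat_lit 6663851) (nat_lit 511955) (nat_lit 40833612) (nat_lit 17606621) [(nat_lit 511955), (nat_lit 1631324), (nat_lit 0), (nat_lit 0)]) (PF.cons (PF.leaf (nat_lit 6987483) (nat_lit 520037) (nat_lit 40366592) (nat_lit 17487661) [(nat_lit 520037), (nat_lit 1642896), (nat_lit 0), (nat_lit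 0)]) (PF.cons PF.nil PF.nil)))) (PF.cons (PF.cons (PF.leaf (nat_lit 7102258) (nat_lit 1646562) (nat_lit 39873307) (nat_lit 17356133) [(nat_lit 0), (nat_lit 1646562), (nat_lit 0), (nat_lit 0)]) (PF.cons (PF.leaf (nat_lit 7426018) (nat_lit 528090) (nat_lit 39411528) (nat_lit 17233997) [(nat_lit 528090), (nat_lit 1655866), (nat_lit 0), (nat_lit 0)]) PF.nil)) (PF.cons PF.nil (PF.cons PF.nil PF.nil))))))))) (PF.cons (PF.cons (PF.cons (PF.leaf (nat_lit 4076157) (nat_lit 3407388) (nat_lit 45120474) (nat_lit 18580949) [(nat_lit 0), (nat_lit 0), (nat_lit 3407388), (nat_lit 0)]) (PF.cons (PF.leaf (nat_lit 4310598) (nat_lit 405935) (nat_lit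
 44762392) (nat_lit 18507374) [(nat_lit 405935), (nat_lit 0), (nat_lit 3433111), (nat_lit 0)]) (PF.cons (PF.leaf (nat_lit 4566922) (nat_lit 424936) (nat_lit 44374761) (nat_lit 18425989) [(nat_lit 424936), (nat_lit 0), (nat_lit 3458189), (nat_lit 0)]) (PF.cons (PF.leaf (nat_lit 4840657) (nat_lit 441717) (nat_lit 43963894) (nat_lit 18337786) [(nat_lit 441717), (nat_lit 0), (nat_lit 3481978), (nat_lit 0)]) (PF.cons (PF.leaf (nat_lit 5128958) (nat_lit 456696) (nat_lit 43534448) (nat_lit 18243493) [(nat_lit 456696), (nat_lit 0), (nat_lit 3504084), (nat_lit 0)]) (PF.cons (PF.leaf (nat_lit 5429570) (nat_lit 470155) (nat_lit 43090068) (nat_lit 18143694) [(nat_lit 470155), (nat_lit 0), (nat_lit 3524271), (nat_lit 0)]) (PF.cons (PF.leaf (nat_lit 5740625) (nat_lit 482301) (nat_lit 42633717) (nat_lit 18038883) [(nat_lit 482301), (nat_lit 0), (nat_lit 3542405), (nat_lit 0)]) (PF.cons (PF.leaf (nat_lit 6060599) (nat_lit 493287) (nat_lit 42167875) (nat_lit 17929499) [(nat_lit 493287),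 (nat_lit 0), (nat_lit 3558423), (nat_lit 0)]) (PF.cons (PF.leaf (nat_lit 6388112) (nat_lit 503238) (nat_lit 41694652) (nat_lit 17815940) [(nat_lit 503238), (nat_lit 0), (nat_lit 3572311), (nat_lit 0)]) (PF.cons
 PF.nil PF.nil)))))))))) (PF.cons (PF.cons (PF.leaf (nat_lit 4722313) (nat_lit 1501627) (nat_lit 43824607) (nat_lit 18303748) [(nat_lit 0), (nat_lit 1501627), (nat_lit 3478829), (nat_lit 0)]) (PF.cons (PF.leaf (nat_lit 4987965) (nat_lit 445907) (nat_lit 43423997) (nat_lit 18215207) [(nat_lit 445907), (nat_lit 1524369), (nat_lit 3499331), (nat_lit 0)]) (PF.cons (PF.leaf (nat_lit 5269803) (nat_lit 460553) (nat_lit 43003353) (nat_lit 18120269) [(nat_lit 460553), (nat_lit 1545630), (nat_lit 3518452), (nat_lit 0)]) (PF.cons (PF.leaf (nat_lit 5564653) (nat_lit 473641) (nat_lit 42566996) (nat_lit 18019685) [(nat_lit 473641), (nat_lit 1565301), (nat_lit 3535906), (nat_lit 0)]) (PF.cons (PF.leaf (nat_lit 5870441) (nat_lit 485403) (nat_lit 42118269) (nat_lit 17914048)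 [(nat_lit 485403), (nat_lit 1583354), (nat_lit 3551527), (nat_lit 0)]) (PF.cons (PF.leaf (nat_lit 6185415) (nat_lit 496009) (nat_lit 41659868) (nat_lit 17803861) [(nat_lit 496009), (nat_lit 1599807), (nat_lit 3565227), (nat_lit 0)]) (PF.cons (PF.leaf (nat_lit 6508133) (nat_lit 505590) (nat_lit 41194032) (nat_lit 17689563) [(nat_lit 505590), (nat_lit 1614701), (nat_lit 3576974), (nat_lit 0)]) (PF.cons PF.nil (PF.cons PF.nil
 PF.nil))))))))) (PF.cons (PF.cons (PF.leaf (nat_lit 5412335) (nat_lit 1557728) (nat_lit 42469573) (nat_lit 17993323) [(nat_lit 0), (nat_lit 1557728), (nat_lit 3530458), (nat_lit 0)]) (PF.cons (PF.leaf (nat_lit 5700045) (nat_lit 476403) (nat_lit 42043287) (nat_lit 17892579) [(nat_lit 476403), (nat_lit 1575590), (nat_lit 3545361), (nat_lit 0)]) (PF.cons (PF.leaf (nat_lit 5999829) (nat_lit 487888) (nat_lit 41603699) (nat_lit 17786622) [(nat_lit 487888), (nat_lit 1592035), (nat_lit 3558642), (nat_lit 0)]) (PF.cons (PF.leaf (nat_lit 6309309) (nat_lit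 498195) (nat_lit 41153898) (nat_lit 17676054) [(nat_lit 498195), (nat_lit 1607042), (nat_lit 3570188), (nat_lit 0)]) (PF.cons (PF.leaf (nat_lit 6626873) (nat_lit 507469) (nat_lit 40696353) (nat_lit 17561379) [(nat_lit 507469), (nat_lit 1620626), (nat_lit 3579946), (nat_lit 0)]) (PF.cons (PF.leaf (nat_lit 6951174) (nat_lit 515825) (nat_lit 40233096) (nat_lit 17443038) [(nat_lit 515825), (nat_lit 1632822), (nat_lit 3587906), (nat_lit 0)]) (PF.cons PF.nil PF.nil))))))) (PF.cons (PF.cons (PF.leaf (nat_lit 6129947) (nat_lit 1599616) (nat_lit 41089525) (nat_lit 17656552) [(nat_lit 0), (nat_lit 1599616), (nat_lit 3563887), (nat_lit 0)]) (PF.cons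
 (PF.leaf (nat_lit 6432913) (nat_lit 499842) (nat_lit 40649665) (nat_lit 17546082) [(nat_lit 499842), (nat_lit 1613264), (nat_lit 3573429), (nat_lit 0)]) (PF.cons (PF.leaf (nat_lit 6744852) (nat_lit 508881) (nat_lit 40201420) (nat_lit 17431427) [(nat_lit 508881), (nat_lit 1625620), (nat_lit 3581340), (nat_lit 0)]) (PF.cons (PF.leaf (nat_lit 7063890) (nat_lit 516989) (nat_lit 39747061) (nat_lit 17313091) [(nat_lit 516989), (nat_lit 1636699), (nat_lit 3587593), (nat_lit 0)]) (PF.cons PF.nil PF.nil))))) (PF.cons (PF.cons (PF.leaf (nat_lit 6862930) (nat_lit 1629748) (nat_lit 39708874) (nat_lit 17299692) [(nat_lit 0), (nat_lit 1629748), (nat_lit 3581250), (nat_lit 0)]) (PF.cons (PF.leaf (nat_lit 7175928) (nat_lit 517741) (nat_lit 39264299) (nat_lit 17181733) [(nat_lit 517741), (nat_lit 1639779), (nat_lit 3585922), (nat_lit 0)]) (PF.cons (PF.leaf (nat_lit 7495482) (nat_lit 524819) (nat_lit 38814986) (nat_lit 17060494) [(nat_lit 524819), (nat_lit 1648657), (nat_lit 3589063),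 (nat_lit 0)]) (PF.cons PF.nil PF.nil)))) (PF.cons (PF.cons (PF.leaf (nat_lit 7601948) (nat_lit 1650094) (nat_lit 38345192) (nat_lit 16928386) [(nat_lit 0), (nat_lit 1650094), (nat_lit 3584760), (nat_lit 0)]) (PF.cons
 PF.nil PF.nil)) (PF.cons PF.nil (PF.cons PF.nil PF.nil)))))))) (PF.cons (PF.cons (PF.cons (PF.leaf (nat_lit 5243282) (nat_lit 3508341) (nat_lit 42181782) (nat_lit 17910346) [(nat_lit 0), (nat_lit 0), (nat_lit 3508341), (nat_lit 0)]) (PF.cons (PF.leaf (nat_lit 5511315) (nat_lit 459263) (nat_lit 41787282) (nat_lit 17816250) [(nat_lit 459263), (nat_lit 0), (nat_lit 3523008), (nat_lit 0)]) (PF.cons (PF.leaf (nat_lit 5794380) (nat_lit 472592) (nat_lit 41374851) (nat_lit 17716076) [(nat_lit 472592), (nat_lit 0), (nat_lit 3536349), (nat_lit 0)]) (PF.cons (PF.leaf (nat_lit 6089357) (nat_lit 484380) (nat_lit 40948694) (nat_lit 17610660) [(nat_lit 484380), (nat_lit 0), (nat_lit 3548158), (nat_lit 0)]) (PF.cons (PF.leaf (nat_lit 6394172) (nat_lit 494877) (nat_lit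 40512008) (nat_lit 17500651) [(nat_lit 494877), (nat_lit 0), (nat_lit 3558321), (nat_lit 0)]) (PF.cons (PF.leaf (nat_lit 6707166) (nat_lit 504262) (nat_lit 40067337) (nat_lit 17386586) [(nat_lit 504262), (nat_lit 0), (nat_lit 3566787), (nat_lit 0)]) (PF.cons (PF.leaf (nat_lit 7026964) (nat_lit 512673) (nat_lit 39616757) (nat_lit 17268924) [(nat_lit 512673), (nat_lit 0), (nat_lit 3573544), (nat_lit 0)]) (PF.cons PF.nil (PF.cons
 PF.nil PF.nil))))))))) (PF.cons (PF.cons (PF.leaf (nat_lit 5929364) (nat_lit 1579352) (nat_lit 40860054) (nat_lit 17585067) [(nat_lit 0), (nat_lit 1579352), (nat_lit 3542169), (nat_lit 0)]) (PF.cons (PF.leaf (nat_lit 6216875) (nat_lit 485914) (nat_lit 40444923) (nat_lit 17480175) [(nat_lit 485914), (nat_lit 1593914), (nat_lit 3551942), (nat_lit 0)]) (PF.cons (PF.leaf (nat_lit 6515448) (nat_lit 496238) (nat_lit 40018199) (nat_lit 17370487) [(nat_lit 496238), (nat_lit 1607174), (nat_lit 3560236), (nat_lit 0)]) (PF.cons (PF.leaf (nat_lit 6822773)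 (nat_lit 505418) (nat_lit 39582823) (nat_lit 17256645) [(nat_lit 505418), (nat_lit 1619130), (nat_lit 3566979), (nat_lit 0)]) (PF.cons (PF.leaf (nat_lit 7137297) (nat_lit 513607) (nat_lit 39141111) (nat_lit 17139176) [(nat_lit 513607), (nat_lit 1629807), (nat_lit 3572144), (nat_lit 0)]) (PF.cons PF.nil (PF.cons PF.nil PF.nil))))))) (PF.cons (PF.cons (PF.leaf (nat_lit 6637661) (nat_lit 1611835) (nat_lit 39525616) (nat_lit 17238250) [(nat_lit 0), (nat_lit 1611835), (nat_lit 3560637), (nat_lit 0)]) (PF.cons (PF.leaf (nat_lit 6938313) (nat_lit 506103) (nat_lit 39100701) (nat_lit 17125075) [(nat_lit 506103), (nat_lit 1622683), (nat_lit 3565782),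
 (nat_lit 0)]) (PF.cons (PF.leaf (nat_lit 7247103) (nat_lit 514134) (nat_lit 38668717) (nat_lit 17008159) [(nat_lit 514134), (nat_lit 1632359), (nat_lit 3569474), (nat_lit 0)]) (PF.cons (PF.leaf (nat_lit 7562222) (nat_lit 521274) (nat_lit 38231786) (nat_lit 16888018) [(nat_lit 521274), (nat_lit 1640886), (nat_lit 3571705), (nat_lit 0)]) (PF.cons PF.nil PF.nil))))) (PF.cons (PF.cons (PF.leaf (nat_lit 7357258) (nat_lit 1634204) (nat_lit 38199160) (nat_lit 16875833) [(nat_lit 0), (nat_lit 1634204), (nat_lit 3565602), (nat_lit 0)]) (PF.cons (PF.leaf (nat_lit 7666290) (nat_lit 521265) (nat_lit 37772228) (nat_lit 16756533) [(nat_lit 521265), (nat_lit 1641876), (nat_lit 3566577), (nat_lit 0)]) (PF.cons PF.nil (PF.cons PF.nil PF.nil)))) (PF.cons (PF.cons (PF.leaf (nat_lit 8079934) (nat_lit 1648162) (nat_lit 36895260) (nat_lit 16502960) [(nat_lit 0), (nat_lit 1648162), (nat_lit 3558970), (nat_lit 0)]) (PF.cons PF.nil PF.nil)) (PF.cons PF.nil PF.nil)))))) (PF.cons (PF.cons (PF.cons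 (PF.leaf (nat_lit 6428812) (nat_lit 3539514) (nat_lit 39319588) (nat_lit 17170679) [(nat_lit 0), (nat_lit 0), (nat_lit 3539514), (nat_lit 0)]) (PF.cons (PF.leaf (nat_lit 6714981) (nat_lit 492699) (nat_lit
 38917696) (nat_lit 17063146) [(nat_lit 492699), (nat_lit 0), (nat_lit 3545089), (nat_lit 0)]) (PF.cons (PF.leaf (nat_lit 7011359) (nat_lit 502009) (nat_lit 38505644) (nat_lit 16951216) [(nat_lit 502009), (nat_lit 0), (nat_lit 3549311), (nat_lit 0)]) (PF.cons (PF.leaf (nat_lit 7315670) (nat_lit 510208) (nat_lit 38086216) (nat_lit 16835554) [(nat_lit 510208), (nat_lit 0), (nat_lit 3552138), (nat_lit 0)]) (PF.cons (PF.leaf (nat_lit 7626419) (nat_lit 517457) (nat_lit 37661582) (nat_lit 16716696) [(nat_lit 517457), (nat_lit 0), (nat_lit 3553567), (nat_lit 0)]) PF.nil))))) (PF.cons (PF.cons (PF.leaf (nat_lit 7126015) (nat_lit 1617238) (nat_lit 38035551) (nat_lit 16818377) [(nat_lit 0), (nat_lit 1617238), (nat_lit 3545881), (nat_lit 0)]) (PF.cons (PF.leaf (nat_lit 7423590)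 (nat_lit 510110) (nat_lit 37626805) (nat_lit 16703836) [(nat_lit 510110), (nat_lit 1625741), (nat_lit 3547439), (nat_lit 0)]) (PF.cons (PF.leaf (nat_lit 7728571) (nat_lit 517266) (nat_lit 37212059) (nat_lit 16585955) [(nat_lit 517266), (nat_lit 1633175), (nat_lit 3547696), (nat_lit 0)]) (PF.cons PF.nil PF.nil)))) (PF.cons (PF.cons (PF.leaf (nat_lit 7831269) (nat_lit 1633182) (nat_lit 36765618) (nat_lit 16454283)
 [(nat_lit 0), (nat_lit 1633182), (nat_lit 3540848), (nat_lit 0)]) (PF.cons (PF.leaf (nat_lit 8135844) (nat_lit 522940) (nat_lit 36356857) (nat_lit 16334786) [(nat_lit 522940), (nat_lit 1638883), (nat_lit 3538820), (nat_lit 0)]) PF.nil)) (PF.cons PF.nil (PF.cons PF.nil PF.nil))))) (PF.cons (PF.cons (PF.cons (PF.leaf (nat_lit 7595478) (nat_lit 3522099) (nat_lit 36619580) (nat_lit 16400833) [(nat_lit 0), (nat_lit 0), (nat_lit 3522099), (nat_lit 0)]) (PF.cons (PF.leaf (nat_lit 7889369) (nat_lit 512266) (nat_lit 36227617) (nat_lit 16286008) [(nat_lit 512266), (nat_lit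 0), (nat_lit 3520730), (nat_lit 0)]) (PF.cons (PF.leaf (nat_lit 8190071) (nat_lit 518659) (nat_lit 35830527) (nat_lit 16168201) [(nat_lit 518659), (nat_lit 0), (nat_lit 3518191), (nat_lit 0)]) (PF.cons PF.nil PF.nil)))) (PF.cons (PF.cons (PF.leaf (nat_lit 8285799) (nat_lit 1627766) (nat_lit 35406861) (nat_lit 16038141) [(nat_lit 0), (nat_lit 1627766), (nat_lit 3509010), (nat_lit 0)]) (PF.cons (PF.leaf (nat_lit 8585583) (nat_lit 523103) (nat_lit 35016350) (nat_lit 15919349) [(nat_lit 523103), (nat_lit 1631815), (nat_lit 3504548), (nat_lit 0)]) PF.nil)) (PF.cons PF.nil PF.nil))) (PF.cons (PF.cons (PF.cons (PF.leaf (nat_lit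
 8721783) (nat_lit 3471710) (nat_lit 34120531) (nat_lit 15629727) [(nat_lit 0), (nat_lit 0), (nat_lit 3471710), (nat_lit 0)]) (PF.cons PF.nil PF.nil)) (PF.cons PF.nil PF.nil)) (PF.cons PF.nil (PF.cons PF.nil PF.nil)))))))) (PF.cons (PF.cons (PF.cons (PF.cons (PF.leaf (nat_lit 4897720) (nat_lit 8444104) (nat_lit 41104253) (nat_lit 17560455) [(nat_lit 0), (nat_lit 0), (nat_lit 0), (nat_lit 8444104)]) (PF.cons (PF.leaf (nat_lit 5129030) (nat_lit 413520) (nat_lit 40779901) (nat_lit 17481754) [(nat_lit 413520), (nat_lit 0), (nat_lit 0), (nat_lit 8433637)]) (PF.cons (PF.leaf (nat_lit 5380639) (nat_lit 431125) (nat_lit 40430180) (nat_lit 17395590) [(nat_lit 431125), (nat_lit 0), (nat_lit 0), (nat_lit 8420790)]) (PF.cons (PF.leaf (nat_lit 5648064) (nat_lit 446403) (nat_lit 40060908) (nat_lit 17303157) [(nat_lit 446403), (nat_lit 0), (nat_lit 0), (nat_lit 8405536)]) (PF.cons (PF.leaf (nat_lit 5928466) (nat_lit 459822) (nat_lit 39676321) (nat_lit 17205327) [(nat_lit 459822),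 (nat_lit 0), (nat_lit 0), (nat_lit 8387873)]) (PF.cons (PF.leaf (nat_lit 6219661) (nat_lit 471704) (nat_lit 39279685) (nat_lit 17102780) [(nat_lit 471704), (nat_lit 0), (nat_lit 0), (nat_lit 8367822)]) (PF.cons (PF.leaf
 (nat_lit 6519879) (nat_lit 482282) (nat_lit 38873616) (nat_lit 16996078) [(nat_lit 482282), (nat_lit 0), (nat_lit 0), (nat_lit 8345424)]) (PF.cons (PF.leaf (nat_lit 6827675) (nat_lit 491729) (nat_lit 38460266) (nat_lit 16885697) [(nat_lit 491729), (nat_lit 0), (nat_lit 0), (nat_lit 8320742)]) (PF.cons (PF.leaf (nat_lit 7141786) (nat_lit 500183) (nat_lit 38041439) (nat_lit 16772057) [(nat_lit 500183), (nat_lit 0), (nat_lit 0), (nat_lit 8293848)]) (PF.cons PF.nil PF.nil)))))))))) (PF.cons (PF.cons (PF.leaf (nat_lit 5522594) (nat_lit 1503858) (nat_lit 39940809) (nat_lit 17269529) [(nat_lit 0), (nat_lit 1503858), (nat_lit 0), (nat_lit 8394616)]) (PF.cons (PF.leaf (nat_lit 5781444) (nat_lit 448785) (nat_lit 39582157) (nat_lit 17177898) [(nat_lit 448785),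 (nat_lit 1522170), (nat_lit 0), (nat_lit 8377800)]) (PF.cons (PF.leaf (nat_lit 6055009) (nat_lit 461988) (nat_lit 39206737) (nat_lit 17080522) [(nat_lit 461988), (nat_lit 1538998), (nat_lit 0), (nat_lit 8358576)]) (PF.cons (PF.leaf (nat_lit 6340166) (nat_lit 473611) (nat_lit 38818425) (nat_lit 16978247) [(nat_lit 473611), (nat_lit 1554302), (nat_lit 0), (nat_lit 8337001)]) (PF.cons (PF.leaf (nat_lit 6634918) (nat_lit 483913) (nat_lit
 38420181) (nat_lit 16871731) [(nat_lit 483913), (nat_lit 1568106), (nat_lit 0), (nat_lit 8313138)]) (PF.cons (PF.leaf (nat_lit 6937613) (nat_lit 493083) (nat_lit 38014358) (nat_lit 16761512) [(nat_lit 493083), (nat_lit 1580461), (nat_lit 0), (nat_lit 8287062)]) (PF.cons (PF.leaf (nat_lit 7246908) (nat_lit 501266) (nat_lit 37602880) (nat_lit 16648046) [(nat_lit 501266), (nat_lit 1591431), (nat_lit 0), (nat_lit 8258857)]) (PF.cons PF.nil (PF.cons PF.nil PF.nil))))))))) (PF.cons (PF.cons (PF.leaf (nat_lit 6183430) (nat_lit 1546340) (nat_lit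 38735938) (nat_lit 16953173) [(nat_lit 0), (nat_lit 1546340), (nat_lit 0), (nat_lit 8327019)]) (PF.cons (PF.leaf (nat_lit 6461236) (nat_lit 474906) (nat_lit 38357592) (nat_lit 16851720) [(nat_lit 474906), (nat_lit 1560212), (nat_lit 0), (nat_lit 8304167)]) (PF.cons (PF.leaf (nat_lit 6749878) (nat_lit 485032) (nat_lit 37968359) (nat_lit 16745819) [(nat_lit 485032), (nat_lit 1572758), (nat_lit 0), (nat_lit 8279052)]) (PF.cons (PF.leaf (nat_lit 7047033) (nat_lit 494000) (nat_lit 37570946) (nat_lit 16636108) [(nat_lit 494000), (nat_lit 1583993), (nat_lit 0), (nat_lit 8251771)]) (PF.cons (PF.leaf (nat_lit 7351192) (nat_lit 501969) (nat_lit 37167490)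
 (nat_lit 16523105) [(nat_lit 501969), (nat_lit 1593957), (nat_lit 0), (nat_lit 8222424)]) (PF.cons (PF.leaf (nat_lit 7661100) (nat_lit 509062) (nat_lit 36759727) (nat_lit 16407250) [(nat_lit 509062), (nat_lit 1602705), (nat_lit 0), (nat_lit 8191110)]) (PF.cons PF.nil PF.nil))))))) (PF.cons (PF.cons (PF.leaf (nat_lit 6865863) (nat_lit 1576586) (nat_lit 37517611) (nat_lit 16618240) [(nat_lit 0), (nat_lit 1576586), (nat_lit 0), (nat_lit 8243199)]) (PF.cons (PF.leaf (nat_lit 7156500) (nat_lit 494469) (nat_lit 37129665) (nat_lit 16509439) [(nat_lit 494469), (nat_lit 1586773), (nat_lit 0), (nat_lit 8214917)]) (PF.cons (PF.leaf (nat_lit 7455091) (nat_lit 502289) (nat_lit 36735009) (nat_lit 16397222) [(nat_lit 502289), (nat_lit 1595799), (nat_lit 0), (nat_lit 8184604)]) (PF.cons (PF.leaf (nat_lit 7759855) (nat_lit 509218) (nat_lit 36335593) (nat_lit 16282091) [(nat_lit 509218), (nat_lit 1603698), (nat_lit 0), (nat_lit 8152376)]) (PF.cons PF.nil PF.nil))))) (PF.cons (PF.cons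 (PF.leaf (nat_lit 7559480) (nat_lit 1597001) (nat_lit 36305037) (nat_lit 16270337) [(nat_lit 0), (nat_lit 1597001), (nat_lit 0), (nat_lit 8145433)]) (PF.cons (PF.leaf (nat_lit 7858346) (nat_lit 509037) (nat_lit
 35914658) (nat_lit 16156230) [(nat_lit 509037), (nat_lit 1604107), (nat_lit 0), (nat_lit 8112456)]) (PF.cons (PF.leaf (nat_lit 8162978) (nat_lit 515057) (nat_lit 35520596) (nat_lit 16039553) [(nat_lit 515057), (nat_lit 1610207), (nat_lit 0), (nat_lit 8077716)]) (PF.cons PF.nil PF.nil)))) (PF.cons (PF.cons (PF.leaf (nat_lit 8256506) (nat_lit 1609397) (nat_lit 35111600) (nat_lit 15914148) [(nat_lit 0), (nat_lit 1609397), (nat_lit 0), (nat_lit 8036077)]) (PF.cons PF.nil PF.nil)) (PF.cons PF.nil (PF.cons PF.nil PF.nil)))))))) (PF.cons (PF.cons (PF.cons (PF.leaf (nat_lit 6005302) (nat_lit 3444144) (nat_lit 38495740) (nat_lit 16876211) [(nat_lit 0), (nat_lit 0), (nat_lit 3444144), (nat_lit 8292716)]) (PF.cons (PF.leaf (nat_lit 6264982) (nat_lit 458033) (nat_lit 38145205)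 (nat_lit 16781679) [(nat_lit 458033), (nat_lit 0), (nat_lit 3452498), (nat_lit 8271395)]) (PF.cons (PF.leaf (nat_lit 6538418) (nat_lit 470079) (nat_lit 37779583) (nat_lit 16681739) [(nat_lit 470079), (nat_lit 0), (nat_lit 3459603), (nat_lit 8247727)]) (PF.cons (PF.leaf (nat_lit 6822514) (nat_lit 480583) (nat_lit 37402601) (nat_lit 16577277) [(nat_lit 480583), (nat_lit 0), (nat_lit 3465345), (nat_lit 8221838)]) (PF.cons
 (PF.leaf (nat_lit 7115317) (nat_lit 489815) (nat_lit 37017067) (nat_lit 16468971) [(nat_lit 489815), (nat_lit 0), (nat_lit 3469674), (nat_lit 8193838)]) (PF.cons (PF.leaf (nat_lit 7415265) (nat_lit 497968) (nat_lit 36625188) (nat_lit 16357366) [(nat_lit 497968), (nat_lit 0), (nat_lit 3472578), (nat_lit 8163836)]) (PF.cons (PF.leaf (nat_lit 7721076) (nat_lit 505188) (nat_lit 36228744) (nat_lit 16242922) [(nat_lit 505188), (nat_lit 0), (nat_lit 3474075), (nat_lit 8131938)]) (PF.cons PF.nil (PF.cons PF.nil PF.nil))))))))) (PF.cons (PF.cons (PF.leaf (nat_lit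 6659940) (nat_lit 1556929) (nat_lit 37327823) (nat_lit 16553415) [(nat_lit 0), (nat_lit 1556929), (nat_lit 3458905), (nat_lit 8211738)]) (PF.cons (PF.leaf (nat_lit 6936542) (nat_lit 480946) (nat_lit 36961265) (nat_lit 16450231) [(nat_lit 480946), (nat_lit 1568195), (nat_lit 3463187), (nat_lit 8184986)]) (PF.cons (PF.leaf (nat_lit 7223130) (nat_lit 490089) (nat_lit 36585117) (nat_lit 16342963) [(nat_lit 490089), (nat_lit 1578249), (nat_lit 3466180), (nat_lit 8156123)]) (PF.cons (PF.leaf (nat_lit 7517479) (nat_lit 498116) (nat_lit 36201943) (nat_lit 16232260) [(nat_lit 498116), (nat_lit 1587116), (nat_lit 3467860), (nat_lit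
 8125282)]) (PF.cons (PF.leaf (nat_lit 7818134) (nat_lit 505191) (nat_lit 35813741) (nat_lit 16118644) [(nat_lit 505191), (nat_lit 1594843), (nat_lit 3468231), (nat_lit 8092586)]) (PF.cons PF.nil (PF.cons PF.nil PF.nil))))))) (PF.cons (PF.cons (PF.leaf (nat_lit 7332173) (nat_lit 1579958) (nat_lit 36154673) (nat_lit 16215665) [(nat_lit 0), (nat_lit 1579958), (nat_lit 3461597), (nat_lit 8116959)]) (PF.cons (PF.leaf (nat_lit 7619959) (nat_lit 497870) (nat_lit 35781140) (nat_lit 16106234) [(nat_lit 497870), (nat_lit 1587973), (nat_lit 3462153), (nat_lit 8085466)]) (PF.cons (PF.leaf (nat_lit 7915033) (nat_lit 504859) (nat_lit 35401857) (nat_lit 15993740) [(nat_lit 504859), (nat_lit 1594936), (nat_lit 3461491), (nat_lit 8052132)]) (PF.cons (PF.leaf (nat_lit 8215669) (nat_lit 510997) (nat_lit 35018647) (nat_lit 15878681) [(nat_lit 510997), (nat_lit 1600886), (nat_lit 3459628), (nat_lit 8017090)]) (PF.cons PF.nil PF.nil))))) (PF.cons (PF.cons (PF.leaf (nat_lit 8012622) (nat_lit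 1594506) (nat_lit 34992669) (nat_lit 15868134) [(nat_lit 0), (nat_lit 1594506), (nat_lit 3453898), (nat_lit 8010590)]) (PF.cons (PF.leaf (nat_lit 8307383) (nat_lit 510259) (nat_lit 34618478) (nat_lit 15754383)
 [(nat_lit 510259), (nat_lit 1599811), (nat_lit 3451167), (nat_lit 7975091)]) (PF.cons PF.nil (PF.cons PF.nil PF.nil)))) (PF.cons (PF.cons (PF.leaf (nat_lit 8694372) (nat_lit 1602137) (nat_lit 33853016) (nat_lit 15515034) [(nat_lit 0), (nat_lit 1602137), (nat_lit 3437412), (nat_lit 7894800)]) (PF.cons PF.nil PF.nil)) (PF.cons PF.nil PF.nil)))))) (PF.cons (PF.cons (PF.cons (PF.leaf (nat_lit 7120375) (nat_lit 3441343) (nat_lit 35984317) (nat_lit 16155106) [(nat_lit 0), (nat_lit 0), (nat_lit 3441343), (nat_lit 8086701)]) (PF.cons (PF.leaf (nat_lit 7394986) (nat_lit 484949) (nat_lit 35630614) (nat_lit 16051192) [(nat_lit 484949), (nat_lit 0), (nat_lit 3442579), (nat_lit 8056896)]) (PF.cons (PF.leaf (nat_lit 7678879) (nat_lit 493232) (nat_lit 35268417) (nat_lit 15943529)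 [(nat_lit 493232), (nat_lit 0), (nat_lit 3442636), (nat_lit 8025126)]) (PF.cons (PF.leaf (nat_lit 7969867) (nat_lit 500441) (nat_lit 34900144) (nat_lit 15832771) [(nat_lit 500441), (nat_lit 0), (nat_lit 3441510), (nat_lit 7991553)]) (PF.cons (PF.leaf (nat_lit 8266542) (nat_lit 506739) (nat_lit 34527664) (nat_lit 15719435) [(nat_lit 506739), (nat_lit 0), (nat_lit 3439219), (nat_lit 7956316)]) PF.nil))))) (PF.cons
 (PF.cons (PF.leaf (nat_lit 7781336) (nat_lit 1578500) (nat_lit 34858352) (nat_lit 15817458) [(nat_lit 0), (nat_lit 1578500), (nat_lit 3435461), (nat_lit 7983577)]) (PF.cons (PF.leaf (nat_lit 8065767) (nat_lit 499612) (nat_lit 34499712) (nat_lit 15708253) [(nat_lit 499612), (nat_lit 1584693), (nat_lit 3433451), (nat_lit 7949638)]) (PF.cons (PF.leaf (nat_lit 8356904) (nat_lit 505876) (nat_lit 34136111) (nat_lit 15596297) [(nat_lit 505876), (nat_lit 1589926), (nat_lit 3430345), (nat_lit 7914032)]) (PF.cons PF.nil PF.nil)))) (PF.cons (PF.cons (PF.leaf (nat_lit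 8448130) (nat_lit 1588182) (nat_lit 33747324) (nat_lit 15472694) [(nat_lit 0), (nat_lit 1588182), (nat_lit 3420776), (nat_lit 7870876)]) (PF.cons (PF.leaf (nat_lit 8738486) (nat_lit 510138) (nat_lit 33389345) (nat_lit 15360003) [(nat_lit 510138), (nat_lit 1591975), (nat_lit 3415924), (nat_lit 7833525)]) PF.nil)) (PF.cons PF.nil (PF.cons PF.nil PF.nil))))) (PF.cons (PF.cons (PF.cons (PF.leaf (nat_lit 8213929) (nat_lit 3403421) (nat_lit 33627296) (nat_lit 15425858) [(nat_lit 0), (nat_lit 0), (nat_lit 3403421), (nat_lit 7845392)]) (PF.cons (PF.leaf (nat_lit 8494619) (nat_lit 499990) (nat_lit 33283672) (nat_lit 15317556) [(nat_lit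
 499990), (nat_lit 0), (nat_lit 3399316), (nat_lit 7809642)]) (PF.cons (PF.leaf (nat_lit 8781515) (nat_lit 505619) (nat_lit 32935739) (nat_lit 15206781) [(nat_lit 505619), (nat_lit 0), (nat_lit 3394224), (nat_lit 7772379)]) (PF.cons PF.nil PF.nil)))) (PF.cons (PF.cons (PF.leaf (nat_lit 8866798) (nat_lit 1578791) (nat_lit 32566729) (nat_lit 15085719) [(nat_lit 0), (nat_lit 1578791), (nat_lit 3383119), (nat_lit 7728215)]) (PF.cons PF.nil PF.nil)) (PF.cons PF.nil PF.nil))) (PF.cons (PF.cons (PF.cons (PF.leaf (nat_lit 9269477) (nat_lit 3342021) (nat_lit 31448156) (nat_lit 14708435) [(nat_lit 0), (nat_lit 0), (nat_lit 3342021), (nat_lit 7584133)]) (PF.cons PF.nil PF.nil)) (PF.cons PF.nil PF.nil)) (PF.cons PF.nil PF.nil)))))) (PF.cons (PF.cons (PF.cons (PF.cons (PF.leaf (nat_lit 6690229) (nat_lit 7949351) (nat_lit 35311820) (nat_lit 15898289) [(nat_lit 0), (nat_lit 0), (nat_lit 0), (nat_lit 7949351)]) (PF.cons (PF.leaf (nat_lit 6941142) (nat_lit 452562) (nat_lit 35001190)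 (nat_lit 15806697) [(nat_lit 452562), (nat_lit 0), (nat_lit 0), (nat_lit 7924181)]) (PF.cons (PF.leaf (nat_lit 7204735) (nat_lit 463554) (nat_lit 34677685) (nat_lit 15710286) [(nat_lit 463554), (nat_lit 0), (nat_lit 0),
 (nat_lit 7896865)]) (PF.cons (PF.leaf (nat_lit 7478033) (nat_lit 473028) (nat_lit 34344593) (nat_lit 15609940) [(nat_lit 473028), (nat_lit 0), (nat_lit 0), (nat_lit 7867595)]) (PF.cons (PF.leaf (nat_lit 7759160) (nat_lit 481263) (nat_lit 34004373) (nat_lit 15506325) [(nat_lit 481263), (nat_lit 0), (nat_lit 0), (nat_lit 7836528)]) (PF.cons (PF.leaf (nat_lit 8046643) (nat_lit 488459) (nat_lit 33658938) (nat_lit 15399972) [(nat_lit 488459), (nat_lit 0), (nat_lit 0), (nat_lit 7803801)]) (PF.cons PF.nil PF.nil))))))) (PF.cons (PF.cons (PF.leaf (nat_lit 7314954) (nat_lit 1523788) (nat_lit 34281401) (nat_lit 15588191) [(nat_lit 0), (nat_lit 1523788), (nat_lit 0), (nat_lit 7857715)]) (PF.cons (PF.leaf (nat_lit 7580853) (nat_lit 472590) (nat_lit 33957846) (nat_lit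 15489511) [(nat_lit 472590), (nat_lit 1532668), (nat_lit 0), (nat_lit 7828098)]) (PF.cons (PF.leaf (nat_lit 7855895) (nat_lit 480800) (nat_lit 33626184) (nat_lit 15387305) [(nat_lit 480800), (nat_lit 1540420), (nat_lit 0), (nat_lit 7796651)]) (PF.cons (PF.leaf (nat_lit 8137932) (nat_lit 487930) (nat_lit 33288649) (nat_lit 15282202) [(nat_lit 487930), (nat_lit 1547090), (nat_lit 0), (nat_lit 7763539)]) (PF.cons (PF.leaf (nat_lit
 8425592) (nat_lit 494148) (nat_lit 32946972) (nat_lit 15174700) [(nat_lit 494148), (nat_lit 1552735), (nat_lit 0), (nat_lit 7728904)]) PF.nil))))) (PF.cons (PF.cons (PF.leaf (nat_lit 7954092) (nat_lit 1540186) (nat_lit 33249459) (nat_lit 15267465) [(nat_lit 0), (nat_lit 1540186), (nat_lit 0), (nat_lit 7755757)]) (PF.cons (PF.leaf (nat_lit 8229747) (nat_lit 487061) (nat_lit 32920599) (nat_lit 15163928) [(nat_lit 487061), (nat_lit 1546192), (nat_lit 0), (nat_lit 7722419)]) (PF.cons (PF.leaf (nat_lit 8512035) (nat_lit 493247) (nat_lit 32586912)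 (nat_lit 15057823) [(nat_lit 493247), (nat_lit 1551246), (nat_lit 0), (nat_lit 7687545)]) (PF.cons PF.nil PF.nil)))) (PF.cons (PF.cons (PF.leaf (nat_lit 8599431) (nat_lit 1549360) (nat_lit 32229238) (nat_lit 14940590) [(nat_lit 0), (nat_lit 1549360), (nat_lit 0), (nat_lit 7645451)]) (PF.cons (PF.leaf (nat_lit 8881056) (nat_lit 497411) (nat_lit 31900300) (nat_lit 14833902) [(nat_lit 497411), (nat_lit 1553017), (nat_lit 0), (nat_lit 7609073)]) PF.nil)) (PF.cons PF.nil PF.nil))))) (PF.cons (PF.cons (PF.cons (PF.leaf (nat_lit 7742087) (nat_lit 3331367) (nat_lit 33107853) (nat_lit 15213861) [(nat_lit 0), (nat_lit 0), (nat_lit 3331367), (nat_lit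
 7727865)]) (PF.cons (PF.leaf (nat_lit 8005651) (nat_lit 474713) (nat_lit 32796082) (nat_lit 15115531) [(nat_lit 474713), (nat_lit 0), (nat_lit 3329807), (nat_lit 7696339)]) (PF.cons (PF.leaf (nat_lit 8277782) (nat_lit 482183) (nat_lit 32477061) (nat_lit 15013957) [(nat_lit 482183), (nat_lit 0), (nat_lit 3327206), (nat_lit 7663109)]) (PF.cons (PF.leaf (nat_lit 8556359) (nat_lit 488617) (nat_lit 32152898) (nat_lit 14909760) [(nat_lit 488617), (nat_lit 0), (nat_lit 3323586), (nat_lit 7628357)]) (PF.cons PF.nil PF.nil))))) (PF.cons (PF.cons (PF.leaf (nat_lit 8370237) (nat_lit 1534413) (nat_lit 32118270) (nat_lit 14896258) [(nat_lit 0), (nat_lit 1534413), (nat_lit 3317862), (nat_lit 7621003)]) (PF.cons (PF.leaf (nat_lit 8642480) (nat_lit 487309) (nat_lit 31802668) (nat_lit 14793798) [(nat_lit 487309), (nat_lit 1538971), (nat_lit 3313621), (nat_lit 7586221)]) (PF.cons (PF.leaf (nat_lit 8920874) (nat_lit 492883) (nat_lit 31482842) (nat_lit 14689018) [(nat_lit 492883), (nat_lit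 1542661), (nat_lit 3308443), (nat_lit 7550040)]) (PF.cons PF.nil PF.nil)))) (PF.cons (PF.cons (PF.leaf (nat_lit 9002788) (nat_lit 1539820) (nat_lit 31142848) (nat_lit 14574403) [(nat_lit 0), (nat_lit 1539820),
 (nat_lit 3297401), (nat_lit 7507259)]) (PF.cons PF.nil PF.nil)) PF.nil))) (PF.cons (PF.cons (PF.cons (PF.leaf (nat_lit 8771811) (nat_lit 3281507) (nat_lit 31043512) (nat_lit 14533574) [(nat_lit 0), (nat_lit 0), (nat_lit 3281507), (nat_lit 7484356)]) (PF.cons (PF.leaf (nat_lit 9040368) (nat_lit 486529) (nat_lit 30741062) (nat_lit 14432616) [(nat_lit 486529), (nat_lit 0), (nat_lit 3275738), (nat_lit 7448563)]) (PF.cons PF.nil PF.nil))) (PF.cons (PF.cons (PF.leaf (nat_lit 9391483) (nat_lit 1528104) (nat_lit 30111887) (nat_lit 14217854) [(nat_lit 0), (nat_lit 1528104), (nat_lit 3257063), (nat_lit 7368419)]) PF.nil) PF.nil)) (PF.cons PF.nil (PF.cons PF.nil PF.nil))))) (PF.cons (PF.cons (PF.cons (PF.cons (PF.leaf (nat_lit 8306974) (nat_lit 7381012) (nat_lit 30614951)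 (nat_lit 14350825) [(nat_lit 0), (nat_lit 0), (nat_lit 0), (nat_lit 7381012)]) (PF.cons (PF.leaf (nat_lit 8560168) (nat_lit 463168) (nat_lit 30339199) (nat_lit 14258834) [(nat_lit 463168), (nat_lit 0), (nat_lit 0), (nat_lit 7349203)]) (PF.cons (PF.leaf (nat_lit 8821342) (nat_lit 469978) (nat_lit 30057161) (nat_lit 14163999) [(nat_lit 469978), (nat_lit 0), (nat_lit 0), (nat_lit 7315897)]) (PF.cons (PF.leaf (nat_lit 9088433)
 (nat_lit 475794) (nat_lit 29770681) (nat_lit 14066901) [(nat_lit 475794), (nat_lit 0), (nat_lit 0), (nat_lit 7281282)]) (PF.cons PF.nil PF.nil))))) (PF.cons (PF.cons (PF.leaf (nat_lit 8905481) (nat_lit 1488149) (nat_lit 29741833) (nat_lit 14055060) [(nat_lit 0), (nat_lit 1488149), (nat_lit 0), (nat_lit 7274589)]) (PF.cons (PF.leaf (nat_lit 9166465) (nat_lit 474171) (nat_lit 29462917) (nat_lit 13959744) [(nat_lit 474171), (nat_lit 1491530), (nat_lit 0), (nat_lit 7240149)]) (PF.cons PF.nil (PF.cons PF.nil PF.nil)))) (PF.cons (PF.cons (PF.leaf (nat_lit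 9507448) (nat_lit 1490603) (nat_lit 28881479) (nat_lit 13756803) [(nat_lit 0), (nat_lit 1490603), (nat_lit 0), (nat_lit 7163107)]) (PF.cons PF.nil PF.nil)) PF.nil))) (PF.cons (PF.cons (PF.cons (PF.leaf (nat_lit 9280658) (nat_lit 3160956) (nat_lit 28798670) (nat_lit 13721257) [(nat_lit 0), (nat_lit 0), (nat_lit 3160956), (nat_lit 7142642)]) (PF.cons (PF.leaf (nat_lit 9538090) (nat_lit 472639) (nat_lit 28531168) (nat_lit 13627710) [(nat_lit 472639), (nat_lit 0), (nat_lit 3154208), (nat_lit 7107695)]) PF.nil)) (PF.cons PF.nil PF.nil)) (PF.cons PF.nil PF.nil))) (PF.cons (PF.cons (PF.cons (PF.cons (PF.leaf (nat_lit 9749177) (nat_lit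
 6822510) (nat_lit 26835735) (nat_lit 12983035) [(nat_lit 0), (nat_lit 0), (nat_lit 0), (nat_lit 6822510)]) (PF.cons PF.nil PF.nil)) (PF.cons PF.nil PF.nil)) (PF.cons PF.nil PF.nil)) (PF.cons PF.nil (PF.cons PF.nil (PF.cons PF.nil PF.nil))))))))

def p15_25_3_0 : pfC (piC [(nat_lit 37722612), (nat_lit 24769386), (nat_lit 18451604), (nat_lit 12447949)] (nat_lit 4959372)) p15_25_3 (nat_lit 4) (nat_lit 0) (nat_lit 1) = true := by decide +kernel
def p15_25_3_1 : pfC (piC [(nat_lit 37722612), (nat_lit 24769386), (nat_lit 18451604), (nat_lit 12447949)] (nat_lit 4959372)) p15_25_3 (nat_lit 4) (nat_lit 1) (nat_lit 2) = true := by decide +kernel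
def p15_25_3_2 : pfC (piC [(nat_lit 37722612), (nat_lit 24769386), (nat_lit 18451604), (nat_lit 12447949)] (nat_lit 4959372)) p15_25_3 (nat_lit 4) (nat_lit 2) (nat_lit 3) = true := by decide +kernel
def p15_25_3_3 : pfC (piC [(nat_lit 37722612), (nat_lit 24769386), (nat_lit 18451604), (nat_lit 12447949)] (nat_lit 4959372)) p15_25_3 (nat_lit 4) (nat_lit 3) (nat_lit 4) = true := by decide +kernel
def p15_25_3_4 : pfC (piC [(nat_lit 37722612), (nat_lit 24769386), (nat_lit 18451604), (nat_lit 12447949)] (nat_lit 4959372)) p15_25_3 (nat_lit 4) (nat_lit 4) (nat_lit 5) = true := by decide +kernel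
def p15_25_3_5 : pfC (piC [(nat_lit 37722612), (nat_lit 24769386), (nat_lit 18451604), (nat_lit 12447949)] (nat_lit 4959372)) p15_25_3 (nat_lit 4) (nat_lit 5) (nat_lit 6) = true := by decide +kernel
def p15_25_3_6 : pfC (piC [(nat_lit 37722612), (nat_lit 24769386), (nat_lit 18451604), (nat_lit 12447949)] (nat_lit 4959372)) p15_25_3 (nat_lit 4) (nat_lit 6) (nat_lit 7) = true := by decide +kernel
def p15_25_3_7 : pfC (piC [(nat_lit 37722612), (nat_lit 24769386), (nat_lit 18451604), (nat_lit 12447949)] (nat_lit 4959372)) p15_25_3 (nat_lit 4) (nat_lit 7) (nat_lit 8) = true := by decide +kernel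
def p15_25_3_8 : pfC (piC [(nat_lit 37722612), (nat_lit 24769386), (nat_lit 18451604), (nat_lit 12447949)] (nat_lit 4959372)) p15_25_3 (nat_lit 4) (nat_lit 8) (nat_lit 9) = true := by decide +kernel
def p15_25_3_9 : pfC (piC [(nat_lit 37722612), (nat_lit 24769386), (nat_lit 18451604), (nat_lit 12447949)] (nat_lit 4959372)) p15_25_3 (nat_lit 4) (nat_lit 9) (nat_lit 10) = true := by decide +kernel
def p15_25_3_10 : pfC (piC [(nat_lit 37722612), (nat_lit 24769386), (nat_lit 18451604), (nat_lit 12447949)] (nat_lit 4959372)) p15_25_3 (nat_lit 4) (nat_lit 10) (nat_lit 11) = true := by decide +kernel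
def p15_25_3_11 : pfC (piC [(nat_lit 37722612), (nat_lit 24769386), (nat_lit 18451604), (nat_lit 12447949)] (nat_lit 4959372)) p15_25_3 (nat_lit 4) (nat_lit 11) (nat_lit 12) = true := by decide +kernel
def p15_25_3_12 : pfC (piC [(nat_lit 37722612), (nat_lit 24769386), (nat_lit 18451604), (nat_lit 12447949)] (nat_lit 4959372)) p15_25_3 (nat_lit 4) (nat_lit 12) (nat_lit 13) = true := by decide +kernel
def p15_25_3_13 : pfC (piC [(nat_lit 37722612), (nat_lit 24769386), (nat_lit 18451604), (nat_lit 12447949)] (nat_lit 4959372)) p15_25_3 (nat_lit 4) (nat_lit 13) (nat_lit 14) = true := by decide +kernel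
def p15_25_3_14 : pfC (piC [(nat_lit 37722612), (nat_lit 24769386), (nat_lit 18451604), (nat_lit 12447949)] (nat_lit 4959372)) p15_25_3 (nat_lit 4) (nat_lit 14) (nat_lit 15) = true := by decide +kernel
def p15_25_3_15 : pfC (piC [(nat_lit 37722612), (nat_lit 24769386), (nat_lit 18451604), (nat_lit 12447949)] (nat_lit 4959372)) p15_25_3 (nat_lit 4) (nat_lit 15) (nat_lit 16) = true := by decide +kernel
def p15_25_3_16 : pfC (piC [(nat_lit 37722612), (nat_lit 24769386), (nat_lit 18451604), (nat_lit 12447949)] (nat_lit 4959372)) p15_25_3 (nat_lit 4) (nat_lit 16) (nat_lit 17) = true := by decide +kernel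
def p15_25_3_17 : pfC (piC [(nat_lit 37722612), (nat_lit 24769386), (nat_lit 18451604), (nat_lit 12447949)] (nat_lit 4959372)) p15_25_3 (nat_lit 4) (nat_lit 17) (nat_lit 18) = true := by decide +kernel
def p15_25_3_18 : pfC (piC [(nat_lit 37722612), (nat_lit 24769386), (nat_lit 18451604), (nat_lit 12447949)] (nat_lit 4959372)) p15_25_3 (nat_lit 4) (nat_lit 18) (nat_lit 19) = true := by decide +kernel
def p15_25_3_19 : pfC (piC [(nat_lit 37722612), (nat_lit 24769386), (nat_lit 18451604), (nat_lit 12447949)] (nat_lit 4959372)) p15_25_3 (nat_lit 4) (nat_lit 19) (nat_lit 20) = true := by decide +kernel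
def p15_25_3_20 : pfC (piC [(nat_lit 37722612), (nat_lit 24769386), (nat_lit 18451604), (nat_lit 12447949)] (nat_lit 4959372)) p15_25_3 (nat_lit 4) (nat_lit 20) (nat_lit 21) = true := by decide +kernel
def p15_25_3_21 : pfC (piC [(nat_lit 37722612), (nat_lit 24769386), (nat_lit 18451604), (nat_lit 12447949)] (nat_lit 4959372)) p15_25_3 (nat_lit 4) (nat_lit 21) (nat_lit 22) = true := by decide +kernel
def p15_25_3_22 : pfC (piC [(nat_lit 37722612), (nat_lit 24769386), (nat_lit 18451604), (nat_lit 12447949)] (nat_lit 4959372)) p15_25_3 (nat_lit 4) (nat_lit 22) (nat_lit 23) = true := by decide +kernel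
def p15_25_3_23 : pfC (piC [(nat_lit 37722612), (nat_lit 24769386), (nat_lit 18451604), (nat_lit 12447949)] (nat_lit 4959372)) p15_25_3 (nat_lit 4) (nat_lit 23) (nat_lit 24) = true := by decide +kernel
def p15_25_3_24 : pfC (piC [(nat_lit 37722612), (nat_lit 24769386), (nat_lit 18451604), (nat_lit 12447949)] (nat_lit 4959372)) p15_25_3 (nat_lit 4) (nat_lit 24) (nat_lit 25) = true := by decide +kernel
def p15_25_3_25 : pfC (piC [(nat_lit 37722612), (nat_lit 24769386), (nat_lit 18451604), (nat_lit 12447949)] (nat_lit 4959372)) p15_25_3 (nat_lit 4) (nat_lit 25) (nat_lit 26) = true := by decide +kernel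
def p15_25_3_26 : pfC (piC [(nat_lit 37722612), (nat_lit 24769386), (nat_lit 18451604), (nat_lit 12447949)] (nat_lit 4959372)) p15_25_3 (nat_lit 4) (nat_lit 26) (nat_lit 27) = true := by decide +kernel
def p15_25_3_27 : pfC (piC [(nat_lit 37722612), (nat_lit 24769386), (nat_lit 18451604), (nat_lit 12447949)] (nat_lit 4959372)) p15_25_3 (nat_lit 4) (nat_lit 27) (nat_lit 28) = true := by decide +kernel
def p15_25_3_28 : pfC (piC [(nat_lit 37722612), (nat_lit 24769386), (nat_lit 18451604), (nat_lit 12447949)] (nat_lit 4959372)) p15_25_3 (nat_lit 4) (nat_lit 28) (nat_lit 29) = true := by decide +kernel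
def p15_25_3_29 : pfC (piC [(nat_lit 37722612), (nat_lit 24769386), (nat_lit 18451604), (nat_lit 12447949)] (nat_lit 4959372)) p15_25_3 (nat_lit 4) (nat_lit 29) (nat_lit 30) = true := by decide +kernel
def p15_25_3_30 : pfC (piC [(nat_lit 37722612), (nat_lit 24769386), (nat_lit 18451604), (nat_lit 12447949)] (nat_lit 4959372)) p15_25_3 (nat_lit 4) (nat_lit 30) (nat_lit 31) = true := by decide +kernel
def p15_25_3_31 : pfC (piC [(nat_lit 37722612), (nat_lit 24769386), (nat_lit 18451604), (nat_lit 12447949)] (nat_lit 4959372)) p15_25_3 (nat_lit 4) (nat_lit 31) (nat_lit 32) = true := by decide +kernel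
def p15_25_3_32 : pfC (piC [(nat_lit 37722612), (nat_lit 24769386), (nat_lit 18451604), (nat_lit 12447949)] (nat_lit 4959372)) p15_25_3 (nat_lit 4) (nat_lit 32) (nat_lit 33) = true := by decide +kernel
def p15_25_3_33 : pfC (piC [(nat_lit 37722612), (nat_lit 24769386), (nat_lit 18451604), (nat_lit 12447949)] (nat_lit 4959372)) p15_25_3 (nat_lit 4) (nat_lit 33) (nat_lit 34) = true := by decide +kernel
def p15_25_3_34 : pfC (piC [(nat_lit 37722612), (nat_lit 24769386), (nat_lit 18451604), (nat_lit 12447949)] (nat_lit 4959372)) p15_25_3 (nat_lit 4) (nat_lit 34) (nat_lit 35) = true := by decide +kernel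
def p15_25_3_35 : pfC (piC [(nat_lit 37722612), (nat_lit 24769386), (nat_lit 18451604), (nat_lit 12447949)] (nat_lit 4959372)) p15_25_3 (nat_lit 4) (nat_lit 35) (nat_lit 36) = true := by decide +kernel
def p15_25_3_36 : pfC (piC [(nat_lit 37722612), (nat_lit 24769386), (nat_lit 18451604), (nat_lit 12447949)] (nat_lit 4959372)) p15_25_3 (nat_lit 4) (nat_lit 36) (nat_lit 37) = true := by decide +kernel
def p15_25_3_37 : pfC (piC [(nat_lit 37722612), (nat_lit 24769386), (nat_lit 18451604), (nat_lit 12447949)] (nat_lit 4959372)) p15_25_3 (nat_lit 4) (nat_lit 37) (nat_lit 38) = true := by decide +kernel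
def p15_25_3_38 : pfC (piC [(nat_lit 37722612), (nat_lit 24769386), (nat_lit 18451604), (nat_lit 12447949)] (nat_lit 4959372)) p15_25_3 (nat_lit 4) (nat_lit 38) (nat_lit 39) = true := by decide +kernel
def p15_25_3_39 : pfC (piC [(nat_lit 37722612), (nat_lit 24769386), (nat_lit 18451604), (nat_lit 12447949)] (nat_lit 4959372)) p15_25_3 (nat_lit 4) (nat_lit 39) (nat_lit 40) = true := by decide +kernel
def p15_25_3_40 : pfC (piC [(nat_lit 37722612), (nat_lit 24769386), (nat_lit 18451604), (nat_lit 12447949)] (nat_lit 4959372)) p15_25_3 (nat_lit 4) (nat_lit 40) (nat_lit 41) = true := by decide +kernel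
def p15_25_3_41 : pfC (piC [(nat_lit 37722612), (nat_lit 24769386), (nat_lit 18451604), (nat_lit 12447949)] (nat_lit 4959372)) p15_25_3 (nat_lit 4) (nat_lit 41) (nat_lit 42) = true := by decide +kernel
def p15_25_3_42 : pfC (piC [(nat_lit 37722612), (nat_lit 24769386), (nat_lit 18451604), (nat_lit 12447949)] (nat_lit 4959372)) p15_25_3 (nat_lit 4) (nat_lit 42) (nat_lit 43) = true := by decide +kernel
def p15_25_3_43 : pfC (piC [(nat_lit 37722612), (nat_lit 24769386), (nat_lit 18451604), (nat_lit 12447949)] (nat_lit 4959372)) p15_25_3 (nat_lit 4) (nat_lit 43) (nat_lit 44) = true := by decide +kernel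
def p15_25_3_44 : pfC (piC [(nat_lit 37722612), (nat_lit 24769386), (nat_lit 18451604), (nat_lit 12447949)] (nat_lit 4959372)) p15_25_3 (nat_lit 4) (nat_lit 44) (nat_lit 45) = true := by decide +kernel
def p15_25_3_45 : pfC (piC [(nat_lit 37722612), (nat_lit 24769386), (nat_lit 18451604), (nat_lit 12447949)] (nat_lit 4959372)) p15_25_3 (nat_lit 4) (nat_lit 45) (nat_lit 46) = true := by decide +kernel
def p15_25_3_46 : pfC (piC [(nat_lit 37722612), (nat_lit 24769386), (nat_lit 18451604), (nat_lit 12447949)] (nat_lit 4959372)) p15_25_3 (nat_lit 4) (nat_lit 46) (nat_lit 47) = true := by decide +kernel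
def p15_25_3_47 : pfC (piC [(nat_lit 37722612), (nat_lit 24769386), (nat_lit 18451604), (nat_lit 12447949)] (nat_lit 4959372)) p15_25_3 (nat_lit 4) (nat_lit 47) (nat_lit 48) = true := by decide +kernel
def p15_25_3_48 : pfC (piC [(nat_lit 37722612), (nat_lit 24769386), (nat_lit 18451604), (nat_lit 12447949)] (nat_lit 4959372)) p15_25_3 (nat_lit 4) (nat_lit 48) (nat_lit 49) = true := by decide +kernel
def p15_25_3_49 : pfC (piC [(nat_lit 37722612), (nat_lit 24769386), (nat_lit 18451604), (nat_lit 12447949)] (nat_lit 4959372)) p15_25_3 (nat_lit 4) (nat_lit 49) (nat_lit 50) = true := by decide +kernel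
def p15_25_3_50 : pfC (piC [(nat_lit 37722612), (nat_lit 24769386), (nat_lit 18451604), (nat_lit 12447949)] (nat_lit 4959372)) p15_25_3 (nat_lit 4) (nat_lit 50) (nat_lit 51) = true := by decide +kernel
def p15_25_3_51 : pfC (piC [(nat_lit 37722612), (nat_lit 24769386), (nat_lit 18451604), (nat_lit 12447949)] (nat_lit 4959372)) p15_25_3 (nat_lit 4) (nat_lit 51) (nat_lit 52) = true := by decide +kernel
def p15_25_3_52 : pfC (piC [(nat_lit 37722612), (nat_lit 24769386), (nat_lit 18451604), (nat_lit 12447949)] (nat_lit 4959372)) p15_25_3 (nat_lit 4) (nat_lit 52) (nat_lit 53) = true := by decide +kernel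
def p15_25_3_53 : pfC (piC [(nat_lit 37722612), (nat_lit 24769386), (nat_lit 18451604), (nat_lit 12447949)] (nat_lit 4959372)) p15_25_3 (nat_lit 4) (nat_lit 53) (nat_lit 54) = true := by decide +kernel
def p15_25_3_54 : pfC (piC [(nat_lit 37722612), (nat_lit 24769386), (nat_lit 18451604), (nat_lit 12447949)] (nat_lit 4959372)) p15_25_3 (nat_lit 4) (nat_lit 54) (nat_lit 55) = true := by decide +kernel
def p15_25_3_55 : pfC (piC [(nat_lit 37722612), (nat_lit 24769386), (nat_lit 18451604), (nat_lit 12447949)] (nat_lit 4959372)) p15_25_3 (nat_lit 4) (nat_lit 55) (nat_lit 56) = true := by decide +kernel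
def p15_25_3_56 : pfC (piC [(nat_lit 37722612), (nat_lit 24769386), (nat_lit 18451604), (nat_lit 12447949)] (nat_lit 4959372)) p15_25_3 (nat_lit 4) (nat_lit 56) (nat_lit 57) = true := by decide +kernel
def p15_25_3_57 : pfC (piC [(nat_lit 37722612), (nat_lit 24769386), (nat_lit 18451604), (nat_lit 12447949)] (nat_lit 4959372)) p15_25_3 (nat_lit 4) (nat_lit 57) (nat_lit 58) = true := by decide +kernel
def p15_25_3_58 : pfC (piC [(nat_lit 37722612), (nat_lit 24769386), (nat_lit 18451604), (nat_lit 12447949)] (nat_lit 4959372)) p15_25_3 (nat_lit 4) (nat_lit 58) (nat_lit 59) = true := by decide +kernel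
def p15_25_3_59 : pfC (piC [(nat_lit 37722612), (nat_lit 24769386), (nat_lit 18451604), (nat_lit 12447949)] (nat_lit 4959372)) p15_25_3 (nat_lit 4) (nat_lit 59) (nat_lit 60) = true := by decide +kernel
def p15_25_3_60 : pfC (piC [(nat_lit 37722612), (nat_lit 24769386), (nat_lit 18451604), (nat_lit 12447949)] (nat_lit 4959372)) p15_25_3 (nat_lit 4) (nat_lit 60) (nat_lit 61) = true := by decide +kernel
def p15_25_3_61 : pfC (piC [(nat_lit 37722612), (nat_lit 24769386), (nat_lit 18451604), (nat_lit 12447949)] (nat_lit 4959372)) p15_25_3 (nat_lit 4) (nat_lit 61) (nat_lit 62) = true := by decide +kernel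
def p15_25_3_62 : pfC (piC [(nat_lit 37722612), (nat_lit 24769386), (nat_lit 18451604), (nat_lit 12447949)] (nat_lit 4959372)) p15_25_3 (nat_lit 4) (nat_lit 62) (nat_lit 63) = true := by decide +kernel
def p15_25_3_63 : pfC (piC [(nat_lit 37722612), (nat_lit 24769386), (nat_lit 18451604), (nat_lit 12447949)] (nat_lit 4959372)) p15_25_3 (nat_lit 4) (nat_lit 63) (nat_lit 64) = true := by decide +kernel
def p15_25_3_64 : pfC (piC [(nat_lit 37722612), (nat_lit 24769386), (nat_lit 18451604), (nat_lit 12447949)] (nat_lit 4959372)) p15_25_3 (nat_lit 4) (nat_lit 64) (nat_lit 65) = true := by decide +kernel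
def p15_25_3_65 : pfC (piC [(nat_lit 37722612), (nat_lit 24769386), (nat_lit 18451604), (nat_lit 12447949)] (nat_lit 4959372)) p15_25_3 (nat_lit 4) (nat_lit 65) (nat_lit 66) = true := by decide +kernel
def p15_25_3_66 : pfC (piC [(nat_lit 37722612), (nat_lit 24769386), (nat_lit 18451604), (nat_lit 12447949)] (nat_lit 4959372)) p15_25_3 (nat_lit 4) (nat_lit 66) (nat_lit 67) = true := by decide +kernel
def p15_25_3_67 : pfC (piC [(nat_lit 37722612), (nat_lit 24769386), (nat_lit 18451604), (nat_lit 12447949)] (nat_lit 4959372)) p15_25_3 (nat_lit 4) (nat_lit 67) (nat_lit 68) = true := by decide +kernel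
def p15_25_3_68 : pfC (piC [(nat_lit 37722612), (nat_lit 24769386), (nat_lit 18451604), (nat_lit 12447949)] (nat_lit 4959372)) p15_25_3 (nat_lit 4) (nat_lit 68) (nat_lit 69) = true := by decide +kernel
def p15_25_3_69 : pfC (piC [(nat_lit 37722612), (nat_lit 24769386), (nat_lit 18451604), (nat_lit 12447949)] (nat_lit 4959372)) p15_25_3 (nat_lit 4) (nat_lit 69) (nat_lit 70) = true := by decide +kernel
def p15_25_3_70 : pfC (piC [(nat_lit 37722612), (nat_lit 24769386), (nat_lit 18451604), (nat_lit 12447949)] (nat_lit 4959372)) p15_25_3 (nat_lit 4) (nat_lit 70) (nat_lit 71) = true := by decide +kernel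
def p15_25_3_71 : pfC (piC [(nat_lit 37722612), (nat_lit 24769386), (nat_lit 18451604), (nat_lit 12447949)] (nat_lit 4959372)) p15_25_3 (nat_lit 4) (nat_lit 71) (nat_lit 72) = true := by decide +kernel
def p15_25_3_72 : pfC (piC [(nat_lit 37722612), (nat_lit 24769386), (nat_lit 18451604), (nat_lit 12447949)] (nat_lit 4959372)) p15_25_3 (nat_lit 4) (nat_lit 72) (nat_lit 73) = true := by decide +kernel
def p15_25_3_73 : pfC (piC [(nat_lit 37722612), (nat_lit 24769386), (nat_lit 18451604), (nat_lit 12447949)] (nat_lit 4959372)) p15_25_3 (nat_lit 4) (nat_lit 73) (nat_lit 74) = true := by decide +kernel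
def p15_25_3_74 : pfC (piC [(nat_lit 37722612), (nat_lit 24769386), (nat_lit 18451604), (nat_lit 12447949)] (nat_lit 4959372)) p15_25_3 (nat_lit 4) (nat_lit 74) (nat_lit 75) = true := by decide +kernel
def p15_25_3_75 : pfC (piC [(nat_lit 37722612), (nat_lit 24769386), (nat_lit 18451604), (nat_lit 12447949)] (nat_lit 4959372)) p15_25_3 (nat_lit 4) (nat_lit 75) (nat_lit 76) = true := by decide +kernel
def p15_25_3_76 : pfC (piC [(nat_lit 37722612), (nat_lit 24769386), (nat_lit 18451604), (nat_lit 12447949)] (nat_lit 4959372)) p15_25_3 (nat_lit 4) (nat_lit 76) (nat_lit 77) = true := by decide +kernel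
def p15_25_3_77 : pfC (piC [(nat_lit 37722612), (nat_lit 24769386), (nat_lit 18451604), (nat_lit 12447949)] (nat_lit 4959372)) p15_25_3 (nat_lit 4) (nat_lit 77) (nat_lit 78) = true := by decide +kernel
def p15_25_3_78 : pfC (piC [(nat_lit 37722612), (nat_lit 24769386), (nat_lit 18451604), (nat_lit 12447949)] (nat_lit 4959372)) p15_25_3 (nat_lit 4) (nat_lit 78) (nat_lit 79) = true := by decide +kernel
def p15_25_3_79 : pfC (piC [(nat_lit 37722612), (nat_lit 24769386), (nat_lit 18451604), (nat_lit 12447949)] (nat_lit 4959372)) p15_25_3 (nat_lit 4) (nat_lit 79) (nat_lit 80) = true := by decide +kernel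
def p15_25_3_80 : pfC (piC [(nat_lit 37722612), (nat_lit 24769386), (nat_lit 18451604), (nat_lit 12447949)] (nat_lit 4959372)) p15_25_3 (nat_lit 4) (nat_lit 80) (nat_lit 81) = true := by decide +kernel
def p15_25_3_81 : pfC (piC [(nat_lit 37722612), (nat_lit 24769386), (nat_lit 18451604), (nat_lit 12447949)] (nat_lit 4959372)) p15_25_3 (nat_lit 4) (nat_lit 81) (nat_lit 82) = true := by decide +kernel
def p15_25_3_82 : pfC (piC [(nat_lit 37722612), (nat_lit 24769386), (nat_lit 18451604), (nat_lit 12447949)] (nat_lit 4959372)) p15_25_3 (nat_lit 4) (nat_lit 82) (nat_lit 83) = true := by decide +kernel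
def p15_25_3_83 : pfC (piC [(nat_lit 37722612), (nat_lit 24769386), (nat_lit 18451604), (nat_lit 12447949)] (nat_lit 4959372)) p15_25_3 (nat_lit 4) (nat_lit 83) (nat_lit 84) = true := by decide +kernel
def p15_25_3_84 : pfC (piC [(nat_lit 37722612), (nat_lit 24769386), (nat_lit 18451604), (nat_lit 12447949)] (nat_lit 4959372)) p15_25_3 (nat_lit 4) (nat_lit 84) (nat_lit 85) = true := by decide +kernel
def p15_25_3_85 : pfC (piC [(nat_lit 37722612), (nat_lit 24769386), (nat_lit 18451604), (nat_lit 12447949)] (nat_lit 4959372)) p15_25_3 (nat_lit 4) (nat_lit 85) (nat_lit 86) = true := by decide +kernel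
def p15_25_3_86 : pfC (piC [(nat_lit 37722612), (nat_lit 24769386), (nat_lit 18451604), (nat_lit 12447949)] (nat_lit 4959372)) p15_25_3 (nat_lit 4) (nat_lit 86) (nat_lit 87) = true := by decide +kernel
def p15_25_3_87 : pfC (piC [(nat_lit 37722612), (nat_lit 24769386), (nat_lit 18451604), (nat_lit 12447949)] (nat_lit 4959372)) p15_25_3 (nat_lit 4) (nat_lit 87) (nat_lit 88) = true := by decide +kernel
def p15_25_3_88 : pfC (piC [(nat_lit 37722612), (nat_lit 24769386), (nat_lit 18451604), (nat_lit 12447949)] (nat_lit 4959372)) p15_25_3 (nat_lit 4) (nat_lit 88) (nat_lit 89) = true := by decide +kernel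
def p15_25_3_89 : pfC (piC [(nat_lit 37722612), (nat_lit 24769386), (nat_lit 18451604), (nat_lit 12447949)] (nat_lit 4959372)) p15_25_3 (nat_lit 4) (nat_lit 89) (nat_lit 90) = true := by decide +kernel
def p15_25_3_90 : pfC (piC [(nat_lit 37722612), (nat_lit 24769386), (nat_lit 18451604), (nat_lit 12447949)] (nat_lit 4959372)) p15_25_3 (nat_lit 4) (nat_lit 90) (nat_lit 91) = true := by decide +kernel
def p15_25_3_91 : pfC (piC [(nat_lit 37722612), (nat_lit 24769386), (nat_lit 18451604), (nat_lit 12447949)] (nat_lit 4959372)) p15_25_3 (nat_lit 4) (nat_lit 91) (nat_lit 92) = true := by decide +kernel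
def p15_25_3_92 : pfC (piC [(nat_lit 37722612), (nat_lit 24769386), (nat_lit 18451604), (nat_lit 12447949)] (nat_lit 4959372)) p15_25_3 (nat_lit 4) (nat_lit 92) (nat_lit 93) = true := by decide +kernel
def p15_25_3_93 : pfC (piC [(nat_lit 37722612), (nat_lit 24769386), (nat_lit 18451604), (nat_lit 12447949)] (nat_lit 4959372)) p15_25_3 (nat_lit 4) (nat_lit 93) (nat_lit 94) = true := by decide +kernel
def p15_25_3_94 : pfC (piC [(nat_lit 37722612), (nat_lit 24769386), (nat_lit 18451604), (nat_lit 12447949)] (nat_lit 4959372)) p15_25_3 (nat_lit 4) (nat_lit 94) (nat_lit 95) = true := by decide +kernel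
def p15_25_3_95 : pfC (piC [(nat_lit 37722612), (nat_lit 24769386), (nat_lit 18451604), (nat_lit 12447949)] (nat_lit 4959372)) p15_25_3 (nat_lit 4) (nat_lit 95) (nat_lit 96) = true := by decide +kernel
def p15_25_3_96 : pfC (piC [(nat_lit 37722612), (nat_lit 24769386), (nat_lit 18451604), (nat_lit 12447949)] (nat_lit 4959372)) p15_25_3 (nat_lit 4) (nat_lit 96) (nat_lit 97) = true := by decide +kernel
def p15_25_3_97 : pfC (piC [(nat_lit 37722612), (nat_lit 24769386), (nat_lit 18451604), (nat_lit 12447949)] (nat_lit 4959372)) p15_25_3 (nat_lit 4) (nat_lit 97) (nat_lit 98) = true := by decide +kernel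
def p15_25_3_98 : pfC (piC [(nat_lit 37722612), (nat_lit 24769386), (nat_lit 18451604), (nat_lit 12447949)] (nat_lit 4959372)) p15_25_3 (nat_lit 4) (nat_lit 98) (nat_lit 99) = true := by decide +kernel
def p15_25_3_99 : pfC (piC [(nat_lit 37722612), (nat_lit 24769386), (nat_lit 18451604), (nat_lit 12447949)] (nat_lit 4959372)) p15_25_3 (nat_lit 4) (nat_lit 99) (nat_lit 100) = true := by decide +kernel
def p15_25_3_100 : pfC (piC [(nat_lit 37722612), (nat_lit 24769386), (nat_lit 18451604), (nat_lit 12447949)] (nat_lit 4959372)) p15_25_3 (nat_lit 4) (nat_lit 100) (nat_lit 101) = true := by decide +kernel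
def p15_25_3_101 : pfC (piC [(nat_lit 37722612), (nat_lit 24769386), (nat_lit 18451604), (nat_lit 12447949)] (nat_lit 4959372)) p15_25_3 (nat_lit 4) (nat_lit 101) (nat_lit 102) = true := by decide +kernel
def p15_25_3_102 : pfC (piC [(nat_lit 37722612), (nat_lit 24769386), (nat_lit 18451604), (nat_lit 12447949)] (nat_lit 4959372)) p15_25_3 (nat_lit 4) (nat_lit 102) (nat_lit 103) = true := by decide +kernel
def p15_25_3_103 : pfC (piC [(nat_lit 37722612), (nat_lit 24769386), (nat_lit 18451604), (nat_lit 12447949)] (nat_lit 4959372)) p15_25_3 (nat_lit 4) (nat_lit 103) (nat_lit 104) = true := by decide +kernel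
def p15_25_3_104 : pfC (piC [(nat_lit 37722612), (nat_lit 24769386), (nat_lit 18451604), (nat_lit 12447949)] (nat_lit 4959372)) p15_25_3 (nat_lit 4) (nat_lit 104) (nat_lit 105) = true := by decide +kernel
def p15_25_3_105 : pfC (piC [(nat_lit 37722612), (nat_lit 24769386), (nat_lit 18451604), (nat_lit 12447949)] (nat_lit 4959372)) p15_25_3 (nat_lit 4) (nat_lit 105) (nat_lit 106) = true := by decide +kernel
def p15_25_3_106 : pfC (piC [(nat_lit 37722612), (nat_lit 24769386), (nat_lit 18451604), (nat_lit 12447949)] (nat_lit 4959372)) p15_25_3 (nat_lit 4) (nat_lit 106) (nat_lit 107) = true := by decide +kernel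
def p15_25_3_107 : pfC (piC [(nat_lit 37722612), (nat_lit 24769386), (nat_lit 18451604), (nat_lit 12447949)] (nat_lit 4959372)) p15_25_3 (nat_lit 4) (nat_lit 107) (nat_lit 108) = true := by decide +kernel
def p15_25_3_108 : pfC (piC [(nat_lit 37722612), (nat_lit 24769386), (nat_lit 18451604), (nat_lit 12447949)] (nat_lit 4959372)) p15_25_3 (nat_lit 4) (nat_lit 108) (nat_lit 109) = true := by decide +kernel
def p15_25_3_109 : pfC (piC [(nat_lit 37722612), (nat_lit 24769386), (nat_lit 18451604), (nat_lit 12447949)] (nat_lit 4959372)) p15_25_3 (nat_lit 4) (nat_lit 109) (nat_lit 110) = true := by decide +kernel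
def p15_25_3_110 : pfC (piC [(nat_lit 37722612), (nat_lit 24769386), (nat_lit 18451604), (nat_lit 12447949)] (nat_lit 4959372)) p15_25_3 (nat_lit 4) (nat_lit 110) (nat_lit 111) = true := by decide +kernel
def p15_25_3_111 : pfC (piC [(nat_lit 37722612), (nat_lit 24769386), (nat_lit 18451604), (nat_lit 12447949)] (nat_lit 4959372)) p15_25_3 (nat_lit 4) (nat_lit 111) (nat_lit 112) = true := by decide +kernel
def p15_25_3_112 : pfC (piC [(nat_lit 37722612), (nat_lit 24769386), (nat_lit 18451604), (nat_lit 12447949)] (nat_lit 4959372)) p15_25_3 (nat_lit 4) (nat_lit 112) (nat_lit 113) = true := by decide +kernel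
def p15_25_3_113 : pfC (piC [(nat_lit 37722612), (nat_lit 24769386), (nat_lit 18451604), (nat_lit 12447949)] (nat_lit 4959372)) p15_25_3 (nat_lit 4) (nat_lit 113) (nat_lit 114) = true := by decide +kernel
def p15_25_3_114 : pfC (piC [(nat_lit 37722612), (nat_lit 24769386), (nat_lit 18451604), (nat_lit 12447949)] (nat_lit 4959372)) p15_25_3 (nat_lit 4) (nat_lit 114) (nat_lit 115) = true := by decide +kernel
def p15_25_3_115 : pfC (piC [(nat_lit 37722612), (nat_lit 24769386), (nat_lit 18451604), (nat_lit 12447949)] (nat_lit 4959372)) p15_25_3 (nat_lit 4) (nat_lit 115) (nat_lit 116) = true := by decide +kernel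
def p15_25_3_116 : pfC (piC [(nat_lit 37722612), (nat_lit 24769386), (nat_lit 18451604), (nat_lit 12447949)] (nat_lit 4959372)) p15_25_3 (nat_lit 4) (nat_lit 116) (nat_lit 117) = true := by decide +kernel
def p15_25_3_117 : pfC (piC [(nat_lit 37722612), (nat_lit 24769386), (nat_lit 18451604), (nat_lit 12447949)] (nat_lit 4959372)) p15_25_3 (nat_lit 4) (nat_lit 117) (nat_lit 118) = true := by decide +kernel
def p15_25_3_118 : pfC (piC [(nat_lit 37722612), (nat_lit 24769386), (nat_lit 18451604), (nat_lit 12447949)] (nat_lit 4959372)) p15_25_3 (nat_lit 4) (nat_lit 118) (nat_lit 119) = true := by decide +kernel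
def p15_25_3_119 : pfC (piC [(nat_lit 37722612), (nat_lit 24769386), (nat_lit 18451604), (nat_lit 12447949)] (nat_lit 4959372)) p15_25_3 (nat_lit 4) (nat_lit 119) (nat_lit 120) = true := by decide +kernel
def p15_25_3_120 : pfC (piC [(nat_lit 37722612), (nat_lit 24769386), (nat_lit 18451604), (nat_lit 12447949)] (nat_lit 4959372)) p15_25_3 (nat_lit 4) (nat_lit 120) (nat_lit 121) = true := by decide +kernel
def p15_25_3_121 : pfC (piC [(nat_lit 37722612), (nat_lit 24769386), (nat_lit 18451604), (nat_lit 12447949)] (nat_lit 4959372)) p15_25_3 (nat_lit 4) (nat_lit 121) (nat_lit 122) = true := by decide +kernel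
def p15_25_3_122 : pfC (piC [(nat_lit 37722612), (nat_lit 24769386), (nat_lit 18451604), (nat_lit 12447949)] (nat_lit 4959372)) p15_25_3 (nat_lit 4) (nat_lit 122) (nat_lit 123) = true := by decide +kernel
def p15_25_3_123 : pfC (piC [(nat_lit 37722612), (nat_lit 24769386), (nat_lit 18451604), (nat_lit 12447949)] (nat_lit 4959372)) p15_25_3 (nat_lit 4) (nat_lit 123) (nat_lit 124) = true := by decide +kernel
def p15_25_3_124 : pfC (piC [(nat_lit 37722612), (nat_lit 24769386), (nat_lit 18451604), (nat_lit 12447949)] (nat_lit 4959372)) p15_25_3 (nat_lit 4) (nat_lit 124) (nat_lit 125) = true := by decide +kernel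
def p15_25_3_125 : pfC (piC [(nat_lit 37722612), (nat_lit 24769386), (nat_lit 18451604), (nat_lit 12447949)] (nat_lit 4959372)) p15_25_3 (nat_lit 4) (nat_lit 125) (nat_lit 126) = true := by decide +kernel
def p15_25_3_126 : pfC (piC [(nat_lit 37722612), (nat_lit 24769386), (nat_lit 18451604), (nat_lit 12447949)] (nat_lit 4959372)) p15_25_3 (nat_lit 4) (nat_lit 126) (nat_lit 127) = true := by decide +kernel
def p15_25_3_127 : pfC (piC [(nat_lit 37722612), (nat_lit 24769386), (nat_lit 18451604), (nat_lit 12447949)] (nat_lit 4959372)) p15_25_3 (nat_lit 4) (nat_lit 127) (nat_lit 128) = true := by decide +kernel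
def p15_25_3_128 : pfC (piC [(nat_lit 37722612), (nat_lit 24769386), (nat_lit 18451604), (nat_lit 12447949)] (nat_lit 4959372)) p15_25_3 (nat_lit 4) (nat_lit 128) (nat_lit 129) = true := by decide +kernel
def p15_25_3_129 : pfC (piC [(nat_lit 37722612), (nat_lit 24769386), (nat_lit 18451604), (nat_lit 12447949)] (nat_lit 4959372)) p15_25_3 (nat_lit 4) (nat_lit 129) (nat_lit 130) = true := by decide +kernel
def p15_25_3_130 : pfC (piC [(nat_lit 37722612), (nat_lit 24769386), (nat_lit 18451604), (nat_lit 12447949)] (nat_lit 4959372)) p15_25_3 (nat_lit 4) (nat_lit 130) (nat_lit 131) = true := by decide +kernel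
def p15_25_3_131 : pfC (piC [(nat_lit 37722612), (nat_lit 24769386), (nat_lit 18451604), (nat_lit 12447949)] (nat_lit 4959372)) p15_25_3 (nat_lit 4) (nat_lit 131) (nat_lit 132) = true := by decide +kernel
def p15_25_3_132 : pfC (piC [(nat_lit 37722612), (nat_lit 24769386), (nat_lit 18451604), (nat_lit 12447949)] (nat_lit 4959372)) p15_25_3 (nat_lit 4) (nat_lit 132) (nat_lit 133) = true := by decide +kernel
def p15_25_3_133 : pfC (piC [(nat_lit 37722612), (nat_lit 24769386), (nat_lit 18451604), (nat_lit 12447949)] (nat_lit 4959372)) p15_25_3 (nat_lit 4) (nat_lit 133) (nat_lit 134) = true := by decide +kernel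
def p15_25_3_134 : pfC (piC [(nat_lit 37722612), (nat_lit 24769386), (nat_lit 18451604), (nat_lit 12447949)] (nat_lit 4959372)) p15_25_3 (nat_lit 4) (nat_lit 134) (nat_lit 135) = true := by decide +kernel
def p15_25_3_135 : pfC (piC [(nat_lit 37722612), (nat_lit 24769386), (nat_lit 18451604), (nat_lit 12447949)] (nat_lit 4959372)) p15_25_3 (nat_lit 4) (nat_lit 135) (nat_lit 136) = true := by decide +kernel
def p15_25_3_136 : pfC (piC [(nat_lit 37722612), (nat_lit 24769386), (nat_lit 18451604), (nat_lit 12447949)] (nat_lit 4959372)) p15_25_3 (nat_lit 4) (nat_lit 136) (nat_lit 137) = true := by decide +kernel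
def p15_25_3_137 : pfC (piC [(nat_lit 37722612), (nat_lit 24769386), (nat_lit 18451604), (nat_lit 12447949)] (nat_lit 4959372)) p15_25_3 (nat_lit 4) (nat_lit 137) (nat_lit 138) = true := by decide +kernel
def p15_25_3_138 : pfC (piC [(nat_lit 37722612), (nat_lit 24769386), (nat_lit 18451604), (nat_lit 12447949)] (nat_lit 4959372)) p15_25_3 (nat_lit 4) (nat_lit 138) (nat_lit 139) = true := by decide +kernel
def p15_25_3_139 : pfC (piC [(nat_lit 37722612), (nat_lit 24769386), (nat_lit 18451604), (nat_lit 12447949)] (nat_lit 4959372)) p15_25_3 (nat_lit 4) (nat_lit 139) (nat_lit 140) = true := by decide +kernel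
def p15_25_3_140 : pfC (piC [(nat_lit 37722612), (nat_lit 24769386), (nat_lit 18451604), (nat_lit 12447949)] (nat_lit 4959372)) p15_25_3 (nat_lit 4) (nat_lit 140) (nat_lit 141) = true := by decide +kernel
def p15_25_3_141 : pfC (piC [(nat_lit 37722612), (nat_lit 24769386), (nat_lit 18451604), (nat_lit 12447949)] (nat_lit 4959372)) p15_25_3 (nat_lit 4) (nat_lit 141) (nat_lit 142) = true := by decide +kernel
def p15_25_3_142 : pfC (piC [(nat_lit 37722612), (nat_lit 24769386), (nat_lit 18451604), (nat_lit 12447949)] (nat_lit 4959372)) p15_25_3 (nat_lit 4) (nat_lit 142) (nat_lit 143) = true := by decide +kernel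
def p15_25_3_143 : pfC (piC [(nat_lit 37722612), (nat_lit 24769386), (nat_lit 18451604), (nat_lit 12447949)] (nat_lit 4959372)) p15_25_3 (nat_lit 4) (nat_lit 143) (nat_lit 144) = true := by decide +kernel
def p15_25_3_144 : pfC (piC [(nat_lit 37722612), (nat_lit 24769386), (nat_lit 18451604), (nat_lit 12447949)] (nat_lit 4959372)) p15_25_3 (nat_lit 4) (nat_lit 144) (nat_lit 145) = true := by decide +kernel
def p15_25_3_145 : pfC (piC [(nat_lit 37722612), (nat_lit 24769386), (nat_lit 18451604), (nat_lit 12447949)] (nat_lit 4959372)) p15_25_3 (nat_lit 4) (nat_lit 145) (nat_lit 146) = true := by decide +kernel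
def p15_25_3_146 : pfC (piC [(nat_lit 37722612), (nat_lit 24769386), (nat_lit 18451604), (nat_lit 12447949)] (nat_lit 4959372)) p15_25_3 (nat_lit 4) (nat_lit 146) (nat_lit 147) = true := by decide +kernel
def p15_25_3_147 : pfC (piC [(nat_lit 37722612), (nat_lit 24769386), (nat_lit 18451604), (nat_lit 12447949)] (nat_lit 4959372)) p15_25_3 (nat_lit 4) (nat_lit 147) (nat_lit 148) = true := by decide +kernel
def p15_25_3_148 : pfC (piC [(nat_lit 37722612), (nat_lit 24769386), (nat_lit 18451604), (nat_lit 12447949)] (nat_lit 4959372)) p15_25_3 (nat_lit 4) (nat_lit 148) (nat_lit 149) = true := by decide +kernel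
def p15_25_3_149 : pfC (piC [(nat_lit 37722612), (nat_lit 24769386), (nat_lit 18451604), (nat_lit 12447949)] (nat_lit 4959372)) p15_25_3 (nat_lit 4) (nat_lit 149) (nat_lit 150) = true := by decide +kernel
def p15_25_3_150 : pfC (piC [(nat_lit 37722612), (nat_lit 24769386), (nat_lit 18451604), (nat_lit 12447949)] (nat_lit 4959372)) p15_25_3 (nat_lit 4) (nat_lit 150) (nat_lit 151) = true := by decide +kernel
def p15_25_3_151 : pfC (piC [(nat_lit 37722612), (nat_lit 24769386), (nat_lit 18451604), (nat_lit 12447949)] (nat_lit 4959372)) p15_25_3 (nat_lit 4) (nat_lit 151) (nat_lit 152) = true := by decide +kernel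
def p15_25_3_152 : pfC (piC [(nat_lit 37722612), (nat_lit 24769386), (nat_lit 18451604), (nat_lit 12447949)] (nat_lit 4959372)) p15_25_3 (nat_lit 4) (nat_lit 152) (nat_lit 153) = true := by decide +kernel
def p15_25_3_153 : pfC (piC [(nat_lit 37722612), (nat_lit 24769386), (nat_lit 18451604), (nat_lit 12447949)] (nat_lit 4959372)) p15_25_3 (nat_lit 4) (nat_lit 153) (nat_lit 154) = true := by decide +kernel
def p15_25_3_154 : pfC (piC [(nat_lit 37722612), (nat_lit 24769386), (nat_lit 18451604), (nat_lit 12447949)] (nat_lit 4959372)) p15_25_3 (nat_lit 4) (nat_lit 154) (nat_lit 155) = true := by decide +kernel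
def p15_25_3_155 : pfC (piC [(nat_lit 37722612), (nat_lit 24769386), (nat_lit 18451604), (nat_lit 12447949)] (nat_lit 4959372)) p15_25_3 (nat_lit 4) (nat_lit 155) (nat_lit 156) = true := by decide +kernel
def p15_25_3_156 : pfC (piC [(nat_lit 37722612), (nat_lit 24769386), (nat_lit 18451604), (nat_lit 12447949)] (nat_lit 4959372)) p15_25_3 (nat_lit 4) (nat_lit 156) (nat_lit 157) = true := by decide +kernel
def p15_25_3_157 : pfC (piC [(nat_lit 37722612), (nat_lit 24769386), (nat_lit 18451604), (nat_lit 12447949)] (nat_lit 4959372)) p15_25_3 (nat_lit 4) (nat_lit 157) (nat_lit 158) = true := by decide +kernel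
def p15_25_3_158 : pfC (piC [(nat_lit 37722612), (nat_lit 24769386), (nat_lit 18451604), (nat_lit 12447949)] (nat_lit 4959372)) p15_25_3 (nat_lit 4) (nat_lit 158) (nat_lit 159) = true := by decide +kernel
def p15_25_3_159 : pfC (piC [(nat_lit 37722612), (nat_lit 24769386), (nat_lit 18451604), (nat_lit 12447949)] (nat_lit 4959372)) p15_25_3 (nat_lit 4) (nat_lit 159) (nat_lit 160) = true := by decide +kernel
def p15_25_3_160 : pfC (piC [(nat_lit 37722612), (nat_lit 24769386), (nat_lit 18451604), (nat_lit 12447949)] (nat_lit 4959372)) p15_25_3 (nat_lit 4) (nat_lit 160) (nat_lit 161) = true := by decide +kernel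
def p15_25_3_161 : pfC (piC [(nat_lit 37722612), (nat_lit 24769386), (nat_lit 18451604), (nat_lit 12447949)] (nat_lit 4959372)) p15_25_3 (nat_lit 4) (nat_lit 161) (nat_lit 162) = true := by decide +kernel
def p15_25_3_162 : pfC (piC [(nat_lit 37722612), (nat_lit 24769386), (nat_lit 18451604), (nat_lit 12447949)] (nat_lit 4959372)) p15_25_3 (nat_lit 4) (nat_lit 162) (nat_lit 163) = true := by decide +kernel
def p15_25_3_163 : pfC (piC [(nat_lit 37722612), (nat_lit 24769386), (nat_lit 18451604), (nat_lit 12447949)] (nat_lit 4959372)) p15_25_3 (nat_lit 4) (nat_lit 163) (nat_lit 164) = true := by decide +kernel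
def p15_25_3_164 : pfC (piC [(nat_lit 37722612), (nat_lit 24769386), (nat_lit 18451604), (nat_lit 12447949)] (nat_lit 4959372)) p15_25_3 (nat_lit 4) (nat_lit 164) (nat_lit 165) = true := by decide +kernel
def p15_25_3_165 : pfC (piC [(nat_lit 37722612), (nat_lit 24769386), (nat_lit 18451604), (nat_lit 12447949)] (nat_lit 4959372)) p15_25_3 (nat_lit 4) (nat_lit 165) (nat_lit 166) = true := by decide +kernel
def p15_25_3_166 : pfC (piC [(nat_lit 37722612), (nat_lit 24769386), (nat_lit 18451604), (nat_lit 12447949)] (nat_lit 4959372)) p15_25_3 (nat_lit 4) (nat_lit 166) (nat_lit 167) = true := by decide +kernel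
def p15_25_3_167 : pfC (piC [(nat_lit 37722612), (nat_lit 24769386), (nat_lit 18451604), (nat_lit 12447949)] (nat_lit 4959372)) p15_25_3 (nat_lit 4) (nat_lit 167) (nat_lit 168) = true := by decide +kernel
def p15_25_3_168 : pfC (piC [(nat_lit 37722612), (nat_lit 24769386), (nat_lit 18451604), (nat_lit 12447949)] (nat_lit 4959372)) p15_25_3 (nat_lit 4) (nat_lit 168) (nat_lit 169) = true := by decide +kernel
def p15_25_3_169 : pfC (piC [(nat_lit 37722612), (nat_lit 24769386), (nat_lit 18451604), (nat_lit 12447949)] (nat_lit 4959372)) p15_25_3 (nat_lit 4) (nat_lit 169) (nat_lit 170) = true := by decide +kernel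
def p15_25_3_170 : pfC (piC [(nat_lit 37722612), (nat_lit 24769386), (nat_lit 18451604), (nat_lit 12447949)] (nat_lit 4959372)) p15_25_3 (nat_lit 4) (nat_lit 170) (nat_lit 171) = true := by decide +kernel
def p15_25_3_171 : pfC (piC [(nat_lit 37722612), (nat_lit 24769386), (nat_lit 18451604), (nat_lit 12447949)] (nat_lit 4959372)) p15_25_3 (nat_lit 4) (nat_lit 171) (nat_lit 172) = true := by decide +kernel
def p15_25_3_172 : pfC (piC [(nat_lit 37722612), (nat_lit 24769386), (nat_lit 18451604), (nat_lit 12447949)] (nat_lit 4959372)) p15_25_3 (nat_lit 4) (nat_lit 172) (nat_lit 173) = true := by decide +kernel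
def p15_25_3_173 : pfC (piC [(nat_lit 37722612), (nat_lit 24769386), (nat_lit 18451604), (nat_lit 12447949)] (nat_lit 4959372)) p15_25_3 (nat_lit 4) (nat_lit 173) (nat_lit 174) = true := by decide +kernel
def p15_25_3_174 : pfC (piC [(nat_lit 37722612), (nat_lit 24769386), (nat_lit 18451604), (nat_lit 12447949)] (nat_lit 4959372)) p15_25_3 (nat_lit 4) (nat_lit 174) (nat_lit 175) = true := by decide +kernel
def p15_25_3_175 : pfC (piC [(nat_lit 37722612), (nat_lit 24769386), (nat_lit 18451604), (nat_lit 12447949)] (nat_lit 4959372)) p15_25_3 (nat_lit 4) (nat_lit 175) (nat_lit 176) = true := by decide +kernel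
def p15_25_3_176 : pfC (piC [(nat_lit 37722612), (nat_lit 24769386), (nat_lit 18451604), (nat_lit 12447949)] (nat_lit 4959372)) p15_25_3 (nat_lit 4) (nat_lit 176) (nat_lit 177) = true := by decide +kernel
def p15_25_3_177 : pfC (piC [(nat_lit 37722612), (nat_lit 24769386), (nat_lit 18451604), (nat_lit 12447949)] (nat_lit 4959372)) p15_25_3 (nat_lit 4) (nat_lit 177) (nat_lit 178) = true := by decide +kernel
def p15_25_3_178 : pfC (piC [(nat_lit 37722612), (nat_lit 24769386), (nat_lit 18451604), (nat_lit 12447949)] (nat_lit 4959372)) p15_25_3 (nat_lit 4) (nat_lit 178) (nat_lit 179) = true := by decide +kernel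
def p15_25_3_179 : pfC (piC [(nat_lit 37722612), (nat_lit 24769386), (nat_lit 18451604), (nat_lit 12447949)] (nat_lit 4959372)) p15_25_3 (nat_lit 4) (nat_lit 179) (nat_lit 180) = true := by decide +kernel
def p15_25_3_180 : pfC (piC [(nat_lit 37722612), (nat_lit 24769386), (nat_lit 18451604), (nat_lit 12447949)] (nat_lit 4959372)) p15_25_3 (nat_lit 4) (nat_lit 180) (nat_lit 181) = true := by decide +kernel
def p15_25_3_181 : pfC (piC [(nat_lit 37722612), (nat_lit 24769386), (nat_lit 18451604), (nat_lit 12447949)] (nat_lit 4959372)) p15_25_3 (nat_lit 4) (nat_lit 181) (nat_lit 182) = true := by decide +kernel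
def p15_25_3_182 : pfC (piC [(nat_lit 37722612), (nat_lit 24769386), (nat_lit 18451604), (nat_lit 12447949)] (nat_lit 4959372)) p15_25_3 (nat_lit 4) (nat_lit 182) (nat_lit 183) = true := by decide +kernel
def p15_25_3_183 : pfC (piC [(nat_lit 37722612), (nat_lit 24769386), (nat_lit 18451604), (nat_lit 12447949)] (nat_lit 4959372)) p15_25_3 (nat_lit 4) (nat_lit 183) (nat_lit 184) = true := by decide +kernel
def p15_25_3_184 : pfC (piC [(nat_lit 37722612), (nat_lit 24769386), (nat_lit 18451604), (nat_lit 12447949)] (nat_lit 4959372)) p15_25_3 (nat_lit 4) (nat_lit 184) (nat_lit 185) = true := by decide +kernel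
def p15_25_3_185 : pfC (piC [(nat_lit 37722612), (nat_lit 24769386), (nat_lit 18451604), (nat_lit 12447949)] (nat_lit 4959372)) p15_25_3 (nat_lit 4) (nat_lit 185) (nat_lit 186) = true := by decide +kernel
def p15_25_3_186 : pfC (piC [(nat_lit 37722612), (nat_lit 24769386), (nat_lit 18451604), (nat_lit 12447949)] (nat_lit 4959372)) p15_25_3 (nat_lit 4) (nat_lit 186) (nat_lit 187) = true := by decide +kernel
def p15_25_3_187 : pfC (piC [(nat_lit 37722612), (nat_lit 24769386), (nat_lit 18451604), (nat_lit 12447949)] (nat_lit 4959372)) p15_25_3 (nat_lit 4) (nat_lit 187) (nat_lit 188) = true := by decide +kernel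
def p15_25_3_188 : pfC (piC [(nat_lit 37722612), (nat_lit 24769386), (nat_lit 18451604), (nat_lit 12447949)] (nat_lit 4959372)) p15_25_3 (nat_lit 4) (nat_lit 188) (nat_lit 189) = true := by decide +kernel
def p15_25_3_189 : pfC (piC [(nat_lit 37722612), (nat_lit 24769386), (nat_lit 18451604), (nat_lit 12447949)] (nat_lit 4959372)) p15_25_3 (nat_lit 4) (nat_lit 189) (nat_lit 190) = true := by decide +kernel
def p15_25_3_190 : pfC (piC [(nat_lit 37722612), (nat_lit 24769386), (nat_lit 18451604), (nat_lit 12447949)] (nat_lit 4959372)) p15_25_3 (nat_lit 4) (nat_lit 190) (nat_lit 191) = true := by decide +kernel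
def p15_25_3_191 : pfC (piC [(nat_lit 37722612), (nat_lit 24769386), (nat_lit 18451604), (nat_lit 12447949)] (nat_lit 4959372)) p15_25_3 (nat_lit 4) (nat_lit 191) (nat_lit 192) = true := by decide +kernel
def p15_25_3_192 : pfC (piC [(nat_lit 37722612), (nat_lit 24769386), (nat_lit 18451604), (nat_lit 12447949)] (nat_lit 4959372)) p15_25_3 (nat_lit 4) (nat_lit 192) (nat_lit 193) = true := by decide +kernel
def p15_25_3_193 : pfC (piC [(nat_lit 37722612), (nat_lit 24769386), (nat_lit 18451604), (nat_lit 12447949)] (nat_lit 4959372)) p15_25_3 (nat_lit 4) (nat_lit 193) (nat_lit 194) = true := by decide +kernel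
def p15_25_3_194 : pfC (piC [(nat_lit 37722612), (nat_lit 24769386), (nat_lit 18451604), (nat_lit 12447949)] (nat_lit 4959372)) p15_25_3 (nat_lit 4) (nat_lit 194) (nat_lit 195) = true := by decide +kernel
def p15_25_3_195 : pfC (piC [(nat_lit 37722612), (nat_lit 24769386), (nat_lit 18451604), (nat_lit 12447949)] (nat_lit 4959372)) p15_25_3 (nat_lit 4) (nat_lit 195) (nat_lit 196) = true := by decide +kernel
def p15_25_3_196 : pfC (piC [(nat_lit 37722612), (nat_lit 24769386), (nat_lit 18451604), (nat_lit 12447949)] (nat_lit 4959372)) p15_25_3 (nat_lit 4) (nat_lit 196) (nat_lit 197) = true := by decide +kernel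
def p15_25_3_197 : pfC (piC [(nat_lit 37722612), (nat_lit 24769386), (nat_lit 18451604), (nat_lit 12447949)] (nat_lit 4959372)) p15_25_3 (nat_lit 4) (nat_lit 197) (nat_lit 198) = true := by decide +kernel
def p15_25_3_198 : pfC (piC [(nat_lit 37722612), (nat_lit 24769386), (nat_lit 18451604), (nat_lit 12447949)] (nat_lit 4959372)) p15_25_3 (nat_lit 4) (nat_lit 198) (nat_lit 199) = true := by decide +kernel
def p15_25_3_199 : pfC (piC [(nat_lit 37722612), (nat_lit 24769386), (nat_lit 18451604), (nat_lit 12447949)] (nat_lit 4959372)) p15_25_3 (nat_lit 4) (nat_lit 199) (nat_lit 200) = true := by decide +kernel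
def p15_25_3_200 : pfC (piC [(nat_lit 37722612), (nat_lit 24769386), (nat_lit 18451604), (nat_lit 12447949)] (nat_lit 4959372)) p15_25_3 (nat_lit 4) (nat_lit 200) (nat_lit 201) = true := by decide +kernel
def p15_25_3_201 : pfC (piC [(nat_lit 37722612), (nat_lit 24769386), (nat_lit 18451604), (nat_lit 12447949)] (nat_lit 4959372)) p15_25_3 (nat_lit 4) (nat_lit 201) (nat_lit 202) = true := by decide +kernel
def p15_25_3_202 : pfC (piC [(nat_lit 37722612), (nat_lit 24769386), (nat_lit 18451604), (nat_lit 12447949)] (nat_lit 4959372)) p15_25_3 (nat_lit 4) (nat_lit 202) (nat_lit 203) = true := by decide +kernel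
def p15_25_3_203 : pfC (piC [(nat_lit 37722612), (nat_lit 24769386), (nat_lit 18451604), (nat_lit 12447949)] (nat_lit 4959372)) p15_25_3 (nat_lit 4) (nat_lit 203) (nat_lit 204) = true := by decide +kernel
def p15_25_3_204 : pfC (piC [(nat_lit 37722612), (nat_lit 24769386), (nat_lit 18451604), (nat_lit 12447949)] (nat_lit 4959372)) p15_25_3 (nat_lit 4) (nat_lit 204) (nat_lit 205) = true := by decide +kernel
def p15_25_3_205 : pfC (piC [(nat_lit 37722612), (nat_lit 24769386), (nat_lit 18451604), (nat_lit 12447949)] (nat_lit 4959372)) p15_25_3 (nat_lit 4) (nat_lit 205) (nat_lit 206) = true := by decide +kernel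
def p15_25_3_206 : pfC (piC [(nat_lit 37722612), (nat_lit 24769386), (nat_lit 18451604), (nat_lit 12447949)] (nat_lit 4959372)) p15_25_3 (nat_lit 4) (nat_lit 206) (nat_lit 207) = true := by decide +kernel
def p15_25_3_207 : pfC (piC [(nat_lit 37722612), (nat_lit 24769386), (nat_lit 18451604), (nat_lit 12447949)] (nat_lit 4959372)) p15_25_3 (nat_lit 4) (nat_lit 207) (nat_lit 208) = true := by decide +kernel
def p15_25_3_208 : pfC (piC [(nat_lit 37722612), (nat_lit 24769386), (nat_lit 18451604), (nat_lit 12447949)] (nat_lit 4959372)) p15_25_3 (nat_lit 4) (nat_lit 208) (nat_lit 209) = true := by decide +kernel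
theorem p15_25_3_T : PfS (PiF n15_25.reverse (nat_lit 4959372)) p15_25_3 (nat_lit 4) [] 0 :=
  pftab_of (los := [(nat_lit 37722612), (nat_lit 24769386), (nat_lit 18451604), (nat_lit 12447949)]) (by decide +kernel) (hi := (nat_lit 209)) (PfP.trans (PfP.trans (PfP.trans (PfP.trans (PfP.trans (PfP.trans (PfP.trans (PfP.trans (PfP.trans (PfP.trans (PfP.trans (PfP.trans (PfP.trans (PfP.trans (PfP.trans (PfP.trans (PfP.trans (PfP.trans (PfP.trans (PfP.trans (PfP.trans (PfP.trans (PfP.trans (PfP.trans (PfP.trans (PfP.trans (PfP.trans (PfP.trans (PfP.trans (PfP.trans (PfP.trans (PfP.trans (PfP.trans (PfP.trans (PfP.trans (PfP.trans (PfP.trans (PfP.trans (PfP.trans (PfP.trans (PfP.trans (PfP.trans (PfP.trans (PfP.trans (PfP.trans (PfP.trans (PfP.trans (PfP.trans (PfP.trans (PfP.trans (PfP.trans (PfP.trans (PfP.trans (PfP.trans (PfP.trans (PfP.trans (PfP.trans (PfP.trans (PfP.trans (PfP.trans (PfP.trans (PfP.trans (PfP.trans (PfP.trans (PfP.trans (PfP.trans (PfP.trans (PfP.trans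 (PfP.trans (PfP.trans (PfP.trans (PfP.trans (PfP.trans (PfP.trans (PfP.trans (PfP.trans (PfP.trans (PfP.trans (PfP.trans (PfP.trans (PfP.trans (PfP.trans (PfP.trans (PfP.trans (PfP.trans (PfP.trans (PfP.trans (PfP.trans (PfP.trans (PfP.trans (PfP.trans (PfP.trans (PfP.trans (PfP.trans (PfP.trans (PfP.trans (PfP.trans (PfP.trans (PfP.trans (PfP.trans (PfP.trans (PfP.trans (PfP.trans (PfP.trans (PfP.trans (PfP.trans (PfP.trans (PfP.trans (PfP.trans
 (PfP.trans (PfP.trans (PfP.trans (PfP.trans (PfP.trans (PfP.trans (PfP.trans (PfP.trans (PfP.trans (PfP.trans (PfP.trans (PfP.trans (PfP.trans (PfP.trans (PfP.trans (PfP.trans (PfP.trans (PfP.trans (PfP.trans (PfP.trans (PfP.trans (PfP.trans (PfP.trans (PfP.trans (PfP.trans (PfP.trans (PfP.trans (PfP.trans (PfP.trans (PfP.trans (PfP.trans (PfP.trans (PfP.trans (PfP.trans (PfP.trans (PfP.trans (PfP.trans (PfP.trans (PfP.trans (PfP.trans (PfP.trans (PfP.trans (PfP.trans (PfP.trans (PfP.trans (PfP.trans (PfP.trans (PfP.trans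 (PfP.trans (PfP.trans (PfP.trans (PfP.trans (PfP.trans (PfP.trans (PfP.trans (PfP.trans (PfP.trans (PfP.trans (PfP.trans (PfP.trans (PfP.trans (PfP.trans (PfP.trans (PfP.trans (PfP.trans (PfP.trans (PfP.trans (PfP.trans (PfP.trans (PfP.trans (PfP.trans (PfP.trans (PfP.trans (PfP.trans (PfP.trans (PfP.trans (PfP.trans (PfP.trans (PfP.trans (PfP.trans (PfP.trans (PfP.trans (PfP.trans (PfP.trans (PfP.trans (PfP.trans (PfP.trans (PfP.trans (PfP.trans (PfP.trans (PfP.trans (PfP.trans (PfP.trans (PfP.trans (PfP.trans (PfP.trans (PfP.trans (PfP.trans (PfP.trans (pfC_sound p15_25_3_0) (pfC_sound p15_25_3_1)) (pfC_sound p15_25_3_2)) (pfC_sound p15_25_3_3)) (pfC_sound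
 p15_25_3_4)) (pfC_sound p15_25_3_5)) (pfC_sound p15_25_3_6)) (pfC_sound p15_25_3_7)) (pfC_sound p15_25_3_8)) (pfC_sound p15_25_3_9)) (pfC_sound p15_25_3_10)) (pfC_sound p15_25_3_11)) (pfC_sound p15_25_3_12)) (pfC_sound p15_25_3_13)) (pfC_sound p15_25_3_14)) (pfC_sound p15_25_3_15)) (pfC_sound p15_25_3_16)) (pfC_sound p15_25_3_17)) (pfC_sound p15_25_3_18)) (pfC_sound p15_25_3_19)) (pfC_sound p15_25_3_20)) (pfC_sound p15_25_3_21)) (pfC_sound p15_25_3_22)) (pfC_sound p15_25_3_23)) (pfC_sound p15_25_3_24)) (pfC_sound p15_25_3_25)) (pfC_sound p15_25_3_26)) (pfC_sound p15_25_3_27)) (pfC_sound p15_25_3_28)) (pfC_sound p15_25_3_29)) (pfC_sound p15_25_3_30)) (pfC_sound p15_25_3_31)) (pfC_sound p15_25_3_32)) (pfC_sound p15_25_3_33)) (pfC_sound p15_25_3_34)) (pfC_sound p15_25_3_35)) (pfC_sound p15_25_3_36)) (pfC_sound p15_25_3_37)) (pfC_sound p15_25_3_38)) (pfC_sound p15_25_3_39)) (pfC_sound p15_25_3_40)) (pfC_sound p15_25_3_41)) (pfC_sound p15_25_3_42)) (pfC_sound p15_25_3_43))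 (pfC_sound p15_25_3_44)) (pfC_sound p15_25_3_45)) (pfC_sound p15_25_3_46)) (pfC_sound p15_25_3_47)) (pfC_sound p15_25_3_48)) (pfC_sound p15_25_3_49)) (pfC_sound p15_25_3_50)) (pfC_sound p15_25_3_51)) (pfC_sound
 p15_25_3_52)) (pfC_sound p15_25_3_53)) (pfC_sound p15_25_3_54)) (pfC_sound p15_25_3_55)) (pfC_sound p15_25_3_56)) (pfC_sound p15_25_3_57)) (pfC_sound p15_25_3_58)) (pfC_sound p15_25_3_59)) (pfC_sound p15_25_3_60)) (pfC_sound p15_25_3_61)) (pfC_sound p15_25_3_62)) (pfC_sound p15_25_3_63)) (pfC_sound p15_25_3_64)) (pfC_sound p15_25_3_65)) (pfC_sound p15_25_3_66)) (pfC_sound p15_25_3_67)) (pfC_sound p15_25_3_68)) (pfC_sound p15_25_3_69)) (pfC_sound p15_25_3_70)) (pfC_sound p15_25_3_71)) (pfC_sound p15_25_3_72)) (pfC_sound p15_25_3_73)) (pfC_sound p15_25_3_74)) (pfC_sound p15_25_3_75)) (pfC_sound p15_25_3_76)) (pfC_sound p15_25_3_77)) (pfC_sound p15_25_3_78)) (pfC_sound p15_25_3_79)) (pfC_sound p15_25_3_80)) (pfC_sound p15_25_3_81)) (pfC_sound p15_25_3_82)) (pfC_sound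 p15_25_3_83)) (pfC_sound p15_25_3_84)) (pfC_sound p15_25_3_85)) (pfC_sound p15_25_3_86)) (pfC_sound p15_25_3_87)) (pfC_sound p15_25_3_88)) (pfC_sound p15_25_3_89)) (pfC_sound p15_25_3_90)) (pfC_sound p15_25_3_91)) (pfC_sound p15_25_3_92)) (pfC_sound p15_25_3_93)) (pfC_sound p15_25_3_94)) (pfC_sound p15_25_3_95)) (pfC_sound p15_25_3_96)) (pfC_sound p15_25_3_97)) (pfC_sound p15_25_3_98)) (pfC_sound p15_25_3_99)) (pfC_sound
 p15_25_3_100)) (pfC_sound p15_25_3_101)) (pfC_sound p15_25_3_102)) (pfC_sound p15_25_3_103)) (pfC_sound p15_25_3_104)) (pfC_sound p15_25_3_105)) (pfC_sound p15_25_3_106)) (pfC_sound p15_25_3_107)) (pfC_sound p15_25_3_108)) (pfC_sound p15_25_3_109)) (pfC_sound p15_25_3_110)) (pfC_sound p15_25_3_111)) (pfC_sound p15_25_3_112)) (pfC_sound p15_25_3_113)) (pfC_sound p15_25_3_114)) (pfC_sound p15_25_3_115)) (pfC_sound p15_25_3_116)) (pfC_sound p15_25_3_117)) (pfC_sound p15_25_3_118)) (pfC_sound p15_25_3_119)) (pfC_sound p15_25_3_120)) (pfC_sound p15_25_3_121))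 (pfC_sound p15_25_3_122)) (pfC_sound p15_25_3_123)) (pfC_sound p15_25_3_124)) (pfC_sound p15_25_3_125)) (pfC_sound p15_25_3_126)) (pfC_sound p15_25_3_127)) (pfC_sound p15_25_3_128)) (pfC_sound p15_25_3_129)) (pfC_sound p15_25_3_130)) (pfC_sound p15_25_3_131)) (pfC_sound p15_25_3_132)) (pfC_sound p15_25_3_133)) (pfC_sound p15_25_3_134)) (pfC_sound p15_25_3_135)) (pfC_sound p15_25_3_136)) (pfC_sound p15_25_3_137)) (pfC_sound p15_25_3_138)) (pfC_sound p15_25_3_139)) (pfC_sound p15_25_3_140)) (pfC_sound p15_25_3_141)) (pfC_sound p15_25_3_142)) (pfC_sound p15_25_3_143)) (pfC_sound p15_25_3_144)) (pfC_sound p15_25_3_145)) (pfC_sound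
 p15_25_3_146)) (pfC_sound p15_25_3_147)) (pfC_sound p15_25_3_148)) (pfC_sound p15_25_3_149)) (pfC_sound p15_25_3_150)) (pfC_sound p15_25_3_151)) (pfC_sound p15_25_3_152)) (pfC_sound p15_25_3_153)) (pfC_sound p15_25_3_154)) (pfC_sound p15_25_3_155)) (pfC_sound p15_25_3_156)) (pfC_sound p15_25_3_157)) (pfC_sound p15_25_3_158)) (pfC_sound p15_25_3_159)) (pfC_sound p15_25_3_160)) (pfC_sound p15_25_3_161)) (pfC_sound p15_25_3_162)) (pfC_sound p15_25_3_163)) (pfC_sound p15_25_3_164)) (pfC_sound p15_25_3_165)) (pfC_sound p15_25_3_166)) (pfC_sound p15_25_3_167)) (pfC_sound p15_25_3_168)) (pfC_sound p15_25_3_169)) (pfC_sound p15_25_3_170)) (pfC_sound p15_25_3_171)) (pfC_sound p15_25_3_172)) (pfC_sound p15_25_3_173)) (pfC_sound p15_25_3_174)) (pfC_sound p15_25_3_175)) (pfC_sound p15_25_3_176)) (pfC_sound p15_25_3_177)) (pfC_sound p15_25_3_178)) (pfC_sound p15_25_3_179)) (pfC_sound p15_25_3_180)) (pfC_sound p15_25_3_181)) (pfC_sound p15_25_3_182)) (pfC_sound p15_25_3_183)) (pfC_sound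 p15_25_3_184)) (pfC_sound p15_25_3_185)) (pfC_sound p15_25_3_186)) (pfC_sound p15_25_3_187)) (pfC_sound p15_25_3_188)) (pfC_sound p15_25_3_189)) (pfC_sound p15_25_3_190)) (pfC_sound p15_25_3_191)) (pfC_sound
 p15_25_3_192)) (pfC_sound p15_25_3_193)) (pfC_sound p15_25_3_194)) (pfC_sound p15_25_3_195)) (pfC_sound p15_25_3_196)) (pfC_sound p15_25_3_197)) (pfC_sound p15_25_3_198)) (pfC_sound p15_25_3_199)) (pfC_sound p15_25_3_200)) (pfC_sound p15_25_3_201)) (pfC_sound p15_25_3_202)) (pfC_sound p15_25_3_203)) (pfC_sound p15_25_3_204)) (pfC_sound p15_25_3_205)) (pfC_sound p15_25_3_206)) (pfC_sound p15_25_3_207)) (pfC_sound p15_25_3_208)) (by decide +kernel)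

def z15_25_3 : zOK yB15_25 (nat_lit 3) (nat_lit 750) (nat_lit 832) (nat_lit 4959372) (nat_lit 4231202) = true := by decide +kernel
def g15_25_3 : gOK yB15_25.x P15_25 (nat_lit 1413) (q15_25 :: r15_25) (nat_lit 3) (nat_lit 750) (nat_lit 4) (nat_lit 832) (nat_lit 12712500) (nat_lit 12712500) (nat_lit 12712500) (nat_lit 12712500) [(nat_lit 800)] = true := by decide +kernel
def v15_25_3 : ivC P15_25 s15_25 w15_25 n15_25 (nat_lit 4) (nat_lit 4620) (nat_lit 3) (nat_lit 750) f160_1_750 f168_1_750 (nat_lit 4) (nat_lit 832) f160_1_832 f168_1_832 (nat_lit 4959372) (nat_lit 4231202) p15_25_3 = true := by decide +kernel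
end CB
end Pool.Agent.Lib.MP_6947cd_al
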