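import Pool.Agent.Lib.MP_6947cd_al.L.BoxDataB
import Pool.Agent.Lib.MP_6947cd_al.L.TeD5
import Pool.Agent.Lib.MP_6947cd_al.L.TeD6

/-!
Problem MP_6947cd_al (Chollet).  CASE B, rows `j`: boxes (generated).
-/

set_option autoImplicit false
set_option linter.defProp false
set_option maxRecDepth 20000

namespace Pool.Agent.Lib.MP_6947cd_al
namespace CB

open Ent Ent.Pk Fr Fr.WT CA

/-! box `yB12_15` -/

def P12_15 : BQ := ⟨(nat_lit 8), (nat_lit 8), (nat_lit 0), (nat_lit 4), (nat_lit 4), (nat_lit 840), (nat_lit 860), (nat_lit 120), [(nat_lit 200), (nat_lit 300), (nat_lit 450), (nat_lit 800)], (nat_lit 121824000), (nat_lit 16000000), (nat_lit 16000000000)⟩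
def q12_15 : PC := ⟨(nat_lit 1000), [(nat_lit 120000), (nat_lit 200000), (nat_lit 300000), (nat_lit 450000), (nat_lit 800000)], (nat_lit 340282367000166625996085689103316680705000000), (nat_lit 15878176000000), (nat_lit 15878176000000), (nat_lit 10000000)⟩
def r12_15 : List PC := [⟨(nat_lit 1338), [(nat_lit 120684), (nat_lit 201081), (nat_lit 301269), (nat_lit 451679), (nat_lit 801328)], (nat_lit 238197656924319257287759019961764013799328514), (nat_lit 16347458364800), (nat_lit 16359151434240), (nat_lit 10057000)⟩]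
def s12_15 : List PB := [⟨(nat_lit 26760), (nat_lit 1930944000000), [(nat_lit 201081), (nat_lit 301269), (nat_lit 451679), (nat_lit 801328)], (nat_lit 238197656924319257287759019961764013799328514), (nat_lit 1142247365207424), (nat_lit 1142259058276864), (nat_lit 54080)⟩]
def n12_15 : List KN := [⟨(nat_lit 800), (nat_lit 450), (nat_lit 12310016), (nat_lit 6124894)⟩, ⟨(nat_lit 450), (nat_lit 300), (nat_lit 18263511), (nat_lit 12310016)⟩, ⟨(nat_lit 300), (nat_lit 200), (nat_lit 24534081), (nat_lit 18263511)⟩, ⟨(nat_lit 200), (nat_lit 120), (nat_lit 36888796), (nat_lit 24534081)⟩]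
def w12_15 : List ℕ := [(nat_lit 54080)]
def par12_15 : parC yB12_15 P12_15 s12_15 r12_15 q12_15 n12_15 w12_15 = true := by decide +kernel

def p12_15_0 : PF := (PF.cons (PF.cons (PF.cons (PF.cons (PF.leaf (nat_lit 642477) (nat_lit 1893842) (nat_lit 65214970) (nat_lit 1893842) [(nat_lit 0), (nat_lit 0), (nat_lit 0), (nat_lit 0)]) (PF.cons (PF.leaf (nat_lit 814063) (nat_lit 277203) (nat_lit 64866009) (nat_lit 1965599) [(nat_lit 277203), (nat_lit 0), (nat_lit 0), (nat_lit 0)]) (PF.cons (PF.leaf (nat_lit 1023062) (nat_lit 308684) (nat_lit 64448270) (nat_lit 2043174) [(nat_lit 308684), (nat_lit 0), (nat_lit 0), (nat_lit 0)]) (PF.cons (PF.leaf (nat_lit 1264069) (nat_lit 338423) (nat_lit 63970443) (nat_lit 2123097) [(nat_lit 338423), (nat_lit 0), (nat_lit 0), (nat_lit 0)]) (PF.cons (PF.leaf (nat_lit 1534176) (nat_lit 366667) (nat_lit 63439009) (nat_lit 2203133) [(nat_lit 366667), (nat_lit 0), (nat_lit 0), (nat_lit 0)]) (PF.cons (PF.leaf (nat_lit 1830963) (nat_lit 393522)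 (nat_lit 62859418) (nat_lit 2281781) [(nat_lit 393522), (nat_lit 0), (nat_lit 0), (nat_lit 0)]) (PF.cons (PF.leaf (nat_lit 2152100) (nat_lit 419036) (nat_lit 62236584) (nat_lit 2358010) [(nat_lit 419036), (nat_lit 0), (nat_lit 0), (nat_lit 0)]) (PF.cons (PF.leaf (nat_lit 2495410) (nat_lit 443229) (nat_lit 61575099) (nat_lit 2431103) [(nat_lit 443229), (nat_lit 0), (nat_lit 0),
 (nat_lit 0)]) (PF.cons (PF.leaf (nat_lit 2858776) (nat_lit 466114) (nat_lit 60879325) (nat_lit 2500567) [(nat_lit 466114), (nat_lit 0), (nat_lit 0), (nat_lit 0)]) (PF.cons (PF.leaf (nat_lit 3240193) (nat_lit 487700) (nat_lit 60153438) (nat_lit 2566070) [(nat_lit 487700), (nat_lit 0), (nat_lit 0), (nat_lit 0)]) (PF.cons (PF.leaf (nat_lit 3637603) (nat_lit 507997) (nat_lit 59401431) (nat_lit 2627402) [(nat_lit 507997), (nat_lit 0), (nat_lit 0), (nat_lit 0)]) (PF.cons PF.nil (PF.cons PF.nil (PF.cons PF.nil PF.nil)))))))))))))) (PF.cons (PF.cons (PF.leaf (nat_lit 1211822) (nat_lit 1222913) (nat_lit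 63747101) (nat_lit 2138797) [(nat_lit 0), (nat_lit 1222913), (nat_lit 0), (nat_lit 0)]) (PF.cons (PF.leaf (nat_lit 1449226) (nat_lit 355923) (nat_lit 63264096) (nat_lit 2209980) [(nat_lit 355923), (nat_lit 1278812), (nat_lit 0), (nat_lit 0)]) (PF.cons (PF.leaf (nat_lit 1717572) (nat_lit 383193) (nat_lit 62725431) (nat_lit 2282208) [(nat_lit 383193), (nat_lit 1334785), (nat_lit 0), (nat_lit 0)]) (PF.cons (PF.leaf (nat_lit 2012839) (nat_lit 409015) (nat_lit 62138310) (nat_lit 2353732) [(nat_lit 409015), (nat_lit 1389722), (nat_lit 0), (nat_lit 0)]) (PF.cons (PF.leaf (nat_lit 2332351) (nat_lit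
 433479) (nat_lit 61508592) (nat_lit 2423383) [(nat_lit 433479), (nat_lit 1442920), (nat_lit 0), (nat_lit 0)]) (PF.cons (PF.leaf (nat_lit 2673712) (nat_lit 456626) (nat_lit 60841396) (nat_lit 2490358) [(nat_lit 456626), (nat_lit 1493925), (nat_lit 0), (nat_lit 0)]) (PF.cons (PF.leaf (nat_lit 3034695) (nat_lit 478482) (nat_lit 60141378) (nat_lit 2554107) [(nat_lit 478482), (nat_lit 1542433), (nat_lit 0), (nat_lit 0)]) (PF.cons (PF.leaf (nat_lit 3413171) (nat_lit 499063) (nat_lit 59412858) (nat_lit 2614259) [(nat_lit 499063), (nat_lit 1588250), (nat_lit 0), (nat_lit 0)]) (PF.cons (PF.leaf (nat_lit 3807202) (nat_lit 518387) (nat_lit 58659884) (nat_lit 2670574) [(nat_lit 518387), (nat_lit 1631256), (nat_lit 0), (nat_lit 0)]) (PF.cons PF.nil (PF.cons PF.nil (PF.cons PF.nil PF.nil)))))))))))) (PF.cons (PF.cons (PF.leaf (nat_lit 1905966) (nat_lit 1386082) (nat_lit 61980710) (nat_lit 2355938) [(nat_lit 0), (nat_lit 1386082), (nat_lit 0), (nat_lit 0)]) (PF.cons (PF.leaf (nat_lit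 2196871) (nat_lit 422972) (nat_lit 61392866) (nat_lit 2420540) [(nat_lit 422972), (nat_lit 1436216), (nat_lit 0), (nat_lit 0)]) (PF.cons (PF.leaf (nat_lit 2513066) (nat_lit 446554) (nat_lit 60761624) (nat_lit
 2483876) [(nat_lit 446554), (nat_lit 1485101), (nat_lit 0), (nat_lit 0)]) (PF.cons (PF.leaf (nat_lit 2851178) (nat_lit 468788) (nat_lit 60093108) (nat_lit 2545018) [(nat_lit 468788), (nat_lit 1532160), (nat_lit 0), (nat_lit 0)]) (PF.cons (PF.leaf (nat_lit 3208745) (nat_lit 489723) (nat_lit 59392534) (nat_lit 2603340) [(nat_lit 489723), (nat_lit 1577022), (nat_lit 0), (nat_lit 0)]) (PF.cons (PF.leaf (nat_lit 3583562) (nat_lit 509392) (nat_lit 58664532) (nat_lit 2658423) [(nat_lit 509392), (nat_lit 1619446), (nat_lit 0), (nat_lit 0)]) (PF.cons (PF.leaf (nat_lit 3973552) (nat_lit 527823) (nat_lit 57913307) (nat_lit 2709994) [(nat_lit 527823), (nat_lit 1659284), (nat_lit 0), (nat_lit 0)]) (PF.cons (PF.leaf (nat_lit 4376786) (nat_lit 545041) (nat_lit 57142723) (nat_lit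 2757888) [(nat_lit 545041), (nat_lit 1696454), (nat_lit 0), (nat_lit 0)]) (PF.cons PF.nil (PF.cons PF.nil PF.nil)))))))))) (PF.cons (PF.cons (PF.leaf (nat_lit 2695815) (nat_lit 1524384) (nat_lit 59995723) (nat_lit 2539936) [(nat_lit 0), (nat_lit 1524384), (nat_lit 0), (nat_lit 0)]) (PF.cons (PF.leaf (nat_lit 3028690) (nat_lit 479737) (nat_lit 59330733) (nat_lit 2595453) [(nat_lit 479737), (nat_lit 1567629), (nat_lit 0),
 (nat_lit 0)]) (PF.cons (PF.leaf (nat_lit 3381685) (nat_lit 499866) (nat_lit 58633513) (nat_lit 2648583) [(nat_lit 499866), (nat_lit 1608993), (nat_lit 0), (nat_lit 0)]) (PF.cons (PF.leaf (nat_lit 3751915) (nat_lit 518720) (nat_lit 57909268) (nat_lit 2698840) [(nat_lit 518720), (nat_lit 1648180), (nat_lit 0), (nat_lit 0)]) (PF.cons (PF.leaf (nat_lit 4137185) (nat_lit 536341) (nat_lit 57162520) (nat_lit 2745910) [(nat_lit 536341), (nat_lit 1685006), (nat_lit 0), (nat_lit 0)]) (PF.cons (PF.leaf (nat_lit 4535493) (nat_lit 552764) (nat_lit 56397300) (nat_lit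 2789599) [(nat_lit 552764), (nat_lit 1719363), (nat_lit 0), (nat_lit 0)]) (PF.cons (PF.leaf (nat_lit 4945004) (nat_lit 568026) (nat_lit 55617247) (nat_lit 2829803) [(nat_lit 568026), (nat_lit 1751201), (nat_lit 0), (nat_lit 0)]) (PF.cons PF.nil (PF.cons PF.nil PF.nil))))))))) (PF.cons (PF.cons (PF.leaf (nat_lit 3554722) (nat_lit 1638547) (nat_lit 57864493) (nat_lit 2690129) [(nat_lit 0), (nat_lit 1638547), (nat_lit 0), (nat_lit 0)]) (PF.cons (PF.leaf (nat_lit 3918959) (nat_lit 527064) (nat_lit 57147482) (nat_lit 2735767) [(nat_lit 527064), (nat_lit 1674624), (nat_lit 0), (nat_lit 0)]) (PF.cons (PF.leaf (nat_lit 4298699) (nat_lit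
 543962) (nat_lit 56408048) (nat_lit 2778551) [(nat_lit 543962), (nat_lit 1708571), (nat_lit 0), (nat_lit 0)]) (PF.cons (PF.leaf (nat_lit 4691471) (nat_lit 559667) (nat_lit 55650547) (nat_lit 2818251) [(nat_lit 559667), (nat_lit 1740252), (nat_lit 0), (nat_lit 0)]) (PF.cons (PF.leaf (nat_lit 5095352) (nat_lit 574224) (nat_lit 54878791) (nat_lit 2854736) [(nat_lit 574224), (nat_lit 1769596), (nat_lit 0), (nat_lit 0)]) (PF.cons PF.nil (PF.cons PF.nil PF.nil))))))) (PF.cons (PF.cons (PF.leaf (nat_lit 4459091) (nat_lit 1730123) (nat_lit 55650062) (nat_lit 2808131) [(nat_lit 0), (nat_lit 1730123), (nat_lit 0), (nat_lit 0)]) (PF.cons (PF.leaf (nat_lit 4845317) (nat_lit 565767) (nat_lit 54902757) (nat_lit 2844037) [(nat_lit 565767), (nat_lit 1759250), (nat_lit 0), (nat_lit 0)]) (PF.cons (PF.leaf (nat_lit 5243028) (nat_lit 579690) (nat_lit 54141322) (nat_lit 2876999) [(nat_lit 579690), (nat_lit 1786221), (nat_lit 0), (nat_lit 0)]) (PF.cons (PF.leaf (nat_lit 5650142) (nat_lit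 592519) (nat_lit 53369324) (nat_lit 2906939) [(nat_lit 592519), (nat_lit 1810998), (nat_lit 0), (nat_lit 0)]) (PF.cons PF.nil PF.nil))))) (PF.cons (PF.cons (PF.leaf (nat_lit 5388880) (nat_lit 1801187) (nat_lit
 53404934) (nat_lit 2896756) [(nat_lit 0), (nat_lit 1801187), (nat_lit 0), (nat_lit 0)]) (PF.cons (PF.leaf (nat_lit 5789110) (nat_lit 596709) (nat_lit 52645295) (nat_lit 2923597) [(nat_lit 596709), (nat_lit 1823868), (nat_lit 0), (nat_lit 0)]) (PF.cons PF.nil (PF.cons PF.nil PF.nil)))) (PF.cons (PF.cons (PF.leaf (nat_lit 6327730) (nat_lit 1854074) (nat_lit 51170910) (nat_lit 2959379) [(nat_lit 0), (nat_lit 1854074), (nat_lit 0), (nat_lit 0)]) (PF.cons PF.nil PF.nil)) (PF.cons PF.nil (PF.cons PF.nil (PF.cons PF.nil PF.nil))))))))))) (PF.cons (PF.cons (PF.cons (PF.leaf (nat_lit 1846095) (nat_lit 2356411) (nat_lit 61356798) (nat_lit 2356411) [(nat_lit 0), (nat_lit 0), (nat_lit 3395602), (nat_lit 0)]) (PF.cons (PF.leaf (nat_lit 2104749) (nat_lit 403574) (nat_lit 60829673)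 (nat_lit 2414827) [(nat_lit 403574), (nat_lit 0), (nat_lit 3460737), (nat_lit 0)]) (PF.cons (PF.leaf (nat_lit 2392553) (nat_lit 429049) (nat_lit 60250549) (nat_lit 2473586) [(nat_lit 429049), (nat_lit 0), (nat_lit 3526577), (nat_lit 0)]) (PF.cons (PF.leaf (nat_lit 2705039) (nat_lit 452692) (nat_lit 59628020) (nat_lit 2531295) [(nat_lit 452692), (nat_lit 0), (nat_lit 3591418), (nat_lit 0)]) (PF.cons (PF.leaf (nat_lit
 3039171) (nat_lit 474730) (nat_lit 58968755) (nat_lit 2587038) [(nat_lit 474730), (nat_lit 0), (nat_lit 3654098), (nat_lit 0)]) (PF.cons (PF.leaf (nat_lit 3392425) (nat_lit 495298) (nat_lit 58278309) (nat_lit 2640199) [(nat_lit 495298), (nat_lit 0), (nat_lit 3713810), (nat_lit 0)]) (PF.cons (PF.leaf (nat_lit 3762467) (nat_lit 514489) (nat_lit 57561507) (nat_lit 2690367) [(nat_lit 514489), (nat_lit 0), (nat_lit 3770000), (nat_lit 0)]) (PF.cons (PF.leaf (nat_lit 4147237) (nat_lit 532370) (nat_lit 56822645) (nat_lit 2737276) [(nat_lit 532370), (nat_lit 0),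 (nat_lit 3822296), (nat_lit 0)]) (PF.cons (PF.leaf (nat_lit 4544835) (nat_lit 548996) (nat_lit 56065611) (nat_lit 2780764) [(nat_lit 548996), (nat_lit 0), (nat_lit 3870461), (nat_lit 0)]) (PF.cons PF.nil (PF.cons PF.nil (PF.cons PF.nil PF.nil)))))))))))) (PF.cons (PF.cons (PF.leaf (nat_lit 2577220) (nat_lit 1507458) (nat_lit 59478753) (nat_lit 2529697) [(nat_lit 0), (nat_lit 1507458), (nat_lit 3592902), (nat_lit 0)]) (PF.cons (PF.leaf (nat_lit 2883023) (nat_lit 463144) (nat_lit 58863512) (nat_lit 2581707) [(nat_lit 463144), (nat_lit 1549517), (nat_lit 3650931), (nat_lit 0)]) (PF.cons (PF.leaf (nat_lit 3211785) (nat_lit 484515)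
 (nat_lit 58210056) (nat_lit 2632258) [(nat_lit 484515), (nat_lit 1590144), (nat_lit 3707320), (nat_lit 0)]) (PF.cons (PF.leaf (nat_lit 3560004) (nat_lit 504367) (nat_lit 57525003) (nat_lit 2680631) [(nat_lit 504367), (nat_lit 1628907), (nat_lit 3761167), (nat_lit 0)]) (PF.cons (PF.leaf (nat_lit 3925135) (nat_lit 522823) (nat_lit 56813767) (nat_lit 2726350) [(nat_lit 522823), (nat_lit 1665539), (nat_lit 3811863), (nat_lit 0)]) (PF.cons (PF.leaf (nat_lit 4304949) (nat_lit 539967) (nat_lit 56080978) (nat_lit 2769110) [(nat_lit 539967), (nat_lit 1699880), (nat_lit 3859005), (nat_lit 0)]) (PF.cons (PF.leaf (nat_lit 4697451) (nat_lit 555868) (nat_lit 55330702) (nat_lit 2808722) [(nat_lit 555868), (nat_lit 1731840), (nat_lit 3902336), (nat_lit 0)]) (PF.cons (PF.leaf (nat_lit 5100810) (nat_lit 570581) (nat_lit 54566559) (nat_lit 2845086) [(nat_lit 570581), (nat_lit 1761384), (nat_lit 3941710), (nat_lit 0)]) (PF.cons PF.nil (PF.cons PF.nil PF.nil)))))))))) (PF.cons (PF.cons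 (PF.leaf (nat_lit 3386194) (nat_lit 1620056) (nat_lit 57438807) (nat_lit 2673931) [(nat_lit 0), (nat_lit 1620056), (nat_lit 3755960), (nat_lit 0)]) (PF.cons (PF.leaf (nat_lit 3727584) (nat_lit 512383) (nat_lit 56763324)
 (nat_lit 2717676) [(nat_lit 512383), (nat_lit 1655638), (nat_lit 3804151), (nat_lit 0)]) (PF.cons (PF.leaf (nat_lit 4086740) (nat_lit 530213) (nat_lit 56060933) (nat_lit 2759133) [(nat_lit 530213), (nat_lit 1689361), (nat_lit 3849595), (nat_lit 0)]) (PF.cons (PF.leaf (nat_lit 4460806) (nat_lit 546711) (nat_lit 55336865) (nat_lit 2797940) [(nat_lit 546711), (nat_lit 1721017), (nat_lit 3891838), (nat_lit 0)]) (PF.cons (PF.leaf (nat_lit 4847623) (nat_lit 561962) (nat_lit 54595523) (nat_lit 2833874) [(nat_lit 561962), (nat_lit 1750486), (nat_lit 3930591), (nat_lit 0)]) (PF.cons (PF.leaf (nat_lit 5245270) (nat_lit 576035) (nat_lit 53840718) (nat_lit 2866810) [(nat_lit 576035), (nat_lit 1777710), (nat_lit 3965687), (nat_lit 0)]) (PF.cons PF.nil (PF.cons PF.nil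 (PF.cons PF.nil PF.nil))))))))) (PF.cons (PF.cons (PF.leaf (nat_lit 4248483) (nat_lit 1711214) (nat_lit 55302776) (nat_lit 2788932) [(nat_lit 0), (nat_lit 1711214), (nat_lit 3883459), (nat_lit 0)]) (PF.cons (PF.leaf (nat_lit 4615521) (nat_lit 552607) (nat_lit 54590338) (nat_lit 2823958) [(nat_lit 552607), (nat_lit 1740292), (nat_lit 3921033), (nat_lit 0)]) (PF.cons (PF.leaf (nat_lit 4995932) (nat_lit 567292) (nat_lit 53860243)
 (nat_lit 2856393) [(nat_lit 567292), (nat_lit 1767382), (nat_lit 3955445), (nat_lit 0)]) (PF.cons (PF.leaf (nat_lit 5387333) (nat_lit 580794) (nat_lit 53116645) (nat_lit 2886080) [(nat_lit 580794), (nat_lit 1792400), (nat_lit 3986500), (nat_lit 0)]) (PF.cons (PF.leaf (nat_lit 5787933) (nat_lit 593183) (nat_lit 52363087) (nat_lit 2912943) [(nat_lit 593183), (nat_lit 1815316), (nat_lit 4014098), (nat_lit 0)]) (PF.cons PF.nil (PF.cons PF.nil PF.nil))))))) (PF.cons (PF.cons (PF.leaf (nat_lit 5143349) (nat_lit 1782638) (nat_lit 53124713) (nat_lit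 2876442) [(nat_lit 0), (nat_lit 1782638), (nat_lit 3977104), (nat_lit 0)]) (PF.cons (PF.leaf (nat_lit 5527610) (nat_lit 584868) (nat_lit 52394337) (nat_lit 2903046) [(nat_lit 584868), (nat_lit 1805555), (nat_lit 4004339), (nat_lit 0)]) (PF.cons (PF.leaf (nat_lit 5921556) (nat_lit 596759) (nat_lit 51653744) (nat_lit 2927054) [(nat_lit 596759), (nat_lit 1826525), (nat_lit 4028392), (nat_lit 0)]) (PF.cons (PF.leaf (nat_lit 6323233) (nat_lit 607603) (nat_lit 50906207) (nat_lit 2948427) [(nat_lit 607603), (nat_lit 1845537), (nat_lit 4049216), (nat_lit 0)]) (PF.cons PF.nil PF.nil))))) (PF.cons (PF.cons (PF.leaf (nat_lit 6053727) (nat_lit 1836388)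
 (nat_lit 50947625) (nat_lit 2939151) [(nat_lit 0), (nat_lit 1836388), (nat_lit 4040091), (nat_lit 0)]) (PF.cons (PF.leaf (nat_lit 6448253) (nat_lit 610134) (nat_lit 50214366) (nat_lit 2958027) [(nat_lit 610134), (nat_lit 1853691), (nat_lit 4057825), (nat_lit 0)]) (PF.cons PF.nil (PF.cons PF.nil PF.nil)))) (PF.cons (PF.cons (PF.leaf (nat_lit 6966042) (nat_lit 1874664) (nat_lit 48804439) (nat_lit 2980137) [(nat_lit 0), (nat_lit 1874664), (nat_lit 4076248), (nat_lit 0)]) (PF.cons PF.nil PF.nil)) (PF.cons PF.nil (PF.cons PF.nil PF.nil))))))))) (PF.cons (PF.cons (PF.cons (PF.leaf (nat_lit 3241067) (nat_lit 2658401) (nat_lit 56962263) (nat_lit 2658401) [(nat_lit 0), (nat_lit 0), (nat_lit 3744073), (nat_lit 0)]) (PF.cons (PF.leaf (nat_lit 3556502) (nat_lit 494986) (nat_lit 56336539) (nat_lit 2699869) [(nat_lit 494986), (nat_lit 0), (nat_lit 3788708), (nat_lit 0)]) (PF.cons (PF.leaf (nat_lit 3892813) (nat_lit 514313) (nat_lit 55677356) (nat_lit 2739756) [(nat_lit 514313),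 (nat_lit 0), (nat_lit 3831536), (nat_lit 0)]) (PF.cons (PF.leaf (nat_lit 4246427) (nat_lit 532011) (nat_lit 54991513) (nat_lit 2777512) [(nat_lit 532011), (nat_lit 0), (nat_lit 3871876), (nat_lit 0)]) (PF.cons (PF.leaf
 (nat_lit 4614773) (nat_lit 548259) (nat_lit 54284416) (nat_lit 2812788) [(nat_lit 548259), (nat_lit 0), (nat_lit 3909285), (nat_lit 0)]) (PF.cons (PF.leaf (nat_lit 4995657) (nat_lit 563184) (nat_lit 53560557) (nat_lit 2845370) [(nat_lit 563184), (nat_lit 0), (nat_lit 3943482), (nat_lit 0)]) (PF.cons (PF.leaf (nat_lit 5387151) (nat_lit 576882) (nat_lit 52823772) (nat_lit 2875139) [(nat_lit 576882), (nat_lit 0), (nat_lit 3974301), (nat_lit 0)]) (PF.cons PF.nil (PF.cons PF.nil PF.nil))))))))) (PF.cons (PF.cons (PF.leaf (nat_lit 4057469) (nat_lit 1691305) (nat_lit 54916879) (nat_lit 2769887) [(nat_lit 0), (nat_lit 1691305), (nat_lit 3865370), (nat_lit 0)]) (PF.cons (PF.leaf (nat_lit 4403128) (nat_lit 537604) (nat_lit 54244822) (nat_lit 2803830) [(nat_lit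 537604), (nat_lit 1720369), (nat_lit 3901092), (nat_lit 0)]) (PF.cons (PF.leaf (nat_lit 4764536) (nat_lit 553384) (nat_lit 53550355) (nat_lit 2835604) [(nat_lit 553384), (nat_lit 1747630), (nat_lit 3934227), (nat_lit 0)]) (PF.cons (PF.leaf (nat_lit 5138880) (nat_lit 567808) (nat_lit 52838590) (nat_lit 2864949) [(nat_lit 567808), (nat_lit 1772948), (nat_lit 3964449), (nat_lit 0)]) (PF.cons (PF.leaf (nat_lit 5524054) (nat_lit 580996)
 (nat_lit 52113719) (nat_lit 2891716) [(nat_lit 580996), (nat_lit 1796256), (nat_lit 3991567), (nat_lit 0)]) (PF.cons (PF.leaf (nat_lit 5918270) (nat_lit 593038) (nat_lit 51379286) (nat_lit 2915832) [(nat_lit 593038), (nat_lit 1817533), (nat_lit 4015483), (nat_lit 0)]) (PF.cons PF.nil PF.nil))))))) (PF.cons (PF.cons (PF.leaf (nat_lit 4914569) (nat_lit 1763242) (nat_lit 52814273) (nat_lit 2855994) [(nat_lit 0), (nat_lit 1763242), (nat_lit 3956030), (nat_lit 0)]) (PF.cons (PF.leaf (nat_lit 5281198) (nat_lit 571696) (nat_lit 52117044) (nat_lit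 2882251) [(nat_lit 571696), (nat_lit 1786429), (nat_lit 3982480), (nat_lit 0)]) (PF.cons (PF.leaf (nat_lit 5659431) (nat_lit 584452) (nat_lit 51405978) (nat_lit 2906169) [(nat_lit 584452), (nat_lit 1807777), (nat_lit 4006101), (nat_lit 0)]) (PF.cons (PF.leaf (nat_lit 6046983) (nat_lit 596052) (nat_lit 50684974) (nat_lit 2927648) [(nat_lit 596052), (nat_lit 1827243), (nat_lit 4026772), (nat_lit 0)]) (PF.cons (PF.leaf (nat_lit 6442153) (nat_lit 606582) (nat_lit 49957287) (nat_lit 2946653) [(nat_lit 606582), (nat_lit 1844824), (nat_lit 4044446), (nat_lit 0)]) PF.nil))))) (PF.cons (PF.cons (PF.leaf (nat_lit 5794197) (nat_lit 1817960) (nat_lit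
 50700181) (nat_lit 2918624) [(nat_lit 0), (nat_lit 1817960), (nat_lit 4018063), (nat_lit 0)]) (PF.cons (PF.leaf (nat_lit 6174262) (nat_lit 598476) (nat_lit 49994253) (nat_lit 2937608) [(nat_lit 598476), (nat_lit 1835704), (nat_lit 4035679), (nat_lit 0)]) (PF.cons (PF.leaf (nat_lit 6562550) (nat_lit 608626) (nat_lit 49281105) (nat_lit 2954309) [(nat_lit 608626), (nat_lit 1851697), (nat_lit 4050526), (nat_lit 0)]) (PF.cons PF.nil PF.nil)))) (PF.cons (PF.cons (PF.leaf (nat_lit 6681861) (nat_lit 1857478) (nat_lit 48609481) (nat_lit 2960347) [(nat_lit 0), (nat_lit 1857478), (nat_lit 4054534), (nat_lit 0)]) (PF.cons (PF.leaf (nat_lit 7069281) (nat_lit 618971) (nat_lit 47907401) (nat_lit 2972753) [(nat_lit 618971), (nat_lit 1870343), (nat_lit 4064156), (nat_lit 0)]) PF.nil)) (PF.cons PF.nil (PF.cons PF.nil (PF.cons PF.nil PF.nil)))))))) (PF.cons (PF.cons (PF.cons (PF.leaf (nat_lit 4705154) (nat_lit 2835403) (nat_lit 52467366) (nat_lit 2835403) [(nat_lit 0), (nat_lit 0), (nat_lit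 3935347), (nat_lit 0)]) (PF.cons (PF.leaf (nat_lit 5051857) (nat_lit 556676) (nat_lit 51808625) (nat_lit 2861172) [(nat_lit 556676), (nat_lit 0), (nat_lit 3960779), (nat_lit 0)]) (PF.cons (PF.leaf (nat_lit
 5412603) (nat_lit 570636) (nat_lit 51131216) (nat_lit 2884912) [(nat_lit 570636), (nat_lit 0), (nat_lit 3983804), (nat_lit 0)]) (PF.cons (PF.leaf (nat_lit 5784623) (nat_lit 583242) (nat_lit 50440038) (nat_lit 2906442) [(nat_lit 583242), (nat_lit 0), (nat_lit 4004201), (nat_lit 0)]) (PF.cons (PF.leaf (nat_lit 6165903) (nat_lit 594638) (nat_lit 49739029) (nat_lit 2925670) [(nat_lit 594638), (nat_lit 0), (nat_lit 4021852), (nat_lit 0)]) (PF.cons (PF.leaf (nat_lit 6554725) (nat_lit 604932) (nat_lit 49031448) (nat_lit 2942564) [(nat_lit 604932), (nat_lit 0), (nat_lit 4036712), (nat_lit 0)]) (PF.cons PF.nil PF.nil))))))) (PF.cons (PF.cons (PF.leaf (nat_lit 5550984) (nat_lit 1798606) (nat_lit 50424373) (nat_lit 2897762) [(nat_lit 0), (nat_lit 1798606), (nat_lit 3996023),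 (nat_lit 0)]) (PF.cons (PF.leaf (nat_lit 5914885) (nat_lit 585488) (nat_lit 49749509) (nat_lit 2916784) [(nat_lit 585488), (nat_lit 1816846), (nat_lit 4013394), (nat_lit 0)]) (PF.cons (PF.leaf (nat_lit 6288901) (nat_lit 596569) (nat_lit 49063827) (nat_lit 2933705) [(nat_lit 596569), (nat_lit 1833395), (nat_lit 4028248), (nat_lit 0)]) (PF.cons (PF.leaf (nat_lit 6670874) (nat_lit 606529) (nat_lit 48370953) (nat_lit
 2948469) [(nat_lit 606529), (nat_lit 1848243), (nat_lit 4040519), (nat_lit 0)]) (PF.cons PF.nil PF.nil))))) (PF.cons (PF.cons (PF.leaf (nat_lit 6411615) (nat_lit 1839498) (nat_lit 48391971) (nat_lit 2940123) [(nat_lit 0), (nat_lit 1839498), (nat_lit 4032573), (nat_lit 0)]) (PF.cons (PF.leaf (nat_lit 6785944) (nat_lit 607616) (nat_lit 47715162) (nat_lit 2952880) [(nat_lit 607616), (nat_lit 1852944), (nat_lit 4042421), (nat_lit 0)]) (PF.cons (PF.leaf (nat_lit 7167300) (nat_lit 616276) (nat_lit 47033398) (nat_lit 2963633) [(nat_lit 616276), (nat_lit 1864819),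 (nat_lit 4049863), (nat_lit 0)]) (PF.cons PF.nil PF.nil)))) (PF.cons (PF.cons (PF.leaf (nat_lit 7274697) (nat_lit 1867346) (nat_lit 46398251) (nat_lit 2964898) [(nat_lit 0), (nat_lit 1867346), (nat_lit 4047874), (nat_lit 0)]) (PF.cons (PF.leaf (nat_lit 7654135) (nat_lit 624107) (nat_lit 45729934) (nat_lit 2972066) [(nat_lit 624107), (nat_lit 1876556), (nat_lit 4051011), (nat_lit 0)]) PF.nil)) (PF.cons PF.nil (PF.cons PF.nil PF.nil)))))) (PF.cons (PF.cons (PF.cons (PF.leaf (nat_lit 6157145) (nat_lit 2919410) (nat_lit 48147969) (nat_lit 2919410) [(nat_lit 0), (nat_lit 0), (nat_lit 4010358), (nat_lit 0)]) (PF.cons (PF.leaf (nat_lit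
 6516645) (nat_lit 594941) (nat_lit 47499988) (nat_lit 2932481) [(nat_lit 594941), (nat_lit 0), (nat_lit 4020350), (nat_lit 0)]) (PF.cons (PF.leaf (nat_lit 6885048) (nat_lit 604571) (nat_lit 46843555) (nat_lit 2943671) [(nat_lit 604571), (nat_lit 0), (nat_lit 4028110), (nat_lit 0)]) (PF.cons (PF.leaf (nat_lit 7260276) (nat_lit 613123) (nat_lit 46182018) (nat_lit 2952960) [(nat_lit 613123), (nat_lit 0), (nat_lit 4033615), (nat_lit 0)]) (PF.cons PF.nil PF.nil))))) (PF.cons (PF.cons (PF.leaf (nat_lit 6996461) (nat_lit 1850022) (nat_lit 46207660) (nat_lit 2945311) [(nat_lit 0), (nat_lit 1850022), (nat_lit 4026454), (nat_lit 0)]) (PF.cons (PF.leaf (nat_lit 7364027) (nat_lit 613132) (nat_lit 45562554) (nat_lit 2952997) [(nat_lit 613132), (nat_lit 1859906), (nat_lit 4030055), (nat_lit 0)]) (PF.cons (PF.leaf (nat_lit 7737654) (nat_lit 620519) (nat_lit 44914183) (nat_lit 2958927) [(nat_lit 620519), (nat_lit 1868382), (nat_lit 4031570), (nat_lit 0)]) (PF.cons PF.nil PF.nil))))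 (PF.cons (PF.cons (PF.leaf (nat_lit 7834129) (nat_lit 1868326) (nat_lit 44315946) (nat_lit 2956452) [(nat_lit 0), (nat_lit 1868326), (nat_lit 4024940), (nat_lit 0)]) (PF.cons PF.nil PF.nil)) (PF.cons PF.nil (PF.cons
 PF.nil PF.nil))))) (PF.cons (PF.cons (PF.cons (PF.leaf (nat_lit 7550167) (nat_lit 2937708) (nat_lit 44149309) (nat_lit 2937708) [(nat_lit 0), (nat_lit 0), (nat_lit 4004359), (nat_lit 0)]) (PF.cons (PF.leaf (nat_lit 7910329) (nat_lit 615719) (nat_lit 43536993) (nat_lit 2941280) [(nat_lit 615719), (nat_lit 0), (nat_lit 4002963), (nat_lit 0)]) (PF.cons PF.nil (PF.cons PF.nil PF.nil)))) (PF.cons (PF.cons (PF.leaf (nat_lit 8362289) (nat_lit 1862308) (nat_lit 42360723) (nat_lit 2937928) [(nat_lit 0), (nat_lit 1862308), (nat_lit 3989570), (nat_lit 0)]) (PF.cons PF.nil PF.nil)) (PF.cons PF.nil PF.nil))) (PF.cons (PF.cons (PF.cons (PF.leaf (nat_lit 8861408) (nat_lit 2911664) (nat_lit 40528259) (nat_lit 2911664) [(nat_lit 0), (nat_lit 0), (nat_lit 3944814), (nat_lit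 0)]) (PF.cons PF.nil PF.nil)) (PF.cons PF.nil PF.nil)) (PF.cons PF.nil (PF.cons PF.nil PF.nil))))))))) (PF.cons (PF.cons (PF.cons (PF.cons (PF.leaf (nat_lit 2937128) (nat_lit 2544570) (nat_lit 55232497) (nat_lit 2544570) [(nat_lit 0), (nat_lit 0), (nat_lit 0), (nat_lit 9331744)]) (PF.cons (PF.leaf (nat_lit 3202537) (nat_lit 442674) (nat_lit 54724106) (nat_lit 2586762) [(nat_lit 442674), (nat_lit 0), (nat_lit 0), (nat_lit
 9355269)]) (PF.cons (PF.leaf (nat_lit 3494340) (nat_lit 466045) (nat_lit 54171547) (nat_lit 2628325) [(nat_lit 466045), (nat_lit 0), (nat_lit 0), (nat_lit 9376848)]) (PF.cons (PF.leaf (nat_lit 3807767) (nat_lit 487084) (nat_lit 53583789) (nat_lit 2668318) [(nat_lit 487084), (nat_lit 0), (nat_lit 0), (nat_lit 9395451)]) (PF.cons (PF.leaf (nat_lit 4139515) (nat_lit 506173) (nat_lit 52967596) (nat_lit 2706169) [(nat_lit 506173), (nat_lit 0), (nat_lit 0), (nat_lit 9410351)]) (PF.cons (PF.leaf (nat_lit 4486952) (nat_lit 523568) (nat_lit 52328387) (nat_lit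 2741537) [(nat_lit 523568), (nat_lit 0), (nat_lit 0), (nat_lit 9421047)]) (PF.cons (PF.leaf (nat_lit 4847830) (nat_lit 539451) (nat_lit 51670679) (nat_lit 2774219) [(nat_lit 539451), (nat_lit 0), (nat_lit 0), (nat_lit 9427205)]) (PF.cons (PF.leaf (nat_lit 5220187) (nat_lit 553963) (nat_lit 50998331) (nat_lit 2804111) [(nat_lit 553963), (nat_lit 0), (nat_lit 0), (nat_lit 9428626)]) (PF.cons (PF.leaf (nat_lit 5602264) (nat_lit 567215) (nat_lit 50314696) (nat_lit 2831178) [(nat_lit 567215), (nat_lit 0), (nat_lit 0), (nat_lit 9425217)]) (PF.cons (PF.leaf (nat_lit 5992497) (nat_lit 579299) (nat_lit 49622716) (nat_lit 2855430) [(nat_lit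
 579299), (nat_lit 0), (nat_lit 0), (nat_lit 9416971)]) (PF.cons PF.nil (PF.cons PF.nil PF.nil)))))))))))) (PF.cons (PF.cons (PF.leaf (nat_lit 3660860) (nat_lit 1602180) (nat_lit 53452991) (nat_lit 2662635) [(nat_lit 0), (nat_lit 1602180), (nat_lit 0), (nat_lit 9391005)]) (PF.cons (PF.leaf (nat_lit 3965564) (nat_lit 493416) (nat_lit 52878594) (nat_lit 2698288) [(nat_lit 493416), (nat_lit 1634279), (nat_lit 0), (nat_lit 9404233)]) (PF.cons (PF.leaf (nat_lit 4290152) (nat_lit 512024) (nat_lit 52273901) (nat_lit 2732256) [(nat_lit 512024), (nat_lit 1664641), (nat_lit 0), (nat_lit 9413965)]) (PF.cons (PF.leaf (nat_lit 4631098) (nat_lit 528892) (nat_lit 51645297) (nat_lit 2764099) [(nat_lit 528892), (nat_lit 1693032), (nat_lit 0), (nat_lit 9419705)]) (PF.cons (PF.leaf (nat_lit 4985874) (nat_lit 544236) (nat_lit 50997833) (nat_lit 2793556) [(nat_lit 544236), (nat_lit 1719345), (nat_lit 0), (nat_lit 9421132)]) (PF.cons (PF.leaf (nat_lit 5352341) (nat_lit 558210) (nat_lit 50335672)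 (nat_lit 2820484) [(nat_lit 558210), (nat_lit 1743542), (nat_lit 0), (nat_lit 9418060)]) (PF.cons (PF.leaf (nat_lit 5728662) (nat_lit 570937) (nat_lit 49662335) (nat_lit 2844815) [(nat_lit 570937), (nat_lit
 1765628), (nat_lit 0), (nat_lit 9410408)]) (PF.cons (PF.leaf (nat_lit 6113207) (nat_lit 582514) (nat_lit 48980853) (nat_lit 2866540) [(nat_lit 582514), (nat_lit 1785640), (nat_lit 0), (nat_lit 9398176)]) (PF.cons (PF.leaf (nat_lit 6504537) (nat_lit 593025) (nat_lit 48293864) (nat_lit 2885685) [(nat_lit 593025), (nat_lit 1803631), (nat_lit 0), (nat_lit 9381428)]) (PF.cons PF.nil PF.nil)))))))))) (PF.cons (PF.cons (PF.leaf (nat_lit 4442560) (nat_lit 1682994) (nat_lit 51574478) (nat_lit 2755806) [(nat_lit 0), (nat_lit 1682994), (nat_lit 0), (nat_lit 9412539)]) (PF.cons (PF.leaf (nat_lit 4775465) (nat_lit 533349) (nat_lit 50959625) (nat_lit 2784284) [(nat_lit 533349), (nat_lit 1708941), (nat_lit 0), (nat_lit 9413669)]) (PF.cons (PF.leaf (nat_lit 5123260) (nat_lit 548266)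 (nat_lit 50324768) (nat_lit 2810682) [(nat_lit 548266), (nat_lit 1733059), (nat_lit 0), (nat_lit 9410709)]) (PF.cons (PF.leaf (nat_lit 5483234) (nat_lit 561793) (nat_lit 49674621) (nat_lit 2834806) [(nat_lit 561793), (nat_lit 1755262), (nat_lit 0), (nat_lit 9403481)]) (PF.cons (PF.leaf (nat_lit 5853346) (nat_lit 574066) (nat_lit 49013024) (nat_lit 2856559) [(nat_lit 574066), (nat_lit 1775525), (nat_lit 0), (nat_lit
 9391910)]) (PF.cons (PF.leaf (nat_lit 6231878) (nat_lit 585197) (nat_lit 48343192) (nat_lit 2875906) [(nat_lit 585197), (nat_lit 1793861), (nat_lit 0), (nat_lit 9376005)]) (PF.cons (PF.leaf (nat_lit 6617306) (nat_lit 595274) (nat_lit 47667863) (nat_lit 2892855) [(nat_lit 595274), (nat_lit 1810308), (nat_lit 0), (nat_lit 9355830)]) (PF.cons (PF.leaf (nat_lit 7008297) (nat_lit 604374) (nat_lit 46989400) (nat_lit 2907448) [(nat_lit 604374), (nat_lit 1824921), (nat_lit 0), (nat_lit 9331502)]) (PF.cons PF.nil PF.nil))))))))) (PF.cons (PF.cons (PF.leaf (nat_lit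 5261188) (nat_lit 1745364) (nat_lit 49650879) (nat_lit 2825743) [(nat_lit 0), (nat_lit 1745364), (nat_lit 0), (nat_lit 9396096)]) (PF.cons (PF.leaf (nat_lit 5613552) (nat_lit 564706) (nat_lit 49014831) (nat_lit 2847209) [(nat_lit 564706), (nat_lit 1765669), (nat_lit 0), (nat_lit 9385057)]) (PF.cons (PF.leaf (nat_lit 5976879) (nat_lit 576607) (nat_lit 48366562) (nat_lit 2866526) [(nat_lit 576607), (nat_lit 1784203), (nat_lit 0), (nat_lit 9369898)]) (PF.cons (PF.leaf (nat_lit 6348967) (nat_lit 587355) (nat_lit 47709612) (nat_lit 2883632) [(nat_lit 587355), (nat_lit 1800956), (nat_lit 0), (nat_lit 9350630)]) (PF.cons (PF.leaf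
 (nat_lit 6728200) (nat_lit 597052) (nat_lit 47046912) (nat_lit 2898517) [(nat_lit 597052), (nat_lit 1815948), (nat_lit 0), (nat_lit 9327324)]) (PF.cons (PF.leaf (nat_lit 7113174) (nat_lit 605781) (nat_lit 46380938) (nat_lit 2911207) [(nat_lit 605781), (nat_lit 1829221), (nat_lit 0), (nat_lit 9300093)]) (PF.cons PF.nil PF.nil))))))) (PF.cons (PF.cons (PF.leaf (nat_lit 6100180) (nat_lit 1791740) (nat_lit 47722505) (nat_lit 2874825) [(nat_lit 0), (nat_lit 1791740), (nat_lit 0), (nat_lit 9344518)]) (PF.cons (PF.leaf (nat_lit 6465031) (nat_lit 588989) (nat_lit 47079821) (nat_lit 2889818) [(nat_lit 588989), (nat_lit 1806994), (nat_lit 0), (nat_lit 9322204)]) (PF.cons (PF.leaf (nat_lit 6837691) (nat_lit 598365) (nat_lit 46430807) (nat_lit 2902761) [(nat_lit 598365), (nat_lit 1820613), (nat_lit 0), (nat_lit 9296059)]) (PF.cons (PF.leaf (nat_lit 7216375) (nat_lit 606773) (nat_lit 45778135) (nat_lit 2913664) [(nat_lit 606773), (nat_lit 1832623), (nat_lit 0), (nat_lit 9266200)])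 (PF.cons (PF.leaf (nat_lit 7599769) (nat_lit 614290) (nat_lit 45124038) (nat_lit 2922564) [(nat_lit 614290), (nat_lit 1843068), (nat_lit 0), (nat_lit 9232773)]) PF.nil))))) (PF.cons (PF.cons (PF.leaf (nat_lit
 6946518) (nat_lit 1824358) (nat_lit 45819185) (nat_lit 2905669) [(nat_lit 0), (nat_lit 1824358), (nat_lit 0), (nat_lit 9262163)]) (PF.cons (PF.leaf (nat_lit 7318314) (nat_lit 607350) (nat_lit 45180722) (nat_lit 2914895) [(nat_lit 607350), (nat_lit 1835178), (nat_lit 0), (nat_lit 9229949)]) (PF.cons (PF.leaf (nat_lit 7695394) (nat_lit 614597) (nat_lit 44540349) (nat_lit 2922254) [(nat_lit 614597), (nat_lit 1844531), (nat_lit 0), (nat_lit 9194355)]) (PF.cons PF.nil PF.nil)))) (PF.cons (PF.cons (PF.leaf (nat_lit 7790151) (nat_lit 1845261) (nat_lit 43962420) (nat_lit 2920886) [(nat_lit 0), (nat_lit 1845261), (nat_lit 0), (nat_lit 9153937)]) (PF.cons (PF.leaf (nat_lit 8164529) (nat_lit 620737) (nat_lit 43336089) (nat_lit 2925102) [(nat_lit 620737), (nat_lit 1852250),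 (nat_lit 0), (nat_lit 9113380)]) PF.nil)) (PF.cons PF.nil (PF.cons PF.nil PF.nil))))))))) (PF.cons (PF.cons (PF.cons (PF.leaf (nat_lit 4269837) (nat_lit 2733432) (nat_lit 51172828) (nat_lit 2733432) [(nat_lit 0), (nat_lit 0), (nat_lit 3820449), (nat_lit 9382102)]) (PF.cons (PF.leaf (nat_lit 4578997) (nat_lit 514585) (nat_lit 50603868) (nat_lit 2761280) [(nat_lit 514585), (nat_lit 0), (nat_lit 3847092), (nat_lit 9381986)])
 (PF.cons (PF.leaf (nat_lit 4906363) (nat_lit 531385) (nat_lit 50008367) (nat_lit 2787468) [(nat_lit 531385), (nat_lit 0), (nat_lit 3871926), (nat_lit 9378280)]) (PF.cons (PF.leaf (nat_lit 5248403) (nat_lit 546424) (nat_lit 49392593) (nat_lit 2811671) [(nat_lit 546424), (nat_lit 0), (nat_lit 3894554), (nat_lit 9370719)]) (PF.cons (PF.leaf (nat_lit 5602623) (nat_lit 559952) (nat_lit 48761402) (nat_lit 2833704) [(nat_lit 559952), (nat_lit 0), (nat_lit 3914738), (nat_lit 9359159)]) (PF.cons (PF.leaf (nat_lit 5966953) (nat_lit 572145) (nat_lit 48118712)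 (nat_lit 2853475) [(nat_lit 572145), (nat_lit 0), (nat_lit 3932348), (nat_lit 9343547)]) (PF.cons (PF.leaf (nat_lit 6339672) (nat_lit 583142) (nat_lit 47467776) (nat_lit 2870956) [(nat_lit 583142), (nat_lit 0), (nat_lit 3947325), (nat_lit 9323899)]) (PF.cons (PF.leaf (nat_lit 6719245) (nat_lit 593051) (nat_lit 46811343) (nat_lit 2886156) [(nat_lit 593051), (nat_lit 0), (nat_lit 3959665), (nat_lit 9300286)]) (PF.cons (PF.leaf (nat_lit 7104337) (nat_lit 601962) (nat_lit 46151768) (nat_lit 2899118) [(nat_lit 601962), (nat_lit 0), (nat_lit 3969404), (nat_lit 9272822)]) (PF.cons PF.nil PF.nil)))))))))) (PF.cons (PF.cons (PF.leaf (nat_lit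
 5049139) (nat_lit 1723265) (nat_lit 49332599) (nat_lit 2803187) [(nat_lit 0), (nat_lit 1723265), (nat_lit 3886944), (nat_lit 9362816)]) (PF.cons (PF.leaf (nat_lit 5382564) (nat_lit 549126) (nat_lit 48732616) (nat_lit 2824656) [(nat_lit 549126), (nat_lit 1744275), (nat_lit 3906422), (nat_lit 9351715)]) (PF.cons (PF.leaf (nat_lit 5729349) (nat_lit 562364) (nat_lit 48115802) (nat_lit 2844206) [(nat_lit 562364), (nat_lit 1763573), (nat_lit 3923711), (nat_lit 9336790)]) (PF.cons (PF.leaf (nat_lit 6086843) (nat_lit 574233) (nat_lit 47486642) (nat_lit 2861706) [(nat_lit 574233), (nat_lit 1781113), (nat_lit 3938649), (nat_lit 9317999)]) (PF.cons (PF.leaf (nat_lit 6453106) (nat_lit 584891) (nat_lit 46848721) (nat_lit 2877100) [(nat_lit 584891), (nat_lit 1796898), (nat_lit 3951157), (nat_lit 9295370)]) (PF.cons (PF.leaf (nat_lit 6826501) (nat_lit 594458) (nat_lit 46204987) (nat_lit 2890380) [(nat_lit 594458), (nat_lit 1810958), (nat_lit 3961215), (nat_lit 9268979)]) (PF.cons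 (PF.leaf (nat_lit 7205623) (nat_lit 603032) (nat_lit 45557912) (nat_lit 2901574) [(nat_lit 603032), (nat_lit 1823343), (nat_lit 3968844), (nat_lit 9238940)]) (PF.cons PF.nil (PF.cons PF.nil PF.nil))))))))) (PF.cons
 (PF.cons (PF.leaf (nat_lit 5856841) (nat_lit 1771593) (nat_lit 47471012) (nat_lit 2853034) [(nat_lit 0), (nat_lit 1771593), (nat_lit 3930569), (nat_lit 9311010)]) (PF.cons (PF.leaf (nat_lit 6206446) (nat_lit 575737) (nat_lit 46857158) (nat_lit 2868385) [(nat_lit 575737), (nat_lit 1787583), (nat_lit 3942997), (nat_lit 9289366)]) (PF.cons (PF.leaf (nat_lit 6565708) (nat_lit 586130) (nat_lit 46233571) (nat_lit 2881813) [(nat_lit 586130), (nat_lit 1801959), (nat_lit 3953193), (nat_lit 9264054)]) (PF.cons (PF.leaf (nat_lit 6932541) (nat_lit 595415) (nat_lit 45603535) (nat_lit 2893289) [(nat_lit 595415), (nat_lit 1814731), (nat_lit 3961117), (nat_lit 9235159)]) (PF.cons (PF.leaf (nat_lit 7305418) (nat_lit 603703) (nat_lit 44969724) (nat_lit 2902823) [(nat_lit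 603703), (nat_lit 1825934), (nat_lit 3966778), (nat_lit 9202802)]) (PF.cons (PF.leaf (nat_lit 7683033) (nat_lit 611083) (nat_lit 44334363) (nat_lit 2910453) [(nat_lit 611083), (nat_lit 1835616), (nat_lit 3970216), (nat_lit 9167127)]) (PF.cons PF.nil PF.nil))))))) (PF.cons (PF.cons (PF.leaf (nat_lit 6678378) (nat_lit 1806091) (nat_lit 45621780) (nat_lit 2885177) [(nat_lit 0), (nat_lit 1806091), (nat_lit 3953526), (nat_lit 9230054)])
 (PF.cons (PF.leaf (nat_lit 7037886) (nat_lit 595918) (nat_lit 45006598) (nat_lit 2894956) [(nat_lit 595918), (nat_lit 1817646), (nat_lit 3959460), (nat_lit 9198938)]) (PF.cons (PF.leaf (nat_lit 7404155) (nat_lit 603974) (nat_lit 44386912) (nat_lit 2902935) [(nat_lit 603974), (nat_lit 1827735), (nat_lit 3963289), (nat_lit 9164519)]) (PF.cons (PF.leaf (nat_lit 7775510) (nat_lit 611115) (nat_lit 43765151) (nat_lit 2909137) [(nat_lit 611115), (nat_lit 1836396), (nat_lit 3965040), (nat_lit 9126946)]) (PF.cons PF.nil PF.nil))))) (PF.cons (PF.cons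 (PF.leaf (nat_lit 7502569) (nat_lit 1828791) (nat_lit 43809041) (nat_lit 2901972) [(nat_lit 0), (nat_lit 1828791), (nat_lit 3958452), (nat_lit 9124182)]) (PF.cons (PF.leaf (nat_lit 7867089) (nat_lit 610791) (nat_lit 43201624) (nat_lit 2906839) [(nat_lit 610791), (nat_lit 1836492), (nat_lit 3958639), (nat_lit 9084948)]) (PF.cons (PF.leaf (nat_lit 8236087) (nat_lit 616903) (nat_lit 42593539) (nat_lit 2910085) [(nat_lit 616903), (nat_lit 1842895), (nat_lit 3956930), (nat_lit 9042866)]) (PF.cons PF.nil PF.nil)))) (PF.cons (PF.cons (PF.leaf (nat_lit 8320922) (nat_lit 1841520) (nat_lit 42049628) (nat_lit 2905718) [(nat_lit 0), (nat_lit 1841520),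
 (nat_lit 3948041), (nat_lit 8997824)]) (PF.cons PF.nil PF.nil)) (PF.cons PF.nil (PF.cons PF.nil PF.nil)))))))) (PF.cons (PF.cons (PF.cons (PF.leaf (nat_lit 5632227) (nat_lit 2830610) (nat_lit 47187477) (nat_lit 2830610) [(nat_lit 0), (nat_lit 0), (nat_lit 3907250), (nat_lit 9276224)]) (PF.cons (PF.leaf (nat_lit 5964208) (nat_lit 560566) (nat_lit 46607232) (nat_lit 2846270) [(nat_lit 560566), (nat_lit 0), (nat_lit 3919708), (nat_lit 9255327)]) (PF.cons (PF.leaf (nat_lit 6308250) (nat_lit 572329) (nat_lit 46012766) (nat_lit 2860166) [(nat_lit 572329), (nat_lit 0), (nat_lit 3930157), (nat_lit 9230906)]) (PF.cons (PF.leaf (nat_lit 6661773) (nat_lit 582756) (nat_lit 45408306) (nat_lit 2872216) [(nat_lit 582756), (nat_lit 0), (nat_lit 3938498), (nat_lit 9203021)]) (PF.cons (PF.leaf (nat_lit 7022911) (nat_lit 592017) (nat_lit 44797180) (nat_lit 2882397) [(nat_lit 592017), (nat_lit 0), (nat_lit 3944696), (nat_lit 9171771)]) (PF.cons (PF.leaf (nat_lit 7390129) (nat_lit 600242)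 (nat_lit 44182082) (nat_lit 2890721) [(nat_lit 600242), (nat_lit 0), (nat_lit 3948759), (nat_lit 9137277)]) (PF.cons (PF.leaf (nat_lit 7762114) (nat_lit 607534) (nat_lit 43565239) (nat_lit 2897228) [(nat_lit 607534),
 (nat_lit 0), (nat_lit 3950725), (nat_lit 9099687)]) (PF.cons PF.nil (PF.cons PF.nil PF.nil))))))))) (PF.cons (PF.cons (PF.leaf (nat_lit 6425721) (nat_lit 1786704) (nat_lit 45399650) (nat_lit 2864025) [(nat_lit 0), (nat_lit 1786704), (nat_lit 3930895), (nat_lit 9196640)]) (PF.cons (PF.leaf (nat_lit 6771219) (nat_lit 583115) (nat_lit 44811066) (nat_lit 2874347) [(nat_lit 583115), (nat_lit 1799085), (nat_lit 3937248), (nat_lit 9166701)]) (PF.cons (PF.leaf (nat_lit 7125285) (nat_lit 592203) (nat_lit 44214709) (nat_lit 2882949) [(nat_lit 592203), (nat_lit 1809995), (nat_lit 3941615), (nat_lit 9133519)]) (PF.cons (PF.leaf (nat_lit 7485930) (nat_lit 600230) (nat_lit 43613615) (nat_lit 2889827) [(nat_lit 600230), (nat_lit 1819462), (nat_lit 3943993), (nat_lit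 9097230)]) (PF.cons (PF.leaf (nat_lit 7851710) (nat_lit 607312) (nat_lit 43010220) (nat_lit 2895007) [(nat_lit 607312), (nat_lit 1827529), (nat_lit 3944409), (nat_lit 9057985)]) (PF.cons PF.nil (PF.cons PF.nil PF.nil))))))) (PF.cons (PF.cons (PF.leaf (nat_lit 7228006) (nat_lit 1811400) (nat_lit 43636137) (nat_lit 2882408) [(nat_lit 0), (nat_lit 1811400), (nat_lit 3937162), (nat_lit 9093141)]) (PF.cons (PF.leaf (nat_lit 7581345)
 (nat_lit 599821) (nat_lit 43050025) (nat_lit 2887933) [(nat_lit 599821), (nat_lit 1819884), (nat_lit 3937978), (nat_lit 9055306)]) (PF.cons (PF.leaf (nat_lit 7940578) (nat_lit 606746) (nat_lit 42460787) (nat_lit 2891875) [(nat_lit 606746), (nat_lit 1827053), (nat_lit 3936959), (nat_lit 9014631)]) (PF.cons (PF.leaf (nat_lit 8304124) (nat_lit 612808) (nat_lit 41870629) (nat_lit 2894268) [(nat_lit 612808), (nat_lit 1832953), (nat_lit 3934148), (nat_lit 8971286)]) (PF.cons PF.nil PF.nil))))) (PF.cons (PF.cons (PF.leaf (nat_lit 8029420) (nat_lit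 1825972) (nat_lit 41916467) (nat_lit 2887878) [(nat_lit 0), (nat_lit 1825972), (nat_lit 3928432), (nat_lit 8969684)]) (PF.cons (PF.leaf (nat_lit 8386255) (nat_lit 611762) (nat_lit 41340468) (nat_lit 2889216) [(nat_lit 611762), (nat_lit 1831103), (nat_lit 3924408), (nat_lit 8925237)]) (PF.cons PF.nil (PF.cons PF.nil PF.nil)))) (PF.cons (PF.cons (PF.leaf (nat_lit 8822755) (nat_lit 1832051) (nat_lit 40253804) (nat_lit 2882456) [(nat_lit 0), (nat_lit 1832051), (nat_lit 3907073), (nat_lit 8830197)]) (PF.cons PF.nil PF.nil)) (PF.cons PF.nil PF.nil)))))) (PF.cons (PF.cons (PF.cons (PF.leaf (nat_lit 6968272) (nat_lit 2862109) (nat_lit 43440275)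
 (nat_lit 2862109) [(nat_lit 0), (nat_lit 0), (nat_lit 3915285), (nat_lit 9060572)]) (PF.cons (PF.leaf (nat_lit 7308699) (nat_lit 587509) (nat_lit 42878599) (nat_lit 2868304) [(nat_lit 587509), (nat_lit 0), (nat_lit 3916713), (nat_lit 9024259)]) (PF.cons (PF.leaf (nat_lit 7656801) (nat_lit 595467) (nat_lit 42310693) (nat_lit 2872960) [(nat_lit 595467), (nat_lit 0), (nat_lit 3916378), (nat_lit 8985088)]) (PF.cons (PF.leaf (nat_lit 8010655) (nat_lit 602412) (nat_lit 41739351) (nat_lit 2876094) [(nat_lit 602412), (nat_lit 0), (nat_lit 3914299), (nat_lit 8943230)]) (PF.cons (PF.leaf (nat_lit 8368903) (nat_lit 608464) (nat_lit 41166794) (nat_lit 2877741) [(nat_lit 608464), (nat_lit 0), (nat_lit 3910520), (nat_lit 8898857)]) PF.nil))))) (PF.cons (PF.cons (PF.leaf (nat_lit 7750304) (nat_lit 1809509) (nat_lit 41765225) (nat_lit 2869345) [(nat_lit 0), (nat_lit 1809509), (nat_lit 3908203), (nat_lit 8940121)]) (PF.cons (PF.leaf (nat_lit 8096940) (nat_lit 601270) (nat_lit 41208676)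 (nat_lit 2871408) [(nat_lit 601270), (nat_lit 1815445), (nat_lit 3904915), (nat_lit 8897265)]) (PF.cons (PF.leaf (nat_lit 8448759) (nat_lit 607227) (nat_lit 40650029) (nat_lit 2872077) [(nat_lit 607227), (nat_lit
 1820203), (nat_lit 3900026), (nat_lit 8851969)]) (PF.cons PF.nil PF.nil)))) (PF.cons (PF.cons (PF.leaf (nat_lit 8528864) (nat_lit 1817432) (nat_lit 40138355) (nat_lit 2865719) [(nat_lit 0), (nat_lit 1817432), (nat_lit 3888671), (nat_lit 8803857)]) (PF.cons (PF.leaf (nat_lit 8877815) (nat_lit 610750) (nat_lit 39593378) (nat_lit 2864211) [(nat_lit 610750), (nat_lit 1820448), (nat_lit 3881308), (nat_lit 8755649)]) PF.nil)) (PF.cons PF.nil (PF.cons PF.nil PF.nil))))) (PF.cons (PF.cons (PF.cons (PF.leaf (nat_lit 8246752) (nat_lit 2848263) (nat_lit 40006178) (nat_lit 2848263) [(nat_lit 0), (nat_lit 0), (nat_lit 3869591), (nat_lit 8776005)]) (PF.cons (PF.leaf (nat_lit 8586359) (nat_lit 600740) (nat_lit 39478935) (nat_lit 2847518) [(nat_lit 600740), (nat_lit 0), (nat_lit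 3863029), (nat_lit 8729498)]) (PF.cons (PF.leaf (nat_lit 8930570) (nat_lit 605866) (nat_lit 38950356) (nat_lit 2845544) [(nat_lit 605866), (nat_lit 0), (nat_lit 3855069), (nat_lit 8680898)]) (PF.cons PF.nil PF.nil)))) (PF.cons (PF.cons (PF.leaf (nat_lit 9002738) (nat_lit 1804410) (nat_lit 38469977) (nat_lit 2837365) [(nat_lit 0), (nat_lit 1804410), (nat_lit 3841577), (nat_lit 8630751)]) (PF.cons (PF.leaf (nat_lit 9343758)
 (nat_lit 608152) (nat_lit 37955117) (nat_lit 2833572) [(nat_lit 608152), (nat_lit 1805689), (nat_lit 3831584), (nat_lit 8579941)]) PF.nil)) (PF.cons PF.nil PF.nil))) (PF.cons (PF.cons (PF.cons (PF.leaf (nat_lit 9452877) (nat_lit 2804314) (nat_lit 36905662) (nat_lit 2804314) [(nat_lit 0), (nat_lit 0), (nat_lit 3789065), (nat_lit 8453508)]) (PF.cons PF.nil PF.nil)) (PF.cons PF.nil PF.nil)) (PF.cons PF.nil (PF.cons PF.nil PF.nil)))))))) (PF.cons (PF.cons (PF.cons (PF.cons (PF.leaf (nat_lit 5163870) (nat_lit 2733642) (nat_lit 46160522) (nat_lit 2733642)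 [(nat_lit 0), (nat_lit 0), (nat_lit 0), (nat_lit 9107323)]) (PF.cons (PF.leaf (nat_lit 5463328) (nat_lit 520117) (nat_lit 45655778) (nat_lit 2752452) [(nat_lit 520117), (nat_lit 0), (nat_lit 0), (nat_lit 9090232)]) (PF.cons (PF.leaf (nat_lit 5778989) (nat_lit 534953) (nat_lit 45129486) (nat_lit 2769638) [(nat_lit 534953), (nat_lit 0), (nat_lit 0), (nat_lit 9069890)]) (PF.cons (PF.leaf (nat_lit 6107411) (nat_lit 547990) (nat_lit 44587207) (nat_lit 2785015) [(nat_lit 547990), (nat_lit 0), (nat_lit 0), (nat_lit 9046310)]) (PF.cons (PF.leaf (nat_lit 6446246) (nat_lit 559514) (nat_lit 44033176) (nat_lit 2798501) [(nat_lit 559514), (nat_lit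
 0), (nat_lit 0), (nat_lit 9019538)]) (PF.cons (PF.leaf (nat_lit 6793555) (nat_lit 569735) (nat_lit 43470751) (nat_lit 2810074) [(nat_lit 569735), (nat_lit 0), (nat_lit 0), (nat_lit 8989654)]) (PF.cons (PF.leaf (nat_lit 7147748) (nat_lit 578810) (nat_lit 42902663) (nat_lit 2819755) [(nat_lit 578810), (nat_lit 0), (nat_lit 0), (nat_lit 8956763)]) (PF.cons (PF.leaf (nat_lit 7507472) (nat_lit 586865) (nat_lit 42331185) (nat_lit 2827587) [(nat_lit 586865), (nat_lit 0), (nat_lit 0), (nat_lit 8920990)]) (PF.cons (PF.leaf (nat_lit 7871550) (nat_lit 594001) (nat_lit 41758222) (nat_lit 2833632) [(nat_lit 594001), (nat_lit 0), (nat_lit 0), (nat_lit 8882472)]) (PF.cons PF.nil PF.nil)))))))))) (PF.cons (PF.cons (PF.leaf (nat_lit 5903696) (nat_lit 1716511) (nat_lit 44539714) (nat_lit 2776413) [(nat_lit 0), (nat_lit 1716511), (nat_lit 0), (nat_lit 9038086)]) (PF.cons (PF.leaf (nat_lit 6223366) (nat_lit 548814) (nat_lit 44012918) (nat_lit 2789803) [(nat_lit 548814), (nat_lit 1732043),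 (nat_lit 0), (nat_lit 9012616)]) (PF.cons (PF.leaf (nat_lit 6554732) (nat_lit 560182) (nat_lit 43472913) (nat_lit 2801502) [(nat_lit 560182), (nat_lit 1745981), (nat_lit 0), (nat_lit 8984025)]) (PF.cons (PF.leaf
 (nat_lit 6895249) (nat_lit 570205) (nat_lit 42923563) (nat_lit 2811457) [(nat_lit 570205), (nat_lit 1758338), (nat_lit 0), (nat_lit 8952418)]) (PF.cons (PF.leaf (nat_lit 7243138) (nat_lit 579064) (nat_lit 42367906) (nat_lit 2819664) [(nat_lit 579064), (nat_lit 1769156), (nat_lit 0), (nat_lit 8917913)]) (PF.cons (PF.leaf (nat_lit 7596919) (nat_lit 586895) (nat_lit 41808400) (nat_lit 2826151) [(nat_lit 586895), (nat_lit 1778493), (nat_lit 0), (nat_lit 8880644)]) (PF.cons (PF.leaf (nat_lit 7955336) (nat_lit 593807) (nat_lit 41247071) (nat_lit 2830967) [(nat_lit 593807), (nat_lit 1786417), (nat_lit 0), (nat_lit 8840755)]) (PF.cons PF.nil (PF.cons PF.nil PF.nil))))))))) (PF.cons (PF.cons (PF.leaf (nat_lit 6664411) (nat_lit 1749247) (nat_lit 42914409) (nat_lit 2803323)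 [(nat_lit 0), (nat_lit 1749247), (nat_lit 0), (nat_lit 8946292)]) (PF.cons (PF.leaf (nat_lit 6997169) (nat_lit 570200) (nat_lit 42379490) (nat_lit 2811758) [(nat_lit 570200), (nat_lit 1760460), (nat_lit 0), (nat_lit 8913221)]) (PF.cons (PF.leaf (nat_lit 7338265) (nat_lit 578911) (nat_lit 41837241) (nat_lit 2818586) [(nat_lit 578911), (nat_lit 1770248), (nat_lit 0), (nat_lit 8877331)]) (PF.cons (PF.leaf (nat_lit 7685760)
 (nat_lit 586572) (nat_lit 41290425) (nat_lit 2823817) [(nat_lit 586572), (nat_lit 1778654), (nat_lit 0), (nat_lit 8838772)]) (PF.cons (PF.leaf (nat_lit 8038270) (nat_lit 593305) (nat_lit 40741257) (nat_lit 2827486) [(nat_lit 593305), (nat_lit 1785729), (nat_lit 0), (nat_lit 8797694)]) (PF.cons (PF.leaf (nat_lit 8394629) (nat_lit 599205) (nat_lit 40191553) (nat_lit 2829646) [(nat_lit 599205), (nat_lit 1791537), (nat_lit 0), (nat_lit 8754254)]) (PF.cons PF.nil PF.nil))))))) (PF.cons (PF.cons (PF.leaf (nat_lit 7433980) (nat_lit 1770680) (nat_lit 41310083)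 (nat_lit 2816574) [(nat_lit 0), (nat_lit 1770680), (nat_lit 0), (nat_lit 8835057)]) (PF.cons (PF.leaf (nat_lit 7774465) (nat_lit 585887) (nat_lit 40776821) (nat_lit 2820633) [(nat_lit 585887), (nat_lit 1778209), (nat_lit 0), (nat_lit 8795420)]) (PF.cons (PF.leaf (nat_lit 8120739) (nat_lit 592488) (nat_lit 40240438) (nat_lit 2823234) [(nat_lit 592488), (nat_lit 1784490), (nat_lit 0), (nat_lit 8753344)]) (PF.cons (PF.leaf (nat_lit 8471259) (nat_lit 598247) (nat_lit 39702941) (nat_lit 2824419) [(nat_lit 598247), (nat_lit 1789574), (nat_lit 0), (nat_lit 8708993)]) (PF.cons PF.nil PF.nil))))) (PF.cons (PF.cons (PF.leaf (nat_lit 8203436)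
 (nat_lit 1782729) (nat_lit 39744162) (nat_lit 2818248) [(nat_lit 0), (nat_lit 1782729), (nat_lit 0), (nat_lit 8707741)]) (PF.cons (PF.leaf (nat_lit 8547556) (nat_lit 597008) (nat_lit 39219418) (nat_lit 2818529) [(nat_lit 597008), (nat_lit 1787137), (nat_lit 0), (nat_lit 8662653)]) (PF.cons (PF.leaf (nat_lit 8895503) (nat_lit 601900) (nat_lit 38694576) (nat_lit 2817527) [(nat_lit 601900), (nat_lit 1790465), (nat_lit 0), (nat_lit 8615523)]) (PF.cons PF.nil PF.nil)))) (PF.cons (PF.cons (PF.leaf (nat_lit 8966088) (nat_lit 1787002) (nat_lit 38228303) (nat_lit 2810245) [(nat_lit 0), (nat_lit 1787002), (nat_lit 0), (nat_lit 8567624)]) (PF.cons PF.nil PF.nil)) (PF.cons PF.nil (PF.cons PF.nil PF.nil)))))))) (PF.cons (PF.cons (PF.cons (PF.leaf (nat_lit 6432527) (nat_lit 2781014) (nat_lit 42683649) (nat_lit 2781014) [(nat_lit 0), (nat_lit 0), (nat_lit 3821398), (nat_lit 8911374)]) (PF.cons (PF.leaf (nat_lit 6749545) (nat_lit 555376) (nat_lit 42177496) (nat_lit 2790182) [(nat_lit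 555376), (nat_lit 0), (nat_lit 3825855), (nat_lit 8879951)]) (PF.cons (PF.leaf (nat_lit 7077236) (nat_lit 565528) (nat_lit 41660010) (nat_lit 2797808) [(nat_lit 565528), (nat_lit 0), (nat_lit 3828611), (nat_lit
 8845662)]) (PF.cons (PF.leaf (nat_lit 7413131) (nat_lit 574385) (nat_lit 41134809) (nat_lit 2803870) [(nat_lit 574385), (nat_lit 0), (nat_lit 3829639), (nat_lit 8808668)]) (PF.cons (PF.leaf (nat_lit 7755527) (nat_lit 582130) (nat_lit 40604702) (nat_lit 2808383) [(nat_lit 582130), (nat_lit 0), (nat_lit 3828950), (nat_lit 8769126)]) (PF.cons (PF.leaf (nat_lit 8103023) (nat_lit 588905) (nat_lit 40071935) (nat_lit 2811385) [(nat_lit 588905), (nat_lit 0), (nat_lit 3826581), (nat_lit 8727192)]) (PF.cons (PF.leaf (nat_lit 8454461) (nat_lit 594818) (nat_lit 39538337) (nat_lit 2812928) [(nat_lit 594818), (nat_lit 0), (nat_lit 3822585), (nat_lit 8683025)]) (PF.cons PF.nil (PF.cons PF.nil PF.nil))))))))) (PF.cons (PF.cons (PF.leaf (nat_lit 7178389) (nat_lit 1752074) (nat_lit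 41131184) (nat_lit 2796293) [(nat_lit 0), (nat_lit 1752074), (nat_lit 3822731), (nat_lit 8803264)]) (PF.cons (PF.leaf (nat_lit 7506537) (nat_lit 573566) (nat_lit 40620426) (nat_lit 2801144) [(nat_lit 573566), (nat_lit 1760587), (nat_lit 3822438), (nat_lit 8765324)]) (PF.cons (PF.leaf (nat_lit 7842179) (nat_lit 581235) (nat_lit 40103674) (nat_lit 2804560) [(nat_lit 581235), (nat_lit 1767807), (nat_lit 3820538), (nat_lit
 8724880)]) (PF.cons (PF.leaf (nat_lit 8183478) (nat_lit 587905) (nat_lit 39583476) (nat_lit 2806563) [(nat_lit 587905), (nat_lit 1773782), (nat_lit 3817060), (nat_lit 8682107)]) (PF.cons (PF.leaf (nat_lit 8529119) (nat_lit 593697) (nat_lit 39061857) (nat_lit 2807196) [(nat_lit 593697), (nat_lit 1778570), (nat_lit 3812050), (nat_lit 8637172)]) (PF.cons PF.nil (PF.cons PF.nil PF.nil))))))) (PF.cons (PF.cons (PF.leaf (nat_lit 7929667) (nat_lit 1766378) (nat_lit 39606299) (nat_lit 2799978) [(nat_lit 0), (nat_lit 1766378), (nat_lit 3811191), (nat_lit 8679292)])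 (PF.cons (PF.leaf (nat_lit 8264048) (nat_lit 586584) (nat_lit 39099424) (nat_lit 2801054) [(nat_lit 586584), (nat_lit 1771652), (nat_lit 3806699), (nat_lit 8635871)]) (PF.cons (PF.leaf (nat_lit 8603574) (nat_lit 592303) (nat_lit 38590314) (nat_lit 2800845) [(nat_lit 592303), (nat_lit 1775805), (nat_lit 3800762), (nat_lit 8590337)]) (PF.cons (PF.leaf (nat_lit 8946763) (nat_lit 597226) (nat_lit 38080800) (nat_lit 2799395) [(nat_lit 597226), (nat_lit 1778890), (nat_lit 3793433), (nat_lit 8542861)]) (PF.cons PF.nil PF.nil))))) (PF.cons (PF.cons (PF.leaf (nat_lit 8678495) (nat_lit 1772613) (nat_lit 38123246) (nat_lit 2793903)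
 [(nat_lit 0), (nat_lit 1772613), (nat_lit 3788753), (nat_lit 8542534)]) (PF.cons (PF.leaf (nat_lit 9015446) (nat_lit 595495) (nat_lit 37626090) (nat_lit 2791745) [(nat_lit 595495), (nat_lit 1775160), (nat_lit 3780656), (nat_lit 8494671)]) (PF.cons PF.nil (PF.cons PF.nil PF.nil)))) (PF.cons (PF.cons (PF.leaf (nat_lit 9419098) (nat_lit 1772196) (nat_lit 36691270) (nat_lit 2779720) [(nat_lit 0), (nat_lit 1772196), (nat_lit 3757276), (nat_lit 8395879)]) (PF.cons PF.nil PF.nil)) (PF.cons PF.nil PF.nil)))))) (PF.cons (PF.cons (PF.cons (PF.leaf (nat_lit 7669726) (nat_lit 2780838) (nat_lit 39448592) (nat_lit 2780838) [(nat_lit 0), (nat_lit 0), (nat_lit 3790606), (nat_lit 8649084)]) (PF.cons (PF.leaf (nat_lit 7992691) (nat_lit 574828) (nat_lit 38962322) (nat_lit 2782752) [(nat_lit 574828), (nat_lit 0), (nat_lit 3786950), (nat_lit 8607504)]) (PF.cons (PF.leaf (nat_lit 8322459) (nat_lit 581594) (nat_lit 38471115) (nat_lit 2783380) [(nat_lit 581594), (nat_lit 0), (nat_lit 3781861),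 (nat_lit 8563702)]) (PF.cons (PF.leaf (nat_lit 8657253) (nat_lit 587408) (nat_lit 37977325) (nat_lit 2782755) [(nat_lit 587408), (nat_lit 0), (nat_lit 3775383), (nat_lit 8517870)]) (PF.cons (PF.leaf (nat_lit
 8995826) (nat_lit 592394) (nat_lit 37482800) (nat_lit 2780927) [(nat_lit 592394), (nat_lit 0), (nat_lit 3767568), (nat_lit 8470183)]) PF.nil))))) (PF.cons (PF.cons (PF.leaf (nat_lit 8402355) (nat_lit 1757273) (nat_lit 38002605) (nat_lit 2776789) [(nat_lit 0), (nat_lit 1757273), (nat_lit 3770177), (nat_lit 8515894)]) (PF.cons (PF.leaf (nat_lit 8730366) (nat_lit 585580) (nat_lit 37521742) (nat_lit 2775440) [(nat_lit 585580), (nat_lit 1760673), (nat_lit 3762928), (nat_lit 8469759)]) (PF.cons (PF.leaf (nat_lit 9062973) (nat_lit 590538) (nat_lit 37039313) (nat_lit 2772953) [(nat_lit 590538), (nat_lit 1763063), (nat_lit 3754411), (nat_lit 8421791)]) (PF.cons PF.nil PF.nil)))) (PF.cons (PF.cons (PF.leaf (nat_lit 9130801) (nat_lit 1758748) (nat_lit 36600142) (nat_lit 2764502)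 [(nat_lit 0), (nat_lit 1758748), (nat_lit 3740675), (nat_lit 8372660)]) (PF.cons (PF.leaf (nat_lit 9460533) (nat_lit 592625) (nat_lit 36129682) (nat_lit 2760380) [(nat_lit 592625), (nat_lit 1759760), (nat_lit 3730375), (nat_lit 8322925)]) PF.nil)) (PF.cons PF.nil (PF.cons PF.nil PF.nil))))) (PF.cons (PF.cons (PF.cons (PF.leaf (nat_lit 8853388) (nat_lit 2748515) (nat_lit 36494600) (nat_lit 2748515) [(nat_lit 0),
 (nat_lit 0), (nat_lit 3723322), (nat_lit 8347864)]) (PF.cons (PF.leaf (nat_lit 9174873) (nat_lit 583204) (nat_lit 36039001) (nat_lit 2745200) [(nat_lit 583204), (nat_lit 0), (nat_lit 3713884), (nat_lit 8299876)]) (PF.cons (PF.leaf (nat_lit 9500511) (nat_lit 587507) (nat_lit 35582335) (nat_lit 2740874) [(nat_lit 587507), (nat_lit 0), (nat_lit 3703329), (nat_lit 8250298)]) (PF.cons PF.nil PF.nil)))) (PF.cons (PF.cons (PF.leaf (nat_lit 9561884) (nat_lit 1741967) (nat_lit 35169578) (nat_lit 2731276) [(nat_lit 0), (nat_lit 1741967), (nat_lit 3688318), (nat_lit 8200517)])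 (PF.cons PF.nil PF.nil)) (PF.cons PF.nil PF.nil))) (PF.cons (PF.cons (PF.cons (PF.leaf (nat_lit 9973231) (nat_lit 2695211) (nat_lit 33826019) (nat_lit 2695211) [(nat_lit 0), (nat_lit 0), (nat_lit 3632916), (nat_lit 8027958)]) (PF.cons PF.nil PF.nil)) (PF.cons PF.nil PF.nil)) (PF.cons PF.nil PF.nil)))))) (PF.cons (PF.cons (PF.cons (PF.cons (PF.leaf (nat_lit 7134598) (nat_lit 2708129) (nat_lit 38848350) (nat_lit 2708129) [(nat_lit 0), (nat_lit 0), (nat_lit 0), (nat_lit 8517444)]) (PF.cons (PF.leaf (nat_lit 7437309) (nat_lit 545126) (nat_lit 38407519) (nat_lit 2713063) [(nat_lit 545126), (nat_lit 0), (nat_lit 0), (nat_lit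
 8481034)]) (PF.cons (PF.leaf (nat_lit 7749641) (nat_lit 554062) (nat_lit 37957338) (nat_lit 2716639) [(nat_lit 554062), (nat_lit 0), (nat_lit 0), (nat_lit 8442236)]) (PF.cons (PF.leaf (nat_lit 8069260) (nat_lit 561752) (nat_lit 37500903) (nat_lit 2718871) [(nat_lit 561752), (nat_lit 0), (nat_lit 0), (nat_lit 8401259)]) (PF.cons (PF.leaf (nat_lit 8394586) (nat_lit 568388) (nat_lit 37040598) (nat_lit 2719795) [(nat_lit 568388), (nat_lit 0), (nat_lit 0), (nat_lit 8358288)]) (PF.cons (PF.leaf (nat_lit 8724329) (nat_lit 574114) (nat_lit 36578309) (nat_lit 2719462) [(nat_lit 574114), (nat_lit 0), (nat_lit 0), (nat_lit 8313488)]) (PF.cons PF.nil PF.nil))))))) (PF.cons (PF.cons (PF.leaf (nat_lit 7837956) (nat_lit 1705722) (nat_lit 37500817) (nat_lit 2711925) [(nat_lit 0), (nat_lit 1705722), (nat_lit 0), (nat_lit 8396782)]) (PF.cons (PF.leaf (nat_lit 8150160) (nat_lit 560195) (nat_lit 37057149) (nat_lit 2713297) [(nat_lit 560195), (nat_lit 1711627), (nat_lit 0), (nat_lit 8355514)])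 (PF.cons (PF.leaf (nat_lit 8469099) (nat_lit 566823) (nat_lit 36608594) (nat_lit 2713447) [(nat_lit 566823), (nat_lit 1716382), (nat_lit 0), (nat_lit 8312247)]) (PF.cons (PF.leaf (nat_lit 8793011) (nat_lit
 572509) (nat_lit 36157309) (nat_lit 2712415) [(nat_lit 572509), (nat_lit 1720049), (nat_lit 0), (nat_lit 8267169)]) (PF.cons (PF.leaf (nat_lit 9120728) (nat_lit 577379) (nat_lit 35704996) (nat_lit 2710251) [(nat_lit 577379), (nat_lit 1722692), (nat_lit 0), (nat_lit 8220452)]) PF.nil))))) (PF.cons (PF.cons (PF.leaf (nat_lit 8544782) (nat_lit 1713251) (nat_lit 36179741) (nat_lit 2706559) [(nat_lit 0), (nat_lit 1713251), (nat_lit 0), (nat_lit 8265336)]) (PF.cons (PF.leaf (nat_lit 8862179) (nat_lit 570636) (nat_lit 35740069) (nat_lit 2704885) [(nat_lit 570636), (nat_lit 1716410), (nat_lit 0), (nat_lit 8220133)]) (PF.cons (PF.leaf (nat_lit 9184188) (nat_lit 575488) (nat_lit 35298611) (nat_lit 2702141) [(nat_lit 575488), (nat_lit 1718596), (nat_lit 0), (nat_lit 8173296)])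 (PF.cons PF.nil PF.nil)))) (PF.cons (PF.cons (PF.leaf (nat_lit 9248469) (nat_lit 1714192) (nat_lit 34895981) (nat_lit 2693616) [(nat_lit 0), (nat_lit 1714192), (nat_lit 0), (nat_lit 8125545)]) (PF.cons (PF.leaf (nat_lit 9567884) (nat_lit 577475) (nat_lit 34464926) (nat_lit 2689374) [(nat_lit 577475), (nat_lit 1715081), (nat_lit 0), (nat_lit 8077263)]) PF.nil)) (PF.cons PF.nil PF.nil))))) (PF.cons (PF.cons (PF.cons
 (PF.leaf (nat_lit 8287598) (nat_lit 2688848) (nat_lit 36051945) (nat_lit 2688848) [(nat_lit 0), (nat_lit 0), (nat_lit 3653895), (nat_lit 8238040)]) (PF.cons (PF.leaf (nat_lit 8594755) (nat_lit 559506) (nat_lit 35629684) (nat_lit 2688078) [(nat_lit 559506), (nat_lit 0), (nat_lit 3647246), (nat_lit 8194765)]) (PF.cons (PF.leaf (nat_lit 8908096) (nat_lit 565393) (nat_lit 35203300) (nat_lit 2686210) [(nat_lit 565393), (nat_lit 0), (nat_lit 3639406), (nat_lit 8149702)]) (PF.cons (PF.leaf (nat_lit 9225917) (nat_lit 570386) (nat_lit 34774791) (nat_lit 2683290) [(nat_lit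 570386), (nat_lit 0), (nat_lit 3630427), (nat_lit 8103048)]) (PF.cons PF.nil PF.nil))))) (PF.cons (PF.cons (PF.leaf (nat_lit 8977453) (nat_lit 1700032) (nat_lit 34799050) (nat_lit 2677995) [(nat_lit 0), (nat_lit 1700032), (nat_lit 3625960), (nat_lit 8101925)]) (PF.cons (PF.leaf (nat_lit 9288905) (nat_lit 568155) (nat_lit 34381708) (nat_lit 2674579) [(nat_lit 568155), (nat_lit 1701775), (nat_lit 3616496), (nat_lit 8055365)]) (PF.cons (PF.leaf (nat_lit 9604527) (nat_lit 572395) (nat_lit 33963044) (nat_lit 2670212) [(nat_lit 572395), (nat_lit 1702639), (nat_lit 3605996), (nat_lit 8007376)]) (PF.cons PF.nil PF.nil))))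
 (PF.cons (PF.cons (PF.leaf (nat_lit 9662962) (nat_lit 1697477) (nat_lit 33583934) (nat_lit 2660719) [(nat_lit 0), (nat_lit 1697477), (nat_lit 3591225), (nat_lit 7959326)]) (PF.cons PF.nil PF.nil)) PF.nil))) (PF.cons (PF.cons (PF.cons (PF.leaf (nat_lit 9391769) (nat_lit 2646188) (nat_lit 33498999) (nat_lit 2646188) [(nat_lit 0), (nat_lit 0), (nat_lit 3575581), (nat_lit 7937487)]) (PF.cons (PF.leaf (nat_lit 9697202) (nat_lit 564701) (nat_lit 33103118) (nat_lit 2641362) [(nat_lit 564701), (nat_lit 0), (nat_lit 3564626), (nat_lit 7890125)]) (PF.cons PF.nil PF.nil))) (PF.cons (PF.cons (PF.leaf (nat_lit 10059564) (nat_lit 1678844) (nat_lit 32349296) (nat_lit 2625472) [(nat_lit 0), (nat_lit 1678844), (nat_lit 3537239), (nat_lit 7793573)]) PF.nil) PF.nil)) (PF.cons PF.nil (PF.cons PF.nil PF.nil))))) (PF.cons (PF.cons (PF.cons (PF.cons (PF.leaf (nat_lit 8840488) (nat_lit 2593497) (nat_lit 33144053) (nat_lit 2593497) [(nat_lit 0), (nat_lit 0), (nat_lit 0), (nat_lit 7842815)])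 (PF.cons (PF.leaf (nat_lit 9133378) (nat_lit 543039) (nat_lit 32775540) (nat_lit 2591043) [(nat_lit 543039), (nat_lit 0), (nat_lit 0), (nat_lit 7799797)]) (PF.cons (PF.leaf (nat_lit 9431966) (nat_lit 548260) (nat_lit
 32403457) (nat_lit 2587637) [(nat_lit 548260), (nat_lit 0), (nat_lit 0), (nat_lit 7755299)]) (PF.cons (PF.leaf (nat_lit 9734649) (nat_lit 552638) (nat_lit 32029514) (nat_lit 2583329) [(nat_lit 552638), (nat_lit 0), (nat_lit 0), (nat_lit 7709513)]) (PF.cons PF.nil PF.nil))))) (PF.cons (PF.cons (PF.leaf (nat_lit 9493035) (nat_lit 1641527) (nat_lit 32052557) (nat_lit 2578607) [(nat_lit 0), (nat_lit 1641527), (nat_lit 0), (nat_lit 7709030)]) (PF.cons (PF.leaf (nat_lit 9789707) (nat_lit 550182) (nat_lit 31688236) (nat_lit 2573960) [(nat_lit 550182), (nat_lit 1642176), (nat_lit 0), (nat_lit 7663564)]) (PF.cons PF.nil (PF.cons PF.nil PF.nil)))) (PF.cons (PF.cons (PF.leaf (nat_lit 10141336) (nat_lit 1636462) (nat_lit 30993275) (nat_lit 2558586) [(nat_lit 0), (nat_lit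 1636462), (nat_lit 0), (nat_lit 7571006)]) (PF.cons PF.nil PF.nil)) PF.nil))) (PF.cons (PF.cons (PF.cons (PF.leaf (nat_lit 9877112) (nat_lit 2545417) (nat_lit 30924376) (nat_lit 2545417) [(nat_lit 0), (nat_lit 0), (nat_lit 3431593), (nat_lit 7551856)]) (PF.cons (PF.leaf (nat_lit 10168252) (nat_lit 546122) (nat_lit 30578204) (nat_lit 2539735) [(nat_lit 546122), (nat_lit 0), (nat_lit 3419937), (nat_lit 7506203)]) PF.nil))
 (PF.cons PF.nil PF.nil)) (PF.cons PF.nil PF.nil))) (PF.cons (PF.cons (PF.cons (PF.cons (PF.leaf (nat_lit 10320305) (nat_lit 2448343) (nat_lit 28694524) (nat_lit 2448343) [(nat_lit 0), (nat_lit 0), (nat_lit 0), (nat_lit 7193188)]) (PF.cons PF.nil PF.nil)) (PF.cons PF.nil PF.nil)) (PF.cons PF.nil PF.nil)) (PF.cons PF.nil (PF.cons PF.nil (PF.cons PF.nil PF.nil)))))))))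

def p12_15_0_0 : pfC (piC [(nat_lit 36888796), (nat_lit 24534081), (nat_lit 18263511), (nat_lit 12310016)] (nat_lit 24304186)) p12_15_0 (nat_lit 4) (nat_lit 0) (nat_lit 1) = true := by decide +kernel
def p12_15_0_1 : pfC (piC [(nat_lit 36888796), (nat_lit 24534081), (nat_lit 18263511), (nat_lit 12310016)] (nat_lit 24304186)) p12_15_0 (nat_lit 4) (nat_lit 1) (nat_lit 2) = true := by decide +kernel
def p12_15_0_2 : pfC (piC [(nat_lit 36888796), (nat_lit 24534081), (nat_lit 18263511), (nat_lit 12310016)] (nat_lit 24304186)) p12_15_0 (nat_lit 4) (nat_lit 2) (nat_lit 3) = true := by decide +kernel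
def p12_15_0_3 : pfC (piC [(nat_lit 36888796), (nat_lit 24534081), (nat_lit 18263511), (nat_lit 12310016)] (nat_lit 24304186)) p12_15_0 (nat_lit 4) (nat_lit 3) (nat_lit 4) = true := by decide +kernel
def p12_15_0_4 : pfC (piC [(nat_lit 36888796), (nat_lit 24534081), (nat_lit 18263511), (nat_lit 12310016)] (nat_lit 24304186)) p12_15_0 (nat_lit 4) (nat_lit 4) (nat_lit 5) = true := by decide +kernel
def p12_15_0_5 : pfC (piC [(nat_lit 36888796), (nat_lit 24534081), (nat_lit 18263511), (nat_lit 12310016)] (nat_lit 24304186)) p12_15_0 (nat_lit 4) (nat_lit 5) (nat_lit 6) = true := by decide +kernel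
def p12_15_0_6 : pfC (piC [(nat_lit 36888796), (nat_lit 24534081), (nat_lit 18263511), (nat_lit 12310016)] (nat_lit 24304186)) p12_15_0 (nat_lit 4) (nat_lit 6) (nat_lit 7) = true := by decide +kernel
def p12_15_0_7 : pfC (piC [(nat_lit 36888796), (nat_lit 24534081), (nat_lit 18263511), (nat_lit 12310016)] (nat_lit 24304186)) p12_15_0 (nat_lit 4) (nat_lit 7) (nat_lit 8) = true := by decide +kernel
def p12_15_0_8 : pfC (piC [(nat_lit 36888796), (nat_lit 24534081), (nat_lit 18263511), (nat_lit 12310016)] (nat_lit 24304186)) p12_15_0 (nat_lit 4) (nat_lit 8) (nat_lit 9) = true := by decide +kernel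
def p12_15_0_9 : pfC (piC [(nat_lit 36888796), (nat_lit 24534081), (nat_lit 18263511), (nat_lit 12310016)] (nat_lit 24304186)) p12_15_0 (nat_lit 4) (nat_lit 9) (nat_lit 10) = true := by decide +kernel
def p12_15_0_10 : pfC (piC [(nat_lit 36888796), (nat_lit 24534081), (nat_lit 18263511), (nat_lit 12310016)] (nat_lit 24304186)) p12_15_0 (nat_lit 4) (nat_lit 10) (nat_lit 11) = true := by decide +kernel
def p12_15_0_11 : pfC (piC [(nat_lit 36888796), (nat_lit 24534081), (nat_lit 18263511), (nat_lit 12310016)] (nat_lit 24304186)) p12_15_0 (nat_lit 4) (nat_lit 11) (nat_lit 12) = true := by decide +kernel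
def p12_15_0_12 : pfC (piC [(nat_lit 36888796), (nat_lit 24534081), (nat_lit 18263511), (nat_lit 12310016)] (nat_lit 24304186)) p12_15_0 (nat_lit 4) (nat_lit 12) (nat_lit 13) = true := by decide +kernel
def p12_15_0_13 : pfC (piC [(nat_lit 36888796), (nat_lit 24534081), (nat_lit 18263511), (nat_lit 12310016)] (nat_lit 24304186)) p12_15_0 (nat_lit 4) (nat_lit 13) (nat_lit 14) = true := by decide +kernel
def p12_15_0_14 : pfC (piC [(nat_lit 36888796), (nat_lit 24534081), (nat_lit 18263511), (nat_lit 12310016)] (nat_lit 24304186)) p12_15_0 (nat_lit 4) (nat_lit 14) (nat_lit 15) = true := by decide +kernel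
def p12_15_0_15 : pfC (piC [(nat_lit 36888796), (nat_lit 24534081), (nat_lit 18263511), (nat_lit 12310016)] (nat_lit 24304186)) p12_15_0 (nat_lit 4) (nat_lit 15) (nat_lit 16) = true := by decide +kernel
def p12_15_0_16 : pfC (piC [(nat_lit 36888796), (nat_lit 24534081), (nat_lit 18263511), (nat_lit 12310016)] (nat_lit 24304186)) p12_15_0 (nat_lit 4) (nat_lit 16) (nat_lit 17) = true := by decide +kernel
def p12_15_0_17 : pfC (piC [(nat_lit 36888796), (nat_lit 24534081), (nat_lit 18263511), (nat_lit 12310016)] (nat_lit 24304186)) p12_15_0 (nat_lit 4) (nat_lit 17) (nat_lit 18) = true := by decide +kernel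
def p12_15_0_18 : pfC (piC [(nat_lit 36888796), (nat_lit 24534081), (nat_lit 18263511), (nat_lit 12310016)] (nat_lit 24304186)) p12_15_0 (nat_lit 4) (nat_lit 18) (nat_lit 19) = true := by decide +kernel
def p12_15_0_19 : pfC (piC [(nat_lit 36888796), (nat_lit 24534081), (nat_lit 18263511), (nat_lit 12310016)] (nat_lit 24304186)) p12_15_0 (nat_lit 4) (nat_lit 19) (nat_lit 20) = true := by decide +kernel
def p12_15_0_20 : pfC (piC [(nat_lit 36888796), (nat_lit 24534081), (nat_lit 18263511), (nat_lit 12310016)] (nat_lit 24304186)) p12_15_0 (nat_lit 4) (nat_lit 20) (nat_lit 21) = true := by decide +kernel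
def p12_15_0_21 : pfC (piC [(nat_lit 36888796), (nat_lit 24534081), (nat_lit 18263511), (nat_lit 12310016)] (nat_lit 24304186)) p12_15_0 (nat_lit 4) (nat_lit 21) (nat_lit 22) = true := by decide +kernel
def p12_15_0_22 : pfC (piC [(nat_lit 36888796), (nat_lit 24534081), (nat_lit 18263511), (nat_lit 12310016)] (nat_lit 24304186)) p12_15_0 (nat_lit 4) (nat_lit 22) (nat_lit 23) = true := by decide +kernel
def p12_15_0_23 : pfC (piC [(nat_lit 36888796), (nat_lit 24534081), (nat_lit 18263511), (nat_lit 12310016)] (nat_lit 24304186)) p12_15_0 (nat_lit 4) (nat_lit 23) (nat_lit 24) = true := by decide +kernel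
def p12_15_0_24 : pfC (piC [(nat_lit 36888796), (nat_lit 24534081), (nat_lit 18263511), (nat_lit 12310016)] (nat_lit 24304186)) p12_15_0 (nat_lit 4) (nat_lit 24) (nat_lit 25) = true := by decide +kernel
def p12_15_0_25 : pfC (piC [(nat_lit 36888796), (nat_lit 24534081), (nat_lit 18263511), (nat_lit 12310016)] (nat_lit 24304186)) p12_15_0 (nat_lit 4) (nat_lit 25) (nat_lit 26) = true := by decide +kernel
def p12_15_0_26 : pfC (piC [(nat_lit 36888796), (nat_lit 24534081), (nat_lit 18263511), (nat_lit 12310016)] (nat_lit 24304186)) p12_15_0 (nat_lit 4) (nat_lit 26) (nat_lit 27) = true := by decide +kernel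
def p12_15_0_27 : pfC (piC [(nat_lit 36888796), (nat_lit 24534081), (nat_lit 18263511), (nat_lit 12310016)] (nat_lit 24304186)) p12_15_0 (nat_lit 4) (nat_lit 27) (nat_lit 28) = true := by decide +kernel
def p12_15_0_28 : pfC (piC [(nat_lit 36888796), (nat_lit 24534081), (nat_lit 18263511), (nat_lit 12310016)] (nat_lit 24304186)) p12_15_0 (nat_lit 4) (nat_lit 28) (nat_lit 29) = true := by decide +kernel
def p12_15_0_29 : pfC (piC [(nat_lit 36888796), (nat_lit 24534081), (nat_lit 18263511), (nat_lit 12310016)] (nat_lit 24304186)) p12_15_0 (nat_lit 4) (nat_lit 29) (nat_lit 30) = true := by decide +kernel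
def p12_15_0_30 : pfC (piC [(nat_lit 36888796), (nat_lit 24534081), (nat_lit 18263511), (nat_lit 12310016)] (nat_lit 24304186)) p12_15_0 (nat_lit 4) (nat_lit 30) (nat_lit 31) = true := by decide +kernel
def p12_15_0_31 : pfC (piC [(nat_lit 36888796), (nat_lit 24534081), (nat_lit 18263511), (nat_lit 12310016)] (nat_lit 24304186)) p12_15_0 (nat_lit 4) (nat_lit 31) (nat_lit 32) = true := by decide +kernel
def p12_15_0_32 : pfC (piC [(nat_lit 36888796), (nat_lit 24534081), (nat_lit 18263511), (nat_lit 12310016)] (nat_lit 24304186)) p12_15_0 (nat_lit 4) (nat_lit 32) (nat_lit 33) = true := by decide +kernel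
def p12_15_0_33 : pfC (piC [(nat_lit 36888796), (nat_lit 24534081), (nat_lit 18263511), (nat_lit 12310016)] (nat_lit 24304186)) p12_15_0 (nat_lit 4) (nat_lit 33) (nat_lit 34) = true := by decide +kernel
def p12_15_0_34 : pfC (piC [(nat_lit 36888796), (nat_lit 24534081), (nat_lit 18263511), (nat_lit 12310016)] (nat_lit 24304186)) p12_15_0 (nat_lit 4) (nat_lit 34) (nat_lit 35) = true := by decide +kernel
def p12_15_0_35 : pfC (piC [(nat_lit 36888796), (nat_lit 24534081), (nat_lit 18263511), (nat_lit 12310016)] (nat_lit 24304186)) p12_15_0 (nat_lit 4) (nat_lit 35) (nat_lit 36) = true := by decide +kernel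
def p12_15_0_36 : pfC (piC [(nat_lit 36888796), (nat_lit 24534081), (nat_lit 18263511), (nat_lit 12310016)] (nat_lit 24304186)) p12_15_0 (nat_lit 4) (nat_lit 36) (nat_lit 37) = true := by decide +kernel
def p12_15_0_37 : pfC (piC [(nat_lit 36888796), (nat_lit 24534081), (nat_lit 18263511), (nat_lit 12310016)] (nat_lit 24304186)) p12_15_0 (nat_lit 4) (nat_lit 37) (nat_lit 38) = true := by decide +kernel
def p12_15_0_38 : pfC (piC [(nat_lit 36888796), (nat_lit 24534081), (nat_lit 18263511), (nat_lit 12310016)] (nat_lit 24304186)) p12_15_0 (nat_lit 4) (nat_lit 38) (nat_lit 39) = true := by decide +kernel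
def p12_15_0_39 : pfC (piC [(nat_lit 36888796), (nat_lit 24534081), (nat_lit 18263511), (nat_lit 12310016)] (nat_lit 24304186)) p12_15_0 (nat_lit 4) (nat_lit 39) (nat_lit 40) = true := by decide +kernel
def p12_15_0_40 : pfC (piC [(nat_lit 36888796), (nat_lit 24534081), (nat_lit 18263511), (nat_lit 12310016)] (nat_lit 24304186)) p12_15_0 (nat_lit 4) (nat_lit 40) (nat_lit 41) = true := by decide +kernel
def p12_15_0_41 : pfC (piC [(nat_lit 36888796), (nat_lit 24534081), (nat_lit 18263511), (nat_lit 12310016)] (nat_lit 24304186)) p12_15_0 (nat_lit 4) (nat_lit 41) (nat_lit 42) = true := by decide +kernel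
def p12_15_0_42 : pfC (piC [(nat_lit 36888796), (nat_lit 24534081), (nat_lit 18263511), (nat_lit 12310016)] (nat_lit 24304186)) p12_15_0 (nat_lit 4) (nat_lit 42) (nat_lit 43) = true := by decide +kernel
def p12_15_0_43 : pfC (piC [(nat_lit 36888796), (nat_lit 24534081), (nat_lit 18263511), (nat_lit 12310016)] (nat_lit 24304186)) p12_15_0 (nat_lit 4) (nat_lit 43) (nat_lit 44) = true := by decide +kernel
def p12_15_0_44 : pfC (piC [(nat_lit 36888796), (nat_lit 24534081), (nat_lit 18263511), (nat_lit 12310016)] (nat_lit 24304186)) p12_15_0 (nat_lit 4) (nat_lit 44) (nat_lit 45) = true := by decide +kernel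
def p12_15_0_45 : pfC (piC [(nat_lit 36888796), (nat_lit 24534081), (nat_lit 18263511), (nat_lit 12310016)] (nat_lit 24304186)) p12_15_0 (nat_lit 4) (nat_lit 45) (nat_lit 46) = true := by decide +kernel
def p12_15_0_46 : pfC (piC [(nat_lit 36888796), (nat_lit 24534081), (nat_lit 18263511), (nat_lit 12310016)] (nat_lit 24304186)) p12_15_0 (nat_lit 4) (nat_lit 46) (nat_lit 47) = true := by decide +kernel
def p12_15_0_47 : pfC (piC [(nat_lit 36888796), (nat_lit 24534081), (nat_lit 18263511), (nat_lit 12310016)] (nat_lit 24304186)) p12_15_0 (nat_lit 4) (nat_lit 47) (nat_lit 48) = true := by decide +kernel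
def p12_15_0_48 : pfC (piC [(nat_lit 36888796), (nat_lit 24534081), (nat_lit 18263511), (nat_lit 12310016)] (nat_lit 24304186)) p12_15_0 (nat_lit 4) (nat_lit 48) (nat_lit 49) = true := by decide +kernel
def p12_15_0_49 : pfC (piC [(nat_lit 36888796), (nat_lit 24534081), (nat_lit 18263511), (nat_lit 12310016)] (nat_lit 24304186)) p12_15_0 (nat_lit 4) (nat_lit 49) (nat_lit 50) = true := by decide +kernel
def p12_15_0_50 : pfC (piC [(nat_lit 36888796), (nat_lit 24534081), (nat_lit 18263511), (nat_lit 12310016)] (nat_lit 24304186)) p12_15_0 (nat_lit 4) (nat_lit 50) (nat_lit 51) = true := by decide +kernel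
def p12_15_0_51 : pfC (piC [(nat_lit 36888796), (nat_lit 24534081), (nat_lit 18263511), (nat_lit 12310016)] (nat_lit 24304186)) p12_15_0 (nat_lit 4) (nat_lit 51) (nat_lit 52) = true := by decide +kernel
def p12_15_0_52 : pfC (piC [(nat_lit 36888796), (nat_lit 24534081), (nat_lit 18263511), (nat_lit 12310016)] (nat_lit 24304186)) p12_15_0 (nat_lit 4) (nat_lit 52) (nat_lit 53) = true := by decide +kernel
def p12_15_0_53 : pfC (piC [(nat_lit 36888796), (nat_lit 24534081), (nat_lit 18263511), (nat_lit 12310016)] (nat_lit 24304186)) p12_15_0 (nat_lit 4) (nat_lit 53) (nat_lit 54) = true := by decide +kernel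
def p12_15_0_54 : pfC (piC [(nat_lit 36888796), (nat_lit 24534081), (nat_lit 18263511), (nat_lit 12310016)] (nat_lit 24304186)) p12_15_0 (nat_lit 4) (nat_lit 54) (nat_lit 55) = true := by decide +kernel
def p12_15_0_55 : pfC (piC [(nat_lit 36888796), (nat_lit 24534081), (nat_lit 18263511), (nat_lit 12310016)] (nat_lit 24304186)) p12_15_0 (nat_lit 4) (nat_lit 55) (nat_lit 56) = true := by decide +kernel
def p12_15_0_56 : pfC (piC [(nat_lit 36888796), (nat_lit 24534081), (nat_lit 18263511), (nat_lit 12310016)] (nat_lit 24304186)) p12_15_0 (nat_lit 4) (nat_lit 56) (nat_lit 57) = true := by decide +kernel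
def p12_15_0_57 : pfC (piC [(nat_lit 36888796), (nat_lit 24534081), (nat_lit 18263511), (nat_lit 12310016)] (nat_lit 24304186)) p12_15_0 (nat_lit 4) (nat_lit 57) (nat_lit 58) = true := by decide +kernel
def p12_15_0_58 : pfC (piC [(nat_lit 36888796), (nat_lit 24534081), (nat_lit 18263511), (nat_lit 12310016)] (nat_lit 24304186)) p12_15_0 (nat_lit 4) (nat_lit 58) (nat_lit 59) = true := by decide +kernel
def p12_15_0_59 : pfC (piC [(nat_lit 36888796), (nat_lit 24534081), (nat_lit 18263511), (nat_lit 12310016)] (nat_lit 24304186)) p12_15_0 (nat_lit 4) (nat_lit 59) (nat_lit 60) = true := by decide +kernel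
def p12_15_0_60 : pfC (piC [(nat_lit 36888796), (nat_lit 24534081), (nat_lit 18263511), (nat_lit 12310016)] (nat_lit 24304186)) p12_15_0 (nat_lit 4) (nat_lit 60) (nat_lit 61) = true := by decide +kernel
def p12_15_0_61 : pfC (piC [(nat_lit 36888796), (nat_lit 24534081), (nat_lit 18263511), (nat_lit 12310016)] (nat_lit 24304186)) p12_15_0 (nat_lit 4) (nat_lit 61) (nat_lit 62) = true := by decide +kernel
def p12_15_0_62 : pfC (piC [(nat_lit 36888796), (nat_lit 24534081), (nat_lit 18263511), (nat_lit 12310016)] (nat_lit 24304186)) p12_15_0 (nat_lit 4) (nat_lit 62) (nat_lit 63) = true := by decide +kernel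
def p12_15_0_63 : pfC (piC [(nat_lit 36888796), (nat_lit 24534081), (nat_lit 18263511), (nat_lit 12310016)] (nat_lit 24304186)) p12_15_0 (nat_lit 4) (nat_lit 63) (nat_lit 64) = true := by decide +kernel
def p12_15_0_64 : pfC (piC [(nat_lit 36888796), (nat_lit 24534081), (nat_lit 18263511), (nat_lit 12310016)] (nat_lit 24304186)) p12_15_0 (nat_lit 4) (nat_lit 64) (nat_lit 65) = true := by decide +kernel
def p12_15_0_65 : pfC (piC [(nat_lit 36888796), (nat_lit 24534081), (nat_lit 18263511), (nat_lit 12310016)] (nat_lit 24304186)) p12_15_0 (nat_lit 4) (nat_lit 65) (nat_lit 66) = true := by decide +kernel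
def p12_15_0_66 : pfC (piC [(nat_lit 36888796), (nat_lit 24534081), (nat_lit 18263511), (nat_lit 12310016)] (nat_lit 24304186)) p12_15_0 (nat_lit 4) (nat_lit 66) (nat_lit 67) = true := by decide +kernel
def p12_15_0_67 : pfC (piC [(nat_lit 36888796), (nat_lit 24534081), (nat_lit 18263511), (nat_lit 12310016)] (nat_lit 24304186)) p12_15_0 (nat_lit 4) (nat_lit 67) (nat_lit 68) = true := by decide +kernel
def p12_15_0_68 : pfC (piC [(nat_lit 36888796), (nat_lit 24534081), (nat_lit 18263511), (nat_lit 12310016)] (nat_lit 24304186)) p12_15_0 (nat_lit 4) (nat_lit 68) (nat_lit 69) = true := by decide +kernel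
def p12_15_0_69 : pfC (piC [(nat_lit 36888796), (nat_lit 24534081), (nat_lit 18263511), (nat_lit 12310016)] (nat_lit 24304186)) p12_15_0 (nat_lit 4) (nat_lit 69) (nat_lit 70) = true := by decide +kernel
def p12_15_0_70 : pfC (piC [(nat_lit 36888796), (nat_lit 24534081), (nat_lit 18263511), (nat_lit 12310016)] (nat_lit 24304186)) p12_15_0 (nat_lit 4) (nat_lit 70) (nat_lit 71) = true := by decide +kernel
def p12_15_0_71 : pfC (piC [(nat_lit 36888796), (nat_lit 24534081), (nat_lit 18263511), (nat_lit 12310016)] (nat_lit 24304186)) p12_15_0 (nat_lit 4) (nat_lit 71) (nat_lit 72) = true := by decide +kernel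
def p12_15_0_72 : pfC (piC [(nat_lit 36888796), (nat_lit 24534081), (nat_lit 18263511), (nat_lit 12310016)] (nat_lit 24304186)) p12_15_0 (nat_lit 4) (nat_lit 72) (nat_lit 73) = true := by decide +kernel
def p12_15_0_73 : pfC (piC [(nat_lit 36888796), (nat_lit 24534081), (nat_lit 18263511), (nat_lit 12310016)] (nat_lit 24304186)) p12_15_0 (nat_lit 4) (nat_lit 73) (nat_lit 74) = true := by decide +kernel
def p12_15_0_74 : pfC (piC [(nat_lit 36888796), (nat_lit 24534081), (nat_lit 18263511), (nat_lit 12310016)] (nat_lit 24304186)) p12_15_0 (nat_lit 4) (nat_lit 74) (nat_lit 75) = true := by decide +kernel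
def p12_15_0_75 : pfC (piC [(nat_lit 36888796), (nat_lit 24534081), (nat_lit 18263511), (nat_lit 12310016)] (nat_lit 24304186)) p12_15_0 (nat_lit 4) (nat_lit 75) (nat_lit 76) = true := by decide +kernel
def p12_15_0_76 : pfC (piC [(nat_lit 36888796), (nat_lit 24534081), (nat_lit 18263511), (nat_lit 12310016)] (nat_lit 24304186)) p12_15_0 (nat_lit 4) (nat_lit 76) (nat_lit 77) = true := by decide +kernel
def p12_15_0_77 : pfC (piC [(nat_lit 36888796), (nat_lit 24534081), (nat_lit 18263511), (nat_lit 12310016)] (nat_lit 24304186)) p12_15_0 (nat_lit 4) (nat_lit 77) (nat_lit 78) = true := by decide +kernel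
def p12_15_0_78 : pfC (piC [(nat_lit 36888796), (nat_lit 24534081), (nat_lit 18263511), (nat_lit 12310016)] (nat_lit 24304186)) p12_15_0 (nat_lit 4) (nat_lit 78) (nat_lit 79) = true := by decide +kernel
def p12_15_0_79 : pfC (piC [(nat_lit 36888796), (nat_lit 24534081), (nat_lit 18263511), (nat_lit 12310016)] (nat_lit 24304186)) p12_15_0 (nat_lit 4) (nat_lit 79) (nat_lit 80) = true := by decide +kernel
def p12_15_0_80 : pfC (piC [(nat_lit 36888796), (nat_lit 24534081), (nat_lit 18263511), (nat_lit 12310016)] (nat_lit 24304186)) p12_15_0 (nat_lit 4) (nat_lit 80) (nat_lit 81) = true := by decide +kernel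
def p12_15_0_81 : pfC (piC [(nat_lit 36888796), (nat_lit 24534081), (nat_lit 18263511), (nat_lit 12310016)] (nat_lit 24304186)) p12_15_0 (nat_lit 4) (nat_lit 81) (nat_lit 82) = true := by decide +kernel
def p12_15_0_82 : pfC (piC [(nat_lit 36888796), (nat_lit 24534081), (nat_lit 18263511), (nat_lit 12310016)] (nat_lit 24304186)) p12_15_0 (nat_lit 4) (nat_lit 82) (nat_lit 83) = true := by decide +kernel
def p12_15_0_83 : pfC (piC [(nat_lit 36888796), (nat_lit 24534081), (nat_lit 18263511), (nat_lit 12310016)] (nat_lit 24304186)) p12_15_0 (nat_lit 4) (nat_lit 83) (nat_lit 84) = true := by decide +kernel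
def p12_15_0_84 : pfC (piC [(nat_lit 36888796), (nat_lit 24534081), (nat_lit 18263511), (nat_lit 12310016)] (nat_lit 24304186)) p12_15_0 (nat_lit 4) (nat_lit 84) (nat_lit 85) = true := by decide +kernel
def p12_15_0_85 : pfC (piC [(nat_lit 36888796), (nat_lit 24534081), (nat_lit 18263511), (nat_lit 12310016)] (nat_lit 24304186)) p12_15_0 (nat_lit 4) (nat_lit 85) (nat_lit 86) = true := by decide +kernel
def p12_15_0_86 : pfC (piC [(nat_lit 36888796), (nat_lit 24534081), (nat_lit 18263511), (nat_lit 12310016)] (nat_lit 24304186)) p12_15_0 (nat_lit 4) (nat_lit 86) (nat_lit 87) = true := by decide +kernel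
def p12_15_0_87 : pfC (piC [(nat_lit 36888796), (nat_lit 24534081), (nat_lit 18263511), (nat_lit 12310016)] (nat_lit 24304186)) p12_15_0 (nat_lit 4) (nat_lit 87) (nat_lit 88) = true := by decide +kernel
def p12_15_0_88 : pfC (piC [(nat_lit 36888796), (nat_lit 24534081), (nat_lit 18263511), (nat_lit 12310016)] (nat_lit 24304186)) p12_15_0 (nat_lit 4) (nat_lit 88) (nat_lit 89) = true := by decide +kernel
def p12_15_0_89 : pfC (piC [(nat_lit 36888796), (nat_lit 24534081), (nat_lit 18263511), (nat_lit 12310016)] (nat_lit 24304186)) p12_15_0 (nat_lit 4) (nat_lit 89) (nat_lit 90) = true := by decide +kernel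
def p12_15_0_90 : pfC (piC [(nat_lit 36888796), (nat_lit 24534081), (nat_lit 18263511), (nat_lit 12310016)] (nat_lit 24304186)) p12_15_0 (nat_lit 4) (nat_lit 90) (nat_lit 91) = true := by decide +kernel
def p12_15_0_91 : pfC (piC [(nat_lit 36888796), (nat_lit 24534081), (nat_lit 18263511), (nat_lit 12310016)] (nat_lit 24304186)) p12_15_0 (nat_lit 4) (nat_lit 91) (nat_lit 92) = true := by decide +kernel
def p12_15_0_92 : pfC (piC [(nat_lit 36888796), (nat_lit 24534081), (nat_lit 18263511), (nat_lit 12310016)] (nat_lit 24304186)) p12_15_0 (nat_lit 4) (nat_lit 92) (nat_lit 93) = true := by decide +kernel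
def p12_15_0_93 : pfC (piC [(nat_lit 36888796), (nat_lit 24534081), (nat_lit 18263511), (nat_lit 12310016)] (nat_lit 24304186)) p12_15_0 (nat_lit 4) (nat_lit 93) (nat_lit 94) = true := by decide +kernel
def p12_15_0_94 : pfC (piC [(nat_lit 36888796), (nat_lit 24534081), (nat_lit 18263511), (nat_lit 12310016)] (nat_lit 24304186)) p12_15_0 (nat_lit 4) (nat_lit 94) (nat_lit 95) = true := by decide +kernel
def p12_15_0_95 : pfC (piC [(nat_lit 36888796), (nat_lit 24534081), (nat_lit 18263511), (nat_lit 12310016)] (nat_lit 24304186)) p12_15_0 (nat_lit 4) (nat_lit 95) (nat_lit 96) = true := by decide +kernel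
def p12_15_0_96 : pfC (piC [(nat_lit 36888796), (nat_lit 24534081), (nat_lit 18263511), (nat_lit 12310016)] (nat_lit 24304186)) p12_15_0 (nat_lit 4) (nat_lit 96) (nat_lit 97) = true := by decide +kernel
def p12_15_0_97 : pfC (piC [(nat_lit 36888796), (nat_lit 24534081), (nat_lit 18263511), (nat_lit 12310016)] (nat_lit 24304186)) p12_15_0 (nat_lit 4) (nat_lit 97) (nat_lit 98) = true := by decide +kernel
def p12_15_0_98 : pfC (piC [(nat_lit 36888796), (nat_lit 24534081), (nat_lit 18263511), (nat_lit 12310016)] (nat_lit 24304186)) p12_15_0 (nat_lit 4) (nat_lit 98) (nat_lit 99) = true := by decide +kernel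
def p12_15_0_99 : pfC (piC [(nat_lit 36888796), (nat_lit 24534081), (nat_lit 18263511), (nat_lit 12310016)] (nat_lit 24304186)) p12_15_0 (nat_lit 4) (nat_lit 99) (nat_lit 100) = true := by decide +kernel
def p12_15_0_100 : pfC (piC [(nat_lit 36888796), (nat_lit 24534081), (nat_lit 18263511), (nat_lit 12310016)] (nat_lit 24304186)) p12_15_0 (nat_lit 4) (nat_lit 100) (nat_lit 101) = true := by decide +kernel
def p12_15_0_101 : pfC (piC [(nat_lit 36888796), (nat_lit 24534081), (nat_lit 18263511), (nat_lit 12310016)] (nat_lit 24304186)) p12_15_0 (nat_lit 4) (nat_lit 101) (nat_lit 102) = true := by decide +kernel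
def p12_15_0_102 : pfC (piC [(nat_lit 36888796), (nat_lit 24534081), (nat_lit 18263511), (nat_lit 12310016)] (nat_lit 24304186)) p12_15_0 (nat_lit 4) (nat_lit 102) (nat_lit 103) = true := by decide +kernel
def p12_15_0_103 : pfC (piC [(nat_lit 36888796), (nat_lit 24534081), (nat_lit 18263511), (nat_lit 12310016)] (nat_lit 24304186)) p12_15_0 (nat_lit 4) (nat_lit 103) (nat_lit 104) = true := by decide +kernel
def p12_15_0_104 : pfC (piC [(nat_lit 36888796), (nat_lit 24534081), (nat_lit 18263511), (nat_lit 12310016)] (nat_lit 24304186)) p12_15_0 (nat_lit 4) (nat_lit 104) (nat_lit 105) = true := by decide +kernel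
def p12_15_0_105 : pfC (piC [(nat_lit 36888796), (nat_lit 24534081), (nat_lit 18263511), (nat_lit 12310016)] (nat_lit 24304186)) p12_15_0 (nat_lit 4) (nat_lit 105) (nat_lit 106) = true := by decide +kernel
def p12_15_0_106 : pfC (piC [(nat_lit 36888796), (nat_lit 24534081), (nat_lit 18263511), (nat_lit 12310016)] (nat_lit 24304186)) p12_15_0 (nat_lit 4) (nat_lit 106) (nat_lit 107) = true := by decide +kernel
def p12_15_0_107 : pfC (piC [(nat_lit 36888796), (nat_lit 24534081), (nat_lit 18263511), (nat_lit 12310016)] (nat_lit 24304186)) p12_15_0 (nat_lit 4) (nat_lit 107) (nat_lit 108) = true := by decide +kernel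
def p12_15_0_108 : pfC (piC [(nat_lit 36888796), (nat_lit 24534081), (nat_lit 18263511), (nat_lit 12310016)] (nat_lit 24304186)) p12_15_0 (nat_lit 4) (nat_lit 108) (nat_lit 109) = true := by decide +kernel
def p12_15_0_109 : pfC (piC [(nat_lit 36888796), (nat_lit 24534081), (nat_lit 18263511), (nat_lit 12310016)] (nat_lit 24304186)) p12_15_0 (nat_lit 4) (nat_lit 109) (nat_lit 110) = true := by decide +kernel
def p12_15_0_110 : pfC (piC [(nat_lit 36888796), (nat_lit 24534081), (nat_lit 18263511), (nat_lit 12310016)] (nat_lit 24304186)) p12_15_0 (nat_lit 4) (nat_lit 110) (nat_lit 111) = true := by decide +kernel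
def p12_15_0_111 : pfC (piC [(nat_lit 36888796), (nat_lit 24534081), (nat_lit 18263511), (nat_lit 12310016)] (nat_lit 24304186)) p12_15_0 (nat_lit 4) (nat_lit 111) (nat_lit 112) = true := by decide +kernel
def p12_15_0_112 : pfC (piC [(nat_lit 36888796), (nat_lit 24534081), (nat_lit 18263511), (nat_lit 12310016)] (nat_lit 24304186)) p12_15_0 (nat_lit 4) (nat_lit 112) (nat_lit 113) = true := by decide +kernel
def p12_15_0_113 : pfC (piC [(nat_lit 36888796), (nat_lit 24534081), (nat_lit 18263511), (nat_lit 12310016)] (nat_lit 24304186)) p12_15_0 (nat_lit 4) (nat_lit 113) (nat_lit 114) = true := by decide +kernel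
def p12_15_0_114 : pfC (piC [(nat_lit 36888796), (nat_lit 24534081), (nat_lit 18263511), (nat_lit 12310016)] (nat_lit 24304186)) p12_15_0 (nat_lit 4) (nat_lit 114) (nat_lit 115) = true := by decide +kernel
def p12_15_0_115 : pfC (piC [(nat_lit 36888796), (nat_lit 24534081), (nat_lit 18263511), (nat_lit 12310016)] (nat_lit 24304186)) p12_15_0 (nat_lit 4) (nat_lit 115) (nat_lit 116) = true := by decide +kernel
def p12_15_0_116 : pfC (piC [(nat_lit 36888796), (nat_lit 24534081), (nat_lit 18263511), (nat_lit 12310016)] (nat_lit 24304186)) p12_15_0 (nat_lit 4) (nat_lit 116) (nat_lit 117) = true := by decide +kernel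
def p12_15_0_117 : pfC (piC [(nat_lit 36888796), (nat_lit 24534081), (nat_lit 18263511), (nat_lit 12310016)] (nat_lit 24304186)) p12_15_0 (nat_lit 4) (nat_lit 117) (nat_lit 118) = true := by decide +kernel
def p12_15_0_118 : pfC (piC [(nat_lit 36888796), (nat_lit 24534081), (nat_lit 18263511), (nat_lit 12310016)] (nat_lit 24304186)) p12_15_0 (nat_lit 4) (nat_lit 118) (nat_lit 119) = true := by decide +kernel
def p12_15_0_119 : pfC (piC [(nat_lit 36888796), (nat_lit 24534081), (nat_lit 18263511), (nat_lit 12310016)] (nat_lit 24304186)) p12_15_0 (nat_lit 4) (nat_lit 119) (nat_lit 120) = true := by decide +kernel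
def p12_15_0_120 : pfC (piC [(nat_lit 36888796), (nat_lit 24534081), (nat_lit 18263511), (nat_lit 12310016)] (nat_lit 24304186)) p12_15_0 (nat_lit 4) (nat_lit 120) (nat_lit 121) = true := by decide +kernel
def p12_15_0_121 : pfC (piC [(nat_lit 36888796), (nat_lit 24534081), (nat_lit 18263511), (nat_lit 12310016)] (nat_lit 24304186)) p12_15_0 (nat_lit 4) (nat_lit 121) (nat_lit 122) = true := by decide +kernel
def p12_15_0_122 : pfC (piC [(nat_lit 36888796), (nat_lit 24534081), (nat_lit 18263511), (nat_lit 12310016)] (nat_lit 24304186)) p12_15_0 (nat_lit 4) (nat_lit 122) (nat_lit 123) = true := by decide +kernel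
def p12_15_0_123 : pfC (piC [(nat_lit 36888796), (nat_lit 24534081), (nat_lit 18263511), (nat_lit 12310016)] (nat_lit 24304186)) p12_15_0 (nat_lit 4) (nat_lit 123) (nat_lit 124) = true := by decide +kernel
def p12_15_0_124 : pfC (piC [(nat_lit 36888796), (nat_lit 24534081), (nat_lit 18263511), (nat_lit 12310016)] (nat_lit 24304186)) p12_15_0 (nat_lit 4) (nat_lit 124) (nat_lit 125) = true := by decide +kernel
def p12_15_0_125 : pfC (piC [(nat_lit 36888796), (nat_lit 24534081), (nat_lit 18263511), (nat_lit 12310016)] (nat_lit 24304186)) p12_15_0 (nat_lit 4) (nat_lit 125) (nat_lit 126) = true := by decide +kernel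
def p12_15_0_126 : pfC (piC [(nat_lit 36888796), (nat_lit 24534081), (nat_lit 18263511), (nat_lit 12310016)] (nat_lit 24304186)) p12_15_0 (nat_lit 4) (nat_lit 126) (nat_lit 127) = true := by decide +kernel
def p12_15_0_127 : pfC (piC [(nat_lit 36888796), (nat_lit 24534081), (nat_lit 18263511), (nat_lit 12310016)] (nat_lit 24304186)) p12_15_0 (nat_lit 4) (nat_lit 127) (nat_lit 128) = true := by decide +kernel
def p12_15_0_128 : pfC (piC [(nat_lit 36888796), (nat_lit 24534081), (nat_lit 18263511), (nat_lit 12310016)] (nat_lit 24304186)) p12_15_0 (nat_lit 4) (nat_lit 128) (nat_lit 129) = true := by decide +kernel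
def p12_15_0_129 : pfC (piC [(nat_lit 36888796), (nat_lit 24534081), (nat_lit 18263511), (nat_lit 12310016)] (nat_lit 24304186)) p12_15_0 (nat_lit 4) (nat_lit 129) (nat_lit 130) = true := by decide +kernel
def p12_15_0_130 : pfC (piC [(nat_lit 36888796), (nat_lit 24534081), (nat_lit 18263511), (nat_lit 12310016)] (nat_lit 24304186)) p12_15_0 (nat_lit 4) (nat_lit 130) (nat_lit 131) = true := by decide +kernel
def p12_15_0_131 : pfC (piC [(nat_lit 36888796), (nat_lit 24534081), (nat_lit 18263511), (nat_lit 12310016)] (nat_lit 24304186)) p12_15_0 (nat_lit 4) (nat_lit 131) (nat_lit 132) = true := by decide +kernel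
def p12_15_0_132 : pfC (piC [(nat_lit 36888796), (nat_lit 24534081), (nat_lit 18263511), (nat_lit 12310016)] (nat_lit 24304186)) p12_15_0 (nat_lit 4) (nat_lit 132) (nat_lit 133) = true := by decide +kernel
def p12_15_0_133 : pfC (piC [(nat_lit 36888796), (nat_lit 24534081), (nat_lit 18263511), (nat_lit 12310016)] (nat_lit 24304186)) p12_15_0 (nat_lit 4) (nat_lit 133) (nat_lit 134) = true := by decide +kernel
def p12_15_0_134 : pfC (piC [(nat_lit 36888796), (nat_lit 24534081), (nat_lit 18263511), (nat_lit 12310016)] (nat_lit 24304186)) p12_15_0 (nat_lit 4) (nat_lit 134) (nat_lit 135) = true := by decide +kernel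
def p12_15_0_135 : pfC (piC [(nat_lit 36888796), (nat_lit 24534081), (nat_lit 18263511), (nat_lit 12310016)] (nat_lit 24304186)) p12_15_0 (nat_lit 4) (nat_lit 135) (nat_lit 136) = true := by decide +kernel
def p12_15_0_136 : pfC (piC [(nat_lit 36888796), (nat_lit 24534081), (nat_lit 18263511), (nat_lit 12310016)] (nat_lit 24304186)) p12_15_0 (nat_lit 4) (nat_lit 136) (nat_lit 137) = true := by decide +kernel
def p12_15_0_137 : pfC (piC [(nat_lit 36888796), (nat_lit 24534081), (nat_lit 18263511), (nat_lit 12310016)] (nat_lit 24304186)) p12_15_0 (nat_lit 4) (nat_lit 137) (nat_lit 138) = true := by decide +kernel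
def p12_15_0_138 : pfC (piC [(nat_lit 36888796), (nat_lit 24534081), (nat_lit 18263511), (nat_lit 12310016)] (nat_lit 24304186)) p12_15_0 (nat_lit 4) (nat_lit 138) (nat_lit 139) = true := by decide +kernel
def p12_15_0_139 : pfC (piC [(nat_lit 36888796), (nat_lit 24534081), (nat_lit 18263511), (nat_lit 12310016)] (nat_lit 24304186)) p12_15_0 (nat_lit 4) (nat_lit 139) (nat_lit 140) = true := by decide +kernel
def p12_15_0_140 : pfC (piC [(nat_lit 36888796), (nat_lit 24534081), (nat_lit 18263511), (nat_lit 12310016)] (nat_lit 24304186)) p12_15_0 (nat_lit 4) (nat_lit 140) (nat_lit 141) = true := by decide +kernel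
def p12_15_0_141 : pfC (piC [(nat_lit 36888796), (nat_lit 24534081), (nat_lit 18263511), (nat_lit 12310016)] (nat_lit 24304186)) p12_15_0 (nat_lit 4) (nat_lit 141) (nat_lit 142) = true := by decide +kernel
def p12_15_0_142 : pfC (piC [(nat_lit 36888796), (nat_lit 24534081), (nat_lit 18263511), (nat_lit 12310016)] (nat_lit 24304186)) p12_15_0 (nat_lit 4) (nat_lit 142) (nat_lit 143) = true := by decide +kernel
def p12_15_0_143 : pfC (piC [(nat_lit 36888796), (nat_lit 24534081), (nat_lit 18263511), (nat_lit 12310016)] (nat_lit 24304186)) p12_15_0 (nat_lit 4) (nat_lit 143) (nat_lit 144) = true := by decide +kernel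
def p12_15_0_144 : pfC (piC [(nat_lit 36888796), (nat_lit 24534081), (nat_lit 18263511), (nat_lit 12310016)] (nat_lit 24304186)) p12_15_0 (nat_lit 4) (nat_lit 144) (nat_lit 145) = true := by decide +kernel
def p12_15_0_145 : pfC (piC [(nat_lit 36888796), (nat_lit 24534081), (nat_lit 18263511), (nat_lit 12310016)] (nat_lit 24304186)) p12_15_0 (nat_lit 4) (nat_lit 145) (nat_lit 146) = true := by decide +kernel
def p12_15_0_146 : pfC (piC [(nat_lit 36888796), (nat_lit 24534081), (nat_lit 18263511), (nat_lit 12310016)] (nat_lit 24304186)) p12_15_0 (nat_lit 4) (nat_lit 146) (nat_lit 147) = true := by decide +kernel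
def p12_15_0_147 : pfC (piC [(nat_lit 36888796), (nat_lit 24534081), (nat_lit 18263511), (nat_lit 12310016)] (nat_lit 24304186)) p12_15_0 (nat_lit 4) (nat_lit 147) (nat_lit 148) = true := by decide +kernel
def p12_15_0_148 : pfC (piC [(nat_lit 36888796), (nat_lit 24534081), (nat_lit 18263511), (nat_lit 12310016)] (nat_lit 24304186)) p12_15_0 (nat_lit 4) (nat_lit 148) (nat_lit 149) = true := by decide +kernel
def p12_15_0_149 : pfC (piC [(nat_lit 36888796), (nat_lit 24534081), (nat_lit 18263511), (nat_lit 12310016)] (nat_lit 24304186)) p12_15_0 (nat_lit 4) (nat_lit 149) (nat_lit 150) = true := by decide +kernel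
def p12_15_0_150 : pfC (piC [(nat_lit 36888796), (nat_lit 24534081), (nat_lit 18263511), (nat_lit 12310016)] (nat_lit 24304186)) p12_15_0 (nat_lit 4) (nat_lit 150) (nat_lit 151) = true := by decide +kernel
def p12_15_0_151 : pfC (piC [(nat_lit 36888796), (nat_lit 24534081), (nat_lit 18263511), (nat_lit 12310016)] (nat_lit 24304186)) p12_15_0 (nat_lit 4) (nat_lit 151) (nat_lit 152) = true := by decide +kernel
def p12_15_0_152 : pfC (piC [(nat_lit 36888796), (nat_lit 24534081), (nat_lit 18263511), (nat_lit 12310016)] (nat_lit 24304186)) p12_15_0 (nat_lit 4) (nat_lit 152) (nat_lit 153) = true := by decide +kernel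
def p12_15_0_153 : pfC (piC [(nat_lit 36888796), (nat_lit 24534081), (nat_lit 18263511), (nat_lit 12310016)] (nat_lit 24304186)) p12_15_0 (nat_lit 4) (nat_lit 153) (nat_lit 154) = true := by decide +kernel
def p12_15_0_154 : pfC (piC [(nat_lit 36888796), (nat_lit 24534081), (nat_lit 18263511), (nat_lit 12310016)] (nat_lit 24304186)) p12_15_0 (nat_lit 4) (nat_lit 154) (nat_lit 155) = true := by decide +kernel
def p12_15_0_155 : pfC (piC [(nat_lit 36888796), (nat_lit 24534081), (nat_lit 18263511), (nat_lit 12310016)] (nat_lit 24304186)) p12_15_0 (nat_lit 4) (nat_lit 155) (nat_lit 156) = true := by decide +kernel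
def p12_15_0_156 : pfC (piC [(nat_lit 36888796), (nat_lit 24534081), (nat_lit 18263511), (nat_lit 12310016)] (nat_lit 24304186)) p12_15_0 (nat_lit 4) (nat_lit 156) (nat_lit 157) = true := by decide +kernel
def p12_15_0_157 : pfC (piC [(nat_lit 36888796), (nat_lit 24534081), (nat_lit 18263511), (nat_lit 12310016)] (nat_lit 24304186)) p12_15_0 (nat_lit 4) (nat_lit 157) (nat_lit 158) = true := by decide +kernel
def p12_15_0_158 : pfC (piC [(nat_lit 36888796), (nat_lit 24534081), (nat_lit 18263511), (nat_lit 12310016)] (nat_lit 24304186)) p12_15_0 (nat_lit 4) (nat_lit 158) (nat_lit 159) = true := by decide +kernel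
def p12_15_0_159 : pfC (piC [(nat_lit 36888796), (nat_lit 24534081), (nat_lit 18263511), (nat_lit 12310016)] (nat_lit 24304186)) p12_15_0 (nat_lit 4) (nat_lit 159) (nat_lit 160) = true := by decide +kernel
def p12_15_0_160 : pfC (piC [(nat_lit 36888796), (nat_lit 24534081), (nat_lit 18263511), (nat_lit 12310016)] (nat_lit 24304186)) p12_15_0 (nat_lit 4) (nat_lit 160) (nat_lit 161) = true := by decide +kernel
def p12_15_0_161 : pfC (piC [(nat_lit 36888796), (nat_lit 24534081), (nat_lit 18263511), (nat_lit 12310016)] (nat_lit 24304186)) p12_15_0 (nat_lit 4) (nat_lit 161) (nat_lit 162) = true := by decide +kernel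
def p12_15_0_162 : pfC (piC [(nat_lit 36888796), (nat_lit 24534081), (nat_lit 18263511), (nat_lit 12310016)] (nat_lit 24304186)) p12_15_0 (nat_lit 4) (nat_lit 162) (nat_lit 163) = true := by decide +kernel
def p12_15_0_163 : pfC (piC [(nat_lit 36888796), (nat_lit 24534081), (nat_lit 18263511), (nat_lit 12310016)] (nat_lit 24304186)) p12_15_0 (nat_lit 4) (nat_lit 163) (nat_lit 164) = true := by decide +kernel
def p12_15_0_164 : pfC (piC [(nat_lit 36888796), (nat_lit 24534081), (nat_lit 18263511), (nat_lit 12310016)] (nat_lit 24304186)) p12_15_0 (nat_lit 4) (nat_lit 164) (nat_lit 165) = true := by decide +kernel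
def p12_15_0_165 : pfC (piC [(nat_lit 36888796), (nat_lit 24534081), (nat_lit 18263511), (nat_lit 12310016)] (nat_lit 24304186)) p12_15_0 (nat_lit 4) (nat_lit 165) (nat_lit 166) = true := by decide +kernel
def p12_15_0_166 : pfC (piC [(nat_lit 36888796), (nat_lit 24534081), (nat_lit 18263511), (nat_lit 12310016)] (nat_lit 24304186)) p12_15_0 (nat_lit 4) (nat_lit 166) (nat_lit 167) = true := by decide +kernel
def p12_15_0_167 : pfC (piC [(nat_lit 36888796), (nat_lit 24534081), (nat_lit 18263511), (nat_lit 12310016)] (nat_lit 24304186)) p12_15_0 (nat_lit 4) (nat_lit 167) (nat_lit 168) = true := by decide +kernel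
def p12_15_0_168 : pfC (piC [(nat_lit 36888796), (nat_lit 24534081), (nat_lit 18263511), (nat_lit 12310016)] (nat_lit 24304186)) p12_15_0 (nat_lit 4) (nat_lit 168) (nat_lit 169) = true := by decide +kernel
def p12_15_0_169 : pfC (piC [(nat_lit 36888796), (nat_lit 24534081), (nat_lit 18263511), (nat_lit 12310016)] (nat_lit 24304186)) p12_15_0 (nat_lit 4) (nat_lit 169) (nat_lit 170) = true := by decide +kernel
def p12_15_0_170 : pfC (piC [(nat_lit 36888796), (nat_lit 24534081), (nat_lit 18263511), (nat_lit 12310016)] (nat_lit 24304186)) p12_15_0 (nat_lit 4) (nat_lit 170) (nat_lit 171) = true := by decide +kernel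
def p12_15_0_171 : pfC (piC [(nat_lit 36888796), (nat_lit 24534081), (nat_lit 18263511), (nat_lit 12310016)] (nat_lit 24304186)) p12_15_0 (nat_lit 4) (nat_lit 171) (nat_lit 172) = true := by decide +kernel
def p12_15_0_172 : pfC (piC [(nat_lit 36888796), (nat_lit 24534081), (nat_lit 18263511), (nat_lit 12310016)] (nat_lit 24304186)) p12_15_0 (nat_lit 4) (nat_lit 172) (nat_lit 173) = true := by decide +kernel
def p12_15_0_173 : pfC (piC [(nat_lit 36888796), (nat_lit 24534081), (nat_lit 18263511), (nat_lit 12310016)] (nat_lit 24304186)) p12_15_0 (nat_lit 4) (nat_lit 173) (nat_lit 174) = true := by decide +kernel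
def p12_15_0_174 : pfC (piC [(nat_lit 36888796), (nat_lit 24534081), (nat_lit 18263511), (nat_lit 12310016)] (nat_lit 24304186)) p12_15_0 (nat_lit 4) (nat_lit 174) (nat_lit 175) = true := by decide +kernel
def p12_15_0_175 : pfC (piC [(nat_lit 36888796), (nat_lit 24534081), (nat_lit 18263511), (nat_lit 12310016)] (nat_lit 24304186)) p12_15_0 (nat_lit 4) (nat_lit 175) (nat_lit 176) = true := by decide +kernel
def p12_15_0_176 : pfC (piC [(nat_lit 36888796), (nat_lit 24534081), (nat_lit 18263511), (nat_lit 12310016)] (nat_lit 24304186)) p12_15_0 (nat_lit 4) (nat_lit 176) (nat_lit 177) = true := by decide +kernel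
def p12_15_0_177 : pfC (piC [(nat_lit 36888796), (nat_lit 24534081), (nat_lit 18263511), (nat_lit 12310016)] (nat_lit 24304186)) p12_15_0 (nat_lit 4) (nat_lit 177) (nat_lit 178) = true := by decide +kernel
def p12_15_0_178 : pfC (piC [(nat_lit 36888796), (nat_lit 24534081), (nat_lit 18263511), (nat_lit 12310016)] (nat_lit 24304186)) p12_15_0 (nat_lit 4) (nat_lit 178) (nat_lit 179) = true := by decide +kernel
def p12_15_0_179 : pfC (piC [(nat_lit 36888796), (nat_lit 24534081), (nat_lit 18263511), (nat_lit 12310016)] (nat_lit 24304186)) p12_15_0 (nat_lit 4) (nat_lit 179) (nat_lit 180) = true := by decide +kernel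
def p12_15_0_180 : pfC (piC [(nat_lit 36888796), (nat_lit 24534081), (nat_lit 18263511), (nat_lit 12310016)] (nat_lit 24304186)) p12_15_0 (nat_lit 4) (nat_lit 180) (nat_lit 181) = true := by decide +kernel
def p12_15_0_181 : pfC (piC [(nat_lit 36888796), (nat_lit 24534081), (nat_lit 18263511), (nat_lit 12310016)] (nat_lit 24304186)) p12_15_0 (nat_lit 4) (nat_lit 181) (nat_lit 182) = true := by decide +kernel
def p12_15_0_182 : pfC (piC [(nat_lit 36888796), (nat_lit 24534081), (nat_lit 18263511), (nat_lit 12310016)] (nat_lit 24304186)) p12_15_0 (nat_lit 4) (nat_lit 182) (nat_lit 183) = true := by decide +kernel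
def p12_15_0_183 : pfC (piC [(nat_lit 36888796), (nat_lit 24534081), (nat_lit 18263511), (nat_lit 12310016)] (nat_lit 24304186)) p12_15_0 (nat_lit 4) (nat_lit 183) (nat_lit 184) = true := by decide +kernel
def p12_15_0_184 : pfC (piC [(nat_lit 36888796), (nat_lit 24534081), (nat_lit 18263511), (nat_lit 12310016)] (nat_lit 24304186)) p12_15_0 (nat_lit 4) (nat_lit 184) (nat_lit 185) = true := by decide +kernel
def p12_15_0_185 : pfC (piC [(nat_lit 36888796), (nat_lit 24534081), (nat_lit 18263511), (nat_lit 12310016)] (nat_lit 24304186)) p12_15_0 (nat_lit 4) (nat_lit 185) (nat_lit 186) = true := by decide +kernel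
def p12_15_0_186 : pfC (piC [(nat_lit 36888796), (nat_lit 24534081), (nat_lit 18263511), (nat_lit 12310016)] (nat_lit 24304186)) p12_15_0 (nat_lit 4) (nat_lit 186) (nat_lit 187) = true := by decide +kernel
def p12_15_0_187 : pfC (piC [(nat_lit 36888796), (nat_lit 24534081), (nat_lit 18263511), (nat_lit 12310016)] (nat_lit 24304186)) p12_15_0 (nat_lit 4) (nat_lit 187) (nat_lit 188) = true := by decide +kernel
def p12_15_0_188 : pfC (piC [(nat_lit 36888796), (nat_lit 24534081), (nat_lit 18263511), (nat_lit 12310016)] (nat_lit 24304186)) p12_15_0 (nat_lit 4) (nat_lit 188) (nat_lit 189) = true := by decide +kernel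
def p12_15_0_189 : pfC (piC [(nat_lit 36888796), (nat_lit 24534081), (nat_lit 18263511), (nat_lit 12310016)] (nat_lit 24304186)) p12_15_0 (nat_lit 4) (nat_lit 189) (nat_lit 190) = true := by decide +kernel
def p12_15_0_190 : pfC (piC [(nat_lit 36888796), (nat_lit 24534081), (nat_lit 18263511), (nat_lit 12310016)] (nat_lit 24304186)) p12_15_0 (nat_lit 4) (nat_lit 190) (nat_lit 191) = true := by decide +kernel
def p12_15_0_191 : pfC (piC [(nat_lit 36888796), (nat_lit 24534081), (nat_lit 18263511), (nat_lit 12310016)] (nat_lit 24304186)) p12_15_0 (nat_lit 4) (nat_lit 191) (nat_lit 192) = true := by decide +kernel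
def p12_15_0_192 : pfC (piC [(nat_lit 36888796), (nat_lit 24534081), (nat_lit 18263511), (nat_lit 12310016)] (nat_lit 24304186)) p12_15_0 (nat_lit 4) (nat_lit 192) (nat_lit 193) = true := by decide +kernel
def p12_15_0_193 : pfC (piC [(nat_lit 36888796), (nat_lit 24534081), (nat_lit 18263511), (nat_lit 12310016)] (nat_lit 24304186)) p12_15_0 (nat_lit 4) (nat_lit 193) (nat_lit 194) = true := by decide +kernel
def p12_15_0_194 : pfC (piC [(nat_lit 36888796), (nat_lit 24534081), (nat_lit 18263511), (nat_lit 12310016)] (nat_lit 24304186)) p12_15_0 (nat_lit 4) (nat_lit 194) (nat_lit 195) = true := by decide +kernel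
def p12_15_0_195 : pfC (piC [(nat_lit 36888796), (nat_lit 24534081), (nat_lit 18263511), (nat_lit 12310016)] (nat_lit 24304186)) p12_15_0 (nat_lit 4) (nat_lit 195) (nat_lit 196) = true := by decide +kernel
def p12_15_0_196 : pfC (piC [(nat_lit 36888796), (nat_lit 24534081), (nat_lit 18263511), (nat_lit 12310016)] (nat_lit 24304186)) p12_15_0 (nat_lit 4) (nat_lit 196) (nat_lit 197) = true := by decide +kernel
def p12_15_0_197 : pfC (piC [(nat_lit 36888796), (nat_lit 24534081), (nat_lit 18263511), (nat_lit 12310016)] (nat_lit 24304186)) p12_15_0 (nat_lit 4) (nat_lit 197) (nat_lit 198) = true := by decide +kernel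
def p12_15_0_198 : pfC (piC [(nat_lit 36888796), (nat_lit 24534081), (nat_lit 18263511), (nat_lit 12310016)] (nat_lit 24304186)) p12_15_0 (nat_lit 4) (nat_lit 198) (nat_lit 199) = true := by decide +kernel
def p12_15_0_199 : pfC (piC [(nat_lit 36888796), (nat_lit 24534081), (nat_lit 18263511), (nat_lit 12310016)] (nat_lit 24304186)) p12_15_0 (nat_lit 4) (nat_lit 199) (nat_lit 200) = true := by decide +kernel
def p12_15_0_200 : pfC (piC [(nat_lit 36888796), (nat_lit 24534081), (nat_lit 18263511), (nat_lit 12310016)] (nat_lit 24304186)) p12_15_0 (nat_lit 4) (nat_lit 200) (nat_lit 201) = true := by decide +kernel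
def p12_15_0_201 : pfC (piC [(nat_lit 36888796), (nat_lit 24534081), (nat_lit 18263511), (nat_lit 12310016)] (nat_lit 24304186)) p12_15_0 (nat_lit 4) (nat_lit 201) (nat_lit 202) = true := by decide +kernel
def p12_15_0_202 : pfC (piC [(nat_lit 36888796), (nat_lit 24534081), (nat_lit 18263511), (nat_lit 12310016)] (nat_lit 24304186)) p12_15_0 (nat_lit 4) (nat_lit 202) (nat_lit 203) = true := by decide +kernel
def p12_15_0_203 : pfC (piC [(nat_lit 36888796), (nat_lit 24534081), (nat_lit 18263511), (nat_lit 12310016)] (nat_lit 24304186)) p12_15_0 (nat_lit 4) (nat_lit 203) (nat_lit 204) = true := by decide +kernel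
def p12_15_0_204 : pfC (piC [(nat_lit 36888796), (nat_lit 24534081), (nat_lit 18263511), (nat_lit 12310016)] (nat_lit 24304186)) p12_15_0 (nat_lit 4) (nat_lit 204) (nat_lit 205) = true := by decide +kernel
def p12_15_0_205 : pfC (piC [(nat_lit 36888796), (nat_lit 24534081), (nat_lit 18263511), (nat_lit 12310016)] (nat_lit 24304186)) p12_15_0 (nat_lit 4) (nat_lit 205) (nat_lit 206) = true := by decide +kernel
def p12_15_0_206 : pfC (piC [(nat_lit 36888796), (nat_lit 24534081), (nat_lit 18263511), (nat_lit 12310016)] (nat_lit 24304186)) p12_15_0 (nat_lit 4) (nat_lit 206) (nat_lit 207) = true := by decide +kernel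
def p12_15_0_207 : pfC (piC [(nat_lit 36888796), (nat_lit 24534081), (nat_lit 18263511), (nat_lit 12310016)] (nat_lit 24304186)) p12_15_0 (nat_lit 4) (nat_lit 207) (nat_lit 208) = true := by decide +kernel
def p12_15_0_208 : pfC (piC [(nat_lit 36888796), (nat_lit 24534081), (nat_lit 18263511), (nat_lit 12310016)] (nat_lit 24304186)) p12_15_0 (nat_lit 4) (nat_lit 208) (nat_lit 209) = true := by decide +kernel
def p12_15_0_209 : pfC (piC [(nat_lit 36888796), (nat_lit 24534081), (nat_lit 18263511), (nat_lit 12310016)] (nat_lit 24304186)) p12_15_0 (nat_lit 4) (nat_lit 209) (nat_lit 210) = true := by decide +kernel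
def p12_15_0_210 : pfC (piC [(nat_lit 36888796), (nat_lit 24534081), (nat_lit 18263511), (nat_lit 12310016)] (nat_lit 24304186)) p12_15_0 (nat_lit 4) (nat_lit 210) (nat_lit 211) = true := by decide +kernel
def p12_15_0_211 : pfC (piC [(nat_lit 36888796), (nat_lit 24534081), (nat_lit 18263511), (nat_lit 12310016)] (nat_lit 24304186)) p12_15_0 (nat_lit 4) (nat_lit 211) (nat_lit 212) = true := by decide +kernel
def p12_15_0_212 : pfC (piC [(nat_lit 36888796), (nat_lit 24534081), (nat_lit 18263511), (nat_lit 12310016)] (nat_lit 24304186)) p12_15_0 (nat_lit 4) (nat_lit 212) (nat_lit 213) = true := by decide +kernel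
def p12_15_0_213 : pfC (piC [(nat_lit 36888796), (nat_lit 24534081), (nat_lit 18263511), (nat_lit 12310016)] (nat_lit 24304186)) p12_15_0 (nat_lit 4) (nat_lit 213) (nat_lit 214) = true := by decide +kernel
def p12_15_0_214 : pfC (piC [(nat_lit 36888796), (nat_lit 24534081), (nat_lit 18263511), (nat_lit 12310016)] (nat_lit 24304186)) p12_15_0 (nat_lit 4) (nat_lit 214) (nat_lit 215) = true := by decide +kernel
def p12_15_0_215 : pfC (piC [(nat_lit 36888796), (nat_lit 24534081), (nat_lit 18263511), (nat_lit 12310016)] (nat_lit 24304186)) p12_15_0 (nat_lit 4) (nat_lit 215) (nat_lit 216) = true := by decide +kernel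
def p12_15_0_216 : pfC (piC [(nat_lit 36888796), (nat_lit 24534081), (nat_lit 18263511), (nat_lit 12310016)] (nat_lit 24304186)) p12_15_0 (nat_lit 4) (nat_lit 216) (nat_lit 217) = true := by decide +kernel
def p12_15_0_217 : pfC (piC [(nat_lit 36888796), (nat_lit 24534081), (nat_lit 18263511), (nat_lit 12310016)] (nat_lit 24304186)) p12_15_0 (nat_lit 4) (nat_lit 217) (nat_lit 218) = true := by decide +kernel
def p12_15_0_218 : pfC (piC [(nat_lit 36888796), (nat_lit 24534081), (nat_lit 18263511), (nat_lit 12310016)] (nat_lit 24304186)) p12_15_0 (nat_lit 4) (nat_lit 218) (nat_lit 219) = true := by decide +kernel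
def p12_15_0_219 : pfC (piC [(nat_lit 36888796), (nat_lit 24534081), (nat_lit 18263511), (nat_lit 12310016)] (nat_lit 24304186)) p12_15_0 (nat_lit 4) (nat_lit 219) (nat_lit 220) = true := by decide +kernel
def p12_15_0_220 : pfC (piC [(nat_lit 36888796), (nat_lit 24534081), (nat_lit 18263511), (nat_lit 12310016)] (nat_lit 24304186)) p12_15_0 (nat_lit 4) (nat_lit 220) (nat_lit 221) = true := by decide +kernel
def p12_15_0_221 : pfC (piC [(nat_lit 36888796), (nat_lit 24534081), (nat_lit 18263511), (nat_lit 12310016)] (nat_lit 24304186)) p12_15_0 (nat_lit 4) (nat_lit 221) (nat_lit 222) = true := by decide +kernel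
def p12_15_0_222 : pfC (piC [(nat_lit 36888796), (nat_lit 24534081), (nat_lit 18263511), (nat_lit 12310016)] (nat_lit 24304186)) p12_15_0 (nat_lit 4) (nat_lit 222) (nat_lit 223) = true := by decide +kernel
def p12_15_0_223 : pfC (piC [(nat_lit 36888796), (nat_lit 24534081), (nat_lit 18263511), (nat_lit 12310016)] (nat_lit 24304186)) p12_15_0 (nat_lit 4) (nat_lit 223) (nat_lit 224) = true := by decide +kernel
def p12_15_0_224 : pfC (piC [(nat_lit 36888796), (nat_lit 24534081), (nat_lit 18263511), (nat_lit 12310016)] (nat_lit 24304186)) p12_15_0 (nat_lit 4) (nat_lit 224) (nat_lit 225) = true := by decide +kernel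
def p12_15_0_225 : pfC (piC [(nat_lit 36888796), (nat_lit 24534081), (nat_lit 18263511), (nat_lit 12310016)] (nat_lit 24304186)) p12_15_0 (nat_lit 4) (nat_lit 225) (nat_lit 226) = true := by decide +kernel
def p12_15_0_226 : pfC (piC [(nat_lit 36888796), (nat_lit 24534081), (nat_lit 18263511), (nat_lit 12310016)] (nat_lit 24304186)) p12_15_0 (nat_lit 4) (nat_lit 226) (nat_lit 227) = true := by decide +kernel
def p12_15_0_227 : pfC (piC [(nat_lit 36888796), (nat_lit 24534081), (nat_lit 18263511), (nat_lit 12310016)] (nat_lit 24304186)) p12_15_0 (nat_lit 4) (nat_lit 227) (nat_lit 228) = true := by decide +kernel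
def p12_15_0_228 : pfC (piC [(nat_lit 36888796), (nat_lit 24534081), (nat_lit 18263511), (nat_lit 12310016)] (nat_lit 24304186)) p12_15_0 (nat_lit 4) (nat_lit 228) (nat_lit 229) = true := by decide +kernel
def p12_15_0_229 : pfC (piC [(nat_lit 36888796), (nat_lit 24534081), (nat_lit 18263511), (nat_lit 12310016)] (nat_lit 24304186)) p12_15_0 (nat_lit 4) (nat_lit 229) (nat_lit 230) = true := by decide +kernel
def p12_15_0_230 : pfC (piC [(nat_lit 36888796), (nat_lit 24534081), (nat_lit 18263511), (nat_lit 12310016)] (nat_lit 24304186)) p12_15_0 (nat_lit 4) (nat_lit 230) (nat_lit 231) = true := by decide +kernel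
def p12_15_0_231 : pfC (piC [(nat_lit 36888796), (nat_lit 24534081), (nat_lit 18263511), (nat_lit 12310016)] (nat_lit 24304186)) p12_15_0 (nat_lit 4) (nat_lit 231) (nat_lit 232) = true := by decide +kernel
def p12_15_0_232 : pfC (piC [(nat_lit 36888796), (nat_lit 24534081), (nat_lit 18263511), (nat_lit 12310016)] (nat_lit 24304186)) p12_15_0 (nat_lit 4) (nat_lit 232) (nat_lit 233) = true := by decide +kernel
def p12_15_0_233 : pfC (piC [(nat_lit 36888796), (nat_lit 24534081), (nat_lit 18263511), (nat_lit 12310016)] (nat_lit 24304186)) p12_15_0 (nat_lit 4) (nat_lit 233) (nat_lit 234) = true := by decide +kernel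
def p12_15_0_234 : pfC (piC [(nat_lit 36888796), (nat_lit 24534081), (nat_lit 18263511), (nat_lit 12310016)] (nat_lit 24304186)) p12_15_0 (nat_lit 4) (nat_lit 234) (nat_lit 235) = true := by decide +kernel
def p12_15_0_235 : pfC (piC [(nat_lit 36888796), (nat_lit 24534081), (nat_lit 18263511), (nat_lit 12310016)] (nat_lit 24304186)) p12_15_0 (nat_lit 4) (nat_lit 235) (nat_lit 236) = true := by decide +kernel
def p12_15_0_236 : pfC (piC [(nat_lit 36888796), (nat_lit 24534081), (nat_lit 18263511), (nat_lit 12310016)] (nat_lit 24304186)) p12_15_0 (nat_lit 4) (nat_lit 236) (nat_lit 237) = true := by decide +kernel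
def p12_15_0_237 : pfC (piC [(nat_lit 36888796), (nat_lit 24534081), (nat_lit 18263511), (nat_lit 12310016)] (nat_lit 24304186)) p12_15_0 (nat_lit 4) (nat_lit 237) (nat_lit 238) = true := by decide +kernel
def p12_15_0_238 : pfC (piC [(nat_lit 36888796), (nat_lit 24534081), (nat_lit 18263511), (nat_lit 12310016)] (nat_lit 24304186)) p12_15_0 (nat_lit 4) (nat_lit 238) (nat_lit 239) = true := by decide +kernel
def p12_15_0_239 : pfC (piC [(nat_lit 36888796), (nat_lit 24534081), (nat_lit 18263511), (nat_lit 12310016)] (nat_lit 24304186)) p12_15_0 (nat_lit 4) (nat_lit 239) (nat_lit 240) = true := by decide +kernel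
def p12_15_0_240 : pfC (piC [(nat_lit 36888796), (nat_lit 24534081), (nat_lit 18263511), (nat_lit 12310016)] (nat_lit 24304186)) p12_15_0 (nat_lit 4) (nat_lit 240) (nat_lit 241) = true := by decide +kernel
def p12_15_0_241 : pfC (piC [(nat_lit 36888796), (nat_lit 24534081), (nat_lit 18263511), (nat_lit 12310016)] (nat_lit 24304186)) p12_15_0 (nat_lit 4) (nat_lit 241) (nat_lit 242) = true := by decide +kernel
def p12_15_0_242 : pfC (piC [(nat_lit 36888796), (nat_lit 24534081), (nat_lit 18263511), (nat_lit 12310016)] (nat_lit 24304186)) p12_15_0 (nat_lit 4) (nat_lit 242) (nat_lit 243) = true := by decide +kernel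
def p12_15_0_243 : pfC (piC [(nat_lit 36888796), (nat_lit 24534081), (nat_lit 18263511), (nat_lit 12310016)] (nat_lit 24304186)) p12_15_0 (nat_lit 4) (nat_lit 243) (nat_lit 244) = true := by decide +kernel
def p12_15_0_244 : pfC (piC [(nat_lit 36888796), (nat_lit 24534081), (nat_lit 18263511), (nat_lit 12310016)] (nat_lit 24304186)) p12_15_0 (nat_lit 4) (nat_lit 244) (nat_lit 245) = true := by decide +kernel
def p12_15_0_245 : pfC (piC [(nat_lit 36888796), (nat_lit 24534081), (nat_lit 18263511), (nat_lit 12310016)] (nat_lit 24304186)) p12_15_0 (nat_lit 4) (nat_lit 245) (nat_lit 246) = true := by decide +kernel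
def p12_15_0_246 : pfC (piC [(nat_lit 36888796), (nat_lit 24534081), (nat_lit 18263511), (nat_lit 12310016)] (nat_lit 24304186)) p12_15_0 (nat_lit 4) (nat_lit 246) (nat_lit 247) = true := by decide +kernel
def p12_15_0_247 : pfC (piC [(nat_lit 36888796), (nat_lit 24534081), (nat_lit 18263511), (nat_lit 12310016)] (nat_lit 24304186)) p12_15_0 (nat_lit 4) (nat_lit 247) (nat_lit 248) = true := by decide +kernel
def p12_15_0_248 : pfC (piC [(nat_lit 36888796), (nat_lit 24534081), (nat_lit 18263511), (nat_lit 12310016)] (nat_lit 24304186)) p12_15_0 (nat_lit 4) (nat_lit 248) (nat_lit 249) = true := by decide +kernel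
def p12_15_0_249 : pfC (piC [(nat_lit 36888796), (nat_lit 24534081), (nat_lit 18263511), (nat_lit 12310016)] (nat_lit 24304186)) p12_15_0 (nat_lit 4) (nat_lit 249) (nat_lit 250) = true := by decide +kernel
def p12_15_0_250 : pfC (piC [(nat_lit 36888796), (nat_lit 24534081), (nat_lit 18263511), (nat_lit 12310016)] (nat_lit 24304186)) p12_15_0 (nat_lit 4) (nat_lit 250) (nat_lit 251) = true := by decide +kernel
def p12_15_0_251 : pfC (piC [(nat_lit 36888796), (nat_lit 24534081), (nat_lit 18263511), (nat_lit 12310016)] (nat_lit 24304186)) p12_15_0 (nat_lit 4) (nat_lit 251) (nat_lit 252) = true := by decide +kernel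
def p12_15_0_252 : pfC (piC [(nat_lit 36888796), (nat_lit 24534081), (nat_lit 18263511), (nat_lit 12310016)] (nat_lit 24304186)) p12_15_0 (nat_lit 4) (nat_lit 252) (nat_lit 253) = true := by decide +kernel
def p12_15_0_253 : pfC (piC [(nat_lit 36888796), (nat_lit 24534081), (nat_lit 18263511), (nat_lit 12310016)] (nat_lit 24304186)) p12_15_0 (nat_lit 4) (nat_lit 253) (nat_lit 254) = true := by decide +kernel
def p12_15_0_254 : pfC (piC [(nat_lit 36888796), (nat_lit 24534081), (nat_lit 18263511), (nat_lit 12310016)] (nat_lit 24304186)) p12_15_0 (nat_lit 4) (nat_lit 254) (nat_lit 255) = true := by decide +kernel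
def p12_15_0_255 : pfC (piC [(nat_lit 36888796), (nat_lit 24534081), (nat_lit 18263511), (nat_lit 12310016)] (nat_lit 24304186)) p12_15_0 (nat_lit 4) (nat_lit 255) (nat_lit 256) = true := by decide +kernel
def p12_15_0_256 : pfC (piC [(nat_lit 36888796), (nat_lit 24534081), (nat_lit 18263511), (nat_lit 12310016)] (nat_lit 24304186)) p12_15_0 (nat_lit 4) (nat_lit 256) (nat_lit 257) = true := by decide +kernel
def p12_15_0_257 : pfC (piC [(nat_lit 36888796), (nat_lit 24534081), (nat_lit 18263511), (nat_lit 12310016)] (nat_lit 24304186)) p12_15_0 (nat_lit 4) (nat_lit 257) (nat_lit 258) = true := by decide +kernel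
def p12_15_0_258 : pfC (piC [(nat_lit 36888796), (nat_lit 24534081), (nat_lit 18263511), (nat_lit 12310016)] (nat_lit 24304186)) p12_15_0 (nat_lit 4) (nat_lit 258) (nat_lit 259) = true := by decide +kernel
def p12_15_0_259 : pfC (piC [(nat_lit 36888796), (nat_lit 24534081), (nat_lit 18263511), (nat_lit 12310016)] (nat_lit 24304186)) p12_15_0 (nat_lit 4) (nat_lit 259) (nat_lit 260) = true := by decide +kernel
def p12_15_0_260 : pfC (piC [(nat_lit 36888796), (nat_lit 24534081), (nat_lit 18263511), (nat_lit 12310016)] (nat_lit 24304186)) p12_15_0 (nat_lit 4) (nat_lit 260) (nat_lit 261) = true := by decide +kernel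
def p12_15_0_261 : pfC (piC [(nat_lit 36888796), (nat_lit 24534081), (nat_lit 18263511), (nat_lit 12310016)] (nat_lit 24304186)) p12_15_0 (nat_lit 4) (nat_lit 261) (nat_lit 262) = true := by decide +kernel
def p12_15_0_262 : pfC (piC [(nat_lit 36888796), (nat_lit 24534081), (nat_lit 18263511), (nat_lit 12310016)] (nat_lit 24304186)) p12_15_0 (nat_lit 4) (nat_lit 262) (nat_lit 263) = true := by decide +kernel
def p12_15_0_263 : pfC (piC [(nat_lit 36888796), (nat_lit 24534081), (nat_lit 18263511), (nat_lit 12310016)] (nat_lit 24304186)) p12_15_0 (nat_lit 4) (nat_lit 263) (nat_lit 264) = true := by decide +kernel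
def p12_15_0_264 : pfC (piC [(nat_lit 36888796), (nat_lit 24534081), (nat_lit 18263511), (nat_lit 12310016)] (nat_lit 24304186)) p12_15_0 (nat_lit 4) (nat_lit 264) (nat_lit 265) = true := by decide +kernel
def p12_15_0_265 : pfC (piC [(nat_lit 36888796), (nat_lit 24534081), (nat_lit 18263511), (nat_lit 12310016)] (nat_lit 24304186)) p12_15_0 (nat_lit 4) (nat_lit 265) (nat_lit 266) = true := by decide +kernel
def p12_15_0_266 : pfC (piC [(nat_lit 36888796), (nat_lit 24534081), (nat_lit 18263511), (nat_lit 12310016)] (nat_lit 24304186)) p12_15_0 (nat_lit 4) (nat_lit 266) (nat_lit 267) = true := by decide +kernel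
def p12_15_0_267 : pfC (piC [(nat_lit 36888796), (nat_lit 24534081), (nat_lit 18263511), (nat_lit 12310016)] (nat_lit 24304186)) p12_15_0 (nat_lit 4) (nat_lit 267) (nat_lit 268) = true := by decide +kernel
def p12_15_0_268 : pfC (piC [(nat_lit 36888796), (nat_lit 24534081), (nat_lit 18263511), (nat_lit 12310016)] (nat_lit 24304186)) p12_15_0 (nat_lit 4) (nat_lit 268) (nat_lit 269) = true := by decide +kernel
def p12_15_0_269 : pfC (piC [(nat_lit 36888796), (nat_lit 24534081), (nat_lit 18263511), (nat_lit 12310016)] (nat_lit 24304186)) p12_15_0 (nat_lit 4) (nat_lit 269) (nat_lit 270) = true := by decide +kernel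
def p12_15_0_270 : pfC (piC [(nat_lit 36888796), (nat_lit 24534081), (nat_lit 18263511), (nat_lit 12310016)] (nat_lit 24304186)) p12_15_0 (nat_lit 4) (nat_lit 270) (nat_lit 271) = true := by decide +kernel
def p12_15_0_271 : pfC (piC [(nat_lit 36888796), (nat_lit 24534081), (nat_lit 18263511), (nat_lit 12310016)] (nat_lit 24304186)) p12_15_0 (nat_lit 4) (nat_lit 271) (nat_lit 272) = true := by decide +kernel
def p12_15_0_272 : pfC (piC [(nat_lit 36888796), (nat_lit 24534081), (nat_lit 18263511), (nat_lit 12310016)] (nat_lit 24304186)) p12_15_0 (nat_lit 4) (nat_lit 272) (nat_lit 273) = true := by decide +kernel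
def p12_15_0_273 : pfC (piC [(nat_lit 36888796), (nat_lit 24534081), (nat_lit 18263511), (nat_lit 12310016)] (nat_lit 24304186)) p12_15_0 (nat_lit 4) (nat_lit 273) (nat_lit 274) = true := by decide +kernel
def p12_15_0_274 : pfC (piC [(nat_lit 36888796), (nat_lit 24534081), (nat_lit 18263511), (nat_lit 12310016)] (nat_lit 24304186)) p12_15_0 (nat_lit 4) (nat_lit 274) (nat_lit 275) = true := by decide +kernel
def p12_15_0_275 : pfC (piC [(nat_lit 36888796), (nat_lit 24534081), (nat_lit 18263511), (nat_lit 12310016)] (nat_lit 24304186)) p12_15_0 (nat_lit 4) (nat_lit 275) (nat_lit 276) = true := by decide +kernel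
def p12_15_0_276 : pfC (piC [(nat_lit 36888796), (nat_lit 24534081), (nat_lit 18263511), (nat_lit 12310016)] (nat_lit 24304186)) p12_15_0 (nat_lit 4) (nat_lit 276) (nat_lit 277) = true := by decide +kernel
def p12_15_0_277 : pfC (piC [(nat_lit 36888796), (nat_lit 24534081), (nat_lit 18263511), (nat_lit 12310016)] (nat_lit 24304186)) p12_15_0 (nat_lit 4) (nat_lit 277) (nat_lit 278) = true := by decide +kernel
def p12_15_0_278 : pfC (piC [(nat_lit 36888796), (nat_lit 24534081), (nat_lit 18263511), (nat_lit 12310016)] (nat_lit 24304186)) p12_15_0 (nat_lit 4) (nat_lit 278) (nat_lit 279) = true := by decide +kernel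
def p12_15_0_279 : pfC (piC [(nat_lit 36888796), (nat_lit 24534081), (nat_lit 18263511), (nat_lit 12310016)] (nat_lit 24304186)) p12_15_0 (nat_lit 4) (nat_lit 279) (nat_lit 280) = true := by decide +kernel
def p12_15_0_280 : pfC (piC [(nat_lit 36888796), (nat_lit 24534081), (nat_lit 18263511), (nat_lit 12310016)] (nat_lit 24304186)) p12_15_0 (nat_lit 4) (nat_lit 280) (nat_lit 281) = true := by decide +kernel
def p12_15_0_281 : pfC (piC [(nat_lit 36888796), (nat_lit 24534081), (nat_lit 18263511), (nat_lit 12310016)] (nat_lit 24304186)) p12_15_0 (nat_lit 4) (nat_lit 281) (nat_lit 282) = true := by decide +kernel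
def p12_15_0_282 : pfC (piC [(nat_lit 36888796), (nat_lit 24534081), (nat_lit 18263511), (nat_lit 12310016)] (nat_lit 24304186)) p12_15_0 (nat_lit 4) (nat_lit 282) (nat_lit 283) = true := by decide +kernel
def p12_15_0_283 : pfC (piC [(nat_lit 36888796), (nat_lit 24534081), (nat_lit 18263511), (nat_lit 12310016)] (nat_lit 24304186)) p12_15_0 (nat_lit 4) (nat_lit 283) (nat_lit 284) = true := by decide +kernel
def p12_15_0_284 : pfC (piC [(nat_lit 36888796), (nat_lit 24534081), (nat_lit 18263511), (nat_lit 12310016)] (nat_lit 24304186)) p12_15_0 (nat_lit 4) (nat_lit 284) (nat_lit 285) = true := by decide +kernel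
def p12_15_0_285 : pfC (piC [(nat_lit 36888796), (nat_lit 24534081), (nat_lit 18263511), (nat_lit 12310016)] (nat_lit 24304186)) p12_15_0 (nat_lit 4) (nat_lit 285) (nat_lit 286) = true := by decide +kernel
def p12_15_0_286 : pfC (piC [(nat_lit 36888796), (nat_lit 24534081), (nat_lit 18263511), (nat_lit 12310016)] (nat_lit 24304186)) p12_15_0 (nat_lit 4) (nat_lit 286) (nat_lit 287) = true := by decide +kernel
def p12_15_0_287 : pfC (piC [(nat_lit 36888796), (nat_lit 24534081), (nat_lit 18263511), (nat_lit 12310016)] (nat_lit 24304186)) p12_15_0 (nat_lit 4) (nat_lit 287) (nat_lit 288) = true := by decide +kernel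
def p12_15_0_288 : pfC (piC [(nat_lit 36888796), (nat_lit 24534081), (nat_lit 18263511), (nat_lit 12310016)] (nat_lit 24304186)) p12_15_0 (nat_lit 4) (nat_lit 288) (nat_lit 289) = true := by decide +kernel
def p12_15_0_289 : pfC (piC [(nat_lit 36888796), (nat_lit 24534081), (nat_lit 18263511), (nat_lit 12310016)] (nat_lit 24304186)) p12_15_0 (nat_lit 4) (nat_lit 289) (nat_lit 290) = true := by decide +kernel
def p12_15_0_290 : pfC (piC [(nat_lit 36888796), (nat_lit 24534081), (nat_lit 18263511), (nat_lit 12310016)] (nat_lit 24304186)) p12_15_0 (nat_lit 4) (nat_lit 290) (nat_lit 291) = true := by decide +kernel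
def p12_15_0_291 : pfC (piC [(nat_lit 36888796), (nat_lit 24534081), (nat_lit 18263511), (nat_lit 12310016)] (nat_lit 24304186)) p12_15_0 (nat_lit 4) (nat_lit 291) (nat_lit 292) = true := by decide +kernel
def p12_15_0_292 : pfC (piC [(nat_lit 36888796), (nat_lit 24534081), (nat_lit 18263511), (nat_lit 12310016)] (nat_lit 24304186)) p12_15_0 (nat_lit 4) (nat_lit 292) (nat_lit 293) = true := by decide +kernel
def p12_15_0_293 : pfC (piC [(nat_lit 36888796), (nat_lit 24534081), (nat_lit 18263511), (nat_lit 12310016)] (nat_lit 24304186)) p12_15_0 (nat_lit 4) (nat_lit 293) (nat_lit 294) = true := by decide +kernel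
def p12_15_0_294 : pfC (piC [(nat_lit 36888796), (nat_lit 24534081), (nat_lit 18263511), (nat_lit 12310016)] (nat_lit 24304186)) p12_15_0 (nat_lit 4) (nat_lit 294) (nat_lit 295) = true := by decide +kernel
def p12_15_0_295 : pfC (piC [(nat_lit 36888796), (nat_lit 24534081), (nat_lit 18263511), (nat_lit 12310016)] (nat_lit 24304186)) p12_15_0 (nat_lit 4) (nat_lit 295) (nat_lit 296) = true := by decide +kernel
def p12_15_0_296 : pfC (piC [(nat_lit 36888796), (nat_lit 24534081), (nat_lit 18263511), (nat_lit 12310016)] (nat_lit 24304186)) p12_15_0 (nat_lit 4) (nat_lit 296) (nat_lit 297) = true := by decide +kernel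
def p12_15_0_297 : pfC (piC [(nat_lit 36888796), (nat_lit 24534081), (nat_lit 18263511), (nat_lit 12310016)] (nat_lit 24304186)) p12_15_0 (nat_lit 4) (nat_lit 297) (nat_lit 298) = true := by decide +kernel
def p12_15_0_298 : pfC (piC [(nat_lit 36888796), (nat_lit 24534081), (nat_lit 18263511), (nat_lit 12310016)] (nat_lit 24304186)) p12_15_0 (nat_lit 4) (nat_lit 298) (nat_lit 299) = true := by decide +kernel
def p12_15_0_299 : pfC (piC [(nat_lit 36888796), (nat_lit 24534081), (nat_lit 18263511), (nat_lit 12310016)] (nat_lit 24304186)) p12_15_0 (nat_lit 4) (nat_lit 299) (nat_lit 300) = true := by decide +kernel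
def p12_15_0_300 : pfC (piC [(nat_lit 36888796), (nat_lit 24534081), (nat_lit 18263511), (nat_lit 12310016)] (nat_lit 24304186)) p12_15_0 (nat_lit 4) (nat_lit 300) (nat_lit 301) = true := by decide +kernel
def p12_15_0_301 : pfC (piC [(nat_lit 36888796), (nat_lit 24534081), (nat_lit 18263511), (nat_lit 12310016)] (nat_lit 24304186)) p12_15_0 (nat_lit 4) (nat_lit 301) (nat_lit 302) = true := by decide +kernel
def p12_15_0_302 : pfC (piC [(nat_lit 36888796), (nat_lit 24534081), (nat_lit 18263511), (nat_lit 12310016)] (nat_lit 24304186)) p12_15_0 (nat_lit 4) (nat_lit 302) (nat_lit 303) = true := by decide +kernel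
def p12_15_0_303 : pfC (piC [(nat_lit 36888796), (nat_lit 24534081), (nat_lit 18263511), (nat_lit 12310016)] (nat_lit 24304186)) p12_15_0 (nat_lit 4) (nat_lit 303) (nat_lit 304) = true := by decide +kernel
def p12_15_0_304 : pfC (piC [(nat_lit 36888796), (nat_lit 24534081), (nat_lit 18263511), (nat_lit 12310016)] (nat_lit 24304186)) p12_15_0 (nat_lit 4) (nat_lit 304) (nat_lit 305) = true := by decide +kernel
def p12_15_0_305 : pfC (piC [(nat_lit 36888796), (nat_lit 24534081), (nat_lit 18263511), (nat_lit 12310016)] (nat_lit 24304186)) p12_15_0 (nat_lit 4) (nat_lit 305) (nat_lit 306) = true := by decide +kernel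
def p12_15_0_306 : pfC (piC [(nat_lit 36888796), (nat_lit 24534081), (nat_lit 18263511), (nat_lit 12310016)] (nat_lit 24304186)) p12_15_0 (nat_lit 4) (nat_lit 306) (nat_lit 307) = true := by decide +kernel
def p12_15_0_307 : pfC (piC [(nat_lit 36888796), (nat_lit 24534081), (nat_lit 18263511), (nat_lit 12310016)] (nat_lit 24304186)) p12_15_0 (nat_lit 4) (nat_lit 307) (nat_lit 308) = true := by decide +kernel
def p12_15_0_308 : pfC (piC [(nat_lit 36888796), (nat_lit 24534081), (nat_lit 18263511), (nat_lit 12310016)] (nat_lit 24304186)) p12_15_0 (nat_lit 4) (nat_lit 308) (nat_lit 309) = true := by decide +kernel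
def p12_15_0_309 : pfC (piC [(nat_lit 36888796), (nat_lit 24534081), (nat_lit 18263511), (nat_lit 12310016)] (nat_lit 24304186)) p12_15_0 (nat_lit 4) (nat_lit 309) (nat_lit 310) = true := by decide +kernel
def p12_15_0_310 : pfC (piC [(nat_lit 36888796), (nat_lit 24534081), (nat_lit 18263511), (nat_lit 12310016)] (nat_lit 24304186)) p12_15_0 (nat_lit 4) (nat_lit 310) (nat_lit 311) = true := by decide +kernel
def p12_15_0_311 : pfC (piC [(nat_lit 36888796), (nat_lit 24534081), (nat_lit 18263511), (nat_lit 12310016)] (nat_lit 24304186)) p12_15_0 (nat_lit 4) (nat_lit 311) (nat_lit 312) = true := by decide +kernel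
def p12_15_0_312 : pfC (piC [(nat_lit 36888796), (nat_lit 24534081), (nat_lit 18263511), (nat_lit 12310016)] (nat_lit 24304186)) p12_15_0 (nat_lit 4) (nat_lit 312) (nat_lit 313) = true := by decide +kernel
def p12_15_0_313 : pfC (piC [(nat_lit 36888796), (nat_lit 24534081), (nat_lit 18263511), (nat_lit 12310016)] (nat_lit 24304186)) p12_15_0 (nat_lit 4) (nat_lit 313) (nat_lit 314) = true := by decide +kernel
def p12_15_0_314 : pfC (piC [(nat_lit 36888796), (nat_lit 24534081), (nat_lit 18263511), (nat_lit 12310016)] (nat_lit 24304186)) p12_15_0 (nat_lit 4) (nat_lit 314) (nat_lit 315) = true := by decide +kernel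
def p12_15_0_315 : pfC (piC [(nat_lit 36888796), (nat_lit 24534081), (nat_lit 18263511), (nat_lit 12310016)] (nat_lit 24304186)) p12_15_0 (nat_lit 4) (nat_lit 315) (nat_lit 316) = true := by decide +kernel
def p12_15_0_316 : pfC (piC [(nat_lit 36888796), (nat_lit 24534081), (nat_lit 18263511), (nat_lit 12310016)] (nat_lit 24304186)) p12_15_0 (nat_lit 4) (nat_lit 316) (nat_lit 317) = true := by decide +kernel
def p12_15_0_317 : pfC (piC [(nat_lit 36888796), (nat_lit 24534081), (nat_lit 18263511), (nat_lit 12310016)] (nat_lit 24304186)) p12_15_0 (nat_lit 4) (nat_lit 317) (nat_lit 318) = true := by decide +kernel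
def p12_15_0_318 : pfC (piC [(nat_lit 36888796), (nat_lit 24534081), (nat_lit 18263511), (nat_lit 12310016)] (nat_lit 24304186)) p12_15_0 (nat_lit 4) (nat_lit 318) (nat_lit 319) = true := by decide +kernel
def p12_15_0_319 : pfC (piC [(nat_lit 36888796), (nat_lit 24534081), (nat_lit 18263511), (nat_lit 12310016)] (nat_lit 24304186)) p12_15_0 (nat_lit 4) (nat_lit 319) (nat_lit 320) = true := by decide +kernel
def p12_15_0_320 : pfC (piC [(nat_lit 36888796), (nat_lit 24534081), (nat_lit 18263511), (nat_lit 12310016)] (nat_lit 24304186)) p12_15_0 (nat_lit 4) (nat_lit 320) (nat_lit 321) = true := by decide +kernel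
def p12_15_0_321 : pfC (piC [(nat_lit 36888796), (nat_lit 24534081), (nat_lit 18263511), (nat_lit 12310016)] (nat_lit 24304186)) p12_15_0 (nat_lit 4) (nat_lit 321) (nat_lit 322) = true := by decide +kernel
def p12_15_0_322 : pfC (piC [(nat_lit 36888796), (nat_lit 24534081), (nat_lit 18263511), (nat_lit 12310016)] (nat_lit 24304186)) p12_15_0 (nat_lit 4) (nat_lit 322) (nat_lit 323) = true := by decide +kernel
def p12_15_0_323 : pfC (piC [(nat_lit 36888796), (nat_lit 24534081), (nat_lit 18263511), (nat_lit 12310016)] (nat_lit 24304186)) p12_15_0 (nat_lit 4) (nat_lit 323) (nat_lit 324) = true := by decide +kernel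
def p12_15_0_324 : pfC (piC [(nat_lit 36888796), (nat_lit 24534081), (nat_lit 18263511), (nat_lit 12310016)] (nat_lit 24304186)) p12_15_0 (nat_lit 4) (nat_lit 324) (nat_lit 325) = true := by decide +kernel
def p12_15_0_325 : pfC (piC [(nat_lit 36888796), (nat_lit 24534081), (nat_lit 18263511), (nat_lit 12310016)] (nat_lit 24304186)) p12_15_0 (nat_lit 4) (nat_lit 325) (nat_lit 326) = true := by decide +kernel
def p12_15_0_326 : pfC (piC [(nat_lit 36888796), (nat_lit 24534081), (nat_lit 18263511), (nat_lit 12310016)] (nat_lit 24304186)) p12_15_0 (nat_lit 4) (nat_lit 326) (nat_lit 327) = true := by decide +kernel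
def p12_15_0_327 : pfC (piC [(nat_lit 36888796), (nat_lit 24534081), (nat_lit 18263511), (nat_lit 12310016)] (nat_lit 24304186)) p12_15_0 (nat_lit 4) (nat_lit 327) (nat_lit 328) = true := by decide +kernel
def p12_15_0_328 : pfC (piC [(nat_lit 36888796), (nat_lit 24534081), (nat_lit 18263511), (nat_lit 12310016)] (nat_lit 24304186)) p12_15_0 (nat_lit 4) (nat_lit 328) (nat_lit 329) = true := by decide +kernel
def p12_15_0_329 : pfC (piC [(nat_lit 36888796), (nat_lit 24534081), (nat_lit 18263511), (nat_lit 12310016)] (nat_lit 24304186)) p12_15_0 (nat_lit 4) (nat_lit 329) (nat_lit 330) = true := by decide +kernel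
def p12_15_0_330 : pfC (piC [(nat_lit 36888796), (nat_lit 24534081), (nat_lit 18263511), (nat_lit 12310016)] (nat_lit 24304186)) p12_15_0 (nat_lit 4) (nat_lit 330) (nat_lit 331) = true := by decide +kernel
def p12_15_0_331 : pfC (piC [(nat_lit 36888796), (nat_lit 24534081), (nat_lit 18263511), (nat_lit 12310016)] (nat_lit 24304186)) p12_15_0 (nat_lit 4) (nat_lit 331) (nat_lit 332) = true := by decide +kernel
def p12_15_0_332 : pfC (piC [(nat_lit 36888796), (nat_lit 24534081), (nat_lit 18263511), (nat_lit 12310016)] (nat_lit 24304186)) p12_15_0 (nat_lit 4) (nat_lit 332) (nat_lit 333) = true := by decide +kernel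
def p12_15_0_333 : pfC (piC [(nat_lit 36888796), (nat_lit 24534081), (nat_lit 18263511), (nat_lit 12310016)] (nat_lit 24304186)) p12_15_0 (nat_lit 4) (nat_lit 333) (nat_lit 334) = true := by decide +kernel
def p12_15_0_334 : pfC (piC [(nat_lit 36888796), (nat_lit 24534081), (nat_lit 18263511), (nat_lit 12310016)] (nat_lit 24304186)) p12_15_0 (nat_lit 4) (nat_lit 334) (nat_lit 335) = true := by decide +kernel
def p12_15_0_335 : pfC (piC [(nat_lit 36888796), (nat_lit 24534081), (nat_lit 18263511), (nat_lit 12310016)] (nat_lit 24304186)) p12_15_0 (nat_lit 4) (nat_lit 335) (nat_lit 336) = true := by decide +kernel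
def p12_15_0_336 : pfC (piC [(nat_lit 36888796), (nat_lit 24534081), (nat_lit 18263511), (nat_lit 12310016)] (nat_lit 24304186)) p12_15_0 (nat_lit 4) (nat_lit 336) (nat_lit 337) = true := by decide +kernel
def p12_15_0_337 : pfC (piC [(nat_lit 36888796), (nat_lit 24534081), (nat_lit 18263511), (nat_lit 12310016)] (nat_lit 24304186)) p12_15_0 (nat_lit 4) (nat_lit 337) (nat_lit 338) = true := by decide +kernel
def p12_15_0_338 : pfC (piC [(nat_lit 36888796), (nat_lit 24534081), (nat_lit 18263511), (nat_lit 12310016)] (nat_lit 24304186)) p12_15_0 (nat_lit 4) (nat_lit 338) (nat_lit 339) = true := by decide +kernel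
def p12_15_0_339 : pfC (piC [(nat_lit 36888796), (nat_lit 24534081), (nat_lit 18263511), (nat_lit 12310016)] (nat_lit 24304186)) p12_15_0 (nat_lit 4) (nat_lit 339) (nat_lit 340) = true := by decide +kernel
def p12_15_0_340 : pfC (piC [(nat_lit 36888796), (nat_lit 24534081), (nat_lit 18263511), (nat_lit 12310016)] (nat_lit 24304186)) p12_15_0 (nat_lit 4) (nat_lit 340) (nat_lit 341) = true := by decide +kernel
theorem p12_15_0_T : PfS (PiF n12_15.reverse (nat_lit 24304186)) p12_15_0 (nat_lit 4) [] 0 :=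
  pftab_of (los := [(nat_lit 36888796), (nat_lit 24534081), (nat_lit 18263511), (nat_lit 12310016)]) (by decide +kernel) (hi := (nat_lit 341)) (PfP.trans (PfP.trans (PfP.trans (PfP.trans (PfP.trans (PfP.trans (PfP.trans (PfP.trans (PfP.trans (PfP.trans (PfP.trans (PfP.trans (PfP.trans (PfP.trans (PfP.trans (PfP.trans (PfP.trans (PfP.trans (PfP.trans (PfP.trans (PfP.trans (PfP.trans (PfP.trans (PfP.trans (PfP.trans (PfP.trans (PfP.trans (PfP.trans (PfP.trans (PfP.trans (PfP.trans (PfP.trans (PfP.trans (PfP.trans (PfP.trans (PfP.trans (PfP.trans (PfP.trans (PfP.trans (PfP.trans (PfP.trans (PfP.trans (PfP.trans (PfP.trans (PfP.trans (PfP.trans (PfP.trans (PfP.trans (PfP.trans (PfP.trans (PfP.trans (PfP.trans (PfP.trans (PfP.trans (PfP.trans (PfP.trans (PfP.trans (PfP.trans (PfP.trans (PfP.trans (PfP.trans (PfP.trans (PfP.trans (PfP.trans (PfP.trans (PfP.trans (PfP.trans (PfP.trans (PfP.trans (PfP.trans (PfP.trans (PfP.trans (PfP.trans (PfP.trans (PfP.trans (PfP.trans (PfP.trans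 (PfP.trans (PfP.trans (PfP.trans (PfP.trans (PfP.trans (PfP.trans (PfP.trans (PfP.trans (PfP.trans (PfP.trans (PfP.trans (PfP.trans (PfP.trans (PfP.trans (PfP.trans (PfP.trans (PfP.trans (PfP.trans (PfP.trans (PfP.trans (PfP.trans (PfP.trans (PfP.trans (PfP.trans (PfP.trans (PfP.trans (PfP.trans (PfP.trans (PfP.trans (PfP.trans (PfP.trans (PfP.trans
 (PfP.trans (PfP.trans (PfP.trans (PfP.trans (PfP.trans (PfP.trans (PfP.trans (PfP.trans (PfP.trans (PfP.trans (PfP.trans (PfP.trans (PfP.trans (PfP.trans (PfP.trans (PfP.trans (PfP.trans (PfP.trans (PfP.trans (PfP.trans (PfP.trans (PfP.trans (PfP.trans (PfP.trans (PfP.trans (PfP.trans (PfP.trans (PfP.trans (PfP.trans (PfP.trans (PfP.trans (PfP.trans (PfP.trans (PfP.trans (PfP.trans (PfP.trans (PfP.trans (PfP.trans (PfP.trans (PfP.trans (PfP.trans (PfP.trans (PfP.trans (PfP.trans (PfP.trans (PfP.trans (PfP.trans (PfP.trans (PfP.trans (PfP.trans (PfP.trans (PfP.trans (PfP.trans (PfP.trans (PfP.trans (PfP.trans (PfP.trans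 (PfP.trans (PfP.trans (PfP.trans (PfP.trans (PfP.trans (PfP.trans (PfP.trans (PfP.trans (PfP.trans (PfP.trans (PfP.trans (PfP.trans (PfP.trans (PfP.trans (PfP.trans (PfP.trans (PfP.trans (PfP.trans (PfP.trans (PfP.trans (PfP.trans (PfP.trans (PfP.trans (PfP.trans (PfP.trans (PfP.trans (PfP.trans (PfP.trans (PfP.trans (PfP.trans (PfP.trans (PfP.trans (PfP.trans (PfP.trans (PfP.trans (PfP.trans (PfP.trans (PfP.trans (PfP.trans (PfP.trans (PfP.trans (PfP.trans (PfP.trans (PfP.trans (PfP.trans (PfP.trans (PfP.trans (PfP.trans (PfP.trans (PfP.trans (PfP.trans (PfP.trans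
 (PfP.trans (PfP.trans (PfP.trans (PfP.trans (PfP.trans (PfP.trans (PfP.trans (PfP.trans (PfP.trans (PfP.trans (PfP.trans (PfP.trans (PfP.trans (PfP.trans (PfP.trans (PfP.trans (PfP.trans (PfP.trans (PfP.trans (PfP.trans (PfP.trans (PfP.trans (PfP.trans (PfP.trans (PfP.trans (PfP.trans (PfP.trans (PfP.trans (PfP.trans (PfP.trans (PfP.trans (PfP.trans (PfP.trans (PfP.trans (PfP.trans (PfP.trans (PfP.trans (PfP.trans (PfP.trans (PfP.trans (PfP.trans (PfP.trans (PfP.trans (PfP.trans (PfP.trans (PfP.trans (PfP.trans (PfP.trans (PfP.trans (PfP.trans (PfP.trans (PfP.trans (PfP.trans (PfP.trans (PfP.trans (PfP.trans (PfP.trans (PfP.trans (PfP.trans (PfP.trans (PfP.trans (PfP.trans (PfP.trans (PfP.trans (PfP.trans (PfP.trans (PfP.trans (PfP.trans (PfP.trans (PfP.trans (PfP.trans (PfP.trans (PfP.trans (PfP.trans (PfP.trans (PfP.trans (PfP.trans (PfP.trans (PfP.trans (PfP.trans (PfP.trans (PfP.trans (PfP.trans (PfP.trans (PfP.trans (PfP.trans (PfP.trans (PfP.trans (PfP.trans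 (PfP.trans (PfP.trans (PfP.trans (PfP.trans (PfP.trans (PfP.trans (PfP.trans (PfP.trans (PfP.trans (PfP.trans (PfP.trans (PfP.trans (PfP.trans (PfP.trans (PfP.trans (PfP.trans (PfP.trans (PfP.trans (PfP.trans (PfP.trans
 (PfP.trans (PfP.trans (PfP.trans (PfP.trans (PfP.trans (PfP.trans (PfP.trans (PfP.trans (PfP.trans (PfP.trans (PfP.trans (PfP.trans (PfP.trans (pfC_sound p12_15_0_0) (pfC_sound p12_15_0_1)) (pfC_sound p12_15_0_2)) (pfC_sound p12_15_0_3)) (pfC_sound p12_15_0_4)) (pfC_sound p12_15_0_5)) (pfC_sound p12_15_0_6)) (pfC_sound p12_15_0_7)) (pfC_sound p12_15_0_8)) (pfC_sound p12_15_0_9)) (pfC_sound p12_15_0_10)) (pfC_sound p12_15_0_11)) (pfC_sound p12_15_0_12)) (pfC_sound p12_15_0_13)) (pfC_sound p12_15_0_14)) (pfC_sound p12_15_0_15)) (pfC_sound p12_15_0_16)) (pfC_sound p12_15_0_17)) (pfC_sound p12_15_0_18)) (pfC_sound p12_15_0_19)) (pfC_sound p12_15_0_20)) (pfC_sound p12_15_0_21)) (pfC_sound p12_15_0_22)) (pfC_sound p12_15_0_23)) (pfC_sound p12_15_0_24)) (pfC_sound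 p12_15_0_25)) (pfC_sound p12_15_0_26)) (pfC_sound p12_15_0_27)) (pfC_sound p12_15_0_28)) (pfC_sound p12_15_0_29)) (pfC_sound p12_15_0_30)) (pfC_sound p12_15_0_31)) (pfC_sound p12_15_0_32)) (pfC_sound p12_15_0_33)) (pfC_sound p12_15_0_34)) (pfC_sound p12_15_0_35)) (pfC_sound p12_15_0_36)) (pfC_sound p12_15_0_37)) (pfC_sound p12_15_0_38)) (pfC_sound p12_15_0_39)) (pfC_sound p12_15_0_40)) (pfC_sound p12_15_0_41)) (pfC_sound
 p12_15_0_42)) (pfC_sound p12_15_0_43)) (pfC_sound p12_15_0_44)) (pfC_sound p12_15_0_45)) (pfC_sound p12_15_0_46)) (pfC_sound p12_15_0_47)) (pfC_sound p12_15_0_48)) (pfC_sound p12_15_0_49)) (pfC_sound p12_15_0_50)) (pfC_sound p12_15_0_51)) (pfC_sound p12_15_0_52)) (pfC_sound p12_15_0_53)) (pfC_sound p12_15_0_54)) (pfC_sound p12_15_0_55)) (pfC_sound p12_15_0_56)) (pfC_sound p12_15_0_57)) (pfC_sound p12_15_0_58)) (pfC_sound p12_15_0_59)) (pfC_sound p12_15_0_60)) (pfC_sound p12_15_0_61)) (pfC_sound p12_15_0_62)) (pfC_sound p12_15_0_63)) (pfC_sound p12_15_0_64))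 (pfC_sound p12_15_0_65)) (pfC_sound p12_15_0_66)) (pfC_sound p12_15_0_67)) (pfC_sound p12_15_0_68)) (pfC_sound p12_15_0_69)) (pfC_sound p12_15_0_70)) (pfC_sound p12_15_0_71)) (pfC_sound p12_15_0_72)) (pfC_sound p12_15_0_73)) (pfC_sound p12_15_0_74)) (pfC_sound p12_15_0_75)) (pfC_sound p12_15_0_76)) (pfC_sound p12_15_0_77)) (pfC_sound p12_15_0_78)) (pfC_sound p12_15_0_79)) (pfC_sound p12_15_0_80)) (pfC_sound p12_15_0_81)) (pfC_sound p12_15_0_82)) (pfC_sound p12_15_0_83)) (pfC_sound p12_15_0_84)) (pfC_sound p12_15_0_85)) (pfC_sound p12_15_0_86)) (pfC_sound p12_15_0_87)) (pfC_sound p12_15_0_88)) (pfC_sound p12_15_0_89)) (pfC_sound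
 p12_15_0_90)) (pfC_sound p12_15_0_91)) (pfC_sound p12_15_0_92)) (pfC_sound p12_15_0_93)) (pfC_sound p12_15_0_94)) (pfC_sound p12_15_0_95)) (pfC_sound p12_15_0_96)) (pfC_sound p12_15_0_97)) (pfC_sound p12_15_0_98)) (pfC_sound p12_15_0_99)) (pfC_sound p12_15_0_100)) (pfC_sound p12_15_0_101)) (pfC_sound p12_15_0_102)) (pfC_sound p12_15_0_103)) (pfC_sound p12_15_0_104)) (pfC_sound p12_15_0_105)) (pfC_sound p12_15_0_106)) (pfC_sound p12_15_0_107)) (pfC_sound p12_15_0_108)) (pfC_sound p12_15_0_109)) (pfC_sound p12_15_0_110)) (pfC_sound p12_15_0_111)) (pfC_sound p12_15_0_112)) (pfC_sound p12_15_0_113)) (pfC_sound p12_15_0_114)) (pfC_sound p12_15_0_115)) (pfC_sound p12_15_0_116)) (pfC_sound p12_15_0_117)) (pfC_sound p12_15_0_118)) (pfC_sound p12_15_0_119)) (pfC_sound p12_15_0_120)) (pfC_sound p12_15_0_121)) (pfC_sound p12_15_0_122)) (pfC_sound p12_15_0_123)) (pfC_sound p12_15_0_124)) (pfC_sound p12_15_0_125)) (pfC_sound p12_15_0_126)) (pfC_sound p12_15_0_127)) (pfC_sound p12_15_0_128))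 (pfC_sound p12_15_0_129)) (pfC_sound p12_15_0_130)) (pfC_sound p12_15_0_131)) (pfC_sound p12_15_0_132)) (pfC_sound p12_15_0_133)) (pfC_sound p12_15_0_134)) (pfC_sound p12_15_0_135)) (pfC_sound
 p12_15_0_136)) (pfC_sound p12_15_0_137)) (pfC_sound p12_15_0_138)) (pfC_sound p12_15_0_139)) (pfC_sound p12_15_0_140)) (pfC_sound p12_15_0_141)) (pfC_sound p12_15_0_142)) (pfC_sound p12_15_0_143)) (pfC_sound p12_15_0_144)) (pfC_sound p12_15_0_145)) (pfC_sound p12_15_0_146)) (pfC_sound p12_15_0_147)) (pfC_sound p12_15_0_148)) (pfC_sound p12_15_0_149)) (pfC_sound p12_15_0_150)) (pfC_sound p12_15_0_151)) (pfC_sound p12_15_0_152)) (pfC_sound p12_15_0_153)) (pfC_sound p12_15_0_154)) (pfC_sound p12_15_0_155)) (pfC_sound p12_15_0_156)) (pfC_sound p12_15_0_157)) (pfC_sound p12_15_0_158)) (pfC_sound p12_15_0_159)) (pfC_sound p12_15_0_160)) (pfC_sound p12_15_0_161)) (pfC_sound p12_15_0_162)) (pfC_sound p12_15_0_163)) (pfC_sound p12_15_0_164)) (pfC_sound p12_15_0_165)) (pfC_sound p12_15_0_166))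 (pfC_sound p12_15_0_167)) (pfC_sound p12_15_0_168)) (pfC_sound p12_15_0_169)) (pfC_sound p12_15_0_170)) (pfC_sound p12_15_0_171)) (pfC_sound p12_15_0_172)) (pfC_sound p12_15_0_173)) (pfC_sound p12_15_0_174)) (pfC_sound p12_15_0_175)) (pfC_sound p12_15_0_176)) (pfC_sound p12_15_0_177)) (pfC_sound p12_15_0_178)) (pfC_sound p12_15_0_179)) (pfC_sound p12_15_0_180)) (pfC_sound p12_15_0_181)) (pfC_sound
 p12_15_0_182)) (pfC_sound p12_15_0_183)) (pfC_sound p12_15_0_184)) (pfC_sound p12_15_0_185)) (pfC_sound p12_15_0_186)) (pfC_sound p12_15_0_187)) (pfC_sound p12_15_0_188)) (pfC_sound p12_15_0_189)) (pfC_sound p12_15_0_190)) (pfC_sound p12_15_0_191)) (pfC_sound p12_15_0_192)) (pfC_sound p12_15_0_193)) (pfC_sound p12_15_0_194)) (pfC_sound p12_15_0_195)) (pfC_sound p12_15_0_196)) (pfC_sound p12_15_0_197)) (pfC_sound p12_15_0_198)) (pfC_sound p12_15_0_199)) (pfC_sound p12_15_0_200)) (pfC_sound p12_15_0_201)) (pfC_sound p12_15_0_202)) (pfC_sound p12_15_0_203)) (pfC_sound p12_15_0_204))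 (pfC_sound p12_15_0_205)) (pfC_sound p12_15_0_206)) (pfC_sound p12_15_0_207)) (pfC_sound p12_15_0_208)) (pfC_sound p12_15_0_209)) (pfC_sound p12_15_0_210)) (pfC_sound p12_15_0_211)) (pfC_sound p12_15_0_212)) (pfC_sound p12_15_0_213)) (pfC_sound p12_15_0_214)) (pfC_sound p12_15_0_215)) (pfC_sound p12_15_0_216)) (pfC_sound p12_15_0_217)) (pfC_sound p12_15_0_218)) (pfC_sound p12_15_0_219)) (pfC_sound p12_15_0_220)) (pfC_sound p12_15_0_221)) (pfC_sound p12_15_0_222)) (pfC_sound p12_15_0_223)) (pfC_sound p12_15_0_224)) (pfC_sound p12_15_0_225)) (pfC_sound p12_15_0_226)) (pfC_sound p12_15_0_227)) (pfC_sound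
 p12_15_0_228)) (pfC_sound p12_15_0_229)) (pfC_sound p12_15_0_230)) (pfC_sound p12_15_0_231)) (pfC_sound p12_15_0_232)) (pfC_sound p12_15_0_233)) (pfC_sound p12_15_0_234)) (pfC_sound p12_15_0_235)) (pfC_sound p12_15_0_236)) (pfC_sound p12_15_0_237)) (pfC_sound p12_15_0_238)) (pfC_sound p12_15_0_239)) (pfC_sound p12_15_0_240)) (pfC_sound p12_15_0_241)) (pfC_sound p12_15_0_242)) (pfC_sound p12_15_0_243)) (pfC_sound p12_15_0_244)) (pfC_sound p12_15_0_245)) (pfC_sound p12_15_0_246)) (pfC_sound p12_15_0_247)) (pfC_sound p12_15_0_248)) (pfC_sound p12_15_0_249)) (pfC_sound p12_15_0_250)) (pfC_sound p12_15_0_251)) (pfC_sound p12_15_0_252)) (pfC_sound p12_15_0_253)) (pfC_sound p12_15_0_254)) (pfC_sound p12_15_0_255)) (pfC_sound p12_15_0_256)) (pfC_sound p12_15_0_257)) (pfC_sound p12_15_0_258)) (pfC_sound p12_15_0_259)) (pfC_sound p12_15_0_260)) (pfC_sound p12_15_0_261)) (pfC_sound p12_15_0_262)) (pfC_sound p12_15_0_263)) (pfC_sound p12_15_0_264)) (pfC_sound p12_15_0_265)) (pfC_sound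 p12_15_0_266)) (pfC_sound p12_15_0_267)) (pfC_sound p12_15_0_268)) (pfC_sound p12_15_0_269)) (pfC_sound p12_15_0_270)) (pfC_sound p12_15_0_271)) (pfC_sound p12_15_0_272)) (pfC_sound p12_15_0_273)) (pfC_sound
 p12_15_0_274)) (pfC_sound p12_15_0_275)) (pfC_sound p12_15_0_276)) (pfC_sound p12_15_0_277)) (pfC_sound p12_15_0_278)) (pfC_sound p12_15_0_279)) (pfC_sound p12_15_0_280)) (pfC_sound p12_15_0_281)) (pfC_sound p12_15_0_282)) (pfC_sound p12_15_0_283)) (pfC_sound p12_15_0_284)) (pfC_sound p12_15_0_285)) (pfC_sound p12_15_0_286)) (pfC_sound p12_15_0_287)) (pfC_sound p12_15_0_288)) (pfC_sound p12_15_0_289)) (pfC_sound p12_15_0_290)) (pfC_sound p12_15_0_291)) (pfC_sound p12_15_0_292)) (pfC_sound p12_15_0_293)) (pfC_sound p12_15_0_294)) (pfC_sound p12_15_0_295)) (pfC_sound p12_15_0_296)) (pfC_sound p12_15_0_297)) (pfC_sound p12_15_0_298)) (pfC_sound p12_15_0_299)) (pfC_sound p12_15_0_300)) (pfC_sound p12_15_0_301)) (pfC_sound p12_15_0_302)) (pfC_sound p12_15_0_303)) (pfC_sound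 p12_15_0_304)) (pfC_sound p12_15_0_305)) (pfC_sound p12_15_0_306)) (pfC_sound p12_15_0_307)) (pfC_sound p12_15_0_308)) (pfC_sound p12_15_0_309)) (pfC_sound p12_15_0_310)) (pfC_sound p12_15_0_311)) (pfC_sound p12_15_0_312)) (pfC_sound p12_15_0_313)) (pfC_sound p12_15_0_314)) (pfC_sound p12_15_0_315)) (pfC_sound p12_15_0_316)) (pfC_sound p12_15_0_317)) (pfC_sound p12_15_0_318)) (pfC_sound p12_15_0_319)) (pfC_sound
 p12_15_0_320)) (pfC_sound p12_15_0_321)) (pfC_sound p12_15_0_322)) (pfC_sound p12_15_0_323)) (pfC_sound p12_15_0_324)) (pfC_sound p12_15_0_325)) (pfC_sound p12_15_0_326)) (pfC_sound p12_15_0_327)) (pfC_sound p12_15_0_328)) (pfC_sound p12_15_0_329)) (pfC_sound p12_15_0_330)) (pfC_sound p12_15_0_331)) (pfC_sound p12_15_0_332)) (pfC_sound p12_15_0_333)) (pfC_sound p12_15_0_334)) (pfC_sound p12_15_0_335)) (pfC_sound p12_15_0_336)) (pfC_sound p12_15_0_337)) (pfC_sound p12_15_0_338)) (pfC_sound p12_15_0_339)) (pfC_sound p12_15_0_340)) (by decide +kernel)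

def z12_15_0 : zOK yB12_15 (nat_lit 0) (nat_lit 0) (nat_lit 400) (nat_lit 24304186) (nat_lit 11086628) = true := by decide +kernel
def g12_15_0 : gOK yB12_15.x P12_15 (nat_lit 1404) (q12_15 :: r12_15) (nat_lit 0) (nat_lit 0) (nat_lit 1) (nat_lit 400) (nat_lit 0) (nat_lit 11000000) (nat_lit 12712500) (nat_lit 12712500) [(nat_lit 800), (nat_lit 1600)] = true := by decide +kernel
def v12_15_0 : ivC P12_15 s12_15 w12_15 n12_15 (nat_lit 4) (nat_lit 5360) (nat_lit 0) (nat_lit 0) f168_1_0 f176_1_0 (nat_lit 1) (nat_lit 400) f168_1_400 f176_1_400 (nat_lit 24304186) (nat_lit 11086628) p12_15_0 = true := by decide +kernel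
def p12_15_1 : PF := (PF.cons (PF.cons (PF.cons (PF.cons (PF.leaf (nat_lit 1983630) (nat_lit 9093846) (nat_lit 58014966) (nat_lit 9093846) [(nat_lit 0), (nat_lit 0), (nat_lit 0), (nat_lit 0)]) (PF.cons (PF.leaf (nat_lit 2184440) (nat_lit 353230) (nat_lit 57626253) (nat_lit 9129328) [(nat_lit 353230), (nat_lit 0), (nat_lit 0), (nat_lit 0)]) (PF.cons (PF.leaf (nat_lit 2421575) (nat_lit 384758) (nat_lit 57172051) (nat_lit 9167244) [(nat_lit 384758), (nat_lit 0), (nat_lit 0), (nat_lit 0)]) (PF.cons (PF.leaf (nat_lit 2688232) (nat_lit 412855) (nat_lit 56664901) (nat_lit 9205344) [(nat_lit 412855), (nat_lit 0), (nat_lit 0), (nat_lit 0)]) (PF.cons (PF.leaf (nat_lit 2980093) (nat_lit 438251) (nat_lit 56113835) (nat_lit 9241973) [(nat_lit 438251), (nat_lit 0), (nat_lit 0), (nat_lit 0)]) (PF.cons (PF.leaf (nat_lit 3293839) (nat_lit 461396) (nat_lit 55525944) (nat_lit 9275887) [(nat_lit 461396), (nat_lit 0), (nat_lit 0), (nat_lit 0)]) (PF.cons (PF.leaf (nat_lit 3626669) (nat_lit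 482594) (nat_lit 54907093) (nat_lit 9306150) [(nat_lit 482594), (nat_lit 0), (nat_lit 0), (nat_lit 0)]) (PF.cons (PF.leaf (nat_lit 3976223) (nat_lit 502062) (nat_lit 54262300) (nat_lit 9332074) [(nat_lit 502062), (nat_lit 0), (nat_lit
 0), (nat_lit 0)]) (PF.cons (PF.leaf (nat_lit 4340312) (nat_lit 519961) (nat_lit 53595954) (nat_lit 9353166) [(nat_lit 519961), (nat_lit 0), (nat_lit 0), (nat_lit 0)]) (PF.cons PF.nil (PF.cons PF.nil (PF.cons PF.nil PF.nil)))))))))))) (PF.cons (PF.cons (PF.leaf (nat_lit 2603485) (nat_lit 1446279) (nat_lit 56451049) (nat_lit 9211483) [(nat_lit 0), (nat_lit 1446279), (nat_lit 0), (nat_lit 0)]) (PF.cons (PF.leaf (nat_lit 2861322) (nat_lit 423526) (nat_lit 55953265) (nat_lit 9243127) [(nat_lit 423526), (nat_lit 1488892), (nat_lit 0), (nat_lit 0)]) (PF.cons (PF.leaf (nat_lit 3146623) (nat_lit 448131) (nat_lit 55408881) (nat_lit 9273454) [(nat_lit 448131), (nat_lit 1530214), (nat_lit 0), (nat_lit 0)]) (PF.cons (PF.leaf (nat_lit 3454681) (nat_lit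 470460) (nat_lit 54826629) (nat_lit 9301192) [(nat_lit 470460), (nat_lit 1569608), (nat_lit 0), (nat_lit 0)]) (PF.cons (PF.leaf (nat_lit 3782259) (nat_lit 490854) (nat_lit 54213215) (nat_lit 9325425) [(nat_lit 490854), (nat_lit 1606752), (nat_lit 0), (nat_lit 0)]) (PF.cons (PF.leaf (nat_lit 4126745) (nat_lit 509543) (nat_lit 53574111) (nat_lit 9345494) [(nat_lit 509543), (nat_lit 1641489), (nat_lit 0), (nat_lit 0)]) (PF.cons (PF.leaf (nat_lit
 4485817) (nat_lit 526694) (nat_lit 52913944) (nat_lit 9360940) [(nat_lit 526694), (nat_lit 1673757), (nat_lit 0), (nat_lit 0)]) (PF.cons (PF.leaf (nat_lit 4857470) (nat_lit 542438) (nat_lit 52236725) (nat_lit 9371464) [(nat_lit 542438), (nat_lit 1703550), (nat_lit 0), (nat_lit 0)]) (PF.cons PF.nil (PF.cons PF.nil PF.nil)))))))))) (PF.cons (PF.cons (PF.leaf (nat_lit 3316913) (nat_lit 1560995) (nat_lit 54688043) (nat_lit 9298779) [(nat_lit 0), (nat_lit 1560995), (nat_lit 0), (nat_lit 0)]) (PF.cons (PF.leaf (nat_lit 3616959) (nat_lit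 478250) (nat_lit 54116638) (nat_lit 9320547) [(nat_lit 478250), (nat_lit 1596688), (nat_lit 0), (nat_lit 0)]) (PF.cons (PF.leaf (nat_lit 3937976) (nat_lit 498032) (nat_lit 53512517) (nat_lit 9339020) [(nat_lit 498032), (nat_lit 1630605), (nat_lit 0), (nat_lit 0)]) (PF.cons (PF.leaf (nat_lit 4276438) (nat_lit 516084) (nat_lit 52882076) (nat_lit 9353542) [(nat_lit 516084), (nat_lit 1662470), (nat_lit 0), (nat_lit 0)]) (PF.cons (PF.leaf (nat_lit 4629813) (nat_lit 532598) (nat_lit 52230452) (nat_lit 9363669) [(nat_lit 532598), (nat_lit 1692147), (nat_lit 0), (nat_lit 0)]) (PF.cons (PF.leaf (nat_lit 4995898) (nat_lit 547718) (nat_lit 51561937) (nat_lit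
 9369119) [(nat_lit 547718), (nat_lit 1719581), (nat_lit 0), (nat_lit 0)]) (PF.cons (PF.leaf (nat_lit 5372826) (nat_lit 561556) (nat_lit 50880205) (nat_lit 9369734) [(nat_lit 561556), (nat_lit 1744765), (nat_lit 0), (nat_lit 0)]) (PF.cons PF.nil (PF.cons PF.nil PF.nil))))))))) (PF.cons (PF.cons (PF.leaf (nat_lit 4095406) (nat_lit 1652483) (nat_lit 52804243) (nat_lit 9347118) [(nat_lit 0), (nat_lit 1652483), (nat_lit 0), (nat_lit 0)]) (PF.cons (PF.leaf (nat_lit 4426268) (nat_lit 521684) (nat_lit 52185880) (nat_lit 9356421) [(nat_lit 521684), (nat_lit 1681608), (nat_lit 0), (nat_lit 0)]) (PF.cons (PF.leaf (nat_lit 4773033) (nat_lit 537682) (nat_lit 51545399) (nat_lit 9361569) [(nat_lit 537682), (nat_lit 1708826), (nat_lit 0), (nat_lit 0)]) (PF.cons (PF.leaf (nat_lit 5132915) (nat_lit 552272) (nat_lit 50887624) (nat_lit 9362285) [(nat_lit 552272), (nat_lit 1734028), (nat_lit 0), (nat_lit 0)]) (PF.cons (PF.leaf (nat_lit 5503846) (nat_lit 565583) (nat_lit 50216536) (nat_lit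 9358424) [(nat_lit 565583), (nat_lit 1757172), (nat_lit 0), (nat_lit 0)]) (PF.cons PF.nil (PF.cons PF.nil PF.nil))))))) (PF.cons (PF.cons (PF.leaf (nat_lit 4916669) (nat_lit 1723923) (nat_lit 50858293) (nat_lit
 9354824) [(nat_lit 0), (nat_lit 1723923), (nat_lit 0), (nat_lit 0)]) (PF.cons (PF.leaf (nat_lit 5269196) (nat_lit 556101) (nat_lit 50213546) (nat_lit 9351159) [(nat_lit 556101), (nat_lit 1747001), (nat_lit 0), (nat_lit 0)]) (PF.cons (PF.leaf (nat_lit 5633542) (nat_lit 568969) (nat_lit 49554867) (nat_lit 9343162) [(nat_lit 568969), (nat_lit 1768211), (nat_lit 0), (nat_lit 0)]) (PF.cons (PF.leaf (nat_lit 6007442) (nat_lit 580657) (nat_lit 48885940) (nat_lit 9330786) [(nat_lit 580657), (nat_lit 1787528), (nat_lit 0), (nat_lit 0)]) (PF.cons PF.nil PF.nil))))) (PF.cons (PF.cons (PF.leaf (nat_lit 5762850) (nat_lit 1777971) (nat_lit 48894835) (nat_lit 9324119) [(nat_lit 0), (nat_lit 1777971), (nat_lit 0), (nat_lit 0)]) (PF.cons (PF.leaf (nat_lit 6129638) (nat_lit 583026)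 (nat_lit 48239548) (nat_lit 9308188) [(nat_lit 583026), (nat_lit 1795609), (nat_lit 0), (nat_lit 0)]) (PF.cons PF.nil (PF.cons PF.nil PF.nil)))) (PF.cons (PF.cons (PF.leaf (nat_lit 6619770) (nat_lit 1817018) (nat_lit 46947465) (nat_lit 9259238) [(nat_lit 0), (nat_lit 1817018), (nat_lit 0), (nat_lit 0)]) (PF.cons PF.nil PF.nil)) (PF.cons PF.nil (PF.cons PF.nil PF.nil))))))))) (PF.cons (PF.cons (PF.cons (PF.leaf (nat_lit
 3206863) (nat_lit 3675498) (nat_lit 54151963) (nat_lit 9281350) [(nat_lit 0), (nat_lit 0), (nat_lit 3675498), (nat_lit 0)]) (PF.cons (PF.leaf (nat_lit 3475830) (nat_lit 454427) (nat_lit 53642028) (nat_lit 9298718) [(nat_lit 454427), (nat_lit 0), (nat_lit 3713638), (nat_lit 0)]) (PF.cons (PF.leaf (nat_lit 3770526) (nat_lit 477097) (nat_lit 53089575) (nat_lit 9313837) [(nat_lit 477097), (nat_lit 0), (nat_lit 3751206), (nat_lit 0)]) (PF.cons (PF.leaf (nat_lit 4086041) (nat_lit 497351) (nat_lit 52503696) (nat_lit 9325849) [(nat_lit 497351), (nat_lit 0),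 (nat_lit 3787213), (nat_lit 0)]) (PF.cons (PF.leaf (nat_lit 4419081) (nat_lit 515610) (nat_lit 51891179) (nat_lit 9334164) [(nat_lit 515610), (nat_lit 0), (nat_lit 3821027), (nat_lit 0)]) (PF.cons (PF.leaf (nat_lit 4766996) (nat_lit 532155) (nat_lit 51257408) (nat_lit 9338382) [(nat_lit 532155), (nat_lit 0), (nat_lit 3852245), (nat_lit 0)]) (PF.cons (PF.leaf (nat_lit 5127560) (nat_lit 547187) (nat_lit 50606818) (nat_lit 9338252) [(nat_lit 547187), (nat_lit 0), (nat_lit 3880615), (nat_lit 0)]) (PF.cons (PF.leaf (nat_lit 5498837) (nat_lit 560858) (nat_lit 49943166) (nat_lit 9333639) [(nat_lit 560858), (nat_lit 0), (nat_lit 3905996),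
 (nat_lit 0)]) (PF.cons PF.nil (PF.cons PF.nil PF.nil)))))))))) (PF.cons (PF.cons (PF.leaf (nat_lit 3933413) (nat_lit 1628171) (nat_lit 52377878) (nat_lit 9320136) [(nat_lit 0), (nat_lit 1628171), (nat_lit 3782626), (nat_lit 0)]) (PF.cons (PF.leaf (nat_lit 4239750) (nat_lit 502668) (nat_lit 51806834) (nat_lit 9327325) [(nat_lit 502668), (nat_lit 1657792), (nat_lit 3814191), (nat_lit 0)]) (PF.cons (PF.leaf (nat_lit 4565236) (nat_lit 520523) (nat_lit 51207135) (nat_lit 9331006) [(nat_lit 520523), (nat_lit 1685669), (nat_lit 3843954), (nat_lit 0)]) (PF.cons (PF.leaf (nat_lit 4906343) (nat_lit 536611) (nat_lit 50585135) (nat_lit 9330789) [(nat_lit 536611), (nat_lit 1711610), (nat_lit 3871442), (nat_lit 0)]) (PF.cons (PF.leaf (nat_lit 5260549) (nat_lit 551167) (nat_lit 49945812) (nat_lit 9326436) [(nat_lit 551167), (nat_lit 1735532), (nat_lit 3896362), (nat_lit 0)]) (PF.cons (PF.leaf (nat_lit 5625737) (nat_lit 564359) (nat_lit 49293232) (nat_lit 9317821) [(nat_lit 564359),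 (nat_lit 1757415), (nat_lit 3918544), (nat_lit 0)]) (PF.cons PF.nil (PF.cons PF.nil (PF.cons PF.nil PF.nil))))))))) (PF.cons (PF.cons (PF.leaf (nat_lit 4713221) (nat_lit 1701486) (nat_lit 50518616) (nat_lit 9323232)
 [(nat_lit 0), (nat_lit 1701486), (nat_lit 3863990), (nat_lit 0)]) (PF.cons (PF.leaf (nat_lit 5045998) (nat_lit 540248) (nat_lit 49911336) (nat_lit 9318927) [(nat_lit 540248), (nat_lit 1725183), (nat_lit 3887932), (nat_lit 0)]) (PF.cons (PF.leaf (nat_lit 5393012) (nat_lit 554439) (nat_lit 49285469) (nat_lit 9310685) [(nat_lit 554439), (nat_lit 1747093), (nat_lit 3909592), (nat_lit 0)]) (PF.cons (PF.leaf (nat_lit 5751542) (nat_lit 567239) (nat_lit 48645635) (nat_lit 9298392) [(nat_lit 567239), (nat_lit 1767151), (nat_lit 3928764), (nat_lit 0)]) (PF.cons (PF.leaf (nat_lit 6119596) (nat_lit 578797) (nat_lit 47995566) (nat_lit 9282020) [(nat_lit 578797), (nat_lit 1785347), (nat_lit 3945339), (nat_lit 0)]) (PF.cons PF.nil (PF.cons PF.nil PF.nil))))))) (PF.cons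 (PF.cons (PF.leaf (nat_lit 5526119) (nat_lit 1757369) (nat_lit 48625110) (nat_lit 9291139) [(nat_lit 0), (nat_lit 1757369), (nat_lit 3920455), (nat_lit 0)]) (PF.cons (PF.leaf (nat_lit 5876901) (nat_lit 569490) (nat_lit 47999959) (nat_lit 9275501) [(nat_lit 569490), (nat_lit 1775690), (nat_lit 3936790), (nat_lit 0)]) (PF.cons (PF.leaf (nat_lit 6238058) (nat_lit 580724) (nat_lit 47363709) (nat_lit 9255981) [(nat_lit 580724),
 (nat_lit 1792307), (nat_lit 3950748), (nat_lit 0)]) (PF.cons PF.nil (PF.cons PF.nil PF.nil))))) (PF.cons (PF.cons (PF.leaf (nat_lit 6356442) (nat_lit 1798228) (nat_lit 46734735) (nat_lit 9226917) [(nat_lit 0), (nat_lit 1798228), (nat_lit 3954245), (nat_lit 0)]) (PF.cons (PF.leaf (nat_lit 6718559) (nat_lit 591922) (nat_lit 46105371) (nat_lit 9200914) [(nat_lit 591922), (nat_lit 1811774), (nat_lit 3963505), (nat_lit 0)]) (PF.cons PF.nil (PF.cons PF.nil PF.nil)))) (PF.cons (PF.cons (PF.leaf (nat_lit 7192013) (nat_lit 1826227) (nat_lit 44874713) (nat_lit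 9134835) [(nat_lit 0), (nat_lit 1826227), (nat_lit 3968128), (nat_lit 0)]) (PF.cons PF.nil PF.nil)) (PF.cons PF.nil (PF.cons PF.nil PF.nil)))))))) (PF.cons (PF.cons (PF.cons (PF.leaf (nat_lit 4533367) (nat_lit 3841823) (nat_lit 50134319) (nat_lit 9290847) [(nat_lit 0), (nat_lit 0), (nat_lit 3841823), (nat_lit 0)]) (PF.cons (PF.leaf (nat_lit 4842975) (nat_lit 521475) (nat_lit 49571950) (nat_lit 9285892) [(nat_lit 521475), (nat_lit 0), (nat_lit 3864746), (nat_lit 0)]) (PF.cons (PF.leaf (nat_lit 5170146) (nat_lit 537604) (nat_lit 48984457) (nat_lit 9277396) [(nat_lit 537604), (nat_lit 0), (nat_lit 3885874), (nat_lit 0)]) (PF.cons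
 (PF.leaf (nat_lit 5511352) (nat_lit 551958) (nat_lit 48378026) (nat_lit 9265176) [(nat_lit 551958), (nat_lit 0), (nat_lit 3904866), (nat_lit 0)]) (PF.cons (PF.leaf (nat_lit 5864108) (nat_lit 564800) (nat_lit 47757415) (nat_lit 9249147) [(nat_lit 564800), (nat_lit 0), (nat_lit 3921523), (nat_lit 0)]) (PF.cons (PF.leaf (nat_lit 6226426) (nat_lit 576320) (nat_lit 47126432) (nat_lit 9229300) [(nat_lit 576320), (nat_lit 0), (nat_lit 3935739), (nat_lit 0)]) (PF.cons PF.nil PF.nil))))))) (PF.cons (PF.cons (PF.leaf (nat_lit 5308490) (nat_lit 1735338) (nat_lit 48321987) (nat_lit 9257133) [(nat_lit 0), (nat_lit 1735338), (nat_lit 3897176), (nat_lit 0)]) (PF.cons (PF.leaf (nat_lit 5640906) (nat_lit 553993) (nat_lit 47731899) (nat_lit 9241819) [(nat_lit 553993), (nat_lit 1754462), (nat_lit 3913319), (nat_lit 0)]) (PF.cons (PF.leaf (nat_lit 5986117) (nat_lit 566596) (nat_lit 47126137) (nat_lit 9222846) [(nat_lit 566596), (nat_lit 1771916), (nat_lit 3927359), (nat_lit 0)]) (PF.cons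 (PF.leaf (nat_lit 6341485) (nat_lit 577838) (nat_lit 46509077) (nat_lit 9200220) [(nat_lit 577838), (nat_lit 1787672), (nat_lit 3939163), (nat_lit 0)]) (PF.cons (PF.leaf (nat_lit 6705111) (nat_lit 587881) (nat_lit
 45884192) (nat_lit 9174000) [(nat_lit 587881), (nat_lit 1801744), (nat_lit 3948674), (nat_lit 0)]) PF.nil))))) (PF.cons (PF.cons (PF.leaf (nat_lit 6108987) (nat_lit 1778306) (nat_lit 46496194) (nat_lit 9193461) [(nat_lit 0), (nat_lit 1778306), (nat_lit 3931272), (nat_lit 0)]) (PF.cons (PF.leaf (nat_lit 6456398) (nat_lit 578805) (nat_lit 45894713) (nat_lit 9168367) [(nat_lit 578805), (nat_lit 1792646), (nat_lit 3940816), (nat_lit 0)]) (PF.cons (PF.leaf (nat_lit 6812988) (nat_lit 588625) (nat_lit 45284375) (nat_lit 9139826) [(nat_lit 588625), (nat_lit 1805433), (nat_lit 3948245), (nat_lit 0)]) (PF.cons PF.nil PF.nil)))) (PF.cons (PF.cons (PF.leaf (nat_lit 6921070) (nat_lit 1808274) (nat_lit 44688191) (nat_lit 9103247) [(nat_lit 0), (nat_lit 1808274), (nat_lit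 3946274), (nat_lit 0)]) (PF.cons (PF.leaf (nat_lit 7277472) (nat_lit 597429) (nat_lit 44087088) (nat_lit 9069470) [(nat_lit 597429), (nat_lit 1818420), (nat_lit 3949782), (nat_lit 0)]) PF.nil)) (PF.cons PF.nil (PF.cons PF.nil PF.nil)))))) (PF.cons (PF.cons (PF.cons (PF.leaf (nat_lit 5879998) (nat_lit 3907913) (nat_lit 46226500) (nat_lit 9158572) [(nat_lit 0), (nat_lit 0), (nat_lit 3907913), (nat_lit 0)]) (PF.cons (PF.leaf
 (nat_lit 6210319) (nat_lit 563766) (nat_lit 45657587) (nat_lit 9134494) [(nat_lit 563766), (nat_lit 0), (nat_lit 3917654), (nat_lit 0)]) (PF.cons (PF.leaf (nat_lit 6552232) (nat_lit 574977) (nat_lit 45075394) (nat_lit 9107058) [(nat_lit 574977), (nat_lit 0), (nat_lit 3925468), (nat_lit 0)]) (PF.cons (PF.leaf (nat_lit 6903154) (nat_lit 584862) (nat_lit 44484031) (nat_lit 9076356) [(nat_lit 584862), (nat_lit 0), (nat_lit 3931278), (nat_lit 0)]) (PF.cons PF.nil PF.nil))))) (PF.cons (PF.cons (PF.leaf (nat_lit 6665338) (nat_lit 1789186) (nat_lit 44477679)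 (nat_lit 9070257) [(nat_lit 0), (nat_lit 1789186), (nat_lit 3923896), (nat_lit 0)]) (PF.cons (PF.leaf (nat_lit 7008226) (nat_lit 584788) (nat_lit 43902243) (nat_lit 9037815) [(nat_lit 584788), (nat_lit 1800196), (nat_lit 3927923), (nat_lit 0)]) (PF.cons (PF.leaf (nat_lit 7359285) (nat_lit 593384) (nat_lit 43319714) (nat_lit 9002329) [(nat_lit 593384), (nat_lit 1809791), (nat_lit 3930069), (nat_lit 0)]) (PF.cons PF.nil PF.nil)))) (PF.cons (PF.cons (PF.leaf (nat_lit 7457765) (nat_lit 1810169) (nat_lit 42756740) (nat_lit 8960246) [(nat_lit 0), (nat_lit 1810169), (nat_lit 3923829), (nat_lit 0)]) (PF.cons PF.nil PF.nil)) (PF.cons PF.nil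
 (PF.cons PF.nil PF.nil))))) (PF.cons (PF.cons (PF.cons (PF.leaf (nat_lit 7195828) (nat_lit 3902315) (nat_lit 42571215) (nat_lit 8928336) [(nat_lit 0), (nat_lit 0), (nat_lit 3902315), (nat_lit 0)]) (PF.cons (PF.leaf (nat_lit 7533364) (nat_lit 588051) (nat_lit 42022962) (nat_lit 8890290) [(nat_lit 588051), (nat_lit 0), (nat_lit 3901877), (nat_lit 0)]) (PF.cons PF.nil (PF.cons PF.nil PF.nil)))) (PF.cons (PF.cons (PF.leaf (nat_lit 7967867) (nat_lit 1805583) (nat_lit 40938768) (nat_lit 8803576) [(nat_lit 0), (nat_lit 1805583), (nat_lit 3890221), (nat_lit 0)]) (PF.cons PF.nil PF.nil)) (PF.cons PF.nil PF.nil))) (PF.cons (PF.cons (PF.cons (PF.leaf (nat_lit 8452900) (nat_lit 3848102) (nat_lit 39230601) (nat_lit 8637699) [(nat_lit 0), (nat_lit 0), (nat_lit 3848102), (nat_lit 0)]) (PF.cons PF.nil PF.nil)) (PF.cons PF.nil PF.nil)) (PF.cons PF.nil (PF.cons PF.nil PF.nil)))))))) (PF.cons (PF.cons (PF.cons (PF.cons (PF.leaf (nat_lit 4153031) (nat_lit 9113425) (nat_lit 48813305) (nat_lit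 9113425) [(nat_lit 0), (nat_lit 0), (nat_lit 0), (nat_lit 9182082)]) (PF.cons (PF.leaf (nat_lit 4419145) (nat_lit 470167) (nat_lit 48350359) (nat_lit 9110039) [(nat_lit 470167), (nat_lit 0), (nat_lit 0), (nat_lit
 9178246)]) (PF.cons (PF.leaf (nat_lit 4708738) (nat_lit 490944) (nat_lit 47851596) (nat_lit 9103803) [(nat_lit 490944), (nat_lit 0), (nat_lit 0), (nat_lit 9171524)]) (PF.cons (PF.leaf (nat_lit 5016874) (nat_lit 509091) (nat_lit 47325488) (nat_lit 9094420) [(nat_lit 509091), (nat_lit 0), (nat_lit 0), (nat_lit 9161628)]) (PF.cons (PF.leaf (nat_lit 5340219) (nat_lit 525117) (nat_lit 46778253) (nat_lit 9081708) [(nat_lit 525117), (nat_lit 0), (nat_lit 0), (nat_lit 9148380)]) (PF.cons (PF.leaf (nat_lit 5676190) (nat_lit 539367) (nat_lit 46214718) (nat_lit 9065569) [(nat_lit 539367), (nat_lit 0), (nat_lit 0), (nat_lit 9131688)]) (PF.cons (PF.leaf (nat_lit 6022687) (nat_lit 552089) (nat_lit 45638777) (nat_lit 9045975) [(nat_lit 552089), (nat_lit 0), (nat_lit 0),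 (nat_lit 9111524)]) (PF.cons (PF.leaf (nat_lit 6377896) (nat_lit 563471) (nat_lit 45053648) (nat_lit 9022949) [(nat_lit 563471), (nat_lit 0), (nat_lit 0), (nat_lit 9087916)]) (PF.cons PF.nil (PF.cons PF.nil PF.nil)))))))))) (PF.cons (PF.cons (PF.leaf (nat_lit 4854312) (nat_lit 1651346) (nat_lit 47219562) (nat_lit 9085386) [(nat_lit 0), (nat_lit 1651346), (nat_lit 0), (nat_lit 9152518)]) (PF.cons (PF.leaf (nat_lit 5152503)
 (nat_lit 511853) (nat_lit 46709457) (nat_lit 9073232) [(nat_lit 511853), (nat_lit 1674407), (nat_lit 0), (nat_lit 9139862)]) (PF.cons (PF.leaf (nat_lit 5467687) (nat_lit 527628) (nat_lit 46176140) (nat_lit 9057825) [(nat_lit 527628), (nat_lit 1695659), (nat_lit 0), (nat_lit 9123929)]) (PF.cons (PF.leaf (nat_lit 5796409) (nat_lit 541572) (nat_lit 45625313) (nat_lit 9039099) [(nat_lit 541572), (nat_lit 1715025), (nat_lit 0), (nat_lit 9104656)]) (PF.cons (PF.leaf (nat_lit 6136249) (nat_lit 553965) (nat_lit 45061356) (nat_lit 9017045) [(nat_lit 553965),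 (nat_lit 1732510), (nat_lit 0), (nat_lit 9082039)]) (PF.cons (PF.leaf (nat_lit 6485230) (nat_lit 565012) (nat_lit 44487774) (nat_lit 8991701) [(nat_lit 565012), (nat_lit 1748156), (nat_lit 0), (nat_lit 9056118)]) (PF.cons (PF.leaf (nat_lit 6841730) (nat_lit 574870) (nat_lit 43907445) (nat_lit 8963142) [(nat_lit 574870), (nat_lit 1762028), (nat_lit 0), (nat_lit 9026971)]) (PF.cons PF.nil (PF.cons PF.nil PF.nil))))))))) (PF.cons (PF.cons (PF.leaf (nat_lit 5597221) (nat_lit 1704708) (nat_lit 45572225) (nat_lit 9030821) [(nat_lit 0), (nat_lit 1704708), (nat_lit 0), (nat_lit 9096348)]) (PF.cons (PF.leaf (nat_lit 5917316) (nat_lit 543092)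
 (nat_lit 45036394) (nat_lit 9009820) [(nat_lit 543092), (nat_lit 1722347), (nat_lit 0), (nat_lit 9074809)]) (PF.cons (PF.leaf (nat_lit 6249771) (nat_lit 555264) (nat_lit 44486067) (nat_lit 8985585) [(nat_lit 555264), (nat_lit 1738306), (nat_lit 0), (nat_lit 9050019)]) (PF.cons (PF.leaf (nat_lit 6592024) (nat_lit 566057) (nat_lit 43925251) (nat_lit 8958176) [(nat_lit 566057), (nat_lit 1752585), (nat_lit 0), (nat_lit 9022040)]) (PF.cons (PF.leaf (nat_lit 6942229) (nat_lit 575648) (nat_lit 43357122) (nat_lit 8927682) [(nat_lit 575648), (nat_lit 1765225), (nat_lit 0), (nat_lit 8990963)]) (PF.cons PF.nil (PF.cons PF.nil PF.nil))))))) (PF.cons (PF.cons (PF.leaf (nat_lit 6364358) (nat_lit 1743167) (nat_lit 43912139) (nat_lit 8951650) [(nat_lit 0), (nat_lit 1743167), (nat_lit 0), (nat_lit 9015518)]) (PF.cons (PF.leaf (nat_lit 6698887) (nat_lit 566591) (nat_lit 43365551) (nat_lit 8922446) [(nat_lit 566591), (nat_lit 1756156), (nat_lit 0), (nat_lit 8985752)]) (PF.cons (PF.leaf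 (nat_lit 7042306) (nat_lit 575987) (nat_lit 42810688) (nat_lit 8890256) [(nat_lit 575987), (nat_lit 1767634), (nat_lit 0), (nat_lit 8952987)]) (PF.cons (PF.leaf (nat_lit 7392626) (nat_lit 584300) (nat_lit 42250439)
 (nat_lit 8855206) [(nat_lit 584300), (nat_lit 1777638), (nat_lit 0), (nat_lit 8917351)]) (PF.cons PF.nil PF.nil))))) (PF.cons (PF.cons (PF.leaf (nat_lit 7142829) (nat_lit 1769304) (nat_lit 42267579) (nat_lit 8850919) [(nat_lit 0), (nat_lit 1769304), (nat_lit 0), (nat_lit 8913096)]) (PF.cons (PF.leaf (nat_lit 7486117) (nat_lit 584036) (nat_lit 41720875) (nat_lit 8814513) [(nat_lit 584036), (nat_lit 1778318), (nat_lit 0), (nat_lit 8876111)]) (PF.cons (PF.leaf (nat_lit 7835629) (nat_lit 591218) (nat_lit 41170394) (nat_lit 8775480) [(nat_lit 591218), (nat_lit 1786002), (nat_lit 0), (nat_lit 8836492)]) (PF.cons PF.nil PF.nil)))) (PF.cons (PF.cons (PF.leaf (nat_lit 7922927) (nat_lit 1785199) (nat_lit 40658158) (nat_lit 8732092) [(nat_lit 0), (nat_lit 1785199),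 (nat_lit 0), (nat_lit 8792563)]) (PF.cons PF.nil PF.nil)) (PF.cons PF.nil (PF.cons PF.nil PF.nil)))))))) (PF.cons (PF.cons (PF.cons (PF.leaf (nat_lit 5402873) (nat_lit 3801215) (nat_lit 45254889) (nat_lit 8993714) [(nat_lit 0), (nat_lit 0), (nat_lit 3801215), (nat_lit 9058993)]) (PF.cons (PF.leaf (nat_lit 5701859) (nat_lit 524252) (nat_lit 44758321) (nat_lit 8973833) [(nat_lit 524252), (nat_lit 0), (nat_lit 3813798), (nat_lit
 9038606)]) (PF.cons (PF.leaf (nat_lit 6016544) (nat_lit 538523) (nat_lit 44241275) (nat_lit 8950776) [(nat_lit 538523), (nat_lit 0), (nat_lit 3824694), (nat_lit 9015019)]) (PF.cons (PF.leaf (nat_lit 6343500) (nat_lit 550997) (nat_lit 43709203) (nat_lit 8924601) [(nat_lit 550997), (nat_lit 0), (nat_lit 3833719), (nat_lit 8988295)]) (PF.cons (PF.leaf (nat_lit 6680380) (nat_lit 561971) (nat_lit 43166233) (nat_lit 8895389) [(nat_lit 561971), (nat_lit 0), (nat_lit 3840784), (nat_lit 8958519)]) (PF.cons (PF.leaf (nat_lit 7025303) (nat_lit 571659) (nat_lit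 42615615) (nat_lit 8863242) [(nat_lit 571659), (nat_lit 0), (nat_lit 3845862), (nat_lit 8925795)]) (PF.cons PF.nil (PF.cons PF.nil (PF.cons PF.nil PF.nil))))))))) (PF.cons (PF.cons (PF.leaf (nat_lit 6137369) (nat_lit 1721181) (nat_lit 43665033) (nat_lit 8916479) [(nat_lit 0), (nat_lit 1721181), (nat_lit 3825972), (nat_lit 8980146)]) (PF.cons (PF.leaf (nat_lit 6455504) (nat_lit 551342) (nat_lit 43148600) (nat_lit 8888701) [(nat_lit 551342), (nat_lit 1735298), (nat_lit 3833038), (nat_lit 8951830)]) (PF.cons (PF.leaf (nat_lit 6784875) (nat_lit 562200) (nat_lit 42619772) (nat_lit 8857939) [(nat_lit 562200), (nat_lit 1747868), (nat_lit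
 3838316), (nat_lit 8920514)]) (PF.cons (PF.leaf (nat_lit 7122994) (nat_lit 571728) (nat_lit 42082305) (nat_lit 8824322) [(nat_lit 571728), (nat_lit 1758914), (nat_lit 3841755), (nat_lit 8886328)]) (PF.cons (PF.leaf (nat_lit 7468112) (nat_lit 580109) (nat_lit 41539138) (nat_lit 8787984) [(nat_lit 580109), (nat_lit 1768485), (nat_lit 3843355), (nat_lit 8849411)]) (PF.cons PF.nil (PF.cons PF.nil PF.nil))))))) (PF.cons (PF.cons (PF.leaf (nat_lit 6890670) (nat_lit 1750014) (nat_lit 42075299) (nat_lit 8818478) [(nat_lit 0), (nat_lit 1750014), (nat_lit 3834514), (nat_lit 8880492)]) (PF.cons (PF.leaf (nat_lit 7221030) (nat_lit 571346) (nat_lit 41552259) (nat_lit 8783638) [(nat_lit 571346), (nat_lit 1760018), (nat_lit 3836437), (nat_lit 8845093)]) (PF.cons (PF.leaf (nat_lit 7559371) (nat_lit 579611) (nat_lit 41022469) (nat_lit 8746141) [(nat_lit 579611), (nat_lit 1768652), (nat_lit 3836648), (nat_lit 8807026)]) (PF.cons (PF.leaf (nat_lit 7903786) (nat_lit 586844) (nat_lit 40488595)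 (nat_lit 8706144) [(nat_lit 586844), (nat_lit 1775961), (nat_lit 3835165), (nat_lit 8766450)]) (PF.cons PF.nil PF.nil))))) (PF.cons (PF.cons (PF.leaf (nat_lit 7651329) (nat_lit 1768213) (nat_lit 40509381)
 (nat_lit 8702778) [(nat_lit 0), (nat_lit 1768213), (nat_lit 3828893), (nat_lit 8763118)]) (PF.cons (PF.leaf (nat_lit 7988775) (nat_lit 585864) (nat_lit 39988947) (nat_lit 8661904) [(nat_lit 585864), (nat_lit 1774727), (nat_lit 3826239), (nat_lit 8721673)]) (PF.cons PF.nil (PF.cons PF.nil PF.nil)))) (PF.cons (PF.cons (PF.leaf (nat_lit 8410877) (nat_lit 1777617) (nat_lit 38983290) (nat_lit 8572584) [(nat_lit 0), (nat_lit 1777617), (nat_lit 3811220), (nat_lit 8631248)]) (PF.cons PF.nil PF.nil)) (PF.cons PF.nil PF.nil)))))) (PF.cons (PF.cons (PF.cons (PF.leaf (nat_lit 6655959) (nat_lit 3811399) (nat_lit 41855943) (nat_lit 8784122) [(nat_lit 0), (nat_lit 0), (nat_lit 3811399), (nat_lit 8845947)]) (PF.cons (PF.leaf (nat_lit 6971037) (nat_lit 556728) (nat_lit 41360691) (nat_lit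 8751051) [(nat_lit 556728), (nat_lit 0), (nat_lit 3814000), (nat_lit 8812341)]) (PF.cons (PF.leaf (nat_lit 7296418) (nat_lit 566438) (nat_lit 40854769) (nat_lit 8715245) [(nat_lit 566438), (nat_lit 0), (nat_lit 3814968), (nat_lit 8775984)]) (PF.cons (PF.leaf (nat_lit 7629653) (nat_lit 574867) (nat_lit 40341692) (nat_lit 8676880) [(nat_lit 574867), (nat_lit 0), (nat_lit 3814290), (nat_lit 8737057)]) (PF.cons
 (PF.leaf (nat_lit 7969074) (nat_lit 582202) (nat_lit 39824173) (nat_lit 8636123) [(nat_lit 582202), (nat_lit 0), (nat_lit 3811988), (nat_lit 8695729)]) PF.nil))))) (PF.cons (PF.cons (PF.leaf (nat_lit 7393948) (nat_lit 1750009) (nat_lit 40339844) (nat_lit 8671767) [(nat_lit 0), (nat_lit 1750009), (nat_lit 3807617), (nat_lit 8731956)]) (PF.cons (PF.leaf (nat_lit 7719465) (nat_lit 573746) (nat_lit 39841087) (nat_lit 8632650) [(nat_lit 573746), (nat_lit 1757518), (nat_lit 3805761), (nat_lit 8692287)]) (PF.cons (PF.leaf (nat_lit 8052174) (nat_lit 581031) (nat_lit 39336788)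 (nat_lit 8591171) [(nat_lit 581031), (nat_lit 1763782), (nat_lit 3802379), (nat_lit 8650247)]) (PF.cons PF.nil PF.nil)))) (PF.cons (PF.cons (PF.leaf (nat_lit 8136208) (nat_lit 1761665) (nat_lit 38853060) (nat_lit 8545016) [(nat_lit 0), (nat_lit 1761665), (nat_lit 3791922), (nat_lit 8603560)]) (PF.cons (PF.leaf (nat_lit 8467448) (nat_lit 585779) (nat_lit 38358809) (nat_lit 8500867) [(nat_lit 585779), (nat_lit 1766101), (nat_lit 3786151), (nat_lit 8558851)]) PF.nil)) (PF.cons PF.nil (PF.cons PF.nil PF.nil))))) (PF.cons (PF.cons (PF.cons (PF.leaf (nat_lit 7875094) (nat_lit 3771820) (nat_lit 38703611) (nat_lit 8515668)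
 [(nat_lit 0), (nat_lit 0), (nat_lit 3771820), (nat_lit 8574072)]) (PF.cons (PF.leaf (nat_lit 8195275) (nat_lit 574226) (nat_lit 38229200) (nat_lit 8473388) [(nat_lit 574226), (nat_lit 0), (nat_lit 3766915), (nat_lit 8531251)]) (PF.cons (PF.leaf (nat_lit 8522012) (nat_lit 580661) (nat_lit 37750205) (nat_lit 8429011) [(nat_lit 580661), (nat_lit 0), (nat_lit 3760649), (nat_lit 8486324)]) (PF.cons PF.nil PF.nil)))) (PF.cons (PF.cons (PF.leaf (nat_lit 8598749) (nat_lit 1750798) (nat_lit 37294759) (nat_lit 8381042) [(nat_lit 0), (nat_lit 1750798), (nat_lit 3748124), (nat_lit 8437838)]) (PF.cons PF.nil PF.nil)) (PF.cons PF.nil PF.nil))) (PF.cons (PF.cons (PF.cons (PF.leaf (nat_lit 9040298) (nat_lit 3699222) (nat_lit 35829769) (nat_lit 8213525) [(nat_lit 0), (nat_lit 0), (nat_lit 3699222), (nat_lit 8268628)]) (PF.cons PF.nil PF.nil)) (PF.cons PF.nil PF.nil)) (PF.cons PF.nil PF.nil)))))) (PF.cons (PF.cons (PF.cons (PF.cons (PF.leaf (nat_lit 6167367) (nat_lit 8634559) (nat_lit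 41082924) (nat_lit 8634559) [(nat_lit 0), (nat_lit 0), (nat_lit 0), (nat_lit 8695664)]) (PF.cons (PF.leaf (nat_lit 6454972) (nat_lit 519692) (nat_lit 40647588) (nat_lit 8606767) [(nat_lit 519692), (nat_lit 0),
 (nat_lit 0), (nat_lit 8667382)]) (PF.cons (PF.leaf (nat_lit 6756821) (nat_lit 532494) (nat_lit 40195209) (nat_lit 8576135) [(nat_lit 532494), (nat_lit 0), (nat_lit 0), (nat_lit 8636239)]) (PF.cons (PF.leaf (nat_lit 7069617) (nat_lit 543519) (nat_lit 39730536) (nat_lit 8542855) [(nat_lit 543519), (nat_lit 0), (nat_lit 0), (nat_lit 8602431)]) (PF.cons (PF.leaf (nat_lit 7391147) (nat_lit 553082) (nat_lit 39257126) (nat_lit 8507094) [(nat_lit 553082), (nat_lit 0), (nat_lit 0), (nat_lit 8566131)]) (PF.cons (PF.leaf (nat_lit 7719656) (nat_lit 561410) (nat_lit 38777750) (nat_lit 8469010) [(nat_lit 561410), (nat_lit 0), (nat_lit 0), (nat_lit 8527499)]) (PF.cons PF.nil PF.nil))))))) (PF.cons (PF.cons (PF.leaf (nat_lit 6863424) (nat_lit 1688220) (nat_lit 39695858) (nat_lit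 8535208) [(nat_lit 0), (nat_lit 1688220), (nat_lit 0), (nat_lit 8594763)]) (PF.cons (PF.leaf (nat_lit 7167576) (nat_lit 542762) (nat_lit 39245418) (nat_lit 8501229) [(nat_lit 542762), (nat_lit 1698862), (nat_lit 0), (nat_lit 8560270)]) (PF.cons (PF.leaf (nat_lit 7481814) (nat_lit 552299) (nat_lit 38784823) (nat_lit 8464762) [(nat_lit 552299), (nat_lit 1708079), (nat_lit 0), (nat_lit 8523274)]) (PF.cons (PF.leaf (nat_lit
 7803777) (nat_lit 560552) (nat_lit 38317295) (nat_lit 8425996) [(nat_lit 560552), (nat_lit 1715923), (nat_lit 0), (nat_lit 8483969)]) (PF.cons (PF.leaf (nat_lit 8131838) (nat_lit 567715) (nat_lit 37845326) (nat_lit 8385102) [(nat_lit 567715), (nat_lit 1722464), (nat_lit 0), (nat_lit 8442529)]) PF.nil))))) (PF.cons (PF.cons (PF.leaf (nat_lit 7574112) (nat_lit 1707556) (nat_lit 38314502) (nat_lit 8421075) [(nat_lit 0), (nat_lit 1707556), (nat_lit 0), (nat_lit 8479060)]) (PF.cons (PF.leaf (nat_lit 7888611) (nat_lit 559315) (nat_lit 37859848) (nat_lit 8381829)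 [(nat_lit 559315), (nat_lit 1714622), (nat_lit 0), (nat_lit 8439287)]) (PF.cons (PF.leaf (nat_lit 8210223) (nat_lit 566438) (nat_lit 37399753) (nat_lit 8340466) [(nat_lit 566438), (nat_lit 1720470), (nat_lit 0), (nat_lit 8397387)]) (PF.cons PF.nil PF.nil)))) (PF.cons (PF.cons (PF.leaf (nat_lit 8289677) (nat_lit 1718034) (nat_lit 36957344) (nat_lit 8294845) [(nat_lit 0), (nat_lit 1718034), (nat_lit 0), (nat_lit 8351259)]) (PF.cons (PF.leaf (nat_lit 8610014) (nat_lit 570957) (nat_lit 36505862) (nat_lit 8251266) [(nat_lit 570957), (nat_lit 1722144), (nat_lit 0), (nat_lit 8307146)]) PF.nil)) (PF.cons PF.nil PF.nil))))) (PF.cons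
 (PF.cons (PF.cons (PF.leaf (nat_lit 7338083) (nat_lit 3690957) (nat_lit 38135415) (nat_lit 8388934) [(nat_lit 0), (nat_lit 0), (nat_lit 3690957), (nat_lit 8446752)]) (PF.cons (PF.leaf (nat_lit 7638780) (nat_lit 545312) (nat_lit 37704388) (nat_lit 8351778) [(nat_lit 545312), (nat_lit 0), (nat_lit 3689150), (nat_lit 8409091)]) (PF.cons (PF.leaf (nat_lit 7948799) (nat_lit 553886) (nat_lit 37264497) (nat_lit 8312337) [(nat_lit 553886), (nat_lit 0), (nat_lit 3685938), (nat_lit 8369132)]) (PF.cons (PF.leaf (nat_lit 8265834) (nat_lit 561231) (nat_lit 36818749) (nat_lit 8270827) [(nat_lit 561231), (nat_lit 0), (nat_lit 3681348), (nat_lit 8327096)]) (PF.cons PF.nil PF.nil))))) (PF.cons (PF.cons (PF.leaf (nat_lit 8034085) (nat_lit 1700981) (nat_lit 36820034) (nat_lit 8266622) [(nat_lit 0), (nat_lit 1700981), (nat_lit 3675363), (nat_lit 8322905)]) (PF.cons (PF.leaf (nat_lit 8343752) (nat_lit 559459) (nat_lit 36386870) (nat_lit 8224941) [(nat_lit 559459), (nat_lit 1706132), (nat_lit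 3669991), (nat_lit 8280708)]) (PF.cons (PF.leaf (nat_lit 8659915) (nat_lit 565780) (nat_lit 35949134) (nat_lit 8181367) [(nat_lit 565780), (nat_lit 1710175), (nat_lit 3663351), (nat_lit 8236611)]) (PF.cons PF.nil
 PF.nil)))) (PF.cons (PF.cons (PF.leaf (nat_lit 8732755) (nat_lit 1706576) (nat_lit 35531925) (nat_lit 8134513) [(nat_lit 0), (nat_lit 1706576), (nat_lit 3650687), (nat_lit 8189266)]) (PF.cons PF.nil PF.nil)) PF.nil))) (PF.cons (PF.cons (PF.cons (PF.leaf (nat_lit 8475062) (nat_lit 3632251) (nat_lit 35410706) (nat_lit 8108111) [(nat_lit 0), (nat_lit 0), (nat_lit 3632251), (nat_lit 8162745)]) (PF.cons (PF.leaf (nat_lit 8779601) (nat_lit 558217) (nat_lit 34998653) (nat_lit 8064723) [(nat_lit 558217), (nat_lit 0), (nat_lit 3624753), (nat_lit 8118855)]) (PF.cons PF.nil PF.nil))) (PF.cons (PF.cons (PF.leaf (nat_lit 9156879) (nat_lit 1692189) (nat_lit 34189515) (nat_lit 7972162) [(nat_lit 0), (nat_lit 1692189), (nat_lit 3602162), (nat_lit 8025310)]) PF.nil) PF.nil))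 (PF.cons PF.nil (PF.cons PF.nil PF.nil))))) (PF.cons (PF.cons (PF.cons (PF.cons (PF.leaf (nat_lit 7946642) (nat_lit 7997822) (nat_lit 34955103) (nat_lit 7997822) [(nat_lit 0), (nat_lit 0), (nat_lit 0), (nat_lit 8051962)]) (PF.cons (PF.leaf (nat_lit 8234006) (nat_lit 531618) (nat_lit 34578777) (nat_lit 7959350) [(nat_lit 531618), (nat_lit 0), (nat_lit 0), (nat_lit 8013022)]) (PF.cons (PF.leaf (nat_lit 8529955) (nat_lit 539308)
 (nat_lit 34194903) (nat_lit 7918929) [(nat_lit 539308), (nat_lit 0), (nat_lit 0), (nat_lit 7972121)]) (PF.cons (PF.leaf (nat_lit 8832269) (nat_lit 545822) (nat_lit 33806067) (nat_lit 7876790) [(nat_lit 545822), (nat_lit 0), (nat_lit 0), (nat_lit 7929495)]) (PF.cons PF.nil PF.nil))))) (PF.cons (PF.cons (PF.leaf (nat_lit 8605482) (nat_lit 1647652) (nat_lit 33809504) (nat_lit 7873373) [(nat_lit 0), (nat_lit 1647652), (nat_lit 0), (nat_lit 7926094)]) (PF.cons (PF.leaf (nat_lit 8900778) (nat_lit 543651) (nat_lit 33431626) (nat_lit 7831403) [(nat_lit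 543651), (nat_lit 1651183), (nat_lit 0), (nat_lit 7883649)]) (PF.cons PF.nil (PF.cons PF.nil PF.nil)))) (PF.cons (PF.cons (PF.leaf (nat_lit 9266065) (nat_lit 1649262) (nat_lit 32687981) (nat_lit 7742091) [(nat_lit 0), (nat_lit 1649262), (nat_lit 0), (nat_lit 7793405)]) (PF.cons PF.nil PF.nil)) PF.nil))) (PF.cons (PF.cons (PF.cons (PF.leaf (nat_lit 9013269) (nat_lit 3491927) (nat_lit 32588885) (nat_lit 7718590) [(nat_lit 0), (nat_lit 0), (nat_lit 3491927), (nat_lit 7769803)]) (PF.cons (PF.leaf (nat_lit 9303719) (nat_lit 541347) (nat_lit 32229067) (nat_lit 7675790) [(nat_lit 541347), (nat_lit 0), (nat_lit 3482978), (nat_lit 7726542)])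
 PF.nil)) (PF.cons PF.nil PF.nil)) (PF.cons PF.nil PF.nil))) (PF.cons (PF.cons (PF.cons (PF.cons (PF.leaf (nat_lit 9502387) (nat_lit 7352624) (nat_lit 30153192) (nat_lit 7352624) [(nat_lit 0), (nat_lit 0), (nat_lit 0), (nat_lit 7400749)]) (PF.cons (PF.leaf (nat_lit 9780108) (nat_lit 524374) (nat_lit 29837099) (nat_lit 7311306) [(nat_lit 524374), (nat_lit 0), (nat_lit 0), (nat_lit 7359008)]) PF.nil)) (PF.cons PF.nil PF.nil)) (PF.cons PF.nil PF.nil)) (PF.cons PF.nil (PF.cons PF.nil (PF.cons PF.nil PF.nil))))))))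

def p12_15_1_0 : pfC (piC [(nat_lit 36888796), (nat_lit 24534081), (nat_lit 18263511), (nat_lit 12310016)] (nat_lit 11086628)) p12_15_1 (nat_lit 4) (nat_lit 0) (nat_lit 1) = true := by decide +kernel
def p12_15_1_1 : pfC (piC [(nat_lit 36888796), (nat_lit 24534081), (nat_lit 18263511), (nat_lit 12310016)] (nat_lit 11086628)) p12_15_1 (nat_lit 4) (nat_lit 1) (nat_lit 2) = true := by decide +kernel
def p12_15_1_2 : pfC (piC [(nat_lit 36888796), (nat_lit 24534081), (nat_lit 18263511), (nat_lit 12310016)] (nat_lit 11086628)) p12_15_1 (nat_lit 4) (nat_lit 2) (nat_lit 3) = true := by decide +kernel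
def p12_15_1_3 : pfC (piC [(nat_lit 36888796), (nat_lit 24534081), (nat_lit 18263511), (nat_lit 12310016)] (nat_lit 11086628)) p12_15_1 (nat_lit 4) (nat_lit 3) (nat_lit 4) = true := by decide +kernel
def p12_15_1_4 : pfC (piC [(nat_lit 36888796), (nat_lit 24534081), (nat_lit 18263511), (nat_lit 12310016)] (nat_lit 11086628)) p12_15_1 (nat_lit 4) (nat_lit 4) (nat_lit 5) = true := by decide +kernel
def p12_15_1_5 : pfC (piC [(nat_lit 36888796), (nat_lit 24534081), (nat_lit 18263511), (nat_lit 12310016)] (nat_lit 11086628)) p12_15_1 (nat_lit 4) (nat_lit 5) (nat_lit 6) = true := by decide +kernel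
def p12_15_1_6 : pfC (piC [(nat_lit 36888796), (nat_lit 24534081), (nat_lit 18263511), (nat_lit 12310016)] (nat_lit 11086628)) p12_15_1 (nat_lit 4) (nat_lit 6) (nat_lit 7) = true := by decide +kernel
def p12_15_1_7 : pfC (piC [(nat_lit 36888796), (nat_lit 24534081), (nat_lit 18263511), (nat_lit 12310016)] (nat_lit 11086628)) p12_15_1 (nat_lit 4) (nat_lit 7) (nat_lit 8) = true := by decide +kernel
def p12_15_1_8 : pfC (piC [(nat_lit 36888796), (nat_lit 24534081), (nat_lit 18263511), (nat_lit 12310016)] (nat_lit 11086628)) p12_15_1 (nat_lit 4) (nat_lit 8) (nat_lit 9) = true := by decide +kernel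
def p12_15_1_9 : pfC (piC [(nat_lit 36888796), (nat_lit 24534081), (nat_lit 18263511), (nat_lit 12310016)] (nat_lit 11086628)) p12_15_1 (nat_lit 4) (nat_lit 9) (nat_lit 10) = true := by decide +kernel
def p12_15_1_10 : pfC (piC [(nat_lit 36888796), (nat_lit 24534081), (nat_lit 18263511), (nat_lit 12310016)] (nat_lit 11086628)) p12_15_1 (nat_lit 4) (nat_lit 10) (nat_lit 11) = true := by decide +kernel
def p12_15_1_11 : pfC (piC [(nat_lit 36888796), (nat_lit 24534081), (nat_lit 18263511), (nat_lit 12310016)] (nat_lit 11086628)) p12_15_1 (nat_lit 4) (nat_lit 11) (nat_lit 12) = true := by decide +kernel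
def p12_15_1_12 : pfC (piC [(nat_lit 36888796), (nat_lit 24534081), (nat_lit 18263511), (nat_lit 12310016)] (nat_lit 11086628)) p12_15_1 (nat_lit 4) (nat_lit 12) (nat_lit 13) = true := by decide +kernel
def p12_15_1_13 : pfC (piC [(nat_lit 36888796), (nat_lit 24534081), (nat_lit 18263511), (nat_lit 12310016)] (nat_lit 11086628)) p12_15_1 (nat_lit 4) (nat_lit 13) (nat_lit 14) = true := by decide +kernel
def p12_15_1_14 : pfC (piC [(nat_lit 36888796), (nat_lit 24534081), (nat_lit 18263511), (nat_lit 12310016)] (nat_lit 11086628)) p12_15_1 (nat_lit 4) (nat_lit 14) (nat_lit 15) = true := by decide +kernel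
def p12_15_1_15 : pfC (piC [(nat_lit 36888796), (nat_lit 24534081), (nat_lit 18263511), (nat_lit 12310016)] (nat_lit 11086628)) p12_15_1 (nat_lit 4) (nat_lit 15) (nat_lit 16) = true := by decide +kernel
def p12_15_1_16 : pfC (piC [(nat_lit 36888796), (nat_lit 24534081), (nat_lit 18263511), (nat_lit 12310016)] (nat_lit 11086628)) p12_15_1 (nat_lit 4) (nat_lit 16) (nat_lit 17) = true := by decide +kernel
def p12_15_1_17 : pfC (piC [(nat_lit 36888796), (nat_lit 24534081), (nat_lit 18263511), (nat_lit 12310016)] (nat_lit 11086628)) p12_15_1 (nat_lit 4) (nat_lit 17) (nat_lit 18) = true := by decide +kernel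
def p12_15_1_18 : pfC (piC [(nat_lit 36888796), (nat_lit 24534081), (nat_lit 18263511), (nat_lit 12310016)] (nat_lit 11086628)) p12_15_1 (nat_lit 4) (nat_lit 18) (nat_lit 19) = true := by decide +kernel
def p12_15_1_19 : pfC (piC [(nat_lit 36888796), (nat_lit 24534081), (nat_lit 18263511), (nat_lit 12310016)] (nat_lit 11086628)) p12_15_1 (nat_lit 4) (nat_lit 19) (nat_lit 20) = true := by decide +kernel
def p12_15_1_20 : pfC (piC [(nat_lit 36888796), (nat_lit 24534081), (nat_lit 18263511), (nat_lit 12310016)] (nat_lit 11086628)) p12_15_1 (nat_lit 4) (nat_lit 20) (nat_lit 21) = true := by decide +kernel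
def p12_15_1_21 : pfC (piC [(nat_lit 36888796), (nat_lit 24534081), (nat_lit 18263511), (nat_lit 12310016)] (nat_lit 11086628)) p12_15_1 (nat_lit 4) (nat_lit 21) (nat_lit 22) = true := by decide +kernel
def p12_15_1_22 : pfC (piC [(nat_lit 36888796), (nat_lit 24534081), (nat_lit 18263511), (nat_lit 12310016)] (nat_lit 11086628)) p12_15_1 (nat_lit 4) (nat_lit 22) (nat_lit 23) = true := by decide +kernel
def p12_15_1_23 : pfC (piC [(nat_lit 36888796), (nat_lit 24534081), (nat_lit 18263511), (nat_lit 12310016)] (nat_lit 11086628)) p12_15_1 (nat_lit 4) (nat_lit 23) (nat_lit 24) = true := by decide +kernel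
def p12_15_1_24 : pfC (piC [(nat_lit 36888796), (nat_lit 24534081), (nat_lit 18263511), (nat_lit 12310016)] (nat_lit 11086628)) p12_15_1 (nat_lit 4) (nat_lit 24) (nat_lit 25) = true := by decide +kernel
def p12_15_1_25 : pfC (piC [(nat_lit 36888796), (nat_lit 24534081), (nat_lit 18263511), (nat_lit 12310016)] (nat_lit 11086628)) p12_15_1 (nat_lit 4) (nat_lit 25) (nat_lit 26) = true := by decide +kernel
def p12_15_1_26 : pfC (piC [(nat_lit 36888796), (nat_lit 24534081), (nat_lit 18263511), (nat_lit 12310016)] (nat_lit 11086628)) p12_15_1 (nat_lit 4) (nat_lit 26) (nat_lit 27) = true := by decide +kernel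
def p12_15_1_27 : pfC (piC [(nat_lit 36888796), (nat_lit 24534081), (nat_lit 18263511), (nat_lit 12310016)] (nat_lit 11086628)) p12_15_1 (nat_lit 4) (nat_lit 27) (nat_lit 28) = true := by decide +kernel
def p12_15_1_28 : pfC (piC [(nat_lit 36888796), (nat_lit 24534081), (nat_lit 18263511), (nat_lit 12310016)] (nat_lit 11086628)) p12_15_1 (nat_lit 4) (nat_lit 28) (nat_lit 29) = true := by decide +kernel
def p12_15_1_29 : pfC (piC [(nat_lit 36888796), (nat_lit 24534081), (nat_lit 18263511), (nat_lit 12310016)] (nat_lit 11086628)) p12_15_1 (nat_lit 4) (nat_lit 29) (nat_lit 30) = true := by decide +kernel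
def p12_15_1_30 : pfC (piC [(nat_lit 36888796), (nat_lit 24534081), (nat_lit 18263511), (nat_lit 12310016)] (nat_lit 11086628)) p12_15_1 (nat_lit 4) (nat_lit 30) (nat_lit 31) = true := by decide +kernel
def p12_15_1_31 : pfC (piC [(nat_lit 36888796), (nat_lit 24534081), (nat_lit 18263511), (nat_lit 12310016)] (nat_lit 11086628)) p12_15_1 (nat_lit 4) (nat_lit 31) (nat_lit 32) = true := by decide +kernel
def p12_15_1_32 : pfC (piC [(nat_lit 36888796), (nat_lit 24534081), (nat_lit 18263511), (nat_lit 12310016)] (nat_lit 11086628)) p12_15_1 (nat_lit 4) (nat_lit 32) (nat_lit 33) = true := by decide +kernel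
def p12_15_1_33 : pfC (piC [(nat_lit 36888796), (nat_lit 24534081), (nat_lit 18263511), (nat_lit 12310016)] (nat_lit 11086628)) p12_15_1 (nat_lit 4) (nat_lit 33) (nat_lit 34) = true := by decide +kernel
def p12_15_1_34 : pfC (piC [(nat_lit 36888796), (nat_lit 24534081), (nat_lit 18263511), (nat_lit 12310016)] (nat_lit 11086628)) p12_15_1 (nat_lit 4) (nat_lit 34) (nat_lit 35) = true := by decide +kernel
def p12_15_1_35 : pfC (piC [(nat_lit 36888796), (nat_lit 24534081), (nat_lit 18263511), (nat_lit 12310016)] (nat_lit 11086628)) p12_15_1 (nat_lit 4) (nat_lit 35) (nat_lit 36) = true := by decide +kernel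
def p12_15_1_36 : pfC (piC [(nat_lit 36888796), (nat_lit 24534081), (nat_lit 18263511), (nat_lit 12310016)] (nat_lit 11086628)) p12_15_1 (nat_lit 4) (nat_lit 36) (nat_lit 37) = true := by decide +kernel
def p12_15_1_37 : pfC (piC [(nat_lit 36888796), (nat_lit 24534081), (nat_lit 18263511), (nat_lit 12310016)] (nat_lit 11086628)) p12_15_1 (nat_lit 4) (nat_lit 37) (nat_lit 38) = true := by decide +kernel
def p12_15_1_38 : pfC (piC [(nat_lit 36888796), (nat_lit 24534081), (nat_lit 18263511), (nat_lit 12310016)] (nat_lit 11086628)) p12_15_1 (nat_lit 4) (nat_lit 38) (nat_lit 39) = true := by decide +kernel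
def p12_15_1_39 : pfC (piC [(nat_lit 36888796), (nat_lit 24534081), (nat_lit 18263511), (nat_lit 12310016)] (nat_lit 11086628)) p12_15_1 (nat_lit 4) (nat_lit 39) (nat_lit 40) = true := by decide +kernel
def p12_15_1_40 : pfC (piC [(nat_lit 36888796), (nat_lit 24534081), (nat_lit 18263511), (nat_lit 12310016)] (nat_lit 11086628)) p12_15_1 (nat_lit 4) (nat_lit 40) (nat_lit 41) = true := by decide +kernel
def p12_15_1_41 : pfC (piC [(nat_lit 36888796), (nat_lit 24534081), (nat_lit 18263511), (nat_lit 12310016)] (nat_lit 11086628)) p12_15_1 (nat_lit 4) (nat_lit 41) (nat_lit 42) = true := by decide +kernel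
def p12_15_1_42 : pfC (piC [(nat_lit 36888796), (nat_lit 24534081), (nat_lit 18263511), (nat_lit 12310016)] (nat_lit 11086628)) p12_15_1 (nat_lit 4) (nat_lit 42) (nat_lit 43) = true := by decide +kernel
def p12_15_1_43 : pfC (piC [(nat_lit 36888796), (nat_lit 24534081), (nat_lit 18263511), (nat_lit 12310016)] (nat_lit 11086628)) p12_15_1 (nat_lit 4) (nat_lit 43) (nat_lit 44) = true := by decide +kernel
def p12_15_1_44 : pfC (piC [(nat_lit 36888796), (nat_lit 24534081), (nat_lit 18263511), (nat_lit 12310016)] (nat_lit 11086628)) p12_15_1 (nat_lit 4) (nat_lit 44) (nat_lit 45) = true := by decide +kernel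
def p12_15_1_45 : pfC (piC [(nat_lit 36888796), (nat_lit 24534081), (nat_lit 18263511), (nat_lit 12310016)] (nat_lit 11086628)) p12_15_1 (nat_lit 4) (nat_lit 45) (nat_lit 46) = true := by decide +kernel
def p12_15_1_46 : pfC (piC [(nat_lit 36888796), (nat_lit 24534081), (nat_lit 18263511), (nat_lit 12310016)] (nat_lit 11086628)) p12_15_1 (nat_lit 4) (nat_lit 46) (nat_lit 47) = true := by decide +kernel
def p12_15_1_47 : pfC (piC [(nat_lit 36888796), (nat_lit 24534081), (nat_lit 18263511), (nat_lit 12310016)] (nat_lit 11086628)) p12_15_1 (nat_lit 4) (nat_lit 47) (nat_lit 48) = true := by decide +kernel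
def p12_15_1_48 : pfC (piC [(nat_lit 36888796), (nat_lit 24534081), (nat_lit 18263511), (nat_lit 12310016)] (nat_lit 11086628)) p12_15_1 (nat_lit 4) (nat_lit 48) (nat_lit 49) = true := by decide +kernel
def p12_15_1_49 : pfC (piC [(nat_lit 36888796), (nat_lit 24534081), (nat_lit 18263511), (nat_lit 12310016)] (nat_lit 11086628)) p12_15_1 (nat_lit 4) (nat_lit 49) (nat_lit 50) = true := by decide +kernel
def p12_15_1_50 : pfC (piC [(nat_lit 36888796), (nat_lit 24534081), (nat_lit 18263511), (nat_lit 12310016)] (nat_lit 11086628)) p12_15_1 (nat_lit 4) (nat_lit 50) (nat_lit 51) = true := by decide +kernel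
def p12_15_1_51 : pfC (piC [(nat_lit 36888796), (nat_lit 24534081), (nat_lit 18263511), (nat_lit 12310016)] (nat_lit 11086628)) p12_15_1 (nat_lit 4) (nat_lit 51) (nat_lit 52) = true := by decide +kernel
def p12_15_1_52 : pfC (piC [(nat_lit 36888796), (nat_lit 24534081), (nat_lit 18263511), (nat_lit 12310016)] (nat_lit 11086628)) p12_15_1 (nat_lit 4) (nat_lit 52) (nat_lit 53) = true := by decide +kernel
def p12_15_1_53 : pfC (piC [(nat_lit 36888796), (nat_lit 24534081), (nat_lit 18263511), (nat_lit 12310016)] (nat_lit 11086628)) p12_15_1 (nat_lit 4) (nat_lit 53) (nat_lit 54) = true := by decide +kernel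
def p12_15_1_54 : pfC (piC [(nat_lit 36888796), (nat_lit 24534081), (nat_lit 18263511), (nat_lit 12310016)] (nat_lit 11086628)) p12_15_1 (nat_lit 4) (nat_lit 54) (nat_lit 55) = true := by decide +kernel
def p12_15_1_55 : pfC (piC [(nat_lit 36888796), (nat_lit 24534081), (nat_lit 18263511), (nat_lit 12310016)] (nat_lit 11086628)) p12_15_1 (nat_lit 4) (nat_lit 55) (nat_lit 56) = true := by decide +kernel
def p12_15_1_56 : pfC (piC [(nat_lit 36888796), (nat_lit 24534081), (nat_lit 18263511), (nat_lit 12310016)] (nat_lit 11086628)) p12_15_1 (nat_lit 4) (nat_lit 56) (nat_lit 57) = true := by decide +kernel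
def p12_15_1_57 : pfC (piC [(nat_lit 36888796), (nat_lit 24534081), (nat_lit 18263511), (nat_lit 12310016)] (nat_lit 11086628)) p12_15_1 (nat_lit 4) (nat_lit 57) (nat_lit 58) = true := by decide +kernel
def p12_15_1_58 : pfC (piC [(nat_lit 36888796), (nat_lit 24534081), (nat_lit 18263511), (nat_lit 12310016)] (nat_lit 11086628)) p12_15_1 (nat_lit 4) (nat_lit 58) (nat_lit 59) = true := by decide +kernel
def p12_15_1_59 : pfC (piC [(nat_lit 36888796), (nat_lit 24534081), (nat_lit 18263511), (nat_lit 12310016)] (nat_lit 11086628)) p12_15_1 (nat_lit 4) (nat_lit 59) (nat_lit 60) = true := by decide +kernel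
def p12_15_1_60 : pfC (piC [(nat_lit 36888796), (nat_lit 24534081), (nat_lit 18263511), (nat_lit 12310016)] (nat_lit 11086628)) p12_15_1 (nat_lit 4) (nat_lit 60) (nat_lit 61) = true := by decide +kernel
def p12_15_1_61 : pfC (piC [(nat_lit 36888796), (nat_lit 24534081), (nat_lit 18263511), (nat_lit 12310016)] (nat_lit 11086628)) p12_15_1 (nat_lit 4) (nat_lit 61) (nat_lit 62) = true := by decide +kernel
def p12_15_1_62 : pfC (piC [(nat_lit 36888796), (nat_lit 24534081), (nat_lit 18263511), (nat_lit 12310016)] (nat_lit 11086628)) p12_15_1 (nat_lit 4) (nat_lit 62) (nat_lit 63) = true := by decide +kernel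
def p12_15_1_63 : pfC (piC [(nat_lit 36888796), (nat_lit 24534081), (nat_lit 18263511), (nat_lit 12310016)] (nat_lit 11086628)) p12_15_1 (nat_lit 4) (nat_lit 63) (nat_lit 64) = true := by decide +kernel
def p12_15_1_64 : pfC (piC [(nat_lit 36888796), (nat_lit 24534081), (nat_lit 18263511), (nat_lit 12310016)] (nat_lit 11086628)) p12_15_1 (nat_lit 4) (nat_lit 64) (nat_lit 65) = true := by decide +kernel
def p12_15_1_65 : pfC (piC [(nat_lit 36888796), (nat_lit 24534081), (nat_lit 18263511), (nat_lit 12310016)] (nat_lit 11086628)) p12_15_1 (nat_lit 4) (nat_lit 65) (nat_lit 66) = true := by decide +kernel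
def p12_15_1_66 : pfC (piC [(nat_lit 36888796), (nat_lit 24534081), (nat_lit 18263511), (nat_lit 12310016)] (nat_lit 11086628)) p12_15_1 (nat_lit 4) (nat_lit 66) (nat_lit 67) = true := by decide +kernel
def p12_15_1_67 : pfC (piC [(nat_lit 36888796), (nat_lit 24534081), (nat_lit 18263511), (nat_lit 12310016)] (nat_lit 11086628)) p12_15_1 (nat_lit 4) (nat_lit 67) (nat_lit 68) = true := by decide +kernel
def p12_15_1_68 : pfC (piC [(nat_lit 36888796), (nat_lit 24534081), (nat_lit 18263511), (nat_lit 12310016)] (nat_lit 11086628)) p12_15_1 (nat_lit 4) (nat_lit 68) (nat_lit 69) = true := by decide +kernel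
def p12_15_1_69 : pfC (piC [(nat_lit 36888796), (nat_lit 24534081), (nat_lit 18263511), (nat_lit 12310016)] (nat_lit 11086628)) p12_15_1 (nat_lit 4) (nat_lit 69) (nat_lit 70) = true := by decide +kernel
def p12_15_1_70 : pfC (piC [(nat_lit 36888796), (nat_lit 24534081), (nat_lit 18263511), (nat_lit 12310016)] (nat_lit 11086628)) p12_15_1 (nat_lit 4) (nat_lit 70) (nat_lit 71) = true := by decide +kernel
def p12_15_1_71 : pfC (piC [(nat_lit 36888796), (nat_lit 24534081), (nat_lit 18263511), (nat_lit 12310016)] (nat_lit 11086628)) p12_15_1 (nat_lit 4) (nat_lit 71) (nat_lit 72) = true := by decide +kernel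
def p12_15_1_72 : pfC (piC [(nat_lit 36888796), (nat_lit 24534081), (nat_lit 18263511), (nat_lit 12310016)] (nat_lit 11086628)) p12_15_1 (nat_lit 4) (nat_lit 72) (nat_lit 73) = true := by decide +kernel
def p12_15_1_73 : pfC (piC [(nat_lit 36888796), (nat_lit 24534081), (nat_lit 18263511), (nat_lit 12310016)] (nat_lit 11086628)) p12_15_1 (nat_lit 4) (nat_lit 73) (nat_lit 74) = true := by decide +kernel
def p12_15_1_74 : pfC (piC [(nat_lit 36888796), (nat_lit 24534081), (nat_lit 18263511), (nat_lit 12310016)] (nat_lit 11086628)) p12_15_1 (nat_lit 4) (nat_lit 74) (nat_lit 75) = true := by decide +kernel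
def p12_15_1_75 : pfC (piC [(nat_lit 36888796), (nat_lit 24534081), (nat_lit 18263511), (nat_lit 12310016)] (nat_lit 11086628)) p12_15_1 (nat_lit 4) (nat_lit 75) (nat_lit 76) = true := by decide +kernel
def p12_15_1_76 : pfC (piC [(nat_lit 36888796), (nat_lit 24534081), (nat_lit 18263511), (nat_lit 12310016)] (nat_lit 11086628)) p12_15_1 (nat_lit 4) (nat_lit 76) (nat_lit 77) = true := by decide +kernel
def p12_15_1_77 : pfC (piC [(nat_lit 36888796), (nat_lit 24534081), (nat_lit 18263511), (nat_lit 12310016)] (nat_lit 11086628)) p12_15_1 (nat_lit 4) (nat_lit 77) (nat_lit 78) = true := by decide +kernel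
def p12_15_1_78 : pfC (piC [(nat_lit 36888796), (nat_lit 24534081), (nat_lit 18263511), (nat_lit 12310016)] (nat_lit 11086628)) p12_15_1 (nat_lit 4) (nat_lit 78) (nat_lit 79) = true := by decide +kernel
def p12_15_1_79 : pfC (piC [(nat_lit 36888796), (nat_lit 24534081), (nat_lit 18263511), (nat_lit 12310016)] (nat_lit 11086628)) p12_15_1 (nat_lit 4) (nat_lit 79) (nat_lit 80) = true := by decide +kernel
def p12_15_1_80 : pfC (piC [(nat_lit 36888796), (nat_lit 24534081), (nat_lit 18263511), (nat_lit 12310016)] (nat_lit 11086628)) p12_15_1 (nat_lit 4) (nat_lit 80) (nat_lit 81) = true := by decide +kernel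
def p12_15_1_81 : pfC (piC [(nat_lit 36888796), (nat_lit 24534081), (nat_lit 18263511), (nat_lit 12310016)] (nat_lit 11086628)) p12_15_1 (nat_lit 4) (nat_lit 81) (nat_lit 82) = true := by decide +kernel
def p12_15_1_82 : pfC (piC [(nat_lit 36888796), (nat_lit 24534081), (nat_lit 18263511), (nat_lit 12310016)] (nat_lit 11086628)) p12_15_1 (nat_lit 4) (nat_lit 82) (nat_lit 83) = true := by decide +kernel
def p12_15_1_83 : pfC (piC [(nat_lit 36888796), (nat_lit 24534081), (nat_lit 18263511), (nat_lit 12310016)] (nat_lit 11086628)) p12_15_1 (nat_lit 4) (nat_lit 83) (nat_lit 84) = true := by decide +kernel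
def p12_15_1_84 : pfC (piC [(nat_lit 36888796), (nat_lit 24534081), (nat_lit 18263511), (nat_lit 12310016)] (nat_lit 11086628)) p12_15_1 (nat_lit 4) (nat_lit 84) (nat_lit 85) = true := by decide +kernel
def p12_15_1_85 : pfC (piC [(nat_lit 36888796), (nat_lit 24534081), (nat_lit 18263511), (nat_lit 12310016)] (nat_lit 11086628)) p12_15_1 (nat_lit 4) (nat_lit 85) (nat_lit 86) = true := by decide +kernel
def p12_15_1_86 : pfC (piC [(nat_lit 36888796), (nat_lit 24534081), (nat_lit 18263511), (nat_lit 12310016)] (nat_lit 11086628)) p12_15_1 (nat_lit 4) (nat_lit 86) (nat_lit 87) = true := by decide +kernel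
def p12_15_1_87 : pfC (piC [(nat_lit 36888796), (nat_lit 24534081), (nat_lit 18263511), (nat_lit 12310016)] (nat_lit 11086628)) p12_15_1 (nat_lit 4) (nat_lit 87) (nat_lit 88) = true := by decide +kernel
def p12_15_1_88 : pfC (piC [(nat_lit 36888796), (nat_lit 24534081), (nat_lit 18263511), (nat_lit 12310016)] (nat_lit 11086628)) p12_15_1 (nat_lit 4) (nat_lit 88) (nat_lit 89) = true := by decide +kernel
def p12_15_1_89 : pfC (piC [(nat_lit 36888796), (nat_lit 24534081), (nat_lit 18263511), (nat_lit 12310016)] (nat_lit 11086628)) p12_15_1 (nat_lit 4) (nat_lit 89) (nat_lit 90) = true := by decide +kernel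
def p12_15_1_90 : pfC (piC [(nat_lit 36888796), (nat_lit 24534081), (nat_lit 18263511), (nat_lit 12310016)] (nat_lit 11086628)) p12_15_1 (nat_lit 4) (nat_lit 90) (nat_lit 91) = true := by decide +kernel
def p12_15_1_91 : pfC (piC [(nat_lit 36888796), (nat_lit 24534081), (nat_lit 18263511), (nat_lit 12310016)] (nat_lit 11086628)) p12_15_1 (nat_lit 4) (nat_lit 91) (nat_lit 92) = true := by decide +kernel
def p12_15_1_92 : pfC (piC [(nat_lit 36888796), (nat_lit 24534081), (nat_lit 18263511), (nat_lit 12310016)] (nat_lit 11086628)) p12_15_1 (nat_lit 4) (nat_lit 92) (nat_lit 93) = true := by decide +kernel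
def p12_15_1_93 : pfC (piC [(nat_lit 36888796), (nat_lit 24534081), (nat_lit 18263511), (nat_lit 12310016)] (nat_lit 11086628)) p12_15_1 (nat_lit 4) (nat_lit 93) (nat_lit 94) = true := by decide +kernel
def p12_15_1_94 : pfC (piC [(nat_lit 36888796), (nat_lit 24534081), (nat_lit 18263511), (nat_lit 12310016)] (nat_lit 11086628)) p12_15_1 (nat_lit 4) (nat_lit 94) (nat_lit 95) = true := by decide +kernel
def p12_15_1_95 : pfC (piC [(nat_lit 36888796), (nat_lit 24534081), (nat_lit 18263511), (nat_lit 12310016)] (nat_lit 11086628)) p12_15_1 (nat_lit 4) (nat_lit 95) (nat_lit 96) = true := by decide +kernel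
def p12_15_1_96 : pfC (piC [(nat_lit 36888796), (nat_lit 24534081), (nat_lit 18263511), (nat_lit 12310016)] (nat_lit 11086628)) p12_15_1 (nat_lit 4) (nat_lit 96) (nat_lit 97) = true := by decide +kernel
def p12_15_1_97 : pfC (piC [(nat_lit 36888796), (nat_lit 24534081), (nat_lit 18263511), (nat_lit 12310016)] (nat_lit 11086628)) p12_15_1 (nat_lit 4) (nat_lit 97) (nat_lit 98) = true := by decide +kernel
def p12_15_1_98 : pfC (piC [(nat_lit 36888796), (nat_lit 24534081), (nat_lit 18263511), (nat_lit 12310016)] (nat_lit 11086628)) p12_15_1 (nat_lit 4) (nat_lit 98) (nat_lit 99) = true := by decide +kernel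
def p12_15_1_99 : pfC (piC [(nat_lit 36888796), (nat_lit 24534081), (nat_lit 18263511), (nat_lit 12310016)] (nat_lit 11086628)) p12_15_1 (nat_lit 4) (nat_lit 99) (nat_lit 100) = true := by decide +kernel
def p12_15_1_100 : pfC (piC [(nat_lit 36888796), (nat_lit 24534081), (nat_lit 18263511), (nat_lit 12310016)] (nat_lit 11086628)) p12_15_1 (nat_lit 4) (nat_lit 100) (nat_lit 101) = true := by decide +kernel
def p12_15_1_101 : pfC (piC [(nat_lit 36888796), (nat_lit 24534081), (nat_lit 18263511), (nat_lit 12310016)] (nat_lit 11086628)) p12_15_1 (nat_lit 4) (nat_lit 101) (nat_lit 102) = true := by decide +kernel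
def p12_15_1_102 : pfC (piC [(nat_lit 36888796), (nat_lit 24534081), (nat_lit 18263511), (nat_lit 12310016)] (nat_lit 11086628)) p12_15_1 (nat_lit 4) (nat_lit 102) (nat_lit 103) = true := by decide +kernel
def p12_15_1_103 : pfC (piC [(nat_lit 36888796), (nat_lit 24534081), (nat_lit 18263511), (nat_lit 12310016)] (nat_lit 11086628)) p12_15_1 (nat_lit 4) (nat_lit 103) (nat_lit 104) = true := by decide +kernel
def p12_15_1_104 : pfC (piC [(nat_lit 36888796), (nat_lit 24534081), (nat_lit 18263511), (nat_lit 12310016)] (nat_lit 11086628)) p12_15_1 (nat_lit 4) (nat_lit 104) (nat_lit 105) = true := by decide +kernel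
def p12_15_1_105 : pfC (piC [(nat_lit 36888796), (nat_lit 24534081), (nat_lit 18263511), (nat_lit 12310016)] (nat_lit 11086628)) p12_15_1 (nat_lit 4) (nat_lit 105) (nat_lit 106) = true := by decide +kernel
def p12_15_1_106 : pfC (piC [(nat_lit 36888796), (nat_lit 24534081), (nat_lit 18263511), (nat_lit 12310016)] (nat_lit 11086628)) p12_15_1 (nat_lit 4) (nat_lit 106) (nat_lit 107) = true := by decide +kernel
def p12_15_1_107 : pfC (piC [(nat_lit 36888796), (nat_lit 24534081), (nat_lit 18263511), (nat_lit 12310016)] (nat_lit 11086628)) p12_15_1 (nat_lit 4) (nat_lit 107) (nat_lit 108) = true := by decide +kernel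
def p12_15_1_108 : pfC (piC [(nat_lit 36888796), (nat_lit 24534081), (nat_lit 18263511), (nat_lit 12310016)] (nat_lit 11086628)) p12_15_1 (nat_lit 4) (nat_lit 108) (nat_lit 109) = true := by decide +kernel
def p12_15_1_109 : pfC (piC [(nat_lit 36888796), (nat_lit 24534081), (nat_lit 18263511), (nat_lit 12310016)] (nat_lit 11086628)) p12_15_1 (nat_lit 4) (nat_lit 109) (nat_lit 110) = true := by decide +kernel
def p12_15_1_110 : pfC (piC [(nat_lit 36888796), (nat_lit 24534081), (nat_lit 18263511), (nat_lit 12310016)] (nat_lit 11086628)) p12_15_1 (nat_lit 4) (nat_lit 110) (nat_lit 111) = true := by decide +kernel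
def p12_15_1_111 : pfC (piC [(nat_lit 36888796), (nat_lit 24534081), (nat_lit 18263511), (nat_lit 12310016)] (nat_lit 11086628)) p12_15_1 (nat_lit 4) (nat_lit 111) (nat_lit 112) = true := by decide +kernel
def p12_15_1_112 : pfC (piC [(nat_lit 36888796), (nat_lit 24534081), (nat_lit 18263511), (nat_lit 12310016)] (nat_lit 11086628)) p12_15_1 (nat_lit 4) (nat_lit 112) (nat_lit 113) = true := by decide +kernel
def p12_15_1_113 : pfC (piC [(nat_lit 36888796), (nat_lit 24534081), (nat_lit 18263511), (nat_lit 12310016)] (nat_lit 11086628)) p12_15_1 (nat_lit 4) (nat_lit 113) (nat_lit 114) = true := by decide +kernel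
def p12_15_1_114 : pfC (piC [(nat_lit 36888796), (nat_lit 24534081), (nat_lit 18263511), (nat_lit 12310016)] (nat_lit 11086628)) p12_15_1 (nat_lit 4) (nat_lit 114) (nat_lit 115) = true := by decide +kernel
def p12_15_1_115 : pfC (piC [(nat_lit 36888796), (nat_lit 24534081), (nat_lit 18263511), (nat_lit 12310016)] (nat_lit 11086628)) p12_15_1 (nat_lit 4) (nat_lit 115) (nat_lit 116) = true := by decide +kernel
def p12_15_1_116 : pfC (piC [(nat_lit 36888796), (nat_lit 24534081), (nat_lit 18263511), (nat_lit 12310016)] (nat_lit 11086628)) p12_15_1 (nat_lit 4) (nat_lit 116) (nat_lit 117) = true := by decide +kernel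
def p12_15_1_117 : pfC (piC [(nat_lit 36888796), (nat_lit 24534081), (nat_lit 18263511), (nat_lit 12310016)] (nat_lit 11086628)) p12_15_1 (nat_lit 4) (nat_lit 117) (nat_lit 118) = true := by decide +kernel
def p12_15_1_118 : pfC (piC [(nat_lit 36888796), (nat_lit 24534081), (nat_lit 18263511), (nat_lit 12310016)] (nat_lit 11086628)) p12_15_1 (nat_lit 4) (nat_lit 118) (nat_lit 119) = true := by decide +kernel
def p12_15_1_119 : pfC (piC [(nat_lit 36888796), (nat_lit 24534081), (nat_lit 18263511), (nat_lit 12310016)] (nat_lit 11086628)) p12_15_1 (nat_lit 4) (nat_lit 119) (nat_lit 120) = true := by decide +kernel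
def p12_15_1_120 : pfC (piC [(nat_lit 36888796), (nat_lit 24534081), (nat_lit 18263511), (nat_lit 12310016)] (nat_lit 11086628)) p12_15_1 (nat_lit 4) (nat_lit 120) (nat_lit 121) = true := by decide +kernel
def p12_15_1_121 : pfC (piC [(nat_lit 36888796), (nat_lit 24534081), (nat_lit 18263511), (nat_lit 12310016)] (nat_lit 11086628)) p12_15_1 (nat_lit 4) (nat_lit 121) (nat_lit 122) = true := by decide +kernel
def p12_15_1_122 : pfC (piC [(nat_lit 36888796), (nat_lit 24534081), (nat_lit 18263511), (nat_lit 12310016)] (nat_lit 11086628)) p12_15_1 (nat_lit 4) (nat_lit 122) (nat_lit 123) = true := by decide +kernel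
def p12_15_1_123 : pfC (piC [(nat_lit 36888796), (nat_lit 24534081), (nat_lit 18263511), (nat_lit 12310016)] (nat_lit 11086628)) p12_15_1 (nat_lit 4) (nat_lit 123) (nat_lit 124) = true := by decide +kernel
def p12_15_1_124 : pfC (piC [(nat_lit 36888796), (nat_lit 24534081), (nat_lit 18263511), (nat_lit 12310016)] (nat_lit 11086628)) p12_15_1 (nat_lit 4) (nat_lit 124) (nat_lit 125) = true := by decide +kernel
def p12_15_1_125 : pfC (piC [(nat_lit 36888796), (nat_lit 24534081), (nat_lit 18263511), (nat_lit 12310016)] (nat_lit 11086628)) p12_15_1 (nat_lit 4) (nat_lit 125) (nat_lit 126) = true := by decide +kernel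
def p12_15_1_126 : pfC (piC [(nat_lit 36888796), (nat_lit 24534081), (nat_lit 18263511), (nat_lit 12310016)] (nat_lit 11086628)) p12_15_1 (nat_lit 4) (nat_lit 126) (nat_lit 127) = true := by decide +kernel
def p12_15_1_127 : pfC (piC [(nat_lit 36888796), (nat_lit 24534081), (nat_lit 18263511), (nat_lit 12310016)] (nat_lit 11086628)) p12_15_1 (nat_lit 4) (nat_lit 127) (nat_lit 128) = true := by decide +kernel
def p12_15_1_128 : pfC (piC [(nat_lit 36888796), (nat_lit 24534081), (nat_lit 18263511), (nat_lit 12310016)] (nat_lit 11086628)) p12_15_1 (nat_lit 4) (nat_lit 128) (nat_lit 129) = true := by decide +kernel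
def p12_15_1_129 : pfC (piC [(nat_lit 36888796), (nat_lit 24534081), (nat_lit 18263511), (nat_lit 12310016)] (nat_lit 11086628)) p12_15_1 (nat_lit 4) (nat_lit 129) (nat_lit 130) = true := by decide +kernel
def p12_15_1_130 : pfC (piC [(nat_lit 36888796), (nat_lit 24534081), (nat_lit 18263511), (nat_lit 12310016)] (nat_lit 11086628)) p12_15_1 (nat_lit 4) (nat_lit 130) (nat_lit 131) = true := by decide +kernel
def p12_15_1_131 : pfC (piC [(nat_lit 36888796), (nat_lit 24534081), (nat_lit 18263511), (nat_lit 12310016)] (nat_lit 11086628)) p12_15_1 (nat_lit 4) (nat_lit 131) (nat_lit 132) = true := by decide +kernel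
def p12_15_1_132 : pfC (piC [(nat_lit 36888796), (nat_lit 24534081), (nat_lit 18263511), (nat_lit 12310016)] (nat_lit 11086628)) p12_15_1 (nat_lit 4) (nat_lit 132) (nat_lit 133) = true := by decide +kernel
def p12_15_1_133 : pfC (piC [(nat_lit 36888796), (nat_lit 24534081), (nat_lit 18263511), (nat_lit 12310016)] (nat_lit 11086628)) p12_15_1 (nat_lit 4) (nat_lit 133) (nat_lit 134) = true := by decide +kernel
def p12_15_1_134 : pfC (piC [(nat_lit 36888796), (nat_lit 24534081), (nat_lit 18263511), (nat_lit 12310016)] (nat_lit 11086628)) p12_15_1 (nat_lit 4) (nat_lit 134) (nat_lit 135) = true := by decide +kernel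
def p12_15_1_135 : pfC (piC [(nat_lit 36888796), (nat_lit 24534081), (nat_lit 18263511), (nat_lit 12310016)] (nat_lit 11086628)) p12_15_1 (nat_lit 4) (nat_lit 135) (nat_lit 136) = true := by decide +kernel
def p12_15_1_136 : pfC (piC [(nat_lit 36888796), (nat_lit 24534081), (nat_lit 18263511), (nat_lit 12310016)] (nat_lit 11086628)) p12_15_1 (nat_lit 4) (nat_lit 136) (nat_lit 137) = true := by decide +kernel
def p12_15_1_137 : pfC (piC [(nat_lit 36888796), (nat_lit 24534081), (nat_lit 18263511), (nat_lit 12310016)] (nat_lit 11086628)) p12_15_1 (nat_lit 4) (nat_lit 137) (nat_lit 138) = true := by decide +kernel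
def p12_15_1_138 : pfC (piC [(nat_lit 36888796), (nat_lit 24534081), (nat_lit 18263511), (nat_lit 12310016)] (nat_lit 11086628)) p12_15_1 (nat_lit 4) (nat_lit 138) (nat_lit 139) = true := by decide +kernel
def p12_15_1_139 : pfC (piC [(nat_lit 36888796), (nat_lit 24534081), (nat_lit 18263511), (nat_lit 12310016)] (nat_lit 11086628)) p12_15_1 (nat_lit 4) (nat_lit 139) (nat_lit 140) = true := by decide +kernel
def p12_15_1_140 : pfC (piC [(nat_lit 36888796), (nat_lit 24534081), (nat_lit 18263511), (nat_lit 12310016)] (nat_lit 11086628)) p12_15_1 (nat_lit 4) (nat_lit 140) (nat_lit 141) = true := by decide +kernel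
def p12_15_1_141 : pfC (piC [(nat_lit 36888796), (nat_lit 24534081), (nat_lit 18263511), (nat_lit 12310016)] (nat_lit 11086628)) p12_15_1 (nat_lit 4) (nat_lit 141) (nat_lit 142) = true := by decide +kernel
def p12_15_1_142 : pfC (piC [(nat_lit 36888796), (nat_lit 24534081), (nat_lit 18263511), (nat_lit 12310016)] (nat_lit 11086628)) p12_15_1 (nat_lit 4) (nat_lit 142) (nat_lit 143) = true := by decide +kernel
def p12_15_1_143 : pfC (piC [(nat_lit 36888796), (nat_lit 24534081), (nat_lit 18263511), (nat_lit 12310016)] (nat_lit 11086628)) p12_15_1 (nat_lit 4) (nat_lit 143) (nat_lit 144) = true := by decide +kernel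
def p12_15_1_144 : pfC (piC [(nat_lit 36888796), (nat_lit 24534081), (nat_lit 18263511), (nat_lit 12310016)] (nat_lit 11086628)) p12_15_1 (nat_lit 4) (nat_lit 144) (nat_lit 145) = true := by decide +kernel
def p12_15_1_145 : pfC (piC [(nat_lit 36888796), (nat_lit 24534081), (nat_lit 18263511), (nat_lit 12310016)] (nat_lit 11086628)) p12_15_1 (nat_lit 4) (nat_lit 145) (nat_lit 146) = true := by decide +kernel
def p12_15_1_146 : pfC (piC [(nat_lit 36888796), (nat_lit 24534081), (nat_lit 18263511), (nat_lit 12310016)] (nat_lit 11086628)) p12_15_1 (nat_lit 4) (nat_lit 146) (nat_lit 147) = true := by decide +kernel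
def p12_15_1_147 : pfC (piC [(nat_lit 36888796), (nat_lit 24534081), (nat_lit 18263511), (nat_lit 12310016)] (nat_lit 11086628)) p12_15_1 (nat_lit 4) (nat_lit 147) (nat_lit 148) = true := by decide +kernel
def p12_15_1_148 : pfC (piC [(nat_lit 36888796), (nat_lit 24534081), (nat_lit 18263511), (nat_lit 12310016)] (nat_lit 11086628)) p12_15_1 (nat_lit 4) (nat_lit 148) (nat_lit 149) = true := by decide +kernel
def p12_15_1_149 : pfC (piC [(nat_lit 36888796), (nat_lit 24534081), (nat_lit 18263511), (nat_lit 12310016)] (nat_lit 11086628)) p12_15_1 (nat_lit 4) (nat_lit 149) (nat_lit 150) = true := by decide +kernel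
def p12_15_1_150 : pfC (piC [(nat_lit 36888796), (nat_lit 24534081), (nat_lit 18263511), (nat_lit 12310016)] (nat_lit 11086628)) p12_15_1 (nat_lit 4) (nat_lit 150) (nat_lit 151) = true := by decide +kernel
def p12_15_1_151 : pfC (piC [(nat_lit 36888796), (nat_lit 24534081), (nat_lit 18263511), (nat_lit 12310016)] (nat_lit 11086628)) p12_15_1 (nat_lit 4) (nat_lit 151) (nat_lit 152) = true := by decide +kernel
def p12_15_1_152 : pfC (piC [(nat_lit 36888796), (nat_lit 24534081), (nat_lit 18263511), (nat_lit 12310016)] (nat_lit 11086628)) p12_15_1 (nat_lit 4) (nat_lit 152) (nat_lit 153) = true := by decide +kernel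
def p12_15_1_153 : pfC (piC [(nat_lit 36888796), (nat_lit 24534081), (nat_lit 18263511), (nat_lit 12310016)] (nat_lit 11086628)) p12_15_1 (nat_lit 4) (nat_lit 153) (nat_lit 154) = true := by decide +kernel
def p12_15_1_154 : pfC (piC [(nat_lit 36888796), (nat_lit 24534081), (nat_lit 18263511), (nat_lit 12310016)] (nat_lit 11086628)) p12_15_1 (nat_lit 4) (nat_lit 154) (nat_lit 155) = true := by decide +kernel
def p12_15_1_155 : pfC (piC [(nat_lit 36888796), (nat_lit 24534081), (nat_lit 18263511), (nat_lit 12310016)] (nat_lit 11086628)) p12_15_1 (nat_lit 4) (nat_lit 155) (nat_lit 156) = true := by decide +kernel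
def p12_15_1_156 : pfC (piC [(nat_lit 36888796), (nat_lit 24534081), (nat_lit 18263511), (nat_lit 12310016)] (nat_lit 11086628)) p12_15_1 (nat_lit 4) (nat_lit 156) (nat_lit 157) = true := by decide +kernel
def p12_15_1_157 : pfC (piC [(nat_lit 36888796), (nat_lit 24534081), (nat_lit 18263511), (nat_lit 12310016)] (nat_lit 11086628)) p12_15_1 (nat_lit 4) (nat_lit 157) (nat_lit 158) = true := by decide +kernel
def p12_15_1_158 : pfC (piC [(nat_lit 36888796), (nat_lit 24534081), (nat_lit 18263511), (nat_lit 12310016)] (nat_lit 11086628)) p12_15_1 (nat_lit 4) (nat_lit 158) (nat_lit 159) = true := by decide +kernel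
def p12_15_1_159 : pfC (piC [(nat_lit 36888796), (nat_lit 24534081), (nat_lit 18263511), (nat_lit 12310016)] (nat_lit 11086628)) p12_15_1 (nat_lit 4) (nat_lit 159) (nat_lit 160) = true := by decide +kernel
def p12_15_1_160 : pfC (piC [(nat_lit 36888796), (nat_lit 24534081), (nat_lit 18263511), (nat_lit 12310016)] (nat_lit 11086628)) p12_15_1 (nat_lit 4) (nat_lit 160) (nat_lit 161) = true := by decide +kernel
def p12_15_1_161 : pfC (piC [(nat_lit 36888796), (nat_lit 24534081), (nat_lit 18263511), (nat_lit 12310016)] (nat_lit 11086628)) p12_15_1 (nat_lit 4) (nat_lit 161) (nat_lit 162) = true := by decide +kernel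
def p12_15_1_162 : pfC (piC [(nat_lit 36888796), (nat_lit 24534081), (nat_lit 18263511), (nat_lit 12310016)] (nat_lit 11086628)) p12_15_1 (nat_lit 4) (nat_lit 162) (nat_lit 163) = true := by decide +kernel
def p12_15_1_163 : pfC (piC [(nat_lit 36888796), (nat_lit 24534081), (nat_lit 18263511), (nat_lit 12310016)] (nat_lit 11086628)) p12_15_1 (nat_lit 4) (nat_lit 163) (nat_lit 164) = true := by decide +kernel
def p12_15_1_164 : pfC (piC [(nat_lit 36888796), (nat_lit 24534081), (nat_lit 18263511), (nat_lit 12310016)] (nat_lit 11086628)) p12_15_1 (nat_lit 4) (nat_lit 164) (nat_lit 165) = true := by decide +kernel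
def p12_15_1_165 : pfC (piC [(nat_lit 36888796), (nat_lit 24534081), (nat_lit 18263511), (nat_lit 12310016)] (nat_lit 11086628)) p12_15_1 (nat_lit 4) (nat_lit 165) (nat_lit 166) = true := by decide +kernel
def p12_15_1_166 : pfC (piC [(nat_lit 36888796), (nat_lit 24534081), (nat_lit 18263511), (nat_lit 12310016)] (nat_lit 11086628)) p12_15_1 (nat_lit 4) (nat_lit 166) (nat_lit 167) = true := by decide +kernel
def p12_15_1_167 : pfC (piC [(nat_lit 36888796), (nat_lit 24534081), (nat_lit 18263511), (nat_lit 12310016)] (nat_lit 11086628)) p12_15_1 (nat_lit 4) (nat_lit 167) (nat_lit 168) = true := by decide +kernel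
def p12_15_1_168 : pfC (piC [(nat_lit 36888796), (nat_lit 24534081), (nat_lit 18263511), (nat_lit 12310016)] (nat_lit 11086628)) p12_15_1 (nat_lit 4) (nat_lit 168) (nat_lit 169) = true := by decide +kernel
def p12_15_1_169 : pfC (piC [(nat_lit 36888796), (nat_lit 24534081), (nat_lit 18263511), (nat_lit 12310016)] (nat_lit 11086628)) p12_15_1 (nat_lit 4) (nat_lit 169) (nat_lit 170) = true := by decide +kernel
def p12_15_1_170 : pfC (piC [(nat_lit 36888796), (nat_lit 24534081), (nat_lit 18263511), (nat_lit 12310016)] (nat_lit 11086628)) p12_15_1 (nat_lit 4) (nat_lit 170) (nat_lit 171) = true := by decide +kernel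
def p12_15_1_171 : pfC (piC [(nat_lit 36888796), (nat_lit 24534081), (nat_lit 18263511), (nat_lit 12310016)] (nat_lit 11086628)) p12_15_1 (nat_lit 4) (nat_lit 171) (nat_lit 172) = true := by decide +kernel
def p12_15_1_172 : pfC (piC [(nat_lit 36888796), (nat_lit 24534081), (nat_lit 18263511), (nat_lit 12310016)] (nat_lit 11086628)) p12_15_1 (nat_lit 4) (nat_lit 172) (nat_lit 173) = true := by decide +kernel
def p12_15_1_173 : pfC (piC [(nat_lit 36888796), (nat_lit 24534081), (nat_lit 18263511), (nat_lit 12310016)] (nat_lit 11086628)) p12_15_1 (nat_lit 4) (nat_lit 173) (nat_lit 174) = true := by decide +kernel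
def p12_15_1_174 : pfC (piC [(nat_lit 36888796), (nat_lit 24534081), (nat_lit 18263511), (nat_lit 12310016)] (nat_lit 11086628)) p12_15_1 (nat_lit 4) (nat_lit 174) (nat_lit 175) = true := by decide +kernel
def p12_15_1_175 : pfC (piC [(nat_lit 36888796), (nat_lit 24534081), (nat_lit 18263511), (nat_lit 12310016)] (nat_lit 11086628)) p12_15_1 (nat_lit 4) (nat_lit 175) (nat_lit 176) = true := by decide +kernel
def p12_15_1_176 : pfC (piC [(nat_lit 36888796), (nat_lit 24534081), (nat_lit 18263511), (nat_lit 12310016)] (nat_lit 11086628)) p12_15_1 (nat_lit 4) (nat_lit 176) (nat_lit 177) = true := by decide +kernel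
def p12_15_1_177 : pfC (piC [(nat_lit 36888796), (nat_lit 24534081), (nat_lit 18263511), (nat_lit 12310016)] (nat_lit 11086628)) p12_15_1 (nat_lit 4) (nat_lit 177) (nat_lit 178) = true := by decide +kernel
def p12_15_1_178 : pfC (piC [(nat_lit 36888796), (nat_lit 24534081), (nat_lit 18263511), (nat_lit 12310016)] (nat_lit 11086628)) p12_15_1 (nat_lit 4) (nat_lit 178) (nat_lit 179) = true := by decide +kernel
def p12_15_1_179 : pfC (piC [(nat_lit 36888796), (nat_lit 24534081), (nat_lit 18263511), (nat_lit 12310016)] (nat_lit 11086628)) p12_15_1 (nat_lit 4) (nat_lit 179) (nat_lit 180) = true := by decide +kernel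
def p12_15_1_180 : pfC (piC [(nat_lit 36888796), (nat_lit 24534081), (nat_lit 18263511), (nat_lit 12310016)] (nat_lit 11086628)) p12_15_1 (nat_lit 4) (nat_lit 180) (nat_lit 181) = true := by decide +kernel
def p12_15_1_181 : pfC (piC [(nat_lit 36888796), (nat_lit 24534081), (nat_lit 18263511), (nat_lit 12310016)] (nat_lit 11086628)) p12_15_1 (nat_lit 4) (nat_lit 181) (nat_lit 182) = true := by decide +kernel
def p12_15_1_182 : pfC (piC [(nat_lit 36888796), (nat_lit 24534081), (nat_lit 18263511), (nat_lit 12310016)] (nat_lit 11086628)) p12_15_1 (nat_lit 4) (nat_lit 182) (nat_lit 183) = true := by decide +kernel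
def p12_15_1_183 : pfC (piC [(nat_lit 36888796), (nat_lit 24534081), (nat_lit 18263511), (nat_lit 12310016)] (nat_lit 11086628)) p12_15_1 (nat_lit 4) (nat_lit 183) (nat_lit 184) = true := by decide +kernel
def p12_15_1_184 : pfC (piC [(nat_lit 36888796), (nat_lit 24534081), (nat_lit 18263511), (nat_lit 12310016)] (nat_lit 11086628)) p12_15_1 (nat_lit 4) (nat_lit 184) (nat_lit 185) = true := by decide +kernel
def p12_15_1_185 : pfC (piC [(nat_lit 36888796), (nat_lit 24534081), (nat_lit 18263511), (nat_lit 12310016)] (nat_lit 11086628)) p12_15_1 (nat_lit 4) (nat_lit 185) (nat_lit 186) = true := by decide +kernel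
def p12_15_1_186 : pfC (piC [(nat_lit 36888796), (nat_lit 24534081), (nat_lit 18263511), (nat_lit 12310016)] (nat_lit 11086628)) p12_15_1 (nat_lit 4) (nat_lit 186) (nat_lit 187) = true := by decide +kernel
def p12_15_1_187 : pfC (piC [(nat_lit 36888796), (nat_lit 24534081), (nat_lit 18263511), (nat_lit 12310016)] (nat_lit 11086628)) p12_15_1 (nat_lit 4) (nat_lit 187) (nat_lit 188) = true := by decide +kernel
theorem p12_15_1_T : PfS (PiF n12_15.reverse (nat_lit 11086628)) p12_15_1 (nat_lit 4) [] 0 :=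
  pftab_of (los := [(nat_lit 36888796), (nat_lit 24534081), (nat_lit 18263511), (nat_lit 12310016)]) (by decide +kernel) (hi := (nat_lit 188)) (PfP.trans (PfP.trans (PfP.trans (PfP.trans (PfP.trans (PfP.trans (PfP.trans (PfP.trans (PfP.trans (PfP.trans (PfP.trans (PfP.trans (PfP.trans (PfP.trans (PfP.trans (PfP.trans (PfP.trans (PfP.trans (PfP.trans (PfP.trans (PfP.trans (PfP.trans (PfP.trans (PfP.trans (PfP.trans (PfP.trans (PfP.trans (PfP.trans (PfP.trans (PfP.trans (PfP.trans (PfP.trans (PfP.trans (PfP.trans (PfP.trans (PfP.trans (PfP.trans (PfP.trans (PfP.trans (PfP.trans (PfP.trans (PfP.trans (PfP.trans (PfP.trans (PfP.trans (PfP.trans (PfP.trans (PfP.trans (PfP.trans (PfP.trans (PfP.trans (PfP.trans (PfP.trans (PfP.trans (PfP.trans (PfP.trans (PfP.trans (PfP.trans (PfP.trans (PfP.trans (PfP.trans (PfP.trans (PfP.trans (PfP.trans (PfP.trans (PfP.trans (PfP.trans (PfP.trans (PfP.trans (PfP.trans (PfP.trans (PfP.trans (PfP.trans (PfP.trans (PfP.trans (PfP.trans (PfP.trans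 (PfP.trans (PfP.trans (PfP.trans (PfP.trans (PfP.trans (PfP.trans (PfP.trans (PfP.trans (PfP.trans (PfP.trans (PfP.trans (PfP.trans (PfP.trans (PfP.trans (PfP.trans (PfP.trans (PfP.trans (PfP.trans (PfP.trans (PfP.trans (PfP.trans (PfP.trans (PfP.trans (PfP.trans (PfP.trans (PfP.trans (PfP.trans (PfP.trans (PfP.trans (PfP.trans (PfP.trans (PfP.trans
 (PfP.trans (PfP.trans (PfP.trans (PfP.trans (PfP.trans (PfP.trans (PfP.trans (PfP.trans (PfP.trans (PfP.trans (PfP.trans (PfP.trans (PfP.trans (PfP.trans (PfP.trans (PfP.trans (PfP.trans (PfP.trans (PfP.trans (PfP.trans (PfP.trans (PfP.trans (PfP.trans (PfP.trans (PfP.trans (PfP.trans (PfP.trans (PfP.trans (PfP.trans (PfP.trans (PfP.trans (PfP.trans (PfP.trans (PfP.trans (PfP.trans (PfP.trans (PfP.trans (PfP.trans (PfP.trans (PfP.trans (PfP.trans (PfP.trans (PfP.trans (PfP.trans (PfP.trans (PfP.trans (PfP.trans (PfP.trans (PfP.trans (PfP.trans (PfP.trans (PfP.trans (PfP.trans (PfP.trans (PfP.trans (PfP.trans (PfP.trans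 (PfP.trans (PfP.trans (PfP.trans (PfP.trans (PfP.trans (PfP.trans (PfP.trans (PfP.trans (PfP.trans (PfP.trans (PfP.trans (PfP.trans (PfP.trans (PfP.trans (PfP.trans (PfP.trans (PfP.trans (PfP.trans (PfP.trans (PfP.trans (PfP.trans (pfC_sound p12_15_1_0) (pfC_sound p12_15_1_1)) (pfC_sound p12_15_1_2)) (pfC_sound p12_15_1_3)) (pfC_sound p12_15_1_4)) (pfC_sound p12_15_1_5)) (pfC_sound p12_15_1_6)) (pfC_sound p12_15_1_7)) (pfC_sound p12_15_1_8)) (pfC_sound p12_15_1_9)) (pfC_sound p12_15_1_10)) (pfC_sound p12_15_1_11)) (pfC_sound p12_15_1_12)) (pfC_sound p12_15_1_13))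
 (pfC_sound p12_15_1_14)) (pfC_sound p12_15_1_15)) (pfC_sound p12_15_1_16)) (pfC_sound p12_15_1_17)) (pfC_sound p12_15_1_18)) (pfC_sound p12_15_1_19)) (pfC_sound p12_15_1_20)) (pfC_sound p12_15_1_21)) (pfC_sound p12_15_1_22)) (pfC_sound p12_15_1_23)) (pfC_sound p12_15_1_24)) (pfC_sound p12_15_1_25)) (pfC_sound p12_15_1_26)) (pfC_sound p12_15_1_27)) (pfC_sound p12_15_1_28)) (pfC_sound p12_15_1_29)) (pfC_sound p12_15_1_30)) (pfC_sound p12_15_1_31)) (pfC_sound p12_15_1_32)) (pfC_sound p12_15_1_33)) (pfC_sound p12_15_1_34)) (pfC_sound p12_15_1_35)) (pfC_sound p12_15_1_36)) (pfC_sound p12_15_1_37)) (pfC_sound p12_15_1_38)) (pfC_sound p12_15_1_39)) (pfC_sound p12_15_1_40)) (pfC_sound p12_15_1_41)) (pfC_sound p12_15_1_42)) (pfC_sound p12_15_1_43)) (pfC_sound p12_15_1_44)) (pfC_sound p12_15_1_45)) (pfC_sound p12_15_1_46)) (pfC_sound p12_15_1_47)) (pfC_sound p12_15_1_48)) (pfC_sound p12_15_1_49)) (pfC_sound p12_15_1_50)) (pfC_sound p12_15_1_51)) (pfC_sound p12_15_1_52)) (pfC_sound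 p12_15_1_53)) (pfC_sound p12_15_1_54)) (pfC_sound p12_15_1_55)) (pfC_sound p12_15_1_56)) (pfC_sound p12_15_1_57)) (pfC_sound p12_15_1_58)) (pfC_sound p12_15_1_59)) (pfC_sound p12_15_1_60)) (pfC_sound p12_15_1_61))
 (pfC_sound p12_15_1_62)) (pfC_sound p12_15_1_63)) (pfC_sound p12_15_1_64)) (pfC_sound p12_15_1_65)) (pfC_sound p12_15_1_66)) (pfC_sound p12_15_1_67)) (pfC_sound p12_15_1_68)) (pfC_sound p12_15_1_69)) (pfC_sound p12_15_1_70)) (pfC_sound p12_15_1_71)) (pfC_sound p12_15_1_72)) (pfC_sound p12_15_1_73)) (pfC_sound p12_15_1_74)) (pfC_sound p12_15_1_75)) (pfC_sound p12_15_1_76)) (pfC_sound p12_15_1_77)) (pfC_sound p12_15_1_78)) (pfC_sound p12_15_1_79)) (pfC_sound p12_15_1_80)) (pfC_sound p12_15_1_81)) (pfC_sound p12_15_1_82)) (pfC_sound p12_15_1_83)) (pfC_sound p12_15_1_84)) (pfC_sound p12_15_1_85)) (pfC_sound p12_15_1_86)) (pfC_sound p12_15_1_87)) (pfC_sound p12_15_1_88)) (pfC_sound p12_15_1_89)) (pfC_sound p12_15_1_90)) (pfC_sound p12_15_1_91)) (pfC_sound p12_15_1_92))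 (pfC_sound p12_15_1_93)) (pfC_sound p12_15_1_94)) (pfC_sound p12_15_1_95)) (pfC_sound p12_15_1_96)) (pfC_sound p12_15_1_97)) (pfC_sound p12_15_1_98)) (pfC_sound p12_15_1_99)) (pfC_sound p12_15_1_100)) (pfC_sound p12_15_1_101)) (pfC_sound p12_15_1_102)) (pfC_sound p12_15_1_103)) (pfC_sound p12_15_1_104)) (pfC_sound p12_15_1_105)) (pfC_sound p12_15_1_106)) (pfC_sound p12_15_1_107)) (pfC_sound p12_15_1_108)) (pfC_sound
 p12_15_1_109)) (pfC_sound p12_15_1_110)) (pfC_sound p12_15_1_111)) (pfC_sound p12_15_1_112)) (pfC_sound p12_15_1_113)) (pfC_sound p12_15_1_114)) (pfC_sound p12_15_1_115)) (pfC_sound p12_15_1_116)) (pfC_sound p12_15_1_117)) (pfC_sound p12_15_1_118)) (pfC_sound p12_15_1_119)) (pfC_sound p12_15_1_120)) (pfC_sound p12_15_1_121)) (pfC_sound p12_15_1_122)) (pfC_sound p12_15_1_123)) (pfC_sound p12_15_1_124)) (pfC_sound p12_15_1_125)) (pfC_sound p12_15_1_126)) (pfC_sound p12_15_1_127)) (pfC_sound p12_15_1_128)) (pfC_sound p12_15_1_129)) (pfC_sound p12_15_1_130))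 (pfC_sound p12_15_1_131)) (pfC_sound p12_15_1_132)) (pfC_sound p12_15_1_133)) (pfC_sound p12_15_1_134)) (pfC_sound p12_15_1_135)) (pfC_sound p12_15_1_136)) (pfC_sound p12_15_1_137)) (pfC_sound p12_15_1_138)) (pfC_sound p12_15_1_139)) (pfC_sound p12_15_1_140)) (pfC_sound p12_15_1_141)) (pfC_sound p12_15_1_142)) (pfC_sound p12_15_1_143)) (pfC_sound p12_15_1_144)) (pfC_sound p12_15_1_145)) (pfC_sound p12_15_1_146)) (pfC_sound p12_15_1_147)) (pfC_sound p12_15_1_148)) (pfC_sound p12_15_1_149)) (pfC_sound p12_15_1_150)) (pfC_sound p12_15_1_151)) (pfC_sound p12_15_1_152)) (pfC_sound p12_15_1_153)) (pfC_sound p12_15_1_154)) (pfC_sound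
 p12_15_1_155)) (pfC_sound p12_15_1_156)) (pfC_sound p12_15_1_157)) (pfC_sound p12_15_1_158)) (pfC_sound p12_15_1_159)) (pfC_sound p12_15_1_160)) (pfC_sound p12_15_1_161)) (pfC_sound p12_15_1_162)) (pfC_sound p12_15_1_163)) (pfC_sound p12_15_1_164)) (pfC_sound p12_15_1_165)) (pfC_sound p12_15_1_166)) (pfC_sound p12_15_1_167)) (pfC_sound p12_15_1_168)) (pfC_sound p12_15_1_169)) (pfC_sound p12_15_1_170)) (pfC_sound p12_15_1_171)) (pfC_sound p12_15_1_172)) (pfC_sound p12_15_1_173)) (pfC_sound p12_15_1_174)) (pfC_sound p12_15_1_175)) (pfC_sound p12_15_1_176)) (pfC_sound p12_15_1_177)) (pfC_sound p12_15_1_178)) (pfC_sound p12_15_1_179)) (pfC_sound p12_15_1_180)) (pfC_sound p12_15_1_181)) (pfC_sound p12_15_1_182)) (pfC_sound p12_15_1_183)) (pfC_sound p12_15_1_184)) (pfC_sound p12_15_1_185)) (pfC_sound p12_15_1_186)) (pfC_sound p12_15_1_187)) (by decide +kernel)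

def z12_15_1 : zOK yB12_15 (nat_lit 1) (nat_lit 400) (nat_lit 600) (nat_lit 11086628) (nat_lit 7444406) = true := by decide +kernel
def g12_15_1 : gOK yB12_15.x P12_15 (nat_lit 1404) (q12_15 :: r12_15) (nat_lit 1) (nat_lit 400) (nat_lit 2) (nat_lit 600) (nat_lit 11000000) (nat_lit 17850000) (nat_lit 12712500) (nat_lit 12712500) [(nat_lit 800), (nat_lit 1130)] = true := by decide +kernel
def v12_15_1 : ivC P12_15 s12_15 w12_15 n12_15 (nat_lit 4) (nat_lit 4960) (nat_lit 1) (nat_lit 400) f168_1_400 f176_1_400 (nat_lit 2) (nat_lit 600) f168_1_600 f176_1_600 (nat_lit 11086628) (nat_lit 7444406) p12_15_1 = true := by decide +kernel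
def p12_15_2 : PF := (PF.cons (PF.cons (PF.cons (PF.cons (PF.leaf (nat_lit 2588009) (nat_lit 14278667) (nat_lit 52830145) (nat_lit 14278667) [(nat_lit 0), (nat_lit 0), (nat_lit 0), (nat_lit 0)]) (PF.cons (PF.leaf (nat_lit 2786057) (nat_lit 358519) (nat_lit 52480686) (nat_lit 14269607) [(nat_lit 358519), (nat_lit 0), (nat_lit 0), (nat_lit 0)]) (PF.cons (PF.leaf (nat_lit 3019043) (nat_lit 389294) (nat_lit 52073520) (nat_lit 14256703) [(nat_lit 389294), (nat_lit 0), (nat_lit 0), (nat_lit 0)]) (PF.cons (PF.leaf (nat_lit 3279893) (nat_lit 416361) (nat_lit 51620249) (nat_lit 14239480) [(nat_lit 416361), (nat_lit 0), (nat_lit 0), (nat_lit 0)]) (PF.cons (PF.leaf (nat_lit 3564271) (nat_lit 440513) (nat_lit 51129218) (nat_lit 14217541) [(nat_lit 440513), (nat_lit 0), (nat_lit 0), (nat_lit 0)]) (PF.cons (PF.leaf (nat_lit 3868779) (nat_lit 462260) (nat_lit 50606928) (nat_lit 14190583) [(nat_lit 462260), (nat_lit 0), (nat_lit 0), (nat_lit 0)]) (PF.cons (PF.leaf (nat_lit 4190610)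 (nat_lit 481952) (nat_lit 50058699) (nat_lit 14158398) [(nat_lit 481952), (nat_lit 0), (nat_lit 0), (nat_lit 0)]) (PF.cons (PF.leaf (nat_lit 4527434) (nat_lit 499845) (nat_lit 49489026) (nat_lit 14120866) [(nat_lit 499845), (nat_lit 0),
 (nat_lit 0), (nat_lit 0)]) (PF.cons (PF.leaf (nat_lit 4877167) (nat_lit 516134) (nat_lit 48901783) (nat_lit 14077949) [(nat_lit 516134), (nat_lit 0), (nat_lit 0), (nat_lit 0)]) (PF.cons (PF.leaf (nat_lit 5237997) (nat_lit 530975) (nat_lit 48300357) (nat_lit 14029677) [(nat_lit 530975), (nat_lit 0), (nat_lit 0), (nat_lit 0)]) (PF.cons PF.nil (PF.cons PF.nil PF.nil)))))))))))) (PF.cons (PF.cons (PF.leaf (nat_lit 3189581) (nat_lit 1451174) (nat_lit 51431962) (nat_lit 14225675) [(nat_lit 0), (nat_lit 1451174), (nat_lit 0), (nat_lit 0)]) (PF.cons (PF.leaf (nat_lit 3440873) (nat_lit 425328) (nat_lit 50988835) (nat_lit 14204821) [(nat_lit 425328), (nat_lit 1489827), (nat_lit 0), (nat_lit 0)]) (PF.cons (PF.leaf (nat_lit 3717981) (nat_lit 448703)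 (nat_lit 50505499) (nat_lit 14179056) [(nat_lit 448703), (nat_lit 1526849), (nat_lit 0), (nat_lit 0)]) (PF.cons (PF.leaf (nat_lit 4016174) (nat_lit 469668) (nat_lit 49989882) (nat_lit 14148200) [(nat_lit 469668), (nat_lit 1561724), (nat_lit 0), (nat_lit 0)]) (PF.cons (PF.leaf (nat_lit 4332239) (nat_lit 488604) (nat_lit 49448028) (nat_lit 14112132) [(nat_lit 488604), (nat_lit 1594235), (nat_lit 0), (nat_lit 0)]) (PF.cons (PF.leaf (nat_lit 4663587)
 (nat_lit 505778) (nat_lit 48884813) (nat_lit 14070796) [(nat_lit 505778), (nat_lit 1624309), (nat_lit 0), (nat_lit 0)]) (PF.cons (PF.leaf (nat_lit 5008026) (nat_lit 521391) (nat_lit 48304310) (nat_lit 14024202) [(nat_lit 521391), (nat_lit 1651952), (nat_lit 0), (nat_lit 0)]) (PF.cons (PF.leaf (nat_lit 5363635) (nat_lit 535595) (nat_lit 47710004) (nat_lit 13972419) [(nat_lit 535595), (nat_lit 1677216), (nat_lit 0), (nat_lit 0)]) (PF.cons (PF.leaf (nat_lit 5728717) (nat_lit 548519) (nat_lit 47104919) (nat_lit 13915565) [(nat_lit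 548519), (nat_lit 1700175), (nat_lit 0), (nat_lit 0)]) (PF.cons PF.nil PF.nil)))))))))) (PF.cons (PF.cons (PF.leaf (nat_lit 3875120) (nat_lit 1552200) (nat_lit 49869645) (nat_lit 14134765) [(nat_lit 0), (nat_lit 1552200), (nat_lit 0), (nat_lit 0)]) (PF.cons (PF.leaf (nat_lit 4164862) (nat_lit 475869) (nat_lit 49365095) (nat_lit 14100537) [(nat_lit 475869), (nat_lit 1583655), (nat_lit 0), (nat_lit 0)]) (PF.cons (PF.leaf (nat_lit 4473998) (nat_lit 494250) (nat_lit 48832812) (nat_lit 14061048) [(nat_lit 494250), (nat_lit 1613225), (nat_lit 0), (nat_lit 0)]) (PF.cons (PF.leaf (nat_lit 4799071) (nat_lit 510854) (nat_lit 48278479) (nat_lit 14016330) [(nat_lit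
 510854), (nat_lit 1640719), (nat_lit 0), (nat_lit 0)]) (PF.cons (PF.leaf (nat_lit 5137622) (nat_lit 525903) (nat_lit 47706609) (nat_lit 13966452) [(nat_lit 525903), (nat_lit 1666068), (nat_lit 0), (nat_lit 0)]) (PF.cons (PF.leaf (nat_lit 5487580) (nat_lit 539563) (nat_lit 47120931) (nat_lit 13911525) [(nat_lit 539563), (nat_lit 1689270), (nat_lit 0), (nat_lit 0)]) (PF.cons (PF.leaf (nat_lit 5847194) (nat_lit 551964) (nat_lit 46524598) (nat_lit 13851698) [(nat_lit 551964), (nat_lit 1710363), (nat_lit 0), (nat_lit 0)]) (PF.cons PF.nil (PF.cons PF.nil PF.nil))))))))) (PF.cons (PF.cons (PF.leaf (nat_lit 4617480) (nat_lit 1630477) (nat_lit 48212239) (nat_lit 14005142) [(nat_lit 0), (nat_lit 1630477), (nat_lit 0), (nat_lit 0)]) (PF.cons (PF.leaf (nat_lit 4934798) (nat_lit 515074) (nat_lit 47669601) (nat_lit 13957528) [(nat_lit 515074), (nat_lit 1655535), (nat_lit 0), (nat_lit 0)]) (PF.cons (PF.leaf (nat_lit 5266685) (nat_lit 529681) (nat_lit 47108470) (nat_lit 13904798)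 [(nat_lit 529681), (nat_lit 1678727), (nat_lit 0), (nat_lit 0)]) (PF.cons (PF.leaf (nat_lit 5610455) (nat_lit 542889) (nat_lit 46533040) (nat_lit 13847119) [(nat_lit 542889), (nat_lit 1699994), (nat_lit 0), (nat_lit 0)])
 (PF.cons (PF.leaf (nat_lit 5964161) (nat_lit 554845) (nat_lit 45946736) (nat_lit 13784680) [(nat_lit 554845), (nat_lit 1719338), (nat_lit 0), (nat_lit 0)]) (PF.cons (PF.leaf (nat_lit 6326158) (nat_lit 565664) (nat_lit 45352425) (nat_lit 13717690) [(nat_lit 565664), (nat_lit 1736792), (nat_lit 0), (nat_lit 0)]) (PF.cons PF.nil PF.nil))))))) (PF.cons (PF.cons (PF.leaf (nat_lit 5396408) (nat_lit 1690048) (nat_lit 46509331) (nat_lit 13839289) [(nat_lit 0), (nat_lit 1690048), (nat_lit 0), (nat_lit 0)]) (PF.cons (PF.leaf (nat_lit 5732918) (nat_lit 545575) (nat_lit 45946001) (nat_lit 13779287) [(nat_lit 545575), (nat_lit 1709487), (nat_lit 0), (nat_lit 0)]) (PF.cons (PF.leaf (nat_lit 6080201) (nat_lit 557166) (nat_lit 45371131) (nat_lit 13714617) [(nat_lit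 557166), (nat_lit 1727182), (nat_lit 0), (nat_lit 0)]) (PF.cons (PF.leaf (nat_lit 6436128) (nat_lit 567618) (nat_lit 44787868) (nat_lit 13645525) [(nat_lit 567618), (nat_lit 1743140), (nat_lit 0), (nat_lit 0)]) (PF.cons PF.nil PF.nil))))) (PF.cons (PF.cons (PF.leaf (nat_lit 6196230) (nat_lit 1733974) (nat_lit 44797362) (nat_lit 13641579) [(nat_lit 0), (nat_lit 1733974), (nat_lit 0), (nat_lit 0)]) (PF.cons (PF.leaf (nat_lit 6545307)
 (nat_lit 569079) (nat_lit 44226374) (nat_lit 13570751) [(nat_lit 569079), (nat_lit 1748521), (nat_lit 0), (nat_lit 0)]) (PF.cons (PF.leaf (nat_lit 6902146) (nat_lit 578194) (nat_lit 43649093) (nat_lit 13495864) [(nat_lit 578194), (nat_lit 1761493), (nat_lit 0), (nat_lit 0)]) (PF.cons PF.nil PF.nil)))) (PF.cons (PF.cons (PF.leaf (nat_lit 7004760) (nat_lit 1764756) (nat_lit 43103019) (nat_lit 13417252) [(nat_lit 0), (nat_lit 1764756), (nat_lit 0), (nat_lit 0)]) (PF.cons PF.nil PF.nil)) (PF.cons PF.nil (PF.cons PF.nil PF.nil))))))))) (PF.cons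 (PF.cons (PF.cons (PF.leaf (nat_lit 3754460) (nat_lit 3624792) (nat_lit 49406920) (nat_lit 14077100) [(nat_lit 0), (nat_lit 0), (nat_lit 3624792), (nat_lit 0)]) (PF.cons (PF.leaf (nat_lit 4014614) (nat_lit 451552) (nat_lit 48957087) (nat_lit 14044791) [(nat_lit 451552), (nat_lit 0), (nat_lit 3655381), (nat_lit 0)]) (PF.cons (PF.leaf (nat_lit 4298913) (nat_lit 472976) (nat_lit 48470650) (nat_lit 14007099) [(nat_lit 472976), (nat_lit 0), (nat_lit 3685111), (nat_lit 0)]) (PF.cons (PF.leaf (nat_lit 4602553) (nat_lit 491915) (nat_lit 47955707) (nat_lit 13964158) [(nat_lit 491915), (nat_lit 0), (nat_lit 3713199), (nat_lit 0)]) (PF.cons (PF.leaf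
 (nat_lit 4922293) (nat_lit 508823) (nat_lit 47418262) (nat_lit 13916088) [(nat_lit 508823), (nat_lit 0), (nat_lit 3739167), (nat_lit 0)]) (PF.cons (PF.leaf (nat_lit 5255567) (nat_lit 524006) (nat_lit 46863036) (nat_lit 13863018) [(nat_lit 524006), (nat_lit 0), (nat_lit 3762728), (nat_lit 0)]) (PF.cons (PF.leaf (nat_lit 5600287) (nat_lit 537684) (nat_lit 46293882) (nat_lit 13805102) [(nat_lit 537684), (nat_lit 0), (nat_lit 3783720), (nat_lit 0)]) (PF.cons (PF.leaf (nat_lit 5954608) (nat_lit 550027) (nat_lit 45714028) (nat_lit 13742521) [(nat_lit 550027), (nat_lit 0), (nat_lit 3802068), (nat_lit 0)]) (PF.cons PF.nil (PF.cons PF.nil PF.nil)))))))))) (PF.cons (PF.cons (PF.leaf (nat_lit 4448615) (nat_lit 1604877) (nat_lit 47847296) (nat_lit 13949264) [(nat_lit 0), (nat_lit 1604877), (nat_lit 3707373), (nat_lit 0)]) (PF.cons (PF.leaf (nat_lit 4742948) (nat_lit 495931) (nat_lit 47346335) (nat_lit 13903974) [(nat_lit 495931), (nat_lit 1630850), (nat_lit 3731721), (nat_lit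 0)]) (PF.cons (PF.leaf (nat_lit 5055062) (nat_lit 512497) (nat_lit 46820992) (nat_lit 13853469) [(nat_lit 512497), (nat_lit 1655047), (nat_lit 3754308), (nat_lit 0)]) (PF.cons (PF.leaf (nat_lit 5381531) (nat_lit 527290)
 (nat_lit 46276837) (nat_lit 13797975) [(nat_lit 527290), (nat_lit 1677343), (nat_lit 3774784), (nat_lit 0)]) (PF.cons (PF.leaf (nat_lit 5719932) (nat_lit 540564) (nat_lit 45718195) (nat_lit 13737708) [(nat_lit 540564), (nat_lit 1697704), (nat_lit 3792948), (nat_lit 0)]) (PF.cons (PF.leaf (nat_lit 6068322) (nat_lit 552502) (nat_lit 45148567) (nat_lit 13672887) [(nat_lit 552502), (nat_lit 1716150), (nat_lit 3808696), (nat_lit 0)]) (PF.cons (PF.leaf (nat_lit 6424973) (nat_lit 563247) (nat_lit 44570861) (nat_lit 13603744) [(nat_lit 563247), (nat_lit 1732729), (nat_lit 3821991), (nat_lit 0)]) (PF.cons PF.nil (PF.cons PF.nil PF.nil))))))))) (PF.cons (PF.cons (PF.leaf (nat_lit 5189790) (nat_lit 1667188) (nat_lit 46220566) (nat_lit 13786795) [(nat_lit 0), (nat_lit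 1667188), (nat_lit 3767073), (nat_lit 0)]) (PF.cons (PF.leaf (nat_lit 5508019) (nat_lit 529836) (nat_lit 45689919) (nat_lit 13729366) [(nat_lit 529836), (nat_lit 1687523), (nat_lit 3784644), (nat_lit 0)]) (PF.cons (PF.leaf (nat_lit 5839385) (nat_lit 542814) (nat_lit 45143572) (nat_lit 13667165) [(nat_lit 542814), (nat_lit 1706144), (nat_lit 3800156), (nat_lit 0)]) (PF.cons (PF.leaf (nat_lit 6181277) (nat_lit 554431) (nat_lit
 44585514) (nat_lit 13600474) [(nat_lit 554431), (nat_lit 1723028), (nat_lit 3813471), (nat_lit 0)]) (PF.cons (PF.leaf (nat_lit 6531841) (nat_lit 564848) (nat_lit 44018940) (nat_lit 13529563) [(nat_lit 564848), (nat_lit 1738193), (nat_lit 3824530), (nat_lit 0)]) (PF.cons PF.nil (PF.cons PF.nil PF.nil))))))) (PF.cons (PF.cons (PF.leaf (nat_lit 5959737) (nat_lit 1713511) (nat_lit 44569325) (nat_lit 13593486) [(nat_lit 0), (nat_lit 1713511), (nat_lit 3805464), (nat_lit 0)]) (PF.cons (PF.leaf (nat_lit 6294135) (nat_lit 555806) (nat_lit 44024419) (nat_lit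 13525331) [(nat_lit 555806), (nat_lit 1728917), (nat_lit 3816502), (nat_lit 0)]) (PF.cons (PF.leaf (nat_lit 6638116) (nat_lit 565968) (nat_lit 43470151) (nat_lit 13453003) [(nat_lit 565968), (nat_lit 1742749), (nat_lit 3825473), (nat_lit 0)]) (PF.cons (PF.leaf (nat_lit 6989630) (nat_lit 575041) (nat_lit 42909444) (nat_lit 13376807) [(nat_lit 575041), (nat_lit 1755028), (nat_lit 3832350), (nat_lit 0)]) (PF.cons PF.nil PF.nil))))) (PF.cons (PF.cons (PF.leaf (nat_lit 6744658) (nat_lit 1746453) (nat_lit 42923991) (nat_lit 13374098) [(nat_lit 0), (nat_lit 1746453), (nat_lit 3824909), (nat_lit 0)]) (PF.cons (PF.leaf (nat_lit 7089257)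
 (nat_lit 575468) (nat_lit 42376071) (nat_lit 13296905) [(nat_lit 575468), (nat_lit 1757592), (nat_lit 3829999), (nat_lit 0)]) (PF.cons (PF.leaf (nat_lit 7440652) (nat_lit 583348) (nat_lit 41823459) (nat_lit 13216201) [(nat_lit 583348), (nat_lit 1767324), (nat_lit 3833158), (nat_lit 0)]) (PF.cons PF.nil PF.nil)))) (PF.cons (PF.cons (PF.leaf (nat_lit 7533990) (nat_lit 1768175) (nat_lit 41306268) (nat_lit 13133688) [(nat_lit 0), (nat_lit 1768175), (nat_lit 3827980), (nat_lit 0)]) (PF.cons PF.nil PF.nil)) (PF.cons PF.nil (PF.cons PF.nil PF.nil)))))))) (PF.cons (PF.cons (PF.cons (PF.leaf (nat_lit 5006093) (nat_lit 3743201) (nat_lit 45892667) (nat_lit 13729741) [(nat_lit 0), (nat_lit 0), (nat_lit 3743201), (nat_lit 0)]) (PF.cons (PF.leaf (nat_lit 5302659) (nat_lit 511204) (nat_lit 45401230) (nat_lit 13675553) [(nat_lit 511204), (nat_lit 0), (nat_lit 3760412), (nat_lit 0)]) (PF.cons (PF.leaf (nat_lit 5615611) (nat_lit 526177) (nat_lit 44888287) (nat_lit 13616317) [(nat_lit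 526177), (nat_lit 0), (nat_lit 3775926), (nat_lit 0)]) (PF.cons (PF.leaf (nat_lit 5941538) (nat_lit 539397) (nat_lit 44359218) (nat_lit 13552407) [(nat_lit 539397), (nat_lit 0), (nat_lit 3789497), (nat_lit 0)])
 (PF.cons (PF.leaf (nat_lit 6278116) (nat_lit 551137) (nat_lit 43818131) (nat_lit 13484147) [(nat_lit 551137), (nat_lit 0), (nat_lit 3800991), (nat_lit 0)]) (PF.cons (PF.leaf (nat_lit 6623425) (nat_lit 561596) (nat_lit 43268294) (nat_lit 13411830) [(nat_lit 561596), (nat_lit 0), (nat_lit 3810352), (nat_lit 0)]) (PF.cons PF.nil (PF.cons PF.nil (PF.cons PF.nil PF.nil))))))))) (PF.cons (PF.cons (PF.leaf (nat_lit 5741658) (nat_lit 1691541) (nat_lit 44312016) (nat_lit 13541650) [(nat_lit 0), (nat_lit 1691541), (nat_lit 3781802), (nat_lit 0)]) (PF.cons (PF.leaf (nat_lit 6059048) (nat_lit 540593) (nat_lit 43797512) (nat_lit 13476637) [(nat_lit 540593), (nat_lit 1707940), (nat_lit 3793064), (nat_lit 0)]) (PF.cons (PF.leaf (nat_lit 6388350) (nat_lit 552156) (nat_lit 43269608)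 (nat_lit 13407228) [(nat_lit 552156), (nat_lit 1722761), (nat_lit 3802450), (nat_lit 0)]) (PF.cons (PF.leaf (nat_lit 6727029) (nat_lit 562399) (nat_lit 42732067) (nat_lit 13333786) [(nat_lit 562399), (nat_lit 1736005), (nat_lit 3809876), (nat_lit 0)]) (PF.cons (PF.leaf (nat_lit 7073319) (nat_lit 571494) (nat_lit 42187859) (nat_lit 13256631) [(nat_lit 571494), (nat_lit 1747706), (nat_lit 3815319), (nat_lit 0)]) (PF.cons
 PF.nil (PF.cons PF.nil PF.nil))))))) (PF.cons (PF.cons (PF.leaf (nat_lit 6499742) (nat_lit 1726967) (nat_lit 42722353) (nat_lit 13327779) [(nat_lit 0), (nat_lit 1726967), (nat_lit 3802371), (nat_lit 0)]) (PF.cons (PF.leaf (nat_lit 6830814) (nat_lit 562716) (nat_lit 42198480) (nat_lit 13253589) [(nat_lit 562716), (nat_lit 1739015), (nat_lit 3807997), (nat_lit 0)]) (PF.cons (PF.leaf (nat_lit 7170445) (nat_lit 571645) (nat_lit 41666975) (nat_lit 13175693) [(nat_lit 571645), (nat_lit 1749637), (nat_lit 3811788), (nat_lit 0)]) (PF.cons (PF.leaf (nat_lit 7516691)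 (nat_lit 579535) (nat_lit 41130547) (nat_lit 13094431) [(nat_lit 579535), (nat_lit 1758867), (nat_lit 3813745), (nat_lit 0)]) (PF.cons PF.nil PF.nil))))) (PF.cons (PF.cons (PF.leaf (nat_lit 7268117) (nat_lit 1750875) (nat_lit 41149176) (nat_lit 13092924) [(nat_lit 0), (nat_lit 1750875), (nat_lit 3807042), (nat_lit 0)]) (PF.cons (PF.leaf (nat_lit 7607457) (nat_lit 579128) (nat_lit 40625667) (nat_lit 13011269) [(nat_lit 579128), (nat_lit 1759185), (nat_lit 3807595), (nat_lit 0)]) (PF.cons PF.nil (PF.cons PF.nil PF.nil)))) (PF.cons (PF.cons (PF.leaf (nat_lit 8037595) (nat_lit 1765166) (nat_lit 39610198) (nat_lit 12841798)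
 [(nat_lit 0), (nat_lit 1765166), (nat_lit 3798074), (nat_lit 0)]) (PF.cons PF.nil PF.nil)) (PF.cons PF.nil PF.nil)))))) (PF.cons (PF.cons (PF.cons (PF.leaf (nat_lit 6272530) (nat_lit 3779275) (nat_lit 42493430) (nat_lit 13277556) [(nat_lit 0), (nat_lit 0), (nat_lit 3779275), (nat_lit 0)]) (PF.cons (PF.leaf (nat_lit 6587745) (nat_lit 548074) (nat_lit 41997705) (nat_lit 13206879) [(nat_lit 548074), (nat_lit 0), (nat_lit 3785384), (nat_lit 0)]) (PF.cons (PF.leaf (nat_lit 6913836) (nat_lit 558403) (nat_lit 41490474) (nat_lit 13132182) [(nat_lit 558403), (nat_lit 0), (nat_lit 3789783), (nat_lit 0)]) (PF.cons (PF.leaf (nat_lit 7248328) (nat_lit 567455) (nat_lit 40975271) (nat_lit 13053882) [(nat_lit 567455), (nat_lit 0), (nat_lit 3792431), (nat_lit 0)]) (PF.cons (PF.leaf (nat_lit 7589529) (nat_lit 575409) (nat_lit 40454849) (nat_lit 12972335) [(nat_lit 575409), (nat_lit 0), (nat_lit 3793329), (nat_lit 0)]) PF.nil))))) (PF.cons (PF.cons (PF.leaf (nat_lit 7016744) (nat_lit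 1732412) (nat_lit 40971071) (nat_lit 13048912) [(nat_lit 0), (nat_lit 1732412), (nat_lit 3785472), (nat_lit 0)]) (PF.cons (PF.leaf (nat_lit 7343609) (nat_lit 566916) (nat_lit 40469669) (nat_lit 12970450) [(nat_lit
 566916), (nat_lit 1741656), (nat_lit 3786706), (nat_lit 0)]) (PF.cons (PF.leaf (nat_lit 7678170) (nat_lit 574779) (nat_lit 39962009) (nat_lit 12888709) [(nat_lit 574779), (nat_lit 1749606), (nat_lit 3786309), (nat_lit 0)]) (PF.cons PF.nil PF.nil)))) (PF.cons (PF.cons (PF.leaf (nat_lit 7767590) (nat_lit 1748874) (nat_lit 39472475) (nat_lit 12803670) [(nat_lit 0), (nat_lit 1748874), (nat_lit 3778305), (nat_lit 0)]) (PF.cons (PF.leaf (nat_lit 8101152) (nat_lit 580574) (nat_lit 38973854) (nat_lit 12719097) [(nat_lit 580574), (nat_lit 1754832), (nat_lit 3775206), (nat_lit 0)]) PF.nil)) (PF.cons PF.nil (PF.cons PF.nil PF.nil))))) (PF.cons (PF.cons (PF.cons (PF.leaf (nat_lit 7511430) (nat_lit 3757825) (nat_lit 39315249) (nat_lit 12762262) [(nat_lit 0), (nat_lit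 0), (nat_lit 3757825), (nat_lit 0)]) (PF.cons (PF.leaf (nat_lit 7833438) (nat_lit 568905) (nat_lit 38836914) (nat_lit 12680974) [(nat_lit 568905), (nat_lit 0), (nat_lit 3755504), (nat_lit 0)]) (PF.cons (PF.leaf (nat_lit 8162437) (nat_lit 575844) (nat_lit 38353415) (nat_lit 12596787) [(nat_lit 575844), (nat_lit 0), (nat_lit 3751730), (nat_lit 0)]) (PF.cons PF.nil PF.nil)))) (PF.cons (PF.cons (PF.leaf (nat_lit 8244234) (nat_lit
 1741766) (nat_lit 37891485) (nat_lit 12510726) [(nat_lit 0), (nat_lit 1741766), (nat_lit 3741208), (nat_lit 0)]) (PF.cons PF.nil PF.nil)) (PF.cons PF.nil PF.nil))) (PF.cons (PF.cons (PF.cons (PF.leaf (nat_lit 8699319) (nat_lit 3697755) (nat_lit 36402548) (nat_lit 12217487) [(nat_lit 0), (nat_lit 0), (nat_lit 3697755), (nat_lit 0)]) (PF.cons PF.nil PF.nil)) (PF.cons PF.nil PF.nil)) (PF.cons PF.nil (PF.cons PF.nil PF.nil)))))))) (PF.cons (PF.cons (PF.cons (PF.cons (PF.leaf (nat_lit 4615934) (nat_lit 8840905) (nat_lit 44783518) (nat_lit 13484388)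 [(nat_lit 0), (nat_lit 0), (nat_lit 0), (nat_lit 8840905)]) (PF.cons (PF.leaf (nat_lit 4872189) (nat_lit 461205) (nat_lit 44377733) (nat_lit 13439043) [(nat_lit 461205), (nat_lit 0), (nat_lit 0), (nat_lit 8830830)]) (PF.cons (PF.leaf (nat_lit 5150654) (nat_lit 480905) (nat_lit 43940888) (nat_lit 13388222) [(nat_lit 480905), (nat_lit 0), (nat_lit 0), (nat_lit 8817890)]) (PF.cons (PF.leaf (nat_lit 5446494) (nat_lit 497985) (nat_lit 43480414) (nat_lit 13332451) [(nat_lit 497985), (nat_lit 0), (nat_lit 0), (nat_lit 8801991)]) (PF.cons (PF.leaf (nat_lit 5756525) (nat_lit 512963) (nat_lit 43001741) (nat_lit 13272129) [(nat_lit 512963), (nat_lit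
 0), (nat_lit 0), (nat_lit 8783088)]) (PF.cons (PF.leaf (nat_lit 6078260) (nat_lit 526194) (nat_lit 42509065) (nat_lit 13207588) [(nat_lit 526194), (nat_lit 0), (nat_lit 0), (nat_lit 8761185)]) (PF.cons (PF.leaf (nat_lit 6409690) (nat_lit 537935) (nat_lit 42005748) (nat_lit 13139128) [(nat_lit 537935), (nat_lit 0), (nat_lit 0), (nat_lit 8736321)]) (PF.cons (PF.leaf (nat_lit 6749129) (nat_lit 548379) (nat_lit 41494557) (nat_lit 13067026) [(nat_lit 548379), (nat_lit 0), (nat_lit 0), (nat_lit 8708568)]) (PF.cons PF.nil (PF.cons PF.nil PF.nil)))))))))) (PF.cons (PF.cons (PF.leaf (nat_lit 5285366) (nat_lit 1610754) (nat_lit 43389341) (nat_lit 13316377) [(nat_lit 0), (nat_lit 1610754), (nat_lit 0), (nat_lit 8792339)]) (PF.cons (PF.leaf (nat_lit 5571437) (nat_lit 499954) (nat_lit 42943145) (nat_lit 13259853) [(nat_lit 499954), (nat_lit 1631351), (nat_lit 0), (nat_lit 8774508)]) (PF.cons (PF.leaf (nat_lit 5873472) (nat_lit 514730) (nat_lit 42476865) (nat_lit 13198611) [(nat_lit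 514730), (nat_lit 1650169), (nat_lit 0), (nat_lit 8753706)]) (PF.cons (PF.leaf (nat_lit 6188154) (nat_lit 527706) (nat_lit 41995459) (nat_lit 13133092) [(nat_lit 527706), (nat_lit 1667171), (nat_lit 0), (nat_lit
 8729969)]) (PF.cons (PF.leaf (nat_lit 6513157) (nat_lit 539171) (nat_lit 41502720) (nat_lit 13063658) [(nat_lit 539171), (nat_lit 1682389), (nat_lit 0), (nat_lit 8703360)]) (PF.cons (PF.leaf (nat_lit 6846641) (nat_lit 549333) (nat_lit 41001667) (nat_lit 12990628) [(nat_lit 549333), (nat_lit 1695884), (nat_lit 0), (nat_lit 8673965)]) (PF.cons (PF.leaf (nat_lit 7187050) (nat_lit 558354) (nat_lit 40494766) (nat_lit 12914297) [(nat_lit 558354), (nat_lit 1707736), (nat_lit 0), (nat_lit 8641887)]) (PF.cons PF.nil (PF.cons PF.nil PF.nil))))))))) (PF.cons (PF.cons (PF.leaf (nat_lit 5992625) (nat_lit 1657056) (nat_lit 41950527) (nat_lit 13122306) [(nat_lit 0), (nat_lit 1657056), (nat_lit 0), (nat_lit 8721865)]) (PF.cons (PF.leaf (nat_lit 6298927) (nat_lit 528594) (nat_lit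 41482328) (nat_lit 13056243) [(nat_lit 528594), (nat_lit 1672535), (nat_lit 0), (nat_lit 8696575)]) (PF.cons (PF.leaf (nat_lit 6616827) (nat_lit 539886) (nat_lit 41001548) (nat_lit 12986190) [(nat_lit 539886), (nat_lit 1686418), (nat_lit 0), (nat_lit 8668464)]) (PF.cons (PF.leaf (nat_lit 6943870) (nat_lit 549844) (nat_lit 40511646) (nat_lit 12912532) [(nat_lit 549844), (nat_lit 1698729), (nat_lit 0), (nat_lit 8637641)])
 (PF.cons (PF.leaf (nat_lit 7278305) (nat_lit 558647) (nat_lit 40015353) (nat_lit 12835602) [(nat_lit 558647), (nat_lit 1709521), (nat_lit 0), (nat_lit 8604224)]) (PF.cons (PF.leaf (nat_lit 7618705) (nat_lit 566434) (nat_lit 39514883) (nat_lit 12755699) [(nat_lit 566434), (nat_lit 1718858), (nat_lit 0), (nat_lit 8568340)]) (PF.cons PF.nil PF.nil))))))) (PF.cons (PF.cons (PF.leaf (nat_lit 6721789) (nat_lit 1689657) (nat_lit 40501508) (nat_lit 12906679) [(nat_lit 0), (nat_lit 1689657), (nat_lit 0), (nat_lit 8631654)]) (PF.cons (PF.leaf (nat_lit 7041428)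 (nat_lit 549898) (nat_lit 40023991) (nat_lit 12832729) [(nat_lit 549898), (nat_lit 1700853), (nat_lit 0), (nat_lit 8599635)]) (PF.cons (PF.leaf (nat_lit 7369426) (nat_lit 558552) (nat_lit 39539199) (nat_lit 12755481) [(nat_lit 558552), (nat_lit 1710648), (nat_lit 0), (nat_lit 8565082)]) (PF.cons (PF.leaf (nat_lit 7703882) (nat_lit 566171) (nat_lit 39049615) (nat_lit 12675277) [(nat_lit 566171), (nat_lit 1719090), (nat_lit 0), (nat_lit 8528135)]) (PF.cons PF.nil PF.nil))))) (PF.cons (PF.cons (PF.leaf (nat_lit 7461259) (nat_lit 1711158) (nat_lit 39065778) (nat_lit 12673914) [(nat_lit 0), (nat_lit 1711158), (nat_lit 0), (nat_lit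
 8524485)]) (PF.cons (PF.leaf (nat_lit 7789055) (nat_lit 565562) (nat_lit 38587874) (nat_lit 12593671) [(nat_lit 565562), (nat_lit 1718759), (nat_lit 0), (nat_lit 8486665)]) (PF.cons (PF.leaf (nat_lit 8122741) (nat_lit 572141) (nat_lit 38106510) (nat_lit 12510775) [(nat_lit 572141), (nat_lit 1725147), (nat_lit 0), (nat_lit 8446655)]) (PF.cons PF.nil PF.nil)))) (PF.cons (PF.cons (PF.leaf (nat_lit 8202400) (nat_lit 1723574) (nat_lit 37659479) (nat_lit 12428164) [(nat_lit 0), (nat_lit 1723574), (nat_lit 0), (nat_lit 8403297)]) (PF.cons PF.nil PF.nil)) (PF.cons PF.nil (PF.cons PF.nil PF.nil)))))))) (PF.cons (PF.cons (PF.cons (PF.leaf (nat_lit 5798576) (nat_lit 3678578) (nat_lit 41679175) (nat_lit 13066025) [(nat_lit 0), (nat_lit 0), (nat_lit 3678578), (nat_lit 8685033)]) (PF.cons (PF.leaf (nat_lit 6085058) (nat_lit 510211) (nat_lit 41245084) (nat_lit 13004213) [(nat_lit 510211), (nat_lit 0), (nat_lit 3687923), (nat_lit 8661378)]) (PF.cons (PF.leaf (nat_lit 6386344) (nat_lit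 523599) (nat_lit 40793159) (nat_lit 12937914) [(nat_lit 523599), (nat_lit 0), (nat_lit 3695692), (nat_lit 8634847)]) (PF.cons (PF.leaf (nat_lit 6699165) (nat_lit 535235) (nat_lit 40328133) (nat_lit 12867649)
 [(nat_lit 535235), (nat_lit 0), (nat_lit 3701754), (nat_lit 8605569)]) (PF.cons (PF.leaf (nat_lit 7021269) (nat_lit 545418) (nat_lit 39853573) (nat_lit 12793836) [(nat_lit 545418), (nat_lit 0), (nat_lit 3706058), (nat_lit 8573671)]) (PF.cons (PF.leaf (nat_lit 7350891) (nat_lit 554364) (nat_lit 39372282) (nat_lit 12716828) [(nat_lit 554364), (nat_lit 0), (nat_lit 3708597), (nat_lit 8539282)]) (PF.cons (PF.leaf (nat_lit 7686573) (nat_lit 562236) (nat_lit 38886519) (nat_lit 12636941) [(nat_lit 562236), (nat_lit 0), (nat_lit 3709400), (nat_lit 8502534)]) (PF.cons PF.nil (PF.cons PF.nil PF.nil))))))))) (PF.cons (PF.cons (PF.leaf (nat_lit 6497710) (nat_lit 1668275) (nat_lit 40290824) (nat_lit 12857671) [(nat_lit 0), (nat_lit 1668275), (nat_lit 3694232), (nat_lit 8597807)])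 (PF.cons (PF.leaf (nat_lit 6802040) (nat_lit 535119) (nat_lit 39839418) (nat_lit 12787419) [(nat_lit 535119), (nat_lit 1680678), (nat_lit 3698679), (nat_lit 8567496)]) (PF.cons (PF.leaf (nat_lit 7116981) (nat_lit 545227) (nat_lit 39377132) (nat_lit 12713505) [(nat_lit 545227), (nat_lit 1691623), (nat_lit 3701515), (nat_lit 8534581)]) (PF.cons (PF.leaf (nat_lit 7440147) (nat_lit 554054) (nat_lit 38907212) (nat_lit
 12636354) [(nat_lit 554054), (nat_lit 1701147), (nat_lit 3702716), (nat_lit 8499219)]) (PF.cons (PF.leaf (nat_lit 7769886) (nat_lit 561783) (nat_lit 38432186) (nat_lit 12556322) [(nat_lit 561783), (nat_lit 1709310), (nat_lit 3702298), (nat_lit 8461559)]) (PF.cons PF.nil (PF.cons PF.nil PF.nil))))))) (PF.cons (PF.cons (PF.leaf (nat_lit 7214200) (nat_lit 1692610) (nat_lit 38902254) (nat_lit 12631526) [(nat_lit 0), (nat_lit 1692610), (nat_lit 3695883), (nat_lit 8493928)]) (PF.cons (PF.leaf (nat_lit 7529973) (nat_lit 553337) (nat_lit 38444794) (nat_lit 12554544)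 [(nat_lit 553337), (nat_lit 1701238), (nat_lit 3695852), (nat_lit 8457805)]) (PF.cons (PF.leaf (nat_lit 7853317) (nat_lit 560989) (nat_lit 37981283) (nat_lit 12474624) [(nat_lit 560989), (nat_lit 1708600), (nat_lit 3694310), (nat_lit 8419415)]) (PF.cons (PF.leaf (nat_lit 8182401) (nat_lit 567657) (nat_lit 37514017) (nat_lit 12392121) [(nat_lit 567657), (nat_lit 1714747), (nat_lit 3691284), (nat_lit 8378920)]) (PF.cons PF.nil PF.nil))))) (PF.cons (PF.cons (PF.leaf (nat_lit 7937684) (nat_lit 1707385) (nat_lit 37533266) (nat_lit 12391806) [(nat_lit 0), (nat_lit 1707385), (nat_lit 3685475), (nat_lit 8376108)]) (PF.cons (PF.leaf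
 (nat_lit 8260187) (nat_lit 566453) (nat_lit 37077531) (nat_lit 12309640) [(nat_lit 566453), (nat_lit 1712859), (nat_lit 3681510), (nat_lit 8335100)]) (PF.cons PF.nil (PF.cons PF.nil PF.nil)))) (PF.cons (PF.cons (PF.leaf (nat_lit 8660555) (nat_lit 1714351) (nat_lit 36197166) (nat_lit 12142294) [(nat_lit 0), (nat_lit 1714351), (nat_lit 3664904), (nat_lit 8247041)]) (PF.cons PF.nil PF.nil)) (PF.cons PF.nil PF.nil)))))) (PF.cons (PF.cons (PF.cons (PF.leaf (nat_lit 6983812) (nat_lit 3673690) (nat_lit 38714932) (nat_lit 12585112) [(nat_lit 0), (nat_lit 0), (nat_lit 3673690), (nat_lit 8461387)]) (PF.cons (PF.leaf (nat_lit 7285279) (nat_lit 539232) (nat_lit 38281535) (nat_lit 12511940) [(nat_lit 539232), (nat_lit 0), (nat_lit 3674459), (nat_lit 8427184)]) (PF.cons (PF.leaf (nat_lit 7596529) (nat_lit 548308) (nat_lit 37838667) (nat_lit 12435419) [(nat_lit 548308), (nat_lit 0), (nat_lit 3673762), (nat_lit 8390585)]) (PF.cons (PF.leaf (nat_lit 7915226) (nat_lit 556153) (nat_lit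 37389366) (nat_lit 12355997) [(nat_lit 556153), (nat_lit 0), (nat_lit 3671602), (nat_lit 8351783)]) (PF.cons (PF.leaf (nat_lit 8239794) (nat_lit 562955) (nat_lit 36935976) (nat_lit 12274044) [(nat_lit 562955),
 (nat_lit 0), (nat_lit 3668009), (nat_lit 8310948)]) PF.nil))))) (PF.cons (PF.cons (PF.leaf (nat_lit 7686503) (nat_lit 1689982) (nat_lit 37388789) (nat_lit 12352171) [(nat_lit 0), (nat_lit 1689982), (nat_lit 3665333), (nat_lit 8347203)]) (PF.cons (PF.leaf (nat_lit 7997866) (nat_lit 554817) (nat_lit 36951804) (nat_lit 12273287) [(nat_lit 554817), (nat_lit 1696464), (nat_lit 3662220), (nat_lit 8307996)]) (PF.cons (PF.leaf (nat_lit 8316122) (nat_lit 561599) (nat_lit 36509749) (nat_lit 12191787) [(nat_lit 561599), (nat_lit 1701796), (nat_lit 3657758), (nat_lit 8266761)]) (PF.cons PF.nil PF.nil)))) (PF.cons (PF.cons (PF.leaf (nat_lit 8393580) (nat_lit 1699209) (nat_lit 36086437) (nat_lit 12108672) [(nat_lit 0), (nat_lit 1699209), (nat_lit 3646818), (nat_lit 8221646)])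 (PF.cons (PF.leaf (nat_lit 8710500) (nat_lit 565766) (nat_lit 35652677) (nat_lit 12025550) [(nat_lit 565766), (nat_lit 1702910), (nat_lit 3640329), (nat_lit 8178339)]) PF.nil)) (PF.cons PF.nil (PF.cons PF.nil PF.nil))))) (PF.cons (PF.cons (PF.cons (PF.leaf (nat_lit 8139505) (nat_lit 3627909) (nat_lit 35958773) (nat_lit 12071819) [(nat_lit 0), (nat_lit 0), (nat_lit 3627909), (nat_lit 8194490)]) (PF.cons (PF.leaf (nat_lit
 8446056) (nat_lit 554698) (nat_lit 35542208) (nat_lit 11991947) [(nat_lit 554698), (nat_lit 0), (nat_lit 3622307), (nat_lit 8153036)]) (PF.cons (PF.leaf (nat_lit 8758941) (nat_lit 560724) (nat_lit 35121361) (nat_lit 11909745) [(nat_lit 560724), (nat_lit 0), (nat_lit 3615496), (nat_lit 8109767)]) (PF.cons PF.nil PF.nil)))) (PF.cons (PF.cons (PF.leaf (nat_lit 8830023) (nat_lit 1687545) (nat_lit 34721785) (nat_lit 11827072) [(nat_lit 0), (nat_lit 1687545), (nat_lit 3602950), (nat_lit 8063559)]) (PF.cons PF.nil PF.nil)) (PF.cons PF.nil PF.nil))) (PF.cons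 (PF.cons (PF.cons (PF.leaf (nat_lit 9248131) (nat_lit 3555203) (nat_lit 33435274) (nat_lit 11548946) [(nat_lit 0), (nat_lit 0), (nat_lit 3555203), (nat_lit 7903778)]) (PF.cons PF.nil PF.nil)) (PF.cons PF.nil PF.nil)) (PF.cons PF.nil PF.nil)))))) (PF.cons (PF.cons (PF.cons (PF.cons (PF.leaf (nat_lit 6504412) (nat_lit 8324062) (nat_lit 38061913) (nat_lit 12398773) [(nat_lit 0), (nat_lit 0), (nat_lit 0), (nat_lit 8324062)]) (PF.cons (PF.leaf (nat_lit 6780414) (nat_lit 503971) (nat_lit 37679747) (nat_lit 12334621) [(nat_lit 503971), (nat_lit 0), (nat_lit 0), (nat_lit 8295236)]) (PF.cons (PF.leaf (nat_lit 7069980) (nat_lit 516081) (nat_lit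
 37282530) (nat_lit 12266477) [(nat_lit 516081), (nat_lit 0), (nat_lit 0), (nat_lit 8263821)]) (PF.cons (PF.leaf (nat_lit 7369951) (nat_lit 526470) (nat_lit 36874400) (nat_lit 12194924) [(nat_lit 526470), (nat_lit 0), (nat_lit 0), (nat_lit 8230037)]) (PF.cons (PF.leaf (nat_lit 7678188) (nat_lit 535450) (nat_lit 36458450) (nat_lit 12120418) [(nat_lit 535450), (nat_lit 0), (nat_lit 0), (nat_lit 8194070)]) (PF.cons (PF.leaf (nat_lit 7993043) (nat_lit 543245) (nat_lit 36037084) (nat_lit 12043329) [(nat_lit 543245), (nat_lit 0), (nat_lit 0), (nat_lit 8156085)]) (PF.cons PF.nil PF.nil))))))) (PF.cons (PF.cons (PF.leaf (nat_lit 7169278) (nat_lit 1632092) (nat_lit 36844959) (nat_lit 12186004) [(nat_lit 0), (nat_lit 1632092), (nat_lit 0), (nat_lit 8222878)]) (PF.cons (PF.leaf (nat_lit 7460946) (nat_lit 525481) (nat_lit 36449152) (nat_lit 12115103) [(nat_lit 525481), (nat_lit 1641653), (nat_lit 0), (nat_lit 8188710)]) (PF.cons (PF.leaf (nat_lit 7762242) (nat_lit 534461) (nat_lit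 36044261) (nat_lit 12041094) [(nat_lit 534461), (nat_lit 1649869), (nat_lit 0), (nat_lit 8152331)]) (PF.cons (PF.leaf (nat_lit 8070889) (nat_lit 542209) (nat_lit 35633088) (nat_lit 11964420) [(nat_lit 542209),
 (nat_lit 1656801), (nat_lit 0), (nat_lit 8113937)]) (PF.cons (PF.leaf (nat_lit 8385341) (nat_lit 548912) (nat_lit 35217798) (nat_lit 11885441) [(nat_lit 548912), (nat_lit 1662521), (nat_lit 0), (nat_lit 8073700)]) PF.nil))))) (PF.cons (PF.cons (PF.leaf (nat_lit 7848070) (nat_lit 1648793) (nat_lit 35631554) (nat_lit 11960660) [(nat_lit 0), (nat_lit 1648793), (nat_lit 0), (nat_lit 8109505)]) (PF.cons (PF.leaf (nat_lit 8149602) (nat_lit 540825) (nat_lit 35231472) (nat_lit 11884664) [(nat_lit 540825), (nat_lit 1655044), (nat_lit 0), (nat_lit 8070880)]) (PF.cons (PF.leaf (nat_lit 8457959) (nat_lit 547512) (nat_lit 34826382) (nat_lit 11806270) [(nat_lit 547512), (nat_lit 1660162), (nat_lit 0), (nat_lit 8030404)]) (PF.cons PF.nil PF.nil)))) (PF.cons (PF.cons (PF.leaf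 (nat_lit 8531818) (nat_lit 1657428) (nat_lit 34437468) (nat_lit 11726401) [(nat_lit 0), (nat_lit 1657428), (nat_lit 0), (nat_lit 7986329)]) (PF.cons (PF.leaf (nat_lit 8839030) (nat_lit 551569) (nat_lit 34039456) (nat_lit 11646688) [(nat_lit 551569), (nat_lit 1660973), (nat_lit 0), (nat_lit 7944089)]) PF.nil)) (PF.cons PF.nil PF.nil))))) (PF.cons (PF.cons (PF.cons (PF.leaf (nat_lit 7617714) (nat_lit 3553477) (nat_lit
 35477462) (nat_lit 11918801) [(nat_lit 0), (nat_lit 0), (nat_lit 3553477), (nat_lit 8079536)]) (PF.cons (PF.leaf (nat_lit 7906225) (nat_lit 527367) (nat_lit 35097954) (nat_lit 11846607) [(nat_lit 527367), (nat_lit 0), (nat_lit 3550885), (nat_lit 8042998)]) (PF.cons (PF.leaf (nat_lit 8203683) (nat_lit 535470) (nat_lit 34710443) (nat_lit 11771563) [(nat_lit 535470), (nat_lit 0), (nat_lit 3547017), (nat_lit 8004422)]) (PF.cons (PF.leaf (nat_lit 8507855) (nat_lit 542394) (nat_lit 34317550) (nat_lit 11694121) [(nat_lit 542394), (nat_lit 0), (nat_lit 3541906),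 (nat_lit 7964025)]) (PF.cons PF.nil PF.nil))))) (PF.cons (PF.cons (PF.leaf (nat_lit 8283288) (nat_lit 1641210) (nat_lit 34319509) (nat_lit 11691278) [(nat_lit 0), (nat_lit 1641210), (nat_lit 3536283), (nat_lit 7960265)]) (PF.cons (PF.leaf (nat_lit 8580438) (nat_lit 540554) (nat_lit 33937449) (nat_lit 11614746) [(nat_lit 540554), (nat_lit 1645781), (nat_lit 3530529), (nat_lit 7919875)]) (PF.cons (PF.leaf (nat_lit 8883879) (nat_lit 546519) (nat_lit 33551113) (nat_lit 11536065) [(nat_lit 546519), (nat_lit 1649321), (nat_lit 3523635), (nat_lit 7877819)]) (PF.cons PF.nil PF.nil)))) (PF.cons (PF.cons (PF.leaf (nat_lit 8951887) (nat_lit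
 1645615) (nat_lit 33183393) (nat_lit 11456956) [(nat_lit 0), (nat_lit 1645615), (nat_lit 3511178), (nat_lit 7833027)]) (PF.cons PF.nil PF.nil)) PF.nil))) (PF.cons (PF.cons (PF.cons (PF.leaf (nat_lit 8701741) (nat_lit 3493924) (nat_lit 33078983) (nat_lit 11424510) [(nat_lit 0), (nat_lit 0), (nat_lit 3493924), (nat_lit 7808734)]) (PF.cons (PF.leaf (nat_lit 8994262) (nat_lit 539101) (nat_lit 32714619) (nat_lit 11348028) [(nat_lit 539101), (nat_lit 0), (nat_lit 3486391), (nat_lit 7767140)]) (PF.cons PF.nil PF.nil))) (PF.cons (PF.cons (PF.leaf (nat_lit 9355226) (nat_lit 1631382) (nat_lit 31999042) (nat_lit 11191702) [(nat_lit 0), (nat_lit 1631382), (nat_lit 3464354), (nat_lit 7678988)]) PF.nil) PF.nil)) (PF.cons PF.nil (PF.cons PF.nil PF.nil))))) (PF.cons (PF.cons (PF.cons (PF.cons (PF.leaf (nat_lit 8189702) (nat_lit 7708824) (nat_lit 32689479) (nat_lit 11292860) [(nat_lit 0), (nat_lit 0), (nat_lit 0), (nat_lit 7708824)]) (PF.cons (PF.leaf (nat_lit 8466160) (nat_lit 513955)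 (nat_lit 32355902) (nat_lit 11223424) [(nat_lit 513955), (nat_lit 0), (nat_lit 0), (nat_lit 7671843)]) (PF.cons (PF.leaf (nat_lit 8750914) (nat_lit 521284) (nat_lit 32015428) (nat_lit 11151520) [(nat_lit 521284),
 (nat_lit 0), (nat_lit 0), (nat_lit 7633098)]) (PF.cons (PF.leaf (nat_lit 9041807) (nat_lit 527485) (nat_lit 31670330) (nat_lit 11077587) [(nat_lit 527485), (nat_lit 0), (nat_lit 0), (nat_lit 7592812)]) (PF.cons PF.nil PF.nil))))) (PF.cons (PF.cons (PF.leaf (nat_lit 8822113) (nat_lit 1589931) (nat_lit 31674046) (nat_lit 11075561) [(nat_lit 0), (nat_lit 1589931), (nat_lit 0), (nat_lit 7589757)]) (PF.cons (PF.leaf (nat_lit 9106305) (nat_lit 525331) (nat_lit 31338428) (nat_lit 11002722) [(nat_lit 525331), (nat_lit 1593157), (nat_lit 0), (nat_lit 7549724)]) (PF.cons PF.nil (PF.cons PF.nil PF.nil)))) (PF.cons (PF.cons (PF.leaf (nat_lit 9456718) (nat_lit 1591089) (nat_lit 30677867) (nat_lit 10853832) [(nat_lit 0), (nat_lit 1591089), (nat_lit 0), (nat_lit 7464977)])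 (PF.cons PF.nil PF.nil)) PF.nil))) (PF.cons (PF.cons (PF.cons (PF.leaf (nat_lit 9211551) (nat_lit 3361424) (nat_lit 30591824) (nat_lit 10825399) [(nat_lit 0), (nat_lit 0), (nat_lit 3361424), (nat_lit 7443387)]) (PF.cons (PF.leaf (nat_lit 9491336) (nat_lit 523040) (nat_lit 30271408) (nat_lit 10753181) [(nat_lit 523040), (nat_lit 0), (nat_lit 3352805), (nat_lit 7402792)]) PF.nil)) (PF.cons PF.nil PF.nil)) (PF.cons PF.nil
 PF.nil))) (PF.cons (PF.cons (PF.cons (PF.cons (PF.leaf (nat_lit 9678853) (nat_lit 7101400) (nat_lit 28428817) (nat_lit 10274394) [(nat_lit 0), (nat_lit 0), (nat_lit 0), (nat_lit 7101400)]) (PF.cons PF.nil PF.nil)) (PF.cons PF.nil PF.nil)) (PF.cons PF.nil PF.nil)) (PF.cons PF.nil (PF.cons PF.nil (PF.cons PF.nil PF.nil))))))))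

def p12_15_2_0 : pfC (piC [(nat_lit 36888796), (nat_lit 24534081), (nat_lit 18263511), (nat_lit 12310016)] (nat_lit 7444406)) p12_15_2 (nat_lit 4) (nat_lit 0) (nat_lit 1) = true := by decide +kernel
def p12_15_2_1 : pfC (piC [(nat_lit 36888796), (nat_lit 24534081), (nat_lit 18263511), (nat_lit 12310016)] (nat_lit 7444406)) p12_15_2 (nat_lit 4) (nat_lit 1) (nat_lit 2) = true := by decide +kernel
def p12_15_2_2 : pfC (piC [(nat_lit 36888796), (nat_lit 24534081), (nat_lit 18263511), (nat_lit 12310016)] (nat_lit 7444406)) p12_15_2 (nat_lit 4) (nat_lit 2) (nat_lit 3) = true := by decide +kernel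
def p12_15_2_3 : pfC (piC [(nat_lit 36888796), (nat_lit 24534081), (nat_lit 18263511), (nat_lit 12310016)] (nat_lit 7444406)) p12_15_2 (nat_lit 4) (nat_lit 3) (nat_lit 4) = true := by decide +kernel
def p12_15_2_4 : pfC (piC [(nat_lit 36888796), (nat_lit 24534081), (nat_lit 18263511), (nat_lit 12310016)] (nat_lit 7444406)) p12_15_2 (nat_lit 4) (nat_lit 4) (nat_lit 5) = true := by decide +kernel
def p12_15_2_5 : pfC (piC [(nat_lit 36888796), (nat_lit 24534081), (nat_lit 18263511), (nat_lit 12310016)] (nat_lit 7444406)) p12_15_2 (nat_lit 4) (nat_lit 5) (nat_lit 6) = true := by decide +kernel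
def p12_15_2_6 : pfC (piC [(nat_lit 36888796), (nat_lit 24534081), (nat_lit 18263511), (nat_lit 12310016)] (nat_lit 7444406)) p12_15_2 (nat_lit 4) (nat_lit 6) (nat_lit 7) = true := by decide +kernel
def p12_15_2_7 : pfC (piC [(nat_lit 36888796), (nat_lit 24534081), (nat_lit 18263511), (nat_lit 12310016)] (nat_lit 7444406)) p12_15_2 (nat_lit 4) (nat_lit 7) (nat_lit 8) = true := by decide +kernel
def p12_15_2_8 : pfC (piC [(nat_lit 36888796), (nat_lit 24534081), (nat_lit 18263511), (nat_lit 12310016)] (nat_lit 7444406)) p12_15_2 (nat_lit 4) (nat_lit 8) (nat_lit 9) = true := by decide +kernel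
def p12_15_2_9 : pfC (piC [(nat_lit 36888796), (nat_lit 24534081), (nat_lit 18263511), (nat_lit 12310016)] (nat_lit 7444406)) p12_15_2 (nat_lit 4) (nat_lit 9) (nat_lit 10) = true := by decide +kernel
def p12_15_2_10 : pfC (piC [(nat_lit 36888796), (nat_lit 24534081), (nat_lit 18263511), (nat_lit 12310016)] (nat_lit 7444406)) p12_15_2 (nat_lit 4) (nat_lit 10) (nat_lit 11) = true := by decide +kernel
def p12_15_2_11 : pfC (piC [(nat_lit 36888796), (nat_lit 24534081), (nat_lit 18263511), (nat_lit 12310016)] (nat_lit 7444406)) p12_15_2 (nat_lit 4) (nat_lit 11) (nat_lit 12) = true := by decide +kernel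
def p12_15_2_12 : pfC (piC [(nat_lit 36888796), (nat_lit 24534081), (nat_lit 18263511), (nat_lit 12310016)] (nat_lit 7444406)) p12_15_2 (nat_lit 4) (nat_lit 12) (nat_lit 13) = true := by decide +kernel
def p12_15_2_13 : pfC (piC [(nat_lit 36888796), (nat_lit 24534081), (nat_lit 18263511), (nat_lit 12310016)] (nat_lit 7444406)) p12_15_2 (nat_lit 4) (nat_lit 13) (nat_lit 14) = true := by decide +kernel
def p12_15_2_14 : pfC (piC [(nat_lit 36888796), (nat_lit 24534081), (nat_lit 18263511), (nat_lit 12310016)] (nat_lit 7444406)) p12_15_2 (nat_lit 4) (nat_lit 14) (nat_lit 15) = true := by decide +kernel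
def p12_15_2_15 : pfC (piC [(nat_lit 36888796), (nat_lit 24534081), (nat_lit 18263511), (nat_lit 12310016)] (nat_lit 7444406)) p12_15_2 (nat_lit 4) (nat_lit 15) (nat_lit 16) = true := by decide +kernel
def p12_15_2_16 : pfC (piC [(nat_lit 36888796), (nat_lit 24534081), (nat_lit 18263511), (nat_lit 12310016)] (nat_lit 7444406)) p12_15_2 (nat_lit 4) (nat_lit 16) (nat_lit 17) = true := by decide +kernel
def p12_15_2_17 : pfC (piC [(nat_lit 36888796), (nat_lit 24534081), (nat_lit 18263511), (nat_lit 12310016)] (nat_lit 7444406)) p12_15_2 (nat_lit 4) (nat_lit 17) (nat_lit 18) = true := by decide +kernel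
def p12_15_2_18 : pfC (piC [(nat_lit 36888796), (nat_lit 24534081), (nat_lit 18263511), (nat_lit 12310016)] (nat_lit 7444406)) p12_15_2 (nat_lit 4) (nat_lit 18) (nat_lit 19) = true := by decide +kernel
def p12_15_2_19 : pfC (piC [(nat_lit 36888796), (nat_lit 24534081), (nat_lit 18263511), (nat_lit 12310016)] (nat_lit 7444406)) p12_15_2 (nat_lit 4) (nat_lit 19) (nat_lit 20) = true := by decide +kernel
def p12_15_2_20 : pfC (piC [(nat_lit 36888796), (nat_lit 24534081), (nat_lit 18263511), (nat_lit 12310016)] (nat_lit 7444406)) p12_15_2 (nat_lit 4) (nat_lit 20) (nat_lit 21) = true := by decide +kernel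
def p12_15_2_21 : pfC (piC [(nat_lit 36888796), (nat_lit 24534081), (nat_lit 18263511), (nat_lit 12310016)] (nat_lit 7444406)) p12_15_2 (nat_lit 4) (nat_lit 21) (nat_lit 22) = true := by decide +kernel
def p12_15_2_22 : pfC (piC [(nat_lit 36888796), (nat_lit 24534081), (nat_lit 18263511), (nat_lit 12310016)] (nat_lit 7444406)) p12_15_2 (nat_lit 4) (nat_lit 22) (nat_lit 23) = true := by decide +kernel
def p12_15_2_23 : pfC (piC [(nat_lit 36888796), (nat_lit 24534081), (nat_lit 18263511), (nat_lit 12310016)] (nat_lit 7444406)) p12_15_2 (nat_lit 4) (nat_lit 23) (nat_lit 24) = true := by decide +kernel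
def p12_15_2_24 : pfC (piC [(nat_lit 36888796), (nat_lit 24534081), (nat_lit 18263511), (nat_lit 12310016)] (nat_lit 7444406)) p12_15_2 (nat_lit 4) (nat_lit 24) (nat_lit 25) = true := by decide +kernel
def p12_15_2_25 : pfC (piC [(nat_lit 36888796), (nat_lit 24534081), (nat_lit 18263511), (nat_lit 12310016)] (nat_lit 7444406)) p12_15_2 (nat_lit 4) (nat_lit 25) (nat_lit 26) = true := by decide +kernel
def p12_15_2_26 : pfC (piC [(nat_lit 36888796), (nat_lit 24534081), (nat_lit 18263511), (nat_lit 12310016)] (nat_lit 7444406)) p12_15_2 (nat_lit 4) (nat_lit 26) (nat_lit 27) = true := by decide +kernel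
def p12_15_2_27 : pfC (piC [(nat_lit 36888796), (nat_lit 24534081), (nat_lit 18263511), (nat_lit 12310016)] (nat_lit 7444406)) p12_15_2 (nat_lit 4) (nat_lit 27) (nat_lit 28) = true := by decide +kernel
def p12_15_2_28 : pfC (piC [(nat_lit 36888796), (nat_lit 24534081), (nat_lit 18263511), (nat_lit 12310016)] (nat_lit 7444406)) p12_15_2 (nat_lit 4) (nat_lit 28) (nat_lit 29) = true := by decide +kernel
def p12_15_2_29 : pfC (piC [(nat_lit 36888796), (nat_lit 24534081), (nat_lit 18263511), (nat_lit 12310016)] (nat_lit 7444406)) p12_15_2 (nat_lit 4) (nat_lit 29) (nat_lit 30) = true := by decide +kernel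
def p12_15_2_30 : pfC (piC [(nat_lit 36888796), (nat_lit 24534081), (nat_lit 18263511), (nat_lit 12310016)] (nat_lit 7444406)) p12_15_2 (nat_lit 4) (nat_lit 30) (nat_lit 31) = true := by decide +kernel
def p12_15_2_31 : pfC (piC [(nat_lit 36888796), (nat_lit 24534081), (nat_lit 18263511), (nat_lit 12310016)] (nat_lit 7444406)) p12_15_2 (nat_lit 4) (nat_lit 31) (nat_lit 32) = true := by decide +kernel
def p12_15_2_32 : pfC (piC [(nat_lit 36888796), (nat_lit 24534081), (nat_lit 18263511), (nat_lit 12310016)] (nat_lit 7444406)) p12_15_2 (nat_lit 4) (nat_lit 32) (nat_lit 33) = true := by decide +kernel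
def p12_15_2_33 : pfC (piC [(nat_lit 36888796), (nat_lit 24534081), (nat_lit 18263511), (nat_lit 12310016)] (nat_lit 7444406)) p12_15_2 (nat_lit 4) (nat_lit 33) (nat_lit 34) = true := by decide +kernel
def p12_15_2_34 : pfC (piC [(nat_lit 36888796), (nat_lit 24534081), (nat_lit 18263511), (nat_lit 12310016)] (nat_lit 7444406)) p12_15_2 (nat_lit 4) (nat_lit 34) (nat_lit 35) = true := by decide +kernel
def p12_15_2_35 : pfC (piC [(nat_lit 36888796), (nat_lit 24534081), (nat_lit 18263511), (nat_lit 12310016)] (nat_lit 7444406)) p12_15_2 (nat_lit 4) (nat_lit 35) (nat_lit 36) = true := by decide +kernel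
def p12_15_2_36 : pfC (piC [(nat_lit 36888796), (nat_lit 24534081), (nat_lit 18263511), (nat_lit 12310016)] (nat_lit 7444406)) p12_15_2 (nat_lit 4) (nat_lit 36) (nat_lit 37) = true := by decide +kernel
def p12_15_2_37 : pfC (piC [(nat_lit 36888796), (nat_lit 24534081), (nat_lit 18263511), (nat_lit 12310016)] (nat_lit 7444406)) p12_15_2 (nat_lit 4) (nat_lit 37) (nat_lit 38) = true := by decide +kernel
def p12_15_2_38 : pfC (piC [(nat_lit 36888796), (nat_lit 24534081), (nat_lit 18263511), (nat_lit 12310016)] (nat_lit 7444406)) p12_15_2 (nat_lit 4) (nat_lit 38) (nat_lit 39) = true := by decide +kernel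
def p12_15_2_39 : pfC (piC [(nat_lit 36888796), (nat_lit 24534081), (nat_lit 18263511), (nat_lit 12310016)] (nat_lit 7444406)) p12_15_2 (nat_lit 4) (nat_lit 39) (nat_lit 40) = true := by decide +kernel
def p12_15_2_40 : pfC (piC [(nat_lit 36888796), (nat_lit 24534081), (nat_lit 18263511), (nat_lit 12310016)] (nat_lit 7444406)) p12_15_2 (nat_lit 4) (nat_lit 40) (nat_lit 41) = true := by decide +kernel
def p12_15_2_41 : pfC (piC [(nat_lit 36888796), (nat_lit 24534081), (nat_lit 18263511), (nat_lit 12310016)] (nat_lit 7444406)) p12_15_2 (nat_lit 4) (nat_lit 41) (nat_lit 42) = true := by decide +kernel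
def p12_15_2_42 : pfC (piC [(nat_lit 36888796), (nat_lit 24534081), (nat_lit 18263511), (nat_lit 12310016)] (nat_lit 7444406)) p12_15_2 (nat_lit 4) (nat_lit 42) (nat_lit 43) = true := by decide +kernel
def p12_15_2_43 : pfC (piC [(nat_lit 36888796), (nat_lit 24534081), (nat_lit 18263511), (nat_lit 12310016)] (nat_lit 7444406)) p12_15_2 (nat_lit 4) (nat_lit 43) (nat_lit 44) = true := by decide +kernel
def p12_15_2_44 : pfC (piC [(nat_lit 36888796), (nat_lit 24534081), (nat_lit 18263511), (nat_lit 12310016)] (nat_lit 7444406)) p12_15_2 (nat_lit 4) (nat_lit 44) (nat_lit 45) = true := by decide +kernel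
def p12_15_2_45 : pfC (piC [(nat_lit 36888796), (nat_lit 24534081), (nat_lit 18263511), (nat_lit 12310016)] (nat_lit 7444406)) p12_15_2 (nat_lit 4) (nat_lit 45) (nat_lit 46) = true := by decide +kernel
def p12_15_2_46 : pfC (piC [(nat_lit 36888796), (nat_lit 24534081), (nat_lit 18263511), (nat_lit 12310016)] (nat_lit 7444406)) p12_15_2 (nat_lit 4) (nat_lit 46) (nat_lit 47) = true := by decide +kernel
def p12_15_2_47 : pfC (piC [(nat_lit 36888796), (nat_lit 24534081), (nat_lit 18263511), (nat_lit 12310016)] (nat_lit 7444406)) p12_15_2 (nat_lit 4) (nat_lit 47) (nat_lit 48) = true := by decide +kernel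
def p12_15_2_48 : pfC (piC [(nat_lit 36888796), (nat_lit 24534081), (nat_lit 18263511), (nat_lit 12310016)] (nat_lit 7444406)) p12_15_2 (nat_lit 4) (nat_lit 48) (nat_lit 49) = true := by decide +kernel
def p12_15_2_49 : pfC (piC [(nat_lit 36888796), (nat_lit 24534081), (nat_lit 18263511), (nat_lit 12310016)] (nat_lit 7444406)) p12_15_2 (nat_lit 4) (nat_lit 49) (nat_lit 50) = true := by decide +kernel
def p12_15_2_50 : pfC (piC [(nat_lit 36888796), (nat_lit 24534081), (nat_lit 18263511), (nat_lit 12310016)] (nat_lit 7444406)) p12_15_2 (nat_lit 4) (nat_lit 50) (nat_lit 51) = true := by decide +kernel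
def p12_15_2_51 : pfC (piC [(nat_lit 36888796), (nat_lit 24534081), (nat_lit 18263511), (nat_lit 12310016)] (nat_lit 7444406)) p12_15_2 (nat_lit 4) (nat_lit 51) (nat_lit 52) = true := by decide +kernel
def p12_15_2_52 : pfC (piC [(nat_lit 36888796), (nat_lit 24534081), (nat_lit 18263511), (nat_lit 12310016)] (nat_lit 7444406)) p12_15_2 (nat_lit 4) (nat_lit 52) (nat_lit 53) = true := by decide +kernel
def p12_15_2_53 : pfC (piC [(nat_lit 36888796), (nat_lit 24534081), (nat_lit 18263511), (nat_lit 12310016)] (nat_lit 7444406)) p12_15_2 (nat_lit 4) (nat_lit 53) (nat_lit 54) = true := by decide +kernel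
def p12_15_2_54 : pfC (piC [(nat_lit 36888796), (nat_lit 24534081), (nat_lit 18263511), (nat_lit 12310016)] (nat_lit 7444406)) p12_15_2 (nat_lit 4) (nat_lit 54) (nat_lit 55) = true := by decide +kernel
def p12_15_2_55 : pfC (piC [(nat_lit 36888796), (nat_lit 24534081), (nat_lit 18263511), (nat_lit 12310016)] (nat_lit 7444406)) p12_15_2 (nat_lit 4) (nat_lit 55) (nat_lit 56) = true := by decide +kernel
def p12_15_2_56 : pfC (piC [(nat_lit 36888796), (nat_lit 24534081), (nat_lit 18263511), (nat_lit 12310016)] (nat_lit 7444406)) p12_15_2 (nat_lit 4) (nat_lit 56) (nat_lit 57) = true := by decide +kernel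
def p12_15_2_57 : pfC (piC [(nat_lit 36888796), (nat_lit 24534081), (nat_lit 18263511), (nat_lit 12310016)] (nat_lit 7444406)) p12_15_2 (nat_lit 4) (nat_lit 57) (nat_lit 58) = true := by decide +kernel
def p12_15_2_58 : pfC (piC [(nat_lit 36888796), (nat_lit 24534081), (nat_lit 18263511), (nat_lit 12310016)] (nat_lit 7444406)) p12_15_2 (nat_lit 4) (nat_lit 58) (nat_lit 59) = true := by decide +kernel
def p12_15_2_59 : pfC (piC [(nat_lit 36888796), (nat_lit 24534081), (nat_lit 18263511), (nat_lit 12310016)] (nat_lit 7444406)) p12_15_2 (nat_lit 4) (nat_lit 59) (nat_lit 60) = true := by decide +kernel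
def p12_15_2_60 : pfC (piC [(nat_lit 36888796), (nat_lit 24534081), (nat_lit 18263511), (nat_lit 12310016)] (nat_lit 7444406)) p12_15_2 (nat_lit 4) (nat_lit 60) (nat_lit 61) = true := by decide +kernel
def p12_15_2_61 : pfC (piC [(nat_lit 36888796), (nat_lit 24534081), (nat_lit 18263511), (nat_lit 12310016)] (nat_lit 7444406)) p12_15_2 (nat_lit 4) (nat_lit 61) (nat_lit 62) = true := by decide +kernel
def p12_15_2_62 : pfC (piC [(nat_lit 36888796), (nat_lit 24534081), (nat_lit 18263511), (nat_lit 12310016)] (nat_lit 7444406)) p12_15_2 (nat_lit 4) (nat_lit 62) (nat_lit 63) = true := by decide +kernel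
def p12_15_2_63 : pfC (piC [(nat_lit 36888796), (nat_lit 24534081), (nat_lit 18263511), (nat_lit 12310016)] (nat_lit 7444406)) p12_15_2 (nat_lit 4) (nat_lit 63) (nat_lit 64) = true := by decide +kernel
def p12_15_2_64 : pfC (piC [(nat_lit 36888796), (nat_lit 24534081), (nat_lit 18263511), (nat_lit 12310016)] (nat_lit 7444406)) p12_15_2 (nat_lit 4) (nat_lit 64) (nat_lit 65) = true := by decide +kernel
def p12_15_2_65 : pfC (piC [(nat_lit 36888796), (nat_lit 24534081), (nat_lit 18263511), (nat_lit 12310016)] (nat_lit 7444406)) p12_15_2 (nat_lit 4) (nat_lit 65) (nat_lit 66) = true := by decide +kernel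
def p12_15_2_66 : pfC (piC [(nat_lit 36888796), (nat_lit 24534081), (nat_lit 18263511), (nat_lit 12310016)] (nat_lit 7444406)) p12_15_2 (nat_lit 4) (nat_lit 66) (nat_lit 67) = true := by decide +kernel
def p12_15_2_67 : pfC (piC [(nat_lit 36888796), (nat_lit 24534081), (nat_lit 18263511), (nat_lit 12310016)] (nat_lit 7444406)) p12_15_2 (nat_lit 4) (nat_lit 67) (nat_lit 68) = true := by decide +kernel
def p12_15_2_68 : pfC (piC [(nat_lit 36888796), (nat_lit 24534081), (nat_lit 18263511), (nat_lit 12310016)] (nat_lit 7444406)) p12_15_2 (nat_lit 4) (nat_lit 68) (nat_lit 69) = true := by decide +kernel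
def p12_15_2_69 : pfC (piC [(nat_lit 36888796), (nat_lit 24534081), (nat_lit 18263511), (nat_lit 12310016)] (nat_lit 7444406)) p12_15_2 (nat_lit 4) (nat_lit 69) (nat_lit 70) = true := by decide +kernel
def p12_15_2_70 : pfC (piC [(nat_lit 36888796), (nat_lit 24534081), (nat_lit 18263511), (nat_lit 12310016)] (nat_lit 7444406)) p12_15_2 (nat_lit 4) (nat_lit 70) (nat_lit 71) = true := by decide +kernel
def p12_15_2_71 : pfC (piC [(nat_lit 36888796), (nat_lit 24534081), (nat_lit 18263511), (nat_lit 12310016)] (nat_lit 7444406)) p12_15_2 (nat_lit 4) (nat_lit 71) (nat_lit 72) = true := by decide +kernel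
def p12_15_2_72 : pfC (piC [(nat_lit 36888796), (nat_lit 24534081), (nat_lit 18263511), (nat_lit 12310016)] (nat_lit 7444406)) p12_15_2 (nat_lit 4) (nat_lit 72) (nat_lit 73) = true := by decide +kernel
def p12_15_2_73 : pfC (piC [(nat_lit 36888796), (nat_lit 24534081), (nat_lit 18263511), (nat_lit 12310016)] (nat_lit 7444406)) p12_15_2 (nat_lit 4) (nat_lit 73) (nat_lit 74) = true := by decide +kernel
def p12_15_2_74 : pfC (piC [(nat_lit 36888796), (nat_lit 24534081), (nat_lit 18263511), (nat_lit 12310016)] (nat_lit 7444406)) p12_15_2 (nat_lit 4) (nat_lit 74) (nat_lit 75) = true := by decide +kernel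
def p12_15_2_75 : pfC (piC [(nat_lit 36888796), (nat_lit 24534081), (nat_lit 18263511), (nat_lit 12310016)] (nat_lit 7444406)) p12_15_2 (nat_lit 4) (nat_lit 75) (nat_lit 76) = true := by decide +kernel
def p12_15_2_76 : pfC (piC [(nat_lit 36888796), (nat_lit 24534081), (nat_lit 18263511), (nat_lit 12310016)] (nat_lit 7444406)) p12_15_2 (nat_lit 4) (nat_lit 76) (nat_lit 77) = true := by decide +kernel
def p12_15_2_77 : pfC (piC [(nat_lit 36888796), (nat_lit 24534081), (nat_lit 18263511), (nat_lit 12310016)] (nat_lit 7444406)) p12_15_2 (nat_lit 4) (nat_lit 77) (nat_lit 78) = true := by decide +kernel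
def p12_15_2_78 : pfC (piC [(nat_lit 36888796), (nat_lit 24534081), (nat_lit 18263511), (nat_lit 12310016)] (nat_lit 7444406)) p12_15_2 (nat_lit 4) (nat_lit 78) (nat_lit 79) = true := by decide +kernel
def p12_15_2_79 : pfC (piC [(nat_lit 36888796), (nat_lit 24534081), (nat_lit 18263511), (nat_lit 12310016)] (nat_lit 7444406)) p12_15_2 (nat_lit 4) (nat_lit 79) (nat_lit 80) = true := by decide +kernel
def p12_15_2_80 : pfC (piC [(nat_lit 36888796), (nat_lit 24534081), (nat_lit 18263511), (nat_lit 12310016)] (nat_lit 7444406)) p12_15_2 (nat_lit 4) (nat_lit 80) (nat_lit 81) = true := by decide +kernel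
def p12_15_2_81 : pfC (piC [(nat_lit 36888796), (nat_lit 24534081), (nat_lit 18263511), (nat_lit 12310016)] (nat_lit 7444406)) p12_15_2 (nat_lit 4) (nat_lit 81) (nat_lit 82) = true := by decide +kernel
def p12_15_2_82 : pfC (piC [(nat_lit 36888796), (nat_lit 24534081), (nat_lit 18263511), (nat_lit 12310016)] (nat_lit 7444406)) p12_15_2 (nat_lit 4) (nat_lit 82) (nat_lit 83) = true := by decide +kernel
def p12_15_2_83 : pfC (piC [(nat_lit 36888796), (nat_lit 24534081), (nat_lit 18263511), (nat_lit 12310016)] (nat_lit 7444406)) p12_15_2 (nat_lit 4) (nat_lit 83) (nat_lit 84) = true := by decide +kernel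
def p12_15_2_84 : pfC (piC [(nat_lit 36888796), (nat_lit 24534081), (nat_lit 18263511), (nat_lit 12310016)] (nat_lit 7444406)) p12_15_2 (nat_lit 4) (nat_lit 84) (nat_lit 85) = true := by decide +kernel
def p12_15_2_85 : pfC (piC [(nat_lit 36888796), (nat_lit 24534081), (nat_lit 18263511), (nat_lit 12310016)] (nat_lit 7444406)) p12_15_2 (nat_lit 4) (nat_lit 85) (nat_lit 86) = true := by decide +kernel
def p12_15_2_86 : pfC (piC [(nat_lit 36888796), (nat_lit 24534081), (nat_lit 18263511), (nat_lit 12310016)] (nat_lit 7444406)) p12_15_2 (nat_lit 4) (nat_lit 86) (nat_lit 87) = true := by decide +kernel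
def p12_15_2_87 : pfC (piC [(nat_lit 36888796), (nat_lit 24534081), (nat_lit 18263511), (nat_lit 12310016)] (nat_lit 7444406)) p12_15_2 (nat_lit 4) (nat_lit 87) (nat_lit 88) = true := by decide +kernel
def p12_15_2_88 : pfC (piC [(nat_lit 36888796), (nat_lit 24534081), (nat_lit 18263511), (nat_lit 12310016)] (nat_lit 7444406)) p12_15_2 (nat_lit 4) (nat_lit 88) (nat_lit 89) = true := by decide +kernel
def p12_15_2_89 : pfC (piC [(nat_lit 36888796), (nat_lit 24534081), (nat_lit 18263511), (nat_lit 12310016)] (nat_lit 7444406)) p12_15_2 (nat_lit 4) (nat_lit 89) (nat_lit 90) = true := by decide +kernel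
def p12_15_2_90 : pfC (piC [(nat_lit 36888796), (nat_lit 24534081), (nat_lit 18263511), (nat_lit 12310016)] (nat_lit 7444406)) p12_15_2 (nat_lit 4) (nat_lit 90) (nat_lit 91) = true := by decide +kernel
def p12_15_2_91 : pfC (piC [(nat_lit 36888796), (nat_lit 24534081), (nat_lit 18263511), (nat_lit 12310016)] (nat_lit 7444406)) p12_15_2 (nat_lit 4) (nat_lit 91) (nat_lit 92) = true := by decide +kernel
def p12_15_2_92 : pfC (piC [(nat_lit 36888796), (nat_lit 24534081), (nat_lit 18263511), (nat_lit 12310016)] (nat_lit 7444406)) p12_15_2 (nat_lit 4) (nat_lit 92) (nat_lit 93) = true := by decide +kernel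
def p12_15_2_93 : pfC (piC [(nat_lit 36888796), (nat_lit 24534081), (nat_lit 18263511), (nat_lit 12310016)] (nat_lit 7444406)) p12_15_2 (nat_lit 4) (nat_lit 93) (nat_lit 94) = true := by decide +kernel
def p12_15_2_94 : pfC (piC [(nat_lit 36888796), (nat_lit 24534081), (nat_lit 18263511), (nat_lit 12310016)] (nat_lit 7444406)) p12_15_2 (nat_lit 4) (nat_lit 94) (nat_lit 95) = true := by decide +kernel
def p12_15_2_95 : pfC (piC [(nat_lit 36888796), (nat_lit 24534081), (nat_lit 18263511), (nat_lit 12310016)] (nat_lit 7444406)) p12_15_2 (nat_lit 4) (nat_lit 95) (nat_lit 96) = true := by decide +kernel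
def p12_15_2_96 : pfC (piC [(nat_lit 36888796), (nat_lit 24534081), (nat_lit 18263511), (nat_lit 12310016)] (nat_lit 7444406)) p12_15_2 (nat_lit 4) (nat_lit 96) (nat_lit 97) = true := by decide +kernel
def p12_15_2_97 : pfC (piC [(nat_lit 36888796), (nat_lit 24534081), (nat_lit 18263511), (nat_lit 12310016)] (nat_lit 7444406)) p12_15_2 (nat_lit 4) (nat_lit 97) (nat_lit 98) = true := by decide +kernel
def p12_15_2_98 : pfC (piC [(nat_lit 36888796), (nat_lit 24534081), (nat_lit 18263511), (nat_lit 12310016)] (nat_lit 7444406)) p12_15_2 (nat_lit 4) (nat_lit 98) (nat_lit 99) = true := by decide +kernel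
def p12_15_2_99 : pfC (piC [(nat_lit 36888796), (nat_lit 24534081), (nat_lit 18263511), (nat_lit 12310016)] (nat_lit 7444406)) p12_15_2 (nat_lit 4) (nat_lit 99) (nat_lit 100) = true := by decide +kernel
def p12_15_2_100 : pfC (piC [(nat_lit 36888796), (nat_lit 24534081), (nat_lit 18263511), (nat_lit 12310016)] (nat_lit 7444406)) p12_15_2 (nat_lit 4) (nat_lit 100) (nat_lit 101) = true := by decide +kernel
def p12_15_2_101 : pfC (piC [(nat_lit 36888796), (nat_lit 24534081), (nat_lit 18263511), (nat_lit 12310016)] (nat_lit 7444406)) p12_15_2 (nat_lit 4) (nat_lit 101) (nat_lit 102) = true := by decide +kernel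
def p12_15_2_102 : pfC (piC [(nat_lit 36888796), (nat_lit 24534081), (nat_lit 18263511), (nat_lit 12310016)] (nat_lit 7444406)) p12_15_2 (nat_lit 4) (nat_lit 102) (nat_lit 103) = true := by decide +kernel
def p12_15_2_103 : pfC (piC [(nat_lit 36888796), (nat_lit 24534081), (nat_lit 18263511), (nat_lit 12310016)] (nat_lit 7444406)) p12_15_2 (nat_lit 4) (nat_lit 103) (nat_lit 104) = true := by decide +kernel
def p12_15_2_104 : pfC (piC [(nat_lit 36888796), (nat_lit 24534081), (nat_lit 18263511), (nat_lit 12310016)] (nat_lit 7444406)) p12_15_2 (nat_lit 4) (nat_lit 104) (nat_lit 105) = true := by decide +kernel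
def p12_15_2_105 : pfC (piC [(nat_lit 36888796), (nat_lit 24534081), (nat_lit 18263511), (nat_lit 12310016)] (nat_lit 7444406)) p12_15_2 (nat_lit 4) (nat_lit 105) (nat_lit 106) = true := by decide +kernel
def p12_15_2_106 : pfC (piC [(nat_lit 36888796), (nat_lit 24534081), (nat_lit 18263511), (nat_lit 12310016)] (nat_lit 7444406)) p12_15_2 (nat_lit 4) (nat_lit 106) (nat_lit 107) = true := by decide +kernel
def p12_15_2_107 : pfC (piC [(nat_lit 36888796), (nat_lit 24534081), (nat_lit 18263511), (nat_lit 12310016)] (nat_lit 7444406)) p12_15_2 (nat_lit 4) (nat_lit 107) (nat_lit 108) = true := by decide +kernel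
def p12_15_2_108 : pfC (piC [(nat_lit 36888796), (nat_lit 24534081), (nat_lit 18263511), (nat_lit 12310016)] (nat_lit 7444406)) p12_15_2 (nat_lit 4) (nat_lit 108) (nat_lit 109) = true := by decide +kernel
def p12_15_2_109 : pfC (piC [(nat_lit 36888796), (nat_lit 24534081), (nat_lit 18263511), (nat_lit 12310016)] (nat_lit 7444406)) p12_15_2 (nat_lit 4) (nat_lit 109) (nat_lit 110) = true := by decide +kernel
def p12_15_2_110 : pfC (piC [(nat_lit 36888796), (nat_lit 24534081), (nat_lit 18263511), (nat_lit 12310016)] (nat_lit 7444406)) p12_15_2 (nat_lit 4) (nat_lit 110) (nat_lit 111) = true := by decide +kernel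
def p12_15_2_111 : pfC (piC [(nat_lit 36888796), (nat_lit 24534081), (nat_lit 18263511), (nat_lit 12310016)] (nat_lit 7444406)) p12_15_2 (nat_lit 4) (nat_lit 111) (nat_lit 112) = true := by decide +kernel
def p12_15_2_112 : pfC (piC [(nat_lit 36888796), (nat_lit 24534081), (nat_lit 18263511), (nat_lit 12310016)] (nat_lit 7444406)) p12_15_2 (nat_lit 4) (nat_lit 112) (nat_lit 113) = true := by decide +kernel
def p12_15_2_113 : pfC (piC [(nat_lit 36888796), (nat_lit 24534081), (nat_lit 18263511), (nat_lit 12310016)] (nat_lit 7444406)) p12_15_2 (nat_lit 4) (nat_lit 113) (nat_lit 114) = true := by decide +kernel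
def p12_15_2_114 : pfC (piC [(nat_lit 36888796), (nat_lit 24534081), (nat_lit 18263511), (nat_lit 12310016)] (nat_lit 7444406)) p12_15_2 (nat_lit 4) (nat_lit 114) (nat_lit 115) = true := by decide +kernel
def p12_15_2_115 : pfC (piC [(nat_lit 36888796), (nat_lit 24534081), (nat_lit 18263511), (nat_lit 12310016)] (nat_lit 7444406)) p12_15_2 (nat_lit 4) (nat_lit 115) (nat_lit 116) = true := by decide +kernel
def p12_15_2_116 : pfC (piC [(nat_lit 36888796), (nat_lit 24534081), (nat_lit 18263511), (nat_lit 12310016)] (nat_lit 7444406)) p12_15_2 (nat_lit 4) (nat_lit 116) (nat_lit 117) = true := by decide +kernel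
def p12_15_2_117 : pfC (piC [(nat_lit 36888796), (nat_lit 24534081), (nat_lit 18263511), (nat_lit 12310016)] (nat_lit 7444406)) p12_15_2 (nat_lit 4) (nat_lit 117) (nat_lit 118) = true := by decide +kernel
def p12_15_2_118 : pfC (piC [(nat_lit 36888796), (nat_lit 24534081), (nat_lit 18263511), (nat_lit 12310016)] (nat_lit 7444406)) p12_15_2 (nat_lit 4) (nat_lit 118) (nat_lit 119) = true := by decide +kernel
def p12_15_2_119 : pfC (piC [(nat_lit 36888796), (nat_lit 24534081), (nat_lit 18263511), (nat_lit 12310016)] (nat_lit 7444406)) p12_15_2 (nat_lit 4) (nat_lit 119) (nat_lit 120) = true := by decide +kernel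
def p12_15_2_120 : pfC (piC [(nat_lit 36888796), (nat_lit 24534081), (nat_lit 18263511), (nat_lit 12310016)] (nat_lit 7444406)) p12_15_2 (nat_lit 4) (nat_lit 120) (nat_lit 121) = true := by decide +kernel
def p12_15_2_121 : pfC (piC [(nat_lit 36888796), (nat_lit 24534081), (nat_lit 18263511), (nat_lit 12310016)] (nat_lit 7444406)) p12_15_2 (nat_lit 4) (nat_lit 121) (nat_lit 122) = true := by decide +kernel
def p12_15_2_122 : pfC (piC [(nat_lit 36888796), (nat_lit 24534081), (nat_lit 18263511), (nat_lit 12310016)] (nat_lit 7444406)) p12_15_2 (nat_lit 4) (nat_lit 122) (nat_lit 123) = true := by decide +kernel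
def p12_15_2_123 : pfC (piC [(nat_lit 36888796), (nat_lit 24534081), (nat_lit 18263511), (nat_lit 12310016)] (nat_lit 7444406)) p12_15_2 (nat_lit 4) (nat_lit 123) (nat_lit 124) = true := by decide +kernel
def p12_15_2_124 : pfC (piC [(nat_lit 36888796), (nat_lit 24534081), (nat_lit 18263511), (nat_lit 12310016)] (nat_lit 7444406)) p12_15_2 (nat_lit 4) (nat_lit 124) (nat_lit 125) = true := by decide +kernel
def p12_15_2_125 : pfC (piC [(nat_lit 36888796), (nat_lit 24534081), (nat_lit 18263511), (nat_lit 12310016)] (nat_lit 7444406)) p12_15_2 (nat_lit 4) (nat_lit 125) (nat_lit 126) = true := by decide +kernel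
def p12_15_2_126 : pfC (piC [(nat_lit 36888796), (nat_lit 24534081), (nat_lit 18263511), (nat_lit 12310016)] (nat_lit 7444406)) p12_15_2 (nat_lit 4) (nat_lit 126) (nat_lit 127) = true := by decide +kernel
def p12_15_2_127 : pfC (piC [(nat_lit 36888796), (nat_lit 24534081), (nat_lit 18263511), (nat_lit 12310016)] (nat_lit 7444406)) p12_15_2 (nat_lit 4) (nat_lit 127) (nat_lit 128) = true := by decide +kernel
def p12_15_2_128 : pfC (piC [(nat_lit 36888796), (nat_lit 24534081), (nat_lit 18263511), (nat_lit 12310016)] (nat_lit 7444406)) p12_15_2 (nat_lit 4) (nat_lit 128) (nat_lit 129) = true := by decide +kernel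
def p12_15_2_129 : pfC (piC [(nat_lit 36888796), (nat_lit 24534081), (nat_lit 18263511), (nat_lit 12310016)] (nat_lit 7444406)) p12_15_2 (nat_lit 4) (nat_lit 129) (nat_lit 130) = true := by decide +kernel
def p12_15_2_130 : pfC (piC [(nat_lit 36888796), (nat_lit 24534081), (nat_lit 18263511), (nat_lit 12310016)] (nat_lit 7444406)) p12_15_2 (nat_lit 4) (nat_lit 130) (nat_lit 131) = true := by decide +kernel
def p12_15_2_131 : pfC (piC [(nat_lit 36888796), (nat_lit 24534081), (nat_lit 18263511), (nat_lit 12310016)] (nat_lit 7444406)) p12_15_2 (nat_lit 4) (nat_lit 131) (nat_lit 132) = true := by decide +kernel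
def p12_15_2_132 : pfC (piC [(nat_lit 36888796), (nat_lit 24534081), (nat_lit 18263511), (nat_lit 12310016)] (nat_lit 7444406)) p12_15_2 (nat_lit 4) (nat_lit 132) (nat_lit 133) = true := by decide +kernel
def p12_15_2_133 : pfC (piC [(nat_lit 36888796), (nat_lit 24534081), (nat_lit 18263511), (nat_lit 12310016)] (nat_lit 7444406)) p12_15_2 (nat_lit 4) (nat_lit 133) (nat_lit 134) = true := by decide +kernel
def p12_15_2_134 : pfC (piC [(nat_lit 36888796), (nat_lit 24534081), (nat_lit 18263511), (nat_lit 12310016)] (nat_lit 7444406)) p12_15_2 (nat_lit 4) (nat_lit 134) (nat_lit 135) = true := by decide +kernel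
def p12_15_2_135 : pfC (piC [(nat_lit 36888796), (nat_lit 24534081), (nat_lit 18263511), (nat_lit 12310016)] (nat_lit 7444406)) p12_15_2 (nat_lit 4) (nat_lit 135) (nat_lit 136) = true := by decide +kernel
def p12_15_2_136 : pfC (piC [(nat_lit 36888796), (nat_lit 24534081), (nat_lit 18263511), (nat_lit 12310016)] (nat_lit 7444406)) p12_15_2 (nat_lit 4) (nat_lit 136) (nat_lit 137) = true := by decide +kernel
def p12_15_2_137 : pfC (piC [(nat_lit 36888796), (nat_lit 24534081), (nat_lit 18263511), (nat_lit 12310016)] (nat_lit 7444406)) p12_15_2 (nat_lit 4) (nat_lit 137) (nat_lit 138) = true := by decide +kernel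
def p12_15_2_138 : pfC (piC [(nat_lit 36888796), (nat_lit 24534081), (nat_lit 18263511), (nat_lit 12310016)] (nat_lit 7444406)) p12_15_2 (nat_lit 4) (nat_lit 138) (nat_lit 139) = true := by decide +kernel
def p12_15_2_139 : pfC (piC [(nat_lit 36888796), (nat_lit 24534081), (nat_lit 18263511), (nat_lit 12310016)] (nat_lit 7444406)) p12_15_2 (nat_lit 4) (nat_lit 139) (nat_lit 140) = true := by decide +kernel
def p12_15_2_140 : pfC (piC [(nat_lit 36888796), (nat_lit 24534081), (nat_lit 18263511), (nat_lit 12310016)] (nat_lit 7444406)) p12_15_2 (nat_lit 4) (nat_lit 140) (nat_lit 141) = true := by decide +kernel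
def p12_15_2_141 : pfC (piC [(nat_lit 36888796), (nat_lit 24534081), (nat_lit 18263511), (nat_lit 12310016)] (nat_lit 7444406)) p12_15_2 (nat_lit 4) (nat_lit 141) (nat_lit 142) = true := by decide +kernel
def p12_15_2_142 : pfC (piC [(nat_lit 36888796), (nat_lit 24534081), (nat_lit 18263511), (nat_lit 12310016)] (nat_lit 7444406)) p12_15_2 (nat_lit 4) (nat_lit 142) (nat_lit 143) = true := by decide +kernel
def p12_15_2_143 : pfC (piC [(nat_lit 36888796), (nat_lit 24534081), (nat_lit 18263511), (nat_lit 12310016)] (nat_lit 7444406)) p12_15_2 (nat_lit 4) (nat_lit 143) (nat_lit 144) = true := by decide +kernel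
def p12_15_2_144 : pfC (piC [(nat_lit 36888796), (nat_lit 24534081), (nat_lit 18263511), (nat_lit 12310016)] (nat_lit 7444406)) p12_15_2 (nat_lit 4) (nat_lit 144) (nat_lit 145) = true := by decide +kernel
def p12_15_2_145 : pfC (piC [(nat_lit 36888796), (nat_lit 24534081), (nat_lit 18263511), (nat_lit 12310016)] (nat_lit 7444406)) p12_15_2 (nat_lit 4) (nat_lit 145) (nat_lit 146) = true := by decide +kernel
def p12_15_2_146 : pfC (piC [(nat_lit 36888796), (nat_lit 24534081), (nat_lit 18263511), (nat_lit 12310016)] (nat_lit 7444406)) p12_15_2 (nat_lit 4) (nat_lit 146) (nat_lit 147) = true := by decide +kernel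
def p12_15_2_147 : pfC (piC [(nat_lit 36888796), (nat_lit 24534081), (nat_lit 18263511), (nat_lit 12310016)] (nat_lit 7444406)) p12_15_2 (nat_lit 4) (nat_lit 147) (nat_lit 148) = true := by decide +kernel
def p12_15_2_148 : pfC (piC [(nat_lit 36888796), (nat_lit 24534081), (nat_lit 18263511), (nat_lit 12310016)] (nat_lit 7444406)) p12_15_2 (nat_lit 4) (nat_lit 148) (nat_lit 149) = true := by decide +kernel
def p12_15_2_149 : pfC (piC [(nat_lit 36888796), (nat_lit 24534081), (nat_lit 18263511), (nat_lit 12310016)] (nat_lit 7444406)) p12_15_2 (nat_lit 4) (nat_lit 149) (nat_lit 150) = true := by decide +kernel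
def p12_15_2_150 : pfC (piC [(nat_lit 36888796), (nat_lit 24534081), (nat_lit 18263511), (nat_lit 12310016)] (nat_lit 7444406)) p12_15_2 (nat_lit 4) (nat_lit 150) (nat_lit 151) = true := by decide +kernel
def p12_15_2_151 : pfC (piC [(nat_lit 36888796), (nat_lit 24534081), (nat_lit 18263511), (nat_lit 12310016)] (nat_lit 7444406)) p12_15_2 (nat_lit 4) (nat_lit 151) (nat_lit 152) = true := by decide +kernel
def p12_15_2_152 : pfC (piC [(nat_lit 36888796), (nat_lit 24534081), (nat_lit 18263511), (nat_lit 12310016)] (nat_lit 7444406)) p12_15_2 (nat_lit 4) (nat_lit 152) (nat_lit 153) = true := by decide +kernel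
def p12_15_2_153 : pfC (piC [(nat_lit 36888796), (nat_lit 24534081), (nat_lit 18263511), (nat_lit 12310016)] (nat_lit 7444406)) p12_15_2 (nat_lit 4) (nat_lit 153) (nat_lit 154) = true := by decide +kernel
def p12_15_2_154 : pfC (piC [(nat_lit 36888796), (nat_lit 24534081), (nat_lit 18263511), (nat_lit 12310016)] (nat_lit 7444406)) p12_15_2 (nat_lit 4) (nat_lit 154) (nat_lit 155) = true := by decide +kernel
def p12_15_2_155 : pfC (piC [(nat_lit 36888796), (nat_lit 24534081), (nat_lit 18263511), (nat_lit 12310016)] (nat_lit 7444406)) p12_15_2 (nat_lit 4) (nat_lit 155) (nat_lit 156) = true := by decide +kernel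
def p12_15_2_156 : pfC (piC [(nat_lit 36888796), (nat_lit 24534081), (nat_lit 18263511), (nat_lit 12310016)] (nat_lit 7444406)) p12_15_2 (nat_lit 4) (nat_lit 156) (nat_lit 157) = true := by decide +kernel
def p12_15_2_157 : pfC (piC [(nat_lit 36888796), (nat_lit 24534081), (nat_lit 18263511), (nat_lit 12310016)] (nat_lit 7444406)) p12_15_2 (nat_lit 4) (nat_lit 157) (nat_lit 158) = true := by decide +kernel
def p12_15_2_158 : pfC (piC [(nat_lit 36888796), (nat_lit 24534081), (nat_lit 18263511), (nat_lit 12310016)] (nat_lit 7444406)) p12_15_2 (nat_lit 4) (nat_lit 158) (nat_lit 159) = true := by decide +kernel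
def p12_15_2_159 : pfC (piC [(nat_lit 36888796), (nat_lit 24534081), (nat_lit 18263511), (nat_lit 12310016)] (nat_lit 7444406)) p12_15_2 (nat_lit 4) (nat_lit 159) (nat_lit 160) = true := by decide +kernel
def p12_15_2_160 : pfC (piC [(nat_lit 36888796), (nat_lit 24534081), (nat_lit 18263511), (nat_lit 12310016)] (nat_lit 7444406)) p12_15_2 (nat_lit 4) (nat_lit 160) (nat_lit 161) = true := by decide +kernel
def p12_15_2_161 : pfC (piC [(nat_lit 36888796), (nat_lit 24534081), (nat_lit 18263511), (nat_lit 12310016)] (nat_lit 7444406)) p12_15_2 (nat_lit 4) (nat_lit 161) (nat_lit 162) = true := by decide +kernel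
def p12_15_2_162 : pfC (piC [(nat_lit 36888796), (nat_lit 24534081), (nat_lit 18263511), (nat_lit 12310016)] (nat_lit 7444406)) p12_15_2 (nat_lit 4) (nat_lit 162) (nat_lit 163) = true := by decide +kernel
def p12_15_2_163 : pfC (piC [(nat_lit 36888796), (nat_lit 24534081), (nat_lit 18263511), (nat_lit 12310016)] (nat_lit 7444406)) p12_15_2 (nat_lit 4) (nat_lit 163) (nat_lit 164) = true := by decide +kernel
def p12_15_2_164 : pfC (piC [(nat_lit 36888796), (nat_lit 24534081), (nat_lit 18263511), (nat_lit 12310016)] (nat_lit 7444406)) p12_15_2 (nat_lit 4) (nat_lit 164) (nat_lit 165) = true := by decide +kernel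
def p12_15_2_165 : pfC (piC [(nat_lit 36888796), (nat_lit 24534081), (nat_lit 18263511), (nat_lit 12310016)] (nat_lit 7444406)) p12_15_2 (nat_lit 4) (nat_lit 165) (nat_lit 166) = true := by decide +kernel
def p12_15_2_166 : pfC (piC [(nat_lit 36888796), (nat_lit 24534081), (nat_lit 18263511), (nat_lit 12310016)] (nat_lit 7444406)) p12_15_2 (nat_lit 4) (nat_lit 166) (nat_lit 167) = true := by decide +kernel
def p12_15_2_167 : pfC (piC [(nat_lit 36888796), (nat_lit 24534081), (nat_lit 18263511), (nat_lit 12310016)] (nat_lit 7444406)) p12_15_2 (nat_lit 4) (nat_lit 167) (nat_lit 168) = true := by decide +kernel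
def p12_15_2_168 : pfC (piC [(nat_lit 36888796), (nat_lit 24534081), (nat_lit 18263511), (nat_lit 12310016)] (nat_lit 7444406)) p12_15_2 (nat_lit 4) (nat_lit 168) (nat_lit 169) = true := by decide +kernel
def p12_15_2_169 : pfC (piC [(nat_lit 36888796), (nat_lit 24534081), (nat_lit 18263511), (nat_lit 12310016)] (nat_lit 7444406)) p12_15_2 (nat_lit 4) (nat_lit 169) (nat_lit 170) = true := by decide +kernel
def p12_15_2_170 : pfC (piC [(nat_lit 36888796), (nat_lit 24534081), (nat_lit 18263511), (nat_lit 12310016)] (nat_lit 7444406)) p12_15_2 (nat_lit 4) (nat_lit 170) (nat_lit 171) = true := by decide +kernel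
def p12_15_2_171 : pfC (piC [(nat_lit 36888796), (nat_lit 24534081), (nat_lit 18263511), (nat_lit 12310016)] (nat_lit 7444406)) p12_15_2 (nat_lit 4) (nat_lit 171) (nat_lit 172) = true := by decide +kernel
def p12_15_2_172 : pfC (piC [(nat_lit 36888796), (nat_lit 24534081), (nat_lit 18263511), (nat_lit 12310016)] (nat_lit 7444406)) p12_15_2 (nat_lit 4) (nat_lit 172) (nat_lit 173) = true := by decide +kernel
def p12_15_2_173 : pfC (piC [(nat_lit 36888796), (nat_lit 24534081), (nat_lit 18263511), (nat_lit 12310016)] (nat_lit 7444406)) p12_15_2 (nat_lit 4) (nat_lit 173) (nat_lit 174) = true := by decide +kernel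
def p12_15_2_174 : pfC (piC [(nat_lit 36888796), (nat_lit 24534081), (nat_lit 18263511), (nat_lit 12310016)] (nat_lit 7444406)) p12_15_2 (nat_lit 4) (nat_lit 174) (nat_lit 175) = true := by decide +kernel
def p12_15_2_175 : pfC (piC [(nat_lit 36888796), (nat_lit 24534081), (nat_lit 18263511), (nat_lit 12310016)] (nat_lit 7444406)) p12_15_2 (nat_lit 4) (nat_lit 175) (nat_lit 176) = true := by decide +kernel
def p12_15_2_176 : pfC (piC [(nat_lit 36888796), (nat_lit 24534081), (nat_lit 18263511), (nat_lit 12310016)] (nat_lit 7444406)) p12_15_2 (nat_lit 4) (nat_lit 176) (nat_lit 177) = true := by decide +kernel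
def p12_15_2_177 : pfC (piC [(nat_lit 36888796), (nat_lit 24534081), (nat_lit 18263511), (nat_lit 12310016)] (nat_lit 7444406)) p12_15_2 (nat_lit 4) (nat_lit 177) (nat_lit 178) = true := by decide +kernel
def p12_15_2_178 : pfC (piC [(nat_lit 36888796), (nat_lit 24534081), (nat_lit 18263511), (nat_lit 12310016)] (nat_lit 7444406)) p12_15_2 (nat_lit 4) (nat_lit 178) (nat_lit 179) = true := by decide +kernel
def p12_15_2_179 : pfC (piC [(nat_lit 36888796), (nat_lit 24534081), (nat_lit 18263511), (nat_lit 12310016)] (nat_lit 7444406)) p12_15_2 (nat_lit 4) (nat_lit 179) (nat_lit 180) = true := by decide +kernel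
def p12_15_2_180 : pfC (piC [(nat_lit 36888796), (nat_lit 24534081), (nat_lit 18263511), (nat_lit 12310016)] (nat_lit 7444406)) p12_15_2 (nat_lit 4) (nat_lit 180) (nat_lit 181) = true := by decide +kernel
def p12_15_2_181 : pfC (piC [(nat_lit 36888796), (nat_lit 24534081), (nat_lit 18263511), (nat_lit 12310016)] (nat_lit 7444406)) p12_15_2 (nat_lit 4) (nat_lit 181) (nat_lit 182) = true := by decide +kernel
def p12_15_2_182 : pfC (piC [(nat_lit 36888796), (nat_lit 24534081), (nat_lit 18263511), (nat_lit 12310016)] (nat_lit 7444406)) p12_15_2 (nat_lit 4) (nat_lit 182) (nat_lit 183) = true := by decide +kernel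
def p12_15_2_183 : pfC (piC [(nat_lit 36888796), (nat_lit 24534081), (nat_lit 18263511), (nat_lit 12310016)] (nat_lit 7444406)) p12_15_2 (nat_lit 4) (nat_lit 183) (nat_lit 184) = true := by decide +kernel
def p12_15_2_184 : pfC (piC [(nat_lit 36888796), (nat_lit 24534081), (nat_lit 18263511), (nat_lit 12310016)] (nat_lit 7444406)) p12_15_2 (nat_lit 4) (nat_lit 184) (nat_lit 185) = true := by decide +kernel
def p12_15_2_185 : pfC (piC [(nat_lit 36888796), (nat_lit 24534081), (nat_lit 18263511), (nat_lit 12310016)] (nat_lit 7444406)) p12_15_2 (nat_lit 4) (nat_lit 185) (nat_lit 186) = true := by decide +kernel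
def p12_15_2_186 : pfC (piC [(nat_lit 36888796), (nat_lit 24534081), (nat_lit 18263511), (nat_lit 12310016)] (nat_lit 7444406)) p12_15_2 (nat_lit 4) (nat_lit 186) (nat_lit 187) = true := by decide +kernel
def p12_15_2_187 : pfC (piC [(nat_lit 36888796), (nat_lit 24534081), (nat_lit 18263511), (nat_lit 12310016)] (nat_lit 7444406)) p12_15_2 (nat_lit 4) (nat_lit 187) (nat_lit 188) = true := by decide +kernel
def p12_15_2_188 : pfC (piC [(nat_lit 36888796), (nat_lit 24534081), (nat_lit 18263511), (nat_lit 12310016)] (nat_lit 7444406)) p12_15_2 (nat_lit 4) (nat_lit 188) (nat_lit 189) = true := by decide +kernel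
def p12_15_2_189 : pfC (piC [(nat_lit 36888796), (nat_lit 24534081), (nat_lit 18263511), (nat_lit 12310016)] (nat_lit 7444406)) p12_15_2 (nat_lit 4) (nat_lit 189) (nat_lit 190) = true := by decide +kernel
def p12_15_2_190 : pfC (piC [(nat_lit 36888796), (nat_lit 24534081), (nat_lit 18263511), (nat_lit 12310016)] (nat_lit 7444406)) p12_15_2 (nat_lit 4) (nat_lit 190) (nat_lit 191) = true := by decide +kernel
def p12_15_2_191 : pfC (piC [(nat_lit 36888796), (nat_lit 24534081), (nat_lit 18263511), (nat_lit 12310016)] (nat_lit 7444406)) p12_15_2 (nat_lit 4) (nat_lit 191) (nat_lit 192) = true := by decide +kernel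
def p12_15_2_192 : pfC (piC [(nat_lit 36888796), (nat_lit 24534081), (nat_lit 18263511), (nat_lit 12310016)] (nat_lit 7444406)) p12_15_2 (nat_lit 4) (nat_lit 192) (nat_lit 193) = true := by decide +kernel
def p12_15_2_193 : pfC (piC [(nat_lit 36888796), (nat_lit 24534081), (nat_lit 18263511), (nat_lit 12310016)] (nat_lit 7444406)) p12_15_2 (nat_lit 4) (nat_lit 193) (nat_lit 194) = true := by decide +kernel
def p12_15_2_194 : pfC (piC [(nat_lit 36888796), (nat_lit 24534081), (nat_lit 18263511), (nat_lit 12310016)] (nat_lit 7444406)) p12_15_2 (nat_lit 4) (nat_lit 194) (nat_lit 195) = true := by decide +kernel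
def p12_15_2_195 : pfC (piC [(nat_lit 36888796), (nat_lit 24534081), (nat_lit 18263511), (nat_lit 12310016)] (nat_lit 7444406)) p12_15_2 (nat_lit 4) (nat_lit 195) (nat_lit 196) = true := by decide +kernel
def p12_15_2_196 : pfC (piC [(nat_lit 36888796), (nat_lit 24534081), (nat_lit 18263511), (nat_lit 12310016)] (nat_lit 7444406)) p12_15_2 (nat_lit 4) (nat_lit 196) (nat_lit 197) = true := by decide +kernel
def p12_15_2_197 : pfC (piC [(nat_lit 36888796), (nat_lit 24534081), (nat_lit 18263511), (nat_lit 12310016)] (nat_lit 7444406)) p12_15_2 (nat_lit 4) (nat_lit 197) (nat_lit 198) = true := by decide +kernel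
def p12_15_2_198 : pfC (piC [(nat_lit 36888796), (nat_lit 24534081), (nat_lit 18263511), (nat_lit 12310016)] (nat_lit 7444406)) p12_15_2 (nat_lit 4) (nat_lit 198) (nat_lit 199) = true := by decide +kernel
def p12_15_2_199 : pfC (piC [(nat_lit 36888796), (nat_lit 24534081), (nat_lit 18263511), (nat_lit 12310016)] (nat_lit 7444406)) p12_15_2 (nat_lit 4) (nat_lit 199) (nat_lit 200) = true := by decide +kernel
def p12_15_2_200 : pfC (piC [(nat_lit 36888796), (nat_lit 24534081), (nat_lit 18263511), (nat_lit 12310016)] (nat_lit 7444406)) p12_15_2 (nat_lit 4) (nat_lit 200) (nat_lit 201) = true := by decide +kernel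
theorem p12_15_2_T : PfS (PiF n12_15.reverse (nat_lit 7444406)) p12_15_2 (nat_lit 4) [] 0 :=
  pftab_of (los := [(nat_lit 36888796), (nat_lit 24534081), (nat_lit 18263511), (nat_lit 12310016)]) (by decide +kernel) (hi := (nat_lit 201)) (PfP.trans (PfP.trans (PfP.trans (PfP.trans (PfP.trans (PfP.trans (PfP.trans (PfP.trans (PfP.trans (PfP.trans (PfP.trans (PfP.trans (PfP.trans (PfP.trans (PfP.trans (PfP.trans (PfP.trans (PfP.trans (PfP.trans (PfP.trans (PfP.trans (PfP.trans (PfP.trans (PfP.trans (PfP.trans (PfP.trans (PfP.trans (PfP.trans (PfP.trans (PfP.trans (PfP.trans (PfP.trans (PfP.trans (PfP.trans (PfP.trans (PfP.trans (PfP.trans (PfP.trans (PfP.trans (PfP.trans (PfP.trans (PfP.trans (PfP.trans (PfP.trans (PfP.trans (PfP.trans (PfP.trans (PfP.trans (PfP.trans (PfP.trans (PfP.trans (PfP.trans (PfP.trans (PfP.trans (PfP.trans (PfP.trans (PfP.trans (PfP.trans (PfP.trans (PfP.trans (PfP.trans (PfP.trans (PfP.trans (PfP.trans (PfP.trans (PfP.trans (PfP.trans (PfP.trans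 (PfP.trans (PfP.trans (PfP.trans (PfP.trans (PfP.trans (PfP.trans (PfP.trans (PfP.trans (PfP.trans (PfP.trans (PfP.trans (PfP.trans (PfP.trans (PfP.trans (PfP.trans (PfP.trans (PfP.trans (PfP.trans (PfP.trans (PfP.trans (PfP.trans (PfP.trans (PfP.trans (PfP.trans (PfP.trans (PfP.trans (PfP.trans (PfP.trans (PfP.trans (PfP.trans (PfP.trans (PfP.trans (PfP.trans (PfP.trans (PfP.trans (PfP.trans (PfP.trans (PfP.trans (PfP.trans (PfP.trans (PfP.trans
 (PfP.trans (PfP.trans (PfP.trans (PfP.trans (PfP.trans (PfP.trans (PfP.trans (PfP.trans (PfP.trans (PfP.trans (PfP.trans (PfP.trans (PfP.trans (PfP.trans (PfP.trans (PfP.trans (PfP.trans (PfP.trans (PfP.trans (PfP.trans (PfP.trans (PfP.trans (PfP.trans (PfP.trans (PfP.trans (PfP.trans (PfP.trans (PfP.trans (PfP.trans (PfP.trans (PfP.trans (PfP.trans (PfP.trans (PfP.trans (PfP.trans (PfP.trans (PfP.trans (PfP.trans (PfP.trans (PfP.trans (PfP.trans (PfP.trans (PfP.trans (PfP.trans (PfP.trans (PfP.trans (PfP.trans (PfP.trans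 (PfP.trans (PfP.trans (PfP.trans (PfP.trans (PfP.trans (PfP.trans (PfP.trans (PfP.trans (PfP.trans (PfP.trans (PfP.trans (PfP.trans (PfP.trans (PfP.trans (PfP.trans (PfP.trans (PfP.trans (PfP.trans (PfP.trans (PfP.trans (PfP.trans (PfP.trans (PfP.trans (PfP.trans (PfP.trans (PfP.trans (PfP.trans (PfP.trans (PfP.trans (PfP.trans (PfP.trans (PfP.trans (PfP.trans (PfP.trans (PfP.trans (PfP.trans (PfP.trans (PfP.trans (PfP.trans (PfP.trans (PfP.trans (PfP.trans (PfP.trans (pfC_sound p12_15_2_0) (pfC_sound p12_15_2_1)) (pfC_sound p12_15_2_2)) (pfC_sound p12_15_2_3)) (pfC_sound p12_15_2_4)) (pfC_sound p12_15_2_5)) (pfC_sound p12_15_2_6)) (pfC_sound p12_15_2_7))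
 (pfC_sound p12_15_2_8)) (pfC_sound p12_15_2_9)) (pfC_sound p12_15_2_10)) (pfC_sound p12_15_2_11)) (pfC_sound p12_15_2_12)) (pfC_sound p12_15_2_13)) (pfC_sound p12_15_2_14)) (pfC_sound p12_15_2_15)) (pfC_sound p12_15_2_16)) (pfC_sound p12_15_2_17)) (pfC_sound p12_15_2_18)) (pfC_sound p12_15_2_19)) (pfC_sound p12_15_2_20)) (pfC_sound p12_15_2_21)) (pfC_sound p12_15_2_22)) (pfC_sound p12_15_2_23)) (pfC_sound p12_15_2_24)) (pfC_sound p12_15_2_25)) (pfC_sound p12_15_2_26)) (pfC_sound p12_15_2_27)) (pfC_sound p12_15_2_28)) (pfC_sound p12_15_2_29)) (pfC_sound p12_15_2_30)) (pfC_sound p12_15_2_31)) (pfC_sound p12_15_2_32)) (pfC_sound p12_15_2_33)) (pfC_sound p12_15_2_34)) (pfC_sound p12_15_2_35)) (pfC_sound p12_15_2_36)) (pfC_sound p12_15_2_37)) (pfC_sound p12_15_2_38)) (pfC_sound p12_15_2_39)) (pfC_sound p12_15_2_40)) (pfC_sound p12_15_2_41)) (pfC_sound p12_15_2_42)) (pfC_sound p12_15_2_43)) (pfC_sound p12_15_2_44)) (pfC_sound p12_15_2_45)) (pfC_sound p12_15_2_46)) (pfC_sound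 p12_15_2_47)) (pfC_sound p12_15_2_48)) (pfC_sound p12_15_2_49)) (pfC_sound p12_15_2_50)) (pfC_sound p12_15_2_51)) (pfC_sound p12_15_2_52)) (pfC_sound p12_15_2_53)) (pfC_sound p12_15_2_54)) (pfC_sound p12_15_2_55))
 (pfC_sound p12_15_2_56)) (pfC_sound p12_15_2_57)) (pfC_sound p12_15_2_58)) (pfC_sound p12_15_2_59)) (pfC_sound p12_15_2_60)) (pfC_sound p12_15_2_61)) (pfC_sound p12_15_2_62)) (pfC_sound p12_15_2_63)) (pfC_sound p12_15_2_64)) (pfC_sound p12_15_2_65)) (pfC_sound p12_15_2_66)) (pfC_sound p12_15_2_67)) (pfC_sound p12_15_2_68)) (pfC_sound p12_15_2_69)) (pfC_sound p12_15_2_70)) (pfC_sound p12_15_2_71)) (pfC_sound p12_15_2_72)) (pfC_sound p12_15_2_73)) (pfC_sound p12_15_2_74)) (pfC_sound p12_15_2_75)) (pfC_sound p12_15_2_76)) (pfC_sound p12_15_2_77)) (pfC_sound p12_15_2_78)) (pfC_sound p12_15_2_79)) (pfC_sound p12_15_2_80)) (pfC_sound p12_15_2_81)) (pfC_sound p12_15_2_82)) (pfC_sound p12_15_2_83)) (pfC_sound p12_15_2_84)) (pfC_sound p12_15_2_85)) (pfC_sound p12_15_2_86))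 (pfC_sound p12_15_2_87)) (pfC_sound p12_15_2_88)) (pfC_sound p12_15_2_89)) (pfC_sound p12_15_2_90)) (pfC_sound p12_15_2_91)) (pfC_sound p12_15_2_92)) (pfC_sound p12_15_2_93)) (pfC_sound p12_15_2_94)) (pfC_sound p12_15_2_95)) (pfC_sound p12_15_2_96)) (pfC_sound p12_15_2_97)) (pfC_sound p12_15_2_98)) (pfC_sound p12_15_2_99)) (pfC_sound p12_15_2_100)) (pfC_sound p12_15_2_101)) (pfC_sound p12_15_2_102)) (pfC_sound
 p12_15_2_103)) (pfC_sound p12_15_2_104)) (pfC_sound p12_15_2_105)) (pfC_sound p12_15_2_106)) (pfC_sound p12_15_2_107)) (pfC_sound p12_15_2_108)) (pfC_sound p12_15_2_109)) (pfC_sound p12_15_2_110)) (pfC_sound p12_15_2_111)) (pfC_sound p12_15_2_112)) (pfC_sound p12_15_2_113)) (pfC_sound p12_15_2_114)) (pfC_sound p12_15_2_115)) (pfC_sound p12_15_2_116)) (pfC_sound p12_15_2_117)) (pfC_sound p12_15_2_118)) (pfC_sound p12_15_2_119)) (pfC_sound p12_15_2_120)) (pfC_sound p12_15_2_121)) (pfC_sound p12_15_2_122)) (pfC_sound p12_15_2_123)) (pfC_sound p12_15_2_124)) (pfC_sound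 p12_15_2_125)) (pfC_sound p12_15_2_126)) (pfC_sound p12_15_2_127)) (pfC_sound p12_15_2_128)) (pfC_sound p12_15_2_129)) (pfC_sound p12_15_2_130)) (pfC_sound p12_15_2_131)) (pfC_sound p12_15_2_132)) (pfC_sound p12_15_2_133)) (pfC_sound p12_15_2_134)) (pfC_sound p12_15_2_135)) (pfC_sound p12_15_2_136)) (pfC_sound p12_15_2_137)) (pfC_sound p12_15_2_138)) (pfC_sound p12_15_2_139)) (pfC_sound p12_15_2_140)) (pfC_sound p12_15_2_141)) (pfC_sound p12_15_2_142)) (pfC_sound p12_15_2_143)) (pfC_sound p12_15_2_144)) (pfC_sound p12_15_2_145)) (pfC_sound p12_15_2_146)) (pfC_sound p12_15_2_147)) (pfC_sound p12_15_2_148)) (pfC_sound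
 p12_15_2_149)) (pfC_sound p12_15_2_150)) (pfC_sound p12_15_2_151)) (pfC_sound p12_15_2_152)) (pfC_sound p12_15_2_153)) (pfC_sound p12_15_2_154)) (pfC_sound p12_15_2_155)) (pfC_sound p12_15_2_156)) (pfC_sound p12_15_2_157)) (pfC_sound p12_15_2_158)) (pfC_sound p12_15_2_159)) (pfC_sound p12_15_2_160)) (pfC_sound p12_15_2_161)) (pfC_sound p12_15_2_162)) (pfC_sound p12_15_2_163)) (pfC_sound p12_15_2_164)) (pfC_sound p12_15_2_165)) (pfC_sound p12_15_2_166)) (pfC_sound p12_15_2_167)) (pfC_sound p12_15_2_168)) (pfC_sound p12_15_2_169)) (pfC_sound p12_15_2_170)) (pfC_sound p12_15_2_171)) (pfC_sound p12_15_2_172)) (pfC_sound p12_15_2_173)) (pfC_sound p12_15_2_174)) (pfC_sound p12_15_2_175)) (pfC_sound p12_15_2_176)) (pfC_sound p12_15_2_177)) (pfC_sound p12_15_2_178)) (pfC_sound p12_15_2_179)) (pfC_sound p12_15_2_180)) (pfC_sound p12_15_2_181)) (pfC_sound p12_15_2_182)) (pfC_sound p12_15_2_183)) (pfC_sound p12_15_2_184)) (pfC_sound p12_15_2_185)) (pfC_sound p12_15_2_186)) (pfC_sound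 p12_15_2_187)) (pfC_sound p12_15_2_188)) (pfC_sound p12_15_2_189)) (pfC_sound p12_15_2_190)) (pfC_sound p12_15_2_191)) (pfC_sound p12_15_2_192)) (pfC_sound p12_15_2_193)) (pfC_sound p12_15_2_194)) (pfC_sound
 p12_15_2_195)) (pfC_sound p12_15_2_196)) (pfC_sound p12_15_2_197)) (pfC_sound p12_15_2_198)) (pfC_sound p12_15_2_199)) (pfC_sound p12_15_2_200)) (by decide +kernel)

def z12_15_2 : zOK yB12_15 (nat_lit 2) (nat_lit 600) (nat_lit 750) (nat_lit 7444406) (nat_lit 5638750) = true := by decide +kernel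
def g12_15_2 : gOK yB12_15.x P12_15 (nat_lit 1404) (q12_15 :: r12_15) (nat_lit 2) (nat_lit 600) (nat_lit 3) (nat_lit 750) (nat_lit 12712500) (nat_lit 12712500) (nat_lit 12712500) (nat_lit 12712500) [(nat_lit 800), (nat_lit 1600)] = true := by decide +kernel
def v12_15_2 : ivC P12_15 s12_15 w12_15 n12_15 (nat_lit 4) (nat_lit 4760) (nat_lit 2) (nat_lit 600) f168_1_600 f176_1_600 (nat_lit 3) (nat_lit 750) f168_1_750 f176_1_750 (nat_lit 7444406) (nat_lit 5638750) p12_15_2 = true := by decide +kernel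
def p12_15_3 : PF := (PF.cons (PF.cons (PF.cons (PF.cons (PF.leaf (nat_lit 2781489) (nat_lit 16413247) (nat_lit 50695565) (nat_lit 16413247) [(nat_lit 0), (nat_lit 0), (nat_lit 0), (nat_lit 0)]) (PF.cons (PF.leaf (nat_lit 2976653) (nat_lit 355884) (nat_lit 50367262) (nat_lit 16385666) [(nat_lit 355884), (nat_lit 0), (nat_lit 0), (nat_lit 0)]) (PF.cons (PF.leaf (nat_lit 3206067) (nat_lit 386178) (nat_lit 49984897) (nat_lit 16351558) [(nat_lit 386178), (nat_lit 0), (nat_lit 0), (nat_lit 0)]) (PF.cons (PF.leaf (nat_lit 3462706) (nat_lit 412742) (nat_lit 49559410) (nat_lit 16311174) [(nat_lit 412742), (nat_lit 0), (nat_lit 0), (nat_lit 0)]) (PF.cons (PF.leaf (nat_lit 3742251) (nat_lit 436378) (nat_lit 49098659) (nat_lit 16264639) [(nat_lit 436378), (nat_lit 0), (nat_lit 0), (nat_lit 0)]) (PF.cons (PF.leaf (nat_lit 4041322) (nat_lit 457601) (nat_lit 48608755) (nat_lit 16212050) [(nat_lit 457601), (nat_lit 0), (nat_lit 0), (nat_lit 0)]) (PF.cons (PF.leaf (nat_lit 4357213)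 (nat_lit 476768) (nat_lit 48094692) (nat_lit 16153510) [(nat_lit 476768), (nat_lit 0), (nat_lit 0), (nat_lit 0)]) (PF.cons (PF.leaf (nat_lit 4687565) (nat_lit 494141) (nat_lit 47560673) (nat_lit 16089151) [(nat_lit 494141), (nat_lit 0),
 (nat_lit 0), (nat_lit 0)]) (PF.cons (PF.leaf (nat_lit 5030366) (nat_lit 509920) (nat_lit 47010314) (nat_lit 16019135) [(nat_lit 509920), (nat_lit 0), (nat_lit 0), (nat_lit 0)]) (PF.cons (PF.leaf (nat_lit 5383820) (nat_lit 524265) (nat_lit 46446764) (nat_lit 15943656) [(nat_lit 524265), (nat_lit 0), (nat_lit 0), (nat_lit 0)]) (PF.cons PF.nil (PF.cons PF.nil PF.nil)))))))))))) (PF.cons (PF.cons (PF.leaf (nat_lit 3371980) (nat_lit 1436738) (nat_lit 49383261) (nat_lit 16288813) [(nat_lit 0), (nat_lit 1436738), (nat_lit 0), (nat_lit 0)]) (PF.cons (PF.leaf (nat_lit 3619010) (nat_lit 421250) (nat_lit 48967513) (nat_lit 16245907) [(nat_lit 421250), (nat_lit 1474141), (nat_lit 0), (nat_lit 0)]) (PF.cons (PF.leaf (nat_lit 3891232) (nat_lit 444121)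 (nat_lit 48514184) (nat_lit 16196529) [(nat_lit 444121), (nat_lit 1509857), (nat_lit 0), (nat_lit 0)]) (PF.cons (PF.leaf (nat_lit 4183950) (nat_lit 464577) (nat_lit 48030720) (nat_lit 16140955) [(nat_lit 464577), (nat_lit 1543406), (nat_lit 0), (nat_lit 0)]) (PF.cons (PF.leaf (nat_lit 4494020) (nat_lit 483006) (nat_lit 47522787) (nat_lit 16079406) [(nat_lit 483006), (nat_lit 1574592), (nat_lit 0), (nat_lit 0)]) (PF.cons (PF.leaf (nat_lit 4818896)
 (nat_lit 499682) (nat_lit 46994944) (nat_lit 16012090) [(nat_lit 499682), (nat_lit 1603363), (nat_lit 0), (nat_lit 0)]) (PF.cons (PF.leaf (nat_lit 5156428) (nat_lit 514808) (nat_lit 46450994) (nat_lit 15939223) [(nat_lit 514808), (nat_lit 1629743), (nat_lit 0), (nat_lit 0)]) (PF.cons (PF.leaf (nat_lit 5504749) (nat_lit 528543) (nat_lit 45894176) (nat_lit 15861038) [(nat_lit 528543), (nat_lit 1653794), (nat_lit 0), (nat_lit 0)]) (PF.cons (PF.leaf (nat_lit 5862201) (nat_lit 541016) (nat_lit 45327296) (nat_lit 15777786) [(nat_lit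 541016), (nat_lit 1675600), (nat_lit 0), (nat_lit 0)]) (PF.cons PF.nil PF.nil)))))))))) (PF.cons (PF.cons (PF.leaf (nat_lit 4043559) (nat_lit 1533781) (nat_lit 47918531) (nat_lit 16122717) [(nat_lit 0), (nat_lit 1533781), (nat_lit 0), (nat_lit 0)]) (PF.cons (PF.leaf (nat_lit 4327847) (nat_lit 470374) (nat_lit 47445584) (nat_lit 16064837) [(nat_lit 470374), (nat_lit 1564008), (nat_lit 0), (nat_lit 0)]) (PF.cons (PF.leaf (nat_lit 4631019) (nat_lit 488268) (nat_lit 46946738) (nat_lit 16000837) [(nat_lit 488268), (nat_lit 1592349), (nat_lit 0), (nat_lit 0)]) (PF.cons (PF.leaf (nat_lit 4949658) (nat_lit 504395) (nat_lit 46427306) (nat_lit 15931046) [(nat_lit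
 504395), (nat_lit 1618636), (nat_lit 0), (nat_lit 0)]) (PF.cons (PF.leaf (nat_lit 5281358) (nat_lit 518981) (nat_lit 45891502) (nat_lit 15855756) [(nat_lit 518981), (nat_lit 1642814), (nat_lit 0), (nat_lit 0)]) (PF.cons (PF.leaf (nat_lit 5624088) (nat_lit 532195) (nat_lit 45342794) (nat_lit 15775253) [(nat_lit 532195), (nat_lit 1664894), (nat_lit 0), (nat_lit 0)]) (PF.cons (PF.leaf (nat_lit 5976169) (nat_lit 544171) (nat_lit 44784114) (nat_lit 15689823) [(nat_lit 544171), (nat_lit 1684923), (nat_lit 0), (nat_lit 0)]) (PF.cons PF.nil (PF.cons PF.nil PF.nil))))))))) (PF.cons (PF.cons (PF.leaf (nat_lit 4769759) (nat_lit 1608444) (nat_lit 46365747) (nat_lit 15917732) [(nat_lit 0), (nat_lit 1608444), (nat_lit 0), (nat_lit 0)]) (PF.cons (PF.leaf (nat_lit 5080722) (nat_lit 508281) (nat_lit 45857327) (nat_lit 15846028) [(nat_lit 508281), (nat_lit 1632391), (nat_lit 0), (nat_lit 0)]) (PF.cons (PF.leaf (nat_lit 5405831) (nat_lit 522447) (nat_lit 45331609) (nat_lit 15768794)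 [(nat_lit 522447), (nat_lit 1654504), (nat_lit 0), (nat_lit 0)]) (PF.cons (PF.leaf (nat_lit 5742486) (nat_lit 535233) (nat_lit 44792503) (nat_lit 15686390) [(nat_lit 535233), (nat_lit 1674739), (nat_lit 0), (nat_lit 0)])
 (PF.cons (PF.leaf (nat_lit 6088770) (nat_lit 546787) (nat_lit 44243190) (nat_lit 15599154) [(nat_lit 546787), (nat_lit 1693106), (nat_lit 0), (nat_lit 0)]) (PF.cons (PF.leaf (nat_lit 6443092) (nat_lit 557227) (nat_lit 43686331) (nat_lit 15507410) [(nat_lit 557227), (nat_lit 1709644), (nat_lit 0), (nat_lit 0)]) (PF.cons PF.nil PF.nil))))))) (PF.cons (PF.cons (PF.leaf (nat_lit 5531058) (nat_lit 1664930) (nat_lit 44770763) (nat_lit 15678329) [(nat_lit 0), (nat_lit 1664930), (nat_lit 0), (nat_lit 0)]) (PF.cons (PF.leaf (nat_lit 5860571) (nat_lit 537657) (nat_lit 44242964) (nat_lit 15594492) [(nat_lit 537657), (nat_lit 1683424), (nat_lit 0), (nat_lit 0)]) (PF.cons (PF.leaf (nat_lit 6200574) (nat_lit 548869) (nat_lit 43704311) (nat_lit 15505852) [(nat_lit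 548869), (nat_lit 1700227), (nat_lit 0), (nat_lit 0)]) (PF.cons (PF.leaf (nat_lit 6548975) (nat_lit 558964) (nat_lit 43157730) (nat_lit 15412784) [(nat_lit 558964), (nat_lit 1715350), (nat_lit 0), (nat_lit 0)]) (PF.cons (PF.leaf (nat_lit 6904276) (nat_lit 568049) (nat_lit 42605641) (nat_lit 15315636) [(nat_lit 568049), (nat_lit 1728833), (nat_lit 0), (nat_lit 0)]) PF.nil))))) (PF.cons (PF.cons (PF.leaf (nat_lit 6312487) (nat_lit
 1706361) (nat_lit 43167064) (nat_lit 15409941) [(nat_lit 0), (nat_lit 1706361), (nat_lit 0), (nat_lit 0)]) (PF.cons (PF.leaf (nat_lit 6654196) (nat_lit 560232) (nat_lit 42631891) (nat_lit 15315931) [(nat_lit 560232), (nat_lit 1720151), (nat_lit 0), (nat_lit 0)]) (PF.cons (PF.leaf (nat_lit 7003497) (nat_lit 569036) (nat_lit 42090714) (nat_lit 15217902) [(nat_lit 569036), (nat_lit 1732424), (nat_lit 0), (nat_lit 0)]) (PF.cons PF.nil PF.nil)))) (PF.cons (PF.cons (PF.leaf (nat_lit 7102463) (nat_lit 1735237) (nat_lit 41579077) (nat_lit 15118309)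 [(nat_lit 0), (nat_lit 1735237), (nat_lit 0), (nat_lit 0)]) (PF.cons (PF.leaf (nat_lit 7451364) (nat_lit 577261) (nat_lit 41045430) (nat_lit 15016147) [(nat_lit 577261), (nat_lit 1744995), (nat_lit 0), (nat_lit 0)]) PF.nil)) (PF.cons PF.nil (PF.cons PF.nil PF.nil))))))))) (PF.cons (PF.cons (PF.cons (PF.leaf (nat_lit 3921499) (nat_lit 3574080) (nat_lit 47487289) (nat_lit 16047443) [(nat_lit 0), (nat_lit 0), (nat_lit 3574080), (nat_lit 0)]) (PF.cons (PF.leaf (nat_lit 4176859) (nat_lit 446205) (nat_lit 47065630) (nat_lit 15994217) [(nat_lit 446205), (nat_lit 0), (nat_lit 3602759), (nat_lit 0)]) (PF.cons (PF.leaf (nat_lit 4455818) (nat_lit 467144)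
 (nat_lit 46609726) (nat_lit 15934262) [(nat_lit 467144), (nat_lit 0), (nat_lit 3630536), (nat_lit 0)]) (PF.cons (PF.leaf (nat_lit 4753591) (nat_lit 485612) (nat_lit 46127162) (nat_lit 15868132) [(nat_lit 485612), (nat_lit 0), (nat_lit 3656682), (nat_lit 0)]) (PF.cons (PF.leaf (nat_lit 5067020) (nat_lit 502062) (nat_lit 45623552) (nat_lit 15796251) [(nat_lit 502062), (nat_lit 0), (nat_lit 3680758), (nat_lit 0)]) (PF.cons (PF.leaf (nat_lit 5393597) (nat_lit 516805) (nat_lit 45103301) (nat_lit 15718978) [(nat_lit 516805), (nat_lit 0), (nat_lit 3702506), (nat_lit 0)]) (PF.cons (PF.leaf (nat_lit 5731251) (nat_lit 530063) (nat_lit 44570000) (nat_lit 15636644) [(nat_lit 530063), (nat_lit 0), (nat_lit 3721785), (nat_lit 0)]) (PF.cons (PF.leaf (nat_lit 6078228) (nat_lit 542008) (nat_lit 44026648) (nat_lit 15549568) [(nat_lit 542008), (nat_lit 0), (nat_lit 3738538), (nat_lit 0)]) (PF.cons (PF.leaf (nat_lit 6432994) (nat_lit 552773) (nat_lit 43475799) (nat_lit 15458063) [(nat_lit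 552773), (nat_lit 0), (nat_lit 3752759), (nat_lit 0)]) (PF.cons PF.nil PF.nil)))))))))) (PF.cons (PF.cons (PF.leaf (nat_lit 4600886) (nat_lit 1582853) (nat_lit 46026062) (nat_lit 15849232) [(nat_lit 0), (nat_lit
 1582853), (nat_lit 3650664), (nat_lit 0)]) (PF.cons (PF.leaf (nat_lit 4889445) (nat_lit 489314) (nat_lit 45556636) (nat_lit 15781794) [(nat_lit 489314), (nat_lit 1607797), (nat_lit 3673270), (nat_lit 0)]) (PF.cons (PF.leaf (nat_lit 5195347) (nat_lit 505441) (nat_lit 45064381) (nat_lit 15708410) [(nat_lit 505441), (nat_lit 1630983), (nat_lit 3694155), (nat_lit 0)]) (PF.cons (PF.leaf (nat_lit 5515213) (nat_lit 519815) (nat_lit 44554495) (nat_lit 15629571) [(nat_lit 519815), (nat_lit 1652299), (nat_lit 3713000), (nat_lit 0)]) (PF.cons (PF.leaf (nat_lit 5846683) (nat_lit 532689) (nat_lit 44031009) (nat_lit 15545691) [(nat_lit 532689), (nat_lit 1671726), (nat_lit 3729627), (nat_lit 0)]) (PF.cons (PF.leaf (nat_lit 6187839) (nat_lit 544250) (nat_lit 43497182) (nat_lit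 15457139) [(nat_lit 544250), (nat_lit 1689291), (nat_lit 3743946), (nat_lit 0)]) (PF.cons (PF.leaf (nat_lit 6537034) (nat_lit 554642) (nat_lit 42955715) (nat_lit 15364262) [(nat_lit 554642), (nat_lit 1705047), (nat_lit 3755932), (nat_lit 0)]) (PF.cons PF.nil (PF.cons PF.nil PF.nil))))))))) (PF.cons (PF.cons (PF.leaf (nat_lit 5325684) (nat_lit 1642245) (nat_lit 44502224) (nat_lit 15616769) [(nat_lit 0), (nat_lit 1642245),
 (nat_lit 3705327), (nat_lit 0)]) (PF.cons (PF.leaf (nat_lit 5637436) (nat_lit 522112) (nat_lit 44004961) (nat_lit 15536917) [(nat_lit 522112), (nat_lit 1661687), (nat_lit 3721446), (nat_lit 0)]) (PF.cons (PF.leaf (nat_lit 5962000) (nat_lit 534711) (nat_lit 43492942) (nat_lit 15451946) [(nat_lit 534711), (nat_lit 1679456), (nat_lit 3735589), (nat_lit 0)]) (PF.cons (PF.leaf (nat_lit 6296813) (nat_lit 545971) (nat_lit 42969881) (nat_lit 15362306) [(nat_lit 545971), (nat_lit 1695536), (nat_lit 3747636), (nat_lit 0)]) (PF.cons (PF.leaf (nat_lit 6640074)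 (nat_lit 556055) (nat_lit 42438750) (nat_lit 15268397) [(nat_lit 556055), (nat_lit 1709952), (nat_lit 3757539), (nat_lit 0)]) (PF.cons (PF.leaf (nat_lit 6990262) (nat_lit 565086) (nat_lit 41901993) (nat_lit 15170583) [(nat_lit 565086), (nat_lit 1722752), (nat_lit 3765296), (nat_lit 0)]) (PF.cons PF.nil PF.nil))))))) (PF.cons (PF.cons (PF.leaf (nat_lit 6078321) (nat_lit 1686175) (nat_lit 42955131) (nat_lit 15355368) [(nat_lit 0), (nat_lit 1686175), (nat_lit 3739787), (nat_lit 0)]) (PF.cons (PF.leaf (nat_lit 6405799) (nat_lit 547162) (nat_lit 42444303) (nat_lit 15265079) [(nat_lit 547162), (nat_lit 1700852), (nat_lit 3749711), (nat_lit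
 0)]) (PF.cons (PF.leaf (nat_lit 6742629) (nat_lit 557009) (nat_lit 41924596) (nat_lit 15170507) [(nat_lit 557009), (nat_lit 1714006), (nat_lit 3757670), (nat_lit 0)]) (PF.cons (PF.leaf (nat_lit 7086837) (nat_lit 565792) (nat_lit 41398730) (nat_lit 15072067) [(nat_lit 565792), (nat_lit 1725663), (nat_lit 3763645), (nat_lit 0)]) (PF.cons PF.nil PF.nil))))) (PF.cons (PF.cons (PF.leaf (nat_lit 6845591) (nat_lit 1717264) (nat_lit 41412765) (nat_lit 15070583) [(nat_lit 0), (nat_lit 1717264), (nat_lit 3756407), (nat_lit 0)]) (PF.cons (PF.leaf (nat_lit 7183049) (nat_lit 566092) (nat_lit 40898749) (nat_lit 14971867) [(nat_lit 566092), (nat_lit 1727844), (nat_lit 3760723), (nat_lit 0)]) (PF.cons (PF.leaf (nat_lit 7527183) (nat_lit 573724) (nat_lit 40380182) (nat_lit 14869678) [(nat_lit 573724), (nat_lit 1737072), (nat_lit 3763212), (nat_lit 0)]) (PF.cons PF.nil PF.nil)))) (PF.cons (PF.cons (PF.leaf (nat_lit 7617420) (nat_lit 1737647) (nat_lit 39895059) (nat_lit 14767838) [(nat_lit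 0), (nat_lit 1737647), (nat_lit 3757678), (nat_lit 0)]) (PF.cons PF.nil PF.nil)) (PF.cons PF.nil (PF.cons PF.nil PF.nil)))))))) (PF.cons (PF.cons (PF.cons (PF.leaf (nat_lit 5142850) (nat_lit 3681434) (nat_lit
 44196928) (nat_lit 15549014) [(nat_lit 0), (nat_lit 0), (nat_lit 3681434), (nat_lit 0)]) (PF.cons (PF.leaf (nat_lit 5433502) (nat_lit 503711) (nat_lit 43736322) (nat_lit 15474101) [(nat_lit 503711), (nat_lit 0), (nat_lit 3697338), (nat_lit 0)]) (PF.cons (PF.leaf (nat_lit 5740163) (nat_lit 518296) (nat_lit 43255513) (nat_lit 15393506) [(nat_lit 518296), (nat_lit 0), (nat_lit 3711599), (nat_lit 0)]) (PF.cons (PF.leaf (nat_lit 6059477) (nat_lit 531153) (nat_lit 42759524) (nat_lit 15307841) [(nat_lit 531153), (nat_lit 0), (nat_lit 3723992), (nat_lit 0)]) (PF.cons (PF.leaf (nat_lit 6389179) (nat_lit 542556) (nat_lit 42252183) (nat_lit 15217602) [(nat_lit 542556), (nat_lit 0), (nat_lit 3734401), (nat_lit 0)]) (PF.cons (PF.leaf (nat_lit 6727394) (nat_lit 552701) (nat_lit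 41736534) (nat_lit 15123217) [(nat_lit 552701), (nat_lit 0), (nat_lit 3742776), (nat_lit 0)]) (PF.cons (PF.leaf (nat_lit 7072586) (nat_lit 561740) (nat_lit 41215063) (nat_lit 15025068) [(nat_lit 561740), (nat_lit 0), (nat_lit 3749118), (nat_lit 0)]) (PF.cons PF.nil (PF.cons PF.nil PF.nil))))))))) (PF.cons (PF.cons (PF.leaf (nat_lit 5862229) (nat_lit 1664481) (nat_lit 42715683) (nat_lit 15295862) [(nat_lit 0), (nat_lit
 1664481), (nat_lit 3716392), (nat_lit 0)]) (PF.cons (PF.leaf (nat_lit 6173171) (nat_lit 532176) (nat_lit 42233253) (nat_lit 15209949) [(nat_lit 532176), (nat_lit 1680182), (nat_lit 3726625), (nat_lit 0)]) (PF.cons (PF.leaf (nat_lit 6495765) (nat_lit 543417) (nat_lit 41738162) (nat_lit 15119338) [(nat_lit 543417), (nat_lit 1694348), (nat_lit 3735064), (nat_lit 0)]) (PF.cons (PF.leaf (nat_lit 6827521) (nat_lit 553363) (nat_lit 41233917) (nat_lit 15024543) [(nat_lit 553363), (nat_lit 1706985), (nat_lit 3741637), (nat_lit 0)]) (PF.cons (PF.leaf (nat_lit 7166719)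 (nat_lit 562185) (nat_lit 40723284) (nat_lit 14926001) [(nat_lit 562185), (nat_lit 1718132), (nat_lit 3746325), (nat_lit 0)]) (PF.cons PF.nil (PF.cons PF.nil PF.nil))))))) (PF.cons (PF.cons (PF.leaf (nat_lit 6603599) (nat_lit 1698111) (nat_lit 41225186) (nat_lit 15018801) [(nat_lit 0), (nat_lit 1698111), (nat_lit 3734301), (nat_lit 0)]) (PF.cons (PF.leaf (nat_lit 6927926) (nat_lit 553560) (nat_lit 40733623) (nat_lit 14924004) [(nat_lit 553560), (nat_lit 1709615), (nat_lit 3739197), (nat_lit 0)]) (PF.cons (PF.leaf (nat_lit 7260648) (nat_lit 562232) (nat_lit 40234758) (nat_lit 14825404) [(nat_lit 562232), (nat_lit 1719741),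
 (nat_lit 3742350), (nat_lit 0)]) (PF.cons (PF.leaf (nat_lit 7599861) (nat_lit 569889) (nat_lit 39731113) (nat_lit 14723444) [(nat_lit 569889), (nat_lit 1728527), (nat_lit 3743765), (nat_lit 0)]) (PF.cons PF.nil PF.nil))))) (PF.cons (PF.cons (PF.leaf (nat_lit 7355226) (nat_lit 1720703) (nat_lit 39748956) (nat_lit 14723244) [(nat_lit 0), (nat_lit 1720703), (nat_lit 3737251), (nat_lit 0)]) (PF.cons (PF.leaf (nat_lit 7687718) (nat_lit 569410) (nat_lit 39257271) (nat_lit 14621542) [(nat_lit 569410), (nat_lit 1728620), (nat_lit 3737364), (nat_lit 0)]) (PF.cons PF.nil (PF.cons PF.nil PF.nil)))) (PF.cons (PF.cons (PF.leaf (nat_lit 8108318) (nat_lit 1734119) (nat_lit 38303336) (nat_lit 14414183) [(nat_lit 0), (nat_lit 1734119), (nat_lit 3727408), (nat_lit 0)]) (PF.cons PF.nil PF.nil)) (PF.cons PF.nil PF.nil)))))) (PF.cons (PF.cons (PF.cons (PF.leaf (nat_lit 6378968) (nat_lit 3711610) (nat_lit 41011941) (nat_lit 14962040) [(nat_lit 0), (nat_lit 0), (nat_lit 3711610), (nat_lit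 0)]) (PF.cons (PF.leaf (nat_lit 6687864) (nat_lit 539163) (nat_lit 40546683) (nat_lit 14871841) [(nat_lit 539163), (nat_lit 0), (nat_lit 3717041), (nat_lit 0)]) (PF.cons (PF.leaf (nat_lit 7007424) (nat_lit 549222)
 (nat_lit 40070494) (nat_lit 14777355) [(nat_lit 549222), (nat_lit 0), (nat_lit 3720839), (nat_lit 0)]) (PF.cons (PF.leaf (nat_lit 7335222) (nat_lit 558030) (nat_lit 39586672) (nat_lit 14679134) [(nat_lit 558030), (nat_lit 0), (nat_lit 3722971), (nat_lit 0)]) (PF.cons (PF.leaf (nat_lit 7669606) (nat_lit 565765) (nat_lit 39097786) (nat_lit 14577638) [(nat_lit 565765), (nat_lit 0), (nat_lit 3723441), (nat_lit 0)]) PF.nil))))) (PF.cons (PF.cons (PF.leaf (nat_lit 7107235) (nat_lit 1702602) (nat_lit 39583071) (nat_lit 14674594) [(nat_lit 0), (nat_lit 1702602), (nat_lit 3716181), (nat_lit 0)]) (PF.cons (PF.leaf (nat_lit 7427594) (nat_lit 557424) (nat_lit 39112044) (nat_lit 14576893) [(nat_lit 557424), (nat_lit 1711457), (nat_lit 3716997), (nat_lit 0)]) (PF.cons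 (PF.leaf (nat_lit 7755520) (nat_lit 565079) (nat_lit 38634973) (nat_lit 14475825) [(nat_lit 565079), (nat_lit 1719062), (nat_lit 3716263), (nat_lit 0)]) (PF.cons PF.nil PF.nil)))) (PF.cons (PF.cons (PF.leaf (nat_lit 7842321) (nat_lit 1718190) (nat_lit 38175079) (nat_lit 14372826) [(nat_lit 0), (nat_lit 1718190), (nat_lit 3708174), (nat_lit 0)]) (PF.cons (PF.leaf (nat_lit 8169359) (nat_lit 570660) (nat_lit 37706142) (nat_lit
 14269525) [(nat_lit 570660), (nat_lit 1723891), (nat_lit 3704900), (nat_lit 0)]) PF.nil)) (PF.cons PF.nil (PF.cons PF.nil PF.nil))))) (PF.cons (PF.cons (PF.cons (PF.leaf (nat_lit 7589882) (nat_lit 3688227) (nat_lit 38028443) (nat_lit 14327458) [(nat_lit 0), (nat_lit 0), (nat_lit 3688227), (nat_lit 0)]) (PF.cons (PF.leaf (nat_lit 7905661) (nat_lit 559219) (nat_lit 37578485) (nat_lit 14228158) [(nat_lit 559219), (nat_lit 0), (nat_lit 3685737), (nat_lit 0)]) (PF.cons (PF.leaf (nat_lit 8228346) (nat_lit 565992) (nat_lit 37123490) (nat_lit 14125879)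 [(nat_lit 565992), (nat_lit 0), (nat_lit 3681864), (nat_lit 0)]) (PF.cons PF.nil PF.nil)))) (PF.cons (PF.cons (PF.leaf (nat_lit 8307934) (nat_lit 1710939) (nat_lit 36688898) (nat_lit 14023126) [(nat_lit 0), (nat_lit 1710939), (nat_lit 3671462), (nat_lit 0)]) (PF.cons PF.nil PF.nil)) (PF.cons PF.nil PF.nil))) (PF.cons (PF.cons (PF.cons (PF.leaf (nat_lit 8753227) (nat_lit 3628936) (nat_lit 35287097) (nat_lit 13677032) [(nat_lit 0), (nat_lit 0), (nat_lit 3628936), (nat_lit 0)]) (PF.cons PF.nil PF.nil)) (PF.cons PF.nil PF.nil)) (PF.cons PF.nil (PF.cons PF.nil PF.nil)))))))) (PF.cons (PF.cons (PF.cons (PF.cons (PF.leaf (nat_lit 4754115) (nat_lit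
 8665703) (nat_lit 43168701) (nat_lit 15274408) [(nat_lit 0), (nat_lit 0), (nat_lit 0), (nat_lit 8665703)]) (PF.cons (PF.leaf (nat_lit 5005615) (nat_lit 454565) (nat_lit 42787866) (nat_lit 15211652) [(nat_lit 454565), (nat_lit 0), (nat_lit 0), (nat_lit 8654728)]) (PF.cons (PF.leaf (nat_lit 5278866) (nat_lit 473848) (nat_lit 42377846) (nat_lit 15142304) [(nat_lit 473848), (nat_lit 0), (nat_lit 0), (nat_lit 8640965)]) (PF.cons (PF.leaf (nat_lit 5569101) (nat_lit 490542) (nat_lit 41945597) (nat_lit 15067232) [(nat_lit 490542), (nat_lit 0), (nat_lit 0), (nat_lit 8624356)]) (PF.cons (PF.leaf (nat_lit 5873197) (nat_lit 505162) (nat_lit 41496197) (nat_lit 14987079) [(nat_lit 505162), (nat_lit 0), (nat_lit 0), (nat_lit 8604885)]) (PF.cons (PF.leaf (nat_lit 6188721) (nat_lit 518062) (nat_lit 41033566) (nat_lit 14902361) [(nat_lit 518062), (nat_lit 0), (nat_lit 0), (nat_lit 8582573)]) (PF.cons (PF.leaf (nat_lit 6513707) (nat_lit 529496) (nat_lit 40560844) (nat_lit 14813518) [(nat_lit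 529496), (nat_lit 0), (nat_lit 0), (nat_lit 8557471)]) (PF.cons (PF.leaf (nat_lit 6846518) (nat_lit 539658) (nat_lit 40080608) (nat_lit 14720938) [(nat_lit 539658), (nat_lit 0), (nat_lit 0), (nat_lit 8529655)])
 (PF.cons (PF.leaf (nat_lit 7185775) (nat_lit 548699) (nat_lit 39595015) (nat_lit 14624976) [(nat_lit 548699), (nat_lit 0), (nat_lit 0), (nat_lit 8499223)]) (PF.cons PF.nil PF.nil)))))))))) (PF.cons (PF.cons (PF.leaf (nat_lit 5409869) (nat_lit 1585444) (nat_lit 41860486) (nat_lit 15048089) [(nat_lit 0), (nat_lit 1585444), (nat_lit 0), (nat_lit 8614792)]) (PF.cons (PF.leaf (nat_lit 5690483) (nat_lit 492339) (nat_lit 41441559) (nat_lit 14973096) [(nat_lit 492339), (nat_lit 1605358), (nat_lit 0), (nat_lit 8596458)]) (PF.cons (PF.leaf (nat_lit 5986727) (nat_lit 506771) (nat_lit 41003700) (nat_lit 14892761) [(nat_lit 506771), (nat_lit 1623523), (nat_lit 0), (nat_lit 8575284)]) (PF.cons (PF.leaf (nat_lit 6295339) (nat_lit 519430) (nat_lit 40551544) (nat_lit 14807737)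 [(nat_lit 519430), (nat_lit 1639911), (nat_lit 0), (nat_lit 8551326)]) (PF.cons (PF.leaf (nat_lit 6614041) (nat_lit 530603) (nat_lit 40088634) (nat_lit 14718546) [(nat_lit 530603), (nat_lit 1654559), (nat_lit 0), (nat_lit 8524657)]) (PF.cons (PF.leaf (nat_lit 6941030) (nat_lit 540499) (nat_lit 39617788) (nat_lit 14625627) [(nat_lit 540499), (nat_lit 1667533), (nat_lit 0), (nat_lit 8495367)]) (PF.cons (PF.leaf (nat_lit
 7274816) (nat_lit 549277) (nat_lit 39141306) (nat_lit 14529367) [(nat_lit 549277), (nat_lit 1678913), (nat_lit 0), (nat_lit 8463562)]) (PF.cons PF.nil (PF.cons PF.nil PF.nil))))))))) (PF.cons (PF.cons (PF.leaf (nat_lit 6102507) (nat_lit 1629945) (nat_lit 40509697) (nat_lit 14795806) [(nat_lit 0), (nat_lit 1629945), (nat_lit 0), (nat_lit 8543417)]) (PF.cons (PF.leaf (nat_lit 6402897) (nat_lit 520196) (nat_lit 40069827) (nat_lit 14710965) [(nat_lit 520196), (nat_lit 1644872), (nat_lit 0), (nat_lit 8518078)]) (PF.cons (PF.leaf (nat_lit 6714656) (nat_lit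 531209) (nat_lit 39618021) (nat_lit 14621813) [(nat_lit 531209), (nat_lit 1658243), (nat_lit 0), (nat_lit 8490071)]) (PF.cons (PF.leaf (nat_lit 7035367) (nat_lit 540914) (nat_lit 39157513) (nat_lit 14528874) [(nat_lit 540914), (nat_lit 1670086), (nat_lit 0), (nat_lit 8459508)]) (PF.cons (PF.leaf (nat_lit 7363329) (nat_lit 549488) (nat_lit 38690851) (nat_lit 14432585) [(nat_lit 549488), (nat_lit 1680455), (nat_lit 0), (nat_lit 8426510)]) (PF.cons (PF.leaf (nat_lit 7697149) (nat_lit 557068) (nat_lit 38220103) (nat_lit 14333327) [(nat_lit 557068), (nat_lit 1689419), (nat_lit 0), (nat_lit 8391200)]) (PF.cons PF.nil PF.nil))))))) (PF.cons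
 (PF.cons (PF.leaf (nat_lit 6816628) (nat_lit 1661178) (nat_lit 39148314) (nat_lit 14523231) [(nat_lit 0), (nat_lit 1661178), (nat_lit 0), (nat_lit 8453729)]) (PF.cons (PF.leaf (nat_lit 7130100) (nat_lit 540889) (nat_lit 38699299) (nat_lit 14430637) [(nat_lit 540889), (nat_lit 1671957), (nat_lit 0), (nat_lit 8422111)]) (PF.cons (PF.leaf (nat_lit 7451795) (nat_lit 549326) (nat_lit 38243296) (nat_lit 14334617) [(nat_lit 549326), (nat_lit 1681379), (nat_lit 0), (nat_lit 8388107)]) (PF.cons (PF.leaf (nat_lit 7779829) (nat_lit 556751) (nat_lit 37782623) (nat_lit 14235604) [(nat_lit 556751), (nat_lit 1689491), (nat_lit 0), (nat_lit 8351857)]) (PF.cons PF.nil PF.nil))))) (PF.cons (PF.cons (PF.leaf (nat_lit 7541055) (nat_lit 1681721) (nat_lit 37798140) (nat_lit 14235414) [(nat_lit 0), (nat_lit 1681721), (nat_lit 0), (nat_lit 8348373)]) (PF.cons (PF.leaf (nat_lit 7862595) (nat_lit 556102) (nat_lit 37348289) (nat_lit 14136924) [(nat_lit 556102), (nat_lit 1689034), (nat_lit 0),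 (nat_lit 8311360)]) (PF.cons (PF.leaf (nat_lit 8189970) (nat_lit 562518) (nat_lit 36895007) (nat_lit 14035775) [(nat_lit 562518), (nat_lit 1695175), (nat_lit 0), (nat_lit 8272290)]) (PF.cons PF.nil PF.nil)))) (PF.cons
 (PF.cons (PF.leaf (nat_lit 8267472) (nat_lit 1693543) (nat_lit 36474172) (nat_lit 13936823) [(nat_lit 0), (nat_lit 1693543), (nat_lit 0), (nat_lit 8230099)]) (PF.cons PF.nil PF.nil)) (PF.cons PF.nil (PF.cons PF.nil PF.nil)))))))) (PF.cons (PF.cons (PF.cons (PF.leaf (nat_lit 5910370) (nat_lit 3613828) (nat_lit 40256274) (nat_lit 14731245) [(nat_lit 0), (nat_lit 0), (nat_lit 3613828), (nat_lit 8507463)]) (PF.cons (PF.leaf (nat_lit 6191408) (nat_lit 502106) (nat_lit 39848343) (nat_lit 14652009) [(nat_lit 502106), (nat_lit 0), (nat_lit 3622535), (nat_lit 8483818)]) (PF.cons (PF.leaf (nat_lit 6486966) (nat_lit 515193) (nat_lit 39423549) (nat_lit 14567730) [(nat_lit 515193), (nat_lit 0), (nat_lit 3629717), (nat_lit 8457428)]) (PF.cons (PF.leaf (nat_lit 6793824)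 (nat_lit 526557) (nat_lit 38986320) (nat_lit 14479127) [(nat_lit 526557), (nat_lit 0), (nat_lit 3635258), (nat_lit 8428433)]) (PF.cons (PF.leaf (nat_lit 7109786) (nat_lit 536496) (nat_lit 38539993) (nat_lit 14386758) [(nat_lit 536496), (nat_lit 0), (nat_lit 3639111), (nat_lit 8396963)]) (PF.cons (PF.leaf (nat_lit 7433125) (nat_lit 545222) (nat_lit 38087187) (nat_lit 14291086) [(nat_lit 545222), (nat_lit 0), (nat_lit 3641276),
 (nat_lit 8363147)]) (PF.cons (PF.leaf (nat_lit 7762423) (nat_lit 552898) (nat_lit 37630014) (nat_lit 14192509) [(nat_lit 552898), (nat_lit 0), (nat_lit 3641784), (nat_lit 8327115)]) (PF.cons PF.nil (PF.cons PF.nil PF.nil))))))))) (PF.cons (PF.cons (PF.leaf (nat_lit 6595321) (nat_lit 1640183) (nat_lit 38951562) (nat_lit 14468292) [(nat_lit 0), (nat_lit 1640183), (nat_lit 3627877), (nat_lit 8420896)]) (PF.cons (PF.leaf (nat_lit 6893864) (nat_lit 526369) (nat_lit 38526997) (nat_lit 14380381) [(nat_lit 526369), (nat_lit 1652171), (nat_lit 3631895),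 (nat_lit 8390997)]) (PF.cons (PF.leaf (nat_lit 7202832) (nat_lit 536243) (nat_lit 38092062) (nat_lit 14288524) [(nat_lit 536243), (nat_lit 1662740), (nat_lit 3634366), (nat_lit 8358632)]) (PF.cons (PF.leaf (nat_lit 7519881) (nat_lit 544861) (nat_lit 37649795) (nat_lit 14193272) [(nat_lit 544861), (nat_lit 1671930), (nat_lit 3635274), (nat_lit 8323957)]) (PF.cons (PF.leaf (nat_lit 7843397) (nat_lit 552405) (nat_lit 37202561) (nat_lit 14095074) [(nat_lit 552405), (nat_lit 1679801), (nat_lit 3634634), (nat_lit 8287120)]) (PF.cons PF.nil (PF.cons PF.nil PF.nil))))))) (PF.cons (PF.cons (PF.leaf (nat_lit 7297446) (nat_lit 1663555) (nat_lit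
 37645429) (nat_lit 14188808) [(nat_lit 0), (nat_lit 1663555), (nat_lit 3628602), (nat_lit 8318862)]) (PF.cons (PF.leaf (nat_lit 7607272) (nat_lit 544107) (nat_lit 37214726) (nat_lit 14094314) [(nat_lit 544107), (nat_lit 1671890), (nat_lit 3628353), (nat_lit 8283528)]) (PF.cons (PF.leaf (nat_lit 7924562) (nat_lit 551582) (nat_lit 36778165) (nat_lit 13996768) [(nat_lit 551582), (nat_lit 1678999), (nat_lit 3626659), (nat_lit 8246054)]) (PF.cons (PF.leaf (nat_lit 8247517) (nat_lit 558096) (nat_lit 36337895) (nat_lit 13896608) [(nat_lit 558096), (nat_lit 1684933), (nat_lit 3623550), (nat_lit 8206600)]) (PF.cons PF.nil PF.nil))))) (PF.cons (PF.cons (PF.leaf (nat_lit 8006736) (nat_lit 1677721) (nat_lit 36356309) (nat_lit 13897523) [(nat_lit 0), (nat_lit 1677721), (nat_lit 3617893), (nat_lit 8203921)]) (PF.cons (PF.leaf (nat_lit 8323267) (nat_lit 556886) (nat_lit 35926730) (nat_lit 13798217) [(nat_lit 556886), (nat_lit 1683014), (nat_lit 3613904), (nat_lit 8164029)]) (PF.cons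 PF.nil (PF.cons PF.nil PF.nil)))) (PF.cons (PF.cons (PF.leaf (nat_lit 8715845) (nat_lit 1684388) (nat_lit 35096631) (nat_lit 13598477) [(nat_lit 0), (nat_lit 1684388), (nat_lit 3597564), (nat_lit 8078587)]) (PF.cons
 PF.nil PF.nil)) (PF.cons PF.nil PF.nil)))))) (PF.cons (PF.cons (PF.cons (PF.leaf (nat_lit 7070189) (nat_lit 3606939) (nat_lit 37470263) (nat_lit 14137265) [(nat_lit 0), (nat_lit 0), (nat_lit 3606939), (nat_lit 8287404)]) (PF.cons (PF.leaf (nat_lit 7366043) (nat_lit 530261) (nat_lit 37062118) (nat_lit 14047461) [(nat_lit 530261), (nat_lit 0), (nat_lit 3607500), (nat_lit 8253969)]) (PF.cons (PF.leaf (nat_lit 7671534) (nat_lit 539141) (nat_lit 36644905) (nat_lit 13954052) [(nat_lit 539141), (nat_lit 0), (nat_lit 3606654), (nat_lit 8218262)]) (PF.cons (PF.leaf (nat_lit 7984359) (nat_lit 546816) (nat_lit 36221473) (nat_lit 13857602) [(nat_lit 546816), (nat_lit 0), (nat_lit 3604408), (nat_lit 8180470)]) (PF.cons (PF.leaf (nat_lit 8302980) (nat_lit 553470) (nat_lit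 35794016) (nat_lit 13758565) [(nat_lit 553470), (nat_lit 0), (nat_lit 3600793), (nat_lit 8140761)]) PF.nil))))) (PF.cons (PF.cons (PF.leaf (nat_lit 7759263) (nat_lit 1660700) (nat_lit 36221199) (nat_lit 13854262) [(nat_lit 0), (nat_lit 1660700), (nat_lit 3598292), (nat_lit 8176066)]) (PF.cons (PF.leaf (nat_lit 8064924) (nat_lit 545476) (nat_lit 35809205) (nat_lit 13758895) [(nat_lit 545476), (nat_lit 1666992), (nat_lit
 3595151), (nat_lit 8137939)]) (PF.cons (PF.leaf (nat_lit 8377401) (nat_lit 552117) (nat_lit 35392263) (nat_lit 13660809) [(nat_lit 552117), (nat_lit 1672169), (nat_lit 3590720), (nat_lit 8097893)]) (PF.cons PF.nil PF.nil)))) (PF.cons (PF.cons (PF.leaf (nat_lit 8453012) (nat_lit 1669602) (nat_lit 34993084) (nat_lit 13562350) [(nat_lit 0), (nat_lit 1669602), (nat_lit 3580002), (nat_lit 8054169)]) (PF.cons (PF.leaf (nat_lit 8764254) (nat_lit 556184) (nat_lit 34583620) (nat_lit 13463090) [(nat_lit 556184), (nat_lit 1673209), (nat_lit 3573647), (nat_lit 8012203)])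 PF.nil)) (PF.cons PF.nil (PF.cons PF.nil PF.nil))))) (PF.cons (PF.cons (PF.cons (PF.leaf (nat_lit 8202821) (nat_lit 3561627) (nat_lit 34873525) (nat_lit 13522366) [(nat_lit 0), (nat_lit 0), (nat_lit 3561627), (nat_lit 8028037)]) (PF.cons (PF.leaf (nat_lit 8503930) (nat_lit 545335) (nat_lit 34480212) (nat_lit 13426949) [(nat_lit 545335), (nat_lit 0), (nat_lit 3556146), (nat_lit 7987875)]) (PF.cons (PF.leaf (nat_lit 8811318) (nat_lit 551249) (nat_lit 34082690) (nat_lit 13329108) [(nat_lit 551249), (nat_lit 0), (nat_lit 3549508), (nat_lit 7945990)]) (PF.cons PF.nil PF.nil)))) (PF.cons (PF.cons (PF.leaf (nat_lit 8880866) (nat_lit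
 1658211) (nat_lit 33705321) (nat_lit 13232063) [(nat_lit 0), (nat_lit 1658211), (nat_lit 3537299), (nat_lit 7901318)]) (PF.cons PF.nil PF.nil)) (PF.cons PF.nil PF.nil))) (PF.cons (PF.cons (PF.cons (PF.leaf (nat_lit 9291325) (nat_lit 3491008) (nat_lit 32489412) (nat_lit 12908270) [(nat_lit 0), (nat_lit 0), (nat_lit 3491008), (nat_lit 7747097)]) (PF.cons PF.nil PF.nil)) (PF.cons PF.nil PF.nil)) (PF.cons PF.nil PF.nil)))))) (PF.cons (PF.cons (PF.cons (PF.cons (PF.leaf (nat_lit 6597472) (nat_lit 8155665) (nat_lit 36861621) (nat_lit 13935860) [(nat_lit 0), (nat_lit 0), (nat_lit 0), (nat_lit 8155665)]) (PF.cons (PF.leaf (nat_lit 6868539) (nat_lit 495787) (nat_lit 36501296) (nat_lit 13856735) [(nat_lit 495787), (nat_lit 0), (nat_lit 0), (nat_lit 8127496)]) (PF.cons (PF.leaf (nat_lit 7152952) (nat_lit 507658) (nat_lit 36126665) (nat_lit 13773129) [(nat_lit 507658), (nat_lit 0), (nat_lit 0), (nat_lit 8096850)]) (PF.cons (PF.leaf (nat_lit 7447593) (nat_lit 517839) (nat_lit 35741613)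 (nat_lit 13685790) [(nat_lit 517839), (nat_lit 0), (nat_lit 0), (nat_lit 8063944)]) (PF.cons (PF.leaf (nat_lit 7750370) (nat_lit 526638) (nat_lit 35349042) (nat_lit 13595292) [(nat_lit 526638), (nat_lit 0),
 (nat_lit 0), (nat_lit 8028961)]) (PF.cons (PF.leaf (nat_lit 8059668) (nat_lit 534275) (nat_lit 34951210) (nat_lit 13502098) [(nat_lit 534275), (nat_lit 0), (nat_lit 0), (nat_lit 7992061)]) (PF.cons PF.nil PF.nil))))))) (PF.cons (PF.cons (PF.leaf (nat_lit 7249965) (nat_lit 1604421) (nat_lit 35714091) (nat_lit 13676261) [(nat_lit 0), (nat_lit 1604421), (nat_lit 0), (nat_lit 8057019)]) (PF.cons (PF.leaf (nat_lit 7536468) (nat_lit 516838) (nat_lit 35340519) (nat_lit 13590131) [(nat_lit 516838), (nat_lit 1613743), (nat_lit 0), (nat_lit 8023789)]) (PF.cons (PF.leaf (nat_lit 7832465) (nat_lit 525643) (nat_lit 34958236) (nat_lit 13500630) [(nat_lit 525643), (nat_lit 1621755), (nat_lit 0), (nat_lit 7988451)]) (PF.cons (PF.leaf (nat_lit 8135709) (nat_lit 533239) (nat_lit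 34569874) (nat_lit 13408308) [(nat_lit 533239), (nat_lit 1628518), (nat_lit 0), (nat_lit 7951196)]) (PF.cons (PF.leaf (nat_lit 8444686) (nat_lit 539813) (nat_lit 34177468) (nat_lit 13313604) [(nat_lit 539813), (nat_lit 1634103), (nat_lit 0), (nat_lit 7912192)]) PF.nil))))) (PF.cons (PF.cons (PF.leaf (nat_lit 7916376) (nat_lit 1620661) (nat_lit 34568664) (nat_lit 13404969) [(nat_lit 0), (nat_lit 1620661), (nat_lit 0),
 (nat_lit 7946927)]) (PF.cons (PF.leaf (nat_lit 8212652) (nat_lit 531866) (nat_lit 34190624) (nat_lit 13313807) [(nat_lit 531866), (nat_lit 1626771), (nat_lit 0), (nat_lit 7909485)]) (PF.cons (PF.leaf (nat_lit 8515699) (nat_lit 538429) (nat_lit 33807699) (nat_lit 13220127) [(nat_lit 538429), (nat_lit 1631780), (nat_lit 0), (nat_lit 7870283)]) (PF.cons PF.nil PF.nil)))) (PF.cons (PF.cons (PF.leaf (nat_lit 8587989) (nat_lit 1629099) (nat_lit 33440136) (nat_lit 13126079) [(nat_lit 0), (nat_lit 1629099), (nat_lit 0), (nat_lit 7827648)]) (PF.cons (PF.leaf (nat_lit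 8889978) (nat_lit 542411) (nat_lit 33063591) (nat_lit 13031455) [(nat_lit 542411), (nat_lit 1632588), (nat_lit 0), (nat_lit 7786794)]) PF.nil)) (PF.cons PF.nil PF.nil))))) (PF.cons (PF.cons (PF.cons (PF.leaf (nat_lit 7689370) (nat_lit 3489762) (nat_lit 34424000) (nat_lit 13358977) [(nat_lit 0), (nat_lit 0), (nat_lit 3489762), (nat_lit 7918036)]) (PF.cons (PF.leaf (nat_lit 7972901) (nat_lit 518661) (nat_lit 34065318) (nat_lit 13272351) [(nat_lit 518661), (nat_lit 0), (nat_lit 3487224), (nat_lit 7882628)]) (PF.cons (PF.leaf (nat_lit 8265270) (nat_lit 526618) (nat_lit 33698933) (nat_lit 13182637) [(nat_lit 526618), (nat_lit 0),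
 (nat_lit 3483457), (nat_lit 7845274)]) (PF.cons (PF.leaf (nat_lit 8564271) (nat_lit 533419) (nat_lit 33327312) (nat_lit 13090383) [(nat_lit 533419), (nat_lit 0), (nat_lit 3478493), (nat_lit 7806182)]) (PF.cons PF.nil PF.nil))))) (PF.cons (PF.cons (PF.leaf (nat_lit 8343234) (nat_lit 1613248) (nat_lit 33329382) (nat_lit 13088052) [(nat_lit 0), (nat_lit 1613248), (nat_lit 3473003), (nat_lit 7802562)]) (PF.cons (PF.leaf (nat_lit 8635366) (nat_lit 531611) (nat_lit 32967856) (nat_lit 12997159) [(nat_lit 531611), (nat_lit 1617747), (nat_lit 3467430), (nat_lit 7763503)]) (PF.cons (PF.leaf (nat_lit 8933736) (nat_lit 537476) (nat_lit 32602133) (nat_lit 12904009) [(nat_lit 537476), (nat_lit 1621243), (nat_lit 3460761), (nat_lit 7722855)]) (PF.cons PF.nil PF.nil)))) (PF.cons (PF.cons (PF.leaf (nat_lit 9000440) (nat_lit 1617641) (nat_lit 32254087) (nat_lit 12811571) [(nat_lit 0), (nat_lit 1617641), (nat_lit 3448676), (nat_lit 7679596)]) (PF.cons PF.nil PF.nil)) PF.nil))) (PF.cons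 (PF.cons (PF.cons (PF.leaf (nat_lit 8754148) (nat_lit 3431919) (nat_lit 32155917) (nat_lit 12776598) [(nat_lit 0), (nat_lit 0), (nat_lit 3431919), (nat_lit 7656228)]) (PF.cons (PF.leaf (nat_lit 9041881) (nat_lit
 530229) (nat_lit 31810638) (nat_lit 12686498) [(nat_lit 530229), (nat_lit 0), (nat_lit 3424657), (nat_lit 7616065)]) (PF.cons PF.nil PF.nil))) (PF.cons (PF.cons (PF.leaf (nat_lit 9396953) (nat_lit 1603891) (nat_lit 31132301) (nat_lit 12503900) [(nat_lit 0), (nat_lit 1603891), (nat_lit 3403364), (nat_lit 7530994)]) PF.nil) PF.nil)) (PF.cons PF.nil (PF.cons PF.nil PF.nil))))) (PF.cons (PF.cons (PF.cons (PF.cons (PF.leaf (nat_lit 8250396) (nat_lit 7560559) (nat_lit 31790603) (nat_lit 12636529) [(nat_lit 0), (nat_lit 0), (nat_lit 0), (nat_lit 7560559)]) (PF.cons (PF.leaf (nat_lit 8522419) (nat_lit 505671) (nat_lit 31474223) (nat_lit 12554397) [(nat_lit 505671), (nat_lit 0), (nat_lit 0), (nat_lit 7524839)]) (PF.cons (PF.leaf (nat_lit 8802658) (nat_lit 512888) (nat_lit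 31151180) (nat_lit 12469578) [(nat_lit 512888), (nat_lit 0), (nat_lit 0), (nat_lit 7487425)]) (PF.cons (PF.leaf (nat_lit 9088976) (nat_lit 518998) (nat_lit 30823621) (nat_lit 12382593) [(nat_lit 518998), (nat_lit 0), (nat_lit 0), (nat_lit 7448534)]) (PF.cons PF.nil PF.nil))))) (PF.cons (PF.cons (PF.leaf (nat_lit 8872649) (nat_lit 1563633) (nat_lit 30827325) (nat_lit 12381090) [(nat_lit 0), (nat_lit 1563633), (nat_lit 0),
 (nat_lit 7445587)]) (PF.cons (PF.leaf (nat_lit 9152395) (nat_lit 516894) (nat_lit 30508636) (nat_lit 12295579) [(nat_lit 516894), (nat_lit 1566855), (nat_lit 0), (nat_lit 7406948)]) (PF.cons PF.nil (PF.cons PF.nil PF.nil)))) (PF.cons (PF.cons (PF.leaf (nat_lit 9497404) (nat_lit 1564955) (nat_lit 29881181) (nat_lit 12122190) [(nat_lit 0), (nat_lit 1564955), (nat_lit 0), (nat_lit 7325176)]) (PF.cons PF.nil PF.nil)) PF.nil))) (PF.cons (PF.cons (PF.cons (PF.leaf (nat_lit 9255960) (nat_lit 3303956) (nat_lit 29799980) (nat_lit 12091686) [(nat_lit 0), (nat_lit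 0), (nat_lit 3303956), (nat_lit 7304396)]) (PF.cons (PF.leaf (nat_lit 9531503) (nat_lit 514724) (nat_lit 29495307) (nat_lit 12007402) [(nat_lit 514724), (nat_lit 0), (nat_lit 3295679), (nat_lit 7265232)]) PF.nil)) (PF.cons PF.nil PF.nil)) (PF.cons PF.nil PF.nil))) (PF.cons (PF.cons (PF.cons (PF.cons (PF.leaf (nat_lit 9717300) (nat_lit 6974949) (nat_lit 27743943) (nat_lit 11465071) [(nat_lit 0), (nat_lit 0), (nat_lit 0), (nat_lit 6974949)]) (PF.cons PF.nil PF.nil)) (PF.cons PF.nil PF.nil)) (PF.cons PF.nil PF.nil)) (PF.cons PF.nil (PF.cons PF.nil (PF.cons PF.nil PF.nil))))))))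

def p12_15_3_0 : pfC (piC [(nat_lit 36888796), (nat_lit 24534081), (nat_lit 18263511), (nat_lit 12310016)] (nat_lit 5638750)) p12_15_3 (nat_lit 4) (nat_lit 0) (nat_lit 1) = true := by decide +kernel
def p12_15_3_1 : pfC (piC [(nat_lit 36888796), (nat_lit 24534081), (nat_lit 18263511), (nat_lit 12310016)] (nat_lit 5638750)) p12_15_3 (nat_lit 4) (nat_lit 1) (nat_lit 2) = true := by decide +kernel
def p12_15_3_2 : pfC (piC [(nat_lit 36888796), (nat_lit 24534081), (nat_lit 18263511), (nat_lit 12310016)] (nat_lit 5638750)) p12_15_3 (nat_lit 4) (nat_lit 2) (nat_lit 3) = true := by decide +kernel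
def p12_15_3_3 : pfC (piC [(nat_lit 36888796), (nat_lit 24534081), (nat_lit 18263511), (nat_lit 12310016)] (nat_lit 5638750)) p12_15_3 (nat_lit 4) (nat_lit 3) (nat_lit 4) = true := by decide +kernel
def p12_15_3_4 : pfC (piC [(nat_lit 36888796), (nat_lit 24534081), (nat_lit 18263511), (nat_lit 12310016)] (nat_lit 5638750)) p12_15_3 (nat_lit 4) (nat_lit 4) (nat_lit 5) = true := by decide +kernel
def p12_15_3_5 : pfC (piC [(nat_lit 36888796), (nat_lit 24534081), (nat_lit 18263511), (nat_lit 12310016)] (nat_lit 5638750)) p12_15_3 (nat_lit 4) (nat_lit 5) (nat_lit 6) = true := by decide +kernel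
def p12_15_3_6 : pfC (piC [(nat_lit 36888796), (nat_lit 24534081), (nat_lit 18263511), (nat_lit 12310016)] (nat_lit 5638750)) p12_15_3 (nat_lit 4) (nat_lit 6) (nat_lit 7) = true := by decide +kernel
def p12_15_3_7 : pfC (piC [(nat_lit 36888796), (nat_lit 24534081), (nat_lit 18263511), (nat_lit 12310016)] (nat_lit 5638750)) p12_15_3 (nat_lit 4) (nat_lit 7) (nat_lit 8) = true := by decide +kernel
def p12_15_3_8 : pfC (piC [(nat_lit 36888796), (nat_lit 24534081), (nat_lit 18263511), (nat_lit 12310016)] (nat_lit 5638750)) p12_15_3 (nat_lit 4) (nat_lit 8) (nat_lit 9) = true := by decide +kernel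
def p12_15_3_9 : pfC (piC [(nat_lit 36888796), (nat_lit 24534081), (nat_lit 18263511), (nat_lit 12310016)] (nat_lit 5638750)) p12_15_3 (nat_lit 4) (nat_lit 9) (nat_lit 10) = true := by decide +kernel
def p12_15_3_10 : pfC (piC [(nat_lit 36888796), (nat_lit 24534081), (nat_lit 18263511), (nat_lit 12310016)] (nat_lit 5638750)) p12_15_3 (nat_lit 4) (nat_lit 10) (nat_lit 11) = true := by decide +kernel
def p12_15_3_11 : pfC (piC [(nat_lit 36888796), (nat_lit 24534081), (nat_lit 18263511), (nat_lit 12310016)] (nat_lit 5638750)) p12_15_3 (nat_lit 4) (nat_lit 11) (nat_lit 12) = true := by decide +kernel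
def p12_15_3_12 : pfC (piC [(nat_lit 36888796), (nat_lit 24534081), (nat_lit 18263511), (nat_lit 12310016)] (nat_lit 5638750)) p12_15_3 (nat_lit 4) (nat_lit 12) (nat_lit 13) = true := by decide +kernel
def p12_15_3_13 : pfC (piC [(nat_lit 36888796), (nat_lit 24534081), (nat_lit 18263511), (nat_lit 12310016)] (nat_lit 5638750)) p12_15_3 (nat_lit 4) (nat_lit 13) (nat_lit 14) = true := by decide +kernel
def p12_15_3_14 : pfC (piC [(nat_lit 36888796), (nat_lit 24534081), (nat_lit 18263511), (nat_lit 12310016)] (nat_lit 5638750)) p12_15_3 (nat_lit 4) (nat_lit 14) (nat_lit 15) = true := by decide +kernel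
def p12_15_3_15 : pfC (piC [(nat_lit 36888796), (nat_lit 24534081), (nat_lit 18263511), (nat_lit 12310016)] (nat_lit 5638750)) p12_15_3 (nat_lit 4) (nat_lit 15) (nat_lit 16) = true := by decide +kernel
def p12_15_3_16 : pfC (piC [(nat_lit 36888796), (nat_lit 24534081), (nat_lit 18263511), (nat_lit 12310016)] (nat_lit 5638750)) p12_15_3 (nat_lit 4) (nat_lit 16) (nat_lit 17) = true := by decide +kernel
def p12_15_3_17 : pfC (piC [(nat_lit 36888796), (nat_lit 24534081), (nat_lit 18263511), (nat_lit 12310016)] (nat_lit 5638750)) p12_15_3 (nat_lit 4) (nat_lit 17) (nat_lit 18) = true := by decide +kernel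
def p12_15_3_18 : pfC (piC [(nat_lit 36888796), (nat_lit 24534081), (nat_lit 18263511), (nat_lit 12310016)] (nat_lit 5638750)) p12_15_3 (nat_lit 4) (nat_lit 18) (nat_lit 19) = true := by decide +kernel
def p12_15_3_19 : pfC (piC [(nat_lit 36888796), (nat_lit 24534081), (nat_lit 18263511), (nat_lit 12310016)] (nat_lit 5638750)) p12_15_3 (nat_lit 4) (nat_lit 19) (nat_lit 20) = true := by decide +kernel
def p12_15_3_20 : pfC (piC [(nat_lit 36888796), (nat_lit 24534081), (nat_lit 18263511), (nat_lit 12310016)] (nat_lit 5638750)) p12_15_3 (nat_lit 4) (nat_lit 20) (nat_lit 21) = true := by decide +kernel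
def p12_15_3_21 : pfC (piC [(nat_lit 36888796), (nat_lit 24534081), (nat_lit 18263511), (nat_lit 12310016)] (nat_lit 5638750)) p12_15_3 (nat_lit 4) (nat_lit 21) (nat_lit 22) = true := by decide +kernel
def p12_15_3_22 : pfC (piC [(nat_lit 36888796), (nat_lit 24534081), (nat_lit 18263511), (nat_lit 12310016)] (nat_lit 5638750)) p12_15_3 (nat_lit 4) (nat_lit 22) (nat_lit 23) = true := by decide +kernel
def p12_15_3_23 : pfC (piC [(nat_lit 36888796), (nat_lit 24534081), (nat_lit 18263511), (nat_lit 12310016)] (nat_lit 5638750)) p12_15_3 (nat_lit 4) (nat_lit 23) (nat_lit 24) = true := by decide +kernel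
def p12_15_3_24 : pfC (piC [(nat_lit 36888796), (nat_lit 24534081), (nat_lit 18263511), (nat_lit 12310016)] (nat_lit 5638750)) p12_15_3 (nat_lit 4) (nat_lit 24) (nat_lit 25) = true := by decide +kernel
def p12_15_3_25 : pfC (piC [(nat_lit 36888796), (nat_lit 24534081), (nat_lit 18263511), (nat_lit 12310016)] (nat_lit 5638750)) p12_15_3 (nat_lit 4) (nat_lit 25) (nat_lit 26) = true := by decide +kernel
def p12_15_3_26 : pfC (piC [(nat_lit 36888796), (nat_lit 24534081), (nat_lit 18263511), (nat_lit 12310016)] (nat_lit 5638750)) p12_15_3 (nat_lit 4) (nat_lit 26) (nat_lit 27) = true := by decide +kernel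
def p12_15_3_27 : pfC (piC [(nat_lit 36888796), (nat_lit 24534081), (nat_lit 18263511), (nat_lit 12310016)] (nat_lit 5638750)) p12_15_3 (nat_lit 4) (nat_lit 27) (nat_lit 28) = true := by decide +kernel
def p12_15_3_28 : pfC (piC [(nat_lit 36888796), (nat_lit 24534081), (nat_lit 18263511), (nat_lit 12310016)] (nat_lit 5638750)) p12_15_3 (nat_lit 4) (nat_lit 28) (nat_lit 29) = true := by decide +kernel
def p12_15_3_29 : pfC (piC [(nat_lit 36888796), (nat_lit 24534081), (nat_lit 18263511), (nat_lit 12310016)] (nat_lit 5638750)) p12_15_3 (nat_lit 4) (nat_lit 29) (nat_lit 30) = true := by decide +kernel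
def p12_15_3_30 : pfC (piC [(nat_lit 36888796), (nat_lit 24534081), (nat_lit 18263511), (nat_lit 12310016)] (nat_lit 5638750)) p12_15_3 (nat_lit 4) (nat_lit 30) (nat_lit 31) = true := by decide +kernel
def p12_15_3_31 : pfC (piC [(nat_lit 36888796), (nat_lit 24534081), (nat_lit 18263511), (nat_lit 12310016)] (nat_lit 5638750)) p12_15_3 (nat_lit 4) (nat_lit 31) (nat_lit 32) = true := by decide +kernel
def p12_15_3_32 : pfC (piC [(nat_lit 36888796), (nat_lit 24534081), (nat_lit 18263511), (nat_lit 12310016)] (nat_lit 5638750)) p12_15_3 (nat_lit 4) (nat_lit 32) (nat_lit 33) = true := by decide +kernel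
def p12_15_3_33 : pfC (piC [(nat_lit 36888796), (nat_lit 24534081), (nat_lit 18263511), (nat_lit 12310016)] (nat_lit 5638750)) p12_15_3 (nat_lit 4) (nat_lit 33) (nat_lit 34) = true := by decide +kernel
def p12_15_3_34 : pfC (piC [(nat_lit 36888796), (nat_lit 24534081), (nat_lit 18263511), (nat_lit 12310016)] (nat_lit 5638750)) p12_15_3 (nat_lit 4) (nat_lit 34) (nat_lit 35) = true := by decide +kernel
def p12_15_3_35 : pfC (piC [(nat_lit 36888796), (nat_lit 24534081), (nat_lit 18263511), (nat_lit 12310016)] (nat_lit 5638750)) p12_15_3 (nat_lit 4) (nat_lit 35) (nat_lit 36) = true := by decide +kernel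
def p12_15_3_36 : pfC (piC [(nat_lit 36888796), (nat_lit 24534081), (nat_lit 18263511), (nat_lit 12310016)] (nat_lit 5638750)) p12_15_3 (nat_lit 4) (nat_lit 36) (nat_lit 37) = true := by decide +kernel
def p12_15_3_37 : pfC (piC [(nat_lit 36888796), (nat_lit 24534081), (nat_lit 18263511), (nat_lit 12310016)] (nat_lit 5638750)) p12_15_3 (nat_lit 4) (nat_lit 37) (nat_lit 38) = true := by decide +kernel
def p12_15_3_38 : pfC (piC [(nat_lit 36888796), (nat_lit 24534081), (nat_lit 18263511), (nat_lit 12310016)] (nat_lit 5638750)) p12_15_3 (nat_lit 4) (nat_lit 38) (nat_lit 39) = true := by decide +kernel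
def p12_15_3_39 : pfC (piC [(nat_lit 36888796), (nat_lit 24534081), (nat_lit 18263511), (nat_lit 12310016)] (nat_lit 5638750)) p12_15_3 (nat_lit 4) (nat_lit 39) (nat_lit 40) = true := by decide +kernel
def p12_15_3_40 : pfC (piC [(nat_lit 36888796), (nat_lit 24534081), (nat_lit 18263511), (nat_lit 12310016)] (nat_lit 5638750)) p12_15_3 (nat_lit 4) (nat_lit 40) (nat_lit 41) = true := by decide +kernel
def p12_15_3_41 : pfC (piC [(nat_lit 36888796), (nat_lit 24534081), (nat_lit 18263511), (nat_lit 12310016)] (nat_lit 5638750)) p12_15_3 (nat_lit 4) (nat_lit 41) (nat_lit 42) = true := by decide +kernel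
def p12_15_3_42 : pfC (piC [(nat_lit 36888796), (nat_lit 24534081), (nat_lit 18263511), (nat_lit 12310016)] (nat_lit 5638750)) p12_15_3 (nat_lit 4) (nat_lit 42) (nat_lit 43) = true := by decide +kernel
def p12_15_3_43 : pfC (piC [(nat_lit 36888796), (nat_lit 24534081), (nat_lit 18263511), (nat_lit 12310016)] (nat_lit 5638750)) p12_15_3 (nat_lit 4) (nat_lit 43) (nat_lit 44) = true := by decide +kernel
def p12_15_3_44 : pfC (piC [(nat_lit 36888796), (nat_lit 24534081), (nat_lit 18263511), (nat_lit 12310016)] (nat_lit 5638750)) p12_15_3 (nat_lit 4) (nat_lit 44) (nat_lit 45) = true := by decide +kernel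
def p12_15_3_45 : pfC (piC [(nat_lit 36888796), (nat_lit 24534081), (nat_lit 18263511), (nat_lit 12310016)] (nat_lit 5638750)) p12_15_3 (nat_lit 4) (nat_lit 45) (nat_lit 46) = true := by decide +kernel
def p12_15_3_46 : pfC (piC [(nat_lit 36888796), (nat_lit 24534081), (nat_lit 18263511), (nat_lit 12310016)] (nat_lit 5638750)) p12_15_3 (nat_lit 4) (nat_lit 46) (nat_lit 47) = true := by decide +kernel
def p12_15_3_47 : pfC (piC [(nat_lit 36888796), (nat_lit 24534081), (nat_lit 18263511), (nat_lit 12310016)] (nat_lit 5638750)) p12_15_3 (nat_lit 4) (nat_lit 47) (nat_lit 48) = true := by decide +kernel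
def p12_15_3_48 : pfC (piC [(nat_lit 36888796), (nat_lit 24534081), (nat_lit 18263511), (nat_lit 12310016)] (nat_lit 5638750)) p12_15_3 (nat_lit 4) (nat_lit 48) (nat_lit 49) = true := by decide +kernel
def p12_15_3_49 : pfC (piC [(nat_lit 36888796), (nat_lit 24534081), (nat_lit 18263511), (nat_lit 12310016)] (nat_lit 5638750)) p12_15_3 (nat_lit 4) (nat_lit 49) (nat_lit 50) = true := by decide +kernel
def p12_15_3_50 : pfC (piC [(nat_lit 36888796), (nat_lit 24534081), (nat_lit 18263511), (nat_lit 12310016)] (nat_lit 5638750)) p12_15_3 (nat_lit 4) (nat_lit 50) (nat_lit 51) = true := by decide +kernel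
def p12_15_3_51 : pfC (piC [(nat_lit 36888796), (nat_lit 24534081), (nat_lit 18263511), (nat_lit 12310016)] (nat_lit 5638750)) p12_15_3 (nat_lit 4) (nat_lit 51) (nat_lit 52) = true := by decide +kernel
def p12_15_3_52 : pfC (piC [(nat_lit 36888796), (nat_lit 24534081), (nat_lit 18263511), (nat_lit 12310016)] (nat_lit 5638750)) p12_15_3 (nat_lit 4) (nat_lit 52) (nat_lit 53) = true := by decide +kernel
def p12_15_3_53 : pfC (piC [(nat_lit 36888796), (nat_lit 24534081), (nat_lit 18263511), (nat_lit 12310016)] (nat_lit 5638750)) p12_15_3 (nat_lit 4) (nat_lit 53) (nat_lit 54) = true := by decide +kernel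
def p12_15_3_54 : pfC (piC [(nat_lit 36888796), (nat_lit 24534081), (nat_lit 18263511), (nat_lit 12310016)] (nat_lit 5638750)) p12_15_3 (nat_lit 4) (nat_lit 54) (nat_lit 55) = true := by decide +kernel
def p12_15_3_55 : pfC (piC [(nat_lit 36888796), (nat_lit 24534081), (nat_lit 18263511), (nat_lit 12310016)] (nat_lit 5638750)) p12_15_3 (nat_lit 4) (nat_lit 55) (nat_lit 56) = true := by decide +kernel
def p12_15_3_56 : pfC (piC [(nat_lit 36888796), (nat_lit 24534081), (nat_lit 18263511), (nat_lit 12310016)] (nat_lit 5638750)) p12_15_3 (nat_lit 4) (nat_lit 56) (nat_lit 57) = true := by decide +kernel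
def p12_15_3_57 : pfC (piC [(nat_lit 36888796), (nat_lit 24534081), (nat_lit 18263511), (nat_lit 12310016)] (nat_lit 5638750)) p12_15_3 (nat_lit 4) (nat_lit 57) (nat_lit 58) = true := by decide +kernel
def p12_15_3_58 : pfC (piC [(nat_lit 36888796), (nat_lit 24534081), (nat_lit 18263511), (nat_lit 12310016)] (nat_lit 5638750)) p12_15_3 (nat_lit 4) (nat_lit 58) (nat_lit 59) = true := by decide +kernel
def p12_15_3_59 : pfC (piC [(nat_lit 36888796), (nat_lit 24534081), (nat_lit 18263511), (nat_lit 12310016)] (nat_lit 5638750)) p12_15_3 (nat_lit 4) (nat_lit 59) (nat_lit 60) = true := by decide +kernel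
def p12_15_3_60 : pfC (piC [(nat_lit 36888796), (nat_lit 24534081), (nat_lit 18263511), (nat_lit 12310016)] (nat_lit 5638750)) p12_15_3 (nat_lit 4) (nat_lit 60) (nat_lit 61) = true := by decide +kernel
def p12_15_3_61 : pfC (piC [(nat_lit 36888796), (nat_lit 24534081), (nat_lit 18263511), (nat_lit 12310016)] (nat_lit 5638750)) p12_15_3 (nat_lit 4) (nat_lit 61) (nat_lit 62) = true := by decide +kernel
def p12_15_3_62 : pfC (piC [(nat_lit 36888796), (nat_lit 24534081), (nat_lit 18263511), (nat_lit 12310016)] (nat_lit 5638750)) p12_15_3 (nat_lit 4) (nat_lit 62) (nat_lit 63) = true := by decide +kernel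
def p12_15_3_63 : pfC (piC [(nat_lit 36888796), (nat_lit 24534081), (nat_lit 18263511), (nat_lit 12310016)] (nat_lit 5638750)) p12_15_3 (nat_lit 4) (nat_lit 63) (nat_lit 64) = true := by decide +kernel
def p12_15_3_64 : pfC (piC [(nat_lit 36888796), (nat_lit 24534081), (nat_lit 18263511), (nat_lit 12310016)] (nat_lit 5638750)) p12_15_3 (nat_lit 4) (nat_lit 64) (nat_lit 65) = true := by decide +kernel
def p12_15_3_65 : pfC (piC [(nat_lit 36888796), (nat_lit 24534081), (nat_lit 18263511), (nat_lit 12310016)] (nat_lit 5638750)) p12_15_3 (nat_lit 4) (nat_lit 65) (nat_lit 66) = true := by decide +kernel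
def p12_15_3_66 : pfC (piC [(nat_lit 36888796), (nat_lit 24534081), (nat_lit 18263511), (nat_lit 12310016)] (nat_lit 5638750)) p12_15_3 (nat_lit 4) (nat_lit 66) (nat_lit 67) = true := by decide +kernel
def p12_15_3_67 : pfC (piC [(nat_lit 36888796), (nat_lit 24534081), (nat_lit 18263511), (nat_lit 12310016)] (nat_lit 5638750)) p12_15_3 (nat_lit 4) (nat_lit 67) (nat_lit 68) = true := by decide +kernel
def p12_15_3_68 : pfC (piC [(nat_lit 36888796), (nat_lit 24534081), (nat_lit 18263511), (nat_lit 12310016)] (nat_lit 5638750)) p12_15_3 (nat_lit 4) (nat_lit 68) (nat_lit 69) = true := by decide +kernel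
def p12_15_3_69 : pfC (piC [(nat_lit 36888796), (nat_lit 24534081), (nat_lit 18263511), (nat_lit 12310016)] (nat_lit 5638750)) p12_15_3 (nat_lit 4) (nat_lit 69) (nat_lit 70) = true := by decide +kernel
def p12_15_3_70 : pfC (piC [(nat_lit 36888796), (nat_lit 24534081), (nat_lit 18263511), (nat_lit 12310016)] (nat_lit 5638750)) p12_15_3 (nat_lit 4) (nat_lit 70) (nat_lit 71) = true := by decide +kernel
def p12_15_3_71 : pfC (piC [(nat_lit 36888796), (nat_lit 24534081), (nat_lit 18263511), (nat_lit 12310016)] (nat_lit 5638750)) p12_15_3 (nat_lit 4) (nat_lit 71) (nat_lit 72) = true := by decide +kernel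
def p12_15_3_72 : pfC (piC [(nat_lit 36888796), (nat_lit 24534081), (nat_lit 18263511), (nat_lit 12310016)] (nat_lit 5638750)) p12_15_3 (nat_lit 4) (nat_lit 72) (nat_lit 73) = true := by decide +kernel
def p12_15_3_73 : pfC (piC [(nat_lit 36888796), (nat_lit 24534081), (nat_lit 18263511), (nat_lit 12310016)] (nat_lit 5638750)) p12_15_3 (nat_lit 4) (nat_lit 73) (nat_lit 74) = true := by decide +kernel
def p12_15_3_74 : pfC (piC [(nat_lit 36888796), (nat_lit 24534081), (nat_lit 18263511), (nat_lit 12310016)] (nat_lit 5638750)) p12_15_3 (nat_lit 4) (nat_lit 74) (nat_lit 75) = true := by decide +kernel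
def p12_15_3_75 : pfC (piC [(nat_lit 36888796), (nat_lit 24534081), (nat_lit 18263511), (nat_lit 12310016)] (nat_lit 5638750)) p12_15_3 (nat_lit 4) (nat_lit 75) (nat_lit 76) = true := by decide +kernel
def p12_15_3_76 : pfC (piC [(nat_lit 36888796), (nat_lit 24534081), (nat_lit 18263511), (nat_lit 12310016)] (nat_lit 5638750)) p12_15_3 (nat_lit 4) (nat_lit 76) (nat_lit 77) = true := by decide +kernel
def p12_15_3_77 : pfC (piC [(nat_lit 36888796), (nat_lit 24534081), (nat_lit 18263511), (nat_lit 12310016)] (nat_lit 5638750)) p12_15_3 (nat_lit 4) (nat_lit 77) (nat_lit 78) = true := by decide +kernel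
def p12_15_3_78 : pfC (piC [(nat_lit 36888796), (nat_lit 24534081), (nat_lit 18263511), (nat_lit 12310016)] (nat_lit 5638750)) p12_15_3 (nat_lit 4) (nat_lit 78) (nat_lit 79) = true := by decide +kernel
def p12_15_3_79 : pfC (piC [(nat_lit 36888796), (nat_lit 24534081), (nat_lit 18263511), (nat_lit 12310016)] (nat_lit 5638750)) p12_15_3 (nat_lit 4) (nat_lit 79) (nat_lit 80) = true := by decide +kernel
def p12_15_3_80 : pfC (piC [(nat_lit 36888796), (nat_lit 24534081), (nat_lit 18263511), (nat_lit 12310016)] (nat_lit 5638750)) p12_15_3 (nat_lit 4) (nat_lit 80) (nat_lit 81) = true := by decide +kernel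
def p12_15_3_81 : pfC (piC [(nat_lit 36888796), (nat_lit 24534081), (nat_lit 18263511), (nat_lit 12310016)] (nat_lit 5638750)) p12_15_3 (nat_lit 4) (nat_lit 81) (nat_lit 82) = true := by decide +kernel
def p12_15_3_82 : pfC (piC [(nat_lit 36888796), (nat_lit 24534081), (nat_lit 18263511), (nat_lit 12310016)] (nat_lit 5638750)) p12_15_3 (nat_lit 4) (nat_lit 82) (nat_lit 83) = true := by decide +kernel
def p12_15_3_83 : pfC (piC [(nat_lit 36888796), (nat_lit 24534081), (nat_lit 18263511), (nat_lit 12310016)] (nat_lit 5638750)) p12_15_3 (nat_lit 4) (nat_lit 83) (nat_lit 84) = true := by decide +kernel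
def p12_15_3_84 : pfC (piC [(nat_lit 36888796), (nat_lit 24534081), (nat_lit 18263511), (nat_lit 12310016)] (nat_lit 5638750)) p12_15_3 (nat_lit 4) (nat_lit 84) (nat_lit 85) = true := by decide +kernel
def p12_15_3_85 : pfC (piC [(nat_lit 36888796), (nat_lit 24534081), (nat_lit 18263511), (nat_lit 12310016)] (nat_lit 5638750)) p12_15_3 (nat_lit 4) (nat_lit 85) (nat_lit 86) = true := by decide +kernel
def p12_15_3_86 : pfC (piC [(nat_lit 36888796), (nat_lit 24534081), (nat_lit 18263511), (nat_lit 12310016)] (nat_lit 5638750)) p12_15_3 (nat_lit 4) (nat_lit 86) (nat_lit 87) = true := by decide +kernel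
def p12_15_3_87 : pfC (piC [(nat_lit 36888796), (nat_lit 24534081), (nat_lit 18263511), (nat_lit 12310016)] (nat_lit 5638750)) p12_15_3 (nat_lit 4) (nat_lit 87) (nat_lit 88) = true := by decide +kernel
def p12_15_3_88 : pfC (piC [(nat_lit 36888796), (nat_lit 24534081), (nat_lit 18263511), (nat_lit 12310016)] (nat_lit 5638750)) p12_15_3 (nat_lit 4) (nat_lit 88) (nat_lit 89) = true := by decide +kernel
def p12_15_3_89 : pfC (piC [(nat_lit 36888796), (nat_lit 24534081), (nat_lit 18263511), (nat_lit 12310016)] (nat_lit 5638750)) p12_15_3 (nat_lit 4) (nat_lit 89) (nat_lit 90) = true := by decide +kernel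
def p12_15_3_90 : pfC (piC [(nat_lit 36888796), (nat_lit 24534081), (nat_lit 18263511), (nat_lit 12310016)] (nat_lit 5638750)) p12_15_3 (nat_lit 4) (nat_lit 90) (nat_lit 91) = true := by decide +kernel
def p12_15_3_91 : pfC (piC [(nat_lit 36888796), (nat_lit 24534081), (nat_lit 18263511), (nat_lit 12310016)] (nat_lit 5638750)) p12_15_3 (nat_lit 4) (nat_lit 91) (nat_lit 92) = true := by decide +kernel
def p12_15_3_92 : pfC (piC [(nat_lit 36888796), (nat_lit 24534081), (nat_lit 18263511), (nat_lit 12310016)] (nat_lit 5638750)) p12_15_3 (nat_lit 4) (nat_lit 92) (nat_lit 93) = true := by decide +kernel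
def p12_15_3_93 : pfC (piC [(nat_lit 36888796), (nat_lit 24534081), (nat_lit 18263511), (nat_lit 12310016)] (nat_lit 5638750)) p12_15_3 (nat_lit 4) (nat_lit 93) (nat_lit 94) = true := by decide +kernel
def p12_15_3_94 : pfC (piC [(nat_lit 36888796), (nat_lit 24534081), (nat_lit 18263511), (nat_lit 12310016)] (nat_lit 5638750)) p12_15_3 (nat_lit 4) (nat_lit 94) (nat_lit 95) = true := by decide +kernel
def p12_15_3_95 : pfC (piC [(nat_lit 36888796), (nat_lit 24534081), (nat_lit 18263511), (nat_lit 12310016)] (nat_lit 5638750)) p12_15_3 (nat_lit 4) (nat_lit 95) (nat_lit 96) = true := by decide +kernel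
def p12_15_3_96 : pfC (piC [(nat_lit 36888796), (nat_lit 24534081), (nat_lit 18263511), (nat_lit 12310016)] (nat_lit 5638750)) p12_15_3 (nat_lit 4) (nat_lit 96) (nat_lit 97) = true := by decide +kernel
def p12_15_3_97 : pfC (piC [(nat_lit 36888796), (nat_lit 24534081), (nat_lit 18263511), (nat_lit 12310016)] (nat_lit 5638750)) p12_15_3 (nat_lit 4) (nat_lit 97) (nat_lit 98) = true := by decide +kernel
def p12_15_3_98 : pfC (piC [(nat_lit 36888796), (nat_lit 24534081), (nat_lit 18263511), (nat_lit 12310016)] (nat_lit 5638750)) p12_15_3 (nat_lit 4) (nat_lit 98) (nat_lit 99) = true := by decide +kernel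
def p12_15_3_99 : pfC (piC [(nat_lit 36888796), (nat_lit 24534081), (nat_lit 18263511), (nat_lit 12310016)] (nat_lit 5638750)) p12_15_3 (nat_lit 4) (nat_lit 99) (nat_lit 100) = true := by decide +kernel
def p12_15_3_100 : pfC (piC [(nat_lit 36888796), (nat_lit 24534081), (nat_lit 18263511), (nat_lit 12310016)] (nat_lit 5638750)) p12_15_3 (nat_lit 4) (nat_lit 100) (nat_lit 101) = true := by decide +kernel
def p12_15_3_101 : pfC (piC [(nat_lit 36888796), (nat_lit 24534081), (nat_lit 18263511), (nat_lit 12310016)] (nat_lit 5638750)) p12_15_3 (nat_lit 4) (nat_lit 101) (nat_lit 102) = true := by decide +kernel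
def p12_15_3_102 : pfC (piC [(nat_lit 36888796), (nat_lit 24534081), (nat_lit 18263511), (nat_lit 12310016)] (nat_lit 5638750)) p12_15_3 (nat_lit 4) (nat_lit 102) (nat_lit 103) = true := by decide +kernel
def p12_15_3_103 : pfC (piC [(nat_lit 36888796), (nat_lit 24534081), (nat_lit 18263511), (nat_lit 12310016)] (nat_lit 5638750)) p12_15_3 (nat_lit 4) (nat_lit 103) (nat_lit 104) = true := by decide +kernel
def p12_15_3_104 : pfC (piC [(nat_lit 36888796), (nat_lit 24534081), (nat_lit 18263511), (nat_lit 12310016)] (nat_lit 5638750)) p12_15_3 (nat_lit 4) (nat_lit 104) (nat_lit 105) = true := by decide +kernel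
def p12_15_3_105 : pfC (piC [(nat_lit 36888796), (nat_lit 24534081), (nat_lit 18263511), (nat_lit 12310016)] (nat_lit 5638750)) p12_15_3 (nat_lit 4) (nat_lit 105) (nat_lit 106) = true := by decide +kernel
def p12_15_3_106 : pfC (piC [(nat_lit 36888796), (nat_lit 24534081), (nat_lit 18263511), (nat_lit 12310016)] (nat_lit 5638750)) p12_15_3 (nat_lit 4) (nat_lit 106) (nat_lit 107) = true := by decide +kernel
def p12_15_3_107 : pfC (piC [(nat_lit 36888796), (nat_lit 24534081), (nat_lit 18263511), (nat_lit 12310016)] (nat_lit 5638750)) p12_15_3 (nat_lit 4) (nat_lit 107) (nat_lit 108) = true := by decide +kernel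
def p12_15_3_108 : pfC (piC [(nat_lit 36888796), (nat_lit 24534081), (nat_lit 18263511), (nat_lit 12310016)] (nat_lit 5638750)) p12_15_3 (nat_lit 4) (nat_lit 108) (nat_lit 109) = true := by decide +kernel
def p12_15_3_109 : pfC (piC [(nat_lit 36888796), (nat_lit 24534081), (nat_lit 18263511), (nat_lit 12310016)] (nat_lit 5638750)) p12_15_3 (nat_lit 4) (nat_lit 109) (nat_lit 110) = true := by decide +kernel
def p12_15_3_110 : pfC (piC [(nat_lit 36888796), (nat_lit 24534081), (nat_lit 18263511), (nat_lit 12310016)] (nat_lit 5638750)) p12_15_3 (nat_lit 4) (nat_lit 110) (nat_lit 111) = true := by decide +kernel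
def p12_15_3_111 : pfC (piC [(nat_lit 36888796), (nat_lit 24534081), (nat_lit 18263511), (nat_lit 12310016)] (nat_lit 5638750)) p12_15_3 (nat_lit 4) (nat_lit 111) (nat_lit 112) = true := by decide +kernel
def p12_15_3_112 : pfC (piC [(nat_lit 36888796), (nat_lit 24534081), (nat_lit 18263511), (nat_lit 12310016)] (nat_lit 5638750)) p12_15_3 (nat_lit 4) (nat_lit 112) (nat_lit 113) = true := by decide +kernel
def p12_15_3_113 : pfC (piC [(nat_lit 36888796), (nat_lit 24534081), (nat_lit 18263511), (nat_lit 12310016)] (nat_lit 5638750)) p12_15_3 (nat_lit 4) (nat_lit 113) (nat_lit 114) = true := by decide +kernel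
def p12_15_3_114 : pfC (piC [(nat_lit 36888796), (nat_lit 24534081), (nat_lit 18263511), (nat_lit 12310016)] (nat_lit 5638750)) p12_15_3 (nat_lit 4) (nat_lit 114) (nat_lit 115) = true := by decide +kernel
def p12_15_3_115 : pfC (piC [(nat_lit 36888796), (nat_lit 24534081), (nat_lit 18263511), (nat_lit 12310016)] (nat_lit 5638750)) p12_15_3 (nat_lit 4) (nat_lit 115) (nat_lit 116) = true := by decide +kernel
def p12_15_3_116 : pfC (piC [(nat_lit 36888796), (nat_lit 24534081), (nat_lit 18263511), (nat_lit 12310016)] (nat_lit 5638750)) p12_15_3 (nat_lit 4) (nat_lit 116) (nat_lit 117) = true := by decide +kernel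
def p12_15_3_117 : pfC (piC [(nat_lit 36888796), (nat_lit 24534081), (nat_lit 18263511), (nat_lit 12310016)] (nat_lit 5638750)) p12_15_3 (nat_lit 4) (nat_lit 117) (nat_lit 118) = true := by decide +kernel
def p12_15_3_118 : pfC (piC [(nat_lit 36888796), (nat_lit 24534081), (nat_lit 18263511), (nat_lit 12310016)] (nat_lit 5638750)) p12_15_3 (nat_lit 4) (nat_lit 118) (nat_lit 119) = true := by decide +kernel
def p12_15_3_119 : pfC (piC [(nat_lit 36888796), (nat_lit 24534081), (nat_lit 18263511), (nat_lit 12310016)] (nat_lit 5638750)) p12_15_3 (nat_lit 4) (nat_lit 119) (nat_lit 120) = true := by decide +kernel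
def p12_15_3_120 : pfC (piC [(nat_lit 36888796), (nat_lit 24534081), (nat_lit 18263511), (nat_lit 12310016)] (nat_lit 5638750)) p12_15_3 (nat_lit 4) (nat_lit 120) (nat_lit 121) = true := by decide +kernel
def p12_15_3_121 : pfC (piC [(nat_lit 36888796), (nat_lit 24534081), (nat_lit 18263511), (nat_lit 12310016)] (nat_lit 5638750)) p12_15_3 (nat_lit 4) (nat_lit 121) (nat_lit 122) = true := by decide +kernel
def p12_15_3_122 : pfC (piC [(nat_lit 36888796), (nat_lit 24534081), (nat_lit 18263511), (nat_lit 12310016)] (nat_lit 5638750)) p12_15_3 (nat_lit 4) (nat_lit 122) (nat_lit 123) = true := by decide +kernel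
def p12_15_3_123 : pfC (piC [(nat_lit 36888796), (nat_lit 24534081), (nat_lit 18263511), (nat_lit 12310016)] (nat_lit 5638750)) p12_15_3 (nat_lit 4) (nat_lit 123) (nat_lit 124) = true := by decide +kernel
def p12_15_3_124 : pfC (piC [(nat_lit 36888796), (nat_lit 24534081), (nat_lit 18263511), (nat_lit 12310016)] (nat_lit 5638750)) p12_15_3 (nat_lit 4) (nat_lit 124) (nat_lit 125) = true := by decide +kernel
def p12_15_3_125 : pfC (piC [(nat_lit 36888796), (nat_lit 24534081), (nat_lit 18263511), (nat_lit 12310016)] (nat_lit 5638750)) p12_15_3 (nat_lit 4) (nat_lit 125) (nat_lit 126) = true := by decide +kernel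
def p12_15_3_126 : pfC (piC [(nat_lit 36888796), (nat_lit 24534081), (nat_lit 18263511), (nat_lit 12310016)] (nat_lit 5638750)) p12_15_3 (nat_lit 4) (nat_lit 126) (nat_lit 127) = true := by decide +kernel
def p12_15_3_127 : pfC (piC [(nat_lit 36888796), (nat_lit 24534081), (nat_lit 18263511), (nat_lit 12310016)] (nat_lit 5638750)) p12_15_3 (nat_lit 4) (nat_lit 127) (nat_lit 128) = true := by decide +kernel
def p12_15_3_128 : pfC (piC [(nat_lit 36888796), (nat_lit 24534081), (nat_lit 18263511), (nat_lit 12310016)] (nat_lit 5638750)) p12_15_3 (nat_lit 4) (nat_lit 128) (nat_lit 129) = true := by decide +kernel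
def p12_15_3_129 : pfC (piC [(nat_lit 36888796), (nat_lit 24534081), (nat_lit 18263511), (nat_lit 12310016)] (nat_lit 5638750)) p12_15_3 (nat_lit 4) (nat_lit 129) (nat_lit 130) = true := by decide +kernel
def p12_15_3_130 : pfC (piC [(nat_lit 36888796), (nat_lit 24534081), (nat_lit 18263511), (nat_lit 12310016)] (nat_lit 5638750)) p12_15_3 (nat_lit 4) (nat_lit 130) (nat_lit 131) = true := by decide +kernel
def p12_15_3_131 : pfC (piC [(nat_lit 36888796), (nat_lit 24534081), (nat_lit 18263511), (nat_lit 12310016)] (nat_lit 5638750)) p12_15_3 (nat_lit 4) (nat_lit 131) (nat_lit 132) = true := by decide +kernel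
def p12_15_3_132 : pfC (piC [(nat_lit 36888796), (nat_lit 24534081), (nat_lit 18263511), (nat_lit 12310016)] (nat_lit 5638750)) p12_15_3 (nat_lit 4) (nat_lit 132) (nat_lit 133) = true := by decide +kernel
def p12_15_3_133 : pfC (piC [(nat_lit 36888796), (nat_lit 24534081), (nat_lit 18263511), (nat_lit 12310016)] (nat_lit 5638750)) p12_15_3 (nat_lit 4) (nat_lit 133) (nat_lit 134) = true := by decide +kernel
def p12_15_3_134 : pfC (piC [(nat_lit 36888796), (nat_lit 24534081), (nat_lit 18263511), (nat_lit 12310016)] (nat_lit 5638750)) p12_15_3 (nat_lit 4) (nat_lit 134) (nat_lit 135) = true := by decide +kernel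
def p12_15_3_135 : pfC (piC [(nat_lit 36888796), (nat_lit 24534081), (nat_lit 18263511), (nat_lit 12310016)] (nat_lit 5638750)) p12_15_3 (nat_lit 4) (nat_lit 135) (nat_lit 136) = true := by decide +kernel
def p12_15_3_136 : pfC (piC [(nat_lit 36888796), (nat_lit 24534081), (nat_lit 18263511), (nat_lit 12310016)] (nat_lit 5638750)) p12_15_3 (nat_lit 4) (nat_lit 136) (nat_lit 137) = true := by decide +kernel
def p12_15_3_137 : pfC (piC [(nat_lit 36888796), (nat_lit 24534081), (nat_lit 18263511), (nat_lit 12310016)] (nat_lit 5638750)) p12_15_3 (nat_lit 4) (nat_lit 137) (nat_lit 138) = true := by decide +kernel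
def p12_15_3_138 : pfC (piC [(nat_lit 36888796), (nat_lit 24534081), (nat_lit 18263511), (nat_lit 12310016)] (nat_lit 5638750)) p12_15_3 (nat_lit 4) (nat_lit 138) (nat_lit 139) = true := by decide +kernel
def p12_15_3_139 : pfC (piC [(nat_lit 36888796), (nat_lit 24534081), (nat_lit 18263511), (nat_lit 12310016)] (nat_lit 5638750)) p12_15_3 (nat_lit 4) (nat_lit 139) (nat_lit 140) = true := by decide +kernel
def p12_15_3_140 : pfC (piC [(nat_lit 36888796), (nat_lit 24534081), (nat_lit 18263511), (nat_lit 12310016)] (nat_lit 5638750)) p12_15_3 (nat_lit 4) (nat_lit 140) (nat_lit 141) = true := by decide +kernel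
def p12_15_3_141 : pfC (piC [(nat_lit 36888796), (nat_lit 24534081), (nat_lit 18263511), (nat_lit 12310016)] (nat_lit 5638750)) p12_15_3 (nat_lit 4) (nat_lit 141) (nat_lit 142) = true := by decide +kernel
def p12_15_3_142 : pfC (piC [(nat_lit 36888796), (nat_lit 24534081), (nat_lit 18263511), (nat_lit 12310016)] (nat_lit 5638750)) p12_15_3 (nat_lit 4) (nat_lit 142) (nat_lit 143) = true := by decide +kernel
def p12_15_3_143 : pfC (piC [(nat_lit 36888796), (nat_lit 24534081), (nat_lit 18263511), (nat_lit 12310016)] (nat_lit 5638750)) p12_15_3 (nat_lit 4) (nat_lit 143) (nat_lit 144) = true := by decide +kernel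
def p12_15_3_144 : pfC (piC [(nat_lit 36888796), (nat_lit 24534081), (nat_lit 18263511), (nat_lit 12310016)] (nat_lit 5638750)) p12_15_3 (nat_lit 4) (nat_lit 144) (nat_lit 145) = true := by decide +kernel
def p12_15_3_145 : pfC (piC [(nat_lit 36888796), (nat_lit 24534081), (nat_lit 18263511), (nat_lit 12310016)] (nat_lit 5638750)) p12_15_3 (nat_lit 4) (nat_lit 145) (nat_lit 146) = true := by decide +kernel
def p12_15_3_146 : pfC (piC [(nat_lit 36888796), (nat_lit 24534081), (nat_lit 18263511), (nat_lit 12310016)] (nat_lit 5638750)) p12_15_3 (nat_lit 4) (nat_lit 146) (nat_lit 147) = true := by decide +kernel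
def p12_15_3_147 : pfC (piC [(nat_lit 36888796), (nat_lit 24534081), (nat_lit 18263511), (nat_lit 12310016)] (nat_lit 5638750)) p12_15_3 (nat_lit 4) (nat_lit 147) (nat_lit 148) = true := by decide +kernel
def p12_15_3_148 : pfC (piC [(nat_lit 36888796), (nat_lit 24534081), (nat_lit 18263511), (nat_lit 12310016)] (nat_lit 5638750)) p12_15_3 (nat_lit 4) (nat_lit 148) (nat_lit 149) = true := by decide +kernel
def p12_15_3_149 : pfC (piC [(nat_lit 36888796), (nat_lit 24534081), (nat_lit 18263511), (nat_lit 12310016)] (nat_lit 5638750)) p12_15_3 (nat_lit 4) (nat_lit 149) (nat_lit 150) = true := by decide +kernel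
def p12_15_3_150 : pfC (piC [(nat_lit 36888796), (nat_lit 24534081), (nat_lit 18263511), (nat_lit 12310016)] (nat_lit 5638750)) p12_15_3 (nat_lit 4) (nat_lit 150) (nat_lit 151) = true := by decide +kernel
def p12_15_3_151 : pfC (piC [(nat_lit 36888796), (nat_lit 24534081), (nat_lit 18263511), (nat_lit 12310016)] (nat_lit 5638750)) p12_15_3 (nat_lit 4) (nat_lit 151) (nat_lit 152) = true := by decide +kernel
def p12_15_3_152 : pfC (piC [(nat_lit 36888796), (nat_lit 24534081), (nat_lit 18263511), (nat_lit 12310016)] (nat_lit 5638750)) p12_15_3 (nat_lit 4) (nat_lit 152) (nat_lit 153) = true := by decide +kernel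
def p12_15_3_153 : pfC (piC [(nat_lit 36888796), (nat_lit 24534081), (nat_lit 18263511), (nat_lit 12310016)] (nat_lit 5638750)) p12_15_3 (nat_lit 4) (nat_lit 153) (nat_lit 154) = true := by decide +kernel
def p12_15_3_154 : pfC (piC [(nat_lit 36888796), (nat_lit 24534081), (nat_lit 18263511), (nat_lit 12310016)] (nat_lit 5638750)) p12_15_3 (nat_lit 4) (nat_lit 154) (nat_lit 155) = true := by decide +kernel
def p12_15_3_155 : pfC (piC [(nat_lit 36888796), (nat_lit 24534081), (nat_lit 18263511), (nat_lit 12310016)] (nat_lit 5638750)) p12_15_3 (nat_lit 4) (nat_lit 155) (nat_lit 156) = true := by decide +kernel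
def p12_15_3_156 : pfC (piC [(nat_lit 36888796), (nat_lit 24534081), (nat_lit 18263511), (nat_lit 12310016)] (nat_lit 5638750)) p12_15_3 (nat_lit 4) (nat_lit 156) (nat_lit 157) = true := by decide +kernel
def p12_15_3_157 : pfC (piC [(nat_lit 36888796), (nat_lit 24534081), (nat_lit 18263511), (nat_lit 12310016)] (nat_lit 5638750)) p12_15_3 (nat_lit 4) (nat_lit 157) (nat_lit 158) = true := by decide +kernel
def p12_15_3_158 : pfC (piC [(nat_lit 36888796), (nat_lit 24534081), (nat_lit 18263511), (nat_lit 12310016)] (nat_lit 5638750)) p12_15_3 (nat_lit 4) (nat_lit 158) (nat_lit 159) = true := by decide +kernel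
def p12_15_3_159 : pfC (piC [(nat_lit 36888796), (nat_lit 24534081), (nat_lit 18263511), (nat_lit 12310016)] (nat_lit 5638750)) p12_15_3 (nat_lit 4) (nat_lit 159) (nat_lit 160) = true := by decide +kernel
def p12_15_3_160 : pfC (piC [(nat_lit 36888796), (nat_lit 24534081), (nat_lit 18263511), (nat_lit 12310016)] (nat_lit 5638750)) p12_15_3 (nat_lit 4) (nat_lit 160) (nat_lit 161) = true := by decide +kernel
def p12_15_3_161 : pfC (piC [(nat_lit 36888796), (nat_lit 24534081), (nat_lit 18263511), (nat_lit 12310016)] (nat_lit 5638750)) p12_15_3 (nat_lit 4) (nat_lit 161) (nat_lit 162) = true := by decide +kernel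
def p12_15_3_162 : pfC (piC [(nat_lit 36888796), (nat_lit 24534081), (nat_lit 18263511), (nat_lit 12310016)] (nat_lit 5638750)) p12_15_3 (nat_lit 4) (nat_lit 162) (nat_lit 163) = true := by decide +kernel
def p12_15_3_163 : pfC (piC [(nat_lit 36888796), (nat_lit 24534081), (nat_lit 18263511), (nat_lit 12310016)] (nat_lit 5638750)) p12_15_3 (nat_lit 4) (nat_lit 163) (nat_lit 164) = true := by decide +kernel
def p12_15_3_164 : pfC (piC [(nat_lit 36888796), (nat_lit 24534081), (nat_lit 18263511), (nat_lit 12310016)] (nat_lit 5638750)) p12_15_3 (nat_lit 4) (nat_lit 164) (nat_lit 165) = true := by decide +kernel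
def p12_15_3_165 : pfC (piC [(nat_lit 36888796), (nat_lit 24534081), (nat_lit 18263511), (nat_lit 12310016)] (nat_lit 5638750)) p12_15_3 (nat_lit 4) (nat_lit 165) (nat_lit 166) = true := by decide +kernel
def p12_15_3_166 : pfC (piC [(nat_lit 36888796), (nat_lit 24534081), (nat_lit 18263511), (nat_lit 12310016)] (nat_lit 5638750)) p12_15_3 (nat_lit 4) (nat_lit 166) (nat_lit 167) = true := by decide +kernel
def p12_15_3_167 : pfC (piC [(nat_lit 36888796), (nat_lit 24534081), (nat_lit 18263511), (nat_lit 12310016)] (nat_lit 5638750)) p12_15_3 (nat_lit 4) (nat_lit 167) (nat_lit 168) = true := by decide +kernel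
def p12_15_3_168 : pfC (piC [(nat_lit 36888796), (nat_lit 24534081), (nat_lit 18263511), (nat_lit 12310016)] (nat_lit 5638750)) p12_15_3 (nat_lit 4) (nat_lit 168) (nat_lit 169) = true := by decide +kernel
def p12_15_3_169 : pfC (piC [(nat_lit 36888796), (nat_lit 24534081), (nat_lit 18263511), (nat_lit 12310016)] (nat_lit 5638750)) p12_15_3 (nat_lit 4) (nat_lit 169) (nat_lit 170) = true := by decide +kernel
def p12_15_3_170 : pfC (piC [(nat_lit 36888796), (nat_lit 24534081), (nat_lit 18263511), (nat_lit 12310016)] (nat_lit 5638750)) p12_15_3 (nat_lit 4) (nat_lit 170) (nat_lit 171) = true := by decide +kernel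
def p12_15_3_171 : pfC (piC [(nat_lit 36888796), (nat_lit 24534081), (nat_lit 18263511), (nat_lit 12310016)] (nat_lit 5638750)) p12_15_3 (nat_lit 4) (nat_lit 171) (nat_lit 172) = true := by decide +kernel
def p12_15_3_172 : pfC (piC [(nat_lit 36888796), (nat_lit 24534081), (nat_lit 18263511), (nat_lit 12310016)] (nat_lit 5638750)) p12_15_3 (nat_lit 4) (nat_lit 172) (nat_lit 173) = true := by decide +kernel
def p12_15_3_173 : pfC (piC [(nat_lit 36888796), (nat_lit 24534081), (nat_lit 18263511), (nat_lit 12310016)] (nat_lit 5638750)) p12_15_3 (nat_lit 4) (nat_lit 173) (nat_lit 174) = true := by decide +kernel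
def p12_15_3_174 : pfC (piC [(nat_lit 36888796), (nat_lit 24534081), (nat_lit 18263511), (nat_lit 12310016)] (nat_lit 5638750)) p12_15_3 (nat_lit 4) (nat_lit 174) (nat_lit 175) = true := by decide +kernel
def p12_15_3_175 : pfC (piC [(nat_lit 36888796), (nat_lit 24534081), (nat_lit 18263511), (nat_lit 12310016)] (nat_lit 5638750)) p12_15_3 (nat_lit 4) (nat_lit 175) (nat_lit 176) = true := by decide +kernel
def p12_15_3_176 : pfC (piC [(nat_lit 36888796), (nat_lit 24534081), (nat_lit 18263511), (nat_lit 12310016)] (nat_lit 5638750)) p12_15_3 (nat_lit 4) (nat_lit 176) (nat_lit 177) = true := by decide +kernel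
def p12_15_3_177 : pfC (piC [(nat_lit 36888796), (nat_lit 24534081), (nat_lit 18263511), (nat_lit 12310016)] (nat_lit 5638750)) p12_15_3 (nat_lit 4) (nat_lit 177) (nat_lit 178) = true := by decide +kernel
def p12_15_3_178 : pfC (piC [(nat_lit 36888796), (nat_lit 24534081), (nat_lit 18263511), (nat_lit 12310016)] (nat_lit 5638750)) p12_15_3 (nat_lit 4) (nat_lit 178) (nat_lit 179) = true := by decide +kernel
def p12_15_3_179 : pfC (piC [(nat_lit 36888796), (nat_lit 24534081), (nat_lit 18263511), (nat_lit 12310016)] (nat_lit 5638750)) p12_15_3 (nat_lit 4) (nat_lit 179) (nat_lit 180) = true := by decide +kernel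
def p12_15_3_180 : pfC (piC [(nat_lit 36888796), (nat_lit 24534081), (nat_lit 18263511), (nat_lit 12310016)] (nat_lit 5638750)) p12_15_3 (nat_lit 4) (nat_lit 180) (nat_lit 181) = true := by decide +kernel
def p12_15_3_181 : pfC (piC [(nat_lit 36888796), (nat_lit 24534081), (nat_lit 18263511), (nat_lit 12310016)] (nat_lit 5638750)) p12_15_3 (nat_lit 4) (nat_lit 181) (nat_lit 182) = true := by decide +kernel
def p12_15_3_182 : pfC (piC [(nat_lit 36888796), (nat_lit 24534081), (nat_lit 18263511), (nat_lit 12310016)] (nat_lit 5638750)) p12_15_3 (nat_lit 4) (nat_lit 182) (nat_lit 183) = true := by decide +kernel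
def p12_15_3_183 : pfC (piC [(nat_lit 36888796), (nat_lit 24534081), (nat_lit 18263511), (nat_lit 12310016)] (nat_lit 5638750)) p12_15_3 (nat_lit 4) (nat_lit 183) (nat_lit 184) = true := by decide +kernel
def p12_15_3_184 : pfC (piC [(nat_lit 36888796), (nat_lit 24534081), (nat_lit 18263511), (nat_lit 12310016)] (nat_lit 5638750)) p12_15_3 (nat_lit 4) (nat_lit 184) (nat_lit 185) = true := by decide +kernel
def p12_15_3_185 : pfC (piC [(nat_lit 36888796), (nat_lit 24534081), (nat_lit 18263511), (nat_lit 12310016)] (nat_lit 5638750)) p12_15_3 (nat_lit 4) (nat_lit 185) (nat_lit 186) = true := by decide +kernel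
def p12_15_3_186 : pfC (piC [(nat_lit 36888796), (nat_lit 24534081), (nat_lit 18263511), (nat_lit 12310016)] (nat_lit 5638750)) p12_15_3 (nat_lit 4) (nat_lit 186) (nat_lit 187) = true := by decide +kernel
def p12_15_3_187 : pfC (piC [(nat_lit 36888796), (nat_lit 24534081), (nat_lit 18263511), (nat_lit 12310016)] (nat_lit 5638750)) p12_15_3 (nat_lit 4) (nat_lit 187) (nat_lit 188) = true := by decide +kernel
def p12_15_3_188 : pfC (piC [(nat_lit 36888796), (nat_lit 24534081), (nat_lit 18263511), (nat_lit 12310016)] (nat_lit 5638750)) p12_15_3 (nat_lit 4) (nat_lit 188) (nat_lit 189) = true := by decide +kernel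
def p12_15_3_189 : pfC (piC [(nat_lit 36888796), (nat_lit 24534081), (nat_lit 18263511), (nat_lit 12310016)] (nat_lit 5638750)) p12_15_3 (nat_lit 4) (nat_lit 189) (nat_lit 190) = true := by decide +kernel
def p12_15_3_190 : pfC (piC [(nat_lit 36888796), (nat_lit 24534081), (nat_lit 18263511), (nat_lit 12310016)] (nat_lit 5638750)) p12_15_3 (nat_lit 4) (nat_lit 190) (nat_lit 191) = true := by decide +kernel
def p12_15_3_191 : pfC (piC [(nat_lit 36888796), (nat_lit 24534081), (nat_lit 18263511), (nat_lit 12310016)] (nat_lit 5638750)) p12_15_3 (nat_lit 4) (nat_lit 191) (nat_lit 192) = true := by decide +kernel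
def p12_15_3_192 : pfC (piC [(nat_lit 36888796), (nat_lit 24534081), (nat_lit 18263511), (nat_lit 12310016)] (nat_lit 5638750)) p12_15_3 (nat_lit 4) (nat_lit 192) (nat_lit 193) = true := by decide +kernel
def p12_15_3_193 : pfC (piC [(nat_lit 36888796), (nat_lit 24534081), (nat_lit 18263511), (nat_lit 12310016)] (nat_lit 5638750)) p12_15_3 (nat_lit 4) (nat_lit 193) (nat_lit 194) = true := by decide +kernel
def p12_15_3_194 : pfC (piC [(nat_lit 36888796), (nat_lit 24534081), (nat_lit 18263511), (nat_lit 12310016)] (nat_lit 5638750)) p12_15_3 (nat_lit 4) (nat_lit 194) (nat_lit 195) = true := by decide +kernel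
def p12_15_3_195 : pfC (piC [(nat_lit 36888796), (nat_lit 24534081), (nat_lit 18263511), (nat_lit 12310016)] (nat_lit 5638750)) p12_15_3 (nat_lit 4) (nat_lit 195) (nat_lit 196) = true := by decide +kernel
def p12_15_3_196 : pfC (piC [(nat_lit 36888796), (nat_lit 24534081), (nat_lit 18263511), (nat_lit 12310016)] (nat_lit 5638750)) p12_15_3 (nat_lit 4) (nat_lit 196) (nat_lit 197) = true := by decide +kernel
def p12_15_3_197 : pfC (piC [(nat_lit 36888796), (nat_lit 24534081), (nat_lit 18263511), (nat_lit 12310016)] (nat_lit 5638750)) p12_15_3 (nat_lit 4) (nat_lit 197) (nat_lit 198) = true := by decide +kernel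
def p12_15_3_198 : pfC (piC [(nat_lit 36888796), (nat_lit 24534081), (nat_lit 18263511), (nat_lit 12310016)] (nat_lit 5638750)) p12_15_3 (nat_lit 4) (nat_lit 198) (nat_lit 199) = true := by decide +kernel
def p12_15_3_199 : pfC (piC [(nat_lit 36888796), (nat_lit 24534081), (nat_lit 18263511), (nat_lit 12310016)] (nat_lit 5638750)) p12_15_3 (nat_lit 4) (nat_lit 199) (nat_lit 200) = true := by decide +kernel
def p12_15_3_200 : pfC (piC [(nat_lit 36888796), (nat_lit 24534081), (nat_lit 18263511), (nat_lit 12310016)] (nat_lit 5638750)) p12_15_3 (nat_lit 4) (nat_lit 200) (nat_lit 201) = true := by decide +kernel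
def p12_15_3_201 : pfC (piC [(nat_lit 36888796), (nat_lit 24534081), (nat_lit 18263511), (nat_lit 12310016)] (nat_lit 5638750)) p12_15_3 (nat_lit 4) (nat_lit 201) (nat_lit 202) = true := by decide +kernel
def p12_15_3_202 : pfC (piC [(nat_lit 36888796), (nat_lit 24534081), (nat_lit 18263511), (nat_lit 12310016)] (nat_lit 5638750)) p12_15_3 (nat_lit 4) (nat_lit 202) (nat_lit 203) = true := by decide +kernel
def p12_15_3_203 : pfC (piC [(nat_lit 36888796), (nat_lit 24534081), (nat_lit 18263511), (nat_lit 12310016)] (nat_lit 5638750)) p12_15_3 (nat_lit 4) (nat_lit 203) (nat_lit 204) = true := by decide +kernel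
def p12_15_3_204 : pfC (piC [(nat_lit 36888796), (nat_lit 24534081), (nat_lit 18263511), (nat_lit 12310016)] (nat_lit 5638750)) p12_15_3 (nat_lit 4) (nat_lit 204) (nat_lit 205) = true := by decide +kernel
def p12_15_3_205 : pfC (piC [(nat_lit 36888796), (nat_lit 24534081), (nat_lit 18263511), (nat_lit 12310016)] (nat_lit 5638750)) p12_15_3 (nat_lit 4) (nat_lit 205) (nat_lit 206) = true := by decide +kernel
def p12_15_3_206 : pfC (piC [(nat_lit 36888796), (nat_lit 24534081), (nat_lit 18263511), (nat_lit 12310016)] (nat_lit 5638750)) p12_15_3 (nat_lit 4) (nat_lit 206) (nat_lit 207) = true := by decide +kernel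
theorem p12_15_3_T : PfS (PiF n12_15.reverse (nat_lit 5638750)) p12_15_3 (nat_lit 4) [] 0 :=
  pftab_of (los := [(nat_lit 36888796), (nat_lit 24534081), (nat_lit 18263511), (nat_lit 12310016)]) (by decide +kernel) (hi := (nat_lit 207)) (PfP.trans (PfP.trans (PfP.trans (PfP.trans (PfP.trans (PfP.trans (PfP.trans (PfP.trans (PfP.trans (PfP.trans (PfP.trans (PfP.trans (PfP.trans (PfP.trans (PfP.trans (PfP.trans (PfP.trans (PfP.trans (PfP.trans (PfP.trans (PfP.trans (PfP.trans (PfP.trans (PfP.trans (PfP.trans (PfP.trans (PfP.trans (PfP.trans (PfP.trans (PfP.trans (PfP.trans (PfP.trans (PfP.trans (PfP.trans (PfP.trans (PfP.trans (PfP.trans (PfP.trans (PfP.trans (PfP.trans (PfP.trans (PfP.trans (PfP.trans (PfP.trans (PfP.trans (PfP.trans (PfP.trans (PfP.trans (PfP.trans (PfP.trans (PfP.trans (PfP.trans (PfP.trans (PfP.trans (PfP.trans (PfP.trans (PfP.trans (PfP.trans (PfP.trans (PfP.trans (PfP.trans (PfP.trans (PfP.trans (PfP.trans (PfP.trans (PfP.trans (PfP.trans (PfP.trans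 (PfP.trans (PfP.trans (PfP.trans (PfP.trans (PfP.trans (PfP.trans (PfP.trans (PfP.trans (PfP.trans (PfP.trans (PfP.trans (PfP.trans (PfP.trans (PfP.trans (PfP.trans (PfP.trans (PfP.trans (PfP.trans (PfP.trans (PfP.trans (PfP.trans (PfP.trans (PfP.trans (PfP.trans (PfP.trans (PfP.trans (PfP.trans (PfP.trans (PfP.trans (PfP.trans (PfP.trans (PfP.trans (PfP.trans (PfP.trans (PfP.trans (PfP.trans (PfP.trans (PfP.trans (PfP.trans (PfP.trans (PfP.trans
 (PfP.trans (PfP.trans (PfP.trans (PfP.trans (PfP.trans (PfP.trans (PfP.trans (PfP.trans (PfP.trans (PfP.trans (PfP.trans (PfP.trans (PfP.trans (PfP.trans (PfP.trans (PfP.trans (PfP.trans (PfP.trans (PfP.trans (PfP.trans (PfP.trans (PfP.trans (PfP.trans (PfP.trans (PfP.trans (PfP.trans (PfP.trans (PfP.trans (PfP.trans (PfP.trans (PfP.trans (PfP.trans (PfP.trans (PfP.trans (PfP.trans (PfP.trans (PfP.trans (PfP.trans (PfP.trans (PfP.trans (PfP.trans (PfP.trans (PfP.trans (PfP.trans (PfP.trans (PfP.trans (PfP.trans (PfP.trans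 (PfP.trans (PfP.trans (PfP.trans (PfP.trans (PfP.trans (PfP.trans (PfP.trans (PfP.trans (PfP.trans (PfP.trans (PfP.trans (PfP.trans (PfP.trans (PfP.trans (PfP.trans (PfP.trans (PfP.trans (PfP.trans (PfP.trans (PfP.trans (PfP.trans (PfP.trans (PfP.trans (PfP.trans (PfP.trans (PfP.trans (PfP.trans (PfP.trans (PfP.trans (PfP.trans (PfP.trans (PfP.trans (PfP.trans (PfP.trans (PfP.trans (PfP.trans (PfP.trans (PfP.trans (PfP.trans (PfP.trans (PfP.trans (PfP.trans (PfP.trans (PfP.trans (PfP.trans (PfP.trans (PfP.trans (PfP.trans (PfP.trans (pfC_sound p12_15_3_0) (pfC_sound p12_15_3_1)) (pfC_sound p12_15_3_2)) (pfC_sound p12_15_3_3)) (pfC_sound p12_15_3_4)) (pfC_sound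
 p12_15_3_5)) (pfC_sound p12_15_3_6)) (pfC_sound p12_15_3_7)) (pfC_sound p12_15_3_8)) (pfC_sound p12_15_3_9)) (pfC_sound p12_15_3_10)) (pfC_sound p12_15_3_11)) (pfC_sound p12_15_3_12)) (pfC_sound p12_15_3_13)) (pfC_sound p12_15_3_14)) (pfC_sound p12_15_3_15)) (pfC_sound p12_15_3_16)) (pfC_sound p12_15_3_17)) (pfC_sound p12_15_3_18)) (pfC_sound p12_15_3_19)) (pfC_sound p12_15_3_20)) (pfC_sound p12_15_3_21)) (pfC_sound p12_15_3_22)) (pfC_sound p12_15_3_23)) (pfC_sound p12_15_3_24)) (pfC_sound p12_15_3_25)) (pfC_sound p12_15_3_26)) (pfC_sound p12_15_3_27)) (pfC_sound p12_15_3_28)) (pfC_sound p12_15_3_29)) (pfC_sound p12_15_3_30)) (pfC_sound p12_15_3_31)) (pfC_sound p12_15_3_32)) (pfC_sound p12_15_3_33)) (pfC_sound p12_15_3_34)) (pfC_sound p12_15_3_35)) (pfC_sound p12_15_3_36)) (pfC_sound p12_15_3_37)) (pfC_sound p12_15_3_38)) (pfC_sound p12_15_3_39)) (pfC_sound p12_15_3_40)) (pfC_sound p12_15_3_41)) (pfC_sound p12_15_3_42)) (pfC_sound p12_15_3_43)) (pfC_sound p12_15_3_44))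 (pfC_sound p12_15_3_45)) (pfC_sound p12_15_3_46)) (pfC_sound p12_15_3_47)) (pfC_sound p12_15_3_48)) (pfC_sound p12_15_3_49)) (pfC_sound p12_15_3_50)) (pfC_sound p12_15_3_51)) (pfC_sound p12_15_3_52)) (pfC_sound
 p12_15_3_53)) (pfC_sound p12_15_3_54)) (pfC_sound p12_15_3_55)) (pfC_sound p12_15_3_56)) (pfC_sound p12_15_3_57)) (pfC_sound p12_15_3_58)) (pfC_sound p12_15_3_59)) (pfC_sound p12_15_3_60)) (pfC_sound p12_15_3_61)) (pfC_sound p12_15_3_62)) (pfC_sound p12_15_3_63)) (pfC_sound p12_15_3_64)) (pfC_sound p12_15_3_65)) (pfC_sound p12_15_3_66)) (pfC_sound p12_15_3_67)) (pfC_sound p12_15_3_68)) (pfC_sound p12_15_3_69)) (pfC_sound p12_15_3_70)) (pfC_sound p12_15_3_71)) (pfC_sound p12_15_3_72)) (pfC_sound p12_15_3_73)) (pfC_sound p12_15_3_74)) (pfC_sound p12_15_3_75)) (pfC_sound p12_15_3_76)) (pfC_sound p12_15_3_77)) (pfC_sound p12_15_3_78)) (pfC_sound p12_15_3_79)) (pfC_sound p12_15_3_80)) (pfC_sound p12_15_3_81)) (pfC_sound p12_15_3_82)) (pfC_sound p12_15_3_83)) (pfC_sound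 p12_15_3_84)) (pfC_sound p12_15_3_85)) (pfC_sound p12_15_3_86)) (pfC_sound p12_15_3_87)) (pfC_sound p12_15_3_88)) (pfC_sound p12_15_3_89)) (pfC_sound p12_15_3_90)) (pfC_sound p12_15_3_91)) (pfC_sound p12_15_3_92)) (pfC_sound p12_15_3_93)) (pfC_sound p12_15_3_94)) (pfC_sound p12_15_3_95)) (pfC_sound p12_15_3_96)) (pfC_sound p12_15_3_97)) (pfC_sound p12_15_3_98)) (pfC_sound p12_15_3_99)) (pfC_sound p12_15_3_100))
 (pfC_sound p12_15_3_101)) (pfC_sound p12_15_3_102)) (pfC_sound p12_15_3_103)) (pfC_sound p12_15_3_104)) (pfC_sound p12_15_3_105)) (pfC_sound p12_15_3_106)) (pfC_sound p12_15_3_107)) (pfC_sound p12_15_3_108)) (pfC_sound p12_15_3_109)) (pfC_sound p12_15_3_110)) (pfC_sound p12_15_3_111)) (pfC_sound p12_15_3_112)) (pfC_sound p12_15_3_113)) (pfC_sound p12_15_3_114)) (pfC_sound p12_15_3_115)) (pfC_sound p12_15_3_116)) (pfC_sound p12_15_3_117)) (pfC_sound p12_15_3_118)) (pfC_sound p12_15_3_119)) (pfC_sound p12_15_3_120)) (pfC_sound p12_15_3_121)) (pfC_sound p12_15_3_122))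 (pfC_sound p12_15_3_123)) (pfC_sound p12_15_3_124)) (pfC_sound p12_15_3_125)) (pfC_sound p12_15_3_126)) (pfC_sound p12_15_3_127)) (pfC_sound p12_15_3_128)) (pfC_sound p12_15_3_129)) (pfC_sound p12_15_3_130)) (pfC_sound p12_15_3_131)) (pfC_sound p12_15_3_132)) (pfC_sound p12_15_3_133)) (pfC_sound p12_15_3_134)) (pfC_sound p12_15_3_135)) (pfC_sound p12_15_3_136)) (pfC_sound p12_15_3_137)) (pfC_sound p12_15_3_138)) (pfC_sound p12_15_3_139)) (pfC_sound p12_15_3_140)) (pfC_sound p12_15_3_141)) (pfC_sound p12_15_3_142)) (pfC_sound p12_15_3_143)) (pfC_sound p12_15_3_144)) (pfC_sound p12_15_3_145)) (pfC_sound p12_15_3_146))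
 (pfC_sound p12_15_3_147)) (pfC_sound p12_15_3_148)) (pfC_sound p12_15_3_149)) (pfC_sound p12_15_3_150)) (pfC_sound p12_15_3_151)) (pfC_sound p12_15_3_152)) (pfC_sound p12_15_3_153)) (pfC_sound p12_15_3_154)) (pfC_sound p12_15_3_155)) (pfC_sound p12_15_3_156)) (pfC_sound p12_15_3_157)) (pfC_sound p12_15_3_158)) (pfC_sound p12_15_3_159)) (pfC_sound p12_15_3_160)) (pfC_sound p12_15_3_161)) (pfC_sound p12_15_3_162)) (pfC_sound p12_15_3_163)) (pfC_sound p12_15_3_164)) (pfC_sound p12_15_3_165)) (pfC_sound p12_15_3_166)) (pfC_sound p12_15_3_167)) (pfC_sound p12_15_3_168)) (pfC_sound p12_15_3_169)) (pfC_sound p12_15_3_170)) (pfC_sound p12_15_3_171)) (pfC_sound p12_15_3_172)) (pfC_sound p12_15_3_173)) (pfC_sound p12_15_3_174)) (pfC_sound p12_15_3_175)) (pfC_sound p12_15_3_176)) (pfC_sound p12_15_3_177)) (pfC_sound p12_15_3_178)) (pfC_sound p12_15_3_179)) (pfC_sound p12_15_3_180)) (pfC_sound p12_15_3_181)) (pfC_sound p12_15_3_182)) (pfC_sound p12_15_3_183)) (pfC_sound p12_15_3_184))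 (pfC_sound p12_15_3_185)) (pfC_sound p12_15_3_186)) (pfC_sound p12_15_3_187)) (pfC_sound p12_15_3_188)) (pfC_sound p12_15_3_189)) (pfC_sound p12_15_3_190)) (pfC_sound p12_15_3_191)) (pfC_sound p12_15_3_192))
 (pfC_sound p12_15_3_193)) (pfC_sound p12_15_3_194)) (pfC_sound p12_15_3_195)) (pfC_sound p12_15_3_196)) (pfC_sound p12_15_3_197)) (pfC_sound p12_15_3_198)) (pfC_sound p12_15_3_199)) (pfC_sound p12_15_3_200)) (pfC_sound p12_15_3_201)) (pfC_sound p12_15_3_202)) (pfC_sound p12_15_3_203)) (pfC_sound p12_15_3_204)) (pfC_sound p12_15_3_205)) (pfC_sound p12_15_3_206)) (by decide +kernel)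

def z12_15_3 : zOK yB12_15 (nat_lit 3) (nat_lit 750) (nat_lit 792) (nat_lit 5638750) (nat_lit 5638750) = true := by decide +kernel
def g12_15_3 : gOK yB12_15.x P12_15 (nat_lit 1404) (q12_15 :: r12_15) (nat_lit 3) (nat_lit 750) (nat_lit 4) (nat_lit 792) (nat_lit 12712500) (nat_lit 12712500) (nat_lit 12712500) (nat_lit 12712500) [(nat_lit 800)] = true := by decide +kernel
def v12_15_3 : ivC P12_15 s12_15 w12_15 n12_15 (nat_lit 4) (nat_lit 4610) (nat_lit 3) (nat_lit 750) f168_1_750 f176_1_750 (nat_lit 4) (nat_lit 792) f168_1_792 f176_1_792 (nat_lit 5638750) (nat_lit 5638750) p12_15_3 = true := by decide +kernel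
end CB
end Pool.Agent.Lib.MP_6947cd_al
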