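import Pool.Agent.Lib.MP_6947cd_al.L.BoxDataB
import Pool.Agent.Lib.MP_6947cd_al.L.TeD4
import Pool.Agent.Lib.MP_6947cd_al.L.TeD5

/-!
Problem MP_6947cd_al (Chollet).  CASE B, rows `j`: boxes (generated).
-/

set_option autoImplicit false
set_option linter.defProp false
set_option maxRecDepth 20000

namespace Pool.Agent.Lib.MP_6947cd_al
namespace CB

open Ent Ent.Pk Fr Fr.WT CA

/-! box `yB15_26` -/

def P15_26 : BQ := ⟨(nat_lit 8), (nat_lit 1), (nat_lit 7), (nat_lit 0), (nat_lit 8), (nat_lit 835), (nat_lit 840), (nat_lit 120), [(nat_lit 200), (nat_lit 300), (nat_lit 450), (nat_lit 800)], (nat_lit 122912000), (nat_lit 16000000), (nat_lit 16000000000)⟩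
def q15_26 : PC := ⟨(nat_lit 1000), [(nat_lit 120000), (nat_lit 200000), (nat_lit 300000), (nat_lit 450000), (nat_lit 800000)], (nat_lit 340282367000166625996085689103316680705000000), (nat_lit 15877088000000), (nat_lit 15877088000000), (nat_lit 10000000)⟩
def r15_26 : List PC := [⟨(nat_lit 1258), [(nat_lit 120514), (nat_lit 200835), (nat_lit 300892), (nat_lit 450682), (nat_lit 799402)], (nat_lit 341889520619547472454770216543792449910164145), (nat_lit 16236471856640), (nat_lit 16238718396800), (nat_lit 10042834)⟩, ⟨(nat_lit 1380), [(nat_lit 120788), (nat_lit 201188), (nat_lit 301506), (nat_lit 452459), (nat_lit 802029)], (nat_lit 342666725545783934301113836013671965850029741), (nat_lit 16406277990400), (nat_lit 16409586848000), (nat_lit 10065667)⟩]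
def s15_26 : List PB := [⟨(nat_lit 25160), (nat_lit 1928224000000), [(nat_lit 200835), (nat_lit 300892), (nat_lit 450682), (nat_lit 799402)], (nat_lit 341889520619547472454770216543792449910164145), (nat_lit 1142136378699264), (nat_lit 1142138625239424), (nat_lit 41280)⟩, ⟨(nat_lit 27600), (nat_lit 1932608000000), [(nat_lit 201188), (nat_lit 301506), (nat_lit 452459), (nat_lit 802029)], (nat_lit 342666725545783934301113836013671965850029741), (nat_lit 1142306184833024), (nat_lit 1142309493690624), (nat_lit 60800)⟩]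
def n15_26 : List KN := [⟨(nat_lit 800), (nat_lit 450), (nat_lit 12378745), (nat_lit 6033066)⟩, ⟨(nat_lit 450), (nat_lit 300), (nat_lit 18388512), (nat_lit 12378745)⟩, ⟨(nat_lit 300), (nat_lit 200), (nat_lit 24651042), (nat_lit 18388512)⟩, ⟨(nat_lit 200), (nat_lit 120), (nat_lit 37297016), (nat_lit 24651042)⟩]
def w15_26 : List ℕ := [(nat_lit 41280), (nat_lit 60800)]
def par15_26 : parC yB15_26 P15_26 s15_26 r15_26 q15_26 n15_26 w15_26 = true := by decide +kernel

def p15_26_0 : PF := (PF.cons (PF.cons (PF.cons (PF.cons (PF.leaf (nat_lit 854491) (nat_lit 2747025) (nat_lit 64361787) (nat_lit 2747025) [(nat_lit 0), (nat_lit 0), (nat_lit 0), (nat_lit 0)]) (PF.cons (PF.leaf (nat_lit 1029351) (nat_lit 285187) (nat_lit 64006689) (nat_lit 2816936) [(nat_lit 285187), (nat_lit 0), (nat_lit 0), (nat_lit 0)]) (PF.cons (PF.leaf (nat_lit 1240430) (nat_lit 315266) (nat_lit 63584930) (nat_lit 2893349) [(nat_lit 315266), (nat_lit 0), (nat_lit 0), (nat_lit 0)]) (PF.cons (PF.leaf (nat_lit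 1481977) (nat_lit 343323) (nat_lit 63106048) (nat_lit 2972793) [(nat_lit 343323), (nat_lit 0), (nat_lit 0), (nat_lit 0)]) (PF.cons (PF.leaf (nat_lit 1751018) (nat_lit 369727) (nat_lit 62576988) (nat_lit 3052915) [(nat_lit 369727), (nat_lit 0), (nat_lit 0), (nat_lit 0)]) (PF.cons (PF.leaf (nat_lit 2044921) (nat_lit 394666) (nat_lit 62003413) (nat_lit 3132064) [(nat_lit 394666), (nat_lit 0), (nat_lit 0), (nat_lit 0)]) (PF.cons (PF.leaf (nat_lit 2361448) (nat_lit 418248) (nat_lit 61390263) (nat_lit 3209059) [(nat_lit 418248), (nat_lit 0), (nat_lit 0), (nat_lit 0)]) (PF.cons (PF.leaf (nat_lit 2698484) (nat_lit 440533) (nat_lit 60742029) (nat_lit 3283051) [(nat_lit 440533), (nat_lit 0), (nat_lit 0),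
 (nat_lit 0)]) (PF.cons (PF.leaf (nat_lit 3054046) (nat_lit 461561) (nat_lit 60062882) (nat_lit 3353435) [(nat_lit 461561), (nat_lit 0), (nat_lit 0), (nat_lit 0)]) (PF.cons (PF.leaf (nat_lit 3426188) (nat_lit 481364) (nat_lit 59356741) (nat_lit 3419791) [(nat_lit 481364), (nat_lit 0), (nat_lit 0), (nat_lit 0)]) (PF.cons (PF.leaf (nat_lit 3813092) (nat_lit 499966) (nat_lit 58627308) (nat_lit 3481836) [(nat_lit 499966), (nat_lit 0), (nat_lit 0), (nat_lit 0)]) (PF.cons PF.nil (PF.cons PF.nil (PF.cons PF.nil PF.nil)))))))))))))) (PF.cons (PF.cons (PF.leaf (nat_lit 1435195) (nat_lit 1255889) (nat_lit 62857753) (nat_lit 2995169) [(nat_lit 0), (nat_lit 1255889), (nat_lit 0), (nat_lit 0)]) (PF.cons (PF.leaf (nat_lit 1672528) (nat_lit 359395) (nat_lit 62376582) (nat_lit 3065981) [(nat_lit 359395), (nat_lit 1306854), (nat_lit 0), (nat_lit 0)]) (PF.cons (PF.leaf (nat_lit 1939281) (nat_lit 384951) (nat_lit 61842948) (nat_lit 3138185) [(nat_lit 384951), (nat_lit 1357776), (nat_lit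 0), (nat_lit 0)]) (PF.cons (PF.leaf (nat_lit 2231343) (nat_lit 408978) (nat_lit 61264253) (nat_lit 3209939) [(nat_lit 408978), (nat_lit 1407685), (nat_lit 0), (nat_lit 0)]) (PF.cons (PF.leaf (nat_lit 2546034) (nat_lit
 431623) (nat_lit 60646377) (nat_lit 3279970) [(nat_lit 431623), (nat_lit 1455972), (nat_lit 0), (nat_lit 0)]) (PF.cons (PF.leaf (nat_lit 2881004) (nat_lit 452969) (nat_lit 59994339) (nat_lit 3347381) [(nat_lit 452969), (nat_lit 1502246), (nat_lit 0), (nat_lit 0)]) (PF.cons (PF.leaf (nat_lit 3234117) (nat_lit 473069) (nat_lit 59312608) (nat_lit 3411539) [(nat_lit 473069), (nat_lit 1546250), (nat_lit 0), (nat_lit 0)]) (PF.cons (PF.leaf (nat_lit 3603417) (nat_lit 491961) (nat_lit 58605258) (nat_lit 3472002) [(nat_lit 491961), (nat_lit 1587819), (nat_lit 0), (nat_lit 0)]) (PF.cons (PF.leaf (nat_lit 3987043) (nat_lit 509678) (nat_lit 57876055) (nat_lit 3528477) [(nat_lit 509678), (nat_lit 1626853), (nat_lit 0), (nat_lit 0)]) (PF.cons PF.nil (PF.cons PF.nil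 (PF.cons PF.nil PF.nil)))))))))))) (PF.cons (PF.cons (PF.leaf (nat_lit 2132494) (nat_lit 1405477) (nat_lit 61080458) (nat_lit 3217399) [(nat_lit 0), (nat_lit 1405477), (nat_lit 0), (nat_lit 0)]) (PF.cons (PF.leaf (nat_lit 2419897) (nat_lit 421819) (nat_lit 60503109) (nat_lit 3281897) [(nat_lit 421819), (nat_lit 1450993), (nat_lit 0), (nat_lit 0)]) (PF.cons (PF.leaf (nat_lit 2731079) (nat_lit 443690) (nat_lit 59885572) (nat_lit
 3345201) [(nat_lit 443690), (nat_lit 1495328), (nat_lit 0), (nat_lit 0)]) (PF.cons (PF.leaf (nat_lit 3062703) (nat_lit 464223) (nat_lit 59233864) (nat_lit 3406312) [(nat_lit 464223), (nat_lit 1537982), (nat_lit 0), (nat_lit 0)]) (PF.cons (PF.leaf (nat_lit 3412419) (nat_lit 483497) (nat_lit 58553013) (nat_lit 3464542) [(nat_lit 483497), (nat_lit 1578633), (nat_lit 0), (nat_lit 0)]) (PF.cons (PF.leaf (nat_lit 3778104) (nat_lit 501567) (nat_lit 57847407) (nat_lit 3519417) [(nat_lit 501567), (nat_lit 1617074), (nat_lit 0), (nat_lit 0)]) (PF.cons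 (PF.leaf (nat_lit 4157824) (nat_lit 518474) (nat_lit 57120978) (nat_lit 3570624) [(nat_lit 518474), (nat_lit 1653181), (nat_lit 0), (nat_lit 0)]) (PF.cons (PF.leaf (nat_lit 4549789) (nat_lit 534255) (nat_lit 56377296) (nat_lit 3617963) [(nat_lit 534255), (nat_lit 1686883), (nat_lit 0), (nat_lit 0)]) (PF.cons PF.nil (PF.cons PF.nil PF.nil)))))))))) (PF.cons (PF.cons (PF.leaf (nat_lit 2918125) (nat_lit 1531901) (nat_lit 59107907) (nat_lit 3405200) [(nat_lit 0), (nat_lit 1531901), (nat_lit 0), (nat_lit 0)]) (PF.cons (PF.leaf (nat_lit 3244452) (nat_lit 474313) (nat_lit 58461103) (nat_lit 3460230) [(nat_lit 474313), (nat_lit 1571055), (nat_lit 0),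
 (nat_lit 0)]) (PF.cons (PF.leaf (nat_lit 3589614) (nat_lit 492872) (nat_lit 57784808) (nat_lit 3512790) [(nat_lit 492872), (nat_lit 1608489), (nat_lit 0), (nat_lit 0)]) (PF.cons (PF.leaf (nat_lit 3950795) (nat_lit 510210) (nat_lit 57083985) (nat_lit 3562350) [(nat_lit 510210), (nat_lit 1643947), (nat_lit 0), (nat_lit 0)]) (PF.cons (PF.leaf (nat_lit 4325933) (nat_lit 526386) (nat_lit 56362887) (nat_lit 3608565) [(nat_lit 526386), (nat_lit 1677271), (nat_lit 0), (nat_lit 0)]) (PF.cons (PF.leaf (nat_lit 4713153) (nat_lit 541446) (nat_lit 55625257) (nat_lit 3651213) [(nat_lit 541446), (nat_lit 1708370), (nat_lit 0), (nat_lit 0)]) (PF.cons PF.nil (PF.cons PF.nil (PF.cons PF.nil PF.nil))))))))) (PF.cons (PF.cons (PF.leaf (nat_lit 3766897) (nat_lit 1636005) (nat_lit 57008184) (nat_lit 3556604) [(nat_lit 0), (nat_lit 1636005), (nat_lit 0), (nat_lit 0)]) (PF.cons (PF.leaf (nat_lit 4122180) (nat_lit 517907) (nat_lit 56315412) (nat_lit 3601091) [(nat_lit 517907), (nat_lit 1668600),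 (nat_lit 0), (nat_lit 0)]) (PF.cons (PF.leaf (nat_lit 4491938) (nat_lit 533435) (nat_lit 55602304) (nat_lit 3642565) [(nat_lit 533435), (nat_lit 1699268), (nat_lit 0), (nat_lit 0)]) (PF.cons (PF.leaf (nat_lit
 4873802) (nat_lit 547846) (nat_lit 54872931) (nat_lit 3680776) [(nat_lit 547846), (nat_lit 1727891), (nat_lit 0), (nat_lit 0)]) (PF.cons (PF.leaf (nat_lit 5266011) (nat_lit 561192) (nat_lit 54130823) (nat_lit 3715580) [(nat_lit 561192), (nat_lit 1754410), (nat_lit 0), (nat_lit 0)]) (PF.cons PF.nil (PF.cons PF.nil PF.nil))))))) (PF.cons (PF.cons (PF.leaf (nat_lit 4656811) (nat_lit 1719306) (nat_lit 54839405) (nat_lit 3672872) [(nat_lit 0), (nat_lit 1719306), (nat_lit 0), (nat_lit 0)]) (PF.cons (PF.leaf (nat_lit 5032325) (nat_lit 553472) (nat_lit 54120610) (nat_lit 3706880) [(nat_lit 553472), (nat_lit 1745569), (nat_lit 0), (nat_lit 0)]) (PF.cons (PF.leaf (nat_lit 5418590) (nat_lit 566245) (nat_lit 53389098) (nat_lit 3737761) [(nat_lit 566245), (nat_lit 1769892),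 (nat_lit 0), (nat_lit 0)]) (PF.cons (PF.leaf (nat_lit 5813605) (nat_lit 578007) (nat_lit 52648165) (nat_lit 3765429) [(nat_lit 578007), (nat_lit 1792239), (nat_lit 0), (nat_lit 0)]) (PF.cons PF.nil PF.nil))))) (PF.cons (PF.cons (PF.leaf (nat_lit 5569327) (nat_lit 1783754) (nat_lit 52649372) (nat_lit 3756913) [(nat_lit 0), (nat_lit 1783754), (nat_lit 0), (nat_lit 0)]) (PF.cons (PF.leaf (nat_lit 5957711) (nat_lit 581863)
 (nat_lit 51920858) (nat_lit 3781134) [(nat_lit 581863), (nat_lit 1804159), (nat_lit 0), (nat_lit 0)]) (PF.cons PF.nil (PF.cons PF.nil PF.nil)))) (PF.cons (PF.cons (PF.leaf (nat_lit 6489358) (nat_lit 1831510) (nat_lit 50475832) (nat_lit 3812405) [(nat_lit 0), (nat_lit 1831510), (nat_lit 0), (nat_lit 0)]) (PF.cons PF.nil PF.nil)) (PF.cons PF.nil (PF.cons PF.nil (PF.cons PF.nil PF.nil))))))))))) (PF.cons (PF.cons (PF.cons (PF.leaf (nat_lit 2067242) (nat_lit 3224283) (nat_lit 60465242) (nat_lit 3224283) [(nat_lit 0), (nat_lit 0), (nat_lit 3419286), (nat_lit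 0)]) (PF.cons (PF.leaf (nat_lit 2323306) (nat_lit 402244) (nat_lit 59947979) (nat_lit 3281395) [(nat_lit 402244), (nat_lit 0), (nat_lit 3477193), (nat_lit 0)]) (PF.cons (PF.leaf (nat_lit 2607123) (nat_lit 426165) (nat_lit 59381735) (nat_lit 3339059) [(nat_lit 426165), (nat_lit 0), (nat_lit 3535686), (nat_lit 0)]) (PF.cons (PF.leaf (nat_lit 2914203) (nat_lit 448227) (nat_lit 58775046) (nat_lit 3395815) [(nat_lit 448227), (nat_lit 0), (nat_lit 3593269), (nat_lit 0)]) (PF.cons (PF.leaf (nat_lit 3241597) (nat_lit 468694) (nat_lit 58134441) (nat_lit 3450674) [(nat_lit 468694), (nat_lit 0), (nat_lit 3648919), (nat_lit 0)]) (PF.cons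
 (PF.leaf (nat_lit 3586797) (nat_lit 487730) (nat_lit 57465271) (nat_lit 3502956) [(nat_lit 487730), (nat_lit 0), (nat_lit 3701930), (nat_lit 0)]) (PF.cons (PF.leaf (nat_lit 3947637) (nat_lit 505448) (nat_lit 56772119) (nat_lit 3552190) [(nat_lit 505448), (nat_lit 0), (nat_lit 3751813), (nat_lit 0)]) (PF.cons (PF.leaf (nat_lit 4322160) (nat_lit 521927) (nat_lit 56059015) (nat_lit 3598064) [(nat_lit 521927), (nat_lit 0), (nat_lit 3798239), (nat_lit 0)]) (PF.cons (PF.leaf (nat_lit 4708580) (nat_lit 537233) (nat_lit 55329565) (nat_lit 3640379) [(nat_lit 537233), (nat_lit 0), (nat_lit 3840999), (nat_lit 0)]) (PF.cons PF.nil (PF.cons PF.nil (PF.cons PF.nil PF.nil)))))))))))) (PF.cons (PF.cons (PF.leaf (nat_lit 2796266) (nat_lit 1514601) (nat_lit 58599394) (nat_lit 3398448) [(nat_lit 0), (nat_lit 1514601), (nat_lit 3596368), (nat_lit 0)]) (PF.cons (PF.leaf (nat_lit 3096589) (nat_lit 457861) (nat_lit 58001122) (nat_lit 3449184) [(nat_lit 457861), (nat_lit 1552869), (nat_lit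 3647775), (nat_lit 0)]) (PF.cons (PF.leaf (nat_lit 3418594) (nat_lit 477744) (nat_lit 57367345) (nat_lit 3498479) [(nat_lit 477744), (nat_lit 1589793), (nat_lit 3697705), (nat_lit 0)]) (PF.cons (PF.leaf (nat_lit
 3758832) (nat_lit 496141) (nat_lit 56704454) (nat_lit 3545567) [(nat_lit 496141), (nat_lit 1624999), (nat_lit 3745366), (nat_lit 0)]) (PF.cons (PF.leaf (nat_lit 4114867) (nat_lit 513196) (nat_lit 56017617) (nat_lit 3589929) [(nat_lit 513196), (nat_lit 1658257), (nat_lit 3790223), (nat_lit 0)]) (PF.cons (PF.leaf (nat_lit 4484584) (nat_lit 529007) (nat_lit 55311195) (nat_lit 3631224) [(nat_lit 529007), (nat_lit 1689431), (nat_lit 3831921), (nat_lit 0)]) (PF.cons (PF.leaf (nat_lit 4866105) (nat_lit 543652) (nat_lit 54588978) (nat_lit 3669234) [(nat_lit 543652), (nat_lit 1718449), (nat_lit 3870232), (nat_lit 0)]) (PF.cons (PF.leaf (nat_lit 5257717) (nat_lit 557193) (nat_lit 53854314) (nat_lit 3703836) [(nat_lit 557193), (nat_lit 1745280), (nat_lit 3905028), (nat_lit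 0)]) (PF.cons PF.nil (PF.cons PF.nil PF.nil)))))))))) (PF.cons (PF.cons (PF.leaf (nat_lit 3597335) (nat_lit 1617684) (nat_lit 56589339) (nat_lit 3542033) [(nat_lit 0), (nat_lit 1617684), (nat_lit 3742070), (nat_lit 0)]) (PF.cons (PF.leaf (nat_lit 3930822) (nat_lit 503533) (nat_lit 55936677) (nat_lit 3584117) [(nat_lit 503533), (nat_lit 1649952), (nat_lit 3784579), (nat_lit 0)]) (PF.cons (PF.leaf (nat_lit 4281011) (nat_lit
 520032) (nat_lit 55259243) (nat_lit 3623825) [(nat_lit 520032), (nat_lit 1680520), (nat_lit 3824638), (nat_lit 0)]) (PF.cons (PF.leaf (nat_lit 4645146) (nat_lit 535263) (nat_lit 54561992) (nat_lit 3660771) [(nat_lit 535263), (nat_lit 1709206), (nat_lit 3861846), (nat_lit 0)]) (PF.cons (PF.leaf (nat_lit 5021177) (nat_lit 549320) (nat_lit 53849053) (nat_lit 3694708) [(nat_lit 549320), (nat_lit 1735909), (nat_lit 3895950), (nat_lit 0)]) (PF.cons (PF.leaf (nat_lit 5407321) (nat_lit 562277) (nat_lit 53123963) (nat_lit 3725494) [(nat_lit 562277), (nat_lit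 1760583), (nat_lit 3926802), (nat_lit 0)]) (PF.cons PF.nil (PF.cons PF.nil (PF.cons PF.nil PF.nil))))))))) (PF.cons (PF.cons (PF.leaf (nat_lit 4447247) (nat_lit 1700862) (nat_lit 54496797) (nat_lit 3654121) [(nat_lit 0), (nat_lit 1700862), (nat_lit 3855306), (nat_lit 0)]) (PF.cons (PF.leaf (nat_lit 4804528) (nat_lit 540698) (nat_lit 53811456) (nat_lit 3686925) [(nat_lit 540698), (nat_lit 1727162), (nat_lit 3888243), (nat_lit 0)]) (PF.cons (PF.leaf (nat_lit 5174370) (nat_lit 554247) (nat_lit 53109965) (nat_lit 3717005) [(nat_lit 554247), (nat_lit 1751661), (nat_lit 3918364), (nat_lit 0)]) (PF.cons (PF.leaf (nat_lit 5554513) (nat_lit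
 566688) (nat_lit 52396204) (nat_lit 3744190) [(nat_lit 566688), (nat_lit 1774285), (nat_lit 3945497), (nat_lit 0)]) (PF.cons (PF.leaf (nat_lit 5943247) (nat_lit 578094) (nat_lit 51673455) (nat_lit 3768396) [(nat_lit 578094), (nat_lit 1795010), (nat_lit 3969553), (nat_lit 0)]) (PF.cons PF.nil (PF.cons PF.nil PF.nil))))))) (PF.cons (PF.cons (PF.leaf (nat_lit 5326636) (nat_lit 1765809) (nat_lit 52371584) (nat_lit 3736317) [(nat_lit 0), (nat_lit 1765809), (nat_lit 3937673), (nat_lit 0)]) (PF.cons (PF.leaf (nat_lit 5699856) (nat_lit 570434) (nat_lit 51671041) (nat_lit 3760103) [(nat_lit 570434), (nat_lit 1786484), (nat_lit 3961296), (nat_lit 0)]) (PF.cons (PF.leaf (nat_lit 6082206) (nat_lit 581391) (nat_lit 50961200) (nat_lit 3781145) [(nat_lit 581391), (nat_lit 1805399), (nat_lit 3982085), (nat_lit 0)]) (PF.cons PF.nil (PF.cons PF.nil PF.nil))))) (PF.cons (PF.cons (PF.leaf (nat_lit 6219672) (nat_lit 1814470) (nat_lit 50252911) (nat_lit 3791461) [(nat_lit 0), (nat_lit 1814470),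 (nat_lit 3992088), (nat_lit 0)]) (PF.cons (PF.leaf (nat_lit 6602387) (nat_lit 593688) (nat_lit 49550878) (nat_lit 3806955) [(nat_lit 593688), (nat_lit 1830028), (nat_lit 4007149), (nat_lit 0)]) (PF.cons PF.nil
 (PF.cons PF.nil PF.nil)))) (PF.cons (PF.cons (PF.leaf (nat_lit 7113782) (nat_lit 1848882) (nat_lit 48170582) (nat_lit 3822908) [(nat_lit 0), (nat_lit 1848882), (nat_lit 4022024), (nat_lit 0)]) (PF.cons PF.nil PF.nil)) (PF.cons PF.nil (PF.cons PF.nil PF.nil))))))))) (PF.cons (PF.cons (PF.cons (PF.leaf (nat_lit 3450744) (nat_lit 3528805) (nat_lit 56121347) (nat_lit 3528805) [(nat_lit 0), (nat_lit 0), (nat_lit 3729330), (nat_lit 0)]) (PF.cons (PF.leaf (nat_lit 3759307) (nat_lit 486446) (nat_lit 55516799) (nat_lit 3568006) [(nat_lit 486446), (nat_lit 0), (nat_lit 3768780), (nat_lit 0)]) (PF.cons (PF.leaf (nat_lit 4087658) (nat_lit 504482) (nat_lit 54881033) (nat_lit 3605620) [(nat_lit 504482), (nat_lit 0), (nat_lit 3806596), (nat_lit 0)]) (PF.cons (PF.leaf (nat_lit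 4432307) (nat_lit 520940) (nat_lit 54220560) (nat_lit 3641064) [(nat_lit 520940), (nat_lit 0), (nat_lit 3842183), (nat_lit 0)]) (PF.cons (PF.leaf (nat_lit 4790786) (nat_lit 536011) (nat_lit 53540505) (nat_lit 3673963) [(nat_lit 536011), (nat_lit 0), (nat_lit 3875149), (nat_lit 0)]) (PF.cons (PF.leaf (nat_lit 5161008) (nat_lit 549829) (nat_lit 52845090) (nat_lit 3704076) [(nat_lit 549829), (nat_lit 0), (nat_lit 3905249),
 (nat_lit 0)]) (PF.cons (PF.leaf (nat_lit 5541176) (nat_lit 562497) (nat_lit 52137890) (nat_lit 3731264) [(nat_lit 562497), (nat_lit 0), (nat_lit 3932336), (nat_lit 0)]) (PF.cons PF.nil (PF.cons PF.nil PF.nil))))))))) (PF.cons (PF.cons (PF.leaf (nat_lit 4256780) (nat_lit 1681372) (nat_lit 54117030) (nat_lit 3635951) [(nat_lit 0), (nat_lit 1681372), (nat_lit 3837229), (nat_lit 0)]) (PF.cons (PF.leaf (nat_lit 4593647) (nat_lit 526092) (nat_lit 53470484) (nat_lit 3667289) [(nat_lit 526092), (nat_lit 1707760), (nat_lit 3868593), (nat_lit 0)]) (PF.cons (PF.leaf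 (nat_lit 4945389) (nat_lit 540747) (nat_lit 52803162) (nat_lit 3696379) [(nat_lit 540747), (nat_lit 1732496), (nat_lit 3897638), (nat_lit 0)]) (PF.cons (PF.leaf (nat_lit 5309300) (nat_lit 554116) (nat_lit 52119890) (nat_lit 3722945) [(nat_lit 554116), (nat_lit 1755463), (nat_lit 3924082), (nat_lit 0)]) (PF.cons (PF.leaf (nat_lit 5683402) (nat_lit 566321) (nat_lit 51424595) (nat_lit 3746821) [(nat_lit 566321), (nat_lit 1776603), (nat_lit 3947753), (nat_lit 0)]) (PF.cons (PF.leaf (nat_lit 6065985) (nat_lit 577455) (nat_lit 50720570) (nat_lit 3767925) [(nat_lit 577455), (nat_lit 1795902), (nat_lit 3968567), (nat_lit 0)]) (PF.cons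
 PF.nil PF.nil))))))) (PF.cons (PF.cons (PF.leaf (nat_lit 5100197) (nat_lit 1746996) (nat_lit 52064810) (nat_lit 3715860) [(nat_lit 0), (nat_lit 1746996), (nat_lit 3917074), (nat_lit 0)]) (PF.cons (PF.leaf (nat_lit 5456632) (nat_lit 557688) (nat_lit 51395983) (nat_lit 3739063) [(nat_lit 557688), (nat_lit 1767983), (nat_lit 3940054), (nat_lit 0)]) (PF.cons (PF.leaf (nat_lit 5824027) (nat_lit 569506) (nat_lit 50714371) (nat_lit 3759815) [(nat_lit 569506), (nat_lit 1787299), (nat_lit 3960506), (nat_lit 0)]) (PF.cons (PF.leaf (nat_lit 6200210) (nat_lit 580239) (nat_lit 50023617) (nat_lit 3778011) [(nat_lit 580239), (nat_lit 1804909), (nat_lit 3978322), (nat_lit 0)]) (PF.cons PF.nil PF.nil))))) (PF.cons (PF.cons (PF.leaf (nat_lit 5963985) (nat_lit 1796682) (nat_lit 50006873) (nat_lit 3770393) [(nat_lit 0), (nat_lit 1796682), (nat_lit 3970749), (nat_lit 0)]) (PF.cons (PF.leaf (nat_lit 6332935) (nat_lit 582451) (nat_lit 49330938) (nat_lit 3785856) [(nat_lit 582451), (nat_lit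 1812688), (nat_lit 3985749), (nat_lit 0)]) (PF.cons (PF.leaf (nat_lit 6709690) (nat_lit 591845) (nat_lit 48648331) (nat_lit 3798919) [(nat_lit 591845), (nat_lit 1827107), (nat_lit 3998273), (nat_lit 0)]) (PF.cons
 PF.nil PF.nil)))) (PF.cons (PF.cons (PF.leaf (nat_lit 6834642) (nat_lit 1832330) (nat_lit 47975094) (nat_lit 3802276) [(nat_lit 0), (nat_lit 1832330), (nat_lit 4001060), (nat_lit 0)]) (PF.cons (PF.leaf (nat_lit 7210451) (nat_lit 601373) (nat_lit 47303526) (nat_lit 3810731) [(nat_lit 601373), (nat_lit 1843877), (nat_lit 4008835), (nat_lit 0)]) PF.nil)) (PF.cons PF.nil (PF.cons PF.nil (PF.cons PF.nil PF.nil)))))))) (PF.cons (PF.cons (PF.cons (PF.leaf (nat_lit 4892596) (nat_lit 3695601) (nat_lit 51723003) (nat_lit 3695601) [(nat_lit 0), (nat_lit 0), (nat_lit 3896736), (nat_lit 0)]) (PF.cons (PF.leaf (nat_lit 5229968) (nat_lit 543112) (nat_lit 51091043) (nat_lit 3718031) [(nat_lit 543112), (nat_lit 0), (nat_lit 3918875), (nat_lit 0)]) (PF.cons (PF.leaf (nat_lit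 5580666) (nat_lit 556127) (nat_lit 50441640) (nat_lit 3738363) [(nat_lit 556127), (nat_lit 0), (nat_lit 3938851), (nat_lit 0)]) (PF.cons (PF.leaf (nat_lit 5942050) (nat_lit 567859) (nat_lit 49779415) (nat_lit 3756406) [(nat_lit 567859), (nat_lit 0), (nat_lit 3956470), (nat_lit 0)]) (PF.cons (PF.leaf (nat_lit 6312188) (nat_lit 578451) (nat_lit 49108057) (nat_lit 3772060) [(nat_lit 578451), (nat_lit 0), (nat_lit 3971629),
 (nat_lit 0)]) (PF.cons (PF.leaf (nat_lit 6689468) (nat_lit 588011) (nat_lit 48430603) (nat_lit 3785285) [(nat_lit 588011), (nat_lit 0), (nat_lit 3984288), (nat_lit 0)]) (PF.cons PF.nil PF.nil))))))) (PF.cons (PF.cons (PF.leaf (nat_lit 5724113) (nat_lit 1777964) (nat_lit 49733656) (nat_lit 3749206) [(nat_lit 0), (nat_lit 1777964), (nat_lit 3949328), (nat_lit 0)]) (PF.cons (PF.leaf (nat_lit 6077631) (nat_lit 569902) (nat_lit 49087406) (nat_lit 3764538) [(nat_lit 569902), (nat_lit 1794478), (nat_lit 3964162), (nat_lit 0)]) (PF.cons (PF.leaf (nat_lit 6440773)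 (nat_lit 580212) (nat_lit 48431042) (nat_lit 3777679) [(nat_lit 580212), (nat_lit 1809452), (nat_lit 3976737), (nat_lit 0)]) (PF.cons (PF.leaf (nat_lit 6811462) (nat_lit 589470) (nat_lit 47767958) (nat_lit 3788572) [(nat_lit 589470), (nat_lit 1822879), (nat_lit 3986997), (nat_lit 0)]) (PF.cons PF.nil PF.nil))))) (PF.cons (PF.cons (PF.leaf (nat_lit 6568986) (nat_lit 1814989) (nat_lit 47758032) (nat_lit 3781347) [(nat_lit 0), (nat_lit 1814989), (nat_lit 3979817), (nat_lit 0)]) (PF.cons (PF.leaf (nat_lit 6932296) (nat_lit 590433) (nat_lit 47110596) (nat_lit 3790058) [(nat_lit 590433), (nat_lit 1827107), (nat_lit 3987836), (nat_lit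
 0)]) (PF.cons (PF.leaf (nat_lit 7302328) (nat_lit 598485) (nat_lit 46458482) (nat_lit 3796675) [(nat_lit 598485), (nat_lit 1837796), (nat_lit 3993697), (nat_lit 0)]) (PF.cons PF.nil PF.nil)))) (PF.cons (PF.cons (PF.leaf (nat_lit 7415658) (nat_lit 1839940) (nat_lit 45821890) (nat_lit 3794580) [(nat_lit 0), (nat_lit 1839940), (nat_lit 3990839), (nat_lit 0)]) (PF.cons PF.nil PF.nil)) (PF.cons PF.nil (PF.cons PF.nil PF.nil)))))) (PF.cons (PF.cons (PF.cons (PF.leaf (nat_lit 6318625) (nat_lit 3760097) (nat_lit 47515595) (nat_lit 3760097) [(nat_lit 0), (nat_lit 0), (nat_lit 3958279), (nat_lit 0)]) (PF.cons (PF.leaf (nat_lit 6667736) (nat_lit 578193) (nat_lit 46895701) (nat_lit 3769005) [(nat_lit 578193), (nat_lit 0), (nat_lit 3966477), (nat_lit 0)]) (PF.cons (PF.leaf (nat_lit 7025378) (nat_lit 587194) (nat_lit 46267796) (nat_lit 3775962) [(nat_lit 587194), (nat_lit 0), (nat_lit 3972666), (nat_lit 0)]) (PF.cons (PF.leaf (nat_lit 7389544) (nat_lit 595181) (nat_lit 45635021)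 (nat_lit 3780946) [(nat_lit 595181), (nat_lit 0), (nat_lit 3976824), (nat_lit 0)]) (PF.cons PF.nil PF.nil))))) (PF.cons (PF.cons (PF.leaf (nat_lit 7142553) (nat_lit 1823232) (nat_lit 45630907) (nat_lit 3774190)
 [(nat_lit 0), (nat_lit 1823232), (nat_lit 3970120), (nat_lit 0)]) (PF.cons (PF.leaf (nat_lit 7499313) (nat_lit 595133) (nat_lit 45014054) (nat_lit 3777450) [(nat_lit 595133), (nat_lit 1832119), (nat_lit 3972513), (nat_lit 0)]) (PF.cons (PF.leaf (nat_lit 7861914) (nat_lit 602036) (nat_lit 44394021) (nat_lit 3778884) [(nat_lit 602036), (nat_lit 1839722), (nat_lit 3973028), (nat_lit 0)]) (PF.cons PF.nil PF.nil)))) (PF.cons (PF.cons (PF.leaf (nat_lit 7964553) (nat_lit 1839416) (nat_lit 43794273) (nat_lit 3772546) [(nat_lit 0), (nat_lit 1839416), (nat_lit 3965790), (nat_lit 0)]) (PF.cons PF.nil PF.nil)) (PF.cons PF.nil (PF.cons PF.nil PF.nil))))) (PF.cons (PF.cons (PF.cons (PF.leaf (nat_lit 7686106) (nat_lit 3752953) (nat_lit 43626534) (nat_lit 3752953) [(nat_lit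 0), (nat_lit 0), (nat_lit 3945864), (nat_lit 0)]) (PF.cons (PF.leaf (nat_lit 8035732) (nat_lit 597175) (nat_lit 43041058) (nat_lit 3751832) [(nat_lit 597175), (nat_lit 0), (nat_lit 3943749), (nat_lit 0)]) (PF.cons PF.nil (PF.cons PF.nil PF.nil)))) (PF.cons (PF.cons (PF.leaf (nat_lit 8483366) (nat_lit 1832472) (nat_lit 41889870) (nat_lit 3739512) [(nat_lit 0), (nat_lit 1832472), (nat_lit 3929391), (nat_lit 0)]) (PF.cons PF.nil
 PF.nil)) (PF.cons PF.nil PF.nil))) (PF.cons (PF.cons (PF.cons (PF.leaf (nat_lit 8974227) (nat_lit 3698137) (nat_lit 40104166) (nat_lit 3698137) [(nat_lit 0), (nat_lit 0), (nat_lit 3884418), (nat_lit 0)]) (PF.cons PF.nil PF.nil)) (PF.cons PF.nil PF.nil)) (PF.cons PF.nil (PF.cons PF.nil PF.nil))))))))) (PF.cons (PF.cons (PF.cons (PF.cons (PF.leaf (nat_lit 3158180) (nat_lit 3414396) (nat_lit 54327882) (nat_lit 3414396) [(nat_lit 0), (nat_lit 0), (nat_lit 0), (nat_lit 9366533)]) (PF.cons (PF.leaf (nat_lit 3418820) (nat_lit 436457) (nat_lit 53836022)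 (nat_lit 3452323) [(nat_lit 436457), (nat_lit 0), (nat_lit 0), (nat_lit 9384008)]) (PF.cons (PF.leaf (nat_lit 3704635) (nat_lit 458428) (nat_lit 53302657) (nat_lit 3489842) [(nat_lit 458428), (nat_lit 0), (nat_lit 0), (nat_lit 9399456)]) (PF.cons (PF.leaf (nat_lit 4010909) (nat_lit 478105) (nat_lit 52736466) (nat_lit 3525995) [(nat_lit 478105), (nat_lit 0), (nat_lit 0), (nat_lit 9412034)]) (PF.cons (PF.leaf (nat_lit 4334433) (nat_lit 495889) (nat_lit 52143927) (nat_lit 3560171) [(nat_lit 495889), (nat_lit 0), (nat_lit 0), (nat_lit 9421154)]) (PF.cons (PF.leaf (nat_lit 4672682) (nat_lit 512048) (nat_lit 51530178) (nat_lit 3591978) [(nat_lit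
 512048), (nat_lit 0), (nat_lit 0), (nat_lit 9426411)]) (PF.cons (PF.leaf (nat_lit 5023516) (nat_lit 526773) (nat_lit 50899460) (nat_lit 3621169) [(nat_lit 526773), (nat_lit 0), (nat_lit 0), (nat_lit 9427542)]) (PF.cons (PF.leaf (nat_lit 5385071) (nat_lit 540207) (nat_lit 50255369) (nat_lit 3647600) [(nat_lit 540207), (nat_lit 0), (nat_lit 0), (nat_lit 9424392)]) (PF.cons (PF.leaf (nat_lit 5755762) (nat_lit 552463) (nat_lit 49601006) (nat_lit 3671202) [(nat_lit 552463), (nat_lit 0), (nat_lit 0), (nat_lit 9416896)]) (PF.cons (PF.leaf (nat_lit 6134078) (nat_lit 563635) (nat_lit 48939078) (nat_lit 3691959) [(nat_lit 563635), (nat_lit 0), (nat_lit 0), (nat_lit 9405059)]) (PF.cons PF.nil (PF.cons PF.nil PF.nil)))))))))))) (PF.cons (PF.cons (PF.leaf (nat_lit 3875145) (nat_lit 1596167) (nat_lit 52582227) (nat_lit 3523212) [(nat_lit 0), (nat_lit 1596167), (nat_lit 0), (nat_lit 9407205)]) (PF.cons (PF.leaf (nat_lit 4172826) (nat_lit 483911) (nat_lit 52029590) (nat_lit 3555005)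 [(nat_lit 483911), (nat_lit 1625347), (nat_lit 0), (nat_lit 9414958)]) (PF.cons (PF.leaf (nat_lit 4489353) (nat_lit 501276) (nat_lit 51448720) (nat_lit 3585200) [(nat_lit 501276), (nat_lit 1652919), (nat_lit 0),
 (nat_lit 9419418)]) (PF.cons (PF.leaf (nat_lit 4821296) (nat_lit 516967) (nat_lit 50845697) (nat_lit 3613336) [(nat_lit 516967), (nat_lit 1678684), (nat_lit 0), (nat_lit 9420190)]) (PF.cons (PF.leaf (nat_lit 5166229) (nat_lit 531205) (nat_lit 50225286) (nat_lit 3639125) [(nat_lit 531205), (nat_lit 1702550), (nat_lit 0), (nat_lit 9417026)]) (PF.cons (PF.leaf (nat_lit 5522156) (nat_lit 544151) (nat_lit 49591382) (nat_lit 3662393) [(nat_lit 544151), (nat_lit 1724491), (nat_lit 0), (nat_lit 9409788)]) (PF.cons (PF.leaf (nat_lit 5887306) (nat_lit 555927) (nat_lit 48947256) (nat_lit 3683053) [(nat_lit 555927), (nat_lit 1744515), (nat_lit 0), (nat_lit 9398421)]) (PF.cons (PF.leaf (nat_lit 6260197) (nat_lit 566633) (nat_lit 48295709) (nat_lit 3701072) [(nat_lit 566633),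 (nat_lit 1762657), (nat_lit 0), (nat_lit 9382938)]) (PF.cons (PF.leaf (nat_lit 6639461) (nat_lit 576351) (nat_lit 47639164) (nat_lit 3716461) [(nat_lit 576351), (nat_lit 1778968), (nat_lit 0), (nat_lit 9363404)]) (PF.cons PF.nil PF.nil)))))))))) (PF.cons (PF.cons (PF.leaf (nat_lit 4645962) (nat_lit 1669918) (nat_lit 50748916) (nat_lit 3607258) [(nat_lit 0), (nat_lit 1669918), (nat_lit 0), (nat_lit 9412800)]) (PF.cons
 (PF.leaf (nat_lit 4970065) (nat_lit 521046) (nat_lit 50159585) (nat_lit 3631905) [(nat_lit 521046), (nat_lit 1693422), (nat_lit 0), (nat_lit 9409430)]) (PF.cons (PF.leaf (nat_lit 5308267) (nat_lit 534908) (nat_lit 49551703) (nat_lit 3654478) [(nat_lit 534908), (nat_lit 1715253), (nat_lit 0), (nat_lit 9402307)]) (PF.cons (PF.leaf (nat_lit 5657912) (nat_lit 547451) (nat_lit 48929701) (nat_lit 3674770) [(nat_lit 547451), (nat_lit 1735341), (nat_lit 0), (nat_lit 9391303)]) (PF.cons (PF.leaf (nat_lit 6017115) (nat_lit 558816) (nat_lit 48297166) (nat_lit 3692667)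 [(nat_lit 558816), (nat_lit 1753667), (nat_lit 0), (nat_lit 9376376)]) (PF.cons (PF.leaf (nat_lit 6384235) (nat_lit 569115) (nat_lit 47657078) (nat_lit 3708119) [(nat_lit 569115), (nat_lit 1770246), (nat_lit 0), (nat_lit 9357546)]) (PF.cons (PF.leaf (nat_lit 6757855) (nat_lit 578434) (nat_lit 47011967) (nat_lit 3721126) [(nat_lit 578434), (nat_lit 1785114), (nat_lit 0), (nat_lit 9334883)]) (PF.cons PF.nil (PF.cons PF.nil PF.nil))))))))) (PF.cons (PF.cons (PF.leaf (nat_lit 5450750) (nat_lit 1726579) (nat_lit 48878143) (nat_lit 3667391) [(nat_lit 0), (nat_lit 1726579), (nat_lit 0), (nat_lit 9383540)]) (PF.cons (PF.leaf (nat_lit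
 5793042) (nat_lit 550102) (nat_lit 48270005) (nat_lit 3684877) [(nat_lit 550102), (nat_lit 1744907), (nat_lit 0), (nat_lit 9369107)]) (PF.cons (PF.leaf (nat_lit 6145702) (nat_lit 561134) (nat_lit 47650548) (nat_lit 3700178) [(nat_lit 561134), (nat_lit 1761626), (nat_lit 0), (nat_lit 9350937)]) (PF.cons (PF.leaf (nat_lit 6506636) (nat_lit 571086) (nat_lit 47023075) (nat_lit 3713225) [(nat_lit 571086), (nat_lit 1776731), (nat_lit 0), (nat_lit 9329057)]) (PF.cons (PF.leaf (nat_lit 6874322) (nat_lit 580060) (nat_lit 46390304) (nat_lit 3724003) [(nat_lit 580060), (nat_lit 1790240), (nat_lit 0), (nat_lit 9303545)]) (PF.cons (PF.leaf (nat_lit 7247438) (nat_lit 588135) (nat_lit 45754518) (nat_lit 3732529) [(nat_lit 588135), (nat_lit 1802192), (nat_lit 0), (nat_lit 9274508)]) (PF.cons PF.nil PF.nil))))))) (PF.cons (PF.cons (PF.leaf (nat_lit 6273994) (nat_lit 1768468) (nat_lit 47006984) (nat_lit 3705708) [(nat_lit 0), (nat_lit 1768468), (nat_lit 0), (nat_lit 9322246)]) (PF.cons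 (PF.leaf (nat_lit 6627942) (nat_lit 572549) (nat_lit 46393422) (nat_lit 3716504) [(nat_lit 572549), (nat_lit 1782178), (nat_lit 0), (nat_lit 9297621)]) (PF.cons (PF.leaf (nat_lit 6989305) (nat_lit 581233) (nat_lit
 45773979) (nat_lit 3725198) [(nat_lit 581233), (nat_lit 1794407), (nat_lit 0), (nat_lit 9269541)]) (PF.cons (PF.leaf (nat_lit 7356391) (nat_lit 589016) (nat_lit 45151132) (nat_lit 3731796) [(nat_lit 589016), (nat_lit 1805179), (nat_lit 0), (nat_lit 9238118)]) (PF.cons (PF.leaf (nat_lit 7727971) (nat_lit 595974) (nat_lit 44526943) (nat_lit 3736335) [(nat_lit 595974), (nat_lit 1814535), (nat_lit 0), (nat_lit 9203493)]) PF.nil))))) (PF.cons (PF.cons (PF.leaf (nat_lit 7103574) (nat_lit 1797671) (nat_lit 45162648) (nat_lit 3724806) [(nat_lit 0), (nat_lit 1797671), (nat_lit 0), (nat_lit 9232998)]) (PF.cons (PF.leaf (nat_lit 7464012) (nat_lit 589493) (nat_lit 44553587) (nat_lit 3729609) [(nat_lit 589493), (nat_lit 1807333), (nat_lit 0), (nat_lit 9199452)]) (PF.cons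 (PF.leaf (nat_lit 7829519) (nat_lit 596205) (nat_lit 43942705) (nat_lit 3732491) [(nat_lit 596205), (nat_lit 1815667), (nat_lit 0), (nat_lit 9162865)]) (PF.cons PF.nil PF.nil)))) (PF.cons (PF.cons (PF.leaf (nat_lit 7930138) (nat_lit 1816078) (nat_lit 43364641) (nat_lit 3727392) [(nat_lit 0), (nat_lit 1816078), (nat_lit 0), (nat_lit 9120309)]) (PF.cons (PF.leaf (nat_lit 8293018) (nat_lit 601827) (nat_lit 42767287) (nat_lit
 3726981) [(nat_lit 601827), (nat_lit 1822243), (nat_lit 0), (nat_lit 9079257)]) PF.nil)) (PF.cons PF.nil (PF.cons PF.nil PF.nil))))))))) (PF.cons (PF.cons (PF.cons (PF.leaf (nat_lit 4473676) (nat_lit 3586152) (nat_lit 50356395) (nat_lit 3586152) [(nat_lit 0), (nat_lit 0), (nat_lit 3784998), (nat_lit 9381266)]) (PF.cons (PF.leaf (nat_lit 4775007) (nat_lit 502799) (nat_lit 49810957) (nat_lit 3609766) [(nat_lit 502799), (nat_lit 0), (nat_lit 3808187), (nat_lit 9377102)]) (PF.cons (PF.leaf (nat_lit 5093666) (nat_lit 518532) (nat_lit 49240661) (nat_lit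 3631774) [(nat_lit 518532), (nat_lit 0), (nat_lit 3829737), (nat_lit 9369574)]) (PF.cons (PF.leaf (nat_lit 5426209) (nat_lit 532574) (nat_lit 48651454) (nat_lit 3651838) [(nat_lit 532574), (nat_lit 0), (nat_lit 3849303), (nat_lit 9358491)]) (PF.cons (PF.leaf (nat_lit 5770263) (nat_lit 545177) (nat_lit 48047909) (nat_lit 3669758) [(nat_lit 545177), (nat_lit 0), (nat_lit 3866678), (nat_lit 9343756)]) (PF.cons (PF.leaf (nat_lit 6123865) (nat_lit 556521) (nat_lit 47433693) (nat_lit 3685422) [(nat_lit 556521), (nat_lit 0), (nat_lit 3881748), (nat_lit 9325343)]) (PF.cons (PF.leaf (nat_lit 6485397) (nat_lit 566741) (nat_lit 46811834) (nat_lit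
 3698784) [(nat_lit 566741), (nat_lit 0), (nat_lit 3894462), (nat_lit 9303284)]) (PF.cons (PF.leaf (nat_lit 6853406) (nat_lit 575945) (nat_lit 46184879) (nat_lit 3709841) [(nat_lit 575945), (nat_lit 0), (nat_lit 3904818), (nat_lit 9277653)]) (PF.cons (PF.leaf (nat_lit 7226657) (nat_lit 584223) (nat_lit 45555000) (nat_lit 3718624) [(nat_lit 584223), (nat_lit 0), (nat_lit 3912844), (nat_lit 9248556)]) (PF.cons PF.nil PF.nil)))))))))) (PF.cons (PF.cons (PF.leaf (nat_lit 5240860) (nat_lit 1705184) (nat_lit 48565834) (nat_lit 3645125) [(nat_lit 0), (nat_lit 1705184), (nat_lit 3842682), (nat_lit 9349985)]) (PF.cons (PF.leaf (nat_lit 5565044) (nat_lit 535028) (nat_lit 47992075) (nat_lit 3662366) [(nat_lit 535028), (nat_lit 1724237), (nat_lit 3859370), (nat_lit 9335734)]) (PF.cons (PF.leaf (nat_lit 5901926) (nat_lit 547377) (nat_lit 47402584) (nat_lit 3677687) [(nat_lit 547377), (nat_lit 1741722), (nat_lit 3874092), (nat_lit 9317971)]) (PF.cons (PF.leaf (nat_lit 6248955) (nat_lit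 558430) (nat_lit 46801578) (nat_lit 3690948) [(nat_lit 558430), (nat_lit 1757602), (nat_lit 3886705), (nat_lit 9296686)]) (PF.cons (PF.leaf (nat_lit 6604281) (nat_lit 568342) (nat_lit 46192407) (nat_lit 3702085)
 [(nat_lit 568342), (nat_lit 1771885), (nat_lit 3897141), (nat_lit 9271922)]) (PF.cons (PF.leaf (nat_lit 6966370) (nat_lit 577234) (nat_lit 45577813) (nat_lit 3711080) [(nat_lit 577234), (nat_lit 1784599), (nat_lit 3905385), (nat_lit 9243762)]) (PF.cons (PF.leaf (nat_lit 7333901) (nat_lit 585202) (nat_lit 44960086) (nat_lit 3717953) [(nat_lit 585202), (nat_lit 1795791), (nat_lit 3911453), (nat_lit 9212315)]) (PF.cons PF.nil (PF.cons PF.nil PF.nil))))))))) (PF.cons (PF.cons (PF.leaf (nat_lit 6034265) (nat_lit 1749036) (nat_lit 46758774) (nat_lit 3683628) [(nat_lit 0), (nat_lit 1749036), (nat_lit 3879446), (nat_lit 9288890)]) (PF.cons (PF.leaf (nat_lit 6373661) (nat_lit 559772) (nat_lit 46172650) (nat_lit 3694636) [(nat_lit 559772), (nat_lit 1763474), (nat_lit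 3889758), (nat_lit 9265047)]) (PF.cons (PF.leaf (nat_lit 6722253) (nat_lit 569448) (nat_lit 45577407) (nat_lit 3703691) [(nat_lit 569448), (nat_lit 1776442), (nat_lit 3898066), (nat_lit 9237866)]) (PF.cons (PF.leaf (nat_lit 7078038) (nat_lit 578085) (nat_lit 44976111) (nat_lit 3710761) [(nat_lit 578085), (nat_lit 1787951), (nat_lit 3904339), (nat_lit 9207441)]) (PF.cons (PF.leaf (nat_lit 7439577) (nat_lit 585791) (nat_lit
 44371251) (nat_lit 3715853) [(nat_lit 585791), (nat_lit 1798034), (nat_lit 3908585), (nat_lit 9173889)]) (PF.cons (PF.leaf (nat_lit 7805638) (nat_lit 592652) (nat_lit 43764888) (nat_lit 3719001) [(nat_lit 592652), (nat_lit 1806736), (nat_lit 3910838), (nat_lit 9137348)]) (PF.cons PF.nil PF.nil))))))) (PF.cons (PF.cons (PF.leaf (nat_lit 6840204) (nat_lit 1780084) (nat_lit 44966312) (nat_lit 3703695) [(nat_lit 0), (nat_lit 1780084), (nat_lit 3897331), (nat_lit 9201219)]) (PF.cons (PF.leaf (nat_lit 7188919) (nat_lit 578494) (nat_lit 44379401) (nat_lit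 3708971) [(nat_lit 578494), (nat_lit 1790457), (nat_lit 3901772), (nat_lit 9168800)]) (PF.cons (PF.leaf (nat_lit 7544105) (nat_lit 585990) (nat_lit 43788215) (nat_lit 3712407) [(nat_lit 585990), (nat_lit 1799498), (nat_lit 3904324), (nat_lit 9133390)]) (PF.cons (PF.leaf (nat_lit 7904155) (nat_lit 592634) (nat_lit 43195014) (nat_lit 3714026) [(nat_lit 592634), (nat_lit 1807241), (nat_lit 3905013), (nat_lit 9095131)]) (PF.cons PF.nil PF.nil))))) (PF.cons (PF.cons (PF.leaf (nat_lit 7648219) (nat_lit 1800227) (nat_lit 43210561) (nat_lit 3707686) [(nat_lit 0), (nat_lit 1800227), (nat_lit 3898744), (nat_lit 9090909)]) (PF.cons (PF.leaf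
 (nat_lit 8001675) (nat_lit 592268) (nat_lit 42631217) (nat_lit 3707889) [(nat_lit 592268), (nat_lit 1807072), (nat_lit 3897987), (nat_lit 9051161)]) (PF.cons (PF.leaf (nat_lit 8359448) (nat_lit 597959) (nat_lit 42051142) (nat_lit 3706433) [(nat_lit 597959), (nat_lit 1812737), (nat_lit 3895527), (nat_lit 9008839)]) (PF.cons PF.nil PF.nil)))) (PF.cons (PF.cons (PF.leaf (nat_lit 8450377) (nat_lit 1811156) (nat_lit 41506864) (nat_lit 3697993) [(nat_lit 0), (nat_lit 1811156), (nat_lit 3886137), (nat_lit 8962032)]) (PF.cons PF.nil PF.nil)) (PF.cons PF.nil (PF.cons PF.nil PF.nil)))))))) (PF.cons (PF.cons (PF.cons (PF.leaf (nat_lit 5812704) (nat_lit 3661182) (nat_lit 46479907) (nat_lit 3661182) [(nat_lit 0), (nat_lit 0), (nat_lit 3856791), (nat_lit 9254139)]) (PF.cons (PF.leaf (nat_lit 6135215) (nat_lit 545107) (nat_lit 45925801) (nat_lit 3672317) [(nat_lit 545107), (nat_lit 0), (nat_lit 3867200), (nat_lit 9231185)]) (PF.cons (PF.leaf (nat_lit 6469253) (nat_lit 556125) (nat_lit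 45358297) (nat_lit 3681683) [(nat_lit 556125), (nat_lit 0), (nat_lit 3875797), (nat_lit 9204986)]) (PF.cons (PF.leaf (nat_lit 6812319) (nat_lit 565877) (nat_lit 44781368) (nat_lit 3689196) [(nat_lit 565877),
 (nat_lit 0), (nat_lit 3882496), (nat_lit 9175623)]) (PF.cons (PF.leaf (nat_lit 7162638) (nat_lit 574529) (nat_lit 44198129) (nat_lit 3694826) [(nat_lit 574529), (nat_lit 0), (nat_lit 3887269), (nat_lit 9143198)]) (PF.cons (PF.leaf (nat_lit 7518761) (nat_lit 582210) (nat_lit 43611095) (nat_lit 3698582) [(nat_lit 582210), (nat_lit 0), (nat_lit 3890123), (nat_lit 9107835)]) (PF.cons (PF.leaf (nat_lit 7879450) (nat_lit 589020) (nat_lit 43022336) (nat_lit 3700496) [(nat_lit 589020), (nat_lit 0), (nat_lit 3891093), (nat_lit 9069672)]) (PF.cons PF.nil (PF.cons PF.nil PF.nil))))))))) (PF.cons (PF.cons (PF.leaf (nat_lit 6591826) (nat_lit 1761397) (nat_lit 44746359) (nat_lit 3682089) [(nat_lit 0), (nat_lit 1761397), (nat_lit 3875443), (nat_lit 9168078)]) (PF.cons (PF.leaf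 (nat_lit 6927134) (nat_lit 566151) (nat_lit 44184769) (nat_lit 3687805) [(nat_lit 566151), (nat_lit 1772573), (nat_lit 3880313), (nat_lit 9136884)]) (PF.cons (PF.leaf (nat_lit 7270648) (nat_lit 574650) (nat_lit 43615802) (nat_lit 3691779) [(nat_lit 574650), (nat_lit 1782405), (nat_lit 3883397), (nat_lit 9102728)]) (PF.cons (PF.leaf (nat_lit 7620450) (nat_lit 582152) (nat_lit 43042298) (nat_lit 3694005) [(nat_lit 582152),
 (nat_lit 1790921), (nat_lit 3884690), (nat_lit 9065747)]) (PF.cons (PF.leaf (nat_lit 7975177) (nat_lit 588770) (nat_lit 42466532) (nat_lit 3694507) [(nat_lit 588770), (nat_lit 1798162), (nat_lit 3884219), (nat_lit 9026087)]) (PF.cons PF.nil (PF.cons PF.nil PF.nil))))))) (PF.cons (PF.cons (PF.leaf (nat_lit 7378900) (nat_lit 1783478) (nat_lit 43037849) (nat_lit 3687434) [(nat_lit 0), (nat_lit 1783478), (nat_lit 3878182), (nat_lit 9060206)]) (PF.cons (PF.leaf (nat_lit 7721646) (nat_lit 581708) (nat_lit 42478797) (nat_lit 3688244) [(nat_lit 581708), (nat_lit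 1791072), (nat_lit 3878033), (nat_lit 9021849)]) (PF.cons (PF.leaf (nat_lit 8070072) (nat_lit 588184) (nat_lit 41916689) (nat_lit 3687442) [(nat_lit 588184), (nat_lit 1797469), (nat_lit 3876232), (nat_lit 8980908)]) (PF.cons (PF.leaf (nat_lit 8422667) (nat_lit 593854) (nat_lit 41353586) (nat_lit 3685063) [(nat_lit 593854), (nat_lit 1802709), (nat_lit 3872817), (nat_lit 8937545)]) (PF.cons PF.nil PF.nil))))) (PF.cons (PF.cons (PF.leaf (nat_lit 8164840) (nat_lit 1796177) (nat_lit 41372350) (nat_lit 3679354) [(nat_lit 0), (nat_lit 1796177), (nat_lit 3867189), (nat_lit 8934195)]) (PF.cons (PF.leaf (nat_lit 8510943) (nat_lit 592811)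
 (nat_lit 40822893) (nat_lit 3675870) [(nat_lit 592811), (nat_lit 1800694), (nat_lit 3862649), (nat_lit 8889855)]) (PF.cons PF.nil (PF.cons PF.nil PF.nil)))) (PF.cons (PF.cons (PF.leaf (nat_lit 8942881) (nat_lit 1801009) (nat_lit 39761927) (nat_lit 3659950) [(nat_lit 0), (nat_lit 1801009), (nat_lit 3844621), (nat_lit 8793654)]) (PF.cons PF.nil PF.nil)) (PF.cons PF.nil PF.nil)))))) (PF.cons (PF.cons (PF.cons (PF.leaf (nat_lit 7123951) (nat_lit 3666578) (nat_lit 42843199) (nat_lit 3666578) [(nat_lit 0), (nat_lit 0), (nat_lit 3857027), (nat_lit 9027951)]) (PF.cons (PF.leaf (nat_lit 7454305) (nat_lit 569836) (nat_lit 42307429) (nat_lit 3667989) [(nat_lit 569836), (nat_lit 0), (nat_lit 3857478), (nat_lit 8991121)]) (PF.cons (PF.leaf (nat_lit 7792061) (nat_lit 577314) (nat_lit 41765660) (nat_lit 3667843) [(nat_lit 577314), (nat_lit 0), (nat_lit 3856337), (nat_lit 8951668)]) (PF.cons (PF.leaf (nat_lit 8135347) (nat_lit 583836) (nat_lit 41220516) (nat_lit 3666159) [(nat_lit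 583836), (nat_lit 0), (nat_lit 3853621), (nat_lit 8909762)]) (PF.cons (PF.leaf (nat_lit 8482874) (nat_lit 589522) (nat_lit 40674076) (nat_lit 3662973) [(nat_lit 589522), (nat_lit 0), (nat_lit 3849369), (nat_lit
 8865566)]) PF.nil))))) (PF.cons (PF.cons (PF.leaf (nat_lit 7891298) (nat_lit 1780309) (nat_lit 41220568) (nat_lit 3660102) [(nat_lit 0), (nat_lit 1780309), (nat_lit 3847631), (nat_lit 8904938)]) (PF.cons (PF.leaf (nat_lit 8227604) (nat_lit 582704) (nat_lit 40689661) (nat_lit 3657313) [(nat_lit 582704), (nat_lit 1785594), (nat_lit 3843794), (nat_lit 8862155)]) (PF.cons (PF.leaf (nat_lit 8568940) (nat_lit 588304) (nat_lit 40156616) (nat_lit 3653110) [(nat_lit 588304), (nat_lit 1789800), (nat_lit 3838510), (nat_lit 8817145)]) (PF.cons PF.nil PF.nil)))) (PF.cons (PF.cons (PF.leaf (nat_lit 8655142) (nat_lit 1786906) (nat_lit 39644603) (nat_lit 3642429) [(nat_lit 0), (nat_lit 1786906), (nat_lit 3826806), (nat_lit 8767547)]) (PF.cons (PF.leaf (nat_lit 8993722) (nat_lit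 591557) (nat_lit 39124549) (nat_lit 3636006) [(nat_lit 591557), (nat_lit 1789502), (nat_lit 3819261), (nat_lit 8719911)]) PF.nil)) (PF.cons PF.nil (PF.cons PF.nil PF.nil))))) (PF.cons (PF.cons (PF.cons (PF.leaf (nat_lit 8378828) (nat_lit 3624249) (nat_lit 39511292) (nat_lit 3624249) [(nat_lit 0), (nat_lit 0), (nat_lit 3808331), (nat_lit 8739944)]) (PF.cons (PF.leaf (nat_lit 8708403) (nat_lit 581906) (nat_lit 39008174)
 (nat_lit 3618575) [(nat_lit 581906), (nat_lit 0), (nat_lit 3801548), (nat_lit 8693963)]) (PF.cons (PF.leaf (nat_lit 9042488) (nat_lit 586752) (nat_lit 38503607) (nat_lit 3611661) [(nat_lit 586752), (nat_lit 0), (nat_lit 3793495), (nat_lit 8646059)]) (PF.cons PF.nil PF.nil)))) (PF.cons (PF.cons (PF.leaf (nat_lit 9120870) (nat_lit 1773536) (nat_lit 38022537) (nat_lit 3599005) [(nat_lit 0), (nat_lit 1773536), (nat_lit 3779774), (nat_lit 8594634)]) (PF.cons (PF.leaf (nat_lit 9451882) (nat_lit 588862) (nat_lit 37530964) (nat_lit 3590257) [(nat_lit 588862),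 (nat_lit 1774550), (nat_lit 3769859), (nat_lit 8544741)]) PF.nil)) (PF.cons PF.nil PF.nil))) (PF.cons (PF.cons (PF.cons (PF.leaf (nat_lit 9563764) (nat_lit 3550758) (nat_lit 36500580) (nat_lit 3550758) [(nat_lit 0), (nat_lit 0), (nat_lit 3727833), (nat_lit 8418309)]) (PF.cons PF.nil PF.nil)) (PF.cons PF.nil PF.nil)) (PF.cons PF.nil (PF.cons PF.nil PF.nil)))))))) (PF.cons (PF.cons (PF.cons (PF.cons (PF.leaf (nat_lit 5361143) (nat_lit 3556094) (nat_lit 45391105) (nat_lit 3556094) [(nat_lit 0), (nat_lit 0), (nat_lit 0), (nat_lit 9080806)]) (PF.cons (PF.leaf (nat_lit 5652353) (nat_lit 506288) (nat_lit 44909609) (nat_lit 3569771)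
 [(nat_lit 506288), (nat_lit 0), (nat_lit 0), (nat_lit 9061571)]) (PF.cons (PF.leaf (nat_lit 5959055) (nat_lit 520231) (nat_lit 44407860) (nat_lit 3581911) [(nat_lit 520231), (nat_lit 0), (nat_lit 0), (nat_lit 9039288)]) (PF.cons (PF.leaf (nat_lit 6277886) (nat_lit 532452) (nat_lit 43891106) (nat_lit 3592328) [(nat_lit 532452), (nat_lit 0), (nat_lit 0), (nat_lit 9014009)]) (PF.cons (PF.leaf (nat_lit 6606620) (nat_lit 543238) (nat_lit 43363323) (nat_lit 3600926) [(nat_lit 543238), (nat_lit 0), (nat_lit 0), (nat_lit 8985805)]) (PF.cons (PF.leaf (nat_lit 6943400) (nat_lit 552792) (nat_lit 42827645) (nat_lit 3607670) [(nat_lit 552792), (nat_lit 0), (nat_lit 0), (nat_lit 8954766)]) (PF.cons (PF.leaf (nat_lit 7286735) (nat_lit 561271) (nat_lit 42286619) (nat_lit 3612565) [(nat_lit 561271), (nat_lit 0), (nat_lit 0), (nat_lit 8920999)]) (PF.cons (PF.leaf (nat_lit 7635346) (nat_lit 568795) (nat_lit 41742350) (nat_lit 3615642) [(nat_lit 568795), (nat_lit 0), (nat_lit 0), (nat_lit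 8884627)]) (PF.cons (PF.leaf (nat_lit 7988125) (nat_lit 575462) (nat_lit 41196603) (nat_lit 3616951) [(nat_lit 575462), (nat_lit 0), (nat_lit 0), (nat_lit 8845780)]) (PF.cons PF.nil PF.nil)))))))))) (PF.cons
 (PF.cons (PF.leaf (nat_lit 6088213) (nat_lit 1693265) (nat_lit 43821123) (nat_lit 3585063) [(nat_lit 0), (nat_lit 1693265), (nat_lit 0), (nat_lit 9004680)]) (PF.cons (PF.leaf (nat_lit 6398588) (nat_lit 533159) (nat_lit 43319295) (nat_lit 3593511) [(nat_lit 533159), (nat_lit 1707347), (nat_lit 0), (nat_lit 8977749)]) (PF.cons (PF.leaf (nat_lit 6720118) (nat_lit 543810) (nat_lit 42805032) (nat_lit 3600310) [(nat_lit 543810), (nat_lit 1719968), (nat_lit 0), (nat_lit 8947939)]) (PF.cons (PF.leaf (nat_lit 7050374) (nat_lit 553189) (nat_lit 42281957) (nat_lit 3605402) [(nat_lit 553189), (nat_lit 1731143), (nat_lit 0), (nat_lit 8915370)]) (PF.cons (PF.leaf (nat_lit 7387656) (nat_lit 561471) (nat_lit 41752907) (nat_lit 3608778) [(nat_lit 561471), (nat_lit 1740912), (nat_lit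 0), (nat_lit 8880163)]) (PF.cons (PF.leaf (nat_lit 7730567) (nat_lit 568790) (nat_lit 41220171) (nat_lit 3610457) [(nat_lit 568790), (nat_lit 1749332), (nat_lit 0), (nat_lit 8842451)]) (PF.cons (PF.leaf (nat_lit 8077915) (nat_lit 575250) (nat_lit 40685628) (nat_lit 3610480) [(nat_lit 575250), (nat_lit 1756462), (nat_lit 0), (nat_lit 8802370)]) (PF.cons PF.nil (PF.cons PF.nil PF.nil))))))))) (PF.cons (PF.cons (PF.leaf
 (nat_lit 6834701) (nat_lit 1722801) (nat_lit 42249008) (nat_lit 3598314) [(nat_lit 0), (nat_lit 1722801), (nat_lit 0), (nat_lit 8907943)]) (PF.cons (PF.leaf (nat_lit 7157462) (nat_lit 553123) (nat_lit 41739812) (nat_lit 3601874) [(nat_lit 553123), (nat_lit 1732907), (nat_lit 0), (nat_lit 8874093)]) (PF.cons (PF.leaf (nat_lit 7488215) (nat_lit 561276) (nat_lit 41223659) (nat_lit 3603842) [(nat_lit 561276), (nat_lit 1741713), (nat_lit 0), (nat_lit 8837666)]) (PF.cons (PF.leaf (nat_lit 7825084) (nat_lit 568441) (nat_lit 40703128) (nat_lit 3604227) [(nat_lit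 568441), (nat_lit 1749256), (nat_lit 0), (nat_lit 8798810)]) (PF.cons (PF.leaf (nat_lit 8166762) (nat_lit 574736) (nat_lit 40180285) (nat_lit 3603061) [(nat_lit 574736), (nat_lit 1755588), (nat_lit 0), (nat_lit 8757671)]) (PF.cons (PF.leaf (nat_lit 8512149) (nat_lit 580256) (nat_lit 39656815) (nat_lit 3600391) [(nat_lit 580256), (nat_lit 1760763), (nat_lit 0), (nat_lit 8714397)]) (PF.cons PF.nil PF.nil))))))) (PF.cons (PF.cons (PF.leaf (nat_lit 7589258) (nat_lit 1741862) (nat_lit 40698314) (nat_lit 3597815) [(nat_lit 0), (nat_lit 1741862), (nat_lit 0), (nat_lit 8793548)]) (PF.cons (PF.leaf (nat_lit 7919360) (nat_lit 567738)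
 (nat_lit 40190804) (nat_lit 3597006) [(nat_lit 567738), (nat_lit 1748584), (nat_lit 0), (nat_lit 8753754)]) (PF.cons (PF.leaf (nat_lit 8255043) (nat_lit 573917) (nat_lit 39680245) (nat_lit 3594744) [(nat_lit 573917), (nat_lit 1754169), (nat_lit 0), (nat_lit 8711739)]) (PF.cons (PF.leaf (nat_lit 8594819) (nat_lit 579306) (nat_lit 39168509) (nat_lit 3591068) [(nat_lit 579306), (nat_lit 1758663), (nat_lit 0), (nat_lit 8667662)]) (PF.cons PF.nil PF.nil))))) (PF.cons (PF.cons (PF.leaf (nat_lit 8343452) (nat_lit 1752235) (nat_lit 39185073) (nat_lit 3585573) [(nat_lit 0), (nat_lit 1752235), (nat_lit 0), (nat_lit 8664612)]) (PF.cons (PF.leaf (nat_lit 8677051) (nat_lit 578084) (nat_lit 38685583) (nat_lit 3580975) [(nat_lit 578084), (nat_lit 1756092), (nat_lit 0), (nat_lit 8619899)]) (PF.cons (PF.leaf (nat_lit 9014375) (nat_lit 582668) (nat_lit 38185848) (nat_lit 3575092) [(nat_lit 582668), (nat_lit 1758966), (nat_lit 0), (nat_lit 8573334)]) (PF.cons PF.nil PF.nil)))) (PF.cons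 (PF.cons (PF.leaf (nat_lit 9091008) (nat_lit 1755410) (nat_lit 37719971) (nat_lit 3563496) [(nat_lit 0), (nat_lit 1755410), (nat_lit 0), (nat_lit 8524146)]) (PF.cons PF.nil PF.nil)) (PF.cons PF.nil (PF.cons PF.nil
 PF.nil)))))))) (PF.cons (PF.cons (PF.cons (PF.leaf (nat_lit 6606694) (nat_lit 3575907) (nat_lit 42022156) (nat_lit 3575907) [(nat_lit 0), (nat_lit 0), (nat_lit 3764017), (nat_lit 8873365)]) (PF.cons (PF.leaf (nat_lit 6914353) (nat_lit 538825) (nat_lit 41540277) (nat_lit 3580071) [(nat_lit 538825), (nat_lit 0), (nat_lit 3767240), (nat_lit 8841199)]) (PF.cons (PF.leaf (nat_lit 7232251) (nat_lit 548377) (nat_lit 41047648) (nat_lit 3582725) [(nat_lit 548377), (nat_lit 0), (nat_lit 3768922), (nat_lit 8806381)]) (PF.cons (PF.leaf (nat_lit 7558008) (nat_lit 556700) (nat_lit 40547664) (nat_lit 3583846) [(nat_lit 556700), (nat_lit 0), (nat_lit 3769043), (nat_lit 8769078)]) (PF.cons (PF.leaf (nat_lit 7890000) (nat_lit 563974) (nat_lit 40042955) (nat_lit 3583446) [(nat_lit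 563974), (nat_lit 0), (nat_lit 3767615), (nat_lit 8729448)]) (PF.cons (PF.leaf (nat_lit 8226904) (nat_lit 570336) (nat_lit 39535617) (nat_lit 3581557) [(nat_lit 570336), (nat_lit 0), (nat_lit 3764671), (nat_lit 8687640)]) (PF.cons (PF.leaf (nat_lit 8567603) (nat_lit 575892) (nat_lit 39027355) (nat_lit 3578228) [(nat_lit 575892), (nat_lit 0), (nat_lit 3760261), (nat_lit 8643804)]) (PF.cons PF.nil (PF.cons PF.nil
 PF.nil))))))))) (PF.cons (PF.cons (PF.leaf (nat_lit 7338535) (nat_lit 1723957) (nat_lit 40521063) (nat_lit 3577121) [(nat_lit 0), (nat_lit 1723957), (nat_lit 3762376), (nat_lit 8762147)]) (PF.cons (PF.leaf (nat_lit 7656799) (nat_lit 555874) (nat_lit 40034928) (nat_lit 3577037) [(nat_lit 555874), (nat_lit 1731621), (nat_lit 3761282), (nat_lit 8724034)]) (PF.cons (PF.leaf (nat_lit 7982299) (nat_lit 563083) (nat_lit 39543031) (nat_lit 3575529) [(nat_lit 563083), (nat_lit 1738101), (nat_lit 3758736), (nat_lit 8683622)]) (PF.cons (PF.leaf (nat_lit 8313231) (nat_lit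 569351) (nat_lit 39047759) (nat_lit 3572624) [(nat_lit 569351), (nat_lit 1743443), (nat_lit 3754765), (nat_lit 8641082)]) (PF.cons (PF.leaf (nat_lit 8648355) (nat_lit 574797) (nat_lit 38551001) (nat_lit 3568362) [(nat_lit 574797), (nat_lit 1747699), (nat_lit 3749411), (nat_lit 8596574)]) (PF.cons PF.nil (PF.cons PF.nil PF.nil))))))) (PF.cons (PF.cons (PF.leaf (nat_lit 8075306) (nat_lit 1736496) (nat_lit 39047117) (nat_lit 3566727) [(nat_lit 0), (nat_lit 1736496), (nat_lit 3748944), (nat_lit 8636514)]) (PF.cons (PF.leaf (nat_lit 8399554) (nat_lit 568053) (nat_lit 38564619) (nat_lit 3562893) [(nat_lit 568053), (nat_lit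
 1741177), (nat_lit 3744037), (nat_lit 8593426)]) (PF.cons (PF.leaf (nat_lit 8728781) (nat_lit 573433) (nat_lit 38079865) (nat_lit 3557778) [(nat_lit 573433), (nat_lit 1744833), (nat_lit 3737823), (nat_lit 8548406)]) (PF.cons (PF.leaf (nat_lit 9061595) (nat_lit 578067) (nat_lit 37594567) (nat_lit 3551430) [(nat_lit 578067), (nat_lit 1747512), (nat_lit 3730352), (nat_lit 8501617)]) (PF.cons PF.nil PF.nil))))) (PF.cons (PF.cons (PF.leaf (nat_lit 8809585) (nat_lit 1741545) (nat_lit 37613501) (nat_lit 3546508) [(nat_lit 0), (nat_lit 1741545), (nat_lit 3725528), (nat_lit 8499319)]) (PF.cons (PF.leaf (nat_lit 9136346) (nat_lit 576380) (nat_lit 37140058) (nat_lit 3539451) [(nat_lit 576380), (nat_lit 1743716), (nat_lit 3717345), (nat_lit 8452213)]) (PF.cons PF.nil (PF.cons PF.nil PF.nil)))) (PF.cons (PF.cons (PF.leaf (nat_lit 9535920) (nat_lit 1740419) (nat_lit 36228742) (nat_lit 3518126) [(nat_lit 0), (nat_lit 1740419), (nat_lit 3693826), (nat_lit 8353219)]) (PF.cons PF.nil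 PF.nil)) (PF.cons PF.nil PF.nil)))))) (PF.cons (PF.cons (PF.cons (PF.leaf (nat_lit 7820564) (nat_lit 3547119) (nat_lit 38890230) (nat_lit 3547119) [(nat_lit 0), (nat_lit 0), (nat_lit 3729061), (nat_lit 8606669)])
 (PF.cons (PF.leaf (nat_lit 8133820) (nat_lit 556725) (nat_lit 38427330) (nat_lit 3544077) [(nat_lit 556725), (nat_lit 0), (nat_lit 3724954), (nat_lit 8565385)]) (PF.cons (PF.leaf (nat_lit 8453689) (nat_lit 563115) (nat_lit 37959622) (nat_lit 3539760) [(nat_lit 563115), (nat_lit 0), (nat_lit 3719547), (nat_lit 8522051)]) (PF.cons (PF.leaf (nat_lit 8778408) (nat_lit 568606) (nat_lit 37489313) (nat_lit 3534207) [(nat_lit 568606), (nat_lit 0), (nat_lit 3712881), (nat_lit 8476854)]) (PF.cons (PF.leaf (nat_lit 9106791) (nat_lit 573319) (nat_lit 37018137) (nat_lit 3527464) [(nat_lit 573319), (nat_lit 0), (nat_lit 3705004), (nat_lit 8429960)]) PF.nil))))) (PF.cons (PF.cons (PF.leaf (nat_lit 8539261) (nat_lit 1726762) (nat_lit 37492165) (nat_lit 3528813) [(nat_lit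 0), (nat_lit 1726762), (nat_lit 3707568), (nat_lit 8472967)]) (PF.cons (PF.leaf (nat_lit 8857416) (nat_lit 566831) (nat_lit 37034242) (nat_lit 3522547) [(nat_lit 566831), (nat_lit 1729743), (nat_lit 3700188), (nat_lit 8427536)]) (PF.cons (PF.leaf (nat_lit 9180054) (nat_lit 571520) (nat_lit 36574666) (nat_lit 3515151) [(nat_lit 571520), (nat_lit 1731797), (nat_lit 3691656), (nat_lit 8380421)]) (PF.cons PF.nil PF.nil)))) (PF.cons
 (PF.cons (PF.leaf (nat_lit 9253879) (nat_lit 1727442) (nat_lit 36135786) (nat_lit 3502288) [(nat_lit 0), (nat_lit 1727442), (nat_lit 3677742), (nat_lit 8330184)]) (PF.cons (PF.leaf (nat_lit 9573766) (nat_lit 573449) (nat_lit 35687504) (nat_lit 3493279) [(nat_lit 573449), (nat_lit 1728219), (nat_lit 3667579), (nat_lit 8281490)]) PF.nil)) (PF.cons PF.nil (PF.cons PF.nil PF.nil))))) (PF.cons (PF.cons (PF.cons (PF.leaf (nat_lit 8982404) (nat_lit 3485729) (nat_lit 36029067) (nat_lit 3485729) [(nat_lit 0), (nat_lit 0), (nat_lit 3660933), (nat_lit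 8305607)]) (PF.cons (PF.leaf (nat_lit 9294317) (nat_lit 564364) (nat_lit 35594965) (nat_lit 3477522) [(nat_lit 564364), (nat_lit 0), (nat_lit 3651586), (nat_lit 8258600)]) (PF.cons (PF.leaf (nat_lit 9610333) (nat_lit 568458) (nat_lit 35159666) (nat_lit 3468314) [(nat_lit 568458), (nat_lit 0), (nat_lit 3641222), (nat_lit 8210124)]) (PF.cons PF.nil PF.nil)))) (PF.cons (PF.cons (PF.leaf (nat_lit 9677782) (nat_lit 1710681) (nat_lit 34746801) (nat_lit 3454264) [(nat_lit 0), (nat_lit 1710681), (nat_lit 3626108), (nat_lit 8159369)]) (PF.cons PF.nil PF.nil)) (PF.cons PF.nil PF.nil))) (PF.cons (PF.cons (PF.cons (PF.leaf (nat_lit 10082701) (nat_lit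
 3403518) (nat_lit 33441218) (nat_lit 3403518) [(nat_lit 0), (nat_lit 0), (nat_lit 3571746), (nat_lit 7988544)]) (PF.cons PF.nil PF.nil)) (PF.cons PF.nil PF.nil)) (PF.cons PF.nil PF.nil)))))) (PF.cons (PF.cons (PF.cons (PF.cons (PF.leaf (nat_lit 7303343) (nat_lit 3465783) (nat_lit 38234362) (nat_lit 3465783) [(nat_lit 0), (nat_lit 0), (nat_lit 0), (nat_lit 8469555)]) (PF.cons (PF.leaf (nat_lit 7596917) (nat_lit 528000) (nat_lit 37815554) (nat_lit 3465610) [(nat_lit 528000), (nat_lit 0), (nat_lit 0), (nat_lit 8433215)]) (PF.cons (PF.leaf (nat_lit 7899766) (nat_lit 536442) (nat_lit 37387830) (nat_lit 3464131) [(nat_lit 536442), (nat_lit 0), (nat_lit 0), (nat_lit 8394654)]) (PF.cons (PF.leaf (nat_lit 8209619) (nat_lit 543703) (nat_lit 36954096) (nat_lit 3461360) [(nat_lit 543703), (nat_lit 0), (nat_lit 0), (nat_lit 8354082)]) (PF.cons (PF.leaf (nat_lit 8524965) (nat_lit 549967) (nat_lit 36516581) (nat_lit 3457330) [(nat_lit 549967), (nat_lit 0), (nat_lit 0), (nat_lit 8311677)])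 (PF.cons (PF.leaf (nat_lit 8844585) (nat_lit 555374) (nat_lit 36077050) (nat_lit 3452089) [(nat_lit 555374), (nat_lit 0), (nat_lit 0), (nat_lit 8267599)]) (PF.cons PF.nil PF.nil))))))) (PF.cons (PF.cons
 (PF.leaf (nat_lit 7993195) (nat_lit 1675999) (nat_lit 36933951) (nat_lit 3455125) [(nat_lit 0), (nat_lit 1675999), (nat_lit 0), (nat_lit 8347911)]) (PF.cons (PF.leaf (nat_lit 8295880) (nat_lit 542189) (nat_lit 36512400) (nat_lit 3451538) [(nat_lit 542189), (nat_lit 1681303), (nat_lit 0), (nat_lit 8307126)]) (PF.cons (PF.leaf (nat_lit 8605072) (nat_lit 548450) (nat_lit 36086107) (nat_lit 3446762) [(nat_lit 548450), (nat_lit 1685552), (nat_lit 0), (nat_lit 8264496)]) (PF.cons (PF.leaf (nat_lit 8919095) (nat_lit 553822) (nat_lit 35657093) (nat_lit 3440840) [(nat_lit 553822), (nat_lit 1688802), (nat_lit 0), (nat_lit 8220202)]) (PF.cons (PF.leaf (nat_lit 9236796) (nat_lit 558427) (nat_lit 35226950) (nat_lit 3433819) [(nat_lit 558427), (nat_lit 1691113), (nat_lit 0), (nat_lit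 8174407)]) PF.nil))))) (PF.cons (PF.cons (PF.leaf (nat_lit 8686249) (nat_lit 1682348) (nat_lit 35659061) (nat_lit 3435573) [(nat_lit 0), (nat_lit 1682348), (nat_lit 0), (nat_lit 8216493)]) (PF.cons (PF.leaf (nat_lit 8993956) (nat_lit 552010) (nat_lit 35241138) (nat_lit 3429038) [(nat_lit 552010), (nat_lit 1685117), (nat_lit 0), (nat_lit 8172129)]) (PF.cons (PF.leaf (nat_lit 9306152) (nat_lit 556600) (nat_lit
 34821373) (nat_lit 3421458) [(nat_lit 556600), (nat_lit 1686993), (nat_lit 0), (nat_lit 8126264)]) (PF.cons PF.nil PF.nil)))) (PF.cons (PF.cons (PF.leaf (nat_lit 9376237) (nat_lit 1682569) (nat_lit 34419785) (nat_lit 3408624) [(nat_lit 0), (nat_lit 1682569), (nat_lit 0), (nat_lit 8077564)]) (PF.cons (PF.leaf (nat_lit 9685957) (nat_lit 558440) (nat_lit 34009800) (nat_lit 3399597) [(nat_lit 558440), (nat_lit 1683242), (nat_lit 0), (nat_lit 8030415)]) PF.nil)) (PF.cons PF.nil PF.nil))))) (PF.cons (PF.cons (PF.cons (PF.leaf (nat_lit 8434500) (nat_lit 3417517) (nat_lit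 35531734) (nat_lit 3417517) [(nat_lit 0), (nat_lit 0), (nat_lit 3590892), (nat_lit 8189556)]) (PF.cons (PF.leaf (nat_lit 8732338) (nat_lit 541286) (nat_lit 35130355) (nat_lit 3411851) [(nat_lit 541286), (nat_lit 0), (nat_lit 3584132), (nat_lit 8147062)]) (PF.cons (PF.leaf (nat_lit 9036189) (nat_lit 546874) (nat_lit 34724929) (nat_lit 3405117) [(nat_lit 546874), (nat_lit 0), (nat_lit 3576287), (nat_lit 8102909)]) (PF.cons (PF.leaf (nat_lit 9344402) (nat_lit 551614) (nat_lit 34317332) (nat_lit 3397361) [(nat_lit 551614), (nat_lit 0), (nat_lit 3567407), (nat_lit 8057288)]) (PF.cons PF.nil PF.nil))))) (PF.cons (PF.cons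
 (PF.leaf (nat_lit 9111150) (nat_lit 1668922) (nat_lit 34322032) (nat_lit 3392566) [(nat_lit 0), (nat_lit 1668922), (nat_lit 3562702), (nat_lit 8054196)]) (PF.cons (PF.leaf (nat_lit 9413187) (nat_lit 549463) (nat_lit 33925101) (nat_lit 3384353) [(nat_lit 549463), (nat_lit 1670405), (nat_lit 3553370), (nat_lit 8008705)]) (PF.cons (PF.leaf (nat_lit 9719320) (nat_lit 553496) (nat_lit 33526749) (nat_lit 3375212) [(nat_lit 553496), (nat_lit 1671078), (nat_lit 3543097), (nat_lit 7961893)]) (PF.cons PF.nil PF.nil)))) (PF.cons (PF.cons (PF.leaf (nat_lit 9783629) (nat_lit 1665932) (nat_lit 33148255) (nat_lit 3361406) [(nat_lit 0), (nat_lit 1665932), (nat_lit 3528259), (nat_lit 7913009)]) (PF.cons PF.nil PF.nil)) PF.nil))) (PF.cons (PF.cons (PF.cons (PF.leaf (nat_lit 9518419) (nat_lit 3346452) (nat_lit 33062112) (nat_lit 3346452) [(nat_lit 0), (nat_lit 0), (nat_lit 3513098), (nat_lit 7891350)]) (PF.cons (PF.leaf (nat_lit 9814717) (nat_lit 546035) (nat_lit 32685338) (nat_lit 3336906)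 [(nat_lit 546035), (nat_lit 0), (nat_lit 3502430), (nat_lit 7845223)]) (PF.cons PF.nil PF.nil))) (PF.cons (PF.cons (PF.leaf (nat_lit 10173827) (nat_lit 1647553) (nat_lit 31950717) (nat_lit 3312026) [(nat_lit 0),
 (nat_lit 1647553), (nat_lit 3475390), (nat_lit 7749244)]) PF.nil) PF.nil)) (PF.cons PF.nil (PF.cons PF.nil PF.nil))))) (PF.cons (PF.cons (PF.cons (PF.cons (PF.leaf (nat_lit 8984231) (nat_lit 3286314) (nat_lit 32659675) (nat_lit 3286314) [(nat_lit 0), (nat_lit 0), (nat_lit 0), (nat_lit 7790705)]) (PF.cons (PF.leaf (nat_lit 9268170) (nat_lit 524904) (nat_lit 32309763) (nat_lit 3279142) [(nat_lit 524904), (nat_lit 0), (nat_lit 0), (nat_lit 7748750)]) (PF.cons (PF.leaf (nat_lit 9557676) (nat_lit 529880) (nat_lit 31956332) (nat_lit 3271056) [(nat_lit 529880), (nat_lit 0), (nat_lit 0), (nat_lit 7705415)]) (PF.cons (PF.leaf (nat_lit 9851166) (nat_lit 534057) (nat_lit 31600989) (nat_lit 3262109) [(nat_lit 534057), (nat_lit 0), (nat_lit 0), (nat_lit 7660885)]) (PF.cons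 PF.nil PF.nil))))) (PF.cons (PF.cons (PF.leaf (nat_lit 9624244) (nat_lit 1610282) (nat_lit 31606881) (nat_lit 3257842) [(nat_lit 0), (nat_lit 1610282), (nat_lit 0), (nat_lit 7658451)]) (PF.cons (PF.leaf (nat_lit 9911900) (nat_lit 531697) (nat_lit 31260707) (nat_lit 3248605) [(nat_lit 531697), (nat_lit 1610779), (nat_lit 0), (nat_lit 7614255)]) (PF.cons PF.nil (PF.cons PF.nil PF.nil)))) (PF.cons (PF.cons (PF.leaf (nat_lit
 10260221) (nat_lit 1605027) (nat_lit 30584565) (nat_lit 3224552) [(nat_lit 0), (nat_lit 1605027), (nat_lit 0), (nat_lit 7522409)]) (PF.cons PF.nil PF.nil)) PF.nil))) (PF.cons (PF.cons (PF.cons (PF.leaf (nat_lit 10001963) (nat_lit 3211092) (nat_lit 30514445) (nat_lit 3211092) [(nat_lit 0), (nat_lit 0), (nat_lit 3369668), (nat_lit 7503401)]) (PF.cons (PF.leaf (nat_lit 10284358) (nat_lit 527739) (nat_lit 30185268) (nat_lit 3200925) [(nat_lit 527739), (nat_lit 0), (nat_lit 3358420), (nat_lit 7459114)]) PF.nil)) (PF.cons PF.nil PF.nil)) (PF.cons PF.nil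 PF.nil))) (PF.cons (PF.cons (PF.cons (PF.cons (PF.leaf (nat_lit 10443818) (nat_lit 3081937) (nat_lit 28309489) (nat_lit 3081937) [(nat_lit 0), (nat_lit 0), (nat_lit 0), (nat_lit 7143477)]) (PF.cons PF.nil PF.nil)) (PF.cons PF.nil PF.nil)) (PF.cons PF.nil PF.nil)) (PF.cons PF.nil (PF.cons PF.nil (PF.cons PF.nil PF.nil)))))))))

def p15_26_0_0 : pfC (piC [(nat_lit 37297016), (nat_lit 24651042), (nat_lit 18388512), (nat_lit 12378745)] (nat_lit 20955711)) p15_26_0 (nat_lit 4) (nat_lit 0) (nat_lit 1) = true := by decide +kernel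
def p15_26_0_1 : pfC (piC [(nat_lit 37297016), (nat_lit 24651042), (nat_lit 18388512), (nat_lit 12378745)] (nat_lit 20955711)) p15_26_0 (nat_lit 4) (nat_lit 1) (nat_lit 2) = true := by decide +kernel
def p15_26_0_2 : pfC (piC [(nat_lit 37297016), (nat_lit 24651042), (nat_lit 18388512), (nat_lit 12378745)] (nat_lit 20955711)) p15_26_0 (nat_lit 4) (nat_lit 2) (nat_lit 3) = true := by decide +kernel
def p15_26_0_3 : pfC (piC [(nat_lit 37297016), (nat_lit 24651042), (nat_lit 18388512), (nat_lit 12378745)] (nat_lit 20955711)) p15_26_0 (nat_lit 4) (nat_lit 3) (nat_lit 4) = true := by decide +kernel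
def p15_26_0_4 : pfC (piC [(nat_lit 37297016), (nat_lit 24651042), (nat_lit 18388512), (nat_lit 12378745)] (nat_lit 20955711)) p15_26_0 (nat_lit 4) (nat_lit 4) (nat_lit 5) = true := by decide +kernel
def p15_26_0_5 : pfC (piC [(nat_lit 37297016), (nat_lit 24651042), (nat_lit 18388512), (nat_lit 12378745)] (nat_lit 20955711)) p15_26_0 (nat_lit 4) (nat_lit 5) (nat_lit 6) = true := by decide +kernel
def p15_26_0_6 : pfC (piC [(nat_lit 37297016), (nat_lit 24651042), (nat_lit 18388512), (nat_lit 12378745)] (nat_lit 20955711)) p15_26_0 (nat_lit 4) (nat_lit 6) (nat_lit 7) = true := by decide +kernel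
def p15_26_0_7 : pfC (piC [(nat_lit 37297016), (nat_lit 24651042), (nat_lit 18388512), (nat_lit 12378745)] (nat_lit 20955711)) p15_26_0 (nat_lit 4) (nat_lit 7) (nat_lit 8) = true := by decide +kernel
def p15_26_0_8 : pfC (piC [(nat_lit 37297016), (nat_lit 24651042), (nat_lit 18388512), (nat_lit 12378745)] (nat_lit 20955711)) p15_26_0 (nat_lit 4) (nat_lit 8) (nat_lit 9) = true := by decide +kernel
def p15_26_0_9 : pfC (piC [(nat_lit 37297016), (nat_lit 24651042), (nat_lit 18388512), (nat_lit 12378745)] (nat_lit 20955711)) p15_26_0 (nat_lit 4) (nat_lit 9) (nat_lit 10) = true := by decide +kernel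
def p15_26_0_10 : pfC (piC [(nat_lit 37297016), (nat_lit 24651042), (nat_lit 18388512), (nat_lit 12378745)] (nat_lit 20955711)) p15_26_0 (nat_lit 4) (nat_lit 10) (nat_lit 11) = true := by decide +kernel
def p15_26_0_11 : pfC (piC [(nat_lit 37297016), (nat_lit 24651042), (nat_lit 18388512), (nat_lit 12378745)] (nat_lit 20955711)) p15_26_0 (nat_lit 4) (nat_lit 11) (nat_lit 12) = true := by decide +kernel
def p15_26_0_12 : pfC (piC [(nat_lit 37297016), (nat_lit 24651042), (nat_lit 18388512), (nat_lit 12378745)] (nat_lit 20955711)) p15_26_0 (nat_lit 4) (nat_lit 12) (nat_lit 13) = true := by decide +kernel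
def p15_26_0_13 : pfC (piC [(nat_lit 37297016), (nat_lit 24651042), (nat_lit 18388512), (nat_lit 12378745)] (nat_lit 20955711)) p15_26_0 (nat_lit 4) (nat_lit 13) (nat_lit 14) = true := by decide +kernel
def p15_26_0_14 : pfC (piC [(nat_lit 37297016), (nat_lit 24651042), (nat_lit 18388512), (nat_lit 12378745)] (nat_lit 20955711)) p15_26_0 (nat_lit 4) (nat_lit 14) (nat_lit 15) = true := by decide +kernel
def p15_26_0_15 : pfC (piC [(nat_lit 37297016), (nat_lit 24651042), (nat_lit 18388512), (nat_lit 12378745)] (nat_lit 20955711)) p15_26_0 (nat_lit 4) (nat_lit 15) (nat_lit 16) = true := by decide +kernel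
def p15_26_0_16 : pfC (piC [(nat_lit 37297016), (nat_lit 24651042), (nat_lit 18388512), (nat_lit 12378745)] (nat_lit 20955711)) p15_26_0 (nat_lit 4) (nat_lit 16) (nat_lit 17) = true := by decide +kernel
def p15_26_0_17 : pfC (piC [(nat_lit 37297016), (nat_lit 24651042), (nat_lit 18388512), (nat_lit 12378745)] (nat_lit 20955711)) p15_26_0 (nat_lit 4) (nat_lit 17) (nat_lit 18) = true := by decide +kernel
def p15_26_0_18 : pfC (piC [(nat_lit 37297016), (nat_lit 24651042), (nat_lit 18388512), (nat_lit 12378745)] (nat_lit 20955711)) p15_26_0 (nat_lit 4) (nat_lit 18) (nat_lit 19) = true := by decide +kernel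
def p15_26_0_19 : pfC (piC [(nat_lit 37297016), (nat_lit 24651042), (nat_lit 18388512), (nat_lit 12378745)] (nat_lit 20955711)) p15_26_0 (nat_lit 4) (nat_lit 19) (nat_lit 20) = true := by decide +kernel
def p15_26_0_20 : pfC (piC [(nat_lit 37297016), (nat_lit 24651042), (nat_lit 18388512), (nat_lit 12378745)] (nat_lit 20955711)) p15_26_0 (nat_lit 4) (nat_lit 20) (nat_lit 21) = true := by decide +kernel
def p15_26_0_21 : pfC (piC [(nat_lit 37297016), (nat_lit 24651042), (nat_lit 18388512), (nat_lit 12378745)] (nat_lit 20955711)) p15_26_0 (nat_lit 4) (nat_lit 21) (nat_lit 22) = true := by decide +kernel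
def p15_26_0_22 : pfC (piC [(nat_lit 37297016), (nat_lit 24651042), (nat_lit 18388512), (nat_lit 12378745)] (nat_lit 20955711)) p15_26_0 (nat_lit 4) (nat_lit 22) (nat_lit 23) = true := by decide +kernel
def p15_26_0_23 : pfC (piC [(nat_lit 37297016), (nat_lit 24651042), (nat_lit 18388512), (nat_lit 12378745)] (nat_lit 20955711)) p15_26_0 (nat_lit 4) (nat_lit 23) (nat_lit 24) = true := by decide +kernel
def p15_26_0_24 : pfC (piC [(nat_lit 37297016), (nat_lit 24651042), (nat_lit 18388512), (nat_lit 12378745)] (nat_lit 20955711)) p15_26_0 (nat_lit 4) (nat_lit 24) (nat_lit 25) = true := by decide +kernel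
def p15_26_0_25 : pfC (piC [(nat_lit 37297016), (nat_lit 24651042), (nat_lit 18388512), (nat_lit 12378745)] (nat_lit 20955711)) p15_26_0 (nat_lit 4) (nat_lit 25) (nat_lit 26) = true := by decide +kernel
def p15_26_0_26 : pfC (piC [(nat_lit 37297016), (nat_lit 24651042), (nat_lit 18388512), (nat_lit 12378745)] (nat_lit 20955711)) p15_26_0 (nat_lit 4) (nat_lit 26) (nat_lit 27) = true := by decide +kernel
def p15_26_0_27 : pfC (piC [(nat_lit 37297016), (nat_lit 24651042), (nat_lit 18388512), (nat_lit 12378745)] (nat_lit 20955711)) p15_26_0 (nat_lit 4) (nat_lit 27) (nat_lit 28) = true := by decide +kernel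
def p15_26_0_28 : pfC (piC [(nat_lit 37297016), (nat_lit 24651042), (nat_lit 18388512), (nat_lit 12378745)] (nat_lit 20955711)) p15_26_0 (nat_lit 4) (nat_lit 28) (nat_lit 29) = true := by decide +kernel
def p15_26_0_29 : pfC (piC [(nat_lit 37297016), (nat_lit 24651042), (nat_lit 18388512), (nat_lit 12378745)] (nat_lit 20955711)) p15_26_0 (nat_lit 4) (nat_lit 29) (nat_lit 30) = true := by decide +kernel
def p15_26_0_30 : pfC (piC [(nat_lit 37297016), (nat_lit 24651042), (nat_lit 18388512), (nat_lit 12378745)] (nat_lit 20955711)) p15_26_0 (nat_lit 4) (nat_lit 30) (nat_lit 31) = true := by decide +kernel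
def p15_26_0_31 : pfC (piC [(nat_lit 37297016), (nat_lit 24651042), (nat_lit 18388512), (nat_lit 12378745)] (nat_lit 20955711)) p15_26_0 (nat_lit 4) (nat_lit 31) (nat_lit 32) = true := by decide +kernel
def p15_26_0_32 : pfC (piC [(nat_lit 37297016), (nat_lit 24651042), (nat_lit 18388512), (nat_lit 12378745)] (nat_lit 20955711)) p15_26_0 (nat_lit 4) (nat_lit 32) (nat_lit 33) = true := by decide +kernel
def p15_26_0_33 : pfC (piC [(nat_lit 37297016), (nat_lit 24651042), (nat_lit 18388512), (nat_lit 12378745)] (nat_lit 20955711)) p15_26_0 (nat_lit 4) (nat_lit 33) (nat_lit 34) = true := by decide +kernel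
def p15_26_0_34 : pfC (piC [(nat_lit 37297016), (nat_lit 24651042), (nat_lit 18388512), (nat_lit 12378745)] (nat_lit 20955711)) p15_26_0 (nat_lit 4) (nat_lit 34) (nat_lit 35) = true := by decide +kernel
def p15_26_0_35 : pfC (piC [(nat_lit 37297016), (nat_lit 24651042), (nat_lit 18388512), (nat_lit 12378745)] (nat_lit 20955711)) p15_26_0 (nat_lit 4) (nat_lit 35) (nat_lit 36) = true := by decide +kernel
def p15_26_0_36 : pfC (piC [(nat_lit 37297016), (nat_lit 24651042), (nat_lit 18388512), (nat_lit 12378745)] (nat_lit 20955711)) p15_26_0 (nat_lit 4) (nat_lit 36) (nat_lit 37) = true := by decide +kernel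
def p15_26_0_37 : pfC (piC [(nat_lit 37297016), (nat_lit 24651042), (nat_lit 18388512), (nat_lit 12378745)] (nat_lit 20955711)) p15_26_0 (nat_lit 4) (nat_lit 37) (nat_lit 38) = true := by decide +kernel
def p15_26_0_38 : pfC (piC [(nat_lit 37297016), (nat_lit 24651042), (nat_lit 18388512), (nat_lit 12378745)] (nat_lit 20955711)) p15_26_0 (nat_lit 4) (nat_lit 38) (nat_lit 39) = true := by decide +kernel
def p15_26_0_39 : pfC (piC [(nat_lit 37297016), (nat_lit 24651042), (nat_lit 18388512), (nat_lit 12378745)] (nat_lit 20955711)) p15_26_0 (nat_lit 4) (nat_lit 39) (nat_lit 40) = true := by decide +kernel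
def p15_26_0_40 : pfC (piC [(nat_lit 37297016), (nat_lit 24651042), (nat_lit 18388512), (nat_lit 12378745)] (nat_lit 20955711)) p15_26_0 (nat_lit 4) (nat_lit 40) (nat_lit 41) = true := by decide +kernel
def p15_26_0_41 : pfC (piC [(nat_lit 37297016), (nat_lit 24651042), (nat_lit 18388512), (nat_lit 12378745)] (nat_lit 20955711)) p15_26_0 (nat_lit 4) (nat_lit 41) (nat_lit 42) = true := by decide +kernel
def p15_26_0_42 : pfC (piC [(nat_lit 37297016), (nat_lit 24651042), (nat_lit 18388512), (nat_lit 12378745)] (nat_lit 20955711)) p15_26_0 (nat_lit 4) (nat_lit 42) (nat_lit 43) = true := by decide +kernel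
def p15_26_0_43 : pfC (piC [(nat_lit 37297016), (nat_lit 24651042), (nat_lit 18388512), (nat_lit 12378745)] (nat_lit 20955711)) p15_26_0 (nat_lit 4) (nat_lit 43) (nat_lit 44) = true := by decide +kernel
def p15_26_0_44 : pfC (piC [(nat_lit 37297016), (nat_lit 24651042), (nat_lit 18388512), (nat_lit 12378745)] (nat_lit 20955711)) p15_26_0 (nat_lit 4) (nat_lit 44) (nat_lit 45) = true := by decide +kernel
def p15_26_0_45 : pfC (piC [(nat_lit 37297016), (nat_lit 24651042), (nat_lit 18388512), (nat_lit 12378745)] (nat_lit 20955711)) p15_26_0 (nat_lit 4) (nat_lit 45) (nat_lit 46) = true := by decide +kernel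
def p15_26_0_46 : pfC (piC [(nat_lit 37297016), (nat_lit 24651042), (nat_lit 18388512), (nat_lit 12378745)] (nat_lit 20955711)) p15_26_0 (nat_lit 4) (nat_lit 46) (nat_lit 47) = true := by decide +kernel
def p15_26_0_47 : pfC (piC [(nat_lit 37297016), (nat_lit 24651042), (nat_lit 18388512), (nat_lit 12378745)] (nat_lit 20955711)) p15_26_0 (nat_lit 4) (nat_lit 47) (nat_lit 48) = true := by decide +kernel
def p15_26_0_48 : pfC (piC [(nat_lit 37297016), (nat_lit 24651042), (nat_lit 18388512), (nat_lit 12378745)] (nat_lit 20955711)) p15_26_0 (nat_lit 4) (nat_lit 48) (nat_lit 49) = true := by decide +kernel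
def p15_26_0_49 : pfC (piC [(nat_lit 37297016), (nat_lit 24651042), (nat_lit 18388512), (nat_lit 12378745)] (nat_lit 20955711)) p15_26_0 (nat_lit 4) (nat_lit 49) (nat_lit 50) = true := by decide +kernel
def p15_26_0_50 : pfC (piC [(nat_lit 37297016), (nat_lit 24651042), (nat_lit 18388512), (nat_lit 12378745)] (nat_lit 20955711)) p15_26_0 (nat_lit 4) (nat_lit 50) (nat_lit 51) = true := by decide +kernel
def p15_26_0_51 : pfC (piC [(nat_lit 37297016), (nat_lit 24651042), (nat_lit 18388512), (nat_lit 12378745)] (nat_lit 20955711)) p15_26_0 (nat_lit 4) (nat_lit 51) (nat_lit 52) = true := by decide +kernel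
def p15_26_0_52 : pfC (piC [(nat_lit 37297016), (nat_lit 24651042), (nat_lit 18388512), (nat_lit 12378745)] (nat_lit 20955711)) p15_26_0 (nat_lit 4) (nat_lit 52) (nat_lit 53) = true := by decide +kernel
def p15_26_0_53 : pfC (piC [(nat_lit 37297016), (nat_lit 24651042), (nat_lit 18388512), (nat_lit 12378745)] (nat_lit 20955711)) p15_26_0 (nat_lit 4) (nat_lit 53) (nat_lit 54) = true := by decide +kernel
def p15_26_0_54 : pfC (piC [(nat_lit 37297016), (nat_lit 24651042), (nat_lit 18388512), (nat_lit 12378745)] (nat_lit 20955711)) p15_26_0 (nat_lit 4) (nat_lit 54) (nat_lit 55) = true := by decide +kernel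
def p15_26_0_55 : pfC (piC [(nat_lit 37297016), (nat_lit 24651042), (nat_lit 18388512), (nat_lit 12378745)] (nat_lit 20955711)) p15_26_0 (nat_lit 4) (nat_lit 55) (nat_lit 56) = true := by decide +kernel
def p15_26_0_56 : pfC (piC [(nat_lit 37297016), (nat_lit 24651042), (nat_lit 18388512), (nat_lit 12378745)] (nat_lit 20955711)) p15_26_0 (nat_lit 4) (nat_lit 56) (nat_lit 57) = true := by decide +kernel
def p15_26_0_57 : pfC (piC [(nat_lit 37297016), (nat_lit 24651042), (nat_lit 18388512), (nat_lit 12378745)] (nat_lit 20955711)) p15_26_0 (nat_lit 4) (nat_lit 57) (nat_lit 58) = true := by decide +kernel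
def p15_26_0_58 : pfC (piC [(nat_lit 37297016), (nat_lit 24651042), (nat_lit 18388512), (nat_lit 12378745)] (nat_lit 20955711)) p15_26_0 (nat_lit 4) (nat_lit 58) (nat_lit 59) = true := by decide +kernel
def p15_26_0_59 : pfC (piC [(nat_lit 37297016), (nat_lit 24651042), (nat_lit 18388512), (nat_lit 12378745)] (nat_lit 20955711)) p15_26_0 (nat_lit 4) (nat_lit 59) (nat_lit 60) = true := by decide +kernel
def p15_26_0_60 : pfC (piC [(nat_lit 37297016), (nat_lit 24651042), (nat_lit 18388512), (nat_lit 12378745)] (nat_lit 20955711)) p15_26_0 (nat_lit 4) (nat_lit 60) (nat_lit 61) = true := by decide +kernel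
def p15_26_0_61 : pfC (piC [(nat_lit 37297016), (nat_lit 24651042), (nat_lit 18388512), (nat_lit 12378745)] (nat_lit 20955711)) p15_26_0 (nat_lit 4) (nat_lit 61) (nat_lit 62) = true := by decide +kernel
def p15_26_0_62 : pfC (piC [(nat_lit 37297016), (nat_lit 24651042), (nat_lit 18388512), (nat_lit 12378745)] (nat_lit 20955711)) p15_26_0 (nat_lit 4) (nat_lit 62) (nat_lit 63) = true := by decide +kernel
def p15_26_0_63 : pfC (piC [(nat_lit 37297016), (nat_lit 24651042), (nat_lit 18388512), (nat_lit 12378745)] (nat_lit 20955711)) p15_26_0 (nat_lit 4) (nat_lit 63) (nat_lit 64) = true := by decide +kernel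
def p15_26_0_64 : pfC (piC [(nat_lit 37297016), (nat_lit 24651042), (nat_lit 18388512), (nat_lit 12378745)] (nat_lit 20955711)) p15_26_0 (nat_lit 4) (nat_lit 64) (nat_lit 65) = true := by decide +kernel
def p15_26_0_65 : pfC (piC [(nat_lit 37297016), (nat_lit 24651042), (nat_lit 18388512), (nat_lit 12378745)] (nat_lit 20955711)) p15_26_0 (nat_lit 4) (nat_lit 65) (nat_lit 66) = true := by decide +kernel
def p15_26_0_66 : pfC (piC [(nat_lit 37297016), (nat_lit 24651042), (nat_lit 18388512), (nat_lit 12378745)] (nat_lit 20955711)) p15_26_0 (nat_lit 4) (nat_lit 66) (nat_lit 67) = true := by decide +kernel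
def p15_26_0_67 : pfC (piC [(nat_lit 37297016), (nat_lit 24651042), (nat_lit 18388512), (nat_lit 12378745)] (nat_lit 20955711)) p15_26_0 (nat_lit 4) (nat_lit 67) (nat_lit 68) = true := by decide +kernel
def p15_26_0_68 : pfC (piC [(nat_lit 37297016), (nat_lit 24651042), (nat_lit 18388512), (nat_lit 12378745)] (nat_lit 20955711)) p15_26_0 (nat_lit 4) (nat_lit 68) (nat_lit 69) = true := by decide +kernel
def p15_26_0_69 : pfC (piC [(nat_lit 37297016), (nat_lit 24651042), (nat_lit 18388512), (nat_lit 12378745)] (nat_lit 20955711)) p15_26_0 (nat_lit 4) (nat_lit 69) (nat_lit 70) = true := by decide +kernel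
def p15_26_0_70 : pfC (piC [(nat_lit 37297016), (nat_lit 24651042), (nat_lit 18388512), (nat_lit 12378745)] (nat_lit 20955711)) p15_26_0 (nat_lit 4) (nat_lit 70) (nat_lit 71) = true := by decide +kernel
def p15_26_0_71 : pfC (piC [(nat_lit 37297016), (nat_lit 24651042), (nat_lit 18388512), (nat_lit 12378745)] (nat_lit 20955711)) p15_26_0 (nat_lit 4) (nat_lit 71) (nat_lit 72) = true := by decide +kernel
def p15_26_0_72 : pfC (piC [(nat_lit 37297016), (nat_lit 24651042), (nat_lit 18388512), (nat_lit 12378745)] (nat_lit 20955711)) p15_26_0 (nat_lit 4) (nat_lit 72) (nat_lit 73) = true := by decide +kernel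
def p15_26_0_73 : pfC (piC [(nat_lit 37297016), (nat_lit 24651042), (nat_lit 18388512), (nat_lit 12378745)] (nat_lit 20955711)) p15_26_0 (nat_lit 4) (nat_lit 73) (nat_lit 74) = true := by decide +kernel
def p15_26_0_74 : pfC (piC [(nat_lit 37297016), (nat_lit 24651042), (nat_lit 18388512), (nat_lit 12378745)] (nat_lit 20955711)) p15_26_0 (nat_lit 4) (nat_lit 74) (nat_lit 75) = true := by decide +kernel
def p15_26_0_75 : pfC (piC [(nat_lit 37297016), (nat_lit 24651042), (nat_lit 18388512), (nat_lit 12378745)] (nat_lit 20955711)) p15_26_0 (nat_lit 4) (nat_lit 75) (nat_lit 76) = true := by decide +kernel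
def p15_26_0_76 : pfC (piC [(nat_lit 37297016), (nat_lit 24651042), (nat_lit 18388512), (nat_lit 12378745)] (nat_lit 20955711)) p15_26_0 (nat_lit 4) (nat_lit 76) (nat_lit 77) = true := by decide +kernel
def p15_26_0_77 : pfC (piC [(nat_lit 37297016), (nat_lit 24651042), (nat_lit 18388512), (nat_lit 12378745)] (nat_lit 20955711)) p15_26_0 (nat_lit 4) (nat_lit 77) (nat_lit 78) = true := by decide +kernel
def p15_26_0_78 : pfC (piC [(nat_lit 37297016), (nat_lit 24651042), (nat_lit 18388512), (nat_lit 12378745)] (nat_lit 20955711)) p15_26_0 (nat_lit 4) (nat_lit 78) (nat_lit 79) = true := by decide +kernel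
def p15_26_0_79 : pfC (piC [(nat_lit 37297016), (nat_lit 24651042), (nat_lit 18388512), (nat_lit 12378745)] (nat_lit 20955711)) p15_26_0 (nat_lit 4) (nat_lit 79) (nat_lit 80) = true := by decide +kernel
def p15_26_0_80 : pfC (piC [(nat_lit 37297016), (nat_lit 24651042), (nat_lit 18388512), (nat_lit 12378745)] (nat_lit 20955711)) p15_26_0 (nat_lit 4) (nat_lit 80) (nat_lit 81) = true := by decide +kernel
def p15_26_0_81 : pfC (piC [(nat_lit 37297016), (nat_lit 24651042), (nat_lit 18388512), (nat_lit 12378745)] (nat_lit 20955711)) p15_26_0 (nat_lit 4) (nat_lit 81) (nat_lit 82) = true := by decide +kernel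
def p15_26_0_82 : pfC (piC [(nat_lit 37297016), (nat_lit 24651042), (nat_lit 18388512), (nat_lit 12378745)] (nat_lit 20955711)) p15_26_0 (nat_lit 4) (nat_lit 82) (nat_lit 83) = true := by decide +kernel
def p15_26_0_83 : pfC (piC [(nat_lit 37297016), (nat_lit 24651042), (nat_lit 18388512), (nat_lit 12378745)] (nat_lit 20955711)) p15_26_0 (nat_lit 4) (nat_lit 83) (nat_lit 84) = true := by decide +kernel
def p15_26_0_84 : pfC (piC [(nat_lit 37297016), (nat_lit 24651042), (nat_lit 18388512), (nat_lit 12378745)] (nat_lit 20955711)) p15_26_0 (nat_lit 4) (nat_lit 84) (nat_lit 85) = true := by decide +kernel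
def p15_26_0_85 : pfC (piC [(nat_lit 37297016), (nat_lit 24651042), (nat_lit 18388512), (nat_lit 12378745)] (nat_lit 20955711)) p15_26_0 (nat_lit 4) (nat_lit 85) (nat_lit 86) = true := by decide +kernel
def p15_26_0_86 : pfC (piC [(nat_lit 37297016), (nat_lit 24651042), (nat_lit 18388512), (nat_lit 12378745)] (nat_lit 20955711)) p15_26_0 (nat_lit 4) (nat_lit 86) (nat_lit 87) = true := by decide +kernel
def p15_26_0_87 : pfC (piC [(nat_lit 37297016), (nat_lit 24651042), (nat_lit 18388512), (nat_lit 12378745)] (nat_lit 20955711)) p15_26_0 (nat_lit 4) (nat_lit 87) (nat_lit 88) = true := by decide +kernel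
def p15_26_0_88 : pfC (piC [(nat_lit 37297016), (nat_lit 24651042), (nat_lit 18388512), (nat_lit 12378745)] (nat_lit 20955711)) p15_26_0 (nat_lit 4) (nat_lit 88) (nat_lit 89) = true := by decide +kernel
def p15_26_0_89 : pfC (piC [(nat_lit 37297016), (nat_lit 24651042), (nat_lit 18388512), (nat_lit 12378745)] (nat_lit 20955711)) p15_26_0 (nat_lit 4) (nat_lit 89) (nat_lit 90) = true := by decide +kernel
def p15_26_0_90 : pfC (piC [(nat_lit 37297016), (nat_lit 24651042), (nat_lit 18388512), (nat_lit 12378745)] (nat_lit 20955711)) p15_26_0 (nat_lit 4) (nat_lit 90) (nat_lit 91) = true := by decide +kernel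
def p15_26_0_91 : pfC (piC [(nat_lit 37297016), (nat_lit 24651042), (nat_lit 18388512), (nat_lit 12378745)] (nat_lit 20955711)) p15_26_0 (nat_lit 4) (nat_lit 91) (nat_lit 92) = true := by decide +kernel
def p15_26_0_92 : pfC (piC [(nat_lit 37297016), (nat_lit 24651042), (nat_lit 18388512), (nat_lit 12378745)] (nat_lit 20955711)) p15_26_0 (nat_lit 4) (nat_lit 92) (nat_lit 93) = true := by decide +kernel
def p15_26_0_93 : pfC (piC [(nat_lit 37297016), (nat_lit 24651042), (nat_lit 18388512), (nat_lit 12378745)] (nat_lit 20955711)) p15_26_0 (nat_lit 4) (nat_lit 93) (nat_lit 94) = true := by decide +kernel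
def p15_26_0_94 : pfC (piC [(nat_lit 37297016), (nat_lit 24651042), (nat_lit 18388512), (nat_lit 12378745)] (nat_lit 20955711)) p15_26_0 (nat_lit 4) (nat_lit 94) (nat_lit 95) = true := by decide +kernel
def p15_26_0_95 : pfC (piC [(nat_lit 37297016), (nat_lit 24651042), (nat_lit 18388512), (nat_lit 12378745)] (nat_lit 20955711)) p15_26_0 (nat_lit 4) (nat_lit 95) (nat_lit 96) = true := by decide +kernel
def p15_26_0_96 : pfC (piC [(nat_lit 37297016), (nat_lit 24651042), (nat_lit 18388512), (nat_lit 12378745)] (nat_lit 20955711)) p15_26_0 (nat_lit 4) (nat_lit 96) (nat_lit 97) = true := by decide +kernel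
def p15_26_0_97 : pfC (piC [(nat_lit 37297016), (nat_lit 24651042), (nat_lit 18388512), (nat_lit 12378745)] (nat_lit 20955711)) p15_26_0 (nat_lit 4) (nat_lit 97) (nat_lit 98) = true := by decide +kernel
def p15_26_0_98 : pfC (piC [(nat_lit 37297016), (nat_lit 24651042), (nat_lit 18388512), (nat_lit 12378745)] (nat_lit 20955711)) p15_26_0 (nat_lit 4) (nat_lit 98) (nat_lit 99) = true := by decide +kernel
def p15_26_0_99 : pfC (piC [(nat_lit 37297016), (nat_lit 24651042), (nat_lit 18388512), (nat_lit 12378745)] (nat_lit 20955711)) p15_26_0 (nat_lit 4) (nat_lit 99) (nat_lit 100) = true := by decide +kernel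
def p15_26_0_100 : pfC (piC [(nat_lit 37297016), (nat_lit 24651042), (nat_lit 18388512), (nat_lit 12378745)] (nat_lit 20955711)) p15_26_0 (nat_lit 4) (nat_lit 100) (nat_lit 101) = true := by decide +kernel
def p15_26_0_101 : pfC (piC [(nat_lit 37297016), (nat_lit 24651042), (nat_lit 18388512), (nat_lit 12378745)] (nat_lit 20955711)) p15_26_0 (nat_lit 4) (nat_lit 101) (nat_lit 102) = true := by decide +kernel
def p15_26_0_102 : pfC (piC [(nat_lit 37297016), (nat_lit 24651042), (nat_lit 18388512), (nat_lit 12378745)] (nat_lit 20955711)) p15_26_0 (nat_lit 4) (nat_lit 102) (nat_lit 103) = true := by decide +kernel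
def p15_26_0_103 : pfC (piC [(nat_lit 37297016), (nat_lit 24651042), (nat_lit 18388512), (nat_lit 12378745)] (nat_lit 20955711)) p15_26_0 (nat_lit 4) (nat_lit 103) (nat_lit 104) = true := by decide +kernel
def p15_26_0_104 : pfC (piC [(nat_lit 37297016), (nat_lit 24651042), (nat_lit 18388512), (nat_lit 12378745)] (nat_lit 20955711)) p15_26_0 (nat_lit 4) (nat_lit 104) (nat_lit 105) = true := by decide +kernel
def p15_26_0_105 : pfC (piC [(nat_lit 37297016), (nat_lit 24651042), (nat_lit 18388512), (nat_lit 12378745)] (nat_lit 20955711)) p15_26_0 (nat_lit 4) (nat_lit 105) (nat_lit 106) = true := by decide +kernel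
def p15_26_0_106 : pfC (piC [(nat_lit 37297016), (nat_lit 24651042), (nat_lit 18388512), (nat_lit 12378745)] (nat_lit 20955711)) p15_26_0 (nat_lit 4) (nat_lit 106) (nat_lit 107) = true := by decide +kernel
def p15_26_0_107 : pfC (piC [(nat_lit 37297016), (nat_lit 24651042), (nat_lit 18388512), (nat_lit 12378745)] (nat_lit 20955711)) p15_26_0 (nat_lit 4) (nat_lit 107) (nat_lit 108) = true := by decide +kernel
def p15_26_0_108 : pfC (piC [(nat_lit 37297016), (nat_lit 24651042), (nat_lit 18388512), (nat_lit 12378745)] (nat_lit 20955711)) p15_26_0 (nat_lit 4) (nat_lit 108) (nat_lit 109) = true := by decide +kernel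
def p15_26_0_109 : pfC (piC [(nat_lit 37297016), (nat_lit 24651042), (nat_lit 18388512), (nat_lit 12378745)] (nat_lit 20955711)) p15_26_0 (nat_lit 4) (nat_lit 109) (nat_lit 110) = true := by decide +kernel
def p15_26_0_110 : pfC (piC [(nat_lit 37297016), (nat_lit 24651042), (nat_lit 18388512), (nat_lit 12378745)] (nat_lit 20955711)) p15_26_0 (nat_lit 4) (nat_lit 110) (nat_lit 111) = true := by decide +kernel
def p15_26_0_111 : pfC (piC [(nat_lit 37297016), (nat_lit 24651042), (nat_lit 18388512), (nat_lit 12378745)] (nat_lit 20955711)) p15_26_0 (nat_lit 4) (nat_lit 111) (nat_lit 112) = true := by decide +kernel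
def p15_26_0_112 : pfC (piC [(nat_lit 37297016), (nat_lit 24651042), (nat_lit 18388512), (nat_lit 12378745)] (nat_lit 20955711)) p15_26_0 (nat_lit 4) (nat_lit 112) (nat_lit 113) = true := by decide +kernel
def p15_26_0_113 : pfC (piC [(nat_lit 37297016), (nat_lit 24651042), (nat_lit 18388512), (nat_lit 12378745)] (nat_lit 20955711)) p15_26_0 (nat_lit 4) (nat_lit 113) (nat_lit 114) = true := by decide +kernel
def p15_26_0_114 : pfC (piC [(nat_lit 37297016), (nat_lit 24651042), (nat_lit 18388512), (nat_lit 12378745)] (nat_lit 20955711)) p15_26_0 (nat_lit 4) (nat_lit 114) (nat_lit 115) = true := by decide +kernel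
def p15_26_0_115 : pfC (piC [(nat_lit 37297016), (nat_lit 24651042), (nat_lit 18388512), (nat_lit 12378745)] (nat_lit 20955711)) p15_26_0 (nat_lit 4) (nat_lit 115) (nat_lit 116) = true := by decide +kernel
def p15_26_0_116 : pfC (piC [(nat_lit 37297016), (nat_lit 24651042), (nat_lit 18388512), (nat_lit 12378745)] (nat_lit 20955711)) p15_26_0 (nat_lit 4) (nat_lit 116) (nat_lit 117) = true := by decide +kernel
def p15_26_0_117 : pfC (piC [(nat_lit 37297016), (nat_lit 24651042), (nat_lit 18388512), (nat_lit 12378745)] (nat_lit 20955711)) p15_26_0 (nat_lit 4) (nat_lit 117) (nat_lit 118) = true := by decide +kernel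
def p15_26_0_118 : pfC (piC [(nat_lit 37297016), (nat_lit 24651042), (nat_lit 18388512), (nat_lit 12378745)] (nat_lit 20955711)) p15_26_0 (nat_lit 4) (nat_lit 118) (nat_lit 119) = true := by decide +kernel
def p15_26_0_119 : pfC (piC [(nat_lit 37297016), (nat_lit 24651042), (nat_lit 18388512), (nat_lit 12378745)] (nat_lit 20955711)) p15_26_0 (nat_lit 4) (nat_lit 119) (nat_lit 120) = true := by decide +kernel
def p15_26_0_120 : pfC (piC [(nat_lit 37297016), (nat_lit 24651042), (nat_lit 18388512), (nat_lit 12378745)] (nat_lit 20955711)) p15_26_0 (nat_lit 4) (nat_lit 120) (nat_lit 121) = true := by decide +kernel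
def p15_26_0_121 : pfC (piC [(nat_lit 37297016), (nat_lit 24651042), (nat_lit 18388512), (nat_lit 12378745)] (nat_lit 20955711)) p15_26_0 (nat_lit 4) (nat_lit 121) (nat_lit 122) = true := by decide +kernel
def p15_26_0_122 : pfC (piC [(nat_lit 37297016), (nat_lit 24651042), (nat_lit 18388512), (nat_lit 12378745)] (nat_lit 20955711)) p15_26_0 (nat_lit 4) (nat_lit 122) (nat_lit 123) = true := by decide +kernel
def p15_26_0_123 : pfC (piC [(nat_lit 37297016), (nat_lit 24651042), (nat_lit 18388512), (nat_lit 12378745)] (nat_lit 20955711)) p15_26_0 (nat_lit 4) (nat_lit 123) (nat_lit 124) = true := by decide +kernel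
def p15_26_0_124 : pfC (piC [(nat_lit 37297016), (nat_lit 24651042), (nat_lit 18388512), (nat_lit 12378745)] (nat_lit 20955711)) p15_26_0 (nat_lit 4) (nat_lit 124) (nat_lit 125) = true := by decide +kernel
def p15_26_0_125 : pfC (piC [(nat_lit 37297016), (nat_lit 24651042), (nat_lit 18388512), (nat_lit 12378745)] (nat_lit 20955711)) p15_26_0 (nat_lit 4) (nat_lit 125) (nat_lit 126) = true := by decide +kernel
def p15_26_0_126 : pfC (piC [(nat_lit 37297016), (nat_lit 24651042), (nat_lit 18388512), (nat_lit 12378745)] (nat_lit 20955711)) p15_26_0 (nat_lit 4) (nat_lit 126) (nat_lit 127) = true := by decide +kernel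
def p15_26_0_127 : pfC (piC [(nat_lit 37297016), (nat_lit 24651042), (nat_lit 18388512), (nat_lit 12378745)] (nat_lit 20955711)) p15_26_0 (nat_lit 4) (nat_lit 127) (nat_lit 128) = true := by decide +kernel
def p15_26_0_128 : pfC (piC [(nat_lit 37297016), (nat_lit 24651042), (nat_lit 18388512), (nat_lit 12378745)] (nat_lit 20955711)) p15_26_0 (nat_lit 4) (nat_lit 128) (nat_lit 129) = true := by decide +kernel
def p15_26_0_129 : pfC (piC [(nat_lit 37297016), (nat_lit 24651042), (nat_lit 18388512), (nat_lit 12378745)] (nat_lit 20955711)) p15_26_0 (nat_lit 4) (nat_lit 129) (nat_lit 130) = true := by decide +kernel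
def p15_26_0_130 : pfC (piC [(nat_lit 37297016), (nat_lit 24651042), (nat_lit 18388512), (nat_lit 12378745)] (nat_lit 20955711)) p15_26_0 (nat_lit 4) (nat_lit 130) (nat_lit 131) = true := by decide +kernel
def p15_26_0_131 : pfC (piC [(nat_lit 37297016), (nat_lit 24651042), (nat_lit 18388512), (nat_lit 12378745)] (nat_lit 20955711)) p15_26_0 (nat_lit 4) (nat_lit 131) (nat_lit 132) = true := by decide +kernel
def p15_26_0_132 : pfC (piC [(nat_lit 37297016), (nat_lit 24651042), (nat_lit 18388512), (nat_lit 12378745)] (nat_lit 20955711)) p15_26_0 (nat_lit 4) (nat_lit 132) (nat_lit 133) = true := by decide +kernel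
def p15_26_0_133 : pfC (piC [(nat_lit 37297016), (nat_lit 24651042), (nat_lit 18388512), (nat_lit 12378745)] (nat_lit 20955711)) p15_26_0 (nat_lit 4) (nat_lit 133) (nat_lit 134) = true := by decide +kernel
def p15_26_0_134 : pfC (piC [(nat_lit 37297016), (nat_lit 24651042), (nat_lit 18388512), (nat_lit 12378745)] (nat_lit 20955711)) p15_26_0 (nat_lit 4) (nat_lit 134) (nat_lit 135) = true := by decide +kernel
def p15_26_0_135 : pfC (piC [(nat_lit 37297016), (nat_lit 24651042), (nat_lit 18388512), (nat_lit 12378745)] (nat_lit 20955711)) p15_26_0 (nat_lit 4) (nat_lit 135) (nat_lit 136) = true := by decide +kernel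
def p15_26_0_136 : pfC (piC [(nat_lit 37297016), (nat_lit 24651042), (nat_lit 18388512), (nat_lit 12378745)] (nat_lit 20955711)) p15_26_0 (nat_lit 4) (nat_lit 136) (nat_lit 137) = true := by decide +kernel
def p15_26_0_137 : pfC (piC [(nat_lit 37297016), (nat_lit 24651042), (nat_lit 18388512), (nat_lit 12378745)] (nat_lit 20955711)) p15_26_0 (nat_lit 4) (nat_lit 137) (nat_lit 138) = true := by decide +kernel
def p15_26_0_138 : pfC (piC [(nat_lit 37297016), (nat_lit 24651042), (nat_lit 18388512), (nat_lit 12378745)] (nat_lit 20955711)) p15_26_0 (nat_lit 4) (nat_lit 138) (nat_lit 139) = true := by decide +kernel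
def p15_26_0_139 : pfC (piC [(nat_lit 37297016), (nat_lit 24651042), (nat_lit 18388512), (nat_lit 12378745)] (nat_lit 20955711)) p15_26_0 (nat_lit 4) (nat_lit 139) (nat_lit 140) = true := by decide +kernel
def p15_26_0_140 : pfC (piC [(nat_lit 37297016), (nat_lit 24651042), (nat_lit 18388512), (nat_lit 12378745)] (nat_lit 20955711)) p15_26_0 (nat_lit 4) (nat_lit 140) (nat_lit 141) = true := by decide +kernel
def p15_26_0_141 : pfC (piC [(nat_lit 37297016), (nat_lit 24651042), (nat_lit 18388512), (nat_lit 12378745)] (nat_lit 20955711)) p15_26_0 (nat_lit 4) (nat_lit 141) (nat_lit 142) = true := by decide +kernel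
def p15_26_0_142 : pfC (piC [(nat_lit 37297016), (nat_lit 24651042), (nat_lit 18388512), (nat_lit 12378745)] (nat_lit 20955711)) p15_26_0 (nat_lit 4) (nat_lit 142) (nat_lit 143) = true := by decide +kernel
def p15_26_0_143 : pfC (piC [(nat_lit 37297016), (nat_lit 24651042), (nat_lit 18388512), (nat_lit 12378745)] (nat_lit 20955711)) p15_26_0 (nat_lit 4) (nat_lit 143) (nat_lit 144) = true := by decide +kernel
def p15_26_0_144 : pfC (piC [(nat_lit 37297016), (nat_lit 24651042), (nat_lit 18388512), (nat_lit 12378745)] (nat_lit 20955711)) p15_26_0 (nat_lit 4) (nat_lit 144) (nat_lit 145) = true := by decide +kernel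
def p15_26_0_145 : pfC (piC [(nat_lit 37297016), (nat_lit 24651042), (nat_lit 18388512), (nat_lit 12378745)] (nat_lit 20955711)) p15_26_0 (nat_lit 4) (nat_lit 145) (nat_lit 146) = true := by decide +kernel
def p15_26_0_146 : pfC (piC [(nat_lit 37297016), (nat_lit 24651042), (nat_lit 18388512), (nat_lit 12378745)] (nat_lit 20955711)) p15_26_0 (nat_lit 4) (nat_lit 146) (nat_lit 147) = true := by decide +kernel
def p15_26_0_147 : pfC (piC [(nat_lit 37297016), (nat_lit 24651042), (nat_lit 18388512), (nat_lit 12378745)] (nat_lit 20955711)) p15_26_0 (nat_lit 4) (nat_lit 147) (nat_lit 148) = true := by decide +kernel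
def p15_26_0_148 : pfC (piC [(nat_lit 37297016), (nat_lit 24651042), (nat_lit 18388512), (nat_lit 12378745)] (nat_lit 20955711)) p15_26_0 (nat_lit 4) (nat_lit 148) (nat_lit 149) = true := by decide +kernel
def p15_26_0_149 : pfC (piC [(nat_lit 37297016), (nat_lit 24651042), (nat_lit 18388512), (nat_lit 12378745)] (nat_lit 20955711)) p15_26_0 (nat_lit 4) (nat_lit 149) (nat_lit 150) = true := by decide +kernel
def p15_26_0_150 : pfC (piC [(nat_lit 37297016), (nat_lit 24651042), (nat_lit 18388512), (nat_lit 12378745)] (nat_lit 20955711)) p15_26_0 (nat_lit 4) (nat_lit 150) (nat_lit 151) = true := by decide +kernel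
def p15_26_0_151 : pfC (piC [(nat_lit 37297016), (nat_lit 24651042), (nat_lit 18388512), (nat_lit 12378745)] (nat_lit 20955711)) p15_26_0 (nat_lit 4) (nat_lit 151) (nat_lit 152) = true := by decide +kernel
def p15_26_0_152 : pfC (piC [(nat_lit 37297016), (nat_lit 24651042), (nat_lit 18388512), (nat_lit 12378745)] (nat_lit 20955711)) p15_26_0 (nat_lit 4) (nat_lit 152) (nat_lit 153) = true := by decide +kernel
def p15_26_0_153 : pfC (piC [(nat_lit 37297016), (nat_lit 24651042), (nat_lit 18388512), (nat_lit 12378745)] (nat_lit 20955711)) p15_26_0 (nat_lit 4) (nat_lit 153) (nat_lit 154) = true := by decide +kernel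
def p15_26_0_154 : pfC (piC [(nat_lit 37297016), (nat_lit 24651042), (nat_lit 18388512), (nat_lit 12378745)] (nat_lit 20955711)) p15_26_0 (nat_lit 4) (nat_lit 154) (nat_lit 155) = true := by decide +kernel
def p15_26_0_155 : pfC (piC [(nat_lit 37297016), (nat_lit 24651042), (nat_lit 18388512), (nat_lit 12378745)] (nat_lit 20955711)) p15_26_0 (nat_lit 4) (nat_lit 155) (nat_lit 156) = true := by decide +kernel
def p15_26_0_156 : pfC (piC [(nat_lit 37297016), (nat_lit 24651042), (nat_lit 18388512), (nat_lit 12378745)] (nat_lit 20955711)) p15_26_0 (nat_lit 4) (nat_lit 156) (nat_lit 157) = true := by decide +kernel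
def p15_26_0_157 : pfC (piC [(nat_lit 37297016), (nat_lit 24651042), (nat_lit 18388512), (nat_lit 12378745)] (nat_lit 20955711)) p15_26_0 (nat_lit 4) (nat_lit 157) (nat_lit 158) = true := by decide +kernel
def p15_26_0_158 : pfC (piC [(nat_lit 37297016), (nat_lit 24651042), (nat_lit 18388512), (nat_lit 12378745)] (nat_lit 20955711)) p15_26_0 (nat_lit 4) (nat_lit 158) (nat_lit 159) = true := by decide +kernel
def p15_26_0_159 : pfC (piC [(nat_lit 37297016), (nat_lit 24651042), (nat_lit 18388512), (nat_lit 12378745)] (nat_lit 20955711)) p15_26_0 (nat_lit 4) (nat_lit 159) (nat_lit 160) = true := by decide +kernel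
def p15_26_0_160 : pfC (piC [(nat_lit 37297016), (nat_lit 24651042), (nat_lit 18388512), (nat_lit 12378745)] (nat_lit 20955711)) p15_26_0 (nat_lit 4) (nat_lit 160) (nat_lit 161) = true := by decide +kernel
def p15_26_0_161 : pfC (piC [(nat_lit 37297016), (nat_lit 24651042), (nat_lit 18388512), (nat_lit 12378745)] (nat_lit 20955711)) p15_26_0 (nat_lit 4) (nat_lit 161) (nat_lit 162) = true := by decide +kernel
def p15_26_0_162 : pfC (piC [(nat_lit 37297016), (nat_lit 24651042), (nat_lit 18388512), (nat_lit 12378745)] (nat_lit 20955711)) p15_26_0 (nat_lit 4) (nat_lit 162) (nat_lit 163) = true := by decide +kernel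
def p15_26_0_163 : pfC (piC [(nat_lit 37297016), (nat_lit 24651042), (nat_lit 18388512), (nat_lit 12378745)] (nat_lit 20955711)) p15_26_0 (nat_lit 4) (nat_lit 163) (nat_lit 164) = true := by decide +kernel
def p15_26_0_164 : pfC (piC [(nat_lit 37297016), (nat_lit 24651042), (nat_lit 18388512), (nat_lit 12378745)] (nat_lit 20955711)) p15_26_0 (nat_lit 4) (nat_lit 164) (nat_lit 165) = true := by decide +kernel
def p15_26_0_165 : pfC (piC [(nat_lit 37297016), (nat_lit 24651042), (nat_lit 18388512), (nat_lit 12378745)] (nat_lit 20955711)) p15_26_0 (nat_lit 4) (nat_lit 165) (nat_lit 166) = true := by decide +kernel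
def p15_26_0_166 : pfC (piC [(nat_lit 37297016), (nat_lit 24651042), (nat_lit 18388512), (nat_lit 12378745)] (nat_lit 20955711)) p15_26_0 (nat_lit 4) (nat_lit 166) (nat_lit 167) = true := by decide +kernel
def p15_26_0_167 : pfC (piC [(nat_lit 37297016), (nat_lit 24651042), (nat_lit 18388512), (nat_lit 12378745)] (nat_lit 20955711)) p15_26_0 (nat_lit 4) (nat_lit 167) (nat_lit 168) = true := by decide +kernel
def p15_26_0_168 : pfC (piC [(nat_lit 37297016), (nat_lit 24651042), (nat_lit 18388512), (nat_lit 12378745)] (nat_lit 20955711)) p15_26_0 (nat_lit 4) (nat_lit 168) (nat_lit 169) = true := by decide +kernel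
def p15_26_0_169 : pfC (piC [(nat_lit 37297016), (nat_lit 24651042), (nat_lit 18388512), (nat_lit 12378745)] (nat_lit 20955711)) p15_26_0 (nat_lit 4) (nat_lit 169) (nat_lit 170) = true := by decide +kernel
def p15_26_0_170 : pfC (piC [(nat_lit 37297016), (nat_lit 24651042), (nat_lit 18388512), (nat_lit 12378745)] (nat_lit 20955711)) p15_26_0 (nat_lit 4) (nat_lit 170) (nat_lit 171) = true := by decide +kernel
def p15_26_0_171 : pfC (piC [(nat_lit 37297016), (nat_lit 24651042), (nat_lit 18388512), (nat_lit 12378745)] (nat_lit 20955711)) p15_26_0 (nat_lit 4) (nat_lit 171) (nat_lit 172) = true := by decide +kernel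
def p15_26_0_172 : pfC (piC [(nat_lit 37297016), (nat_lit 24651042), (nat_lit 18388512), (nat_lit 12378745)] (nat_lit 20955711)) p15_26_0 (nat_lit 4) (nat_lit 172) (nat_lit 173) = true := by decide +kernel
def p15_26_0_173 : pfC (piC [(nat_lit 37297016), (nat_lit 24651042), (nat_lit 18388512), (nat_lit 12378745)] (nat_lit 20955711)) p15_26_0 (nat_lit 4) (nat_lit 173) (nat_lit 174) = true := by decide +kernel
def p15_26_0_174 : pfC (piC [(nat_lit 37297016), (nat_lit 24651042), (nat_lit 18388512), (nat_lit 12378745)] (nat_lit 20955711)) p15_26_0 (nat_lit 4) (nat_lit 174) (nat_lit 175) = true := by decide +kernel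
def p15_26_0_175 : pfC (piC [(nat_lit 37297016), (nat_lit 24651042), (nat_lit 18388512), (nat_lit 12378745)] (nat_lit 20955711)) p15_26_0 (nat_lit 4) (nat_lit 175) (nat_lit 176) = true := by decide +kernel
def p15_26_0_176 : pfC (piC [(nat_lit 37297016), (nat_lit 24651042), (nat_lit 18388512), (nat_lit 12378745)] (nat_lit 20955711)) p15_26_0 (nat_lit 4) (nat_lit 176) (nat_lit 177) = true := by decide +kernel
def p15_26_0_177 : pfC (piC [(nat_lit 37297016), (nat_lit 24651042), (nat_lit 18388512), (nat_lit 12378745)] (nat_lit 20955711)) p15_26_0 (nat_lit 4) (nat_lit 177) (nat_lit 178) = true := by decide +kernel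
def p15_26_0_178 : pfC (piC [(nat_lit 37297016), (nat_lit 24651042), (nat_lit 18388512), (nat_lit 12378745)] (nat_lit 20955711)) p15_26_0 (nat_lit 4) (nat_lit 178) (nat_lit 179) = true := by decide +kernel
def p15_26_0_179 : pfC (piC [(nat_lit 37297016), (nat_lit 24651042), (nat_lit 18388512), (nat_lit 12378745)] (nat_lit 20955711)) p15_26_0 (nat_lit 4) (nat_lit 179) (nat_lit 180) = true := by decide +kernel
def p15_26_0_180 : pfC (piC [(nat_lit 37297016), (nat_lit 24651042), (nat_lit 18388512), (nat_lit 12378745)] (nat_lit 20955711)) p15_26_0 (nat_lit 4) (nat_lit 180) (nat_lit 181) = true := by decide +kernel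
def p15_26_0_181 : pfC (piC [(nat_lit 37297016), (nat_lit 24651042), (nat_lit 18388512), (nat_lit 12378745)] (nat_lit 20955711)) p15_26_0 (nat_lit 4) (nat_lit 181) (nat_lit 182) = true := by decide +kernel
def p15_26_0_182 : pfC (piC [(nat_lit 37297016), (nat_lit 24651042), (nat_lit 18388512), (nat_lit 12378745)] (nat_lit 20955711)) p15_26_0 (nat_lit 4) (nat_lit 182) (nat_lit 183) = true := by decide +kernel
def p15_26_0_183 : pfC (piC [(nat_lit 37297016), (nat_lit 24651042), (nat_lit 18388512), (nat_lit 12378745)] (nat_lit 20955711)) p15_26_0 (nat_lit 4) (nat_lit 183) (nat_lit 184) = true := by decide +kernel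
def p15_26_0_184 : pfC (piC [(nat_lit 37297016), (nat_lit 24651042), (nat_lit 18388512), (nat_lit 12378745)] (nat_lit 20955711)) p15_26_0 (nat_lit 4) (nat_lit 184) (nat_lit 185) = true := by decide +kernel
def p15_26_0_185 : pfC (piC [(nat_lit 37297016), (nat_lit 24651042), (nat_lit 18388512), (nat_lit 12378745)] (nat_lit 20955711)) p15_26_0 (nat_lit 4) (nat_lit 185) (nat_lit 186) = true := by decide +kernel
def p15_26_0_186 : pfC (piC [(nat_lit 37297016), (nat_lit 24651042), (nat_lit 18388512), (nat_lit 12378745)] (nat_lit 20955711)) p15_26_0 (nat_lit 4) (nat_lit 186) (nat_lit 187) = true := by decide +kernel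
def p15_26_0_187 : pfC (piC [(nat_lit 37297016), (nat_lit 24651042), (nat_lit 18388512), (nat_lit 12378745)] (nat_lit 20955711)) p15_26_0 (nat_lit 4) (nat_lit 187) (nat_lit 188) = true := by decide +kernel
def p15_26_0_188 : pfC (piC [(nat_lit 37297016), (nat_lit 24651042), (nat_lit 18388512), (nat_lit 12378745)] (nat_lit 20955711)) p15_26_0 (nat_lit 4) (nat_lit 188) (nat_lit 189) = true := by decide +kernel
def p15_26_0_189 : pfC (piC [(nat_lit 37297016), (nat_lit 24651042), (nat_lit 18388512), (nat_lit 12378745)] (nat_lit 20955711)) p15_26_0 (nat_lit 4) (nat_lit 189) (nat_lit 190) = true := by decide +kernel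
def p15_26_0_190 : pfC (piC [(nat_lit 37297016), (nat_lit 24651042), (nat_lit 18388512), (nat_lit 12378745)] (nat_lit 20955711)) p15_26_0 (nat_lit 4) (nat_lit 190) (nat_lit 191) = true := by decide +kernel
def p15_26_0_191 : pfC (piC [(nat_lit 37297016), (nat_lit 24651042), (nat_lit 18388512), (nat_lit 12378745)] (nat_lit 20955711)) p15_26_0 (nat_lit 4) (nat_lit 191) (nat_lit 192) = true := by decide +kernel
def p15_26_0_192 : pfC (piC [(nat_lit 37297016), (nat_lit 24651042), (nat_lit 18388512), (nat_lit 12378745)] (nat_lit 20955711)) p15_26_0 (nat_lit 4) (nat_lit 192) (nat_lit 193) = true := by decide +kernel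
def p15_26_0_193 : pfC (piC [(nat_lit 37297016), (nat_lit 24651042), (nat_lit 18388512), (nat_lit 12378745)] (nat_lit 20955711)) p15_26_0 (nat_lit 4) (nat_lit 193) (nat_lit 194) = true := by decide +kernel
def p15_26_0_194 : pfC (piC [(nat_lit 37297016), (nat_lit 24651042), (nat_lit 18388512), (nat_lit 12378745)] (nat_lit 20955711)) p15_26_0 (nat_lit 4) (nat_lit 194) (nat_lit 195) = true := by decide +kernel
def p15_26_0_195 : pfC (piC [(nat_lit 37297016), (nat_lit 24651042), (nat_lit 18388512), (nat_lit 12378745)] (nat_lit 20955711)) p15_26_0 (nat_lit 4) (nat_lit 195) (nat_lit 196) = true := by decide +kernel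
def p15_26_0_196 : pfC (piC [(nat_lit 37297016), (nat_lit 24651042), (nat_lit 18388512), (nat_lit 12378745)] (nat_lit 20955711)) p15_26_0 (nat_lit 4) (nat_lit 196) (nat_lit 197) = true := by decide +kernel
def p15_26_0_197 : pfC (piC [(nat_lit 37297016), (nat_lit 24651042), (nat_lit 18388512), (nat_lit 12378745)] (nat_lit 20955711)) p15_26_0 (nat_lit 4) (nat_lit 197) (nat_lit 198) = true := by decide +kernel
def p15_26_0_198 : pfC (piC [(nat_lit 37297016), (nat_lit 24651042), (nat_lit 18388512), (nat_lit 12378745)] (nat_lit 20955711)) p15_26_0 (nat_lit 4) (nat_lit 198) (nat_lit 199) = true := by decide +kernel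
def p15_26_0_199 : pfC (piC [(nat_lit 37297016), (nat_lit 24651042), (nat_lit 18388512), (nat_lit 12378745)] (nat_lit 20955711)) p15_26_0 (nat_lit 4) (nat_lit 199) (nat_lit 200) = true := by decide +kernel
def p15_26_0_200 : pfC (piC [(nat_lit 37297016), (nat_lit 24651042), (nat_lit 18388512), (nat_lit 12378745)] (nat_lit 20955711)) p15_26_0 (nat_lit 4) (nat_lit 200) (nat_lit 201) = true := by decide +kernel
def p15_26_0_201 : pfC (piC [(nat_lit 37297016), (nat_lit 24651042), (nat_lit 18388512), (nat_lit 12378745)] (nat_lit 20955711)) p15_26_0 (nat_lit 4) (nat_lit 201) (nat_lit 202) = true := by decide +kernel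
def p15_26_0_202 : pfC (piC [(nat_lit 37297016), (nat_lit 24651042), (nat_lit 18388512), (nat_lit 12378745)] (nat_lit 20955711)) p15_26_0 (nat_lit 4) (nat_lit 202) (nat_lit 203) = true := by decide +kernel
def p15_26_0_203 : pfC (piC [(nat_lit 37297016), (nat_lit 24651042), (nat_lit 18388512), (nat_lit 12378745)] (nat_lit 20955711)) p15_26_0 (nat_lit 4) (nat_lit 203) (nat_lit 204) = true := by decide +kernel
def p15_26_0_204 : pfC (piC [(nat_lit 37297016), (nat_lit 24651042), (nat_lit 18388512), (nat_lit 12378745)] (nat_lit 20955711)) p15_26_0 (nat_lit 4) (nat_lit 204) (nat_lit 205) = true := by decide +kernel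
def p15_26_0_205 : pfC (piC [(nat_lit 37297016), (nat_lit 24651042), (nat_lit 18388512), (nat_lit 12378745)] (nat_lit 20955711)) p15_26_0 (nat_lit 4) (nat_lit 205) (nat_lit 206) = true := by decide +kernel
def p15_26_0_206 : pfC (piC [(nat_lit 37297016), (nat_lit 24651042), (nat_lit 18388512), (nat_lit 12378745)] (nat_lit 20955711)) p15_26_0 (nat_lit 4) (nat_lit 206) (nat_lit 207) = true := by decide +kernel
def p15_26_0_207 : pfC (piC [(nat_lit 37297016), (nat_lit 24651042), (nat_lit 18388512), (nat_lit 12378745)] (nat_lit 20955711)) p15_26_0 (nat_lit 4) (nat_lit 207) (nat_lit 208) = true := by decide +kernel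
def p15_26_0_208 : pfC (piC [(nat_lit 37297016), (nat_lit 24651042), (nat_lit 18388512), (nat_lit 12378745)] (nat_lit 20955711)) p15_26_0 (nat_lit 4) (nat_lit 208) (nat_lit 209) = true := by decide +kernel
def p15_26_0_209 : pfC (piC [(nat_lit 37297016), (nat_lit 24651042), (nat_lit 18388512), (nat_lit 12378745)] (nat_lit 20955711)) p15_26_0 (nat_lit 4) (nat_lit 209) (nat_lit 210) = true := by decide +kernel
def p15_26_0_210 : pfC (piC [(nat_lit 37297016), (nat_lit 24651042), (nat_lit 18388512), (nat_lit 12378745)] (nat_lit 20955711)) p15_26_0 (nat_lit 4) (nat_lit 210) (nat_lit 211) = true := by decide +kernel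
def p15_26_0_211 : pfC (piC [(nat_lit 37297016), (nat_lit 24651042), (nat_lit 18388512), (nat_lit 12378745)] (nat_lit 20955711)) p15_26_0 (nat_lit 4) (nat_lit 211) (nat_lit 212) = true := by decide +kernel
def p15_26_0_212 : pfC (piC [(nat_lit 37297016), (nat_lit 24651042), (nat_lit 18388512), (nat_lit 12378745)] (nat_lit 20955711)) p15_26_0 (nat_lit 4) (nat_lit 212) (nat_lit 213) = true := by decide +kernel
def p15_26_0_213 : pfC (piC [(nat_lit 37297016), (nat_lit 24651042), (nat_lit 18388512), (nat_lit 12378745)] (nat_lit 20955711)) p15_26_0 (nat_lit 4) (nat_lit 213) (nat_lit 214) = true := by decide +kernel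
def p15_26_0_214 : pfC (piC [(nat_lit 37297016), (nat_lit 24651042), (nat_lit 18388512), (nat_lit 12378745)] (nat_lit 20955711)) p15_26_0 (nat_lit 4) (nat_lit 214) (nat_lit 215) = true := by decide +kernel
def p15_26_0_215 : pfC (piC [(nat_lit 37297016), (nat_lit 24651042), (nat_lit 18388512), (nat_lit 12378745)] (nat_lit 20955711)) p15_26_0 (nat_lit 4) (nat_lit 215) (nat_lit 216) = true := by decide +kernel
def p15_26_0_216 : pfC (piC [(nat_lit 37297016), (nat_lit 24651042), (nat_lit 18388512), (nat_lit 12378745)] (nat_lit 20955711)) p15_26_0 (nat_lit 4) (nat_lit 216) (nat_lit 217) = true := by decide +kernel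
def p15_26_0_217 : pfC (piC [(nat_lit 37297016), (nat_lit 24651042), (nat_lit 18388512), (nat_lit 12378745)] (nat_lit 20955711)) p15_26_0 (nat_lit 4) (nat_lit 217) (nat_lit 218) = true := by decide +kernel
def p15_26_0_218 : pfC (piC [(nat_lit 37297016), (nat_lit 24651042), (nat_lit 18388512), (nat_lit 12378745)] (nat_lit 20955711)) p15_26_0 (nat_lit 4) (nat_lit 218) (nat_lit 219) = true := by decide +kernel
def p15_26_0_219 : pfC (piC [(nat_lit 37297016), (nat_lit 24651042), (nat_lit 18388512), (nat_lit 12378745)] (nat_lit 20955711)) p15_26_0 (nat_lit 4) (nat_lit 219) (nat_lit 220) = true := by decide +kernel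
def p15_26_0_220 : pfC (piC [(nat_lit 37297016), (nat_lit 24651042), (nat_lit 18388512), (nat_lit 12378745)] (nat_lit 20955711)) p15_26_0 (nat_lit 4) (nat_lit 220) (nat_lit 221) = true := by decide +kernel
def p15_26_0_221 : pfC (piC [(nat_lit 37297016), (nat_lit 24651042), (nat_lit 18388512), (nat_lit 12378745)] (nat_lit 20955711)) p15_26_0 (nat_lit 4) (nat_lit 221) (nat_lit 222) = true := by decide +kernel
def p15_26_0_222 : pfC (piC [(nat_lit 37297016), (nat_lit 24651042), (nat_lit 18388512), (nat_lit 12378745)] (nat_lit 20955711)) p15_26_0 (nat_lit 4) (nat_lit 222) (nat_lit 223) = true := by decide +kernel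
def p15_26_0_223 : pfC (piC [(nat_lit 37297016), (nat_lit 24651042), (nat_lit 18388512), (nat_lit 12378745)] (nat_lit 20955711)) p15_26_0 (nat_lit 4) (nat_lit 223) (nat_lit 224) = true := by decide +kernel
def p15_26_0_224 : pfC (piC [(nat_lit 37297016), (nat_lit 24651042), (nat_lit 18388512), (nat_lit 12378745)] (nat_lit 20955711)) p15_26_0 (nat_lit 4) (nat_lit 224) (nat_lit 225) = true := by decide +kernel
def p15_26_0_225 : pfC (piC [(nat_lit 37297016), (nat_lit 24651042), (nat_lit 18388512), (nat_lit 12378745)] (nat_lit 20955711)) p15_26_0 (nat_lit 4) (nat_lit 225) (nat_lit 226) = true := by decide +kernel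
def p15_26_0_226 : pfC (piC [(nat_lit 37297016), (nat_lit 24651042), (nat_lit 18388512), (nat_lit 12378745)] (nat_lit 20955711)) p15_26_0 (nat_lit 4) (nat_lit 226) (nat_lit 227) = true := by decide +kernel
def p15_26_0_227 : pfC (piC [(nat_lit 37297016), (nat_lit 24651042), (nat_lit 18388512), (nat_lit 12378745)] (nat_lit 20955711)) p15_26_0 (nat_lit 4) (nat_lit 227) (nat_lit 228) = true := by decide +kernel
def p15_26_0_228 : pfC (piC [(nat_lit 37297016), (nat_lit 24651042), (nat_lit 18388512), (nat_lit 12378745)] (nat_lit 20955711)) p15_26_0 (nat_lit 4) (nat_lit 228) (nat_lit 229) = true := by decide +kernel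
def p15_26_0_229 : pfC (piC [(nat_lit 37297016), (nat_lit 24651042), (nat_lit 18388512), (nat_lit 12378745)] (nat_lit 20955711)) p15_26_0 (nat_lit 4) (nat_lit 229) (nat_lit 230) = true := by decide +kernel
def p15_26_0_230 : pfC (piC [(nat_lit 37297016), (nat_lit 24651042), (nat_lit 18388512), (nat_lit 12378745)] (nat_lit 20955711)) p15_26_0 (nat_lit 4) (nat_lit 230) (nat_lit 231) = true := by decide +kernel
def p15_26_0_231 : pfC (piC [(nat_lit 37297016), (nat_lit 24651042), (nat_lit 18388512), (nat_lit 12378745)] (nat_lit 20955711)) p15_26_0 (nat_lit 4) (nat_lit 231) (nat_lit 232) = true := by decide +kernel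
def p15_26_0_232 : pfC (piC [(nat_lit 37297016), (nat_lit 24651042), (nat_lit 18388512), (nat_lit 12378745)] (nat_lit 20955711)) p15_26_0 (nat_lit 4) (nat_lit 232) (nat_lit 233) = true := by decide +kernel
def p15_26_0_233 : pfC (piC [(nat_lit 37297016), (nat_lit 24651042), (nat_lit 18388512), (nat_lit 12378745)] (nat_lit 20955711)) p15_26_0 (nat_lit 4) (nat_lit 233) (nat_lit 234) = true := by decide +kernel
def p15_26_0_234 : pfC (piC [(nat_lit 37297016), (nat_lit 24651042), (nat_lit 18388512), (nat_lit 12378745)] (nat_lit 20955711)) p15_26_0 (nat_lit 4) (nat_lit 234) (nat_lit 235) = true := by decide +kernel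
def p15_26_0_235 : pfC (piC [(nat_lit 37297016), (nat_lit 24651042), (nat_lit 18388512), (nat_lit 12378745)] (nat_lit 20955711)) p15_26_0 (nat_lit 4) (nat_lit 235) (nat_lit 236) = true := by decide +kernel
def p15_26_0_236 : pfC (piC [(nat_lit 37297016), (nat_lit 24651042), (nat_lit 18388512), (nat_lit 12378745)] (nat_lit 20955711)) p15_26_0 (nat_lit 4) (nat_lit 236) (nat_lit 237) = true := by decide +kernel
def p15_26_0_237 : pfC (piC [(nat_lit 37297016), (nat_lit 24651042), (nat_lit 18388512), (nat_lit 12378745)] (nat_lit 20955711)) p15_26_0 (nat_lit 4) (nat_lit 237) (nat_lit 238) = true := by decide +kernel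
def p15_26_0_238 : pfC (piC [(nat_lit 37297016), (nat_lit 24651042), (nat_lit 18388512), (nat_lit 12378745)] (nat_lit 20955711)) p15_26_0 (nat_lit 4) (nat_lit 238) (nat_lit 239) = true := by decide +kernel
def p15_26_0_239 : pfC (piC [(nat_lit 37297016), (nat_lit 24651042), (nat_lit 18388512), (nat_lit 12378745)] (nat_lit 20955711)) p15_26_0 (nat_lit 4) (nat_lit 239) (nat_lit 240) = true := by decide +kernel
def p15_26_0_240 : pfC (piC [(nat_lit 37297016), (nat_lit 24651042), (nat_lit 18388512), (nat_lit 12378745)] (nat_lit 20955711)) p15_26_0 (nat_lit 4) (nat_lit 240) (nat_lit 241) = true := by decide +kernel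
def p15_26_0_241 : pfC (piC [(nat_lit 37297016), (nat_lit 24651042), (nat_lit 18388512), (nat_lit 12378745)] (nat_lit 20955711)) p15_26_0 (nat_lit 4) (nat_lit 241) (nat_lit 242) = true := by decide +kernel
def p15_26_0_242 : pfC (piC [(nat_lit 37297016), (nat_lit 24651042), (nat_lit 18388512), (nat_lit 12378745)] (nat_lit 20955711)) p15_26_0 (nat_lit 4) (nat_lit 242) (nat_lit 243) = true := by decide +kernel
def p15_26_0_243 : pfC (piC [(nat_lit 37297016), (nat_lit 24651042), (nat_lit 18388512), (nat_lit 12378745)] (nat_lit 20955711)) p15_26_0 (nat_lit 4) (nat_lit 243) (nat_lit 244) = true := by decide +kernel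
def p15_26_0_244 : pfC (piC [(nat_lit 37297016), (nat_lit 24651042), (nat_lit 18388512), (nat_lit 12378745)] (nat_lit 20955711)) p15_26_0 (nat_lit 4) (nat_lit 244) (nat_lit 245) = true := by decide +kernel
def p15_26_0_245 : pfC (piC [(nat_lit 37297016), (nat_lit 24651042), (nat_lit 18388512), (nat_lit 12378745)] (nat_lit 20955711)) p15_26_0 (nat_lit 4) (nat_lit 245) (nat_lit 246) = true := by decide +kernel
def p15_26_0_246 : pfC (piC [(nat_lit 37297016), (nat_lit 24651042), (nat_lit 18388512), (nat_lit 12378745)] (nat_lit 20955711)) p15_26_0 (nat_lit 4) (nat_lit 246) (nat_lit 247) = true := by decide +kernel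
def p15_26_0_247 : pfC (piC [(nat_lit 37297016), (nat_lit 24651042), (nat_lit 18388512), (nat_lit 12378745)] (nat_lit 20955711)) p15_26_0 (nat_lit 4) (nat_lit 247) (nat_lit 248) = true := by decide +kernel
def p15_26_0_248 : pfC (piC [(nat_lit 37297016), (nat_lit 24651042), (nat_lit 18388512), (nat_lit 12378745)] (nat_lit 20955711)) p15_26_0 (nat_lit 4) (nat_lit 248) (nat_lit 249) = true := by decide +kernel
def p15_26_0_249 : pfC (piC [(nat_lit 37297016), (nat_lit 24651042), (nat_lit 18388512), (nat_lit 12378745)] (nat_lit 20955711)) p15_26_0 (nat_lit 4) (nat_lit 249) (nat_lit 250) = true := by decide +kernel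
def p15_26_0_250 : pfC (piC [(nat_lit 37297016), (nat_lit 24651042), (nat_lit 18388512), (nat_lit 12378745)] (nat_lit 20955711)) p15_26_0 (nat_lit 4) (nat_lit 250) (nat_lit 251) = true := by decide +kernel
def p15_26_0_251 : pfC (piC [(nat_lit 37297016), (nat_lit 24651042), (nat_lit 18388512), (nat_lit 12378745)] (nat_lit 20955711)) p15_26_0 (nat_lit 4) (nat_lit 251) (nat_lit 252) = true := by decide +kernel
def p15_26_0_252 : pfC (piC [(nat_lit 37297016), (nat_lit 24651042), (nat_lit 18388512), (nat_lit 12378745)] (nat_lit 20955711)) p15_26_0 (nat_lit 4) (nat_lit 252) (nat_lit 253) = true := by decide +kernel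
def p15_26_0_253 : pfC (piC [(nat_lit 37297016), (nat_lit 24651042), (nat_lit 18388512), (nat_lit 12378745)] (nat_lit 20955711)) p15_26_0 (nat_lit 4) (nat_lit 253) (nat_lit 254) = true := by decide +kernel
def p15_26_0_254 : pfC (piC [(nat_lit 37297016), (nat_lit 24651042), (nat_lit 18388512), (nat_lit 12378745)] (nat_lit 20955711)) p15_26_0 (nat_lit 4) (nat_lit 254) (nat_lit 255) = true := by decide +kernel
def p15_26_0_255 : pfC (piC [(nat_lit 37297016), (nat_lit 24651042), (nat_lit 18388512), (nat_lit 12378745)] (nat_lit 20955711)) p15_26_0 (nat_lit 4) (nat_lit 255) (nat_lit 256) = true := by decide +kernel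
def p15_26_0_256 : pfC (piC [(nat_lit 37297016), (nat_lit 24651042), (nat_lit 18388512), (nat_lit 12378745)] (nat_lit 20955711)) p15_26_0 (nat_lit 4) (nat_lit 256) (nat_lit 257) = true := by decide +kernel
def p15_26_0_257 : pfC (piC [(nat_lit 37297016), (nat_lit 24651042), (nat_lit 18388512), (nat_lit 12378745)] (nat_lit 20955711)) p15_26_0 (nat_lit 4) (nat_lit 257) (nat_lit 258) = true := by decide +kernel
def p15_26_0_258 : pfC (piC [(nat_lit 37297016), (nat_lit 24651042), (nat_lit 18388512), (nat_lit 12378745)] (nat_lit 20955711)) p15_26_0 (nat_lit 4) (nat_lit 258) (nat_lit 259) = true := by decide +kernel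
def p15_26_0_259 : pfC (piC [(nat_lit 37297016), (nat_lit 24651042), (nat_lit 18388512), (nat_lit 12378745)] (nat_lit 20955711)) p15_26_0 (nat_lit 4) (nat_lit 259) (nat_lit 260) = true := by decide +kernel
def p15_26_0_260 : pfC (piC [(nat_lit 37297016), (nat_lit 24651042), (nat_lit 18388512), (nat_lit 12378745)] (nat_lit 20955711)) p15_26_0 (nat_lit 4) (nat_lit 260) (nat_lit 261) = true := by decide +kernel
def p15_26_0_261 : pfC (piC [(nat_lit 37297016), (nat_lit 24651042), (nat_lit 18388512), (nat_lit 12378745)] (nat_lit 20955711)) p15_26_0 (nat_lit 4) (nat_lit 261) (nat_lit 262) = true := by decide +kernel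
def p15_26_0_262 : pfC (piC [(nat_lit 37297016), (nat_lit 24651042), (nat_lit 18388512), (nat_lit 12378745)] (nat_lit 20955711)) p15_26_0 (nat_lit 4) (nat_lit 262) (nat_lit 263) = true := by decide +kernel
def p15_26_0_263 : pfC (piC [(nat_lit 37297016), (nat_lit 24651042), (nat_lit 18388512), (nat_lit 12378745)] (nat_lit 20955711)) p15_26_0 (nat_lit 4) (nat_lit 263) (nat_lit 264) = true := by decide +kernel
def p15_26_0_264 : pfC (piC [(nat_lit 37297016), (nat_lit 24651042), (nat_lit 18388512), (nat_lit 12378745)] (nat_lit 20955711)) p15_26_0 (nat_lit 4) (nat_lit 264) (nat_lit 265) = true := by decide +kernel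
def p15_26_0_265 : pfC (piC [(nat_lit 37297016), (nat_lit 24651042), (nat_lit 18388512), (nat_lit 12378745)] (nat_lit 20955711)) p15_26_0 (nat_lit 4) (nat_lit 265) (nat_lit 266) = true := by decide +kernel
def p15_26_0_266 : pfC (piC [(nat_lit 37297016), (nat_lit 24651042), (nat_lit 18388512), (nat_lit 12378745)] (nat_lit 20955711)) p15_26_0 (nat_lit 4) (nat_lit 266) (nat_lit 267) = true := by decide +kernel
def p15_26_0_267 : pfC (piC [(nat_lit 37297016), (nat_lit 24651042), (nat_lit 18388512), (nat_lit 12378745)] (nat_lit 20955711)) p15_26_0 (nat_lit 4) (nat_lit 267) (nat_lit 268) = true := by decide +kernel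
def p15_26_0_268 : pfC (piC [(nat_lit 37297016), (nat_lit 24651042), (nat_lit 18388512), (nat_lit 12378745)] (nat_lit 20955711)) p15_26_0 (nat_lit 4) (nat_lit 268) (nat_lit 269) = true := by decide +kernel
def p15_26_0_269 : pfC (piC [(nat_lit 37297016), (nat_lit 24651042), (nat_lit 18388512), (nat_lit 12378745)] (nat_lit 20955711)) p15_26_0 (nat_lit 4) (nat_lit 269) (nat_lit 270) = true := by decide +kernel
def p15_26_0_270 : pfC (piC [(nat_lit 37297016), (nat_lit 24651042), (nat_lit 18388512), (nat_lit 12378745)] (nat_lit 20955711)) p15_26_0 (nat_lit 4) (nat_lit 270) (nat_lit 271) = true := by decide +kernel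
def p15_26_0_271 : pfC (piC [(nat_lit 37297016), (nat_lit 24651042), (nat_lit 18388512), (nat_lit 12378745)] (nat_lit 20955711)) p15_26_0 (nat_lit 4) (nat_lit 271) (nat_lit 272) = true := by decide +kernel
def p15_26_0_272 : pfC (piC [(nat_lit 37297016), (nat_lit 24651042), (nat_lit 18388512), (nat_lit 12378745)] (nat_lit 20955711)) p15_26_0 (nat_lit 4) (nat_lit 272) (nat_lit 273) = true := by decide +kernel
def p15_26_0_273 : pfC (piC [(nat_lit 37297016), (nat_lit 24651042), (nat_lit 18388512), (nat_lit 12378745)] (nat_lit 20955711)) p15_26_0 (nat_lit 4) (nat_lit 273) (nat_lit 274) = true := by decide +kernel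
def p15_26_0_274 : pfC (piC [(nat_lit 37297016), (nat_lit 24651042), (nat_lit 18388512), (nat_lit 12378745)] (nat_lit 20955711)) p15_26_0 (nat_lit 4) (nat_lit 274) (nat_lit 275) = true := by decide +kernel
def p15_26_0_275 : pfC (piC [(nat_lit 37297016), (nat_lit 24651042), (nat_lit 18388512), (nat_lit 12378745)] (nat_lit 20955711)) p15_26_0 (nat_lit 4) (nat_lit 275) (nat_lit 276) = true := by decide +kernel
def p15_26_0_276 : pfC (piC [(nat_lit 37297016), (nat_lit 24651042), (nat_lit 18388512), (nat_lit 12378745)] (nat_lit 20955711)) p15_26_0 (nat_lit 4) (nat_lit 276) (nat_lit 277) = true := by decide +kernel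
def p15_26_0_277 : pfC (piC [(nat_lit 37297016), (nat_lit 24651042), (nat_lit 18388512), (nat_lit 12378745)] (nat_lit 20955711)) p15_26_0 (nat_lit 4) (nat_lit 277) (nat_lit 278) = true := by decide +kernel
def p15_26_0_278 : pfC (piC [(nat_lit 37297016), (nat_lit 24651042), (nat_lit 18388512), (nat_lit 12378745)] (nat_lit 20955711)) p15_26_0 (nat_lit 4) (nat_lit 278) (nat_lit 279) = true := by decide +kernel
def p15_26_0_279 : pfC (piC [(nat_lit 37297016), (nat_lit 24651042), (nat_lit 18388512), (nat_lit 12378745)] (nat_lit 20955711)) p15_26_0 (nat_lit 4) (nat_lit 279) (nat_lit 280) = true := by decide +kernel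
def p15_26_0_280 : pfC (piC [(nat_lit 37297016), (nat_lit 24651042), (nat_lit 18388512), (nat_lit 12378745)] (nat_lit 20955711)) p15_26_0 (nat_lit 4) (nat_lit 280) (nat_lit 281) = true := by decide +kernel
def p15_26_0_281 : pfC (piC [(nat_lit 37297016), (nat_lit 24651042), (nat_lit 18388512), (nat_lit 12378745)] (nat_lit 20955711)) p15_26_0 (nat_lit 4) (nat_lit 281) (nat_lit 282) = true := by decide +kernel
def p15_26_0_282 : pfC (piC [(nat_lit 37297016), (nat_lit 24651042), (nat_lit 18388512), (nat_lit 12378745)] (nat_lit 20955711)) p15_26_0 (nat_lit 4) (nat_lit 282) (nat_lit 283) = true := by decide +kernel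
def p15_26_0_283 : pfC (piC [(nat_lit 37297016), (nat_lit 24651042), (nat_lit 18388512), (nat_lit 12378745)] (nat_lit 20955711)) p15_26_0 (nat_lit 4) (nat_lit 283) (nat_lit 284) = true := by decide +kernel
def p15_26_0_284 : pfC (piC [(nat_lit 37297016), (nat_lit 24651042), (nat_lit 18388512), (nat_lit 12378745)] (nat_lit 20955711)) p15_26_0 (nat_lit 4) (nat_lit 284) (nat_lit 285) = true := by decide +kernel
def p15_26_0_285 : pfC (piC [(nat_lit 37297016), (nat_lit 24651042), (nat_lit 18388512), (nat_lit 12378745)] (nat_lit 20955711)) p15_26_0 (nat_lit 4) (nat_lit 285) (nat_lit 286) = true := by decide +kernel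
def p15_26_0_286 : pfC (piC [(nat_lit 37297016), (nat_lit 24651042), (nat_lit 18388512), (nat_lit 12378745)] (nat_lit 20955711)) p15_26_0 (nat_lit 4) (nat_lit 286) (nat_lit 287) = true := by decide +kernel
def p15_26_0_287 : pfC (piC [(nat_lit 37297016), (nat_lit 24651042), (nat_lit 18388512), (nat_lit 12378745)] (nat_lit 20955711)) p15_26_0 (nat_lit 4) (nat_lit 287) (nat_lit 288) = true := by decide +kernel
def p15_26_0_288 : pfC (piC [(nat_lit 37297016), (nat_lit 24651042), (nat_lit 18388512), (nat_lit 12378745)] (nat_lit 20955711)) p15_26_0 (nat_lit 4) (nat_lit 288) (nat_lit 289) = true := by decide +kernel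
def p15_26_0_289 : pfC (piC [(nat_lit 37297016), (nat_lit 24651042), (nat_lit 18388512), (nat_lit 12378745)] (nat_lit 20955711)) p15_26_0 (nat_lit 4) (nat_lit 289) (nat_lit 290) = true := by decide +kernel
def p15_26_0_290 : pfC (piC [(nat_lit 37297016), (nat_lit 24651042), (nat_lit 18388512), (nat_lit 12378745)] (nat_lit 20955711)) p15_26_0 (nat_lit 4) (nat_lit 290) (nat_lit 291) = true := by decide +kernel
def p15_26_0_291 : pfC (piC [(nat_lit 37297016), (nat_lit 24651042), (nat_lit 18388512), (nat_lit 12378745)] (nat_lit 20955711)) p15_26_0 (nat_lit 4) (nat_lit 291) (nat_lit 292) = true := by decide +kernel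
def p15_26_0_292 : pfC (piC [(nat_lit 37297016), (nat_lit 24651042), (nat_lit 18388512), (nat_lit 12378745)] (nat_lit 20955711)) p15_26_0 (nat_lit 4) (nat_lit 292) (nat_lit 293) = true := by decide +kernel
def p15_26_0_293 : pfC (piC [(nat_lit 37297016), (nat_lit 24651042), (nat_lit 18388512), (nat_lit 12378745)] (nat_lit 20955711)) p15_26_0 (nat_lit 4) (nat_lit 293) (nat_lit 294) = true := by decide +kernel
def p15_26_0_294 : pfC (piC [(nat_lit 37297016), (nat_lit 24651042), (nat_lit 18388512), (nat_lit 12378745)] (nat_lit 20955711)) p15_26_0 (nat_lit 4) (nat_lit 294) (nat_lit 295) = true := by decide +kernel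
def p15_26_0_295 : pfC (piC [(nat_lit 37297016), (nat_lit 24651042), (nat_lit 18388512), (nat_lit 12378745)] (nat_lit 20955711)) p15_26_0 (nat_lit 4) (nat_lit 295) (nat_lit 296) = true := by decide +kernel
def p15_26_0_296 : pfC (piC [(nat_lit 37297016), (nat_lit 24651042), (nat_lit 18388512), (nat_lit 12378745)] (nat_lit 20955711)) p15_26_0 (nat_lit 4) (nat_lit 296) (nat_lit 297) = true := by decide +kernel
def p15_26_0_297 : pfC (piC [(nat_lit 37297016), (nat_lit 24651042), (nat_lit 18388512), (nat_lit 12378745)] (nat_lit 20955711)) p15_26_0 (nat_lit 4) (nat_lit 297) (nat_lit 298) = true := by decide +kernel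
def p15_26_0_298 : pfC (piC [(nat_lit 37297016), (nat_lit 24651042), (nat_lit 18388512), (nat_lit 12378745)] (nat_lit 20955711)) p15_26_0 (nat_lit 4) (nat_lit 298) (nat_lit 299) = true := by decide +kernel
def p15_26_0_299 : pfC (piC [(nat_lit 37297016), (nat_lit 24651042), (nat_lit 18388512), (nat_lit 12378745)] (nat_lit 20955711)) p15_26_0 (nat_lit 4) (nat_lit 299) (nat_lit 300) = true := by decide +kernel
def p15_26_0_300 : pfC (piC [(nat_lit 37297016), (nat_lit 24651042), (nat_lit 18388512), (nat_lit 12378745)] (nat_lit 20955711)) p15_26_0 (nat_lit 4) (nat_lit 300) (nat_lit 301) = true := by decide +kernel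
def p15_26_0_301 : pfC (piC [(nat_lit 37297016), (nat_lit 24651042), (nat_lit 18388512), (nat_lit 12378745)] (nat_lit 20955711)) p15_26_0 (nat_lit 4) (nat_lit 301) (nat_lit 302) = true := by decide +kernel
def p15_26_0_302 : pfC (piC [(nat_lit 37297016), (nat_lit 24651042), (nat_lit 18388512), (nat_lit 12378745)] (nat_lit 20955711)) p15_26_0 (nat_lit 4) (nat_lit 302) (nat_lit 303) = true := by decide +kernel
def p15_26_0_303 : pfC (piC [(nat_lit 37297016), (nat_lit 24651042), (nat_lit 18388512), (nat_lit 12378745)] (nat_lit 20955711)) p15_26_0 (nat_lit 4) (nat_lit 303) (nat_lit 304) = true := by decide +kernel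
def p15_26_0_304 : pfC (piC [(nat_lit 37297016), (nat_lit 24651042), (nat_lit 18388512), (nat_lit 12378745)] (nat_lit 20955711)) p15_26_0 (nat_lit 4) (nat_lit 304) (nat_lit 305) = true := by decide +kernel
def p15_26_0_305 : pfC (piC [(nat_lit 37297016), (nat_lit 24651042), (nat_lit 18388512), (nat_lit 12378745)] (nat_lit 20955711)) p15_26_0 (nat_lit 4) (nat_lit 305) (nat_lit 306) = true := by decide +kernel
def p15_26_0_306 : pfC (piC [(nat_lit 37297016), (nat_lit 24651042), (nat_lit 18388512), (nat_lit 12378745)] (nat_lit 20955711)) p15_26_0 (nat_lit 4) (nat_lit 306) (nat_lit 307) = true := by decide +kernel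
def p15_26_0_307 : pfC (piC [(nat_lit 37297016), (nat_lit 24651042), (nat_lit 18388512), (nat_lit 12378745)] (nat_lit 20955711)) p15_26_0 (nat_lit 4) (nat_lit 307) (nat_lit 308) = true := by decide +kernel
def p15_26_0_308 : pfC (piC [(nat_lit 37297016), (nat_lit 24651042), (nat_lit 18388512), (nat_lit 12378745)] (nat_lit 20955711)) p15_26_0 (nat_lit 4) (nat_lit 308) (nat_lit 309) = true := by decide +kernel
def p15_26_0_309 : pfC (piC [(nat_lit 37297016), (nat_lit 24651042), (nat_lit 18388512), (nat_lit 12378745)] (nat_lit 20955711)) p15_26_0 (nat_lit 4) (nat_lit 309) (nat_lit 310) = true := by decide +kernel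
def p15_26_0_310 : pfC (piC [(nat_lit 37297016), (nat_lit 24651042), (nat_lit 18388512), (nat_lit 12378745)] (nat_lit 20955711)) p15_26_0 (nat_lit 4) (nat_lit 310) (nat_lit 311) = true := by decide +kernel
def p15_26_0_311 : pfC (piC [(nat_lit 37297016), (nat_lit 24651042), (nat_lit 18388512), (nat_lit 12378745)] (nat_lit 20955711)) p15_26_0 (nat_lit 4) (nat_lit 311) (nat_lit 312) = true := by decide +kernel
def p15_26_0_312 : pfC (piC [(nat_lit 37297016), (nat_lit 24651042), (nat_lit 18388512), (nat_lit 12378745)] (nat_lit 20955711)) p15_26_0 (nat_lit 4) (nat_lit 312) (nat_lit 313) = true := by decide +kernel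
def p15_26_0_313 : pfC (piC [(nat_lit 37297016), (nat_lit 24651042), (nat_lit 18388512), (nat_lit 12378745)] (nat_lit 20955711)) p15_26_0 (nat_lit 4) (nat_lit 313) (nat_lit 314) = true := by decide +kernel
def p15_26_0_314 : pfC (piC [(nat_lit 37297016), (nat_lit 24651042), (nat_lit 18388512), (nat_lit 12378745)] (nat_lit 20955711)) p15_26_0 (nat_lit 4) (nat_lit 314) (nat_lit 315) = true := by decide +kernel
def p15_26_0_315 : pfC (piC [(nat_lit 37297016), (nat_lit 24651042), (nat_lit 18388512), (nat_lit 12378745)] (nat_lit 20955711)) p15_26_0 (nat_lit 4) (nat_lit 315) (nat_lit 316) = true := by decide +kernel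
def p15_26_0_316 : pfC (piC [(nat_lit 37297016), (nat_lit 24651042), (nat_lit 18388512), (nat_lit 12378745)] (nat_lit 20955711)) p15_26_0 (nat_lit 4) (nat_lit 316) (nat_lit 317) = true := by decide +kernel
def p15_26_0_317 : pfC (piC [(nat_lit 37297016), (nat_lit 24651042), (nat_lit 18388512), (nat_lit 12378745)] (nat_lit 20955711)) p15_26_0 (nat_lit 4) (nat_lit 317) (nat_lit 318) = true := by decide +kernel
def p15_26_0_318 : pfC (piC [(nat_lit 37297016), (nat_lit 24651042), (nat_lit 18388512), (nat_lit 12378745)] (nat_lit 20955711)) p15_26_0 (nat_lit 4) (nat_lit 318) (nat_lit 319) = true := by decide +kernel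
def p15_26_0_319 : pfC (piC [(nat_lit 37297016), (nat_lit 24651042), (nat_lit 18388512), (nat_lit 12378745)] (nat_lit 20955711)) p15_26_0 (nat_lit 4) (nat_lit 319) (nat_lit 320) = true := by decide +kernel
def p15_26_0_320 : pfC (piC [(nat_lit 37297016), (nat_lit 24651042), (nat_lit 18388512), (nat_lit 12378745)] (nat_lit 20955711)) p15_26_0 (nat_lit 4) (nat_lit 320) (nat_lit 321) = true := by decide +kernel
def p15_26_0_321 : pfC (piC [(nat_lit 37297016), (nat_lit 24651042), (nat_lit 18388512), (nat_lit 12378745)] (nat_lit 20955711)) p15_26_0 (nat_lit 4) (nat_lit 321) (nat_lit 322) = true := by decide +kernel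
def p15_26_0_322 : pfC (piC [(nat_lit 37297016), (nat_lit 24651042), (nat_lit 18388512), (nat_lit 12378745)] (nat_lit 20955711)) p15_26_0 (nat_lit 4) (nat_lit 322) (nat_lit 323) = true := by decide +kernel
def p15_26_0_323 : pfC (piC [(nat_lit 37297016), (nat_lit 24651042), (nat_lit 18388512), (nat_lit 12378745)] (nat_lit 20955711)) p15_26_0 (nat_lit 4) (nat_lit 323) (nat_lit 324) = true := by decide +kernel
def p15_26_0_324 : pfC (piC [(nat_lit 37297016), (nat_lit 24651042), (nat_lit 18388512), (nat_lit 12378745)] (nat_lit 20955711)) p15_26_0 (nat_lit 4) (nat_lit 324) (nat_lit 325) = true := by decide +kernel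
def p15_26_0_325 : pfC (piC [(nat_lit 37297016), (nat_lit 24651042), (nat_lit 18388512), (nat_lit 12378745)] (nat_lit 20955711)) p15_26_0 (nat_lit 4) (nat_lit 325) (nat_lit 326) = true := by decide +kernel
def p15_26_0_326 : pfC (piC [(nat_lit 37297016), (nat_lit 24651042), (nat_lit 18388512), (nat_lit 12378745)] (nat_lit 20955711)) p15_26_0 (nat_lit 4) (nat_lit 326) (nat_lit 327) = true := by decide +kernel
def p15_26_0_327 : pfC (piC [(nat_lit 37297016), (nat_lit 24651042), (nat_lit 18388512), (nat_lit 12378745)] (nat_lit 20955711)) p15_26_0 (nat_lit 4) (nat_lit 327) (nat_lit 328) = true := by decide +kernel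
def p15_26_0_328 : pfC (piC [(nat_lit 37297016), (nat_lit 24651042), (nat_lit 18388512), (nat_lit 12378745)] (nat_lit 20955711)) p15_26_0 (nat_lit 4) (nat_lit 328) (nat_lit 329) = true := by decide +kernel
def p15_26_0_329 : pfC (piC [(nat_lit 37297016), (nat_lit 24651042), (nat_lit 18388512), (nat_lit 12378745)] (nat_lit 20955711)) p15_26_0 (nat_lit 4) (nat_lit 329) (nat_lit 330) = true := by decide +kernel
def p15_26_0_330 : pfC (piC [(nat_lit 37297016), (nat_lit 24651042), (nat_lit 18388512), (nat_lit 12378745)] (nat_lit 20955711)) p15_26_0 (nat_lit 4) (nat_lit 330) (nat_lit 331) = true := by decide +kernel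
def p15_26_0_331 : pfC (piC [(nat_lit 37297016), (nat_lit 24651042), (nat_lit 18388512), (nat_lit 12378745)] (nat_lit 20955711)) p15_26_0 (nat_lit 4) (nat_lit 331) (nat_lit 332) = true := by decide +kernel
def p15_26_0_332 : pfC (piC [(nat_lit 37297016), (nat_lit 24651042), (nat_lit 18388512), (nat_lit 12378745)] (nat_lit 20955711)) p15_26_0 (nat_lit 4) (nat_lit 332) (nat_lit 333) = true := by decide +kernel
def p15_26_0_333 : pfC (piC [(nat_lit 37297016), (nat_lit 24651042), (nat_lit 18388512), (nat_lit 12378745)] (nat_lit 20955711)) p15_26_0 (nat_lit 4) (nat_lit 333) (nat_lit 334) = true := by decide +kernel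
def p15_26_0_334 : pfC (piC [(nat_lit 37297016), (nat_lit 24651042), (nat_lit 18388512), (nat_lit 12378745)] (nat_lit 20955711)) p15_26_0 (nat_lit 4) (nat_lit 334) (nat_lit 335) = true := by decide +kernel
def p15_26_0_335 : pfC (piC [(nat_lit 37297016), (nat_lit 24651042), (nat_lit 18388512), (nat_lit 12378745)] (nat_lit 20955711)) p15_26_0 (nat_lit 4) (nat_lit 335) (nat_lit 336) = true := by decide +kernel
theorem p15_26_0_T : PfS (PiF n15_26.reverse (nat_lit 20955711)) p15_26_0 (nat_lit 4) [] 0 :=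
  pftab_of (los := [(nat_lit 37297016), (nat_lit 24651042), (nat_lit 18388512), (nat_lit 12378745)]) (by decide +kernel) (hi := (nat_lit 336)) (PfP.trans (PfP.trans (PfP.trans (PfP.trans (PfP.trans (PfP.trans (PfP.trans (PfP.trans (PfP.trans (PfP.trans (PfP.trans (PfP.trans (PfP.trans (PfP.trans (PfP.trans (PfP.trans (PfP.trans (PfP.trans (PfP.trans (PfP.trans (PfP.trans (PfP.trans (PfP.trans (PfP.trans (PfP.trans (PfP.trans (PfP.trans (PfP.trans (PfP.trans (PfP.trans (PfP.trans (PfP.trans (PfP.trans (PfP.trans (PfP.trans (PfP.trans (PfP.trans (PfP.trans (PfP.trans (PfP.trans (PfP.trans (PfP.trans (PfP.trans (PfP.trans (PfP.trans (PfP.trans (PfP.trans (PfP.trans (PfP.trans (PfP.trans (PfP.trans (PfP.trans (PfP.trans (PfP.trans (PfP.trans (PfP.trans (PfP.trans (PfP.trans (PfP.trans (PfP.trans (PfP.trans (PfP.trans (PfP.trans (PfP.trans (PfP.trans (PfP.trans (PfP.trans (PfP.trans (PfP.trans (PfP.trans (PfP.trans (PfP.trans (PfP.trans (PfP.trans (PfP.trans (PfP.trans (PfP.trans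 (PfP.trans (PfP.trans (PfP.trans (PfP.trans (PfP.trans (PfP.trans (PfP.trans (PfP.trans (PfP.trans (PfP.trans (PfP.trans (PfP.trans (PfP.trans (PfP.trans (PfP.trans (PfP.trans (PfP.trans (PfP.trans (PfP.trans (PfP.trans (PfP.trans (PfP.trans (PfP.trans (PfP.trans (PfP.trans (PfP.trans (PfP.trans (PfP.trans (PfP.trans (PfP.trans (PfP.trans (PfP.trans
 (PfP.trans (PfP.trans (PfP.trans (PfP.trans (PfP.trans (PfP.trans (PfP.trans (PfP.trans (PfP.trans (PfP.trans (PfP.trans (PfP.trans (PfP.trans (PfP.trans (PfP.trans (PfP.trans (PfP.trans (PfP.trans (PfP.trans (PfP.trans (PfP.trans (PfP.trans (PfP.trans (PfP.trans (PfP.trans (PfP.trans (PfP.trans (PfP.trans (PfP.trans (PfP.trans (PfP.trans (PfP.trans (PfP.trans (PfP.trans (PfP.trans (PfP.trans (PfP.trans (PfP.trans (PfP.trans (PfP.trans (PfP.trans (PfP.trans (PfP.trans (PfP.trans (PfP.trans (PfP.trans (PfP.trans (PfP.trans (PfP.trans (PfP.trans (PfP.trans (PfP.trans (PfP.trans (PfP.trans (PfP.trans (PfP.trans (PfP.trans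 (PfP.trans (PfP.trans (PfP.trans (PfP.trans (PfP.trans (PfP.trans (PfP.trans (PfP.trans (PfP.trans (PfP.trans (PfP.trans (PfP.trans (PfP.trans (PfP.trans (PfP.trans (PfP.trans (PfP.trans (PfP.trans (PfP.trans (PfP.trans (PfP.trans (PfP.trans (PfP.trans (PfP.trans (PfP.trans (PfP.trans (PfP.trans (PfP.trans (PfP.trans (PfP.trans (PfP.trans (PfP.trans (PfP.trans (PfP.trans (PfP.trans (PfP.trans (PfP.trans (PfP.trans (PfP.trans (PfP.trans (PfP.trans (PfP.trans (PfP.trans (PfP.trans (PfP.trans (PfP.trans (PfP.trans (PfP.trans (PfP.trans (PfP.trans (PfP.trans (PfP.trans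
 (PfP.trans (PfP.trans (PfP.trans (PfP.trans (PfP.trans (PfP.trans (PfP.trans (PfP.trans (PfP.trans (PfP.trans (PfP.trans (PfP.trans (PfP.trans (PfP.trans (PfP.trans (PfP.trans (PfP.trans (PfP.trans (PfP.trans (PfP.trans (PfP.trans (PfP.trans (PfP.trans (PfP.trans (PfP.trans (PfP.trans (PfP.trans (PfP.trans (PfP.trans (PfP.trans (PfP.trans (PfP.trans (PfP.trans (PfP.trans (PfP.trans (PfP.trans (PfP.trans (PfP.trans (PfP.trans (PfP.trans (PfP.trans (PfP.trans (PfP.trans (PfP.trans (PfP.trans (PfP.trans (PfP.trans (PfP.trans (PfP.trans (PfP.trans (PfP.trans (PfP.trans (PfP.trans (PfP.trans (PfP.trans (PfP.trans (PfP.trans (PfP.trans (PfP.trans (PfP.trans (PfP.trans (PfP.trans (PfP.trans (PfP.trans (PfP.trans (PfP.trans (PfP.trans (PfP.trans (PfP.trans (PfP.trans (PfP.trans (PfP.trans (PfP.trans (PfP.trans (PfP.trans (PfP.trans (PfP.trans (PfP.trans (PfP.trans (PfP.trans (PfP.trans (PfP.trans (PfP.trans (PfP.trans (PfP.trans (PfP.trans (PfP.trans (PfP.trans (PfP.trans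 (PfP.trans (PfP.trans (PfP.trans (PfP.trans (PfP.trans (PfP.trans (PfP.trans (PfP.trans (PfP.trans (PfP.trans (PfP.trans (PfP.trans (PfP.trans (PfP.trans (PfP.trans (PfP.trans (PfP.trans (PfP.trans (PfP.trans (PfP.trans
 (PfP.trans (PfP.trans (PfP.trans (PfP.trans (PfP.trans (PfP.trans (PfP.trans (PfP.trans (pfC_sound p15_26_0_0) (pfC_sound p15_26_0_1)) (pfC_sound p15_26_0_2)) (pfC_sound p15_26_0_3)) (pfC_sound p15_26_0_4)) (pfC_sound p15_26_0_5)) (pfC_sound p15_26_0_6)) (pfC_sound p15_26_0_7)) (pfC_sound p15_26_0_8)) (pfC_sound p15_26_0_9)) (pfC_sound p15_26_0_10)) (pfC_sound p15_26_0_11)) (pfC_sound p15_26_0_12)) (pfC_sound p15_26_0_13)) (pfC_sound p15_26_0_14)) (pfC_sound p15_26_0_15)) (pfC_sound p15_26_0_16)) (pfC_sound p15_26_0_17)) (pfC_sound p15_26_0_18)) (pfC_sound p15_26_0_19)) (pfC_sound p15_26_0_20)) (pfC_sound p15_26_0_21)) (pfC_sound p15_26_0_22)) (pfC_sound p15_26_0_23)) (pfC_sound p15_26_0_24)) (pfC_sound p15_26_0_25)) (pfC_sound p15_26_0_26)) (pfC_sound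 p15_26_0_27)) (pfC_sound p15_26_0_28)) (pfC_sound p15_26_0_29)) (pfC_sound p15_26_0_30)) (pfC_sound p15_26_0_31)) (pfC_sound p15_26_0_32)) (pfC_sound p15_26_0_33)) (pfC_sound p15_26_0_34)) (pfC_sound p15_26_0_35)) (pfC_sound p15_26_0_36)) (pfC_sound p15_26_0_37)) (pfC_sound p15_26_0_38)) (pfC_sound p15_26_0_39)) (pfC_sound p15_26_0_40)) (pfC_sound p15_26_0_41)) (pfC_sound p15_26_0_42)) (pfC_sound p15_26_0_43)) (pfC_sound
 p15_26_0_44)) (pfC_sound p15_26_0_45)) (pfC_sound p15_26_0_46)) (pfC_sound p15_26_0_47)) (pfC_sound p15_26_0_48)) (pfC_sound p15_26_0_49)) (pfC_sound p15_26_0_50)) (pfC_sound p15_26_0_51)) (pfC_sound p15_26_0_52)) (pfC_sound p15_26_0_53)) (pfC_sound p15_26_0_54)) (pfC_sound p15_26_0_55)) (pfC_sound p15_26_0_56)) (pfC_sound p15_26_0_57)) (pfC_sound p15_26_0_58)) (pfC_sound p15_26_0_59)) (pfC_sound p15_26_0_60)) (pfC_sound p15_26_0_61)) (pfC_sound p15_26_0_62)) (pfC_sound p15_26_0_63)) (pfC_sound p15_26_0_64)) (pfC_sound p15_26_0_65)) (pfC_sound p15_26_0_66))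 (pfC_sound p15_26_0_67)) (pfC_sound p15_26_0_68)) (pfC_sound p15_26_0_69)) (pfC_sound p15_26_0_70)) (pfC_sound p15_26_0_71)) (pfC_sound p15_26_0_72)) (pfC_sound p15_26_0_73)) (pfC_sound p15_26_0_74)) (pfC_sound p15_26_0_75)) (pfC_sound p15_26_0_76)) (pfC_sound p15_26_0_77)) (pfC_sound p15_26_0_78)) (pfC_sound p15_26_0_79)) (pfC_sound p15_26_0_80)) (pfC_sound p15_26_0_81)) (pfC_sound p15_26_0_82)) (pfC_sound p15_26_0_83)) (pfC_sound p15_26_0_84)) (pfC_sound p15_26_0_85)) (pfC_sound p15_26_0_86)) (pfC_sound p15_26_0_87)) (pfC_sound p15_26_0_88)) (pfC_sound p15_26_0_89)) (pfC_sound p15_26_0_90)) (pfC_sound p15_26_0_91)) (pfC_sound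
 p15_26_0_92)) (pfC_sound p15_26_0_93)) (pfC_sound p15_26_0_94)) (pfC_sound p15_26_0_95)) (pfC_sound p15_26_0_96)) (pfC_sound p15_26_0_97)) (pfC_sound p15_26_0_98)) (pfC_sound p15_26_0_99)) (pfC_sound p15_26_0_100)) (pfC_sound p15_26_0_101)) (pfC_sound p15_26_0_102)) (pfC_sound p15_26_0_103)) (pfC_sound p15_26_0_104)) (pfC_sound p15_26_0_105)) (pfC_sound p15_26_0_106)) (pfC_sound p15_26_0_107)) (pfC_sound p15_26_0_108)) (pfC_sound p15_26_0_109)) (pfC_sound p15_26_0_110)) (pfC_sound p15_26_0_111)) (pfC_sound p15_26_0_112)) (pfC_sound p15_26_0_113)) (pfC_sound p15_26_0_114)) (pfC_sound p15_26_0_115)) (pfC_sound p15_26_0_116)) (pfC_sound p15_26_0_117)) (pfC_sound p15_26_0_118)) (pfC_sound p15_26_0_119)) (pfC_sound p15_26_0_120)) (pfC_sound p15_26_0_121)) (pfC_sound p15_26_0_122)) (pfC_sound p15_26_0_123)) (pfC_sound p15_26_0_124)) (pfC_sound p15_26_0_125)) (pfC_sound p15_26_0_126)) (pfC_sound p15_26_0_127)) (pfC_sound p15_26_0_128)) (pfC_sound p15_26_0_129)) (pfC_sound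 p15_26_0_130)) (pfC_sound p15_26_0_131)) (pfC_sound p15_26_0_132)) (pfC_sound p15_26_0_133)) (pfC_sound p15_26_0_134)) (pfC_sound p15_26_0_135)) (pfC_sound p15_26_0_136)) (pfC_sound p15_26_0_137)) (pfC_sound
 p15_26_0_138)) (pfC_sound p15_26_0_139)) (pfC_sound p15_26_0_140)) (pfC_sound p15_26_0_141)) (pfC_sound p15_26_0_142)) (pfC_sound p15_26_0_143)) (pfC_sound p15_26_0_144)) (pfC_sound p15_26_0_145)) (pfC_sound p15_26_0_146)) (pfC_sound p15_26_0_147)) (pfC_sound p15_26_0_148)) (pfC_sound p15_26_0_149)) (pfC_sound p15_26_0_150)) (pfC_sound p15_26_0_151)) (pfC_sound p15_26_0_152)) (pfC_sound p15_26_0_153)) (pfC_sound p15_26_0_154)) (pfC_sound p15_26_0_155)) (pfC_sound p15_26_0_156)) (pfC_sound p15_26_0_157)) (pfC_sound p15_26_0_158)) (pfC_sound p15_26_0_159)) (pfC_sound p15_26_0_160)) (pfC_sound p15_26_0_161)) (pfC_sound p15_26_0_162)) (pfC_sound p15_26_0_163)) (pfC_sound p15_26_0_164)) (pfC_sound p15_26_0_165)) (pfC_sound p15_26_0_166)) (pfC_sound p15_26_0_167)) (pfC_sound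 p15_26_0_168)) (pfC_sound p15_26_0_169)) (pfC_sound p15_26_0_170)) (pfC_sound p15_26_0_171)) (pfC_sound p15_26_0_172)) (pfC_sound p15_26_0_173)) (pfC_sound p15_26_0_174)) (pfC_sound p15_26_0_175)) (pfC_sound p15_26_0_176)) (pfC_sound p15_26_0_177)) (pfC_sound p15_26_0_178)) (pfC_sound p15_26_0_179)) (pfC_sound p15_26_0_180)) (pfC_sound p15_26_0_181)) (pfC_sound p15_26_0_182)) (pfC_sound p15_26_0_183)) (pfC_sound
 p15_26_0_184)) (pfC_sound p15_26_0_185)) (pfC_sound p15_26_0_186)) (pfC_sound p15_26_0_187)) (pfC_sound p15_26_0_188)) (pfC_sound p15_26_0_189)) (pfC_sound p15_26_0_190)) (pfC_sound p15_26_0_191)) (pfC_sound p15_26_0_192)) (pfC_sound p15_26_0_193)) (pfC_sound p15_26_0_194)) (pfC_sound p15_26_0_195)) (pfC_sound p15_26_0_196)) (pfC_sound p15_26_0_197)) (pfC_sound p15_26_0_198)) (pfC_sound p15_26_0_199)) (pfC_sound p15_26_0_200)) (pfC_sound p15_26_0_201)) (pfC_sound p15_26_0_202)) (pfC_sound p15_26_0_203)) (pfC_sound p15_26_0_204)) (pfC_sound p15_26_0_205)) (pfC_sound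 p15_26_0_206)) (pfC_sound p15_26_0_207)) (pfC_sound p15_26_0_208)) (pfC_sound p15_26_0_209)) (pfC_sound p15_26_0_210)) (pfC_sound p15_26_0_211)) (pfC_sound p15_26_0_212)) (pfC_sound p15_26_0_213)) (pfC_sound p15_26_0_214)) (pfC_sound p15_26_0_215)) (pfC_sound p15_26_0_216)) (pfC_sound p15_26_0_217)) (pfC_sound p15_26_0_218)) (pfC_sound p15_26_0_219)) (pfC_sound p15_26_0_220)) (pfC_sound p15_26_0_221)) (pfC_sound p15_26_0_222)) (pfC_sound p15_26_0_223)) (pfC_sound p15_26_0_224)) (pfC_sound p15_26_0_225)) (pfC_sound p15_26_0_226)) (pfC_sound p15_26_0_227)) (pfC_sound p15_26_0_228)) (pfC_sound p15_26_0_229)) (pfC_sound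
 p15_26_0_230)) (pfC_sound p15_26_0_231)) (pfC_sound p15_26_0_232)) (pfC_sound p15_26_0_233)) (pfC_sound p15_26_0_234)) (pfC_sound p15_26_0_235)) (pfC_sound p15_26_0_236)) (pfC_sound p15_26_0_237)) (pfC_sound p15_26_0_238)) (pfC_sound p15_26_0_239)) (pfC_sound p15_26_0_240)) (pfC_sound p15_26_0_241)) (pfC_sound p15_26_0_242)) (pfC_sound p15_26_0_243)) (pfC_sound p15_26_0_244)) (pfC_sound p15_26_0_245)) (pfC_sound p15_26_0_246)) (pfC_sound p15_26_0_247)) (pfC_sound p15_26_0_248)) (pfC_sound p15_26_0_249)) (pfC_sound p15_26_0_250)) (pfC_sound p15_26_0_251)) (pfC_sound p15_26_0_252)) (pfC_sound p15_26_0_253)) (pfC_sound p15_26_0_254)) (pfC_sound p15_26_0_255)) (pfC_sound p15_26_0_256)) (pfC_sound p15_26_0_257)) (pfC_sound p15_26_0_258)) (pfC_sound p15_26_0_259)) (pfC_sound p15_26_0_260)) (pfC_sound p15_26_0_261)) (pfC_sound p15_26_0_262)) (pfC_sound p15_26_0_263)) (pfC_sound p15_26_0_264)) (pfC_sound p15_26_0_265)) (pfC_sound p15_26_0_266)) (pfC_sound p15_26_0_267)) (pfC_sound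 p15_26_0_268)) (pfC_sound p15_26_0_269)) (pfC_sound p15_26_0_270)) (pfC_sound p15_26_0_271)) (pfC_sound p15_26_0_272)) (pfC_sound p15_26_0_273)) (pfC_sound p15_26_0_274)) (pfC_sound p15_26_0_275)) (pfC_sound
 p15_26_0_276)) (pfC_sound p15_26_0_277)) (pfC_sound p15_26_0_278)) (pfC_sound p15_26_0_279)) (pfC_sound p15_26_0_280)) (pfC_sound p15_26_0_281)) (pfC_sound p15_26_0_282)) (pfC_sound p15_26_0_283)) (pfC_sound p15_26_0_284)) (pfC_sound p15_26_0_285)) (pfC_sound p15_26_0_286)) (pfC_sound p15_26_0_287)) (pfC_sound p15_26_0_288)) (pfC_sound p15_26_0_289)) (pfC_sound p15_26_0_290)) (pfC_sound p15_26_0_291)) (pfC_sound p15_26_0_292)) (pfC_sound p15_26_0_293)) (pfC_sound p15_26_0_294)) (pfC_sound p15_26_0_295)) (pfC_sound p15_26_0_296)) (pfC_sound p15_26_0_297)) (pfC_sound p15_26_0_298)) (pfC_sound p15_26_0_299)) (pfC_sound p15_26_0_300)) (pfC_sound p15_26_0_301)) (pfC_sound p15_26_0_302)) (pfC_sound p15_26_0_303)) (pfC_sound p15_26_0_304)) (pfC_sound p15_26_0_305)) (pfC_sound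 p15_26_0_306)) (pfC_sound p15_26_0_307)) (pfC_sound p15_26_0_308)) (pfC_sound p15_26_0_309)) (pfC_sound p15_26_0_310)) (pfC_sound p15_26_0_311)) (pfC_sound p15_26_0_312)) (pfC_sound p15_26_0_313)) (pfC_sound p15_26_0_314)) (pfC_sound p15_26_0_315)) (pfC_sound p15_26_0_316)) (pfC_sound p15_26_0_317)) (pfC_sound p15_26_0_318)) (pfC_sound p15_26_0_319)) (pfC_sound p15_26_0_320)) (pfC_sound p15_26_0_321)) (pfC_sound
 p15_26_0_322)) (pfC_sound p15_26_0_323)) (pfC_sound p15_26_0_324)) (pfC_sound p15_26_0_325)) (pfC_sound p15_26_0_326)) (pfC_sound p15_26_0_327)) (pfC_sound p15_26_0_328)) (pfC_sound p15_26_0_329)) (pfC_sound p15_26_0_330)) (pfC_sound p15_26_0_331)) (pfC_sound p15_26_0_332)) (pfC_sound p15_26_0_333)) (pfC_sound p15_26_0_334)) (pfC_sound p15_26_0_335)) (by decide +kernel)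

def z15_26_0 : zOK yB15_26 (nat_lit 0) (nat_lit 0) (nat_lit 400) (nat_lit 20955711) (nat_lit 10584306) = true := by decide +kernel
def g15_26_0 : gOK yB15_26.x P15_26 (nat_lit 1412) (q15_26 :: r15_26) (nat_lit 0) (nat_lit 0) (nat_lit 1) (nat_lit 400) (nat_lit 0) (nat_lit 11000000) (nat_lit 12712500) (nat_lit 12712500) [(nat_lit 800), (nat_lit 1400), (nat_lit 2200)] = true := by decide +kernel
def v15_26_0 : ivC P15_26 s15_26 w15_26 n15_26 (nat_lit 4) (nat_lit 5365) (nat_lit 0) (nat_lit 0) f160_1_0 f168_1_0 (nat_lit 1) (nat_lit 400) f160_1_400 f168_1_400 (nat_lit 20955711) (nat_lit 10584306) p15_26_0 = true := by decide +kernel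
def p15_26_1 : PF := (PF.cons (PF.cons (PF.cons (PF.cons (PF.leaf (nat_lit 2116669) (nat_lit 10090526) (nat_lit 57018286) (nat_lit 10090526) [(nat_lit 0), (nat_lit 0), (nat_lit 0), (nat_lit 0)]) (PF.cons (PF.leaf (nat_lit 2311057) (nat_lit 342100) (nat_lit 56649943) (nat_lit 10116769) [(nat_lit 342100), (nat_lit 0), (nat_lit 0), (nat_lit 0)]) (PF.cons (PF.leaf (nat_lit 2540578) (nat_lit 372352) (nat_lit 56219713) (nat_lit 10144395) [(nat_lit 372352), (nat_lit 0), (nat_lit 0), (nat_lit 0)]) (PF.cons (PF.leaf (nat_lit 2798391) (nat_lit 399243) (nat_lit 55739493) (nat_lit 10171589) [(nat_lit 399243), (nat_lit 0), (nat_lit 0), (nat_lit 0)]) (PF.cons (PF.leaf (nat_lit 3080400) (nat_lit 423494) (nat_lit 55217835) (nat_lit 10196997) [(nat_lit 423494), (nat_lit 0), (nat_lit 0), (nat_lit 0)]) (PF.cons (PF.leaf (nat_lit 3383380) (nat_lit 445559) (nat_lit 54661424) (nat_lit 10219590) [(nat_lit 445559), (nat_lit 0), (nat_lit 0), (nat_lit 0)]) (PF.cons (PF.leaf (nat_lit 3704632)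 (nat_lit 465742) (nat_lit 54075768) (nat_lit 10238586) [(nat_lit 465742), (nat_lit 0), (nat_lit 0), (nat_lit 0)]) (PF.cons (PF.leaf (nat_lit 4041908) (nat_lit 484263) (nat_lit 53465561) (nat_lit 10253408) [(nat_lit 484263), (nat_lit 0),
 (nat_lit 0), (nat_lit 0)]) (PF.cons (PF.leaf (nat_lit 4393142) (nat_lit 501284) (nat_lit 52834893) (nat_lit 10263640) [(nat_lit 501284), (nat_lit 0), (nat_lit 0), (nat_lit 0)]) (PF.cons PF.nil (PF.cons PF.nil (PF.cons PF.nil PF.nil)))))))))))) (PF.cons (PF.cons (PF.leaf (nat_lit 2725815) (nat_lit 1426360) (nat_lit 55506782) (nat_lit 10175669) [(nat_lit 0), (nat_lit 1426360), (nat_lit 0), (nat_lit 0)]) (PF.cons (PF.leaf (nat_lit 2975279) (nat_lit 409858) (nat_lit 55035064) (nat_lit 10197140) [(nat_lit 409858), (nat_lit 1466749), (nat_lit 0), (nat_lit 0)]) (PF.cons (PF.leaf (nat_lit 3251127) (nat_lit 433322) (nat_lit 54519389) (nat_lit 10216872) [(nat_lit 433322), (nat_lit 1505905), (nat_lit 0), (nat_lit 0)]) (PF.cons (PF.leaf (nat_lit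 3548812) (nat_lit 454581) (nat_lit 53967999) (nat_lit 10233838) [(nat_lit 454581), (nat_lit 1543230), (nat_lit 0), (nat_lit 0)]) (PF.cons (PF.leaf (nat_lit 3865193) (nat_lit 473973) (nat_lit 53387197) (nat_lit 10247290) [(nat_lit 473973), (nat_lit 1578428), (nat_lit 0), (nat_lit 0)]) (PF.cons (PF.leaf (nat_lit 4197777) (nat_lit 491731) (nat_lit 52782103) (nat_lit 10256689) [(nat_lit 491731), (nat_lit 1611361), (nat_lit 0), (nat_lit 0)]) (PF.cons
 (PF.leaf (nat_lit 4544368) (nat_lit 508024) (nat_lit 52157030) (nat_lit 10261659) [(nat_lit 508024), (nat_lit 1641977), (nat_lit 0), (nat_lit 0)]) (PF.cons (PF.leaf (nat_lit 4903068) (nat_lit 522982) (nat_lit 51515706) (nat_lit 10261954) [(nat_lit 522982), (nat_lit 1670277), (nat_lit 0), (nat_lit 0)]) (PF.cons PF.nil (PF.cons PF.nil PF.nil)))))))))) (PF.cons (PF.cons (PF.leaf (nat_lit 3425479) (nat_lit 1536292) (nat_lit 53805745) (nat_lit 10230483) [(nat_lit 0), (nat_lit 1536292), (nat_lit 0), (nat_lit 0)]) (PF.cons (PF.leaf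 (nat_lit 3715554) (nat_lit 462316) (nat_lit 53264402) (nat_lit 10242060) [(nat_lit 462316), (nat_lit 1570016), (nat_lit 0), (nat_lit 0)]) (PF.cons (PF.leaf (nat_lit 4025785) (nat_lit 481113) (nat_lit 52692181) (nat_lit 10250252) [(nat_lit 481113), (nat_lit 1602075), (nat_lit 0), (nat_lit 0)]) (PF.cons (PF.leaf (nat_lit 4352750) (nat_lit 498253) (nat_lit 52095082) (nat_lit 10254540) [(nat_lit 498253), (nat_lit 1632215), (nat_lit 0), (nat_lit 0)]) (PF.cons (PF.leaf (nat_lit 4694022) (nat_lit 513928) (nat_lit 51477901) (nat_lit 10254574) [(nat_lit 513928), (nat_lit 1660311), (nat_lit 0), (nat_lit 0)]) (PF.cons (PF.leaf (nat_lit 5047546) (nat_lit 528282) (nat_lit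
 50844632) (nat_lit 10250132) [(nat_lit 528282), (nat_lit 1686317), (nat_lit 0), (nat_lit 0)]) (PF.cons (PF.leaf (nat_lit 5411519) (nat_lit 541427) (nat_lit 50198683) (nat_lit 10241099) [(nat_lit 541427), (nat_lit 1710231), (nat_lit 0), (nat_lit 0)]) (PF.cons PF.nil (PF.cons PF.nil PF.nil))))))))) (PF.cons (PF.cons (PF.leaf (nat_lit 4187988) (nat_lit 1623693) (nat_lit 51990106) (nat_lit 10247626) [(nat_lit 0), (nat_lit 1623693), (nat_lit 0), (nat_lit 0)]) (PF.cons (PF.leaf (nat_lit 4507749) (nat_lit 503834) (nat_lit 51404288) (nat_lit 10247147) [(nat_lit 503834), (nat_lit 1651181), (nat_lit 0), (nat_lit 0)]) (PF.cons (PF.leaf (nat_lit 4842821) (nat_lit 519011) (nat_lit 50797506) (nat_lit 10242591) [(nat_lit 519011), (nat_lit 1676897), (nat_lit 0), (nat_lit 0)]) (PF.cons (PF.leaf (nat_lit 5190514) (nat_lit 532856) (nat_lit 50174263) (nat_lit 10233757) [(nat_lit 532856), (nat_lit 1700741), (nat_lit 0), (nat_lit 0)]) (PF.cons (PF.leaf (nat_lit 5548881) (nat_lit 545494)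 (nat_lit 49538258) (nat_lit 10220546) [(nat_lit 545494), (nat_lit 1722677), (nat_lit 0), (nat_lit 0)]) (PF.cons PF.nil (PF.cons PF.nil PF.nil))))))) (PF.cons (PF.cons (PF.leaf (nat_lit 4991940) (nat_lit 1691870)
 (nat_lit 50115446) (nat_lit 10225885) [(nat_lit 0), (nat_lit 1691870), (nat_lit 0), (nat_lit 0)]) (PF.cons (PF.leaf (nat_lit 5332666) (nat_lit 536707) (nat_lit 49504428) (nat_lit 10213020) [(nat_lit 536707), (nat_lit 1713664), (nat_lit 0), (nat_lit 0)]) (PF.cons (PF.leaf (nat_lit 5684826) (nat_lit 548920) (nat_lit 48880068) (nat_lit 10195976) [(nat_lit 548920), (nat_lit 1733731), (nat_lit 0), (nat_lit 0)]) (PF.cons (PF.leaf (nat_lit 6046252) (nat_lit 560023) (nat_lit 48245795) (nat_lit 10174748) [(nat_lit 560023), (nat_lit 1752049), (nat_lit 0), (nat_lit 0)]) (PF.cons PF.nil PF.nil))))) (PF.cons (PF.cons (PF.leaf (nat_lit 5820300) (nat_lit 1743487) (nat_lit 48223814) (nat_lit 10167561) [(nat_lit 0), (nat_lit 1743487), (nat_lit 0), (nat_lit 0)]) (PF.cons (PF.leaf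 (nat_lit 6174959) (nat_lit 562454) (nat_lit 47602386) (nat_lit 10143050) [(nat_lit 562454), (nat_lit 1760184), (nat_lit 0), (nat_lit 0)]) (PF.cons PF.nil (PF.cons PF.nil PF.nil)))) (PF.cons (PF.cons (PF.leaf (nat_lit 6659553) (nat_lit 1780874) (nat_lit 46346777) (nat_lit 10076790) [(nat_lit 0), (nat_lit 1780874), (nat_lit 0), (nat_lit 0)]) (PF.cons PF.nil PF.nil)) (PF.cons PF.nil (PF.cons PF.nil PF.nil))))))))) (PF.cons
 (PF.cons (PF.cons (PF.leaf (nat_lit 3318189) (nat_lit 3621893) (nat_lit 53279784) (nat_lit 10207134) [(nat_lit 0), (nat_lit 0), (nat_lit 3621893), (nat_lit 0)]) (PF.cons (PF.leaf (nat_lit 3578171) (nat_lit 438959) (nat_lit 52797152) (nat_lit 10215418) [(nat_lit 438959), (nat_lit 0), (nat_lit 3657282), (nat_lit 0)]) (PF.cons (PF.leaf (nat_lit 3862958) (nat_lit 460613) (nat_lit 52274306) (nat_lit 10221107) [(nat_lit 460613), (nat_lit 0), (nat_lit 3692171), (nat_lit 0)]) (PF.cons (PF.leaf (nat_lit 4167760) (nat_lit 479934) (nat_lit 51719808) (nat_lit 10223549)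 [(nat_lit 479934), (nat_lit 0), (nat_lit 3725652), (nat_lit 0)]) (PF.cons (PF.leaf (nat_lit 4489421) (nat_lit 497338) (nat_lit 51140029) (nat_lit 10222289) [(nat_lit 497338), (nat_lit 0), (nat_lit 3757141), (nat_lit 0)]) (PF.cons (PF.leaf (nat_lit 4825405) (nat_lit 513102) (nat_lit 50540006) (nat_lit 10217023) [(nat_lit 513102), (nat_lit 0), (nat_lit 3786268), (nat_lit 0)]) (PF.cons (PF.leaf (nat_lit 5173598) (nat_lit 527428) (nat_lit 49923878) (nat_lit 10207565) [(nat_lit 527428), (nat_lit 0), (nat_lit 3812800), (nat_lit 0)]) (PF.cons (PF.leaf (nat_lit 5532144) (nat_lit 540463) (nat_lit 49295141) (nat_lit 10193821) [(nat_lit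
 540463), (nat_lit 0), (nat_lit 3836605), (nat_lit 0)]) (PF.cons PF.nil (PF.cons PF.nil PF.nil)))))))))) (PF.cons (PF.cons (PF.leaf (nat_lit 4030258) (nat_lit 1599807) (nat_lit 51569978) (nat_lit 10216497) [(nat_lit 0), (nat_lit 1599807), (nat_lit 3722529), (nat_lit 0)]) (PF.cons (PF.leaf (nat_lit 4326331) (nat_lit 485278) (nat_lit 51029293) (nat_lit 10214604) [(nat_lit 485278), (nat_lit 1627836), (nat_lit 3751799), (nat_lit 0)]) (PF.cons (PF.leaf (nat_lit 4640870) (nat_lit 502287) (nat_lit 50461434) (nat_lit 10209125) [(nat_lit 502287), (nat_lit 1654238), (nat_lit 3779440), (nat_lit 0)]) (PF.cons (PF.leaf (nat_lit 4970453) (nat_lit 517607) (nat_lit 49872356) (nat_lit 10199782) [(nat_lit 517607), (nat_lit 1678834), (nat_lit 3805016), (nat_lit 0)]) (PF.cons (PF.leaf (nat_lit 5312668) (nat_lit 531470) (nat_lit 49266714) (nat_lit 10186412) [(nat_lit 531470), (nat_lit 1701549), (nat_lit 3828256), (nat_lit 0)]) (PF.cons (PF.leaf (nat_lit 5665545) (nat_lit 544041) (nat_lit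 48648295) (nat_lit 10168941) [(nat_lit 544041), (nat_lit 1722368), (nat_lit 3849002), (nat_lit 0)]) (PF.cons PF.nil (PF.cons PF.nil (PF.cons PF.nil PF.nil))))))))) (PF.cons (PF.cons (PF.leaf (nat_lit 4794028) (nat_lit
 1669954) (nat_lit 49778827) (nat_lit 10191246) [(nat_lit 0), (nat_lit 1669954), (nat_lit 3798829), (nat_lit 0)]) (PF.cons (PF.leaf (nat_lit 5115699) (nat_lit 521296) (nat_lit 49203528) (nat_lit 10178191) [(nat_lit 521296), (nat_lit 1692378), (nat_lit 3821039), (nat_lit 0)]) (PF.cons (PF.leaf (nat_lit 5451136) (nat_lit 534805) (nat_lit 48610480) (nat_lit 10161256) [(nat_lit 534805), (nat_lit 1713143), (nat_lit 3841177), (nat_lit 0)]) (PF.cons (PF.leaf (nat_lit 5797709) (nat_lit 546997) (nat_lit 48003998) (nat_lit 10140387) [(nat_lit 546997), (nat_lit 1732191), (nat_lit 3859050), (nat_lit 0)]) (PF.cons (PF.leaf (nat_lit 6153551) (nat_lit 558017) (nat_lit 47387562) (nat_lit 10115596) [(nat_lit 558017), (nat_lit 1749513), (nat_lit 3874557), (nat_lit 0)])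 (PF.cons PF.nil (PF.cons PF.nil PF.nil))))))) (PF.cons (PF.cons (PF.leaf (nat_lit 5590121) (nat_lit 1723428) (nat_lit 47954580) (nat_lit 10132230) [(nat_lit 0), (nat_lit 1723428), (nat_lit 3851716), (nat_lit 0)]) (PF.cons (PF.leaf (nat_lit 5929333) (nat_lit 549327) (nat_lit 47361897) (nat_lit 10108309) [(nat_lit 549327), (nat_lit 1740796), (nat_lit 3866888), (nat_lit 0)]) (PF.cons (PF.leaf (nat_lit 6278646) (nat_lit 560035) (nat_lit
 46758456) (nat_lit 10080624) [(nat_lit 560035), (nat_lit 1756587), (nat_lit 3879897), (nat_lit 0)]) (PF.cons PF.nil (PF.cons PF.nil PF.nil))))) (PF.cons (PF.cons (PF.leaf (nat_lit 6403541) (nat_lit 1762604) (nat_lit 46132510) (nat_lit 10042572) [(nat_lit 0), (nat_lit 1762604), (nat_lit 3883312), (nat_lit 0)]) (PF.cons (PF.leaf (nat_lit 6753943) (nat_lit 570878) (nat_lit 45535236) (nat_lit 10008784) [(nat_lit 570878), (nat_lit 1775494), (nat_lit 3891936), (nat_lit 0)]) (PF.cons PF.nil (PF.cons PF.nil PF.nil)))) (PF.cons (PF.cons (PF.leaf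 (nat_lit 7222638) (nat_lit 1789568) (nat_lit 44338293) (nat_lit 9926469) [(nat_lit 0), (nat_lit 1789568), (nat_lit 3896207), (nat_lit 0)]) (PF.cons PF.nil PF.nil)) (PF.cons PF.nil (PF.cons PF.nil PF.nil)))))))) (PF.cons (PF.cons (PF.cons (PF.leaf (nat_lit 4619158) (nat_lit 3777099) (nat_lit 49399452) (nat_lit 10155160) [(nat_lit 0), (nat_lit 0), (nat_lit 3777099), (nat_lit 0)]) (PF.cons (PF.leaf (nat_lit 4918421) (nat_lit 503007) (nat_lit 48866976) (nat_lit 10142038) [(nat_lit 503007), (nat_lit 0), (nat_lit 3798395), (nat_lit 0)]) (PF.cons (PF.leaf (nat_lit 5234677) (nat_lit 518417) (nat_lit 48310552) (nat_lit 10125299) [(nat_lit 518417), (nat_lit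
 0), (nat_lit 3818063), (nat_lit 0)]) (PF.cons (PF.leaf (nat_lit 5564494) (nat_lit 532131) (nat_lit 47735984) (nat_lit 10104855) [(nat_lit 532131), (nat_lit 0), (nat_lit 3835788), (nat_lit 0)]) (PF.cons (PF.leaf (nat_lit 5905549) (nat_lit 544408) (nat_lit 47147725) (nat_lit 10080684) [(nat_lit 544408), (nat_lit 0), (nat_lit 3851385), (nat_lit 0)]) (PF.cons (PF.leaf (nat_lit 6255877) (nat_lit 555430) (nat_lit 46549334) (nat_lit 10052819) [(nat_lit 555430), (nat_lit 0), (nat_lit 3864754), (nat_lit 0)]) (PF.cons PF.nil PF.nil))))))) (PF.cons (PF.cons (PF.leaf (nat_lit 5378568) (nat_lit 1701952) (nat_lit 47653366) (nat_lit 10095427) [(nat_lit 0), (nat_lit 1701952), (nat_lit 3829032), (nat_lit 0)]) (PF.cons (PF.leaf (nat_lit 5700022) (nat_lit 534272) (nat_lit 47094126) (nat_lit 10072209) [(nat_lit 534272), (nat_lit 1720111), (nat_lit 3844045), (nat_lit 0)]) (PF.cons (PF.leaf (nat_lit 6033898) (nat_lit 546316) (nat_lit 46519801) (nat_lit 10045368) [(nat_lit 546316), (nat_lit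 1736720), (nat_lit 3857144), (nat_lit 0)]) (PF.cons (PF.leaf (nat_lit 6377664) (nat_lit 557068) (nat_lit 45934486) (nat_lit 10014961) [(nat_lit 557068), (nat_lit 1751754), (nat_lit 3868203), (nat_lit 0)]) (PF.cons
 PF.nil PF.nil))))) (PF.cons (PF.cons (PF.leaf (nat_lit 6162996) (nat_lit 1743218) (nat_lit 45893538) (nat_lit 10006904) [(nat_lit 0), (nat_lit 1743218), (nat_lit 3860966), (nat_lit 0)]) (PF.cons (PF.leaf (nat_lit 6499165) (nat_lit 558157) (nat_lit 45322891) (nat_lit 9974279) [(nat_lit 558157), (nat_lit 1756877), (nat_lit 3869864), (nat_lit 0)]) (PF.cons (PF.leaf (nat_lit 6844315) (nat_lit 567560) (nat_lit 44743541) (nat_lit 9938294) [(nat_lit 567560), (nat_lit 1769096), (nat_lit 3876831), (nat_lit 0)]) (PF.cons PF.nil PF.nil)))) (PF.cons (PF.cons (PF.leaf (nat_lit 6959197) (nat_lit 1772104) (nat_lit 44149555) (nat_lit 9893062) [(nat_lit 0), (nat_lit 1772104), (nat_lit 3874940), (nat_lit 0)]) (PF.cons (PF.leaf (nat_lit 7304347) (nat_lit 576143) (nat_lit 43578568)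 (nat_lit 9852155) [(nat_lit 576143), (nat_lit 1781823), (nat_lit 3878236), (nat_lit 0)]) PF.nil)) (PF.cons PF.nil (PF.cons PF.nil PF.nil)))))) (PF.cons (PF.cons (PF.cons (PF.leaf (nat_lit 5940460) (nat_lit 3838227) (nat_lit 45624719) (nat_lit 9969410) [(nat_lit 0), (nat_lit 0), (nat_lit 3838227), (nat_lit 0)]) (PF.cons (PF.leaf (nat_lit 6260068) (nat_lit 543550) (nat_lit 45085165) (nat_lit 9938128) [(nat_lit 543550),
 (nat_lit 0), (nat_lit 3847322), (nat_lit 0)]) (PF.cons (PF.leaf (nat_lit 6590975) (nat_lit 554305) (nat_lit 44532726) (nat_lit 9903505) [(nat_lit 554305), (nat_lit 0), (nat_lit 3854656), (nat_lit 0)]) (PF.cons (PF.leaf (nat_lit 6930693) (nat_lit 563800) (nat_lit 43971260) (nat_lit 9865677) [(nat_lit 563800), (nat_lit 0), (nat_lit 3860157), (nat_lit 0)]) (PF.cons PF.nil PF.nil))))) (PF.cons (PF.cons (PF.leaf (nat_lit 6710589) (nat_lit 1753527) (nat_lit 43937834) (nat_lit 9857974) [(nat_lit 0), (nat_lit 1753527), (nat_lit 3853158), (nat_lit 0)]) (PF.cons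 (PF.leaf (nat_lit 7042610) (nat_lit 563880) (nat_lit 43391393) (nat_lit 9818625) [(nat_lit 563880), (nat_lit 1764076), (nat_lit 3856945), (nat_lit 0)]) (PF.cons (PF.leaf (nat_lit 7382673) (nat_lit 572149) (nat_lit 42837882) (nat_lit 9776293) [(nat_lit 572149), (nat_lit 1773312), (nat_lit 3859008), (nat_lit 0)]) (PF.cons PF.nil PF.nil)))) (PF.cons (PF.cons (PF.leaf (nat_lit 7488185) (nat_lit 1773905) (nat_lit 42276271) (nat_lit 9725862) [(nat_lit 0), (nat_lit 1773905), (nat_lit 3852955), (nat_lit 0)]) (PF.cons PF.nil PF.nil)) (PF.cons PF.nil (PF.cons PF.nil PF.nil))))) (PF.cons (PF.cons (PF.cons (PF.leaf (nat_lit 7233478) (nat_lit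
 3831989) (nat_lit 42088901) (nat_lit 9691955) [(nat_lit 0), (nat_lit 0), (nat_lit 3831989), (nat_lit 0)]) (PF.cons (PF.leaf (nat_lit 7560566) (nat_lit 567059) (nat_lit 41567725) (nat_lit 9647525) [(nat_lit 567059), (nat_lit 0), (nat_lit 3831625), (nat_lit 0)]) (PF.cons PF.nil (PF.cons PF.nil PF.nil)))) (PF.cons (PF.cons (PF.leaf (nat_lit 7991715) (nat_lit 1769563) (nat_lit 40511110) (nat_lit 9546405) [(nat_lit 0), (nat_lit 1769563), (nat_lit 3820433), (nat_lit 0)]) (PF.cons PF.nil PF.nil)) (PF.cons PF.nil PF.nil))) (PF.cons (PF.cons (PF.cons (PF.leaf (nat_lit 8471187) (nat_lit 3779840) (nat_lit 38850633) (nat_lit 9358978) [(nat_lit 0), (nat_lit 0), (nat_lit 3779840), (nat_lit 0)]) (PF.cons PF.nil PF.nil)) (PF.cons PF.nil PF.nil)) (PF.cons PF.nil (PF.cons PF.nil PF.nil)))))))) (PF.cons (PF.cons (PF.cons (PF.cons (PF.leaf (nat_lit 4260564) (nat_lit 9142544) (nat_lit 48006615) (nat_lit 9959652) [(nat_lit 0), (nat_lit 0), (nat_lit 0), (nat_lit 9142544)]) (PF.cons (PF.leaf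 (nat_lit 4517611) (nat_lit 453167) (nat_lit 47569785) (nat_lit 9948787) [(nat_lit 453167), (nat_lit 0), (nat_lit 0), (nat_lit 9137072)]) (PF.cons (PF.leaf (nat_lit 4797351) (nat_lit 473071) (nat_lit 47099031)
 (nat_lit 9934773) [(nat_lit 473071), (nat_lit 0), (nat_lit 0), (nat_lit 9128864)]) (PF.cons (PF.leaf (nat_lit 5094966) (nat_lit 490446) (nat_lit 46602299) (nat_lit 9917475) [(nat_lit 490446), (nat_lit 0), (nat_lit 0), (nat_lit 9117697)]) (PF.cons (PF.leaf (nat_lit 5407291) (nat_lit 505788) (nat_lit 46085408) (nat_lit 9896817) [(nat_lit 505788), (nat_lit 0), (nat_lit 0), (nat_lit 9103431)]) (PF.cons (PF.leaf (nat_lit 5731845) (nat_lit 519433) (nat_lit 45552870) (nat_lit 9872777) [(nat_lit 519433), (nat_lit 0), (nat_lit 0), (nat_lit 9085996)]) (PF.cons (PF.leaf (nat_lit 6066589) (nat_lit 531623) (nat_lit 45008318) (nat_lit 9845375) [(nat_lit 531623), (nat_lit 0), (nat_lit 0), (nat_lit 9065378)]) (PF.cons (PF.leaf (nat_lit 6409867) (nat_lit 542540) (nat_lit 44454754)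 (nat_lit 9814670) [(nat_lit 542540), (nat_lit 0), (nat_lit 0), (nat_lit 9041606)]) (PF.cons PF.nil (PF.cons PF.nil PF.nil)))))))))) (PF.cons (PF.cons (PF.leaf (nat_lit 4947598) (nat_lit 1619476) (nat_lit 46474974) (nat_lit 9906436) [(nat_lit 0), (nat_lit 1619476), (nat_lit 0), (nat_lit 9107925)]) (PF.cons (PF.leaf (nat_lit 5235742) (nat_lit 493341) (nat_lit 45993103) (nat_lit 9886753) [(nat_lit 493341), (nat_lit
 1641389), (nat_lit 0), (nat_lit 9094225)]) (PF.cons (PF.leaf (nat_lit 5540330) (nat_lit 508430) (nat_lit 45489135) (nat_lit 9863728) [(nat_lit 508430), (nat_lit 1661612), (nat_lit 0), (nat_lit 9077476)]) (PF.cons (PF.leaf (nat_lit 5858007) (nat_lit 521769) (nat_lit 44968404) (nat_lit 9837384) [(nat_lit 521769), (nat_lit 1680072), (nat_lit 0), (nat_lit 9057642)]) (PF.cons (PF.leaf (nat_lit 6186479) (nat_lit 533633) (nat_lit 44435003) (nat_lit 9807772) [(nat_lit 533633), (nat_lit 1696774), (nat_lit 0), (nat_lit 9034730)]) (PF.cons (PF.leaf (nat_lit 6523858) (nat_lit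 544219) (nat_lit 43892202) (nat_lit 9774969) [(nat_lit 544219), (nat_lit 1711758), (nat_lit 0), (nat_lit 9008786)]) (PF.cons (PF.leaf (nat_lit 6868574) (nat_lit 553679) (nat_lit 43342685) (nat_lit 9739079) [(nat_lit 553679), (nat_lit 1725085), (nat_lit 0), (nat_lit 8979883)]) (PF.cons PF.nil (PF.cons PF.nil PF.nil))))))))) (PF.cons (PF.cons (PF.leaf (nat_lit 5675264) (nat_lit 1670744) (nat_lit 44891417) (nat_lit 9827466) [(nat_lit 0), (nat_lit 1670744), (nat_lit 0), (nat_lit 9048441)]) (PF.cons (PF.leaf (nat_lit 5984704) (nat_lit 523421) (nat_lit 44384690) (nat_lit 9799149) [(nat_lit 523421), (nat_lit 1687519), (nat_lit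
 0), (nat_lit 9026511)]) (PF.cons (PF.leaf (nat_lit 6306174) (nat_lit 535064) (nat_lit 43864025) (nat_lit 9767617) [(nat_lit 535064), (nat_lit 1702730), (nat_lit 0), (nat_lit 9001578)]) (PF.cons (PF.leaf (nat_lit 6637155) (nat_lit 545400) (nat_lit 43333167) (nat_lit 9732978) [(nat_lit 545400), (nat_lit 1716378), (nat_lit 0), (nat_lit 8973707)]) (PF.cons (PF.leaf (nat_lit 6975905) (nat_lit 554598) (nat_lit 42795079) (nat_lit 9695355) [(nat_lit 554598), (nat_lit 1728498), (nat_lit 0), (nat_lit 8942989)]) (PF.cons PF.nil (PF.cons PF.nil PF.nil))))))) (PF.cons (PF.cons (PF.leaf (nat_lit 6426789) (nat_lit 1707730) (nat_lit 43294681) (nat_lit 9724959) [(nat_lit 0), (nat_lit 1707730), (nat_lit 0), (nat_lit 8965980)]) (PF.cons (PF.leaf (nat_lit 6750384) (nat_lit 546072) (nat_lit 42777170) (nat_lit 9688766) [(nat_lit 546072), (nat_lit 1720119), (nat_lit 0), (nat_lit 8936445)]) (PF.cons (PF.leaf (nat_lit 7082682) (nat_lit 555077) (nat_lit 42251541) (nat_lit 9649657) [(nat_lit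 555077), (nat_lit 1731104), (nat_lit 0), (nat_lit 8904144)]) (PF.cons (PF.leaf (nat_lit 7421749) (nat_lit 563059) (nat_lit 41720493) (nat_lit 9607786) [(nat_lit 563059), (nat_lit 1740718), (nat_lit 0), (nat_lit
 8869200)]) (PF.cons PF.nil PF.nil))))) (PF.cons (PF.cons (PF.leaf (nat_lit 7189779) (nat_lit 1732953) (nat_lit 41711551) (nat_lit 9602039) [(nat_lit 0), (nat_lit 1732953), (nat_lit 0), (nat_lit 8863407)]) (PF.cons (PF.leaf (nat_lit 7522100) (nat_lit 562940) (nat_lit 41193262) (nat_lit 9559006) [(nat_lit 562940), (nat_lit 1741601), (nat_lit 0), (nat_lit 8827198)]) (PF.cons PF.nil (PF.cons PF.nil PF.nil)))) (PF.cons (PF.cons (PF.leaf (nat_lit 7954899) (nat_lit 1748417) (nat_lit 40160632) (nat_lit 9462142) [(nat_lit 0), (nat_lit 1748417), (nat_lit 0), (nat_lit 8743949)]) (PF.cons PF.nil PF.nil)) (PF.cons PF.nil (PF.cons PF.nil PF.nil)))))))) (PF.cons (PF.cons (PF.cons (PF.leaf (nat_lit 5486441) (nat_lit 3732077) (nat_lit 44578283) (nat_lit 9787171) [(nat_lit 0),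 (nat_lit 0), (nat_lit 3732077), (nat_lit 9011280)]) (PF.cons (PF.leaf (nat_lit 5775445) (nat_lit 505096) (nat_lit 44108915) (nat_lit 9760442) [(nat_lit 505096), (nat_lit 0), (nat_lit 3743800), (nat_lit 8990558)]) (PF.cons (PF.leaf (nat_lit 6079686) (nat_lit 518785) (nat_lit 43619959) (nat_lit 9730451) [(nat_lit 518785), (nat_lit 0), (nat_lit 3753980), (nat_lit 8966851)]) (PF.cons (PF.leaf (nat_lit 6395830) (nat_lit 530757)
 (nat_lit 43116526) (nat_lit 9697333) [(nat_lit 530757), (nat_lit 0), (nat_lit 3762447), (nat_lit 8940232)]) (PF.cons (PF.leaf (nat_lit 6721655) (nat_lit 541300) (nat_lit 42602480) (nat_lit 9661219) [(nat_lit 541300), (nat_lit 0), (nat_lit 3769116), (nat_lit 8910792)]) (PF.cons (PF.leaf (nat_lit 7055354) (nat_lit 550621) (nat_lit 42080863) (nat_lit 9622247) [(nat_lit 550621), (nat_lit 0), (nat_lit 3773959), (nat_lit 8878632)]) (PF.cons PF.nil (PF.cons PF.nil (PF.cons PF.nil PF.nil))))))))) (PF.cons (PF.cons (PF.leaf (nat_lit 6206195) (nat_lit 1686322)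 (nat_lit 43049022) (nat_lit 9687341) [(nat_lit 0), (nat_lit 1686322), (nat_lit 3755226), (nat_lit 8930899)]) (PF.cons (PF.leaf (nat_lit 6513902) (nat_lit 531267) (nat_lit 42560235) (nat_lit 9652884) [(nat_lit 531267), (nat_lit 1699802), (nat_lit 3761816), (nat_lit 8902806)]) (PF.cons (PF.leaf (nat_lit 6832581) (nat_lit 541691) (nat_lit 42059443) (nat_lit 9615448) [(nat_lit 541691), (nat_lit 1711842), (nat_lit 3766766), (nat_lit 8871927)]) (PF.cons (PF.leaf (nat_lit 7159800) (nat_lit 550852) (nat_lit 41550167) (nat_lit 9575204) [(nat_lit 550852), (nat_lit 1722460), (nat_lit 3770030), (nat_lit 8838393)]) (PF.cons (PF.leaf (nat_lit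
 7493890) (nat_lit 558924) (nat_lit 41035157) (nat_lit 9532316) [(nat_lit 558924), (nat_lit 1731703), (nat_lit 3771603), (nat_lit 8802333)]) (PF.cons PF.nil (PF.cons PF.nil PF.nil))))))) (PF.cons (PF.cons (PF.leaf (nat_lit 6944647) (nat_lit 1714181) (nat_lit 41518661) (nat_lit 9567644) [(nat_lit 0), (nat_lit 1714181), (nat_lit 3763070), (nat_lit 8831072)]) (PF.cons (PF.leaf (nat_lit 7264428) (nat_lit 550632) (nat_lit 41022952) (nat_lit 9526389) [(nat_lit 550632), (nat_lit 1723779), (nat_lit 3764874), (nat_lit 8796405)]) (PF.cons (PF.leaf (nat_lit 7592048) (nat_lit 558588) (nat_lit 40520536) (nat_lit 9482526) [(nat_lit 558588), (nat_lit 1732101), (nat_lit 3765106), (nat_lit 8759262)]) (PF.cons (PF.leaf (nat_lit 7925655) (nat_lit 565567) (nat_lit 40013913) (nat_lit 9436238) [(nat_lit 565567), (nat_lit 1739191), (nat_lit 3763778), (nat_lit 8719797)]) (PF.cons PF.nil PF.nil))))) (PF.cons (PF.cons (PF.leaf (nat_lit 7690760) (nat_lit 1731881) (nat_lit 40009720) (nat_lit 9431214)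 [(nat_lit 0), (nat_lit 1731881), (nat_lit 3757546), (nat_lit 8714686)]) (PF.cons (PF.leaf (nat_lit 8017665) (nat_lit 564749) (nat_lit 39515786) (nat_lit 9384221) [(nat_lit 564749), (nat_lit 1738189), (nat_lit
 3755086), (nat_lit 8674402)]) (PF.cons PF.nil (PF.cons PF.nil PF.nil)))) (PF.cons (PF.cons (PF.leaf (nat_lit 8436361) (nat_lit 1741184) (nat_lit 38537461) (nat_lit 9281243) [(nat_lit 0), (nat_lit 1741184), (nat_lit 3740633), (nat_lit 8584734)]) (PF.cons PF.nil PF.nil)) (PF.cons PF.nil PF.nil)))))) (PF.cons (PF.cons (PF.cons (PF.leaf (nat_lit 6716544) (nat_lit 3740571) (nat_lit 41299850) (nat_lit 9531005) [(nat_lit 0), (nat_lit 0), (nat_lit 3740571), (nat_lit 8796815)]) (PF.cons (PF.leaf (nat_lit 7021483) (nat_lit 536436) (nat_lit 40830645) (nat_lit 9491791) [(nat_lit 536436), (nat_lit 0), (nat_lit 3743019), (nat_lit 8763900)]) (PF.cons (PF.leaf (nat_lit 7336496) (nat_lit 545792) (nat_lit 40351037) (nat_lit 9449835) [(nat_lit 545792), (nat_lit 0), (nat_lit 3743967),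 (nat_lit 8728418)]) (PF.cons (PF.leaf (nat_lit 7659220) (nat_lit 553929) (nat_lit 39864323) (nat_lit 9405351) [(nat_lit 553929), (nat_lit 0), (nat_lit 3743401), (nat_lit 8690545)]) (PF.cons (PF.leaf (nat_lit 7988056) (nat_lit 561028) (nat_lit 39373052) (nat_lit 9358533) [(nat_lit 561028), (nat_lit 0), (nat_lit 3741336), (nat_lit 8650439)]) PF.nil))))) (PF.cons (PF.cons (PF.leaf (nat_lit 7440496) (nat_lit 1714156)
 (nat_lit 39838930) (nat_lit 9398356) [(nat_lit 0), (nat_lit 1714156), (nat_lit 3736815), (nat_lit 8683739)]) (PF.cons (PF.leaf (nat_lit 7755796) (nat_lit 552988) (nat_lit 39365714) (nat_lit 9353308) [(nat_lit 552988), (nat_lit 1721415), (nat_lit 3735107), (nat_lit 8645170)]) (PF.cons (PF.leaf (nat_lit 8078210) (nat_lit 560033) (nat_lit 38886921) (nat_lit 9305933) [(nat_lit 560033), (nat_lit 1727515), (nat_lit 3731993), (nat_lit 8604391)]) (PF.cons PF.nil PF.nil)))) (PF.cons (PF.cons (PF.leaf (nat_lit 8169136) (nat_lit 1725639) (nat_lit 38404671) (nat_lit 9252135)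 [(nat_lit 0), (nat_lit 1725639), (nat_lit 3721788), (nat_lit 8557150)]) (PF.cons (PF.leaf (nat_lit 8490263) (nat_lit 564763) (nat_lit 37935036) (nat_lit 9202298) [(nat_lit 564763), (nat_lit 1729997), (nat_lit 3716421), (nat_lit 8513877)]) PF.nil)) (PF.cons PF.nil (PF.cons PF.nil PF.nil))))) (PF.cons (PF.cons (PF.cons (PF.leaf (nat_lit 7915153) (nat_lit 3702170) (nat_lit 38253455) (nat_lit 9221034) [(nat_lit 0), (nat_lit 0), (nat_lit 3702170), (nat_lit 8527810)]) (PF.cons (PF.leaf (nat_lit 8225499) (nat_lit 553542) (nat_lit 37802817) (nat_lit 9173238) [(nat_lit 553542), (nat_lit 0), (nat_lit 3697620), (nat_lit 8486355)])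
 (PF.cons (PF.leaf (nat_lit 8542355) (nat_lit 559794) (nat_lit 37347504) (nat_lit 9123365) [(nat_lit 559794), (nat_lit 0), (nat_lit 3691809), (nat_lit 8442925)]) (PF.cons PF.nil PF.nil)))) (PF.cons (PF.cons (PF.leaf (nat_lit 8626079) (nat_lit 1715291) (nat_lit 36892816) (nat_lit 9068038) [(nat_lit 0), (nat_lit 1715291), (nat_lit 3679570), (nat_lit 8393956)]) (PF.cons PF.nil PF.nil)) (PF.cons PF.nil PF.nil))) (PF.cons (PF.cons (PF.cons (PF.leaf (nat_lit 9062836) (nat_lit 3632497) (nat_lit 35469775) (nat_lit 8881462) [(nat_lit 0), (nat_lit 0), (nat_lit 3632497), (nat_lit 8227586)]) (PF.cons PF.nil PF.nil)) (PF.cons PF.nil PF.nil)) (PF.cons PF.nil PF.nil)))))) (PF.cons (PF.cons (PF.cons (PF.cons (PF.leaf (nat_lit 6249776) (nat_lit 8640630) (nat_lit 40462469) (nat_lit 9365083) [(nat_lit 0), (nat_lit 0), (nat_lit 0), (nat_lit 8640630)]) (PF.cons (PF.leaf (nat_lit 6527803) (nat_lit 500319) (nat_lit 40051400) (nat_lit 9331501) [(nat_lit 500319), (nat_lit 0), (nat_lit 0), (nat_lit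 8612795)]) (PF.cons (PF.leaf (nat_lit 6819688) (nat_lit 512639) (nat_lit 39623991) (nat_lit 9294993) [(nat_lit 512639), (nat_lit 0), (nat_lit 0), (nat_lit 8582274)]) (PF.cons (PF.leaf (nat_lit 7122227) (nat_lit
 523260) (nat_lit 39184694) (nat_lit 9255811) [(nat_lit 523260), (nat_lit 0), (nat_lit 0), (nat_lit 8549262)]) (PF.cons (PF.leaf (nat_lit 7433314) (nat_lit 532487) (nat_lit 38736838) (nat_lit 9214166) [(nat_lit 532487), (nat_lit 0), (nat_lit 0), (nat_lit 8513928)]) (PF.cons (PF.leaf (nat_lit 7751245) (nat_lit 540539) (nat_lit 38283020) (nat_lit 9170245) [(nat_lit 540539), (nat_lit 0), (nat_lit 0), (nat_lit 8476425)]) (PF.cons PF.nil PF.nil))))))) (PF.cons (PF.cons (PF.leaf (nat_lit 6932016) (nat_lit 1652864) (nat_lit 39129586) (nat_lit 9246101) [(nat_lit 0), (nat_lit 1652864), (nat_lit 0), (nat_lit 8540130)]) (PF.cons (PF.leaf (nat_lit 7226259) (nat_lit 522701) (nat_lit 38703608) (nat_lit 9206440) [(nat_lit 522701), (nat_lit 1663089), (nat_lit 0), (nat_lit 8506487)])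 (PF.cons (PF.leaf (nat_lit 7530373) (nat_lit 531893) (nat_lit 38267757) (nat_lit 9164278) [(nat_lit 531893), (nat_lit 1671981), (nat_lit 0), (nat_lit 8470504)]) (PF.cons (PF.leaf (nat_lit 7842056) (nat_lit 539863) (nat_lit 37825053) (nat_lit 9119842) [(nat_lit 539863), (nat_lit 1679590), (nat_lit 0), (nat_lit 8432368)]) (PF.cons (PF.leaf (nat_lit 8159753) (nat_lit 546796) (nat_lit 37377833) (nat_lit 9073326) [(nat_lit
 546796), (nat_lit 1685979), (nat_lit 0), (nat_lit 8392243)]) PF.nil))))) (PF.cons (PF.cons (PF.leaf (nat_lit 7628911) (nat_lit 1671698) (nat_lit 37800885) (nat_lit 9113038) [(nat_lit 0), (nat_lit 1671698), (nat_lit 0), (nat_lit 8425746)]) (PF.cons (PF.leaf (nat_lit 7933410) (nat_lit 538809) (nat_lit 37370279) (nat_lit 9068300) [(nat_lit 538809), (nat_lit 1678537), (nat_lit 0), (nat_lit 8387174)]) (PF.cons (PF.leaf (nat_lit 8244932) (nat_lit 545697) (nat_lit 36934233) (nat_lit 9021472) [(nat_lit 545697), (nat_lit 1684238), (nat_lit 0), (nat_lit 8346617)])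 (PF.cons PF.nil PF.nil)))) (PF.cons (PF.cons (PF.leaf (nat_lit 8331030) (nat_lit 1682044) (nat_lit 36493988) (nat_lit 8968649) [(nat_lit 0), (nat_lit 1682044), (nat_lit 0), (nat_lit 8300020)]) (PF.cons (PF.leaf (nat_lit 8641453) (nat_lit 550205) (nat_lit 36065749) (nat_lit 8919799) [(nat_lit 550205), (nat_lit 1686087), (nat_lit 0), (nat_lit 8257397)]) PF.nil)) (PF.cons PF.nil PF.nil))))) (PF.cons (PF.cons (PF.cons (PF.leaf (nat_lit 7399509) (nat_lit 3620401) (nat_lit 37622037) (nat_lit 9078926) [(nat_lit 0), (nat_lit 0), (nat_lit 3620401), (nat_lit 8393723)]) (PF.cons (PF.leaf (nat_lit 7690589) (nat_lit 525209) (nat_lit 37213958)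
 (nat_lit 9036505) [(nat_lit 525209), (nat_lit 0), (nat_lit 3618745), (nat_lit 8357196)]) (PF.cons (PF.leaf (nat_lit 7990813) (nat_lit 533501) (nat_lit 36797212) (nat_lit 8991781) [(nat_lit 533501), (nat_lit 0), (nat_lit 3615792), (nat_lit 8318511)]) (PF.cons (PF.leaf (nat_lit 8297922) (nat_lit 540622) (nat_lit 36374621) (nat_lit 8945000) [(nat_lit 540622), (nat_lit 0), (nat_lit 3611562), (nat_lit 8277880)]) (PF.cons PF.nil PF.nil))))) (PF.cons (PF.cons (PF.leaf (nat_lit 8082461) (nat_lit 1665433) (nat_lit 36355392) (nat_lit 8938825) [(nat_lit 0), (nat_lit 1665433), (nat_lit 3605480), (nat_lit 8271840)]) (PF.cons (PF.leaf (nat_lit 8382475) (nat_lit 539042) (nat_lit 35944656) (nat_lit 8892034) [(nat_lit 539042), (nat_lit 1670471), (nat_lit 3600486), (nat_lit 8231061)]) (PF.cons (PF.leaf (nat_lit 8688927) (nat_lit 545181) (nat_lit 35529298) (nat_lit 8843364) [(nat_lit 545181), (nat_lit 1674473), (nat_lit 3594319), (nat_lit 8188497)]) (PF.cons PF.nil PF.nil)))) (PF.cons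 (PF.cons (PF.leaf (nat_lit 8768495) (nat_lit 1671124) (nat_lit 35113543) (nat_lit 8789594) [(nat_lit 0), (nat_lit 1671124), (nat_lit 3581937), (nat_lit 8140744)]) (PF.cons PF.nil PF.nil)) PF.nil))) (PF.cons (PF.cons
 (PF.cons (PF.leaf (nat_lit 8517787) (nat_lit 3563926) (nat_lit 34990629) (nat_lit 8761675) [(nat_lit 0), (nat_lit 0), (nat_lit 3563926), (nat_lit 8114327)]) (PF.cons (PF.leaf (nat_lit 8813020) (nat_lit 537968) (nat_lit 34599443) (nat_lit 8713507) [(nat_lit 537968), (nat_lit 0), (nat_lit 3556943), (nat_lit 8072003)]) (PF.cons PF.nil PF.nil))) (PF.cons (PF.cons (PF.leaf (nat_lit 9187744) (nat_lit 1657410) (nat_lit 33811907) (nat_lit 8609521) [(nat_lit 0), (nat_lit 1657410), (nat_lit 3535241), (nat_lit 7979745)]) PF.nil) PF.nil)) (PF.cons PF.nil (PF.cons PF.nil PF.nil))))) (PF.cons (PF.cons (PF.cons (PF.cons (PF.leaf (nat_lit 8009380) (nat_lit 7996951) (nat_lit 34480463) (nat_lit 8637495) [(nat_lit 0), (nat_lit 0), (nat_lit 0), (nat_lit 7996951)]) (PF.cons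 (PF.leaf (nat_lit 8287599) (nat_lit 511858) (nat_lit 34124334) (nat_lit 8594484) [(nat_lit 511858), (nat_lit 0), (nat_lit 0), (nat_lit 7959378)]) (PF.cons (PF.leaf (nat_lit 8574254) (nat_lit 519317) (nat_lit 33760815) (nat_lit 8549497) [(nat_lit 519317), (nat_lit 0), (nat_lit 0), (nat_lit 7919955)]) (PF.cons (PF.leaf (nat_lit 8867174) (nat_lit 525655) (nat_lit 33392333) (nat_lit 8502794) [(nat_lit 525655), (nat_lit 0), (nat_lit 0),
 (nat_lit 7878905)]) (PF.cons PF.nil PF.nil))))) (PF.cons (PF.cons (PF.leaf (nat_lit 8656001) (nat_lit 1612699) (nat_lit 33377821) (nat_lit 8497423) [(nat_lit 0), (nat_lit 1612699), (nat_lit 0), (nat_lit 7873623)]) (PF.cons (PF.leaf (nat_lit 8942136) (nat_lit 523679) (nat_lit 33019660) (nat_lit 8451026) [(nat_lit 523679), (nat_lit 1616207), (nat_lit 0), (nat_lit 7832746)]) (PF.cons PF.nil (PF.cons PF.nil PF.nil)))) (PF.cons (PF.cons (PF.leaf (nat_lit 9304765) (nat_lit 1614573) (nat_lit 32297050) (nat_lit 8351058) [(nat_lit 0), (nat_lit 1614573),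 (nat_lit 0), (nat_lit 7743852)]) (PF.cons PF.nil PF.nil)) PF.nil))) (PF.cons (PF.cons (PF.cons (PF.leaf (nat_lit 9058779) (nat_lit 3425279) (nat_lit 32196330) (nat_lit 8326251) [(nat_lit 0), (nat_lit 0), (nat_lit 3425279), (nat_lit 7720317)]) (PF.cons (PF.leaf (nat_lit 9340384) (nat_lit 521600) (nat_lit 31854879) (nat_lit 8279290) [(nat_lit 521600), (nat_lit 0), (nat_lit 3416933), (nat_lit 7678703)]) PF.nil)) (PF.cons PF.nil PF.nil)) (PF.cons PF.nil PF.nil))) (PF.cons (PF.cons (PF.cons (PF.cons (PF.leaf (nat_lit 9550711) (nat_lit 7350914) (nat_lit 29785559) (nat_lit 7919596) [(nat_lit 0), (nat_lit 0), (nat_lit 0), (nat_lit 7350914)])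
 (PF.cons (PF.leaf (nat_lit 9819993) (nat_lit 505157) (nat_lit 29485697) (nat_lit 7874636) [(nat_lit 505157), (nat_lit 0), (nat_lit 0), (nat_lit 7310830)]) PF.nil)) (PF.cons PF.nil PF.nil)) (PF.cons PF.nil PF.nil)) (PF.cons PF.nil (PF.cons PF.nil (PF.cons PF.nil PF.nil))))))))

def p15_26_1_0 : pfC (piC [(nat_lit 37297016), (nat_lit 24651042), (nat_lit 18388512), (nat_lit 12378745)] (nat_lit 10584306)) p15_26_1 (nat_lit 4) (nat_lit 0) (nat_lit 1) = true := by decide +kernel
def p15_26_1_1 : pfC (piC [(nat_lit 37297016), (nat_lit 24651042), (nat_lit 18388512), (nat_lit 12378745)] (nat_lit 10584306)) p15_26_1 (nat_lit 4) (nat_lit 1) (nat_lit 2) = true := by decide +kernel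
def p15_26_1_2 : pfC (piC [(nat_lit 37297016), (nat_lit 24651042), (nat_lit 18388512), (nat_lit 12378745)] (nat_lit 10584306)) p15_26_1 (nat_lit 4) (nat_lit 2) (nat_lit 3) = true := by decide +kernel
def p15_26_1_3 : pfC (piC [(nat_lit 37297016), (nat_lit 24651042), (nat_lit 18388512), (nat_lit 12378745)] (nat_lit 10584306)) p15_26_1 (nat_lit 4) (nat_lit 3) (nat_lit 4) = true := by decide +kernel
def p15_26_1_4 : pfC (piC [(nat_lit 37297016), (nat_lit 24651042), (nat_lit 18388512), (nat_lit 12378745)] (nat_lit 10584306)) p15_26_1 (nat_lit 4) (nat_lit 4) (nat_lit 5) = true := by decide +kernel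
def p15_26_1_5 : pfC (piC [(nat_lit 37297016), (nat_lit 24651042), (nat_lit 18388512), (nat_lit 12378745)] (nat_lit 10584306)) p15_26_1 (nat_lit 4) (nat_lit 5) (nat_lit 6) = true := by decide +kernel
def p15_26_1_6 : pfC (piC [(nat_lit 37297016), (nat_lit 24651042), (nat_lit 18388512), (nat_lit 12378745)] (nat_lit 10584306)) p15_26_1 (nat_lit 4) (nat_lit 6) (nat_lit 7) = true := by decide +kernel
def p15_26_1_7 : pfC (piC [(nat_lit 37297016), (nat_lit 24651042), (nat_lit 18388512), (nat_lit 12378745)] (nat_lit 10584306)) p15_26_1 (nat_lit 4) (nat_lit 7) (nat_lit 8) = true := by decide +kernel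
def p15_26_1_8 : pfC (piC [(nat_lit 37297016), (nat_lit 24651042), (nat_lit 18388512), (nat_lit 12378745)] (nat_lit 10584306)) p15_26_1 (nat_lit 4) (nat_lit 8) (nat_lit 9) = true := by decide +kernel
def p15_26_1_9 : pfC (piC [(nat_lit 37297016), (nat_lit 24651042), (nat_lit 18388512), (nat_lit 12378745)] (nat_lit 10584306)) p15_26_1 (nat_lit 4) (nat_lit 9) (nat_lit 10) = true := by decide +kernel
def p15_26_1_10 : pfC (piC [(nat_lit 37297016), (nat_lit 24651042), (nat_lit 18388512), (nat_lit 12378745)] (nat_lit 10584306)) p15_26_1 (nat_lit 4) (nat_lit 10) (nat_lit 11) = true := by decide +kernel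
def p15_26_1_11 : pfC (piC [(nat_lit 37297016), (nat_lit 24651042), (nat_lit 18388512), (nat_lit 12378745)] (nat_lit 10584306)) p15_26_1 (nat_lit 4) (nat_lit 11) (nat_lit 12) = true := by decide +kernel
def p15_26_1_12 : pfC (piC [(nat_lit 37297016), (nat_lit 24651042), (nat_lit 18388512), (nat_lit 12378745)] (nat_lit 10584306)) p15_26_1 (nat_lit 4) (nat_lit 12) (nat_lit 13) = true := by decide +kernel
def p15_26_1_13 : pfC (piC [(nat_lit 37297016), (nat_lit 24651042), (nat_lit 18388512), (nat_lit 12378745)] (nat_lit 10584306)) p15_26_1 (nat_lit 4) (nat_lit 13) (nat_lit 14) = true := by decide +kernel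
def p15_26_1_14 : pfC (piC [(nat_lit 37297016), (nat_lit 24651042), (nat_lit 18388512), (nat_lit 12378745)] (nat_lit 10584306)) p15_26_1 (nat_lit 4) (nat_lit 14) (nat_lit 15) = true := by decide +kernel
def p15_26_1_15 : pfC (piC [(nat_lit 37297016), (nat_lit 24651042), (nat_lit 18388512), (nat_lit 12378745)] (nat_lit 10584306)) p15_26_1 (nat_lit 4) (nat_lit 15) (nat_lit 16) = true := by decide +kernel
def p15_26_1_16 : pfC (piC [(nat_lit 37297016), (nat_lit 24651042), (nat_lit 18388512), (nat_lit 12378745)] (nat_lit 10584306)) p15_26_1 (nat_lit 4) (nat_lit 16) (nat_lit 17) = true := by decide +kernel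
def p15_26_1_17 : pfC (piC [(nat_lit 37297016), (nat_lit 24651042), (nat_lit 18388512), (nat_lit 12378745)] (nat_lit 10584306)) p15_26_1 (nat_lit 4) (nat_lit 17) (nat_lit 18) = true := by decide +kernel
def p15_26_1_18 : pfC (piC [(nat_lit 37297016), (nat_lit 24651042), (nat_lit 18388512), (nat_lit 12378745)] (nat_lit 10584306)) p15_26_1 (nat_lit 4) (nat_lit 18) (nat_lit 19) = true := by decide +kernel
def p15_26_1_19 : pfC (piC [(nat_lit 37297016), (nat_lit 24651042), (nat_lit 18388512), (nat_lit 12378745)] (nat_lit 10584306)) p15_26_1 (nat_lit 4) (nat_lit 19) (nat_lit 20) = true := by decide +kernel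
def p15_26_1_20 : pfC (piC [(nat_lit 37297016), (nat_lit 24651042), (nat_lit 18388512), (nat_lit 12378745)] (nat_lit 10584306)) p15_26_1 (nat_lit 4) (nat_lit 20) (nat_lit 21) = true := by decide +kernel
def p15_26_1_21 : pfC (piC [(nat_lit 37297016), (nat_lit 24651042), (nat_lit 18388512), (nat_lit 12378745)] (nat_lit 10584306)) p15_26_1 (nat_lit 4) (nat_lit 21) (nat_lit 22) = true := by decide +kernel
def p15_26_1_22 : pfC (piC [(nat_lit 37297016), (nat_lit 24651042), (nat_lit 18388512), (nat_lit 12378745)] (nat_lit 10584306)) p15_26_1 (nat_lit 4) (nat_lit 22) (nat_lit 23) = true := by decide +kernel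
def p15_26_1_23 : pfC (piC [(nat_lit 37297016), (nat_lit 24651042), (nat_lit 18388512), (nat_lit 12378745)] (nat_lit 10584306)) p15_26_1 (nat_lit 4) (nat_lit 23) (nat_lit 24) = true := by decide +kernel
def p15_26_1_24 : pfC (piC [(nat_lit 37297016), (nat_lit 24651042), (nat_lit 18388512), (nat_lit 12378745)] (nat_lit 10584306)) p15_26_1 (nat_lit 4) (nat_lit 24) (nat_lit 25) = true := by decide +kernel
def p15_26_1_25 : pfC (piC [(nat_lit 37297016), (nat_lit 24651042), (nat_lit 18388512), (nat_lit 12378745)] (nat_lit 10584306)) p15_26_1 (nat_lit 4) (nat_lit 25) (nat_lit 26) = true := by decide +kernel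
def p15_26_1_26 : pfC (piC [(nat_lit 37297016), (nat_lit 24651042), (nat_lit 18388512), (nat_lit 12378745)] (nat_lit 10584306)) p15_26_1 (nat_lit 4) (nat_lit 26) (nat_lit 27) = true := by decide +kernel
def p15_26_1_27 : pfC (piC [(nat_lit 37297016), (nat_lit 24651042), (nat_lit 18388512), (nat_lit 12378745)] (nat_lit 10584306)) p15_26_1 (nat_lit 4) (nat_lit 27) (nat_lit 28) = true := by decide +kernel
def p15_26_1_28 : pfC (piC [(nat_lit 37297016), (nat_lit 24651042), (nat_lit 18388512), (nat_lit 12378745)] (nat_lit 10584306)) p15_26_1 (nat_lit 4) (nat_lit 28) (nat_lit 29) = true := by decide +kernel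
def p15_26_1_29 : pfC (piC [(nat_lit 37297016), (nat_lit 24651042), (nat_lit 18388512), (nat_lit 12378745)] (nat_lit 10584306)) p15_26_1 (nat_lit 4) (nat_lit 29) (nat_lit 30) = true := by decide +kernel
def p15_26_1_30 : pfC (piC [(nat_lit 37297016), (nat_lit 24651042), (nat_lit 18388512), (nat_lit 12378745)] (nat_lit 10584306)) p15_26_1 (nat_lit 4) (nat_lit 30) (nat_lit 31) = true := by decide +kernel
def p15_26_1_31 : pfC (piC [(nat_lit 37297016), (nat_lit 24651042), (nat_lit 18388512), (nat_lit 12378745)] (nat_lit 10584306)) p15_26_1 (nat_lit 4) (nat_lit 31) (nat_lit 32) = true := by decide +kernel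
def p15_26_1_32 : pfC (piC [(nat_lit 37297016), (nat_lit 24651042), (nat_lit 18388512), (nat_lit 12378745)] (nat_lit 10584306)) p15_26_1 (nat_lit 4) (nat_lit 32) (nat_lit 33) = true := by decide +kernel
def p15_26_1_33 : pfC (piC [(nat_lit 37297016), (nat_lit 24651042), (nat_lit 18388512), (nat_lit 12378745)] (nat_lit 10584306)) p15_26_1 (nat_lit 4) (nat_lit 33) (nat_lit 34) = true := by decide +kernel
def p15_26_1_34 : pfC (piC [(nat_lit 37297016), (nat_lit 24651042), (nat_lit 18388512), (nat_lit 12378745)] (nat_lit 10584306)) p15_26_1 (nat_lit 4) (nat_lit 34) (nat_lit 35) = true := by decide +kernel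
def p15_26_1_35 : pfC (piC [(nat_lit 37297016), (nat_lit 24651042), (nat_lit 18388512), (nat_lit 12378745)] (nat_lit 10584306)) p15_26_1 (nat_lit 4) (nat_lit 35) (nat_lit 36) = true := by decide +kernel
def p15_26_1_36 : pfC (piC [(nat_lit 37297016), (nat_lit 24651042), (nat_lit 18388512), (nat_lit 12378745)] (nat_lit 10584306)) p15_26_1 (nat_lit 4) (nat_lit 36) (nat_lit 37) = true := by decide +kernel
def p15_26_1_37 : pfC (piC [(nat_lit 37297016), (nat_lit 24651042), (nat_lit 18388512), (nat_lit 12378745)] (nat_lit 10584306)) p15_26_1 (nat_lit 4) (nat_lit 37) (nat_lit 38) = true := by decide +kernel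
def p15_26_1_38 : pfC (piC [(nat_lit 37297016), (nat_lit 24651042), (nat_lit 18388512), (nat_lit 12378745)] (nat_lit 10584306)) p15_26_1 (nat_lit 4) (nat_lit 38) (nat_lit 39) = true := by decide +kernel
def p15_26_1_39 : pfC (piC [(nat_lit 37297016), (nat_lit 24651042), (nat_lit 18388512), (nat_lit 12378745)] (nat_lit 10584306)) p15_26_1 (nat_lit 4) (nat_lit 39) (nat_lit 40) = true := by decide +kernel
def p15_26_1_40 : pfC (piC [(nat_lit 37297016), (nat_lit 24651042), (nat_lit 18388512), (nat_lit 12378745)] (nat_lit 10584306)) p15_26_1 (nat_lit 4) (nat_lit 40) (nat_lit 41) = true := by decide +kernel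
def p15_26_1_41 : pfC (piC [(nat_lit 37297016), (nat_lit 24651042), (nat_lit 18388512), (nat_lit 12378745)] (nat_lit 10584306)) p15_26_1 (nat_lit 4) (nat_lit 41) (nat_lit 42) = true := by decide +kernel
def p15_26_1_42 : pfC (piC [(nat_lit 37297016), (nat_lit 24651042), (nat_lit 18388512), (nat_lit 12378745)] (nat_lit 10584306)) p15_26_1 (nat_lit 4) (nat_lit 42) (nat_lit 43) = true := by decide +kernel
def p15_26_1_43 : pfC (piC [(nat_lit 37297016), (nat_lit 24651042), (nat_lit 18388512), (nat_lit 12378745)] (nat_lit 10584306)) p15_26_1 (nat_lit 4) (nat_lit 43) (nat_lit 44) = true := by decide +kernel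
def p15_26_1_44 : pfC (piC [(nat_lit 37297016), (nat_lit 24651042), (nat_lit 18388512), (nat_lit 12378745)] (nat_lit 10584306)) p15_26_1 (nat_lit 4) (nat_lit 44) (nat_lit 45) = true := by decide +kernel
def p15_26_1_45 : pfC (piC [(nat_lit 37297016), (nat_lit 24651042), (nat_lit 18388512), (nat_lit 12378745)] (nat_lit 10584306)) p15_26_1 (nat_lit 4) (nat_lit 45) (nat_lit 46) = true := by decide +kernel
def p15_26_1_46 : pfC (piC [(nat_lit 37297016), (nat_lit 24651042), (nat_lit 18388512), (nat_lit 12378745)] (nat_lit 10584306)) p15_26_1 (nat_lit 4) (nat_lit 46) (nat_lit 47) = true := by decide +kernel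
def p15_26_1_47 : pfC (piC [(nat_lit 37297016), (nat_lit 24651042), (nat_lit 18388512), (nat_lit 12378745)] (nat_lit 10584306)) p15_26_1 (nat_lit 4) (nat_lit 47) (nat_lit 48) = true := by decide +kernel
def p15_26_1_48 : pfC (piC [(nat_lit 37297016), (nat_lit 24651042), (nat_lit 18388512), (nat_lit 12378745)] (nat_lit 10584306)) p15_26_1 (nat_lit 4) (nat_lit 48) (nat_lit 49) = true := by decide +kernel
def p15_26_1_49 : pfC (piC [(nat_lit 37297016), (nat_lit 24651042), (nat_lit 18388512), (nat_lit 12378745)] (nat_lit 10584306)) p15_26_1 (nat_lit 4) (nat_lit 49) (nat_lit 50) = true := by decide +kernel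
def p15_26_1_50 : pfC (piC [(nat_lit 37297016), (nat_lit 24651042), (nat_lit 18388512), (nat_lit 12378745)] (nat_lit 10584306)) p15_26_1 (nat_lit 4) (nat_lit 50) (nat_lit 51) = true := by decide +kernel
def p15_26_1_51 : pfC (piC [(nat_lit 37297016), (nat_lit 24651042), (nat_lit 18388512), (nat_lit 12378745)] (nat_lit 10584306)) p15_26_1 (nat_lit 4) (nat_lit 51) (nat_lit 52) = true := by decide +kernel
def p15_26_1_52 : pfC (piC [(nat_lit 37297016), (nat_lit 24651042), (nat_lit 18388512), (nat_lit 12378745)] (nat_lit 10584306)) p15_26_1 (nat_lit 4) (nat_lit 52) (nat_lit 53) = true := by decide +kernel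
def p15_26_1_53 : pfC (piC [(nat_lit 37297016), (nat_lit 24651042), (nat_lit 18388512), (nat_lit 12378745)] (nat_lit 10584306)) p15_26_1 (nat_lit 4) (nat_lit 53) (nat_lit 54) = true := by decide +kernel
def p15_26_1_54 : pfC (piC [(nat_lit 37297016), (nat_lit 24651042), (nat_lit 18388512), (nat_lit 12378745)] (nat_lit 10584306)) p15_26_1 (nat_lit 4) (nat_lit 54) (nat_lit 55) = true := by decide +kernel
def p15_26_1_55 : pfC (piC [(nat_lit 37297016), (nat_lit 24651042), (nat_lit 18388512), (nat_lit 12378745)] (nat_lit 10584306)) p15_26_1 (nat_lit 4) (nat_lit 55) (nat_lit 56) = true := by decide +kernel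
def p15_26_1_56 : pfC (piC [(nat_lit 37297016), (nat_lit 24651042), (nat_lit 18388512), (nat_lit 12378745)] (nat_lit 10584306)) p15_26_1 (nat_lit 4) (nat_lit 56) (nat_lit 57) = true := by decide +kernel
def p15_26_1_57 : pfC (piC [(nat_lit 37297016), (nat_lit 24651042), (nat_lit 18388512), (nat_lit 12378745)] (nat_lit 10584306)) p15_26_1 (nat_lit 4) (nat_lit 57) (nat_lit 58) = true := by decide +kernel
def p15_26_1_58 : pfC (piC [(nat_lit 37297016), (nat_lit 24651042), (nat_lit 18388512), (nat_lit 12378745)] (nat_lit 10584306)) p15_26_1 (nat_lit 4) (nat_lit 58) (nat_lit 59) = true := by decide +kernel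
def p15_26_1_59 : pfC (piC [(nat_lit 37297016), (nat_lit 24651042), (nat_lit 18388512), (nat_lit 12378745)] (nat_lit 10584306)) p15_26_1 (nat_lit 4) (nat_lit 59) (nat_lit 60) = true := by decide +kernel
def p15_26_1_60 : pfC (piC [(nat_lit 37297016), (nat_lit 24651042), (nat_lit 18388512), (nat_lit 12378745)] (nat_lit 10584306)) p15_26_1 (nat_lit 4) (nat_lit 60) (nat_lit 61) = true := by decide +kernel
def p15_26_1_61 : pfC (piC [(nat_lit 37297016), (nat_lit 24651042), (nat_lit 18388512), (nat_lit 12378745)] (nat_lit 10584306)) p15_26_1 (nat_lit 4) (nat_lit 61) (nat_lit 62) = true := by decide +kernel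
def p15_26_1_62 : pfC (piC [(nat_lit 37297016), (nat_lit 24651042), (nat_lit 18388512), (nat_lit 12378745)] (nat_lit 10584306)) p15_26_1 (nat_lit 4) (nat_lit 62) (nat_lit 63) = true := by decide +kernel
def p15_26_1_63 : pfC (piC [(nat_lit 37297016), (nat_lit 24651042), (nat_lit 18388512), (nat_lit 12378745)] (nat_lit 10584306)) p15_26_1 (nat_lit 4) (nat_lit 63) (nat_lit 64) = true := by decide +kernel
def p15_26_1_64 : pfC (piC [(nat_lit 37297016), (nat_lit 24651042), (nat_lit 18388512), (nat_lit 12378745)] (nat_lit 10584306)) p15_26_1 (nat_lit 4) (nat_lit 64) (nat_lit 65) = true := by decide +kernel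
def p15_26_1_65 : pfC (piC [(nat_lit 37297016), (nat_lit 24651042), (nat_lit 18388512), (nat_lit 12378745)] (nat_lit 10584306)) p15_26_1 (nat_lit 4) (nat_lit 65) (nat_lit 66) = true := by decide +kernel
def p15_26_1_66 : pfC (piC [(nat_lit 37297016), (nat_lit 24651042), (nat_lit 18388512), (nat_lit 12378745)] (nat_lit 10584306)) p15_26_1 (nat_lit 4) (nat_lit 66) (nat_lit 67) = true := by decide +kernel
def p15_26_1_67 : pfC (piC [(nat_lit 37297016), (nat_lit 24651042), (nat_lit 18388512), (nat_lit 12378745)] (nat_lit 10584306)) p15_26_1 (nat_lit 4) (nat_lit 67) (nat_lit 68) = true := by decide +kernel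
def p15_26_1_68 : pfC (piC [(nat_lit 37297016), (nat_lit 24651042), (nat_lit 18388512), (nat_lit 12378745)] (nat_lit 10584306)) p15_26_1 (nat_lit 4) (nat_lit 68) (nat_lit 69) = true := by decide +kernel
def p15_26_1_69 : pfC (piC [(nat_lit 37297016), (nat_lit 24651042), (nat_lit 18388512), (nat_lit 12378745)] (nat_lit 10584306)) p15_26_1 (nat_lit 4) (nat_lit 69) (nat_lit 70) = true := by decide +kernel
def p15_26_1_70 : pfC (piC [(nat_lit 37297016), (nat_lit 24651042), (nat_lit 18388512), (nat_lit 12378745)] (nat_lit 10584306)) p15_26_1 (nat_lit 4) (nat_lit 70) (nat_lit 71) = true := by decide +kernel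
def p15_26_1_71 : pfC (piC [(nat_lit 37297016), (nat_lit 24651042), (nat_lit 18388512), (nat_lit 12378745)] (nat_lit 10584306)) p15_26_1 (nat_lit 4) (nat_lit 71) (nat_lit 72) = true := by decide +kernel
def p15_26_1_72 : pfC (piC [(nat_lit 37297016), (nat_lit 24651042), (nat_lit 18388512), (nat_lit 12378745)] (nat_lit 10584306)) p15_26_1 (nat_lit 4) (nat_lit 72) (nat_lit 73) = true := by decide +kernel
def p15_26_1_73 : pfC (piC [(nat_lit 37297016), (nat_lit 24651042), (nat_lit 18388512), (nat_lit 12378745)] (nat_lit 10584306)) p15_26_1 (nat_lit 4) (nat_lit 73) (nat_lit 74) = true := by decide +kernel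
def p15_26_1_74 : pfC (piC [(nat_lit 37297016), (nat_lit 24651042), (nat_lit 18388512), (nat_lit 12378745)] (nat_lit 10584306)) p15_26_1 (nat_lit 4) (nat_lit 74) (nat_lit 75) = true := by decide +kernel
def p15_26_1_75 : pfC (piC [(nat_lit 37297016), (nat_lit 24651042), (nat_lit 18388512), (nat_lit 12378745)] (nat_lit 10584306)) p15_26_1 (nat_lit 4) (nat_lit 75) (nat_lit 76) = true := by decide +kernel
def p15_26_1_76 : pfC (piC [(nat_lit 37297016), (nat_lit 24651042), (nat_lit 18388512), (nat_lit 12378745)] (nat_lit 10584306)) p15_26_1 (nat_lit 4) (nat_lit 76) (nat_lit 77) = true := by decide +kernel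
def p15_26_1_77 : pfC (piC [(nat_lit 37297016), (nat_lit 24651042), (nat_lit 18388512), (nat_lit 12378745)] (nat_lit 10584306)) p15_26_1 (nat_lit 4) (nat_lit 77) (nat_lit 78) = true := by decide +kernel
def p15_26_1_78 : pfC (piC [(nat_lit 37297016), (nat_lit 24651042), (nat_lit 18388512), (nat_lit 12378745)] (nat_lit 10584306)) p15_26_1 (nat_lit 4) (nat_lit 78) (nat_lit 79) = true := by decide +kernel
def p15_26_1_79 : pfC (piC [(nat_lit 37297016), (nat_lit 24651042), (nat_lit 18388512), (nat_lit 12378745)] (nat_lit 10584306)) p15_26_1 (nat_lit 4) (nat_lit 79) (nat_lit 80) = true := by decide +kernel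
def p15_26_1_80 : pfC (piC [(nat_lit 37297016), (nat_lit 24651042), (nat_lit 18388512), (nat_lit 12378745)] (nat_lit 10584306)) p15_26_1 (nat_lit 4) (nat_lit 80) (nat_lit 81) = true := by decide +kernel
def p15_26_1_81 : pfC (piC [(nat_lit 37297016), (nat_lit 24651042), (nat_lit 18388512), (nat_lit 12378745)] (nat_lit 10584306)) p15_26_1 (nat_lit 4) (nat_lit 81) (nat_lit 82) = true := by decide +kernel
def p15_26_1_82 : pfC (piC [(nat_lit 37297016), (nat_lit 24651042), (nat_lit 18388512), (nat_lit 12378745)] (nat_lit 10584306)) p15_26_1 (nat_lit 4) (nat_lit 82) (nat_lit 83) = true := by decide +kernel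
def p15_26_1_83 : pfC (piC [(nat_lit 37297016), (nat_lit 24651042), (nat_lit 18388512), (nat_lit 12378745)] (nat_lit 10584306)) p15_26_1 (nat_lit 4) (nat_lit 83) (nat_lit 84) = true := by decide +kernel
def p15_26_1_84 : pfC (piC [(nat_lit 37297016), (nat_lit 24651042), (nat_lit 18388512), (nat_lit 12378745)] (nat_lit 10584306)) p15_26_1 (nat_lit 4) (nat_lit 84) (nat_lit 85) = true := by decide +kernel
def p15_26_1_85 : pfC (piC [(nat_lit 37297016), (nat_lit 24651042), (nat_lit 18388512), (nat_lit 12378745)] (nat_lit 10584306)) p15_26_1 (nat_lit 4) (nat_lit 85) (nat_lit 86) = true := by decide +kernel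
def p15_26_1_86 : pfC (piC [(nat_lit 37297016), (nat_lit 24651042), (nat_lit 18388512), (nat_lit 12378745)] (nat_lit 10584306)) p15_26_1 (nat_lit 4) (nat_lit 86) (nat_lit 87) = true := by decide +kernel
def p15_26_1_87 : pfC (piC [(nat_lit 37297016), (nat_lit 24651042), (nat_lit 18388512), (nat_lit 12378745)] (nat_lit 10584306)) p15_26_1 (nat_lit 4) (nat_lit 87) (nat_lit 88) = true := by decide +kernel
def p15_26_1_88 : pfC (piC [(nat_lit 37297016), (nat_lit 24651042), (nat_lit 18388512), (nat_lit 12378745)] (nat_lit 10584306)) p15_26_1 (nat_lit 4) (nat_lit 88) (nat_lit 89) = true := by decide +kernel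
def p15_26_1_89 : pfC (piC [(nat_lit 37297016), (nat_lit 24651042), (nat_lit 18388512), (nat_lit 12378745)] (nat_lit 10584306)) p15_26_1 (nat_lit 4) (nat_lit 89) (nat_lit 90) = true := by decide +kernel
def p15_26_1_90 : pfC (piC [(nat_lit 37297016), (nat_lit 24651042), (nat_lit 18388512), (nat_lit 12378745)] (nat_lit 10584306)) p15_26_1 (nat_lit 4) (nat_lit 90) (nat_lit 91) = true := by decide +kernel
def p15_26_1_91 : pfC (piC [(nat_lit 37297016), (nat_lit 24651042), (nat_lit 18388512), (nat_lit 12378745)] (nat_lit 10584306)) p15_26_1 (nat_lit 4) (nat_lit 91) (nat_lit 92) = true := by decide +kernel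
def p15_26_1_92 : pfC (piC [(nat_lit 37297016), (nat_lit 24651042), (nat_lit 18388512), (nat_lit 12378745)] (nat_lit 10584306)) p15_26_1 (nat_lit 4) (nat_lit 92) (nat_lit 93) = true := by decide +kernel
def p15_26_1_93 : pfC (piC [(nat_lit 37297016), (nat_lit 24651042), (nat_lit 18388512), (nat_lit 12378745)] (nat_lit 10584306)) p15_26_1 (nat_lit 4) (nat_lit 93) (nat_lit 94) = true := by decide +kernel
def p15_26_1_94 : pfC (piC [(nat_lit 37297016), (nat_lit 24651042), (nat_lit 18388512), (nat_lit 12378745)] (nat_lit 10584306)) p15_26_1 (nat_lit 4) (nat_lit 94) (nat_lit 95) = true := by decide +kernel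
def p15_26_1_95 : pfC (piC [(nat_lit 37297016), (nat_lit 24651042), (nat_lit 18388512), (nat_lit 12378745)] (nat_lit 10584306)) p15_26_1 (nat_lit 4) (nat_lit 95) (nat_lit 96) = true := by decide +kernel
def p15_26_1_96 : pfC (piC [(nat_lit 37297016), (nat_lit 24651042), (nat_lit 18388512), (nat_lit 12378745)] (nat_lit 10584306)) p15_26_1 (nat_lit 4) (nat_lit 96) (nat_lit 97) = true := by decide +kernel
def p15_26_1_97 : pfC (piC [(nat_lit 37297016), (nat_lit 24651042), (nat_lit 18388512), (nat_lit 12378745)] (nat_lit 10584306)) p15_26_1 (nat_lit 4) (nat_lit 97) (nat_lit 98) = true := by decide +kernel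
def p15_26_1_98 : pfC (piC [(nat_lit 37297016), (nat_lit 24651042), (nat_lit 18388512), (nat_lit 12378745)] (nat_lit 10584306)) p15_26_1 (nat_lit 4) (nat_lit 98) (nat_lit 99) = true := by decide +kernel
def p15_26_1_99 : pfC (piC [(nat_lit 37297016), (nat_lit 24651042), (nat_lit 18388512), (nat_lit 12378745)] (nat_lit 10584306)) p15_26_1 (nat_lit 4) (nat_lit 99) (nat_lit 100) = true := by decide +kernel
def p15_26_1_100 : pfC (piC [(nat_lit 37297016), (nat_lit 24651042), (nat_lit 18388512), (nat_lit 12378745)] (nat_lit 10584306)) p15_26_1 (nat_lit 4) (nat_lit 100) (nat_lit 101) = true := by decide +kernel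
def p15_26_1_101 : pfC (piC [(nat_lit 37297016), (nat_lit 24651042), (nat_lit 18388512), (nat_lit 12378745)] (nat_lit 10584306)) p15_26_1 (nat_lit 4) (nat_lit 101) (nat_lit 102) = true := by decide +kernel
def p15_26_1_102 : pfC (piC [(nat_lit 37297016), (nat_lit 24651042), (nat_lit 18388512), (nat_lit 12378745)] (nat_lit 10584306)) p15_26_1 (nat_lit 4) (nat_lit 102) (nat_lit 103) = true := by decide +kernel
def p15_26_1_103 : pfC (piC [(nat_lit 37297016), (nat_lit 24651042), (nat_lit 18388512), (nat_lit 12378745)] (nat_lit 10584306)) p15_26_1 (nat_lit 4) (nat_lit 103) (nat_lit 104) = true := by decide +kernel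
def p15_26_1_104 : pfC (piC [(nat_lit 37297016), (nat_lit 24651042), (nat_lit 18388512), (nat_lit 12378745)] (nat_lit 10584306)) p15_26_1 (nat_lit 4) (nat_lit 104) (nat_lit 105) = true := by decide +kernel
def p15_26_1_105 : pfC (piC [(nat_lit 37297016), (nat_lit 24651042), (nat_lit 18388512), (nat_lit 12378745)] (nat_lit 10584306)) p15_26_1 (nat_lit 4) (nat_lit 105) (nat_lit 106) = true := by decide +kernel
def p15_26_1_106 : pfC (piC [(nat_lit 37297016), (nat_lit 24651042), (nat_lit 18388512), (nat_lit 12378745)] (nat_lit 10584306)) p15_26_1 (nat_lit 4) (nat_lit 106) (nat_lit 107) = true := by decide +kernel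
def p15_26_1_107 : pfC (piC [(nat_lit 37297016), (nat_lit 24651042), (nat_lit 18388512), (nat_lit 12378745)] (nat_lit 10584306)) p15_26_1 (nat_lit 4) (nat_lit 107) (nat_lit 108) = true := by decide +kernel
def p15_26_1_108 : pfC (piC [(nat_lit 37297016), (nat_lit 24651042), (nat_lit 18388512), (nat_lit 12378745)] (nat_lit 10584306)) p15_26_1 (nat_lit 4) (nat_lit 108) (nat_lit 109) = true := by decide +kernel
def p15_26_1_109 : pfC (piC [(nat_lit 37297016), (nat_lit 24651042), (nat_lit 18388512), (nat_lit 12378745)] (nat_lit 10584306)) p15_26_1 (nat_lit 4) (nat_lit 109) (nat_lit 110) = true := by decide +kernel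
def p15_26_1_110 : pfC (piC [(nat_lit 37297016), (nat_lit 24651042), (nat_lit 18388512), (nat_lit 12378745)] (nat_lit 10584306)) p15_26_1 (nat_lit 4) (nat_lit 110) (nat_lit 111) = true := by decide +kernel
def p15_26_1_111 : pfC (piC [(nat_lit 37297016), (nat_lit 24651042), (nat_lit 18388512), (nat_lit 12378745)] (nat_lit 10584306)) p15_26_1 (nat_lit 4) (nat_lit 111) (nat_lit 112) = true := by decide +kernel
def p15_26_1_112 : pfC (piC [(nat_lit 37297016), (nat_lit 24651042), (nat_lit 18388512), (nat_lit 12378745)] (nat_lit 10584306)) p15_26_1 (nat_lit 4) (nat_lit 112) (nat_lit 113) = true := by decide +kernel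
def p15_26_1_113 : pfC (piC [(nat_lit 37297016), (nat_lit 24651042), (nat_lit 18388512), (nat_lit 12378745)] (nat_lit 10584306)) p15_26_1 (nat_lit 4) (nat_lit 113) (nat_lit 114) = true := by decide +kernel
def p15_26_1_114 : pfC (piC [(nat_lit 37297016), (nat_lit 24651042), (nat_lit 18388512), (nat_lit 12378745)] (nat_lit 10584306)) p15_26_1 (nat_lit 4) (nat_lit 114) (nat_lit 115) = true := by decide +kernel
def p15_26_1_115 : pfC (piC [(nat_lit 37297016), (nat_lit 24651042), (nat_lit 18388512), (nat_lit 12378745)] (nat_lit 10584306)) p15_26_1 (nat_lit 4) (nat_lit 115) (nat_lit 116) = true := by decide +kernel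
def p15_26_1_116 : pfC (piC [(nat_lit 37297016), (nat_lit 24651042), (nat_lit 18388512), (nat_lit 12378745)] (nat_lit 10584306)) p15_26_1 (nat_lit 4) (nat_lit 116) (nat_lit 117) = true := by decide +kernel
def p15_26_1_117 : pfC (piC [(nat_lit 37297016), (nat_lit 24651042), (nat_lit 18388512), (nat_lit 12378745)] (nat_lit 10584306)) p15_26_1 (nat_lit 4) (nat_lit 117) (nat_lit 118) = true := by decide +kernel
def p15_26_1_118 : pfC (piC [(nat_lit 37297016), (nat_lit 24651042), (nat_lit 18388512), (nat_lit 12378745)] (nat_lit 10584306)) p15_26_1 (nat_lit 4) (nat_lit 118) (nat_lit 119) = true := by decide +kernel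
def p15_26_1_119 : pfC (piC [(nat_lit 37297016), (nat_lit 24651042), (nat_lit 18388512), (nat_lit 12378745)] (nat_lit 10584306)) p15_26_1 (nat_lit 4) (nat_lit 119) (nat_lit 120) = true := by decide +kernel
def p15_26_1_120 : pfC (piC [(nat_lit 37297016), (nat_lit 24651042), (nat_lit 18388512), (nat_lit 12378745)] (nat_lit 10584306)) p15_26_1 (nat_lit 4) (nat_lit 120) (nat_lit 121) = true := by decide +kernel
def p15_26_1_121 : pfC (piC [(nat_lit 37297016), (nat_lit 24651042), (nat_lit 18388512), (nat_lit 12378745)] (nat_lit 10584306)) p15_26_1 (nat_lit 4) (nat_lit 121) (nat_lit 122) = true := by decide +kernel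
def p15_26_1_122 : pfC (piC [(nat_lit 37297016), (nat_lit 24651042), (nat_lit 18388512), (nat_lit 12378745)] (nat_lit 10584306)) p15_26_1 (nat_lit 4) (nat_lit 122) (nat_lit 123) = true := by decide +kernel
def p15_26_1_123 : pfC (piC [(nat_lit 37297016), (nat_lit 24651042), (nat_lit 18388512), (nat_lit 12378745)] (nat_lit 10584306)) p15_26_1 (nat_lit 4) (nat_lit 123) (nat_lit 124) = true := by decide +kernel
def p15_26_1_124 : pfC (piC [(nat_lit 37297016), (nat_lit 24651042), (nat_lit 18388512), (nat_lit 12378745)] (nat_lit 10584306)) p15_26_1 (nat_lit 4) (nat_lit 124) (nat_lit 125) = true := by decide +kernel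
def p15_26_1_125 : pfC (piC [(nat_lit 37297016), (nat_lit 24651042), (nat_lit 18388512), (nat_lit 12378745)] (nat_lit 10584306)) p15_26_1 (nat_lit 4) (nat_lit 125) (nat_lit 126) = true := by decide +kernel
def p15_26_1_126 : pfC (piC [(nat_lit 37297016), (nat_lit 24651042), (nat_lit 18388512), (nat_lit 12378745)] (nat_lit 10584306)) p15_26_1 (nat_lit 4) (nat_lit 126) (nat_lit 127) = true := by decide +kernel
def p15_26_1_127 : pfC (piC [(nat_lit 37297016), (nat_lit 24651042), (nat_lit 18388512), (nat_lit 12378745)] (nat_lit 10584306)) p15_26_1 (nat_lit 4) (nat_lit 127) (nat_lit 128) = true := by decide +kernel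
def p15_26_1_128 : pfC (piC [(nat_lit 37297016), (nat_lit 24651042), (nat_lit 18388512), (nat_lit 12378745)] (nat_lit 10584306)) p15_26_1 (nat_lit 4) (nat_lit 128) (nat_lit 129) = true := by decide +kernel
def p15_26_1_129 : pfC (piC [(nat_lit 37297016), (nat_lit 24651042), (nat_lit 18388512), (nat_lit 12378745)] (nat_lit 10584306)) p15_26_1 (nat_lit 4) (nat_lit 129) (nat_lit 130) = true := by decide +kernel
def p15_26_1_130 : pfC (piC [(nat_lit 37297016), (nat_lit 24651042), (nat_lit 18388512), (nat_lit 12378745)] (nat_lit 10584306)) p15_26_1 (nat_lit 4) (nat_lit 130) (nat_lit 131) = true := by decide +kernel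
def p15_26_1_131 : pfC (piC [(nat_lit 37297016), (nat_lit 24651042), (nat_lit 18388512), (nat_lit 12378745)] (nat_lit 10584306)) p15_26_1 (nat_lit 4) (nat_lit 131) (nat_lit 132) = true := by decide +kernel
def p15_26_1_132 : pfC (piC [(nat_lit 37297016), (nat_lit 24651042), (nat_lit 18388512), (nat_lit 12378745)] (nat_lit 10584306)) p15_26_1 (nat_lit 4) (nat_lit 132) (nat_lit 133) = true := by decide +kernel
def p15_26_1_133 : pfC (piC [(nat_lit 37297016), (nat_lit 24651042), (nat_lit 18388512), (nat_lit 12378745)] (nat_lit 10584306)) p15_26_1 (nat_lit 4) (nat_lit 133) (nat_lit 134) = true := by decide +kernel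
def p15_26_1_134 : pfC (piC [(nat_lit 37297016), (nat_lit 24651042), (nat_lit 18388512), (nat_lit 12378745)] (nat_lit 10584306)) p15_26_1 (nat_lit 4) (nat_lit 134) (nat_lit 135) = true := by decide +kernel
def p15_26_1_135 : pfC (piC [(nat_lit 37297016), (nat_lit 24651042), (nat_lit 18388512), (nat_lit 12378745)] (nat_lit 10584306)) p15_26_1 (nat_lit 4) (nat_lit 135) (nat_lit 136) = true := by decide +kernel
def p15_26_1_136 : pfC (piC [(nat_lit 37297016), (nat_lit 24651042), (nat_lit 18388512), (nat_lit 12378745)] (nat_lit 10584306)) p15_26_1 (nat_lit 4) (nat_lit 136) (nat_lit 137) = true := by decide +kernel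
def p15_26_1_137 : pfC (piC [(nat_lit 37297016), (nat_lit 24651042), (nat_lit 18388512), (nat_lit 12378745)] (nat_lit 10584306)) p15_26_1 (nat_lit 4) (nat_lit 137) (nat_lit 138) = true := by decide +kernel
def p15_26_1_138 : pfC (piC [(nat_lit 37297016), (nat_lit 24651042), (nat_lit 18388512), (nat_lit 12378745)] (nat_lit 10584306)) p15_26_1 (nat_lit 4) (nat_lit 138) (nat_lit 139) = true := by decide +kernel
def p15_26_1_139 : pfC (piC [(nat_lit 37297016), (nat_lit 24651042), (nat_lit 18388512), (nat_lit 12378745)] (nat_lit 10584306)) p15_26_1 (nat_lit 4) (nat_lit 139) (nat_lit 140) = true := by decide +kernel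
def p15_26_1_140 : pfC (piC [(nat_lit 37297016), (nat_lit 24651042), (nat_lit 18388512), (nat_lit 12378745)] (nat_lit 10584306)) p15_26_1 (nat_lit 4) (nat_lit 140) (nat_lit 141) = true := by decide +kernel
def p15_26_1_141 : pfC (piC [(nat_lit 37297016), (nat_lit 24651042), (nat_lit 18388512), (nat_lit 12378745)] (nat_lit 10584306)) p15_26_1 (nat_lit 4) (nat_lit 141) (nat_lit 142) = true := by decide +kernel
def p15_26_1_142 : pfC (piC [(nat_lit 37297016), (nat_lit 24651042), (nat_lit 18388512), (nat_lit 12378745)] (nat_lit 10584306)) p15_26_1 (nat_lit 4) (nat_lit 142) (nat_lit 143) = true := by decide +kernel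
def p15_26_1_143 : pfC (piC [(nat_lit 37297016), (nat_lit 24651042), (nat_lit 18388512), (nat_lit 12378745)] (nat_lit 10584306)) p15_26_1 (nat_lit 4) (nat_lit 143) (nat_lit 144) = true := by decide +kernel
def p15_26_1_144 : pfC (piC [(nat_lit 37297016), (nat_lit 24651042), (nat_lit 18388512), (nat_lit 12378745)] (nat_lit 10584306)) p15_26_1 (nat_lit 4) (nat_lit 144) (nat_lit 145) = true := by decide +kernel
def p15_26_1_145 : pfC (piC [(nat_lit 37297016), (nat_lit 24651042), (nat_lit 18388512), (nat_lit 12378745)] (nat_lit 10584306)) p15_26_1 (nat_lit 4) (nat_lit 145) (nat_lit 146) = true := by decide +kernel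
def p15_26_1_146 : pfC (piC [(nat_lit 37297016), (nat_lit 24651042), (nat_lit 18388512), (nat_lit 12378745)] (nat_lit 10584306)) p15_26_1 (nat_lit 4) (nat_lit 146) (nat_lit 147) = true := by decide +kernel
def p15_26_1_147 : pfC (piC [(nat_lit 37297016), (nat_lit 24651042), (nat_lit 18388512), (nat_lit 12378745)] (nat_lit 10584306)) p15_26_1 (nat_lit 4) (nat_lit 147) (nat_lit 148) = true := by decide +kernel
def p15_26_1_148 : pfC (piC [(nat_lit 37297016), (nat_lit 24651042), (nat_lit 18388512), (nat_lit 12378745)] (nat_lit 10584306)) p15_26_1 (nat_lit 4) (nat_lit 148) (nat_lit 149) = true := by decide +kernel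
def p15_26_1_149 : pfC (piC [(nat_lit 37297016), (nat_lit 24651042), (nat_lit 18388512), (nat_lit 12378745)] (nat_lit 10584306)) p15_26_1 (nat_lit 4) (nat_lit 149) (nat_lit 150) = true := by decide +kernel
def p15_26_1_150 : pfC (piC [(nat_lit 37297016), (nat_lit 24651042), (nat_lit 18388512), (nat_lit 12378745)] (nat_lit 10584306)) p15_26_1 (nat_lit 4) (nat_lit 150) (nat_lit 151) = true := by decide +kernel
def p15_26_1_151 : pfC (piC [(nat_lit 37297016), (nat_lit 24651042), (nat_lit 18388512), (nat_lit 12378745)] (nat_lit 10584306)) p15_26_1 (nat_lit 4) (nat_lit 151) (nat_lit 152) = true := by decide +kernel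
def p15_26_1_152 : pfC (piC [(nat_lit 37297016), (nat_lit 24651042), (nat_lit 18388512), (nat_lit 12378745)] (nat_lit 10584306)) p15_26_1 (nat_lit 4) (nat_lit 152) (nat_lit 153) = true := by decide +kernel
def p15_26_1_153 : pfC (piC [(nat_lit 37297016), (nat_lit 24651042), (nat_lit 18388512), (nat_lit 12378745)] (nat_lit 10584306)) p15_26_1 (nat_lit 4) (nat_lit 153) (nat_lit 154) = true := by decide +kernel
def p15_26_1_154 : pfC (piC [(nat_lit 37297016), (nat_lit 24651042), (nat_lit 18388512), (nat_lit 12378745)] (nat_lit 10584306)) p15_26_1 (nat_lit 4) (nat_lit 154) (nat_lit 155) = true := by decide +kernel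
def p15_26_1_155 : pfC (piC [(nat_lit 37297016), (nat_lit 24651042), (nat_lit 18388512), (nat_lit 12378745)] (nat_lit 10584306)) p15_26_1 (nat_lit 4) (nat_lit 155) (nat_lit 156) = true := by decide +kernel
def p15_26_1_156 : pfC (piC [(nat_lit 37297016), (nat_lit 24651042), (nat_lit 18388512), (nat_lit 12378745)] (nat_lit 10584306)) p15_26_1 (nat_lit 4) (nat_lit 156) (nat_lit 157) = true := by decide +kernel
def p15_26_1_157 : pfC (piC [(nat_lit 37297016), (nat_lit 24651042), (nat_lit 18388512), (nat_lit 12378745)] (nat_lit 10584306)) p15_26_1 (nat_lit 4) (nat_lit 157) (nat_lit 158) = true := by decide +kernel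
def p15_26_1_158 : pfC (piC [(nat_lit 37297016), (nat_lit 24651042), (nat_lit 18388512), (nat_lit 12378745)] (nat_lit 10584306)) p15_26_1 (nat_lit 4) (nat_lit 158) (nat_lit 159) = true := by decide +kernel
def p15_26_1_159 : pfC (piC [(nat_lit 37297016), (nat_lit 24651042), (nat_lit 18388512), (nat_lit 12378745)] (nat_lit 10584306)) p15_26_1 (nat_lit 4) (nat_lit 159) (nat_lit 160) = true := by decide +kernel
def p15_26_1_160 : pfC (piC [(nat_lit 37297016), (nat_lit 24651042), (nat_lit 18388512), (nat_lit 12378745)] (nat_lit 10584306)) p15_26_1 (nat_lit 4) (nat_lit 160) (nat_lit 161) = true := by decide +kernel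
def p15_26_1_161 : pfC (piC [(nat_lit 37297016), (nat_lit 24651042), (nat_lit 18388512), (nat_lit 12378745)] (nat_lit 10584306)) p15_26_1 (nat_lit 4) (nat_lit 161) (nat_lit 162) = true := by decide +kernel
def p15_26_1_162 : pfC (piC [(nat_lit 37297016), (nat_lit 24651042), (nat_lit 18388512), (nat_lit 12378745)] (nat_lit 10584306)) p15_26_1 (nat_lit 4) (nat_lit 162) (nat_lit 163) = true := by decide +kernel
def p15_26_1_163 : pfC (piC [(nat_lit 37297016), (nat_lit 24651042), (nat_lit 18388512), (nat_lit 12378745)] (nat_lit 10584306)) p15_26_1 (nat_lit 4) (nat_lit 163) (nat_lit 164) = true := by decide +kernel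
def p15_26_1_164 : pfC (piC [(nat_lit 37297016), (nat_lit 24651042), (nat_lit 18388512), (nat_lit 12378745)] (nat_lit 10584306)) p15_26_1 (nat_lit 4) (nat_lit 164) (nat_lit 165) = true := by decide +kernel
def p15_26_1_165 : pfC (piC [(nat_lit 37297016), (nat_lit 24651042), (nat_lit 18388512), (nat_lit 12378745)] (nat_lit 10584306)) p15_26_1 (nat_lit 4) (nat_lit 165) (nat_lit 166) = true := by decide +kernel
def p15_26_1_166 : pfC (piC [(nat_lit 37297016), (nat_lit 24651042), (nat_lit 18388512), (nat_lit 12378745)] (nat_lit 10584306)) p15_26_1 (nat_lit 4) (nat_lit 166) (nat_lit 167) = true := by decide +kernel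
def p15_26_1_167 : pfC (piC [(nat_lit 37297016), (nat_lit 24651042), (nat_lit 18388512), (nat_lit 12378745)] (nat_lit 10584306)) p15_26_1 (nat_lit 4) (nat_lit 167) (nat_lit 168) = true := by decide +kernel
def p15_26_1_168 : pfC (piC [(nat_lit 37297016), (nat_lit 24651042), (nat_lit 18388512), (nat_lit 12378745)] (nat_lit 10584306)) p15_26_1 (nat_lit 4) (nat_lit 168) (nat_lit 169) = true := by decide +kernel
def p15_26_1_169 : pfC (piC [(nat_lit 37297016), (nat_lit 24651042), (nat_lit 18388512), (nat_lit 12378745)] (nat_lit 10584306)) p15_26_1 (nat_lit 4) (nat_lit 169) (nat_lit 170) = true := by decide +kernel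
def p15_26_1_170 : pfC (piC [(nat_lit 37297016), (nat_lit 24651042), (nat_lit 18388512), (nat_lit 12378745)] (nat_lit 10584306)) p15_26_1 (nat_lit 4) (nat_lit 170) (nat_lit 171) = true := by decide +kernel
def p15_26_1_171 : pfC (piC [(nat_lit 37297016), (nat_lit 24651042), (nat_lit 18388512), (nat_lit 12378745)] (nat_lit 10584306)) p15_26_1 (nat_lit 4) (nat_lit 171) (nat_lit 172) = true := by decide +kernel
def p15_26_1_172 : pfC (piC [(nat_lit 37297016), (nat_lit 24651042), (nat_lit 18388512), (nat_lit 12378745)] (nat_lit 10584306)) p15_26_1 (nat_lit 4) (nat_lit 172) (nat_lit 173) = true := by decide +kernel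
def p15_26_1_173 : pfC (piC [(nat_lit 37297016), (nat_lit 24651042), (nat_lit 18388512), (nat_lit 12378745)] (nat_lit 10584306)) p15_26_1 (nat_lit 4) (nat_lit 173) (nat_lit 174) = true := by decide +kernel
def p15_26_1_174 : pfC (piC [(nat_lit 37297016), (nat_lit 24651042), (nat_lit 18388512), (nat_lit 12378745)] (nat_lit 10584306)) p15_26_1 (nat_lit 4) (nat_lit 174) (nat_lit 175) = true := by decide +kernel
def p15_26_1_175 : pfC (piC [(nat_lit 37297016), (nat_lit 24651042), (nat_lit 18388512), (nat_lit 12378745)] (nat_lit 10584306)) p15_26_1 (nat_lit 4) (nat_lit 175) (nat_lit 176) = true := by decide +kernel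
def p15_26_1_176 : pfC (piC [(nat_lit 37297016), (nat_lit 24651042), (nat_lit 18388512), (nat_lit 12378745)] (nat_lit 10584306)) p15_26_1 (nat_lit 4) (nat_lit 176) (nat_lit 177) = true := by decide +kernel
def p15_26_1_177 : pfC (piC [(nat_lit 37297016), (nat_lit 24651042), (nat_lit 18388512), (nat_lit 12378745)] (nat_lit 10584306)) p15_26_1 (nat_lit 4) (nat_lit 177) (nat_lit 178) = true := by decide +kernel
def p15_26_1_178 : pfC (piC [(nat_lit 37297016), (nat_lit 24651042), (nat_lit 18388512), (nat_lit 12378745)] (nat_lit 10584306)) p15_26_1 (nat_lit 4) (nat_lit 178) (nat_lit 179) = true := by decide +kernel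
def p15_26_1_179 : pfC (piC [(nat_lit 37297016), (nat_lit 24651042), (nat_lit 18388512), (nat_lit 12378745)] (nat_lit 10584306)) p15_26_1 (nat_lit 4) (nat_lit 179) (nat_lit 180) = true := by decide +kernel
def p15_26_1_180 : pfC (piC [(nat_lit 37297016), (nat_lit 24651042), (nat_lit 18388512), (nat_lit 12378745)] (nat_lit 10584306)) p15_26_1 (nat_lit 4) (nat_lit 180) (nat_lit 181) = true := by decide +kernel
def p15_26_1_181 : pfC (piC [(nat_lit 37297016), (nat_lit 24651042), (nat_lit 18388512), (nat_lit 12378745)] (nat_lit 10584306)) p15_26_1 (nat_lit 4) (nat_lit 181) (nat_lit 182) = true := by decide +kernel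
def p15_26_1_182 : pfC (piC [(nat_lit 37297016), (nat_lit 24651042), (nat_lit 18388512), (nat_lit 12378745)] (nat_lit 10584306)) p15_26_1 (nat_lit 4) (nat_lit 182) (nat_lit 183) = true := by decide +kernel
def p15_26_1_183 : pfC (piC [(nat_lit 37297016), (nat_lit 24651042), (nat_lit 18388512), (nat_lit 12378745)] (nat_lit 10584306)) p15_26_1 (nat_lit 4) (nat_lit 183) (nat_lit 184) = true := by decide +kernel
def p15_26_1_184 : pfC (piC [(nat_lit 37297016), (nat_lit 24651042), (nat_lit 18388512), (nat_lit 12378745)] (nat_lit 10584306)) p15_26_1 (nat_lit 4) (nat_lit 184) (nat_lit 185) = true := by decide +kernel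
def p15_26_1_185 : pfC (piC [(nat_lit 37297016), (nat_lit 24651042), (nat_lit 18388512), (nat_lit 12378745)] (nat_lit 10584306)) p15_26_1 (nat_lit 4) (nat_lit 185) (nat_lit 186) = true := by decide +kernel
theorem p15_26_1_T : PfS (PiF n15_26.reverse (nat_lit 10584306)) p15_26_1 (nat_lit 4) [] 0 :=
  pftab_of (los := [(nat_lit 37297016), (nat_lit 24651042), (nat_lit 18388512), (nat_lit 12378745)]) (by decide +kernel) (hi := (nat_lit 186)) (PfP.trans (PfP.trans (PfP.trans (PfP.trans (PfP.trans (PfP.trans (PfP.trans (PfP.trans (PfP.trans (PfP.trans (PfP.trans (PfP.trans (PfP.trans (PfP.trans (PfP.trans (PfP.trans (PfP.trans (PfP.trans (PfP.trans (PfP.trans (PfP.trans (PfP.trans (PfP.trans (PfP.trans (PfP.trans (PfP.trans (PfP.trans (PfP.trans (PfP.trans (PfP.trans (PfP.trans (PfP.trans (PfP.trans (PfP.trans (PfP.trans (PfP.trans (PfP.trans (PfP.trans (PfP.trans (PfP.trans (PfP.trans (PfP.trans (PfP.trans (PfP.trans (PfP.trans (PfP.trans (PfP.trans (PfP.trans (PfP.trans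 (PfP.trans (PfP.trans (PfP.trans (PfP.trans (PfP.trans (PfP.trans (PfP.trans (PfP.trans (PfP.trans (PfP.trans (PfP.trans (PfP.trans (PfP.trans (PfP.trans (PfP.trans (PfP.trans (PfP.trans (PfP.trans (PfP.trans (PfP.trans (PfP.trans (PfP.trans (PfP.trans (PfP.trans (PfP.trans (PfP.trans (PfP.trans (PfP.trans (PfP.trans (PfP.trans (PfP.trans (PfP.trans (PfP.trans (PfP.trans (PfP.trans (PfP.trans (PfP.trans (PfP.trans (PfP.trans (PfP.trans (PfP.trans (PfP.trans (PfP.trans (PfP.trans (PfP.trans (PfP.trans (PfP.trans (PfP.trans (PfP.trans (PfP.trans (PfP.trans (PfP.trans (PfP.trans (PfP.trans (PfP.trans (PfP.trans (PfP.trans (PfP.trans (PfP.trans (PfP.trans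
 (PfP.trans (PfP.trans (PfP.trans (PfP.trans (PfP.trans (PfP.trans (PfP.trans (PfP.trans (PfP.trans (PfP.trans (PfP.trans (PfP.trans (PfP.trans (PfP.trans (PfP.trans (PfP.trans (PfP.trans (PfP.trans (PfP.trans (PfP.trans (PfP.trans (PfP.trans (PfP.trans (PfP.trans (PfP.trans (PfP.trans (PfP.trans (PfP.trans (PfP.trans (PfP.trans (PfP.trans (PfP.trans (PfP.trans (PfP.trans (PfP.trans (PfP.trans (PfP.trans (PfP.trans (PfP.trans (PfP.trans (PfP.trans (PfP.trans (PfP.trans (PfP.trans (PfP.trans (PfP.trans (PfP.trans (PfP.trans (PfP.trans (PfP.trans (PfP.trans (PfP.trans (PfP.trans (PfP.trans (PfP.trans (PfP.trans (PfP.trans (PfP.trans (PfP.trans (PfP.trans (PfP.trans (PfP.trans (PfP.trans (PfP.trans (PfP.trans (PfP.trans (PfP.trans (PfP.trans (PfP.trans (PfP.trans (PfP.trans (PfP.trans (PfP.trans (PfP.trans (PfP.trans (PfP.trans (pfC_sound p15_26_1_0) (pfC_sound p15_26_1_1)) (pfC_sound p15_26_1_2)) (pfC_sound p15_26_1_3)) (pfC_sound p15_26_1_4)) (pfC_sound p15_26_1_5))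 (pfC_sound p15_26_1_6)) (pfC_sound p15_26_1_7)) (pfC_sound p15_26_1_8)) (pfC_sound p15_26_1_9)) (pfC_sound p15_26_1_10)) (pfC_sound p15_26_1_11)) (pfC_sound p15_26_1_12)) (pfC_sound p15_26_1_13)) (pfC_sound p15_26_1_14))
 (pfC_sound p15_26_1_15)) (pfC_sound p15_26_1_16)) (pfC_sound p15_26_1_17)) (pfC_sound p15_26_1_18)) (pfC_sound p15_26_1_19)) (pfC_sound p15_26_1_20)) (pfC_sound p15_26_1_21)) (pfC_sound p15_26_1_22)) (pfC_sound p15_26_1_23)) (pfC_sound p15_26_1_24)) (pfC_sound p15_26_1_25)) (pfC_sound p15_26_1_26)) (pfC_sound p15_26_1_27)) (pfC_sound p15_26_1_28)) (pfC_sound p15_26_1_29)) (pfC_sound p15_26_1_30)) (pfC_sound p15_26_1_31)) (pfC_sound p15_26_1_32)) (pfC_sound p15_26_1_33)) (pfC_sound p15_26_1_34)) (pfC_sound p15_26_1_35)) (pfC_sound p15_26_1_36)) (pfC_sound p15_26_1_37)) (pfC_sound p15_26_1_38)) (pfC_sound p15_26_1_39)) (pfC_sound p15_26_1_40)) (pfC_sound p15_26_1_41)) (pfC_sound p15_26_1_42)) (pfC_sound p15_26_1_43)) (pfC_sound p15_26_1_44)) (pfC_sound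 p15_26_1_45)) (pfC_sound p15_26_1_46)) (pfC_sound p15_26_1_47)) (pfC_sound p15_26_1_48)) (pfC_sound p15_26_1_49)) (pfC_sound p15_26_1_50)) (pfC_sound p15_26_1_51)) (pfC_sound p15_26_1_52)) (pfC_sound p15_26_1_53)) (pfC_sound p15_26_1_54)) (pfC_sound p15_26_1_55)) (pfC_sound p15_26_1_56)) (pfC_sound p15_26_1_57)) (pfC_sound p15_26_1_58)) (pfC_sound p15_26_1_59)) (pfC_sound p15_26_1_60)) (pfC_sound p15_26_1_61)) (pfC_sound p15_26_1_62))
 (pfC_sound p15_26_1_63)) (pfC_sound p15_26_1_64)) (pfC_sound p15_26_1_65)) (pfC_sound p15_26_1_66)) (pfC_sound p15_26_1_67)) (pfC_sound p15_26_1_68)) (pfC_sound p15_26_1_69)) (pfC_sound p15_26_1_70)) (pfC_sound p15_26_1_71)) (pfC_sound p15_26_1_72)) (pfC_sound p15_26_1_73)) (pfC_sound p15_26_1_74)) (pfC_sound p15_26_1_75)) (pfC_sound p15_26_1_76)) (pfC_sound p15_26_1_77)) (pfC_sound p15_26_1_78)) (pfC_sound p15_26_1_79)) (pfC_sound p15_26_1_80)) (pfC_sound p15_26_1_81)) (pfC_sound p15_26_1_82)) (pfC_sound p15_26_1_83)) (pfC_sound p15_26_1_84))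 (pfC_sound p15_26_1_85)) (pfC_sound p15_26_1_86)) (pfC_sound p15_26_1_87)) (pfC_sound p15_26_1_88)) (pfC_sound p15_26_1_89)) (pfC_sound p15_26_1_90)) (pfC_sound p15_26_1_91)) (pfC_sound p15_26_1_92)) (pfC_sound p15_26_1_93)) (pfC_sound p15_26_1_94)) (pfC_sound p15_26_1_95)) (pfC_sound p15_26_1_96)) (pfC_sound p15_26_1_97)) (pfC_sound p15_26_1_98)) (pfC_sound p15_26_1_99)) (pfC_sound p15_26_1_100)) (pfC_sound p15_26_1_101)) (pfC_sound p15_26_1_102)) (pfC_sound p15_26_1_103)) (pfC_sound p15_26_1_104)) (pfC_sound p15_26_1_105)) (pfC_sound p15_26_1_106)) (pfC_sound p15_26_1_107)) (pfC_sound p15_26_1_108)) (pfC_sound p15_26_1_109)) (pfC_sound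
 p15_26_1_110)) (pfC_sound p15_26_1_111)) (pfC_sound p15_26_1_112)) (pfC_sound p15_26_1_113)) (pfC_sound p15_26_1_114)) (pfC_sound p15_26_1_115)) (pfC_sound p15_26_1_116)) (pfC_sound p15_26_1_117)) (pfC_sound p15_26_1_118)) (pfC_sound p15_26_1_119)) (pfC_sound p15_26_1_120)) (pfC_sound p15_26_1_121)) (pfC_sound p15_26_1_122)) (pfC_sound p15_26_1_123)) (pfC_sound p15_26_1_124)) (pfC_sound p15_26_1_125)) (pfC_sound p15_26_1_126)) (pfC_sound p15_26_1_127)) (pfC_sound p15_26_1_128)) (pfC_sound p15_26_1_129)) (pfC_sound p15_26_1_130)) (pfC_sound p15_26_1_131)) (pfC_sound p15_26_1_132)) (pfC_sound p15_26_1_133)) (pfC_sound p15_26_1_134)) (pfC_sound p15_26_1_135)) (pfC_sound p15_26_1_136)) (pfC_sound p15_26_1_137)) (pfC_sound p15_26_1_138)) (pfC_sound p15_26_1_139)) (pfC_sound p15_26_1_140)) (pfC_sound p15_26_1_141)) (pfC_sound p15_26_1_142)) (pfC_sound p15_26_1_143)) (pfC_sound p15_26_1_144)) (pfC_sound p15_26_1_145)) (pfC_sound p15_26_1_146)) (pfC_sound p15_26_1_147)) (pfC_sound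 p15_26_1_148)) (pfC_sound p15_26_1_149)) (pfC_sound p15_26_1_150)) (pfC_sound p15_26_1_151)) (pfC_sound p15_26_1_152)) (pfC_sound p15_26_1_153)) (pfC_sound p15_26_1_154)) (pfC_sound p15_26_1_155)) (pfC_sound
 p15_26_1_156)) (pfC_sound p15_26_1_157)) (pfC_sound p15_26_1_158)) (pfC_sound p15_26_1_159)) (pfC_sound p15_26_1_160)) (pfC_sound p15_26_1_161)) (pfC_sound p15_26_1_162)) (pfC_sound p15_26_1_163)) (pfC_sound p15_26_1_164)) (pfC_sound p15_26_1_165)) (pfC_sound p15_26_1_166)) (pfC_sound p15_26_1_167)) (pfC_sound p15_26_1_168)) (pfC_sound p15_26_1_169)) (pfC_sound p15_26_1_170)) (pfC_sound p15_26_1_171)) (pfC_sound p15_26_1_172)) (pfC_sound p15_26_1_173)) (pfC_sound p15_26_1_174)) (pfC_sound p15_26_1_175)) (pfC_sound p15_26_1_176)) (pfC_sound p15_26_1_177)) (pfC_sound p15_26_1_178)) (pfC_sound p15_26_1_179)) (pfC_sound p15_26_1_180)) (pfC_sound p15_26_1_181)) (pfC_sound p15_26_1_182)) (pfC_sound p15_26_1_183)) (pfC_sound p15_26_1_184)) (pfC_sound p15_26_1_185)) (by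 decide +kernel)

def z15_26_1 : zOK yB15_26 (nat_lit 1) (nat_lit 400) (nat_lit 600) (nat_lit 10584306) (nat_lit 6733447) = true := by decide +kernel
def g15_26_1 : gOK yB15_26.x P15_26 (nat_lit 1412) (q15_26 :: r15_26) (nat_lit 1) (nat_lit 400) (nat_lit 2) (nat_lit 600) (nat_lit 11000000) (nat_lit 17850000) (nat_lit 12712500) (nat_lit 12712500) [(nat_lit 800), (nat_lit 1130)] = true := by decide +kernel
def v15_26_1 : ivC P15_26 s15_26 w15_26 n15_26 (nat_lit 4) (nat_lit 4965) (nat_lit 1) (nat_lit 400) f160_1_400 f168_1_400 (nat_lit 2) (nat_lit 600) f160_1_600 f168_1_600 (nat_lit 10584306) (nat_lit 6733447) p15_26_1 = true := by decide +kernel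
def p15_26_2 : PF := (PF.cons (PF.cons (PF.cons (PF.cons (PF.leaf (nat_lit 2736158) (nat_lit 15883839) (nat_lit 51224973) (nat_lit 15883839) [(nat_lit 0), (nat_lit 0), (nat_lit 0), (nat_lit 0)]) (PF.cons (PF.leaf (nat_lit 2925778) (nat_lit 342962) (nat_lit 50904097) (nat_lit 15861752) [(nat_lit 342962), (nat_lit 0), (nat_lit 0), (nat_lit 0)]) (PF.cons (PF.leaf (nat_lit 3148930) (nat_lit 372280) (nat_lit 50530157) (nat_lit 15834094) [(nat_lit 372280), (nat_lit 0), (nat_lit 0), (nat_lit 0)]) (PF.cons (PF.leaf (nat_lit 3398695) (nat_lit 398036) (nat_lit 50113756) (nat_lit 15800945) [(nat_lit 398036), (nat_lit 0), (nat_lit 0), (nat_lit 0)]) (PF.cons (PF.leaf (nat_lit 3670930) (nat_lit 421000) (nat_lit 49662503) (nat_lit 15762309) [(nat_lit 421000), (nat_lit 0), (nat_lit 0), (nat_lit 0)]) (PF.cons (PF.leaf (nat_lit 3962374) (nat_lit 441664) (nat_lit 49182310) (nat_lit 15718181) [(nat_lit 441664), (nat_lit 0), (nat_lit 0), (nat_lit 0)]) (PF.cons (PF.leaf (nat_lit 4270442)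 (nat_lit 460370) (nat_lit 48678007) (nat_lit 15668582) [(nat_lit 460370), (nat_lit 0), (nat_lit 0), (nat_lit 0)]) (PF.cons (PF.leaf (nat_lit 4592853) (nat_lit 477368) (nat_lit 48153665) (nat_lit 15613566) [(nat_lit 477368), (nat_lit 0),
 (nat_lit 0), (nat_lit 0)]) (PF.cons (PF.leaf (nat_lit 4927678) (nat_lit 492849) (nat_lit 47612787) (nat_lit 15553230) [(nat_lit 492849), (nat_lit 0), (nat_lit 0), (nat_lit 0)]) (PF.cons (PF.leaf (nat_lit 5273196) (nat_lit 506963) (nat_lit 47058433) (nat_lit 15487706) [(nat_lit 506963), (nat_lit 0), (nat_lit 0), (nat_lit 0)]) (PF.cons PF.nil (PF.cons PF.nil PF.nil)))))))))))) (PF.cons (PF.cons (PF.leaf (nat_lit 3321443) (nat_lit 1415154) (nat_lit 49914416) (nat_lit 15779242) [(nat_lit 0), (nat_lit 1415154), (nat_lit 0), (nat_lit 0)]) (PF.cons (PF.leaf (nat_lit 3562237) (nat_lit 407046) (nat_lit 49506733) (nat_lit 15743297) [(nat_lit 407046), (nat_lit 1451735), (nat_lit 0), (nat_lit 0)]) (PF.cons (PF.leaf (nat_lit 3827758) (nat_lit 429235)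 (nat_lit 49061976) (nat_lit 15701568) [(nat_lit 429235), (nat_lit 1486796), (nat_lit 0), (nat_lit 0)]) (PF.cons (PF.leaf (nat_lit 4113398) (nat_lit 449123) (nat_lit 48587375) (nat_lit 15654214) [(nat_lit 449123), (nat_lit 1519851), (nat_lit 0), (nat_lit 0)]) (PF.cons (PF.leaf (nat_lit 4416157) (nat_lit 467083) (nat_lit 48088423) (nat_lit 15601362) [(nat_lit 467083), (nat_lit 1550692), (nat_lit 0), (nat_lit 0)]) (PF.cons (PF.leaf (nat_lit 4733546)
 (nat_lit 483375) (nat_lit 47569541) (nat_lit 15543138) [(nat_lit 483375), (nat_lit 1579256), (nat_lit 0), (nat_lit 0)]) (PF.cons (PF.leaf (nat_lit 5063501) (nat_lit 498192) (nat_lit 47034415) (nat_lit 15479692) [(nat_lit 498192), (nat_lit 1605552), (nat_lit 0), (nat_lit 0)]) (PF.cons (PF.leaf (nat_lit 5404243) (nat_lit 511684) (nat_lit 46486193) (nat_lit 15411194) [(nat_lit 511684), (nat_lit 1629630), (nat_lit 0), (nat_lit 0)]) (PF.cons (PF.leaf (nat_lit 5754157) (nat_lit 523975) (nat_lit 45927605) (nat_lit 15337839) [(nat_lit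 523975), (nat_lit 1651562), (nat_lit 0), (nat_lit 0)]) (PF.cons PF.nil PF.nil)))))))))) (PF.cons (PF.cons (PF.leaf (nat_lit 3987848) (nat_lit 1511975) (nat_lit 48449889) (nat_lit 15634972) [(nat_lit 0), (nat_lit 1511975), (nat_lit 0), (nat_lit 0)]) (PF.cons (PF.leaf (nat_lit 4265569) (nat_lit 455369) (nat_lit 47985022) (nat_lit 15585015) [(nat_lit 455369), (nat_lit 1541702), (nat_lit 0), (nat_lit 0)]) (PF.cons (PF.leaf (nat_lit 4561895) (nat_lit 472785) (nat_lit 47494448) (nat_lit 15529432) [(nat_lit 472785), (nat_lit 1569680), (nat_lit 0), (nat_lit 0)]) (PF.cons (PF.leaf (nat_lit 4873484) (nat_lit 488519) (nat_lit 46983332) (nat_lit 15468459) [(nat_lit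
 488519), (nat_lit 1595731), (nat_lit 0), (nat_lit 0)]) (PF.cons (PF.leaf (nat_lit 5198012) (nat_lit 502786) (nat_lit 46455765) (nat_lit 15402316) [(nat_lit 502786), (nat_lit 1619792), (nat_lit 0), (nat_lit 0)]) (PF.cons (PF.leaf (nat_lit 5533521) (nat_lit 515748) (nat_lit 45915122) (nat_lit 15331224) [(nat_lit 515748), (nat_lit 1641861), (nat_lit 0), (nat_lit 0)]) (PF.cons (PF.leaf (nat_lit 5878392) (nat_lit 527532) (nat_lit 45364254) (nat_lit 15255412) [(nat_lit 527532), (nat_lit 1661975), (nat_lit 0), (nat_lit 0)]) (PF.cons PF.nil (PF.cons PF.nil PF.nil))))))))) (PF.cons (PF.cons (PF.leaf (nat_lit 4709256) (nat_lit 1586879) (nat_lit 46895416) (nat_lit 15452757) [(nat_lit 0), (nat_lit 1586879), (nat_lit 0), (nat_lit 0)]) (PF.cons (PF.leaf (nat_lit 5013571) (nat_lit 492808) (nat_lit 46394718) (nat_lit 15389569) [(nat_lit 492808), (nat_lit 1610572), (nat_lit 0), (nat_lit 0)]) (PF.cons (PF.leaf (nat_lit 5331888) (nat_lit 506646) (nat_lit 45876705) (nat_lit 15321189)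 [(nat_lit 506646), (nat_lit 1632541), (nat_lit 0), (nat_lit 0)]) (PF.cons (PF.leaf (nat_lit 5661662) (nat_lit 519171) (nat_lit 45345186) (nat_lit 15247911) [(nat_lit 519171), (nat_lit 1652733), (nat_lit 0), (nat_lit 0)])
 (PF.cons (PF.leaf (nat_lit 6001039) (nat_lit 530523) (nat_lit 44803258) (nat_lit 15170011) [(nat_lit 530523), (nat_lit 1671149), (nat_lit 0), (nat_lit 0)]) (PF.cons (PF.leaf (nat_lit 6348485) (nat_lit 540813) (nat_lit 44253518) (nat_lit 15087760) [(nat_lit 540813), (nat_lit 1687821), (nat_lit 0), (nat_lit 0)]) (PF.cons PF.nil PF.nil))))))) (PF.cons (PF.cons (PF.leaf (nat_lit 5466344) (nat_lit 1643925) (nat_lit 45296770) (nat_lit 15236340) [(nat_lit 0), (nat_lit 1643925), (nat_lit 0), (nat_lit 0)]) (PF.cons (PF.leaf (nat_lit 5789287) (nat_lit 521957) (nat_lit 44776122) (nat_lit 15161328) [(nat_lit 521957), (nat_lit 1662351), (nat_lit 0), (nat_lit 0)]) (PF.cons (PF.leaf (nat_lit 6122681) (nat_lit 532957) (nat_lit 44244470) (nat_lit 15081734) [(nat_lit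 532957), (nat_lit 1679173), (nat_lit 0), (nat_lit 0)]) (PF.cons (PF.leaf (nat_lit 6464468) (nat_lit 542893) (nat_lit 43704670) (nat_lit 14997877) [(nat_lit 542893), (nat_lit 1694396), (nat_lit 0), (nat_lit 0)]) (PF.cons PF.nil PF.nil))))) (PF.cons (PF.cons (PF.leaf (nat_lit 6244231) (nat_lit 1686128) (nat_lit 43687535) (nat_lit 14990636) [(nat_lit 0), (nat_lit 1686128), (nat_lit 0), (nat_lit 0)]) (PF.cons (PF.leaf (nat_lit 6579565)
 (nat_lit 544483) (nat_lit 43158837) (nat_lit 14905549) [(nat_lit 544483), (nat_lit 1699988), (nat_lit 0), (nat_lit 0)]) (PF.cons (PF.leaf (nat_lit 6922508) (nat_lit 553164) (nat_lit 42623905) (nat_lit 14816570) [(nat_lit 553164), (nat_lit 1712401), (nat_lit 0), (nat_lit 0)]) (PF.cons PF.nil PF.nil)))) (PF.cons (PF.cons (PF.leaf (nat_lit 7031358) (nat_lit 1715907) (nat_lit 42092339) (nat_lit 14721031) [(nat_lit 0), (nat_lit 1715907), (nat_lit 0), (nat_lit 0)]) (PF.cons PF.nil PF.nil)) (PF.cons PF.nil (PF.cons PF.nil PF.nil))))))))) (PF.cons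 (PF.cons (PF.cons (PF.leaf (nat_lit 3871616) (nat_lit 3536754) (nat_lit 48007557) (nat_lit 15564501) [(nat_lit 0), (nat_lit 0), (nat_lit 3536754), (nat_lit 0)]) (PF.cons (PF.leaf (nat_lit 4120886) (nat_lit 431803) (nat_lit 47593406) (nat_lit 15518343) [(nat_lit 431803), (nat_lit 0), (nat_lit 3565259), (nat_lit 0)]) (PF.cons (PF.leaf (nat_lit 4393367) (nat_lit 452177) (nat_lit 47145367) (nat_lit 15466076) [(nat_lit 452177), (nat_lit 0), (nat_lit 3593012), (nat_lit 0)]) (PF.cons (PF.leaf (nat_lit 4684360) (nat_lit 470184) (nat_lit 46670833) (nat_lit 15408131) [(nat_lit 470184), (nat_lit 0), (nat_lit 3619292), (nat_lit 0)]) (PF.cons (PF.leaf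
 (nat_lit 4990817) (nat_lit 486262) (nat_lit 46175273) (nat_lit 15344835) [(nat_lit 486262), (nat_lit 0), (nat_lit 3643655), (nat_lit 0)]) (PF.cons (PF.leaf (nat_lit 5310307) (nat_lit 500705) (nat_lit 45662977) (nat_lit 15276470) [(nat_lit 500705), (nat_lit 0), (nat_lit 3665836), (nat_lit 0)]) (PF.cons (PF.leaf (nat_lit 5640834) (nat_lit 513730) (nat_lit 45137442) (nat_lit 15203303) [(nat_lit 513730), (nat_lit 0), (nat_lit 3685683), (nat_lit 0)]) (PF.cons (PF.leaf (nat_lit 5980699) (nat_lit 525499) (nat_lit 44601596) (nat_lit 15125593) [(nat_lit 525499), (nat_lit 0), (nat_lit 3703125), (nat_lit 0)]) (PF.cons PF.nil (PF.cons PF.nil PF.nil)))))))))) (PF.cons (PF.cons (PF.leaf (nat_lit 4546487) (nat_lit 1562039) (nat_lit 46544519) (nat_lit 15387493) [(nat_lit 0), (nat_lit 1562039), (nat_lit 3614760), (nat_lit 0)]) (PF.cons (PF.leaf (nat_lit 4828714) (nat_lit 474315) (nat_lit 46082462) (nat_lit 15327910) [(nat_lit 474315), (nat_lit 1586635), (nat_lit 3637489), (nat_lit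 0)]) (PF.cons (PF.leaf (nat_lit 5128063) (nat_lit 490053) (nat_lit 45597671) (nat_lit 15262807) [(nat_lit 490053), (nat_lit 1609590), (nat_lit 3658636), (nat_lit 0)]) (PF.cons (PF.leaf (nat_lit 5441218) (nat_lit 504114)
 (nat_lit 45095218) (nat_lit 15192588) [(nat_lit 504114), (nat_lit 1630786), (nat_lit 3677876), (nat_lit 0)]) (PF.cons (PF.leaf (nat_lit 5765896) (nat_lit 516742) (nat_lit 44579037) (nat_lit 15117591) [(nat_lit 516742), (nat_lit 1650190), (nat_lit 3695022), (nat_lit 0)]) (PF.cons (PF.leaf (nat_lit 6100237) (nat_lit 528116) (nat_lit 44052306) (nat_lit 15038127) [(nat_lit 528116), (nat_lit 1667822), (nat_lit 3709976), (nat_lit 0)]) (PF.cons (PF.leaf (nat_lit 6442647) (nat_lit 538371) (nat_lit 43517666) (nat_lit 14954490) [(nat_lit 538371), (nat_lit 1683725), (nat_lit 3722702), (nat_lit 0)]) (PF.cons PF.nil (PF.cons PF.nil PF.nil))))))))) (PF.cons (PF.cons (PF.leaf (nat_lit 5267150) (nat_lit 1621814) (nat_lit 45017152) (nat_lit 15176801) [(nat_lit 0), (nat_lit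 1621814), (nat_lit 3671231), (nat_lit 0)]) (PF.cons (PF.leaf (nat_lit 5572539) (nat_lit 506789) (nat_lit 44526839) (nat_lit 15105254) [(nat_lit 506789), (nat_lit 1641109), (nat_lit 3687711), (nat_lit 0)]) (PF.cons (PF.leaf (nat_lit 5890637) (nat_lit 519128) (nat_lit 44021701) (nat_lit 15028870) [(nat_lit 519128), (nat_lit 1658826), (nat_lit 3702331), (nat_lit 0)]) (PF.cons (PF.leaf (nat_lit 6218922) (nat_lit 530189) (nat_lit
 43505367) (nat_lit 14948034) [(nat_lit 530189), (nat_lit 1674940), (nat_lit 3714963), (nat_lit 0)]) (PF.cons (PF.leaf (nat_lit 6555650) (nat_lit 540124) (nat_lit 42980741) (nat_lit 14863089) [(nat_lit 540124), (nat_lit 1689468), (nat_lit 3725549), (nat_lit 0)]) (PF.cons PF.nil (PF.cons PF.nil PF.nil))))))) (PF.cons (PF.cons (PF.leaf (nat_lit 6016184) (nat_lit 1666369) (nat_lit 43464834) (nat_lit 14937134) [(nat_lit 0), (nat_lit 1666369), (nat_lit 3707737), (nat_lit 0)]) (PF.cons (PF.leaf (nat_lit 6337396) (nat_lit 531711) (nat_lit 42960391) (nat_lit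 14855353) [(nat_lit 531711), (nat_lit 1681051), (nat_lit 3718200), (nat_lit 0)]) (PF.cons (PF.leaf (nat_lit 6667958) (nat_lit 541399) (nat_lit 42446897) (nat_lit 14769463) [(nat_lit 541399), (nat_lit 1694286), (nat_lit 3726793), (nat_lit 0)]) (PF.cons (PF.leaf (nat_lit 7005887) (nat_lit 550068) (nat_lit 41927015) (nat_lit 14679828) [(nat_lit 550068), (nat_lit 1706092), (nat_lit 3733486), (nat_lit 0)]) (PF.cons PF.nil PF.nil))))) (PF.cons (PF.cons (PF.leaf (nat_lit 6780438) (nat_lit 1698240) (nat_lit 41915692) (nat_lit 14673632) [(nat_lit 0), (nat_lit 1698240), (nat_lit 3726525), (nat_lit 0)]) (PF.cons (PF.leaf (nat_lit 7111826)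
 (nat_lit 550660) (nat_lit 41407433) (nat_lit 14583446) [(nat_lit 550660), (nat_lit 1708940), (nat_lit 3731511), (nat_lit 0)]) (PF.cons PF.nil (PF.cons PF.nil PF.nil)))) (PF.cons (PF.cons (PF.leaf (nat_lit 7549849) (nat_lit 1719500) (nat_lit 40389866) (nat_lit 14391440) [(nat_lit 0), (nat_lit 1719500), (nat_lit 3730001), (nat_lit 0)]) (PF.cons PF.nil PF.nil)) (PF.cons PF.nil (PF.cons PF.nil PF.nil)))))))) (PF.cons (PF.cons (PF.cons (PF.leaf (nat_lit 5090186) (nat_lit 3648160) (nat_lit 44700913) (nat_lit 15111577) [(nat_lit 0), (nat_lit 0), (nat_lit 3648160), (nat_lit 0)]) (PF.cons (PF.leaf (nat_lit 5374736) (nat_lit 488801) (nat_lit 44247006) (nat_lit 15044362) [(nat_lit 488801), (nat_lit 0), (nat_lit 3664321), (nat_lit 0)]) (PF.cons (PF.leaf (nat_lit 5675120) (nat_lit 503070) (nat_lit 43772926) (nat_lit 14971834) [(nat_lit 503070), (nat_lit 0), (nat_lit 3678955), (nat_lit 0)]) (PF.cons (PF.leaf (nat_lit 5988030) (nat_lit 515680) (nat_lit 43283585) (nat_lit 14894517)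 [(nat_lit 515680), (nat_lit 0), (nat_lit 3691834), (nat_lit 0)]) (PF.cons (PF.leaf (nat_lit 6311280) (nat_lit 526894) (nat_lit 42782732) (nat_lit 14812840) [(nat_lit 526894), (nat_lit 0), (nat_lit 3702831), (nat_lit
 0)]) (PF.cons (PF.leaf (nat_lit 6643041) (nat_lit 536902) (nat_lit 42273345) (nat_lit 14727174) [(nat_lit 536902), (nat_lit 0), (nat_lit 3711889), (nat_lit 0)]) (PF.cons PF.nil (PF.cons PF.nil (PF.cons PF.nil PF.nil))))))))) (PF.cons (PF.cons (PF.leaf (nat_lit 5805975) (nat_lit 1645141) (nat_lit 43214731) (nat_lit 14879089) [(nat_lit 0), (nat_lit 1645141), (nat_lit 3684925), (nat_lit 0)]) (PF.cons (PF.leaf (nat_lit 6110829) (nat_lit 517052) (nat_lit 42738560) (nat_lit 14801212) [(nat_lit 517052), (nat_lit 1660778), (nat_lit 3695604), (nat_lit 0)]) (PF.cons (PF.leaf (nat_lit 6427238) (nat_lit 528089) (nat_lit 42249625) (nat_lit 14718872) [(nat_lit 528089), (nat_lit 1674960), (nat_lit 3704587), (nat_lit 0)]) (PF.cons (PF.leaf (nat_lit 6752782) (nat_lit 537885)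 (nat_lit 41751361) (nat_lit 14632520) [(nat_lit 537885), (nat_lit 1687688), (nat_lit 3711793), (nat_lit 0)]) (PF.cons (PF.leaf (nat_lit 7085782) (nat_lit 546601) (nat_lit 41246479) (nat_lit 14542542) [(nat_lit 546601), (nat_lit 1698990), (nat_lit 3717196), (nat_lit 0)]) (PF.cons PF.nil (PF.cons PF.nil PF.nil))))))) (PF.cons (PF.cons (PF.leaf (nat_lit 6544231) (nat_lit 1679428) (nat_lit 41717867) (nat_lit 14622484) [(nat_lit
 0), (nat_lit 1679428), (nat_lit 3704802), (nat_lit 0)]) (PF.cons (PF.leaf (nat_lit 6862572) (nat_lit 538385) (nat_lit 41232023) (nat_lit 14535845) [(nat_lit 538385), (nat_lit 1690992), (nat_lit 3710286), (nat_lit 0)]) (PF.cons (PF.leaf (nat_lit 7189308) (nat_lit 546939) (nat_lit 40738693) (nat_lit 14445541) [(nat_lit 546939), (nat_lit 1701244), (nat_lit 3714105), (nat_lit 0)]) (PF.cons (PF.leaf (nat_lit 7522557) (nat_lit 554519) (nat_lit 40240352) (nat_lit 14351965) [(nat_lit 554519), (nat_lit 1710213), (nat_lit 3716255), (nat_lit 0)]) (PF.cons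 PF.nil PF.nil))))) (PF.cons (PF.cons (PF.leaf (nat_lit 7293265) (nat_lit 1702793) (nat_lit 40234004) (nat_lit 14346841) [(nat_lit 0), (nat_lit 1702793), (nat_lit 3709792), (nat_lit 0)]) (PF.cons (PF.leaf (nat_lit 7619955) (nat_lit 554304) (nat_lit 39747462) (nat_lit 14253264) [(nat_lit 554304), (nat_lit 1710864), (nat_lit 3710593), (nat_lit 0)]) (PF.cons PF.nil (PF.cons PF.nil PF.nil)))) (PF.cons (PF.cons (PF.leaf (nat_lit 8044279) (nat_lit 1717050) (nat_lit 38779687) (nat_lit 14056932) [(nat_lit 0), (nat_lit 1717050), (nat_lit 3701994), (nat_lit 0)]) (PF.cons PF.nil PF.nil)) (PF.cons PF.nil PF.nil)))))) (PF.cons (PF.cons (PF.cons (PF.leaf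
 (nat_lit 6325192) (nat_lit 3682544) (nat_lit 41494458) (nat_lit 14566721) [(nat_lit 0), (nat_lit 0), (nat_lit 3682544), (nat_lit 0)]) (PF.cons (PF.leaf (nat_lit 6628229) (nat_lit 524272) (nat_lit 41034848) (nat_lit 14484255) [(nat_lit 524272), (nat_lit 0), (nat_lit 3688478), (nat_lit 0)]) (PF.cons (PF.leaf (nat_lit 6941885) (nat_lit 534172) (nat_lit 40564183) (nat_lit 14397696) [(nat_lit 534172), (nat_lit 0), (nat_lit 3692862), (nat_lit 0)]) (PF.cons (PF.leaf (nat_lit 7263756) (nat_lit 542869) (nat_lit 40085701) (nat_lit 14307539) [(nat_lit 542869), (nat_lit 0), (nat_lit 3695654), (nat_lit 0)]) (PF.cons (PF.leaf (nat_lit 7592242) (nat_lit 550534) (nat_lit 39601924) (nat_lit 14214196) [(nat_lit 550534), (nat_lit 0), (nat_lit 3696851), (nat_lit 0)]) PF.nil))))) (PF.cons (PF.cons (PF.leaf (nat_lit 7050742) (nat_lit 1684961) (nat_lit 40058425) (nat_lit 14298472) [(nat_lit 0), (nat_lit 1684961), (nat_lit 3688984), (nat_lit 0)]) (PF.cons (PF.leaf (nat_lit 7365367) (nat_lit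 542541) (nat_lit 39592539) (nat_lit 14208564) [(nat_lit 542541), (nat_lit 1693918), (nat_lit 3690416), (nat_lit 0)]) (PF.cons (PF.leaf (nat_lit 7687578) (nat_lit 550111) (nat_lit 39120422) (nat_lit 14115397) [(nat_lit
 550111), (nat_lit 1701680), (nat_lit 3690362), (nat_lit 0)]) (PF.cons PF.nil PF.nil)))) (PF.cons (PF.cons (PF.leaf (nat_lit 7783567) (nat_lit 1701301) (nat_lit 38642250) (nat_lit 14015308) [(nat_lit 0), (nat_lit 1701301), (nat_lit 3682883), (nat_lit 0)]) (PF.cons (PF.leaf (nat_lit 8105047) (nat_lit 555884) (nat_lit 38177929) (nat_lit 13919728) [(nat_lit 555884), (nat_lit 1707181), (nat_lit 3680302), (nat_lit 0)]) PF.nil)) (PF.cons PF.nil (PF.cons PF.nil PF.nil))))) (PF.cons (PF.cons (PF.cons (PF.leaf (nat_lit 7536299) (nat_lit 3663099) (nat_lit 38486477) (nat_lit 13969937) [(nat_lit 0), (nat_lit 0), (nat_lit 3663099), (nat_lit 0)]) (PF.cons (PF.leaf (nat_lit 7846569) (nat_lit 544635) (nat_lit 38041161) (nat_lit 13878062) [(nat_lit 544635), (nat_lit 0),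 (nat_lit 3661238), (nat_lit 0)]) (PF.cons (PF.leaf (nat_lit 8163768) (nat_lit 551351) (nat_lit 37590622) (nat_lit 13783291) [(nat_lit 551351), (nat_lit 0), (nat_lit 3658048), (nat_lit 0)]) (PF.cons PF.nil PF.nil)))) (PF.cons (PF.cons (PF.leaf (nat_lit 8252355) (nat_lit 1694982) (nat_lit 37138436) (nat_lit 13682972) [(nat_lit 0), (nat_lit 1694982), (nat_lit 3648105), (nat_lit 0)]) (PF.cons PF.nil PF.nil)) (PF.cons PF.nil PF.nil)))
 (PF.cons (PF.cons (PF.cons (PF.leaf (nat_lit 8700755) (nat_lit 3607306) (nat_lit 35719422) (nat_lit 13352860) [(nat_lit 0), (nat_lit 0), (nat_lit 3607306), (nat_lit 0)]) (PF.cons PF.nil PF.nil)) (PF.cons PF.nil PF.nil)) (PF.cons PF.nil (PF.cons PF.nil PF.nil)))))))) (PF.cons (PF.cons (PF.cons (PF.cons (PF.leaf (nat_lit 4724038) (nat_lit 8725171) (nat_lit 43555828) (nat_lit 14827813) [(nat_lit 0), (nat_lit 0), (nat_lit 0), (nat_lit 8725171)]) (PF.cons (PF.leaf (nat_lit 4969675) (nat_lit 440568) (nat_lit 43182189) (nat_lit 14771400) [(nat_lit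 440568), (nat_lit 0), (nat_lit 0), (nat_lit 8714654)]) (PF.cons (PF.leaf (nat_lit 5236728) (nat_lit 459359) (nat_lit 42779702) (nat_lit 14708917) [(nat_lit 459359), (nat_lit 0), (nat_lit 0), (nat_lit 8701474)]) (PF.cons (PF.leaf (nat_lit 5520480) (nat_lit 475658) (nat_lit 42355150) (nat_lit 14641117) [(nat_lit 475658), (nat_lit 0), (nat_lit 0), (nat_lit 8685570)]) (PF.cons (PF.leaf (nat_lit 5817905) (nat_lit 489962) (nat_lit 41913483) (nat_lit 14568558) [(nat_lit 489962), (nat_lit 0), (nat_lit 0), (nat_lit 8666920)]) (PF.cons (PF.leaf (nat_lit 6126675) (nat_lit 502612) (nat_lit 41458522) (nat_lit 14491689) [(nat_lit 502612), (nat_lit 0),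
 (nat_lit 0), (nat_lit 8645536)]) (PF.cons (PF.leaf (nat_lit 6444860) (nat_lit 513855) (nat_lit 40993330) (nat_lit 14410891) [(nat_lit 513855), (nat_lit 0), (nat_lit 0), (nat_lit 8621460)]) (PF.cons (PF.leaf (nat_lit 6770877) (nat_lit 523874) (nat_lit 40520424) (nat_lit 14326508) [(nat_lit 523874), (nat_lit 0), (nat_lit 0), (nat_lit 8594758)]) (PF.cons PF.nil (PF.cons PF.nil PF.nil)))))))))) (PF.cons (PF.cons (PF.leaf (nat_lit 5375345) (nat_lit 1566289) (nat_lit 42247759) (nat_lit 14619483) [(nat_lit 0), (nat_lit 1566289), (nat_lit 0), (nat_lit 8675280)]) (PF.cons (PF.leaf (nat_lit 5649858) (nat_lit 477830) (nat_lit 41836003) (nat_lit 14551471) [(nat_lit 477830), (nat_lit 1585899), (nat_lit 0), (nat_lit 8657608)]) (PF.cons (PF.leaf (nat_lit 5939806) (nat_lit 491925) (nat_lit 41405425) (nat_lit 14478468) [(nat_lit 491925), (nat_lit 1603862), (nat_lit 0), (nat_lit 8637206)]) (PF.cons (PF.leaf (nat_lit 6241953) (nat_lit 504317) (nat_lit 40960549) (nat_lit 14401049) [(nat_lit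 504317), (nat_lit 1620141), (nat_lit 0), (nat_lit 8614120)]) (PF.cons (PF.leaf (nat_lit 6554118) (nat_lit 515282) (nat_lit 40504832) (nat_lit 14319671) [(nat_lit 515282), (nat_lit 1634762), (nat_lit 0), (nat_lit
 8588416)]) (PF.cons (PF.leaf (nat_lit 6874560) (nat_lit 525020) (nat_lit 40041025) (nat_lit 14234725) [(nat_lit 525020), (nat_lit 1647784), (nat_lit 0), (nat_lit 8560174)]) (PF.cons (PF.leaf (nat_lit 7201800) (nat_lit 533686) (nat_lit 39571375) (nat_lit 14146552) [(nat_lit 533686), (nat_lit 1659279), (nat_lit 0), (nat_lit 8529489)]) (PF.cons PF.nil (PF.cons PF.nil PF.nil))))))))) (PF.cons (PF.cons (PF.leaf (nat_lit 6063733) (nat_lit 1610993) (nat_lit 40896075) (nat_lit 14385652) [(nat_lit 0), (nat_lit 1610993), (nat_lit 0), (nat_lit 8605098)]) (PF.cons (PF.leaf (nat_lit 6357954) (nat_lit 505401) (nat_lit 40463111) (nat_lit 14308152) [(nat_lit 505401), (nat_lit 1625784), (nat_lit 0), (nat_lit 8580577)]) (PF.cons (PF.leaf (nat_lit 6663456) (nat_lit 516191) (nat_lit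 40018179) (nat_lit 14226571) [(nat_lit 516191), (nat_lit 1639101), (nat_lit 0), (nat_lit 8553476)]) (PF.cons (PF.leaf (nat_lit 6977835) (nat_lit 525724) (nat_lit 39564437) (nat_lit 14141374) [(nat_lit 525724), (nat_lit 1650963), (nat_lit 0), (nat_lit 8523899)]) (PF.cons (PF.leaf (nat_lit 7299459) (nat_lit 534173) (nat_lit 39104376) (nat_lit 14052952) [(nat_lit 534173), (nat_lit 1661417), (nat_lit 0), (nat_lit 8491955)])
 (PF.cons (PF.leaf (nat_lit 7626969) (nat_lit 541667) (nat_lit 38640018) (nat_lit 13961646) [(nat_lit 541667), (nat_lit 1670523), (nat_lit 0), (nat_lit 8457760)]) (PF.cons PF.nil PF.nil))))))) (PF.cons (PF.cons (PF.leaf (nat_lit 6773934) (nat_lit 1642630) (nat_lit 39532722) (nat_lit 14131527) [(nat_lit 0), (nat_lit 1642630), (nat_lit 0), (nat_lit 8516670)]) (PF.cons (PF.leaf (nat_lit 7081297) (nat_lit 525974) (nat_lit 39090213) (nat_lit 14046436) [(nat_lit 525974), (nat_lit 1653403), (nat_lit 0), (nat_lit 8485978)]) (PF.cons (PF.leaf (nat_lit 7396854)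 (nat_lit 534272) (nat_lit 38640593) (nat_lit 13958058) [(nat_lit 534272), (nat_lit 1662882), (nat_lit 0), (nat_lit 8452967)]) (PF.cons (PF.leaf (nat_lit 7718763) (nat_lit 541600) (nat_lit 38186129) (nat_lit 13866783) [(nat_lit 541600), (nat_lit 1671109), (nat_lit 0), (nat_lit 8417769)]) (PF.cons PF.nil PF.nil))))) (PF.cons (PF.cons (PF.leaf (nat_lit 7494846) (nat_lit 1663716) (nat_lit 38179550) (nat_lit 13861840) [(nat_lit 0), (nat_lit 1663716), (nat_lit 0), (nat_lit 8412555)]) (PF.cons (PF.leaf (nat_lit 7810418) (nat_lit 541189) (nat_lit 37735735) (nat_lit 13770870) [(nat_lit 541189), (nat_lit 1671120), (nat_lit 0), (nat_lit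
 8376534)]) (PF.cons (PF.leaf (nat_lit 8131841) (nat_lit 547533) (nat_lit 37288311) (nat_lit 13677314) [(nat_lit 547533), (nat_lit 1677403), (nat_lit 0), (nat_lit 8338505)]) (PF.cons PF.nil PF.nil)))) (PF.cons (PF.cons (PF.leaf (nat_lit 8218190) (nat_lit 1676175) (nat_lit 36851653) (nat_lit 13580843) [(nat_lit 0), (nat_lit 1676175), (nat_lit 0), (nat_lit 8295441)]) (PF.cons PF.nil PF.nil)) (PF.cons PF.nil (PF.cons PF.nil PF.nil)))))))) (PF.cons (PF.cons (PF.cons (PF.leaf (nat_lit 5876824) (nat_lit 3583059) (nat_lit 40633865) (nat_lit 14322790) [(nat_lit 0), (nat_lit 0), (nat_lit 3583059), (nat_lit 8569097)]) (PF.cons (PF.leaf (nat_lit 6151935) (nat_lit 487664) (nat_lit 40232596) (nat_lit 14250390) [(nat_lit 487664), (nat_lit 0), (nat_lit 3591983), (nat_lit 8546178)]) (PF.cons (PF.leaf (nat_lit 6441409) (nat_lit 500474) (nat_lit 39814522) (nat_lit 14173256) [(nat_lit 500474), (nat_lit 0), (nat_lit 3599479), (nat_lit 8520606)]) (PF.cons (PF.leaf (nat_lit 6742048) (nat_lit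 511625) (nat_lit 39383974) (nat_lit 14092027) [(nat_lit 511625), (nat_lit 0), (nat_lit 3605424), (nat_lit 8492511)]) (PF.cons (PF.leaf (nat_lit 7051740) (nat_lit 521402) (nat_lit 38944215) (nat_lit 14007205)
 [(nat_lit 521402), (nat_lit 0), (nat_lit 3609766), (nat_lit 8462015)]) (PF.cons (PF.leaf (nat_lit 7368803) (nat_lit 530012) (nat_lit 38497809) (nat_lit 13919203) [(nat_lit 530012), (nat_lit 0), (nat_lit 3612497), (nat_lit 8429237)]) (PF.cons (PF.leaf (nat_lit 7691859) (nat_lit 537611) (nat_lit 38046824) (nat_lit 13828379) [(nat_lit 537611), (nat_lit 0), (nat_lit 3613638), (nat_lit 8394300)]) (PF.cons PF.nil (PF.cons PF.nil PF.nil))))))))) (PF.cons (PF.cons (PF.leaf (nat_lit 6557899) (nat_lit 1621984) (nat_lit 39327397) (nat_lit 14077457) [(nat_lit 0), (nat_lit 1621984), (nat_lit 3598373), (nat_lit 8483599)]) (PF.cons (PF.leaf (nat_lit 6850484) (nat_lit 511733) (nat_lit 38909201) (nat_lit 13996661) [(nat_lit 511733), (nat_lit 1633905), (nat_lit 3602766), (nat_lit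 8454545)]) (PF.cons (PF.leaf (nat_lit 7153419) (nat_lit 521428) (nat_lit 38480575) (nat_lit 13912113) [(nat_lit 521428), (nat_lit 1644478), (nat_lit 3605692), (nat_lit 8423095)]) (PF.cons (PF.leaf (nat_lit 7464393) (nat_lit 529915) (nat_lit 38044492) (nat_lit 13824309) [(nat_lit 529915), (nat_lit 1653736), (nat_lit 3607128), (nat_lit 8389400)]) (PF.cons (PF.leaf (nat_lit 7781840) (nat_lit 537369) (nat_lit 37603269)
 (nat_lit 13733655) [(nat_lit 537369), (nat_lit 1661730), (nat_lit 3607084), (nat_lit 8353595)]) (PF.cons PF.nil (PF.cons PF.nil PF.nil))))))) (PF.cons (PF.cons (PF.leaf (nat_lit 7256463) (nat_lit 1645802) (nat_lit 38018567) (nat_lit 13815469) [(nat_lit 0), (nat_lit 1645802), (nat_lit 3600521), (nat_lit 8382648)]) (PF.cons (PF.leaf (nat_lit 7560402) (nat_lit 529415) (nat_lit 37593839) (nat_lit 13728192) [(nat_lit 529415), (nat_lit 1654180), (nat_lit 3600768), (nat_lit 8348237)]) (PF.cons (PF.leaf (nat_lit 7871798) (nat_lit 536786) (nat_lit 37163117) (nat_lit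 13637975) [(nat_lit 536786), (nat_lit 1661386), (nat_lit 3599633), (nat_lit 8311739)]) (PF.cons (PF.leaf (nat_lit 8188872) (nat_lit 543234) (nat_lit 36728510) (nat_lit 13545216) [(nat_lit 543234), (nat_lit 1667467), (nat_lit 3597141), (nat_lit 8273305)]) (PF.cons PF.nil PF.nil))))) (PF.cons (PF.cons (PF.leaf (nat_lit 7962564) (nat_lit 1660526) (nat_lit 36725874) (nat_lit 13541290) [(nat_lit 0), (nat_lit 1660526), (nat_lit 3591327), (nat_lit 8268741)]) (PF.cons (PF.leaf (nat_lit 8273357) (nat_lit 542241) (nat_lit 36301824) (nat_lit 13449178) [(nat_lit 542241), (nat_lit 1665943), (nat_lit 3587921), (nat_lit 8229816)]) (PF.cons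
 PF.nil (PF.cons PF.nil PF.nil)))) (PF.cons (PF.cons (PF.leaf (nat_lit 8668877) (nat_lit 1667820) (nat_lit 35461840) (nat_lit 13258786) [(nat_lit 0), (nat_lit 1667820), (nat_lit 3572553), (nat_lit 8144348)]) (PF.cons PF.nil PF.nil)) (PF.cons PF.nil PF.nil)))))) (PF.cons (PF.cons (PF.cons (PF.leaf (nat_lit 7034265) (nat_lit 3579129) (nat_lit 37835240) (nat_lit 13764483) [(nat_lit 0), (nat_lit 0), (nat_lit 3579129), (nat_lit 8350829)]) (PF.cons (PF.leaf (nat_lit 7324356) (nat_lit 515814) (nat_lit 37432972) (nat_lit 13681543) [(nat_lit 515814), (nat_lit 0), (nat_lit 3580119), (nat_lit 8318245)]) (PF.cons (PF.leaf (nat_lit 7624042) (nat_lit 524553) (nat_lit 37021557) (nat_lit 13595162) [(nat_lit 524553), (nat_lit 0), (nat_lit 3579770), (nat_lit 8283446)]) (PF.cons (PF.leaf (nat_lit 7931016) (nat_lit 532130) (nat_lit 36603787) (nat_lit 13505852) [(nat_lit 532130), (nat_lit 0), (nat_lit 3578083), (nat_lit 8246613)]) (PF.cons (PF.leaf (nat_lit 8243814) (nat_lit 538724) (nat_lit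 36181817) (nat_lit 13414029) [(nat_lit 538724), (nat_lit 0), (nat_lit 3575082), (nat_lit 8207904)]) PF.nil))))) (PF.cons (PF.cons (PF.leaf (nat_lit 7720081) (nat_lit 1643706) (nat_lit 36582932) (nat_lit 13498028)
 [(nat_lit 0), (nat_lit 1643706), (nat_lit 3571873), (nat_lit 8240398)]) (PF.cons (PF.leaf (nat_lit 8020063) (nat_lit 531024) (nat_lit 36176433) (nat_lit 13409581) [(nat_lit 531024), (nat_lit 1650077), (nat_lit 3569259), (nat_lit 8203176)]) (PF.cons (PF.leaf (nat_lit 8326866) (nat_lit 537590) (nat_lit 35764847) (nat_lit 13318505) [(nat_lit 537590), (nat_lit 1655382), (nat_lit 3565408), (nat_lit 8164078)]) (PF.cons PF.nil PF.nil)))) (PF.cons (PF.cons (PF.leaf (nat_lit 8410913) (nat_lit 1653167) (nat_lit 35350829) (nat_lit 13222233) [(nat_lit 0), (nat_lit 1653167), (nat_lit 3555036), (nat_lit 8119342)]) (PF.cons (PF.leaf (nat_lit 8716627) (nat_lit 541814) (nat_lit 34946445) (nat_lit 13129841) [(nat_lit 541814), (nat_lit 1656923), (nat_lit 3549278), (nat_lit 8078308)])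 PF.nil)) (PF.cons PF.nil (PF.cons PF.nil PF.nil))))) (PF.cons (PF.cons (PF.cons (PF.leaf (nat_lit 8165492) (nat_lit 3536743) (nat_lit 35223873) (nat_lit 13182055) [(nat_lit 0), (nat_lit 0), (nat_lit 3536743), (nat_lit 8092651)]) (PF.cons (PF.leaf (nat_lit 8461114) (nat_lit 531133) (nat_lit 34835626) (nat_lit 13093258) [(nat_lit 531133), (nat_lit 0), (nat_lit 3531808), (nat_lit 8053370)]) (PF.cons (PF.leaf (nat_lit
 8763034) (nat_lit 536996) (nat_lit 34443027) (nat_lit 13002109) [(nat_lit 536996), (nat_lit 0), (nat_lit 3525761), (nat_lit 8012399)]) (PF.cons PF.nil PF.nil)))) (PF.cons (PF.cons (PF.leaf (nat_lit 8840848) (nat_lit 1642489) (nat_lit 34051399) (nat_lit 12906924) [(nat_lit 0), (nat_lit 1642489), (nat_lit 3513800), (nat_lit 7966596)]) (PF.cons PF.nil PF.nil)) (PF.cons PF.nil PF.nil))) (PF.cons (PF.cons (PF.cons (PF.leaf (nat_lit 9253373) (nat_lit 3468853) (nat_lit 32824066) (nat_lit 12597057) [(nat_lit 0), (nat_lit 0), (nat_lit 3468853), (nat_lit 7812272)])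 (PF.cons PF.nil PF.nil)) (PF.cons PF.nil PF.nil)) (PF.cons PF.nil PF.nil)))))) (PF.cons (PF.cons (PF.cons (PF.cons (PF.leaf (nat_lit 6579240) (nat_lit 8209682) (nat_lit 37139698) (nat_lit 13549748) [(nat_lit 0), (nat_lit 0), (nat_lit 0), (nat_lit 8209682)]) (PF.cons (PF.leaf (nat_lit 6844492) (nat_lit 481656) (nat_lit 36786028) (nat_lit 13476813) [(nat_lit 481656), (nat_lit 0), (nat_lit 0), (nat_lit 8182157)]) (PF.cons (PF.leaf (nat_lit 7122951) (nat_lit 493281) (nat_lit 36418131) (nat_lit 13399659) [(nat_lit 493281), (nat_lit 0), (nat_lit 0), (nat_lit 8152229)]) (PF.cons (PF.leaf (nat_lit 7411500) (nat_lit 503275) (nat_lit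
 36039801) (nat_lit 13318966) [(nat_lit 503275), (nat_lit 0), (nat_lit 0), (nat_lit 8120109)]) (PF.cons (PF.leaf (nat_lit 7708142) (nat_lit 511935) (nat_lit 35653873) (nat_lit 13235257) [(nat_lit 511935), (nat_lit 0), (nat_lit 0), (nat_lit 8085970)]) (PF.cons (PF.leaf (nat_lit 8011296) (nat_lit 519474) (nat_lit 35262553) (nat_lit 13148950) [(nat_lit 519474), (nat_lit 0), (nat_lit 0), (nat_lit 8049967)]) (PF.cons PF.nil PF.nil))))))) (PF.cons (PF.cons (PF.leaf (nat_lit 7227544) (nat_lit 1586676) (nat_lit 35993246) (nat_lit 13305672) [(nat_lit 0), (nat_lit 1586676), (nat_lit 0), (nat_lit 8111608)]) (PF.cons (PF.leaf (nat_lit 7508189) (nat_lit 502534) (nat_lit 35626123) (nat_lit 13225964) [(nat_lit 502534), (nat_lit 1595941), (nat_lit 0), (nat_lit 8079124)]) (PF.cons (PF.leaf (nat_lit 7798256) (nat_lit 511182) (nat_lit 35250257) (nat_lit 13143050) [(nat_lit 511182), (nat_lit 1603959), (nat_lit 0), (nat_lit 8044590)]) (PF.cons (PF.leaf (nat_lit 8095529) (nat_lit 518665)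 (nat_lit 34868221) (nat_lit 13057429) [(nat_lit 518665), (nat_lit 1610783), (nat_lit 0), (nat_lit 8008191)]) (PF.cons (PF.leaf (nat_lit 8398536) (nat_lit 525162) (nat_lit 34482004) (nat_lit 12969505) [(nat_lit 525162),
 (nat_lit 1616479), (nat_lit 0), (nat_lit 7970086)]) PF.nil))))) (PF.cons (PF.cons (PF.leaf (nat_lit 7889991) (nat_lit 1603252) (nat_lit 34848194) (nat_lit 13049817) [(nat_lit 0), (nat_lit 1603252), (nat_lit 0), (nat_lit 8002148)]) (PF.cons (PF.leaf (nat_lit 8180466) (nat_lit 517511) (nat_lit 34476291) (nat_lit 12965161) [(nat_lit 517511), (nat_lit 1609401), (nat_lit 0), (nat_lit 7965523)]) (PF.cons (PF.leaf (nat_lit 8477677) (nat_lit 523984) (nat_lit 34099404) (nat_lit 12878082) [(nat_lit 523984), (nat_lit 1614497), (nat_lit 0), (nat_lit 7927181)]) (PF.cons PF.nil PF.nil)))) (PF.cons (PF.cons (PF.leaf (nat_lit 8557930) (nat_lit 1612128) (nat_lit 33719340) (nat_lit 12786060) [(nat_lit 0), (nat_lit 1612128), (nat_lit 0), (nat_lit 7883512)]) (PF.cons (PF.leaf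 (nat_lit 8854220) (nat_lit 528096) (nat_lit 33348566) (nat_lit 12697922) [(nat_lit 528096), (nat_lit 1615729), (nat_lit 0), (nat_lit 7843519)]) PF.nil)) (PF.cons PF.nil PF.nil))))) (PF.cons (PF.cons (PF.cons (PF.leaf (nat_lit 7667701) (nat_lit 3462071) (nat_lit 34696943) (nat_lit 13004137) [(nat_lit 0), (nat_lit 0), (nat_lit 3462071), (nat_lit 7972829)]) (PF.cons (PF.leaf (nat_lit 7945543) (nat_lit 504527) (nat_lit 34344275)
 (nat_lit 12923714) [(nat_lit 504527), (nat_lit 0), (nat_lit 3459928), (nat_lit 7938183)]) (PF.cons (PF.leaf (nat_lit 8232173) (nat_lit 512359) (nat_lit 33983856) (nat_lit 12840344) [(nat_lit 512359), (nat_lit 0), (nat_lit 3456615), (nat_lit 7901639)]) (PF.cons (PF.leaf (nat_lit 8525407) (nat_lit 519075) (nat_lit 33618100) (nat_lit 12754529) [(nat_lit 519075), (nat_lit 0), (nat_lit 3452158), (nat_lit 7863399)]) (PF.cons PF.nil PF.nil))))) (PF.cons (PF.cons (PF.leaf (nat_lit 8317859) (nat_lit 1596441) (nat_lit 33602204) (nat_lit 12747889) [(nat_lit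 0), (nat_lit 1596441), (nat_lit 3446446), (nat_lit 7857915)]) (PF.cons (PF.leaf (nat_lit 8604375) (nat_lit 517470) (nat_lit 33246385) (nat_lit 12663248) [(nat_lit 517470), (nat_lit 1601011), (nat_lit 3441354), (nat_lit 7819671)]) (PF.cons (PF.leaf (nat_lit 8897105) (nat_lit 523270) (nat_lit 32886263) (nat_lit 12576425) [(nat_lit 523270), (nat_lit 1604623), (nat_lit 3435212), (nat_lit 7779873)]) (PF.cons PF.nil PF.nil)))) (PF.cons (PF.cons (PF.leaf (nat_lit 8971634) (nat_lit 1601286) (nat_lit 32526167) (nat_lit 12485745) [(nat_lit 0), (nat_lit 1601286), (nat_lit 3423324), (nat_lit 7735501)]) (PF.cons PF.nil PF.nil)) PF.nil))) (PF.cons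
 (PF.cons (PF.cons (PF.leaf (nat_lit 8729853) (nat_lit 3406607) (nat_lit 32421944) (nat_lit 12450488) [(nat_lit 0), (nat_lit 0), (nat_lit 3406607), (nat_lit 7711582)]) (PF.cons (PF.leaf (nat_lit 9012140) (nat_lit 516313) (nat_lit 32081977) (nat_lit 12366384) [(nat_lit 516313), (nat_lit 0), (nat_lit 3399845), (nat_lit 7672223)]) (PF.cons PF.nil PF.nil))) (PF.cons (PF.cons (PF.leaf (nat_lit 9369439) (nat_lit 1588124) (nat_lit 31397254) (nat_lit 12191362) [(nat_lit 0), (nat_lit 1588124), (nat_lit 3379223), (nat_lit 7586812)]) PF.nil) PF.nil)) (PF.cons PF.nil (PF.cons PF.nil PF.nil))))) (PF.cons (PF.cons (PF.cons (PF.cons (PF.leaf (nat_lit 8240348) (nat_lit 7606775) (nat_lit 31991570) (nat_lit 12296916) [(nat_lit 0), (nat_lit 0), (nat_lit 0), (nat_lit 7606775)]) (PF.cons (PF.leaf (nat_lit 8506761) (nat_lit 491785) (nat_lit 31681222) (nat_lit 12220452) [(nat_lit 491785), (nat_lit 0), (nat_lit 0), (nat_lit 7571784)]) (PF.cons (PF.leaf (nat_lit 8781316) (nat_lit 498890) (nat_lit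 31364185) (nat_lit 12141424) [(nat_lit 498890), (nat_lit 0), (nat_lit 0), (nat_lit 7535141)]) (PF.cons (PF.leaf (nat_lit 9061936) (nat_lit 504926) (nat_lit 31042556) (nat_lit 12060311) [(nat_lit 504926), (nat_lit
 0), (nat_lit 0), (nat_lit 7497055)]) (PF.cons PF.nil PF.nil))))) (PF.cons (PF.cons (PF.leaf (nat_lit 8858542) (nat_lit 1546800) (nat_lit 31030490) (nat_lit 12054731) [(nat_lit 0), (nat_lit 1546800), (nat_lit 0), (nat_lit 7492263)]) (PF.cons (PF.leaf (nat_lit 9132715) (nat_lit 503005) (nat_lit 30717578) (nat_lit 11974930) [(nat_lit 503005), (nat_lit 1550094), (nat_lit 0), (nat_lit 7454401)]) (PF.cons PF.nil (PF.cons PF.nil PF.nil)))) (PF.cons (PF.cons (PF.leaf (nat_lit 9479471) (nat_lit 1548513) (nat_lit 30085987) (nat_lit 11808804) [(nat_lit 0), (nat_lit 1548513), (nat_lit 0), (nat_lit 7372331)]) (PF.cons PF.nil PF.nil)) PF.nil))) (PF.cons (PF.cons (PF.cons (PF.leaf (nat_lit 9242363) (nat_lit 3277963) (nat_lit 29999771) (nat_lit 11777976) [(nat_lit 0), (nat_lit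 0), (nat_lit 3277963), (nat_lit 7351033)]) (PF.cons (PF.leaf (nat_lit 9512503) (nat_lit 501044) (nat_lit 29700504) (nat_lit 11699177) [(nat_lit 501044), (nat_lit 0), (nat_lit 3270159), (nat_lit 7312641)]) PF.nil)) (PF.cons PF.nil PF.nil)) (PF.cons PF.nil PF.nil))) (PF.cons (PF.cons (PF.cons (PF.cons (PF.leaf (nat_lit 9712675) (nat_lit 7013698) (nat_lit 27891432) (nat_lit 11162585) [(nat_lit 0), (nat_lit 0), (nat_lit 0),
 (nat_lit 7013698)]) (PF.cons PF.nil PF.nil)) (PF.cons PF.nil PF.nil)) (PF.cons PF.nil PF.nil)) (PF.cons PF.nil (PF.cons PF.nil (PF.cons PF.nil PF.nil))))))))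

def p15_26_2_0 : pfC (piC [(nat_lit 37297016), (nat_lit 24651042), (nat_lit 18388512), (nat_lit 12378745)] (nat_lit 6733447)) p15_26_2 (nat_lit 4) (nat_lit 0) (nat_lit 1) = true := by decide +kernel
def p15_26_2_1 : pfC (piC [(nat_lit 37297016), (nat_lit 24651042), (nat_lit 18388512), (nat_lit 12378745)] (nat_lit 6733447)) p15_26_2 (nat_lit 4) (nat_lit 1) (nat_lit 2) = true := by decide +kernel
def p15_26_2_2 : pfC (piC [(nat_lit 37297016), (nat_lit 24651042), (nat_lit 18388512), (nat_lit 12378745)] (nat_lit 6733447)) p15_26_2 (nat_lit 4) (nat_lit 2) (nat_lit 3) = true := by decide +kernel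
def p15_26_2_3 : pfC (piC [(nat_lit 37297016), (nat_lit 24651042), (nat_lit 18388512), (nat_lit 12378745)] (nat_lit 6733447)) p15_26_2 (nat_lit 4) (nat_lit 3) (nat_lit 4) = true := by decide +kernel
def p15_26_2_4 : pfC (piC [(nat_lit 37297016), (nat_lit 24651042), (nat_lit 18388512), (nat_lit 12378745)] (nat_lit 6733447)) p15_26_2 (nat_lit 4) (nat_lit 4) (nat_lit 5) = true := by decide +kernel
def p15_26_2_5 : pfC (piC [(nat_lit 37297016), (nat_lit 24651042), (nat_lit 18388512), (nat_lit 12378745)] (nat_lit 6733447)) p15_26_2 (nat_lit 4) (nat_lit 5) (nat_lit 6) = true := by decide +kernel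
def p15_26_2_6 : pfC (piC [(nat_lit 37297016), (nat_lit 24651042), (nat_lit 18388512), (nat_lit 12378745)] (nat_lit 6733447)) p15_26_2 (nat_lit 4) (nat_lit 6) (nat_lit 7) = true := by decide +kernel
def p15_26_2_7 : pfC (piC [(nat_lit 37297016), (nat_lit 24651042), (nat_lit 18388512), (nat_lit 12378745)] (nat_lit 6733447)) p15_26_2 (nat_lit 4) (nat_lit 7) (nat_lit 8) = true := by decide +kernel
def p15_26_2_8 : pfC (piC [(nat_lit 37297016), (nat_lit 24651042), (nat_lit 18388512), (nat_lit 12378745)] (nat_lit 6733447)) p15_26_2 (nat_lit 4) (nat_lit 8) (nat_lit 9) = true := by decide +kernel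
def p15_26_2_9 : pfC (piC [(nat_lit 37297016), (nat_lit 24651042), (nat_lit 18388512), (nat_lit 12378745)] (nat_lit 6733447)) p15_26_2 (nat_lit 4) (nat_lit 9) (nat_lit 10) = true := by decide +kernel
def p15_26_2_10 : pfC (piC [(nat_lit 37297016), (nat_lit 24651042), (nat_lit 18388512), (nat_lit 12378745)] (nat_lit 6733447)) p15_26_2 (nat_lit 4) (nat_lit 10) (nat_lit 11) = true := by decide +kernel
def p15_26_2_11 : pfC (piC [(nat_lit 37297016), (nat_lit 24651042), (nat_lit 18388512), (nat_lit 12378745)] (nat_lit 6733447)) p15_26_2 (nat_lit 4) (nat_lit 11) (nat_lit 12) = true := by decide +kernel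
def p15_26_2_12 : pfC (piC [(nat_lit 37297016), (nat_lit 24651042), (nat_lit 18388512), (nat_lit 12378745)] (nat_lit 6733447)) p15_26_2 (nat_lit 4) (nat_lit 12) (nat_lit 13) = true := by decide +kernel
def p15_26_2_13 : pfC (piC [(nat_lit 37297016), (nat_lit 24651042), (nat_lit 18388512), (nat_lit 12378745)] (nat_lit 6733447)) p15_26_2 (nat_lit 4) (nat_lit 13) (nat_lit 14) = true := by decide +kernel
def p15_26_2_14 : pfC (piC [(nat_lit 37297016), (nat_lit 24651042), (nat_lit 18388512), (nat_lit 12378745)] (nat_lit 6733447)) p15_26_2 (nat_lit 4) (nat_lit 14) (nat_lit 15) = true := by decide +kernel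
def p15_26_2_15 : pfC (piC [(nat_lit 37297016), (nat_lit 24651042), (nat_lit 18388512), (nat_lit 12378745)] (nat_lit 6733447)) p15_26_2 (nat_lit 4) (nat_lit 15) (nat_lit 16) = true := by decide +kernel
def p15_26_2_16 : pfC (piC [(nat_lit 37297016), (nat_lit 24651042), (nat_lit 18388512), (nat_lit 12378745)] (nat_lit 6733447)) p15_26_2 (nat_lit 4) (nat_lit 16) (nat_lit 17) = true := by decide +kernel
def p15_26_2_17 : pfC (piC [(nat_lit 37297016), (nat_lit 24651042), (nat_lit 18388512), (nat_lit 12378745)] (nat_lit 6733447)) p15_26_2 (nat_lit 4) (nat_lit 17) (nat_lit 18) = true := by decide +kernel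
def p15_26_2_18 : pfC (piC [(nat_lit 37297016), (nat_lit 24651042), (nat_lit 18388512), (nat_lit 12378745)] (nat_lit 6733447)) p15_26_2 (nat_lit 4) (nat_lit 18) (nat_lit 19) = true := by decide +kernel
def p15_26_2_19 : pfC (piC [(nat_lit 37297016), (nat_lit 24651042), (nat_lit 18388512), (nat_lit 12378745)] (nat_lit 6733447)) p15_26_2 (nat_lit 4) (nat_lit 19) (nat_lit 20) = true := by decide +kernel
def p15_26_2_20 : pfC (piC [(nat_lit 37297016), (nat_lit 24651042), (nat_lit 18388512), (nat_lit 12378745)] (nat_lit 6733447)) p15_26_2 (nat_lit 4) (nat_lit 20) (nat_lit 21) = true := by decide +kernel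
def p15_26_2_21 : pfC (piC [(nat_lit 37297016), (nat_lit 24651042), (nat_lit 18388512), (nat_lit 12378745)] (nat_lit 6733447)) p15_26_2 (nat_lit 4) (nat_lit 21) (nat_lit 22) = true := by decide +kernel
def p15_26_2_22 : pfC (piC [(nat_lit 37297016), (nat_lit 24651042), (nat_lit 18388512), (nat_lit 12378745)] (nat_lit 6733447)) p15_26_2 (nat_lit 4) (nat_lit 22) (nat_lit 23) = true := by decide +kernel
def p15_26_2_23 : pfC (piC [(nat_lit 37297016), (nat_lit 24651042), (nat_lit 18388512), (nat_lit 12378745)] (nat_lit 6733447)) p15_26_2 (nat_lit 4) (nat_lit 23) (nat_lit 24) = true := by decide +kernel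
def p15_26_2_24 : pfC (piC [(nat_lit 37297016), (nat_lit 24651042), (nat_lit 18388512), (nat_lit 12378745)] (nat_lit 6733447)) p15_26_2 (nat_lit 4) (nat_lit 24) (nat_lit 25) = true := by decide +kernel
def p15_26_2_25 : pfC (piC [(nat_lit 37297016), (nat_lit 24651042), (nat_lit 18388512), (nat_lit 12378745)] (nat_lit 6733447)) p15_26_2 (nat_lit 4) (nat_lit 25) (nat_lit 26) = true := by decide +kernel
def p15_26_2_26 : pfC (piC [(nat_lit 37297016), (nat_lit 24651042), (nat_lit 18388512), (nat_lit 12378745)] (nat_lit 6733447)) p15_26_2 (nat_lit 4) (nat_lit 26) (nat_lit 27) = true := by decide +kernel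
def p15_26_2_27 : pfC (piC [(nat_lit 37297016), (nat_lit 24651042), (nat_lit 18388512), (nat_lit 12378745)] (nat_lit 6733447)) p15_26_2 (nat_lit 4) (nat_lit 27) (nat_lit 28) = true := by decide +kernel
def p15_26_2_28 : pfC (piC [(nat_lit 37297016), (nat_lit 24651042), (nat_lit 18388512), (nat_lit 12378745)] (nat_lit 6733447)) p15_26_2 (nat_lit 4) (nat_lit 28) (nat_lit 29) = true := by decide +kernel
def p15_26_2_29 : pfC (piC [(nat_lit 37297016), (nat_lit 24651042), (nat_lit 18388512), (nat_lit 12378745)] (nat_lit 6733447)) p15_26_2 (nat_lit 4) (nat_lit 29) (nat_lit 30) = true := by decide +kernel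
def p15_26_2_30 : pfC (piC [(nat_lit 37297016), (nat_lit 24651042), (nat_lit 18388512), (nat_lit 12378745)] (nat_lit 6733447)) p15_26_2 (nat_lit 4) (nat_lit 30) (nat_lit 31) = true := by decide +kernel
def p15_26_2_31 : pfC (piC [(nat_lit 37297016), (nat_lit 24651042), (nat_lit 18388512), (nat_lit 12378745)] (nat_lit 6733447)) p15_26_2 (nat_lit 4) (nat_lit 31) (nat_lit 32) = true := by decide +kernel
def p15_26_2_32 : pfC (piC [(nat_lit 37297016), (nat_lit 24651042), (nat_lit 18388512), (nat_lit 12378745)] (nat_lit 6733447)) p15_26_2 (nat_lit 4) (nat_lit 32) (nat_lit 33) = true := by decide +kernel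
def p15_26_2_33 : pfC (piC [(nat_lit 37297016), (nat_lit 24651042), (nat_lit 18388512), (nat_lit 12378745)] (nat_lit 6733447)) p15_26_2 (nat_lit 4) (nat_lit 33) (nat_lit 34) = true := by decide +kernel
def p15_26_2_34 : pfC (piC [(nat_lit 37297016), (nat_lit 24651042), (nat_lit 18388512), (nat_lit 12378745)] (nat_lit 6733447)) p15_26_2 (nat_lit 4) (nat_lit 34) (nat_lit 35) = true := by decide +kernel
def p15_26_2_35 : pfC (piC [(nat_lit 37297016), (nat_lit 24651042), (nat_lit 18388512), (nat_lit 12378745)] (nat_lit 6733447)) p15_26_2 (nat_lit 4) (nat_lit 35) (nat_lit 36) = true := by decide +kernel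
def p15_26_2_36 : pfC (piC [(nat_lit 37297016), (nat_lit 24651042), (nat_lit 18388512), (nat_lit 12378745)] (nat_lit 6733447)) p15_26_2 (nat_lit 4) (nat_lit 36) (nat_lit 37) = true := by decide +kernel
def p15_26_2_37 : pfC (piC [(nat_lit 37297016), (nat_lit 24651042), (nat_lit 18388512), (nat_lit 12378745)] (nat_lit 6733447)) p15_26_2 (nat_lit 4) (nat_lit 37) (nat_lit 38) = true := by decide +kernel
def p15_26_2_38 : pfC (piC [(nat_lit 37297016), (nat_lit 24651042), (nat_lit 18388512), (nat_lit 12378745)] (nat_lit 6733447)) p15_26_2 (nat_lit 4) (nat_lit 38) (nat_lit 39) = true := by decide +kernel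
def p15_26_2_39 : pfC (piC [(nat_lit 37297016), (nat_lit 24651042), (nat_lit 18388512), (nat_lit 12378745)] (nat_lit 6733447)) p15_26_2 (nat_lit 4) (nat_lit 39) (nat_lit 40) = true := by decide +kernel
def p15_26_2_40 : pfC (piC [(nat_lit 37297016), (nat_lit 24651042), (nat_lit 18388512), (nat_lit 12378745)] (nat_lit 6733447)) p15_26_2 (nat_lit 4) (nat_lit 40) (nat_lit 41) = true := by decide +kernel
def p15_26_2_41 : pfC (piC [(nat_lit 37297016), (nat_lit 24651042), (nat_lit 18388512), (nat_lit 12378745)] (nat_lit 6733447)) p15_26_2 (nat_lit 4) (nat_lit 41) (nat_lit 42) = true := by decide +kernel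
def p15_26_2_42 : pfC (piC [(nat_lit 37297016), (nat_lit 24651042), (nat_lit 18388512), (nat_lit 12378745)] (nat_lit 6733447)) p15_26_2 (nat_lit 4) (nat_lit 42) (nat_lit 43) = true := by decide +kernel
def p15_26_2_43 : pfC (piC [(nat_lit 37297016), (nat_lit 24651042), (nat_lit 18388512), (nat_lit 12378745)] (nat_lit 6733447)) p15_26_2 (nat_lit 4) (nat_lit 43) (nat_lit 44) = true := by decide +kernel
def p15_26_2_44 : pfC (piC [(nat_lit 37297016), (nat_lit 24651042), (nat_lit 18388512), (nat_lit 12378745)] (nat_lit 6733447)) p15_26_2 (nat_lit 4) (nat_lit 44) (nat_lit 45) = true := by decide +kernel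
def p15_26_2_45 : pfC (piC [(nat_lit 37297016), (nat_lit 24651042), (nat_lit 18388512), (nat_lit 12378745)] (nat_lit 6733447)) p15_26_2 (nat_lit 4) (nat_lit 45) (nat_lit 46) = true := by decide +kernel
def p15_26_2_46 : pfC (piC [(nat_lit 37297016), (nat_lit 24651042), (nat_lit 18388512), (nat_lit 12378745)] (nat_lit 6733447)) p15_26_2 (nat_lit 4) (nat_lit 46) (nat_lit 47) = true := by decide +kernel
def p15_26_2_47 : pfC (piC [(nat_lit 37297016), (nat_lit 24651042), (nat_lit 18388512), (nat_lit 12378745)] (nat_lit 6733447)) p15_26_2 (nat_lit 4) (nat_lit 47) (nat_lit 48) = true := by decide +kernel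
def p15_26_2_48 : pfC (piC [(nat_lit 37297016), (nat_lit 24651042), (nat_lit 18388512), (nat_lit 12378745)] (nat_lit 6733447)) p15_26_2 (nat_lit 4) (nat_lit 48) (nat_lit 49) = true := by decide +kernel
def p15_26_2_49 : pfC (piC [(nat_lit 37297016), (nat_lit 24651042), (nat_lit 18388512), (nat_lit 12378745)] (nat_lit 6733447)) p15_26_2 (nat_lit 4) (nat_lit 49) (nat_lit 50) = true := by decide +kernel
def p15_26_2_50 : pfC (piC [(nat_lit 37297016), (nat_lit 24651042), (nat_lit 18388512), (nat_lit 12378745)] (nat_lit 6733447)) p15_26_2 (nat_lit 4) (nat_lit 50) (nat_lit 51) = true := by decide +kernel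
def p15_26_2_51 : pfC (piC [(nat_lit 37297016), (nat_lit 24651042), (nat_lit 18388512), (nat_lit 12378745)] (nat_lit 6733447)) p15_26_2 (nat_lit 4) (nat_lit 51) (nat_lit 52) = true := by decide +kernel
def p15_26_2_52 : pfC (piC [(nat_lit 37297016), (nat_lit 24651042), (nat_lit 18388512), (nat_lit 12378745)] (nat_lit 6733447)) p15_26_2 (nat_lit 4) (nat_lit 52) (nat_lit 53) = true := by decide +kernel
def p15_26_2_53 : pfC (piC [(nat_lit 37297016), (nat_lit 24651042), (nat_lit 18388512), (nat_lit 12378745)] (nat_lit 6733447)) p15_26_2 (nat_lit 4) (nat_lit 53) (nat_lit 54) = true := by decide +kernel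
def p15_26_2_54 : pfC (piC [(nat_lit 37297016), (nat_lit 24651042), (nat_lit 18388512), (nat_lit 12378745)] (nat_lit 6733447)) p15_26_2 (nat_lit 4) (nat_lit 54) (nat_lit 55) = true := by decide +kernel
def p15_26_2_55 : pfC (piC [(nat_lit 37297016), (nat_lit 24651042), (nat_lit 18388512), (nat_lit 12378745)] (nat_lit 6733447)) p15_26_2 (nat_lit 4) (nat_lit 55) (nat_lit 56) = true := by decide +kernel
def p15_26_2_56 : pfC (piC [(nat_lit 37297016), (nat_lit 24651042), (nat_lit 18388512), (nat_lit 12378745)] (nat_lit 6733447)) p15_26_2 (nat_lit 4) (nat_lit 56) (nat_lit 57) = true := by decide +kernel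
def p15_26_2_57 : pfC (piC [(nat_lit 37297016), (nat_lit 24651042), (nat_lit 18388512), (nat_lit 12378745)] (nat_lit 6733447)) p15_26_2 (nat_lit 4) (nat_lit 57) (nat_lit 58) = true := by decide +kernel
def p15_26_2_58 : pfC (piC [(nat_lit 37297016), (nat_lit 24651042), (nat_lit 18388512), (nat_lit 12378745)] (nat_lit 6733447)) p15_26_2 (nat_lit 4) (nat_lit 58) (nat_lit 59) = true := by decide +kernel
def p15_26_2_59 : pfC (piC [(nat_lit 37297016), (nat_lit 24651042), (nat_lit 18388512), (nat_lit 12378745)] (nat_lit 6733447)) p15_26_2 (nat_lit 4) (nat_lit 59) (nat_lit 60) = true := by decide +kernel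
def p15_26_2_60 : pfC (piC [(nat_lit 37297016), (nat_lit 24651042), (nat_lit 18388512), (nat_lit 12378745)] (nat_lit 6733447)) p15_26_2 (nat_lit 4) (nat_lit 60) (nat_lit 61) = true := by decide +kernel
def p15_26_2_61 : pfC (piC [(nat_lit 37297016), (nat_lit 24651042), (nat_lit 18388512), (nat_lit 12378745)] (nat_lit 6733447)) p15_26_2 (nat_lit 4) (nat_lit 61) (nat_lit 62) = true := by decide +kernel
def p15_26_2_62 : pfC (piC [(nat_lit 37297016), (nat_lit 24651042), (nat_lit 18388512), (nat_lit 12378745)] (nat_lit 6733447)) p15_26_2 (nat_lit 4) (nat_lit 62) (nat_lit 63) = true := by decide +kernel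
def p15_26_2_63 : pfC (piC [(nat_lit 37297016), (nat_lit 24651042), (nat_lit 18388512), (nat_lit 12378745)] (nat_lit 6733447)) p15_26_2 (nat_lit 4) (nat_lit 63) (nat_lit 64) = true := by decide +kernel
def p15_26_2_64 : pfC (piC [(nat_lit 37297016), (nat_lit 24651042), (nat_lit 18388512), (nat_lit 12378745)] (nat_lit 6733447)) p15_26_2 (nat_lit 4) (nat_lit 64) (nat_lit 65) = true := by decide +kernel
def p15_26_2_65 : pfC (piC [(nat_lit 37297016), (nat_lit 24651042), (nat_lit 18388512), (nat_lit 12378745)] (nat_lit 6733447)) p15_26_2 (nat_lit 4) (nat_lit 65) (nat_lit 66) = true := by decide +kernel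
def p15_26_2_66 : pfC (piC [(nat_lit 37297016), (nat_lit 24651042), (nat_lit 18388512), (nat_lit 12378745)] (nat_lit 6733447)) p15_26_2 (nat_lit 4) (nat_lit 66) (nat_lit 67) = true := by decide +kernel
def p15_26_2_67 : pfC (piC [(nat_lit 37297016), (nat_lit 24651042), (nat_lit 18388512), (nat_lit 12378745)] (nat_lit 6733447)) p15_26_2 (nat_lit 4) (nat_lit 67) (nat_lit 68) = true := by decide +kernel
def p15_26_2_68 : pfC (piC [(nat_lit 37297016), (nat_lit 24651042), (nat_lit 18388512), (nat_lit 12378745)] (nat_lit 6733447)) p15_26_2 (nat_lit 4) (nat_lit 68) (nat_lit 69) = true := by decide +kernel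
def p15_26_2_69 : pfC (piC [(nat_lit 37297016), (nat_lit 24651042), (nat_lit 18388512), (nat_lit 12378745)] (nat_lit 6733447)) p15_26_2 (nat_lit 4) (nat_lit 69) (nat_lit 70) = true := by decide +kernel
def p15_26_2_70 : pfC (piC [(nat_lit 37297016), (nat_lit 24651042), (nat_lit 18388512), (nat_lit 12378745)] (nat_lit 6733447)) p15_26_2 (nat_lit 4) (nat_lit 70) (nat_lit 71) = true := by decide +kernel
def p15_26_2_71 : pfC (piC [(nat_lit 37297016), (nat_lit 24651042), (nat_lit 18388512), (nat_lit 12378745)] (nat_lit 6733447)) p15_26_2 (nat_lit 4) (nat_lit 71) (nat_lit 72) = true := by decide +kernel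
def p15_26_2_72 : pfC (piC [(nat_lit 37297016), (nat_lit 24651042), (nat_lit 18388512), (nat_lit 12378745)] (nat_lit 6733447)) p15_26_2 (nat_lit 4) (nat_lit 72) (nat_lit 73) = true := by decide +kernel
def p15_26_2_73 : pfC (piC [(nat_lit 37297016), (nat_lit 24651042), (nat_lit 18388512), (nat_lit 12378745)] (nat_lit 6733447)) p15_26_2 (nat_lit 4) (nat_lit 73) (nat_lit 74) = true := by decide +kernel
def p15_26_2_74 : pfC (piC [(nat_lit 37297016), (nat_lit 24651042), (nat_lit 18388512), (nat_lit 12378745)] (nat_lit 6733447)) p15_26_2 (nat_lit 4) (nat_lit 74) (nat_lit 75) = true := by decide +kernel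
def p15_26_2_75 : pfC (piC [(nat_lit 37297016), (nat_lit 24651042), (nat_lit 18388512), (nat_lit 12378745)] (nat_lit 6733447)) p15_26_2 (nat_lit 4) (nat_lit 75) (nat_lit 76) = true := by decide +kernel
def p15_26_2_76 : pfC (piC [(nat_lit 37297016), (nat_lit 24651042), (nat_lit 18388512), (nat_lit 12378745)] (nat_lit 6733447)) p15_26_2 (nat_lit 4) (nat_lit 76) (nat_lit 77) = true := by decide +kernel
def p15_26_2_77 : pfC (piC [(nat_lit 37297016), (nat_lit 24651042), (nat_lit 18388512), (nat_lit 12378745)] (nat_lit 6733447)) p15_26_2 (nat_lit 4) (nat_lit 77) (nat_lit 78) = true := by decide +kernel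
def p15_26_2_78 : pfC (piC [(nat_lit 37297016), (nat_lit 24651042), (nat_lit 18388512), (nat_lit 12378745)] (nat_lit 6733447)) p15_26_2 (nat_lit 4) (nat_lit 78) (nat_lit 79) = true := by decide +kernel
def p15_26_2_79 : pfC (piC [(nat_lit 37297016), (nat_lit 24651042), (nat_lit 18388512), (nat_lit 12378745)] (nat_lit 6733447)) p15_26_2 (nat_lit 4) (nat_lit 79) (nat_lit 80) = true := by decide +kernel
def p15_26_2_80 : pfC (piC [(nat_lit 37297016), (nat_lit 24651042), (nat_lit 18388512), (nat_lit 12378745)] (nat_lit 6733447)) p15_26_2 (nat_lit 4) (nat_lit 80) (nat_lit 81) = true := by decide +kernel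
def p15_26_2_81 : pfC (piC [(nat_lit 37297016), (nat_lit 24651042), (nat_lit 18388512), (nat_lit 12378745)] (nat_lit 6733447)) p15_26_2 (nat_lit 4) (nat_lit 81) (nat_lit 82) = true := by decide +kernel
def p15_26_2_82 : pfC (piC [(nat_lit 37297016), (nat_lit 24651042), (nat_lit 18388512), (nat_lit 12378745)] (nat_lit 6733447)) p15_26_2 (nat_lit 4) (nat_lit 82) (nat_lit 83) = true := by decide +kernel
def p15_26_2_83 : pfC (piC [(nat_lit 37297016), (nat_lit 24651042), (nat_lit 18388512), (nat_lit 12378745)] (nat_lit 6733447)) p15_26_2 (nat_lit 4) (nat_lit 83) (nat_lit 84) = true := by decide +kernel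
def p15_26_2_84 : pfC (piC [(nat_lit 37297016), (nat_lit 24651042), (nat_lit 18388512), (nat_lit 12378745)] (nat_lit 6733447)) p15_26_2 (nat_lit 4) (nat_lit 84) (nat_lit 85) = true := by decide +kernel
def p15_26_2_85 : pfC (piC [(nat_lit 37297016), (nat_lit 24651042), (nat_lit 18388512), (nat_lit 12378745)] (nat_lit 6733447)) p15_26_2 (nat_lit 4) (nat_lit 85) (nat_lit 86) = true := by decide +kernel
def p15_26_2_86 : pfC (piC [(nat_lit 37297016), (nat_lit 24651042), (nat_lit 18388512), (nat_lit 12378745)] (nat_lit 6733447)) p15_26_2 (nat_lit 4) (nat_lit 86) (nat_lit 87) = true := by decide +kernel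
def p15_26_2_87 : pfC (piC [(nat_lit 37297016), (nat_lit 24651042), (nat_lit 18388512), (nat_lit 12378745)] (nat_lit 6733447)) p15_26_2 (nat_lit 4) (nat_lit 87) (nat_lit 88) = true := by decide +kernel
def p15_26_2_88 : pfC (piC [(nat_lit 37297016), (nat_lit 24651042), (nat_lit 18388512), (nat_lit 12378745)] (nat_lit 6733447)) p15_26_2 (nat_lit 4) (nat_lit 88) (nat_lit 89) = true := by decide +kernel
def p15_26_2_89 : pfC (piC [(nat_lit 37297016), (nat_lit 24651042), (nat_lit 18388512), (nat_lit 12378745)] (nat_lit 6733447)) p15_26_2 (nat_lit 4) (nat_lit 89) (nat_lit 90) = true := by decide +kernel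
def p15_26_2_90 : pfC (piC [(nat_lit 37297016), (nat_lit 24651042), (nat_lit 18388512), (nat_lit 12378745)] (nat_lit 6733447)) p15_26_2 (nat_lit 4) (nat_lit 90) (nat_lit 91) = true := by decide +kernel
def p15_26_2_91 : pfC (piC [(nat_lit 37297016), (nat_lit 24651042), (nat_lit 18388512), (nat_lit 12378745)] (nat_lit 6733447)) p15_26_2 (nat_lit 4) (nat_lit 91) (nat_lit 92) = true := by decide +kernel
def p15_26_2_92 : pfC (piC [(nat_lit 37297016), (nat_lit 24651042), (nat_lit 18388512), (nat_lit 12378745)] (nat_lit 6733447)) p15_26_2 (nat_lit 4) (nat_lit 92) (nat_lit 93) = true := by decide +kernel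
def p15_26_2_93 : pfC (piC [(nat_lit 37297016), (nat_lit 24651042), (nat_lit 18388512), (nat_lit 12378745)] (nat_lit 6733447)) p15_26_2 (nat_lit 4) (nat_lit 93) (nat_lit 94) = true := by decide +kernel
def p15_26_2_94 : pfC (piC [(nat_lit 37297016), (nat_lit 24651042), (nat_lit 18388512), (nat_lit 12378745)] (nat_lit 6733447)) p15_26_2 (nat_lit 4) (nat_lit 94) (nat_lit 95) = true := by decide +kernel
def p15_26_2_95 : pfC (piC [(nat_lit 37297016), (nat_lit 24651042), (nat_lit 18388512), (nat_lit 12378745)] (nat_lit 6733447)) p15_26_2 (nat_lit 4) (nat_lit 95) (nat_lit 96) = true := by decide +kernel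
def p15_26_2_96 : pfC (piC [(nat_lit 37297016), (nat_lit 24651042), (nat_lit 18388512), (nat_lit 12378745)] (nat_lit 6733447)) p15_26_2 (nat_lit 4) (nat_lit 96) (nat_lit 97) = true := by decide +kernel
def p15_26_2_97 : pfC (piC [(nat_lit 37297016), (nat_lit 24651042), (nat_lit 18388512), (nat_lit 12378745)] (nat_lit 6733447)) p15_26_2 (nat_lit 4) (nat_lit 97) (nat_lit 98) = true := by decide +kernel
def p15_26_2_98 : pfC (piC [(nat_lit 37297016), (nat_lit 24651042), (nat_lit 18388512), (nat_lit 12378745)] (nat_lit 6733447)) p15_26_2 (nat_lit 4) (nat_lit 98) (nat_lit 99) = true := by decide +kernel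
def p15_26_2_99 : pfC (piC [(nat_lit 37297016), (nat_lit 24651042), (nat_lit 18388512), (nat_lit 12378745)] (nat_lit 6733447)) p15_26_2 (nat_lit 4) (nat_lit 99) (nat_lit 100) = true := by decide +kernel
def p15_26_2_100 : pfC (piC [(nat_lit 37297016), (nat_lit 24651042), (nat_lit 18388512), (nat_lit 12378745)] (nat_lit 6733447)) p15_26_2 (nat_lit 4) (nat_lit 100) (nat_lit 101) = true := by decide +kernel
def p15_26_2_101 : pfC (piC [(nat_lit 37297016), (nat_lit 24651042), (nat_lit 18388512), (nat_lit 12378745)] (nat_lit 6733447)) p15_26_2 (nat_lit 4) (nat_lit 101) (nat_lit 102) = true := by decide +kernel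
def p15_26_2_102 : pfC (piC [(nat_lit 37297016), (nat_lit 24651042), (nat_lit 18388512), (nat_lit 12378745)] (nat_lit 6733447)) p15_26_2 (nat_lit 4) (nat_lit 102) (nat_lit 103) = true := by decide +kernel
def p15_26_2_103 : pfC (piC [(nat_lit 37297016), (nat_lit 24651042), (nat_lit 18388512), (nat_lit 12378745)] (nat_lit 6733447)) p15_26_2 (nat_lit 4) (nat_lit 103) (nat_lit 104) = true := by decide +kernel
def p15_26_2_104 : pfC (piC [(nat_lit 37297016), (nat_lit 24651042), (nat_lit 18388512), (nat_lit 12378745)] (nat_lit 6733447)) p15_26_2 (nat_lit 4) (nat_lit 104) (nat_lit 105) = true := by decide +kernel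
def p15_26_2_105 : pfC (piC [(nat_lit 37297016), (nat_lit 24651042), (nat_lit 18388512), (nat_lit 12378745)] (nat_lit 6733447)) p15_26_2 (nat_lit 4) (nat_lit 105) (nat_lit 106) = true := by decide +kernel
def p15_26_2_106 : pfC (piC [(nat_lit 37297016), (nat_lit 24651042), (nat_lit 18388512), (nat_lit 12378745)] (nat_lit 6733447)) p15_26_2 (nat_lit 4) (nat_lit 106) (nat_lit 107) = true := by decide +kernel
def p15_26_2_107 : pfC (piC [(nat_lit 37297016), (nat_lit 24651042), (nat_lit 18388512), (nat_lit 12378745)] (nat_lit 6733447)) p15_26_2 (nat_lit 4) (nat_lit 107) (nat_lit 108) = true := by decide +kernel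
def p15_26_2_108 : pfC (piC [(nat_lit 37297016), (nat_lit 24651042), (nat_lit 18388512), (nat_lit 12378745)] (nat_lit 6733447)) p15_26_2 (nat_lit 4) (nat_lit 108) (nat_lit 109) = true := by decide +kernel
def p15_26_2_109 : pfC (piC [(nat_lit 37297016), (nat_lit 24651042), (nat_lit 18388512), (nat_lit 12378745)] (nat_lit 6733447)) p15_26_2 (nat_lit 4) (nat_lit 109) (nat_lit 110) = true := by decide +kernel
def p15_26_2_110 : pfC (piC [(nat_lit 37297016), (nat_lit 24651042), (nat_lit 18388512), (nat_lit 12378745)] (nat_lit 6733447)) p15_26_2 (nat_lit 4) (nat_lit 110) (nat_lit 111) = true := by decide +kernel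
def p15_26_2_111 : pfC (piC [(nat_lit 37297016), (nat_lit 24651042), (nat_lit 18388512), (nat_lit 12378745)] (nat_lit 6733447)) p15_26_2 (nat_lit 4) (nat_lit 111) (nat_lit 112) = true := by decide +kernel
def p15_26_2_112 : pfC (piC [(nat_lit 37297016), (nat_lit 24651042), (nat_lit 18388512), (nat_lit 12378745)] (nat_lit 6733447)) p15_26_2 (nat_lit 4) (nat_lit 112) (nat_lit 113) = true := by decide +kernel
def p15_26_2_113 : pfC (piC [(nat_lit 37297016), (nat_lit 24651042), (nat_lit 18388512), (nat_lit 12378745)] (nat_lit 6733447)) p15_26_2 (nat_lit 4) (nat_lit 113) (nat_lit 114) = true := by decide +kernel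
def p15_26_2_114 : pfC (piC [(nat_lit 37297016), (nat_lit 24651042), (nat_lit 18388512), (nat_lit 12378745)] (nat_lit 6733447)) p15_26_2 (nat_lit 4) (nat_lit 114) (nat_lit 115) = true := by decide +kernel
def p15_26_2_115 : pfC (piC [(nat_lit 37297016), (nat_lit 24651042), (nat_lit 18388512), (nat_lit 12378745)] (nat_lit 6733447)) p15_26_2 (nat_lit 4) (nat_lit 115) (nat_lit 116) = true := by decide +kernel
def p15_26_2_116 : pfC (piC [(nat_lit 37297016), (nat_lit 24651042), (nat_lit 18388512), (nat_lit 12378745)] (nat_lit 6733447)) p15_26_2 (nat_lit 4) (nat_lit 116) (nat_lit 117) = true := by decide +kernel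
def p15_26_2_117 : pfC (piC [(nat_lit 37297016), (nat_lit 24651042), (nat_lit 18388512), (nat_lit 12378745)] (nat_lit 6733447)) p15_26_2 (nat_lit 4) (nat_lit 117) (nat_lit 118) = true := by decide +kernel
def p15_26_2_118 : pfC (piC [(nat_lit 37297016), (nat_lit 24651042), (nat_lit 18388512), (nat_lit 12378745)] (nat_lit 6733447)) p15_26_2 (nat_lit 4) (nat_lit 118) (nat_lit 119) = true := by decide +kernel
def p15_26_2_119 : pfC (piC [(nat_lit 37297016), (nat_lit 24651042), (nat_lit 18388512), (nat_lit 12378745)] (nat_lit 6733447)) p15_26_2 (nat_lit 4) (nat_lit 119) (nat_lit 120) = true := by decide +kernel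
def p15_26_2_120 : pfC (piC [(nat_lit 37297016), (nat_lit 24651042), (nat_lit 18388512), (nat_lit 12378745)] (nat_lit 6733447)) p15_26_2 (nat_lit 4) (nat_lit 120) (nat_lit 121) = true := by decide +kernel
def p15_26_2_121 : pfC (piC [(nat_lit 37297016), (nat_lit 24651042), (nat_lit 18388512), (nat_lit 12378745)] (nat_lit 6733447)) p15_26_2 (nat_lit 4) (nat_lit 121) (nat_lit 122) = true := by decide +kernel
def p15_26_2_122 : pfC (piC [(nat_lit 37297016), (nat_lit 24651042), (nat_lit 18388512), (nat_lit 12378745)] (nat_lit 6733447)) p15_26_2 (nat_lit 4) (nat_lit 122) (nat_lit 123) = true := by decide +kernel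
def p15_26_2_123 : pfC (piC [(nat_lit 37297016), (nat_lit 24651042), (nat_lit 18388512), (nat_lit 12378745)] (nat_lit 6733447)) p15_26_2 (nat_lit 4) (nat_lit 123) (nat_lit 124) = true := by decide +kernel
def p15_26_2_124 : pfC (piC [(nat_lit 37297016), (nat_lit 24651042), (nat_lit 18388512), (nat_lit 12378745)] (nat_lit 6733447)) p15_26_2 (nat_lit 4) (nat_lit 124) (nat_lit 125) = true := by decide +kernel
def p15_26_2_125 : pfC (piC [(nat_lit 37297016), (nat_lit 24651042), (nat_lit 18388512), (nat_lit 12378745)] (nat_lit 6733447)) p15_26_2 (nat_lit 4) (nat_lit 125) (nat_lit 126) = true := by decide +kernel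
def p15_26_2_126 : pfC (piC [(nat_lit 37297016), (nat_lit 24651042), (nat_lit 18388512), (nat_lit 12378745)] (nat_lit 6733447)) p15_26_2 (nat_lit 4) (nat_lit 126) (nat_lit 127) = true := by decide +kernel
def p15_26_2_127 : pfC (piC [(nat_lit 37297016), (nat_lit 24651042), (nat_lit 18388512), (nat_lit 12378745)] (nat_lit 6733447)) p15_26_2 (nat_lit 4) (nat_lit 127) (nat_lit 128) = true := by decide +kernel
def p15_26_2_128 : pfC (piC [(nat_lit 37297016), (nat_lit 24651042), (nat_lit 18388512), (nat_lit 12378745)] (nat_lit 6733447)) p15_26_2 (nat_lit 4) (nat_lit 128) (nat_lit 129) = true := by decide +kernel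
def p15_26_2_129 : pfC (piC [(nat_lit 37297016), (nat_lit 24651042), (nat_lit 18388512), (nat_lit 12378745)] (nat_lit 6733447)) p15_26_2 (nat_lit 4) (nat_lit 129) (nat_lit 130) = true := by decide +kernel
def p15_26_2_130 : pfC (piC [(nat_lit 37297016), (nat_lit 24651042), (nat_lit 18388512), (nat_lit 12378745)] (nat_lit 6733447)) p15_26_2 (nat_lit 4) (nat_lit 130) (nat_lit 131) = true := by decide +kernel
def p15_26_2_131 : pfC (piC [(nat_lit 37297016), (nat_lit 24651042), (nat_lit 18388512), (nat_lit 12378745)] (nat_lit 6733447)) p15_26_2 (nat_lit 4) (nat_lit 131) (nat_lit 132) = true := by decide +kernel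
def p15_26_2_132 : pfC (piC [(nat_lit 37297016), (nat_lit 24651042), (nat_lit 18388512), (nat_lit 12378745)] (nat_lit 6733447)) p15_26_2 (nat_lit 4) (nat_lit 132) (nat_lit 133) = true := by decide +kernel
def p15_26_2_133 : pfC (piC [(nat_lit 37297016), (nat_lit 24651042), (nat_lit 18388512), (nat_lit 12378745)] (nat_lit 6733447)) p15_26_2 (nat_lit 4) (nat_lit 133) (nat_lit 134) = true := by decide +kernel
def p15_26_2_134 : pfC (piC [(nat_lit 37297016), (nat_lit 24651042), (nat_lit 18388512), (nat_lit 12378745)] (nat_lit 6733447)) p15_26_2 (nat_lit 4) (nat_lit 134) (nat_lit 135) = true := by decide +kernel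
def p15_26_2_135 : pfC (piC [(nat_lit 37297016), (nat_lit 24651042), (nat_lit 18388512), (nat_lit 12378745)] (nat_lit 6733447)) p15_26_2 (nat_lit 4) (nat_lit 135) (nat_lit 136) = true := by decide +kernel
def p15_26_2_136 : pfC (piC [(nat_lit 37297016), (nat_lit 24651042), (nat_lit 18388512), (nat_lit 12378745)] (nat_lit 6733447)) p15_26_2 (nat_lit 4) (nat_lit 136) (nat_lit 137) = true := by decide +kernel
def p15_26_2_137 : pfC (piC [(nat_lit 37297016), (nat_lit 24651042), (nat_lit 18388512), (nat_lit 12378745)] (nat_lit 6733447)) p15_26_2 (nat_lit 4) (nat_lit 137) (nat_lit 138) = true := by decide +kernel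
def p15_26_2_138 : pfC (piC [(nat_lit 37297016), (nat_lit 24651042), (nat_lit 18388512), (nat_lit 12378745)] (nat_lit 6733447)) p15_26_2 (nat_lit 4) (nat_lit 138) (nat_lit 139) = true := by decide +kernel
def p15_26_2_139 : pfC (piC [(nat_lit 37297016), (nat_lit 24651042), (nat_lit 18388512), (nat_lit 12378745)] (nat_lit 6733447)) p15_26_2 (nat_lit 4) (nat_lit 139) (nat_lit 140) = true := by decide +kernel
def p15_26_2_140 : pfC (piC [(nat_lit 37297016), (nat_lit 24651042), (nat_lit 18388512), (nat_lit 12378745)] (nat_lit 6733447)) p15_26_2 (nat_lit 4) (nat_lit 140) (nat_lit 141) = true := by decide +kernel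
def p15_26_2_141 : pfC (piC [(nat_lit 37297016), (nat_lit 24651042), (nat_lit 18388512), (nat_lit 12378745)] (nat_lit 6733447)) p15_26_2 (nat_lit 4) (nat_lit 141) (nat_lit 142) = true := by decide +kernel
def p15_26_2_142 : pfC (piC [(nat_lit 37297016), (nat_lit 24651042), (nat_lit 18388512), (nat_lit 12378745)] (nat_lit 6733447)) p15_26_2 (nat_lit 4) (nat_lit 142) (nat_lit 143) = true := by decide +kernel
def p15_26_2_143 : pfC (piC [(nat_lit 37297016), (nat_lit 24651042), (nat_lit 18388512), (nat_lit 12378745)] (nat_lit 6733447)) p15_26_2 (nat_lit 4) (nat_lit 143) (nat_lit 144) = true := by decide +kernel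
def p15_26_2_144 : pfC (piC [(nat_lit 37297016), (nat_lit 24651042), (nat_lit 18388512), (nat_lit 12378745)] (nat_lit 6733447)) p15_26_2 (nat_lit 4) (nat_lit 144) (nat_lit 145) = true := by decide +kernel
def p15_26_2_145 : pfC (piC [(nat_lit 37297016), (nat_lit 24651042), (nat_lit 18388512), (nat_lit 12378745)] (nat_lit 6733447)) p15_26_2 (nat_lit 4) (nat_lit 145) (nat_lit 146) = true := by decide +kernel
def p15_26_2_146 : pfC (piC [(nat_lit 37297016), (nat_lit 24651042), (nat_lit 18388512), (nat_lit 12378745)] (nat_lit 6733447)) p15_26_2 (nat_lit 4) (nat_lit 146) (nat_lit 147) = true := by decide +kernel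
def p15_26_2_147 : pfC (piC [(nat_lit 37297016), (nat_lit 24651042), (nat_lit 18388512), (nat_lit 12378745)] (nat_lit 6733447)) p15_26_2 (nat_lit 4) (nat_lit 147) (nat_lit 148) = true := by decide +kernel
def p15_26_2_148 : pfC (piC [(nat_lit 37297016), (nat_lit 24651042), (nat_lit 18388512), (nat_lit 12378745)] (nat_lit 6733447)) p15_26_2 (nat_lit 4) (nat_lit 148) (nat_lit 149) = true := by decide +kernel
def p15_26_2_149 : pfC (piC [(nat_lit 37297016), (nat_lit 24651042), (nat_lit 18388512), (nat_lit 12378745)] (nat_lit 6733447)) p15_26_2 (nat_lit 4) (nat_lit 149) (nat_lit 150) = true := by decide +kernel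
def p15_26_2_150 : pfC (piC [(nat_lit 37297016), (nat_lit 24651042), (nat_lit 18388512), (nat_lit 12378745)] (nat_lit 6733447)) p15_26_2 (nat_lit 4) (nat_lit 150) (nat_lit 151) = true := by decide +kernel
def p15_26_2_151 : pfC (piC [(nat_lit 37297016), (nat_lit 24651042), (nat_lit 18388512), (nat_lit 12378745)] (nat_lit 6733447)) p15_26_2 (nat_lit 4) (nat_lit 151) (nat_lit 152) = true := by decide +kernel
def p15_26_2_152 : pfC (piC [(nat_lit 37297016), (nat_lit 24651042), (nat_lit 18388512), (nat_lit 12378745)] (nat_lit 6733447)) p15_26_2 (nat_lit 4) (nat_lit 152) (nat_lit 153) = true := by decide +kernel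
def p15_26_2_153 : pfC (piC [(nat_lit 37297016), (nat_lit 24651042), (nat_lit 18388512), (nat_lit 12378745)] (nat_lit 6733447)) p15_26_2 (nat_lit 4) (nat_lit 153) (nat_lit 154) = true := by decide +kernel
def p15_26_2_154 : pfC (piC [(nat_lit 37297016), (nat_lit 24651042), (nat_lit 18388512), (nat_lit 12378745)] (nat_lit 6733447)) p15_26_2 (nat_lit 4) (nat_lit 154) (nat_lit 155) = true := by decide +kernel
def p15_26_2_155 : pfC (piC [(nat_lit 37297016), (nat_lit 24651042), (nat_lit 18388512), (nat_lit 12378745)] (nat_lit 6733447)) p15_26_2 (nat_lit 4) (nat_lit 155) (nat_lit 156) = true := by decide +kernel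
def p15_26_2_156 : pfC (piC [(nat_lit 37297016), (nat_lit 24651042), (nat_lit 18388512), (nat_lit 12378745)] (nat_lit 6733447)) p15_26_2 (nat_lit 4) (nat_lit 156) (nat_lit 157) = true := by decide +kernel
def p15_26_2_157 : pfC (piC [(nat_lit 37297016), (nat_lit 24651042), (nat_lit 18388512), (nat_lit 12378745)] (nat_lit 6733447)) p15_26_2 (nat_lit 4) (nat_lit 157) (nat_lit 158) = true := by decide +kernel
def p15_26_2_158 : pfC (piC [(nat_lit 37297016), (nat_lit 24651042), (nat_lit 18388512), (nat_lit 12378745)] (nat_lit 6733447)) p15_26_2 (nat_lit 4) (nat_lit 158) (nat_lit 159) = true := by decide +kernel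
def p15_26_2_159 : pfC (piC [(nat_lit 37297016), (nat_lit 24651042), (nat_lit 18388512), (nat_lit 12378745)] (nat_lit 6733447)) p15_26_2 (nat_lit 4) (nat_lit 159) (nat_lit 160) = true := by decide +kernel
def p15_26_2_160 : pfC (piC [(nat_lit 37297016), (nat_lit 24651042), (nat_lit 18388512), (nat_lit 12378745)] (nat_lit 6733447)) p15_26_2 (nat_lit 4) (nat_lit 160) (nat_lit 161) = true := by decide +kernel
def p15_26_2_161 : pfC (piC [(nat_lit 37297016), (nat_lit 24651042), (nat_lit 18388512), (nat_lit 12378745)] (nat_lit 6733447)) p15_26_2 (nat_lit 4) (nat_lit 161) (nat_lit 162) = true := by decide +kernel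
def p15_26_2_162 : pfC (piC [(nat_lit 37297016), (nat_lit 24651042), (nat_lit 18388512), (nat_lit 12378745)] (nat_lit 6733447)) p15_26_2 (nat_lit 4) (nat_lit 162) (nat_lit 163) = true := by decide +kernel
def p15_26_2_163 : pfC (piC [(nat_lit 37297016), (nat_lit 24651042), (nat_lit 18388512), (nat_lit 12378745)] (nat_lit 6733447)) p15_26_2 (nat_lit 4) (nat_lit 163) (nat_lit 164) = true := by decide +kernel
def p15_26_2_164 : pfC (piC [(nat_lit 37297016), (nat_lit 24651042), (nat_lit 18388512), (nat_lit 12378745)] (nat_lit 6733447)) p15_26_2 (nat_lit 4) (nat_lit 164) (nat_lit 165) = true := by decide +kernel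
def p15_26_2_165 : pfC (piC [(nat_lit 37297016), (nat_lit 24651042), (nat_lit 18388512), (nat_lit 12378745)] (nat_lit 6733447)) p15_26_2 (nat_lit 4) (nat_lit 165) (nat_lit 166) = true := by decide +kernel
def p15_26_2_166 : pfC (piC [(nat_lit 37297016), (nat_lit 24651042), (nat_lit 18388512), (nat_lit 12378745)] (nat_lit 6733447)) p15_26_2 (nat_lit 4) (nat_lit 166) (nat_lit 167) = true := by decide +kernel
def p15_26_2_167 : pfC (piC [(nat_lit 37297016), (nat_lit 24651042), (nat_lit 18388512), (nat_lit 12378745)] (nat_lit 6733447)) p15_26_2 (nat_lit 4) (nat_lit 167) (nat_lit 168) = true := by decide +kernel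
def p15_26_2_168 : pfC (piC [(nat_lit 37297016), (nat_lit 24651042), (nat_lit 18388512), (nat_lit 12378745)] (nat_lit 6733447)) p15_26_2 (nat_lit 4) (nat_lit 168) (nat_lit 169) = true := by decide +kernel
def p15_26_2_169 : pfC (piC [(nat_lit 37297016), (nat_lit 24651042), (nat_lit 18388512), (nat_lit 12378745)] (nat_lit 6733447)) p15_26_2 (nat_lit 4) (nat_lit 169) (nat_lit 170) = true := by decide +kernel
def p15_26_2_170 : pfC (piC [(nat_lit 37297016), (nat_lit 24651042), (nat_lit 18388512), (nat_lit 12378745)] (nat_lit 6733447)) p15_26_2 (nat_lit 4) (nat_lit 170) (nat_lit 171) = true := by decide +kernel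
def p15_26_2_171 : pfC (piC [(nat_lit 37297016), (nat_lit 24651042), (nat_lit 18388512), (nat_lit 12378745)] (nat_lit 6733447)) p15_26_2 (nat_lit 4) (nat_lit 171) (nat_lit 172) = true := by decide +kernel
def p15_26_2_172 : pfC (piC [(nat_lit 37297016), (nat_lit 24651042), (nat_lit 18388512), (nat_lit 12378745)] (nat_lit 6733447)) p15_26_2 (nat_lit 4) (nat_lit 172) (nat_lit 173) = true := by decide +kernel
def p15_26_2_173 : pfC (piC [(nat_lit 37297016), (nat_lit 24651042), (nat_lit 18388512), (nat_lit 12378745)] (nat_lit 6733447)) p15_26_2 (nat_lit 4) (nat_lit 173) (nat_lit 174) = true := by decide +kernel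
def p15_26_2_174 : pfC (piC [(nat_lit 37297016), (nat_lit 24651042), (nat_lit 18388512), (nat_lit 12378745)] (nat_lit 6733447)) p15_26_2 (nat_lit 4) (nat_lit 174) (nat_lit 175) = true := by decide +kernel
def p15_26_2_175 : pfC (piC [(nat_lit 37297016), (nat_lit 24651042), (nat_lit 18388512), (nat_lit 12378745)] (nat_lit 6733447)) p15_26_2 (nat_lit 4) (nat_lit 175) (nat_lit 176) = true := by decide +kernel
def p15_26_2_176 : pfC (piC [(nat_lit 37297016), (nat_lit 24651042), (nat_lit 18388512), (nat_lit 12378745)] (nat_lit 6733447)) p15_26_2 (nat_lit 4) (nat_lit 176) (nat_lit 177) = true := by decide +kernel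
def p15_26_2_177 : pfC (piC [(nat_lit 37297016), (nat_lit 24651042), (nat_lit 18388512), (nat_lit 12378745)] (nat_lit 6733447)) p15_26_2 (nat_lit 4) (nat_lit 177) (nat_lit 178) = true := by decide +kernel
def p15_26_2_178 : pfC (piC [(nat_lit 37297016), (nat_lit 24651042), (nat_lit 18388512), (nat_lit 12378745)] (nat_lit 6733447)) p15_26_2 (nat_lit 4) (nat_lit 178) (nat_lit 179) = true := by decide +kernel
def p15_26_2_179 : pfC (piC [(nat_lit 37297016), (nat_lit 24651042), (nat_lit 18388512), (nat_lit 12378745)] (nat_lit 6733447)) p15_26_2 (nat_lit 4) (nat_lit 179) (nat_lit 180) = true := by decide +kernel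
def p15_26_2_180 : pfC (piC [(nat_lit 37297016), (nat_lit 24651042), (nat_lit 18388512), (nat_lit 12378745)] (nat_lit 6733447)) p15_26_2 (nat_lit 4) (nat_lit 180) (nat_lit 181) = true := by decide +kernel
def p15_26_2_181 : pfC (piC [(nat_lit 37297016), (nat_lit 24651042), (nat_lit 18388512), (nat_lit 12378745)] (nat_lit 6733447)) p15_26_2 (nat_lit 4) (nat_lit 181) (nat_lit 182) = true := by decide +kernel
def p15_26_2_182 : pfC (piC [(nat_lit 37297016), (nat_lit 24651042), (nat_lit 18388512), (nat_lit 12378745)] (nat_lit 6733447)) p15_26_2 (nat_lit 4) (nat_lit 182) (nat_lit 183) = true := by decide +kernel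
def p15_26_2_183 : pfC (piC [(nat_lit 37297016), (nat_lit 24651042), (nat_lit 18388512), (nat_lit 12378745)] (nat_lit 6733447)) p15_26_2 (nat_lit 4) (nat_lit 183) (nat_lit 184) = true := by decide +kernel
def p15_26_2_184 : pfC (piC [(nat_lit 37297016), (nat_lit 24651042), (nat_lit 18388512), (nat_lit 12378745)] (nat_lit 6733447)) p15_26_2 (nat_lit 4) (nat_lit 184) (nat_lit 185) = true := by decide +kernel
def p15_26_2_185 : pfC (piC [(nat_lit 37297016), (nat_lit 24651042), (nat_lit 18388512), (nat_lit 12378745)] (nat_lit 6733447)) p15_26_2 (nat_lit 4) (nat_lit 185) (nat_lit 186) = true := by decide +kernel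
def p15_26_2_186 : pfC (piC [(nat_lit 37297016), (nat_lit 24651042), (nat_lit 18388512), (nat_lit 12378745)] (nat_lit 6733447)) p15_26_2 (nat_lit 4) (nat_lit 186) (nat_lit 187) = true := by decide +kernel
def p15_26_2_187 : pfC (piC [(nat_lit 37297016), (nat_lit 24651042), (nat_lit 18388512), (nat_lit 12378745)] (nat_lit 6733447)) p15_26_2 (nat_lit 4) (nat_lit 187) (nat_lit 188) = true := by decide +kernel
def p15_26_2_188 : pfC (piC [(nat_lit 37297016), (nat_lit 24651042), (nat_lit 18388512), (nat_lit 12378745)] (nat_lit 6733447)) p15_26_2 (nat_lit 4) (nat_lit 188) (nat_lit 189) = true := by decide +kernel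
def p15_26_2_189 : pfC (piC [(nat_lit 37297016), (nat_lit 24651042), (nat_lit 18388512), (nat_lit 12378745)] (nat_lit 6733447)) p15_26_2 (nat_lit 4) (nat_lit 189) (nat_lit 190) = true := by decide +kernel
def p15_26_2_190 : pfC (piC [(nat_lit 37297016), (nat_lit 24651042), (nat_lit 18388512), (nat_lit 12378745)] (nat_lit 6733447)) p15_26_2 (nat_lit 4) (nat_lit 190) (nat_lit 191) = true := by decide +kernel
def p15_26_2_191 : pfC (piC [(nat_lit 37297016), (nat_lit 24651042), (nat_lit 18388512), (nat_lit 12378745)] (nat_lit 6733447)) p15_26_2 (nat_lit 4) (nat_lit 191) (nat_lit 192) = true := by decide +kernel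
def p15_26_2_192 : pfC (piC [(nat_lit 37297016), (nat_lit 24651042), (nat_lit 18388512), (nat_lit 12378745)] (nat_lit 6733447)) p15_26_2 (nat_lit 4) (nat_lit 192) (nat_lit 193) = true := by decide +kernel
def p15_26_2_193 : pfC (piC [(nat_lit 37297016), (nat_lit 24651042), (nat_lit 18388512), (nat_lit 12378745)] (nat_lit 6733447)) p15_26_2 (nat_lit 4) (nat_lit 193) (nat_lit 194) = true := by decide +kernel
def p15_26_2_194 : pfC (piC [(nat_lit 37297016), (nat_lit 24651042), (nat_lit 18388512), (nat_lit 12378745)] (nat_lit 6733447)) p15_26_2 (nat_lit 4) (nat_lit 194) (nat_lit 195) = true := by decide +kernel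
def p15_26_2_195 : pfC (piC [(nat_lit 37297016), (nat_lit 24651042), (nat_lit 18388512), (nat_lit 12378745)] (nat_lit 6733447)) p15_26_2 (nat_lit 4) (nat_lit 195) (nat_lit 196) = true := by decide +kernel
def p15_26_2_196 : pfC (piC [(nat_lit 37297016), (nat_lit 24651042), (nat_lit 18388512), (nat_lit 12378745)] (nat_lit 6733447)) p15_26_2 (nat_lit 4) (nat_lit 196) (nat_lit 197) = true := by decide +kernel
def p15_26_2_197 : pfC (piC [(nat_lit 37297016), (nat_lit 24651042), (nat_lit 18388512), (nat_lit 12378745)] (nat_lit 6733447)) p15_26_2 (nat_lit 4) (nat_lit 197) (nat_lit 198) = true := by decide +kernel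
def p15_26_2_198 : pfC (piC [(nat_lit 37297016), (nat_lit 24651042), (nat_lit 18388512), (nat_lit 12378745)] (nat_lit 6733447)) p15_26_2 (nat_lit 4) (nat_lit 198) (nat_lit 199) = true := by decide +kernel
def p15_26_2_199 : pfC (piC [(nat_lit 37297016), (nat_lit 24651042), (nat_lit 18388512), (nat_lit 12378745)] (nat_lit 6733447)) p15_26_2 (nat_lit 4) (nat_lit 199) (nat_lit 200) = true := by decide +kernel
theorem p15_26_2_T : PfS (PiF n15_26.reverse (nat_lit 6733447)) p15_26_2 (nat_lit 4) [] 0 :=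
  pftab_of (los := [(nat_lit 37297016), (nat_lit 24651042), (nat_lit 18388512), (nat_lit 12378745)]) (by decide +kernel) (hi := (nat_lit 200)) (PfP.trans (PfP.trans (PfP.trans (PfP.trans (PfP.trans (PfP.trans (PfP.trans (PfP.trans (PfP.trans (PfP.trans (PfP.trans (PfP.trans (PfP.trans (PfP.trans (PfP.trans (PfP.trans (PfP.trans (PfP.trans (PfP.trans (PfP.trans (PfP.trans (PfP.trans (PfP.trans (PfP.trans (PfP.trans (PfP.trans (PfP.trans (PfP.trans (PfP.trans (PfP.trans (PfP.trans (PfP.trans (PfP.trans (PfP.trans (PfP.trans (PfP.trans (PfP.trans (PfP.trans (PfP.trans (PfP.trans (PfP.trans (PfP.trans (PfP.trans (PfP.trans (PfP.trans (PfP.trans (PfP.trans (PfP.trans (PfP.trans (PfP.trans (PfP.trans (PfP.trans (PfP.trans (PfP.trans (PfP.trans (PfP.trans (PfP.trans (PfP.trans (PfP.trans (PfP.trans (PfP.trans (PfP.trans (PfP.trans (PfP.trans (PfP.trans (PfP.trans (PfP.trans (PfP.trans (PfP.trans (PfP.trans (PfP.trans (PfP.trans (PfP.trans (PfP.trans (PfP.trans (PfP.trans (PfP.trans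 (PfP.trans (PfP.trans (PfP.trans (PfP.trans (PfP.trans (PfP.trans (PfP.trans (PfP.trans (PfP.trans (PfP.trans (PfP.trans (PfP.trans (PfP.trans (PfP.trans (PfP.trans (PfP.trans (PfP.trans (PfP.trans (PfP.trans (PfP.trans (PfP.trans (PfP.trans (PfP.trans (PfP.trans (PfP.trans (PfP.trans (PfP.trans (PfP.trans (PfP.trans (PfP.trans (PfP.trans (PfP.trans
 (PfP.trans (PfP.trans (PfP.trans (PfP.trans (PfP.trans (PfP.trans (PfP.trans (PfP.trans (PfP.trans (PfP.trans (PfP.trans (PfP.trans (PfP.trans (PfP.trans (PfP.trans (PfP.trans (PfP.trans (PfP.trans (PfP.trans (PfP.trans (PfP.trans (PfP.trans (PfP.trans (PfP.trans (PfP.trans (PfP.trans (PfP.trans (PfP.trans (PfP.trans (PfP.trans (PfP.trans (PfP.trans (PfP.trans (PfP.trans (PfP.trans (PfP.trans (PfP.trans (PfP.trans (PfP.trans (PfP.trans (PfP.trans (PfP.trans (PfP.trans (PfP.trans (PfP.trans (PfP.trans (PfP.trans (PfP.trans (PfP.trans (PfP.trans (PfP.trans (PfP.trans (PfP.trans (PfP.trans (PfP.trans (PfP.trans (PfP.trans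 (PfP.trans (PfP.trans (PfP.trans (PfP.trans (PfP.trans (PfP.trans (PfP.trans (PfP.trans (PfP.trans (PfP.trans (PfP.trans (PfP.trans (PfP.trans (PfP.trans (PfP.trans (PfP.trans (PfP.trans (PfP.trans (PfP.trans (PfP.trans (PfP.trans (PfP.trans (PfP.trans (PfP.trans (PfP.trans (PfP.trans (PfP.trans (PfP.trans (PfP.trans (PfP.trans (PfP.trans (PfP.trans (PfP.trans (pfC_sound p15_26_2_0) (pfC_sound p15_26_2_1)) (pfC_sound p15_26_2_2)) (pfC_sound p15_26_2_3)) (pfC_sound p15_26_2_4)) (pfC_sound p15_26_2_5)) (pfC_sound p15_26_2_6)) (pfC_sound p15_26_2_7)) (pfC_sound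
 p15_26_2_8)) (pfC_sound p15_26_2_9)) (pfC_sound p15_26_2_10)) (pfC_sound p15_26_2_11)) (pfC_sound p15_26_2_12)) (pfC_sound p15_26_2_13)) (pfC_sound p15_26_2_14)) (pfC_sound p15_26_2_15)) (pfC_sound p15_26_2_16)) (pfC_sound p15_26_2_17)) (pfC_sound p15_26_2_18)) (pfC_sound p15_26_2_19)) (pfC_sound p15_26_2_20)) (pfC_sound p15_26_2_21)) (pfC_sound p15_26_2_22)) (pfC_sound p15_26_2_23)) (pfC_sound p15_26_2_24)) (pfC_sound p15_26_2_25)) (pfC_sound p15_26_2_26)) (pfC_sound p15_26_2_27)) (pfC_sound p15_26_2_28)) (pfC_sound p15_26_2_29)) (pfC_sound p15_26_2_30)) (pfC_sound p15_26_2_31)) (pfC_sound p15_26_2_32)) (pfC_sound p15_26_2_33)) (pfC_sound p15_26_2_34)) (pfC_sound p15_26_2_35)) (pfC_sound p15_26_2_36)) (pfC_sound p15_26_2_37)) (pfC_sound p15_26_2_38)) (pfC_sound p15_26_2_39)) (pfC_sound p15_26_2_40)) (pfC_sound p15_26_2_41)) (pfC_sound p15_26_2_42)) (pfC_sound p15_26_2_43)) (pfC_sound p15_26_2_44)) (pfC_sound p15_26_2_45)) (pfC_sound p15_26_2_46)) (pfC_sound p15_26_2_47))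 (pfC_sound p15_26_2_48)) (pfC_sound p15_26_2_49)) (pfC_sound p15_26_2_50)) (pfC_sound p15_26_2_51)) (pfC_sound p15_26_2_52)) (pfC_sound p15_26_2_53)) (pfC_sound p15_26_2_54)) (pfC_sound p15_26_2_55)) (pfC_sound
 p15_26_2_56)) (pfC_sound p15_26_2_57)) (pfC_sound p15_26_2_58)) (pfC_sound p15_26_2_59)) (pfC_sound p15_26_2_60)) (pfC_sound p15_26_2_61)) (pfC_sound p15_26_2_62)) (pfC_sound p15_26_2_63)) (pfC_sound p15_26_2_64)) (pfC_sound p15_26_2_65)) (pfC_sound p15_26_2_66)) (pfC_sound p15_26_2_67)) (pfC_sound p15_26_2_68)) (pfC_sound p15_26_2_69)) (pfC_sound p15_26_2_70)) (pfC_sound p15_26_2_71)) (pfC_sound p15_26_2_72)) (pfC_sound p15_26_2_73)) (pfC_sound p15_26_2_74)) (pfC_sound p15_26_2_75)) (pfC_sound p15_26_2_76)) (pfC_sound p15_26_2_77)) (pfC_sound p15_26_2_78)) (pfC_sound p15_26_2_79)) (pfC_sound p15_26_2_80)) (pfC_sound p15_26_2_81)) (pfC_sound p15_26_2_82)) (pfC_sound p15_26_2_83)) (pfC_sound p15_26_2_84)) (pfC_sound p15_26_2_85)) (pfC_sound p15_26_2_86)) (pfC_sound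 p15_26_2_87)) (pfC_sound p15_26_2_88)) (pfC_sound p15_26_2_89)) (pfC_sound p15_26_2_90)) (pfC_sound p15_26_2_91)) (pfC_sound p15_26_2_92)) (pfC_sound p15_26_2_93)) (pfC_sound p15_26_2_94)) (pfC_sound p15_26_2_95)) (pfC_sound p15_26_2_96)) (pfC_sound p15_26_2_97)) (pfC_sound p15_26_2_98)) (pfC_sound p15_26_2_99)) (pfC_sound p15_26_2_100)) (pfC_sound p15_26_2_101)) (pfC_sound p15_26_2_102)) (pfC_sound p15_26_2_103))
 (pfC_sound p15_26_2_104)) (pfC_sound p15_26_2_105)) (pfC_sound p15_26_2_106)) (pfC_sound p15_26_2_107)) (pfC_sound p15_26_2_108)) (pfC_sound p15_26_2_109)) (pfC_sound p15_26_2_110)) (pfC_sound p15_26_2_111)) (pfC_sound p15_26_2_112)) (pfC_sound p15_26_2_113)) (pfC_sound p15_26_2_114)) (pfC_sound p15_26_2_115)) (pfC_sound p15_26_2_116)) (pfC_sound p15_26_2_117)) (pfC_sound p15_26_2_118)) (pfC_sound p15_26_2_119)) (pfC_sound p15_26_2_120)) (pfC_sound p15_26_2_121)) (pfC_sound p15_26_2_122)) (pfC_sound p15_26_2_123)) (pfC_sound p15_26_2_124)) (pfC_sound p15_26_2_125))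 (pfC_sound p15_26_2_126)) (pfC_sound p15_26_2_127)) (pfC_sound p15_26_2_128)) (pfC_sound p15_26_2_129)) (pfC_sound p15_26_2_130)) (pfC_sound p15_26_2_131)) (pfC_sound p15_26_2_132)) (pfC_sound p15_26_2_133)) (pfC_sound p15_26_2_134)) (pfC_sound p15_26_2_135)) (pfC_sound p15_26_2_136)) (pfC_sound p15_26_2_137)) (pfC_sound p15_26_2_138)) (pfC_sound p15_26_2_139)) (pfC_sound p15_26_2_140)) (pfC_sound p15_26_2_141)) (pfC_sound p15_26_2_142)) (pfC_sound p15_26_2_143)) (pfC_sound p15_26_2_144)) (pfC_sound p15_26_2_145)) (pfC_sound p15_26_2_146)) (pfC_sound p15_26_2_147)) (pfC_sound p15_26_2_148)) (pfC_sound p15_26_2_149))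
 (pfC_sound p15_26_2_150)) (pfC_sound p15_26_2_151)) (pfC_sound p15_26_2_152)) (pfC_sound p15_26_2_153)) (pfC_sound p15_26_2_154)) (pfC_sound p15_26_2_155)) (pfC_sound p15_26_2_156)) (pfC_sound p15_26_2_157)) (pfC_sound p15_26_2_158)) (pfC_sound p15_26_2_159)) (pfC_sound p15_26_2_160)) (pfC_sound p15_26_2_161)) (pfC_sound p15_26_2_162)) (pfC_sound p15_26_2_163)) (pfC_sound p15_26_2_164)) (pfC_sound p15_26_2_165)) (pfC_sound p15_26_2_166)) (pfC_sound p15_26_2_167)) (pfC_sound p15_26_2_168)) (pfC_sound p15_26_2_169)) (pfC_sound p15_26_2_170)) (pfC_sound p15_26_2_171)) (pfC_sound p15_26_2_172)) (pfC_sound p15_26_2_173)) (pfC_sound p15_26_2_174)) (pfC_sound p15_26_2_175)) (pfC_sound p15_26_2_176)) (pfC_sound p15_26_2_177)) (pfC_sound p15_26_2_178)) (pfC_sound p15_26_2_179)) (pfC_sound p15_26_2_180)) (pfC_sound p15_26_2_181)) (pfC_sound p15_26_2_182)) (pfC_sound p15_26_2_183)) (pfC_sound p15_26_2_184)) (pfC_sound p15_26_2_185)) (pfC_sound p15_26_2_186)) (pfC_sound p15_26_2_187))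 (pfC_sound p15_26_2_188)) (pfC_sound p15_26_2_189)) (pfC_sound p15_26_2_190)) (pfC_sound p15_26_2_191)) (pfC_sound p15_26_2_192)) (pfC_sound p15_26_2_193)) (pfC_sound p15_26_2_194)) (pfC_sound p15_26_2_195))
 (pfC_sound p15_26_2_196)) (pfC_sound p15_26_2_197)) (pfC_sound p15_26_2_198)) (pfC_sound p15_26_2_199)) (by decide +kernel)

def z15_26_2 : zOK yB15_26 (nat_lit 2) (nat_lit 600) (nat_lit 750) (nat_lit 6733447) (nat_lit 4975805) = true := by decide +kernel
def g15_26_2 : gOK yB15_26.x P15_26 (nat_lit 1412) (q15_26 :: r15_26) (nat_lit 2) (nat_lit 600) (nat_lit 3) (nat_lit 750) (nat_lit 12712500) (nat_lit 12712500) (nat_lit 12712500) (nat_lit 12712500) [(nat_lit 800), (nat_lit 1600)] = true := by decide +kernel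
def v15_26_2 : ivC P15_26 s15_26 w15_26 n15_26 (nat_lit 4) (nat_lit 4765) (nat_lit 2) (nat_lit 600) f160_1_600 f168_1_600 (nat_lit 3) (nat_lit 750) f160_1_750 f168_1_750 (nat_lit 6733447) (nat_lit 4975805) p15_26_2 = true := by decide +kernel
def p15_26_3 : PF := (PF.cons (PF.cons (PF.cons (PF.cons (PF.leaf (nat_lit 2978562) (nat_lit 18988062) (nat_lit 48120750) (nat_lit 18988062) [(nat_lit 0), (nat_lit 0), (nat_lit 0), (nat_lit 0)]) (PF.cons (PF.leaf (nat_lit 3163250) (nat_lit 336549) (nat_lit 47831516) (nat_lit 18940746) [(nat_lit 336549), (nat_lit 0), (nat_lit 0), (nat_lit 0)]) (PF.cons (PF.leaf (nat_lit 3380427) (nat_lit 365087) (nat_lit 47494512) (nat_lit 18884124) [(nat_lit 365087), (nat_lit 0), (nat_lit 0), (nat_lit 0)]) (PF.cons (PF.leaf (nat_lit 3623351) (nat_lit 390087) (nat_lit 47119300) (nat_lit 18819250) [(nat_lit 390087), (nat_lit 0), (nat_lit 0), (nat_lit 0)]) (PF.cons (PF.leaf (nat_lit 3887920) (nat_lit 412314) (nat_lit 46712732) (nat_lit 18746823) [(nat_lit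 412314), (nat_lit 0), (nat_lit 0), (nat_lit 0)]) (PF.cons (PF.leaf (nat_lit 4170950) (nat_lit 432262) (nat_lit 46280123) (nat_lit 18667378) [(nat_lit 432262), (nat_lit 0), (nat_lit 0), (nat_lit 0)]) (PF.cons (PF.leaf (nat_lit 4469885) (nat_lit 450274) (nat_lit 45825806) (nat_lit 18581359) [(nat_lit 450274), (nat_lit 0), (nat_lit 0), (nat_lit 0)]) (PF.cons (PF.leaf (nat_lit 4782570) (nat_lit 466603) (nat_lit 45353422) (nat_lit 18489166) [(nat_lit 466603), (nat_lit 0),
 (nat_lit 0), (nat_lit 0)]) (PF.cons (PF.leaf (nat_lit 5107129) (nat_lit 481442) (nat_lit 44866097) (nat_lit 18391172) [(nat_lit 481442), (nat_lit 0), (nat_lit 0), (nat_lit 0)]) (PF.cons (PF.leaf (nat_lit 5441909) (nat_lit 494946) (nat_lit 44366554) (nat_lit 18287742) [(nat_lit 494946), (nat_lit 0), (nat_lit 0), (nat_lit 0)]) (PF.cons (PF.leaf (nat_lit 5785409) (nat_lit 507239) (nat_lit 43857185) (nat_lit 18179228) [(nat_lit 507239), (nat_lit 0), (nat_lit 0), (nat_lit 0)]) (PF.cons PF.nil PF.nil))))))))))))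 (PF.cons (PF.cons (PF.leaf (nat_lit 3546326) (nat_lit 1384825) (nat_lit 46940241) (nat_lit 18783745) [(nat_lit 0), (nat_lit 1384825), (nat_lit 0), (nat_lit 0)]) (PF.cons (PF.leaf (nat_lit 3780302) (nat_lit 398551) (nat_lit 46572946) (nat_lit 18717486) [(nat_lit 398551), (nat_lit 1419828), (nat_lit 0), (nat_lit 0)]) (PF.cons (PF.leaf (nat_lit 4038184) (nat_lit 420024) (nat_lit 46172270) (nat_lit 18643215) [(nat_lit 420024), (nat_lit 1453279), (nat_lit 0), (nat_lit 0)]) (PF.cons (PF.leaf (nat_lit 4315437) (nat_lit 439220) (nat_lit 45744710) (nat_lit 18561713) [(nat_lit 439220), (nat_lit 1484728), (nat_lit 0), (nat_lit 0)]) (PF.cons (PF.leaf (nat_lit 4609121) (nat_lit 456513)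
 (nat_lit 45295194) (nat_lit 18473569) [(nat_lit 456513), (nat_lit 1513995), (nat_lit 0), (nat_lit 0)]) (PF.cons (PF.leaf (nat_lit 4916854) (nat_lit 472165) (nat_lit 44827677) (nat_lit 18379273) [(nat_lit 472165), (nat_lit 1541034), (nat_lit 0), (nat_lit 0)]) (PF.cons (PF.leaf (nat_lit 5236630) (nat_lit 486372) (nat_lit 44345451) (nat_lit 18279257) [(nat_lit 486372), (nat_lit 1565870), (nat_lit 0), (nat_lit 0)]) (PF.cons (PF.leaf (nat_lit 5566699) (nat_lit 499286) (nat_lit 43851318) (nat_lit 18173925) [(nat_lit 499286), (nat_lit 1588564), (nat_lit 0), (nat_lit 0)]) (PF.cons (PF.leaf (nat_lit 5905613) (nat_lit 511031) (nat_lit 43347705) (nat_lit 18063657) [(nat_lit 511031), (nat_lit 1609198), (nat_lit 0), (nat_lit 0)]) (PF.cons PF.nil PF.nil)))))))))) (PF.cons (PF.cons (PF.leaf (nat_lit 4191633) (nat_lit 1476784) (nat_lit 45621389) (nat_lit 18533855) [(nat_lit 0), (nat_lit 1476784), (nat_lit 0), (nat_lit 0)]) (PF.cons (PF.leaf (nat_lit 4461055) (nat_lit 445008) (nat_lit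 45202572) (nat_lit 18451147) [(nat_lit 445008), (nat_lit 1505041), (nat_lit 0), (nat_lit 0)]) (PF.cons (PF.leaf (nat_lit 4748423) (nat_lit 461782) (nat_lit 44760549) (nat_lit 18361549) [(nat_lit 461782), (nat_lit
 1531574), (nat_lit 0), (nat_lit 0)]) (PF.cons (PF.leaf (nat_lit 5050462) (nat_lit 476904) (nat_lit 44299944) (nat_lit 18265704) [(nat_lit 476904), (nat_lit 1556224), (nat_lit 0), (nat_lit 0)]) (PF.cons (PF.leaf (nat_lit 5364917) (nat_lit 490591) (nat_lit 43824414) (nat_lit 18164142) [(nat_lit 490591), (nat_lit 1578944), (nat_lit 0), (nat_lit 0)]) (PF.cons (PF.leaf (nat_lit 5689955) (nat_lit 503005) (nat_lit 43336967) (nat_lit 18057326) [(nat_lit 503005), (nat_lit 1599746), (nat_lit 0), (nat_lit 0)]) (PF.cons (PF.leaf (nat_lit 6023936) (nat_lit 514274) (nat_lit 42840141) (nat_lit 17945677) [(nat_lit 514274), (nat_lit 1618673), (nat_lit 0), (nat_lit 0)]) (PF.cons (PF.leaf (nat_lit 6365493) (nat_lit 524503) (nat_lit 42336113) (nat_lit 17829591) [(nat_lit 524503),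 (nat_lit 1635791), (nat_lit 0), (nat_lit 0)]) (PF.cons PF.nil PF.nil))))))))) (PF.cons (PF.cons (PF.leaf (nat_lit 4889376) (nat_lit 1547468) (nat_lit 44221228) (nat_lit 18245179) [(nat_lit 0), (nat_lit 1547468), (nat_lit 0), (nat_lit 0)]) (PF.cons (PF.leaf (nat_lit 5184288) (nat_lit 480829) (nat_lit 43769896) (nat_lit 18148437) [(nat_lit 480829), (nat_lit 1569883), (nat_lit 0), (nat_lit 0)]) (PF.cons (PF.leaf (nat_lit
 5492732) (nat_lit 494114) (nat_lit 43302834) (nat_lit 18045861) [(nat_lit 494114), (nat_lit 1590629), (nat_lit 0), (nat_lit 0)]) (PF.cons (PF.leaf (nat_lit 5812178) (nat_lit 506119) (nat_lit 42823442) (nat_lit 17938014) [(nat_lit 506119), (nat_lit 1609666), (nat_lit 0), (nat_lit 0)]) (PF.cons (PF.leaf (nat_lit 6140894) (nat_lit 516985) (nat_lit 42334481) (nat_lit 17825377) [(nat_lit 516985), (nat_lit 1627003), (nat_lit 0), (nat_lit 0)]) (PF.cons (PF.leaf (nat_lit 6477381) (nat_lit 526825) (nat_lit 41838261) (nat_lit 17708388) [(nat_lit 526825), (nat_lit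 1642678), (nat_lit 0), (nat_lit 0)]) (PF.cons PF.nil PF.nil))))))) (PF.cons (PF.cons (PF.leaf (nat_lit 5621222) (nat_lit 1601045) (nat_lit 42780259) (nat_lit 17924372) [(nat_lit 0), (nat_lit 1601045), (nat_lit 0), (nat_lit 0)]) (PF.cons (PF.leaf (nat_lit 5934058) (nat_lit 508632) (nat_lit 42310477) (nat_lit 17816002) [(nat_lit 508632), (nat_lit 1618424), (nat_lit 0), (nat_lit 0)]) (PF.cons (PF.leaf (nat_lit 6256997) (nat_lit 519173) (nat_lit 41830570) (nat_lit 17702807) [(nat_lit 519173), (nat_lit 1634271), (nat_lit 0), (nat_lit 0)]) (PF.cons (PF.leaf (nat_lit 6588053) (nat_lit 528686) (nat_lit 41343082) (nat_lit 17585283)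
 [(nat_lit 528686), (nat_lit 1648597), (nat_lit 0), (nat_lit 0)]) (PF.cons (PF.leaf (nat_lit 6925833) (nat_lit 537269) (nat_lit 40850120) (nat_lit 17463871) [(nat_lit 537269), (nat_lit 1661435), (nat_lit 0), (nat_lit 0)]) PF.nil))))) (PF.cons (PF.cons (PF.leaf (nat_lit 6373176) (nat_lit 1640556) (nat_lit 41328066) (nat_lit 17577962) [(nat_lit 0), (nat_lit 1640556), (nat_lit 0), (nat_lit 0)]) (PF.cons (PF.leaf (nat_lit 6698013) (nat_lit 530087) (nat_lit 40850349) (nat_lit 17460307) [(nat_lit 530087), (nat_lit 1653613), (nat_lit 0), (nat_lit 0)]) (PF.cons (PF.leaf (nat_lit 7030271) (nat_lit 538404) (nat_lit 40366736) (nat_lit 17338768) [(nat_lit 538404), (nat_lit 1665299), (nat_lit 0), (nat_lit 0)]) (PF.cons PF.nil PF.nil)))) (PF.cons (PF.cons (PF.leaf (nat_lit 7134431) (nat_lit 1668390) (nat_lit 39886317) (nat_lit 17212150) [(nat_lit 0), (nat_lit 1668390), (nat_lit 0), (nat_lit 0)]) (PF.cons (PF.leaf (nat_lit 7466622) (nat_lit 546389) (nat_lit 39408504) (nat_lit 17087404)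 [(nat_lit 546389), (nat_lit 1677752), (nat_lit 0), (nat_lit 0)]) PF.nil)) (PF.cons PF.nil (PF.cons PF.nil PF.nil))))))))) (PF.cons (PF.cons (PF.cons (PF.leaf (nat_lit 4075101) (nat_lit 3445766) (nat_lit 45225439)
 (nat_lit 18437606) [(nat_lit 0), (nat_lit 0), (nat_lit 3445766), (nat_lit 0)]) (PF.cons (PF.leaf (nat_lit 4317028) (nat_lit 421855) (nat_lit 44852220) (nat_lit 18362520) [(nat_lit 421855), (nat_lit 0), (nat_lit 3472217), (nat_lit 0)]) (PF.cons (PF.leaf (nat_lit 4581391) (nat_lit 441554) (nat_lit 44448413) (nat_lit 18279396) [(nat_lit 441554), (nat_lit 0), (nat_lit 3497893), (nat_lit 0)]) (PF.cons (PF.leaf (nat_lit 4863634) (nat_lit 458928) (nat_lit 44020653) (nat_lit 18189242) [(nat_lit 458928), (nat_lit 0), (nat_lit 3522130), (nat_lit 0)]) (PF.cons (PF.leaf (nat_lit 5160744) (nat_lit 474410) (nat_lit 43573840) (nat_lit 18092803) [(nat_lit 474410), (nat_lit 0), (nat_lit 3544529), (nat_lit 0)]) (PF.cons (PF.leaf (nat_lit 5470424) (nat_lit 488294) (nat_lit 43111809)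 (nat_lit 17990678) [(nat_lit 488294), (nat_lit 0), (nat_lit 3564852), (nat_lit 0)]) (PF.cons (PF.leaf (nat_lit 5790712) (nat_lit 500795) (nat_lit 42637684) (nat_lit 17883379) [(nat_lit 500795), (nat_lit 0), (nat_lit 3582973), (nat_lit 0)]) (PF.cons (PF.leaf (nat_lit 6119990) (nat_lit 512076) (nat_lit 42154074) (nat_lit 17771364) [(nat_lit 512076), (nat_lit 0), (nat_lit 3598835), (nat_lit 0)]) (PF.cons (PF.leaf (nat_lit
 6456832) (nat_lit 522266) (nat_lit 41663196) (nat_lit 17655050) [(nat_lit 522266), (nat_lit 0), (nat_lit 3612433), (nat_lit 0)]) (PF.cons PF.nil PF.nil)))))))))) (PF.cons (PF.cons (PF.leaf (nat_lit 4728202) (nat_lit 1522934) (nat_lit 43907276) (nat_lit 18161205) [(nat_lit 0), (nat_lit 1522934), (nat_lit 3517396), (nat_lit 0)]) (PF.cons (PF.leaf (nat_lit 5001856) (nat_lit 462717) (nat_lit 43490642) (nat_lit 18070807) [(nat_lit 462717), (nat_lit 1546321), (nat_lit 3538323), (nat_lit 0)]) (PF.cons (PF.leaf (nat_lit 5292059) (nat_lit 477882) (nat_lit 43053393)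 (nat_lit 17973814) [(nat_lit 477882), (nat_lit 1568107), (nat_lit 3557732), (nat_lit 0)]) (PF.cons (PF.leaf (nat_lit 5595558) (nat_lit 491409) (nat_lit 42600070) (nat_lit 17870994) [(nat_lit 491409), (nat_lit 1588188), (nat_lit 3575333), (nat_lit 0)]) (PF.cons (PF.leaf (nat_lit 5910201) (nat_lit 503539) (nat_lit 42134188) (nat_lit 17762959) [(nat_lit 503539), (nat_lit 1606544), (nat_lit 3590961), (nat_lit 0)]) (PF.cons (PF.leaf (nat_lit 6234146) (nat_lit 514451) (nat_lit 41658586) (nat_lit 17650231) [(nat_lit 514451), (nat_lit 1623202), (nat_lit 3604534), (nat_lit 0)]) (PF.cons (PF.leaf (nat_lit 6565893) (nat_lit 524281)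
 (nat_lit 41175616) (nat_lit 17533269) [(nat_lit 524281), (nat_lit 1638210), (nat_lit 3616026), (nat_lit 0)]) (PF.cons PF.nil (PF.cons PF.nil PF.nil))))))))) (PF.cons (PF.cons (PF.leaf (nat_lit 5425255) (nat_lit 1579374) (nat_lit 42530101) (nat_lit 17851217) [(nat_lit 0), (nat_lit 1579374), (nat_lit 3568745), (nat_lit 0)]) (PF.cons (PF.leaf (nat_lit 5721228) (nat_lit 493825) (nat_lit 42087538) (nat_lit 17748324) [(nat_lit 493825), (nat_lit 1597663), (nat_lit 3583797), (nat_lit 0)]) (PF.cons (PF.leaf (nat_lit 6029492) (nat_lit 505691) (nat_lit 41631409) (nat_lit 17640054) [(nat_lit 505691), (nat_lit 1614433), (nat_lit 3597098), (nat_lit 0)]) (PF.cons (PF.leaf (nat_lit 6347628) (nat_lit 516314) (nat_lit 41164958) (nat_lit 17527030) [(nat_lit 516314), (nat_lit 1629670), (nat_lit 3608539), (nat_lit 0)]) (PF.cons (PF.leaf (nat_lit 6673940) (nat_lit 525848) (nat_lit 40690780) (nat_lit 17409775) [(nat_lit 525848), (nat_lit 1643394), (nat_lit 3618072), (nat_lit 0)]) (PF.cons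 (PF.leaf (nat_lit 7007018) (nat_lit 534412) (nat_lit 40211007) (nat_lit 17288748) [(nat_lit 534412), (nat_lit 1655650), (nat_lit 3625692), (nat_lit 0)]) (PF.cons PF.nil PF.nil))))))) (PF.cons (PF.cons (PF.leaf (nat_lit
 6149726) (nat_lit 1621312) (nat_lit 41128781) (nat_lit 17514587) [(nat_lit 0), (nat_lit 1621312), (nat_lit 3601504), (nat_lit 0)]) (PF.cons (PF.leaf (nat_lit 6461033) (nat_lit 517658) (nat_lit 40672823) (nat_lit 17401742) [(nat_lit 517658), (nat_lit 1635210), (nat_lit 3610957), (nat_lit 0)]) (PF.cons (PF.leaf (nat_lit 6781417) (nat_lit 526967) (nat_lit 40208439) (nat_lit 17284586) [(nat_lit 526967), (nat_lit 1647729), (nat_lit 3618665), (nat_lit 0)]) (PF.cons (PF.leaf (nat_lit 7108974) (nat_lit 535293) (nat_lit 39738007) (nat_lit 17163643) [(nat_lit 535293), (nat_lit 1658891), (nat_lit 3624608), (nat_lit 0)]) (PF.cons PF.nil PF.nil))))) (PF.cons (PF.cons (PF.leaf (nat_lit 6889230) (nat_lit 1651269) (nat_lit 39728176) (nat_lit 17157666) [(nat_lit 0),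 (nat_lit 1651269), (nat_lit 3617890), (nat_lit 0)]) (PF.cons (PF.leaf (nat_lit 7210500) (nat_lit 535777) (nat_lit 39267971) (nat_lit 17037174) [(nat_lit 535777), (nat_lit 1661403), (nat_lit 3622275), (nat_lit 0)]) (PF.cons (PF.leaf (nat_lit 7538355) (nat_lit 543035) (nat_lit 38803141) (nat_lit 16913313) [(nat_lit 543035), (nat_lit 1670313), (nat_lit 3625034), (nat_lit 0)]) (PF.cons PF.nil PF.nil)))) (PF.cons (PF.cons (PF.leaf (nat_lit
 7634304) (nat_lit 1671263) (nat_lit 38346114) (nat_lit 16786190) [(nat_lit 0), (nat_lit 1671263), (nat_lit 3620192), (nat_lit 0)]) (PF.cons PF.nil PF.nil)) (PF.cons PF.nil (PF.cons PF.nil PF.nil)))))))) (PF.cons (PF.cons (PF.cons (PF.leaf (nat_lit 5250922) (nat_lit 3546002) (nat_lit 42246754) (nat_lit 17770054) [(nat_lit 0), (nat_lit 0), (nat_lit 3546002), (nat_lit 0)]) (PF.cons (PF.leaf (nat_lit 5526821) (nat_lit 476267) (nat_lit 41836895) (nat_lit 17673901) [(nat_lit 476267), (nat_lit 0), (nat_lit 3560874), (nat_lit 0)]) (PF.cons (PF.leaf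 (nat_lit 5818054) (nat_lit 490032) (nat_lit 41408651) (nat_lit 17571499) [(nat_lit 490032), (nat_lit 0), (nat_lit 3574298), (nat_lit 0)]) (PF.cons (PF.leaf (nat_lit 6121437) (nat_lit 502181) (nat_lit 40966427) (nat_lit 17463704) [(nat_lit 502181), (nat_lit 0), (nat_lit 3586068), (nat_lit 0)]) (PF.cons (PF.leaf (nat_lit 6434802) (nat_lit 512974) (nat_lit 40513578) (nat_lit 17351187) [(nat_lit 512974), (nat_lit 0), (nat_lit 3596073), (nat_lit 0)]) (PF.cons (PF.leaf (nat_lit 6756436) (nat_lit 522601) (nat_lit 40052768) (nat_lit 17234504) [(nat_lit 522601), (nat_lit 0), (nat_lit 3604266), (nat_lit 0)]) (PF.cons (PF.leaf (nat_lit 7084900) (nat_lit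
 531202) (nat_lit 39586174) (nat_lit 17114134) [(nat_lit 531202), (nat_lit 0), (nat_lit 3610643), (nat_lit 0)]) (PF.cons PF.nil (PF.cons PF.nil PF.nil))))))))) (PF.cons (PF.cons (PF.leaf (nat_lit 5943609) (nat_lit 1600621) (nat_lit 40904622) (nat_lit 17444971) [(nat_lit 0), (nat_lit 1600621), (nat_lit 3579298), (nat_lit 0)]) (PF.cons (PF.leaf (nat_lit 6239171) (nat_lit 503386) (nat_lit 40474058) (nat_lit 17337793) [(nat_lit 503386), (nat_lit 1615489), (nat_lit 3589042), (nat_lit 0)]) (PF.cons (PF.leaf (nat_lit 6545968) (nat_lit 514022) (nat_lit 40031725) (nat_lit 17225683) [(nat_lit 514022), (nat_lit 1628965), (nat_lit 3597196), (nat_lit 0)]) (PF.cons (PF.leaf (nat_lit 6861641) (nat_lit 523455) (nat_lit 39580701) (nat_lit 17109307) [(nat_lit 523455), (nat_lit 1641053), (nat_lit 3603691), (nat_lit 0)]) (PF.cons (PF.leaf (nat_lit 7184575) (nat_lit 531846) (nat_lit 39123415) (nat_lit 16989211) [(nat_lit 531846), (nat_lit 1651785), (nat_lit 3608506), (nat_lit 0)]) (PF.cons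 PF.nil (PF.cons PF.nil PF.nil))))))) (PF.cons (PF.cons (PF.leaf (nat_lit 6658297) (nat_lit 1633020) (nat_lit 39550781) (nat_lit 17098153) [(nat_lit 0), (nat_lit 1633020), (nat_lit 3596919), (nat_lit 0)]) (PF.cons
 (PF.leaf (nat_lit 6967025) (nat_lit 523855) (nat_lit 39110717) (nat_lit 16982525) [(nat_lit 523855), (nat_lit 1644021), (nat_lit 3601835), (nat_lit 0)]) (PF.cons (PF.leaf (nat_lit 7283963) (nat_lit 532101) (nat_lit 38663597) (nat_lit 16863059) [(nat_lit 532101), (nat_lit 1653774), (nat_lit 3605202), (nat_lit 0)]) (PF.cons (PF.leaf (nat_lit 7607276) (nat_lit 539408) (nat_lit 38211643) (nat_lit 16740289) [(nat_lit 539408), (nat_lit 1662310), (nat_lit 3607017), (nat_lit 0)]) (PF.cons PF.nil PF.nil))))) (PF.cons (PF.cons (PF.leaf (nat_lit 7383927) (nat_lit 1655116) (nat_lit 38206262) (nat_lit 16735616) [(nat_lit 0), (nat_lit 1655116), (nat_lit 3600791), (nat_lit 0)]) (PF.cons (PF.leaf (nat_lit 7700941) (nat_lit 539149) (nat_lit 37764698) (nat_lit 16613759) [(nat_lit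 539149), (nat_lit 1662818), (nat_lit 3601375), (nat_lit 0)]) (PF.cons PF.nil (PF.cons PF.nil PF.nil)))) (PF.cons (PF.cons (PF.leaf (nat_lit 8112195) (nat_lit 1668658) (nat_lit 36885819) (nat_lit 16362584) [(nat_lit 0), (nat_lit 1668658), (nat_lit 3592887), (nat_lit 0)]) (PF.cons PF.nil PF.nil)) (PF.cons PF.nil PF.nil)))))) (PF.cons (PF.cons (PF.cons (PF.leaf (nat_lit 6444027) (nat_lit 3575402) (nat_lit 39350121) (nat_lit
 17032483) [(nat_lit 0), (nat_lit 0), (nat_lit 3575402), (nat_lit 0)]) (PF.cons (PF.leaf (nat_lit 6738027) (nat_lit 510141) (nat_lit 38933659) (nat_lit 16922583) [(nat_lit 510141), (nat_lit 0), (nat_lit 3580809), (nat_lit 0)]) (PF.cons (PF.leaf (nat_lit 7042372) (nat_lit 519705) (nat_lit 38506926) (nat_lit 16808179) [(nat_lit 519705), (nat_lit 0), (nat_lit 3584765), (nat_lit 0)]) (PF.cons (PF.leaf (nat_lit 7354742) (nat_lit 528106) (nat_lit 38072834) (nat_lit 16689954) [(nat_lit 528106), (nat_lit 0), (nat_lit 3587235), (nat_lit 0)]) (PF.cons (PF.leaf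 (nat_lit 7673587) (nat_lit 535509) (nat_lit 37633647) (nat_lit 16568466) [(nat_lit 535509), (nat_lit 0), (nat_lit 3588219), (nat_lit 0)]) (PF.cons PF.nil (PF.cons PF.nil PF.nil))))))) (PF.cons (PF.cons (PF.leaf (nat_lit 7147182) (nat_lit 1637867) (nat_lit 38048450) (nat_lit 16680109) [(nat_lit 0), (nat_lit 1637867), (nat_lit 3580795), (nat_lit 0)]) (PF.cons (PF.leaf (nat_lit 7452575) (nat_lit 527740) (nat_lit 37625486) (nat_lit 16563086) [(nat_lit 527740), (nat_lit 1646445), (nat_lit 3582018), (nat_lit 0)]) (PF.cons (PF.leaf (nat_lit 7765422) (nat_lit 535063) (nat_lit 37196576) (nat_lit 16442649) [(nat_lit 535063), (nat_lit 1653889),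
 (nat_lit 3581856), (nat_lit 0)]) (PF.cons (PF.leaf (nat_lit 8083955) (nat_lit 541490) (nat_lit 36763790) (nat_lit 16319334) [(nat_lit 541490), (nat_lit 1660235), (nat_lit 3580326), (nat_lit 0)]) (PF.cons PF.nil PF.nil))))) (PF.cons (PF.cons (PF.leaf (nat_lit 7858031) (nat_lit 1653466) (nat_lit 36762202) (nat_lit 16315893) [(nat_lit 0), (nat_lit 1653466), (nat_lit 3574594), (nat_lit 0)]) (PF.cons (PF.leaf (nat_lit 8170309) (nat_lit 540631) (nat_lit 36339763) (nat_lit 16193851) [(nat_lit 540631), (nat_lit 1659137), (nat_lit 3572097), (nat_lit 0)]) (PF.cons PF.nil (PF.cons PF.nil PF.nil)))) (PF.cons (PF.cons (PF.leaf (nat_lit 8569208) (nat_lit 1661685) (nat_lit 35503651) (nat_lit 15944538) [(nat_lit 0), (nat_lit 1661685), (nat_lit 3558522), (nat_lit 0)]) (PF.cons PF.nil PF.nil)) (PF.cons PF.nil PF.nil))))) (PF.cons (PF.cons (PF.cons (PF.leaf (nat_lit 7616904) (nat_lit 3555642) (nat_lit 36621848) (nat_lit 16264395) [(nat_lit 0), (nat_lit 0), (nat_lit 3555642), (nat_lit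 0)]) (PF.cons (PF.leaf (nat_lit 7918357) (nat_lit 529728) (nat_lit 36216564) (nat_lit 16147094) [(nat_lit 529728), (nat_lit 0), (nat_lit 3553856), (nat_lit 0)]) (PF.cons (PF.leaf (nat_lit 8226650) (nat_lit 536249)
 (nat_lit 35806235) (nat_lit 16026756) [(nat_lit 536249), (nat_lit 0), (nat_lit 3550830), (nat_lit 0)]) (PF.cons PF.nil PF.nil)))) (PF.cons (PF.cons (PF.leaf (nat_lit 8312420) (nat_lit 1647416) (nat_lit 35394412) (nat_lit 15901613) [(nat_lit 0), (nat_lit 1647416), (nat_lit 3541342), (nat_lit 0)]) (PF.cons (PF.leaf (nat_lit 8619638) (nat_lit 540568) (nat_lit 34991127) (nat_lit 15780315) [(nat_lit 540568), (nat_lit 1651387), (nat_lit 3536353), (nat_lit 0)]) PF.nil)) (PF.cons PF.nil PF.nil))) (PF.cons (PF.cons (PF.cons (PF.leaf (nat_lit 8748072) (nat_lit 3502670) (nat_lit 34100356) (nat_lit 15495105) [(nat_lit 0), (nat_lit 0), (nat_lit 3502670), (nat_lit 0)]) (PF.cons PF.nil PF.nil)) (PF.cons PF.nil PF.nil)) (PF.cons PF.nil (PF.cons PF.nil PF.nil)))))))) (PF.cons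 (PF.cons (PF.cons (PF.cons (PF.leaf (nat_lit 4889474) (nat_lit 8445311) (nat_lit 41225152) (nat_lit 17438348) [(nat_lit 0), (nat_lit 0), (nat_lit 0), (nat_lit 8445311)]) (PF.cons (PF.leaf (nat_lit 5128036) (nat_lit 429444) (nat_lit 40887031) (nat_lit 17357839) [(nat_lit 429444), (nat_lit 0), (nat_lit 0), (nat_lit 8434497)]) (PF.cons (PF.leaf (nat_lit 5387377) (nat_lit 447654) (nat_lit 40522677) (nat_lit 17269665) [(nat_lit
 447654), (nat_lit 0), (nat_lit 0), (nat_lit 8421161)]) (PF.cons (PF.leaf (nat_lit 5662916) (nat_lit 463430) (nat_lit 40138196) (nat_lit 17175048) [(nat_lit 463430), (nat_lit 0), (nat_lit 0), (nat_lit 8405274)]) (PF.cons (PF.leaf (nat_lit 5951711) (nat_lit 477263) (nat_lit 39738040) (nat_lit 17074883) [(nat_lit 477263), (nat_lit 0), (nat_lit 0), (nat_lit 8386833)]) (PF.cons (PF.leaf (nat_lit 6251481) (nat_lit 489487) (nat_lit 39325640) (nat_lit 16969872) [(nat_lit 489487), (nat_lit 0), (nat_lit 0), (nat_lit 8365864)]) (PF.cons (PF.leaf (nat_lit 6560406)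 (nat_lit 500343) (nat_lit 38903744) (nat_lit 16860592) [(nat_lit 500343), (nat_lit 0), (nat_lit 0), (nat_lit 8342415)]) (PF.cons (PF.leaf (nat_lit 6876954) (nat_lit 510014) (nat_lit 38474612) (nat_lit 16747541) [(nat_lit 510014), (nat_lit 0), (nat_lit 0), (nat_lit 8316556)]) (PF.cons (PF.leaf (nat_lit 7199824) (nat_lit 518643) (nat_lit 38040134) (nat_lit 16631154) [(nat_lit 518643), (nat_lit 0), (nat_lit 0), (nat_lit 8288371)]) (PF.cons PF.nil PF.nil)))))))))) (PF.cons (PF.cons (PF.leaf (nat_lit 5520948) (nat_lit 1524573) (nat_lit 40041318) (nat_lit 17147623) [(nat_lit 0), (nat_lit 1524573), (nat_lit 0), (nat_lit 8395297)]) (PF.cons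
 (PF.leaf (nat_lit 5787480) (nat_lit 465431) (nat_lit 39668221) (nat_lit 17053915) [(nat_lit 465431), (nat_lit 1543387), (nat_lit 0), (nat_lit 8377858)]) (PF.cons (PF.leaf (nat_lit 6069030) (nat_lit 479070) (nat_lit 39277889) (nat_lit 16954300) [(nat_lit 479070), (nat_lit 1560606), (nat_lit 0), (nat_lit 8357874)]) (PF.cons (PF.leaf (nat_lit 6362410) (nat_lit 491054) (nat_lit 38874392) (nat_lit 16849650) [(nat_lit 491054), (nat_lit 1576201), (nat_lit 0), (nat_lit 8335405)]) (PF.cons (PF.leaf (nat_lit 6665551) (nat_lit 501651) (nat_lit 38460839) (nat_lit 16740641) [(nat_lit 501651), (nat_lit 1590204), (nat_lit 0), (nat_lit 8310522)]) (PF.cons (PF.leaf (nat_lit 6976724) (nat_lit 511060) (nat_lit 38039698) (nat_lit 16627832) [(nat_lit 511060), (nat_lit 1602673), (nat_lit 0), (nat_lit 8283305)]) (PF.cons (PF.leaf (nat_lit 7294532) (nat_lit 519431) (nat_lit 37612991) (nat_lit 16511698) [(nat_lit 519431), (nat_lit 1613682), (nat_lit 0), (nat_lit 8253850)]) (PF.cons PF.nil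 (PF.cons PF.nil PF.nil))))))))) (PF.cons (PF.cons (PF.leaf (nat_lit 6188453) (nat_lit 1567279) (nat_lit 38816277) (nat_lit 16831214) [(nat_lit 0), (nat_lit 1567279), (nat_lit 0), (nat_lit 8326762)]) (PF.cons (PF.leaf
 (nat_lit 6474160) (nat_lit 492029) (nat_lit 38423339) (nat_lit 16727474) [(nat_lit 492029), (nat_lit 1581464), (nat_lit 0), (nat_lit 8303040)]) (PF.cons (PF.leaf (nat_lit 6770857) (nat_lit 502466) (nat_lit 38019314) (nat_lit 16619162) [(nat_lit 502466), (nat_lit 1594233), (nat_lit 0), (nat_lit 8276934)]) (PF.cons (PF.leaf (nat_lit 7076208) (nat_lit 511687) (nat_lit 37607045) (nat_lit 16506938) [(nat_lit 511687), (nat_lit 1605609), (nat_lit 0), (nat_lit 8248547)]) (PF.cons (PF.leaf (nat_lit 7388638) (nat_lit 519858) (nat_lit 37188771) (nat_lit 16391339) [(nat_lit 519858), (nat_lit 1615640), (nat_lit 0), (nat_lit 8217987)]) (PF.cons (PF.leaf (nat_lit 7706840) (nat_lit 527108) (nat_lit 36766313) (nat_lit 16272822) [(nat_lit 527108), (nat_lit 1624385), (nat_lit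 0), (nat_lit 8185363)]) (PF.cons PF.nil PF.nil))))))) (PF.cons (PF.cons (PF.leaf (nat_lit 6877407) (nat_lit 1597510) (nat_lit 37578575) (nat_lit 16496033) [(nat_lit 0), (nat_lit 1597510), (nat_lit 0), (nat_lit 8241672)]) (PF.cons (PF.leaf (nat_lit 7175982) (nat_lit 511882) (nat_lit 37176239) (nat_lit 16384794) [(nat_lit 511882), (nat_lit 1607859), (nat_lit 0), (nat_lit 8212316)]) (PF.cons (PF.leaf (nat_lit 7482594) (nat_lit
 519917) (nat_lit 36767176) (nat_lit 16270051) [(nat_lit 519917), (nat_lit 1616973), (nat_lit 0), (nat_lit 8180827)]) (PF.cons (PF.leaf (nat_lit 7795432) (nat_lit 527014) (nat_lit 36353431) (nat_lit 16152324) [(nat_lit 527014), (nat_lit 1624894), (nat_lit 0), (nat_lit 8147327)]) (PF.cons PF.nil PF.nil))))) (PF.cons (PF.cons (PF.leaf (nat_lit 7577259) (nat_lit 1617723) (nat_lit 36347771) (nat_lit 16147759) [(nat_lit 0), (nat_lit 1617723), (nat_lit 0), (nat_lit 8142390)]) (PF.cons (PF.leaf (nat_lit 7883995) (nat_lit 526596) (nat_lit 35943432) (nat_lit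 16031119) [(nat_lit 526596), (nat_lit 1624871), (nat_lit 0), (nat_lit 8108179)]) (PF.cons (PF.leaf (nat_lit 8196517) (nat_lit 532753) (nat_lit 35535520) (nat_lit 15911853) [(nat_lit 532753), (nat_lit 1630952), (nat_lit 0), (nat_lit 8072121)]) (PF.cons PF.nil PF.nil)))) (PF.cons (PF.cons (PF.leaf (nat_lit 8280124) (nat_lit 1629774) (nat_lit 35137443) (nat_lit 15791142) [(nat_lit 0), (nat_lit 1629774), (nat_lit 0), (nat_lit 8031355)]) (PF.cons PF.nil PF.nil)) (PF.cons PF.nil (PF.cons PF.nil PF.nil)))))))) (PF.cons (PF.cons (PF.cons (PF.leaf (nat_lit 6005328) (nat_lit 3480479) (nat_lit 38579930) (nat_lit 16755976) [(nat_lit 0), (nat_lit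
 0), (nat_lit 3480479), (nat_lit 8292426)]) (PF.cons (PF.leaf (nat_lit 6272549) (nat_lit 474776) (nat_lit 38215597) (nat_lit 16659256) [(nat_lit 474776), (nat_lit 0), (nat_lit 3488874), (nat_lit 8270308)]) (PF.cons (PF.leaf (nat_lit 6553784) (nat_lit 487189) (nat_lit 37835806) (nat_lit 16556989) [(nat_lit 487189), (nat_lit 0), (nat_lit 3495917), (nat_lit 8245721)]) (PF.cons (PF.leaf (nat_lit 6845874) (nat_lit 497990) (nat_lit 37444460) (nat_lit 16450087) [(nat_lit 497990), (nat_lit 0), (nat_lit 3501495), (nat_lit 8218797)]) (PF.cons (PF.leaf (nat_lit 7146793) (nat_lit 507460) (nat_lit 37044502) (nat_lit 16339247) [(nat_lit 507460), (nat_lit 0), (nat_lit 3505563), (nat_lit 8189655)]) (PF.cons (PF.leaf (nat_lit 7454924) (nat_lit 515801) (nat_lit 36638239) (nat_lit 16225036) [(nat_lit 515801), (nat_lit 0), (nat_lit 3508117), (nat_lit 8158411)]) (PF.cons (PF.leaf (nat_lit 7768932) (nat_lit 523164) (nat_lit 36227535) (nat_lit 16107929) [(nat_lit 523164), (nat_lit 0), (nat_lit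 3509177), (nat_lit 8125182)]) (PF.cons PF.nil (PF.cons PF.nil PF.nil))))))))) (PF.cons (PF.cons (PF.leaf (nat_lit 6666274) (nat_lit 1577500) (nat_lit 37393366) (nat_lit 16432975) [(nat_lit 0), (nat_lit 1577500),
 (nat_lit 3494661), (nat_lit 8210309)]) (PF.cons (PF.leaf (nat_lit 6950567) (nat_lit 498051) (nat_lit 37012987) (nat_lit 16327439) [(nat_lit 498051), (nat_lit 1588985), (nat_lit 3498793), (nat_lit 8182555)]) (PF.cons (PF.leaf (nat_lit 7244988) (nat_lit 507450) (nat_lit 36622884) (nat_lit 16217718) [(nat_lit 507450), (nat_lit 1599177), (nat_lit 3501546), (nat_lit 8152584)]) (PF.cons (PF.leaf (nat_lit 7547271) (nat_lit 515680) (nat_lit 36225738) (nat_lit 16104483) [(nat_lit 515680), (nat_lit 1608110), (nat_lit 3502898), (nat_lit 8120540)]) (PF.cons (PF.leaf (nat_lit 7855907) (nat_lit 522911) (nat_lit 35823641) (nat_lit 15988273) [(nat_lit 522911), (nat_lit 1615838), (nat_lit 3502860), (nat_lit 8086553)]) (PF.cons PF.nil (PF.cons PF.nil PF.nil))))))) (PF.cons (PF.cons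 (PF.leaf (nat_lit 7344636) (nat_lit 1600408) (nat_lit 36202443) (nat_lit 16094893) [(nat_lit 0), (nat_lit 1600408), (nat_lit 3496521), (nat_lit 8114137)]) (PF.cons (PF.leaf (nat_lit 7640124) (nat_lit 515176) (nat_lit 35815360) (nat_lit 15983003) [(nat_lit 515176), (nat_lit 1608512), (nat_lit 3496769), (nat_lit 8081477)]) (PF.cons (PF.leaf (nat_lit 7942956) (nat_lit 522335) (nat_lit 35422550) (nat_lit 15867981) [(nat_lit
 522335), (nat_lit 1615498), (nat_lit 3495721), (nat_lit 8046890)]) (PF.cons (PF.leaf (nat_lit 8251383) (nat_lit 528602) (nat_lit 35025919) (nat_lit 15750344) [(nat_lit 528602), (nat_lit 1621411), (nat_lit 3493400), (nat_lit 8010518)]) (PF.cons PF.nil PF.nil))))) (PF.cons (PF.cons (PF.leaf (nat_lit 8030910) (nat_lit 1614680) (nat_lit 35023811) (nat_lit 15746964) [(nat_lit 0), (nat_lit 1614680), (nat_lit 3487796), (nat_lit 8006199)]) (PF.cons (PF.leaf (nat_lit 8333285) (nat_lit 527642) (nat_lit 34636529) (nat_lit 15630696) [(nat_lit 527642), (nat_lit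 1619969), (nat_lit 3484629), (nat_lit 7969407)]) (PF.cons PF.nil (PF.cons PF.nil PF.nil)))) (PF.cons (PF.cons (PF.leaf (nat_lit 8718105) (nat_lit 1621915) (nat_lit 33868820) (nat_lit 15393458) [(nat_lit 0), (nat_lit 1621915), (nat_lit 3470142), (nat_lit 7888729)]) (PF.cons PF.nil PF.nil)) (PF.cons PF.nil PF.nil)))))) (PF.cons (PF.cons (PF.cons (PF.leaf (nat_lit 7127731) (nat_lit 3475980) (nat_lit 36036685) (nat_lit 16036104) [(nat_lit 0), (nat_lit 0), (nat_lit 3475980), (nat_lit 8084062)]) (PF.cons (PF.leaf (nat_lit 7409831) (nat_lit 501977) (nat_lit 35669933) (nat_lit 15929812) [(nat_lit 501977), (nat_lit 0), (nat_lit 3476964),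
 (nat_lit 8053160)]) (PF.cons (PF.leaf (nat_lit 7701327) (nat_lit 510470) (nat_lit 35294599) (nat_lit 15819690) [(nat_lit 510470), (nat_lit 0), (nat_lit 3476689), (nat_lit 8020203)]) (PF.cons (PF.leaf (nat_lit 7999993) (nat_lit 517838) (nat_lit 34913209) (nat_lit 15706412) [(nat_lit 517838), (nat_lit 0), (nat_lit 3475156), (nat_lit 7985362)]) (PF.cons (PF.leaf (nat_lit 8304368) (nat_lit 524255) (nat_lit 34527716) (nat_lit 15590511) [(nat_lit 524255), (nat_lit 0), (nat_lit 3472388), (nat_lit 7948786)]) PF.nil))))) (PF.cons (PF.cons (PF.leaf (nat_lit 7794449) (nat_lit 1598444) (nat_lit 34894459) (nat_lit 15698089) [(nat_lit 0), (nat_lit 1598444), (nat_lit 3469170), (nat_lit 7979479)]) (PF.cons (PF.leaf (nat_lit 8086362) (nat_lit 516768) (nat_lit 34523084) (nat_lit 15586434) [(nat_lit 516768), (nat_lit 1604664), (nat_lit 3466774), (nat_lit 7944311)]) (PF.cons (PF.leaf (nat_lit 8384995) (nat_lit 523165) (nat_lit 34146798) (nat_lit 15471978) [(nat_lit 523165), (nat_lit 1609867),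 (nat_lit 3463217), (nat_lit 7907404)]) (PF.cons PF.nil PF.nil)))) (PF.cons (PF.cons (PF.leaf (nat_lit 8466697) (nat_lit 1607792) (nat_lit 33768289) (nat_lit 15352938) [(nat_lit 0), (nat_lit 1607792), (nat_lit
 3453403), (nat_lit 7865195)]) (PF.cons (PF.leaf (nat_lit 8764419) (nat_lit 527314) (nat_lit 33398044) (nat_lit 15237768) [(nat_lit 527314), (nat_lit 1611523), (nat_lit 3448060), (nat_lit 7826518)]) PF.nil)) (PF.cons PF.nil (PF.cons PF.nil PF.nil))))) (PF.cons (PF.cons (PF.cons (PF.leaf (nat_lit 8227466) (nat_lit 3435913) (nat_lit 33653121) (nat_lit 15307888) [(nat_lit 0), (nat_lit 0), (nat_lit 3435913), (nat_lit 7840063)]) (PF.cons (PF.leaf (nat_lit 8515401) (nat_lit 516962) (nat_lit 33297541) (nat_lit 15197168) [(nat_lit 516962), (nat_lit 0), (nat_lit 3431364), (nat_lit 7803047)]) (PF.cons (PF.leaf (nat_lit 8809559) (nat_lit 522692) (nat_lit 32937720) (nat_lit 15083939) [(nat_lit 522692), (nat_lit 0), (nat_lit 3425769), (nat_lit 7764458)]) (PF.cons PF.nil PF.nil))))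 (PF.cons (PF.cons (PF.leaf (nat_lit 8885447) (nat_lit 1597831) (nat_lit 32578775) (nat_lit 14967398) [(nat_lit 0), (nat_lit 1597831), (nat_lit 3414496), (nat_lit 7721318)]) (PF.cons PF.nil PF.nil)) (PF.cons PF.nil PF.nil))) (PF.cons (PF.cons (PF.cons (PF.leaf (nat_lit 9288043) (nat_lit 3372182) (nat_lit 31452401) (nat_lit 14591576) [(nat_lit 0), (nat_lit 0), (nat_lit 3372182), (nat_lit 7576104)]) (PF.cons PF.nil
 PF.nil)) (PF.cons PF.nil PF.nil)) (PF.cons PF.nil PF.nil)))))) (PF.cons (PF.cons (PF.cons (PF.cons (PF.leaf (nat_lit 6683805) (nat_lit 7951707) (nat_lit 35409754) (nat_lit 15795643) [(nat_lit 0), (nat_lit 0), (nat_lit 0), (nat_lit 7951707)]) (PF.cons (PF.leaf (nat_lit 6941971) (nat_lit 469003) (nat_lit 35086715) (nat_lit 15701813) [(nat_lit 469003), (nat_lit 0), (nat_lit 0), (nat_lit 7925640)]) (PF.cons (PF.leaf (nat_lit 7213039) (nat_lit 480310) (nat_lit 34750489) (nat_lit 15603050) [(nat_lit 480310), (nat_lit 0), (nat_lit 0), (nat_lit 7897325)]) (PF.cons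 (PF.leaf (nat_lit 7493981) (nat_lit 490033) (nat_lit 34404519) (nat_lit 15500263) [(nat_lit 490033), (nat_lit 0), (nat_lit 0), (nat_lit 7866964)]) (PF.cons (PF.leaf (nat_lit 7782855) (nat_lit 498463) (nat_lit 34051376) (nat_lit 15394139) [(nat_lit 498463), (nat_lit 0), (nat_lit 0), (nat_lit 7834722)]) (PF.cons (PF.leaf (nat_lit 8078134) (nat_lit 505807) (nat_lit 33693063) (nat_lit 15285225) [(nat_lit 505807), (nat_lit 0), (nat_lit 0), (nat_lit 7800743)]) (PF.cons PF.nil PF.nil))))))) (PF.cons (PF.cons (PF.leaf (nat_lit 7314610) (nat_lit 1543825) (nat_lit 34362211) (nat_lit 15484961) [(nat_lit 0), (nat_lit 1543825), (nat_lit 0),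
 (nat_lit 7858906)]) (PF.cons (PF.leaf (nat_lit 7587886) (nat_lit 489314) (nat_lit 34026249) (nat_lit 15383925) [(nat_lit 489314), (nat_lit 1552858), (nat_lit 0), (nat_lit 7828232)]) (PF.cons (PF.leaf (nat_lit 7870423) (nat_lit 497738) (nat_lit 33682069) (nat_lit 15279285) [(nat_lit 497738), (nat_lit 1560692), (nat_lit 0), (nat_lit 7795644)]) (PF.cons (PF.leaf (nat_lit 8160041) (nat_lit 505033) (nat_lit 33332009) (nat_lit 15171689) [(nat_lit 505033), (nat_lit 1567381), (nat_lit 0), (nat_lit 7761316)]) (PF.cons (PF.leaf (nat_lit 8455318) (nat_lit 511374) (nat_lit 32977876) (nat_lit 15061652) [(nat_lit 511374), (nat_lit 1572988), (nat_lit 0), (nat_lit 7725398)]) PF.nil))))) (PF.cons (PF.cons (PF.leaf (nat_lit 7959672) (nat_lit 1560070) (nat_lit 33313912) (nat_lit 15163576) [(nat_lit 0), (nat_lit 1560070), (nat_lit 0), (nat_lit 7755591)]) (PF.cons (PF.leaf (nat_lit 8242705) (nat_lit 503929) (nat_lit 32972891) (nat_lit 15057614) [(nat_lit 503929), (nat_lit 1566117), (nat_lit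 0), (nat_lit 7721071)]) (PF.cons (PF.leaf (nat_lit 8532414) (nat_lit 510251) (nat_lit 32627066) (nat_lit 14949034) [(nat_lit 510251), (nat_lit 1571155), (nat_lit 0), (nat_lit 7684948)]) (PF.cons PF.nil PF.nil))))
 (PF.cons (PF.cons (PF.leaf (nat_lit 8610671) (nat_lit 1568960) (nat_lit 32278324) (nat_lit 14836016) [(nat_lit 0), (nat_lit 1568960), (nat_lit 0), (nat_lit 7643795)]) (PF.cons (PF.leaf (nat_lit 8899588) (nat_lit 514314) (nat_lit 31937626) (nat_lit 14726874) [(nat_lit 514314), (nat_lit 1572570), (nat_lit 0), (nat_lit 7606142)]) PF.nil)) (PF.cons PF.nil PF.nil))))) (PF.cons (PF.cons (PF.cons (PF.leaf (nat_lit 7742810) (nat_lit 3365094) (nat_lit 33176261) (nat_lit 15111584) [(nat_lit 0), (nat_lit 0), (nat_lit 3365094), (nat_lit 7727936)]) (PF.cons (PF.leaf (nat_lit 8013565) (nat_lit 491328) (nat_lit 32852764) (nat_lit 15010906) [(nat_lit 491328), (nat_lit 0), (nat_lit 3363227), (nat_lit 7695293)]) (PF.cons (PF.leaf (nat_lit 8292980) (nat_lit 498973) (nat_lit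 32521944) (nat_lit 14906920) [(nat_lit 498973), (nat_lit 0), (nat_lit 3360252), (nat_lit 7660874)]) (PF.cons (PF.leaf (nat_lit 8578907) (nat_lit 505537) (nat_lit 32186000) (nat_lit 14800267) [(nat_lit 505537), (nat_lit 0), (nat_lit 3356195), (nat_lit 7624868)]) (PF.cons PF.nil PF.nil))))) (PF.cons (PF.cons (PF.leaf (nat_lit 8376561) (nat_lit 1553820) (nat_lit 32171633) (nat_lit 14793320) [(nat_lit 0), (nat_lit 1553820), (nat_lit
 3350688), (nat_lit 7619675)]) (PF.cons (PF.leaf (nat_lit 8655973) (nat_lit 504007) (nat_lit 31844581) (nat_lit 14688468) [(nat_lit 504007), (nat_lit 1558371), (nat_lit 3346032), (nat_lit 7583675)]) (PF.cons (PF.leaf (nat_lit 8941563) (nat_lit 509688) (nat_lit 31513347) (nat_lit 14581260) [(nat_lit 509688), (nat_lit 1562004), (nat_lit 3340382), (nat_lit 7546220)]) (PF.cons PF.nil PF.nil)))) (PF.cons (PF.cons (PF.leaf (nat_lit 9014448) (nat_lit 1558899) (nat_lit 31182126) (nat_lit 14470809) [(nat_lit 0), (nat_lit 1558899), (nat_lit 3329201),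 (nat_lit 7504438)]) (PF.cons PF.nil PF.nil)) PF.nil))) (PF.cons (PF.cons (PF.cons (PF.leaf (nat_lit 8778683) (nat_lit 3313216) (nat_lit 31086977) (nat_lit 14431594) [(nat_lit 0), (nat_lit 0), (nat_lit 3313216), (nat_lit 7481903)]) (PF.cons (PF.leaf (nat_lit 9054207) (nat_lit 503034) (nat_lit 30773754) (nat_lit 14328294) [(nat_lit 503034), (nat_lit 0), (nat_lit 3306990), (nat_lit 7444874)]) (PF.cons PF.nil PF.nil))) (PF.cons (PF.cons (PF.leaf (nat_lit 9403391) (nat_lit 1546658) (nat_lit 30142449) (nat_lit 14115266) [(nat_lit 0), (nat_lit 1546658), (nat_lit 3287726), (nat_lit 7364493)]) PF.nil) PF.nil)) (PF.cons PF.nil (PF.cons PF.nil PF.nil)))))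
 (PF.cons (PF.cons (PF.cons (PF.cons (PF.leaf (nat_lit 8302010) (nat_lit 7383666) (nat_lit 30694913) (nat_lit 14262899) [(nat_lit 0), (nat_lit 0), (nat_lit 0), (nat_lit 7383666)]) (PF.cons (PF.leaf (nat_lit 8562129) (nat_lit 479372) (nat_lit 30408592) (nat_lit 14168620) [(nat_lit 479372), (nat_lit 0), (nat_lit 0), (nat_lit 7350742)]) (PF.cons (PF.leaf (nat_lit 8830306) (nat_lit 486331) (nat_lit 30115919) (nat_lit 14071445) [(nat_lit 486331), (nat_lit 0), (nat_lit 0), (nat_lit 7316261)]) (PF.cons (PF.leaf (nat_lit 9104456) (nat_lit 492253) (nat_lit 29818817) (nat_lit 13971974) [(nat_lit 492253), (nat_lit 0), (nat_lit 0), (nat_lit 7280419)]) (PF.cons PF.nil PF.nil))))) (PF.cons (PF.cons (PF.leaf (nat_lit 8905981) (nat_lit 1507101) (nat_lit 29807863) (nat_lit 13966223) [(nat_lit 0), (nat_lit 1507101), (nat_lit 0), (nat_lit 7275874)]) (PF.cons (PF.leaf (nat_lit 9173869) (nat_lit 490427) (nat_lit 29518616) (nat_lit 13868593) [(nat_lit 490427), (nat_lit 1510451), (nat_lit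 0), (nat_lit 7240241)]) (PF.cons PF.nil (PF.cons PF.nil PF.nil)))) (PF.cons (PF.cons (PF.leaf (nat_lit 9513179) (nat_lit 1509231) (nat_lit 28934407) (nat_lit 13667080) [(nat_lit 0), (nat_lit 1509231), (nat_lit 0),
 (nat_lit 7162954)]) (PF.cons PF.nil PF.nil)) PF.nil))) (PF.cons (PF.cons (PF.cons (PF.leaf (nat_lit 9281802) (nat_lit 3192022) (nat_lit 28855237) (nat_lit 13632987) [(nat_lit 0), (nat_lit 0), (nat_lit 3192022), (nat_lit 7142855)]) (PF.cons (PF.leaf (nat_lit 9545951) (nat_lit 488696) (nat_lit 28577993) (nat_lit 13537184) [(nat_lit 488696), (nat_lit 0), (nat_lit 3184811), (nat_lit 7106709)]) PF.nil)) (PF.cons PF.nil PF.nil)) (PF.cons PF.nil PF.nil))) (PF.cons (PF.cons (PF.cons (PF.cons (PF.leaf (nat_lit 9745321) (nat_lit 6825094) (nat_lit 26901954) (nat_lit 12906478) [(nat_lit 0), (nat_lit 0), (nat_lit 0), (nat_lit 6825094)]) (PF.cons PF.nil PF.nil)) (PF.cons PF.nil PF.nil)) (PF.cons PF.nil PF.nil)) (PF.cons PF.nil (PF.cons PF.nil (PF.cons PF.nil PF.nil))))))))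

def p15_26_3_0 : pfC (piC [(nat_lit 37297016), (nat_lit 24651042), (nat_lit 18388512), (nat_lit 12378745)] (nat_lit 4975805)) p15_26_3 (nat_lit 4) (nat_lit 0) (nat_lit 1) = true := by decide +kernel
def p15_26_3_1 : pfC (piC [(nat_lit 37297016), (nat_lit 24651042), (nat_lit 18388512), (nat_lit 12378745)] (nat_lit 4975805)) p15_26_3 (nat_lit 4) (nat_lit 1) (nat_lit 2) = true := by decide +kernel
def p15_26_3_2 : pfC (piC [(nat_lit 37297016), (nat_lit 24651042), (nat_lit 18388512), (nat_lit 12378745)] (nat_lit 4975805)) p15_26_3 (nat_lit 4) (nat_lit 2) (nat_lit 3) = true := by decide +kernel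
def p15_26_3_3 : pfC (piC [(nat_lit 37297016), (nat_lit 24651042), (nat_lit 18388512), (nat_lit 12378745)] (nat_lit 4975805)) p15_26_3 (nat_lit 4) (nat_lit 3) (nat_lit 4) = true := by decide +kernel
def p15_26_3_4 : pfC (piC [(nat_lit 37297016), (nat_lit 24651042), (nat_lit 18388512), (nat_lit 12378745)] (nat_lit 4975805)) p15_26_3 (nat_lit 4) (nat_lit 4) (nat_lit 5) = true := by decide +kernel
def p15_26_3_5 : pfC (piC [(nat_lit 37297016), (nat_lit 24651042), (nat_lit 18388512), (nat_lit 12378745)] (nat_lit 4975805)) p15_26_3 (nat_lit 4) (nat_lit 5) (nat_lit 6) = true := by decide +kernel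
def p15_26_3_6 : pfC (piC [(nat_lit 37297016), (nat_lit 24651042), (nat_lit 18388512), (nat_lit 12378745)] (nat_lit 4975805)) p15_26_3 (nat_lit 4) (nat_lit 6) (nat_lit 7) = true := by decide +kernel
def p15_26_3_7 : pfC (piC [(nat_lit 37297016), (nat_lit 24651042), (nat_lit 18388512), (nat_lit 12378745)] (nat_lit 4975805)) p15_26_3 (nat_lit 4) (nat_lit 7) (nat_lit 8) = true := by decide +kernel
def p15_26_3_8 : pfC (piC [(nat_lit 37297016), (nat_lit 24651042), (nat_lit 18388512), (nat_lit 12378745)] (nat_lit 4975805)) p15_26_3 (nat_lit 4) (nat_lit 8) (nat_lit 9) = true := by decide +kernel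
def p15_26_3_9 : pfC (piC [(nat_lit 37297016), (nat_lit 24651042), (nat_lit 18388512), (nat_lit 12378745)] (nat_lit 4975805)) p15_26_3 (nat_lit 4) (nat_lit 9) (nat_lit 10) = true := by decide +kernel
def p15_26_3_10 : pfC (piC [(nat_lit 37297016), (nat_lit 24651042), (nat_lit 18388512), (nat_lit 12378745)] (nat_lit 4975805)) p15_26_3 (nat_lit 4) (nat_lit 10) (nat_lit 11) = true := by decide +kernel
def p15_26_3_11 : pfC (piC [(nat_lit 37297016), (nat_lit 24651042), (nat_lit 18388512), (nat_lit 12378745)] (nat_lit 4975805)) p15_26_3 (nat_lit 4) (nat_lit 11) (nat_lit 12) = true := by decide +kernel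
def p15_26_3_12 : pfC (piC [(nat_lit 37297016), (nat_lit 24651042), (nat_lit 18388512), (nat_lit 12378745)] (nat_lit 4975805)) p15_26_3 (nat_lit 4) (nat_lit 12) (nat_lit 13) = true := by decide +kernel
def p15_26_3_13 : pfC (piC [(nat_lit 37297016), (nat_lit 24651042), (nat_lit 18388512), (nat_lit 12378745)] (nat_lit 4975805)) p15_26_3 (nat_lit 4) (nat_lit 13) (nat_lit 14) = true := by decide +kernel
def p15_26_3_14 : pfC (piC [(nat_lit 37297016), (nat_lit 24651042), (nat_lit 18388512), (nat_lit 12378745)] (nat_lit 4975805)) p15_26_3 (nat_lit 4) (nat_lit 14) (nat_lit 15) = true := by decide +kernel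
def p15_26_3_15 : pfC (piC [(nat_lit 37297016), (nat_lit 24651042), (nat_lit 18388512), (nat_lit 12378745)] (nat_lit 4975805)) p15_26_3 (nat_lit 4) (nat_lit 15) (nat_lit 16) = true := by decide +kernel
def p15_26_3_16 : pfC (piC [(nat_lit 37297016), (nat_lit 24651042), (nat_lit 18388512), (nat_lit 12378745)] (nat_lit 4975805)) p15_26_3 (nat_lit 4) (nat_lit 16) (nat_lit 17) = true := by decide +kernel
def p15_26_3_17 : pfC (piC [(nat_lit 37297016), (nat_lit 24651042), (nat_lit 18388512), (nat_lit 12378745)] (nat_lit 4975805)) p15_26_3 (nat_lit 4) (nat_lit 17) (nat_lit 18) = true := by decide +kernel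
def p15_26_3_18 : pfC (piC [(nat_lit 37297016), (nat_lit 24651042), (nat_lit 18388512), (nat_lit 12378745)] (nat_lit 4975805)) p15_26_3 (nat_lit 4) (nat_lit 18) (nat_lit 19) = true := by decide +kernel
def p15_26_3_19 : pfC (piC [(nat_lit 37297016), (nat_lit 24651042), (nat_lit 18388512), (nat_lit 12378745)] (nat_lit 4975805)) p15_26_3 (nat_lit 4) (nat_lit 19) (nat_lit 20) = true := by decide +kernel
def p15_26_3_20 : pfC (piC [(nat_lit 37297016), (nat_lit 24651042), (nat_lit 18388512), (nat_lit 12378745)] (nat_lit 4975805)) p15_26_3 (nat_lit 4) (nat_lit 20) (nat_lit 21) = true := by decide +kernel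
def p15_26_3_21 : pfC (piC [(nat_lit 37297016), (nat_lit 24651042), (nat_lit 18388512), (nat_lit 12378745)] (nat_lit 4975805)) p15_26_3 (nat_lit 4) (nat_lit 21) (nat_lit 22) = true := by decide +kernel
def p15_26_3_22 : pfC (piC [(nat_lit 37297016), (nat_lit 24651042), (nat_lit 18388512), (nat_lit 12378745)] (nat_lit 4975805)) p15_26_3 (nat_lit 4) (nat_lit 22) (nat_lit 23) = true := by decide +kernel
def p15_26_3_23 : pfC (piC [(nat_lit 37297016), (nat_lit 24651042), (nat_lit 18388512), (nat_lit 12378745)] (nat_lit 4975805)) p15_26_3 (nat_lit 4) (nat_lit 23) (nat_lit 24) = true := by decide +kernel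
def p15_26_3_24 : pfC (piC [(nat_lit 37297016), (nat_lit 24651042), (nat_lit 18388512), (nat_lit 12378745)] (nat_lit 4975805)) p15_26_3 (nat_lit 4) (nat_lit 24) (nat_lit 25) = true := by decide +kernel
def p15_26_3_25 : pfC (piC [(nat_lit 37297016), (nat_lit 24651042), (nat_lit 18388512), (nat_lit 12378745)] (nat_lit 4975805)) p15_26_3 (nat_lit 4) (nat_lit 25) (nat_lit 26) = true := by decide +kernel
def p15_26_3_26 : pfC (piC [(nat_lit 37297016), (nat_lit 24651042), (nat_lit 18388512), (nat_lit 12378745)] (nat_lit 4975805)) p15_26_3 (nat_lit 4) (nat_lit 26) (nat_lit 27) = true := by decide +kernel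
def p15_26_3_27 : pfC (piC [(nat_lit 37297016), (nat_lit 24651042), (nat_lit 18388512), (nat_lit 12378745)] (nat_lit 4975805)) p15_26_3 (nat_lit 4) (nat_lit 27) (nat_lit 28) = true := by decide +kernel
def p15_26_3_28 : pfC (piC [(nat_lit 37297016), (nat_lit 24651042), (nat_lit 18388512), (nat_lit 12378745)] (nat_lit 4975805)) p15_26_3 (nat_lit 4) (nat_lit 28) (nat_lit 29) = true := by decide +kernel
def p15_26_3_29 : pfC (piC [(nat_lit 37297016), (nat_lit 24651042), (nat_lit 18388512), (nat_lit 12378745)] (nat_lit 4975805)) p15_26_3 (nat_lit 4) (nat_lit 29) (nat_lit 30) = true := by decide +kernel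
def p15_26_3_30 : pfC (piC [(nat_lit 37297016), (nat_lit 24651042), (nat_lit 18388512), (nat_lit 12378745)] (nat_lit 4975805)) p15_26_3 (nat_lit 4) (nat_lit 30) (nat_lit 31) = true := by decide +kernel
def p15_26_3_31 : pfC (piC [(nat_lit 37297016), (nat_lit 24651042), (nat_lit 18388512), (nat_lit 12378745)] (nat_lit 4975805)) p15_26_3 (nat_lit 4) (nat_lit 31) (nat_lit 32) = true := by decide +kernel
def p15_26_3_32 : pfC (piC [(nat_lit 37297016), (nat_lit 24651042), (nat_lit 18388512), (nat_lit 12378745)] (nat_lit 4975805)) p15_26_3 (nat_lit 4) (nat_lit 32) (nat_lit 33) = true := by decide +kernel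
def p15_26_3_33 : pfC (piC [(nat_lit 37297016), (nat_lit 24651042), (nat_lit 18388512), (nat_lit 12378745)] (nat_lit 4975805)) p15_26_3 (nat_lit 4) (nat_lit 33) (nat_lit 34) = true := by decide +kernel
def p15_26_3_34 : pfC (piC [(nat_lit 37297016), (nat_lit 24651042), (nat_lit 18388512), (nat_lit 12378745)] (nat_lit 4975805)) p15_26_3 (nat_lit 4) (nat_lit 34) (nat_lit 35) = true := by decide +kernel
def p15_26_3_35 : pfC (piC [(nat_lit 37297016), (nat_lit 24651042), (nat_lit 18388512), (nat_lit 12378745)] (nat_lit 4975805)) p15_26_3 (nat_lit 4) (nat_lit 35) (nat_lit 36) = true := by decide +kernel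
def p15_26_3_36 : pfC (piC [(nat_lit 37297016), (nat_lit 24651042), (nat_lit 18388512), (nat_lit 12378745)] (nat_lit 4975805)) p15_26_3 (nat_lit 4) (nat_lit 36) (nat_lit 37) = true := by decide +kernel
def p15_26_3_37 : pfC (piC [(nat_lit 37297016), (nat_lit 24651042), (nat_lit 18388512), (nat_lit 12378745)] (nat_lit 4975805)) p15_26_3 (nat_lit 4) (nat_lit 37) (nat_lit 38) = true := by decide +kernel
def p15_26_3_38 : pfC (piC [(nat_lit 37297016), (nat_lit 24651042), (nat_lit 18388512), (nat_lit 12378745)] (nat_lit 4975805)) p15_26_3 (nat_lit 4) (nat_lit 38) (nat_lit 39) = true := by decide +kernel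
def p15_26_3_39 : pfC (piC [(nat_lit 37297016), (nat_lit 24651042), (nat_lit 18388512), (nat_lit 12378745)] (nat_lit 4975805)) p15_26_3 (nat_lit 4) (nat_lit 39) (nat_lit 40) = true := by decide +kernel
def p15_26_3_40 : pfC (piC [(nat_lit 37297016), (nat_lit 24651042), (nat_lit 18388512), (nat_lit 12378745)] (nat_lit 4975805)) p15_26_3 (nat_lit 4) (nat_lit 40) (nat_lit 41) = true := by decide +kernel
def p15_26_3_41 : pfC (piC [(nat_lit 37297016), (nat_lit 24651042), (nat_lit 18388512), (nat_lit 12378745)] (nat_lit 4975805)) p15_26_3 (nat_lit 4) (nat_lit 41) (nat_lit 42) = true := by decide +kernel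
def p15_26_3_42 : pfC (piC [(nat_lit 37297016), (nat_lit 24651042), (nat_lit 18388512), (nat_lit 12378745)] (nat_lit 4975805)) p15_26_3 (nat_lit 4) (nat_lit 42) (nat_lit 43) = true := by decide +kernel
def p15_26_3_43 : pfC (piC [(nat_lit 37297016), (nat_lit 24651042), (nat_lit 18388512), (nat_lit 12378745)] (nat_lit 4975805)) p15_26_3 (nat_lit 4) (nat_lit 43) (nat_lit 44) = true := by decide +kernel
def p15_26_3_44 : pfC (piC [(nat_lit 37297016), (nat_lit 24651042), (nat_lit 18388512), (nat_lit 12378745)] (nat_lit 4975805)) p15_26_3 (nat_lit 4) (nat_lit 44) (nat_lit 45) = true := by decide +kernel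
def p15_26_3_45 : pfC (piC [(nat_lit 37297016), (nat_lit 24651042), (nat_lit 18388512), (nat_lit 12378745)] (nat_lit 4975805)) p15_26_3 (nat_lit 4) (nat_lit 45) (nat_lit 46) = true := by decide +kernel
def p15_26_3_46 : pfC (piC [(nat_lit 37297016), (nat_lit 24651042), (nat_lit 18388512), (nat_lit 12378745)] (nat_lit 4975805)) p15_26_3 (nat_lit 4) (nat_lit 46) (nat_lit 47) = true := by decide +kernel
def p15_26_3_47 : pfC (piC [(nat_lit 37297016), (nat_lit 24651042), (nat_lit 18388512), (nat_lit 12378745)] (nat_lit 4975805)) p15_26_3 (nat_lit 4) (nat_lit 47) (nat_lit 48) = true := by decide +kernel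
def p15_26_3_48 : pfC (piC [(nat_lit 37297016), (nat_lit 24651042), (nat_lit 18388512), (nat_lit 12378745)] (nat_lit 4975805)) p15_26_3 (nat_lit 4) (nat_lit 48) (nat_lit 49) = true := by decide +kernel
def p15_26_3_49 : pfC (piC [(nat_lit 37297016), (nat_lit 24651042), (nat_lit 18388512), (nat_lit 12378745)] (nat_lit 4975805)) p15_26_3 (nat_lit 4) (nat_lit 49) (nat_lit 50) = true := by decide +kernel
def p15_26_3_50 : pfC (piC [(nat_lit 37297016), (nat_lit 24651042), (nat_lit 18388512), (nat_lit 12378745)] (nat_lit 4975805)) p15_26_3 (nat_lit 4) (nat_lit 50) (nat_lit 51) = true := by decide +kernel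
def p15_26_3_51 : pfC (piC [(nat_lit 37297016), (nat_lit 24651042), (nat_lit 18388512), (nat_lit 12378745)] (nat_lit 4975805)) p15_26_3 (nat_lit 4) (nat_lit 51) (nat_lit 52) = true := by decide +kernel
def p15_26_3_52 : pfC (piC [(nat_lit 37297016), (nat_lit 24651042), (nat_lit 18388512), (nat_lit 12378745)] (nat_lit 4975805)) p15_26_3 (nat_lit 4) (nat_lit 52) (nat_lit 53) = true := by decide +kernel
def p15_26_3_53 : pfC (piC [(nat_lit 37297016), (nat_lit 24651042), (nat_lit 18388512), (nat_lit 12378745)] (nat_lit 4975805)) p15_26_3 (nat_lit 4) (nat_lit 53) (nat_lit 54) = true := by decide +kernel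
def p15_26_3_54 : pfC (piC [(nat_lit 37297016), (nat_lit 24651042), (nat_lit 18388512), (nat_lit 12378745)] (nat_lit 4975805)) p15_26_3 (nat_lit 4) (nat_lit 54) (nat_lit 55) = true := by decide +kernel
def p15_26_3_55 : pfC (piC [(nat_lit 37297016), (nat_lit 24651042), (nat_lit 18388512), (nat_lit 12378745)] (nat_lit 4975805)) p15_26_3 (nat_lit 4) (nat_lit 55) (nat_lit 56) = true := by decide +kernel
def p15_26_3_56 : pfC (piC [(nat_lit 37297016), (nat_lit 24651042), (nat_lit 18388512), (nat_lit 12378745)] (nat_lit 4975805)) p15_26_3 (nat_lit 4) (nat_lit 56) (nat_lit 57) = true := by decide +kernel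
def p15_26_3_57 : pfC (piC [(nat_lit 37297016), (nat_lit 24651042), (nat_lit 18388512), (nat_lit 12378745)] (nat_lit 4975805)) p15_26_3 (nat_lit 4) (nat_lit 57) (nat_lit 58) = true := by decide +kernel
def p15_26_3_58 : pfC (piC [(nat_lit 37297016), (nat_lit 24651042), (nat_lit 18388512), (nat_lit 12378745)] (nat_lit 4975805)) p15_26_3 (nat_lit 4) (nat_lit 58) (nat_lit 59) = true := by decide +kernel
def p15_26_3_59 : pfC (piC [(nat_lit 37297016), (nat_lit 24651042), (nat_lit 18388512), (nat_lit 12378745)] (nat_lit 4975805)) p15_26_3 (nat_lit 4) (nat_lit 59) (nat_lit 60) = true := by decide +kernel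
def p15_26_3_60 : pfC (piC [(nat_lit 37297016), (nat_lit 24651042), (nat_lit 18388512), (nat_lit 12378745)] (nat_lit 4975805)) p15_26_3 (nat_lit 4) (nat_lit 60) (nat_lit 61) = true := by decide +kernel
def p15_26_3_61 : pfC (piC [(nat_lit 37297016), (nat_lit 24651042), (nat_lit 18388512), (nat_lit 12378745)] (nat_lit 4975805)) p15_26_3 (nat_lit 4) (nat_lit 61) (nat_lit 62) = true := by decide +kernel
def p15_26_3_62 : pfC (piC [(nat_lit 37297016), (nat_lit 24651042), (nat_lit 18388512), (nat_lit 12378745)] (nat_lit 4975805)) p15_26_3 (nat_lit 4) (nat_lit 62) (nat_lit 63) = true := by decide +kernel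
def p15_26_3_63 : pfC (piC [(nat_lit 37297016), (nat_lit 24651042), (nat_lit 18388512), (nat_lit 12378745)] (nat_lit 4975805)) p15_26_3 (nat_lit 4) (nat_lit 63) (nat_lit 64) = true := by decide +kernel
def p15_26_3_64 : pfC (piC [(nat_lit 37297016), (nat_lit 24651042), (nat_lit 18388512), (nat_lit 12378745)] (nat_lit 4975805)) p15_26_3 (nat_lit 4) (nat_lit 64) (nat_lit 65) = true := by decide +kernel
def p15_26_3_65 : pfC (piC [(nat_lit 37297016), (nat_lit 24651042), (nat_lit 18388512), (nat_lit 12378745)] (nat_lit 4975805)) p15_26_3 (nat_lit 4) (nat_lit 65) (nat_lit 66) = true := by decide +kernel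
def p15_26_3_66 : pfC (piC [(nat_lit 37297016), (nat_lit 24651042), (nat_lit 18388512), (nat_lit 12378745)] (nat_lit 4975805)) p15_26_3 (nat_lit 4) (nat_lit 66) (nat_lit 67) = true := by decide +kernel
def p15_26_3_67 : pfC (piC [(nat_lit 37297016), (nat_lit 24651042), (nat_lit 18388512), (nat_lit 12378745)] (nat_lit 4975805)) p15_26_3 (nat_lit 4) (nat_lit 67) (nat_lit 68) = true := by decide +kernel
def p15_26_3_68 : pfC (piC [(nat_lit 37297016), (nat_lit 24651042), (nat_lit 18388512), (nat_lit 12378745)] (nat_lit 4975805)) p15_26_3 (nat_lit 4) (nat_lit 68) (nat_lit 69) = true := by decide +kernel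
def p15_26_3_69 : pfC (piC [(nat_lit 37297016), (nat_lit 24651042), (nat_lit 18388512), (nat_lit 12378745)] (nat_lit 4975805)) p15_26_3 (nat_lit 4) (nat_lit 69) (nat_lit 70) = true := by decide +kernel
def p15_26_3_70 : pfC (piC [(nat_lit 37297016), (nat_lit 24651042), (nat_lit 18388512), (nat_lit 12378745)] (nat_lit 4975805)) p15_26_3 (nat_lit 4) (nat_lit 70) (nat_lit 71) = true := by decide +kernel
def p15_26_3_71 : pfC (piC [(nat_lit 37297016), (nat_lit 24651042), (nat_lit 18388512), (nat_lit 12378745)] (nat_lit 4975805)) p15_26_3 (nat_lit 4) (nat_lit 71) (nat_lit 72) = true := by decide +kernel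
def p15_26_3_72 : pfC (piC [(nat_lit 37297016), (nat_lit 24651042), (nat_lit 18388512), (nat_lit 12378745)] (nat_lit 4975805)) p15_26_3 (nat_lit 4) (nat_lit 72) (nat_lit 73) = true := by decide +kernel
def p15_26_3_73 : pfC (piC [(nat_lit 37297016), (nat_lit 24651042), (nat_lit 18388512), (nat_lit 12378745)] (nat_lit 4975805)) p15_26_3 (nat_lit 4) (nat_lit 73) (nat_lit 74) = true := by decide +kernel
def p15_26_3_74 : pfC (piC [(nat_lit 37297016), (nat_lit 24651042), (nat_lit 18388512), (nat_lit 12378745)] (nat_lit 4975805)) p15_26_3 (nat_lit 4) (nat_lit 74) (nat_lit 75) = true := by decide +kernel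
def p15_26_3_75 : pfC (piC [(nat_lit 37297016), (nat_lit 24651042), (nat_lit 18388512), (nat_lit 12378745)] (nat_lit 4975805)) p15_26_3 (nat_lit 4) (nat_lit 75) (nat_lit 76) = true := by decide +kernel
def p15_26_3_76 : pfC (piC [(nat_lit 37297016), (nat_lit 24651042), (nat_lit 18388512), (nat_lit 12378745)] (nat_lit 4975805)) p15_26_3 (nat_lit 4) (nat_lit 76) (nat_lit 77) = true := by decide +kernel
def p15_26_3_77 : pfC (piC [(nat_lit 37297016), (nat_lit 24651042), (nat_lit 18388512), (nat_lit 12378745)] (nat_lit 4975805)) p15_26_3 (nat_lit 4) (nat_lit 77) (nat_lit 78) = true := by decide +kernel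
def p15_26_3_78 : pfC (piC [(nat_lit 37297016), (nat_lit 24651042), (nat_lit 18388512), (nat_lit 12378745)] (nat_lit 4975805)) p15_26_3 (nat_lit 4) (nat_lit 78) (nat_lit 79) = true := by decide +kernel
def p15_26_3_79 : pfC (piC [(nat_lit 37297016), (nat_lit 24651042), (nat_lit 18388512), (nat_lit 12378745)] (nat_lit 4975805)) p15_26_3 (nat_lit 4) (nat_lit 79) (nat_lit 80) = true := by decide +kernel
def p15_26_3_80 : pfC (piC [(nat_lit 37297016), (nat_lit 24651042), (nat_lit 18388512), (nat_lit 12378745)] (nat_lit 4975805)) p15_26_3 (nat_lit 4) (nat_lit 80) (nat_lit 81) = true := by decide +kernel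
def p15_26_3_81 : pfC (piC [(nat_lit 37297016), (nat_lit 24651042), (nat_lit 18388512), (nat_lit 12378745)] (nat_lit 4975805)) p15_26_3 (nat_lit 4) (nat_lit 81) (nat_lit 82) = true := by decide +kernel
def p15_26_3_82 : pfC (piC [(nat_lit 37297016), (nat_lit 24651042), (nat_lit 18388512), (nat_lit 12378745)] (nat_lit 4975805)) p15_26_3 (nat_lit 4) (nat_lit 82) (nat_lit 83) = true := by decide +kernel
def p15_26_3_83 : pfC (piC [(nat_lit 37297016), (nat_lit 24651042), (nat_lit 18388512), (nat_lit 12378745)] (nat_lit 4975805)) p15_26_3 (nat_lit 4) (nat_lit 83) (nat_lit 84) = true := by decide +kernel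
def p15_26_3_84 : pfC (piC [(nat_lit 37297016), (nat_lit 24651042), (nat_lit 18388512), (nat_lit 12378745)] (nat_lit 4975805)) p15_26_3 (nat_lit 4) (nat_lit 84) (nat_lit 85) = true := by decide +kernel
def p15_26_3_85 : pfC (piC [(nat_lit 37297016), (nat_lit 24651042), (nat_lit 18388512), (nat_lit 12378745)] (nat_lit 4975805)) p15_26_3 (nat_lit 4) (nat_lit 85) (nat_lit 86) = true := by decide +kernel
def p15_26_3_86 : pfC (piC [(nat_lit 37297016), (nat_lit 24651042), (nat_lit 18388512), (nat_lit 12378745)] (nat_lit 4975805)) p15_26_3 (nat_lit 4) (nat_lit 86) (nat_lit 87) = true := by decide +kernel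
def p15_26_3_87 : pfC (piC [(nat_lit 37297016), (nat_lit 24651042), (nat_lit 18388512), (nat_lit 12378745)] (nat_lit 4975805)) p15_26_3 (nat_lit 4) (nat_lit 87) (nat_lit 88) = true := by decide +kernel
def p15_26_3_88 : pfC (piC [(nat_lit 37297016), (nat_lit 24651042), (nat_lit 18388512), (nat_lit 12378745)] (nat_lit 4975805)) p15_26_3 (nat_lit 4) (nat_lit 88) (nat_lit 89) = true := by decide +kernel
def p15_26_3_89 : pfC (piC [(nat_lit 37297016), (nat_lit 24651042), (nat_lit 18388512), (nat_lit 12378745)] (nat_lit 4975805)) p15_26_3 (nat_lit 4) (nat_lit 89) (nat_lit 90) = true := by decide +kernel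
def p15_26_3_90 : pfC (piC [(nat_lit 37297016), (nat_lit 24651042), (nat_lit 18388512), (nat_lit 12378745)] (nat_lit 4975805)) p15_26_3 (nat_lit 4) (nat_lit 90) (nat_lit 91) = true := by decide +kernel
def p15_26_3_91 : pfC (piC [(nat_lit 37297016), (nat_lit 24651042), (nat_lit 18388512), (nat_lit 12378745)] (nat_lit 4975805)) p15_26_3 (nat_lit 4) (nat_lit 91) (nat_lit 92) = true := by decide +kernel
def p15_26_3_92 : pfC (piC [(nat_lit 37297016), (nat_lit 24651042), (nat_lit 18388512), (nat_lit 12378745)] (nat_lit 4975805)) p15_26_3 (nat_lit 4) (nat_lit 92) (nat_lit 93) = true := by decide +kernel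
def p15_26_3_93 : pfC (piC [(nat_lit 37297016), (nat_lit 24651042), (nat_lit 18388512), (nat_lit 12378745)] (nat_lit 4975805)) p15_26_3 (nat_lit 4) (nat_lit 93) (nat_lit 94) = true := by decide +kernel
def p15_26_3_94 : pfC (piC [(nat_lit 37297016), (nat_lit 24651042), (nat_lit 18388512), (nat_lit 12378745)] (nat_lit 4975805)) p15_26_3 (nat_lit 4) (nat_lit 94) (nat_lit 95) = true := by decide +kernel
def p15_26_3_95 : pfC (piC [(nat_lit 37297016), (nat_lit 24651042), (nat_lit 18388512), (nat_lit 12378745)] (nat_lit 4975805)) p15_26_3 (nat_lit 4) (nat_lit 95) (nat_lit 96) = true := by decide +kernel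
def p15_26_3_96 : pfC (piC [(nat_lit 37297016), (nat_lit 24651042), (nat_lit 18388512), (nat_lit 12378745)] (nat_lit 4975805)) p15_26_3 (nat_lit 4) (nat_lit 96) (nat_lit 97) = true := by decide +kernel
def p15_26_3_97 : pfC (piC [(nat_lit 37297016), (nat_lit 24651042), (nat_lit 18388512), (nat_lit 12378745)] (nat_lit 4975805)) p15_26_3 (nat_lit 4) (nat_lit 97) (nat_lit 98) = true := by decide +kernel
def p15_26_3_98 : pfC (piC [(nat_lit 37297016), (nat_lit 24651042), (nat_lit 18388512), (nat_lit 12378745)] (nat_lit 4975805)) p15_26_3 (nat_lit 4) (nat_lit 98) (nat_lit 99) = true := by decide +kernel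
def p15_26_3_99 : pfC (piC [(nat_lit 37297016), (nat_lit 24651042), (nat_lit 18388512), (nat_lit 12378745)] (nat_lit 4975805)) p15_26_3 (nat_lit 4) (nat_lit 99) (nat_lit 100) = true := by decide +kernel
def p15_26_3_100 : pfC (piC [(nat_lit 37297016), (nat_lit 24651042), (nat_lit 18388512), (nat_lit 12378745)] (nat_lit 4975805)) p15_26_3 (nat_lit 4) (nat_lit 100) (nat_lit 101) = true := by decide +kernel
def p15_26_3_101 : pfC (piC [(nat_lit 37297016), (nat_lit 24651042), (nat_lit 18388512), (nat_lit 12378745)] (nat_lit 4975805)) p15_26_3 (nat_lit 4) (nat_lit 101) (nat_lit 102) = true := by decide +kernel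
def p15_26_3_102 : pfC (piC [(nat_lit 37297016), (nat_lit 24651042), (nat_lit 18388512), (nat_lit 12378745)] (nat_lit 4975805)) p15_26_3 (nat_lit 4) (nat_lit 102) (nat_lit 103) = true := by decide +kernel
def p15_26_3_103 : pfC (piC [(nat_lit 37297016), (nat_lit 24651042), (nat_lit 18388512), (nat_lit 12378745)] (nat_lit 4975805)) p15_26_3 (nat_lit 4) (nat_lit 103) (nat_lit 104) = true := by decide +kernel
def p15_26_3_104 : pfC (piC [(nat_lit 37297016), (nat_lit 24651042), (nat_lit 18388512), (nat_lit 12378745)] (nat_lit 4975805)) p15_26_3 (nat_lit 4) (nat_lit 104) (nat_lit 105) = true := by decide +kernel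
def p15_26_3_105 : pfC (piC [(nat_lit 37297016), (nat_lit 24651042), (nat_lit 18388512), (nat_lit 12378745)] (nat_lit 4975805)) p15_26_3 (nat_lit 4) (nat_lit 105) (nat_lit 106) = true := by decide +kernel
def p15_26_3_106 : pfC (piC [(nat_lit 37297016), (nat_lit 24651042), (nat_lit 18388512), (nat_lit 12378745)] (nat_lit 4975805)) p15_26_3 (nat_lit 4) (nat_lit 106) (nat_lit 107) = true := by decide +kernel
def p15_26_3_107 : pfC (piC [(nat_lit 37297016), (nat_lit 24651042), (nat_lit 18388512), (nat_lit 12378745)] (nat_lit 4975805)) p15_26_3 (nat_lit 4) (nat_lit 107) (nat_lit 108) = true := by decide +kernel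
def p15_26_3_108 : pfC (piC [(nat_lit 37297016), (nat_lit 24651042), (nat_lit 18388512), (nat_lit 12378745)] (nat_lit 4975805)) p15_26_3 (nat_lit 4) (nat_lit 108) (nat_lit 109) = true := by decide +kernel
def p15_26_3_109 : pfC (piC [(nat_lit 37297016), (nat_lit 24651042), (nat_lit 18388512), (nat_lit 12378745)] (nat_lit 4975805)) p15_26_3 (nat_lit 4) (nat_lit 109) (nat_lit 110) = true := by decide +kernel
def p15_26_3_110 : pfC (piC [(nat_lit 37297016), (nat_lit 24651042), (nat_lit 18388512), (nat_lit 12378745)] (nat_lit 4975805)) p15_26_3 (nat_lit 4) (nat_lit 110) (nat_lit 111) = true := by decide +kernel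
def p15_26_3_111 : pfC (piC [(nat_lit 37297016), (nat_lit 24651042), (nat_lit 18388512), (nat_lit 12378745)] (nat_lit 4975805)) p15_26_3 (nat_lit 4) (nat_lit 111) (nat_lit 112) = true := by decide +kernel
def p15_26_3_112 : pfC (piC [(nat_lit 37297016), (nat_lit 24651042), (nat_lit 18388512), (nat_lit 12378745)] (nat_lit 4975805)) p15_26_3 (nat_lit 4) (nat_lit 112) (nat_lit 113) = true := by decide +kernel
def p15_26_3_113 : pfC (piC [(nat_lit 37297016), (nat_lit 24651042), (nat_lit 18388512), (nat_lit 12378745)] (nat_lit 4975805)) p15_26_3 (nat_lit 4) (nat_lit 113) (nat_lit 114) = true := by decide +kernel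
def p15_26_3_114 : pfC (piC [(nat_lit 37297016), (nat_lit 24651042), (nat_lit 18388512), (nat_lit 12378745)] (nat_lit 4975805)) p15_26_3 (nat_lit 4) (nat_lit 114) (nat_lit 115) = true := by decide +kernel
def p15_26_3_115 : pfC (piC [(nat_lit 37297016), (nat_lit 24651042), (nat_lit 18388512), (nat_lit 12378745)] (nat_lit 4975805)) p15_26_3 (nat_lit 4) (nat_lit 115) (nat_lit 116) = true := by decide +kernel
def p15_26_3_116 : pfC (piC [(nat_lit 37297016), (nat_lit 24651042), (nat_lit 18388512), (nat_lit 12378745)] (nat_lit 4975805)) p15_26_3 (nat_lit 4) (nat_lit 116) (nat_lit 117) = true := by decide +kernel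
def p15_26_3_117 : pfC (piC [(nat_lit 37297016), (nat_lit 24651042), (nat_lit 18388512), (nat_lit 12378745)] (nat_lit 4975805)) p15_26_3 (nat_lit 4) (nat_lit 117) (nat_lit 118) = true := by decide +kernel
def p15_26_3_118 : pfC (piC [(nat_lit 37297016), (nat_lit 24651042), (nat_lit 18388512), (nat_lit 12378745)] (nat_lit 4975805)) p15_26_3 (nat_lit 4) (nat_lit 118) (nat_lit 119) = true := by decide +kernel
def p15_26_3_119 : pfC (piC [(nat_lit 37297016), (nat_lit 24651042), (nat_lit 18388512), (nat_lit 12378745)] (nat_lit 4975805)) p15_26_3 (nat_lit 4) (nat_lit 119) (nat_lit 120) = true := by decide +kernel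
def p15_26_3_120 : pfC (piC [(nat_lit 37297016), (nat_lit 24651042), (nat_lit 18388512), (nat_lit 12378745)] (nat_lit 4975805)) p15_26_3 (nat_lit 4) (nat_lit 120) (nat_lit 121) = true := by decide +kernel
def p15_26_3_121 : pfC (piC [(nat_lit 37297016), (nat_lit 24651042), (nat_lit 18388512), (nat_lit 12378745)] (nat_lit 4975805)) p15_26_3 (nat_lit 4) (nat_lit 121) (nat_lit 122) = true := by decide +kernel
def p15_26_3_122 : pfC (piC [(nat_lit 37297016), (nat_lit 24651042), (nat_lit 18388512), (nat_lit 12378745)] (nat_lit 4975805)) p15_26_3 (nat_lit 4) (nat_lit 122) (nat_lit 123) = true := by decide +kernel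
def p15_26_3_123 : pfC (piC [(nat_lit 37297016), (nat_lit 24651042), (nat_lit 18388512), (nat_lit 12378745)] (nat_lit 4975805)) p15_26_3 (nat_lit 4) (nat_lit 123) (nat_lit 124) = true := by decide +kernel
def p15_26_3_124 : pfC (piC [(nat_lit 37297016), (nat_lit 24651042), (nat_lit 18388512), (nat_lit 12378745)] (nat_lit 4975805)) p15_26_3 (nat_lit 4) (nat_lit 124) (nat_lit 125) = true := by decide +kernel
def p15_26_3_125 : pfC (piC [(nat_lit 37297016), (nat_lit 24651042), (nat_lit 18388512), (nat_lit 12378745)] (nat_lit 4975805)) p15_26_3 (nat_lit 4) (nat_lit 125) (nat_lit 126) = true := by decide +kernel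
def p15_26_3_126 : pfC (piC [(nat_lit 37297016), (nat_lit 24651042), (nat_lit 18388512), (nat_lit 12378745)] (nat_lit 4975805)) p15_26_3 (nat_lit 4) (nat_lit 126) (nat_lit 127) = true := by decide +kernel
def p15_26_3_127 : pfC (piC [(nat_lit 37297016), (nat_lit 24651042), (nat_lit 18388512), (nat_lit 12378745)] (nat_lit 4975805)) p15_26_3 (nat_lit 4) (nat_lit 127) (nat_lit 128) = true := by decide +kernel
def p15_26_3_128 : pfC (piC [(nat_lit 37297016), (nat_lit 24651042), (nat_lit 18388512), (nat_lit 12378745)] (nat_lit 4975805)) p15_26_3 (nat_lit 4) (nat_lit 128) (nat_lit 129) = true := by decide +kernel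
def p15_26_3_129 : pfC (piC [(nat_lit 37297016), (nat_lit 24651042), (nat_lit 18388512), (nat_lit 12378745)] (nat_lit 4975805)) p15_26_3 (nat_lit 4) (nat_lit 129) (nat_lit 130) = true := by decide +kernel
def p15_26_3_130 : pfC (piC [(nat_lit 37297016), (nat_lit 24651042), (nat_lit 18388512), (nat_lit 12378745)] (nat_lit 4975805)) p15_26_3 (nat_lit 4) (nat_lit 130) (nat_lit 131) = true := by decide +kernel
def p15_26_3_131 : pfC (piC [(nat_lit 37297016), (nat_lit 24651042), (nat_lit 18388512), (nat_lit 12378745)] (nat_lit 4975805)) p15_26_3 (nat_lit 4) (nat_lit 131) (nat_lit 132) = true := by decide +kernel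
def p15_26_3_132 : pfC (piC [(nat_lit 37297016), (nat_lit 24651042), (nat_lit 18388512), (nat_lit 12378745)] (nat_lit 4975805)) p15_26_3 (nat_lit 4) (nat_lit 132) (nat_lit 133) = true := by decide +kernel
def p15_26_3_133 : pfC (piC [(nat_lit 37297016), (nat_lit 24651042), (nat_lit 18388512), (nat_lit 12378745)] (nat_lit 4975805)) p15_26_3 (nat_lit 4) (nat_lit 133) (nat_lit 134) = true := by decide +kernel
def p15_26_3_134 : pfC (piC [(nat_lit 37297016), (nat_lit 24651042), (nat_lit 18388512), (nat_lit 12378745)] (nat_lit 4975805)) p15_26_3 (nat_lit 4) (nat_lit 134) (nat_lit 135) = true := by decide +kernel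
def p15_26_3_135 : pfC (piC [(nat_lit 37297016), (nat_lit 24651042), (nat_lit 18388512), (nat_lit 12378745)] (nat_lit 4975805)) p15_26_3 (nat_lit 4) (nat_lit 135) (nat_lit 136) = true := by decide +kernel
def p15_26_3_136 : pfC (piC [(nat_lit 37297016), (nat_lit 24651042), (nat_lit 18388512), (nat_lit 12378745)] (nat_lit 4975805)) p15_26_3 (nat_lit 4) (nat_lit 136) (nat_lit 137) = true := by decide +kernel
def p15_26_3_137 : pfC (piC [(nat_lit 37297016), (nat_lit 24651042), (nat_lit 18388512), (nat_lit 12378745)] (nat_lit 4975805)) p15_26_3 (nat_lit 4) (nat_lit 137) (nat_lit 138) = true := by decide +kernel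
def p15_26_3_138 : pfC (piC [(nat_lit 37297016), (nat_lit 24651042), (nat_lit 18388512), (nat_lit 12378745)] (nat_lit 4975805)) p15_26_3 (nat_lit 4) (nat_lit 138) (nat_lit 139) = true := by decide +kernel
def p15_26_3_139 : pfC (piC [(nat_lit 37297016), (nat_lit 24651042), (nat_lit 18388512), (nat_lit 12378745)] (nat_lit 4975805)) p15_26_3 (nat_lit 4) (nat_lit 139) (nat_lit 140) = true := by decide +kernel
def p15_26_3_140 : pfC (piC [(nat_lit 37297016), (nat_lit 24651042), (nat_lit 18388512), (nat_lit 12378745)] (nat_lit 4975805)) p15_26_3 (nat_lit 4) (nat_lit 140) (nat_lit 141) = true := by decide +kernel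
def p15_26_3_141 : pfC (piC [(nat_lit 37297016), (nat_lit 24651042), (nat_lit 18388512), (nat_lit 12378745)] (nat_lit 4975805)) p15_26_3 (nat_lit 4) (nat_lit 141) (nat_lit 142) = true := by decide +kernel
def p15_26_3_142 : pfC (piC [(nat_lit 37297016), (nat_lit 24651042), (nat_lit 18388512), (nat_lit 12378745)] (nat_lit 4975805)) p15_26_3 (nat_lit 4) (nat_lit 142) (nat_lit 143) = true := by decide +kernel
def p15_26_3_143 : pfC (piC [(nat_lit 37297016), (nat_lit 24651042), (nat_lit 18388512), (nat_lit 12378745)] (nat_lit 4975805)) p15_26_3 (nat_lit 4) (nat_lit 143) (nat_lit 144) = true := by decide +kernel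
def p15_26_3_144 : pfC (piC [(nat_lit 37297016), (nat_lit 24651042), (nat_lit 18388512), (nat_lit 12378745)] (nat_lit 4975805)) p15_26_3 (nat_lit 4) (nat_lit 144) (nat_lit 145) = true := by decide +kernel
def p15_26_3_145 : pfC (piC [(nat_lit 37297016), (nat_lit 24651042), (nat_lit 18388512), (nat_lit 12378745)] (nat_lit 4975805)) p15_26_3 (nat_lit 4) (nat_lit 145) (nat_lit 146) = true := by decide +kernel
def p15_26_3_146 : pfC (piC [(nat_lit 37297016), (nat_lit 24651042), (nat_lit 18388512), (nat_lit 12378745)] (nat_lit 4975805)) p15_26_3 (nat_lit 4) (nat_lit 146) (nat_lit 147) = true := by decide +kernel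
def p15_26_3_147 : pfC (piC [(nat_lit 37297016), (nat_lit 24651042), (nat_lit 18388512), (nat_lit 12378745)] (nat_lit 4975805)) p15_26_3 (nat_lit 4) (nat_lit 147) (nat_lit 148) = true := by decide +kernel
def p15_26_3_148 : pfC (piC [(nat_lit 37297016), (nat_lit 24651042), (nat_lit 18388512), (nat_lit 12378745)] (nat_lit 4975805)) p15_26_3 (nat_lit 4) (nat_lit 148) (nat_lit 149) = true := by decide +kernel
def p15_26_3_149 : pfC (piC [(nat_lit 37297016), (nat_lit 24651042), (nat_lit 18388512), (nat_lit 12378745)] (nat_lit 4975805)) p15_26_3 (nat_lit 4) (nat_lit 149) (nat_lit 150) = true := by decide +kernel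
def p15_26_3_150 : pfC (piC [(nat_lit 37297016), (nat_lit 24651042), (nat_lit 18388512), (nat_lit 12378745)] (nat_lit 4975805)) p15_26_3 (nat_lit 4) (nat_lit 150) (nat_lit 151) = true := by decide +kernel
def p15_26_3_151 : pfC (piC [(nat_lit 37297016), (nat_lit 24651042), (nat_lit 18388512), (nat_lit 12378745)] (nat_lit 4975805)) p15_26_3 (nat_lit 4) (nat_lit 151) (nat_lit 152) = true := by decide +kernel
def p15_26_3_152 : pfC (piC [(nat_lit 37297016), (nat_lit 24651042), (nat_lit 18388512), (nat_lit 12378745)] (nat_lit 4975805)) p15_26_3 (nat_lit 4) (nat_lit 152) (nat_lit 153) = true := by decide +kernel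
def p15_26_3_153 : pfC (piC [(nat_lit 37297016), (nat_lit 24651042), (nat_lit 18388512), (nat_lit 12378745)] (nat_lit 4975805)) p15_26_3 (nat_lit 4) (nat_lit 153) (nat_lit 154) = true := by decide +kernel
def p15_26_3_154 : pfC (piC [(nat_lit 37297016), (nat_lit 24651042), (nat_lit 18388512), (nat_lit 12378745)] (nat_lit 4975805)) p15_26_3 (nat_lit 4) (nat_lit 154) (nat_lit 155) = true := by decide +kernel
def p15_26_3_155 : pfC (piC [(nat_lit 37297016), (nat_lit 24651042), (nat_lit 18388512), (nat_lit 12378745)] (nat_lit 4975805)) p15_26_3 (nat_lit 4) (nat_lit 155) (nat_lit 156) = true := by decide +kernel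
def p15_26_3_156 : pfC (piC [(nat_lit 37297016), (nat_lit 24651042), (nat_lit 18388512), (nat_lit 12378745)] (nat_lit 4975805)) p15_26_3 (nat_lit 4) (nat_lit 156) (nat_lit 157) = true := by decide +kernel
def p15_26_3_157 : pfC (piC [(nat_lit 37297016), (nat_lit 24651042), (nat_lit 18388512), (nat_lit 12378745)] (nat_lit 4975805)) p15_26_3 (nat_lit 4) (nat_lit 157) (nat_lit 158) = true := by decide +kernel
def p15_26_3_158 : pfC (piC [(nat_lit 37297016), (nat_lit 24651042), (nat_lit 18388512), (nat_lit 12378745)] (nat_lit 4975805)) p15_26_3 (nat_lit 4) (nat_lit 158) (nat_lit 159) = true := by decide +kernel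
def p15_26_3_159 : pfC (piC [(nat_lit 37297016), (nat_lit 24651042), (nat_lit 18388512), (nat_lit 12378745)] (nat_lit 4975805)) p15_26_3 (nat_lit 4) (nat_lit 159) (nat_lit 160) = true := by decide +kernel
def p15_26_3_160 : pfC (piC [(nat_lit 37297016), (nat_lit 24651042), (nat_lit 18388512), (nat_lit 12378745)] (nat_lit 4975805)) p15_26_3 (nat_lit 4) (nat_lit 160) (nat_lit 161) = true := by decide +kernel
def p15_26_3_161 : pfC (piC [(nat_lit 37297016), (nat_lit 24651042), (nat_lit 18388512), (nat_lit 12378745)] (nat_lit 4975805)) p15_26_3 (nat_lit 4) (nat_lit 161) (nat_lit 162) = true := by decide +kernel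
def p15_26_3_162 : pfC (piC [(nat_lit 37297016), (nat_lit 24651042), (nat_lit 18388512), (nat_lit 12378745)] (nat_lit 4975805)) p15_26_3 (nat_lit 4) (nat_lit 162) (nat_lit 163) = true := by decide +kernel
def p15_26_3_163 : pfC (piC [(nat_lit 37297016), (nat_lit 24651042), (nat_lit 18388512), (nat_lit 12378745)] (nat_lit 4975805)) p15_26_3 (nat_lit 4) (nat_lit 163) (nat_lit 164) = true := by decide +kernel
def p15_26_3_164 : pfC (piC [(nat_lit 37297016), (nat_lit 24651042), (nat_lit 18388512), (nat_lit 12378745)] (nat_lit 4975805)) p15_26_3 (nat_lit 4) (nat_lit 164) (nat_lit 165) = true := by decide +kernel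
def p15_26_3_165 : pfC (piC [(nat_lit 37297016), (nat_lit 24651042), (nat_lit 18388512), (nat_lit 12378745)] (nat_lit 4975805)) p15_26_3 (nat_lit 4) (nat_lit 165) (nat_lit 166) = true := by decide +kernel
def p15_26_3_166 : pfC (piC [(nat_lit 37297016), (nat_lit 24651042), (nat_lit 18388512), (nat_lit 12378745)] (nat_lit 4975805)) p15_26_3 (nat_lit 4) (nat_lit 166) (nat_lit 167) = true := by decide +kernel
def p15_26_3_167 : pfC (piC [(nat_lit 37297016), (nat_lit 24651042), (nat_lit 18388512), (nat_lit 12378745)] (nat_lit 4975805)) p15_26_3 (nat_lit 4) (nat_lit 167) (nat_lit 168) = true := by decide +kernel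
def p15_26_3_168 : pfC (piC [(nat_lit 37297016), (nat_lit 24651042), (nat_lit 18388512), (nat_lit 12378745)] (nat_lit 4975805)) p15_26_3 (nat_lit 4) (nat_lit 168) (nat_lit 169) = true := by decide +kernel
def p15_26_3_169 : pfC (piC [(nat_lit 37297016), (nat_lit 24651042), (nat_lit 18388512), (nat_lit 12378745)] (nat_lit 4975805)) p15_26_3 (nat_lit 4) (nat_lit 169) (nat_lit 170) = true := by decide +kernel
def p15_26_3_170 : pfC (piC [(nat_lit 37297016), (nat_lit 24651042), (nat_lit 18388512), (nat_lit 12378745)] (nat_lit 4975805)) p15_26_3 (nat_lit 4) (nat_lit 170) (nat_lit 171) = true := by decide +kernel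
def p15_26_3_171 : pfC (piC [(nat_lit 37297016), (nat_lit 24651042), (nat_lit 18388512), (nat_lit 12378745)] (nat_lit 4975805)) p15_26_3 (nat_lit 4) (nat_lit 171) (nat_lit 172) = true := by decide +kernel
def p15_26_3_172 : pfC (piC [(nat_lit 37297016), (nat_lit 24651042), (nat_lit 18388512), (nat_lit 12378745)] (nat_lit 4975805)) p15_26_3 (nat_lit 4) (nat_lit 172) (nat_lit 173) = true := by decide +kernel
def p15_26_3_173 : pfC (piC [(nat_lit 37297016), (nat_lit 24651042), (nat_lit 18388512), (nat_lit 12378745)] (nat_lit 4975805)) p15_26_3 (nat_lit 4) (nat_lit 173) (nat_lit 174) = true := by decide +kernel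
def p15_26_3_174 : pfC (piC [(nat_lit 37297016), (nat_lit 24651042), (nat_lit 18388512), (nat_lit 12378745)] (nat_lit 4975805)) p15_26_3 (nat_lit 4) (nat_lit 174) (nat_lit 175) = true := by decide +kernel
def p15_26_3_175 : pfC (piC [(nat_lit 37297016), (nat_lit 24651042), (nat_lit 18388512), (nat_lit 12378745)] (nat_lit 4975805)) p15_26_3 (nat_lit 4) (nat_lit 175) (nat_lit 176) = true := by decide +kernel
def p15_26_3_176 : pfC (piC [(nat_lit 37297016), (nat_lit 24651042), (nat_lit 18388512), (nat_lit 12378745)] (nat_lit 4975805)) p15_26_3 (nat_lit 4) (nat_lit 176) (nat_lit 177) = true := by decide +kernel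
def p15_26_3_177 : pfC (piC [(nat_lit 37297016), (nat_lit 24651042), (nat_lit 18388512), (nat_lit 12378745)] (nat_lit 4975805)) p15_26_3 (nat_lit 4) (nat_lit 177) (nat_lit 178) = true := by decide +kernel
def p15_26_3_178 : pfC (piC [(nat_lit 37297016), (nat_lit 24651042), (nat_lit 18388512), (nat_lit 12378745)] (nat_lit 4975805)) p15_26_3 (nat_lit 4) (nat_lit 178) (nat_lit 179) = true := by decide +kernel
def p15_26_3_179 : pfC (piC [(nat_lit 37297016), (nat_lit 24651042), (nat_lit 18388512), (nat_lit 12378745)] (nat_lit 4975805)) p15_26_3 (nat_lit 4) (nat_lit 179) (nat_lit 180) = true := by decide +kernel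
def p15_26_3_180 : pfC (piC [(nat_lit 37297016), (nat_lit 24651042), (nat_lit 18388512), (nat_lit 12378745)] (nat_lit 4975805)) p15_26_3 (nat_lit 4) (nat_lit 180) (nat_lit 181) = true := by decide +kernel
def p15_26_3_181 : pfC (piC [(nat_lit 37297016), (nat_lit 24651042), (nat_lit 18388512), (nat_lit 12378745)] (nat_lit 4975805)) p15_26_3 (nat_lit 4) (nat_lit 181) (nat_lit 182) = true := by decide +kernel
def p15_26_3_182 : pfC (piC [(nat_lit 37297016), (nat_lit 24651042), (nat_lit 18388512), (nat_lit 12378745)] (nat_lit 4975805)) p15_26_3 (nat_lit 4) (nat_lit 182) (nat_lit 183) = true := by decide +kernel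
def p15_26_3_183 : pfC (piC [(nat_lit 37297016), (nat_lit 24651042), (nat_lit 18388512), (nat_lit 12378745)] (nat_lit 4975805)) p15_26_3 (nat_lit 4) (nat_lit 183) (nat_lit 184) = true := by decide +kernel
def p15_26_3_184 : pfC (piC [(nat_lit 37297016), (nat_lit 24651042), (nat_lit 18388512), (nat_lit 12378745)] (nat_lit 4975805)) p15_26_3 (nat_lit 4) (nat_lit 184) (nat_lit 185) = true := by decide +kernel
def p15_26_3_185 : pfC (piC [(nat_lit 37297016), (nat_lit 24651042), (nat_lit 18388512), (nat_lit 12378745)] (nat_lit 4975805)) p15_26_3 (nat_lit 4) (nat_lit 185) (nat_lit 186) = true := by decide +kernel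
def p15_26_3_186 : pfC (piC [(nat_lit 37297016), (nat_lit 24651042), (nat_lit 18388512), (nat_lit 12378745)] (nat_lit 4975805)) p15_26_3 (nat_lit 4) (nat_lit 186) (nat_lit 187) = true := by decide +kernel
def p15_26_3_187 : pfC (piC [(nat_lit 37297016), (nat_lit 24651042), (nat_lit 18388512), (nat_lit 12378745)] (nat_lit 4975805)) p15_26_3 (nat_lit 4) (nat_lit 187) (nat_lit 188) = true := by decide +kernel
def p15_26_3_188 : pfC (piC [(nat_lit 37297016), (nat_lit 24651042), (nat_lit 18388512), (nat_lit 12378745)] (nat_lit 4975805)) p15_26_3 (nat_lit 4) (nat_lit 188) (nat_lit 189) = true := by decide +kernel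
def p15_26_3_189 : pfC (piC [(nat_lit 37297016), (nat_lit 24651042), (nat_lit 18388512), (nat_lit 12378745)] (nat_lit 4975805)) p15_26_3 (nat_lit 4) (nat_lit 189) (nat_lit 190) = true := by decide +kernel
def p15_26_3_190 : pfC (piC [(nat_lit 37297016), (nat_lit 24651042), (nat_lit 18388512), (nat_lit 12378745)] (nat_lit 4975805)) p15_26_3 (nat_lit 4) (nat_lit 190) (nat_lit 191) = true := by decide +kernel
def p15_26_3_191 : pfC (piC [(nat_lit 37297016), (nat_lit 24651042), (nat_lit 18388512), (nat_lit 12378745)] (nat_lit 4975805)) p15_26_3 (nat_lit 4) (nat_lit 191) (nat_lit 192) = true := by decide +kernel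
def p15_26_3_192 : pfC (piC [(nat_lit 37297016), (nat_lit 24651042), (nat_lit 18388512), (nat_lit 12378745)] (nat_lit 4975805)) p15_26_3 (nat_lit 4) (nat_lit 192) (nat_lit 193) = true := by decide +kernel
def p15_26_3_193 : pfC (piC [(nat_lit 37297016), (nat_lit 24651042), (nat_lit 18388512), (nat_lit 12378745)] (nat_lit 4975805)) p15_26_3 (nat_lit 4) (nat_lit 193) (nat_lit 194) = true := by decide +kernel
def p15_26_3_194 : pfC (piC [(nat_lit 37297016), (nat_lit 24651042), (nat_lit 18388512), (nat_lit 12378745)] (nat_lit 4975805)) p15_26_3 (nat_lit 4) (nat_lit 194) (nat_lit 195) = true := by decide +kernel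
def p15_26_3_195 : pfC (piC [(nat_lit 37297016), (nat_lit 24651042), (nat_lit 18388512), (nat_lit 12378745)] (nat_lit 4975805)) p15_26_3 (nat_lit 4) (nat_lit 195) (nat_lit 196) = true := by decide +kernel
def p15_26_3_196 : pfC (piC [(nat_lit 37297016), (nat_lit 24651042), (nat_lit 18388512), (nat_lit 12378745)] (nat_lit 4975805)) p15_26_3 (nat_lit 4) (nat_lit 196) (nat_lit 197) = true := by decide +kernel
def p15_26_3_197 : pfC (piC [(nat_lit 37297016), (nat_lit 24651042), (nat_lit 18388512), (nat_lit 12378745)] (nat_lit 4975805)) p15_26_3 (nat_lit 4) (nat_lit 197) (nat_lit 198) = true := by decide +kernel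
def p15_26_3_198 : pfC (piC [(nat_lit 37297016), (nat_lit 24651042), (nat_lit 18388512), (nat_lit 12378745)] (nat_lit 4975805)) p15_26_3 (nat_lit 4) (nat_lit 198) (nat_lit 199) = true := by decide +kernel
def p15_26_3_199 : pfC (piC [(nat_lit 37297016), (nat_lit 24651042), (nat_lit 18388512), (nat_lit 12378745)] (nat_lit 4975805)) p15_26_3 (nat_lit 4) (nat_lit 199) (nat_lit 200) = true := by decide +kernel
def p15_26_3_200 : pfC (piC [(nat_lit 37297016), (nat_lit 24651042), (nat_lit 18388512), (nat_lit 12378745)] (nat_lit 4975805)) p15_26_3 (nat_lit 4) (nat_lit 200) (nat_lit 201) = true := by decide +kernel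
def p15_26_3_201 : pfC (piC [(nat_lit 37297016), (nat_lit 24651042), (nat_lit 18388512), (nat_lit 12378745)] (nat_lit 4975805)) p15_26_3 (nat_lit 4) (nat_lit 201) (nat_lit 202) = true := by decide +kernel
def p15_26_3_202 : pfC (piC [(nat_lit 37297016), (nat_lit 24651042), (nat_lit 18388512), (nat_lit 12378745)] (nat_lit 4975805)) p15_26_3 (nat_lit 4) (nat_lit 202) (nat_lit 203) = true := by decide +kernel
def p15_26_3_203 : pfC (piC [(nat_lit 37297016), (nat_lit 24651042), (nat_lit 18388512), (nat_lit 12378745)] (nat_lit 4975805)) p15_26_3 (nat_lit 4) (nat_lit 203) (nat_lit 204) = true := by decide +kernel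
def p15_26_3_204 : pfC (piC [(nat_lit 37297016), (nat_lit 24651042), (nat_lit 18388512), (nat_lit 12378745)] (nat_lit 4975805)) p15_26_3 (nat_lit 4) (nat_lit 204) (nat_lit 205) = true := by decide +kernel
def p15_26_3_205 : pfC (piC [(nat_lit 37297016), (nat_lit 24651042), (nat_lit 18388512), (nat_lit 12378745)] (nat_lit 4975805)) p15_26_3 (nat_lit 4) (nat_lit 205) (nat_lit 206) = true := by decide +kernel
def p15_26_3_206 : pfC (piC [(nat_lit 37297016), (nat_lit 24651042), (nat_lit 18388512), (nat_lit 12378745)] (nat_lit 4975805)) p15_26_3 (nat_lit 4) (nat_lit 206) (nat_lit 207) = true := by decide +kernel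
def p15_26_3_207 : pfC (piC [(nat_lit 37297016), (nat_lit 24651042), (nat_lit 18388512), (nat_lit 12378745)] (nat_lit 4975805)) p15_26_3 (nat_lit 4) (nat_lit 207) (nat_lit 208) = true := by decide +kernel
def p15_26_3_208 : pfC (piC [(nat_lit 37297016), (nat_lit 24651042), (nat_lit 18388512), (nat_lit 12378745)] (nat_lit 4975805)) p15_26_3 (nat_lit 4) (nat_lit 208) (nat_lit 209) = true := by decide +kernel
def p15_26_3_209 : pfC (piC [(nat_lit 37297016), (nat_lit 24651042), (nat_lit 18388512), (nat_lit 12378745)] (nat_lit 4975805)) p15_26_3 (nat_lit 4) (nat_lit 209) (nat_lit 210) = true := by decide +kernel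
def p15_26_3_210 : pfC (piC [(nat_lit 37297016), (nat_lit 24651042), (nat_lit 18388512), (nat_lit 12378745)] (nat_lit 4975805)) p15_26_3 (nat_lit 4) (nat_lit 210) (nat_lit 211) = true := by decide +kernel
def p15_26_3_211 : pfC (piC [(nat_lit 37297016), (nat_lit 24651042), (nat_lit 18388512), (nat_lit 12378745)] (nat_lit 4975805)) p15_26_3 (nat_lit 4) (nat_lit 211) (nat_lit 212) = true := by decide +kernel
theorem p15_26_3_T : PfS (PiF n15_26.reverse (nat_lit 4975805)) p15_26_3 (nat_lit 4) [] 0 :=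
  pftab_of (los := [(nat_lit 37297016), (nat_lit 24651042), (nat_lit 18388512), (nat_lit 12378745)]) (by decide +kernel) (hi := (nat_lit 212)) (PfP.trans (PfP.trans (PfP.trans (PfP.trans (PfP.trans (PfP.trans (PfP.trans (PfP.trans (PfP.trans (PfP.trans (PfP.trans (PfP.trans (PfP.trans (PfP.trans (PfP.trans (PfP.trans (PfP.trans (PfP.trans (PfP.trans (PfP.trans (PfP.trans (PfP.trans (PfP.trans (PfP.trans (PfP.trans (PfP.trans (PfP.trans (PfP.trans (PfP.trans (PfP.trans (PfP.trans (PfP.trans (PfP.trans (PfP.trans (PfP.trans (PfP.trans (PfP.trans (PfP.trans (PfP.trans (PfP.trans (PfP.trans (PfP.trans (PfP.trans (PfP.trans (PfP.trans (PfP.trans (PfP.trans (PfP.trans (PfP.trans (PfP.trans (PfP.trans (PfP.trans (PfP.trans (PfP.trans (PfP.trans (PfP.trans (PfP.trans (PfP.trans (PfP.trans (PfP.trans (PfP.trans (PfP.trans (PfP.trans (PfP.trans (PfP.trans (PfP.trans (PfP.trans (PfP.trans (PfP.trans (PfP.trans (PfP.trans (PfP.trans (PfP.trans (PfP.trans (PfP.trans (PfP.trans (PfP.trans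 (PfP.trans (PfP.trans (PfP.trans (PfP.trans (PfP.trans (PfP.trans (PfP.trans (PfP.trans (PfP.trans (PfP.trans (PfP.trans (PfP.trans (PfP.trans (PfP.trans (PfP.trans (PfP.trans (PfP.trans (PfP.trans (PfP.trans (PfP.trans (PfP.trans (PfP.trans (PfP.trans (PfP.trans (PfP.trans (PfP.trans (PfP.trans (PfP.trans (PfP.trans (PfP.trans (PfP.trans (PfP.trans
 (PfP.trans (PfP.trans (PfP.trans (PfP.trans (PfP.trans (PfP.trans (PfP.trans (PfP.trans (PfP.trans (PfP.trans (PfP.trans (PfP.trans (PfP.trans (PfP.trans (PfP.trans (PfP.trans (PfP.trans (PfP.trans (PfP.trans (PfP.trans (PfP.trans (PfP.trans (PfP.trans (PfP.trans (PfP.trans (PfP.trans (PfP.trans (PfP.trans (PfP.trans (PfP.trans (PfP.trans (PfP.trans (PfP.trans (PfP.trans (PfP.trans (PfP.trans (PfP.trans (PfP.trans (PfP.trans (PfP.trans (PfP.trans (PfP.trans (PfP.trans (PfP.trans (PfP.trans (PfP.trans (PfP.trans (PfP.trans (PfP.trans (PfP.trans (PfP.trans (PfP.trans (PfP.trans (PfP.trans (PfP.trans (PfP.trans (PfP.trans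 (PfP.trans (PfP.trans (PfP.trans (PfP.trans (PfP.trans (PfP.trans (PfP.trans (PfP.trans (PfP.trans (PfP.trans (PfP.trans (PfP.trans (PfP.trans (PfP.trans (PfP.trans (PfP.trans (PfP.trans (PfP.trans (PfP.trans (PfP.trans (PfP.trans (PfP.trans (PfP.trans (PfP.trans (PfP.trans (PfP.trans (PfP.trans (PfP.trans (PfP.trans (PfP.trans (PfP.trans (PfP.trans (PfP.trans (PfP.trans (PfP.trans (PfP.trans (PfP.trans (PfP.trans (PfP.trans (PfP.trans (PfP.trans (PfP.trans (PfP.trans (PfP.trans (PfP.trans (pfC_sound p15_26_3_0) (pfC_sound p15_26_3_1)) (pfC_sound p15_26_3_2))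
 (pfC_sound p15_26_3_3)) (pfC_sound p15_26_3_4)) (pfC_sound p15_26_3_5)) (pfC_sound p15_26_3_6)) (pfC_sound p15_26_3_7)) (pfC_sound p15_26_3_8)) (pfC_sound p15_26_3_9)) (pfC_sound p15_26_3_10)) (pfC_sound p15_26_3_11)) (pfC_sound p15_26_3_12)) (pfC_sound p15_26_3_13)) (pfC_sound p15_26_3_14)) (pfC_sound p15_26_3_15)) (pfC_sound p15_26_3_16)) (pfC_sound p15_26_3_17)) (pfC_sound p15_26_3_18)) (pfC_sound p15_26_3_19)) (pfC_sound p15_26_3_20)) (pfC_sound p15_26_3_21)) (pfC_sound p15_26_3_22)) (pfC_sound p15_26_3_23)) (pfC_sound p15_26_3_24)) (pfC_sound p15_26_3_25)) (pfC_sound p15_26_3_26)) (pfC_sound p15_26_3_27)) (pfC_sound p15_26_3_28)) (pfC_sound p15_26_3_29)) (pfC_sound p15_26_3_30)) (pfC_sound p15_26_3_31)) (pfC_sound p15_26_3_32)) (pfC_sound p15_26_3_33)) (pfC_sound p15_26_3_34)) (pfC_sound p15_26_3_35)) (pfC_sound p15_26_3_36)) (pfC_sound p15_26_3_37)) (pfC_sound p15_26_3_38)) (pfC_sound p15_26_3_39)) (pfC_sound p15_26_3_40)) (pfC_sound p15_26_3_41)) (pfC_sound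 p15_26_3_42)) (pfC_sound p15_26_3_43)) (pfC_sound p15_26_3_44)) (pfC_sound p15_26_3_45)) (pfC_sound p15_26_3_46)) (pfC_sound p15_26_3_47)) (pfC_sound p15_26_3_48)) (pfC_sound p15_26_3_49)) (pfC_sound p15_26_3_50))
 (pfC_sound p15_26_3_51)) (pfC_sound p15_26_3_52)) (pfC_sound p15_26_3_53)) (pfC_sound p15_26_3_54)) (pfC_sound p15_26_3_55)) (pfC_sound p15_26_3_56)) (pfC_sound p15_26_3_57)) (pfC_sound p15_26_3_58)) (pfC_sound p15_26_3_59)) (pfC_sound p15_26_3_60)) (pfC_sound p15_26_3_61)) (pfC_sound p15_26_3_62)) (pfC_sound p15_26_3_63)) (pfC_sound p15_26_3_64)) (pfC_sound p15_26_3_65)) (pfC_sound p15_26_3_66)) (pfC_sound p15_26_3_67)) (pfC_sound p15_26_3_68)) (pfC_sound p15_26_3_69)) (pfC_sound p15_26_3_70)) (pfC_sound p15_26_3_71)) (pfC_sound p15_26_3_72)) (pfC_sound p15_26_3_73)) (pfC_sound p15_26_3_74)) (pfC_sound p15_26_3_75)) (pfC_sound p15_26_3_76)) (pfC_sound p15_26_3_77)) (pfC_sound p15_26_3_78)) (pfC_sound p15_26_3_79)) (pfC_sound p15_26_3_80)) (pfC_sound p15_26_3_81))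 (pfC_sound p15_26_3_82)) (pfC_sound p15_26_3_83)) (pfC_sound p15_26_3_84)) (pfC_sound p15_26_3_85)) (pfC_sound p15_26_3_86)) (pfC_sound p15_26_3_87)) (pfC_sound p15_26_3_88)) (pfC_sound p15_26_3_89)) (pfC_sound p15_26_3_90)) (pfC_sound p15_26_3_91)) (pfC_sound p15_26_3_92)) (pfC_sound p15_26_3_93)) (pfC_sound p15_26_3_94)) (pfC_sound p15_26_3_95)) (pfC_sound p15_26_3_96)) (pfC_sound p15_26_3_97)) (pfC_sound p15_26_3_98))
 (pfC_sound p15_26_3_99)) (pfC_sound p15_26_3_100)) (pfC_sound p15_26_3_101)) (pfC_sound p15_26_3_102)) (pfC_sound p15_26_3_103)) (pfC_sound p15_26_3_104)) (pfC_sound p15_26_3_105)) (pfC_sound p15_26_3_106)) (pfC_sound p15_26_3_107)) (pfC_sound p15_26_3_108)) (pfC_sound p15_26_3_109)) (pfC_sound p15_26_3_110)) (pfC_sound p15_26_3_111)) (pfC_sound p15_26_3_112)) (pfC_sound p15_26_3_113)) (pfC_sound p15_26_3_114)) (pfC_sound p15_26_3_115)) (pfC_sound p15_26_3_116)) (pfC_sound p15_26_3_117)) (pfC_sound p15_26_3_118)) (pfC_sound p15_26_3_119)) (pfC_sound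 p15_26_3_120)) (pfC_sound p15_26_3_121)) (pfC_sound p15_26_3_122)) (pfC_sound p15_26_3_123)) (pfC_sound p15_26_3_124)) (pfC_sound p15_26_3_125)) (pfC_sound p15_26_3_126)) (pfC_sound p15_26_3_127)) (pfC_sound p15_26_3_128)) (pfC_sound p15_26_3_129)) (pfC_sound p15_26_3_130)) (pfC_sound p15_26_3_131)) (pfC_sound p15_26_3_132)) (pfC_sound p15_26_3_133)) (pfC_sound p15_26_3_134)) (pfC_sound p15_26_3_135)) (pfC_sound p15_26_3_136)) (pfC_sound p15_26_3_137)) (pfC_sound p15_26_3_138)) (pfC_sound p15_26_3_139)) (pfC_sound p15_26_3_140)) (pfC_sound p15_26_3_141)) (pfC_sound p15_26_3_142)) (pfC_sound p15_26_3_143)) (pfC_sound p15_26_3_144))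
 (pfC_sound p15_26_3_145)) (pfC_sound p15_26_3_146)) (pfC_sound p15_26_3_147)) (pfC_sound p15_26_3_148)) (pfC_sound p15_26_3_149)) (pfC_sound p15_26_3_150)) (pfC_sound p15_26_3_151)) (pfC_sound p15_26_3_152)) (pfC_sound p15_26_3_153)) (pfC_sound p15_26_3_154)) (pfC_sound p15_26_3_155)) (pfC_sound p15_26_3_156)) (pfC_sound p15_26_3_157)) (pfC_sound p15_26_3_158)) (pfC_sound p15_26_3_159)) (pfC_sound p15_26_3_160)) (pfC_sound p15_26_3_161)) (pfC_sound p15_26_3_162)) (pfC_sound p15_26_3_163)) (pfC_sound p15_26_3_164)) (pfC_sound p15_26_3_165)) (pfC_sound p15_26_3_166)) (pfC_sound p15_26_3_167)) (pfC_sound p15_26_3_168)) (pfC_sound p15_26_3_169)) (pfC_sound p15_26_3_170)) (pfC_sound p15_26_3_171)) (pfC_sound p15_26_3_172)) (pfC_sound p15_26_3_173)) (pfC_sound p15_26_3_174)) (pfC_sound p15_26_3_175)) (pfC_sound p15_26_3_176)) (pfC_sound p15_26_3_177)) (pfC_sound p15_26_3_178)) (pfC_sound p15_26_3_179)) (pfC_sound p15_26_3_180)) (pfC_sound p15_26_3_181)) (pfC_sound p15_26_3_182))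 (pfC_sound p15_26_3_183)) (pfC_sound p15_26_3_184)) (pfC_sound p15_26_3_185)) (pfC_sound p15_26_3_186)) (pfC_sound p15_26_3_187)) (pfC_sound p15_26_3_188)) (pfC_sound p15_26_3_189)) (pfC_sound p15_26_3_190))
 (pfC_sound p15_26_3_191)) (pfC_sound p15_26_3_192)) (pfC_sound p15_26_3_193)) (pfC_sound p15_26_3_194)) (pfC_sound p15_26_3_195)) (pfC_sound p15_26_3_196)) (pfC_sound p15_26_3_197)) (pfC_sound p15_26_3_198)) (pfC_sound p15_26_3_199)) (pfC_sound p15_26_3_200)) (pfC_sound p15_26_3_201)) (pfC_sound p15_26_3_202)) (pfC_sound p15_26_3_203)) (pfC_sound p15_26_3_204)) (pfC_sound p15_26_3_205)) (pfC_sound p15_26_3_206)) (pfC_sound p15_26_3_207)) (pfC_sound p15_26_3_208)) (pfC_sound p15_26_3_209)) (pfC_sound p15_26_3_210)) (pfC_sound p15_26_3_211)) (by decide +kernel)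

def z15_26_3 : zOK yB15_26 (nat_lit 3) (nat_lit 750) (nat_lit 832) (nat_lit 4975805) (nat_lit 4323227) = true := by decide +kernel
def g15_26_3 : gOK yB15_26.x P15_26 (nat_lit 1412) (q15_26 :: r15_26) (nat_lit 3) (nat_lit 750) (nat_lit 4) (nat_lit 832) (nat_lit 12712500) (nat_lit 12712500) (nat_lit 12712500) (nat_lit 12712500) [(nat_lit 800)] = true := by decide +kernel
def v15_26_3 : ivC P15_26 s15_26 w15_26 n15_26 (nat_lit 4) (nat_lit 4615) (nat_lit 3) (nat_lit 750) f160_1_750 f168_1_750 (nat_lit 4) (nat_lit 832) f160_1_832 f168_1_832 (nat_lit 4975805) (nat_lit 4323227) p15_26_3 = true := by decide +kernel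
end CB
end Pool.Agent.Lib.MP_6947cd_al
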