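import Pool.Agent.Lib.MP_6947cd_al.L.BoxDataB
import Pool.Agent.Lib.MP_6947cd_al.L.TeD5
import Pool.Agent.Lib.MP_6947cd_al.L.TeD6

/-!
Problem MP_6947cd_al (Chollet).  CASE B, rows `j`: boxes (generated).
-/

set_option autoImplicit false
set_option linter.defProp false
set_option maxRecDepth 20000

namespace Pool.Agent.Lib.MP_6947cd_al
namespace CB

open Ent Ent.Pk Fr Fr.WT CA

/-! box `yB15_27` -/

def P15_27 : BQ := ⟨(nat_lit 8), (nat_lit 8), (nat_lit 0), (nat_lit 6), (nat_lit 2), (nat_lit 840), (nat_lit 850), (nat_lit 120), [(nat_lit 200), (nat_lit 300), (nat_lit 450), (nat_lit 800)], (nat_lit 125520000), (nat_lit 16000000), (nat_lit 16000000000)⟩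
def q15_27 : PC := ⟨(nat_lit 1000), [(nat_lit 120000), (nat_lit 200000), (nat_lit 300000), (nat_lit 450000), (nat_lit 800000)], (nat_lit 340282367000166625996085689103316680705000000), (nat_lit 15874480000000), (nat_lit 15874480000000), (nat_lit 10000000)⟩
def r15_27 : List PC := [⟨(nat_lit 1263), [(nat_lit 120529), (nat_lit 200838), (nat_lit 300871), (nat_lit 450775), (nat_lit 799483)], (nat_lit 341987862223571540353722304118055251626379979), (nat_lit 16241114644800), (nat_lit 16245676158880), (nat_lit 10044084)⟩, ⟨(nat_lit 1403), [(nat_lit 120835), (nat_lit 201245), (nat_lit 301535), (nat_lit 451997), (nat_lit 801726)], (nat_lit 342893353602161360590363594632755998350069588), (nat_lit 16421745588800), (nat_lit 16428735285280), (nat_lit 10069584)⟩]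
def s15_27 : List PB := [⟨(nat_lit 25260), (nat_lit 1928464000000), [(nat_lit 200838), (nat_lit 300871), (nat_lit 450775), (nat_lit 799483)], (nat_lit 341987862223571540353722304118055251626379979), (nat_lit 1142141021487424), (nat_lit 1142145583001504), (nat_lit 42080)⟩, ⟨(nat_lit 28060), (nat_lit 1933360000000), [(nat_lit 201245), (nat_lit 301535), (nat_lit 451997), (nat_lit 801726)], (nat_lit 342893353602161360590363594632755998350069588), (nat_lit 1142321652431424), (nat_lit 1142328642127904), (nat_lit 64480)⟩]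
def n15_27 : List KN := [⟨(nat_lit 800), (nat_lit 450), (nat_lit 12310016), (nat_lit 6124894)⟩, ⟨(nat_lit 450), (nat_lit 300), (nat_lit 18263511), (nat_lit 12310016)⟩, ⟨(nat_lit 300), (nat_lit 200), (nat_lit 24534081), (nat_lit 18263511)⟩, ⟨(nat_lit 200), (nat_lit 120), (nat_lit 36888796), (nat_lit 24534081)⟩]
def w15_27 : List ℕ := [(nat_lit 42080), (nat_lit 64480)]
def par15_27 : parC yB15_27 P15_27 s15_27 r15_27 q15_27 n15_27 w15_27 = true := by decide +kernel

def p15_27_0 : PF := (PF.cons (PF.cons (PF.cons (PF.cons (PF.leaf (nat_lit 864525) (nat_lit 2789835) (nat_lit 64318977) (nat_lit 2789835) [(nat_lit 0), (nat_lit 0), (nat_lit 0), (nat_lit 0)]) (PF.cons (PF.leaf (nat_lit 1045907) (nat_lit 297765) (nat_lit 63948680) (nat_lit 2862366) [(nat_lit 297765), (nat_lit 0), (nat_lit 0), (nat_lit 0)]) (PF.cons (PF.leaf (nat_lit 1264614) (nat_lit 329218) (nat_lit 63508942) (nat_lit 2941433) [(nat_lit 329218), (nat_lit 0), (nat_lit 0), (nat_lit 0)]) (PF.cons (PF.leaf (nat_lit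 1514893) (nat_lit 358538) (nat_lit 63009795) (nat_lit 3023402) [(nat_lit 358538), (nat_lit 0), (nat_lit 0), (nat_lit 0)]) (PF.cons (PF.leaf (nat_lit 1793573) (nat_lit 386100) (nat_lit 62458591) (nat_lit 3105821) [(nat_lit 386100), (nat_lit 0), (nat_lit 0), (nat_lit 0)]) (PF.cons (PF.leaf (nat_lit 2097895) (nat_lit 412096) (nat_lit 61861350) (nat_lit 3186979) [(nat_lit 412096), (nat_lit 0), (nat_lit 0), (nat_lit 0)]) (PF.cons (PF.leaf (nat_lit 2425462) (nat_lit 436634) (nat_lit 61223345) (nat_lit 3265659) [(nat_lit 436634), (nat_lit 0), (nat_lit 0), (nat_lit 0)]) (PF.cons (PF.leaf (nat_lit 2774018) (nat_lit 459776) (nat_lit 60549378) (nat_lit 3340996) [(nat_lit 459776), (nat_lit 0), (nat_lit 0),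
 (nat_lit 0)]) (PF.cons (PF.leaf (nat_lit 3141435) (nat_lit 481565) (nat_lit 59843908) (nat_lit 3412382) [(nat_lit 481565), (nat_lit 0), (nat_lit 0), (nat_lit 0)]) (PF.cons (PF.leaf (nat_lit 3525684) (nat_lit 502031) (nat_lit 59111125) (nat_lit 3479400) [(nat_lit 502031), (nat_lit 0), (nat_lit 0), (nat_lit 0)]) (PF.cons (PF.leaf (nat_lit 3924794) (nat_lit 521205) (nat_lit 58354975) (nat_lit 3541780) [(nat_lit 521205), (nat_lit 0), (nat_lit 0), (nat_lit 0)]) (PF.cons PF.nil (PF.cons PF.nil (PF.cons PF.nil PF.nil)))))))))))))) (PF.cons (PF.cons (PF.leaf (nat_lit 1454766) (nat_lit 1283016) (nat_lit 62784149) (nat_lit 3041647) [(nat_lit 0), (nat_lit 1283016), (nat_lit 0), (nat_lit 0)]) (PF.cons (PF.leaf (nat_lit 1700143) (nat_lit 374372) (nat_lit 62283974) (nat_lit 3114668) [(nat_lit 374372), (nat_lit 1335797), (nat_lit 0), (nat_lit 0)]) (PF.cons (PF.leaf (nat_lit 1975817) (nat_lit 401049) (nat_lit 61729387) (nat_lit 3188922) [(nat_lit 401049), (nat_lit 1388403), (nat_lit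 0), (nat_lit 0)]) (PF.cons (PF.leaf (nat_lit 2277607) (nat_lit 426099) (nat_lit 61128194) (nat_lit 3262492) [(nat_lit 426099), (nat_lit 1439828), (nat_lit 0), (nat_lit 0)]) (PF.cons (PF.leaf (nat_lit 2602621) (nat_lit
 449668) (nat_lit 60486628) (nat_lit 3334060) [(nat_lit 449668), (nat_lit 1489449), (nat_lit 0), (nat_lit 0)]) (PF.cons (PF.leaf (nat_lit 2948445) (nat_lit 471843) (nat_lit 59810024) (nat_lit 3402707) [(nat_lit 471843), (nat_lit 1536864), (nat_lit 0), (nat_lit 0)]) (PF.cons (PF.leaf (nat_lit 3312781) (nat_lit 492677) (nat_lit 59103139) (nat_lit 3467789) [(nat_lit 492677), (nat_lit 1581816), (nat_lit 0), (nat_lit 0)]) (PF.cons (PF.leaf (nat_lit 3693549) (nat_lit 512213) (nat_lit 58370311) (nat_lit 3528867) [(nat_lit 512213), (nat_lit 1624141), (nat_lit 0), (nat_lit 0)]) (PF.cons (PF.leaf (nat_lit 4088757) (nat_lit 530483) (nat_lit 57615545) (nat_lit 3585654) [(nat_lit 530483), (nat_lit 1663745), (nat_lit 0), (nat_lit 0)]) (PF.cons PF.nil (PF.cons PF.nil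 (PF.cons PF.nil PF.nil)))))))))))) (PF.cons (PF.cons (PF.leaf (nat_lit 2162831) (nat_lit 1435024) (nat_lit 60972563) (nat_lit 3266201) [(nat_lit 0), (nat_lit 1435024), (nat_lit 0), (nat_lit 0)]) (PF.cons (PF.leaf (nat_lit 2459291) (nat_lit 438646) (nat_lit 60373925) (nat_lit 3332328) [(nat_lit 438646), (nat_lit 1481956), (nat_lit 0), (nat_lit 0)]) (PF.cons (PF.leaf (nat_lit 2780158) (nat_lit 461413) (nat_lit 59733860) (nat_lit
 3397026) [(nat_lit 461413), (nat_lit 1527549), (nat_lit 0), (nat_lit 0)]) (PF.cons (PF.leaf (nat_lit 3121982) (nat_lit 482749) (nat_lit 59058722) (nat_lit 3459266) [(nat_lit 482749), (nat_lit 1571287), (nat_lit 0), (nat_lit 0)]) (PF.cons (PF.leaf (nat_lit 3482307) (nat_lit 502735) (nat_lit 58353835) (nat_lit 3518346) [(nat_lit 502735), (nat_lit 1612844), (nat_lit 0), (nat_lit 0)]) (PF.cons (PF.leaf (nat_lit 3858858) (nat_lit 521428) (nat_lit 57623853) (nat_lit 3573790) [(nat_lit 521428), (nat_lit 1652014), (nat_lit 0), (nat_lit 0)]) (PF.cons (PF.leaf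 (nat_lit 4249602) (nat_lit 538872) (nat_lit 56872942) (nat_lit 3625285) [(nat_lit 538872), (nat_lit 1688675), (nat_lit 0), (nat_lit 0)]) (PF.cons (PF.leaf (nat_lit 4652656) (nat_lit 555107) (nat_lit 56104885) (nat_lit 3672645) [(nat_lit 555107), (nat_lit 1722764), (nat_lit 0), (nat_lit 0)]) (PF.cons PF.nil (PF.cons PF.nil PF.nil)))))))))) (PF.cons (PF.cons (PF.leaf (nat_lit 2959618) (nat_lit 1562988) (nat_lit 58964859) (nat_lit 3454986) [(nat_lit 0), (nat_lit 1562988), (nat_lit 0), (nat_lit 0)]) (PF.cons (PF.leaf (nat_lit 3295571) (nat_lit 492508) (nat_lit 58295759) (nat_lit 3511043) [(nat_lit 492508), (nat_lit 1603167), (nat_lit 0),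
 (nat_lit 0)]) (PF.cons (PF.leaf (nat_lit 3650726) (nat_lit 511759) (nat_lit 57596518) (nat_lit 3564379) [(nat_lit 511759), (nat_lit 1641465), (nat_lit 0), (nat_lit 0)]) (PF.cons (PF.leaf (nat_lit 4022211) (nat_lit 529702) (nat_lit 56872374) (nat_lit 3614461) [(nat_lit 529702), (nat_lit 1677622), (nat_lit 0), (nat_lit 0)]) (PF.cons (PF.leaf (nat_lit 4407841) (nat_lit 546400) (nat_lit 56127818) (nat_lit 3660941) [(nat_lit 546400), (nat_lit 1711483), (nat_lit 0), (nat_lit 0)]) (PF.cons (PF.leaf (nat_lit 4805650) (nat_lit 561903) (nat_lit 55366803) (nat_lit 3703606) [(nat_lit 561903), (nat_lit 1742961), (nat_lit 0), (nat_lit 0)]) (PF.cons (PF.leaf (nat_lit 5213833) (nat_lit 576255) (nat_lit 54592862) (nat_lit 3742347) [(nat_lit 576255), (nat_lit 1772022), (nat_lit 0), (nat_lit 0)]) (PF.cons PF.nil (PF.cons PF.nil PF.nil))))))))) (PF.cons (PF.cons (PF.leaf (nat_lit 3819261) (nat_lit 1667856) (nat_lit 56831193) (nat_lit 3606193) [(nat_lit 0), (nat_lit 1667856), (nat_lit 0),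 (nat_lit 0)]) (PF.cons (PF.leaf (nat_lit 4184328) (nat_lit 537049) (nat_lit 56116128) (nat_lit 3651153) [(nat_lit 537049), (nat_lit 1701120), (nat_lit 0), (nat_lit 0)]) (PF.cons (PF.leaf (nat_lit 4564071) (nat_lit
 553087) (nat_lit 55380544) (nat_lit 3692868) [(nat_lit 553087), (nat_lit 1732306), (nat_lit 0), (nat_lit 0)]) (PF.cons (PF.leaf (nat_lit 4956049) (nat_lit 567931) (nat_lit 54628724) (nat_lit 3731092) [(nat_lit 567931), (nat_lit 1761300), (nat_lit 0), (nat_lit 0)]) (PF.cons (PF.leaf (nat_lit 5358383) (nat_lit 581636) (nat_lit 53864382) (nat_lit 3765688) [(nat_lit 581636), (nat_lit 1788049), (nat_lit 0), (nat_lit 0)]) (PF.cons PF.nil (PF.cons PF.nil PF.nil))))))) (PF.cons (PF.cons (PF.leaf (nat_lit 4719271) (nat_lit 1751271) (nat_lit 54631154) (nat_lit 3721301) [(nat_lit 0), (nat_lit 1751271), (nat_lit 0), (nat_lit 0)]) (PF.cons (PF.leaf (nat_lit 5104446) (nat_lit 573204) (nat_lit 53890812) (nat_lit 3755314) [(nat_lit 573204), (nat_lit 1777896), (nat_lit 0),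 (nat_lit 0)]) (PF.cons (PF.leaf (nat_lit 5500425) (nat_lit 586330) (nat_lit 53137916) (nat_lit 3785996) [(nat_lit 586330), (nat_lit 1802447), (nat_lit 0), (nat_lit 0)]) (PF.cons (PF.leaf (nat_lit 5905139) (nat_lit 598378) (nat_lit 52375918) (nat_lit 3813272) [(nat_lit 598378), (nat_lit 1824897), (nat_lit 0), (nat_lit 0)]) (PF.cons PF.nil PF.nil))))) (PF.cons (PF.cons (PF.leaf (nat_lit 5640793) (nat_lit 1815316) (nat_lit
 52413457) (nat_lit 3803455) [(nat_lit 0), (nat_lit 1815316), (nat_lit 0), (nat_lit 0)]) (PF.cons (PF.leaf (nat_lit 6038514) (nat_lit 601890) (nat_lit 51664640) (nat_lit 3827303) [(nat_lit 601890), (nat_lit 1835829), (nat_lit 0), (nat_lit 0)]) (PF.cons (PF.leaf (nat_lit 6443782) (nat_lit 612416) (nat_lit 50909662) (nat_lit 3847985) [(nat_lit 612416), (nat_lit 1854388), (nat_lit 0), (nat_lit 0)]) (PF.cons PF.nil PF.nil)))) (PF.cons (PF.cons (PF.leaf (nat_lit 6568582) (nat_lit 1862281) (nat_lit 50216294) (nat_lit 3856549) [(nat_lit 0), (nat_lit 1862281),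 (nat_lit 0), (nat_lit 0)]) (PF.cons PF.nil PF.nil)) (PF.cons PF.nil (PF.cons PF.nil (PF.cons PF.nil PF.nil))))))))))) (PF.cons (PF.cons (PF.cons (PF.leaf (nat_lit 2091616) (nat_lit 3271286) (nat_lit 60359785) (nat_lit 3271286) [(nat_lit 0), (nat_lit 0), (nat_lit 3477740), (nat_lit 0)]) (PF.cons (PF.leaf (nat_lit 2355847) (nat_lit 418331) (nat_lit 59823282) (nat_lit 3329960) [(nat_lit 418331), (nat_lit 0), (nat_lit 3537238), (nat_lit 0)]) (PF.cons (PF.leaf (nat_lit 2648582) (nat_lit 443209) (nat_lit 59236226) (nat_lit 3389016) [(nat_lit 443209), (nat_lit 0), (nat_lit 3597152), (nat_lit 0)]) (PF.cons (PF.leaf (nat_lit 2965208) (nat_lit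
 466122) (nat_lit 58607572) (nat_lit 3446944) [(nat_lit 466122), (nat_lit 0), (nat_lit 3655928), (nat_lit 0)]) (PF.cons (PF.leaf (nat_lit 3302645) (nat_lit 487343) (nat_lit 57944195) (nat_lit 3502728) [(nat_lit 487343), (nat_lit 0), (nat_lit 3712515), (nat_lit 0)]) (PF.cons (PF.leaf (nat_lit 3658231) (nat_lit 507041) (nat_lit 57251739) (nat_lit 3555673) [(nat_lit 507041), (nat_lit 0), (nat_lit 3766191), (nat_lit 0)]) (PF.cons (PF.leaf (nat_lit 4029720) (nat_lit 525332) (nat_lit 56535042) (nat_lit 3605309) [(nat_lit 525332), (nat_lit 0), (nat_lit 3816465), (nat_lit 0)]) (PF.cons (PF.leaf (nat_lit 4415021) (nat_lit 542302) (nat_lit 55798360) (nat_lit 3651326) [(nat_lit 542302), (nat_lit 0), (nat_lit 3863010), (nat_lit 0)]) (PF.cons (PF.leaf (nat_lit 4812247) (nat_lit 558018) (nat_lit 55045496) (nat_lit 3693536) [(nat_lit 558018), (nat_lit 0), (nat_lit 3905628), (nat_lit 0)]) (PF.cons PF.nil (PF.cons PF.nil (PF.cons PF.nil PF.nil)))))))))))) (PF.cons (PF.cons (PF.leaf (nat_lit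 2830750) (nat_lit 1544573) (nat_lit 58461703) (nat_lit 3446557) [(nat_lit 0), (nat_lit 1544573), (nat_lit 3655978), (nat_lit 0)]) (PF.cons (PF.leaf (nat_lit 3140010) (nat_lit 475412) (nat_lit 57842708) (nat_lit
 3498340) [(nat_lit 475412), (nat_lit 1583908), (nat_lit 3708443), (nat_lit 0)]) (PF.cons (PF.leaf (nat_lit 3471424) (nat_lit 496035) (nat_lit 57187311) (nat_lit 3548470) [(nat_lit 496035), (nat_lit 1621749), (nat_lit 3759209), (nat_lit 0)]) (PF.cons (PF.leaf (nat_lit 3821476) (nat_lit 515081) (nat_lit 56502228) (nat_lit 3596159) [(nat_lit 515081), (nat_lit 1657715), (nat_lit 3807465), (nat_lit 0)]) (PF.cons (PF.leaf (nat_lit 4187610) (nat_lit 532698) (nat_lit 55792892) (nat_lit 3640885) [(nat_lit 532698), (nat_lit 1691574), (nat_lit 3852667), (nat_lit 0)]) (PF.cons (PF.leaf (nat_lit 4567585) (nat_lit 548990) (nat_lit 55063896) (nat_lit 3682307) [(nat_lit 548990), (nat_lit 1723196), (nat_lit 3894461), (nat_lit 0)]) (PF.cons (PF.leaf (nat_lit 4959431) (nat_lit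 564038) (nat_lit 54319227) (nat_lit 3720215) [(nat_lit 564038), (nat_lit 1752513), (nat_lit 3932627), (nat_lit 0)]) (PF.cons (PF.leaf (nat_lit 5361380) (nat_lit 577908) (nat_lit 53562404) (nat_lit 3754496) [(nat_lit 577908), (nat_lit 1779504), (nat_lit 3967048), (nat_lit 0)]) (PF.cons PF.nil (PF.cons PF.nil PF.nil)))))))))) (PF.cons (PF.cons (PF.leaf (nat_lit 3641983) (nat_lit 1648558) (nat_lit 56419855) (nat_lit 3590159)
 [(nat_lit 0), (nat_lit 1648558), (nat_lit 3801681), (nat_lit 0)]) (PF.cons (PF.leaf (nat_lit 3984744) (nat_lit 522119) (nat_lit 55746090) (nat_lit 3632785) [(nat_lit 522119), (nat_lit 1681551), (nat_lit 3844715), (nat_lit 0)]) (PF.cons (PF.leaf (nat_lit 4344495) (nat_lit 539170) (nat_lit 55047176) (nat_lit 3672820) [(nat_lit 539170), (nat_lit 1712699), (nat_lit 3885074), (nat_lit 0)]) (PF.cons (PF.leaf (nat_lit 4718398) (nat_lit 554873) (nat_lit 54328314) (nat_lit 3709876) [(nat_lit 554873), (nat_lit 1741822), (nat_lit 3922356), (nat_lit 0)]) (PF.cons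 (PF.leaf (nat_lit 5104308) (nat_lit 569327) (nat_lit 53593835) (nat_lit 3743712) [(nat_lit 569327), (nat_lit 1768822), (nat_lit 3956310), (nat_lit 0)]) (PF.cons (PF.leaf (nat_lit 5500341) (nat_lit 582609) (nat_lit 52847449) (nat_lit 3774195) [(nat_lit 582609), (nat_lit 1793660), (nat_lit 3986799), (nat_lit 0)]) (PF.cons PF.nil (PF.cons PF.nil (PF.cons PF.nil PF.nil))))))))) (PF.cons (PF.cons (PF.leaf (nat_lit 4501583) (nat_lit 1732001) (nat_lit 54297544) (nat_lit 3701341) [(nat_lit 0), (nat_lit 1732001), (nat_lit 3913922), (nat_lit 0)]) (PF.cons (PF.leaf (nat_lit 4868173) (nat_lit 559954) (nat_lit 53591531) (nat_lit 3734239)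
 [(nat_lit 559954), (nat_lit 1758725), (nat_lit 3946909), (nat_lit 0)]) (PF.cons (PF.leaf (nat_lit 5247449) (nat_lit 573895) (nat_lit 52869377) (nat_lit 3764217) [(nat_lit 573895), (nat_lit 1783517), (nat_lit 3976875), (nat_lit 0)]) (PF.cons (PF.leaf (nat_lit 5637074) (nat_lit 586658) (nat_lit 52135140) (nat_lit 3791113) [(nat_lit 586658), (nat_lit 1806309), (nat_lit 4003654), (nat_lit 0)]) (PF.cons (PF.leaf (nat_lit 6035271) (nat_lit 598322) (nat_lit 51392253) (nat_lit 3814851) [(nat_lit 598322), (nat_lit 1827083), (nat_lit 4027169), (nat_lit 0)]) (PF.cons PF.nil (PF.cons PF.nil PF.nil))))))) (PF.cons (PF.cons (PF.leaf (nat_lit 5389817) (nat_lit 1796696) (nat_lit 52145610) (nat_lit 3781907) [(nat_lit 0), (nat_lit 1796696), (nat_lit 3994506), (nat_lit 0)]) (PF.cons (PF.leaf (nat_lit 5772154) (nat_lit 590061) (nat_lit 51425382) (nat_lit 3805415) [(nat_lit 590061), (nat_lit 1817542), (nat_lit 4017784), (nat_lit 0)]) (PF.cons (PF.leaf (nat_lit 6163613) (nat_lit 601274)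 (nat_lit 50696133) (nat_lit 3826013) [(nat_lit 601274), (nat_lit 1836516), (nat_lit 4038052), (nat_lit 0)]) (PF.cons (PF.leaf (nat_lit 6562268) (nat_lit 611457) (nat_lit 49961021) (nat_lit 3843670) [(nat_lit 611457),
 (nat_lit 1853617), (nat_lit 4055279), (nat_lit 0)]) (PF.cons PF.nil PF.nil))))) (PF.cons (PF.cons (PF.leaf (nat_lit 6290644) (nat_lit 1844707) (nat_lit 50003816) (nat_lit 3834896) [(nat_lit 0), (nat_lit 1844707), (nat_lit 4046561), (nat_lit 0)]) (PF.cons (PF.leaf (nat_lit 6682112) (nat_lit 613443) (nat_lit 49283426) (nat_lit 3849821) [(nat_lit 613443), (nat_lit 1860231), (nat_lit 4060965), (nat_lit 0)]) (PF.cons PF.nil (PF.cons PF.nil PF.nil)))) (PF.cons (PF.cons (PF.leaf (nat_lit 7191405) (nat_lit 1878179) (nat_lit 47902150) (nat_lit 3863838) [(nat_lit 0), (nat_lit 1878179), (nat_lit 4073747), (nat_lit 0)]) (PF.cons PF.nil PF.nil)) (PF.cons PF.nil (PF.cons PF.nil PF.nil))))))))) (PF.cons (PF.cons (PF.cons (PF.leaf (nat_lit 3488252) (nat_lit 3575472) (nat_lit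 55958408) (nat_lit 3575472) [(nat_lit 0), (nat_lit 0), (nat_lit 3787466), (nat_lit 0)]) (PF.cons (PF.leaf (nat_lit 3805507) (nat_lit 504433) (nat_lit 55334134) (nat_lit 3615269) [(nat_lit 504433), (nat_lit 0), (nat_lit 3827487), (nat_lit 0)]) (PF.cons (PF.leaf (nat_lit 4142944) (nat_lit 523077) (nat_lit 54678018) (nat_lit 3653287) [(nat_lit 523077), (nat_lit 0), (nat_lit 3865676), (nat_lit 0)]) (PF.cons (PF.leaf (nat_lit
 4496971) (nat_lit 540053) (nat_lit 53996867) (nat_lit 3688934) [(nat_lit 540053), (nat_lit 0), (nat_lit 3901425), (nat_lit 0)]) (PF.cons (PF.leaf (nat_lit 4865016) (nat_lit 555562) (nat_lit 53296043) (nat_lit 3721834) [(nat_lit 555562), (nat_lit 0), (nat_lit 3934342), (nat_lit 0)]) (PF.cons (PF.leaf (nat_lit 5244904) (nat_lit 569744) (nat_lit 52579965) (nat_lit 3751751) [(nat_lit 569744), (nat_lit 0), (nat_lit 3964186), (nat_lit 0)]) (PF.cons (PF.leaf (nat_lit 5634738) (nat_lit 582707) (nat_lit 51852371) (nat_lit 3778555) [(nat_lit 582707), (nat_lit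 0), (nat_lit 3990820), (nat_lit 0)]) (PF.cons (PF.leaf (nat_lit 6032860) (nat_lit 594537) (nat_lit 51116488) (nat_lit 3802190) [(nat_lit 594537), (nat_lit 0), (nat_lit 4014185), (nat_lit 0)]) (PF.cons PF.nil (PF.cons PF.nil PF.nil)))))))))) (PF.cons (PF.cons (PF.leaf (nat_lit 4303462) (nat_lit 1711658) (nat_lit 53926024) (nat_lit 3681945) [(nat_lit 0), (nat_lit 1711658), (nat_lit 3894592), (nat_lit 0)]) (PF.cons (PF.leaf (nat_lit 4649222) (nat_lit 544842) (nat_lit 53259809) (nat_lit 3713458) [(nat_lit 544842), (nat_lit 1738534), (nat_lit 3926084), (nat_lit 0)]) (PF.cons (PF.leaf (nat_lit 5010067) (nat_lit 559935) (nat_lit 52572641)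
 (nat_lit 3742538) [(nat_lit 559935), (nat_lit 1763629), (nat_lit 3955066), (nat_lit 0)]) (PF.cons (PF.leaf (nat_lit 5383210) (nat_lit 573667) (nat_lit 51869558) (nat_lit 3768913) [(nat_lit 573667), (nat_lit 1786830), (nat_lit 3981254), (nat_lit 0)]) (PF.cons (PF.leaf (nat_lit 5766589) (nat_lit 586166) (nat_lit 51154661) (nat_lit 3792424) [(nat_lit 586166), (nat_lit 1808085), (nat_lit 4004488), (nat_lit 0)]) (PF.cons (PF.leaf (nat_lit 6158409) (nat_lit 597532) (nat_lit 50431384) (nat_lit 3812998) [(nat_lit 597532), (nat_lit 1827386), (nat_lit 4024690), (nat_lit 0)]) (PF.cons PF.nil (PF.cons PF.nil (PF.cons PF.nil PF.nil))))))))) (PF.cons (PF.cons (PF.leaf (nat_lit 5155470) (nat_lit 1777180) (nat_lit 51848183) (nat_lit 3760470) [(nat_lit 0), (nat_lit 1777180), (nat_lit 3972898), (nat_lit 0)]) (PF.cons (PF.leaf (nat_lit 5520738) (nat_lit 576890) (nat_lit 51160382) (nat_lit 3783485) [(nat_lit 576890), (nat_lit 1798402), (nat_lit 3995624), (nat_lit 0)]) (PF.cons (PF.leaf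 (nat_lit 5897027) (nat_lit 589004) (nat_lit 50459931) (nat_lit 3803888) [(nat_lit 589004), (nat_lit 1817840), (nat_lit 4015651), (nat_lit 0)]) (PF.cons (PF.leaf (nat_lit 6282127) (nat_lit 599971) (nat_lit 49750626)
 (nat_lit 3821581) [(nat_lit 599971), (nat_lit 1835465), (nat_lit 4032880), (nat_lit 0)]) (PF.cons (PF.leaf (nat_lit 6674344) (nat_lit 609885) (nat_lit 49035612) (nat_lit 3836534) [(nat_lit 609885), (nat_lit 1851282), (nat_lit 4047279), (nat_lit 0)]) (PF.cons PF.nil (PF.cons PF.nil PF.nil))))))) (PF.cons (PF.cons (PF.leaf (nat_lit 6027003) (nat_lit 1826359) (nat_lit 49767749) (nat_lit 3813083) [(nat_lit 0), (nat_lit 1826359), (nat_lit 4024451), (nat_lit 0)]) (PF.cons (PF.leaf (nat_lit 6404540) (nat_lit 601854) (nat_lit 49073941) (nat_lit 3828067) [(nat_lit 601854), (nat_lit 1842391), (nat_lit 4038886), (nat_lit 0)]) (PF.cons (PF.leaf (nat_lit 6789846) (nat_lit 611427) (nat_lit 48373808) (nat_lit 3840516) [(nat_lit 611427), (nat_lit 1856742), (nat_lit 4050703),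 (nat_lit 0)]) (PF.cons PF.nil (PF.cons PF.nil PF.nil))))) (PF.cons (PF.cons (PF.leaf (nat_lit 6904419) (nat_lit 1861195) (nat_lit 47716892) (nat_lit 3842675) [(nat_lit 0), (nat_lit 1861195), (nat_lit 4052231), (nat_lit 0)]) (PF.cons (PF.leaf (nat_lit 7288451) (nat_lit 620777) (nat_lit 47028784) (nat_lit 3850428) [(nat_lit 620777), (nat_lit 1872603), (nat_lit 4059204), (nat_lit 0)]) (PF.cons PF.nil (PF.cons PF.nil PF.nil))))
 (PF.cons (PF.cons (PF.leaf (nat_lit 7777179) (nat_lit 1883673) (nat_lit 45718969) (nat_lit 3852421) [(nat_lit 0), (nat_lit 1883673), (nat_lit 4059526), (nat_lit 0)]) (PF.cons PF.nil PF.nil)) (PF.cons PF.nil (PF.cons PF.nil PF.nil)))))))) (PF.cons (PF.cons (PF.cons (PF.leaf (nat_lit 4940372) (nat_lit 3739196) (nat_lit 51515051) (nat_lit 3739196) [(nat_lit 0), (nat_lit 0), (nat_lit 3951521), (nat_lit 0)]) (PF.cons (PF.leaf (nat_lit 5286238) (nat_lit 561857) (nat_lit 50864949) (nat_lit 3761527) [(nat_lit 561857), (nat_lit 0), (nat_lit 3973492), (nat_lit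 0)]) (PF.cons (PF.leaf (nat_lit 5645588) (nat_lit 575215) (nat_lit 50197369) (nat_lit 3781602) [(nat_lit 575215), (nat_lit 0), (nat_lit 3993136), (nat_lit 0)]) (PF.cons (PF.leaf (nat_lit 6015680) (nat_lit 587221) (nat_lit 49517114) (nat_lit 3799238) [(nat_lit 587221), (nat_lit 0), (nat_lit 4010265), (nat_lit 0)]) (PF.cons (PF.leaf (nat_lit 6394537) (nat_lit 598025) (nat_lit 48828018) (nat_lit 3814341) [(nat_lit 598025), (nat_lit 0), (nat_lit 4024783), (nat_lit 0)]) (PF.cons (PF.leaf (nat_lit 6780484) (nat_lit 607743) (nat_lit 48133234) (nat_lit 3826880) [(nat_lit 607743), (nat_lit 0), (nat_lit 4036660), (nat_lit 0)]) (PF.cons PF.nil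
 PF.nil))))))) (PF.cons (PF.cons (PF.leaf (nat_lit 5779499) (nat_lit 1807049) (nat_lit 49503981) (nat_lit 3791113) [(nat_lit 0), (nat_lit 1807049), (nat_lit 4002222), (nat_lit 0)]) (PF.cons (PF.leaf (nat_lit 6141387) (nat_lit 588927) (nat_lit 48840430) (nat_lit 3806055) [(nat_lit 588927), (nat_lit 1823652), (nat_lit 4016582), (nat_lit 0)]) (PF.cons (PF.leaf (nat_lit 6512932) (nat_lit 599455) (nat_lit 48166982) (nat_lit 3818672) [(nat_lit 599455), (nat_lit 1838619), (nat_lit 4028542), (nat_lit 0)]) (PF.cons (PF.leaf (nat_lit 6891995) (nat_lit 608876) (nat_lit 47487156) (nat_lit 3828915) [(nat_lit 608876), (nat_lit 1851947), (nat_lit 4038054), (nat_lit 0)]) (PF.cons PF.nil PF.nil))))) (PF.cons (PF.cons (PF.leaf (nat_lit 6631161) (nat_lit 1843393) (nat_lit 47509653) (nat_lit 3821175) [(nat_lit 0), (nat_lit 1843393), (nat_lit 4030398), (nat_lit 0)]) (PF.cons (PF.leaf (nat_lit 7002576) (nat_lit 609528) (nat_lit 46846050) (nat_lit 3829270) [(nat_lit 609528), (nat_lit 1855429),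 (nat_lit 4037701), (nat_lit 0)]) (PF.cons (PF.leaf (nat_lit 7380649) (nat_lit 617699) (nat_lit 46178150) (nat_lit 3835159) [(nat_lit 617699), (nat_lit 1865956), (nat_lit 4042730), (nat_lit 0)]) (PF.cons PF.nil
 PF.nil)))) (PF.cons (PF.cons (PF.leaf (nat_lit 7483718) (nat_lit 1867433) (nat_lit 45557950) (nat_lit 3832079) [(nat_lit 0), (nat_lit 1867433), (nat_lit 4038828), (nat_lit 0)]) (PF.cons (PF.leaf (nat_lit 7859588) (nat_lit 624713) (nat_lit 44904037) (nat_lit 3834092) [(nat_lit 624713), (nat_lit 1875454), (nat_lit 4039868), (nat_lit 0)]) PF.nil)) (PF.cons PF.nil (PF.cons PF.nil PF.nil)))))) (PF.cons (PF.cons (PF.cons (PF.leaf (nat_lit 6373473) (nat_lit 3799313) (nat_lit 47276586) (nat_lit 3799313) [(nat_lit 0), (nat_lit 0), (nat_lit 4008228), (nat_lit 0)]) (PF.cons (PF.leaf (nat_lit 6730520) (nat_lit 596955) (nat_lit 46640980) (nat_lit 3807689) [(nat_lit 596955), (nat_lit 0), (nat_lit 4015796), (nat_lit 0)]) (PF.cons (PF.leaf (nat_lit 7096093) (nat_lit 606112) (nat_lit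 45997627) (nat_lit 3814002) [(nat_lit 606112), (nat_lit 0), (nat_lit 4021239), (nat_lit 0)]) (PF.cons (PF.leaf (nat_lit 7468143) (nat_lit 614205) (nat_lit 45349776) (nat_lit 3818240) [(nat_lit 614205), (nat_lit 0), (nat_lit 4024545), (nat_lit 0)]) (PF.cons PF.nil PF.nil))))) (PF.cons (PF.cons (PF.leaf (nat_lit 7203377) (nat_lit 1850349) (nat_lit 45376518) (nat_lit 3811266) [(nat_lit 0), (nat_lit 1850349), (nat_lit
 4017669), (nat_lit 0)]) (PF.cons (PF.leaf (nat_lit 7567795) (nat_lit 613866) (nat_lit 44745069) (nat_lit 3813816) [(nat_lit 613866), (nat_lit 1859075), (nat_lit 4019246), (nat_lit 0)]) (PF.cons (PF.leaf (nat_lit 7937977) (nat_lit 620839) (nat_lit 44110830) (nat_lit 3814451) [(nat_lit 620839), (nat_lit 1866449), (nat_lit 4018850), (nat_lit 0)]) (PF.cons PF.nil PF.nil)))) (PF.cons (PF.cons (PF.leaf (nat_lit 8030531) (nat_lit 1865568) (nat_lit 43527329) (nat_lit 3807316) [(nat_lit 0), (nat_lit 1865568), (nat_lit 4010757), (nat_lit 0)]) (PF.cons PF.nil PF.nil))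 (PF.cons PF.nil (PF.cons PF.nil PF.nil))))) (PF.cons (PF.cons (PF.cons (PF.leaf (nat_lit 7745207) (nat_lit 3787421) (nat_lit 43368789) (nat_lit 3787421) [(nat_lit 0), (nat_lit 0), (nat_lit 3990520), (nat_lit 0)]) (PF.cons (PF.leaf (nat_lit 8102096) (nat_lit 615510) (nat_lit 42770138) (nat_lit 3785534) [(nat_lit 615510), (nat_lit 0), (nat_lit 3987525), (nat_lit 0)]) (PF.cons PF.nil (PF.cons PF.nil PF.nil)))) (PF.cons (PF.cons (PF.leaf (nat_lit 8547012) (nat_lit 1857335) (nat_lit 41622109) (nat_lit 3771740) [(nat_lit 0), (nat_lit 1857335), (nat_lit 3971525), (nat_lit 0)]) (PF.cons PF.nil PF.nil)) (PF.cons PF.nil PF.nil)))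
 (PF.cons (PF.cons (PF.cons (PF.leaf (nat_lit 9035382) (nat_lit 3728018) (nat_lit 39837307) (nat_lit 3728018) [(nat_lit 0), (nat_lit 0), (nat_lit 3923914), (nat_lit 0)]) (PF.cons PF.nil PF.nil)) (PF.cons PF.nil PF.nil)) (PF.cons PF.nil (PF.cons PF.nil PF.nil))))))))) (PF.cons (PF.cons (PF.cons (PF.cons (PF.leaf (nat_lit 3165797) (nat_lit 3456624) (nat_lit 54302269) (nat_lit 3456624) [(nat_lit 0), (nat_lit 0), (nat_lit 0), (nat_lit 9349919)]) (PF.cons (PF.leaf (nat_lit 3434221) (nat_lit 452631) (nat_lit 53792697) (nat_lit 3495634) [(nat_lit 452631), (nat_lit 0), (nat_lit 0), (nat_lit 9367849)]) (PF.cons (PF.leaf (nat_lit 3728466) (nat_lit 475399) (nat_lit 53240383) (nat_lit 3534085) [(nat_lit 475399), (nat_lit 0), (nat_lit 0), (nat_lit 9383543)]) (PF.cons (PF.leaf (nat_lit 4043648) (nat_lit 495766) (nat_lit 52654399) (nat_lit 3570990) [(nat_lit 495766), (nat_lit 0), (nat_lit 0), (nat_lit 9396123)]) (PF.cons (PF.leaf (nat_lit 4376472) (nat_lit 514145) (nat_lit 52041524)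 (nat_lit 3605723) [(nat_lit 514145), (nat_lit 0), (nat_lit 0), (nat_lit 9404982)]) (PF.cons (PF.leaf (nat_lit 4724290) (nat_lit 530814) (nat_lit 51407144) (nat_lit 3637886) [(nat_lit 530814), (nat_lit 0), (nat_lit 0),
 (nat_lit 9409708)]) (PF.cons (PF.leaf (nat_lit 5084871) (nat_lit 545971) (nat_lit 50755706) (nat_lit 3667236) [(nat_lit 545971), (nat_lit 0), (nat_lit 0), (nat_lit 9410041)]) (PF.cons (PF.leaf (nat_lit 5456274) (nat_lit 559766) (nat_lit 50090979) (nat_lit 3693634) [(nat_lit 559766), (nat_lit 0), (nat_lit 0), (nat_lit 9405836)]) (PF.cons (PF.leaf (nat_lit 5836778) (nat_lit 572316) (nat_lit 49416211) (nat_lit 3717021) [(nat_lit 572316), (nat_lit 0), (nat_lit 0), (nat_lit 9397044)]) (PF.cons (PF.leaf (nat_lit 6224905) (nat_lit 583722) (nat_lit 48734234) (nat_lit 3737393) [(nat_lit 583722), (nat_lit 0), (nat_lit 0), (nat_lit 9383686)]) (PF.cons (PF.leaf (nat_lit 6619249) (nat_lit 594065) (nat_lit 48047530) (nat_lit 3754786) [(nat_lit 594065), (nat_lit 0),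 (nat_lit 0), (nat_lit 9365844)]) (PF.cons PF.nil PF.nil)))))))))))) (PF.cons (PF.cons (PF.leaf (nat_lit 3891885) (nat_lit 1624107) (nat_lit 52527905) (nat_lit 3566271) [(nat_lit 0), (nat_lit 1624107), (nat_lit 0), (nat_lit 9390528)]) (PF.cons (PF.leaf (nat_lit 4197958) (nat_lit 501234) (nat_lit 51956534) (nat_lit 3598741) [(nat_lit 501234), (nat_lit 1654094), (nat_lit 0), (nat_lit 9398208)]) (PF.cons (PF.leaf (nat_lit 4523286)
 (nat_lit 519198) (nat_lit 51356279) (nat_lit 3629441) [(nat_lit 519198), (nat_lit 1682339), (nat_lit 0), (nat_lit 9402356)]) (PF.cons (PF.leaf (nat_lit 4864343) (nat_lit 535400) (nat_lit 50733495) (nat_lit 3657902) [(nat_lit 535400), (nat_lit 1708642), (nat_lit 0), (nat_lit 9402572)]) (PF.cons (PF.leaf (nat_lit 5218602) (nat_lit 550071) (nat_lit 50093170) (nat_lit 3683832) [(nat_lit 550071), (nat_lit 1732918), (nat_lit 0), (nat_lit 9398606)]) (PF.cons (PF.leaf (nat_lit 5583955) (nat_lit 563378) (nat_lit 49439380) (nat_lit 3707066) [(nat_lit 563378),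 (nat_lit 1755145), (nat_lit 0), (nat_lit 9390329)]) (PF.cons (PF.leaf (nat_lit 5958604) (nat_lit 575450) (nat_lit 48775550) (nat_lit 3727520) [(nat_lit 575450), (nat_lit 1775339), (nat_lit 0), (nat_lit 9377699)]) (PF.cons (PF.leaf (nat_lit 6340952) (nat_lit 586392) (nat_lit 48104605) (nat_lit 3745173) [(nat_lit 586392), (nat_lit 1793542), (nat_lit 0), (nat_lit 9360746)]) (PF.cons (PF.leaf (nat_lit 6729584) (nat_lit 596289) (nat_lit 47429076) (nat_lit 3760049) [(nat_lit 596289), (nat_lit 1809814), (nat_lit 0), (nat_lit 9339553)]) (PF.cons PF.nil PF.nil)))))))))) (PF.cons (PF.cons (PF.leaf (nat_lit 4671921) (nat_lit 1698532) (nat_lit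
 50666376) (nat_lit 3650331) [(nat_lit 0), (nat_lit 1698532), (nat_lit 0), (nat_lit 9395039)]) (PF.cons (PF.leaf (nat_lit 5004692) (nat_lit 539159) (nat_lit 50058165) (nat_lit 3675268) [(nat_lit 539159), (nat_lit 1722562), (nat_lit 0), (nat_lit 9391094)]) (PF.cons (PF.leaf (nat_lit 5351796) (nat_lit 553456) (nat_lit 49431165) (nat_lit 3697965) [(nat_lit 553456), (nat_lit 1744799), (nat_lit 0), (nat_lit 9383169)]) (PF.cons (PF.leaf (nat_lit 5710509) (nat_lit 566362) (nat_lit 48790009) (nat_lit 3718217) [(nat_lit 566362), (nat_lit 1765176), (nat_lit 0), (nat_lit 9371145)]) (PF.cons (PF.leaf (nat_lit 6078843) (nat_lit 578026) (nat_lit 48138443) (nat_lit 3735915) [(nat_lit 578026), (nat_lit 1783679), (nat_lit 0), (nat_lit 9354989)]) (PF.cons (PF.leaf (nat_lit 6455098) (nat_lit 588562) (nat_lit 47479582) (nat_lit 3751018) [(nat_lit 588562), (nat_lit 1800331), (nat_lit 0), (nat_lit 9334737)]) (PF.cons (PF.leaf (nat_lit 6837812) (nat_lit 598064) (nat_lit 46816064) (nat_lit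 3763535) [(nat_lit 598064), (nat_lit 1815175), (nat_lit 0), (nat_lit 9310474)]) (PF.cons (PF.leaf (nat_lit 7225681) (nat_lit 606613) (nat_lit 46150147) (nat_lit 3773507) [(nat_lit 606613), (nat_lit 1828268), (nat_lit
 0), (nat_lit 9282328)]) (PF.cons PF.nil PF.nil))))))))) (PF.cons (PF.cons (PF.leaf (nat_lit 5485613) (nat_lit 1755377) (nat_lit 48769025) (nat_lit 3709783) [(nat_lit 0), (nat_lit 1755377), (nat_lit 0), (nat_lit 9363869)]) (PF.cons (PF.leaf (nat_lit 5836605) (nat_lit 568712) (nat_lit 48142461) (nat_lit 3727222) [(nat_lit 568712), (nat_lit 1773993), (nat_lit 0), (nat_lit 9348436)]) (PF.cons (PF.leaf (nat_lit 6198057) (nat_lit 580045) (nat_lit 47504636) (nat_lit 3742328) [(nat_lit 580045), (nat_lit 1790895), (nat_lit 0), (nat_lit 9329070)]) (PF.cons (PF.leaf (nat_lit 6567830) (nat_lit 590238) (nat_lit 46858994) (nat_lit 3755040) [(nat_lit 590238), (nat_lit 1806082), (nat_lit 0), (nat_lit 9305815)]) (PF.cons (PF.leaf (nat_lit 6944328) (nat_lit 599398) (nat_lit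 46208368) (nat_lit 3765349) [(nat_lit 599398), (nat_lit 1819580), (nat_lit 0), (nat_lit 9278761)]) (PF.cons (PF.leaf (nat_lit 7326183) (nat_lit 607610) (nat_lit 45555137) (nat_lit 3773284) [(nat_lit 607610), (nat_lit 1831435), (nat_lit 0), (nat_lit 9248034)]) (PF.cons PF.nil PF.nil))))))) (PF.cons (PF.cons (PF.leaf (nat_lit 6317168) (nat_lit 1797057) (nat_lit 46873640) (nat_lit 3746873) [(nat_lit 0), (nat_lit 1797057), (nat_lit
 0), (nat_lit 9300070)]) (PF.cons (PF.leaf (nat_lit 6679664) (nat_lit 591418) (nat_lit 46242506) (nat_lit 3757343) [(nat_lit 591418), (nat_lit 1810857), (nat_lit 0), (nat_lit 9274114)]) (PF.cons (PF.leaf (nat_lit 7049569) (nat_lit 600292) (nat_lit 45605748) (nat_lit 3765587) [(nat_lit 600292), (nat_lit 1823086), (nat_lit 0), (nat_lit 9244546)]) (PF.cons (PF.leaf (nat_lit 7425141) (nat_lit 608215) (nat_lit 44965945) (nat_lit 3771619) [(nat_lit 608215), (nat_lit 1833775), (nat_lit 0), (nat_lit 9211497)]) (PF.cons (PF.leaf (nat_lit 7805113) (nat_lit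 615269) (nat_lit 44325237) (nat_lit 3775485) [(nat_lit 615269), (nat_lit 1842973), (nat_lit 0), (nat_lit 9175120)]) PF.nil))))) (PF.cons (PF.cons (PF.leaf (nat_lit 7154284) (nat_lit 1825744) (nat_lit 45007812) (nat_lit 3764336) [(nat_lit 0), (nat_lit 1825744), (nat_lit 0), (nat_lit 9207943)]) (PF.cons (PF.leaf (nat_lit 7522992) (nat_lit 608431) (nat_lit 44382274) (nat_lit 3768595) [(nat_lit 608431), (nat_lit 1835336), (nat_lit 0), (nat_lit 9172829)]) (PF.cons (PF.leaf (nat_lit 7896679) (nat_lit 615243) (nat_lit 43755303) (nat_lit 3770831) [(nat_lit 615243), (nat_lit 1843527), (nat_lit 0), (nat_lit 9134555)]) (PF.cons PF.nil PF.nil))))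
 (PF.cons (PF.cons (PF.leaf (nat_lit 7987523) (nat_lit 1843405) (nat_lit 43191180) (nat_lit 3765007) [(nat_lit 0), (nat_lit 1843405), (nat_lit 0), (nat_lit 9092190)]) (PF.cons (PF.leaf (nat_lit 8358307) (nat_lit 620684) (nat_lit 42578569) (nat_lit 3763887) [(nat_lit 620684), (nat_lit 1849375), (nat_lit 0), (nat_lit 9049417)]) PF.nil)) (PF.cons PF.nil (PF.cons PF.nil PF.nil))))))))) (PF.cons (PF.cons (PF.cons (PF.leaf (nat_lit 4493149) (nat_lit 3628224) (nat_lit 50279669) (nat_lit 3628224) [(nat_lit 0), (nat_lit 0), (nat_lit 3838205), (nat_lit 9362713)]) (PF.cons (PF.leaf (nat_lit 4802669) (nat_lit 520392) (nat_lit 49716494) (nat_lit 3652186) [(nat_lit 520392), (nat_lit 0), (nat_lit 3861684), (nat_lit 9358054)]) (PF.cons (PF.leaf (nat_lit 5129843) (nat_lit 536618) (nat_lit 49127996) (nat_lit 3674390) [(nat_lit 536618), (nat_lit 0), (nat_lit 3883365), (nat_lit 9349824)]) (PF.cons (PF.leaf (nat_lit 5471146) (nat_lit 551072) (nat_lit 48520372) (nat_lit 3694493) [(nat_lit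 551072), (nat_lit 0), (nat_lit 3902899), (nat_lit 9337831)]) (PF.cons (PF.leaf (nat_lit 5824092) (nat_lit 564014) (nat_lit 47898390) (nat_lit 3712297) [(nat_lit 564014), (nat_lit 0), (nat_lit 3920081), (nat_lit
 9321985)]) (PF.cons (PF.leaf (nat_lit 6186678) (nat_lit 575632) (nat_lit 47265876) (nat_lit 3727696) [(nat_lit 575632), (nat_lit 0), (nat_lit 3934804), (nat_lit 9302272)]) (PF.cons (PF.leaf (nat_lit 6557168) (nat_lit 586068) (nat_lit 46625983) (nat_lit 3740653) [(nat_lit 586068), (nat_lit 0), (nat_lit 3947025), (nat_lit 9278737)]) (PF.cons (PF.leaf (nat_lit 6934087) (nat_lit 595436) (nat_lit 45981363) (nat_lit 3751174) [(nat_lit 595436), (nat_lit 0), (nat_lit 3956751), (nat_lit 9251471)]) (PF.cons (PF.leaf (nat_lit 7316140) (nat_lit 603827) (nat_lit 45334271) (nat_lit 3759300) [(nat_lit 603827), (nat_lit 0), (nat_lit 3964021), (nat_lit 9220598)]) (PF.cons PF.nil PF.nil)))))))))) (PF.cons (PF.cons (PF.leaf (nat_lit 5268839) (nat_lit 1733338) (nat_lit 48463780)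 (nat_lit 3686694) [(nat_lit 0), (nat_lit 1733338), (nat_lit 3895219), (nat_lit 9329780)]) (PF.cons (PF.leaf (nat_lit 5601380) (nat_lit 553206) (nat_lit 47872411) (nat_lit 3703959) [(nat_lit 553206), (nat_lit 1752742), (nat_lit 3911859), (nat_lit 9314633)]) (PF.cons (PF.leaf (nat_lit 5946797) (nat_lit 565902) (nat_lit 47265204) (nat_lit 3719162) [(nat_lit 565902), (nat_lit 1770469), (nat_lit 3926384), (nat_lit 9295785)])
 (PF.cons (PF.leaf (nat_lit 6302453) (nat_lit 577235) (nat_lit 46646549) (nat_lit 3732168) [(nat_lit 577235), (nat_lit 1786490), (nat_lit 3938656), (nat_lit 9273239)]) (PF.cons (PF.leaf (nat_lit 6666444) (nat_lit 587369) (nat_lit 46019934) (nat_lit 3742916) [(nat_lit 587369), (nat_lit 1800817), (nat_lit 3948615), (nat_lit 9247050)]) (PF.cons (PF.leaf (nat_lit 7037171) (nat_lit 596429) (nat_lit 45388210) (nat_lit 3751399) [(nat_lit 596429), (nat_lit 1813487), (nat_lit 3956250), (nat_lit 9217314)]) (PF.cons (PF.leaf (nat_lit 7413267) (nat_lit 604517) (nat_lit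 44753758) (nat_lit 3757645) [(nat_lit 604517), (nat_lit 1824553), (nat_lit 3961592), (nat_lit 9184159)]) (PF.cons PF.nil (PF.cons PF.nil PF.nil))))))))) (PF.cons (PF.cons (PF.leaf (nat_lit 6070351) (nat_lit 1777102) (nat_lit 46633274) (nat_lit 3724148) [(nat_lit 0), (nat_lit 1777102), (nat_lit 3930735), (nat_lit 9266448)]) (PF.cons (PF.leaf (nat_lit 6418062) (nat_lit 578283) (nat_lit 46030153) (nat_lit 3734906) [(nat_lit 578283), (nat_lit 1791688), (nat_lit 3940710), (nat_lit 9241382)]) (PF.cons (PF.leaf (nat_lit 6775023) (nat_lit 588188) (nat_lit 45418047) (nat_lit 3743587) [(nat_lit 588188), (nat_lit 1804711), (nat_lit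
 3948553), (nat_lit 9212824)]) (PF.cons (PF.leaf (nat_lit 7139182) (nat_lit 596999) (nat_lit 44800145) (nat_lit 3750166) [(nat_lit 596999), (nat_lit 1816191), (nat_lit 3954239), (nat_lit 9180880)]) (PF.cons (PF.leaf (nat_lit 7509045) (nat_lit 604830) (nat_lit 44179032) (nat_lit 3754659) [(nat_lit 604830), (nat_lit 1826164), (nat_lit 3957784), (nat_lit 9145684)]) (PF.cons (PF.leaf (nat_lit 7883344) (nat_lit 611774) (nat_lit 43556842) (nat_lit 3757108) [(nat_lit 611774), (nat_lit 1834685), (nat_lit 3959233), (nat_lit 9107386)]) (PF.cons PF.nil PF.nil))))))) (PF.cons (PF.cons (PF.leaf (nat_lit 6883786) (nat_lit 1807745) (nat_lit 44819749) (nat_lit 3742750) [(nat_lit 0), (nat_lit 1807745), (nat_lit 3946927), (nat_lit 9176147)]) (PF.cons (PF.leaf (nat_lit 7240623) (nat_lit 597137) (nat_lit 44216752) (nat_lit 3747554) [(nat_lit 597137), (nat_lit 1818101), (nat_lit 3950798), (nat_lit 9142265)]) (PF.cons (PF.leaf (nat_lit 7603901) (nat_lit 604766) (nat_lit 43609775) (nat_lit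 3750415) [(nat_lit 604766), (nat_lit 1827048), (nat_lit 3952674), (nat_lit 9105270)]) (PF.cons (PF.leaf (nat_lit 7971979) (nat_lit 611498) (nat_lit 43001161) (nat_lit 3751365) [(nat_lit 611498), (nat_lit 1834627),
 (nat_lit 3952587), (nat_lit 9065320)]) (PF.cons PF.nil PF.nil))))) (PF.cons (PF.cons (PF.leaf (nat_lit 7698556) (nat_lit 1827242) (nat_lit 43045538) (nat_lit 3744979) [(nat_lit 0), (nat_lit 1827242), (nat_lit 3946327), (nat_lit 9062995)]) (PF.cons (PF.leaf (nat_lit 8059846) (nat_lit 610885) (nat_lit 42451190) (nat_lit 3744539) [(nat_lit 610885), (nat_lit 1833939), (nat_lit 3944821), (nat_lit 9021618)]) (PF.cons (PF.leaf (nat_lit 8425373) (nat_lit 616632) (nat_lit 41856506) (nat_lit 3742357) [(nat_lit 616632), (nat_lit 1839394), (nat_lit 3941526), (nat_lit 8977581)]) (PF.cons PF.nil PF.nil)))) (PF.cons (PF.cons (PF.leaf (nat_lit 8506677) (nat_lit 1837351) (nat_lit 41326018) (nat_lit 3733330) [(nat_lit 0), (nat_lit 1837351), (nat_lit 3931496), (nat_lit 8931207)])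 (PF.cons PF.nil PF.nil)) (PF.cons PF.nil (PF.cons PF.nil PF.nil)))))))) (PF.cons (PF.cons (PF.cons (PF.leaf (nat_lit 5842039) (nat_lit 3701019) (nat_lit 46361640) (nat_lit 3701019) [(nat_lit 0), (nat_lit 0), (nat_lit 3907380), (nat_lit 9231392)]) (PF.cons (PF.leaf (nat_lit 6172582) (nat_lit 563228) (nat_lit 45791226) (nat_lit 3711978) [(nat_lit 563228), (nat_lit 0), (nat_lit 3917527), (nat_lit 9207324)]) (PF.cons (PF.leaf
 (nat_lit 6514786) (nat_lit 574519) (nat_lit 45207397) (nat_lit 3721046) [(nat_lit 574519), (nat_lit 0), (nat_lit 3925736), (nat_lit 9179856)]) (PF.cons (PF.leaf (nat_lit 6866069) (nat_lit 584484) (nat_lit 44614281) (nat_lit 3728145) [(nat_lit 584484), (nat_lit 0), (nat_lit 3931925), (nat_lit 9149082)]) (PF.cons (PF.leaf (nat_lit 7224614) (nat_lit 593296) (nat_lit 44015108) (nat_lit 3733250) [(nat_lit 593296), (nat_lit 0), (nat_lit 3936074), (nat_lit 9115118)]) (PF.cons (PF.leaf (nat_lit 7588914) (nat_lit 601089) (nat_lit 43412486) (nat_lit 3736380)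 [(nat_lit 601089), (nat_lit 0), (nat_lit 3938199), (nat_lit 9078102)]) (PF.cons (PF.leaf (nat_lit 7957688) (nat_lit 607968) (nat_lit 42808558) (nat_lit 3737575) [(nat_lit 607968), (nat_lit 0), (nat_lit 3938342), (nat_lit 9038185)]) (PF.cons PF.nil (PF.cons PF.nil PF.nil))))))))) (PF.cons (PF.cons (PF.leaf (nat_lit 6628539) (nat_lit 1788614) (nat_lit 44607600) (nat_lit 3720630) [(nat_lit 0), (nat_lit 1788614), (nat_lit 3924510), (nat_lit 9142947)]) (PF.cons (PF.leaf (nat_lit 6971790) (nat_lit 584474) (nat_lit 44030397) (nat_lit 3725948) [(nat_lit 584474), (nat_lit 1799828), (nat_lit 3928885), (nat_lit 9110393)]) (PF.cons (PF.leaf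
 (nat_lit 7323271) (nat_lit 593143) (nat_lit 43446002) (nat_lit 3729418) [(nat_lit 593143), (nat_lit 1809620), (nat_lit 3931365), (nat_lit 9074754)]) (PF.cons (PF.leaf (nat_lit 7681021) (nat_lit 600765) (nat_lit 42857358) (nat_lit 3731044) [(nat_lit 600765), (nat_lit 1818021), (nat_lit 3931955), (nat_lit 9036181)]) (PF.cons (PF.leaf (nat_lit 8043634) (nat_lit 607461) (nat_lit 42266820) (nat_lit 3730858) [(nat_lit 607461), (nat_lit 1825079), (nat_lit 3930688), (nat_lit 8994833)]) (PF.cons PF.nil (PF.cons PF.nil PF.nil))))))) (PF.cons (PF.cons (PF.leaf (nat_lit 7422382) (nat_lit 1810152) (nat_lit 42880900) (nat_lit 3724368) [(nat_lit 0), (nat_lit 1810152), (nat_lit 3925393), (nat_lit 9032451)]) (PF.cons (PF.leaf (nat_lit 7772861) (nat_lit 600064) (nat_lit 42307158) (nat_lit 3724602) [(nat_lit 600064), (nat_lit 1817647), (nat_lit 3924565), (nat_lit 8992559)]) (PF.cons (PF.leaf (nat_lit 8128973) (nat_lit 606626) (nat_lit 41730671) (nat_lit 3723139) [(nat_lit 606626), (nat_lit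 1823880), (nat_lit 3921996), (nat_lit 8949993)]) (PF.cons (PF.leaf (nat_lit 8489165) (nat_lit 612343) (nat_lit 41153573) (nat_lit 3720024) [(nat_lit 612343), (nat_lit 1828896), (nat_lit 3917733), (nat_lit
 8904926)]) (PF.cons PF.nil PF.nil))))) (PF.cons (PF.cons (PF.leaf (nat_lit 8214400) (nat_lit 1822121) (nat_lit 41199632) (nat_lit 3714467) [(nat_lit 0), (nat_lit 1822121), (nat_lit 3912317), (nat_lit 8903715)]) (PF.cons (PF.leaf (nat_lit 8567942) (nat_lit 611068) (nat_lit 40636524) (nat_lit 3710274) [(nat_lit 611068), (nat_lit 1826431), (nat_lit 3906959), (nat_lit 8857732)]) (PF.cons (PF.leaf (nat_lit 8925117) (nat_lit 615910) (nat_lit 40073855) (nat_lit 3704581) [(nat_lit 615910), (nat_lit 1829640), (nat_lit 3900061), (nat_lit 8809511)]) (PF.cons PF.nil PF.nil)))) (PF.cons (PF.cons (PF.leaf (nat_lit 8997787) (nat_lit 1826090) (nat_lit 39575825) (nat_lit 3693112) [(nat_lit 0), (nat_lit 1826090), (nat_lit 3887526), (nat_lit 8760461)]) (PF.cons PF.nil PF.nil)) (PF.cons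 PF.nil PF.nil)))))) (PF.cons (PF.cons (PF.cons (PF.leaf (nat_lit 7160801) (nat_lit 3703111) (nat_lit 42693917) (nat_lit 3703111) [(nat_lit 0), (nat_lit 0), (nat_lit 3903825), (nat_lit 9000307)]) (PF.cons (PF.leaf (nat_lit 7498744) (nat_lit 587908) (nat_lit 42143843) (nat_lit 3704015) [(nat_lit 587908), (nat_lit 0), (nat_lit 3903668), (nat_lit 8962039)]) (PF.cons (PF.leaf (nat_lit 7844085) (nat_lit 595506) (nat_lit
 41587985) (nat_lit 3703277) [(nat_lit 595506), (nat_lit 0), (nat_lit 3901828), (nat_lit 8921053)]) (PF.cons (PF.leaf (nat_lit 8194925) (nat_lit 602106) (nat_lit 41029054) (nat_lit 3700919) [(nat_lit 602106), (nat_lit 0), (nat_lit 3898330), (nat_lit 8877529)]) (PF.cons (PF.leaf (nat_lit 8549933) (nat_lit 607829) (nat_lit 40469195) (nat_lit 3696988) [(nat_lit 607829), (nat_lit 0), (nat_lit 3893221), (nat_lit 8831645)]) (PF.cons PF.nil (PF.cons PF.nil PF.nil))))))) (PF.cons (PF.cons (PF.leaf (nat_lit 7934282) (nat_lit 1805972) (nat_lit 41055664) (nat_lit 3694953)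 [(nat_lit 0), (nat_lit 1805972), (nat_lit 3892488), (nat_lit 8874756)]) (PF.cons (PF.leaf (nat_lit 8277956) (nat_lit 600732) (nat_lit 40511355) (nat_lit 3691518) [(nat_lit 600732), (nat_lit 1811097), (nat_lit 3887898), (nat_lit 8830415)]) (PF.cons (PF.leaf (nat_lit 8626598) (nat_lit 606380) (nat_lit 39965224) (nat_lit 3686599) [(nat_lit 606380), (nat_lit 1815087), (nat_lit 3881787), (nat_lit 8783777)]) (PF.cons (PF.leaf (nat_lit 8978735) (nat_lit 611230) (nat_lit 39419213) (nat_lit 3680250) [(nat_lit 611230), (nat_lit 1817993), (nat_lit 3874212), (nat_lit 8735025)]) (PF.cons PF.nil PF.nil))))) (PF.cons (PF.cons (PF.leaf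
 (nat_lit 8703613) (nat_lit 1811787) (nat_lit 39466285) (nat_lit 3675448) [(nat_lit 0), (nat_lit 1811787), (nat_lit 3869565), (nat_lit 8734807)]) (PF.cons (PF.leaf (nat_lit 9049274) (nat_lit 609431) (nat_lit 38933809) (nat_lit 3668277) [(nat_lit 609431), (nat_lit 1814134), (nat_lit 3861159), (nat_lit 8685546)]) (PF.cons PF.nil (PF.cons PF.nil PF.nil)))) (PF.cons (PF.cons (PF.leaf (nat_lit 9462945) (nat_lit 1810778) (nat_lit 37935199) (nat_lit 3646509) [(nat_lit 0), (nat_lit 1810778), (nat_lit 3837018), (nat_lit 8583713)]) (PF.cons PF.nil PF.nil)) (PF.cons PF.nil PF.nil))))) (PF.cons (PF.cons (PF.cons (PF.leaf (nat_lit 8421002) (nat_lit 3657089) (nat_lit 39340487) (nat_lit 3657089) [(nat_lit 0), (nat_lit 0), (nat_lit 3850905), (nat_lit 8707613)]) (PF.cons (PF.leaf (nat_lit 8757607) (nat_lit 599577) (nat_lit 38825144) (nat_lit 3650725) [(nat_lit 599577), (nat_lit 0), (nat_lit 3843320), (nat_lit 8660081)]) (PF.cons (PF.leaf (nat_lit 9098647) (nat_lit 604442) (nat_lit 38308662)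 (nat_lit 3643061) [(nat_lit 604442), (nat_lit 0), (nat_lit 3834407), (nat_lit 8610575)]) (PF.cons PF.nil PF.nil)))) (PF.cons (PF.cons (PF.leaf (nat_lit 9168023) (nat_lit 1797380) (nat_lit 37840362) (nat_lit
 3630039) [(nat_lit 0), (nat_lit 1797380), (nat_lit 3820272), (nat_lit 8559938)]) (PF.cons (PF.leaf (nat_lit 9505794) (nat_lit 606340) (nat_lit 37337478) (nat_lit 3620520) [(nat_lit 606340), (nat_lit 1798116), (nat_lit 3809474), (nat_lit 8508456)]) PF.nil)) (PF.cons PF.nil PF.nil))) (PF.cons (PF.cons (PF.cons (PF.leaf (nat_lit 9609435) (nat_lit 3579922) (nat_lit 36315988) (nat_lit 3579922) [(nat_lit 0), (nat_lit 0), (nat_lit 3766191), (nat_lit 8381942)]) (PF.cons PF.nil PF.nil)) (PF.cons PF.nil PF.nil)) (PF.cons PF.nil (PF.cons PF.nil PF.nil)))))))) (PF.cons (PF.cons (PF.cons (PF.cons (PF.leaf (nat_lit 5366257) (nat_lit 3596155) (nat_lit 45382199) (nat_lit 3596155) [(nat_lit 0), (nat_lit 0), (nat_lit 0), (nat_lit 9065228)]) (PF.cons (PF.leaf (nat_lit 5665293) (nat_lit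 523581) (nat_lit 44884565) (nat_lit 3609989) [(nat_lit 523581), (nat_lit 0), (nat_lit 0), (nat_lit 9045338)]) (PF.cons (PF.leaf (nat_lit 5980100) (nat_lit 537933) (nat_lit 44366303) (nat_lit 3622160) [(nat_lit 537933), (nat_lit 0), (nat_lit 0), (nat_lit 9022240)]) (PF.cons (PF.leaf (nat_lit 6307252) (nat_lit 550489) (nat_lit 43832880) (nat_lit 3632481) [(nat_lit 550489), (nat_lit 0), (nat_lit 0), (nat_lit 8995991)])
 (PF.cons (PF.leaf (nat_lit 6644397) (nat_lit 561543) (nat_lit 43288436) (nat_lit 3640861) [(nat_lit 561543), (nat_lit 0), (nat_lit 0), (nat_lit 8966670)]) (PF.cons (PF.leaf (nat_lit 6989651) (nat_lit 571309) (nat_lit 42736238) (nat_lit 3647271) [(nat_lit 571309), (nat_lit 0), (nat_lit 0), (nat_lit 8934378)]) (PF.cons (PF.leaf (nat_lit 7341451) (nat_lit 579947) (nat_lit 42178933) (nat_lit 3651723) [(nat_lit 579947), (nat_lit 0), (nat_lit 0), (nat_lit 8899234)]) (PF.cons (PF.leaf (nat_lit 7698478) (nat_lit 587586) (nat_lit 41618709) (nat_lit 3654257) [(nat_lit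 587586), (nat_lit 0), (nat_lit 0), (nat_lit 8861371)]) (PF.cons (PF.leaf (nat_lit 8059582) (nat_lit 594326) (nat_lit 41057398) (nat_lit 3654932) [(nat_lit 594326), (nat_lit 0), (nat_lit 0), (nat_lit 8820934)]) (PF.cons PF.nil PF.nil)))))))))) (PF.cons (PF.cons (PF.leaf (nat_lit 6101500) (nat_lit 1720287) (nat_lit 43788245) (nat_lit 3624616) [(nat_lit 0), (nat_lit 1720287), (nat_lit 0), (nat_lit 8987831)]) (PF.cons (PF.leaf (nat_lit 6419843) (nat_lit 550906) (nat_lit 43270432) (nat_lit 3632965) [(nat_lit 550906), (nat_lit 1734615), (nat_lit 0), (nat_lit 8959946)]) (PF.cons (PF.leaf (nat_lit 6749486) (nat_lit 561838) (nat_lit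
 42740108) (nat_lit 3639550) [(nat_lit 561838), (nat_lit 1747388), (nat_lit 0), (nat_lit 8929044)]) (PF.cons (PF.leaf (nat_lit 7087938) (nat_lit 571438) (nat_lit 42201044) (nat_lit 3644318) [(nat_lit 571438), (nat_lit 1758630), (nat_lit 0), (nat_lit 8895251)]) (PF.cons (PF.leaf (nat_lit 7433444) (nat_lit 579889) (nat_lit 41656192) (nat_lit 3647267) [(nat_lit 579889), (nat_lit 1768387), (nat_lit 0), (nat_lit 8858702)]) (PF.cons (PF.leaf (nat_lit 7784553) (nat_lit 587330) (nat_lit 41107930) (nat_lit 3648424) [(nat_lit 587330), (nat_lit 1776722), (nat_lit 0), (nat_lit 8819541)]) (PF.cons (PF.leaf (nat_lit 8140035) (nat_lit 593871) (nat_lit 40558208) (nat_lit 3647838) [(nat_lit 593871), (nat_lit 1783701), (nat_lit 0), (nat_lit 8777916)]) (PF.cons PF.nil (PF.cons PF.nil PF.nil))))))))) (PF.cons (PF.cons (PF.leaf (nat_lit 6855859) (nat_lit 1749702) (nat_lit 42193732) (nat_lit 3636932) [(nat_lit 0), (nat_lit 1749702), (nat_lit 0), (nat_lit 8889371)]) (PF.cons (PF.leaf (nat_lit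 7186553) (nat_lit 571113) (nat_lit 41669090) (nat_lit 3640177) [(nat_lit 571113), (nat_lit 1759887), (nat_lit 0), (nat_lit 8854328)]) (PF.cons (PF.leaf (nat_lit 7525281) (nat_lit 579444) (nat_lit 41137614) (nat_lit
 3641733) [(nat_lit 579444), (nat_lit 1768693), (nat_lit 0), (nat_lit 8816594)]) (PF.cons (PF.leaf (nat_lit 7870132) (nat_lit 586740) (nat_lit 40601983) (nat_lit 3641614) [(nat_lit 586740), (nat_lit 1776167), (nat_lit 0), (nat_lit 8776328)]) (PF.cons (PF.leaf (nat_lit 8219752) (nat_lit 593125) (nat_lit 40064341) (nat_lit 3639860) [(nat_lit 593125), (nat_lit 1782364), (nat_lit 0), (nat_lit 8733690)]) (PF.cons (PF.leaf (nat_lit 8572996) (nat_lit 598696) (nat_lit 39526435) (nat_lit 3636526) [(nat_lit 598696), (nat_lit 1787346), (nat_lit 0), (nat_lit 8688837)]) (PF.cons PF.nil PF.nil))))))) (PF.cons (PF.cons (PF.leaf (nat_lit 7617801) (nat_lit 1768387) (nat_lit 40622603) (nat_lit 3635169) [(nat_lit 0), (nat_lit 1768387), (nat_lit 0), (nat_lit 8772939)]) (PF.cons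 (PF.leaf (nat_lit 7955678) (nat_lit 585805) (nat_lit 40100423) (nat_lit 3633873) [(nat_lit 585805), (nat_lit 1775053), (nat_lit 0), (nat_lit 8731774)]) (PF.cons (PF.leaf (nat_lit 8299106) (nat_lit 592080) (nat_lit 39575447) (nat_lit 3631043) [(nat_lit 592080), (nat_lit 1780518), (nat_lit 0), (nat_lit 8688301)]) (PF.cons (PF.leaf (nat_lit 8646564) (nat_lit 597529) (nat_lit 39049612) (nat_lit 3626726) [(nat_lit 597529), (nat_lit
 1784835), (nat_lit 0), (nat_lit 8642690)]) (PF.cons PF.nil PF.nil))))) (PF.cons (PF.cons (PF.leaf (nat_lit 8378785) (nat_lit 1778189) (nat_lit 39091069) (nat_lit 3621426) [(nat_lit 0), (nat_lit 1778189), (nat_lit 0), (nat_lit 8641780)]) (PF.cons (PF.leaf (nat_lit 8719914) (nat_lit 596096) (nat_lit 38577819) (nat_lit 3616208) [(nat_lit 596096), (nat_lit 1781884), (nat_lit 0), (nat_lit 8595575)]) (PF.cons (PF.leaf (nat_lit 9064686) (nat_lit 600713) (nat_lit 38064656) (nat_lit 3609640) [(nat_lit 600713), (nat_lit 1784544), (nat_lit 0), (nat_lit 8547455)])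 (PF.cons PF.nil PF.nil)))) (PF.cons (PF.cons (PF.leaf (nat_lit 9132478) (nat_lit 1780650) (nat_lit 37609849) (nat_lit 3597687) [(nat_lit 0), (nat_lit 1780650), (nat_lit 0), (nat_lit 8499010)]) (PF.cons PF.nil PF.nil)) (PF.cons PF.nil (PF.cons PF.nil PF.nil)))))))) (PF.cons (PF.cons (PF.cons (PF.leaf (nat_lit 6621595) (nat_lit 3614024) (nat_lit 41972775) (nat_lit 3614024) [(nat_lit 0), (nat_lit 0), (nat_lit 3812468), (nat_lit 8854771)]) (PF.cons (PF.leaf (nat_lit 6936941) (nat_lit 556468) (nat_lit 41476053) (nat_lit 3617941) [(nat_lit 556468), (nat_lit 0), (nat_lit 3815349), (nat_lit 8821499)]) (PF.cons (PF.leaf (nat_lit 7262645)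
 (nat_lit 566243) (nat_lit 40968568) (nat_lit 3620249) [(nat_lit 566243), (nat_lit 0), (nat_lit 3816587), (nat_lit 8785460)]) (PF.cons (PF.leaf (nat_lit 7596253) (nat_lit 574734) (nat_lit 40453845) (nat_lit 3620931) [(nat_lit 574734), (nat_lit 0), (nat_lit 3816168), (nat_lit 8746831)]) (PF.cons (PF.leaf (nat_lit 7936095) (nat_lit 582129) (nat_lit 39934614) (nat_lit 3620006) [(nat_lit 582129), (nat_lit 0), (nat_lit 3814111), (nat_lit 8705780)]) (PF.cons (PF.leaf (nat_lit 8280799) (nat_lit 588571) (nat_lit 39413046) (nat_lit 3617512) [(nat_lit 588571), (nat_lit 0), (nat_lit 3810457), (nat_lit 8662470)]) (PF.cons (PF.leaf (nat_lit 8629229) (nat_lit 594169) (nat_lit 38890906) (nat_lit 3613506) [(nat_lit 594169), (nat_lit 0), (nat_lit 3805262), (nat_lit 8617060)]) (PF.cons PF.nil (PF.cons PF.nil PF.nil))))))))) (PF.cons (PF.cons (PF.leaf (nat_lit 7360715) (nat_lit 1750125) (nat_lit 40451744) (nat_lit 3614110) [(nat_lit 0), (nat_lit 1750125), (nat_lit 3809460), (nat_lit 8741685)])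 (PF.cons (PF.leaf (nat_lit 7686603) (nat_lit 573659) (nat_lit 39951355) (nat_lit 3613602) [(nat_lit 573659), (nat_lit 1757784), (nat_lit 3807841), (nat_lit 8702284)]) (PF.cons (PF.leaf (nat_lit 8019728)
 (nat_lit 581001) (nat_lit 39445358) (nat_lit 3611588) [(nat_lit 581001), (nat_lit 1764192), (nat_lit 3804685), (nat_lit 8660493)]) (PF.cons (PF.leaf (nat_lit 8358279) (nat_lit 587358) (nat_lit 38936227) (nat_lit 3608100) [(nat_lit 587358), (nat_lit 1769399), (nat_lit 3800025), (nat_lit 8616493)]) (PF.cons (PF.leaf (nat_lit 8700968) (nat_lit 592854) (nat_lit 38425918) (nat_lit 3603185) [(nat_lit 592854), (nat_lit 1773466), (nat_lit 3793911), (nat_lit 8570455)]) (PF.cons PF.nil (PF.cons PF.nil PF.nil))))))) (PF.cons (PF.cons (PF.leaf (nat_lit 8104280) (nat_lit 1762180) (nat_lit 38959756) (nat_lit 3602337) [(nat_lit 0), (nat_lit 1762180), (nat_lit 3794397), (nat_lit 8613980)]) (PF.cons (PF.leaf (nat_lit 8435966) (nat_lit 585838) (nat_lit 38463777) (nat_lit 3597939) [(nat_lit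 585838), (nat_lit 1766742), (nat_lit 3788822), (nat_lit 8569474)]) (PF.cons (PF.leaf (nat_lit 8772598) (nat_lit 591278) (nat_lit 37965801) (nat_lit 3592194) [(nat_lit 591278), (nat_lit 1770225), (nat_lit 3781871), (nat_lit 8522968)]) (PF.cons (PF.leaf (nat_lit 9112728) (nat_lit 595939) (nat_lit 37467598) (nat_lit 3585155) [(nat_lit 595939), (nat_lit 1772682), (nat_lit 3773600), (nat_lit 8474636)]) (PF.cons PF.nil
 PF.nil))))) (PF.cons (PF.cons (PF.leaf (nat_lit 8844781) (nat_lit 1766589) (nat_lit 37510094) (nat_lit 3580562) [(nat_lit 0), (nat_lit 1766589), (nat_lit 3769168), (nat_lit 8474609)]) (PF.cons (PF.leaf (nat_lit 9178735) (nat_lit 594055) (nat_lit 37024041) (nat_lit 3572837) [(nat_lit 594055), (nat_lit 1768553), (nat_lit 3760209), (nat_lit 8426004)]) (PF.cons PF.nil (PF.cons PF.nil PF.nil)))) (PF.cons (PF.cons (PF.leaf (nat_lit 9576731) (nat_lit 1764713) (nat_lit 36111278) (nat_lit 3550513) [(nat_lit 0), (nat_lit 1764713), (nat_lit 3735537), (nat_lit 8326314)])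 (PF.cons PF.nil PF.nil)) (PF.cons PF.nil PF.nil)))))) (PF.cons (PF.cons (PF.cons (PF.leaf (nat_lit 7843368) (nat_lit 3582446) (nat_lit 38809139) (nat_lit 3582446) [(nat_lit 0), (nat_lit 0), (nat_lit 3774225), (nat_lit 8584388)]) (PF.cons (PF.leaf (nat_lit 8163945) (nat_lit 574258) (nat_lit 38333105) (nat_lit 3578900) [(nat_lit 574258), (nat_lit 0), (nat_lit 3769511), (nat_lit 8541763)]) (PF.cons (PF.leaf (nat_lit 8491114) (nat_lit 580741) (nat_lit 37852436) (nat_lit 3574010) [(nat_lit 580741), (nat_lit 0), (nat_lit 3763425), (nat_lit 8497015)]) (PF.cons (PF.leaf (nat_lit 8823116) (nat_lit 586288) (nat_lit 37369414) (nat_lit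
 3567819) [(nat_lit 586288), (nat_lit 0), (nat_lit 3756014), (nat_lit 8450342)]) (PF.cons (PF.leaf (nat_lit 9158725) (nat_lit 591022) (nat_lit 36885830) (nat_lit 3560382) [(nat_lit 591022), (nat_lit 0), (nat_lit 3747333), (nat_lit 8401920)]) PF.nil))))) (PF.cons (PF.cons (PF.leaf (nat_lit 8568325) (nat_lit 1751582) (nat_lit 37395189) (nat_lit 3562694) [(nat_lit 0), (nat_lit 1751582), (nat_lit 3751031), (nat_lit 8448642)]) (PF.cons (PF.leaf (nat_lit 8893606) (nat_lit 584303) (nat_lit 36924883) (nat_lit 3555813) [(nat_lit 584303), (nat_lit 1754397), (nat_lit 3742929), (nat_lit 8401777)]) (PF.cons (PF.leaf (nat_lit 9223313) (nat_lit 589024) (nat_lit 36453184) (nat_lit 3547746) [(nat_lit 589024), (nat_lit 1756238), (nat_lit 3733619), (nat_lit 8353178)]) (PF.cons PF.nil PF.nil)))) (PF.cons (PF.cons (PF.leaf (nat_lit 9288666) (nat_lit 1751579) (nat_lit 36024764) (nat_lit 3534596) [(nat_lit 0), (nat_lit 1751579), (nat_lit 3719374), (nat_lit 8303772)]) (PF.cons (PF.leaf (nat_lit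 9615435) (nat_lit 590768) (nat_lit 35564921) (nat_lit 3524891) [(nat_lit 590768), (nat_lit 1752116), (nat_lit 3708406), (nat_lit 8253593)]) PF.nil)) (PF.cons PF.nil (PF.cons PF.nil PF.nil))))) (PF.cons (PF.cons
 (PF.cons (PF.leaf (nat_lit 9011285) (nat_lit 3517924) (nat_lit 35924239) (nat_lit 3517924) [(nat_lit 0), (nat_lit 0), (nat_lit 3702450), (nat_lit 8279647)]) (PF.cons (PF.leaf (nat_lit 9330030) (nat_lit 581504) (nat_lit 35478762) (nat_lit 3509068) [(nat_lit 581504), (nat_lit 0), (nat_lit 3692348), (nat_lit 8231215)]) (PF.cons (PF.leaf (nat_lit 9652815) (nat_lit 585605) (nat_lit 35032341) (nat_lit 3499166) [(nat_lit 585605), (nat_lit 0), (nat_lit 3681181), (nat_lit 8181275)]) (PF.cons PF.nil PF.nil)))) (PF.cons (PF.cons (PF.leaf (nat_lit 9711942) (nat_lit 1733926) (nat_lit 34629694) (nat_lit 3484897) [(nat_lit 0), (nat_lit 1733926), (nat_lit 3665806), (nat_lit 8131437)]) (PF.cons PF.nil PF.nil)) (PF.cons PF.nil PF.nil))) (PF.cons (PF.cons (PF.cons (PF.leaf (nat_lit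 10116068) (nat_lit 3432554) (nat_lit 33319328) (nat_lit 3432554) [(nat_lit 0), (nat_lit 0), (nat_lit 3609596), (nat_lit 7959273)]) (PF.cons PF.nil PF.nil)) (PF.cons PF.nil PF.nil)) (PF.cons PF.nil PF.nil)))))) (PF.cons (PF.cons (PF.cons (PF.cons (PF.leaf (nat_lit 7306691) (nat_lit 3503113) (nat_lit 38236386) (nat_lit 3503113) [(nat_lit 0), (nat_lit 0), (nat_lit 0), (nat_lit 8456437)]) (PF.cons (PF.leaf (nat_lit 7607671)
 (nat_lit 545231) (nat_lit 37804022) (nat_lit 3502636) [(nat_lit 545231), (nat_lit 0), (nat_lit 0), (nat_lit 8418974)]) (PF.cons (PF.leaf (nat_lit 7918016) (nat_lit 553858) (nat_lit 37362725) (nat_lit 3500770) [(nat_lit 553858), (nat_lit 0), (nat_lit 0), (nat_lit 8379199)]) (PF.cons (PF.leaf (nat_lit 8235417) (nat_lit 561253) (nat_lit 36915515) (nat_lit 3497536) [(nat_lit 561253), (nat_lit 0), (nat_lit 0), (nat_lit 8337333)]) (PF.cons (PF.leaf (nat_lit 8558315) (nat_lit 567610) (nat_lit 36464706) (nat_lit 3492975) [(nat_lit 567610), (nat_lit 0), (nat_lit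 0), (nat_lit 8293563)]) (PF.cons (PF.leaf (nat_lit 8885436) (nat_lit 573072) (nat_lit 36012126) (nat_lit 3487138) [(nat_lit 573072), (nat_lit 0), (nat_lit 0), (nat_lit 8248061)]) (PF.cons PF.nil PF.nil))))))) (PF.cons (PF.cons (PF.leaf (nat_lit 8003756) (nat_lit 1701512) (nat_lit 36916605) (nat_lit 3491395) [(nat_lit 0), (nat_lit 1701512), (nat_lit 0), (nat_lit 8333099)]) (PF.cons (PF.leaf (nat_lit 8313784) (nat_lit 559514) (nat_lit 36482000) (nat_lit 3487360) [(nat_lit 559514), (nat_lit 1706776), (nat_lit 0), (nat_lit 8291053)]) (PF.cons (PF.leaf (nat_lit 8630343) (nat_lit 565880) (nat_lit 36042778) (nat_lit 3482070) [(nat_lit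
 565880), (nat_lit 1710927), (nat_lit 0), (nat_lit 8247091)]) (PF.cons (PF.leaf (nat_lit 8951702) (nat_lit 571319) (nat_lit 35601037) (nat_lit 3475570) [(nat_lit 571319), (nat_lit 1714027), (nat_lit 0), (nat_lit 8201406)]) (PF.cons (PF.leaf (nat_lit 9276701) (nat_lit 575956) (nat_lit 35158423) (nat_lit 3467917) [(nat_lit 575956), (nat_lit 1716140), (nat_lit 0), (nat_lit 8154168)]) PF.nil))))) (PF.cons (PF.cons (PF.leaf (nat_lit 8703612) (nat_lit 1707400) (nat_lit 35623960) (nat_lit 3470578) [(nat_lit 0), (nat_lit 1707400), (nat_lit 0), (nat_lit 8199824)]) (PF.cons (PF.leaf (nat_lit 9018510) (nat_lit 569308) (nat_lit 35193641) (nat_lit 3463484) [(nat_lit 569308), (nat_lit 1710034), (nat_lit 0), (nat_lit 8154103)]) (PF.cons (PF.leaf (nat_lit 9337863) (nat_lit 573941) (nat_lit 34761694) (nat_lit 3455291) [(nat_lit 573941), (nat_lit 1711727), (nat_lit 0), (nat_lit 8106829)]) (PF.cons PF.nil PF.nil)))) (PF.cons (PF.cons (PF.leaf (nat_lit 9399915) (nat_lit 1707030) (nat_lit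 34368639) (nat_lit 3442221) [(nat_lit 0), (nat_lit 1707030), (nat_lit 0), (nat_lit 8058953)]) (PF.cons (PF.leaf (nat_lit 9716610) (nat_lit 575618) (nat_lit 33946998) (nat_lit 3432552) [(nat_lit 575618), (nat_lit
 1707494), (nat_lit 0), (nat_lit 8010386)]) PF.nil)) (PF.cons PF.nil (PF.cons PF.nil PF.nil)))))) (PF.cons (PF.cons (PF.cons (PF.leaf (nat_lit 8446022) (nat_lit 3452309) (nat_lit 35501810) (nat_lit 3452309) [(nat_lit 0), (nat_lit 0), (nat_lit 3635119), (nat_lit 8173191)]) (PF.cons (PF.leaf (nat_lit 8750935) (nat_lit 558356) (nat_lit 35088350) (nat_lit 3446138) [(nat_lit 558356), (nat_lit 0), (nat_lit 3627752), (nat_lit 8129404)]) (PF.cons (PF.leaf (nat_lit 9061858) (nat_lit 564018) (nat_lit 34670982) (nat_lit 3438839) [(nat_lit 564018), (nat_lit 0), (nat_lit 3619240), (nat_lit 8083904)]) (PF.cons (PF.leaf (nat_lit 9377121) (nat_lit 568797) (nat_lit 34251647) (nat_lit 3430469) [(nat_lit 568797), (nat_lit 0), (nat_lit 3609640), (nat_lit 8036887)]) (PF.cons PF.nil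 PF.nil))))) (PF.cons (PF.cons (PF.leaf (nat_lit 9129011) (nat_lit 1693195) (nat_lit 34276238) (nat_lit 3426043) [(nat_lit 0), (nat_lit 1693195), (nat_lit 3605366), (nat_lit 8035989)]) (PF.cons (PF.leaf (nat_lit 9437961) (nat_lit 566459) (nat_lit 33867863) (nat_lit 3417234) [(nat_lit 566459), (nat_lit 1694505), (nat_lit 3595335), (nat_lit 7989138)]) (PF.cons (PF.leaf (nat_lit 9750956) (nat_lit 570511) (nat_lit 33458279)
 (nat_lit 3407450) [(nat_lit 570511), (nat_lit 1694965), (nat_lit 3584315), (nat_lit 7940926)]) (PF.cons PF.nil PF.nil)))) (PF.cons (PF.cons (PF.leaf (nat_lit 9807362) (nat_lit 1689579) (nat_lit 33088173) (nat_lit 3393461) [(nat_lit 0), (nat_lit 1689579), (nat_lit 3569254), (nat_lit 7892921)]) (PF.cons PF.nil PF.nil)) (PF.cons PF.nil (PF.cons PF.nil PF.nil))))) (PF.cons (PF.cons (PF.cons (PF.leaf (nat_lit 9536529) (nat_lit 3378431) (nat_lit 33007202) (nat_lit 3378431) [(nat_lit 0), (nat_lit 0), (nat_lit 3554019), (nat_lit 7871712)]) (PF.cons (PF.leaf (nat_lit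 9839480) (nat_lit 562713) (nat_lit 32619858) (nat_lit 3368265) [(nat_lit 562713), (nat_lit 0), (nat_lit 3542629), (nat_lit 7824238)]) (PF.cons PF.nil (PF.cons PF.nil PF.nil)))) (PF.cons (PF.cons (PF.leaf (nat_lit 10197414) (nat_lit 1670397) (nat_lit 31883089) (nat_lit 3342592) [(nat_lit 0), (nat_lit 1670397), (nat_lit 3514653), (nat_lit 7727809)]) (PF.cons PF.nil PF.nil)) (PF.cons PF.nil PF.nil))) (PF.cons (PF.cons (PF.cons (PF.leaf (nat_lit 10571259) (nat_lit 3290338) (nat_lit 30748534) (nat_lit 3290338) [(nat_lit 0), (nat_lit 0), (nat_lit 3458710), (nat_lit 7564603)]) (PF.cons PF.nil PF.nil)) (PF.cons PF.nil PF.nil))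
 (PF.cons PF.nil PF.nil))))) (PF.cons (PF.cons (PF.cons (PF.cons (PF.leaf (nat_lit 8986447) (nat_lit 3320851) (nat_lit 32667972) (nat_lit 3320851) [(nat_lit 0), (nat_lit 0), (nat_lit 0), (nat_lit 7779997)]) (PF.cons (PF.leaf (nat_lit 9277248) (nat_lit 541552) (nat_lit 32306949) (nat_lit 3313172) [(nat_lit 541552), (nat_lit 0), (nat_lit 0), (nat_lit 7736784)]) (PF.cons (PF.leaf (nat_lit 9573613) (nat_lit 546587) (nat_lit 31942518) (nat_lit 3304531) [(nat_lit 546587), (nat_lit 0), (nat_lit 0), (nat_lit 7692146)]) (PF.cons (PF.leaf (nat_lit 9873944) (nat_lit 550791) (nat_lit 31576341) (nat_lit 3294986) [(nat_lit 550791), (nat_lit 0), (nat_lit 0), (nat_lit 7646277)]) (PF.cons PF.nil PF.nil))))) (PF.cons (PF.cons (PF.leaf (nat_lit 9632833) (nat_lit 1634146) (nat_lit 31599607) (nat_lit 3291142) [(nat_lit 0), (nat_lit 1634146), (nat_lit 0), (nat_lit 7645979)]) (PF.cons (PF.leaf (nat_lit 9927208) (nat_lit 548260) (nat_lit 31242863) (nat_lit 3281325) [(nat_lit 548260), (nat_lit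 1634466), (nat_lit 0), (nat_lit 7600474)]) (PF.cons PF.nil (PF.cons PF.nil PF.nil)))) (PF.cons (PF.cons (PF.leaf (nat_lit 10274770) (nat_lit 1628301) (nat_lit 30563097) (nat_lit 3256530) [(nat_lit 0), (nat_lit
 1628301), (nat_lit 0), (nat_lit 7508145)]) (PF.cons PF.nil PF.nil)) PF.nil))) (PF.cons (PF.cons (PF.cons (PF.leaf (nat_lit 10011107) (nat_lit 3243017) (nat_lit 30497354) (nat_lit 3243017) [(nat_lit 0), (nat_lit 0), (nat_lit 3410179), (nat_lit 7489565)]) (PF.cons (PF.leaf (nat_lit 10299985) (nat_lit 543996) (nat_lit 30158372) (nat_lit 3232253) [(nat_lit 543996), (nat_lit 0), (nat_lit 3398236), (nat_lit 7443988)]) (PF.cons PF.nil PF.nil))) (PF.cons (PF.cons (PF.leaf (nat_lit 10637441) (nat_lit 1608606) (nat_lit 29514677) (nat_lit 3206238) [(nat_lit 0), (nat_lit 1608606), (nat_lit 3370024), (nat_lit 7352316)]) PF.nil) PF.nil)) (PF.cons PF.nil PF.nil))) (PF.cons (PF.cons (PF.cons (PF.cons (PF.leaf (nat_lit 10445319) (nat_lit 3113838) (nat_lit 28321133) (nat_lit 3113838)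 [(nat_lit 0), (nat_lit 0), (nat_lit 0), (nat_lit 7134768)]) (PF.cons (PF.leaf (nat_lit 10721574) (nat_lit 525785) (nat_lit 28022533) (nat_lit 3102907) [(nat_lit 525785), (nat_lit 0), (nat_lit 0), (nat_lit 7091517)]) PF.nil)) (PF.cons PF.nil PF.nil)) (PF.cons PF.nil PF.nil)) (PF.cons PF.nil (PF.cons PF.nil (PF.cons PF.nil PF.nil)))))))))

def p15_27_0_0 : pfC (piC [(nat_lit 36888796), (nat_lit 24534081), (nat_lit 18263511), (nat_lit 12310016)] (nat_lit 20794417)) p15_27_0 (nat_lit 4) (nat_lit 0) (nat_lit 1) = true := by decide +kernel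
def p15_27_0_1 : pfC (piC [(nat_lit 36888796), (nat_lit 24534081), (nat_lit 18263511), (nat_lit 12310016)] (nat_lit 20794417)) p15_27_0 (nat_lit 4) (nat_lit 1) (nat_lit 2) = true := by decide +kernel
def p15_27_0_2 : pfC (piC [(nat_lit 36888796), (nat_lit 24534081), (nat_lit 18263511), (nat_lit 12310016)] (nat_lit 20794417)) p15_27_0 (nat_lit 4) (nat_lit 2) (nat_lit 3) = true := by decide +kernel
def p15_27_0_3 : pfC (piC [(nat_lit 36888796), (nat_lit 24534081), (nat_lit 18263511), (nat_lit 12310016)] (nat_lit 20794417)) p15_27_0 (nat_lit 4) (nat_lit 3) (nat_lit 4) = true := by decide +kernel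
def p15_27_0_4 : pfC (piC [(nat_lit 36888796), (nat_lit 24534081), (nat_lit 18263511), (nat_lit 12310016)] (nat_lit 20794417)) p15_27_0 (nat_lit 4) (nat_lit 4) (nat_lit 5) = true := by decide +kernel
def p15_27_0_5 : pfC (piC [(nat_lit 36888796), (nat_lit 24534081), (nat_lit 18263511), (nat_lit 12310016)] (nat_lit 20794417)) p15_27_0 (nat_lit 4) (nat_lit 5) (nat_lit 6) = true := by decide +kernel
def p15_27_0_6 : pfC (piC [(nat_lit 36888796), (nat_lit 24534081), (nat_lit 18263511), (nat_lit 12310016)] (nat_lit 20794417)) p15_27_0 (nat_lit 4) (nat_lit 6) (nat_lit 7) = true := by decide +kernel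
def p15_27_0_7 : pfC (piC [(nat_lit 36888796), (nat_lit 24534081), (nat_lit 18263511), (nat_lit 12310016)] (nat_lit 20794417)) p15_27_0 (nat_lit 4) (nat_lit 7) (nat_lit 8) = true := by decide +kernel
def p15_27_0_8 : pfC (piC [(nat_lit 36888796), (nat_lit 24534081), (nat_lit 18263511), (nat_lit 12310016)] (nat_lit 20794417)) p15_27_0 (nat_lit 4) (nat_lit 8) (nat_lit 9) = true := by decide +kernel
def p15_27_0_9 : pfC (piC [(nat_lit 36888796), (nat_lit 24534081), (nat_lit 18263511), (nat_lit 12310016)] (nat_lit 20794417)) p15_27_0 (nat_lit 4) (nat_lit 9) (nat_lit 10) = true := by decide +kernel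
def p15_27_0_10 : pfC (piC [(nat_lit 36888796), (nat_lit 24534081), (nat_lit 18263511), (nat_lit 12310016)] (nat_lit 20794417)) p15_27_0 (nat_lit 4) (nat_lit 10) (nat_lit 11) = true := by decide +kernel
def p15_27_0_11 : pfC (piC [(nat_lit 36888796), (nat_lit 24534081), (nat_lit 18263511), (nat_lit 12310016)] (nat_lit 20794417)) p15_27_0 (nat_lit 4) (nat_lit 11) (nat_lit 12) = true := by decide +kernel
def p15_27_0_12 : pfC (piC [(nat_lit 36888796), (nat_lit 24534081), (nat_lit 18263511), (nat_lit 12310016)] (nat_lit 20794417)) p15_27_0 (nat_lit 4) (nat_lit 12) (nat_lit 13) = true := by decide +kernel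
def p15_27_0_13 : pfC (piC [(nat_lit 36888796), (nat_lit 24534081), (nat_lit 18263511), (nat_lit 12310016)] (nat_lit 20794417)) p15_27_0 (nat_lit 4) (nat_lit 13) (nat_lit 14) = true := by decide +kernel
def p15_27_0_14 : pfC (piC [(nat_lit 36888796), (nat_lit 24534081), (nat_lit 18263511), (nat_lit 12310016)] (nat_lit 20794417)) p15_27_0 (nat_lit 4) (nat_lit 14) (nat_lit 15) = true := by decide +kernel
def p15_27_0_15 : pfC (piC [(nat_lit 36888796), (nat_lit 24534081), (nat_lit 18263511), (nat_lit 12310016)] (nat_lit 20794417)) p15_27_0 (nat_lit 4) (nat_lit 15) (nat_lit 16) = true := by decide +kernel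
def p15_27_0_16 : pfC (piC [(nat_lit 36888796), (nat_lit 24534081), (nat_lit 18263511), (nat_lit 12310016)] (nat_lit 20794417)) p15_27_0 (nat_lit 4) (nat_lit 16) (nat_lit 17) = true := by decide +kernel
def p15_27_0_17 : pfC (piC [(nat_lit 36888796), (nat_lit 24534081), (nat_lit 18263511), (nat_lit 12310016)] (nat_lit 20794417)) p15_27_0 (nat_lit 4) (nat_lit 17) (nat_lit 18) = true := by decide +kernel
def p15_27_0_18 : pfC (piC [(nat_lit 36888796), (nat_lit 24534081), (nat_lit 18263511), (nat_lit 12310016)] (nat_lit 20794417)) p15_27_0 (nat_lit 4) (nat_lit 18) (nat_lit 19) = true := by decide +kernel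
def p15_27_0_19 : pfC (piC [(nat_lit 36888796), (nat_lit 24534081), (nat_lit 18263511), (nat_lit 12310016)] (nat_lit 20794417)) p15_27_0 (nat_lit 4) (nat_lit 19) (nat_lit 20) = true := by decide +kernel
def p15_27_0_20 : pfC (piC [(nat_lit 36888796), (nat_lit 24534081), (nat_lit 18263511), (nat_lit 12310016)] (nat_lit 20794417)) p15_27_0 (nat_lit 4) (nat_lit 20) (nat_lit 21) = true := by decide +kernel
def p15_27_0_21 : pfC (piC [(nat_lit 36888796), (nat_lit 24534081), (nat_lit 18263511), (nat_lit 12310016)] (nat_lit 20794417)) p15_27_0 (nat_lit 4) (nat_lit 21) (nat_lit 22) = true := by decide +kernel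
def p15_27_0_22 : pfC (piC [(nat_lit 36888796), (nat_lit 24534081), (nat_lit 18263511), (nat_lit 12310016)] (nat_lit 20794417)) p15_27_0 (nat_lit 4) (nat_lit 22) (nat_lit 23) = true := by decide +kernel
def p15_27_0_23 : pfC (piC [(nat_lit 36888796), (nat_lit 24534081), (nat_lit 18263511), (nat_lit 12310016)] (nat_lit 20794417)) p15_27_0 (nat_lit 4) (nat_lit 23) (nat_lit 24) = true := by decide +kernel
def p15_27_0_24 : pfC (piC [(nat_lit 36888796), (nat_lit 24534081), (nat_lit 18263511), (nat_lit 12310016)] (nat_lit 20794417)) p15_27_0 (nat_lit 4) (nat_lit 24) (nat_lit 25) = true := by decide +kernel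
def p15_27_0_25 : pfC (piC [(nat_lit 36888796), (nat_lit 24534081), (nat_lit 18263511), (nat_lit 12310016)] (nat_lit 20794417)) p15_27_0 (nat_lit 4) (nat_lit 25) (nat_lit 26) = true := by decide +kernel
def p15_27_0_26 : pfC (piC [(nat_lit 36888796), (nat_lit 24534081), (nat_lit 18263511), (nat_lit 12310016)] (nat_lit 20794417)) p15_27_0 (nat_lit 4) (nat_lit 26) (nat_lit 27) = true := by decide +kernel
def p15_27_0_27 : pfC (piC [(nat_lit 36888796), (nat_lit 24534081), (nat_lit 18263511), (nat_lit 12310016)] (nat_lit 20794417)) p15_27_0 (nat_lit 4) (nat_lit 27) (nat_lit 28) = true := by decide +kernel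
def p15_27_0_28 : pfC (piC [(nat_lit 36888796), (nat_lit 24534081), (nat_lit 18263511), (nat_lit 12310016)] (nat_lit 20794417)) p15_27_0 (nat_lit 4) (nat_lit 28) (nat_lit 29) = true := by decide +kernel
def p15_27_0_29 : pfC (piC [(nat_lit 36888796), (nat_lit 24534081), (nat_lit 18263511), (nat_lit 12310016)] (nat_lit 20794417)) p15_27_0 (nat_lit 4) (nat_lit 29) (nat_lit 30) = true := by decide +kernel
def p15_27_0_30 : pfC (piC [(nat_lit 36888796), (nat_lit 24534081), (nat_lit 18263511), (nat_lit 12310016)] (nat_lit 20794417)) p15_27_0 (nat_lit 4) (nat_lit 30) (nat_lit 31) = true := by decide +kernel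
def p15_27_0_31 : pfC (piC [(nat_lit 36888796), (nat_lit 24534081), (nat_lit 18263511), (nat_lit 12310016)] (nat_lit 20794417)) p15_27_0 (nat_lit 4) (nat_lit 31) (nat_lit 32) = true := by decide +kernel
def p15_27_0_32 : pfC (piC [(nat_lit 36888796), (nat_lit 24534081), (nat_lit 18263511), (nat_lit 12310016)] (nat_lit 20794417)) p15_27_0 (nat_lit 4) (nat_lit 32) (nat_lit 33) = true := by decide +kernel
def p15_27_0_33 : pfC (piC [(nat_lit 36888796), (nat_lit 24534081), (nat_lit 18263511), (nat_lit 12310016)] (nat_lit 20794417)) p15_27_0 (nat_lit 4) (nat_lit 33) (nat_lit 34) = true := by decide +kernel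
def p15_27_0_34 : pfC (piC [(nat_lit 36888796), (nat_lit 24534081), (nat_lit 18263511), (nat_lit 12310016)] (nat_lit 20794417)) p15_27_0 (nat_lit 4) (nat_lit 34) (nat_lit 35) = true := by decide +kernel
def p15_27_0_35 : pfC (piC [(nat_lit 36888796), (nat_lit 24534081), (nat_lit 18263511), (nat_lit 12310016)] (nat_lit 20794417)) p15_27_0 (nat_lit 4) (nat_lit 35) (nat_lit 36) = true := by decide +kernel
def p15_27_0_36 : pfC (piC [(nat_lit 36888796), (nat_lit 24534081), (nat_lit 18263511), (nat_lit 12310016)] (nat_lit 20794417)) p15_27_0 (nat_lit 4) (nat_lit 36) (nat_lit 37) = true := by decide +kernel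
def p15_27_0_37 : pfC (piC [(nat_lit 36888796), (nat_lit 24534081), (nat_lit 18263511), (nat_lit 12310016)] (nat_lit 20794417)) p15_27_0 (nat_lit 4) (nat_lit 37) (nat_lit 38) = true := by decide +kernel
def p15_27_0_38 : pfC (piC [(nat_lit 36888796), (nat_lit 24534081), (nat_lit 18263511), (nat_lit 12310016)] (nat_lit 20794417)) p15_27_0 (nat_lit 4) (nat_lit 38) (nat_lit 39) = true := by decide +kernel
def p15_27_0_39 : pfC (piC [(nat_lit 36888796), (nat_lit 24534081), (nat_lit 18263511), (nat_lit 12310016)] (nat_lit 20794417)) p15_27_0 (nat_lit 4) (nat_lit 39) (nat_lit 40) = true := by decide +kernel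
def p15_27_0_40 : pfC (piC [(nat_lit 36888796), (nat_lit 24534081), (nat_lit 18263511), (nat_lit 12310016)] (nat_lit 20794417)) p15_27_0 (nat_lit 4) (nat_lit 40) (nat_lit 41) = true := by decide +kernel
def p15_27_0_41 : pfC (piC [(nat_lit 36888796), (nat_lit 24534081), (nat_lit 18263511), (nat_lit 12310016)] (nat_lit 20794417)) p15_27_0 (nat_lit 4) (nat_lit 41) (nat_lit 42) = true := by decide +kernel
def p15_27_0_42 : pfC (piC [(nat_lit 36888796), (nat_lit 24534081), (nat_lit 18263511), (nat_lit 12310016)] (nat_lit 20794417)) p15_27_0 (nat_lit 4) (nat_lit 42) (nat_lit 43) = true := by decide +kernel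
def p15_27_0_43 : pfC (piC [(nat_lit 36888796), (nat_lit 24534081), (nat_lit 18263511), (nat_lit 12310016)] (nat_lit 20794417)) p15_27_0 (nat_lit 4) (nat_lit 43) (nat_lit 44) = true := by decide +kernel
def p15_27_0_44 : pfC (piC [(nat_lit 36888796), (nat_lit 24534081), (nat_lit 18263511), (nat_lit 12310016)] (nat_lit 20794417)) p15_27_0 (nat_lit 4) (nat_lit 44) (nat_lit 45) = true := by decide +kernel
def p15_27_0_45 : pfC (piC [(nat_lit 36888796), (nat_lit 24534081), (nat_lit 18263511), (nat_lit 12310016)] (nat_lit 20794417)) p15_27_0 (nat_lit 4) (nat_lit 45) (nat_lit 46) = true := by decide +kernel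
def p15_27_0_46 : pfC (piC [(nat_lit 36888796), (nat_lit 24534081), (nat_lit 18263511), (nat_lit 12310016)] (nat_lit 20794417)) p15_27_0 (nat_lit 4) (nat_lit 46) (nat_lit 47) = true := by decide +kernel
def p15_27_0_47 : pfC (piC [(nat_lit 36888796), (nat_lit 24534081), (nat_lit 18263511), (nat_lit 12310016)] (nat_lit 20794417)) p15_27_0 (nat_lit 4) (nat_lit 47) (nat_lit 48) = true := by decide +kernel
def p15_27_0_48 : pfC (piC [(nat_lit 36888796), (nat_lit 24534081), (nat_lit 18263511), (nat_lit 12310016)] (nat_lit 20794417)) p15_27_0 (nat_lit 4) (nat_lit 48) (nat_lit 49) = true := by decide +kernel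
def p15_27_0_49 : pfC (piC [(nat_lit 36888796), (nat_lit 24534081), (nat_lit 18263511), (nat_lit 12310016)] (nat_lit 20794417)) p15_27_0 (nat_lit 4) (nat_lit 49) (nat_lit 50) = true := by decide +kernel
def p15_27_0_50 : pfC (piC [(nat_lit 36888796), (nat_lit 24534081), (nat_lit 18263511), (nat_lit 12310016)] (nat_lit 20794417)) p15_27_0 (nat_lit 4) (nat_lit 50) (nat_lit 51) = true := by decide +kernel
def p15_27_0_51 : pfC (piC [(nat_lit 36888796), (nat_lit 24534081), (nat_lit 18263511), (nat_lit 12310016)] (nat_lit 20794417)) p15_27_0 (nat_lit 4) (nat_lit 51) (nat_lit 52) = true := by decide +kernel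
def p15_27_0_52 : pfC (piC [(nat_lit 36888796), (nat_lit 24534081), (nat_lit 18263511), (nat_lit 12310016)] (nat_lit 20794417)) p15_27_0 (nat_lit 4) (nat_lit 52) (nat_lit 53) = true := by decide +kernel
def p15_27_0_53 : pfC (piC [(nat_lit 36888796), (nat_lit 24534081), (nat_lit 18263511), (nat_lit 12310016)] (nat_lit 20794417)) p15_27_0 (nat_lit 4) (nat_lit 53) (nat_lit 54) = true := by decide +kernel
def p15_27_0_54 : pfC (piC [(nat_lit 36888796), (nat_lit 24534081), (nat_lit 18263511), (nat_lit 12310016)] (nat_lit 20794417)) p15_27_0 (nat_lit 4) (nat_lit 54) (nat_lit 55) = true := by decide +kernel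
def p15_27_0_55 : pfC (piC [(nat_lit 36888796), (nat_lit 24534081), (nat_lit 18263511), (nat_lit 12310016)] (nat_lit 20794417)) p15_27_0 (nat_lit 4) (nat_lit 55) (nat_lit 56) = true := by decide +kernel
def p15_27_0_56 : pfC (piC [(nat_lit 36888796), (nat_lit 24534081), (nat_lit 18263511), (nat_lit 12310016)] (nat_lit 20794417)) p15_27_0 (nat_lit 4) (nat_lit 56) (nat_lit 57) = true := by decide +kernel
def p15_27_0_57 : pfC (piC [(nat_lit 36888796), (nat_lit 24534081), (nat_lit 18263511), (nat_lit 12310016)] (nat_lit 20794417)) p15_27_0 (nat_lit 4) (nat_lit 57) (nat_lit 58) = true := by decide +kernel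
def p15_27_0_58 : pfC (piC [(nat_lit 36888796), (nat_lit 24534081), (nat_lit 18263511), (nat_lit 12310016)] (nat_lit 20794417)) p15_27_0 (nat_lit 4) (nat_lit 58) (nat_lit 59) = true := by decide +kernel
def p15_27_0_59 : pfC (piC [(nat_lit 36888796), (nat_lit 24534081), (nat_lit 18263511), (nat_lit 12310016)] (nat_lit 20794417)) p15_27_0 (nat_lit 4) (nat_lit 59) (nat_lit 60) = true := by decide +kernel
def p15_27_0_60 : pfC (piC [(nat_lit 36888796), (nat_lit 24534081), (nat_lit 18263511), (nat_lit 12310016)] (nat_lit 20794417)) p15_27_0 (nat_lit 4) (nat_lit 60) (nat_lit 61) = true := by decide +kernel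
def p15_27_0_61 : pfC (piC [(nat_lit 36888796), (nat_lit 24534081), (nat_lit 18263511), (nat_lit 12310016)] (nat_lit 20794417)) p15_27_0 (nat_lit 4) (nat_lit 61) (nat_lit 62) = true := by decide +kernel
def p15_27_0_62 : pfC (piC [(nat_lit 36888796), (nat_lit 24534081), (nat_lit 18263511), (nat_lit 12310016)] (nat_lit 20794417)) p15_27_0 (nat_lit 4) (nat_lit 62) (nat_lit 63) = true := by decide +kernel
def p15_27_0_63 : pfC (piC [(nat_lit 36888796), (nat_lit 24534081), (nat_lit 18263511), (nat_lit 12310016)] (nat_lit 20794417)) p15_27_0 (nat_lit 4) (nat_lit 63) (nat_lit 64) = true := by decide +kernel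
def p15_27_0_64 : pfC (piC [(nat_lit 36888796), (nat_lit 24534081), (nat_lit 18263511), (nat_lit 12310016)] (nat_lit 20794417)) p15_27_0 (nat_lit 4) (nat_lit 64) (nat_lit 65) = true := by decide +kernel
def p15_27_0_65 : pfC (piC [(nat_lit 36888796), (nat_lit 24534081), (nat_lit 18263511), (nat_lit 12310016)] (nat_lit 20794417)) p15_27_0 (nat_lit 4) (nat_lit 65) (nat_lit 66) = true := by decide +kernel
def p15_27_0_66 : pfC (piC [(nat_lit 36888796), (nat_lit 24534081), (nat_lit 18263511), (nat_lit 12310016)] (nat_lit 20794417)) p15_27_0 (nat_lit 4) (nat_lit 66) (nat_lit 67) = true := by decide +kernel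
def p15_27_0_67 : pfC (piC [(nat_lit 36888796), (nat_lit 24534081), (nat_lit 18263511), (nat_lit 12310016)] (nat_lit 20794417)) p15_27_0 (nat_lit 4) (nat_lit 67) (nat_lit 68) = true := by decide +kernel
def p15_27_0_68 : pfC (piC [(nat_lit 36888796), (nat_lit 24534081), (nat_lit 18263511), (nat_lit 12310016)] (nat_lit 20794417)) p15_27_0 (nat_lit 4) (nat_lit 68) (nat_lit 69) = true := by decide +kernel
def p15_27_0_69 : pfC (piC [(nat_lit 36888796), (nat_lit 24534081), (nat_lit 18263511), (nat_lit 12310016)] (nat_lit 20794417)) p15_27_0 (nat_lit 4) (nat_lit 69) (nat_lit 70) = true := by decide +kernel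
def p15_27_0_70 : pfC (piC [(nat_lit 36888796), (nat_lit 24534081), (nat_lit 18263511), (nat_lit 12310016)] (nat_lit 20794417)) p15_27_0 (nat_lit 4) (nat_lit 70) (nat_lit 71) = true := by decide +kernel
def p15_27_0_71 : pfC (piC [(nat_lit 36888796), (nat_lit 24534081), (nat_lit 18263511), (nat_lit 12310016)] (nat_lit 20794417)) p15_27_0 (nat_lit 4) (nat_lit 71) (nat_lit 72) = true := by decide +kernel
def p15_27_0_72 : pfC (piC [(nat_lit 36888796), (nat_lit 24534081), (nat_lit 18263511), (nat_lit 12310016)] (nat_lit 20794417)) p15_27_0 (nat_lit 4) (nat_lit 72) (nat_lit 73) = true := by decide +kernel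
def p15_27_0_73 : pfC (piC [(nat_lit 36888796), (nat_lit 24534081), (nat_lit 18263511), (nat_lit 12310016)] (nat_lit 20794417)) p15_27_0 (nat_lit 4) (nat_lit 73) (nat_lit 74) = true := by decide +kernel
def p15_27_0_74 : pfC (piC [(nat_lit 36888796), (nat_lit 24534081), (nat_lit 18263511), (nat_lit 12310016)] (nat_lit 20794417)) p15_27_0 (nat_lit 4) (nat_lit 74) (nat_lit 75) = true := by decide +kernel
def p15_27_0_75 : pfC (piC [(nat_lit 36888796), (nat_lit 24534081), (nat_lit 18263511), (nat_lit 12310016)] (nat_lit 20794417)) p15_27_0 (nat_lit 4) (nat_lit 75) (nat_lit 76) = true := by decide +kernel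
def p15_27_0_76 : pfC (piC [(nat_lit 36888796), (nat_lit 24534081), (nat_lit 18263511), (nat_lit 12310016)] (nat_lit 20794417)) p15_27_0 (nat_lit 4) (nat_lit 76) (nat_lit 77) = true := by decide +kernel
def p15_27_0_77 : pfC (piC [(nat_lit 36888796), (nat_lit 24534081), (nat_lit 18263511), (nat_lit 12310016)] (nat_lit 20794417)) p15_27_0 (nat_lit 4) (nat_lit 77) (nat_lit 78) = true := by decide +kernel
def p15_27_0_78 : pfC (piC [(nat_lit 36888796), (nat_lit 24534081), (nat_lit 18263511), (nat_lit 12310016)] (nat_lit 20794417)) p15_27_0 (nat_lit 4) (nat_lit 78) (nat_lit 79) = true := by decide +kernel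
def p15_27_0_79 : pfC (piC [(nat_lit 36888796), (nat_lit 24534081), (nat_lit 18263511), (nat_lit 12310016)] (nat_lit 20794417)) p15_27_0 (nat_lit 4) (nat_lit 79) (nat_lit 80) = true := by decide +kernel
def p15_27_0_80 : pfC (piC [(nat_lit 36888796), (nat_lit 24534081), (nat_lit 18263511), (nat_lit 12310016)] (nat_lit 20794417)) p15_27_0 (nat_lit 4) (nat_lit 80) (nat_lit 81) = true := by decide +kernel
def p15_27_0_81 : pfC (piC [(nat_lit 36888796), (nat_lit 24534081), (nat_lit 18263511), (nat_lit 12310016)] (nat_lit 20794417)) p15_27_0 (nat_lit 4) (nat_lit 81) (nat_lit 82) = true := by decide +kernel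
def p15_27_0_82 : pfC (piC [(nat_lit 36888796), (nat_lit 24534081), (nat_lit 18263511), (nat_lit 12310016)] (nat_lit 20794417)) p15_27_0 (nat_lit 4) (nat_lit 82) (nat_lit 83) = true := by decide +kernel
def p15_27_0_83 : pfC (piC [(nat_lit 36888796), (nat_lit 24534081), (nat_lit 18263511), (nat_lit 12310016)] (nat_lit 20794417)) p15_27_0 (nat_lit 4) (nat_lit 83) (nat_lit 84) = true := by decide +kernel
def p15_27_0_84 : pfC (piC [(nat_lit 36888796), (nat_lit 24534081), (nat_lit 18263511), (nat_lit 12310016)] (nat_lit 20794417)) p15_27_0 (nat_lit 4) (nat_lit 84) (nat_lit 85) = true := by decide +kernel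
def p15_27_0_85 : pfC (piC [(nat_lit 36888796), (nat_lit 24534081), (nat_lit 18263511), (nat_lit 12310016)] (nat_lit 20794417)) p15_27_0 (nat_lit 4) (nat_lit 85) (nat_lit 86) = true := by decide +kernel
def p15_27_0_86 : pfC (piC [(nat_lit 36888796), (nat_lit 24534081), (nat_lit 18263511), (nat_lit 12310016)] (nat_lit 20794417)) p15_27_0 (nat_lit 4) (nat_lit 86) (nat_lit 87) = true := by decide +kernel
def p15_27_0_87 : pfC (piC [(nat_lit 36888796), (nat_lit 24534081), (nat_lit 18263511), (nat_lit 12310016)] (nat_lit 20794417)) p15_27_0 (nat_lit 4) (nat_lit 87) (nat_lit 88) = true := by decide +kernel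
def p15_27_0_88 : pfC (piC [(nat_lit 36888796), (nat_lit 24534081), (nat_lit 18263511), (nat_lit 12310016)] (nat_lit 20794417)) p15_27_0 (nat_lit 4) (nat_lit 88) (nat_lit 89) = true := by decide +kernel
def p15_27_0_89 : pfC (piC [(nat_lit 36888796), (nat_lit 24534081), (nat_lit 18263511), (nat_lit 12310016)] (nat_lit 20794417)) p15_27_0 (nat_lit 4) (nat_lit 89) (nat_lit 90) = true := by decide +kernel
def p15_27_0_90 : pfC (piC [(nat_lit 36888796), (nat_lit 24534081), (nat_lit 18263511), (nat_lit 12310016)] (nat_lit 20794417)) p15_27_0 (nat_lit 4) (nat_lit 90) (nat_lit 91) = true := by decide +kernel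
def p15_27_0_91 : pfC (piC [(nat_lit 36888796), (nat_lit 24534081), (nat_lit 18263511), (nat_lit 12310016)] (nat_lit 20794417)) p15_27_0 (nat_lit 4) (nat_lit 91) (nat_lit 92) = true := by decide +kernel
def p15_27_0_92 : pfC (piC [(nat_lit 36888796), (nat_lit 24534081), (nat_lit 18263511), (nat_lit 12310016)] (nat_lit 20794417)) p15_27_0 (nat_lit 4) (nat_lit 92) (nat_lit 93) = true := by decide +kernel
def p15_27_0_93 : pfC (piC [(nat_lit 36888796), (nat_lit 24534081), (nat_lit 18263511), (nat_lit 12310016)] (nat_lit 20794417)) p15_27_0 (nat_lit 4) (nat_lit 93) (nat_lit 94) = true := by decide +kernel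
def p15_27_0_94 : pfC (piC [(nat_lit 36888796), (nat_lit 24534081), (nat_lit 18263511), (nat_lit 12310016)] (nat_lit 20794417)) p15_27_0 (nat_lit 4) (nat_lit 94) (nat_lit 95) = true := by decide +kernel
def p15_27_0_95 : pfC (piC [(nat_lit 36888796), (nat_lit 24534081), (nat_lit 18263511), (nat_lit 12310016)] (nat_lit 20794417)) p15_27_0 (nat_lit 4) (nat_lit 95) (nat_lit 96) = true := by decide +kernel
def p15_27_0_96 : pfC (piC [(nat_lit 36888796), (nat_lit 24534081), (nat_lit 18263511), (nat_lit 12310016)] (nat_lit 20794417)) p15_27_0 (nat_lit 4) (nat_lit 96) (nat_lit 97) = true := by decide +kernel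
def p15_27_0_97 : pfC (piC [(nat_lit 36888796), (nat_lit 24534081), (nat_lit 18263511), (nat_lit 12310016)] (nat_lit 20794417)) p15_27_0 (nat_lit 4) (nat_lit 97) (nat_lit 98) = true := by decide +kernel
def p15_27_0_98 : pfC (piC [(nat_lit 36888796), (nat_lit 24534081), (nat_lit 18263511), (nat_lit 12310016)] (nat_lit 20794417)) p15_27_0 (nat_lit 4) (nat_lit 98) (nat_lit 99) = true := by decide +kernel
def p15_27_0_99 : pfC (piC [(nat_lit 36888796), (nat_lit 24534081), (nat_lit 18263511), (nat_lit 12310016)] (nat_lit 20794417)) p15_27_0 (nat_lit 4) (nat_lit 99) (nat_lit 100) = true := by decide +kernel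
def p15_27_0_100 : pfC (piC [(nat_lit 36888796), (nat_lit 24534081), (nat_lit 18263511), (nat_lit 12310016)] (nat_lit 20794417)) p15_27_0 (nat_lit 4) (nat_lit 100) (nat_lit 101) = true := by decide +kernel
def p15_27_0_101 : pfC (piC [(nat_lit 36888796), (nat_lit 24534081), (nat_lit 18263511), (nat_lit 12310016)] (nat_lit 20794417)) p15_27_0 (nat_lit 4) (nat_lit 101) (nat_lit 102) = true := by decide +kernel
def p15_27_0_102 : pfC (piC [(nat_lit 36888796), (nat_lit 24534081), (nat_lit 18263511), (nat_lit 12310016)] (nat_lit 20794417)) p15_27_0 (nat_lit 4) (nat_lit 102) (nat_lit 103) = true := by decide +kernel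
def p15_27_0_103 : pfC (piC [(nat_lit 36888796), (nat_lit 24534081), (nat_lit 18263511), (nat_lit 12310016)] (nat_lit 20794417)) p15_27_0 (nat_lit 4) (nat_lit 103) (nat_lit 104) = true := by decide +kernel
def p15_27_0_104 : pfC (piC [(nat_lit 36888796), (nat_lit 24534081), (nat_lit 18263511), (nat_lit 12310016)] (nat_lit 20794417)) p15_27_0 (nat_lit 4) (nat_lit 104) (nat_lit 105) = true := by decide +kernel
def p15_27_0_105 : pfC (piC [(nat_lit 36888796), (nat_lit 24534081), (nat_lit 18263511), (nat_lit 12310016)] (nat_lit 20794417)) p15_27_0 (nat_lit 4) (nat_lit 105) (nat_lit 106) = true := by decide +kernel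
def p15_27_0_106 : pfC (piC [(nat_lit 36888796), (nat_lit 24534081), (nat_lit 18263511), (nat_lit 12310016)] (nat_lit 20794417)) p15_27_0 (nat_lit 4) (nat_lit 106) (nat_lit 107) = true := by decide +kernel
def p15_27_0_107 : pfC (piC [(nat_lit 36888796), (nat_lit 24534081), (nat_lit 18263511), (nat_lit 12310016)] (nat_lit 20794417)) p15_27_0 (nat_lit 4) (nat_lit 107) (nat_lit 108) = true := by decide +kernel
def p15_27_0_108 : pfC (piC [(nat_lit 36888796), (nat_lit 24534081), (nat_lit 18263511), (nat_lit 12310016)] (nat_lit 20794417)) p15_27_0 (nat_lit 4) (nat_lit 108) (nat_lit 109) = true := by decide +kernel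
def p15_27_0_109 : pfC (piC [(nat_lit 36888796), (nat_lit 24534081), (nat_lit 18263511), (nat_lit 12310016)] (nat_lit 20794417)) p15_27_0 (nat_lit 4) (nat_lit 109) (nat_lit 110) = true := by decide +kernel
def p15_27_0_110 : pfC (piC [(nat_lit 36888796), (nat_lit 24534081), (nat_lit 18263511), (nat_lit 12310016)] (nat_lit 20794417)) p15_27_0 (nat_lit 4) (nat_lit 110) (nat_lit 111) = true := by decide +kernel
def p15_27_0_111 : pfC (piC [(nat_lit 36888796), (nat_lit 24534081), (nat_lit 18263511), (nat_lit 12310016)] (nat_lit 20794417)) p15_27_0 (nat_lit 4) (nat_lit 111) (nat_lit 112) = true := by decide +kernel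
def p15_27_0_112 : pfC (piC [(nat_lit 36888796), (nat_lit 24534081), (nat_lit 18263511), (nat_lit 12310016)] (nat_lit 20794417)) p15_27_0 (nat_lit 4) (nat_lit 112) (nat_lit 113) = true := by decide +kernel
def p15_27_0_113 : pfC (piC [(nat_lit 36888796), (nat_lit 24534081), (nat_lit 18263511), (nat_lit 12310016)] (nat_lit 20794417)) p15_27_0 (nat_lit 4) (nat_lit 113) (nat_lit 114) = true := by decide +kernel
def p15_27_0_114 : pfC (piC [(nat_lit 36888796), (nat_lit 24534081), (nat_lit 18263511), (nat_lit 12310016)] (nat_lit 20794417)) p15_27_0 (nat_lit 4) (nat_lit 114) (nat_lit 115) = true := by decide +kernel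
def p15_27_0_115 : pfC (piC [(nat_lit 36888796), (nat_lit 24534081), (nat_lit 18263511), (nat_lit 12310016)] (nat_lit 20794417)) p15_27_0 (nat_lit 4) (nat_lit 115) (nat_lit 116) = true := by decide +kernel
def p15_27_0_116 : pfC (piC [(nat_lit 36888796), (nat_lit 24534081), (nat_lit 18263511), (nat_lit 12310016)] (nat_lit 20794417)) p15_27_0 (nat_lit 4) (nat_lit 116) (nat_lit 117) = true := by decide +kernel
def p15_27_0_117 : pfC (piC [(nat_lit 36888796), (nat_lit 24534081), (nat_lit 18263511), (nat_lit 12310016)] (nat_lit 20794417)) p15_27_0 (nat_lit 4) (nat_lit 117) (nat_lit 118) = true := by decide +kernel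
def p15_27_0_118 : pfC (piC [(nat_lit 36888796), (nat_lit 24534081), (nat_lit 18263511), (nat_lit 12310016)] (nat_lit 20794417)) p15_27_0 (nat_lit 4) (nat_lit 118) (nat_lit 119) = true := by decide +kernel
def p15_27_0_119 : pfC (piC [(nat_lit 36888796), (nat_lit 24534081), (nat_lit 18263511), (nat_lit 12310016)] (nat_lit 20794417)) p15_27_0 (nat_lit 4) (nat_lit 119) (nat_lit 120) = true := by decide +kernel
def p15_27_0_120 : pfC (piC [(nat_lit 36888796), (nat_lit 24534081), (nat_lit 18263511), (nat_lit 12310016)] (nat_lit 20794417)) p15_27_0 (nat_lit 4) (nat_lit 120) (nat_lit 121) = true := by decide +kernel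
def p15_27_0_121 : pfC (piC [(nat_lit 36888796), (nat_lit 24534081), (nat_lit 18263511), (nat_lit 12310016)] (nat_lit 20794417)) p15_27_0 (nat_lit 4) (nat_lit 121) (nat_lit 122) = true := by decide +kernel
def p15_27_0_122 : pfC (piC [(nat_lit 36888796), (nat_lit 24534081), (nat_lit 18263511), (nat_lit 12310016)] (nat_lit 20794417)) p15_27_0 (nat_lit 4) (nat_lit 122) (nat_lit 123) = true := by decide +kernel
def p15_27_0_123 : pfC (piC [(nat_lit 36888796), (nat_lit 24534081), (nat_lit 18263511), (nat_lit 12310016)] (nat_lit 20794417)) p15_27_0 (nat_lit 4) (nat_lit 123) (nat_lit 124) = true := by decide +kernel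
def p15_27_0_124 : pfC (piC [(nat_lit 36888796), (nat_lit 24534081), (nat_lit 18263511), (nat_lit 12310016)] (nat_lit 20794417)) p15_27_0 (nat_lit 4) (nat_lit 124) (nat_lit 125) = true := by decide +kernel
def p15_27_0_125 : pfC (piC [(nat_lit 36888796), (nat_lit 24534081), (nat_lit 18263511), (nat_lit 12310016)] (nat_lit 20794417)) p15_27_0 (nat_lit 4) (nat_lit 125) (nat_lit 126) = true := by decide +kernel
def p15_27_0_126 : pfC (piC [(nat_lit 36888796), (nat_lit 24534081), (nat_lit 18263511), (nat_lit 12310016)] (nat_lit 20794417)) p15_27_0 (nat_lit 4) (nat_lit 126) (nat_lit 127) = true := by decide +kernel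
def p15_27_0_127 : pfC (piC [(nat_lit 36888796), (nat_lit 24534081), (nat_lit 18263511), (nat_lit 12310016)] (nat_lit 20794417)) p15_27_0 (nat_lit 4) (nat_lit 127) (nat_lit 128) = true := by decide +kernel
def p15_27_0_128 : pfC (piC [(nat_lit 36888796), (nat_lit 24534081), (nat_lit 18263511), (nat_lit 12310016)] (nat_lit 20794417)) p15_27_0 (nat_lit 4) (nat_lit 128) (nat_lit 129) = true := by decide +kernel
def p15_27_0_129 : pfC (piC [(nat_lit 36888796), (nat_lit 24534081), (nat_lit 18263511), (nat_lit 12310016)] (nat_lit 20794417)) p15_27_0 (nat_lit 4) (nat_lit 129) (nat_lit 130) = true := by decide +kernel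
def p15_27_0_130 : pfC (piC [(nat_lit 36888796), (nat_lit 24534081), (nat_lit 18263511), (nat_lit 12310016)] (nat_lit 20794417)) p15_27_0 (nat_lit 4) (nat_lit 130) (nat_lit 131) = true := by decide +kernel
def p15_27_0_131 : pfC (piC [(nat_lit 36888796), (nat_lit 24534081), (nat_lit 18263511), (nat_lit 12310016)] (nat_lit 20794417)) p15_27_0 (nat_lit 4) (nat_lit 131) (nat_lit 132) = true := by decide +kernel
def p15_27_0_132 : pfC (piC [(nat_lit 36888796), (nat_lit 24534081), (nat_lit 18263511), (nat_lit 12310016)] (nat_lit 20794417)) p15_27_0 (nat_lit 4) (nat_lit 132) (nat_lit 133) = true := by decide +kernel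
def p15_27_0_133 : pfC (piC [(nat_lit 36888796), (nat_lit 24534081), (nat_lit 18263511), (nat_lit 12310016)] (nat_lit 20794417)) p15_27_0 (nat_lit 4) (nat_lit 133) (nat_lit 134) = true := by decide +kernel
def p15_27_0_134 : pfC (piC [(nat_lit 36888796), (nat_lit 24534081), (nat_lit 18263511), (nat_lit 12310016)] (nat_lit 20794417)) p15_27_0 (nat_lit 4) (nat_lit 134) (nat_lit 135) = true := by decide +kernel
def p15_27_0_135 : pfC (piC [(nat_lit 36888796), (nat_lit 24534081), (nat_lit 18263511), (nat_lit 12310016)] (nat_lit 20794417)) p15_27_0 (nat_lit 4) (nat_lit 135) (nat_lit 136) = true := by decide +kernel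
def p15_27_0_136 : pfC (piC [(nat_lit 36888796), (nat_lit 24534081), (nat_lit 18263511), (nat_lit 12310016)] (nat_lit 20794417)) p15_27_0 (nat_lit 4) (nat_lit 136) (nat_lit 137) = true := by decide +kernel
def p15_27_0_137 : pfC (piC [(nat_lit 36888796), (nat_lit 24534081), (nat_lit 18263511), (nat_lit 12310016)] (nat_lit 20794417)) p15_27_0 (nat_lit 4) (nat_lit 137) (nat_lit 138) = true := by decide +kernel
def p15_27_0_138 : pfC (piC [(nat_lit 36888796), (nat_lit 24534081), (nat_lit 18263511), (nat_lit 12310016)] (nat_lit 20794417)) p15_27_0 (nat_lit 4) (nat_lit 138) (nat_lit 139) = true := by decide +kernel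
def p15_27_0_139 : pfC (piC [(nat_lit 36888796), (nat_lit 24534081), (nat_lit 18263511), (nat_lit 12310016)] (nat_lit 20794417)) p15_27_0 (nat_lit 4) (nat_lit 139) (nat_lit 140) = true := by decide +kernel
def p15_27_0_140 : pfC (piC [(nat_lit 36888796), (nat_lit 24534081), (nat_lit 18263511), (nat_lit 12310016)] (nat_lit 20794417)) p15_27_0 (nat_lit 4) (nat_lit 140) (nat_lit 141) = true := by decide +kernel
def p15_27_0_141 : pfC (piC [(nat_lit 36888796), (nat_lit 24534081), (nat_lit 18263511), (nat_lit 12310016)] (nat_lit 20794417)) p15_27_0 (nat_lit 4) (nat_lit 141) (nat_lit 142) = true := by decide +kernel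
def p15_27_0_142 : pfC (piC [(nat_lit 36888796), (nat_lit 24534081), (nat_lit 18263511), (nat_lit 12310016)] (nat_lit 20794417)) p15_27_0 (nat_lit 4) (nat_lit 142) (nat_lit 143) = true := by decide +kernel
def p15_27_0_143 : pfC (piC [(nat_lit 36888796), (nat_lit 24534081), (nat_lit 18263511), (nat_lit 12310016)] (nat_lit 20794417)) p15_27_0 (nat_lit 4) (nat_lit 143) (nat_lit 144) = true := by decide +kernel
def p15_27_0_144 : pfC (piC [(nat_lit 36888796), (nat_lit 24534081), (nat_lit 18263511), (nat_lit 12310016)] (nat_lit 20794417)) p15_27_0 (nat_lit 4) (nat_lit 144) (nat_lit 145) = true := by decide +kernel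
def p15_27_0_145 : pfC (piC [(nat_lit 36888796), (nat_lit 24534081), (nat_lit 18263511), (nat_lit 12310016)] (nat_lit 20794417)) p15_27_0 (nat_lit 4) (nat_lit 145) (nat_lit 146) = true := by decide +kernel
def p15_27_0_146 : pfC (piC [(nat_lit 36888796), (nat_lit 24534081), (nat_lit 18263511), (nat_lit 12310016)] (nat_lit 20794417)) p15_27_0 (nat_lit 4) (nat_lit 146) (nat_lit 147) = true := by decide +kernel
def p15_27_0_147 : pfC (piC [(nat_lit 36888796), (nat_lit 24534081), (nat_lit 18263511), (nat_lit 12310016)] (nat_lit 20794417)) p15_27_0 (nat_lit 4) (nat_lit 147) (nat_lit 148) = true := by decide +kernel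
def p15_27_0_148 : pfC (piC [(nat_lit 36888796), (nat_lit 24534081), (nat_lit 18263511), (nat_lit 12310016)] (nat_lit 20794417)) p15_27_0 (nat_lit 4) (nat_lit 148) (nat_lit 149) = true := by decide +kernel
def p15_27_0_149 : pfC (piC [(nat_lit 36888796), (nat_lit 24534081), (nat_lit 18263511), (nat_lit 12310016)] (nat_lit 20794417)) p15_27_0 (nat_lit 4) (nat_lit 149) (nat_lit 150) = true := by decide +kernel
def p15_27_0_150 : pfC (piC [(nat_lit 36888796), (nat_lit 24534081), (nat_lit 18263511), (nat_lit 12310016)] (nat_lit 20794417)) p15_27_0 (nat_lit 4) (nat_lit 150) (nat_lit 151) = true := by decide +kernel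
def p15_27_0_151 : pfC (piC [(nat_lit 36888796), (nat_lit 24534081), (nat_lit 18263511), (nat_lit 12310016)] (nat_lit 20794417)) p15_27_0 (nat_lit 4) (nat_lit 151) (nat_lit 152) = true := by decide +kernel
def p15_27_0_152 : pfC (piC [(nat_lit 36888796), (nat_lit 24534081), (nat_lit 18263511), (nat_lit 12310016)] (nat_lit 20794417)) p15_27_0 (nat_lit 4) (nat_lit 152) (nat_lit 153) = true := by decide +kernel
def p15_27_0_153 : pfC (piC [(nat_lit 36888796), (nat_lit 24534081), (nat_lit 18263511), (nat_lit 12310016)] (nat_lit 20794417)) p15_27_0 (nat_lit 4) (nat_lit 153) (nat_lit 154) = true := by decide +kernel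
def p15_27_0_154 : pfC (piC [(nat_lit 36888796), (nat_lit 24534081), (nat_lit 18263511), (nat_lit 12310016)] (nat_lit 20794417)) p15_27_0 (nat_lit 4) (nat_lit 154) (nat_lit 155) = true := by decide +kernel
def p15_27_0_155 : pfC (piC [(nat_lit 36888796), (nat_lit 24534081), (nat_lit 18263511), (nat_lit 12310016)] (nat_lit 20794417)) p15_27_0 (nat_lit 4) (nat_lit 155) (nat_lit 156) = true := by decide +kernel
def p15_27_0_156 : pfC (piC [(nat_lit 36888796), (nat_lit 24534081), (nat_lit 18263511), (nat_lit 12310016)] (nat_lit 20794417)) p15_27_0 (nat_lit 4) (nat_lit 156) (nat_lit 157) = true := by decide +kernel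
def p15_27_0_157 : pfC (piC [(nat_lit 36888796), (nat_lit 24534081), (nat_lit 18263511), (nat_lit 12310016)] (nat_lit 20794417)) p15_27_0 (nat_lit 4) (nat_lit 157) (nat_lit 158) = true := by decide +kernel
def p15_27_0_158 : pfC (piC [(nat_lit 36888796), (nat_lit 24534081), (nat_lit 18263511), (nat_lit 12310016)] (nat_lit 20794417)) p15_27_0 (nat_lit 4) (nat_lit 158) (nat_lit 159) = true := by decide +kernel
def p15_27_0_159 : pfC (piC [(nat_lit 36888796), (nat_lit 24534081), (nat_lit 18263511), (nat_lit 12310016)] (nat_lit 20794417)) p15_27_0 (nat_lit 4) (nat_lit 159) (nat_lit 160) = true := by decide +kernel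
def p15_27_0_160 : pfC (piC [(nat_lit 36888796), (nat_lit 24534081), (nat_lit 18263511), (nat_lit 12310016)] (nat_lit 20794417)) p15_27_0 (nat_lit 4) (nat_lit 160) (nat_lit 161) = true := by decide +kernel
def p15_27_0_161 : pfC (piC [(nat_lit 36888796), (nat_lit 24534081), (nat_lit 18263511), (nat_lit 12310016)] (nat_lit 20794417)) p15_27_0 (nat_lit 4) (nat_lit 161) (nat_lit 162) = true := by decide +kernel
def p15_27_0_162 : pfC (piC [(nat_lit 36888796), (nat_lit 24534081), (nat_lit 18263511), (nat_lit 12310016)] (nat_lit 20794417)) p15_27_0 (nat_lit 4) (nat_lit 162) (nat_lit 163) = true := by decide +kernel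
def p15_27_0_163 : pfC (piC [(nat_lit 36888796), (nat_lit 24534081), (nat_lit 18263511), (nat_lit 12310016)] (nat_lit 20794417)) p15_27_0 (nat_lit 4) (nat_lit 163) (nat_lit 164) = true := by decide +kernel
def p15_27_0_164 : pfC (piC [(nat_lit 36888796), (nat_lit 24534081), (nat_lit 18263511), (nat_lit 12310016)] (nat_lit 20794417)) p15_27_0 (nat_lit 4) (nat_lit 164) (nat_lit 165) = true := by decide +kernel
def p15_27_0_165 : pfC (piC [(nat_lit 36888796), (nat_lit 24534081), (nat_lit 18263511), (nat_lit 12310016)] (nat_lit 20794417)) p15_27_0 (nat_lit 4) (nat_lit 165) (nat_lit 166) = true := by decide +kernel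
def p15_27_0_166 : pfC (piC [(nat_lit 36888796), (nat_lit 24534081), (nat_lit 18263511), (nat_lit 12310016)] (nat_lit 20794417)) p15_27_0 (nat_lit 4) (nat_lit 166) (nat_lit 167) = true := by decide +kernel
def p15_27_0_167 : pfC (piC [(nat_lit 36888796), (nat_lit 24534081), (nat_lit 18263511), (nat_lit 12310016)] (nat_lit 20794417)) p15_27_0 (nat_lit 4) (nat_lit 167) (nat_lit 168) = true := by decide +kernel
def p15_27_0_168 : pfC (piC [(nat_lit 36888796), (nat_lit 24534081), (nat_lit 18263511), (nat_lit 12310016)] (nat_lit 20794417)) p15_27_0 (nat_lit 4) (nat_lit 168) (nat_lit 169) = true := by decide +kernel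
def p15_27_0_169 : pfC (piC [(nat_lit 36888796), (nat_lit 24534081), (nat_lit 18263511), (nat_lit 12310016)] (nat_lit 20794417)) p15_27_0 (nat_lit 4) (nat_lit 169) (nat_lit 170) = true := by decide +kernel
def p15_27_0_170 : pfC (piC [(nat_lit 36888796), (nat_lit 24534081), (nat_lit 18263511), (nat_lit 12310016)] (nat_lit 20794417)) p15_27_0 (nat_lit 4) (nat_lit 170) (nat_lit 171) = true := by decide +kernel
def p15_27_0_171 : pfC (piC [(nat_lit 36888796), (nat_lit 24534081), (nat_lit 18263511), (nat_lit 12310016)] (nat_lit 20794417)) p15_27_0 (nat_lit 4) (nat_lit 171) (nat_lit 172) = true := by decide +kernel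
def p15_27_0_172 : pfC (piC [(nat_lit 36888796), (nat_lit 24534081), (nat_lit 18263511), (nat_lit 12310016)] (nat_lit 20794417)) p15_27_0 (nat_lit 4) (nat_lit 172) (nat_lit 173) = true := by decide +kernel
def p15_27_0_173 : pfC (piC [(nat_lit 36888796), (nat_lit 24534081), (nat_lit 18263511), (nat_lit 12310016)] (nat_lit 20794417)) p15_27_0 (nat_lit 4) (nat_lit 173) (nat_lit 174) = true := by decide +kernel
def p15_27_0_174 : pfC (piC [(nat_lit 36888796), (nat_lit 24534081), (nat_lit 18263511), (nat_lit 12310016)] (nat_lit 20794417)) p15_27_0 (nat_lit 4) (nat_lit 174) (nat_lit 175) = true := by decide +kernel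
def p15_27_0_175 : pfC (piC [(nat_lit 36888796), (nat_lit 24534081), (nat_lit 18263511), (nat_lit 12310016)] (nat_lit 20794417)) p15_27_0 (nat_lit 4) (nat_lit 175) (nat_lit 176) = true := by decide +kernel
def p15_27_0_176 : pfC (piC [(nat_lit 36888796), (nat_lit 24534081), (nat_lit 18263511), (nat_lit 12310016)] (nat_lit 20794417)) p15_27_0 (nat_lit 4) (nat_lit 176) (nat_lit 177) = true := by decide +kernel
def p15_27_0_177 : pfC (piC [(nat_lit 36888796), (nat_lit 24534081), (nat_lit 18263511), (nat_lit 12310016)] (nat_lit 20794417)) p15_27_0 (nat_lit 4) (nat_lit 177) (nat_lit 178) = true := by decide +kernel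
def p15_27_0_178 : pfC (piC [(nat_lit 36888796), (nat_lit 24534081), (nat_lit 18263511), (nat_lit 12310016)] (nat_lit 20794417)) p15_27_0 (nat_lit 4) (nat_lit 178) (nat_lit 179) = true := by decide +kernel
def p15_27_0_179 : pfC (piC [(nat_lit 36888796), (nat_lit 24534081), (nat_lit 18263511), (nat_lit 12310016)] (nat_lit 20794417)) p15_27_0 (nat_lit 4) (nat_lit 179) (nat_lit 180) = true := by decide +kernel
def p15_27_0_180 : pfC (piC [(nat_lit 36888796), (nat_lit 24534081), (nat_lit 18263511), (nat_lit 12310016)] (nat_lit 20794417)) p15_27_0 (nat_lit 4) (nat_lit 180) (nat_lit 181) = true := by decide +kernel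
def p15_27_0_181 : pfC (piC [(nat_lit 36888796), (nat_lit 24534081), (nat_lit 18263511), (nat_lit 12310016)] (nat_lit 20794417)) p15_27_0 (nat_lit 4) (nat_lit 181) (nat_lit 182) = true := by decide +kernel
def p15_27_0_182 : pfC (piC [(nat_lit 36888796), (nat_lit 24534081), (nat_lit 18263511), (nat_lit 12310016)] (nat_lit 20794417)) p15_27_0 (nat_lit 4) (nat_lit 182) (nat_lit 183) = true := by decide +kernel
def p15_27_0_183 : pfC (piC [(nat_lit 36888796), (nat_lit 24534081), (nat_lit 18263511), (nat_lit 12310016)] (nat_lit 20794417)) p15_27_0 (nat_lit 4) (nat_lit 183) (nat_lit 184) = true := by decide +kernel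
def p15_27_0_184 : pfC (piC [(nat_lit 36888796), (nat_lit 24534081), (nat_lit 18263511), (nat_lit 12310016)] (nat_lit 20794417)) p15_27_0 (nat_lit 4) (nat_lit 184) (nat_lit 185) = true := by decide +kernel
def p15_27_0_185 : pfC (piC [(nat_lit 36888796), (nat_lit 24534081), (nat_lit 18263511), (nat_lit 12310016)] (nat_lit 20794417)) p15_27_0 (nat_lit 4) (nat_lit 185) (nat_lit 186) = true := by decide +kernel
def p15_27_0_186 : pfC (piC [(nat_lit 36888796), (nat_lit 24534081), (nat_lit 18263511), (nat_lit 12310016)] (nat_lit 20794417)) p15_27_0 (nat_lit 4) (nat_lit 186) (nat_lit 187) = true := by decide +kernel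
def p15_27_0_187 : pfC (piC [(nat_lit 36888796), (nat_lit 24534081), (nat_lit 18263511), (nat_lit 12310016)] (nat_lit 20794417)) p15_27_0 (nat_lit 4) (nat_lit 187) (nat_lit 188) = true := by decide +kernel
def p15_27_0_188 : pfC (piC [(nat_lit 36888796), (nat_lit 24534081), (nat_lit 18263511), (nat_lit 12310016)] (nat_lit 20794417)) p15_27_0 (nat_lit 4) (nat_lit 188) (nat_lit 189) = true := by decide +kernel
def p15_27_0_189 : pfC (piC [(nat_lit 36888796), (nat_lit 24534081), (nat_lit 18263511), (nat_lit 12310016)] (nat_lit 20794417)) p15_27_0 (nat_lit 4) (nat_lit 189) (nat_lit 190) = true := by decide +kernel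
def p15_27_0_190 : pfC (piC [(nat_lit 36888796), (nat_lit 24534081), (nat_lit 18263511), (nat_lit 12310016)] (nat_lit 20794417)) p15_27_0 (nat_lit 4) (nat_lit 190) (nat_lit 191) = true := by decide +kernel
def p15_27_0_191 : pfC (piC [(nat_lit 36888796), (nat_lit 24534081), (nat_lit 18263511), (nat_lit 12310016)] (nat_lit 20794417)) p15_27_0 (nat_lit 4) (nat_lit 191) (nat_lit 192) = true := by decide +kernel
def p15_27_0_192 : pfC (piC [(nat_lit 36888796), (nat_lit 24534081), (nat_lit 18263511), (nat_lit 12310016)] (nat_lit 20794417)) p15_27_0 (nat_lit 4) (nat_lit 192) (nat_lit 193) = true := by decide +kernel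
def p15_27_0_193 : pfC (piC [(nat_lit 36888796), (nat_lit 24534081), (nat_lit 18263511), (nat_lit 12310016)] (nat_lit 20794417)) p15_27_0 (nat_lit 4) (nat_lit 193) (nat_lit 194) = true := by decide +kernel
def p15_27_0_194 : pfC (piC [(nat_lit 36888796), (nat_lit 24534081), (nat_lit 18263511), (nat_lit 12310016)] (nat_lit 20794417)) p15_27_0 (nat_lit 4) (nat_lit 194) (nat_lit 195) = true := by decide +kernel
def p15_27_0_195 : pfC (piC [(nat_lit 36888796), (nat_lit 24534081), (nat_lit 18263511), (nat_lit 12310016)] (nat_lit 20794417)) p15_27_0 (nat_lit 4) (nat_lit 195) (nat_lit 196) = true := by decide +kernel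
def p15_27_0_196 : pfC (piC [(nat_lit 36888796), (nat_lit 24534081), (nat_lit 18263511), (nat_lit 12310016)] (nat_lit 20794417)) p15_27_0 (nat_lit 4) (nat_lit 196) (nat_lit 197) = true := by decide +kernel
def p15_27_0_197 : pfC (piC [(nat_lit 36888796), (nat_lit 24534081), (nat_lit 18263511), (nat_lit 12310016)] (nat_lit 20794417)) p15_27_0 (nat_lit 4) (nat_lit 197) (nat_lit 198) = true := by decide +kernel
def p15_27_0_198 : pfC (piC [(nat_lit 36888796), (nat_lit 24534081), (nat_lit 18263511), (nat_lit 12310016)] (nat_lit 20794417)) p15_27_0 (nat_lit 4) (nat_lit 198) (nat_lit 199) = true := by decide +kernel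
def p15_27_0_199 : pfC (piC [(nat_lit 36888796), (nat_lit 24534081), (nat_lit 18263511), (nat_lit 12310016)] (nat_lit 20794417)) p15_27_0 (nat_lit 4) (nat_lit 199) (nat_lit 200) = true := by decide +kernel
def p15_27_0_200 : pfC (piC [(nat_lit 36888796), (nat_lit 24534081), (nat_lit 18263511), (nat_lit 12310016)] (nat_lit 20794417)) p15_27_0 (nat_lit 4) (nat_lit 200) (nat_lit 201) = true := by decide +kernel
def p15_27_0_201 : pfC (piC [(nat_lit 36888796), (nat_lit 24534081), (nat_lit 18263511), (nat_lit 12310016)] (nat_lit 20794417)) p15_27_0 (nat_lit 4) (nat_lit 201) (nat_lit 202) = true := by decide +kernel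
def p15_27_0_202 : pfC (piC [(nat_lit 36888796), (nat_lit 24534081), (nat_lit 18263511), (nat_lit 12310016)] (nat_lit 20794417)) p15_27_0 (nat_lit 4) (nat_lit 202) (nat_lit 203) = true := by decide +kernel
def p15_27_0_203 : pfC (piC [(nat_lit 36888796), (nat_lit 24534081), (nat_lit 18263511), (nat_lit 12310016)] (nat_lit 20794417)) p15_27_0 (nat_lit 4) (nat_lit 203) (nat_lit 204) = true := by decide +kernel
def p15_27_0_204 : pfC (piC [(nat_lit 36888796), (nat_lit 24534081), (nat_lit 18263511), (nat_lit 12310016)] (nat_lit 20794417)) p15_27_0 (nat_lit 4) (nat_lit 204) (nat_lit 205) = true := by decide +kernel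
def p15_27_0_205 : pfC (piC [(nat_lit 36888796), (nat_lit 24534081), (nat_lit 18263511), (nat_lit 12310016)] (nat_lit 20794417)) p15_27_0 (nat_lit 4) (nat_lit 205) (nat_lit 206) = true := by decide +kernel
def p15_27_0_206 : pfC (piC [(nat_lit 36888796), (nat_lit 24534081), (nat_lit 18263511), (nat_lit 12310016)] (nat_lit 20794417)) p15_27_0 (nat_lit 4) (nat_lit 206) (nat_lit 207) = true := by decide +kernel
def p15_27_0_207 : pfC (piC [(nat_lit 36888796), (nat_lit 24534081), (nat_lit 18263511), (nat_lit 12310016)] (nat_lit 20794417)) p15_27_0 (nat_lit 4) (nat_lit 207) (nat_lit 208) = true := by decide +kernel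
def p15_27_0_208 : pfC (piC [(nat_lit 36888796), (nat_lit 24534081), (nat_lit 18263511), (nat_lit 12310016)] (nat_lit 20794417)) p15_27_0 (nat_lit 4) (nat_lit 208) (nat_lit 209) = true := by decide +kernel
def p15_27_0_209 : pfC (piC [(nat_lit 36888796), (nat_lit 24534081), (nat_lit 18263511), (nat_lit 12310016)] (nat_lit 20794417)) p15_27_0 (nat_lit 4) (nat_lit 209) (nat_lit 210) = true := by decide +kernel
def p15_27_0_210 : pfC (piC [(nat_lit 36888796), (nat_lit 24534081), (nat_lit 18263511), (nat_lit 12310016)] (nat_lit 20794417)) p15_27_0 (nat_lit 4) (nat_lit 210) (nat_lit 211) = true := by decide +kernel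
def p15_27_0_211 : pfC (piC [(nat_lit 36888796), (nat_lit 24534081), (nat_lit 18263511), (nat_lit 12310016)] (nat_lit 20794417)) p15_27_0 (nat_lit 4) (nat_lit 211) (nat_lit 212) = true := by decide +kernel
def p15_27_0_212 : pfC (piC [(nat_lit 36888796), (nat_lit 24534081), (nat_lit 18263511), (nat_lit 12310016)] (nat_lit 20794417)) p15_27_0 (nat_lit 4) (nat_lit 212) (nat_lit 213) = true := by decide +kernel
def p15_27_0_213 : pfC (piC [(nat_lit 36888796), (nat_lit 24534081), (nat_lit 18263511), (nat_lit 12310016)] (nat_lit 20794417)) p15_27_0 (nat_lit 4) (nat_lit 213) (nat_lit 214) = true := by decide +kernel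
def p15_27_0_214 : pfC (piC [(nat_lit 36888796), (nat_lit 24534081), (nat_lit 18263511), (nat_lit 12310016)] (nat_lit 20794417)) p15_27_0 (nat_lit 4) (nat_lit 214) (nat_lit 215) = true := by decide +kernel
def p15_27_0_215 : pfC (piC [(nat_lit 36888796), (nat_lit 24534081), (nat_lit 18263511), (nat_lit 12310016)] (nat_lit 20794417)) p15_27_0 (nat_lit 4) (nat_lit 215) (nat_lit 216) = true := by decide +kernel
def p15_27_0_216 : pfC (piC [(nat_lit 36888796), (nat_lit 24534081), (nat_lit 18263511), (nat_lit 12310016)] (nat_lit 20794417)) p15_27_0 (nat_lit 4) (nat_lit 216) (nat_lit 217) = true := by decide +kernel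
def p15_27_0_217 : pfC (piC [(nat_lit 36888796), (nat_lit 24534081), (nat_lit 18263511), (nat_lit 12310016)] (nat_lit 20794417)) p15_27_0 (nat_lit 4) (nat_lit 217) (nat_lit 218) = true := by decide +kernel
def p15_27_0_218 : pfC (piC [(nat_lit 36888796), (nat_lit 24534081), (nat_lit 18263511), (nat_lit 12310016)] (nat_lit 20794417)) p15_27_0 (nat_lit 4) (nat_lit 218) (nat_lit 219) = true := by decide +kernel
def p15_27_0_219 : pfC (piC [(nat_lit 36888796), (nat_lit 24534081), (nat_lit 18263511), (nat_lit 12310016)] (nat_lit 20794417)) p15_27_0 (nat_lit 4) (nat_lit 219) (nat_lit 220) = true := by decide +kernel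
def p15_27_0_220 : pfC (piC [(nat_lit 36888796), (nat_lit 24534081), (nat_lit 18263511), (nat_lit 12310016)] (nat_lit 20794417)) p15_27_0 (nat_lit 4) (nat_lit 220) (nat_lit 221) = true := by decide +kernel
def p15_27_0_221 : pfC (piC [(nat_lit 36888796), (nat_lit 24534081), (nat_lit 18263511), (nat_lit 12310016)] (nat_lit 20794417)) p15_27_0 (nat_lit 4) (nat_lit 221) (nat_lit 222) = true := by decide +kernel
def p15_27_0_222 : pfC (piC [(nat_lit 36888796), (nat_lit 24534081), (nat_lit 18263511), (nat_lit 12310016)] (nat_lit 20794417)) p15_27_0 (nat_lit 4) (nat_lit 222) (nat_lit 223) = true := by decide +kernel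
def p15_27_0_223 : pfC (piC [(nat_lit 36888796), (nat_lit 24534081), (nat_lit 18263511), (nat_lit 12310016)] (nat_lit 20794417)) p15_27_0 (nat_lit 4) (nat_lit 223) (nat_lit 224) = true := by decide +kernel
def p15_27_0_224 : pfC (piC [(nat_lit 36888796), (nat_lit 24534081), (nat_lit 18263511), (nat_lit 12310016)] (nat_lit 20794417)) p15_27_0 (nat_lit 4) (nat_lit 224) (nat_lit 225) = true := by decide +kernel
def p15_27_0_225 : pfC (piC [(nat_lit 36888796), (nat_lit 24534081), (nat_lit 18263511), (nat_lit 12310016)] (nat_lit 20794417)) p15_27_0 (nat_lit 4) (nat_lit 225) (nat_lit 226) = true := by decide +kernel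
def p15_27_0_226 : pfC (piC [(nat_lit 36888796), (nat_lit 24534081), (nat_lit 18263511), (nat_lit 12310016)] (nat_lit 20794417)) p15_27_0 (nat_lit 4) (nat_lit 226) (nat_lit 227) = true := by decide +kernel
def p15_27_0_227 : pfC (piC [(nat_lit 36888796), (nat_lit 24534081), (nat_lit 18263511), (nat_lit 12310016)] (nat_lit 20794417)) p15_27_0 (nat_lit 4) (nat_lit 227) (nat_lit 228) = true := by decide +kernel
def p15_27_0_228 : pfC (piC [(nat_lit 36888796), (nat_lit 24534081), (nat_lit 18263511), (nat_lit 12310016)] (nat_lit 20794417)) p15_27_0 (nat_lit 4) (nat_lit 228) (nat_lit 229) = true := by decide +kernel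
def p15_27_0_229 : pfC (piC [(nat_lit 36888796), (nat_lit 24534081), (nat_lit 18263511), (nat_lit 12310016)] (nat_lit 20794417)) p15_27_0 (nat_lit 4) (nat_lit 229) (nat_lit 230) = true := by decide +kernel
def p15_27_0_230 : pfC (piC [(nat_lit 36888796), (nat_lit 24534081), (nat_lit 18263511), (nat_lit 12310016)] (nat_lit 20794417)) p15_27_0 (nat_lit 4) (nat_lit 230) (nat_lit 231) = true := by decide +kernel
def p15_27_0_231 : pfC (piC [(nat_lit 36888796), (nat_lit 24534081), (nat_lit 18263511), (nat_lit 12310016)] (nat_lit 20794417)) p15_27_0 (nat_lit 4) (nat_lit 231) (nat_lit 232) = true := by decide +kernel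
def p15_27_0_232 : pfC (piC [(nat_lit 36888796), (nat_lit 24534081), (nat_lit 18263511), (nat_lit 12310016)] (nat_lit 20794417)) p15_27_0 (nat_lit 4) (nat_lit 232) (nat_lit 233) = true := by decide +kernel
def p15_27_0_233 : pfC (piC [(nat_lit 36888796), (nat_lit 24534081), (nat_lit 18263511), (nat_lit 12310016)] (nat_lit 20794417)) p15_27_0 (nat_lit 4) (nat_lit 233) (nat_lit 234) = true := by decide +kernel
def p15_27_0_234 : pfC (piC [(nat_lit 36888796), (nat_lit 24534081), (nat_lit 18263511), (nat_lit 12310016)] (nat_lit 20794417)) p15_27_0 (nat_lit 4) (nat_lit 234) (nat_lit 235) = true := by decide +kernel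
def p15_27_0_235 : pfC (piC [(nat_lit 36888796), (nat_lit 24534081), (nat_lit 18263511), (nat_lit 12310016)] (nat_lit 20794417)) p15_27_0 (nat_lit 4) (nat_lit 235) (nat_lit 236) = true := by decide +kernel
def p15_27_0_236 : pfC (piC [(nat_lit 36888796), (nat_lit 24534081), (nat_lit 18263511), (nat_lit 12310016)] (nat_lit 20794417)) p15_27_0 (nat_lit 4) (nat_lit 236) (nat_lit 237) = true := by decide +kernel
def p15_27_0_237 : pfC (piC [(nat_lit 36888796), (nat_lit 24534081), (nat_lit 18263511), (nat_lit 12310016)] (nat_lit 20794417)) p15_27_0 (nat_lit 4) (nat_lit 237) (nat_lit 238) = true := by decide +kernel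
def p15_27_0_238 : pfC (piC [(nat_lit 36888796), (nat_lit 24534081), (nat_lit 18263511), (nat_lit 12310016)] (nat_lit 20794417)) p15_27_0 (nat_lit 4) (nat_lit 238) (nat_lit 239) = true := by decide +kernel
def p15_27_0_239 : pfC (piC [(nat_lit 36888796), (nat_lit 24534081), (nat_lit 18263511), (nat_lit 12310016)] (nat_lit 20794417)) p15_27_0 (nat_lit 4) (nat_lit 239) (nat_lit 240) = true := by decide +kernel
def p15_27_0_240 : pfC (piC [(nat_lit 36888796), (nat_lit 24534081), (nat_lit 18263511), (nat_lit 12310016)] (nat_lit 20794417)) p15_27_0 (nat_lit 4) (nat_lit 240) (nat_lit 241) = true := by decide +kernel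
def p15_27_0_241 : pfC (piC [(nat_lit 36888796), (nat_lit 24534081), (nat_lit 18263511), (nat_lit 12310016)] (nat_lit 20794417)) p15_27_0 (nat_lit 4) (nat_lit 241) (nat_lit 242) = true := by decide +kernel
def p15_27_0_242 : pfC (piC [(nat_lit 36888796), (nat_lit 24534081), (nat_lit 18263511), (nat_lit 12310016)] (nat_lit 20794417)) p15_27_0 (nat_lit 4) (nat_lit 242) (nat_lit 243) = true := by decide +kernel
def p15_27_0_243 : pfC (piC [(nat_lit 36888796), (nat_lit 24534081), (nat_lit 18263511), (nat_lit 12310016)] (nat_lit 20794417)) p15_27_0 (nat_lit 4) (nat_lit 243) (nat_lit 244) = true := by decide +kernel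
def p15_27_0_244 : pfC (piC [(nat_lit 36888796), (nat_lit 24534081), (nat_lit 18263511), (nat_lit 12310016)] (nat_lit 20794417)) p15_27_0 (nat_lit 4) (nat_lit 244) (nat_lit 245) = true := by decide +kernel
def p15_27_0_245 : pfC (piC [(nat_lit 36888796), (nat_lit 24534081), (nat_lit 18263511), (nat_lit 12310016)] (nat_lit 20794417)) p15_27_0 (nat_lit 4) (nat_lit 245) (nat_lit 246) = true := by decide +kernel
def p15_27_0_246 : pfC (piC [(nat_lit 36888796), (nat_lit 24534081), (nat_lit 18263511), (nat_lit 12310016)] (nat_lit 20794417)) p15_27_0 (nat_lit 4) (nat_lit 246) (nat_lit 247) = true := by decide +kernel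
def p15_27_0_247 : pfC (piC [(nat_lit 36888796), (nat_lit 24534081), (nat_lit 18263511), (nat_lit 12310016)] (nat_lit 20794417)) p15_27_0 (nat_lit 4) (nat_lit 247) (nat_lit 248) = true := by decide +kernel
def p15_27_0_248 : pfC (piC [(nat_lit 36888796), (nat_lit 24534081), (nat_lit 18263511), (nat_lit 12310016)] (nat_lit 20794417)) p15_27_0 (nat_lit 4) (nat_lit 248) (nat_lit 249) = true := by decide +kernel
def p15_27_0_249 : pfC (piC [(nat_lit 36888796), (nat_lit 24534081), (nat_lit 18263511), (nat_lit 12310016)] (nat_lit 20794417)) p15_27_0 (nat_lit 4) (nat_lit 249) (nat_lit 250) = true := by decide +kernel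
def p15_27_0_250 : pfC (piC [(nat_lit 36888796), (nat_lit 24534081), (nat_lit 18263511), (nat_lit 12310016)] (nat_lit 20794417)) p15_27_0 (nat_lit 4) (nat_lit 250) (nat_lit 251) = true := by decide +kernel
def p15_27_0_251 : pfC (piC [(nat_lit 36888796), (nat_lit 24534081), (nat_lit 18263511), (nat_lit 12310016)] (nat_lit 20794417)) p15_27_0 (nat_lit 4) (nat_lit 251) (nat_lit 252) = true := by decide +kernel
def p15_27_0_252 : pfC (piC [(nat_lit 36888796), (nat_lit 24534081), (nat_lit 18263511), (nat_lit 12310016)] (nat_lit 20794417)) p15_27_0 (nat_lit 4) (nat_lit 252) (nat_lit 253) = true := by decide +kernel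
def p15_27_0_253 : pfC (piC [(nat_lit 36888796), (nat_lit 24534081), (nat_lit 18263511), (nat_lit 12310016)] (nat_lit 20794417)) p15_27_0 (nat_lit 4) (nat_lit 253) (nat_lit 254) = true := by decide +kernel
def p15_27_0_254 : pfC (piC [(nat_lit 36888796), (nat_lit 24534081), (nat_lit 18263511), (nat_lit 12310016)] (nat_lit 20794417)) p15_27_0 (nat_lit 4) (nat_lit 254) (nat_lit 255) = true := by decide +kernel
def p15_27_0_255 : pfC (piC [(nat_lit 36888796), (nat_lit 24534081), (nat_lit 18263511), (nat_lit 12310016)] (nat_lit 20794417)) p15_27_0 (nat_lit 4) (nat_lit 255) (nat_lit 256) = true := by decide +kernel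
def p15_27_0_256 : pfC (piC [(nat_lit 36888796), (nat_lit 24534081), (nat_lit 18263511), (nat_lit 12310016)] (nat_lit 20794417)) p15_27_0 (nat_lit 4) (nat_lit 256) (nat_lit 257) = true := by decide +kernel
def p15_27_0_257 : pfC (piC [(nat_lit 36888796), (nat_lit 24534081), (nat_lit 18263511), (nat_lit 12310016)] (nat_lit 20794417)) p15_27_0 (nat_lit 4) (nat_lit 257) (nat_lit 258) = true := by decide +kernel
def p15_27_0_258 : pfC (piC [(nat_lit 36888796), (nat_lit 24534081), (nat_lit 18263511), (nat_lit 12310016)] (nat_lit 20794417)) p15_27_0 (nat_lit 4) (nat_lit 258) (nat_lit 259) = true := by decide +kernel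
def p15_27_0_259 : pfC (piC [(nat_lit 36888796), (nat_lit 24534081), (nat_lit 18263511), (nat_lit 12310016)] (nat_lit 20794417)) p15_27_0 (nat_lit 4) (nat_lit 259) (nat_lit 260) = true := by decide +kernel
def p15_27_0_260 : pfC (piC [(nat_lit 36888796), (nat_lit 24534081), (nat_lit 18263511), (nat_lit 12310016)] (nat_lit 20794417)) p15_27_0 (nat_lit 4) (nat_lit 260) (nat_lit 261) = true := by decide +kernel
def p15_27_0_261 : pfC (piC [(nat_lit 36888796), (nat_lit 24534081), (nat_lit 18263511), (nat_lit 12310016)] (nat_lit 20794417)) p15_27_0 (nat_lit 4) (nat_lit 261) (nat_lit 262) = true := by decide +kernel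
def p15_27_0_262 : pfC (piC [(nat_lit 36888796), (nat_lit 24534081), (nat_lit 18263511), (nat_lit 12310016)] (nat_lit 20794417)) p15_27_0 (nat_lit 4) (nat_lit 262) (nat_lit 263) = true := by decide +kernel
def p15_27_0_263 : pfC (piC [(nat_lit 36888796), (nat_lit 24534081), (nat_lit 18263511), (nat_lit 12310016)] (nat_lit 20794417)) p15_27_0 (nat_lit 4) (nat_lit 263) (nat_lit 264) = true := by decide +kernel
def p15_27_0_264 : pfC (piC [(nat_lit 36888796), (nat_lit 24534081), (nat_lit 18263511), (nat_lit 12310016)] (nat_lit 20794417)) p15_27_0 (nat_lit 4) (nat_lit 264) (nat_lit 265) = true := by decide +kernel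
def p15_27_0_265 : pfC (piC [(nat_lit 36888796), (nat_lit 24534081), (nat_lit 18263511), (nat_lit 12310016)] (nat_lit 20794417)) p15_27_0 (nat_lit 4) (nat_lit 265) (nat_lit 266) = true := by decide +kernel
def p15_27_0_266 : pfC (piC [(nat_lit 36888796), (nat_lit 24534081), (nat_lit 18263511), (nat_lit 12310016)] (nat_lit 20794417)) p15_27_0 (nat_lit 4) (nat_lit 266) (nat_lit 267) = true := by decide +kernel
def p15_27_0_267 : pfC (piC [(nat_lit 36888796), (nat_lit 24534081), (nat_lit 18263511), (nat_lit 12310016)] (nat_lit 20794417)) p15_27_0 (nat_lit 4) (nat_lit 267) (nat_lit 268) = true := by decide +kernel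
def p15_27_0_268 : pfC (piC [(nat_lit 36888796), (nat_lit 24534081), (nat_lit 18263511), (nat_lit 12310016)] (nat_lit 20794417)) p15_27_0 (nat_lit 4) (nat_lit 268) (nat_lit 269) = true := by decide +kernel
def p15_27_0_269 : pfC (piC [(nat_lit 36888796), (nat_lit 24534081), (nat_lit 18263511), (nat_lit 12310016)] (nat_lit 20794417)) p15_27_0 (nat_lit 4) (nat_lit 269) (nat_lit 270) = true := by decide +kernel
def p15_27_0_270 : pfC (piC [(nat_lit 36888796), (nat_lit 24534081), (nat_lit 18263511), (nat_lit 12310016)] (nat_lit 20794417)) p15_27_0 (nat_lit 4) (nat_lit 270) (nat_lit 271) = true := by decide +kernel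
def p15_27_0_271 : pfC (piC [(nat_lit 36888796), (nat_lit 24534081), (nat_lit 18263511), (nat_lit 12310016)] (nat_lit 20794417)) p15_27_0 (nat_lit 4) (nat_lit 271) (nat_lit 272) = true := by decide +kernel
def p15_27_0_272 : pfC (piC [(nat_lit 36888796), (nat_lit 24534081), (nat_lit 18263511), (nat_lit 12310016)] (nat_lit 20794417)) p15_27_0 (nat_lit 4) (nat_lit 272) (nat_lit 273) = true := by decide +kernel
def p15_27_0_273 : pfC (piC [(nat_lit 36888796), (nat_lit 24534081), (nat_lit 18263511), (nat_lit 12310016)] (nat_lit 20794417)) p15_27_0 (nat_lit 4) (nat_lit 273) (nat_lit 274) = true := by decide +kernel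
def p15_27_0_274 : pfC (piC [(nat_lit 36888796), (nat_lit 24534081), (nat_lit 18263511), (nat_lit 12310016)] (nat_lit 20794417)) p15_27_0 (nat_lit 4) (nat_lit 274) (nat_lit 275) = true := by decide +kernel
def p15_27_0_275 : pfC (piC [(nat_lit 36888796), (nat_lit 24534081), (nat_lit 18263511), (nat_lit 12310016)] (nat_lit 20794417)) p15_27_0 (nat_lit 4) (nat_lit 275) (nat_lit 276) = true := by decide +kernel
def p15_27_0_276 : pfC (piC [(nat_lit 36888796), (nat_lit 24534081), (nat_lit 18263511), (nat_lit 12310016)] (nat_lit 20794417)) p15_27_0 (nat_lit 4) (nat_lit 276) (nat_lit 277) = true := by decide +kernel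
def p15_27_0_277 : pfC (piC [(nat_lit 36888796), (nat_lit 24534081), (nat_lit 18263511), (nat_lit 12310016)] (nat_lit 20794417)) p15_27_0 (nat_lit 4) (nat_lit 277) (nat_lit 278) = true := by decide +kernel
def p15_27_0_278 : pfC (piC [(nat_lit 36888796), (nat_lit 24534081), (nat_lit 18263511), (nat_lit 12310016)] (nat_lit 20794417)) p15_27_0 (nat_lit 4) (nat_lit 278) (nat_lit 279) = true := by decide +kernel
def p15_27_0_279 : pfC (piC [(nat_lit 36888796), (nat_lit 24534081), (nat_lit 18263511), (nat_lit 12310016)] (nat_lit 20794417)) p15_27_0 (nat_lit 4) (nat_lit 279) (nat_lit 280) = true := by decide +kernel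
def p15_27_0_280 : pfC (piC [(nat_lit 36888796), (nat_lit 24534081), (nat_lit 18263511), (nat_lit 12310016)] (nat_lit 20794417)) p15_27_0 (nat_lit 4) (nat_lit 280) (nat_lit 281) = true := by decide +kernel
def p15_27_0_281 : pfC (piC [(nat_lit 36888796), (nat_lit 24534081), (nat_lit 18263511), (nat_lit 12310016)] (nat_lit 20794417)) p15_27_0 (nat_lit 4) (nat_lit 281) (nat_lit 282) = true := by decide +kernel
def p15_27_0_282 : pfC (piC [(nat_lit 36888796), (nat_lit 24534081), (nat_lit 18263511), (nat_lit 12310016)] (nat_lit 20794417)) p15_27_0 (nat_lit 4) (nat_lit 282) (nat_lit 283) = true := by decide +kernel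
def p15_27_0_283 : pfC (piC [(nat_lit 36888796), (nat_lit 24534081), (nat_lit 18263511), (nat_lit 12310016)] (nat_lit 20794417)) p15_27_0 (nat_lit 4) (nat_lit 283) (nat_lit 284) = true := by decide +kernel
def p15_27_0_284 : pfC (piC [(nat_lit 36888796), (nat_lit 24534081), (nat_lit 18263511), (nat_lit 12310016)] (nat_lit 20794417)) p15_27_0 (nat_lit 4) (nat_lit 284) (nat_lit 285) = true := by decide +kernel
def p15_27_0_285 : pfC (piC [(nat_lit 36888796), (nat_lit 24534081), (nat_lit 18263511), (nat_lit 12310016)] (nat_lit 20794417)) p15_27_0 (nat_lit 4) (nat_lit 285) (nat_lit 286) = true := by decide +kernel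
def p15_27_0_286 : pfC (piC [(nat_lit 36888796), (nat_lit 24534081), (nat_lit 18263511), (nat_lit 12310016)] (nat_lit 20794417)) p15_27_0 (nat_lit 4) (nat_lit 286) (nat_lit 287) = true := by decide +kernel
def p15_27_0_287 : pfC (piC [(nat_lit 36888796), (nat_lit 24534081), (nat_lit 18263511), (nat_lit 12310016)] (nat_lit 20794417)) p15_27_0 (nat_lit 4) (nat_lit 287) (nat_lit 288) = true := by decide +kernel
def p15_27_0_288 : pfC (piC [(nat_lit 36888796), (nat_lit 24534081), (nat_lit 18263511), (nat_lit 12310016)] (nat_lit 20794417)) p15_27_0 (nat_lit 4) (nat_lit 288) (nat_lit 289) = true := by decide +kernel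
def p15_27_0_289 : pfC (piC [(nat_lit 36888796), (nat_lit 24534081), (nat_lit 18263511), (nat_lit 12310016)] (nat_lit 20794417)) p15_27_0 (nat_lit 4) (nat_lit 289) (nat_lit 290) = true := by decide +kernel
def p15_27_0_290 : pfC (piC [(nat_lit 36888796), (nat_lit 24534081), (nat_lit 18263511), (nat_lit 12310016)] (nat_lit 20794417)) p15_27_0 (nat_lit 4) (nat_lit 290) (nat_lit 291) = true := by decide +kernel
def p15_27_0_291 : pfC (piC [(nat_lit 36888796), (nat_lit 24534081), (nat_lit 18263511), (nat_lit 12310016)] (nat_lit 20794417)) p15_27_0 (nat_lit 4) (nat_lit 291) (nat_lit 292) = true := by decide +kernel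
def p15_27_0_292 : pfC (piC [(nat_lit 36888796), (nat_lit 24534081), (nat_lit 18263511), (nat_lit 12310016)] (nat_lit 20794417)) p15_27_0 (nat_lit 4) (nat_lit 292) (nat_lit 293) = true := by decide +kernel
def p15_27_0_293 : pfC (piC [(nat_lit 36888796), (nat_lit 24534081), (nat_lit 18263511), (nat_lit 12310016)] (nat_lit 20794417)) p15_27_0 (nat_lit 4) (nat_lit 293) (nat_lit 294) = true := by decide +kernel
def p15_27_0_294 : pfC (piC [(nat_lit 36888796), (nat_lit 24534081), (nat_lit 18263511), (nat_lit 12310016)] (nat_lit 20794417)) p15_27_0 (nat_lit 4) (nat_lit 294) (nat_lit 295) = true := by decide +kernel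
def p15_27_0_295 : pfC (piC [(nat_lit 36888796), (nat_lit 24534081), (nat_lit 18263511), (nat_lit 12310016)] (nat_lit 20794417)) p15_27_0 (nat_lit 4) (nat_lit 295) (nat_lit 296) = true := by decide +kernel
def p15_27_0_296 : pfC (piC [(nat_lit 36888796), (nat_lit 24534081), (nat_lit 18263511), (nat_lit 12310016)] (nat_lit 20794417)) p15_27_0 (nat_lit 4) (nat_lit 296) (nat_lit 297) = true := by decide +kernel
def p15_27_0_297 : pfC (piC [(nat_lit 36888796), (nat_lit 24534081), (nat_lit 18263511), (nat_lit 12310016)] (nat_lit 20794417)) p15_27_0 (nat_lit 4) (nat_lit 297) (nat_lit 298) = true := by decide +kernel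
def p15_27_0_298 : pfC (piC [(nat_lit 36888796), (nat_lit 24534081), (nat_lit 18263511), (nat_lit 12310016)] (nat_lit 20794417)) p15_27_0 (nat_lit 4) (nat_lit 298) (nat_lit 299) = true := by decide +kernel
def p15_27_0_299 : pfC (piC [(nat_lit 36888796), (nat_lit 24534081), (nat_lit 18263511), (nat_lit 12310016)] (nat_lit 20794417)) p15_27_0 (nat_lit 4) (nat_lit 299) (nat_lit 300) = true := by decide +kernel
def p15_27_0_300 : pfC (piC [(nat_lit 36888796), (nat_lit 24534081), (nat_lit 18263511), (nat_lit 12310016)] (nat_lit 20794417)) p15_27_0 (nat_lit 4) (nat_lit 300) (nat_lit 301) = true := by decide +kernel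
def p15_27_0_301 : pfC (piC [(nat_lit 36888796), (nat_lit 24534081), (nat_lit 18263511), (nat_lit 12310016)] (nat_lit 20794417)) p15_27_0 (nat_lit 4) (nat_lit 301) (nat_lit 302) = true := by decide +kernel
def p15_27_0_302 : pfC (piC [(nat_lit 36888796), (nat_lit 24534081), (nat_lit 18263511), (nat_lit 12310016)] (nat_lit 20794417)) p15_27_0 (nat_lit 4) (nat_lit 302) (nat_lit 303) = true := by decide +kernel
def p15_27_0_303 : pfC (piC [(nat_lit 36888796), (nat_lit 24534081), (nat_lit 18263511), (nat_lit 12310016)] (nat_lit 20794417)) p15_27_0 (nat_lit 4) (nat_lit 303) (nat_lit 304) = true := by decide +kernel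
def p15_27_0_304 : pfC (piC [(nat_lit 36888796), (nat_lit 24534081), (nat_lit 18263511), (nat_lit 12310016)] (nat_lit 20794417)) p15_27_0 (nat_lit 4) (nat_lit 304) (nat_lit 305) = true := by decide +kernel
def p15_27_0_305 : pfC (piC [(nat_lit 36888796), (nat_lit 24534081), (nat_lit 18263511), (nat_lit 12310016)] (nat_lit 20794417)) p15_27_0 (nat_lit 4) (nat_lit 305) (nat_lit 306) = true := by decide +kernel
def p15_27_0_306 : pfC (piC [(nat_lit 36888796), (nat_lit 24534081), (nat_lit 18263511), (nat_lit 12310016)] (nat_lit 20794417)) p15_27_0 (nat_lit 4) (nat_lit 306) (nat_lit 307) = true := by decide +kernel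
def p15_27_0_307 : pfC (piC [(nat_lit 36888796), (nat_lit 24534081), (nat_lit 18263511), (nat_lit 12310016)] (nat_lit 20794417)) p15_27_0 (nat_lit 4) (nat_lit 307) (nat_lit 308) = true := by decide +kernel
def p15_27_0_308 : pfC (piC [(nat_lit 36888796), (nat_lit 24534081), (nat_lit 18263511), (nat_lit 12310016)] (nat_lit 20794417)) p15_27_0 (nat_lit 4) (nat_lit 308) (nat_lit 309) = true := by decide +kernel
def p15_27_0_309 : pfC (piC [(nat_lit 36888796), (nat_lit 24534081), (nat_lit 18263511), (nat_lit 12310016)] (nat_lit 20794417)) p15_27_0 (nat_lit 4) (nat_lit 309) (nat_lit 310) = true := by decide +kernel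
def p15_27_0_310 : pfC (piC [(nat_lit 36888796), (nat_lit 24534081), (nat_lit 18263511), (nat_lit 12310016)] (nat_lit 20794417)) p15_27_0 (nat_lit 4) (nat_lit 310) (nat_lit 311) = true := by decide +kernel
def p15_27_0_311 : pfC (piC [(nat_lit 36888796), (nat_lit 24534081), (nat_lit 18263511), (nat_lit 12310016)] (nat_lit 20794417)) p15_27_0 (nat_lit 4) (nat_lit 311) (nat_lit 312) = true := by decide +kernel
def p15_27_0_312 : pfC (piC [(nat_lit 36888796), (nat_lit 24534081), (nat_lit 18263511), (nat_lit 12310016)] (nat_lit 20794417)) p15_27_0 (nat_lit 4) (nat_lit 312) (nat_lit 313) = true := by decide +kernel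
def p15_27_0_313 : pfC (piC [(nat_lit 36888796), (nat_lit 24534081), (nat_lit 18263511), (nat_lit 12310016)] (nat_lit 20794417)) p15_27_0 (nat_lit 4) (nat_lit 313) (nat_lit 314) = true := by decide +kernel
def p15_27_0_314 : pfC (piC [(nat_lit 36888796), (nat_lit 24534081), (nat_lit 18263511), (nat_lit 12310016)] (nat_lit 20794417)) p15_27_0 (nat_lit 4) (nat_lit 314) (nat_lit 315) = true := by decide +kernel
def p15_27_0_315 : pfC (piC [(nat_lit 36888796), (nat_lit 24534081), (nat_lit 18263511), (nat_lit 12310016)] (nat_lit 20794417)) p15_27_0 (nat_lit 4) (nat_lit 315) (nat_lit 316) = true := by decide +kernel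
def p15_27_0_316 : pfC (piC [(nat_lit 36888796), (nat_lit 24534081), (nat_lit 18263511), (nat_lit 12310016)] (nat_lit 20794417)) p15_27_0 (nat_lit 4) (nat_lit 316) (nat_lit 317) = true := by decide +kernel
def p15_27_0_317 : pfC (piC [(nat_lit 36888796), (nat_lit 24534081), (nat_lit 18263511), (nat_lit 12310016)] (nat_lit 20794417)) p15_27_0 (nat_lit 4) (nat_lit 317) (nat_lit 318) = true := by decide +kernel
def p15_27_0_318 : pfC (piC [(nat_lit 36888796), (nat_lit 24534081), (nat_lit 18263511), (nat_lit 12310016)] (nat_lit 20794417)) p15_27_0 (nat_lit 4) (nat_lit 318) (nat_lit 319) = true := by decide +kernel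
def p15_27_0_319 : pfC (piC [(nat_lit 36888796), (nat_lit 24534081), (nat_lit 18263511), (nat_lit 12310016)] (nat_lit 20794417)) p15_27_0 (nat_lit 4) (nat_lit 319) (nat_lit 320) = true := by decide +kernel
def p15_27_0_320 : pfC (piC [(nat_lit 36888796), (nat_lit 24534081), (nat_lit 18263511), (nat_lit 12310016)] (nat_lit 20794417)) p15_27_0 (nat_lit 4) (nat_lit 320) (nat_lit 321) = true := by decide +kernel
def p15_27_0_321 : pfC (piC [(nat_lit 36888796), (nat_lit 24534081), (nat_lit 18263511), (nat_lit 12310016)] (nat_lit 20794417)) p15_27_0 (nat_lit 4) (nat_lit 321) (nat_lit 322) = true := by decide +kernel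
def p15_27_0_322 : pfC (piC [(nat_lit 36888796), (nat_lit 24534081), (nat_lit 18263511), (nat_lit 12310016)] (nat_lit 20794417)) p15_27_0 (nat_lit 4) (nat_lit 322) (nat_lit 323) = true := by decide +kernel
def p15_27_0_323 : pfC (piC [(nat_lit 36888796), (nat_lit 24534081), (nat_lit 18263511), (nat_lit 12310016)] (nat_lit 20794417)) p15_27_0 (nat_lit 4) (nat_lit 323) (nat_lit 324) = true := by decide +kernel
def p15_27_0_324 : pfC (piC [(nat_lit 36888796), (nat_lit 24534081), (nat_lit 18263511), (nat_lit 12310016)] (nat_lit 20794417)) p15_27_0 (nat_lit 4) (nat_lit 324) (nat_lit 325) = true := by decide +kernel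
def p15_27_0_325 : pfC (piC [(nat_lit 36888796), (nat_lit 24534081), (nat_lit 18263511), (nat_lit 12310016)] (nat_lit 20794417)) p15_27_0 (nat_lit 4) (nat_lit 325) (nat_lit 326) = true := by decide +kernel
def p15_27_0_326 : pfC (piC [(nat_lit 36888796), (nat_lit 24534081), (nat_lit 18263511), (nat_lit 12310016)] (nat_lit 20794417)) p15_27_0 (nat_lit 4) (nat_lit 326) (nat_lit 327) = true := by decide +kernel
def p15_27_0_327 : pfC (piC [(nat_lit 36888796), (nat_lit 24534081), (nat_lit 18263511), (nat_lit 12310016)] (nat_lit 20794417)) p15_27_0 (nat_lit 4) (nat_lit 327) (nat_lit 328) = true := by decide +kernel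
def p15_27_0_328 : pfC (piC [(nat_lit 36888796), (nat_lit 24534081), (nat_lit 18263511), (nat_lit 12310016)] (nat_lit 20794417)) p15_27_0 (nat_lit 4) (nat_lit 328) (nat_lit 329) = true := by decide +kernel
def p15_27_0_329 : pfC (piC [(nat_lit 36888796), (nat_lit 24534081), (nat_lit 18263511), (nat_lit 12310016)] (nat_lit 20794417)) p15_27_0 (nat_lit 4) (nat_lit 329) (nat_lit 330) = true := by decide +kernel
def p15_27_0_330 : pfC (piC [(nat_lit 36888796), (nat_lit 24534081), (nat_lit 18263511), (nat_lit 12310016)] (nat_lit 20794417)) p15_27_0 (nat_lit 4) (nat_lit 330) (nat_lit 331) = true := by decide +kernel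
def p15_27_0_331 : pfC (piC [(nat_lit 36888796), (nat_lit 24534081), (nat_lit 18263511), (nat_lit 12310016)] (nat_lit 20794417)) p15_27_0 (nat_lit 4) (nat_lit 331) (nat_lit 332) = true := by decide +kernel
def p15_27_0_332 : pfC (piC [(nat_lit 36888796), (nat_lit 24534081), (nat_lit 18263511), (nat_lit 12310016)] (nat_lit 20794417)) p15_27_0 (nat_lit 4) (nat_lit 332) (nat_lit 333) = true := by decide +kernel
def p15_27_0_333 : pfC (piC [(nat_lit 36888796), (nat_lit 24534081), (nat_lit 18263511), (nat_lit 12310016)] (nat_lit 20794417)) p15_27_0 (nat_lit 4) (nat_lit 333) (nat_lit 334) = true := by decide +kernel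
def p15_27_0_334 : pfC (piC [(nat_lit 36888796), (nat_lit 24534081), (nat_lit 18263511), (nat_lit 12310016)] (nat_lit 20794417)) p15_27_0 (nat_lit 4) (nat_lit 334) (nat_lit 335) = true := by decide +kernel
def p15_27_0_335 : pfC (piC [(nat_lit 36888796), (nat_lit 24534081), (nat_lit 18263511), (nat_lit 12310016)] (nat_lit 20794417)) p15_27_0 (nat_lit 4) (nat_lit 335) (nat_lit 336) = true := by decide +kernel
def p15_27_0_336 : pfC (piC [(nat_lit 36888796), (nat_lit 24534081), (nat_lit 18263511), (nat_lit 12310016)] (nat_lit 20794417)) p15_27_0 (nat_lit 4) (nat_lit 336) (nat_lit 337) = true := by decide +kernel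
def p15_27_0_337 : pfC (piC [(nat_lit 36888796), (nat_lit 24534081), (nat_lit 18263511), (nat_lit 12310016)] (nat_lit 20794417)) p15_27_0 (nat_lit 4) (nat_lit 337) (nat_lit 338) = true := by decide +kernel
def p15_27_0_338 : pfC (piC [(nat_lit 36888796), (nat_lit 24534081), (nat_lit 18263511), (nat_lit 12310016)] (nat_lit 20794417)) p15_27_0 (nat_lit 4) (nat_lit 338) (nat_lit 339) = true := by decide +kernel
def p15_27_0_339 : pfC (piC [(nat_lit 36888796), (nat_lit 24534081), (nat_lit 18263511), (nat_lit 12310016)] (nat_lit 20794417)) p15_27_0 (nat_lit 4) (nat_lit 339) (nat_lit 340) = true := by decide +kernel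
def p15_27_0_340 : pfC (piC [(nat_lit 36888796), (nat_lit 24534081), (nat_lit 18263511), (nat_lit 12310016)] (nat_lit 20794417)) p15_27_0 (nat_lit 4) (nat_lit 340) (nat_lit 341) = true := by decide +kernel
def p15_27_0_341 : pfC (piC [(nat_lit 36888796), (nat_lit 24534081), (nat_lit 18263511), (nat_lit 12310016)] (nat_lit 20794417)) p15_27_0 (nat_lit 4) (nat_lit 341) (nat_lit 342) = true := by decide +kernel
def p15_27_0_342 : pfC (piC [(nat_lit 36888796), (nat_lit 24534081), (nat_lit 18263511), (nat_lit 12310016)] (nat_lit 20794417)) p15_27_0 (nat_lit 4) (nat_lit 342) (nat_lit 343) = true := by decide +kernel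
def p15_27_0_343 : pfC (piC [(nat_lit 36888796), (nat_lit 24534081), (nat_lit 18263511), (nat_lit 12310016)] (nat_lit 20794417)) p15_27_0 (nat_lit 4) (nat_lit 343) (nat_lit 344) = true := by decide +kernel
def p15_27_0_344 : pfC (piC [(nat_lit 36888796), (nat_lit 24534081), (nat_lit 18263511), (nat_lit 12310016)] (nat_lit 20794417)) p15_27_0 (nat_lit 4) (nat_lit 344) (nat_lit 345) = true := by decide +kernel
def p15_27_0_345 : pfC (piC [(nat_lit 36888796), (nat_lit 24534081), (nat_lit 18263511), (nat_lit 12310016)] (nat_lit 20794417)) p15_27_0 (nat_lit 4) (nat_lit 345) (nat_lit 346) = true := by decide +kernel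
def p15_27_0_346 : pfC (piC [(nat_lit 36888796), (nat_lit 24534081), (nat_lit 18263511), (nat_lit 12310016)] (nat_lit 20794417)) p15_27_0 (nat_lit 4) (nat_lit 346) (nat_lit 347) = true := by decide +kernel
def p15_27_0_347 : pfC (piC [(nat_lit 36888796), (nat_lit 24534081), (nat_lit 18263511), (nat_lit 12310016)] (nat_lit 20794417)) p15_27_0 (nat_lit 4) (nat_lit 347) (nat_lit 348) = true := by decide +kernel
def p15_27_0_348 : pfC (piC [(nat_lit 36888796), (nat_lit 24534081), (nat_lit 18263511), (nat_lit 12310016)] (nat_lit 20794417)) p15_27_0 (nat_lit 4) (nat_lit 348) (nat_lit 349) = true := by decide +kernel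
def p15_27_0_349 : pfC (piC [(nat_lit 36888796), (nat_lit 24534081), (nat_lit 18263511), (nat_lit 12310016)] (nat_lit 20794417)) p15_27_0 (nat_lit 4) (nat_lit 349) (nat_lit 350) = true := by decide +kernel
def p15_27_0_350 : pfC (piC [(nat_lit 36888796), (nat_lit 24534081), (nat_lit 18263511), (nat_lit 12310016)] (nat_lit 20794417)) p15_27_0 (nat_lit 4) (nat_lit 350) (nat_lit 351) = true := by decide +kernel
theorem p15_27_0_T : PfS (PiF n15_27.reverse (nat_lit 20794417)) p15_27_0 (nat_lit 4) [] 0 :=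
  pftab_of (los := [(nat_lit 36888796), (nat_lit 24534081), (nat_lit 18263511), (nat_lit 12310016)]) (by decide +kernel) (hi := (nat_lit 351)) (PfP.trans (PfP.trans (PfP.trans (PfP.trans (PfP.trans (PfP.trans (PfP.trans (PfP.trans (PfP.trans (PfP.trans (PfP.trans (PfP.trans (PfP.trans (PfP.trans (PfP.trans (PfP.trans (PfP.trans (PfP.trans (PfP.trans (PfP.trans (PfP.trans (PfP.trans (PfP.trans (PfP.trans (PfP.trans (PfP.trans (PfP.trans (PfP.trans (PfP.trans (PfP.trans (PfP.trans (PfP.trans (PfP.trans (PfP.trans (PfP.trans (PfP.trans (PfP.trans (PfP.trans (PfP.trans (PfP.trans (PfP.trans (PfP.trans (PfP.trans (PfP.trans (PfP.trans (PfP.trans (PfP.trans (PfP.trans (PfP.trans (PfP.trans (PfP.trans (PfP.trans (PfP.trans (PfP.trans (PfP.trans (PfP.trans (PfP.trans (PfP.trans (PfP.trans (PfP.trans (PfP.trans (PfP.trans (PfP.trans (PfP.trans (PfP.trans (PfP.trans (PfP.trans (PfP.trans (PfP.trans (PfP.trans (PfP.trans (PfP.trans (PfP.trans (PfP.trans (PfP.trans (PfP.trans (PfP.trans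 (PfP.trans (PfP.trans (PfP.trans (PfP.trans (PfP.trans (PfP.trans (PfP.trans (PfP.trans (PfP.trans (PfP.trans (PfP.trans (PfP.trans (PfP.trans (PfP.trans (PfP.trans (PfP.trans (PfP.trans (PfP.trans (PfP.trans (PfP.trans (PfP.trans (PfP.trans (PfP.trans (PfP.trans (PfP.trans (PfP.trans (PfP.trans (PfP.trans (PfP.trans (PfP.trans (PfP.trans (PfP.trans
 (PfP.trans (PfP.trans (PfP.trans (PfP.trans (PfP.trans (PfP.trans (PfP.trans (PfP.trans (PfP.trans (PfP.trans (PfP.trans (PfP.trans (PfP.trans (PfP.trans (PfP.trans (PfP.trans (PfP.trans (PfP.trans (PfP.trans (PfP.trans (PfP.trans (PfP.trans (PfP.trans (PfP.trans (PfP.trans (PfP.trans (PfP.trans (PfP.trans (PfP.trans (PfP.trans (PfP.trans (PfP.trans (PfP.trans (PfP.trans (PfP.trans (PfP.trans (PfP.trans (PfP.trans (PfP.trans (PfP.trans (PfP.trans (PfP.trans (PfP.trans (PfP.trans (PfP.trans (PfP.trans (PfP.trans (PfP.trans (PfP.trans (PfP.trans (PfP.trans (PfP.trans (PfP.trans (PfP.trans (PfP.trans (PfP.trans (PfP.trans (PfP.trans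 (PfP.trans (PfP.trans (PfP.trans (PfP.trans (PfP.trans (PfP.trans (PfP.trans (PfP.trans (PfP.trans (PfP.trans (PfP.trans (PfP.trans (PfP.trans (PfP.trans (PfP.trans (PfP.trans (PfP.trans (PfP.trans (PfP.trans (PfP.trans (PfP.trans (PfP.trans (PfP.trans (PfP.trans (PfP.trans (PfP.trans (PfP.trans (PfP.trans (PfP.trans (PfP.trans (PfP.trans (PfP.trans (PfP.trans (PfP.trans (PfP.trans (PfP.trans (PfP.trans (PfP.trans (PfP.trans (PfP.trans (PfP.trans (PfP.trans (PfP.trans (PfP.trans (PfP.trans (PfP.trans (PfP.trans (PfP.trans (PfP.trans (PfP.trans (PfP.trans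
 (PfP.trans (PfP.trans (PfP.trans (PfP.trans (PfP.trans (PfP.trans (PfP.trans (PfP.trans (PfP.trans (PfP.trans (PfP.trans (PfP.trans (PfP.trans (PfP.trans (PfP.trans (PfP.trans (PfP.trans (PfP.trans (PfP.trans (PfP.trans (PfP.trans (PfP.trans (PfP.trans (PfP.trans (PfP.trans (PfP.trans (PfP.trans (PfP.trans (PfP.trans (PfP.trans (PfP.trans (PfP.trans (PfP.trans (PfP.trans (PfP.trans (PfP.trans (PfP.trans (PfP.trans (PfP.trans (PfP.trans (PfP.trans (PfP.trans (PfP.trans (PfP.trans (PfP.trans (PfP.trans (PfP.trans (PfP.trans (PfP.trans (PfP.trans (PfP.trans (PfP.trans (PfP.trans (PfP.trans (PfP.trans (PfP.trans (PfP.trans (PfP.trans (PfP.trans (PfP.trans (PfP.trans (PfP.trans (PfP.trans (PfP.trans (PfP.trans (PfP.trans (PfP.trans (PfP.trans (PfP.trans (PfP.trans (PfP.trans (PfP.trans (PfP.trans (PfP.trans (PfP.trans (PfP.trans (PfP.trans (PfP.trans (PfP.trans (PfP.trans (PfP.trans (PfP.trans (PfP.trans (PfP.trans (PfP.trans (PfP.trans (PfP.trans (PfP.trans (PfP.trans (PfP.trans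 (PfP.trans (PfP.trans (PfP.trans (PfP.trans (PfP.trans (PfP.trans (PfP.trans (PfP.trans (PfP.trans (PfP.trans (PfP.trans (PfP.trans (PfP.trans (PfP.trans (PfP.trans (PfP.trans (PfP.trans (PfP.trans (PfP.trans
 (PfP.trans (PfP.trans (PfP.trans (PfP.trans (PfP.trans (PfP.trans (PfP.trans (PfP.trans (PfP.trans (PfP.trans (PfP.trans (PfP.trans (PfP.trans (PfP.trans (PfP.trans (PfP.trans (PfP.trans (PfP.trans (PfP.trans (PfP.trans (PfP.trans (PfP.trans (PfP.trans (pfC_sound p15_27_0_0) (pfC_sound p15_27_0_1)) (pfC_sound p15_27_0_2)) (pfC_sound p15_27_0_3)) (pfC_sound p15_27_0_4)) (pfC_sound p15_27_0_5)) (pfC_sound p15_27_0_6)) (pfC_sound p15_27_0_7)) (pfC_sound p15_27_0_8)) (pfC_sound p15_27_0_9)) (pfC_sound p15_27_0_10)) (pfC_sound p15_27_0_11)) (pfC_sound p15_27_0_12)) (pfC_sound p15_27_0_13)) (pfC_sound p15_27_0_14)) (pfC_sound p15_27_0_15)) (pfC_sound p15_27_0_16)) (pfC_sound p15_27_0_17)) (pfC_sound p15_27_0_18)) (pfC_sound p15_27_0_19)) (pfC_sound p15_27_0_20)) (pfC_sound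 p15_27_0_21)) (pfC_sound p15_27_0_22)) (pfC_sound p15_27_0_23)) (pfC_sound p15_27_0_24)) (pfC_sound p15_27_0_25)) (pfC_sound p15_27_0_26)) (pfC_sound p15_27_0_27)) (pfC_sound p15_27_0_28)) (pfC_sound p15_27_0_29)) (pfC_sound p15_27_0_30)) (pfC_sound p15_27_0_31)) (pfC_sound p15_27_0_32)) (pfC_sound p15_27_0_33)) (pfC_sound p15_27_0_34)) (pfC_sound p15_27_0_35)) (pfC_sound p15_27_0_36)) (pfC_sound p15_27_0_37))
 (pfC_sound p15_27_0_38)) (pfC_sound p15_27_0_39)) (pfC_sound p15_27_0_40)) (pfC_sound p15_27_0_41)) (pfC_sound p15_27_0_42)) (pfC_sound p15_27_0_43)) (pfC_sound p15_27_0_44)) (pfC_sound p15_27_0_45)) (pfC_sound p15_27_0_46)) (pfC_sound p15_27_0_47)) (pfC_sound p15_27_0_48)) (pfC_sound p15_27_0_49)) (pfC_sound p15_27_0_50)) (pfC_sound p15_27_0_51)) (pfC_sound p15_27_0_52)) (pfC_sound p15_27_0_53)) (pfC_sound p15_27_0_54)) (pfC_sound p15_27_0_55)) (pfC_sound p15_27_0_56)) (pfC_sound p15_27_0_57)) (pfC_sound p15_27_0_58)) (pfC_sound p15_27_0_59)) (pfC_sound p15_27_0_60))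 (pfC_sound p15_27_0_61)) (pfC_sound p15_27_0_62)) (pfC_sound p15_27_0_63)) (pfC_sound p15_27_0_64)) (pfC_sound p15_27_0_65)) (pfC_sound p15_27_0_66)) (pfC_sound p15_27_0_67)) (pfC_sound p15_27_0_68)) (pfC_sound p15_27_0_69)) (pfC_sound p15_27_0_70)) (pfC_sound p15_27_0_71)) (pfC_sound p15_27_0_72)) (pfC_sound p15_27_0_73)) (pfC_sound p15_27_0_74)) (pfC_sound p15_27_0_75)) (pfC_sound p15_27_0_76)) (pfC_sound p15_27_0_77)) (pfC_sound p15_27_0_78)) (pfC_sound p15_27_0_79)) (pfC_sound p15_27_0_80)) (pfC_sound p15_27_0_81)) (pfC_sound p15_27_0_82)) (pfC_sound p15_27_0_83)) (pfC_sound p15_27_0_84)) (pfC_sound p15_27_0_85))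
 (pfC_sound p15_27_0_86)) (pfC_sound p15_27_0_87)) (pfC_sound p15_27_0_88)) (pfC_sound p15_27_0_89)) (pfC_sound p15_27_0_90)) (pfC_sound p15_27_0_91)) (pfC_sound p15_27_0_92)) (pfC_sound p15_27_0_93)) (pfC_sound p15_27_0_94)) (pfC_sound p15_27_0_95)) (pfC_sound p15_27_0_96)) (pfC_sound p15_27_0_97)) (pfC_sound p15_27_0_98)) (pfC_sound p15_27_0_99)) (pfC_sound p15_27_0_100)) (pfC_sound p15_27_0_101)) (pfC_sound p15_27_0_102)) (pfC_sound p15_27_0_103)) (pfC_sound p15_27_0_104)) (pfC_sound p15_27_0_105)) (pfC_sound p15_27_0_106)) (pfC_sound p15_27_0_107)) (pfC_sound p15_27_0_108)) (pfC_sound p15_27_0_109)) (pfC_sound p15_27_0_110)) (pfC_sound p15_27_0_111)) (pfC_sound p15_27_0_112)) (pfC_sound p15_27_0_113)) (pfC_sound p15_27_0_114)) (pfC_sound p15_27_0_115)) (pfC_sound p15_27_0_116)) (pfC_sound p15_27_0_117)) (pfC_sound p15_27_0_118)) (pfC_sound p15_27_0_119)) (pfC_sound p15_27_0_120)) (pfC_sound p15_27_0_121)) (pfC_sound p15_27_0_122)) (pfC_sound p15_27_0_123)) (pfC_sound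 p15_27_0_124)) (pfC_sound p15_27_0_125)) (pfC_sound p15_27_0_126)) (pfC_sound p15_27_0_127)) (pfC_sound p15_27_0_128)) (pfC_sound p15_27_0_129)) (pfC_sound p15_27_0_130)) (pfC_sound p15_27_0_131)) (pfC_sound
 p15_27_0_132)) (pfC_sound p15_27_0_133)) (pfC_sound p15_27_0_134)) (pfC_sound p15_27_0_135)) (pfC_sound p15_27_0_136)) (pfC_sound p15_27_0_137)) (pfC_sound p15_27_0_138)) (pfC_sound p15_27_0_139)) (pfC_sound p15_27_0_140)) (pfC_sound p15_27_0_141)) (pfC_sound p15_27_0_142)) (pfC_sound p15_27_0_143)) (pfC_sound p15_27_0_144)) (pfC_sound p15_27_0_145)) (pfC_sound p15_27_0_146)) (pfC_sound p15_27_0_147)) (pfC_sound p15_27_0_148)) (pfC_sound p15_27_0_149)) (pfC_sound p15_27_0_150)) (pfC_sound p15_27_0_151)) (pfC_sound p15_27_0_152)) (pfC_sound p15_27_0_153)) (pfC_sound p15_27_0_154)) (pfC_sound p15_27_0_155)) (pfC_sound p15_27_0_156)) (pfC_sound p15_27_0_157)) (pfC_sound p15_27_0_158)) (pfC_sound p15_27_0_159)) (pfC_sound p15_27_0_160)) (pfC_sound p15_27_0_161)) (pfC_sound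 p15_27_0_162)) (pfC_sound p15_27_0_163)) (pfC_sound p15_27_0_164)) (pfC_sound p15_27_0_165)) (pfC_sound p15_27_0_166)) (pfC_sound p15_27_0_167)) (pfC_sound p15_27_0_168)) (pfC_sound p15_27_0_169)) (pfC_sound p15_27_0_170)) (pfC_sound p15_27_0_171)) (pfC_sound p15_27_0_172)) (pfC_sound p15_27_0_173)) (pfC_sound p15_27_0_174)) (pfC_sound p15_27_0_175)) (pfC_sound p15_27_0_176)) (pfC_sound p15_27_0_177)) (pfC_sound
 p15_27_0_178)) (pfC_sound p15_27_0_179)) (pfC_sound p15_27_0_180)) (pfC_sound p15_27_0_181)) (pfC_sound p15_27_0_182)) (pfC_sound p15_27_0_183)) (pfC_sound p15_27_0_184)) (pfC_sound p15_27_0_185)) (pfC_sound p15_27_0_186)) (pfC_sound p15_27_0_187)) (pfC_sound p15_27_0_188)) (pfC_sound p15_27_0_189)) (pfC_sound p15_27_0_190)) (pfC_sound p15_27_0_191)) (pfC_sound p15_27_0_192)) (pfC_sound p15_27_0_193)) (pfC_sound p15_27_0_194)) (pfC_sound p15_27_0_195)) (pfC_sound p15_27_0_196)) (pfC_sound p15_27_0_197)) (pfC_sound p15_27_0_198)) (pfC_sound p15_27_0_199)) (pfC_sound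 p15_27_0_200)) (pfC_sound p15_27_0_201)) (pfC_sound p15_27_0_202)) (pfC_sound p15_27_0_203)) (pfC_sound p15_27_0_204)) (pfC_sound p15_27_0_205)) (pfC_sound p15_27_0_206)) (pfC_sound p15_27_0_207)) (pfC_sound p15_27_0_208)) (pfC_sound p15_27_0_209)) (pfC_sound p15_27_0_210)) (pfC_sound p15_27_0_211)) (pfC_sound p15_27_0_212)) (pfC_sound p15_27_0_213)) (pfC_sound p15_27_0_214)) (pfC_sound p15_27_0_215)) (pfC_sound p15_27_0_216)) (pfC_sound p15_27_0_217)) (pfC_sound p15_27_0_218)) (pfC_sound p15_27_0_219)) (pfC_sound p15_27_0_220)) (pfC_sound p15_27_0_221)) (pfC_sound p15_27_0_222)) (pfC_sound p15_27_0_223)) (pfC_sound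
 p15_27_0_224)) (pfC_sound p15_27_0_225)) (pfC_sound p15_27_0_226)) (pfC_sound p15_27_0_227)) (pfC_sound p15_27_0_228)) (pfC_sound p15_27_0_229)) (pfC_sound p15_27_0_230)) (pfC_sound p15_27_0_231)) (pfC_sound p15_27_0_232)) (pfC_sound p15_27_0_233)) (pfC_sound p15_27_0_234)) (pfC_sound p15_27_0_235)) (pfC_sound p15_27_0_236)) (pfC_sound p15_27_0_237)) (pfC_sound p15_27_0_238)) (pfC_sound p15_27_0_239)) (pfC_sound p15_27_0_240)) (pfC_sound p15_27_0_241)) (pfC_sound p15_27_0_242)) (pfC_sound p15_27_0_243)) (pfC_sound p15_27_0_244)) (pfC_sound p15_27_0_245)) (pfC_sound p15_27_0_246)) (pfC_sound p15_27_0_247)) (pfC_sound p15_27_0_248)) (pfC_sound p15_27_0_249)) (pfC_sound p15_27_0_250)) (pfC_sound p15_27_0_251)) (pfC_sound p15_27_0_252)) (pfC_sound p15_27_0_253)) (pfC_sound p15_27_0_254)) (pfC_sound p15_27_0_255)) (pfC_sound p15_27_0_256)) (pfC_sound p15_27_0_257)) (pfC_sound p15_27_0_258)) (pfC_sound p15_27_0_259)) (pfC_sound p15_27_0_260)) (pfC_sound p15_27_0_261)) (pfC_sound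 p15_27_0_262)) (pfC_sound p15_27_0_263)) (pfC_sound p15_27_0_264)) (pfC_sound p15_27_0_265)) (pfC_sound p15_27_0_266)) (pfC_sound p15_27_0_267)) (pfC_sound p15_27_0_268)) (pfC_sound p15_27_0_269)) (pfC_sound
 p15_27_0_270)) (pfC_sound p15_27_0_271)) (pfC_sound p15_27_0_272)) (pfC_sound p15_27_0_273)) (pfC_sound p15_27_0_274)) (pfC_sound p15_27_0_275)) (pfC_sound p15_27_0_276)) (pfC_sound p15_27_0_277)) (pfC_sound p15_27_0_278)) (pfC_sound p15_27_0_279)) (pfC_sound p15_27_0_280)) (pfC_sound p15_27_0_281)) (pfC_sound p15_27_0_282)) (pfC_sound p15_27_0_283)) (pfC_sound p15_27_0_284)) (pfC_sound p15_27_0_285)) (pfC_sound p15_27_0_286)) (pfC_sound p15_27_0_287)) (pfC_sound p15_27_0_288)) (pfC_sound p15_27_0_289)) (pfC_sound p15_27_0_290)) (pfC_sound p15_27_0_291)) (pfC_sound p15_27_0_292)) (pfC_sound p15_27_0_293)) (pfC_sound p15_27_0_294)) (pfC_sound p15_27_0_295)) (pfC_sound p15_27_0_296)) (pfC_sound p15_27_0_297)) (pfC_sound p15_27_0_298)) (pfC_sound p15_27_0_299)) (pfC_sound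 p15_27_0_300)) (pfC_sound p15_27_0_301)) (pfC_sound p15_27_0_302)) (pfC_sound p15_27_0_303)) (pfC_sound p15_27_0_304)) (pfC_sound p15_27_0_305)) (pfC_sound p15_27_0_306)) (pfC_sound p15_27_0_307)) (pfC_sound p15_27_0_308)) (pfC_sound p15_27_0_309)) (pfC_sound p15_27_0_310)) (pfC_sound p15_27_0_311)) (pfC_sound p15_27_0_312)) (pfC_sound p15_27_0_313)) (pfC_sound p15_27_0_314)) (pfC_sound p15_27_0_315)) (pfC_sound
 p15_27_0_316)) (pfC_sound p15_27_0_317)) (pfC_sound p15_27_0_318)) (pfC_sound p15_27_0_319)) (pfC_sound p15_27_0_320)) (pfC_sound p15_27_0_321)) (pfC_sound p15_27_0_322)) (pfC_sound p15_27_0_323)) (pfC_sound p15_27_0_324)) (pfC_sound p15_27_0_325)) (pfC_sound p15_27_0_326)) (pfC_sound p15_27_0_327)) (pfC_sound p15_27_0_328)) (pfC_sound p15_27_0_329)) (pfC_sound p15_27_0_330)) (pfC_sound p15_27_0_331)) (pfC_sound p15_27_0_332)) (pfC_sound p15_27_0_333)) (pfC_sound p15_27_0_334)) (pfC_sound p15_27_0_335)) (pfC_sound p15_27_0_336)) (pfC_sound p15_27_0_337)) (pfC_sound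 p15_27_0_338)) (pfC_sound p15_27_0_339)) (pfC_sound p15_27_0_340)) (pfC_sound p15_27_0_341)) (pfC_sound p15_27_0_342)) (pfC_sound p15_27_0_343)) (pfC_sound p15_27_0_344)) (pfC_sound p15_27_0_345)) (pfC_sound p15_27_0_346)) (pfC_sound p15_27_0_347)) (pfC_sound p15_27_0_348)) (pfC_sound p15_27_0_349)) (pfC_sound p15_27_0_350)) (by decide +kernel)

def z15_27_0 : zOK yB15_27 (nat_lit 0) (nat_lit 0) (nat_lit 400) (nat_lit 20794417) (nat_lit 10584306) = true := by decide +kernel
def g15_27_0 : gOK yB15_27.x P15_27 (nat_lit 1413) (q15_27 :: r15_27) (nat_lit 0) (nat_lit 0) (nat_lit 1) (nat_lit 400) (nat_lit 0) (nat_lit 11000000) (nat_lit 12712500) (nat_lit 12712500) [(nat_lit 800), (nat_lit 1400), (nat_lit 2200)] = true := by decide +kernel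
def v15_27_0 : ivC P15_27 s15_27 w15_27 n15_27 (nat_lit 4) (nat_lit 5360) (nat_lit 0) (nat_lit 0) f168_1_0 f176_1_0 (nat_lit 1) (nat_lit 400) f168_1_400 f176_1_400 (nat_lit 20794417) (nat_lit 10584306) p15_27_0 = true := by decide +kernel
def p15_27_1 : PF := (PF.cons (PF.cons (PF.cons (PF.cons (PF.leaf (nat_lit 2114498) (nat_lit 10073710) (nat_lit 57035102) (nat_lit 10073710) [(nat_lit 0), (nat_lit 0), (nat_lit 0), (nat_lit 0)]) (PF.cons (PF.leaf (nat_lit 2315426) (nat_lit 355857) (nat_lit 56651885) (nat_lit 10101069) [(nat_lit 355857), (nat_lit 0), (nat_lit 0), (nat_lit 0)]) (PF.cons (PF.leaf (nat_lit 2552475) (nat_lit 387294) (nat_lit 56204479) (nat_lit 10129743) [(nat_lit 387294), (nat_lit 0), (nat_lit 0), (nat_lit 0)]) (PF.cons (PF.leaf (nat_lit 2818682) (nat_lit 415216) (nat_lit 55705354) (nat_lit 10157807) [(nat_lit 415216), (nat_lit 0), (nat_lit 0), (nat_lit 0)]) (PF.cons (PF.leaf (nat_lit 3109765) (nat_lit 440371) (nat_lit 55163489) (nat_lit 10183836) [(nat_lit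 440371), (nat_lit 0), (nat_lit 0), (nat_lit 0)]) (PF.cons (PF.leaf (nat_lit 3422357) (nat_lit 463228) (nat_lit 54585918) (nat_lit 10206750) [(nat_lit 463228), (nat_lit 0), (nat_lit 0), (nat_lit 0)]) (PF.cons (PF.leaf (nat_lit 3753649) (nat_lit 484104) (nat_lit 53978444) (nat_lit 10225743) [(nat_lit 484104), (nat_lit 0), (nat_lit 0), (nat_lit 0)]) (PF.cons (PF.leaf (nat_lit 4101242) (nat_lit 503225) (nat_lit 53346014) (nat_lit 10240221) [(nat_lit 503225), (nat_lit 0),
 (nat_lit 0), (nat_lit 0)]) (PF.cons (PF.leaf (nat_lit 4462998) (nat_lit 520763) (nat_lit 52692936) (nat_lit 10249771) [(nat_lit 520763), (nat_lit 0), (nat_lit 0), (nat_lit 0)]) (PF.cons (PF.leaf (nat_lit 4837006) (nat_lit 536852) (nat_lit 52023018) (nat_lit 10254123) [(nat_lit 536852), (nat_lit 0), (nat_lit 0), (nat_lit 0)]) (PF.cons PF.nil (PF.cons PF.nil PF.nil)))))))))))) (PF.cons (PF.cons (PF.leaf (nat_lit 2732265) (nat_lit 1452683) (nat_lit 55495712) (nat_lit 10160417) [(nat_lit 0), (nat_lit 1452683),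 (nat_lit 0), (nat_lit 0)]) (PF.cons (PF.leaf (nat_lit 2989439) (nat_lit 425476) (nat_lit 55006376) (nat_lit 10182557) [(nat_lit 425476), (nat_lit 1494402), (nat_lit 0), (nat_lit 0)]) (PF.cons (PF.leaf (nat_lit 3273744) (nat_lit 449842) (nat_lit 54471645) (nat_lit 10202744) [(nat_lit 449842), (nat_lit 1534737), (nat_lit 0), (nat_lit 0)]) (PF.cons (PF.leaf (nat_lit 3580453) (nat_lit 471890) (nat_lit 53900158) (nat_lit 10219901) [(nat_lit 471890), (nat_lit 1573082), (nat_lit 0), (nat_lit 0)]) (PF.cons (PF.leaf (nat_lit 3906326) (nat_lit 491971) (nat_lit 53298536) (nat_lit 10233250) [(nat_lit 491971), (nat_lit 1609139), (nat_lit 0), (nat_lit 0)]) (PF.cons (PF.leaf (nat_lit 4248718)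
 (nat_lit 510326) (nat_lit 52672165) (nat_lit 10242239) [(nat_lit 510326), (nat_lit 1642773), (nat_lit 0), (nat_lit 0)]) (PF.cons (PF.leaf (nat_lit 4605356) (nat_lit 527133) (nat_lit 52025586) (nat_lit 10246488) [(nat_lit 527133), (nat_lit 1673940), (nat_lit 0), (nat_lit 0)]) (PF.cons (PF.leaf (nat_lit 4974236) (nat_lit 542526) (nat_lit 51362718) (nat_lit 10245760) [(nat_lit 542526), (nat_lit 1702647), (nat_lit 0), (nat_lit 0)]) (PF.cons PF.nil (PF.cons PF.nil PF.nil)))))))))) (PF.cons (PF.cons (PF.leaf (nat_lit 3441402) (nat_lit 1564203) (nat_lit 53764844) (nat_lit 10215561) [(nat_lit 0), (nat_lit 1564203), (nat_lit 0), (nat_lit 0)]) (PF.cons (PF.leaf (nat_lit 3739944) (nat_lit 479290) (nat_lit 53204489) (nat_lit 10227217) [(nat_lit 479290), (nat_lit 1598907), (nat_lit 0), (nat_lit 0)]) (PF.cons (PF.leaf (nat_lit 4059112) (nat_lit 498772) (nat_lit 52612439) (nat_lit 10235224) [(nat_lit 498772), (nat_lit 1631801), (nat_lit 0), (nat_lit 0)]) (PF.cons (PF.leaf (nat_lit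 4395400) (nat_lit 516506) (nat_lit 51994984) (nat_lit 10239048) [(nat_lit 516506), (nat_lit 1662630), (nat_lit 0), (nat_lit 0)]) (PF.cons (PF.leaf (nat_lit 4746248) (nat_lit 532692) (nat_lit 51357163) (nat_lit
 10238333) [(nat_lit 532692), (nat_lit 1691273), (nat_lit 0), (nat_lit 0)]) (PF.cons (PF.leaf (nat_lit 5109511) (nat_lit 547480) (nat_lit 50703167) (nat_lit 10232864) [(nat_lit 547480), (nat_lit 1717689), (nat_lit 0), (nat_lit 0)]) (PF.cons (PF.leaf (nat_lit 5483329) (nat_lit 560987) (nat_lit 50036580) (nat_lit 10222538) [(nat_lit 560987), (nat_lit 1741884), (nat_lit 0), (nat_lit 0)]) (PF.cons PF.nil (PF.cons PF.nil PF.nil))))))))) (PF.cons (PF.cons (PF.leaf (nat_lit 4213624) (nat_lit 1652544) (nat_lit 51919371) (nat_lit 10231809) [(nat_lit 0), (nat_lit 1652544), (nat_lit 0), (nat_lit 0)]) (PF.cons (PF.leaf (nat_lit 4542222) (nat_lit 521764) (nat_lit 51314122) (nat_lit 10230822) [(nat_lit 521764), (nat_lit 1680701), (nat_lit 0), (nat_lit 0)]) (PF.cons (PF.leaf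 (nat_lit 4886417) (nat_lit 537450) (nat_lit 50687549) (nat_lit 10225497) [(nat_lit 537450), (nat_lit 1706954), (nat_lit 0), (nat_lit 0)]) (PF.cons (PF.leaf (nat_lit 5243442) (nat_lit 551726) (nat_lit 50044371) (nat_lit 10215638) [(nat_lit 551726), (nat_lit 1731207), (nat_lit 0), (nat_lit 0)]) (PF.cons (PF.leaf (nat_lit 5611243) (nat_lit 564726) (nat_lit 49388466) (nat_lit 10201156) [(nat_lit 564726), (nat_lit 1753428),
 (nat_lit 0), (nat_lit 0)]) (PF.cons PF.nil (PF.cons PF.nil PF.nil))))))) (PF.cons (PF.cons (PF.leaf (nat_lit 5027049) (nat_lit 1721110) (nat_lit 50016229) (nat_lit 10208141) [(nat_lit 0), (nat_lit 1721110), (nat_lit 0), (nat_lit 0)]) (PF.cons (PF.leaf (nat_lit 5376708) (nat_lit 555267) (nat_lit 49386058) (nat_lit 10194257) [(nat_lit 555267), (nat_lit 1743307), (nat_lit 0), (nat_lit 0)]) (PF.cons (PF.leaf (nat_lit 5737937) (nat_lit 567842) (nat_lit 48742519) (nat_lit 10175966) [(nat_lit 567842), (nat_lit 1763660), (nat_lit 0), (nat_lit 0)]) (PF.cons (PF.leaf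 (nat_lit 6108500) (nat_lit 579242) (nat_lit 48089196) (nat_lit 10153273) [(nat_lit 579242), (nat_lit 1782153), (nat_lit 0), (nat_lit 0)]) (PF.cons PF.nil PF.nil))))) (PF.cons (PF.cons (PF.leaf (nat_lit 5864316) (nat_lit 1772666) (nat_lit 48098356) (nat_lit 10147121) [(nat_lit 0), (nat_lit 1772666), (nat_lit 0), (nat_lit 0)]) (PF.cons (PF.leaf (nat_lit 6227790) (nat_lit 581378) (nat_lit 47458531) (nat_lit 10121186) [(nat_lit 581378), (nat_lit 1789543), (nat_lit 0), (nat_lit 0)]) (PF.cons (PF.leaf (nat_lit 6599593) (nat_lit 591342) (nat_lit 46811427) (nat_lit 10091131) [(nat_lit 591342), (nat_lit 1804713), (nat_lit 0), (nat_lit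
 0)]) (PF.cons PF.nil PF.nil)))) (PF.cons (PF.cons (PF.leaf (nat_lit 6711686) (nat_lit 1809638) (nat_lit 46197831) (nat_lit 10053149) [(nat_lit 0), (nat_lit 1809638), (nat_lit 0), (nat_lit 0)]) (PF.cons PF.nil PF.nil)) (PF.cons PF.nil (PF.cons PF.nil PF.nil))))))))) (PF.cons (PF.cons (PF.cons (PF.leaf (nat_lit 3328390) (nat_lit 3675580) (nat_lit 53242106) (nat_lit 10191126) [(nat_lit 0), (nat_lit 0), (nat_lit 3675580), (nat_lit 0)]) (PF.cons (PF.leaf (nat_lit 3596116) (nat_lit 455259) (nat_lit 52742190) (nat_lit 10199487) [(nat_lit 455259), (nat_lit 0), (nat_lit 3711875), (nat_lit 0)]) (PF.cons (PF.leaf (nat_lit 3889248) (nat_lit 477679) (nat_lit 52200900) (nat_lit 10205034) [(nat_lit 477679), (nat_lit 0), (nat_lit 3747519), (nat_lit 0)]) (PF.cons (PF.leaf (nat_lit 4202875) (nat_lit 497657) (nat_lit 51627178) (nat_lit 10207088) [(nat_lit 497657), (nat_lit 0), (nat_lit 3781574), (nat_lit 0)]) (PF.cons (PF.leaf (nat_lit 4533711) (nat_lit 515623) (nat_lit 51027693) (nat_lit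 10205181) [(nat_lit 515623), (nat_lit 0), (nat_lit 3813444), (nat_lit 0)]) (PF.cons (PF.leaf (nat_lit 4879121) (nat_lit 531866) (nat_lit 50407717) (nat_lit 10199010) [(nat_lit 531866), (nat_lit 0), (nat_lit
 3842755), (nat_lit 0)]) (PF.cons (PF.leaf (nat_lit 5236891) (nat_lit 546592) (nat_lit 49771587) (nat_lit 10188392) [(nat_lit 546592), (nat_lit 0), (nat_lit 3869277), (nat_lit 0)]) (PF.cons (PF.leaf (nat_lit 5605108) (nat_lit 559959) (nat_lit 49122963) (nat_lit 10173246) [(nat_lit 559959), (nat_lit 0), (nat_lit 3892885), (nat_lit 0)]) (PF.cons PF.nil (PF.cons PF.nil PF.nil)))))))))) (PF.cons (PF.cons (PF.leaf (nat_lit 4049420) (nat_lit 1627813) (nat_lit 51504587) (nat_lit 10199766) [(nat_lit 0), (nat_lit 1627813), (nat_lit 3776645), (nat_lit 0)]) (PF.cons (PF.leaf (nat_lit 4353797) (nat_lit 502650) (nat_lit 50945726) (nat_lit 10197436) [(nat_lit 502650), (nat_lit 1656576), (nat_lit 3806423), (nat_lit 0)]) (PF.cons (PF.leaf (nat_lit 4677021) (nat_lit 520226) (nat_lit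 50359096) (nat_lit 10191283) [(nat_lit 520226), (nat_lit 1683580), (nat_lit 3834399), (nat_lit 0)]) (PF.cons (PF.leaf (nat_lit 5015581) (nat_lit 536028) (nat_lit 49750918) (nat_lit 10181027) [(nat_lit 536028), (nat_lit 1708648), (nat_lit 3860132), (nat_lit 0)]) (PF.cons (PF.leaf (nat_lit 5366970) (nat_lit 550295) (nat_lit 49126059) (nat_lit 10166509) [(nat_lit 550295), (nat_lit 1731711), (nat_lit 3883350), (nat_lit 0)])
 (PF.cons (PF.leaf (nat_lit 5729103) (nat_lit 563200) (nat_lit 48488480) (nat_lit 10147666) [(nat_lit 563200), (nat_lit 1752759), (nat_lit 3903901), (nat_lit 0)]) (PF.cons PF.nil (PF.cons PF.nil (PF.cons PF.nil PF.nil))))))))) (PF.cons (PF.cons (PF.leaf (nat_lit 4822183) (nat_lit 1698482) (nat_lit 49686413) (nat_lit 10172851) [(nat_lit 0), (nat_lit 1698482), (nat_lit 3852583), (nat_lit 0)]) (PF.cons (PF.leaf (nat_lit 5152396) (nat_lit 539390) (nat_lit 49092873) (nat_lit 10158883) [(nat_lit 539390), (nat_lit 1721371), (nat_lit 3874922), (nat_lit 0)]) (PF.cons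 (PF.leaf (nat_lit 5496595) (nat_lit 553308) (nat_lit 48481384) (nat_lit 10140817) [(nat_lit 553308), (nat_lit 1742485), (nat_lit 3895024), (nat_lit 0)]) (PF.cons (PF.leaf (nat_lit 5852072) (nat_lit 565838) (nat_lit 47856452) (nat_lit 10118608) [(nat_lit 565838), (nat_lit 1761768), (nat_lit 3912700), (nat_lit 0)]) (PF.cons (PF.leaf (nat_lit 6216878) (nat_lit 577132) (nat_lit 47221709) (nat_lit 10092280) [(nat_lit 577132), (nat_lit 1779219), (nat_lit 3927854), (nat_lit 0)]) (PF.cons PF.nil (PF.cons PF.nil PF.nil))))))) (PF.cons (PF.cons (PF.leaf (nat_lit 5626915) (nat_lit 1752023) (nat_lit 47836874) (nat_lit 10111429) [(nat_lit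
 0), (nat_lit 1752023), (nat_lit 3904438), (nat_lit 0)]) (PF.cons (PF.leaf (nat_lit 5974678) (nat_lit 567863) (nat_lit 47226447) (nat_lit 10086201) [(nat_lit 567863), (nat_lit 1769630), (nat_lit 3919410), (nat_lit 0)]) (PF.cons (PF.leaf (nat_lit 6332623) (nat_lit 578849) (nat_lit 46605336) (nat_lit 10057025) [(nat_lit 578849), (nat_lit 1785558), (nat_lit 3932074), (nat_lit 0)]) (PF.cons (PF.leaf (nat_lit 6698635) (nat_lit 588707) (nat_lit 45976874) (nat_lit 10023992) [(nat_lit 588707), (nat_lit 1799815), (nat_lit 3942376), (nat_lit 0)]) (PF.cons PF.nil PF.nil))))) (PF.cons (PF.cons (PF.leaf (nat_lit 6448367) (nat_lit 1790902) (nat_lit 45991876) (nat_lit 10018851) [(nat_lit 0), (nat_lit 1790902), (nat_lit 3934476), (nat_lit 0)]) (PF.cons (PF.leaf (nat_lit 6807151) (nat_lit 589629) (nat_lit 45377716) (nat_lit 9983457) [(nat_lit 589629), (nat_lit 1803844), (nat_lit 3942630), (nat_lit 0)]) (PF.cons PF.nil (PF.cons PF.nil PF.nil)))) (PF.cons (PF.cons (PF.leaf (nat_lit 7274727)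 (nat_lit 1817289) (nat_lit 44177412) (nat_lit 9899527) [(nat_lit 0), (nat_lit 1817289), (nat_lit 3945424), (nat_lit 0)]) (PF.cons PF.nil PF.nil)) (PF.cons PF.nil (PF.cons PF.nil PF.nil)))))))) (PF.cons (PF.cons
 (PF.cons (PF.leaf (nat_lit 4640816) (nat_lit 3829871) (nat_lit 49312969) (nat_lit 10136101) [(nat_lit 0), (nat_lit 0), (nat_lit 3829871), (nat_lit 0)]) (PF.cons (PF.leaf (nat_lit 4948164) (nat_lit 520589) (nat_lit 48763343) (nat_lit 10122164) [(nat_lit 520589), (nat_lit 0), (nat_lit 3851358), (nat_lit 0)]) (PF.cons (PF.leaf (nat_lit 5272814) (nat_lit 536466) (nat_lit 48189345) (nat_lit 10104404) [(nat_lit 536466), (nat_lit 0), (nat_lit 3871064), (nat_lit 0)]) (PF.cons (PF.leaf (nat_lit 5611261) (nat_lit 550568) (nat_lit 47597021) (nat_lit 10082738) [(nat_lit 550568), (nat_lit 0), (nat_lit 3888673), (nat_lit 0)]) (PF.cons (PF.leaf (nat_lit 5961049) (nat_lit 563161) (nat_lit 46991010) (nat_lit 10057155) [(nat_lit 563161), (nat_lit 0), (nat_lit 3904001), (nat_lit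 0)]) (PF.cons (PF.leaf (nat_lit 6320189) (nat_lit 574436) (nat_lit 46375020) (nat_lit 10027698) [(nat_lit 574436), (nat_lit 0), (nat_lit 3916956), (nat_lit 0)]) (PF.cons PF.nil PF.nil))))))) (PF.cons (PF.cons (PF.leaf (nat_lit 5408505) (nat_lit 1729925) (nat_lit 47542752) (nat_lit 10074233) [(nat_lit 0), (nat_lit 1729925), (nat_lit 3880950), (nat_lit 0)]) (PF.cons (PF.leaf (nat_lit 5738189) (nat_lit 552386) (nat_lit
 46966540) (nat_lit 10049822) [(nat_lit 552386), (nat_lit 1748387), (nat_lit 3895838), (nat_lit 0)]) (PF.cons (PF.leaf (nat_lit 6080448) (nat_lit 564754) (nat_lit 46375159) (nat_lit 10021608) [(nat_lit 564754), (nat_lit 1765194), (nat_lit 3908670), (nat_lit 0)]) (PF.cons (PF.leaf (nat_lit 6432701) (nat_lit 575766) (nat_lit 45772870) (nat_lit 9989659) [(nat_lit 575766), (nat_lit 1780328), (nat_lit 3919326), (nat_lit 0)]) (PF.cons (PF.leaf (nat_lit 6793048) (nat_lit 585589) (nat_lit 45163051) (nat_lit 9954083) [(nat_lit 585589), (nat_lit 1793807), (nat_lit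 3927757), (nat_lit 0)]) PF.nil))))) (PF.cons (PF.cons (PF.leaf (nat_lit 6200795) (nat_lit 1771016) (nat_lit 45760706) (nat_lit 9983061) [(nat_lit 0), (nat_lit 1771016), (nat_lit 3911506), (nat_lit 0)]) (PF.cons (PF.leaf (nat_lit 6545136) (nat_lit 576560) (nat_lit 45173712) (nat_lit 9948945) [(nat_lit 576560), (nat_lit 1784785), (nat_lit 3920011), (nat_lit 0)]) (PF.cons (PF.leaf (nat_lit 6898505) (nat_lit 586173) (nat_lit 44578160) (nat_lit 9911322) [(nat_lit 586173), (nat_lit 1797027), (nat_lit 3926463), (nat_lit 0)]) (PF.cons PF.nil PF.nil)))) (PF.cons (PF.cons (PF.leaf (nat_lit 7004241) (nat_lit 1799436) (nat_lit 43996850)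
 (nat_lit 9866246) [(nat_lit 0), (nat_lit 1799436), (nat_lit 3923703), (nat_lit 0)]) (PF.cons (PF.leaf (nat_lit 7357367) (nat_lit 594645) (nat_lit 43410418) (nat_lit 9823633) [(nat_lit 594645), (nat_lit 1809110), (nat_lit 3926392), (nat_lit 0)]) PF.nil)) (PF.cons PF.nil (PF.cons PF.nil PF.nil)))))) (PF.cons (PF.cons (PF.cons (PF.leaf (nat_lit 5971551) (nat_lit 3888102) (nat_lit 45499104) (nat_lit 9945400) [(nat_lit 0), (nat_lit 0), (nat_lit 3888102), (nat_lit 0)]) (PF.cons (PF.leaf (nat_lit 6299066) (nat_lit 561572) (nat_lit 44943854) (nat_lit 9912741) [(nat_lit 561572), (nat_lit 0), (nat_lit 3896881), (nat_lit 0)]) (PF.cons (PF.leaf (nat_lit 6637991) (nat_lit 572583) (nat_lit 44375718) (nat_lit 9876593) [(nat_lit 572583), (nat_lit 0), (nat_lit 3903778), (nat_lit 0)]) (PF.cons (PF.leaf (nat_lit 6985796) (nat_lit 582275) (nat_lit 43798698) (nat_lit 9837107) [(nat_lit 582275), (nat_lit 0), (nat_lit 3908726), (nat_lit 0)]) (PF.cons PF.nil PF.nil))))) (PF.cons (PF.cons (PF.leaf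 (nat_lit 6748832) (nat_lit 1780434) (nat_lit 43792859) (nat_lit 9831236) [(nat_lit 0), (nat_lit 1780434), (nat_lit 3901427), (nat_lit 0)]) (PF.cons (PF.leaf (nat_lit 7088667) (nat_lit 582071) (nat_lit 43231416)
 (nat_lit 9790288) [(nat_lit 582071), (nat_lit 1790995), (nat_lit 3904680), (nat_lit 0)]) (PF.cons (PF.leaf (nat_lit 7436556) (nat_lit 590496) (nat_lit 42663088) (nat_lit 9746242) [(nat_lit 590496), (nat_lit 1800165), (nat_lit 3906108), (nat_lit 0)]) (PF.cons PF.nil PF.nil)))) (PF.cons (PF.cons (PF.leaf (nat_lit 7532976) (nat_lit 1800227) (nat_lit 42114182) (nat_lit 9696212) [(nat_lit 0), (nat_lit 1800227), (nat_lit 3899321), (nat_lit 0)]) (PF.cons PF.nil PF.nil)) (PF.cons PF.nil (PF.cons PF.nil PF.nil))))) (PF.cons (PF.cons (PF.cons (PF.leaf (nat_lit 7271711) (nat_lit 3877971) (nat_lit 41934383) (nat_lit 9662545) [(nat_lit 0), (nat_lit 0), (nat_lit 3877971), (nat_lit 0)]) (PF.cons (PF.leaf (nat_lit 7606261) (nat_lit 584983) (nat_lit 41399466) (nat_lit 9616465)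 [(nat_lit 584983), (nat_lit 0), (nat_lit 3876974), (nat_lit 0)]) (PF.cons (PF.leaf (nat_lit 7948068) (nat_lit 592377) (nat_lit 40858981) (nat_lit 9567653) [(nat_lit 592377), (nat_lit 0), (nat_lit 3874355), (nat_lit 0)]) (PF.cons PF.nil PF.nil)))) (PF.cons (PF.cons (PF.leaf (nat_lit 8035885) (nat_lit 1794865) (nat_lit 40341924) (nat_lit 9514217) [(nat_lit 0), (nat_lit 1794865), (nat_lit 3864451), (nat_lit 0)]) (PF.cons PF.nil
 PF.nil)) (PF.cons PF.nil PF.nil))) (PF.cons (PF.cons (PF.cons (PF.leaf (nat_lit 8514451) (nat_lit 3821595) (nat_lit 38676278) (nat_lit 9324558) [(nat_lit 0), (nat_lit 0), (nat_lit 3821595), (nat_lit 0)]) (PF.cons PF.nil PF.nil)) (PF.cons PF.nil PF.nil)) (PF.cons PF.nil (PF.cons PF.nil PF.nil)))))))) (PF.cons (PF.cons (PF.cons (PF.cons (PF.leaf (nat_lit 4256889) (nat_lit 9128093) (nat_lit 48034168) (nat_lit 9946550) [(nat_lit 0), (nat_lit 0), (nat_lit 0), (nat_lit 9128093)]) (PF.cons (PF.leaf (nat_lit 4521396) (nat_lit 469439) (nat_lit 47581446)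 (nat_lit 9935399) [(nat_lit 469439), (nat_lit 0), (nat_lit 0), (nat_lit 9122528)]) (PF.cons (PF.leaf (nat_lit 4809117) (nat_lit 489999) (nat_lit 47093835) (nat_lit 9920919) [(nat_lit 489999), (nat_lit 0), (nat_lit 0), (nat_lit 9114058)]) (PF.cons (PF.leaf (nat_lit 5115129) (nat_lit 507922) (nat_lit 46579632) (nat_lit 9902964) [(nat_lit 507922), (nat_lit 0), (nat_lit 0), (nat_lit 9102446)]) (PF.cons (PF.leaf (nat_lit 5436116) (nat_lit 523722) (nat_lit 46044914) (nat_lit 9881457) [(nat_lit 523722), (nat_lit 0), (nat_lit 0), (nat_lit 9087550)]) (PF.cons (PF.leaf (nat_lit 5769539) (nat_lit 537746) (nat_lit 45494398) (nat_lit 9856378) [(nat_lit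
 537746), (nat_lit 0), (nat_lit 0), (nat_lit 9069301)]) (PF.cons (PF.leaf (nat_lit 6113274) (nat_lit 550247) (nat_lit 44931877) (nat_lit 9827757) [(nat_lit 550247), (nat_lit 0), (nat_lit 0), (nat_lit 9047690)]) (PF.cons (PF.leaf (nat_lit 6465568) (nat_lit 561414) (nat_lit 44360487) (nat_lit 9795663) [(nat_lit 561414), (nat_lit 0), (nat_lit 0), (nat_lit 9022758)]) (PF.cons (PF.leaf (nat_lit 6824896) (nat_lit 571396) (nat_lit 43782858) (nat_lit 9760199) [(nat_lit 571396), (nat_lit 0), (nat_lit 0), (nat_lit 8994581)]) (PF.cons PF.nil PF.nil)))))))))) (PF.cons (PF.cons (PF.leaf (nat_lit 4952412) (nat_lit 1646428) (nat_lit 46476564) (nat_lit 9892688) [(nat_lit 0), (nat_lit 1646428), (nat_lit 0), (nat_lit 9093131)]) (PF.cons (PF.leaf (nat_lit 5248485) (nat_lit 510480) (nat_lit 45978133) (nat_lit 9872331) [(nat_lit 510480), (nat_lit 1668905), (nat_lit 0), (nat_lit 9078961)]) (PF.cons (PF.leaf (nat_lit 5561326) (nat_lit 526041) (nat_lit 45457134) (nat_lit 9848453) [(nat_lit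 526041), (nat_lit 1689572), (nat_lit 0), (nat_lit 9061570)]) (PF.cons (PF.leaf (nat_lit 5887493) (nat_lit 539771) (nat_lit 44919133) (nat_lit 9821077) [(nat_lit 539771), (nat_lit 1708365), (nat_lit 0), (nat_lit
 9040922)]) (PF.cons (PF.leaf (nat_lit 6224613) (nat_lit 551955) (nat_lit 44368403) (nat_lit 9790262) [(nat_lit 551955), (nat_lit 1725293), (nat_lit 0), (nat_lit 9017030)]) (PF.cons (PF.leaf (nat_lit 6570711) (nat_lit 562800) (nat_lit 43808359) (nat_lit 9756097) [(nat_lit 562800), (nat_lit 1740405), (nat_lit 0), (nat_lit 8989948)]) (PF.cons (PF.leaf (nat_lit 6924161) (nat_lit 572463) (nat_lit 43241800) (nat_lit 9718697) [(nat_lit 572463), (nat_lit 1753770), (nat_lit 0), (nat_lit 8959761)]) (PF.cons PF.nil (PF.cons PF.nil PF.nil))))))))) (PF.cons (PF.cons (PF.leaf (nat_lit 5688618) (nat_lit 1698065) (nat_lit 44867686) (nat_lit 9812378) [(nat_lit 0), (nat_lit 1698065), (nat_lit 0), (nat_lit 9032616)]) (PF.cons (PF.leaf (nat_lit 6006197) (nat_lit 541124) (nat_lit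 44344416) (nat_lit 9783039) [(nat_lit 541124), (nat_lit 1715177), (nat_lit 0), (nat_lit 9009876)]) (PF.cons (PF.leaf (nat_lit 6335961) (nat_lit 553099) (nat_lit 43807066) (nat_lit 9750324) [(nat_lit 553099), (nat_lit 1730623), (nat_lit 0), (nat_lit 8983975)]) (PF.cons (PF.leaf (nat_lit 6675358) (nat_lit 563701) (nat_lit 43259542) (nat_lit 9714351) [(nat_lit 563701), (nat_lit 1744412), (nat_lit 0), (nat_lit 8954989)]) (PF.cons
 (PF.leaf (nat_lit 7022574) (nat_lit 573109) (nat_lit 42704933) (nat_lit 9675252) [(nat_lit 573109), (nat_lit 1756584), (nat_lit 0), (nat_lit 8923018)]) (PF.cons (PF.leaf (nat_lit 7376097) (nat_lit 581460) (nat_lit 42145756) (nat_lit 9633174) [(nat_lit 581460), (nat_lit 1767199), (nat_lit 0), (nat_lit 8888179)]) (PF.cons PF.nil PF.nil))))))) (PF.cons (PF.cons (PF.leaf (nat_lit 6448419) (nat_lit 1735053) (nat_lit 43247098) (nat_lit 9707979) [(nat_lit 0), (nat_lit 1735053), (nat_lit 0), (nat_lit 8948573)]) (PF.cons (PF.leaf (nat_lit 6780145) (nat_lit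 564104) (nat_lit 42713506) (nat_lit 9670479) [(nat_lit 564104), (nat_lit 1747592), (nat_lit 0), (nat_lit 8917946)]) (PF.cons (PF.leaf (nat_lit 7120635) (nat_lit 573328) (nat_lit 42171876) (nat_lit 9629931) [(nat_lit 573328), (nat_lit 1758641), (nat_lit 0), (nat_lit 8884422)]) (PF.cons (PF.leaf (nat_lit 7467918) (nat_lit 581477) (nat_lit 41625021) (nat_lit 9586498) [(nat_lit 581477), (nat_lit 1768242), (nat_lit 0), (nat_lit 8848135)]) (PF.cons PF.nil PF.nil))))) (PF.cons (PF.cons (PF.leaf (nat_lit 7219208) (nat_lit 1759987) (nat_lit 41642067) (nat_lit 9582773) [(nat_lit 0), (nat_lit 1759987), (nat_lit 0), (nat_lit 8844022)]) (PF.cons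
 (PF.leaf (nat_lit 7559518) (nat_lit 581114) (nat_lit 41108441) (nat_lit 9538219) [(nat_lit 581114), (nat_lit 1768633), (nat_lit 0), (nat_lit 8806505)]) (PF.cons (PF.leaf (nat_lit 7905976) (nat_lit 588151) (nat_lit 40571136) (nat_lit 9491026) [(nat_lit 588151), (nat_lit 1775973), (nat_lit 0), (nat_lit 8766453)]) (PF.cons PF.nil PF.nil)))) (PF.cons (PF.cons (PF.leaf (nat_lit 7991519) (nat_lit 1774937) (nat_lit 40071445) (nat_lit 9440347) [(nat_lit 0), (nat_lit 1774937), (nat_lit 0), (nat_lit 8722331)]) (PF.cons PF.nil PF.nil)) (PF.cons PF.nil (PF.cons PF.nil PF.nil)))))))) (PF.cons (PF.cons (PF.cons (PF.leaf (nat_lit 5493753) (nat_lit 3782427) (nat_lit 44559394) (nat_lit 9771845) [(nat_lit 0), (nat_lit 0), (nat_lit 3782427), (nat_lit 8995145)]) (PF.cons (PF.leaf (nat_lit 5790487) (nat_lit 522339) (nat_lit 44074432) (nat_lit 9744184) [(nat_lit 522339), (nat_lit 0), (nat_lit 3794161), (nat_lit 8973695)]) (PF.cons (PF.leaf (nat_lit 6102722) (nat_lit 536419) (nat_lit 43569537)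 (nat_lit 9713102) [(nat_lit 536419), (nat_lit 0), (nat_lit 3804226), (nat_lit 8949107)]) (PF.cons (PF.leaf (nat_lit 6427046) (nat_lit 548707) (nat_lit 43050028) (nat_lit 9678743) [(nat_lit 548707), (nat_lit 0),
 (nat_lit 3812454), (nat_lit 8921463)]) (PF.cons (PF.leaf (nat_lit 6761170) (nat_lit 559502) (nat_lit 42519927) (nat_lit 9641250) [(nat_lit 559502), (nat_lit 0), (nat_lit 3818764), (nat_lit 8890860)]) (PF.cons (PF.leaf (nat_lit 7103203) (nat_lit 569019) (nat_lit 41982401) (nat_lit 9600769) [(nat_lit 569019), (nat_lit 0), (nat_lit 3823135), (nat_lit 8857410)]) (PF.cons (PF.leaf (nat_lit 7451614) (nat_lit 577420) (nat_lit 41440012) (nat_lit 9557456) [(nat_lit 577420), (nat_lit 0), (nat_lit 3825583), (nat_lit 8821240)]) (PF.cons PF.nil (PF.cons PF.nil PF.nil))))))))) (PF.cons (PF.cons (PF.leaf (nat_lit 6221481) (nat_lit 1713141) (nat_lit 43007255) (nat_lit 9670313) [(nat_lit 0), (nat_lit 1713141), (nat_lit 3804735), (nat_lit 8913367)]) (PF.cons (PF.leaf (nat_lit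 6537048) (nat_lit 548925) (nat_lit 42503054) (nat_lit 9634643) [(nat_lit 548925), (nat_lit 1726832), (nat_lit 3811085), (nat_lit 8884270)]) (PF.cons (PF.leaf (nat_lit 6863707) (nat_lit 559614) (nat_lit 41986787) (nat_lit 9595861) [(nat_lit 559614), (nat_lit 1738993), (nat_lit 3815684), (nat_lit 8852256)]) (PF.cons (PF.leaf (nat_lit 7198992) (nat_lit 568981) (nat_lit 41462115) (nat_lit 9554148) [(nat_lit 568981), (nat_lit
 1749650), (nat_lit 3818489), (nat_lit 8817466)]) (PF.cons (PF.leaf (nat_lit 7541168) (nat_lit 577209) (nat_lit 40931898) (nat_lit 9509678) [(nat_lit 577209), (nat_lit 1758856), (nat_lit 3819502), (nat_lit 8780040)]) (PF.cons PF.nil (PF.cons PF.nil PF.nil))))))) (PF.cons (PF.cons (PF.leaf (nat_lit 6967587) (nat_lit 1740816) (nat_lit 41455591) (nat_lit 9548517) [(nat_lit 0), (nat_lit 1740816), (nat_lit 3811328), (nat_lit 8811743)]) (PF.cons (PF.leaf (nat_lit 7295175) (nat_lit 568501) (nat_lit 40945009) (nat_lit 9505831) [(nat_lit 568501), (nat_lit 1750465),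 (nat_lit 3812685), (nat_lit 8775853)]) (PF.cons (PF.leaf (nat_lit 7630641) (nat_lit 576623) (nat_lit 40427847) (nat_lit 9460431) [(nat_lit 576623), (nat_lit 1758765), (nat_lit 3812373), (nat_lit 8737383)]) (PF.cons (PF.leaf (nat_lit 7972094) (nat_lit 583721) (nat_lit 39906699) (nat_lit 9412509) [(nat_lit 583721), (nat_lit 1765764), (nat_lit 3810413), (nat_lit 8696495)]) (PF.cons PF.nil PF.nil))))) (PF.cons (PF.cons (PF.leaf (nat_lit 7720867) (nat_lit 1758094) (nat_lit 39927269) (nat_lit 9409728) [(nat_lit 0), (nat_lit 1758094), (nat_lit 3804242), (nat_lit 8693289)]) (PF.cons (PF.leaf (nat_lit 8055425) (nat_lit 582670) (nat_lit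
 39419223) (nat_lit 9361147) [(nat_lit 582670), (nat_lit 1764326), (nat_lit 3801168), (nat_lit 8651623)]) (PF.cons PF.nil (PF.cons PF.nil PF.nil)))) (PF.cons (PF.cons (PF.leaf (nat_lit 8473046) (nat_lit 1766797) (nat_lit 38437704) (nat_lit 9257258) [(nat_lit 0), (nat_lit 1766797), (nat_lit 3785543), (nat_lit 8561116)]) (PF.cons PF.nil PF.nil)) (PF.cons PF.nil PF.nil)))))) (PF.cons (PF.cons (PF.cons (PF.leaf (nat_lit 6733267) (nat_lit 3788343) (nat_lit 41242660) (nat_lit 9511968) [(nat_lit 0), (nat_lit 0), (nat_lit 3788343), (nat_lit 8777496)]) (PF.cons (PF.leaf (nat_lit 7045782) (nat_lit 553967) (nat_lit 40759153) (nat_lit 9471417) [(nat_lit 553967), (nat_lit 0), (nat_lit 3790413), (nat_lit 8743447)]) (PF.cons (PF.leaf (nat_lit 7368467) (nat_lit 563533) (nat_lit 40265238) (nat_lit 9428012) [(nat_lit 563533), (nat_lit 0), (nat_lit 3790886), (nat_lit 8706722)]) (PF.cons (PF.leaf (nat_lit 7698916) (nat_lit 571826) (nat_lit 39764337) (nat_lit 9381981) [(nat_lit 571826),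 (nat_lit 0), (nat_lit 3789752), (nat_lit 8667507)]) (PF.cons (PF.leaf (nat_lit 8035474) (nat_lit 579035) (nat_lit 39259093) (nat_lit 9333528) [(nat_lit 579035), (nat_lit 0), (nat_lit 3787035), (nat_lit 8625974)])
 PF.nil))))) (PF.cons (PF.cons (PF.leaf (nat_lit 7464298) (nat_lit 1740028) (nat_lit 39762812) (nat_lit 9377130) [(nat_lit 0), (nat_lit 1740028), (nat_lit 3783161), (nat_lit 8662519)]) (PF.cons (PF.leaf (nat_lit 7787094) (nat_lit 570636) (nat_lit 39275875) (nat_lit 9330580) [(nat_lit 570636), (nat_lit 1747262), (nat_lit 3780903), (nat_lit 8622649)]) (PF.cons (PF.leaf (nat_lit 8117018) (nat_lit 577803) (nat_lit 38783513) (nat_lit 9281617) [(nat_lit 577803), (nat_lit 1753272), (nat_lit 3777159), (nat_lit 8580484)]) (PF.cons PF.nil PF.nil)))) (PF.cons (PF.cons (PF.leaf (nat_lit 8199533) (nat_lit 1750995) (nat_lit 38311464) (nat_lit 9228559) [(nat_lit 0), (nat_lit 1750995), (nat_lit 3766471), (nat_lit 8533855)]) (PF.cons (PF.leaf (nat_lit 8527987) (nat_lit 582393)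 (nat_lit 37828860) (nat_lit 9177109) [(nat_lit 582393), (nat_lit 1755221), (nat_lit 3760421), (nat_lit 8489165)]) PF.nil)) (PF.cons PF.nil (PF.cons PF.nil PF.nil))))) (PF.cons (PF.cons (PF.cons (PF.leaf (nat_lit 7939445) (nat_lit 3746585) (nat_lit 38166445) (nat_lit 9197819) [(nat_lit 0), (nat_lit 0), (nat_lit 3746585), (nat_lit 8504792)]) (PF.cons (PF.leaf (nat_lit 8256988) (nat_lit 570927) (nat_lit 37703164) (nat_lit
 9148488) [(nat_lit 570927), (nat_lit 0), (nat_lit 3741412), (nat_lit 8461995)]) (PF.cons (PF.leaf (nat_lit 8581039) (nat_lit 577265) (nat_lit 37235377) (nat_lit 9097013) [(nat_lit 577265), (nat_lit 0), (nat_lit 3734911), (nat_lit 8417156)]) (PF.cons PF.nil PF.nil)))) (PF.cons (PF.cons (PF.leaf (nat_lit 8656452) (nat_lit 1739777) (nat_lit 36790778) (nat_lit 9042539) [(nat_lit 0), (nat_lit 1739777), (nat_lit 3722269), (nat_lit 8368910)]) (PF.cons PF.nil PF.nil)) (PF.cons PF.nil PF.nil))) (PF.cons (PF.cons (PF.cons (PF.leaf (nat_lit 9092928) (nat_lit 3673266)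 (nat_lit 35360567) (nat_lit 8854222) [(nat_lit 0), (nat_lit 0), (nat_lit 3673266), (nat_lit 8200955)]) (PF.cons PF.nil PF.nil)) (PF.cons PF.nil PF.nil)) (PF.cons PF.nil PF.nil)))))) (PF.cons (PF.cons (PF.cons (PF.cons (PF.leaf (nat_lit 6245512) (nat_lit 8629609) (nat_lit 40494105) (nat_lit 9355487) [(nat_lit 0), (nat_lit 0), (nat_lit 0), (nat_lit 8629609)]) (PF.cons (PF.leaf (nat_lit 6530982) (nat_lit 517256) (nat_lit 40068815) (nat_lit 9320867) [(nat_lit 517256), (nat_lit 0), (nat_lit 0), (nat_lit 8600936)]) (PF.cons (PF.leaf (nat_lit 6830541) (nat_lit 529909) (nat_lit 39626887) (nat_lit 9283195) [(nat_lit 529909), (nat_lit 0),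
 (nat_lit 0), (nat_lit 8569455)]) (PF.cons (PF.leaf (nat_lit 7140928) (nat_lit 540794) (nat_lit 39172957) (nat_lit 9242733) [(nat_lit 540794), (nat_lit 0), (nat_lit 0), (nat_lit 8535369)]) (PF.cons (PF.leaf (nat_lit 7459941) (nat_lit 550225) (nat_lit 38710493) (nat_lit 9199702) [(nat_lit 550225), (nat_lit 0), (nat_lit 0), (nat_lit 8498857)]) (PF.cons (PF.leaf (nat_lit 7785845) (nat_lit 558430) (nat_lit 38242196) (nat_lit 9154300) [(nat_lit 558430), (nat_lit 0), (nat_lit 0), (nat_lit 8460081)]) (PF.cons (PF.leaf (nat_lit 8117220) (nat_lit 565579) (nat_lit 37770226) (nat_lit 9106709) [(nat_lit 565579), (nat_lit 0), (nat_lit 0), (nat_lit 8419198)]) (PF.cons PF.nil (PF.cons PF.nil PF.nil))))))))) (PF.cons (PF.cons (PF.leaf (nat_lit 6935535) (nat_lit 1678992) (nat_lit 39139357) (nat_lit 9234882) [(nat_lit 0), (nat_lit 1678992), (nat_lit 0), (nat_lit 8527790)]) (PF.cons (PF.leaf (nat_lit 7237328) (nat_lit 539965) (nat_lit 38699322) (nat_lit 9193971) [(nat_lit 539965), (nat_lit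 1689357), (nat_lit 0), (nat_lit 8493097)]) (PF.cons (PF.leaf (nat_lit 7549117) (nat_lit 549377) (nat_lit 38249363) (nat_lit 9150456) [(nat_lit 549377), (nat_lit 1698312), (nat_lit 0), (nat_lit 8455963)]) (PF.cons
 (PF.leaf (nat_lit 7868532) (nat_lit 557514) (nat_lit 37792618) (nat_lit 9104572) [(nat_lit 557514), (nat_lit 1705912), (nat_lit 0), (nat_lit 8416583)]) (PF.cons (PF.leaf (nat_lit 8193965) (nat_lit 564568) (nat_lit 37331519) (nat_lit 9056527) [(nat_lit 564568), (nat_lit 1712227), (nat_lit 0), (nat_lit 8375132)]) (PF.cons PF.nil (PF.cons PF.nil PF.nil))))))) (PF.cons (PF.cons (PF.leaf (nat_lit 7639954) (nat_lit 1697613) (nat_lit 37790137) (nat_lit 9099895) [(nat_lit 0), (nat_lit 1697613), (nat_lit 0), (nat_lit 8411776)]) (PF.cons (PF.leaf (nat_lit 7951962) (nat_lit 556224) (nat_lit 37345944) (nat_lit 9053744) [(nat_lit 556224), (nat_lit 1704458), (nat_lit 0), (nat_lit 8371990)]) (PF.cons (PF.leaf (nat_lit 8271024) (nat_lit 563245) (nat_lit 36896415) (nat_lit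 9005422) [(nat_lit 563245), (nat_lit 1710102), (nat_lit 0), (nat_lit 8330139)]) (PF.cons (PF.leaf (nat_lit 8595351) (nat_lit 569300) (nat_lit 36443751) (nat_lit 8955140) [(nat_lit 569300), (nat_lit 1714605), (nat_lit 0), (nat_lit 8286404)]) (PF.cons PF.nil PF.nil))))) (PF.cons (PF.cons (PF.leaf (nat_lit 8349187) (nat_lit 1707550) (nat_lit 36464360) (nat_lit 8953380) [(nat_lit 0), (nat_lit 1707550), (nat_lit 0), (nat_lit
 8284209)]) (PF.cons (PF.leaf (nat_lit 8666979) (nat_lit 567637) (nat_lit 36023183) (nat_lit 8903004) [(nat_lit 567637), (nat_lit 1711493), (nat_lit 0), (nat_lit 8240254)]) (PF.cons PF.nil (PF.cons PF.nil PF.nil)))) (PF.cons (PF.cons (PF.leaf (nat_lit 9056303) (nat_lit 1710469) (nat_lit 35173766) (nat_lit 8797994) [(nat_lit 0), (nat_lit 1710469), (nat_lit 0), (nat_lit 8147586)]) (PF.cons PF.nil PF.nil)) (PF.cons PF.nil PF.nil)))))) (PF.cons (PF.cons (PF.cons (PF.leaf (nat_lit 7404683) (nat_lit 3666986) (nat_lit 37616089) (nat_lit 9065980) [(nat_lit 0),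 (nat_lit 0), (nat_lit 3666986), (nat_lit 8379878)]) (PF.cons (PF.leaf (nat_lit 7703064) (nat_lit 542318) (nat_lit 37194932) (nat_lit 9022229) [(nat_lit 542318), (nat_lit 0), (nat_lit 3664903), (nat_lit 8342214)]) (PF.cons (PF.leaf (nat_lit 8010678) (nat_lit 550785) (nat_lit 36765095) (nat_lit 8976087) [(nat_lit 550785), (nat_lit 0), (nat_lit 3661443), (nat_lit 8302307)]) (PF.cons (PF.leaf (nat_lit 8325232) (nat_lit 558032) (nat_lit 36329512) (nat_lit 8927813) [(nat_lit 558032), (nat_lit 0), (nat_lit 3656633), (nat_lit 8260378)]) (PF.cons (PF.leaf (nat_lit 8645183) (nat_lit 564251) (nat_lit 35890428) (nat_lit 8877628) [(nat_lit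
 564251), (nat_lit 0), (nat_lit 3650516), (nat_lit 8216616)]) PF.nil))))) (PF.cons (PF.cons (PF.leaf (nat_lit 8094665) (nat_lit 1690651) (nat_lit 36330987) (nat_lit 8923886) [(nat_lit 0), (nat_lit 1690651), (nat_lit 3650723), (nat_lit 8256281)]) (PF.cons (PF.leaf (nat_lit 8401913) (nat_lit 556227) (nat_lit 35907664) (nat_lit 8875640) [(nat_lit 556227), (nat_lit 1695635), (nat_lit 3645166), (nat_lit 8214238)]) (PF.cons (PF.leaf (nat_lit 8715612) (nat_lit 562463) (nat_lit 35479844) (nat_lit 8825451) [(nat_lit 562463), (nat_lit 1699527), (nat_lit 3638369), (nat_lit 8170346)]) (PF.cons PF.nil PF.nil)))) (PF.cons (PF.cons (PF.leaf (nat_lit 8787321) (nat_lit 1695858) (nat_lit 35072246) (nat_lit 8772534) [(nat_lit 0), (nat_lit 1695858), (nat_lit 3625649), (nat_lit 8123332)]) (PF.cons (PF.leaf (nat_lit 9099355) (nat_lit 565727) (nat_lit 34653057) (nat_lit 8720764) [(nat_lit 565727), (nat_lit 1698278), (nat_lit 3617112), (nat_lit 8077797)]) PF.nil)) (PF.cons PF.nil (PF.cons PF.nil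 PF.nil))))) (PF.cons (PF.cons (PF.cons (PF.leaf (nat_lit 8530830) (nat_lit 3607438) (nat_lit 34954454) (nat_lit 8745010) [(nat_lit 0), (nat_lit 0), (nat_lit 3607438), (nat_lit 8097234)]) (PF.cons (PF.leaf (nat_lit
 8833035) (nat_lit 554892) (nat_lit 34551618) (nat_lit 8695374) [(nat_lit 554892), (nat_lit 0), (nat_lit 3599839), (nat_lit 8053624)]) (PF.cons (PF.leaf (nat_lit 9141191) (nat_lit 560444) (nat_lit 34144959) (nat_lit 8643997) [(nat_lit 560444), (nat_lit 0), (nat_lit 3591126), (nat_lit 8008357)]) (PF.cons PF.nil PF.nil)))) (PF.cons (PF.cons (PF.leaf (nat_lit 9206960) (nat_lit 1681362) (nat_lit 33760641) (nat_lit 8590782) [(nat_lit 0), (nat_lit 1681362), (nat_lit 3577183), (nat_lit 7960829)]) (PF.cons PF.nil PF.nil)) (PF.cons PF.nil PF.nil))) (PF.cons (PF.cons (PF.cons (PF.leaf (nat_lit 9609219) (nat_lit 3525884) (nat_lit 32525051) (nat_lit 8409660) [(nat_lit 0), (nat_lit 0), (nat_lit 3525884), (nat_lit 7798224)]) (PF.cons PF.nil PF.nil)) (PF.cons PF.nil PF.nil))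 (PF.cons PF.nil PF.nil))))) (PF.cons (PF.cons (PF.cons (PF.cons (PF.leaf (nat_lit 8005049) (nat_lit 7988606) (nat_lit 34512431) (nat_lit 8630562) [(nat_lit 0), (nat_lit 0), (nat_lit 0), (nat_lit 7988606)]) (PF.cons (PF.leaf (nat_lit 8290332) (nat_lit 528576) (nat_lit 34144335) (nat_lit 8586225) [(nat_lit 528576), (nat_lit 0), (nat_lit 0), (nat_lit 7949891)]) (PF.cons (PF.leaf (nat_lit 8584127) (nat_lit 536184) (nat_lit
 33768827) (nat_lit 8539842) [(nat_lit 536184), (nat_lit 0), (nat_lit 0), (nat_lit 7909257)]) (PF.cons (PF.leaf (nat_lit 8884232) (nat_lit 542626) (nat_lit 33388434) (nat_lit 8491684) [(nat_lit 542626), (nat_lit 0), (nat_lit 0), (nat_lit 7866938)]) (PF.cons PF.nil PF.nil))))) (PF.cons (PF.cons (PF.leaf (nat_lit 8658648) (nat_lit 1637445) (nat_lit 33391972) (nat_lit 8488551) [(nat_lit 0), (nat_lit 1637445), (nat_lit 0), (nat_lit 7863614)]) (PF.cons (PF.leaf (nat_lit 8951789) (nat_lit 540443) (nat_lit 33022261) (nat_lit 8440734) [(nat_lit 540443), (nat_lit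 1640877), (nat_lit 0), (nat_lit 7821498)]) (PF.cons (PF.leaf (nat_lit 9250864) (nat_lit 545970) (nat_lit 32648684) (nat_lit 8391308) [(nat_lit 545970), (nat_lit 1643326), (nat_lit 0), (nat_lit 7777850)]) (PF.cons PF.nil PF.nil)))) (PF.cons (PF.cons (PF.leaf (nat_lit 9314033) (nat_lit 1638851) (nat_lit 32294739) (nat_lit 8340153) [(nat_lit 0), (nat_lit 1638851), (nat_lit 0), (nat_lit 7732072)]) (PF.cons PF.nil PF.nil)) PF.nil))) (PF.cons (PF.cons (PF.cons (PF.leaf (nat_lit 9062508) (nat_lit 3468180) (nat_lit 32198307) (nat_lit 8315738) [(nat_lit 0), (nat_lit 0), (nat_lit 3468180), (nat_lit 7708862)]) (PF.cons (PF.leaf (nat_lit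
 9350883) (nat_lit 538103) (nat_lit 31846121) (nat_lit 8267358) [(nat_lit 538103), (nat_lit 0), (nat_lit 3459225), (nat_lit 7666001)]) (PF.cons PF.nil PF.nil))) (PF.cons (PF.cons (PF.leaf (nat_lit 9702916) (nat_lit 1622640) (nat_lit 31156284) (nat_lit 8166694) [(nat_lit 0), (nat_lit 1622640), (nat_lit 3434919), (nat_lit 7576091)]) PF.nil) PF.nil)) (PF.cons PF.nil PF.nil))) (PF.cons (PF.cons (PF.cons (PF.cons (PF.leaf (nat_lit 9546552) (nat_lit 7344523) (nat_lit 29816158) (nat_lit 7914561) [(nat_lit 0), (nat_lit 0), (nat_lit 0), (nat_lit 7344523)]) (PF.cons (PF.leaf (nat_lit 9822417) (nat_lit 521266) (nat_lit 29506410) (nat_lit 7868226) [(nat_lit 521266), (nat_lit 0), (nat_lit 0), (nat_lit 7303227)]) PF.nil)) (PF.cons PF.nil PF.nil)) (PF.cons PF.nil PF.nil)) (PF.cons PF.nil (PF.cons PF.nil (PF.cons PF.nil (PF.cons PF.nil PF.nil)))))))))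

def p15_27_1_0 : pfC (piC [(nat_lit 36888796), (nat_lit 24534081), (nat_lit 18263511), (nat_lit 12310016)] (nat_lit 10584306)) p15_27_1 (nat_lit 4) (nat_lit 0) (nat_lit 1) = true := by decide +kernel
def p15_27_1_1 : pfC (piC [(nat_lit 36888796), (nat_lit 24534081), (nat_lit 18263511), (nat_lit 12310016)] (nat_lit 10584306)) p15_27_1 (nat_lit 4) (nat_lit 1) (nat_lit 2) = true := by decide +kernel
def p15_27_1_2 : pfC (piC [(nat_lit 36888796), (nat_lit 24534081), (nat_lit 18263511), (nat_lit 12310016)] (nat_lit 10584306)) p15_27_1 (nat_lit 4) (nat_lit 2) (nat_lit 3) = true := by decide +kernel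
def p15_27_1_3 : pfC (piC [(nat_lit 36888796), (nat_lit 24534081), (nat_lit 18263511), (nat_lit 12310016)] (nat_lit 10584306)) p15_27_1 (nat_lit 4) (nat_lit 3) (nat_lit 4) = true := by decide +kernel
def p15_27_1_4 : pfC (piC [(nat_lit 36888796), (nat_lit 24534081), (nat_lit 18263511), (nat_lit 12310016)] (nat_lit 10584306)) p15_27_1 (nat_lit 4) (nat_lit 4) (nat_lit 5) = true := by decide +kernel
def p15_27_1_5 : pfC (piC [(nat_lit 36888796), (nat_lit 24534081), (nat_lit 18263511), (nat_lit 12310016)] (nat_lit 10584306)) p15_27_1 (nat_lit 4) (nat_lit 5) (nat_lit 6) = true := by decide +kernel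
def p15_27_1_6 : pfC (piC [(nat_lit 36888796), (nat_lit 24534081), (nat_lit 18263511), (nat_lit 12310016)] (nat_lit 10584306)) p15_27_1 (nat_lit 4) (nat_lit 6) (nat_lit 7) = true := by decide +kernel
def p15_27_1_7 : pfC (piC [(nat_lit 36888796), (nat_lit 24534081), (nat_lit 18263511), (nat_lit 12310016)] (nat_lit 10584306)) p15_27_1 (nat_lit 4) (nat_lit 7) (nat_lit 8) = true := by decide +kernel
def p15_27_1_8 : pfC (piC [(nat_lit 36888796), (nat_lit 24534081), (nat_lit 18263511), (nat_lit 12310016)] (nat_lit 10584306)) p15_27_1 (nat_lit 4) (nat_lit 8) (nat_lit 9) = true := by decide +kernel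
def p15_27_1_9 : pfC (piC [(nat_lit 36888796), (nat_lit 24534081), (nat_lit 18263511), (nat_lit 12310016)] (nat_lit 10584306)) p15_27_1 (nat_lit 4) (nat_lit 9) (nat_lit 10) = true := by decide +kernel
def p15_27_1_10 : pfC (piC [(nat_lit 36888796), (nat_lit 24534081), (nat_lit 18263511), (nat_lit 12310016)] (nat_lit 10584306)) p15_27_1 (nat_lit 4) (nat_lit 10) (nat_lit 11) = true := by decide +kernel
def p15_27_1_11 : pfC (piC [(nat_lit 36888796), (nat_lit 24534081), (nat_lit 18263511), (nat_lit 12310016)] (nat_lit 10584306)) p15_27_1 (nat_lit 4) (nat_lit 11) (nat_lit 12) = true := by decide +kernel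
def p15_27_1_12 : pfC (piC [(nat_lit 36888796), (nat_lit 24534081), (nat_lit 18263511), (nat_lit 12310016)] (nat_lit 10584306)) p15_27_1 (nat_lit 4) (nat_lit 12) (nat_lit 13) = true := by decide +kernel
def p15_27_1_13 : pfC (piC [(nat_lit 36888796), (nat_lit 24534081), (nat_lit 18263511), (nat_lit 12310016)] (nat_lit 10584306)) p15_27_1 (nat_lit 4) (nat_lit 13) (nat_lit 14) = true := by decide +kernel
def p15_27_1_14 : pfC (piC [(nat_lit 36888796), (nat_lit 24534081), (nat_lit 18263511), (nat_lit 12310016)] (nat_lit 10584306)) p15_27_1 (nat_lit 4) (nat_lit 14) (nat_lit 15) = true := by decide +kernel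
def p15_27_1_15 : pfC (piC [(nat_lit 36888796), (nat_lit 24534081), (nat_lit 18263511), (nat_lit 12310016)] (nat_lit 10584306)) p15_27_1 (nat_lit 4) (nat_lit 15) (nat_lit 16) = true := by decide +kernel
def p15_27_1_16 : pfC (piC [(nat_lit 36888796), (nat_lit 24534081), (nat_lit 18263511), (nat_lit 12310016)] (nat_lit 10584306)) p15_27_1 (nat_lit 4) (nat_lit 16) (nat_lit 17) = true := by decide +kernel
def p15_27_1_17 : pfC (piC [(nat_lit 36888796), (nat_lit 24534081), (nat_lit 18263511), (nat_lit 12310016)] (nat_lit 10584306)) p15_27_1 (nat_lit 4) (nat_lit 17) (nat_lit 18) = true := by decide +kernel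
def p15_27_1_18 : pfC (piC [(nat_lit 36888796), (nat_lit 24534081), (nat_lit 18263511), (nat_lit 12310016)] (nat_lit 10584306)) p15_27_1 (nat_lit 4) (nat_lit 18) (nat_lit 19) = true := by decide +kernel
def p15_27_1_19 : pfC (piC [(nat_lit 36888796), (nat_lit 24534081), (nat_lit 18263511), (nat_lit 12310016)] (nat_lit 10584306)) p15_27_1 (nat_lit 4) (nat_lit 19) (nat_lit 20) = true := by decide +kernel
def p15_27_1_20 : pfC (piC [(nat_lit 36888796), (nat_lit 24534081), (nat_lit 18263511), (nat_lit 12310016)] (nat_lit 10584306)) p15_27_1 (nat_lit 4) (nat_lit 20) (nat_lit 21) = true := by decide +kernel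
def p15_27_1_21 : pfC (piC [(nat_lit 36888796), (nat_lit 24534081), (nat_lit 18263511), (nat_lit 12310016)] (nat_lit 10584306)) p15_27_1 (nat_lit 4) (nat_lit 21) (nat_lit 22) = true := by decide +kernel
def p15_27_1_22 : pfC (piC [(nat_lit 36888796), (nat_lit 24534081), (nat_lit 18263511), (nat_lit 12310016)] (nat_lit 10584306)) p15_27_1 (nat_lit 4) (nat_lit 22) (nat_lit 23) = true := by decide +kernel
def p15_27_1_23 : pfC (piC [(nat_lit 36888796), (nat_lit 24534081), (nat_lit 18263511), (nat_lit 12310016)] (nat_lit 10584306)) p15_27_1 (nat_lit 4) (nat_lit 23) (nat_lit 24) = true := by decide +kernel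
def p15_27_1_24 : pfC (piC [(nat_lit 36888796), (nat_lit 24534081), (nat_lit 18263511), (nat_lit 12310016)] (nat_lit 10584306)) p15_27_1 (nat_lit 4) (nat_lit 24) (nat_lit 25) = true := by decide +kernel
def p15_27_1_25 : pfC (piC [(nat_lit 36888796), (nat_lit 24534081), (nat_lit 18263511), (nat_lit 12310016)] (nat_lit 10584306)) p15_27_1 (nat_lit 4) (nat_lit 25) (nat_lit 26) = true := by decide +kernel
def p15_27_1_26 : pfC (piC [(nat_lit 36888796), (nat_lit 24534081), (nat_lit 18263511), (nat_lit 12310016)] (nat_lit 10584306)) p15_27_1 (nat_lit 4) (nat_lit 26) (nat_lit 27) = true := by decide +kernel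
def p15_27_1_27 : pfC (piC [(nat_lit 36888796), (nat_lit 24534081), (nat_lit 18263511), (nat_lit 12310016)] (nat_lit 10584306)) p15_27_1 (nat_lit 4) (nat_lit 27) (nat_lit 28) = true := by decide +kernel
def p15_27_1_28 : pfC (piC [(nat_lit 36888796), (nat_lit 24534081), (nat_lit 18263511), (nat_lit 12310016)] (nat_lit 10584306)) p15_27_1 (nat_lit 4) (nat_lit 28) (nat_lit 29) = true := by decide +kernel
def p15_27_1_29 : pfC (piC [(nat_lit 36888796), (nat_lit 24534081), (nat_lit 18263511), (nat_lit 12310016)] (nat_lit 10584306)) p15_27_1 (nat_lit 4) (nat_lit 29) (nat_lit 30) = true := by decide +kernel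
def p15_27_1_30 : pfC (piC [(nat_lit 36888796), (nat_lit 24534081), (nat_lit 18263511), (nat_lit 12310016)] (nat_lit 10584306)) p15_27_1 (nat_lit 4) (nat_lit 30) (nat_lit 31) = true := by decide +kernel
def p15_27_1_31 : pfC (piC [(nat_lit 36888796), (nat_lit 24534081), (nat_lit 18263511), (nat_lit 12310016)] (nat_lit 10584306)) p15_27_1 (nat_lit 4) (nat_lit 31) (nat_lit 32) = true := by decide +kernel
def p15_27_1_32 : pfC (piC [(nat_lit 36888796), (nat_lit 24534081), (nat_lit 18263511), (nat_lit 12310016)] (nat_lit 10584306)) p15_27_1 (nat_lit 4) (nat_lit 32) (nat_lit 33) = true := by decide +kernel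
def p15_27_1_33 : pfC (piC [(nat_lit 36888796), (nat_lit 24534081), (nat_lit 18263511), (nat_lit 12310016)] (nat_lit 10584306)) p15_27_1 (nat_lit 4) (nat_lit 33) (nat_lit 34) = true := by decide +kernel
def p15_27_1_34 : pfC (piC [(nat_lit 36888796), (nat_lit 24534081), (nat_lit 18263511), (nat_lit 12310016)] (nat_lit 10584306)) p15_27_1 (nat_lit 4) (nat_lit 34) (nat_lit 35) = true := by decide +kernel
def p15_27_1_35 : pfC (piC [(nat_lit 36888796), (nat_lit 24534081), (nat_lit 18263511), (nat_lit 12310016)] (nat_lit 10584306)) p15_27_1 (nat_lit 4) (nat_lit 35) (nat_lit 36) = true := by decide +kernel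
def p15_27_1_36 : pfC (piC [(nat_lit 36888796), (nat_lit 24534081), (nat_lit 18263511), (nat_lit 12310016)] (nat_lit 10584306)) p15_27_1 (nat_lit 4) (nat_lit 36) (nat_lit 37) = true := by decide +kernel
def p15_27_1_37 : pfC (piC [(nat_lit 36888796), (nat_lit 24534081), (nat_lit 18263511), (nat_lit 12310016)] (nat_lit 10584306)) p15_27_1 (nat_lit 4) (nat_lit 37) (nat_lit 38) = true := by decide +kernel
def p15_27_1_38 : pfC (piC [(nat_lit 36888796), (nat_lit 24534081), (nat_lit 18263511), (nat_lit 12310016)] (nat_lit 10584306)) p15_27_1 (nat_lit 4) (nat_lit 38) (nat_lit 39) = true := by decide +kernel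
def p15_27_1_39 : pfC (piC [(nat_lit 36888796), (nat_lit 24534081), (nat_lit 18263511), (nat_lit 12310016)] (nat_lit 10584306)) p15_27_1 (nat_lit 4) (nat_lit 39) (nat_lit 40) = true := by decide +kernel
def p15_27_1_40 : pfC (piC [(nat_lit 36888796), (nat_lit 24534081), (nat_lit 18263511), (nat_lit 12310016)] (nat_lit 10584306)) p15_27_1 (nat_lit 4) (nat_lit 40) (nat_lit 41) = true := by decide +kernel
def p15_27_1_41 : pfC (piC [(nat_lit 36888796), (nat_lit 24534081), (nat_lit 18263511), (nat_lit 12310016)] (nat_lit 10584306)) p15_27_1 (nat_lit 4) (nat_lit 41) (nat_lit 42) = true := by decide +kernel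
def p15_27_1_42 : pfC (piC [(nat_lit 36888796), (nat_lit 24534081), (nat_lit 18263511), (nat_lit 12310016)] (nat_lit 10584306)) p15_27_1 (nat_lit 4) (nat_lit 42) (nat_lit 43) = true := by decide +kernel
def p15_27_1_43 : pfC (piC [(nat_lit 36888796), (nat_lit 24534081), (nat_lit 18263511), (nat_lit 12310016)] (nat_lit 10584306)) p15_27_1 (nat_lit 4) (nat_lit 43) (nat_lit 44) = true := by decide +kernel
def p15_27_1_44 : pfC (piC [(nat_lit 36888796), (nat_lit 24534081), (nat_lit 18263511), (nat_lit 12310016)] (nat_lit 10584306)) p15_27_1 (nat_lit 4) (nat_lit 44) (nat_lit 45) = true := by decide +kernel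
def p15_27_1_45 : pfC (piC [(nat_lit 36888796), (nat_lit 24534081), (nat_lit 18263511), (nat_lit 12310016)] (nat_lit 10584306)) p15_27_1 (nat_lit 4) (nat_lit 45) (nat_lit 46) = true := by decide +kernel
def p15_27_1_46 : pfC (piC [(nat_lit 36888796), (nat_lit 24534081), (nat_lit 18263511), (nat_lit 12310016)] (nat_lit 10584306)) p15_27_1 (nat_lit 4) (nat_lit 46) (nat_lit 47) = true := by decide +kernel
def p15_27_1_47 : pfC (piC [(nat_lit 36888796), (nat_lit 24534081), (nat_lit 18263511), (nat_lit 12310016)] (nat_lit 10584306)) p15_27_1 (nat_lit 4) (nat_lit 47) (nat_lit 48) = true := by decide +kernel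
def p15_27_1_48 : pfC (piC [(nat_lit 36888796), (nat_lit 24534081), (nat_lit 18263511), (nat_lit 12310016)] (nat_lit 10584306)) p15_27_1 (nat_lit 4) (nat_lit 48) (nat_lit 49) = true := by decide +kernel
def p15_27_1_49 : pfC (piC [(nat_lit 36888796), (nat_lit 24534081), (nat_lit 18263511), (nat_lit 12310016)] (nat_lit 10584306)) p15_27_1 (nat_lit 4) (nat_lit 49) (nat_lit 50) = true := by decide +kernel
def p15_27_1_50 : pfC (piC [(nat_lit 36888796), (nat_lit 24534081), (nat_lit 18263511), (nat_lit 12310016)] (nat_lit 10584306)) p15_27_1 (nat_lit 4) (nat_lit 50) (nat_lit 51) = true := by decide +kernel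
def p15_27_1_51 : pfC (piC [(nat_lit 36888796), (nat_lit 24534081), (nat_lit 18263511), (nat_lit 12310016)] (nat_lit 10584306)) p15_27_1 (nat_lit 4) (nat_lit 51) (nat_lit 52) = true := by decide +kernel
def p15_27_1_52 : pfC (piC [(nat_lit 36888796), (nat_lit 24534081), (nat_lit 18263511), (nat_lit 12310016)] (nat_lit 10584306)) p15_27_1 (nat_lit 4) (nat_lit 52) (nat_lit 53) = true := by decide +kernel
def p15_27_1_53 : pfC (piC [(nat_lit 36888796), (nat_lit 24534081), (nat_lit 18263511), (nat_lit 12310016)] (nat_lit 10584306)) p15_27_1 (nat_lit 4) (nat_lit 53) (nat_lit 54) = true := by decide +kernel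
def p15_27_1_54 : pfC (piC [(nat_lit 36888796), (nat_lit 24534081), (nat_lit 18263511), (nat_lit 12310016)] (nat_lit 10584306)) p15_27_1 (nat_lit 4) (nat_lit 54) (nat_lit 55) = true := by decide +kernel
def p15_27_1_55 : pfC (piC [(nat_lit 36888796), (nat_lit 24534081), (nat_lit 18263511), (nat_lit 12310016)] (nat_lit 10584306)) p15_27_1 (nat_lit 4) (nat_lit 55) (nat_lit 56) = true := by decide +kernel
def p15_27_1_56 : pfC (piC [(nat_lit 36888796), (nat_lit 24534081), (nat_lit 18263511), (nat_lit 12310016)] (nat_lit 10584306)) p15_27_1 (nat_lit 4) (nat_lit 56) (nat_lit 57) = true := by decide +kernel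
def p15_27_1_57 : pfC (piC [(nat_lit 36888796), (nat_lit 24534081), (nat_lit 18263511), (nat_lit 12310016)] (nat_lit 10584306)) p15_27_1 (nat_lit 4) (nat_lit 57) (nat_lit 58) = true := by decide +kernel
def p15_27_1_58 : pfC (piC [(nat_lit 36888796), (nat_lit 24534081), (nat_lit 18263511), (nat_lit 12310016)] (nat_lit 10584306)) p15_27_1 (nat_lit 4) (nat_lit 58) (nat_lit 59) = true := by decide +kernel
def p15_27_1_59 : pfC (piC [(nat_lit 36888796), (nat_lit 24534081), (nat_lit 18263511), (nat_lit 12310016)] (nat_lit 10584306)) p15_27_1 (nat_lit 4) (nat_lit 59) (nat_lit 60) = true := by decide +kernel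
def p15_27_1_60 : pfC (piC [(nat_lit 36888796), (nat_lit 24534081), (nat_lit 18263511), (nat_lit 12310016)] (nat_lit 10584306)) p15_27_1 (nat_lit 4) (nat_lit 60) (nat_lit 61) = true := by decide +kernel
def p15_27_1_61 : pfC (piC [(nat_lit 36888796), (nat_lit 24534081), (nat_lit 18263511), (nat_lit 12310016)] (nat_lit 10584306)) p15_27_1 (nat_lit 4) (nat_lit 61) (nat_lit 62) = true := by decide +kernel
def p15_27_1_62 : pfC (piC [(nat_lit 36888796), (nat_lit 24534081), (nat_lit 18263511), (nat_lit 12310016)] (nat_lit 10584306)) p15_27_1 (nat_lit 4) (nat_lit 62) (nat_lit 63) = true := by decide +kernel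
def p15_27_1_63 : pfC (piC [(nat_lit 36888796), (nat_lit 24534081), (nat_lit 18263511), (nat_lit 12310016)] (nat_lit 10584306)) p15_27_1 (nat_lit 4) (nat_lit 63) (nat_lit 64) = true := by decide +kernel
def p15_27_1_64 : pfC (piC [(nat_lit 36888796), (nat_lit 24534081), (nat_lit 18263511), (nat_lit 12310016)] (nat_lit 10584306)) p15_27_1 (nat_lit 4) (nat_lit 64) (nat_lit 65) = true := by decide +kernel
def p15_27_1_65 : pfC (piC [(nat_lit 36888796), (nat_lit 24534081), (nat_lit 18263511), (nat_lit 12310016)] (nat_lit 10584306)) p15_27_1 (nat_lit 4) (nat_lit 65) (nat_lit 66) = true := by decide +kernel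
def p15_27_1_66 : pfC (piC [(nat_lit 36888796), (nat_lit 24534081), (nat_lit 18263511), (nat_lit 12310016)] (nat_lit 10584306)) p15_27_1 (nat_lit 4) (nat_lit 66) (nat_lit 67) = true := by decide +kernel
def p15_27_1_67 : pfC (piC [(nat_lit 36888796), (nat_lit 24534081), (nat_lit 18263511), (nat_lit 12310016)] (nat_lit 10584306)) p15_27_1 (nat_lit 4) (nat_lit 67) (nat_lit 68) = true := by decide +kernel
def p15_27_1_68 : pfC (piC [(nat_lit 36888796), (nat_lit 24534081), (nat_lit 18263511), (nat_lit 12310016)] (nat_lit 10584306)) p15_27_1 (nat_lit 4) (nat_lit 68) (nat_lit 69) = true := by decide +kernel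
def p15_27_1_69 : pfC (piC [(nat_lit 36888796), (nat_lit 24534081), (nat_lit 18263511), (nat_lit 12310016)] (nat_lit 10584306)) p15_27_1 (nat_lit 4) (nat_lit 69) (nat_lit 70) = true := by decide +kernel
def p15_27_1_70 : pfC (piC [(nat_lit 36888796), (nat_lit 24534081), (nat_lit 18263511), (nat_lit 12310016)] (nat_lit 10584306)) p15_27_1 (nat_lit 4) (nat_lit 70) (nat_lit 71) = true := by decide +kernel
def p15_27_1_71 : pfC (piC [(nat_lit 36888796), (nat_lit 24534081), (nat_lit 18263511), (nat_lit 12310016)] (nat_lit 10584306)) p15_27_1 (nat_lit 4) (nat_lit 71) (nat_lit 72) = true := by decide +kernel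
def p15_27_1_72 : pfC (piC [(nat_lit 36888796), (nat_lit 24534081), (nat_lit 18263511), (nat_lit 12310016)] (nat_lit 10584306)) p15_27_1 (nat_lit 4) (nat_lit 72) (nat_lit 73) = true := by decide +kernel
def p15_27_1_73 : pfC (piC [(nat_lit 36888796), (nat_lit 24534081), (nat_lit 18263511), (nat_lit 12310016)] (nat_lit 10584306)) p15_27_1 (nat_lit 4) (nat_lit 73) (nat_lit 74) = true := by decide +kernel
def p15_27_1_74 : pfC (piC [(nat_lit 36888796), (nat_lit 24534081), (nat_lit 18263511), (nat_lit 12310016)] (nat_lit 10584306)) p15_27_1 (nat_lit 4) (nat_lit 74) (nat_lit 75) = true := by decide +kernel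
def p15_27_1_75 : pfC (piC [(nat_lit 36888796), (nat_lit 24534081), (nat_lit 18263511), (nat_lit 12310016)] (nat_lit 10584306)) p15_27_1 (nat_lit 4) (nat_lit 75) (nat_lit 76) = true := by decide +kernel
def p15_27_1_76 : pfC (piC [(nat_lit 36888796), (nat_lit 24534081), (nat_lit 18263511), (nat_lit 12310016)] (nat_lit 10584306)) p15_27_1 (nat_lit 4) (nat_lit 76) (nat_lit 77) = true := by decide +kernel
def p15_27_1_77 : pfC (piC [(nat_lit 36888796), (nat_lit 24534081), (nat_lit 18263511), (nat_lit 12310016)] (nat_lit 10584306)) p15_27_1 (nat_lit 4) (nat_lit 77) (nat_lit 78) = true := by decide +kernel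
def p15_27_1_78 : pfC (piC [(nat_lit 36888796), (nat_lit 24534081), (nat_lit 18263511), (nat_lit 12310016)] (nat_lit 10584306)) p15_27_1 (nat_lit 4) (nat_lit 78) (nat_lit 79) = true := by decide +kernel
def p15_27_1_79 : pfC (piC [(nat_lit 36888796), (nat_lit 24534081), (nat_lit 18263511), (nat_lit 12310016)] (nat_lit 10584306)) p15_27_1 (nat_lit 4) (nat_lit 79) (nat_lit 80) = true := by decide +kernel
def p15_27_1_80 : pfC (piC [(nat_lit 36888796), (nat_lit 24534081), (nat_lit 18263511), (nat_lit 12310016)] (nat_lit 10584306)) p15_27_1 (nat_lit 4) (nat_lit 80) (nat_lit 81) = true := by decide +kernel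
def p15_27_1_81 : pfC (piC [(nat_lit 36888796), (nat_lit 24534081), (nat_lit 18263511), (nat_lit 12310016)] (nat_lit 10584306)) p15_27_1 (nat_lit 4) (nat_lit 81) (nat_lit 82) = true := by decide +kernel
def p15_27_1_82 : pfC (piC [(nat_lit 36888796), (nat_lit 24534081), (nat_lit 18263511), (nat_lit 12310016)] (nat_lit 10584306)) p15_27_1 (nat_lit 4) (nat_lit 82) (nat_lit 83) = true := by decide +kernel
def p15_27_1_83 : pfC (piC [(nat_lit 36888796), (nat_lit 24534081), (nat_lit 18263511), (nat_lit 12310016)] (nat_lit 10584306)) p15_27_1 (nat_lit 4) (nat_lit 83) (nat_lit 84) = true := by decide +kernel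
def p15_27_1_84 : pfC (piC [(nat_lit 36888796), (nat_lit 24534081), (nat_lit 18263511), (nat_lit 12310016)] (nat_lit 10584306)) p15_27_1 (nat_lit 4) (nat_lit 84) (nat_lit 85) = true := by decide +kernel
def p15_27_1_85 : pfC (piC [(nat_lit 36888796), (nat_lit 24534081), (nat_lit 18263511), (nat_lit 12310016)] (nat_lit 10584306)) p15_27_1 (nat_lit 4) (nat_lit 85) (nat_lit 86) = true := by decide +kernel
def p15_27_1_86 : pfC (piC [(nat_lit 36888796), (nat_lit 24534081), (nat_lit 18263511), (nat_lit 12310016)] (nat_lit 10584306)) p15_27_1 (nat_lit 4) (nat_lit 86) (nat_lit 87) = true := by decide +kernel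
def p15_27_1_87 : pfC (piC [(nat_lit 36888796), (nat_lit 24534081), (nat_lit 18263511), (nat_lit 12310016)] (nat_lit 10584306)) p15_27_1 (nat_lit 4) (nat_lit 87) (nat_lit 88) = true := by decide +kernel
def p15_27_1_88 : pfC (piC [(nat_lit 36888796), (nat_lit 24534081), (nat_lit 18263511), (nat_lit 12310016)] (nat_lit 10584306)) p15_27_1 (nat_lit 4) (nat_lit 88) (nat_lit 89) = true := by decide +kernel
def p15_27_1_89 : pfC (piC [(nat_lit 36888796), (nat_lit 24534081), (nat_lit 18263511), (nat_lit 12310016)] (nat_lit 10584306)) p15_27_1 (nat_lit 4) (nat_lit 89) (nat_lit 90) = true := by decide +kernel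
def p15_27_1_90 : pfC (piC [(nat_lit 36888796), (nat_lit 24534081), (nat_lit 18263511), (nat_lit 12310016)] (nat_lit 10584306)) p15_27_1 (nat_lit 4) (nat_lit 90) (nat_lit 91) = true := by decide +kernel
def p15_27_1_91 : pfC (piC [(nat_lit 36888796), (nat_lit 24534081), (nat_lit 18263511), (nat_lit 12310016)] (nat_lit 10584306)) p15_27_1 (nat_lit 4) (nat_lit 91) (nat_lit 92) = true := by decide +kernel
def p15_27_1_92 : pfC (piC [(nat_lit 36888796), (nat_lit 24534081), (nat_lit 18263511), (nat_lit 12310016)] (nat_lit 10584306)) p15_27_1 (nat_lit 4) (nat_lit 92) (nat_lit 93) = true := by decide +kernel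
def p15_27_1_93 : pfC (piC [(nat_lit 36888796), (nat_lit 24534081), (nat_lit 18263511), (nat_lit 12310016)] (nat_lit 10584306)) p15_27_1 (nat_lit 4) (nat_lit 93) (nat_lit 94) = true := by decide +kernel
def p15_27_1_94 : pfC (piC [(nat_lit 36888796), (nat_lit 24534081), (nat_lit 18263511), (nat_lit 12310016)] (nat_lit 10584306)) p15_27_1 (nat_lit 4) (nat_lit 94) (nat_lit 95) = true := by decide +kernel
def p15_27_1_95 : pfC (piC [(nat_lit 36888796), (nat_lit 24534081), (nat_lit 18263511), (nat_lit 12310016)] (nat_lit 10584306)) p15_27_1 (nat_lit 4) (nat_lit 95) (nat_lit 96) = true := by decide +kernel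
def p15_27_1_96 : pfC (piC [(nat_lit 36888796), (nat_lit 24534081), (nat_lit 18263511), (nat_lit 12310016)] (nat_lit 10584306)) p15_27_1 (nat_lit 4) (nat_lit 96) (nat_lit 97) = true := by decide +kernel
def p15_27_1_97 : pfC (piC [(nat_lit 36888796), (nat_lit 24534081), (nat_lit 18263511), (nat_lit 12310016)] (nat_lit 10584306)) p15_27_1 (nat_lit 4) (nat_lit 97) (nat_lit 98) = true := by decide +kernel
def p15_27_1_98 : pfC (piC [(nat_lit 36888796), (nat_lit 24534081), (nat_lit 18263511), (nat_lit 12310016)] (nat_lit 10584306)) p15_27_1 (nat_lit 4) (nat_lit 98) (nat_lit 99) = true := by decide +kernel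
def p15_27_1_99 : pfC (piC [(nat_lit 36888796), (nat_lit 24534081), (nat_lit 18263511), (nat_lit 12310016)] (nat_lit 10584306)) p15_27_1 (nat_lit 4) (nat_lit 99) (nat_lit 100) = true := by decide +kernel
def p15_27_1_100 : pfC (piC [(nat_lit 36888796), (nat_lit 24534081), (nat_lit 18263511), (nat_lit 12310016)] (nat_lit 10584306)) p15_27_1 (nat_lit 4) (nat_lit 100) (nat_lit 101) = true := by decide +kernel
def p15_27_1_101 : pfC (piC [(nat_lit 36888796), (nat_lit 24534081), (nat_lit 18263511), (nat_lit 12310016)] (nat_lit 10584306)) p15_27_1 (nat_lit 4) (nat_lit 101) (nat_lit 102) = true := by decide +kernel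
def p15_27_1_102 : pfC (piC [(nat_lit 36888796), (nat_lit 24534081), (nat_lit 18263511), (nat_lit 12310016)] (nat_lit 10584306)) p15_27_1 (nat_lit 4) (nat_lit 102) (nat_lit 103) = true := by decide +kernel
def p15_27_1_103 : pfC (piC [(nat_lit 36888796), (nat_lit 24534081), (nat_lit 18263511), (nat_lit 12310016)] (nat_lit 10584306)) p15_27_1 (nat_lit 4) (nat_lit 103) (nat_lit 104) = true := by decide +kernel
def p15_27_1_104 : pfC (piC [(nat_lit 36888796), (nat_lit 24534081), (nat_lit 18263511), (nat_lit 12310016)] (nat_lit 10584306)) p15_27_1 (nat_lit 4) (nat_lit 104) (nat_lit 105) = true := by decide +kernel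
def p15_27_1_105 : pfC (piC [(nat_lit 36888796), (nat_lit 24534081), (nat_lit 18263511), (nat_lit 12310016)] (nat_lit 10584306)) p15_27_1 (nat_lit 4) (nat_lit 105) (nat_lit 106) = true := by decide +kernel
def p15_27_1_106 : pfC (piC [(nat_lit 36888796), (nat_lit 24534081), (nat_lit 18263511), (nat_lit 12310016)] (nat_lit 10584306)) p15_27_1 (nat_lit 4) (nat_lit 106) (nat_lit 107) = true := by decide +kernel
def p15_27_1_107 : pfC (piC [(nat_lit 36888796), (nat_lit 24534081), (nat_lit 18263511), (nat_lit 12310016)] (nat_lit 10584306)) p15_27_1 (nat_lit 4) (nat_lit 107) (nat_lit 108) = true := by decide +kernel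
def p15_27_1_108 : pfC (piC [(nat_lit 36888796), (nat_lit 24534081), (nat_lit 18263511), (nat_lit 12310016)] (nat_lit 10584306)) p15_27_1 (nat_lit 4) (nat_lit 108) (nat_lit 109) = true := by decide +kernel
def p15_27_1_109 : pfC (piC [(nat_lit 36888796), (nat_lit 24534081), (nat_lit 18263511), (nat_lit 12310016)] (nat_lit 10584306)) p15_27_1 (nat_lit 4) (nat_lit 109) (nat_lit 110) = true := by decide +kernel
def p15_27_1_110 : pfC (piC [(nat_lit 36888796), (nat_lit 24534081), (nat_lit 18263511), (nat_lit 12310016)] (nat_lit 10584306)) p15_27_1 (nat_lit 4) (nat_lit 110) (nat_lit 111) = true := by decide +kernel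
def p15_27_1_111 : pfC (piC [(nat_lit 36888796), (nat_lit 24534081), (nat_lit 18263511), (nat_lit 12310016)] (nat_lit 10584306)) p15_27_1 (nat_lit 4) (nat_lit 111) (nat_lit 112) = true := by decide +kernel
def p15_27_1_112 : pfC (piC [(nat_lit 36888796), (nat_lit 24534081), (nat_lit 18263511), (nat_lit 12310016)] (nat_lit 10584306)) p15_27_1 (nat_lit 4) (nat_lit 112) (nat_lit 113) = true := by decide +kernel
def p15_27_1_113 : pfC (piC [(nat_lit 36888796), (nat_lit 24534081), (nat_lit 18263511), (nat_lit 12310016)] (nat_lit 10584306)) p15_27_1 (nat_lit 4) (nat_lit 113) (nat_lit 114) = true := by decide +kernel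
def p15_27_1_114 : pfC (piC [(nat_lit 36888796), (nat_lit 24534081), (nat_lit 18263511), (nat_lit 12310016)] (nat_lit 10584306)) p15_27_1 (nat_lit 4) (nat_lit 114) (nat_lit 115) = true := by decide +kernel
def p15_27_1_115 : pfC (piC [(nat_lit 36888796), (nat_lit 24534081), (nat_lit 18263511), (nat_lit 12310016)] (nat_lit 10584306)) p15_27_1 (nat_lit 4) (nat_lit 115) (nat_lit 116) = true := by decide +kernel
def p15_27_1_116 : pfC (piC [(nat_lit 36888796), (nat_lit 24534081), (nat_lit 18263511), (nat_lit 12310016)] (nat_lit 10584306)) p15_27_1 (nat_lit 4) (nat_lit 116) (nat_lit 117) = true := by decide +kernel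
def p15_27_1_117 : pfC (piC [(nat_lit 36888796), (nat_lit 24534081), (nat_lit 18263511), (nat_lit 12310016)] (nat_lit 10584306)) p15_27_1 (nat_lit 4) (nat_lit 117) (nat_lit 118) = true := by decide +kernel
def p15_27_1_118 : pfC (piC [(nat_lit 36888796), (nat_lit 24534081), (nat_lit 18263511), (nat_lit 12310016)] (nat_lit 10584306)) p15_27_1 (nat_lit 4) (nat_lit 118) (nat_lit 119) = true := by decide +kernel
def p15_27_1_119 : pfC (piC [(nat_lit 36888796), (nat_lit 24534081), (nat_lit 18263511), (nat_lit 12310016)] (nat_lit 10584306)) p15_27_1 (nat_lit 4) (nat_lit 119) (nat_lit 120) = true := by decide +kernel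
def p15_27_1_120 : pfC (piC [(nat_lit 36888796), (nat_lit 24534081), (nat_lit 18263511), (nat_lit 12310016)] (nat_lit 10584306)) p15_27_1 (nat_lit 4) (nat_lit 120) (nat_lit 121) = true := by decide +kernel
def p15_27_1_121 : pfC (piC [(nat_lit 36888796), (nat_lit 24534081), (nat_lit 18263511), (nat_lit 12310016)] (nat_lit 10584306)) p15_27_1 (nat_lit 4) (nat_lit 121) (nat_lit 122) = true := by decide +kernel
def p15_27_1_122 : pfC (piC [(nat_lit 36888796), (nat_lit 24534081), (nat_lit 18263511), (nat_lit 12310016)] (nat_lit 10584306)) p15_27_1 (nat_lit 4) (nat_lit 122) (nat_lit 123) = true := by decide +kernel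
def p15_27_1_123 : pfC (piC [(nat_lit 36888796), (nat_lit 24534081), (nat_lit 18263511), (nat_lit 12310016)] (nat_lit 10584306)) p15_27_1 (nat_lit 4) (nat_lit 123) (nat_lit 124) = true := by decide +kernel
def p15_27_1_124 : pfC (piC [(nat_lit 36888796), (nat_lit 24534081), (nat_lit 18263511), (nat_lit 12310016)] (nat_lit 10584306)) p15_27_1 (nat_lit 4) (nat_lit 124) (nat_lit 125) = true := by decide +kernel
def p15_27_1_125 : pfC (piC [(nat_lit 36888796), (nat_lit 24534081), (nat_lit 18263511), (nat_lit 12310016)] (nat_lit 10584306)) p15_27_1 (nat_lit 4) (nat_lit 125) (nat_lit 126) = true := by decide +kernel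
def p15_27_1_126 : pfC (piC [(nat_lit 36888796), (nat_lit 24534081), (nat_lit 18263511), (nat_lit 12310016)] (nat_lit 10584306)) p15_27_1 (nat_lit 4) (nat_lit 126) (nat_lit 127) = true := by decide +kernel
def p15_27_1_127 : pfC (piC [(nat_lit 36888796), (nat_lit 24534081), (nat_lit 18263511), (nat_lit 12310016)] (nat_lit 10584306)) p15_27_1 (nat_lit 4) (nat_lit 127) (nat_lit 128) = true := by decide +kernel
def p15_27_1_128 : pfC (piC [(nat_lit 36888796), (nat_lit 24534081), (nat_lit 18263511), (nat_lit 12310016)] (nat_lit 10584306)) p15_27_1 (nat_lit 4) (nat_lit 128) (nat_lit 129) = true := by decide +kernel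
def p15_27_1_129 : pfC (piC [(nat_lit 36888796), (nat_lit 24534081), (nat_lit 18263511), (nat_lit 12310016)] (nat_lit 10584306)) p15_27_1 (nat_lit 4) (nat_lit 129) (nat_lit 130) = true := by decide +kernel
def p15_27_1_130 : pfC (piC [(nat_lit 36888796), (nat_lit 24534081), (nat_lit 18263511), (nat_lit 12310016)] (nat_lit 10584306)) p15_27_1 (nat_lit 4) (nat_lit 130) (nat_lit 131) = true := by decide +kernel
def p15_27_1_131 : pfC (piC [(nat_lit 36888796), (nat_lit 24534081), (nat_lit 18263511), (nat_lit 12310016)] (nat_lit 10584306)) p15_27_1 (nat_lit 4) (nat_lit 131) (nat_lit 132) = true := by decide +kernel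
def p15_27_1_132 : pfC (piC [(nat_lit 36888796), (nat_lit 24534081), (nat_lit 18263511), (nat_lit 12310016)] (nat_lit 10584306)) p15_27_1 (nat_lit 4) (nat_lit 132) (nat_lit 133) = true := by decide +kernel
def p15_27_1_133 : pfC (piC [(nat_lit 36888796), (nat_lit 24534081), (nat_lit 18263511), (nat_lit 12310016)] (nat_lit 10584306)) p15_27_1 (nat_lit 4) (nat_lit 133) (nat_lit 134) = true := by decide +kernel
def p15_27_1_134 : pfC (piC [(nat_lit 36888796), (nat_lit 24534081), (nat_lit 18263511), (nat_lit 12310016)] (nat_lit 10584306)) p15_27_1 (nat_lit 4) (nat_lit 134) (nat_lit 135) = true := by decide +kernel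
def p15_27_1_135 : pfC (piC [(nat_lit 36888796), (nat_lit 24534081), (nat_lit 18263511), (nat_lit 12310016)] (nat_lit 10584306)) p15_27_1 (nat_lit 4) (nat_lit 135) (nat_lit 136) = true := by decide +kernel
def p15_27_1_136 : pfC (piC [(nat_lit 36888796), (nat_lit 24534081), (nat_lit 18263511), (nat_lit 12310016)] (nat_lit 10584306)) p15_27_1 (nat_lit 4) (nat_lit 136) (nat_lit 137) = true := by decide +kernel
def p15_27_1_137 : pfC (piC [(nat_lit 36888796), (nat_lit 24534081), (nat_lit 18263511), (nat_lit 12310016)] (nat_lit 10584306)) p15_27_1 (nat_lit 4) (nat_lit 137) (nat_lit 138) = true := by decide +kernel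
def p15_27_1_138 : pfC (piC [(nat_lit 36888796), (nat_lit 24534081), (nat_lit 18263511), (nat_lit 12310016)] (nat_lit 10584306)) p15_27_1 (nat_lit 4) (nat_lit 138) (nat_lit 139) = true := by decide +kernel
def p15_27_1_139 : pfC (piC [(nat_lit 36888796), (nat_lit 24534081), (nat_lit 18263511), (nat_lit 12310016)] (nat_lit 10584306)) p15_27_1 (nat_lit 4) (nat_lit 139) (nat_lit 140) = true := by decide +kernel
def p15_27_1_140 : pfC (piC [(nat_lit 36888796), (nat_lit 24534081), (nat_lit 18263511), (nat_lit 12310016)] (nat_lit 10584306)) p15_27_1 (nat_lit 4) (nat_lit 140) (nat_lit 141) = true := by decide +kernel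
def p15_27_1_141 : pfC (piC [(nat_lit 36888796), (nat_lit 24534081), (nat_lit 18263511), (nat_lit 12310016)] (nat_lit 10584306)) p15_27_1 (nat_lit 4) (nat_lit 141) (nat_lit 142) = true := by decide +kernel
def p15_27_1_142 : pfC (piC [(nat_lit 36888796), (nat_lit 24534081), (nat_lit 18263511), (nat_lit 12310016)] (nat_lit 10584306)) p15_27_1 (nat_lit 4) (nat_lit 142) (nat_lit 143) = true := by decide +kernel
def p15_27_1_143 : pfC (piC [(nat_lit 36888796), (nat_lit 24534081), (nat_lit 18263511), (nat_lit 12310016)] (nat_lit 10584306)) p15_27_1 (nat_lit 4) (nat_lit 143) (nat_lit 144) = true := by decide +kernel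
def p15_27_1_144 : pfC (piC [(nat_lit 36888796), (nat_lit 24534081), (nat_lit 18263511), (nat_lit 12310016)] (nat_lit 10584306)) p15_27_1 (nat_lit 4) (nat_lit 144) (nat_lit 145) = true := by decide +kernel
def p15_27_1_145 : pfC (piC [(nat_lit 36888796), (nat_lit 24534081), (nat_lit 18263511), (nat_lit 12310016)] (nat_lit 10584306)) p15_27_1 (nat_lit 4) (nat_lit 145) (nat_lit 146) = true := by decide +kernel
def p15_27_1_146 : pfC (piC [(nat_lit 36888796), (nat_lit 24534081), (nat_lit 18263511), (nat_lit 12310016)] (nat_lit 10584306)) p15_27_1 (nat_lit 4) (nat_lit 146) (nat_lit 147) = true := by decide +kernel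
def p15_27_1_147 : pfC (piC [(nat_lit 36888796), (nat_lit 24534081), (nat_lit 18263511), (nat_lit 12310016)] (nat_lit 10584306)) p15_27_1 (nat_lit 4) (nat_lit 147) (nat_lit 148) = true := by decide +kernel
def p15_27_1_148 : pfC (piC [(nat_lit 36888796), (nat_lit 24534081), (nat_lit 18263511), (nat_lit 12310016)] (nat_lit 10584306)) p15_27_1 (nat_lit 4) (nat_lit 148) (nat_lit 149) = true := by decide +kernel
def p15_27_1_149 : pfC (piC [(nat_lit 36888796), (nat_lit 24534081), (nat_lit 18263511), (nat_lit 12310016)] (nat_lit 10584306)) p15_27_1 (nat_lit 4) (nat_lit 149) (nat_lit 150) = true := by decide +kernel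
def p15_27_1_150 : pfC (piC [(nat_lit 36888796), (nat_lit 24534081), (nat_lit 18263511), (nat_lit 12310016)] (nat_lit 10584306)) p15_27_1 (nat_lit 4) (nat_lit 150) (nat_lit 151) = true := by decide +kernel
def p15_27_1_151 : pfC (piC [(nat_lit 36888796), (nat_lit 24534081), (nat_lit 18263511), (nat_lit 12310016)] (nat_lit 10584306)) p15_27_1 (nat_lit 4) (nat_lit 151) (nat_lit 152) = true := by decide +kernel
def p15_27_1_152 : pfC (piC [(nat_lit 36888796), (nat_lit 24534081), (nat_lit 18263511), (nat_lit 12310016)] (nat_lit 10584306)) p15_27_1 (nat_lit 4) (nat_lit 152) (nat_lit 153) = true := by decide +kernel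
def p15_27_1_153 : pfC (piC [(nat_lit 36888796), (nat_lit 24534081), (nat_lit 18263511), (nat_lit 12310016)] (nat_lit 10584306)) p15_27_1 (nat_lit 4) (nat_lit 153) (nat_lit 154) = true := by decide +kernel
def p15_27_1_154 : pfC (piC [(nat_lit 36888796), (nat_lit 24534081), (nat_lit 18263511), (nat_lit 12310016)] (nat_lit 10584306)) p15_27_1 (nat_lit 4) (nat_lit 154) (nat_lit 155) = true := by decide +kernel
def p15_27_1_155 : pfC (piC [(nat_lit 36888796), (nat_lit 24534081), (nat_lit 18263511), (nat_lit 12310016)] (nat_lit 10584306)) p15_27_1 (nat_lit 4) (nat_lit 155) (nat_lit 156) = true := by decide +kernel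
def p15_27_1_156 : pfC (piC [(nat_lit 36888796), (nat_lit 24534081), (nat_lit 18263511), (nat_lit 12310016)] (nat_lit 10584306)) p15_27_1 (nat_lit 4) (nat_lit 156) (nat_lit 157) = true := by decide +kernel
def p15_27_1_157 : pfC (piC [(nat_lit 36888796), (nat_lit 24534081), (nat_lit 18263511), (nat_lit 12310016)] (nat_lit 10584306)) p15_27_1 (nat_lit 4) (nat_lit 157) (nat_lit 158) = true := by decide +kernel
def p15_27_1_158 : pfC (piC [(nat_lit 36888796), (nat_lit 24534081), (nat_lit 18263511), (nat_lit 12310016)] (nat_lit 10584306)) p15_27_1 (nat_lit 4) (nat_lit 158) (nat_lit 159) = true := by decide +kernel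
def p15_27_1_159 : pfC (piC [(nat_lit 36888796), (nat_lit 24534081), (nat_lit 18263511), (nat_lit 12310016)] (nat_lit 10584306)) p15_27_1 (nat_lit 4) (nat_lit 159) (nat_lit 160) = true := by decide +kernel
def p15_27_1_160 : pfC (piC [(nat_lit 36888796), (nat_lit 24534081), (nat_lit 18263511), (nat_lit 12310016)] (nat_lit 10584306)) p15_27_1 (nat_lit 4) (nat_lit 160) (nat_lit 161) = true := by decide +kernel
def p15_27_1_161 : pfC (piC [(nat_lit 36888796), (nat_lit 24534081), (nat_lit 18263511), (nat_lit 12310016)] (nat_lit 10584306)) p15_27_1 (nat_lit 4) (nat_lit 161) (nat_lit 162) = true := by decide +kernel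
def p15_27_1_162 : pfC (piC [(nat_lit 36888796), (nat_lit 24534081), (nat_lit 18263511), (nat_lit 12310016)] (nat_lit 10584306)) p15_27_1 (nat_lit 4) (nat_lit 162) (nat_lit 163) = true := by decide +kernel
def p15_27_1_163 : pfC (piC [(nat_lit 36888796), (nat_lit 24534081), (nat_lit 18263511), (nat_lit 12310016)] (nat_lit 10584306)) p15_27_1 (nat_lit 4) (nat_lit 163) (nat_lit 164) = true := by decide +kernel
def p15_27_1_164 : pfC (piC [(nat_lit 36888796), (nat_lit 24534081), (nat_lit 18263511), (nat_lit 12310016)] (nat_lit 10584306)) p15_27_1 (nat_lit 4) (nat_lit 164) (nat_lit 165) = true := by decide +kernel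
def p15_27_1_165 : pfC (piC [(nat_lit 36888796), (nat_lit 24534081), (nat_lit 18263511), (nat_lit 12310016)] (nat_lit 10584306)) p15_27_1 (nat_lit 4) (nat_lit 165) (nat_lit 166) = true := by decide +kernel
def p15_27_1_166 : pfC (piC [(nat_lit 36888796), (nat_lit 24534081), (nat_lit 18263511), (nat_lit 12310016)] (nat_lit 10584306)) p15_27_1 (nat_lit 4) (nat_lit 166) (nat_lit 167) = true := by decide +kernel
def p15_27_1_167 : pfC (piC [(nat_lit 36888796), (nat_lit 24534081), (nat_lit 18263511), (nat_lit 12310016)] (nat_lit 10584306)) p15_27_1 (nat_lit 4) (nat_lit 167) (nat_lit 168) = true := by decide +kernel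
def p15_27_1_168 : pfC (piC [(nat_lit 36888796), (nat_lit 24534081), (nat_lit 18263511), (nat_lit 12310016)] (nat_lit 10584306)) p15_27_1 (nat_lit 4) (nat_lit 168) (nat_lit 169) = true := by decide +kernel
def p15_27_1_169 : pfC (piC [(nat_lit 36888796), (nat_lit 24534081), (nat_lit 18263511), (nat_lit 12310016)] (nat_lit 10584306)) p15_27_1 (nat_lit 4) (nat_lit 169) (nat_lit 170) = true := by decide +kernel
def p15_27_1_170 : pfC (piC [(nat_lit 36888796), (nat_lit 24534081), (nat_lit 18263511), (nat_lit 12310016)] (nat_lit 10584306)) p15_27_1 (nat_lit 4) (nat_lit 170) (nat_lit 171) = true := by decide +kernel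
def p15_27_1_171 : pfC (piC [(nat_lit 36888796), (nat_lit 24534081), (nat_lit 18263511), (nat_lit 12310016)] (nat_lit 10584306)) p15_27_1 (nat_lit 4) (nat_lit 171) (nat_lit 172) = true := by decide +kernel
def p15_27_1_172 : pfC (piC [(nat_lit 36888796), (nat_lit 24534081), (nat_lit 18263511), (nat_lit 12310016)] (nat_lit 10584306)) p15_27_1 (nat_lit 4) (nat_lit 172) (nat_lit 173) = true := by decide +kernel
def p15_27_1_173 : pfC (piC [(nat_lit 36888796), (nat_lit 24534081), (nat_lit 18263511), (nat_lit 12310016)] (nat_lit 10584306)) p15_27_1 (nat_lit 4) (nat_lit 173) (nat_lit 174) = true := by decide +kernel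
def p15_27_1_174 : pfC (piC [(nat_lit 36888796), (nat_lit 24534081), (nat_lit 18263511), (nat_lit 12310016)] (nat_lit 10584306)) p15_27_1 (nat_lit 4) (nat_lit 174) (nat_lit 175) = true := by decide +kernel
def p15_27_1_175 : pfC (piC [(nat_lit 36888796), (nat_lit 24534081), (nat_lit 18263511), (nat_lit 12310016)] (nat_lit 10584306)) p15_27_1 (nat_lit 4) (nat_lit 175) (nat_lit 176) = true := by decide +kernel
def p15_27_1_176 : pfC (piC [(nat_lit 36888796), (nat_lit 24534081), (nat_lit 18263511), (nat_lit 12310016)] (nat_lit 10584306)) p15_27_1 (nat_lit 4) (nat_lit 176) (nat_lit 177) = true := by decide +kernel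
def p15_27_1_177 : pfC (piC [(nat_lit 36888796), (nat_lit 24534081), (nat_lit 18263511), (nat_lit 12310016)] (nat_lit 10584306)) p15_27_1 (nat_lit 4) (nat_lit 177) (nat_lit 178) = true := by decide +kernel
def p15_27_1_178 : pfC (piC [(nat_lit 36888796), (nat_lit 24534081), (nat_lit 18263511), (nat_lit 12310016)] (nat_lit 10584306)) p15_27_1 (nat_lit 4) (nat_lit 178) (nat_lit 179) = true := by decide +kernel
def p15_27_1_179 : pfC (piC [(nat_lit 36888796), (nat_lit 24534081), (nat_lit 18263511), (nat_lit 12310016)] (nat_lit 10584306)) p15_27_1 (nat_lit 4) (nat_lit 179) (nat_lit 180) = true := by decide +kernel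
def p15_27_1_180 : pfC (piC [(nat_lit 36888796), (nat_lit 24534081), (nat_lit 18263511), (nat_lit 12310016)] (nat_lit 10584306)) p15_27_1 (nat_lit 4) (nat_lit 180) (nat_lit 181) = true := by decide +kernel
def p15_27_1_181 : pfC (piC [(nat_lit 36888796), (nat_lit 24534081), (nat_lit 18263511), (nat_lit 12310016)] (nat_lit 10584306)) p15_27_1 (nat_lit 4) (nat_lit 181) (nat_lit 182) = true := by decide +kernel
def p15_27_1_182 : pfC (piC [(nat_lit 36888796), (nat_lit 24534081), (nat_lit 18263511), (nat_lit 12310016)] (nat_lit 10584306)) p15_27_1 (nat_lit 4) (nat_lit 182) (nat_lit 183) = true := by decide +kernel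
def p15_27_1_183 : pfC (piC [(nat_lit 36888796), (nat_lit 24534081), (nat_lit 18263511), (nat_lit 12310016)] (nat_lit 10584306)) p15_27_1 (nat_lit 4) (nat_lit 183) (nat_lit 184) = true := by decide +kernel
def p15_27_1_184 : pfC (piC [(nat_lit 36888796), (nat_lit 24534081), (nat_lit 18263511), (nat_lit 12310016)] (nat_lit 10584306)) p15_27_1 (nat_lit 4) (nat_lit 184) (nat_lit 185) = true := by decide +kernel
def p15_27_1_185 : pfC (piC [(nat_lit 36888796), (nat_lit 24534081), (nat_lit 18263511), (nat_lit 12310016)] (nat_lit 10584306)) p15_27_1 (nat_lit 4) (nat_lit 185) (nat_lit 186) = true := by decide +kernel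
def p15_27_1_186 : pfC (piC [(nat_lit 36888796), (nat_lit 24534081), (nat_lit 18263511), (nat_lit 12310016)] (nat_lit 10584306)) p15_27_1 (nat_lit 4) (nat_lit 186) (nat_lit 187) = true := by decide +kernel
def p15_27_1_187 : pfC (piC [(nat_lit 36888796), (nat_lit 24534081), (nat_lit 18263511), (nat_lit 12310016)] (nat_lit 10584306)) p15_27_1 (nat_lit 4) (nat_lit 187) (nat_lit 188) = true := by decide +kernel
def p15_27_1_188 : pfC (piC [(nat_lit 36888796), (nat_lit 24534081), (nat_lit 18263511), (nat_lit 12310016)] (nat_lit 10584306)) p15_27_1 (nat_lit 4) (nat_lit 188) (nat_lit 189) = true := by decide +kernel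
def p15_27_1_189 : pfC (piC [(nat_lit 36888796), (nat_lit 24534081), (nat_lit 18263511), (nat_lit 12310016)] (nat_lit 10584306)) p15_27_1 (nat_lit 4) (nat_lit 189) (nat_lit 190) = true := by decide +kernel
def p15_27_1_190 : pfC (piC [(nat_lit 36888796), (nat_lit 24534081), (nat_lit 18263511), (nat_lit 12310016)] (nat_lit 10584306)) p15_27_1 (nat_lit 4) (nat_lit 190) (nat_lit 191) = true := by decide +kernel
def p15_27_1_191 : pfC (piC [(nat_lit 36888796), (nat_lit 24534081), (nat_lit 18263511), (nat_lit 12310016)] (nat_lit 10584306)) p15_27_1 (nat_lit 4) (nat_lit 191) (nat_lit 192) = true := by decide +kernel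
def p15_27_1_192 : pfC (piC [(nat_lit 36888796), (nat_lit 24534081), (nat_lit 18263511), (nat_lit 12310016)] (nat_lit 10584306)) p15_27_1 (nat_lit 4) (nat_lit 192) (nat_lit 193) = true := by decide +kernel
def p15_27_1_193 : pfC (piC [(nat_lit 36888796), (nat_lit 24534081), (nat_lit 18263511), (nat_lit 12310016)] (nat_lit 10584306)) p15_27_1 (nat_lit 4) (nat_lit 193) (nat_lit 194) = true := by decide +kernel
def p15_27_1_194 : pfC (piC [(nat_lit 36888796), (nat_lit 24534081), (nat_lit 18263511), (nat_lit 12310016)] (nat_lit 10584306)) p15_27_1 (nat_lit 4) (nat_lit 194) (nat_lit 195) = true := by decide +kernel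
def p15_27_1_195 : pfC (piC [(nat_lit 36888796), (nat_lit 24534081), (nat_lit 18263511), (nat_lit 12310016)] (nat_lit 10584306)) p15_27_1 (nat_lit 4) (nat_lit 195) (nat_lit 196) = true := by decide +kernel
def p15_27_1_196 : pfC (piC [(nat_lit 36888796), (nat_lit 24534081), (nat_lit 18263511), (nat_lit 12310016)] (nat_lit 10584306)) p15_27_1 (nat_lit 4) (nat_lit 196) (nat_lit 197) = true := by decide +kernel
def p15_27_1_197 : pfC (piC [(nat_lit 36888796), (nat_lit 24534081), (nat_lit 18263511), (nat_lit 12310016)] (nat_lit 10584306)) p15_27_1 (nat_lit 4) (nat_lit 197) (nat_lit 198) = true := by decide +kernel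
def p15_27_1_198 : pfC (piC [(nat_lit 36888796), (nat_lit 24534081), (nat_lit 18263511), (nat_lit 12310016)] (nat_lit 10584306)) p15_27_1 (nat_lit 4) (nat_lit 198) (nat_lit 199) = true := by decide +kernel
def p15_27_1_199 : pfC (piC [(nat_lit 36888796), (nat_lit 24534081), (nat_lit 18263511), (nat_lit 12310016)] (nat_lit 10584306)) p15_27_1 (nat_lit 4) (nat_lit 199) (nat_lit 200) = true := by decide +kernel
def p15_27_1_200 : pfC (piC [(nat_lit 36888796), (nat_lit 24534081), (nat_lit 18263511), (nat_lit 12310016)] (nat_lit 10584306)) p15_27_1 (nat_lit 4) (nat_lit 200) (nat_lit 201) = true := by decide +kernel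
def p15_27_1_201 : pfC (piC [(nat_lit 36888796), (nat_lit 24534081), (nat_lit 18263511), (nat_lit 12310016)] (nat_lit 10584306)) p15_27_1 (nat_lit 4) (nat_lit 201) (nat_lit 202) = true := by decide +kernel
def p15_27_1_202 : pfC (piC [(nat_lit 36888796), (nat_lit 24534081), (nat_lit 18263511), (nat_lit 12310016)] (nat_lit 10584306)) p15_27_1 (nat_lit 4) (nat_lit 202) (nat_lit 203) = true := by decide +kernel
def p15_27_1_203 : pfC (piC [(nat_lit 36888796), (nat_lit 24534081), (nat_lit 18263511), (nat_lit 12310016)] (nat_lit 10584306)) p15_27_1 (nat_lit 4) (nat_lit 203) (nat_lit 204) = true := by decide +kernel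
theorem p15_27_1_T : PfS (PiF n15_27.reverse (nat_lit 10584306)) p15_27_1 (nat_lit 4) [] 0 :=
  pftab_of (los := [(nat_lit 36888796), (nat_lit 24534081), (nat_lit 18263511), (nat_lit 12310016)]) (by decide +kernel) (hi := (nat_lit 204)) (PfP.trans (PfP.trans (PfP.trans (PfP.trans (PfP.trans (PfP.trans (PfP.trans (PfP.trans (PfP.trans (PfP.trans (PfP.trans (PfP.trans (PfP.trans (PfP.trans (PfP.trans (PfP.trans (PfP.trans (PfP.trans (PfP.trans (PfP.trans (PfP.trans (PfP.trans (PfP.trans (PfP.trans (PfP.trans (PfP.trans (PfP.trans (PfP.trans (PfP.trans (PfP.trans (PfP.trans (PfP.trans (PfP.trans (PfP.trans (PfP.trans (PfP.trans (PfP.trans (PfP.trans (PfP.trans (PfP.trans (PfP.trans (PfP.trans (PfP.trans (PfP.trans (PfP.trans (PfP.trans (PfP.trans (PfP.trans (PfP.trans (PfP.trans (PfP.trans (PfP.trans (PfP.trans (PfP.trans (PfP.trans (PfP.trans (PfP.trans (PfP.trans (PfP.trans (PfP.trans (PfP.trans (PfP.trans (PfP.trans (PfP.trans (PfP.trans (PfP.trans (PfP.trans (PfP.trans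 (PfP.trans (PfP.trans (PfP.trans (PfP.trans (PfP.trans (PfP.trans (PfP.trans (PfP.trans (PfP.trans (PfP.trans (PfP.trans (PfP.trans (PfP.trans (PfP.trans (PfP.trans (PfP.trans (PfP.trans (PfP.trans (PfP.trans (PfP.trans (PfP.trans (PfP.trans (PfP.trans (PfP.trans (PfP.trans (PfP.trans (PfP.trans (PfP.trans (PfP.trans (PfP.trans (PfP.trans (PfP.trans (PfP.trans (PfP.trans (PfP.trans (PfP.trans (PfP.trans (PfP.trans (PfP.trans (PfP.trans (PfP.trans
 (PfP.trans (PfP.trans (PfP.trans (PfP.trans (PfP.trans (PfP.trans (PfP.trans (PfP.trans (PfP.trans (PfP.trans (PfP.trans (PfP.trans (PfP.trans (PfP.trans (PfP.trans (PfP.trans (PfP.trans (PfP.trans (PfP.trans (PfP.trans (PfP.trans (PfP.trans (PfP.trans (PfP.trans (PfP.trans (PfP.trans (PfP.trans (PfP.trans (PfP.trans (PfP.trans (PfP.trans (PfP.trans (PfP.trans (PfP.trans (PfP.trans (PfP.trans (PfP.trans (PfP.trans (PfP.trans (PfP.trans (PfP.trans (PfP.trans (PfP.trans (PfP.trans (PfP.trans (PfP.trans (PfP.trans (PfP.trans (PfP.trans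 (PfP.trans (PfP.trans (PfP.trans (PfP.trans (PfP.trans (PfP.trans (PfP.trans (PfP.trans (PfP.trans (PfP.trans (PfP.trans (PfP.trans (PfP.trans (PfP.trans (PfP.trans (PfP.trans (PfP.trans (PfP.trans (PfP.trans (PfP.trans (PfP.trans (PfP.trans (PfP.trans (PfP.trans (PfP.trans (PfP.trans (PfP.trans (PfP.trans (PfP.trans (PfP.trans (PfP.trans (PfP.trans (PfP.trans (PfP.trans (PfP.trans (PfP.trans (PfP.trans (PfP.trans (PfP.trans (PfP.trans (PfP.trans (PfP.trans (PfP.trans (PfP.trans (PfP.trans (pfC_sound p15_27_1_0) (pfC_sound p15_27_1_1)) (pfC_sound p15_27_1_2)) (pfC_sound p15_27_1_3)) (pfC_sound p15_27_1_4)) (pfC_sound p15_27_1_5)) (pfC_sound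
 p15_27_1_6)) (pfC_sound p15_27_1_7)) (pfC_sound p15_27_1_8)) (pfC_sound p15_27_1_9)) (pfC_sound p15_27_1_10)) (pfC_sound p15_27_1_11)) (pfC_sound p15_27_1_12)) (pfC_sound p15_27_1_13)) (pfC_sound p15_27_1_14)) (pfC_sound p15_27_1_15)) (pfC_sound p15_27_1_16)) (pfC_sound p15_27_1_17)) (pfC_sound p15_27_1_18)) (pfC_sound p15_27_1_19)) (pfC_sound p15_27_1_20)) (pfC_sound p15_27_1_21)) (pfC_sound p15_27_1_22)) (pfC_sound p15_27_1_23)) (pfC_sound p15_27_1_24)) (pfC_sound p15_27_1_25)) (pfC_sound p15_27_1_26)) (pfC_sound p15_27_1_27)) (pfC_sound p15_27_1_28)) (pfC_sound p15_27_1_29)) (pfC_sound p15_27_1_30)) (pfC_sound p15_27_1_31)) (pfC_sound p15_27_1_32)) (pfC_sound p15_27_1_33)) (pfC_sound p15_27_1_34)) (pfC_sound p15_27_1_35)) (pfC_sound p15_27_1_36)) (pfC_sound p15_27_1_37)) (pfC_sound p15_27_1_38)) (pfC_sound p15_27_1_39)) (pfC_sound p15_27_1_40)) (pfC_sound p15_27_1_41)) (pfC_sound p15_27_1_42)) (pfC_sound p15_27_1_43)) (pfC_sound p15_27_1_44)) (pfC_sound p15_27_1_45))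 (pfC_sound p15_27_1_46)) (pfC_sound p15_27_1_47)) (pfC_sound p15_27_1_48)) (pfC_sound p15_27_1_49)) (pfC_sound p15_27_1_50)) (pfC_sound p15_27_1_51)) (pfC_sound p15_27_1_52)) (pfC_sound p15_27_1_53)) (pfC_sound
 p15_27_1_54)) (pfC_sound p15_27_1_55)) (pfC_sound p15_27_1_56)) (pfC_sound p15_27_1_57)) (pfC_sound p15_27_1_58)) (pfC_sound p15_27_1_59)) (pfC_sound p15_27_1_60)) (pfC_sound p15_27_1_61)) (pfC_sound p15_27_1_62)) (pfC_sound p15_27_1_63)) (pfC_sound p15_27_1_64)) (pfC_sound p15_27_1_65)) (pfC_sound p15_27_1_66)) (pfC_sound p15_27_1_67)) (pfC_sound p15_27_1_68)) (pfC_sound p15_27_1_69)) (pfC_sound p15_27_1_70)) (pfC_sound p15_27_1_71)) (pfC_sound p15_27_1_72)) (pfC_sound p15_27_1_73)) (pfC_sound p15_27_1_74)) (pfC_sound p15_27_1_75)) (pfC_sound p15_27_1_76)) (pfC_sound p15_27_1_77)) (pfC_sound p15_27_1_78)) (pfC_sound p15_27_1_79)) (pfC_sound p15_27_1_80)) (pfC_sound p15_27_1_81)) (pfC_sound p15_27_1_82)) (pfC_sound p15_27_1_83)) (pfC_sound p15_27_1_84)) (pfC_sound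 p15_27_1_85)) (pfC_sound p15_27_1_86)) (pfC_sound p15_27_1_87)) (pfC_sound p15_27_1_88)) (pfC_sound p15_27_1_89)) (pfC_sound p15_27_1_90)) (pfC_sound p15_27_1_91)) (pfC_sound p15_27_1_92)) (pfC_sound p15_27_1_93)) (pfC_sound p15_27_1_94)) (pfC_sound p15_27_1_95)) (pfC_sound p15_27_1_96)) (pfC_sound p15_27_1_97)) (pfC_sound p15_27_1_98)) (pfC_sound p15_27_1_99)) (pfC_sound p15_27_1_100)) (pfC_sound p15_27_1_101))
 (pfC_sound p15_27_1_102)) (pfC_sound p15_27_1_103)) (pfC_sound p15_27_1_104)) (pfC_sound p15_27_1_105)) (pfC_sound p15_27_1_106)) (pfC_sound p15_27_1_107)) (pfC_sound p15_27_1_108)) (pfC_sound p15_27_1_109)) (pfC_sound p15_27_1_110)) (pfC_sound p15_27_1_111)) (pfC_sound p15_27_1_112)) (pfC_sound p15_27_1_113)) (pfC_sound p15_27_1_114)) (pfC_sound p15_27_1_115)) (pfC_sound p15_27_1_116)) (pfC_sound p15_27_1_117)) (pfC_sound p15_27_1_118)) (pfC_sound p15_27_1_119)) (pfC_sound p15_27_1_120)) (pfC_sound p15_27_1_121)) (pfC_sound p15_27_1_122)) (pfC_sound p15_27_1_123))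 (pfC_sound p15_27_1_124)) (pfC_sound p15_27_1_125)) (pfC_sound p15_27_1_126)) (pfC_sound p15_27_1_127)) (pfC_sound p15_27_1_128)) (pfC_sound p15_27_1_129)) (pfC_sound p15_27_1_130)) (pfC_sound p15_27_1_131)) (pfC_sound p15_27_1_132)) (pfC_sound p15_27_1_133)) (pfC_sound p15_27_1_134)) (pfC_sound p15_27_1_135)) (pfC_sound p15_27_1_136)) (pfC_sound p15_27_1_137)) (pfC_sound p15_27_1_138)) (pfC_sound p15_27_1_139)) (pfC_sound p15_27_1_140)) (pfC_sound p15_27_1_141)) (pfC_sound p15_27_1_142)) (pfC_sound p15_27_1_143)) (pfC_sound p15_27_1_144)) (pfC_sound p15_27_1_145)) (pfC_sound p15_27_1_146)) (pfC_sound p15_27_1_147))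
 (pfC_sound p15_27_1_148)) (pfC_sound p15_27_1_149)) (pfC_sound p15_27_1_150)) (pfC_sound p15_27_1_151)) (pfC_sound p15_27_1_152)) (pfC_sound p15_27_1_153)) (pfC_sound p15_27_1_154)) (pfC_sound p15_27_1_155)) (pfC_sound p15_27_1_156)) (pfC_sound p15_27_1_157)) (pfC_sound p15_27_1_158)) (pfC_sound p15_27_1_159)) (pfC_sound p15_27_1_160)) (pfC_sound p15_27_1_161)) (pfC_sound p15_27_1_162)) (pfC_sound p15_27_1_163)) (pfC_sound p15_27_1_164)) (pfC_sound p15_27_1_165)) (pfC_sound p15_27_1_166)) (pfC_sound p15_27_1_167)) (pfC_sound p15_27_1_168)) (pfC_sound p15_27_1_169)) (pfC_sound p15_27_1_170)) (pfC_sound p15_27_1_171)) (pfC_sound p15_27_1_172)) (pfC_sound p15_27_1_173)) (pfC_sound p15_27_1_174)) (pfC_sound p15_27_1_175)) (pfC_sound p15_27_1_176)) (pfC_sound p15_27_1_177)) (pfC_sound p15_27_1_178)) (pfC_sound p15_27_1_179)) (pfC_sound p15_27_1_180)) (pfC_sound p15_27_1_181)) (pfC_sound p15_27_1_182)) (pfC_sound p15_27_1_183)) (pfC_sound p15_27_1_184)) (pfC_sound p15_27_1_185))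 (pfC_sound p15_27_1_186)) (pfC_sound p15_27_1_187)) (pfC_sound p15_27_1_188)) (pfC_sound p15_27_1_189)) (pfC_sound p15_27_1_190)) (pfC_sound p15_27_1_191)) (pfC_sound p15_27_1_192)) (pfC_sound p15_27_1_193))
 (pfC_sound p15_27_1_194)) (pfC_sound p15_27_1_195)) (pfC_sound p15_27_1_196)) (pfC_sound p15_27_1_197)) (pfC_sound p15_27_1_198)) (pfC_sound p15_27_1_199)) (pfC_sound p15_27_1_200)) (pfC_sound p15_27_1_201)) (pfC_sound p15_27_1_202)) (pfC_sound p15_27_1_203)) (by decide +kernel)

def z15_27_1 : zOK yB15_27 (nat_lit 1) (nat_lit 400) (nat_lit 600) (nat_lit 10584306) (nat_lit 6753074) = true := by decide +kernel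
def g15_27_1 : gOK yB15_27.x P15_27 (nat_lit 1413) (q15_27 :: r15_27) (nat_lit 1) (nat_lit 400) (nat_lit 2) (nat_lit 600) (nat_lit 11000000) (nat_lit 17850000) (nat_lit 12712500) (nat_lit 12712500) [(nat_lit 800), (nat_lit 1130)] = true := by decide +kernel
def v15_27_1 : ivC P15_27 s15_27 w15_27 n15_27 (nat_lit 4) (nat_lit 4960) (nat_lit 1) (nat_lit 400) f168_1_400 f176_1_400 (nat_lit 2) (nat_lit 600) f168_1_600 f176_1_600 (nat_lit 10584306) (nat_lit 6753074) p15_27_1 = true := by decide +kernel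
def p15_27_2 : PF := (PF.cons (PF.cons (PF.cons (PF.cons (PF.leaf (nat_lit 2725330) (nat_lit 15760257) (nat_lit 51348555) (nat_lit 15760257) [(nat_lit 0), (nat_lit 0), (nat_lit 0), (nat_lit 0)]) (PF.cons (PF.leaf (nat_lit 2921452) (nat_lit 356921) (nat_lit 51013585) (nat_lit 15738306) [(nat_lit 356921), (nat_lit 0), (nat_lit 0), (nat_lit 0)]) (PF.cons (PF.leaf (nat_lit 3152040) (nat_lit 387372) (nat_lit 50623421) (nat_lit 15710645) [(nat_lit 387372), (nat_lit 0), (nat_lit 0), (nat_lit 0)]) (PF.cons (PF.leaf (nat_lit 3410049) (nat_lit 414095) (nat_lit 50189218) (nat_lit 15677308) [(nat_lit 414095), (nat_lit 0), (nat_lit 0), (nat_lit 0)]) (PF.cons (PF.leaf (nat_lit 3691150) (nat_lit 437890) (nat_lit 49718988) (nat_lit 15638261) [(nat_lit 437890), (nat_lit 0), (nat_lit 0), (nat_lit 0)]) (PF.cons (PF.leaf (nat_lit 3991960) (nat_lit 459272) (nat_lit 49218970) (nat_lit 15593479) [(nat_lit 459272), (nat_lit 0), (nat_lit 0), (nat_lit 0)]) (PF.cons (PF.leaf (nat_lit 4309729)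 (nat_lit 478596) (nat_lit 48694259) (nat_lit 15542971) [(nat_lit 478596), (nat_lit 0), (nat_lit 0), (nat_lit 0)]) (PF.cons (PF.leaf (nat_lit 4642111) (nat_lit 496123) (nat_lit 48149153) (nat_lit 15486792) [(nat_lit 496123), (nat_lit 0),
 (nat_lit 0), (nat_lit 0)]) (PF.cons (PF.leaf (nat_lit 4987082) (nat_lit 512052) (nat_lit 47587348) (nat_lit 15425042) [(nat_lit 512052), (nat_lit 0), (nat_lit 0), (nat_lit 0)]) (PF.cons (PF.leaf (nat_lit 5342844) (nat_lit 526542) (nat_lit 47012066) (nat_lit 15357867) [(nat_lit 526542), (nat_lit 0), (nat_lit 0), (nat_lit 0)]) (PF.cons PF.nil (PF.cons PF.nil PF.nil)))))))))))) (PF.cons (PF.cons (PF.leaf (nat_lit 3319355) (nat_lit 1441960) (nat_lit 50009294) (nat_lit 15657557) [(nat_lit 0), (nat_lit 1441960), (nat_lit 0), (nat_lit 0)]) (PF.cons (PF.leaf (nat_lit 3567758) (nat_lit 422733) (nat_lit 49584982) (nat_lit 15621366) [(nat_lit 422733), (nat_lit 1479730), (nat_lit 0), (nat_lit 0)]) (PF.cons (PF.leaf (nat_lit 3841541) (nat_lit 445759)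 (nat_lit 49122286) (nat_lit 15579180) [(nat_lit 445759), (nat_lit 1515826), (nat_lit 0), (nat_lit 0)]) (PF.cons (PF.leaf (nat_lit 4135986) (nat_lit 466369) (nat_lit 48628805) (nat_lit 15531140) [(nat_lit 466369), (nat_lit 1549758), (nat_lit 0), (nat_lit 0)]) (PF.cons (PF.leaf (nat_lit 4447965) (nat_lit 484950) (nat_lit 48110326) (nat_lit 15477360) [(nat_lit 484950), (nat_lit 1581324), (nat_lit 0), (nat_lit 0)]) (PF.cons (PF.leaf (nat_lit 4774871)
 (nat_lit 501774) (nat_lit 47571506) (nat_lit 15417968) [(nat_lit 501774), (nat_lit 1610466), (nat_lit 0), (nat_lit 0)]) (PF.cons (PF.leaf (nat_lit 5114544) (nat_lit 517042) (nat_lit 47016233) (nat_lit 15353118) [(nat_lit 517042), (nat_lit 1637204), (nat_lit 0), (nat_lit 0)]) (PF.cons (PF.leaf (nat_lit 5465112) (nat_lit 530914) (nat_lit 46447823) (nat_lit 15282992) [(nat_lit 530914), (nat_lit 1661597), (nat_lit 0), (nat_lit 0)]) (PF.cons (PF.leaf (nat_lit 5824937) (nat_lit 543516) (nat_lit 45869149) (nat_lit 15207802) [(nat_lit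 543516), (nat_lit 1683726), (nat_lit 0), (nat_lit 0)]) (PF.cons PF.nil PF.nil)))))))))) (PF.cons (PF.cons (PF.leaf (nat_lit 3995301) (nat_lit 1540151) (nat_lit 48514138) (nat_lit 15514371) [(nat_lit 0), (nat_lit 1540151), (nat_lit 0), (nat_lit 0)]) (PF.cons (PF.leaf (nat_lit 4281307) (nat_lit 472279) (nat_lit 48031368) (nat_lit 15463702) [(nat_lit 472279), (nat_lit 1570731), (nat_lit 0), (nat_lit 0)]) (PF.cons (PF.leaf (nat_lit 4586348) (nat_lit 490319) (nat_lit 47522147) (nat_lit 15407179) [(nat_lit 490319), (nat_lit 1599423), (nat_lit 0), (nat_lit 0)]) (PF.cons (PF.leaf (nat_lit 4906996) (nat_lit 506587) (nat_lit 46991905) (nat_lit 15345038) [(nat_lit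
 506587), (nat_lit 1626053), (nat_lit 0), (nat_lit 0)]) (PF.cons (PF.leaf (nat_lit 5240827) (nat_lit 521308) (nat_lit 46444949) (nat_lit 15277504) [(nat_lit 521308), (nat_lit 1650562), (nat_lit 0), (nat_lit 0)]) (PF.cons (PF.leaf (nat_lit 5585807) (nat_lit 534651) (nat_lit 45884826) (nat_lit 15204810) [(nat_lit 534651), (nat_lit 1672957), (nat_lit 0), (nat_lit 0)]) (PF.cons (PF.leaf (nat_lit 5940192) (nat_lit 546750) (nat_lit 45314538) (nat_lit 15127200) [(nat_lit 546750), (nat_lit 1693284), (nat_lit 0), (nat_lit 0)]) (PF.cons PF.nil (PF.cons PF.nil PF.nil))))))))) (PF.cons (PF.cons (PF.leaf (nat_lit 4726489) (nat_lit 1615838) (nat_lit 46928920) (nat_lit 15332376) [(nat_lit 0), (nat_lit 1615838), (nat_lit 0), (nat_lit 0)]) (PF.cons (PF.leaf (nat_lit 5039432) (nat_lit 510564) (nat_lit 46409920) (nat_lit 15268025) [(nat_lit 510564), (nat_lit 1640100), (nat_lit 0), (nat_lit 0)]) (PF.cons (PF.leaf (nat_lit 5366646) (nat_lit 524859) (nat_lit 45873269) (nat_lit 15198272) [(nat_lit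 524859), (nat_lit 1662517), (nat_lit 0), (nat_lit 0)]) (PF.cons (PF.leaf (nat_lit 5705490) (nat_lit 537768) (nat_lit 45322964) (nat_lit 15123419) [(nat_lit 537768), (nat_lit 1683041), (nat_lit 0), (nat_lit 0)])
 (PF.cons (PF.leaf (nat_lit 6054063) (nat_lit 549438) (nat_lit 44762261) (nat_lit 15043758) [(nat_lit 549438), (nat_lit 1701679), (nat_lit 0), (nat_lit 0)]) (PF.cons (PF.leaf (nat_lit 6410742) (nat_lit 559986) (nat_lit 44193886) (nat_lit 14959577) [(nat_lit 559986), (nat_lit 1718471), (nat_lit 0), (nat_lit 0)]) (PF.cons PF.nil PF.nil))))))) (PF.cons (PF.cons (PF.leaf (nat_lit 5493177) (nat_lit 1673186) (nat_lit 45300637) (nat_lit 15115431) [(nat_lit 0), (nat_lit 1673186), (nat_lit 0), (nat_lit 0)]) (PF.cons (PF.leaf (nat_lit 5824843) (nat_lit 540262) (nat_lit 44761898) (nat_lit 15038874) [(nat_lit 540262), (nat_lit 1691944), (nat_lit 0), (nat_lit 0)]) (PF.cons (PF.leaf (nat_lit 6167089) (nat_lit 551584) (nat_lit 44212107) (nat_lit 14957557) [(nat_lit 551584),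 (nat_lit 1708994), (nat_lit 0), (nat_lit 0)]) (PF.cons (PF.leaf (nat_lit 6517796) (nat_lit 561781) (nat_lit 43654258) (nat_lit 14871815) [(nat_lit 561781), (nat_lit 1724348), (nat_lit 0), (nat_lit 0)]) (PF.cons (PF.leaf (nat_lit 6875455) (nat_lit 570961) (nat_lit 43090829) (nat_lit 14781967) [(nat_lit 570961), (nat_lit 1738042), (nat_lit 0), (nat_lit 0)]) PF.nil))))) (PF.cons (PF.cons (PF.leaf (nat_lit 6280190) (nat_lit
 1715303) (nat_lit 43663658) (nat_lit 14868636) [(nat_lit 0), (nat_lit 1715303), (nat_lit 0), (nat_lit 0)]) (PF.cons (PF.leaf (nat_lit 6624152) (nat_lit 563100) (nat_lit 43117494) (nat_lit 14781711) [(nat_lit 563100), (nat_lit 1729301), (nat_lit 0), (nat_lit 0)]) (PF.cons (PF.leaf (nat_lit 6975755) (nat_lit 571992) (nat_lit 42565249) (nat_lit 14690755) [(nat_lit 571992), (nat_lit 1741764), (nat_lit 0), (nat_lit 0)]) (PF.cons PF.nil PF.nil)))) (PF.cons (PF.cons (PF.leaf (nat_lit 7075766) (nat_lit 1744692) (nat_lit 42043078) (nat_lit 14597576) [(nat_lit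 0), (nat_lit 1744692), (nat_lit 0), (nat_lit 0)]) (PF.cons (PF.leaf (nat_lit 7426955) (nat_lit 580331) (nat_lit 41498622) (nat_lit 14502235) [(nat_lit 580331), (nat_lit 1754603), (nat_lit 0), (nat_lit 0)]) PF.nil)) (PF.cons PF.nil (PF.cons PF.nil PF.nil))))))))) (PF.cons (PF.cons (PF.cons (PF.leaf (nat_lit 3873520) (nat_lit 3591101) (nat_lit 48073225) (nat_lit 15444486) [(nat_lit 0), (nat_lit 0), (nat_lit 3591101), (nat_lit 0)]) (PF.cons (PF.leaf (nat_lit 4130391) (nat_lit 448047) (nat_lit 47642818) (nat_lit 15397636) [(nat_lit 448047), (nat_lit 0), (nat_lit 3620309), (nat_lit 0)]) (PF.cons (PF.leaf (nat_lit 4411038) (nat_lit 469134)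
 (nat_lit 47177448) (nat_lit 15344470) [(nat_lit 469134), (nat_lit 0), (nat_lit 3648625), (nat_lit 0)]) (PF.cons (PF.leaf (nat_lit 4710645) (nat_lit 487743) (nat_lit 46684860) (nat_lit 15285415) [(nat_lit 487743), (nat_lit 0), (nat_lit 3675305), (nat_lit 0)]) (PF.cons (PF.leaf (nat_lit 5026042) (nat_lit 504330) (nat_lit 46170792) (nat_lit 15220800) [(nat_lit 504330), (nat_lit 0), (nat_lit 3699897), (nat_lit 0)]) (PF.cons (PF.leaf (nat_lit 5354705) (nat_lit 519202) (nat_lit 45639746) (nat_lit 15150915) [(nat_lit 519202), (nat_lit 0), (nat_lit 3722138), (nat_lit 0)]) (PF.cons (PF.leaf (nat_lit 5694534) (nat_lit 532583) (nat_lit 45095394) (nat_lit 15076038) [(nat_lit 532583), (nat_lit 0), (nat_lit 3741879), (nat_lit 0)]) (PF.cons (PF.leaf (nat_lit 6043779) (nat_lit 544643) (nat_lit 44540806) (nat_lit 14996443) [(nat_lit 544643), (nat_lit 0), (nat_lit 3759059), (nat_lit 0)]) (PF.cons PF.nil (PF.cons PF.nil PF.nil)))))))))) (PF.cons (PF.cons (PF.leaf (nat_lit 4557476) (nat_lit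 1590218) (nat_lit 46581521) (nat_lit 15267742) [(nat_lit 0), (nat_lit 1590218), (nat_lit 3669330), (nat_lit 0)]) (PF.cons (PF.leaf (nat_lit 4847845) (nat_lit 491531) (nat_lit 46102349) (nat_lit 15207062) [(nat_lit
 491531), (nat_lit 1615456), (nat_lit 3692412), (nat_lit 0)]) (PF.cons (PF.leaf (nat_lit 5155663) (nat_lit 507789) (nat_lit 45599883) (nat_lit 15140662) [(nat_lit 507789), (nat_lit 1638928), (nat_lit 3713760), (nat_lit 0)]) (PF.cons (PF.leaf (nat_lit 5477577) (nat_lit 522286) (nat_lit 45079434) (nat_lit 15068951) [(nat_lit 522286), (nat_lit 1660521), (nat_lit 3733045), (nat_lit 0)]) (PF.cons (PF.leaf (nat_lit 5811197) (nat_lit 535277) (nat_lit 44545125) (nat_lit 14992282) [(nat_lit 535277), (nat_lit 1680209), (nat_lit 3750083), (nat_lit 0)]) (PF.cons (PF.leaf (nat_lit 6154567) (nat_lit 546948) (nat_lit 44000290) (nat_lit 14910979) [(nat_lit 546948), (nat_lit 1698019), (nat_lit 3764782), (nat_lit 0)]) (PF.cons (PF.leaf (nat_lit 6506053) (nat_lit 557441) (nat_lit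 43447693) (nat_lit 14825353) [(nat_lit 557441), (nat_lit 1714002), (nat_lit 3777113), (nat_lit 0)]) (PF.cons PF.nil (PF.cons PF.nil PF.nil))))))))) (PF.cons (PF.cons (PF.leaf (nat_lit 5287293) (nat_lit 1650430) (nat_lit 45025950) (nat_lit 15056647) [(nat_lit 0), (nat_lit 1650430), (nat_lit 3725354), (nat_lit 0)]) (PF.cons (PF.leaf (nat_lit 5601054) (nat_lit 524651) (nat_lit 44518410) (nat_lit 14983643) [(nat_lit 524651),
 (nat_lit 1670122), (nat_lit 3741862), (nat_lit 0)]) (PF.cons (PF.leaf (nat_lit 5927705) (nat_lit 537360) (nat_lit 43995836) (nat_lit 14905626) [(nat_lit 537360), (nat_lit 1688129), (nat_lit 3756369), (nat_lit 0)]) (PF.cons (PF.leaf (nat_lit 6264688) (nat_lit 548724) (nat_lit 43462025) (nat_lit 14822998) [(nat_lit 548724), (nat_lit 1704432), (nat_lit 3768750), (nat_lit 0)]) (PF.cons (PF.leaf (nat_lit 6610203) (nat_lit 558903) (nat_lit 42920019) (nat_lit 14736116) [(nat_lit 558903), (nat_lit 1719054), (nat_lit 3778953), (nat_lit 0)]) (PF.cons (PF.leaf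 (nat_lit 6962687) (nat_lit 568023) (nat_lit 42372317) (nat_lit 14645315) [(nat_lit 568023), (nat_lit 1732042), (nat_lit 3786977), (nat_lit 0)]) (PF.cons PF.nil PF.nil))))))) (PF.cons (PF.cons (PF.leaf (nat_lit 6045197) (nat_lit 1695021) (nat_lit 43446850) (nat_lit 14816046) [(nat_lit 0), (nat_lit 1695021), (nat_lit 3760851), (nat_lit 0)]) (PF.cons (PF.leaf (nat_lit 6374806) (nat_lit 549962) (nat_lit 42925565) (nat_lit 14732520) [(nat_lit 549962), (nat_lit 1709899), (nat_lit 3771065), (nat_lit 0)]) (PF.cons (PF.leaf (nat_lit 6713827) (nat_lit 559900) (nat_lit 42395263) (nat_lit 14644746) [(nat_lit 559900), (nat_lit 1723239), (nat_lit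
 3779284), (nat_lit 0)]) (PF.cons (PF.leaf (nat_lit 7060260) (nat_lit 568766) (nat_lit 41858724) (nat_lit 14553105) [(nat_lit 568766), (nat_lit 1735065), (nat_lit 3785487), (nat_lit 0)]) (PF.cons PF.nil PF.nil))))) (PF.cons (PF.cons (PF.leaf (nat_lit 6817809) (nat_lit 1726611) (nat_lit 41872931) (nat_lit 14551247) [(nat_lit 0), (nat_lit 1726611), (nat_lit 3778188), (nat_lit 0)]) (PF.cons (PF.leaf (nat_lit 7157446) (nat_lit 569098) (nat_lit 41348537) (nat_lit 14459110) [(nat_lit 569098), (nat_lit 1737342), (nat_lit 3782696), (nat_lit 0)]) (PF.cons (PF.leaf (nat_lit 7503796) (nat_lit 576800) (nat_lit 40819557) (nat_lit 14363488) [(nat_lit 576800), (nat_lit 1746704), (nat_lit 3785346), (nat_lit 0)]) (PF.cons PF.nil PF.nil)))) (PF.cons (PF.cons (PF.leaf (nat_lit 7594915) (nat_lit 1747345) (nat_lit 40324645) (nat_lit 14267558) [(nat_lit 0), (nat_lit 1747345), (nat_lit 3779882), (nat_lit 0)]) (PF.cons PF.nil PF.nil)) (PF.cons PF.nil (PF.cons PF.nil PF.nil)))))))) (PF.cons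 (PF.cons (PF.cons (PF.leaf (nat_lit 5104070) (nat_lit 3701433) (nat_lit 44713775) (nat_lit 14992169) [(nat_lit 0), (nat_lit 0), (nat_lit 3701433), (nat_lit 0)]) (PF.cons (PF.leaf (nat_lit 5396551) (nat_lit 506170)
 (nat_lit 44243680) (nat_lit 14923584) [(nat_lit 506170), (nat_lit 0), (nat_lit 3717688), (nat_lit 0)]) (PF.cons (PF.leaf (nat_lit 5705158) (nat_lit 520870) (nat_lit 43752993) (nat_lit 14849511) [(nat_lit 520870), (nat_lit 0), (nat_lit 3732283), (nat_lit 0)]) (PF.cons (PF.leaf (nat_lit 6026518) (nat_lit 533834) (nat_lit 43246844) (nat_lit 14770492) [(nat_lit 533834), (nat_lit 0), (nat_lit 3744986), (nat_lit 0)]) (PF.cons (PF.leaf (nat_lit 6358324) (nat_lit 545334) (nat_lit 42729149) (nat_lit 14686967) [(nat_lit 545334), (nat_lit 0), (nat_lit 3755678), (nat_lit 0)]) (PF.cons (PF.leaf (nat_lit 6698707) (nat_lit 555570) (nat_lit 42203020) (nat_lit 14599325) [(nat_lit 555570), (nat_lit 0), (nat_lit 3764306), (nat_lit 0)]) (PF.cons (PF.leaf (nat_lit 7046116) (nat_lit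 564692) (nat_lit 41670999) (nat_lit 14507917) [(nat_lit 564692), (nat_lit 0), (nat_lit 3770869), (nat_lit 0)]) (PF.cons PF.nil (PF.cons PF.nil PF.nil))))))))) (PF.cons (PF.cons (PF.leaf (nat_lit 5828386) (nat_lit 1673229) (nat_lit 43201988) (nat_lit 14758889) [(nat_lit 0), (nat_lit 1673229), (nat_lit 3737352), (nat_lit 0)]) (PF.cons (PF.leaf (nat_lit 6141321) (nat_lit 534901) (nat_lit 42709717) (nat_lit 14679360) [(nat_lit
 534901), (nat_lit 1689125), (nat_lit 3747854), (nat_lit 0)]) (PF.cons (PF.leaf (nat_lit 6465962) (nat_lit 546236) (nat_lit 42204566) (nat_lit 14595227) [(nat_lit 546236), (nat_lit 1703471), (nat_lit 3756536), (nat_lit 0)]) (PF.cons (PF.leaf (nat_lit 6799835) (nat_lit 556268) (nat_lit 41690122) (nat_lit 14506957) [(nat_lit 556268), (nat_lit 1716274), (nat_lit 3763325), (nat_lit 0)]) (PF.cons (PF.leaf (nat_lit 7141195) (nat_lit 565168) (nat_lit 41169213) (nat_lit 14414951) [(nat_lit 565168), (nat_lit 1727571), (nat_lit 3768200), (nat_lit 0)]) (PF.cons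 PF.nil (PF.cons PF.nil PF.nil))))))) (PF.cons (PF.cons (PF.leaf (nat_lit 6574827) (nat_lit 1707348) (nat_lit 41681104) (nat_lit 14501136) [(nat_lit 0), (nat_lit 1707348), (nat_lit 3755937), (nat_lit 0)]) (PF.cons (PF.leaf (nat_lit 6901212) (nat_lit 556494) (nat_lit 41179652) (nat_lit 14412636) [(nat_lit 556494), (nat_lit 1719000), (nat_lit 3761014), (nat_lit 0)]) (PF.cons (PF.leaf (nat_lit 7236043) (nat_lit 565240) (nat_lit 40670803) (nat_lit 14320364) [(nat_lit 565240), (nat_lit 1729259), (nat_lit 3764321), (nat_lit 0)]) (PF.cons (PF.leaf (nat_lit 7577400) (nat_lit 572964) (nat_lit 40157136) (nat_lit 14224731) [(nat_lit 572964),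
 (nat_lit 1738163), (nat_lit 3765862), (nat_lit 0)]) (PF.cons PF.nil PF.nil))))) (PF.cons (PF.cons (PF.leaf (nat_lit 7331512) (nat_lit 1730287) (nat_lit 40175232) (nat_lit 14224133) [(nat_lit 0), (nat_lit 1730287), (nat_lit 3759292), (nat_lit 0)]) (PF.cons (PF.leaf (nat_lit 7666086) (nat_lit 572500) (nat_lit 39673824) (nat_lit 14128558) [(nat_lit 572500), (nat_lit 1738307), (nat_lit 3759502), (nat_lit 0)]) (PF.cons PF.nil (PF.cons PF.nil PF.nil)))) (PF.cons (PF.cons (PF.leaf (nat_lit 8089534) (nat_lit 1743922) (nat_lit 38701116) (nat_lit 13932783) [(nat_lit 0), (nat_lit 1743922), (nat_lit 3749612), (nat_lit 0)]) (PF.cons PF.nil PF.nil)) (PF.cons PF.nil PF.nil)))))) (PF.cons (PF.cons (PF.cons (PF.leaf (nat_lit 6349310) (nat_lit 3733107) (nat_lit 41463116) (nat_lit 14446375) [(nat_lit 0), (nat_lit 0), (nat_lit 3733107), (nat_lit 0)]) (PF.cons (PF.leaf (nat_lit 6660150) (nat_lit 542018) (nat_lit 40988532) (nat_lit 14362141) [(nat_lit 542018), (nat_lit 0), (nat_lit 3738706),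 (nat_lit 0)]) (PF.cons (PF.leaf (nat_lit 6981701) (nat_lit 552155) (nat_lit 40502848) (nat_lit 14273703) [(nat_lit 552155), (nat_lit 0), (nat_lit 3742650), (nat_lit 0)]) (PF.cons (PF.leaf (nat_lit 7311543) (nat_lit
 561034) (nat_lit 40009433) (nat_lit 14181570) [(nat_lit 561034), (nat_lit 0), (nat_lit 3744901), (nat_lit 0)]) (PF.cons (PF.leaf (nat_lit 7648008) (nat_lit 568831) (nat_lit 39510912) (nat_lit 14086172) [(nat_lit 568831), (nat_lit 0), (nat_lit 3745466), (nat_lit 0)]) PF.nil))))) (PF.cons (PF.cons (PF.leaf (nat_lit 7082402) (nat_lit 1712070) (nat_lit 40005661) (nat_lit 14176900) [(nat_lit 0), (nat_lit 1712070), (nat_lit 3738060), (nat_lit 0)]) (PF.cons (PF.leaf (nat_lit 7404746) (nat_lit 560442) (nat_lit 39525353) (nat_lit 14085079) [(nat_lit 560442), (nat_lit 1721028), (nat_lit 3738969), (nat_lit 0)]) (PF.cons (PF.leaf (nat_lit 7734702) (nat_lit 568157) (nat_lit 39038941) (nat_lit 13989919) [(nat_lit 568157), (nat_lit 1728723), (nat_lit 3738304), (nat_lit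 0)]) (PF.cons PF.nil PF.nil)))) (PF.cons (PF.cons (PF.leaf (nat_lit 7822241) (nat_lit 1727879) (nat_lit 38570012) (nat_lit 13892411) [(nat_lit 0), (nat_lit 1727879), (nat_lit 3730210), (nat_lit 0)]) (PF.cons (PF.leaf (nat_lit 8151268) (nat_lit 573794) (nat_lit 38092018) (nat_lit 13794836) [(nat_lit 573794), (nat_lit 1733644), (nat_lit 3726958), (nat_lit 0)]) PF.nil)) (PF.cons PF.nil (PF.cons PF.nil PF.nil))))) (PF.cons (PF.cons
 (PF.cons (PF.leaf (nat_lit 7568592) (nat_lit 3710093) (nat_lit 38420184) (nat_lit 13848253) [(nat_lit 0), (nat_lit 0), (nat_lit 3710093), (nat_lit 0)]) (PF.cons (PF.leaf (nat_lit 7886268) (nat_lit 562281) (nat_lit 37961567) (nat_lit 13754459) [(nat_lit 562281), (nat_lit 0), (nat_lit 3707626), (nat_lit 0)]) (PF.cons (PF.leaf (nat_lit 8210875) (nat_lit 569101) (nat_lit 37497879) (nat_lit 13657710) [(nat_lit 569101), (nat_lit 0), (nat_lit 3703754), (nat_lit 0)]) (PF.cons PF.nil PF.nil)))) (PF.cons (PF.cons (PF.leaf (nat_lit 8291088) (nat_lit 1720628)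 (nat_lit 37054962) (nat_lit 13560060) [(nat_lit 0), (nat_lit 1720628), (nat_lit 3693290), (nat_lit 0)]) (PF.cons (PF.leaf (nat_lit 8614235) (nat_lit 573377) (nat_lit 36600256) (nat_lit 13461630) [(nat_lit 573377), (nat_lit 1724516), (nat_lit 3687258), (nat_lit 0)]) PF.nil)) (PF.cons PF.nil PF.nil))) (PF.cons (PF.cons (PF.cons (PF.leaf (nat_lit 8739247) (nat_lit 3650407) (nat_lit 35626649) (nat_lit 13230124) [(nat_lit 0), (nat_lit 0), (nat_lit 3650407), (nat_lit 0)]) (PF.cons PF.nil PF.nil)) (PF.cons PF.nil PF.nil)) (PF.cons PF.nil (PF.cons PF.nil PF.nil)))))))) (PF.cons (PF.cons (PF.cons (PF.cons (PF.leaf (nat_lit 4714617) (nat_lit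
 8721199) (nat_lit 43661099) (nat_lit 14726514) [(nat_lit 0), (nat_lit 0), (nat_lit 0), (nat_lit 8721199)]) (PF.cons (PF.leaf (nat_lit 4967597) (nat_lit 456745) (nat_lit 43272582) (nat_lit 14669066) [(nat_lit 456745), (nat_lit 0), (nat_lit 0), (nat_lit 8710418)]) (PF.cons (PF.leaf (nat_lit 5242485) (nat_lit 476155) (nat_lit 42854309) (nat_lit 14605369) [(nat_lit 476155), (nat_lit 0), (nat_lit 0), (nat_lit 8696822)]) (PF.cons (PF.leaf (nat_lit 5534460) (nat_lit 492965) (nat_lit 42413385) (nat_lit 14536185) [(nat_lit 492965), (nat_lit 0), (nat_lit 0), (nat_lit 8680344)]) (PF.cons (PF.leaf (nat_lit 5840372) (nat_lit 507692) (nat_lit 41954996) (nat_lit 14462084) [(nat_lit 507692), (nat_lit 0), (nat_lit 0), (nat_lit 8660961)]) (PF.cons (PF.leaf (nat_lit 6157823) (nat_lit 520690) (nat_lit 41483147) (nat_lit 14383526) [(nat_lit 520690), (nat_lit 0), (nat_lit 0), (nat_lit 8638689)]) (PF.cons (PF.leaf (nat_lit 6484780) (nat_lit 532214) (nat_lit 41001044) (nat_lit 14300906) [(nat_lit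 532214), (nat_lit 0), (nat_lit 0), (nat_lit 8613576)]) (PF.cons (PF.leaf (nat_lit 6819648) (nat_lit 542457) (nat_lit 40511325) (nat_lit 14214581) [(nat_lit 542457), (nat_lit 0), (nat_lit 0), (nat_lit 8585699)])
 (PF.cons (PF.leaf (nat_lit 7160991) (nat_lit 551573) (nat_lit 40016194) (nat_lit 14124878) [(nat_lit 551573), (nat_lit 0), (nat_lit 0), (nat_lit 8555154)]) (PF.cons PF.nil PF.nil)))))))))) (PF.cons (PF.cons (PF.leaf (nat_lit 5374573) (nat_lit 1593631) (nat_lit 42326458) (nat_lit 14517984) [(nat_lit 0), (nat_lit 1593631), (nat_lit 0), (nat_lit 8670738)]) (PF.cons (PF.leaf (nat_lit 5656874) (nat_lit 494808) (nat_lit 41899158) (nat_lit 14448627) [(nat_lit 494808), (nat_lit 1613739), (nat_lit 0), (nat_lit 8652479)]) (PF.cons (PF.leaf (nat_lit 5954918) (nat_lit 509342) (nat_lit 41452579) (nat_lit 14374120) [(nat_lit 509342), (nat_lit 1632089), (nat_lit 0), (nat_lit 8631338)]) (PF.cons (PF.leaf (nat_lit 6265389) (nat_lit 522096) (nat_lit 40991455) (nat_lit 14295051)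 [(nat_lit 522096), (nat_lit 1648648), (nat_lit 0), (nat_lit 8607368)]) (PF.cons (PF.leaf (nat_lit 6586036) (nat_lit 533354) (nat_lit 40519407) (nat_lit 14211893) [(nat_lit 533354), (nat_lit 1663454), (nat_lit 0), (nat_lit 8580640)]) (PF.cons (PF.leaf (nat_lit 6915021) (nat_lit 543326) (nat_lit 40039313) (nat_lit 14125050) [(nat_lit 543326), (nat_lit 1676570), (nat_lit 0), (nat_lit 8551242)]) (PF.cons (PF.leaf (nat_lit
 7250828) (nat_lit 552174) (nat_lit 39553525) (nat_lit 14034879) [(nat_lit 552174), (nat_lit 1688078), (nat_lit 0), (nat_lit 8519281)]) (PF.cons PF.nil (PF.cons PF.nil PF.nil))))))))) (PF.cons (PF.cons (PF.leaf (nat_lit 6071674) (nat_lit 1638633) (nat_lit 40948677) (nat_lit 14283473) [(nat_lit 0), (nat_lit 1638633), (nat_lit 0), (nat_lit 8599395)]) (PF.cons (PF.leaf (nat_lit 6373879) (nat_lit 522892) (nat_lit 40500128) (nat_lit 14204367) [(nat_lit 522892), (nat_lit 1653713), (nat_lit 0), (nat_lit 8573997)]) (PF.cons (PF.leaf (nat_lit 6687536) (nat_lit 533987)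 (nat_lit 40039451) (nat_lit 14121048) [(nat_lit 533987), (nat_lit 1667225), (nat_lit 0), (nat_lit 8545885)]) (PF.cons (PF.leaf (nat_lit 7010180) (nat_lit 543765) (nat_lit 39569949) (nat_lit 14033999) [(nat_lit 543765), (nat_lit 1679196), (nat_lit 0), (nat_lit 8515172)]) (PF.cons (PF.leaf (nat_lit 7340123) (nat_lit 552405) (nat_lit 39094227) (nat_lit 13943625) [(nat_lit 552405), (nat_lit 1689679), (nat_lit 0), (nat_lit 8481978)]) (PF.cons (PF.leaf (nat_lit 7675955) (nat_lit 560044) (nat_lit 38614396) (nat_lit 13850282) [(nat_lit 560044), (nat_lit 1698741), (nat_lit 0), (nat_lit 8446426)]) (PF.cons PF.nil PF.nil))))))) (PF.cons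
 (PF.cons (PF.leaf (nat_lit 6790364) (nat_lit 1670237) (nat_lit 39560476) (nat_lit 14028294) [(nat_lit 0), (nat_lit 1670237), (nat_lit 0), (nat_lit 8509330)]) (PF.cons (PF.leaf (nat_lit 7105724) (nat_lit 543759) (nat_lit 39102745) (nat_lit 13941397) [(nat_lit 543759), (nat_lit 1681128), (nat_lit 0), (nat_lit 8477524)]) (PF.cons (PF.leaf (nat_lit 7429347) (nat_lit 552258) (nat_lit 38637943) (nat_lit 13851113) [(nat_lit 552258), (nat_lit 1690650), (nat_lit 0), (nat_lit 8443288)]) (PF.cons (PF.leaf (nat_lit 7759348) (nat_lit 559738) (nat_lit 38168439) (nat_lit 13757848) [(nat_lit 559738), (nat_lit 1698848), (nat_lit 0), (nat_lit 8406764)]) (PF.cons PF.nil PF.nil))))) (PF.cons (PF.cons (PF.leaf (nat_lit 7519343) (nat_lit 1691028) (nat_lit 38184164) (nat_lit 13757301) [(nat_lit 0), (nat_lit 1691028), (nat_lit 0), (nat_lit 8403233)]) (PF.cons (PF.leaf (nat_lit 7842794) (nat_lit 559097) (nat_lit 37725747) (nat_lit 13664388) [(nat_lit 559097), (nat_lit 1698415), (nat_lit 0),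 (nat_lit 8365915)]) (PF.cons (PF.leaf (nat_lit 8172090) (nat_lit 565559) (nat_lit 37263895) (nat_lit 13568819) [(nat_lit 565559), (nat_lit 1704618), (nat_lit 0), (nat_lit 8326503)]) (PF.cons PF.nil PF.nil)))) (PF.cons
 (PF.cons (PF.leaf (nat_lit 8250196) (nat_lit 1702992) (nat_lit 36835077) (nat_lit 13474863) [(nat_lit 0), (nat_lit 1702992), (nat_lit 0), (nat_lit 8283908)]) (PF.cons PF.nil PF.nil)) (PF.cons PF.nil (PF.cons PF.nil PF.nil)))))))) (PF.cons (PF.cons (PF.cons (PF.leaf (nat_lit 5878861) (nat_lit 3634406) (nat_lit 40689817) (nat_lit 14221450) [(nat_lit 0), (nat_lit 0), (nat_lit 3634406), (nat_lit 8563139)]) (PF.cons (PF.leaf (nat_lit 6161574) (nat_lit 504707) (nat_lit 40273872) (nat_lit 14147533) [(nat_lit 504707), (nat_lit 0), (nat_lit 3643275), (nat_lit 8539424)]) (PF.cons (PF.leaf (nat_lit 6458906) (nat_lit 517883) (nat_lit 39840771) (nat_lit 14068745) [(nat_lit 517883), (nat_lit 0), (nat_lit 3650604), (nat_lit 8512924)]) (PF.cons (PF.leaf (nat_lit 6767585)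 (nat_lit 529328) (nat_lit 39395037) (nat_lit 13985743) [(nat_lit 529328), (nat_lit 0), (nat_lit 3656271), (nat_lit 8483776)]) (PF.cons (PF.leaf (nat_lit 7085424) (nat_lit 539338) (nat_lit 38940076) (nat_lit 13899042) [(nat_lit 539338), (nat_lit 0), (nat_lit 3660229), (nat_lit 8452111)]) (PF.cons (PF.leaf (nat_lit 7410682) (nat_lit 548127) (nat_lit 38478564) (nat_lit 13809073) [(nat_lit 548127), (nat_lit 0), (nat_lit 3662477),
 (nat_lit 8418057)]) (PF.cons (PF.leaf (nat_lit 7741929) (nat_lit 555859) (nat_lit 38012658) (nat_lit 13716207) [(nat_lit 555859), (nat_lit 0), (nat_lit 3663043), (nat_lit 8381746)]) (PF.cons PF.nil (PF.cons PF.nil PF.nil))))))))) (PF.cons (PF.cons (PF.leaf (nat_lit 6568127) (nat_lit 1649115) (nat_lit 39359511) (nat_lit 13975173) [(nat_lit 0), (nat_lit 1649115), (nat_lit 3648844), (nat_lit 8476167)]) (PF.cons (PF.leaf (nat_lit 6868442) (nat_lit 529156) (nat_lit 38926738) (nat_lit 13892656) [(nat_lit 529156), (nat_lit 1661217), (nat_lit 3652962),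 (nat_lit 8446081)]) (PF.cons (PF.leaf (nat_lit 7179238) (nat_lit 539098) (nat_lit 38483443) (nat_lit 13806281) [(nat_lit 539098), (nat_lit 1671888), (nat_lit 3655514), (nat_lit 8413488)]) (PF.cons (PF.leaf (nat_lit 7498155) (nat_lit 547776) (nat_lit 38032727) (nat_lit 13716559) [(nat_lit 547776), (nat_lit 1681167), (nat_lit 3656482), (nat_lit 8378544)]) (PF.cons (PF.leaf (nat_lit 7823573) (nat_lit 555374) (nat_lit 37577008) (nat_lit 13623913) [(nat_lit 555374), (nat_lit 1689113), (nat_lit 3655881), (nat_lit 8341399)]) (PF.cons PF.nil (PF.cons PF.nil PF.nil))))))) (PF.cons (PF.cons (PF.leaf (nat_lit 7274607) (nat_lit 1672741) (nat_lit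
 38028191) (nat_lit 13711986) [(nat_lit 0), (nat_lit 1672741), (nat_lit 3649761), (nat_lit 8373391)]) (PF.cons (PF.leaf (nat_lit 7586246) (nat_lit 547030) (nat_lit 37589318) (nat_lit 13622844) [(nat_lit 547030), (nat_lit 1681153), (nat_lit 3649551), (nat_lit 8337761)]) (PF.cons (PF.leaf (nat_lit 7905383) (nat_lit 554555) (nat_lit 37144530) (nat_lit 13530685) [(nat_lit 554555), (nat_lit 1688326), (nat_lit 3647876), (nat_lit 8299955)]) (PF.cons (PF.leaf (nat_lit 8230208) (nat_lit 561113) (nat_lit 36696024) (nat_lit 13435922) [(nat_lit 561113), (nat_lit 1694313), (nat_lit 3644765), (nat_lit 8260132)]) (PF.cons PF.nil PF.nil))))) (PF.cons (PF.cons (PF.leaf (nat_lit 7988182) (nat_lit 1687056) (nat_lit 36714702) (nat_lit 13436462) [(nat_lit 0), (nat_lit 1687056), (nat_lit 3639063), (nat_lit 8257415)]) (PF.cons (PF.leaf (nat_lit 8306538) (nat_lit 559901) (nat_lit 36277144) (nat_lit 13342396) [(nat_lit 559901), (nat_lit 1692392), (nat_lit 3635056), (nat_lit 8217135)]) (PF.cons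 PF.nil (PF.cons PF.nil PF.nil)))) (PF.cons (PF.cons (PF.leaf (nat_lit 8701436) (nat_lit 1693780) (nat_lit 35431729) (nat_lit 13152560) [(nat_lit 0), (nat_lit 1693780), (nat_lit 3618590), (nat_lit 8130809)]) (PF.cons
 PF.nil PF.nil)) (PF.cons PF.nil PF.nil)))))) (PF.cons (PF.cons (PF.cons (PF.leaf (nat_lit 7046320) (nat_lit 3627927) (nat_lit 37849354) (nat_lit 13662014) [(nat_lit 0), (nat_lit 0), (nat_lit 3627927), (nat_lit 8341588)]) (PF.cons (PF.leaf (nat_lit 7343898) (nat_lit 533101) (nat_lit 37433497) (nat_lit 13577292) [(nat_lit 533101), (nat_lit 0), (nat_lit 3628526), (nat_lit 8307867)]) (PF.cons (PF.leaf (nat_lit 7651150) (nat_lit 542038) (nat_lit 37008452) (nat_lit 13489044) [(nat_lit 542038), (nat_lit 0), (nat_lit 3627700), (nat_lit 8271838)]) (PF.cons (PF.leaf (nat_lit 7965765) (nat_lit 549762) (nat_lit 36577126) (nat_lit 13397798) [(nat_lit 549762), (nat_lit 0), (nat_lit 3625455), (nat_lit 8233689)]) (PF.cons (PF.leaf (nat_lit 8286186) (nat_lit 556459) (nat_lit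 36141758) (nat_lit 13303983) [(nat_lit 556459), (nat_lit 0), (nat_lit 3621822), (nat_lit 8193589)]) PF.nil))))) (PF.cons (PF.cons (PF.leaf (nat_lit 7739514) (nat_lit 1669914) (nat_lit 36576769) (nat_lit 13394311) [(nat_lit 0), (nat_lit 1669914), (nat_lit 3619292), (nat_lit 8229233)]) (PF.cons (PF.leaf (nat_lit 8046911) (nat_lit 548420) (nat_lit 36157151) (nat_lit 13303982) [(nat_lit 548420), (nat_lit 1676253), (nat_lit
 3616137), (nat_lit 8190730)]) (PF.cons (PF.leaf (nat_lit 8361148) (nat_lit 555101) (nat_lit 35732551) (nat_lit 13210966) [(nat_lit 555101), (nat_lit 1681467), (nat_lit 3611673), (nat_lit 8150278)]) (PF.cons PF.nil PF.nil)))) (PF.cons (PF.cons (PF.leaf (nat_lit 8437283) (nat_lit 1678883) (nat_lit 35326022) (nat_lit 13117199) [(nat_lit 0), (nat_lit 1678883), (nat_lit 3600866), (nat_lit 8106090)]) (PF.cons (PF.leaf (nat_lit 8750259) (nat_lit 559192) (nat_lit 34909154) (nat_lit 13022872) [(nat_lit 559192), (nat_lit 1682510), (nat_lit 3594449), (nat_lit 8063675)])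 PF.nil)) (PF.cons PF.nil (PF.cons PF.nil PF.nil))))) (PF.cons (PF.cons (PF.cons (PF.leaf (nat_lit 8185852) (nat_lit 3582325) (nat_lit 35204022) (nat_lit 13078172) [(nat_lit 0), (nat_lit 0), (nat_lit 3582325), (nat_lit 8079641)]) (PF.cons (PF.leaf (nat_lit 8488615) (nat_lit 548274) (nat_lit 34803622) (nat_lit 12987507) [(nat_lit 548274), (nat_lit 0), (nat_lit 3576787), (nat_lit 8039046)]) (PF.cons (PF.leaf (nat_lit 8797676) (nat_lit 554220) (nat_lit 34398991) (nat_lit 12894447) [(nat_lit 554220), (nat_lit 0), (nat_lit 3570076), (nat_lit 7996702)]) (PF.cons PF.nil PF.nil)))) (PF.cons (PF.cons (PF.leaf (nat_lit 8867656) (nat_lit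
 1667380) (nat_lit 34014864) (nat_lit 12801797) [(nat_lit 0), (nat_lit 1667380), (nat_lit 3557747), (nat_lit 7951530)]) (PF.cons PF.nil PF.nil)) (PF.cons PF.nil PF.nil))) (PF.cons (PF.cons (PF.cons (PF.leaf (nat_lit 9280353) (nat_lit 3510961) (nat_lit 32777480) (nat_lit 12491966) [(nat_lit 0), (nat_lit 0), (nat_lit 3510961), (nat_lit 7795520)]) (PF.cons PF.nil PF.nil)) (PF.cons PF.nil PF.nil)) (PF.cons PF.nil PF.nil)))))) (PF.cons (PF.cons (PF.cons (PF.cons (PF.leaf (nat_lit 6571404) (nat_lit 8208123) (nat_lit 37227365) (nat_lit 13465201) [(nat_lit 0), (nat_lit 0), (nat_lit 0), (nat_lit 8208123)]) (PF.cons (PF.leaf (nat_lit 6843984) (nat_lit 498382) (nat_lit 36860364) (nat_lit 13390647) [(nat_lit 498382), (nat_lit 0), (nat_lit 0), (nat_lit 8179709)]) (PF.cons (PF.leaf (nat_lit 7129995) (nat_lit 510325) (nat_lit 36478831) (nat_lit 13311762) [(nat_lit 510325), (nat_lit 0), (nat_lit 0), (nat_lit 8148784)]) (PF.cons (PF.leaf (nat_lit 7426256) (nat_lit 520567) (nat_lit 36086731)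 (nat_lit 13229245) [(nat_lit 520567), (nat_lit 0), (nat_lit 0), (nat_lit 8115566)]) (PF.cons (PF.leaf (nat_lit 7730703) (nat_lit 529419) (nat_lit 35687022) (nat_lit 13143632) [(nat_lit 529419), (nat_lit 0),
 (nat_lit 0), (nat_lit 8080239)]) (PF.cons (PF.leaf (nat_lit 8041702) (nat_lit 537102) (nat_lit 35282007) (nat_lit 13055359) [(nat_lit 537102), (nat_lit 0), (nat_lit 0), (nat_lit 8042966)]) (PF.cons PF.nil PF.nil))))))) (PF.cons (PF.cons (PF.leaf (nat_lit 7227657) (nat_lit 1613139) (nat_lit 36058632) (nat_lit 13219905) [(nat_lit 0), (nat_lit 1613139), (nat_lit 0), (nat_lit 8108567)]) (PF.cons (PF.leaf (nat_lit 7515741) (nat_lit 519566) (nat_lit 35678271) (nat_lit 13138427) [(nat_lit 519566), (nat_lit 1622525), (nat_lit 0), (nat_lit 8075011)]) (PF.cons (PF.leaf (nat_lit 7813359) (nat_lit 528422) (nat_lit 35289087) (nat_lit 13053659) [(nat_lit 528422), (nat_lit 1630590), (nat_lit 0), (nat_lit 8039314)]) (PF.cons (PF.leaf (nat_lit 8118255) (nat_lit 536062) (nat_lit 34893765)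 (nat_lit 12966119) [(nat_lit 536062), (nat_lit 1637394), (nat_lit 0), (nat_lit 8001672)]) (PF.cons (PF.leaf (nat_lit 8428910) (nat_lit 542673) (nat_lit 34494379) (nat_lit 12876221) [(nat_lit 542673), (nat_lit 1643011), (nat_lit 0), (nat_lit 7962253)]) PF.nil))))) (PF.cons (PF.cons (PF.leaf (nat_lit 7897820) (nat_lit 1629491) (nat_lit 34892465) (nat_lit 12962653) [(nat_lit 0), (nat_lit 1629491), (nat_lit 0),
 (nat_lit 7997355)]) (PF.cons (PF.leaf (nat_lit 8195706) (nat_lit 534682) (nat_lit 34507700) (nat_lit 12876126) [(nat_lit 534682), (nat_lit 1635636), (nat_lit 0), (nat_lit 7959515)]) (PF.cons (PF.leaf (nat_lit 8500372) (nat_lit 541281) (nat_lit 34118016) (nat_lit 12787119) [(nat_lit 541281), (nat_lit 1640668), (nat_lit 0), (nat_lit 7919888)]) (PF.cons PF.nil PF.nil)))) (PF.cons (PF.cons (PF.leaf (nat_lit 8573098) (nat_lit 1637963) (nat_lit 33743950) (nat_lit 12697406) [(nat_lit 0), (nat_lit 1637963), (nat_lit 0), (nat_lit 7876782)]) (PF.cons (PF.leaf (nat_lit 8876677)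 (nat_lit 545280) (nat_lit 33360861) (nat_lit 12607341) [(nat_lit 545280), (nat_lit 1641461), (nat_lit 0), (nat_lit 7835472)]) PF.nil)) (PF.cons PF.nil PF.nil))))) (PF.cons (PF.cons (PF.cons (PF.leaf (nat_lit 7669735) (nat_lit 3509675) (nat_lit 34744954) (nat_lit 12917928) [(nat_lit 0), (nat_lit 0), (nat_lit 3509675), (nat_lit 7968127)]) (PF.cons (PF.leaf (nat_lit 7954785) (nat_lit 521398) (nat_lit 34379918) (nat_lit 12835712) [(nat_lit 521398), (nat_lit 0), (nat_lit 3507102), (nat_lit 7932340)]) (PF.cons (PF.leaf (nat_lit 8248709) (nat_lit 529398) (nat_lit 34007090) (nat_lit 12750481) [(nat_lit 529398), (nat_lit 0),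
 (nat_lit 3503286), (nat_lit 7894579)]) (PF.cons (PF.leaf (nat_lit 8549289) (nat_lit 536234) (nat_lit 33628982) (nat_lit 12662754) [(nat_lit 536234), (nat_lit 0), (nat_lit 3498259), (nat_lit 7855055)]) (PF.cons PF.nil PF.nil))))) (PF.cons (PF.cons (PF.leaf (nat_lit 8327141) (nat_lit 1621998) (nat_lit 33631025) (nat_lit 12660269) [(nat_lit 0), (nat_lit 1621998), (nat_lit 3492730), (nat_lit 7851394)]) (PF.cons (PF.leaf (nat_lit 8620812) (nat_lit 534413) (nat_lit 33263239) (nat_lit 12573766) [(nat_lit 534413), (nat_lit 1626511), (nat_lit 3487085), (nat_lit 7811898)]) (PF.cons (PF.leaf (nat_lit 8920713) (nat_lit 540307) (nat_lit 32891233) (nat_lit 12485039) [(nat_lit 540307), (nat_lit 1630013), (nat_lit 3480331), (nat_lit 7770790)]) (PF.cons PF.nil PF.nil)))) (PF.cons (PF.cons (PF.leaf (nat_lit 8987787) (nat_lit 1626372) (nat_lit 32537198) (nat_lit 12396677) [(nat_lit 0), (nat_lit 1626372), (nat_lit 3468118), (nat_lit 7727037)]) (PF.cons PF.nil PF.nil)) PF.nil))) (PF.cons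 (PF.cons (PF.cons (PF.leaf (nat_lit 8740274) (nat_lit 3451207) (nat_lit 32437148) (nat_lit 12362478) [(nat_lit 0), (nat_lit 0), (nat_lit 3451207), (nat_lit 7703385)]) (PF.cons (PF.leaf (nat_lit 9029472) (nat_lit
 533002) (nat_lit 32086053) (nat_lit 12276541) [(nat_lit 533002), (nat_lit 0), (nat_lit 3443848), (nat_lit 7662758)]) (PF.cons PF.nil PF.nil))) (PF.cons (PF.cons (PF.leaf (nat_lit 9386299) (nat_lit 1612453) (nat_lit 31396376) (nat_lit 12101977) [(nat_lit 0), (nat_lit 1612453), (nat_lit 3422302), (nat_lit 7576700)]) PF.nil) PF.nil)) (PF.cons PF.nil (PF.cons PF.nil PF.nil))))) (PF.cons (PF.cons (PF.cons (PF.cons (PF.leaf (nat_lit 8233900) (nat_lit 7606426) (nat_lit 32064569) (nat_lit 12224963) [(nat_lit 0), (nat_lit 0), (nat_lit 0), (nat_lit 7606426)]) (PF.cons (PF.leaf (nat_lit 8507285) (nat_lit 508264) (nat_lit 31742944) (nat_lit 12146711) [(nat_lit 508264), (nat_lit 0), (nat_lit 0), (nat_lit 7570297)]) (PF.cons (PF.leaf (nat_lit 8788889) (nat_lit 515513) (nat_lit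 31414586) (nat_lit 12065840) [(nat_lit 515513), (nat_lit 0), (nat_lit 0), (nat_lit 7532453)]) (PF.cons (PF.leaf (nat_lit 9076605) (nat_lit 521650) (nat_lit 31081679) (nat_lit 11982845) [(nat_lit 521650), (nat_lit 0), (nat_lit 0), (nat_lit 7493112)]) (PF.cons PF.nil PF.nil))))) (PF.cons (PF.cons (PF.leaf (nat_lit 8859226) (nat_lit 1571832) (nat_lit 31085393) (nat_lit 11981184) [(nat_lit 0), (nat_lit 1571832), (nat_lit 0),
 (nat_lit 7490134)]) (PF.cons (PF.leaf (nat_lit 9140326) (nat_lit 519528) (nat_lit 30761543) (nat_lit 11899547) [(nat_lit 519528), (nat_lit 1575050), (nat_lit 0), (nat_lit 7451047)]) (PF.cons PF.nil (PF.cons PF.nil PF.nil)))) (PF.cons (PF.cons (PF.leaf (nat_lit 9486955) (nat_lit 1573087) (nat_lit 30124002) (nat_lit 11733651) [(nat_lit 0), (nat_lit 1573087), (nat_lit 0), (nat_lit 7368327)]) (PF.cons PF.nil PF.nil)) PF.nil))) (PF.cons (PF.cons (PF.cons (PF.leaf (nat_lit 9244339) (nat_lit 3321787) (nat_lit 30041343) (nat_lit 11703781) [(nat_lit 0), (nat_lit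 0), (nat_lit 3321787), (nat_lit 7347299)]) (PF.cons (PF.leaf (nat_lit 9521182) (nat_lit 517315) (nat_lit 29731872) (nat_lit 11623187) [(nat_lit 517315), (nat_lit 0), (nat_lit 3313395), (nat_lit 7307680)]) PF.nil)) (PF.cons PF.nil PF.nil)) (PF.cons PF.nil PF.nil))) (PF.cons (PF.cons (PF.cons (PF.cons (PF.leaf (nat_lit 9707345) (nat_lit 7013935) (nat_lit 27952794) (nat_lit 11100275) [(nat_lit 0), (nat_lit 0), (nat_lit 0), (nat_lit 7013935)]) (PF.cons (PF.leaf (nat_lit 9972915) (nat_lit 501711) (nat_lit 27678505) (nat_lit 11025115) [(nat_lit 501711), (nat_lit 0), (nat_lit 0), (nat_lit 6975869)]) PF.nil)) (PF.cons PF.nil PF.nil))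
 (PF.cons PF.nil PF.nil)) (PF.cons PF.nil (PF.cons PF.nil (PF.cons PF.nil PF.nil))))))))

def p15_27_2_0 : pfC (piC [(nat_lit 36888796), (nat_lit 24534081), (nat_lit 18263511), (nat_lit 12310016)] (nat_lit 6753074)) p15_27_2 (nat_lit 4) (nat_lit 0) (nat_lit 1) = true := by decide +kernel
def p15_27_2_1 : pfC (piC [(nat_lit 36888796), (nat_lit 24534081), (nat_lit 18263511), (nat_lit 12310016)] (nat_lit 6753074)) p15_27_2 (nat_lit 4) (nat_lit 1) (nat_lit 2) = true := by decide +kernel
def p15_27_2_2 : pfC (piC [(nat_lit 36888796), (nat_lit 24534081), (nat_lit 18263511), (nat_lit 12310016)] (nat_lit 6753074)) p15_27_2 (nat_lit 4) (nat_lit 2) (nat_lit 3) = true := by decide +kernel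
def p15_27_2_3 : pfC (piC [(nat_lit 36888796), (nat_lit 24534081), (nat_lit 18263511), (nat_lit 12310016)] (nat_lit 6753074)) p15_27_2 (nat_lit 4) (nat_lit 3) (nat_lit 4) = true := by decide +kernel
def p15_27_2_4 : pfC (piC [(nat_lit 36888796), (nat_lit 24534081), (nat_lit 18263511), (nat_lit 12310016)] (nat_lit 6753074)) p15_27_2 (nat_lit 4) (nat_lit 4) (nat_lit 5) = true := by decide +kernel
def p15_27_2_5 : pfC (piC [(nat_lit 36888796), (nat_lit 24534081), (nat_lit 18263511), (nat_lit 12310016)] (nat_lit 6753074)) p15_27_2 (nat_lit 4) (nat_lit 5) (nat_lit 6) = true := by decide +kernel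
def p15_27_2_6 : pfC (piC [(nat_lit 36888796), (nat_lit 24534081), (nat_lit 18263511), (nat_lit 12310016)] (nat_lit 6753074)) p15_27_2 (nat_lit 4) (nat_lit 6) (nat_lit 7) = true := by decide +kernel
def p15_27_2_7 : pfC (piC [(nat_lit 36888796), (nat_lit 24534081), (nat_lit 18263511), (nat_lit 12310016)] (nat_lit 6753074)) p15_27_2 (nat_lit 4) (nat_lit 7) (nat_lit 8) = true := by decide +kernel
def p15_27_2_8 : pfC (piC [(nat_lit 36888796), (nat_lit 24534081), (nat_lit 18263511), (nat_lit 12310016)] (nat_lit 6753074)) p15_27_2 (nat_lit 4) (nat_lit 8) (nat_lit 9) = true := by decide +kernel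
def p15_27_2_9 : pfC (piC [(nat_lit 36888796), (nat_lit 24534081), (nat_lit 18263511), (nat_lit 12310016)] (nat_lit 6753074)) p15_27_2 (nat_lit 4) (nat_lit 9) (nat_lit 10) = true := by decide +kernel
def p15_27_2_10 : pfC (piC [(nat_lit 36888796), (nat_lit 24534081), (nat_lit 18263511), (nat_lit 12310016)] (nat_lit 6753074)) p15_27_2 (nat_lit 4) (nat_lit 10) (nat_lit 11) = true := by decide +kernel
def p15_27_2_11 : pfC (piC [(nat_lit 36888796), (nat_lit 24534081), (nat_lit 18263511), (nat_lit 12310016)] (nat_lit 6753074)) p15_27_2 (nat_lit 4) (nat_lit 11) (nat_lit 12) = true := by decide +kernel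
def p15_27_2_12 : pfC (piC [(nat_lit 36888796), (nat_lit 24534081), (nat_lit 18263511), (nat_lit 12310016)] (nat_lit 6753074)) p15_27_2 (nat_lit 4) (nat_lit 12) (nat_lit 13) = true := by decide +kernel
def p15_27_2_13 : pfC (piC [(nat_lit 36888796), (nat_lit 24534081), (nat_lit 18263511), (nat_lit 12310016)] (nat_lit 6753074)) p15_27_2 (nat_lit 4) (nat_lit 13) (nat_lit 14) = true := by decide +kernel
def p15_27_2_14 : pfC (piC [(nat_lit 36888796), (nat_lit 24534081), (nat_lit 18263511), (nat_lit 12310016)] (nat_lit 6753074)) p15_27_2 (nat_lit 4) (nat_lit 14) (nat_lit 15) = true := by decide +kernel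
def p15_27_2_15 : pfC (piC [(nat_lit 36888796), (nat_lit 24534081), (nat_lit 18263511), (nat_lit 12310016)] (nat_lit 6753074)) p15_27_2 (nat_lit 4) (nat_lit 15) (nat_lit 16) = true := by decide +kernel
def p15_27_2_16 : pfC (piC [(nat_lit 36888796), (nat_lit 24534081), (nat_lit 18263511), (nat_lit 12310016)] (nat_lit 6753074)) p15_27_2 (nat_lit 4) (nat_lit 16) (nat_lit 17) = true := by decide +kernel
def p15_27_2_17 : pfC (piC [(nat_lit 36888796), (nat_lit 24534081), (nat_lit 18263511), (nat_lit 12310016)] (nat_lit 6753074)) p15_27_2 (nat_lit 4) (nat_lit 17) (nat_lit 18) = true := by decide +kernel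
def p15_27_2_18 : pfC (piC [(nat_lit 36888796), (nat_lit 24534081), (nat_lit 18263511), (nat_lit 12310016)] (nat_lit 6753074)) p15_27_2 (nat_lit 4) (nat_lit 18) (nat_lit 19) = true := by decide +kernel
def p15_27_2_19 : pfC (piC [(nat_lit 36888796), (nat_lit 24534081), (nat_lit 18263511), (nat_lit 12310016)] (nat_lit 6753074)) p15_27_2 (nat_lit 4) (nat_lit 19) (nat_lit 20) = true := by decide +kernel
def p15_27_2_20 : pfC (piC [(nat_lit 36888796), (nat_lit 24534081), (nat_lit 18263511), (nat_lit 12310016)] (nat_lit 6753074)) p15_27_2 (nat_lit 4) (nat_lit 20) (nat_lit 21) = true := by decide +kernel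
def p15_27_2_21 : pfC (piC [(nat_lit 36888796), (nat_lit 24534081), (nat_lit 18263511), (nat_lit 12310016)] (nat_lit 6753074)) p15_27_2 (nat_lit 4) (nat_lit 21) (nat_lit 22) = true := by decide +kernel
def p15_27_2_22 : pfC (piC [(nat_lit 36888796), (nat_lit 24534081), (nat_lit 18263511), (nat_lit 12310016)] (nat_lit 6753074)) p15_27_2 (nat_lit 4) (nat_lit 22) (nat_lit 23) = true := by decide +kernel
def p15_27_2_23 : pfC (piC [(nat_lit 36888796), (nat_lit 24534081), (nat_lit 18263511), (nat_lit 12310016)] (nat_lit 6753074)) p15_27_2 (nat_lit 4) (nat_lit 23) (nat_lit 24) = true := by decide +kernel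
def p15_27_2_24 : pfC (piC [(nat_lit 36888796), (nat_lit 24534081), (nat_lit 18263511), (nat_lit 12310016)] (nat_lit 6753074)) p15_27_2 (nat_lit 4) (nat_lit 24) (nat_lit 25) = true := by decide +kernel
def p15_27_2_25 : pfC (piC [(nat_lit 36888796), (nat_lit 24534081), (nat_lit 18263511), (nat_lit 12310016)] (nat_lit 6753074)) p15_27_2 (nat_lit 4) (nat_lit 25) (nat_lit 26) = true := by decide +kernel
def p15_27_2_26 : pfC (piC [(nat_lit 36888796), (nat_lit 24534081), (nat_lit 18263511), (nat_lit 12310016)] (nat_lit 6753074)) p15_27_2 (nat_lit 4) (nat_lit 26) (nat_lit 27) = true := by decide +kernel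
def p15_27_2_27 : pfC (piC [(nat_lit 36888796), (nat_lit 24534081), (nat_lit 18263511), (nat_lit 12310016)] (nat_lit 6753074)) p15_27_2 (nat_lit 4) (nat_lit 27) (nat_lit 28) = true := by decide +kernel
def p15_27_2_28 : pfC (piC [(nat_lit 36888796), (nat_lit 24534081), (nat_lit 18263511), (nat_lit 12310016)] (nat_lit 6753074)) p15_27_2 (nat_lit 4) (nat_lit 28) (nat_lit 29) = true := by decide +kernel
def p15_27_2_29 : pfC (piC [(nat_lit 36888796), (nat_lit 24534081), (nat_lit 18263511), (nat_lit 12310016)] (nat_lit 6753074)) p15_27_2 (nat_lit 4) (nat_lit 29) (nat_lit 30) = true := by decide +kernel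
def p15_27_2_30 : pfC (piC [(nat_lit 36888796), (nat_lit 24534081), (nat_lit 18263511), (nat_lit 12310016)] (nat_lit 6753074)) p15_27_2 (nat_lit 4) (nat_lit 30) (nat_lit 31) = true := by decide +kernel
def p15_27_2_31 : pfC (piC [(nat_lit 36888796), (nat_lit 24534081), (nat_lit 18263511), (nat_lit 12310016)] (nat_lit 6753074)) p15_27_2 (nat_lit 4) (nat_lit 31) (nat_lit 32) = true := by decide +kernel
def p15_27_2_32 : pfC (piC [(nat_lit 36888796), (nat_lit 24534081), (nat_lit 18263511), (nat_lit 12310016)] (nat_lit 6753074)) p15_27_2 (nat_lit 4) (nat_lit 32) (nat_lit 33) = true := by decide +kernel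
def p15_27_2_33 : pfC (piC [(nat_lit 36888796), (nat_lit 24534081), (nat_lit 18263511), (nat_lit 12310016)] (nat_lit 6753074)) p15_27_2 (nat_lit 4) (nat_lit 33) (nat_lit 34) = true := by decide +kernel
def p15_27_2_34 : pfC (piC [(nat_lit 36888796), (nat_lit 24534081), (nat_lit 18263511), (nat_lit 12310016)] (nat_lit 6753074)) p15_27_2 (nat_lit 4) (nat_lit 34) (nat_lit 35) = true := by decide +kernel
def p15_27_2_35 : pfC (piC [(nat_lit 36888796), (nat_lit 24534081), (nat_lit 18263511), (nat_lit 12310016)] (nat_lit 6753074)) p15_27_2 (nat_lit 4) (nat_lit 35) (nat_lit 36) = true := by decide +kernel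
def p15_27_2_36 : pfC (piC [(nat_lit 36888796), (nat_lit 24534081), (nat_lit 18263511), (nat_lit 12310016)] (nat_lit 6753074)) p15_27_2 (nat_lit 4) (nat_lit 36) (nat_lit 37) = true := by decide +kernel
def p15_27_2_37 : pfC (piC [(nat_lit 36888796), (nat_lit 24534081), (nat_lit 18263511), (nat_lit 12310016)] (nat_lit 6753074)) p15_27_2 (nat_lit 4) (nat_lit 37) (nat_lit 38) = true := by decide +kernel
def p15_27_2_38 : pfC (piC [(nat_lit 36888796), (nat_lit 24534081), (nat_lit 18263511), (nat_lit 12310016)] (nat_lit 6753074)) p15_27_2 (nat_lit 4) (nat_lit 38) (nat_lit 39) = true := by decide +kernel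
def p15_27_2_39 : pfC (piC [(nat_lit 36888796), (nat_lit 24534081), (nat_lit 18263511), (nat_lit 12310016)] (nat_lit 6753074)) p15_27_2 (nat_lit 4) (nat_lit 39) (nat_lit 40) = true := by decide +kernel
def p15_27_2_40 : pfC (piC [(nat_lit 36888796), (nat_lit 24534081), (nat_lit 18263511), (nat_lit 12310016)] (nat_lit 6753074)) p15_27_2 (nat_lit 4) (nat_lit 40) (nat_lit 41) = true := by decide +kernel
def p15_27_2_41 : pfC (piC [(nat_lit 36888796), (nat_lit 24534081), (nat_lit 18263511), (nat_lit 12310016)] (nat_lit 6753074)) p15_27_2 (nat_lit 4) (nat_lit 41) (nat_lit 42) = true := by decide +kernel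
def p15_27_2_42 : pfC (piC [(nat_lit 36888796), (nat_lit 24534081), (nat_lit 18263511), (nat_lit 12310016)] (nat_lit 6753074)) p15_27_2 (nat_lit 4) (nat_lit 42) (nat_lit 43) = true := by decide +kernel
def p15_27_2_43 : pfC (piC [(nat_lit 36888796), (nat_lit 24534081), (nat_lit 18263511), (nat_lit 12310016)] (nat_lit 6753074)) p15_27_2 (nat_lit 4) (nat_lit 43) (nat_lit 44) = true := by decide +kernel
def p15_27_2_44 : pfC (piC [(nat_lit 36888796), (nat_lit 24534081), (nat_lit 18263511), (nat_lit 12310016)] (nat_lit 6753074)) p15_27_2 (nat_lit 4) (nat_lit 44) (nat_lit 45) = true := by decide +kernel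
def p15_27_2_45 : pfC (piC [(nat_lit 36888796), (nat_lit 24534081), (nat_lit 18263511), (nat_lit 12310016)] (nat_lit 6753074)) p15_27_2 (nat_lit 4) (nat_lit 45) (nat_lit 46) = true := by decide +kernel
def p15_27_2_46 : pfC (piC [(nat_lit 36888796), (nat_lit 24534081), (nat_lit 18263511), (nat_lit 12310016)] (nat_lit 6753074)) p15_27_2 (nat_lit 4) (nat_lit 46) (nat_lit 47) = true := by decide +kernel
def p15_27_2_47 : pfC (piC [(nat_lit 36888796), (nat_lit 24534081), (nat_lit 18263511), (nat_lit 12310016)] (nat_lit 6753074)) p15_27_2 (nat_lit 4) (nat_lit 47) (nat_lit 48) = true := by decide +kernel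
def p15_27_2_48 : pfC (piC [(nat_lit 36888796), (nat_lit 24534081), (nat_lit 18263511), (nat_lit 12310016)] (nat_lit 6753074)) p15_27_2 (nat_lit 4) (nat_lit 48) (nat_lit 49) = true := by decide +kernel
def p15_27_2_49 : pfC (piC [(nat_lit 36888796), (nat_lit 24534081), (nat_lit 18263511), (nat_lit 12310016)] (nat_lit 6753074)) p15_27_2 (nat_lit 4) (nat_lit 49) (nat_lit 50) = true := by decide +kernel
def p15_27_2_50 : pfC (piC [(nat_lit 36888796), (nat_lit 24534081), (nat_lit 18263511), (nat_lit 12310016)] (nat_lit 6753074)) p15_27_2 (nat_lit 4) (nat_lit 50) (nat_lit 51) = true := by decide +kernel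
def p15_27_2_51 : pfC (piC [(nat_lit 36888796), (nat_lit 24534081), (nat_lit 18263511), (nat_lit 12310016)] (nat_lit 6753074)) p15_27_2 (nat_lit 4) (nat_lit 51) (nat_lit 52) = true := by decide +kernel
def p15_27_2_52 : pfC (piC [(nat_lit 36888796), (nat_lit 24534081), (nat_lit 18263511), (nat_lit 12310016)] (nat_lit 6753074)) p15_27_2 (nat_lit 4) (nat_lit 52) (nat_lit 53) = true := by decide +kernel
def p15_27_2_53 : pfC (piC [(nat_lit 36888796), (nat_lit 24534081), (nat_lit 18263511), (nat_lit 12310016)] (nat_lit 6753074)) p15_27_2 (nat_lit 4) (nat_lit 53) (nat_lit 54) = true := by decide +kernel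
def p15_27_2_54 : pfC (piC [(nat_lit 36888796), (nat_lit 24534081), (nat_lit 18263511), (nat_lit 12310016)] (nat_lit 6753074)) p15_27_2 (nat_lit 4) (nat_lit 54) (nat_lit 55) = true := by decide +kernel
def p15_27_2_55 : pfC (piC [(nat_lit 36888796), (nat_lit 24534081), (nat_lit 18263511), (nat_lit 12310016)] (nat_lit 6753074)) p15_27_2 (nat_lit 4) (nat_lit 55) (nat_lit 56) = true := by decide +kernel
def p15_27_2_56 : pfC (piC [(nat_lit 36888796), (nat_lit 24534081), (nat_lit 18263511), (nat_lit 12310016)] (nat_lit 6753074)) p15_27_2 (nat_lit 4) (nat_lit 56) (nat_lit 57) = true := by decide +kernel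
def p15_27_2_57 : pfC (piC [(nat_lit 36888796), (nat_lit 24534081), (nat_lit 18263511), (nat_lit 12310016)] (nat_lit 6753074)) p15_27_2 (nat_lit 4) (nat_lit 57) (nat_lit 58) = true := by decide +kernel
def p15_27_2_58 : pfC (piC [(nat_lit 36888796), (nat_lit 24534081), (nat_lit 18263511), (nat_lit 12310016)] (nat_lit 6753074)) p15_27_2 (nat_lit 4) (nat_lit 58) (nat_lit 59) = true := by decide +kernel
def p15_27_2_59 : pfC (piC [(nat_lit 36888796), (nat_lit 24534081), (nat_lit 18263511), (nat_lit 12310016)] (nat_lit 6753074)) p15_27_2 (nat_lit 4) (nat_lit 59) (nat_lit 60) = true := by decide +kernel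
def p15_27_2_60 : pfC (piC [(nat_lit 36888796), (nat_lit 24534081), (nat_lit 18263511), (nat_lit 12310016)] (nat_lit 6753074)) p15_27_2 (nat_lit 4) (nat_lit 60) (nat_lit 61) = true := by decide +kernel
def p15_27_2_61 : pfC (piC [(nat_lit 36888796), (nat_lit 24534081), (nat_lit 18263511), (nat_lit 12310016)] (nat_lit 6753074)) p15_27_2 (nat_lit 4) (nat_lit 61) (nat_lit 62) = true := by decide +kernel
def p15_27_2_62 : pfC (piC [(nat_lit 36888796), (nat_lit 24534081), (nat_lit 18263511), (nat_lit 12310016)] (nat_lit 6753074)) p15_27_2 (nat_lit 4) (nat_lit 62) (nat_lit 63) = true := by decide +kernel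
def p15_27_2_63 : pfC (piC [(nat_lit 36888796), (nat_lit 24534081), (nat_lit 18263511), (nat_lit 12310016)] (nat_lit 6753074)) p15_27_2 (nat_lit 4) (nat_lit 63) (nat_lit 64) = true := by decide +kernel
def p15_27_2_64 : pfC (piC [(nat_lit 36888796), (nat_lit 24534081), (nat_lit 18263511), (nat_lit 12310016)] (nat_lit 6753074)) p15_27_2 (nat_lit 4) (nat_lit 64) (nat_lit 65) = true := by decide +kernel
def p15_27_2_65 : pfC (piC [(nat_lit 36888796), (nat_lit 24534081), (nat_lit 18263511), (nat_lit 12310016)] (nat_lit 6753074)) p15_27_2 (nat_lit 4) (nat_lit 65) (nat_lit 66) = true := by decide +kernel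
def p15_27_2_66 : pfC (piC [(nat_lit 36888796), (nat_lit 24534081), (nat_lit 18263511), (nat_lit 12310016)] (nat_lit 6753074)) p15_27_2 (nat_lit 4) (nat_lit 66) (nat_lit 67) = true := by decide +kernel
def p15_27_2_67 : pfC (piC [(nat_lit 36888796), (nat_lit 24534081), (nat_lit 18263511), (nat_lit 12310016)] (nat_lit 6753074)) p15_27_2 (nat_lit 4) (nat_lit 67) (nat_lit 68) = true := by decide +kernel
def p15_27_2_68 : pfC (piC [(nat_lit 36888796), (nat_lit 24534081), (nat_lit 18263511), (nat_lit 12310016)] (nat_lit 6753074)) p15_27_2 (nat_lit 4) (nat_lit 68) (nat_lit 69) = true := by decide +kernel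
def p15_27_2_69 : pfC (piC [(nat_lit 36888796), (nat_lit 24534081), (nat_lit 18263511), (nat_lit 12310016)] (nat_lit 6753074)) p15_27_2 (nat_lit 4) (nat_lit 69) (nat_lit 70) = true := by decide +kernel
def p15_27_2_70 : pfC (piC [(nat_lit 36888796), (nat_lit 24534081), (nat_lit 18263511), (nat_lit 12310016)] (nat_lit 6753074)) p15_27_2 (nat_lit 4) (nat_lit 70) (nat_lit 71) = true := by decide +kernel
def p15_27_2_71 : pfC (piC [(nat_lit 36888796), (nat_lit 24534081), (nat_lit 18263511), (nat_lit 12310016)] (nat_lit 6753074)) p15_27_2 (nat_lit 4) (nat_lit 71) (nat_lit 72) = true := by decide +kernel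
def p15_27_2_72 : pfC (piC [(nat_lit 36888796), (nat_lit 24534081), (nat_lit 18263511), (nat_lit 12310016)] (nat_lit 6753074)) p15_27_2 (nat_lit 4) (nat_lit 72) (nat_lit 73) = true := by decide +kernel
def p15_27_2_73 : pfC (piC [(nat_lit 36888796), (nat_lit 24534081), (nat_lit 18263511), (nat_lit 12310016)] (nat_lit 6753074)) p15_27_2 (nat_lit 4) (nat_lit 73) (nat_lit 74) = true := by decide +kernel
def p15_27_2_74 : pfC (piC [(nat_lit 36888796), (nat_lit 24534081), (nat_lit 18263511), (nat_lit 12310016)] (nat_lit 6753074)) p15_27_2 (nat_lit 4) (nat_lit 74) (nat_lit 75) = true := by decide +kernel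
def p15_27_2_75 : pfC (piC [(nat_lit 36888796), (nat_lit 24534081), (nat_lit 18263511), (nat_lit 12310016)] (nat_lit 6753074)) p15_27_2 (nat_lit 4) (nat_lit 75) (nat_lit 76) = true := by decide +kernel
def p15_27_2_76 : pfC (piC [(nat_lit 36888796), (nat_lit 24534081), (nat_lit 18263511), (nat_lit 12310016)] (nat_lit 6753074)) p15_27_2 (nat_lit 4) (nat_lit 76) (nat_lit 77) = true := by decide +kernel
def p15_27_2_77 : pfC (piC [(nat_lit 36888796), (nat_lit 24534081), (nat_lit 18263511), (nat_lit 12310016)] (nat_lit 6753074)) p15_27_2 (nat_lit 4) (nat_lit 77) (nat_lit 78) = true := by decide +kernel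
def p15_27_2_78 : pfC (piC [(nat_lit 36888796), (nat_lit 24534081), (nat_lit 18263511), (nat_lit 12310016)] (nat_lit 6753074)) p15_27_2 (nat_lit 4) (nat_lit 78) (nat_lit 79) = true := by decide +kernel
def p15_27_2_79 : pfC (piC [(nat_lit 36888796), (nat_lit 24534081), (nat_lit 18263511), (nat_lit 12310016)] (nat_lit 6753074)) p15_27_2 (nat_lit 4) (nat_lit 79) (nat_lit 80) = true := by decide +kernel
def p15_27_2_80 : pfC (piC [(nat_lit 36888796), (nat_lit 24534081), (nat_lit 18263511), (nat_lit 12310016)] (nat_lit 6753074)) p15_27_2 (nat_lit 4) (nat_lit 80) (nat_lit 81) = true := by decide +kernel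
def p15_27_2_81 : pfC (piC [(nat_lit 36888796), (nat_lit 24534081), (nat_lit 18263511), (nat_lit 12310016)] (nat_lit 6753074)) p15_27_2 (nat_lit 4) (nat_lit 81) (nat_lit 82) = true := by decide +kernel
def p15_27_2_82 : pfC (piC [(nat_lit 36888796), (nat_lit 24534081), (nat_lit 18263511), (nat_lit 12310016)] (nat_lit 6753074)) p15_27_2 (nat_lit 4) (nat_lit 82) (nat_lit 83) = true := by decide +kernel
def p15_27_2_83 : pfC (piC [(nat_lit 36888796), (nat_lit 24534081), (nat_lit 18263511), (nat_lit 12310016)] (nat_lit 6753074)) p15_27_2 (nat_lit 4) (nat_lit 83) (nat_lit 84) = true := by decide +kernel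
def p15_27_2_84 : pfC (piC [(nat_lit 36888796), (nat_lit 24534081), (nat_lit 18263511), (nat_lit 12310016)] (nat_lit 6753074)) p15_27_2 (nat_lit 4) (nat_lit 84) (nat_lit 85) = true := by decide +kernel
def p15_27_2_85 : pfC (piC [(nat_lit 36888796), (nat_lit 24534081), (nat_lit 18263511), (nat_lit 12310016)] (nat_lit 6753074)) p15_27_2 (nat_lit 4) (nat_lit 85) (nat_lit 86) = true := by decide +kernel
def p15_27_2_86 : pfC (piC [(nat_lit 36888796), (nat_lit 24534081), (nat_lit 18263511), (nat_lit 12310016)] (nat_lit 6753074)) p15_27_2 (nat_lit 4) (nat_lit 86) (nat_lit 87) = true := by decide +kernel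
def p15_27_2_87 : pfC (piC [(nat_lit 36888796), (nat_lit 24534081), (nat_lit 18263511), (nat_lit 12310016)] (nat_lit 6753074)) p15_27_2 (nat_lit 4) (nat_lit 87) (nat_lit 88) = true := by decide +kernel
def p15_27_2_88 : pfC (piC [(nat_lit 36888796), (nat_lit 24534081), (nat_lit 18263511), (nat_lit 12310016)] (nat_lit 6753074)) p15_27_2 (nat_lit 4) (nat_lit 88) (nat_lit 89) = true := by decide +kernel
def p15_27_2_89 : pfC (piC [(nat_lit 36888796), (nat_lit 24534081), (nat_lit 18263511), (nat_lit 12310016)] (nat_lit 6753074)) p15_27_2 (nat_lit 4) (nat_lit 89) (nat_lit 90) = true := by decide +kernel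
def p15_27_2_90 : pfC (piC [(nat_lit 36888796), (nat_lit 24534081), (nat_lit 18263511), (nat_lit 12310016)] (nat_lit 6753074)) p15_27_2 (nat_lit 4) (nat_lit 90) (nat_lit 91) = true := by decide +kernel
def p15_27_2_91 : pfC (piC [(nat_lit 36888796), (nat_lit 24534081), (nat_lit 18263511), (nat_lit 12310016)] (nat_lit 6753074)) p15_27_2 (nat_lit 4) (nat_lit 91) (nat_lit 92) = true := by decide +kernel
def p15_27_2_92 : pfC (piC [(nat_lit 36888796), (nat_lit 24534081), (nat_lit 18263511), (nat_lit 12310016)] (nat_lit 6753074)) p15_27_2 (nat_lit 4) (nat_lit 92) (nat_lit 93) = true := by decide +kernel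
def p15_27_2_93 : pfC (piC [(nat_lit 36888796), (nat_lit 24534081), (nat_lit 18263511), (nat_lit 12310016)] (nat_lit 6753074)) p15_27_2 (nat_lit 4) (nat_lit 93) (nat_lit 94) = true := by decide +kernel
def p15_27_2_94 : pfC (piC [(nat_lit 36888796), (nat_lit 24534081), (nat_lit 18263511), (nat_lit 12310016)] (nat_lit 6753074)) p15_27_2 (nat_lit 4) (nat_lit 94) (nat_lit 95) = true := by decide +kernel
def p15_27_2_95 : pfC (piC [(nat_lit 36888796), (nat_lit 24534081), (nat_lit 18263511), (nat_lit 12310016)] (nat_lit 6753074)) p15_27_2 (nat_lit 4) (nat_lit 95) (nat_lit 96) = true := by decide +kernel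
def p15_27_2_96 : pfC (piC [(nat_lit 36888796), (nat_lit 24534081), (nat_lit 18263511), (nat_lit 12310016)] (nat_lit 6753074)) p15_27_2 (nat_lit 4) (nat_lit 96) (nat_lit 97) = true := by decide +kernel
def p15_27_2_97 : pfC (piC [(nat_lit 36888796), (nat_lit 24534081), (nat_lit 18263511), (nat_lit 12310016)] (nat_lit 6753074)) p15_27_2 (nat_lit 4) (nat_lit 97) (nat_lit 98) = true := by decide +kernel
def p15_27_2_98 : pfC (piC [(nat_lit 36888796), (nat_lit 24534081), (nat_lit 18263511), (nat_lit 12310016)] (nat_lit 6753074)) p15_27_2 (nat_lit 4) (nat_lit 98) (nat_lit 99) = true := by decide +kernel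
def p15_27_2_99 : pfC (piC [(nat_lit 36888796), (nat_lit 24534081), (nat_lit 18263511), (nat_lit 12310016)] (nat_lit 6753074)) p15_27_2 (nat_lit 4) (nat_lit 99) (nat_lit 100) = true := by decide +kernel
def p15_27_2_100 : pfC (piC [(nat_lit 36888796), (nat_lit 24534081), (nat_lit 18263511), (nat_lit 12310016)] (nat_lit 6753074)) p15_27_2 (nat_lit 4) (nat_lit 100) (nat_lit 101) = true := by decide +kernel
def p15_27_2_101 : pfC (piC [(nat_lit 36888796), (nat_lit 24534081), (nat_lit 18263511), (nat_lit 12310016)] (nat_lit 6753074)) p15_27_2 (nat_lit 4) (nat_lit 101) (nat_lit 102) = true := by decide +kernel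
def p15_27_2_102 : pfC (piC [(nat_lit 36888796), (nat_lit 24534081), (nat_lit 18263511), (nat_lit 12310016)] (nat_lit 6753074)) p15_27_2 (nat_lit 4) (nat_lit 102) (nat_lit 103) = true := by decide +kernel
def p15_27_2_103 : pfC (piC [(nat_lit 36888796), (nat_lit 24534081), (nat_lit 18263511), (nat_lit 12310016)] (nat_lit 6753074)) p15_27_2 (nat_lit 4) (nat_lit 103) (nat_lit 104) = true := by decide +kernel
def p15_27_2_104 : pfC (piC [(nat_lit 36888796), (nat_lit 24534081), (nat_lit 18263511), (nat_lit 12310016)] (nat_lit 6753074)) p15_27_2 (nat_lit 4) (nat_lit 104) (nat_lit 105) = true := by decide +kernel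
def p15_27_2_105 : pfC (piC [(nat_lit 36888796), (nat_lit 24534081), (nat_lit 18263511), (nat_lit 12310016)] (nat_lit 6753074)) p15_27_2 (nat_lit 4) (nat_lit 105) (nat_lit 106) = true := by decide +kernel
def p15_27_2_106 : pfC (piC [(nat_lit 36888796), (nat_lit 24534081), (nat_lit 18263511), (nat_lit 12310016)] (nat_lit 6753074)) p15_27_2 (nat_lit 4) (nat_lit 106) (nat_lit 107) = true := by decide +kernel
def p15_27_2_107 : pfC (piC [(nat_lit 36888796), (nat_lit 24534081), (nat_lit 18263511), (nat_lit 12310016)] (nat_lit 6753074)) p15_27_2 (nat_lit 4) (nat_lit 107) (nat_lit 108) = true := by decide +kernel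
def p15_27_2_108 : pfC (piC [(nat_lit 36888796), (nat_lit 24534081), (nat_lit 18263511), (nat_lit 12310016)] (nat_lit 6753074)) p15_27_2 (nat_lit 4) (nat_lit 108) (nat_lit 109) = true := by decide +kernel
def p15_27_2_109 : pfC (piC [(nat_lit 36888796), (nat_lit 24534081), (nat_lit 18263511), (nat_lit 12310016)] (nat_lit 6753074)) p15_27_2 (nat_lit 4) (nat_lit 109) (nat_lit 110) = true := by decide +kernel
def p15_27_2_110 : pfC (piC [(nat_lit 36888796), (nat_lit 24534081), (nat_lit 18263511), (nat_lit 12310016)] (nat_lit 6753074)) p15_27_2 (nat_lit 4) (nat_lit 110) (nat_lit 111) = true := by decide +kernel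
def p15_27_2_111 : pfC (piC [(nat_lit 36888796), (nat_lit 24534081), (nat_lit 18263511), (nat_lit 12310016)] (nat_lit 6753074)) p15_27_2 (nat_lit 4) (nat_lit 111) (nat_lit 112) = true := by decide +kernel
def p15_27_2_112 : pfC (piC [(nat_lit 36888796), (nat_lit 24534081), (nat_lit 18263511), (nat_lit 12310016)] (nat_lit 6753074)) p15_27_2 (nat_lit 4) (nat_lit 112) (nat_lit 113) = true := by decide +kernel
def p15_27_2_113 : pfC (piC [(nat_lit 36888796), (nat_lit 24534081), (nat_lit 18263511), (nat_lit 12310016)] (nat_lit 6753074)) p15_27_2 (nat_lit 4) (nat_lit 113) (nat_lit 114) = true := by decide +kernel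
def p15_27_2_114 : pfC (piC [(nat_lit 36888796), (nat_lit 24534081), (nat_lit 18263511), (nat_lit 12310016)] (nat_lit 6753074)) p15_27_2 (nat_lit 4) (nat_lit 114) (nat_lit 115) = true := by decide +kernel
def p15_27_2_115 : pfC (piC [(nat_lit 36888796), (nat_lit 24534081), (nat_lit 18263511), (nat_lit 12310016)] (nat_lit 6753074)) p15_27_2 (nat_lit 4) (nat_lit 115) (nat_lit 116) = true := by decide +kernel
def p15_27_2_116 : pfC (piC [(nat_lit 36888796), (nat_lit 24534081), (nat_lit 18263511), (nat_lit 12310016)] (nat_lit 6753074)) p15_27_2 (nat_lit 4) (nat_lit 116) (nat_lit 117) = true := by decide +kernel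
def p15_27_2_117 : pfC (piC [(nat_lit 36888796), (nat_lit 24534081), (nat_lit 18263511), (nat_lit 12310016)] (nat_lit 6753074)) p15_27_2 (nat_lit 4) (nat_lit 117) (nat_lit 118) = true := by decide +kernel
def p15_27_2_118 : pfC (piC [(nat_lit 36888796), (nat_lit 24534081), (nat_lit 18263511), (nat_lit 12310016)] (nat_lit 6753074)) p15_27_2 (nat_lit 4) (nat_lit 118) (nat_lit 119) = true := by decide +kernel
def p15_27_2_119 : pfC (piC [(nat_lit 36888796), (nat_lit 24534081), (nat_lit 18263511), (nat_lit 12310016)] (nat_lit 6753074)) p15_27_2 (nat_lit 4) (nat_lit 119) (nat_lit 120) = true := by decide +kernel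
def p15_27_2_120 : pfC (piC [(nat_lit 36888796), (nat_lit 24534081), (nat_lit 18263511), (nat_lit 12310016)] (nat_lit 6753074)) p15_27_2 (nat_lit 4) (nat_lit 120) (nat_lit 121) = true := by decide +kernel
def p15_27_2_121 : pfC (piC [(nat_lit 36888796), (nat_lit 24534081), (nat_lit 18263511), (nat_lit 12310016)] (nat_lit 6753074)) p15_27_2 (nat_lit 4) (nat_lit 121) (nat_lit 122) = true := by decide +kernel
def p15_27_2_122 : pfC (piC [(nat_lit 36888796), (nat_lit 24534081), (nat_lit 18263511), (nat_lit 12310016)] (nat_lit 6753074)) p15_27_2 (nat_lit 4) (nat_lit 122) (nat_lit 123) = true := by decide +kernel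
def p15_27_2_123 : pfC (piC [(nat_lit 36888796), (nat_lit 24534081), (nat_lit 18263511), (nat_lit 12310016)] (nat_lit 6753074)) p15_27_2 (nat_lit 4) (nat_lit 123) (nat_lit 124) = true := by decide +kernel
def p15_27_2_124 : pfC (piC [(nat_lit 36888796), (nat_lit 24534081), (nat_lit 18263511), (nat_lit 12310016)] (nat_lit 6753074)) p15_27_2 (nat_lit 4) (nat_lit 124) (nat_lit 125) = true := by decide +kernel
def p15_27_2_125 : pfC (piC [(nat_lit 36888796), (nat_lit 24534081), (nat_lit 18263511), (nat_lit 12310016)] (nat_lit 6753074)) p15_27_2 (nat_lit 4) (nat_lit 125) (nat_lit 126) = true := by decide +kernel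
def p15_27_2_126 : pfC (piC [(nat_lit 36888796), (nat_lit 24534081), (nat_lit 18263511), (nat_lit 12310016)] (nat_lit 6753074)) p15_27_2 (nat_lit 4) (nat_lit 126) (nat_lit 127) = true := by decide +kernel
def p15_27_2_127 : pfC (piC [(nat_lit 36888796), (nat_lit 24534081), (nat_lit 18263511), (nat_lit 12310016)] (nat_lit 6753074)) p15_27_2 (nat_lit 4) (nat_lit 127) (nat_lit 128) = true := by decide +kernel
def p15_27_2_128 : pfC (piC [(nat_lit 36888796), (nat_lit 24534081), (nat_lit 18263511), (nat_lit 12310016)] (nat_lit 6753074)) p15_27_2 (nat_lit 4) (nat_lit 128) (nat_lit 129) = true := by decide +kernel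
def p15_27_2_129 : pfC (piC [(nat_lit 36888796), (nat_lit 24534081), (nat_lit 18263511), (nat_lit 12310016)] (nat_lit 6753074)) p15_27_2 (nat_lit 4) (nat_lit 129) (nat_lit 130) = true := by decide +kernel
def p15_27_2_130 : pfC (piC [(nat_lit 36888796), (nat_lit 24534081), (nat_lit 18263511), (nat_lit 12310016)] (nat_lit 6753074)) p15_27_2 (nat_lit 4) (nat_lit 130) (nat_lit 131) = true := by decide +kernel
def p15_27_2_131 : pfC (piC [(nat_lit 36888796), (nat_lit 24534081), (nat_lit 18263511), (nat_lit 12310016)] (nat_lit 6753074)) p15_27_2 (nat_lit 4) (nat_lit 131) (nat_lit 132) = true := by decide +kernel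
def p15_27_2_132 : pfC (piC [(nat_lit 36888796), (nat_lit 24534081), (nat_lit 18263511), (nat_lit 12310016)] (nat_lit 6753074)) p15_27_2 (nat_lit 4) (nat_lit 132) (nat_lit 133) = true := by decide +kernel
def p15_27_2_133 : pfC (piC [(nat_lit 36888796), (nat_lit 24534081), (nat_lit 18263511), (nat_lit 12310016)] (nat_lit 6753074)) p15_27_2 (nat_lit 4) (nat_lit 133) (nat_lit 134) = true := by decide +kernel
def p15_27_2_134 : pfC (piC [(nat_lit 36888796), (nat_lit 24534081), (nat_lit 18263511), (nat_lit 12310016)] (nat_lit 6753074)) p15_27_2 (nat_lit 4) (nat_lit 134) (nat_lit 135) = true := by decide +kernel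
def p15_27_2_135 : pfC (piC [(nat_lit 36888796), (nat_lit 24534081), (nat_lit 18263511), (nat_lit 12310016)] (nat_lit 6753074)) p15_27_2 (nat_lit 4) (nat_lit 135) (nat_lit 136) = true := by decide +kernel
def p15_27_2_136 : pfC (piC [(nat_lit 36888796), (nat_lit 24534081), (nat_lit 18263511), (nat_lit 12310016)] (nat_lit 6753074)) p15_27_2 (nat_lit 4) (nat_lit 136) (nat_lit 137) = true := by decide +kernel
def p15_27_2_137 : pfC (piC [(nat_lit 36888796), (nat_lit 24534081), (nat_lit 18263511), (nat_lit 12310016)] (nat_lit 6753074)) p15_27_2 (nat_lit 4) (nat_lit 137) (nat_lit 138) = true := by decide +kernel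
def p15_27_2_138 : pfC (piC [(nat_lit 36888796), (nat_lit 24534081), (nat_lit 18263511), (nat_lit 12310016)] (nat_lit 6753074)) p15_27_2 (nat_lit 4) (nat_lit 138) (nat_lit 139) = true := by decide +kernel
def p15_27_2_139 : pfC (piC [(nat_lit 36888796), (nat_lit 24534081), (nat_lit 18263511), (nat_lit 12310016)] (nat_lit 6753074)) p15_27_2 (nat_lit 4) (nat_lit 139) (nat_lit 140) = true := by decide +kernel
def p15_27_2_140 : pfC (piC [(nat_lit 36888796), (nat_lit 24534081), (nat_lit 18263511), (nat_lit 12310016)] (nat_lit 6753074)) p15_27_2 (nat_lit 4) (nat_lit 140) (nat_lit 141) = true := by decide +kernel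
def p15_27_2_141 : pfC (piC [(nat_lit 36888796), (nat_lit 24534081), (nat_lit 18263511), (nat_lit 12310016)] (nat_lit 6753074)) p15_27_2 (nat_lit 4) (nat_lit 141) (nat_lit 142) = true := by decide +kernel
def p15_27_2_142 : pfC (piC [(nat_lit 36888796), (nat_lit 24534081), (nat_lit 18263511), (nat_lit 12310016)] (nat_lit 6753074)) p15_27_2 (nat_lit 4) (nat_lit 142) (nat_lit 143) = true := by decide +kernel
def p15_27_2_143 : pfC (piC [(nat_lit 36888796), (nat_lit 24534081), (nat_lit 18263511), (nat_lit 12310016)] (nat_lit 6753074)) p15_27_2 (nat_lit 4) (nat_lit 143) (nat_lit 144) = true := by decide +kernel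
def p15_27_2_144 : pfC (piC [(nat_lit 36888796), (nat_lit 24534081), (nat_lit 18263511), (nat_lit 12310016)] (nat_lit 6753074)) p15_27_2 (nat_lit 4) (nat_lit 144) (nat_lit 145) = true := by decide +kernel
def p15_27_2_145 : pfC (piC [(nat_lit 36888796), (nat_lit 24534081), (nat_lit 18263511), (nat_lit 12310016)] (nat_lit 6753074)) p15_27_2 (nat_lit 4) (nat_lit 145) (nat_lit 146) = true := by decide +kernel
def p15_27_2_146 : pfC (piC [(nat_lit 36888796), (nat_lit 24534081), (nat_lit 18263511), (nat_lit 12310016)] (nat_lit 6753074)) p15_27_2 (nat_lit 4) (nat_lit 146) (nat_lit 147) = true := by decide +kernel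
def p15_27_2_147 : pfC (piC [(nat_lit 36888796), (nat_lit 24534081), (nat_lit 18263511), (nat_lit 12310016)] (nat_lit 6753074)) p15_27_2 (nat_lit 4) (nat_lit 147) (nat_lit 148) = true := by decide +kernel
def p15_27_2_148 : pfC (piC [(nat_lit 36888796), (nat_lit 24534081), (nat_lit 18263511), (nat_lit 12310016)] (nat_lit 6753074)) p15_27_2 (nat_lit 4) (nat_lit 148) (nat_lit 149) = true := by decide +kernel
def p15_27_2_149 : pfC (piC [(nat_lit 36888796), (nat_lit 24534081), (nat_lit 18263511), (nat_lit 12310016)] (nat_lit 6753074)) p15_27_2 (nat_lit 4) (nat_lit 149) (nat_lit 150) = true := by decide +kernel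
def p15_27_2_150 : pfC (piC [(nat_lit 36888796), (nat_lit 24534081), (nat_lit 18263511), (nat_lit 12310016)] (nat_lit 6753074)) p15_27_2 (nat_lit 4) (nat_lit 150) (nat_lit 151) = true := by decide +kernel
def p15_27_2_151 : pfC (piC [(nat_lit 36888796), (nat_lit 24534081), (nat_lit 18263511), (nat_lit 12310016)] (nat_lit 6753074)) p15_27_2 (nat_lit 4) (nat_lit 151) (nat_lit 152) = true := by decide +kernel
def p15_27_2_152 : pfC (piC [(nat_lit 36888796), (nat_lit 24534081), (nat_lit 18263511), (nat_lit 12310016)] (nat_lit 6753074)) p15_27_2 (nat_lit 4) (nat_lit 152) (nat_lit 153) = true := by decide +kernel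
def p15_27_2_153 : pfC (piC [(nat_lit 36888796), (nat_lit 24534081), (nat_lit 18263511), (nat_lit 12310016)] (nat_lit 6753074)) p15_27_2 (nat_lit 4) (nat_lit 153) (nat_lit 154) = true := by decide +kernel
def p15_27_2_154 : pfC (piC [(nat_lit 36888796), (nat_lit 24534081), (nat_lit 18263511), (nat_lit 12310016)] (nat_lit 6753074)) p15_27_2 (nat_lit 4) (nat_lit 154) (nat_lit 155) = true := by decide +kernel
def p15_27_2_155 : pfC (piC [(nat_lit 36888796), (nat_lit 24534081), (nat_lit 18263511), (nat_lit 12310016)] (nat_lit 6753074)) p15_27_2 (nat_lit 4) (nat_lit 155) (nat_lit 156) = true := by decide +kernel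
def p15_27_2_156 : pfC (piC [(nat_lit 36888796), (nat_lit 24534081), (nat_lit 18263511), (nat_lit 12310016)] (nat_lit 6753074)) p15_27_2 (nat_lit 4) (nat_lit 156) (nat_lit 157) = true := by decide +kernel
def p15_27_2_157 : pfC (piC [(nat_lit 36888796), (nat_lit 24534081), (nat_lit 18263511), (nat_lit 12310016)] (nat_lit 6753074)) p15_27_2 (nat_lit 4) (nat_lit 157) (nat_lit 158) = true := by decide +kernel
def p15_27_2_158 : pfC (piC [(nat_lit 36888796), (nat_lit 24534081), (nat_lit 18263511), (nat_lit 12310016)] (nat_lit 6753074)) p15_27_2 (nat_lit 4) (nat_lit 158) (nat_lit 159) = true := by decide +kernel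
def p15_27_2_159 : pfC (piC [(nat_lit 36888796), (nat_lit 24534081), (nat_lit 18263511), (nat_lit 12310016)] (nat_lit 6753074)) p15_27_2 (nat_lit 4) (nat_lit 159) (nat_lit 160) = true := by decide +kernel
def p15_27_2_160 : pfC (piC [(nat_lit 36888796), (nat_lit 24534081), (nat_lit 18263511), (nat_lit 12310016)] (nat_lit 6753074)) p15_27_2 (nat_lit 4) (nat_lit 160) (nat_lit 161) = true := by decide +kernel
def p15_27_2_161 : pfC (piC [(nat_lit 36888796), (nat_lit 24534081), (nat_lit 18263511), (nat_lit 12310016)] (nat_lit 6753074)) p15_27_2 (nat_lit 4) (nat_lit 161) (nat_lit 162) = true := by decide +kernel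
def p15_27_2_162 : pfC (piC [(nat_lit 36888796), (nat_lit 24534081), (nat_lit 18263511), (nat_lit 12310016)] (nat_lit 6753074)) p15_27_2 (nat_lit 4) (nat_lit 162) (nat_lit 163) = true := by decide +kernel
def p15_27_2_163 : pfC (piC [(nat_lit 36888796), (nat_lit 24534081), (nat_lit 18263511), (nat_lit 12310016)] (nat_lit 6753074)) p15_27_2 (nat_lit 4) (nat_lit 163) (nat_lit 164) = true := by decide +kernel
def p15_27_2_164 : pfC (piC [(nat_lit 36888796), (nat_lit 24534081), (nat_lit 18263511), (nat_lit 12310016)] (nat_lit 6753074)) p15_27_2 (nat_lit 4) (nat_lit 164) (nat_lit 165) = true := by decide +kernel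
def p15_27_2_165 : pfC (piC [(nat_lit 36888796), (nat_lit 24534081), (nat_lit 18263511), (nat_lit 12310016)] (nat_lit 6753074)) p15_27_2 (nat_lit 4) (nat_lit 165) (nat_lit 166) = true := by decide +kernel
def p15_27_2_166 : pfC (piC [(nat_lit 36888796), (nat_lit 24534081), (nat_lit 18263511), (nat_lit 12310016)] (nat_lit 6753074)) p15_27_2 (nat_lit 4) (nat_lit 166) (nat_lit 167) = true := by decide +kernel
def p15_27_2_167 : pfC (piC [(nat_lit 36888796), (nat_lit 24534081), (nat_lit 18263511), (nat_lit 12310016)] (nat_lit 6753074)) p15_27_2 (nat_lit 4) (nat_lit 167) (nat_lit 168) = true := by decide +kernel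
def p15_27_2_168 : pfC (piC [(nat_lit 36888796), (nat_lit 24534081), (nat_lit 18263511), (nat_lit 12310016)] (nat_lit 6753074)) p15_27_2 (nat_lit 4) (nat_lit 168) (nat_lit 169) = true := by decide +kernel
def p15_27_2_169 : pfC (piC [(nat_lit 36888796), (nat_lit 24534081), (nat_lit 18263511), (nat_lit 12310016)] (nat_lit 6753074)) p15_27_2 (nat_lit 4) (nat_lit 169) (nat_lit 170) = true := by decide +kernel
def p15_27_2_170 : pfC (piC [(nat_lit 36888796), (nat_lit 24534081), (nat_lit 18263511), (nat_lit 12310016)] (nat_lit 6753074)) p15_27_2 (nat_lit 4) (nat_lit 170) (nat_lit 171) = true := by decide +kernel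
def p15_27_2_171 : pfC (piC [(nat_lit 36888796), (nat_lit 24534081), (nat_lit 18263511), (nat_lit 12310016)] (nat_lit 6753074)) p15_27_2 (nat_lit 4) (nat_lit 171) (nat_lit 172) = true := by decide +kernel
def p15_27_2_172 : pfC (piC [(nat_lit 36888796), (nat_lit 24534081), (nat_lit 18263511), (nat_lit 12310016)] (nat_lit 6753074)) p15_27_2 (nat_lit 4) (nat_lit 172) (nat_lit 173) = true := by decide +kernel
def p15_27_2_173 : pfC (piC [(nat_lit 36888796), (nat_lit 24534081), (nat_lit 18263511), (nat_lit 12310016)] (nat_lit 6753074)) p15_27_2 (nat_lit 4) (nat_lit 173) (nat_lit 174) = true := by decide +kernel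
def p15_27_2_174 : pfC (piC [(nat_lit 36888796), (nat_lit 24534081), (nat_lit 18263511), (nat_lit 12310016)] (nat_lit 6753074)) p15_27_2 (nat_lit 4) (nat_lit 174) (nat_lit 175) = true := by decide +kernel
def p15_27_2_175 : pfC (piC [(nat_lit 36888796), (nat_lit 24534081), (nat_lit 18263511), (nat_lit 12310016)] (nat_lit 6753074)) p15_27_2 (nat_lit 4) (nat_lit 175) (nat_lit 176) = true := by decide +kernel
def p15_27_2_176 : pfC (piC [(nat_lit 36888796), (nat_lit 24534081), (nat_lit 18263511), (nat_lit 12310016)] (nat_lit 6753074)) p15_27_2 (nat_lit 4) (nat_lit 176) (nat_lit 177) = true := by decide +kernel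
def p15_27_2_177 : pfC (piC [(nat_lit 36888796), (nat_lit 24534081), (nat_lit 18263511), (nat_lit 12310016)] (nat_lit 6753074)) p15_27_2 (nat_lit 4) (nat_lit 177) (nat_lit 178) = true := by decide +kernel
def p15_27_2_178 : pfC (piC [(nat_lit 36888796), (nat_lit 24534081), (nat_lit 18263511), (nat_lit 12310016)] (nat_lit 6753074)) p15_27_2 (nat_lit 4) (nat_lit 178) (nat_lit 179) = true := by decide +kernel
def p15_27_2_179 : pfC (piC [(nat_lit 36888796), (nat_lit 24534081), (nat_lit 18263511), (nat_lit 12310016)] (nat_lit 6753074)) p15_27_2 (nat_lit 4) (nat_lit 179) (nat_lit 180) = true := by decide +kernel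
def p15_27_2_180 : pfC (piC [(nat_lit 36888796), (nat_lit 24534081), (nat_lit 18263511), (nat_lit 12310016)] (nat_lit 6753074)) p15_27_2 (nat_lit 4) (nat_lit 180) (nat_lit 181) = true := by decide +kernel
def p15_27_2_181 : pfC (piC [(nat_lit 36888796), (nat_lit 24534081), (nat_lit 18263511), (nat_lit 12310016)] (nat_lit 6753074)) p15_27_2 (nat_lit 4) (nat_lit 181) (nat_lit 182) = true := by decide +kernel
def p15_27_2_182 : pfC (piC [(nat_lit 36888796), (nat_lit 24534081), (nat_lit 18263511), (nat_lit 12310016)] (nat_lit 6753074)) p15_27_2 (nat_lit 4) (nat_lit 182) (nat_lit 183) = true := by decide +kernel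
def p15_27_2_183 : pfC (piC [(nat_lit 36888796), (nat_lit 24534081), (nat_lit 18263511), (nat_lit 12310016)] (nat_lit 6753074)) p15_27_2 (nat_lit 4) (nat_lit 183) (nat_lit 184) = true := by decide +kernel
def p15_27_2_184 : pfC (piC [(nat_lit 36888796), (nat_lit 24534081), (nat_lit 18263511), (nat_lit 12310016)] (nat_lit 6753074)) p15_27_2 (nat_lit 4) (nat_lit 184) (nat_lit 185) = true := by decide +kernel
def p15_27_2_185 : pfC (piC [(nat_lit 36888796), (nat_lit 24534081), (nat_lit 18263511), (nat_lit 12310016)] (nat_lit 6753074)) p15_27_2 (nat_lit 4) (nat_lit 185) (nat_lit 186) = true := by decide +kernel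
def p15_27_2_186 : pfC (piC [(nat_lit 36888796), (nat_lit 24534081), (nat_lit 18263511), (nat_lit 12310016)] (nat_lit 6753074)) p15_27_2 (nat_lit 4) (nat_lit 186) (nat_lit 187) = true := by decide +kernel
def p15_27_2_187 : pfC (piC [(nat_lit 36888796), (nat_lit 24534081), (nat_lit 18263511), (nat_lit 12310016)] (nat_lit 6753074)) p15_27_2 (nat_lit 4) (nat_lit 187) (nat_lit 188) = true := by decide +kernel
def p15_27_2_188 : pfC (piC [(nat_lit 36888796), (nat_lit 24534081), (nat_lit 18263511), (nat_lit 12310016)] (nat_lit 6753074)) p15_27_2 (nat_lit 4) (nat_lit 188) (nat_lit 189) = true := by decide +kernel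
def p15_27_2_189 : pfC (piC [(nat_lit 36888796), (nat_lit 24534081), (nat_lit 18263511), (nat_lit 12310016)] (nat_lit 6753074)) p15_27_2 (nat_lit 4) (nat_lit 189) (nat_lit 190) = true := by decide +kernel
def p15_27_2_190 : pfC (piC [(nat_lit 36888796), (nat_lit 24534081), (nat_lit 18263511), (nat_lit 12310016)] (nat_lit 6753074)) p15_27_2 (nat_lit 4) (nat_lit 190) (nat_lit 191) = true := by decide +kernel
def p15_27_2_191 : pfC (piC [(nat_lit 36888796), (nat_lit 24534081), (nat_lit 18263511), (nat_lit 12310016)] (nat_lit 6753074)) p15_27_2 (nat_lit 4) (nat_lit 191) (nat_lit 192) = true := by decide +kernel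
def p15_27_2_192 : pfC (piC [(nat_lit 36888796), (nat_lit 24534081), (nat_lit 18263511), (nat_lit 12310016)] (nat_lit 6753074)) p15_27_2 (nat_lit 4) (nat_lit 192) (nat_lit 193) = true := by decide +kernel
def p15_27_2_193 : pfC (piC [(nat_lit 36888796), (nat_lit 24534081), (nat_lit 18263511), (nat_lit 12310016)] (nat_lit 6753074)) p15_27_2 (nat_lit 4) (nat_lit 193) (nat_lit 194) = true := by decide +kernel
def p15_27_2_194 : pfC (piC [(nat_lit 36888796), (nat_lit 24534081), (nat_lit 18263511), (nat_lit 12310016)] (nat_lit 6753074)) p15_27_2 (nat_lit 4) (nat_lit 194) (nat_lit 195) = true := by decide +kernel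
def p15_27_2_195 : pfC (piC [(nat_lit 36888796), (nat_lit 24534081), (nat_lit 18263511), (nat_lit 12310016)] (nat_lit 6753074)) p15_27_2 (nat_lit 4) (nat_lit 195) (nat_lit 196) = true := by decide +kernel
def p15_27_2_196 : pfC (piC [(nat_lit 36888796), (nat_lit 24534081), (nat_lit 18263511), (nat_lit 12310016)] (nat_lit 6753074)) p15_27_2 (nat_lit 4) (nat_lit 196) (nat_lit 197) = true := by decide +kernel
def p15_27_2_197 : pfC (piC [(nat_lit 36888796), (nat_lit 24534081), (nat_lit 18263511), (nat_lit 12310016)] (nat_lit 6753074)) p15_27_2 (nat_lit 4) (nat_lit 197) (nat_lit 198) = true := by decide +kernel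
def p15_27_2_198 : pfC (piC [(nat_lit 36888796), (nat_lit 24534081), (nat_lit 18263511), (nat_lit 12310016)] (nat_lit 6753074)) p15_27_2 (nat_lit 4) (nat_lit 198) (nat_lit 199) = true := by decide +kernel
def p15_27_2_199 : pfC (piC [(nat_lit 36888796), (nat_lit 24534081), (nat_lit 18263511), (nat_lit 12310016)] (nat_lit 6753074)) p15_27_2 (nat_lit 4) (nat_lit 199) (nat_lit 200) = true := by decide +kernel
def p15_27_2_200 : pfC (piC [(nat_lit 36888796), (nat_lit 24534081), (nat_lit 18263511), (nat_lit 12310016)] (nat_lit 6753074)) p15_27_2 (nat_lit 4) (nat_lit 200) (nat_lit 201) = true := by decide +kernel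
def p15_27_2_201 : pfC (piC [(nat_lit 36888796), (nat_lit 24534081), (nat_lit 18263511), (nat_lit 12310016)] (nat_lit 6753074)) p15_27_2 (nat_lit 4) (nat_lit 201) (nat_lit 202) = true := by decide +kernel
def p15_27_2_202 : pfC (piC [(nat_lit 36888796), (nat_lit 24534081), (nat_lit 18263511), (nat_lit 12310016)] (nat_lit 6753074)) p15_27_2 (nat_lit 4) (nat_lit 202) (nat_lit 203) = true := by decide +kernel
def p15_27_2_203 : pfC (piC [(nat_lit 36888796), (nat_lit 24534081), (nat_lit 18263511), (nat_lit 12310016)] (nat_lit 6753074)) p15_27_2 (nat_lit 4) (nat_lit 203) (nat_lit 204) = true := by decide +kernel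
def p15_27_2_204 : pfC (piC [(nat_lit 36888796), (nat_lit 24534081), (nat_lit 18263511), (nat_lit 12310016)] (nat_lit 6753074)) p15_27_2 (nat_lit 4) (nat_lit 204) (nat_lit 205) = true := by decide +kernel
def p15_27_2_205 : pfC (piC [(nat_lit 36888796), (nat_lit 24534081), (nat_lit 18263511), (nat_lit 12310016)] (nat_lit 6753074)) p15_27_2 (nat_lit 4) (nat_lit 205) (nat_lit 206) = true := by decide +kernel
def p15_27_2_206 : pfC (piC [(nat_lit 36888796), (nat_lit 24534081), (nat_lit 18263511), (nat_lit 12310016)] (nat_lit 6753074)) p15_27_2 (nat_lit 4) (nat_lit 206) (nat_lit 207) = true := by decide +kernel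
def p15_27_2_207 : pfC (piC [(nat_lit 36888796), (nat_lit 24534081), (nat_lit 18263511), (nat_lit 12310016)] (nat_lit 6753074)) p15_27_2 (nat_lit 4) (nat_lit 207) (nat_lit 208) = true := by decide +kernel
theorem p15_27_2_T : PfS (PiF n15_27.reverse (nat_lit 6753074)) p15_27_2 (nat_lit 4) [] 0 :=
  pftab_of (los := [(nat_lit 36888796), (nat_lit 24534081), (nat_lit 18263511), (nat_lit 12310016)]) (by decide +kernel) (hi := (nat_lit 208)) (PfP.trans (PfP.trans (PfP.trans (PfP.trans (PfP.trans (PfP.trans (PfP.trans (PfP.trans (PfP.trans (PfP.trans (PfP.trans (PfP.trans (PfP.trans (PfP.trans (PfP.trans (PfP.trans (PfP.trans (PfP.trans (PfP.trans (PfP.trans (PfP.trans (PfP.trans (PfP.trans (PfP.trans (PfP.trans (PfP.trans (PfP.trans (PfP.trans (PfP.trans (PfP.trans (PfP.trans (PfP.trans (PfP.trans (PfP.trans (PfP.trans (PfP.trans (PfP.trans (PfP.trans (PfP.trans (PfP.trans (PfP.trans (PfP.trans (PfP.trans (PfP.trans (PfP.trans (PfP.trans (PfP.trans (PfP.trans (PfP.trans (PfP.trans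 (PfP.trans (PfP.trans (PfP.trans (PfP.trans (PfP.trans (PfP.trans (PfP.trans (PfP.trans (PfP.trans (PfP.trans (PfP.trans (PfP.trans (PfP.trans (PfP.trans (PfP.trans (PfP.trans (PfP.trans (PfP.trans (PfP.trans (PfP.trans (PfP.trans (PfP.trans (PfP.trans (PfP.trans (PfP.trans (PfP.trans (PfP.trans (PfP.trans (PfP.trans (PfP.trans (PfP.trans (PfP.trans (PfP.trans (PfP.trans (PfP.trans (PfP.trans (PfP.trans (PfP.trans (PfP.trans (PfP.trans (PfP.trans (PfP.trans (PfP.trans (PfP.trans (PfP.trans (PfP.trans (PfP.trans (PfP.trans (PfP.trans (PfP.trans (PfP.trans (PfP.trans (PfP.trans (PfP.trans (PfP.trans (PfP.trans (PfP.trans (PfP.trans (PfP.trans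
 (PfP.trans (PfP.trans (PfP.trans (PfP.trans (PfP.trans (PfP.trans (PfP.trans (PfP.trans (PfP.trans (PfP.trans (PfP.trans (PfP.trans (PfP.trans (PfP.trans (PfP.trans (PfP.trans (PfP.trans (PfP.trans (PfP.trans (PfP.trans (PfP.trans (PfP.trans (PfP.trans (PfP.trans (PfP.trans (PfP.trans (PfP.trans (PfP.trans (PfP.trans (PfP.trans (PfP.trans (PfP.trans (PfP.trans (PfP.trans (PfP.trans (PfP.trans (PfP.trans (PfP.trans (PfP.trans (PfP.trans (PfP.trans (PfP.trans (PfP.trans (PfP.trans (PfP.trans (PfP.trans (PfP.trans (PfP.trans (PfP.trans (PfP.trans (PfP.trans (PfP.trans (PfP.trans (PfP.trans (PfP.trans (PfP.trans (PfP.trans (PfP.trans (PfP.trans (PfP.trans (PfP.trans (PfP.trans (PfP.trans (PfP.trans (PfP.trans (PfP.trans (PfP.trans (PfP.trans (PfP.trans (PfP.trans (PfP.trans (PfP.trans (PfP.trans (PfP.trans (PfP.trans (PfP.trans (PfP.trans (PfP.trans (PfP.trans (PfP.trans (PfP.trans (PfP.trans (PfP.trans (PfP.trans (PfP.trans (PfP.trans (PfP.trans (PfP.trans (PfP.trans (PfP.trans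 (PfP.trans (PfP.trans (PfP.trans (PfP.trans (PfP.trans (PfP.trans (PfP.trans (PfP.trans (pfC_sound p15_27_2_0) (pfC_sound p15_27_2_1)) (pfC_sound p15_27_2_2)) (pfC_sound p15_27_2_3)) (pfC_sound p15_27_2_4))
 (pfC_sound p15_27_2_5)) (pfC_sound p15_27_2_6)) (pfC_sound p15_27_2_7)) (pfC_sound p15_27_2_8)) (pfC_sound p15_27_2_9)) (pfC_sound p15_27_2_10)) (pfC_sound p15_27_2_11)) (pfC_sound p15_27_2_12)) (pfC_sound p15_27_2_13)) (pfC_sound p15_27_2_14)) (pfC_sound p15_27_2_15)) (pfC_sound p15_27_2_16)) (pfC_sound p15_27_2_17)) (pfC_sound p15_27_2_18)) (pfC_sound p15_27_2_19)) (pfC_sound p15_27_2_20)) (pfC_sound p15_27_2_21)) (pfC_sound p15_27_2_22)) (pfC_sound p15_27_2_23)) (pfC_sound p15_27_2_24)) (pfC_sound p15_27_2_25)) (pfC_sound p15_27_2_26)) (pfC_sound p15_27_2_27)) (pfC_sound p15_27_2_28)) (pfC_sound p15_27_2_29)) (pfC_sound p15_27_2_30)) (pfC_sound p15_27_2_31)) (pfC_sound p15_27_2_32)) (pfC_sound p15_27_2_33)) (pfC_sound p15_27_2_34)) (pfC_sound p15_27_2_35)) (pfC_sound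 p15_27_2_36)) (pfC_sound p15_27_2_37)) (pfC_sound p15_27_2_38)) (pfC_sound p15_27_2_39)) (pfC_sound p15_27_2_40)) (pfC_sound p15_27_2_41)) (pfC_sound p15_27_2_42)) (pfC_sound p15_27_2_43)) (pfC_sound p15_27_2_44)) (pfC_sound p15_27_2_45)) (pfC_sound p15_27_2_46)) (pfC_sound p15_27_2_47)) (pfC_sound p15_27_2_48)) (pfC_sound p15_27_2_49)) (pfC_sound p15_27_2_50)) (pfC_sound p15_27_2_51)) (pfC_sound p15_27_2_52))
 (pfC_sound p15_27_2_53)) (pfC_sound p15_27_2_54)) (pfC_sound p15_27_2_55)) (pfC_sound p15_27_2_56)) (pfC_sound p15_27_2_57)) (pfC_sound p15_27_2_58)) (pfC_sound p15_27_2_59)) (pfC_sound p15_27_2_60)) (pfC_sound p15_27_2_61)) (pfC_sound p15_27_2_62)) (pfC_sound p15_27_2_63)) (pfC_sound p15_27_2_64)) (pfC_sound p15_27_2_65)) (pfC_sound p15_27_2_66)) (pfC_sound p15_27_2_67)) (pfC_sound p15_27_2_68)) (pfC_sound p15_27_2_69)) (pfC_sound p15_27_2_70)) (pfC_sound p15_27_2_71)) (pfC_sound p15_27_2_72)) (pfC_sound p15_27_2_73)) (pfC_sound p15_27_2_74)) (pfC_sound p15_27_2_75))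 (pfC_sound p15_27_2_76)) (pfC_sound p15_27_2_77)) (pfC_sound p15_27_2_78)) (pfC_sound p15_27_2_79)) (pfC_sound p15_27_2_80)) (pfC_sound p15_27_2_81)) (pfC_sound p15_27_2_82)) (pfC_sound p15_27_2_83)) (pfC_sound p15_27_2_84)) (pfC_sound p15_27_2_85)) (pfC_sound p15_27_2_86)) (pfC_sound p15_27_2_87)) (pfC_sound p15_27_2_88)) (pfC_sound p15_27_2_89)) (pfC_sound p15_27_2_90)) (pfC_sound p15_27_2_91)) (pfC_sound p15_27_2_92)) (pfC_sound p15_27_2_93)) (pfC_sound p15_27_2_94)) (pfC_sound p15_27_2_95)) (pfC_sound p15_27_2_96)) (pfC_sound p15_27_2_97)) (pfC_sound p15_27_2_98)) (pfC_sound p15_27_2_99)) (pfC_sound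
 p15_27_2_100)) (pfC_sound p15_27_2_101)) (pfC_sound p15_27_2_102)) (pfC_sound p15_27_2_103)) (pfC_sound p15_27_2_104)) (pfC_sound p15_27_2_105)) (pfC_sound p15_27_2_106)) (pfC_sound p15_27_2_107)) (pfC_sound p15_27_2_108)) (pfC_sound p15_27_2_109)) (pfC_sound p15_27_2_110)) (pfC_sound p15_27_2_111)) (pfC_sound p15_27_2_112)) (pfC_sound p15_27_2_113)) (pfC_sound p15_27_2_114)) (pfC_sound p15_27_2_115)) (pfC_sound p15_27_2_116)) (pfC_sound p15_27_2_117)) (pfC_sound p15_27_2_118)) (pfC_sound p15_27_2_119)) (pfC_sound p15_27_2_120)) (pfC_sound p15_27_2_121)) (pfC_sound p15_27_2_122)) (pfC_sound p15_27_2_123)) (pfC_sound p15_27_2_124)) (pfC_sound p15_27_2_125)) (pfC_sound p15_27_2_126)) (pfC_sound p15_27_2_127)) (pfC_sound p15_27_2_128)) (pfC_sound p15_27_2_129)) (pfC_sound p15_27_2_130)) (pfC_sound p15_27_2_131)) (pfC_sound p15_27_2_132)) (pfC_sound p15_27_2_133)) (pfC_sound p15_27_2_134)) (pfC_sound p15_27_2_135)) (pfC_sound p15_27_2_136)) (pfC_sound p15_27_2_137)) (pfC_sound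 p15_27_2_138)) (pfC_sound p15_27_2_139)) (pfC_sound p15_27_2_140)) (pfC_sound p15_27_2_141)) (pfC_sound p15_27_2_142)) (pfC_sound p15_27_2_143)) (pfC_sound p15_27_2_144)) (pfC_sound p15_27_2_145)) (pfC_sound
 p15_27_2_146)) (pfC_sound p15_27_2_147)) (pfC_sound p15_27_2_148)) (pfC_sound p15_27_2_149)) (pfC_sound p15_27_2_150)) (pfC_sound p15_27_2_151)) (pfC_sound p15_27_2_152)) (pfC_sound p15_27_2_153)) (pfC_sound p15_27_2_154)) (pfC_sound p15_27_2_155)) (pfC_sound p15_27_2_156)) (pfC_sound p15_27_2_157)) (pfC_sound p15_27_2_158)) (pfC_sound p15_27_2_159)) (pfC_sound p15_27_2_160)) (pfC_sound p15_27_2_161)) (pfC_sound p15_27_2_162)) (pfC_sound p15_27_2_163)) (pfC_sound p15_27_2_164)) (pfC_sound p15_27_2_165)) (pfC_sound p15_27_2_166)) (pfC_sound p15_27_2_167)) (pfC_sound p15_27_2_168)) (pfC_sound p15_27_2_169)) (pfC_sound p15_27_2_170)) (pfC_sound p15_27_2_171)) (pfC_sound p15_27_2_172)) (pfC_sound p15_27_2_173)) (pfC_sound p15_27_2_174)) (pfC_sound p15_27_2_175)) (pfC_sound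 p15_27_2_176)) (pfC_sound p15_27_2_177)) (pfC_sound p15_27_2_178)) (pfC_sound p15_27_2_179)) (pfC_sound p15_27_2_180)) (pfC_sound p15_27_2_181)) (pfC_sound p15_27_2_182)) (pfC_sound p15_27_2_183)) (pfC_sound p15_27_2_184)) (pfC_sound p15_27_2_185)) (pfC_sound p15_27_2_186)) (pfC_sound p15_27_2_187)) (pfC_sound p15_27_2_188)) (pfC_sound p15_27_2_189)) (pfC_sound p15_27_2_190)) (pfC_sound p15_27_2_191)) (pfC_sound
 p15_27_2_192)) (pfC_sound p15_27_2_193)) (pfC_sound p15_27_2_194)) (pfC_sound p15_27_2_195)) (pfC_sound p15_27_2_196)) (pfC_sound p15_27_2_197)) (pfC_sound p15_27_2_198)) (pfC_sound p15_27_2_199)) (pfC_sound p15_27_2_200)) (pfC_sound p15_27_2_201)) (pfC_sound p15_27_2_202)) (pfC_sound p15_27_2_203)) (pfC_sound p15_27_2_204)) (pfC_sound p15_27_2_205)) (pfC_sound p15_27_2_206)) (pfC_sound p15_27_2_207)) (by decide +kernel)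

def z15_27_2 : zOK yB15_27 (nat_lit 2) (nat_lit 600) (nat_lit 750) (nat_lit 6753074) (nat_lit 5058382) = true := by decide +kernel
def g15_27_2 : gOK yB15_27.x P15_27 (nat_lit 1413) (q15_27 :: r15_27) (nat_lit 2) (nat_lit 600) (nat_lit 3) (nat_lit 750) (nat_lit 12712500) (nat_lit 12712500) (nat_lit 12712500) (nat_lit 12712500) [(nat_lit 800), (nat_lit 1600)] = true := by decide +kernel
def v15_27_2 : ivC P15_27 s15_27 w15_27 n15_27 (nat_lit 4) (nat_lit 4760) (nat_lit 2) (nat_lit 600) f168_1_600 f176_1_600 (nat_lit 3) (nat_lit 750) f168_1_750 f176_1_750 (nat_lit 6753074) (nat_lit 5058382) p15_27_2 = true := by decide +kernel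
def p15_27_3 : PF := (PF.cons (PF.cons (PF.cons (PF.cons (PF.leaf (nat_lit 2958945) (nat_lit 18708019) (nat_lit 48400793) (nat_lit 18708019) [(nat_lit 0), (nat_lit 0), (nat_lit 0), (nat_lit 0)]) (PF.cons (PF.leaf (nat_lit 3150253) (nat_lit 350813) (nat_lit 48096920) (nat_lit 18661078) [(nat_lit 350813), (nat_lit 0), (nat_lit 0), (nat_lit 0)]) (PF.cons (PF.leaf (nat_lit 3375081) (nat_lit 380496) (nat_lit 47743051) (nat_lit 18604767) [(nat_lit 380496), (nat_lit 0), (nat_lit 0), (nat_lit 0)]) (PF.cons (PF.leaf (nat_lit 3626433) (nat_lit 406470) (nat_lit 47349312) (nat_lit 18540088) [(nat_lit 406470), (nat_lit 0), (nat_lit 0), (nat_lit 0)]) (PF.cons (PF.leaf (nat_lit 3900064) (nat_lit 429533) (nat_lit 46922969) (nat_lit 18467710) [(nat_lit 429533), (nat_lit 0), (nat_lit 0), (nat_lit 0)]) (PF.cons (PF.leaf (nat_lit 4192640) (nat_lit 450200) (nat_lit 46469666) (nat_lit 18388142) [(nat_lit 450200), (nat_lit 0), (nat_lit 0), (nat_lit 0)]) (PF.cons (PF.leaf (nat_lit 4501530)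 (nat_lit 468831) (nat_lit 45994005) (nat_lit 18301817) [(nat_lit 468831), (nat_lit 0), (nat_lit 0), (nat_lit 0)]) (PF.cons (PF.leaf (nat_lit 4824408) (nat_lit 485689) (nat_lit 45499854) (nat_lit 18209130) [(nat_lit 485689), (nat_lit 0),
 (nat_lit 0), (nat_lit 0)]) (PF.cons (PF.leaf (nat_lit 5159324) (nat_lit 500977) (nat_lit 44990532) (nat_lit 18110457) [(nat_lit 500977), (nat_lit 0), (nat_lit 0), (nat_lit 0)]) (PF.cons (PF.leaf (nat_lit 5504556) (nat_lit 514857) (nat_lit 44468926) (nat_lit 18006169) [(nat_lit 514857), (nat_lit 0), (nat_lit 0), (nat_lit 0)]) (PF.cons (PF.leaf (nat_lit 5858598) (nat_lit 527461) (nat_lit 43937572) (nat_lit 17896630) [(nat_lit 527461), (nat_lit 0), (nat_lit 0), (nat_lit 0)]) (PF.cons PF.nil PF.nil)))))))))))) (PF.cons (PF.cons (PF.leaf (nat_lit 3536195) (nat_lit 1413393) (nat_lit 47186727) (nat_lit 18508691) [(nat_lit 0), (nat_lit 1413393), (nat_lit 0), (nat_lit 0)]) (PF.cons (PF.leaf (nat_lit 3777975) (nat_lit 414579) (nat_lit 46802036)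 (nat_lit 18442608) [(nat_lit 414579), (nat_lit 1449588), (nat_lit 0), (nat_lit 0)]) (PF.cons (PF.leaf (nat_lit 4044323) (nat_lit 436893) (nat_lit 46382577) (nat_lit 18368370) [(nat_lit 436893), (nat_lit 1484077), (nat_lit 0), (nat_lit 0)]) (PF.cons (PF.leaf (nat_lit 4330593) (nat_lit 456813) (nat_lit 45935227) (nat_lit 18286736) [(nat_lit 456813), (nat_lit 1516407), (nat_lit 0), (nat_lit 0)]) (PF.cons (PF.leaf (nat_lit 4633713) (nat_lit 474729)
 (nat_lit 45465209) (nat_lit 18198284) [(nat_lit 474729), (nat_lit 1546402), (nat_lit 0), (nat_lit 0)]) (PF.cons (PF.leaf (nat_lit 4951188) (nat_lit 490913) (nat_lit 44976719) (nat_lit 18103497) [(nat_lit 490913), (nat_lit 1574027), (nat_lit 0), (nat_lit 0)]) (PF.cons (PF.leaf (nat_lit 5280927) (nat_lit 505572) (nat_lit 44473248) (nat_lit 18002813) [(nat_lit 505572), (nat_lit 1599313), (nat_lit 0), (nat_lit 0)]) (PF.cons (PF.leaf (nat_lit 5621110) (nat_lit 518866) (nat_lit 43957769) (nat_lit 17896641) [(nat_lit 518866), (nat_lit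 1622334), (nat_lit 0), (nat_lit 0)]) (PF.cons (PF.leaf (nat_lit 5970145) (nat_lit 530925) (nat_lit 43432852) (nat_lit 17785374) [(nat_lit 530925), (nat_lit 1643178), (nat_lit 0), (nat_lit 0)]) (PF.cons PF.nil PF.nil)))))))))) (PF.cons (PF.cons (PF.leaf (nat_lit 4191883) (nat_lit 1506799) (nat_lit 45831822) (nat_lit 18263392) [(nat_lit 0), (nat_lit 1506799), (nat_lit 0), (nat_lit 0)]) (PF.cons (PF.leaf (nat_lit 4469812) (nat_lit 462281) (nat_lit 45394170) (nat_lit 18180537) [(nat_lit 462281), (nat_lit 1535911), (nat_lit 0), (nat_lit 0)]) (PF.cons (PF.leaf (nat_lit 4766127) (nat_lit 479681) (nat_lit 44932505) (nat_lit 18090622) [(nat_lit 479681), (nat_lit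
 1563160), (nat_lit 0), (nat_lit 0)]) (PF.cons (PF.leaf (nat_lit 5077467) (nat_lit 495338) (nat_lit 44451720) (nat_lit 17994287) [(nat_lit 495338), (nat_lit 1588394), (nat_lit 0), (nat_lit 0)]) (PF.cons (PF.leaf (nat_lit 5401486) (nat_lit 509480) (nat_lit 43955688) (nat_lit 17892064) [(nat_lit 509480), (nat_lit 1611569), (nat_lit 0), (nat_lit 0)]) (PF.cons (PF.leaf (nat_lit 5736221) (nat_lit 522276) (nat_lit 43447593) (nat_lit 17784422) [(nat_lit 522276), (nat_lit 1632706), (nat_lit 0), (nat_lit 0)]) (PF.cons (PF.leaf (nat_lit 6080017) (nat_lit 533862) (nat_lit 42930123) (nat_lit 17671796) [(nat_lit 533862), (nat_lit 1651857), (nat_lit 0), (nat_lit 0)]) (PF.cons (PF.leaf (nat_lit 6431407) (nat_lit 544349) (nat_lit 42405580) (nat_lit 17554593) [(nat_lit 544349), (nat_lit 1669095), (nat_lit 0), (nat_lit 0)]) (PF.cons PF.nil PF.nil))))))))) (PF.cons (PF.cons (PF.leaf (nat_lit 4900317) (nat_lit 1578330) (nat_lit 44395126) (nat_lit 17978694) [(nat_lit 0), (nat_lit 1578330),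 (nat_lit 0), (nat_lit 0)]) (PF.cons (PF.leaf (nat_lit 5204103) (nat_lit 498966) (nat_lit 43924433) (nat_lit 17881458) [(nat_lit 498966), (nat_lit 1601318), (nat_lit 0), (nat_lit 0)]) (PF.cons (PF.leaf (nat_lit
 5521689) (nat_lit 512708) (nat_lit 43437617) (nat_lit 17778226) [(nat_lit 512708), (nat_lit 1622517), (nat_lit 0), (nat_lit 0)]) (PF.cons (PF.leaf (nat_lit 5850487) (nat_lit 525099) (nat_lit 42938270) (nat_lit 17669565) [(nat_lit 525099), (nat_lit 1641892), (nat_lit 0), (nat_lit 0)]) (PF.cons (PF.leaf (nat_lit 6188664) (nat_lit 536285) (nat_lit 42429315) (nat_lit 17555970) [(nat_lit 536285), (nat_lit 1659461), (nat_lit 0), (nat_lit 0)]) (PF.cons (PF.leaf (nat_lit 6534663) (nat_lit 546385) (nat_lit 41913189) (nat_lit 17437888) [(nat_lit 546385), (nat_lit 1675268), (nat_lit 0), (nat_lit 0)]) (PF.cons PF.nil PF.nil))))))) (PF.cons (PF.cons (PF.leaf (nat_lit 5642725) (nat_lit 1632267) (nat_lit 42918500) (nat_lit 17661241) [(nat_lit 0), (nat_lit 1632267), (nat_lit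 0), (nat_lit 0)]) (PF.cons (PF.leaf (nat_lit 5964555) (nat_lit 527333) (nat_lit 42429469) (nat_lit 17552069) [(nat_lit 527333), (nat_lit 1649985), (nat_lit 0), (nat_lit 0)]) (PF.cons (PF.leaf (nat_lit 6296618) (nat_lit 538198) (nat_lit 41930214) (nat_lit 17437930) [(nat_lit 538198), (nat_lit 1666067), (nat_lit 0), (nat_lit 0)]) (PF.cons (PF.leaf (nat_lit 6636879) (nat_lit 547974) (nat_lit 41423422) (nat_lit 17319336)
 [(nat_lit 547974), (nat_lit 1680532), (nat_lit 0), (nat_lit 0)]) (PF.cons (PF.leaf (nat_lit 6983891) (nat_lit 556768) (nat_lit 40911312) (nat_lit 17196740) [(nat_lit 556768), (nat_lit 1693421), (nat_lit 0), (nat_lit 0)]) PF.nil))))) (PF.cons (PF.cons (PF.leaf (nat_lit 6404809) (nat_lit 1671746) (nat_lit 41432423) (nat_lit 17317658) [(nat_lit 0), (nat_lit 1671746), (nat_lit 0), (nat_lit 0)]) (PF.cons (PF.leaf (nat_lit 6738577) (nat_lit 549116) (nat_lit 40936005) (nat_lit 17198952) [(nat_lit 549116), (nat_lit 1684947), (nat_lit 0), (nat_lit 0)]) (PF.cons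 (PF.leaf (nat_lit 7079785) (nat_lit 557646) (nat_lit 40433801) (nat_lit 17076254) [(nat_lit 557646), (nat_lit 1696692), (nat_lit 0), (nat_lit 0)]) (PF.cons PF.nil PF.nil)))) (PF.cons (PF.cons (PF.leaf (nat_lit 7175549) (nat_lit 1699236) (nat_lit 39959116) (nat_lit 16954277) [(nat_lit 0), (nat_lit 1699236), (nat_lit 0), (nat_lit 0)]) (PF.cons (PF.leaf (nat_lit 7516464) (nat_lit 565554) (nat_lit 39463437) (nat_lit 16828304) [(nat_lit 565554), (nat_lit 1708586), (nat_lit 0), (nat_lit 0)]) PF.nil)) (PF.cons PF.nil (PF.cons PF.nil PF.nil))))))))) (PF.cons (PF.cons (PF.cons (PF.leaf (nat_lit 4069791) (nat_lit 3504760) (nat_lit 45434690)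
 (nat_lit 18169362) [(nat_lit 0), (nat_lit 0), (nat_lit 3504760), (nat_lit 0)]) (PF.cons (PF.leaf (nat_lit 4319521) (nat_lit 438441) (nat_lit 45044418) (nat_lit 18094053) [(nat_lit 438441), (nat_lit 0), (nat_lit 3531899), (nat_lit 0)]) (PF.cons (PF.leaf (nat_lit 4592279) (nat_lit 458859) (nat_lit 44622403) (nat_lit 18010564) [(nat_lit 458859), (nat_lit 0), (nat_lit 3558126), (nat_lit 0)]) (PF.cons (PF.leaf (nat_lit 4883349) (nat_lit 476840) (nat_lit 44175642) (nat_lit 17919893) [(nat_lit 476840), (nat_lit 0), (nat_lit 3582756), (nat_lit 0)]) (PF.cons (PF.leaf (nat_lit 5189647) (nat_lit 492834) (nat_lit 43709307) (nat_lit 17822784) [(nat_lit 492834), (nat_lit 0), (nat_lit 3605383), (nat_lit 0)]) (PF.cons (PF.leaf (nat_lit 5508719) (nat_lit 507150) (nat_lit 43227451) (nat_lit 17719840) [(nat_lit 507150), (nat_lit 0), (nat_lit 3625770), (nat_lit 0)]) (PF.cons (PF.leaf (nat_lit 5838586) (nat_lit 520010) (nat_lit 42733372) (nat_lit 17611580) [(nat_lit 520010), (nat_lit 0),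 (nat_lit 3643796), (nat_lit 0)]) (PF.cons (PF.leaf (nat_lit 6177493) (nat_lit 531586) (nat_lit 42229824) (nat_lit 17498472) [(nat_lit 531586), (nat_lit 0), (nat_lit 3659411), (nat_lit 0)]) (PF.cons (PF.leaf (nat_lit
 6524011) (nat_lit 542012) (nat_lit 41719147) (nat_lit 17380947) [(nat_lit 542012), (nat_lit 0), (nat_lit 3672619), (nat_lit 0)]) (PF.cons PF.nil PF.nil)))))))))) (PF.cons (PF.cons (PF.leaf (nat_lit 4732839) (nat_lit 1553007) (nat_lit 44082410) (nat_lit 17896718) [(nat_lit 0), (nat_lit 1553007), (nat_lit 3576676), (nat_lit 0)]) (PF.cons (PF.leaf (nat_lit 5014851) (nat_lit 480300) (nat_lit 43647710) (nat_lit 17805813) [(nat_lit 480300), (nat_lit 1577040), (nat_lit 3597947), (nat_lit 0)]) (PF.cons (PF.leaf (nat_lit 5313779) (nat_lit 495988) (nat_lit 43191768) (nat_lit 17708165) [(nat_lit 495988), (nat_lit 1599349), (nat_lit 3617553), (nat_lit 0)]) (PF.cons (PF.leaf (nat_lit 5626304) (nat_lit 509954) (nat_lit 42719369) (nat_lit 17604544) [(nat_lit 509954), (nat_lit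 1619834), (nat_lit 3635201), (nat_lit 0)]) (PF.cons (PF.leaf (nat_lit 5950126) (nat_lit 522450) (nat_lit 42234225) (nat_lit 17495571) [(nat_lit 522450), (nat_lit 1638484), (nat_lit 3650728), (nat_lit 0)]) (PF.cons (PF.leaf (nat_lit 6283394) (nat_lit 533663) (nat_lit 41739327) (nat_lit 17381779) [(nat_lit 533663), (nat_lit 1655331), (nat_lit 3664057), (nat_lit 0)]) (PF.cons (PF.leaf (nat_lit 6624511) (nat_lit 543735)
 (nat_lit 41237157) (nat_lit 17263638) [(nat_lit 543735), (nat_lit 1670432), (nat_lit 3675170), (nat_lit 0)]) (PF.cons PF.nil (PF.cons PF.nil PF.nil))))))))) (PF.cons (PF.cons (PF.leaf (nat_lit 5439966) (nat_lit 1609943) (nat_lit 42671292) (nat_lit 17589994) [(nat_lit 0), (nat_lit 1609943), (nat_lit 3627638), (nat_lit 0)]) (PF.cons (PF.leaf (nat_lit 5744557) (nat_lit 512073) (nat_lit 42210433) (nat_lit 17486318) [(nat_lit 512073), (nat_lit 1628635), (nat_lit 3642716), (nat_lit 0)]) (PF.cons (PF.leaf (nat_lit 6061657) (nat_lit 524311) (nat_lit 41735742) (nat_lit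 17377132) [(nat_lit 524311), (nat_lit 1645702), (nat_lit 3655908), (nat_lit 0)]) (PF.cons (PF.leaf (nat_lit 6388767) (nat_lit 535242) (nat_lit 41250638) (nat_lit 17263069) [(nat_lit 535242), (nat_lit 1661136), (nat_lit 3667105), (nat_lit 0)]) (PF.cons (PF.leaf (nat_lit 6724133) (nat_lit 545024) (nat_lit 40757851) (nat_lit 17144665) [(nat_lit 545024), (nat_lit 1674966), (nat_lit 3676266), (nat_lit 0)]) (PF.cons (PF.leaf (nat_lit 7066282) (nat_lit 553783) (nat_lit 40259627) (nat_lit 17022393) [(nat_lit 553783), (nat_lit 1687240), (nat_lit 3683395), (nat_lit 0)]) (PF.cons PF.nil PF.nil))))))) (PF.cons (PF.cons (PF.leaf (nat_lit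
 6174275) (nat_lit 1651969) (nat_lit 41237292) (nat_lit 17256169) [(nat_lit 0), (nat_lit 1651969), (nat_lit 3659444), (nat_lit 0)]) (PF.cons (PF.leaf (nat_lit 6494240) (nat_lit 536312) (nat_lit 40763333) (nat_lit 17142308) [(nat_lit 536312), (nat_lit 1666068), (nat_lit 3668650), (nat_lit 0)]) (PF.cons (PF.leaf (nat_lit 6823374) (nat_lit 545875) (nat_lit 40280935) (nat_lit 17024031) [(nat_lit 545875), (nat_lit 1678700), (nat_lit 3675992), (nat_lit 0)]) (PF.cons (PF.leaf (nat_lit 7159732) (nat_lit 554402) (nat_lit 39792597) (nat_lit 16901873) [(nat_lit 554402), (nat_lit 1689892), (nat_lit 3681456), (nat_lit 0)]) (PF.cons PF.nil PF.nil))))) (PF.cons (PF.cons (PF.leaf (nat_lit 6923126) (nat_lit 1681688) (nat_lit 39805946) (nat_lit 16901688) [(nat_lit 0), (nat_lit 1681688), (nat_lit 3674424), (nat_lit 0)]) (PF.cons (PF.leaf (nat_lit 7252939) (nat_lit 554634) (nat_lit 39328386) (nat_lit 16780009) [(nat_lit 554634), (nat_lit 1691860), (nat_lit 3678339), (nat_lit 0)]) (PF.cons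 (PF.leaf (nat_lit 7589343) (nat_lit 562051) (nat_lit 38846357) (nat_lit 16654885) [(nat_lit 562051), (nat_lit 1700735), (nat_lit 3680525), (nat_lit 0)]) (PF.cons PF.nil PF.nil)))) (PF.cons (PF.cons (PF.leaf (nat_lit
 7676899) (nat_lit 1701191) (nat_lit 38395477) (nat_lit 16532403) [(nat_lit 0), (nat_lit 1701191), (nat_lit 3674976), (nat_lit 0)]) (PF.cons PF.nil PF.nil)) (PF.cons PF.nil (PF.cons PF.nil PF.nil)))))))) (PF.cons (PF.cons (PF.cons (PF.leaf (nat_lit 5259288) (nat_lit 3604046) (nat_lit 42389917) (nat_lit 17510801) [(nat_lit 0), (nat_lit 0), (nat_lit 3604046), (nat_lit 0)]) (PF.cons (PF.leaf (nat_lit 5543356) (nat_lit 494007) (nat_lit 41962908) (nat_lit 17413876) [(nat_lit 494007), (nat_lit 0), (nat_lit 3619010), (nat_lit 0)]) (PF.cons (PF.leaf (nat_lit 5843069) (nat_lit 508208) (nat_lit 41517027) (nat_lit 17310576) [(nat_lit 508208), (nat_lit 0), (nat_lit 3632395), (nat_lit 0)]) (PF.cons (PF.leaf (nat_lit 6155141) (nat_lit 520716) (nat_lit 41056905) (nat_lit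 17201765) [(nat_lit 520716), (nat_lit 0), (nat_lit 3643995), (nat_lit 0)]) (PF.cons (PF.leaf (nat_lit 6477340) (nat_lit 531801) (nat_lit 40586070) (nat_lit 17088127) [(nat_lit 531801), (nat_lit 0), (nat_lit 3653704), (nat_lit 0)]) (PF.cons (PF.leaf (nat_lit 6807895) (nat_lit 541660) (nat_lit 40107320) (nat_lit 16970228) [(nat_lit 541660), (nat_lit 0), (nat_lit 3661479), (nat_lit 0)]) (PF.cons (PF.leaf (nat_lit 7145286) (nat_lit
 550442) (nat_lit 39622943) (nat_lit 16848561) [(nat_lit 550442), (nat_lit 0), (nat_lit 3667325), (nat_lit 0)]) (PF.cons PF.nil (PF.cons PF.nil PF.nil))))))))) (PF.cons (PF.cons (PF.leaf (nat_lit 5961423) (nat_lit 1630700) (nat_lit 41016554) (nat_lit 17188468) [(nat_lit 0), (nat_lit 1630700), (nat_lit 3636545), (nat_lit 0)]) (PF.cons (PF.leaf (nat_lit 6265325) (nat_lit 521627) (nat_lit 40568819) (nat_lit 17080305) [(nat_lit 521627), (nat_lit 1645834), (nat_lit 3646112), (nat_lit 0)]) (PF.cons (PF.leaf (nat_lit 6580635) (nat_lit 532566) (nat_lit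 40109147) (nat_lit 16967107) [(nat_lit 532566), (nat_lit 1659483), (nat_lit 3653971), (nat_lit 0)]) (PF.cons (PF.leaf (nat_lit 6904922) (nat_lit 542240) (nat_lit 39640769) (nat_lit 16849550) [(nat_lit 542240), (nat_lit 1671655), (nat_lit 3660057), (nat_lit 0)]) (PF.cons (PF.leaf (nat_lit 7236515) (nat_lit 550820) (nat_lit 39166234) (nat_lit 16728193) [(nat_lit 550820), (nat_lit 1682392), (nat_lit 3664355), (nat_lit 0)]) (PF.cons PF.nil (PF.cons PF.nil PF.nil))))))) (PF.cons (PF.cons (PF.leaf (nat_lit 6685245) (nat_lit 1662974) (nat_lit 39632962) (nat_lit 16844079) [(nat_lit 0), (nat_lit 1662974), (nat_lit 3652910), (nat_lit 0)]) (PF.cons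
 (PF.leaf (nat_lit 7002312) (nat_lit 542374) (nat_lit 39176144) (nat_lit 16727303) [(nat_lit 542374), (nat_lit 1674070), (nat_lit 3657425), (nat_lit 0)]) (PF.cons (PF.leaf (nat_lit 7327636) (nat_lit 550816) (nat_lit 38712315) (nat_lit 16606610) [(nat_lit 550816), (nat_lit 1683839), (nat_lit 3660287), (nat_lit 0)]) (PF.cons (PF.leaf (nat_lit 7659351) (nat_lit 558272) (nat_lit 38243804) (nat_lit 16482548) [(nat_lit 558272), (nat_lit 1692319), (nat_lit 3661502), (nat_lit 0)]) (PF.cons PF.nil PF.nil))))) (PF.cons (PF.cons (PF.leaf (nat_lit 7419499) (nat_lit 1684679) (nat_lit 38260688) (nat_lit 16483739) [(nat_lit 0), (nat_lit 1684679), (nat_lit 3655173), (nat_lit 0)]) (PF.cons (PF.leaf (nat_lit 7744699) (nat_lit 557771) (nat_lit 37803064) (nat_lit 16360623) [(nat_lit 557771), (nat_lit 1692336), (nat_lit 3655171), (nat_lit 0)]) (PF.cons (PF.leaf (nat_lit 8075751) (nat_lit 564233) (nat_lit 37341995) (nat_lit 16234539) [(nat_lit 564233), (nat_lit 1698831), (nat_lit 3653657),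 (nat_lit 0)]) (PF.cons PF.nil PF.nil)))) (PF.cons (PF.cons (PF.leaf (nat_lit 8155742) (nat_lit 1697623) (nat_lit 36914758) (nat_lit 16112765) [(nat_lit 0), (nat_lit 1697623), (nat_lit 3645397), (nat_lit 0)]) (PF.cons
 PF.nil PF.nil)) (PF.cons PF.nil PF.nil)))))) (PF.cons (PF.cons (PF.cons (PF.leaf (nat_lit 6464345) (nat_lit 3630806) (nat_lit 39436059) (nat_lit 16780332) [(nat_lit 0), (nat_lit 0), (nat_lit 3630806), (nat_lit 0)]) (PF.cons (PF.leaf (nat_lit 6766400) (nat_lit 528285) (nat_lit 39003563) (nat_lit 16669319) [(nat_lit 528285), (nat_lit 0), (nat_lit 3635881), (nat_lit 0)]) (PF.cons (PF.leaf (nat_lit 7078922) (nat_lit 538092) (nat_lit 38560700) (nat_lit 16553721) [(nat_lit 538092), (nat_lit 0), (nat_lit 3639401), (nat_lit 0)]) (PF.cons (PF.leaf (nat_lit 7399547) (nat_lit 546680) (nat_lit 38110517) (nat_lit 16434237) [(nat_lit 546680), (nat_lit 0), (nat_lit 3641339), (nat_lit 0)]) (PF.cons (PF.leaf (nat_lit 7726667) (nat_lit 554223) (nat_lit 37655386) (nat_lit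 16311434) [(nat_lit 554223), (nat_lit 0), (nat_lit 3641700), (nat_lit 0)]) (PF.cons PF.nil (PF.cons PF.nil PF.nil))))))) (PF.cons (PF.cons (PF.leaf (nat_lit 7175974) (nat_lit 1667027) (nat_lit 38107442) (nat_lit 16430147) [(nat_lit 0), (nat_lit 1667027), (nat_lit 3634731), (nat_lit 0)]) (PF.cons (PF.leaf (nat_lit 7489364) (nat_lit 546057) (nat_lit 37668932) (nat_lit 16311901) [(nat_lit 546057), (nat_lit 1675614), (nat_lit 3635435),
 (nat_lit 0)]) (PF.cons (PF.leaf (nat_lit 7810243) (nat_lit 553530) (nat_lit 37224563) (nat_lit 16190185) [(nat_lit 553530), (nat_lit 1682998), (nat_lit 3634668), (nat_lit 0)]) (PF.cons (PF.leaf (nat_lit 8136808) (nat_lit 560062) (nat_lit 36776497) (nat_lit 16065550) [(nat_lit 560062), (nat_lit 1689222), (nat_lit 3632451), (nat_lit 0)]) (PF.cons PF.nil PF.nil))))) (PF.cons (PF.cons (PF.leaf (nat_lit 7894773) (nat_lit 1682120) (nat_lit 36796220) (nat_lit 16067986) [(nat_lit 0), (nat_lit 1682120), (nat_lit 3626788), (nat_lit 0)]) (PF.cons (PF.leaf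 (nat_lit 8214889) (nat_lit 558971) (nat_lit 36358947) (nat_lit 15944658) [(nat_lit 558971), (nat_lit 1687682), (nat_lit 3623623), (nat_lit 0)]) (PF.cons PF.nil (PF.cons PF.nil PF.nil)))) (PF.cons (PF.cons (PF.leaf (nat_lit 8613277) (nat_lit 1689667) (nat_lit 35514853) (nat_lit 15698628) [(nat_lit 0), (nat_lit 1689667), (nat_lit 3608776), (nat_lit 0)]) (PF.cons PF.nil PF.nil)) (PF.cons PF.nil PF.nil))))) (PF.cons (PF.cons (PF.cons (PF.leaf (nat_lit 7647051) (nat_lit 3607476) (nat_lit 36660506) (nat_lit 16018402) [(nat_lit 0), (nat_lit 0), (nat_lit 3607476), (nat_lit 0)]) (PF.cons (PF.leaf (nat_lit 7956184) (nat_lit 547794) (nat_lit 36240828)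
 (nat_lit 15899847) [(nat_lit 547794), (nat_lit 0), (nat_lit 3605085), (nat_lit 0)]) (PF.cons (PF.leaf (nat_lit 8272171) (nat_lit 554425) (nat_lit 35816218) (nat_lit 15778220) [(nat_lit 554425), (nat_lit 0), (nat_lit 3601380), (nat_lit 0)]) (PF.cons PF.nil PF.nil)))) (PF.cons (PF.cons (PF.leaf (nat_lit 8349905) (nat_lit 1675134) (nat_lit 35410654) (nat_lit 15657605) [(nat_lit 0), (nat_lit 1675134), (nat_lit 3591354), (nat_lit 0)]) (PF.cons (PF.leaf (nat_lit 8664632) (nat_lit 558594) (nat_lit 34993680) (nat_lit 15535027) [(nat_lit 558594), (nat_lit 1678947), (nat_lit 3585640), (nat_lit 0)]) PF.nil)) (PF.cons PF.nil PF.nil))) (PF.cons (PF.cons (PF.cons (PF.leaf (nat_lit 8785942) (nat_lit 3550538) (nat_lit 34101159) (nat_lit 15254960) [(nat_lit 0), (nat_lit 0), (nat_lit 3550538), (nat_lit 0)]) (PF.cons PF.nil PF.nil)) (PF.cons PF.nil PF.nil)) (PF.cons PF.nil (PF.cons PF.nil PF.nil)))))))) (PF.cons (PF.cons (PF.cons (PF.cons (PF.leaf (nat_lit 4874889) (nat_lit 8458142) (nat_lit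 41445669) (nat_lit 17205000) [(nat_lit 0), (nat_lit 0), (nat_lit 0), (nat_lit 8458142)]) (PF.cons (PF.leaf (nat_lit 5120981) (nat_lit 445957) (nat_lit 41092063) (nat_lit 17123810) [(nat_lit 445957), (nat_lit 0),
 (nat_lit 0), (nat_lit 8446981)]) (PF.cons (PF.leaf (nat_lit 5388359) (nat_lit 464794) (nat_lit 40711252) (nat_lit 17034824) [(nat_lit 464794), (nat_lit 0), (nat_lit 0), (nat_lit 8433147)]) (PF.cons (PF.leaf (nat_lit 5672329) (nat_lit 481088) (nat_lit 40309670) (nat_lit 16939272) [(nat_lit 481088), (nat_lit 0), (nat_lit 0), (nat_lit 8416605)]) (PF.cons (PF.leaf (nat_lit 5969840) (nat_lit 495348) (nat_lit 39892008) (nat_lit 16838056) [(nat_lit 495348), (nat_lit 0), (nat_lit 0), (nat_lit 8397352)]) (PF.cons (PF.leaf (nat_lit 6278517) (nat_lit 507924) (nat_lit 39461886) (nat_lit 16731886) [(nat_lit 507924), (nat_lit 0), (nat_lit 0), (nat_lit 8375419)]) (PF.cons (PF.leaf (nat_lit 6596466) (nat_lit 519066) (nat_lit 39022198) (nat_lit 16621352) [(nat_lit 519066), (nat_lit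 0), (nat_lit 0), (nat_lit 8350862)]) (PF.cons (PF.leaf (nat_lit 6922088) (nat_lit 528967) (nat_lit 38575323) (nat_lit 16506961) [(nat_lit 528967), (nat_lit 0), (nat_lit 0), (nat_lit 8323759)]) (PF.cons (PF.leaf (nat_lit 7254033) (nat_lit 537774) (nat_lit 38123252) (nat_lit 16389160) [(nat_lit 537774), (nat_lit 0), (nat_lit 0), (nat_lit 8294205)]) (PF.cons PF.nil PF.nil)))))))))) (PF.cons (PF.cons (PF.leaf (nat_lit
 5515777) (nat_lit 1553811) (nat_lit 40230885) (nat_lit 16916833) [(nat_lit 0), (nat_lit 1553811), (nat_lit 0), (nat_lit 8407282)]) (PF.cons (PF.leaf (nat_lit 5790308) (nat_lit 482768) (nat_lit 39841518) (nat_lit 16822226) [(nat_lit 482768), (nat_lit 1573126), (nat_lit 0), (nat_lit 8389173)]) (PF.cons (PF.leaf (nat_lit 6080175) (nat_lit 496852) (nat_lit 39434407) (nat_lit 16721593) [(nat_lit 496852), (nat_lit 1590736), (nat_lit 0), (nat_lit 8368371)]) (PF.cons (PF.leaf (nat_lit 6382124) (nat_lit 509201) (nat_lit 39013836) (nat_lit 16615817) [(nat_lit 509201),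 (nat_lit 1606616), (nat_lit 0), (nat_lit 8344939)]) (PF.cons (PF.leaf (nat_lit 6693960) (nat_lit 520095) (nat_lit 38583079) (nat_lit 16505586) [(nat_lit 520095), (nat_lit 1620807), (nat_lit 0), (nat_lit 8318955)]) (PF.cons (PF.leaf (nat_lit 7013927) (nat_lit 529743) (nat_lit 38144737) (nat_lit 16391470) [(nat_lit 529743), (nat_lit 1633377), (nat_lit 0), (nat_lit 8290510)]) (PF.cons (PF.leaf (nat_lit 7340560) (nat_lit 538301) (nat_lit 37700934) (nat_lit 16273955) [(nat_lit 538301), (nat_lit 1644407), (nat_lit 0), (nat_lit 8259706)]) (PF.cons PF.nil (PF.cons PF.nil PF.nil))))))))) (PF.cons (PF.cons (PF.leaf (nat_lit 6192795)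
 (nat_lit 1596845) (nat_lit 38975189) (nat_lit 16602639) [(nat_lit 0), (nat_lit 1596845), (nat_lit 0), (nat_lit 8337293)]) (PF.cons (PF.leaf (nat_lit 6486717) (nat_lit 509895) (nat_lit 38565854) (nat_lit 16497805) [(nat_lit 509895), (nat_lit 1611322), (nat_lit 0), (nat_lit 8312613)]) (PF.cons (PF.leaf (nat_lit 6791801) (nat_lit 520642) (nat_lit 38145229) (nat_lit 16388301) [(nat_lit 520642), (nat_lit 1624289), (nat_lit 0), (nat_lit 8285416)]) (PF.cons (PF.leaf (nat_lit 7105662) (nat_lit 530111) (nat_lit 37716302) (nat_lit 16274801) [(nat_lit 530111), (nat_lit 1635778), (nat_lit 0), (nat_lit 8255817)]) (PF.cons (PF.leaf (nat_lit 7426660) (nat_lit 538477) (nat_lit 37281431) (nat_lit 16157853) [(nat_lit 538477), (nat_lit 1645842), (nat_lit 0), (nat_lit 8223929)]) (PF.cons (PF.leaf (nat_lit 7753443) (nat_lit 545876) (nat_lit 36842527) (nat_lit 16037926) [(nat_lit 545876), (nat_lit 1654550), (nat_lit 0), (nat_lit 8189875)]) (PF.cons PF.nil PF.nil))))))) (PF.cons (PF.cons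 (PF.leaf (nat_lit 6891060) (nat_lit 1627063) (nat_lit 37708000) (nat_lit 16269365) [(nat_lit 0), (nat_lit 1627063), (nat_lit 0), (nat_lit 8250257)]) (PF.cons (PF.leaf (nat_lit 7197871) (nat_lit 530055) (nat_lit
 37289568) (nat_lit 16156879) [(nat_lit 530055), (nat_lit 1637534), (nat_lit 0), (nat_lit 8219706)]) (PF.cons (PF.leaf (nat_lit 7512792) (nat_lit 538295) (nat_lit 36864412) (nat_lit 16040817) [(nat_lit 538295), (nat_lit 1646693), (nat_lit 0), (nat_lit 8186911)]) (PF.cons (PF.leaf (nat_lit 7833978) (nat_lit 545548) (nat_lit 36434680) (nat_lit 15921709) [(nat_lit 545548), (nat_lit 1654589), (nat_lit 0), (nat_lit 8152007)]) (PF.cons PF.nil PF.nil))))) (PF.cons (PF.cons (PF.leaf (nat_lit 7599799) (nat_lit 1646995) (nat_lit 36449406) (nat_lit 15922761) [(nat_lit 0), (nat_lit 1646995), (nat_lit 0), (nat_lit 8148664)]) (PF.cons (PF.leaf (nat_lit 7914666) (nat_lit 544903) (nat_lit 36029547) (nat_lit 15804770) [(nat_lit 544903), (nat_lit 1654129), (nat_lit 0), (nat_lit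 8113074)]) (PF.cons (PF.leaf (nat_lit 8235321) (nat_lit 551181) (nat_lit 35606257) (nat_lit 15684103) [(nat_lit 551181), (nat_lit 1660134), (nat_lit 0), (nat_lit 8075551)]) (PF.cons PF.nil PF.nil)))) (PF.cons (PF.cons (PF.leaf (nat_lit 8311005) (nat_lit 1658559) (nat_lit 35213283) (nat_lit 15567661) [(nat_lit 0), (nat_lit 1658559), (nat_lit 0), (nat_lit 8035071)]) (PF.cons PF.nil PF.nil)) (PF.cons PF.nil (PF.cons PF.nil
 PF.nil)))))))) (PF.cons (PF.cons (PF.cons (PF.leaf (nat_lit 6003626) (nat_lit 3536439) (nat_lit 38740580) (nat_lit 16529187) [(nat_lit 0), (nat_lit 0), (nat_lit 3536439), (nat_lit 8302605)]) (PF.cons (PF.leaf (nat_lit 6278677) (nat_lit 492177) (nat_lit 38360843) (nat_lit 16431405) [(nat_lit 492177), (nat_lit 0), (nat_lit 3544770), (nat_lit 8279615)]) (PF.cons (PF.leaf (nat_lit 6567976) (nat_lit 504963) (nat_lit 37965246) (nat_lit 16327978) [(nat_lit 504963), (nat_lit 0), (nat_lit 3551638), (nat_lit 8254023)]) (PF.cons (PF.leaf (nat_lit 6868336) (nat_lit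 516064) (nat_lit 37557887) (nat_lit 16219828) [(nat_lit 516064), (nat_lit 0), (nat_lit 3556934), (nat_lit 8225969)]) (PF.cons (PF.leaf (nat_lit 7177665) (nat_lit 525772) (nat_lit 37141857) (nat_lit 16107668) [(nat_lit 525772), (nat_lit 0), (nat_lit 3560616), (nat_lit 8195583)]) (PF.cons (PF.leaf (nat_lit 7494242) (nat_lit 534297) (nat_lit 36719578) (nat_lit 15992074) [(nat_lit 534297), (nat_lit 0), (nat_lit 3562685), (nat_lit 8162988)]) (PF.cons (PF.leaf (nat_lit 7816692) (nat_lit 541797) (nat_lit 36293005) (nat_lit 15873534) [(nat_lit 541797), (nat_lit 0), (nat_lit 3563173), (nat_lit 8128312)]) (PF.cons PF.nil (PF.cons PF.nil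
 PF.nil))))))))) (PF.cons (PF.cons (PF.leaf (nat_lit 6673548) (nat_lit 1606558) (nat_lit 37525757) (nat_lit 16208058) [(nat_lit 0), (nat_lit 1606558), (nat_lit 3549731), (nat_lit 8218707)]) (PF.cons (PF.leaf (nat_lit 6965800) (nat_lit 515849) (nat_lit 37129996) (nat_lit 16101314) [(nat_lit 515849), (nat_lit 1618226), (nat_lit 3553582), (nat_lit 8189843)]) (PF.cons (PF.leaf (nat_lit 7268332) (nat_lit 525501) (nat_lit 36724376) (nat_lit 15990308) [(nat_lit 525501), (nat_lit 1628519), (nat_lit 3555955), (nat_lit 8158650)]) (PF.cons (PF.leaf (nat_lit 7578805) (nat_lit 533927) (nat_lit 36311711) (nat_lit 15875725) [(nat_lit 533927), (nat_lit 1637478), (nat_lit 3556835), (nat_lit 8125280)]) (PF.cons (PF.leaf (nat_lit 7895657) (nat_lit 541305) (nat_lit 35894194) (nat_lit 15758116) [(nat_lit 541305), (nat_lit 1645163), (nat_lit 3556239), (nat_lit 8089874)]) (PF.cons PF.nil (PF.cons PF.nil PF.nil))))))) (PF.cons (PF.cons (PF.leaf (nat_lit 7360621) (nat_lit 1629287) (nat_lit 36307879)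 (nat_lit 15871636) [(nat_lit 0), (nat_lit 1629287), (nat_lit 3550338), (nat_lit 8120383)]) (PF.cons (PF.leaf (nat_lit 7664062) (nat_lit 533179) (nat_lit 35905791) (nat_lit 15758433) [(nat_lit 533179), (nat_lit
 1637429), (nat_lit 3550124), (nat_lit 8086424)]) (PF.cons (PF.leaf (nat_lit 7974872) (nat_lit 540497) (nat_lit 35498020) (nat_lit 15642045) [(nat_lit 540497), (nat_lit 1644386), (nat_lit 3548532), (nat_lit 8050448)]) (PF.cons (PF.leaf (nat_lit 8291303) (nat_lit 546878) (nat_lit 35086562) (nat_lit 15523001) [(nat_lit 546878), (nat_lit 1650208), (nat_lit 3545589), (nat_lit 8012606)]) (PF.cons PF.nil PF.nil))))) (PF.cons (PF.cons (PF.leaf (nat_lit 8055171) (nat_lit 1643158) (nat_lit 35104000) (nat_lit 15525223) [(nat_lit 0), (nat_lit 1643158), (nat_lit 3540081), (nat_lit 8010031)]) (PF.cons (PF.leaf (nat_lit 8365357) (nat_lit 545700) (nat_lit 34702315) (nat_lit 15407578) [(nat_lit 545700), (nat_lit 1648370), (nat_lit 3536308), (nat_lit 7971800)]) (PF.cons PF.nil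 (PF.cons PF.nil PF.nil)))) (PF.cons (PF.cons (PF.leaf (nat_lit 8750098) (nat_lit 1649825) (nat_lit 33925683) (nat_lit 15173151) [(nat_lit 0), (nat_lit 1649825), (nat_lit 3520690), (nat_lit 7889985)]) (PF.cons PF.nil PF.nil)) (PF.cons PF.nil PF.nil)))))) (PF.cons (PF.cons (PF.cons (PF.leaf (nat_lit 7137441) (nat_lit 3529327) (nat_lit 36145341) (nat_lit 15814591) [(nat_lit 0), (nat_lit 0), (nat_lit 3529327), (nat_lit 8090225)])
 (PF.cons (PF.leaf (nat_lit 7427244) (nat_lit 519640) (nat_lit 35764207) (nat_lit 15707025) [(nat_lit 519640), (nat_lit 0), (nat_lit 3529915), (nat_lit 8058108)]) (PF.cons (PF.leaf (nat_lit 7726550) (nat_lit 528336) (nat_lit 35374409) (nat_lit 15595570) [(nat_lit 528336), (nat_lit 0), (nat_lit 3529158), (nat_lit 8023842)]) (PF.cons (PF.leaf (nat_lit 8033093) (nat_lit 535856) (nat_lit 34978593) (nat_lit 15480914) [(nat_lit 535856), (nat_lit 0), (nat_lit 3527063), (nat_lit 7987606)]) (PF.cons (PF.leaf (nat_lit 8345370) (nat_lit 542381) (nat_lit 34578799)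 (nat_lit 15363602) [(nat_lit 542381), (nat_lit 0), (nat_lit 3523661), (nat_lit 7949559)]) PF.nil))))) (PF.cons (PF.cons (PF.leaf (nat_lit 7812307) (nat_lit 1626581) (nat_lit 34978558) (nat_lit 15478081) [(nat_lit 0), (nat_lit 1626581), (nat_lit 3521108), (nat_lit 7983374)]) (PF.cons (PF.leaf (nat_lit 8111875) (nat_lit 534552) (nat_lit 34593225) (nat_lit 15365085) [(nat_lit 534552), (nat_lit 1632772), (nat_lit 3518166), (nat_lit 7946845)]) (PF.cons (PF.leaf (nat_lit 8418193) (nat_lit 541069) (nat_lit 34203053) (nat_lit 15249250) [(nat_lit 541069), (nat_lit 1637887), (nat_lit 3513990), (nat_lit 7908501)]) (PF.cons PF.nil PF.nil))))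
 (PF.cons (PF.cons (PF.leaf (nat_lit 8492259) (nat_lit 1635439) (nat_lit 33829503) (nat_lit 15134358) [(nat_lit 0), (nat_lit 1635439), (nat_lit 3503712), (nat_lit 7866645)]) (PF.cons (PF.leaf (nat_lit 8797487) (nat_lit 545090) (nat_lit 33445906) (nat_lit 15017816) [(nat_lit 545090), (nat_lit 1639043), (nat_lit 3497705), (nat_lit 7826502)]) PF.nil)) (PF.cons PF.nil (PF.cons PF.nil PF.nil))))) (PF.cons (PF.cons (PF.cons (PF.leaf (nat_lit 8246791) (nat_lit 3485943) (nat_lit 33718298) (nat_lit 15091027) [(nat_lit 0), (nat_lit 0), (nat_lit 3485943), (nat_lit 7841657)]) (PF.cons (PF.leaf (nat_lit 8542101) (nat_lit 534490) (nat_lit 33349748) (nat_lit 14978967) [(nat_lit 534490), (nat_lit 0), (nat_lit 3480786), (nat_lit 7803246)]) (PF.cons (PF.leaf (nat_lit 8843639) (nat_lit 540309) (nat_lit 32977050) (nat_lit 14864374) [(nat_lit 540309), (nat_lit 0), (nat_lit 3474522), (nat_lit 7763201)]) (PF.cons PF.nil PF.nil)))) (PF.cons (PF.cons (PF.leaf (nat_lit 8911954) (nat_lit 1624630)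 (nat_lit 32623239) (nat_lit 14751926) [(nat_lit 0), (nat_lit 1624630), (nat_lit 3462843), (nat_lit 7720486)]) (PF.cons PF.nil PF.nil)) (PF.cons PF.nil PF.nil))) (PF.cons (PF.cons (PF.cons (PF.leaf (nat_lit 9315184)
 (nat_lit 3418602) (nat_lit 31482103) (nat_lit 14379184) [(nat_lit 0), (nat_lit 0), (nat_lit 3418602), (nat_lit 7573114)]) (PF.cons PF.nil PF.nil)) (PF.cons PF.nil PF.nil)) (PF.cons PF.nil PF.nil)))))) (PF.cons (PF.cons (PF.cons (PF.cons (PF.leaf (nat_lit 6673465) (nat_lit 7964673) (nat_lit 35582229) (nat_lit 15597236) [(nat_lit 0), (nat_lit 0), (nat_lit 0), (nat_lit 7964673)]) (PF.cons (PF.leaf (nat_lit 6939145) (nat_lit 486060) (nat_lit 35245324) (nat_lit 15502148) [(nat_lit 486060), (nat_lit 0), (nat_lit 0), (nat_lit 7937639)]) (PF.cons (PF.leaf (nat_lit 7217958) (nat_lit 497690) (nat_lit 34894888) (nat_lit 15402046) [(nat_lit 497690), (nat_lit 0), (nat_lit 0), (nat_lit 7908248)]) (PF.cons (PF.leaf (nat_lit 7506813) (nat_lit 507667) (nat_lit 34534536) (nat_lit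 15297852) [(nat_lit 507667), (nat_lit 0), (nat_lit 0), (nat_lit 7876710)]) (PF.cons (PF.leaf (nat_lit 7803713) (nat_lit 516294) (nat_lit 34166967) (nat_lit 15190269) [(nat_lit 516294), (nat_lit 0), (nat_lit 0), (nat_lit 7843199)]) (PF.cons (PF.leaf (nat_lit 8107036) (nat_lit 523786) (nat_lit 33794280) (nat_lit 15079855) [(nat_lit 523786), (nat_lit 0), (nat_lit 0), (nat_lit 7807871)]) (PF.cons PF.nil PF.nil))))))) (PF.cons
 (PF.cons (PF.leaf (nat_lit 7312883) (nat_lit 1572078) (nat_lit 34508983) (nat_lit 15287649) [(nat_lit 0), (nat_lit 1572078), (nat_lit 0), (nat_lit 7870050)]) (PF.cons (PF.leaf (nat_lit 7593794) (nat_lit 506690) (nat_lit 34159190) (nat_lit 15185252) [(nat_lit 506690), (nat_lit 1581232), (nat_lit 0), (nat_lit 7838223)]) (PF.cons (PF.leaf (nat_lit 7884086) (nat_lit 515327) (nat_lit 33801065) (nat_lit 15079191) [(nat_lit 515327), (nat_lit 1589115), (nat_lit 0), (nat_lit 7804392)]) (PF.cons (PF.leaf (nat_lit 8181537) (nat_lit 522783) (nat_lit 33437061)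 (nat_lit 14970131) [(nat_lit 522783), (nat_lit 1595786), (nat_lit 0), (nat_lit 7768741)]) (PF.cons (PF.leaf (nat_lit 8484678) (nat_lit 529242) (nat_lit 33069072) (nat_lit 14858596) [(nat_lit 529242), (nat_lit 1601317), (nat_lit 0), (nat_lit 7731427)]) PF.nil))))) (PF.cons (PF.cons (PF.leaf (nat_lit 7966325) (nat_lit 1588099) (nat_lit 33436122) (nat_lit 14967225) [(nat_lit 0), (nat_lit 1588099), (nat_lit 0), (nat_lit 7764632)]) (PF.cons (PF.leaf (nat_lit 8256977) (nat_lit 521454) (nat_lit 33081603) (nat_lit 14859835) [(nat_lit 521454), (nat_lit 1594142), (nat_lit 0), (nat_lit 7728816)]) (PF.cons (PF.leaf (nat_lit 8554343) (nat_lit 527907)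
 (nat_lit 32722317) (nat_lit 14749790) [(nat_lit 527907), (nat_lit 1599118), (nat_lit 0), (nat_lit 7691326)]) (PF.cons PF.nil PF.nil)))) (PF.cons (PF.cons (PF.leaf (nat_lit 8625325) (nat_lit 1596580) (nat_lit 32377445) (nat_lit 14640544) [(nat_lit 0), (nat_lit 1596580), (nat_lit 0), (nat_lit 7650541)]) (PF.cons (PF.leaf (nat_lit 8921744) (nat_lit 531860) (nat_lit 32023767) (nat_lit 14529941) [(nat_lit 531860), (nat_lit 1600087), (nat_lit 0), (nat_lit 7611489)]) PF.nil)) (PF.cons PF.nil (PF.cons PF.nil PF.nil)))))) (PF.cons (PF.cons (PF.cons (PF.leaf (nat_lit 7743470) (nat_lit 3416847) (nat_lit 33301241) (nat_lit 14916784) [(nat_lit 0), (nat_lit 0), (nat_lit 3416847), (nat_lit 7736969)]) (PF.cons (PF.leaf (nat_lit 8021642) (nat_lit 508541) (nat_lit 32964791) (nat_lit 14814720) [(nat_lit 508541), (nat_lit 0), (nat_lit 3414542), (nat_lit 7703108)]) (PF.cons (PF.leaf (nat_lit 8308552) (nat_lit 516359) (nat_lit 32620944) (nat_lit 14709305) [(nat_lit 516359), (nat_lit 0),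 (nat_lit 3411057), (nat_lit 7667393)]) (PF.cons (PF.leaf (nat_lit 8602019) (nat_lit 523048) (nat_lit 32272002) (nat_lit 14601191) [(nat_lit 523048), (nat_lit 0), (nat_lit 3406423), (nat_lit 7630024)]) (PF.cons PF.nil
 PF.nil))))) (PF.cons (PF.cons (PF.leaf (nat_lit 8385111) (nat_lit 1581142) (nat_lit 32274125) (nat_lit 14599396) [(nat_lit 0), (nat_lit 1581142), (nat_lit 3401071), (nat_lit 7626538)]) (PF.cons (PF.leaf (nat_lit 8671883) (nat_lit 521303) (nat_lit 31934483) (nat_lit 14493119) [(nat_lit 521303), (nat_lit 1585637), (nat_lit 3395854), (nat_lit 7589207)]) (PF.cons (PF.leaf (nat_lit 8964851) (nat_lit 527082) (nat_lit 31590717) (nat_lit 14384462) [(nat_lit 527082), (nat_lit 1589160), (nat_lit 3389584), (nat_lit 7550361)]) (PF.cons PF.nil PF.nil)))) (PF.cons (PF.cons (PF.leaf (nat_lit 9030503) (nat_lit 1585741) (nat_lit 31263561) (nat_lit 14277725) [(nat_lit 0), (nat_lit 1585741), (nat_lit 3378039), (nat_lit 7509001)]) (PF.cons PF.nil PF.nil)) (PF.cons PF.nil (PF.cons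 PF.nil PF.nil))))) (PF.cons (PF.cons (PF.cons (PF.leaf (nat_lit 8788783) (nat_lit 3361830) (nat_lit 31171824) (nat_lit 14240041) [(nat_lit 0), (nat_lit 0), (nat_lit 3361830), (nat_lit 7486643)]) (PF.cons (PF.leaf (nat_lit 9071416) (nat_lit 520072) (nat_lit 30846866) (nat_lit 14135338) [(nat_lit 520072), (nat_lit 0), (nat_lit 3354998), (nat_lit 7448269)]) (PF.cons PF.nil (PF.cons PF.nil PF.nil)))) (PF.cons (PF.cons (PF.leaf
 (nat_lit 9420535) (nat_lit 1572713) (nat_lit 30208109) (nat_lit 13924547) [(nat_lit 0), (nat_lit 1572713), (nat_lit 3334758), (nat_lit 7366962)]) (PF.cons PF.nil PF.nil)) (PF.cons PF.nil PF.nil))) (PF.cons (PF.cons (PF.cons (PF.leaf (nat_lit 9796243) (nat_lit 3289403) (nat_lit 29208137) (nat_lit 13581628) [(nat_lit 0), (nat_lit 0), (nat_lit 3289403), (nat_lit 7225418)]) (PF.cons PF.nil PF.nil)) (PF.cons PF.nil PF.nil)) (PF.cons PF.nil PF.nil))))) (PF.cons (PF.cons (PF.cons (PF.cons (PF.leaf (nat_lit 8294840) (nat_lit 7395473) (nat_lit 30831255) (nat_lit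 14091138) [(nat_lit 0), (nat_lit 0), (nat_lit 0), (nat_lit 7395473)]) (PF.cons (PF.leaf (nat_lit 8562099) (nat_lit 496156) (nat_lit 30533227) (nat_lit 13995406) [(nat_lit 496156), (nat_lit 0), (nat_lit 0), (nat_lit 7361340)]) (PF.cons (PF.leaf (nat_lit 8837499) (nat_lit 503265) (nat_lit 30228777) (nat_lit 13896743) [(nat_lit 503265), (nat_lit 0), (nat_lit 0), (nat_lit 7325587)]) (PF.cons (PF.leaf (nat_lit 9118924) (nat_lit 509292) (nat_lit 29919919) (nat_lit 13795762) [(nat_lit 509292), (nat_lit 0), (nat_lit 0), (nat_lit 7288417)]) (PF.cons PF.nil PF.nil))))) (PF.cons (PF.cons (PF.leaf (nat_lit 8906484) (nat_lit 1533727) (nat_lit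
 29923559) (nat_lit 13794805) [(nat_lit 0), (nat_lit 1533727), (nat_lit 0), (nat_lit 7285573)]) (PF.cons (PF.leaf (nat_lit 9181470) (nat_lit 507264) (nat_lit 29622914) (nat_lit 13695701) [(nat_lit 507264), (nat_lit 1537001), (nat_lit 0), (nat_lit 7248643)]) (PF.cons PF.nil (PF.cons PF.nil PF.nil)))) (PF.cons (PF.cons (PF.leaf (nat_lit 9521011) (nat_lit 1535387) (nat_lit 29030688) (nat_lit 13496001) [(nat_lit 0), (nat_lit 1535387), (nat_lit 0), (nat_lit 7170449)]) (PF.cons PF.nil PF.nil)) PF.nil))) (PF.cons (PF.cons (PF.cons (PF.leaf (nat_lit 9283913) (nat_lit 3239435) (nat_lit 28954485) (nat_lit 13463267) [(nat_lit 0), (nat_lit 0), (nat_lit 3239435), (nat_lit 7150541)]) (PF.cons (PF.leaf (nat_lit 9554936) (nat_lit 505277) (nat_lit 28666585) (nat_lit 13366028) [(nat_lit 505277), (nat_lit 0), (nat_lit 3231627), (nat_lit 7113098)]) (PF.cons PF.nil PF.nil))) (PF.cons (PF.cons (PF.leaf (nat_lit 9885882) (nat_lit 1521157) (nat_lit 28102042) (nat_lit 13171238) [(nat_lit 0),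 (nat_lit 1521157), (nat_lit 3210290), (nat_lit 7034694)]) PF.nil) PF.nil)) (PF.cons PF.nil PF.nil))) (PF.cons (PF.cons (PF.cons (PF.cons (PF.leaf (nat_lit 9740415) (nat_lit 6835413) (nat_lit 27011596) (nat_lit
 12755561) [(nat_lit 0), (nat_lit 0), (nat_lit 0), (nat_lit 6835413)]) (PF.cons (PF.leaf (nat_lit 10000785) (nat_lit 490545) (nat_lit 26755234) (nat_lit 12665506) [(nat_lit 490545), (nat_lit 0), (nat_lit 0), (nat_lit 6799381)]) PF.nil)) (PF.cons PF.nil PF.nil)) (PF.cons PF.nil PF.nil)) (PF.cons PF.nil (PF.cons PF.nil (PF.cons PF.nil PF.nil))))))))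

def p15_27_3_0 : pfC (piC [(nat_lit 36888796), (nat_lit 24534081), (nat_lit 18263511), (nat_lit 12310016)] (nat_lit 5058382)) p15_27_3 (nat_lit 4) (nat_lit 0) (nat_lit 1) = true := by decide +kernel
def p15_27_3_1 : pfC (piC [(nat_lit 36888796), (nat_lit 24534081), (nat_lit 18263511), (nat_lit 12310016)] (nat_lit 5058382)) p15_27_3 (nat_lit 4) (nat_lit 1) (nat_lit 2) = true := by decide +kernel
def p15_27_3_2 : pfC (piC [(nat_lit 36888796), (nat_lit 24534081), (nat_lit 18263511), (nat_lit 12310016)] (nat_lit 5058382)) p15_27_3 (nat_lit 4) (nat_lit 2) (nat_lit 3) = true := by decide +kernel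
def p15_27_3_3 : pfC (piC [(nat_lit 36888796), (nat_lit 24534081), (nat_lit 18263511), (nat_lit 12310016)] (nat_lit 5058382)) p15_27_3 (nat_lit 4) (nat_lit 3) (nat_lit 4) = true := by decide +kernel
def p15_27_3_4 : pfC (piC [(nat_lit 36888796), (nat_lit 24534081), (nat_lit 18263511), (nat_lit 12310016)] (nat_lit 5058382)) p15_27_3 (nat_lit 4) (nat_lit 4) (nat_lit 5) = true := by decide +kernel
def p15_27_3_5 : pfC (piC [(nat_lit 36888796), (nat_lit 24534081), (nat_lit 18263511), (nat_lit 12310016)] (nat_lit 5058382)) p15_27_3 (nat_lit 4) (nat_lit 5) (nat_lit 6) = true := by decide +kernel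
def p15_27_3_6 : pfC (piC [(nat_lit 36888796), (nat_lit 24534081), (nat_lit 18263511), (nat_lit 12310016)] (nat_lit 5058382)) p15_27_3 (nat_lit 4) (nat_lit 6) (nat_lit 7) = true := by decide +kernel
def p15_27_3_7 : pfC (piC [(nat_lit 36888796), (nat_lit 24534081), (nat_lit 18263511), (nat_lit 12310016)] (nat_lit 5058382)) p15_27_3 (nat_lit 4) (nat_lit 7) (nat_lit 8) = true := by decide +kernel
def p15_27_3_8 : pfC (piC [(nat_lit 36888796), (nat_lit 24534081), (nat_lit 18263511), (nat_lit 12310016)] (nat_lit 5058382)) p15_27_3 (nat_lit 4) (nat_lit 8) (nat_lit 9) = true := by decide +kernel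
def p15_27_3_9 : pfC (piC [(nat_lit 36888796), (nat_lit 24534081), (nat_lit 18263511), (nat_lit 12310016)] (nat_lit 5058382)) p15_27_3 (nat_lit 4) (nat_lit 9) (nat_lit 10) = true := by decide +kernel
def p15_27_3_10 : pfC (piC [(nat_lit 36888796), (nat_lit 24534081), (nat_lit 18263511), (nat_lit 12310016)] (nat_lit 5058382)) p15_27_3 (nat_lit 4) (nat_lit 10) (nat_lit 11) = true := by decide +kernel
def p15_27_3_11 : pfC (piC [(nat_lit 36888796), (nat_lit 24534081), (nat_lit 18263511), (nat_lit 12310016)] (nat_lit 5058382)) p15_27_3 (nat_lit 4) (nat_lit 11) (nat_lit 12) = true := by decide +kernel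
def p15_27_3_12 : pfC (piC [(nat_lit 36888796), (nat_lit 24534081), (nat_lit 18263511), (nat_lit 12310016)] (nat_lit 5058382)) p15_27_3 (nat_lit 4) (nat_lit 12) (nat_lit 13) = true := by decide +kernel
def p15_27_3_13 : pfC (piC [(nat_lit 36888796), (nat_lit 24534081), (nat_lit 18263511), (nat_lit 12310016)] (nat_lit 5058382)) p15_27_3 (nat_lit 4) (nat_lit 13) (nat_lit 14) = true := by decide +kernel
def p15_27_3_14 : pfC (piC [(nat_lit 36888796), (nat_lit 24534081), (nat_lit 18263511), (nat_lit 12310016)] (nat_lit 5058382)) p15_27_3 (nat_lit 4) (nat_lit 14) (nat_lit 15) = true := by decide +kernel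
def p15_27_3_15 : pfC (piC [(nat_lit 36888796), (nat_lit 24534081), (nat_lit 18263511), (nat_lit 12310016)] (nat_lit 5058382)) p15_27_3 (nat_lit 4) (nat_lit 15) (nat_lit 16) = true := by decide +kernel
def p15_27_3_16 : pfC (piC [(nat_lit 36888796), (nat_lit 24534081), (nat_lit 18263511), (nat_lit 12310016)] (nat_lit 5058382)) p15_27_3 (nat_lit 4) (nat_lit 16) (nat_lit 17) = true := by decide +kernel
def p15_27_3_17 : pfC (piC [(nat_lit 36888796), (nat_lit 24534081), (nat_lit 18263511), (nat_lit 12310016)] (nat_lit 5058382)) p15_27_3 (nat_lit 4) (nat_lit 17) (nat_lit 18) = true := by decide +kernel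
def p15_27_3_18 : pfC (piC [(nat_lit 36888796), (nat_lit 24534081), (nat_lit 18263511), (nat_lit 12310016)] (nat_lit 5058382)) p15_27_3 (nat_lit 4) (nat_lit 18) (nat_lit 19) = true := by decide +kernel
def p15_27_3_19 : pfC (piC [(nat_lit 36888796), (nat_lit 24534081), (nat_lit 18263511), (nat_lit 12310016)] (nat_lit 5058382)) p15_27_3 (nat_lit 4) (nat_lit 19) (nat_lit 20) = true := by decide +kernel
def p15_27_3_20 : pfC (piC [(nat_lit 36888796), (nat_lit 24534081), (nat_lit 18263511), (nat_lit 12310016)] (nat_lit 5058382)) p15_27_3 (nat_lit 4) (nat_lit 20) (nat_lit 21) = true := by decide +kernel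
def p15_27_3_21 : pfC (piC [(nat_lit 36888796), (nat_lit 24534081), (nat_lit 18263511), (nat_lit 12310016)] (nat_lit 5058382)) p15_27_3 (nat_lit 4) (nat_lit 21) (nat_lit 22) = true := by decide +kernel
def p15_27_3_22 : pfC (piC [(nat_lit 36888796), (nat_lit 24534081), (nat_lit 18263511), (nat_lit 12310016)] (nat_lit 5058382)) p15_27_3 (nat_lit 4) (nat_lit 22) (nat_lit 23) = true := by decide +kernel
def p15_27_3_23 : pfC (piC [(nat_lit 36888796), (nat_lit 24534081), (nat_lit 18263511), (nat_lit 12310016)] (nat_lit 5058382)) p15_27_3 (nat_lit 4) (nat_lit 23) (nat_lit 24) = true := by decide +kernel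
def p15_27_3_24 : pfC (piC [(nat_lit 36888796), (nat_lit 24534081), (nat_lit 18263511), (nat_lit 12310016)] (nat_lit 5058382)) p15_27_3 (nat_lit 4) (nat_lit 24) (nat_lit 25) = true := by decide +kernel
def p15_27_3_25 : pfC (piC [(nat_lit 36888796), (nat_lit 24534081), (nat_lit 18263511), (nat_lit 12310016)] (nat_lit 5058382)) p15_27_3 (nat_lit 4) (nat_lit 25) (nat_lit 26) = true := by decide +kernel
def p15_27_3_26 : pfC (piC [(nat_lit 36888796), (nat_lit 24534081), (nat_lit 18263511), (nat_lit 12310016)] (nat_lit 5058382)) p15_27_3 (nat_lit 4) (nat_lit 26) (nat_lit 27) = true := by decide +kernel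
def p15_27_3_27 : pfC (piC [(nat_lit 36888796), (nat_lit 24534081), (nat_lit 18263511), (nat_lit 12310016)] (nat_lit 5058382)) p15_27_3 (nat_lit 4) (nat_lit 27) (nat_lit 28) = true := by decide +kernel
def p15_27_3_28 : pfC (piC [(nat_lit 36888796), (nat_lit 24534081), (nat_lit 18263511), (nat_lit 12310016)] (nat_lit 5058382)) p15_27_3 (nat_lit 4) (nat_lit 28) (nat_lit 29) = true := by decide +kernel
def p15_27_3_29 : pfC (piC [(nat_lit 36888796), (nat_lit 24534081), (nat_lit 18263511), (nat_lit 12310016)] (nat_lit 5058382)) p15_27_3 (nat_lit 4) (nat_lit 29) (nat_lit 30) = true := by decide +kernel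
def p15_27_3_30 : pfC (piC [(nat_lit 36888796), (nat_lit 24534081), (nat_lit 18263511), (nat_lit 12310016)] (nat_lit 5058382)) p15_27_3 (nat_lit 4) (nat_lit 30) (nat_lit 31) = true := by decide +kernel
def p15_27_3_31 : pfC (piC [(nat_lit 36888796), (nat_lit 24534081), (nat_lit 18263511), (nat_lit 12310016)] (nat_lit 5058382)) p15_27_3 (nat_lit 4) (nat_lit 31) (nat_lit 32) = true := by decide +kernel
def p15_27_3_32 : pfC (piC [(nat_lit 36888796), (nat_lit 24534081), (nat_lit 18263511), (nat_lit 12310016)] (nat_lit 5058382)) p15_27_3 (nat_lit 4) (nat_lit 32) (nat_lit 33) = true := by decide +kernel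
def p15_27_3_33 : pfC (piC [(nat_lit 36888796), (nat_lit 24534081), (nat_lit 18263511), (nat_lit 12310016)] (nat_lit 5058382)) p15_27_3 (nat_lit 4) (nat_lit 33) (nat_lit 34) = true := by decide +kernel
def p15_27_3_34 : pfC (piC [(nat_lit 36888796), (nat_lit 24534081), (nat_lit 18263511), (nat_lit 12310016)] (nat_lit 5058382)) p15_27_3 (nat_lit 4) (nat_lit 34) (nat_lit 35) = true := by decide +kernel
def p15_27_3_35 : pfC (piC [(nat_lit 36888796), (nat_lit 24534081), (nat_lit 18263511), (nat_lit 12310016)] (nat_lit 5058382)) p15_27_3 (nat_lit 4) (nat_lit 35) (nat_lit 36) = true := by decide +kernel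
def p15_27_3_36 : pfC (piC [(nat_lit 36888796), (nat_lit 24534081), (nat_lit 18263511), (nat_lit 12310016)] (nat_lit 5058382)) p15_27_3 (nat_lit 4) (nat_lit 36) (nat_lit 37) = true := by decide +kernel
def p15_27_3_37 : pfC (piC [(nat_lit 36888796), (nat_lit 24534081), (nat_lit 18263511), (nat_lit 12310016)] (nat_lit 5058382)) p15_27_3 (nat_lit 4) (nat_lit 37) (nat_lit 38) = true := by decide +kernel
def p15_27_3_38 : pfC (piC [(nat_lit 36888796), (nat_lit 24534081), (nat_lit 18263511), (nat_lit 12310016)] (nat_lit 5058382)) p15_27_3 (nat_lit 4) (nat_lit 38) (nat_lit 39) = true := by decide +kernel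
def p15_27_3_39 : pfC (piC [(nat_lit 36888796), (nat_lit 24534081), (nat_lit 18263511), (nat_lit 12310016)] (nat_lit 5058382)) p15_27_3 (nat_lit 4) (nat_lit 39) (nat_lit 40) = true := by decide +kernel
def p15_27_3_40 : pfC (piC [(nat_lit 36888796), (nat_lit 24534081), (nat_lit 18263511), (nat_lit 12310016)] (nat_lit 5058382)) p15_27_3 (nat_lit 4) (nat_lit 40) (nat_lit 41) = true := by decide +kernel
def p15_27_3_41 : pfC (piC [(nat_lit 36888796), (nat_lit 24534081), (nat_lit 18263511), (nat_lit 12310016)] (nat_lit 5058382)) p15_27_3 (nat_lit 4) (nat_lit 41) (nat_lit 42) = true := by decide +kernel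
def p15_27_3_42 : pfC (piC [(nat_lit 36888796), (nat_lit 24534081), (nat_lit 18263511), (nat_lit 12310016)] (nat_lit 5058382)) p15_27_3 (nat_lit 4) (nat_lit 42) (nat_lit 43) = true := by decide +kernel
def p15_27_3_43 : pfC (piC [(nat_lit 36888796), (nat_lit 24534081), (nat_lit 18263511), (nat_lit 12310016)] (nat_lit 5058382)) p15_27_3 (nat_lit 4) (nat_lit 43) (nat_lit 44) = true := by decide +kernel
def p15_27_3_44 : pfC (piC [(nat_lit 36888796), (nat_lit 24534081), (nat_lit 18263511), (nat_lit 12310016)] (nat_lit 5058382)) p15_27_3 (nat_lit 4) (nat_lit 44) (nat_lit 45) = true := by decide +kernel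
def p15_27_3_45 : pfC (piC [(nat_lit 36888796), (nat_lit 24534081), (nat_lit 18263511), (nat_lit 12310016)] (nat_lit 5058382)) p15_27_3 (nat_lit 4) (nat_lit 45) (nat_lit 46) = true := by decide +kernel
def p15_27_3_46 : pfC (piC [(nat_lit 36888796), (nat_lit 24534081), (nat_lit 18263511), (nat_lit 12310016)] (nat_lit 5058382)) p15_27_3 (nat_lit 4) (nat_lit 46) (nat_lit 47) = true := by decide +kernel
def p15_27_3_47 : pfC (piC [(nat_lit 36888796), (nat_lit 24534081), (nat_lit 18263511), (nat_lit 12310016)] (nat_lit 5058382)) p15_27_3 (nat_lit 4) (nat_lit 47) (nat_lit 48) = true := by decide +kernel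
def p15_27_3_48 : pfC (piC [(nat_lit 36888796), (nat_lit 24534081), (nat_lit 18263511), (nat_lit 12310016)] (nat_lit 5058382)) p15_27_3 (nat_lit 4) (nat_lit 48) (nat_lit 49) = true := by decide +kernel
def p15_27_3_49 : pfC (piC [(nat_lit 36888796), (nat_lit 24534081), (nat_lit 18263511), (nat_lit 12310016)] (nat_lit 5058382)) p15_27_3 (nat_lit 4) (nat_lit 49) (nat_lit 50) = true := by decide +kernel
def p15_27_3_50 : pfC (piC [(nat_lit 36888796), (nat_lit 24534081), (nat_lit 18263511), (nat_lit 12310016)] (nat_lit 5058382)) p15_27_3 (nat_lit 4) (nat_lit 50) (nat_lit 51) = true := by decide +kernel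
def p15_27_3_51 : pfC (piC [(nat_lit 36888796), (nat_lit 24534081), (nat_lit 18263511), (nat_lit 12310016)] (nat_lit 5058382)) p15_27_3 (nat_lit 4) (nat_lit 51) (nat_lit 52) = true := by decide +kernel
def p15_27_3_52 : pfC (piC [(nat_lit 36888796), (nat_lit 24534081), (nat_lit 18263511), (nat_lit 12310016)] (nat_lit 5058382)) p15_27_3 (nat_lit 4) (nat_lit 52) (nat_lit 53) = true := by decide +kernel
def p15_27_3_53 : pfC (piC [(nat_lit 36888796), (nat_lit 24534081), (nat_lit 18263511), (nat_lit 12310016)] (nat_lit 5058382)) p15_27_3 (nat_lit 4) (nat_lit 53) (nat_lit 54) = true := by decide +kernel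
def p15_27_3_54 : pfC (piC [(nat_lit 36888796), (nat_lit 24534081), (nat_lit 18263511), (nat_lit 12310016)] (nat_lit 5058382)) p15_27_3 (nat_lit 4) (nat_lit 54) (nat_lit 55) = true := by decide +kernel
def p15_27_3_55 : pfC (piC [(nat_lit 36888796), (nat_lit 24534081), (nat_lit 18263511), (nat_lit 12310016)] (nat_lit 5058382)) p15_27_3 (nat_lit 4) (nat_lit 55) (nat_lit 56) = true := by decide +kernel
def p15_27_3_56 : pfC (piC [(nat_lit 36888796), (nat_lit 24534081), (nat_lit 18263511), (nat_lit 12310016)] (nat_lit 5058382)) p15_27_3 (nat_lit 4) (nat_lit 56) (nat_lit 57) = true := by decide +kernel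
def p15_27_3_57 : pfC (piC [(nat_lit 36888796), (nat_lit 24534081), (nat_lit 18263511), (nat_lit 12310016)] (nat_lit 5058382)) p15_27_3 (nat_lit 4) (nat_lit 57) (nat_lit 58) = true := by decide +kernel
def p15_27_3_58 : pfC (piC [(nat_lit 36888796), (nat_lit 24534081), (nat_lit 18263511), (nat_lit 12310016)] (nat_lit 5058382)) p15_27_3 (nat_lit 4) (nat_lit 58) (nat_lit 59) = true := by decide +kernel
def p15_27_3_59 : pfC (piC [(nat_lit 36888796), (nat_lit 24534081), (nat_lit 18263511), (nat_lit 12310016)] (nat_lit 5058382)) p15_27_3 (nat_lit 4) (nat_lit 59) (nat_lit 60) = true := by decide +kernel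
def p15_27_3_60 : pfC (piC [(nat_lit 36888796), (nat_lit 24534081), (nat_lit 18263511), (nat_lit 12310016)] (nat_lit 5058382)) p15_27_3 (nat_lit 4) (nat_lit 60) (nat_lit 61) = true := by decide +kernel
def p15_27_3_61 : pfC (piC [(nat_lit 36888796), (nat_lit 24534081), (nat_lit 18263511), (nat_lit 12310016)] (nat_lit 5058382)) p15_27_3 (nat_lit 4) (nat_lit 61) (nat_lit 62) = true := by decide +kernel
def p15_27_3_62 : pfC (piC [(nat_lit 36888796), (nat_lit 24534081), (nat_lit 18263511), (nat_lit 12310016)] (nat_lit 5058382)) p15_27_3 (nat_lit 4) (nat_lit 62) (nat_lit 63) = true := by decide +kernel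
def p15_27_3_63 : pfC (piC [(nat_lit 36888796), (nat_lit 24534081), (nat_lit 18263511), (nat_lit 12310016)] (nat_lit 5058382)) p15_27_3 (nat_lit 4) (nat_lit 63) (nat_lit 64) = true := by decide +kernel
def p15_27_3_64 : pfC (piC [(nat_lit 36888796), (nat_lit 24534081), (nat_lit 18263511), (nat_lit 12310016)] (nat_lit 5058382)) p15_27_3 (nat_lit 4) (nat_lit 64) (nat_lit 65) = true := by decide +kernel
def p15_27_3_65 : pfC (piC [(nat_lit 36888796), (nat_lit 24534081), (nat_lit 18263511), (nat_lit 12310016)] (nat_lit 5058382)) p15_27_3 (nat_lit 4) (nat_lit 65) (nat_lit 66) = true := by decide +kernel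
def p15_27_3_66 : pfC (piC [(nat_lit 36888796), (nat_lit 24534081), (nat_lit 18263511), (nat_lit 12310016)] (nat_lit 5058382)) p15_27_3 (nat_lit 4) (nat_lit 66) (nat_lit 67) = true := by decide +kernel
def p15_27_3_67 : pfC (piC [(nat_lit 36888796), (nat_lit 24534081), (nat_lit 18263511), (nat_lit 12310016)] (nat_lit 5058382)) p15_27_3 (nat_lit 4) (nat_lit 67) (nat_lit 68) = true := by decide +kernel
def p15_27_3_68 : pfC (piC [(nat_lit 36888796), (nat_lit 24534081), (nat_lit 18263511), (nat_lit 12310016)] (nat_lit 5058382)) p15_27_3 (nat_lit 4) (nat_lit 68) (nat_lit 69) = true := by decide +kernel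
def p15_27_3_69 : pfC (piC [(nat_lit 36888796), (nat_lit 24534081), (nat_lit 18263511), (nat_lit 12310016)] (nat_lit 5058382)) p15_27_3 (nat_lit 4) (nat_lit 69) (nat_lit 70) = true := by decide +kernel
def p15_27_3_70 : pfC (piC [(nat_lit 36888796), (nat_lit 24534081), (nat_lit 18263511), (nat_lit 12310016)] (nat_lit 5058382)) p15_27_3 (nat_lit 4) (nat_lit 70) (nat_lit 71) = true := by decide +kernel
def p15_27_3_71 : pfC (piC [(nat_lit 36888796), (nat_lit 24534081), (nat_lit 18263511), (nat_lit 12310016)] (nat_lit 5058382)) p15_27_3 (nat_lit 4) (nat_lit 71) (nat_lit 72) = true := by decide +kernel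
def p15_27_3_72 : pfC (piC [(nat_lit 36888796), (nat_lit 24534081), (nat_lit 18263511), (nat_lit 12310016)] (nat_lit 5058382)) p15_27_3 (nat_lit 4) (nat_lit 72) (nat_lit 73) = true := by decide +kernel
def p15_27_3_73 : pfC (piC [(nat_lit 36888796), (nat_lit 24534081), (nat_lit 18263511), (nat_lit 12310016)] (nat_lit 5058382)) p15_27_3 (nat_lit 4) (nat_lit 73) (nat_lit 74) = true := by decide +kernel
def p15_27_3_74 : pfC (piC [(nat_lit 36888796), (nat_lit 24534081), (nat_lit 18263511), (nat_lit 12310016)] (nat_lit 5058382)) p15_27_3 (nat_lit 4) (nat_lit 74) (nat_lit 75) = true := by decide +kernel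
def p15_27_3_75 : pfC (piC [(nat_lit 36888796), (nat_lit 24534081), (nat_lit 18263511), (nat_lit 12310016)] (nat_lit 5058382)) p15_27_3 (nat_lit 4) (nat_lit 75) (nat_lit 76) = true := by decide +kernel
def p15_27_3_76 : pfC (piC [(nat_lit 36888796), (nat_lit 24534081), (nat_lit 18263511), (nat_lit 12310016)] (nat_lit 5058382)) p15_27_3 (nat_lit 4) (nat_lit 76) (nat_lit 77) = true := by decide +kernel
def p15_27_3_77 : pfC (piC [(nat_lit 36888796), (nat_lit 24534081), (nat_lit 18263511), (nat_lit 12310016)] (nat_lit 5058382)) p15_27_3 (nat_lit 4) (nat_lit 77) (nat_lit 78) = true := by decide +kernel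
def p15_27_3_78 : pfC (piC [(nat_lit 36888796), (nat_lit 24534081), (nat_lit 18263511), (nat_lit 12310016)] (nat_lit 5058382)) p15_27_3 (nat_lit 4) (nat_lit 78) (nat_lit 79) = true := by decide +kernel
def p15_27_3_79 : pfC (piC [(nat_lit 36888796), (nat_lit 24534081), (nat_lit 18263511), (nat_lit 12310016)] (nat_lit 5058382)) p15_27_3 (nat_lit 4) (nat_lit 79) (nat_lit 80) = true := by decide +kernel
def p15_27_3_80 : pfC (piC [(nat_lit 36888796), (nat_lit 24534081), (nat_lit 18263511), (nat_lit 12310016)] (nat_lit 5058382)) p15_27_3 (nat_lit 4) (nat_lit 80) (nat_lit 81) = true := by decide +kernel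
def p15_27_3_81 : pfC (piC [(nat_lit 36888796), (nat_lit 24534081), (nat_lit 18263511), (nat_lit 12310016)] (nat_lit 5058382)) p15_27_3 (nat_lit 4) (nat_lit 81) (nat_lit 82) = true := by decide +kernel
def p15_27_3_82 : pfC (piC [(nat_lit 36888796), (nat_lit 24534081), (nat_lit 18263511), (nat_lit 12310016)] (nat_lit 5058382)) p15_27_3 (nat_lit 4) (nat_lit 82) (nat_lit 83) = true := by decide +kernel
def p15_27_3_83 : pfC (piC [(nat_lit 36888796), (nat_lit 24534081), (nat_lit 18263511), (nat_lit 12310016)] (nat_lit 5058382)) p15_27_3 (nat_lit 4) (nat_lit 83) (nat_lit 84) = true := by decide +kernel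
def p15_27_3_84 : pfC (piC [(nat_lit 36888796), (nat_lit 24534081), (nat_lit 18263511), (nat_lit 12310016)] (nat_lit 5058382)) p15_27_3 (nat_lit 4) (nat_lit 84) (nat_lit 85) = true := by decide +kernel
def p15_27_3_85 : pfC (piC [(nat_lit 36888796), (nat_lit 24534081), (nat_lit 18263511), (nat_lit 12310016)] (nat_lit 5058382)) p15_27_3 (nat_lit 4) (nat_lit 85) (nat_lit 86) = true := by decide +kernel
def p15_27_3_86 : pfC (piC [(nat_lit 36888796), (nat_lit 24534081), (nat_lit 18263511), (nat_lit 12310016)] (nat_lit 5058382)) p15_27_3 (nat_lit 4) (nat_lit 86) (nat_lit 87) = true := by decide +kernel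
def p15_27_3_87 : pfC (piC [(nat_lit 36888796), (nat_lit 24534081), (nat_lit 18263511), (nat_lit 12310016)] (nat_lit 5058382)) p15_27_3 (nat_lit 4) (nat_lit 87) (nat_lit 88) = true := by decide +kernel
def p15_27_3_88 : pfC (piC [(nat_lit 36888796), (nat_lit 24534081), (nat_lit 18263511), (nat_lit 12310016)] (nat_lit 5058382)) p15_27_3 (nat_lit 4) (nat_lit 88) (nat_lit 89) = true := by decide +kernel
def p15_27_3_89 : pfC (piC [(nat_lit 36888796), (nat_lit 24534081), (nat_lit 18263511), (nat_lit 12310016)] (nat_lit 5058382)) p15_27_3 (nat_lit 4) (nat_lit 89) (nat_lit 90) = true := by decide +kernel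
def p15_27_3_90 : pfC (piC [(nat_lit 36888796), (nat_lit 24534081), (nat_lit 18263511), (nat_lit 12310016)] (nat_lit 5058382)) p15_27_3 (nat_lit 4) (nat_lit 90) (nat_lit 91) = true := by decide +kernel
def p15_27_3_91 : pfC (piC [(nat_lit 36888796), (nat_lit 24534081), (nat_lit 18263511), (nat_lit 12310016)] (nat_lit 5058382)) p15_27_3 (nat_lit 4) (nat_lit 91) (nat_lit 92) = true := by decide +kernel
def p15_27_3_92 : pfC (piC [(nat_lit 36888796), (nat_lit 24534081), (nat_lit 18263511), (nat_lit 12310016)] (nat_lit 5058382)) p15_27_3 (nat_lit 4) (nat_lit 92) (nat_lit 93) = true := by decide +kernel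
def p15_27_3_93 : pfC (piC [(nat_lit 36888796), (nat_lit 24534081), (nat_lit 18263511), (nat_lit 12310016)] (nat_lit 5058382)) p15_27_3 (nat_lit 4) (nat_lit 93) (nat_lit 94) = true := by decide +kernel
def p15_27_3_94 : pfC (piC [(nat_lit 36888796), (nat_lit 24534081), (nat_lit 18263511), (nat_lit 12310016)] (nat_lit 5058382)) p15_27_3 (nat_lit 4) (nat_lit 94) (nat_lit 95) = true := by decide +kernel
def p15_27_3_95 : pfC (piC [(nat_lit 36888796), (nat_lit 24534081), (nat_lit 18263511), (nat_lit 12310016)] (nat_lit 5058382)) p15_27_3 (nat_lit 4) (nat_lit 95) (nat_lit 96) = true := by decide +kernel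
def p15_27_3_96 : pfC (piC [(nat_lit 36888796), (nat_lit 24534081), (nat_lit 18263511), (nat_lit 12310016)] (nat_lit 5058382)) p15_27_3 (nat_lit 4) (nat_lit 96) (nat_lit 97) = true := by decide +kernel
def p15_27_3_97 : pfC (piC [(nat_lit 36888796), (nat_lit 24534081), (nat_lit 18263511), (nat_lit 12310016)] (nat_lit 5058382)) p15_27_3 (nat_lit 4) (nat_lit 97) (nat_lit 98) = true := by decide +kernel
def p15_27_3_98 : pfC (piC [(nat_lit 36888796), (nat_lit 24534081), (nat_lit 18263511), (nat_lit 12310016)] (nat_lit 5058382)) p15_27_3 (nat_lit 4) (nat_lit 98) (nat_lit 99) = true := by decide +kernel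
def p15_27_3_99 : pfC (piC [(nat_lit 36888796), (nat_lit 24534081), (nat_lit 18263511), (nat_lit 12310016)] (nat_lit 5058382)) p15_27_3 (nat_lit 4) (nat_lit 99) (nat_lit 100) = true := by decide +kernel
def p15_27_3_100 : pfC (piC [(nat_lit 36888796), (nat_lit 24534081), (nat_lit 18263511), (nat_lit 12310016)] (nat_lit 5058382)) p15_27_3 (nat_lit 4) (nat_lit 100) (nat_lit 101) = true := by decide +kernel
def p15_27_3_101 : pfC (piC [(nat_lit 36888796), (nat_lit 24534081), (nat_lit 18263511), (nat_lit 12310016)] (nat_lit 5058382)) p15_27_3 (nat_lit 4) (nat_lit 101) (nat_lit 102) = true := by decide +kernel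
def p15_27_3_102 : pfC (piC [(nat_lit 36888796), (nat_lit 24534081), (nat_lit 18263511), (nat_lit 12310016)] (nat_lit 5058382)) p15_27_3 (nat_lit 4) (nat_lit 102) (nat_lit 103) = true := by decide +kernel
def p15_27_3_103 : pfC (piC [(nat_lit 36888796), (nat_lit 24534081), (nat_lit 18263511), (nat_lit 12310016)] (nat_lit 5058382)) p15_27_3 (nat_lit 4) (nat_lit 103) (nat_lit 104) = true := by decide +kernel
def p15_27_3_104 : pfC (piC [(nat_lit 36888796), (nat_lit 24534081), (nat_lit 18263511), (nat_lit 12310016)] (nat_lit 5058382)) p15_27_3 (nat_lit 4) (nat_lit 104) (nat_lit 105) = true := by decide +kernel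
def p15_27_3_105 : pfC (piC [(nat_lit 36888796), (nat_lit 24534081), (nat_lit 18263511), (nat_lit 12310016)] (nat_lit 5058382)) p15_27_3 (nat_lit 4) (nat_lit 105) (nat_lit 106) = true := by decide +kernel
def p15_27_3_106 : pfC (piC [(nat_lit 36888796), (nat_lit 24534081), (nat_lit 18263511), (nat_lit 12310016)] (nat_lit 5058382)) p15_27_3 (nat_lit 4) (nat_lit 106) (nat_lit 107) = true := by decide +kernel
def p15_27_3_107 : pfC (piC [(nat_lit 36888796), (nat_lit 24534081), (nat_lit 18263511), (nat_lit 12310016)] (nat_lit 5058382)) p15_27_3 (nat_lit 4) (nat_lit 107) (nat_lit 108) = true := by decide +kernel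
def p15_27_3_108 : pfC (piC [(nat_lit 36888796), (nat_lit 24534081), (nat_lit 18263511), (nat_lit 12310016)] (nat_lit 5058382)) p15_27_3 (nat_lit 4) (nat_lit 108) (nat_lit 109) = true := by decide +kernel
def p15_27_3_109 : pfC (piC [(nat_lit 36888796), (nat_lit 24534081), (nat_lit 18263511), (nat_lit 12310016)] (nat_lit 5058382)) p15_27_3 (nat_lit 4) (nat_lit 109) (nat_lit 110) = true := by decide +kernel
def p15_27_3_110 : pfC (piC [(nat_lit 36888796), (nat_lit 24534081), (nat_lit 18263511), (nat_lit 12310016)] (nat_lit 5058382)) p15_27_3 (nat_lit 4) (nat_lit 110) (nat_lit 111) = true := by decide +kernel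
def p15_27_3_111 : pfC (piC [(nat_lit 36888796), (nat_lit 24534081), (nat_lit 18263511), (nat_lit 12310016)] (nat_lit 5058382)) p15_27_3 (nat_lit 4) (nat_lit 111) (nat_lit 112) = true := by decide +kernel
def p15_27_3_112 : pfC (piC [(nat_lit 36888796), (nat_lit 24534081), (nat_lit 18263511), (nat_lit 12310016)] (nat_lit 5058382)) p15_27_3 (nat_lit 4) (nat_lit 112) (nat_lit 113) = true := by decide +kernel
def p15_27_3_113 : pfC (piC [(nat_lit 36888796), (nat_lit 24534081), (nat_lit 18263511), (nat_lit 12310016)] (nat_lit 5058382)) p15_27_3 (nat_lit 4) (nat_lit 113) (nat_lit 114) = true := by decide +kernel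
def p15_27_3_114 : pfC (piC [(nat_lit 36888796), (nat_lit 24534081), (nat_lit 18263511), (nat_lit 12310016)] (nat_lit 5058382)) p15_27_3 (nat_lit 4) (nat_lit 114) (nat_lit 115) = true := by decide +kernel
def p15_27_3_115 : pfC (piC [(nat_lit 36888796), (nat_lit 24534081), (nat_lit 18263511), (nat_lit 12310016)] (nat_lit 5058382)) p15_27_3 (nat_lit 4) (nat_lit 115) (nat_lit 116) = true := by decide +kernel
def p15_27_3_116 : pfC (piC [(nat_lit 36888796), (nat_lit 24534081), (nat_lit 18263511), (nat_lit 12310016)] (nat_lit 5058382)) p15_27_3 (nat_lit 4) (nat_lit 116) (nat_lit 117) = true := by decide +kernel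
def p15_27_3_117 : pfC (piC [(nat_lit 36888796), (nat_lit 24534081), (nat_lit 18263511), (nat_lit 12310016)] (nat_lit 5058382)) p15_27_3 (nat_lit 4) (nat_lit 117) (nat_lit 118) = true := by decide +kernel
def p15_27_3_118 : pfC (piC [(nat_lit 36888796), (nat_lit 24534081), (nat_lit 18263511), (nat_lit 12310016)] (nat_lit 5058382)) p15_27_3 (nat_lit 4) (nat_lit 118) (nat_lit 119) = true := by decide +kernel
def p15_27_3_119 : pfC (piC [(nat_lit 36888796), (nat_lit 24534081), (nat_lit 18263511), (nat_lit 12310016)] (nat_lit 5058382)) p15_27_3 (nat_lit 4) (nat_lit 119) (nat_lit 120) = true := by decide +kernel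
def p15_27_3_120 : pfC (piC [(nat_lit 36888796), (nat_lit 24534081), (nat_lit 18263511), (nat_lit 12310016)] (nat_lit 5058382)) p15_27_3 (nat_lit 4) (nat_lit 120) (nat_lit 121) = true := by decide +kernel
def p15_27_3_121 : pfC (piC [(nat_lit 36888796), (nat_lit 24534081), (nat_lit 18263511), (nat_lit 12310016)] (nat_lit 5058382)) p15_27_3 (nat_lit 4) (nat_lit 121) (nat_lit 122) = true := by decide +kernel
def p15_27_3_122 : pfC (piC [(nat_lit 36888796), (nat_lit 24534081), (nat_lit 18263511), (nat_lit 12310016)] (nat_lit 5058382)) p15_27_3 (nat_lit 4) (nat_lit 122) (nat_lit 123) = true := by decide +kernel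
def p15_27_3_123 : pfC (piC [(nat_lit 36888796), (nat_lit 24534081), (nat_lit 18263511), (nat_lit 12310016)] (nat_lit 5058382)) p15_27_3 (nat_lit 4) (nat_lit 123) (nat_lit 124) = true := by decide +kernel
def p15_27_3_124 : pfC (piC [(nat_lit 36888796), (nat_lit 24534081), (nat_lit 18263511), (nat_lit 12310016)] (nat_lit 5058382)) p15_27_3 (nat_lit 4) (nat_lit 124) (nat_lit 125) = true := by decide +kernel
def p15_27_3_125 : pfC (piC [(nat_lit 36888796), (nat_lit 24534081), (nat_lit 18263511), (nat_lit 12310016)] (nat_lit 5058382)) p15_27_3 (nat_lit 4) (nat_lit 125) (nat_lit 126) = true := by decide +kernel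
def p15_27_3_126 : pfC (piC [(nat_lit 36888796), (nat_lit 24534081), (nat_lit 18263511), (nat_lit 12310016)] (nat_lit 5058382)) p15_27_3 (nat_lit 4) (nat_lit 126) (nat_lit 127) = true := by decide +kernel
def p15_27_3_127 : pfC (piC [(nat_lit 36888796), (nat_lit 24534081), (nat_lit 18263511), (nat_lit 12310016)] (nat_lit 5058382)) p15_27_3 (nat_lit 4) (nat_lit 127) (nat_lit 128) = true := by decide +kernel
def p15_27_3_128 : pfC (piC [(nat_lit 36888796), (nat_lit 24534081), (nat_lit 18263511), (nat_lit 12310016)] (nat_lit 5058382)) p15_27_3 (nat_lit 4) (nat_lit 128) (nat_lit 129) = true := by decide +kernel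
def p15_27_3_129 : pfC (piC [(nat_lit 36888796), (nat_lit 24534081), (nat_lit 18263511), (nat_lit 12310016)] (nat_lit 5058382)) p15_27_3 (nat_lit 4) (nat_lit 129) (nat_lit 130) = true := by decide +kernel
def p15_27_3_130 : pfC (piC [(nat_lit 36888796), (nat_lit 24534081), (nat_lit 18263511), (nat_lit 12310016)] (nat_lit 5058382)) p15_27_3 (nat_lit 4) (nat_lit 130) (nat_lit 131) = true := by decide +kernel
def p15_27_3_131 : pfC (piC [(nat_lit 36888796), (nat_lit 24534081), (nat_lit 18263511), (nat_lit 12310016)] (nat_lit 5058382)) p15_27_3 (nat_lit 4) (nat_lit 131) (nat_lit 132) = true := by decide +kernel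
def p15_27_3_132 : pfC (piC [(nat_lit 36888796), (nat_lit 24534081), (nat_lit 18263511), (nat_lit 12310016)] (nat_lit 5058382)) p15_27_3 (nat_lit 4) (nat_lit 132) (nat_lit 133) = true := by decide +kernel
def p15_27_3_133 : pfC (piC [(nat_lit 36888796), (nat_lit 24534081), (nat_lit 18263511), (nat_lit 12310016)] (nat_lit 5058382)) p15_27_3 (nat_lit 4) (nat_lit 133) (nat_lit 134) = true := by decide +kernel
def p15_27_3_134 : pfC (piC [(nat_lit 36888796), (nat_lit 24534081), (nat_lit 18263511), (nat_lit 12310016)] (nat_lit 5058382)) p15_27_3 (nat_lit 4) (nat_lit 134) (nat_lit 135) = true := by decide +kernel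
def p15_27_3_135 : pfC (piC [(nat_lit 36888796), (nat_lit 24534081), (nat_lit 18263511), (nat_lit 12310016)] (nat_lit 5058382)) p15_27_3 (nat_lit 4) (nat_lit 135) (nat_lit 136) = true := by decide +kernel
def p15_27_3_136 : pfC (piC [(nat_lit 36888796), (nat_lit 24534081), (nat_lit 18263511), (nat_lit 12310016)] (nat_lit 5058382)) p15_27_3 (nat_lit 4) (nat_lit 136) (nat_lit 137) = true := by decide +kernel
def p15_27_3_137 : pfC (piC [(nat_lit 36888796), (nat_lit 24534081), (nat_lit 18263511), (nat_lit 12310016)] (nat_lit 5058382)) p15_27_3 (nat_lit 4) (nat_lit 137) (nat_lit 138) = true := by decide +kernel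
def p15_27_3_138 : pfC (piC [(nat_lit 36888796), (nat_lit 24534081), (nat_lit 18263511), (nat_lit 12310016)] (nat_lit 5058382)) p15_27_3 (nat_lit 4) (nat_lit 138) (nat_lit 139) = true := by decide +kernel
def p15_27_3_139 : pfC (piC [(nat_lit 36888796), (nat_lit 24534081), (nat_lit 18263511), (nat_lit 12310016)] (nat_lit 5058382)) p15_27_3 (nat_lit 4) (nat_lit 139) (nat_lit 140) = true := by decide +kernel
def p15_27_3_140 : pfC (piC [(nat_lit 36888796), (nat_lit 24534081), (nat_lit 18263511), (nat_lit 12310016)] (nat_lit 5058382)) p15_27_3 (nat_lit 4) (nat_lit 140) (nat_lit 141) = true := by decide +kernel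
def p15_27_3_141 : pfC (piC [(nat_lit 36888796), (nat_lit 24534081), (nat_lit 18263511), (nat_lit 12310016)] (nat_lit 5058382)) p15_27_3 (nat_lit 4) (nat_lit 141) (nat_lit 142) = true := by decide +kernel
def p15_27_3_142 : pfC (piC [(nat_lit 36888796), (nat_lit 24534081), (nat_lit 18263511), (nat_lit 12310016)] (nat_lit 5058382)) p15_27_3 (nat_lit 4) (nat_lit 142) (nat_lit 143) = true := by decide +kernel
def p15_27_3_143 : pfC (piC [(nat_lit 36888796), (nat_lit 24534081), (nat_lit 18263511), (nat_lit 12310016)] (nat_lit 5058382)) p15_27_3 (nat_lit 4) (nat_lit 143) (nat_lit 144) = true := by decide +kernel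
def p15_27_3_144 : pfC (piC [(nat_lit 36888796), (nat_lit 24534081), (nat_lit 18263511), (nat_lit 12310016)] (nat_lit 5058382)) p15_27_3 (nat_lit 4) (nat_lit 144) (nat_lit 145) = true := by decide +kernel
def p15_27_3_145 : pfC (piC [(nat_lit 36888796), (nat_lit 24534081), (nat_lit 18263511), (nat_lit 12310016)] (nat_lit 5058382)) p15_27_3 (nat_lit 4) (nat_lit 145) (nat_lit 146) = true := by decide +kernel
def p15_27_3_146 : pfC (piC [(nat_lit 36888796), (nat_lit 24534081), (nat_lit 18263511), (nat_lit 12310016)] (nat_lit 5058382)) p15_27_3 (nat_lit 4) (nat_lit 146) (nat_lit 147) = true := by decide +kernel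
def p15_27_3_147 : pfC (piC [(nat_lit 36888796), (nat_lit 24534081), (nat_lit 18263511), (nat_lit 12310016)] (nat_lit 5058382)) p15_27_3 (nat_lit 4) (nat_lit 147) (nat_lit 148) = true := by decide +kernel
def p15_27_3_148 : pfC (piC [(nat_lit 36888796), (nat_lit 24534081), (nat_lit 18263511), (nat_lit 12310016)] (nat_lit 5058382)) p15_27_3 (nat_lit 4) (nat_lit 148) (nat_lit 149) = true := by decide +kernel
def p15_27_3_149 : pfC (piC [(nat_lit 36888796), (nat_lit 24534081), (nat_lit 18263511), (nat_lit 12310016)] (nat_lit 5058382)) p15_27_3 (nat_lit 4) (nat_lit 149) (nat_lit 150) = true := by decide +kernel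
def p15_27_3_150 : pfC (piC [(nat_lit 36888796), (nat_lit 24534081), (nat_lit 18263511), (nat_lit 12310016)] (nat_lit 5058382)) p15_27_3 (nat_lit 4) (nat_lit 150) (nat_lit 151) = true := by decide +kernel
def p15_27_3_151 : pfC (piC [(nat_lit 36888796), (nat_lit 24534081), (nat_lit 18263511), (nat_lit 12310016)] (nat_lit 5058382)) p15_27_3 (nat_lit 4) (nat_lit 151) (nat_lit 152) = true := by decide +kernel
def p15_27_3_152 : pfC (piC [(nat_lit 36888796), (nat_lit 24534081), (nat_lit 18263511), (nat_lit 12310016)] (nat_lit 5058382)) p15_27_3 (nat_lit 4) (nat_lit 152) (nat_lit 153) = true := by decide +kernel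
def p15_27_3_153 : pfC (piC [(nat_lit 36888796), (nat_lit 24534081), (nat_lit 18263511), (nat_lit 12310016)] (nat_lit 5058382)) p15_27_3 (nat_lit 4) (nat_lit 153) (nat_lit 154) = true := by decide +kernel
def p15_27_3_154 : pfC (piC [(nat_lit 36888796), (nat_lit 24534081), (nat_lit 18263511), (nat_lit 12310016)] (nat_lit 5058382)) p15_27_3 (nat_lit 4) (nat_lit 154) (nat_lit 155) = true := by decide +kernel
def p15_27_3_155 : pfC (piC [(nat_lit 36888796), (nat_lit 24534081), (nat_lit 18263511), (nat_lit 12310016)] (nat_lit 5058382)) p15_27_3 (nat_lit 4) (nat_lit 155) (nat_lit 156) = true := by decide +kernel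
def p15_27_3_156 : pfC (piC [(nat_lit 36888796), (nat_lit 24534081), (nat_lit 18263511), (nat_lit 12310016)] (nat_lit 5058382)) p15_27_3 (nat_lit 4) (nat_lit 156) (nat_lit 157) = true := by decide +kernel
def p15_27_3_157 : pfC (piC [(nat_lit 36888796), (nat_lit 24534081), (nat_lit 18263511), (nat_lit 12310016)] (nat_lit 5058382)) p15_27_3 (nat_lit 4) (nat_lit 157) (nat_lit 158) = true := by decide +kernel
def p15_27_3_158 : pfC (piC [(nat_lit 36888796), (nat_lit 24534081), (nat_lit 18263511), (nat_lit 12310016)] (nat_lit 5058382)) p15_27_3 (nat_lit 4) (nat_lit 158) (nat_lit 159) = true := by decide +kernel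
def p15_27_3_159 : pfC (piC [(nat_lit 36888796), (nat_lit 24534081), (nat_lit 18263511), (nat_lit 12310016)] (nat_lit 5058382)) p15_27_3 (nat_lit 4) (nat_lit 159) (nat_lit 160) = true := by decide +kernel
def p15_27_3_160 : pfC (piC [(nat_lit 36888796), (nat_lit 24534081), (nat_lit 18263511), (nat_lit 12310016)] (nat_lit 5058382)) p15_27_3 (nat_lit 4) (nat_lit 160) (nat_lit 161) = true := by decide +kernel
def p15_27_3_161 : pfC (piC [(nat_lit 36888796), (nat_lit 24534081), (nat_lit 18263511), (nat_lit 12310016)] (nat_lit 5058382)) p15_27_3 (nat_lit 4) (nat_lit 161) (nat_lit 162) = true := by decide +kernel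
def p15_27_3_162 : pfC (piC [(nat_lit 36888796), (nat_lit 24534081), (nat_lit 18263511), (nat_lit 12310016)] (nat_lit 5058382)) p15_27_3 (nat_lit 4) (nat_lit 162) (nat_lit 163) = true := by decide +kernel
def p15_27_3_163 : pfC (piC [(nat_lit 36888796), (nat_lit 24534081), (nat_lit 18263511), (nat_lit 12310016)] (nat_lit 5058382)) p15_27_3 (nat_lit 4) (nat_lit 163) (nat_lit 164) = true := by decide +kernel
def p15_27_3_164 : pfC (piC [(nat_lit 36888796), (nat_lit 24534081), (nat_lit 18263511), (nat_lit 12310016)] (nat_lit 5058382)) p15_27_3 (nat_lit 4) (nat_lit 164) (nat_lit 165) = true := by decide +kernel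
def p15_27_3_165 : pfC (piC [(nat_lit 36888796), (nat_lit 24534081), (nat_lit 18263511), (nat_lit 12310016)] (nat_lit 5058382)) p15_27_3 (nat_lit 4) (nat_lit 165) (nat_lit 166) = true := by decide +kernel
def p15_27_3_166 : pfC (piC [(nat_lit 36888796), (nat_lit 24534081), (nat_lit 18263511), (nat_lit 12310016)] (nat_lit 5058382)) p15_27_3 (nat_lit 4) (nat_lit 166) (nat_lit 167) = true := by decide +kernel
def p15_27_3_167 : pfC (piC [(nat_lit 36888796), (nat_lit 24534081), (nat_lit 18263511), (nat_lit 12310016)] (nat_lit 5058382)) p15_27_3 (nat_lit 4) (nat_lit 167) (nat_lit 168) = true := by decide +kernel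
def p15_27_3_168 : pfC (piC [(nat_lit 36888796), (nat_lit 24534081), (nat_lit 18263511), (nat_lit 12310016)] (nat_lit 5058382)) p15_27_3 (nat_lit 4) (nat_lit 168) (nat_lit 169) = true := by decide +kernel
def p15_27_3_169 : pfC (piC [(nat_lit 36888796), (nat_lit 24534081), (nat_lit 18263511), (nat_lit 12310016)] (nat_lit 5058382)) p15_27_3 (nat_lit 4) (nat_lit 169) (nat_lit 170) = true := by decide +kernel
def p15_27_3_170 : pfC (piC [(nat_lit 36888796), (nat_lit 24534081), (nat_lit 18263511), (nat_lit 12310016)] (nat_lit 5058382)) p15_27_3 (nat_lit 4) (nat_lit 170) (nat_lit 171) = true := by decide +kernel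
def p15_27_3_171 : pfC (piC [(nat_lit 36888796), (nat_lit 24534081), (nat_lit 18263511), (nat_lit 12310016)] (nat_lit 5058382)) p15_27_3 (nat_lit 4) (nat_lit 171) (nat_lit 172) = true := by decide +kernel
def p15_27_3_172 : pfC (piC [(nat_lit 36888796), (nat_lit 24534081), (nat_lit 18263511), (nat_lit 12310016)] (nat_lit 5058382)) p15_27_3 (nat_lit 4) (nat_lit 172) (nat_lit 173) = true := by decide +kernel
def p15_27_3_173 : pfC (piC [(nat_lit 36888796), (nat_lit 24534081), (nat_lit 18263511), (nat_lit 12310016)] (nat_lit 5058382)) p15_27_3 (nat_lit 4) (nat_lit 173) (nat_lit 174) = true := by decide +kernel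
def p15_27_3_174 : pfC (piC [(nat_lit 36888796), (nat_lit 24534081), (nat_lit 18263511), (nat_lit 12310016)] (nat_lit 5058382)) p15_27_3 (nat_lit 4) (nat_lit 174) (nat_lit 175) = true := by decide +kernel
def p15_27_3_175 : pfC (piC [(nat_lit 36888796), (nat_lit 24534081), (nat_lit 18263511), (nat_lit 12310016)] (nat_lit 5058382)) p15_27_3 (nat_lit 4) (nat_lit 175) (nat_lit 176) = true := by decide +kernel
def p15_27_3_176 : pfC (piC [(nat_lit 36888796), (nat_lit 24534081), (nat_lit 18263511), (nat_lit 12310016)] (nat_lit 5058382)) p15_27_3 (nat_lit 4) (nat_lit 176) (nat_lit 177) = true := by decide +kernel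
def p15_27_3_177 : pfC (piC [(nat_lit 36888796), (nat_lit 24534081), (nat_lit 18263511), (nat_lit 12310016)] (nat_lit 5058382)) p15_27_3 (nat_lit 4) (nat_lit 177) (nat_lit 178) = true := by decide +kernel
def p15_27_3_178 : pfC (piC [(nat_lit 36888796), (nat_lit 24534081), (nat_lit 18263511), (nat_lit 12310016)] (nat_lit 5058382)) p15_27_3 (nat_lit 4) (nat_lit 178) (nat_lit 179) = true := by decide +kernel
def p15_27_3_179 : pfC (piC [(nat_lit 36888796), (nat_lit 24534081), (nat_lit 18263511), (nat_lit 12310016)] (nat_lit 5058382)) p15_27_3 (nat_lit 4) (nat_lit 179) (nat_lit 180) = true := by decide +kernel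
def p15_27_3_180 : pfC (piC [(nat_lit 36888796), (nat_lit 24534081), (nat_lit 18263511), (nat_lit 12310016)] (nat_lit 5058382)) p15_27_3 (nat_lit 4) (nat_lit 180) (nat_lit 181) = true := by decide +kernel
def p15_27_3_181 : pfC (piC [(nat_lit 36888796), (nat_lit 24534081), (nat_lit 18263511), (nat_lit 12310016)] (nat_lit 5058382)) p15_27_3 (nat_lit 4) (nat_lit 181) (nat_lit 182) = true := by decide +kernel
def p15_27_3_182 : pfC (piC [(nat_lit 36888796), (nat_lit 24534081), (nat_lit 18263511), (nat_lit 12310016)] (nat_lit 5058382)) p15_27_3 (nat_lit 4) (nat_lit 182) (nat_lit 183) = true := by decide +kernel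
def p15_27_3_183 : pfC (piC [(nat_lit 36888796), (nat_lit 24534081), (nat_lit 18263511), (nat_lit 12310016)] (nat_lit 5058382)) p15_27_3 (nat_lit 4) (nat_lit 183) (nat_lit 184) = true := by decide +kernel
def p15_27_3_184 : pfC (piC [(nat_lit 36888796), (nat_lit 24534081), (nat_lit 18263511), (nat_lit 12310016)] (nat_lit 5058382)) p15_27_3 (nat_lit 4) (nat_lit 184) (nat_lit 185) = true := by decide +kernel
def p15_27_3_185 : pfC (piC [(nat_lit 36888796), (nat_lit 24534081), (nat_lit 18263511), (nat_lit 12310016)] (nat_lit 5058382)) p15_27_3 (nat_lit 4) (nat_lit 185) (nat_lit 186) = true := by decide +kernel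
def p15_27_3_186 : pfC (piC [(nat_lit 36888796), (nat_lit 24534081), (nat_lit 18263511), (nat_lit 12310016)] (nat_lit 5058382)) p15_27_3 (nat_lit 4) (nat_lit 186) (nat_lit 187) = true := by decide +kernel
def p15_27_3_187 : pfC (piC [(nat_lit 36888796), (nat_lit 24534081), (nat_lit 18263511), (nat_lit 12310016)] (nat_lit 5058382)) p15_27_3 (nat_lit 4) (nat_lit 187) (nat_lit 188) = true := by decide +kernel
def p15_27_3_188 : pfC (piC [(nat_lit 36888796), (nat_lit 24534081), (nat_lit 18263511), (nat_lit 12310016)] (nat_lit 5058382)) p15_27_3 (nat_lit 4) (nat_lit 188) (nat_lit 189) = true := by decide +kernel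
def p15_27_3_189 : pfC (piC [(nat_lit 36888796), (nat_lit 24534081), (nat_lit 18263511), (nat_lit 12310016)] (nat_lit 5058382)) p15_27_3 (nat_lit 4) (nat_lit 189) (nat_lit 190) = true := by decide +kernel
def p15_27_3_190 : pfC (piC [(nat_lit 36888796), (nat_lit 24534081), (nat_lit 18263511), (nat_lit 12310016)] (nat_lit 5058382)) p15_27_3 (nat_lit 4) (nat_lit 190) (nat_lit 191) = true := by decide +kernel
def p15_27_3_191 : pfC (piC [(nat_lit 36888796), (nat_lit 24534081), (nat_lit 18263511), (nat_lit 12310016)] (nat_lit 5058382)) p15_27_3 (nat_lit 4) (nat_lit 191) (nat_lit 192) = true := by decide +kernel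
def p15_27_3_192 : pfC (piC [(nat_lit 36888796), (nat_lit 24534081), (nat_lit 18263511), (nat_lit 12310016)] (nat_lit 5058382)) p15_27_3 (nat_lit 4) (nat_lit 192) (nat_lit 193) = true := by decide +kernel
def p15_27_3_193 : pfC (piC [(nat_lit 36888796), (nat_lit 24534081), (nat_lit 18263511), (nat_lit 12310016)] (nat_lit 5058382)) p15_27_3 (nat_lit 4) (nat_lit 193) (nat_lit 194) = true := by decide +kernel
def p15_27_3_194 : pfC (piC [(nat_lit 36888796), (nat_lit 24534081), (nat_lit 18263511), (nat_lit 12310016)] (nat_lit 5058382)) p15_27_3 (nat_lit 4) (nat_lit 194) (nat_lit 195) = true := by decide +kernel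
def p15_27_3_195 : pfC (piC [(nat_lit 36888796), (nat_lit 24534081), (nat_lit 18263511), (nat_lit 12310016)] (nat_lit 5058382)) p15_27_3 (nat_lit 4) (nat_lit 195) (nat_lit 196) = true := by decide +kernel
def p15_27_3_196 : pfC (piC [(nat_lit 36888796), (nat_lit 24534081), (nat_lit 18263511), (nat_lit 12310016)] (nat_lit 5058382)) p15_27_3 (nat_lit 4) (nat_lit 196) (nat_lit 197) = true := by decide +kernel
def p15_27_3_197 : pfC (piC [(nat_lit 36888796), (nat_lit 24534081), (nat_lit 18263511), (nat_lit 12310016)] (nat_lit 5058382)) p15_27_3 (nat_lit 4) (nat_lit 197) (nat_lit 198) = true := by decide +kernel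
def p15_27_3_198 : pfC (piC [(nat_lit 36888796), (nat_lit 24534081), (nat_lit 18263511), (nat_lit 12310016)] (nat_lit 5058382)) p15_27_3 (nat_lit 4) (nat_lit 198) (nat_lit 199) = true := by decide +kernel
def p15_27_3_199 : pfC (piC [(nat_lit 36888796), (nat_lit 24534081), (nat_lit 18263511), (nat_lit 12310016)] (nat_lit 5058382)) p15_27_3 (nat_lit 4) (nat_lit 199) (nat_lit 200) = true := by decide +kernel
def p15_27_3_200 : pfC (piC [(nat_lit 36888796), (nat_lit 24534081), (nat_lit 18263511), (nat_lit 12310016)] (nat_lit 5058382)) p15_27_3 (nat_lit 4) (nat_lit 200) (nat_lit 201) = true := by decide +kernel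
def p15_27_3_201 : pfC (piC [(nat_lit 36888796), (nat_lit 24534081), (nat_lit 18263511), (nat_lit 12310016)] (nat_lit 5058382)) p15_27_3 (nat_lit 4) (nat_lit 201) (nat_lit 202) = true := by decide +kernel
def p15_27_3_202 : pfC (piC [(nat_lit 36888796), (nat_lit 24534081), (nat_lit 18263511), (nat_lit 12310016)] (nat_lit 5058382)) p15_27_3 (nat_lit 4) (nat_lit 202) (nat_lit 203) = true := by decide +kernel
def p15_27_3_203 : pfC (piC [(nat_lit 36888796), (nat_lit 24534081), (nat_lit 18263511), (nat_lit 12310016)] (nat_lit 5058382)) p15_27_3 (nat_lit 4) (nat_lit 203) (nat_lit 204) = true := by decide +kernel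
def p15_27_3_204 : pfC (piC [(nat_lit 36888796), (nat_lit 24534081), (nat_lit 18263511), (nat_lit 12310016)] (nat_lit 5058382)) p15_27_3 (nat_lit 4) (nat_lit 204) (nat_lit 205) = true := by decide +kernel
def p15_27_3_205 : pfC (piC [(nat_lit 36888796), (nat_lit 24534081), (nat_lit 18263511), (nat_lit 12310016)] (nat_lit 5058382)) p15_27_3 (nat_lit 4) (nat_lit 205) (nat_lit 206) = true := by decide +kernel
def p15_27_3_206 : pfC (piC [(nat_lit 36888796), (nat_lit 24534081), (nat_lit 18263511), (nat_lit 12310016)] (nat_lit 5058382)) p15_27_3 (nat_lit 4) (nat_lit 206) (nat_lit 207) = true := by decide +kernel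
def p15_27_3_207 : pfC (piC [(nat_lit 36888796), (nat_lit 24534081), (nat_lit 18263511), (nat_lit 12310016)] (nat_lit 5058382)) p15_27_3 (nat_lit 4) (nat_lit 207) (nat_lit 208) = true := by decide +kernel
def p15_27_3_208 : pfC (piC [(nat_lit 36888796), (nat_lit 24534081), (nat_lit 18263511), (nat_lit 12310016)] (nat_lit 5058382)) p15_27_3 (nat_lit 4) (nat_lit 208) (nat_lit 209) = true := by decide +kernel
def p15_27_3_209 : pfC (piC [(nat_lit 36888796), (nat_lit 24534081), (nat_lit 18263511), (nat_lit 12310016)] (nat_lit 5058382)) p15_27_3 (nat_lit 4) (nat_lit 209) (nat_lit 210) = true := by decide +kernel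
def p15_27_3_210 : pfC (piC [(nat_lit 36888796), (nat_lit 24534081), (nat_lit 18263511), (nat_lit 12310016)] (nat_lit 5058382)) p15_27_3 (nat_lit 4) (nat_lit 210) (nat_lit 211) = true := by decide +kernel
def p15_27_3_211 : pfC (piC [(nat_lit 36888796), (nat_lit 24534081), (nat_lit 18263511), (nat_lit 12310016)] (nat_lit 5058382)) p15_27_3 (nat_lit 4) (nat_lit 211) (nat_lit 212) = true := by decide +kernel
def p15_27_3_212 : pfC (piC [(nat_lit 36888796), (nat_lit 24534081), (nat_lit 18263511), (nat_lit 12310016)] (nat_lit 5058382)) p15_27_3 (nat_lit 4) (nat_lit 212) (nat_lit 213) = true := by decide +kernel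
def p15_27_3_213 : pfC (piC [(nat_lit 36888796), (nat_lit 24534081), (nat_lit 18263511), (nat_lit 12310016)] (nat_lit 5058382)) p15_27_3 (nat_lit 4) (nat_lit 213) (nat_lit 214) = true := by decide +kernel
def p15_27_3_214 : pfC (piC [(nat_lit 36888796), (nat_lit 24534081), (nat_lit 18263511), (nat_lit 12310016)] (nat_lit 5058382)) p15_27_3 (nat_lit 4) (nat_lit 214) (nat_lit 215) = true := by decide +kernel
def p15_27_3_215 : pfC (piC [(nat_lit 36888796), (nat_lit 24534081), (nat_lit 18263511), (nat_lit 12310016)] (nat_lit 5058382)) p15_27_3 (nat_lit 4) (nat_lit 215) (nat_lit 216) = true := by decide +kernel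
theorem p15_27_3_T : PfS (PiF n15_27.reverse (nat_lit 5058382)) p15_27_3 (nat_lit 4) [] 0 :=
  pftab_of (los := [(nat_lit 36888796), (nat_lit 24534081), (nat_lit 18263511), (nat_lit 12310016)]) (by decide +kernel) (hi := (nat_lit 216)) (PfP.trans (PfP.trans (PfP.trans (PfP.trans (PfP.trans (PfP.trans (PfP.trans (PfP.trans (PfP.trans (PfP.trans (PfP.trans (PfP.trans (PfP.trans (PfP.trans (PfP.trans (PfP.trans (PfP.trans (PfP.trans (PfP.trans (PfP.trans (PfP.trans (PfP.trans (PfP.trans (PfP.trans (PfP.trans (PfP.trans (PfP.trans (PfP.trans (PfP.trans (PfP.trans (PfP.trans (PfP.trans (PfP.trans (PfP.trans (PfP.trans (PfP.trans (PfP.trans (PfP.trans (PfP.trans (PfP.trans (PfP.trans (PfP.trans (PfP.trans (PfP.trans (PfP.trans (PfP.trans (PfP.trans (PfP.trans (PfP.trans (PfP.trans (PfP.trans (PfP.trans (PfP.trans (PfP.trans (PfP.trans (PfP.trans (PfP.trans (PfP.trans (PfP.trans (PfP.trans (PfP.trans (PfP.trans (PfP.trans (PfP.trans (PfP.trans (PfP.trans (PfP.trans (PfP.trans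 (PfP.trans (PfP.trans (PfP.trans (PfP.trans (PfP.trans (PfP.trans (PfP.trans (PfP.trans (PfP.trans (PfP.trans (PfP.trans (PfP.trans (PfP.trans (PfP.trans (PfP.trans (PfP.trans (PfP.trans (PfP.trans (PfP.trans (PfP.trans (PfP.trans (PfP.trans (PfP.trans (PfP.trans (PfP.trans (PfP.trans (PfP.trans (PfP.trans (PfP.trans (PfP.trans (PfP.trans (PfP.trans (PfP.trans (PfP.trans (PfP.trans (PfP.trans (PfP.trans (PfP.trans (PfP.trans (PfP.trans (PfP.trans
 (PfP.trans (PfP.trans (PfP.trans (PfP.trans (PfP.trans (PfP.trans (PfP.trans (PfP.trans (PfP.trans (PfP.trans (PfP.trans (PfP.trans (PfP.trans (PfP.trans (PfP.trans (PfP.trans (PfP.trans (PfP.trans (PfP.trans (PfP.trans (PfP.trans (PfP.trans (PfP.trans (PfP.trans (PfP.trans (PfP.trans (PfP.trans (PfP.trans (PfP.trans (PfP.trans (PfP.trans (PfP.trans (PfP.trans (PfP.trans (PfP.trans (PfP.trans (PfP.trans (PfP.trans (PfP.trans (PfP.trans (PfP.trans (PfP.trans (PfP.trans (PfP.trans (PfP.trans (PfP.trans (PfP.trans (PfP.trans (PfP.trans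 (PfP.trans (PfP.trans (PfP.trans (PfP.trans (PfP.trans (PfP.trans (PfP.trans (PfP.trans (PfP.trans (PfP.trans (PfP.trans (PfP.trans (PfP.trans (PfP.trans (PfP.trans (PfP.trans (PfP.trans (PfP.trans (PfP.trans (PfP.trans (PfP.trans (PfP.trans (PfP.trans (PfP.trans (PfP.trans (PfP.trans (PfP.trans (PfP.trans (PfP.trans (PfP.trans (PfP.trans (PfP.trans (PfP.trans (PfP.trans (PfP.trans (PfP.trans (PfP.trans (PfP.trans (PfP.trans (PfP.trans (PfP.trans (PfP.trans (PfP.trans (PfP.trans (PfP.trans (PfP.trans (PfP.trans (PfP.trans (PfP.trans (PfP.trans (PfP.trans (PfP.trans (PfP.trans (PfP.trans (PfP.trans (PfP.trans (PfP.trans (pfC_sound p15_27_3_0) (pfC_sound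
 p15_27_3_1)) (pfC_sound p15_27_3_2)) (pfC_sound p15_27_3_3)) (pfC_sound p15_27_3_4)) (pfC_sound p15_27_3_5)) (pfC_sound p15_27_3_6)) (pfC_sound p15_27_3_7)) (pfC_sound p15_27_3_8)) (pfC_sound p15_27_3_9)) (pfC_sound p15_27_3_10)) (pfC_sound p15_27_3_11)) (pfC_sound p15_27_3_12)) (pfC_sound p15_27_3_13)) (pfC_sound p15_27_3_14)) (pfC_sound p15_27_3_15)) (pfC_sound p15_27_3_16)) (pfC_sound p15_27_3_17)) (pfC_sound p15_27_3_18)) (pfC_sound p15_27_3_19)) (pfC_sound p15_27_3_20)) (pfC_sound p15_27_3_21)) (pfC_sound p15_27_3_22)) (pfC_sound p15_27_3_23)) (pfC_sound p15_27_3_24)) (pfC_sound p15_27_3_25)) (pfC_sound p15_27_3_26)) (pfC_sound p15_27_3_27)) (pfC_sound p15_27_3_28)) (pfC_sound p15_27_3_29)) (pfC_sound p15_27_3_30)) (pfC_sound p15_27_3_31)) (pfC_sound p15_27_3_32)) (pfC_sound p15_27_3_33)) (pfC_sound p15_27_3_34)) (pfC_sound p15_27_3_35)) (pfC_sound p15_27_3_36)) (pfC_sound p15_27_3_37)) (pfC_sound p15_27_3_38)) (pfC_sound p15_27_3_39)) (pfC_sound p15_27_3_40))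 (pfC_sound p15_27_3_41)) (pfC_sound p15_27_3_42)) (pfC_sound p15_27_3_43)) (pfC_sound p15_27_3_44)) (pfC_sound p15_27_3_45)) (pfC_sound p15_27_3_46)) (pfC_sound p15_27_3_47)) (pfC_sound p15_27_3_48)) (pfC_sound
 p15_27_3_49)) (pfC_sound p15_27_3_50)) (pfC_sound p15_27_3_51)) (pfC_sound p15_27_3_52)) (pfC_sound p15_27_3_53)) (pfC_sound p15_27_3_54)) (pfC_sound p15_27_3_55)) (pfC_sound p15_27_3_56)) (pfC_sound p15_27_3_57)) (pfC_sound p15_27_3_58)) (pfC_sound p15_27_3_59)) (pfC_sound p15_27_3_60)) (pfC_sound p15_27_3_61)) (pfC_sound p15_27_3_62)) (pfC_sound p15_27_3_63)) (pfC_sound p15_27_3_64)) (pfC_sound p15_27_3_65)) (pfC_sound p15_27_3_66)) (pfC_sound p15_27_3_67)) (pfC_sound p15_27_3_68)) (pfC_sound p15_27_3_69)) (pfC_sound p15_27_3_70)) (pfC_sound p15_27_3_71)) (pfC_sound p15_27_3_72)) (pfC_sound p15_27_3_73)) (pfC_sound p15_27_3_74)) (pfC_sound p15_27_3_75)) (pfC_sound p15_27_3_76)) (pfC_sound p15_27_3_77)) (pfC_sound p15_27_3_78)) (pfC_sound p15_27_3_79)) (pfC_sound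 p15_27_3_80)) (pfC_sound p15_27_3_81)) (pfC_sound p15_27_3_82)) (pfC_sound p15_27_3_83)) (pfC_sound p15_27_3_84)) (pfC_sound p15_27_3_85)) (pfC_sound p15_27_3_86)) (pfC_sound p15_27_3_87)) (pfC_sound p15_27_3_88)) (pfC_sound p15_27_3_89)) (pfC_sound p15_27_3_90)) (pfC_sound p15_27_3_91)) (pfC_sound p15_27_3_92)) (pfC_sound p15_27_3_93)) (pfC_sound p15_27_3_94)) (pfC_sound p15_27_3_95)) (pfC_sound p15_27_3_96)) (pfC_sound
 p15_27_3_97)) (pfC_sound p15_27_3_98)) (pfC_sound p15_27_3_99)) (pfC_sound p15_27_3_100)) (pfC_sound p15_27_3_101)) (pfC_sound p15_27_3_102)) (pfC_sound p15_27_3_103)) (pfC_sound p15_27_3_104)) (pfC_sound p15_27_3_105)) (pfC_sound p15_27_3_106)) (pfC_sound p15_27_3_107)) (pfC_sound p15_27_3_108)) (pfC_sound p15_27_3_109)) (pfC_sound p15_27_3_110)) (pfC_sound p15_27_3_111)) (pfC_sound p15_27_3_112)) (pfC_sound p15_27_3_113)) (pfC_sound p15_27_3_114)) (pfC_sound p15_27_3_115)) (pfC_sound p15_27_3_116)) (pfC_sound p15_27_3_117)) (pfC_sound p15_27_3_118))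 (pfC_sound p15_27_3_119)) (pfC_sound p15_27_3_120)) (pfC_sound p15_27_3_121)) (pfC_sound p15_27_3_122)) (pfC_sound p15_27_3_123)) (pfC_sound p15_27_3_124)) (pfC_sound p15_27_3_125)) (pfC_sound p15_27_3_126)) (pfC_sound p15_27_3_127)) (pfC_sound p15_27_3_128)) (pfC_sound p15_27_3_129)) (pfC_sound p15_27_3_130)) (pfC_sound p15_27_3_131)) (pfC_sound p15_27_3_132)) (pfC_sound p15_27_3_133)) (pfC_sound p15_27_3_134)) (pfC_sound p15_27_3_135)) (pfC_sound p15_27_3_136)) (pfC_sound p15_27_3_137)) (pfC_sound p15_27_3_138)) (pfC_sound p15_27_3_139)) (pfC_sound p15_27_3_140)) (pfC_sound p15_27_3_141)) (pfC_sound p15_27_3_142)) (pfC_sound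
 p15_27_3_143)) (pfC_sound p15_27_3_144)) (pfC_sound p15_27_3_145)) (pfC_sound p15_27_3_146)) (pfC_sound p15_27_3_147)) (pfC_sound p15_27_3_148)) (pfC_sound p15_27_3_149)) (pfC_sound p15_27_3_150)) (pfC_sound p15_27_3_151)) (pfC_sound p15_27_3_152)) (pfC_sound p15_27_3_153)) (pfC_sound p15_27_3_154)) (pfC_sound p15_27_3_155)) (pfC_sound p15_27_3_156)) (pfC_sound p15_27_3_157)) (pfC_sound p15_27_3_158)) (pfC_sound p15_27_3_159)) (pfC_sound p15_27_3_160)) (pfC_sound p15_27_3_161)) (pfC_sound p15_27_3_162)) (pfC_sound p15_27_3_163)) (pfC_sound p15_27_3_164)) (pfC_sound p15_27_3_165)) (pfC_sound p15_27_3_166)) (pfC_sound p15_27_3_167)) (pfC_sound p15_27_3_168)) (pfC_sound p15_27_3_169)) (pfC_sound p15_27_3_170)) (pfC_sound p15_27_3_171)) (pfC_sound p15_27_3_172)) (pfC_sound p15_27_3_173)) (pfC_sound p15_27_3_174)) (pfC_sound p15_27_3_175)) (pfC_sound p15_27_3_176)) (pfC_sound p15_27_3_177)) (pfC_sound p15_27_3_178)) (pfC_sound p15_27_3_179)) (pfC_sound p15_27_3_180)) (pfC_sound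 p15_27_3_181)) (pfC_sound p15_27_3_182)) (pfC_sound p15_27_3_183)) (pfC_sound p15_27_3_184)) (pfC_sound p15_27_3_185)) (pfC_sound p15_27_3_186)) (pfC_sound p15_27_3_187)) (pfC_sound p15_27_3_188)) (pfC_sound
 p15_27_3_189)) (pfC_sound p15_27_3_190)) (pfC_sound p15_27_3_191)) (pfC_sound p15_27_3_192)) (pfC_sound p15_27_3_193)) (pfC_sound p15_27_3_194)) (pfC_sound p15_27_3_195)) (pfC_sound p15_27_3_196)) (pfC_sound p15_27_3_197)) (pfC_sound p15_27_3_198)) (pfC_sound p15_27_3_199)) (pfC_sound p15_27_3_200)) (pfC_sound p15_27_3_201)) (pfC_sound p15_27_3_202)) (pfC_sound p15_27_3_203)) (pfC_sound p15_27_3_204)) (pfC_sound p15_27_3_205)) (pfC_sound p15_27_3_206)) (pfC_sound p15_27_3_207)) (pfC_sound p15_27_3_208)) (pfC_sound p15_27_3_209)) (pfC_sound p15_27_3_210)) (pfC_sound p15_27_3_211)) (pfC_sound p15_27_3_212)) (pfC_sound p15_27_3_213)) (pfC_sound p15_27_3_214)) (pfC_sound p15_27_3_215)) (by decide +kernel)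

def z15_27_3 : zOK yB15_27 (nat_lit 3) (nat_lit 750) (nat_lit 792) (nat_lit 5058382) (nat_lit 4447260) = true := by decide +kernel
def g15_27_3 : gOK yB15_27.x P15_27 (nat_lit 1413) (q15_27 :: r15_27) (nat_lit 3) (nat_lit 750) (nat_lit 4) (nat_lit 792) (nat_lit 12712500) (nat_lit 12712500) (nat_lit 12712500) (nat_lit 12712500) [(nat_lit 800)] = true := by decide +kernel
def v15_27_3 : ivC P15_27 s15_27 w15_27 n15_27 (nat_lit 4) (nat_lit 4610) (nat_lit 3) (nat_lit 750) f168_1_750 f176_1_750 (nat_lit 4) (nat_lit 792) f168_1_792 f176_1_792 (nat_lit 5058382) (nat_lit 4447260) p15_27_3 = true := by decide +kernel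
end CB
end Pool.Agent.Lib.MP_6947cd_al
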