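import Pool.Agent.Lib.MP_6947cd_al.L.BoxDataB
import Pool.Agent.Lib.MP_6947cd_al.L.TeD5
import Pool.Agent.Lib.MP_6947cd_al.L.TeD6

/-!
Problem MP_6947cd_al (Chollet).  CASE B, rows `j`: boxes (generated).
-/

set_option autoImplicit false
set_option linter.defProp false
set_option maxRecDepth 20000

namespace Pool.Agent.Lib.MP_6947cd_al
namespace CB

open Ent Ent.Pk Fr Fr.WT CA

/-! box `yB15_28` -/

def P15_28 : BQ := ⟨(nat_lit 8), (nat_lit 6), (nat_lit 2), (nat_lit 4), (nat_lit 4), (nat_lit 850), (nat_lit 860), (nat_lit 120), [(nat_lit 200), (nat_lit 300), (nat_lit 450), (nat_lit 800)], (nat_lit 128032000), (nat_lit 16000000), (nat_lit 16000000000)⟩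
def q15_28 : PC := ⟨(nat_lit 1000), [(nat_lit 120000), (nat_lit 200000), (nat_lit 300000), (nat_lit 450000), (nat_lit 800000)], (nat_lit 340282367000166625996085689103316680705000000), (nat_lit 15871968000000), (nat_lit 15871968000000), (nat_lit 10000000)⟩
def r15_28 : List PC := [⟨(nat_lit 1253), [(nat_lit 120509), (nat_lit 200783), (nat_lit 300781), (nat_lit 450597), (nat_lit 799333)], (nat_lit 341899048525793132734053538835054186101426775), (nat_lit 16227446221280), (nat_lit 16231810653440), (nat_lit 10042417)⟩, ⟨(nat_lit 1373), [(nat_lit 120772), (nat_lit 201118), (nat_lit 301425), (nat_lit 452540), (nat_lit 801941)], (nat_lit 342668426957581064072560411668756991317069356), (nat_lit 16395709472480), (nat_lit 16402143991040), (nat_lit 10064334)⟩, ⟨(nat_lit 1207), [(nat_lit 120405), (nat_lit 200682), (nat_lit 300518), (nat_lit 450230), (nat_lit 798075)], (nat_lit 341600280607569997106607745825064306581915872), (nat_lit 16162922908320), (nat_lit 16166493807360), (nat_lit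 10034100)⟩]
def s15_28 : List PB := [⟨(nat_lit 25060), (nat_lit 1928144000000), [(nat_lit 200783), (nat_lit 300781), (nat_lit 450597), (nat_lit 799333)], (nat_lit 341899048525793132734053538835054186101426775), (nat_lit 1142127353063904), (nat_lit 1142131717496064), (nat_lit 40480)⟩, ⟨(nat_lit 27460), (nat_lit 1932352000000), [(nat_lit 201118), (nat_lit 301425), (nat_lit 452540), (nat_lit 801941)], (nat_lit 342668426957581064072560411668756991317069356), (nat_lit 1142295616315104), (nat_lit 1142302050833664), (nat_lit 59680)⟩, ⟨(nat_lit 24140), (nat_lit 1926480000000), [(nat_lit 200682), (nat_lit 300518), (nat_lit 450230), (nat_lit 798075)], (nat_lit 341600280607569997106607745825064306581915872), (nat_lit 1142062829750944), (nat_lit 1142066400649984), (nat_lit 33120)⟩]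
def n15_28 : List KN := [⟨(nat_lit 800), (nat_lit 450), (nat_lit 12207801), (nat_lit 6329934)⟩, ⟨(nat_lit 450), (nat_lit 300), (nat_lit 18078890), (nat_lit 12207801)⟩, ⟨(nat_lit 300), (nat_lit 200), (nat_lit 24304186), (nat_lit 18078890)⟩, ⟨(nat_lit 200), (nat_lit 120), (nat_lit 36496589), (nat_lit 24304186)⟩]
def w15_28 : List ℕ := [(nat_lit 40480), (nat_lit 59680), (nat_lit 33120)]
def par15_28 : parC yB15_28 P15_28 s15_28 r15_28 q15_28 n15_28 w15_28 = true := by decide +kernel

def p15_28_0 : PF := (PF.cons (PF.cons (PF.cons (PF.cons (PF.leaf (nat_lit 885640) (nat_lit 2880633) (nat_lit 64228179) (nat_lit 2880633) [(nat_lit 0), (nat_lit 0), (nat_lit 0), (nat_lit 0)]) (PF.cons (PF.leaf (nat_lit 1075325) (nat_lit 314152) (nat_lit 63838329) (nat_lit 2956330) [(nat_lit 314152), (nat_lit 0), (nat_lit 0), (nat_lit 0)]) (PF.cons (PF.leaf (nat_lit 1303763) (nat_lit 347310) (nat_lit 63375594) (nat_lit 3038598) [(nat_lit 347310), (nat_lit 0), (nat_lit 0), (nat_lit 0)]) (PF.cons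 (PF.leaf (nat_lit 1565108) (nat_lit 378176) (nat_lit 62850684) (nat_lit 3123599) [(nat_lit 378176), (nat_lit 0), (nat_lit 0), (nat_lit 0)]) (PF.cons (PF.leaf (nat_lit 1855879) (nat_lit 407139) (nat_lit 62271497) (nat_lit 3208755) [(nat_lit 407139), (nat_lit 0), (nat_lit 0), (nat_lit 0)]) (PF.cons (PF.leaf (nat_lit 2173205) (nat_lit 434399) (nat_lit 61644536) (nat_lit 3292276) [(nat_lit 434399), (nat_lit 0), (nat_lit 0), (nat_lit 0)]) (PF.cons (PF.leaf (nat_lit 2514458) (nat_lit 460066) (nat_lit 60975509) (nat_lit 3372901) [(nat_lit 460066), (nat_lit 0), (nat_lit 0), (nat_lit 0)]) (PF.cons (PF.leaf (nat_lit 2877213) (nat_lit 484207) (nat_lit 60269620) (nat_lit 3449742) [(nat_lit 484207), (nat_lit 0), (nat_lit 0),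
 (nat_lit 0)]) (PF.cons (PF.leaf (nat_lit 3259157) (nat_lit 506865) (nat_lit 59531700) (nat_lit 3522185) [(nat_lit 506865), (nat_lit 0), (nat_lit 0), (nat_lit 0)]) (PF.cons (PF.leaf (nat_lit 3658136) (nat_lit 528079) (nat_lit 58766275) (nat_lit 3589819) [(nat_lit 528079), (nat_lit 0), (nat_lit 0), (nat_lit 0)]) (PF.cons (PF.leaf (nat_lit 4071996) (nat_lit 547882) (nat_lit 57977600) (nat_lit 3652391) [(nat_lit 547882), (nat_lit 0), (nat_lit 0), (nat_lit 0)]) (PF.cons PF.nil (PF.cons PF.nil (PF.cons PF.nil PF.nil)))))))))))))) (PF.cons (PF.cons (PF.leaf (nat_lit 1492794) (nat_lit 1331693) (nat_lit 62638378) (nat_lit 3138741) [(nat_lit 0), (nat_lit 1331693), (nat_lit 0), (nat_lit 0)]) (PF.cons (PF.leaf (nat_lit 1748505) (nat_lit 394031) (nat_lit 62113745) (nat_lit 3214314) [(nat_lit 394031), (nat_lit 1386721), (nat_lit 0), (nat_lit 0)]) (PF.cons (PF.leaf (nat_lit 2035542) (nat_lit 422050) (nat_lit 61532413) (nat_lit 3290894) [(nat_lit 422050), (nat_lit 1441404), (nat_lit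 0), (nat_lit 0)]) (PF.cons (PF.leaf (nat_lit 2349566) (nat_lit 448303) (nat_lit 60902738) (nat_lit 3366474) [(nat_lit 448303), (nat_lit 1494687), (nat_lit 0), (nat_lit 0)]) (PF.cons (PF.leaf (nat_lit 2687550) (nat_lit
 472946) (nat_lit 60231417) (nat_lit 3439687) [(nat_lit 472946), (nat_lit 1545923), (nat_lit 0), (nat_lit 0)]) (PF.cons (PF.leaf (nat_lit 3046836) (nat_lit 496066) (nat_lit 59524196) (nat_lit 3509581) [(nat_lit 496066), (nat_lit 1594703), (nat_lit 0), (nat_lit 0)]) (PF.cons (PF.leaf (nat_lit 3424993) (nat_lit 517723) (nat_lit 58786201) (nat_lit 3575506) [(nat_lit 517723), (nat_lit 1640763), (nat_lit 0), (nat_lit 0)]) (PF.cons (PF.leaf (nat_lit 3819773) (nat_lit 537962) (nat_lit 58022103) (nat_lit 3637023) [(nat_lit 537962), (nat_lit 1683947), (nat_lit 0), (nat_lit 0)]) (PF.cons (PF.leaf (nat_lit 4229052) (nat_lit 556823) (nat_lit 57236200) (nat_lit 3693859) [(nat_lit 556823), (nat_lit 1724166), (nat_lit 0), (nat_lit 0)]) (PF.cons (PF.leaf (nat_lit 4650882)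 (nat_lit 574343) (nat_lit 56432467) (nat_lit 3745863) [(nat_lit 574343), (nat_lit 1761391), (nat_lit 0), (nat_lit 0)]) (PF.cons PF.nil (PF.cons PF.nil PF.nil)))))))))))) (PF.cons (PF.cons (PF.leaf (nat_lit 2219739) (nat_lit 1487689) (nat_lit 60766251) (nat_lit 3367182) [(nat_lit 0), (nat_lit 1487689), (nat_lit 0), (nat_lit 0)]) (PF.cons (PF.leaf (nat_lit 2527745) (nat_lit 460722) (nat_lit 60140529) (nat_lit 3434991) [(nat_lit
 460722), (nat_lit 1536284), (nat_lit 0), (nat_lit 0)]) (PF.cons (PF.leaf (nat_lit 2860825) (nat_lit 484514) (nat_lit 59472071) (nat_lit 3501053) [(nat_lit 484514), (nat_lit 1583329), (nat_lit 0), (nat_lit 0)]) (PF.cons (PF.leaf (nat_lit 3215407) (nat_lit 506749) (nat_lit 58767673) (nat_lit 3564305) [(nat_lit 506749), (nat_lit 1628292), (nat_lit 0), (nat_lit 0)]) (PF.cons (PF.leaf (nat_lit 3588852) (nat_lit 527515) (nat_lit 58033038) (nat_lit 3624031) [(nat_lit 527515), (nat_lit 1670840), (nat_lit 0), (nat_lit 0)]) (PF.cons (PF.leaf (nat_lit 3978741)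 (nat_lit 546873) (nat_lit 57273151) (nat_lit 3679752) [(nat_lit 546873), (nat_lit 1710769), (nat_lit 0), (nat_lit 0)]) (PF.cons (PF.leaf (nat_lit 4382906) (nat_lit 564874) (nat_lit 56492470) (nat_lit 3731167) [(nat_lit 564874), (nat_lit 1747964), (nat_lit 0), (nat_lit 0)]) (PF.cons (PF.leaf (nat_lit 4799337) (nat_lit 581561) (nat_lit 55695030) (nat_lit 3778104) [(nat_lit 581561), (nat_lit 1782372), (nat_lit 0), (nat_lit 0)]) (PF.cons PF.nil (PF.cons PF.nil PF.nil)))))))))) (PF.cons (PF.cons (PF.leaf (nat_lit 3035890) (nat_lit 1618081) (nat_lit 58697138) (nat_lit 3557430) [(nat_lit 0), (nat_lit 1618081), (nat_lit 0), (nat_lit 0)])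
 (PF.cons (PF.leaf (nat_lit 3383916) (nat_lit 516268) (nat_lit 58000206) (nat_lit 3614281) [(nat_lit 516268), (nat_lit 1659352), (nat_lit 0), (nat_lit 0)]) (PF.cons (PF.leaf (nat_lit 3751509) (nat_lit 536262) (nat_lit 57272612) (nat_lit 3668082) [(nat_lit 536262), (nat_lit 1698530), (nat_lit 0), (nat_lit 0)]) (PF.cons (PF.leaf (nat_lit 4135677) (nat_lit 554838) (nat_lit 56519935) (nat_lit 3718295) [(nat_lit 554838), (nat_lit 1735355), (nat_lit 0), (nat_lit 0)]) (PF.cons (PF.leaf (nat_lit 4534097) (nat_lit 572062) (nat_lit 55746959) (nat_lit 3764578) [(nat_lit 572062), (nat_lit 1769675), (nat_lit 0), (nat_lit 0)]) (PF.cons (PF.leaf (nat_lit 4944683) (nat_lit 587991) (nat_lit 54957890) (nat_lit 3806732) [(nat_lit 587991), (nat_lit 1801411), (nat_lit 0), (nat_lit 0)]) (PF.cons (PF.leaf (nat_lit 5365532) (nat_lit 602676) (nat_lit 54156471) (nat_lit 3844663) [(nat_lit 602676), (nat_lit 1830539), (nat_lit 0), (nat_lit 0)]) (PF.cons PF.nil (PF.cons PF.nil PF.nil))))))))) (PF.cons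 (PF.cons (PF.leaf (nat_lit 3914204) (nat_lit 1724010) (nat_lit 56504806) (nat_lit 3707963) [(nat_lit 0), (nat_lit 1724010), (nat_lit 0), (nat_lit 0)]) (PF.cons (PF.leaf (nat_lit 4291335) (nat_lit 561867) (nat_lit
 55762597) (nat_lit 3752922) [(nat_lit 561867), (nat_lit 1757856), (nat_lit 0), (nat_lit 0)]) (PF.cons (PF.leaf (nat_lit 4683254) (nat_lit 578405) (nat_lit 54999938) (nat_lit 3794336) [(nat_lit 578405), (nat_lit 1789431), (nat_lit 0), (nat_lit 0)]) (PF.cons (PF.leaf (nat_lit 5087431) (nat_lit 593653) (nat_lit 54221367) (nat_lit 3831969) [(nat_lit 593653), (nat_lit 1818628), (nat_lit 0), (nat_lit 0)]) (PF.cons (PF.leaf (nat_lit 5501879) (nat_lit 607671) (nat_lit 53430810) (nat_lit 3865702) [(nat_lit 607671), (nat_lit 1845403), (nat_lit 0), (nat_lit 0)]) (PF.cons (PF.leaf (nat_lit 5924811) (nat_lit 620517) (nat_lit 52631711) (nat_lit 3895499) [(nat_lit 620517), (nat_lit 1869754), (nat_lit 0), (nat_lit 0)]) (PF.cons PF.nil PF.nil))))))) (PF.cons (PF.cons (PF.leaf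 (nat_lit 4831372) (nat_lit 1807361) (nat_lit 54251337) (nat_lit 3820670) [(nat_lit 0), (nat_lit 1807361), (nat_lit 0), (nat_lit 0)]) (PF.cons (PF.leaf (nat_lit 5228210) (nat_lit 598560) (nat_lit 53485533) (nat_lit 3854024) [(nat_lit 598560), (nat_lit 1834138), (nat_lit 0), (nat_lit 0)]) (PF.cons (PF.leaf (nat_lit 5635765) (nat_lit 611983) (nat_lit 52707657) (nat_lit 3883797) [(nat_lit 611983), (nat_lit 1858678), (nat_lit 0),
 (nat_lit 0)]) (PF.cons (PF.leaf (nat_lit 6051923) (nat_lit 624247) (nat_lit 51921339) (nat_lit 3909928) [(nat_lit 624247), (nat_lit 1880960), (nat_lit 0), (nat_lit 0)]) (PF.cons PF.nil PF.nil))))) (PF.cons (PF.cons (PF.leaf (nat_lit 5768032) (nat_lit 1870461) (nat_lit 51986919) (nat_lit 3899125) [(nat_lit 0), (nat_lit 1870461), (nat_lit 0), (nat_lit 0)]) (PF.cons (PF.leaf (nat_lit 6176740) (nat_lit 627369) (nat_lit 51214931) (nat_lit 3921808) [(nat_lit 627369), (nat_lit 1890783), (nat_lit 0), (nat_lit 0)]) (PF.cons (PF.leaf (nat_lit 6592787) (nat_lit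 638027) (nat_lit 50437525) (nat_lit 3941125) [(nat_lit 638027), (nat_lit 1909017), (nat_lit 0), (nat_lit 0)]) (PF.cons PF.nil PF.nil)))) (PF.cons (PF.cons (PF.leaf (nat_lit 6708700) (nat_lit 1915828) (nat_lit 49750387) (nat_lit 3947622) [(nat_lit 0), (nat_lit 1915828), (nat_lit 0), (nat_lit 0)]) (PF.cons PF.nil PF.nil)) (PF.cons PF.nil (PF.cons PF.nil (PF.cons PF.nil PF.nil))))))))))) (PF.cons (PF.cons (PF.cons (PF.leaf (nat_lit 2134594) (nat_lit 3368187) (nat_lit 60172710) (nat_lit 3368187) [(nat_lit 0), (nat_lit 0), (nat_lit 3567915), (nat_lit 0)]) (PF.cons (PF.leaf (nat_lit 2409030) (nat_lit 438966) (nat_lit 59612217) (nat_lit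
 3428575) [(nat_lit 438966), (nat_lit 0), (nat_lit 3629053), (nat_lit 0)]) (PF.cons (PF.leaf (nat_lit 2712856) (nat_lit 464985) (nat_lit 58999360) (nat_lit 3489114) [(nat_lit 464985), (nat_lit 0), (nat_lit 3690367), (nat_lit 0)]) (PF.cons (PF.leaf (nat_lit 3041301) (nat_lit 488898) (nat_lit 58343642) (nat_lit 3548233) [(nat_lit 488898), (nat_lit 0), (nat_lit 3750243), (nat_lit 0)]) (PF.cons (PF.leaf (nat_lit 3391057) (nat_lit 510989) (nat_lit 57652377) (nat_lit 3604882) [(nat_lit 510989), (nat_lit 0), (nat_lit 3807597), (nat_lit 0)]) (PF.cons (PF.leaf (nat_lit 3759331) (nat_lit 531436) (nat_lit 56931582) (nat_lit 3658352) [(nat_lit 531436), (nat_lit 0), (nat_lit 3861694), (nat_lit 0)]) (PF.cons (PF.leaf (nat_lit 4143721) (nat_lit 550363) (nat_lit 56186415) (nat_lit 3708171) [(nat_lit 550363), (nat_lit 0), (nat_lit 3912042), (nat_lit 0)]) (PF.cons (PF.leaf (nat_lit 4542009) (nat_lit 567862) (nat_lit 55421409) (nat_lit 3754039) [(nat_lit 567862), (nat_lit 0), (nat_lit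 3958325), (nat_lit 0)]) (PF.cons (PF.leaf (nat_lit 4952195) (nat_lit 584007) (nat_lit 54640607) (nat_lit 3795782) [(nat_lit 584007), (nat_lit 0), (nat_lit 4000361), (nat_lit 0)]) (PF.cons (PF.leaf (nat_lit 5372438)
 (nat_lit 598864) (nat_lit 53847643) (nat_lit 3833322) [(nat_lit 598864), (nat_lit 0), (nat_lit 4038066), (nat_lit 0)]) (PF.cons PF.nil (PF.cons PF.nil PF.nil)))))))))))) (PF.cons (PF.cons (PF.leaf (nat_lit 2891256) (nat_lit 1597247) (nat_lit 58218422) (nat_lit 3545377) [(nat_lit 0), (nat_lit 1597247), (nat_lit 3747765), (nat_lit 0)]) (PF.cons (PF.leaf (nat_lit 3211612) (nat_lit 497962) (nat_lit 57573843) (nat_lit 3598112) [(nat_lit 497962), (nat_lit 1637798), (nat_lit 3801095), (nat_lit 0)]) (PF.cons (PF.leaf (nat_lit 3554674) (nat_lit 519424) (nat_lit 56891958) (nat_lit 3648909) [(nat_lit 519424), (nat_lit 1676660), (nat_lit 3852434), (nat_lit 0)]) (PF.cons (PF.leaf (nat_lit 3916758) (nat_lit 539190) (nat_lit 56179887) (nat_lit 3696959) [(nat_lit 539190),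 (nat_lit 1713441), (nat_lit 3900952), (nat_lit 0)]) (PF.cons (PF.leaf (nat_lit 4295167) (nat_lit 557415) (nat_lit 55443399) (nat_lit 3741737) [(nat_lit 557415), (nat_lit 1747913), (nat_lit 3946101), (nat_lit 0)]) (PF.cons (PF.leaf (nat_lit 4687533) (nat_lit 574211) (nat_lit 54687367) (nat_lit 3782905) [(nat_lit 574211), (nat_lit 1779949), (nat_lit 3987535), (nat_lit 0)]) (PF.cons (PF.leaf (nat_lit 5091759) (nat_lit 589665)
 (nat_lit 53916018) (nat_lit 3820266) [(nat_lit 589665), (nat_lit 1809490), (nat_lit 4025046), (nat_lit 0)]) (PF.cons (PF.leaf (nat_lit 5505993) (nat_lit 603851) (nat_lit 53133071) (nat_lit 3853725) [(nat_lit 603851), (nat_lit 1836524), (nat_lit 4058534), (nat_lit 0)]) (PF.cons PF.nil (PF.cons PF.nil PF.nil)))))))))) (PF.cons (PF.cons (PF.leaf (nat_lit 3720017) (nat_lit 1702675) (nat_lit 56121459) (nat_lit 3688913) [(nat_lit 0), (nat_lit 1702675), (nat_lit 3893088), (nat_lit 0)]) (PF.cons (PF.leaf (nat_lit 4074183) (nat_lit 545929) (nat_lit 55422107)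 (nat_lit 3731751) [(nat_lit 545929), (nat_lit 1736392), (nat_lit 3936241), (nat_lit 0)]) (PF.cons (PF.leaf (nat_lit 4445594) (nat_lit 563566) (nat_lit 54697374) (nat_lit 3771718) [(nat_lit 563566), (nat_lit 1768076), (nat_lit 3976434), (nat_lit 0)]) (PF.cons (PF.leaf (nat_lit 4831302) (nat_lit 579752) (nat_lit 53952757) (nat_lit 3808427) [(nat_lit 579752), (nat_lit 1797551), (nat_lit 4013268), (nat_lit 0)]) (PF.cons (PF.leaf (nat_lit 5229049) (nat_lit 594593) (nat_lit 53192833) (nat_lit 3841646) [(nat_lit 594593), (nat_lit 1824727), (nat_lit 4046504), (nat_lit 0)]) (PF.cons (PF.leaf (nat_lit 5636850) (nat_lit 608175) (nat_lit 52421513)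
 (nat_lit 3871258) [(nat_lit 608175), (nat_lit 1849571), (nat_lit 4076019), (nat_lit 0)]) (PF.cons (PF.leaf (nat_lit 6052939) (nat_lit 620571) (nat_lit 51642199) (nat_lit 3897224) [(nat_lit 620571), (nat_lit 1872093), (nat_lit 4101774), (nat_lit 0)]) (PF.cons PF.nil (PF.cons PF.nil PF.nil))))))))) (PF.cons (PF.cons (PF.leaf (nat_lit 4596219) (nat_lit 1786439) (nat_lit 53947881) (nat_lit 3798339) [(nat_lit 0), (nat_lit 1786439), (nat_lit 4003272), (nat_lit 0)]) (PF.cons (PF.leaf (nat_lit 4974067) (nat_lit 584486) (nat_lit 53217401) (nat_lit 3830808) [(nat_lit 584486), (nat_lit 1813460), (nat_lit 4035735), (nat_lit 0)]) (PF.cons (PF.leaf (nat_lit 5364643) (nat_lit 598800) (nat_lit 52471023) (nat_lit 3860109) [(nat_lit 598800), (nat_lit 1838382), (nat_lit 4064930), (nat_lit 0)]) (PF.cons (PF.leaf (nat_lit 5765532) (nat_lit 611850) (nat_lit 51713016) (nat_lit 3886094) [(nat_lit 611850), (nat_lit 1861149), (nat_lit 4090702), (nat_lit 0)]) (PF.cons (PF.leaf (nat_lit 6174874)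 (nat_lit 623721) (nat_lit 50946983) (nat_lit 3908702) [(nat_lit 623721), (nat_lit 1881750), (nat_lit 4112990), (nat_lit 0)]) (PF.cons PF.nil (PF.cons PF.nil PF.nil))))))) (PF.cons (PF.cons (PF.leaf (nat_lit 5499516)
 (nat_lit 1850555) (nat_lit 51750260) (nat_lit 3875828) [(nat_lit 0), (nat_lit 1850555), (nat_lit 4080501), (nat_lit 0)]) (PF.cons (PF.leaf (nat_lit 5892651) (nat_lit 614880) (nat_lit 51007409) (nat_lit 3898391) [(nat_lit 614880), (nat_lit 1871346), (nat_lit 4102746), (nat_lit 0)]) (PF.cons (PF.leaf (nat_lit 6294800) (nat_lit 626293) (nat_lit 50256094) (nat_lit 3917842) [(nat_lit 626293), (nat_lit 1890127), (nat_lit 4121778), (nat_lit 0)]) (PF.cons (PF.leaf (nat_lit 6703981) (nat_lit 636604) (nat_lit 49499614) (nat_lit 3934166) [(nat_lit 636604), (nat_lit 1906908), (nat_lit 4137583), (nat_lit 0)]) (PF.cons PF.nil PF.nil))))) (PF.cons (PF.cons (PF.leaf (nat_lit 6413519) (nat_lit 1897300) (nat_lit 49569249) (nat_lit 3924782) [(nat_lit 0), (nat_lit 1897300),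 (nat_lit 4128277), (nat_lit 0)]) (PF.cons (PF.leaf (nat_lit 6815130) (nat_lit 638208) (nat_lit 48828482) (nat_lit 3938375) [(nat_lit 638208), (nat_lit 1912495), (nat_lit 4141269), (nat_lit 0)]) (PF.cons (PF.leaf (nat_lit 7222746) (nat_lit 647103) (nat_lit 48084956) (nat_lit 3949097) [(nat_lit 647103), (nat_lit 1925850), (nat_lit 4151298), (nat_lit 0)]) (PF.cons PF.nil PF.nil)))) (PF.cons (PF.cons (PF.leaf (nat_lit 7325428)
 (nat_lit 1929012) (nat_lit 47435086) (nat_lit 3949058) [(nat_lit 0), (nat_lit 1929012), (nat_lit 4150592), (nat_lit 0)]) (PF.cons PF.nil PF.nil)) (PF.cons PF.nil (PF.cons PF.nil PF.nil))))))))) (PF.cons (PF.cons (PF.cons (PF.leaf (nat_lit 3550587) (nat_lit 3671259) (nat_lit 55685923) (nat_lit 3671259) [(nat_lit 0), (nat_lit 0), (nat_lit 3875814), (nat_lit 0)]) (PF.cons (PF.leaf (nat_lit 3878459) (nat_lit 527164) (nat_lit 55037895) (nat_lit 3711449) [(nat_lit 527164), (nat_lit 0), (nat_lit 3916151), (nat_lit 0)]) (PF.cons (PF.leaf (nat_lit 4226927)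 (nat_lit 546493) (nat_lit 54357427) (nat_lit 3749606) [(nat_lit 546493), (nat_lit 0), (nat_lit 3954396), (nat_lit 0)]) (PF.cons (PF.leaf (nat_lit 4592267) (nat_lit 564040) (nat_lit 53651690) (nat_lit 3785130) [(nat_lit 564040), (nat_lit 0), (nat_lit 3989934), (nat_lit 0)]) (PF.cons (PF.leaf (nat_lit 4971781) (nat_lit 580018) (nat_lit 52926335) (nat_lit 3817645) [(nat_lit 580018), (nat_lit 0), (nat_lit 4022379), (nat_lit 0)]) (PF.cons (PF.leaf (nat_lit 5363177) (nat_lit 594574) (nat_lit 52186017) (nat_lit 3846926) [(nat_lit 594574), (nat_lit 0), (nat_lit 4051497), (nat_lit 0)]) (PF.cons (PF.leaf (nat_lit 5764462) (nat_lit 607825) (nat_lit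
 51434670) (nat_lit 3872857) [(nat_lit 607825), (nat_lit 0), (nat_lit 4077166), (nat_lit 0)]) (PF.cons (PF.leaf (nat_lit 6173888) (nat_lit 619863) (nat_lit 50675676) (nat_lit 3895399) [(nat_lit 619863), (nat_lit 0), (nat_lit 4099345), (nat_lit 0)]) (PF.cons PF.nil (PF.cons PF.nil PF.nil)))))))))) (PF.cons (PF.cons (PF.leaf (nat_lit 4381612) (nat_lit 1764402) (nat_lit 53604838) (nat_lit 3776558) [(nat_lit 0), (nat_lit 1764402), (nat_lit 3981506), (nat_lit 0)]) (PF.cons (PF.leaf (nat_lit 4738117) (nat_lit 568494) (nat_lit 52915353) (nat_lit 3807852) [(nat_lit 568494), (nat_lit 1791713), (nat_lit 4012699), (nat_lit 0)]) (PF.cons (PF.leaf (nat_lit 5109881) (nat_lit 584044) (nat_lit 52204885) (nat_lit 3836475) [(nat_lit 584044), (nat_lit 1817081), (nat_lit 4041140), (nat_lit 0)]) (PF.cons (PF.leaf (nat_lit 5494021) (nat_lit 598139) (nat_lit 51478723) (nat_lit 3862161) [(nat_lit 598139), (nat_lit 1840396), (nat_lit 4066555), (nat_lit 0)]) (PF.cons (PF.leaf (nat_lit 5888374)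 (nat_lit 610916) (nat_lit 50741172) (nat_lit 3884765) [(nat_lit 610916), (nat_lit 1861615), (nat_lit 4088796), (nat_lit 0)]) (PF.cons (PF.leaf (nat_lit 6291061) (nat_lit 622483) (nat_lit 49995829) (nat_lit 3904226)
 [(nat_lit 622483), (nat_lit 1880739), (nat_lit 4107800), (nat_lit 0)]) (PF.cons PF.nil (PF.cons PF.nil (PF.cons PF.nil PF.nil))))))))) (PF.cons (PF.cons (PF.leaf (nat_lit 5248395) (nat_lit 1829701) (nat_lit 51482669) (nat_lit 3852589) [(nat_lit 0), (nat_lit 1829701), (nat_lit 4057075), (nat_lit 0)]) (PF.cons (PF.leaf (nat_lit 5624173) (nat_lit 601003) (nat_lit 50772951) (nat_lit 3874871) [(nat_lit 601003), (nat_lit 1851003), (nat_lit 4078989), (nat_lit 0)]) (PF.cons (PF.leaf (nat_lit 6010972) (nat_lit 613388) (nat_lit 50050931) (nat_lit 3894338) [(nat_lit 613388), (nat_lit 1870380), (nat_lit 4098001), (nat_lit 0)]) (PF.cons (PF.leaf (nat_lit 6406508) (nat_lit 624550) (nat_lit 49320577) (nat_lit 3910906) [(nat_lit 624550), (nat_lit 1887812), (nat_lit 4114025),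 (nat_lit 0)]) (PF.cons (PF.leaf (nat_lit 6809017) (nat_lit 634589) (nat_lit 48585170) (nat_lit 3924558) [(nat_lit 634589), (nat_lit 1903315), (nat_lit 4127046), (nat_lit 0)]) (PF.cons PF.nil (PF.cons PF.nil PF.nil))))))) (PF.cons (PF.cons (PF.leaf (nat_lit 6133205) (nat_lit 1877940) (nat_lit 49363442) (nat_lit 3901710) [(nat_lit 0), (nat_lit 1877940), (nat_lit 4104919), (nat_lit 0)]) (PF.cons (PF.leaf (nat_lit 6520778)
 (nat_lit 626064) (nat_lit 48649588) (nat_lit 3915561) [(nat_lit 626064), (nat_lit 1893767), (nat_lit 4118148), (nat_lit 0)]) (PF.cons (PF.leaf (nat_lit 6915988) (nat_lit 635760) (nat_lit 47929993) (nat_lit 3926713) [(nat_lit 635760), (nat_lit 1907797), (nat_lit 4128596), (nat_lit 0)]) (PF.cons (PF.leaf (nat_lit 7316984) (nat_lit 644417) (nat_lit 47207640) (nat_lit 3935185) [(nat_lit 644417), (nat_lit 1920056), (nat_lit 4136283), (nat_lit 0)]) (PF.cons PF.nil PF.nil))))) (PF.cons (PF.cons (PF.leaf (nat_lit 7022167) (nat_lit 1911306) (nat_lit 47279813)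 (nat_lit 3927117) [(nat_lit 0), (nat_lit 1911306), (nat_lit 4128328), (nat_lit 0)]) (PF.cons (PF.leaf (nat_lit 7415609) (nat_lit 644806) (nat_lit 46573784) (nat_lit 3933444) [(nat_lit 644806), (nat_lit 1922289), (nat_lit 4133810), (nat_lit 0)]) (PF.cons PF.nil (PF.cons PF.nil PF.nil)))) (PF.cons (PF.cons (PF.leaf (nat_lit 7904671) (nat_lit 1931942) (nat_lit 45255142) (nat_lit 3932246) [(nat_lit 0), (nat_lit 1931942), (nat_lit 4130856), (nat_lit 0)]) (PF.cons PF.nil PF.nil)) (PF.cons PF.nil (PF.cons PF.nil PF.nil)))))))) (PF.cons (PF.cons (PF.cons (PF.leaf (nat_lit 5017345) (nat_lit 3829466) (nat_lit 51177861) (nat_lit 3829466)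
 [(nat_lit 0), (nat_lit 0), (nat_lit 4033828), (nat_lit 0)]) (PF.cons (PF.leaf (nat_lit 5373334) (nat_lit 585205) (nat_lit 50506744) (nat_lit 3851264) [(nat_lit 585205), (nat_lit 0), (nat_lit 4055199), (nat_lit 0)]) (PF.cons (PF.leaf (nat_lit 5742916) (nat_lit 598915) (nat_lit 49818251) (nat_lit 3870606) [(nat_lit 598915), (nat_lit 0), (nat_lit 4074040), (nat_lit 0)]) (PF.cons (PF.leaf (nat_lit 6123274) (nat_lit 611189) (nat_lit 49117400) (nat_lit 3887318) [(nat_lit 611189), (nat_lit 0), (nat_lit 4090175), (nat_lit 0)]) (PF.cons (PF.leaf (nat_lit 6512331) (nat_lit 622185) (nat_lit 48408192) (nat_lit 3901317) [(nat_lit 622185), (nat_lit 0), (nat_lit 4103520), (nat_lit 0)]) (PF.cons (PF.leaf (nat_lit 6908357) (nat_lit 632025) (nat_lit 47693910) (nat_lit 3912590) [(nat_lit 632025), (nat_lit 0), (nat_lit 4114060), (nat_lit 0)]) (PF.cons PF.nil (PF.cons PF.nil (PF.cons PF.nil PF.nil))))))))) (PF.cons (PF.cons (PF.leaf (nat_lit 5869660) (nat_lit 1857558) (nat_lit 49128738)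 (nat_lit 3878411) [(nat_lit 0), (nat_lit 1857558), (nat_lit 4081368), (nat_lit 0)]) (PF.cons (PF.leaf (nat_lit 6241387) (nat_lit 612533) (nat_lit 48445620) (nat_lit 3892412) [(nat_lit 612533), (nat_lit 1874080),
 (nat_lit 4094721), (nat_lit 0)]) (PF.cons (PF.leaf (nat_lit 6622734) (nat_lit 623253) (nat_lit 47753009) (nat_lit 3903921) [(nat_lit 623253), (nat_lit 1888846), (nat_lit 4105509), (nat_lit 0)]) (PF.cons (PF.leaf (nat_lit 7011507) (nat_lit 632797) (nat_lit 47054565) (nat_lit 3912903) [(nat_lit 632797), (nat_lit 1901863), (nat_lit 4113696), (nat_lit 0)]) (PF.cons (PF.leaf (nat_lit 7406074) (nat_lit 641278) (nat_lit 46353263) (nat_lit 3919372) [(nat_lit 641278), (nat_lit 1913165), (nat_lit 4119299), (nat_lit 0)]) (PF.cons PF.nil (PF.cons PF.nil PF.nil))))))) (PF.cons (PF.cons (PF.leaf (nat_lit 6733098) (nat_lit 1892721) (nat_lit 47101617) (nat_lit 3904759) [(nat_lit 0), (nat_lit 1892721), (nat_lit 4105664), (nat_lit 0)]) (PF.cons (PF.leaf (nat_lit 7113876) (nat_lit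 633090) (nat_lit 46420262) (nat_lit 3911602) [(nat_lit 633090), (nat_lit 1904443), (nat_lit 4111656), (nat_lit 0)]) (PF.cons (PF.leaf (nat_lit 7501175) (nat_lit 641326) (nat_lit 45735191) (nat_lit 3916109) [(nat_lit 641326), (nat_lit 1914560), (nat_lit 4115246), (nat_lit 0)]) (PF.cons PF.nil (PF.cons PF.nil PF.nil))))) (PF.cons (PF.cons (PF.leaf (nat_lit 7595862) (nat_lit 1915170) (nat_lit 45122596) (nat_lit 3911454)
 [(nat_lit 0), (nat_lit 1915170), (nat_lit 4109750), (nat_lit 0)]) (PF.cons (PF.leaf (nat_lit 7980509) (nat_lit 648003) (nat_lit 44452899) (nat_lit 3911997) [(nat_lit 648003), (nat_lit 1922702), (nat_lit 4109268), (nat_lit 0)]) (PF.cons PF.nil (PF.cons PF.nil PF.nil)))) (PF.cons (PF.cons (PF.leaf (nat_lit 8449116) (nat_lit 1926849) (nat_lit 43209615) (nat_lit 3901528) [(nat_lit 0), (nat_lit 1926849), (nat_lit 4096757), (nat_lit 0)]) (PF.cons PF.nil PF.nil)) (PF.cons PF.nil PF.nil)))))) (PF.cons (PF.cons (PF.cons (PF.leaf (nat_lit 6460117) (nat_lit 3881957)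 (nat_lit 46896545) (nat_lit 3881957) [(nat_lit 0), (nat_lit 0), (nat_lit 4082577), (nat_lit 0)]) (PF.cons (PF.leaf (nat_lit 6826404) (nat_lit 620003) (nat_lit 46243491) (nat_lit 3889255) [(nat_lit 620003), (nat_lit 0), (nat_lit 4089015), (nat_lit 0)]) (PF.cons (PF.leaf (nat_lit 7201157) (nat_lit 629288) (nat_lit 45583117) (nat_lit 3894352) [(nat_lit 629288), (nat_lit 0), (nat_lit 4093191), (nat_lit 0)]) (PF.cons (PF.leaf (nat_lit 7582278) (nat_lit 637448) (nat_lit 44918787) (nat_lit 3897250) [(nat_lit 637448), (nat_lit 0), (nat_lit 4095107), (nat_lit 0)]) (PF.cons PF.nil PF.nil))))) (PF.cons (PF.cons (PF.leaf (nat_lit 7300541)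
 (nat_lit 1897493) (nat_lit 44968822) (nat_lit 3890108) [(nat_lit 0), (nat_lit 1897493), (nat_lit 4088097), (nat_lit 0)]) (PF.cons (PF.leaf (nat_lit 7673738) (nat_lit 636765) (nat_lit 44321636) (nat_lit 3891340) [(nat_lit 636765), (nat_lit 1905830), (nat_lit 4088310), (nat_lit 0)]) (PF.cons (PF.leaf (nat_lit 8052551) (nat_lit 643757) (nat_lit 43672222) (nat_lit 3890552) [(nat_lit 643757), (nat_lit 1912734), (nat_lit 4086446), (nat_lit 0)]) (PF.cons PF.nil PF.nil)))) (PF.cons (PF.cons (PF.leaf (nat_lit 8136801) (nat_lit 1911061) (nat_lit 43096884) (nat_lit 3882014) [(nat_lit 0), (nat_lit 1911061), (nat_lit 4076947), (nat_lit 0)]) (PF.cons (PF.leaf (nat_lit 8512340) (nat_lit 648483) (nat_lit 42463773) (nat_lit 3877977) [(nat_lit 648483), (nat_lit 1915774), (nat_lit 4071757), (nat_lit 0)]) PF.nil)) (PF.cons PF.nil (PF.cons PF.nil PF.nil))))) (PF.cons (PF.cons (PF.cons (PF.leaf (nat_lit 7837293) (nat_lit 3861847) (nat_lit 42964537) (nat_lit 3861847) [(nat_lit 0), (nat_lit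 0), (nat_lit 4056485), (nat_lit 0)]) (PF.cons (PF.leaf (nat_lit 8202439) (nat_lit 637747) (nat_lit 42351907) (nat_lit 3858613) [(nat_lit 637747), (nat_lit 0), (nat_lit 4052108), (nat_lit 0)]) (PF.cons (PF.leaf
 (nat_lit 8572486) (nat_lit 643684) (nat_lit 41738125) (nat_lit 3853629) [(nat_lit 643684), (nat_lit 0), (nat_lit 4045937), (nat_lit 0)]) (PF.cons PF.nil PF.nil)))) (PF.cons (PF.cons (PF.leaf (nat_lit 8647303) (nat_lit 1900726) (nat_lit 41198906) (nat_lit 3842141) [(nat_lit 0), (nat_lit 1900726), (nat_lit 4033407), (nat_lit 0)]) (PF.cons PF.nil PF.nil)) (PF.cons PF.nil PF.nil))) (PF.cons (PF.cons (PF.cons (PF.leaf (nat_lit 9129700) (nat_lit 3794484) (nat_lit 39423009) (nat_lit 3794484) [(nat_lit 0), (nat_lit 0), (nat_lit 3981886), (nat_lit 0)]) (PF.cons PF.nil PF.nil)) (PF.cons PF.nil PF.nil)) (PF.cons PF.nil (PF.cons PF.nil PF.nil))))))))) (PF.cons (PF.cons (PF.cons (PF.cons (PF.leaf (nat_lit 3176228) (nat_lit 3545711) (nat_lit 54287860) (nat_lit 3545711) [(nat_lit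 0), (nat_lit 0), (nat_lit 0), (nat_lit 9275240)]) (PF.cons (PF.leaf (nat_lit 3454296) (nat_lit 472841) (nat_lit 53755954) (nat_lit 3585968) [(nat_lit 472841), (nat_lit 0), (nat_lit 0), (nat_lit 9294048)]) (PF.cons (PF.leaf (nat_lit 3758958) (nat_lit 496581) (nat_lit 53179799) (nat_lit 3625474) [(nat_lit 496581), (nat_lit 0), (nat_lit 0), (nat_lit 9310376)]) (PF.cons (PF.leaf (nat_lit 4085165) (nat_lit 517782) (nat_lit
 52568964) (nat_lit 3663201) [(nat_lit 517782), (nat_lit 0), (nat_lit 0), (nat_lit 9323298)]) (PF.cons (PF.leaf (nat_lit 4429454) (nat_lit 536877) (nat_lit 51930618) (nat_lit 3698502) [(nat_lit 536877), (nat_lit 0), (nat_lit 0), (nat_lit 9332181)]) (PF.cons (PF.leaf (nat_lit 4789034) (nat_lit 554154) (nat_lit 51270459) (nat_lit 3730972) [(nat_lit 554154), (nat_lit 0), (nat_lit 0), (nat_lit 9336609)]) (PF.cons (PF.leaf (nat_lit 5161556) (nat_lit 569821) (nat_lit 50593193) (nat_lit 3760369) [(nat_lit 569821), (nat_lit 0), (nat_lit 0), (nat_lit 9336323)])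 (PF.cons (PF.leaf (nat_lit 5544975) (nat_lit 584035) (nat_lit 49902807) (nat_lit 3786565) [(nat_lit 584035), (nat_lit 0), (nat_lit 0), (nat_lit 9331193)]) (PF.cons (PF.leaf (nat_lit 5937487) (nat_lit 596922) (nat_lit 49202731) (nat_lit 3809510) [(nat_lit 596922), (nat_lit 0), (nat_lit 0), (nat_lit 9321188)]) (PF.cons (PF.leaf (nat_lit 6337520) (nat_lit 608587) (nat_lit 48495951) (nat_lit 3829217) [(nat_lit 608587), (nat_lit 0), (nat_lit 0), (nat_lit 9306356)]) (PF.cons (PF.leaf (nat_lit 6743605) (nat_lit 619119) (nat_lit 47785077) (nat_lit 3845739) [(nat_lit 619119), (nat_lit 0), (nat_lit 0), (nat_lit 9286803)]) (PF.cons PF.nil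
 (PF.cons PF.nil (PF.cons PF.nil PF.nil)))))))))))))) (PF.cons (PF.cons (PF.leaf (nat_lit 3918437) (nat_lit 1673352) (nat_lit 52461689) (nat_lit 3656841) [(nat_lit 0), (nat_lit 1673352), (nat_lit 0), (nat_lit 9316929)]) (PF.cons (PF.leaf (nat_lit 4234928) (nat_lit 523019) (nat_lit 51866761) (nat_lit 3689966) [(nat_lit 523019), (nat_lit 1704300), (nat_lit 0), (nat_lit 9324765)]) (PF.cons (PF.leaf (nat_lit 4571156) (nat_lit 541686) (nat_lit 51242217) (nat_lit 3721096) [(nat_lit 541686), (nat_lit 1733339), (nat_lit 0), (nat_lit 9328787)]) (PF.cons (PF.leaf (nat_lit 4923446) (nat_lit 558482) (nat_lit 50594761) (nat_lit 3749750) [(nat_lit 558482), (nat_lit 1760268), (nat_lit 0), (nat_lit 9328583)]) (PF.cons (PF.leaf (nat_lit 5289154) (nat_lit 573650) (nat_lit 49929660) (nat_lit 3775636) [(nat_lit 573650), (nat_lit 1785006), (nat_lit 0), (nat_lit 9323908)]) (PF.cons (PF.leaf (nat_lit 5666069) (nat_lit 587364) (nat_lit 49251219) (nat_lit 3798593) [(nat_lit 587364), (nat_lit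 1807535), (nat_lit 0), (nat_lit 9314643)]) (PF.cons (PF.leaf (nat_lit 6052283) (nat_lit 599761) (nat_lit 48563047) (nat_lit 3818549) [(nat_lit 599761), (nat_lit 1827882), (nat_lit 0), (nat_lit 9300763)]) (PF.cons
 (PF.leaf (nat_lit 6446129) (nat_lit 610952) (nat_lit 47868226) (nat_lit 3835496) [(nat_lit 610952), (nat_lit 1846099), (nat_lit 0), (nat_lit 9282320)]) (PF.cons (PF.leaf (nat_lit 6846123) (nat_lit 621031) (nat_lit 47169414) (nat_lit 3849472) [(nat_lit 621031), (nat_lit 1862252), (nat_lit 0), (nat_lit 9259423)]) (PF.cons PF.nil (PF.cons PF.nil (PF.cons PF.nil PF.nil)))))))))))) (PF.cons (PF.cons (PF.leaf (nat_lit 4714740) (nat_lit 1748945) (nat_lit 50549299) (nat_lit 3740879) [(nat_lit 0), (nat_lit 1748945), (nat_lit 0), (nat_lit 9320743)]) (PF.cons (PF.leaf (nat_lit 5058234) (nat_lit 561976) (nat_lit 49917574) (nat_lit 3765904) [(nat_lit 561976), (nat_lit 1773540), (nat_lit 0), (nat_lit 9316277)]) (PF.cons (PF.leaf (nat_lit 5416289) (nat_lit 576759) (nat_lit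 49266874) (nat_lit 3788473) [(nat_lit 576759), (nat_lit 1796188), (nat_lit 0), (nat_lit 9307568)]) (PF.cons (PF.leaf (nat_lit 5786095) (nat_lit 590063) (nat_lit 48602078) (nat_lit 3808381) [(nat_lit 590063), (nat_lit 1816828), (nat_lit 0), (nat_lit 9294506)]) (PF.cons (PF.leaf (nat_lit 6165569) (nat_lit 602042) (nat_lit 47927130) (nat_lit 3825530) [(nat_lit 602042), (nat_lit 1835453), (nat_lit 0), (nat_lit 9277074)]) (PF.cons
 (PF.leaf (nat_lit 6552924) (nat_lit 612820) (nat_lit 47245305) (nat_lit 3839890) [(nat_lit 612820), (nat_lit 1852094), (nat_lit 0), (nat_lit 9255326)]) (PF.cons (PF.leaf (nat_lit 6946618) (nat_lit 622497) (nat_lit 46559369) (nat_lit 3851483) [(nat_lit 622497), (nat_lit 1866803), (nat_lit 0), (nat_lit 9229371)]) (PF.cons (PF.leaf (nat_lit 7345305) (nat_lit 631157) (nat_lit 45871686) (nat_lit 3860367) [(nat_lit 631157), (nat_lit 1879647), (nat_lit 0), (nat_lit 9199359)]) (PF.cons PF.nil (PF.cons PF.nil PF.nil)))))))))) (PF.cons (PF.cons (PF.leaf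 (nat_lit 5544112) (nat_lit 1806085) (nat_lit 48604092) (nat_lit 3799023) [(nat_lit 0), (nat_lit 1806085), (nat_lit 0), (nat_lit 9287439)]) (PF.cons (PF.leaf (nat_lit 5905757) (nat_lit 592123) (nat_lit 47954918) (nat_lit 3816059) [(nat_lit 592123), (nat_lit 1824927), (nat_lit 0), (nat_lit 9270930)]) (PF.cons (PF.leaf (nat_lit 6277921) (nat_lit 603765) (nat_lit 47294672) (nat_lit 3830571) [(nat_lit 603765), (nat_lit 1841922), (nat_lit 0), (nat_lit 9250271)]) (PF.cons (PF.leaf (nat_lit 6658390) (nat_lit 614195) (nat_lit 46626968) (nat_lit 3842508) [(nat_lit 614195), (nat_lit 1857075), (nat_lit 0), (nat_lit 9225522)]) (PF.cons (PF.leaf (nat_lit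
 7045518) (nat_lit 623524) (nat_lit 45954777) (nat_lit 3851873) [(nat_lit 623524), (nat_lit 1870424), (nat_lit 0), (nat_lit 9196793)]) (PF.cons (PF.leaf (nat_lit 7437848) (nat_lit 631844) (nat_lit 45280582) (nat_lit 3858710) [(nat_lit 631844), (nat_lit 1882020), (nat_lit 0), (nat_lit 9164233)]) (PF.cons PF.nil (PF.cons PF.nil (PF.cons PF.nil PF.nil))))))))) (PF.cons (PF.cons (PF.leaf (nat_lit 6390260) (nat_lit 1847356) (nat_lit 46665128) (nat_lit 3833781) [(nat_lit 0), (nat_lit 1847356), (nat_lit 0), (nat_lit 9220478)]) (PF.cons (PF.leaf (nat_lit 6763088) (nat_lit 615073) (nat_lit 46012837) (nat_lit 3843450) [(nat_lit 615073), (nat_lit 1861104), (nat_lit 0), (nat_lit 9193036)]) (PF.cons (PF.leaf (nat_lit 7143254) (nat_lit 624113) (nat_lit 45355355) (nat_lit 3850734) [(nat_lit 624113), (nat_lit 1873169), (nat_lit 0), (nat_lit 9161817)]) (PF.cons (PF.leaf (nat_lit 7528976) (nat_lit 632143) (nat_lit 44695376) (nat_lit 3855662) [(nat_lit 632143), (nat_lit 1883593), (nat_lit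 0), (nat_lit 9126970)]) (PF.cons (PF.leaf (nat_lit 7918927) (nat_lit 639249) (nat_lit 44035129) (nat_lit 3858293) [(nat_lit 639249), (nat_lit 1892430), (nat_lit 0), (nat_lit 9088670)]) (PF.cons PF.nil (PF.cons
 PF.nil PF.nil))))))) (PF.cons (PF.cons (PF.leaf (nat_lit 7240578) (nat_lit 1875089) (nat_lit 44760669) (nat_lit 3848149) [(nat_lit 0), (nat_lit 1875089), (nat_lit 0), (nat_lit 9124546)]) (PF.cons (PF.leaf (nat_lit 7619129) (nat_lit 632054) (nat_lit 44115734) (nat_lit 3851302) [(nat_lit 632054), (nat_lit 1884409), (nat_lit 0), (nat_lit 9087674)]) (PF.cons (PF.leaf (nat_lit 8002493) (nat_lit 638919) (nat_lit 43469948) (nat_lit 3852307) [(nat_lit 638919), (nat_lit 1892237), (nat_lit 0), (nat_lit 9047528)]) (PF.cons (PF.leaf (nat_lit 8389250) (nat_lit 644937) (nat_lit 42825314) (nat_lit 3851233) [(nat_lit 644937), (nat_lit 1898631), (nat_lit 0), (nat_lit 9004297)]) (PF.cons PF.nil PF.nil))))) (PF.cons (PF.cons (PF.leaf (nat_lit 8085484) (nat_lit 1891393) (nat_lit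 42910578) (nat_lit 3845196) [(nat_lit 0), (nat_lit 1891393), (nat_lit 0), (nat_lit 9004676)]) (PF.cons (PF.leaf (nat_lit 8465520) (nat_lit 644064) (nat_lit 42280466) (nat_lit 3842749) [(nat_lit 644064), (nat_lit 1896923), (nat_lit 0), (nat_lit 8959991)]) (PF.cons PF.nil (PF.cons PF.nil PF.nil)))) (PF.cons (PF.cons (PF.leaf (nat_lit 8917850) (nat_lit 1898151) (nat_lit 41128181) (nat_lit 3827833) [(nat_lit 0), (nat_lit
 1898151), (nat_lit 0), (nat_lit 8865737)]) (PF.cons PF.nil PF.nil)) (PF.cons PF.nil PF.nil))))))))) (PF.cons (PF.cons (PF.cons (PF.leaf (nat_lit 4521786) (nat_lit 3716897) (nat_lit 50185115) (nat_lit 3716897) [(nat_lit 0), (nat_lit 0), (nat_lit 3919187), (nat_lit 9287611)]) (PF.cons (PF.leaf (nat_lit 4841376) (nat_lit 542325) (nat_lit 49599899) (nat_lit 3741092) [(nat_lit 542325), (nat_lit 0), (nat_lit 3942864), (nat_lit 9282631)]) (PF.cons (PF.leaf (nat_lit 5178991) (nat_lit 559133) (nat_lit 48988844) (nat_lit 3763326) [(nat_lit 559133), (nat_lit 0), (nat_lit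 3964537), (nat_lit 9273837)]) (PF.cons (PF.leaf (nat_lit 5530995) (nat_lit 574066) (nat_lit 48358461) (nat_lit 3783254) [(nat_lit 574066), (nat_lit 0), (nat_lit 3983856), (nat_lit 9261040)]) (PF.cons (PF.leaf (nat_lit 5894798) (nat_lit 587397) (nat_lit 47713764) (nat_lit 3800680) [(nat_lit 587397), (nat_lit 0), (nat_lit 4000619), (nat_lit 9244157)]) (PF.cons (PF.leaf (nat_lit 6268279) (nat_lit 599323) (nat_lit 47058769) (nat_lit 3815508) [(nat_lit 599323), (nat_lit 0), (nat_lit 4014727), (nat_lit 9223189)]) (PF.cons (PF.leaf (nat_lit 6649639) (nat_lit 609993) (nat_lit 46396789) (nat_lit 3827711) [(nat_lit 609993), (nat_lit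
 0), (nat_lit 4026149), (nat_lit 9198199)]) (PF.cons (PF.leaf (nat_lit 7037327) (nat_lit 619529) (nat_lit 45730599) (nat_lit 3837307) [(nat_lit 619529), (nat_lit 0), (nat_lit 4034904), (nat_lit 9169297)]) (PF.cons (PF.leaf (nat_lit 7429985) (nat_lit 628027) (nat_lit 45062556) (nat_lit 3844354) [(nat_lit 628027), (nat_lit 0), (nat_lit 4041049), (nat_lit 9136629)]) (PF.cons PF.nil PF.nil)))))))))) (PF.cons (PF.cons (PF.leaf (nat_lit 5312543) (nat_lit 1782843) (nat_lit 48323137) (nat_lit 3774474) [(nat_lit 0), (nat_lit 1782843), (nat_lit 3975208), (nat_lit 9253148)]) (PF.cons (PF.leaf (nat_lit 5655314) (nat_lit 575909) (nat_lit 47710101) (nat_lit 3791496) [(nat_lit 575909), (nat_lit 1802590), (nat_lit 3991567), (nat_lit 9237147)]) (PF.cons (PF.leaf (nat_lit 6011124) (nat_lit 588992) (nat_lit 47081177) (nat_lit 3806269) [(nat_lit 588992), (nat_lit 1820525), (nat_lit 4005622), (nat_lit 9217233)]) (PF.cons (PF.leaf (nat_lit 6377275) (nat_lit 600629) (nat_lit 46440970) (nat_lit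 3818664) [(nat_lit 600629), (nat_lit 1836625), (nat_lit 4017242), (nat_lit 9193420)]) (PF.cons (PF.leaf (nat_lit 6751757) (nat_lit 610994) (nat_lit 45793135) (nat_lit 3828630) [(nat_lit 610994), (nat_lit 1850910),
 (nat_lit 4026377), (nat_lit 9165780)]) (PF.cons (PF.leaf (nat_lit 7132903) (nat_lit 620219) (nat_lit 45140657) (nat_lit 3836173) [(nat_lit 620219), (nat_lit 1863425), (nat_lit 4033029), (nat_lit 9134427)]) (PF.cons (PF.leaf (nat_lit 7519282) (nat_lit 628412) (nat_lit 44486020) (nat_lit 3841332) [(nat_lit 628412), (nat_lit 1874231), (nat_lit 4037242), (nat_lit 9099510)]) (PF.cons (PF.leaf (nat_lit 7909649) (nat_lit 635662) (nat_lit 43831313) (nat_lit 3844177) [(nat_lit 635662), (nat_lit 1883400), (nat_lit 4039084), (nat_lit 9061198)]) (PF.cons PF.nil PF.nil))))))))) (PF.cons (PF.cons (PF.leaf (nat_lit 6128419) (nat_lit 1826472) (nat_lit 46449907) (nat_lit 3810008) [(nat_lit 0), (nat_lit 1826472), (nat_lit 4008707), (nat_lit 9187244)]) (PF.cons (PF.leaf (nat_lit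 6486223) (nat_lit 601377) (nat_lit 45826176) (nat_lit 3820121) [(nat_lit 601377), (nat_lit 1841114), (nat_lit 4017999), (nat_lit 9160908)]) (PF.cons (PF.leaf (nat_lit 6853294) (nat_lit 611512) (nat_lit 45193721) (nat_lit 3827998) [(nat_lit 611512), (nat_lit 1854079), (nat_lit 4024999), (nat_lit 9130910)]) (PF.cons (PF.leaf (nat_lit 7227524) (nat_lit 620487) (nat_lit 44555872) (nat_lit 3833625) [(nat_lit 620487), (nat_lit
 1865392), (nat_lit 4029692), (nat_lit 9097373)]) (PF.cons (PF.leaf (nat_lit 7607358) (nat_lit 628423) (nat_lit 43915327) (nat_lit 3837027) [(nat_lit 628423), (nat_lit 1875102), (nat_lit 4032108), (nat_lit 9060449)]) (PF.cons (PF.leaf (nat_lit 7991468) (nat_lit 635418) (nat_lit 43274308) (nat_lit 3838262) [(nat_lit 635418), (nat_lit 1883267), (nat_lit 4032304), (nat_lit 9020310)]) (PF.cons PF.nil PF.nil))))))) (PF.cons (PF.cons (PF.leaf (nat_lit 6955128) (nat_lit 1856407) (nat_lit 44597926) (nat_lit 3825894) [(nat_lit 0), (nat_lit 1856407), (nat_lit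 4022096), (nat_lit 9093671)]) (PF.cons (PF.leaf (nat_lit 7321711) (nat_lit 620324) (nat_lit 43975790) (nat_lit 3829737) [(nat_lit 620324), (nat_lit 1866588), (nat_lit 4024970), (nat_lit 9058224)]) (PF.cons (PF.leaf (nat_lit 7694645) (nat_lit 628059) (nat_lit 43350127) (nat_lit 3831508) [(nat_lit 628059), (nat_lit 1875266), (nat_lit 4025718), (nat_lit 9019540)]) (PF.cons (PF.leaf (nat_lit 8072251) (nat_lit 634843) (nat_lit 42723374) (nat_lit 3831250) [(nat_lit 634843), (nat_lit 1882490), (nat_lit 4024389), (nat_lit 8977795)]) (PF.cons (PF.leaf (nat_lit 8453298) (nat_lit 640768) (nat_lit 42097523) (nat_lit 3829030) [(nat_lit 640768),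
 (nat_lit 1888320), (nat_lit 4021049), (nat_lit 8933176)]) PF.nil))))) (PF.cons (PF.cons (PF.leaf (nat_lit 7781860) (nat_lit 1874763) (nat_lit 42789936) (nat_lit 3824836) [(nat_lit 0), (nat_lit 1874763), (nat_lit 4018136), (nat_lit 8976851)]) (PF.cons (PF.leaf (nat_lit 8152415) (nat_lit 633934) (nat_lit 42178133) (nat_lit 3823198) [(nat_lit 633934), (nat_lit 1881105), (nat_lit 4015398), (nat_lit 8933728)]) (PF.cons (PF.leaf (nat_lit 8527038) (nat_lit 639689) (nat_lit 41566557) (nat_lit 3819718) [(nat_lit 639689), (nat_lit 1886130), (nat_lit 4010774), (nat_lit 8887861)]) (PF.cons PF.nil PF.nil)))) (PF.cons (PF.cons (PF.leaf (nat_lit 8600526) (nat_lit 1883416) (nat_lit 41041375) (nat_lit 3809518) [(nat_lit 0), (nat_lit 1883416), (nat_lit 3999582), (nat_lit 8841255)]) (PF.cons (PF.leaf (nat_lit 8971361) (nat_lit 643146) (nat_lit 40445969) (nat_lit 3803216) [(nat_lit 643146), (nat_lit 1886499), (nat_lit 3992075), (nat_lit 8791909)]) PF.nil)) (PF.cons PF.nil (PF.cons PF.nil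 PF.nil)))))))) (PF.cons (PF.cons (PF.cons (PF.leaf (nat_lit 5885737) (nat_lit 3785758) (nat_lit 46202032) (nat_lit 3785758) [(nat_lit 0), (nat_lit 0), (nat_lit 3984247), (nat_lit 9152526)]) (PF.cons (PF.leaf (nat_lit
 6226037) (nat_lit 585698) (nat_lit 45611754) (nat_lit 3796226) [(nat_lit 585698), (nat_lit 0), (nat_lit 3993871), (nat_lit 9127390)]) (PF.cons (PF.leaf (nat_lit 6578107) (nat_lit 597294) (nat_lit 45008106) (nat_lit 3804644) [(nat_lit 597294), (nat_lit 0), (nat_lit 4001395), (nat_lit 9098684)]) (PF.cons (PF.leaf (nat_lit 6939317) (nat_lit 607487) (nat_lit 44395401) (nat_lit 3810939) [(nat_lit 607487), (nat_lit 0), (nat_lit 4006747), (nat_lit 9066514)]) (PF.cons (PF.leaf (nat_lit 7307757) (nat_lit 616462) (nat_lit 43777014) (nat_lit 3815101) [(nat_lit 616462), (nat_lit 0), (nat_lit 4009917), (nat_lit 9031013)]) (PF.cons (PF.leaf (nat_lit 7681856) (nat_lit 624358) (nat_lit 43155659) (nat_lit 3817156) [(nat_lit 624358), (nat_lit 0), (nat_lit 4010933), (nat_lit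 8992335)]) (PF.cons (PF.leaf (nat_lit 8060285) (nat_lit 631288) (nat_lit 42533566) (nat_lit 3817160) [(nat_lit 631288), (nat_lit 0), (nat_lit 4009851), (nat_lit 8950651)]) (PF.cons PF.nil (PF.cons PF.nil PF.nil))))))))) (PF.cons (PF.cons (PF.leaf (nat_lit 6685420) (nat_lit 1836526) (nat_lit 44410023) (nat_lit 3803027) [(nat_lit 0), (nat_lit 1836526), (nat_lit 3998961), (nat_lit 9061312)]) (PF.cons (PF.leaf (nat_lit 7038238)
 (nat_lit 607175) (nat_lit 43814083) (nat_lit 3807527) [(nat_lit 607175), (nat_lit 1847667), (nat_lit 4002488), (nat_lit 9027381)]) (PF.cons (PF.leaf (nat_lit 7399276) (nat_lit 616009) (nat_lit 43211250) (nat_lit 3810048) [(nat_lit 616009), (nat_lit 1857285), (nat_lit 4003987), (nat_lit 8990234)]) (PF.cons (PF.leaf (nat_lit 7766524) (nat_lit 623738) (nat_lit 42604590) (nat_lit 3810601) [(nat_lit 623738), (nat_lit 1865422), (nat_lit 4003472), (nat_lit 8950037)]) (PF.cons (PF.leaf (nat_lit 8138514) (nat_lit 630488) (nat_lit 41996548) (nat_lit 3809232)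 [(nat_lit 630488), (nat_lit 1872132), (nat_lit 4000990), (nat_lit 8906967)]) (PF.cons (PF.leaf (nat_lit 8514033) (nat_lit 636358) (nat_lit 41389115) (nat_lit 3806003) [(nat_lit 636358), (nat_lit 1877480), (nat_lit 3996606), (nat_lit 8861207)]) (PF.cons PF.nil PF.nil))))))) (PF.cons (PF.cons (PF.leaf (nat_lit 7491384) (nat_lit 1857143) (nat_lit 42649465) (nat_lit 3803811) [(nat_lit 0), (nat_lit 1857143), (nat_lit 3996830), (nat_lit 8947587)]) (PF.cons (PF.leaf (nat_lit 7851073) (nat_lit 622741) (nat_lit 42058421) (nat_lit 3802977) [(nat_lit 622741), (nat_lit 1864373), (nat_lit 3994905), (nat_lit 8906113)]) (PF.cons (PF.leaf (nat_lit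
 8216290) (nat_lit 629361) (nat_lit 41465087) (nat_lit 3800341) [(nat_lit 629361), (nat_lit 1870260), (nat_lit 3991134), (nat_lit 8861871)]) (PF.cons (PF.leaf (nat_lit 8585463) (nat_lit 635088) (nat_lit 40871670) (nat_lit 3795957) [(nat_lit 635088), (nat_lit 1874857), (nat_lit 3985575), (nat_lit 8815052)]) (PF.cons PF.nil PF.nil))))) (PF.cons (PF.cons (PF.leaf (nat_lit 8294292) (nat_lit 1867846) (nat_lit 40938675) (nat_lit 3790532) [(nat_lit 0), (nat_lit 1867846), (nat_lit 3980329), (nat_lit 8815404)]) (PF.cons (PF.leaf (nat_lit 8656585) (nat_lit 633528) (nat_lit 40359847) (nat_lit 3785089) [(nat_lit 633528), (nat_lit 1871744), (nat_lit 3973695), (nat_lit 8767722)]) (PF.cons (PF.leaf (nat_lit 9022335) (nat_lit 638344) (nat_lit 39781993) (nat_lit 3778064) [(nat_lit 638344), (nat_lit 1874477), (nat_lit 3965443), (nat_lit 8717745)]) (PF.cons PF.nil PF.nil)))) (PF.cons (PF.cons (PF.leaf (nat_lit 9087286) (nat_lit 1870306) (nat_lit 39289641) (nat_lit 3765534) [(nat_lit 0),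 (nat_lit 1870306), (nat_lit 3951864), (nat_lit 8668679)]) (PF.cons PF.nil PF.nil)) (PF.cons PF.nil PF.nil)))))) (PF.cons (PF.cons (PF.cons (PF.leaf (nat_lit 7215912) (nat_lit 3782056) (nat_lit 42485705) (nat_lit
 3782056) [(nat_lit 0), (nat_lit 0), (nat_lit 3974804), (nat_lit 8916636)]) (PF.cons (PF.leaf (nat_lit 7562943) (nat_lit 610164) (nat_lit 41918617) (nat_lit 3782024) [(nat_lit 610164), (nat_lit 0), (nat_lit 3973686), (nat_lit 8876947)]) (PF.cons (PF.leaf (nat_lit 7917338) (nat_lit 617876) (nat_lit 41346062) (nat_lit 3780239) [(nat_lit 617876), (nat_lit 0), (nat_lit 3970773), (nat_lit 8834437)]) (PF.cons (PF.leaf (nat_lit 8277157) (nat_lit 624537) (nat_lit 40770855) (nat_lit 3776733) [(nat_lit 624537), (nat_lit 0), (nat_lit 3966102), (nat_lit 8789305)]) (PF.cons (PF.leaf (nat_lit 8641017) (nat_lit 630274) (nat_lit 40195218) (nat_lit 3771564) [(nat_lit 630274), (nat_lit 0), (nat_lit 3959730), (nat_lit 8741740)]) (PF.cons PF.nil (PF.cons PF.nil PF.nil))))))) (PF.cons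 (PF.cons (PF.leaf (nat_lit 8000510) (nat_lit 1851298) (nat_lit 40817669) (nat_lit 3770813) [(nat_lit 0), (nat_lit 1851298), (nat_lit 3960344), (nat_lit 8787996)]) (PF.cons (PF.leaf (nat_lit 8352912) (nat_lit 622875) (nat_lit 40257715) (nat_lit 3766244) [(nat_lit 622875), (nat_lit 1856092), (nat_lit 3954597), (nat_lit 8742093)]) (PF.cons (PF.leaf (nat_lit 8710170) (nat_lit 628543) (nat_lit 39696380) (nat_lit 3760105)
 [(nat_lit 628543), (nat_lit 1859682), (nat_lit 3947243), (nat_lit 8693825)]) (PF.cons (PF.leaf (nat_lit 9070797) (nat_lit 633372) (nat_lit 39135667) (nat_lit 3752458) [(nat_lit 633372), (nat_lit 1862127), (nat_lit 3938350), (nat_lit 8643390)]) (PF.cons PF.nil PF.nil))))) (PF.cons (PF.cons (PF.leaf (nat_lit 8779821) (nat_lit 1855772) (nat_lit 39202477) (nat_lit 3747916) [(nat_lit 0), (nat_lit 1855772), (nat_lit 3934003), (nat_lit 8644864)]) (PF.cons (PF.leaf (nat_lit 9133767) (nat_lit 631299) (nat_lit 38655821) (nat_lit 3739470) [(nat_lit 631299), (nat_lit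 1857668), (nat_lit 3924303), (nat_lit 8593973)]) (PF.cons PF.nil (PF.cons PF.nil PF.nil)))) (PF.cons (PF.cons (PF.leaf (nat_lit 9547957) (nat_lit 1853235) (nat_lit 37649442) (nat_lit 3715404) [(nat_lit 0), (nat_lit 1853235), (nat_lit 3897872), (nat_lit 8490641)]) (PF.cons PF.nil PF.nil)) (PF.cons PF.nil PF.nil))))) (PF.cons (PF.cons (PF.cons (PF.leaf (nat_lit 8484153) (nat_lit 3729523) (nat_lit 39098423) (nat_lit 3729523) [(nat_lit 0), (nat_lit 0), (nat_lit 3915361), (nat_lit 8619419)]) (PF.cons (PF.leaf (nat_lit 8829048) (nat_lit 621177) (nat_lit 38568918) (nat_lit 3721988) [(nat_lit 621177), (nat_lit 0), (nat_lit 3906589),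
 (nat_lit 8570371)]) (PF.cons (PF.leaf (nat_lit 9178276) (nat_lit 626032) (nat_lit 38038693) (nat_lit 3713082) [(nat_lit 626032), (nat_lit 0), (nat_lit 3896417), (nat_lit 8519300)]) (PF.cons PF.nil PF.nil)))) (PF.cons (PF.cons (PF.leaf (nat_lit 9240372) (nat_lit 1839694) (nat_lit 37575699) (nat_lit 3699115) [(nat_lit 0), (nat_lit 1839694), (nat_lit 3881365), (nat_lit 8468840)]) (PF.cons (PF.leaf (nat_lit 9586015) (nat_lit 627623) (nat_lit 37059997) (nat_lit 3688320) [(nat_lit 627623), (nat_lit 1839953), (nat_lit 3869276), (nat_lit 8415810)]) PF.nil)) (PF.cons PF.nil PF.nil))) (PF.cons (PF.cons (PF.cons (PF.leaf (nat_lit 9677832) (nat_lit 3645818) (nat_lit 36052045) (nat_lit 3645818) [(nat_lit 0), (nat_lit 0), (nat_lit 3824167), (nat_lit 8290109)]) (PF.cons (PF.leaf (nat_lit 10015286) (nat_lit 622806) (nat_lit 35565832) (nat_lit 3633201) [(nat_lit 622806), (nat_lit 0), (nat_lit 3810237), (nat_lit 8235784)]) PF.nil)) (PF.cons PF.nil PF.nil)) (PF.cons PF.nil (PF.cons PF.nil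 PF.nil)))))))) (PF.cons (PF.cons (PF.cons (PF.cons (PF.leaf (nat_lit 5368573) (nat_lit 3682152) (nat_lit 45424580) (nat_lit 3682152) [(nat_lit 0), (nat_lit 0), (nat_lit 0), (nat_lit 9001039)]) (PF.cons (PF.leaf
 (nat_lit 5677373) (nat_lit 545147) (nat_lit 44906038) (nat_lit 3696033) [(nat_lit 545147), (nat_lit 0), (nat_lit 0), (nat_lit 8980796)]) (PF.cons (PF.leaf (nat_lit 6002278) (nat_lit 560003) (nat_lit 44366403) (nat_lit 3708083) [(nat_lit 560003), (nat_lit 0), (nat_lit 0), (nat_lit 8957159)]) (PF.cons (PF.leaf (nat_lit 6339756) (nat_lit 572967) (nat_lit 43811424) (nat_lit 3718117) [(nat_lit 572967), (nat_lit 0), (nat_lit 0), (nat_lit 8930185)]) (PF.cons (PF.leaf (nat_lit 6687383) (nat_lit 584346) (nat_lit 43245457) (nat_lit 3726047) [(nat_lit 584346), (nat_lit 0), (nat_lit 0), (nat_lit 8899960)]) (PF.cons (PF.leaf (nat_lit 7043162) (nat_lit 594365) (nat_lit 42671935) (nat_lit 3731853) [(nat_lit 594365), (nat_lit 0), (nat_lit 0), (nat_lit 8866598)]) (PF.cons (PF.leaf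 (nat_lit 7405464) (nat_lit 603192) (nat_lit 42093638) (nat_lit 3735557) [(nat_lit 603192), (nat_lit 0), (nat_lit 0), (nat_lit 8830230)]) (PF.cons (PF.leaf (nat_lit 7772908) (nat_lit 610961) (nat_lit 41512860) (nat_lit 3737208) [(nat_lit 610961), (nat_lit 0), (nat_lit 0), (nat_lit 8791005)]) (PF.cons (PF.leaf (nat_lit 8144299) (nat_lit 617781) (nat_lit 40931515) (nat_lit 3736879) [(nat_lit 617781), (nat_lit 0), (nat_lit
 0), (nat_lit 8749083)]) (PF.cons PF.nil PF.nil)))))))))) (PF.cons (PF.cons (PF.leaf (nat_lit 6118596) (nat_lit 1768379) (nat_lit 43785363) (nat_lit 3709642) [(nat_lit 0), (nat_lit 1768379), (nat_lit 0), (nat_lit 8922713)]) (PF.cons (PF.leaf (nat_lit 6446854) (nat_lit 573112) (nat_lit 43246964) (nat_lit 3717657) [(nat_lit 573112), (nat_lit 1782953), (nat_lit 0), (nat_lit 8894062)]) (PF.cons (PF.leaf (nat_lit 6786587) (nat_lit 584374) (nat_lit 42695992) (nat_lit 3723756) [(nat_lit 584374), (nat_lit 1795858), (nat_lit 0), (nat_lit 8862228)]) (PF.cons (PF.leaf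 (nat_lit 7135211) (nat_lit 594229) (nat_lit 42136410) (nat_lit 3727894) [(nat_lit 594229), (nat_lit 1807122), (nat_lit 0), (nat_lit 8827348)]) (PF.cons (PF.leaf (nat_lit 7490897) (nat_lit 602870) (nat_lit 41571313) (nat_lit 3730076) [(nat_lit 602870), (nat_lit 1816801), (nat_lit 0), (nat_lit 8789570)]) (PF.cons (PF.leaf (nat_lit 7852130) (nat_lit 610442) (nat_lit 41003193) (nat_lit 3730340) [(nat_lit 610442), (nat_lit 1824963), (nat_lit 0), (nat_lit 8749051)]) (PF.cons (PF.leaf (nat_lit 8217628) (nat_lit 617063) (nat_lit 40434090) (nat_lit 3728745) [(nat_lit 617063), (nat_lit 1831684), (nat_lit 0), (nat_lit 8705954)]) (PF.cons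
 (PF.leaf (nat_lit 8586290) (nat_lit 622829) (nat_lit 39865696) (nat_lit 3725365) [(nat_lit 622829), (nat_lit 1837043), (nat_lit 0), (nat_lit 8660449)]) (PF.cons PF.nil PF.nil))))))))) (PF.cons (PF.cons (PF.leaf (nat_lit 6887195) (nat_lit 1797613) (nat_lit 42148462) (nat_lit 3720173) [(nat_lit 0), (nat_lit 1797613), (nat_lit 0), (nat_lit 8822475)]) (PF.cons (PF.leaf (nat_lit 7227718) (nat_lit 593634) (nat_lit 41604128) (nat_lit 3722765) [(nat_lit 593634), (nat_lit 1807806), (nat_lit 0), (nat_lit 8786335)]) (PF.cons (PF.leaf (nat_lit 7576299) (nat_lit 602158) (nat_lit 41053163) (nat_lit 3723539) [(nat_lit 602158), (nat_lit 1816524), (nat_lit 0), (nat_lit 8747372)]) (PF.cons (PF.leaf (nat_lit 7930978) (nat_lit 609588) (nat_lit 40498372) (nat_lit 3722519) [(nat_lit 609588), (nat_lit 1823820), (nat_lit 0), (nat_lit 8705757)]) (PF.cons (PF.leaf (nat_lit 8290345) (nat_lit 616055) (nat_lit 39941996) (nat_lit 3719755) [(nat_lit 616055), (nat_lit 1829756), (nat_lit 0), (nat_lit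 8661663)]) (PF.cons (PF.leaf (nat_lit 8653211) (nat_lit 621662) (nat_lit 39385856) (nat_lit 3715311) [(nat_lit 621662), (nat_lit 1834403), (nat_lit 0), (nat_lit 8615262)]) (PF.cons PF.nil PF.nil))))))) (PF.cons
 (PF.cons (PF.leaf (nat_lit 7662503) (nat_lit 1815646) (nat_lit 40538557) (nat_lit 3715993) [(nat_lit 0), (nat_lit 1815646), (nat_lit 0), (nat_lit 8703660)]) (PF.cons (PF.leaf (nat_lit 8009928) (nat_lit 608387) (nat_lit 39997923) (nat_lit 3713792) [(nat_lit 608387), (nat_lit 1822130), (nat_lit 0), (nat_lit 8661158)]) (PF.cons (PF.leaf (nat_lit 8362833) (nat_lit 614749) (nat_lit 39454860) (nat_lit 3709951) [(nat_lit 614749), (nat_lit 1827333), (nat_lit 0), (nat_lit 8616250)]) (PF.cons (PF.leaf (nat_lit 8719679) (nat_lit 620237) (nat_lit 38911389) (nat_lit 3704530) [(nat_lit 620237), (nat_lit 1831315), (nat_lit 0), (nat_lit 8569116)]) (PF.cons (PF.leaf (nat_lit 9079371) (nat_lit 624945) (nat_lit 38369142) (nat_lit 3697596) [(nat_lit 624945), (nat_lit 1834141), (nat_lit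 0), (nat_lit 8519934)]) PF.nil))))) (PF.cons (PF.cons (PF.leaf (nat_lit 8435774) (nat_lit 1824440) (nat_lit 38972201) (nat_lit 3699370) [(nat_lit 0), (nat_lit 1824440), (nat_lit 0), (nat_lit 8569739)]) (PF.cons (PF.leaf (nat_lit 8786053) (nat_lit 618546) (nat_lit 38441915) (nat_lit 3693055) [(nat_lit 618546), (nat_lit 1827803), (nat_lit 0), (nat_lit 8522040)]) (PF.cons (PF.leaf (nat_lit 9139842) (nat_lit 623165)
 (nat_lit 37912181) (nat_lit 3685311) [(nat_lit 623165), (nat_lit 1830068), (nat_lit 0), (nat_lit 8472358)]) (PF.cons PF.nil PF.nil)))) (PF.cons (PF.cons (PF.leaf (nat_lit 9200567) (nat_lit 1825630) (nat_lit 37460184) (nat_lit 3672437) [(nat_lit 0), (nat_lit 1825630), (nat_lit 0), (nat_lit 8424019)]) (PF.cons (PF.leaf (nat_lit 9550642) (nat_lit 624994) (nat_lit 36944748) (nat_lit 3662670) [(nat_lit 624994), (nat_lit 1826386), (nat_lit 0), (nat_lit 8372234)]) PF.nil)) (PF.cons PF.nil (PF.cons PF.nil PF.nil)))))))) (PF.cons (PF.cons (PF.cons (PF.leaf (nat_lit 6639613)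 (nat_lit 3696548) (nat_lit 41947230) (nat_lit 3696548) [(nat_lit 0), (nat_lit 0), (nat_lit 3887482), (nat_lit 8788775)]) (PF.cons (PF.leaf (nat_lit 6964487) (nat_lit 578452) (nat_lit 41431499) (nat_lit 3699938) [(nat_lit 578452), (nat_lit 0), (nat_lit 3889821), (nat_lit 8754550)]) (PF.cons (PF.leaf (nat_lit 7299823) (nat_lit 588489) (nat_lit 40905014) (nat_lit 3701589) [(nat_lit 588489), (nat_lit 0), (nat_lit 3890385), (nat_lit 8717422)]) (PF.cons (PF.leaf (nat_lit 7643126) (nat_lit 597174) (nat_lit 40371469) (nat_lit 3701491) [(nat_lit 597174), (nat_lit 0), (nat_lit 3889167), (nat_lit 8677580)]) (PF.cons (PF.leaf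
 (nat_lit 7992653) (nat_lit 604704) (nat_lit 39833715) (nat_lit 3699670) [(nat_lit 604704), (nat_lit 0), (nat_lit 3886197), (nat_lit 8635204)]) (PF.cons (PF.leaf (nat_lit 8346976) (nat_lit 611228) (nat_lit 39294023) (nat_lit 3696177) [(nat_lit 611228), (nat_lit 0), (nat_lit 3881525), (nat_lit 8590471)]) (PF.cons (PF.leaf (nat_lit 8704895) (nat_lit 616863) (nat_lit 38754229) (nat_lit 3691077) [(nat_lit 616863), (nat_lit 0), (nat_lit 3875218), (nat_lit 8543553)]) (PF.cons PF.nil (PF.cons PF.nil PF.nil))))))))) (PF.cons (PF.cons (PF.leaf (nat_lit 7392004) (nat_lit 1796822) (nat_lit 40387886) (nat_lit 3694505) [(nat_lit 0), (nat_lit 1796822), (nat_lit 3882328), (nat_lit 8673635)]) (PF.cons (PF.leaf (nat_lit 7727272) (nat_lit 595827) (nat_lit 39869428) (nat_lit 3693208) [(nat_lit 595827), (nat_lit 1804386), (nat_lit 3879904), (nat_lit 8633028)]) (PF.cons (PF.leaf (nat_lit 8069793) (nat_lit 603310) (nat_lit 39345593) (nat_lit 3690296) [(nat_lit 603310), (nat_lit 1810613),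 (nat_lit 3875833), (nat_lit 8589926)]) (PF.cons (PF.leaf (nat_lit 8417690) (nat_lit 609755) (nat_lit 38818964) (nat_lit 3685811) [(nat_lit 609755), (nat_lit 1815563), (nat_lit 3870159), (nat_lit 8544524)]) (PF.cons
 (PF.leaf (nat_lit 8769629) (nat_lit 615292) (nat_lit 38291580) (nat_lit 3679809) [(nat_lit 615292), (nat_lit 1819301), (nat_lit 3862942), (nat_lit 8497004)]) (PF.cons (PF.leaf (nat_lit 9124515) (nat_lit 620027) (nat_lit 37765082) (nat_lit 3672358) [(nat_lit 620027), (nat_lit 1821897), (nat_lit 3854250), (nat_lit 8447542)]) (PF.cons PF.nil PF.nil))))))) (PF.cons (PF.cons (PF.leaf (nat_lit 8147971) (nat_lit 1808048) (nat_lit 38861070) (nat_lit 3680108) [(nat_lit 0), (nat_lit 1808048), (nat_lit 3864629), (nat_lit 8543453)]) (PF.cons (PF.leaf (nat_lit 8488753) (nat_lit 607973) (nat_lit 38348229) (nat_lit 3674718) [(nat_lit 607973), (nat_lit 1812354), (nat_lit 3858045), (nat_lit 8497567)]) (PF.cons (PF.leaf (nat_lit 8834393) (nat_lit 613460) (nat_lit 37833757)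 (nat_lit 3667895) [(nat_lit 613460), (nat_lit 1815512), (nat_lit 3850001), (nat_lit 8449606)]) (PF.cons (PF.leaf (nat_lit 9183438) (nat_lit 618126) (nat_lit 37319496) (nat_lit 3659700) [(nat_lit 618126), (nat_lit 1817582), (nat_lit 3840559), (nat_lit 8399756)]) (PF.cons PF.nil PF.nil))))) (PF.cons (PF.cons (PF.leaf (nat_lit 8899847) (nat_lit 1811339) (nat_lit 37380278) (nat_lit 3655359) [(nat_lit 0), (nat_lit 1811339), (nat_lit
 3836420), (nat_lit 8401367)]) (PF.cons (PF.leaf (nat_lit 9242510) (nat_lit 615991) (nat_lit 36878700) (nat_lit 3646492) [(nat_lit 615991), (nat_lit 1812923), (nat_lit 3826305), (nat_lit 8351275)]) (PF.cons (PF.leaf (nat_lit 9588220) (nat_lit 619883) (nat_lit 36378114) (nat_lit 3636389) [(nat_lit 619883), (nat_lit 1813530), (nat_lit 3814930), (nat_lit 8299510)]) (PF.cons PF.nil PF.nil)))) (PF.cons (PF.cons (PF.leaf (nat_lit 9642071) (nat_lit 1808137) (nat_lit 35954025) (nat_lit 3622110) [(nat_lit 0), (nat_lit 1808137), (nat_lit 3799590), (nat_lit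 8250267)]) (PF.cons PF.nil PF.nil)) (PF.cons PF.nil PF.nil)))))) (PF.cons (PF.cons (PF.cons (PF.leaf (nat_lit 7874108) (nat_lit 3659960) (nat_lit 38729785) (nat_lit 3659960) [(nat_lit 0), (nat_lit 0), (nat_lit 3844244), (nat_lit 8515288)]) (PF.cons (PF.leaf (nat_lit 8203653) (nat_lit 596030) (nat_lit 38237186) (nat_lit 3655530) [(nat_lit 596030), (nat_lit 0), (nat_lit 3838633), (nat_lit 8471399)]) (PF.cons (PF.leaf (nat_lit 8539787) (nat_lit 602612) (nat_lit 37740197) (nat_lit 3649664) [(nat_lit 602612), (nat_lit 0), (nat_lit 3831558), (nat_lit 8425304)]) (PF.cons (PF.leaf (nat_lit 8880687) (nat_lit 608209) (nat_lit 37241196) (nat_lit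
 3642413) [(nat_lit 608209), (nat_lit 0), (nat_lit 3823073), (nat_lit 8377213)]) (PF.cons (PF.leaf (nat_lit 9225096) (nat_lit 612951) (nat_lit 36742041) (nat_lit 3633842) [(nat_lit 612951), (nat_lit 0), (nat_lit 3813246), (nat_lit 8327314)]) (PF.cons PF.nil (PF.cons PF.nil PF.nil))))))) (PF.cons (PF.cons (PF.leaf (nat_lit 8610609) (nat_lit 1796045) (nat_lit 37284572) (nat_lit 3637462) [(nat_lit 0), (nat_lit 1796045), (nat_lit 3818303), (nat_lit 8377062)]) (PF.cons (PF.leaf (nat_lit 8944560) (nat_lit 605968) (nat_lit 36798856) (nat_lit 3629534) [(nat_lit 605968), (nat_lit 1798548), (nat_lit 3809142), (nat_lit 8328810)]) (PF.cons (PF.leaf (nat_lit 9282866) (nat_lit 610704) (nat_lit 36312103) (nat_lit 3620347) [(nat_lit 610704), (nat_lit 1800019), (nat_lit 3798700), (nat_lit 8278766)]) (PF.cons (PF.leaf (nat_lit 9624113) (nat_lit 614667) (nat_lit 35825992) (nat_lit 3609969) [(nat_lit 614667), (nat_lit 1800518), (nat_lit 3787046), (nat_lit 8227118)]) (PF.cons PF.nil PF.nil)))))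 (PF.cons (PF.cons (PF.leaf (nat_lit 9341522) (nat_lit 1794852) (nat_lit 35886305) (nat_lit 3606356) [(nat_lit 0), (nat_lit 1794852), (nat_lit 3783644), (nat_lit 8229578)]) (PF.cons (PF.leaf (nat_lit 9676588)
 (nat_lit 612184) (nat_lit 35412299) (nat_lit 3595486) [(nat_lit 612184), (nat_lit 1794975), (nat_lit 3771501), (nat_lit 8177944)]) (PF.cons PF.nil (PF.cons PF.nil PF.nil)))) (PF.cons (PF.cons (PF.leaf (nat_lit 10061991) (nat_lit 1788103) (nat_lit 34541724) (nat_lit 3568253) [(nat_lit 0), (nat_lit 1788103), (nat_lit 3741909), (nat_lit 8075352)]) (PF.cons PF.nil PF.nil)) (PF.cons PF.nil PF.nil))))) (PF.cons (PF.cons (PF.cons (PF.leaf (nat_lit 9051853) (nat_lit 3589774) (nat_lit 35804003) (nat_lit 3589774) [(nat_lit 0), (nat_lit 0), (nat_lit 3766861), (nat_lit 8207224)]) (PF.cons (PF.leaf (nat_lit 9378898) (nat_lit 602687) (nat_lit 35344431) (nat_lit 3579839) [(nat_lit 602687), (nat_lit 0), (nat_lit 3755671), (nat_lit 8157419)]) (PF.cons (PF.leaf (nat_lit 9709877)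 (nat_lit 606778) (nat_lit 34884258) (nat_lit 3568797) [(nat_lit 606778), (nat_lit 0), (nat_lit 3743356), (nat_lit 8106065)]) (PF.cons PF.nil PF.nil)))) (PF.cons (PF.cons (PF.leaf (nat_lit 9762376) (nat_lit 1775761) (nat_lit 34484530) (nat_lit 3553748) [(nat_lit 0), (nat_lit 1775761), (nat_lit 3727235), (nat_lit 8056532)]) (PF.cons (PF.leaf (nat_lit 10089953) (nat_lit 607387) (nat_lit 34036780) (nat_lit 3541321) [(nat_lit
 607387), (nat_lit 1774685), (nat_lit 3713526), (nat_lit 8004028)]) PF.nil)) (PF.cons PF.nil PF.nil))) (PF.cons (PF.cons (PF.cons (PF.leaf (nat_lit 10163934) (nat_lit 3498636) (nat_lit 33169083) (nat_lit 3498636) [(nat_lit 0), (nat_lit 0), (nat_lit 3668332), (nat_lit 7883881)]) (PF.cons PF.nil PF.nil)) (PF.cons PF.nil PF.nil)) (PF.cons PF.nil PF.nil)))))) (PF.cons (PF.cons (PF.cons (PF.cons (PF.leaf (nat_lit 7304375) (nat_lit 3584808) (nat_lit 38309437) (nat_lit 3584808) [(nat_lit 0), (nat_lit 0), (nat_lit 0), (nat_lit 8404855)]) (PF.cons (PF.leaf (nat_lit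 7614700) (nat_lit 566894) (nat_lit 37858957) (nat_lit 3583752) [(nat_lit 566894), (nat_lit 0), (nat_lit 0), (nat_lit 8366403)]) (PF.cons (PF.leaf (nat_lit 7934501) (nat_lit 575748) (nat_lit 37399529) (nat_lit 3581196) [(nat_lit 575748), (nat_lit 0), (nat_lit 0), (nat_lit 8325529)]) (PF.cons (PF.leaf (nat_lit 8261412) (nat_lit 583308) (nat_lit 36934321) (nat_lit 3577170) [(nat_lit 583308), (nat_lit 0), (nat_lit 0), (nat_lit 8282465)]) (PF.cons (PF.leaf (nat_lit 8593801) (nat_lit 589775) (nat_lit 36465762) (nat_lit 3571722) [(nat_lit 589775), (nat_lit 0), (nat_lit 0), (nat_lit 8237408)]) (PF.cons (PF.leaf (nat_lit 8930390) (nat_lit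
 595301) (nat_lit 35995766) (nat_lit 3564913) [(nat_lit 595301), (nat_lit 0), (nat_lit 0), (nat_lit 8190541)]) (PF.cons (PF.leaf (nat_lit 9270067) (nat_lit 600005) (nat_lit 35525872) (nat_lit 3556812) [(nat_lit 600005), (nat_lit 0), (nat_lit 0), (nat_lit 8142030)]) (PF.cons PF.nil (PF.cons PF.nil PF.nil))))))))) (PF.cons (PF.cons (PF.leaf (nat_lit 8014768) (nat_lit 1747600) (nat_lit 36951564) (nat_lit 3571009) [(nat_lit 0), (nat_lit 1747600), (nat_lit 0), (nat_lit 8279546)]) (PF.cons (PF.leaf (nat_lit 8334019) (nat_lit 581315) (nat_lit 36499647) (nat_lit 3566180) [(nat_lit 581315), (nat_lit 1752739), (nat_lit 0), (nat_lit 8236309)]) (PF.cons (PF.leaf (nat_lit 8659819) (nat_lit 587800) (nat_lit 36043296) (nat_lit 3560004) [(nat_lit 587800), (nat_lit 1756691), (nat_lit 0), (nat_lit 8191072)]) (PF.cons (PF.leaf (nat_lit 8990394) (nat_lit 593309) (nat_lit 35584705) (nat_lit 3552538) [(nat_lit 593309), (nat_lit 1759525), (nat_lit 0), (nat_lit 8144038)]) (PF.cons (PF.leaf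 (nat_lit 9324511) (nat_lit 597974) (nat_lit 35125595) (nat_lit 3543843) [(nat_lit 597974), (nat_lit 1761312), (nat_lit 0), (nat_lit 8095388)]) (PF.cons PF.nil (PF.cons PF.nil PF.nil))))))) (PF.cons (PF.cons (PF.leaf
 (nat_lit 8727199) (nat_lit 1752681) (nat_lit 35623886) (nat_lit 3547711) [(nat_lit 0), (nat_lit 1752681), (nat_lit 0), (nat_lit 8143950)]) (PF.cons (PF.leaf (nat_lit 9051081) (nat_lit 591057) (nat_lit 35177295) (nat_lit 3539657) [(nat_lit 591057), (nat_lit 1755052), (nat_lit 0), (nat_lit 8096899)]) (PF.cons (PF.leaf (nat_lit 9379346) (nat_lit 595725) (nat_lit 34729378) (nat_lit 3530432) [(nat_lit 595725), (nat_lit 1756425), (nat_lit 0), (nat_lit 8048233)]) (PF.cons (PF.leaf (nat_lit 9710628) (nat_lit 599632) (nat_lit 34281689) (nat_lit 3520101) [(nat_lit 599632), (nat_lit 1756863), (nat_lit 0), (nat_lit 7998132)]) (PF.cons PF.nil PF.nil))))) (PF.cons (PF.cons (PF.leaf (nat_lit 9435183) (nat_lit 1751260) (nat_lit 34336780) (nat_lit 3516590) [(nat_lit 0),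 (nat_lit 1751260), (nat_lit 0), (nat_lit 8000553)]) (PF.cons (PF.leaf (nat_lit 9760518) (nat_lit 597170) (nat_lit 33900023) (nat_lit 3505838) [(nat_lit 597170), (nat_lit 1751356), (nat_lit 0), (nat_lit 7950569)]) (PF.cons PF.nil (PF.cons PF.nil PF.nil)))) (PF.cons (PF.cons (PF.leaf (nat_lit 10134061) (nat_lit 1744592) (nat_lit 33096630) (nat_lit 3479136) [(nat_lit 0), (nat_lit 1744592), (nat_lit 0), (nat_lit 7851558)]) (PF.cons
 PF.nil PF.nil)) (PF.cons PF.nil PF.nil)))))) (PF.cons (PF.cons (PF.cons (PF.leaf (nat_lit 8457328) (nat_lit 3529322) (nat_lit 35517976) (nat_lit 3529322) [(nat_lit 0), (nat_lit 0), (nat_lit 3705146), (nat_lit 8118789)]) (PF.cons (PF.leaf (nat_lit 8771100) (nat_lit 579781) (nat_lit 35088552) (nat_lit 3522283) [(nat_lit 579781), (nat_lit 0), (nat_lit 3696903), (nat_lit 8073764)]) (PF.cons (PF.leaf (nat_lit 9090887) (nat_lit 585526) (nat_lit 34655412) (nat_lit 3514040) [(nat_lit 585526), (nat_lit 0), (nat_lit 3687438), (nat_lit 8026956)]) (PF.cons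 (PF.leaf (nat_lit 9414958) (nat_lit 590344) (nat_lit 34220583) (nat_lit 3504654) [(nat_lit 590344), (nat_lit 0), (nat_lit 3676815), (nat_lit 7978574)]) (PF.cons (PF.leaf (nat_lit 9742167) (nat_lit 594368) (nat_lit 33785642) (nat_lit 3494192) [(nat_lit 594368), (nat_lit 0), (nat_lit 3665102), (nat_lit 7928801)]) PF.nil))))) (PF.cons (PF.cons (PF.leaf (nat_lit 9152129) (nat_lit 1737205) (nat_lit 34260602) (nat_lit 3500477) [(nat_lit 0), (nat_lit 1737205), (nat_lit 3672828), (nat_lit 7979233)]) (PF.cons (PF.leaf (nat_lit 9469684) (nat_lit 587770) (nat_lit 33837255) (nat_lit 3490665) [(nat_lit 587770), (nat_lit 1738209), (nat_lit 3661788),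
 (nat_lit 7931041)]) (PF.cons (PF.leaf (nat_lit 9791220) (nat_lit 591830) (nat_lit 33412995) (nat_lit 3479820) [(nat_lit 591830), (nat_lit 1738310), (nat_lit 3649698), (nat_lit 7881441)]) (PF.cons PF.nil PF.nil)))) (PF.cons (PF.cons (PF.leaf (nat_lit 9841438) (nat_lit 1732478) (nat_lit 33043753) (nat_lit 3465101) [(nat_lit 0), (nat_lit 1732478), (nat_lit 3633940), (nat_lit 7833686)]) (PF.cons (PF.leaf (nat_lit 10159872) (nat_lit 592473) (nat_lit 32630392) (nat_lit 3452993) [(nat_lit 592473), (nat_lit 1731480), (nat_lit 3620585), (nat_lit 7783135)]) PF.nil)) (PF.cons PF.nil (PF.cons PF.nil PF.nil))))) (PF.cons (PF.cons (PF.cons (PF.leaf (nat_lit 9558875) (nat_lit 3450225) (nat_lit 32978229) (nat_lit 3450225) [(nat_lit 0), (nat_lit 0), (nat_lit 3618908), (nat_lit 7814180)]) (PF.cons (PF.leaf (nat_lit 9870093) (nat_lit 583576) (nat_lit 32577102) (nat_lit 3439033) [(nat_lit 583576), (nat_lit 0), (nat_lit 3606486), (nat_lit 7765375)]) (PF.cons (PF.leaf (nat_lit 10184953)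 (nat_lit 587111) (nat_lit 32175370) (nat_lit 3426924) [(nat_lit 587111), (nat_lit 0), (nat_lit 3593135), (nat_lit 7715341)]) (PF.cons PF.nil PF.nil)))) (PF.cons (PF.cons (PF.leaf (nat_lit 10230068) (nat_lit 1711991)
 (nat_lit 31828026) (nat_lit 3411599) [(nat_lit 0), (nat_lit 1711991), (nat_lit 3576778), (nat_lit 7667879)]) (PF.cons PF.nil PF.nil)) (PF.cons PF.nil PF.nil))) (PF.cons (PF.cons (PF.cons (PF.leaf (nat_lit 10602314) (nat_lit 3356816) (nat_lit 30684487) (nat_lit 3356816) [(nat_lit 0), (nat_lit 0), (nat_lit 3518384), (nat_lit 7504118)]) (PF.cons PF.nil PF.nil)) (PF.cons PF.nil PF.nil)) (PF.cons PF.nil PF.nil))))) (PF.cons (PF.cons (PF.cons (PF.cons (PF.leaf (nat_lit 8981800) (nat_lit 3397662) (nat_lit 32754584) (nat_lit 3397662) [(nat_lit 0), (nat_lit 0), (nat_lit 0), (nat_lit 7739141)]) (PF.cons (PF.leaf (nat_lit 9281346) (nat_lit 562682) (nat_lit 32378329) (nat_lit 3389123) [(nat_lit 562682), (nat_lit 0), (nat_lit 0), (nat_lit 7694669)]) (PF.cons (PF.leaf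 (nat_lit 9586464) (nat_lit 567788) (nat_lit 31998816) (nat_lit 3379554) [(nat_lit 567788), (nat_lit 0), (nat_lit 0), (nat_lit 7648716)]) (PF.cons (PF.leaf (nat_lit 9895497) (nat_lit 572021) (nat_lit 31617787) (nat_lit 3369023) [(nat_lit 572021), (nat_lit 0), (nat_lit 0), (nat_lit 7601484)]) (PF.cons PF.nil PF.nil))))) (PF.cons (PF.cons (PF.leaf (nat_lit 9640147) (nat_lit 1677853) (nat_lit 31654662) (nat_lit 3365470) [(nat_lit 0),
 (nat_lit 1677853), (nat_lit 0), (nat_lit 7602706)]) (PF.cons (PF.leaf (nat_lit 9943053) (nat_lit 569268) (nat_lit 31283548) (nat_lit 3354680) [(nat_lit 569268), (nat_lit 1677866), (nat_lit 0), (nat_lit 7555862)]) (PF.cons (PF.leaf (nat_lit 10249650) (nat_lit 572824) (nat_lit 30911552) (nat_lit 3343020) [(nat_lit 572824), (nat_lit 1677080), (nat_lit 0), (nat_lit 7507877)]) (PF.cons PF.nil PF.nil)))) (PF.cons (PF.cons (PF.leaf (nat_lit 10293274) (nat_lit 1670942) (nat_lit 30589279) (nat_lit 3328200) [(nat_lit 0), (nat_lit 1670942), (nat_lit 0),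 (nat_lit 7462361)]) (PF.cons PF.nil PF.nil)) PF.nil))) (PF.cons (PF.cons (PF.cons (PF.leaf (nat_lit 10018313) (nat_lit 3314872) (nat_lit 30536783) (nat_lit 3314872) [(nat_lit 0), (nat_lit 0), (nat_lit 3475630), (nat_lit 7445381)]) (PF.cons (PF.leaf (nat_lit 10315393) (nat_lit 564577) (nat_lit 30184506) (nat_lit 3303119) [(nat_lit 564577), (nat_lit 0), (nat_lit 3462695), (nat_lit 7398478)]) (PF.cons PF.nil PF.nil))) (PF.cons (PF.cons (PF.leaf (nat_lit 10655236) (nat_lit 1650027) (nat_lit 29527724) (nat_lit 3275447) [(nat_lit 0), (nat_lit 1650027), (nat_lit 3432854), (nat_lit 7305689)]) PF.nil) PF.nil)) (PF.cons PF.nil PF.nil))) (PF.cons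
 (PF.cons (PF.cons (PF.cons (PF.leaf (nat_lit 10439629) (nat_lit 3185691) (nat_lit 28411900) (nat_lit 3185691) [(nat_lit 0), (nat_lit 0), (nat_lit 0), (nat_lit 7102244)]) (PF.cons (PF.leaf (nat_lit 10724013) (nat_lit 546093) (nat_lit 28100599) (nat_lit 3173802) [(nat_lit 546093), (nat_lit 0), (nat_lit 0), (nat_lit 7057663)]) PF.nil)) (PF.cons PF.nil PF.nil)) (PF.cons PF.nil PF.nil)) (PF.cons PF.nil (PF.cons PF.nil (PF.cons PF.nil PF.nil)))))))))

def p15_28_0_0 : pfC (piC [(nat_lit 36496589), (nat_lit 24304186), (nat_lit 18078890), (nat_lit 12207801)] (nat_lit 20402210)) p15_28_0 (nat_lit 4) (nat_lit 0) (nat_lit 1) = true := by decide +kernel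
def p15_28_0_1 : pfC (piC [(nat_lit 36496589), (nat_lit 24304186), (nat_lit 18078890), (nat_lit 12207801)] (nat_lit 20402210)) p15_28_0 (nat_lit 4) (nat_lit 1) (nat_lit 2) = true := by decide +kernel
def p15_28_0_2 : pfC (piC [(nat_lit 36496589), (nat_lit 24304186), (nat_lit 18078890), (nat_lit 12207801)] (nat_lit 20402210)) p15_28_0 (nat_lit 4) (nat_lit 2) (nat_lit 3) = true := by decide +kernel
def p15_28_0_3 : pfC (piC [(nat_lit 36496589), (nat_lit 24304186), (nat_lit 18078890), (nat_lit 12207801)] (nat_lit 20402210)) p15_28_0 (nat_lit 4) (nat_lit 3) (nat_lit 4) = true := by decide +kernel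
def p15_28_0_4 : pfC (piC [(nat_lit 36496589), (nat_lit 24304186), (nat_lit 18078890), (nat_lit 12207801)] (nat_lit 20402210)) p15_28_0 (nat_lit 4) (nat_lit 4) (nat_lit 5) = true := by decide +kernel
def p15_28_0_5 : pfC (piC [(nat_lit 36496589), (nat_lit 24304186), (nat_lit 18078890), (nat_lit 12207801)] (nat_lit 20402210)) p15_28_0 (nat_lit 4) (nat_lit 5) (nat_lit 6) = true := by decide +kernel
def p15_28_0_6 : pfC (piC [(nat_lit 36496589), (nat_lit 24304186), (nat_lit 18078890), (nat_lit 12207801)] (nat_lit 20402210)) p15_28_0 (nat_lit 4) (nat_lit 6) (nat_lit 7) = true := by decide +kernel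
def p15_28_0_7 : pfC (piC [(nat_lit 36496589), (nat_lit 24304186), (nat_lit 18078890), (nat_lit 12207801)] (nat_lit 20402210)) p15_28_0 (nat_lit 4) (nat_lit 7) (nat_lit 8) = true := by decide +kernel
def p15_28_0_8 : pfC (piC [(nat_lit 36496589), (nat_lit 24304186), (nat_lit 18078890), (nat_lit 12207801)] (nat_lit 20402210)) p15_28_0 (nat_lit 4) (nat_lit 8) (nat_lit 9) = true := by decide +kernel
def p15_28_0_9 : pfC (piC [(nat_lit 36496589), (nat_lit 24304186), (nat_lit 18078890), (nat_lit 12207801)] (nat_lit 20402210)) p15_28_0 (nat_lit 4) (nat_lit 9) (nat_lit 10) = true := by decide +kernel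
def p15_28_0_10 : pfC (piC [(nat_lit 36496589), (nat_lit 24304186), (nat_lit 18078890), (nat_lit 12207801)] (nat_lit 20402210)) p15_28_0 (nat_lit 4) (nat_lit 10) (nat_lit 11) = true := by decide +kernel
def p15_28_0_11 : pfC (piC [(nat_lit 36496589), (nat_lit 24304186), (nat_lit 18078890), (nat_lit 12207801)] (nat_lit 20402210)) p15_28_0 (nat_lit 4) (nat_lit 11) (nat_lit 12) = true := by decide +kernel
def p15_28_0_12 : pfC (piC [(nat_lit 36496589), (nat_lit 24304186), (nat_lit 18078890), (nat_lit 12207801)] (nat_lit 20402210)) p15_28_0 (nat_lit 4) (nat_lit 12) (nat_lit 13) = true := by decide +kernel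
def p15_28_0_13 : pfC (piC [(nat_lit 36496589), (nat_lit 24304186), (nat_lit 18078890), (nat_lit 12207801)] (nat_lit 20402210)) p15_28_0 (nat_lit 4) (nat_lit 13) (nat_lit 14) = true := by decide +kernel
def p15_28_0_14 : pfC (piC [(nat_lit 36496589), (nat_lit 24304186), (nat_lit 18078890), (nat_lit 12207801)] (nat_lit 20402210)) p15_28_0 (nat_lit 4) (nat_lit 14) (nat_lit 15) = true := by decide +kernel
def p15_28_0_15 : pfC (piC [(nat_lit 36496589), (nat_lit 24304186), (nat_lit 18078890), (nat_lit 12207801)] (nat_lit 20402210)) p15_28_0 (nat_lit 4) (nat_lit 15) (nat_lit 16) = true := by decide +kernel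
def p15_28_0_16 : pfC (piC [(nat_lit 36496589), (nat_lit 24304186), (nat_lit 18078890), (nat_lit 12207801)] (nat_lit 20402210)) p15_28_0 (nat_lit 4) (nat_lit 16) (nat_lit 17) = true := by decide +kernel
def p15_28_0_17 : pfC (piC [(nat_lit 36496589), (nat_lit 24304186), (nat_lit 18078890), (nat_lit 12207801)] (nat_lit 20402210)) p15_28_0 (nat_lit 4) (nat_lit 17) (nat_lit 18) = true := by decide +kernel
def p15_28_0_18 : pfC (piC [(nat_lit 36496589), (nat_lit 24304186), (nat_lit 18078890), (nat_lit 12207801)] (nat_lit 20402210)) p15_28_0 (nat_lit 4) (nat_lit 18) (nat_lit 19) = true := by decide +kernel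
def p15_28_0_19 : pfC (piC [(nat_lit 36496589), (nat_lit 24304186), (nat_lit 18078890), (nat_lit 12207801)] (nat_lit 20402210)) p15_28_0 (nat_lit 4) (nat_lit 19) (nat_lit 20) = true := by decide +kernel
def p15_28_0_20 : pfC (piC [(nat_lit 36496589), (nat_lit 24304186), (nat_lit 18078890), (nat_lit 12207801)] (nat_lit 20402210)) p15_28_0 (nat_lit 4) (nat_lit 20) (nat_lit 21) = true := by decide +kernel
def p15_28_0_21 : pfC (piC [(nat_lit 36496589), (nat_lit 24304186), (nat_lit 18078890), (nat_lit 12207801)] (nat_lit 20402210)) p15_28_0 (nat_lit 4) (nat_lit 21) (nat_lit 22) = true := by decide +kernel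
def p15_28_0_22 : pfC (piC [(nat_lit 36496589), (nat_lit 24304186), (nat_lit 18078890), (nat_lit 12207801)] (nat_lit 20402210)) p15_28_0 (nat_lit 4) (nat_lit 22) (nat_lit 23) = true := by decide +kernel
def p15_28_0_23 : pfC (piC [(nat_lit 36496589), (nat_lit 24304186), (nat_lit 18078890), (nat_lit 12207801)] (nat_lit 20402210)) p15_28_0 (nat_lit 4) (nat_lit 23) (nat_lit 24) = true := by decide +kernel
def p15_28_0_24 : pfC (piC [(nat_lit 36496589), (nat_lit 24304186), (nat_lit 18078890), (nat_lit 12207801)] (nat_lit 20402210)) p15_28_0 (nat_lit 4) (nat_lit 24) (nat_lit 25) = true := by decide +kernel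
def p15_28_0_25 : pfC (piC [(nat_lit 36496589), (nat_lit 24304186), (nat_lit 18078890), (nat_lit 12207801)] (nat_lit 20402210)) p15_28_0 (nat_lit 4) (nat_lit 25) (nat_lit 26) = true := by decide +kernel
def p15_28_0_26 : pfC (piC [(nat_lit 36496589), (nat_lit 24304186), (nat_lit 18078890), (nat_lit 12207801)] (nat_lit 20402210)) p15_28_0 (nat_lit 4) (nat_lit 26) (nat_lit 27) = true := by decide +kernel
def p15_28_0_27 : pfC (piC [(nat_lit 36496589), (nat_lit 24304186), (nat_lit 18078890), (nat_lit 12207801)] (nat_lit 20402210)) p15_28_0 (nat_lit 4) (nat_lit 27) (nat_lit 28) = true := by decide +kernel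
def p15_28_0_28 : pfC (piC [(nat_lit 36496589), (nat_lit 24304186), (nat_lit 18078890), (nat_lit 12207801)] (nat_lit 20402210)) p15_28_0 (nat_lit 4) (nat_lit 28) (nat_lit 29) = true := by decide +kernel
def p15_28_0_29 : pfC (piC [(nat_lit 36496589), (nat_lit 24304186), (nat_lit 18078890), (nat_lit 12207801)] (nat_lit 20402210)) p15_28_0 (nat_lit 4) (nat_lit 29) (nat_lit 30) = true := by decide +kernel
def p15_28_0_30 : pfC (piC [(nat_lit 36496589), (nat_lit 24304186), (nat_lit 18078890), (nat_lit 12207801)] (nat_lit 20402210)) p15_28_0 (nat_lit 4) (nat_lit 30) (nat_lit 31) = true := by decide +kernel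
def p15_28_0_31 : pfC (piC [(nat_lit 36496589), (nat_lit 24304186), (nat_lit 18078890), (nat_lit 12207801)] (nat_lit 20402210)) p15_28_0 (nat_lit 4) (nat_lit 31) (nat_lit 32) = true := by decide +kernel
def p15_28_0_32 : pfC (piC [(nat_lit 36496589), (nat_lit 24304186), (nat_lit 18078890), (nat_lit 12207801)] (nat_lit 20402210)) p15_28_0 (nat_lit 4) (nat_lit 32) (nat_lit 33) = true := by decide +kernel
def p15_28_0_33 : pfC (piC [(nat_lit 36496589), (nat_lit 24304186), (nat_lit 18078890), (nat_lit 12207801)] (nat_lit 20402210)) p15_28_0 (nat_lit 4) (nat_lit 33) (nat_lit 34) = true := by decide +kernel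
def p15_28_0_34 : pfC (piC [(nat_lit 36496589), (nat_lit 24304186), (nat_lit 18078890), (nat_lit 12207801)] (nat_lit 20402210)) p15_28_0 (nat_lit 4) (nat_lit 34) (nat_lit 35) = true := by decide +kernel
def p15_28_0_35 : pfC (piC [(nat_lit 36496589), (nat_lit 24304186), (nat_lit 18078890), (nat_lit 12207801)] (nat_lit 20402210)) p15_28_0 (nat_lit 4) (nat_lit 35) (nat_lit 36) = true := by decide +kernel
def p15_28_0_36 : pfC (piC [(nat_lit 36496589), (nat_lit 24304186), (nat_lit 18078890), (nat_lit 12207801)] (nat_lit 20402210)) p15_28_0 (nat_lit 4) (nat_lit 36) (nat_lit 37) = true := by decide +kernel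
def p15_28_0_37 : pfC (piC [(nat_lit 36496589), (nat_lit 24304186), (nat_lit 18078890), (nat_lit 12207801)] (nat_lit 20402210)) p15_28_0 (nat_lit 4) (nat_lit 37) (nat_lit 38) = true := by decide +kernel
def p15_28_0_38 : pfC (piC [(nat_lit 36496589), (nat_lit 24304186), (nat_lit 18078890), (nat_lit 12207801)] (nat_lit 20402210)) p15_28_0 (nat_lit 4) (nat_lit 38) (nat_lit 39) = true := by decide +kernel
def p15_28_0_39 : pfC (piC [(nat_lit 36496589), (nat_lit 24304186), (nat_lit 18078890), (nat_lit 12207801)] (nat_lit 20402210)) p15_28_0 (nat_lit 4) (nat_lit 39) (nat_lit 40) = true := by decide +kernel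
def p15_28_0_40 : pfC (piC [(nat_lit 36496589), (nat_lit 24304186), (nat_lit 18078890), (nat_lit 12207801)] (nat_lit 20402210)) p15_28_0 (nat_lit 4) (nat_lit 40) (nat_lit 41) = true := by decide +kernel
def p15_28_0_41 : pfC (piC [(nat_lit 36496589), (nat_lit 24304186), (nat_lit 18078890), (nat_lit 12207801)] (nat_lit 20402210)) p15_28_0 (nat_lit 4) (nat_lit 41) (nat_lit 42) = true := by decide +kernel
def p15_28_0_42 : pfC (piC [(nat_lit 36496589), (nat_lit 24304186), (nat_lit 18078890), (nat_lit 12207801)] (nat_lit 20402210)) p15_28_0 (nat_lit 4) (nat_lit 42) (nat_lit 43) = true := by decide +kernel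
def p15_28_0_43 : pfC (piC [(nat_lit 36496589), (nat_lit 24304186), (nat_lit 18078890), (nat_lit 12207801)] (nat_lit 20402210)) p15_28_0 (nat_lit 4) (nat_lit 43) (nat_lit 44) = true := by decide +kernel
def p15_28_0_44 : pfC (piC [(nat_lit 36496589), (nat_lit 24304186), (nat_lit 18078890), (nat_lit 12207801)] (nat_lit 20402210)) p15_28_0 (nat_lit 4) (nat_lit 44) (nat_lit 45) = true := by decide +kernel
def p15_28_0_45 : pfC (piC [(nat_lit 36496589), (nat_lit 24304186), (nat_lit 18078890), (nat_lit 12207801)] (nat_lit 20402210)) p15_28_0 (nat_lit 4) (nat_lit 45) (nat_lit 46) = true := by decide +kernel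
def p15_28_0_46 : pfC (piC [(nat_lit 36496589), (nat_lit 24304186), (nat_lit 18078890), (nat_lit 12207801)] (nat_lit 20402210)) p15_28_0 (nat_lit 4) (nat_lit 46) (nat_lit 47) = true := by decide +kernel
def p15_28_0_47 : pfC (piC [(nat_lit 36496589), (nat_lit 24304186), (nat_lit 18078890), (nat_lit 12207801)] (nat_lit 20402210)) p15_28_0 (nat_lit 4) (nat_lit 47) (nat_lit 48) = true := by decide +kernel
def p15_28_0_48 : pfC (piC [(nat_lit 36496589), (nat_lit 24304186), (nat_lit 18078890), (nat_lit 12207801)] (nat_lit 20402210)) p15_28_0 (nat_lit 4) (nat_lit 48) (nat_lit 49) = true := by decide +kernel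
def p15_28_0_49 : pfC (piC [(nat_lit 36496589), (nat_lit 24304186), (nat_lit 18078890), (nat_lit 12207801)] (nat_lit 20402210)) p15_28_0 (nat_lit 4) (nat_lit 49) (nat_lit 50) = true := by decide +kernel
def p15_28_0_50 : pfC (piC [(nat_lit 36496589), (nat_lit 24304186), (nat_lit 18078890), (nat_lit 12207801)] (nat_lit 20402210)) p15_28_0 (nat_lit 4) (nat_lit 50) (nat_lit 51) = true := by decide +kernel
def p15_28_0_51 : pfC (piC [(nat_lit 36496589), (nat_lit 24304186), (nat_lit 18078890), (nat_lit 12207801)] (nat_lit 20402210)) p15_28_0 (nat_lit 4) (nat_lit 51) (nat_lit 52) = true := by decide +kernel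
def p15_28_0_52 : pfC (piC [(nat_lit 36496589), (nat_lit 24304186), (nat_lit 18078890), (nat_lit 12207801)] (nat_lit 20402210)) p15_28_0 (nat_lit 4) (nat_lit 52) (nat_lit 53) = true := by decide +kernel
def p15_28_0_53 : pfC (piC [(nat_lit 36496589), (nat_lit 24304186), (nat_lit 18078890), (nat_lit 12207801)] (nat_lit 20402210)) p15_28_0 (nat_lit 4) (nat_lit 53) (nat_lit 54) = true := by decide +kernel
def p15_28_0_54 : pfC (piC [(nat_lit 36496589), (nat_lit 24304186), (nat_lit 18078890), (nat_lit 12207801)] (nat_lit 20402210)) p15_28_0 (nat_lit 4) (nat_lit 54) (nat_lit 55) = true := by decide +kernel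
def p15_28_0_55 : pfC (piC [(nat_lit 36496589), (nat_lit 24304186), (nat_lit 18078890), (nat_lit 12207801)] (nat_lit 20402210)) p15_28_0 (nat_lit 4) (nat_lit 55) (nat_lit 56) = true := by decide +kernel
def p15_28_0_56 : pfC (piC [(nat_lit 36496589), (nat_lit 24304186), (nat_lit 18078890), (nat_lit 12207801)] (nat_lit 20402210)) p15_28_0 (nat_lit 4) (nat_lit 56) (nat_lit 57) = true := by decide +kernel
def p15_28_0_57 : pfC (piC [(nat_lit 36496589), (nat_lit 24304186), (nat_lit 18078890), (nat_lit 12207801)] (nat_lit 20402210)) p15_28_0 (nat_lit 4) (nat_lit 57) (nat_lit 58) = true := by decide +kernel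
def p15_28_0_58 : pfC (piC [(nat_lit 36496589), (nat_lit 24304186), (nat_lit 18078890), (nat_lit 12207801)] (nat_lit 20402210)) p15_28_0 (nat_lit 4) (nat_lit 58) (nat_lit 59) = true := by decide +kernel
def p15_28_0_59 : pfC (piC [(nat_lit 36496589), (nat_lit 24304186), (nat_lit 18078890), (nat_lit 12207801)] (nat_lit 20402210)) p15_28_0 (nat_lit 4) (nat_lit 59) (nat_lit 60) = true := by decide +kernel
def p15_28_0_60 : pfC (piC [(nat_lit 36496589), (nat_lit 24304186), (nat_lit 18078890), (nat_lit 12207801)] (nat_lit 20402210)) p15_28_0 (nat_lit 4) (nat_lit 60) (nat_lit 61) = true := by decide +kernel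
def p15_28_0_61 : pfC (piC [(nat_lit 36496589), (nat_lit 24304186), (nat_lit 18078890), (nat_lit 12207801)] (nat_lit 20402210)) p15_28_0 (nat_lit 4) (nat_lit 61) (nat_lit 62) = true := by decide +kernel
def p15_28_0_62 : pfC (piC [(nat_lit 36496589), (nat_lit 24304186), (nat_lit 18078890), (nat_lit 12207801)] (nat_lit 20402210)) p15_28_0 (nat_lit 4) (nat_lit 62) (nat_lit 63) = true := by decide +kernel
def p15_28_0_63 : pfC (piC [(nat_lit 36496589), (nat_lit 24304186), (nat_lit 18078890), (nat_lit 12207801)] (nat_lit 20402210)) p15_28_0 (nat_lit 4) (nat_lit 63) (nat_lit 64) = true := by decide +kernel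
def p15_28_0_64 : pfC (piC [(nat_lit 36496589), (nat_lit 24304186), (nat_lit 18078890), (nat_lit 12207801)] (nat_lit 20402210)) p15_28_0 (nat_lit 4) (nat_lit 64) (nat_lit 65) = true := by decide +kernel
def p15_28_0_65 : pfC (piC [(nat_lit 36496589), (nat_lit 24304186), (nat_lit 18078890), (nat_lit 12207801)] (nat_lit 20402210)) p15_28_0 (nat_lit 4) (nat_lit 65) (nat_lit 66) = true := by decide +kernel
def p15_28_0_66 : pfC (piC [(nat_lit 36496589), (nat_lit 24304186), (nat_lit 18078890), (nat_lit 12207801)] (nat_lit 20402210)) p15_28_0 (nat_lit 4) (nat_lit 66) (nat_lit 67) = true := by decide +kernel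
def p15_28_0_67 : pfC (piC [(nat_lit 36496589), (nat_lit 24304186), (nat_lit 18078890), (nat_lit 12207801)] (nat_lit 20402210)) p15_28_0 (nat_lit 4) (nat_lit 67) (nat_lit 68) = true := by decide +kernel
def p15_28_0_68 : pfC (piC [(nat_lit 36496589), (nat_lit 24304186), (nat_lit 18078890), (nat_lit 12207801)] (nat_lit 20402210)) p15_28_0 (nat_lit 4) (nat_lit 68) (nat_lit 69) = true := by decide +kernel
def p15_28_0_69 : pfC (piC [(nat_lit 36496589), (nat_lit 24304186), (nat_lit 18078890), (nat_lit 12207801)] (nat_lit 20402210)) p15_28_0 (nat_lit 4) (nat_lit 69) (nat_lit 70) = true := by decide +kernel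
def p15_28_0_70 : pfC (piC [(nat_lit 36496589), (nat_lit 24304186), (nat_lit 18078890), (nat_lit 12207801)] (nat_lit 20402210)) p15_28_0 (nat_lit 4) (nat_lit 70) (nat_lit 71) = true := by decide +kernel
def p15_28_0_71 : pfC (piC [(nat_lit 36496589), (nat_lit 24304186), (nat_lit 18078890), (nat_lit 12207801)] (nat_lit 20402210)) p15_28_0 (nat_lit 4) (nat_lit 71) (nat_lit 72) = true := by decide +kernel
def p15_28_0_72 : pfC (piC [(nat_lit 36496589), (nat_lit 24304186), (nat_lit 18078890), (nat_lit 12207801)] (nat_lit 20402210)) p15_28_0 (nat_lit 4) (nat_lit 72) (nat_lit 73) = true := by decide +kernel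
def p15_28_0_73 : pfC (piC [(nat_lit 36496589), (nat_lit 24304186), (nat_lit 18078890), (nat_lit 12207801)] (nat_lit 20402210)) p15_28_0 (nat_lit 4) (nat_lit 73) (nat_lit 74) = true := by decide +kernel
def p15_28_0_74 : pfC (piC [(nat_lit 36496589), (nat_lit 24304186), (nat_lit 18078890), (nat_lit 12207801)] (nat_lit 20402210)) p15_28_0 (nat_lit 4) (nat_lit 74) (nat_lit 75) = true := by decide +kernel
def p15_28_0_75 : pfC (piC [(nat_lit 36496589), (nat_lit 24304186), (nat_lit 18078890), (nat_lit 12207801)] (nat_lit 20402210)) p15_28_0 (nat_lit 4) (nat_lit 75) (nat_lit 76) = true := by decide +kernel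
def p15_28_0_76 : pfC (piC [(nat_lit 36496589), (nat_lit 24304186), (nat_lit 18078890), (nat_lit 12207801)] (nat_lit 20402210)) p15_28_0 (nat_lit 4) (nat_lit 76) (nat_lit 77) = true := by decide +kernel
def p15_28_0_77 : pfC (piC [(nat_lit 36496589), (nat_lit 24304186), (nat_lit 18078890), (nat_lit 12207801)] (nat_lit 20402210)) p15_28_0 (nat_lit 4) (nat_lit 77) (nat_lit 78) = true := by decide +kernel
def p15_28_0_78 : pfC (piC [(nat_lit 36496589), (nat_lit 24304186), (nat_lit 18078890), (nat_lit 12207801)] (nat_lit 20402210)) p15_28_0 (nat_lit 4) (nat_lit 78) (nat_lit 79) = true := by decide +kernel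
def p15_28_0_79 : pfC (piC [(nat_lit 36496589), (nat_lit 24304186), (nat_lit 18078890), (nat_lit 12207801)] (nat_lit 20402210)) p15_28_0 (nat_lit 4) (nat_lit 79) (nat_lit 80) = true := by decide +kernel
def p15_28_0_80 : pfC (piC [(nat_lit 36496589), (nat_lit 24304186), (nat_lit 18078890), (nat_lit 12207801)] (nat_lit 20402210)) p15_28_0 (nat_lit 4) (nat_lit 80) (nat_lit 81) = true := by decide +kernel
def p15_28_0_81 : pfC (piC [(nat_lit 36496589), (nat_lit 24304186), (nat_lit 18078890), (nat_lit 12207801)] (nat_lit 20402210)) p15_28_0 (nat_lit 4) (nat_lit 81) (nat_lit 82) = true := by decide +kernel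
def p15_28_0_82 : pfC (piC [(nat_lit 36496589), (nat_lit 24304186), (nat_lit 18078890), (nat_lit 12207801)] (nat_lit 20402210)) p15_28_0 (nat_lit 4) (nat_lit 82) (nat_lit 83) = true := by decide +kernel
def p15_28_0_83 : pfC (piC [(nat_lit 36496589), (nat_lit 24304186), (nat_lit 18078890), (nat_lit 12207801)] (nat_lit 20402210)) p15_28_0 (nat_lit 4) (nat_lit 83) (nat_lit 84) = true := by decide +kernel
def p15_28_0_84 : pfC (piC [(nat_lit 36496589), (nat_lit 24304186), (nat_lit 18078890), (nat_lit 12207801)] (nat_lit 20402210)) p15_28_0 (nat_lit 4) (nat_lit 84) (nat_lit 85) = true := by decide +kernel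
def p15_28_0_85 : pfC (piC [(nat_lit 36496589), (nat_lit 24304186), (nat_lit 18078890), (nat_lit 12207801)] (nat_lit 20402210)) p15_28_0 (nat_lit 4) (nat_lit 85) (nat_lit 86) = true := by decide +kernel
def p15_28_0_86 : pfC (piC [(nat_lit 36496589), (nat_lit 24304186), (nat_lit 18078890), (nat_lit 12207801)] (nat_lit 20402210)) p15_28_0 (nat_lit 4) (nat_lit 86) (nat_lit 87) = true := by decide +kernel
def p15_28_0_87 : pfC (piC [(nat_lit 36496589), (nat_lit 24304186), (nat_lit 18078890), (nat_lit 12207801)] (nat_lit 20402210)) p15_28_0 (nat_lit 4) (nat_lit 87) (nat_lit 88) = true := by decide +kernel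
def p15_28_0_88 : pfC (piC [(nat_lit 36496589), (nat_lit 24304186), (nat_lit 18078890), (nat_lit 12207801)] (nat_lit 20402210)) p15_28_0 (nat_lit 4) (nat_lit 88) (nat_lit 89) = true := by decide +kernel
def p15_28_0_89 : pfC (piC [(nat_lit 36496589), (nat_lit 24304186), (nat_lit 18078890), (nat_lit 12207801)] (nat_lit 20402210)) p15_28_0 (nat_lit 4) (nat_lit 89) (nat_lit 90) = true := by decide +kernel
def p15_28_0_90 : pfC (piC [(nat_lit 36496589), (nat_lit 24304186), (nat_lit 18078890), (nat_lit 12207801)] (nat_lit 20402210)) p15_28_0 (nat_lit 4) (nat_lit 90) (nat_lit 91) = true := by decide +kernel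
def p15_28_0_91 : pfC (piC [(nat_lit 36496589), (nat_lit 24304186), (nat_lit 18078890), (nat_lit 12207801)] (nat_lit 20402210)) p15_28_0 (nat_lit 4) (nat_lit 91) (nat_lit 92) = true := by decide +kernel
def p15_28_0_92 : pfC (piC [(nat_lit 36496589), (nat_lit 24304186), (nat_lit 18078890), (nat_lit 12207801)] (nat_lit 20402210)) p15_28_0 (nat_lit 4) (nat_lit 92) (nat_lit 93) = true := by decide +kernel
def p15_28_0_93 : pfC (piC [(nat_lit 36496589), (nat_lit 24304186), (nat_lit 18078890), (nat_lit 12207801)] (nat_lit 20402210)) p15_28_0 (nat_lit 4) (nat_lit 93) (nat_lit 94) = true := by decide +kernel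
def p15_28_0_94 : pfC (piC [(nat_lit 36496589), (nat_lit 24304186), (nat_lit 18078890), (nat_lit 12207801)] (nat_lit 20402210)) p15_28_0 (nat_lit 4) (nat_lit 94) (nat_lit 95) = true := by decide +kernel
def p15_28_0_95 : pfC (piC [(nat_lit 36496589), (nat_lit 24304186), (nat_lit 18078890), (nat_lit 12207801)] (nat_lit 20402210)) p15_28_0 (nat_lit 4) (nat_lit 95) (nat_lit 96) = true := by decide +kernel
def p15_28_0_96 : pfC (piC [(nat_lit 36496589), (nat_lit 24304186), (nat_lit 18078890), (nat_lit 12207801)] (nat_lit 20402210)) p15_28_0 (nat_lit 4) (nat_lit 96) (nat_lit 97) = true := by decide +kernel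
def p15_28_0_97 : pfC (piC [(nat_lit 36496589), (nat_lit 24304186), (nat_lit 18078890), (nat_lit 12207801)] (nat_lit 20402210)) p15_28_0 (nat_lit 4) (nat_lit 97) (nat_lit 98) = true := by decide +kernel
def p15_28_0_98 : pfC (piC [(nat_lit 36496589), (nat_lit 24304186), (nat_lit 18078890), (nat_lit 12207801)] (nat_lit 20402210)) p15_28_0 (nat_lit 4) (nat_lit 98) (nat_lit 99) = true := by decide +kernel
def p15_28_0_99 : pfC (piC [(nat_lit 36496589), (nat_lit 24304186), (nat_lit 18078890), (nat_lit 12207801)] (nat_lit 20402210)) p15_28_0 (nat_lit 4) (nat_lit 99) (nat_lit 100) = true := by decide +kernel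
def p15_28_0_100 : pfC (piC [(nat_lit 36496589), (nat_lit 24304186), (nat_lit 18078890), (nat_lit 12207801)] (nat_lit 20402210)) p15_28_0 (nat_lit 4) (nat_lit 100) (nat_lit 101) = true := by decide +kernel
def p15_28_0_101 : pfC (piC [(nat_lit 36496589), (nat_lit 24304186), (nat_lit 18078890), (nat_lit 12207801)] (nat_lit 20402210)) p15_28_0 (nat_lit 4) (nat_lit 101) (nat_lit 102) = true := by decide +kernel
def p15_28_0_102 : pfC (piC [(nat_lit 36496589), (nat_lit 24304186), (nat_lit 18078890), (nat_lit 12207801)] (nat_lit 20402210)) p15_28_0 (nat_lit 4) (nat_lit 102) (nat_lit 103) = true := by decide +kernel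
def p15_28_0_103 : pfC (piC [(nat_lit 36496589), (nat_lit 24304186), (nat_lit 18078890), (nat_lit 12207801)] (nat_lit 20402210)) p15_28_0 (nat_lit 4) (nat_lit 103) (nat_lit 104) = true := by decide +kernel
def p15_28_0_104 : pfC (piC [(nat_lit 36496589), (nat_lit 24304186), (nat_lit 18078890), (nat_lit 12207801)] (nat_lit 20402210)) p15_28_0 (nat_lit 4) (nat_lit 104) (nat_lit 105) = true := by decide +kernel
def p15_28_0_105 : pfC (piC [(nat_lit 36496589), (nat_lit 24304186), (nat_lit 18078890), (nat_lit 12207801)] (nat_lit 20402210)) p15_28_0 (nat_lit 4) (nat_lit 105) (nat_lit 106) = true := by decide +kernel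
def p15_28_0_106 : pfC (piC [(nat_lit 36496589), (nat_lit 24304186), (nat_lit 18078890), (nat_lit 12207801)] (nat_lit 20402210)) p15_28_0 (nat_lit 4) (nat_lit 106) (nat_lit 107) = true := by decide +kernel
def p15_28_0_107 : pfC (piC [(nat_lit 36496589), (nat_lit 24304186), (nat_lit 18078890), (nat_lit 12207801)] (nat_lit 20402210)) p15_28_0 (nat_lit 4) (nat_lit 107) (nat_lit 108) = true := by decide +kernel
def p15_28_0_108 : pfC (piC [(nat_lit 36496589), (nat_lit 24304186), (nat_lit 18078890), (nat_lit 12207801)] (nat_lit 20402210)) p15_28_0 (nat_lit 4) (nat_lit 108) (nat_lit 109) = true := by decide +kernel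
def p15_28_0_109 : pfC (piC [(nat_lit 36496589), (nat_lit 24304186), (nat_lit 18078890), (nat_lit 12207801)] (nat_lit 20402210)) p15_28_0 (nat_lit 4) (nat_lit 109) (nat_lit 110) = true := by decide +kernel
def p15_28_0_110 : pfC (piC [(nat_lit 36496589), (nat_lit 24304186), (nat_lit 18078890), (nat_lit 12207801)] (nat_lit 20402210)) p15_28_0 (nat_lit 4) (nat_lit 110) (nat_lit 111) = true := by decide +kernel
def p15_28_0_111 : pfC (piC [(nat_lit 36496589), (nat_lit 24304186), (nat_lit 18078890), (nat_lit 12207801)] (nat_lit 20402210)) p15_28_0 (nat_lit 4) (nat_lit 111) (nat_lit 112) = true := by decide +kernel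
def p15_28_0_112 : pfC (piC [(nat_lit 36496589), (nat_lit 24304186), (nat_lit 18078890), (nat_lit 12207801)] (nat_lit 20402210)) p15_28_0 (nat_lit 4) (nat_lit 112) (nat_lit 113) = true := by decide +kernel
def p15_28_0_113 : pfC (piC [(nat_lit 36496589), (nat_lit 24304186), (nat_lit 18078890), (nat_lit 12207801)] (nat_lit 20402210)) p15_28_0 (nat_lit 4) (nat_lit 113) (nat_lit 114) = true := by decide +kernel
def p15_28_0_114 : pfC (piC [(nat_lit 36496589), (nat_lit 24304186), (nat_lit 18078890), (nat_lit 12207801)] (nat_lit 20402210)) p15_28_0 (nat_lit 4) (nat_lit 114) (nat_lit 115) = true := by decide +kernel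
def p15_28_0_115 : pfC (piC [(nat_lit 36496589), (nat_lit 24304186), (nat_lit 18078890), (nat_lit 12207801)] (nat_lit 20402210)) p15_28_0 (nat_lit 4) (nat_lit 115) (nat_lit 116) = true := by decide +kernel
def p15_28_0_116 : pfC (piC [(nat_lit 36496589), (nat_lit 24304186), (nat_lit 18078890), (nat_lit 12207801)] (nat_lit 20402210)) p15_28_0 (nat_lit 4) (nat_lit 116) (nat_lit 117) = true := by decide +kernel
def p15_28_0_117 : pfC (piC [(nat_lit 36496589), (nat_lit 24304186), (nat_lit 18078890), (nat_lit 12207801)] (nat_lit 20402210)) p15_28_0 (nat_lit 4) (nat_lit 117) (nat_lit 118) = true := by decide +kernel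
def p15_28_0_118 : pfC (piC [(nat_lit 36496589), (nat_lit 24304186), (nat_lit 18078890), (nat_lit 12207801)] (nat_lit 20402210)) p15_28_0 (nat_lit 4) (nat_lit 118) (nat_lit 119) = true := by decide +kernel
def p15_28_0_119 : pfC (piC [(nat_lit 36496589), (nat_lit 24304186), (nat_lit 18078890), (nat_lit 12207801)] (nat_lit 20402210)) p15_28_0 (nat_lit 4) (nat_lit 119) (nat_lit 120) = true := by decide +kernel
def p15_28_0_120 : pfC (piC [(nat_lit 36496589), (nat_lit 24304186), (nat_lit 18078890), (nat_lit 12207801)] (nat_lit 20402210)) p15_28_0 (nat_lit 4) (nat_lit 120) (nat_lit 121) = true := by decide +kernel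
def p15_28_0_121 : pfC (piC [(nat_lit 36496589), (nat_lit 24304186), (nat_lit 18078890), (nat_lit 12207801)] (nat_lit 20402210)) p15_28_0 (nat_lit 4) (nat_lit 121) (nat_lit 122) = true := by decide +kernel
def p15_28_0_122 : pfC (piC [(nat_lit 36496589), (nat_lit 24304186), (nat_lit 18078890), (nat_lit 12207801)] (nat_lit 20402210)) p15_28_0 (nat_lit 4) (nat_lit 122) (nat_lit 123) = true := by decide +kernel
def p15_28_0_123 : pfC (piC [(nat_lit 36496589), (nat_lit 24304186), (nat_lit 18078890), (nat_lit 12207801)] (nat_lit 20402210)) p15_28_0 (nat_lit 4) (nat_lit 123) (nat_lit 124) = true := by decide +kernel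
def p15_28_0_124 : pfC (piC [(nat_lit 36496589), (nat_lit 24304186), (nat_lit 18078890), (nat_lit 12207801)] (nat_lit 20402210)) p15_28_0 (nat_lit 4) (nat_lit 124) (nat_lit 125) = true := by decide +kernel
def p15_28_0_125 : pfC (piC [(nat_lit 36496589), (nat_lit 24304186), (nat_lit 18078890), (nat_lit 12207801)] (nat_lit 20402210)) p15_28_0 (nat_lit 4) (nat_lit 125) (nat_lit 126) = true := by decide +kernel
def p15_28_0_126 : pfC (piC [(nat_lit 36496589), (nat_lit 24304186), (nat_lit 18078890), (nat_lit 12207801)] (nat_lit 20402210)) p15_28_0 (nat_lit 4) (nat_lit 126) (nat_lit 127) = true := by decide +kernel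
def p15_28_0_127 : pfC (piC [(nat_lit 36496589), (nat_lit 24304186), (nat_lit 18078890), (nat_lit 12207801)] (nat_lit 20402210)) p15_28_0 (nat_lit 4) (nat_lit 127) (nat_lit 128) = true := by decide +kernel
def p15_28_0_128 : pfC (piC [(nat_lit 36496589), (nat_lit 24304186), (nat_lit 18078890), (nat_lit 12207801)] (nat_lit 20402210)) p15_28_0 (nat_lit 4) (nat_lit 128) (nat_lit 129) = true := by decide +kernel
def p15_28_0_129 : pfC (piC [(nat_lit 36496589), (nat_lit 24304186), (nat_lit 18078890), (nat_lit 12207801)] (nat_lit 20402210)) p15_28_0 (nat_lit 4) (nat_lit 129) (nat_lit 130) = true := by decide +kernel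
def p15_28_0_130 : pfC (piC [(nat_lit 36496589), (nat_lit 24304186), (nat_lit 18078890), (nat_lit 12207801)] (nat_lit 20402210)) p15_28_0 (nat_lit 4) (nat_lit 130) (nat_lit 131) = true := by decide +kernel
def p15_28_0_131 : pfC (piC [(nat_lit 36496589), (nat_lit 24304186), (nat_lit 18078890), (nat_lit 12207801)] (nat_lit 20402210)) p15_28_0 (nat_lit 4) (nat_lit 131) (nat_lit 132) = true := by decide +kernel
def p15_28_0_132 : pfC (piC [(nat_lit 36496589), (nat_lit 24304186), (nat_lit 18078890), (nat_lit 12207801)] (nat_lit 20402210)) p15_28_0 (nat_lit 4) (nat_lit 132) (nat_lit 133) = true := by decide +kernel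
def p15_28_0_133 : pfC (piC [(nat_lit 36496589), (nat_lit 24304186), (nat_lit 18078890), (nat_lit 12207801)] (nat_lit 20402210)) p15_28_0 (nat_lit 4) (nat_lit 133) (nat_lit 134) = true := by decide +kernel
def p15_28_0_134 : pfC (piC [(nat_lit 36496589), (nat_lit 24304186), (nat_lit 18078890), (nat_lit 12207801)] (nat_lit 20402210)) p15_28_0 (nat_lit 4) (nat_lit 134) (nat_lit 135) = true := by decide +kernel
def p15_28_0_135 : pfC (piC [(nat_lit 36496589), (nat_lit 24304186), (nat_lit 18078890), (nat_lit 12207801)] (nat_lit 20402210)) p15_28_0 (nat_lit 4) (nat_lit 135) (nat_lit 136) = true := by decide +kernel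
def p15_28_0_136 : pfC (piC [(nat_lit 36496589), (nat_lit 24304186), (nat_lit 18078890), (nat_lit 12207801)] (nat_lit 20402210)) p15_28_0 (nat_lit 4) (nat_lit 136) (nat_lit 137) = true := by decide +kernel
def p15_28_0_137 : pfC (piC [(nat_lit 36496589), (nat_lit 24304186), (nat_lit 18078890), (nat_lit 12207801)] (nat_lit 20402210)) p15_28_0 (nat_lit 4) (nat_lit 137) (nat_lit 138) = true := by decide +kernel
def p15_28_0_138 : pfC (piC [(nat_lit 36496589), (nat_lit 24304186), (nat_lit 18078890), (nat_lit 12207801)] (nat_lit 20402210)) p15_28_0 (nat_lit 4) (nat_lit 138) (nat_lit 139) = true := by decide +kernel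
def p15_28_0_139 : pfC (piC [(nat_lit 36496589), (nat_lit 24304186), (nat_lit 18078890), (nat_lit 12207801)] (nat_lit 20402210)) p15_28_0 (nat_lit 4) (nat_lit 139) (nat_lit 140) = true := by decide +kernel
def p15_28_0_140 : pfC (piC [(nat_lit 36496589), (nat_lit 24304186), (nat_lit 18078890), (nat_lit 12207801)] (nat_lit 20402210)) p15_28_0 (nat_lit 4) (nat_lit 140) (nat_lit 141) = true := by decide +kernel
def p15_28_0_141 : pfC (piC [(nat_lit 36496589), (nat_lit 24304186), (nat_lit 18078890), (nat_lit 12207801)] (nat_lit 20402210)) p15_28_0 (nat_lit 4) (nat_lit 141) (nat_lit 142) = true := by decide +kernel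
def p15_28_0_142 : pfC (piC [(nat_lit 36496589), (nat_lit 24304186), (nat_lit 18078890), (nat_lit 12207801)] (nat_lit 20402210)) p15_28_0 (nat_lit 4) (nat_lit 142) (nat_lit 143) = true := by decide +kernel
def p15_28_0_143 : pfC (piC [(nat_lit 36496589), (nat_lit 24304186), (nat_lit 18078890), (nat_lit 12207801)] (nat_lit 20402210)) p15_28_0 (nat_lit 4) (nat_lit 143) (nat_lit 144) = true := by decide +kernel
def p15_28_0_144 : pfC (piC [(nat_lit 36496589), (nat_lit 24304186), (nat_lit 18078890), (nat_lit 12207801)] (nat_lit 20402210)) p15_28_0 (nat_lit 4) (nat_lit 144) (nat_lit 145) = true := by decide +kernel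
def p15_28_0_145 : pfC (piC [(nat_lit 36496589), (nat_lit 24304186), (nat_lit 18078890), (nat_lit 12207801)] (nat_lit 20402210)) p15_28_0 (nat_lit 4) (nat_lit 145) (nat_lit 146) = true := by decide +kernel
def p15_28_0_146 : pfC (piC [(nat_lit 36496589), (nat_lit 24304186), (nat_lit 18078890), (nat_lit 12207801)] (nat_lit 20402210)) p15_28_0 (nat_lit 4) (nat_lit 146) (nat_lit 147) = true := by decide +kernel
def p15_28_0_147 : pfC (piC [(nat_lit 36496589), (nat_lit 24304186), (nat_lit 18078890), (nat_lit 12207801)] (nat_lit 20402210)) p15_28_0 (nat_lit 4) (nat_lit 147) (nat_lit 148) = true := by decide +kernel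
def p15_28_0_148 : pfC (piC [(nat_lit 36496589), (nat_lit 24304186), (nat_lit 18078890), (nat_lit 12207801)] (nat_lit 20402210)) p15_28_0 (nat_lit 4) (nat_lit 148) (nat_lit 149) = true := by decide +kernel
def p15_28_0_149 : pfC (piC [(nat_lit 36496589), (nat_lit 24304186), (nat_lit 18078890), (nat_lit 12207801)] (nat_lit 20402210)) p15_28_0 (nat_lit 4) (nat_lit 149) (nat_lit 150) = true := by decide +kernel
def p15_28_0_150 : pfC (piC [(nat_lit 36496589), (nat_lit 24304186), (nat_lit 18078890), (nat_lit 12207801)] (nat_lit 20402210)) p15_28_0 (nat_lit 4) (nat_lit 150) (nat_lit 151) = true := by decide +kernel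
def p15_28_0_151 : pfC (piC [(nat_lit 36496589), (nat_lit 24304186), (nat_lit 18078890), (nat_lit 12207801)] (nat_lit 20402210)) p15_28_0 (nat_lit 4) (nat_lit 151) (nat_lit 152) = true := by decide +kernel
def p15_28_0_152 : pfC (piC [(nat_lit 36496589), (nat_lit 24304186), (nat_lit 18078890), (nat_lit 12207801)] (nat_lit 20402210)) p15_28_0 (nat_lit 4) (nat_lit 152) (nat_lit 153) = true := by decide +kernel
def p15_28_0_153 : pfC (piC [(nat_lit 36496589), (nat_lit 24304186), (nat_lit 18078890), (nat_lit 12207801)] (nat_lit 20402210)) p15_28_0 (nat_lit 4) (nat_lit 153) (nat_lit 154) = true := by decide +kernel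
def p15_28_0_154 : pfC (piC [(nat_lit 36496589), (nat_lit 24304186), (nat_lit 18078890), (nat_lit 12207801)] (nat_lit 20402210)) p15_28_0 (nat_lit 4) (nat_lit 154) (nat_lit 155) = true := by decide +kernel
def p15_28_0_155 : pfC (piC [(nat_lit 36496589), (nat_lit 24304186), (nat_lit 18078890), (nat_lit 12207801)] (nat_lit 20402210)) p15_28_0 (nat_lit 4) (nat_lit 155) (nat_lit 156) = true := by decide +kernel
def p15_28_0_156 : pfC (piC [(nat_lit 36496589), (nat_lit 24304186), (nat_lit 18078890), (nat_lit 12207801)] (nat_lit 20402210)) p15_28_0 (nat_lit 4) (nat_lit 156) (nat_lit 157) = true := by decide +kernel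
def p15_28_0_157 : pfC (piC [(nat_lit 36496589), (nat_lit 24304186), (nat_lit 18078890), (nat_lit 12207801)] (nat_lit 20402210)) p15_28_0 (nat_lit 4) (nat_lit 157) (nat_lit 158) = true := by decide +kernel
def p15_28_0_158 : pfC (piC [(nat_lit 36496589), (nat_lit 24304186), (nat_lit 18078890), (nat_lit 12207801)] (nat_lit 20402210)) p15_28_0 (nat_lit 4) (nat_lit 158) (nat_lit 159) = true := by decide +kernel
def p15_28_0_159 : pfC (piC [(nat_lit 36496589), (nat_lit 24304186), (nat_lit 18078890), (nat_lit 12207801)] (nat_lit 20402210)) p15_28_0 (nat_lit 4) (nat_lit 159) (nat_lit 160) = true := by decide +kernel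
def p15_28_0_160 : pfC (piC [(nat_lit 36496589), (nat_lit 24304186), (nat_lit 18078890), (nat_lit 12207801)] (nat_lit 20402210)) p15_28_0 (nat_lit 4) (nat_lit 160) (nat_lit 161) = true := by decide +kernel
def p15_28_0_161 : pfC (piC [(nat_lit 36496589), (nat_lit 24304186), (nat_lit 18078890), (nat_lit 12207801)] (nat_lit 20402210)) p15_28_0 (nat_lit 4) (nat_lit 161) (nat_lit 162) = true := by decide +kernel
def p15_28_0_162 : pfC (piC [(nat_lit 36496589), (nat_lit 24304186), (nat_lit 18078890), (nat_lit 12207801)] (nat_lit 20402210)) p15_28_0 (nat_lit 4) (nat_lit 162) (nat_lit 163) = true := by decide +kernel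
def p15_28_0_163 : pfC (piC [(nat_lit 36496589), (nat_lit 24304186), (nat_lit 18078890), (nat_lit 12207801)] (nat_lit 20402210)) p15_28_0 (nat_lit 4) (nat_lit 163) (nat_lit 164) = true := by decide +kernel
def p15_28_0_164 : pfC (piC [(nat_lit 36496589), (nat_lit 24304186), (nat_lit 18078890), (nat_lit 12207801)] (nat_lit 20402210)) p15_28_0 (nat_lit 4) (nat_lit 164) (nat_lit 165) = true := by decide +kernel
def p15_28_0_165 : pfC (piC [(nat_lit 36496589), (nat_lit 24304186), (nat_lit 18078890), (nat_lit 12207801)] (nat_lit 20402210)) p15_28_0 (nat_lit 4) (nat_lit 165) (nat_lit 166) = true := by decide +kernel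
def p15_28_0_166 : pfC (piC [(nat_lit 36496589), (nat_lit 24304186), (nat_lit 18078890), (nat_lit 12207801)] (nat_lit 20402210)) p15_28_0 (nat_lit 4) (nat_lit 166) (nat_lit 167) = true := by decide +kernel
def p15_28_0_167 : pfC (piC [(nat_lit 36496589), (nat_lit 24304186), (nat_lit 18078890), (nat_lit 12207801)] (nat_lit 20402210)) p15_28_0 (nat_lit 4) (nat_lit 167) (nat_lit 168) = true := by decide +kernel
def p15_28_0_168 : pfC (piC [(nat_lit 36496589), (nat_lit 24304186), (nat_lit 18078890), (nat_lit 12207801)] (nat_lit 20402210)) p15_28_0 (nat_lit 4) (nat_lit 168) (nat_lit 169) = true := by decide +kernel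
def p15_28_0_169 : pfC (piC [(nat_lit 36496589), (nat_lit 24304186), (nat_lit 18078890), (nat_lit 12207801)] (nat_lit 20402210)) p15_28_0 (nat_lit 4) (nat_lit 169) (nat_lit 170) = true := by decide +kernel
def p15_28_0_170 : pfC (piC [(nat_lit 36496589), (nat_lit 24304186), (nat_lit 18078890), (nat_lit 12207801)] (nat_lit 20402210)) p15_28_0 (nat_lit 4) (nat_lit 170) (nat_lit 171) = true := by decide +kernel
def p15_28_0_171 : pfC (piC [(nat_lit 36496589), (nat_lit 24304186), (nat_lit 18078890), (nat_lit 12207801)] (nat_lit 20402210)) p15_28_0 (nat_lit 4) (nat_lit 171) (nat_lit 172) = true := by decide +kernel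
def p15_28_0_172 : pfC (piC [(nat_lit 36496589), (nat_lit 24304186), (nat_lit 18078890), (nat_lit 12207801)] (nat_lit 20402210)) p15_28_0 (nat_lit 4) (nat_lit 172) (nat_lit 173) = true := by decide +kernel
def p15_28_0_173 : pfC (piC [(nat_lit 36496589), (nat_lit 24304186), (nat_lit 18078890), (nat_lit 12207801)] (nat_lit 20402210)) p15_28_0 (nat_lit 4) (nat_lit 173) (nat_lit 174) = true := by decide +kernel
def p15_28_0_174 : pfC (piC [(nat_lit 36496589), (nat_lit 24304186), (nat_lit 18078890), (nat_lit 12207801)] (nat_lit 20402210)) p15_28_0 (nat_lit 4) (nat_lit 174) (nat_lit 175) = true := by decide +kernel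
def p15_28_0_175 : pfC (piC [(nat_lit 36496589), (nat_lit 24304186), (nat_lit 18078890), (nat_lit 12207801)] (nat_lit 20402210)) p15_28_0 (nat_lit 4) (nat_lit 175) (nat_lit 176) = true := by decide +kernel
def p15_28_0_176 : pfC (piC [(nat_lit 36496589), (nat_lit 24304186), (nat_lit 18078890), (nat_lit 12207801)] (nat_lit 20402210)) p15_28_0 (nat_lit 4) (nat_lit 176) (nat_lit 177) = true := by decide +kernel
def p15_28_0_177 : pfC (piC [(nat_lit 36496589), (nat_lit 24304186), (nat_lit 18078890), (nat_lit 12207801)] (nat_lit 20402210)) p15_28_0 (nat_lit 4) (nat_lit 177) (nat_lit 178) = true := by decide +kernel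
def p15_28_0_178 : pfC (piC [(nat_lit 36496589), (nat_lit 24304186), (nat_lit 18078890), (nat_lit 12207801)] (nat_lit 20402210)) p15_28_0 (nat_lit 4) (nat_lit 178) (nat_lit 179) = true := by decide +kernel
def p15_28_0_179 : pfC (piC [(nat_lit 36496589), (nat_lit 24304186), (nat_lit 18078890), (nat_lit 12207801)] (nat_lit 20402210)) p15_28_0 (nat_lit 4) (nat_lit 179) (nat_lit 180) = true := by decide +kernel
def p15_28_0_180 : pfC (piC [(nat_lit 36496589), (nat_lit 24304186), (nat_lit 18078890), (nat_lit 12207801)] (nat_lit 20402210)) p15_28_0 (nat_lit 4) (nat_lit 180) (nat_lit 181) = true := by decide +kernel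
def p15_28_0_181 : pfC (piC [(nat_lit 36496589), (nat_lit 24304186), (nat_lit 18078890), (nat_lit 12207801)] (nat_lit 20402210)) p15_28_0 (nat_lit 4) (nat_lit 181) (nat_lit 182) = true := by decide +kernel
def p15_28_0_182 : pfC (piC [(nat_lit 36496589), (nat_lit 24304186), (nat_lit 18078890), (nat_lit 12207801)] (nat_lit 20402210)) p15_28_0 (nat_lit 4) (nat_lit 182) (nat_lit 183) = true := by decide +kernel
def p15_28_0_183 : pfC (piC [(nat_lit 36496589), (nat_lit 24304186), (nat_lit 18078890), (nat_lit 12207801)] (nat_lit 20402210)) p15_28_0 (nat_lit 4) (nat_lit 183) (nat_lit 184) = true := by decide +kernel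
def p15_28_0_184 : pfC (piC [(nat_lit 36496589), (nat_lit 24304186), (nat_lit 18078890), (nat_lit 12207801)] (nat_lit 20402210)) p15_28_0 (nat_lit 4) (nat_lit 184) (nat_lit 185) = true := by decide +kernel
def p15_28_0_185 : pfC (piC [(nat_lit 36496589), (nat_lit 24304186), (nat_lit 18078890), (nat_lit 12207801)] (nat_lit 20402210)) p15_28_0 (nat_lit 4) (nat_lit 185) (nat_lit 186) = true := by decide +kernel
def p15_28_0_186 : pfC (piC [(nat_lit 36496589), (nat_lit 24304186), (nat_lit 18078890), (nat_lit 12207801)] (nat_lit 20402210)) p15_28_0 (nat_lit 4) (nat_lit 186) (nat_lit 187) = true := by decide +kernel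
def p15_28_0_187 : pfC (piC [(nat_lit 36496589), (nat_lit 24304186), (nat_lit 18078890), (nat_lit 12207801)] (nat_lit 20402210)) p15_28_0 (nat_lit 4) (nat_lit 187) (nat_lit 188) = true := by decide +kernel
def p15_28_0_188 : pfC (piC [(nat_lit 36496589), (nat_lit 24304186), (nat_lit 18078890), (nat_lit 12207801)] (nat_lit 20402210)) p15_28_0 (nat_lit 4) (nat_lit 188) (nat_lit 189) = true := by decide +kernel
def p15_28_0_189 : pfC (piC [(nat_lit 36496589), (nat_lit 24304186), (nat_lit 18078890), (nat_lit 12207801)] (nat_lit 20402210)) p15_28_0 (nat_lit 4) (nat_lit 189) (nat_lit 190) = true := by decide +kernel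
def p15_28_0_190 : pfC (piC [(nat_lit 36496589), (nat_lit 24304186), (nat_lit 18078890), (nat_lit 12207801)] (nat_lit 20402210)) p15_28_0 (nat_lit 4) (nat_lit 190) (nat_lit 191) = true := by decide +kernel
def p15_28_0_191 : pfC (piC [(nat_lit 36496589), (nat_lit 24304186), (nat_lit 18078890), (nat_lit 12207801)] (nat_lit 20402210)) p15_28_0 (nat_lit 4) (nat_lit 191) (nat_lit 192) = true := by decide +kernel
def p15_28_0_192 : pfC (piC [(nat_lit 36496589), (nat_lit 24304186), (nat_lit 18078890), (nat_lit 12207801)] (nat_lit 20402210)) p15_28_0 (nat_lit 4) (nat_lit 192) (nat_lit 193) = true := by decide +kernel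
def p15_28_0_193 : pfC (piC [(nat_lit 36496589), (nat_lit 24304186), (nat_lit 18078890), (nat_lit 12207801)] (nat_lit 20402210)) p15_28_0 (nat_lit 4) (nat_lit 193) (nat_lit 194) = true := by decide +kernel
def p15_28_0_194 : pfC (piC [(nat_lit 36496589), (nat_lit 24304186), (nat_lit 18078890), (nat_lit 12207801)] (nat_lit 20402210)) p15_28_0 (nat_lit 4) (nat_lit 194) (nat_lit 195) = true := by decide +kernel
def p15_28_0_195 : pfC (piC [(nat_lit 36496589), (nat_lit 24304186), (nat_lit 18078890), (nat_lit 12207801)] (nat_lit 20402210)) p15_28_0 (nat_lit 4) (nat_lit 195) (nat_lit 196) = true := by decide +kernel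
def p15_28_0_196 : pfC (piC [(nat_lit 36496589), (nat_lit 24304186), (nat_lit 18078890), (nat_lit 12207801)] (nat_lit 20402210)) p15_28_0 (nat_lit 4) (nat_lit 196) (nat_lit 197) = true := by decide +kernel
def p15_28_0_197 : pfC (piC [(nat_lit 36496589), (nat_lit 24304186), (nat_lit 18078890), (nat_lit 12207801)] (nat_lit 20402210)) p15_28_0 (nat_lit 4) (nat_lit 197) (nat_lit 198) = true := by decide +kernel
def p15_28_0_198 : pfC (piC [(nat_lit 36496589), (nat_lit 24304186), (nat_lit 18078890), (nat_lit 12207801)] (nat_lit 20402210)) p15_28_0 (nat_lit 4) (nat_lit 198) (nat_lit 199) = true := by decide +kernel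
def p15_28_0_199 : pfC (piC [(nat_lit 36496589), (nat_lit 24304186), (nat_lit 18078890), (nat_lit 12207801)] (nat_lit 20402210)) p15_28_0 (nat_lit 4) (nat_lit 199) (nat_lit 200) = true := by decide +kernel
def p15_28_0_200 : pfC (piC [(nat_lit 36496589), (nat_lit 24304186), (nat_lit 18078890), (nat_lit 12207801)] (nat_lit 20402210)) p15_28_0 (nat_lit 4) (nat_lit 200) (nat_lit 201) = true := by decide +kernel
def p15_28_0_201 : pfC (piC [(nat_lit 36496589), (nat_lit 24304186), (nat_lit 18078890), (nat_lit 12207801)] (nat_lit 20402210)) p15_28_0 (nat_lit 4) (nat_lit 201) (nat_lit 202) = true := by decide +kernel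
def p15_28_0_202 : pfC (piC [(nat_lit 36496589), (nat_lit 24304186), (nat_lit 18078890), (nat_lit 12207801)] (nat_lit 20402210)) p15_28_0 (nat_lit 4) (nat_lit 202) (nat_lit 203) = true := by decide +kernel
def p15_28_0_203 : pfC (piC [(nat_lit 36496589), (nat_lit 24304186), (nat_lit 18078890), (nat_lit 12207801)] (nat_lit 20402210)) p15_28_0 (nat_lit 4) (nat_lit 203) (nat_lit 204) = true := by decide +kernel
def p15_28_0_204 : pfC (piC [(nat_lit 36496589), (nat_lit 24304186), (nat_lit 18078890), (nat_lit 12207801)] (nat_lit 20402210)) p15_28_0 (nat_lit 4) (nat_lit 204) (nat_lit 205) = true := by decide +kernel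
def p15_28_0_205 : pfC (piC [(nat_lit 36496589), (nat_lit 24304186), (nat_lit 18078890), (nat_lit 12207801)] (nat_lit 20402210)) p15_28_0 (nat_lit 4) (nat_lit 205) (nat_lit 206) = true := by decide +kernel
def p15_28_0_206 : pfC (piC [(nat_lit 36496589), (nat_lit 24304186), (nat_lit 18078890), (nat_lit 12207801)] (nat_lit 20402210)) p15_28_0 (nat_lit 4) (nat_lit 206) (nat_lit 207) = true := by decide +kernel
def p15_28_0_207 : pfC (piC [(nat_lit 36496589), (nat_lit 24304186), (nat_lit 18078890), (nat_lit 12207801)] (nat_lit 20402210)) p15_28_0 (nat_lit 4) (nat_lit 207) (nat_lit 208) = true := by decide +kernel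
def p15_28_0_208 : pfC (piC [(nat_lit 36496589), (nat_lit 24304186), (nat_lit 18078890), (nat_lit 12207801)] (nat_lit 20402210)) p15_28_0 (nat_lit 4) (nat_lit 208) (nat_lit 209) = true := by decide +kernel
def p15_28_0_209 : pfC (piC [(nat_lit 36496589), (nat_lit 24304186), (nat_lit 18078890), (nat_lit 12207801)] (nat_lit 20402210)) p15_28_0 (nat_lit 4) (nat_lit 209) (nat_lit 210) = true := by decide +kernel
def p15_28_0_210 : pfC (piC [(nat_lit 36496589), (nat_lit 24304186), (nat_lit 18078890), (nat_lit 12207801)] (nat_lit 20402210)) p15_28_0 (nat_lit 4) (nat_lit 210) (nat_lit 211) = true := by decide +kernel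
def p15_28_0_211 : pfC (piC [(nat_lit 36496589), (nat_lit 24304186), (nat_lit 18078890), (nat_lit 12207801)] (nat_lit 20402210)) p15_28_0 (nat_lit 4) (nat_lit 211) (nat_lit 212) = true := by decide +kernel
def p15_28_0_212 : pfC (piC [(nat_lit 36496589), (nat_lit 24304186), (nat_lit 18078890), (nat_lit 12207801)] (nat_lit 20402210)) p15_28_0 (nat_lit 4) (nat_lit 212) (nat_lit 213) = true := by decide +kernel
def p15_28_0_213 : pfC (piC [(nat_lit 36496589), (nat_lit 24304186), (nat_lit 18078890), (nat_lit 12207801)] (nat_lit 20402210)) p15_28_0 (nat_lit 4) (nat_lit 213) (nat_lit 214) = true := by decide +kernel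
def p15_28_0_214 : pfC (piC [(nat_lit 36496589), (nat_lit 24304186), (nat_lit 18078890), (nat_lit 12207801)] (nat_lit 20402210)) p15_28_0 (nat_lit 4) (nat_lit 214) (nat_lit 215) = true := by decide +kernel
def p15_28_0_215 : pfC (piC [(nat_lit 36496589), (nat_lit 24304186), (nat_lit 18078890), (nat_lit 12207801)] (nat_lit 20402210)) p15_28_0 (nat_lit 4) (nat_lit 215) (nat_lit 216) = true := by decide +kernel
def p15_28_0_216 : pfC (piC [(nat_lit 36496589), (nat_lit 24304186), (nat_lit 18078890), (nat_lit 12207801)] (nat_lit 20402210)) p15_28_0 (nat_lit 4) (nat_lit 216) (nat_lit 217) = true := by decide +kernel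
def p15_28_0_217 : pfC (piC [(nat_lit 36496589), (nat_lit 24304186), (nat_lit 18078890), (nat_lit 12207801)] (nat_lit 20402210)) p15_28_0 (nat_lit 4) (nat_lit 217) (nat_lit 218) = true := by decide +kernel
def p15_28_0_218 : pfC (piC [(nat_lit 36496589), (nat_lit 24304186), (nat_lit 18078890), (nat_lit 12207801)] (nat_lit 20402210)) p15_28_0 (nat_lit 4) (nat_lit 218) (nat_lit 219) = true := by decide +kernel
def p15_28_0_219 : pfC (piC [(nat_lit 36496589), (nat_lit 24304186), (nat_lit 18078890), (nat_lit 12207801)] (nat_lit 20402210)) p15_28_0 (nat_lit 4) (nat_lit 219) (nat_lit 220) = true := by decide +kernel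
def p15_28_0_220 : pfC (piC [(nat_lit 36496589), (nat_lit 24304186), (nat_lit 18078890), (nat_lit 12207801)] (nat_lit 20402210)) p15_28_0 (nat_lit 4) (nat_lit 220) (nat_lit 221) = true := by decide +kernel
def p15_28_0_221 : pfC (piC [(nat_lit 36496589), (nat_lit 24304186), (nat_lit 18078890), (nat_lit 12207801)] (nat_lit 20402210)) p15_28_0 (nat_lit 4) (nat_lit 221) (nat_lit 222) = true := by decide +kernel
def p15_28_0_222 : pfC (piC [(nat_lit 36496589), (nat_lit 24304186), (nat_lit 18078890), (nat_lit 12207801)] (nat_lit 20402210)) p15_28_0 (nat_lit 4) (nat_lit 222) (nat_lit 223) = true := by decide +kernel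
def p15_28_0_223 : pfC (piC [(nat_lit 36496589), (nat_lit 24304186), (nat_lit 18078890), (nat_lit 12207801)] (nat_lit 20402210)) p15_28_0 (nat_lit 4) (nat_lit 223) (nat_lit 224) = true := by decide +kernel
def p15_28_0_224 : pfC (piC [(nat_lit 36496589), (nat_lit 24304186), (nat_lit 18078890), (nat_lit 12207801)] (nat_lit 20402210)) p15_28_0 (nat_lit 4) (nat_lit 224) (nat_lit 225) = true := by decide +kernel
def p15_28_0_225 : pfC (piC [(nat_lit 36496589), (nat_lit 24304186), (nat_lit 18078890), (nat_lit 12207801)] (nat_lit 20402210)) p15_28_0 (nat_lit 4) (nat_lit 225) (nat_lit 226) = true := by decide +kernel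
def p15_28_0_226 : pfC (piC [(nat_lit 36496589), (nat_lit 24304186), (nat_lit 18078890), (nat_lit 12207801)] (nat_lit 20402210)) p15_28_0 (nat_lit 4) (nat_lit 226) (nat_lit 227) = true := by decide +kernel
def p15_28_0_227 : pfC (piC [(nat_lit 36496589), (nat_lit 24304186), (nat_lit 18078890), (nat_lit 12207801)] (nat_lit 20402210)) p15_28_0 (nat_lit 4) (nat_lit 227) (nat_lit 228) = true := by decide +kernel
def p15_28_0_228 : pfC (piC [(nat_lit 36496589), (nat_lit 24304186), (nat_lit 18078890), (nat_lit 12207801)] (nat_lit 20402210)) p15_28_0 (nat_lit 4) (nat_lit 228) (nat_lit 229) = true := by decide +kernel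
def p15_28_0_229 : pfC (piC [(nat_lit 36496589), (nat_lit 24304186), (nat_lit 18078890), (nat_lit 12207801)] (nat_lit 20402210)) p15_28_0 (nat_lit 4) (nat_lit 229) (nat_lit 230) = true := by decide +kernel
def p15_28_0_230 : pfC (piC [(nat_lit 36496589), (nat_lit 24304186), (nat_lit 18078890), (nat_lit 12207801)] (nat_lit 20402210)) p15_28_0 (nat_lit 4) (nat_lit 230) (nat_lit 231) = true := by decide +kernel
def p15_28_0_231 : pfC (piC [(nat_lit 36496589), (nat_lit 24304186), (nat_lit 18078890), (nat_lit 12207801)] (nat_lit 20402210)) p15_28_0 (nat_lit 4) (nat_lit 231) (nat_lit 232) = true := by decide +kernel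
def p15_28_0_232 : pfC (piC [(nat_lit 36496589), (nat_lit 24304186), (nat_lit 18078890), (nat_lit 12207801)] (nat_lit 20402210)) p15_28_0 (nat_lit 4) (nat_lit 232) (nat_lit 233) = true := by decide +kernel
def p15_28_0_233 : pfC (piC [(nat_lit 36496589), (nat_lit 24304186), (nat_lit 18078890), (nat_lit 12207801)] (nat_lit 20402210)) p15_28_0 (nat_lit 4) (nat_lit 233) (nat_lit 234) = true := by decide +kernel
def p15_28_0_234 : pfC (piC [(nat_lit 36496589), (nat_lit 24304186), (nat_lit 18078890), (nat_lit 12207801)] (nat_lit 20402210)) p15_28_0 (nat_lit 4) (nat_lit 234) (nat_lit 235) = true := by decide +kernel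
def p15_28_0_235 : pfC (piC [(nat_lit 36496589), (nat_lit 24304186), (nat_lit 18078890), (nat_lit 12207801)] (nat_lit 20402210)) p15_28_0 (nat_lit 4) (nat_lit 235) (nat_lit 236) = true := by decide +kernel
def p15_28_0_236 : pfC (piC [(nat_lit 36496589), (nat_lit 24304186), (nat_lit 18078890), (nat_lit 12207801)] (nat_lit 20402210)) p15_28_0 (nat_lit 4) (nat_lit 236) (nat_lit 237) = true := by decide +kernel
def p15_28_0_237 : pfC (piC [(nat_lit 36496589), (nat_lit 24304186), (nat_lit 18078890), (nat_lit 12207801)] (nat_lit 20402210)) p15_28_0 (nat_lit 4) (nat_lit 237) (nat_lit 238) = true := by decide +kernel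
def p15_28_0_238 : pfC (piC [(nat_lit 36496589), (nat_lit 24304186), (nat_lit 18078890), (nat_lit 12207801)] (nat_lit 20402210)) p15_28_0 (nat_lit 4) (nat_lit 238) (nat_lit 239) = true := by decide +kernel
def p15_28_0_239 : pfC (piC [(nat_lit 36496589), (nat_lit 24304186), (nat_lit 18078890), (nat_lit 12207801)] (nat_lit 20402210)) p15_28_0 (nat_lit 4) (nat_lit 239) (nat_lit 240) = true := by decide +kernel
def p15_28_0_240 : pfC (piC [(nat_lit 36496589), (nat_lit 24304186), (nat_lit 18078890), (nat_lit 12207801)] (nat_lit 20402210)) p15_28_0 (nat_lit 4) (nat_lit 240) (nat_lit 241) = true := by decide +kernel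
def p15_28_0_241 : pfC (piC [(nat_lit 36496589), (nat_lit 24304186), (nat_lit 18078890), (nat_lit 12207801)] (nat_lit 20402210)) p15_28_0 (nat_lit 4) (nat_lit 241) (nat_lit 242) = true := by decide +kernel
def p15_28_0_242 : pfC (piC [(nat_lit 36496589), (nat_lit 24304186), (nat_lit 18078890), (nat_lit 12207801)] (nat_lit 20402210)) p15_28_0 (nat_lit 4) (nat_lit 242) (nat_lit 243) = true := by decide +kernel
def p15_28_0_243 : pfC (piC [(nat_lit 36496589), (nat_lit 24304186), (nat_lit 18078890), (nat_lit 12207801)] (nat_lit 20402210)) p15_28_0 (nat_lit 4) (nat_lit 243) (nat_lit 244) = true := by decide +kernel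
def p15_28_0_244 : pfC (piC [(nat_lit 36496589), (nat_lit 24304186), (nat_lit 18078890), (nat_lit 12207801)] (nat_lit 20402210)) p15_28_0 (nat_lit 4) (nat_lit 244) (nat_lit 245) = true := by decide +kernel
def p15_28_0_245 : pfC (piC [(nat_lit 36496589), (nat_lit 24304186), (nat_lit 18078890), (nat_lit 12207801)] (nat_lit 20402210)) p15_28_0 (nat_lit 4) (nat_lit 245) (nat_lit 246) = true := by decide +kernel
def p15_28_0_246 : pfC (piC [(nat_lit 36496589), (nat_lit 24304186), (nat_lit 18078890), (nat_lit 12207801)] (nat_lit 20402210)) p15_28_0 (nat_lit 4) (nat_lit 246) (nat_lit 247) = true := by decide +kernel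
def p15_28_0_247 : pfC (piC [(nat_lit 36496589), (nat_lit 24304186), (nat_lit 18078890), (nat_lit 12207801)] (nat_lit 20402210)) p15_28_0 (nat_lit 4) (nat_lit 247) (nat_lit 248) = true := by decide +kernel
def p15_28_0_248 : pfC (piC [(nat_lit 36496589), (nat_lit 24304186), (nat_lit 18078890), (nat_lit 12207801)] (nat_lit 20402210)) p15_28_0 (nat_lit 4) (nat_lit 248) (nat_lit 249) = true := by decide +kernel
def p15_28_0_249 : pfC (piC [(nat_lit 36496589), (nat_lit 24304186), (nat_lit 18078890), (nat_lit 12207801)] (nat_lit 20402210)) p15_28_0 (nat_lit 4) (nat_lit 249) (nat_lit 250) = true := by decide +kernel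
def p15_28_0_250 : pfC (piC [(nat_lit 36496589), (nat_lit 24304186), (nat_lit 18078890), (nat_lit 12207801)] (nat_lit 20402210)) p15_28_0 (nat_lit 4) (nat_lit 250) (nat_lit 251) = true := by decide +kernel
def p15_28_0_251 : pfC (piC [(nat_lit 36496589), (nat_lit 24304186), (nat_lit 18078890), (nat_lit 12207801)] (nat_lit 20402210)) p15_28_0 (nat_lit 4) (nat_lit 251) (nat_lit 252) = true := by decide +kernel
def p15_28_0_252 : pfC (piC [(nat_lit 36496589), (nat_lit 24304186), (nat_lit 18078890), (nat_lit 12207801)] (nat_lit 20402210)) p15_28_0 (nat_lit 4) (nat_lit 252) (nat_lit 253) = true := by decide +kernel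
def p15_28_0_253 : pfC (piC [(nat_lit 36496589), (nat_lit 24304186), (nat_lit 18078890), (nat_lit 12207801)] (nat_lit 20402210)) p15_28_0 (nat_lit 4) (nat_lit 253) (nat_lit 254) = true := by decide +kernel
def p15_28_0_254 : pfC (piC [(nat_lit 36496589), (nat_lit 24304186), (nat_lit 18078890), (nat_lit 12207801)] (nat_lit 20402210)) p15_28_0 (nat_lit 4) (nat_lit 254) (nat_lit 255) = true := by decide +kernel
def p15_28_0_255 : pfC (piC [(nat_lit 36496589), (nat_lit 24304186), (nat_lit 18078890), (nat_lit 12207801)] (nat_lit 20402210)) p15_28_0 (nat_lit 4) (nat_lit 255) (nat_lit 256) = true := by decide +kernel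
def p15_28_0_256 : pfC (piC [(nat_lit 36496589), (nat_lit 24304186), (nat_lit 18078890), (nat_lit 12207801)] (nat_lit 20402210)) p15_28_0 (nat_lit 4) (nat_lit 256) (nat_lit 257) = true := by decide +kernel
def p15_28_0_257 : pfC (piC [(nat_lit 36496589), (nat_lit 24304186), (nat_lit 18078890), (nat_lit 12207801)] (nat_lit 20402210)) p15_28_0 (nat_lit 4) (nat_lit 257) (nat_lit 258) = true := by decide +kernel
def p15_28_0_258 : pfC (piC [(nat_lit 36496589), (nat_lit 24304186), (nat_lit 18078890), (nat_lit 12207801)] (nat_lit 20402210)) p15_28_0 (nat_lit 4) (nat_lit 258) (nat_lit 259) = true := by decide +kernel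
def p15_28_0_259 : pfC (piC [(nat_lit 36496589), (nat_lit 24304186), (nat_lit 18078890), (nat_lit 12207801)] (nat_lit 20402210)) p15_28_0 (nat_lit 4) (nat_lit 259) (nat_lit 260) = true := by decide +kernel
def p15_28_0_260 : pfC (piC [(nat_lit 36496589), (nat_lit 24304186), (nat_lit 18078890), (nat_lit 12207801)] (nat_lit 20402210)) p15_28_0 (nat_lit 4) (nat_lit 260) (nat_lit 261) = true := by decide +kernel
def p15_28_0_261 : pfC (piC [(nat_lit 36496589), (nat_lit 24304186), (nat_lit 18078890), (nat_lit 12207801)] (nat_lit 20402210)) p15_28_0 (nat_lit 4) (nat_lit 261) (nat_lit 262) = true := by decide +kernel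
def p15_28_0_262 : pfC (piC [(nat_lit 36496589), (nat_lit 24304186), (nat_lit 18078890), (nat_lit 12207801)] (nat_lit 20402210)) p15_28_0 (nat_lit 4) (nat_lit 262) (nat_lit 263) = true := by decide +kernel
def p15_28_0_263 : pfC (piC [(nat_lit 36496589), (nat_lit 24304186), (nat_lit 18078890), (nat_lit 12207801)] (nat_lit 20402210)) p15_28_0 (nat_lit 4) (nat_lit 263) (nat_lit 264) = true := by decide +kernel
def p15_28_0_264 : pfC (piC [(nat_lit 36496589), (nat_lit 24304186), (nat_lit 18078890), (nat_lit 12207801)] (nat_lit 20402210)) p15_28_0 (nat_lit 4) (nat_lit 264) (nat_lit 265) = true := by decide +kernel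
def p15_28_0_265 : pfC (piC [(nat_lit 36496589), (nat_lit 24304186), (nat_lit 18078890), (nat_lit 12207801)] (nat_lit 20402210)) p15_28_0 (nat_lit 4) (nat_lit 265) (nat_lit 266) = true := by decide +kernel
def p15_28_0_266 : pfC (piC [(nat_lit 36496589), (nat_lit 24304186), (nat_lit 18078890), (nat_lit 12207801)] (nat_lit 20402210)) p15_28_0 (nat_lit 4) (nat_lit 266) (nat_lit 267) = true := by decide +kernel
def p15_28_0_267 : pfC (piC [(nat_lit 36496589), (nat_lit 24304186), (nat_lit 18078890), (nat_lit 12207801)] (nat_lit 20402210)) p15_28_0 (nat_lit 4) (nat_lit 267) (nat_lit 268) = true := by decide +kernel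
def p15_28_0_268 : pfC (piC [(nat_lit 36496589), (nat_lit 24304186), (nat_lit 18078890), (nat_lit 12207801)] (nat_lit 20402210)) p15_28_0 (nat_lit 4) (nat_lit 268) (nat_lit 269) = true := by decide +kernel
def p15_28_0_269 : pfC (piC [(nat_lit 36496589), (nat_lit 24304186), (nat_lit 18078890), (nat_lit 12207801)] (nat_lit 20402210)) p15_28_0 (nat_lit 4) (nat_lit 269) (nat_lit 270) = true := by decide +kernel
def p15_28_0_270 : pfC (piC [(nat_lit 36496589), (nat_lit 24304186), (nat_lit 18078890), (nat_lit 12207801)] (nat_lit 20402210)) p15_28_0 (nat_lit 4) (nat_lit 270) (nat_lit 271) = true := by decide +kernel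
def p15_28_0_271 : pfC (piC [(nat_lit 36496589), (nat_lit 24304186), (nat_lit 18078890), (nat_lit 12207801)] (nat_lit 20402210)) p15_28_0 (nat_lit 4) (nat_lit 271) (nat_lit 272) = true := by decide +kernel
def p15_28_0_272 : pfC (piC [(nat_lit 36496589), (nat_lit 24304186), (nat_lit 18078890), (nat_lit 12207801)] (nat_lit 20402210)) p15_28_0 (nat_lit 4) (nat_lit 272) (nat_lit 273) = true := by decide +kernel
def p15_28_0_273 : pfC (piC [(nat_lit 36496589), (nat_lit 24304186), (nat_lit 18078890), (nat_lit 12207801)] (nat_lit 20402210)) p15_28_0 (nat_lit 4) (nat_lit 273) (nat_lit 274) = true := by decide +kernel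
def p15_28_0_274 : pfC (piC [(nat_lit 36496589), (nat_lit 24304186), (nat_lit 18078890), (nat_lit 12207801)] (nat_lit 20402210)) p15_28_0 (nat_lit 4) (nat_lit 274) (nat_lit 275) = true := by decide +kernel
def p15_28_0_275 : pfC (piC [(nat_lit 36496589), (nat_lit 24304186), (nat_lit 18078890), (nat_lit 12207801)] (nat_lit 20402210)) p15_28_0 (nat_lit 4) (nat_lit 275) (nat_lit 276) = true := by decide +kernel
def p15_28_0_276 : pfC (piC [(nat_lit 36496589), (nat_lit 24304186), (nat_lit 18078890), (nat_lit 12207801)] (nat_lit 20402210)) p15_28_0 (nat_lit 4) (nat_lit 276) (nat_lit 277) = true := by decide +kernel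
def p15_28_0_277 : pfC (piC [(nat_lit 36496589), (nat_lit 24304186), (nat_lit 18078890), (nat_lit 12207801)] (nat_lit 20402210)) p15_28_0 (nat_lit 4) (nat_lit 277) (nat_lit 278) = true := by decide +kernel
def p15_28_0_278 : pfC (piC [(nat_lit 36496589), (nat_lit 24304186), (nat_lit 18078890), (nat_lit 12207801)] (nat_lit 20402210)) p15_28_0 (nat_lit 4) (nat_lit 278) (nat_lit 279) = true := by decide +kernel
def p15_28_0_279 : pfC (piC [(nat_lit 36496589), (nat_lit 24304186), (nat_lit 18078890), (nat_lit 12207801)] (nat_lit 20402210)) p15_28_0 (nat_lit 4) (nat_lit 279) (nat_lit 280) = true := by decide +kernel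
def p15_28_0_280 : pfC (piC [(nat_lit 36496589), (nat_lit 24304186), (nat_lit 18078890), (nat_lit 12207801)] (nat_lit 20402210)) p15_28_0 (nat_lit 4) (nat_lit 280) (nat_lit 281) = true := by decide +kernel
def p15_28_0_281 : pfC (piC [(nat_lit 36496589), (nat_lit 24304186), (nat_lit 18078890), (nat_lit 12207801)] (nat_lit 20402210)) p15_28_0 (nat_lit 4) (nat_lit 281) (nat_lit 282) = true := by decide +kernel
def p15_28_0_282 : pfC (piC [(nat_lit 36496589), (nat_lit 24304186), (nat_lit 18078890), (nat_lit 12207801)] (nat_lit 20402210)) p15_28_0 (nat_lit 4) (nat_lit 282) (nat_lit 283) = true := by decide +kernel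
def p15_28_0_283 : pfC (piC [(nat_lit 36496589), (nat_lit 24304186), (nat_lit 18078890), (nat_lit 12207801)] (nat_lit 20402210)) p15_28_0 (nat_lit 4) (nat_lit 283) (nat_lit 284) = true := by decide +kernel
def p15_28_0_284 : pfC (piC [(nat_lit 36496589), (nat_lit 24304186), (nat_lit 18078890), (nat_lit 12207801)] (nat_lit 20402210)) p15_28_0 (nat_lit 4) (nat_lit 284) (nat_lit 285) = true := by decide +kernel
def p15_28_0_285 : pfC (piC [(nat_lit 36496589), (nat_lit 24304186), (nat_lit 18078890), (nat_lit 12207801)] (nat_lit 20402210)) p15_28_0 (nat_lit 4) (nat_lit 285) (nat_lit 286) = true := by decide +kernel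
def p15_28_0_286 : pfC (piC [(nat_lit 36496589), (nat_lit 24304186), (nat_lit 18078890), (nat_lit 12207801)] (nat_lit 20402210)) p15_28_0 (nat_lit 4) (nat_lit 286) (nat_lit 287) = true := by decide +kernel
def p15_28_0_287 : pfC (piC [(nat_lit 36496589), (nat_lit 24304186), (nat_lit 18078890), (nat_lit 12207801)] (nat_lit 20402210)) p15_28_0 (nat_lit 4) (nat_lit 287) (nat_lit 288) = true := by decide +kernel
def p15_28_0_288 : pfC (piC [(nat_lit 36496589), (nat_lit 24304186), (nat_lit 18078890), (nat_lit 12207801)] (nat_lit 20402210)) p15_28_0 (nat_lit 4) (nat_lit 288) (nat_lit 289) = true := by decide +kernel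
def p15_28_0_289 : pfC (piC [(nat_lit 36496589), (nat_lit 24304186), (nat_lit 18078890), (nat_lit 12207801)] (nat_lit 20402210)) p15_28_0 (nat_lit 4) (nat_lit 289) (nat_lit 290) = true := by decide +kernel
def p15_28_0_290 : pfC (piC [(nat_lit 36496589), (nat_lit 24304186), (nat_lit 18078890), (nat_lit 12207801)] (nat_lit 20402210)) p15_28_0 (nat_lit 4) (nat_lit 290) (nat_lit 291) = true := by decide +kernel
def p15_28_0_291 : pfC (piC [(nat_lit 36496589), (nat_lit 24304186), (nat_lit 18078890), (nat_lit 12207801)] (nat_lit 20402210)) p15_28_0 (nat_lit 4) (nat_lit 291) (nat_lit 292) = true := by decide +kernel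
def p15_28_0_292 : pfC (piC [(nat_lit 36496589), (nat_lit 24304186), (nat_lit 18078890), (nat_lit 12207801)] (nat_lit 20402210)) p15_28_0 (nat_lit 4) (nat_lit 292) (nat_lit 293) = true := by decide +kernel
def p15_28_0_293 : pfC (piC [(nat_lit 36496589), (nat_lit 24304186), (nat_lit 18078890), (nat_lit 12207801)] (nat_lit 20402210)) p15_28_0 (nat_lit 4) (nat_lit 293) (nat_lit 294) = true := by decide +kernel
def p15_28_0_294 : pfC (piC [(nat_lit 36496589), (nat_lit 24304186), (nat_lit 18078890), (nat_lit 12207801)] (nat_lit 20402210)) p15_28_0 (nat_lit 4) (nat_lit 294) (nat_lit 295) = true := by decide +kernel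
def p15_28_0_295 : pfC (piC [(nat_lit 36496589), (nat_lit 24304186), (nat_lit 18078890), (nat_lit 12207801)] (nat_lit 20402210)) p15_28_0 (nat_lit 4) (nat_lit 295) (nat_lit 296) = true := by decide +kernel
def p15_28_0_296 : pfC (piC [(nat_lit 36496589), (nat_lit 24304186), (nat_lit 18078890), (nat_lit 12207801)] (nat_lit 20402210)) p15_28_0 (nat_lit 4) (nat_lit 296) (nat_lit 297) = true := by decide +kernel
def p15_28_0_297 : pfC (piC [(nat_lit 36496589), (nat_lit 24304186), (nat_lit 18078890), (nat_lit 12207801)] (nat_lit 20402210)) p15_28_0 (nat_lit 4) (nat_lit 297) (nat_lit 298) = true := by decide +kernel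
def p15_28_0_298 : pfC (piC [(nat_lit 36496589), (nat_lit 24304186), (nat_lit 18078890), (nat_lit 12207801)] (nat_lit 20402210)) p15_28_0 (nat_lit 4) (nat_lit 298) (nat_lit 299) = true := by decide +kernel
def p15_28_0_299 : pfC (piC [(nat_lit 36496589), (nat_lit 24304186), (nat_lit 18078890), (nat_lit 12207801)] (nat_lit 20402210)) p15_28_0 (nat_lit 4) (nat_lit 299) (nat_lit 300) = true := by decide +kernel
def p15_28_0_300 : pfC (piC [(nat_lit 36496589), (nat_lit 24304186), (nat_lit 18078890), (nat_lit 12207801)] (nat_lit 20402210)) p15_28_0 (nat_lit 4) (nat_lit 300) (nat_lit 301) = true := by decide +kernel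
def p15_28_0_301 : pfC (piC [(nat_lit 36496589), (nat_lit 24304186), (nat_lit 18078890), (nat_lit 12207801)] (nat_lit 20402210)) p15_28_0 (nat_lit 4) (nat_lit 301) (nat_lit 302) = true := by decide +kernel
def p15_28_0_302 : pfC (piC [(nat_lit 36496589), (nat_lit 24304186), (nat_lit 18078890), (nat_lit 12207801)] (nat_lit 20402210)) p15_28_0 (nat_lit 4) (nat_lit 302) (nat_lit 303) = true := by decide +kernel
def p15_28_0_303 : pfC (piC [(nat_lit 36496589), (nat_lit 24304186), (nat_lit 18078890), (nat_lit 12207801)] (nat_lit 20402210)) p15_28_0 (nat_lit 4) (nat_lit 303) (nat_lit 304) = true := by decide +kernel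
def p15_28_0_304 : pfC (piC [(nat_lit 36496589), (nat_lit 24304186), (nat_lit 18078890), (nat_lit 12207801)] (nat_lit 20402210)) p15_28_0 (nat_lit 4) (nat_lit 304) (nat_lit 305) = true := by decide +kernel
def p15_28_0_305 : pfC (piC [(nat_lit 36496589), (nat_lit 24304186), (nat_lit 18078890), (nat_lit 12207801)] (nat_lit 20402210)) p15_28_0 (nat_lit 4) (nat_lit 305) (nat_lit 306) = true := by decide +kernel
def p15_28_0_306 : pfC (piC [(nat_lit 36496589), (nat_lit 24304186), (nat_lit 18078890), (nat_lit 12207801)] (nat_lit 20402210)) p15_28_0 (nat_lit 4) (nat_lit 306) (nat_lit 307) = true := by decide +kernel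
def p15_28_0_307 : pfC (piC [(nat_lit 36496589), (nat_lit 24304186), (nat_lit 18078890), (nat_lit 12207801)] (nat_lit 20402210)) p15_28_0 (nat_lit 4) (nat_lit 307) (nat_lit 308) = true := by decide +kernel
def p15_28_0_308 : pfC (piC [(nat_lit 36496589), (nat_lit 24304186), (nat_lit 18078890), (nat_lit 12207801)] (nat_lit 20402210)) p15_28_0 (nat_lit 4) (nat_lit 308) (nat_lit 309) = true := by decide +kernel
def p15_28_0_309 : pfC (piC [(nat_lit 36496589), (nat_lit 24304186), (nat_lit 18078890), (nat_lit 12207801)] (nat_lit 20402210)) p15_28_0 (nat_lit 4) (nat_lit 309) (nat_lit 310) = true := by decide +kernel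
def p15_28_0_310 : pfC (piC [(nat_lit 36496589), (nat_lit 24304186), (nat_lit 18078890), (nat_lit 12207801)] (nat_lit 20402210)) p15_28_0 (nat_lit 4) (nat_lit 310) (nat_lit 311) = true := by decide +kernel
def p15_28_0_311 : pfC (piC [(nat_lit 36496589), (nat_lit 24304186), (nat_lit 18078890), (nat_lit 12207801)] (nat_lit 20402210)) p15_28_0 (nat_lit 4) (nat_lit 311) (nat_lit 312) = true := by decide +kernel
def p15_28_0_312 : pfC (piC [(nat_lit 36496589), (nat_lit 24304186), (nat_lit 18078890), (nat_lit 12207801)] (nat_lit 20402210)) p15_28_0 (nat_lit 4) (nat_lit 312) (nat_lit 313) = true := by decide +kernel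
def p15_28_0_313 : pfC (piC [(nat_lit 36496589), (nat_lit 24304186), (nat_lit 18078890), (nat_lit 12207801)] (nat_lit 20402210)) p15_28_0 (nat_lit 4) (nat_lit 313) (nat_lit 314) = true := by decide +kernel
def p15_28_0_314 : pfC (piC [(nat_lit 36496589), (nat_lit 24304186), (nat_lit 18078890), (nat_lit 12207801)] (nat_lit 20402210)) p15_28_0 (nat_lit 4) (nat_lit 314) (nat_lit 315) = true := by decide +kernel
def p15_28_0_315 : pfC (piC [(nat_lit 36496589), (nat_lit 24304186), (nat_lit 18078890), (nat_lit 12207801)] (nat_lit 20402210)) p15_28_0 (nat_lit 4) (nat_lit 315) (nat_lit 316) = true := by decide +kernel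
def p15_28_0_316 : pfC (piC [(nat_lit 36496589), (nat_lit 24304186), (nat_lit 18078890), (nat_lit 12207801)] (nat_lit 20402210)) p15_28_0 (nat_lit 4) (nat_lit 316) (nat_lit 317) = true := by decide +kernel
def p15_28_0_317 : pfC (piC [(nat_lit 36496589), (nat_lit 24304186), (nat_lit 18078890), (nat_lit 12207801)] (nat_lit 20402210)) p15_28_0 (nat_lit 4) (nat_lit 317) (nat_lit 318) = true := by decide +kernel
def p15_28_0_318 : pfC (piC [(nat_lit 36496589), (nat_lit 24304186), (nat_lit 18078890), (nat_lit 12207801)] (nat_lit 20402210)) p15_28_0 (nat_lit 4) (nat_lit 318) (nat_lit 319) = true := by decide +kernel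
def p15_28_0_319 : pfC (piC [(nat_lit 36496589), (nat_lit 24304186), (nat_lit 18078890), (nat_lit 12207801)] (nat_lit 20402210)) p15_28_0 (nat_lit 4) (nat_lit 319) (nat_lit 320) = true := by decide +kernel
def p15_28_0_320 : pfC (piC [(nat_lit 36496589), (nat_lit 24304186), (nat_lit 18078890), (nat_lit 12207801)] (nat_lit 20402210)) p15_28_0 (nat_lit 4) (nat_lit 320) (nat_lit 321) = true := by decide +kernel
def p15_28_0_321 : pfC (piC [(nat_lit 36496589), (nat_lit 24304186), (nat_lit 18078890), (nat_lit 12207801)] (nat_lit 20402210)) p15_28_0 (nat_lit 4) (nat_lit 321) (nat_lit 322) = true := by decide +kernel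
def p15_28_0_322 : pfC (piC [(nat_lit 36496589), (nat_lit 24304186), (nat_lit 18078890), (nat_lit 12207801)] (nat_lit 20402210)) p15_28_0 (nat_lit 4) (nat_lit 322) (nat_lit 323) = true := by decide +kernel
def p15_28_0_323 : pfC (piC [(nat_lit 36496589), (nat_lit 24304186), (nat_lit 18078890), (nat_lit 12207801)] (nat_lit 20402210)) p15_28_0 (nat_lit 4) (nat_lit 323) (nat_lit 324) = true := by decide +kernel
def p15_28_0_324 : pfC (piC [(nat_lit 36496589), (nat_lit 24304186), (nat_lit 18078890), (nat_lit 12207801)] (nat_lit 20402210)) p15_28_0 (nat_lit 4) (nat_lit 324) (nat_lit 325) = true := by decide +kernel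
def p15_28_0_325 : pfC (piC [(nat_lit 36496589), (nat_lit 24304186), (nat_lit 18078890), (nat_lit 12207801)] (nat_lit 20402210)) p15_28_0 (nat_lit 4) (nat_lit 325) (nat_lit 326) = true := by decide +kernel
def p15_28_0_326 : pfC (piC [(nat_lit 36496589), (nat_lit 24304186), (nat_lit 18078890), (nat_lit 12207801)] (nat_lit 20402210)) p15_28_0 (nat_lit 4) (nat_lit 326) (nat_lit 327) = true := by decide +kernel
def p15_28_0_327 : pfC (piC [(nat_lit 36496589), (nat_lit 24304186), (nat_lit 18078890), (nat_lit 12207801)] (nat_lit 20402210)) p15_28_0 (nat_lit 4) (nat_lit 327) (nat_lit 328) = true := by decide +kernel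
def p15_28_0_328 : pfC (piC [(nat_lit 36496589), (nat_lit 24304186), (nat_lit 18078890), (nat_lit 12207801)] (nat_lit 20402210)) p15_28_0 (nat_lit 4) (nat_lit 328) (nat_lit 329) = true := by decide +kernel
def p15_28_0_329 : pfC (piC [(nat_lit 36496589), (nat_lit 24304186), (nat_lit 18078890), (nat_lit 12207801)] (nat_lit 20402210)) p15_28_0 (nat_lit 4) (nat_lit 329) (nat_lit 330) = true := by decide +kernel
def p15_28_0_330 : pfC (piC [(nat_lit 36496589), (nat_lit 24304186), (nat_lit 18078890), (nat_lit 12207801)] (nat_lit 20402210)) p15_28_0 (nat_lit 4) (nat_lit 330) (nat_lit 331) = true := by decide +kernel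
def p15_28_0_331 : pfC (piC [(nat_lit 36496589), (nat_lit 24304186), (nat_lit 18078890), (nat_lit 12207801)] (nat_lit 20402210)) p15_28_0 (nat_lit 4) (nat_lit 331) (nat_lit 332) = true := by decide +kernel
def p15_28_0_332 : pfC (piC [(nat_lit 36496589), (nat_lit 24304186), (nat_lit 18078890), (nat_lit 12207801)] (nat_lit 20402210)) p15_28_0 (nat_lit 4) (nat_lit 332) (nat_lit 333) = true := by decide +kernel
def p15_28_0_333 : pfC (piC [(nat_lit 36496589), (nat_lit 24304186), (nat_lit 18078890), (nat_lit 12207801)] (nat_lit 20402210)) p15_28_0 (nat_lit 4) (nat_lit 333) (nat_lit 334) = true := by decide +kernel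
def p15_28_0_334 : pfC (piC [(nat_lit 36496589), (nat_lit 24304186), (nat_lit 18078890), (nat_lit 12207801)] (nat_lit 20402210)) p15_28_0 (nat_lit 4) (nat_lit 334) (nat_lit 335) = true := by decide +kernel
def p15_28_0_335 : pfC (piC [(nat_lit 36496589), (nat_lit 24304186), (nat_lit 18078890), (nat_lit 12207801)] (nat_lit 20402210)) p15_28_0 (nat_lit 4) (nat_lit 335) (nat_lit 336) = true := by decide +kernel
def p15_28_0_336 : pfC (piC [(nat_lit 36496589), (nat_lit 24304186), (nat_lit 18078890), (nat_lit 12207801)] (nat_lit 20402210)) p15_28_0 (nat_lit 4) (nat_lit 336) (nat_lit 337) = true := by decide +kernel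
def p15_28_0_337 : pfC (piC [(nat_lit 36496589), (nat_lit 24304186), (nat_lit 18078890), (nat_lit 12207801)] (nat_lit 20402210)) p15_28_0 (nat_lit 4) (nat_lit 337) (nat_lit 338) = true := by decide +kernel
def p15_28_0_338 : pfC (piC [(nat_lit 36496589), (nat_lit 24304186), (nat_lit 18078890), (nat_lit 12207801)] (nat_lit 20402210)) p15_28_0 (nat_lit 4) (nat_lit 338) (nat_lit 339) = true := by decide +kernel
def p15_28_0_339 : pfC (piC [(nat_lit 36496589), (nat_lit 24304186), (nat_lit 18078890), (nat_lit 12207801)] (nat_lit 20402210)) p15_28_0 (nat_lit 4) (nat_lit 339) (nat_lit 340) = true := by decide +kernel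
def p15_28_0_340 : pfC (piC [(nat_lit 36496589), (nat_lit 24304186), (nat_lit 18078890), (nat_lit 12207801)] (nat_lit 20402210)) p15_28_0 (nat_lit 4) (nat_lit 340) (nat_lit 341) = true := by decide +kernel
def p15_28_0_341 : pfC (piC [(nat_lit 36496589), (nat_lit 24304186), (nat_lit 18078890), (nat_lit 12207801)] (nat_lit 20402210)) p15_28_0 (nat_lit 4) (nat_lit 341) (nat_lit 342) = true := by decide +kernel
def p15_28_0_342 : pfC (piC [(nat_lit 36496589), (nat_lit 24304186), (nat_lit 18078890), (nat_lit 12207801)] (nat_lit 20402210)) p15_28_0 (nat_lit 4) (nat_lit 342) (nat_lit 343) = true := by decide +kernel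
def p15_28_0_343 : pfC (piC [(nat_lit 36496589), (nat_lit 24304186), (nat_lit 18078890), (nat_lit 12207801)] (nat_lit 20402210)) p15_28_0 (nat_lit 4) (nat_lit 343) (nat_lit 344) = true := by decide +kernel
def p15_28_0_344 : pfC (piC [(nat_lit 36496589), (nat_lit 24304186), (nat_lit 18078890), (nat_lit 12207801)] (nat_lit 20402210)) p15_28_0 (nat_lit 4) (nat_lit 344) (nat_lit 345) = true := by decide +kernel
def p15_28_0_345 : pfC (piC [(nat_lit 36496589), (nat_lit 24304186), (nat_lit 18078890), (nat_lit 12207801)] (nat_lit 20402210)) p15_28_0 (nat_lit 4) (nat_lit 345) (nat_lit 346) = true := by decide +kernel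
def p15_28_0_346 : pfC (piC [(nat_lit 36496589), (nat_lit 24304186), (nat_lit 18078890), (nat_lit 12207801)] (nat_lit 20402210)) p15_28_0 (nat_lit 4) (nat_lit 346) (nat_lit 347) = true := by decide +kernel
def p15_28_0_347 : pfC (piC [(nat_lit 36496589), (nat_lit 24304186), (nat_lit 18078890), (nat_lit 12207801)] (nat_lit 20402210)) p15_28_0 (nat_lit 4) (nat_lit 347) (nat_lit 348) = true := by decide +kernel
def p15_28_0_348 : pfC (piC [(nat_lit 36496589), (nat_lit 24304186), (nat_lit 18078890), (nat_lit 12207801)] (nat_lit 20402210)) p15_28_0 (nat_lit 4) (nat_lit 348) (nat_lit 349) = true := by decide +kernel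
def p15_28_0_349 : pfC (piC [(nat_lit 36496589), (nat_lit 24304186), (nat_lit 18078890), (nat_lit 12207801)] (nat_lit 20402210)) p15_28_0 (nat_lit 4) (nat_lit 349) (nat_lit 350) = true := by decide +kernel
def p15_28_0_350 : pfC (piC [(nat_lit 36496589), (nat_lit 24304186), (nat_lit 18078890), (nat_lit 12207801)] (nat_lit 20402210)) p15_28_0 (nat_lit 4) (nat_lit 350) (nat_lit 351) = true := by decide +kernel
def p15_28_0_351 : pfC (piC [(nat_lit 36496589), (nat_lit 24304186), (nat_lit 18078890), (nat_lit 12207801)] (nat_lit 20402210)) p15_28_0 (nat_lit 4) (nat_lit 351) (nat_lit 352) = true := by decide +kernel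
def p15_28_0_352 : pfC (piC [(nat_lit 36496589), (nat_lit 24304186), (nat_lit 18078890), (nat_lit 12207801)] (nat_lit 20402210)) p15_28_0 (nat_lit 4) (nat_lit 352) (nat_lit 353) = true := by decide +kernel
def p15_28_0_353 : pfC (piC [(nat_lit 36496589), (nat_lit 24304186), (nat_lit 18078890), (nat_lit 12207801)] (nat_lit 20402210)) p15_28_0 (nat_lit 4) (nat_lit 353) (nat_lit 354) = true := by decide +kernel
def p15_28_0_354 : pfC (piC [(nat_lit 36496589), (nat_lit 24304186), (nat_lit 18078890), (nat_lit 12207801)] (nat_lit 20402210)) p15_28_0 (nat_lit 4) (nat_lit 354) (nat_lit 355) = true := by decide +kernel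
def p15_28_0_355 : pfC (piC [(nat_lit 36496589), (nat_lit 24304186), (nat_lit 18078890), (nat_lit 12207801)] (nat_lit 20402210)) p15_28_0 (nat_lit 4) (nat_lit 355) (nat_lit 356) = true := by decide +kernel
def p15_28_0_356 : pfC (piC [(nat_lit 36496589), (nat_lit 24304186), (nat_lit 18078890), (nat_lit 12207801)] (nat_lit 20402210)) p15_28_0 (nat_lit 4) (nat_lit 356) (nat_lit 357) = true := by decide +kernel
def p15_28_0_357 : pfC (piC [(nat_lit 36496589), (nat_lit 24304186), (nat_lit 18078890), (nat_lit 12207801)] (nat_lit 20402210)) p15_28_0 (nat_lit 4) (nat_lit 357) (nat_lit 358) = true := by decide +kernel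
def p15_28_0_358 : pfC (piC [(nat_lit 36496589), (nat_lit 24304186), (nat_lit 18078890), (nat_lit 12207801)] (nat_lit 20402210)) p15_28_0 (nat_lit 4) (nat_lit 358) (nat_lit 359) = true := by decide +kernel
def p15_28_0_359 : pfC (piC [(nat_lit 36496589), (nat_lit 24304186), (nat_lit 18078890), (nat_lit 12207801)] (nat_lit 20402210)) p15_28_0 (nat_lit 4) (nat_lit 359) (nat_lit 360) = true := by decide +kernel
def p15_28_0_360 : pfC (piC [(nat_lit 36496589), (nat_lit 24304186), (nat_lit 18078890), (nat_lit 12207801)] (nat_lit 20402210)) p15_28_0 (nat_lit 4) (nat_lit 360) (nat_lit 361) = true := by decide +kernel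
def p15_28_0_361 : pfC (piC [(nat_lit 36496589), (nat_lit 24304186), (nat_lit 18078890), (nat_lit 12207801)] (nat_lit 20402210)) p15_28_0 (nat_lit 4) (nat_lit 361) (nat_lit 362) = true := by decide +kernel
def p15_28_0_362 : pfC (piC [(nat_lit 36496589), (nat_lit 24304186), (nat_lit 18078890), (nat_lit 12207801)] (nat_lit 20402210)) p15_28_0 (nat_lit 4) (nat_lit 362) (nat_lit 363) = true := by decide +kernel
def p15_28_0_363 : pfC (piC [(nat_lit 36496589), (nat_lit 24304186), (nat_lit 18078890), (nat_lit 12207801)] (nat_lit 20402210)) p15_28_0 (nat_lit 4) (nat_lit 363) (nat_lit 364) = true := by decide +kernel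
def p15_28_0_364 : pfC (piC [(nat_lit 36496589), (nat_lit 24304186), (nat_lit 18078890), (nat_lit 12207801)] (nat_lit 20402210)) p15_28_0 (nat_lit 4) (nat_lit 364) (nat_lit 365) = true := by decide +kernel
def p15_28_0_365 : pfC (piC [(nat_lit 36496589), (nat_lit 24304186), (nat_lit 18078890), (nat_lit 12207801)] (nat_lit 20402210)) p15_28_0 (nat_lit 4) (nat_lit 365) (nat_lit 366) = true := by decide +kernel
def p15_28_0_366 : pfC (piC [(nat_lit 36496589), (nat_lit 24304186), (nat_lit 18078890), (nat_lit 12207801)] (nat_lit 20402210)) p15_28_0 (nat_lit 4) (nat_lit 366) (nat_lit 367) = true := by decide +kernel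
def p15_28_0_367 : pfC (piC [(nat_lit 36496589), (nat_lit 24304186), (nat_lit 18078890), (nat_lit 12207801)] (nat_lit 20402210)) p15_28_0 (nat_lit 4) (nat_lit 367) (nat_lit 368) = true := by decide +kernel
def p15_28_0_368 : pfC (piC [(nat_lit 36496589), (nat_lit 24304186), (nat_lit 18078890), (nat_lit 12207801)] (nat_lit 20402210)) p15_28_0 (nat_lit 4) (nat_lit 368) (nat_lit 369) = true := by decide +kernel
def p15_28_0_369 : pfC (piC [(nat_lit 36496589), (nat_lit 24304186), (nat_lit 18078890), (nat_lit 12207801)] (nat_lit 20402210)) p15_28_0 (nat_lit 4) (nat_lit 369) (nat_lit 370) = true := by decide +kernel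
def p15_28_0_370 : pfC (piC [(nat_lit 36496589), (nat_lit 24304186), (nat_lit 18078890), (nat_lit 12207801)] (nat_lit 20402210)) p15_28_0 (nat_lit 4) (nat_lit 370) (nat_lit 371) = true := by decide +kernel
def p15_28_0_371 : pfC (piC [(nat_lit 36496589), (nat_lit 24304186), (nat_lit 18078890), (nat_lit 12207801)] (nat_lit 20402210)) p15_28_0 (nat_lit 4) (nat_lit 371) (nat_lit 372) = true := by decide +kernel
def p15_28_0_372 : pfC (piC [(nat_lit 36496589), (nat_lit 24304186), (nat_lit 18078890), (nat_lit 12207801)] (nat_lit 20402210)) p15_28_0 (nat_lit 4) (nat_lit 372) (nat_lit 373) = true := by decide +kernel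
def p15_28_0_373 : pfC (piC [(nat_lit 36496589), (nat_lit 24304186), (nat_lit 18078890), (nat_lit 12207801)] (nat_lit 20402210)) p15_28_0 (nat_lit 4) (nat_lit 373) (nat_lit 374) = true := by decide +kernel
def p15_28_0_374 : pfC (piC [(nat_lit 36496589), (nat_lit 24304186), (nat_lit 18078890), (nat_lit 12207801)] (nat_lit 20402210)) p15_28_0 (nat_lit 4) (nat_lit 374) (nat_lit 375) = true := by decide +kernel
def p15_28_0_375 : pfC (piC [(nat_lit 36496589), (nat_lit 24304186), (nat_lit 18078890), (nat_lit 12207801)] (nat_lit 20402210)) p15_28_0 (nat_lit 4) (nat_lit 375) (nat_lit 376) = true := by decide +kernel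
def p15_28_0_376 : pfC (piC [(nat_lit 36496589), (nat_lit 24304186), (nat_lit 18078890), (nat_lit 12207801)] (nat_lit 20402210)) p15_28_0 (nat_lit 4) (nat_lit 376) (nat_lit 377) = true := by decide +kernel
def p15_28_0_377 : pfC (piC [(nat_lit 36496589), (nat_lit 24304186), (nat_lit 18078890), (nat_lit 12207801)] (nat_lit 20402210)) p15_28_0 (nat_lit 4) (nat_lit 377) (nat_lit 378) = true := by decide +kernel
def p15_28_0_378 : pfC (piC [(nat_lit 36496589), (nat_lit 24304186), (nat_lit 18078890), (nat_lit 12207801)] (nat_lit 20402210)) p15_28_0 (nat_lit 4) (nat_lit 378) (nat_lit 379) = true := by decide +kernel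
def p15_28_0_379 : pfC (piC [(nat_lit 36496589), (nat_lit 24304186), (nat_lit 18078890), (nat_lit 12207801)] (nat_lit 20402210)) p15_28_0 (nat_lit 4) (nat_lit 379) (nat_lit 380) = true := by decide +kernel
def p15_28_0_380 : pfC (piC [(nat_lit 36496589), (nat_lit 24304186), (nat_lit 18078890), (nat_lit 12207801)] (nat_lit 20402210)) p15_28_0 (nat_lit 4) (nat_lit 380) (nat_lit 381) = true := by decide +kernel
def p15_28_0_381 : pfC (piC [(nat_lit 36496589), (nat_lit 24304186), (nat_lit 18078890), (nat_lit 12207801)] (nat_lit 20402210)) p15_28_0 (nat_lit 4) (nat_lit 381) (nat_lit 382) = true := by decide +kernel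
def p15_28_0_382 : pfC (piC [(nat_lit 36496589), (nat_lit 24304186), (nat_lit 18078890), (nat_lit 12207801)] (nat_lit 20402210)) p15_28_0 (nat_lit 4) (nat_lit 382) (nat_lit 383) = true := by decide +kernel
theorem p15_28_0_T : PfS (PiF n15_28.reverse (nat_lit 20402210)) p15_28_0 (nat_lit 4) [] 0 :=
  pftab_of (los := [(nat_lit 36496589), (nat_lit 24304186), (nat_lit 18078890), (nat_lit 12207801)]) (by decide +kernel) (hi := (nat_lit 383)) (PfP.trans (PfP.trans (PfP.trans (PfP.trans (PfP.trans (PfP.trans (PfP.trans (PfP.trans (PfP.trans (PfP.trans (PfP.trans (PfP.trans (PfP.trans (PfP.trans (PfP.trans (PfP.trans (PfP.trans (PfP.trans (PfP.trans (PfP.trans (PfP.trans (PfP.trans (PfP.trans (PfP.trans (PfP.trans (PfP.trans (PfP.trans (PfP.trans (PfP.trans (PfP.trans (PfP.trans (PfP.trans (PfP.trans (PfP.trans (PfP.trans (PfP.trans (PfP.trans (PfP.trans (PfP.trans (PfP.trans (PfP.trans (PfP.trans (PfP.trans (PfP.trans (PfP.trans (PfP.trans (PfP.trans (PfP.trans (PfP.trans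 (PfP.trans (PfP.trans (PfP.trans (PfP.trans (PfP.trans (PfP.trans (PfP.trans (PfP.trans (PfP.trans (PfP.trans (PfP.trans (PfP.trans (PfP.trans (PfP.trans (PfP.trans (PfP.trans (PfP.trans (PfP.trans (PfP.trans (PfP.trans (PfP.trans (PfP.trans (PfP.trans (PfP.trans (PfP.trans (PfP.trans (PfP.trans (PfP.trans (PfP.trans (PfP.trans (PfP.trans (PfP.trans (PfP.trans (PfP.trans (PfP.trans (PfP.trans (PfP.trans (PfP.trans (PfP.trans (PfP.trans (PfP.trans (PfP.trans (PfP.trans (PfP.trans (PfP.trans (PfP.trans (PfP.trans (PfP.trans (PfP.trans (PfP.trans (PfP.trans (PfP.trans (PfP.trans (PfP.trans (PfP.trans (PfP.trans (PfP.trans (PfP.trans (PfP.trans (PfP.trans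
 (PfP.trans (PfP.trans (PfP.trans (PfP.trans (PfP.trans (PfP.trans (PfP.trans (PfP.trans (PfP.trans (PfP.trans (PfP.trans (PfP.trans (PfP.trans (PfP.trans (PfP.trans (PfP.trans (PfP.trans (PfP.trans (PfP.trans (PfP.trans (PfP.trans (PfP.trans (PfP.trans (PfP.trans (PfP.trans (PfP.trans (PfP.trans (PfP.trans (PfP.trans (PfP.trans (PfP.trans (PfP.trans (PfP.trans (PfP.trans (PfP.trans (PfP.trans (PfP.trans (PfP.trans (PfP.trans (PfP.trans (PfP.trans (PfP.trans (PfP.trans (PfP.trans (PfP.trans (PfP.trans (PfP.trans (PfP.trans (PfP.trans (PfP.trans (PfP.trans (PfP.trans (PfP.trans (PfP.trans (PfP.trans (PfP.trans (PfP.trans (PfP.trans (PfP.trans (PfP.trans (PfP.trans (PfP.trans (PfP.trans (PfP.trans (PfP.trans (PfP.trans (PfP.trans (PfP.trans (PfP.trans (PfP.trans (PfP.trans (PfP.trans (PfP.trans (PfP.trans (PfP.trans (PfP.trans (PfP.trans (PfP.trans (PfP.trans (PfP.trans (PfP.trans (PfP.trans (PfP.trans (PfP.trans (PfP.trans (PfP.trans (PfP.trans (PfP.trans (PfP.trans (PfP.trans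 (PfP.trans (PfP.trans (PfP.trans (PfP.trans (PfP.trans (PfP.trans (PfP.trans (PfP.trans (PfP.trans (PfP.trans (PfP.trans (PfP.trans (PfP.trans (PfP.trans (PfP.trans (PfP.trans (PfP.trans (PfP.trans (PfP.trans
 (PfP.trans (PfP.trans (PfP.trans (PfP.trans (PfP.trans (PfP.trans (PfP.trans (PfP.trans (PfP.trans (PfP.trans (PfP.trans (PfP.trans (PfP.trans (PfP.trans (PfP.trans (PfP.trans (PfP.trans (PfP.trans (PfP.trans (PfP.trans (PfP.trans (PfP.trans (PfP.trans (PfP.trans (PfP.trans (PfP.trans (PfP.trans (PfP.trans (PfP.trans (PfP.trans (PfP.trans (PfP.trans (PfP.trans (PfP.trans (PfP.trans (PfP.trans (PfP.trans (PfP.trans (PfP.trans (PfP.trans (PfP.trans (PfP.trans (PfP.trans (PfP.trans (PfP.trans (PfP.trans (PfP.trans (PfP.trans (PfP.trans (PfP.trans (PfP.trans (PfP.trans (PfP.trans (PfP.trans (PfP.trans (PfP.trans (PfP.trans (PfP.trans (PfP.trans (PfP.trans (PfP.trans (PfP.trans (PfP.trans (PfP.trans (PfP.trans (PfP.trans (PfP.trans (PfP.trans (PfP.trans (PfP.trans (PfP.trans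 (PfP.trans (PfP.trans (PfP.trans (PfP.trans (PfP.trans (PfP.trans (PfP.trans (PfP.trans (PfP.trans (PfP.trans (PfP.trans (PfP.trans (PfP.trans (PfP.trans (PfP.trans (PfP.trans (PfP.trans (PfP.trans (PfP.trans (PfP.trans (PfP.trans (PfP.trans (PfP.trans (PfP.trans (PfP.trans (PfP.trans (PfP.trans (PfP.trans (PfP.trans (PfP.trans (PfP.trans (PfP.trans (PfP.trans (PfP.trans (PfP.trans (PfP.trans (PfP.trans (PfP.trans
 (PfP.trans (PfP.trans (PfP.trans (PfP.trans (PfP.trans (PfP.trans (PfP.trans (PfP.trans (PfP.trans (PfP.trans (PfP.trans (PfP.trans (PfP.trans (PfP.trans (PfP.trans (PfP.trans (PfP.trans (PfP.trans (PfP.trans (PfP.trans (PfP.trans (PfP.trans (PfP.trans (PfP.trans (PfP.trans (PfP.trans (PfP.trans (PfP.trans (PfP.trans (PfP.trans (PfP.trans (PfP.trans (PfP.trans (PfP.trans (PfP.trans (PfP.trans (PfP.trans (PfP.trans (PfP.trans (PfP.trans (PfP.trans (PfP.trans (PfP.trans (PfP.trans (PfP.trans (PfP.trans (PfP.trans (PfP.trans (PfP.trans (PfP.trans (PfP.trans (PfP.trans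 (PfP.trans (PfP.trans (PfP.trans (pfC_sound p15_28_0_0) (pfC_sound p15_28_0_1)) (pfC_sound p15_28_0_2)) (pfC_sound p15_28_0_3)) (pfC_sound p15_28_0_4)) (pfC_sound p15_28_0_5)) (pfC_sound p15_28_0_6)) (pfC_sound p15_28_0_7)) (pfC_sound p15_28_0_8)) (pfC_sound p15_28_0_9)) (pfC_sound p15_28_0_10)) (pfC_sound p15_28_0_11)) (pfC_sound p15_28_0_12)) (pfC_sound p15_28_0_13)) (pfC_sound p15_28_0_14)) (pfC_sound p15_28_0_15)) (pfC_sound p15_28_0_16)) (pfC_sound p15_28_0_17)) (pfC_sound p15_28_0_18)) (pfC_sound p15_28_0_19)) (pfC_sound p15_28_0_20)) (pfC_sound p15_28_0_21)) (pfC_sound p15_28_0_22)) (pfC_sound p15_28_0_23))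
 (pfC_sound p15_28_0_24)) (pfC_sound p15_28_0_25)) (pfC_sound p15_28_0_26)) (pfC_sound p15_28_0_27)) (pfC_sound p15_28_0_28)) (pfC_sound p15_28_0_29)) (pfC_sound p15_28_0_30)) (pfC_sound p15_28_0_31)) (pfC_sound p15_28_0_32)) (pfC_sound p15_28_0_33)) (pfC_sound p15_28_0_34)) (pfC_sound p15_28_0_35)) (pfC_sound p15_28_0_36)) (pfC_sound p15_28_0_37)) (pfC_sound p15_28_0_38)) (pfC_sound p15_28_0_39)) (pfC_sound p15_28_0_40)) (pfC_sound p15_28_0_41)) (pfC_sound p15_28_0_42)) (pfC_sound p15_28_0_43)) (pfC_sound p15_28_0_44)) (pfC_sound p15_28_0_45)) (pfC_sound p15_28_0_46)) (pfC_sound p15_28_0_47)) (pfC_sound p15_28_0_48)) (pfC_sound p15_28_0_49)) (pfC_sound p15_28_0_50)) (pfC_sound p15_28_0_51)) (pfC_sound p15_28_0_52)) (pfC_sound p15_28_0_53)) (pfC_sound p15_28_0_54)) (pfC_sound p15_28_0_55)) (pfC_sound p15_28_0_56)) (pfC_sound p15_28_0_57)) (pfC_sound p15_28_0_58)) (pfC_sound p15_28_0_59)) (pfC_sound p15_28_0_60)) (pfC_sound p15_28_0_61)) (pfC_sound p15_28_0_62)) (pfC_sound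 p15_28_0_63)) (pfC_sound p15_28_0_64)) (pfC_sound p15_28_0_65)) (pfC_sound p15_28_0_66)) (pfC_sound p15_28_0_67)) (pfC_sound p15_28_0_68)) (pfC_sound p15_28_0_69)) (pfC_sound p15_28_0_70)) (pfC_sound p15_28_0_71))
 (pfC_sound p15_28_0_72)) (pfC_sound p15_28_0_73)) (pfC_sound p15_28_0_74)) (pfC_sound p15_28_0_75)) (pfC_sound p15_28_0_76)) (pfC_sound p15_28_0_77)) (pfC_sound p15_28_0_78)) (pfC_sound p15_28_0_79)) (pfC_sound p15_28_0_80)) (pfC_sound p15_28_0_81)) (pfC_sound p15_28_0_82)) (pfC_sound p15_28_0_83)) (pfC_sound p15_28_0_84)) (pfC_sound p15_28_0_85)) (pfC_sound p15_28_0_86)) (pfC_sound p15_28_0_87)) (pfC_sound p15_28_0_88)) (pfC_sound p15_28_0_89)) (pfC_sound p15_28_0_90)) (pfC_sound p15_28_0_91)) (pfC_sound p15_28_0_92)) (pfC_sound p15_28_0_93)) (pfC_sound p15_28_0_94)) (pfC_sound p15_28_0_95)) (pfC_sound p15_28_0_96)) (pfC_sound p15_28_0_97)) (pfC_sound p15_28_0_98)) (pfC_sound p15_28_0_99)) (pfC_sound p15_28_0_100)) (pfC_sound p15_28_0_101)) (pfC_sound p15_28_0_102))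 (pfC_sound p15_28_0_103)) (pfC_sound p15_28_0_104)) (pfC_sound p15_28_0_105)) (pfC_sound p15_28_0_106)) (pfC_sound p15_28_0_107)) (pfC_sound p15_28_0_108)) (pfC_sound p15_28_0_109)) (pfC_sound p15_28_0_110)) (pfC_sound p15_28_0_111)) (pfC_sound p15_28_0_112)) (pfC_sound p15_28_0_113)) (pfC_sound p15_28_0_114)) (pfC_sound p15_28_0_115)) (pfC_sound p15_28_0_116)) (pfC_sound p15_28_0_117)) (pfC_sound p15_28_0_118))
 (pfC_sound p15_28_0_119)) (pfC_sound p15_28_0_120)) (pfC_sound p15_28_0_121)) (pfC_sound p15_28_0_122)) (pfC_sound p15_28_0_123)) (pfC_sound p15_28_0_124)) (pfC_sound p15_28_0_125)) (pfC_sound p15_28_0_126)) (pfC_sound p15_28_0_127)) (pfC_sound p15_28_0_128)) (pfC_sound p15_28_0_129)) (pfC_sound p15_28_0_130)) (pfC_sound p15_28_0_131)) (pfC_sound p15_28_0_132)) (pfC_sound p15_28_0_133)) (pfC_sound p15_28_0_134)) (pfC_sound p15_28_0_135)) (pfC_sound p15_28_0_136)) (pfC_sound p15_28_0_137)) (pfC_sound p15_28_0_138)) (pfC_sound p15_28_0_139)) (pfC_sound p15_28_0_140))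 (pfC_sound p15_28_0_141)) (pfC_sound p15_28_0_142)) (pfC_sound p15_28_0_143)) (pfC_sound p15_28_0_144)) (pfC_sound p15_28_0_145)) (pfC_sound p15_28_0_146)) (pfC_sound p15_28_0_147)) (pfC_sound p15_28_0_148)) (pfC_sound p15_28_0_149)) (pfC_sound p15_28_0_150)) (pfC_sound p15_28_0_151)) (pfC_sound p15_28_0_152)) (pfC_sound p15_28_0_153)) (pfC_sound p15_28_0_154)) (pfC_sound p15_28_0_155)) (pfC_sound p15_28_0_156)) (pfC_sound p15_28_0_157)) (pfC_sound p15_28_0_158)) (pfC_sound p15_28_0_159)) (pfC_sound p15_28_0_160)) (pfC_sound p15_28_0_161)) (pfC_sound p15_28_0_162)) (pfC_sound p15_28_0_163)) (pfC_sound p15_28_0_164))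
 (pfC_sound p15_28_0_165)) (pfC_sound p15_28_0_166)) (pfC_sound p15_28_0_167)) (pfC_sound p15_28_0_168)) (pfC_sound p15_28_0_169)) (pfC_sound p15_28_0_170)) (pfC_sound p15_28_0_171)) (pfC_sound p15_28_0_172)) (pfC_sound p15_28_0_173)) (pfC_sound p15_28_0_174)) (pfC_sound p15_28_0_175)) (pfC_sound p15_28_0_176)) (pfC_sound p15_28_0_177)) (pfC_sound p15_28_0_178)) (pfC_sound p15_28_0_179)) (pfC_sound p15_28_0_180)) (pfC_sound p15_28_0_181)) (pfC_sound p15_28_0_182)) (pfC_sound p15_28_0_183)) (pfC_sound p15_28_0_184)) (pfC_sound p15_28_0_185)) (pfC_sound p15_28_0_186)) (pfC_sound p15_28_0_187)) (pfC_sound p15_28_0_188)) (pfC_sound p15_28_0_189)) (pfC_sound p15_28_0_190)) (pfC_sound p15_28_0_191)) (pfC_sound p15_28_0_192)) (pfC_sound p15_28_0_193)) (pfC_sound p15_28_0_194)) (pfC_sound p15_28_0_195)) (pfC_sound p15_28_0_196)) (pfC_sound p15_28_0_197)) (pfC_sound p15_28_0_198)) (pfC_sound p15_28_0_199)) (pfC_sound p15_28_0_200)) (pfC_sound p15_28_0_201)) (pfC_sound p15_28_0_202))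 (pfC_sound p15_28_0_203)) (pfC_sound p15_28_0_204)) (pfC_sound p15_28_0_205)) (pfC_sound p15_28_0_206)) (pfC_sound p15_28_0_207)) (pfC_sound p15_28_0_208)) (pfC_sound p15_28_0_209)) (pfC_sound p15_28_0_210))
 (pfC_sound p15_28_0_211)) (pfC_sound p15_28_0_212)) (pfC_sound p15_28_0_213)) (pfC_sound p15_28_0_214)) (pfC_sound p15_28_0_215)) (pfC_sound p15_28_0_216)) (pfC_sound p15_28_0_217)) (pfC_sound p15_28_0_218)) (pfC_sound p15_28_0_219)) (pfC_sound p15_28_0_220)) (pfC_sound p15_28_0_221)) (pfC_sound p15_28_0_222)) (pfC_sound p15_28_0_223)) (pfC_sound p15_28_0_224)) (pfC_sound p15_28_0_225)) (pfC_sound p15_28_0_226)) (pfC_sound p15_28_0_227)) (pfC_sound p15_28_0_228)) (pfC_sound p15_28_0_229)) (pfC_sound p15_28_0_230)) (pfC_sound p15_28_0_231)) (pfC_sound p15_28_0_232)) (pfC_sound p15_28_0_233)) (pfC_sound p15_28_0_234)) (pfC_sound p15_28_0_235)) (pfC_sound p15_28_0_236)) (pfC_sound p15_28_0_237)) (pfC_sound p15_28_0_238)) (pfC_sound p15_28_0_239)) (pfC_sound p15_28_0_240))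 (pfC_sound p15_28_0_241)) (pfC_sound p15_28_0_242)) (pfC_sound p15_28_0_243)) (pfC_sound p15_28_0_244)) (pfC_sound p15_28_0_245)) (pfC_sound p15_28_0_246)) (pfC_sound p15_28_0_247)) (pfC_sound p15_28_0_248)) (pfC_sound p15_28_0_249)) (pfC_sound p15_28_0_250)) (pfC_sound p15_28_0_251)) (pfC_sound p15_28_0_252)) (pfC_sound p15_28_0_253)) (pfC_sound p15_28_0_254)) (pfC_sound p15_28_0_255)) (pfC_sound p15_28_0_256))
 (pfC_sound p15_28_0_257)) (pfC_sound p15_28_0_258)) (pfC_sound p15_28_0_259)) (pfC_sound p15_28_0_260)) (pfC_sound p15_28_0_261)) (pfC_sound p15_28_0_262)) (pfC_sound p15_28_0_263)) (pfC_sound p15_28_0_264)) (pfC_sound p15_28_0_265)) (pfC_sound p15_28_0_266)) (pfC_sound p15_28_0_267)) (pfC_sound p15_28_0_268)) (pfC_sound p15_28_0_269)) (pfC_sound p15_28_0_270)) (pfC_sound p15_28_0_271)) (pfC_sound p15_28_0_272)) (pfC_sound p15_28_0_273)) (pfC_sound p15_28_0_274)) (pfC_sound p15_28_0_275)) (pfC_sound p15_28_0_276)) (pfC_sound p15_28_0_277)) (pfC_sound p15_28_0_278))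 (pfC_sound p15_28_0_279)) (pfC_sound p15_28_0_280)) (pfC_sound p15_28_0_281)) (pfC_sound p15_28_0_282)) (pfC_sound p15_28_0_283)) (pfC_sound p15_28_0_284)) (pfC_sound p15_28_0_285)) (pfC_sound p15_28_0_286)) (pfC_sound p15_28_0_287)) (pfC_sound p15_28_0_288)) (pfC_sound p15_28_0_289)) (pfC_sound p15_28_0_290)) (pfC_sound p15_28_0_291)) (pfC_sound p15_28_0_292)) (pfC_sound p15_28_0_293)) (pfC_sound p15_28_0_294)) (pfC_sound p15_28_0_295)) (pfC_sound p15_28_0_296)) (pfC_sound p15_28_0_297)) (pfC_sound p15_28_0_298)) (pfC_sound p15_28_0_299)) (pfC_sound p15_28_0_300)) (pfC_sound p15_28_0_301)) (pfC_sound p15_28_0_302))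
 (pfC_sound p15_28_0_303)) (pfC_sound p15_28_0_304)) (pfC_sound p15_28_0_305)) (pfC_sound p15_28_0_306)) (pfC_sound p15_28_0_307)) (pfC_sound p15_28_0_308)) (pfC_sound p15_28_0_309)) (pfC_sound p15_28_0_310)) (pfC_sound p15_28_0_311)) (pfC_sound p15_28_0_312)) (pfC_sound p15_28_0_313)) (pfC_sound p15_28_0_314)) (pfC_sound p15_28_0_315)) (pfC_sound p15_28_0_316)) (pfC_sound p15_28_0_317)) (pfC_sound p15_28_0_318)) (pfC_sound p15_28_0_319)) (pfC_sound p15_28_0_320)) (pfC_sound p15_28_0_321)) (pfC_sound p15_28_0_322)) (pfC_sound p15_28_0_323)) (pfC_sound p15_28_0_324)) (pfC_sound p15_28_0_325)) (pfC_sound p15_28_0_326)) (pfC_sound p15_28_0_327)) (pfC_sound p15_28_0_328)) (pfC_sound p15_28_0_329)) (pfC_sound p15_28_0_330)) (pfC_sound p15_28_0_331)) (pfC_sound p15_28_0_332)) (pfC_sound p15_28_0_333)) (pfC_sound p15_28_0_334)) (pfC_sound p15_28_0_335)) (pfC_sound p15_28_0_336)) (pfC_sound p15_28_0_337)) (pfC_sound p15_28_0_338)) (pfC_sound p15_28_0_339)) (pfC_sound p15_28_0_340))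 (pfC_sound p15_28_0_341)) (pfC_sound p15_28_0_342)) (pfC_sound p15_28_0_343)) (pfC_sound p15_28_0_344)) (pfC_sound p15_28_0_345)) (pfC_sound p15_28_0_346)) (pfC_sound p15_28_0_347)) (pfC_sound p15_28_0_348))
 (pfC_sound p15_28_0_349)) (pfC_sound p15_28_0_350)) (pfC_sound p15_28_0_351)) (pfC_sound p15_28_0_352)) (pfC_sound p15_28_0_353)) (pfC_sound p15_28_0_354)) (pfC_sound p15_28_0_355)) (pfC_sound p15_28_0_356)) (pfC_sound p15_28_0_357)) (pfC_sound p15_28_0_358)) (pfC_sound p15_28_0_359)) (pfC_sound p15_28_0_360)) (pfC_sound p15_28_0_361)) (pfC_sound p15_28_0_362)) (pfC_sound p15_28_0_363)) (pfC_sound p15_28_0_364)) (pfC_sound p15_28_0_365)) (pfC_sound p15_28_0_366)) (pfC_sound p15_28_0_367)) (pfC_sound p15_28_0_368)) (pfC_sound p15_28_0_369)) (pfC_sound p15_28_0_370)) (pfC_sound p15_28_0_371)) (pfC_sound p15_28_0_372)) (pfC_sound p15_28_0_373)) (pfC_sound p15_28_0_374)) (pfC_sound p15_28_0_375)) (pfC_sound p15_28_0_376)) (pfC_sound p15_28_0_377)) (pfC_sound p15_28_0_378))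 (pfC_sound p15_28_0_379)) (pfC_sound p15_28_0_380)) (pfC_sound p15_28_0_381)) (pfC_sound p15_28_0_382)) (by decide +kernel)

def z15_28_0 : zOK yB15_28 (nat_lit 0) (nat_lit 0) (nat_lit 400) (nat_lit 20402210) (nat_lit 10642110) = true := by decide +kernel
def g15_28_0 : gOK yB15_28.x P15_28 (nat_lit 1409) (q15_28 :: r15_28) (nat_lit 0) (nat_lit 0) (nat_lit 1) (nat_lit 400) (nat_lit 0) (nat_lit 11000000) (nat_lit 12712500) (nat_lit 12712500) [(nat_lit 800), (nat_lit 1600)] = true := by decide +kernel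
def v15_28_0 : ivC P15_28 s15_28 w15_28 n15_28 (nat_lit 4) (nat_lit 5350) (nat_lit 0) (nat_lit 0) f168_1_0 f176_1_0 (nat_lit 1) (nat_lit 400) f168_1_400 f176_1_400 (nat_lit 20402210) (nat_lit 10642110) p15_28_0 = true := by decide +kernel
def p15_28_1 : PF := (PF.cons (PF.cons (PF.cons (PF.cons (PF.leaf (nat_lit 2103758) (nat_lit 9990797) (nat_lit 57118015) (nat_lit 9990797) [(nat_lit 0), (nat_lit 0), (nat_lit 0), (nat_lit 0)]) (PF.cons (PF.leaf (nat_lit 2312681) (nat_lit 372726) (nat_lit 56715996) (nat_lit 10020089) [(nat_lit 372726), (nat_lit 0), (nat_lit 0), (nat_lit 0)]) (PF.cons (PF.leaf (nat_lit 2558983) (nat_lit 405633) (nat_lit 56246873) (nat_lit 10050671) [(nat_lit 405633), (nat_lit 0), (nat_lit 0), (nat_lit 0)]) (PF.cons (PF.leaf (nat_lit 2835520) (nat_lit 434837) (nat_lit 55723835) (nat_lit 10080464) [(nat_lit 434837), (nat_lit 0), (nat_lit 0), (nat_lit 0)]) (PF.cons (PF.leaf (nat_lit 3137767) (nat_lit 461117) (nat_lit 55156408) (nat_lit 10107933) [(nat_lit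 461117), (nat_lit 0), (nat_lit 0), (nat_lit 0)]) (PF.cons (PF.leaf (nat_lit 3462180) (nat_lit 484961) (nat_lit 54552070) (nat_lit 10131932) [(nat_lit 484961), (nat_lit 0), (nat_lit 0), (nat_lit 0)]) (PF.cons (PF.leaf (nat_lit 3805802) (nat_lit 506700) (nat_lit 53916998) (nat_lit 10151610) [(nat_lit 506700), (nat_lit 0), (nat_lit 0), (nat_lit 0)]) (PF.cons (PF.leaf (nat_lit 4166109) (nat_lit 526570) (nat_lit 53256463) (nat_lit 10166357) [(nat_lit 526570), (nat_lit 0),
 (nat_lit 0), (nat_lit 0)]) (PF.cons (PF.leaf (nat_lit 4540812) (nat_lit 544750) (nat_lit 52575056) (nat_lit 10175754) [(nat_lit 544750), (nat_lit 0), (nat_lit 0), (nat_lit 0)]) (PF.cons (PF.leaf (nat_lit 4927891) (nat_lit 561382) (nat_lit 51876828) (nat_lit 10179545) [(nat_lit 561382), (nat_lit 0), (nat_lit 0), (nat_lit 0)]) (PF.cons PF.nil (PF.cons PF.nil PF.nil)))))))))))) (PF.cons (PF.cons (PF.leaf (nat_lit 2736695) (nat_lit 1498644) (nat_lit 55528159) (nat_lit 10082008) [(nat_lit 0), (nat_lit 1498644),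 (nat_lit 0), (nat_lit 0)]) (PF.cons (PF.leaf (nat_lit 3003520) (nat_lit 444977) (nat_lit 55016260) (nat_lit 10105503) [(nat_lit 444977), (nat_lit 1542071), (nat_lit 0), (nat_lit 0)]) (PF.cons (PF.leaf (nat_lit 3298332) (nat_lit 470444) (nat_lit 54457180) (nat_lit 10126798) [(nat_lit 470444), (nat_lit 1583944), (nat_lit 0), (nat_lit 0)]) (PF.cons (PF.leaf (nat_lit 3616253) (nat_lit 493454) (nat_lit 53860066) (nat_lit 10144748) [(nat_lit 493454), (nat_lit 1623634), (nat_lit 0), (nat_lit 0)]) (PF.cons (PF.leaf (nat_lit 3953879) (nat_lit 514373) (nat_lit 53231949) (nat_lit 10158533) [(nat_lit 514373), (nat_lit 1660837), (nat_lit 0), (nat_lit 0)]) (PF.cons (PF.leaf (nat_lit 4308425)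
 (nat_lit 533452) (nat_lit 52578551) (nat_lit 10167579) [(nat_lit 533452), (nat_lit 1695417), (nat_lit 0), (nat_lit 0)]) (PF.cons (PF.leaf (nat_lit 4677480) (nat_lit 550878) (nat_lit 51904701) (nat_lit 10171505) [(nat_lit 550878), (nat_lit 1727336), (nat_lit 0), (nat_lit 0)]) (PF.cons (PF.leaf (nat_lit 5058926) (nat_lit 566794) (nat_lit 51214566) (nat_lit 10170081) [(nat_lit 566794), (nat_lit 1756607), (nat_lit 0), (nat_lit 0)]) (PF.cons PF.nil (PF.cons PF.nil PF.nil)))))))))) (PF.cons (PF.cons (PF.leaf (nat_lit 3462576) (nat_lit 1613085) (nat_lit 53743128) (nat_lit 10139513) [(nat_lit 0), (nat_lit 1613085), (nat_lit 0), (nat_lit 0)]) (PF.cons (PF.leaf (nat_lit 3771736) (nat_lit 500671) (nat_lit 53158404) (nat_lit 10151703) [(nat_lit 500671), (nat_lit 1649016), (nat_lit 0), (nat_lit 0)]) (PF.cons (PF.leaf (nat_lit 4102077) (nat_lit 520970) (nat_lit 52541026) (nat_lit 10159926) [(nat_lit 520970), (nat_lit 1682959), (nat_lit 0), (nat_lit 0)]) (PF.cons (PF.leaf (nat_lit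 4449950) (nat_lit 539407) (nat_lit 51897656) (nat_lit 10163625) [(nat_lit 539407), (nat_lit 1714653), (nat_lit 0), (nat_lit 0)]) (PF.cons (PF.leaf (nat_lit 4812688) (nat_lit 556193) (nat_lit 51233637) (nat_lit
 10162439) [(nat_lit 556193), (nat_lit 1743981), (nat_lit 0), (nat_lit 0)]) (PF.cons (PF.leaf (nat_lit 5188022) (nat_lit 571484) (nat_lit 50553415) (nat_lit 10156162) [(nat_lit 571484), (nat_lit 1770906), (nat_lit 0), (nat_lit 0)]) (PF.cons (PF.leaf (nat_lit 5573968) (nat_lit 585406) (nat_lit 49860787) (nat_lit 10144705) [(nat_lit 585406), (nat_lit 1795441), (nat_lit 0), (nat_lit 0)]) (PF.cons PF.nil (PF.cons PF.nil PF.nil))))))))) (PF.cons (PF.cons (PF.leaf (nat_lit 4252000) (nat_lit 1703180) (nat_lit 51843331) (nat_lit 10155941) [(nat_lit 0), (nat_lit 1703180), (nat_lit 0), (nat_lit 0)]) (PF.cons (PF.leaf (nat_lit 4591662) (nat_lit 544431) (nat_lit 51213337) (nat_lit 10154671) [(nat_lit 544431), (nat_lit 1732124), (nat_lit 0), (nat_lit 0)]) (PF.cons (PF.leaf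 (nat_lit 4947218) (nat_lit 560701) (nat_lit 50561667) (nat_lit 10148752) [(nat_lit 560701), (nat_lit 1758996), (nat_lit 0), (nat_lit 0)]) (PF.cons (PF.leaf (nat_lit 5315808) (nat_lit 575465) (nat_lit 49893312) (nat_lit 10137990) [(nat_lit 575465), (nat_lit 1783704), (nat_lit 0), (nat_lit 0)]) (PF.cons (PF.leaf (nat_lit 5695277) (nat_lit 588865) (nat_lit 49212374) (nat_lit 10122310) [(nat_lit 588865), (nat_lit 1806222),
 (nat_lit 0), (nat_lit 0)]) (PF.cons (PF.leaf (nat_lit 6083789) (nat_lit 601012) (nat_lit 48522310) (nat_lit 10101727) [(nat_lit 601012), (nat_lit 1826570), (nat_lit 0), (nat_lit 0)]) (PF.cons PF.nil PF.nil))))))) (PF.cons (PF.cons (PF.leaf (nat_lit 5082241) (nat_lit 1772504) (nat_lit 49888192) (nat_lit 10130600) [(nat_lit 0), (nat_lit 1772504), (nat_lit 0), (nat_lit 0)]) (PF.cons (PF.leaf (nat_lit 5442993) (nat_lit 578736) (nat_lit 49233918) (nat_lit 10115736) [(nat_lit 578736), (nat_lit 1795105), (nat_lit 0), (nat_lit 0)]) (PF.cons (PF.leaf (nat_lit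 5815422) (nat_lit 591699) (nat_lit 48566357) (nat_lit 10096196) [(nat_lit 591699), (nat_lit 1815714), (nat_lit 0), (nat_lit 0)]) (PF.cons (PF.leaf (nat_lit 6197221) (nat_lit 603409) (nat_lit 47889288) (nat_lit 10072006) [(nat_lit 603409), (nat_lit 1834322), (nat_lit 0), (nat_lit 0)]) (PF.cons PF.nil PF.nil))))) (PF.cons (PF.cons (PF.leaf (nat_lit 5935323) (nat_lit 1824001) (nat_lit 47922290) (nat_lit 10066513) [(nat_lit 0), (nat_lit 1824001), (nat_lit 0), (nat_lit 0)]) (PF.cons (PF.leaf (nat_lit 6309626) (nat_lit 605252) (nat_lit 47259683) (nat_lit 10039063) [(nat_lit 605252), (nat_lit 1840962), (nat_lit 0), (nat_lit 0)]) (PF.cons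
 (PF.leaf (nat_lit 6692219) (nat_lit 615446) (nat_lit 46590173) (nat_lit 10007284) [(nat_lit 615446), (nat_lit 1856092), (nat_lit 0), (nat_lit 0)]) (PF.cons PF.nil PF.nil)))) (PF.cons (PF.cons (PF.leaf (nat_lit 6797123) (nat_lit 1860268) (nat_lit 45978655) (nat_lit 9968546) [(nat_lit 0), (nat_lit 1860268), (nat_lit 0), (nat_lit 0)]) (PF.cons PF.nil PF.nil)) (PF.cons PF.nil (PF.cons PF.nil PF.nil))))))))) (PF.cons (PF.cons (PF.cons (PF.leaf (nat_lit 3336747) (nat_lit 3756699) (nat_lit 53238457) (nat_lit 10113655) [(nat_lit 0), (nat_lit 0), (nat_lit 3756699), (nat_lit 0)]) (PF.cons (PF.leaf (nat_lit 3614039) (nat_lit 475450) (nat_lit 52716639) (nat_lit 10122613) [(nat_lit 475450), (nat_lit 0), (nat_lit 3794109), (nat_lit 0)]) (PF.cons (PF.leaf (nat_lit 3917460) (nat_lit 498816) (nat_lit 52151995) (nat_lit 10128511) [(nat_lit 498816), (nat_lit 0), (nat_lit 3830673), (nat_lit 0)]) (PF.cons (PF.leaf (nat_lit 4241991) (nat_lit 519602) (nat_lit 51553959) (nat_lit 10130628)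 [(nat_lit 519602), (nat_lit 0), (nat_lit 3865416), (nat_lit 0)]) (PF.cons (PF.leaf (nat_lit 4584144) (nat_lit 538258) (nat_lit 50929573) (nat_lit 10128478) [(nat_lit 538258), (nat_lit 0), (nat_lit 3897726), (nat_lit
 0)]) (PF.cons (PF.leaf (nat_lit 4941156) (nat_lit 555085) (nat_lit 50284415) (nat_lit 10121750) [(nat_lit 555085), (nat_lit 0), (nat_lit 3927221), (nat_lit 0)]) (PF.cons (PF.leaf (nat_lit 5310696) (nat_lit 570298) (nat_lit 49623072) (nat_lit 10110268) [(nat_lit 570298), (nat_lit 0), (nat_lit 3953678), (nat_lit 0)]) (PF.cons (PF.leaf (nat_lit 5690754) (nat_lit 584064) (nat_lit 48949412) (nat_lit 10093967) [(nat_lit 584064), (nat_lit 0), (nat_lit 3976979), (nat_lit 0)]) (PF.cons PF.nil (PF.cons PF.nil PF.nil)))))))))) (PF.cons (PF.cons (PF.leaf (nat_lit 4073659) (nat_lit 1676769) (nat_lit 51450184) (nat_lit 10122928) [(nat_lit 0), (nat_lit 1676769), (nat_lit 3858930), (nat_lit 0)]) (PF.cons (PF.leaf (nat_lit 4388345) (nat_lit 524356) (nat_lit 50868276) (nat_lit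 10120496) [(nat_lit 524356), (nat_lit 1706440), (nat_lit 3889243), (nat_lit 0)]) (PF.cons (PF.leaf (nat_lit 4722327) (nat_lit 542612) (nat_lit 50257901) (nat_lit 10113963) [(nat_lit 542612), (nat_lit 1734188), (nat_lit 3917533), (nat_lit 0)]) (PF.cons (PF.leaf (nat_lit 5071976) (nat_lit 558987) (nat_lit 49625620) (nat_lit 10103044) [(nat_lit 558987), (nat_lit 1759837), (nat_lit 3943348), (nat_lit 0)]) (PF.cons (PF.leaf
 (nat_lit 5434657) (nat_lit 573729) (nat_lit 48976569) (nat_lit 10087583) [(nat_lit 573729), (nat_lit 1783320), (nat_lit 3966420), (nat_lit 0)]) (PF.cons (PF.leaf (nat_lit 5808194) (nat_lit 587023) (nat_lit 48314929) (nat_lit 10067530) [(nat_lit 587023), (nat_lit 1804636), (nat_lit 3986600), (nat_lit 0)]) (PF.cons (PF.leaf (nat_lit 6190704) (nat_lit 599009) (nat_lit 47644193) (nat_lit 10042913) [(nat_lit 599009), (nat_lit 1823819), (nat_lit 4003828), (nat_lit 0)]) (PF.cons PF.nil (PF.cons PF.nil PF.nil))))))))) (PF.cons (PF.cons (PF.leaf (nat_lit 4862433)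 (nat_lit 1748505) (nat_lit 49582260) (nat_lit 10094950) [(nat_lit 0), (nat_lit 1748505), (nat_lit 3934591), (nat_lit 0)]) (PF.cons (PF.leaf (nat_lit 5203237) (nat_lit 562079) (nat_lit 48965745) (nat_lit 10080231) [(nat_lit 562079), (nat_lit 1771918), (nat_lit 3956919), (nat_lit 0)]) (PF.cons (PF.leaf (nat_lit 5558245) (nat_lit 576465) (nat_lit 48331108) (nat_lit 10061158) [(nat_lit 576465), (nat_lit 1793407), (nat_lit 3976799), (nat_lit 0)]) (PF.cons (PF.leaf (nat_lit 5924665) (nat_lit 589375) (nat_lit 47683094) (nat_lit 10037697) [(nat_lit 589375), (nat_lit 1812922), (nat_lit 3994047), (nat_lit 0)]) (PF.cons (PF.leaf (nat_lit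
 6300469) (nat_lit 600970) (nat_lit 47025523) (nat_lit 10009890) [(nat_lit 600970), (nat_lit 1830469), (nat_lit 4008576), (nat_lit 0)]) (PF.cons PF.nil (PF.cons PF.nil PF.nil))))))) (PF.cons (PF.cons (PF.leaf (nat_lit 5682603) (nat_lit 1802276) (nat_lit 47685929) (nat_lit 10031102) [(nat_lit 0), (nat_lit 1802276), (nat_lit 3984952), (nat_lit 0)]) (PF.cons (PF.leaf (nat_lit 6040888) (nat_lit 591112) (nat_lit 47053417) (nat_lit 10004593) [(nat_lit 591112), (nat_lit 1820081), (nat_lit 3999445), (nat_lit 0)]) (PF.cons (PF.leaf (nat_lit 6409413) (nat_lit 602395) (nat_lit 46410407) (nat_lit 9973927) [(nat_lit 602395), (nat_lit 1836080), (nat_lit 4011447), (nat_lit 0)]) (PF.cons (PF.leaf (nat_lit 6785993) (nat_lit 612476) (nat_lit 45760396) (nat_lit 9939213) [(nat_lit 612476), (nat_lit 1850285), (nat_lit 4020914), (nat_lit 0)]) (PF.cons PF.nil PF.nil))))) (PF.cons (PF.cons (PF.leaf (nat_lit 6518446) (nat_lit 1840714) (nat_lit 45798288) (nat_lit 9935126) [(nat_lit 0), (nat_lit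 1840714), (nat_lit 4012540), (nat_lit 0)]) (PF.cons (PF.leaf (nat_lit 6887443) (nat_lit 613100) (nat_lit 45163451) (nat_lit 9898065) [(nat_lit 613100), (nat_lit 1853588), (nat_lit 4019840), (nat_lit 0)]) (PF.cons
 PF.nil (PF.cons PF.nil PF.nil)))) (PF.cons (PF.cons (PF.leaf (nat_lit 7357860) (nat_lit 1866142) (nat_lit 43945951) (nat_lit 9811809) [(nat_lit 0), (nat_lit 1866142), (nat_lit 4020337), (nat_lit 0)]) (PF.cons PF.nil PF.nil)) (PF.cons PF.nil (PF.cons PF.nil PF.nil)))))))) (PF.cons (PF.cons (PF.cons (PF.leaf (nat_lit 4667060) (nat_lit 3910095) (nat_lit 49230743) (nat_lit 10057879) [(nat_lit 0), (nat_lit 0), (nat_lit 3910095), (nat_lit 0)]) (PF.cons (PF.leaf (nat_lit 4984367) (nat_lit 542414) (nat_lit 48659563) (nat_lit 10043388) [(nat_lit 542414), (nat_lit 0), (nat_lit 3931722), (nat_lit 0)]) (PF.cons (PF.leaf (nat_lit 5319337) (nat_lit 558856) (nat_lit 48063517) (nat_lit 10024837) [(nat_lit 558856), (nat_lit 0), (nat_lit 3951372), (nat_lit 0)]) (PF.cons (PF.leaf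 (nat_lit 5668347) (nat_lit 573420) (nat_lit 47448954) (nat_lit 10002145) [(nat_lit 573420), (nat_lit 0), (nat_lit 3968725), (nat_lit 0)]) (PF.cons (PF.leaf (nat_lit 6028866) (nat_lit 586386) (nat_lit 46820750) (nat_lit 9975312) [(nat_lit 586386), (nat_lit 0), (nat_lit 3983602), (nat_lit 0)]) (PF.cons (PF.leaf (nat_lit 6398757) (nat_lit 597955) (nat_lit 46182800) (nat_lit 9944396) [(nat_lit 597955), (nat_lit 0), (nat_lit
 3995919), (nat_lit 0)]) (PF.cons PF.nil (PF.cons PF.nil (PF.cons PF.nil PF.nil))))))))) (PF.cons (PF.cons (PF.leaf (nat_lit 5449608) (nat_lit 1779026) (nat_lit 47415412) (nat_lit 9994157) [(nat_lit 0), (nat_lit 1779026), (nat_lit 3960108), (nat_lit 0)]) (PF.cons (PF.leaf (nat_lit 5789405) (nat_lit 574946) (nat_lit 46818021) (nat_lit 9968682) [(nat_lit 574946), (nat_lit 1797803), (nat_lit 3974679), (nat_lit 0)]) (PF.cons (PF.leaf (nat_lit 6141947) (nat_lit 587688) (nat_lit 46205415) (nat_lit 9939196) [(nat_lit 587688), (nat_lit 1814794), (nat_lit 3987015),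 (nat_lit 0)]) (PF.cons (PF.leaf (nat_lit 6504557) (nat_lit 598991) (nat_lit 45582063) (nat_lit 9905784) [(nat_lit 598991), (nat_lit 1829986), (nat_lit 3997001), (nat_lit 0)]) (PF.cons (PF.leaf (nat_lit 6875272) (nat_lit 609034) (nat_lit 44951502) (nat_lit 9868568) [(nat_lit 609034), (nat_lit 1843407), (nat_lit 4004598), (nat_lit 0)]) (PF.cons PF.nil (PF.cons PF.nil PF.nil))))))) (PF.cons (PF.cons (PF.leaf (nat_lit 6256076) (nat_lit 1819944) (nat_lit 45591522) (nat_lit 9900145) [(nat_lit 0), (nat_lit 1819944), (nat_lit 3988627), (nat_lit 0)]) (PF.cons (PF.leaf (nat_lit 6610397) (nat_lit 599488) (nat_lit 44984377) (nat_lit 9864569)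
 [(nat_lit 599488), (nat_lit 1833753), (nat_lit 3996435), (nat_lit 0)]) (PF.cons (PF.leaf (nat_lit 6973765) (nat_lit 609322) (nat_lit 44368924) (nat_lit 9825323) [(nat_lit 609322), (nat_lit 1845922), (nat_lit 4002037), (nat_lit 0)]) (PF.cons PF.nil (PF.cons PF.nil PF.nil))))) (PF.cons (PF.cons (PF.leaf (nat_lit 7072653) (nat_lit 1847644) (nat_lit 43789944) (nat_lit 9779836) [(nat_lit 0), (nat_lit 1847644), (nat_lit 3998049), (nat_lit 0)]) (PF.cons (PF.leaf (nat_lit 7435423) (nat_lit 617653) (nat_lit 43184780) (nat_lit 9735487) [(nat_lit 617653), (nat_lit 1857135), (nat_lit 3999742), (nat_lit 0)]) (PF.cons PF.nil (PF.cons PF.nil PF.nil)))) (PF.cons (PF.cons (PF.leaf (nat_lit 7888932) (nat_lit 1864214) (nat_lit 42032127) (nat_lit 9637724) [(nat_lit 0), (nat_lit 1864214), (nat_lit 3991050), (nat_lit 0)]) (PF.cons PF.nil PF.nil)) (PF.cons PF.nil PF.nil)))))) (PF.cons (PF.cons (PF.cons (PF.leaf (nat_lit 6012667) (nat_lit 3964202) (nat_lit 45352975) (nat_lit 9863231) [(nat_lit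 0), (nat_lit 0), (nat_lit 3964202), (nat_lit 0)]) (PF.cons (PF.leaf (nat_lit 6349836) (nat_lit 583893) (nat_lit 44778293) (nat_lit 9829310) [(nat_lit 583893), (nat_lit 0), (nat_lit 3972438), (nat_lit 0)]) (PF.cons
 (PF.leaf (nat_lit 6698535) (nat_lit 595198) (nat_lit 44190766) (nat_lit 9791734) [(nat_lit 595198), (nat_lit 0), (nat_lit 3978638), (nat_lit 0)]) (PF.cons (PF.leaf (nat_lit 7056150) (nat_lit 605110) (nat_lit 43594578) (nat_lit 9750669) [(nat_lit 605110), (nat_lit 0), (nat_lit 3982744), (nat_lit 0)]) (PF.cons (PF.leaf (nat_lit 7420818) (nat_lit 613816) (nat_lit 42992993) (nat_lit 9706295) [(nat_lit 613816), (nat_lit 0), (nat_lit 3984752), (nat_lit 0)]) PF.nil))))) (PF.cons (PF.cons (PF.leaf (nat_lit 6802994) (nat_lit 1827929) (nat_lit 43609466) (nat_lit 9746049) [(nat_lit 0), (nat_lit 1827929), (nat_lit 3975122), (nat_lit 0)]) (PF.cons (PF.leaf (nat_lit 7152298) (nat_lit 604607) (nat_lit 43029678) (nat_lit 9703547) [(nat_lit 604607), (nat_lit 1838406), (nat_lit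 3977524), (nat_lit 0)]) (PF.cons (PF.leaf (nat_lit 7509650) (nat_lit 613190) (nat_lit 42443293) (nat_lit 9657821) [(nat_lit 613190), (nat_lit 1847396), (nat_lit 3977973), (nat_lit 0)]) (PF.cons PF.nil PF.nil)))) (PF.cons (PF.cons (PF.leaf (nat_lit 7599160) (nat_lit 1846802) (nat_lit 41897485) (nat_lit 9607585) [(nat_lit 0), (nat_lit 1846802), (nat_lit 3970045), (nat_lit 0)]) (PF.cons (PF.leaf (nat_lit 7955106) (nat_lit
 619541) (nat_lit 41322688) (nat_lit 9557840) [(nat_lit 619541), (nat_lit 1853495), (nat_lit 3967250), (nat_lit 0)]) PF.nil)) (PF.cons PF.nil (PF.cons PF.nil PF.nil))))) (PF.cons (PF.cons (PF.cons (PF.leaf (nat_lit 7324199) (nat_lit 3948288) (nat_lit 41740198) (nat_lit 9575460) [(nat_lit 0), (nat_lit 0), (nat_lit 3948288), (nat_lit 0)]) (PF.cons (PF.leaf (nat_lit 7667758) (nat_lit 607078) (nat_lit 41188599) (nat_lit 9527791) [(nat_lit 607078), (nat_lit 0), (nat_lit 3946335), (nat_lit 0)]) (PF.cons (PF.leaf (nat_lit 8018541) (nat_lit 614582) (nat_lit 40631736)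 (nat_lit 9477295) [(nat_lit 614582), (nat_lit 0), (nat_lit 3942653), (nat_lit 0)]) (PF.cons PF.nil PF.nil)))) (PF.cons (PF.cons (PF.leaf (nat_lit 8099429) (nat_lit 1839815) (nat_lit 40118357) (nat_lit 9423839) [(nat_lit 0), (nat_lit 1839815), (nat_lit 3931700), (nat_lit 0)]) (PF.cons PF.nil PF.nil)) (PF.cons PF.nil PF.nil))) (PF.cons (PF.cons (PF.cons (PF.leaf (nat_lit 8575062) (nat_lit 3885540) (nat_lit 38448238) (nat_lit 9232870) [(nat_lit 0), (nat_lit 0), (nat_lit 3885540), (nat_lit 0)]) (PF.cons PF.nil PF.nil)) (PF.cons PF.nil PF.nil)) (PF.cons PF.nil (PF.cons PF.nil PF.nil)))))))) (PF.cons (PF.cons (PF.cons (PF.cons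
 (PF.leaf (nat_lit 4239658) (nat_lit 9064413) (nat_lit 48163162) (nat_lit 9881237) [(nat_lit 0), (nat_lit 0), (nat_lit 0), (nat_lit 9064413)]) (PF.cons (PF.leaf (nat_lit 4513464) (nat_lit 489579) (nat_lit 47689544) (nat_lit 9870370) [(nat_lit 489579), (nat_lit 0), (nat_lit 0), (nat_lit 9059318)]) (PF.cons (PF.leaf (nat_lit 4811173) (nat_lit 510970) (nat_lit 47179758) (nat_lit 9855977) [(nat_lit 510970), (nat_lit 0), (nat_lit 0), (nat_lit 9051135)]) (PF.cons (PF.leaf (nat_lit 5127666) (nat_lit 529590) (nat_lit 46642558) (nat_lit 9837887) [(nat_lit 529590), (nat_lit 0), (nat_lit 0), (nat_lit 9039595)]) (PF.cons (PF.leaf (nat_lit 5459518) (nat_lit 545972) (nat_lit 46084364) (nat_lit 9816012) [(nat_lit 545972), (nat_lit 0), (nat_lit 0), (nat_lit 9024544)]) (PF.cons (PF.leaf (nat_lit 5804040) (nat_lit 560482) (nat_lit 45510158) (nat_lit 9790331) [(nat_lit 560482), (nat_lit 0), (nat_lit 0), (nat_lit 9005910)]) (PF.cons (PF.leaf (nat_lit 6159008) (nat_lit 573382) (nat_lit 44923951)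 (nat_lit 9760878) [(nat_lit 573382), (nat_lit 0), (nat_lit 0), (nat_lit 8983690)]) (PF.cons (PF.leaf (nat_lit 6522621) (nat_lit 584870) (nat_lit 44329050) (nat_lit 9727736) [(nat_lit 584870), (nat_lit 0),
 (nat_lit 0), (nat_lit 8957935)]) (PF.cons (PF.leaf (nat_lit 6893240) (nat_lit 595102) (nat_lit 43728233) (nat_lit 9691022) [(nat_lit 595102), (nat_lit 0), (nat_lit 0), (nat_lit 8928734)]) (PF.cons PF.nil PF.nil)))))))))) (PF.cons (PF.cons (PF.leaf (nat_lit 4950565) (nat_lit 1694224) (nat_lit 46556153) (nat_lit 9827999) [(nat_lit 0), (nat_lit 1694224), (nat_lit 0), (nat_lit 9030434)]) (PF.cons (PF.leaf (nat_lit 5256596) (nat_lit 531898) (nat_lit 46035891) (nat_lit 9807391) [(nat_lit 531898), (nat_lit 1717416), (nat_lit 0), (nat_lit 9016214)]) (PF.cons (PF.leaf (nat_lit 5579805) (nat_lit 548043) (nat_lit 45492457) (nat_lit 9783048) [(nat_lit 548043), (nat_lit 1738652), (nat_lit 0), (nat_lit 8998566)]) (PF.cons (PF.leaf (nat_lit 5916646) (nat_lit 562258) (nat_lit 44931723)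 (nat_lit 9754991) [(nat_lit 562258), (nat_lit 1757872), (nat_lit 0), (nat_lit 8977451)]) (PF.cons (PF.leaf (nat_lit 6264600) (nat_lit 574837) (nat_lit 44358197) (nat_lit 9723285) [(nat_lit 574837), (nat_lit 1775092), (nat_lit 0), (nat_lit 8952886)]) (PF.cons (PF.leaf (nat_lit 6621633) (nat_lit 585999) (nat_lit 43775481) (nat_lit 9688028) [(nat_lit 585999), (nat_lit 1790369), (nat_lit 0), (nat_lit 8924933)])
 (PF.cons (PF.leaf (nat_lit 6986028) (nat_lit 595910) (nat_lit 43186524) (nat_lit 9649349) [(nat_lit 595910), (nat_lit 1803781), (nat_lit 0), (nat_lit 8893691)]) (PF.cons PF.nil (PF.cons PF.nil PF.nil))))))))) (PF.cons (PF.cons (PF.leaf (nat_lit 5702310) (nat_lit 1746651) (nat_lit 44898878) (nat_lit 9747012) [(nat_lit 0), (nat_lit 1746651), (nat_lit 0), (nat_lit 8969618)]) (PF.cons (PF.leaf (nat_lit 6030104) (nat_lit 563354) (nat_lit 44353881) (nat_lit 9716927) [(nat_lit 563354), (nat_lit 1764153), (nat_lit 0), (nat_lit 8946341)]) (PF.cons (PF.leaf (nat_lit 6370301)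 (nat_lit 575724) (nat_lit 43794652) (nat_lit 9683271) [(nat_lit 575724), (nat_lit 1779863), (nat_lit 0), (nat_lit 8919713)]) (PF.cons (PF.leaf (nat_lit 6720252) (nat_lit 586643) (nat_lit 43225305) (nat_lit 9646171) [(nat_lit 586643), (nat_lit 1793793), (nat_lit 0), (nat_lit 8889818)]) (PF.cons (PF.leaf (nat_lit 7078064) (nat_lit 596297) (nat_lit 42649093) (nat_lit 9605773) [(nat_lit 596297), (nat_lit 1805995), (nat_lit 0), (nat_lit 8856766)]) (PF.cons (PF.leaf (nat_lit 7442153) (nat_lit 604830) (nat_lit 42068661) (nat_lit 9562237) [(nat_lit 604830), (nat_lit 1816534), (nat_lit 0), (nat_lit 8820691)]) (PF.cons PF.nil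
 PF.nil))))))) (PF.cons (PF.cons (PF.leaf (nat_lit 6477216) (nat_lit 1783745) (nat_lit 43232490) (nat_lit 9640870) [(nat_lit 0), (nat_lit 1783745), (nat_lit 0), (nat_lit 8884215)]) (PF.cons (PF.leaf (nat_lit 6819127) (nat_lit 586783) (nat_lit 42677949) (nat_lit 9602217) [(nat_lit 586783), (nat_lit 1796404), (nat_lit 0), (nat_lit 8852648)]) (PF.cons (PF.leaf (nat_lit 7169860) (nat_lit 596254) (nat_lit 42115520) (nat_lit 9560355) [(nat_lit 596254), (nat_lit 1807467), (nat_lit 0), (nat_lit 8818026)]) (PF.cons (PF.leaf (nat_lit 7527385) (nat_lit 604585) (nat_lit 41548157) (nat_lit 9515462) [(nat_lit 604585), (nat_lit 1816979), (nat_lit 0), (nat_lit 8780496)]) (PF.cons PF.nil PF.nil))))) (PF.cons (PF.cons (PF.leaf (nat_lit 7262275) (nat_lit 1808240) (nat_lit 41585204) (nat_lit 9513132) [(nat_lit 0), (nat_lit 1808240), (nat_lit 0), (nat_lit 8777514)]) (PF.cons (PF.leaf (nat_lit 7612525) (nat_lit 603959) (nat_lit 41031826) (nat_lit 9467121) [(nat_lit 603959), (nat_lit 1816788),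 (nat_lit 0), (nat_lit 8738753)]) (PF.cons (PF.leaf (nat_lit 7968869) (nat_lit 611124) (nat_lit 40475114) (nat_lit 9418349) [(nat_lit 611124), (nat_lit 1823941), (nat_lit 0), (nat_lit 8697334)]) (PF.cons PF.nil
 PF.nil)))) (PF.cons (PF.cons (PF.leaf (nat_lit 8047769) (nat_lit 1822330) (nat_lit 39976361) (nat_lit 9367656) [(nat_lit 0), (nat_lit 1822330), (nat_lit 0), (nat_lit 8653145)]) (PF.cons PF.nil PF.nil)) (PF.cons PF.nil (PF.cons PF.nil PF.nil)))))))) (PF.cons (PF.cons (PF.cons (PF.leaf (nat_lit 5494421) (nat_lit 3860479) (nat_lit 44608835) (nat_lit 9707053) [(nat_lit 0), (nat_lit 0), (nat_lit 3860479), (nat_lit 8932444)]) (PF.cons (PF.leaf (nat_lit 5800827) (nat_lit 543814) (nat_lit 44103414) (nat_lit 9678788) [(nat_lit 543814), (nat_lit 0), (nat_lit 3872200), (nat_lit 8910594)]) (PF.cons (PF.leaf (nat_lit 6123059) (nat_lit 558384) (nat_lit 43577608) (nat_lit 9646918) [(nat_lit 558384), (nat_lit 0), (nat_lit 3882089), (nat_lit 8885427)]) (PF.cons (PF.leaf (nat_lit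 6457622) (nat_lit 571068) (nat_lit 43037013) (nat_lit 9611590) [(nat_lit 571068), (nat_lit 0), (nat_lit 3889977), (nat_lit 8857027)]) (PF.cons (PF.leaf (nat_lit 6802099) (nat_lit 582176) (nat_lit 42485859) (nat_lit 9572955) [(nat_lit 582176), (nat_lit 0), (nat_lit 3895790), (nat_lit 8825500)]) (PF.cons (PF.leaf (nat_lit 7154544) (nat_lit 591935) (nat_lit 41927475) (nat_lit 9531173) [(nat_lit 591935), (nat_lit 0), (nat_lit
 3899514), (nat_lit 8790968)]) (PF.cons (PF.leaf (nat_lit 7513345) (nat_lit 600516) (nat_lit 41364550) (nat_lit 9486414) [(nat_lit 600516), (nat_lit 0), (nat_lit 3901177), (nat_lit 8753571)]) (PF.cons PF.nil (PF.cons PF.nil PF.nil))))))))) (PF.cons (PF.cons (PF.leaf (nat_lit 6236760) (nat_lit 1760944) (nat_lit 43012330) (nat_lit 9604147) [(nat_lit 0), (nat_lit 1760944), (nat_lit 3881718), (nat_lit 8849672)]) (PF.cons (PF.leaf (nat_lit 6562149) (nat_lit 571013) (nat_lit 42487987) (nat_lit 9567477) [(nat_lit 571013), (nat_lit 1774861), (nat_lit 3887687),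 (nat_lit 8819784)]) (PF.cons (PF.leaf (nat_lit 6898792) (nat_lit 582021) (nat_lit 41951520) (nat_lit 9527535) [(nat_lit 582021), (nat_lit 1787133), (nat_lit 3891757), (nat_lit 8786822)]) (PF.cons (PF.leaf (nat_lit 7244144) (nat_lit 591633) (nat_lit 41406772) (nat_lit 9484511) [(nat_lit 591633), (nat_lit 1797797), (nat_lit 3893893), (nat_lit 8750937)]) (PF.cons (PF.leaf (nat_lit 7596397) (nat_lit 600043) (nat_lit 40856744) (nat_lit 9438597) [(nat_lit 600043), (nat_lit 1806910), (nat_lit 3894106), (nat_lit 8712281)]) (PF.cons PF.nil (PF.cons PF.nil PF.nil))))))) (PF.cons (PF.cons (PF.leaf (nat_lit 6996953) (nat_lit 1788403) (nat_lit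
 41419100) (nat_lit 9480180) [(nat_lit 0), (nat_lit 1788403), (nat_lit 3886466), (nat_lit 8746258)]) (PF.cons (PF.leaf (nat_lit 7334272) (nat_lit 590885) (nat_lit 40889247) (nat_lit 9436182) [(nat_lit 590885), (nat_lit 1798047), (nat_lit 3887135), (nat_lit 8709266)]) (PF.cons (PF.leaf (nat_lit 7679495) (nat_lit 599193) (nat_lit 40353007) (nat_lit 9389343) [(nat_lit 599193), (nat_lit 1806247), (nat_lit 3886012), (nat_lit 8669567)]) (PF.cons (PF.leaf (nat_lit 8030681) (nat_lit 606419) (nat_lit 39813100) (nat_lit 9339869) [(nat_lit 606419), (nat_lit 1813059), (nat_lit 3883126), (nat_lit 8627338)]) (PF.cons PF.nil PF.nil))))) (PF.cons (PF.cons (PF.leaf (nat_lit 7763466) (nat_lit 1805015) (nat_lit 39852718) (nat_lit 9338662) [(nat_lit 0), (nat_lit 1805015), (nat_lit 3876938), (nat_lit 8625447)]) (PF.cons (PF.leaf (nat_lit 8107479) (nat_lit 605105) (nat_lit 39326596) (nat_lit 9288547) [(nat_lit 605105), (nat_lit 1811057), (nat_lit 3872936), (nat_lit 8582453)]) (PF.cons PF.nil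 (PF.cons PF.nil PF.nil)))) (PF.cons (PF.cons (PF.leaf (nat_lit 8527832) (nat_lit 1812709) (nat_lit 38328917) (nat_lit 9183126) [(nat_lit 0), (nat_lit 1812709), (nat_lit 3855366), (nat_lit 8490564)]) (PF.cons PF.nil
 PF.nil)) (PF.cons PF.nil PF.nil)))))) (PF.cons (PF.cons (PF.cons (PF.leaf (nat_lit 6749465) (nat_lit 3862841) (nat_lit 41225315) (nat_lit 9444853) [(nat_lit 0), (nat_lit 0), (nat_lit 3862841), (nat_lit 8712960)]) (PF.cons (PF.leaf (nat_lit 7071419) (nat_lit 575825) (nat_lit 40723200) (nat_lit 9403133) [(nat_lit 575825), (nat_lit 0), (nat_lit 3864352), (nat_lit 8677946)]) (PF.cons (PF.leaf (nat_lit 7403659) (nat_lit 585646) (nat_lit 40210685) (nat_lit 9358428) [(nat_lit 585646), (nat_lit 0), (nat_lit 3864138), (nat_lit 8640128)]) (PF.cons (PF.leaf (nat_lit 7743715) (nat_lit 594126) (nat_lit 39691353) (nat_lit 9310977) [(nat_lit 594126), (nat_lit 0), (nat_lit 3862199), (nat_lit 8599702)]) (PF.cons (PF.leaf (nat_lit 8089865) (nat_lit 601464) (nat_lit 39167967)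 (nat_lit 9260999) [(nat_lit 601464), (nat_lit 0), (nat_lit 3858567), (nat_lit 8556852)]) (PF.cons PF.nil (PF.cons PF.nil PF.nil))))))) (PF.cons (PF.cons (PF.leaf (nat_lit 7493643) (nat_lit 1786409) (nat_lit 39707855) (nat_lit 9307600) [(nat_lit 0), (nat_lit 1786409), (nat_lit 3855505), (nat_lit 8595937)]) (PF.cons (PF.leaf (nat_lit 7825744) (nat_lit 592666) (nat_lit 39203219) (nat_lit 9259645) [(nat_lit 592666), (nat_lit
 1793540), (nat_lit 3852437), (nat_lit 8554865)]) (PF.cons (PF.leaf (nat_lit 8164972) (nat_lit 599969) (nat_lit 38693381) (nat_lit 9209176) [(nat_lit 599969), (nat_lit 1799362), (nat_lit 3847777), (nat_lit 8511398)]) (PF.cons (PF.leaf (nat_lit 8509468) (nat_lit 606245) (nat_lit 38180841) (nat_lit 9156422) [(nat_lit 606245), (nat_lit 1803938), (nat_lit 3841571), (nat_lit 8465731)]) (PF.cons PF.nil PF.nil))))) (PF.cons (PF.cons (PF.leaf (nat_lit 8241181) (nat_lit 1796543) (nat_lit 38222270) (nat_lit 9156231) [(nat_lit 0), (nat_lit 1796543), (nat_lit 3836195),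 (nat_lit 8464831)]) (PF.cons (PF.leaf (nat_lit 8578650) (nat_lit 604383) (nat_lit 37723133) (nat_lit 9103216) [(nat_lit 604383), (nat_lit 1800509), (nat_lit 3829142), (nat_lit 8418775)]) (PF.cons PF.nil (PF.cons PF.nil PF.nil)))) (PF.cons (PF.cons (PF.leaf (nat_lit 8984633) (nat_lit 1799013) (nat_lit 36781426) (nat_lit 8993935) [(nat_lit 0), (nat_lit 1799013), (nat_lit 3806882), (nat_lit 8322645)]) (PF.cons PF.nil PF.nil)) (PF.cons PF.nil PF.nil))))) (PF.cons (PF.cons (PF.cons (PF.leaf (nat_lit 7968288) (nat_lit 3816126) (nat_lit 38096017) (nat_lit 9127203) [(nat_lit 0), (nat_lit 0), (nat_lit 3816126), (nat_lit 8437211)])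
 (PF.cons (PF.leaf (nat_lit 8294735) (nat_lit 592563) (nat_lit 37616495) (nat_lit 9076421) [(nat_lit 592563), (nat_lit 0), (nat_lit 3810057), (nat_lit 8393158)]) (PF.cons (PF.leaf (nat_lit 8627669) (nat_lit 598995) (nat_lit 37132702) (nat_lit 9023417) [(nat_lit 598995), (nat_lit 0), (nat_lit 3802571), (nat_lit 8346985)]) (PF.cons PF.nil PF.nil)))) (PF.cons (PF.cons (PF.leaf (nat_lit 8696765) (nat_lit 1783940) (nat_lit 36689566) (nat_lit 8969144) [(nat_lit 0), (nat_lit 1783940), (nat_lit 3789091), (nat_lit 8298888)]) (PF.cons (PF.leaf (nat_lit 9027530) (nat_lit 602158) (nat_lit 36216706) (nat_lit 8914198) [(nat_lit 602158), (nat_lit 1786186), (nat_lit 3779617), (nat_lit 8250711)]) PF.nil)) (PF.cons PF.nil PF.nil))) (PF.cons (PF.cons (PF.cons (PF.leaf (nat_lit 9131610) (nat_lit 3737282) (nat_lit 35249583) (nat_lit 8779969) [(nat_lit 0), (nat_lit 0), (nat_lit 3737282), (nat_lit 8130128)]) (PF.cons PF.nil PF.nil)) (PF.cons PF.nil PF.nil)) (PF.cons PF.nil PF.nil)))))) (PF.cons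 (PF.cons (PF.cons (PF.cons (PF.leaf (nat_lit 6225842) (nat_lit 8581175) (nat_lit 40639824) (nat_lit 9306638) [(nat_lit 0), (nat_lit 0), (nat_lit 0), (nat_lit 8581175)]) (PF.cons (PF.leaf (nat_lit 6520768) (nat_lit
 538532) (nat_lit 40195142) (nat_lit 9271250) [(nat_lit 538532), (nat_lit 0), (nat_lit 0), (nat_lit 8551943)]) (PF.cons (PF.leaf (nat_lit 6830100) (nat_lit 551616) (nat_lit 39733405) (nat_lit 9232656) [(nat_lit 551616), (nat_lit 0), (nat_lit 0), (nat_lit 8519758)]) (PF.cons (PF.leaf (nat_lit 7150461) (nat_lit 562843) (nat_lit 39259499) (nat_lit 9191129) [(nat_lit 562843), (nat_lit 0), (nat_lit 0), (nat_lit 8484827)]) (PF.cons (PF.leaf (nat_lit 7479565) (nat_lit 572540) (nat_lit 38777079) (nat_lit 9146897) [(nat_lit 572540), (nat_lit 0), (nat_lit 0), (nat_lit 8447336)]) (PF.cons (PF.leaf (nat_lit 7815610) (nat_lit 580946) (nat_lit 38288989) (nat_lit 9100171) [(nat_lit 580946), (nat_lit 0), (nat_lit 0), (nat_lit 8407459)]) (PF.cons (PF.leaf (nat_lit 8157119)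 (nat_lit 588240) (nat_lit 37797502) (nat_lit 9051144) [(nat_lit 588240), (nat_lit 0), (nat_lit 0), (nat_lit 8365361)]) (PF.cons PF.nil (PF.cons PF.nil PF.nil))))))))) (PF.cons (PF.cons (PF.leaf (nat_lit 6930339) (nat_lit 1726209) (nat_lit 39241660) (nat_lit 9184490) [(nat_lit 0), (nat_lit 1726209), (nat_lit 0), (nat_lit 8478226)]) (PF.cons (PF.leaf (nat_lit 7241745) (nat_lit 561751) (nat_lit 38782511) (nat_lit 9142498) [(nat_lit
 561751), (nat_lit 1736719), (nat_lit 0), (nat_lit 8442666)]) (PF.cons (PF.leaf (nat_lit 7563277) (nat_lit 571438) (nat_lit 38313367) (nat_lit 9097772) [(nat_lit 571438), (nat_lit 1745719), (nat_lit 0), (nat_lit 8404538)]) (PF.cons (PF.leaf (nat_lit 7892528) (nat_lit 579782) (nat_lit 37837533) (nat_lit 9050561) [(nat_lit 579782), (nat_lit 1753273), (nat_lit 0), (nat_lit 8364048)]) (PF.cons (PF.leaf (nat_lit 8227819) (nat_lit 586985) (nat_lit 37357566) (nat_lit 9001082) [(nat_lit 586985), (nat_lit 1759457), (nat_lit 0), (nat_lit 8321381)]) (PF.cons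 PF.nil (PF.cons PF.nil PF.nil))))))) (PF.cons (PF.cons (PF.leaf (nat_lit 7648784) (nat_lit 1744532) (nat_lit 37851517) (nat_lit 9047331) [(nat_lit 0), (nat_lit 1744532), (nat_lit 0), (nat_lit 8360449)]) (PF.cons (PF.leaf (nat_lit 7970331) (nat_lit 578241) (nat_lit 37388963) (nat_lit 8999856) [(nat_lit 578241), (nat_lit 1751324), (nat_lit 0), (nat_lit 8319551)]) (PF.cons (PF.leaf (nat_lit 8298953) (nat_lit 585417) (nat_lit 36921227) (nat_lit 8950108) [(nat_lit 585417), (nat_lit 1756834), (nat_lit 0), (nat_lit 8276486)]) (PF.cons (PF.leaf (nat_lit 8632824) (nat_lit 591576) (nat_lit 36450619) (nat_lit 8898311) [(nat_lit 591576), (nat_lit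
 1761129), (nat_lit 0), (nat_lit 8231447)]) (PF.cons PF.nil PF.nil))))) (PF.cons (PF.cons (PF.leaf (nat_lit 8371311) (nat_lit 1753793) (nat_lit 36487901) (nat_lit 8898203) [(nat_lit 0), (nat_lit 1753793), (nat_lit 0), (nat_lit 8230663)]) (PF.cons (PF.leaf (nat_lit 8698402) (nat_lit 589670) (nat_lit 36029399) (nat_lit 8846328) [(nat_lit 589670), (nat_lit 1757527), (nat_lit 0), (nat_lit 8185415)]) (PF.cons PF.nil (PF.cons PF.nil PF.nil)))) (PF.cons (PF.cons (PF.leaf (nat_lit 9090815) (nat_lit 1755750) (nat_lit 35162827) (nat_lit 8739930) [(nat_lit 0), (nat_lit 1755750), (nat_lit 0), (nat_lit 8091527)]) (PF.cons PF.nil PF.nil)) (PF.cons PF.nil PF.nil)))))) (PF.cons (PF.cons (PF.cons (PF.leaf (nat_lit 7401052) (nat_lit 3741203) (nat_lit 37693445) (nat_lit 9014799) [(nat_lit 0), (nat_lit 0), (nat_lit 3741203), (nat_lit 8329682)]) (PF.cons (PF.leaf (nat_lit 7708691) (nat_lit 563862) (nat_lit 37254557) (nat_lit 8969838) [(nat_lit 563862), (nat_lit 0), (nat_lit 3738519), (nat_lit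 8291016)]) (PF.cons (PF.leaf (nat_lit 8025678) (nat_lit 572551) (nat_lit 36806972) (nat_lit 8922379) [(nat_lit 572551), (nat_lit 0), (nat_lit 3734351), (nat_lit 8250002)]) (PF.cons (PF.leaf (nat_lit 8349666)
 (nat_lit 579958) (nat_lit 36353769) (nat_lit 8872693) [(nat_lit 579958), (nat_lit 0), (nat_lit 3728733), (nat_lit 8206871)]) (PF.cons (PF.leaf (nat_lit 8679052) (nat_lit 586283) (nat_lit 35897303) (nat_lit 8821013) [(nat_lit 586283), (nat_lit 0), (nat_lit 3721718), (nat_lit 8161822)]) PF.nil))))) (PF.cons (PF.cons (PF.leaf (nat_lit 8104242) (nat_lit 1736462) (nat_lit 36370985) (nat_lit 8870319) [(nat_lit 0), (nat_lit 1736462), (nat_lit 3722856), (nat_lit 8204094)]) (PF.cons (PF.leaf (nat_lit 8420650) (nat_lit 577901) (nat_lit 35930709) (nat_lit 8820677) [(nat_lit 577901), (nat_lit 1741314), (nat_lit 3716491), (nat_lit 8160859)]) (PF.cons (PF.leaf (nat_lit 8743508) (nat_lit 584251) (nat_lit 35486109) (nat_lit 8769010) [(nat_lit 584251), (nat_lit 1745003), (nat_lit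 3708799), (nat_lit 8115693)]) (PF.cons PF.nil PF.nil)))) (PF.cons (PF.cons (PF.leaf (nat_lit 8809374) (nat_lit 1740857) (nat_lit 35077851) (nat_lit 8716273) [(nat_lit 0), (nat_lit 1740857), (nat_lit 3695319), (nat_lit 8068826)]) (PF.cons (PF.leaf (nat_lit 9130316) (nat_lit 587343) (nat_lit 34642713) (nat_lit 8662980) [(nat_lit 587343), (nat_lit 1743013), (nat_lit 3685815), (nat_lit 8021966)]) PF.nil)) (PF.cons PF.nil
 (PF.cons PF.nil PF.nil))))) (PF.cons (PF.cons (PF.cons (PF.leaf (nat_lit 8540718) (nat_lit 3677049) (nat_lit 34975853) (nat_lit 8690463) [(nat_lit 0), (nat_lit 0), (nat_lit 3677049), (nat_lit 8044198)]) (PF.cons (PF.leaf (nat_lit 8851724) (nat_lit 576189) (nat_lit 34557371) (nat_lit 8639394) [(nat_lit 576189), (nat_lit 0), (nat_lit 3668576), (nat_lit 7999352)]) (PF.cons (PF.leaf (nat_lit 9168664) (nat_lit 581823) (nat_lit 34135249) (nat_lit 8586521) [(nat_lit 581823), (nat_lit 0), (nat_lit 3658913), (nat_lit 7952783)]) (PF.cons PF.nil PF.nil)))) (PF.cons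 (PF.cons (PF.leaf (nat_lit 9228580) (nat_lit 1725104) (nat_lit 33750782) (nat_lit 8533532) [(nat_lit 0), (nat_lit 1725104), (nat_lit 3644248), (nat_lit 7905448)]) (PF.cons PF.nil PF.nil)) (PF.cons PF.nil PF.nil))) (PF.cons (PF.cons (PF.cons (PF.leaf (nat_lit 9630111) (nat_lit 3590412) (nat_lit 32501896) (nat_lit 8351539) [(nat_lit 0), (nat_lit 0), (nat_lit 3590412), (nat_lit 7742070)]) (PF.cons PF.nil PF.nil)) (PF.cons PF.nil PF.nil)) (PF.cons PF.nil PF.nil))))) (PF.cons (PF.cons (PF.cons (PF.cons (PF.leaf (nat_lit 7985222) (nat_lit 7951997) (nat_lit 34658540) (nat_lit 8594280) [(nat_lit 0), (nat_lit 0), (nat_lit 0), (nat_lit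
 7951997)]) (PF.cons (PF.leaf (nat_lit 8279613) (nat_lit 549860) (nat_lit 34273672) (nat_lit 8548659) [(nat_lit 549860), (nat_lit 0), (nat_lit 0), (nat_lit 7912206)]) (PF.cons (PF.leaf (nat_lit 8582615) (nat_lit 557663) (nat_lit 33881356) (nat_lit 8500902) [(nat_lit 557663), (nat_lit 0), (nat_lit 0), (nat_lit 7870408)]) (PF.cons (PF.leaf (nat_lit 8891975) (nat_lit 564241) (nat_lit 33484250) (nat_lit 8451292) [(nat_lit 564241), (nat_lit 0), (nat_lit 0), (nat_lit 7826848)]) (PF.cons PF.nil PF.nil))))) (PF.cons (PF.cons (PF.leaf (nat_lit 8652030) (nat_lit 1682891) (nat_lit 33501610) (nat_lit 8449716) [(nat_lit 0), (nat_lit 1682891), (nat_lit 0), (nat_lit 7824865)]) (PF.cons (PF.leaf (nat_lit 8954187) (nat_lit 561818) (nat_lit 33115796) (nat_lit 8400467) [(nat_lit 561818), (nat_lit 1686165), (nat_lit 0), (nat_lit 7781521)]) (PF.cons (PF.leaf (nat_lit 9262280) (nat_lit 567442) (nat_lit 32726252) (nat_lit 8349542) [(nat_lit 567442), (nat_lit 1688394), (nat_lit 0), (nat_lit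 7736579)]) (PF.cons PF.nil PF.nil)))) (PF.cons (PF.cons (PF.leaf (nat_lit 9319968) (nat_lit 1683483) (nat_lit 32370533) (nat_lit 8298528) [(nat_lit 0), (nat_lit 1683483), (nat_lit 0), (nat_lit 7690927)]) (PF.cons
 PF.nil PF.nil)) PF.nil))) (PF.cons (PF.cons (PF.cons (PF.leaf (nat_lit 9056767) (nat_lit 3538098) (nat_lit 32287545) (nat_lit 8275755) [(nat_lit 0), (nat_lit 0), (nat_lit 3538098), (nat_lit 7669138)]) (PF.cons (PF.leaf (nat_lit 9353831) (nat_lit 559110) (nat_lit 31920435) (nat_lit 8225923) [(nat_lit 559110), (nat_lit 0), (nat_lit 3528279), (nat_lit 7625021)]) (PF.cons PF.nil PF.nil))) (PF.cons (PF.cons (PF.leaf (nat_lit 9709051) (nat_lit 1666089) (nat_lit 31214544) (nat_lit 8123925) [(nat_lit 0), (nat_lit 1666089), (nat_lit 3502390), (nat_lit 7533954)]) PF.nil) PF.nil)) (PF.cons PF.nil PF.nil))) (PF.cons (PF.cons (PF.cons (PF.cons (PF.leaf (nat_lit 9527599) (nat_lit 7316527) (nat_lit 29955383) (nat_lit 7887318) [(nat_lit 0), (nat_lit 0), (nat_lit 0), (nat_lit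 7316527)]) (PF.cons (PF.leaf (nat_lit 9812035) (nat_lit 541996) (nat_lit 29631504) (nat_lit 7839508) [(nat_lit 541996), (nat_lit 0), (nat_lit 0), (nat_lit 7273950)]) PF.nil)) (PF.cons PF.nil PF.nil)) (PF.cons PF.nil PF.nil)) (PF.cons PF.nil (PF.cons PF.nil (PF.cons PF.nil (PF.cons PF.nil PF.nil)))))))))

def p15_28_1_0 : pfC (piC [(nat_lit 36496589), (nat_lit 24304186), (nat_lit 18078890), (nat_lit 12207801)] (nat_lit 10642110)) p15_28_1 (nat_lit 4) (nat_lit 0) (nat_lit 1) = true := by decide +kernel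
def p15_28_1_1 : pfC (piC [(nat_lit 36496589), (nat_lit 24304186), (nat_lit 18078890), (nat_lit 12207801)] (nat_lit 10642110)) p15_28_1 (nat_lit 4) (nat_lit 1) (nat_lit 2) = true := by decide +kernel
def p15_28_1_2 : pfC (piC [(nat_lit 36496589), (nat_lit 24304186), (nat_lit 18078890), (nat_lit 12207801)] (nat_lit 10642110)) p15_28_1 (nat_lit 4) (nat_lit 2) (nat_lit 3) = true := by decide +kernel
def p15_28_1_3 : pfC (piC [(nat_lit 36496589), (nat_lit 24304186), (nat_lit 18078890), (nat_lit 12207801)] (nat_lit 10642110)) p15_28_1 (nat_lit 4) (nat_lit 3) (nat_lit 4) = true := by decide +kernel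
def p15_28_1_4 : pfC (piC [(nat_lit 36496589), (nat_lit 24304186), (nat_lit 18078890), (nat_lit 12207801)] (nat_lit 10642110)) p15_28_1 (nat_lit 4) (nat_lit 4) (nat_lit 5) = true := by decide +kernel
def p15_28_1_5 : pfC (piC [(nat_lit 36496589), (nat_lit 24304186), (nat_lit 18078890), (nat_lit 12207801)] (nat_lit 10642110)) p15_28_1 (nat_lit 4) (nat_lit 5) (nat_lit 6) = true := by decide +kernel
def p15_28_1_6 : pfC (piC [(nat_lit 36496589), (nat_lit 24304186), (nat_lit 18078890), (nat_lit 12207801)] (nat_lit 10642110)) p15_28_1 (nat_lit 4) (nat_lit 6) (nat_lit 7) = true := by decide +kernel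
def p15_28_1_7 : pfC (piC [(nat_lit 36496589), (nat_lit 24304186), (nat_lit 18078890), (nat_lit 12207801)] (nat_lit 10642110)) p15_28_1 (nat_lit 4) (nat_lit 7) (nat_lit 8) = true := by decide +kernel
def p15_28_1_8 : pfC (piC [(nat_lit 36496589), (nat_lit 24304186), (nat_lit 18078890), (nat_lit 12207801)] (nat_lit 10642110)) p15_28_1 (nat_lit 4) (nat_lit 8) (nat_lit 9) = true := by decide +kernel
def p15_28_1_9 : pfC (piC [(nat_lit 36496589), (nat_lit 24304186), (nat_lit 18078890), (nat_lit 12207801)] (nat_lit 10642110)) p15_28_1 (nat_lit 4) (nat_lit 9) (nat_lit 10) = true := by decide +kernel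
def p15_28_1_10 : pfC (piC [(nat_lit 36496589), (nat_lit 24304186), (nat_lit 18078890), (nat_lit 12207801)] (nat_lit 10642110)) p15_28_1 (nat_lit 4) (nat_lit 10) (nat_lit 11) = true := by decide +kernel
def p15_28_1_11 : pfC (piC [(nat_lit 36496589), (nat_lit 24304186), (nat_lit 18078890), (nat_lit 12207801)] (nat_lit 10642110)) p15_28_1 (nat_lit 4) (nat_lit 11) (nat_lit 12) = true := by decide +kernel
def p15_28_1_12 : pfC (piC [(nat_lit 36496589), (nat_lit 24304186), (nat_lit 18078890), (nat_lit 12207801)] (nat_lit 10642110)) p15_28_1 (nat_lit 4) (nat_lit 12) (nat_lit 13) = true := by decide +kernel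
def p15_28_1_13 : pfC (piC [(nat_lit 36496589), (nat_lit 24304186), (nat_lit 18078890), (nat_lit 12207801)] (nat_lit 10642110)) p15_28_1 (nat_lit 4) (nat_lit 13) (nat_lit 14) = true := by decide +kernel
def p15_28_1_14 : pfC (piC [(nat_lit 36496589), (nat_lit 24304186), (nat_lit 18078890), (nat_lit 12207801)] (nat_lit 10642110)) p15_28_1 (nat_lit 4) (nat_lit 14) (nat_lit 15) = true := by decide +kernel
def p15_28_1_15 : pfC (piC [(nat_lit 36496589), (nat_lit 24304186), (nat_lit 18078890), (nat_lit 12207801)] (nat_lit 10642110)) p15_28_1 (nat_lit 4) (nat_lit 15) (nat_lit 16) = true := by decide +kernel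
def p15_28_1_16 : pfC (piC [(nat_lit 36496589), (nat_lit 24304186), (nat_lit 18078890), (nat_lit 12207801)] (nat_lit 10642110)) p15_28_1 (nat_lit 4) (nat_lit 16) (nat_lit 17) = true := by decide +kernel
def p15_28_1_17 : pfC (piC [(nat_lit 36496589), (nat_lit 24304186), (nat_lit 18078890), (nat_lit 12207801)] (nat_lit 10642110)) p15_28_1 (nat_lit 4) (nat_lit 17) (nat_lit 18) = true := by decide +kernel
def p15_28_1_18 : pfC (piC [(nat_lit 36496589), (nat_lit 24304186), (nat_lit 18078890), (nat_lit 12207801)] (nat_lit 10642110)) p15_28_1 (nat_lit 4) (nat_lit 18) (nat_lit 19) = true := by decide +kernel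
def p15_28_1_19 : pfC (piC [(nat_lit 36496589), (nat_lit 24304186), (nat_lit 18078890), (nat_lit 12207801)] (nat_lit 10642110)) p15_28_1 (nat_lit 4) (nat_lit 19) (nat_lit 20) = true := by decide +kernel
def p15_28_1_20 : pfC (piC [(nat_lit 36496589), (nat_lit 24304186), (nat_lit 18078890), (nat_lit 12207801)] (nat_lit 10642110)) p15_28_1 (nat_lit 4) (nat_lit 20) (nat_lit 21) = true := by decide +kernel
def p15_28_1_21 : pfC (piC [(nat_lit 36496589), (nat_lit 24304186), (nat_lit 18078890), (nat_lit 12207801)] (nat_lit 10642110)) p15_28_1 (nat_lit 4) (nat_lit 21) (nat_lit 22) = true := by decide +kernel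
def p15_28_1_22 : pfC (piC [(nat_lit 36496589), (nat_lit 24304186), (nat_lit 18078890), (nat_lit 12207801)] (nat_lit 10642110)) p15_28_1 (nat_lit 4) (nat_lit 22) (nat_lit 23) = true := by decide +kernel
def p15_28_1_23 : pfC (piC [(nat_lit 36496589), (nat_lit 24304186), (nat_lit 18078890), (nat_lit 12207801)] (nat_lit 10642110)) p15_28_1 (nat_lit 4) (nat_lit 23) (nat_lit 24) = true := by decide +kernel
def p15_28_1_24 : pfC (piC [(nat_lit 36496589), (nat_lit 24304186), (nat_lit 18078890), (nat_lit 12207801)] (nat_lit 10642110)) p15_28_1 (nat_lit 4) (nat_lit 24) (nat_lit 25) = true := by decide +kernel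
def p15_28_1_25 : pfC (piC [(nat_lit 36496589), (nat_lit 24304186), (nat_lit 18078890), (nat_lit 12207801)] (nat_lit 10642110)) p15_28_1 (nat_lit 4) (nat_lit 25) (nat_lit 26) = true := by decide +kernel
def p15_28_1_26 : pfC (piC [(nat_lit 36496589), (nat_lit 24304186), (nat_lit 18078890), (nat_lit 12207801)] (nat_lit 10642110)) p15_28_1 (nat_lit 4) (nat_lit 26) (nat_lit 27) = true := by decide +kernel
def p15_28_1_27 : pfC (piC [(nat_lit 36496589), (nat_lit 24304186), (nat_lit 18078890), (nat_lit 12207801)] (nat_lit 10642110)) p15_28_1 (nat_lit 4) (nat_lit 27) (nat_lit 28) = true := by decide +kernel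
def p15_28_1_28 : pfC (piC [(nat_lit 36496589), (nat_lit 24304186), (nat_lit 18078890), (nat_lit 12207801)] (nat_lit 10642110)) p15_28_1 (nat_lit 4) (nat_lit 28) (nat_lit 29) = true := by decide +kernel
def p15_28_1_29 : pfC (piC [(nat_lit 36496589), (nat_lit 24304186), (nat_lit 18078890), (nat_lit 12207801)] (nat_lit 10642110)) p15_28_1 (nat_lit 4) (nat_lit 29) (nat_lit 30) = true := by decide +kernel
def p15_28_1_30 : pfC (piC [(nat_lit 36496589), (nat_lit 24304186), (nat_lit 18078890), (nat_lit 12207801)] (nat_lit 10642110)) p15_28_1 (nat_lit 4) (nat_lit 30) (nat_lit 31) = true := by decide +kernel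
def p15_28_1_31 : pfC (piC [(nat_lit 36496589), (nat_lit 24304186), (nat_lit 18078890), (nat_lit 12207801)] (nat_lit 10642110)) p15_28_1 (nat_lit 4) (nat_lit 31) (nat_lit 32) = true := by decide +kernel
def p15_28_1_32 : pfC (piC [(nat_lit 36496589), (nat_lit 24304186), (nat_lit 18078890), (nat_lit 12207801)] (nat_lit 10642110)) p15_28_1 (nat_lit 4) (nat_lit 32) (nat_lit 33) = true := by decide +kernel
def p15_28_1_33 : pfC (piC [(nat_lit 36496589), (nat_lit 24304186), (nat_lit 18078890), (nat_lit 12207801)] (nat_lit 10642110)) p15_28_1 (nat_lit 4) (nat_lit 33) (nat_lit 34) = true := by decide +kernel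
def p15_28_1_34 : pfC (piC [(nat_lit 36496589), (nat_lit 24304186), (nat_lit 18078890), (nat_lit 12207801)] (nat_lit 10642110)) p15_28_1 (nat_lit 4) (nat_lit 34) (nat_lit 35) = true := by decide +kernel
def p15_28_1_35 : pfC (piC [(nat_lit 36496589), (nat_lit 24304186), (nat_lit 18078890), (nat_lit 12207801)] (nat_lit 10642110)) p15_28_1 (nat_lit 4) (nat_lit 35) (nat_lit 36) = true := by decide +kernel
def p15_28_1_36 : pfC (piC [(nat_lit 36496589), (nat_lit 24304186), (nat_lit 18078890), (nat_lit 12207801)] (nat_lit 10642110)) p15_28_1 (nat_lit 4) (nat_lit 36) (nat_lit 37) = true := by decide +kernel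
def p15_28_1_37 : pfC (piC [(nat_lit 36496589), (nat_lit 24304186), (nat_lit 18078890), (nat_lit 12207801)] (nat_lit 10642110)) p15_28_1 (nat_lit 4) (nat_lit 37) (nat_lit 38) = true := by decide +kernel
def p15_28_1_38 : pfC (piC [(nat_lit 36496589), (nat_lit 24304186), (nat_lit 18078890), (nat_lit 12207801)] (nat_lit 10642110)) p15_28_1 (nat_lit 4) (nat_lit 38) (nat_lit 39) = true := by decide +kernel
def p15_28_1_39 : pfC (piC [(nat_lit 36496589), (nat_lit 24304186), (nat_lit 18078890), (nat_lit 12207801)] (nat_lit 10642110)) p15_28_1 (nat_lit 4) (nat_lit 39) (nat_lit 40) = true := by decide +kernel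
def p15_28_1_40 : pfC (piC [(nat_lit 36496589), (nat_lit 24304186), (nat_lit 18078890), (nat_lit 12207801)] (nat_lit 10642110)) p15_28_1 (nat_lit 4) (nat_lit 40) (nat_lit 41) = true := by decide +kernel
def p15_28_1_41 : pfC (piC [(nat_lit 36496589), (nat_lit 24304186), (nat_lit 18078890), (nat_lit 12207801)] (nat_lit 10642110)) p15_28_1 (nat_lit 4) (nat_lit 41) (nat_lit 42) = true := by decide +kernel
def p15_28_1_42 : pfC (piC [(nat_lit 36496589), (nat_lit 24304186), (nat_lit 18078890), (nat_lit 12207801)] (nat_lit 10642110)) p15_28_1 (nat_lit 4) (nat_lit 42) (nat_lit 43) = true := by decide +kernel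
def p15_28_1_43 : pfC (piC [(nat_lit 36496589), (nat_lit 24304186), (nat_lit 18078890), (nat_lit 12207801)] (nat_lit 10642110)) p15_28_1 (nat_lit 4) (nat_lit 43) (nat_lit 44) = true := by decide +kernel
def p15_28_1_44 : pfC (piC [(nat_lit 36496589), (nat_lit 24304186), (nat_lit 18078890), (nat_lit 12207801)] (nat_lit 10642110)) p15_28_1 (nat_lit 4) (nat_lit 44) (nat_lit 45) = true := by decide +kernel
def p15_28_1_45 : pfC (piC [(nat_lit 36496589), (nat_lit 24304186), (nat_lit 18078890), (nat_lit 12207801)] (nat_lit 10642110)) p15_28_1 (nat_lit 4) (nat_lit 45) (nat_lit 46) = true := by decide +kernel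
def p15_28_1_46 : pfC (piC [(nat_lit 36496589), (nat_lit 24304186), (nat_lit 18078890), (nat_lit 12207801)] (nat_lit 10642110)) p15_28_1 (nat_lit 4) (nat_lit 46) (nat_lit 47) = true := by decide +kernel
def p15_28_1_47 : pfC (piC [(nat_lit 36496589), (nat_lit 24304186), (nat_lit 18078890), (nat_lit 12207801)] (nat_lit 10642110)) p15_28_1 (nat_lit 4) (nat_lit 47) (nat_lit 48) = true := by decide +kernel
def p15_28_1_48 : pfC (piC [(nat_lit 36496589), (nat_lit 24304186), (nat_lit 18078890), (nat_lit 12207801)] (nat_lit 10642110)) p15_28_1 (nat_lit 4) (nat_lit 48) (nat_lit 49) = true := by decide +kernel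
def p15_28_1_49 : pfC (piC [(nat_lit 36496589), (nat_lit 24304186), (nat_lit 18078890), (nat_lit 12207801)] (nat_lit 10642110)) p15_28_1 (nat_lit 4) (nat_lit 49) (nat_lit 50) = true := by decide +kernel
def p15_28_1_50 : pfC (piC [(nat_lit 36496589), (nat_lit 24304186), (nat_lit 18078890), (nat_lit 12207801)] (nat_lit 10642110)) p15_28_1 (nat_lit 4) (nat_lit 50) (nat_lit 51) = true := by decide +kernel
def p15_28_1_51 : pfC (piC [(nat_lit 36496589), (nat_lit 24304186), (nat_lit 18078890), (nat_lit 12207801)] (nat_lit 10642110)) p15_28_1 (nat_lit 4) (nat_lit 51) (nat_lit 52) = true := by decide +kernel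
def p15_28_1_52 : pfC (piC [(nat_lit 36496589), (nat_lit 24304186), (nat_lit 18078890), (nat_lit 12207801)] (nat_lit 10642110)) p15_28_1 (nat_lit 4) (nat_lit 52) (nat_lit 53) = true := by decide +kernel
def p15_28_1_53 : pfC (piC [(nat_lit 36496589), (nat_lit 24304186), (nat_lit 18078890), (nat_lit 12207801)] (nat_lit 10642110)) p15_28_1 (nat_lit 4) (nat_lit 53) (nat_lit 54) = true := by decide +kernel
def p15_28_1_54 : pfC (piC [(nat_lit 36496589), (nat_lit 24304186), (nat_lit 18078890), (nat_lit 12207801)] (nat_lit 10642110)) p15_28_1 (nat_lit 4) (nat_lit 54) (nat_lit 55) = true := by decide +kernel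
def p15_28_1_55 : pfC (piC [(nat_lit 36496589), (nat_lit 24304186), (nat_lit 18078890), (nat_lit 12207801)] (nat_lit 10642110)) p15_28_1 (nat_lit 4) (nat_lit 55) (nat_lit 56) = true := by decide +kernel
def p15_28_1_56 : pfC (piC [(nat_lit 36496589), (nat_lit 24304186), (nat_lit 18078890), (nat_lit 12207801)] (nat_lit 10642110)) p15_28_1 (nat_lit 4) (nat_lit 56) (nat_lit 57) = true := by decide +kernel
def p15_28_1_57 : pfC (piC [(nat_lit 36496589), (nat_lit 24304186), (nat_lit 18078890), (nat_lit 12207801)] (nat_lit 10642110)) p15_28_1 (nat_lit 4) (nat_lit 57) (nat_lit 58) = true := by decide +kernel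
def p15_28_1_58 : pfC (piC [(nat_lit 36496589), (nat_lit 24304186), (nat_lit 18078890), (nat_lit 12207801)] (nat_lit 10642110)) p15_28_1 (nat_lit 4) (nat_lit 58) (nat_lit 59) = true := by decide +kernel
def p15_28_1_59 : pfC (piC [(nat_lit 36496589), (nat_lit 24304186), (nat_lit 18078890), (nat_lit 12207801)] (nat_lit 10642110)) p15_28_1 (nat_lit 4) (nat_lit 59) (nat_lit 60) = true := by decide +kernel
def p15_28_1_60 : pfC (piC [(nat_lit 36496589), (nat_lit 24304186), (nat_lit 18078890), (nat_lit 12207801)] (nat_lit 10642110)) p15_28_1 (nat_lit 4) (nat_lit 60) (nat_lit 61) = true := by decide +kernel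
def p15_28_1_61 : pfC (piC [(nat_lit 36496589), (nat_lit 24304186), (nat_lit 18078890), (nat_lit 12207801)] (nat_lit 10642110)) p15_28_1 (nat_lit 4) (nat_lit 61) (nat_lit 62) = true := by decide +kernel
def p15_28_1_62 : pfC (piC [(nat_lit 36496589), (nat_lit 24304186), (nat_lit 18078890), (nat_lit 12207801)] (nat_lit 10642110)) p15_28_1 (nat_lit 4) (nat_lit 62) (nat_lit 63) = true := by decide +kernel
def p15_28_1_63 : pfC (piC [(nat_lit 36496589), (nat_lit 24304186), (nat_lit 18078890), (nat_lit 12207801)] (nat_lit 10642110)) p15_28_1 (nat_lit 4) (nat_lit 63) (nat_lit 64) = true := by decide +kernel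
def p15_28_1_64 : pfC (piC [(nat_lit 36496589), (nat_lit 24304186), (nat_lit 18078890), (nat_lit 12207801)] (nat_lit 10642110)) p15_28_1 (nat_lit 4) (nat_lit 64) (nat_lit 65) = true := by decide +kernel
def p15_28_1_65 : pfC (piC [(nat_lit 36496589), (nat_lit 24304186), (nat_lit 18078890), (nat_lit 12207801)] (nat_lit 10642110)) p15_28_1 (nat_lit 4) (nat_lit 65) (nat_lit 66) = true := by decide +kernel
def p15_28_1_66 : pfC (piC [(nat_lit 36496589), (nat_lit 24304186), (nat_lit 18078890), (nat_lit 12207801)] (nat_lit 10642110)) p15_28_1 (nat_lit 4) (nat_lit 66) (nat_lit 67) = true := by decide +kernel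
def p15_28_1_67 : pfC (piC [(nat_lit 36496589), (nat_lit 24304186), (nat_lit 18078890), (nat_lit 12207801)] (nat_lit 10642110)) p15_28_1 (nat_lit 4) (nat_lit 67) (nat_lit 68) = true := by decide +kernel
def p15_28_1_68 : pfC (piC [(nat_lit 36496589), (nat_lit 24304186), (nat_lit 18078890), (nat_lit 12207801)] (nat_lit 10642110)) p15_28_1 (nat_lit 4) (nat_lit 68) (nat_lit 69) = true := by decide +kernel
def p15_28_1_69 : pfC (piC [(nat_lit 36496589), (nat_lit 24304186), (nat_lit 18078890), (nat_lit 12207801)] (nat_lit 10642110)) p15_28_1 (nat_lit 4) (nat_lit 69) (nat_lit 70) = true := by decide +kernel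
def p15_28_1_70 : pfC (piC [(nat_lit 36496589), (nat_lit 24304186), (nat_lit 18078890), (nat_lit 12207801)] (nat_lit 10642110)) p15_28_1 (nat_lit 4) (nat_lit 70) (nat_lit 71) = true := by decide +kernel
def p15_28_1_71 : pfC (piC [(nat_lit 36496589), (nat_lit 24304186), (nat_lit 18078890), (nat_lit 12207801)] (nat_lit 10642110)) p15_28_1 (nat_lit 4) (nat_lit 71) (nat_lit 72) = true := by decide +kernel
def p15_28_1_72 : pfC (piC [(nat_lit 36496589), (nat_lit 24304186), (nat_lit 18078890), (nat_lit 12207801)] (nat_lit 10642110)) p15_28_1 (nat_lit 4) (nat_lit 72) (nat_lit 73) = true := by decide +kernel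
def p15_28_1_73 : pfC (piC [(nat_lit 36496589), (nat_lit 24304186), (nat_lit 18078890), (nat_lit 12207801)] (nat_lit 10642110)) p15_28_1 (nat_lit 4) (nat_lit 73) (nat_lit 74) = true := by decide +kernel
def p15_28_1_74 : pfC (piC [(nat_lit 36496589), (nat_lit 24304186), (nat_lit 18078890), (nat_lit 12207801)] (nat_lit 10642110)) p15_28_1 (nat_lit 4) (nat_lit 74) (nat_lit 75) = true := by decide +kernel
def p15_28_1_75 : pfC (piC [(nat_lit 36496589), (nat_lit 24304186), (nat_lit 18078890), (nat_lit 12207801)] (nat_lit 10642110)) p15_28_1 (nat_lit 4) (nat_lit 75) (nat_lit 76) = true := by decide +kernel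
def p15_28_1_76 : pfC (piC [(nat_lit 36496589), (nat_lit 24304186), (nat_lit 18078890), (nat_lit 12207801)] (nat_lit 10642110)) p15_28_1 (nat_lit 4) (nat_lit 76) (nat_lit 77) = true := by decide +kernel
def p15_28_1_77 : pfC (piC [(nat_lit 36496589), (nat_lit 24304186), (nat_lit 18078890), (nat_lit 12207801)] (nat_lit 10642110)) p15_28_1 (nat_lit 4) (nat_lit 77) (nat_lit 78) = true := by decide +kernel
def p15_28_1_78 : pfC (piC [(nat_lit 36496589), (nat_lit 24304186), (nat_lit 18078890), (nat_lit 12207801)] (nat_lit 10642110)) p15_28_1 (nat_lit 4) (nat_lit 78) (nat_lit 79) = true := by decide +kernel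
def p15_28_1_79 : pfC (piC [(nat_lit 36496589), (nat_lit 24304186), (nat_lit 18078890), (nat_lit 12207801)] (nat_lit 10642110)) p15_28_1 (nat_lit 4) (nat_lit 79) (nat_lit 80) = true := by decide +kernel
def p15_28_1_80 : pfC (piC [(nat_lit 36496589), (nat_lit 24304186), (nat_lit 18078890), (nat_lit 12207801)] (nat_lit 10642110)) p15_28_1 (nat_lit 4) (nat_lit 80) (nat_lit 81) = true := by decide +kernel
def p15_28_1_81 : pfC (piC [(nat_lit 36496589), (nat_lit 24304186), (nat_lit 18078890), (nat_lit 12207801)] (nat_lit 10642110)) p15_28_1 (nat_lit 4) (nat_lit 81) (nat_lit 82) = true := by decide +kernel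
def p15_28_1_82 : pfC (piC [(nat_lit 36496589), (nat_lit 24304186), (nat_lit 18078890), (nat_lit 12207801)] (nat_lit 10642110)) p15_28_1 (nat_lit 4) (nat_lit 82) (nat_lit 83) = true := by decide +kernel
def p15_28_1_83 : pfC (piC [(nat_lit 36496589), (nat_lit 24304186), (nat_lit 18078890), (nat_lit 12207801)] (nat_lit 10642110)) p15_28_1 (nat_lit 4) (nat_lit 83) (nat_lit 84) = true := by decide +kernel
def p15_28_1_84 : pfC (piC [(nat_lit 36496589), (nat_lit 24304186), (nat_lit 18078890), (nat_lit 12207801)] (nat_lit 10642110)) p15_28_1 (nat_lit 4) (nat_lit 84) (nat_lit 85) = true := by decide +kernel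
def p15_28_1_85 : pfC (piC [(nat_lit 36496589), (nat_lit 24304186), (nat_lit 18078890), (nat_lit 12207801)] (nat_lit 10642110)) p15_28_1 (nat_lit 4) (nat_lit 85) (nat_lit 86) = true := by decide +kernel
def p15_28_1_86 : pfC (piC [(nat_lit 36496589), (nat_lit 24304186), (nat_lit 18078890), (nat_lit 12207801)] (nat_lit 10642110)) p15_28_1 (nat_lit 4) (nat_lit 86) (nat_lit 87) = true := by decide +kernel
def p15_28_1_87 : pfC (piC [(nat_lit 36496589), (nat_lit 24304186), (nat_lit 18078890), (nat_lit 12207801)] (nat_lit 10642110)) p15_28_1 (nat_lit 4) (nat_lit 87) (nat_lit 88) = true := by decide +kernel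
def p15_28_1_88 : pfC (piC [(nat_lit 36496589), (nat_lit 24304186), (nat_lit 18078890), (nat_lit 12207801)] (nat_lit 10642110)) p15_28_1 (nat_lit 4) (nat_lit 88) (nat_lit 89) = true := by decide +kernel
def p15_28_1_89 : pfC (piC [(nat_lit 36496589), (nat_lit 24304186), (nat_lit 18078890), (nat_lit 12207801)] (nat_lit 10642110)) p15_28_1 (nat_lit 4) (nat_lit 89) (nat_lit 90) = true := by decide +kernel
def p15_28_1_90 : pfC (piC [(nat_lit 36496589), (nat_lit 24304186), (nat_lit 18078890), (nat_lit 12207801)] (nat_lit 10642110)) p15_28_1 (nat_lit 4) (nat_lit 90) (nat_lit 91) = true := by decide +kernel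
def p15_28_1_91 : pfC (piC [(nat_lit 36496589), (nat_lit 24304186), (nat_lit 18078890), (nat_lit 12207801)] (nat_lit 10642110)) p15_28_1 (nat_lit 4) (nat_lit 91) (nat_lit 92) = true := by decide +kernel
def p15_28_1_92 : pfC (piC [(nat_lit 36496589), (nat_lit 24304186), (nat_lit 18078890), (nat_lit 12207801)] (nat_lit 10642110)) p15_28_1 (nat_lit 4) (nat_lit 92) (nat_lit 93) = true := by decide +kernel
def p15_28_1_93 : pfC (piC [(nat_lit 36496589), (nat_lit 24304186), (nat_lit 18078890), (nat_lit 12207801)] (nat_lit 10642110)) p15_28_1 (nat_lit 4) (nat_lit 93) (nat_lit 94) = true := by decide +kernel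
def p15_28_1_94 : pfC (piC [(nat_lit 36496589), (nat_lit 24304186), (nat_lit 18078890), (nat_lit 12207801)] (nat_lit 10642110)) p15_28_1 (nat_lit 4) (nat_lit 94) (nat_lit 95) = true := by decide +kernel
def p15_28_1_95 : pfC (piC [(nat_lit 36496589), (nat_lit 24304186), (nat_lit 18078890), (nat_lit 12207801)] (nat_lit 10642110)) p15_28_1 (nat_lit 4) (nat_lit 95) (nat_lit 96) = true := by decide +kernel
def p15_28_1_96 : pfC (piC [(nat_lit 36496589), (nat_lit 24304186), (nat_lit 18078890), (nat_lit 12207801)] (nat_lit 10642110)) p15_28_1 (nat_lit 4) (nat_lit 96) (nat_lit 97) = true := by decide +kernel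
def p15_28_1_97 : pfC (piC [(nat_lit 36496589), (nat_lit 24304186), (nat_lit 18078890), (nat_lit 12207801)] (nat_lit 10642110)) p15_28_1 (nat_lit 4) (nat_lit 97) (nat_lit 98) = true := by decide +kernel
def p15_28_1_98 : pfC (piC [(nat_lit 36496589), (nat_lit 24304186), (nat_lit 18078890), (nat_lit 12207801)] (nat_lit 10642110)) p15_28_1 (nat_lit 4) (nat_lit 98) (nat_lit 99) = true := by decide +kernel
def p15_28_1_99 : pfC (piC [(nat_lit 36496589), (nat_lit 24304186), (nat_lit 18078890), (nat_lit 12207801)] (nat_lit 10642110)) p15_28_1 (nat_lit 4) (nat_lit 99) (nat_lit 100) = true := by decide +kernel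
def p15_28_1_100 : pfC (piC [(nat_lit 36496589), (nat_lit 24304186), (nat_lit 18078890), (nat_lit 12207801)] (nat_lit 10642110)) p15_28_1 (nat_lit 4) (nat_lit 100) (nat_lit 101) = true := by decide +kernel
def p15_28_1_101 : pfC (piC [(nat_lit 36496589), (nat_lit 24304186), (nat_lit 18078890), (nat_lit 12207801)] (nat_lit 10642110)) p15_28_1 (nat_lit 4) (nat_lit 101) (nat_lit 102) = true := by decide +kernel
def p15_28_1_102 : pfC (piC [(nat_lit 36496589), (nat_lit 24304186), (nat_lit 18078890), (nat_lit 12207801)] (nat_lit 10642110)) p15_28_1 (nat_lit 4) (nat_lit 102) (nat_lit 103) = true := by decide +kernel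
def p15_28_1_103 : pfC (piC [(nat_lit 36496589), (nat_lit 24304186), (nat_lit 18078890), (nat_lit 12207801)] (nat_lit 10642110)) p15_28_1 (nat_lit 4) (nat_lit 103) (nat_lit 104) = true := by decide +kernel
def p15_28_1_104 : pfC (piC [(nat_lit 36496589), (nat_lit 24304186), (nat_lit 18078890), (nat_lit 12207801)] (nat_lit 10642110)) p15_28_1 (nat_lit 4) (nat_lit 104) (nat_lit 105) = true := by decide +kernel
def p15_28_1_105 : pfC (piC [(nat_lit 36496589), (nat_lit 24304186), (nat_lit 18078890), (nat_lit 12207801)] (nat_lit 10642110)) p15_28_1 (nat_lit 4) (nat_lit 105) (nat_lit 106) = true := by decide +kernel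
def p15_28_1_106 : pfC (piC [(nat_lit 36496589), (nat_lit 24304186), (nat_lit 18078890), (nat_lit 12207801)] (nat_lit 10642110)) p15_28_1 (nat_lit 4) (nat_lit 106) (nat_lit 107) = true := by decide +kernel
def p15_28_1_107 : pfC (piC [(nat_lit 36496589), (nat_lit 24304186), (nat_lit 18078890), (nat_lit 12207801)] (nat_lit 10642110)) p15_28_1 (nat_lit 4) (nat_lit 107) (nat_lit 108) = true := by decide +kernel
def p15_28_1_108 : pfC (piC [(nat_lit 36496589), (nat_lit 24304186), (nat_lit 18078890), (nat_lit 12207801)] (nat_lit 10642110)) p15_28_1 (nat_lit 4) (nat_lit 108) (nat_lit 109) = true := by decide +kernel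
def p15_28_1_109 : pfC (piC [(nat_lit 36496589), (nat_lit 24304186), (nat_lit 18078890), (nat_lit 12207801)] (nat_lit 10642110)) p15_28_1 (nat_lit 4) (nat_lit 109) (nat_lit 110) = true := by decide +kernel
def p15_28_1_110 : pfC (piC [(nat_lit 36496589), (nat_lit 24304186), (nat_lit 18078890), (nat_lit 12207801)] (nat_lit 10642110)) p15_28_1 (nat_lit 4) (nat_lit 110) (nat_lit 111) = true := by decide +kernel
def p15_28_1_111 : pfC (piC [(nat_lit 36496589), (nat_lit 24304186), (nat_lit 18078890), (nat_lit 12207801)] (nat_lit 10642110)) p15_28_1 (nat_lit 4) (nat_lit 111) (nat_lit 112) = true := by decide +kernel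
def p15_28_1_112 : pfC (piC [(nat_lit 36496589), (nat_lit 24304186), (nat_lit 18078890), (nat_lit 12207801)] (nat_lit 10642110)) p15_28_1 (nat_lit 4) (nat_lit 112) (nat_lit 113) = true := by decide +kernel
def p15_28_1_113 : pfC (piC [(nat_lit 36496589), (nat_lit 24304186), (nat_lit 18078890), (nat_lit 12207801)] (nat_lit 10642110)) p15_28_1 (nat_lit 4) (nat_lit 113) (nat_lit 114) = true := by decide +kernel
def p15_28_1_114 : pfC (piC [(nat_lit 36496589), (nat_lit 24304186), (nat_lit 18078890), (nat_lit 12207801)] (nat_lit 10642110)) p15_28_1 (nat_lit 4) (nat_lit 114) (nat_lit 115) = true := by decide +kernel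
def p15_28_1_115 : pfC (piC [(nat_lit 36496589), (nat_lit 24304186), (nat_lit 18078890), (nat_lit 12207801)] (nat_lit 10642110)) p15_28_1 (nat_lit 4) (nat_lit 115) (nat_lit 116) = true := by decide +kernel
def p15_28_1_116 : pfC (piC [(nat_lit 36496589), (nat_lit 24304186), (nat_lit 18078890), (nat_lit 12207801)] (nat_lit 10642110)) p15_28_1 (nat_lit 4) (nat_lit 116) (nat_lit 117) = true := by decide +kernel
def p15_28_1_117 : pfC (piC [(nat_lit 36496589), (nat_lit 24304186), (nat_lit 18078890), (nat_lit 12207801)] (nat_lit 10642110)) p15_28_1 (nat_lit 4) (nat_lit 117) (nat_lit 118) = true := by decide +kernel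
def p15_28_1_118 : pfC (piC [(nat_lit 36496589), (nat_lit 24304186), (nat_lit 18078890), (nat_lit 12207801)] (nat_lit 10642110)) p15_28_1 (nat_lit 4) (nat_lit 118) (nat_lit 119) = true := by decide +kernel
def p15_28_1_119 : pfC (piC [(nat_lit 36496589), (nat_lit 24304186), (nat_lit 18078890), (nat_lit 12207801)] (nat_lit 10642110)) p15_28_1 (nat_lit 4) (nat_lit 119) (nat_lit 120) = true := by decide +kernel
def p15_28_1_120 : pfC (piC [(nat_lit 36496589), (nat_lit 24304186), (nat_lit 18078890), (nat_lit 12207801)] (nat_lit 10642110)) p15_28_1 (nat_lit 4) (nat_lit 120) (nat_lit 121) = true := by decide +kernel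
def p15_28_1_121 : pfC (piC [(nat_lit 36496589), (nat_lit 24304186), (nat_lit 18078890), (nat_lit 12207801)] (nat_lit 10642110)) p15_28_1 (nat_lit 4) (nat_lit 121) (nat_lit 122) = true := by decide +kernel
def p15_28_1_122 : pfC (piC [(nat_lit 36496589), (nat_lit 24304186), (nat_lit 18078890), (nat_lit 12207801)] (nat_lit 10642110)) p15_28_1 (nat_lit 4) (nat_lit 122) (nat_lit 123) = true := by decide +kernel
def p15_28_1_123 : pfC (piC [(nat_lit 36496589), (nat_lit 24304186), (nat_lit 18078890), (nat_lit 12207801)] (nat_lit 10642110)) p15_28_1 (nat_lit 4) (nat_lit 123) (nat_lit 124) = true := by decide +kernel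
def p15_28_1_124 : pfC (piC [(nat_lit 36496589), (nat_lit 24304186), (nat_lit 18078890), (nat_lit 12207801)] (nat_lit 10642110)) p15_28_1 (nat_lit 4) (nat_lit 124) (nat_lit 125) = true := by decide +kernel
def p15_28_1_125 : pfC (piC [(nat_lit 36496589), (nat_lit 24304186), (nat_lit 18078890), (nat_lit 12207801)] (nat_lit 10642110)) p15_28_1 (nat_lit 4) (nat_lit 125) (nat_lit 126) = true := by decide +kernel
def p15_28_1_126 : pfC (piC [(nat_lit 36496589), (nat_lit 24304186), (nat_lit 18078890), (nat_lit 12207801)] (nat_lit 10642110)) p15_28_1 (nat_lit 4) (nat_lit 126) (nat_lit 127) = true := by decide +kernel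
def p15_28_1_127 : pfC (piC [(nat_lit 36496589), (nat_lit 24304186), (nat_lit 18078890), (nat_lit 12207801)] (nat_lit 10642110)) p15_28_1 (nat_lit 4) (nat_lit 127) (nat_lit 128) = true := by decide +kernel
def p15_28_1_128 : pfC (piC [(nat_lit 36496589), (nat_lit 24304186), (nat_lit 18078890), (nat_lit 12207801)] (nat_lit 10642110)) p15_28_1 (nat_lit 4) (nat_lit 128) (nat_lit 129) = true := by decide +kernel
def p15_28_1_129 : pfC (piC [(nat_lit 36496589), (nat_lit 24304186), (nat_lit 18078890), (nat_lit 12207801)] (nat_lit 10642110)) p15_28_1 (nat_lit 4) (nat_lit 129) (nat_lit 130) = true := by decide +kernel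
def p15_28_1_130 : pfC (piC [(nat_lit 36496589), (nat_lit 24304186), (nat_lit 18078890), (nat_lit 12207801)] (nat_lit 10642110)) p15_28_1 (nat_lit 4) (nat_lit 130) (nat_lit 131) = true := by decide +kernel
def p15_28_1_131 : pfC (piC [(nat_lit 36496589), (nat_lit 24304186), (nat_lit 18078890), (nat_lit 12207801)] (nat_lit 10642110)) p15_28_1 (nat_lit 4) (nat_lit 131) (nat_lit 132) = true := by decide +kernel
def p15_28_1_132 : pfC (piC [(nat_lit 36496589), (nat_lit 24304186), (nat_lit 18078890), (nat_lit 12207801)] (nat_lit 10642110)) p15_28_1 (nat_lit 4) (nat_lit 132) (nat_lit 133) = true := by decide +kernel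
def p15_28_1_133 : pfC (piC [(nat_lit 36496589), (nat_lit 24304186), (nat_lit 18078890), (nat_lit 12207801)] (nat_lit 10642110)) p15_28_1 (nat_lit 4) (nat_lit 133) (nat_lit 134) = true := by decide +kernel
def p15_28_1_134 : pfC (piC [(nat_lit 36496589), (nat_lit 24304186), (nat_lit 18078890), (nat_lit 12207801)] (nat_lit 10642110)) p15_28_1 (nat_lit 4) (nat_lit 134) (nat_lit 135) = true := by decide +kernel
def p15_28_1_135 : pfC (piC [(nat_lit 36496589), (nat_lit 24304186), (nat_lit 18078890), (nat_lit 12207801)] (nat_lit 10642110)) p15_28_1 (nat_lit 4) (nat_lit 135) (nat_lit 136) = true := by decide +kernel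
def p15_28_1_136 : pfC (piC [(nat_lit 36496589), (nat_lit 24304186), (nat_lit 18078890), (nat_lit 12207801)] (nat_lit 10642110)) p15_28_1 (nat_lit 4) (nat_lit 136) (nat_lit 137) = true := by decide +kernel
def p15_28_1_137 : pfC (piC [(nat_lit 36496589), (nat_lit 24304186), (nat_lit 18078890), (nat_lit 12207801)] (nat_lit 10642110)) p15_28_1 (nat_lit 4) (nat_lit 137) (nat_lit 138) = true := by decide +kernel
def p15_28_1_138 : pfC (piC [(nat_lit 36496589), (nat_lit 24304186), (nat_lit 18078890), (nat_lit 12207801)] (nat_lit 10642110)) p15_28_1 (nat_lit 4) (nat_lit 138) (nat_lit 139) = true := by decide +kernel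
def p15_28_1_139 : pfC (piC [(nat_lit 36496589), (nat_lit 24304186), (nat_lit 18078890), (nat_lit 12207801)] (nat_lit 10642110)) p15_28_1 (nat_lit 4) (nat_lit 139) (nat_lit 140) = true := by decide +kernel
def p15_28_1_140 : pfC (piC [(nat_lit 36496589), (nat_lit 24304186), (nat_lit 18078890), (nat_lit 12207801)] (nat_lit 10642110)) p15_28_1 (nat_lit 4) (nat_lit 140) (nat_lit 141) = true := by decide +kernel
def p15_28_1_141 : pfC (piC [(nat_lit 36496589), (nat_lit 24304186), (nat_lit 18078890), (nat_lit 12207801)] (nat_lit 10642110)) p15_28_1 (nat_lit 4) (nat_lit 141) (nat_lit 142) = true := by decide +kernel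
def p15_28_1_142 : pfC (piC [(nat_lit 36496589), (nat_lit 24304186), (nat_lit 18078890), (nat_lit 12207801)] (nat_lit 10642110)) p15_28_1 (nat_lit 4) (nat_lit 142) (nat_lit 143) = true := by decide +kernel
def p15_28_1_143 : pfC (piC [(nat_lit 36496589), (nat_lit 24304186), (nat_lit 18078890), (nat_lit 12207801)] (nat_lit 10642110)) p15_28_1 (nat_lit 4) (nat_lit 143) (nat_lit 144) = true := by decide +kernel
def p15_28_1_144 : pfC (piC [(nat_lit 36496589), (nat_lit 24304186), (nat_lit 18078890), (nat_lit 12207801)] (nat_lit 10642110)) p15_28_1 (nat_lit 4) (nat_lit 144) (nat_lit 145) = true := by decide +kernel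
def p15_28_1_145 : pfC (piC [(nat_lit 36496589), (nat_lit 24304186), (nat_lit 18078890), (nat_lit 12207801)] (nat_lit 10642110)) p15_28_1 (nat_lit 4) (nat_lit 145) (nat_lit 146) = true := by decide +kernel
def p15_28_1_146 : pfC (piC [(nat_lit 36496589), (nat_lit 24304186), (nat_lit 18078890), (nat_lit 12207801)] (nat_lit 10642110)) p15_28_1 (nat_lit 4) (nat_lit 146) (nat_lit 147) = true := by decide +kernel
def p15_28_1_147 : pfC (piC [(nat_lit 36496589), (nat_lit 24304186), (nat_lit 18078890), (nat_lit 12207801)] (nat_lit 10642110)) p15_28_1 (nat_lit 4) (nat_lit 147) (nat_lit 148) = true := by decide +kernel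
def p15_28_1_148 : pfC (piC [(nat_lit 36496589), (nat_lit 24304186), (nat_lit 18078890), (nat_lit 12207801)] (nat_lit 10642110)) p15_28_1 (nat_lit 4) (nat_lit 148) (nat_lit 149) = true := by decide +kernel
def p15_28_1_149 : pfC (piC [(nat_lit 36496589), (nat_lit 24304186), (nat_lit 18078890), (nat_lit 12207801)] (nat_lit 10642110)) p15_28_1 (nat_lit 4) (nat_lit 149) (nat_lit 150) = true := by decide +kernel
def p15_28_1_150 : pfC (piC [(nat_lit 36496589), (nat_lit 24304186), (nat_lit 18078890), (nat_lit 12207801)] (nat_lit 10642110)) p15_28_1 (nat_lit 4) (nat_lit 150) (nat_lit 151) = true := by decide +kernel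
def p15_28_1_151 : pfC (piC [(nat_lit 36496589), (nat_lit 24304186), (nat_lit 18078890), (nat_lit 12207801)] (nat_lit 10642110)) p15_28_1 (nat_lit 4) (nat_lit 151) (nat_lit 152) = true := by decide +kernel
def p15_28_1_152 : pfC (piC [(nat_lit 36496589), (nat_lit 24304186), (nat_lit 18078890), (nat_lit 12207801)] (nat_lit 10642110)) p15_28_1 (nat_lit 4) (nat_lit 152) (nat_lit 153) = true := by decide +kernel
def p15_28_1_153 : pfC (piC [(nat_lit 36496589), (nat_lit 24304186), (nat_lit 18078890), (nat_lit 12207801)] (nat_lit 10642110)) p15_28_1 (nat_lit 4) (nat_lit 153) (nat_lit 154) = true := by decide +kernel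
def p15_28_1_154 : pfC (piC [(nat_lit 36496589), (nat_lit 24304186), (nat_lit 18078890), (nat_lit 12207801)] (nat_lit 10642110)) p15_28_1 (nat_lit 4) (nat_lit 154) (nat_lit 155) = true := by decide +kernel
def p15_28_1_155 : pfC (piC [(nat_lit 36496589), (nat_lit 24304186), (nat_lit 18078890), (nat_lit 12207801)] (nat_lit 10642110)) p15_28_1 (nat_lit 4) (nat_lit 155) (nat_lit 156) = true := by decide +kernel
def p15_28_1_156 : pfC (piC [(nat_lit 36496589), (nat_lit 24304186), (nat_lit 18078890), (nat_lit 12207801)] (nat_lit 10642110)) p15_28_1 (nat_lit 4) (nat_lit 156) (nat_lit 157) = true := by decide +kernel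
def p15_28_1_157 : pfC (piC [(nat_lit 36496589), (nat_lit 24304186), (nat_lit 18078890), (nat_lit 12207801)] (nat_lit 10642110)) p15_28_1 (nat_lit 4) (nat_lit 157) (nat_lit 158) = true := by decide +kernel
def p15_28_1_158 : pfC (piC [(nat_lit 36496589), (nat_lit 24304186), (nat_lit 18078890), (nat_lit 12207801)] (nat_lit 10642110)) p15_28_1 (nat_lit 4) (nat_lit 158) (nat_lit 159) = true := by decide +kernel
def p15_28_1_159 : pfC (piC [(nat_lit 36496589), (nat_lit 24304186), (nat_lit 18078890), (nat_lit 12207801)] (nat_lit 10642110)) p15_28_1 (nat_lit 4) (nat_lit 159) (nat_lit 160) = true := by decide +kernel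
def p15_28_1_160 : pfC (piC [(nat_lit 36496589), (nat_lit 24304186), (nat_lit 18078890), (nat_lit 12207801)] (nat_lit 10642110)) p15_28_1 (nat_lit 4) (nat_lit 160) (nat_lit 161) = true := by decide +kernel
def p15_28_1_161 : pfC (piC [(nat_lit 36496589), (nat_lit 24304186), (nat_lit 18078890), (nat_lit 12207801)] (nat_lit 10642110)) p15_28_1 (nat_lit 4) (nat_lit 161) (nat_lit 162) = true := by decide +kernel
def p15_28_1_162 : pfC (piC [(nat_lit 36496589), (nat_lit 24304186), (nat_lit 18078890), (nat_lit 12207801)] (nat_lit 10642110)) p15_28_1 (nat_lit 4) (nat_lit 162) (nat_lit 163) = true := by decide +kernel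
def p15_28_1_163 : pfC (piC [(nat_lit 36496589), (nat_lit 24304186), (nat_lit 18078890), (nat_lit 12207801)] (nat_lit 10642110)) p15_28_1 (nat_lit 4) (nat_lit 163) (nat_lit 164) = true := by decide +kernel
def p15_28_1_164 : pfC (piC [(nat_lit 36496589), (nat_lit 24304186), (nat_lit 18078890), (nat_lit 12207801)] (nat_lit 10642110)) p15_28_1 (nat_lit 4) (nat_lit 164) (nat_lit 165) = true := by decide +kernel
def p15_28_1_165 : pfC (piC [(nat_lit 36496589), (nat_lit 24304186), (nat_lit 18078890), (nat_lit 12207801)] (nat_lit 10642110)) p15_28_1 (nat_lit 4) (nat_lit 165) (nat_lit 166) = true := by decide +kernel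
def p15_28_1_166 : pfC (piC [(nat_lit 36496589), (nat_lit 24304186), (nat_lit 18078890), (nat_lit 12207801)] (nat_lit 10642110)) p15_28_1 (nat_lit 4) (nat_lit 166) (nat_lit 167) = true := by decide +kernel
def p15_28_1_167 : pfC (piC [(nat_lit 36496589), (nat_lit 24304186), (nat_lit 18078890), (nat_lit 12207801)] (nat_lit 10642110)) p15_28_1 (nat_lit 4) (nat_lit 167) (nat_lit 168) = true := by decide +kernel
def p15_28_1_168 : pfC (piC [(nat_lit 36496589), (nat_lit 24304186), (nat_lit 18078890), (nat_lit 12207801)] (nat_lit 10642110)) p15_28_1 (nat_lit 4) (nat_lit 168) (nat_lit 169) = true := by decide +kernel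
def p15_28_1_169 : pfC (piC [(nat_lit 36496589), (nat_lit 24304186), (nat_lit 18078890), (nat_lit 12207801)] (nat_lit 10642110)) p15_28_1 (nat_lit 4) (nat_lit 169) (nat_lit 170) = true := by decide +kernel
def p15_28_1_170 : pfC (piC [(nat_lit 36496589), (nat_lit 24304186), (nat_lit 18078890), (nat_lit 12207801)] (nat_lit 10642110)) p15_28_1 (nat_lit 4) (nat_lit 170) (nat_lit 171) = true := by decide +kernel
def p15_28_1_171 : pfC (piC [(nat_lit 36496589), (nat_lit 24304186), (nat_lit 18078890), (nat_lit 12207801)] (nat_lit 10642110)) p15_28_1 (nat_lit 4) (nat_lit 171) (nat_lit 172) = true := by decide +kernel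
def p15_28_1_172 : pfC (piC [(nat_lit 36496589), (nat_lit 24304186), (nat_lit 18078890), (nat_lit 12207801)] (nat_lit 10642110)) p15_28_1 (nat_lit 4) (nat_lit 172) (nat_lit 173) = true := by decide +kernel
def p15_28_1_173 : pfC (piC [(nat_lit 36496589), (nat_lit 24304186), (nat_lit 18078890), (nat_lit 12207801)] (nat_lit 10642110)) p15_28_1 (nat_lit 4) (nat_lit 173) (nat_lit 174) = true := by decide +kernel
def p15_28_1_174 : pfC (piC [(nat_lit 36496589), (nat_lit 24304186), (nat_lit 18078890), (nat_lit 12207801)] (nat_lit 10642110)) p15_28_1 (nat_lit 4) (nat_lit 174) (nat_lit 175) = true := by decide +kernel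
def p15_28_1_175 : pfC (piC [(nat_lit 36496589), (nat_lit 24304186), (nat_lit 18078890), (nat_lit 12207801)] (nat_lit 10642110)) p15_28_1 (nat_lit 4) (nat_lit 175) (nat_lit 176) = true := by decide +kernel
def p15_28_1_176 : pfC (piC [(nat_lit 36496589), (nat_lit 24304186), (nat_lit 18078890), (nat_lit 12207801)] (nat_lit 10642110)) p15_28_1 (nat_lit 4) (nat_lit 176) (nat_lit 177) = true := by decide +kernel
def p15_28_1_177 : pfC (piC [(nat_lit 36496589), (nat_lit 24304186), (nat_lit 18078890), (nat_lit 12207801)] (nat_lit 10642110)) p15_28_1 (nat_lit 4) (nat_lit 177) (nat_lit 178) = true := by decide +kernel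
def p15_28_1_178 : pfC (piC [(nat_lit 36496589), (nat_lit 24304186), (nat_lit 18078890), (nat_lit 12207801)] (nat_lit 10642110)) p15_28_1 (nat_lit 4) (nat_lit 178) (nat_lit 179) = true := by decide +kernel
def p15_28_1_179 : pfC (piC [(nat_lit 36496589), (nat_lit 24304186), (nat_lit 18078890), (nat_lit 12207801)] (nat_lit 10642110)) p15_28_1 (nat_lit 4) (nat_lit 179) (nat_lit 180) = true := by decide +kernel
def p15_28_1_180 : pfC (piC [(nat_lit 36496589), (nat_lit 24304186), (nat_lit 18078890), (nat_lit 12207801)] (nat_lit 10642110)) p15_28_1 (nat_lit 4) (nat_lit 180) (nat_lit 181) = true := by decide +kernel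
def p15_28_1_181 : pfC (piC [(nat_lit 36496589), (nat_lit 24304186), (nat_lit 18078890), (nat_lit 12207801)] (nat_lit 10642110)) p15_28_1 (nat_lit 4) (nat_lit 181) (nat_lit 182) = true := by decide +kernel
def p15_28_1_182 : pfC (piC [(nat_lit 36496589), (nat_lit 24304186), (nat_lit 18078890), (nat_lit 12207801)] (nat_lit 10642110)) p15_28_1 (nat_lit 4) (nat_lit 182) (nat_lit 183) = true := by decide +kernel
def p15_28_1_183 : pfC (piC [(nat_lit 36496589), (nat_lit 24304186), (nat_lit 18078890), (nat_lit 12207801)] (nat_lit 10642110)) p15_28_1 (nat_lit 4) (nat_lit 183) (nat_lit 184) = true := by decide +kernel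
def p15_28_1_184 : pfC (piC [(nat_lit 36496589), (nat_lit 24304186), (nat_lit 18078890), (nat_lit 12207801)] (nat_lit 10642110)) p15_28_1 (nat_lit 4) (nat_lit 184) (nat_lit 185) = true := by decide +kernel
def p15_28_1_185 : pfC (piC [(nat_lit 36496589), (nat_lit 24304186), (nat_lit 18078890), (nat_lit 12207801)] (nat_lit 10642110)) p15_28_1 (nat_lit 4) (nat_lit 185) (nat_lit 186) = true := by decide +kernel
def p15_28_1_186 : pfC (piC [(nat_lit 36496589), (nat_lit 24304186), (nat_lit 18078890), (nat_lit 12207801)] (nat_lit 10642110)) p15_28_1 (nat_lit 4) (nat_lit 186) (nat_lit 187) = true := by decide +kernel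
def p15_28_1_187 : pfC (piC [(nat_lit 36496589), (nat_lit 24304186), (nat_lit 18078890), (nat_lit 12207801)] (nat_lit 10642110)) p15_28_1 (nat_lit 4) (nat_lit 187) (nat_lit 188) = true := by decide +kernel
def p15_28_1_188 : pfC (piC [(nat_lit 36496589), (nat_lit 24304186), (nat_lit 18078890), (nat_lit 12207801)] (nat_lit 10642110)) p15_28_1 (nat_lit 4) (nat_lit 188) (nat_lit 189) = true := by decide +kernel
def p15_28_1_189 : pfC (piC [(nat_lit 36496589), (nat_lit 24304186), (nat_lit 18078890), (nat_lit 12207801)] (nat_lit 10642110)) p15_28_1 (nat_lit 4) (nat_lit 189) (nat_lit 190) = true := by decide +kernel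
def p15_28_1_190 : pfC (piC [(nat_lit 36496589), (nat_lit 24304186), (nat_lit 18078890), (nat_lit 12207801)] (nat_lit 10642110)) p15_28_1 (nat_lit 4) (nat_lit 190) (nat_lit 191) = true := by decide +kernel
def p15_28_1_191 : pfC (piC [(nat_lit 36496589), (nat_lit 24304186), (nat_lit 18078890), (nat_lit 12207801)] (nat_lit 10642110)) p15_28_1 (nat_lit 4) (nat_lit 191) (nat_lit 192) = true := by decide +kernel
def p15_28_1_192 : pfC (piC [(nat_lit 36496589), (nat_lit 24304186), (nat_lit 18078890), (nat_lit 12207801)] (nat_lit 10642110)) p15_28_1 (nat_lit 4) (nat_lit 192) (nat_lit 193) = true := by decide +kernel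
def p15_28_1_193 : pfC (piC [(nat_lit 36496589), (nat_lit 24304186), (nat_lit 18078890), (nat_lit 12207801)] (nat_lit 10642110)) p15_28_1 (nat_lit 4) (nat_lit 193) (nat_lit 194) = true := by decide +kernel
def p15_28_1_194 : pfC (piC [(nat_lit 36496589), (nat_lit 24304186), (nat_lit 18078890), (nat_lit 12207801)] (nat_lit 10642110)) p15_28_1 (nat_lit 4) (nat_lit 194) (nat_lit 195) = true := by decide +kernel
def p15_28_1_195 : pfC (piC [(nat_lit 36496589), (nat_lit 24304186), (nat_lit 18078890), (nat_lit 12207801)] (nat_lit 10642110)) p15_28_1 (nat_lit 4) (nat_lit 195) (nat_lit 196) = true := by decide +kernel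
def p15_28_1_196 : pfC (piC [(nat_lit 36496589), (nat_lit 24304186), (nat_lit 18078890), (nat_lit 12207801)] (nat_lit 10642110)) p15_28_1 (nat_lit 4) (nat_lit 196) (nat_lit 197) = true := by decide +kernel
def p15_28_1_197 : pfC (piC [(nat_lit 36496589), (nat_lit 24304186), (nat_lit 18078890), (nat_lit 12207801)] (nat_lit 10642110)) p15_28_1 (nat_lit 4) (nat_lit 197) (nat_lit 198) = true := by decide +kernel
def p15_28_1_198 : pfC (piC [(nat_lit 36496589), (nat_lit 24304186), (nat_lit 18078890), (nat_lit 12207801)] (nat_lit 10642110)) p15_28_1 (nat_lit 4) (nat_lit 198) (nat_lit 199) = true := by decide +kernel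
def p15_28_1_199 : pfC (piC [(nat_lit 36496589), (nat_lit 24304186), (nat_lit 18078890), (nat_lit 12207801)] (nat_lit 10642110)) p15_28_1 (nat_lit 4) (nat_lit 199) (nat_lit 200) = true := by decide +kernel
def p15_28_1_200 : pfC (piC [(nat_lit 36496589), (nat_lit 24304186), (nat_lit 18078890), (nat_lit 12207801)] (nat_lit 10642110)) p15_28_1 (nat_lit 4) (nat_lit 200) (nat_lit 201) = true := by decide +kernel
def p15_28_1_201 : pfC (piC [(nat_lit 36496589), (nat_lit 24304186), (nat_lit 18078890), (nat_lit 12207801)] (nat_lit 10642110)) p15_28_1 (nat_lit 4) (nat_lit 201) (nat_lit 202) = true := by decide +kernel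
def p15_28_1_202 : pfC (piC [(nat_lit 36496589), (nat_lit 24304186), (nat_lit 18078890), (nat_lit 12207801)] (nat_lit 10642110)) p15_28_1 (nat_lit 4) (nat_lit 202) (nat_lit 203) = true := by decide +kernel
def p15_28_1_203 : pfC (piC [(nat_lit 36496589), (nat_lit 24304186), (nat_lit 18078890), (nat_lit 12207801)] (nat_lit 10642110)) p15_28_1 (nat_lit 4) (nat_lit 203) (nat_lit 204) = true := by decide +kernel
def p15_28_1_204 : pfC (piC [(nat_lit 36496589), (nat_lit 24304186), (nat_lit 18078890), (nat_lit 12207801)] (nat_lit 10642110)) p15_28_1 (nat_lit 4) (nat_lit 204) (nat_lit 205) = true := by decide +kernel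
def p15_28_1_205 : pfC (piC [(nat_lit 36496589), (nat_lit 24304186), (nat_lit 18078890), (nat_lit 12207801)] (nat_lit 10642110)) p15_28_1 (nat_lit 4) (nat_lit 205) (nat_lit 206) = true := by decide +kernel
def p15_28_1_206 : pfC (piC [(nat_lit 36496589), (nat_lit 24304186), (nat_lit 18078890), (nat_lit 12207801)] (nat_lit 10642110)) p15_28_1 (nat_lit 4) (nat_lit 206) (nat_lit 207) = true := by decide +kernel
def p15_28_1_207 : pfC (piC [(nat_lit 36496589), (nat_lit 24304186), (nat_lit 18078890), (nat_lit 12207801)] (nat_lit 10642110)) p15_28_1 (nat_lit 4) (nat_lit 207) (nat_lit 208) = true := by decide +kernel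
def p15_28_1_208 : pfC (piC [(nat_lit 36496589), (nat_lit 24304186), (nat_lit 18078890), (nat_lit 12207801)] (nat_lit 10642110)) p15_28_1 (nat_lit 4) (nat_lit 208) (nat_lit 209) = true := by decide +kernel
def p15_28_1_209 : pfC (piC [(nat_lit 36496589), (nat_lit 24304186), (nat_lit 18078890), (nat_lit 12207801)] (nat_lit 10642110)) p15_28_1 (nat_lit 4) (nat_lit 209) (nat_lit 210) = true := by decide +kernel
def p15_28_1_210 : pfC (piC [(nat_lit 36496589), (nat_lit 24304186), (nat_lit 18078890), (nat_lit 12207801)] (nat_lit 10642110)) p15_28_1 (nat_lit 4) (nat_lit 210) (nat_lit 211) = true := by decide +kernel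
def p15_28_1_211 : pfC (piC [(nat_lit 36496589), (nat_lit 24304186), (nat_lit 18078890), (nat_lit 12207801)] (nat_lit 10642110)) p15_28_1 (nat_lit 4) (nat_lit 211) (nat_lit 212) = true := by decide +kernel
theorem p15_28_1_T : PfS (PiF n15_28.reverse (nat_lit 10642110)) p15_28_1 (nat_lit 4) [] 0 :=
  pftab_of (los := [(nat_lit 36496589), (nat_lit 24304186), (nat_lit 18078890), (nat_lit 12207801)]) (by decide +kernel) (hi := (nat_lit 212)) (PfP.trans (PfP.trans (PfP.trans (PfP.trans (PfP.trans (PfP.trans (PfP.trans (PfP.trans (PfP.trans (PfP.trans (PfP.trans (PfP.trans (PfP.trans (PfP.trans (PfP.trans (PfP.trans (PfP.trans (PfP.trans (PfP.trans (PfP.trans (PfP.trans (PfP.trans (PfP.trans (PfP.trans (PfP.trans (PfP.trans (PfP.trans (PfP.trans (PfP.trans (PfP.trans (PfP.trans (PfP.trans (PfP.trans (PfP.trans (PfP.trans (PfP.trans (PfP.trans (PfP.trans (PfP.trans (PfP.trans (PfP.trans (PfP.trans (PfP.trans (PfP.trans (PfP.trans (PfP.trans (PfP.trans (PfP.trans (PfP.trans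 (PfP.trans (PfP.trans (PfP.trans (PfP.trans (PfP.trans (PfP.trans (PfP.trans (PfP.trans (PfP.trans (PfP.trans (PfP.trans (PfP.trans (PfP.trans (PfP.trans (PfP.trans (PfP.trans (PfP.trans (PfP.trans (PfP.trans (PfP.trans (PfP.trans (PfP.trans (PfP.trans (PfP.trans (PfP.trans (PfP.trans (PfP.trans (PfP.trans (PfP.trans (PfP.trans (PfP.trans (PfP.trans (PfP.trans (PfP.trans (PfP.trans (PfP.trans (PfP.trans (PfP.trans (PfP.trans (PfP.trans (PfP.trans (PfP.trans (PfP.trans (PfP.trans (PfP.trans (PfP.trans (PfP.trans (PfP.trans (PfP.trans (PfP.trans (PfP.trans (PfP.trans (PfP.trans (PfP.trans (PfP.trans (PfP.trans (PfP.trans (PfP.trans (PfP.trans (PfP.trans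
 (PfP.trans (PfP.trans (PfP.trans (PfP.trans (PfP.trans (PfP.trans (PfP.trans (PfP.trans (PfP.trans (PfP.trans (PfP.trans (PfP.trans (PfP.trans (PfP.trans (PfP.trans (PfP.trans (PfP.trans (PfP.trans (PfP.trans (PfP.trans (PfP.trans (PfP.trans (PfP.trans (PfP.trans (PfP.trans (PfP.trans (PfP.trans (PfP.trans (PfP.trans (PfP.trans (PfP.trans (PfP.trans (PfP.trans (PfP.trans (PfP.trans (PfP.trans (PfP.trans (PfP.trans (PfP.trans (PfP.trans (PfP.trans (PfP.trans (PfP.trans (PfP.trans (PfP.trans (PfP.trans (PfP.trans (PfP.trans (PfP.trans (PfP.trans (PfP.trans (PfP.trans (PfP.trans (PfP.trans (PfP.trans (PfP.trans (PfP.trans (PfP.trans (PfP.trans (PfP.trans (PfP.trans (PfP.trans (PfP.trans (PfP.trans (PfP.trans (PfP.trans (PfP.trans (PfP.trans (PfP.trans (PfP.trans (PfP.trans (PfP.trans (PfP.trans (PfP.trans (PfP.trans (PfP.trans (PfP.trans (PfP.trans (PfP.trans (PfP.trans (PfP.trans (PfP.trans (PfP.trans (PfP.trans (PfP.trans (PfP.trans (PfP.trans (PfP.trans (PfP.trans (PfP.trans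 (PfP.trans (PfP.trans (PfP.trans (PfP.trans (PfP.trans (PfP.trans (PfP.trans (PfP.trans (PfP.trans (PfP.trans (PfP.trans (PfP.trans (pfC_sound p15_28_1_0) (pfC_sound p15_28_1_1)) (pfC_sound p15_28_1_2))
 (pfC_sound p15_28_1_3)) (pfC_sound p15_28_1_4)) (pfC_sound p15_28_1_5)) (pfC_sound p15_28_1_6)) (pfC_sound p15_28_1_7)) (pfC_sound p15_28_1_8)) (pfC_sound p15_28_1_9)) (pfC_sound p15_28_1_10)) (pfC_sound p15_28_1_11)) (pfC_sound p15_28_1_12)) (pfC_sound p15_28_1_13)) (pfC_sound p15_28_1_14)) (pfC_sound p15_28_1_15)) (pfC_sound p15_28_1_16)) (pfC_sound p15_28_1_17)) (pfC_sound p15_28_1_18)) (pfC_sound p15_28_1_19)) (pfC_sound p15_28_1_20)) (pfC_sound p15_28_1_21)) (pfC_sound p15_28_1_22)) (pfC_sound p15_28_1_23)) (pfC_sound p15_28_1_24)) (pfC_sound p15_28_1_25)) (pfC_sound p15_28_1_26)) (pfC_sound p15_28_1_27)) (pfC_sound p15_28_1_28)) (pfC_sound p15_28_1_29)) (pfC_sound p15_28_1_30)) (pfC_sound p15_28_1_31)) (pfC_sound p15_28_1_32)) (pfC_sound p15_28_1_33)) (pfC_sound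 p15_28_1_34)) (pfC_sound p15_28_1_35)) (pfC_sound p15_28_1_36)) (pfC_sound p15_28_1_37)) (pfC_sound p15_28_1_38)) (pfC_sound p15_28_1_39)) (pfC_sound p15_28_1_40)) (pfC_sound p15_28_1_41)) (pfC_sound p15_28_1_42)) (pfC_sound p15_28_1_43)) (pfC_sound p15_28_1_44)) (pfC_sound p15_28_1_45)) (pfC_sound p15_28_1_46)) (pfC_sound p15_28_1_47)) (pfC_sound p15_28_1_48)) (pfC_sound p15_28_1_49)) (pfC_sound p15_28_1_50))
 (pfC_sound p15_28_1_51)) (pfC_sound p15_28_1_52)) (pfC_sound p15_28_1_53)) (pfC_sound p15_28_1_54)) (pfC_sound p15_28_1_55)) (pfC_sound p15_28_1_56)) (pfC_sound p15_28_1_57)) (pfC_sound p15_28_1_58)) (pfC_sound p15_28_1_59)) (pfC_sound p15_28_1_60)) (pfC_sound p15_28_1_61)) (pfC_sound p15_28_1_62)) (pfC_sound p15_28_1_63)) (pfC_sound p15_28_1_64)) (pfC_sound p15_28_1_65)) (pfC_sound p15_28_1_66)) (pfC_sound p15_28_1_67)) (pfC_sound p15_28_1_68)) (pfC_sound p15_28_1_69)) (pfC_sound p15_28_1_70)) (pfC_sound p15_28_1_71)) (pfC_sound p15_28_1_72)) (pfC_sound p15_28_1_73))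 (pfC_sound p15_28_1_74)) (pfC_sound p15_28_1_75)) (pfC_sound p15_28_1_76)) (pfC_sound p15_28_1_77)) (pfC_sound p15_28_1_78)) (pfC_sound p15_28_1_79)) (pfC_sound p15_28_1_80)) (pfC_sound p15_28_1_81)) (pfC_sound p15_28_1_82)) (pfC_sound p15_28_1_83)) (pfC_sound p15_28_1_84)) (pfC_sound p15_28_1_85)) (pfC_sound p15_28_1_86)) (pfC_sound p15_28_1_87)) (pfC_sound p15_28_1_88)) (pfC_sound p15_28_1_89)) (pfC_sound p15_28_1_90)) (pfC_sound p15_28_1_91)) (pfC_sound p15_28_1_92)) (pfC_sound p15_28_1_93)) (pfC_sound p15_28_1_94)) (pfC_sound p15_28_1_95)) (pfC_sound p15_28_1_96)) (pfC_sound p15_28_1_97)) (pfC_sound p15_28_1_98))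
 (pfC_sound p15_28_1_99)) (pfC_sound p15_28_1_100)) (pfC_sound p15_28_1_101)) (pfC_sound p15_28_1_102)) (pfC_sound p15_28_1_103)) (pfC_sound p15_28_1_104)) (pfC_sound p15_28_1_105)) (pfC_sound p15_28_1_106)) (pfC_sound p15_28_1_107)) (pfC_sound p15_28_1_108)) (pfC_sound p15_28_1_109)) (pfC_sound p15_28_1_110)) (pfC_sound p15_28_1_111)) (pfC_sound p15_28_1_112)) (pfC_sound p15_28_1_113)) (pfC_sound p15_28_1_114)) (pfC_sound p15_28_1_115)) (pfC_sound p15_28_1_116)) (pfC_sound p15_28_1_117)) (pfC_sound p15_28_1_118)) (pfC_sound p15_28_1_119)) (pfC_sound p15_28_1_120)) (pfC_sound p15_28_1_121)) (pfC_sound p15_28_1_122)) (pfC_sound p15_28_1_123)) (pfC_sound p15_28_1_124)) (pfC_sound p15_28_1_125)) (pfC_sound p15_28_1_126)) (pfC_sound p15_28_1_127)) (pfC_sound p15_28_1_128)) (pfC_sound p15_28_1_129)) (pfC_sound p15_28_1_130)) (pfC_sound p15_28_1_131)) (pfC_sound p15_28_1_132)) (pfC_sound p15_28_1_133)) (pfC_sound p15_28_1_134)) (pfC_sound p15_28_1_135)) (pfC_sound p15_28_1_136))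 (pfC_sound p15_28_1_137)) (pfC_sound p15_28_1_138)) (pfC_sound p15_28_1_139)) (pfC_sound p15_28_1_140)) (pfC_sound p15_28_1_141)) (pfC_sound p15_28_1_142)) (pfC_sound p15_28_1_143)) (pfC_sound p15_28_1_144))
 (pfC_sound p15_28_1_145)) (pfC_sound p15_28_1_146)) (pfC_sound p15_28_1_147)) (pfC_sound p15_28_1_148)) (pfC_sound p15_28_1_149)) (pfC_sound p15_28_1_150)) (pfC_sound p15_28_1_151)) (pfC_sound p15_28_1_152)) (pfC_sound p15_28_1_153)) (pfC_sound p15_28_1_154)) (pfC_sound p15_28_1_155)) (pfC_sound p15_28_1_156)) (pfC_sound p15_28_1_157)) (pfC_sound p15_28_1_158)) (pfC_sound p15_28_1_159)) (pfC_sound p15_28_1_160)) (pfC_sound p15_28_1_161)) (pfC_sound p15_28_1_162)) (pfC_sound p15_28_1_163)) (pfC_sound p15_28_1_164)) (pfC_sound p15_28_1_165)) (pfC_sound p15_28_1_166)) (pfC_sound p15_28_1_167)) (pfC_sound p15_28_1_168)) (pfC_sound p15_28_1_169)) (pfC_sound p15_28_1_170)) (pfC_sound p15_28_1_171)) (pfC_sound p15_28_1_172)) (pfC_sound p15_28_1_173)) (pfC_sound p15_28_1_174))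 (pfC_sound p15_28_1_175)) (pfC_sound p15_28_1_176)) (pfC_sound p15_28_1_177)) (pfC_sound p15_28_1_178)) (pfC_sound p15_28_1_179)) (pfC_sound p15_28_1_180)) (pfC_sound p15_28_1_181)) (pfC_sound p15_28_1_182)) (pfC_sound p15_28_1_183)) (pfC_sound p15_28_1_184)) (pfC_sound p15_28_1_185)) (pfC_sound p15_28_1_186)) (pfC_sound p15_28_1_187)) (pfC_sound p15_28_1_188)) (pfC_sound p15_28_1_189)) (pfC_sound p15_28_1_190))
 (pfC_sound p15_28_1_191)) (pfC_sound p15_28_1_192)) (pfC_sound p15_28_1_193)) (pfC_sound p15_28_1_194)) (pfC_sound p15_28_1_195)) (pfC_sound p15_28_1_196)) (pfC_sound p15_28_1_197)) (pfC_sound p15_28_1_198)) (pfC_sound p15_28_1_199)) (pfC_sound p15_28_1_200)) (pfC_sound p15_28_1_201)) (pfC_sound p15_28_1_202)) (pfC_sound p15_28_1_203)) (pfC_sound p15_28_1_204)) (pfC_sound p15_28_1_205)) (pfC_sound p15_28_1_206)) (pfC_sound p15_28_1_207)) (pfC_sound p15_28_1_208)) (pfC_sound p15_28_1_209)) (pfC_sound p15_28_1_210)) (pfC_sound p15_28_1_211)) (by decide +kernel)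

def z15_28_1 : zOK yB15_28 (nat_lit 1) (nat_lit 400) (nat_lit 600) (nat_lit 10642110) (nat_lit 6792444) = true := by decide +kernel
def g15_28_1 : gOK yB15_28.x P15_28 (nat_lit 1409) (q15_28 :: r15_28) (nat_lit 1) (nat_lit 400) (nat_lit 2) (nat_lit 600) (nat_lit 11000000) (nat_lit 17850000) (nat_lit 12712500) (nat_lit 12712500) [(nat_lit 800), (nat_lit 1130)] = true := by decide +kernel
def v15_28_1 : ivC P15_28 s15_28 w15_28 n15_28 (nat_lit 4) (nat_lit 4950) (nat_lit 1) (nat_lit 400) f168_1_400 f176_1_400 (nat_lit 2) (nat_lit 600) f168_1_600 f176_1_600 (nat_lit 10642110) (nat_lit 6792444) p15_28_1 = true := by decide +kernel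
def p15_28_2 : PF := (PF.cons (PF.cons (PF.cons (PF.cons (PF.leaf (nat_lit 2722909) (nat_lit 15732779) (nat_lit 51376033) (nat_lit 15732779) [(nat_lit 0), (nat_lit 0), (nat_lit 0), (nat_lit 0)]) (PF.cons (PF.leaf (nat_lit 2926800) (nat_lit 374010) (nat_lit 51024834) (nat_lit 15709968) [(nat_lit 374010), (nat_lit 0), (nat_lit 0), (nat_lit 0)]) (PF.cons (PF.leaf (nat_lit 3166295) (nat_lit 405827) (nat_lit 50616036) (nat_lit 15681121) [(nat_lit 405827), (nat_lit 0), (nat_lit 0), (nat_lit 0)]) (PF.cons (PF.leaf (nat_lit 3434137) (nat_lit 433707) (nat_lit 50161443) (nat_lit 15646247) [(nat_lit 433707), (nat_lit 0), (nat_lit 0), (nat_lit 0)]) (PF.cons (PF.leaf (nat_lit 3725790) (nat_lit 458490) (nat_lit 49669550) (nat_lit 15605299) [(nat_lit 458490), (nat_lit 0), (nat_lit 0), (nat_lit 0)]) (PF.cons (PF.leaf (nat_lit 4037711) (nat_lit 480716) (nat_lit 49146979) (nat_lit 15558249) [(nat_lit 480716), (nat_lit 0), (nat_lit 0), (nat_lit 0)]) (PF.cons (PF.leaf (nat_lit 4366971)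 (nat_lit 500759) (nat_lit 48599143) (nat_lit 15505112) [(nat_lit 500759), (nat_lit 0), (nat_lit 0), (nat_lit 0)]) (PF.cons (PF.leaf (nat_lit 4711119) (nat_lit 518893) (nat_lit 48030605) (nat_lit 15445955) [(nat_lit 518893), (nat_lit 0),
 (nat_lit 0), (nat_lit 0)]) (PF.cons (PF.leaf (nat_lit 5068005) (nat_lit 535328) (nat_lit 47445285) (nat_lit 15380901) [(nat_lit 535328), (nat_lit 0), (nat_lit 0), (nat_lit 0)]) (PF.cons (PF.leaf (nat_lit 5435739) (nat_lit 550232) (nat_lit 46846599) (nat_lit 15310119) [(nat_lit 550232), (nat_lit 0), (nat_lit 0), (nat_lit 0)]) (PF.cons (PF.leaf (nat_lit 5812642) (nat_lit 563744) (nat_lit 46237543) (nat_lit 15233823) [(nat_lit 563744), (nat_lit 0), (nat_lit 0), (nat_lit 0)]) (PF.cons PF.nil PF.nil)))))))))))) (PF.cons (PF.cons (PF.leaf (nat_lit 3331176) (nat_lit 1487629) (nat_lit 49993971) (nat_lit 15627212) [(nat_lit 0), (nat_lit 1487629), (nat_lit 0), (nat_lit 0)]) (PF.cons (PF.leaf (nat_lit 3588732) (nat_lit 442120) (nat_lit 49550532)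 (nat_lit 15589389) [(nat_lit 442120), (nat_lit 1526771), (nat_lit 0), (nat_lit 0)]) (PF.cons (PF.leaf (nat_lit 3872424) (nat_lit 466120) (nat_lit 49067301) (nat_lit 15545213) [(nat_lit 466120), (nat_lit 1564055), (nat_lit 0), (nat_lit 0)]) (PF.cons (PF.leaf (nat_lit 4177400) (nat_lit 487560) (nat_lit 48552319) (nat_lit 15494828) [(nat_lit 487560), (nat_lit 1598984), (nat_lit 0), (nat_lit 0)]) (PF.cons (PF.leaf (nat_lit 4500305) (nat_lit 506845)
 (nat_lit 48011713) (nat_lit 15438359) [(nat_lit 506845), (nat_lit 1631357), (nat_lit 0), (nat_lit 0)]) (PF.cons (PF.leaf (nat_lit 4838457) (nat_lit 524263) (nat_lit 47450421) (nat_lit 15375950) [(nat_lit 524263), (nat_lit 1661126), (nat_lit 0), (nat_lit 0)]) (PF.cons (PF.leaf (nat_lit 5189577) (nat_lit 540026) (nat_lit 46872561) (nat_lit 15307775) [(nat_lit 540026), (nat_lit 1688319), (nat_lit 0), (nat_lit 0)]) (PF.cons (PF.leaf (nat_lit 5551688) (nat_lit 554302) (nat_lit 46281642) (nat_lit 15234045) [(nat_lit 554302), (nat_lit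 1713007), (nat_lit 0), (nat_lit 0)]) (PF.cons (PF.leaf (nat_lit 5923038) (nat_lit 567228) (nat_lit 45680701) (nat_lit 15154997) [(nat_lit 567228), (nat_lit 1735282), (nat_lit 0), (nat_lit 0)]) (PF.cons PF.nil PF.nil)))))))))) (PF.cons (PF.cons (PF.leaf (nat_lit 4022486) (nat_lit 1587841) (nat_lit 48453763) (nat_lit 15479365) [(nat_lit 0), (nat_lit 1587841), (nat_lit 0), (nat_lit 0)]) (PF.cons (PF.leaf (nat_lit 4318430) (nat_lit 493211) (nat_lit 47950622) (nat_lit 15426307) [(nat_lit 493211), (nat_lit 1619335), (nat_lit 0), (nat_lit 0)]) (PF.cons (PF.leaf (nat_lit 4633865) (nat_lit 511945) (nat_lit 47420314) (nat_lit 15367061) [(nat_lit 511945), (nat_lit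
 1648772), (nat_lit 0), (nat_lit 0)]) (PF.cons (PF.leaf (nat_lit 4965253) (nat_lit 528797) (nat_lit 46868575) (nat_lit 15301884) [(nat_lit 528797), (nat_lit 1675980), (nat_lit 0), (nat_lit 0)]) (PF.cons (PF.leaf (nat_lit 5310047) (nat_lit 544003) (nat_lit 46299958) (nat_lit 15231025) [(nat_lit 544003), (nat_lit 1700907), (nat_lit 0), (nat_lit 0)]) (PF.cons (PF.leaf (nat_lit 5666110) (nat_lit 557743) (nat_lit 45718214) (nat_lit 15154742) [(nat_lit 557743), (nat_lit 1723570), (nat_lit 0), (nat_lit 0)]) (PF.cons (PF.leaf (nat_lit 6031620) (nat_lit 570158) (nat_lit 45126508) (nat_lit 15073308) [(nat_lit 570158), (nat_lit 1744022), (nat_lit 0), (nat_lit 0)]) (PF.cons (PF.leaf (nat_lit 6404959) (nat_lit 581366) (nat_lit 44527554) (nat_lit 14987011) [(nat_lit 581366), (nat_lit 1762342), (nat_lit 0), (nat_lit 0)]) (PF.cons PF.nil PF.nil))))))))) (PF.cons (PF.cons (PF.leaf (nat_lit 4769220) (nat_lit 1664538) (nat_lit 46824039) (nat_lit 15291159) [(nat_lit 0), (nat_lit 1664538),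 (nat_lit 0), (nat_lit 0)]) (PF.cons (PF.leaf (nat_lit 5092412) (nat_lit 532492) (nat_lit 46284555) (nat_lit 15223777) [(nat_lit 532492), (nat_lit 1689329), (nat_lit 0), (nat_lit 0)]) (PF.cons (PF.leaf (nat_lit
 5430107) (nat_lit 547265) (nat_lit 45727185) (nat_lit 15150715) [(nat_lit 547265), (nat_lit 1712126), (nat_lit 0), (nat_lit 0)]) (PF.cons (PF.leaf (nat_lit 5779607) (nat_lit 560564) (nat_lit 45156144) (nat_lit 15072304) [(nat_lit 560564), (nat_lit 1732890), (nat_lit 0), (nat_lit 0)]) (PF.cons (PF.leaf (nat_lit 6138883) (nat_lit 572545) (nat_lit 44574864) (nat_lit 14988864) [(nat_lit 572545), (nat_lit 1751634), (nat_lit 0), (nat_lit 0)]) (PF.cons (PF.leaf (nat_lit 6506264) (nat_lit 583332) (nat_lit 43986209) (nat_lit 14900713) [(nat_lit 583332), (nat_lit 1768408), (nat_lit 0), (nat_lit 0)]) (PF.cons PF.nil PF.nil))))))) (PF.cons (PF.cons (PF.leaf (nat_lit 5550969) (nat_lit 1722088) (nat_lit 45153612) (nat_lit 15066846) [(nat_lit 0), (nat_lit 1722088), (nat_lit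 0), (nat_lit 0)]) (PF.cons (PF.leaf (nat_lit 5892867) (nat_lit 562763) (nat_lit 44595036) (nat_lit 14986778) [(nat_lit 562763), (nat_lit 1741058), (nat_lit 0), (nat_lit 0)]) (PF.cons (PF.leaf (nat_lit 6245414) (nat_lit 574392) (nat_lit 44025506) (nat_lit 14901739) [(nat_lit 574392), (nat_lit 1758195), (nat_lit 0), (nat_lit 0)]) (PF.cons (PF.leaf (nat_lit 6606446) (nat_lit 584826) (nat_lit 43448166) (nat_lit 14812095)
 [(nat_lit 584826), (nat_lit 1773517), (nat_lit 0), (nat_lit 0)]) (PF.cons (PF.leaf (nat_lit 6974376) (nat_lit 594177) (nat_lit 42865617) (nat_lit 14718196) [(nat_lit 594177), (nat_lit 1787072), (nat_lit 0), (nat_lit 0)]) PF.nil))))) (PF.cons (PF.cons (PF.leaf (nat_lit 6352105) (nat_lit 1763776) (nat_lit 43477965) (nat_lit 14811963) [(nat_lit 0), (nat_lit 1763776), (nat_lit 0), (nat_lit 0)]) (PF.cons (PF.leaf (nat_lit 6706041) (nat_lit 585844) (nat_lit 42913099) (nat_lit 14721213) [(nat_lit 585844), (nat_lit 1777731), (nat_lit 0), (nat_lit 0)]) (PF.cons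 (PF.leaf (nat_lit 7067574) (nat_lit 594908) (nat_lit 42342467) (nat_lit 14626290) [(nat_lit 594908), (nat_lit 1790047), (nat_lit 0), (nat_lit 0)]) (PF.cons PF.nil PF.nil)))) (PF.cons (PF.cons (PF.leaf (nat_lit 7160590) (nat_lit 1792254) (nat_lit 41822792) (nat_lit 14532494) [(nat_lit 0), (nat_lit 1792254), (nat_lit 0), (nat_lit 0)]) (PF.cons (PF.leaf (nat_lit 7521331) (nat_lit 603063) (nat_lit 41261049) (nat_lit 14433170) [(nat_lit 603063), (nat_lit 1801921), (nat_lit 0), (nat_lit 0)]) PF.nil)) (PF.cons PF.nil (PF.cons PF.nil PF.nil))))))))) (PF.cons (PF.cons (PF.cons (PF.leaf (nat_lit 3888193) (nat_lit 3669081) (nat_lit 48029377)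
 (nat_lit 15410353) [(nat_lit 0), (nat_lit 0), (nat_lit 3669081), (nat_lit 0)]) (PF.cons (PF.leaf (nat_lit 4154085) (nat_lit 467843) (nat_lit 47580625) (nat_lit 15361418) [(nat_lit 467843), (nat_lit 0), (nat_lit 3698926), (nat_lit 0)]) (PF.cons (PF.leaf (nat_lit 4444373) (nat_lit 489763) (nat_lit 47095765) (nat_lit 15305827) [(nat_lit 489763), (nat_lit 0), (nat_lit 3727692), (nat_lit 0)]) (PF.cons (PF.leaf (nat_lit 4754145) (nat_lit 509070) (nat_lit 46582955) (nat_lit 15244031) [(nat_lit 509070), (nat_lit 0), (nat_lit 3754614), (nat_lit 0)]) (PF.cons (PF.leaf (nat_lit 5080046) (nat_lit 526237) (nat_lit 46048242) (nat_lit 15176382) [(nat_lit 526237), (nat_lit 0), (nat_lit 3779238), (nat_lit 0)]) (PF.cons (PF.leaf (nat_lit 5419435) (nat_lit 541588) (nat_lit 45496375) (nat_lit 15103194) [(nat_lit 541588), (nat_lit 0), (nat_lit 3801298), (nat_lit 0)]) (PF.cons (PF.leaf (nat_lit 5770126) (nat_lit 555359) (nat_lit 44931224) (nat_lit 15024770) [(nat_lit 555359), (nat_lit 0),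 (nat_lit 3820659), (nat_lit 0)]) (PF.cons (PF.leaf (nat_lit 6130266) (nat_lit 567729) (nat_lit 44356023) (nat_lit 14941414) [(nat_lit 567729), (nat_lit 0), (nat_lit 3837266), (nat_lit 0)]) (PF.cons (PF.leaf (nat_lit
 6498221) (nat_lit 578841) (nat_lit 43773518) (nat_lit 14853434) [(nat_lit 578841), (nat_lit 0), (nat_lit 3851127), (nat_lit 0)]) (PF.cons PF.nil PF.nil)))))))))) (PF.cons (PF.cons (PF.leaf (nat_lit 4586644) (nat_lit 1637409) (nat_lit 46495992) (nat_lit 15228076) [(nat_lit 0), (nat_lit 1637409), (nat_lit 3747334), (nat_lit 0)]) (PF.cons (PF.leaf (nat_lit 4886619) (nat_lit 512569) (nat_lit 45997695) (nat_lit 15164671) [(nat_lit 512569), (nat_lit 1663313), (nat_lit 3770563), (nat_lit 0)]) (PF.cons (PF.leaf (nat_lit 5204443) (nat_lit 529406) (nat_lit 45475574) (nat_lit 15095257) [(nat_lit 529406), (nat_lit 1687301), (nat_lit 3791867), (nat_lit 0)]) (PF.cons (PF.leaf (nat_lit 5536620) (nat_lit 544380) (nat_lit 44935220) (nat_lit 15020272) [(nat_lit 544380), (nat_lit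 1709261), (nat_lit 3810917), (nat_lit 0)]) (PF.cons (PF.leaf (nat_lit 5880663) (nat_lit 557757) (nat_lit 44380971) (nat_lit 14940096) [(nat_lit 557757), (nat_lit 1729179), (nat_lit 3827533), (nat_lit 0)]) (PF.cons (PF.leaf (nat_lit 6234540) (nat_lit 569734) (nat_lit 43816332) (nat_lit 14855084) [(nat_lit 569734), (nat_lit 1747088), (nat_lit 3841633), (nat_lit 0)]) (PF.cons (PF.leaf (nat_lit 6596514) (nat_lit 580463)
 (nat_lit 43244207) (nat_lit 14765574) [(nat_lit 580463), (nat_lit 1763050), (nat_lit 3853199), (nat_lit 0)]) (PF.cons PF.nil (PF.cons PF.nil PF.nil))))))))) (PF.cons (PF.cons (PF.leaf (nat_lit 5330930) (nat_lit 1698145) (nat_lit 44899974) (nat_lit 15010281) [(nat_lit 0), (nat_lit 1698145), (nat_lit 3802267), (nat_lit 0)]) (PF.cons (PF.leaf (nat_lit 5654499) (nat_lit 546448) (nat_lit 44373478) (nat_lit 14934051) [(nat_lit 546448), (nat_lit 1718173), (nat_lit 3818489), (nat_lit 0)]) (PF.cons (PF.leaf (nat_lit 5991154) (nat_lit 559543) (nat_lit 43831833) (nat_lit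 14852583) [(nat_lit 559543), (nat_lit 1736385), (nat_lit 3832537), (nat_lit 0)]) (PF.cons (PF.leaf (nat_lit 6338248) (nat_lit 571213) (nat_lit 43279029) (nat_lit 14766307) [(nat_lit 571213), (nat_lit 1752770), (nat_lit 3844295), (nat_lit 0)]) (PF.cons (PF.leaf (nat_lit 6693876) (nat_lit 581626) (nat_lit 42718253) (nat_lit 14675612) [(nat_lit 581626), (nat_lit 1767359), (nat_lit 3853720), (nat_lit 0)]) (PF.cons (PF.leaf (nat_lit 7056456) (nat_lit 590916) (nat_lit 42152125) (nat_lit 14580860) [(nat_lit 590916), (nat_lit 1780209), (nat_lit 3860822), (nat_lit 0)]) (PF.cons PF.nil PF.nil))))))) (PF.cons (PF.cons (PF.leaf (nat_lit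
 6102724) (nat_lit 1742586) (nat_lit 43283076) (nat_lit 14762194) [(nat_lit 0), (nat_lit 1742586), (nat_lit 3835780), (nat_lit 0)]) (PF.cons (PF.leaf (nat_lit 6442054) (nat_lit 572153) (nat_lit 42743618) (nat_lit 14675096) [(nat_lit 572153), (nat_lit 1757531), (nat_lit 3845351), (nat_lit 0)]) (PF.cons (PF.leaf (nat_lit 6790848) (nat_lit 582326) (nat_lit 42195304) (nat_lit 14583588) [(nat_lit 582326), (nat_lit 1770828), (nat_lit 3852781), (nat_lit 0)]) (PF.cons (PF.leaf (nat_lit 7147039) (nat_lit 591363) (nat_lit 41641046) (nat_lit 14488082) [(nat_lit 591363), (nat_lit 1782510), (nat_lit 3858060), (nat_lit 0)]) (PF.cons PF.nil PF.nil))))) (PF.cons (PF.cons (PF.leaf (nat_lit 6888281) (nat_lit 1773507) (nat_lit 41674825) (nat_lit 14489498) [(nat_lit 0), (nat_lit 1773507), (nat_lit 3850459), (nat_lit 0)]) (PF.cons (PF.leaf (nat_lit 7237365) (nat_lit 591400) (nat_lit 41133416) (nat_lit 14393589) [(nat_lit 591400), (nat_lit 1784090), (nat_lit 3854044), (nat_lit 0)]) (PF.cons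 (PF.leaf (nat_lit 7593094) (nat_lit 599218) (nat_lit 40587760) (nat_lit 14294095) [(nat_lit 599218), (nat_lit 1793216), (nat_lit 3855655), (nat_lit 0)]) (PF.cons PF.nil PF.nil)))) (PF.cons (PF.cons (PF.leaf (nat_lit
 7677168) (nat_lit 1793180) (nat_lit 40096065) (nat_lit 14197826) [(nat_lit 0), (nat_lit 1793180), (nat_lit 3849016), (nat_lit 0)]) (PF.cons PF.nil PF.nil)) (PF.cons PF.nil (PF.cons PF.nil PF.nil)))))))) (PF.cons (PF.cons (PF.cons (PF.leaf (nat_lit 5134372) (nat_lit 3776869) (nat_lit 44607221) (nat_lit 14947852) [(nat_lit 0), (nat_lit 0), (nat_lit 3776869), (nat_lit 0)]) (PF.cons (PF.leaf (nat_lit 5436135) (nat_lit 527173) (nat_lit 44119301) (nat_lit 14876337) [(nat_lit 527173), (nat_lit 0), (nat_lit 3793000), (nat_lit 0)]) (PF.cons (PF.leaf (nat_lit 5754328) (nat_lit 542357) (nat_lit 43610405) (nat_lit 14799088) [(nat_lit 542357), (nat_lit 0), (nat_lit 3807301), (nat_lit 0)]) (PF.cons (PF.leaf (nat_lit 6085484) (nat_lit 555708) (nat_lit 43085912) (nat_lit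 14716680) [(nat_lit 555708), (nat_lit 0), (nat_lit 3819547), (nat_lit 0)]) (PF.cons (PF.leaf (nat_lit 6427218) (nat_lit 567514) (nat_lit 42549926) (nat_lit 14629584) [(nat_lit 567514), (nat_lit 0), (nat_lit 3829622), (nat_lit 0)]) (PF.cons (PF.leaf (nat_lit 6777560) (nat_lit 577983) (nat_lit 42005706) (nat_lit 14538216) [(nat_lit 577983), (nat_lit 0), (nat_lit 3837485), (nat_lit 0)]) (PF.cons (PF.leaf (nat_lit 7134891) (nat_lit
 587275) (nat_lit 41455914) (nat_lit 14442956) [(nat_lit 587275), (nat_lit 0), (nat_lit 3843145), (nat_lit 0)]) (PF.cons PF.nil (PF.cons PF.nil PF.nil))))))))) (PF.cons (PF.cons (PF.leaf (nat_lit 5872150) (nat_lit 1719806) (nat_lit 43058886) (nat_lit 14707686) [(nat_lit 0), (nat_lit 1719806), (nat_lit 3811216), (nat_lit 0)]) (PF.cons (PF.leaf (nat_lit 6194467) (nat_lit 556472) (nat_lit 42549148) (nat_lit 14624846) [(nat_lit 556472), (nat_lit 1735883), (nat_lit 3821231), (nat_lit 0)]) (PF.cons (PF.leaf (nat_lit 6528647) (nat_lit 568117) (nat_lit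 42026502) (nat_lit 14537221) [(nat_lit 568117), (nat_lit 1750296), (nat_lit 3829279), (nat_lit 0)]) (PF.cons (PF.leaf (nat_lit 6872122) (nat_lit 578385) (nat_lit 41494700) (nat_lit 14445307) [(nat_lit 578385), (nat_lit 1763059), (nat_lit 3835293), (nat_lit 0)]) (PF.cons (PF.leaf (nat_lit 7223083) (nat_lit 587457) (nat_lit 40956697) (nat_lit 14349536) [(nat_lit 587457), (nat_lit 1774216), (nat_lit 3839265), (nat_lit 0)]) (PF.cons PF.nil (PF.cons PF.nil PF.nil))))))) (PF.cons (PF.cons (PF.leaf (nat_lit 6631417) (nat_lit 1753507) (nat_lit 41504215) (nat_lit 14442551) [(nat_lit 0), (nat_lit 1753507), (nat_lit 3827515), (nat_lit 0)]) (PF.cons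
 (PF.leaf (nat_lit 6967068) (nat_lit 578314) (nat_lit 40986148) (nat_lit 14350500) [(nat_lit 578314), (nat_lit 1765111), (nat_lit 3831813), (nat_lit 0)]) (PF.cons (PF.leaf (nat_lit 7311172) (nat_lit 587236) (nat_lit 40460885) (nat_lit 14254556) [(nat_lit 587236), (nat_lit 1775229), (nat_lit 3834218), (nat_lit 0)]) (PF.cons (PF.leaf (nat_lit 7661769) (nat_lit 595079) (nat_lit 39931117) (nat_lit 14155158) [(nat_lit 595079), (nat_lit 1783903), (nat_lit 3834746), (nat_lit 0)]) (PF.cons PF.nil PF.nil))))) (PF.cons (PF.cons (PF.leaf (nat_lit 7400005) (nat_lit 1775601) (nat_lit 39967905) (nat_lit 14157984) [(nat_lit 0), (nat_lit 1775601), (nat_lit 3828059), (nat_lit 0)]) (PF.cons (PF.leaf (nat_lit 7743547) (nat_lit 594328) (nat_lit 39451024) (nat_lit 14058744) [(nat_lit 594328), (nat_lit 1783393), (nat_lit 3827266), (nat_lit 0)]) (PF.cons (PF.leaf (nat_lit 8092951) (nat_lit 601082) (nat_lit 38931051) (nat_lit 13956434) [(nat_lit 601082), (nat_lit 1789885), (nat_lit 3824753),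 (nat_lit 0)]) (PF.cons PF.nil PF.nil)))) (PF.cons (PF.cons (PF.leaf (nat_lit 8168836) (nat_lit 1788074) (nat_lit 38466945) (nat_lit 13859150) [(nat_lit 0), (nat_lit 1788074), (nat_lit 3815209), (nat_lit 0)]) (PF.cons
 PF.nil PF.nil)) (PF.cons PF.nil PF.nil)))))) (PF.cons (PF.cons (PF.cons (PF.leaf (nat_lit 6392563) (nat_lit 3803900) (nat_lit 41306337) (nat_lit 14390772) [(nat_lit 0), (nat_lit 0), (nat_lit 3803900), (nat_lit 0)]) (PF.cons (PF.leaf (nat_lit 6712383) (nat_lit 563293) (nat_lit 40815701) (nat_lit 14303221) [(nat_lit 563293), (nat_lit 0), (nat_lit 3808865), (nat_lit 0)]) (PF.cons (PF.leaf (nat_lit 7043028) (nat_lit 573677) (nat_lit 40313995) (nat_lit 14211321) [(nat_lit 573677), (nat_lit 0), (nat_lit 3812047), (nat_lit 0)]) (PF.cons (PF.leaf (nat_lit 7382000) (nat_lit 582735) (nat_lit 39804736) (nat_lit 14115613) [(nat_lit 582735), (nat_lit 0), (nat_lit 3813419), (nat_lit 0)]) (PF.cons (PF.leaf (nat_lit 7727568) (nat_lit 590653) (nat_lit 39290656) (nat_lit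 14016552) [(nat_lit 590653), (nat_lit 0), (nat_lit 3812996), (nat_lit 0)]) (PF.cons PF.nil (PF.cons PF.nil PF.nil))))))) (PF.cons (PF.cons (PF.leaf (nat_lit 7137533) (nat_lit 1756791) (nat_lit 39818737) (nat_lit 14114164) [(nat_lit 0), (nat_lit 1756791), (nat_lit 3806373), (nat_lit 0)]) (PF.cons (PF.leaf (nat_lit 7468702) (nat_lit 581851) (nat_lit 39323253) (nat_lit 14018870) [(nat_lit 581851), (nat_lit 1765614), (nat_lit 3806407),
 (nat_lit 0)]) (PF.cons (PF.leaf (nat_lit 7807464) (nat_lit 589694) (nat_lit 38821888) (nat_lit 13920147) [(nat_lit 589694), (nat_lit 1773091), (nat_lit 3804765), (nat_lit 0)]) (PF.cons (PF.leaf (nat_lit 8151964) (nat_lit 596511) (nat_lit 38317127) (nat_lit 13818446) [(nat_lit 596511), (nat_lit 1779274), (nat_lit 3801477), (nat_lit 0)]) (PF.cons PF.nil PF.nil))))) (PF.cons (PF.cons (PF.leaf (nat_lit 7888354) (nat_lit 1771630) (nat_lit 38356114) (nat_lit 13822527) [(nat_lit 0), (nat_lit 1771630), (nat_lit 3795636), (nat_lit 0)]) (PF.cons (PF.leaf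 (nat_lit 8225900) (nat_lit 595130) (nat_lit 37864043) (nat_lit 13721428) [(nat_lit 595130), (nat_lit 1777109), (nat_lit 3791330), (nat_lit 0)]) (PF.cons PF.nil (PF.cons PF.nil PF.nil)))) (PF.cons (PF.cons (PF.leaf (nat_lit 8637059) (nat_lit 1778211) (nat_lit 36932380) (nat_lit 13520520) [(nat_lit 0), (nat_lit 1778211), (nat_lit 3773758), (nat_lit 0)]) (PF.cons PF.nil PF.nil)) (PF.cons PF.nil PF.nil))))) (PF.cons (PF.cons (PF.cons (PF.leaf (nat_lit 7621851) (nat_lit 3775260) (nat_lit 38225814) (nat_lit 13781954) [(nat_lit 0), (nat_lit 0), (nat_lit 3775260), (nat_lit 0)]) (PF.cons (PF.leaf (nat_lit 7947954) (nat_lit 583253) (nat_lit 37753335)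
 (nat_lit 13684799) [(nat_lit 583253), (nat_lit 0), (nat_lit 3771856), (nat_lit 0)]) (PF.cons (PF.leaf (nat_lit 8280956) (nat_lit 590162) (nat_lit 37276018) (nat_lit 13584626) [(nat_lit 590162), (nat_lit 0), (nat_lit 3766960), (nat_lit 0)]) (PF.cons PF.nil PF.nil)))) (PF.cons (PF.cons (PF.leaf (nat_lit 8354524) (nat_lit 1762856) (nat_lit 36836678) (nat_lit 13487070) [(nat_lit 0), (nat_lit 1762856), (nat_lit 3755551), (nat_lit 0)]) (PF.cons (PF.leaf (nat_lit 8685801) (nat_lit 594213) (nat_lit 36369151) (nat_lit 13385276) [(nat_lit 594213), (nat_lit 1766415), (nat_lit 3748439), (nat_lit 0)]) PF.nil)) (PF.cons PF.nil PF.nil))) (PF.cons (PF.cons (PF.cons (PF.leaf (nat_lit 8799795) (nat_lit 3709688) (nat_lit 35405766) (nat_lit 13154604) [(nat_lit 0), (nat_lit 0), (nat_lit 3709688), (nat_lit 0)]) (PF.cons PF.nil PF.nil)) (PF.cons PF.nil PF.nil)) (PF.cons PF.nil (PF.cons PF.nil PF.nil)))))))) (PF.cons (PF.cons (PF.cons (PF.cons (PF.leaf (nat_lit 4705033) (nat_lit 8659763) (nat_lit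 43735274) (nat_lit 14713774) [(nat_lit 0), (nat_lit 0), (nat_lit 0), (nat_lit 8659763)]) (PF.cons (PF.leaf (nat_lit 4966794) (nat_lit 476341) (nat_lit 43329306) (nat_lit 14654121) [(nat_lit 476341), (nat_lit 0),
 (nat_lit 0), (nat_lit 8649043)]) (PF.cons (PF.leaf (nat_lit 5251031) (nat_lit 496494) (nat_lit 42892549) (nat_lit 14587927) [(nat_lit 496494), (nat_lit 0), (nat_lit 0), (nat_lit 8635346)]) (PF.cons (PF.leaf (nat_lit 5552816) (nat_lit 513915) (nat_lit 42432487) (nat_lit 14515988) [(nat_lit 513915), (nat_lit 0), (nat_lit 0), (nat_lit 8618590)]) (PF.cons (PF.leaf (nat_lit 5868871) (nat_lit 529144) (nat_lit 41954589) (nat_lit 14438896) [(nat_lit 529144), (nat_lit 0), (nat_lit 0), (nat_lit 8598747)]) (PF.cons (PF.leaf (nat_lit 6196637) (nat_lit 542551) (nat_lit 41463078) (nat_lit 14357139) [(nat_lit 542551), (nat_lit 0), (nat_lit 0), (nat_lit 8575837)]) (PF.cons (PF.leaf (nat_lit 6534047) (nat_lit 554404) (nat_lit 40961335) (nat_lit 14271137) [(nat_lit 554404), (nat_lit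 0), (nat_lit 0), (nat_lit 8549915)]) (PF.cons (PF.leaf (nat_lit 6879367) (nat_lit 564905) (nat_lit 40452134) (nat_lit 14181270) [(nat_lit 564905), (nat_lit 0), (nat_lit 0), (nat_lit 8521068)]) (PF.cons (PF.leaf (nat_lit 7231166) (nat_lit 574215) (nat_lit 39937794) (nat_lit 14087889) [(nat_lit 574215), (nat_lit 0), (nat_lit 0), (nat_lit 8489406)]) (PF.cons PF.nil PF.nil)))))))))) (PF.cons (PF.cons (PF.leaf (nat_lit
 5379093) (nat_lit 1639554) (nat_lit 42360041) (nat_lit 14499910) [(nat_lit 0), (nat_lit 1639554), (nat_lit 0), (nat_lit 8609306)]) (PF.cons (PF.leaf (nat_lit 5670712) (nat_lit 515477) (nat_lit 41914595) (nat_lit 14427836) [(nat_lit 515477), (nat_lit 1660204), (nat_lit 0), (nat_lit 8590699)]) (PF.cons (PF.leaf (nat_lit 5978427) (nat_lit 530521) (nat_lit 41449388) (nat_lit 14350377) [(nat_lit 530521), (nat_lit 1678960), (nat_lit 0), (nat_lit 8569044)]) (PF.cons (PF.leaf (nat_lit 6298829) (nat_lit 543687) (nat_lit 40969407) (nat_lit 14268149) [(nat_lit 543687),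 (nat_lit 1695798), (nat_lit 0), (nat_lit 8544394)]) (PF.cons (PF.leaf (nat_lit 6629541) (nat_lit 555276) (nat_lit 40478461) (nat_lit 14181652) [(nat_lit 555276), (nat_lit 1710763), (nat_lit 0), (nat_lit 8516828)]) (PF.cons (PF.leaf (nat_lit 6968670) (nat_lit 565508) (nat_lit 39979580) (nat_lit 14091316) [(nat_lit 565508), (nat_lit 1723929), (nat_lit 0), (nat_lit 8486443)]) (PF.cons (PF.leaf (nat_lit 7314619) (nat_lit 574551) (nat_lit 39475235) (nat_lit 13997522) [(nat_lit 574551), (nat_lit 1735385), (nat_lit 0), (nat_lit 8453358)]) (PF.cons PF.nil (PF.cons PF.nil PF.nil))))))))) (PF.cons (PF.cons (PF.leaf (nat_lit 6090345)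
 (nat_lit 1684957) (nat_lit 40942696) (nat_lit 14259167) [(nat_lit 0), (nat_lit 1684957), (nat_lit 0), (nat_lit 8537033)]) (PF.cons (PF.leaf (nat_lit 6402078) (nat_lit 544210) (nat_lit 40476130) (nat_lit 14176956) [(nat_lit 544210), (nat_lit 1700296), (nat_lit 0), (nat_lit 8510923)]) (PF.cons (PF.leaf (nat_lit 6725417) (nat_lit 555640) (nat_lit 39997318) (nat_lit 14090355) [(nat_lit 555640), (nat_lit 1713952), (nat_lit 0), (nat_lit 8481952)]) (PF.cons (PF.leaf (nat_lit 7057868) (nat_lit 565681) (nat_lit 39509731) (nat_lit 13999870) [(nat_lit 565681), (nat_lit 1725962), (nat_lit 0), (nat_lit 8450240)]) (PF.cons (PF.leaf (nat_lit 7397642) (nat_lit 574519) (nat_lit 39016104) (nat_lit 13905935) [(nat_lit 574519), (nat_lit 1736387), (nat_lit 0), (nat_lit 8415919)]) (PF.cons (PF.leaf (nat_lit 7743274) (nat_lit 582299) (nat_lit 38518652) (nat_lit 13808928) [(nat_lit 582299), (nat_lit 1745302), (nat_lit 0), (nat_lit 8379126)]) (PF.cons PF.nil PF.nil))))))) (PF.cons (PF.cons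 (PF.leaf (nat_lit 6822748) (nat_lit 1716398) (nat_lit 39517157) (nat_lit 13997158) [(nat_lit 0), (nat_lit 1716398), (nat_lit 0), (nat_lit 8445300)]) (PF.cons (PF.leaf (nat_lit 7147580) (nat_lit 565407) (nat_lit
 39042062) (nat_lit 13906893) [(nat_lit 565407), (nat_lit 1727320), (nat_lit 0), (nat_lit 8412489)]) (PF.cons (PF.leaf (nat_lit 7480717) (nat_lit 574108) (nat_lit 38560014) (nat_lit 13813117) [(nat_lit 574108), (nat_lit 1736777), (nat_lit 0), (nat_lit 8377130)]) (PF.cons (PF.leaf (nat_lit 7820234) (nat_lit 581734) (nat_lit 38073499) (nat_lit 13716259) [(nat_lit 581734), (nat_lit 1744826), (nat_lit 0), (nat_lit 8339373)]) (PF.cons PF.nil PF.nil))))) (PF.cons (PF.cons (PF.leaf (nat_lit 7564680) (nat_lit 1736591) (nat_lit 38106423) (nat_lit 13719019) [(nat_lit 0), (nat_lit 1736591), (nat_lit 0), (nat_lit 8337005)]) (PF.cons (PF.leaf (nat_lit 7897374) (nat_lit 580832) (nat_lit 37631611) (nat_lit 13622590) [(nat_lit 580832), (nat_lit 1743827), (nat_lit 0), (nat_lit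 8298469)]) (PF.cons (PF.leaf (nat_lit 8235876) (nat_lit 587393) (nat_lit 37153636) (nat_lit 13523427) [(nat_lit 587393), (nat_lit 1749803), (nat_lit 0), (nat_lit 8257747)]) (PF.cons PF.nil PF.nil)))) (PF.cons (PF.cons (PF.leaf (nat_lit 8307537) (nat_lit 1747626) (nat_lit 36726169) (nat_lit 13429365) [(nat_lit 0), (nat_lit 1747626), (nat_lit 0), (nat_lit 8215148)]) (PF.cons PF.nil PF.nil)) (PF.cons PF.nil (PF.cons PF.nil
 PF.nil)))))))) (PF.cons (PF.cons (PF.cons (PF.leaf (nat_lit 5885079) (nat_lit 3707924) (nat_lit 40700053) (nat_lit 14199582) [(nat_lit 0), (nat_lit 0), (nat_lit 3707924), (nat_lit 8501252)]) (PF.cons (PF.leaf (nat_lit 6176838) (nat_lit 525326) (nat_lit 40267115) (nat_lit 14122805) [(nat_lit 525326), (nat_lit 0), (nat_lit 3716604), (nat_lit 8476960)]) (PF.cons (PF.leaf (nat_lit 6483492) (nat_lit 538931) (nat_lit 39816655) (nat_lit 14040953) [(nat_lit 538931), (nat_lit 0), (nat_lit 3723600), (nat_lit 8449739)]) (PF.cons (PF.leaf (nat_lit 6801714) (nat_lit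 550715) (nat_lit 39353419) (nat_lit 13954715) [(nat_lit 550715), (nat_lit 0), (nat_lit 3728797), (nat_lit 8419732)]) (PF.cons (PF.leaf (nat_lit 7129206) (nat_lit 560989) (nat_lit 38880985) (nat_lit 13864636) [(nat_lit 560989), (nat_lit 0), (nat_lit 3732154), (nat_lit 8387077)]) (PF.cons (PF.leaf (nat_lit 7464153) (nat_lit 569978) (nat_lit 38402157) (nat_lit 13771169) [(nat_lit 569978), (nat_lit 0), (nat_lit 3733678), (nat_lit 8351914)]) (PF.cons (PF.leaf (nat_lit 7805060) (nat_lit 577851) (nat_lit 37919195) (nat_lit 13674710) [(nat_lit 577851), (nat_lit 0), (nat_lit 3733408), (nat_lit 8314386)]) (PF.cons PF.nil (PF.cons PF.nil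
 PF.nil))))))))) (PF.cons (PF.cons (PF.leaf (nat_lit 6587678) (nat_lit 1694498) (nat_lit 39333518) (nat_lit 13946909) [(nat_lit 0), (nat_lit 1694498), (nat_lit 3720944), (nat_lit 8412942)]) (PF.cons (PF.leaf (nat_lit 6897163) (nat_lit 550264) (nat_lit 38884025) (nat_lit 13861231) [(nat_lit 550264), (nat_lit 1706731), (nat_lit 3724572), (nat_lit 8381986)]) (PF.cons (PF.leaf (nat_lit 7217262) (nat_lit 560479) (nat_lit 38423959) (nat_lit 13771549) [(nat_lit 560479), (nat_lit 1717433), (nat_lit 3726510), (nat_lit 8348400)]) (PF.cons (PF.leaf (nat_lit 7545556) (nat_lit 569363) (nat_lit 37956569) (nat_lit 13678401) [(nat_lit 569363), (nat_lit 1726651), (nat_lit 3726747), (nat_lit 8312352)]) (PF.cons (PF.leaf (nat_lit 7880355) (nat_lit 577107) (nat_lit 37484386) (nat_lit 13582234) [(nat_lit 577107), (nat_lit 1734452), (nat_lit 3725310), (nat_lit 8274001)]) (PF.cons PF.nil (PF.cons PF.nil PF.nil))))))) (PF.cons (PF.cons (PF.leaf (nat_lit 7306997) (nat_lit 1717735) (nat_lit 37968283)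 (nat_lit 13676937) [(nat_lit 0), (nat_lit 1717735), (nat_lit 3719849), (nat_lit 8308273)]) (PF.cons (PF.leaf (nat_lit 7627716) (nat_lit 568349) (nat_lit 37513394) (nat_lit 13584448) [(nat_lit 568349), (nat_lit
 1726083), (nat_lit 3718905), (nat_lit 8271547)]) (PF.cons (PF.leaf (nat_lit 7955950) (nat_lit 576028) (nat_lit 37052741) (nat_lit 13488846) [(nat_lit 576028), (nat_lit 1733110), (nat_lit 3716396), (nat_lit 8232548)]) (PF.cons (PF.leaf (nat_lit 8289850) (nat_lit 582688) (nat_lit 36588619) (nat_lit 13390568) [(nat_lit 582688), (nat_lit 1738877), (nat_lit 3712357), (nat_lit 8191448)]) (PF.cons PF.nil PF.nil))))) (PF.cons (PF.cons (PF.leaf (nat_lit 8032656) (nat_lit 1731298) (nat_lit 36623710) (nat_lit 13394480) [(nat_lit 0), (nat_lit 1731298), (nat_lit 3706696), (nat_lit 8190029)]) (PF.cons (PF.leaf (nat_lit 8359839) (nat_lit 581220) (nat_lit 36171094) (nat_lit 13296981) [(nat_lit 581220), (nat_lit 1736417), (nat_lit 3701770), (nat_lit 8148493)]) (PF.cons PF.nil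 (PF.cons PF.nil PF.nil)))) (PF.cons (PF.cons (PF.leaf (nat_lit 8757073) (nat_lit 1737000) (nat_lit 35312715) (nat_lit 13103700) [(nat_lit 0), (nat_lit 1737000), (nat_lit 3683459), (nat_lit 8060935)]) (PF.cons PF.nil PF.nil)) (PF.cons PF.nil PF.nil)))))) (PF.cons (PF.cons (PF.cons (PF.leaf (nat_lit 7066228) (nat_lit 3697516) (nat_lit 37806270) (nat_lit 13630011) [(nat_lit 0), (nat_lit 0), (nat_lit 3697516), (nat_lit 8277498)])
 (PF.cons (PF.leaf (nat_lit 7372625) (nat_lit 553942) (nat_lit 37374931) (nat_lit 13542130) [(nat_lit 553942), (nat_lit 0), (nat_lit 3697502), (nat_lit 8242803)]) (PF.cons (PF.leaf (nat_lit 7688800) (nat_lit 563098) (nat_lit 36934400) (nat_lit 13450604) [(nat_lit 563098), (nat_lit 0), (nat_lit 3695956), (nat_lit 8205699)]) (PF.cons (PF.leaf (nat_lit 8012392) (nat_lit 570980) (nat_lit 36487715) (nat_lit 13355987) [(nat_lit 570980), (nat_lit 0), (nat_lit 3692892), (nat_lit 8166384)]) (PF.cons (PF.leaf (nat_lit 8341788) (nat_lit 577781) (nat_lit 36037215)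 (nat_lit 13258733) [(nat_lit 577781), (nat_lit 0), (nat_lit 3688350), (nat_lit 8125037)]) (PF.cons PF.nil (PF.cons PF.nil PF.nil))))))) (PF.cons (PF.cons (PF.leaf (nat_lit 7771461) (nat_lit 1713697) (nat_lit 36502925) (nat_lit 13355681) [(nat_lit 0), (nat_lit 1713697), (nat_lit 3686686), (nat_lit 8163135)]) (PF.cons (PF.leaf (nat_lit 8087565) (nat_lit 569374) (nat_lit 36068548) (nat_lit 13262069) [(nat_lit 569374), (nat_lit 1719899), (nat_lit 3682717), (nat_lit 8123485)]) (PF.cons (PF.leaf (nat_lit 8410506) (nat_lit 576169) (nat_lit 35629358) (nat_lit 13165697) [(nat_lit 576169), (nat_lit 1724903), (nat_lit 3677353), (nat_lit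
 8081808)]) (PF.cons (PF.leaf (nat_lit 8738506) (nat_lit 581996) (nat_lit 35187476) (nat_lit 13067001) [(nat_lit 581996), (nat_lit 1728774), (nat_lit 3670642), (nat_lit 8038288)]) (PF.cons PF.nil PF.nil))))) (PF.cons (PF.cons (PF.leaf (nat_lit 8480526) (nat_lit 1721803) (nat_lit 35224120) (nat_lit 13071921) [(nat_lit 0), (nat_lit 1721803), (nat_lit 3665718), (nat_lit 8037725)]) (PF.cons (PF.leaf (nat_lit 8801950) (nat_lit 580077) (nat_lit 34793418) (nat_lit 12974274) [(nat_lit 580077), (nat_lit 1725161), (nat_lit 3658336), (nat_lit 7994046)]) (PF.cons PF.nil (PF.cons PF.nil PF.nil)))) (PF.cons (PF.cons (PF.leaf (nat_lit 9186686) (nat_lit 1723132) (nat_lit 33980567) (nat_lit 12782455) [(nat_lit 0), (nat_lit 1723132), (nat_lit 3636333), (nat_lit 7903726)]) (PF.cons PF.nil PF.nil)) (PF.cons PF.nil PF.nil))))) (PF.cons (PF.cons (PF.cons (PF.leaf (nat_lit 8216988) (nat_lit 3647079) (nat_lit 35118553) (nat_lit 13036321) [(nat_lit 0), (nat_lit 0), (nat_lit 3647079), (nat_lit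 8012701)]) (PF.cons (PF.leaf (nat_lit 8528109) (nat_lit 568839) (nat_lit 34704553) (nat_lit 12942464) [(nat_lit 568839), (nat_lit 0), (nat_lit 3640672), (nat_lit 7970937)]) (PF.cons (PF.leaf (nat_lit 8845507) (nat_lit
 574865) (nat_lit 34286502) (nat_lit 12846159) [(nat_lit 574865), (nat_lit 0), (nat_lit 3633018), (nat_lit 7927363)]) (PF.cons PF.nil PF.nil)))) (PF.cons (PF.cons (PF.leaf (nat_lit 8909381) (nat_lit 1708992) (nat_lit 33904060) (nat_lit 12753625) [(nat_lit 0), (nat_lit 1708992), (nat_lit 3619920), (nat_lit 7882373)]) (PF.cons (PF.leaf (nat_lit 9224903) (nat_lit 577696) (nat_lit 33494694) (nat_lit 12656550) [(nat_lit 577696), (nat_lit 1710884), (nat_lit 3610581), (nat_lit 7837242)]) PF.nil)) (PF.cons PF.nil PF.nil))) (PF.cons (PF.cons (PF.cons (PF.leaf (nat_lit 9320337) (nat_lit 3570569) (nat_lit 32659493) (nat_lit 12441285) [(nat_lit 0), (nat_lit 0), (nat_lit 3570569), (nat_lit 7725756)]) (PF.cons PF.nil PF.nil)) (PF.cons PF.nil PF.nil)) (PF.cons PF.nil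 PF.nil)))))) (PF.cons (PF.cons (PF.cons (PF.cons (PF.leaf (nat_lit 6558002) (nat_lit 8159513) (nat_lit 37324716) (nat_lit 13465068) [(nat_lit 0), (nat_lit 0), (nat_lit 0), (nat_lit 8159513)]) (PF.cons (PF.leaf (nat_lit 6839459) (nat_lit 518756) (nat_lit 36941539) (nat_lit 13387632) [(nat_lit 518756), (nat_lit 0), (nat_lit 0), (nat_lit 8130442)]) (PF.cons (PF.leaf (nat_lit 7134597) (nat_lit 531083) (nat_lit 36543479) (nat_lit
 13305688) [(nat_lit 531083), (nat_lit 0), (nat_lit 0), (nat_lit 8098738)]) (PF.cons (PF.leaf (nat_lit 7440199) (nat_lit 541626) (nat_lit 36134706) (nat_lit 13219970) [(nat_lit 541626), (nat_lit 0), (nat_lit 0), (nat_lit 8064628)]) (PF.cons (PF.leaf (nat_lit 7754085) (nat_lit 550707) (nat_lit 35718335) (nat_lit 13131039) [(nat_lit 550707), (nat_lit 0), (nat_lit 0), (nat_lit 8028303)]) (PF.cons (PF.leaf (nat_lit 8074558) (nat_lit 558560) (nat_lit 35296783) (nat_lit 13039354) [(nat_lit 558560), (nat_lit 0), (nat_lit 0), (nat_lit 7989935)]) (PF.cons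 PF.nil (PF.cons PF.nil (PF.cons PF.nil PF.nil))))))))) (PF.cons (PF.cons (PF.leaf (nat_lit 7227529) (nat_lit 1657913) (nat_lit 36120313) (nat_lit 13213381) [(nat_lit 0), (nat_lit 1657913), (nat_lit 0), (nat_lit 8058602)]) (PF.cons (PF.leaf (nat_lit 7524601) (nat_lit 540360) (nat_lit 35723992) (nat_lit 13128780) [(nat_lit 540360), (nat_lit 1667381), (nat_lit 0), (nat_lit 8024148)]) (PF.cons (PF.leaf (nat_lit 7831350) (nat_lit 549457) (nat_lit 35318782) (nat_lit 13040767) [(nat_lit 549457), (nat_lit 1675439), (nat_lit 0), (nat_lit 7987454)]) (PF.cons (PF.leaf (nat_lit 8145441) (nat_lit 557275) (nat_lit 34907501) (nat_lit 12949884) [(nat_lit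
 557275), (nat_lit 1682155), (nat_lit 0), (nat_lit 7948722)]) (PF.cons (PF.leaf (nat_lit 8465299) (nat_lit 564011) (nat_lit 34492326) (nat_lit 12856570) [(nat_lit 564011), (nat_lit 1687610), (nat_lit 0), (nat_lit 7908130)]) (PF.cons PF.nil (PF.cons PF.nil PF.nil))))))) (PF.cons (PF.cons (PF.leaf (nat_lit 7910551) (nat_lit 1673856) (nat_lit 34920495) (nat_lit 12949452) [(nat_lit 0), (nat_lit 1673856), (nat_lit 0), (nat_lit 7945576)]) (PF.cons (PF.leaf (nat_lit 8217357) (nat_lit 555647) (nat_lit 34520369) (nat_lit 12859660) [(nat_lit 555647), (nat_lit 1679912), (nat_lit 0), (nat_lit 7906655)]) (PF.cons (PF.leaf (nat_lit 8530977) (nat_lit 562379) (nat_lit 34115438) (nat_lit 12767310) [(nat_lit 562379), (nat_lit 1684785), (nat_lit 0), (nat_lit 7865867)]) (PF.cons (PF.leaf (nat_lit 8849651) (nat_lit 568148) (nat_lit 33707673) (nat_lit 12672820) [(nat_lit 568148), (nat_lit 1688542), (nat_lit 0), (nat_lit 7823393)]) (PF.cons PF.nil PF.nil))))) (PF.cons (PF.cons (PF.leaf (nat_lit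 8598039) (nat_lit 1681607) (nat_lit 33740806) (nat_lit 12677437) [(nat_lit 0), (nat_lit 1681607), (nat_lit 0), (nat_lit 7822873)]) (PF.cons (PF.leaf (nat_lit 8910341) (nat_lit 566229) (nat_lit 33343179) (nat_lit
 12584048) [(nat_lit 566229), (nat_lit 1684883), (nat_lit 0), (nat_lit 7780351)]) (PF.cons PF.nil (PF.cons PF.nil PF.nil)))) (PF.cons (PF.cons (PF.leaf (nat_lit 9283508) (nat_lit 1682809) (nat_lit 32591393) (nat_lit 12400737) [(nat_lit 0), (nat_lit 1682809), (nat_lit 0), (nat_lit 7692722)]) (PF.cons PF.nil PF.nil)) (PF.cons PF.nil PF.nil)))))) (PF.cons (PF.cons (PF.cons (PF.leaf (nat_lit 7670606) (nat_lit 3579057) (nat_lit 34787158) (nat_lit 12907645) [(nat_lit 0), (nat_lit 0), (nat_lit 3579057), (nat_lit 7917475)]) (PF.cons (PF.leaf (nat_lit 7964350) (nat_lit 541930) (nat_lit 34407275) (nat_lit 12822327) [(nat_lit 541930), (nat_lit 0), (nat_lit 3575865), (nat_lit 7880706)]) (PF.cons (PF.leaf (nat_lit 8267061) (nat_lit 550125) (nat_lit 34019570) (nat_lit 12733893)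 [(nat_lit 550125), (nat_lit 0), (nat_lit 3571337), (nat_lit 7841879)]) (PF.cons (PF.leaf (nat_lit 8576480) (nat_lit 557100) (nat_lit 33626679) (nat_lit 12642887) [(nat_lit 557100), (nat_lit 0), (nat_lit 3565514), (nat_lit 7801214)]) (PF.cons (PF.leaf (nat_lit 8891100) (nat_lit 563050) (nat_lit 33230617) (nat_lit 12549743) [(nat_lit 563050), (nat_lit 0), (nat_lit 3558450), (nat_lit 7758899)]) PF.nil))))) (PF.cons (PF.cons
 (PF.leaf (nat_lit 8340169) (nat_lit 1665267) (nat_lit 33642421) (nat_lit 12643460) [(nat_lit 0), (nat_lit 1665267), (nat_lit 3560044), (nat_lit 7798809)]) (PF.cons (PF.leaf (nat_lit 8642428) (nat_lit 555035) (nat_lit 33260399) (nat_lit 12553759) [(nat_lit 555035), (nat_lit 1669631), (nat_lit 3553610), (nat_lit 7758188)]) (PF.cons (PF.leaf (nat_lit 8950942) (nat_lit 561027) (nat_lit 32874286) (nat_lit 12461775) [(nat_lit 561027), (nat_lit 1672920), (nat_lit 3545992), (nat_lit 7715891)]) (PF.cons PF.nil PF.nil)))) (PF.cons (PF.cons (PF.leaf (nat_lit 9012322)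 (nat_lit 1668825) (nat_lit 32520153) (nat_lit 12373347) [(nat_lit 0), (nat_lit 1668825), (nat_lit 3533070), (nat_lit 7672295)]) (PF.cons (PF.leaf (nat_lit 9319167) (nat_lit 563861) (nat_lit 32141556) (nat_lit 12280751) [(nat_lit 563861), (nat_lit 1670732), (nat_lit 3523888), (nat_lit 7628644)]) PF.nil)) (PF.cons PF.nil (PF.cons PF.nil PF.nil))))) (PF.cons (PF.cons (PF.cons (PF.leaf (nat_lit 8753257) (nat_lit 3516151) (nat_lit 32434071) (nat_lit 12342333) [(nat_lit 0), (nat_lit 0), (nat_lit 3516151), (nat_lit 7650052)]) (PF.cons (PF.leaf (nat_lit 9050730) (nat_lit 553259) (nat_lit 32069785) (nat_lit 12253289) [(nat_lit 553259),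
 (nat_lit 0), (nat_lit 3507958), (nat_lit 7608280)]) (PF.cons (PF.leaf (nat_lit 9353998) (nat_lit 558606) (nat_lit 31701988) (nat_lit 12162200) [(nat_lit 558606), (nat_lit 0), (nat_lit 3498702), (nat_lit 7565002)]) (PF.cons PF.nil PF.nil)))) (PF.cons (PF.cons (PF.leaf (nat_lit 9410152) (nat_lit 1653722) (nat_lit 31367347) (nat_lit 12075593) [(nat_lit 0), (nat_lit 1653722), (nat_lit 3484847), (nat_lit 7521227)]) (PF.cons PF.nil PF.nil)) (PF.cons PF.nil PF.nil))) (PF.cons (PF.cons (PF.cons (PF.leaf (nat_lit 9792494) (nat_lit 3434496) (nat_lit 30278623) (nat_lit 11785108) [(nat_lit 0), (nat_lit 0), (nat_lit 3434496), (nat_lit 7370795)]) (PF.cons PF.nil PF.nil)) (PF.cons PF.nil PF.nil)) (PF.cons PF.nil PF.nil))))) (PF.cons (PF.cons (PF.cons (PF.cons (PF.leaf (nat_lit 8218913) (nat_lit 7568324) (nat_lit 32170282) (nat_lit 12233555) [(nat_lit 0), (nat_lit 0), (nat_lit 0), (nat_lit 7568324)]) (PF.cons (PF.leaf (nat_lit 8500860) (nat_lit 528538) (nat_lit 31834517) (nat_lit 12152232)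 [(nat_lit 528538), (nat_lit 0), (nat_lit 0), (nat_lit 7531174)]) (PF.cons (PF.leaf (nat_lit 8791137) (nat_lit 535963) (nat_lit 31491974) (nat_lit 12068203) [(nat_lit 535963), (nat_lit 0), (nat_lit 0), (nat_lit
 7492235)]) (PF.cons (PF.leaf (nat_lit 9087562) (nat_lit 542222) (nat_lit 31144947) (nat_lit 11981986) [(nat_lit 542222), (nat_lit 0), (nat_lit 0), (nat_lit 7451737)]) (PF.cons PF.nil PF.nil))))) (PF.cons (PF.cons (PF.leaf (nat_lit 8856453) (nat_lit 1614761) (nat_lit 31160783) (nat_lit 11983223) [(nat_lit 0), (nat_lit 1614761), (nat_lit 0), (nat_lit 7450014)]) (PF.cons (PF.leaf (nat_lit 9146032) (nat_lit 539868) (nat_lit 30823316) (nat_lit 11898445) [(nat_lit 539868), (nat_lit 1617817), (nat_lit 0), (nat_lit 7409788)]) (PF.cons (PF.leaf (nat_lit 9441411) (nat_lit 545233) (nat_lit 30482279) (nat_lit 11811730) [(nat_lit 545233), (nat_lit 1619899), (nat_lit 0), (nat_lit 7368145)]) (PF.cons PF.nil PF.nil)))) (PF.cons (PF.cons (PF.leaf (nat_lit 9495816) (nat_lit 1615221)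 (nat_lit 30171169) (nat_lit 11729176) [(nat_lit 0), (nat_lit 1615221), (nat_lit 0), (nat_lit 7326007)]) (PF.cons PF.nil PF.nil)) PF.nil))) (PF.cons (PF.cons (PF.cons (PF.leaf (nat_lit 9242078) (nat_lit 3387089) (nat_lit 30100510) (nat_lit 11702235) [(nat_lit 0), (nat_lit 0), (nat_lit 3387089), (nat_lit 7306326)]) (PF.cons (PF.leaf (nat_lit 9527115) (nat_lit 537304) (nat_lit 29778367) (nat_lit 11618591) [(nat_lit
 537304), (nat_lit 0), (nat_lit 3377884), (nat_lit 7265554)]) (PF.cons PF.nil PF.nil))) (PF.cons (PF.cons (PF.leaf (nat_lit 9867478) (nat_lit 1598925) (nat_lit 29158633) (nat_lit 11452713) [(nat_lit 0), (nat_lit 1598925), (nat_lit 3353710), (nat_lit 7181609)]) PF.nil) PF.nil)) (PF.cons PF.nil PF.nil))) (PF.cons (PF.cons (PF.cons (PF.cons (PF.leaf (nat_lit 9692023) (nat_lit 6983873) (nat_lit 28058960) (nat_lit 11114358) [(nat_lit 0), (nat_lit 0), (nat_lit 0), (nat_lit 6983873)]) (PF.cons (PF.leaf (nat_lit 9965697) (nat_lit 521447) (nat_lit 27772590) (nat_lit 11036208)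 [(nat_lit 521447), (nat_lit 0), (nat_lit 0), (nat_lit 6944641)]) PF.nil)) (PF.cons PF.nil PF.nil)) (PF.cons PF.nil PF.nil)) (PF.cons PF.nil (PF.cons PF.nil (PF.cons PF.nil PF.nil))))))))

def p15_28_2_0 : pfC (piC [(nat_lit 36496589), (nat_lit 24304186), (nat_lit 18078890), (nat_lit 12207801)] (nat_lit 6792444)) p15_28_2 (nat_lit 4) (nat_lit 0) (nat_lit 1) = true := by decide +kernel
def p15_28_2_1 : pfC (piC [(nat_lit 36496589), (nat_lit 24304186), (nat_lit 18078890), (nat_lit 12207801)] (nat_lit 6792444)) p15_28_2 (nat_lit 4) (nat_lit 1) (nat_lit 2) = true := by decide +kernel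
def p15_28_2_2 : pfC (piC [(nat_lit 36496589), (nat_lit 24304186), (nat_lit 18078890), (nat_lit 12207801)] (nat_lit 6792444)) p15_28_2 (nat_lit 4) (nat_lit 2) (nat_lit 3) = true := by decide +kernel
def p15_28_2_3 : pfC (piC [(nat_lit 36496589), (nat_lit 24304186), (nat_lit 18078890), (nat_lit 12207801)] (nat_lit 6792444)) p15_28_2 (nat_lit 4) (nat_lit 3) (nat_lit 4) = true := by decide +kernel
def p15_28_2_4 : pfC (piC [(nat_lit 36496589), (nat_lit 24304186), (nat_lit 18078890), (nat_lit 12207801)] (nat_lit 6792444)) p15_28_2 (nat_lit 4) (nat_lit 4) (nat_lit 5) = true := by decide +kernel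
def p15_28_2_5 : pfC (piC [(nat_lit 36496589), (nat_lit 24304186), (nat_lit 18078890), (nat_lit 12207801)] (nat_lit 6792444)) p15_28_2 (nat_lit 4) (nat_lit 5) (nat_lit 6) = true := by decide +kernel
def p15_28_2_6 : pfC (piC [(nat_lit 36496589), (nat_lit 24304186), (nat_lit 18078890), (nat_lit 12207801)] (nat_lit 6792444)) p15_28_2 (nat_lit 4) (nat_lit 6) (nat_lit 7) = true := by decide +kernel
def p15_28_2_7 : pfC (piC [(nat_lit 36496589), (nat_lit 24304186), (nat_lit 18078890), (nat_lit 12207801)] (nat_lit 6792444)) p15_28_2 (nat_lit 4) (nat_lit 7) (nat_lit 8) = true := by decide +kernel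
def p15_28_2_8 : pfC (piC [(nat_lit 36496589), (nat_lit 24304186), (nat_lit 18078890), (nat_lit 12207801)] (nat_lit 6792444)) p15_28_2 (nat_lit 4) (nat_lit 8) (nat_lit 9) = true := by decide +kernel
def p15_28_2_9 : pfC (piC [(nat_lit 36496589), (nat_lit 24304186), (nat_lit 18078890), (nat_lit 12207801)] (nat_lit 6792444)) p15_28_2 (nat_lit 4) (nat_lit 9) (nat_lit 10) = true := by decide +kernel
def p15_28_2_10 : pfC (piC [(nat_lit 36496589), (nat_lit 24304186), (nat_lit 18078890), (nat_lit 12207801)] (nat_lit 6792444)) p15_28_2 (nat_lit 4) (nat_lit 10) (nat_lit 11) = true := by decide +kernel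
def p15_28_2_11 : pfC (piC [(nat_lit 36496589), (nat_lit 24304186), (nat_lit 18078890), (nat_lit 12207801)] (nat_lit 6792444)) p15_28_2 (nat_lit 4) (nat_lit 11) (nat_lit 12) = true := by decide +kernel
def p15_28_2_12 : pfC (piC [(nat_lit 36496589), (nat_lit 24304186), (nat_lit 18078890), (nat_lit 12207801)] (nat_lit 6792444)) p15_28_2 (nat_lit 4) (nat_lit 12) (nat_lit 13) = true := by decide +kernel
def p15_28_2_13 : pfC (piC [(nat_lit 36496589), (nat_lit 24304186), (nat_lit 18078890), (nat_lit 12207801)] (nat_lit 6792444)) p15_28_2 (nat_lit 4) (nat_lit 13) (nat_lit 14) = true := by decide +kernel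
def p15_28_2_14 : pfC (piC [(nat_lit 36496589), (nat_lit 24304186), (nat_lit 18078890), (nat_lit 12207801)] (nat_lit 6792444)) p15_28_2 (nat_lit 4) (nat_lit 14) (nat_lit 15) = true := by decide +kernel
def p15_28_2_15 : pfC (piC [(nat_lit 36496589), (nat_lit 24304186), (nat_lit 18078890), (nat_lit 12207801)] (nat_lit 6792444)) p15_28_2 (nat_lit 4) (nat_lit 15) (nat_lit 16) = true := by decide +kernel
def p15_28_2_16 : pfC (piC [(nat_lit 36496589), (nat_lit 24304186), (nat_lit 18078890), (nat_lit 12207801)] (nat_lit 6792444)) p15_28_2 (nat_lit 4) (nat_lit 16) (nat_lit 17) = true := by decide +kernel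
def p15_28_2_17 : pfC (piC [(nat_lit 36496589), (nat_lit 24304186), (nat_lit 18078890), (nat_lit 12207801)] (nat_lit 6792444)) p15_28_2 (nat_lit 4) (nat_lit 17) (nat_lit 18) = true := by decide +kernel
def p15_28_2_18 : pfC (piC [(nat_lit 36496589), (nat_lit 24304186), (nat_lit 18078890), (nat_lit 12207801)] (nat_lit 6792444)) p15_28_2 (nat_lit 4) (nat_lit 18) (nat_lit 19) = true := by decide +kernel
def p15_28_2_19 : pfC (piC [(nat_lit 36496589), (nat_lit 24304186), (nat_lit 18078890), (nat_lit 12207801)] (nat_lit 6792444)) p15_28_2 (nat_lit 4) (nat_lit 19) (nat_lit 20) = true := by decide +kernel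
def p15_28_2_20 : pfC (piC [(nat_lit 36496589), (nat_lit 24304186), (nat_lit 18078890), (nat_lit 12207801)] (nat_lit 6792444)) p15_28_2 (nat_lit 4) (nat_lit 20) (nat_lit 21) = true := by decide +kernel
def p15_28_2_21 : pfC (piC [(nat_lit 36496589), (nat_lit 24304186), (nat_lit 18078890), (nat_lit 12207801)] (nat_lit 6792444)) p15_28_2 (nat_lit 4) (nat_lit 21) (nat_lit 22) = true := by decide +kernel
def p15_28_2_22 : pfC (piC [(nat_lit 36496589), (nat_lit 24304186), (nat_lit 18078890), (nat_lit 12207801)] (nat_lit 6792444)) p15_28_2 (nat_lit 4) (nat_lit 22) (nat_lit 23) = true := by decide +kernel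
def p15_28_2_23 : pfC (piC [(nat_lit 36496589), (nat_lit 24304186), (nat_lit 18078890), (nat_lit 12207801)] (nat_lit 6792444)) p15_28_2 (nat_lit 4) (nat_lit 23) (nat_lit 24) = true := by decide +kernel
def p15_28_2_24 : pfC (piC [(nat_lit 36496589), (nat_lit 24304186), (nat_lit 18078890), (nat_lit 12207801)] (nat_lit 6792444)) p15_28_2 (nat_lit 4) (nat_lit 24) (nat_lit 25) = true := by decide +kernel
def p15_28_2_25 : pfC (piC [(nat_lit 36496589), (nat_lit 24304186), (nat_lit 18078890), (nat_lit 12207801)] (nat_lit 6792444)) p15_28_2 (nat_lit 4) (nat_lit 25) (nat_lit 26) = true := by decide +kernel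
def p15_28_2_26 : pfC (piC [(nat_lit 36496589), (nat_lit 24304186), (nat_lit 18078890), (nat_lit 12207801)] (nat_lit 6792444)) p15_28_2 (nat_lit 4) (nat_lit 26) (nat_lit 27) = true := by decide +kernel
def p15_28_2_27 : pfC (piC [(nat_lit 36496589), (nat_lit 24304186), (nat_lit 18078890), (nat_lit 12207801)] (nat_lit 6792444)) p15_28_2 (nat_lit 4) (nat_lit 27) (nat_lit 28) = true := by decide +kernel
def p15_28_2_28 : pfC (piC [(nat_lit 36496589), (nat_lit 24304186), (nat_lit 18078890), (nat_lit 12207801)] (nat_lit 6792444)) p15_28_2 (nat_lit 4) (nat_lit 28) (nat_lit 29) = true := by decide +kernel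
def p15_28_2_29 : pfC (piC [(nat_lit 36496589), (nat_lit 24304186), (nat_lit 18078890), (nat_lit 12207801)] (nat_lit 6792444)) p15_28_2 (nat_lit 4) (nat_lit 29) (nat_lit 30) = true := by decide +kernel
def p15_28_2_30 : pfC (piC [(nat_lit 36496589), (nat_lit 24304186), (nat_lit 18078890), (nat_lit 12207801)] (nat_lit 6792444)) p15_28_2 (nat_lit 4) (nat_lit 30) (nat_lit 31) = true := by decide +kernel
def p15_28_2_31 : pfC (piC [(nat_lit 36496589), (nat_lit 24304186), (nat_lit 18078890), (nat_lit 12207801)] (nat_lit 6792444)) p15_28_2 (nat_lit 4) (nat_lit 31) (nat_lit 32) = true := by decide +kernel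
def p15_28_2_32 : pfC (piC [(nat_lit 36496589), (nat_lit 24304186), (nat_lit 18078890), (nat_lit 12207801)] (nat_lit 6792444)) p15_28_2 (nat_lit 4) (nat_lit 32) (nat_lit 33) = true := by decide +kernel
def p15_28_2_33 : pfC (piC [(nat_lit 36496589), (nat_lit 24304186), (nat_lit 18078890), (nat_lit 12207801)] (nat_lit 6792444)) p15_28_2 (nat_lit 4) (nat_lit 33) (nat_lit 34) = true := by decide +kernel
def p15_28_2_34 : pfC (piC [(nat_lit 36496589), (nat_lit 24304186), (nat_lit 18078890), (nat_lit 12207801)] (nat_lit 6792444)) p15_28_2 (nat_lit 4) (nat_lit 34) (nat_lit 35) = true := by decide +kernel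
def p15_28_2_35 : pfC (piC [(nat_lit 36496589), (nat_lit 24304186), (nat_lit 18078890), (nat_lit 12207801)] (nat_lit 6792444)) p15_28_2 (nat_lit 4) (nat_lit 35) (nat_lit 36) = true := by decide +kernel
def p15_28_2_36 : pfC (piC [(nat_lit 36496589), (nat_lit 24304186), (nat_lit 18078890), (nat_lit 12207801)] (nat_lit 6792444)) p15_28_2 (nat_lit 4) (nat_lit 36) (nat_lit 37) = true := by decide +kernel
def p15_28_2_37 : pfC (piC [(nat_lit 36496589), (nat_lit 24304186), (nat_lit 18078890), (nat_lit 12207801)] (nat_lit 6792444)) p15_28_2 (nat_lit 4) (nat_lit 37) (nat_lit 38) = true := by decide +kernel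
def p15_28_2_38 : pfC (piC [(nat_lit 36496589), (nat_lit 24304186), (nat_lit 18078890), (nat_lit 12207801)] (nat_lit 6792444)) p15_28_2 (nat_lit 4) (nat_lit 38) (nat_lit 39) = true := by decide +kernel
def p15_28_2_39 : pfC (piC [(nat_lit 36496589), (nat_lit 24304186), (nat_lit 18078890), (nat_lit 12207801)] (nat_lit 6792444)) p15_28_2 (nat_lit 4) (nat_lit 39) (nat_lit 40) = true := by decide +kernel
def p15_28_2_40 : pfC (piC [(nat_lit 36496589), (nat_lit 24304186), (nat_lit 18078890), (nat_lit 12207801)] (nat_lit 6792444)) p15_28_2 (nat_lit 4) (nat_lit 40) (nat_lit 41) = true := by decide +kernel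
def p15_28_2_41 : pfC (piC [(nat_lit 36496589), (nat_lit 24304186), (nat_lit 18078890), (nat_lit 12207801)] (nat_lit 6792444)) p15_28_2 (nat_lit 4) (nat_lit 41) (nat_lit 42) = true := by decide +kernel
def p15_28_2_42 : pfC (piC [(nat_lit 36496589), (nat_lit 24304186), (nat_lit 18078890), (nat_lit 12207801)] (nat_lit 6792444)) p15_28_2 (nat_lit 4) (nat_lit 42) (nat_lit 43) = true := by decide +kernel
def p15_28_2_43 : pfC (piC [(nat_lit 36496589), (nat_lit 24304186), (nat_lit 18078890), (nat_lit 12207801)] (nat_lit 6792444)) p15_28_2 (nat_lit 4) (nat_lit 43) (nat_lit 44) = true := by decide +kernel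
def p15_28_2_44 : pfC (piC [(nat_lit 36496589), (nat_lit 24304186), (nat_lit 18078890), (nat_lit 12207801)] (nat_lit 6792444)) p15_28_2 (nat_lit 4) (nat_lit 44) (nat_lit 45) = true := by decide +kernel
def p15_28_2_45 : pfC (piC [(nat_lit 36496589), (nat_lit 24304186), (nat_lit 18078890), (nat_lit 12207801)] (nat_lit 6792444)) p15_28_2 (nat_lit 4) (nat_lit 45) (nat_lit 46) = true := by decide +kernel
def p15_28_2_46 : pfC (piC [(nat_lit 36496589), (nat_lit 24304186), (nat_lit 18078890), (nat_lit 12207801)] (nat_lit 6792444)) p15_28_2 (nat_lit 4) (nat_lit 46) (nat_lit 47) = true := by decide +kernel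
def p15_28_2_47 : pfC (piC [(nat_lit 36496589), (nat_lit 24304186), (nat_lit 18078890), (nat_lit 12207801)] (nat_lit 6792444)) p15_28_2 (nat_lit 4) (nat_lit 47) (nat_lit 48) = true := by decide +kernel
def p15_28_2_48 : pfC (piC [(nat_lit 36496589), (nat_lit 24304186), (nat_lit 18078890), (nat_lit 12207801)] (nat_lit 6792444)) p15_28_2 (nat_lit 4) (nat_lit 48) (nat_lit 49) = true := by decide +kernel
def p15_28_2_49 : pfC (piC [(nat_lit 36496589), (nat_lit 24304186), (nat_lit 18078890), (nat_lit 12207801)] (nat_lit 6792444)) p15_28_2 (nat_lit 4) (nat_lit 49) (nat_lit 50) = true := by decide +kernel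
def p15_28_2_50 : pfC (piC [(nat_lit 36496589), (nat_lit 24304186), (nat_lit 18078890), (nat_lit 12207801)] (nat_lit 6792444)) p15_28_2 (nat_lit 4) (nat_lit 50) (nat_lit 51) = true := by decide +kernel
def p15_28_2_51 : pfC (piC [(nat_lit 36496589), (nat_lit 24304186), (nat_lit 18078890), (nat_lit 12207801)] (nat_lit 6792444)) p15_28_2 (nat_lit 4) (nat_lit 51) (nat_lit 52) = true := by decide +kernel
def p15_28_2_52 : pfC (piC [(nat_lit 36496589), (nat_lit 24304186), (nat_lit 18078890), (nat_lit 12207801)] (nat_lit 6792444)) p15_28_2 (nat_lit 4) (nat_lit 52) (nat_lit 53) = true := by decide +kernel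
def p15_28_2_53 : pfC (piC [(nat_lit 36496589), (nat_lit 24304186), (nat_lit 18078890), (nat_lit 12207801)] (nat_lit 6792444)) p15_28_2 (nat_lit 4) (nat_lit 53) (nat_lit 54) = true := by decide +kernel
def p15_28_2_54 : pfC (piC [(nat_lit 36496589), (nat_lit 24304186), (nat_lit 18078890), (nat_lit 12207801)] (nat_lit 6792444)) p15_28_2 (nat_lit 4) (nat_lit 54) (nat_lit 55) = true := by decide +kernel
def p15_28_2_55 : pfC (piC [(nat_lit 36496589), (nat_lit 24304186), (nat_lit 18078890), (nat_lit 12207801)] (nat_lit 6792444)) p15_28_2 (nat_lit 4) (nat_lit 55) (nat_lit 56) = true := by decide +kernel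
def p15_28_2_56 : pfC (piC [(nat_lit 36496589), (nat_lit 24304186), (nat_lit 18078890), (nat_lit 12207801)] (nat_lit 6792444)) p15_28_2 (nat_lit 4) (nat_lit 56) (nat_lit 57) = true := by decide +kernel
def p15_28_2_57 : pfC (piC [(nat_lit 36496589), (nat_lit 24304186), (nat_lit 18078890), (nat_lit 12207801)] (nat_lit 6792444)) p15_28_2 (nat_lit 4) (nat_lit 57) (nat_lit 58) = true := by decide +kernel
def p15_28_2_58 : pfC (piC [(nat_lit 36496589), (nat_lit 24304186), (nat_lit 18078890), (nat_lit 12207801)] (nat_lit 6792444)) p15_28_2 (nat_lit 4) (nat_lit 58) (nat_lit 59) = true := by decide +kernel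
def p15_28_2_59 : pfC (piC [(nat_lit 36496589), (nat_lit 24304186), (nat_lit 18078890), (nat_lit 12207801)] (nat_lit 6792444)) p15_28_2 (nat_lit 4) (nat_lit 59) (nat_lit 60) = true := by decide +kernel
def p15_28_2_60 : pfC (piC [(nat_lit 36496589), (nat_lit 24304186), (nat_lit 18078890), (nat_lit 12207801)] (nat_lit 6792444)) p15_28_2 (nat_lit 4) (nat_lit 60) (nat_lit 61) = true := by decide +kernel
def p15_28_2_61 : pfC (piC [(nat_lit 36496589), (nat_lit 24304186), (nat_lit 18078890), (nat_lit 12207801)] (nat_lit 6792444)) p15_28_2 (nat_lit 4) (nat_lit 61) (nat_lit 62) = true := by decide +kernel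
def p15_28_2_62 : pfC (piC [(nat_lit 36496589), (nat_lit 24304186), (nat_lit 18078890), (nat_lit 12207801)] (nat_lit 6792444)) p15_28_2 (nat_lit 4) (nat_lit 62) (nat_lit 63) = true := by decide +kernel
def p15_28_2_63 : pfC (piC [(nat_lit 36496589), (nat_lit 24304186), (nat_lit 18078890), (nat_lit 12207801)] (nat_lit 6792444)) p15_28_2 (nat_lit 4) (nat_lit 63) (nat_lit 64) = true := by decide +kernel
def p15_28_2_64 : pfC (piC [(nat_lit 36496589), (nat_lit 24304186), (nat_lit 18078890), (nat_lit 12207801)] (nat_lit 6792444)) p15_28_2 (nat_lit 4) (nat_lit 64) (nat_lit 65) = true := by decide +kernel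
def p15_28_2_65 : pfC (piC [(nat_lit 36496589), (nat_lit 24304186), (nat_lit 18078890), (nat_lit 12207801)] (nat_lit 6792444)) p15_28_2 (nat_lit 4) (nat_lit 65) (nat_lit 66) = true := by decide +kernel
def p15_28_2_66 : pfC (piC [(nat_lit 36496589), (nat_lit 24304186), (nat_lit 18078890), (nat_lit 12207801)] (nat_lit 6792444)) p15_28_2 (nat_lit 4) (nat_lit 66) (nat_lit 67) = true := by decide +kernel
def p15_28_2_67 : pfC (piC [(nat_lit 36496589), (nat_lit 24304186), (nat_lit 18078890), (nat_lit 12207801)] (nat_lit 6792444)) p15_28_2 (nat_lit 4) (nat_lit 67) (nat_lit 68) = true := by decide +kernel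
def p15_28_2_68 : pfC (piC [(nat_lit 36496589), (nat_lit 24304186), (nat_lit 18078890), (nat_lit 12207801)] (nat_lit 6792444)) p15_28_2 (nat_lit 4) (nat_lit 68) (nat_lit 69) = true := by decide +kernel
def p15_28_2_69 : pfC (piC [(nat_lit 36496589), (nat_lit 24304186), (nat_lit 18078890), (nat_lit 12207801)] (nat_lit 6792444)) p15_28_2 (nat_lit 4) (nat_lit 69) (nat_lit 70) = true := by decide +kernel
def p15_28_2_70 : pfC (piC [(nat_lit 36496589), (nat_lit 24304186), (nat_lit 18078890), (nat_lit 12207801)] (nat_lit 6792444)) p15_28_2 (nat_lit 4) (nat_lit 70) (nat_lit 71) = true := by decide +kernel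
def p15_28_2_71 : pfC (piC [(nat_lit 36496589), (nat_lit 24304186), (nat_lit 18078890), (nat_lit 12207801)] (nat_lit 6792444)) p15_28_2 (nat_lit 4) (nat_lit 71) (nat_lit 72) = true := by decide +kernel
def p15_28_2_72 : pfC (piC [(nat_lit 36496589), (nat_lit 24304186), (nat_lit 18078890), (nat_lit 12207801)] (nat_lit 6792444)) p15_28_2 (nat_lit 4) (nat_lit 72) (nat_lit 73) = true := by decide +kernel
def p15_28_2_73 : pfC (piC [(nat_lit 36496589), (nat_lit 24304186), (nat_lit 18078890), (nat_lit 12207801)] (nat_lit 6792444)) p15_28_2 (nat_lit 4) (nat_lit 73) (nat_lit 74) = true := by decide +kernel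
def p15_28_2_74 : pfC (piC [(nat_lit 36496589), (nat_lit 24304186), (nat_lit 18078890), (nat_lit 12207801)] (nat_lit 6792444)) p15_28_2 (nat_lit 4) (nat_lit 74) (nat_lit 75) = true := by decide +kernel
def p15_28_2_75 : pfC (piC [(nat_lit 36496589), (nat_lit 24304186), (nat_lit 18078890), (nat_lit 12207801)] (nat_lit 6792444)) p15_28_2 (nat_lit 4) (nat_lit 75) (nat_lit 76) = true := by decide +kernel
def p15_28_2_76 : pfC (piC [(nat_lit 36496589), (nat_lit 24304186), (nat_lit 18078890), (nat_lit 12207801)] (nat_lit 6792444)) p15_28_2 (nat_lit 4) (nat_lit 76) (nat_lit 77) = true := by decide +kernel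
def p15_28_2_77 : pfC (piC [(nat_lit 36496589), (nat_lit 24304186), (nat_lit 18078890), (nat_lit 12207801)] (nat_lit 6792444)) p15_28_2 (nat_lit 4) (nat_lit 77) (nat_lit 78) = true := by decide +kernel
def p15_28_2_78 : pfC (piC [(nat_lit 36496589), (nat_lit 24304186), (nat_lit 18078890), (nat_lit 12207801)] (nat_lit 6792444)) p15_28_2 (nat_lit 4) (nat_lit 78) (nat_lit 79) = true := by decide +kernel
def p15_28_2_79 : pfC (piC [(nat_lit 36496589), (nat_lit 24304186), (nat_lit 18078890), (nat_lit 12207801)] (nat_lit 6792444)) p15_28_2 (nat_lit 4) (nat_lit 79) (nat_lit 80) = true := by decide +kernel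
def p15_28_2_80 : pfC (piC [(nat_lit 36496589), (nat_lit 24304186), (nat_lit 18078890), (nat_lit 12207801)] (nat_lit 6792444)) p15_28_2 (nat_lit 4) (nat_lit 80) (nat_lit 81) = true := by decide +kernel
def p15_28_2_81 : pfC (piC [(nat_lit 36496589), (nat_lit 24304186), (nat_lit 18078890), (nat_lit 12207801)] (nat_lit 6792444)) p15_28_2 (nat_lit 4) (nat_lit 81) (nat_lit 82) = true := by decide +kernel
def p15_28_2_82 : pfC (piC [(nat_lit 36496589), (nat_lit 24304186), (nat_lit 18078890), (nat_lit 12207801)] (nat_lit 6792444)) p15_28_2 (nat_lit 4) (nat_lit 82) (nat_lit 83) = true := by decide +kernel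
def p15_28_2_83 : pfC (piC [(nat_lit 36496589), (nat_lit 24304186), (nat_lit 18078890), (nat_lit 12207801)] (nat_lit 6792444)) p15_28_2 (nat_lit 4) (nat_lit 83) (nat_lit 84) = true := by decide +kernel
def p15_28_2_84 : pfC (piC [(nat_lit 36496589), (nat_lit 24304186), (nat_lit 18078890), (nat_lit 12207801)] (nat_lit 6792444)) p15_28_2 (nat_lit 4) (nat_lit 84) (nat_lit 85) = true := by decide +kernel
def p15_28_2_85 : pfC (piC [(nat_lit 36496589), (nat_lit 24304186), (nat_lit 18078890), (nat_lit 12207801)] (nat_lit 6792444)) p15_28_2 (nat_lit 4) (nat_lit 85) (nat_lit 86) = true := by decide +kernel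
def p15_28_2_86 : pfC (piC [(nat_lit 36496589), (nat_lit 24304186), (nat_lit 18078890), (nat_lit 12207801)] (nat_lit 6792444)) p15_28_2 (nat_lit 4) (nat_lit 86) (nat_lit 87) = true := by decide +kernel
def p15_28_2_87 : pfC (piC [(nat_lit 36496589), (nat_lit 24304186), (nat_lit 18078890), (nat_lit 12207801)] (nat_lit 6792444)) p15_28_2 (nat_lit 4) (nat_lit 87) (nat_lit 88) = true := by decide +kernel
def p15_28_2_88 : pfC (piC [(nat_lit 36496589), (nat_lit 24304186), (nat_lit 18078890), (nat_lit 12207801)] (nat_lit 6792444)) p15_28_2 (nat_lit 4) (nat_lit 88) (nat_lit 89) = true := by decide +kernel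
def p15_28_2_89 : pfC (piC [(nat_lit 36496589), (nat_lit 24304186), (nat_lit 18078890), (nat_lit 12207801)] (nat_lit 6792444)) p15_28_2 (nat_lit 4) (nat_lit 89) (nat_lit 90) = true := by decide +kernel
def p15_28_2_90 : pfC (piC [(nat_lit 36496589), (nat_lit 24304186), (nat_lit 18078890), (nat_lit 12207801)] (nat_lit 6792444)) p15_28_2 (nat_lit 4) (nat_lit 90) (nat_lit 91) = true := by decide +kernel
def p15_28_2_91 : pfC (piC [(nat_lit 36496589), (nat_lit 24304186), (nat_lit 18078890), (nat_lit 12207801)] (nat_lit 6792444)) p15_28_2 (nat_lit 4) (nat_lit 91) (nat_lit 92) = true := by decide +kernel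
def p15_28_2_92 : pfC (piC [(nat_lit 36496589), (nat_lit 24304186), (nat_lit 18078890), (nat_lit 12207801)] (nat_lit 6792444)) p15_28_2 (nat_lit 4) (nat_lit 92) (nat_lit 93) = true := by decide +kernel
def p15_28_2_93 : pfC (piC [(nat_lit 36496589), (nat_lit 24304186), (nat_lit 18078890), (nat_lit 12207801)] (nat_lit 6792444)) p15_28_2 (nat_lit 4) (nat_lit 93) (nat_lit 94) = true := by decide +kernel
def p15_28_2_94 : pfC (piC [(nat_lit 36496589), (nat_lit 24304186), (nat_lit 18078890), (nat_lit 12207801)] (nat_lit 6792444)) p15_28_2 (nat_lit 4) (nat_lit 94) (nat_lit 95) = true := by decide +kernel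
def p15_28_2_95 : pfC (piC [(nat_lit 36496589), (nat_lit 24304186), (nat_lit 18078890), (nat_lit 12207801)] (nat_lit 6792444)) p15_28_2 (nat_lit 4) (nat_lit 95) (nat_lit 96) = true := by decide +kernel
def p15_28_2_96 : pfC (piC [(nat_lit 36496589), (nat_lit 24304186), (nat_lit 18078890), (nat_lit 12207801)] (nat_lit 6792444)) p15_28_2 (nat_lit 4) (nat_lit 96) (nat_lit 97) = true := by decide +kernel
def p15_28_2_97 : pfC (piC [(nat_lit 36496589), (nat_lit 24304186), (nat_lit 18078890), (nat_lit 12207801)] (nat_lit 6792444)) p15_28_2 (nat_lit 4) (nat_lit 97) (nat_lit 98) = true := by decide +kernel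
def p15_28_2_98 : pfC (piC [(nat_lit 36496589), (nat_lit 24304186), (nat_lit 18078890), (nat_lit 12207801)] (nat_lit 6792444)) p15_28_2 (nat_lit 4) (nat_lit 98) (nat_lit 99) = true := by decide +kernel
def p15_28_2_99 : pfC (piC [(nat_lit 36496589), (nat_lit 24304186), (nat_lit 18078890), (nat_lit 12207801)] (nat_lit 6792444)) p15_28_2 (nat_lit 4) (nat_lit 99) (nat_lit 100) = true := by decide +kernel
def p15_28_2_100 : pfC (piC [(nat_lit 36496589), (nat_lit 24304186), (nat_lit 18078890), (nat_lit 12207801)] (nat_lit 6792444)) p15_28_2 (nat_lit 4) (nat_lit 100) (nat_lit 101) = true := by decide +kernel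
def p15_28_2_101 : pfC (piC [(nat_lit 36496589), (nat_lit 24304186), (nat_lit 18078890), (nat_lit 12207801)] (nat_lit 6792444)) p15_28_2 (nat_lit 4) (nat_lit 101) (nat_lit 102) = true := by decide +kernel
def p15_28_2_102 : pfC (piC [(nat_lit 36496589), (nat_lit 24304186), (nat_lit 18078890), (nat_lit 12207801)] (nat_lit 6792444)) p15_28_2 (nat_lit 4) (nat_lit 102) (nat_lit 103) = true := by decide +kernel
def p15_28_2_103 : pfC (piC [(nat_lit 36496589), (nat_lit 24304186), (nat_lit 18078890), (nat_lit 12207801)] (nat_lit 6792444)) p15_28_2 (nat_lit 4) (nat_lit 103) (nat_lit 104) = true := by decide +kernel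
def p15_28_2_104 : pfC (piC [(nat_lit 36496589), (nat_lit 24304186), (nat_lit 18078890), (nat_lit 12207801)] (nat_lit 6792444)) p15_28_2 (nat_lit 4) (nat_lit 104) (nat_lit 105) = true := by decide +kernel
def p15_28_2_105 : pfC (piC [(nat_lit 36496589), (nat_lit 24304186), (nat_lit 18078890), (nat_lit 12207801)] (nat_lit 6792444)) p15_28_2 (nat_lit 4) (nat_lit 105) (nat_lit 106) = true := by decide +kernel
def p15_28_2_106 : pfC (piC [(nat_lit 36496589), (nat_lit 24304186), (nat_lit 18078890), (nat_lit 12207801)] (nat_lit 6792444)) p15_28_2 (nat_lit 4) (nat_lit 106) (nat_lit 107) = true := by decide +kernel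
def p15_28_2_107 : pfC (piC [(nat_lit 36496589), (nat_lit 24304186), (nat_lit 18078890), (nat_lit 12207801)] (nat_lit 6792444)) p15_28_2 (nat_lit 4) (nat_lit 107) (nat_lit 108) = true := by decide +kernel
def p15_28_2_108 : pfC (piC [(nat_lit 36496589), (nat_lit 24304186), (nat_lit 18078890), (nat_lit 12207801)] (nat_lit 6792444)) p15_28_2 (nat_lit 4) (nat_lit 108) (nat_lit 109) = true := by decide +kernel
def p15_28_2_109 : pfC (piC [(nat_lit 36496589), (nat_lit 24304186), (nat_lit 18078890), (nat_lit 12207801)] (nat_lit 6792444)) p15_28_2 (nat_lit 4) (nat_lit 109) (nat_lit 110) = true := by decide +kernel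
def p15_28_2_110 : pfC (piC [(nat_lit 36496589), (nat_lit 24304186), (nat_lit 18078890), (nat_lit 12207801)] (nat_lit 6792444)) p15_28_2 (nat_lit 4) (nat_lit 110) (nat_lit 111) = true := by decide +kernel
def p15_28_2_111 : pfC (piC [(nat_lit 36496589), (nat_lit 24304186), (nat_lit 18078890), (nat_lit 12207801)] (nat_lit 6792444)) p15_28_2 (nat_lit 4) (nat_lit 111) (nat_lit 112) = true := by decide +kernel
def p15_28_2_112 : pfC (piC [(nat_lit 36496589), (nat_lit 24304186), (nat_lit 18078890), (nat_lit 12207801)] (nat_lit 6792444)) p15_28_2 (nat_lit 4) (nat_lit 112) (nat_lit 113) = true := by decide +kernel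
def p15_28_2_113 : pfC (piC [(nat_lit 36496589), (nat_lit 24304186), (nat_lit 18078890), (nat_lit 12207801)] (nat_lit 6792444)) p15_28_2 (nat_lit 4) (nat_lit 113) (nat_lit 114) = true := by decide +kernel
def p15_28_2_114 : pfC (piC [(nat_lit 36496589), (nat_lit 24304186), (nat_lit 18078890), (nat_lit 12207801)] (nat_lit 6792444)) p15_28_2 (nat_lit 4) (nat_lit 114) (nat_lit 115) = true := by decide +kernel
def p15_28_2_115 : pfC (piC [(nat_lit 36496589), (nat_lit 24304186), (nat_lit 18078890), (nat_lit 12207801)] (nat_lit 6792444)) p15_28_2 (nat_lit 4) (nat_lit 115) (nat_lit 116) = true := by decide +kernel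
def p15_28_2_116 : pfC (piC [(nat_lit 36496589), (nat_lit 24304186), (nat_lit 18078890), (nat_lit 12207801)] (nat_lit 6792444)) p15_28_2 (nat_lit 4) (nat_lit 116) (nat_lit 117) = true := by decide +kernel
def p15_28_2_117 : pfC (piC [(nat_lit 36496589), (nat_lit 24304186), (nat_lit 18078890), (nat_lit 12207801)] (nat_lit 6792444)) p15_28_2 (nat_lit 4) (nat_lit 117) (nat_lit 118) = true := by decide +kernel
def p15_28_2_118 : pfC (piC [(nat_lit 36496589), (nat_lit 24304186), (nat_lit 18078890), (nat_lit 12207801)] (nat_lit 6792444)) p15_28_2 (nat_lit 4) (nat_lit 118) (nat_lit 119) = true := by decide +kernel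
def p15_28_2_119 : pfC (piC [(nat_lit 36496589), (nat_lit 24304186), (nat_lit 18078890), (nat_lit 12207801)] (nat_lit 6792444)) p15_28_2 (nat_lit 4) (nat_lit 119) (nat_lit 120) = true := by decide +kernel
def p15_28_2_120 : pfC (piC [(nat_lit 36496589), (nat_lit 24304186), (nat_lit 18078890), (nat_lit 12207801)] (nat_lit 6792444)) p15_28_2 (nat_lit 4) (nat_lit 120) (nat_lit 121) = true := by decide +kernel
def p15_28_2_121 : pfC (piC [(nat_lit 36496589), (nat_lit 24304186), (nat_lit 18078890), (nat_lit 12207801)] (nat_lit 6792444)) p15_28_2 (nat_lit 4) (nat_lit 121) (nat_lit 122) = true := by decide +kernel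
def p15_28_2_122 : pfC (piC [(nat_lit 36496589), (nat_lit 24304186), (nat_lit 18078890), (nat_lit 12207801)] (nat_lit 6792444)) p15_28_2 (nat_lit 4) (nat_lit 122) (nat_lit 123) = true := by decide +kernel
def p15_28_2_123 : pfC (piC [(nat_lit 36496589), (nat_lit 24304186), (nat_lit 18078890), (nat_lit 12207801)] (nat_lit 6792444)) p15_28_2 (nat_lit 4) (nat_lit 123) (nat_lit 124) = true := by decide +kernel
def p15_28_2_124 : pfC (piC [(nat_lit 36496589), (nat_lit 24304186), (nat_lit 18078890), (nat_lit 12207801)] (nat_lit 6792444)) p15_28_2 (nat_lit 4) (nat_lit 124) (nat_lit 125) = true := by decide +kernel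
def p15_28_2_125 : pfC (piC [(nat_lit 36496589), (nat_lit 24304186), (nat_lit 18078890), (nat_lit 12207801)] (nat_lit 6792444)) p15_28_2 (nat_lit 4) (nat_lit 125) (nat_lit 126) = true := by decide +kernel
def p15_28_2_126 : pfC (piC [(nat_lit 36496589), (nat_lit 24304186), (nat_lit 18078890), (nat_lit 12207801)] (nat_lit 6792444)) p15_28_2 (nat_lit 4) (nat_lit 126) (nat_lit 127) = true := by decide +kernel
def p15_28_2_127 : pfC (piC [(nat_lit 36496589), (nat_lit 24304186), (nat_lit 18078890), (nat_lit 12207801)] (nat_lit 6792444)) p15_28_2 (nat_lit 4) (nat_lit 127) (nat_lit 128) = true := by decide +kernel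
def p15_28_2_128 : pfC (piC [(nat_lit 36496589), (nat_lit 24304186), (nat_lit 18078890), (nat_lit 12207801)] (nat_lit 6792444)) p15_28_2 (nat_lit 4) (nat_lit 128) (nat_lit 129) = true := by decide +kernel
def p15_28_2_129 : pfC (piC [(nat_lit 36496589), (nat_lit 24304186), (nat_lit 18078890), (nat_lit 12207801)] (nat_lit 6792444)) p15_28_2 (nat_lit 4) (nat_lit 129) (nat_lit 130) = true := by decide +kernel
def p15_28_2_130 : pfC (piC [(nat_lit 36496589), (nat_lit 24304186), (nat_lit 18078890), (nat_lit 12207801)] (nat_lit 6792444)) p15_28_2 (nat_lit 4) (nat_lit 130) (nat_lit 131) = true := by decide +kernel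
def p15_28_2_131 : pfC (piC [(nat_lit 36496589), (nat_lit 24304186), (nat_lit 18078890), (nat_lit 12207801)] (nat_lit 6792444)) p15_28_2 (nat_lit 4) (nat_lit 131) (nat_lit 132) = true := by decide +kernel
def p15_28_2_132 : pfC (piC [(nat_lit 36496589), (nat_lit 24304186), (nat_lit 18078890), (nat_lit 12207801)] (nat_lit 6792444)) p15_28_2 (nat_lit 4) (nat_lit 132) (nat_lit 133) = true := by decide +kernel
def p15_28_2_133 : pfC (piC [(nat_lit 36496589), (nat_lit 24304186), (nat_lit 18078890), (nat_lit 12207801)] (nat_lit 6792444)) p15_28_2 (nat_lit 4) (nat_lit 133) (nat_lit 134) = true := by decide +kernel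
def p15_28_2_134 : pfC (piC [(nat_lit 36496589), (nat_lit 24304186), (nat_lit 18078890), (nat_lit 12207801)] (nat_lit 6792444)) p15_28_2 (nat_lit 4) (nat_lit 134) (nat_lit 135) = true := by decide +kernel
def p15_28_2_135 : pfC (piC [(nat_lit 36496589), (nat_lit 24304186), (nat_lit 18078890), (nat_lit 12207801)] (nat_lit 6792444)) p15_28_2 (nat_lit 4) (nat_lit 135) (nat_lit 136) = true := by decide +kernel
def p15_28_2_136 : pfC (piC [(nat_lit 36496589), (nat_lit 24304186), (nat_lit 18078890), (nat_lit 12207801)] (nat_lit 6792444)) p15_28_2 (nat_lit 4) (nat_lit 136) (nat_lit 137) = true := by decide +kernel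
def p15_28_2_137 : pfC (piC [(nat_lit 36496589), (nat_lit 24304186), (nat_lit 18078890), (nat_lit 12207801)] (nat_lit 6792444)) p15_28_2 (nat_lit 4) (nat_lit 137) (nat_lit 138) = true := by decide +kernel
def p15_28_2_138 : pfC (piC [(nat_lit 36496589), (nat_lit 24304186), (nat_lit 18078890), (nat_lit 12207801)] (nat_lit 6792444)) p15_28_2 (nat_lit 4) (nat_lit 138) (nat_lit 139) = true := by decide +kernel
def p15_28_2_139 : pfC (piC [(nat_lit 36496589), (nat_lit 24304186), (nat_lit 18078890), (nat_lit 12207801)] (nat_lit 6792444)) p15_28_2 (nat_lit 4) (nat_lit 139) (nat_lit 140) = true := by decide +kernel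
def p15_28_2_140 : pfC (piC [(nat_lit 36496589), (nat_lit 24304186), (nat_lit 18078890), (nat_lit 12207801)] (nat_lit 6792444)) p15_28_2 (nat_lit 4) (nat_lit 140) (nat_lit 141) = true := by decide +kernel
def p15_28_2_141 : pfC (piC [(nat_lit 36496589), (nat_lit 24304186), (nat_lit 18078890), (nat_lit 12207801)] (nat_lit 6792444)) p15_28_2 (nat_lit 4) (nat_lit 141) (nat_lit 142) = true := by decide +kernel
def p15_28_2_142 : pfC (piC [(nat_lit 36496589), (nat_lit 24304186), (nat_lit 18078890), (nat_lit 12207801)] (nat_lit 6792444)) p15_28_2 (nat_lit 4) (nat_lit 142) (nat_lit 143) = true := by decide +kernel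
def p15_28_2_143 : pfC (piC [(nat_lit 36496589), (nat_lit 24304186), (nat_lit 18078890), (nat_lit 12207801)] (nat_lit 6792444)) p15_28_2 (nat_lit 4) (nat_lit 143) (nat_lit 144) = true := by decide +kernel
def p15_28_2_144 : pfC (piC [(nat_lit 36496589), (nat_lit 24304186), (nat_lit 18078890), (nat_lit 12207801)] (nat_lit 6792444)) p15_28_2 (nat_lit 4) (nat_lit 144) (nat_lit 145) = true := by decide +kernel
def p15_28_2_145 : pfC (piC [(nat_lit 36496589), (nat_lit 24304186), (nat_lit 18078890), (nat_lit 12207801)] (nat_lit 6792444)) p15_28_2 (nat_lit 4) (nat_lit 145) (nat_lit 146) = true := by decide +kernel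
def p15_28_2_146 : pfC (piC [(nat_lit 36496589), (nat_lit 24304186), (nat_lit 18078890), (nat_lit 12207801)] (nat_lit 6792444)) p15_28_2 (nat_lit 4) (nat_lit 146) (nat_lit 147) = true := by decide +kernel
def p15_28_2_147 : pfC (piC [(nat_lit 36496589), (nat_lit 24304186), (nat_lit 18078890), (nat_lit 12207801)] (nat_lit 6792444)) p15_28_2 (nat_lit 4) (nat_lit 147) (nat_lit 148) = true := by decide +kernel
def p15_28_2_148 : pfC (piC [(nat_lit 36496589), (nat_lit 24304186), (nat_lit 18078890), (nat_lit 12207801)] (nat_lit 6792444)) p15_28_2 (nat_lit 4) (nat_lit 148) (nat_lit 149) = true := by decide +kernel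
def p15_28_2_149 : pfC (piC [(nat_lit 36496589), (nat_lit 24304186), (nat_lit 18078890), (nat_lit 12207801)] (nat_lit 6792444)) p15_28_2 (nat_lit 4) (nat_lit 149) (nat_lit 150) = true := by decide +kernel
def p15_28_2_150 : pfC (piC [(nat_lit 36496589), (nat_lit 24304186), (nat_lit 18078890), (nat_lit 12207801)] (nat_lit 6792444)) p15_28_2 (nat_lit 4) (nat_lit 150) (nat_lit 151) = true := by decide +kernel
def p15_28_2_151 : pfC (piC [(nat_lit 36496589), (nat_lit 24304186), (nat_lit 18078890), (nat_lit 12207801)] (nat_lit 6792444)) p15_28_2 (nat_lit 4) (nat_lit 151) (nat_lit 152) = true := by decide +kernel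
def p15_28_2_152 : pfC (piC [(nat_lit 36496589), (nat_lit 24304186), (nat_lit 18078890), (nat_lit 12207801)] (nat_lit 6792444)) p15_28_2 (nat_lit 4) (nat_lit 152) (nat_lit 153) = true := by decide +kernel
def p15_28_2_153 : pfC (piC [(nat_lit 36496589), (nat_lit 24304186), (nat_lit 18078890), (nat_lit 12207801)] (nat_lit 6792444)) p15_28_2 (nat_lit 4) (nat_lit 153) (nat_lit 154) = true := by decide +kernel
def p15_28_2_154 : pfC (piC [(nat_lit 36496589), (nat_lit 24304186), (nat_lit 18078890), (nat_lit 12207801)] (nat_lit 6792444)) p15_28_2 (nat_lit 4) (nat_lit 154) (nat_lit 155) = true := by decide +kernel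
def p15_28_2_155 : pfC (piC [(nat_lit 36496589), (nat_lit 24304186), (nat_lit 18078890), (nat_lit 12207801)] (nat_lit 6792444)) p15_28_2 (nat_lit 4) (nat_lit 155) (nat_lit 156) = true := by decide +kernel
def p15_28_2_156 : pfC (piC [(nat_lit 36496589), (nat_lit 24304186), (nat_lit 18078890), (nat_lit 12207801)] (nat_lit 6792444)) p15_28_2 (nat_lit 4) (nat_lit 156) (nat_lit 157) = true := by decide +kernel
def p15_28_2_157 : pfC (piC [(nat_lit 36496589), (nat_lit 24304186), (nat_lit 18078890), (nat_lit 12207801)] (nat_lit 6792444)) p15_28_2 (nat_lit 4) (nat_lit 157) (nat_lit 158) = true := by decide +kernel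
def p15_28_2_158 : pfC (piC [(nat_lit 36496589), (nat_lit 24304186), (nat_lit 18078890), (nat_lit 12207801)] (nat_lit 6792444)) p15_28_2 (nat_lit 4) (nat_lit 158) (nat_lit 159) = true := by decide +kernel
def p15_28_2_159 : pfC (piC [(nat_lit 36496589), (nat_lit 24304186), (nat_lit 18078890), (nat_lit 12207801)] (nat_lit 6792444)) p15_28_2 (nat_lit 4) (nat_lit 159) (nat_lit 160) = true := by decide +kernel
def p15_28_2_160 : pfC (piC [(nat_lit 36496589), (nat_lit 24304186), (nat_lit 18078890), (nat_lit 12207801)] (nat_lit 6792444)) p15_28_2 (nat_lit 4) (nat_lit 160) (nat_lit 161) = true := by decide +kernel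
def p15_28_2_161 : pfC (piC [(nat_lit 36496589), (nat_lit 24304186), (nat_lit 18078890), (nat_lit 12207801)] (nat_lit 6792444)) p15_28_2 (nat_lit 4) (nat_lit 161) (nat_lit 162) = true := by decide +kernel
def p15_28_2_162 : pfC (piC [(nat_lit 36496589), (nat_lit 24304186), (nat_lit 18078890), (nat_lit 12207801)] (nat_lit 6792444)) p15_28_2 (nat_lit 4) (nat_lit 162) (nat_lit 163) = true := by decide +kernel
def p15_28_2_163 : pfC (piC [(nat_lit 36496589), (nat_lit 24304186), (nat_lit 18078890), (nat_lit 12207801)] (nat_lit 6792444)) p15_28_2 (nat_lit 4) (nat_lit 163) (nat_lit 164) = true := by decide +kernel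
def p15_28_2_164 : pfC (piC [(nat_lit 36496589), (nat_lit 24304186), (nat_lit 18078890), (nat_lit 12207801)] (nat_lit 6792444)) p15_28_2 (nat_lit 4) (nat_lit 164) (nat_lit 165) = true := by decide +kernel
def p15_28_2_165 : pfC (piC [(nat_lit 36496589), (nat_lit 24304186), (nat_lit 18078890), (nat_lit 12207801)] (nat_lit 6792444)) p15_28_2 (nat_lit 4) (nat_lit 165) (nat_lit 166) = true := by decide +kernel
def p15_28_2_166 : pfC (piC [(nat_lit 36496589), (nat_lit 24304186), (nat_lit 18078890), (nat_lit 12207801)] (nat_lit 6792444)) p15_28_2 (nat_lit 4) (nat_lit 166) (nat_lit 167) = true := by decide +kernel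
def p15_28_2_167 : pfC (piC [(nat_lit 36496589), (nat_lit 24304186), (nat_lit 18078890), (nat_lit 12207801)] (nat_lit 6792444)) p15_28_2 (nat_lit 4) (nat_lit 167) (nat_lit 168) = true := by decide +kernel
def p15_28_2_168 : pfC (piC [(nat_lit 36496589), (nat_lit 24304186), (nat_lit 18078890), (nat_lit 12207801)] (nat_lit 6792444)) p15_28_2 (nat_lit 4) (nat_lit 168) (nat_lit 169) = true := by decide +kernel
def p15_28_2_169 : pfC (piC [(nat_lit 36496589), (nat_lit 24304186), (nat_lit 18078890), (nat_lit 12207801)] (nat_lit 6792444)) p15_28_2 (nat_lit 4) (nat_lit 169) (nat_lit 170) = true := by decide +kernel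
def p15_28_2_170 : pfC (piC [(nat_lit 36496589), (nat_lit 24304186), (nat_lit 18078890), (nat_lit 12207801)] (nat_lit 6792444)) p15_28_2 (nat_lit 4) (nat_lit 170) (nat_lit 171) = true := by decide +kernel
def p15_28_2_171 : pfC (piC [(nat_lit 36496589), (nat_lit 24304186), (nat_lit 18078890), (nat_lit 12207801)] (nat_lit 6792444)) p15_28_2 (nat_lit 4) (nat_lit 171) (nat_lit 172) = true := by decide +kernel
def p15_28_2_172 : pfC (piC [(nat_lit 36496589), (nat_lit 24304186), (nat_lit 18078890), (nat_lit 12207801)] (nat_lit 6792444)) p15_28_2 (nat_lit 4) (nat_lit 172) (nat_lit 173) = true := by decide +kernel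
def p15_28_2_173 : pfC (piC [(nat_lit 36496589), (nat_lit 24304186), (nat_lit 18078890), (nat_lit 12207801)] (nat_lit 6792444)) p15_28_2 (nat_lit 4) (nat_lit 173) (nat_lit 174) = true := by decide +kernel
def p15_28_2_174 : pfC (piC [(nat_lit 36496589), (nat_lit 24304186), (nat_lit 18078890), (nat_lit 12207801)] (nat_lit 6792444)) p15_28_2 (nat_lit 4) (nat_lit 174) (nat_lit 175) = true := by decide +kernel
def p15_28_2_175 : pfC (piC [(nat_lit 36496589), (nat_lit 24304186), (nat_lit 18078890), (nat_lit 12207801)] (nat_lit 6792444)) p15_28_2 (nat_lit 4) (nat_lit 175) (nat_lit 176) = true := by decide +kernel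
def p15_28_2_176 : pfC (piC [(nat_lit 36496589), (nat_lit 24304186), (nat_lit 18078890), (nat_lit 12207801)] (nat_lit 6792444)) p15_28_2 (nat_lit 4) (nat_lit 176) (nat_lit 177) = true := by decide +kernel
def p15_28_2_177 : pfC (piC [(nat_lit 36496589), (nat_lit 24304186), (nat_lit 18078890), (nat_lit 12207801)] (nat_lit 6792444)) p15_28_2 (nat_lit 4) (nat_lit 177) (nat_lit 178) = true := by decide +kernel
def p15_28_2_178 : pfC (piC [(nat_lit 36496589), (nat_lit 24304186), (nat_lit 18078890), (nat_lit 12207801)] (nat_lit 6792444)) p15_28_2 (nat_lit 4) (nat_lit 178) (nat_lit 179) = true := by decide +kernel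
def p15_28_2_179 : pfC (piC [(nat_lit 36496589), (nat_lit 24304186), (nat_lit 18078890), (nat_lit 12207801)] (nat_lit 6792444)) p15_28_2 (nat_lit 4) (nat_lit 179) (nat_lit 180) = true := by decide +kernel
def p15_28_2_180 : pfC (piC [(nat_lit 36496589), (nat_lit 24304186), (nat_lit 18078890), (nat_lit 12207801)] (nat_lit 6792444)) p15_28_2 (nat_lit 4) (nat_lit 180) (nat_lit 181) = true := by decide +kernel
def p15_28_2_181 : pfC (piC [(nat_lit 36496589), (nat_lit 24304186), (nat_lit 18078890), (nat_lit 12207801)] (nat_lit 6792444)) p15_28_2 (nat_lit 4) (nat_lit 181) (nat_lit 182) = true := by decide +kernel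
def p15_28_2_182 : pfC (piC [(nat_lit 36496589), (nat_lit 24304186), (nat_lit 18078890), (nat_lit 12207801)] (nat_lit 6792444)) p15_28_2 (nat_lit 4) (nat_lit 182) (nat_lit 183) = true := by decide +kernel
def p15_28_2_183 : pfC (piC [(nat_lit 36496589), (nat_lit 24304186), (nat_lit 18078890), (nat_lit 12207801)] (nat_lit 6792444)) p15_28_2 (nat_lit 4) (nat_lit 183) (nat_lit 184) = true := by decide +kernel
def p15_28_2_184 : pfC (piC [(nat_lit 36496589), (nat_lit 24304186), (nat_lit 18078890), (nat_lit 12207801)] (nat_lit 6792444)) p15_28_2 (nat_lit 4) (nat_lit 184) (nat_lit 185) = true := by decide +kernel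
def p15_28_2_185 : pfC (piC [(nat_lit 36496589), (nat_lit 24304186), (nat_lit 18078890), (nat_lit 12207801)] (nat_lit 6792444)) p15_28_2 (nat_lit 4) (nat_lit 185) (nat_lit 186) = true := by decide +kernel
def p15_28_2_186 : pfC (piC [(nat_lit 36496589), (nat_lit 24304186), (nat_lit 18078890), (nat_lit 12207801)] (nat_lit 6792444)) p15_28_2 (nat_lit 4) (nat_lit 186) (nat_lit 187) = true := by decide +kernel
def p15_28_2_187 : pfC (piC [(nat_lit 36496589), (nat_lit 24304186), (nat_lit 18078890), (nat_lit 12207801)] (nat_lit 6792444)) p15_28_2 (nat_lit 4) (nat_lit 187) (nat_lit 188) = true := by decide +kernel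
def p15_28_2_188 : pfC (piC [(nat_lit 36496589), (nat_lit 24304186), (nat_lit 18078890), (nat_lit 12207801)] (nat_lit 6792444)) p15_28_2 (nat_lit 4) (nat_lit 188) (nat_lit 189) = true := by decide +kernel
def p15_28_2_189 : pfC (piC [(nat_lit 36496589), (nat_lit 24304186), (nat_lit 18078890), (nat_lit 12207801)] (nat_lit 6792444)) p15_28_2 (nat_lit 4) (nat_lit 189) (nat_lit 190) = true := by decide +kernel
def p15_28_2_190 : pfC (piC [(nat_lit 36496589), (nat_lit 24304186), (nat_lit 18078890), (nat_lit 12207801)] (nat_lit 6792444)) p15_28_2 (nat_lit 4) (nat_lit 190) (nat_lit 191) = true := by decide +kernel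
def p15_28_2_191 : pfC (piC [(nat_lit 36496589), (nat_lit 24304186), (nat_lit 18078890), (nat_lit 12207801)] (nat_lit 6792444)) p15_28_2 (nat_lit 4) (nat_lit 191) (nat_lit 192) = true := by decide +kernel
def p15_28_2_192 : pfC (piC [(nat_lit 36496589), (nat_lit 24304186), (nat_lit 18078890), (nat_lit 12207801)] (nat_lit 6792444)) p15_28_2 (nat_lit 4) (nat_lit 192) (nat_lit 193) = true := by decide +kernel
def p15_28_2_193 : pfC (piC [(nat_lit 36496589), (nat_lit 24304186), (nat_lit 18078890), (nat_lit 12207801)] (nat_lit 6792444)) p15_28_2 (nat_lit 4) (nat_lit 193) (nat_lit 194) = true := by decide +kernel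
def p15_28_2_194 : pfC (piC [(nat_lit 36496589), (nat_lit 24304186), (nat_lit 18078890), (nat_lit 12207801)] (nat_lit 6792444)) p15_28_2 (nat_lit 4) (nat_lit 194) (nat_lit 195) = true := by decide +kernel
def p15_28_2_195 : pfC (piC [(nat_lit 36496589), (nat_lit 24304186), (nat_lit 18078890), (nat_lit 12207801)] (nat_lit 6792444)) p15_28_2 (nat_lit 4) (nat_lit 195) (nat_lit 196) = true := by decide +kernel
def p15_28_2_196 : pfC (piC [(nat_lit 36496589), (nat_lit 24304186), (nat_lit 18078890), (nat_lit 12207801)] (nat_lit 6792444)) p15_28_2 (nat_lit 4) (nat_lit 196) (nat_lit 197) = true := by decide +kernel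
def p15_28_2_197 : pfC (piC [(nat_lit 36496589), (nat_lit 24304186), (nat_lit 18078890), (nat_lit 12207801)] (nat_lit 6792444)) p15_28_2 (nat_lit 4) (nat_lit 197) (nat_lit 198) = true := by decide +kernel
def p15_28_2_198 : pfC (piC [(nat_lit 36496589), (nat_lit 24304186), (nat_lit 18078890), (nat_lit 12207801)] (nat_lit 6792444)) p15_28_2 (nat_lit 4) (nat_lit 198) (nat_lit 199) = true := by decide +kernel
def p15_28_2_199 : pfC (piC [(nat_lit 36496589), (nat_lit 24304186), (nat_lit 18078890), (nat_lit 12207801)] (nat_lit 6792444)) p15_28_2 (nat_lit 4) (nat_lit 199) (nat_lit 200) = true := by decide +kernel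
def p15_28_2_200 : pfC (piC [(nat_lit 36496589), (nat_lit 24304186), (nat_lit 18078890), (nat_lit 12207801)] (nat_lit 6792444)) p15_28_2 (nat_lit 4) (nat_lit 200) (nat_lit 201) = true := by decide +kernel
def p15_28_2_201 : pfC (piC [(nat_lit 36496589), (nat_lit 24304186), (nat_lit 18078890), (nat_lit 12207801)] (nat_lit 6792444)) p15_28_2 (nat_lit 4) (nat_lit 201) (nat_lit 202) = true := by decide +kernel
def p15_28_2_202 : pfC (piC [(nat_lit 36496589), (nat_lit 24304186), (nat_lit 18078890), (nat_lit 12207801)] (nat_lit 6792444)) p15_28_2 (nat_lit 4) (nat_lit 202) (nat_lit 203) = true := by decide +kernel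
def p15_28_2_203 : pfC (piC [(nat_lit 36496589), (nat_lit 24304186), (nat_lit 18078890), (nat_lit 12207801)] (nat_lit 6792444)) p15_28_2 (nat_lit 4) (nat_lit 203) (nat_lit 204) = true := by decide +kernel
def p15_28_2_204 : pfC (piC [(nat_lit 36496589), (nat_lit 24304186), (nat_lit 18078890), (nat_lit 12207801)] (nat_lit 6792444)) p15_28_2 (nat_lit 4) (nat_lit 204) (nat_lit 205) = true := by decide +kernel
def p15_28_2_205 : pfC (piC [(nat_lit 36496589), (nat_lit 24304186), (nat_lit 18078890), (nat_lit 12207801)] (nat_lit 6792444)) p15_28_2 (nat_lit 4) (nat_lit 205) (nat_lit 206) = true := by decide +kernel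
def p15_28_2_206 : pfC (piC [(nat_lit 36496589), (nat_lit 24304186), (nat_lit 18078890), (nat_lit 12207801)] (nat_lit 6792444)) p15_28_2 (nat_lit 4) (nat_lit 206) (nat_lit 207) = true := by decide +kernel
def p15_28_2_207 : pfC (piC [(nat_lit 36496589), (nat_lit 24304186), (nat_lit 18078890), (nat_lit 12207801)] (nat_lit 6792444)) p15_28_2 (nat_lit 4) (nat_lit 207) (nat_lit 208) = true := by decide +kernel
def p15_28_2_208 : pfC (piC [(nat_lit 36496589), (nat_lit 24304186), (nat_lit 18078890), (nat_lit 12207801)] (nat_lit 6792444)) p15_28_2 (nat_lit 4) (nat_lit 208) (nat_lit 209) = true := by decide +kernel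
def p15_28_2_209 : pfC (piC [(nat_lit 36496589), (nat_lit 24304186), (nat_lit 18078890), (nat_lit 12207801)] (nat_lit 6792444)) p15_28_2 (nat_lit 4) (nat_lit 209) (nat_lit 210) = true := by decide +kernel
def p15_28_2_210 : pfC (piC [(nat_lit 36496589), (nat_lit 24304186), (nat_lit 18078890), (nat_lit 12207801)] (nat_lit 6792444)) p15_28_2 (nat_lit 4) (nat_lit 210) (nat_lit 211) = true := by decide +kernel
def p15_28_2_211 : pfC (piC [(nat_lit 36496589), (nat_lit 24304186), (nat_lit 18078890), (nat_lit 12207801)] (nat_lit 6792444)) p15_28_2 (nat_lit 4) (nat_lit 211) (nat_lit 212) = true := by decide +kernel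
def p15_28_2_212 : pfC (piC [(nat_lit 36496589), (nat_lit 24304186), (nat_lit 18078890), (nat_lit 12207801)] (nat_lit 6792444)) p15_28_2 (nat_lit 4) (nat_lit 212) (nat_lit 213) = true := by decide +kernel
def p15_28_2_213 : pfC (piC [(nat_lit 36496589), (nat_lit 24304186), (nat_lit 18078890), (nat_lit 12207801)] (nat_lit 6792444)) p15_28_2 (nat_lit 4) (nat_lit 213) (nat_lit 214) = true := by decide +kernel
def p15_28_2_214 : pfC (piC [(nat_lit 36496589), (nat_lit 24304186), (nat_lit 18078890), (nat_lit 12207801)] (nat_lit 6792444)) p15_28_2 (nat_lit 4) (nat_lit 214) (nat_lit 215) = true := by decide +kernel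
def p15_28_2_215 : pfC (piC [(nat_lit 36496589), (nat_lit 24304186), (nat_lit 18078890), (nat_lit 12207801)] (nat_lit 6792444)) p15_28_2 (nat_lit 4) (nat_lit 215) (nat_lit 216) = true := by decide +kernel
def p15_28_2_216 : pfC (piC [(nat_lit 36496589), (nat_lit 24304186), (nat_lit 18078890), (nat_lit 12207801)] (nat_lit 6792444)) p15_28_2 (nat_lit 4) (nat_lit 216) (nat_lit 217) = true := by decide +kernel
def p15_28_2_217 : pfC (piC [(nat_lit 36496589), (nat_lit 24304186), (nat_lit 18078890), (nat_lit 12207801)] (nat_lit 6792444)) p15_28_2 (nat_lit 4) (nat_lit 217) (nat_lit 218) = true := by decide +kernel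
def p15_28_2_218 : pfC (piC [(nat_lit 36496589), (nat_lit 24304186), (nat_lit 18078890), (nat_lit 12207801)] (nat_lit 6792444)) p15_28_2 (nat_lit 4) (nat_lit 218) (nat_lit 219) = true := by decide +kernel
def p15_28_2_219 : pfC (piC [(nat_lit 36496589), (nat_lit 24304186), (nat_lit 18078890), (nat_lit 12207801)] (nat_lit 6792444)) p15_28_2 (nat_lit 4) (nat_lit 219) (nat_lit 220) = true := by decide +kernel
def p15_28_2_220 : pfC (piC [(nat_lit 36496589), (nat_lit 24304186), (nat_lit 18078890), (nat_lit 12207801)] (nat_lit 6792444)) p15_28_2 (nat_lit 4) (nat_lit 220) (nat_lit 221) = true := by decide +kernel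
def p15_28_2_221 : pfC (piC [(nat_lit 36496589), (nat_lit 24304186), (nat_lit 18078890), (nat_lit 12207801)] (nat_lit 6792444)) p15_28_2 (nat_lit 4) (nat_lit 221) (nat_lit 222) = true := by decide +kernel
def p15_28_2_222 : pfC (piC [(nat_lit 36496589), (nat_lit 24304186), (nat_lit 18078890), (nat_lit 12207801)] (nat_lit 6792444)) p15_28_2 (nat_lit 4) (nat_lit 222) (nat_lit 223) = true := by decide +kernel
def p15_28_2_223 : pfC (piC [(nat_lit 36496589), (nat_lit 24304186), (nat_lit 18078890), (nat_lit 12207801)] (nat_lit 6792444)) p15_28_2 (nat_lit 4) (nat_lit 223) (nat_lit 224) = true := by decide +kernel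
def p15_28_2_224 : pfC (piC [(nat_lit 36496589), (nat_lit 24304186), (nat_lit 18078890), (nat_lit 12207801)] (nat_lit 6792444)) p15_28_2 (nat_lit 4) (nat_lit 224) (nat_lit 225) = true := by decide +kernel
theorem p15_28_2_T : PfS (PiF n15_28.reverse (nat_lit 6792444)) p15_28_2 (nat_lit 4) [] 0 :=
  pftab_of (los := [(nat_lit 36496589), (nat_lit 24304186), (nat_lit 18078890), (nat_lit 12207801)]) (by decide +kernel) (hi := (nat_lit 225)) (PfP.trans (PfP.trans (PfP.trans (PfP.trans (PfP.trans (PfP.trans (PfP.trans (PfP.trans (PfP.trans (PfP.trans (PfP.trans (PfP.trans (PfP.trans (PfP.trans (PfP.trans (PfP.trans (PfP.trans (PfP.trans (PfP.trans (PfP.trans (PfP.trans (PfP.trans (PfP.trans (PfP.trans (PfP.trans (PfP.trans (PfP.trans (PfP.trans (PfP.trans (PfP.trans (PfP.trans (PfP.trans (PfP.trans (PfP.trans (PfP.trans (PfP.trans (PfP.trans (PfP.trans (PfP.trans (PfP.trans (PfP.trans (PfP.trans (PfP.trans (PfP.trans (PfP.trans (PfP.trans (PfP.trans (PfP.trans (PfP.trans (PfP.trans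 (PfP.trans (PfP.trans (PfP.trans (PfP.trans (PfP.trans (PfP.trans (PfP.trans (PfP.trans (PfP.trans (PfP.trans (PfP.trans (PfP.trans (PfP.trans (PfP.trans (PfP.trans (PfP.trans (PfP.trans (PfP.trans (PfP.trans (PfP.trans (PfP.trans (PfP.trans (PfP.trans (PfP.trans (PfP.trans (PfP.trans (PfP.trans (PfP.trans (PfP.trans (PfP.trans (PfP.trans (PfP.trans (PfP.trans (PfP.trans (PfP.trans (PfP.trans (PfP.trans (PfP.trans (PfP.trans (PfP.trans (PfP.trans (PfP.trans (PfP.trans (PfP.trans (PfP.trans (PfP.trans (PfP.trans (PfP.trans (PfP.trans (PfP.trans (PfP.trans (PfP.trans (PfP.trans (PfP.trans (PfP.trans (PfP.trans (PfP.trans (PfP.trans (PfP.trans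
 (PfP.trans (PfP.trans (PfP.trans (PfP.trans (PfP.trans (PfP.trans (PfP.trans (PfP.trans (PfP.trans (PfP.trans (PfP.trans (PfP.trans (PfP.trans (PfP.trans (PfP.trans (PfP.trans (PfP.trans (PfP.trans (PfP.trans (PfP.trans (PfP.trans (PfP.trans (PfP.trans (PfP.trans (PfP.trans (PfP.trans (PfP.trans (PfP.trans (PfP.trans (PfP.trans (PfP.trans (PfP.trans (PfP.trans (PfP.trans (PfP.trans (PfP.trans (PfP.trans (PfP.trans (PfP.trans (PfP.trans (PfP.trans (PfP.trans (PfP.trans (PfP.trans (PfP.trans (PfP.trans (PfP.trans (PfP.trans (PfP.trans (PfP.trans (PfP.trans (PfP.trans (PfP.trans (PfP.trans (PfP.trans (PfP.trans (PfP.trans (PfP.trans (PfP.trans (PfP.trans (PfP.trans (PfP.trans (PfP.trans (PfP.trans (PfP.trans (PfP.trans (PfP.trans (PfP.trans (PfP.trans (PfP.trans (PfP.trans (PfP.trans (PfP.trans (PfP.trans (PfP.trans (PfP.trans (PfP.trans (PfP.trans (PfP.trans (PfP.trans (PfP.trans (PfP.trans (PfP.trans (PfP.trans (PfP.trans (PfP.trans (PfP.trans (PfP.trans (PfP.trans (PfP.trans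 (PfP.trans (PfP.trans (PfP.trans (PfP.trans (PfP.trans (PfP.trans (PfP.trans (PfP.trans (PfP.trans (PfP.trans (PfP.trans (PfP.trans (PfP.trans (PfP.trans (PfP.trans (PfP.trans (PfP.trans (PfP.trans (PfP.trans
 (PfP.trans (PfP.trans (PfP.trans (PfP.trans (PfP.trans (PfP.trans (pfC_sound p15_28_2_0) (pfC_sound p15_28_2_1)) (pfC_sound p15_28_2_2)) (pfC_sound p15_28_2_3)) (pfC_sound p15_28_2_4)) (pfC_sound p15_28_2_5)) (pfC_sound p15_28_2_6)) (pfC_sound p15_28_2_7)) (pfC_sound p15_28_2_8)) (pfC_sound p15_28_2_9)) (pfC_sound p15_28_2_10)) (pfC_sound p15_28_2_11)) (pfC_sound p15_28_2_12)) (pfC_sound p15_28_2_13)) (pfC_sound p15_28_2_14)) (pfC_sound p15_28_2_15)) (pfC_sound p15_28_2_16)) (pfC_sound p15_28_2_17)) (pfC_sound p15_28_2_18)) (pfC_sound p15_28_2_19)) (pfC_sound p15_28_2_20)) (pfC_sound p15_28_2_21)) (pfC_sound p15_28_2_22)) (pfC_sound p15_28_2_23)) (pfC_sound p15_28_2_24)) (pfC_sound p15_28_2_25)) (pfC_sound p15_28_2_26)) (pfC_sound p15_28_2_27)) (pfC_sound p15_28_2_28))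 (pfC_sound p15_28_2_29)) (pfC_sound p15_28_2_30)) (pfC_sound p15_28_2_31)) (pfC_sound p15_28_2_32)) (pfC_sound p15_28_2_33)) (pfC_sound p15_28_2_34)) (pfC_sound p15_28_2_35)) (pfC_sound p15_28_2_36)) (pfC_sound p15_28_2_37)) (pfC_sound p15_28_2_38)) (pfC_sound p15_28_2_39)) (pfC_sound p15_28_2_40)) (pfC_sound p15_28_2_41)) (pfC_sound p15_28_2_42)) (pfC_sound p15_28_2_43)) (pfC_sound p15_28_2_44)) (pfC_sound
 p15_28_2_45)) (pfC_sound p15_28_2_46)) (pfC_sound p15_28_2_47)) (pfC_sound p15_28_2_48)) (pfC_sound p15_28_2_49)) (pfC_sound p15_28_2_50)) (pfC_sound p15_28_2_51)) (pfC_sound p15_28_2_52)) (pfC_sound p15_28_2_53)) (pfC_sound p15_28_2_54)) (pfC_sound p15_28_2_55)) (pfC_sound p15_28_2_56)) (pfC_sound p15_28_2_57)) (pfC_sound p15_28_2_58)) (pfC_sound p15_28_2_59)) (pfC_sound p15_28_2_60)) (pfC_sound p15_28_2_61)) (pfC_sound p15_28_2_62)) (pfC_sound p15_28_2_63)) (pfC_sound p15_28_2_64)) (pfC_sound p15_28_2_65)) (pfC_sound p15_28_2_66)) (pfC_sound p15_28_2_67)) (pfC_sound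 p15_28_2_68)) (pfC_sound p15_28_2_69)) (pfC_sound p15_28_2_70)) (pfC_sound p15_28_2_71)) (pfC_sound p15_28_2_72)) (pfC_sound p15_28_2_73)) (pfC_sound p15_28_2_74)) (pfC_sound p15_28_2_75)) (pfC_sound p15_28_2_76)) (pfC_sound p15_28_2_77)) (pfC_sound p15_28_2_78)) (pfC_sound p15_28_2_79)) (pfC_sound p15_28_2_80)) (pfC_sound p15_28_2_81)) (pfC_sound p15_28_2_82)) (pfC_sound p15_28_2_83)) (pfC_sound p15_28_2_84)) (pfC_sound p15_28_2_85)) (pfC_sound p15_28_2_86)) (pfC_sound p15_28_2_87)) (pfC_sound p15_28_2_88)) (pfC_sound p15_28_2_89)) (pfC_sound p15_28_2_90)) (pfC_sound p15_28_2_91)) (pfC_sound p15_28_2_92)) (pfC_sound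
 p15_28_2_93)) (pfC_sound p15_28_2_94)) (pfC_sound p15_28_2_95)) (pfC_sound p15_28_2_96)) (pfC_sound p15_28_2_97)) (pfC_sound p15_28_2_98)) (pfC_sound p15_28_2_99)) (pfC_sound p15_28_2_100)) (pfC_sound p15_28_2_101)) (pfC_sound p15_28_2_102)) (pfC_sound p15_28_2_103)) (pfC_sound p15_28_2_104)) (pfC_sound p15_28_2_105)) (pfC_sound p15_28_2_106)) (pfC_sound p15_28_2_107)) (pfC_sound p15_28_2_108)) (pfC_sound p15_28_2_109)) (pfC_sound p15_28_2_110)) (pfC_sound p15_28_2_111)) (pfC_sound p15_28_2_112)) (pfC_sound p15_28_2_113)) (pfC_sound p15_28_2_114)) (pfC_sound p15_28_2_115)) (pfC_sound p15_28_2_116)) (pfC_sound p15_28_2_117)) (pfC_sound p15_28_2_118)) (pfC_sound p15_28_2_119)) (pfC_sound p15_28_2_120)) (pfC_sound p15_28_2_121)) (pfC_sound p15_28_2_122)) (pfC_sound p15_28_2_123)) (pfC_sound p15_28_2_124)) (pfC_sound p15_28_2_125)) (pfC_sound p15_28_2_126)) (pfC_sound p15_28_2_127)) (pfC_sound p15_28_2_128)) (pfC_sound p15_28_2_129)) (pfC_sound p15_28_2_130)) (pfC_sound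 p15_28_2_131)) (pfC_sound p15_28_2_132)) (pfC_sound p15_28_2_133)) (pfC_sound p15_28_2_134)) (pfC_sound p15_28_2_135)) (pfC_sound p15_28_2_136)) (pfC_sound p15_28_2_137)) (pfC_sound p15_28_2_138)) (pfC_sound
 p15_28_2_139)) (pfC_sound p15_28_2_140)) (pfC_sound p15_28_2_141)) (pfC_sound p15_28_2_142)) (pfC_sound p15_28_2_143)) (pfC_sound p15_28_2_144)) (pfC_sound p15_28_2_145)) (pfC_sound p15_28_2_146)) (pfC_sound p15_28_2_147)) (pfC_sound p15_28_2_148)) (pfC_sound p15_28_2_149)) (pfC_sound p15_28_2_150)) (pfC_sound p15_28_2_151)) (pfC_sound p15_28_2_152)) (pfC_sound p15_28_2_153)) (pfC_sound p15_28_2_154)) (pfC_sound p15_28_2_155)) (pfC_sound p15_28_2_156)) (pfC_sound p15_28_2_157)) (pfC_sound p15_28_2_158)) (pfC_sound p15_28_2_159)) (pfC_sound p15_28_2_160)) (pfC_sound p15_28_2_161)) (pfC_sound p15_28_2_162)) (pfC_sound p15_28_2_163)) (pfC_sound p15_28_2_164)) (pfC_sound p15_28_2_165)) (pfC_sound p15_28_2_166)) (pfC_sound p15_28_2_167)) (pfC_sound p15_28_2_168)) (pfC_sound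 p15_28_2_169)) (pfC_sound p15_28_2_170)) (pfC_sound p15_28_2_171)) (pfC_sound p15_28_2_172)) (pfC_sound p15_28_2_173)) (pfC_sound p15_28_2_174)) (pfC_sound p15_28_2_175)) (pfC_sound p15_28_2_176)) (pfC_sound p15_28_2_177)) (pfC_sound p15_28_2_178)) (pfC_sound p15_28_2_179)) (pfC_sound p15_28_2_180)) (pfC_sound p15_28_2_181)) (pfC_sound p15_28_2_182)) (pfC_sound p15_28_2_183)) (pfC_sound p15_28_2_184)) (pfC_sound
 p15_28_2_185)) (pfC_sound p15_28_2_186)) (pfC_sound p15_28_2_187)) (pfC_sound p15_28_2_188)) (pfC_sound p15_28_2_189)) (pfC_sound p15_28_2_190)) (pfC_sound p15_28_2_191)) (pfC_sound p15_28_2_192)) (pfC_sound p15_28_2_193)) (pfC_sound p15_28_2_194)) (pfC_sound p15_28_2_195)) (pfC_sound p15_28_2_196)) (pfC_sound p15_28_2_197)) (pfC_sound p15_28_2_198)) (pfC_sound p15_28_2_199)) (pfC_sound p15_28_2_200)) (pfC_sound p15_28_2_201)) (pfC_sound p15_28_2_202)) (pfC_sound p15_28_2_203)) (pfC_sound p15_28_2_204)) (pfC_sound p15_28_2_205)) (pfC_sound p15_28_2_206)) (pfC_sound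 p15_28_2_207)) (pfC_sound p15_28_2_208)) (pfC_sound p15_28_2_209)) (pfC_sound p15_28_2_210)) (pfC_sound p15_28_2_211)) (pfC_sound p15_28_2_212)) (pfC_sound p15_28_2_213)) (pfC_sound p15_28_2_214)) (pfC_sound p15_28_2_215)) (pfC_sound p15_28_2_216)) (pfC_sound p15_28_2_217)) (pfC_sound p15_28_2_218)) (pfC_sound p15_28_2_219)) (pfC_sound p15_28_2_220)) (pfC_sound p15_28_2_221)) (pfC_sound p15_28_2_222)) (pfC_sound p15_28_2_223)) (pfC_sound p15_28_2_224)) (by decide +kernel)

def z15_28_2 : zOK yB15_28 (nat_lit 2) (nat_lit 600) (nat_lit 750) (nat_lit 6792444) (nat_lit 5041812) = true := by decide +kernel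
def g15_28_2 : gOK yB15_28.x P15_28 (nat_lit 1409) (q15_28 :: r15_28) (nat_lit 2) (nat_lit 600) (nat_lit 3) (nat_lit 750) (nat_lit 12712500) (nat_lit 12712500) (nat_lit 12712500) (nat_lit 12712500) [(nat_lit 800), (nat_lit 1600)] = true := by decide +kernel
def v15_28_2 : ivC P15_28 s15_28 w15_28 n15_28 (nat_lit 4) (nat_lit 4750) (nat_lit 2) (nat_lit 600) f168_1_600 f176_1_600 (nat_lit 3) (nat_lit 750) f168_1_750 f176_1_750 (nat_lit 6792444) (nat_lit 5041812) p15_28_2 = true := by decide +kernel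
def p15_28_3 : PF := (PF.cons (PF.cons (PF.cons (PF.cons (PF.leaf (nat_lit 2950010) (nat_lit 18582479) (nat_lit 48526333) (nat_lit 18582479) [(nat_lit 0), (nat_lit 0), (nat_lit 0), (nat_lit 0)]) (PF.cons (PF.leaf (nat_lit 3149080) (nat_lit 367898) (nat_lit 48206570) (nat_lit 18534343) [(nat_lit 367898), (nat_lit 0), (nat_lit 0), (nat_lit 0)]) (PF.cons (PF.leaf (nat_lit 3382791) (nat_lit 398931) (nat_lit 47834448) (nat_lit 18476501) [(nat_lit 398931), (nat_lit 0), (nat_lit 0), (nat_lit 0)]) (PF.cons (PF.leaf (nat_lit 3643965) (nat_lit 426044) (nat_lit 47420719) (nat_lit 18409960) [(nat_lit 426044), (nat_lit 0), (nat_lit 0), (nat_lit 0)]) (PF.cons (PF.leaf (nat_lit 3928090) (nat_lit 450076) (nat_lit 46973116) (nat_lit 18335390) [(nat_lit 450076), (nat_lit 0), (nat_lit 0), (nat_lit 0)]) (PF.cons (PF.leaf (nat_lit 4231751) (nat_lit 471570) (nat_lit 46497652) (nat_lit 18253309) [(nat_lit 471570), (nat_lit 0), (nat_lit 0), (nat_lit 0)]) (PF.cons (PF.leaf (nat_lit 4552050)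 (nat_lit 490902) (nat_lit 45999231) (nat_lit 18164165) [(nat_lit 490902), (nat_lit 0), (nat_lit 0), (nat_lit 0)]) (PF.cons (PF.leaf (nat_lit 4886648) (nat_lit 508352) (nat_lit 45481973) (nat_lit 18068371) [(nat_lit 508352), (nat_lit 0),
 (nat_lit 0), (nat_lit 0)]) (PF.cons (PF.leaf (nat_lit 5233430) (nat_lit 524134) (nat_lit 44949412) (nat_lit 17966326) [(nat_lit 524134), (nat_lit 0), (nat_lit 0), (nat_lit 0)]) (PF.cons (PF.leaf (nat_lit 5590626) (nat_lit 538418) (nat_lit 44404618) (nat_lit 17858425) [(nat_lit 538418), (nat_lit 0), (nat_lit 0), (nat_lit 0)]) (PF.cons (PF.leaf (nat_lit 5956588) (nat_lit 551346) (nat_lit 43850279) (nat_lit 17745064) [(nat_lit 551346), (nat_lit 0), (nat_lit 0), (nat_lit 0)]) (PF.cons PF.nil (PF.cons PF.nil (PF.cons PF.nil PF.nil)))))))))))))) (PF.cons (PF.cons (PF.leaf (nat_lit 3541652) (nat_lit 1459309) (nat_lit 47268891) (nat_lit 18380611) [(nat_lit 0), (nat_lit 1459309), (nat_lit 0), (nat_lit 0)]) (PF.cons (PF.leaf (nat_lit 3792569)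 (nat_lit 433929) (nat_lit 46865398) (nat_lit 18312645) [(nat_lit 433929), (nat_lit 1496839), (nat_lit 0), (nat_lit 0)]) (PF.cons (PF.leaf (nat_lit 4068801) (nat_lit 457200) (nat_lit 46425735) (nat_lit 18236192) [(nat_lit 457200), (nat_lit 1532482), (nat_lit 0), (nat_lit 0)]) (PF.cons (PF.leaf (nat_lit 4365568) (nat_lit 477934) (nat_lit 45957203) (nat_lit 18152028) [(nat_lit 477934), (nat_lit 1565777), (nat_lit 0), (nat_lit 0)]) (PF.cons (PF.leaf
 (nat_lit 4679607) (nat_lit 496539) (nat_lit 45465353) (nat_lit 18060747) [(nat_lit 496539), (nat_lit 1596555), (nat_lit 0), (nat_lit 0)]) (PF.cons (PF.leaf (nat_lit 5008303) (nat_lit 513304) (nat_lit 44954648) (nat_lit 17962855) [(nat_lit 513304), (nat_lit 1624785), (nat_lit 0), (nat_lit 0)]) (PF.cons (PF.leaf (nat_lit 5349452) (nat_lit 528447) (nat_lit 44428800) (nat_lit 17858815) [(nat_lit 528447), (nat_lit 1650514), (nat_lit 0), (nat_lit 0)]) (PF.cons (PF.leaf (nat_lit 5701139) (nat_lit 542137) (nat_lit 43890966) (nat_lit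 17749060) [(nat_lit 542137), (nat_lit 1673823), (nat_lit 0), (nat_lit 0)]) (PF.cons (PF.leaf (nat_lit 6061712) (nat_lit 554514) (nat_lit 43343871) (nat_lit 17634013) [(nat_lit 554514), (nat_lit 1694815), (nat_lit 0), (nat_lit 0)]) (PF.cons PF.nil (PF.cons PF.nil (PF.cons PF.nil PF.nil)))))))))))) (PF.cons (PF.cons (PF.leaf (nat_lit 4212880) (nat_lit 1554689) (nat_lit 45868097) (nat_lit 18131336) [(nat_lit 0), (nat_lit 1554689), (nat_lit 0), (nat_lit 0)]) (PF.cons (PF.leaf (nat_lit 4500719) (nat_lit 483149) (nat_lit 45410327) (nat_lit 18045956) [(nat_lit 483149), (nat_lit 1584689), (nat_lit 0), (nat_lit 0)]) (PF.cons (PF.leaf (nat_lit 4807423) (nat_lit 501229)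
 (nat_lit 44927805) (nat_lit 17953223) [(nat_lit 501229), (nat_lit 1612662), (nat_lit 0), (nat_lit 0)]) (PF.cons (PF.leaf (nat_lit 5129488) (nat_lit 517459) (nat_lit 44425718) (nat_lit 17853801) [(nat_lit 517459), (nat_lit 1638457), (nat_lit 0), (nat_lit 0)]) (PF.cons (PF.leaf (nat_lit 5464450) (nat_lit 532075) (nat_lit 43908176) (nat_lit 17748249) [(nat_lit 532075), (nat_lit 1662041), (nat_lit 0), (nat_lit 0)]) (PF.cons (PF.leaf (nat_lit 5810291) (nat_lit 545261) (nat_lit 43378555) (nat_lit 17637065) [(nat_lit 545261), (nat_lit 1683442), (nat_lit 0), (nat_lit 0)]) (PF.cons (PF.leaf (nat_lit 6165210) (nat_lit 557159) (nat_lit 42839701) (nat_lit 17520710) [(nat_lit 557159), (nat_lit 1702722), (nat_lit 0), (nat_lit 0)]) (PF.cons (PF.leaf (nat_lit 6527704) (nat_lit 567887) (nat_lit 42294049) (nat_lit 17399621) [(nat_lit 567887), (nat_lit 1719965), (nat_lit 0), (nat_lit 0)]) (PF.cons PF.nil (PF.cons PF.nil PF.nil)))))))))) (PF.cons (PF.cons (PF.leaf (nat_lit 4937088) (nat_lit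 1627216) (nat_lit 44385721) (nat_lit 17841442) [(nat_lit 0), (nat_lit 1627216), (nat_lit 0), (nat_lit 0)]) (PF.cons (PF.leaf (nat_lit 5251129) (nat_lit 520813) (nat_lit 43894682) (nat_lit 17741156) [(nat_lit
 520813), (nat_lit 1650719), (nat_lit 0), (nat_lit 0)]) (PF.cons (PF.leaf (nat_lit 5579209) (nat_lit 535026) (nat_lit 43387243) (nat_lit 17634638) [(nat_lit 535026), (nat_lit 1672292), (nat_lit 0), (nat_lit 0)]) (PF.cons (PF.leaf (nat_lit 5918659) (nat_lit 547800) (nat_lit 42867205) (nat_lit 17522485) [(nat_lit 547800), (nat_lit 1691906), (nat_lit 0), (nat_lit 0)]) (PF.cons (PF.leaf (nat_lit 6267581) (nat_lit 559293) (nat_lit 42337657) (nat_lit 17405220) [(nat_lit 559293), (nat_lit 1709586), (nat_lit 0), (nat_lit 0)]) (PF.cons (PF.leaf (nat_lit 6624321) (nat_lit 569631) (nat_lit 41801173) (nat_lit 17283322) [(nat_lit 569631), (nat_lit 1725386), (nat_lit 0), (nat_lit 0)]) (PF.cons PF.nil (PF.cons PF.nil (PF.cons PF.nil PF.nil))))))))) (PF.cons (PF.cons (PF.leaf (nat_lit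 5694857) (nat_lit 1681374) (nat_lit 42865401) (nat_lit 17517911) [(nat_lit 0), (nat_lit 1681374), (nat_lit 0), (nat_lit 0)]) (PF.cons (PF.leaf (nat_lit 6026946) (nat_lit 549750) (nat_lit 42356530) (nat_lit 17405310) [(nat_lit 549750), (nat_lit 1699305), (nat_lit 0), (nat_lit 0)]) (PF.cons (PF.leaf (nat_lit 6369354) (nat_lit 560919) (nat_lit 41837478) (nat_lit 17287571) [(nat_lit 560919), (nat_lit 1715480), (nat_lit
 0), (nat_lit 0)]) (PF.cons (PF.leaf (nat_lit 6719993) (nat_lit 570931) (nat_lit 41311076) (nat_lit 17165236) [(nat_lit 570931), (nat_lit 1729926), (nat_lit 0), (nat_lit 0)]) (PF.cons (PF.leaf (nat_lit 7077342) (nat_lit 579898) (nat_lit 40779663) (nat_lit 17038787) [(nat_lit 579898), (nat_lit 1742692), (nat_lit 0), (nat_lit 0)]) (PF.cons PF.nil (PF.cons PF.nil PF.nil))))))) (PF.cons (PF.cons (PF.leaf (nat_lit 6471446) (nat_lit 1720471) (nat_lit 41338719) (nat_lit 17167734) [(nat_lit 0), (nat_lit 1720471), (nat_lit 0), (nat_lit 0)]) (PF.cons (PF.leaf (nat_lit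 6815245) (nat_lit 571785) (nat_lit 40823444) (nat_lit 17045370) [(nat_lit 571785), (nat_lit 1733642), (nat_lit 0), (nat_lit 0)]) (PF.cons (PF.leaf (nat_lit 7166457) (nat_lit 580489) (nat_lit 40302640) (nat_lit 16918906) [(nat_lit 580489), (nat_lit 1745257), (nat_lit 0), (nat_lit 0)]) (PF.cons (PF.leaf (nat_lit 7523403) (nat_lit 588243) (nat_lit 39778433) (nat_lit 16788824) [(nat_lit 588243), (nat_lit 1755364), (nat_lit 0), (nat_lit 0)]) (PF.cons PF.nil PF.nil))))) (PF.cons (PF.cons (PF.leaf (nat_lit 7255561) (nat_lit 1747118) (nat_lit 39828517) (nat_lit 16797584) [(nat_lit 0), (nat_lit 1747118), (nat_lit 0), (nat_lit 0)])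
 (PF.cons (PF.leaf (nat_lit 7606125) (nat_lit 588230) (nat_lit 39315249) (nat_lit 16667860) [(nat_lit 588230), (nat_lit 1756245), (nat_lit 0), (nat_lit 0)]) (PF.cons PF.nil (PF.cons PF.nil PF.nil)))) (PF.cons (PF.cons (PF.leaf (nat_lit 8038560) (nat_lit 1763456) (nat_lit 38351057) (nat_lit 16413559) [(nat_lit 0), (nat_lit 1763456), (nat_lit 0), (nat_lit 0)]) (PF.cons PF.nil PF.nil)) (PF.cons PF.nil PF.nil))))))))) (PF.cons (PF.cons (PF.cons (PF.leaf (nat_lit 4078560) (nat_lit 3583957) (nat_lit 45484577) (nat_lit 18040278) [(nat_lit 0), (nat_lit 0), (nat_lit 3583957), (nat_lit 0)]) (PF.cons (PF.leaf (nat_lit 4337291) (nat_lit 458187) (nat_lit 45076200) (nat_lit 17962723) [(nat_lit 458187), (nat_lit 0), (nat_lit 3611701), (nat_lit 0)]) (PF.cons (PF.leaf (nat_lit 4619702) (nat_lit 479427) (nat_lit 44634924) (nat_lit 17876679) [(nat_lit 479427), (nat_lit 0), (nat_lit 3638353), (nat_lit 0)]) (PF.cons (PF.leaf (nat_lit 4920918) (nat_lit 498094) (nat_lit 44168142) (nat_lit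 17783174) [(nat_lit 498094), (nat_lit 0), (nat_lit 3663213), (nat_lit 0)]) (PF.cons (PF.leaf (nat_lit 5237717) (nat_lit 514659) (nat_lit 43681327) (nat_lit 17682979) [(nat_lit 514659), (nat_lit 0), (nat_lit 3685866),
 (nat_lit 0)]) (PF.cons (PF.leaf (nat_lit 5567542) (nat_lit 529447) (nat_lit 43178769) (nat_lit 17576724) [(nat_lit 529447), (nat_lit 0), (nat_lit 3706081), (nat_lit 0)]) (PF.cons (PF.leaf (nat_lit 5908267) (nat_lit 542692) (nat_lit 42663957) (nat_lit 17464956) [(nat_lit 542692), (nat_lit 0), (nat_lit 3723743), (nat_lit 0)]) (PF.cons (PF.leaf (nat_lit 6258101) (nat_lit 554574) (nat_lit 42139801) (nat_lit 17348170) [(nat_lit 554574), (nat_lit 0), (nat_lit 3738816), (nat_lit 0)]) (PF.cons (PF.leaf (nat_lit 6615489) (nat_lit 565237) (nat_lit 41608770) (nat_lit 17226826) [(nat_lit 565237), (nat_lit 0), (nat_lit 3751314), (nat_lit 0)]) (PF.cons PF.nil PF.nil)))))))))) (PF.cons (PF.cons (PF.leaf (nat_lit 4756336) (nat_lit 1600437) (nat_lit 44089492) (nat_lit 17762977)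 [(nat_lit 0), (nat_lit 1600437), (nat_lit 3655905), (nat_lit 0)]) (PF.cons (PF.leaf (nat_lit 5047973) (nat_lit 501273) (nat_lit 43635813) (nat_lit 17669287) [(nat_lit 501273), (nat_lit 1625123), (nat_lit 3677315), (nat_lit 0)]) (PF.cons (PF.leaf (nat_lit 5356901) (nat_lit 517532) (nat_lit 43160328) (nat_lit 17568601) [(nat_lit 517532), (nat_lit 1647937), (nat_lit 3696879), (nat_lit 0)]) (PF.cons (PF.leaf (nat_lit 5679695)
 (nat_lit 531968) (nat_lit 42668093) (nat_lit 17461722) [(nat_lit 531968), (nat_lit 1668787), (nat_lit 3714303), (nat_lit 0)]) (PF.cons (PF.leaf (nat_lit 6013988) (nat_lit 544847) (nat_lit 42163026) (nat_lit 17349300) [(nat_lit 544847), (nat_lit 1687666), (nat_lit 3729429), (nat_lit 0)]) (PF.cons (PF.leaf (nat_lit 6357778) (nat_lit 556364) (nat_lit 41648285) (nat_lit 17231896) [(nat_lit 556364), (nat_lit 1704619), (nat_lit 3742189), (nat_lit 0)]) (PF.cons (PF.leaf (nat_lit 6709443) (nat_lit 566671) (nat_lit 41126486) (nat_lit 17110009) [(nat_lit 566671),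 (nat_lit 1719710), (nat_lit 3752578), (nat_lit 0)]) (PF.cons PF.nil (PF.cons PF.nil PF.nil))))))))) (PF.cons (PF.cons (PF.leaf (nat_lit 5478224) (nat_lit 1657908) (nat_lit 42636468) (nat_lit 17450685) [(nat_lit 0), (nat_lit 1657908), (nat_lit 3705842), (nat_lit 0)]) (PF.cons (PF.leaf (nat_lit 5792660) (nat_lit 533801) (nat_lit 42156676) (nat_lit 17343820) [(nat_lit 533801), (nat_lit 1676933), (nat_lit 3720649), (nat_lit 0)]) (PF.cons (PF.leaf (nat_lit 6119786) (nat_lit 546422) (nat_lit 41662890) (nat_lit 17231254) [(nat_lit 546422), (nat_lit 1694208), (nat_lit 3733406), (nat_lit 0)]) (PF.cons (PF.leaf (nat_lit 6457050) (nat_lit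
 557656) (nat_lit 41158713) (nat_lit 17113653) [(nat_lit 557656), (nat_lit 1709732), (nat_lit 3744011), (nat_lit 0)]) (PF.cons (PF.leaf (nat_lit 6802608) (nat_lit 567673) (nat_lit 40647020) (nat_lit 16991582) [(nat_lit 567673), (nat_lit 1723541), (nat_lit 3752435), (nat_lit 0)]) (PF.cons (PF.leaf (nat_lit 7154919) (nat_lit 576604) (nat_lit 40130172) (nat_lit 16865540) [(nat_lit 576604), (nat_lit 1735694), (nat_lit 3758690), (nat_lit 0)]) (PF.cons PF.nil PF.nil))))))) (PF.cons (PF.cons (PF.leaf (nat_lit 6226784) (nat_lit 1699821) (nat_lit 41162860) (nat_lit 17110713) [(nat_lit 0), (nat_lit 1699821), (nat_lit 3735776), (nat_lit 0)]) (PF.cons (PF.leaf (nat_lit 6556535) (nat_lit 558439) (nat_lit 40670616) (nat_lit 16993398) [(nat_lit 558439), (nat_lit 1713995), (nat_lit 3744371), (nat_lit 0)]) (PF.cons (PF.leaf (nat_lit 6895507) (nat_lit 568238) (nat_lit 40170037) (nat_lit 16871540) [(nat_lit 568238), (nat_lit 1726597), (nat_lit 3750965), (nat_lit 0)]) (PF.cons (PF.leaf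 (nat_lit 7241700) (nat_lit 576939) (nat_lit 39663753) (nat_lit 16745701) [(nat_lit 576939), (nat_lit 1737662), (nat_lit 3755551), (nat_lit 0)]) (PF.cons (PF.leaf (nat_lit 7593681) (nat_lit 584658) (nat_lit 39153902)
 (nat_lit 16616376) [(nat_lit 584658), (nat_lit 1747245), (nat_lit 3758162), (nat_lit 0)]) PF.nil))))) (PF.cons (PF.cons (PF.leaf (nat_lit 6989012) (nat_lit 1728927) (nat_lit 39695038) (nat_lit 16749825) [(nat_lit 0), (nat_lit 1728927), (nat_lit 3748239), (nat_lit 0)]) (PF.cons (PF.leaf (nat_lit 7328362) (nat_lit 576887) (nat_lit 39200212) (nat_lit 16624561) [(nat_lit 576887), (nat_lit 1738968), (nat_lit 3751276), (nat_lit 0)]) (PF.cons (PF.leaf (nat_lit 7674248) (nat_lit 584425) (nat_lit 38701199) (nat_lit 16495778) [(nat_lit 584425), (nat_lit 1747627), (nat_lit 3752474), (nat_lit 0)]) (PF.cons PF.nil PF.nil)))) (PF.cons (PF.cons (PF.leaf (nat_lit 7755074) (nat_lit 1747439) (nat_lit 38251648) (nat_lit 16374154) [(nat_lit 0), (nat_lit 1747439), (nat_lit 3745811),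 (nat_lit 0)]) (PF.cons (PF.leaf (nat_lit 8099608) (nat_lit 590354) (nat_lit 37761360) (nat_lit 16243175) [(nat_lit 590354), (nat_lit 1753980), (nat_lit 3744022), (nat_lit 0)]) PF.nil)) (PF.cons PF.nil (PF.cons PF.nil PF.nil)))))))) (PF.cons (PF.cons (PF.cons (PF.leaf (nat_lit 5284475) (nat_lit 3680855) (nat_lit 42371777) (nat_lit 17375324) [(nat_lit 0), (nat_lit 0), (nat_lit 3680855), (nat_lit 0)]) (PF.cons (PF.leaf
 (nat_lit 5577841) (nat_lit 514954) (nat_lit 41926989) (nat_lit 17275464) [(nat_lit 514954), (nat_lit 0), (nat_lit 3695702), (nat_lit 0)]) (PF.cons (PF.leaf (nat_lit 5887181) (nat_lit 529635) (nat_lit 41462906) (nat_lit 17169015) [(nat_lit 529635), (nat_lit 0), (nat_lit 3708810), (nat_lit 0)]) (PF.cons (PF.leaf (nat_lit 6209103) (nat_lit 542528) (nat_lit 40984399) (nat_lit 17056878) [(nat_lit 542528), (nat_lit 0), (nat_lit 3719974), (nat_lit 0)]) (PF.cons (PF.leaf (nat_lit 6541282) (nat_lit 553918) (nat_lit 40495179) (nat_lit 16939765) [(nat_lit 553918),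 (nat_lit 0), (nat_lit 3729097), (nat_lit 0)]) (PF.cons (PF.leaf (nat_lit 6881839) (nat_lit 564011) (nat_lit 39998190) (nat_lit 16818271) [(nat_lit 564011), (nat_lit 0), (nat_lit 3736146), (nat_lit 0)]) (PF.cons (PF.leaf (nat_lit 7229219) (nat_lit 572965) (nat_lit 39495832) (nat_lit 16692917) [(nat_lit 572965), (nat_lit 0), (nat_lit 3741135), (nat_lit 0)]) (PF.cons PF.nil (PF.cons PF.nil PF.nil))))))))) (PF.cons (PF.cons (PF.leaf (nat_lit 6000413) (nat_lit 1677595) (nat_lit 40960181) (nat_lit 17047298) [(nat_lit 0), (nat_lit 1677595), (nat_lit 3711869), (nat_lit 0)]) (PF.cons (PF.leaf (nat_lit 6313761) (nat_lit 543145) (nat_lit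
 40494904) (nat_lit 16935898) [(nat_lit 543145), (nat_lit 1692916), (nat_lit 3720974), (nat_lit 0)]) (PF.cons (PF.leaf (nat_lit 6638651) (nat_lit 554393) (nat_lit 40017611) (nat_lit 16819313) [(nat_lit 554393), (nat_lit 1706640), (nat_lit 3728229), (nat_lit 0)]) (PF.cons (PF.leaf (nat_lit 6972605) (nat_lit 564306) (nat_lit 39531697) (nat_lit 16698250) [(nat_lit 564306), (nat_lit 1718785), (nat_lit 3733579), (nat_lit 0)]) (PF.cons (PF.leaf (nat_lit 7313872) (nat_lit 573060) (nat_lit 39039836) (nat_lit 16573295) [(nat_lit 573060), (nat_lit 1729399), (nat_lit 3737019), (nat_lit 0)]) (PF.cons (PF.leaf (nat_lit 7661005) (nat_lit 580792) (nat_lit 38544190) (nat_lit 16444956) [(nat_lit 580792), (nat_lit 1738544), (nat_lit 3738578), (nat_lit 0)]) (PF.cons PF.nil PF.nil))))))) (PF.cons (PF.cons (PF.leaf (nat_lit 6737469) (nat_lit 1709498) (nat_lit 39540805) (nat_lit 16696876) [(nat_lit 0), (nat_lit 1709498), (nat_lit 3726067), (nat_lit 0)]) (PF.cons (PF.leaf (nat_lit 7063865)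 (nat_lit 564153) (nat_lit 39067169) (nat_lit 16576690) [(nat_lit 564153), (nat_lit 1720559), (nat_lit 3729839), (nat_lit 0)]) (PF.cons (PF.leaf (nat_lit 7398550) (nat_lit 572775) (nat_lit 38586673) (nat_lit 16452495)
 [(nat_lit 572775), (nat_lit 1730203), (nat_lit 3731842), (nat_lit 0)]) (PF.cons (PF.leaf (nat_lit 7739608) (nat_lit 580354) (nat_lit 38101751) (nat_lit 16324866) [(nat_lit 580354), (nat_lit 1738474), (nat_lit 3732092), (nat_lit 0)]) (PF.cons PF.nil PF.nil))))) (PF.cons (PF.cons (PF.leaf (nat_lit 7484089) (nat_lit 1730417) (nat_lit 38135813) (nat_lit 16330436) [(nat_lit 0), (nat_lit 1730417), (nat_lit 3725654), (nat_lit 0)]) (PF.cons (PF.leaf (nat_lit 7818354) (nat_lit 579576) (nat_lit 37662391) (nat_lit 16203852) [(nat_lit 579576), (nat_lit 1737867), (nat_lit 3724695), (nat_lit 0)]) (PF.cons (PF.leaf (nat_lit 8158421) (nat_lit 586116) (nat_lit 37185818) (nat_lit 16074256) [(nat_lit 586116), (nat_lit 1744080), (nat_lit 3722130), (nat_lit 0)]) (PF.cons PF.nil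 PF.nil)))) (PF.cons (PF.cons (PF.leaf (nat_lit 8231664) (nat_lit 1742269) (nat_lit 36760515) (nat_lit 15953519) [(nat_lit 0), (nat_lit 1742269), (nat_lit 3712849), (nat_lit 0)]) (PF.cons PF.nil PF.nil)) (PF.cons PF.nil PF.nil)))))) (PF.cons (PF.cons (PF.cons (PF.leaf (nat_lit 6503434) (nat_lit 3703212) (nat_lit 39361573) (nat_lit 16637603) [(nat_lit 0), (nat_lit 0), (nat_lit 3703212), (nat_lit 0)]) (PF.cons (PF.leaf (nat_lit
 6814548) (nat_lit 549526) (nat_lit 38912867) (nat_lit 16523374) [(nat_lit 549526), (nat_lit 0), (nat_lit 3707681), (nat_lit 0)]) (PF.cons (PF.leaf (nat_lit 7136236) (nat_lit 559581) (nat_lit 38453778) (nat_lit 16404441) [(nat_lit 559581), (nat_lit 0), (nat_lit 3710476), (nat_lit 0)]) (PF.cons (PF.leaf (nat_lit 7466080) (nat_lit 568352) (nat_lit 37987495) (nat_lit 16281536) [(nat_lit 568352), (nat_lit 0), (nat_lit 3711574), (nat_lit 0)]) (PF.cons (PF.leaf (nat_lit 7802405) (nat_lit 576021) (nat_lit 37516497) (nat_lit 16155252) [(nat_lit 576021),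 (nat_lit 0), (nat_lit 3710992), (nat_lit 0)]) (PF.cons PF.nil (PF.cons PF.nil PF.nil))))))) (PF.cons (PF.cons (PF.leaf (nat_lit 7227372) (nat_lit 1712185) (nat_lit 38000690) (nat_lit 16281622) [(nat_lit 0), (nat_lit 1712185), (nat_lit 3704771), (nat_lit 0)]) (PF.cons (PF.leaf (nat_lit 7549684) (nat_lit 567447) (nat_lit 37546734) (nat_lit 16160058) [(nat_lit 567447), (nat_lit 1720653), (nat_lit 3704639), (nat_lit 0)]) (PF.cons (PF.leaf (nat_lit 7879481) (nat_lit 575053) (nat_lit 37087092) (nat_lit 16034960) [(nat_lit 575053), (nat_lit 1727838), (nat_lit 3702938), (nat_lit 0)]) (PF.cons (PF.leaf (nat_lit 8214927) (nat_lit 581667) (nat_lit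
 36624022) (nat_lit 15906903) [(nat_lit 581667), (nat_lit 1733790), (nat_lit 3699697), (nat_lit 0)]) (PF.cons PF.nil PF.nil))))) (PF.cons (PF.cons (PF.leaf (nat_lit 7957636) (nat_lit 1726369) (nat_lit 36660142) (nat_lit 15913738) [(nat_lit 0), (nat_lit 1726369), (nat_lit 3694064), (nat_lit 0)]) (PF.cons (PF.leaf (nat_lit 8286392) (nat_lit 580308) (nat_lit 36208415) (nat_lit 15787087) [(nat_lit 580308), (nat_lit 1731664), (nat_lit 3689890), (nat_lit 0)]) (PF.cons PF.nil (PF.cons PF.nil PF.nil)))) (PF.cons (PF.cons (PF.leaf (nat_lit 8686629) (nat_lit 1732755) (nat_lit 35352567) (nat_lit 15538905) [(nat_lit 0), (nat_lit 1732755), (nat_lit 3673024), (nat_lit 0)]) (PF.cons PF.nil PF.nil)) (PF.cons PF.nil PF.nil))))) (PF.cons (PF.cons (PF.cons (PF.leaf (nat_lit 7697192) (nat_lit 3674491) (nat_lit 36541858) (nat_lit 15868989) [(nat_lit 0), (nat_lit 0), (nat_lit 3674491), (nat_lit 0)]) (PF.cons (PF.leaf (nat_lit 8014861) (nat_lit 568769) (nat_lit 36107996) (nat_lit 15747238)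 [(nat_lit 568769), (nat_lit 0), (nat_lit 3671202), (nat_lit 0)]) (PF.cons (PF.leaf (nat_lit 8339360) (nat_lit 575495) (nat_lit 35669391) (nat_lit 15622373) [(nat_lit 575495), (nat_lit 0), (nat_lit 3666514), (nat_lit
 0)]) (PF.cons PF.nil PF.nil)))) (PF.cons (PF.cons (PF.leaf (nat_lit 8410711) (nat_lit 1717920) (nat_lit 35265717) (nat_lit 15502878) [(nat_lit 0), (nat_lit 1717920), (nat_lit 3655574), (nat_lit 0)]) (PF.cons (PF.leaf (nat_lit 8733686) (nat_lit 579453) (nat_lit 34835510) (nat_lit 15377141) [(nat_lit 579453), (nat_lit 1721423), (nat_lit 3648821), (nat_lit 0)]) PF.nil)) (PF.cons PF.nil PF.nil))) (PF.cons (PF.cons (PF.cons (PF.leaf (nat_lit 8844437) (nat_lit 3611857) (nat_lit 33949342) (nat_lit 15100184) [(nat_lit 0), (nat_lit 0), (nat_lit 3611857), (nat_lit 0)]) (PF.cons PF.nil PF.nil)) (PF.cons PF.nil PF.nil)) (PF.cons PF.nil (PF.cons PF.nil PF.nil)))))))) (PF.cons (PF.cons (PF.cons (PF.cons (PF.leaf (nat_lit 4861442) (nat_lit 8408536) (nat_lit 41588220) (nat_lit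 17112056) [(nat_lit 0), (nat_lit 0), (nat_lit 0), (nat_lit 8408536)]) (PF.cons (PF.leaf (nat_lit 5116299) (nat_lit 465521) (nat_lit 41217498) (nat_lit 17028420) [(nat_lit 465521), (nat_lit 0), (nat_lit 0), (nat_lit 8397372)]) (PF.cons (PF.leaf (nat_lit 5393048) (nat_lit 485093) (nat_lit 40818535) (nat_lit 16936714) [(nat_lit 485093), (nat_lit 0), (nat_lit 0), (nat_lit 8383376)]) (PF.cons (PF.leaf (nat_lit 5686826) (nat_lit
 501991) (nat_lit 40398131) (nat_lit 16838204) [(nat_lit 501991), (nat_lit 0), (nat_lit 0), (nat_lit 8366503)]) (PF.cons (PF.leaf (nat_lit 5994455) (nat_lit 516748) (nat_lit 39961249) (nat_lit 16733825) [(nat_lit 516748), (nat_lit 0), (nat_lit 0), (nat_lit 8346745)]) (PF.cons (PF.leaf (nat_lit 6313467) (nat_lit 529728) (nat_lit 39511717) (nat_lit 16624316) [(nat_lit 529728), (nat_lit 0), (nat_lit 0), (nat_lit 8324138)]) (PF.cons (PF.leaf (nat_lit 6641861) (nat_lit 541196) (nat_lit 39052599) (nat_lit 16510293) [(nat_lit 541196), (nat_lit 0), (nat_lit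 0), (nat_lit 8298744)]) (PF.cons (PF.leaf (nat_lit 6977983) (nat_lit 551352) (nat_lit 38586407) (nat_lit 16392288) [(nat_lit 551352), (nat_lit 0), (nat_lit 0), (nat_lit 8270651)]) (PF.cons (PF.leaf (nat_lit 7320412) (nat_lit 560354) (nat_lit 38115239) (nat_lit 16270773) [(nat_lit 560354), (nat_lit 0), (nat_lit 0), (nat_lit 8239967)]) (PF.cons PF.nil PF.nil)))))))))) (PF.cons (PF.cons (PF.leaf (nat_lit 5516631) (nat_lit 1600068) (nat_lit 40332332) (nat_lit 16818913) [(nat_lit 0), (nat_lit 1600068), (nat_lit 0), (nat_lit 8357498)]) (PF.cons (PF.leaf (nat_lit 5800502) (nat_lit 503395) (nat_lit 39925088) (nat_lit 16721420) [(nat_lit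
 503395), (nat_lit 1619915), (nat_lit 0), (nat_lit 8338993)]) (PF.cons (PF.leaf (nat_lit 6100041) (nat_lit 517983) (nat_lit 39499597) (nat_lit 16617689) [(nat_lit 517983), (nat_lit 1637923), (nat_lit 0), (nat_lit 8317635)]) (PF.cons (PF.leaf (nat_lit 6411914) (nat_lit 530741) (nat_lit 39060382) (nat_lit 16508636) [(nat_lit 530741), (nat_lit 1654079), (nat_lit 0), (nat_lit 8293489)]) (PF.cons (PF.leaf (nat_lit 6733849) (nat_lit 541964) (nat_lit 38610904) (nat_lit 16394979) [(nat_lit 541964), (nat_lit 1668429), (nat_lit 0), (nat_lit 8266640)]) (PF.cons (PF.leaf (nat_lit 7063986) (nat_lit 551869) (nat_lit 38153907) (nat_lit 16277314) [(nat_lit 551869), (nat_lit 1681052), (nat_lit 0), (nat_lit 8237188)]) (PF.cons (PF.leaf (nat_lit 7400799) (nat_lit 560623) (nat_lit 37691633) (nat_lit 16156152) [(nat_lit 560623), (nat_lit 1692037), (nat_lit 0), (nat_lit 8205246)]) (PF.cons PF.nil (PF.cons PF.nil PF.nil))))))))) (PF.cons (PF.cons (PF.leaf (nat_lit 6208031) (nat_lit 1643503)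 (nat_lit 39036324) (nat_lit 16499045) [(nat_lit 0), (nat_lit 1643503), (nat_lit 0), (nat_lit 8286435)]) (PF.cons (PF.leaf (nat_lit 6511489) (nat_lit 531168) (nat_lit 38609151) (nat_lit 16391010) [(nat_lit 531168),
 (nat_lit 1658235), (nat_lit 0), (nat_lit 8261010)]) (PF.cons (PF.leaf (nat_lit 6826301) (nat_lit 542248) (nat_lit 38170535) (nat_lit 16278153) [(nat_lit 542248), (nat_lit 1671349), (nat_lit 0), (nat_lit 8232928)]) (PF.cons (PF.leaf (nat_lit 7149999) (nat_lit 551979) (nat_lit 37723627) (nat_lit 16161175) [(nat_lit 551979), (nat_lit 1682881), (nat_lit 0), (nat_lit 8202309)]) (PF.cons (PF.leaf (nat_lit 7480872) (nat_lit 560544) (nat_lit 37270910) (nat_lit 16040653) [(nat_lit 560544), (nat_lit 1692895), (nat_lit 0), (nat_lit 8169280)]) (PF.cons (PF.leaf (nat_lit 7817504) (nat_lit 568085) (nat_lit 36814397) (nat_lit 15917077) [(nat_lit 568085), (nat_lit 1701466), (nat_lit 0), (nat_lit 8133974)]) (PF.cons PF.nil PF.nil))))))) (PF.cons (PF.cons (PF.leaf (nat_lit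 6920282) (nat_lit 1673576) (nat_lit 37730798) (nat_lit 16159672) [(nat_lit 0), (nat_lit 1673576), (nat_lit 0), (nat_lit 8197613)]) (PF.cons (PF.leaf (nat_lit 7236609) (nat_lit 551662) (nat_lit 37295078) (nat_lit 16043790) [(nat_lit 551662), (nat_lit 1684081), (nat_lit 0), (nat_lit 8166036)]) (PF.cons (PF.leaf (nat_lit 7561094) (nat_lit 560105) (nat_lit 36852712) (nat_lit 15924231) [(nat_lit 560105), (nat_lit 1693185), (nat_lit
 0), (nat_lit 8132101)]) (PF.cons (PF.leaf (nat_lit 7891851) (nat_lit 567505) (nat_lit 36405960) (nat_lit 15801554) [(nat_lit 567505), (nat_lit 1700942), (nat_lit 0), (nat_lit 8095952)]) (PF.cons (PF.leaf (nat_lit 8227564) (nat_lit 573989) (nat_lit 35956636) (nat_lit 15676228) [(nat_lit 573989), (nat_lit 1707418), (nat_lit 0), (nat_lit 8057733)]) PF.nil))))) (PF.cons (PF.cons (PF.leaf (nat_lit 7642297) (nat_lit 1692940) (nat_lit 36436537) (nat_lit 15806796) [(nat_lit 0), (nat_lit 1692940), (nat_lit 0), (nat_lit 8093718)]) (PF.cons (PF.leaf (nat_lit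 7966474) (nat_lit 566606) (nat_lit 36000256) (nat_lit 15685318) [(nat_lit 566606), (nat_lit 1699933), (nat_lit 0), (nat_lit 8056895)]) (PF.cons (PF.leaf (nat_lit 8296386) (nat_lit 572987) (nat_lit 35560773) (nat_lit 15561111) [(nat_lit 572987), (nat_lit 1705725), (nat_lit 0), (nat_lit 8018051)]) (PF.cons PF.nil PF.nil)))) (PF.cons (PF.cons (PF.leaf (nat_lit 8365863) (nat_lit 1703616) (nat_lit 35167777) (nat_lit 15445463) [(nat_lit 0), (nat_lit 1703616), (nat_lit 0), (nat_lit 7977490)]) (PF.cons (PF.leaf (nat_lit 8694089) (nat_lit 577182) (nat_lit 34736565) (nat_lit 15320280) [(nat_lit 577182), (nat_lit 1707688), (nat_lit 0), (nat_lit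
 7936344)]) PF.nil)) (PF.cons PF.nil (PF.cons PF.nil PF.nil)))))))) (PF.cons (PF.cons (PF.cons (PF.leaf (nat_lit 6006579) (nat_lit 3611425) (nat_lit 38815801) (nat_lit 16429424) [(nat_lit 0), (nat_lit 0), (nat_lit 3611425), (nat_lit 8252161)]) (PF.cons (PF.leaf (nat_lit 6290685) (nat_lit 512756) (nat_lit 38419267) (nat_lit 16328664) [(nat_lit 512756), (nat_lit 0), (nat_lit 3619566), (nat_lit 8228557)]) (PF.cons (PF.leaf (nat_lit 6589347) (nat_lit 525968) (nat_lit 38006476) (nat_lit 16222077) [(nat_lit 525968), (nat_lit 0), (nat_lit 3626108), (nat_lit 8202212)]) (PF.cons (PF.leaf (nat_lit 6899278) (nat_lit 537408) (nat_lit 37581749) (nat_lit 16110620) [(nat_lit 537408), (nat_lit 0), (nat_lit 3630945), (nat_lit 8173272)]) (PF.cons (PF.leaf (nat_lit 7218272) (nat_lit 547380) (nat_lit 37148338) (nat_lit 15995035) [(nat_lit 547380), (nat_lit 0), (nat_lit 3634042), (nat_lit 8141874)]) (PF.cons (PF.leaf (nat_lit 7544575) (nat_lit 556105) (nat_lit 36708793) (nat_lit 15875927)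 [(nat_lit 556105), (nat_lit 0), (nat_lit 3635410), (nat_lit 8108154)]) (PF.cons (PF.leaf (nat_lit 7876745) (nat_lit 563750) (nat_lit 36265169) (nat_lit 15753803) [(nat_lit 563750), (nat_lit 0), (nat_lit 3635088),
 (nat_lit 8072247)]) (PF.cons PF.nil (PF.cons PF.nil PF.nil))))))))) (PF.cons (PF.cons (PF.leaf (nat_lit 6690091) (nat_lit 1652303) (nat_lit 37563852) (nat_lit 16102538) [(nat_lit 0), (nat_lit 1652303), (nat_lit 3623329), (nat_lit 8166789)]) (PF.cons (PF.leaf (nat_lit 6991551) (nat_lit 536921) (nat_lit 37151475) (nat_lit 15992578) [(nat_lit 536921), (nat_lit 1664105), (nat_lit 3626702), (nat_lit 8137028)]) (PF.cons (PF.leaf (nat_lit 7303412) (nat_lit 546845) (nat_lit 36729151) (nat_lit 15878233) [(nat_lit 546845), (nat_lit 1674436), (nat_lit 3628479), (nat_lit 8104821)]) (PF.cons (PF.leaf (nat_lit 7623307) (nat_lit 555477) (nat_lit 36299840) (nat_lit 15760215) [(nat_lit 555477), (nat_lit 1683342), (nat_lit 3628652), (nat_lit 8070327)]) (PF.cons (PF.leaf (nat_lit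 7949604) (nat_lit 563006) (nat_lit 35865845) (nat_lit 15639103) [(nat_lit 563006), (nat_lit 1690892), (nat_lit 3627246), (nat_lit 8033700)]) (PF.cons (PF.leaf (nat_lit 8280962) (nat_lit 569573) (nat_lit 35429012) (nat_lit 15515378) [(nat_lit 569573), (nat_lit 1697159), (nat_lit 3624309), (nat_lit 7995086)]) (PF.cons PF.nil PF.nil))))))) (PF.cons (PF.cons (PF.leaf (nat_lit 7390301) (nat_lit 1674669) (nat_lit 36310931)
 (nat_lit 15760111) [(nat_lit 0), (nat_lit 1674669), (nat_lit 3621979), (nat_lit 8066451)]) (PF.cons (PF.leaf (nat_lit 7702866) (nat_lit 554470) (nat_lit 35892836) (nat_lit 15643563) [(nat_lit 554470), (nat_lit 1682755), (nat_lit 3621055), (nat_lit 8031376)]) (PF.cons (PF.leaf (nat_lit 8022844) (nat_lit 561944) (nat_lit 35469168) (nat_lit 15523757) [(nat_lit 561944), (nat_lit 1689577), (nat_lit 3618654), (nat_lit 7994190)]) (PF.cons (PF.leaf (nat_lit 8348419) (nat_lit 568430) (nat_lit 35042021) (nat_lit 15401244) [(nat_lit 568430), (nat_lit 1695192), (nat_lit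 3614813), (nat_lit 7955056)]) (PF.cons PF.nil PF.nil))))) (PF.cons (PF.cons (PF.leaf (nat_lit 8097269) (nat_lit 1687824) (nat_lit 35074628) (nat_lit 15407660) [(nat_lit 0), (nat_lit 1687824), (nat_lit 3609338), (nat_lit 7953712)]) (PF.cons (PF.leaf (nat_lit 8416367) (nat_lit 567004) (nat_lit 34657798) (nat_lit 15286634) [(nat_lit 567004), (nat_lit 1692830), (nat_lit 3604674), (nat_lit 7914209)]) (PF.cons (PF.leaf (nat_lit 8740617) (nat_lit 572576) (nat_lit 34238493) (nat_lit 15163253) [(nat_lit 572576), (nat_lit 1696758), (nat_lit 3598699), (nat_lit 7872936)]) (PF.cons PF.nil PF.nil)))) (PF.cons (PF.cons (PF.leaf (nat_lit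
 8803737) (nat_lit 1693510) (nat_lit 33866760) (nat_lit 15049693) [(nat_lit 0), (nat_lit 1693510), (nat_lit 3587261), (nat_lit 7831056)]) (PF.cons PF.nil PF.nil)) (PF.cons PF.nil PF.nil)))))) (PF.cons (PF.cons (PF.cons (PF.leaf (nat_lit 7154765) (nat_lit 3600470) (nat_lit 36163334) (nat_lit 15707316) [(nat_lit 0), (nat_lit 0), (nat_lit 3600470), (nat_lit 8037220)]) (PF.cons (PF.leaf (nat_lit 7453430) (nat_lit 540454) (nat_lit 35766757) (nat_lit 15596566) [(nat_lit 540454), (nat_lit 0), (nat_lit 3600464), (nat_lit 8004107)]) (PF.cons (PF.leaf (nat_lit 7761720) (nat_lit 549371) (nat_lit 35361476) (nat_lit 15481831) [(nat_lit 549371), (nat_lit 0), (nat_lit 3599008), (nat_lit 7968744)]) (PF.cons (PF.leaf (nat_lit 8077286) (nat_lit 557052) (nat_lit 34950267) (nat_lit 15363823) [(nat_lit 557052), (nat_lit 0), (nat_lit 3596120), (nat_lit 7931323)]) (PF.cons (PF.leaf (nat_lit 8398600) (nat_lit 563685) (nat_lit 34535267) (nat_lit 15243112) [(nat_lit 563685), (nat_lit 0), (nat_lit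 3591838), (nat_lit 7892013)]) (PF.cons PF.nil (PF.cons PF.nil PF.nil))))))) (PF.cons (PF.cons (PF.leaf (nat_lit 7841983) (nat_lit 1670786) (nat_lit 34964572) (nat_lit 15364988) [(nat_lit 0), (nat_lit 1670786),
 (nat_lit 3590116), (nat_lit 7928233)]) (PF.cons (PF.leaf (nat_lit 8150311) (nat_lit 555490) (nat_lit 34564430) (nat_lit 15248733) [(nat_lit 555490), (nat_lit 1676851), (nat_lit 3586385), (nat_lit 7890536)]) (PF.cons (PF.leaf (nat_lit 8465407) (nat_lit 562124) (nat_lit 34159582) (nat_lit 15129588) [(nat_lit 562124), (nat_lit 1681769), (nat_lit 3581337), (nat_lit 7850948)]) (PF.cons (PF.leaf (nat_lit 8785527) (nat_lit 567822) (nat_lit 33751970) (nat_lit 15008093) [(nat_lit 567822), (nat_lit 1685601), (nat_lit 3575018), (nat_lit 7809644)]) (PF.cons PF.nil PF.nil))))) (PF.cons (PF.cons (PF.leaf (nat_lit 8533576) (nat_lit 1678819) (nat_lit 33786057) (nat_lit 15015519) [(nat_lit 0), (nat_lit 1678819), (nat_lit 3570246), (nat_lit 7809103)]) (PF.cons (PF.leaf (nat_lit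 8847344) (nat_lit 565974) (nat_lit 33388493) (nat_lit 14895723) [(nat_lit 565974), (nat_lit 1682168), (nat_lit 3563303), (nat_lit 7767676)]) (PF.cons PF.nil (PF.cons PF.nil PF.nil)))) (PF.cons (PF.cons (PF.leaf (nat_lit 9223062) (nat_lit 1680400) (nat_lit 32637662) (nat_lit 14662921) [(nat_lit 0), (nat_lit 1680400), (nat_lit 3542476), (nat_lit 7682074)]) (PF.cons PF.nil PF.nil)) (PF.cons PF.nil PF.nil))))) (PF.cons (PF.cons
 (PF.cons (PF.leaf (nat_lit 8276078) (nat_lit 3552359) (nat_lit 33689663) (nat_lit 14976652) [(nat_lit 0), (nat_lit 0), (nat_lit 3552359), (nat_lit 7785419)]) (PF.cons (PF.leaf (nat_lit 8579808) (nat_lit 555052) (nat_lit 33307420) (nat_lit 14861443) [(nat_lit 555052), (nat_lit 0), (nat_lit 3546359), (nat_lit 7745816)]) (PF.cons (PF.leaf (nat_lit 8889776) (nat_lit 560956) (nat_lit 32921172) (nat_lit 14743666) [(nat_lit 560956), (nat_lit 0), (nat_lit 3539180), (nat_lit 7704518)]) (PF.cons PF.nil PF.nil)))) (PF.cons (PF.cons (PF.leaf (nat_lit 8952180)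 (nat_lit 1666733) (nat_lit 32567835) (nat_lit 14632130) [(nat_lit 0), (nat_lit 1666733), (nat_lit 3526742), (nat_lit 7661885)]) (PF.cons (PF.leaf (nat_lit 9260460) (nat_lit 563786) (nat_lit 32189094) (nat_lit 14514162) [(nat_lit 563786), (nat_lit 1668698), (nat_lit 3517974), (nat_lit 7619146)]) PF.nil)) (PF.cons PF.nil PF.nil))) (PF.cons (PF.cons (PF.cons (PF.leaf (nat_lit 9354069) (nat_lit 3479967) (nat_lit 31416584) (nat_lit 14258736) [(nat_lit 0), (nat_lit 0), (nat_lit 3479967), (nat_lit 7513620)]) (PF.cons PF.nil PF.nil)) (PF.cons PF.nil PF.nil)) (PF.cons PF.nil PF.nil)))))) (PF.cons (PF.cons (PF.cons (PF.cons (PF.leaf (nat_lit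
 6658015) (nat_lit 7926100) (nat_lit 35727173) (nat_lit 15529438) [(nat_lit 0), (nat_lit 0), (nat_lit 0), (nat_lit 7926100)]) (PF.cons (PF.leaf (nat_lit 6932562) (nat_lit 506383) (nat_lit 35374403) (nat_lit 15431289) [(nat_lit 506383), (nat_lit 0), (nat_lit 0), (nat_lit 7898368)]) (PF.cons (PF.leaf (nat_lit 7220535) (nat_lit 518397) (nat_lit 35007731) (nat_lit 15327965) [(nat_lit 518397), (nat_lit 0), (nat_lit 0), (nat_lit 7868160)]) (PF.cons (PF.leaf (nat_lit 7518737) (nat_lit 528674) (nat_lit 34630972) (nat_lit 15220426) [(nat_lit 528674), (nat_lit 0), (nat_lit 0), (nat_lit 7835695)]) (PF.cons (PF.leaf (nat_lit 7825081) (nat_lit 537531) (nat_lit 34246975) (nat_lit 15109401) [(nat_lit 537531), (nat_lit 0), (nat_lit 0), (nat_lit 7801155)]) (PF.cons (PF.leaf (nat_lit 8137916) (nat_lit 545195) (nat_lit 33857953) (nat_lit 14995475) [(nat_lit 545195), (nat_lit 0), (nat_lit 0), (nat_lit 7764703)]) (PF.cons (PF.leaf (nat_lit 8455900) (nat_lit 551837) (nat_lit 33465674) (nat_lit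 14879130) [(nat_lit 551837), (nat_lit 0), (nat_lit 0), (nat_lit 7726491)]) (PF.cons PF.nil (PF.cons PF.nil PF.nil))))))))) (PF.cons (PF.cons (PF.leaf (nat_lit 7310885) (nat_lit 1617159) (nat_lit 34617990) (nat_lit
 15213768) [(nat_lit 0), (nat_lit 1617159), (nat_lit 0), (nat_lit 7829947)]) (PF.cons (PF.leaf (nat_lit 7600815) (nat_lit 527436) (nat_lit 34252475) (nat_lit 15108119) [(nat_lit 527436), (nat_lit 1626399), (nat_lit 0), (nat_lit 7797190)]) (PF.cons (PF.leaf (nat_lit 7900250) (nat_lit 536315) (nat_lit 33878535) (nat_lit 14998703) [(nat_lit 536315), (nat_lit 1634280), (nat_lit 0), (nat_lit 7762331)]) (PF.cons (PF.leaf (nat_lit 8206922) (nat_lit 543951) (nat_lit 33498752) (nat_lit 14886210) [(nat_lit 543951), (nat_lit 1640870), (nat_lit 0), (nat_lit 7725562)]) (PF.cons (PF.leaf (nat_lit 8519301) (nat_lit 550538) (nat_lit 33115120) (nat_lit 14771189) [(nat_lit 550538), (nat_lit 1646248), (nat_lit 0), (nat_lit 7687050)]) (PF.cons PF.nil (PF.cons PF.nil PF.nil)))))))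 (PF.cons (PF.cons (PF.leaf (nat_lit 7977397) (nat_lit 1632789) (nat_lit 33511020) (nat_lit 14887096) [(nat_lit 0), (nat_lit 1632789), (nat_lit 0), (nat_lit 7722558)]) (PF.cons (PF.leaf (nat_lit 8277008) (nat_lit 542379) (nat_lit 33141300) (nat_lit 14776361) [(nat_lit 542379), (nat_lit 1638752), (nat_lit 0), (nat_lit 7685633)]) (PF.cons (PF.leaf (nat_lit 8583355) (nat_lit 548967) (nat_lit 32766896) (nat_lit 14662912) [(nat_lit
 548967), (nat_lit 1643576), (nat_lit 0), (nat_lit 7646957)]) (PF.cons (PF.leaf (nat_lit 8894716) (nat_lit 554621) (nat_lit 32389618) (nat_lit 14547267) [(nat_lit 554621), (nat_lit 1647330), (nat_lit 0), (nat_lit 7606700)]) (PF.cons PF.nil PF.nil))))) (PF.cons (PF.cons (PF.leaf (nat_lit 8648845) (nat_lit 1640574) (nat_lit 32420528) (nat_lit 14554183) [(nat_lit 0), (nat_lit 1640574), (nat_lit 0), (nat_lit 7606188)]) (PF.cons (PF.leaf (nat_lit 8954036) (nat_lit 552779) (nat_lit 32052395) (nat_lit 14440221) [(nat_lit 552779), (nat_lit 1643871), (nat_lit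 0), (nat_lit 7565900)]) (PF.cons PF.nil (PF.cons PF.nil PF.nil)))) (PF.cons (PF.cons (PF.leaf (nat_lit 9318971) (nat_lit 1642095) (nat_lit 31355907) (nat_lit 14218746) [(nat_lit 0), (nat_lit 1642095), (nat_lit 0), (nat_lit 7482888)]) (PF.cons PF.nil PF.nil)) (PF.cons PF.nil PF.nil)))))) (PF.cons (PF.cons (PF.cons (PF.leaf (nat_lit 7742768) (nat_lit 3487560) (nat_lit 33388857) (nat_lit 14840576) [(nat_lit 0), (nat_lit 0), (nat_lit 3487560), (nat_lit 7695909)]) (PF.cons (PF.leaf (nat_lit 8029649) (nat_lit 529032) (nat_lit 33037738) (nat_lit 14735314) [(nat_lit 529032), (nat_lit 0), (nat_lit 3484649), (nat_lit 7661038)]) (PF.cons (PF.leaf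
 (nat_lit 8325378) (nat_lit 537048) (nat_lit 32679166) (nat_lit 14626616) [(nat_lit 537048), (nat_lit 0), (nat_lit 3480470), (nat_lit 7624230)]) (PF.cons (PF.leaf (nat_lit 8627732) (nat_lit 543879) (nat_lit 32315563) (nat_lit 14515161) [(nat_lit 543879), (nat_lit 0), (nat_lit 3475060), (nat_lit 7585694)]) (PF.cons (PF.leaf (nat_lit 8935243) (nat_lit 549715) (nat_lit 31948782) (nat_lit 14401483) [(nat_lit 549715), (nat_lit 0), (nat_lit 3468471), (nat_lit 7545607)]) PF.nil))))) (PF.cons (PF.cons (PF.leaf (nat_lit 8396785) (nat_lit 1624756) (nat_lit 32330378) (nat_lit 14517136) [(nat_lit 0), (nat_lit 1624756), (nat_lit 3469754), (nat_lit 7583393)]) (PF.cons (PF.leaf (nat_lit 8692192) (nat_lit 541893) (nat_lit 31976607) (nat_lit 14407609) [(nat_lit 541893), (nat_lit 1629111), (nat_lit 3463767), (nat_lit 7544912)]) (PF.cons (PF.leaf (nat_lit 8993792) (nat_lit 547774) (nat_lit 31618811) (nat_lit 14295657) [(nat_lit 547774), (nat_lit 1632432), (nat_lit 3456655), (nat_lit 7504852)])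 (PF.cons PF.nil PF.nil)))) (PF.cons (PF.cons (PF.leaf (nat_lit 9053931) (nat_lit 1628567) (nat_lit 31290661) (nat_lit 14189509) [(nat_lit 0), (nat_lit 1628567), (nat_lit 3444406), (nat_lit 7463549)]) (PF.cons
 (PF.leaf (nat_lit 9354050) (nat_lit 550619) (nat_lit 30939369) (nat_lit 14077439) [(nat_lit 550619), (nat_lit 1630563), (nat_lit 3435811), (nat_lit 7422223)]) PF.nil)) (PF.cons PF.nil (PF.cons PF.nil PF.nil))))) (PF.cons (PF.cons (PF.cons (PF.leaf (nat_lit 8800708) (nat_lit 3428164) (nat_lit 31211627) (nat_lit 14155893) [(nat_lit 0), (nat_lit 0), (nat_lit 3428164), (nat_lit 7442482)]) (PF.cons (PF.leaf (nat_lit 9091659) (nat_lit 540307) (nat_lit 30873539) (nat_lit 14048050) [(nat_lit 540307), (nat_lit 0), (nat_lit 3420519), (nat_lit 7402938)]) (PF.cons (PF.leaf (nat_lit 9388388) (nat_lit 545571) (nat_lit 30531969) (nat_lit 13938035) [(nat_lit 545571), (nat_lit 0), (nat_lit 3411862), (nat_lit 7361970)]) (PF.cons PF.nil PF.nil)))) (PF.cons (PF.cons (PF.leaf (nat_lit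 9443581) (nat_lit 1614374) (nat_lit 30221194) (nat_lit 13834743) [(nat_lit 0), (nat_lit 1614374), (nat_lit 3398738), (nat_lit 7320511)]) (PF.cons PF.nil PF.nil)) (PF.cons PF.nil PF.nil))) (PF.cons (PF.cons (PF.cons (PF.leaf (nat_lit 9818660) (nat_lit 3351071) (nat_lit 29208950) (nat_lit 13490496) [(nat_lit 0), (nat_lit 0), (nat_lit 3351071), (nat_lit 7178076)]) (PF.cons PF.nil PF.nil)) (PF.cons PF.nil PF.nil)) (PF.cons
 PF.nil PF.nil))))) (PF.cons (PF.cons (PF.cons (PF.cons (PF.leaf (nat_lit 8278924) (nat_lit 7365524) (nat_lit 30970850) (nat_lit 14041389) [(nat_lit 0), (nat_lit 0), (nat_lit 0), (nat_lit 7365524)]) (PF.cons (PF.leaf (nat_lit 8554761) (nat_lit 516370) (nat_lit 30658947) (nat_lit 13942448) [(nat_lit 516370), (nat_lit 0), (nat_lit 0), (nat_lit 7330348)]) (PF.cons (PF.leaf (nat_lit 8838819) (nat_lit 523657) (nat_lit 30340557) (nat_lit 13840502) [(nat_lit 523657), (nat_lit 0), (nat_lit 0), (nat_lit 7293479)]) (PF.cons (PF.leaf (nat_lit 9128979) (nat_lit 529809)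 (nat_lit 30017800) (nat_lit 13736187) [(nat_lit 529809), (nat_lit 0), (nat_lit 0), (nat_lit 7255132)]) (PF.cons PF.nil PF.nil))))) (PF.cons (PF.cons (PF.leaf (nat_lit 8902934) (nat_lit 1576907) (nat_lit 30032731) (nat_lit 13738758) [(nat_lit 0), (nat_lit 1576907), (nat_lit 0), (nat_lit 7253471)]) (PF.cons (PF.leaf (nat_lit 9186432) (nat_lit 527552) (nat_lit 29718675) (nat_lit 13636411) [(nat_lit 527552), (nat_lit 1580027), (nat_lit 0), (nat_lit 7215382)]) (PF.cons (PF.leaf (nat_lit 9475691) (nat_lit 532838) (nat_lit 29401097) (nat_lit 13531985) [(nat_lit 532838), (nat_lit 1582208), (nat_lit 0), (nat_lit 7175948)]) (PF.cons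
 PF.nil PF.nil)))) (PF.cons (PF.cons (PF.leaf (nat_lit 9529270) (nat_lit 1577795) (nat_lit 29111395) (nat_lit 13433776) [(nat_lit 0), (nat_lit 1577795), (nat_lit 0), (nat_lit 7136016)]) (PF.cons PF.nil PF.nil)) PF.nil))) (PF.cons (PF.cons (PF.cons (PF.leaf (nat_lit 9281088) (nat_lit 3305846) (nat_lit 29046194) (nat_lit 13404733) [(nat_lit 0), (nat_lit 0), (nat_lit 3305846), (nat_lit 7117345)]) (PF.cons (PF.leaf (nat_lit 9560338) (nat_lit 525223) (nat_lit 28745783) (nat_lit 13304364) [(nat_lit 525223), (nat_lit 0), (nat_lit 3297244), (nat_lit 7078732)]) (PF.cons PF.nil PF.nil))) (PF.cons (PF.cons (PF.leaf (nat_lit 9894285) (nat_lit 1562473) (nat_lit 28167502) (nat_lit 13106824) [(nat_lit 0), (nat_lit 1562473), (nat_lit 3274453), (nat_lit 6999186)]) PF.nil) PF.nil)) (PF.cons PF.nil PF.nil))) (PF.cons (PF.cons (PF.cons (PF.cons (PF.leaf (nat_lit 9724836) (nat_lit 6811919) (nat_lit 27142600) (nat_lit 12718534) [(nat_lit 0), (nat_lit 0), (nat_lit 0), (nat_lit 6811919)]) (PF.cons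 (PF.leaf (nat_lit 9993332) (nat_lit 510218) (nat_lit 26874374) (nat_lit 12625375) [(nat_lit 510218), (nat_lit 0), (nat_lit 0), (nat_lit 6774711)]) PF.nil)) (PF.cons PF.nil PF.nil)) (PF.cons PF.nil PF.nil))
 (PF.cons PF.nil (PF.cons PF.nil (PF.cons PF.nil PF.nil))))))))

def p15_28_3_0 : pfC (piC [(nat_lit 36496589), (nat_lit 24304186), (nat_lit 18078890), (nat_lit 12207801)] (nat_lit 5041812)) p15_28_3 (nat_lit 4) (nat_lit 0) (nat_lit 1) = true := by decide +kernel
def p15_28_3_1 : pfC (piC [(nat_lit 36496589), (nat_lit 24304186), (nat_lit 18078890), (nat_lit 12207801)] (nat_lit 5041812)) p15_28_3 (nat_lit 4) (nat_lit 1) (nat_lit 2) = true := by decide +kernel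
def p15_28_3_2 : pfC (piC [(nat_lit 36496589), (nat_lit 24304186), (nat_lit 18078890), (nat_lit 12207801)] (nat_lit 5041812)) p15_28_3 (nat_lit 4) (nat_lit 2) (nat_lit 3) = true := by decide +kernel
def p15_28_3_3 : pfC (piC [(nat_lit 36496589), (nat_lit 24304186), (nat_lit 18078890), (nat_lit 12207801)] (nat_lit 5041812)) p15_28_3 (nat_lit 4) (nat_lit 3) (nat_lit 4) = true := by decide +kernel
def p15_28_3_4 : pfC (piC [(nat_lit 36496589), (nat_lit 24304186), (nat_lit 18078890), (nat_lit 12207801)] (nat_lit 5041812)) p15_28_3 (nat_lit 4) (nat_lit 4) (nat_lit 5) = true := by decide +kernel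
def p15_28_3_5 : pfC (piC [(nat_lit 36496589), (nat_lit 24304186), (nat_lit 18078890), (nat_lit 12207801)] (nat_lit 5041812)) p15_28_3 (nat_lit 4) (nat_lit 5) (nat_lit 6) = true := by decide +kernel
def p15_28_3_6 : pfC (piC [(nat_lit 36496589), (nat_lit 24304186), (nat_lit 18078890), (nat_lit 12207801)] (nat_lit 5041812)) p15_28_3 (nat_lit 4) (nat_lit 6) (nat_lit 7) = true := by decide +kernel
def p15_28_3_7 : pfC (piC [(nat_lit 36496589), (nat_lit 24304186), (nat_lit 18078890), (nat_lit 12207801)] (nat_lit 5041812)) p15_28_3 (nat_lit 4) (nat_lit 7) (nat_lit 8) = true := by decide +kernel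
def p15_28_3_8 : pfC (piC [(nat_lit 36496589), (nat_lit 24304186), (nat_lit 18078890), (nat_lit 12207801)] (nat_lit 5041812)) p15_28_3 (nat_lit 4) (nat_lit 8) (nat_lit 9) = true := by decide +kernel
def p15_28_3_9 : pfC (piC [(nat_lit 36496589), (nat_lit 24304186), (nat_lit 18078890), (nat_lit 12207801)] (nat_lit 5041812)) p15_28_3 (nat_lit 4) (nat_lit 9) (nat_lit 10) = true := by decide +kernel
def p15_28_3_10 : pfC (piC [(nat_lit 36496589), (nat_lit 24304186), (nat_lit 18078890), (nat_lit 12207801)] (nat_lit 5041812)) p15_28_3 (nat_lit 4) (nat_lit 10) (nat_lit 11) = true := by decide +kernel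
def p15_28_3_11 : pfC (piC [(nat_lit 36496589), (nat_lit 24304186), (nat_lit 18078890), (nat_lit 12207801)] (nat_lit 5041812)) p15_28_3 (nat_lit 4) (nat_lit 11) (nat_lit 12) = true := by decide +kernel
def p15_28_3_12 : pfC (piC [(nat_lit 36496589), (nat_lit 24304186), (nat_lit 18078890), (nat_lit 12207801)] (nat_lit 5041812)) p15_28_3 (nat_lit 4) (nat_lit 12) (nat_lit 13) = true := by decide +kernel
def p15_28_3_13 : pfC (piC [(nat_lit 36496589), (nat_lit 24304186), (nat_lit 18078890), (nat_lit 12207801)] (nat_lit 5041812)) p15_28_3 (nat_lit 4) (nat_lit 13) (nat_lit 14) = true := by decide +kernel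
def p15_28_3_14 : pfC (piC [(nat_lit 36496589), (nat_lit 24304186), (nat_lit 18078890), (nat_lit 12207801)] (nat_lit 5041812)) p15_28_3 (nat_lit 4) (nat_lit 14) (nat_lit 15) = true := by decide +kernel
def p15_28_3_15 : pfC (piC [(nat_lit 36496589), (nat_lit 24304186), (nat_lit 18078890), (nat_lit 12207801)] (nat_lit 5041812)) p15_28_3 (nat_lit 4) (nat_lit 15) (nat_lit 16) = true := by decide +kernel
def p15_28_3_16 : pfC (piC [(nat_lit 36496589), (nat_lit 24304186), (nat_lit 18078890), (nat_lit 12207801)] (nat_lit 5041812)) p15_28_3 (nat_lit 4) (nat_lit 16) (nat_lit 17) = true := by decide +kernel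
def p15_28_3_17 : pfC (piC [(nat_lit 36496589), (nat_lit 24304186), (nat_lit 18078890), (nat_lit 12207801)] (nat_lit 5041812)) p15_28_3 (nat_lit 4) (nat_lit 17) (nat_lit 18) = true := by decide +kernel
def p15_28_3_18 : pfC (piC [(nat_lit 36496589), (nat_lit 24304186), (nat_lit 18078890), (nat_lit 12207801)] (nat_lit 5041812)) p15_28_3 (nat_lit 4) (nat_lit 18) (nat_lit 19) = true := by decide +kernel
def p15_28_3_19 : pfC (piC [(nat_lit 36496589), (nat_lit 24304186), (nat_lit 18078890), (nat_lit 12207801)] (nat_lit 5041812)) p15_28_3 (nat_lit 4) (nat_lit 19) (nat_lit 20) = true := by decide +kernel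
def p15_28_3_20 : pfC (piC [(nat_lit 36496589), (nat_lit 24304186), (nat_lit 18078890), (nat_lit 12207801)] (nat_lit 5041812)) p15_28_3 (nat_lit 4) (nat_lit 20) (nat_lit 21) = true := by decide +kernel
def p15_28_3_21 : pfC (piC [(nat_lit 36496589), (nat_lit 24304186), (nat_lit 18078890), (nat_lit 12207801)] (nat_lit 5041812)) p15_28_3 (nat_lit 4) (nat_lit 21) (nat_lit 22) = true := by decide +kernel
def p15_28_3_22 : pfC (piC [(nat_lit 36496589), (nat_lit 24304186), (nat_lit 18078890), (nat_lit 12207801)] (nat_lit 5041812)) p15_28_3 (nat_lit 4) (nat_lit 22) (nat_lit 23) = true := by decide +kernel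
def p15_28_3_23 : pfC (piC [(nat_lit 36496589), (nat_lit 24304186), (nat_lit 18078890), (nat_lit 12207801)] (nat_lit 5041812)) p15_28_3 (nat_lit 4) (nat_lit 23) (nat_lit 24) = true := by decide +kernel
def p15_28_3_24 : pfC (piC [(nat_lit 36496589), (nat_lit 24304186), (nat_lit 18078890), (nat_lit 12207801)] (nat_lit 5041812)) p15_28_3 (nat_lit 4) (nat_lit 24) (nat_lit 25) = true := by decide +kernel
def p15_28_3_25 : pfC (piC [(nat_lit 36496589), (nat_lit 24304186), (nat_lit 18078890), (nat_lit 12207801)] (nat_lit 5041812)) p15_28_3 (nat_lit 4) (nat_lit 25) (nat_lit 26) = true := by decide +kernel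
def p15_28_3_26 : pfC (piC [(nat_lit 36496589), (nat_lit 24304186), (nat_lit 18078890), (nat_lit 12207801)] (nat_lit 5041812)) p15_28_3 (nat_lit 4) (nat_lit 26) (nat_lit 27) = true := by decide +kernel
def p15_28_3_27 : pfC (piC [(nat_lit 36496589), (nat_lit 24304186), (nat_lit 18078890), (nat_lit 12207801)] (nat_lit 5041812)) p15_28_3 (nat_lit 4) (nat_lit 27) (nat_lit 28) = true := by decide +kernel
def p15_28_3_28 : pfC (piC [(nat_lit 36496589), (nat_lit 24304186), (nat_lit 18078890), (nat_lit 12207801)] (nat_lit 5041812)) p15_28_3 (nat_lit 4) (nat_lit 28) (nat_lit 29) = true := by decide +kernel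
def p15_28_3_29 : pfC (piC [(nat_lit 36496589), (nat_lit 24304186), (nat_lit 18078890), (nat_lit 12207801)] (nat_lit 5041812)) p15_28_3 (nat_lit 4) (nat_lit 29) (nat_lit 30) = true := by decide +kernel
def p15_28_3_30 : pfC (piC [(nat_lit 36496589), (nat_lit 24304186), (nat_lit 18078890), (nat_lit 12207801)] (nat_lit 5041812)) p15_28_3 (nat_lit 4) (nat_lit 30) (nat_lit 31) = true := by decide +kernel
def p15_28_3_31 : pfC (piC [(nat_lit 36496589), (nat_lit 24304186), (nat_lit 18078890), (nat_lit 12207801)] (nat_lit 5041812)) p15_28_3 (nat_lit 4) (nat_lit 31) (nat_lit 32) = true := by decide +kernel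
def p15_28_3_32 : pfC (piC [(nat_lit 36496589), (nat_lit 24304186), (nat_lit 18078890), (nat_lit 12207801)] (nat_lit 5041812)) p15_28_3 (nat_lit 4) (nat_lit 32) (nat_lit 33) = true := by decide +kernel
def p15_28_3_33 : pfC (piC [(nat_lit 36496589), (nat_lit 24304186), (nat_lit 18078890), (nat_lit 12207801)] (nat_lit 5041812)) p15_28_3 (nat_lit 4) (nat_lit 33) (nat_lit 34) = true := by decide +kernel
def p15_28_3_34 : pfC (piC [(nat_lit 36496589), (nat_lit 24304186), (nat_lit 18078890), (nat_lit 12207801)] (nat_lit 5041812)) p15_28_3 (nat_lit 4) (nat_lit 34) (nat_lit 35) = true := by decide +kernel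
def p15_28_3_35 : pfC (piC [(nat_lit 36496589), (nat_lit 24304186), (nat_lit 18078890), (nat_lit 12207801)] (nat_lit 5041812)) p15_28_3 (nat_lit 4) (nat_lit 35) (nat_lit 36) = true := by decide +kernel
def p15_28_3_36 : pfC (piC [(nat_lit 36496589), (nat_lit 24304186), (nat_lit 18078890), (nat_lit 12207801)] (nat_lit 5041812)) p15_28_3 (nat_lit 4) (nat_lit 36) (nat_lit 37) = true := by decide +kernel
def p15_28_3_37 : pfC (piC [(nat_lit 36496589), (nat_lit 24304186), (nat_lit 18078890), (nat_lit 12207801)] (nat_lit 5041812)) p15_28_3 (nat_lit 4) (nat_lit 37) (nat_lit 38) = true := by decide +kernel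
def p15_28_3_38 : pfC (piC [(nat_lit 36496589), (nat_lit 24304186), (nat_lit 18078890), (nat_lit 12207801)] (nat_lit 5041812)) p15_28_3 (nat_lit 4) (nat_lit 38) (nat_lit 39) = true := by decide +kernel
def p15_28_3_39 : pfC (piC [(nat_lit 36496589), (nat_lit 24304186), (nat_lit 18078890), (nat_lit 12207801)] (nat_lit 5041812)) p15_28_3 (nat_lit 4) (nat_lit 39) (nat_lit 40) = true := by decide +kernel
def p15_28_3_40 : pfC (piC [(nat_lit 36496589), (nat_lit 24304186), (nat_lit 18078890), (nat_lit 12207801)] (nat_lit 5041812)) p15_28_3 (nat_lit 4) (nat_lit 40) (nat_lit 41) = true := by decide +kernel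
def p15_28_3_41 : pfC (piC [(nat_lit 36496589), (nat_lit 24304186), (nat_lit 18078890), (nat_lit 12207801)] (nat_lit 5041812)) p15_28_3 (nat_lit 4) (nat_lit 41) (nat_lit 42) = true := by decide +kernel
def p15_28_3_42 : pfC (piC [(nat_lit 36496589), (nat_lit 24304186), (nat_lit 18078890), (nat_lit 12207801)] (nat_lit 5041812)) p15_28_3 (nat_lit 4) (nat_lit 42) (nat_lit 43) = true := by decide +kernel
def p15_28_3_43 : pfC (piC [(nat_lit 36496589), (nat_lit 24304186), (nat_lit 18078890), (nat_lit 12207801)] (nat_lit 5041812)) p15_28_3 (nat_lit 4) (nat_lit 43) (nat_lit 44) = true := by decide +kernel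
def p15_28_3_44 : pfC (piC [(nat_lit 36496589), (nat_lit 24304186), (nat_lit 18078890), (nat_lit 12207801)] (nat_lit 5041812)) p15_28_3 (nat_lit 4) (nat_lit 44) (nat_lit 45) = true := by decide +kernel
def p15_28_3_45 : pfC (piC [(nat_lit 36496589), (nat_lit 24304186), (nat_lit 18078890), (nat_lit 12207801)] (nat_lit 5041812)) p15_28_3 (nat_lit 4) (nat_lit 45) (nat_lit 46) = true := by decide +kernel
def p15_28_3_46 : pfC (piC [(nat_lit 36496589), (nat_lit 24304186), (nat_lit 18078890), (nat_lit 12207801)] (nat_lit 5041812)) p15_28_3 (nat_lit 4) (nat_lit 46) (nat_lit 47) = true := by decide +kernel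
def p15_28_3_47 : pfC (piC [(nat_lit 36496589), (nat_lit 24304186), (nat_lit 18078890), (nat_lit 12207801)] (nat_lit 5041812)) p15_28_3 (nat_lit 4) (nat_lit 47) (nat_lit 48) = true := by decide +kernel
def p15_28_3_48 : pfC (piC [(nat_lit 36496589), (nat_lit 24304186), (nat_lit 18078890), (nat_lit 12207801)] (nat_lit 5041812)) p15_28_3 (nat_lit 4) (nat_lit 48) (nat_lit 49) = true := by decide +kernel
def p15_28_3_49 : pfC (piC [(nat_lit 36496589), (nat_lit 24304186), (nat_lit 18078890), (nat_lit 12207801)] (nat_lit 5041812)) p15_28_3 (nat_lit 4) (nat_lit 49) (nat_lit 50) = true := by decide +kernel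
def p15_28_3_50 : pfC (piC [(nat_lit 36496589), (nat_lit 24304186), (nat_lit 18078890), (nat_lit 12207801)] (nat_lit 5041812)) p15_28_3 (nat_lit 4) (nat_lit 50) (nat_lit 51) = true := by decide +kernel
def p15_28_3_51 : pfC (piC [(nat_lit 36496589), (nat_lit 24304186), (nat_lit 18078890), (nat_lit 12207801)] (nat_lit 5041812)) p15_28_3 (nat_lit 4) (nat_lit 51) (nat_lit 52) = true := by decide +kernel
def p15_28_3_52 : pfC (piC [(nat_lit 36496589), (nat_lit 24304186), (nat_lit 18078890), (nat_lit 12207801)] (nat_lit 5041812)) p15_28_3 (nat_lit 4) (nat_lit 52) (nat_lit 53) = true := by decide +kernel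
def p15_28_3_53 : pfC (piC [(nat_lit 36496589), (nat_lit 24304186), (nat_lit 18078890), (nat_lit 12207801)] (nat_lit 5041812)) p15_28_3 (nat_lit 4) (nat_lit 53) (nat_lit 54) = true := by decide +kernel
def p15_28_3_54 : pfC (piC [(nat_lit 36496589), (nat_lit 24304186), (nat_lit 18078890), (nat_lit 12207801)] (nat_lit 5041812)) p15_28_3 (nat_lit 4) (nat_lit 54) (nat_lit 55) = true := by decide +kernel
def p15_28_3_55 : pfC (piC [(nat_lit 36496589), (nat_lit 24304186), (nat_lit 18078890), (nat_lit 12207801)] (nat_lit 5041812)) p15_28_3 (nat_lit 4) (nat_lit 55) (nat_lit 56) = true := by decide +kernel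
def p15_28_3_56 : pfC (piC [(nat_lit 36496589), (nat_lit 24304186), (nat_lit 18078890), (nat_lit 12207801)] (nat_lit 5041812)) p15_28_3 (nat_lit 4) (nat_lit 56) (nat_lit 57) = true := by decide +kernel
def p15_28_3_57 : pfC (piC [(nat_lit 36496589), (nat_lit 24304186), (nat_lit 18078890), (nat_lit 12207801)] (nat_lit 5041812)) p15_28_3 (nat_lit 4) (nat_lit 57) (nat_lit 58) = true := by decide +kernel
def p15_28_3_58 : pfC (piC [(nat_lit 36496589), (nat_lit 24304186), (nat_lit 18078890), (nat_lit 12207801)] (nat_lit 5041812)) p15_28_3 (nat_lit 4) (nat_lit 58) (nat_lit 59) = true := by decide +kernel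
def p15_28_3_59 : pfC (piC [(nat_lit 36496589), (nat_lit 24304186), (nat_lit 18078890), (nat_lit 12207801)] (nat_lit 5041812)) p15_28_3 (nat_lit 4) (nat_lit 59) (nat_lit 60) = true := by decide +kernel
def p15_28_3_60 : pfC (piC [(nat_lit 36496589), (nat_lit 24304186), (nat_lit 18078890), (nat_lit 12207801)] (nat_lit 5041812)) p15_28_3 (nat_lit 4) (nat_lit 60) (nat_lit 61) = true := by decide +kernel
def p15_28_3_61 : pfC (piC [(nat_lit 36496589), (nat_lit 24304186), (nat_lit 18078890), (nat_lit 12207801)] (nat_lit 5041812)) p15_28_3 (nat_lit 4) (nat_lit 61) (nat_lit 62) = true := by decide +kernel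
def p15_28_3_62 : pfC (piC [(nat_lit 36496589), (nat_lit 24304186), (nat_lit 18078890), (nat_lit 12207801)] (nat_lit 5041812)) p15_28_3 (nat_lit 4) (nat_lit 62) (nat_lit 63) = true := by decide +kernel
def p15_28_3_63 : pfC (piC [(nat_lit 36496589), (nat_lit 24304186), (nat_lit 18078890), (nat_lit 12207801)] (nat_lit 5041812)) p15_28_3 (nat_lit 4) (nat_lit 63) (nat_lit 64) = true := by decide +kernel
def p15_28_3_64 : pfC (piC [(nat_lit 36496589), (nat_lit 24304186), (nat_lit 18078890), (nat_lit 12207801)] (nat_lit 5041812)) p15_28_3 (nat_lit 4) (nat_lit 64) (nat_lit 65) = true := by decide +kernel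
def p15_28_3_65 : pfC (piC [(nat_lit 36496589), (nat_lit 24304186), (nat_lit 18078890), (nat_lit 12207801)] (nat_lit 5041812)) p15_28_3 (nat_lit 4) (nat_lit 65) (nat_lit 66) = true := by decide +kernel
def p15_28_3_66 : pfC (piC [(nat_lit 36496589), (nat_lit 24304186), (nat_lit 18078890), (nat_lit 12207801)] (nat_lit 5041812)) p15_28_3 (nat_lit 4) (nat_lit 66) (nat_lit 67) = true := by decide +kernel
def p15_28_3_67 : pfC (piC [(nat_lit 36496589), (nat_lit 24304186), (nat_lit 18078890), (nat_lit 12207801)] (nat_lit 5041812)) p15_28_3 (nat_lit 4) (nat_lit 67) (nat_lit 68) = true := by decide +kernel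
def p15_28_3_68 : pfC (piC [(nat_lit 36496589), (nat_lit 24304186), (nat_lit 18078890), (nat_lit 12207801)] (nat_lit 5041812)) p15_28_3 (nat_lit 4) (nat_lit 68) (nat_lit 69) = true := by decide +kernel
def p15_28_3_69 : pfC (piC [(nat_lit 36496589), (nat_lit 24304186), (nat_lit 18078890), (nat_lit 12207801)] (nat_lit 5041812)) p15_28_3 (nat_lit 4) (nat_lit 69) (nat_lit 70) = true := by decide +kernel
def p15_28_3_70 : pfC (piC [(nat_lit 36496589), (nat_lit 24304186), (nat_lit 18078890), (nat_lit 12207801)] (nat_lit 5041812)) p15_28_3 (nat_lit 4) (nat_lit 70) (nat_lit 71) = true := by decide +kernel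
def p15_28_3_71 : pfC (piC [(nat_lit 36496589), (nat_lit 24304186), (nat_lit 18078890), (nat_lit 12207801)] (nat_lit 5041812)) p15_28_3 (nat_lit 4) (nat_lit 71) (nat_lit 72) = true := by decide +kernel
def p15_28_3_72 : pfC (piC [(nat_lit 36496589), (nat_lit 24304186), (nat_lit 18078890), (nat_lit 12207801)] (nat_lit 5041812)) p15_28_3 (nat_lit 4) (nat_lit 72) (nat_lit 73) = true := by decide +kernel
def p15_28_3_73 : pfC (piC [(nat_lit 36496589), (nat_lit 24304186), (nat_lit 18078890), (nat_lit 12207801)] (nat_lit 5041812)) p15_28_3 (nat_lit 4) (nat_lit 73) (nat_lit 74) = true := by decide +kernel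
def p15_28_3_74 : pfC (piC [(nat_lit 36496589), (nat_lit 24304186), (nat_lit 18078890), (nat_lit 12207801)] (nat_lit 5041812)) p15_28_3 (nat_lit 4) (nat_lit 74) (nat_lit 75) = true := by decide +kernel
def p15_28_3_75 : pfC (piC [(nat_lit 36496589), (nat_lit 24304186), (nat_lit 18078890), (nat_lit 12207801)] (nat_lit 5041812)) p15_28_3 (nat_lit 4) (nat_lit 75) (nat_lit 76) = true := by decide +kernel
def p15_28_3_76 : pfC (piC [(nat_lit 36496589), (nat_lit 24304186), (nat_lit 18078890), (nat_lit 12207801)] (nat_lit 5041812)) p15_28_3 (nat_lit 4) (nat_lit 76) (nat_lit 77) = true := by decide +kernel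
def p15_28_3_77 : pfC (piC [(nat_lit 36496589), (nat_lit 24304186), (nat_lit 18078890), (nat_lit 12207801)] (nat_lit 5041812)) p15_28_3 (nat_lit 4) (nat_lit 77) (nat_lit 78) = true := by decide +kernel
def p15_28_3_78 : pfC (piC [(nat_lit 36496589), (nat_lit 24304186), (nat_lit 18078890), (nat_lit 12207801)] (nat_lit 5041812)) p15_28_3 (nat_lit 4) (nat_lit 78) (nat_lit 79) = true := by decide +kernel
def p15_28_3_79 : pfC (piC [(nat_lit 36496589), (nat_lit 24304186), (nat_lit 18078890), (nat_lit 12207801)] (nat_lit 5041812)) p15_28_3 (nat_lit 4) (nat_lit 79) (nat_lit 80) = true := by decide +kernel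
def p15_28_3_80 : pfC (piC [(nat_lit 36496589), (nat_lit 24304186), (nat_lit 18078890), (nat_lit 12207801)] (nat_lit 5041812)) p15_28_3 (nat_lit 4) (nat_lit 80) (nat_lit 81) = true := by decide +kernel
def p15_28_3_81 : pfC (piC [(nat_lit 36496589), (nat_lit 24304186), (nat_lit 18078890), (nat_lit 12207801)] (nat_lit 5041812)) p15_28_3 (nat_lit 4) (nat_lit 81) (nat_lit 82) = true := by decide +kernel
def p15_28_3_82 : pfC (piC [(nat_lit 36496589), (nat_lit 24304186), (nat_lit 18078890), (nat_lit 12207801)] (nat_lit 5041812)) p15_28_3 (nat_lit 4) (nat_lit 82) (nat_lit 83) = true := by decide +kernel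
def p15_28_3_83 : pfC (piC [(nat_lit 36496589), (nat_lit 24304186), (nat_lit 18078890), (nat_lit 12207801)] (nat_lit 5041812)) p15_28_3 (nat_lit 4) (nat_lit 83) (nat_lit 84) = true := by decide +kernel
def p15_28_3_84 : pfC (piC [(nat_lit 36496589), (nat_lit 24304186), (nat_lit 18078890), (nat_lit 12207801)] (nat_lit 5041812)) p15_28_3 (nat_lit 4) (nat_lit 84) (nat_lit 85) = true := by decide +kernel
def p15_28_3_85 : pfC (piC [(nat_lit 36496589), (nat_lit 24304186), (nat_lit 18078890), (nat_lit 12207801)] (nat_lit 5041812)) p15_28_3 (nat_lit 4) (nat_lit 85) (nat_lit 86) = true := by decide +kernel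
def p15_28_3_86 : pfC (piC [(nat_lit 36496589), (nat_lit 24304186), (nat_lit 18078890), (nat_lit 12207801)] (nat_lit 5041812)) p15_28_3 (nat_lit 4) (nat_lit 86) (nat_lit 87) = true := by decide +kernel
def p15_28_3_87 : pfC (piC [(nat_lit 36496589), (nat_lit 24304186), (nat_lit 18078890), (nat_lit 12207801)] (nat_lit 5041812)) p15_28_3 (nat_lit 4) (nat_lit 87) (nat_lit 88) = true := by decide +kernel
def p15_28_3_88 : pfC (piC [(nat_lit 36496589), (nat_lit 24304186), (nat_lit 18078890), (nat_lit 12207801)] (nat_lit 5041812)) p15_28_3 (nat_lit 4) (nat_lit 88) (nat_lit 89) = true := by decide +kernel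
def p15_28_3_89 : pfC (piC [(nat_lit 36496589), (nat_lit 24304186), (nat_lit 18078890), (nat_lit 12207801)] (nat_lit 5041812)) p15_28_3 (nat_lit 4) (nat_lit 89) (nat_lit 90) = true := by decide +kernel
def p15_28_3_90 : pfC (piC [(nat_lit 36496589), (nat_lit 24304186), (nat_lit 18078890), (nat_lit 12207801)] (nat_lit 5041812)) p15_28_3 (nat_lit 4) (nat_lit 90) (nat_lit 91) = true := by decide +kernel
def p15_28_3_91 : pfC (piC [(nat_lit 36496589), (nat_lit 24304186), (nat_lit 18078890), (nat_lit 12207801)] (nat_lit 5041812)) p15_28_3 (nat_lit 4) (nat_lit 91) (nat_lit 92) = true := by decide +kernel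
def p15_28_3_92 : pfC (piC [(nat_lit 36496589), (nat_lit 24304186), (nat_lit 18078890), (nat_lit 12207801)] (nat_lit 5041812)) p15_28_3 (nat_lit 4) (nat_lit 92) (nat_lit 93) = true := by decide +kernel
def p15_28_3_93 : pfC (piC [(nat_lit 36496589), (nat_lit 24304186), (nat_lit 18078890), (nat_lit 12207801)] (nat_lit 5041812)) p15_28_3 (nat_lit 4) (nat_lit 93) (nat_lit 94) = true := by decide +kernel
def p15_28_3_94 : pfC (piC [(nat_lit 36496589), (nat_lit 24304186), (nat_lit 18078890), (nat_lit 12207801)] (nat_lit 5041812)) p15_28_3 (nat_lit 4) (nat_lit 94) (nat_lit 95) = true := by decide +kernel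
def p15_28_3_95 : pfC (piC [(nat_lit 36496589), (nat_lit 24304186), (nat_lit 18078890), (nat_lit 12207801)] (nat_lit 5041812)) p15_28_3 (nat_lit 4) (nat_lit 95) (nat_lit 96) = true := by decide +kernel
def p15_28_3_96 : pfC (piC [(nat_lit 36496589), (nat_lit 24304186), (nat_lit 18078890), (nat_lit 12207801)] (nat_lit 5041812)) p15_28_3 (nat_lit 4) (nat_lit 96) (nat_lit 97) = true := by decide +kernel
def p15_28_3_97 : pfC (piC [(nat_lit 36496589), (nat_lit 24304186), (nat_lit 18078890), (nat_lit 12207801)] (nat_lit 5041812)) p15_28_3 (nat_lit 4) (nat_lit 97) (nat_lit 98) = true := by decide +kernel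
def p15_28_3_98 : pfC (piC [(nat_lit 36496589), (nat_lit 24304186), (nat_lit 18078890), (nat_lit 12207801)] (nat_lit 5041812)) p15_28_3 (nat_lit 4) (nat_lit 98) (nat_lit 99) = true := by decide +kernel
def p15_28_3_99 : pfC (piC [(nat_lit 36496589), (nat_lit 24304186), (nat_lit 18078890), (nat_lit 12207801)] (nat_lit 5041812)) p15_28_3 (nat_lit 4) (nat_lit 99) (nat_lit 100) = true := by decide +kernel
def p15_28_3_100 : pfC (piC [(nat_lit 36496589), (nat_lit 24304186), (nat_lit 18078890), (nat_lit 12207801)] (nat_lit 5041812)) p15_28_3 (nat_lit 4) (nat_lit 100) (nat_lit 101) = true := by decide +kernel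
def p15_28_3_101 : pfC (piC [(nat_lit 36496589), (nat_lit 24304186), (nat_lit 18078890), (nat_lit 12207801)] (nat_lit 5041812)) p15_28_3 (nat_lit 4) (nat_lit 101) (nat_lit 102) = true := by decide +kernel
def p15_28_3_102 : pfC (piC [(nat_lit 36496589), (nat_lit 24304186), (nat_lit 18078890), (nat_lit 12207801)] (nat_lit 5041812)) p15_28_3 (nat_lit 4) (nat_lit 102) (nat_lit 103) = true := by decide +kernel
def p15_28_3_103 : pfC (piC [(nat_lit 36496589), (nat_lit 24304186), (nat_lit 18078890), (nat_lit 12207801)] (nat_lit 5041812)) p15_28_3 (nat_lit 4) (nat_lit 103) (nat_lit 104) = true := by decide +kernel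
def p15_28_3_104 : pfC (piC [(nat_lit 36496589), (nat_lit 24304186), (nat_lit 18078890), (nat_lit 12207801)] (nat_lit 5041812)) p15_28_3 (nat_lit 4) (nat_lit 104) (nat_lit 105) = true := by decide +kernel
def p15_28_3_105 : pfC (piC [(nat_lit 36496589), (nat_lit 24304186), (nat_lit 18078890), (nat_lit 12207801)] (nat_lit 5041812)) p15_28_3 (nat_lit 4) (nat_lit 105) (nat_lit 106) = true := by decide +kernel
def p15_28_3_106 : pfC (piC [(nat_lit 36496589), (nat_lit 24304186), (nat_lit 18078890), (nat_lit 12207801)] (nat_lit 5041812)) p15_28_3 (nat_lit 4) (nat_lit 106) (nat_lit 107) = true := by decide +kernel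
def p15_28_3_107 : pfC (piC [(nat_lit 36496589), (nat_lit 24304186), (nat_lit 18078890), (nat_lit 12207801)] (nat_lit 5041812)) p15_28_3 (nat_lit 4) (nat_lit 107) (nat_lit 108) = true := by decide +kernel
def p15_28_3_108 : pfC (piC [(nat_lit 36496589), (nat_lit 24304186), (nat_lit 18078890), (nat_lit 12207801)] (nat_lit 5041812)) p15_28_3 (nat_lit 4) (nat_lit 108) (nat_lit 109) = true := by decide +kernel
def p15_28_3_109 : pfC (piC [(nat_lit 36496589), (nat_lit 24304186), (nat_lit 18078890), (nat_lit 12207801)] (nat_lit 5041812)) p15_28_3 (nat_lit 4) (nat_lit 109) (nat_lit 110) = true := by decide +kernel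
def p15_28_3_110 : pfC (piC [(nat_lit 36496589), (nat_lit 24304186), (nat_lit 18078890), (nat_lit 12207801)] (nat_lit 5041812)) p15_28_3 (nat_lit 4) (nat_lit 110) (nat_lit 111) = true := by decide +kernel
def p15_28_3_111 : pfC (piC [(nat_lit 36496589), (nat_lit 24304186), (nat_lit 18078890), (nat_lit 12207801)] (nat_lit 5041812)) p15_28_3 (nat_lit 4) (nat_lit 111) (nat_lit 112) = true := by decide +kernel
def p15_28_3_112 : pfC (piC [(nat_lit 36496589), (nat_lit 24304186), (nat_lit 18078890), (nat_lit 12207801)] (nat_lit 5041812)) p15_28_3 (nat_lit 4) (nat_lit 112) (nat_lit 113) = true := by decide +kernel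
def p15_28_3_113 : pfC (piC [(nat_lit 36496589), (nat_lit 24304186), (nat_lit 18078890), (nat_lit 12207801)] (nat_lit 5041812)) p15_28_3 (nat_lit 4) (nat_lit 113) (nat_lit 114) = true := by decide +kernel
def p15_28_3_114 : pfC (piC [(nat_lit 36496589), (nat_lit 24304186), (nat_lit 18078890), (nat_lit 12207801)] (nat_lit 5041812)) p15_28_3 (nat_lit 4) (nat_lit 114) (nat_lit 115) = true := by decide +kernel
def p15_28_3_115 : pfC (piC [(nat_lit 36496589), (nat_lit 24304186), (nat_lit 18078890), (nat_lit 12207801)] (nat_lit 5041812)) p15_28_3 (nat_lit 4) (nat_lit 115) (nat_lit 116) = true := by decide +kernel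
def p15_28_3_116 : pfC (piC [(nat_lit 36496589), (nat_lit 24304186), (nat_lit 18078890), (nat_lit 12207801)] (nat_lit 5041812)) p15_28_3 (nat_lit 4) (nat_lit 116) (nat_lit 117) = true := by decide +kernel
def p15_28_3_117 : pfC (piC [(nat_lit 36496589), (nat_lit 24304186), (nat_lit 18078890), (nat_lit 12207801)] (nat_lit 5041812)) p15_28_3 (nat_lit 4) (nat_lit 117) (nat_lit 118) = true := by decide +kernel
def p15_28_3_118 : pfC (piC [(nat_lit 36496589), (nat_lit 24304186), (nat_lit 18078890), (nat_lit 12207801)] (nat_lit 5041812)) p15_28_3 (nat_lit 4) (nat_lit 118) (nat_lit 119) = true := by decide +kernel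
def p15_28_3_119 : pfC (piC [(nat_lit 36496589), (nat_lit 24304186), (nat_lit 18078890), (nat_lit 12207801)] (nat_lit 5041812)) p15_28_3 (nat_lit 4) (nat_lit 119) (nat_lit 120) = true := by decide +kernel
def p15_28_3_120 : pfC (piC [(nat_lit 36496589), (nat_lit 24304186), (nat_lit 18078890), (nat_lit 12207801)] (nat_lit 5041812)) p15_28_3 (nat_lit 4) (nat_lit 120) (nat_lit 121) = true := by decide +kernel
def p15_28_3_121 : pfC (piC [(nat_lit 36496589), (nat_lit 24304186), (nat_lit 18078890), (nat_lit 12207801)] (nat_lit 5041812)) p15_28_3 (nat_lit 4) (nat_lit 121) (nat_lit 122) = true := by decide +kernel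
def p15_28_3_122 : pfC (piC [(nat_lit 36496589), (nat_lit 24304186), (nat_lit 18078890), (nat_lit 12207801)] (nat_lit 5041812)) p15_28_3 (nat_lit 4) (nat_lit 122) (nat_lit 123) = true := by decide +kernel
def p15_28_3_123 : pfC (piC [(nat_lit 36496589), (nat_lit 24304186), (nat_lit 18078890), (nat_lit 12207801)] (nat_lit 5041812)) p15_28_3 (nat_lit 4) (nat_lit 123) (nat_lit 124) = true := by decide +kernel
def p15_28_3_124 : pfC (piC [(nat_lit 36496589), (nat_lit 24304186), (nat_lit 18078890), (nat_lit 12207801)] (nat_lit 5041812)) p15_28_3 (nat_lit 4) (nat_lit 124) (nat_lit 125) = true := by decide +kernel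
def p15_28_3_125 : pfC (piC [(nat_lit 36496589), (nat_lit 24304186), (nat_lit 18078890), (nat_lit 12207801)] (nat_lit 5041812)) p15_28_3 (nat_lit 4) (nat_lit 125) (nat_lit 126) = true := by decide +kernel
def p15_28_3_126 : pfC (piC [(nat_lit 36496589), (nat_lit 24304186), (nat_lit 18078890), (nat_lit 12207801)] (nat_lit 5041812)) p15_28_3 (nat_lit 4) (nat_lit 126) (nat_lit 127) = true := by decide +kernel
def p15_28_3_127 : pfC (piC [(nat_lit 36496589), (nat_lit 24304186), (nat_lit 18078890), (nat_lit 12207801)] (nat_lit 5041812)) p15_28_3 (nat_lit 4) (nat_lit 127) (nat_lit 128) = true := by decide +kernel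
def p15_28_3_128 : pfC (piC [(nat_lit 36496589), (nat_lit 24304186), (nat_lit 18078890), (nat_lit 12207801)] (nat_lit 5041812)) p15_28_3 (nat_lit 4) (nat_lit 128) (nat_lit 129) = true := by decide +kernel
def p15_28_3_129 : pfC (piC [(nat_lit 36496589), (nat_lit 24304186), (nat_lit 18078890), (nat_lit 12207801)] (nat_lit 5041812)) p15_28_3 (nat_lit 4) (nat_lit 129) (nat_lit 130) = true := by decide +kernel
def p15_28_3_130 : pfC (piC [(nat_lit 36496589), (nat_lit 24304186), (nat_lit 18078890), (nat_lit 12207801)] (nat_lit 5041812)) p15_28_3 (nat_lit 4) (nat_lit 130) (nat_lit 131) = true := by decide +kernel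
def p15_28_3_131 : pfC (piC [(nat_lit 36496589), (nat_lit 24304186), (nat_lit 18078890), (nat_lit 12207801)] (nat_lit 5041812)) p15_28_3 (nat_lit 4) (nat_lit 131) (nat_lit 132) = true := by decide +kernel
def p15_28_3_132 : pfC (piC [(nat_lit 36496589), (nat_lit 24304186), (nat_lit 18078890), (nat_lit 12207801)] (nat_lit 5041812)) p15_28_3 (nat_lit 4) (nat_lit 132) (nat_lit 133) = true := by decide +kernel
def p15_28_3_133 : pfC (piC [(nat_lit 36496589), (nat_lit 24304186), (nat_lit 18078890), (nat_lit 12207801)] (nat_lit 5041812)) p15_28_3 (nat_lit 4) (nat_lit 133) (nat_lit 134) = true := by decide +kernel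
def p15_28_3_134 : pfC (piC [(nat_lit 36496589), (nat_lit 24304186), (nat_lit 18078890), (nat_lit 12207801)] (nat_lit 5041812)) p15_28_3 (nat_lit 4) (nat_lit 134) (nat_lit 135) = true := by decide +kernel
def p15_28_3_135 : pfC (piC [(nat_lit 36496589), (nat_lit 24304186), (nat_lit 18078890), (nat_lit 12207801)] (nat_lit 5041812)) p15_28_3 (nat_lit 4) (nat_lit 135) (nat_lit 136) = true := by decide +kernel
def p15_28_3_136 : pfC (piC [(nat_lit 36496589), (nat_lit 24304186), (nat_lit 18078890), (nat_lit 12207801)] (nat_lit 5041812)) p15_28_3 (nat_lit 4) (nat_lit 136) (nat_lit 137) = true := by decide +kernel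
def p15_28_3_137 : pfC (piC [(nat_lit 36496589), (nat_lit 24304186), (nat_lit 18078890), (nat_lit 12207801)] (nat_lit 5041812)) p15_28_3 (nat_lit 4) (nat_lit 137) (nat_lit 138) = true := by decide +kernel
def p15_28_3_138 : pfC (piC [(nat_lit 36496589), (nat_lit 24304186), (nat_lit 18078890), (nat_lit 12207801)] (nat_lit 5041812)) p15_28_3 (nat_lit 4) (nat_lit 138) (nat_lit 139) = true := by decide +kernel
def p15_28_3_139 : pfC (piC [(nat_lit 36496589), (nat_lit 24304186), (nat_lit 18078890), (nat_lit 12207801)] (nat_lit 5041812)) p15_28_3 (nat_lit 4) (nat_lit 139) (nat_lit 140) = true := by decide +kernel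
def p15_28_3_140 : pfC (piC [(nat_lit 36496589), (nat_lit 24304186), (nat_lit 18078890), (nat_lit 12207801)] (nat_lit 5041812)) p15_28_3 (nat_lit 4) (nat_lit 140) (nat_lit 141) = true := by decide +kernel
def p15_28_3_141 : pfC (piC [(nat_lit 36496589), (nat_lit 24304186), (nat_lit 18078890), (nat_lit 12207801)] (nat_lit 5041812)) p15_28_3 (nat_lit 4) (nat_lit 141) (nat_lit 142) = true := by decide +kernel
def p15_28_3_142 : pfC (piC [(nat_lit 36496589), (nat_lit 24304186), (nat_lit 18078890), (nat_lit 12207801)] (nat_lit 5041812)) p15_28_3 (nat_lit 4) (nat_lit 142) (nat_lit 143) = true := by decide +kernel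
def p15_28_3_143 : pfC (piC [(nat_lit 36496589), (nat_lit 24304186), (nat_lit 18078890), (nat_lit 12207801)] (nat_lit 5041812)) p15_28_3 (nat_lit 4) (nat_lit 143) (nat_lit 144) = true := by decide +kernel
def p15_28_3_144 : pfC (piC [(nat_lit 36496589), (nat_lit 24304186), (nat_lit 18078890), (nat_lit 12207801)] (nat_lit 5041812)) p15_28_3 (nat_lit 4) (nat_lit 144) (nat_lit 145) = true := by decide +kernel
def p15_28_3_145 : pfC (piC [(nat_lit 36496589), (nat_lit 24304186), (nat_lit 18078890), (nat_lit 12207801)] (nat_lit 5041812)) p15_28_3 (nat_lit 4) (nat_lit 145) (nat_lit 146) = true := by decide +kernel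
def p15_28_3_146 : pfC (piC [(nat_lit 36496589), (nat_lit 24304186), (nat_lit 18078890), (nat_lit 12207801)] (nat_lit 5041812)) p15_28_3 (nat_lit 4) (nat_lit 146) (nat_lit 147) = true := by decide +kernel
def p15_28_3_147 : pfC (piC [(nat_lit 36496589), (nat_lit 24304186), (nat_lit 18078890), (nat_lit 12207801)] (nat_lit 5041812)) p15_28_3 (nat_lit 4) (nat_lit 147) (nat_lit 148) = true := by decide +kernel
def p15_28_3_148 : pfC (piC [(nat_lit 36496589), (nat_lit 24304186), (nat_lit 18078890), (nat_lit 12207801)] (nat_lit 5041812)) p15_28_3 (nat_lit 4) (nat_lit 148) (nat_lit 149) = true := by decide +kernel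
def p15_28_3_149 : pfC (piC [(nat_lit 36496589), (nat_lit 24304186), (nat_lit 18078890), (nat_lit 12207801)] (nat_lit 5041812)) p15_28_3 (nat_lit 4) (nat_lit 149) (nat_lit 150) = true := by decide +kernel
def p15_28_3_150 : pfC (piC [(nat_lit 36496589), (nat_lit 24304186), (nat_lit 18078890), (nat_lit 12207801)] (nat_lit 5041812)) p15_28_3 (nat_lit 4) (nat_lit 150) (nat_lit 151) = true := by decide +kernel
def p15_28_3_151 : pfC (piC [(nat_lit 36496589), (nat_lit 24304186), (nat_lit 18078890), (nat_lit 12207801)] (nat_lit 5041812)) p15_28_3 (nat_lit 4) (nat_lit 151) (nat_lit 152) = true := by decide +kernel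
def p15_28_3_152 : pfC (piC [(nat_lit 36496589), (nat_lit 24304186), (nat_lit 18078890), (nat_lit 12207801)] (nat_lit 5041812)) p15_28_3 (nat_lit 4) (nat_lit 152) (nat_lit 153) = true := by decide +kernel
def p15_28_3_153 : pfC (piC [(nat_lit 36496589), (nat_lit 24304186), (nat_lit 18078890), (nat_lit 12207801)] (nat_lit 5041812)) p15_28_3 (nat_lit 4) (nat_lit 153) (nat_lit 154) = true := by decide +kernel
def p15_28_3_154 : pfC (piC [(nat_lit 36496589), (nat_lit 24304186), (nat_lit 18078890), (nat_lit 12207801)] (nat_lit 5041812)) p15_28_3 (nat_lit 4) (nat_lit 154) (nat_lit 155) = true := by decide +kernel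
def p15_28_3_155 : pfC (piC [(nat_lit 36496589), (nat_lit 24304186), (nat_lit 18078890), (nat_lit 12207801)] (nat_lit 5041812)) p15_28_3 (nat_lit 4) (nat_lit 155) (nat_lit 156) = true := by decide +kernel
def p15_28_3_156 : pfC (piC [(nat_lit 36496589), (nat_lit 24304186), (nat_lit 18078890), (nat_lit 12207801)] (nat_lit 5041812)) p15_28_3 (nat_lit 4) (nat_lit 156) (nat_lit 157) = true := by decide +kernel
def p15_28_3_157 : pfC (piC [(nat_lit 36496589), (nat_lit 24304186), (nat_lit 18078890), (nat_lit 12207801)] (nat_lit 5041812)) p15_28_3 (nat_lit 4) (nat_lit 157) (nat_lit 158) = true := by decide +kernel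
def p15_28_3_158 : pfC (piC [(nat_lit 36496589), (nat_lit 24304186), (nat_lit 18078890), (nat_lit 12207801)] (nat_lit 5041812)) p15_28_3 (nat_lit 4) (nat_lit 158) (nat_lit 159) = true := by decide +kernel
def p15_28_3_159 : pfC (piC [(nat_lit 36496589), (nat_lit 24304186), (nat_lit 18078890), (nat_lit 12207801)] (nat_lit 5041812)) p15_28_3 (nat_lit 4) (nat_lit 159) (nat_lit 160) = true := by decide +kernel
def p15_28_3_160 : pfC (piC [(nat_lit 36496589), (nat_lit 24304186), (nat_lit 18078890), (nat_lit 12207801)] (nat_lit 5041812)) p15_28_3 (nat_lit 4) (nat_lit 160) (nat_lit 161) = true := by decide +kernel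
def p15_28_3_161 : pfC (piC [(nat_lit 36496589), (nat_lit 24304186), (nat_lit 18078890), (nat_lit 12207801)] (nat_lit 5041812)) p15_28_3 (nat_lit 4) (nat_lit 161) (nat_lit 162) = true := by decide +kernel
def p15_28_3_162 : pfC (piC [(nat_lit 36496589), (nat_lit 24304186), (nat_lit 18078890), (nat_lit 12207801)] (nat_lit 5041812)) p15_28_3 (nat_lit 4) (nat_lit 162) (nat_lit 163) = true := by decide +kernel
def p15_28_3_163 : pfC (piC [(nat_lit 36496589), (nat_lit 24304186), (nat_lit 18078890), (nat_lit 12207801)] (nat_lit 5041812)) p15_28_3 (nat_lit 4) (nat_lit 163) (nat_lit 164) = true := by decide +kernel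
def p15_28_3_164 : pfC (piC [(nat_lit 36496589), (nat_lit 24304186), (nat_lit 18078890), (nat_lit 12207801)] (nat_lit 5041812)) p15_28_3 (nat_lit 4) (nat_lit 164) (nat_lit 165) = true := by decide +kernel
def p15_28_3_165 : pfC (piC [(nat_lit 36496589), (nat_lit 24304186), (nat_lit 18078890), (nat_lit 12207801)] (nat_lit 5041812)) p15_28_3 (nat_lit 4) (nat_lit 165) (nat_lit 166) = true := by decide +kernel
def p15_28_3_166 : pfC (piC [(nat_lit 36496589), (nat_lit 24304186), (nat_lit 18078890), (nat_lit 12207801)] (nat_lit 5041812)) p15_28_3 (nat_lit 4) (nat_lit 166) (nat_lit 167) = true := by decide +kernel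
def p15_28_3_167 : pfC (piC [(nat_lit 36496589), (nat_lit 24304186), (nat_lit 18078890), (nat_lit 12207801)] (nat_lit 5041812)) p15_28_3 (nat_lit 4) (nat_lit 167) (nat_lit 168) = true := by decide +kernel
def p15_28_3_168 : pfC (piC [(nat_lit 36496589), (nat_lit 24304186), (nat_lit 18078890), (nat_lit 12207801)] (nat_lit 5041812)) p15_28_3 (nat_lit 4) (nat_lit 168) (nat_lit 169) = true := by decide +kernel
def p15_28_3_169 : pfC (piC [(nat_lit 36496589), (nat_lit 24304186), (nat_lit 18078890), (nat_lit 12207801)] (nat_lit 5041812)) p15_28_3 (nat_lit 4) (nat_lit 169) (nat_lit 170) = true := by decide +kernel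
def p15_28_3_170 : pfC (piC [(nat_lit 36496589), (nat_lit 24304186), (nat_lit 18078890), (nat_lit 12207801)] (nat_lit 5041812)) p15_28_3 (nat_lit 4) (nat_lit 170) (nat_lit 171) = true := by decide +kernel
def p15_28_3_171 : pfC (piC [(nat_lit 36496589), (nat_lit 24304186), (nat_lit 18078890), (nat_lit 12207801)] (nat_lit 5041812)) p15_28_3 (nat_lit 4) (nat_lit 171) (nat_lit 172) = true := by decide +kernel
def p15_28_3_172 : pfC (piC [(nat_lit 36496589), (nat_lit 24304186), (nat_lit 18078890), (nat_lit 12207801)] (nat_lit 5041812)) p15_28_3 (nat_lit 4) (nat_lit 172) (nat_lit 173) = true := by decide +kernel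
def p15_28_3_173 : pfC (piC [(nat_lit 36496589), (nat_lit 24304186), (nat_lit 18078890), (nat_lit 12207801)] (nat_lit 5041812)) p15_28_3 (nat_lit 4) (nat_lit 173) (nat_lit 174) = true := by decide +kernel
def p15_28_3_174 : pfC (piC [(nat_lit 36496589), (nat_lit 24304186), (nat_lit 18078890), (nat_lit 12207801)] (nat_lit 5041812)) p15_28_3 (nat_lit 4) (nat_lit 174) (nat_lit 175) = true := by decide +kernel
def p15_28_3_175 : pfC (piC [(nat_lit 36496589), (nat_lit 24304186), (nat_lit 18078890), (nat_lit 12207801)] (nat_lit 5041812)) p15_28_3 (nat_lit 4) (nat_lit 175) (nat_lit 176) = true := by decide +kernel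
def p15_28_3_176 : pfC (piC [(nat_lit 36496589), (nat_lit 24304186), (nat_lit 18078890), (nat_lit 12207801)] (nat_lit 5041812)) p15_28_3 (nat_lit 4) (nat_lit 176) (nat_lit 177) = true := by decide +kernel
def p15_28_3_177 : pfC (piC [(nat_lit 36496589), (nat_lit 24304186), (nat_lit 18078890), (nat_lit 12207801)] (nat_lit 5041812)) p15_28_3 (nat_lit 4) (nat_lit 177) (nat_lit 178) = true := by decide +kernel
def p15_28_3_178 : pfC (piC [(nat_lit 36496589), (nat_lit 24304186), (nat_lit 18078890), (nat_lit 12207801)] (nat_lit 5041812)) p15_28_3 (nat_lit 4) (nat_lit 178) (nat_lit 179) = true := by decide +kernel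
def p15_28_3_179 : pfC (piC [(nat_lit 36496589), (nat_lit 24304186), (nat_lit 18078890), (nat_lit 12207801)] (nat_lit 5041812)) p15_28_3 (nat_lit 4) (nat_lit 179) (nat_lit 180) = true := by decide +kernel
def p15_28_3_180 : pfC (piC [(nat_lit 36496589), (nat_lit 24304186), (nat_lit 18078890), (nat_lit 12207801)] (nat_lit 5041812)) p15_28_3 (nat_lit 4) (nat_lit 180) (nat_lit 181) = true := by decide +kernel
def p15_28_3_181 : pfC (piC [(nat_lit 36496589), (nat_lit 24304186), (nat_lit 18078890), (nat_lit 12207801)] (nat_lit 5041812)) p15_28_3 (nat_lit 4) (nat_lit 181) (nat_lit 182) = true := by decide +kernel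
def p15_28_3_182 : pfC (piC [(nat_lit 36496589), (nat_lit 24304186), (nat_lit 18078890), (nat_lit 12207801)] (nat_lit 5041812)) p15_28_3 (nat_lit 4) (nat_lit 182) (nat_lit 183) = true := by decide +kernel
def p15_28_3_183 : pfC (piC [(nat_lit 36496589), (nat_lit 24304186), (nat_lit 18078890), (nat_lit 12207801)] (nat_lit 5041812)) p15_28_3 (nat_lit 4) (nat_lit 183) (nat_lit 184) = true := by decide +kernel
def p15_28_3_184 : pfC (piC [(nat_lit 36496589), (nat_lit 24304186), (nat_lit 18078890), (nat_lit 12207801)] (nat_lit 5041812)) p15_28_3 (nat_lit 4) (nat_lit 184) (nat_lit 185) = true := by decide +kernel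
def p15_28_3_185 : pfC (piC [(nat_lit 36496589), (nat_lit 24304186), (nat_lit 18078890), (nat_lit 12207801)] (nat_lit 5041812)) p15_28_3 (nat_lit 4) (nat_lit 185) (nat_lit 186) = true := by decide +kernel
def p15_28_3_186 : pfC (piC [(nat_lit 36496589), (nat_lit 24304186), (nat_lit 18078890), (nat_lit 12207801)] (nat_lit 5041812)) p15_28_3 (nat_lit 4) (nat_lit 186) (nat_lit 187) = true := by decide +kernel
def p15_28_3_187 : pfC (piC [(nat_lit 36496589), (nat_lit 24304186), (nat_lit 18078890), (nat_lit 12207801)] (nat_lit 5041812)) p15_28_3 (nat_lit 4) (nat_lit 187) (nat_lit 188) = true := by decide +kernel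
def p15_28_3_188 : pfC (piC [(nat_lit 36496589), (nat_lit 24304186), (nat_lit 18078890), (nat_lit 12207801)] (nat_lit 5041812)) p15_28_3 (nat_lit 4) (nat_lit 188) (nat_lit 189) = true := by decide +kernel
def p15_28_3_189 : pfC (piC [(nat_lit 36496589), (nat_lit 24304186), (nat_lit 18078890), (nat_lit 12207801)] (nat_lit 5041812)) p15_28_3 (nat_lit 4) (nat_lit 189) (nat_lit 190) = true := by decide +kernel
def p15_28_3_190 : pfC (piC [(nat_lit 36496589), (nat_lit 24304186), (nat_lit 18078890), (nat_lit 12207801)] (nat_lit 5041812)) p15_28_3 (nat_lit 4) (nat_lit 190) (nat_lit 191) = true := by decide +kernel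
def p15_28_3_191 : pfC (piC [(nat_lit 36496589), (nat_lit 24304186), (nat_lit 18078890), (nat_lit 12207801)] (nat_lit 5041812)) p15_28_3 (nat_lit 4) (nat_lit 191) (nat_lit 192) = true := by decide +kernel
def p15_28_3_192 : pfC (piC [(nat_lit 36496589), (nat_lit 24304186), (nat_lit 18078890), (nat_lit 12207801)] (nat_lit 5041812)) p15_28_3 (nat_lit 4) (nat_lit 192) (nat_lit 193) = true := by decide +kernel
def p15_28_3_193 : pfC (piC [(nat_lit 36496589), (nat_lit 24304186), (nat_lit 18078890), (nat_lit 12207801)] (nat_lit 5041812)) p15_28_3 (nat_lit 4) (nat_lit 193) (nat_lit 194) = true := by decide +kernel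
def p15_28_3_194 : pfC (piC [(nat_lit 36496589), (nat_lit 24304186), (nat_lit 18078890), (nat_lit 12207801)] (nat_lit 5041812)) p15_28_3 (nat_lit 4) (nat_lit 194) (nat_lit 195) = true := by decide +kernel
def p15_28_3_195 : pfC (piC [(nat_lit 36496589), (nat_lit 24304186), (nat_lit 18078890), (nat_lit 12207801)] (nat_lit 5041812)) p15_28_3 (nat_lit 4) (nat_lit 195) (nat_lit 196) = true := by decide +kernel
def p15_28_3_196 : pfC (piC [(nat_lit 36496589), (nat_lit 24304186), (nat_lit 18078890), (nat_lit 12207801)] (nat_lit 5041812)) p15_28_3 (nat_lit 4) (nat_lit 196) (nat_lit 197) = true := by decide +kernel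
def p15_28_3_197 : pfC (piC [(nat_lit 36496589), (nat_lit 24304186), (nat_lit 18078890), (nat_lit 12207801)] (nat_lit 5041812)) p15_28_3 (nat_lit 4) (nat_lit 197) (nat_lit 198) = true := by decide +kernel
def p15_28_3_198 : pfC (piC [(nat_lit 36496589), (nat_lit 24304186), (nat_lit 18078890), (nat_lit 12207801)] (nat_lit 5041812)) p15_28_3 (nat_lit 4) (nat_lit 198) (nat_lit 199) = true := by decide +kernel
def p15_28_3_199 : pfC (piC [(nat_lit 36496589), (nat_lit 24304186), (nat_lit 18078890), (nat_lit 12207801)] (nat_lit 5041812)) p15_28_3 (nat_lit 4) (nat_lit 199) (nat_lit 200) = true := by decide +kernel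
def p15_28_3_200 : pfC (piC [(nat_lit 36496589), (nat_lit 24304186), (nat_lit 18078890), (nat_lit 12207801)] (nat_lit 5041812)) p15_28_3 (nat_lit 4) (nat_lit 200) (nat_lit 201) = true := by decide +kernel
def p15_28_3_201 : pfC (piC [(nat_lit 36496589), (nat_lit 24304186), (nat_lit 18078890), (nat_lit 12207801)] (nat_lit 5041812)) p15_28_3 (nat_lit 4) (nat_lit 201) (nat_lit 202) = true := by decide +kernel
def p15_28_3_202 : pfC (piC [(nat_lit 36496589), (nat_lit 24304186), (nat_lit 18078890), (nat_lit 12207801)] (nat_lit 5041812)) p15_28_3 (nat_lit 4) (nat_lit 202) (nat_lit 203) = true := by decide +kernel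
def p15_28_3_203 : pfC (piC [(nat_lit 36496589), (nat_lit 24304186), (nat_lit 18078890), (nat_lit 12207801)] (nat_lit 5041812)) p15_28_3 (nat_lit 4) (nat_lit 203) (nat_lit 204) = true := by decide +kernel
def p15_28_3_204 : pfC (piC [(nat_lit 36496589), (nat_lit 24304186), (nat_lit 18078890), (nat_lit 12207801)] (nat_lit 5041812)) p15_28_3 (nat_lit 4) (nat_lit 204) (nat_lit 205) = true := by decide +kernel
def p15_28_3_205 : pfC (piC [(nat_lit 36496589), (nat_lit 24304186), (nat_lit 18078890), (nat_lit 12207801)] (nat_lit 5041812)) p15_28_3 (nat_lit 4) (nat_lit 205) (nat_lit 206) = true := by decide +kernel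
def p15_28_3_206 : pfC (piC [(nat_lit 36496589), (nat_lit 24304186), (nat_lit 18078890), (nat_lit 12207801)] (nat_lit 5041812)) p15_28_3 (nat_lit 4) (nat_lit 206) (nat_lit 207) = true := by decide +kernel
def p15_28_3_207 : pfC (piC [(nat_lit 36496589), (nat_lit 24304186), (nat_lit 18078890), (nat_lit 12207801)] (nat_lit 5041812)) p15_28_3 (nat_lit 4) (nat_lit 207) (nat_lit 208) = true := by decide +kernel
def p15_28_3_208 : pfC (piC [(nat_lit 36496589), (nat_lit 24304186), (nat_lit 18078890), (nat_lit 12207801)] (nat_lit 5041812)) p15_28_3 (nat_lit 4) (nat_lit 208) (nat_lit 209) = true := by decide +kernel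
def p15_28_3_209 : pfC (piC [(nat_lit 36496589), (nat_lit 24304186), (nat_lit 18078890), (nat_lit 12207801)] (nat_lit 5041812)) p15_28_3 (nat_lit 4) (nat_lit 209) (nat_lit 210) = true := by decide +kernel
def p15_28_3_210 : pfC (piC [(nat_lit 36496589), (nat_lit 24304186), (nat_lit 18078890), (nat_lit 12207801)] (nat_lit 5041812)) p15_28_3 (nat_lit 4) (nat_lit 210) (nat_lit 211) = true := by decide +kernel
def p15_28_3_211 : pfC (piC [(nat_lit 36496589), (nat_lit 24304186), (nat_lit 18078890), (nat_lit 12207801)] (nat_lit 5041812)) p15_28_3 (nat_lit 4) (nat_lit 211) (nat_lit 212) = true := by decide +kernel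
def p15_28_3_212 : pfC (piC [(nat_lit 36496589), (nat_lit 24304186), (nat_lit 18078890), (nat_lit 12207801)] (nat_lit 5041812)) p15_28_3 (nat_lit 4) (nat_lit 212) (nat_lit 213) = true := by decide +kernel
def p15_28_3_213 : pfC (piC [(nat_lit 36496589), (nat_lit 24304186), (nat_lit 18078890), (nat_lit 12207801)] (nat_lit 5041812)) p15_28_3 (nat_lit 4) (nat_lit 213) (nat_lit 214) = true := by decide +kernel
def p15_28_3_214 : pfC (piC [(nat_lit 36496589), (nat_lit 24304186), (nat_lit 18078890), (nat_lit 12207801)] (nat_lit 5041812)) p15_28_3 (nat_lit 4) (nat_lit 214) (nat_lit 215) = true := by decide +kernel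
def p15_28_3_215 : pfC (piC [(nat_lit 36496589), (nat_lit 24304186), (nat_lit 18078890), (nat_lit 12207801)] (nat_lit 5041812)) p15_28_3 (nat_lit 4) (nat_lit 215) (nat_lit 216) = true := by decide +kernel
def p15_28_3_216 : pfC (piC [(nat_lit 36496589), (nat_lit 24304186), (nat_lit 18078890), (nat_lit 12207801)] (nat_lit 5041812)) p15_28_3 (nat_lit 4) (nat_lit 216) (nat_lit 217) = true := by decide +kernel
def p15_28_3_217 : pfC (piC [(nat_lit 36496589), (nat_lit 24304186), (nat_lit 18078890), (nat_lit 12207801)] (nat_lit 5041812)) p15_28_3 (nat_lit 4) (nat_lit 217) (nat_lit 218) = true := by decide +kernel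
def p15_28_3_218 : pfC (piC [(nat_lit 36496589), (nat_lit 24304186), (nat_lit 18078890), (nat_lit 12207801)] (nat_lit 5041812)) p15_28_3 (nat_lit 4) (nat_lit 218) (nat_lit 219) = true := by decide +kernel
def p15_28_3_219 : pfC (piC [(nat_lit 36496589), (nat_lit 24304186), (nat_lit 18078890), (nat_lit 12207801)] (nat_lit 5041812)) p15_28_3 (nat_lit 4) (nat_lit 219) (nat_lit 220) = true := by decide +kernel
def p15_28_3_220 : pfC (piC [(nat_lit 36496589), (nat_lit 24304186), (nat_lit 18078890), (nat_lit 12207801)] (nat_lit 5041812)) p15_28_3 (nat_lit 4) (nat_lit 220) (nat_lit 221) = true := by decide +kernel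
def p15_28_3_221 : pfC (piC [(nat_lit 36496589), (nat_lit 24304186), (nat_lit 18078890), (nat_lit 12207801)] (nat_lit 5041812)) p15_28_3 (nat_lit 4) (nat_lit 221) (nat_lit 222) = true := by decide +kernel
def p15_28_3_222 : pfC (piC [(nat_lit 36496589), (nat_lit 24304186), (nat_lit 18078890), (nat_lit 12207801)] (nat_lit 5041812)) p15_28_3 (nat_lit 4) (nat_lit 222) (nat_lit 223) = true := by decide +kernel
def p15_28_3_223 : pfC (piC [(nat_lit 36496589), (nat_lit 24304186), (nat_lit 18078890), (nat_lit 12207801)] (nat_lit 5041812)) p15_28_3 (nat_lit 4) (nat_lit 223) (nat_lit 224) = true := by decide +kernel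
def p15_28_3_224 : pfC (piC [(nat_lit 36496589), (nat_lit 24304186), (nat_lit 18078890), (nat_lit 12207801)] (nat_lit 5041812)) p15_28_3 (nat_lit 4) (nat_lit 224) (nat_lit 225) = true := by decide +kernel
def p15_28_3_225 : pfC (piC [(nat_lit 36496589), (nat_lit 24304186), (nat_lit 18078890), (nat_lit 12207801)] (nat_lit 5041812)) p15_28_3 (nat_lit 4) (nat_lit 225) (nat_lit 226) = true := by decide +kernel
def p15_28_3_226 : pfC (piC [(nat_lit 36496589), (nat_lit 24304186), (nat_lit 18078890), (nat_lit 12207801)] (nat_lit 5041812)) p15_28_3 (nat_lit 4) (nat_lit 226) (nat_lit 227) = true := by decide +kernel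
def p15_28_3_227 : pfC (piC [(nat_lit 36496589), (nat_lit 24304186), (nat_lit 18078890), (nat_lit 12207801)] (nat_lit 5041812)) p15_28_3 (nat_lit 4) (nat_lit 227) (nat_lit 228) = true := by decide +kernel
def p15_28_3_228 : pfC (piC [(nat_lit 36496589), (nat_lit 24304186), (nat_lit 18078890), (nat_lit 12207801)] (nat_lit 5041812)) p15_28_3 (nat_lit 4) (nat_lit 228) (nat_lit 229) = true := by decide +kernel
def p15_28_3_229 : pfC (piC [(nat_lit 36496589), (nat_lit 24304186), (nat_lit 18078890), (nat_lit 12207801)] (nat_lit 5041812)) p15_28_3 (nat_lit 4) (nat_lit 229) (nat_lit 230) = true := by decide +kernel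
def p15_28_3_230 : pfC (piC [(nat_lit 36496589), (nat_lit 24304186), (nat_lit 18078890), (nat_lit 12207801)] (nat_lit 5041812)) p15_28_3 (nat_lit 4) (nat_lit 230) (nat_lit 231) = true := by decide +kernel
def p15_28_3_231 : pfC (piC [(nat_lit 36496589), (nat_lit 24304186), (nat_lit 18078890), (nat_lit 12207801)] (nat_lit 5041812)) p15_28_3 (nat_lit 4) (nat_lit 231) (nat_lit 232) = true := by decide +kernel
def p15_28_3_232 : pfC (piC [(nat_lit 36496589), (nat_lit 24304186), (nat_lit 18078890), (nat_lit 12207801)] (nat_lit 5041812)) p15_28_3 (nat_lit 4) (nat_lit 232) (nat_lit 233) = true := by decide +kernel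
def p15_28_3_233 : pfC (piC [(nat_lit 36496589), (nat_lit 24304186), (nat_lit 18078890), (nat_lit 12207801)] (nat_lit 5041812)) p15_28_3 (nat_lit 4) (nat_lit 233) (nat_lit 234) = true := by decide +kernel
def p15_28_3_234 : pfC (piC [(nat_lit 36496589), (nat_lit 24304186), (nat_lit 18078890), (nat_lit 12207801)] (nat_lit 5041812)) p15_28_3 (nat_lit 4) (nat_lit 234) (nat_lit 235) = true := by decide +kernel
theorem p15_28_3_T : PfS (PiF n15_28.reverse (nat_lit 5041812)) p15_28_3 (nat_lit 4) [] 0 :=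
  pftab_of (los := [(nat_lit 36496589), (nat_lit 24304186), (nat_lit 18078890), (nat_lit 12207801)]) (by decide +kernel) (hi := (nat_lit 235)) (PfP.trans (PfP.trans (PfP.trans (PfP.trans (PfP.trans (PfP.trans (PfP.trans (PfP.trans (PfP.trans (PfP.trans (PfP.trans (PfP.trans (PfP.trans (PfP.trans (PfP.trans (PfP.trans (PfP.trans (PfP.trans (PfP.trans (PfP.trans (PfP.trans (PfP.trans (PfP.trans (PfP.trans (PfP.trans (PfP.trans (PfP.trans (PfP.trans (PfP.trans (PfP.trans (PfP.trans (PfP.trans (PfP.trans (PfP.trans (PfP.trans (PfP.trans (PfP.trans (PfP.trans (PfP.trans (PfP.trans (PfP.trans (PfP.trans (PfP.trans (PfP.trans (PfP.trans (PfP.trans (PfP.trans (PfP.trans (PfP.trans (PfP.trans (PfP.trans (PfP.trans (PfP.trans (PfP.trans (PfP.trans (PfP.trans (PfP.trans (PfP.trans (PfP.trans (PfP.trans (PfP.trans (PfP.trans (PfP.trans (PfP.trans (PfP.trans (PfP.trans (PfP.trans (PfP.trans (PfP.trans (PfP.trans (PfP.trans (PfP.trans (PfP.trans (PfP.trans (PfP.trans (PfP.trans (PfP.trans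 (PfP.trans (PfP.trans (PfP.trans (PfP.trans (PfP.trans (PfP.trans (PfP.trans (PfP.trans (PfP.trans (PfP.trans (PfP.trans (PfP.trans (PfP.trans (PfP.trans (PfP.trans (PfP.trans (PfP.trans (PfP.trans (PfP.trans (PfP.trans (PfP.trans (PfP.trans (PfP.trans (PfP.trans (PfP.trans (PfP.trans (PfP.trans (PfP.trans (PfP.trans (PfP.trans (PfP.trans (PfP.trans
 (PfP.trans (PfP.trans (PfP.trans (PfP.trans (PfP.trans (PfP.trans (PfP.trans (PfP.trans (PfP.trans (PfP.trans (PfP.trans (PfP.trans (PfP.trans (PfP.trans (PfP.trans (PfP.trans (PfP.trans (PfP.trans (PfP.trans (PfP.trans (PfP.trans (PfP.trans (PfP.trans (PfP.trans (PfP.trans (PfP.trans (PfP.trans (PfP.trans (PfP.trans (PfP.trans (PfP.trans (PfP.trans (PfP.trans (PfP.trans (PfP.trans (PfP.trans (PfP.trans (PfP.trans (PfP.trans (PfP.trans (PfP.trans (PfP.trans (PfP.trans (PfP.trans (PfP.trans (PfP.trans (PfP.trans (PfP.trans (PfP.trans (PfP.trans (PfP.trans (PfP.trans (PfP.trans (PfP.trans (PfP.trans (PfP.trans (PfP.trans (PfP.trans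 (PfP.trans (PfP.trans (PfP.trans (PfP.trans (PfP.trans (PfP.trans (PfP.trans (PfP.trans (PfP.trans (PfP.trans (PfP.trans (PfP.trans (PfP.trans (PfP.trans (PfP.trans (PfP.trans (PfP.trans (PfP.trans (PfP.trans (PfP.trans (PfP.trans (PfP.trans (PfP.trans (PfP.trans (PfP.trans (PfP.trans (PfP.trans (PfP.trans (PfP.trans (PfP.trans (PfP.trans (PfP.trans (PfP.trans (PfP.trans (PfP.trans (PfP.trans (PfP.trans (PfP.trans (PfP.trans (PfP.trans (PfP.trans (PfP.trans (PfP.trans (PfP.trans (PfP.trans (PfP.trans (PfP.trans (PfP.trans (PfP.trans (PfP.trans (PfP.trans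
 (PfP.trans (PfP.trans (PfP.trans (PfP.trans (PfP.trans (PfP.trans (PfP.trans (PfP.trans (PfP.trans (PfP.trans (PfP.trans (PfP.trans (PfP.trans (PfP.trans (PfP.trans (PfP.trans (pfC_sound p15_28_3_0) (pfC_sound p15_28_3_1)) (pfC_sound p15_28_3_2)) (pfC_sound p15_28_3_3)) (pfC_sound p15_28_3_4)) (pfC_sound p15_28_3_5)) (pfC_sound p15_28_3_6)) (pfC_sound p15_28_3_7)) (pfC_sound p15_28_3_8)) (pfC_sound p15_28_3_9)) (pfC_sound p15_28_3_10)) (pfC_sound p15_28_3_11)) (pfC_sound p15_28_3_12)) (pfC_sound p15_28_3_13)) (pfC_sound p15_28_3_14)) (pfC_sound p15_28_3_15)) (pfC_sound p15_28_3_16)) (pfC_sound p15_28_3_17)) (pfC_sound p15_28_3_18)) (pfC_sound p15_28_3_19)) (pfC_sound p15_28_3_20)) (pfC_sound p15_28_3_21)) (pfC_sound p15_28_3_22)) (pfC_sound p15_28_3_23)) (pfC_sound p15_28_3_24)) (pfC_sound p15_28_3_25)) (pfC_sound p15_28_3_26)) (pfC_sound p15_28_3_27)) (pfC_sound p15_28_3_28)) (pfC_sound p15_28_3_29)) (pfC_sound p15_28_3_30)) (pfC_sound p15_28_3_31)) (pfC_sound p15_28_3_32))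 (pfC_sound p15_28_3_33)) (pfC_sound p15_28_3_34)) (pfC_sound p15_28_3_35)) (pfC_sound p15_28_3_36)) (pfC_sound p15_28_3_37)) (pfC_sound p15_28_3_38)) (pfC_sound p15_28_3_39)) (pfC_sound p15_28_3_40))
 (pfC_sound p15_28_3_41)) (pfC_sound p15_28_3_42)) (pfC_sound p15_28_3_43)) (pfC_sound p15_28_3_44)) (pfC_sound p15_28_3_45)) (pfC_sound p15_28_3_46)) (pfC_sound p15_28_3_47)) (pfC_sound p15_28_3_48)) (pfC_sound p15_28_3_49)) (pfC_sound p15_28_3_50)) (pfC_sound p15_28_3_51)) (pfC_sound p15_28_3_52)) (pfC_sound p15_28_3_53)) (pfC_sound p15_28_3_54)) (pfC_sound p15_28_3_55)) (pfC_sound p15_28_3_56)) (pfC_sound p15_28_3_57)) (pfC_sound p15_28_3_58)) (pfC_sound p15_28_3_59)) (pfC_sound p15_28_3_60)) (pfC_sound p15_28_3_61)) (pfC_sound p15_28_3_62)) (pfC_sound p15_28_3_63)) (pfC_sound p15_28_3_64)) (pfC_sound p15_28_3_65)) (pfC_sound p15_28_3_66)) (pfC_sound p15_28_3_67)) (pfC_sound p15_28_3_68)) (pfC_sound p15_28_3_69)) (pfC_sound p15_28_3_70)) (pfC_sound p15_28_3_71)) (pfC_sound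 p15_28_3_72)) (pfC_sound p15_28_3_73)) (pfC_sound p15_28_3_74)) (pfC_sound p15_28_3_75)) (pfC_sound p15_28_3_76)) (pfC_sound p15_28_3_77)) (pfC_sound p15_28_3_78)) (pfC_sound p15_28_3_79)) (pfC_sound p15_28_3_80)) (pfC_sound p15_28_3_81)) (pfC_sound p15_28_3_82)) (pfC_sound p15_28_3_83)) (pfC_sound p15_28_3_84)) (pfC_sound p15_28_3_85)) (pfC_sound p15_28_3_86)) (pfC_sound p15_28_3_87)) (pfC_sound p15_28_3_88))
 (pfC_sound p15_28_3_89)) (pfC_sound p15_28_3_90)) (pfC_sound p15_28_3_91)) (pfC_sound p15_28_3_92)) (pfC_sound p15_28_3_93)) (pfC_sound p15_28_3_94)) (pfC_sound p15_28_3_95)) (pfC_sound p15_28_3_96)) (pfC_sound p15_28_3_97)) (pfC_sound p15_28_3_98)) (pfC_sound p15_28_3_99)) (pfC_sound p15_28_3_100)) (pfC_sound p15_28_3_101)) (pfC_sound p15_28_3_102)) (pfC_sound p15_28_3_103)) (pfC_sound p15_28_3_104)) (pfC_sound p15_28_3_105)) (pfC_sound p15_28_3_106)) (pfC_sound p15_28_3_107)) (pfC_sound p15_28_3_108)) (pfC_sound p15_28_3_109)) (pfC_sound p15_28_3_110)) (pfC_sound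 p15_28_3_111)) (pfC_sound p15_28_3_112)) (pfC_sound p15_28_3_113)) (pfC_sound p15_28_3_114)) (pfC_sound p15_28_3_115)) (pfC_sound p15_28_3_116)) (pfC_sound p15_28_3_117)) (pfC_sound p15_28_3_118)) (pfC_sound p15_28_3_119)) (pfC_sound p15_28_3_120)) (pfC_sound p15_28_3_121)) (pfC_sound p15_28_3_122)) (pfC_sound p15_28_3_123)) (pfC_sound p15_28_3_124)) (pfC_sound p15_28_3_125)) (pfC_sound p15_28_3_126)) (pfC_sound p15_28_3_127)) (pfC_sound p15_28_3_128)) (pfC_sound p15_28_3_129)) (pfC_sound p15_28_3_130)) (pfC_sound p15_28_3_131)) (pfC_sound p15_28_3_132)) (pfC_sound p15_28_3_133)) (pfC_sound p15_28_3_134)) (pfC_sound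
 p15_28_3_135)) (pfC_sound p15_28_3_136)) (pfC_sound p15_28_3_137)) (pfC_sound p15_28_3_138)) (pfC_sound p15_28_3_139)) (pfC_sound p15_28_3_140)) (pfC_sound p15_28_3_141)) (pfC_sound p15_28_3_142)) (pfC_sound p15_28_3_143)) (pfC_sound p15_28_3_144)) (pfC_sound p15_28_3_145)) (pfC_sound p15_28_3_146)) (pfC_sound p15_28_3_147)) (pfC_sound p15_28_3_148)) (pfC_sound p15_28_3_149)) (pfC_sound p15_28_3_150)) (pfC_sound p15_28_3_151)) (pfC_sound p15_28_3_152)) (pfC_sound p15_28_3_153)) (pfC_sound p15_28_3_154)) (pfC_sound p15_28_3_155)) (pfC_sound p15_28_3_156)) (pfC_sound p15_28_3_157)) (pfC_sound p15_28_3_158)) (pfC_sound p15_28_3_159)) (pfC_sound p15_28_3_160)) (pfC_sound p15_28_3_161)) (pfC_sound p15_28_3_162)) (pfC_sound p15_28_3_163)) (pfC_sound p15_28_3_164)) (pfC_sound p15_28_3_165)) (pfC_sound p15_28_3_166)) (pfC_sound p15_28_3_167)) (pfC_sound p15_28_3_168)) (pfC_sound p15_28_3_169)) (pfC_sound p15_28_3_170)) (pfC_sound p15_28_3_171)) (pfC_sound p15_28_3_172)) (pfC_sound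 p15_28_3_173)) (pfC_sound p15_28_3_174)) (pfC_sound p15_28_3_175)) (pfC_sound p15_28_3_176)) (pfC_sound p15_28_3_177)) (pfC_sound p15_28_3_178)) (pfC_sound p15_28_3_179)) (pfC_sound p15_28_3_180)) (pfC_sound
 p15_28_3_181)) (pfC_sound p15_28_3_182)) (pfC_sound p15_28_3_183)) (pfC_sound p15_28_3_184)) (pfC_sound p15_28_3_185)) (pfC_sound p15_28_3_186)) (pfC_sound p15_28_3_187)) (pfC_sound p15_28_3_188)) (pfC_sound p15_28_3_189)) (pfC_sound p15_28_3_190)) (pfC_sound p15_28_3_191)) (pfC_sound p15_28_3_192)) (pfC_sound p15_28_3_193)) (pfC_sound p15_28_3_194)) (pfC_sound p15_28_3_195)) (pfC_sound p15_28_3_196)) (pfC_sound p15_28_3_197)) (pfC_sound p15_28_3_198)) (pfC_sound p15_28_3_199)) (pfC_sound p15_28_3_200)) (pfC_sound p15_28_3_201)) (pfC_sound p15_28_3_202)) (pfC_sound p15_28_3_203)) (pfC_sound p15_28_3_204)) (pfC_sound p15_28_3_205)) (pfC_sound p15_28_3_206)) (pfC_sound p15_28_3_207)) (pfC_sound p15_28_3_208)) (pfC_sound p15_28_3_209)) (pfC_sound p15_28_3_210)) (pfC_sound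 p15_28_3_211)) (pfC_sound p15_28_3_212)) (pfC_sound p15_28_3_213)) (pfC_sound p15_28_3_214)) (pfC_sound p15_28_3_215)) (pfC_sound p15_28_3_216)) (pfC_sound p15_28_3_217)) (pfC_sound p15_28_3_218)) (pfC_sound p15_28_3_219)) (pfC_sound p15_28_3_220)) (pfC_sound p15_28_3_221)) (pfC_sound p15_28_3_222)) (pfC_sound p15_28_3_223)) (pfC_sound p15_28_3_224)) (pfC_sound p15_28_3_225)) (pfC_sound p15_28_3_226)) (pfC_sound
 p15_28_3_227)) (pfC_sound p15_28_3_228)) (pfC_sound p15_28_3_229)) (pfC_sound p15_28_3_230)) (pfC_sound p15_28_3_231)) (pfC_sound p15_28_3_232)) (pfC_sound p15_28_3_233)) (pfC_sound p15_28_3_234)) (by decide +kernel)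

def z15_28_3 : zOK yB15_28 (nat_lit 3) (nat_lit 750) (nat_lit 792) (nat_lit 5041812) (nat_lit 4557065) = true := by decide +kernel
def g15_28_3 : gOK yB15_28.x P15_28 (nat_lit 1409) (q15_28 :: r15_28) (nat_lit 3) (nat_lit 750) (nat_lit 4) (nat_lit 792) (nat_lit 12712500) (nat_lit 12712500) (nat_lit 12712500) (nat_lit 12712500) [(nat_lit 800)] = true := by decide +kernel
def v15_28_3 : ivC P15_28 s15_28 w15_28 n15_28 (nat_lit 4) (nat_lit 4600) (nat_lit 3) (nat_lit 750) f168_1_750 f176_1_750 (nat_lit 4) (nat_lit 792) f168_1_792 f176_1_792 (nat_lit 5041812) (nat_lit 4557065) p15_28_3 = true := by decide +kernel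
end CB
end Pool.Agent.Lib.MP_6947cd_al
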